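import Pool.Agent.Lib.MP_5854e1_co.DtD

/-!
# Windows and cells of the rings
-/

set_option autoImplicit false
set_option maxRecDepth 100000
set_option deprecated.oldSectionVars true

namespace Pool.Agent.Lib.MP_5854e1_co.Cz

open Pool.Agent.Lib.MP_5854e1_co

noncomputable section

noncomputable def tv5580 : DT := (.nd (nat_lit 0) (.nd (nat_lit 1) (.nd (nat_lit 2) (.nd (nat_lit 3) (.nd (nat_lit 4) (.nd (nat_lit 5) (.nd (nat_lit 6) (.nd (nat_lit 7) (.nd (nat_lit 8) (.nd (nat_lit 9) 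
(.lf (nat_lit 532480) (.g (nat_lit 4130) (.e (nat_lit 57379) (nat_lit 3) (.e (nat_lit 98342) (nat_lit 20) (.e (nat_lit 221212) (nat_lit 22) (.e (nat_lit 196670) (nat_lit 14) (.e (nat_lit 73746) (nat_lit 3) (.e (nat_lit 516119) (nat_lit 1) (.e (nat_lit 164176) (nat_lit 154) .nil))))))) (.g (nat_lit 1) (.e (nat_lit 251408) (nat_lit 0) .nil) .nil))) 
(.lf (nat_lit 532992) (.g (nat_lit 3011) (.e (nat_lit 57388) (nat_lit 5) (.e (nat_lit 114698) (nat_lit 11) (.e (nat_lit 426197) (nat_lit 9) (.e (nat_lit 426555) (nat_lit 32) (.e (nat_lit 376859) (nat_lit 21) (.e (nat_lit 57851) (nat_lit 252) .nil)))))) (.g (nat_lit 1) (.e (nat_lit 252068) (nat_lit 0) .nil) .nil)))) (.nd (nat_lit 9) 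
(.lf (nat_lit 532736) (.g (nat_lit 2731) (.e (nat_lit 57379) (nat_lit 3) (.e (nat_lit 98367) (nat_lit 27) (.e (nat_lit 434246) (nat_lit 28) (.e (nat_lit 573489) (nat_lit 14) (.e (nat_lit 73755) (nat_lit 8) (.e (nat_lit 557091) (nat_lit 12) (.e (nat_lit 163840) (nat_lit 0) (.e (nat_lit 5939) (nat_lit 322) .nil)))))))) (.g (nat_lit 1) (.e (nat_lit 251664) (nat_lit 0) .nil) .nil))) 
(.lf (nat_lit 533248) (.g (nat_lit 3531) (.e (nat_lit 57389) (nat_lit 5) (.e (nat_lit 114698) (nat_lit 11) (.e (nat_lit 426200) (nat_lit 9) (.e (nat_lit 426555) (nat_lit 32) (.e (nat_lit 376857) (nat_lit 21) (.e (nat_lit 57844) (nat_lit 252) .nil)))))) (.g (nat_lit 1) (.e (nat_lit 252506) (nat_lit 0) .nil) .nil))))) (.nd (nat_lit 8) (.nd (nat_lit 9) 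
(.lf (nat_lit 532608) (.g (nat_lit 2404) (.e (nat_lit 57379) (nat_lit 3) (.e (nat_lit 98366) (nat_lit 27) (.e (nat_lit 434231) (nat_lit 23) (.e (nat_lit 532514) (nat_lit 3) (.e (nat_lit 114716) (nat_lit 22) (.e (nat_lit 90181) (nat_lit 16) (.e (nat_lit 229376) (nat_lit 0) (.e (nat_lit 5935) (nat_lit 322) .nil)))))))) (.g (nat_lit 1) (.e (nat_lit 251536) (nat_lit 0) .nil) .nil))) 
(.lf (nat_lit 533120) (.g (nat_lit 2185) (.e (nat_lit 57389) (nat_lit 5) (.e (nat_lit 114697) (nat_lit 11) (.e (nat_lit 426190) (nat_lit 9) (.e (nat_lit 426555) (nat_lit 32) (.e (nat_lit 376856) (nat_lit 21) .nil))))) (.g (nat_lit 0) (.e (nat_lit 252312) (nat_lit 0) .nil) .nil)))) (.nd (nat_lit 9) 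
(.lf (nat_lit 532864) (.g (nat_lit 2696) (.e (nat_lit 57388) (nat_lit 5) (.e (nat_lit 114697) (nat_lit 11) (.e (nat_lit 426197) (nat_lit 9) (.e (nat_lit 426555) (nat_lit 32) (.e (nat_lit 376857) (nat_lit 21) (.e (nat_lit 57847) (nat_lit 252) .nil)))))) (.g (nat_lit 1) (.e (nat_lit 251848) (nat_lit 0) .nil) .nil))) 
(.lf (nat_lit 533376) (.g (nat_lit 3019) (.e (nat_lit 57405) (nat_lit 12) (.e (nat_lit 336456) (nat_lit 34) (.e (nat_lit 483383) (nat_lit 23) (.e (nat_lit 336324) (nat_lit 18) (.e (nat_lit 204831) (nat_lit 18) .nil))))) (.g (nat_lit 0) (.e (nat_lit 252808) (nat_lit 0) .nil) .nil)))))) (.nd (nat_lit 7) (.nd (nat_lit 8) (.nd (nat_lit 9) 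
(.lf (nat_lit 532544) (.g (nat_lit 2615) (.e (nat_lit 57379) (nat_lit 3) (.e (nat_lit 98365) (nat_lit 26) (.e (nat_lit 426325) (nat_lit 13) (.e (nat_lit 483337) (nat_lit 9) (.e (nat_lit 426009) (nat_lit 0) (.e (nat_lit 2469) (nat_lit 157) (.e (nat_lit 5939) (nat_lit 322) .nil))))))) (.g (nat_lit 1) (.e (nat_lit 251472) (nat_lit 0) .nil) .nil))) 
(.lf (nat_lit 533056) (.g (nat_lit 3712) (.e (nat_lit 57388) (nat_lit 5) (.e (nat_lit 114698) (nat_lit 11) (.e (nat_lit 426200) (nat_lit 9) (.e (nat_lit 426555) (nat_lit 32) (.e (nat_lit 376857) (nat_lit 21) (.e (nat_lit 57852) (nat_lit 252) .nil)))))) (.g (nat_lit 1) (.e (nat_lit 252132) (nat_lit 0) .nil) .nil)))) (.nd (nat_lit 9) 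
(.lf (nat_lit 532800) (.g (nat_lit 1696) (.e (nat_lit 57388) (nat_lit 5) (.e (nat_lit 114696) (nat_lit 11) (.e (nat_lit 426230) (nat_lit 9) (.e (nat_lit 426554) (nat_lit 32) (.e (nat_lit 376857) (nat_lit 21) (.e (nat_lit 57852) (nat_lit 252) .nil)))))) (.g (nat_lit 1) (.e (nat_lit 251784) (nat_lit 0) .nil) .nil))) 
(.lf (nat_lit 533312) (.g (nat_lit 2845) (.e (nat_lit 57390) (nat_lit 5) (.e (nat_lit 114697) (nat_lit 11) (.e (nat_lit 426199) (nat_lit 9) (.e (nat_lit 426555) (nat_lit 32) (.e (nat_lit 376859) (nat_lit 21) (.e (nat_lit 57846) (nat_lit 252) .nil)))))) (.g (nat_lit 1) (.e (nat_lit 252636) (nat_lit 0) .nil) .nil))))) (.nd (nat_lit 8) (.nd (nat_lit 9) 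
(.lf (nat_lit 532672) (.g (nat_lit 4692) (.e (nat_lit 57379) (nat_lit 3) (.e (nat_lit 98366) (nat_lit 27) (.e (nat_lit 434247) (nat_lit 28) (.e (nat_lit 573489) (nat_lit 14) (.e (nat_lit 73755) (nat_lit 8) (.e (nat_lit 557090) (nat_lit 12) (.e (nat_lit 163850) (nat_lit 0) (.e (nat_lit 5939) (nat_lit 322) .nil)))))))) (.g (nat_lit 1) (.e (nat_lit 251600) (nat_lit 0) .nil) .nil))) 
(.lf (nat_lit 533184) (.g (nat_lit 3202) (.e (nat_lit 57389) (nat_lit 5) (.e (nat_lit 114698) (nat_lit 11) (.e (nat_lit 426188) (nat_lit 9) (.e (nat_lit 426555) (nat_lit 32) (.e (nat_lit 376860) (nat_lit 21) (.e (nat_lit 57851) (nat_lit 252) .nil)))))) (.g (nat_lit 1) (.e (nat_lit 252442) (nat_lit 0) .nil) .nil)))) (.nd (nat_lit 9) 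
(.lf (nat_lit 532928) (.g (nat_lit 3489) (.e (nat_lit 57388) (nat_lit 5) (.e (nat_lit 114697) (nat_lit 11) (.e (nat_lit 426200) (nat_lit 9) (.e (nat_lit 426555) (nat_lit 32) (.e (nat_lit 376860) (nat_lit 21) (.e (nat_lit 57853) (nat_lit 252) .nil)))))) (.g (nat_lit 1) (.e (nat_lit 251913) (nat_lit 0) .nil) .nil))) 
(.lf (nat_lit 533440) (.g (nat_lit 1908) (.e (nat_lit 57406) (nat_lit 12) (.e (nat_lit 336316) (nat_lit 17) (.e (nat_lit 196666) (nat_lit 13) (.e (nat_lit 65617) (nat_lit 10) (.e (nat_lit 344095) (nat_lit 18) .nil))))) (.g (nat_lit 0) (.e (nat_lit 252879) (nat_lit 0) .nil) .nil))))))) (.nd (nat_lit 6) (.nd (nat_lit 7) (.nd (nat_lit 8) (.nd (nat_lit 9) 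
(.lf (nat_lit 532512) (.g (nat_lit 3035) (.e (nat_lit 57379) (nat_lit 3) (.e (nat_lit 98350) (nat_lit 24) (.e (nat_lit 409646) (nat_lit 18) (.e (nat_lit 303119) (nat_lit 3) (.e (nat_lit 204863) (nat_lit 27) .nil))))) (.g (nat_lit 0) (.e (nat_lit 251440) (nat_lit 0) .nil) .nil))) 
(.lf (nat_lit 533024) (.g (nat_lit 3247) (.e (nat_lit 57388) (nat_lit 5) (.e (nat_lit 114698) (nat_lit 11) (.e (nat_lit 426198) (nat_lit 9) (.e (nat_lit 426555) (nat_lit 32) (.e (nat_lit 376859) (nat_lit 21) (.e (nat_lit 57847) (nat_lit 252) .nil)))))) (.g (nat_lit 1) (.e (nat_lit 252100) (nat_lit 0) .nil) .nil)))) (.nd (nat_lit 9) 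
(.lf (nat_lit 532768) (.g (nat_lit 1981) (.e (nat_lit 57379) (nat_lit 3) (.e (nat_lit 98387) (nat_lit 33) (.e (nat_lit 491571) (nat_lit 13) (.e (nat_lit 393229) (nat_lit 9) .nil)))) (.g (nat_lit 0) (.e (nat_lit 251696) (nat_lit 0) .nil) .nil))) 
(.lf (nat_lit 533280) (.g (nat_lit 2336) (.e (nat_lit 57389) (nat_lit 5) (.e (nat_lit 114716) (nat_lit 22) (.e (nat_lit 90158) (nat_lit 11) (.e (nat_lit 24648) (nat_lit 12) (.e (nat_lit 385066) (nat_lit 26) (.e (nat_lit 540416) (nat_lit 18) (.e (nat_lit 164399) (nat_lit 256) .nil))))))) (.g (nat_lit 1) (.e (nat_lit 252597) (nat_lit 0) .nil) .nil))))) (.nd (nat_lit 8) (.nd (nat_lit 9) 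
(.lf (nat_lit 532640) (.g (nat_lit 2932) (.e (nat_lit 57379) (nat_lit 3) (.e (nat_lit 98366) (nat_lit 27) (.e (nat_lit 434244) (nat_lit 28) (.e (nat_lit 573488) (nat_lit 14) (.e (nat_lit 73755) (nat_lit 8) (.e (nat_lit 557090) (nat_lit 12) (.e (nat_lit 163841) (nat_lit 0) (.e (nat_lit 5933) (nat_lit 322) .nil)))))))) (.g (nat_lit 1) (.e (nat_lit 251568) (nat_lit 0) .nil) .nil))) 
(.lf (nat_lit 533152) (.g (nat_lit 2626) (.e (nat_lit 57389) (nat_lit 5) (.e (nat_lit 114697) (nat_lit 11) (.e (nat_lit 426199) (nat_lit 9) (.e (nat_lit 426555) (nat_lit 32) (.e (nat_lit 376856) (nat_lit 21) (.e (nat_lit 57854) (nat_lit 252) .nil)))))) (.g (nat_lit 1) (.e (nat_lit 252344) (nat_lit 0) .nil) .nil)))) (.nd (nat_lit 9) 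
(.lf (nat_lit 532896) (.g (nat_lit 2387) (.e (nat_lit 57388) (nat_lit 5) (.e (nat_lit 114697) (nat_lit 11) (.e (nat_lit 426199) (nat_lit 9) (.e (nat_lit 426555) (nat_lit 32) (.e (nat_lit 376856) (nat_lit 21) .nil))))) (.g (nat_lit 0) (.e (nat_lit 251881) (nat_lit 0) .nil) .nil))) 
(.lf (nat_lit 533408) (.g (nat_lit 5406) (.e (nat_lit 57406) (nat_lit 12) (.e (nat_lit 336019) (nat_lit 3) (.e (nat_lit 98373) (nat_lit 29) (.e (nat_lit 450587) (nat_lit 10) (.e (nat_lit 573475) (nat_lit 12) (.e (nat_lit 57347) (nat_lit 0) (.e (nat_lit 7265) (nat_lit 384) .nil))))))) (.g (nat_lit 1) (.e (nat_lit 252844) (nat_lit 0) .nil) .nil)))))) 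
(.nd (nat_lit 7) (.nd (nat_lit 8) (.nd (nat_lit 9) 
(.lf (nat_lit 532576) (.g (nat_lit 2518) (.e (nat_lit 57379) (nat_lit 3) (.e (nat_lit 98365) (nat_lit 26) (.e (nat_lit 426325) (nat_lit 13) (.e (nat_lit 483341) (nat_lit 9) (.e (nat_lit 426009) (nat_lit 0) (.e (nat_lit 2469) (nat_lit 157) (.e (nat_lit 5935) (nat_lit 322) .nil))))))) (.g (nat_lit 1) (.e (nat_lit 251504) (nat_lit 0) .nil) .nil))) 
(.lf (nat_lit 533088) (.g (nat_lit 4156) (.e (nat_lit 57388) (nat_lit 5) (.e (nat_lit 114712) (nat_lit 21) (.e (nat_lit 57930) (nat_lit 282) (.e (nat_lit 163923) (nat_lit 15) (.e (nat_lit 450587) (nat_lit 10) (.e (nat_lit 573478) (nat_lit 12) (.e (nat_lit 57360) (nat_lit 0) (.e (nat_lit 5949) (nat_lit 322) .nil)))))))) (.g (nat_lit 1) (.e (nat_lit 252264) (nat_lit 0) .nil) .nil)))) 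
(.nd (nat_lit 9) 
(.lf (nat_lit 532832) (.g (nat_lit 2724) (.e (nat_lit 57388) (nat_lit 5) (.e (nat_lit 114697) (nat_lit 11) (.e (nat_lit 426188) (nat_lit 9) (.e (nat_lit 426555) (nat_lit 32) (.e (nat_lit 376857) (nat_lit 21) (.e (nat_lit 57852) (nat_lit 252) .nil)))))) (.g (nat_lit 1) (.e (nat_lit 251816) (nat_lit 0) .nil) .nil))) 
(.lf (nat_lit 533344) (.g (nat_lit 2118) (.e (nat_lit 57400) (nat_lit 10) (.e (nat_lit 319490) (nat_lit 0) (.e (nat_lit 5664) (nat_lit 312) (.e (nat_lit 2852) (nat_lit 184) (.e (nat_lit 426539) (nat_lit 29) (.e (nat_lit 352318) (nat_lit 24) (.e (nat_lit 123198) (nat_lit 266) .nil))))))) (.g (nat_lit 1) (.e (nat_lit 252712) (nat_lit 0) .nil) .nil))))) (.nd (nat_lit 8) (.nd (nat_lit 9) 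
(.lf (nat_lit 532704) (.g (nat_lit 2081) (.e (nat_lit 57379) (nat_lit 3) (.e (nat_lit 98367) (nat_lit 27) (.e (nat_lit 434231) (nat_lit 23) (.e (nat_lit 532507) (nat_lit 2) (.e (nat_lit 106540) (nat_lit 13) .nil))))) (.g (nat_lit 0) (.e (nat_lit 251632) (nat_lit 0) .nil) .nil))) 
(.lf (nat_lit 533216) (.g (nat_lit 3741) (.e (nat_lit 57389) (nat_lit 5) (.e (nat_lit 114698) (nat_lit 11) (.e (nat_lit 426198) (nat_lit 9) (.e (nat_lit 426542) (nat_lit 29) (.e (nat_lit 352307) (nat_lit 21) (.e (nat_lit 57853) (nat_lit 252) .nil)))))) (.g (nat_lit 1) (.e (nat_lit 252474) (nat_lit 0) .nil) .nil)))) (.nd (nat_lit 9) 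
(.lf (nat_lit 532960) (.g (nat_lit 3160) (.e (nat_lit 57388) (nat_lit 5) (.e (nat_lit 114698) (nat_lit 11) (.e (nat_lit 426190) (nat_lit 9) (.e (nat_lit 426555) (nat_lit 32) (.e (nat_lit 376857) (nat_lit 21) (.e (nat_lit 57848) (nat_lit 252) .nil)))))) (.g (nat_lit 1) (.e (nat_lit 252036) (nat_lit 0) .nil) .nil))) 
(.lf (nat_lit 533472) (.g (nat_lit 3647) (.e (nat_lit 57406) (nat_lit 12) (.e (nat_lit 336454) (nat_lit 34) (.e (nat_lit 483385) (nat_lit 23) (.e (nat_lit 336324) (nat_lit 18) (.e (nat_lit 204831) (nat_lit 18) (.e (nat_lit 57844) (nat_lit 252) .nil)))))) (.g (nat_lit 1) (.e (nat_lit 252940) (nat_lit 0) .nil) .nil)))))))) 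
(.nd (nat_lit 5) (.nd (nat_lit 6) (.nd (nat_lit 7) (.nd (nat_lit 8) (.nd (nat_lit 9) 
(.lf (nat_lit 532496) (.g (nat_lit 3992) (.e (nat_lit 57379) (nat_lit 3) (.e (nat_lit 98342) (nat_lit 20) (.e (nat_lit 221215) (nat_lit 23) (.e (nat_lit 204861) (nat_lit 26) (.e (nat_lit 336025) (nat_lit 3) (.e (nat_lit 98333) (nat_lit 18) (.e (nat_lit 164177) (nat_lit 154) .nil))))))) (.g (nat_lit 1) (.e (nat_lit 251424) (nat_lit 0) .nil) .nil))) 
(.lf (nat_lit 533008) (.g (nat_lit 3778) (.e (nat_lit 57388) (nat_lit 5) (.e (nat_lit 114698) (nat_lit 11) (.e (nat_lit 426198) (nat_lit 9) (.e (nat_lit 426542) (nat_lit 29) (.e (nat_lit 352307) (nat_lit 21) (.e (nat_lit 57853) (nat_lit 252) .nil)))))) (.g (nat_lit 1) (.e (nat_lit 252084) (nat_lit 0) .nil) .nil)))) (.nd (nat_lit 9) 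
(.lf (nat_lit 532752) (.g (nat_lit 3224) (.e (nat_lit 57379) (nat_lit 3) (.e (nat_lit 98367) (nat_lit 27) (.e (nat_lit 434248) (nat_lit 28) (.e (nat_lit 573489) (nat_lit 14) (.e (nat_lit 73755) (nat_lit 8) (.e (nat_lit 557091) (nat_lit 12) (.e (nat_lit 163841) (nat_lit 0) (.e (nat_lit 5943) (nat_lit 322) .nil)))))))) (.g (nat_lit 1) (.e (nat_lit 251680) (nat_lit 0) .nil) .nil))) 
(.lf (nat_lit 533264) (.g (nat_lit 3208) (.e (nat_lit 57389) (nat_lit 5) (.e (nat_lit 114698) (nat_lit 11) (.e (nat_lit 426327) (nat_lit 13) (.e (nat_lit 483393) (nat_lit 23) (.e (nat_lit 335988) (nat_lit 1) (.e (nat_lit 57852) (nat_lit 252) .nil)))))) (.g (nat_lit 1) (.e (nat_lit 252541) (nat_lit 0) .nil) .nil))))) (.nd (nat_lit 8) (.nd (nat_lit 9) 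
(.lf (nat_lit 532624) (.g (nat_lit 3586) (.e (nat_lit 57379) (nat_lit 3) (.e (nat_lit 98366) (nat_lit 27) (.e (nat_lit 434244) (nat_lit 28) (.e (nat_lit 573481) (nat_lit 13) (.e (nat_lit 65571) (nat_lit 3) (.e (nat_lit 98319) (nat_lit 17) (.e (nat_lit 2399) (nat_lit 157) (.e (nat_lit 6828) (nat_lit 367) .nil)))))))) (.g (nat_lit 1) (.e (nat_lit 251552) (nat_lit 0) .nil) .nil))) 
(.lf (nat_lit 533136) (.g (nat_lit 294) (.e (nat_lit 57389) (nat_lit 5) (.e (nat_lit 114697) (nat_lit 11) (.e (nat_lit 426198) (nat_lit 9) .nil))) (.g (nat_lit 0) (.e (nat_lit 252328) (nat_lit 0) .nil) .nil)))) (.nd (nat_lit 9) 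
(.lf (nat_lit 532880) (.g (nat_lit 3055) (.e (nat_lit 57388) (nat_lit 5) (.e (nat_lit 114697) (nat_lit 11) (.e (nat_lit 426198) (nat_lit 9) (.e (nat_lit 426555) (nat_lit 32) (.e (nat_lit 376857) (nat_lit 21) (.e (nat_lit 57847) (nat_lit 252) .nil)))))) (.g (nat_lit 1) (.e (nat_lit 251864) (nat_lit 0) .nil) .nil))) 
(.lf (nat_lit 533392) (.g (nat_lit 3206) (.e (nat_lit 57406) (nat_lit 12) (.e (nat_lit 336019) (nat_lit 3) (.e (nat_lit 98359) (nat_lit 26) (.e (nat_lit 426286) (nat_lit 10) (.e (nat_lit 434248) (nat_lit 28) (.e (nat_lit 573473) (nat_lit 12) (.e (nat_lit 57348) (nat_lit 0) (.e (nat_lit 7265) (nat_lit 384) .nil)))))))) (.g (nat_lit 1) (.e (nat_lit 252828) (nat_lit 0) .nil) .nil)))))) 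
(.nd (nat_lit 7) (.nd (nat_lit 8) (.nd (nat_lit 9) 
(.lf (nat_lit 532560) (.g (nat_lit 3110) (.e (nat_lit 57379) (nat_lit 3) (.e (nat_lit 98365) (nat_lit 26) (.e (nat_lit 426325) (nat_lit 13) (.e (nat_lit 483337) (nat_lit 9) (.e (nat_lit 426098) (nat_lit 1) (.e (nat_lit 164397) (nat_lit 256) .nil)))))) (.g (nat_lit 1) (.e (nat_lit 251488) (nat_lit 0) .nil) .nil))) 
(.lf (nat_lit 533072) (.g (nat_lit 2665) (.e (nat_lit 57388) (nat_lit 5) (.e (nat_lit 114698) (nat_lit 11) (.e (nat_lit 426327) (nat_lit 13) (.e (nat_lit 483383) (nat_lit 23) (.e (nat_lit 336000) (nat_lit 1) (.e (nat_lit 57849) (nat_lit 252) .nil)))))) (.g (nat_lit 1) (.e (nat_lit 252179) (nat_lit 0) .nil) .nil)))) (.nd (nat_lit 9) 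
(.lf (nat_lit 532816) (.g (nat_lit 1772) (.e (nat_lit 57388) (nat_lit 5) (.e (nat_lit 114696) (nat_lit 11) (.e (nat_lit 426234) (nat_lit 9) (.e (nat_lit 426554) (nat_lit 32) (.e (nat_lit 376859) (nat_lit 21) (.e (nat_lit 57848) (nat_lit 252) .nil)))))) (.g (nat_lit 1) (.e (nat_lit 251800) (nat_lit 0) .nil) .nil))) 
(.lf (nat_lit 533328) (.g (nat_lit 2760) (.e (nat_lit 57390) (nat_lit 5) (.e (nat_lit 114698) (nat_lit 11) (.e (nat_lit 426198) (nat_lit 9) (.e (nat_lit 426555) (nat_lit 32) (.e (nat_lit 376859) (nat_lit 21) (.e (nat_lit 57846) (nat_lit 252) .nil)))))) (.g (nat_lit 1) (.e (nat_lit 252666) (nat_lit 0) .nil) .nil))))) (.nd (nat_lit 8) (.nd (nat_lit 9) 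
(.lf (nat_lit 532688) (.g (nat_lit 4071) (.e (nat_lit 57379) (nat_lit 3) (.e (nat_lit 98366) (nat_lit 27) (.e (nat_lit 434248) (nat_lit 28) (.e (nat_lit 573489) (nat_lit 14) (.e (nat_lit 73755) (nat_lit 8) (.e (nat_lit 557090) (nat_lit 12) (.e (nat_lit 163840) (nat_lit 0) (.e (nat_lit 5939) (nat_lit 322) .nil)))))))) (.g (nat_lit 1) (.e (nat_lit 251616) (nat_lit 0) .nil) .nil))) 
(.lf (nat_lit 533200) (.g (nat_lit 3594) (.e (nat_lit 57389) (nat_lit 5) (.e (nat_lit 114698) (nat_lit 11) (.e (nat_lit 426190) (nat_lit 9) (.e (nat_lit 426555) (nat_lit 32) (.e (nat_lit 376860) (nat_lit 21) (.e (nat_lit 57852) (nat_lit 252) .nil)))))) (.g (nat_lit 1) (.e (nat_lit 252458) (nat_lit 0) .nil) .nil)))) (.nd (nat_lit 9) 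
(.lf (nat_lit 532944) (.g (nat_lit 3293) (.e (nat_lit 57388) (nat_lit 5) (.e (nat_lit 114698) (nat_lit 11) (.e (nat_lit 426188) (nat_lit 9) (.e (nat_lit 426555) (nat_lit 32) (.e (nat_lit 376857) (nat_lit 21) (.e (nat_lit 57852) (nat_lit 252) .nil)))))) (.g (nat_lit 1) (.e (nat_lit 252020) (nat_lit 0) .nil) .nil))) 
(.lf (nat_lit 533456) (.g (nat_lit 1992) (.e (nat_lit 57406) (nat_lit 12) (.e (nat_lit 336443) (nat_lit 32) (.e (nat_lit 466977) (nat_lit 22) (.e (nat_lit 196655) (nat_lit 11) (.e (nat_lit 16405) (nat_lit 1) .nil))))) (.g (nat_lit 0) (.e (nat_lit 252923) (nat_lit 0) .nil) .nil))))))) (.nd (nat_lit 6) (.nd (nat_lit 7) (.nd (nat_lit 8) (.nd (nat_lit 9) 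
(.lf (nat_lit 532528) (.g (nat_lit 2162) (.e (nat_lit 57379) (nat_lit 3) (.e (nat_lit 98365) (nat_lit 26) (.e (nat_lit 426188) (nat_lit 9) (.e (nat_lit 426566) (nat_lit 34) (.e (nat_lit 393250) (nat_lit 18) (.e (nat_lit 164397) (nat_lit 256) .nil)))))) (.g (nat_lit 1) (.e (nat_lit 251456) (nat_lit 0) .nil) .nil))) 
(.lf (nat_lit 533040) (.g (nat_lit 3476) (.e (nat_lit 57388) (nat_lit 5) (.e (nat_lit 114698) (nat_lit 11) (.e (nat_lit 426199) (nat_lit 9) (.e (nat_lit 426555) (nat_lit 32) (.e (nat_lit 376857) (nat_lit 21) (.e (nat_lit 57852) (nat_lit 252) .nil)))))) (.g (nat_lit 1) (.e (nat_lit 252116) (nat_lit 0) .nil) .nil)))) (.nd (nat_lit 9) 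
(.lf (nat_lit 532784) (.g (nat_lit 749) (.e (nat_lit 57383) (nat_lit 4) (.e (nat_lit 106534) (nat_lit 11) (.e (nat_lit 16431) (nat_lit 9) .nil))) (.g (nat_lit 0) (.e (nat_lit 251739) (nat_lit 0) .nil) .nil))) 
(.lf (nat_lit 533296) (.g (nat_lit 1780) (.e (nat_lit 57390) (nat_lit 5) (.e (nat_lit 114697) (nat_lit 11) (.e (nat_lit 426188) (nat_lit 9) (.e (nat_lit 426555) (nat_lit 32) (.e (nat_lit 376859) (nat_lit 21) (.e (nat_lit 57848) (nat_lit 252) .nil)))))) (.g (nat_lit 1) (.e (nat_lit 252619) (nat_lit 0) .nil) .nil))))) (.nd (nat_lit 8) (.nd (nat_lit 9) 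
(.lf (nat_lit 532656) (.g (nat_lit 2818) (.e (nat_lit 57379) (nat_lit 3) (.e (nat_lit 98366) (nat_lit 27) (.e (nat_lit 434245) (nat_lit 28) (.e (nat_lit 573487) (nat_lit 14) (.e (nat_lit 73753) (nat_lit 8) (.e (nat_lit 557090) (nat_lit 12) (.e (nat_lit 163843) (nat_lit 0) (.e (nat_lit 5940) (nat_lit 322) .nil)))))))) (.g (nat_lit 1) (.e (nat_lit 251584) (nat_lit 0) .nil) .nil))) 
(.lf (nat_lit 533168) (.g (nat_lit 3834) (.e (nat_lit 57389) (nat_lit 5) (.e (nat_lit 114697) (nat_lit 11) (.e (nat_lit 426200) (nat_lit 9) (.e (nat_lit 426555) (nat_lit 32) (.e (nat_lit 376860) (nat_lit 21) (.e (nat_lit 57853) (nat_lit 252) .nil)))))) (.g (nat_lit 1) (.e (nat_lit 252360) (nat_lit 0) .nil) .nil)))) (.nd (nat_lit 9) 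
(.lf (nat_lit 532912) (.g (nat_lit 3230) (.e (nat_lit 57388) (nat_lit 5) (.e (nat_lit 114697) (nat_lit 11) (.e (nat_lit 426200) (nat_lit 9) (.e (nat_lit 426555) (nat_lit 32) (.e (nat_lit 376857) (nat_lit 21) (.e (nat_lit 57846) (nat_lit 252) .nil)))))) (.g (nat_lit 1) (.e (nat_lit 251897) (nat_lit 0) .nil) .nil))) 
(.lf (nat_lit 533424) (.g (nat_lit 3023) (.e (nat_lit 57406) (nat_lit 12) (.e (nat_lit 336120) (nat_lit 9) (.e (nat_lit 336407) (nat_lit 27) (.e (nat_lit 426343) (nat_lit 14) (.e (nat_lit 491560) (nat_lit 10) (.e (nat_lit 344090) (nat_lit 18) (.e (nat_lit 7265) (nat_lit 384) .nil))))))) (.g (nat_lit 1) (.e (nat_lit 252860) (nat_lit 0) .nil) .nil)))))) 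
(.nd (nat_lit 7) (.nd (nat_lit 8) (.nd (nat_lit 9) 
(.lf (nat_lit 532592) (.g (nat_lit 2041) (.e (nat_lit 57379) (nat_lit 3) (.e (nat_lit 98365) (nat_lit 26) (.e (nat_lit 426326) (nat_lit 13) (.e (nat_lit 483341) (nat_lit 9) (.e (nat_lit 426098) (nat_lit 1) (.e (nat_lit 164397) (nat_lit 256) .nil)))))) (.g (nat_lit 1) (.e (nat_lit 251520) (nat_lit 0) .nil) .nil))) 
(.lf (nat_lit 533104) (.g (nat_lit 2254) (.e (nat_lit 57389) (nat_lit 5) (.e (nat_lit 114695) (nat_lit 11) (.e (nat_lit 426262) (nat_lit 9) (.e (nat_lit 426554) (nat_lit 32) (.e (nat_lit 376857) (nat_lit 21) (.e (nat_lit 57854) (nat_lit 252) .nil)))))) (.g (nat_lit 1) (.e (nat_lit 252296) (nat_lit 0) .nil) .nil)))) (.nd (nat_lit 9) 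
(.lf (nat_lit 532848) (.g (nat_lit 2740) (.e (nat_lit 57388) (nat_lit 5) (.e (nat_lit 114697) (nat_lit 11) (.e (nat_lit 426190) (nat_lit 9) (.e (nat_lit 426555) (nat_lit 32) (.e (nat_lit 376857) (nat_lit 21) (.e (nat_lit 57848) (nat_lit 252) .nil)))))) (.g (nat_lit 1) (.e (nat_lit 251832) (nat_lit 0) .nil) .nil))) 
(.lf (nat_lit 533360) (.g (nat_lit 805) (.e (nat_lit 57404) (nat_lit 12) (.e (nat_lit 336443) (nat_lit 32) (.e (nat_lit 466981) (nat_lit 23) .nil))) (.g (nat_lit 0) (.e (nat_lit 252748) (nat_lit 0) .nil) .nil))))) (.nd (nat_lit 8) (.nd (nat_lit 9) 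
(.lf (nat_lit 532720) (.g (nat_lit 2638) (.e (nat_lit 57379) (nat_lit 3) (.e (nat_lit 98367) (nat_lit 27) (.e (nat_lit 434244) (nat_lit 28) (.e (nat_lit 573487) (nat_lit 14) (.e (nat_lit 73753) (nat_lit 8) (.e (nat_lit 557090) (nat_lit 12) (.e (nat_lit 163844) (nat_lit 0) (.e (nat_lit 5940) (nat_lit 322) .nil)))))))) (.g (nat_lit 1) (.e (nat_lit 251648) (nat_lit 0) .nil) .nil))) 
(.lf (nat_lit 533232) (.g (nat_lit 3192) (.e (nat_lit 57389) (nat_lit 5) (.e (nat_lit 114698) (nat_lit 11) (.e (nat_lit 426198) (nat_lit 9) (.e (nat_lit 426555) (nat_lit 32) (.e (nat_lit 376860) (nat_lit 21) (.e (nat_lit 57851) (nat_lit 252) .nil)))))) (.g (nat_lit 1) (.e (nat_lit 252490) (nat_lit 0) .nil) .nil)))) (.nd (nat_lit 9) 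
(.lf (nat_lit 532976) (.g (nat_lit 2985) (.e (nat_lit 57388) (nat_lit 5) (.e (nat_lit 114698) (nat_lit 11) (.e (nat_lit 426197) (nat_lit 9) (.e (nat_lit 426544) (nat_lit 30) (.e (nat_lit 360453) (nat_lit 0) (.e (nat_lit 5195) (nat_lit 294) .nil)))))) (.g (nat_lit 1) (.e (nat_lit 252052) (nat_lit 0) .nil) .nil))) 
(.lf (nat_lit 533488) (.g (nat_lit 1909) (.e (nat_lit 57406) (nat_lit 12) (.e (nat_lit 336456) (nat_lit 34) (.e (nat_lit 483383) (nat_lit 23) (.e (nat_lit 336265) (nat_lit 15) .nil)))) (.g (nat_lit 0) (.e (nat_lit 252956) (nat_lit 0) .nil) .nil))))))))) (.nd (nat_lit 4) (.nd (nat_lit 5) (.nd (nat_lit 6) (.nd (nat_lit 7) (.nd (nat_lit 8) (.nd (nat_lit 9) 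
(.lf (nat_lit 532488) (.g (nat_lit 2279) (.e (nat_lit 57379) (nat_lit 3) (.e (nat_lit 98342) (nat_lit 20) (.e (nat_lit 221215) (nat_lit 23) (.e (nat_lit 204855) (nat_lit 26) (.e (nat_lit 336020) (nat_lit 3) .nil))))) (.g (nat_lit 0) (.e (nat_lit 251416) (nat_lit 0) .nil) .nil))) 
(.lf (nat_lit 533000) (.g (nat_lit 1034) (.e (nat_lit 57388) (nat_lit 5) (.e (nat_lit 114698) (nat_lit 11) (.e (nat_lit 426198) (nat_lit 9) (.e (nat_lit 426538) (nat_lit 29) .nil)))) (.g (nat_lit 0) (.e (nat_lit 252076) (nat_lit 0) .nil) .nil)))) (.nd (nat_lit 9) 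
(.lf (nat_lit 532744) (.g (nat_lit 2907) (.e (nat_lit 57379) (nat_lit 3) (.e (nat_lit 98367) (nat_lit 27) (.e (nat_lit 434248) (nat_lit 28) (.e (nat_lit 573489) (nat_lit 14) (.e (nat_lit 73755) (nat_lit 8) (.e (nat_lit 557090) (nat_lit 12) (.e (nat_lit 163840) (nat_lit 0) (.e (nat_lit 5937) (nat_lit 322) .nil)))))))) (.g (nat_lit 1) (.e (nat_lit 251672) (nat_lit 0) .nil) .nil))) 
(.lf (nat_lit 533256) (.g (nat_lit 3233) (.e (nat_lit 57389) (nat_lit 5) (.e (nat_lit 114698) (nat_lit 11) (.e (nat_lit 426200) (nat_lit 9) (.e (nat_lit 426555) (nat_lit 32) (.e (nat_lit 376859) (nat_lit 21) (.e (nat_lit 57851) (nat_lit 252) .nil)))))) (.g (nat_lit 1) (.e (nat_lit 252514) (nat_lit 0) .nil) .nil))))) (.nd (nat_lit 8) (.nd (nat_lit 9) 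
(.lf (nat_lit 532616) (.g (nat_lit 2816) (.e (nat_lit 57379) (nat_lit 3) (.e (nat_lit 98366) (nat_lit 27) (.e (nat_lit 434231) (nat_lit 23) (.e (nat_lit 532579) (nat_lit 26) (.e (nat_lit 426123) (nat_lit 2) (.e (nat_lit 196661) (nat_lit 12) (.e (nat_lit 57352) (nat_lit 0) (.e (nat_lit 7695) (nat_lit 412) .nil)))))))) (.g (nat_lit 1) (.e (nat_lit 251544) (nat_lit 0) .nil) .nil))) 
(.lf (nat_lit 533128) (.g (nat_lit 2842) (.e (nat_lit 57389) (nat_lit 5) (.e (nat_lit 114697) (nat_lit 11) (.e (nat_lit 426190) (nat_lit 9) (.e (nat_lit 426555) (nat_lit 32) (.e (nat_lit 376859) (nat_lit 21) (.e (nat_lit 57851) (nat_lit 252) .nil)))))) (.g (nat_lit 1) (.e (nat_lit 252320) (nat_lit 0) .nil) .nil)))) (.nd (nat_lit 9) 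
(.lf (nat_lit 532872) (.g (nat_lit 3366) (.e (nat_lit 57388) (nat_lit 5) (.e (nat_lit 114697) (nat_lit 11) (.e (nat_lit 426198) (nat_lit 9) (.e (nat_lit 426542) (nat_lit 29) (.e (nat_lit 352307) (nat_lit 21) (.e (nat_lit 57853) (nat_lit 252) .nil)))))) (.g (nat_lit 1) (.e (nat_lit 251856) (nat_lit 0) .nil) .nil))) 
(.lf (nat_lit 533384) (.g (nat_lit 2373) (.e (nat_lit 57406) (nat_lit 12) (.e (nat_lit 336018) (nat_lit 3) (.e (nat_lit 98372) (nat_lit 29) (.e (nat_lit 450586) (nat_lit 10) (.e (nat_lit 573478) (nat_lit 12) (.e (nat_lit 57353) (nat_lit 0) (.e (nat_lit 7265) (nat_lit 384) .nil))))))) (.g (nat_lit 1) (.e (nat_lit 252820) (nat_lit 0) .nil) .nil)))))) 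
(.nd (nat_lit 7) (.nd (nat_lit 8) (.nd (nat_lit 9) 
(.lf (nat_lit 532552) (.g (nat_lit 2126) (.e (nat_lit 57379) (nat_lit 3) (.e (nat_lit 98365) (nat_lit 26) (.e (nat_lit 426325) (nat_lit 13) (.e (nat_lit 483337) (nat_lit 9) (.e (nat_lit 426031) (nat_lit 0) (.e (nat_lit 2466) (nat_lit 157) (.e (nat_lit 5935) (nat_lit 322) .nil))))))) (.g (nat_lit 1) (.e (nat_lit 251480) (nat_lit 0) .nil) .nil))) 
(.lf (nat_lit 533064) (.g (nat_lit 3702) (.e (nat_lit 57388) (nat_lit 5) (.e (nat_lit 114698) (nat_lit 11) (.e (nat_lit 426200) (nat_lit 9) (.e (nat_lit 426555) (nat_lit 32) (.e (nat_lit 376860) (nat_lit 21) (.e (nat_lit 57851) (nat_lit 252) .nil)))))) (.g (nat_lit 1) (.e (nat_lit 252140) (nat_lit 0) .nil) .nil)))) (.nd (nat_lit 9) 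
(.lf (nat_lit 532808) (.g (nat_lit 1736) (.e (nat_lit 57388) (nat_lit 5) (.e (nat_lit 114696) (nat_lit 11) (.e (nat_lit 426232) (nat_lit 9) (.e (nat_lit 426554) (nat_lit 32) (.e (nat_lit 376857) (nat_lit 21) (.e (nat_lit 57852) (nat_lit 252) .nil)))))) (.g (nat_lit 1) (.e (nat_lit 251792) (nat_lit 0) .nil) .nil))) 
(.lf (nat_lit 533320) (.g (nat_lit 1550) (.e (nat_lit 57390) (nat_lit 5) (.e (nat_lit 114698) (nat_lit 11) (.e (nat_lit 426188) (nat_lit 9) (.e (nat_lit 426546) (nat_lit 30) .nil)))) (.g (nat_lit 0) (.e (nat_lit 252658) (nat_lit 0) .nil) .nil))))) (.nd (nat_lit 8) (.nd (nat_lit 9) 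
(.lf (nat_lit 532680) (.g (nat_lit 4145) (.e (nat_lit 57379) (nat_lit 3) (.e (nat_lit 98366) (nat_lit 27) (.e (nat_lit 434248) (nat_lit 28) (.e (nat_lit 573487) (nat_lit 14) (.e (nat_lit 73753) (nat_lit 8) (.e (nat_lit 557090) (nat_lit 12) (.e (nat_lit 163844) (nat_lit 0) (.e (nat_lit 5943) (nat_lit 322) .nil)))))))) (.g (nat_lit 1) (.e (nat_lit 251608) (nat_lit 0) .nil) .nil))) 
(.lf (nat_lit 533192) (.g (nat_lit 2000) (.e (nat_lit 57389) (nat_lit 5) (.e (nat_lit 114698) (nat_lit 11) (.e (nat_lit 426190) (nat_lit 9) (.e (nat_lit 426555) (nat_lit 32) (.e (nat_lit 376858) (nat_lit 21) .nil))))) (.g (nat_lit 0) (.e (nat_lit 252450) (nat_lit 0) .nil) .nil)))) (.nd (nat_lit 9) 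
(.lf (nat_lit 532936) (.g (nat_lit 1568) (.e (nat_lit 57388) (nat_lit 5) (.e (nat_lit 114698) (nat_lit 11) (.e (nat_lit 426188) (nat_lit 9) (.e (nat_lit 426544) (nat_lit 30) .nil)))) (.g (nat_lit 0) (.e (nat_lit 252012) (nat_lit 0) .nil) .nil))) 
(.lf (nat_lit 533448) (.g (nat_lit 1496) (.e (nat_lit 57406) (nat_lit 12) (.e (nat_lit 336367) (nat_lit 27) (.e (nat_lit 426555) (nat_lit 32) (.e (nat_lit 376837) (nat_lit 0) .nil)))) (.g (nat_lit 0) (.e (nat_lit 252915) (nat_lit 0) .nil) .nil))))))) (.nd (nat_lit 6) (.nd (nat_lit 7) (.nd (nat_lit 8) (.nd (nat_lit 9) 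
(.lf (nat_lit 532520) (.g (nat_lit 2979) (.e (nat_lit 57379) (nat_lit 3) (.e (nat_lit 98358) (nat_lit 26) (.e (nat_lit 426323) (nat_lit 13) (.e (nat_lit 483337) (nat_lit 9) (.e (nat_lit 426098) (nat_lit 1) (.e (nat_lit 164398) (nat_lit 256) .nil)))))) (.g (nat_lit 1) (.e (nat_lit 251448) (nat_lit 0) .nil) .nil))) 
(.lf (nat_lit 533032) (.g (nat_lit 549) (.e (nat_lit 57388) (nat_lit 5) (.e (nat_lit 114698) (nat_lit 11) (.e (nat_lit 426199) (nat_lit 9) .nil))) (.g (nat_lit 0) (.e (nat_lit 252108) (nat_lit 0) .nil) .nil)))) (.nd (nat_lit 9) 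
(.lf (nat_lit 532776) (.g (nat_lit 1447) (.e (nat_lit 57382) (nat_lit 4) (.e (nat_lit 106536) (nat_lit 11) (.e (nat_lit 16416) (nat_lit 3) .nil))) (.g (nat_lit 0) (.e (nat_lit 251723) (nat_lit 0) .nil) .nil))) 
(.lf (nat_lit 533288) (.g (nat_lit 1783) (.e (nat_lit 57390) (nat_lit 5) (.e (nat_lit 114695) (nat_lit 11) (.e (nat_lit 426230) (nat_lit 9) (.e (nat_lit 426554) (nat_lit 32) (.e (nat_lit 376859) (nat_lit 21) (.e (nat_lit 57846) (nat_lit 252) .nil)))))) (.g (nat_lit 1) (.e (nat_lit 252611) (nat_lit 0) .nil) .nil))))) (.nd (nat_lit 8) (.nd (nat_lit 9) 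
(.lf (nat_lit 532648) (.g (nat_lit 4882) (.e (nat_lit 57379) (nat_lit 3) (.e (nat_lit 98366) (nat_lit 27) (.e (nat_lit 434244) (nat_lit 28) (.e (nat_lit 573488) (nat_lit 14) (.e (nat_lit 73755) (nat_lit 8) (.e (nat_lit 557090) (nat_lit 12) (.e (nat_lit 163850) (nat_lit 0) (.e (nat_lit 5939) (nat_lit 322) .nil)))))))) (.g (nat_lit 1) (.e (nat_lit 251576) (nat_lit 0) .nil) .nil))) 
(.lf (nat_lit 533160) (.g (nat_lit 3094) (.e (nat_lit 57389) (nat_lit 5) (.e (nat_lit 114697) (nat_lit 11) (.e (nat_lit 426199) (nat_lit 9) (.e (nat_lit 426555) (nat_lit 32) (.e (nat_lit 376860) (nat_lit 21) (.e (nat_lit 57851) (nat_lit 252) .nil)))))) (.g (nat_lit 1) (.e (nat_lit 252352) (nat_lit 0) .nil) .nil)))) (.nd (nat_lit 9) 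
(.lf (nat_lit 532904) (.g (nat_lit 2817) (.e (nat_lit 57388) (nat_lit 5) (.e (nat_lit 114697) (nat_lit 11) (.e (nat_lit 426199) (nat_lit 9) (.e (nat_lit 426555) (nat_lit 32) (.e (nat_lit 376859) (nat_lit 21) (.e (nat_lit 57844) (nat_lit 252) .nil)))))) (.g (nat_lit 1) (.e (nat_lit 251889) (nat_lit 0) .nil) .nil))) 
(.lf (nat_lit 533416) (.g (nat_lit 4803) (.e (nat_lit 57406) (nat_lit 12) (.e (nat_lit 336019) (nat_lit 3) (.e (nat_lit 98373) (nat_lit 29) (.e (nat_lit 450588) (nat_lit 10) (.e (nat_lit 573475) (nat_lit 12) .nil))))) (.g (nat_lit 0) (.e (nat_lit 252852) (nat_lit 0) .nil) .nil)))))) (.nd (nat_lit 7) (.nd (nat_lit 8) (.nd (nat_lit 9) 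
(.lf (nat_lit 532584) (.g (nat_lit 2348) (.e (nat_lit 57379) (nat_lit 3) (.e (nat_lit 98365) (nat_lit 26) (.e (nat_lit 426325) (nat_lit 13) (.e (nat_lit 483341) (nat_lit 9) (.e (nat_lit 426029) (nat_lit 0) (.e (nat_lit 2473) (nat_lit 157) (.e (nat_lit 5939) (nat_lit 322) .nil))))))) (.g (nat_lit 1) (.e (nat_lit 251512) (nat_lit 0) .nil) .nil))) 
(.lf (nat_lit 533096) (.g (nat_lit 2376) (.e (nat_lit 57389) (nat_lit 5) (.e (nat_lit 114694) (nat_lit 11) (.e (nat_lit 426200) (nat_lit 9) (.e (nat_lit 426555) (nat_lit 32) (.e (nat_lit 376859) (nat_lit 21) (.e (nat_lit 57844) (nat_lit 252) .nil)))))) (.g (nat_lit 1) (.e (nat_lit 252276) (nat_lit 0) .nil) .nil)))) (.nd (nat_lit 9) 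
(.lf (nat_lit 532840) (.g (nat_lit 2736) (.e (nat_lit 57388) (nat_lit 5) (.e (nat_lit 114697) (nat_lit 11) (.e (nat_lit 426188) (nat_lit 9) (.e (nat_lit 426555) (nat_lit 32) (.e (nat_lit 376860) (nat_lit 21) (.e (nat_lit 57851) (nat_lit 252) .nil)))))) (.g (nat_lit 1) (.e (nat_lit 251824) (nat_lit 0) .nil) .nil))) 
(.lf (nat_lit 533352) (.g (nat_lit 2011) (.e (nat_lit 57400) (nat_lit 10) (.e (nat_lit 319490) (nat_lit 0) (.e (nat_lit 5664) (nat_lit 312) (.e (nat_lit 3085) (nat_lit 191) (.e (nat_lit 483382) (nat_lit 23) (.e (nat_lit 336036) (nat_lit 4) (.e (nat_lit 123198) (nat_lit 266) .nil))))))) (.g (nat_lit 1) (.e (nat_lit 252720) (nat_lit 0) .nil) .nil))))) (.nd (nat_lit 8) (.nd (nat_lit 9) 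
(.lf (nat_lit 532712) (.g (nat_lit 2381) (.e (nat_lit 57379) (nat_lit 3) (.e (nat_lit 98367) (nat_lit 27) (.e (nat_lit 434231) (nat_lit 23) (.e (nat_lit 532513) (nat_lit 3) (.e (nat_lit 114719) (nat_lit 23) .nil))))) (.g (nat_lit 0) (.e (nat_lit 251640) (nat_lit 0) .nil) .nil))) 
(.lf (nat_lit 533224) (.g (nat_lit 3058) (.e (nat_lit 57389) (nat_lit 5) (.e (nat_lit 114698) (nat_lit 11) (.e (nat_lit 426198) (nat_lit 9) (.e (nat_lit 426555) (nat_lit 32) (.e (nat_lit 376857) (nat_lit 21) (.e (nat_lit 57851) (nat_lit 252) .nil)))))) (.g (nat_lit 1) (.e (nat_lit 252482) (nat_lit 0) .nil) .nil)))) (.nd (nat_lit 9) 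
(.lf (nat_lit 532968) (.g (nat_lit 3150) (.e (nat_lit 57388) (nat_lit 5) (.e (nat_lit 114698) (nat_lit 11) (.e (nat_lit 426190) (nat_lit 9) (.e (nat_lit 426555) (nat_lit 32) (.e (nat_lit 376860) (nat_lit 21) (.e (nat_lit 57851) (nat_lit 252) .nil)))))) (.g (nat_lit 1) (.e (nat_lit 252044) (nat_lit 0) .nil) .nil))) 
(.lf (nat_lit 533480) (.g (nat_lit 3632) (.e (nat_lit 57406) (nat_lit 12) (.e (nat_lit 336456) (nat_lit 34) (.e (nat_lit 483380) (nat_lit 23) (.e (nat_lit 336324) (nat_lit 18) (.e (nat_lit 204831) (nat_lit 18) (.e (nat_lit 57844) (nat_lit 252) .nil)))))) (.g (nat_lit 1) (.e (nat_lit 252948) (nat_lit 0) .nil) .nil)))))))) 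
(.nd (nat_lit 5) (.nd (nat_lit 6) (.nd (nat_lit 7) (.nd (nat_lit 8) (.nd (nat_lit 9) 
(.lf (nat_lit 532504) (.g (nat_lit 3028) (.e (nat_lit 57379) (nat_lit 3) (.e (nat_lit 98342) (nat_lit 20) (.e (nat_lit 221215) (nat_lit 23) (.e (nat_lit 204862) (nat_lit 27) (.e (nat_lit 344117) (nat_lit 21) (.e (nat_lit 516106) (nat_lit 0) (.e (nat_lit 2478) (nat_lit 157) (.e (nat_lit 6398) (nat_lit 339) .nil)))))))) (.g (nat_lit 1) (.e (nat_lit 251432) (nat_lit 0) .nil) .nil))) 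
(.lf (nat_lit 533016) (.g (nat_lit 3506) (.e (nat_lit 57388) (nat_lit 5) (.e (nat_lit 114698) (nat_lit 11) (.e (nat_lit 426198) (nat_lit 9) (.e (nat_lit 426555) (nat_lit 32) (.e (nat_lit 376857) (nat_lit 21) (.e (nat_lit 57846) (nat_lit 252) .nil)))))) (.g (nat_lit 1) (.e (nat_lit 252092) (nat_lit 0) .nil) .nil)))) (.nd (nat_lit 9) 
(.lf (nat_lit 532760) (.g (nat_lit 2844) (.e (nat_lit 57379) (nat_lit 3) (.e (nat_lit 98368) (nat_lit 27) (.e (nat_lit 434248) (nat_lit 28) (.e (nat_lit 573489) (nat_lit 14) (.e (nat_lit 73755) (nat_lit 8) (.e (nat_lit 557090) (nat_lit 12) (.e (nat_lit 163840) (nat_lit 0) (.e (nat_lit 5937) (nat_lit 322) .nil)))))))) (.g (nat_lit 1) (.e (nat_lit 251688) (nat_lit 0) .nil) .nil))) 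
(.lf (nat_lit 533272) (.g (nat_lit 4647) (.e (nat_lit 57389) (nat_lit 5) (.e (nat_lit 114712) (nat_lit 21) (.e (nat_lit 57929) (nat_lit 282) (.e (nat_lit 163923) (nat_lit 15) (.e (nat_lit 450587) (nat_lit 10) (.e (nat_lit 573475) (nat_lit 12) (.e (nat_lit 57360) (nat_lit 0) (.e (nat_lit 5949) (nat_lit 322) .nil)))))))) (.g (nat_lit 1) (.e (nat_lit 252589) (nat_lit 0) .nil) .nil))))) 
(.nd (nat_lit 8) (.nd (nat_lit 9) 
(.lf (nat_lit 532632) (.g (nat_lit 3785) (.e (nat_lit 57379) (nat_lit 3) (.e (nat_lit 98366) (nat_lit 27) (.e (nat_lit 434244) (nat_lit 28) (.e (nat_lit 573487) (nat_lit 14) (.e (nat_lit 73753) (nat_lit 8) (.e (nat_lit 557091) (nat_lit 12) (.e (nat_lit 163840) (nat_lit 0) (.e (nat_lit 5939) (nat_lit 322) .nil)))))))) (.g (nat_lit 1) (.e (nat_lit 251560) (nat_lit 0) .nil) .nil))) 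
(.lf (nat_lit 533144) (.g (nat_lit 2865) (.e (nat_lit 57389) (nat_lit 5) (.e (nat_lit 114697) (nat_lit 11) (.e (nat_lit 426198) (nat_lit 9) (.e (nat_lit 426555) (nat_lit 32) (.e (nat_lit 376857) (nat_lit 21) (.e (nat_lit 57852) (nat_lit 252) .nil)))))) (.g (nat_lit 1) (.e (nat_lit 252336) (nat_lit 0) .nil) .nil)))) (.nd (nat_lit 9) 
(.lf (nat_lit 532888) (.g (nat_lit 2555) (.e (nat_lit 57388) (nat_lit 5) (.e (nat_lit 114697) (nat_lit 11) (.e (nat_lit 426198) (nat_lit 9) (.e (nat_lit 426555) (nat_lit 32) (.e (nat_lit 376859) (nat_lit 21) (.e (nat_lit 57848) (nat_lit 252) .nil)))))) (.g (nat_lit 1) (.e (nat_lit 251872) (nat_lit 0) .nil) .nil))) 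
(.lf (nat_lit 533400) (.g (nat_lit 4982) (.e (nat_lit 57406) (nat_lit 12) (.e (nat_lit 336019) (nat_lit 3) (.e (nat_lit 98372) (nat_lit 29) (.e (nat_lit 450588) (nat_lit 10) (.e (nat_lit 573473) (nat_lit 12) (.e (nat_lit 57348) (nat_lit 0) (.e (nat_lit 7265) (nat_lit 384) .nil))))))) (.g (nat_lit 1) (.e (nat_lit 252836) (nat_lit 0) .nil) .nil)))))) 
(.nd (nat_lit 7) (.nd (nat_lit 8) (.nd (nat_lit 9) 
(.lf (nat_lit 532568) (.g (nat_lit 2250) (.e (nat_lit 57379) (nat_lit 3) (.e (nat_lit 98365) (nat_lit 26) (.e (nat_lit 426325) (nat_lit 13) (.e (nat_lit 483338) (nat_lit 9) .nil)))) (.g (nat_lit 0) (.e (nat_lit 251496) (nat_lit 0) .nil) .nil))) 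
(.lf (nat_lit 533080) (.g (nat_lit 3360) (.e (nat_lit 57388) (nat_lit 5) (.e (nat_lit 114698) (nat_lit 11) (.e (nat_lit 426335) (nat_lit 13) (.e (nat_lit 483393) (nat_lit 23) (.e (nat_lit 335988) (nat_lit 1) (.e (nat_lit 57852) (nat_lit 252) .nil)))))) (.g (nat_lit 1) (.e (nat_lit 252238) (nat_lit 0) .nil) .nil)))) (.nd (nat_lit 9) 
(.lf (nat_lit 532824) (.g (nat_lit 2071) (.e (nat_lit 57388) (nat_lit 5) (.e (nat_lit 114696) (nat_lit 11) (.e (nat_lit 426262) (nat_lit 9) (.e (nat_lit 426554) (nat_lit 32) (.e (nat_lit 376857) (nat_lit 21) (.e (nat_lit 57853) (nat_lit 252) .nil)))))) (.g (nat_lit 1) (.e (nat_lit 251808) (nat_lit 0) .nil) .nil))) 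
(.lf (nat_lit 533336) (.g (nat_lit 1975) (.e (nat_lit 57390) (nat_lit 5) (.e (nat_lit 114711) (nat_lit 21) (.e (nat_lit 57847) (nat_lit 252) (.e (nat_lit 65280) (nat_lit 66) .nil)))) (.g (nat_lit 0) (.e (nat_lit 252693) (nat_lit 0) .nil) .nil))))) (.nd (nat_lit 8) (.nd (nat_lit 9) 
(.lf (nat_lit 532696) (.g (nat_lit 3134) (.e (nat_lit 57379) (nat_lit 3) (.e (nat_lit 98366) (nat_lit 27) (.e (nat_lit 434248) (nat_lit 28) (.e (nat_lit 573489) (nat_lit 14) (.e (nat_lit 73755) (nat_lit 8) (.e (nat_lit 557090) (nat_lit 12) (.e (nat_lit 163844) (nat_lit 0) (.e (nat_lit 5942) (nat_lit 322) .nil)))))))) (.g (nat_lit 1) (.e (nat_lit 251624) (nat_lit 0) .nil) .nil))) 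
(.lf (nat_lit 533208) (.g (nat_lit 3968) (.e (nat_lit 57389) (nat_lit 5) (.e (nat_lit 114698) (nat_lit 11) (.e (nat_lit 426197) (nat_lit 9) (.e (nat_lit 426555) (nat_lit 32) (.e (nat_lit 376857) (nat_lit 21) (.e (nat_lit 57854) (nat_lit 252) .nil)))))) (.g (nat_lit 1) (.e (nat_lit 252466) (nat_lit 0) .nil) .nil)))) (.nd (nat_lit 9) 
(.lf (nat_lit 532952) (.g (nat_lit 3242) (.e (nat_lit 57388) (nat_lit 5) (.e (nat_lit 114698) (nat_lit 11) (.e (nat_lit 426188) (nat_lit 9) (.e (nat_lit 426555) (nat_lit 32) (.e (nat_lit 376860) (nat_lit 21) (.e (nat_lit 57851) (nat_lit 252) .nil)))))) (.g (nat_lit 1) (.e (nat_lit 252028) (nat_lit 0) .nil) .nil))) 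
(.lf (nat_lit 533464) (.g (nat_lit 3723) (.e (nat_lit 57406) (nat_lit 12) (.e (nat_lit 336454) (nat_lit 34) (.e (nat_lit 483384) (nat_lit 23) (.e (nat_lit 336324) (nat_lit 18) (.e (nat_lit 204831) (nat_lit 18) (.e (nat_lit 57854) (nat_lit 252) .nil)))))) (.g (nat_lit 1) (.e (nat_lit 252932) (nat_lit 0) .nil) .nil))))))) (.nd (nat_lit 6) (.nd (nat_lit 7) (.nd (nat_lit 8) (.nd (nat_lit 9) 
(.lf (nat_lit 532536) (.g (nat_lit 2660) (.e (nat_lit 57379) (nat_lit 3) (.e (nat_lit 98365) (nat_lit 26) (.e (nat_lit 426188) (nat_lit 9) (.e (nat_lit 426568) (nat_lit 34) (.e (nat_lit 393252) (nat_lit 18) (.e (nat_lit 164396) (nat_lit 256) .nil)))))) (.g (nat_lit 1) (.e (nat_lit 251464) (nat_lit 0) .nil) .nil))) 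
(.lf (nat_lit 533048) (.g (nat_lit 3714) (.e (nat_lit 57388) (nat_lit 5) (.e (nat_lit 114698) (nat_lit 11) (.e (nat_lit 426199) (nat_lit 9) (.e (nat_lit 426555) (nat_lit 32) (.e (nat_lit 376860) (nat_lit 21) (.e (nat_lit 57852) (nat_lit 252) .nil)))))) (.g (nat_lit 1) (.e (nat_lit 252124) (nat_lit 0) .nil) .nil)))) (.nd (nat_lit 9) 
(.lf (nat_lit 532792) (.g (nat_lit 2809) (.e (nat_lit 57388) (nat_lit 5) (.e (nat_lit 114694) (nat_lit 11) (.e (nat_lit 426200) (nat_lit 9) (.e (nat_lit 426555) (nat_lit 32) (.e (nat_lit 376857) (nat_lit 21) (.e (nat_lit 57849) (nat_lit 252) .nil)))))) (.g (nat_lit 1) (.e (nat_lit 251765) (nat_lit 0) .nil) .nil))) 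
(.lf (nat_lit 533304) (.g (nat_lit 2980) (.e (nat_lit 57390) (nat_lit 5) (.e (nat_lit 114697) (nat_lit 11) (.e (nat_lit 426198) (nat_lit 9) (.e (nat_lit 426555) (nat_lit 32) (.e (nat_lit 376857) (nat_lit 21) (.e (nat_lit 57846) (nat_lit 252) .nil)))))) (.g (nat_lit 1) (.e (nat_lit 252628) (nat_lit 0) .nil) .nil))))) (.nd (nat_lit 8) (.nd (nat_lit 9) 
(.lf (nat_lit 532664) (.g (nat_lit 3556) (.e (nat_lit 57379) (nat_lit 3) (.e (nat_lit 98366) (nat_lit 27) (.e (nat_lit 434245) (nat_lit 28) (.e (nat_lit 573488) (nat_lit 14) (.e (nat_lit 73755) (nat_lit 8) (.e (nat_lit 557090) (nat_lit 12) (.e (nat_lit 163844) (nat_lit 0) (.e (nat_lit 5940) (nat_lit 322) .nil)))))))) (.g (nat_lit 1) (.e (nat_lit 251592) (nat_lit 0) .nil) .nil))) 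
(.lf (nat_lit 533176) (.g (nat_lit 3378) (.e (nat_lit 57389) (nat_lit 5) (.e (nat_lit 114698) (nat_lit 11) (.e (nat_lit 426188) (nat_lit 9) (.e (nat_lit 426555) (nat_lit 32) (.e (nat_lit 376857) (nat_lit 21) (.e (nat_lit 57852) (nat_lit 252) .nil)))))) (.g (nat_lit 1) (.e (nat_lit 252434) (nat_lit 0) .nil) .nil)))) (.nd (nat_lit 9) 
(.lf (nat_lit 532920) (.g (nat_lit 3168) (.e (nat_lit 57388) (nat_lit 5) (.e (nat_lit 114697) (nat_lit 11) (.e (nat_lit 426200) (nat_lit 9) (.e (nat_lit 426555) (nat_lit 32) (.e (nat_lit 376859) (nat_lit 21) (.e (nat_lit 57846) (nat_lit 252) .nil)))))) (.g (nat_lit 1) (.e (nat_lit 251905) (nat_lit 0) .nil) .nil))) 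
(.lf (nat_lit 533432) (.g (nat_lit 3211) (.e (nat_lit 57406) (nat_lit 12) (.e (nat_lit 336316) (nat_lit 17) (.e (nat_lit 196666) (nat_lit 13) (.e (nat_lit 65610) (nat_lit 10) (.e (nat_lit 344088) (nat_lit 18) (.e (nat_lit 7697) (nat_lit 412) (.e (nat_lit 57366) (nat_lit 1) (.e (nat_lit 57852) (nat_lit 252) .nil)))))))) (.g (nat_lit 1) (.e (nat_lit 252871) (nat_lit 0) .nil) .nil)))))) 
(.nd (nat_lit 7) (.nd (nat_lit 8) (.nd (nat_lit 9) 
(.lf (nat_lit 532600) (.g (nat_lit 2669) (.e (nat_lit 57379) (nat_lit 3) (.e (nat_lit 98366) (nat_lit 27) (.e (nat_lit 434231) (nat_lit 23) (.e (nat_lit 532513) (nat_lit 3) (.e (nat_lit 114714) (nat_lit 22) (.e (nat_lit 90180) (nat_lit 16) (.e (nat_lit 229379) (nat_lit 0) (.e (nat_lit 5939) (nat_lit 322) .nil)))))))) (.g (nat_lit 1) (.e (nat_lit 251528) (nat_lit 0) .nil) .nil))) 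
(.lf (nat_lit 533112) (.g (nat_lit 3402) (.e (nat_lit 57389) (nat_lit 5) (.e (nat_lit 114697) (nat_lit 11) (.e (nat_lit 426188) (nat_lit 9) (.e (nat_lit 426555) (nat_lit 32) (.e (nat_lit 376857) (nat_lit 21) (.e (nat_lit 57853) (nat_lit 252) .nil)))))) (.g (nat_lit 1) (.e (nat_lit 252304) (nat_lit 0) .nil) .nil)))) (.nd (nat_lit 9) 
(.lf (nat_lit 532856) (.g (nat_lit 2598) (.e (nat_lit 57388) (nat_lit 5) (.e (nat_lit 114697) (nat_lit 11) (.e (nat_lit 426190) (nat_lit 9) (.e (nat_lit 426555) (nat_lit 32) (.e (nat_lit 376859) (nat_lit 21) (.e (nat_lit 57848) (nat_lit 252) .nil)))))) (.g (nat_lit 1) (.e (nat_lit 251840) (nat_lit 0) .nil) .nil))) 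
(.lf (nat_lit 533368) (.g (nat_lit 5066) (.e (nat_lit 57405) (nat_lit 12) (.e (nat_lit 336019) (nat_lit 3) (.e (nat_lit 98373) (nat_lit 29) (.e (nat_lit 450588) (nat_lit 10) (.e (nat_lit 573473) (nat_lit 12) .nil))))) (.g (nat_lit 0) (.e (nat_lit 252781) (nat_lit 0) .nil) .nil))))) (.nd (nat_lit 8) (.nd (nat_lit 9) 
(.lf (nat_lit 532728) (.g (nat_lit 3218) (.e (nat_lit 57379) (nat_lit 3) (.e (nat_lit 98367) (nat_lit 27) (.e (nat_lit 434245) (nat_lit 28) (.e (nat_lit 573488) (nat_lit 14) (.e (nat_lit 73755) (nat_lit 8) (.e (nat_lit 557090) (nat_lit 12) (.e (nat_lit 163843) (nat_lit 0) (.e (nat_lit 5940) (nat_lit 322) .nil)))))))) (.g (nat_lit 1) (.e (nat_lit 251656) (nat_lit 0) .nil) .nil))) 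
(.lf (nat_lit 533240) (.g (nat_lit 3916) (.e (nat_lit 57389) (nat_lit 5) (.e (nat_lit 114698) (nat_lit 11) (.e (nat_lit 426199) (nat_lit 9) (.e (nat_lit 426555) (nat_lit 32) (.e (nat_lit 376857) (nat_lit 21) (.e (nat_lit 57854) (nat_lit 252) .nil)))))) (.g (nat_lit 1) (.e (nat_lit 252498) (nat_lit 0) .nil) .nil)))) (.nd (nat_lit 9) 
(.lf (nat_lit 532984) (.g (nat_lit 3471) (.e (nat_lit 57388) (nat_lit 5) (.e (nat_lit 114698) (nat_lit 11) (.e (nat_lit 426197) (nat_lit 9) (.e (nat_lit 426555) (nat_lit 32) (.e (nat_lit 376857) (nat_lit 21) (.e (nat_lit 57848) (nat_lit 252) .nil)))))) (.g (nat_lit 1) (.e (nat_lit 252060) (nat_lit 0) .nil) .nil))) 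
(.lf (nat_lit 533496) (.g (nat_lit 3361) (.e (nat_lit 57406) (nat_lit 12) (.e (nat_lit 336456) (nat_lit 34) (.e (nat_lit 483387) (nat_lit 23) (.e (nat_lit 336282) (nat_lit 15) (.e (nat_lit 3253) (nat_lit 197) (.e (nat_lit 532504) (nat_lit 1) (.e (nat_lit 57851) (nat_lit 252) .nil))))))) (.g (nat_lit 1) (.e (nat_lit 252964) (nat_lit 0) .nil) .nil)))))))))) 
(.nd (nat_lit 3) (.nd (nat_lit 4) (.nd (nat_lit 5) (.nd (nat_lit 6) (.nd (nat_lit 7) 
(.nd (nat_lit 8) (.nd (nat_lit 9) 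
(.lf (nat_lit 532484) (.g (nat_lit 4611) (.e (nat_lit 57379) (nat_lit 3) (.e (nat_lit 98342) (nat_lit 20) (.e (nat_lit 221212) (nat_lit 22) (.e (nat_lit 196670) (nat_lit 14) (.e (nat_lit 73746) (nat_lit 3) (.e (nat_lit 516120) (nat_lit 1) (.e (nat_lit 164183) (nat_lit 154) .nil))))))) (.g (nat_lit 1) (.e (nat_lit 251412) (nat_lit 0) .nil) .nil))) 
(.lf (nat_lit 532996) (.g (nat_lit 3713) (.e (nat_lit 57388) (nat_lit 5) (.e (nat_lit 114698) (nat_lit 11) (.e (nat_lit 426197) (nat_lit 9) (.e (nat_lit 426555) (nat_lit 32) (.e (nat_lit 376860) (nat_lit 21) (.e (nat_lit 57854) (nat_lit 252) .nil)))))) (.g (nat_lit 1) (.e (nat_lit 252072) (nat_lit 0) .nil) .nil)))) (.nd (nat_lit 9) 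
(.lf (nat_lit 532740) (.g (nat_lit 2826) (.e (nat_lit 57379) (nat_lit 3) (.e (nat_lit 98367) (nat_lit 27) (.e (nat_lit 434247) (nat_lit 28) (.e (nat_lit 573489) (nat_lit 14) (.e (nat_lit 73755) (nat_lit 8) (.e (nat_lit 557091) (nat_lit 12) (.e (nat_lit 163841) (nat_lit 0) (.e (nat_lit 5940) (nat_lit 322) .nil)))))))) (.g (nat_lit 1) (.e (nat_lit 251668) (nat_lit 0) .nil) .nil))) 
(.lf (nat_lit 533252) (.g (nat_lit 3797) (.e (nat_lit 57389) (nat_lit 5) (.e (nat_lit 114698) (nat_lit 11) (.e (nat_lit 426200) (nat_lit 9) (.e (nat_lit 426555) (nat_lit 32) (.e (nat_lit 376857) (nat_lit 21) (.e (nat_lit 57852) (nat_lit 252) .nil)))))) (.g (nat_lit 1) (.e (nat_lit 252510) (nat_lit 0) .nil) .nil))))) (.nd (nat_lit 8) (.nd (nat_lit 9) 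
(.lf (nat_lit 532612) (.g (nat_lit 3101) (.e (nat_lit 57379) (nat_lit 3) (.e (nat_lit 98366) (nat_lit 27) (.e (nat_lit 434231) (nat_lit 23) (.e (nat_lit 532514) (nat_lit 3) (.e (nat_lit 114719) (nat_lit 23) (.e (nat_lit 98325) (nat_lit 17) (.e (nat_lit 2458) (nat_lit 157) (.e (nat_lit 5935) (nat_lit 322) .nil)))))))) (.g (nat_lit 1) (.e (nat_lit 251540) (nat_lit 0) .nil) .nil))) 
(.lf (nat_lit 533124) (.g (nat_lit 3105) (.e (nat_lit 57389) (nat_lit 5) (.e (nat_lit 114697) (nat_lit 11) (.e (nat_lit 426190) (nat_lit 9) (.e (nat_lit 426555) (nat_lit 32) (.e (nat_lit 376857) (nat_lit 21) (.e (nat_lit 57852) (nat_lit 252) .nil)))))) (.g (nat_lit 1) (.e (nat_lit 252316) (nat_lit 0) .nil) .nil)))) (.nd (nat_lit 9) 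
(.lf (nat_lit 532868) (.g (nat_lit 2547) (.e (nat_lit 57388) (nat_lit 5) (.e (nat_lit 114697) (nat_lit 11) (.e (nat_lit 426198) (nat_lit 9) (.e (nat_lit 426538) (nat_lit 29) (.e (nat_lit 352309) (nat_lit 21) (.e (nat_lit 57844) (nat_lit 252) .nil)))))) (.g (nat_lit 1) (.e (nat_lit 251852) (nat_lit 0) .nil) .nil))) 
(.lf (nat_lit 533380) (.g (nat_lit 2968) (.e (nat_lit 57406) (nat_lit 12) (.e (nat_lit 336018) (nat_lit 3) (.e (nat_lit 98372) (nat_lit 29) (.e (nat_lit 450586) (nat_lit 10) (.e (nat_lit 573473) (nat_lit 12) (.e (nat_lit 57348) (nat_lit 0) (.e (nat_lit 7265) (nat_lit 384) .nil))))))) (.g (nat_lit 1) (.e (nat_lit 252816) (nat_lit 0) .nil) .nil)))))) 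
(.nd (nat_lit 7) (.nd (nat_lit 8) (.nd (nat_lit 9) 
(.lf (nat_lit 532548) (.g (nat_lit 2158) (.e (nat_lit 57379) (nat_lit 3) (.e (nat_lit 98365) (nat_lit 26) (.e (nat_lit 426325) (nat_lit 13) (.e (nat_lit 483337) (nat_lit 9) (.e (nat_lit 426030) (nat_lit 0) (.e (nat_lit 2464) (nat_lit 157) (.e (nat_lit 5935) (nat_lit 322) .nil))))))) (.g (nat_lit 1) (.e (nat_lit 251476) (nat_lit 0) .nil) .nil))) 
(.lf (nat_lit 533060) (.g (nat_lit 3560) (.e (nat_lit 57388) (nat_lit 5) (.e (nat_lit 114698) (nat_lit 11) (.e (nat_lit 426200) (nat_lit 9) (.e (nat_lit 426555) (nat_lit 32) (.e (nat_lit 376859) (nat_lit 21) (.e (nat_lit 57848) (nat_lit 252) .nil)))))) (.g (nat_lit 1) (.e (nat_lit 252136) (nat_lit 0) .nil) .nil)))) (.nd (nat_lit 9) 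
(.lf (nat_lit 532804) (.g (nat_lit 1912) (.e (nat_lit 57388) (nat_lit 5) (.e (nat_lit 114696) (nat_lit 11) (.e (nat_lit 426232) (nat_lit 9) (.e (nat_lit 426554) (nat_lit 32) (.e (nat_lit 376857) (nat_lit 21) (.e (nat_lit 57846) (nat_lit 252) .nil)))))) (.g (nat_lit 1) (.e (nat_lit 251788) (nat_lit 0) .nil) .nil))) 
(.lf (nat_lit 533316) (.g (nat_lit 3043) (.e (nat_lit 57390) (nat_lit 5) (.e (nat_lit 114697) (nat_lit 11) (.e (nat_lit 426200) (nat_lit 9) (.e (nat_lit 426555) (nat_lit 32) (.e (nat_lit 376859) (nat_lit 21) (.e (nat_lit 57846) (nat_lit 252) .nil)))))) (.g (nat_lit 1) (.e (nat_lit 252640) (nat_lit 0) .nil) .nil))))) (.nd (nat_lit 8) (.nd (nat_lit 9) 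
(.lf (nat_lit 532676) (.g (nat_lit 2387) (.e (nat_lit 57379) (nat_lit 3) (.e (nat_lit 98366) (nat_lit 27) (.e (nat_lit 434247) (nat_lit 28) (.e (nat_lit 573489) (nat_lit 14) (.e (nat_lit 73755) (nat_lit 8) (.e (nat_lit 557091) (nat_lit 12) (.e (nat_lit 163845) (nat_lit 0) (.e (nat_lit 5940) (nat_lit 322) .nil)))))))) (.g (nat_lit 1) (.e (nat_lit 251604) (nat_lit 0) .nil) .nil))) 
(.lf (nat_lit 533188) (.g (nat_lit 3014) (.e (nat_lit 57389) (nat_lit 5) (.e (nat_lit 114698) (nat_lit 11) (.e (nat_lit 426190) (nat_lit 9) (.e (nat_lit 426555) (nat_lit 32) (.e (nat_lit 376857) (nat_lit 21) (.e (nat_lit 57846) (nat_lit 252) .nil)))))) (.g (nat_lit 1) (.e (nat_lit 252446) (nat_lit 0) .nil) .nil)))) (.nd (nat_lit 9) 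
(.lf (nat_lit 532932) (.g (nat_lit 1335) (.e (nat_lit 57388) (nat_lit 5) (.e (nat_lit 114698) (nat_lit 11) (.e (nat_lit 426139) (nat_lit 3) .nil))) (.g (nat_lit 0) (.e (nat_lit 252003) (nat_lit 0) .nil) .nil))) 
(.lf (nat_lit 533444) (.g (nat_lit 3348) (.e (nat_lit 57406) (nat_lit 12) (.e (nat_lit 336316) (nat_lit 17) (.e (nat_lit 196666) (nat_lit 13) (.e (nat_lit 65630) (nat_lit 14) (.e (nat_lit 401472) (nat_lit 28) (.e (nat_lit 344096) (nat_lit 18) (.e (nat_lit 7261) (nat_lit 384) .nil))))))) (.g (nat_lit 1) (.e (nat_lit 252883) (nat_lit 0) .nil) .nil))))))) 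
(.nd (nat_lit 6) (.nd (nat_lit 7) (.nd (nat_lit 8) (.nd (nat_lit 9) 
(.lf (nat_lit 532516) (.g (nat_lit 1799) (.e (nat_lit 57379) (nat_lit 3) (.e (nat_lit 98355) (nat_lit 26) (.e (nat_lit 426131) (nat_lit 3) (.e (nat_lit 204838) (nat_lit 20) (.e (nat_lit 114717) (nat_lit 23) .nil))))) (.g (nat_lit 0) (.e (nat_lit 251444) (nat_lit 0) .nil) .nil))) 
(.lf (nat_lit 533028) (.g (nat_lit 3279) (.e (nat_lit 57388) (nat_lit 5) (.e (nat_lit 114698) (nat_lit 11) (.e (nat_lit 426198) (nat_lit 9) (.e (nat_lit 426555) (nat_lit 32) (.e (nat_lit 376859) (nat_lit 21) (.e (nat_lit 57854) (nat_lit 252) .nil)))))) (.g (nat_lit 1) (.e (nat_lit 252104) (nat_lit 0) .nil) .nil)))) (.nd (nat_lit 9) 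
(.lf (nat_lit 532772) (.g (nat_lit 934) (.e (nat_lit 57381) (nat_lit 4) (.e (nat_lit 106536) (nat_lit 11) (.e (nat_lit 16435) (nat_lit 9) .nil))) (.g (nat_lit 0) (.e (nat_lit 251700) (nat_lit 0) .nil) .nil))) 
(.lf (nat_lit 533284) (.g (nat_lit 2720) (.e (nat_lit 57390) (nat_lit 5) (.e (nat_lit 114694) (nat_lit 11) (.e (nat_lit 426200) (nat_lit 9) (.e (nat_lit 426555) (nat_lit 32) (.e (nat_lit 376857) (nat_lit 21) (.e (nat_lit 57847) (nat_lit 252) .nil)))))) (.g (nat_lit 1) (.e (nat_lit 252603) (nat_lit 0) .nil) .nil))))) (.nd (nat_lit 8) (.nd (nat_lit 9) 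
(.lf (nat_lit 532644) (.g (nat_lit 2970) (.e (nat_lit 57379) (nat_lit 3) (.e (nat_lit 98366) (nat_lit 27) (.e (nat_lit 434244) (nat_lit 28) (.e (nat_lit 573488) (nat_lit 14) (.e (nat_lit 73755) (nat_lit 8) (.e (nat_lit 557090) (nat_lit 12) (.e (nat_lit 163843) (nat_lit 0) (.e (nat_lit 5942) (nat_lit 322) .nil)))))))) (.g (nat_lit 1) (.e (nat_lit 251572) (nat_lit 0) .nil) .nil))) 
(.lf (nat_lit 533156) (.g (nat_lit 3366) (.e (nat_lit 57389) (nat_lit 5) (.e (nat_lit 114697) (nat_lit 11) (.e (nat_lit 426199) (nat_lit 9) (.e (nat_lit 426555) (nat_lit 32) (.e (nat_lit 376857) (nat_lit 21) (.e (nat_lit 57853) (nat_lit 252) .nil)))))) (.g (nat_lit 1) (.e (nat_lit 252348) (nat_lit 0) .nil) .nil)))) (.nd (nat_lit 9) 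
(.lf (nat_lit 532900) (.g (nat_lit 2713) (.e (nat_lit 57388) (nat_lit 5) (.e (nat_lit 114697) (nat_lit 11) (.e (nat_lit 426199) (nat_lit 9) (.e (nat_lit 426555) (nat_lit 32) (.e (nat_lit 376857) (nat_lit 21) (.e (nat_lit 57848) (nat_lit 252) .nil)))))) (.g (nat_lit 1) (.e (nat_lit 251885) (nat_lit 0) .nil) .nil))) 
(.lf (nat_lit 533412) (.g (nat_lit 4831) (.e (nat_lit 57406) (nat_lit 12) (.e (nat_lit 336019) (nat_lit 3) (.e (nat_lit 98373) (nat_lit 29) (.e (nat_lit 450588) (nat_lit 10) (.e (nat_lit 573473) (nat_lit 12) .nil))))) (.g (nat_lit 0) (.e (nat_lit 252848) (nat_lit 0) .nil) .nil)))))) (.nd (nat_lit 7) (.nd (nat_lit 8) (.nd (nat_lit 9) 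
(.lf (nat_lit 532580) (.g (nat_lit 2252) (.e (nat_lit 57379) (nat_lit 3) (.e (nat_lit 98365) (nat_lit 26) (.e (nat_lit 426325) (nat_lit 13) (.e (nat_lit 483341) (nat_lit 9) (.e (nat_lit 426028) (nat_lit 0) (.e (nat_lit 2473) (nat_lit 157) (.e (nat_lit 5939) (nat_lit 322) .nil))))))) (.g (nat_lit 1) (.e (nat_lit 251508) (nat_lit 0) .nil) .nil))) 
(.lf (nat_lit 533092) (.g (nat_lit 1928) (.e (nat_lit 57389) (nat_lit 5) (.e (nat_lit 114694) (nat_lit 11) (.e (nat_lit 426200) (nat_lit 9) (.e (nat_lit 426555) (nat_lit 32) (.e (nat_lit 376857) (nat_lit 21) .nil))))) (.g (nat_lit 0) (.e (nat_lit 252272) (nat_lit 0) .nil) .nil)))) (.nd (nat_lit 9) 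
(.lf (nat_lit 532836) (.g (nat_lit 3001) (.e (nat_lit 57388) (nat_lit 5) (.e (nat_lit 114697) (nat_lit 11) (.e (nat_lit 426188) (nat_lit 9) (.e (nat_lit 426555) (nat_lit 32) (.e (nat_lit 376859) (nat_lit 21) (.e (nat_lit 57846) (nat_lit 252) .nil)))))) (.g (nat_lit 1) (.e (nat_lit 251820) (nat_lit 0) .nil) .nil))) 
(.lf (nat_lit 533348) (.g (nat_lit 2577) (.e (nat_lit 57400) (nat_lit 10) (.e (nat_lit 319490) (nat_lit 0) (.e (nat_lit 5664) (nat_lit 312) (.e (nat_lit 3085) (nat_lit 191) (.e (nat_lit 483378) (nat_lit 23) (.e (nat_lit 336032) (nat_lit 4) (.e (nat_lit 123195) (nat_lit 266) .nil))))))) (.g (nat_lit 1) (.e (nat_lit 252716) (nat_lit 0) .nil) .nil))))) (.nd (nat_lit 8) (.nd (nat_lit 9) 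
(.lf (nat_lit 532708) (.g (nat_lit 3795) (.e (nat_lit 57379) (nat_lit 3) (.e (nat_lit 98367) (nat_lit 27) (.e (nat_lit 434231) (nat_lit 23) (.e (nat_lit 532513) (nat_lit 3) (.e (nat_lit 114714) (nat_lit 22) (.e (nat_lit 90164) (nat_lit 12) (.e (nat_lit 163850) (nat_lit 0) (.e (nat_lit 5939) (nat_lit 322) .nil)))))))) (.g (nat_lit 1) (.e (nat_lit 251636) (nat_lit 0) .nil) .nil))) 
(.lf (nat_lit 533220) (.g (nat_lit 3817) (.e (nat_lit 57389) (nat_lit 5) (.e (nat_lit 114698) (nat_lit 11) (.e (nat_lit 426198) (nat_lit 9) (.e (nat_lit 426542) (nat_lit 29) (.e (nat_lit 352309) (nat_lit 21) (.e (nat_lit 57854) (nat_lit 252) .nil)))))) (.g (nat_lit 1) (.e (nat_lit 252478) (nat_lit 0) .nil) .nil)))) (.nd (nat_lit 9) 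
(.lf (nat_lit 532964) (.g (nat_lit 3301) (.e (nat_lit 57388) (nat_lit 5) (.e (nat_lit 114698) (nat_lit 11) (.e (nat_lit 426190) (nat_lit 9) (.e (nat_lit 426555) (nat_lit 32) (.e (nat_lit 376859) (nat_lit 21) (.e (nat_lit 57846) (nat_lit 252) .nil)))))) (.g (nat_lit 1) (.e (nat_lit 252040) (nat_lit 0) .nil) .nil))) 
(.lf (nat_lit 533476) (.g (nat_lit 4029) (.e (nat_lit 57406) (nat_lit 12) (.e (nat_lit 336456) (nat_lit 34) (.e (nat_lit 483378) (nat_lit 23) (.e (nat_lit 336324) (nat_lit 18) (.e (nat_lit 204831) (nat_lit 18) (.e (nat_lit 57854) (nat_lit 252) .nil)))))) (.g (nat_lit 1) (.e (nat_lit 252944) (nat_lit 0) .nil) .nil)))))))) 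
(.nd (nat_lit 5) (.nd (nat_lit 6) (.nd (nat_lit 7) (.nd (nat_lit 8) (.nd (nat_lit 9) 
(.lf (nat_lit 532500) (.g (nat_lit 2075) (.e (nat_lit 57379) (nat_lit 3) (.e (nat_lit 98342) (nat_lit 20) (.e (nat_lit 221215) (nat_lit 23) (.e (nat_lit 204861) (nat_lit 26) (.e (nat_lit 336026) (nat_lit 3) .nil))))) (.g (nat_lit 0) (.e (nat_lit 251428) (nat_lit 0) .nil) .nil))) 
(.lf (nat_lit 533012) (.g (nat_lit 3426) (.e (nat_lit 57388) (nat_lit 5) (.e (nat_lit 114698) (nat_lit 11) (.e (nat_lit 426198) (nat_lit 9) (.e (nat_lit 426542) (nat_lit 29) (.e (nat_lit 352309) (nat_lit 21) (.e (nat_lit 57849) (nat_lit 252) .nil)))))) (.g (nat_lit 1) (.e (nat_lit 252088) (nat_lit 0) .nil) .nil)))) (.nd (nat_lit 9) 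
(.lf (nat_lit 532756) (.g (nat_lit 4089) (.e (nat_lit 57379) (nat_lit 3) (.e (nat_lit 98368) (nat_lit 27) (.e (nat_lit 434247) (nat_lit 28) (.e (nat_lit 573489) (nat_lit 14) (.e (nat_lit 73755) (nat_lit 8) (.e (nat_lit 557090) (nat_lit 12) (.e (nat_lit 163843) (nat_lit 0) (.e (nat_lit 5943) (nat_lit 322) .nil)))))))) (.g (nat_lit 1) (.e (nat_lit 251684) (nat_lit 0) .nil) .nil))) 
(.lf (nat_lit 533268) (.g (nat_lit 2941) (.e (nat_lit 57389) (nat_lit 5) (.e (nat_lit 114698) (nat_lit 11) (.e (nat_lit 426335) (nat_lit 13) (.e (nat_lit 483393) (nat_lit 23) (.e (nat_lit 335987) (nat_lit 1) (.e (nat_lit 57852) (nat_lit 252) .nil)))))) (.g (nat_lit 1) (.e (nat_lit 252560) (nat_lit 0) .nil) .nil))))) (.nd (nat_lit 8) (.nd (nat_lit 9) 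
(.lf (nat_lit 532628) (.g (nat_lit 4872) (.e (nat_lit 57379) (nat_lit 3) (.e (nat_lit 98366) (nat_lit 27) (.e (nat_lit 434244) (nat_lit 28) (.e (nat_lit 573487) (nat_lit 14) (.e (nat_lit 73753) (nat_lit 8) (.e (nat_lit 557090) (nat_lit 12) (.e (nat_lit 163844) (nat_lit 0) (.e (nat_lit 5943) (nat_lit 322) .nil)))))))) (.g (nat_lit 1) (.e (nat_lit 251556) (nat_lit 0) .nil) .nil))) 
(.lf (nat_lit 533140) (.g (nat_lit 3134) (.e (nat_lit 57389) (nat_lit 5) (.e (nat_lit 114697) (nat_lit 11) (.e (nat_lit 426198) (nat_lit 9) (.e (nat_lit 426542) (nat_lit 29) (.e (nat_lit 352309) (nat_lit 21) (.e (nat_lit 57844) (nat_lit 252) .nil)))))) (.g (nat_lit 1) (.e (nat_lit 252332) (nat_lit 0) .nil) .nil)))) (.nd (nat_lit 9) 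
(.lf (nat_lit 532884) (.g (nat_lit 3206) (.e (nat_lit 57388) (nat_lit 5) (.e (nat_lit 114697) (nat_lit 11) (.e (nat_lit 426198) (nat_lit 9) (.e (nat_lit 426555) (nat_lit 32) (.e (nat_lit 376857) (nat_lit 21) (.e (nat_lit 57854) (nat_lit 252) .nil)))))) (.g (nat_lit 1) (.e (nat_lit 251868) (nat_lit 0) .nil) .nil))) 
(.lf (nat_lit 533396) (.g (nat_lit 3361) (.e (nat_lit 57406) (nat_lit 12) (.e (nat_lit 336019) (nat_lit 3) (.e (nat_lit 98359) (nat_lit 26) (.e (nat_lit 426286) (nat_lit 10) (.e (nat_lit 434248) (nat_lit 28) (.e (nat_lit 573475) (nat_lit 12) (.e (nat_lit 57351) (nat_lit 0) (.e (nat_lit 7265) (nat_lit 384) .nil)))))))) (.g (nat_lit 1) (.e (nat_lit 252832) (nat_lit 0) .nil) .nil)))))) 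
(.nd (nat_lit 7) (.nd (nat_lit 8) (.nd (nat_lit 9) 
(.lf (nat_lit 532564) (.g (nat_lit 3750) (.e (nat_lit 57379) (nat_lit 3) (.e (nat_lit 98365) (nat_lit 26) (.e (nat_lit 426325) (nat_lit 13) (.e (nat_lit 483337) (nat_lit 9) (.e (nat_lit 426100) (nat_lit 1) (.e (nat_lit 164397) (nat_lit 256) .nil)))))) (.g (nat_lit 1) (.e (nat_lit 251492) (nat_lit 0) .nil) .nil))) 
(.lf (nat_lit 533076) (.g (nat_lit 3275) (.e (nat_lit 57388) (nat_lit 5) (.e (nat_lit 114698) (nat_lit 11) (.e (nat_lit 426334) (nat_lit 13) (.e (nat_lit 483383) (nat_lit 23) (.e (nat_lit 336000) (nat_lit 1) (.e (nat_lit 57849) (nat_lit 252) .nil)))))) (.g (nat_lit 1) (.e (nat_lit 252210) (nat_lit 0) .nil) .nil)))) (.nd (nat_lit 9) 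
(.lf (nat_lit 532820) (.g (nat_lit 2306) (.e (nat_lit 57388) (nat_lit 5) (.e (nat_lit 114696) (nat_lit 11) (.e (nat_lit 426262) (nat_lit 9) (.e (nat_lit 426541) (nat_lit 29) (.e (nat_lit 352309) (nat_lit 21) (.e (nat_lit 57848) (nat_lit 252) .nil)))))) (.g (nat_lit 1) (.e (nat_lit 251804) (nat_lit 0) .nil) .nil))) 
(.lf (nat_lit 533332) (.g (nat_lit 1174) (.e (nat_lit 57390) (nat_lit 5) (.e (nat_lit 114698) (nat_lit 11) (.e (nat_lit 426200) (nat_lit 9) (.e (nat_lit 426555) (nat_lit 32) .nil)))) (.g (nat_lit 0) (.e (nat_lit 252670) (nat_lit 0) .nil) .nil))))) (.nd (nat_lit 8) (.nd (nat_lit 9) 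
(.lf (nat_lit 532692) (.g (nat_lit 3172) (.e (nat_lit 57379) (nat_lit 3) (.e (nat_lit 98366) (nat_lit 27) (.e (nat_lit 434248) (nat_lit 28) (.e (nat_lit 573489) (nat_lit 14) (.e (nat_lit 73755) (nat_lit 8) (.e (nat_lit 557090) (nat_lit 12) (.e (nat_lit 163843) (nat_lit 0) (.e (nat_lit 5941) (nat_lit 322) .nil)))))))) (.g (nat_lit 1) (.e (nat_lit 251620) (nat_lit 0) .nil) .nil))) 
(.lf (nat_lit 533204) (.g (nat_lit 2518) (.e (nat_lit 57389) (nat_lit 5) (.e (nat_lit 114698) (nat_lit 11) (.e (nat_lit 426197) (nat_lit 9) (.e (nat_lit 426555) (nat_lit 32) (.e (nat_lit 376856) (nat_lit 21) (.e (nat_lit 57854) (nat_lit 252) .nil)))))) (.g (nat_lit 1) (.e (nat_lit 252462) (nat_lit 0) .nil) .nil)))) (.nd (nat_lit 9) 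
(.lf (nat_lit 532948) (.g (nat_lit 3116) (.e (nat_lit 57388) (nat_lit 5) (.e (nat_lit 114698) (nat_lit 11) (.e (nat_lit 426188) (nat_lit 9) (.e (nat_lit 426555) (nat_lit 32) (.e (nat_lit 376859) (nat_lit 21) (.e (nat_lit 57848) (nat_lit 252) .nil)))))) (.g (nat_lit 1) (.e (nat_lit 252024) (nat_lit 0) .nil) .nil))) 
(.lf (nat_lit 533460) (.g (nat_lit 3193) (.e (nat_lit 57406) (nat_lit 12) (.e (nat_lit 336454) (nat_lit 34) (.e (nat_lit 483380) (nat_lit 23) (.e (nat_lit 336324) (nat_lit 18) (.e (nat_lit 204831) (nat_lit 18) (.e (nat_lit 57851) (nat_lit 252) .nil)))))) (.g (nat_lit 1) (.e (nat_lit 252928) (nat_lit 0) .nil) .nil))))))) (.nd (nat_lit 6) (.nd (nat_lit 7) (.nd (nat_lit 8) (.nd (nat_lit 9) 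
(.lf (nat_lit 532532) (.g (nat_lit 3634) (.e (nat_lit 57379) (nat_lit 3) (.e (nat_lit 98365) (nat_lit 26) (.e (nat_lit 426188) (nat_lit 9) (.e (nat_lit 426566) (nat_lit 34) (.e (nat_lit 393253) (nat_lit 18) (.e (nat_lit 164396) (nat_lit 256) .nil)))))) (.g (nat_lit 1) (.e (nat_lit 251460) (nat_lit 0) .nil) .nil))) 
(.lf (nat_lit 533044) (.g (nat_lit 3189) (.e (nat_lit 57388) (nat_lit 5) (.e (nat_lit 114698) (nat_lit 11) (.e (nat_lit 426199) (nat_lit 9) (.e (nat_lit 426555) (nat_lit 32) (.e (nat_lit 376859) (nat_lit 21) (.e (nat_lit 57848) (nat_lit 252) .nil)))))) (.g (nat_lit 1) (.e (nat_lit 252120) (nat_lit 0) .nil) .nil)))) (.nd (nat_lit 9) 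
(.lf (nat_lit 532788) (.g (nat_lit 1134) (.e (nat_lit 57384) (nat_lit 4) (.e (nat_lit 106536) (nat_lit 11) (.e (nat_lit 16462) (nat_lit 13) (.e (nat_lit 483393) (nat_lit 23) .nil)))) (.g (nat_lit 0) (.e (nat_lit 251756) (nat_lit 0) .nil) .nil))) 
(.lf (nat_lit 533300) (.g (nat_lit 1788) (.e (nat_lit 57390) (nat_lit 5) (.e (nat_lit 114697) (nat_lit 11) (.e (nat_lit 426190) (nat_lit 9) (.e (nat_lit 426555) (nat_lit 32) (.e (nat_lit 376859) (nat_lit 21) (.e (nat_lit 57848) (nat_lit 252) .nil)))))) (.g (nat_lit 1) (.e (nat_lit 252623) (nat_lit 0) .nil) .nil))))) (.nd (nat_lit 8) (.nd (nat_lit 9) 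
(.lf (nat_lit 532660) (.g (nat_lit 2551) (.e (nat_lit 57379) (nat_lit 3) (.e (nat_lit 98366) (nat_lit 27) (.e (nat_lit 434245) (nat_lit 28) (.e (nat_lit 573487) (nat_lit 14) (.e (nat_lit 73753) (nat_lit 8) (.e (nat_lit 557091) (nat_lit 12) (.e (nat_lit 163841) (nat_lit 0) (.e (nat_lit 5943) (nat_lit 322) .nil)))))))) (.g (nat_lit 1) (.e (nat_lit 251588) (nat_lit 0) .nil) .nil))) 
(.lf (nat_lit 533172) (.g (nat_lit 3111) (.e (nat_lit 57389) (nat_lit 5) (.e (nat_lit 114698) (nat_lit 11) (.e (nat_lit 426188) (nat_lit 9) (.e (nat_lit 426555) (nat_lit 32) (.e (nat_lit 376857) (nat_lit 21) (.e (nat_lit 57844) (nat_lit 252) .nil)))))) (.g (nat_lit 1) (.e (nat_lit 252430) (nat_lit 0) .nil) .nil)))) (.nd (nat_lit 9) 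
(.lf (nat_lit 532916) (.g (nat_lit 2725) (.e (nat_lit 57388) (nat_lit 5) (.e (nat_lit 114697) (nat_lit 11) (.e (nat_lit 426200) (nat_lit 9) (.e (nat_lit 426555) (nat_lit 32) (.e (nat_lit 376857) (nat_lit 21) (.e (nat_lit 57852) (nat_lit 252) .nil)))))) (.g (nat_lit 1) (.e (nat_lit 251901) (nat_lit 0) .nil) .nil))) 
(.lf (nat_lit 533428) (.g (nat_lit 2012) (.e (nat_lit 57406) (nat_lit 12) (.e (nat_lit 336316) (nat_lit 17) (.e (nat_lit 196666) (nat_lit 13) (.e (nat_lit 65586) (nat_lit 7) (.e (nat_lit 319500) (nat_lit 10) .nil))))) (.g (nat_lit 0) (.e (nat_lit 252865) (nat_lit 0) .nil) .nil)))))) (.nd (nat_lit 7) (.nd (nat_lit 8) (.nd (nat_lit 9) 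
(.lf (nat_lit 532596) (.g (nat_lit 3044) (.e (nat_lit 57379) (nat_lit 3) (.e (nat_lit 98366) (nat_lit 27) (.e (nat_lit 434231) (nat_lit 23) (.e (nat_lit 532513) (nat_lit 3) (.e (nat_lit 114714) (nat_lit 22) (.e (nat_lit 90162) (nat_lit 12) (.e (nat_lit 163850) (nat_lit 0) (.e (nat_lit 5939) (nat_lit 322) .nil)))))))) (.g (nat_lit 1) (.e (nat_lit 251524) (nat_lit 0) .nil) .nil))) 
(.lf (nat_lit 533108) (.g (nat_lit 2889) (.e (nat_lit 57389) (nat_lit 5) (.e (nat_lit 114697) (nat_lit 11) (.e (nat_lit 426188) (nat_lit 9) (.e (nat_lit 426555) (nat_lit 32) (.e (nat_lit 376857) (nat_lit 21) (.e (nat_lit 57844) (nat_lit 252) .nil)))))) (.g (nat_lit 1) (.e (nat_lit 252300) (nat_lit 0) .nil) .nil)))) (.nd (nat_lit 9) 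
(.lf (nat_lit 532852) (.g (nat_lit 3397) (.e (nat_lit 57388) (nat_lit 5) (.e (nat_lit 114697) (nat_lit 11) (.e (nat_lit 426190) (nat_lit 9) (.e (nat_lit 426555) (nat_lit 32) (.e (nat_lit 376857) (nat_lit 21) (.e (nat_lit 57854) (nat_lit 252) .nil)))))) (.g (nat_lit 1) (.e (nat_lit 251836) (nat_lit 0) .nil) .nil))) 
(.lf (nat_lit 533364) (.g (nat_lit 2413) (.e (nat_lit 57405) (nat_lit 12) (.e (nat_lit 336019) (nat_lit 3) (.e (nat_lit 98372) (nat_lit 29) (.e (nat_lit 450586) (nat_lit 10) (.e (nat_lit 573475) (nat_lit 12) .nil))))) (.g (nat_lit 0) (.e (nat_lit 252777) (nat_lit 0) .nil) .nil))))) (.nd (nat_lit 8) (.nd (nat_lit 9) 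
(.lf (nat_lit 532724) (.g (nat_lit 2917) (.e (nat_lit 57379) (nat_lit 3) (.e (nat_lit 98367) (nat_lit 27) (.e (nat_lit 434244) (nat_lit 28) (.e (nat_lit 573488) (nat_lit 14) (.e (nat_lit 73755) (nat_lit 8) (.e (nat_lit 557091) (nat_lit 12) (.e (nat_lit 163840) (nat_lit 0) (.e (nat_lit 5939) (nat_lit 322) .nil)))))))) (.g (nat_lit 1) (.e (nat_lit 251652) (nat_lit 0) .nil) .nil))) 
(.lf (nat_lit 533236) (.g (nat_lit 2947) (.e (nat_lit 57389) (nat_lit 5) (.e (nat_lit 114698) (nat_lit 11) (.e (nat_lit 426199) (nat_lit 9) (.e (nat_lit 426555) (nat_lit 32) (.e (nat_lit 376856) (nat_lit 21) (.e (nat_lit 57854) (nat_lit 252) .nil)))))) (.g (nat_lit 1) (.e (nat_lit 252494) (nat_lit 0) .nil) .nil)))) (.nd (nat_lit 9) 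
(.lf (nat_lit 532980) (.g (nat_lit 2341) (.e (nat_lit 57388) (nat_lit 5) (.e (nat_lit 114698) (nat_lit 11) (.e (nat_lit 426197) (nat_lit 9) (.e (nat_lit 426555) (nat_lit 32) (.e (nat_lit 376856) (nat_lit 21) (.e (nat_lit 57854) (nat_lit 252) .nil)))))) (.g (nat_lit 1) (.e (nat_lit 252056) (nat_lit 0) .nil) .nil))) 
(.lf (nat_lit 533492) (.g (nat_lit 1912) (.e (nat_lit 57406) (nat_lit 12) (.e (nat_lit 336456) (nat_lit 34) (.e (nat_lit 483383) (nat_lit 23) (.e (nat_lit 336297) (nat_lit 15) .nil)))) (.g (nat_lit 0) (.e (nat_lit 252960) (nat_lit 0) .nil) .nil))))))))) (.nd (nat_lit 4) (.nd (nat_lit 5) (.nd (nat_lit 6) (.nd (nat_lit 7) (.nd (nat_lit 8) (.nd (nat_lit 9) 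
(.lf (nat_lit 532492) (.g (nat_lit 4322) (.e (nat_lit 57379) (nat_lit 3) (.e (nat_lit 98342) (nat_lit 20) (.e (nat_lit 221215) (nat_lit 23) (.e (nat_lit 204861) (nat_lit 26) (.e (nat_lit 336021) (nat_lit 3) (.e (nat_lit 98333) (nat_lit 18) (.e (nat_lit 164177) (nat_lit 154) .nil))))))) (.g (nat_lit 1) (.e (nat_lit 251420) (nat_lit 0) .nil) .nil))) 
(.lf (nat_lit 533004) (.g (nat_lit 3096) (.e (nat_lit 57388) (nat_lit 5) (.e (nat_lit 114698) (nat_lit 11) (.e (nat_lit 426198) (nat_lit 9) (.e (nat_lit 426542) (nat_lit 29) (.e (nat_lit 352307) (nat_lit 21) (.e (nat_lit 57844) (nat_lit 252) .nil)))))) (.g (nat_lit 1) (.e (nat_lit 252080) (nat_lit 0) .nil) .nil)))) (.nd (nat_lit 9) 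
(.lf (nat_lit 532748) (.g (nat_lit 4291) (.e (nat_lit 57379) (nat_lit 3) (.e (nat_lit 98367) (nat_lit 27) (.e (nat_lit 434248) (nat_lit 28) (.e (nat_lit 573489) (nat_lit 14) (.e (nat_lit 73755) (nat_lit 8) (.e (nat_lit 557090) (nat_lit 12) (.e (nat_lit 163844) (nat_lit 0) (.e (nat_lit 5940) (nat_lit 322) .nil)))))))) (.g (nat_lit 1) (.e (nat_lit 251676) (nat_lit 0) .nil) .nil))) 
(.lf (nat_lit 533260) (.g (nat_lit 4089) (.e (nat_lit 57389) (nat_lit 5) (.e (nat_lit 114698) (nat_lit 11) (.e (nat_lit 426200) (nat_lit 9) (.e (nat_lit 426555) (nat_lit 32) (.e (nat_lit 376860) (nat_lit 21) (.e (nat_lit 57852) (nat_lit 252) .nil)))))) (.g (nat_lit 1) (.e (nat_lit 252518) (nat_lit 0) .nil) .nil))))) (.nd (nat_lit 8) (.nd (nat_lit 9) 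
(.lf (nat_lit 532620) (.g (nat_lit 2676) (.e (nat_lit 57379) (nat_lit 3) (.e (nat_lit 98366) (nat_lit 27) (.e (nat_lit 434231) (nat_lit 23) (.e (nat_lit 532579) (nat_lit 26) (.e (nat_lit 426124) (nat_lit 2) (.e (nat_lit 196658) (nat_lit 12) (.e (nat_lit 57353) (nat_lit 0) (.e (nat_lit 7695) (nat_lit 412) .nil)))))))) (.g (nat_lit 1) (.e (nat_lit 251548) (nat_lit 0) .nil) .nil))) 
(.lf (nat_lit 533132) (.g (nat_lit 3325) (.e (nat_lit 57389) (nat_lit 5) (.e (nat_lit 114697) (nat_lit 11) (.e (nat_lit 426190) (nat_lit 9) (.e (nat_lit 426555) (nat_lit 32) (.e (nat_lit 376860) (nat_lit 21) (.e (nat_lit 57852) (nat_lit 252) .nil)))))) (.g (nat_lit 1) (.e (nat_lit 252324) (nat_lit 0) .nil) .nil)))) (.nd (nat_lit 9) 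
(.lf (nat_lit 532876) (.g (nat_lit 3427) (.e (nat_lit 57388) (nat_lit 5) (.e (nat_lit 114697) (nat_lit 11) (.e (nat_lit 426198) (nat_lit 9) (.e (nat_lit 426542) (nat_lit 29) (.e (nat_lit 352309) (nat_lit 21) (.e (nat_lit 57854) (nat_lit 252) .nil)))))) (.g (nat_lit 1) (.e (nat_lit 251860) (nat_lit 0) .nil) .nil))) 
(.lf (nat_lit 533388) (.g (nat_lit 4382) (.e (nat_lit 57406) (nat_lit 12) (.e (nat_lit 336018) (nat_lit 3) (.e (nat_lit 98373) (nat_lit 29) (.e (nat_lit 450588) (nat_lit 10) (.e (nat_lit 573473) (nat_lit 12) (.e (nat_lit 57353) (nat_lit 0) (.e (nat_lit 7261) (nat_lit 384) .nil))))))) (.g (nat_lit 1) (.e (nat_lit 252824) (nat_lit 0) .nil) .nil)))))) 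
(.nd (nat_lit 7) (.nd (nat_lit 8) (.nd (nat_lit 9) 
(.lf (nat_lit 532556) (.g (nat_lit 2805) (.e (nat_lit 57379) (nat_lit 3) (.e (nat_lit 98365) (nat_lit 26) (.e (nat_lit 426325) (nat_lit 13) (.e (nat_lit 483337) (nat_lit 9) (.e (nat_lit 426097) (nat_lit 1) (.e (nat_lit 164396) (nat_lit 256) .nil)))))) (.g (nat_lit 1) (.e (nat_lit 251484) (nat_lit 0) .nil) .nil))) 
(.lf (nat_lit 533068) (.g (nat_lit 3509) (.e (nat_lit 57388) (nat_lit 5) (.e (nat_lit 114698) (nat_lit 11) (.e (nat_lit 426325) (nat_lit 13) (.e (nat_lit 483393) (nat_lit 23) (.e (nat_lit 335988) (nat_lit 1) (.e (nat_lit 57852) (nat_lit 252) .nil)))))) (.g (nat_lit 1) (.e (nat_lit 252156) (nat_lit 0) .nil) .nil)))) (.nd (nat_lit 9) 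
(.lf (nat_lit 532812) (.g (nat_lit 1811) (.e (nat_lit 57388) (nat_lit 5) (.e (nat_lit 114696) (nat_lit 11) (.e (nat_lit 426234) (nat_lit 9) (.e (nat_lit 426554) (nat_lit 32) (.e (nat_lit 376857) (nat_lit 21) (.e (nat_lit 57847) (nat_lit 252) .nil)))))) (.g (nat_lit 1) (.e (nat_lit 251796) (nat_lit 0) .nil) .nil))) 
(.lf (nat_lit 533324) (.g (nat_lit 529) (.e (nat_lit 57390) (nat_lit 5) (.e (nat_lit 114698) (nat_lit 11) (.e (nat_lit 426197) (nat_lit 9) .nil))) (.g (nat_lit 0) (.e (nat_lit 252662) (nat_lit 0) .nil) .nil))))) (.nd (nat_lit 8) (.nd (nat_lit 9) 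
(.lf (nat_lit 532684) (.g (nat_lit 2712) (.e (nat_lit 57379) (nat_lit 3) (.e (nat_lit 98366) (nat_lit 27) (.e (nat_lit 434248) (nat_lit 28) (.e (nat_lit 573487) (nat_lit 14) (.e (nat_lit 73753) (nat_lit 8) (.e (nat_lit 557091) (nat_lit 12) (.e (nat_lit 163850) (nat_lit 0) (.e (nat_lit 5939) (nat_lit 322) .nil)))))))) (.g (nat_lit 1) (.e (nat_lit 251612) (nat_lit 0) .nil) .nil))) 
(.lf (nat_lit 533196) (.g (nat_lit 2740) (.e (nat_lit 57389) (nat_lit 5) (.e (nat_lit 114698) (nat_lit 11) (.e (nat_lit 426190) (nat_lit 9) (.e (nat_lit 426555) (nat_lit 32) (.e (nat_lit 376859) (nat_lit 21) (.e (nat_lit 57851) (nat_lit 252) .nil)))))) (.g (nat_lit 1) (.e (nat_lit 252454) (nat_lit 0) .nil) .nil)))) (.nd (nat_lit 9) 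
(.lf (nat_lit 532940) (.g (nat_lit 3516) (.e (nat_lit 57388) (nat_lit 5) (.e (nat_lit 114698) (nat_lit 11) (.e (nat_lit 426188) (nat_lit 9) (.e (nat_lit 426555) (nat_lit 32) (.e (nat_lit 376857) (nat_lit 21) (.e (nat_lit 57846) (nat_lit 252) .nil)))))) (.g (nat_lit 1) (.e (nat_lit 252016) (nat_lit 0) .nil) .nil))) 
(.lf (nat_lit 533452) (.g (nat_lit 3987) (.e (nat_lit 57406) (nat_lit 12) (.e (nat_lit 336398) (nat_lit 27) (.e (nat_lit 426290) (nat_lit 10) (.e (nat_lit 434231) (nat_lit 23) (.e (nat_lit 532579) (nat_lit 26) (.e (nat_lit 426108) (nat_lit 1) (.e (nat_lit 164403) (nat_lit 256) .nil))))))) (.g (nat_lit 1) (.e (nat_lit 252919) (nat_lit 0) .nil) .nil))))))) 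
(.nd (nat_lit 6) (.nd (nat_lit 7) (.nd (nat_lit 8) (.nd (nat_lit 9) 
(.lf (nat_lit 532524) (.g (nat_lit 2757) (.e (nat_lit 57379) (nat_lit 3) (.e (nat_lit 98363) (nat_lit 26) (.e (nat_lit 426321) (nat_lit 13) (.e (nat_lit 483337) (nat_lit 9) (.e (nat_lit 426100) (nat_lit 1) (.e (nat_lit 164399) (nat_lit 256) .nil)))))) (.g (nat_lit 1) (.e (nat_lit 251452) (nat_lit 0) .nil) .nil))) 
(.lf (nat_lit 533036) (.g (nat_lit 3694) (.e (nat_lit 57388) (nat_lit 5) (.e (nat_lit 114698) (nat_lit 11) (.e (nat_lit 426199) (nat_lit 9) (.e (nat_lit 426555) (nat_lit 32) (.e (nat_lit 376857) (nat_lit 21) (.e (nat_lit 57846) (nat_lit 252) .nil)))))) (.g (nat_lit 1) (.e (nat_lit 252112) (nat_lit 0) .nil) .nil)))) (.nd (nat_lit 9) 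
(.lf (nat_lit 532780) (.g (nat_lit 2284) (.e (nat_lit 57382) (nat_lit 4) (.e (nat_lit 106536) (nat_lit 11) (.e (nat_lit 16435) (nat_lit 9) (.e (nat_lit 426555) (nat_lit 32) (.e (nat_lit 376857) (nat_lit 21) .nil))))) (.g (nat_lit 0) (.e (nat_lit 251727) (nat_lit 0) .nil) .nil))) 
(.lf (nat_lit 533292) (.g (nat_lit 3054) (.e (nat_lit 57390) (nat_lit 5) (.e (nat_lit 114697) (nat_lit 11) (.e (nat_lit 426188) (nat_lit 9) (.e (nat_lit 426555) (nat_lit 32) (.e (nat_lit 376857) (nat_lit 21) (.e (nat_lit 57846) (nat_lit 252) .nil)))))) (.g (nat_lit 1) (.e (nat_lit 252615) (nat_lit 0) .nil) .nil))))) (.nd (nat_lit 8) (.nd (nat_lit 9) 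
(.lf (nat_lit 532652) (.g (nat_lit 3049) (.e (nat_lit 57379) (nat_lit 3) (.e (nat_lit 98366) (nat_lit 27) (.e (nat_lit 434244) (nat_lit 28) (.e (nat_lit 573488) (nat_lit 14) (.e (nat_lit 73755) (nat_lit 8) (.e (nat_lit 557091) (nat_lit 12) (.e (nat_lit 163844) (nat_lit 0) (.e (nat_lit 5943) (nat_lit 322) .nil)))))))) (.g (nat_lit 1) (.e (nat_lit 251580) (nat_lit 0) .nil) .nil))) 
(.lf (nat_lit 533164) (.g (nat_lit 3624) (.e (nat_lit 57389) (nat_lit 5) (.e (nat_lit 114697) (nat_lit 11) (.e (nat_lit 426200) (nat_lit 9) (.e (nat_lit 426555) (nat_lit 32) (.e (nat_lit 376857) (nat_lit 21) (.e (nat_lit 57853) (nat_lit 252) .nil)))))) (.g (nat_lit 1) (.e (nat_lit 252356) (nat_lit 0) .nil) .nil)))) (.nd (nat_lit 9) 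
(.lf (nat_lit 532908) (.g (nat_lit 2691) (.e (nat_lit 57388) (nat_lit 5) (.e (nat_lit 114697) (nat_lit 11) (.e (nat_lit 426199) (nat_lit 9) (.e (nat_lit 426555) (nat_lit 32) (.e (nat_lit 376860) (nat_lit 21) (.e (nat_lit 57851) (nat_lit 252) .nil)))))) (.g (nat_lit 1) (.e (nat_lit 251893) (nat_lit 0) .nil) .nil))) 
(.lf (nat_lit 533420) (.g (nat_lit 2122) (.e (nat_lit 57406) (nat_lit 12) (.e (nat_lit 343808) (nat_lit 3) (.e (nat_lit 98373) (nat_lit 29) (.e (nat_lit 450587) (nat_lit 10) (.e (nat_lit 573477) (nat_lit 12) (.e (nat_lit 57353) (nat_lit 0) (.e (nat_lit 7265) (nat_lit 384) .nil))))))) (.g (nat_lit 1) (.e (nat_lit 252856) (nat_lit 0) .nil) .nil)))))) 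
(.nd (nat_lit 7) (.nd (nat_lit 8) (.nd (nat_lit 9) 
(.lf (nat_lit 532588) (.g (nat_lit 2294) (.e (nat_lit 57379) (nat_lit 3) (.e (nat_lit 98365) (nat_lit 26) (.e (nat_lit 426325) (nat_lit 13) (.e (nat_lit 483341) (nat_lit 9) (.e (nat_lit 426100) (nat_lit 1) (.e (nat_lit 164397) (nat_lit 256) .nil)))))) (.g (nat_lit 1) (.e (nat_lit 251516) (nat_lit 0) .nil) .nil))) 
(.lf (nat_lit 533100) (.g (nat_lit 2281) (.e (nat_lit 57389) (nat_lit 5) (.e (nat_lit 114695) (nat_lit 11) (.e (nat_lit 426230) (nat_lit 9) (.e (nat_lit 426554) (nat_lit 32) (.e (nat_lit 376860) (nat_lit 21) (.e (nat_lit 57854) (nat_lit 252) .nil)))))) (.g (nat_lit 1) (.e (nat_lit 252292) (nat_lit 0) .nil) .nil)))) (.nd (nat_lit 9) 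
(.lf (nat_lit 532844) (.g (nat_lit 2410) (.e (nat_lit 57388) (nat_lit 5) (.e (nat_lit 114697) (nat_lit 11) (.e (nat_lit 426190) (nat_lit 9) (.e (nat_lit 426555) (nat_lit 32) (.e (nat_lit 376856) (nat_lit 21) (.e (nat_lit 57854) (nat_lit 252) .nil)))))) (.g (nat_lit 1) (.e (nat_lit 251828) (nat_lit 0) .nil) .nil))) 
(.lf (nat_lit 533356) (.g (nat_lit 871) (.e (nat_lit 57400) (nat_lit 10) (.e (nat_lit 319504) (nat_lit 10) (.e (nat_lit 5403) (nat_lit 302) .nil))) (.g (nat_lit 0) (.e (nat_lit 252735) (nat_lit 0) .nil) .nil))))) (.nd (nat_lit 8) (.nd (nat_lit 9) 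
(.lf (nat_lit 532716) (.g (nat_lit 932) (.e (nat_lit 57379) (nat_lit 3) (.e (nat_lit 98367) (nat_lit 27) (.e (nat_lit 434232) (nat_lit 23) .nil))) (.g (nat_lit 0) (.e (nat_lit 251644) (nat_lit 0) .nil) .nil))) 
(.lf (nat_lit 533228) (.g (nat_lit 3039) (.e (nat_lit 57389) (nat_lit 5) (.e (nat_lit 114698) (nat_lit 11) (.e (nat_lit 426198) (nat_lit 9) (.e (nat_lit 426555) (nat_lit 32) (.e (nat_lit 376859) (nat_lit 21) (.e (nat_lit 57846) (nat_lit 252) .nil)))))) (.g (nat_lit 1) (.e (nat_lit 252486) (nat_lit 0) .nil) .nil)))) (.nd (nat_lit 9) 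
(.lf (nat_lit 532972) (.g (nat_lit 2871) (.e (nat_lit 57388) (nat_lit 5) (.e (nat_lit 114698) (nat_lit 11) (.e (nat_lit 426197) (nat_lit 9) (.e (nat_lit 426538) (nat_lit 29) (.e (nat_lit 352309) (nat_lit 21) (.e (nat_lit 57848) (nat_lit 252) .nil)))))) (.g (nat_lit 1) (.e (nat_lit 252048) (nat_lit 0) .nil) .nil))) 
(.lf (nat_lit 533484) (.g (nat_lit 3911) (.e (nat_lit 57406) (nat_lit 12) (.e (nat_lit 336456) (nat_lit 34) (.e (nat_lit 483380) (nat_lit 23) (.e (nat_lit 336324) (nat_lit 18) (.e (nat_lit 204831) (nat_lit 18) (.e (nat_lit 57854) (nat_lit 252) .nil)))))) (.g (nat_lit 1) (.e (nat_lit 252952) (nat_lit 0) .nil) .nil)))))))) 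
(.nd (nat_lit 5) (.nd (nat_lit 6) (.nd (nat_lit 7) (.nd (nat_lit 8) (.nd (nat_lit 9) 
(.lf (nat_lit 532508) (.g (nat_lit 3906) (.e (nat_lit 57379) (nat_lit 3) (.e (nat_lit 98342) (nat_lit 20) (.e (nat_lit 221215) (nat_lit 23) (.e (nat_lit 204863) (nat_lit 27) (.e (nat_lit 344117) (nat_lit 21) (.e (nat_lit 516099) (nat_lit 0) (.e (nat_lit 2474) (nat_lit 157) (.e (nat_lit 6400) (nat_lit 339) .nil)))))))) (.g (nat_lit 1) (.e (nat_lit 251436) (nat_lit 0) .nil) .nil))) 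
(.lf (nat_lit 533020) (.g (nat_lit 3160) (.e (nat_lit 57388) (nat_lit 5) (.e (nat_lit 114698) (nat_lit 11) (.e (nat_lit 426198) (nat_lit 9) (.e (nat_lit 426555) (nat_lit 32) (.e (nat_lit 376857) (nat_lit 21) (.e (nat_lit 57851) (nat_lit 252) .nil)))))) (.g (nat_lit 1) (.e (nat_lit 252096) (nat_lit 0) .nil) .nil)))) (.nd (nat_lit 9) 
(.lf (nat_lit 532764) (.g (nat_lit 3267) (.e (nat_lit 57379) (nat_lit 3) (.e (nat_lit 98384) (nat_lit 32) (.e (nat_lit 475199) (nat_lit 40) (.e (nat_lit 704550) (nat_lit 0) .nil)))) (.g (nat_lit 0) (.e (nat_lit 251692) (nat_lit 0) .nil) .nil))) 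
(.lf (nat_lit 533276) (.g (nat_lit 3804) (.e (nat_lit 57389) (nat_lit 5) (.e (nat_lit 114712) (nat_lit 21) (.e (nat_lit 57930) (nat_lit 282) (.e (nat_lit 163923) (nat_lit 15) (.e (nat_lit 450587) (nat_lit 10) (.e (nat_lit 573477) (nat_lit 12) (.e (nat_lit 57360) (nat_lit 0) (.e (nat_lit 5947) (nat_lit 322) .nil)))))))) (.g (nat_lit 1) (.e (nat_lit 252593) (nat_lit 0) .nil) .nil))))) 
(.nd (nat_lit 8) (.nd (nat_lit 9) 
(.lf (nat_lit 532636) (.g (nat_lit 3245) (.e (nat_lit 57379) (nat_lit 3) (.e (nat_lit 98366) (nat_lit 27) (.e (nat_lit 434244) (nat_lit 28) (.e (nat_lit 573487) (nat_lit 14) (.e (nat_lit 73753) (nat_lit 8) (.e (nat_lit 557111) (nat_lit 16) (.e (nat_lit 229379) (nat_lit 0) (.e (nat_lit 5939) (nat_lit 322) .nil)))))))) (.g (nat_lit 1) (.e (nat_lit 251564) (nat_lit 0) .nil) .nil))) 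
(.lf (nat_lit 533148) (.g (nat_lit 2741) (.e (nat_lit 57389) (nat_lit 5) (.e (nat_lit 114697) (nat_lit 11) (.e (nat_lit 426198) (nat_lit 9) (.e (nat_lit 426555) (nat_lit 32) (.e (nat_lit 376859) (nat_lit 21) (.e (nat_lit 57853) (nat_lit 252) .nil)))))) (.g (nat_lit 1) (.e (nat_lit 252340) (nat_lit 0) .nil) .nil)))) (.nd (nat_lit 9) 
(.lf (nat_lit 532892) (.g (nat_lit 2729) (.e (nat_lit 57388) (nat_lit 5) (.e (nat_lit 114697) (nat_lit 11) (.e (nat_lit 426198) (nat_lit 9) (.e (nat_lit 426555) (nat_lit 32) (.e (nat_lit 376860) (nat_lit 21) (.e (nat_lit 57851) (nat_lit 252) .nil)))))) (.g (nat_lit 1) (.e (nat_lit 251876) (nat_lit 0) .nil) .nil))) 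
(.lf (nat_lit 533404) (.g (nat_lit 4949) (.e (nat_lit 57406) (nat_lit 12) (.e (nat_lit 336019) (nat_lit 3) (.e (nat_lit 98372) (nat_lit 29) (.e (nat_lit 450588) (nat_lit 10) (.e (nat_lit 573475) (nat_lit 12) (.e (nat_lit 57351) (nat_lit 0) (.e (nat_lit 7265) (nat_lit 384) .nil))))))) (.g (nat_lit 1) (.e (nat_lit 252840) (nat_lit 0) .nil) .nil)))))) 
(.nd (nat_lit 7) (.nd (nat_lit 8) (.nd (nat_lit 9) 
(.lf (nat_lit 532572) (.g (nat_lit 2995) (.e (nat_lit 57379) (nat_lit 3) (.e (nat_lit 98365) (nat_lit 26) (.e (nat_lit 426325) (nat_lit 13) (.e (nat_lit 483341) (nat_lit 9) (.e (nat_lit 426009) (nat_lit 0) (.e (nat_lit 2430) (nat_lit 157) (.e (nat_lit 5943) (nat_lit 322) .nil))))))) (.g (nat_lit 1) (.e (nat_lit 251500) (nat_lit 0) .nil) .nil))) 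
(.lf (nat_lit 533084) (.g (nat_lit 4233) (.e (nat_lit 57388) (nat_lit 5) (.e (nat_lit 114712) (nat_lit 21) (.e (nat_lit 57929) (nat_lit 282) (.e (nat_lit 163923) (nat_lit 15) (.e (nat_lit 450587) (nat_lit 10) (.e (nat_lit 573475) (nat_lit 12) (.e (nat_lit 57360) (nat_lit 0) (.e (nat_lit 5949) (nat_lit 322) .nil)))))))) (.g (nat_lit 1) (.e (nat_lit 252260) (nat_lit 0) .nil) .nil)))) 
(.nd (nat_lit 9) 
(.lf (nat_lit 532828) (.g (nat_lit 3143) (.e (nat_lit 57388) (nat_lit 5) (.e (nat_lit 114697) (nat_lit 11) (.e (nat_lit 426188) (nat_lit 9) (.e (nat_lit 426555) (nat_lit 32) (.e (nat_lit 376857) (nat_lit 21) (.e (nat_lit 57846) (nat_lit 252) .nil)))))) (.g (nat_lit 1) (.e (nat_lit 251812) (nat_lit 0) .nil) .nil))) 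
(.lf (nat_lit 533340) (.g (nat_lit 3298) (.e (nat_lit 57390) (nat_lit 5) (.e (nat_lit 114716) (nat_lit 22) (.e (nat_lit 90160) (nat_lit 11) (.e (nat_lit 24648) (nat_lit 12) (.e (nat_lit 385066) (nat_lit 26) (.e (nat_lit 540416) (nat_lit 18) (.e (nat_lit 164399) (nat_lit 256) .nil))))))) (.g (nat_lit 1) (.e (nat_lit 252700) (nat_lit 0) .nil) .nil))))) (.nd (nat_lit 8) (.nd (nat_lit 9) 
(.lf (nat_lit 532700) (.g (nat_lit 3288) (.e (nat_lit 57379) (nat_lit 3) (.e (nat_lit 98366) (nat_lit 27) (.e (nat_lit 434248) (nat_lit 28) (.e (nat_lit 573489) (nat_lit 14) (.e (nat_lit 73755) (nat_lit 8) (.e (nat_lit 557091) (nat_lit 12) (.e (nat_lit 163841) (nat_lit 0) (.e (nat_lit 5940) (nat_lit 322) .nil)))))))) (.g (nat_lit 1) (.e (nat_lit 251628) (nat_lit 0) .nil) .nil))) 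
(.lf (nat_lit 533212) (.g (nat_lit 373) (.e (nat_lit 57389) (nat_lit 5) (.e (nat_lit 114698) (nat_lit 11) (.e (nat_lit 426198) (nat_lit 9) .nil))) (.g (nat_lit 0) (.e (nat_lit 252470) (nat_lit 0) .nil) .nil)))) (.nd (nat_lit 9) 
(.lf (nat_lit 532956) (.g (nat_lit 1865) (.e (nat_lit 57388) (nat_lit 5) (.e (nat_lit 114698) (nat_lit 11) (.e (nat_lit 426190) (nat_lit 9) (.e (nat_lit 426555) (nat_lit 32) (.e (nat_lit 376856) (nat_lit 21) .nil))))) (.g (nat_lit 0) (.e (nat_lit 252032) (nat_lit 0) .nil) .nil))) 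
(.lf (nat_lit 533468) (.g (nat_lit 1843) (.e (nat_lit 57406) (nat_lit 12) (.e (nat_lit 336454) (nat_lit 34) (.e (nat_lit 483385) (nat_lit 23) (.e (nat_lit 336260) (nat_lit 15) (.e (nat_lit 3238) (nat_lit 197) .nil))))) (.g (nat_lit 0) (.e (nat_lit 252936) (nat_lit 0) .nil) .nil))))))) (.nd (nat_lit 6) (.nd (nat_lit 7) (.nd (nat_lit 8) (.nd (nat_lit 9) 
(.lf (nat_lit 532540) (.g (nat_lit 1800) (.e (nat_lit 57379) (nat_lit 3) (.e (nat_lit 98365) (nat_lit 26) (.e (nat_lit 426190) (nat_lit 9) (.e (nat_lit 426566) (nat_lit 34) (.e (nat_lit 393252) (nat_lit 18) .nil))))) (.g (nat_lit 0) (.e (nat_lit 251468) (nat_lit 0) .nil) .nil))) 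
(.lf (nat_lit 533052) (.g (nat_lit 3927) (.e (nat_lit 57388) (nat_lit 5) (.e (nat_lit 114698) (nat_lit 11) (.e (nat_lit 426200) (nat_lit 9) (.e (nat_lit 426555) (nat_lit 32) (.e (nat_lit 376857) (nat_lit 21) (.e (nat_lit 57846) (nat_lit 252) .nil)))))) (.g (nat_lit 1) (.e (nat_lit 252128) (nat_lit 0) .nil) .nil)))) (.nd (nat_lit 9) 
(.lf (nat_lit 532796) (.g (nat_lit 2282) (.e (nat_lit 57388) (nat_lit 5) (.e (nat_lit 114694) (nat_lit 11) (.e (nat_lit 426200) (nat_lit 9) (.e (nat_lit 426555) (nat_lit 32) (.e (nat_lit 376859) (nat_lit 21) (.e (nat_lit 57847) (nat_lit 252) .nil)))))) (.g (nat_lit 1) (.e (nat_lit 251769) (nat_lit 0) .nil) .nil))) 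
(.lf (nat_lit 533308) (.g (nat_lit 1701) (.e (nat_lit 57390) (nat_lit 5) (.e (nat_lit 114697) (nat_lit 11) (.e (nat_lit 426198) (nat_lit 9) (.e (nat_lit 426555) (nat_lit 32) (.e (nat_lit 376859) (nat_lit 21) (.e (nat_lit 57848) (nat_lit 252) .nil)))))) (.g (nat_lit 1) (.e (nat_lit 252632) (nat_lit 0) .nil) .nil))))) (.nd (nat_lit 8) (.nd (nat_lit 9) 
(.lf (nat_lit 532668) (.g (nat_lit 3238) (.e (nat_lit 57379) (nat_lit 3) (.e (nat_lit 98366) (nat_lit 27) (.e (nat_lit 434246) (nat_lit 28) (.e (nat_lit 573489) (nat_lit 14) (.e (nat_lit 73755) (nat_lit 8) (.e (nat_lit 557090) (nat_lit 12) (.e (nat_lit 163844) (nat_lit 0) (.e (nat_lit 5943) (nat_lit 322) .nil)))))))) (.g (nat_lit 1) (.e (nat_lit 251596) (nat_lit 0) .nil) .nil))) 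
(.lf (nat_lit 533180) (.g (nat_lit 2971) (.e (nat_lit 57389) (nat_lit 5) (.e (nat_lit 114698) (nat_lit 11) (.e (nat_lit 426188) (nat_lit 9) (.e (nat_lit 426555) (nat_lit 32) (.e (nat_lit 376859) (nat_lit 21) (.e (nat_lit 57847) (nat_lit 252) .nil)))))) (.g (nat_lit 1) (.e (nat_lit 252438) (nat_lit 0) .nil) .nil)))) (.nd (nat_lit 9) 
(.lf (nat_lit 532924) (.g (nat_lit 2743) (.e (nat_lit 57388) (nat_lit 5) (.e (nat_lit 114697) (nat_lit 11) (.e (nat_lit 426200) (nat_lit 9) (.e (nat_lit 426555) (nat_lit 32) (.e (nat_lit 376859) (nat_lit 21) (.e (nat_lit 57853) (nat_lit 252) .nil)))))) (.g (nat_lit 1) (.e (nat_lit 251909) (nat_lit 0) .nil) .nil))) 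
(.lf (nat_lit 533436) (.g (nat_lit 3829) (.e (nat_lit 57406) (nat_lit 12) (.e (nat_lit 336316) (nat_lit 17) (.e (nat_lit 196666) (nat_lit 13) (.e (nat_lit 65610) (nat_lit 10) (.e (nat_lit 344097) (nat_lit 18) (.e (nat_lit 7936) (nat_lit 412) (.e (nat_lit 57368) (nat_lit 1) (.e (nat_lit 57854) (nat_lit 252) .nil)))))))) (.g (nat_lit 1) (.e (nat_lit 252875) (nat_lit 0) .nil) .nil)))))) 
(.nd (nat_lit 7) (.nd (nat_lit 8) (.nd (nat_lit 9) 
(.lf (nat_lit 532604) (.g (nat_lit 2071) (.e (nat_lit 57379) (nat_lit 3) (.e (nat_lit 98366) (nat_lit 27) (.e (nat_lit 434231) (nat_lit 23) (.e (nat_lit 532514) (nat_lit 3) (.e (nat_lit 114699) (nat_lit 20) .nil))))) (.g (nat_lit 0) (.e (nat_lit 251532) (nat_lit 0) .nil) .nil))) 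
(.lf (nat_lit 533116) (.g (nat_lit 2833) (.e (nat_lit 57389) (nat_lit 5) (.e (nat_lit 114697) (nat_lit 11) (.e (nat_lit 426188) (nat_lit 9) (.e (nat_lit 426555) (nat_lit 32) (.e (nat_lit 376860) (nat_lit 21) (.e (nat_lit 57844) (nat_lit 252) .nil)))))) (.g (nat_lit 1) (.e (nat_lit 252308) (nat_lit 0) .nil) .nil)))) (.nd (nat_lit 9) 
(.lf (nat_lit 532860) (.g (nat_lit 3454) (.e (nat_lit 57388) (nat_lit 5) (.e (nat_lit 114697) (nat_lit 11) (.e (nat_lit 426190) (nat_lit 9) (.e (nat_lit 426555) (nat_lit 32) (.e (nat_lit 376860) (nat_lit 21) (.e (nat_lit 57854) (nat_lit 252) .nil)))))) (.g (nat_lit 1) (.e (nat_lit 251844) (nat_lit 0) .nil) .nil))) 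
(.lf (nat_lit 533372) (.g (nat_lit 1496) (.e (nat_lit 57405) (nat_lit 12) (.e (nat_lit 336443) (nat_lit 32) (.e (nat_lit 466981) (nat_lit 23) (.e (nat_lit 204808) (nat_lit 9) .nil)))) (.g (nat_lit 0) (.e (nat_lit 252789) (nat_lit 0) .nil) .nil))))) (.nd (nat_lit 8) (.nd (nat_lit 9) 
(.lf (nat_lit 532732) (.g (nat_lit 2800) (.e (nat_lit 57379) (nat_lit 3) (.e (nat_lit 98367) (nat_lit 27) (.e (nat_lit 434246) (nat_lit 28) (.e (nat_lit 573487) (nat_lit 14) (.e (nat_lit 73753) (nat_lit 8) (.e (nat_lit 557090) (nat_lit 12) (.e (nat_lit 163850) (nat_lit 0) (.e (nat_lit 5939) (nat_lit 322) .nil)))))))) (.g (nat_lit 1) (.e (nat_lit 251660) (nat_lit 0) .nil) .nil))) 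
(.lf (nat_lit 533244) (.g (nat_lit 3150) (.e (nat_lit 57389) (nat_lit 5) (.e (nat_lit 114698) (nat_lit 11) (.e (nat_lit 426199) (nat_lit 9) (.e (nat_lit 426555) (nat_lit 32) (.e (nat_lit 376860) (nat_lit 21) (.e (nat_lit 57844) (nat_lit 252) .nil)))))) (.g (nat_lit 1) (.e (nat_lit 252502) (nat_lit 0) .nil) .nil)))) (.nd (nat_lit 9) 
(.lf (nat_lit 532988) (.g (nat_lit 3385) (.e (nat_lit 57388) (nat_lit 5) (.e (nat_lit 114698) (nat_lit 11) (.e (nat_lit 426197) (nat_lit 9) (.e (nat_lit 426555) (nat_lit 32) (.e (nat_lit 376859) (nat_lit 21) (.e (nat_lit 57844) (nat_lit 252) .nil)))))) (.g (nat_lit 1) (.e (nat_lit 252064) (nat_lit 0) .nil) .nil))) 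
(.lf (nat_lit 533500) (.g (nat_lit 761) (.e (nat_lit 57406) (nat_lit 12) (.e (nat_lit 336456) (nat_lit 34) (.e (nat_lit 483400) (nat_lit 25) .nil))) (.g (nat_lit 0) (.e (nat_lit 252968) (nat_lit 0) .nil) .nil))))))))))) (.nd (nat_lit 2) (.nd (nat_lit 3) (.nd (nat_lit 4) (.nd (nat_lit 5) (.nd (nat_lit 6) (.nd (nat_lit 7) (.nd (nat_lit 8) (.nd (nat_lit 9) 
(.lf (nat_lit 532482) (.g (nat_lit 3604) (.e (nat_lit 57379) (nat_lit 3) (.e (nat_lit 98342) (nat_lit 20) (.e (nat_lit 221212) (nat_lit 22) (.e (nat_lit 196670) (nat_lit 14) (.e (nat_lit 73746) (nat_lit 3) (.e (nat_lit 516120) (nat_lit 1) (.e (nat_lit 164180) (nat_lit 154) .nil))))))) (.g (nat_lit 1) (.e (nat_lit 251410) (nat_lit 0) .nil) .nil))) 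
(.lf (nat_lit 532994) (.g (nat_lit 3385) (.e (nat_lit 57388) (nat_lit 5) (.e (nat_lit 114698) (nat_lit 11) (.e (nat_lit 426197) (nat_lit 9) (.e (nat_lit 426555) (nat_lit 32) (.e (nat_lit 376860) (nat_lit 21) (.e (nat_lit 57851) (nat_lit 252) .nil)))))) (.g (nat_lit 1) (.e (nat_lit 252070) (nat_lit 0) .nil) .nil)))) (.nd (nat_lit 9) 
(.lf (nat_lit 532738) (.g (nat_lit 4391) (.e (nat_lit 57379) (nat_lit 3) (.e (nat_lit 98367) (nat_lit 27) (.e (nat_lit 434247) (nat_lit 28) (.e (nat_lit 573489) (nat_lit 14) (.e (nat_lit 73755) (nat_lit 8) (.e (nat_lit 557090) (nat_lit 12) (.e (nat_lit 163843) (nat_lit 0) (.e (nat_lit 5943) (nat_lit 322) .nil)))))))) (.g (nat_lit 1) (.e (nat_lit 251666) (nat_lit 0) .nil) .nil))) 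
(.lf (nat_lit 533250) (.g (nat_lit 3476) (.e (nat_lit 57389) (nat_lit 5) (.e (nat_lit 114698) (nat_lit 11) (.e (nat_lit 426200) (nat_lit 9) (.e (nat_lit 426555) (nat_lit 32) (.e (nat_lit 376857) (nat_lit 21) (.e (nat_lit 57847) (nat_lit 252) .nil)))))) (.g (nat_lit 1) (.e (nat_lit 252508) (nat_lit 0) .nil) .nil))))) (.nd (nat_lit 8) (.nd (nat_lit 9) 
(.lf (nat_lit 532610) (.g (nat_lit 2866) (.e (nat_lit 57379) (nat_lit 3) (.e (nat_lit 98366) (nat_lit 27) (.e (nat_lit 434231) (nat_lit 23) (.e (nat_lit 532514) (nat_lit 3) (.e (nat_lit 114716) (nat_lit 22) (.e (nat_lit 90181) (nat_lit 16) (.e (nat_lit 237312) (nat_lit 0) (.e (nat_lit 5937) (nat_lit 322) .nil)))))))) (.g (nat_lit 1) (.e (nat_lit 251538) (nat_lit 0) .nil) .nil))) 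
(.lf (nat_lit 533122) (.g (nat_lit 2746) (.e (nat_lit 57389) (nat_lit 5) (.e (nat_lit 114697) (nat_lit 11) (.e (nat_lit 426190) (nat_lit 9) (.e (nat_lit 426555) (nat_lit 32) (.e (nat_lit 376857) (nat_lit 21) (.e (nat_lit 57847) (nat_lit 252) .nil)))))) (.g (nat_lit 1) (.e (nat_lit 252314) (nat_lit 0) .nil) .nil)))) (.nd (nat_lit 9) 
(.lf (nat_lit 532866) (.g (nat_lit 2576) (.e (nat_lit 57388) (nat_lit 5) (.e (nat_lit 114697) (nat_lit 11) (.e (nat_lit 426197) (nat_lit 9) (.e (nat_lit 426555) (nat_lit 32) (.e (nat_lit 376859) (nat_lit 21) (.e (nat_lit 57854) (nat_lit 252) .nil)))))) (.g (nat_lit 1) (.e (nat_lit 251850) (nat_lit 0) .nil) .nil))) 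
(.lf (nat_lit 533378) (.g (nat_lit 2395) (.e (nat_lit 57406) (nat_lit 12) (.e (nat_lit 336018) (nat_lit 3) (.e (nat_lit 98359) (nat_lit 26) (.e (nat_lit 426286) (nat_lit 10) (.e (nat_lit 434245) (nat_lit 28) (.e (nat_lit 573474) (nat_lit 12) (.e (nat_lit 57348) (nat_lit 0) (.e (nat_lit 7265) (nat_lit 384) .nil)))))))) (.g (nat_lit 1) (.e (nat_lit 252814) (nat_lit 0) .nil) .nil)))))) 
(.nd (nat_lit 7) (.nd (nat_lit 8) (.nd (nat_lit 9) 
(.lf (nat_lit 532546) (.g (nat_lit 2491) (.e (nat_lit 57379) (nat_lit 3) (.e (nat_lit 98365) (nat_lit 26) (.e (nat_lit 426325) (nat_lit 13) (.e (nat_lit 483337) (nat_lit 9) (.e (nat_lit 426030) (nat_lit 0) (.e (nat_lit 2456) (nat_lit 157) (.e (nat_lit 5939) (nat_lit 322) .nil))))))) (.g (nat_lit 1) (.e (nat_lit 251474) (nat_lit 0) .nil) .nil))) 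
(.lf (nat_lit 533058) (.g (nat_lit 3865) (.e (nat_lit 57388) (nat_lit 5) (.e (nat_lit 114698) (nat_lit 11) (.e (nat_lit 426200) (nat_lit 9) (.e (nat_lit 426555) (nat_lit 32) (.e (nat_lit 376859) (nat_lit 21) (.e (nat_lit 57846) (nat_lit 252) .nil)))))) (.g (nat_lit 1) (.e (nat_lit 252134) (nat_lit 0) .nil) .nil)))) (.nd (nat_lit 9) 
(.lf (nat_lit 532802) (.g (nat_lit 1890) (.e (nat_lit 57388) (nat_lit 5) (.e (nat_lit 114696) (nat_lit 11) (.e (nat_lit 426230) (nat_lit 9) (.e (nat_lit 426554) (nat_lit 32) (.e (nat_lit 376859) (nat_lit 21) (.e (nat_lit 57846) (nat_lit 252) .nil)))))) (.g (nat_lit 1) (.e (nat_lit 251786) (nat_lit 0) .nil) .nil))) 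
(.lf (nat_lit 533314) (.g (nat_lit 3105) (.e (nat_lit 57390) (nat_lit 5) (.e (nat_lit 114697) (nat_lit 11) (.e (nat_lit 426200) (nat_lit 9) (.e (nat_lit 426555) (nat_lit 32) (.e (nat_lit 376857) (nat_lit 21) (.e (nat_lit 57846) (nat_lit 252) .nil)))))) (.g (nat_lit 1) (.e (nat_lit 252638) (nat_lit 0) .nil) .nil))))) (.nd (nat_lit 8) (.nd (nat_lit 9) 
(.lf (nat_lit 532674) (.g (nat_lit 3087) (.e (nat_lit 57379) (nat_lit 3) (.e (nat_lit 98366) (nat_lit 27) (.e (nat_lit 434247) (nat_lit 28) (.e (nat_lit 573489) (nat_lit 14) (.e (nat_lit 73755) (nat_lit 8) (.e (nat_lit 557091) (nat_lit 12) (.e (nat_lit 163841) (nat_lit 0) (.e (nat_lit 5940) (nat_lit 322) .nil)))))))) (.g (nat_lit 1) (.e (nat_lit 251602) (nat_lit 0) .nil) .nil))) 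
(.lf (nat_lit 533186) (.g (nat_lit 2625) (.e (nat_lit 57389) (nat_lit 5) (.e (nat_lit 114698) (nat_lit 11) (.e (nat_lit 426190) (nat_lit 9) (.e (nat_lit 426555) (nat_lit 32) (.e (nat_lit 376856) (nat_lit 21) (.e (nat_lit 57854) (nat_lit 252) .nil)))))) (.g (nat_lit 1) (.e (nat_lit 252444) (nat_lit 0) .nil) .nil)))) (.nd (nat_lit 9) 
(.lf (nat_lit 532930) (.g (nat_lit 292) (.e (nat_lit 57388) (nat_lit 5) (.e (nat_lit 114697) (nat_lit 11) (.e (nat_lit 426332) (nat_lit 13) .nil))) (.g (nat_lit 0) (.e (nat_lit 251950) (nat_lit 0) .nil) .nil))) 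
(.lf (nat_lit 533442) (.g (nat_lit 1907) (.e (nat_lit 57406) (nat_lit 12) (.e (nat_lit 336316) (nat_lit 17) (.e (nat_lit 196666) (nat_lit 13) (.e (nat_lit 65617) (nat_lit 10) (.e (nat_lit 344096) (nat_lit 18) .nil))))) (.g (nat_lit 0) (.e (nat_lit 252881) (nat_lit 0) .nil) .nil))))))) (.nd (nat_lit 6) (.nd (nat_lit 7) (.nd (nat_lit 8) (.nd (nat_lit 9) 
(.lf (nat_lit 532514) (.g (nat_lit 2983) (.e (nat_lit 57379) (nat_lit 3) (.e (nat_lit 98350) (nat_lit 24) (.e (nat_lit 409649) (nat_lit 18) (.e (nat_lit 303119) (nat_lit 3) (.e (nat_lit 204863) (nat_lit 27) .nil))))) (.g (nat_lit 0) (.e (nat_lit 251442) (nat_lit 0) .nil) .nil))) 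
(.lf (nat_lit 533026) (.g (nat_lit 3455) (.e (nat_lit 57388) (nat_lit 5) (.e (nat_lit 114698) (nat_lit 11) (.e (nat_lit 426198) (nat_lit 9) (.e (nat_lit 426555) (nat_lit 32) (.e (nat_lit 376859) (nat_lit 21) (.e (nat_lit 57849) (nat_lit 252) .nil)))))) (.g (nat_lit 1) (.e (nat_lit 252102) (nat_lit 0) .nil) .nil)))) (.nd (nat_lit 9) 
(.lf (nat_lit 532770) (.g (nat_lit 1614) (.e (nat_lit 57381) (nat_lit 4) (.e (nat_lit 106534) (nat_lit 11) (.e (nat_lit 16466) (nat_lit 13) (.e (nat_lit 483393) (nat_lit 23) .nil)))) (.g (nat_lit 0) (.e (nat_lit 251698) (nat_lit 0) .nil) .nil))) 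
(.lf (nat_lit 533282) (.g (nat_lit 852) (.e (nat_lit 57390) (nat_lit 5) (.e (nat_lit 114694) (nat_lit 11) (.e (nat_lit 426199) (nat_lit 9) (.e (nat_lit 426555) (nat_lit 32) .nil)))) (.g (nat_lit 0) (.e (nat_lit 252601) (nat_lit 0) .nil) .nil))))) (.nd (nat_lit 8) (.nd (nat_lit 9) 
(.lf (nat_lit 532642) (.g (nat_lit 4996) (.e (nat_lit 57379) (nat_lit 3) (.e (nat_lit 98366) (nat_lit 27) (.e (nat_lit 434244) (nat_lit 28) (.e (nat_lit 573488) (nat_lit 14) (.e (nat_lit 73755) (nat_lit 8) (.e (nat_lit 557090) (nat_lit 12) (.e (nat_lit 163843) (nat_lit 0) (.e (nat_lit 5940) (nat_lit 322) .nil)))))))) (.g (nat_lit 1) (.e (nat_lit 251570) (nat_lit 0) .nil) .nil))) 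
(.lf (nat_lit 533154) (.g (nat_lit 3055) (.e (nat_lit 57389) (nat_lit 5) (.e (nat_lit 114697) (nat_lit 11) (.e (nat_lit 426199) (nat_lit 9) (.e (nat_lit 426555) (nat_lit 32) (.e (nat_lit 376857) (nat_lit 21) (.e (nat_lit 57851) (nat_lit 252) .nil)))))) (.g (nat_lit 1) (.e (nat_lit 252346) (nat_lit 0) .nil) .nil)))) (.nd (nat_lit 9) 
(.lf (nat_lit 532898) (.g (nat_lit 3108) (.e (nat_lit 57388) (nat_lit 5) (.e (nat_lit 114697) (nat_lit 11) (.e (nat_lit 426199) (nat_lit 9) (.e (nat_lit 426555) (nat_lit 32) (.e (nat_lit 376857) (nat_lit 21) (.e (nat_lit 57846) (nat_lit 252) .nil)))))) (.g (nat_lit 1) (.e (nat_lit 251883) (nat_lit 0) .nil) .nil))) 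
(.lf (nat_lit 533410) (.g (nat_lit 4768) (.e (nat_lit 57406) (nat_lit 12) (.e (nat_lit 336019) (nat_lit 3) (.e (nat_lit 98373) (nat_lit 29) (.e (nat_lit 450587) (nat_lit 10) (.e (nat_lit 573477) (nat_lit 12) (.e (nat_lit 57351) (nat_lit 0) (.e (nat_lit 7265) (nat_lit 384) .nil))))))) (.g (nat_lit 1) (.e (nat_lit 252846) (nat_lit 0) .nil) .nil)))))) 
(.nd (nat_lit 7) (.nd (nat_lit 8) (.nd (nat_lit 9) 
(.lf (nat_lit 532578) (.g (nat_lit 2358) (.e (nat_lit 57379) (nat_lit 3) (.e (nat_lit 98365) (nat_lit 26) (.e (nat_lit 426325) (nat_lit 13) (.e (nat_lit 483341) (nat_lit 9) (.e (nat_lit 426011) (nat_lit 0) .nil))))) (.g (nat_lit 0) (.e (nat_lit 251506) (nat_lit 0) .nil) .nil))) 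
(.lf (nat_lit 533090) (.g (nat_lit 2530) (.e (nat_lit 57388) (nat_lit 5) (.e (nat_lit 114716) (nat_lit 22) (.e (nat_lit 90158) (nat_lit 11) (.e (nat_lit 24648) (nat_lit 12) (.e (nat_lit 385066) (nat_lit 26) (.e (nat_lit 540416) (nat_lit 18) (.e (nat_lit 164399) (nat_lit 256) .nil))))))) (.g (nat_lit 1) (.e (nat_lit 252267) (nat_lit 0) .nil) .nil)))) (.nd (nat_lit 9) 
(.lf (nat_lit 532834) (.g (nat_lit 3343) (.e (nat_lit 57388) (nat_lit 5) (.e (nat_lit 114697) (nat_lit 11) (.e (nat_lit 426188) (nat_lit 9) (.e (nat_lit 426555) (nat_lit 32) (.e (nat_lit 376857) (nat_lit 21) (.e (nat_lit 57854) (nat_lit 252) .nil)))))) (.g (nat_lit 1) (.e (nat_lit 251818) (nat_lit 0) .nil) .nil))) 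
(.lf (nat_lit 533346) (.g (nat_lit 2342) (.e (nat_lit 57400) (nat_lit 10) (.e (nat_lit 319490) (nat_lit 0) (.e (nat_lit 5664) (nat_lit 312) (.e (nat_lit 2852) (nat_lit 184) (.e (nat_lit 426556) (nat_lit 32) (.e (nat_lit 376870) (nat_lit 24) (.e (nat_lit 123198) (nat_lit 266) .nil))))))) (.g (nat_lit 1) (.e (nat_lit 252714) (nat_lit 0) .nil) .nil))))) (.nd (nat_lit 8) (.nd (nat_lit 9) 
(.lf (nat_lit 532706) (.g (nat_lit 2371) (.e (nat_lit 57379) (nat_lit 3) (.e (nat_lit 98367) (nat_lit 27) (.e (nat_lit 434231) (nat_lit 23) (.e (nat_lit 532513) (nat_lit 3) (.e (nat_lit 114708) (nat_lit 20) .nil))))) (.g (nat_lit 0) (.e (nat_lit 251634) (nat_lit 0) .nil) .nil))) 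
(.lf (nat_lit 533218) (.g (nat_lit 2091) (.e (nat_lit 57389) (nat_lit 5) (.e (nat_lit 114698) (nat_lit 11) (.e (nat_lit 426198) (nat_lit 9) (.e (nat_lit 426542) (nat_lit 29) (.e (nat_lit 352309) (nat_lit 21) (.e (nat_lit 57845) (nat_lit 252) .nil)))))) (.g (nat_lit 1) (.e (nat_lit 252476) (nat_lit 0) .nil) .nil)))) (.nd (nat_lit 9) 
(.lf (nat_lit 532962) (.g (nat_lit 3240) (.e (nat_lit 57388) (nat_lit 5) (.e (nat_lit 114698) (nat_lit 11) (.e (nat_lit 426190) (nat_lit 9) (.e (nat_lit 426555) (nat_lit 32) (.e (nat_lit 376857) (nat_lit 21) (.e (nat_lit 57852) (nat_lit 252) .nil)))))) (.g (nat_lit 1) (.e (nat_lit 252038) (nat_lit 0) .nil) .nil))) 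
(.lf (nat_lit 533474) (.g (nat_lit 1581) (.e (nat_lit 57406) (nat_lit 12) (.e (nat_lit 336454) (nat_lit 34) (.e (nat_lit 483408) (nat_lit 26) (.e (nat_lit 385067) (nat_lit 26) (.e (nat_lit 532502) (nat_lit 1) .nil))))) (.g (nat_lit 0) (.e (nat_lit 252942) (nat_lit 0) .nil) .nil)))))))) (.nd (nat_lit 5) (.nd (nat_lit 6) (.nd (nat_lit 7) (.nd (nat_lit 8) (.nd (nat_lit 9) 
(.lf (nat_lit 532498) (.g (nat_lit 3981) (.e (nat_lit 57379) (nat_lit 3) (.e (nat_lit 98342) (nat_lit 20) (.e (nat_lit 221215) (nat_lit 23) (.e (nat_lit 204861) (nat_lit 26) (.e (nat_lit 336025) (nat_lit 3) (.e (nat_lit 98333) (nat_lit 18) (.e (nat_lit 164183) (nat_lit 154) .nil))))))) (.g (nat_lit 1) (.e (nat_lit 251426) (nat_lit 0) .nil) .nil))) 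
(.lf (nat_lit 533010) (.g (nat_lit 3641) (.e (nat_lit 57388) (nat_lit 5) (.e (nat_lit 114698) (nat_lit 11) (.e (nat_lit 426198) (nat_lit 9) (.e (nat_lit 426542) (nat_lit 29) (.e (nat_lit 352309) (nat_lit 21) (.e (nat_lit 57846) (nat_lit 252) .nil)))))) (.g (nat_lit 1) (.e (nat_lit 252086) (nat_lit 0) .nil) .nil)))) (.nd (nat_lit 9) 
(.lf (nat_lit 532754) (.g (nat_lit 2380) (.e (nat_lit 57379) (nat_lit 3) (.e (nat_lit 98368) (nat_lit 27) (.e (nat_lit 434247) (nat_lit 28) (.e (nat_lit 573489) (nat_lit 14) (.e (nat_lit 73755) (nat_lit 8) (.e (nat_lit 557089) (nat_lit 12) (.e (nat_lit 163844) (nat_lit 0) (.e (nat_lit 5943) (nat_lit 322) .nil)))))))) (.g (nat_lit 1) (.e (nat_lit 251682) (nat_lit 0) .nil) .nil))) 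
(.lf (nat_lit 533266) (.g (nat_lit 3055) (.e (nat_lit 57389) (nat_lit 5) (.e (nat_lit 114698) (nat_lit 11) (.e (nat_lit 426334) (nat_lit 13) (.e (nat_lit 483393) (nat_lit 23) (.e (nat_lit 335988) (nat_lit 1) (.e (nat_lit 57852) (nat_lit 252) .nil)))))) (.g (nat_lit 1) (.e (nat_lit 252553) (nat_lit 0) .nil) .nil))))) (.nd (nat_lit 8) (.nd (nat_lit 9) 
(.lf (nat_lit 532626) (.g (nat_lit 2825) (.e (nat_lit 57379) (nat_lit 3) (.e (nat_lit 98366) (nat_lit 27) (.e (nat_lit 434244) (nat_lit 28) (.e (nat_lit 573487) (nat_lit 14) (.e (nat_lit 73753) (nat_lit 8) (.e (nat_lit 557090) (nat_lit 12) (.e (nat_lit 163841) (nat_lit 0) (.e (nat_lit 5940) (nat_lit 322) .nil)))))))) (.g (nat_lit 1) (.e (nat_lit 251554) (nat_lit 0) .nil) .nil))) 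
(.lf (nat_lit 533138) (.g (nat_lit 3497) (.e (nat_lit 57389) (nat_lit 5) (.e (nat_lit 114697) (nat_lit 11) (.e (nat_lit 426198) (nat_lit 9) (.e (nat_lit 426542) (nat_lit 29) (.e (nat_lit 352307) (nat_lit 21) (.e (nat_lit 57853) (nat_lit 252) .nil)))))) (.g (nat_lit 1) (.e (nat_lit 252330) (nat_lit 0) .nil) .nil)))) (.nd (nat_lit 9) 
(.lf (nat_lit 532882) (.g (nat_lit 2619) (.e (nat_lit 57388) (nat_lit 5) (.e (nat_lit 114697) (nat_lit 11) (.e (nat_lit 426198) (nat_lit 9) (.e (nat_lit 426555) (nat_lit 32) (.e (nat_lit 376857) (nat_lit 21) (.e (nat_lit 57851) (nat_lit 252) .nil)))))) (.g (nat_lit 1) (.e (nat_lit 251866) (nat_lit 0) .nil) .nil))) 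
(.lf (nat_lit 533394) (.g (nat_lit 4101) (.e (nat_lit 57406) (nat_lit 12) (.e (nat_lit 336019) (nat_lit 3) (.e (nat_lit 98359) (nat_lit 26) (.e (nat_lit 426286) (nat_lit 10) (.e (nat_lit 434248) (nat_lit 28) (.e (nat_lit 573475) (nat_lit 12) (.e (nat_lit 57347) (nat_lit 0) (.e (nat_lit 7265) (nat_lit 384) .nil)))))))) (.g (nat_lit 1) (.e (nat_lit 252830) (nat_lit 0) .nil) .nil)))))) 
(.nd (nat_lit 7) (.nd (nat_lit 8) (.nd (nat_lit 9) 
(.lf (nat_lit 532562) (.g (nat_lit 2820) (.e (nat_lit 57379) (nat_lit 3) (.e (nat_lit 98365) (nat_lit 26) (.e (nat_lit 426325) (nat_lit 13) (.e (nat_lit 483337) (nat_lit 9) (.e (nat_lit 426099) (nat_lit 1) (.e (nat_lit 164398) (nat_lit 256) .nil)))))) (.g (nat_lit 1) (.e (nat_lit 251490) (nat_lit 0) .nil) .nil))) 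
(.lf (nat_lit 533074) (.g (nat_lit 3127) (.e (nat_lit 57388) (nat_lit 5) (.e (nat_lit 114698) (nat_lit 11) (.e (nat_lit 426327) (nat_lit 13) (.e (nat_lit 483393) (nat_lit 23) (.e (nat_lit 335988) (nat_lit 1) (.e (nat_lit 57852) (nat_lit 252) .nil)))))) (.g (nat_lit 1) (.e (nat_lit 252187) (nat_lit 0) .nil) .nil)))) (.nd (nat_lit 9) 
(.lf (nat_lit 532818) (.g (nat_lit 1840) (.e (nat_lit 57388) (nat_lit 5) (.e (nat_lit 114696) (nat_lit 11) (.e (nat_lit 426262) (nat_lit 9) (.e (nat_lit 426541) (nat_lit 29) (.e (nat_lit 352307) (nat_lit 21) (.e (nat_lit 57848) (nat_lit 252) .nil)))))) (.g (nat_lit 1) (.e (nat_lit 251802) (nat_lit 0) .nil) .nil))) 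
(.lf (nat_lit 533330) (.g (nat_lit 553) (.e (nat_lit 57390) (nat_lit 5) (.e (nat_lit 114698) (nat_lit 11) (.e (nat_lit 426199) (nat_lit 9) .nil))) (.g (nat_lit 0) (.e (nat_lit 252668) (nat_lit 0) .nil) .nil))))) (.nd (nat_lit 8) (.nd (nat_lit 9) 
(.lf (nat_lit 532690) (.g (nat_lit 3080) (.e (nat_lit 57379) (nat_lit 3) (.e (nat_lit 98366) (nat_lit 27) (.e (nat_lit 434248) (nat_lit 28) (.e (nat_lit 573489) (nat_lit 14) (.e (nat_lit 73755) (nat_lit 8) (.e (nat_lit 557090) (nat_lit 12) (.e (nat_lit 163841) (nat_lit 0) (.e (nat_lit 5933) (nat_lit 322) .nil)))))))) (.g (nat_lit 1) (.e (nat_lit 251618) (nat_lit 0) .nil) .nil))) 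
(.lf (nat_lit 533202) (.g (nat_lit 2239) (.e (nat_lit 57389) (nat_lit 5) (.e (nat_lit 114698) (nat_lit 11) (.e (nat_lit 426197) (nat_lit 9) (.e (nat_lit 426542) (nat_lit 29) (.e (nat_lit 352307) (nat_lit 21) (.e (nat_lit 57844) (nat_lit 252) .nil)))))) (.g (nat_lit 1) (.e (nat_lit 252460) (nat_lit 0) .nil) .nil)))) (.nd (nat_lit 9) 
(.lf (nat_lit 532946) (.g (nat_lit 3418) (.e (nat_lit 57388) (nat_lit 5) (.e (nat_lit 114698) (nat_lit 11) (.e (nat_lit 426188) (nat_lit 9) (.e (nat_lit 426555) (nat_lit 32) (.e (nat_lit 376859) (nat_lit 21) (.e (nat_lit 57846) (nat_lit 252) .nil)))))) (.g (nat_lit 1) (.e (nat_lit 252022) (nat_lit 0) .nil) .nil))) 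
(.lf (nat_lit 533458) (.g (nat_lit 983) (.e (nat_lit 57406) (nat_lit 12) (.e (nat_lit 336443) (nat_lit 32) (.e (nat_lit 466981) (nat_lit 23) (.e (nat_lit 204812) (nat_lit 9) .nil)))) (.g (nat_lit 0) (.e (nat_lit 252925) (nat_lit 0) .nil) .nil))))))) (.nd (nat_lit 6) (.nd (nat_lit 7) (.nd (nat_lit 8) (.nd (nat_lit 9) 
(.lf (nat_lit 532530) (.g (nat_lit 2790) (.e (nat_lit 57379) (nat_lit 3) (.e (nat_lit 98365) (nat_lit 26) (.e (nat_lit 426188) (nat_lit 9) (.e (nat_lit 426566) (nat_lit 34) (.e (nat_lit 393251) (nat_lit 18) (.e (nat_lit 164397) (nat_lit 256) .nil)))))) (.g (nat_lit 1) (.e (nat_lit 251458) (nat_lit 0) .nil) .nil))) 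
(.lf (nat_lit 533042) (.g (nat_lit 3303) (.e (nat_lit 57388) (nat_lit 5) (.e (nat_lit 114698) (nat_lit 11) (.e (nat_lit 426199) (nat_lit 9) (.e (nat_lit 426555) (nat_lit 32) (.e (nat_lit 376859) (nat_lit 21) (.e (nat_lit 57844) (nat_lit 252) .nil)))))) (.g (nat_lit 1) (.e (nat_lit 252118) (nat_lit 0) .nil) .nil)))) (.nd (nat_lit 9) 
(.lf (nat_lit 532786) (.g (nat_lit 1222) (.e (nat_lit 57383) (nat_lit 4) (.e (nat_lit 106536) (nat_lit 11) (.e (nat_lit 16432) (nat_lit 9) .nil))) (.g (nat_lit 0) (.e (nat_lit 251746) (nat_lit 0) .nil) .nil))) 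
(.lf (nat_lit 533298) (.g (nat_lit 3000) (.e (nat_lit 57390) (nat_lit 5) (.e (nat_lit 114697) (nat_lit 11) (.e (nat_lit 426190) (nat_lit 9) (.e (nat_lit 426555) (nat_lit 32) (.e (nat_lit 376857) (nat_lit 21) (.e (nat_lit 57847) (nat_lit 252) .nil)))))) (.g (nat_lit 1) (.e (nat_lit 252621) (nat_lit 0) .nil) .nil))))) (.nd (nat_lit 8) (.nd (nat_lit 9) 
(.lf (nat_lit 532658) (.g (nat_lit 3839) (.e (nat_lit 57379) (nat_lit 3) (.e (nat_lit 98366) (nat_lit 27) (.e (nat_lit 434245) (nat_lit 28) (.e (nat_lit 573487) (nat_lit 14) (.e (nat_lit 73753) (nat_lit 8) (.e (nat_lit 557090) (nat_lit 12) (.e (nat_lit 163850) (nat_lit 0) (.e (nat_lit 5939) (nat_lit 322) .nil)))))))) (.g (nat_lit 1) (.e (nat_lit 251586) (nat_lit 0) .nil) .nil))) 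
(.lf (nat_lit 533170) (.g (nat_lit 1418) (.e (nat_lit 57389) (nat_lit 5) (.e (nat_lit 114698) (nat_lit 11) (.e (nat_lit 426139) (nat_lit 3) .nil))) (.g (nat_lit 0) (.e (nat_lit 252423) (nat_lit 0) .nil) .nil)))) (.nd (nat_lit 9) 
(.lf (nat_lit 532914) (.g (nat_lit 2797) (.e (nat_lit 57388) (nat_lit 5) (.e (nat_lit 114697) (nat_lit 11) (.e (nat_lit 426200) (nat_lit 9) (.e (nat_lit 426555) (nat_lit 32) (.e (nat_lit 376857) (nat_lit 21) (.e (nat_lit 57848) (nat_lit 252) .nil)))))) (.g (nat_lit 1) (.e (nat_lit 251899) (nat_lit 0) .nil) .nil))) 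
(.lf (nat_lit 533426) (.g (nat_lit 364) (.e (nat_lit 57406) (nat_lit 12) (.e (nat_lit 336316) (nat_lit 17) (.e (nat_lit 196666) (nat_lit 13) .nil))) (.g (nat_lit 0) (.e (nat_lit 252863) (nat_lit 0) .nil) .nil)))))) (.nd (nat_lit 7) (.nd (nat_lit 8) (.nd (nat_lit 9) 
(.lf (nat_lit 532594) (.g (nat_lit 2266) (.e (nat_lit 57379) (nat_lit 3) (.e (nat_lit 98366) (nat_lit 27) (.e (nat_lit 434231) (nat_lit 23) (.e (nat_lit 532513) (nat_lit 3) (.e (nat_lit 114707) (nat_lit 20) .nil))))) (.g (nat_lit 0) (.e (nat_lit 251522) (nat_lit 0) .nil) .nil))) 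
(.lf (nat_lit 533106) (.g (nat_lit 2396) (.e (nat_lit 57389) (nat_lit 5) (.e (nat_lit 114695) (nat_lit 11) (.e (nat_lit 426262) (nat_lit 9) (.e (nat_lit 426554) (nat_lit 32) (.e (nat_lit 376860) (nat_lit 21) (.e (nat_lit 57854) (nat_lit 252) .nil)))))) (.g (nat_lit 1) (.e (nat_lit 252298) (nat_lit 0) .nil) .nil)))) (.nd (nat_lit 9) 
(.lf (nat_lit 532850) (.g (nat_lit 2781) (.e (nat_lit 57388) (nat_lit 5) (.e (nat_lit 114697) (nat_lit 11) (.e (nat_lit 426190) (nat_lit 9) (.e (nat_lit 426555) (nat_lit 32) (.e (nat_lit 376857) (nat_lit 21) (.e (nat_lit 57852) (nat_lit 252) .nil)))))) (.g (nat_lit 1) (.e (nat_lit 251834) (nat_lit 0) .nil) .nil))) 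
(.lf (nat_lit 533362) (.g (nat_lit 3153) (.e (nat_lit 57404) (nat_lit 12) (.e (nat_lit 336456) (nat_lit 34) (.e (nat_lit 483383) (nat_lit 23) (.e (nat_lit 336324) (nat_lit 18) (.e (nat_lit 204831) (nat_lit 18) (.e (nat_lit 57852) (nat_lit 252) .nil)))))) (.g (nat_lit 1) (.e (nat_lit 252765) (nat_lit 0) .nil) .nil))))) (.nd (nat_lit 8) (.nd (nat_lit 9) 
(.lf (nat_lit 532722) (.g (nat_lit 3737) (.e (nat_lit 57379) (nat_lit 3) (.e (nat_lit 98367) (nat_lit 27) (.e (nat_lit 434244) (nat_lit 28) (.e (nat_lit 573488) (nat_lit 14) (.e (nat_lit 73755) (nat_lit 8) (.e (nat_lit 557090) (nat_lit 12) (.e (nat_lit 163844) (nat_lit 0) (.e (nat_lit 5940) (nat_lit 322) .nil)))))))) (.g (nat_lit 1) (.e (nat_lit 251650) (nat_lit 0) .nil) .nil))) 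
(.lf (nat_lit 533234) (.g (nat_lit 3933) (.e (nat_lit 57389) (nat_lit 5) (.e (nat_lit 114698) (nat_lit 11) (.e (nat_lit 426198) (nat_lit 9) (.e (nat_lit 426555) (nat_lit 32) (.e (nat_lit 376860) (nat_lit 21) (.e (nat_lit 57854) (nat_lit 252) .nil)))))) (.g (nat_lit 1) (.e (nat_lit 252492) (nat_lit 0) .nil) .nil)))) (.nd (nat_lit 9) 
(.lf (nat_lit 532978) (.g (nat_lit 725) (.e (nat_lit 57388) (nat_lit 5) (.e (nat_lit 114698) (nat_lit 11) (.e (nat_lit 426197) (nat_lit 9) (.e (nat_lit 426553) (nat_lit 32) .nil)))) (.g (nat_lit 0) (.e (nat_lit 252054) (nat_lit 0) .nil) .nil))) 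
(.lf (nat_lit 533490) (.g (nat_lit 2138) (.e (nat_lit 57406) (nat_lit 12) (.e (nat_lit 336456) (nat_lit 34) (.e (nat_lit 483383) (nat_lit 23) (.e (nat_lit 336302) (nat_lit 15) (.e (nat_lit 3234) (nat_lit 197) .nil))))) (.g (nat_lit 0) (.e (nat_lit 252958) (nat_lit 0) .nil) .nil))))))))) (.nd (nat_lit 4) (.nd (nat_lit 5) (.nd (nat_lit 6) (.nd (nat_lit 7) (.nd (nat_lit 8) (.nd (nat_lit 9) 
(.lf (nat_lit 532490) (.g (nat_lit 2583) (.e (nat_lit 57379) (nat_lit 3) (.e (nat_lit 98342) (nat_lit 20) (.e (nat_lit 221215) (nat_lit 23) (.e (nat_lit 204855) (nat_lit 26) (.e (nat_lit 336020) (nat_lit 3) (.e (nat_lit 98334) (nat_lit 18) (.e (nat_lit 164183) (nat_lit 154) .nil))))))) (.g (nat_lit 1) (.e (nat_lit 251418) (nat_lit 0) .nil) .nil))) 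
(.lf (nat_lit 533002) (.g (nat_lit 3481) (.e (nat_lit 57388) (nat_lit 5) (.e (nat_lit 114698) (nat_lit 11) (.e (nat_lit 426198) (nat_lit 9) (.e (nat_lit 426538) (nat_lit 29) (.e (nat_lit 352309) (nat_lit 21) (.e (nat_lit 57848) (nat_lit 252) .nil)))))) (.g (nat_lit 1) (.e (nat_lit 252078) (nat_lit 0) .nil) .nil)))) (.nd (nat_lit 9) 
(.lf (nat_lit 532746) (.g (nat_lit 3242) (.e (nat_lit 57379) (nat_lit 3) (.e (nat_lit 98367) (nat_lit 27) (.e (nat_lit 434248) (nat_lit 28) (.e (nat_lit 573489) (nat_lit 14) (.e (nat_lit 73755) (nat_lit 8) (.e (nat_lit 557090) (nat_lit 12) (.e (nat_lit 163841) (nat_lit 0) (.e (nat_lit 5940) (nat_lit 322) .nil)))))))) (.g (nat_lit 1) (.e (nat_lit 251674) (nat_lit 0) .nil) .nil))) 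
(.lf (nat_lit 533258) (.g (nat_lit 3489) (.e (nat_lit 57389) (nat_lit 5) (.e (nat_lit 114698) (nat_lit 11) (.e (nat_lit 426200) (nat_lit 9) (.e (nat_lit 426555) (nat_lit 32) (.e (nat_lit 376860) (nat_lit 21) (.e (nat_lit 57844) (nat_lit 252) .nil)))))) (.g (nat_lit 1) (.e (nat_lit 252516) (nat_lit 0) .nil) .nil))))) (.nd (nat_lit 8) (.nd (nat_lit 9) 
(.lf (nat_lit 532618) (.g (nat_lit 2310) (.e (nat_lit 57379) (nat_lit 3) (.e (nat_lit 98366) (nat_lit 27) (.e (nat_lit 434231) (nat_lit 23) (.e (nat_lit 532579) (nat_lit 26) (.e (nat_lit 426124) (nat_lit 2) (.e (nat_lit 196658) (nat_lit 12) (.e (nat_lit 57347) (nat_lit 0) (.e (nat_lit 7695) (nat_lit 412) .nil)))))))) (.g (nat_lit 1) (.e (nat_lit 251546) (nat_lit 0) .nil) .nil))) 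
(.lf (nat_lit 533130) (.g (nat_lit 3577) (.e (nat_lit 57389) (nat_lit 5) (.e (nat_lit 114697) (nat_lit 11) (.e (nat_lit 426190) (nat_lit 9) (.e (nat_lit 426555) (nat_lit 32) (.e (nat_lit 376859) (nat_lit 21) (.e (nat_lit 57854) (nat_lit 252) .nil)))))) (.g (nat_lit 1) (.e (nat_lit 252322) (nat_lit 0) .nil) .nil)))) (.nd (nat_lit 9) 
(.lf (nat_lit 532874) (.g (nat_lit 2801) (.e (nat_lit 57388) (nat_lit 5) (.e (nat_lit 114697) (nat_lit 11) (.e (nat_lit 426198) (nat_lit 9) (.e (nat_lit 426542) (nat_lit 29) (.e (nat_lit 352309) (nat_lit 21) (.e (nat_lit 57844) (nat_lit 252) .nil)))))) (.g (nat_lit 1) (.e (nat_lit 251858) (nat_lit 0) .nil) .nil))) 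
(.lf (nat_lit 533386) (.g (nat_lit 3996) (.e (nat_lit 57406) (nat_lit 12) (.e (nat_lit 336018) (nat_lit 3) (.e (nat_lit 98373) (nat_lit 29) (.e (nat_lit 450587) (nat_lit 10) (.e (nat_lit 573477) (nat_lit 12) (.e (nat_lit 57351) (nat_lit 0) (.e (nat_lit 7265) (nat_lit 384) .nil))))))) (.g (nat_lit 1) (.e (nat_lit 252822) (nat_lit 0) .nil) .nil)))))) 
(.nd (nat_lit 7) (.nd (nat_lit 8) (.nd (nat_lit 9) 
(.lf (nat_lit 532554) (.g (nat_lit 2543) (.e (nat_lit 57379) (nat_lit 3) (.e (nat_lit 98365) (nat_lit 26) (.e (nat_lit 426325) (nat_lit 13) (.e (nat_lit 483337) (nat_lit 9) (.e (nat_lit 426035) (nat_lit 0) (.e (nat_lit 2458) (nat_lit 157) (.e (nat_lit 5935) (nat_lit 322) .nil))))))) (.g (nat_lit 1) (.e (nat_lit 251482) (nat_lit 0) .nil) .nil))) 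
(.lf (nat_lit 533066) (.g (nat_lit 775) (.e (nat_lit 57388) (nat_lit 5) (.e (nat_lit 114698) (nat_lit 11) (.e (nat_lit 426315) (nat_lit 12) .nil))) (.g (nat_lit 0) (.e (nat_lit 252142) (nat_lit 0) .nil) .nil)))) (.nd (nat_lit 9) 
(.lf (nat_lit 532810) (.g (nat_lit 1744) (.e (nat_lit 57388) (nat_lit 5) (.e (nat_lit 114696) (nat_lit 11) (.e (nat_lit 426232) (nat_lit 9) (.e (nat_lit 426554) (nat_lit 32) (.e (nat_lit 376859) (nat_lit 21) (.e (nat_lit 57847) (nat_lit 252) .nil)))))) (.g (nat_lit 1) (.e (nat_lit 251794) (nat_lit 0) .nil) .nil))) 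
(.lf (nat_lit 533322) (.g (nat_lit 2703) (.e (nat_lit 57390) (nat_lit 5) (.e (nat_lit 114698) (nat_lit 11) (.e (nat_lit 426188) (nat_lit 9) (.e (nat_lit 426555) (nat_lit 32) (.e (nat_lit 376859) (nat_lit 21) (.e (nat_lit 57846) (nat_lit 252) .nil)))))) (.g (nat_lit 1) (.e (nat_lit 252660) (nat_lit 0) .nil) .nil))))) (.nd (nat_lit 8) (.nd (nat_lit 9) 
(.lf (nat_lit 532682) (.g (nat_lit 2664) (.e (nat_lit 57379) (nat_lit 3) (.e (nat_lit 98366) (nat_lit 27) (.e (nat_lit 434248) (nat_lit 28) (.e (nat_lit 573487) (nat_lit 14) (.e (nat_lit 73753) (nat_lit 8) (.e (nat_lit 557091) (nat_lit 12) (.e (nat_lit 163841) (nat_lit 0) (.e (nat_lit 5940) (nat_lit 322) .nil)))))))) (.g (nat_lit 1) (.e (nat_lit 251610) (nat_lit 0) .nil) .nil))) 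
(.lf (nat_lit 533194) (.g (nat_lit 2839) (.e (nat_lit 57389) (nat_lit 5) (.e (nat_lit 114698) (nat_lit 11) (.e (nat_lit 426190) (nat_lit 9) (.e (nat_lit 426555) (nat_lit 32) (.e (nat_lit 376859) (nat_lit 21) (.e (nat_lit 57846) (nat_lit 252) .nil)))))) (.g (nat_lit 1) (.e (nat_lit 252452) (nat_lit 0) .nil) .nil)))) (.nd (nat_lit 9) 
(.lf (nat_lit 532938) (.g (nat_lit 2149) (.e (nat_lit 57388) (nat_lit 5) (.e (nat_lit 114698) (nat_lit 11) (.e (nat_lit 426188) (nat_lit 9) (.e (nat_lit 426555) (nat_lit 32) (.e (nat_lit 376856) (nat_lit 21) (.e (nat_lit 57854) (nat_lit 252) .nil)))))) (.g (nat_lit 1) (.e (nat_lit 252014) (nat_lit 0) .nil) .nil))) 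
(.lf (nat_lit 533450) (.g (nat_lit 1977) (.e (nat_lit 57406) (nat_lit 12) (.e (nat_lit 336398) (nat_lit 27) (.e (nat_lit 426290) (nat_lit 10) (.e (nat_lit 434231) (nat_lit 23) (.e (nat_lit 532579) (nat_lit 26) (.e (nat_lit 426105) (nat_lit 1) (.e (nat_lit 164403) (nat_lit 256) .nil))))))) (.g (nat_lit 1) (.e (nat_lit 252917) (nat_lit 0) .nil) .nil))))))) 
(.nd (nat_lit 6) (.nd (nat_lit 7) (.nd (nat_lit 8) (.nd (nat_lit 9) 
(.lf (nat_lit 532522) (.g (nat_lit 1735) (.e (nat_lit 57379) (nat_lit 3) (.e (nat_lit 98363) (nat_lit 26) (.e (nat_lit 426129) (nat_lit 3) (.e (nat_lit 204837) (nat_lit 20) (.e (nat_lit 114719) (nat_lit 23) .nil))))) (.g (nat_lit 0) (.e (nat_lit 251450) (nat_lit 0) .nil) .nil))) 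
(.lf (nat_lit 533034) (.g (nat_lit 2733) (.e (nat_lit 57388) (nat_lit 5) (.e (nat_lit 114698) (nat_lit 11) (.e (nat_lit 426199) (nat_lit 9) (.e (nat_lit 426555) (nat_lit 32) (.e (nat_lit 376856) (nat_lit 21) (.e (nat_lit 57854) (nat_lit 252) .nil)))))) (.g (nat_lit 1) (.e (nat_lit 252110) (nat_lit 0) .nil) .nil)))) (.nd (nat_lit 9) 
(.lf (nat_lit 532778) (.g (nat_lit 1222) (.e (nat_lit 57382) (nat_lit 4) (.e (nat_lit 106536) (nat_lit 11) (.e (nat_lit 16432) (nat_lit 9) .nil))) (.g (nat_lit 0) (.e (nat_lit 251725) (nat_lit 0) .nil) .nil))) 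
(.lf (nat_lit 533290) (.g (nat_lit 1874) (.e (nat_lit 57390) (nat_lit 5) (.e (nat_lit 114695) (nat_lit 11) (.e (nat_lit 426234) (nat_lit 9) (.e (nat_lit 426554) (nat_lit 32) (.e (nat_lit 376859) (nat_lit 21) (.e (nat_lit 57846) (nat_lit 252) .nil)))))) (.g (nat_lit 1) (.e (nat_lit 252613) (nat_lit 0) .nil) .nil))))) (.nd (nat_lit 8) (.nd (nat_lit 9) 
(.lf (nat_lit 532650) (.g (nat_lit 3163) (.e (nat_lit 57379) (nat_lit 3) (.e (nat_lit 98366) (nat_lit 27) (.e (nat_lit 434244) (nat_lit 28) (.e (nat_lit 573488) (nat_lit 14) (.e (nat_lit 73755) (nat_lit 8) (.e (nat_lit 557091) (nat_lit 12) (.e (nat_lit 163841) (nat_lit 0) (.e (nat_lit 5940) (nat_lit 322) .nil)))))))) (.g (nat_lit 1) (.e (nat_lit 251578) (nat_lit 0) .nil) .nil))) 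
(.lf (nat_lit 533162) (.g (nat_lit 2367) (.e (nat_lit 57389) (nat_lit 5) (.e (nat_lit 114697) (nat_lit 11) (.e (nat_lit 426200) (nat_lit 9) (.e (nat_lit 426555) (nat_lit 32) (.e (nat_lit 376856) (nat_lit 21) .nil))))) (.g (nat_lit 0) (.e (nat_lit 252354) (nat_lit 0) .nil) .nil)))) (.nd (nat_lit 9) 
(.lf (nat_lit 532906) (.g (nat_lit 2885) (.e (nat_lit 57388) (nat_lit 5) (.e (nat_lit 114697) (nat_lit 11) (.e (nat_lit 426199) (nat_lit 9) (.e (nat_lit 426555) (nat_lit 32) (.e (nat_lit 376859) (nat_lit 21) (.e (nat_lit 57847) (nat_lit 252) .nil)))))) (.g (nat_lit 1) (.e (nat_lit 251891) (nat_lit 0) .nil) .nil))) 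
(.lf (nat_lit 533418) (.g (nat_lit 5202) (.e (nat_lit 57406) (nat_lit 12) (.e (nat_lit 336019) (nat_lit 3) (.e (nat_lit 98373) (nat_lit 29) (.e (nat_lit 450588) (nat_lit 10) (.e (nat_lit 573475) (nat_lit 12) (.e (nat_lit 57348) (nat_lit 0) (.e (nat_lit 7261) (nat_lit 384) .nil))))))) (.g (nat_lit 1) (.e (nat_lit 252854) (nat_lit 0) .nil) .nil)))))) 
(.nd (nat_lit 7) (.nd (nat_lit 8) (.nd (nat_lit 9) 
(.lf (nat_lit 532586) (.g (nat_lit 2321) (.e (nat_lit 57379) (nat_lit 3) (.e (nat_lit 98365) (nat_lit 26) (.e (nat_lit 426325) (nat_lit 13) (.e (nat_lit 483341) (nat_lit 9) (.e (nat_lit 426099) (nat_lit 1) .nil))))) (.g (nat_lit 0) (.e (nat_lit 251514) (nat_lit 0) .nil) .nil))) 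
(.lf (nat_lit 533098) (.g (nat_lit 2986) (.e (nat_lit 57389) (nat_lit 5) (.e (nat_lit 114694) (nat_lit 11) (.e (nat_lit 426200) (nat_lit 9) (.e (nat_lit 426555) (nat_lit 32) (.e (nat_lit 376859) (nat_lit 21) (.e (nat_lit 57854) (nat_lit 252) .nil)))))) (.g (nat_lit 1) (.e (nat_lit 252278) (nat_lit 0) .nil) .nil)))) (.nd (nat_lit 9) 
(.lf (nat_lit 532842) (.g (nat_lit 3314) (.e (nat_lit 57388) (nat_lit 5) (.e (nat_lit 114697) (nat_lit 11) (.e (nat_lit 426188) (nat_lit 9) (.e (nat_lit 426555) (nat_lit 32) (.e (nat_lit 376860) (nat_lit 21) (.e (nat_lit 57853) (nat_lit 252) .nil)))))) (.g (nat_lit 1) (.e (nat_lit 251826) (nat_lit 0) .nil) .nil))) 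
(.lf (nat_lit 533354) (.g (nat_lit 2312) (.e (nat_lit 57400) (nat_lit 10) (.e (nat_lit 319490) (nat_lit 0) (.e (nat_lit 5664) (nat_lit 312) (.e (nat_lit 3085) (nat_lit 191) (.e (nat_lit 483391) (nat_lit 23) (.e (nat_lit 336035) (nat_lit 4) (.e (nat_lit 123198) (nat_lit 266) .nil))))))) (.g (nat_lit 1) (.e (nat_lit 252722) (nat_lit 0) .nil) .nil))))) (.nd (nat_lit 8) (.nd (nat_lit 9) 
(.lf (nat_lit 532714) (.g (nat_lit 3151) (.e (nat_lit 57379) (nat_lit 3) (.e (nat_lit 98367) (nat_lit 27) (.e (nat_lit 434231) (nat_lit 23) (.e (nat_lit 532514) (nat_lit 3) (.e (nat_lit 114716) (nat_lit 22) (.e (nat_lit 90164) (nat_lit 12) (.e (nat_lit 163850) (nat_lit 0) (.e (nat_lit 5939) (nat_lit 322) .nil)))))))) (.g (nat_lit 1) (.e (nat_lit 251642) (nat_lit 0) .nil) .nil))) 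
(.lf (nat_lit 533226) (.g (nat_lit 2513) (.e (nat_lit 57389) (nat_lit 5) (.e (nat_lit 114698) (nat_lit 11) (.e (nat_lit 426198) (nat_lit 9) (.e (nat_lit 426555) (nat_lit 32) (.e (nat_lit 376858) (nat_lit 21) (.e (nat_lit 57854) (nat_lit 252) .nil)))))) (.g (nat_lit 1) (.e (nat_lit 252484) (nat_lit 0) .nil) .nil)))) (.nd (nat_lit 9) 
(.lf (nat_lit 532970) (.g (nat_lit 726) (.e (nat_lit 57388) (nat_lit 5) (.e (nat_lit 114698) (nat_lit 11) (.e (nat_lit 426196) (nat_lit 9) .nil))) (.g (nat_lit 0) (.e (nat_lit 252046) (nat_lit 0) .nil) .nil))) 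
(.lf (nat_lit 533482) (.g (nat_lit 4002) (.e (nat_lit 57406) (nat_lit 12) (.e (nat_lit 336456) (nat_lit 34) (.e (nat_lit 483380) (nat_lit 23) (.e (nat_lit 336324) (nat_lit 18) (.e (nat_lit 204831) (nat_lit 18) (.e (nat_lit 57852) (nat_lit 252) .nil)))))) (.g (nat_lit 1) (.e (nat_lit 252950) (nat_lit 0) .nil) .nil)))))))) 
(.nd (nat_lit 5) (.nd (nat_lit 6) (.nd (nat_lit 7) (.nd (nat_lit 8) (.nd (nat_lit 9) 
(.lf (nat_lit 532506) (.g (nat_lit 3660) (.e (nat_lit 57379) (nat_lit 3) (.e (nat_lit 98342) (nat_lit 20) (.e (nat_lit 221215) (nat_lit 23) (.e (nat_lit 204863) (nat_lit 27) (.e (nat_lit 344117) (nat_lit 21) (.e (nat_lit 516099) (nat_lit 0) (.e (nat_lit 2464) (nat_lit 157) (.e (nat_lit 6400) (nat_lit 339) .nil)))))))) (.g (nat_lit 1) (.e (nat_lit 251434) (nat_lit 0) .nil) .nil))) 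
(.lf (nat_lit 533018) (.g (nat_lit 3207) (.e (nat_lit 57388) (nat_lit 5) (.e (nat_lit 114698) (nat_lit 11) (.e (nat_lit 426198) (nat_lit 9) (.e (nat_lit 426555) (nat_lit 32) (.e (nat_lit 376857) (nat_lit 21) (.e (nat_lit 57848) (nat_lit 252) .nil)))))) (.g (nat_lit 1) (.e (nat_lit 252094) (nat_lit 0) .nil) .nil)))) (.nd (nat_lit 9) 
(.lf (nat_lit 532762) (.g (nat_lit 4025) (.e (nat_lit 57379) (nat_lit 3) (.e (nat_lit 98368) (nat_lit 27) (.e (nat_lit 434248) (nat_lit 28) (.e (nat_lit 573489) (nat_lit 14) (.e (nat_lit 73755) (nat_lit 8) (.e (nat_lit 557090) (nat_lit 12) (.e (nat_lit 163844) (nat_lit 0) (.e (nat_lit 5940) (nat_lit 322) .nil)))))))) (.g (nat_lit 1) (.e (nat_lit 251690) (nat_lit 0) .nil) .nil))) 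
(.lf (nat_lit 533274) (.g (nat_lit 3487) (.e (nat_lit 57389) (nat_lit 5) (.e (nat_lit 114712) (nat_lit 21) (.e (nat_lit 57929) (nat_lit 282) (.e (nat_lit 163923) (nat_lit 15) (.e (nat_lit 450587) (nat_lit 10) (.e (nat_lit 573478) (nat_lit 12) (.e (nat_lit 57360) (nat_lit 0) (.e (nat_lit 5949) (nat_lit 322) .nil)))))))) (.g (nat_lit 1) (.e (nat_lit 252591) (nat_lit 0) .nil) .nil))))) 
(.nd (nat_lit 8) (.nd (nat_lit 9) 
(.lf (nat_lit 532634) (.g (nat_lit 3392) (.e (nat_lit 57379) (nat_lit 3) (.e (nat_lit 98366) (nat_lit 27) (.e (nat_lit 434244) (nat_lit 28) (.e (nat_lit 573487) (nat_lit 14) (.e (nat_lit 73753) (nat_lit 8) (.e (nat_lit 557091) (nat_lit 12) (.e (nat_lit 163841) (nat_lit 0) (.e (nat_lit 5940) (nat_lit 322) .nil)))))))) (.g (nat_lit 1) (.e (nat_lit 251562) (nat_lit 0) .nil) .nil))) 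
(.lf (nat_lit 533146) (.g (nat_lit 2178) (.e (nat_lit 57389) (nat_lit 5) (.e (nat_lit 114697) (nat_lit 11) (.e (nat_lit 426198) (nat_lit 9) (.e (nat_lit 426555) (nat_lit 32) (.e (nat_lit 376858) (nat_lit 21) (.e (nat_lit 57854) (nat_lit 252) .nil)))))) (.g (nat_lit 1) (.e (nat_lit 252338) (nat_lit 0) .nil) .nil)))) (.nd (nat_lit 9) 
(.lf (nat_lit 532890) (.g (nat_lit 2608) (.e (nat_lit 57388) (nat_lit 5) (.e (nat_lit 114697) (nat_lit 11) (.e (nat_lit 426198) (nat_lit 9) (.e (nat_lit 426555) (nat_lit 32) (.e (nat_lit 376859) (nat_lit 21) (.e (nat_lit 57853) (nat_lit 252) .nil)))))) (.g (nat_lit 1) (.e (nat_lit 251874) (nat_lit 0) .nil) .nil))) 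
(.lf (nat_lit 533402) (.g (nat_lit 4179) (.e (nat_lit 57406) (nat_lit 12) (.e (nat_lit 336019) (nat_lit 3) (.e (nat_lit 98372) (nat_lit 29) (.e (nat_lit 450588) (nat_lit 10) (.e (nat_lit 573475) (nat_lit 12) (.e (nat_lit 57347) (nat_lit 0) (.e (nat_lit 7261) (nat_lit 384) .nil))))))) (.g (nat_lit 1) (.e (nat_lit 252838) (nat_lit 0) .nil) .nil)))))) 
(.nd (nat_lit 7) (.nd (nat_lit 8) (.nd (nat_lit 9) 
(.lf (nat_lit 532570) (.g (nat_lit 2564) (.e (nat_lit 57379) (nat_lit 3) (.e (nat_lit 98365) (nat_lit 26) (.e (nat_lit 426325) (nat_lit 13) (.e (nat_lit 483340) (nat_lit 9) (.e (nat_lit 426100) (nat_lit 1) .nil))))) (.g (nat_lit 0) (.e (nat_lit 251498) (nat_lit 0) .nil) .nil))) 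
(.lf (nat_lit 533082) (.g (nat_lit 1968) (.e (nat_lit 57388) (nat_lit 5) (.e (nat_lit 114711) (nat_lit 21) (.e (nat_lit 57847) (nat_lit 252) (.e (nat_lit 65280) (nat_lit 66) .nil)))) (.g (nat_lit 0) (.e (nat_lit 252255) (nat_lit 0) .nil) .nil)))) (.nd (nat_lit 9) 
(.lf (nat_lit 532826) (.g (nat_lit 2171) (.e (nat_lit 57388) (nat_lit 5) (.e (nat_lit 114697) (nat_lit 11) (.e (nat_lit 426188) (nat_lit 9) (.e (nat_lit 426555) (nat_lit 32) (.e (nat_lit 376856) (nat_lit 21) .nil))))) (.g (nat_lit 0) (.e (nat_lit 251810) (nat_lit 0) .nil) .nil))) 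
(.lf (nat_lit 533338) (.g (nat_lit 2843) (.e (nat_lit 57390) (nat_lit 5) (.e (nat_lit 114716) (nat_lit 22) (.e (nat_lit 90157) (nat_lit 11) (.e (nat_lit 24648) (nat_lit 12) (.e (nat_lit 385066) (nat_lit 26) (.e (nat_lit 540416) (nat_lit 18) (.e (nat_lit 164399) (nat_lit 256) .nil))))))) (.g (nat_lit 1) (.e (nat_lit 252698) (nat_lit 0) .nil) .nil))))) (.nd (nat_lit 8) (.nd (nat_lit 9) 
(.lf (nat_lit 532698) (.g (nat_lit 5116) (.e (nat_lit 57379) (nat_lit 3) (.e (nat_lit 98366) (nat_lit 27) (.e (nat_lit 434248) (nat_lit 28) (.e (nat_lit 573489) (nat_lit 14) (.e (nat_lit 73755) (nat_lit 8) (.e (nat_lit 557090) (nat_lit 12) (.e (nat_lit 163850) (nat_lit 0) (.e (nat_lit 5939) (nat_lit 322) .nil)))))))) (.g (nat_lit 1) (.e (nat_lit 251626) (nat_lit 0) .nil) .nil))) 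
(.lf (nat_lit 533210) (.g (nat_lit 3230) (.e (nat_lit 57389) (nat_lit 5) (.e (nat_lit 114698) (nat_lit 11) (.e (nat_lit 426197) (nat_lit 9) (.e (nat_lit 426555) (nat_lit 32) (.e (nat_lit 376860) (nat_lit 21) (.e (nat_lit 57851) (nat_lit 252) .nil)))))) (.g (nat_lit 1) (.e (nat_lit 252468) (nat_lit 0) .nil) .nil)))) (.nd (nat_lit 9) 
(.lf (nat_lit 532954) (.g (nat_lit 536) (.e (nat_lit 57388) (nat_lit 5) (.e (nat_lit 114698) (nat_lit 11) (.e (nat_lit 426189) (nat_lit 9) .nil))) (.g (nat_lit 0) (.e (nat_lit 252030) (nat_lit 0) .nil) .nil))) 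
(.lf (nat_lit 533466) (.g (nat_lit 1922) (.e (nat_lit 57406) (nat_lit 12) (.e (nat_lit 336454) (nat_lit 34) (.e (nat_lit 483385) (nat_lit 23) (.e (nat_lit 336258) (nat_lit 15) (.e (nat_lit 3241) (nat_lit 197) .nil))))) (.g (nat_lit 0) (.e (nat_lit 252934) (nat_lit 0) .nil) .nil))))))) (.nd (nat_lit 6) (.nd (nat_lit 7) (.nd (nat_lit 8) (.nd (nat_lit 9) 
(.lf (nat_lit 532538) (.g (nat_lit 497) (.e (nat_lit 57379) (nat_lit 3) (.e (nat_lit 98365) (nat_lit 26) (.e (nat_lit 426190) (nat_lit 9) .nil))) (.g (nat_lit 0) (.e (nat_lit 251466) (nat_lit 0) .nil) .nil))) 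
(.lf (nat_lit 533050) (.g (nat_lit 2452) (.e (nat_lit 57388) (nat_lit 5) (.e (nat_lit 114698) (nat_lit 11) (.e (nat_lit 426200) (nat_lit 9) (.e (nat_lit 426555) (nat_lit 32) (.e (nat_lit 376856) (nat_lit 21) (.e (nat_lit 57854) (nat_lit 252) .nil)))))) (.g (nat_lit 1) (.e (nat_lit 252126) (nat_lit 0) .nil) .nil)))) (.nd (nat_lit 9) 
(.lf (nat_lit 532794) (.g (nat_lit 1846) (.e (nat_lit 57388) (nat_lit 5) (.e (nat_lit 114694) (nat_lit 11) (.e (nat_lit 426200) (nat_lit 9) (.e (nat_lit 426555) (nat_lit 32) (.e (nat_lit 376859) (nat_lit 21) .nil))))) (.g (nat_lit 0) (.e (nat_lit 251767) (nat_lit 0) .nil) .nil))) 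
(.lf (nat_lit 533306) (.g (nat_lit 2858) (.e (nat_lit 57390) (nat_lit 5) (.e (nat_lit 114697) (nat_lit 11) (.e (nat_lit 426198) (nat_lit 9) (.e (nat_lit 426555) (nat_lit 32) (.e (nat_lit 376859) (nat_lit 21) (.e (nat_lit 57846) (nat_lit 252) .nil)))))) (.g (nat_lit 1) (.e (nat_lit 252630) (nat_lit 0) .nil) .nil))))) (.nd (nat_lit 8) (.nd (nat_lit 9) 
(.lf (nat_lit 532666) (.g (nat_lit 2380) (.e (nat_lit 57379) (nat_lit 3) (.e (nat_lit 98366) (nat_lit 27) (.e (nat_lit 434245) (nat_lit 28) (.e (nat_lit 573488) (nat_lit 14) (.e (nat_lit 73755) (nat_lit 8) (.e (nat_lit 557091) (nat_lit 12) (.e (nat_lit 163841) (nat_lit 0) (.e (nat_lit 5943) (nat_lit 322) .nil)))))))) (.g (nat_lit 1) (.e (nat_lit 251594) (nat_lit 0) .nil) .nil))) 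
(.lf (nat_lit 533178) (.g (nat_lit 3479) (.e (nat_lit 57389) (nat_lit 5) (.e (nat_lit 114698) (nat_lit 11) (.e (nat_lit 426188) (nat_lit 9) (.e (nat_lit 426555) (nat_lit 32) (.e (nat_lit 376859) (nat_lit 21) (.e (nat_lit 57844) (nat_lit 252) .nil)))))) (.g (nat_lit 1) (.e (nat_lit 252436) (nat_lit 0) .nil) .nil)))) (.nd (nat_lit 9) 
(.lf (nat_lit 532922) (.g (nat_lit 2713) (.e (nat_lit 57388) (nat_lit 5) (.e (nat_lit 114697) (nat_lit 11) (.e (nat_lit 426200) (nat_lit 9) (.e (nat_lit 426555) (nat_lit 32) (.e (nat_lit 376859) (nat_lit 21) (.e (nat_lit 57848) (nat_lit 252) .nil)))))) (.g (nat_lit 1) (.e (nat_lit 251907) (nat_lit 0) .nil) .nil))) 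
(.lf (nat_lit 533434) (.g (nat_lit 2965) (.e (nat_lit 57406) (nat_lit 12) (.e (nat_lit 336316) (nat_lit 17) (.e (nat_lit 196666) (nat_lit 13) (.e (nat_lit 65610) (nat_lit 10) (.e (nat_lit 344090) (nat_lit 18) (.e (nat_lit 7695) (nat_lit 412) (.e (nat_lit 57366) (nat_lit 1) (.e (nat_lit 57851) (nat_lit 252) .nil)))))))) (.g (nat_lit 1) (.e (nat_lit 252873) (nat_lit 0) .nil) .nil)))))) 
(.nd (nat_lit 7) (.nd (nat_lit 8) (.nd (nat_lit 9) 
(.lf (nat_lit 532602) (.g (nat_lit 3441) (.e (nat_lit 57379) (nat_lit 3) (.e (nat_lit 98366) (nat_lit 27) (.e (nat_lit 434231) (nat_lit 23) (.e (nat_lit 532513) (nat_lit 3) (.e (nat_lit 114714) (nat_lit 22) (.e (nat_lit 90181) (nat_lit 16) (.e (nat_lit 229376) (nat_lit 0) (.e (nat_lit 5939) (nat_lit 322) .nil)))))))) (.g (nat_lit 1) (.e (nat_lit 251530) (nat_lit 0) .nil) .nil))) 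
(.lf (nat_lit 533114) (.g (nat_lit 2777) (.e (nat_lit 57389) (nat_lit 5) (.e (nat_lit 114697) (nat_lit 11) (.e (nat_lit 426188) (nat_lit 9) (.e (nat_lit 426555) (nat_lit 32) (.e (nat_lit 376859) (nat_lit 21) (.e (nat_lit 57851) (nat_lit 252) .nil)))))) (.g (nat_lit 1) (.e (nat_lit 252306) (nat_lit 0) .nil) .nil)))) (.nd (nat_lit 9) 
(.lf (nat_lit 532858) (.g (nat_lit 3015) (.e (nat_lit 57388) (nat_lit 5) (.e (nat_lit 114697) (nat_lit 11) (.e (nat_lit 426190) (nat_lit 9) (.e (nat_lit 426555) (nat_lit 32) (.e (nat_lit 376860) (nat_lit 21) (.e (nat_lit 57852) (nat_lit 252) .nil)))))) (.g (nat_lit 1) (.e (nat_lit 251842) (nat_lit 0) .nil) .nil))) 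
(.lf (nat_lit 533370) (.g (nat_lit 835) (.e (nat_lit 57405) (nat_lit 12) (.e (nat_lit 336324) (nat_lit 18) (.e (nat_lit 204877) (nat_lit 31) .nil))) (.g (nat_lit 0) (.e (nat_lit 252786) (nat_lit 0) .nil) .nil))))) (.nd (nat_lit 8) (.nd (nat_lit 9) 
(.lf (nat_lit 532730) (.g (nat_lit 3240) (.e (nat_lit 57379) (nat_lit 3) (.e (nat_lit 98367) (nat_lit 27) (.e (nat_lit 434245) (nat_lit 28) (.e (nat_lit 573488) (nat_lit 14) (.e (nat_lit 73755) (nat_lit 8) (.e (nat_lit 557090) (nat_lit 12) (.e (nat_lit 163850) (nat_lit 0) (.e (nat_lit 5939) (nat_lit 322) .nil)))))))) (.g (nat_lit 1) (.e (nat_lit 251658) (nat_lit 0) .nil) .nil))) 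
(.lf (nat_lit 533242) (.g (nat_lit 3117) (.e (nat_lit 57389) (nat_lit 5) (.e (nat_lit 114698) (nat_lit 11) (.e (nat_lit 426199) (nat_lit 9) (.e (nat_lit 426555) (nat_lit 32) (.e (nat_lit 376859) (nat_lit 21) (.e (nat_lit 57846) (nat_lit 252) .nil)))))) (.g (nat_lit 1) (.e (nat_lit 252500) (nat_lit 0) .nil) .nil)))) (.nd (nat_lit 9) 
(.lf (nat_lit 532986) (.g (nat_lit 3551) (.e (nat_lit 57388) (nat_lit 5) (.e (nat_lit 114698) (nat_lit 11) (.e (nat_lit 426197) (nat_lit 9) (.e (nat_lit 426555) (nat_lit 32) (.e (nat_lit 376857) (nat_lit 21) (.e (nat_lit 57852) (nat_lit 252) .nil)))))) (.g (nat_lit 1) (.e (nat_lit 252062) (nat_lit 0) .nil) .nil))) 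
(.lf (nat_lit 533498) (.g (nat_lit 2773) (.e (nat_lit 57406) (nat_lit 12) (.e (nat_lit 336456) (nat_lit 34) (.e (nat_lit 483391) (nat_lit 23) (.e (nat_lit 336323) (nat_lit 18) (.e (nat_lit 204830) (nat_lit 18) (.e (nat_lit 57854) (nat_lit 252) .nil)))))) (.g (nat_lit 1) (.e (nat_lit 252966) (nat_lit 0) .nil) .nil)))))))))) 
(.nd (nat_lit 3) (.nd (nat_lit 4) (.nd (nat_lit 5) (.nd (nat_lit 6) (.nd (nat_lit 7) 
(.nd (nat_lit 8) (.nd (nat_lit 9) 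
(.lf (nat_lit 532486) (.g (nat_lit 3637) (.e (nat_lit 57379) (nat_lit 3) (.e (nat_lit 98342) (nat_lit 20) (.e (nat_lit 221212) (nat_lit 22) (.e (nat_lit 196681) (nat_lit 17) (.e (nat_lit 131098) (nat_lit 3) (.e (nat_lit 98333) (nat_lit 18) (.e (nat_lit 164179) (nat_lit 154) .nil))))))) (.g (nat_lit 1) (.e (nat_lit 251414) (nat_lit 0) .nil) .nil))) 
(.lf (nat_lit 532998) (.g (nat_lit 2445) (.e (nat_lit 57388) (nat_lit 5) (.e (nat_lit 114698) (nat_lit 11) (.e (nat_lit 426197) (nat_lit 9) (.e (nat_lit 426556) (nat_lit 32) (.e (nat_lit 376859) (nat_lit 21) (.e (nat_lit 57848) (nat_lit 252) .nil)))))) (.g (nat_lit 1) (.e (nat_lit 252074) (nat_lit 0) .nil) .nil)))) (.nd (nat_lit 9) 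
(.lf (nat_lit 532742) (.g (nat_lit 2595) (.e (nat_lit 57379) (nat_lit 3) (.e (nat_lit 98367) (nat_lit 27) (.e (nat_lit 434247) (nat_lit 28) (.e (nat_lit 573489) (nat_lit 14) (.e (nat_lit 73755) (nat_lit 8) (.e (nat_lit 557091) (nat_lit 12) (.e (nat_lit 171776) (nat_lit 0) (.e (nat_lit 5937) (nat_lit 322) .nil)))))))) (.g (nat_lit 1) (.e (nat_lit 251670) (nat_lit 0) .nil) .nil))) 
(.lf (nat_lit 533254) (.g (nat_lit 3504) (.e (nat_lit 57389) (nat_lit 5) (.e (nat_lit 114698) (nat_lit 11) (.e (nat_lit 426200) (nat_lit 9) (.e (nat_lit 426555) (nat_lit 32) (.e (nat_lit 376859) (nat_lit 21) (.e (nat_lit 57846) (nat_lit 252) .nil)))))) (.g (nat_lit 1) (.e (nat_lit 252512) (nat_lit 0) .nil) .nil))))) (.nd (nat_lit 8) (.nd (nat_lit 9) 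
(.lf (nat_lit 532614) (.g (nat_lit 2598) (.e (nat_lit 57379) (nat_lit 3) (.e (nat_lit 98366) (nat_lit 27) (.e (nat_lit 434231) (nat_lit 23) (.e (nat_lit 532579) (nat_lit 26) (.e (nat_lit 426123) (nat_lit 2) (.e (nat_lit 196661) (nat_lit 12) (.e (nat_lit 57344) (nat_lit 0) (.e (nat_lit 7695) (nat_lit 412) .nil)))))))) (.g (nat_lit 1) (.e (nat_lit 251542) (nat_lit 0) .nil) .nil))) 
(.lf (nat_lit 533126) (.g (nat_lit 2801) (.e (nat_lit 57389) (nat_lit 5) (.e (nat_lit 114697) (nat_lit 11) (.e (nat_lit 426190) (nat_lit 9) (.e (nat_lit 426555) (nat_lit 32) (.e (nat_lit 376859) (nat_lit 21) (.e (nat_lit 57846) (nat_lit 252) .nil)))))) (.g (nat_lit 1) (.e (nat_lit 252318) (nat_lit 0) .nil) .nil)))) (.nd (nat_lit 9) 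
(.lf (nat_lit 532870) (.g (nat_lit 2643) (.e (nat_lit 57388) (nat_lit 5) (.e (nat_lit 114697) (nat_lit 11) (.e (nat_lit 426198) (nat_lit 9) (.e (nat_lit 426542) (nat_lit 29) (.e (nat_lit 352307) (nat_lit 21) (.e (nat_lit 57844) (nat_lit 252) .nil)))))) (.g (nat_lit 1) (.e (nat_lit 251854) (nat_lit 0) .nil) .nil))) 
(.lf (nat_lit 533382) (.g (nat_lit 2587) (.e (nat_lit 57406) (nat_lit 12) (.e (nat_lit 336018) (nat_lit 3) (.e (nat_lit 98372) (nat_lit 29) (.e (nat_lit 450586) (nat_lit 10) (.e (nat_lit 573477) (nat_lit 12) (.e (nat_lit 57353) (nat_lit 0) (.e (nat_lit 7265) (nat_lit 384) .nil))))))) (.g (nat_lit 1) (.e (nat_lit 252818) (nat_lit 0) .nil) .nil)))))) 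
(.nd (nat_lit 7) (.nd (nat_lit 8) (.nd (nat_lit 9) 
(.lf (nat_lit 532550) (.g (nat_lit 2194) (.e (nat_lit 57379) (nat_lit 3) (.e (nat_lit 98365) (nat_lit 26) (.e (nat_lit 426325) (nat_lit 13) (.e (nat_lit 483337) (nat_lit 9) (.e (nat_lit 426030) (nat_lit 0) (.e (nat_lit 2470) (nat_lit 157) (.e (nat_lit 5935) (nat_lit 322) .nil))))))) (.g (nat_lit 1) (.e (nat_lit 251478) (nat_lit 0) .nil) .nil))) 
(.lf (nat_lit 533062) (.g (nat_lit 3604) (.e (nat_lit 57388) (nat_lit 5) (.e (nat_lit 114698) (nat_lit 11) (.e (nat_lit 426200) (nat_lit 9) (.e (nat_lit 426555) (nat_lit 32) (.e (nat_lit 376859) (nat_lit 21) (.e (nat_lit 57853) (nat_lit 252) .nil)))))) (.g (nat_lit 1) (.e (nat_lit 252138) (nat_lit 0) .nil) .nil)))) (.nd (nat_lit 9) 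
(.lf (nat_lit 532806) (.g (nat_lit 1619) (.e (nat_lit 57388) (nat_lit 5) (.e (nat_lit 114696) (nat_lit 11) (.e (nat_lit 426232) (nat_lit 9) (.e (nat_lit 426554) (nat_lit 32) (.e (nat_lit 376857) (nat_lit 21) (.e (nat_lit 57848) (nat_lit 252) .nil)))))) (.g (nat_lit 1) (.e (nat_lit 251790) (nat_lit 0) .nil) .nil))) 
(.lf (nat_lit 533318) (.g (nat_lit 1875) (.e (nat_lit 57390) (nat_lit 5) (.e (nat_lit 114697) (nat_lit 11) (.e (nat_lit 426200) (nat_lit 9) (.e (nat_lit 426555) (nat_lit 32) (.e (nat_lit 376859) (nat_lit 21) (.e (nat_lit 57848) (nat_lit 252) .nil)))))) (.g (nat_lit 1) (.e (nat_lit 252642) (nat_lit 0) .nil) .nil))))) (.nd (nat_lit 8) (.nd (nat_lit 9) 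
(.lf (nat_lit 532678) (.g (nat_lit 2549) (.e (nat_lit 57379) (nat_lit 3) (.e (nat_lit 98366) (nat_lit 27) (.e (nat_lit 434247) (nat_lit 28) (.e (nat_lit 573489) (nat_lit 14) (.e (nat_lit 73755) (nat_lit 8) (.e (nat_lit 557091) (nat_lit 12) (.e (nat_lit 171776) (nat_lit 0) (.e (nat_lit 5937) (nat_lit 322) .nil)))))))) (.g (nat_lit 1) (.e (nat_lit 251606) (nat_lit 0) .nil) .nil))) 
(.lf (nat_lit 533190) (.g (nat_lit 3050) (.e (nat_lit 57389) (nat_lit 5) (.e (nat_lit 114698) (nat_lit 11) (.e (nat_lit 426190) (nat_lit 9) (.e (nat_lit 426555) (nat_lit 32) (.e (nat_lit 376857) (nat_lit 21) (.e (nat_lit 57851) (nat_lit 252) .nil)))))) (.g (nat_lit 1) (.e (nat_lit 252448) (nat_lit 0) .nil) .nil)))) (.nd (nat_lit 9) 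
(.lf (nat_lit 532934) (.g (nat_lit 437) (.e (nat_lit 57388) (nat_lit 5) (.e (nat_lit 114698) (nat_lit 11) (.e (nat_lit 426188) (nat_lit 9) .nil))) (.g (nat_lit 0) (.e (nat_lit 252010) (nat_lit 0) .nil) .nil))) 
(.lf (nat_lit 533446) (.g (nat_lit 4413) (.e (nat_lit 57406) (nat_lit 12) (.e (nat_lit 336324) (nat_lit 18) (.e (nat_lit 204831) (nat_lit 18) (.e (nat_lit 57849) (nat_lit 252) .nil)))) (.g (nat_lit 0) (.e (nat_lit 252895) (nat_lit 0) .nil) .nil))))))) (.nd (nat_lit 6) (.nd (nat_lit 7) (.nd (nat_lit 8) (.nd (nat_lit 9) 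
(.lf (nat_lit 532518) (.g (nat_lit 1098) (.e (nat_lit 57379) (nat_lit 3) (.e (nat_lit 98358) (nat_lit 26) (.e (nat_lit 426323) (nat_lit 13) .nil))) (.g (nat_lit 0) (.e (nat_lit 251446) (nat_lit 0) .nil) .nil))) 
(.lf (nat_lit 533030) (.g (nat_lit 3269) (.e (nat_lit 57388) (nat_lit 5) (.e (nat_lit 114698) (nat_lit 11) (.e (nat_lit 426198) (nat_lit 9) (.e (nat_lit 426555) (nat_lit 32) (.e (nat_lit 376860) (nat_lit 21) (.e (nat_lit 57851) (nat_lit 252) .nil)))))) (.g (nat_lit 1) (.e (nat_lit 252106) (nat_lit 0) .nil) .nil)))) (.nd (nat_lit 9) 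
(.lf (nat_lit 532774) (.g (nat_lit 2405) (.e (nat_lit 57382) (nat_lit 4) (.e (nat_lit 106536) (nat_lit 11) (.e (nat_lit 16412) (nat_lit 2) (.e (nat_lit 196672) (nat_lit 15) .nil)))) (.g (nat_lit 0) (.e (nat_lit 251721) (nat_lit 0) .nil) .nil))) 
(.lf (nat_lit 533286) (.g (nat_lit 2536) (.e (nat_lit 57390) (nat_lit 5) (.e (nat_lit 114694) (nat_lit 11) (.e (nat_lit 426200) (nat_lit 9) (.e (nat_lit 426555) (nat_lit 32) (.e (nat_lit 376859) (nat_lit 21) (.e (nat_lit 57847) (nat_lit 252) .nil)))))) (.g (nat_lit 1) (.e (nat_lit 252605) (nat_lit 0) .nil) .nil))))) (.nd (nat_lit 8) (.nd (nat_lit 9) 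
(.lf (nat_lit 532646) (.g (nat_lit 2832) (.e (nat_lit 57379) (nat_lit 3) (.e (nat_lit 98366) (nat_lit 27) (.e (nat_lit 434244) (nat_lit 28) (.e (nat_lit 573488) (nat_lit 14) (.e (nat_lit 73755) (nat_lit 8) (.e (nat_lit 557090) (nat_lit 12) (.e (nat_lit 163844) (nat_lit 0) (.e (nat_lit 5942) (nat_lit 322) .nil)))))))) (.g (nat_lit 1) (.e (nat_lit 251574) (nat_lit 0) .nil) .nil))) 
(.lf (nat_lit 533158) (.g (nat_lit 2654) (.e (nat_lit 57389) (nat_lit 5) (.e (nat_lit 114697) (nat_lit 11) (.e (nat_lit 426199) (nat_lit 9) (.e (nat_lit 426555) (nat_lit 32) (.e (nat_lit 376859) (nat_lit 21) (.e (nat_lit 57851) (nat_lit 252) .nil)))))) (.g (nat_lit 1) (.e (nat_lit 252350) (nat_lit 0) .nil) .nil)))) (.nd (nat_lit 9) 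
(.lf (nat_lit 532902) (.g (nat_lit 2697) (.e (nat_lit 57388) (nat_lit 5) (.e (nat_lit 114697) (nat_lit 11) (.e (nat_lit 426199) (nat_lit 9) (.e (nat_lit 426555) (nat_lit 32) (.e (nat_lit 376857) (nat_lit 21) (.e (nat_lit 57852) (nat_lit 252) .nil)))))) (.g (nat_lit 1) (.e (nat_lit 251887) (nat_lit 0) .nil) .nil))) 
(.lf (nat_lit 533414) (.g (nat_lit 5160) (.e (nat_lit 57406) (nat_lit 12) (.e (nat_lit 336019) (nat_lit 3) (.e (nat_lit 98373) (nat_lit 29) (.e (nat_lit 450588) (nat_lit 10) (.e (nat_lit 573473) (nat_lit 12) (.e (nat_lit 57352) (nat_lit 0) (.e (nat_lit 7261) (nat_lit 384) .nil))))))) (.g (nat_lit 1) (.e (nat_lit 252850) (nat_lit 0) .nil) .nil)))))) 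
(.nd (nat_lit 7) (.nd (nat_lit 8) (.nd (nat_lit 9) 
(.lf (nat_lit 532582) (.g (nat_lit 2651) (.e (nat_lit 57379) (nat_lit 3) (.e (nat_lit 98365) (nat_lit 26) (.e (nat_lit 426325) (nat_lit 13) (.e (nat_lit 483341) (nat_lit 9) (.e (nat_lit 426029) (nat_lit 0) (.e (nat_lit 2456) (nat_lit 157) (.e (nat_lit 5939) (nat_lit 322) .nil))))))) (.g (nat_lit 1) (.e (nat_lit 251510) (nat_lit 0) .nil) .nil))) 
(.lf (nat_lit 533094) (.g (nat_lit 3255) (.e (nat_lit 57389) (nat_lit 5) (.e (nat_lit 114694) (nat_lit 11) (.e (nat_lit 426200) (nat_lit 9) (.e (nat_lit 426555) (nat_lit 32) (.e (nat_lit 376857) (nat_lit 21) (.e (nat_lit 57854) (nat_lit 252) .nil)))))) (.g (nat_lit 1) (.e (nat_lit 252274) (nat_lit 0) .nil) .nil)))) (.nd (nat_lit 9) 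
(.lf (nat_lit 532838) (.g (nat_lit 2589) (.e (nat_lit 57388) (nat_lit 5) (.e (nat_lit 114697) (nat_lit 11) (.e (nat_lit 426188) (nat_lit 9) (.e (nat_lit 426555) (nat_lit 32) (.e (nat_lit 376859) (nat_lit 21) (.e (nat_lit 57848) (nat_lit 252) .nil)))))) (.g (nat_lit 1) (.e (nat_lit 251822) (nat_lit 0) .nil) .nil))) 
(.lf (nat_lit 533350) (.g (nat_lit 2542) (.e (nat_lit 57400) (nat_lit 10) (.e (nat_lit 319490) (nat_lit 0) (.e (nat_lit 5664) (nat_lit 312) (.e (nat_lit 3085) (nat_lit 191) (.e (nat_lit 483379) (nat_lit 23) (.e (nat_lit 336029) (nat_lit 4) (.e (nat_lit 123198) (nat_lit 266) .nil))))))) (.g (nat_lit 1) (.e (nat_lit 252718) (nat_lit 0) .nil) .nil))))) (.nd (nat_lit 8) (.nd (nat_lit 9) 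
(.lf (nat_lit 532710) (.g (nat_lit 2709) (.e (nat_lit 57379) (nat_lit 3) (.e (nat_lit 98367) (nat_lit 27) (.e (nat_lit 434231) (nat_lit 23) (.e (nat_lit 532513) (nat_lit 3) (.e (nat_lit 114714) (nat_lit 22) (.e (nat_lit 90181) (nat_lit 16) (.e (nat_lit 229376) (nat_lit 0) (.e (nat_lit 5939) (nat_lit 322) .nil)))))))) (.g (nat_lit 1) (.e (nat_lit 251638) (nat_lit 0) .nil) .nil))) 
(.lf (nat_lit 533222) (.g (nat_lit 3114) (.e (nat_lit 57389) (nat_lit 5) (.e (nat_lit 114698) (nat_lit 11) (.e (nat_lit 426198) (nat_lit 9) (.e (nat_lit 426555) (nat_lit 32) (.e (nat_lit 376857) (nat_lit 21) (.e (nat_lit 57844) (nat_lit 252) .nil)))))) (.g (nat_lit 1) (.e (nat_lit 252480) (nat_lit 0) .nil) .nil)))) (.nd (nat_lit 9) 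
(.lf (nat_lit 532966) (.g (nat_lit 2795) (.e (nat_lit 57388) (nat_lit 5) (.e (nat_lit 114698) (nat_lit 11) (.e (nat_lit 426190) (nat_lit 9) (.e (nat_lit 426555) (nat_lit 32) (.e (nat_lit 376859) (nat_lit 21) (.e (nat_lit 57851) (nat_lit 252) .nil)))))) (.g (nat_lit 1) (.e (nat_lit 252042) (nat_lit 0) .nil) .nil))) 
(.lf (nat_lit 533478) (.g (nat_lit 4200) (.e (nat_lit 57406) (nat_lit 12) (.e (nat_lit 336456) (nat_lit 34) (.e (nat_lit 483379) (nat_lit 23) (.e (nat_lit 336324) (nat_lit 18) (.e (nat_lit 204831) (nat_lit 18) (.e (nat_lit 57853) (nat_lit 252) .nil)))))) (.g (nat_lit 1) (.e (nat_lit 252946) (nat_lit 0) .nil) .nil)))))))) 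
(.nd (nat_lit 5) (.nd (nat_lit 6) (.nd (nat_lit 7) (.nd (nat_lit 8) (.nd (nat_lit 9) 
(.lf (nat_lit 532502) (.g (nat_lit 4439) (.e (nat_lit 57379) (nat_lit 3) (.e (nat_lit 98342) (nat_lit 20) (.e (nat_lit 221215) (nat_lit 23) (.e (nat_lit 204861) (nat_lit 26) (.e (nat_lit 336027) (nat_lit 3) (.e (nat_lit 98333) (nat_lit 18) (.e (nat_lit 164183) (nat_lit 154) .nil))))))) (.g (nat_lit 1) (.e (nat_lit 251430) (nat_lit 0) .nil) .nil))) 
(.lf (nat_lit 533014) (.g (nat_lit 1940) (.e (nat_lit 57388) (nat_lit 5) (.e (nat_lit 114698) (nat_lit 11) (.e (nat_lit 426198) (nat_lit 9) (.e (nat_lit 426555) (nat_lit 32) (.e (nat_lit 376856) (nat_lit 21) (.e (nat_lit 57851) (nat_lit 252) .nil)))))) (.g (nat_lit 1) (.e (nat_lit 252090) (nat_lit 0) .nil) .nil)))) (.nd (nat_lit 9) 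
(.lf (nat_lit 532758) (.g (nat_lit 4355) (.e (nat_lit 57379) (nat_lit 3) (.e (nat_lit 98368) (nat_lit 27) (.e (nat_lit 434247) (nat_lit 28) (.e (nat_lit 573489) (nat_lit 14) (.e (nat_lit 73755) (nat_lit 8) (.e (nat_lit 557090) (nat_lit 12) (.e (nat_lit 163850) (nat_lit 0) (.e (nat_lit 5939) (nat_lit 322) .nil)))))))) (.g (nat_lit 1) (.e (nat_lit 251686) (nat_lit 0) .nil) .nil))) 
(.lf (nat_lit 533270) (.g (nat_lit 2061) (.e (nat_lit 57389) (nat_lit 5) (.e (nat_lit 114711) (nat_lit 21) (.e (nat_lit 57847) (nat_lit 252) (.e (nat_lit 65280) (nat_lit 66) .nil)))) (.g (nat_lit 0) (.e (nat_lit 252582) (nat_lit 0) .nil) .nil))))) (.nd (nat_lit 8) (.nd (nat_lit 9) 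
(.lf (nat_lit 532630) (.g (nat_lit 2996) (.e (nat_lit 57379) (nat_lit 3) (.e (nat_lit 98366) (nat_lit 27) (.e (nat_lit 434244) (nat_lit 28) (.e (nat_lit 573487) (nat_lit 14) (.e (nat_lit 73753) (nat_lit 8) (.e (nat_lit 557090) (nat_lit 12) (.e (nat_lit 163851) (nat_lit 0) (.e (nat_lit 5939) (nat_lit 322) .nil)))))))) (.g (nat_lit 1) (.e (nat_lit 251558) (nat_lit 0) .nil) .nil))) 
(.lf (nat_lit 533142) (.g (nat_lit 1748) (.e (nat_lit 57389) (nat_lit 5) (.e (nat_lit 114697) (nat_lit 11) (.e (nat_lit 426198) (nat_lit 9) (.e (nat_lit 426555) (nat_lit 32) (.e (nat_lit 376856) (nat_lit 21) (.e (nat_lit 57851) (nat_lit 252) .nil)))))) (.g (nat_lit 1) (.e (nat_lit 252334) (nat_lit 0) .nil) .nil)))) (.nd (nat_lit 9) 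
(.lf (nat_lit 532886) (.g (nat_lit 3004) (.e (nat_lit 57388) (nat_lit 5) (.e (nat_lit 114697) (nat_lit 11) (.e (nat_lit 426198) (nat_lit 9) (.e (nat_lit 426555) (nat_lit 32) (.e (nat_lit 376859) (nat_lit 21) (.e (nat_lit 57846) (nat_lit 252) .nil)))))) (.g (nat_lit 1) (.e (nat_lit 251870) (nat_lit 0) .nil) .nil))) 
(.lf (nat_lit 533398) (.g (nat_lit 3781) (.e (nat_lit 57406) (nat_lit 12) (.e (nat_lit 336019) (nat_lit 3) (.e (nat_lit 98372) (nat_lit 29) (.e (nat_lit 450586) (nat_lit 10) (.e (nat_lit 573475) (nat_lit 12) (.e (nat_lit 57348) (nat_lit 0) (.e (nat_lit 7265) (nat_lit 384) .nil))))))) (.g (nat_lit 1) (.e (nat_lit 252834) (nat_lit 0) .nil) .nil)))))) 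
(.nd (nat_lit 7) (.nd (nat_lit 8) (.nd (nat_lit 9) 
(.lf (nat_lit 532566) (.g (nat_lit 3792) (.e (nat_lit 57379) (nat_lit 3) (.e (nat_lit 98365) (nat_lit 26) (.e (nat_lit 426325) (nat_lit 13) (.e (nat_lit 483337) (nat_lit 9) (.e (nat_lit 426107) (nat_lit 1) (.e (nat_lit 164396) (nat_lit 256) .nil)))))) (.g (nat_lit 1) (.e (nat_lit 251494) (nat_lit 0) .nil) .nil))) 
(.lf (nat_lit 533078) (.g (nat_lit 2949) (.e (nat_lit 57388) (nat_lit 5) (.e (nat_lit 114698) (nat_lit 11) (.e (nat_lit 426334) (nat_lit 13) (.e (nat_lit 483393) (nat_lit 23) (.e (nat_lit 335988) (nat_lit 1) (.e (nat_lit 57852) (nat_lit 252) .nil)))))) (.g (nat_lit 1) (.e (nat_lit 252222) (nat_lit 0) .nil) .nil)))) (.nd (nat_lit 9) 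
(.lf (nat_lit 532822) (.g (nat_lit 1818) (.e (nat_lit 57388) (nat_lit 5) (.e (nat_lit 114696) (nat_lit 11) (.e (nat_lit 426262) (nat_lit 9) (.e (nat_lit 426554) (nat_lit 32) (.e (nat_lit 376857) (nat_lit 21) (.e (nat_lit 57847) (nat_lit 252) .nil)))))) (.g (nat_lit 1) (.e (nat_lit 251806) (nat_lit 0) .nil) .nil))) 
(.lf (nat_lit 533334) (.g (nat_lit 3164) (.e (nat_lit 57390) (nat_lit 5) (.e (nat_lit 114698) (nat_lit 11) (.e (nat_lit 426200) (nat_lit 9) (.e (nat_lit 426555) (nat_lit 32) (.e (nat_lit 376859) (nat_lit 21) (.e (nat_lit 57846) (nat_lit 252) .nil)))))) (.g (nat_lit 1) (.e (nat_lit 252672) (nat_lit 0) .nil) .nil))))) (.nd (nat_lit 8) (.nd (nat_lit 9) 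
(.lf (nat_lit 532694) (.g (nat_lit 4838) (.e (nat_lit 57379) (nat_lit 3) (.e (nat_lit 98366) (nat_lit 27) (.e (nat_lit 434248) (nat_lit 28) (.e (nat_lit 573489) (nat_lit 14) (.e (nat_lit 73755) (nat_lit 8) (.e (nat_lit 557090) (nat_lit 12) (.e (nat_lit 163844) (nat_lit 0) (.e (nat_lit 5940) (nat_lit 322) .nil)))))))) (.g (nat_lit 1) (.e (nat_lit 251622) (nat_lit 0) .nil) .nil))) 
(.lf (nat_lit 533206) (.g (nat_lit 3247) (.e (nat_lit 57389) (nat_lit 5) (.e (nat_lit 114698) (nat_lit 11) (.e (nat_lit 426197) (nat_lit 9) (.e (nat_lit 426555) (nat_lit 32) (.e (nat_lit 376857) (nat_lit 21) (.e (nat_lit 57851) (nat_lit 252) .nil)))))) (.g (nat_lit 1) (.e (nat_lit 252464) (nat_lit 0) .nil) .nil)))) (.nd (nat_lit 9) 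
(.lf (nat_lit 532950) (.g (nat_lit 3200) (.e (nat_lit 57388) (nat_lit 5) (.e (nat_lit 114698) (nat_lit 11) (.e (nat_lit 426188) (nat_lit 9) (.e (nat_lit 426555) (nat_lit 32) (.e (nat_lit 376859) (nat_lit 21) (.e (nat_lit 57853) (nat_lit 252) .nil)))))) (.g (nat_lit 1) (.e (nat_lit 252026) (nat_lit 0) .nil) .nil))) 
(.lf (nat_lit 533462) (.g (nat_lit 1213) (.e (nat_lit 57406) (nat_lit 12) (.e (nat_lit 336454) (nat_lit 34) (.e (nat_lit 483383) (nat_lit 23) (.e (nat_lit 336240) (nat_lit 15) .nil)))) (.g (nat_lit 0) (.e (nat_lit 252930) (nat_lit 0) .nil) .nil))))))) (.nd (nat_lit 6) (.nd (nat_lit 7) (.nd (nat_lit 8) (.nd (nat_lit 9) 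
(.lf (nat_lit 532534) (.g (nat_lit 1874) (.e (nat_lit 57379) (nat_lit 3) (.e (nat_lit 98365) (nat_lit 26) (.e (nat_lit 426188) (nat_lit 9) (.e (nat_lit 426566) (nat_lit 34) (.e (nat_lit 401152) (nat_lit 18) (.e (nat_lit 164399) (nat_lit 256) .nil)))))) (.g (nat_lit 1) (.e (nat_lit 251462) (nat_lit 0) .nil) .nil))) 
(.lf (nat_lit 533046) (.g (nat_lit 3369) (.e (nat_lit 57388) (nat_lit 5) (.e (nat_lit 114698) (nat_lit 11) (.e (nat_lit 426199) (nat_lit 9) (.e (nat_lit 426555) (nat_lit 32) (.e (nat_lit 376859) (nat_lit 21) (.e (nat_lit 57854) (nat_lit 252) .nil)))))) (.g (nat_lit 1) (.e (nat_lit 252122) (nat_lit 0) .nil) .nil)))) (.nd (nat_lit 9) 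
(.lf (nat_lit 532790) (.g (nat_lit 821) (.e (nat_lit 57387) (nat_lit 5) (.e (nat_lit 114698) (nat_lit 11) (.e (nat_lit 426188) (nat_lit 9) .nil))) (.g (nat_lit 0) (.e (nat_lit 251761) (nat_lit 0) .nil) .nil))) 
(.lf (nat_lit 533302) (.g (nat_lit 2058) (.e (nat_lit 57390) (nat_lit 5) (.e (nat_lit 114697) (nat_lit 11) (.e (nat_lit 426198) (nat_lit 9) (.e (nat_lit 426542) (nat_lit 29) (.e (nat_lit 352307) (nat_lit 21) (.e (nat_lit 57848) (nat_lit 252) .nil)))))) (.g (nat_lit 1) (.e (nat_lit 252626) (nat_lit 0) .nil) .nil))))) (.nd (nat_lit 8) (.nd (nat_lit 9) 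
(.lf (nat_lit 532662) (.g (nat_lit 2992) (.e (nat_lit 57379) (nat_lit 3) (.e (nat_lit 98366) (nat_lit 27) (.e (nat_lit 434245) (nat_lit 28) (.e (nat_lit 573488) (nat_lit 14) (.e (nat_lit 73755) (nat_lit 8) (.e (nat_lit 557090) (nat_lit 12) (.e (nat_lit 163840) (nat_lit 0) (.e (nat_lit 5939) (nat_lit 322) .nil)))))))) (.g (nat_lit 1) (.e (nat_lit 251590) (nat_lit 0) .nil) .nil))) 
(.lf (nat_lit 533174) (.g (nat_lit 2982) (.e (nat_lit 57389) (nat_lit 5) (.e (nat_lit 114698) (nat_lit 11) (.e (nat_lit 426188) (nat_lit 9) (.e (nat_lit 426555) (nat_lit 32) (.e (nat_lit 376857) (nat_lit 21) (.e (nat_lit 57847) (nat_lit 252) .nil)))))) (.g (nat_lit 1) (.e (nat_lit 252432) (nat_lit 0) .nil) .nil)))) (.nd (nat_lit 9) 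
(.lf (nat_lit 532918) (.g (nat_lit 3337) (.e (nat_lit 57388) (nat_lit 5) (.e (nat_lit 114697) (nat_lit 11) (.e (nat_lit 426200) (nat_lit 9) (.e (nat_lit 426555) (nat_lit 32) (.e (nat_lit 376857) (nat_lit 21) (.e (nat_lit 57854) (nat_lit 252) .nil)))))) (.g (nat_lit 1) (.e (nat_lit 251903) (nat_lit 0) .nil) .nil))) 
(.lf (nat_lit 533430) (.g (nat_lit 3463) (.e (nat_lit 57406) (nat_lit 12) (.e (nat_lit 336316) (nat_lit 17) (.e (nat_lit 196666) (nat_lit 13) (.e (nat_lit 65610) (nat_lit 10) (.e (nat_lit 344088) (nat_lit 18) (.e (nat_lit 7695) (nat_lit 412) (.e (nat_lit 57366) (nat_lit 1) (.e (nat_lit 57852) (nat_lit 252) .nil)))))))) (.g (nat_lit 1) (.e (nat_lit 252869) (nat_lit 0) .nil) .nil)))))) 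
(.nd (nat_lit 7) (.nd (nat_lit 8) (.nd (nat_lit 9) 
(.lf (nat_lit 532598) (.g (nat_lit 2949) (.e (nat_lit 57379) (nat_lit 3) (.e (nat_lit 98366) (nat_lit 27) (.e (nat_lit 434231) (nat_lit 23) (.e (nat_lit 532513) (nat_lit 3) (.e (nat_lit 114714) (nat_lit 22) (.e (nat_lit 90165) (nat_lit 12) (.e (nat_lit 171776) (nat_lit 0) (.e (nat_lit 5937) (nat_lit 322) .nil)))))))) (.g (nat_lit 1) (.e (nat_lit 251526) (nat_lit 0) .nil) .nil))) 
(.lf (nat_lit 533110) (.g (nat_lit 3133) (.e (nat_lit 57389) (nat_lit 5) (.e (nat_lit 114697) (nat_lit 11) (.e (nat_lit 426188) (nat_lit 9) (.e (nat_lit 426555) (nat_lit 32) (.e (nat_lit 376857) (nat_lit 21) (.e (nat_lit 57851) (nat_lit 252) .nil)))))) (.g (nat_lit 1) (.e (nat_lit 252302) (nat_lit 0) .nil) .nil)))) (.nd (nat_lit 9) 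
(.lf (nat_lit 532854) (.g (nat_lit 2911) (.e (nat_lit 57388) (nat_lit 5) (.e (nat_lit 114697) (nat_lit 11) (.e (nat_lit 426190) (nat_lit 9) (.e (nat_lit 426555) (nat_lit 32) (.e (nat_lit 376859) (nat_lit 21) (.e (nat_lit 57846) (nat_lit 252) .nil)))))) (.g (nat_lit 1) (.e (nat_lit 251838) (nat_lit 0) .nil) .nil))) 
(.lf (nat_lit 533366) (.g (nat_lit 4583) (.e (nat_lit 57405) (nat_lit 12) (.e (nat_lit 336019) (nat_lit 3) (.e (nat_lit 98373) (nat_lit 29) (.e (nat_lit 450587) (nat_lit 10) (.e (nat_lit 573477) (nat_lit 12) .nil))))) (.g (nat_lit 0) (.e (nat_lit 252779) (nat_lit 0) .nil) .nil))))) (.nd (nat_lit 8) (.nd (nat_lit 9) 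
(.lf (nat_lit 532726) (.g (nat_lit 3057) (.e (nat_lit 57379) (nat_lit 3) (.e (nat_lit 98367) (nat_lit 27) (.e (nat_lit 434244) (nat_lit 28) (.e (nat_lit 573488) (nat_lit 14) (.e (nat_lit 73755) (nat_lit 8) (.e (nat_lit 557111) (nat_lit 16) (.e (nat_lit 229379) (nat_lit 0) (.e (nat_lit 5939) (nat_lit 322) .nil)))))))) (.g (nat_lit 1) (.e (nat_lit 251654) (nat_lit 0) .nil) .nil))) 
(.lf (nat_lit 533238) (.g (nat_lit 3309) (.e (nat_lit 57389) (nat_lit 5) (.e (nat_lit 114698) (nat_lit 11) (.e (nat_lit 426199) (nat_lit 9) (.e (nat_lit 426555) (nat_lit 32) (.e (nat_lit 376857) (nat_lit 21) (.e (nat_lit 57846) (nat_lit 252) .nil)))))) (.g (nat_lit 1) (.e (nat_lit 252496) (nat_lit 0) .nil) .nil)))) (.nd (nat_lit 9) 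
(.lf (nat_lit 532982) (.g (nat_lit 3769) (.e (nat_lit 57388) (nat_lit 5) (.e (nat_lit 114698) (nat_lit 11) (.e (nat_lit 426197) (nat_lit 9) (.e (nat_lit 426555) (nat_lit 32) (.e (nat_lit 376857) (nat_lit 21) (.e (nat_lit 57846) (nat_lit 252) .nil)))))) (.g (nat_lit 1) (.e (nat_lit 252058) (nat_lit 0) .nil) .nil))) 
(.lf (nat_lit 533494) (.g (nat_lit 1744) (.e (nat_lit 57406) (nat_lit 12) (.e (nat_lit 336456) (nat_lit 34) (.e (nat_lit 483383) (nat_lit 23) (.e (nat_lit 343808) (nat_lit 18) .nil)))) (.g (nat_lit 0) (.e (nat_lit 252962) (nat_lit 0) .nil) .nil))))))))) (.nd (nat_lit 4) (.nd (nat_lit 5) (.nd (nat_lit 6) (.nd (nat_lit 7) (.nd (nat_lit 8) (.nd (nat_lit 9) 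
(.lf (nat_lit 532494) (.g (nat_lit 4506) (.e (nat_lit 57379) (nat_lit 3) (.e (nat_lit 98342) (nat_lit 20) (.e (nat_lit 221215) (nat_lit 23) (.e (nat_lit 204861) (nat_lit 26) (.e (nat_lit 336021) (nat_lit 3) (.e (nat_lit 98333) (nat_lit 18) (.e (nat_lit 164183) (nat_lit 154) .nil))))))) (.g (nat_lit 1) (.e (nat_lit 251422) (nat_lit 0) .nil) .nil))) 
(.lf (nat_lit 533006) (.g (nat_lit 3183) (.e (nat_lit 57388) (nat_lit 5) (.e (nat_lit 114698) (nat_lit 11) (.e (nat_lit 426198) (nat_lit 9) (.e (nat_lit 426542) (nat_lit 29) (.e (nat_lit 352307) (nat_lit 21) (.e (nat_lit 57848) (nat_lit 252) .nil)))))) (.g (nat_lit 1) (.e (nat_lit 252082) (nat_lit 0) .nil) .nil)))) (.nd (nat_lit 9) 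
(.lf (nat_lit 532750) (.g (nat_lit 3208) (.e (nat_lit 57379) (nat_lit 3) (.e (nat_lit 98367) (nat_lit 27) (.e (nat_lit 434248) (nat_lit 28) (.e (nat_lit 573489) (nat_lit 14) (.e (nat_lit 73755) (nat_lit 8) (.e (nat_lit 557090) (nat_lit 12) (.e (nat_lit 171776) (nat_lit 0) (.e (nat_lit 5937) (nat_lit 322) .nil)))))))) (.g (nat_lit 1) (.e (nat_lit 251678) (nat_lit 0) .nil) .nil))) 
(.lf (nat_lit 533262) (.g (nat_lit 3554) (.e (nat_lit 57389) (nat_lit 5) (.e (nat_lit 114698) (nat_lit 11) (.e (nat_lit 426325) (nat_lit 13) (.e (nat_lit 483393) (nat_lit 23) (.e (nat_lit 335988) (nat_lit 1) (.e (nat_lit 57852) (nat_lit 252) .nil)))))) (.g (nat_lit 1) (.e (nat_lit 252530) (nat_lit 0) .nil) .nil))))) (.nd (nat_lit 8) (.nd (nat_lit 9) 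
(.lf (nat_lit 532622) (.g (nat_lit 2055) (.e (nat_lit 57379) (nat_lit 3) (.e (nat_lit 98366) (nat_lit 27) (.e (nat_lit 434242) (nat_lit 28) (.e (nat_lit 573488) (nat_lit 14) (.e (nat_lit 73755) (nat_lit 8) (.e (nat_lit 557090) (nat_lit 12) (.e (nat_lit 163844) (nat_lit 0) (.e (nat_lit 5940) (nat_lit 322) .nil)))))))) (.g (nat_lit 1) (.e (nat_lit 251550) (nat_lit 0) .nil) .nil))) 
(.lf (nat_lit 533134) (.g (nat_lit 2689) (.e (nat_lit 57389) (nat_lit 5) (.e (nat_lit 114697) (nat_lit 11) (.e (nat_lit 426197) (nat_lit 9) (.e (nat_lit 426555) (nat_lit 32) (.e (nat_lit 376857) (nat_lit 21) (.e (nat_lit 57851) (nat_lit 252) .nil)))))) (.g (nat_lit 1) (.e (nat_lit 252326) (nat_lit 0) .nil) .nil)))) (.nd (nat_lit 9) 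
(.lf (nat_lit 532878) (.g (nat_lit 1669) (.e (nat_lit 57388) (nat_lit 5) (.e (nat_lit 114697) (nat_lit 11) (.e (nat_lit 426198) (nat_lit 9) (.e (nat_lit 426555) (nat_lit 32) (.e (nat_lit 376856) (nat_lit 21) .nil))))) (.g (nat_lit 0) (.e (nat_lit 251862) (nat_lit 0) .nil) .nil))) 
(.lf (nat_lit 533390) (.g (nat_lit 3378) (.e (nat_lit 57406) (nat_lit 12) (.e (nat_lit 336019) (nat_lit 3) (.e (nat_lit 98359) (nat_lit 26) (.e (nat_lit 426286) (nat_lit 10) (.e (nat_lit 434245) (nat_lit 28) (.e (nat_lit 573474) (nat_lit 12) (.e (nat_lit 57351) (nat_lit 0) (.e (nat_lit 7265) (nat_lit 384) .nil)))))))) (.g (nat_lit 1) (.e (nat_lit 252826) (nat_lit 0) .nil) .nil)))))) 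
(.nd (nat_lit 7) (.nd (nat_lit 8) (.nd (nat_lit 9) 
(.lf (nat_lit 532558) (.g (nat_lit 2422) (.e (nat_lit 57379) (nat_lit 3) (.e (nat_lit 98365) (nat_lit 26) (.e (nat_lit 426325) (nat_lit 13) (.e (nat_lit 483337) (nat_lit 9) (.e (nat_lit 426097) (nat_lit 1) (.e (nat_lit 164399) (nat_lit 256) .nil)))))) (.g (nat_lit 1) (.e (nat_lit 251486) (nat_lit 0) .nil) .nil))) 
(.lf (nat_lit 533070) (.g (nat_lit 2300) (.e (nat_lit 57388) (nat_lit 5) (.e (nat_lit 114698) (nat_lit 11) (.e (nat_lit 426327) (nat_lit 13) (.e (nat_lit 483383) (nat_lit 23) (.e (nat_lit 336000) (nat_lit 1) (.e (nat_lit 57846) (nat_lit 252) .nil)))))) (.g (nat_lit 1) (.e (nat_lit 252177) (nat_lit 0) .nil) .nil)))) (.nd (nat_lit 9) 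
(.lf (nat_lit 532814) (.g (nat_lit 2063) (.e (nat_lit 57388) (nat_lit 5) (.e (nat_lit 114696) (nat_lit 11) (.e (nat_lit 426234) (nat_lit 9) (.e (nat_lit 426554) (nat_lit 32) (.e (nat_lit 376857) (nat_lit 21) (.e (nat_lit 57853) (nat_lit 252) .nil)))))) (.g (nat_lit 1) (.e (nat_lit 251798) (nat_lit 0) .nil) .nil))) 
(.lf (nat_lit 533326) (.g (nat_lit 3024) (.e (nat_lit 57390) (nat_lit 5) (.e (nat_lit 114698) (nat_lit 11) (.e (nat_lit 426198) (nat_lit 9) (.e (nat_lit 426542) (nat_lit 29) (.e (nat_lit 352309) (nat_lit 21) (.e (nat_lit 57846) (nat_lit 252) .nil)))))) (.g (nat_lit 1) (.e (nat_lit 252664) (nat_lit 0) .nil) .nil))))) (.nd (nat_lit 8) (.nd (nat_lit 9) 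
(.lf (nat_lit 532686) (.g (nat_lit 3030) (.e (nat_lit 57379) (nat_lit 3) (.e (nat_lit 98366) (nat_lit 27) (.e (nat_lit 434248) (nat_lit 28) (.e (nat_lit 573489) (nat_lit 14) (.e (nat_lit 73754) (nat_lit 8) (.e (nat_lit 557094) (nat_lit 12) (.e (nat_lit 163840) (nat_lit 0) (.e (nat_lit 5939) (nat_lit 322) .nil)))))))) (.g (nat_lit 1) (.e (nat_lit 251614) (nat_lit 0) .nil) .nil))) 
(.lf (nat_lit 533198) (.g (nat_lit 3578) (.e (nat_lit 57389) (nat_lit 5) (.e (nat_lit 114698) (nat_lit 11) (.e (nat_lit 426190) (nat_lit 9) (.e (nat_lit 426555) (nat_lit 32) (.e (nat_lit 376859) (nat_lit 21) (.e (nat_lit 57854) (nat_lit 252) .nil)))))) (.g (nat_lit 1) (.e (nat_lit 252456) (nat_lit 0) .nil) .nil)))) (.nd (nat_lit 9) 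
(.lf (nat_lit 532942) (.g (nat_lit 3222) (.e (nat_lit 57388) (nat_lit 5) (.e (nat_lit 114698) (nat_lit 11) (.e (nat_lit 426188) (nat_lit 9) (.e (nat_lit 426555) (nat_lit 32) (.e (nat_lit 376857) (nat_lit 21) (.e (nat_lit 57848) (nat_lit 252) .nil)))))) (.g (nat_lit 1) (.e (nat_lit 252018) (nat_lit 0) .nil) .nil))) 
(.lf (nat_lit 533454) (.g (nat_lit 2573) (.e (nat_lit 57406) (nat_lit 12) (.e (nat_lit 336433) (nat_lit 30) (.e (nat_lit 450588) (nat_lit 10) (.e (nat_lit 573503) (nat_lit 18) (.e (nat_lit 1384) (nat_lit 105) (.e (nat_lit 311309) (nat_lit 1) (.e (nat_lit 164403) (nat_lit 256) .nil))))))) (.g (nat_lit 1) (.e (nat_lit 252921) (nat_lit 0) .nil) .nil))))))) 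
(.nd (nat_lit 6) (.nd (nat_lit 7) (.nd (nat_lit 8) (.nd (nat_lit 9) 
(.lf (nat_lit 532526) (.g (nat_lit 1275) (.e (nat_lit 57379) (nat_lit 3) (.e (nat_lit 98363) (nat_lit 26) (.e (nat_lit 426321) (nat_lit 13) (.e (nat_lit 483341) (nat_lit 9) (.e (nat_lit 433920) (nat_lit 1) (.e (nat_lit 164399) (nat_lit 256) .nil)))))) (.g (nat_lit 1) (.e (nat_lit 251454) (nat_lit 0) .nil) .nil))) 
(.lf (nat_lit 533038) (.g (nat_lit 3375) (.e (nat_lit 57388) (nat_lit 5) (.e (nat_lit 114698) (nat_lit 11) (.e (nat_lit 426199) (nat_lit 9) (.e (nat_lit 426555) (nat_lit 32) (.e (nat_lit 376857) (nat_lit 21) (.e (nat_lit 57848) (nat_lit 252) .nil)))))) (.g (nat_lit 1) (.e (nat_lit 252114) (nat_lit 0) .nil) .nil)))) (.nd (nat_lit 9) 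
(.lf (nat_lit 532782) (.g (nat_lit 1811) (.e (nat_lit 57382) (nat_lit 4) (.e (nat_lit 106536) (nat_lit 11) (.e (nat_lit 16466) (nat_lit 13) (.e (nat_lit 483393) (nat_lit 23) (.e (nat_lit 335987) (nat_lit 1) .nil))))) (.g (nat_lit 0) (.e (nat_lit 251731) (nat_lit 0) .nil) .nil))) 
(.lf (nat_lit 533294) (.g (nat_lit 2912) (.e (nat_lit 57390) (nat_lit 5) (.e (nat_lit 114697) (nat_lit 11) (.e (nat_lit 426188) (nat_lit 9) (.e (nat_lit 426555) (nat_lit 32) (.e (nat_lit 376859) (nat_lit 21) (.e (nat_lit 57846) (nat_lit 252) .nil)))))) (.g (nat_lit 1) (.e (nat_lit 252617) (nat_lit 0) .nil) .nil))))) (.nd (nat_lit 8) (.nd (nat_lit 9) 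
(.lf (nat_lit 532654) (.g (nat_lit 4644) (.e (nat_lit 57379) (nat_lit 3) (.e (nat_lit 98366) (nat_lit 27) (.e (nat_lit 434244) (nat_lit 28) (.e (nat_lit 573489) (nat_lit 14) (.e (nat_lit 73755) (nat_lit 8) (.e (nat_lit 557090) (nat_lit 12) (.e (nat_lit 163844) (nat_lit 0) (.e (nat_lit 5943) (nat_lit 322) .nil)))))))) (.g (nat_lit 1) (.e (nat_lit 251582) (nat_lit 0) .nil) .nil))) 
(.lf (nat_lit 533166) (.g (nat_lit 3030) (.e (nat_lit 57389) (nat_lit 5) (.e (nat_lit 114697) (nat_lit 11) (.e (nat_lit 426200) (nat_lit 9) (.e (nat_lit 426555) (nat_lit 32) (.e (nat_lit 376860) (nat_lit 21) (.e (nat_lit 57844) (nat_lit 252) .nil)))))) (.g (nat_lit 1) (.e (nat_lit 252358) (nat_lit 0) .nil) .nil)))) (.nd (nat_lit 9) 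
(.lf (nat_lit 532910) (.g (nat_lit 3376) (.e (nat_lit 57388) (nat_lit 5) (.e (nat_lit 114697) (nat_lit 11) (.e (nat_lit 426199) (nat_lit 9) (.e (nat_lit 426555) (nat_lit 32) (.e (nat_lit 376860) (nat_lit 21) (.e (nat_lit 57854) (nat_lit 252) .nil)))))) (.g (nat_lit 1) (.e (nat_lit 251895) (nat_lit 0) .nil) .nil))) 
(.lf (nat_lit 533422) (.g (nat_lit 3103) (.e (nat_lit 57406) (nat_lit 12) (.e (nat_lit 336120) (nat_lit 9) (.e (nat_lit 336407) (nat_lit 27) (.e (nat_lit 426343) (nat_lit 14) (.e (nat_lit 491558) (nat_lit 10) (.e (nat_lit 344091) (nat_lit 18) (.e (nat_lit 7265) (nat_lit 384) .nil))))))) (.g (nat_lit 1) (.e (nat_lit 252858) (nat_lit 0) .nil) .nil)))))) 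
(.nd (nat_lit 7) (.nd (nat_lit 8) (.nd (nat_lit 9) 
(.lf (nat_lit 532590) (.g (nat_lit 2357) (.e (nat_lit 57379) (nat_lit 3) (.e (nat_lit 98365) (nat_lit 26) (.e (nat_lit 426325) (nat_lit 13) (.e (nat_lit 483341) (nat_lit 9) (.e (nat_lit 433920) (nat_lit 1) (.e (nat_lit 164399) (nat_lit 256) .nil)))))) (.g (nat_lit 1) (.e (nat_lit 251518) (nat_lit 0) .nil) .nil))) 
(.lf (nat_lit 533102) (.g (nat_lit 2359) (.e (nat_lit 57389) (nat_lit 5) (.e (nat_lit 114695) (nat_lit 11) (.e (nat_lit 426234) (nat_lit 9) (.e (nat_lit 426554) (nat_lit 32) (.e (nat_lit 376860) (nat_lit 21) (.e (nat_lit 57854) (nat_lit 252) .nil)))))) (.g (nat_lit 1) (.e (nat_lit 252294) (nat_lit 0) .nil) .nil)))) (.nd (nat_lit 9) 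
(.lf (nat_lit 532846) (.g (nat_lit 3070) (.e (nat_lit 57388) (nat_lit 5) (.e (nat_lit 114697) (nat_lit 11) (.e (nat_lit 426190) (nat_lit 9) (.e (nat_lit 426555) (nat_lit 32) (.e (nat_lit 376857) (nat_lit 21) (.e (nat_lit 57846) (nat_lit 252) .nil)))))) (.g (nat_lit 1) (.e (nat_lit 251830) (nat_lit 0) .nil) .nil))) 
(.lf (nat_lit 533358) (.g (nat_lit 927) (.e (nat_lit 57400) (nat_lit 10) (.e (nat_lit 319533) (nat_lit 16) (.e (nat_lit 286747) (nat_lit 9) (.e (nat_lit 343808) (nat_lit 32) .nil)))) (.g (nat_lit 0) (.e (nat_lit 252737) (nat_lit 0) .nil) .nil))))) (.nd (nat_lit 8) (.nd (nat_lit 9) 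
(.lf (nat_lit 532718) (.g (nat_lit 1109) (.e (nat_lit 57379) (nat_lit 3) (.e (nat_lit 98367) (nat_lit 27) (.e (nat_lit 434234) (nat_lit 23) (.e (nat_lit 532515) (nat_lit 3) .nil)))) (.g (nat_lit 0) (.e (nat_lit 251646) (nat_lit 0) .nil) .nil))) 
(.lf (nat_lit 533230) (.g (nat_lit 2955) (.e (nat_lit 57389) (nat_lit 5) (.e (nat_lit 114698) (nat_lit 11) (.e (nat_lit 426198) (nat_lit 9) (.e (nat_lit 426555) (nat_lit 32) (.e (nat_lit 376859) (nat_lit 21) (.e (nat_lit 57853) (nat_lit 252) .nil)))))) (.g (nat_lit 1) (.e (nat_lit 252488) (nat_lit 0) .nil) .nil)))) (.nd (nat_lit 9) 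
(.lf (nat_lit 532974) (.g (nat_lit 2030) (.e (nat_lit 57388) (nat_lit 5) (.e (nat_lit 114698) (nat_lit 11) (.e (nat_lit 426197) (nat_lit 9) (.e (nat_lit 426542) (nat_lit 29) (.e (nat_lit 352309) (nat_lit 21) (.e (nat_lit 57844) (nat_lit 252) .nil)))))) (.g (nat_lit 1) (.e (nat_lit 252050) (nat_lit 0) .nil) .nil))) 
(.lf (nat_lit 533486) (.g (nat_lit 2499) (.e (nat_lit 57406) (nat_lit 12) (.e (nat_lit 336456) (nat_lit 34) (.e (nat_lit 483383) (nat_lit 23) (.e (nat_lit 336260) (nat_lit 15) (.e (nat_lit 3230) (nat_lit 197) .nil))))) (.g (nat_lit 0) (.e (nat_lit 252954) (nat_lit 0) .nil) .nil)))))))) (.nd (nat_lit 5) (.nd (nat_lit 6) (.nd (nat_lit 7) (.nd (nat_lit 8) (.nd (nat_lit 9) 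
(.lf (nat_lit 532510) (.g (nat_lit 2836) (.e (nat_lit 57379) (nat_lit 3) (.e (nat_lit 98349) (nat_lit 24) (.e (nat_lit 409645) (nat_lit 18) (.e (nat_lit 303119) (nat_lit 3) (.e (nat_lit 204863) (nat_lit 27) .nil))))) (.g (nat_lit 0) (.e (nat_lit 251438) (nat_lit 0) .nil) .nil))) 
(.lf (nat_lit 533022) (.g (nat_lit 1980) (.e (nat_lit 57388) (nat_lit 5) (.e (nat_lit 114698) (nat_lit 11) (.e (nat_lit 426198) (nat_lit 9) (.e (nat_lit 426555) (nat_lit 32) (.e (nat_lit 376858) (nat_lit 21) .nil))))) (.g (nat_lit 0) (.e (nat_lit 252098) (nat_lit 0) .nil) .nil)))) (.nd (nat_lit 9) 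
(.lf (nat_lit 532766) (.g (nat_lit 182) (.e (nat_lit 57379) (nat_lit 3) (.e (nat_lit 98387) (nat_lit 33) (.e (nat_lit 491568) (nat_lit 13) .nil))) (.g (nat_lit 0) (.e (nat_lit 251694) (nat_lit 0) .nil) .nil))) 
(.lf (nat_lit 533278) (.g (nat_lit 3466) (.e (nat_lit 57389) (nat_lit 5) (.e (nat_lit 114712) (nat_lit 21) (.e (nat_lit 57930) (nat_lit 282) (.e (nat_lit 163923) (nat_lit 15) (.e (nat_lit 450587) (nat_lit 10) (.e (nat_lit 573478) (nat_lit 12) (.e (nat_lit 57360) (nat_lit 0) (.e (nat_lit 5947) (nat_lit 322) .nil)))))))) (.g (nat_lit 1) (.e (nat_lit 252595) (nat_lit 0) .nil) .nil))))) 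
(.nd (nat_lit 8) (.nd (nat_lit 9) 
(.lf (nat_lit 532638) (.g (nat_lit 3961) (.e (nat_lit 57379) (nat_lit 3) (.e (nat_lit 98366) (nat_lit 27) (.e (nat_lit 434244) (nat_lit 28) (.e (nat_lit 573488) (nat_lit 14) (.e (nat_lit 73755) (nat_lit 8) (.e (nat_lit 557090) (nat_lit 12) (.e (nat_lit 163840) (nat_lit 0) (.e (nat_lit 5939) (nat_lit 322) .nil)))))))) (.g (nat_lit 1) (.e (nat_lit 251566) (nat_lit 0) .nil) .nil))) 
(.lf (nat_lit 533150) (.g (nat_lit 3155) (.e (nat_lit 57389) (nat_lit 5) (.e (nat_lit 114697) (nat_lit 11) (.e (nat_lit 426198) (nat_lit 9) (.e (nat_lit 426555) (nat_lit 32) (.e (nat_lit 376860) (nat_lit 21) (.e (nat_lit 57852) (nat_lit 252) .nil)))))) (.g (nat_lit 1) (.e (nat_lit 252342) (nat_lit 0) .nil) .nil)))) (.nd (nat_lit 9) 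
(.lf (nat_lit 532894) (.g (nat_lit 3355) (.e (nat_lit 57388) (nat_lit 5) (.e (nat_lit 114697) (nat_lit 11) (.e (nat_lit 426198) (nat_lit 9) (.e (nat_lit 426555) (nat_lit 32) (.e (nat_lit 376860) (nat_lit 21) (.e (nat_lit 57854) (nat_lit 252) .nil)))))) (.g (nat_lit 1) (.e (nat_lit 251878) (nat_lit 0) .nil) .nil))) 
(.lf (nat_lit 533406) (.g (nat_lit 4757) (.e (nat_lit 57406) (nat_lit 12) (.e (nat_lit 336019) (nat_lit 3) (.e (nat_lit 98373) (nat_lit 29) (.e (nat_lit 450587) (nat_lit 10) (.e (nat_lit 573473) (nat_lit 12) (.e (nat_lit 57347) (nat_lit 0) (.e (nat_lit 7265) (nat_lit 384) .nil))))))) (.g (nat_lit 1) (.e (nat_lit 252842) (nat_lit 0) .nil) .nil)))))) 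
(.nd (nat_lit 7) (.nd (nat_lit 8) (.nd (nat_lit 9) 
(.lf (nat_lit 532574) (.g (nat_lit 2455) (.e (nat_lit 57379) (nat_lit 3) (.e (nat_lit 98365) (nat_lit 26) (.e (nat_lit 426325) (nat_lit 13) (.e (nat_lit 483341) (nat_lit 9) (.e (nat_lit 426009) (nat_lit 0) (.e (nat_lit 2459) (nat_lit 157) (.e (nat_lit 5939) (nat_lit 322) .nil))))))) (.g (nat_lit 1) (.e (nat_lit 251502) (nat_lit 0) .nil) .nil))) 
(.lf (nat_lit 533086) (.g (nat_lit 4478) (.e (nat_lit 57388) (nat_lit 5) (.e (nat_lit 114712) (nat_lit 21) (.e (nat_lit 57930) (nat_lit 282) (.e (nat_lit 163923) (nat_lit 15) (.e (nat_lit 450587) (nat_lit 10) (.e (nat_lit 573477) (nat_lit 12) (.e (nat_lit 57360) (nat_lit 0) (.e (nat_lit 5949) (nat_lit 322) .nil)))))))) (.g (nat_lit 1) (.e (nat_lit 252262) (nat_lit 0) .nil) .nil)))) 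
(.nd (nat_lit 9) 
(.lf (nat_lit 532830) (.g (nat_lit 2745) (.e (nat_lit 57388) (nat_lit 5) (.e (nat_lit 114697) (nat_lit 11) (.e (nat_lit 426188) (nat_lit 9) (.e (nat_lit 426555) (nat_lit 32) (.e (nat_lit 376857) (nat_lit 21) (.e (nat_lit 57848) (nat_lit 252) .nil)))))) (.g (nat_lit 1) (.e (nat_lit 251814) (nat_lit 0) .nil) .nil))) 
(.lf (nat_lit 533342) (.g (nat_lit 2107) (.e (nat_lit 57396) (nat_lit 8) (.e (nat_lit 147496) (nat_lit 11) (.e (nat_lit 24617) (nat_lit 7) (.e (nat_lit 319533) (nat_lit 16) .nil)))) (.g (nat_lit 0) (.e (nat_lit 252704) (nat_lit 0) .nil) .nil))))) (.nd (nat_lit 8) (.nd (nat_lit 9) 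
(.lf (nat_lit 532702) (.g (nat_lit 3178) (.e (nat_lit 57379) (nat_lit 3) (.e (nat_lit 98366) (nat_lit 27) (.e (nat_lit 434248) (nat_lit 28) (.e (nat_lit 573489) (nat_lit 14) (.e (nat_lit 73755) (nat_lit 8) (.e (nat_lit 557091) (nat_lit 12) (.e (nat_lit 163844) (nat_lit 0) (.e (nat_lit 5943) (nat_lit 322) .nil)))))))) (.g (nat_lit 1) (.e (nat_lit 251630) (nat_lit 0) .nil) .nil))) 
(.lf (nat_lit 533214) (.g (nat_lit 3480) (.e (nat_lit 57389) (nat_lit 5) (.e (nat_lit 114698) (nat_lit 11) (.e (nat_lit 426198) (nat_lit 9) (.e (nat_lit 426542) (nat_lit 29) (.e (nat_lit 352307) (nat_lit 21) (.e (nat_lit 57844) (nat_lit 252) .nil)))))) (.g (nat_lit 1) (.e (nat_lit 252472) (nat_lit 0) .nil) .nil)))) (.nd (nat_lit 9) 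
(.lf (nat_lit 532958) (.g (nat_lit 2426) (.e (nat_lit 57388) (nat_lit 5) (.e (nat_lit 114698) (nat_lit 11) (.e (nat_lit 426190) (nat_lit 9) (.e (nat_lit 426555) (nat_lit 32) (.e (nat_lit 376857) (nat_lit 21) (.e (nat_lit 57844) (nat_lit 252) .nil)))))) (.g (nat_lit 1) (.e (nat_lit 252034) (nat_lit 0) .nil) .nil))) 
(.lf (nat_lit 533470) (.g (nat_lit 1331) (.e (nat_lit 57406) (nat_lit 12) (.e (nat_lit 336454) (nat_lit 34) (.e (nat_lit 483385) (nat_lit 23) (.e (nat_lit 336284) (nat_lit 15) .nil)))) (.g (nat_lit 0) (.e (nat_lit 252938) (nat_lit 0) .nil) .nil))))))) (.nd (nat_lit 6) (.nd (nat_lit 7) (.nd (nat_lit 8) (.nd (nat_lit 9) 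
(.lf (nat_lit 532542) (.g (nat_lit 2800) (.e (nat_lit 57379) (nat_lit 3) (.e (nat_lit 98365) (nat_lit 26) (.e (nat_lit 426325) (nat_lit 13) (.e (nat_lit 483337) (nat_lit 9) (.e (nat_lit 426009) (nat_lit 0) (.e (nat_lit 2430) (nat_lit 157) (.e (nat_lit 5940) (nat_lit 322) .nil))))))) (.g (nat_lit 1) (.e (nat_lit 251470) (nat_lit 0) .nil) .nil))) 
(.lf (nat_lit 533054) (.g (nat_lit 3638) (.e (nat_lit 57388) (nat_lit 5) (.e (nat_lit 114698) (nat_lit 11) (.e (nat_lit 426200) (nat_lit 9) (.e (nat_lit 426555) (nat_lit 32) (.e (nat_lit 376857) (nat_lit 21) (.e (nat_lit 57848) (nat_lit 252) .nil)))))) (.g (nat_lit 1) (.e (nat_lit 252130) (nat_lit 0) .nil) .nil)))) (.nd (nat_lit 9) 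
(.lf (nat_lit 532798) (.g (nat_lit 1873) (.e (nat_lit 57388) (nat_lit 5) (.e (nat_lit 114696) (nat_lit 11) (.e (nat_lit 426230) (nat_lit 9) (.e (nat_lit 426554) (nat_lit 32) (.e (nat_lit 376857) (nat_lit 21) (.e (nat_lit 57846) (nat_lit 252) .nil)))))) (.g (nat_lit 1) (.e (nat_lit 251782) (nat_lit 0) .nil) .nil))) 
(.lf (nat_lit 533310) (.g (nat_lit 3001) (.e (nat_lit 57390) (nat_lit 5) (.e (nat_lit 114697) (nat_lit 11) (.e (nat_lit 426199) (nat_lit 9) (.e (nat_lit 426555) (nat_lit 32) (.e (nat_lit 376857) (nat_lit 21) (.e (nat_lit 57846) (nat_lit 252) .nil)))))) (.g (nat_lit 1) (.e (nat_lit 252634) (nat_lit 0) .nil) .nil))))) (.nd (nat_lit 8) (.nd (nat_lit 9) 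
(.lf (nat_lit 532670) (.g (nat_lit 4359) (.e (nat_lit 57379) (nat_lit 3) (.e (nat_lit 98366) (nat_lit 27) (.e (nat_lit 434247) (nat_lit 28) (.e (nat_lit 573489) (nat_lit 14) (.e (nat_lit 73755) (nat_lit 8) (.e (nat_lit 557090) (nat_lit 12) (.e (nat_lit 163843) (nat_lit 0) (.e (nat_lit 5943) (nat_lit 322) .nil)))))))) (.g (nat_lit 1) (.e (nat_lit 251598) (nat_lit 0) .nil) .nil))) 
(.lf (nat_lit 533182) (.g (nat_lit 3066) (.e (nat_lit 57389) (nat_lit 5) (.e (nat_lit 114698) (nat_lit 11) (.e (nat_lit 426188) (nat_lit 9) (.e (nat_lit 426555) (nat_lit 32) (.e (nat_lit 376859) (nat_lit 21) (.e (nat_lit 57853) (nat_lit 252) .nil)))))) (.g (nat_lit 1) (.e (nat_lit 252440) (nat_lit 0) .nil) .nil)))) (.nd (nat_lit 9) 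
(.lf (nat_lit 532926) (.g (nat_lit 2802) (.e (nat_lit 57388) (nat_lit 5) (.e (nat_lit 114697) (nat_lit 11) (.e (nat_lit 426200) (nat_lit 9) (.e (nat_lit 426555) (nat_lit 32) (.e (nat_lit 376860) (nat_lit 21) (.e (nat_lit 57851) (nat_lit 252) .nil)))))) (.g (nat_lit 1) (.e (nat_lit 251911) (nat_lit 0) .nil) .nil))) 
(.lf (nat_lit 533438) (.g (nat_lit 1992) (.e (nat_lit 57406) (nat_lit 12) (.e (nat_lit 336316) (nat_lit 17) (.e (nat_lit 196666) (nat_lit 13) (.e (nat_lit 65617) (nat_lit 10) (.e (nat_lit 344087) (nat_lit 18) (.e (nat_lit 7694) (nat_lit 412) (.e (nat_lit 57368) (nat_lit 1) (.e (nat_lit 57854) (nat_lit 252) .nil)))))))) (.g (nat_lit 1) (.e (nat_lit 252877) (nat_lit 0) .nil) .nil)))))) 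
(.nd (nat_lit 7) (.nd (nat_lit 8) (.nd (nat_lit 9) 
(.lf (nat_lit 532606) (.g (nat_lit 3168) (.e (nat_lit 57379) (nat_lit 3) (.e (nat_lit 98366) (nat_lit 27) (.e (nat_lit 434231) (nat_lit 23) (.e (nat_lit 532514) (nat_lit 3) (.e (nat_lit 114716) (nat_lit 22) (.e (nat_lit 90163) (nat_lit 12) (.e (nat_lit 163850) (nat_lit 0) (.e (nat_lit 5939) (nat_lit 322) .nil)))))))) (.g (nat_lit 1) (.e (nat_lit 251534) (nat_lit 0) .nil) .nil))) 
(.lf (nat_lit 533118) (.g (nat_lit 3268) (.e (nat_lit 57389) (nat_lit 5) (.e (nat_lit 114697) (nat_lit 11) (.e (nat_lit 426188) (nat_lit 9) (.e (nat_lit 426555) (nat_lit 32) (.e (nat_lit 376860) (nat_lit 21) (.e (nat_lit 57852) (nat_lit 252) .nil)))))) (.g (nat_lit 1) (.e (nat_lit 252310) (nat_lit 0) .nil) .nil)))) (.nd (nat_lit 9) 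
(.lf (nat_lit 532862) (.g (nat_lit 345) (.e (nat_lit 57388) (nat_lit 5) (.e (nat_lit 114697) (nat_lit 11) (.e (nat_lit 426197) (nat_lit 9) .nil))) (.g (nat_lit 0) (.e (nat_lit 251846) (nat_lit 0) .nil) .nil))) 
(.lf (nat_lit 533374) (.g (nat_lit 1512) (.e (nat_lit 57405) (nat_lit 12) (.e (nat_lit 336443) (nat_lit 32) (.e (nat_lit 466981) (nat_lit 23) (.e (nat_lit 204812) (nat_lit 9) .nil)))) (.g (nat_lit 0) (.e (nat_lit 252791) (nat_lit 0) .nil) .nil))))) (.nd (nat_lit 8) (.nd (nat_lit 9) 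
(.lf (nat_lit 532734) (.g (nat_lit 3961) (.e (nat_lit 57379) (nat_lit 3) (.e (nat_lit 98367) (nat_lit 27) (.e (nat_lit 434246) (nat_lit 28) (.e (nat_lit 573489) (nat_lit 14) (.e (nat_lit 73755) (nat_lit 8) (.e (nat_lit 557090) (nat_lit 12) (.e (nat_lit 163843) (nat_lit 0) (.e (nat_lit 5943) (nat_lit 322) .nil)))))))) (.g (nat_lit 1) (.e (nat_lit 251662) (nat_lit 0) .nil) .nil))) 
(.lf (nat_lit 533246) (.g (nat_lit 3783) (.e (nat_lit 57389) (nat_lit 5) (.e (nat_lit 114698) (nat_lit 11) (.e (nat_lit 426199) (nat_lit 9) (.e (nat_lit 426555) (nat_lit 32) (.e (nat_lit 376860) (nat_lit 21) (.e (nat_lit 57852) (nat_lit 252) .nil)))))) (.g (nat_lit 1) (.e (nat_lit 252504) (nat_lit 0) .nil) .nil)))) (.nd (nat_lit 9) 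
(.lf (nat_lit 532990) (.g (nat_lit 3423) (.e (nat_lit 57388) (nat_lit 5) (.e (nat_lit 114698) (nat_lit 11) (.e (nat_lit 426197) (nat_lit 9) (.e (nat_lit 426555) (nat_lit 32) (.e (nat_lit 376859) (nat_lit 21) (.e (nat_lit 57847) (nat_lit 252) .nil)))))) (.g (nat_lit 1) (.e (nat_lit 252066) (nat_lit 0) .nil) .nil))) 
(.lf (nat_lit 533502) (.g (nat_lit 1527) (.e (nat_lit 57407) (nat_lit 12) (.e (nat_lit 336019) (nat_lit 3) (.e (nat_lit 98372) (nat_lit 29) (.e (nat_lit 450587) (nat_lit 10) .nil)))) (.g (nat_lit 0) (.e (nat_lit 252970) (nat_lit 0) .nil) .nil)))))))))))) 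
(.nd (nat_lit 1) (.nd (nat_lit 2) (.nd (nat_lit 3) (.nd (nat_lit 4) (.nd (nat_lit 5) 
(.nd (nat_lit 6) (.nd (nat_lit 7) (.nd (nat_lit 8) (.nd (nat_lit 9) 
(.lf (nat_lit 532481) (.g (nat_lit 3640) (.e (nat_lit 57379) (nat_lit 3) (.e (nat_lit 98342) (nat_lit 20) (.e (nat_lit 221212) (nat_lit 22) (.e (nat_lit 196670) (nat_lit 14) (.e (nat_lit 73746) (nat_lit 3) (.e (nat_lit 516119) (nat_lit 1) (.e (nat_lit 164180) (nat_lit 154) .nil))))))) (.g (nat_lit 1) (.e (nat_lit 251409) (nat_lit 0) .nil) .nil))) 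
(.lf (nat_lit 532993) (.g (nat_lit 3443) (.e (nat_lit 57388) (nat_lit 5) (.e (nat_lit 114698) (nat_lit 11) (.e (nat_lit 426197) (nat_lit 9) (.e (nat_lit 426555) (nat_lit 32) (.e (nat_lit 376859) (nat_lit 21) (.e (nat_lit 57854) (nat_lit 252) .nil)))))) (.g (nat_lit 1) (.e (nat_lit 252069) (nat_lit 0) .nil) .nil)))) (.nd (nat_lit 9) 
(.lf (nat_lit 532737) (.g (nat_lit 2681) (.e (nat_lit 57379) (nat_lit 3) (.e (nat_lit 98367) (nat_lit 27) (.e (nat_lit 434246) (nat_lit 28) (.e (nat_lit 573489) (nat_lit 14) (.e (nat_lit 73755) (nat_lit 8) (.e (nat_lit 557091) (nat_lit 12) (.e (nat_lit 163841) (nat_lit 0) (.e (nat_lit 5943) (nat_lit 322) .nil)))))))) (.g (nat_lit 1) (.e (nat_lit 251665) (nat_lit 0) .nil) .nil))) 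
(.lf (nat_lit 533249) (.g (nat_lit 3589) (.e (nat_lit 57389) (nat_lit 5) (.e (nat_lit 114698) (nat_lit 11) (.e (nat_lit 426200) (nat_lit 9) (.e (nat_lit 426555) (nat_lit 32) (.e (nat_lit 376857) (nat_lit 21) (.e (nat_lit 57846) (nat_lit 252) .nil)))))) (.g (nat_lit 1) (.e (nat_lit 252507) (nat_lit 0) .nil) .nil))))) (.nd (nat_lit 8) (.nd (nat_lit 9) 
(.lf (nat_lit 532609) (.g (nat_lit 1989) (.e (nat_lit 57379) (nat_lit 3) (.e (nat_lit 98366) (nat_lit 27) (.e (nat_lit 434231) (nat_lit 23) (.e (nat_lit 532514) (nat_lit 3) (.e (nat_lit 114716) (nat_lit 22) (.e (nat_lit 90181) (nat_lit 16) (.e (nat_lit 229378) (nat_lit 0) (.e (nat_lit 5935) (nat_lit 322) .nil)))))))) (.g (nat_lit 1) (.e (nat_lit 251537) (nat_lit 0) .nil) .nil))) 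
(.lf (nat_lit 533121) (.g (nat_lit 2926) (.e (nat_lit 57389) (nat_lit 5) (.e (nat_lit 114697) (nat_lit 11) (.e (nat_lit 426190) (nat_lit 9) (.e (nat_lit 426555) (nat_lit 32) (.e (nat_lit 376857) (nat_lit 21) (.e (nat_lit 57844) (nat_lit 252) .nil)))))) (.g (nat_lit 1) (.e (nat_lit 252313) (nat_lit 0) .nil) .nil)))) (.nd (nat_lit 9) 
(.lf (nat_lit 532865) (.g (nat_lit 2464) (.e (nat_lit 57388) (nat_lit 5) (.e (nat_lit 114697) (nat_lit 11) (.e (nat_lit 426197) (nat_lit 9) (.e (nat_lit 426555) (nat_lit 32) (.e (nat_lit 376859) (nat_lit 21) (.e (nat_lit 57847) (nat_lit 252) .nil)))))) (.g (nat_lit 1) (.e (nat_lit 251849) (nat_lit 0) .nil) .nil))) 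
(.lf (nat_lit 533377) (.g (nat_lit 1543) (.e (nat_lit 57405) (nat_lit 12) (.e (nat_lit 336456) (nat_lit 34) (.e (nat_lit 483406) (nat_lit 26) (.e (nat_lit 385066) (nat_lit 26) .nil)))) (.g (nat_lit 0) (.e (nat_lit 252813) (nat_lit 0) .nil) .nil)))))) (.nd (nat_lit 7) (.nd (nat_lit 8) (.nd (nat_lit 9) 
(.lf (nat_lit 532545) (.g (nat_lit 2174) (.e (nat_lit 57379) (nat_lit 3) (.e (nat_lit 98365) (nat_lit 26) (.e (nat_lit 426325) (nat_lit 13) (.e (nat_lit 483337) (nat_lit 9) (.e (nat_lit 426030) (nat_lit 0) (.e (nat_lit 2416) (nat_lit 157) (.e (nat_lit 5939) (nat_lit 322) .nil))))))) (.g (nat_lit 1) (.e (nat_lit 251473) (nat_lit 0) .nil) .nil))) 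
(.lf (nat_lit 533057) (.g (nat_lit 3676) (.e (nat_lit 57388) (nat_lit 5) (.e (nat_lit 114698) (nat_lit 11) (.e (nat_lit 426200) (nat_lit 9) (.e (nat_lit 426555) (nat_lit 32) (.e (nat_lit 376859) (nat_lit 21) (.e (nat_lit 57844) (nat_lit 252) .nil)))))) (.g (nat_lit 1) (.e (nat_lit 252133) (nat_lit 0) .nil) .nil)))) (.nd (nat_lit 9) 
(.lf (nat_lit 532801) (.g (nat_lit 2011) (.e (nat_lit 57388) (nat_lit 5) (.e (nat_lit 114696) (nat_lit 11) (.e (nat_lit 426230) (nat_lit 9) (.e (nat_lit 426554) (nat_lit 32) (.e (nat_lit 376857) (nat_lit 21) (.e (nat_lit 57853) (nat_lit 252) .nil)))))) (.g (nat_lit 1) (.e (nat_lit 251785) (nat_lit 0) .nil) .nil))) 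
(.lf (nat_lit 533313) (.g (nat_lit 2677) (.e (nat_lit 57390) (nat_lit 5) (.e (nat_lit 114697) (nat_lit 11) (.e (nat_lit 426199) (nat_lit 9) (.e (nat_lit 426555) (nat_lit 32) (.e (nat_lit 376859) (nat_lit 21) (.e (nat_lit 57847) (nat_lit 252) .nil)))))) (.g (nat_lit 1) (.e (nat_lit 252637) (nat_lit 0) .nil) .nil))))) (.nd (nat_lit 8) (.nd (nat_lit 9) 
(.lf (nat_lit 532673) (.g (nat_lit 2481) (.e (nat_lit 57379) (nat_lit 3) (.e (nat_lit 98366) (nat_lit 27) (.e (nat_lit 434247) (nat_lit 28) (.e (nat_lit 573489) (nat_lit 14) (.e (nat_lit 73755) (nat_lit 8) (.e (nat_lit 557091) (nat_lit 12) (.e (nat_lit 163841) (nat_lit 0) (.e (nat_lit 5933) (nat_lit 322) .nil)))))))) (.g (nat_lit 1) (.e (nat_lit 251601) (nat_lit 0) .nil) .nil))) 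
(.lf (nat_lit 533185) (.g (nat_lit 3686) (.e (nat_lit 57389) (nat_lit 5) (.e (nat_lit 114698) (nat_lit 11) (.e (nat_lit 426188) (nat_lit 9) (.e (nat_lit 426555) (nat_lit 32) (.e (nat_lit 376860) (nat_lit 21) (.e (nat_lit 57852) (nat_lit 252) .nil)))))) (.g (nat_lit 1) (.e (nat_lit 252443) (nat_lit 0) .nil) .nil)))) (.nd (nat_lit 9) 
(.lf (nat_lit 532929) (.g (nat_lit 3472) (.e (nat_lit 57388) (nat_lit 5) (.e (nat_lit 114697) (nat_lit 11) (.e (nat_lit 426200) (nat_lit 9) (.e (nat_lit 426555) (nat_lit 32) (.e (nat_lit 376860) (nat_lit 21) (.e (nat_lit 57854) (nat_lit 252) .nil)))))) (.g (nat_lit 1) (.e (nat_lit 251914) (nat_lit 0) .nil) .nil))) 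
(.lf (nat_lit 533441) (.g (nat_lit 1994) (.e (nat_lit 57406) (nat_lit 12) (.e (nat_lit 336316) (nat_lit 17) (.e (nat_lit 196666) (nat_lit 13) (.e (nat_lit 65617) (nat_lit 10) (.e (nat_lit 344095) (nat_lit 18) (.e (nat_lit 7697) (nat_lit 412) (.e (nat_lit 57366) (nat_lit 1) (.e (nat_lit 57854) (nat_lit 252) .nil)))))))) (.g (nat_lit 1) (.e (nat_lit 252880) (nat_lit 0) .nil) .nil))))))) 
(.nd (nat_lit 6) (.nd (nat_lit 7) (.nd (nat_lit 8) (.nd (nat_lit 9) 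
(.lf (nat_lit 532513) (.g (nat_lit 2757) (.e (nat_lit 57379) (nat_lit 3) (.e (nat_lit 98350) (nat_lit 24) (.e (nat_lit 409648) (nat_lit 18) (.e (nat_lit 303119) (nat_lit 3) (.e (nat_lit 204863) (nat_lit 27) .nil))))) (.g (nat_lit 0) (.e (nat_lit 251441) (nat_lit 0) .nil) .nil))) 
(.lf (nat_lit 533025) (.g (nat_lit 3091) (.e (nat_lit 57388) (nat_lit 5) (.e (nat_lit 114698) (nat_lit 11) (.e (nat_lit 426198) (nat_lit 9) (.e (nat_lit 426555) (nat_lit 32) (.e (nat_lit 376859) (nat_lit 21) (.e (nat_lit 57848) (nat_lit 252) .nil)))))) (.g (nat_lit 1) (.e (nat_lit 252101) (nat_lit 0) .nil) .nil)))) (.nd (nat_lit 9) 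
(.lf (nat_lit 532769) (.g (nat_lit 1333) (.e (nat_lit 57379) (nat_lit 3) (.e (nat_lit 98387) (nat_lit 33) (.e (nat_lit 491571) (nat_lit 13) (.e (nat_lit 401152) (nat_lit 10) .nil)))) (.g (nat_lit 0) (.e (nat_lit 251697) (nat_lit 0) .nil) .nil))) 
(.lf (nat_lit 533281) (.g (nat_lit 2309) (.e (nat_lit 57389) (nat_lit 5) (.e (nat_lit 114716) (nat_lit 22) (.e (nat_lit 90158) (nat_lit 11) (.e (nat_lit 24651) (nat_lit 12) (.e (nat_lit 385066) (nat_lit 26) (.e (nat_lit 540416) (nat_lit 18) (.e (nat_lit 164399) (nat_lit 256) .nil))))))) (.g (nat_lit 1) (.e (nat_lit 252598) (nat_lit 0) .nil) .nil))))) (.nd (nat_lit 8) (.nd (nat_lit 9) 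
(.lf (nat_lit 532641) (.g (nat_lit 2892) (.e (nat_lit 57379) (nat_lit 3) (.e (nat_lit 98366) (nat_lit 27) (.e (nat_lit 434244) (nat_lit 28) (.e (nat_lit 573488) (nat_lit 14) (.e (nat_lit 73755) (nat_lit 8) (.e (nat_lit 557090) (nat_lit 12) (.e (nat_lit 163842) (nat_lit 0) (.e (nat_lit 5933) (nat_lit 322) .nil)))))))) (.g (nat_lit 1) (.e (nat_lit 251569) (nat_lit 0) .nil) .nil))) 
(.lf (nat_lit 533153) (.g (nat_lit 2855) (.e (nat_lit 57389) (nat_lit 5) (.e (nat_lit 114697) (nat_lit 11) (.e (nat_lit 426199) (nat_lit 9) (.e (nat_lit 426555) (nat_lit 32) (.e (nat_lit 376857) (nat_lit 21) (.e (nat_lit 57844) (nat_lit 252) .nil)))))) (.g (nat_lit 1) (.e (nat_lit 252345) (nat_lit 0) .nil) .nil)))) (.nd (nat_lit 9) 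
(.lf (nat_lit 532897) (.g (nat_lit 2142) (.e (nat_lit 57388) (nat_lit 5) (.e (nat_lit 114697) (nat_lit 11) (.e (nat_lit 426199) (nat_lit 9) (.e (nat_lit 426555) (nat_lit 32) (.e (nat_lit 376857) (nat_lit 21) (.e (nat_lit 57844) (nat_lit 252) .nil)))))) (.g (nat_lit 1) (.e (nat_lit 251882) (nat_lit 0) .nil) .nil))) 
(.lf (nat_lit 533409) (.g (nat_lit 4346) (.e (nat_lit 57406) (nat_lit 12) (.e (nat_lit 336019) (nat_lit 3) (.e (nat_lit 98373) (nat_lit 29) (.e (nat_lit 450587) (nat_lit 10) (.e (nat_lit 573477) (nat_lit 12) .nil))))) (.g (nat_lit 0) (.e (nat_lit 252845) (nat_lit 0) .nil) .nil)))))) (.nd (nat_lit 7) (.nd (nat_lit 8) (.nd (nat_lit 9) 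
(.lf (nat_lit 532577) (.g (nat_lit 2594) (.e (nat_lit 57379) (nat_lit 3) (.e (nat_lit 98365) (nat_lit 26) (.e (nat_lit 426325) (nat_lit 13) (.e (nat_lit 483341) (nat_lit 9) (.e (nat_lit 426009) (nat_lit 0) (.e (nat_lit 2473) (nat_lit 157) (.e (nat_lit 5939) (nat_lit 322) .nil))))))) (.g (nat_lit 1) (.e (nat_lit 251505) (nat_lit 0) .nil) .nil))) 
(.lf (nat_lit 533089) (.g (nat_lit 3040) (.e (nat_lit 57388) (nat_lit 5) (.e (nat_lit 114714) (nat_lit 22) (.e (nat_lit 90160) (nat_lit 11) (.e (nat_lit 24648) (nat_lit 12) (.e (nat_lit 385066) (nat_lit 26) (.e (nat_lit 540416) (nat_lit 18) (.e (nat_lit 164399) (nat_lit 256) .nil))))))) (.g (nat_lit 1) (.e (nat_lit 252266) (nat_lit 0) .nil) .nil)))) (.nd (nat_lit 9) 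
(.lf (nat_lit 532833) (.g (nat_lit 3179) (.e (nat_lit 57388) (nat_lit 5) (.e (nat_lit 114697) (nat_lit 11) (.e (nat_lit 426188) (nat_lit 9) (.e (nat_lit 426555) (nat_lit 32) (.e (nat_lit 376857) (nat_lit 21) (.e (nat_lit 57853) (nat_lit 252) .nil)))))) (.g (nat_lit 1) (.e (nat_lit 251817) (nat_lit 0) .nil) .nil))) 
(.lf (nat_lit 533345) (.g (nat_lit 2291) (.e (nat_lit 57400) (nat_lit 10) (.e (nat_lit 319490) (nat_lit 0) (.e (nat_lit 5664) (nat_lit 312) (.e (nat_lit 2852) (nat_lit 184) (.e (nat_lit 426542) (nat_lit 29) (.e (nat_lit 352318) (nat_lit 24) (.e (nat_lit 123198) (nat_lit 266) .nil))))))) (.g (nat_lit 1) (.e (nat_lit 252713) (nat_lit 0) .nil) .nil))))) (.nd (nat_lit 8) (.nd (nat_lit 9) 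
(.lf (nat_lit 532705) (.g (nat_lit 2033) (.e (nat_lit 57379) (nat_lit 3) (.e (nat_lit 98367) (nat_lit 27) (.e (nat_lit 434231) (nat_lit 23) (.e (nat_lit 532507) (nat_lit 2) (.e (nat_lit 114432) (nat_lit 13) .nil))))) (.g (nat_lit 0) (.e (nat_lit 251633) (nat_lit 0) .nil) .nil))) 
(.lf (nat_lit 533217) (.g (nat_lit 3664) (.e (nat_lit 57389) (nat_lit 5) (.e (nat_lit 114698) (nat_lit 11) (.e (nat_lit 426198) (nat_lit 9) (.e (nat_lit 426542) (nat_lit 29) (.e (nat_lit 352307) (nat_lit 21) (.e (nat_lit 57854) (nat_lit 252) .nil)))))) (.g (nat_lit 1) (.e (nat_lit 252475) (nat_lit 0) .nil) .nil)))) (.nd (nat_lit 9) 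
(.lf (nat_lit 532961) (.g (nat_lit 3113) (.e (nat_lit 57388) (nat_lit 5) (.e (nat_lit 114698) (nat_lit 11) (.e (nat_lit 426190) (nat_lit 9) (.e (nat_lit 426555) (nat_lit 32) (.e (nat_lit 376857) (nat_lit 21) (.e (nat_lit 57851) (nat_lit 252) .nil)))))) (.g (nat_lit 1) (.e (nat_lit 252037) (nat_lit 0) .nil) .nil))) 
(.lf (nat_lit 533473) (.g (nat_lit 1669) (.e (nat_lit 57406) (nat_lit 12) (.e (nat_lit 336454) (nat_lit 34) (.e (nat_lit 483406) (nat_lit 26) (.e (nat_lit 385064) (nat_lit 26) .nil)))) (.g (nat_lit 0) (.e (nat_lit 252941) (nat_lit 0) .nil) .nil)))))))) (.nd (nat_lit 5) (.nd (nat_lit 6) (.nd (nat_lit 7) (.nd (nat_lit 8) (.nd (nat_lit 9) 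
(.lf (nat_lit 532497) (.g (nat_lit 3887) (.e (nat_lit 57379) (nat_lit 3) (.e (nat_lit 98342) (nat_lit 20) (.e (nat_lit 221215) (nat_lit 23) (.e (nat_lit 204861) (nat_lit 26) (.e (nat_lit 336025) (nat_lit 3) (.e (nat_lit 98333) (nat_lit 18) (.e (nat_lit 164182) (nat_lit 154) .nil))))))) (.g (nat_lit 1) (.e (nat_lit 251425) (nat_lit 0) .nil) .nil))) 
(.lf (nat_lit 533009) (.g (nat_lit 3776) (.e (nat_lit 57388) (nat_lit 5) (.e (nat_lit 114698) (nat_lit 11) (.e (nat_lit 426198) (nat_lit 9) (.e (nat_lit 426542) (nat_lit 29) (.e (nat_lit 352307) (nat_lit 21) (.e (nat_lit 57854) (nat_lit 252) .nil)))))) (.g (nat_lit 1) (.e (nat_lit 252085) (nat_lit 0) .nil) .nil)))) (.nd (nat_lit 9) 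
(.lf (nat_lit 532753) (.g (nat_lit 3078) (.e (nat_lit 57379) (nat_lit 3) (.e (nat_lit 98368) (nat_lit 27) (.e (nat_lit 434245) (nat_lit 28) (.e (nat_lit 573488) (nat_lit 14) (.e (nat_lit 73755) (nat_lit 8) (.e (nat_lit 557090) (nat_lit 12) (.e (nat_lit 163844) (nat_lit 0) (.e (nat_lit 5940) (nat_lit 322) .nil)))))))) (.g (nat_lit 1) (.e (nat_lit 251681) (nat_lit 0) .nil) .nil))) 
(.lf (nat_lit 533265) (.g (nat_lit 2542) (.e (nat_lit 57389) (nat_lit 5) (.e (nat_lit 114698) (nat_lit 11) (.e (nat_lit 426334) (nat_lit 13) (.e (nat_lit 483393) (nat_lit 23) (.e (nat_lit 335987) (nat_lit 1) (.e (nat_lit 57852) (nat_lit 252) .nil)))))) (.g (nat_lit 1) (.e (nat_lit 252552) (nat_lit 0) .nil) .nil))))) (.nd (nat_lit 8) (.nd (nat_lit 9) 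
(.lf (nat_lit 532625) (.g (nat_lit 3196) (.e (nat_lit 57379) (nat_lit 3) (.e (nat_lit 98366) (nat_lit 27) (.e (nat_lit 434244) (nat_lit 28) (.e (nat_lit 573487) (nat_lit 14) (.e (nat_lit 73753) (nat_lit 8) (.e (nat_lit 557089) (nat_lit 12) (.e (nat_lit 163844) (nat_lit 0) (.e (nat_lit 5943) (nat_lit 322) .nil)))))))) (.g (nat_lit 1) (.e (nat_lit 251553) (nat_lit 0) .nil) .nil))) 
(.lf (nat_lit 533137) (.g (nat_lit 3169) (.e (nat_lit 57389) (nat_lit 5) (.e (nat_lit 114697) (nat_lit 11) (.e (nat_lit 426198) (nat_lit 9) (.e (nat_lit 426542) (nat_lit 29) (.e (nat_lit 352307) (nat_lit 21) (.e (nat_lit 57844) (nat_lit 252) .nil)))))) (.g (nat_lit 1) (.e (nat_lit 252329) (nat_lit 0) .nil) .nil)))) (.nd (nat_lit 9) 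
(.lf (nat_lit 532881) (.g (nat_lit 2677) (.e (nat_lit 57388) (nat_lit 5) (.e (nat_lit 114697) (nat_lit 11) (.e (nat_lit 426198) (nat_lit 9) (.e (nat_lit 426555) (nat_lit 32) (.e (nat_lit 376857) (nat_lit 21) (.e (nat_lit 57848) (nat_lit 252) .nil)))))) (.g (nat_lit 1) (.e (nat_lit 251865) (nat_lit 0) .nil) .nil))) 
(.lf (nat_lit 533393) (.g (nat_lit 3169) (.e (nat_lit 57406) (nat_lit 12) (.e (nat_lit 336019) (nat_lit 3) (.e (nat_lit 98359) (nat_lit 26) (.e (nat_lit 426286) (nat_lit 10) (.e (nat_lit 434248) (nat_lit 28) (.e (nat_lit 573473) (nat_lit 12) (.e (nat_lit 57353) (nat_lit 0) (.e (nat_lit 7265) (nat_lit 384) .nil)))))))) (.g (nat_lit 1) (.e (nat_lit 252829) (nat_lit 0) .nil) .nil)))))) 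
(.nd (nat_lit 7) (.nd (nat_lit 8) (.nd (nat_lit 9) 
(.lf (nat_lit 532561) (.g (nat_lit 1925) (.e (nat_lit 57379) (nat_lit 3) (.e (nat_lit 98365) (nat_lit 26) (.e (nat_lit 426325) (nat_lit 13) (.e (nat_lit 483337) (nat_lit 9) (.e (nat_lit 426099) (nat_lit 1) (.e (nat_lit 164397) (nat_lit 256) .nil)))))) (.g (nat_lit 1) (.e (nat_lit 251489) (nat_lit 0) .nil) .nil))) 
(.lf (nat_lit 533073) (.g (nat_lit 2604) (.e (nat_lit 57388) (nat_lit 5) (.e (nat_lit 114698) (nat_lit 11) (.e (nat_lit 426327) (nat_lit 13) (.e (nat_lit 483393) (nat_lit 23) (.e (nat_lit 335987) (nat_lit 1) (.e (nat_lit 57852) (nat_lit 252) .nil)))))) (.g (nat_lit 1) (.e (nat_lit 252184) (nat_lit 0) .nil) .nil)))) (.nd (nat_lit 9) 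
(.lf (nat_lit 532817) (.g (nat_lit 2012) (.e (nat_lit 57388) (nat_lit 5) (.e (nat_lit 114696) (nat_lit 11) (.e (nat_lit 426234) (nat_lit 9) (.e (nat_lit 426554) (nat_lit 32) (.e (nat_lit 376860) (nat_lit 21) (.e (nat_lit 57852) (nat_lit 252) .nil)))))) (.g (nat_lit 1) (.e (nat_lit 251801) (nat_lit 0) .nil) .nil))) 
(.lf (nat_lit 533329) (.g (nat_lit 1620) (.e (nat_lit 57390) (nat_lit 5) (.e (nat_lit 114698) (nat_lit 11) (.e (nat_lit 426198) (nat_lit 9) (.e (nat_lit 426555) (nat_lit 32) (.e (nat_lit 376859) (nat_lit 21) (.e (nat_lit 57848) (nat_lit 252) .nil)))))) (.g (nat_lit 1) (.e (nat_lit 252667) (nat_lit 0) .nil) .nil))))) (.nd (nat_lit 8) (.nd (nat_lit 9) 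
(.lf (nat_lit 532689) (.g (nat_lit 2999) (.e (nat_lit 57379) (nat_lit 3) (.e (nat_lit 98366) (nat_lit 27) (.e (nat_lit 434248) (nat_lit 28) (.e (nat_lit 573489) (nat_lit 14) (.e (nat_lit 73755) (nat_lit 8) (.e (nat_lit 557090) (nat_lit 12) (.e (nat_lit 163840) (nat_lit 0) (.e (nat_lit 5943) (nat_lit 322) .nil)))))))) (.g (nat_lit 1) (.e (nat_lit 251617) (nat_lit 0) .nil) .nil))) 
(.lf (nat_lit 533201) (.g (nat_lit 516) (.e (nat_lit 57389) (nat_lit 5) (.e (nat_lit 114698) (nat_lit 11) (.e (nat_lit 426197) (nat_lit 9) .nil))) (.g (nat_lit 0) (.e (nat_lit 252459) (nat_lit 0) .nil) .nil)))) (.nd (nat_lit 9) 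
(.lf (nat_lit 532945) (.g (nat_lit 3174) (.e (nat_lit 57388) (nat_lit 5) (.e (nat_lit 114698) (nat_lit 11) (.e (nat_lit 426188) (nat_lit 9) (.e (nat_lit 426555) (nat_lit 32) (.e (nat_lit 376859) (nat_lit 21) (.e (nat_lit 57844) (nat_lit 252) .nil)))))) (.g (nat_lit 1) (.e (nat_lit 252021) (nat_lit 0) .nil) .nil))) 
(.lf (nat_lit 533457) (.g (nat_lit 2312) (.e (nat_lit 57406) (nat_lit 12) (.e (nat_lit 336443) (nat_lit 32) (.e (nat_lit 466977) (nat_lit 22) (.e (nat_lit 196656) (nat_lit 11) (.e (nat_lit 16404) (nat_lit 1) .nil))))) (.g (nat_lit 0) (.e (nat_lit 252924) (nat_lit 0) .nil) .nil))))))) (.nd (nat_lit 6) (.nd (nat_lit 7) (.nd (nat_lit 8) (.nd (nat_lit 9) 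
(.lf (nat_lit 532529) (.g (nat_lit 2849) (.e (nat_lit 57379) (nat_lit 3) (.e (nat_lit 98365) (nat_lit 26) (.e (nat_lit 426188) (nat_lit 9) (.e (nat_lit 426566) (nat_lit 34) (.e (nat_lit 393251) (nat_lit 18) (.e (nat_lit 164396) (nat_lit 256) .nil)))))) (.g (nat_lit 1) (.e (nat_lit 251457) (nat_lit 0) .nil) .nil))) 
(.lf (nat_lit 533041) (.g (nat_lit 3613) (.e (nat_lit 57388) (nat_lit 5) (.e (nat_lit 114698) (nat_lit 11) (.e (nat_lit 426199) (nat_lit 9) (.e (nat_lit 426555) (nat_lit 32) (.e (nat_lit 376857) (nat_lit 21) (.e (nat_lit 57854) (nat_lit 252) .nil)))))) (.g (nat_lit 1) (.e (nat_lit 252117) (nat_lit 0) .nil) .nil)))) (.nd (nat_lit 9) 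
(.lf (nat_lit 532785) (.g (nat_lit 2432) (.e (nat_lit 57383) (nat_lit 4) (.e (nat_lit 106534) (nat_lit 11) (.e (nat_lit 16433) (nat_lit 9) (.e (nat_lit 426538) (nat_lit 29) (.e (nat_lit 352309) (nat_lit 21) .nil))))) (.g (nat_lit 0) (.e (nat_lit 251741) (nat_lit 0) .nil) .nil))) 
(.lf (nat_lit 533297) (.g (nat_lit 2980) (.e (nat_lit 57390) (nat_lit 5) (.e (nat_lit 114697) (nat_lit 11) (.e (nat_lit 426190) (nat_lit 9) (.e (nat_lit 426555) (nat_lit 32) (.e (nat_lit 376857) (nat_lit 21) (.e (nat_lit 57846) (nat_lit 252) .nil)))))) (.g (nat_lit 1) (.e (nat_lit 252620) (nat_lit 0) .nil) .nil))))) (.nd (nat_lit 8) (.nd (nat_lit 9) 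
(.lf (nat_lit 532657) (.g (nat_lit 3837) (.e (nat_lit 57379) (nat_lit 3) (.e (nat_lit 98366) (nat_lit 27) (.e (nat_lit 434245) (nat_lit 28) (.e (nat_lit 573487) (nat_lit 14) (.e (nat_lit 73753) (nat_lit 8) (.e (nat_lit 557090) (nat_lit 12) (.e (nat_lit 163844) (nat_lit 0) (.e (nat_lit 5943) (nat_lit 322) .nil)))))))) (.g (nat_lit 1) (.e (nat_lit 251585) (nat_lit 0) .nil) .nil))) 
(.lf (nat_lit 533169) (.g (nat_lit 1573) (.e (nat_lit 57389) (nat_lit 5) (.e (nat_lit 114698) (nat_lit 11) (.e (nat_lit 426124) (nat_lit 2) .nil))) (.g (nat_lit 0) (.e (nat_lit 252413) (nat_lit 0) .nil) .nil)))) (.nd (nat_lit 9) 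
(.lf (nat_lit 532913) (.g (nat_lit 3212) (.e (nat_lit 57388) (nat_lit 5) (.e (nat_lit 114697) (nat_lit 11) (.e (nat_lit 426200) (nat_lit 9) (.e (nat_lit 426555) (nat_lit 32) (.e (nat_lit 376857) (nat_lit 21) (.e (nat_lit 57847) (nat_lit 252) .nil)))))) (.g (nat_lit 1) (.e (nat_lit 251898) (nat_lit 0) .nil) .nil))) 
(.lf (nat_lit 533425) (.g (nat_lit 2410) (.e (nat_lit 57406) (nat_lit 12) (.e (nat_lit 336146) (nat_lit 9) (.e (nat_lit 336390) (nat_lit 27) (.e (nat_lit 426011) (nat_lit 0) (.e (nat_lit 7593) (nat_lit 407) (.e (nat_lit 73729) (nat_lit 0) (.e (nat_lit 7265) (nat_lit 384) .nil))))))) (.g (nat_lit 1) (.e (nat_lit 252861) (nat_lit 0) .nil) .nil)))))) 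
(.nd (nat_lit 7) (.nd (nat_lit 8) (.nd (nat_lit 9) 
(.lf (nat_lit 532593) (.g (nat_lit 3287) (.e (nat_lit 57379) (nat_lit 3) (.e (nat_lit 98365) (nat_lit 26) (.e (nat_lit 426326) (nat_lit 13) (.e (nat_lit 483341) (nat_lit 9) (.e (nat_lit 426100) (nat_lit 1) (.e (nat_lit 164399) (nat_lit 256) .nil)))))) (.g (nat_lit 1) (.e (nat_lit 251521) (nat_lit 0) .nil) .nil))) 
(.lf (nat_lit 533105) (.g (nat_lit 2181) (.e (nat_lit 57389) (nat_lit 5) (.e (nat_lit 114695) (nat_lit 11) (.e (nat_lit 426262) (nat_lit 9) (.e (nat_lit 426554) (nat_lit 32) (.e (nat_lit 376860) (nat_lit 21) (.e (nat_lit 57852) (nat_lit 252) .nil)))))) (.g (nat_lit 1) (.e (nat_lit 252297) (nat_lit 0) .nil) .nil)))) (.nd (nat_lit 9) 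
(.lf (nat_lit 532849) (.g (nat_lit 2731) (.e (nat_lit 57388) (nat_lit 5) (.e (nat_lit 114697) (nat_lit 11) (.e (nat_lit 426190) (nat_lit 9) (.e (nat_lit 426555) (nat_lit 32) (.e (nat_lit 376857) (nat_lit 21) (.e (nat_lit 57851) (nat_lit 252) .nil)))))) (.g (nat_lit 1) (.e (nat_lit 251833) (nat_lit 0) .nil) .nil))) 
(.lf (nat_lit 533361) (.g (nat_lit 3374) (.e (nat_lit 57404) (nat_lit 12) (.e (nat_lit 336454) (nat_lit 34) (.e (nat_lit 483383) (nat_lit 23) (.e (nat_lit 336324) (nat_lit 18) (.e (nat_lit 204831) (nat_lit 18) (.e (nat_lit 57852) (nat_lit 252) .nil)))))) (.g (nat_lit 1) (.e (nat_lit 252754) (nat_lit 0) .nil) .nil))))) (.nd (nat_lit 8) (.nd (nat_lit 9) 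
(.lf (nat_lit 532721) (.g (nat_lit 2842) (.e (nat_lit 57379) (nat_lit 3) (.e (nat_lit 98367) (nat_lit 27) (.e (nat_lit 434244) (nat_lit 28) (.e (nat_lit 573488) (nat_lit 14) (.e (nat_lit 73755) (nat_lit 8) (.e (nat_lit 557090) (nat_lit 12) (.e (nat_lit 163841) (nat_lit 0) (.e (nat_lit 5940) (nat_lit 322) .nil)))))))) (.g (nat_lit 1) (.e (nat_lit 251649) (nat_lit 0) .nil) .nil))) 
(.lf (nat_lit 533233) (.g (nat_lit 3698) (.e (nat_lit 57389) (nat_lit 5) (.e (nat_lit 114698) (nat_lit 11) (.e (nat_lit 426198) (nat_lit 9) (.e (nat_lit 426555) (nat_lit 32) (.e (nat_lit 376860) (nat_lit 21) (.e (nat_lit 57852) (nat_lit 252) .nil)))))) (.g (nat_lit 1) (.e (nat_lit 252491) (nat_lit 0) .nil) .nil)))) (.nd (nat_lit 9) 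
(.lf (nat_lit 532977) (.g (nat_lit 1936) (.e (nat_lit 57388) (nat_lit 5) (.e (nat_lit 114698) (nat_lit 11) (.e (nat_lit 426197) (nat_lit 9) (.e (nat_lit 426546) (nat_lit 30) (.e (nat_lit 360452) (nat_lit 0) (.e (nat_lit 5194) (nat_lit 294) .nil)))))) (.g (nat_lit 1) (.e (nat_lit 252053) (nat_lit 0) .nil) .nil))) 
(.lf (nat_lit 533489) (.g (nat_lit 2044) (.e (nat_lit 57406) (nat_lit 12) (.e (nat_lit 336456) (nat_lit 34) (.e (nat_lit 483383) (nat_lit 23) (.e (nat_lit 336270) (nat_lit 15) (.e (nat_lit 3253) (nat_lit 197) .nil))))) (.g (nat_lit 0) (.e (nat_lit 252957) (nat_lit 0) .nil) .nil))))))))) (.nd (nat_lit 4) (.nd (nat_lit 5) (.nd (nat_lit 6) (.nd (nat_lit 7) (.nd (nat_lit 8) (.nd (nat_lit 9) 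
(.lf (nat_lit 532489) (.g (nat_lit 3338) (.e (nat_lit 57379) (nat_lit 3) (.e (nat_lit 98342) (nat_lit 20) (.e (nat_lit 221215) (nat_lit 23) (.e (nat_lit 204855) (nat_lit 26) (.e (nat_lit 336020) (nat_lit 3) (.e (nat_lit 98334) (nat_lit 18) (.e (nat_lit 164182) (nat_lit 154) .nil))))))) (.g (nat_lit 1) (.e (nat_lit 251417) (nat_lit 0) .nil) .nil))) 
(.lf (nat_lit 533001) (.g (nat_lit 1856) (.e (nat_lit 57388) (nat_lit 5) (.e (nat_lit 114698) (nat_lit 11) (.e (nat_lit 426198) (nat_lit 9) (.e (nat_lit 426538) (nat_lit 29) (.e (nat_lit 352307) (nat_lit 21) (.e (nat_lit 57848) (nat_lit 252) .nil)))))) (.g (nat_lit 1) (.e (nat_lit 252077) (nat_lit 0) .nil) .nil)))) (.nd (nat_lit 9) 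
(.lf (nat_lit 532745) (.g (nat_lit 2745) (.e (nat_lit 57379) (nat_lit 3) (.e (nat_lit 98367) (nat_lit 27) (.e (nat_lit 434248) (nat_lit 28) (.e (nat_lit 573489) (nat_lit 14) (.e (nat_lit 73755) (nat_lit 8) (.e (nat_lit 557090) (nat_lit 12) (.e (nat_lit 163840) (nat_lit 0) (.e (nat_lit 5943) (nat_lit 322) .nil)))))))) (.g (nat_lit 1) (.e (nat_lit 251673) (nat_lit 0) .nil) .nil))) 
(.lf (nat_lit 533257) (.g (nat_lit 3468) (.e (nat_lit 57389) (nat_lit 5) (.e (nat_lit 114698) (nat_lit 11) (.e (nat_lit 426200) (nat_lit 9) (.e (nat_lit 426555) (nat_lit 32) (.e (nat_lit 376859) (nat_lit 21) (.e (nat_lit 57853) (nat_lit 252) .nil)))))) (.g (nat_lit 1) (.e (nat_lit 252515) (nat_lit 0) .nil) .nil))))) (.nd (nat_lit 8) (.nd (nat_lit 9) 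
(.lf (nat_lit 532617) (.g (nat_lit 3890) (.e (nat_lit 57379) (nat_lit 3) (.e (nat_lit 98366) (nat_lit 27) (.e (nat_lit 434231) (nat_lit 23) (.e (nat_lit 532579) (nat_lit 26) (.e (nat_lit 426123) (nat_lit 2) (.e (nat_lit 196661) (nat_lit 12) (.e (nat_lit 57353) (nat_lit 0) (.e (nat_lit 7695) (nat_lit 412) .nil)))))))) (.g (nat_lit 1) (.e (nat_lit 251545) (nat_lit 0) .nil) .nil))) 
(.lf (nat_lit 533129) (.g (nat_lit 2813) (.e (nat_lit 57389) (nat_lit 5) (.e (nat_lit 114697) (nat_lit 11) (.e (nat_lit 426190) (nat_lit 9) (.e (nat_lit 426555) (nat_lit 32) (.e (nat_lit 376859) (nat_lit 21) (.e (nat_lit 57853) (nat_lit 252) .nil)))))) (.g (nat_lit 1) (.e (nat_lit 252321) (nat_lit 0) .nil) .nil)))) (.nd (nat_lit 9) 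
(.lf (nat_lit 532873) (.g (nat_lit 3471) (.e (nat_lit 57388) (nat_lit 5) (.e (nat_lit 114697) (nat_lit 11) (.e (nat_lit 426198) (nat_lit 9) (.e (nat_lit 426542) (nat_lit 29) (.e (nat_lit 352307) (nat_lit 21) (.e (nat_lit 57854) (nat_lit 252) .nil)))))) (.g (nat_lit 1) (.e (nat_lit 251857) (nat_lit 0) .nil) .nil))) 
(.lf (nat_lit 533385) (.g (nat_lit 3504) (.e (nat_lit 57406) (nat_lit 12) (.e (nat_lit 336018) (nat_lit 3) (.e (nat_lit 98373) (nat_lit 29) (.e (nat_lit 450587) (nat_lit 10) (.e (nat_lit 573477) (nat_lit 12) .nil))))) (.g (nat_lit 0) (.e (nat_lit 252821) (nat_lit 0) .nil) .nil)))))) (.nd (nat_lit 7) (.nd (nat_lit 8) (.nd (nat_lit 9) 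
(.lf (nat_lit 532553) (.g (nat_lit 2216) (.e (nat_lit 57379) (nat_lit 3) (.e (nat_lit 98365) (nat_lit 26) (.e (nat_lit 426325) (nat_lit 13) (.e (nat_lit 483337) (nat_lit 9) (.e (nat_lit 426031) (nat_lit 0) (.e (nat_lit 2466) (nat_lit 157) (.e (nat_lit 5938) (nat_lit 322) .nil))))))) (.g (nat_lit 1) (.e (nat_lit 251481) (nat_lit 0) .nil) .nil))) 
(.lf (nat_lit 533065) (.g (nat_lit 4003) (.e (nat_lit 57388) (nat_lit 5) (.e (nat_lit 114698) (nat_lit 11) (.e (nat_lit 426200) (nat_lit 9) (.e (nat_lit 426555) (nat_lit 32) (.e (nat_lit 376860) (nat_lit 21) (.e (nat_lit 57852) (nat_lit 252) .nil)))))) (.g (nat_lit 1) (.e (nat_lit 252141) (nat_lit 0) .nil) .nil)))) (.nd (nat_lit 9) 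
(.lf (nat_lit 532809) (.g (nat_lit 2050) (.e (nat_lit 57388) (nat_lit 5) (.e (nat_lit 114696) (nat_lit 11) (.e (nat_lit 426232) (nat_lit 9) (.e (nat_lit 426554) (nat_lit 32) (.e (nat_lit 376857) (nat_lit 21) (.e (nat_lit 57853) (nat_lit 252) .nil)))))) (.g (nat_lit 1) (.e (nat_lit 251793) (nat_lit 0) .nil) .nil))) 
(.lf (nat_lit 533321) (.g (nat_lit 2800) (.e (nat_lit 57390) (nat_lit 5) (.e (nat_lit 114698) (nat_lit 11) (.e (nat_lit 426188) (nat_lit 9) (.e (nat_lit 426555) (nat_lit 32) (.e (nat_lit 376857) (nat_lit 21) (.e (nat_lit 57846) (nat_lit 252) .nil)))))) (.g (nat_lit 1) (.e (nat_lit 252659) (nat_lit 0) .nil) .nil))))) (.nd (nat_lit 8) (.nd (nat_lit 9) 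
(.lf (nat_lit 532681) (.g (nat_lit 4147) (.e (nat_lit 57379) (nat_lit 3) (.e (nat_lit 98366) (nat_lit 27) (.e (nat_lit 434248) (nat_lit 28) (.e (nat_lit 573487) (nat_lit 14) (.e (nat_lit 73753) (nat_lit 8) (.e (nat_lit 557090) (nat_lit 12) (.e (nat_lit 163850) (nat_lit 0) (.e (nat_lit 5939) (nat_lit 322) .nil)))))))) (.g (nat_lit 1) (.e (nat_lit 251609) (nat_lit 0) .nil) .nil))) 
(.lf (nat_lit 533193) (.g (nat_lit 3426) (.e (nat_lit 57389) (nat_lit 5) (.e (nat_lit 114698) (nat_lit 11) (.e (nat_lit 426190) (nat_lit 9) (.e (nat_lit 426555) (nat_lit 32) (.e (nat_lit 376859) (nat_lit 21) (.e (nat_lit 57844) (nat_lit 252) .nil)))))) (.g (nat_lit 1) (.e (nat_lit 252451) (nat_lit 0) .nil) .nil)))) (.nd (nat_lit 9) 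
(.lf (nat_lit 532937) (.g (nat_lit 1574) (.e (nat_lit 57388) (nat_lit 5) (.e (nat_lit 114698) (nat_lit 11) (.e (nat_lit 426188) (nat_lit 9) (.e (nat_lit 426546) (nat_lit 30) .nil)))) (.g (nat_lit 0) (.e (nat_lit 252013) (nat_lit 0) .nil) .nil))) 
(.lf (nat_lit 533449) (.g (nat_lit 1851) (.e (nat_lit 57406) (nat_lit 12) (.e (nat_lit 336377) (nat_lit 27) (.e (nat_lit 426524) (nat_lit 27) (.e (nat_lit 336086) (nat_lit 9) (.e (nat_lit 336324) (nat_lit 18) (.e (nat_lit 204831) (nat_lit 18) (.e (nat_lit 57851) (nat_lit 252) .nil))))))) (.g (nat_lit 1) (.e (nat_lit 252916) (nat_lit 0) .nil) .nil))))))) 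
(.nd (nat_lit 6) (.nd (nat_lit 7) (.nd (nat_lit 8) (.nd (nat_lit 9) 
(.lf (nat_lit 532521) (.g (nat_lit 2994) (.e (nat_lit 57379) (nat_lit 3) (.e (nat_lit 98358) (nat_lit 26) (.e (nat_lit 426323) (nat_lit 13) (.e (nat_lit 483337) (nat_lit 9) (.e (nat_lit 426100) (nat_lit 1) (.e (nat_lit 164398) (nat_lit 256) .nil)))))) (.g (nat_lit 1) (.e (nat_lit 251449) (nat_lit 0) .nil) .nil))) 
(.lf (nat_lit 533033) (.g (nat_lit 2492) (.e (nat_lit 57388) (nat_lit 5) (.e (nat_lit 114698) (nat_lit 11) (.e (nat_lit 426199) (nat_lit 9) (.e (nat_lit 426555) (nat_lit 32) (.e (nat_lit 376856) (nat_lit 21) .nil))))) (.g (nat_lit 0) (.e (nat_lit 252109) (nat_lit 0) .nil) .nil)))) (.nd (nat_lit 9) 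
(.lf (nat_lit 532777) (.g (nat_lit 1297) (.e (nat_lit 57382) (nat_lit 4) (.e (nat_lit 106536) (nat_lit 11) (.e (nat_lit 16431) (nat_lit 9) .nil))) (.g (nat_lit 0) (.e (nat_lit 251724) (nat_lit 0) .nil) .nil))) 
(.lf (nat_lit 533289) (.g (nat_lit 1844) (.e (nat_lit 57390) (nat_lit 5) (.e (nat_lit 114695) (nat_lit 11) (.e (nat_lit 426234) (nat_lit 9) (.e (nat_lit 426554) (nat_lit 32) (.e (nat_lit 376857) (nat_lit 21) (.e (nat_lit 57846) (nat_lit 252) .nil)))))) (.g (nat_lit 1) (.e (nat_lit 252612) (nat_lit 0) .nil) .nil))))) (.nd (nat_lit 8) (.nd (nat_lit 9) 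
(.lf (nat_lit 532649) (.g (nat_lit 3221) (.e (nat_lit 57379) (nat_lit 3) (.e (nat_lit 98366) (nat_lit 27) (.e (nat_lit 434244) (nat_lit 28) (.e (nat_lit 573488) (nat_lit 14) (.e (nat_lit 73755) (nat_lit 8) (.e (nat_lit 557090) (nat_lit 12) (.e (nat_lit 171776) (nat_lit 0) (.e (nat_lit 5937) (nat_lit 322) .nil)))))))) (.g (nat_lit 1) (.e (nat_lit 251577) (nat_lit 0) .nil) .nil))) 
(.lf (nat_lit 533161) (.g (nat_lit 3567) (.e (nat_lit 57389) (nat_lit 5) (.e (nat_lit 114697) (nat_lit 11) (.e (nat_lit 426199) (nat_lit 9) (.e (nat_lit 426555) (nat_lit 32) (.e (nat_lit 376860) (nat_lit 21) (.e (nat_lit 57853) (nat_lit 252) .nil)))))) (.g (nat_lit 1) (.e (nat_lit 252353) (nat_lit 0) .nil) .nil)))) (.nd (nat_lit 9) 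
(.lf (nat_lit 532905) (.g (nat_lit 2952) (.e (nat_lit 57388) (nat_lit 5) (.e (nat_lit 114697) (nat_lit 11) (.e (nat_lit 426199) (nat_lit 9) (.e (nat_lit 426555) (nat_lit 32) (.e (nat_lit 376859) (nat_lit 21) (.e (nat_lit 57846) (nat_lit 252) .nil)))))) (.g (nat_lit 1) (.e (nat_lit 251890) (nat_lit 0) .nil) .nil))) 
(.lf (nat_lit 533417) (.g (nat_lit 4973) (.e (nat_lit 57406) (nat_lit 12) (.e (nat_lit 336019) (nat_lit 3) (.e (nat_lit 98373) (nat_lit 29) (.e (nat_lit 450588) (nat_lit 10) (.e (nat_lit 573475) (nat_lit 12) (.e (nat_lit 57347) (nat_lit 0) (.e (nat_lit 7266) (nat_lit 384) .nil))))))) (.g (nat_lit 1) (.e (nat_lit 252853) (nat_lit 0) .nil) .nil)))))) 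
(.nd (nat_lit 7) (.nd (nat_lit 8) (.nd (nat_lit 9) 
(.lf (nat_lit 532585) (.g (nat_lit 3322) (.e (nat_lit 57379) (nat_lit 3) (.e (nat_lit 98365) (nat_lit 26) (.e (nat_lit 426325) (nat_lit 13) (.e (nat_lit 483341) (nat_lit 9) (.e (nat_lit 426098) (nat_lit 1) (.e (nat_lit 164399) (nat_lit 256) .nil)))))) (.g (nat_lit 1) (.e (nat_lit 251513) (nat_lit 0) .nil) .nil))) 
(.lf (nat_lit 533097) (.g (nat_lit 1968) (.e (nat_lit 57389) (nat_lit 5) (.e (nat_lit 114694) (nat_lit 11) (.e (nat_lit 426200) (nat_lit 9) (.e (nat_lit 426555) (nat_lit 32) (.e (nat_lit 376859) (nat_lit 21) (.e (nat_lit 57846) (nat_lit 252) .nil)))))) (.g (nat_lit 1) (.e (nat_lit 252277) (nat_lit 0) .nil) .nil)))) (.nd (nat_lit 9) 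
(.lf (nat_lit 532841) (.g (nat_lit 2987) (.e (nat_lit 57388) (nat_lit 5) (.e (nat_lit 114697) (nat_lit 11) (.e (nat_lit 426188) (nat_lit 9) (.e (nat_lit 426555) (nat_lit 32) (.e (nat_lit 376860) (nat_lit 21) (.e (nat_lit 57852) (nat_lit 252) .nil)))))) (.g (nat_lit 1) (.e (nat_lit 251825) (nat_lit 0) .nil) .nil))) 
(.lf (nat_lit 533353) (.g (nat_lit 2168) (.e (nat_lit 57400) (nat_lit 10) (.e (nat_lit 319490) (nat_lit 0) (.e (nat_lit 5664) (nat_lit 312) (.e (nat_lit 3085) (nat_lit 191) (.e (nat_lit 483390) (nat_lit 23) (.e (nat_lit 336030) (nat_lit 4) (.e (nat_lit 123195) (nat_lit 266) .nil))))))) (.g (nat_lit 1) (.e (nat_lit 252721) (nat_lit 0) .nil) .nil))))) (.nd (nat_lit 8) (.nd (nat_lit 9) 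
(.lf (nat_lit 532713) (.g (nat_lit 2608) (.e (nat_lit 57379) (nat_lit 3) (.e (nat_lit 98367) (nat_lit 27) (.e (nat_lit 434231) (nat_lit 23) (.e (nat_lit 532514) (nat_lit 3) (.e (nat_lit 114715) (nat_lit 22) (.e (nat_lit 90165) (nat_lit 12) (.e (nat_lit 171776) (nat_lit 0) (.e (nat_lit 5937) (nat_lit 322) .nil)))))))) (.g (nat_lit 1) (.e (nat_lit 251641) (nat_lit 0) .nil) .nil))) 
(.lf (nat_lit 533225) (.g (nat_lit 3399) (.e (nat_lit 57389) (nat_lit 5) (.e (nat_lit 114698) (nat_lit 11) (.e (nat_lit 426198) (nat_lit 9) (.e (nat_lit 426555) (nat_lit 32) (.e (nat_lit 376857) (nat_lit 21) (.e (nat_lit 57852) (nat_lit 252) .nil)))))) (.g (nat_lit 1) (.e (nat_lit 252483) (nat_lit 0) .nil) .nil)))) (.nd (nat_lit 9) 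
(.lf (nat_lit 532969) (.g (nat_lit 3478) (.e (nat_lit 57388) (nat_lit 5) (.e (nat_lit 114698) (nat_lit 11) (.e (nat_lit 426190) (nat_lit 9) (.e (nat_lit 426555) (nat_lit 32) (.e (nat_lit 376860) (nat_lit 21) (.e (nat_lit 57852) (nat_lit 252) .nil)))))) (.g (nat_lit 1) (.e (nat_lit 252045) (nat_lit 0) .nil) .nil))) 
(.lf (nat_lit 533481) (.g (nat_lit 3298) (.e (nat_lit 57406) (nat_lit 12) (.e (nat_lit 336456) (nat_lit 34) (.e (nat_lit 483380) (nat_lit 23) (.e (nat_lit 336324) (nat_lit 18) (.e (nat_lit 204831) (nat_lit 18) (.e (nat_lit 57846) (nat_lit 252) .nil)))))) (.g (nat_lit 1) (.e (nat_lit 252949) (nat_lit 0) .nil) .nil)))))))) 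
(.nd (nat_lit 5) (.nd (nat_lit 6) (.nd (nat_lit 7) (.nd (nat_lit 8) (.nd (nat_lit 9) 
(.lf (nat_lit 532505) (.g (nat_lit 3182) (.e (nat_lit 57379) (nat_lit 3) (.e (nat_lit 98342) (nat_lit 20) (.e (nat_lit 221215) (nat_lit 23) (.e (nat_lit 204862) (nat_lit 27) (.e (nat_lit 344117) (nat_lit 21) (.e (nat_lit 516106) (nat_lit 0) (.e (nat_lit 2478) (nat_lit 157) (.e (nat_lit 6400) (nat_lit 339) .nil)))))))) (.g (nat_lit 1) (.e (nat_lit 251433) (nat_lit 0) .nil) .nil))) 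
(.lf (nat_lit 533017) (.g (nat_lit 3404) (.e (nat_lit 57388) (nat_lit 5) (.e (nat_lit 114698) (nat_lit 11) (.e (nat_lit 426198) (nat_lit 9) (.e (nat_lit 426555) (nat_lit 32) (.e (nat_lit 376857) (nat_lit 21) (.e (nat_lit 57847) (nat_lit 252) .nil)))))) (.g (nat_lit 1) (.e (nat_lit 252093) (nat_lit 0) .nil) .nil)))) (.nd (nat_lit 9) 
(.lf (nat_lit 532761) (.g (nat_lit 2976) (.e (nat_lit 57379) (nat_lit 3) (.e (nat_lit 98368) (nat_lit 27) (.e (nat_lit 434248) (nat_lit 28) (.e (nat_lit 573489) (nat_lit 14) (.e (nat_lit 73755) (nat_lit 8) (.e (nat_lit 557090) (nat_lit 12) (.e (nat_lit 163841) (nat_lit 0) (.e (nat_lit 5940) (nat_lit 322) .nil)))))))) (.g (nat_lit 1) (.e (nat_lit 251689) (nat_lit 0) .nil) .nil))) 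
(.lf (nat_lit 533273) (.g (nat_lit 3813) (.e (nat_lit 57389) (nat_lit 5) (.e (nat_lit 114712) (nat_lit 21) (.e (nat_lit 57929) (nat_lit 282) (.e (nat_lit 163923) (nat_lit 15) (.e (nat_lit 450587) (nat_lit 10) (.e (nat_lit 573477) (nat_lit 12) (.e (nat_lit 57360) (nat_lit 0) (.e (nat_lit 5949) (nat_lit 322) .nil)))))))) (.g (nat_lit 1) (.e (nat_lit 252590) (nat_lit 0) .nil) .nil))))) 
(.nd (nat_lit 8) (.nd (nat_lit 9) 
(.lf (nat_lit 532633) (.g (nat_lit 2803) (.e (nat_lit 57379) (nat_lit 3) (.e (nat_lit 98366) (nat_lit 27) (.e (nat_lit 434244) (nat_lit 28) (.e (nat_lit 573487) (nat_lit 14) (.e (nat_lit 73753) (nat_lit 8) (.e (nat_lit 557091) (nat_lit 12) (.e (nat_lit 163841) (nat_lit 0) (.e (nat_lit 5933) (nat_lit 322) .nil)))))))) (.g (nat_lit 1) (.e (nat_lit 251561) (nat_lit 0) .nil) .nil))) 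
(.lf (nat_lit 533145) (.g (nat_lit 3404) (.e (nat_lit 57389) (nat_lit 5) (.e (nat_lit 114697) (nat_lit 11) (.e (nat_lit 426198) (nat_lit 9) (.e (nat_lit 426555) (nat_lit 32) (.e (nat_lit 376857) (nat_lit 21) (.e (nat_lit 57853) (nat_lit 252) .nil)))))) (.g (nat_lit 1) (.e (nat_lit 252337) (nat_lit 0) .nil) .nil)))) (.nd (nat_lit 9) 
(.lf (nat_lit 532889) (.g (nat_lit 2295) (.e (nat_lit 57388) (nat_lit 5) (.e (nat_lit 114697) (nat_lit 11) (.e (nat_lit 426198) (nat_lit 9) (.e (nat_lit 426555) (nat_lit 32) (.e (nat_lit 376859) (nat_lit 21) (.e (nat_lit 57851) (nat_lit 252) .nil)))))) (.g (nat_lit 1) (.e (nat_lit 251873) (nat_lit 0) .nil) .nil))) 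
(.lf (nat_lit 533401) (.g (nat_lit 4966) (.e (nat_lit 57406) (nat_lit 12) (.e (nat_lit 336019) (nat_lit 3) (.e (nat_lit 98372) (nat_lit 29) (.e (nat_lit 450588) (nat_lit 10) (.e (nat_lit 573473) (nat_lit 12) (.e (nat_lit 57353) (nat_lit 0) (.e (nat_lit 7265) (nat_lit 384) .nil))))))) (.g (nat_lit 1) (.e (nat_lit 252837) (nat_lit 0) .nil) .nil)))))) 
(.nd (nat_lit 7) (.nd (nat_lit 8) (.nd (nat_lit 9) 
(.lf (nat_lit 532569) (.g (nat_lit 2242) (.e (nat_lit 57379) (nat_lit 3) (.e (nat_lit 98365) (nat_lit 26) (.e (nat_lit 426325) (nat_lit 13) (.e (nat_lit 483340) (nat_lit 9) .nil)))) (.g (nat_lit 0) (.e (nat_lit 251497) (nat_lit 0) .nil) .nil))) 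
(.lf (nat_lit 533081) (.g (nat_lit 1730) (.e (nat_lit 57388) (nat_lit 5) (.e (nat_lit 114710) (nat_lit 21) (.e (nat_lit 57852) (nat_lit 252) (.e (nat_lit 65280) (nat_lit 66) .nil)))) (.g (nat_lit 0) (.e (nat_lit 252252) (nat_lit 0) .nil) .nil)))) (.nd (nat_lit 9) 
(.lf (nat_lit 532825) (.g (nat_lit 2052) (.e (nat_lit 57388) (nat_lit 5) (.e (nat_lit 114696) (nat_lit 11) (.e (nat_lit 426262) (nat_lit 9) (.e (nat_lit 426554) (nat_lit 32) (.e (nat_lit 376860) (nat_lit 21) (.e (nat_lit 57852) (nat_lit 252) .nil)))))) (.g (nat_lit 1) (.e (nat_lit 251809) (nat_lit 0) .nil) .nil))) 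
(.lf (nat_lit 533337) (.g (nat_lit 1664) (.e (nat_lit 57390) (nat_lit 5) (.e (nat_lit 114712) (nat_lit 21) (.e (nat_lit 57852) (nat_lit 252) (.e (nat_lit 65280) (nat_lit 66) .nil)))) (.g (nat_lit 0) (.e (nat_lit 252695) (nat_lit 0) .nil) .nil))))) (.nd (nat_lit 8) (.nd (nat_lit 9) 
(.lf (nat_lit 532697) (.g (nat_lit 3125) (.e (nat_lit 57379) (nat_lit 3) (.e (nat_lit 98366) (nat_lit 27) (.e (nat_lit 434248) (nat_lit 28) (.e (nat_lit 573489) (nat_lit 14) (.e (nat_lit 73755) (nat_lit 8) (.e (nat_lit 557090) (nat_lit 12) (.e (nat_lit 163845) (nat_lit 0) (.e (nat_lit 5943) (nat_lit 322) .nil)))))))) (.g (nat_lit 1) (.e (nat_lit 251625) (nat_lit 0) .nil) .nil))) 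
(.lf (nat_lit 533209) (.g (nat_lit 2839) (.e (nat_lit 57389) (nat_lit 5) (.e (nat_lit 114698) (nat_lit 11) (.e (nat_lit 426197) (nat_lit 9) (.e (nat_lit 426555) (nat_lit 32) (.e (nat_lit 376859) (nat_lit 21) (.e (nat_lit 57851) (nat_lit 252) .nil)))))) (.g (nat_lit 1) (.e (nat_lit 252467) (nat_lit 0) .nil) .nil)))) (.nd (nat_lit 9) 
(.lf (nat_lit 532953) (.g (nat_lit 3600) (.e (nat_lit 57388) (nat_lit 5) (.e (nat_lit 114698) (nat_lit 11) (.e (nat_lit 426188) (nat_lit 9) (.e (nat_lit 426555) (nat_lit 32) (.e (nat_lit 376860) (nat_lit 21) (.e (nat_lit 57852) (nat_lit 252) .nil)))))) (.g (nat_lit 1) (.e (nat_lit 252029) (nat_lit 0) .nil) .nil))) 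
(.lf (nat_lit 533465) (.g (nat_lit 2253) (.e (nat_lit 57406) (nat_lit 12) (.e (nat_lit 336454) (nat_lit 34) (.e (nat_lit 483385) (nat_lit 23) (.e (nat_lit 336240) (nat_lit 15) (.e (nat_lit 3248) (nat_lit 197) .nil))))) (.g (nat_lit 0) (.e (nat_lit 252933) (nat_lit 0) .nil) .nil))))))) (.nd (nat_lit 6) (.nd (nat_lit 7) (.nd (nat_lit 8) (.nd (nat_lit 9) 
(.lf (nat_lit 532537) (.g (nat_lit 2596) (.e (nat_lit 57379) (nat_lit 3) (.e (nat_lit 98365) (nat_lit 26) (.e (nat_lit 426188) (nat_lit 9) (.e (nat_lit 426568) (nat_lit 34) (.e (nat_lit 393252) (nat_lit 18) (.e (nat_lit 164397) (nat_lit 256) .nil)))))) (.g (nat_lit 1) (.e (nat_lit 251465) (nat_lit 0) .nil) .nil))) 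
(.lf (nat_lit 533049) (.g (nat_lit 3950) (.e (nat_lit 57388) (nat_lit 5) (.e (nat_lit 114698) (nat_lit 11) (.e (nat_lit 426199) (nat_lit 9) (.e (nat_lit 426555) (nat_lit 32) (.e (nat_lit 376860) (nat_lit 21) (.e (nat_lit 57853) (nat_lit 252) .nil)))))) (.g (nat_lit 1) (.e (nat_lit 252125) (nat_lit 0) .nil) .nil)))) (.nd (nat_lit 9) 
(.lf (nat_lit 532793) (.g (nat_lit 2197) (.e (nat_lit 57388) (nat_lit 5) (.e (nat_lit 114694) (nat_lit 11) (.e (nat_lit 426200) (nat_lit 9) (.e (nat_lit 426555) (nat_lit 32) (.e (nat_lit 376857) (nat_lit 21) (.e (nat_lit 57853) (nat_lit 252) .nil)))))) (.g (nat_lit 1) (.e (nat_lit 251766) (nat_lit 0) .nil) .nil))) 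
(.lf (nat_lit 533305) (.g (nat_lit 2827) (.e (nat_lit 57390) (nat_lit 5) (.e (nat_lit 114697) (nat_lit 11) (.e (nat_lit 426198) (nat_lit 9) (.e (nat_lit 426555) (nat_lit 32) (.e (nat_lit 376857) (nat_lit 21) (.e (nat_lit 57847) (nat_lit 252) .nil)))))) (.g (nat_lit 1) (.e (nat_lit 252629) (nat_lit 0) .nil) .nil))))) (.nd (nat_lit 8) (.nd (nat_lit 9) 
(.lf (nat_lit 532665) (.g (nat_lit 3913) (.e (nat_lit 57379) (nat_lit 3) (.e (nat_lit 98366) (nat_lit 27) (.e (nat_lit 434245) (nat_lit 28) (.e (nat_lit 573488) (nat_lit 14) (.e (nat_lit 73755) (nat_lit 8) (.e (nat_lit 557090) (nat_lit 12) (.e (nat_lit 163850) (nat_lit 0) (.e (nat_lit 5939) (nat_lit 322) .nil)))))))) (.g (nat_lit 1) (.e (nat_lit 251593) (nat_lit 0) .nil) .nil))) 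
(.lf (nat_lit 533177) (.g (nat_lit 3764) (.e (nat_lit 57389) (nat_lit 5) (.e (nat_lit 114698) (nat_lit 11) (.e (nat_lit 426188) (nat_lit 9) (.e (nat_lit 426555) (nat_lit 32) (.e (nat_lit 376857) (nat_lit 21) (.e (nat_lit 57854) (nat_lit 252) .nil)))))) (.g (nat_lit 1) (.e (nat_lit 252435) (nat_lit 0) .nil) .nil)))) (.nd (nat_lit 9) 
(.lf (nat_lit 532921) (.g (nat_lit 3099) (.e (nat_lit 57388) (nat_lit 5) (.e (nat_lit 114697) (nat_lit 11) (.e (nat_lit 426200) (nat_lit 9) (.e (nat_lit 426555) (nat_lit 32) (.e (nat_lit 376859) (nat_lit 21) (.e (nat_lit 57847) (nat_lit 252) .nil)))))) (.g (nat_lit 1) (.e (nat_lit 251906) (nat_lit 0) .nil) .nil))) 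
(.lf (nat_lit 533433) (.g (nat_lit 3403) (.e (nat_lit 57406) (nat_lit 12) (.e (nat_lit 336316) (nat_lit 17) (.e (nat_lit 196666) (nat_lit 13) (.e (nat_lit 65610) (nat_lit 10) (.e (nat_lit 344090) (nat_lit 18) (.e (nat_lit 7695) (nat_lit 412) (.e (nat_lit 57364) (nat_lit 1) (.e (nat_lit 57852) (nat_lit 252) .nil)))))))) (.g (nat_lit 1) (.e (nat_lit 252872) (nat_lit 0) .nil) .nil)))))) 
(.nd (nat_lit 7) (.nd (nat_lit 8) (.nd (nat_lit 9) 
(.lf (nat_lit 532601) (.g (nat_lit 2865) (.e (nat_lit 57379) (nat_lit 3) (.e (nat_lit 98366) (nat_lit 27) (.e (nat_lit 434231) (nat_lit 23) (.e (nat_lit 532513) (nat_lit 3) (.e (nat_lit 114714) (nat_lit 22) (.e (nat_lit 90181) (nat_lit 16) (.e (nat_lit 229376) (nat_lit 0) (.e (nat_lit 5937) (nat_lit 322) .nil)))))))) (.g (nat_lit 1) (.e (nat_lit 251529) (nat_lit 0) .nil) .nil))) 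
(.lf (nat_lit 533113) (.g (nat_lit 3111) (.e (nat_lit 57389) (nat_lit 5) (.e (nat_lit 114697) (nat_lit 11) (.e (nat_lit 426188) (nat_lit 9) (.e (nat_lit 426555) (nat_lit 32) (.e (nat_lit 376859) (nat_lit 21) (.e (nat_lit 57844) (nat_lit 252) .nil)))))) (.g (nat_lit 1) (.e (nat_lit 252305) (nat_lit 0) .nil) .nil)))) (.nd (nat_lit 9) 
(.lf (nat_lit 532857) (.g (nat_lit 2759) (.e (nat_lit 57388) (nat_lit 5) (.e (nat_lit 114697) (nat_lit 11) (.e (nat_lit 426190) (nat_lit 9) (.e (nat_lit 426555) (nat_lit 32) (.e (nat_lit 376860) (nat_lit 21) (.e (nat_lit 57851) (nat_lit 252) .nil)))))) (.g (nat_lit 1) (.e (nat_lit 251841) (nat_lit 0) .nil) .nil))) 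
(.lf (nat_lit 533369) (.g (nat_lit 5038) (.e (nat_lit 57405) (nat_lit 12) (.e (nat_lit 336019) (nat_lit 3) (.e (nat_lit 98373) (nat_lit 29) (.e (nat_lit 450588) (nat_lit 10) (.e (nat_lit 573475) (nat_lit 12) .nil))))) (.g (nat_lit 0) (.e (nat_lit 252782) (nat_lit 0) .nil) .nil))))) (.nd (nat_lit 8) (.nd (nat_lit 9) 
(.lf (nat_lit 532729) (.g (nat_lit 2758) (.e (nat_lit 57379) (nat_lit 3) (.e (nat_lit 98367) (nat_lit 27) (.e (nat_lit 434245) (nat_lit 28) (.e (nat_lit 573488) (nat_lit 14) (.e (nat_lit 73755) (nat_lit 8) (.e (nat_lit 557090) (nat_lit 12) (.e (nat_lit 163844) (nat_lit 0) (.e (nat_lit 5940) (nat_lit 322) .nil)))))))) (.g (nat_lit 1) (.e (nat_lit 251657) (nat_lit 0) .nil) .nil))) 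
(.lf (nat_lit 533241) (.g (nat_lit 3568) (.e (nat_lit 57389) (nat_lit 5) (.e (nat_lit 114698) (nat_lit 11) (.e (nat_lit 426199) (nat_lit 9) (.e (nat_lit 426555) (nat_lit 32) (.e (nat_lit 376859) (nat_lit 21) (.e (nat_lit 57844) (nat_lit 252) .nil)))))) (.g (nat_lit 1) (.e (nat_lit 252499) (nat_lit 0) .nil) .nil)))) (.nd (nat_lit 9) 
(.lf (nat_lit 532985) (.g (nat_lit 3427) (.e (nat_lit 57388) (nat_lit 5) (.e (nat_lit 114698) (nat_lit 11) (.e (nat_lit 426197) (nat_lit 9) (.e (nat_lit 426555) (nat_lit 32) (.e (nat_lit 376857) (nat_lit 21) (.e (nat_lit 57851) (nat_lit 252) .nil)))))) (.g (nat_lit 1) (.e (nat_lit 252061) (nat_lit 0) .nil) .nil))) 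
(.lf (nat_lit 533497) (.g (nat_lit 391) (.e (nat_lit 57406) (nat_lit 12) (.e (nat_lit 336456) (nat_lit 34) (.e (nat_lit 483389) (nat_lit 23) .nil))) (.g (nat_lit 0) (.e (nat_lit 252965) (nat_lit 0) .nil) .nil)))))))))) (.nd (nat_lit 3) (.nd (nat_lit 4) (.nd (nat_lit 5) (.nd (nat_lit 6) (.nd (nat_lit 7) (.nd (nat_lit 8) (.nd (nat_lit 9) 
(.lf (nat_lit 532485) (.g (nat_lit 2872) (.e (nat_lit 57379) (nat_lit 3) (.e (nat_lit 98342) (nat_lit 20) (.e (nat_lit 221212) (nat_lit 22) (.e (nat_lit 196681) (nat_lit 17) (.e (nat_lit 131097) (nat_lit 3) .nil))))) (.g (nat_lit 0) (.e (nat_lit 251413) (nat_lit 0) .nil) .nil))) 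
(.lf (nat_lit 532997) (.g (nat_lit 720) (.e (nat_lit 57388) (nat_lit 5) (.e (nat_lit 114698) (nat_lit 11) (.e (nat_lit 426197) (nat_lit 9) (.e (nat_lit 426556) (nat_lit 32) .nil)))) (.g (nat_lit 0) (.e (nat_lit 252073) (nat_lit 0) .nil) .nil)))) (.nd (nat_lit 9) 
(.lf (nat_lit 532741) (.g (nat_lit 3009) (.e (nat_lit 57379) (nat_lit 3) (.e (nat_lit 98367) (nat_lit 27) (.e (nat_lit 434247) (nat_lit 28) (.e (nat_lit 573489) (nat_lit 14) (.e (nat_lit 73755) (nat_lit 8) (.e (nat_lit 557091) (nat_lit 12) (.e (nat_lit 163844) (nat_lit 0) (.e (nat_lit 5943) (nat_lit 322) .nil)))))))) (.g (nat_lit 1) (.e (nat_lit 251669) (nat_lit 0) .nil) .nil))) 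
(.lf (nat_lit 533253) (.g (nat_lit 3957) (.e (nat_lit 57389) (nat_lit 5) (.e (nat_lit 114698) (nat_lit 11) (.e (nat_lit 426200) (nat_lit 9) (.e (nat_lit 426555) (nat_lit 32) (.e (nat_lit 376859) (nat_lit 21) (.e (nat_lit 57844) (nat_lit 252) .nil)))))) (.g (nat_lit 1) (.e (nat_lit 252511) (nat_lit 0) .nil) .nil))))) (.nd (nat_lit 8) (.nd (nat_lit 9) 
(.lf (nat_lit 532613) (.g (nat_lit 2913) (.e (nat_lit 57379) (nat_lit 3) (.e (nat_lit 98366) (nat_lit 27) (.e (nat_lit 434231) (nat_lit 23) (.e (nat_lit 532514) (nat_lit 3) (.e (nat_lit 114719) (nat_lit 23) (.e (nat_lit 98325) (nat_lit 17) (.e (nat_lit 2515) (nat_lit 157) (.e (nat_lit 5934) (nat_lit 322) .nil)))))))) (.g (nat_lit 1) (.e (nat_lit 251541) (nat_lit 0) .nil) .nil))) 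
(.lf (nat_lit 533125) (.g (nat_lit 3198) (.e (nat_lit 57389) (nat_lit 5) (.e (nat_lit 114697) (nat_lit 11) (.e (nat_lit 426190) (nat_lit 9) (.e (nat_lit 426555) (nat_lit 32) (.e (nat_lit 376859) (nat_lit 21) (.e (nat_lit 57844) (nat_lit 252) .nil)))))) (.g (nat_lit 1) (.e (nat_lit 252317) (nat_lit 0) .nil) .nil)))) (.nd (nat_lit 9) 
(.lf (nat_lit 532869) (.g (nat_lit 2791) (.e (nat_lit 57388) (nat_lit 5) (.e (nat_lit 114697) (nat_lit 11) (.e (nat_lit 426198) (nat_lit 9) (.e (nat_lit 426538) (nat_lit 29) (.e (nat_lit 352309) (nat_lit 21) (.e (nat_lit 57846) (nat_lit 252) .nil)))))) (.g (nat_lit 1) (.e (nat_lit 251853) (nat_lit 0) .nil) .nil))) 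
(.lf (nat_lit 533381) (.g (nat_lit 3492) (.e (nat_lit 57406) (nat_lit 12) (.e (nat_lit 336018) (nat_lit 3) (.e (nat_lit 98372) (nat_lit 29) (.e (nat_lit 450586) (nat_lit 10) (.e (nat_lit 573475) (nat_lit 12) (.e (nat_lit 57347) (nat_lit 0) (.e (nat_lit 7265) (nat_lit 384) .nil))))))) (.g (nat_lit 1) (.e (nat_lit 252817) (nat_lit 0) .nil) .nil)))))) 
(.nd (nat_lit 7) (.nd (nat_lit 8) (.nd (nat_lit 9) 
(.lf (nat_lit 532549) (.g (nat_lit 2692) (.e (nat_lit 57379) (nat_lit 3) (.e (nat_lit 98365) (nat_lit 26) (.e (nat_lit 426325) (nat_lit 13) (.e (nat_lit 483337) (nat_lit 9) (.e (nat_lit 426030) (nat_lit 0) (.e (nat_lit 2464) (nat_lit 157) (.e (nat_lit 5939) (nat_lit 322) .nil))))))) (.g (nat_lit 1) (.e (nat_lit 251477) (nat_lit 0) .nil) .nil))) 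
(.lf (nat_lit 533061) (.g (nat_lit 3367) (.e (nat_lit 57388) (nat_lit 5) (.e (nat_lit 114698) (nat_lit 11) (.e (nat_lit 426200) (nat_lit 9) (.e (nat_lit 426555) (nat_lit 32) (.e (nat_lit 376859) (nat_lit 21) (.e (nat_lit 57851) (nat_lit 252) .nil)))))) (.g (nat_lit 1) (.e (nat_lit 252137) (nat_lit 0) .nil) .nil)))) (.nd (nat_lit 9) 
(.lf (nat_lit 532805) (.g (nat_lit 1798) (.e (nat_lit 57388) (nat_lit 5) (.e (nat_lit 114696) (nat_lit 11) (.e (nat_lit 426232) (nat_lit 9) (.e (nat_lit 426554) (nat_lit 32) (.e (nat_lit 376857) (nat_lit 21) (.e (nat_lit 57847) (nat_lit 252) .nil)))))) (.g (nat_lit 1) (.e (nat_lit 251789) (nat_lit 0) .nil) .nil))) 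
(.lf (nat_lit 533317) (.g (nat_lit 2884) (.e (nat_lit 57390) (nat_lit 5) (.e (nat_lit 114697) (nat_lit 11) (.e (nat_lit 426200) (nat_lit 9) (.e (nat_lit 426555) (nat_lit 32) (.e (nat_lit 376859) (nat_lit 21) (.e (nat_lit 57847) (nat_lit 252) .nil)))))) (.g (nat_lit 1) (.e (nat_lit 252641) (nat_lit 0) .nil) .nil))))) (.nd (nat_lit 8) (.nd (nat_lit 9) 
(.lf (nat_lit 532677) (.g (nat_lit 2430) (.e (nat_lit 57379) (nat_lit 3) (.e (nat_lit 98366) (nat_lit 27) (.e (nat_lit 434247) (nat_lit 28) (.e (nat_lit 573489) (nat_lit 14) (.e (nat_lit 73755) (nat_lit 8) (.e (nat_lit 557091) (nat_lit 12) (.e (nat_lit 163851) (nat_lit 0) (.e (nat_lit 5939) (nat_lit 322) .nil)))))))) (.g (nat_lit 1) (.e (nat_lit 251605) (nat_lit 0) .nil) .nil))) 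
(.lf (nat_lit 533189) (.g (nat_lit 2964) (.e (nat_lit 57389) (nat_lit 5) (.e (nat_lit 114698) (nat_lit 11) (.e (nat_lit 426190) (nat_lit 9) (.e (nat_lit 426555) (nat_lit 32) (.e (nat_lit 376857) (nat_lit 21) (.e (nat_lit 57847) (nat_lit 252) .nil)))))) (.g (nat_lit 1) (.e (nat_lit 252447) (nat_lit 0) .nil) .nil)))) (.nd (nat_lit 9) 
(.lf (nat_lit 532933) (.g (nat_lit 739) (.e (nat_lit 57388) (nat_lit 5) (.e (nat_lit 114698) (nat_lit 11) (.e (nat_lit 426187) (nat_lit 9) .nil))) (.g (nat_lit 0) (.e (nat_lit 252009) (nat_lit 0) .nil) .nil))) 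
(.lf (nat_lit 533445) (.g (nat_lit 4707) (.e (nat_lit 57406) (nat_lit 12) (.e (nat_lit 336316) (nat_lit 17) (.e (nat_lit 196666) (nat_lit 13) (.e (nat_lit 65630) (nat_lit 14) (.e (nat_lit 401472) (nat_lit 28) (.e (nat_lit 344096) (nat_lit 18) (.e (nat_lit 7265) (nat_lit 384) .nil))))))) (.g (nat_lit 1) (.e (nat_lit 252884) (nat_lit 0) .nil) .nil))))))) 
(.nd (nat_lit 6) (.nd (nat_lit 7) (.nd (nat_lit 8) (.nd (nat_lit 9) 
(.lf (nat_lit 532517) (.g (nat_lit 2280) (.e (nat_lit 57379) (nat_lit 3) (.e (nat_lit 98358) (nat_lit 26) (.e (nat_lit 426131) (nat_lit 3) (.e (nat_lit 204837) (nat_lit 20) .nil)))) (.g (nat_lit 0) (.e (nat_lit 251445) (nat_lit 0) .nil) .nil))) 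
(.lf (nat_lit 533029) (.g (nat_lit 2626) (.e (nat_lit 57388) (nat_lit 5) (.e (nat_lit 114698) (nat_lit 11) (.e (nat_lit 426198) (nat_lit 9) (.e (nat_lit 426555) (nat_lit 32) (.e (nat_lit 376860) (nat_lit 21) (.e (nat_lit 57844) (nat_lit 252) .nil)))))) (.g (nat_lit 1) (.e (nat_lit 252105) (nat_lit 0) .nil) .nil)))) (.nd (nat_lit 9) 
(.lf (nat_lit 532773) (.g (nat_lit 1020) (.e (nat_lit 57381) (nat_lit 4) (.e (nat_lit 106536) (nat_lit 11) (.e (nat_lit 16437) (nat_lit 9) .nil))) (.g (nat_lit 0) (.e (nat_lit 251701) (nat_lit 0) .nil) .nil))) 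
(.lf (nat_lit 533285) (.g (nat_lit 2711) (.e (nat_lit 57390) (nat_lit 5) (.e (nat_lit 114694) (nat_lit 11) (.e (nat_lit 426200) (nat_lit 9) (.e (nat_lit 426555) (nat_lit 32) (.e (nat_lit 376859) (nat_lit 21) (.e (nat_lit 57846) (nat_lit 252) .nil)))))) (.g (nat_lit 1) (.e (nat_lit 252604) (nat_lit 0) .nil) .nil))))) (.nd (nat_lit 8) (.nd (nat_lit 9) 
(.lf (nat_lit 532645) (.g (nat_lit 2808) (.e (nat_lit 57379) (nat_lit 3) (.e (nat_lit 98366) (nat_lit 27) (.e (nat_lit 434244) (nat_lit 28) (.e (nat_lit 573488) (nat_lit 14) (.e (nat_lit 73755) (nat_lit 8) (.e (nat_lit 557090) (nat_lit 12) (.e (nat_lit 163844) (nat_lit 0) (.e (nat_lit 5941) (nat_lit 322) .nil)))))))) (.g (nat_lit 1) (.e (nat_lit 251573) (nat_lit 0) .nil) .nil))) 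
(.lf (nat_lit 533157) (.g (nat_lit 3068) (.e (nat_lit 57389) (nat_lit 5) (.e (nat_lit 114697) (nat_lit 11) (.e (nat_lit 426199) (nat_lit 9) (.e (nat_lit 426555) (nat_lit 32) (.e (nat_lit 376859) (nat_lit 21) (.e (nat_lit 57844) (nat_lit 252) .nil)))))) (.g (nat_lit 1) (.e (nat_lit 252349) (nat_lit 0) .nil) .nil)))) (.nd (nat_lit 9) 
(.lf (nat_lit 532901) (.g (nat_lit 2655) (.e (nat_lit 57388) (nat_lit 5) (.e (nat_lit 114697) (nat_lit 11) (.e (nat_lit 426199) (nat_lit 9) (.e (nat_lit 426555) (nat_lit 32) (.e (nat_lit 376857) (nat_lit 21) (.e (nat_lit 57851) (nat_lit 252) .nil)))))) (.g (nat_lit 1) (.e (nat_lit 251886) (nat_lit 0) .nil) .nil))) 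
(.lf (nat_lit 533413) (.g (nat_lit 5422) (.e (nat_lit 57406) (nat_lit 12) (.e (nat_lit 336019) (nat_lit 3) (.e (nat_lit 98373) (nat_lit 29) (.e (nat_lit 450588) (nat_lit 10) (.e (nat_lit 573473) (nat_lit 12) (.e (nat_lit 57348) (nat_lit 0) (.e (nat_lit 7261) (nat_lit 384) .nil))))))) (.g (nat_lit 1) (.e (nat_lit 252849) (nat_lit 0) .nil) .nil)))))) 
(.nd (nat_lit 7) (.nd (nat_lit 8) (.nd (nat_lit 9) 
(.lf (nat_lit 532581) (.g (nat_lit 2021) (.e (nat_lit 57379) (nat_lit 3) (.e (nat_lit 98365) (nat_lit 26) (.e (nat_lit 426325) (nat_lit 13) (.e (nat_lit 483341) (nat_lit 9) (.e (nat_lit 426029) (nat_lit 0) .nil))))) (.g (nat_lit 0) (.e (nat_lit 251509) (nat_lit 0) .nil) .nil))) 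
(.lf (nat_lit 533093) (.g (nat_lit 2122) (.e (nat_lit 57389) (nat_lit 5) (.e (nat_lit 114694) (nat_lit 11) (.e (nat_lit 426200) (nat_lit 9) (.e (nat_lit 426555) (nat_lit 32) (.e (nat_lit 376857) (nat_lit 21) (.e (nat_lit 57846) (nat_lit 252) .nil)))))) (.g (nat_lit 1) (.e (nat_lit 252273) (nat_lit 0) .nil) .nil)))) (.nd (nat_lit 9) 
(.lf (nat_lit 532837) (.g (nat_lit 2963) (.e (nat_lit 57388) (nat_lit 5) (.e (nat_lit 114697) (nat_lit 11) (.e (nat_lit 426188) (nat_lit 9) (.e (nat_lit 426555) (nat_lit 32) (.e (nat_lit 376859) (nat_lit 21) (.e (nat_lit 57847) (nat_lit 252) .nil)))))) (.g (nat_lit 1) (.e (nat_lit 251821) (nat_lit 0) .nil) .nil))) 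
(.lf (nat_lit 533349) (.g (nat_lit 2574) (.e (nat_lit 57400) (nat_lit 10) (.e (nat_lit 319490) (nat_lit 0) (.e (nat_lit 5664) (nat_lit 312) (.e (nat_lit 3085) (nat_lit 191) (.e (nat_lit 483379) (nat_lit 23) (.e (nat_lit 336029) (nat_lit 4) (.e (nat_lit 123195) (nat_lit 266) .nil))))))) (.g (nat_lit 1) (.e (nat_lit 252717) (nat_lit 0) .nil) .nil))))) (.nd (nat_lit 8) (.nd (nat_lit 9) 
(.lf (nat_lit 532709) (.g (nat_lit 2640) (.e (nat_lit 57379) (nat_lit 3) (.e (nat_lit 98367) (nat_lit 27) (.e (nat_lit 434231) (nat_lit 23) (.e (nat_lit 532513) (nat_lit 3) (.e (nat_lit 114714) (nat_lit 22) (.e (nat_lit 90165) (nat_lit 12) (.e (nat_lit 171776) (nat_lit 0) (.e (nat_lit 5939) (nat_lit 322) .nil)))))))) (.g (nat_lit 1) (.e (nat_lit 251637) (nat_lit 0) .nil) .nil))) 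
(.lf (nat_lit 533221) (.g (nat_lit 1850) (.e (nat_lit 57389) (nat_lit 5) (.e (nat_lit 114698) (nat_lit 11) (.e (nat_lit 426198) (nat_lit 9) (.e (nat_lit 426555) (nat_lit 32) (.e (nat_lit 376856) (nat_lit 21) (.e (nat_lit 57851) (nat_lit 252) .nil)))))) (.g (nat_lit 1) (.e (nat_lit 252479) (nat_lit 0) .nil) .nil)))) (.nd (nat_lit 9) 
(.lf (nat_lit 532965) (.g (nat_lit 3031) (.e (nat_lit 57388) (nat_lit 5) (.e (nat_lit 114698) (nat_lit 11) (.e (nat_lit 426190) (nat_lit 9) (.e (nat_lit 426555) (nat_lit 32) (.e (nat_lit 376859) (nat_lit 21) (.e (nat_lit 57848) (nat_lit 252) .nil)))))) (.g (nat_lit 1) (.e (nat_lit 252041) (nat_lit 0) .nil) .nil))) 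
(.lf (nat_lit 533477) (.g (nat_lit 3732) (.e (nat_lit 57406) (nat_lit 12) (.e (nat_lit 336456) (nat_lit 34) (.e (nat_lit 483379) (nat_lit 23) (.e (nat_lit 336324) (nat_lit 18) (.e (nat_lit 204831) (nat_lit 18) (.e (nat_lit 57851) (nat_lit 252) .nil)))))) (.g (nat_lit 1) (.e (nat_lit 252945) (nat_lit 0) .nil) .nil)))))))) 
(.nd (nat_lit 5) (.nd (nat_lit 6) (.nd (nat_lit 7) (.nd (nat_lit 8) (.nd (nat_lit 9) 
(.lf (nat_lit 532501) (.g (nat_lit 4423) (.e (nat_lit 57379) (nat_lit 3) (.e (nat_lit 98342) (nat_lit 20) (.e (nat_lit 221215) (nat_lit 23) (.e (nat_lit 204861) (nat_lit 26) (.e (nat_lit 336027) (nat_lit 3) (.e (nat_lit 98333) (nat_lit 18) (.e (nat_lit 164177) (nat_lit 154) .nil))))))) (.g (nat_lit 1) (.e (nat_lit 251429) (nat_lit 0) .nil) .nil))) 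
(.lf (nat_lit 533013) (.g (nat_lit 3718) (.e (nat_lit 57388) (nat_lit 5) (.e (nat_lit 114698) (nat_lit 11) (.e (nat_lit 426198) (nat_lit 9) (.e (nat_lit 426542) (nat_lit 29) (.e (nat_lit 352309) (nat_lit 21) (.e (nat_lit 57854) (nat_lit 252) .nil)))))) (.g (nat_lit 1) (.e (nat_lit 252089) (nat_lit 0) .nil) .nil)))) (.nd (nat_lit 9) 
(.lf (nat_lit 532757) (.g (nat_lit 3944) (.e (nat_lit 57379) (nat_lit 3) (.e (nat_lit 98368) (nat_lit 27) (.e (nat_lit 434247) (nat_lit 28) (.e (nat_lit 573489) (nat_lit 14) (.e (nat_lit 73755) (nat_lit 8) (.e (nat_lit 557090) (nat_lit 12) (.e (nat_lit 163844) (nat_lit 0) (.e (nat_lit 5940) (nat_lit 322) .nil)))))))) (.g (nat_lit 1) (.e (nat_lit 251685) (nat_lit 0) .nil) .nil))) 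
(.lf (nat_lit 533269) (.g (nat_lit 3446) (.e (nat_lit 57389) (nat_lit 5) (.e (nat_lit 114698) (nat_lit 11) (.e (nat_lit 426335) (nat_lit 13) (.e (nat_lit 483393) (nat_lit 23) (.e (nat_lit 335988) (nat_lit 1) (.e (nat_lit 57852) (nat_lit 252) .nil)))))) (.g (nat_lit 1) (.e (nat_lit 252564) (nat_lit 0) .nil) .nil))))) (.nd (nat_lit 8) (.nd (nat_lit 9) 
(.lf (nat_lit 532629) (.g (nat_lit 4864) (.e (nat_lit 57379) (nat_lit 3) (.e (nat_lit 98366) (nat_lit 27) (.e (nat_lit 434244) (nat_lit 28) (.e (nat_lit 573487) (nat_lit 14) (.e (nat_lit 73753) (nat_lit 8) (.e (nat_lit 557090) (nat_lit 12) (.e (nat_lit 163850) (nat_lit 0) (.e (nat_lit 5939) (nat_lit 322) .nil)))))))) (.g (nat_lit 1) (.e (nat_lit 251557) (nat_lit 0) .nil) .nil))) 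
(.lf (nat_lit 533141) (.g (nat_lit 3155) (.e (nat_lit 57389) (nat_lit 5) (.e (nat_lit 114697) (nat_lit 11) (.e (nat_lit 426198) (nat_lit 9) (.e (nat_lit 426542) (nat_lit 29) (.e (nat_lit 352309) (nat_lit 21) (.e (nat_lit 57846) (nat_lit 252) .nil)))))) (.g (nat_lit 1) (.e (nat_lit 252333) (nat_lit 0) .nil) .nil)))) (.nd (nat_lit 9) 
(.lf (nat_lit 532885) (.g (nat_lit 2843) (.e (nat_lit 57388) (nat_lit 5) (.e (nat_lit 114697) (nat_lit 11) (.e (nat_lit 426198) (nat_lit 9) (.e (nat_lit 426555) (nat_lit 32) (.e (nat_lit 376859) (nat_lit 21) (.e (nat_lit 57844) (nat_lit 252) .nil)))))) (.g (nat_lit 1) (.e (nat_lit 251869) (nat_lit 0) .nil) .nil))) 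
(.lf (nat_lit 533397) (.g (nat_lit 4536) (.e (nat_lit 57406) (nat_lit 12) (.e (nat_lit 336019) (nat_lit 3) (.e (nat_lit 98372) (nat_lit 29) (.e (nat_lit 450586) (nat_lit 10) (.e (nat_lit 573475) (nat_lit 12) (.e (nat_lit 57347) (nat_lit 0) (.e (nat_lit 7265) (nat_lit 384) .nil))))))) (.g (nat_lit 1) (.e (nat_lit 252833) (nat_lit 0) .nil) .nil)))))) 
(.nd (nat_lit 7) (.nd (nat_lit 8) (.nd (nat_lit 9) 
(.lf (nat_lit 532565) (.g (nat_lit 2678) (.e (nat_lit 57379) (nat_lit 3) (.e (nat_lit 98365) (nat_lit 26) (.e (nat_lit 426325) (nat_lit 13) (.e (nat_lit 483337) (nat_lit 9) (.e (nat_lit 426105) (nat_lit 1) (.e (nat_lit 164396) (nat_lit 256) .nil)))))) (.g (nat_lit 1) (.e (nat_lit 251493) (nat_lit 0) .nil) .nil))) 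
(.lf (nat_lit 533077) (.g (nat_lit 2438) (.e (nat_lit 57388) (nat_lit 5) (.e (nat_lit 114698) (nat_lit 11) (.e (nat_lit 426334) (nat_lit 13) (.e (nat_lit 483393) (nat_lit 23) (.e (nat_lit 335987) (nat_lit 1) (.e (nat_lit 57852) (nat_lit 252) .nil)))))) (.g (nat_lit 1) (.e (nat_lit 252219) (nat_lit 0) .nil) .nil)))) (.nd (nat_lit 9) 
(.lf (nat_lit 532821) (.g (nat_lit 1933) (.e (nat_lit 57388) (nat_lit 5) (.e (nat_lit 114696) (nat_lit 11) (.e (nat_lit 426262) (nat_lit 9) (.e (nat_lit 426554) (nat_lit 32) (.e (nat_lit 376857) (nat_lit 21) (.e (nat_lit 57846) (nat_lit 252) .nil)))))) (.g (nat_lit 1) (.e (nat_lit 251805) (nat_lit 0) .nil) .nil))) 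
(.lf (nat_lit 533333) (.g (nat_lit 3225) (.e (nat_lit 57390) (nat_lit 5) (.e (nat_lit 114698) (nat_lit 11) (.e (nat_lit 426200) (nat_lit 9) (.e (nat_lit 426555) (nat_lit 32) (.e (nat_lit 376857) (nat_lit 21) (.e (nat_lit 57846) (nat_lit 252) .nil)))))) (.g (nat_lit 1) (.e (nat_lit 252671) (nat_lit 0) .nil) .nil))))) (.nd (nat_lit 8) (.nd (nat_lit 9) 
(.lf (nat_lit 532693) (.g (nat_lit 3206) (.e (nat_lit 57379) (nat_lit 3) (.e (nat_lit 98366) (nat_lit 27) (.e (nat_lit 434248) (nat_lit 28) (.e (nat_lit 573489) (nat_lit 14) (.e (nat_lit 73755) (nat_lit 8) (.e (nat_lit 557090) (nat_lit 12) (.e (nat_lit 163843) (nat_lit 0) (.e (nat_lit 5942) (nat_lit 322) .nil)))))))) (.g (nat_lit 1) (.e (nat_lit 251621) (nat_lit 0) .nil) .nil))) 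
(.lf (nat_lit 533205) (.g (nat_lit 3266) (.e (nat_lit 57389) (nat_lit 5) (.e (nat_lit 114698) (nat_lit 11) (.e (nat_lit 426197) (nat_lit 9) (.e (nat_lit 426555) (nat_lit 32) (.e (nat_lit 376857) (nat_lit 21) (.e (nat_lit 57844) (nat_lit 252) .nil)))))) (.g (nat_lit 1) (.e (nat_lit 252463) (nat_lit 0) .nil) .nil)))) (.nd (nat_lit 9) 
(.lf (nat_lit 532949) (.g (nat_lit 2872) (.e (nat_lit 57388) (nat_lit 5) (.e (nat_lit 114698) (nat_lit 11) (.e (nat_lit 426188) (nat_lit 9) (.e (nat_lit 426555) (nat_lit 32) (.e (nat_lit 376859) (nat_lit 21) (.e (nat_lit 57851) (nat_lit 252) .nil)))))) (.g (nat_lit 1) (.e (nat_lit 252025) (nat_lit 0) .nil) .nil))) 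
(.lf (nat_lit 533461) (.g (nat_lit 1506) (.e (nat_lit 57406) (nat_lit 12) (.e (nat_lit 336454) (nat_lit 34) (.e (nat_lit 483383) (nat_lit 23) (.e (nat_lit 335878) (nat_lit 0) .nil)))) (.g (nat_lit 0) (.e (nat_lit 252929) (nat_lit 0) .nil) .nil))))))) (.nd (nat_lit 6) (.nd (nat_lit 7) (.nd (nat_lit 8) (.nd (nat_lit 9) 
(.lf (nat_lit 532533) (.g (nat_lit 2470) (.e (nat_lit 57379) (nat_lit 3) (.e (nat_lit 98365) (nat_lit 26) (.e (nat_lit 426188) (nat_lit 9) (.e (nat_lit 426566) (nat_lit 34) (.e (nat_lit 393254) (nat_lit 18) (.e (nat_lit 164396) (nat_lit 256) .nil)))))) (.g (nat_lit 1) (.e (nat_lit 251461) (nat_lit 0) .nil) .nil))) 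
(.lf (nat_lit 533045) (.g (nat_lit 2935) (.e (nat_lit 57388) (nat_lit 5) (.e (nat_lit 114698) (nat_lit 11) (.e (nat_lit 426199) (nat_lit 9) (.e (nat_lit 426555) (nat_lit 32) (.e (nat_lit 376859) (nat_lit 21) (.e (nat_lit 57851) (nat_lit 252) .nil)))))) (.g (nat_lit 1) (.e (nat_lit 252121) (nat_lit 0) .nil) .nil)))) (.nd (nat_lit 9) 
(.lf (nat_lit 532789) (.g (nat_lit 509) (.e (nat_lit 57385) (nat_lit 4) (.e (nat_lit 106536) (nat_lit 11) (.e (nat_lit 16437) (nat_lit 9) .nil))) (.g (nat_lit 0) (.e (nat_lit 251757) (nat_lit 0) .nil) .nil))) 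
(.lf (nat_lit 533301) (.g (nat_lit 2298) (.e (nat_lit 57390) (nat_lit 5) (.e (nat_lit 114697) (nat_lit 11) (.e (nat_lit 426197) (nat_lit 9) (.e (nat_lit 426555) (nat_lit 32) (.e (nat_lit 376859) (nat_lit 21) (.e (nat_lit 57847) (nat_lit 252) .nil)))))) (.g (nat_lit 1) (.e (nat_lit 252625) (nat_lit 0) .nil) .nil))))) (.nd (nat_lit 8) (.nd (nat_lit 9) 
(.lf (nat_lit 532661) (.g (nat_lit 2742) (.e (nat_lit 57379) (nat_lit 3) (.e (nat_lit 98366) (nat_lit 27) (.e (nat_lit 434245) (nat_lit 28) (.e (nat_lit 573487) (nat_lit 14) (.e (nat_lit 73753) (nat_lit 8) (.e (nat_lit 557094) (nat_lit 12) (.e (nat_lit 163840) (nat_lit 0) (.e (nat_lit 5939) (nat_lit 322) .nil)))))))) (.g (nat_lit 1) (.e (nat_lit 251589) (nat_lit 0) .nil) .nil))) 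
(.lf (nat_lit 533173) (.g (nat_lit 3160) (.e (nat_lit 57389) (nat_lit 5) (.e (nat_lit 114698) (nat_lit 11) (.e (nat_lit 426188) (nat_lit 9) (.e (nat_lit 426555) (nat_lit 32) (.e (nat_lit 376857) (nat_lit 21) (.e (nat_lit 57846) (nat_lit 252) .nil)))))) (.g (nat_lit 1) (.e (nat_lit 252431) (nat_lit 0) .nil) .nil)))) (.nd (nat_lit 9) 
(.lf (nat_lit 532917) (.g (nat_lit 3294) (.e (nat_lit 57388) (nat_lit 5) (.e (nat_lit 114697) (nat_lit 11) (.e (nat_lit 426200) (nat_lit 9) (.e (nat_lit 426555) (nat_lit 32) (.e (nat_lit 376857) (nat_lit 21) (.e (nat_lit 57853) (nat_lit 252) .nil)))))) (.g (nat_lit 1) (.e (nat_lit 251902) (nat_lit 0) .nil) .nil))) 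
(.lf (nat_lit 533429) (.g (nat_lit 2753) (.e (nat_lit 57406) (nat_lit 12) (.e (nat_lit 336316) (nat_lit 17) (.e (nat_lit 196666) (nat_lit 13) (.e (nat_lit 65610) (nat_lit 10) (.e (nat_lit 344088) (nat_lit 18) .nil))))) (.g (nat_lit 0) (.e (nat_lit 252868) (nat_lit 0) .nil) .nil)))))) (.nd (nat_lit 7) (.nd (nat_lit 8) (.nd (nat_lit 9) 
(.lf (nat_lit 532597) (.g (nat_lit 4524) (.e (nat_lit 57379) (nat_lit 3) (.e (nat_lit 98366) (nat_lit 27) (.e (nat_lit 434231) (nat_lit 23) (.e (nat_lit 532513) (nat_lit 3) (.e (nat_lit 114714) (nat_lit 22) (.e (nat_lit 90164) (nat_lit 12) (.e (nat_lit 163850) (nat_lit 0) (.e (nat_lit 5939) (nat_lit 322) .nil)))))))) (.g (nat_lit 1) (.e (nat_lit 251525) (nat_lit 0) .nil) .nil))) 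
(.lf (nat_lit 533109) (.g (nat_lit 3027) (.e (nat_lit 57389) (nat_lit 5) (.e (nat_lit 114697) (nat_lit 11) (.e (nat_lit 426188) (nat_lit 9) (.e (nat_lit 426555) (nat_lit 32) (.e (nat_lit 376857) (nat_lit 21) (.e (nat_lit 57846) (nat_lit 252) .nil)))))) (.g (nat_lit 1) (.e (nat_lit 252301) (nat_lit 0) .nil) .nil)))) (.nd (nat_lit 9) 
(.lf (nat_lit 532853) (.g (nat_lit 2912) (.e (nat_lit 57388) (nat_lit 5) (.e (nat_lit 114697) (nat_lit 11) (.e (nat_lit 426190) (nat_lit 9) (.e (nat_lit 426555) (nat_lit 32) (.e (nat_lit 376859) (nat_lit 21) (.e (nat_lit 57844) (nat_lit 252) .nil)))))) (.g (nat_lit 1) (.e (nat_lit 251837) (nat_lit 0) .nil) .nil))) 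
(.lf (nat_lit 533365) (.g (nat_lit 2495) (.e (nat_lit 57405) (nat_lit 12) (.e (nat_lit 336019) (nat_lit 3) (.e (nat_lit 98372) (nat_lit 29) (.e (nat_lit 450586) (nat_lit 10) (.e (nat_lit 573475) (nat_lit 12) (.e (nat_lit 57347) (nat_lit 0) (.e (nat_lit 7261) (nat_lit 384) .nil))))))) (.g (nat_lit 1) (.e (nat_lit 252778) (nat_lit 0) .nil) .nil))))) (.nd (nat_lit 8) (.nd (nat_lit 9) 
(.lf (nat_lit 532725) (.g (nat_lit 2847) (.e (nat_lit 57379) (nat_lit 3) (.e (nat_lit 98367) (nat_lit 27) (.e (nat_lit 434244) (nat_lit 28) (.e (nat_lit 573488) (nat_lit 14) (.e (nat_lit 73755) (nat_lit 8) (.e (nat_lit 557091) (nat_lit 12) (.e (nat_lit 163841) (nat_lit 0) (.e (nat_lit 5943) (nat_lit 322) .nil)))))))) (.g (nat_lit 1) (.e (nat_lit 251653) (nat_lit 0) .nil) .nil))) 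
(.lf (nat_lit 533237) (.g (nat_lit 3266) (.e (nat_lit 57389) (nat_lit 5) (.e (nat_lit 114698) (nat_lit 11) (.e (nat_lit 426199) (nat_lit 9) (.e (nat_lit 426555) (nat_lit 32) (.e (nat_lit 376857) (nat_lit 21) (.e (nat_lit 57844) (nat_lit 252) .nil)))))) (.g (nat_lit 1) (.e (nat_lit 252495) (nat_lit 0) .nil) .nil)))) (.nd (nat_lit 9) 
(.lf (nat_lit 532981) (.g (nat_lit 2752) (.e (nat_lit 57388) (nat_lit 5) (.e (nat_lit 114698) (nat_lit 11) (.e (nat_lit 426197) (nat_lit 9) (.e (nat_lit 426555) (nat_lit 32) (.e (nat_lit 376857) (nat_lit 21) (.e (nat_lit 57844) (nat_lit 252) .nil)))))) (.g (nat_lit 1) (.e (nat_lit 252057) (nat_lit 0) .nil) .nil))) 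
(.lf (nat_lit 533493) (.g (nat_lit 1952) (.e (nat_lit 57406) (nat_lit 12) (.e (nat_lit 336456) (nat_lit 34) (.e (nat_lit 483383) (nat_lit 23) (.e (nat_lit 336301) (nat_lit 15) .nil)))) (.g (nat_lit 0) (.e (nat_lit 252961) (nat_lit 0) .nil) .nil))))))))) (.nd (nat_lit 4) (.nd (nat_lit 5) (.nd (nat_lit 6) (.nd (nat_lit 7) (.nd (nat_lit 8) (.nd (nat_lit 9) 
(.lf (nat_lit 532493) (.g (nat_lit 4321) (.e (nat_lit 57379) (nat_lit 3) (.e (nat_lit 98342) (nat_lit 20) (.e (nat_lit 221215) (nat_lit 23) (.e (nat_lit 204861) (nat_lit 26) (.e (nat_lit 336021) (nat_lit 3) (.e (nat_lit 98333) (nat_lit 18) (.e (nat_lit 164179) (nat_lit 154) .nil))))))) (.g (nat_lit 1) (.e (nat_lit 251421) (nat_lit 0) .nil) .nil))) 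
(.lf (nat_lit 533005) (.g (nat_lit 2908) (.e (nat_lit 57388) (nat_lit 5) (.e (nat_lit 114698) (nat_lit 11) (.e (nat_lit 426198) (nat_lit 9) (.e (nat_lit 426542) (nat_lit 29) (.e (nat_lit 352307) (nat_lit 21) (.e (nat_lit 57846) (nat_lit 252) .nil)))))) (.g (nat_lit 1) (.e (nat_lit 252081) (nat_lit 0) .nil) .nil)))) (.nd (nat_lit 9) 
(.lf (nat_lit 532749) (.g (nat_lit 3111) (.e (nat_lit 57379) (nat_lit 3) (.e (nat_lit 98367) (nat_lit 27) (.e (nat_lit 434248) (nat_lit 28) (.e (nat_lit 573489) (nat_lit 14) (.e (nat_lit 73755) (nat_lit 8) (.e (nat_lit 557090) (nat_lit 12) (.e (nat_lit 163845) (nat_lit 0) (.e (nat_lit 5940) (nat_lit 322) .nil)))))))) (.g (nat_lit 1) (.e (nat_lit 251677) (nat_lit 0) .nil) .nil))) 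
(.lf (nat_lit 533261) (.g (nat_lit 3033) (.e (nat_lit 57389) (nat_lit 5) (.e (nat_lit 114698) (nat_lit 11) (.e (nat_lit 426325) (nat_lit 13) (.e (nat_lit 483393) (nat_lit 23) (.e (nat_lit 335987) (nat_lit 1) (.e (nat_lit 57852) (nat_lit 252) .nil)))))) (.g (nat_lit 1) (.e (nat_lit 252526) (nat_lit 0) .nil) .nil))))) (.nd (nat_lit 8) (.nd (nat_lit 9) 
(.lf (nat_lit 532621) (.g (nat_lit 3115) (.e (nat_lit 57379) (nat_lit 3) (.e (nat_lit 98366) (nat_lit 27) (.e (nat_lit 434231) (nat_lit 23) (.e (nat_lit 532579) (nat_lit 26) (.e (nat_lit 426124) (nat_lit 2) (.e (nat_lit 196660) (nat_lit 12) (.e (nat_lit 57347) (nat_lit 0) (.e (nat_lit 7695) (nat_lit 412) .nil)))))))) (.g (nat_lit 1) (.e (nat_lit 251549) (nat_lit 0) .nil) .nil))) 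
(.lf (nat_lit 533133) (.g (nat_lit 1925) (.e (nat_lit 57389) (nat_lit 5) (.e (nat_lit 114697) (nat_lit 11) (.e (nat_lit 426197) (nat_lit 9) (.e (nat_lit 426555) (nat_lit 32) (.e (nat_lit 376856) (nat_lit 21) .nil))))) (.g (nat_lit 0) (.e (nat_lit 252325) (nat_lit 0) .nil) .nil)))) (.nd (nat_lit 9) 
(.lf (nat_lit 532877) (.g (nat_lit 794) (.e (nat_lit 57388) (nat_lit 5) (.e (nat_lit 114697) (nat_lit 11) (.e (nat_lit 426198) (nat_lit 9) (.e (nat_lit 426544) (nat_lit 30) .nil)))) (.g (nat_lit 0) (.e (nat_lit 251861) (nat_lit 0) .nil) .nil))) 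
(.lf (nat_lit 533389) (.g (nat_lit 5265) (.e (nat_lit 57406) (nat_lit 12) (.e (nat_lit 336018) (nat_lit 3) (.e (nat_lit 98373) (nat_lit 29) (.e (nat_lit 450588) (nat_lit 10) (.e (nat_lit 573475) (nat_lit 12) (.e (nat_lit 57353) (nat_lit 0) (.e (nat_lit 7265) (nat_lit 384) .nil))))))) (.g (nat_lit 1) (.e (nat_lit 252825) (nat_lit 0) .nil) .nil)))))) 
(.nd (nat_lit 7) (.nd (nat_lit 8) (.nd (nat_lit 9) 
(.lf (nat_lit 532557) (.g (nat_lit 3242) (.e (nat_lit 57379) (nat_lit 3) (.e (nat_lit 98365) (nat_lit 26) (.e (nat_lit 426325) (nat_lit 13) (.e (nat_lit 483337) (nat_lit 9) (.e (nat_lit 426097) (nat_lit 1) (.e (nat_lit 164397) (nat_lit 256) .nil)))))) (.g (nat_lit 1) (.e (nat_lit 251485) (nat_lit 0) .nil) .nil))) 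
(.lf (nat_lit 533069) (.g (nat_lit 3076) (.e (nat_lit 57388) (nat_lit 5) (.e (nat_lit 114698) (nat_lit 11) (.e (nat_lit 426326) (nat_lit 13) (.e (nat_lit 483393) (nat_lit 23) (.e (nat_lit 335988) (nat_lit 1) (.e (nat_lit 57852) (nat_lit 252) .nil)))))) (.g (nat_lit 1) (.e (nat_lit 252172) (nat_lit 0) .nil) .nil)))) (.nd (nat_lit 9) 
(.lf (nat_lit 532813) (.g (nat_lit 1749) (.e (nat_lit 57388) (nat_lit 5) (.e (nat_lit 114696) (nat_lit 11) (.e (nat_lit 426234) (nat_lit 9) (.e (nat_lit 426554) (nat_lit 32) (.e (nat_lit 376857) (nat_lit 21) (.e (nat_lit 57852) (nat_lit 252) .nil)))))) (.g (nat_lit 1) (.e (nat_lit 251797) (nat_lit 0) .nil) .nil))) 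
(.lf (nat_lit 533325) (.g (nat_lit 323) (.e (nat_lit 57390) (nat_lit 5) (.e (nat_lit 114698) (nat_lit 11) (.e (nat_lit 426198) (nat_lit 9) .nil))) (.g (nat_lit 0) (.e (nat_lit 252663) (nat_lit 0) .nil) .nil))))) (.nd (nat_lit 8) (.nd (nat_lit 9) 
(.lf (nat_lit 532685) (.g (nat_lit 2528) (.e (nat_lit 57379) (nat_lit 3) (.e (nat_lit 98366) (nat_lit 27) (.e (nat_lit 434248) (nat_lit 28) (.e (nat_lit 573487) (nat_lit 14) (.e (nat_lit 73753) (nat_lit 8) (.e (nat_lit 557111) (nat_lit 16) (.e (nat_lit 229379) (nat_lit 0) (.e (nat_lit 5939) (nat_lit 322) .nil)))))))) (.g (nat_lit 1) (.e (nat_lit 251613) (nat_lit 0) .nil) .nil))) 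
(.lf (nat_lit 533197) (.g (nat_lit 2975) (.e (nat_lit 57389) (nat_lit 5) (.e (nat_lit 114698) (nat_lit 11) (.e (nat_lit 426190) (nat_lit 9) (.e (nat_lit 426555) (nat_lit 32) (.e (nat_lit 376859) (nat_lit 21) (.e (nat_lit 57853) (nat_lit 252) .nil)))))) (.g (nat_lit 1) (.e (nat_lit 252455) (nat_lit 0) .nil) .nil)))) (.nd (nat_lit 9) 
(.lf (nat_lit 532941) (.g (nat_lit 3411) (.e (nat_lit 57388) (nat_lit 5) (.e (nat_lit 114698) (nat_lit 11) (.e (nat_lit 426188) (nat_lit 9) (.e (nat_lit 426555) (nat_lit 32) (.e (nat_lit 376857) (nat_lit 21) (.e (nat_lit 57847) (nat_lit 252) .nil)))))) (.g (nat_lit 1) (.e (nat_lit 252017) (nat_lit 0) .nil) .nil))) 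
(.lf (nat_lit 533453) (.g (nat_lit 1363) (.e (nat_lit 57406) (nat_lit 12) (.e (nat_lit 336433) (nat_lit 30) (.e (nat_lit 450588) (nat_lit 10) (.e (nat_lit 581376) (nat_lit 5) .nil)))) (.g (nat_lit 0) (.e (nat_lit 252920) (nat_lit 0) .nil) .nil))))))) (.nd (nat_lit 6) (.nd (nat_lit 7) (.nd (nat_lit 8) (.nd (nat_lit 9) 
(.lf (nat_lit 532525) (.g (nat_lit 1140) (.e (nat_lit 57379) (nat_lit 3) (.e (nat_lit 98363) (nat_lit 26) (.e (nat_lit 426321) (nat_lit 13) (.e (nat_lit 483337) (nat_lit 9) (.e (nat_lit 433920) (nat_lit 1) .nil))))) (.g (nat_lit 0) (.e (nat_lit 251453) (nat_lit 0) .nil) .nil))) 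
(.lf (nat_lit 533037) (.g (nat_lit 3608) (.e (nat_lit 57388) (nat_lit 5) (.e (nat_lit 114698) (nat_lit 11) (.e (nat_lit 426199) (nat_lit 9) (.e (nat_lit 426555) (nat_lit 32) (.e (nat_lit 376857) (nat_lit 21) (.e (nat_lit 57847) (nat_lit 252) .nil)))))) (.g (nat_lit 1) (.e (nat_lit 252113) (nat_lit 0) .nil) .nil)))) (.nd (nat_lit 9) 
(.lf (nat_lit 532781) (.g (nat_lit 2102) (.e (nat_lit 57382) (nat_lit 4) (.e (nat_lit 106536) (nat_lit 11) (.e (nat_lit 16437) (nat_lit 9) (.e (nat_lit 426555) (nat_lit 32) (.e (nat_lit 376860) (nat_lit 21) .nil))))) (.g (nat_lit 0) (.e (nat_lit 251728) (nat_lit 0) .nil) .nil))) 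
(.lf (nat_lit 533293) (.g (nat_lit 2945) (.e (nat_lit 57390) (nat_lit 5) (.e (nat_lit 114697) (nat_lit 11) (.e (nat_lit 426188) (nat_lit 9) (.e (nat_lit 426555) (nat_lit 32) (.e (nat_lit 376857) (nat_lit 21) (.e (nat_lit 57847) (nat_lit 252) .nil)))))) (.g (nat_lit 1) (.e (nat_lit 252616) (nat_lit 0) .nil) .nil))))) (.nd (nat_lit 8) (.nd (nat_lit 9) 
(.lf (nat_lit 532653) (.g (nat_lit 4461) (.e (nat_lit 57379) (nat_lit 3) (.e (nat_lit 98366) (nat_lit 27) (.e (nat_lit 434244) (nat_lit 28) (.e (nat_lit 573489) (nat_lit 14) (.e (nat_lit 73755) (nat_lit 8) (.e (nat_lit 557090) (nat_lit 12) (.e (nat_lit 163843) (nat_lit 0) (.e (nat_lit 5940) (nat_lit 322) .nil)))))))) (.g (nat_lit 1) (.e (nat_lit 251581) (nat_lit 0) .nil) .nil))) 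
(.lf (nat_lit 533165) (.g (nat_lit 2967) (.e (nat_lit 57389) (nat_lit 5) (.e (nat_lit 114697) (nat_lit 11) (.e (nat_lit 426200) (nat_lit 9) (.e (nat_lit 426555) (nat_lit 32) (.e (nat_lit 376859) (nat_lit 21) (.e (nat_lit 57851) (nat_lit 252) .nil)))))) (.g (nat_lit 1) (.e (nat_lit 252357) (nat_lit 0) .nil) .nil)))) (.nd (nat_lit 9) 
(.lf (nat_lit 532909) (.g (nat_lit 2948) (.e (nat_lit 57388) (nat_lit 5) (.e (nat_lit 114697) (nat_lit 11) (.e (nat_lit 426199) (nat_lit 9) (.e (nat_lit 426555) (nat_lit 32) (.e (nat_lit 376860) (nat_lit 21) (.e (nat_lit 57852) (nat_lit 252) .nil)))))) (.g (nat_lit 1) (.e (nat_lit 251894) (nat_lit 0) .nil) .nil))) 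
(.lf (nat_lit 533421) (.g (nat_lit 1918) (.e (nat_lit 57406) (nat_lit 12) (.e (nat_lit 343808) (nat_lit 3) (.e (nat_lit 98373) (nat_lit 29) (.e (nat_lit 450587) (nat_lit 10) (.e (nat_lit 573478) (nat_lit 12) (.e (nat_lit 57351) (nat_lit 0) (.e (nat_lit 7265) (nat_lit 384) .nil))))))) (.g (nat_lit 1) (.e (nat_lit 252857) (nat_lit 0) .nil) .nil)))))) 
(.nd (nat_lit 7) (.nd (nat_lit 8) (.nd (nat_lit 9) 
(.lf (nat_lit 532589) (.g (nat_lit 2555) (.e (nat_lit 57379) (nat_lit 3) (.e (nat_lit 98365) (nat_lit 26) (.e (nat_lit 426325) (nat_lit 13) (.e (nat_lit 483341) (nat_lit 9) (.e (nat_lit 426106) (nat_lit 1) (.e (nat_lit 164396) (nat_lit 256) .nil)))))) (.g (nat_lit 1) (.e (nat_lit 251517) (nat_lit 0) .nil) .nil))) 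
(.lf (nat_lit 533101) (.g (nat_lit 2229) (.e (nat_lit 57389) (nat_lit 5) (.e (nat_lit 114695) (nat_lit 11) (.e (nat_lit 426234) (nat_lit 9) (.e (nat_lit 426554) (nat_lit 32) (.e (nat_lit 376857) (nat_lit 21) (.e (nat_lit 57854) (nat_lit 252) .nil)))))) (.g (nat_lit 1) (.e (nat_lit 252293) (nat_lit 0) .nil) .nil)))) (.nd (nat_lit 9) 
(.lf (nat_lit 532845) (.g (nat_lit 2178) (.e (nat_lit 57388) (nat_lit 5) (.e (nat_lit 114697) (nat_lit 11) (.e (nat_lit 426190) (nat_lit 9) (.e (nat_lit 426555) (nat_lit 32) (.e (nat_lit 376857) (nat_lit 21) (.e (nat_lit 57844) (nat_lit 252) .nil)))))) (.g (nat_lit 1) (.e (nat_lit 251829) (nat_lit 0) .nil) .nil))) 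
(.lf (nat_lit 533357) (.g (nat_lit 1377) (.e (nat_lit 57400) (nat_lit 10) (.e (nat_lit 319531) (nat_lit 16) (.e (nat_lit 286748) (nat_lit 9) (.e (nat_lit 343808) (nat_lit 32) .nil)))) (.g (nat_lit 0) (.e (nat_lit 252736) (nat_lit 0) .nil) .nil))))) (.nd (nat_lit 8) (.nd (nat_lit 9) 
(.lf (nat_lit 532717) (.g (nat_lit 2466) (.e (nat_lit 57379) (nat_lit 3) (.e (nat_lit 98367) (nat_lit 27) (.e (nat_lit 434232) (nat_lit 23) (.e (nat_lit 532513) (nat_lit 3) (.e (nat_lit 114714) (nat_lit 22) (.e (nat_lit 90164) (nat_lit 12) (.e (nat_lit 163850) (nat_lit 0) (.e (nat_lit 5939) (nat_lit 322) .nil)))))))) (.g (nat_lit 1) (.e (nat_lit 251645) (nat_lit 0) .nil) .nil))) 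
(.lf (nat_lit 533229) (.g (nat_lit 2739) (.e (nat_lit 57389) (nat_lit 5) (.e (nat_lit 114698) (nat_lit 11) (.e (nat_lit 426198) (nat_lit 9) (.e (nat_lit 426555) (nat_lit 32) (.e (nat_lit 376859) (nat_lit 21) (.e (nat_lit 57851) (nat_lit 252) .nil)))))) (.g (nat_lit 1) (.e (nat_lit 252487) (nat_lit 0) .nil) .nil)))) (.nd (nat_lit 9) 
(.lf (nat_lit 532973) (.g (nat_lit 1946) (.e (nat_lit 57388) (nat_lit 5) (.e (nat_lit 114698) (nat_lit 11) (.e (nat_lit 426197) (nat_lit 9) (.e (nat_lit 426542) (nat_lit 29) (.e (nat_lit 352307) (nat_lit 21) (.e (nat_lit 57844) (nat_lit 252) .nil)))))) (.g (nat_lit 1) (.e (nat_lit 252049) (nat_lit 0) .nil) .nil))) 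
(.lf (nat_lit 533485) (.g (nat_lit 1867) (.e (nat_lit 57406) (nat_lit 12) (.e (nat_lit 336456) (nat_lit 34) (.e (nat_lit 483383) (nat_lit 23) (.e (nat_lit 336247) (nat_lit 15) (.e (nat_lit 3249) (nat_lit 197) .nil))))) (.g (nat_lit 0) (.e (nat_lit 252953) (nat_lit 0) .nil) .nil)))))))) (.nd (nat_lit 5) (.nd (nat_lit 6) (.nd (nat_lit 7) (.nd (nat_lit 8) (.nd (nat_lit 9) 
(.lf (nat_lit 532509) (.g (nat_lit 1424) (.e (nat_lit 57379) (nat_lit 3) (.e (nat_lit 98342) (nat_lit 20) (.e (nat_lit 221215) (nat_lit 23) (.e (nat_lit 204872) (nat_lit 30) .nil)))) (.g (nat_lit 0) (.e (nat_lit 251437) (nat_lit 0) .nil) .nil))) 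
(.lf (nat_lit 533021) (.g (nat_lit 3288) (.e (nat_lit 57388) (nat_lit 5) (.e (nat_lit 114698) (nat_lit 11) (.e (nat_lit 426198) (nat_lit 9) (.e (nat_lit 426555) (nat_lit 32) (.e (nat_lit 376857) (nat_lit 21) (.e (nat_lit 57852) (nat_lit 252) .nil)))))) (.g (nat_lit 1) (.e (nat_lit 252097) (nat_lit 0) .nil) .nil)))) (.nd (nat_lit 9) 
(.lf (nat_lit 532765) (.g (nat_lit 616) (.e (nat_lit 57379) (nat_lit 3) (.e (nat_lit 98384) (nat_lit 32) (.e (nat_lit 475201) (nat_lit 40) .nil))) (.g (nat_lit 0) (.e (nat_lit 251693) (nat_lit 0) .nil) .nil))) 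
(.lf (nat_lit 533277) (.g (nat_lit 3608) (.e (nat_lit 57389) (nat_lit 5) (.e (nat_lit 114712) (nat_lit 21) (.e (nat_lit 57930) (nat_lit 282) (.e (nat_lit 163923) (nat_lit 15) (.e (nat_lit 450587) (nat_lit 10) (.e (nat_lit 573477) (nat_lit 12) (.e (nat_lit 57361) (nat_lit 0) (.e (nat_lit 5949) (nat_lit 322) .nil)))))))) (.g (nat_lit 1) (.e (nat_lit 252594) (nat_lit 0) .nil) .nil))))) 
(.nd (nat_lit 8) (.nd (nat_lit 9) 
(.lf (nat_lit 532637) (.g (nat_lit 3048) (.e (nat_lit 57379) (nat_lit 3) (.e (nat_lit 98366) (nat_lit 27) (.e (nat_lit 434244) (nat_lit 28) (.e (nat_lit 573488) (nat_lit 14) (.e (nat_lit 73755) (nat_lit 8) (.e (nat_lit 557090) (nat_lit 12) (.e (nat_lit 163840) (nat_lit 0) (.e (nat_lit 5937) (nat_lit 322) .nil)))))))) (.g (nat_lit 1) (.e (nat_lit 251565) (nat_lit 0) .nil) .nil))) 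
(.lf (nat_lit 533149) (.g (nat_lit 2837) (.e (nat_lit 57389) (nat_lit 5) (.e (nat_lit 114697) (nat_lit 11) (.e (nat_lit 426198) (nat_lit 9) (.e (nat_lit 426555) (nat_lit 32) (.e (nat_lit 376860) (nat_lit 21) (.e (nat_lit 57844) (nat_lit 252) .nil)))))) (.g (nat_lit 1) (.e (nat_lit 252341) (nat_lit 0) .nil) .nil)))) (.nd (nat_lit 9) 
(.lf (nat_lit 532893) (.g (nat_lit 2950) (.e (nat_lit 57388) (nat_lit 5) (.e (nat_lit 114697) (nat_lit 11) (.e (nat_lit 426198) (nat_lit 9) (.e (nat_lit 426555) (nat_lit 32) (.e (nat_lit 376860) (nat_lit 21) (.e (nat_lit 57852) (nat_lit 252) .nil)))))) (.g (nat_lit 1) (.e (nat_lit 251877) (nat_lit 0) .nil) .nil))) 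
(.lf (nat_lit 533405) (.g (nat_lit 4648) (.e (nat_lit 57406) (nat_lit 12) (.e (nat_lit 336019) (nat_lit 3) (.e (nat_lit 98373) (nat_lit 29) (.e (nat_lit 450587) (nat_lit 10) (.e (nat_lit 573473) (nat_lit 12) .nil))))) (.g (nat_lit 0) (.e (nat_lit 252841) (nat_lit 0) .nil) .nil)))))) (.nd (nat_lit 7) (.nd (nat_lit 8) (.nd (nat_lit 9) 
(.lf (nat_lit 532573) (.g (nat_lit 2710) (.e (nat_lit 57379) (nat_lit 3) (.e (nat_lit 98365) (nat_lit 26) (.e (nat_lit 426325) (nat_lit 13) (.e (nat_lit 483341) (nat_lit 9) (.e (nat_lit 426009) (nat_lit 0) (.e (nat_lit 2456) (nat_lit 157) (.e (nat_lit 5939) (nat_lit 322) .nil))))))) (.g (nat_lit 1) (.e (nat_lit 251501) (nat_lit 0) .nil) .nil))) 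
(.lf (nat_lit 533085) (.g (nat_lit 5304) (.e (nat_lit 57388) (nat_lit 5) (.e (nat_lit 114712) (nat_lit 21) (.e (nat_lit 57930) (nat_lit 282) (.e (nat_lit 163923) (nat_lit 15) (.e (nat_lit 450587) (nat_lit 10) (.e (nat_lit 573475) (nat_lit 12) (.e (nat_lit 57360) (nat_lit 0) (.e (nat_lit 5949) (nat_lit 322) .nil)))))))) (.g (nat_lit 1) (.e (nat_lit 252261) (nat_lit 0) .nil) .nil)))) 
(.nd (nat_lit 9) 
(.lf (nat_lit 532829) (.g (nat_lit 3133) (.e (nat_lit 57388) (nat_lit 5) (.e (nat_lit 114697) (nat_lit 11) (.e (nat_lit 426188) (nat_lit 9) (.e (nat_lit 426555) (nat_lit 32) (.e (nat_lit 376857) (nat_lit 21) (.e (nat_lit 57847) (nat_lit 252) .nil)))))) (.g (nat_lit 1) (.e (nat_lit 251813) (nat_lit 0) .nil) .nil))) 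
(.lf (nat_lit 533341) (.g (nat_lit 1487) (.e (nat_lit 57390) (nat_lit 5) (.e (nat_lit 114722) (nat_lit 24) (.e (nat_lit 106536) (nat_lit 11) (.e (nat_lit 16436) (nat_lit 9) .nil)))) (.g (nat_lit 0) (.e (nat_lit 252701) (nat_lit 0) .nil) .nil))))) (.nd (nat_lit 8) (.nd (nat_lit 9) 
(.lf (nat_lit 532701) (.g (nat_lit 3478) (.e (nat_lit 57379) (nat_lit 3) (.e (nat_lit 98366) (nat_lit 27) (.e (nat_lit 434248) (nat_lit 28) (.e (nat_lit 573489) (nat_lit 14) (.e (nat_lit 73755) (nat_lit 8) (.e (nat_lit 557091) (nat_lit 12) (.e (nat_lit 163841) (nat_lit 0) (.e (nat_lit 5943) (nat_lit 322) .nil)))))))) (.g (nat_lit 1) (.e (nat_lit 251629) (nat_lit 0) .nil) .nil))) 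
(.lf (nat_lit 533213) (.g (nat_lit 2736) (.e (nat_lit 57389) (nat_lit 5) (.e (nat_lit 114698) (nat_lit 11) (.e (nat_lit 426198) (nat_lit 9) (.e (nat_lit 426538) (nat_lit 29) (.e (nat_lit 352309) (nat_lit 21) (.e (nat_lit 57846) (nat_lit 252) .nil)))))) (.g (nat_lit 1) (.e (nat_lit 252471) (nat_lit 0) .nil) .nil)))) (.nd (nat_lit 9) 
(.lf (nat_lit 532957) (.g (nat_lit 2371) (.e (nat_lit 57388) (nat_lit 5) (.e (nat_lit 114698) (nat_lit 11) (.e (nat_lit 426190) (nat_lit 9) (.e (nat_lit 426555) (nat_lit 32) (.e (nat_lit 376856) (nat_lit 21) (.e (nat_lit 57854) (nat_lit 252) .nil)))))) (.g (nat_lit 1) (.e (nat_lit 252033) (nat_lit 0) .nil) .nil))) 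
(.lf (nat_lit 533469) (.g (nat_lit 1588) (.e (nat_lit 57406) (nat_lit 12) (.e (nat_lit 336454) (nat_lit 34) (.e (nat_lit 483385) (nat_lit 23) (.e (nat_lit 336265) (nat_lit 15) .nil)))) (.g (nat_lit 0) (.e (nat_lit 252937) (nat_lit 0) .nil) .nil))))))) (.nd (nat_lit 6) (.nd (nat_lit 7) (.nd (nat_lit 8) (.nd (nat_lit 9) 
(.lf (nat_lit 532541) (.g (nat_lit 2257) (.e (nat_lit 57379) (nat_lit 3) (.e (nat_lit 98365) (nat_lit 26) (.e (nat_lit 426325) (nat_lit 13) (.e (nat_lit 483336) (nat_lit 9) .nil)))) (.g (nat_lit 0) (.e (nat_lit 251469) (nat_lit 0) .nil) .nil))) 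
(.lf (nat_lit 533053) (.g (nat_lit 3831) (.e (nat_lit 57388) (nat_lit 5) (.e (nat_lit 114698) (nat_lit 11) (.e (nat_lit 426200) (nat_lit 9) (.e (nat_lit 426555) (nat_lit 32) (.e (nat_lit 376857) (nat_lit 21) (.e (nat_lit 57847) (nat_lit 252) .nil)))))) (.g (nat_lit 1) (.e (nat_lit 252129) (nat_lit 0) .nil) .nil)))) (.nd (nat_lit 9) 
(.lf (nat_lit 532797) (.g (nat_lit 2294) (.e (nat_lit 57388) (nat_lit 5) (.e (nat_lit 114694) (nat_lit 11) (.e (nat_lit 426200) (nat_lit 9) (.e (nat_lit 426555) (nat_lit 32) (.e (nat_lit 376860) (nat_lit 21) (.e (nat_lit 57853) (nat_lit 252) .nil)))))) (.g (nat_lit 1) (.e (nat_lit 251770) (nat_lit 0) .nil) .nil))) 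
(.lf (nat_lit 533309) (.g (nat_lit 376) (.e (nat_lit 57390) (nat_lit 5) (.e (nat_lit 114697) (nat_lit 11) (.e (nat_lit 426199) (nat_lit 9) .nil))) (.g (nat_lit 0) (.e (nat_lit 252633) (nat_lit 0) .nil) .nil))))) (.nd (nat_lit 8) (.nd (nat_lit 9) 
(.lf (nat_lit 532669) (.g (nat_lit 4808) (.e (nat_lit 57379) (nat_lit 3) (.e (nat_lit 98366) (nat_lit 27) (.e (nat_lit 434247) (nat_lit 28) (.e (nat_lit 573489) (nat_lit 14) (.e (nat_lit 73755) (nat_lit 8) (.e (nat_lit 557090) (nat_lit 12) (.e (nat_lit 163843) (nat_lit 0) (.e (nat_lit 5940) (nat_lit 322) .nil)))))))) (.g (nat_lit 1) (.e (nat_lit 251597) (nat_lit 0) .nil) .nil))) 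
(.lf (nat_lit 533181) (.g (nat_lit 2815) (.e (nat_lit 57389) (nat_lit 5) (.e (nat_lit 114698) (nat_lit 11) (.e (nat_lit 426188) (nat_lit 9) (.e (nat_lit 426555) (nat_lit 32) (.e (nat_lit 376859) (nat_lit 21) (.e (nat_lit 57851) (nat_lit 252) .nil)))))) (.g (nat_lit 1) (.e (nat_lit 252439) (nat_lit 0) .nil) .nil)))) (.nd (nat_lit 9) 
(.lf (nat_lit 532925) (.g (nat_lit 3196) (.e (nat_lit 57388) (nat_lit 5) (.e (nat_lit 114697) (nat_lit 11) (.e (nat_lit 426200) (nat_lit 9) (.e (nat_lit 426555) (nat_lit 32) (.e (nat_lit 376859) (nat_lit 21) (.e (nat_lit 57854) (nat_lit 252) .nil)))))) (.g (nat_lit 1) (.e (nat_lit 251910) (nat_lit 0) .nil) .nil))) 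
(.lf (nat_lit 533437) (.g (nat_lit 1952) (.e (nat_lit 57406) (nat_lit 12) (.e (nat_lit 336316) (nat_lit 17) (.e (nat_lit 196666) (nat_lit 13) (.e (nat_lit 65617) (nat_lit 10) (.e (nat_lit 344087) (nat_lit 18) .nil))))) (.g (nat_lit 0) (.e (nat_lit 252876) (nat_lit 0) .nil) .nil)))))) (.nd (nat_lit 7) (.nd (nat_lit 8) (.nd (nat_lit 9) 
(.lf (nat_lit 532605) (.g (nat_lit 2071) (.e (nat_lit 57379) (nat_lit 3) (.e (nat_lit 98366) (nat_lit 27) (.e (nat_lit 434231) (nat_lit 23) (.e (nat_lit 532514) (nat_lit 3) (.e (nat_lit 114707) (nat_lit 20) .nil))))) (.g (nat_lit 0) (.e (nat_lit 251533) (nat_lit 0) .nil) .nil))) 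
(.lf (nat_lit 533117) (.g (nat_lit 3149) (.e (nat_lit 57389) (nat_lit 5) (.e (nat_lit 114697) (nat_lit 11) (.e (nat_lit 426188) (nat_lit 9) (.e (nat_lit 426555) (nat_lit 32) (.e (nat_lit 376860) (nat_lit 21) (.e (nat_lit 57851) (nat_lit 252) .nil)))))) (.g (nat_lit 1) (.e (nat_lit 252309) (nat_lit 0) .nil) .nil)))) (.nd (nat_lit 9) 
(.lf (nat_lit 532861) (.g (nat_lit 303) (.e (nat_lit 57388) (nat_lit 5) (.e (nat_lit 114697) (nat_lit 11) (.e (nat_lit 426196) (nat_lit 9) .nil))) (.g (nat_lit 0) (.e (nat_lit 251845) (nat_lit 0) .nil) .nil))) 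
(.lf (nat_lit 533373) (.g (nat_lit 1195) (.e (nat_lit 57405) (nat_lit 12) (.e (nat_lit 336443) (nat_lit 32) (.e (nat_lit 466981) (nat_lit 23) (.e (nat_lit 204809) (nat_lit 9) .nil)))) (.g (nat_lit 0) (.e (nat_lit 252790) (nat_lit 0) .nil) .nil))))) (.nd (nat_lit 8) (.nd (nat_lit 9) 
(.lf (nat_lit 532733) (.g (nat_lit 2674) (.e (nat_lit 57379) (nat_lit 3) (.e (nat_lit 98367) (nat_lit 27) (.e (nat_lit 434246) (nat_lit 28) (.e (nat_lit 573489) (nat_lit 14) (.e (nat_lit 73755) (nat_lit 8) (.e (nat_lit 557090) (nat_lit 12) (.e (nat_lit 163841) (nat_lit 0) (.e (nat_lit 5940) (nat_lit 322) .nil)))))))) (.g (nat_lit 1) (.e (nat_lit 251661) (nat_lit 0) .nil) .nil))) 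
(.lf (nat_lit 533245) (.g (nat_lit 3292) (.e (nat_lit 57389) (nat_lit 5) (.e (nat_lit 114698) (nat_lit 11) (.e (nat_lit 426199) (nat_lit 9) (.e (nat_lit 426555) (nat_lit 32) (.e (nat_lit 376860) (nat_lit 21) (.e (nat_lit 57851) (nat_lit 252) .nil)))))) (.g (nat_lit 1) (.e (nat_lit 252503) (nat_lit 0) .nil) .nil)))) (.nd (nat_lit 9) 
(.lf (nat_lit 532989) (.g (nat_lit 3601) (.e (nat_lit 57388) (nat_lit 5) (.e (nat_lit 114698) (nat_lit 11) (.e (nat_lit 426197) (nat_lit 9) (.e (nat_lit 426555) (nat_lit 32) (.e (nat_lit 376859) (nat_lit 21) (.e (nat_lit 57846) (nat_lit 252) .nil)))))) (.g (nat_lit 1) (.e (nat_lit 252065) (nat_lit 0) .nil) .nil))) 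
(.lf (nat_lit 533501) (.g (nat_lit 3230) (.e (nat_lit 57407) (nat_lit 12) (.e (nat_lit 336019) (nat_lit 3) (.e (nat_lit 98372) (nat_lit 29) (.e (nat_lit 450586) (nat_lit 10) (.e (nat_lit 573475) (nat_lit 12) (.e (nat_lit 57348) (nat_lit 0) (.e (nat_lit 7261) (nat_lit 384) .nil))))))) (.g (nat_lit 1) (.e (nat_lit 252969) (nat_lit 0) .nil) .nil))))))))))) 
(.nd (nat_lit 2) (.nd (nat_lit 3) (.nd (nat_lit 4) (.nd (nat_lit 5) (.nd (nat_lit 6) 
(.nd (nat_lit 7) (.nd (nat_lit 8) (.nd (nat_lit 9) 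
(.lf (nat_lit 532483) (.g (nat_lit 4149) (.e (nat_lit 57379) (nat_lit 3) (.e (nat_lit 98342) (nat_lit 20) (.e (nat_lit 221212) (nat_lit 22) (.e (nat_lit 196670) (nat_lit 14) (.e (nat_lit 73746) (nat_lit 3) (.e (nat_lit 516120) (nat_lit 1) (.e (nat_lit 164181) (nat_lit 154) .nil))))))) (.g (nat_lit 1) (.e (nat_lit 251411) (nat_lit 0) .nil) .nil))) 
(.lf (nat_lit 532995) (.g (nat_lit 3726) (.e (nat_lit 57388) (nat_lit 5) (.e (nat_lit 114698) (nat_lit 11) (.e (nat_lit 426197) (nat_lit 9) (.e (nat_lit 426555) (nat_lit 32) (.e (nat_lit 376860) (nat_lit 21) (.e (nat_lit 57852) (nat_lit 252) .nil)))))) (.g (nat_lit 1) (.e (nat_lit 252071) (nat_lit 0) .nil) .nil)))) (.nd (nat_lit 9) 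
(.lf (nat_lit 532739) (.g (nat_lit 4153) (.e (nat_lit 57379) (nat_lit 3) (.e (nat_lit 98367) (nat_lit 27) (.e (nat_lit 434247) (nat_lit 28) (.e (nat_lit 573489) (nat_lit 14) (.e (nat_lit 73755) (nat_lit 8) (.e (nat_lit 557090) (nat_lit 12) (.e (nat_lit 163844) (nat_lit 0) (.e (nat_lit 5940) (nat_lit 322) .nil)))))))) (.g (nat_lit 1) (.e (nat_lit 251667) (nat_lit 0) .nil) .nil))) 
(.lf (nat_lit 533251) (.g (nat_lit 3451) (.e (nat_lit 57389) (nat_lit 5) (.e (nat_lit 114698) (nat_lit 11) (.e (nat_lit 426200) (nat_lit 9) (.e (nat_lit 426555) (nat_lit 32) (.e (nat_lit 376857) (nat_lit 21) (.e (nat_lit 57851) (nat_lit 252) .nil)))))) (.g (nat_lit 1) (.e (nat_lit 252509) (nat_lit 0) .nil) .nil))))) (.nd (nat_lit 8) (.nd (nat_lit 9) 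
(.lf (nat_lit 532611) (.g (nat_lit 3286) (.e (nat_lit 57379) (nat_lit 3) (.e (nat_lit 98366) (nat_lit 27) (.e (nat_lit 434231) (nat_lit 23) (.e (nat_lit 532514) (nat_lit 3) (.e (nat_lit 114718) (nat_lit 23) (.e (nat_lit 98325) (nat_lit 17) (.e (nat_lit 2458) (nat_lit 157) (.e (nat_lit 5939) (nat_lit 322) .nil)))))))) (.g (nat_lit 1) (.e (nat_lit 251539) (nat_lit 0) .nil) .nil))) 
(.lf (nat_lit 533123) (.g (nat_lit 3171) (.e (nat_lit 57389) (nat_lit 5) (.e (nat_lit 114697) (nat_lit 11) (.e (nat_lit 426190) (nat_lit 9) (.e (nat_lit 426555) (nat_lit 32) (.e (nat_lit 376857) (nat_lit 21) (.e (nat_lit 57851) (nat_lit 252) .nil)))))) (.g (nat_lit 1) (.e (nat_lit 252315) (nat_lit 0) .nil) .nil)))) (.nd (nat_lit 9) 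
(.lf (nat_lit 532867) (.g (nat_lit 280) (.e (nat_lit 57388) (nat_lit 5) (.e (nat_lit 114697) (nat_lit 11) (.e (nat_lit 426198) (nat_lit 9) .nil))) (.g (nat_lit 0) (.e (nat_lit 251851) (nat_lit 0) .nil) .nil))) 
(.lf (nat_lit 533379) (.g (nat_lit 2281) (.e (nat_lit 57406) (nat_lit 12) (.e (nat_lit 336018) (nat_lit 3) (.e (nat_lit 98372) (nat_lit 29) (.e (nat_lit 450586) (nat_lit 10) (.e (nat_lit 573473) (nat_lit 12) (.e (nat_lit 57347) (nat_lit 0) (.e (nat_lit 7265) (nat_lit 384) .nil))))))) (.g (nat_lit 1) (.e (nat_lit 252815) (nat_lit 0) .nil) .nil)))))) 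
(.nd (nat_lit 7) (.nd (nat_lit 8) (.nd (nat_lit 9) 
(.lf (nat_lit 532547) (.g (nat_lit 2426) (.e (nat_lit 57379) (nat_lit 3) (.e (nat_lit 98365) (nat_lit 26) (.e (nat_lit 426325) (nat_lit 13) (.e (nat_lit 483337) (nat_lit 9) (.e (nat_lit 426030) (nat_lit 0) (.e (nat_lit 2457) (nat_lit 157) (.e (nat_lit 5939) (nat_lit 322) .nil))))))) (.g (nat_lit 1) (.e (nat_lit 251475) (nat_lit 0) .nil) .nil))) 
(.lf (nat_lit 533059) (.g (nat_lit 3717) (.e (nat_lit 57388) (nat_lit 5) (.e (nat_lit 114698) (nat_lit 11) (.e (nat_lit 426200) (nat_lit 9) (.e (nat_lit 426555) (nat_lit 32) (.e (nat_lit 376859) (nat_lit 21) (.e (nat_lit 57847) (nat_lit 252) .nil)))))) (.g (nat_lit 1) (.e (nat_lit 252135) (nat_lit 0) .nil) .nil)))) (.nd (nat_lit 9) 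
(.lf (nat_lit 532803) (.g (nat_lit 1962) (.e (nat_lit 57388) (nat_lit 5) (.e (nat_lit 114696) (nat_lit 11) (.e (nat_lit 426230) (nat_lit 9) (.e (nat_lit 426554) (nat_lit 32) (.e (nat_lit 376860) (nat_lit 21) (.e (nat_lit 57852) (nat_lit 252) .nil)))))) (.g (nat_lit 1) (.e (nat_lit 251787) (nat_lit 0) .nil) .nil))) 
(.lf (nat_lit 533315) (.g (nat_lit 2999) (.e (nat_lit 57390) (nat_lit 5) (.e (nat_lit 114697) (nat_lit 11) (.e (nat_lit 426200) (nat_lit 9) (.e (nat_lit 426555) (nat_lit 32) (.e (nat_lit 376857) (nat_lit 21) (.e (nat_lit 57847) (nat_lit 252) .nil)))))) (.g (nat_lit 1) (.e (nat_lit 252639) (nat_lit 0) .nil) .nil))))) (.nd (nat_lit 8) (.nd (nat_lit 9) 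
(.lf (nat_lit 532675) (.g (nat_lit 2977) (.e (nat_lit 57379) (nat_lit 3) (.e (nat_lit 98366) (nat_lit 27) (.e (nat_lit 434247) (nat_lit 28) (.e (nat_lit 573489) (nat_lit 14) (.e (nat_lit 73755) (nat_lit 8) (.e (nat_lit 557091) (nat_lit 12) (.e (nat_lit 163844) (nat_lit 0) (.e (nat_lit 5943) (nat_lit 322) .nil)))))))) (.g (nat_lit 1) (.e (nat_lit 251603) (nat_lit 0) .nil) .nil))) 
(.lf (nat_lit 533187) (.g (nat_lit 3045) (.e (nat_lit 57389) (nat_lit 5) (.e (nat_lit 114698) (nat_lit 11) (.e (nat_lit 426190) (nat_lit 9) (.e (nat_lit 426555) (nat_lit 32) (.e (nat_lit 376857) (nat_lit 21) (.e (nat_lit 57844) (nat_lit 252) .nil)))))) (.g (nat_lit 1) (.e (nat_lit 252445) (nat_lit 0) .nil) .nil)))) (.nd (nat_lit 9) 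
(.lf (nat_lit 532931) (.g (nat_lit 1517) (.e (nat_lit 57388) (nat_lit 5) (.e (nat_lit 114698) (nat_lit 11) (.e (nat_lit 426124) (nat_lit 2) .nil))) (.g (nat_lit 0) (.e (nat_lit 251993) (nat_lit 0) .nil) .nil))) 
(.lf (nat_lit 533443) (.g (nat_lit 2392) (.e (nat_lit 57406) (nat_lit 12) (.e (nat_lit 336316) (nat_lit 17) (.e (nat_lit 196666) (nat_lit 13) (.e (nat_lit 65617) (nat_lit 10) (.e (nat_lit 344096) (nat_lit 18) (.e (nat_lit 7697) (nat_lit 412) (.e (nat_lit 57364) (nat_lit 1) (.e (nat_lit 57851) (nat_lit 252) .nil)))))))) (.g (nat_lit 1) (.e (nat_lit 252882) (nat_lit 0) .nil) .nil))))))) 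
(.nd (nat_lit 6) (.nd (nat_lit 7) (.nd (nat_lit 8) (.nd (nat_lit 9) 
(.lf (nat_lit 532515) (.g (nat_lit 1734) (.e (nat_lit 57379) (nat_lit 3) (.e (nat_lit 98354) (nat_lit 26) (.e (nat_lit 426131) (nat_lit 3) (.e (nat_lit 204837) (nat_lit 20) (.e (nat_lit 114718) (nat_lit 23) .nil))))) (.g (nat_lit 0) (.e (nat_lit 251443) (nat_lit 0) .nil) .nil))) 
(.lf (nat_lit 533027) (.g (nat_lit 2833) (.e (nat_lit 57388) (nat_lit 5) (.e (nat_lit 114698) (nat_lit 11) (.e (nat_lit 426198) (nat_lit 9) (.e (nat_lit 426555) (nat_lit 32) (.e (nat_lit 376859) (nat_lit 21) (.e (nat_lit 57851) (nat_lit 252) .nil)))))) (.g (nat_lit 1) (.e (nat_lit 252103) (nat_lit 0) .nil) .nil)))) (.nd (nat_lit 9) 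
(.lf (nat_lit 532771) (.g (nat_lit 2614) (.e (nat_lit 57381) (nat_lit 4) (.e (nat_lit 106536) (nat_lit 11) (.e (nat_lit 16434) (nat_lit 9) (.e (nat_lit 426555) (nat_lit 32) (.e (nat_lit 376857) (nat_lit 21) .nil))))) (.g (nat_lit 0) (.e (nat_lit 251699) (nat_lit 0) .nil) .nil))) 
(.lf (nat_lit 533283) (.g (nat_lit 2842) (.e (nat_lit 57390) (nat_lit 5) (.e (nat_lit 114694) (nat_lit 11) (.e (nat_lit 426200) (nat_lit 9) (.e (nat_lit 426555) (nat_lit 32) (.e (nat_lit 376857) (nat_lit 21) (.e (nat_lit 57846) (nat_lit 252) .nil)))))) (.g (nat_lit 1) (.e (nat_lit 252602) (nat_lit 0) .nil) .nil))))) (.nd (nat_lit 8) (.nd (nat_lit 9) 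
(.lf (nat_lit 532643) (.g (nat_lit 2936) (.e (nat_lit 57379) (nat_lit 3) (.e (nat_lit 98366) (nat_lit 27) (.e (nat_lit 434244) (nat_lit 28) (.e (nat_lit 573488) (nat_lit 14) (.e (nat_lit 73755) (nat_lit 8) (.e (nat_lit 557090) (nat_lit 12) (.e (nat_lit 163843) (nat_lit 0) (.e (nat_lit 5941) (nat_lit 322) .nil)))))))) (.g (nat_lit 1) (.e (nat_lit 251571) (nat_lit 0) .nil) .nil))) 
(.lf (nat_lit 533155) (.g (nat_lit 2986) (.e (nat_lit 57389) (nat_lit 5) (.e (nat_lit 114697) (nat_lit 11) (.e (nat_lit 426199) (nat_lit 9) (.e (nat_lit 426555) (nat_lit 32) (.e (nat_lit 376857) (nat_lit 21) (.e (nat_lit 57852) (nat_lit 252) .nil)))))) (.g (nat_lit 1) (.e (nat_lit 252347) (nat_lit 0) .nil) .nil)))) (.nd (nat_lit 9) 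
(.lf (nat_lit 532899) (.g (nat_lit 3132) (.e (nat_lit 57388) (nat_lit 5) (.e (nat_lit 114697) (nat_lit 11) (.e (nat_lit 426199) (nat_lit 9) (.e (nat_lit 426555) (nat_lit 32) (.e (nat_lit 376857) (nat_lit 21) (.e (nat_lit 57847) (nat_lit 252) .nil)))))) (.g (nat_lit 1) (.e (nat_lit 251884) (nat_lit 0) .nil) .nil))) 
(.lf (nat_lit 533411) (.g (nat_lit 4264) (.e (nat_lit 57406) (nat_lit 12) (.e (nat_lit 336019) (nat_lit 3) (.e (nat_lit 98373) (nat_lit 29) (.e (nat_lit 450587) (nat_lit 10) (.e (nat_lit 573478) (nat_lit 12) .nil))))) (.g (nat_lit 0) (.e (nat_lit 252847) (nat_lit 0) .nil) .nil)))))) (.nd (nat_lit 7) (.nd (nat_lit 8) (.nd (nat_lit 9) 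
(.lf (nat_lit 532579) (.g (nat_lit 2241) (.e (nat_lit 57379) (nat_lit 3) (.e (nat_lit 98365) (nat_lit 26) (.e (nat_lit 426325) (nat_lit 13) (.e (nat_lit 483341) (nat_lit 9) (.e (nat_lit 426028) (nat_lit 0) .nil))))) (.g (nat_lit 0) (.e (nat_lit 251507) (nat_lit 0) .nil) .nil))) 
(.lf (nat_lit 533091) (.g (nat_lit 2503) (.e (nat_lit 57388) (nat_lit 5) (.e (nat_lit 114716) (nat_lit 22) (.e (nat_lit 90158) (nat_lit 11) (.e (nat_lit 24651) (nat_lit 12) (.e (nat_lit 385066) (nat_lit 26) (.e (nat_lit 540416) (nat_lit 18) (.e (nat_lit 164399) (nat_lit 256) .nil))))))) (.g (nat_lit 1) (.e (nat_lit 252268) (nat_lit 0) .nil) .nil)))) (.nd (nat_lit 9) 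
(.lf (nat_lit 532835) (.g (nat_lit 2854) (.e (nat_lit 57388) (nat_lit 5) (.e (nat_lit 114697) (nat_lit 11) (.e (nat_lit 426188) (nat_lit 9) (.e (nat_lit 426555) (nat_lit 32) (.e (nat_lit 376859) (nat_lit 21) (.e (nat_lit 57844) (nat_lit 252) .nil)))))) (.g (nat_lit 1) (.e (nat_lit 251819) (nat_lit 0) .nil) .nil))) 
(.lf (nat_lit 533347) (.g (nat_lit 2463) (.e (nat_lit 57400) (nat_lit 10) (.e (nat_lit 319490) (nat_lit 0) (.e (nat_lit 5664) (nat_lit 312) (.e (nat_lit 3085) (nat_lit 191) (.e (nat_lit 483377) (nat_lit 22) (.e (nat_lit 327692) (nat_lit 1) (.e (nat_lit 8443) (nat_lit 140) .nil))))))) (.g (nat_lit 1) (.e (nat_lit 252715) (nat_lit 0) .nil) .nil))))) (.nd (nat_lit 8) (.nd (nat_lit 9) 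
(.lf (nat_lit 532707) (.g (nat_lit 2315) (.e (nat_lit 57379) (nat_lit 3) (.e (nat_lit 98367) (nat_lit 27) (.e (nat_lit 434231) (nat_lit 23) (.e (nat_lit 532513) (nat_lit 3) (.e (nat_lit 114714) (nat_lit 22) (.e (nat_lit 90162) (nat_lit 12) (.e (nat_lit 163850) (nat_lit 0) (.e (nat_lit 5939) (nat_lit 322) .nil)))))))) (.g (nat_lit 1) (.e (nat_lit 251635) (nat_lit 0) .nil) .nil))) 
(.lf (nat_lit 533219) (.g (nat_lit 3404) (.e (nat_lit 57389) (nat_lit 5) (.e (nat_lit 114698) (nat_lit 11) (.e (nat_lit 426198) (nat_lit 9) (.e (nat_lit 426542) (nat_lit 29) (.e (nat_lit 352309) (nat_lit 21) (.e (nat_lit 57846) (nat_lit 252) .nil)))))) (.g (nat_lit 1) (.e (nat_lit 252477) (nat_lit 0) .nil) .nil)))) (.nd (nat_lit 9) 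
(.lf (nat_lit 532963) (.g (nat_lit 3136) (.e (nat_lit 57388) (nat_lit 5) (.e (nat_lit 114698) (nat_lit 11) (.e (nat_lit 426190) (nat_lit 9) (.e (nat_lit 426555) (nat_lit 32) (.e (nat_lit 376859) (nat_lit 21) (.e (nat_lit 57844) (nat_lit 252) .nil)))))) (.g (nat_lit 1) (.e (nat_lit 252039) (nat_lit 0) .nil) .nil))) 
(.lf (nat_lit 533475) (.g (nat_lit 1901) (.e (nat_lit 57406) (nat_lit 12) (.e (nat_lit 336456) (nat_lit 34) (.e (nat_lit 483365) (nat_lit 18) (.e (nat_lit 57770) (nat_lit 227) (.e (nat_lit 2601) (nat_lit 163) .nil))))) (.g (nat_lit 0) (.e (nat_lit 252943) (nat_lit 0) .nil) .nil)))))))) (.nd (nat_lit 5) (.nd (nat_lit 6) (.nd (nat_lit 7) (.nd (nat_lit 8) (.nd (nat_lit 9) 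
(.lf (nat_lit 532499) (.g (nat_lit 2473) (.e (nat_lit 57379) (nat_lit 3) (.e (nat_lit 98342) (nat_lit 20) (.e (nat_lit 221215) (nat_lit 23) (.e (nat_lit 204861) (nat_lit 26) (.e (nat_lit 336025) (nat_lit 3) (.e (nat_lit 98334) (nat_lit 18) (.e (nat_lit 164183) (nat_lit 154) .nil))))))) (.g (nat_lit 1) (.e (nat_lit 251427) (nat_lit 0) .nil) .nil))) 
(.lf (nat_lit 533011) (.g (nat_lit 3447) (.e (nat_lit 57388) (nat_lit 5) (.e (nat_lit 114698) (nat_lit 11) (.e (nat_lit 426198) (nat_lit 9) (.e (nat_lit 426542) (nat_lit 29) (.e (nat_lit 352309) (nat_lit 21) (.e (nat_lit 57848) (nat_lit 252) .nil)))))) (.g (nat_lit 1) (.e (nat_lit 252087) (nat_lit 0) .nil) .nil)))) (.nd (nat_lit 9) 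
(.lf (nat_lit 532755) (.g (nat_lit 4338) (.e (nat_lit 57379) (nat_lit 3) (.e (nat_lit 98368) (nat_lit 27) (.e (nat_lit 434247) (nat_lit 28) (.e (nat_lit 573489) (nat_lit 14) (.e (nat_lit 73755) (nat_lit 8) (.e (nat_lit 557090) (nat_lit 12) (.e (nat_lit 163843) (nat_lit 0) (.e (nat_lit 5940) (nat_lit 322) .nil)))))))) (.g (nat_lit 1) (.e (nat_lit 251683) (nat_lit 0) .nil) .nil))) 
(.lf (nat_lit 533267) (.g (nat_lit 3496) (.e (nat_lit 57389) (nat_lit 5) (.e (nat_lit 114698) (nat_lit 11) (.e (nat_lit 426334) (nat_lit 13) (.e (nat_lit 483393) (nat_lit 23) (.e (nat_lit 335988) (nat_lit 1) (.e (nat_lit 57854) (nat_lit 252) .nil)))))) (.g (nat_lit 1) (.e (nat_lit 252554) (nat_lit 0) .nil) .nil))))) (.nd (nat_lit 8) (.nd (nat_lit 9) 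
(.lf (nat_lit 532627) (.g (nat_lit 3030) (.e (nat_lit 57379) (nat_lit 3) (.e (nat_lit 98366) (nat_lit 27) (.e (nat_lit 434244) (nat_lit 28) (.e (nat_lit 573487) (nat_lit 14) (.e (nat_lit 73753) (nat_lit 8) (.e (nat_lit 557090) (nat_lit 12) (.e (nat_lit 163841) (nat_lit 0) (.e (nat_lit 5943) (nat_lit 322) .nil)))))))) (.g (nat_lit 1) (.e (nat_lit 251555) (nat_lit 0) .nil) .nil))) 
(.lf (nat_lit 533139) (.g (nat_lit 3378) (.e (nat_lit 57389) (nat_lit 5) (.e (nat_lit 114697) (nat_lit 11) (.e (nat_lit 426198) (nat_lit 9) (.e (nat_lit 426542) (nat_lit 29) (.e (nat_lit 352307) (nat_lit 21) (.e (nat_lit 57854) (nat_lit 252) .nil)))))) (.g (nat_lit 1) (.e (nat_lit 252331) (nat_lit 0) .nil) .nil)))) (.nd (nat_lit 9) 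
(.lf (nat_lit 532883) (.g (nat_lit 2646) (.e (nat_lit 57388) (nat_lit 5) (.e (nat_lit 114697) (nat_lit 11) (.e (nat_lit 426198) (nat_lit 9) (.e (nat_lit 426555) (nat_lit 32) (.e (nat_lit 376857) (nat_lit 21) (.e (nat_lit 57852) (nat_lit 252) .nil)))))) (.g (nat_lit 1) (.e (nat_lit 251867) (nat_lit 0) .nil) .nil))) 
(.lf (nat_lit 533395) (.g (nat_lit 3357) (.e (nat_lit 57406) (nat_lit 12) (.e (nat_lit 336019) (nat_lit 3) (.e (nat_lit 98359) (nat_lit 26) (.e (nat_lit 426286) (nat_lit 10) (.e (nat_lit 434248) (nat_lit 28) (.e (nat_lit 573475) (nat_lit 12) (.e (nat_lit 57348) (nat_lit 0) (.e (nat_lit 7265) (nat_lit 384) .nil)))))))) (.g (nat_lit 1) (.e (nat_lit 252831) (nat_lit 0) .nil) .nil)))))) 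
(.nd (nat_lit 7) (.nd (nat_lit 8) (.nd (nat_lit 9) 
(.lf (nat_lit 532563) (.g (nat_lit 3092) (.e (nat_lit 57379) (nat_lit 3) (.e (nat_lit 98365) (nat_lit 26) (.e (nat_lit 426325) (nat_lit 13) (.e (nat_lit 483337) (nat_lit 9) (.e (nat_lit 426100) (nat_lit 1) (.e (nat_lit 164396) (nat_lit 256) .nil)))))) (.g (nat_lit 1) (.e (nat_lit 251491) (nat_lit 0) .nil) .nil))) 
(.lf (nat_lit 533075) (.g (nat_lit 2628) (.e (nat_lit 57388) (nat_lit 5) (.e (nat_lit 114698) (nat_lit 11) (.e (nat_lit 426334) (nat_lit 13) (.e (nat_lit 483383) (nat_lit 23) (.e (nat_lit 336000) (nat_lit 1) (.e (nat_lit 57848) (nat_lit 252) .nil)))))) (.g (nat_lit 1) (.e (nat_lit 252209) (nat_lit 0) .nil) .nil)))) (.nd (nat_lit 9) 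
(.lf (nat_lit 532819) (.g (nat_lit 2295) (.e (nat_lit 57388) (nat_lit 5) (.e (nat_lit 114696) (nat_lit 11) (.e (nat_lit 426262) (nat_lit 9) (.e (nat_lit 426541) (nat_lit 29) (.e (nat_lit 352309) (nat_lit 21) (.e (nat_lit 57846) (nat_lit 252) .nil)))))) (.g (nat_lit 1) (.e (nat_lit 251803) (nat_lit 0) .nil) .nil))) 
(.lf (nat_lit 533331) (.g (nat_lit 2818) (.e (nat_lit 57390) (nat_lit 5) (.e (nat_lit 114698) (nat_lit 11) (.e (nat_lit 426199) (nat_lit 9) (.e (nat_lit 426555) (nat_lit 32) (.e (nat_lit 376859) (nat_lit 21) (.e (nat_lit 57847) (nat_lit 252) .nil)))))) (.g (nat_lit 1) (.e (nat_lit 252669) (nat_lit 0) .nil) .nil))))) (.nd (nat_lit 8) (.nd (nat_lit 9) 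
(.lf (nat_lit 532691) (.g (nat_lit 3057) (.e (nat_lit 57379) (nat_lit 3) (.e (nat_lit 98366) (nat_lit 27) (.e (nat_lit 434248) (nat_lit 28) (.e (nat_lit 573489) (nat_lit 14) (.e (nat_lit 73755) (nat_lit 8) (.e (nat_lit 557090) (nat_lit 12) (.e (nat_lit 163842) (nat_lit 0) (.e (nat_lit 5933) (nat_lit 322) .nil)))))))) (.g (nat_lit 1) (.e (nat_lit 251619) (nat_lit 0) .nil) .nil))) 
(.lf (nat_lit 533203) (.g (nat_lit 2243) (.e (nat_lit 57389) (nat_lit 5) (.e (nat_lit 114698) (nat_lit 11) (.e (nat_lit 426197) (nat_lit 9) (.e (nat_lit 426542) (nat_lit 29) (.e (nat_lit 352309) (nat_lit 21) (.e (nat_lit 57844) (nat_lit 252) .nil)))))) (.g (nat_lit 1) (.e (nat_lit 252461) (nat_lit 0) .nil) .nil)))) (.nd (nat_lit 9) 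
(.lf (nat_lit 532947) (.g (nat_lit 3284) (.e (nat_lit 57388) (nat_lit 5) (.e (nat_lit 114698) (nat_lit 11) (.e (nat_lit 426188) (nat_lit 9) (.e (nat_lit 426555) (nat_lit 32) (.e (nat_lit 376859) (nat_lit 21) (.e (nat_lit 57847) (nat_lit 252) .nil)))))) (.g (nat_lit 1) (.e (nat_lit 252023) (nat_lit 0) .nil) .nil))) 
(.lf (nat_lit 533459) (.g (nat_lit 1909) (.e (nat_lit 57406) (nat_lit 12) (.e (nat_lit 336454) (nat_lit 34) (.e (nat_lit 483380) (nat_lit 23) (.e (nat_lit 336258) (nat_lit 15) (.e (nat_lit 3248) (nat_lit 197) .nil))))) (.g (nat_lit 0) (.e (nat_lit 252927) (nat_lit 0) .nil) .nil))))))) (.nd (nat_lit 6) (.nd (nat_lit 7) (.nd (nat_lit 8) (.nd (nat_lit 9) 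
(.lf (nat_lit 532531) (.g (nat_lit 3382) (.e (nat_lit 57379) (nat_lit 3) (.e (nat_lit 98365) (nat_lit 26) (.e (nat_lit 426188) (nat_lit 9) (.e (nat_lit 426566) (nat_lit 34) (.e (nat_lit 393252) (nat_lit 18) (.e (nat_lit 164396) (nat_lit 256) .nil)))))) (.g (nat_lit 1) (.e (nat_lit 251459) (nat_lit 0) .nil) .nil))) 
(.lf (nat_lit 533043) (.g (nat_lit 3347) (.e (nat_lit 57388) (nat_lit 5) (.e (nat_lit 114698) (nat_lit 11) (.e (nat_lit 426199) (nat_lit 9) (.e (nat_lit 426555) (nat_lit 32) (.e (nat_lit 376859) (nat_lit 21) (.e (nat_lit 57847) (nat_lit 252) .nil)))))) (.g (nat_lit 1) (.e (nat_lit 252119) (nat_lit 0) .nil) .nil)))) (.nd (nat_lit 9) 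
(.lf (nat_lit 532787) (.g (nat_lit 1900) (.e (nat_lit 57384) (nat_lit 4) (.e (nat_lit 106534) (nat_lit 11) (.e (nat_lit 16462) (nat_lit 13) (.e (nat_lit 483393) (nat_lit 23) (.e (nat_lit 335996) (nat_lit 1) .nil))))) (.g (nat_lit 0) (.e (nat_lit 251755) (nat_lit 0) .nil) .nil))) 
(.lf (nat_lit 533299) (.g (nat_lit 2816) (.e (nat_lit 57390) (nat_lit 5) (.e (nat_lit 114697) (nat_lit 11) (.e (nat_lit 426190) (nat_lit 9) (.e (nat_lit 426555) (nat_lit 32) (.e (nat_lit 376859) (nat_lit 21) (.e (nat_lit 57847) (nat_lit 252) .nil)))))) (.g (nat_lit 1) (.e (nat_lit 252622) (nat_lit 0) .nil) .nil))))) (.nd (nat_lit 8) (.nd (nat_lit 9) 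
(.lf (nat_lit 532659) (.g (nat_lit 2760) (.e (nat_lit 57379) (nat_lit 3) (.e (nat_lit 98366) (nat_lit 27) (.e (nat_lit 434245) (nat_lit 28) (.e (nat_lit 573487) (nat_lit 14) (.e (nat_lit 73753) (nat_lit 8) (.e (nat_lit 557091) (nat_lit 12) (.e (nat_lit 163840) (nat_lit 0) (.e (nat_lit 5939) (nat_lit 322) .nil)))))))) (.g (nat_lit 1) (.e (nat_lit 251587) (nat_lit 0) .nil) .nil))) 
(.lf (nat_lit 533171) (.g (nat_lit 2374) (.e (nat_lit 57389) (nat_lit 5) (.e (nat_lit 114698) (nat_lit 11) (.e (nat_lit 426188) (nat_lit 9) (.e (nat_lit 426555) (nat_lit 32) (.e (nat_lit 376856) (nat_lit 21) (.e (nat_lit 57854) (nat_lit 252) .nil)))))) (.g (nat_lit 1) (.e (nat_lit 252429) (nat_lit 0) .nil) .nil)))) (.nd (nat_lit 9) 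
(.lf (nat_lit 532915) (.g (nat_lit 2687) (.e (nat_lit 57388) (nat_lit 5) (.e (nat_lit 114697) (nat_lit 11) (.e (nat_lit 426200) (nat_lit 9) (.e (nat_lit 426555) (nat_lit 32) (.e (nat_lit 376857) (nat_lit 21) (.e (nat_lit 57851) (nat_lit 252) .nil)))))) (.g (nat_lit 1) (.e (nat_lit 251900) (nat_lit 0) .nil) .nil))) 
(.lf (nat_lit 533427) (.g (nat_lit 1380) (.e (nat_lit 57406) (nat_lit 12) (.e (nat_lit 336316) (nat_lit 17) (.e (nat_lit 196666) (nat_lit 13) (.e (nat_lit 65583) (nat_lit 7) .nil)))) (.g (nat_lit 0) (.e (nat_lit 252864) (nat_lit 0) .nil) .nil)))))) (.nd (nat_lit 7) (.nd (nat_lit 8) (.nd (nat_lit 9) 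
(.lf (nat_lit 532595) (.g (nat_lit 2119) (.e (nat_lit 57379) (nat_lit 3) (.e (nat_lit 98366) (nat_lit 27) (.e (nat_lit 434231) (nat_lit 23) (.e (nat_lit 532513) (nat_lit 3) (.e (nat_lit 114708) (nat_lit 20) .nil))))) (.g (nat_lit 0) (.e (nat_lit 251523) (nat_lit 0) .nil) .nil))) 
(.lf (nat_lit 533107) (.g (nat_lit 2168) (.e (nat_lit 57389) (nat_lit 5) (.e (nat_lit 114697) (nat_lit 11) (.e (nat_lit 426188) (nat_lit 9) (.e (nat_lit 426555) (nat_lit 32) (.e (nat_lit 376856) (nat_lit 21) (.e (nat_lit 57854) (nat_lit 252) .nil)))))) (.g (nat_lit 1) (.e (nat_lit 252299) (nat_lit 0) .nil) .nil)))) (.nd (nat_lit 9) 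
(.lf (nat_lit 532851) (.g (nat_lit 3081) (.e (nat_lit 57388) (nat_lit 5) (.e (nat_lit 114697) (nat_lit 11) (.e (nat_lit 426190) (nat_lit 9) (.e (nat_lit 426555) (nat_lit 32) (.e (nat_lit 376857) (nat_lit 21) (.e (nat_lit 57853) (nat_lit 252) .nil)))))) (.g (nat_lit 1) (.e (nat_lit 251835) (nat_lit 0) .nil) .nil))) 
(.lf (nat_lit 533363) (.g (nat_lit 1585) (.e (nat_lit 57405) (nat_lit 12) (.e (nat_lit 336019) (nat_lit 3) (.e (nat_lit 98372) (nat_lit 29) (.e (nat_lit 450586) (nat_lit 10) .nil)))) (.g (nat_lit 0) (.e (nat_lit 252776) (nat_lit 0) .nil) .nil))))) (.nd (nat_lit 8) (.nd (nat_lit 9) 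
(.lf (nat_lit 532723) (.g (nat_lit 2729) (.e (nat_lit 57379) (nat_lit 3) (.e (nat_lit 98367) (nat_lit 27) (.e (nat_lit 434244) (nat_lit 28) (.e (nat_lit 573488) (nat_lit 14) (.e (nat_lit 73755) (nat_lit 8) (.e (nat_lit 557090) (nat_lit 12) (.e (nat_lit 171776) (nat_lit 0) (.e (nat_lit 5937) (nat_lit 322) .nil)))))))) (.g (nat_lit 1) (.e (nat_lit 251651) (nat_lit 0) .nil) .nil))) 
(.lf (nat_lit 533235) (.g (nat_lit 578) (.e (nat_lit 57389) (nat_lit 5) (.e (nat_lit 114698) (nat_lit 11) (.e (nat_lit 426199) (nat_lit 9) .nil))) (.g (nat_lit 0) (.e (nat_lit 252493) (nat_lit 0) .nil) .nil)))) (.nd (nat_lit 9) 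
(.lf (nat_lit 532979) (.g (nat_lit 2065) (.e (nat_lit 57388) (nat_lit 5) (.e (nat_lit 114698) (nat_lit 11) (.e (nat_lit 426197) (nat_lit 9) (.e (nat_lit 426555) (nat_lit 32) (.e (nat_lit 376856) (nat_lit 21) .nil))))) (.g (nat_lit 0) (.e (nat_lit 252055) (nat_lit 0) .nil) .nil))) 
(.lf (nat_lit 533491) (.g (nat_lit 1848) (.e (nat_lit 57406) (nat_lit 12) (.e (nat_lit 336456) (nat_lit 34) (.e (nat_lit 483383) (nat_lit 23) (.e (nat_lit 336286) (nat_lit 15) .nil)))) (.g (nat_lit 0) (.e (nat_lit 252959) (nat_lit 0) .nil) .nil))))))))) (.nd (nat_lit 4) (.nd (nat_lit 5) (.nd (nat_lit 6) (.nd (nat_lit 7) (.nd (nat_lit 8) (.nd (nat_lit 9) 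
(.lf (nat_lit 532491) (.g (nat_lit 2267) (.e (nat_lit 57379) (nat_lit 3) (.e (nat_lit 98342) (nat_lit 20) (.e (nat_lit 221215) (nat_lit 23) (.e (nat_lit 204861) (nat_lit 26) (.e (nat_lit 336020) (nat_lit 3) (.e (nat_lit 98334) (nat_lit 18) (.e (nat_lit 164183) (nat_lit 154) .nil))))))) (.g (nat_lit 1) (.e (nat_lit 251419) (nat_lit 0) .nil) .nil))) 
(.lf (nat_lit 533003) (.g (nat_lit 1785) (.e (nat_lit 57388) (nat_lit 5) (.e (nat_lit 114698) (nat_lit 11) (.e (nat_lit 426198) (nat_lit 9) (.e (nat_lit 426540) (nat_lit 29) (.e (nat_lit 352307) (nat_lit 21) .nil))))) (.g (nat_lit 0) (.e (nat_lit 252079) (nat_lit 0) .nil) .nil)))) (.nd (nat_lit 9) 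
(.lf (nat_lit 532747) (.g (nat_lit 4529) (.e (nat_lit 57379) (nat_lit 3) (.e (nat_lit 98367) (nat_lit 27) (.e (nat_lit 434248) (nat_lit 28) (.e (nat_lit 573489) (nat_lit 14) (.e (nat_lit 73755) (nat_lit 8) (.e (nat_lit 557090) (nat_lit 12) (.e (nat_lit 163843) (nat_lit 0) (.e (nat_lit 5943) (nat_lit 322) .nil)))))))) (.g (nat_lit 1) (.e (nat_lit 251675) (nat_lit 0) .nil) .nil))) 
(.lf (nat_lit 533259) (.g (nat_lit 3585) (.e (nat_lit 57389) (nat_lit 5) (.e (nat_lit 114698) (nat_lit 11) (.e (nat_lit 426200) (nat_lit 9) (.e (nat_lit 426555) (nat_lit 32) (.e (nat_lit 376860) (nat_lit 21) (.e (nat_lit 57851) (nat_lit 252) .nil)))))) (.g (nat_lit 1) (.e (nat_lit 252517) (nat_lit 0) .nil) .nil))))) (.nd (nat_lit 8) (.nd (nat_lit 9) 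
(.lf (nat_lit 532619) (.g (nat_lit 4044) (.e (nat_lit 57379) (nat_lit 3) (.e (nat_lit 98366) (nat_lit 27) (.e (nat_lit 434231) (nat_lit 23) (.e (nat_lit 532579) (nat_lit 26) (.e (nat_lit 426124) (nat_lit 2) (.e (nat_lit 196658) (nat_lit 12) (.e (nat_lit 57348) (nat_lit 0) (.e (nat_lit 7695) (nat_lit 412) .nil)))))))) (.g (nat_lit 1) (.e (nat_lit 251547) (nat_lit 0) .nil) .nil))) 
(.lf (nat_lit 533131) (.g (nat_lit 3202) (.e (nat_lit 57389) (nat_lit 5) (.e (nat_lit 114697) (nat_lit 11) (.e (nat_lit 426190) (nat_lit 9) (.e (nat_lit 426555) (nat_lit 32) (.e (nat_lit 376860) (nat_lit 21) (.e (nat_lit 57851) (nat_lit 252) .nil)))))) (.g (nat_lit 1) (.e (nat_lit 252323) (nat_lit 0) .nil) .nil)))) (.nd (nat_lit 9) 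
(.lf (nat_lit 532875) (.g (nat_lit 3355) (.e (nat_lit 57388) (nat_lit 5) (.e (nat_lit 114697) (nat_lit 11) (.e (nat_lit 426198) (nat_lit 9) (.e (nat_lit 426542) (nat_lit 29) (.e (nat_lit 352309) (nat_lit 21) (.e (nat_lit 57846) (nat_lit 252) .nil)))))) (.g (nat_lit 1) (.e (nat_lit 251859) (nat_lit 0) .nil) .nil))) 
(.lf (nat_lit 533387) (.g (nat_lit 4532) (.e (nat_lit 57406) (nat_lit 12) (.e (nat_lit 336018) (nat_lit 3) (.e (nat_lit 98373) (nat_lit 29) (.e (nat_lit 450588) (nat_lit 10) (.e (nat_lit 573473) (nat_lit 12) (.e (nat_lit 57348) (nat_lit 0) (.e (nat_lit 7261) (nat_lit 384) .nil))))))) (.g (nat_lit 1) (.e (nat_lit 252823) (nat_lit 0) .nil) .nil)))))) 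
(.nd (nat_lit 7) (.nd (nat_lit 8) (.nd (nat_lit 9) 
(.lf (nat_lit 532555) (.g (nat_lit 2609) (.e (nat_lit 57379) (nat_lit 3) (.e (nat_lit 98365) (nat_lit 26) (.e (nat_lit 426325) (nat_lit 13) (.e (nat_lit 483337) (nat_lit 9) (.e (nat_lit 426035) (nat_lit 0) (.e (nat_lit 2468) (nat_lit 157) (.e (nat_lit 5939) (nat_lit 322) .nil))))))) (.g (nat_lit 1) (.e (nat_lit 251483) (nat_lit 0) .nil) .nil))) 
(.lf (nat_lit 533067) (.g (nat_lit 2990) (.e (nat_lit 57388) (nat_lit 5) (.e (nat_lit 114698) (nat_lit 11) (.e (nat_lit 426325) (nat_lit 13) (.e (nat_lit 483393) (nat_lit 23) (.e (nat_lit 335987) (nat_lit 1) (.e (nat_lit 57852) (nat_lit 252) .nil)))))) (.g (nat_lit 1) (.e (nat_lit 252153) (nat_lit 0) .nil) .nil)))) (.nd (nat_lit 9) 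
(.lf (nat_lit 532811) (.g (nat_lit 1927) (.e (nat_lit 57388) (nat_lit 5) (.e (nat_lit 114696) (nat_lit 11) (.e (nat_lit 426234) (nat_lit 9) (.e (nat_lit 426554) (nat_lit 32) (.e (nat_lit 376857) (nat_lit 21) (.e (nat_lit 57846) (nat_lit 252) .nil)))))) (.g (nat_lit 1) (.e (nat_lit 251795) (nat_lit 0) .nil) .nil))) 
(.lf (nat_lit 533323) (.g (nat_lit 1597) (.e (nat_lit 57390) (nat_lit 5) (.e (nat_lit 114698) (nat_lit 11) (.e (nat_lit 426188) (nat_lit 9) (.e (nat_lit 426555) (nat_lit 32) (.e (nat_lit 376859) (nat_lit 21) (.e (nat_lit 57848) (nat_lit 252) .nil)))))) (.g (nat_lit 1) (.e (nat_lit 252661) (nat_lit 0) .nil) .nil))))) (.nd (nat_lit 8) (.nd (nat_lit 9) 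
(.lf (nat_lit 532683) (.g (nat_lit 2859) (.e (nat_lit 57379) (nat_lit 3) (.e (nat_lit 98366) (nat_lit 27) (.e (nat_lit 434248) (nat_lit 28) (.e (nat_lit 573487) (nat_lit 14) (.e (nat_lit 73753) (nat_lit 8) (.e (nat_lit 557091) (nat_lit 12) (.e (nat_lit 163841) (nat_lit 0) (.e (nat_lit 5943) (nat_lit 322) .nil)))))))) (.g (nat_lit 1) (.e (nat_lit 251611) (nat_lit 0) .nil) .nil))) 
(.lf (nat_lit 533195) (.g (nat_lit 2904) (.e (nat_lit 57389) (nat_lit 5) (.e (nat_lit 114698) (nat_lit 11) (.e (nat_lit 426190) (nat_lit 9) (.e (nat_lit 426555) (nat_lit 32) (.e (nat_lit 376859) (nat_lit 21) (.e (nat_lit 57847) (nat_lit 252) .nil)))))) (.g (nat_lit 1) (.e (nat_lit 252453) (nat_lit 0) .nil) .nil)))) (.nd (nat_lit 9) 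
(.lf (nat_lit 532939) (.g (nat_lit 2477) (.e (nat_lit 57388) (nat_lit 5) (.e (nat_lit 114698) (nat_lit 11) (.e (nat_lit 426188) (nat_lit 9) (.e (nat_lit 426555) (nat_lit 32) (.e (nat_lit 376857) (nat_lit 21) (.e (nat_lit 57844) (nat_lit 252) .nil)))))) (.g (nat_lit 1) (.e (nat_lit 252015) (nat_lit 0) .nil) .nil))) 
(.lf (nat_lit 533451) (.g (nat_lit 3936) (.e (nat_lit 57406) (nat_lit 12) (.e (nat_lit 336398) (nat_lit 27) (.e (nat_lit 426290) (nat_lit 10) (.e (nat_lit 434231) (nat_lit 23) (.e (nat_lit 532579) (nat_lit 26) (.e (nat_lit 426107) (nat_lit 1) (.e (nat_lit 164403) (nat_lit 256) .nil))))))) (.g (nat_lit 1) (.e (nat_lit 252918) (nat_lit 0) .nil) .nil))))))) 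
(.nd (nat_lit 6) (.nd (nat_lit 7) (.nd (nat_lit 8) (.nd (nat_lit 9) 
(.lf (nat_lit 532523) (.g (nat_lit 2138) (.e (nat_lit 57379) (nat_lit 3) (.e (nat_lit 98363) (nat_lit 26) (.e (nat_lit 426129) (nat_lit 3) (.e (nat_lit 204838) (nat_lit 20) (.e (nat_lit 114708) (nat_lit 20) .nil))))) (.g (nat_lit 0) (.e (nat_lit 251451) (nat_lit 0) .nil) .nil))) 
(.lf (nat_lit 533035) (.g (nat_lit 2672) (.e (nat_lit 57388) (nat_lit 5) (.e (nat_lit 114698) (nat_lit 11) (.e (nat_lit 426199) (nat_lit 9) (.e (nat_lit 426555) (nat_lit 32) (.e (nat_lit 376857) (nat_lit 21) (.e (nat_lit 57844) (nat_lit 252) .nil)))))) (.g (nat_lit 1) (.e (nat_lit 252111) (nat_lit 0) .nil) .nil)))) (.nd (nat_lit 9) 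
(.lf (nat_lit 532779) (.g (nat_lit 1995) (.e (nat_lit 57382) (nat_lit 4) (.e (nat_lit 106536) (nat_lit 11) (.e (nat_lit 16434) (nat_lit 9) (.e (nat_lit 426555) (nat_lit 32) .nil)))) (.g (nat_lit 0) (.e (nat_lit 251726) (nat_lit 0) .nil) .nil))) 
(.lf (nat_lit 533291) (.g (nat_lit 2071) (.e (nat_lit 57390) (nat_lit 5) (.e (nat_lit 114696) (nat_lit 11) (.e (nat_lit 426262) (nat_lit 9) (.e (nat_lit 426541) (nat_lit 29) (.e (nat_lit 352307) (nat_lit 21) (.e (nat_lit 57849) (nat_lit 252) .nil)))))) (.g (nat_lit 1) (.e (nat_lit 252614) (nat_lit 0) .nil) .nil))))) (.nd (nat_lit 8) (.nd (nat_lit 9) 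
(.lf (nat_lit 532651) (.g (nat_lit 3352) (.e (nat_lit 57379) (nat_lit 3) (.e (nat_lit 98366) (nat_lit 27) (.e (nat_lit 434244) (nat_lit 28) (.e (nat_lit 573488) (nat_lit 14) (.e (nat_lit 73755) (nat_lit 8) (.e (nat_lit 557091) (nat_lit 12) (.e (nat_lit 163841) (nat_lit 0) (.e (nat_lit 5943) (nat_lit 322) .nil)))))))) (.g (nat_lit 1) (.e (nat_lit 251579) (nat_lit 0) .nil) .nil))) 
(.lf (nat_lit 533163) (.g (nat_lit 3042) (.e (nat_lit 57389) (nat_lit 5) (.e (nat_lit 114697) (nat_lit 11) (.e (nat_lit 426200) (nat_lit 9) (.e (nat_lit 426555) (nat_lit 32) (.e (nat_lit 376857) (nat_lit 21) (.e (nat_lit 57844) (nat_lit 252) .nil)))))) (.g (nat_lit 1) (.e (nat_lit 252355) (nat_lit 0) .nil) .nil)))) (.nd (nat_lit 9) 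
(.lf (nat_lit 532907) (.g (nat_lit 2534) (.e (nat_lit 57388) (nat_lit 5) (.e (nat_lit 114697) (nat_lit 11) (.e (nat_lit 426199) (nat_lit 9) (.e (nat_lit 426555) (nat_lit 32) (.e (nat_lit 376859) (nat_lit 21) (.e (nat_lit 57848) (nat_lit 252) .nil)))))) (.g (nat_lit 1) (.e (nat_lit 251892) (nat_lit 0) .nil) .nil))) 
(.lf (nat_lit 533419) (.g (nat_lit 5068) (.e (nat_lit 57406) (nat_lit 12) (.e (nat_lit 336019) (nat_lit 3) (.e (nat_lit 98373) (nat_lit 29) (.e (nat_lit 450588) (nat_lit 10) (.e (nat_lit 573475) (nat_lit 12) (.e (nat_lit 57351) (nat_lit 0) (.e (nat_lit 7261) (nat_lit 384) .nil))))))) (.g (nat_lit 1) (.e (nat_lit 252855) (nat_lit 0) .nil) .nil)))))) 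
(.nd (nat_lit 7) (.nd (nat_lit 8) (.nd (nat_lit 9) 
(.lf (nat_lit 532587) (.g (nat_lit 2951) (.e (nat_lit 57379) (nat_lit 3) (.e (nat_lit 98365) (nat_lit 26) (.e (nat_lit 426325) (nat_lit 13) (.e (nat_lit 483341) (nat_lit 9) (.e (nat_lit 426099) (nat_lit 1) (.e (nat_lit 164399) (nat_lit 256) .nil)))))) (.g (nat_lit 1) (.e (nat_lit 251515) (nat_lit 0) .nil) .nil))) 
(.lf (nat_lit 533099) (.g (nat_lit 2152) (.e (nat_lit 57389) (nat_lit 5) (.e (nat_lit 114695) (nat_lit 11) (.e (nat_lit 426230) (nat_lit 9) (.e (nat_lit 426554) (nat_lit 32) (.e (nat_lit 376857) (nat_lit 21) (.e (nat_lit 57854) (nat_lit 252) .nil)))))) (.g (nat_lit 1) (.e (nat_lit 252291) (nat_lit 0) .nil) .nil)))) (.nd (nat_lit 9) 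
(.lf (nat_lit 532843) (.g (nat_lit 3437) (.e (nat_lit 57388) (nat_lit 5) (.e (nat_lit 114697) (nat_lit 11) (.e (nat_lit 426188) (nat_lit 9) (.e (nat_lit 426555) (nat_lit 32) (.e (nat_lit 376860) (nat_lit 21) (.e (nat_lit 57854) (nat_lit 252) .nil)))))) (.g (nat_lit 1) (.e (nat_lit 251827) (nat_lit 0) .nil) .nil))) 
(.lf (nat_lit 533355) (.g (nat_lit 2598) (.e (nat_lit 57400) (nat_lit 10) (.e (nat_lit 319490) (nat_lit 0) (.e (nat_lit 5664) (nat_lit 312) (.e (nat_lit 3085) (nat_lit 191) (.e (nat_lit 483394) (nat_lit 24) (.e (nat_lit 344104) (nat_lit 18) (.e (nat_lit 5949) (nat_lit 322) .nil))))))) (.g (nat_lit 1) (.e (nat_lit 252723) (nat_lit 0) .nil) .nil))))) (.nd (nat_lit 8) (.nd (nat_lit 9) 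
(.lf (nat_lit 532715) (.g (nat_lit 2827) (.e (nat_lit 57379) (nat_lit 3) (.e (nat_lit 98367) (nat_lit 27) (.e (nat_lit 434231) (nat_lit 23) (.e (nat_lit 532579) (nat_lit 26) (.e (nat_lit 426124) (nat_lit 2) (.e (nat_lit 196658) (nat_lit 12) (.e (nat_lit 57348) (nat_lit 0) (.e (nat_lit 7695) (nat_lit 412) .nil)))))))) (.g (nat_lit 1) (.e (nat_lit 251643) (nat_lit 0) .nil) .nil))) 
(.lf (nat_lit 533227) (.g (nat_lit 3475) (.e (nat_lit 57389) (nat_lit 5) (.e (nat_lit 114698) (nat_lit 11) (.e (nat_lit 426198) (nat_lit 9) (.e (nat_lit 426555) (nat_lit 32) (.e (nat_lit 376859) (nat_lit 21) (.e (nat_lit 57844) (nat_lit 252) .nil)))))) (.g (nat_lit 1) (.e (nat_lit 252485) (nat_lit 0) .nil) .nil)))) (.nd (nat_lit 9) 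
(.lf (nat_lit 532971) (.g (nat_lit 497) (.e (nat_lit 57388) (nat_lit 5) (.e (nat_lit 114698) (nat_lit 11) (.e (nat_lit 426197) (nat_lit 9) .nil))) (.g (nat_lit 0) (.e (nat_lit 252047) (nat_lit 0) .nil) .nil))) 
(.lf (nat_lit 533483) (.g (nat_lit 2673) (.e (nat_lit 57406) (nat_lit 12) (.e (nat_lit 336456) (nat_lit 34) (.e (nat_lit 483380) (nat_lit 23) (.e (nat_lit 336324) (nat_lit 18) (.e (nat_lit 204831) (nat_lit 18) (.e (nat_lit 57853) (nat_lit 252) .nil)))))) (.g (nat_lit 1) (.e (nat_lit 252951) (nat_lit 0) .nil) .nil)))))))) 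
(.nd (nat_lit 5) (.nd (nat_lit 6) (.nd (nat_lit 7) (.nd (nat_lit 8) (.nd (nat_lit 9) 
(.lf (nat_lit 532507) (.g (nat_lit 3820) (.e (nat_lit 57379) (nat_lit 3) (.e (nat_lit 98342) (nat_lit 20) (.e (nat_lit 221215) (nat_lit 23) (.e (nat_lit 204863) (nat_lit 27) (.e (nat_lit 344117) (nat_lit 21) (.e (nat_lit 516099) (nat_lit 0) (.e (nat_lit 2474) (nat_lit 157) (.e (nat_lit 6398) (nat_lit 339) .nil)))))))) (.g (nat_lit 1) (.e (nat_lit 251435) (nat_lit 0) .nil) .nil))) 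
(.lf (nat_lit 533019) (.g (nat_lit 3496) (.e (nat_lit 57388) (nat_lit 5) (.e (nat_lit 114698) (nat_lit 11) (.e (nat_lit 426198) (nat_lit 9) (.e (nat_lit 426555) (nat_lit 32) (.e (nat_lit 376857) (nat_lit 21) (.e (nat_lit 57849) (nat_lit 252) .nil)))))) (.g (nat_lit 1) (.e (nat_lit 252095) (nat_lit 0) .nil) .nil)))) (.nd (nat_lit 9) 
(.lf (nat_lit 532763) (.g (nat_lit 3016) (.e (nat_lit 57379) (nat_lit 3) (.e (nat_lit 98368) (nat_lit 27) (.e (nat_lit 434248) (nat_lit 28) (.e (nat_lit 573489) (nat_lit 14) (.e (nat_lit 73755) (nat_lit 8) (.e (nat_lit 557091) (nat_lit 12) (.e (nat_lit 163840) (nat_lit 0) (.e (nat_lit 5939) (nat_lit 322) .nil)))))))) (.g (nat_lit 1) (.e (nat_lit 251691) (nat_lit 0) .nil) .nil))) 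
(.lf (nat_lit 533275) (.g (nat_lit 4648) (.e (nat_lit 57389) (nat_lit 5) (.e (nat_lit 114712) (nat_lit 21) (.e (nat_lit 57930) (nat_lit 282) (.e (nat_lit 163923) (nat_lit 15) (.e (nat_lit 450587) (nat_lit 10) (.e (nat_lit 573475) (nat_lit 12) (.e (nat_lit 57360) (nat_lit 0) (.e (nat_lit 5947) (nat_lit 322) .nil)))))))) (.g (nat_lit 1) (.e (nat_lit 252592) (nat_lit 0) .nil) .nil))))) 
(.nd (nat_lit 8) (.nd (nat_lit 9) 
(.lf (nat_lit 532635) (.g (nat_lit 3014) (.e (nat_lit 57379) (nat_lit 3) (.e (nat_lit 98366) (nat_lit 27) (.e (nat_lit 434244) (nat_lit 28) (.e (nat_lit 573487) (nat_lit 14) (.e (nat_lit 73753) (nat_lit 8) (.e (nat_lit 557091) (nat_lit 12) (.e (nat_lit 163844) (nat_lit 0) (.e (nat_lit 5943) (nat_lit 322) .nil)))))))) (.g (nat_lit 1) (.e (nat_lit 251563) (nat_lit 0) .nil) .nil))) 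
(.lf (nat_lit 533147) (.g (nat_lit 2626) (.e (nat_lit 57389) (nat_lit 5) (.e (nat_lit 114697) (nat_lit 11) (.e (nat_lit 426198) (nat_lit 9) (.e (nat_lit 426555) (nat_lit 32) (.e (nat_lit 376859) (nat_lit 21) (.e (nat_lit 57851) (nat_lit 252) .nil)))))) (.g (nat_lit 1) (.e (nat_lit 252339) (nat_lit 0) .nil) .nil)))) (.nd (nat_lit 9) 
(.lf (nat_lit 532891) (.g (nat_lit 2991) (.e (nat_lit 57388) (nat_lit 5) (.e (nat_lit 114697) (nat_lit 11) (.e (nat_lit 426198) (nat_lit 9) (.e (nat_lit 426555) (nat_lit 32) (.e (nat_lit 376859) (nat_lit 21) (.e (nat_lit 57854) (nat_lit 252) .nil)))))) (.g (nat_lit 1) (.e (nat_lit 251875) (nat_lit 0) .nil) .nil))) 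
(.lf (nat_lit 533403) (.g (nat_lit 3448) (.e (nat_lit 57406) (nat_lit 12) (.e (nat_lit 336019) (nat_lit 3) (.e (nat_lit 98372) (nat_lit 29) (.e (nat_lit 450588) (nat_lit 10) (.e (nat_lit 573475) (nat_lit 12) (.e (nat_lit 57351) (nat_lit 0) (.e (nat_lit 7261) (nat_lit 384) .nil))))))) (.g (nat_lit 1) (.e (nat_lit 252839) (nat_lit 0) .nil) .nil)))))) 
(.nd (nat_lit 7) (.nd (nat_lit 8) (.nd (nat_lit 9) 
(.lf (nat_lit 532571) (.g (nat_lit 3324) (.e (nat_lit 57379) (nat_lit 3) (.e (nat_lit 98365) (nat_lit 26) (.e (nat_lit 426325) (nat_lit 13) (.e (nat_lit 483341) (nat_lit 9) (.e (nat_lit 426009) (nat_lit 0) (.e (nat_lit 2430) (nat_lit 157) (.e (nat_lit 5940) (nat_lit 322) .nil))))))) (.g (nat_lit 1) (.e (nat_lit 251499) (nat_lit 0) .nil) .nil))) 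
(.lf (nat_lit 533083) (.g (nat_lit 1781) (.e (nat_lit 57388) (nat_lit 5) (.e (nat_lit 114712) (nat_lit 21) (.e (nat_lit 57852) (nat_lit 252) (.e (nat_lit 65280) (nat_lit 66) .nil)))) (.g (nat_lit 0) (.e (nat_lit 252259) (nat_lit 0) .nil) .nil)))) (.nd (nat_lit 9) 
(.lf (nat_lit 532827) (.g (nat_lit 2170) (.e (nat_lit 57388) (nat_lit 5) (.e (nat_lit 114697) (nat_lit 11) (.e (nat_lit 426188) (nat_lit 9) (.e (nat_lit 426555) (nat_lit 32) (.e (nat_lit 376857) (nat_lit 21) (.e (nat_lit 57844) (nat_lit 252) .nil)))))) (.g (nat_lit 1) (.e (nat_lit 251811) (nat_lit 0) .nil) .nil))) 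
(.lf (nat_lit 533339) (.g (nat_lit 3157) (.e (nat_lit 57390) (nat_lit 5) (.e (nat_lit 114716) (nat_lit 22) (.e (nat_lit 90158) (nat_lit 11) (.e (nat_lit 24628) (nat_lit 9) (.e (nat_lit 336326) (nat_lit 18) (.e (nat_lit 212736) (nat_lit 1) (.e (nat_lit 164399) (nat_lit 256) .nil))))))) (.g (nat_lit 1) (.e (nat_lit 252699) (nat_lit 0) .nil) .nil))))) (.nd (nat_lit 8) (.nd (nat_lit 9) 
(.lf (nat_lit 532699) (.g (nat_lit 3448) (.e (nat_lit 57379) (nat_lit 3) (.e (nat_lit 98366) (nat_lit 27) (.e (nat_lit 434248) (nat_lit 28) (.e (nat_lit 573489) (nat_lit 14) (.e (nat_lit 73755) (nat_lit 8) (.e (nat_lit 557090) (nat_lit 12) (.e (nat_lit 171776) (nat_lit 0) (.e (nat_lit 5937) (nat_lit 322) .nil)))))))) (.g (nat_lit 1) (.e (nat_lit 251627) (nat_lit 0) .nil) .nil))) 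
(.lf (nat_lit 533211) (.g (nat_lit 3772) (.e (nat_lit 57389) (nat_lit 5) (.e (nat_lit 114698) (nat_lit 11) (.e (nat_lit 426197) (nat_lit 9) (.e (nat_lit 426555) (nat_lit 32) (.e (nat_lit 376860) (nat_lit 21) (.e (nat_lit 57852) (nat_lit 252) .nil)))))) (.g (nat_lit 1) (.e (nat_lit 252469) (nat_lit 0) .nil) .nil)))) (.nd (nat_lit 9) 
(.lf (nat_lit 532955) (.g (nat_lit 373) (.e (nat_lit 57388) (nat_lit 5) (.e (nat_lit 114698) (nat_lit 11) (.e (nat_lit 426190) (nat_lit 9) .nil))) (.g (nat_lit 0) (.e (nat_lit 252031) (nat_lit 0) .nil) .nil))) 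
(.lf (nat_lit 533467) (.g (nat_lit 1233) (.e (nat_lit 57406) (nat_lit 12) (.e (nat_lit 336454) (nat_lit 34) (.e (nat_lit 483385) (nat_lit 23) (.e (nat_lit 336260) (nat_lit 15) .nil)))) (.g (nat_lit 0) (.e (nat_lit 252935) (nat_lit 0) .nil) .nil))))))) (.nd (nat_lit 6) (.nd (nat_lit 7) (.nd (nat_lit 8) (.nd (nat_lit 9) 
(.lf (nat_lit 532539) (.g (nat_lit 2756) (.e (nat_lit 57379) (nat_lit 3) (.e (nat_lit 98365) (nat_lit 26) (.e (nat_lit 426190) (nat_lit 9) (.e (nat_lit 426566) (nat_lit 34) (.e (nat_lit 393251) (nat_lit 18) (.e (nat_lit 164398) (nat_lit 256) .nil)))))) (.g (nat_lit 1) (.e (nat_lit 251467) (nat_lit 0) .nil) .nil))) 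
(.lf (nat_lit 533051) (.g (nat_lit 2921) (.e (nat_lit 57388) (nat_lit 5) (.e (nat_lit 114698) (nat_lit 11) (.e (nat_lit 426200) (nat_lit 9) (.e (nat_lit 426555) (nat_lit 32) (.e (nat_lit 376857) (nat_lit 21) (.e (nat_lit 57844) (nat_lit 252) .nil)))))) (.g (nat_lit 1) (.e (nat_lit 252127) (nat_lit 0) .nil) .nil)))) (.nd (nat_lit 9) 
(.lf (nat_lit 532795) (.g (nat_lit 2372) (.e (nat_lit 57388) (nat_lit 5) (.e (nat_lit 114694) (nat_lit 11) (.e (nat_lit 426200) (nat_lit 9) (.e (nat_lit 426555) (nat_lit 32) (.e (nat_lit 376859) (nat_lit 21) (.e (nat_lit 57846) (nat_lit 252) .nil)))))) (.g (nat_lit 1) (.e (nat_lit 251768) (nat_lit 0) .nil) .nil))) 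
(.lf (nat_lit 533307) (.g (nat_lit 2669) (.e (nat_lit 57390) (nat_lit 5) (.e (nat_lit 114697) (nat_lit 11) (.e (nat_lit 426198) (nat_lit 9) (.e (nat_lit 426555) (nat_lit 32) (.e (nat_lit 376859) (nat_lit 21) (.e (nat_lit 57847) (nat_lit 252) .nil)))))) (.g (nat_lit 1) (.e (nat_lit 252631) (nat_lit 0) .nil) .nil))))) (.nd (nat_lit 8) (.nd (nat_lit 9) 
(.lf (nat_lit 532667) (.g (nat_lit 2660) (.e (nat_lit 57379) (nat_lit 3) (.e (nat_lit 98366) (nat_lit 27) (.e (nat_lit 434246) (nat_lit 28) (.e (nat_lit 573489) (nat_lit 14) (.e (nat_lit 73755) (nat_lit 8) (.e (nat_lit 557090) (nat_lit 12) (.e (nat_lit 163844) (nat_lit 0) (.e (nat_lit 5940) (nat_lit 322) .nil)))))))) (.g (nat_lit 1) (.e (nat_lit 251595) (nat_lit 0) .nil) .nil))) 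
(.lf (nat_lit 533179) (.g (nat_lit 3039) (.e (nat_lit 57389) (nat_lit 5) (.e (nat_lit 114698) (nat_lit 11) (.e (nat_lit 426188) (nat_lit 9) (.e (nat_lit 426555) (nat_lit 32) (.e (nat_lit 376859) (nat_lit 21) (.e (nat_lit 57846) (nat_lit 252) .nil)))))) (.g (nat_lit 1) (.e (nat_lit 252437) (nat_lit 0) .nil) .nil)))) (.nd (nat_lit 9) 
(.lf (nat_lit 532923) (.g (nat_lit 2464) (.e (nat_lit 57388) (nat_lit 5) (.e (nat_lit 114697) (nat_lit 11) (.e (nat_lit 426200) (nat_lit 9) (.e (nat_lit 426555) (nat_lit 32) (.e (nat_lit 376859) (nat_lit 21) (.e (nat_lit 57851) (nat_lit 252) .nil)))))) (.g (nat_lit 1) (.e (nat_lit 251908) (nat_lit 0) .nil) .nil))) 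
(.lf (nat_lit 533435) (.g (nat_lit 2992) (.e (nat_lit 57406) (nat_lit 12) (.e (nat_lit 336316) (nat_lit 17) (.e (nat_lit 196666) (nat_lit 13) (.e (nat_lit 65610) (nat_lit 10) (.e (nat_lit 344090) (nat_lit 18) (.e (nat_lit 7697) (nat_lit 412) (.e (nat_lit 57366) (nat_lit 1) (.e (nat_lit 57851) (nat_lit 252) .nil)))))))) (.g (nat_lit 1) (.e (nat_lit 252874) (nat_lit 0) .nil) .nil)))))) 
(.nd (nat_lit 7) (.nd (nat_lit 8) (.nd (nat_lit 9) 
(.lf (nat_lit 532603) (.g (nat_lit 2727) (.e (nat_lit 57379) (nat_lit 3) (.e (nat_lit 98366) (nat_lit 27) (.e (nat_lit 434231) (nat_lit 23) (.e (nat_lit 532513) (nat_lit 3) (.e (nat_lit 114714) (nat_lit 22) (.e (nat_lit 90182) (nat_lit 16) (.e (nat_lit 229379) (nat_lit 0) (.e (nat_lit 5939) (nat_lit 322) .nil)))))))) (.g (nat_lit 1) (.e (nat_lit 251531) (nat_lit 0) .nil) .nil))) 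
(.lf (nat_lit 533115) (.g (nat_lit 2799) (.e (nat_lit 57389) (nat_lit 5) (.e (nat_lit 114697) (nat_lit 11) (.e (nat_lit 426188) (nat_lit 9) (.e (nat_lit 426555) (nat_lit 32) (.e (nat_lit 376859) (nat_lit 21) (.e (nat_lit 57853) (nat_lit 252) .nil)))))) (.g (nat_lit 1) (.e (nat_lit 252307) (nat_lit 0) .nil) .nil)))) (.nd (nat_lit 9) 
(.lf (nat_lit 532859) (.g (nat_lit 3181) (.e (nat_lit 57388) (nat_lit 5) (.e (nat_lit 114697) (nat_lit 11) (.e (nat_lit 426190) (nat_lit 9) (.e (nat_lit 426555) (nat_lit 32) (.e (nat_lit 376860) (nat_lit 21) (.e (nat_lit 57853) (nat_lit 252) .nil)))))) (.g (nat_lit 1) (.e (nat_lit 251843) (nat_lit 0) .nil) .nil))) 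
(.lf (nat_lit 533371) (.g (nat_lit 1177) (.e (nat_lit 57405) (nat_lit 12) (.e (nat_lit 336326) (nat_lit 18) (.e (nat_lit 204854) (nat_lit 26) (.e (nat_lit 336211) (nat_lit 13) .nil)))) (.g (nat_lit 0) (.e (nat_lit 252787) (nat_lit 0) .nil) .nil))))) (.nd (nat_lit 8) (.nd (nat_lit 9) 
(.lf (nat_lit 532731) (.g (nat_lit 2966) (.e (nat_lit 57379) (nat_lit 3) (.e (nat_lit 98367) (nat_lit 27) (.e (nat_lit 434246) (nat_lit 28) (.e (nat_lit 573487) (nat_lit 14) (.e (nat_lit 73753) (nat_lit 8) (.e (nat_lit 557090) (nat_lit 12) (.e (nat_lit 163844) (nat_lit 0) (.e (nat_lit 5943) (nat_lit 322) .nil)))))))) (.g (nat_lit 1) (.e (nat_lit 251659) (nat_lit 0) .nil) .nil))) 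
(.lf (nat_lit 533243) (.g (nat_lit 2837) (.e (nat_lit 57389) (nat_lit 5) (.e (nat_lit 114698) (nat_lit 11) (.e (nat_lit 426199) (nat_lit 9) (.e (nat_lit 426555) (nat_lit 32) (.e (nat_lit 376859) (nat_lit 21) (.e (nat_lit 57851) (nat_lit 252) .nil)))))) (.g (nat_lit 1) (.e (nat_lit 252501) (nat_lit 0) .nil) .nil)))) (.nd (nat_lit 9) 
(.lf (nat_lit 532987) (.g (nat_lit 3702) (.e (nat_lit 57388) (nat_lit 5) (.e (nat_lit 114698) (nat_lit 11) (.e (nat_lit 426197) (nat_lit 9) (.e (nat_lit 426555) (nat_lit 32) (.e (nat_lit 376857) (nat_lit 21) (.e (nat_lit 57854) (nat_lit 252) .nil)))))) (.g (nat_lit 1) (.e (nat_lit 252063) (nat_lit 0) .nil) .nil))) 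
(.lf (nat_lit 533499) (.g (nat_lit 2854) (.e (nat_lit 57406) (nat_lit 12) (.e (nat_lit 336456) (nat_lit 34) (.e (nat_lit 483391) (nat_lit 23) (.e (nat_lit 336323) (nat_lit 18) (.e (nat_lit 204831) (nat_lit 18) (.e (nat_lit 57854) (nat_lit 252) .nil)))))) (.g (nat_lit 1) (.e (nat_lit 252967) (nat_lit 0) .nil) .nil)))))))))) 
(.nd (nat_lit 3) (.nd (nat_lit 4) (.nd (nat_lit 5) (.nd (nat_lit 6) (.nd (nat_lit 7) 
(.nd (nat_lit 8) (.nd (nat_lit 9) 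
(.lf (nat_lit 532487) (.g (nat_lit 3966) (.e (nat_lit 57379) (nat_lit 3) (.e (nat_lit 98342) (nat_lit 20) (.e (nat_lit 221212) (nat_lit 22) (.e (nat_lit 196681) (nat_lit 17) (.e (nat_lit 131098) (nat_lit 3) (.e (nat_lit 98334) (nat_lit 18) (.e (nat_lit 164183) (nat_lit 154) .nil))))))) (.g (nat_lit 1) (.e (nat_lit 251415) (nat_lit 0) .nil) .nil))) 
(.lf (nat_lit 532999) (.g (nat_lit 339) (.e (nat_lit 57388) (nat_lit 5) (.e (nat_lit 114698) (nat_lit 11) (.e (nat_lit 426198) (nat_lit 9) .nil))) (.g (nat_lit 0) (.e (nat_lit 252075) (nat_lit 0) .nil) .nil)))) (.nd (nat_lit 9) 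
(.lf (nat_lit 532743) (.g (nat_lit 3298) (.e (nat_lit 57379) (nat_lit 3) (.e (nat_lit 98367) (nat_lit 27) (.e (nat_lit 434248) (nat_lit 28) (.e (nat_lit 573487) (nat_lit 14) (.e (nat_lit 73753) (nat_lit 8) (.e (nat_lit 557090) (nat_lit 12) (.e (nat_lit 163850) (nat_lit 0) (.e (nat_lit 5939) (nat_lit 322) .nil)))))))) (.g (nat_lit 1) (.e (nat_lit 251671) (nat_lit 0) .nil) .nil))) 
(.lf (nat_lit 533255) (.g (nat_lit 3478) (.e (nat_lit 57389) (nat_lit 5) (.e (nat_lit 114698) (nat_lit 11) (.e (nat_lit 426200) (nat_lit 9) (.e (nat_lit 426555) (nat_lit 32) (.e (nat_lit 376859) (nat_lit 21) (.e (nat_lit 57847) (nat_lit 252) .nil)))))) (.g (nat_lit 1) (.e (nat_lit 252513) (nat_lit 0) .nil) .nil))))) (.nd (nat_lit 8) (.nd (nat_lit 9) 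
(.lf (nat_lit 532615) (.g (nat_lit 3254) (.e (nat_lit 57379) (nat_lit 3) (.e (nat_lit 98366) (nat_lit 27) (.e (nat_lit 434231) (nat_lit 23) (.e (nat_lit 532579) (nat_lit 26) (.e (nat_lit 426123) (nat_lit 2) (.e (nat_lit 196661) (nat_lit 12) (.e (nat_lit 57351) (nat_lit 0) (.e (nat_lit 7695) (nat_lit 412) .nil)))))))) (.g (nat_lit 1) (.e (nat_lit 251543) (nat_lit 0) .nil) .nil))) 
(.lf (nat_lit 533127) (.g (nat_lit 2679) (.e (nat_lit 57389) (nat_lit 5) (.e (nat_lit 114697) (nat_lit 11) (.e (nat_lit 426190) (nat_lit 9) (.e (nat_lit 426555) (nat_lit 32) (.e (nat_lit 376859) (nat_lit 21) (.e (nat_lit 57847) (nat_lit 252) .nil)))))) (.g (nat_lit 1) (.e (nat_lit 252319) (nat_lit 0) .nil) .nil)))) (.nd (nat_lit 9) 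
(.lf (nat_lit 532871) (.g (nat_lit 2663) (.e (nat_lit 57388) (nat_lit 5) (.e (nat_lit 114697) (nat_lit 11) (.e (nat_lit 426198) (nat_lit 9) (.e (nat_lit 426542) (nat_lit 29) (.e (nat_lit 352307) (nat_lit 21) (.e (nat_lit 57848) (nat_lit 252) .nil)))))) (.g (nat_lit 1) (.e (nat_lit 251855) (nat_lit 0) .nil) .nil))) 
(.lf (nat_lit 533383) (.g (nat_lit 2421) (.e (nat_lit 57406) (nat_lit 12) (.e (nat_lit 336018) (nat_lit 3) (.e (nat_lit 98372) (nat_lit 29) (.e (nat_lit 450586) (nat_lit 10) (.e (nat_lit 573478) (nat_lit 12) (.e (nat_lit 57351) (nat_lit 0) (.e (nat_lit 7265) (nat_lit 384) .nil))))))) (.g (nat_lit 1) (.e (nat_lit 252819) (nat_lit 0) .nil) .nil)))))) 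
(.nd (nat_lit 7) (.nd (nat_lit 8) (.nd (nat_lit 9) 
(.lf (nat_lit 532551) (.g (nat_lit 2642) (.e (nat_lit 57379) (nat_lit 3) (.e (nat_lit 98365) (nat_lit 26) (.e (nat_lit 426325) (nat_lit 13) (.e (nat_lit 483337) (nat_lit 9) (.e (nat_lit 426030) (nat_lit 0) (.e (nat_lit 2472) (nat_lit 157) (.e (nat_lit 5939) (nat_lit 322) .nil))))))) (.g (nat_lit 1) (.e (nat_lit 251479) (nat_lit 0) .nil) .nil))) 
(.lf (nat_lit 533063) (.g (nat_lit 3782) (.e (nat_lit 57388) (nat_lit 5) (.e (nat_lit 114698) (nat_lit 11) (.e (nat_lit 426200) (nat_lit 9) (.e (nat_lit 426555) (nat_lit 32) (.e (nat_lit 376859) (nat_lit 21) (.e (nat_lit 57854) (nat_lit 252) .nil)))))) (.g (nat_lit 1) (.e (nat_lit 252139) (nat_lit 0) .nil) .nil)))) (.nd (nat_lit 9) 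
(.lf (nat_lit 532807) (.g (nat_lit 1571) (.e (nat_lit 57388) (nat_lit 5) (.e (nat_lit 114696) (nat_lit 11) (.e (nat_lit 426232) (nat_lit 9) (.e (nat_lit 426554) (nat_lit 32) (.e (nat_lit 376857) (nat_lit 21) (.e (nat_lit 57851) (nat_lit 252) .nil)))))) (.g (nat_lit 1) (.e (nat_lit 251791) (nat_lit 0) .nil) .nil))) 
(.lf (nat_lit 533319) (.g (nat_lit 2230) (.e (nat_lit 57390) (nat_lit 5) (.e (nat_lit 114698) (nat_lit 11) (.e (nat_lit 426188) (nat_lit 9) (.e (nat_lit 426544) (nat_lit 30) (.e (nat_lit 360453) (nat_lit 0) .nil))))) (.g (nat_lit 0) (.e (nat_lit 252657) (nat_lit 0) .nil) .nil))))) (.nd (nat_lit 8) (.nd (nat_lit 9) 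
(.lf (nat_lit 532679) (.g (nat_lit 2673) (.e (nat_lit 57379) (nat_lit 3) (.e (nat_lit 98366) (nat_lit 27) (.e (nat_lit 434248) (nat_lit 28) (.e (nat_lit 573487) (nat_lit 14) (.e (nat_lit 73753) (nat_lit 8) (.e (nat_lit 557090) (nat_lit 12) (.e (nat_lit 163843) (nat_lit 0) (.e (nat_lit 5943) (nat_lit 322) .nil)))))))) (.g (nat_lit 1) (.e (nat_lit 251607) (nat_lit 0) .nil) .nil))) 
(.lf (nat_lit 533191) (.g (nat_lit 3355) (.e (nat_lit 57389) (nat_lit 5) (.e (nat_lit 114698) (nat_lit 11) (.e (nat_lit 426190) (nat_lit 9) (.e (nat_lit 426555) (nat_lit 32) (.e (nat_lit 376857) (nat_lit 21) (.e (nat_lit 57852) (nat_lit 252) .nil)))))) (.g (nat_lit 1) (.e (nat_lit 252449) (nat_lit 0) .nil) .nil)))) (.nd (nat_lit 9) 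
(.lf (nat_lit 532935) (.g (nat_lit 1924) (.e (nat_lit 57388) (nat_lit 5) (.e (nat_lit 114698) (nat_lit 11) (.e (nat_lit 426188) (nat_lit 9) (.e (nat_lit 426538) (nat_lit 29) (.e (nat_lit 352309) (nat_lit 21) (.e (nat_lit 57846) (nat_lit 252) .nil)))))) (.g (nat_lit 1) (.e (nat_lit 252011) (nat_lit 0) .nil) .nil))) 
(.lf (nat_lit 533447) (.g (nat_lit 1496) (.e (nat_lit 57406) (nat_lit 12) (.e (nat_lit 336367) (nat_lit 27) (.e (nat_lit 426555) (nat_lit 32) (.e (nat_lit 376834) (nat_lit 0) .nil)))) (.g (nat_lit 0) (.e (nat_lit 252914) (nat_lit 0) .nil) .nil))))))) (.nd (nat_lit 6) (.nd (nat_lit 7) (.nd (nat_lit 8) (.nd (nat_lit 9) 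
(.lf (nat_lit 532519) (.g (nat_lit 1820) (.e (nat_lit 57379) (nat_lit 3) (.e (nat_lit 98358) (nat_lit 26) (.e (nat_lit 426323) (nat_lit 13) (.e (nat_lit 483337) (nat_lit 9) .nil)))) (.g (nat_lit 0) (.e (nat_lit 251447) (nat_lit 0) .nil) .nil))) 
(.lf (nat_lit 533031) (.g (nat_lit 3586) (.e (nat_lit 57388) (nat_lit 5) (.e (nat_lit 114698) (nat_lit 11) (.e (nat_lit 426198) (nat_lit 9) (.e (nat_lit 426555) (nat_lit 32) (.e (nat_lit 376860) (nat_lit 21) (.e (nat_lit 57852) (nat_lit 252) .nil)))))) (.g (nat_lit 1) (.e (nat_lit 252107) (nat_lit 0) .nil) .nil)))) (.nd (nat_lit 9) 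
(.lf (nat_lit 532775) (.g (nat_lit 2275) (.e (nat_lit 57382) (nat_lit 4) (.e (nat_lit 106536) (nat_lit 11) (.e (nat_lit 16412) (nat_lit 2) (.e (nat_lit 196674) (nat_lit 15) .nil)))) (.g (nat_lit 0) (.e (nat_lit 251722) (nat_lit 0) .nil) .nil))) 
(.lf (nat_lit 533287) (.g (nat_lit 1764) (.e (nat_lit 57390) (nat_lit 5) (.e (nat_lit 114695) (nat_lit 11) (.e (nat_lit 426230) (nat_lit 9) (.e (nat_lit 426554) (nat_lit 32) (.e (nat_lit 376857) (nat_lit 21) (.e (nat_lit 57846) (nat_lit 252) .nil)))))) (.g (nat_lit 1) (.e (nat_lit 252610) (nat_lit 0) .nil) .nil))))) (.nd (nat_lit 8) (.nd (nat_lit 9) 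
(.lf (nat_lit 532647) (.g (nat_lit 3007) (.e (nat_lit 57379) (nat_lit 3) (.e (nat_lit 98366) (nat_lit 27) (.e (nat_lit 434244) (nat_lit 28) (.e (nat_lit 573488) (nat_lit 14) (.e (nat_lit 73755) (nat_lit 8) (.e (nat_lit 557090) (nat_lit 12) (.e (nat_lit 163845) (nat_lit 0) (.e (nat_lit 5943) (nat_lit 322) .nil)))))))) (.g (nat_lit 1) (.e (nat_lit 251575) (nat_lit 0) .nil) .nil))) 
(.lf (nat_lit 533159) (.g (nat_lit 3398) (.e (nat_lit 57389) (nat_lit 5) (.e (nat_lit 114697) (nat_lit 11) (.e (nat_lit 426199) (nat_lit 9) (.e (nat_lit 426555) (nat_lit 32) (.e (nat_lit 376859) (nat_lit 21) (.e (nat_lit 57854) (nat_lit 252) .nil)))))) (.g (nat_lit 1) (.e (nat_lit 252351) (nat_lit 0) .nil) .nil)))) (.nd (nat_lit 9) 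
(.lf (nat_lit 532903) (.g (nat_lit 3278) (.e (nat_lit 57388) (nat_lit 5) (.e (nat_lit 114697) (nat_lit 11) (.e (nat_lit 426199) (nat_lit 9) (.e (nat_lit 426555) (nat_lit 32) (.e (nat_lit 376857) (nat_lit 21) (.e (nat_lit 57854) (nat_lit 252) .nil)))))) (.g (nat_lit 1) (.e (nat_lit 251888) (nat_lit 0) .nil) .nil))) 
(.lf (nat_lit 533415) (.g (nat_lit 5272) (.e (nat_lit 57406) (nat_lit 12) (.e (nat_lit 336019) (nat_lit 3) (.e (nat_lit 98373) (nat_lit 29) (.e (nat_lit 450588) (nat_lit 10) (.e (nat_lit 573473) (nat_lit 12) (.e (nat_lit 57353) (nat_lit 0) (.e (nat_lit 7261) (nat_lit 384) .nil))))))) (.g (nat_lit 1) (.e (nat_lit 252851) (nat_lit 0) .nil) .nil)))))) 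
(.nd (nat_lit 7) (.nd (nat_lit 8) (.nd (nat_lit 9) 
(.lf (nat_lit 532583) (.g (nat_lit 2394) (.e (nat_lit 57379) (nat_lit 3) (.e (nat_lit 98365) (nat_lit 26) (.e (nat_lit 426325) (nat_lit 13) (.e (nat_lit 483341) (nat_lit 9) (.e (nat_lit 426029) (nat_lit 0) (.e (nat_lit 2472) (nat_lit 157) (.e (nat_lit 5939) (nat_lit 322) .nil))))))) (.g (nat_lit 1) (.e (nat_lit 251511) (nat_lit 0) .nil) .nil))) 
(.lf (nat_lit 533095) (.g (nat_lit 1851) (.e (nat_lit 57389) (nat_lit 5) (.e (nat_lit 114694) (nat_lit 11) (.e (nat_lit 426200) (nat_lit 9) (.e (nat_lit 426555) (nat_lit 32) (.e (nat_lit 376859) (nat_lit 21) .nil))))) (.g (nat_lit 0) (.e (nat_lit 252275) (nat_lit 0) .nil) .nil)))) (.nd (nat_lit 9) 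
(.lf (nat_lit 532839) (.g (nat_lit 3101) (.e (nat_lit 57388) (nat_lit 5) (.e (nat_lit 114697) (nat_lit 11) (.e (nat_lit 426188) (nat_lit 9) (.e (nat_lit 426555) (nat_lit 32) (.e (nat_lit 376859) (nat_lit 21) (.e (nat_lit 57854) (nat_lit 252) .nil)))))) (.g (nat_lit 1) (.e (nat_lit 251823) (nat_lit 0) .nil) .nil))) 
(.lf (nat_lit 533351) (.g (nat_lit 2609) (.e (nat_lit 57400) (nat_lit 10) (.e (nat_lit 319490) (nat_lit 0) (.e (nat_lit 5664) (nat_lit 312) (.e (nat_lit 3085) (nat_lit 191) (.e (nat_lit 483379) (nat_lit 23) (.e (nat_lit 336036) (nat_lit 4) (.e (nat_lit 123195) (nat_lit 266) .nil))))))) (.g (nat_lit 1) (.e (nat_lit 252719) (nat_lit 0) .nil) .nil))))) (.nd (nat_lit 8) (.nd (nat_lit 9) 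
(.lf (nat_lit 532711) (.g (nat_lit 2376) (.e (nat_lit 57379) (nat_lit 3) (.e (nat_lit 98367) (nat_lit 27) (.e (nat_lit 434231) (nat_lit 23) (.e (nat_lit 532513) (nat_lit 3) (.e (nat_lit 114718) (nat_lit 23) .nil))))) (.g (nat_lit 0) (.e (nat_lit 251639) (nat_lit 0) .nil) .nil))) 
(.lf (nat_lit 533223) (.g (nat_lit 3184) (.e (nat_lit 57389) (nat_lit 5) (.e (nat_lit 114698) (nat_lit 11) (.e (nat_lit 426198) (nat_lit 9) (.e (nat_lit 426555) (nat_lit 32) (.e (nat_lit 376857) (nat_lit 21) (.e (nat_lit 57846) (nat_lit 252) .nil)))))) (.g (nat_lit 1) (.e (nat_lit 252481) (nat_lit 0) .nil) .nil)))) (.nd (nat_lit 9) 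
(.lf (nat_lit 532967) (.g (nat_lit 3195) (.e (nat_lit 57388) (nat_lit 5) (.e (nat_lit 114698) (nat_lit 11) (.e (nat_lit 426190) (nat_lit 9) (.e (nat_lit 426555) (nat_lit 32) (.e (nat_lit 376859) (nat_lit 21) (.e (nat_lit 57854) (nat_lit 252) .nil)))))) (.g (nat_lit 1) (.e (nat_lit 252043) (nat_lit 0) .nil) .nil))) 
(.lf (nat_lit 533479) (.g (nat_lit 3889) (.e (nat_lit 57406) (nat_lit 12) (.e (nat_lit 336456) (nat_lit 34) (.e (nat_lit 483379) (nat_lit 23) (.e (nat_lit 336324) (nat_lit 18) (.e (nat_lit 204831) (nat_lit 18) (.e (nat_lit 57854) (nat_lit 252) .nil)))))) (.g (nat_lit 1) (.e (nat_lit 252947) (nat_lit 0) .nil) .nil)))))))) 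
(.nd (nat_lit 5) (.nd (nat_lit 6) (.nd (nat_lit 7) (.nd (nat_lit 8) (.nd (nat_lit 9) 
(.lf (nat_lit 532503) (.g (nat_lit 3994) (.e (nat_lit 57379) (nat_lit 3) (.e (nat_lit 98342) (nat_lit 20) (.e (nat_lit 221215) (nat_lit 23) (.e (nat_lit 204861) (nat_lit 26) (.e (nat_lit 336027) (nat_lit 3) (.e (nat_lit 98334) (nat_lit 18) (.e (nat_lit 164183) (nat_lit 154) .nil))))))) (.g (nat_lit 1) (.e (nat_lit 251431) (nat_lit 0) .nil) .nil))) 
(.lf (nat_lit 533015) (.g (nat_lit 2551) (.e (nat_lit 57388) (nat_lit 5) (.e (nat_lit 114698) (nat_lit 11) (.e (nat_lit 426198) (nat_lit 9) (.e (nat_lit 426555) (nat_lit 32) (.e (nat_lit 376857) (nat_lit 21) (.e (nat_lit 57844) (nat_lit 252) .nil)))))) (.g (nat_lit 1) (.e (nat_lit 252091) (nat_lit 0) .nil) .nil)))) (.nd (nat_lit 9) 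
(.lf (nat_lit 532759) (.g (nat_lit 3007) (.e (nat_lit 57379) (nat_lit 3) (.e (nat_lit 98368) (nat_lit 27) (.e (nat_lit 434247) (nat_lit 28) (.e (nat_lit 573489) (nat_lit 14) (.e (nat_lit 73755) (nat_lit 8) (.e (nat_lit 557091) (nat_lit 12) (.e (nat_lit 163841) (nat_lit 0) (.e (nat_lit 5943) (nat_lit 322) .nil)))))))) (.g (nat_lit 1) (.e (nat_lit 251687) (nat_lit 0) .nil) .nil))) 
(.lf (nat_lit 533271) (.g (nat_lit 1652) (.e (nat_lit 57389) (nat_lit 5) (.e (nat_lit 114712) (nat_lit 21) (.e (nat_lit 57852) (nat_lit 252) (.e (nat_lit 65280) (nat_lit 66) .nil)))) (.g (nat_lit 0) (.e (nat_lit 252588) (nat_lit 0) .nil) .nil))))) (.nd (nat_lit 8) (.nd (nat_lit 9) 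
(.lf (nat_lit 532631) (.g (nat_lit 2669) (.e (nat_lit 57379) (nat_lit 3) (.e (nat_lit 98366) (nat_lit 27) (.e (nat_lit 434244) (nat_lit 28) (.e (nat_lit 573487) (nat_lit 14) (.e (nat_lit 73753) (nat_lit 8) (.e (nat_lit 557091) (nat_lit 12) (.e (nat_lit 163840) (nat_lit 0) (.e (nat_lit 5937) (nat_lit 322) .nil)))))))) (.g (nat_lit 1) (.e (nat_lit 251559) (nat_lit 0) .nil) .nil))) 
(.lf (nat_lit 533143) (.g (nat_lit 2780) (.e (nat_lit 57389) (nat_lit 5) (.e (nat_lit 114697) (nat_lit 11) (.e (nat_lit 426198) (nat_lit 9) (.e (nat_lit 426555) (nat_lit 32) (.e (nat_lit 376857) (nat_lit 21) (.e (nat_lit 57844) (nat_lit 252) .nil)))))) (.g (nat_lit 1) (.e (nat_lit 252335) (nat_lit 0) .nil) .nil)))) (.nd (nat_lit 9) 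
(.lf (nat_lit 532887) (.g (nat_lit 2899) (.e (nat_lit 57388) (nat_lit 5) (.e (nat_lit 114697) (nat_lit 11) (.e (nat_lit 426198) (nat_lit 9) (.e (nat_lit 426555) (nat_lit 32) (.e (nat_lit 376859) (nat_lit 21) (.e (nat_lit 57847) (nat_lit 252) .nil)))))) (.g (nat_lit 1) (.e (nat_lit 251871) (nat_lit 0) .nil) .nil))) 
(.lf (nat_lit 533399) (.g (nat_lit 2774) (.e (nat_lit 57406) (nat_lit 12) (.e (nat_lit 336019) (nat_lit 3) (.e (nat_lit 98372) (nat_lit 29) (.e (nat_lit 450586) (nat_lit 10) (.e (nat_lit 573477) (nat_lit 12) (.e (nat_lit 57351) (nat_lit 0) (.e (nat_lit 7265) (nat_lit 384) .nil))))))) (.g (nat_lit 1) (.e (nat_lit 252835) (nat_lit 0) .nil) .nil)))))) 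
(.nd (nat_lit 7) (.nd (nat_lit 8) (.nd (nat_lit 9) 
(.lf (nat_lit 532567) (.g (nat_lit 3434) (.e (nat_lit 57379) (nat_lit 3) (.e (nat_lit 98365) (nat_lit 26) (.e (nat_lit 426325) (nat_lit 13) (.e (nat_lit 483337) (nat_lit 9) (.e (nat_lit 426108) (nat_lit 1) (.e (nat_lit 164396) (nat_lit 256) .nil)))))) (.g (nat_lit 1) (.e (nat_lit 251495) (nat_lit 0) .nil) .nil))) 
(.lf (nat_lit 533079) (.g (nat_lit 2857) (.e (nat_lit 57388) (nat_lit 5) (.e (nat_lit 114698) (nat_lit 11) (.e (nat_lit 426335) (nat_lit 13) (.e (nat_lit 483393) (nat_lit 23) (.e (nat_lit 335987) (nat_lit 1) (.e (nat_lit 57852) (nat_lit 252) .nil)))))) (.g (nat_lit 1) (.e (nat_lit 252234) (nat_lit 0) .nil) .nil)))) (.nd (nat_lit 9) 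
(.lf (nat_lit 532823) (.g (nat_lit 1756) (.e (nat_lit 57388) (nat_lit 5) (.e (nat_lit 114696) (nat_lit 11) (.e (nat_lit 426262) (nat_lit 9) (.e (nat_lit 426554) (nat_lit 32) (.e (nat_lit 376857) (nat_lit 21) (.e (nat_lit 57852) (nat_lit 252) .nil)))))) (.g (nat_lit 1) (.e (nat_lit 251807) (nat_lit 0) .nil) .nil))) 
(.lf (nat_lit 533335) (.g (nat_lit 2028) (.e (nat_lit 57390) (nat_lit 5) (.e (nat_lit 114698) (nat_lit 11) (.e (nat_lit 426200) (nat_lit 9) (.e (nat_lit 426555) (nat_lit 32) (.e (nat_lit 376859) (nat_lit 21) (.e (nat_lit 57848) (nat_lit 252) .nil)))))) (.g (nat_lit 1) (.e (nat_lit 252673) (nat_lit 0) .nil) .nil))))) (.nd (nat_lit 8) (.nd (nat_lit 9) 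
(.lf (nat_lit 532695) (.g (nat_lit 3110) (.e (nat_lit 57379) (nat_lit 3) (.e (nat_lit 98366) (nat_lit 27) (.e (nat_lit 434248) (nat_lit 28) (.e (nat_lit 573489) (nat_lit 14) (.e (nat_lit 73755) (nat_lit 8) (.e (nat_lit 557090) (nat_lit 12) (.e (nat_lit 163844) (nat_lit 0) (.e (nat_lit 5941) (nat_lit 322) .nil)))))))) (.g (nat_lit 1) (.e (nat_lit 251623) (nat_lit 0) .nil) .nil))) 
(.lf (nat_lit 533207) (.g (nat_lit 3596) (.e (nat_lit 57389) (nat_lit 5) (.e (nat_lit 114698) (nat_lit 11) (.e (nat_lit 426197) (nat_lit 9) (.e (nat_lit 426555) (nat_lit 32) (.e (nat_lit 376857) (nat_lit 21) (.e (nat_lit 57852) (nat_lit 252) .nil)))))) (.g (nat_lit 1) (.e (nat_lit 252465) (nat_lit 0) .nil) .nil)))) (.nd (nat_lit 9) 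
(.lf (nat_lit 532951) (.g (nat_lit 3302) (.e (nat_lit 57388) (nat_lit 5) (.e (nat_lit 114698) (nat_lit 11) (.e (nat_lit 426188) (nat_lit 9) (.e (nat_lit 426555) (nat_lit 32) (.e (nat_lit 376859) (nat_lit 21) (.e (nat_lit 57854) (nat_lit 252) .nil)))))) (.g (nat_lit 1) (.e (nat_lit 252027) (nat_lit 0) .nil) .nil))) 
(.lf (nat_lit 533463) (.g (nat_lit 3750) (.e (nat_lit 57406) (nat_lit 12) (.e (nat_lit 336454) (nat_lit 34) (.e (nat_lit 483384) (nat_lit 23) (.e (nat_lit 336324) (nat_lit 18) (.e (nat_lit 204831) (nat_lit 18) (.e (nat_lit 57853) (nat_lit 252) .nil)))))) (.g (nat_lit 1) (.e (nat_lit 252931) (nat_lit 0) .nil) .nil))))))) (.nd (nat_lit 6) (.nd (nat_lit 7) (.nd (nat_lit 8) (.nd (nat_lit 9) 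
(.lf (nat_lit 532535) (.g (nat_lit 2614) (.e (nat_lit 57379) (nat_lit 3) (.e (nat_lit 98365) (nat_lit 26) (.e (nat_lit 426188) (nat_lit 9) (.e (nat_lit 426568) (nat_lit 34) (.e (nat_lit 393251) (nat_lit 18) (.e (nat_lit 164398) (nat_lit 256) .nil)))))) (.g (nat_lit 1) (.e (nat_lit 251463) (nat_lit 0) .nil) .nil))) 
(.lf (nat_lit 533047) (.g (nat_lit 3373) (.e (nat_lit 57388) (nat_lit 5) (.e (nat_lit 114698) (nat_lit 11) (.e (nat_lit 426199) (nat_lit 9) (.e (nat_lit 426555) (nat_lit 32) (.e (nat_lit 376860) (nat_lit 21) (.e (nat_lit 57851) (nat_lit 252) .nil)))))) (.g (nat_lit 1) (.e (nat_lit 252123) (nat_lit 0) .nil) .nil)))) (.nd (nat_lit 9) 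
(.lf (nat_lit 532791) (.g (nat_lit 2503) (.e (nat_lit 57388) (nat_lit 5) (.e (nat_lit 114694) (nat_lit 11) (.e (nat_lit 426200) (nat_lit 9) (.e (nat_lit 426555) (nat_lit 32) (.e (nat_lit 376857) (nat_lit 21) (.e (nat_lit 57846) (nat_lit 252) .nil)))))) (.g (nat_lit 1) (.e (nat_lit 251764) (nat_lit 0) .nil) .nil))) 
(.lf (nat_lit 533303) (.g (nat_lit 3109) (.e (nat_lit 57390) (nat_lit 5) (.e (nat_lit 114697) (nat_lit 11) (.e (nat_lit 426198) (nat_lit 9) (.e (nat_lit 426542) (nat_lit 29) (.e (nat_lit 352309) (nat_lit 21) (.e (nat_lit 57846) (nat_lit 252) .nil)))))) (.g (nat_lit 1) (.e (nat_lit 252627) (nat_lit 0) .nil) .nil))))) (.nd (nat_lit 8) (.nd (nat_lit 9) 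
(.lf (nat_lit 532663) (.g (nat_lit 4016) (.e (nat_lit 57379) (nat_lit 3) (.e (nat_lit 98366) (nat_lit 27) (.e (nat_lit 434245) (nat_lit 28) (.e (nat_lit 573488) (nat_lit 14) (.e (nat_lit 73755) (nat_lit 8) (.e (nat_lit 557090) (nat_lit 12) (.e (nat_lit 163843) (nat_lit 0) (.e (nat_lit 5940) (nat_lit 322) .nil)))))))) (.g (nat_lit 1) (.e (nat_lit 251591) (nat_lit 0) .nil) .nil))) 
(.lf (nat_lit 533175) (.g (nat_lit 3115) (.e (nat_lit 57389) (nat_lit 5) (.e (nat_lit 114698) (nat_lit 11) (.e (nat_lit 426188) (nat_lit 9) (.e (nat_lit 426555) (nat_lit 32) (.e (nat_lit 376857) (nat_lit 21) (.e (nat_lit 57851) (nat_lit 252) .nil)))))) (.g (nat_lit 1) (.e (nat_lit 252433) (nat_lit 0) .nil) .nil)))) (.nd (nat_lit 9) 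
(.lf (nat_lit 532919) (.g (nat_lit 3011) (.e (nat_lit 57388) (nat_lit 5) (.e (nat_lit 114697) (nat_lit 11) (.e (nat_lit 426200) (nat_lit 9) (.e (nat_lit 426555) (nat_lit 32) (.e (nat_lit 376859) (nat_lit 21) (.e (nat_lit 57844) (nat_lit 252) .nil)))))) (.g (nat_lit 1) (.e (nat_lit 251904) (nat_lit 0) .nil) .nil))) 
(.lf (nat_lit 533431) (.g (nat_lit 3226) (.e (nat_lit 57406) (nat_lit 12) (.e (nat_lit 336316) (nat_lit 17) (.e (nat_lit 196666) (nat_lit 13) (.e (nat_lit 65610) (nat_lit 10) (.e (nat_lit 344088) (nat_lit 18) (.e (nat_lit 7695) (nat_lit 412) (.e (nat_lit 57368) (nat_lit 1) (.e (nat_lit 57852) (nat_lit 252) .nil)))))))) (.g (nat_lit 1) (.e (nat_lit 252870) (nat_lit 0) .nil) .nil)))))) 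
(.nd (nat_lit 7) (.nd (nat_lit 8) (.nd (nat_lit 9) 
(.lf (nat_lit 532599) (.g (nat_lit 3372) (.e (nat_lit 57379) (nat_lit 3) (.e (nat_lit 98366) (nat_lit 27) (.e (nat_lit 434231) (nat_lit 23) (.e (nat_lit 532513) (nat_lit 3) (.e (nat_lit 114714) (nat_lit 22) (.e (nat_lit 90165) (nat_lit 12) (.e (nat_lit 171776) (nat_lit 0) (.e (nat_lit 5939) (nat_lit 322) .nil)))))))) (.g (nat_lit 1) (.e (nat_lit 251527) (nat_lit 0) .nil) .nil))) 
(.lf (nat_lit 533111) (.g (nat_lit 3019) (.e (nat_lit 57389) (nat_lit 5) (.e (nat_lit 114697) (nat_lit 11) (.e (nat_lit 426188) (nat_lit 9) (.e (nat_lit 426555) (nat_lit 32) (.e (nat_lit 376857) (nat_lit 21) (.e (nat_lit 57852) (nat_lit 252) .nil)))))) (.g (nat_lit 1) (.e (nat_lit 252303) (nat_lit 0) .nil) .nil)))) (.nd (nat_lit 9) 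
(.lf (nat_lit 532855) (.g (nat_lit 3007) (.e (nat_lit 57388) (nat_lit 5) (.e (nat_lit 114697) (nat_lit 11) (.e (nat_lit 426190) (nat_lit 9) (.e (nat_lit 426555) (nat_lit 32) (.e (nat_lit 376859) (nat_lit 21) (.e (nat_lit 57847) (nat_lit 252) .nil)))))) (.g (nat_lit 1) (.e (nat_lit 251839) (nat_lit 0) .nil) .nil))) 
(.lf (nat_lit 533367) (.g (nat_lit 4502) (.e (nat_lit 57405) (nat_lit 12) (.e (nat_lit 336019) (nat_lit 3) (.e (nat_lit 98373) (nat_lit 29) (.e (nat_lit 450587) (nat_lit 10) (.e (nat_lit 573478) (nat_lit 12) .nil))))) (.g (nat_lit 0) (.e (nat_lit 252780) (nat_lit 0) .nil) .nil))))) (.nd (nat_lit 8) (.nd (nat_lit 9) 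
(.lf (nat_lit 532727) (.g (nat_lit 3029) (.e (nat_lit 57379) (nat_lit 3) (.e (nat_lit 98367) (nat_lit 27) (.e (nat_lit 434245) (nat_lit 28) (.e (nat_lit 573487) (nat_lit 14) (.e (nat_lit 73753) (nat_lit 8) (.e (nat_lit 557090) (nat_lit 12) (.e (nat_lit 163850) (nat_lit 0) (.e (nat_lit 5939) (nat_lit 322) .nil)))))))) (.g (nat_lit 1) (.e (nat_lit 251655) (nat_lit 0) .nil) .nil))) 
(.lf (nat_lit 533239) (.g (nat_lit 3544) (.e (nat_lit 57389) (nat_lit 5) (.e (nat_lit 114698) (nat_lit 11) (.e (nat_lit 426199) (nat_lit 9) (.e (nat_lit 426555) (nat_lit 32) (.e (nat_lit 376857) (nat_lit 21) (.e (nat_lit 57852) (nat_lit 252) .nil)))))) (.g (nat_lit 1) (.e (nat_lit 252497) (nat_lit 0) .nil) .nil)))) (.nd (nat_lit 9) 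
(.lf (nat_lit 532983) (.g (nat_lit 3667) (.e (nat_lit 57388) (nat_lit 5) (.e (nat_lit 114698) (nat_lit 11) (.e (nat_lit 426197) (nat_lit 9) (.e (nat_lit 426555) (nat_lit 32) (.e (nat_lit 376857) (nat_lit 21) (.e (nat_lit 57847) (nat_lit 252) .nil)))))) (.g (nat_lit 1) (.e (nat_lit 252059) (nat_lit 0) .nil) .nil))) 
(.lf (nat_lit 533495) (.g (nat_lit 3559) (.e (nat_lit 57406) (nat_lit 12) (.e (nat_lit 336456) (nat_lit 34) (.e (nat_lit 483387) (nat_lit 23) (.e (nat_lit 336282) (nat_lit 15) (.e (nat_lit 3253) (nat_lit 197) (.e (nat_lit 532501) (nat_lit 1) (.e (nat_lit 57851) (nat_lit 252) .nil))))))) (.g (nat_lit 1) (.e (nat_lit 252963) (nat_lit 0) .nil) .nil))))))))) 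
(.nd (nat_lit 4) (.nd (nat_lit 5) (.nd (nat_lit 6) (.nd (nat_lit 7) (.nd (nat_lit 8) 
(.nd (nat_lit 9) 
(.lf (nat_lit 532495) (.g (nat_lit 2075) (.e (nat_lit 57379) (nat_lit 3) (.e (nat_lit 98342) (nat_lit 20) (.e (nat_lit 221215) (nat_lit 23) (.e (nat_lit 204861) (nat_lit 26) (.e (nat_lit 336025) (nat_lit 3) .nil))))) (.g (nat_lit 0) (.e (nat_lit 251423) (nat_lit 0) .nil) .nil))) 
(.lf (nat_lit 533007) (.g (nat_lit 3494) (.e (nat_lit 57388) (nat_lit 5) (.e (nat_lit 114698) (nat_lit 11) (.e (nat_lit 426198) (nat_lit 9) (.e (nat_lit 426542) (nat_lit 29) (.e (nat_lit 352307) (nat_lit 21) (.e (nat_lit 57849) (nat_lit 252) .nil)))))) (.g (nat_lit 1) (.e (nat_lit 252083) (nat_lit 0) .nil) .nil)))) (.nd (nat_lit 9) 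
(.lf (nat_lit 532751) (.g (nat_lit 3274) (.e (nat_lit 57379) (nat_lit 3) (.e (nat_lit 98367) (nat_lit 27) (.e (nat_lit 434248) (nat_lit 28) (.e (nat_lit 573489) (nat_lit 14) (.e (nat_lit 73755) (nat_lit 8) (.e (nat_lit 557091) (nat_lit 12) (.e (nat_lit 163840) (nat_lit 0) (.e (nat_lit 5939) (nat_lit 322) .nil)))))))) (.g (nat_lit 1) (.e (nat_lit 251679) (nat_lit 0) .nil) .nil))) 
(.lf (nat_lit 533263) (.g (nat_lit 2683) (.e (nat_lit 57389) (nat_lit 5) (.e (nat_lit 114698) (nat_lit 11) (.e (nat_lit 426327) (nat_lit 13) (.e (nat_lit 483393) (nat_lit 23) (.e (nat_lit 335987) (nat_lit 1) (.e (nat_lit 57852) (nat_lit 252) .nil)))))) (.g (nat_lit 1) (.e (nat_lit 252538) (nat_lit 0) .nil) .nil))))) (.nd (nat_lit 8) (.nd (nat_lit 9) 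
(.lf (nat_lit 532623) (.g (nat_lit 2633) (.e (nat_lit 57379) (nat_lit 3) (.e (nat_lit 98366) (nat_lit 27) (.e (nat_lit 434242) (nat_lit 28) (.e (nat_lit 573488) (nat_lit 14) (.e (nat_lit 73755) (nat_lit 8) (.e (nat_lit 557090) (nat_lit 12) (.e (nat_lit 163844) (nat_lit 0) (.e (nat_lit 5943) (nat_lit 322) .nil)))))))) (.g (nat_lit 1) (.e (nat_lit 251551) (nat_lit 0) .nil) .nil))) 
(.lf (nat_lit 533135) (.g (nat_lit 2649) (.e (nat_lit 57389) (nat_lit 5) (.e (nat_lit 114697) (nat_lit 11) (.e (nat_lit 426197) (nat_lit 9) (.e (nat_lit 426555) (nat_lit 32) (.e (nat_lit 376860) (nat_lit 21) (.e (nat_lit 57851) (nat_lit 252) .nil)))))) (.g (nat_lit 1) (.e (nat_lit 252327) (nat_lit 0) .nil) .nil)))) (.nd (nat_lit 9) 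
(.lf (nat_lit 532879) (.g (nat_lit 3126) (.e (nat_lit 57388) (nat_lit 5) (.e (nat_lit 114697) (nat_lit 11) (.e (nat_lit 426198) (nat_lit 9) (.e (nat_lit 426555) (nat_lit 32) (.e (nat_lit 376857) (nat_lit 21) (.e (nat_lit 57846) (nat_lit 252) .nil)))))) (.g (nat_lit 1) (.e (nat_lit 251863) (nat_lit 0) .nil) .nil))) 
(.lf (nat_lit 533391) (.g (nat_lit 2622) (.e (nat_lit 57406) (nat_lit 12) (.e (nat_lit 336019) (nat_lit 3) (.e (nat_lit 98359) (nat_lit 26) (.e (nat_lit 426286) (nat_lit 10) (.e (nat_lit 434248) (nat_lit 28) .nil))))) (.g (nat_lit 0) (.e (nat_lit 252827) (nat_lit 0) .nil) .nil)))))) (.nd (nat_lit 7) (.nd (nat_lit 8) (.nd (nat_lit 9) 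
(.lf (nat_lit 532559) (.g (nat_lit 3392) (.e (nat_lit 57379) (nat_lit 3) (.e (nat_lit 98365) (nat_lit 26) (.e (nat_lit 426325) (nat_lit 13) (.e (nat_lit 483337) (nat_lit 9) (.e (nat_lit 426098) (nat_lit 1) (.e (nat_lit 164396) (nat_lit 256) .nil)))))) (.g (nat_lit 1) (.e (nat_lit 251487) (nat_lit 0) .nil) .nil))) 
(.lf (nat_lit 533071) (.g (nat_lit 2116) (.e (nat_lit 57388) (nat_lit 5) (.e (nat_lit 114698) (nat_lit 11) (.e (nat_lit 426327) (nat_lit 13) (.e (nat_lit 483383) (nat_lit 23) (.e (nat_lit 336000) (nat_lit 1) (.e (nat_lit 57848) (nat_lit 252) .nil)))))) (.g (nat_lit 1) (.e (nat_lit 252178) (nat_lit 0) .nil) .nil)))) (.nd (nat_lit 9) 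
(.lf (nat_lit 532815) (.g (nat_lit 1956) (.e (nat_lit 57388) (nat_lit 5) (.e (nat_lit 114696) (nat_lit 11) (.e (nat_lit 426234) (nat_lit 9) (.e (nat_lit 426554) (nat_lit 32) (.e (nat_lit 376859) (nat_lit 21) (.e (nat_lit 57846) (nat_lit 252) .nil)))))) (.g (nat_lit 1) (.e (nat_lit 251799) (nat_lit 0) .nil) .nil))) 
(.lf (nat_lit 533327) (.g (nat_lit 2881) (.e (nat_lit 57390) (nat_lit 5) (.e (nat_lit 114698) (nat_lit 11) (.e (nat_lit 426198) (nat_lit 9) (.e (nat_lit 426555) (nat_lit 32) (.e (nat_lit 376857) (nat_lit 21) (.e (nat_lit 57846) (nat_lit 252) .nil)))))) (.g (nat_lit 1) (.e (nat_lit 252665) (nat_lit 0) .nil) .nil))))) (.nd (nat_lit 8) (.nd (nat_lit 9) 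
(.lf (nat_lit 532687) (.g (nat_lit 3147) (.e (nat_lit 57379) (nat_lit 3) (.e (nat_lit 98366) (nat_lit 27) (.e (nat_lit 434248) (nat_lit 28) (.e (nat_lit 573489) (nat_lit 14) (.e (nat_lit 73755) (nat_lit 8) (.e (nat_lit 557090) (nat_lit 12) (.e (nat_lit 163840) (nat_lit 0) (.e (nat_lit 5937) (nat_lit 322) .nil)))))))) (.g (nat_lit 1) (.e (nat_lit 251615) (nat_lit 0) .nil) .nil))) 
(.lf (nat_lit 533199) (.g (nat_lit 3112) (.e (nat_lit 57389) (nat_lit 5) (.e (nat_lit 114698) (nat_lit 11) (.e (nat_lit 426190) (nat_lit 9) (.e (nat_lit 426555) (nat_lit 32) (.e (nat_lit 376860) (nat_lit 21) (.e (nat_lit 57851) (nat_lit 252) .nil)))))) (.g (nat_lit 1) (.e (nat_lit 252457) (nat_lit 0) .nil) .nil)))) (.nd (nat_lit 9) 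
(.lf (nat_lit 532943) (.g (nat_lit 3180) (.e (nat_lit 57388) (nat_lit 5) (.e (nat_lit 114698) (nat_lit 11) (.e (nat_lit 426188) (nat_lit 9) (.e (nat_lit 426555) (nat_lit 32) (.e (nat_lit 376857) (nat_lit 21) (.e (nat_lit 57851) (nat_lit 252) .nil)))))) (.g (nat_lit 1) (.e (nat_lit 252019) (nat_lit 0) .nil) .nil))) 
(.lf (nat_lit 533455) (.g (nat_lit 1016) (.e (nat_lit 57406) (nat_lit 12) (.e (nat_lit 336434) (nat_lit 30) (.e (nat_lit 450579) (nat_lit 5) (.e (nat_lit 532582) (nat_lit 26) .nil)))) (.g (nat_lit 0) (.e (nat_lit 252922) (nat_lit 0) .nil) .nil))))))) (.nd (nat_lit 6) (.nd (nat_lit 7) (.nd (nat_lit 8) (.nd (nat_lit 9) 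
(.lf (nat_lit 532527) (.g (nat_lit 2428) (.e (nat_lit 57379) (nat_lit 3) (.e (nat_lit 98365) (nat_lit 26) (.e (nat_lit 426188) (nat_lit 9) (.e (nat_lit 426564) (nat_lit 34) (.e (nat_lit 393252) (nat_lit 18) (.e (nat_lit 164399) (nat_lit 256) .nil)))))) (.g (nat_lit 1) (.e (nat_lit 251455) (nat_lit 0) .nil) .nil))) 
(.lf (nat_lit 533039) (.g (nat_lit 3345) (.e (nat_lit 57388) (nat_lit 5) (.e (nat_lit 114698) (nat_lit 11) (.e (nat_lit 426199) (nat_lit 9) (.e (nat_lit 426555) (nat_lit 32) (.e (nat_lit 376857) (nat_lit 21) (.e (nat_lit 57851) (nat_lit 252) .nil)))))) (.g (nat_lit 1) (.e (nat_lit 252115) (nat_lit 0) .nil) .nil)))) (.nd (nat_lit 9) 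
(.lf (nat_lit 532783) (.g (nat_lit 902) (.e (nat_lit 57382) (nat_lit 4) (.e (nat_lit 106536) (nat_lit 11) (.e (nat_lit 16468) (nat_lit 13) .nil))) (.g (nat_lit 0) (.e (nat_lit 251735) (nat_lit 0) .nil) .nil))) 
(.lf (nat_lit 533295) (.g (nat_lit 2773) (.e (nat_lit 57390) (nat_lit 5) (.e (nat_lit 114697) (nat_lit 11) (.e (nat_lit 426188) (nat_lit 9) (.e (nat_lit 426555) (nat_lit 32) (.e (nat_lit 376859) (nat_lit 21) (.e (nat_lit 57847) (nat_lit 252) .nil)))))) (.g (nat_lit 1) (.e (nat_lit 252618) (nat_lit 0) .nil) .nil))))) (.nd (nat_lit 8) (.nd (nat_lit 9) 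
(.lf (nat_lit 532655) (.g (nat_lit 2706) (.e (nat_lit 57379) (nat_lit 3) (.e (nat_lit 98366) (nat_lit 27) (.e (nat_lit 434245) (nat_lit 28) (.e (nat_lit 573487) (nat_lit 14) (.e (nat_lit 73753) (nat_lit 8) (.e (nat_lit 557090) (nat_lit 12) (.e (nat_lit 163840) (nat_lit 0) (.e (nat_lit 5939) (nat_lit 322) .nil)))))))) (.g (nat_lit 1) (.e (nat_lit 251583) (nat_lit 0) .nil) .nil))) 
(.lf (nat_lit 533167) (.g (nat_lit 3407) (.e (nat_lit 57389) (nat_lit 5) (.e (nat_lit 114697) (nat_lit 11) (.e (nat_lit 426200) (nat_lit 9) (.e (nat_lit 426555) (nat_lit 32) (.e (nat_lit 376860) (nat_lit 21) (.e (nat_lit 57852) (nat_lit 252) .nil)))))) (.g (nat_lit 1) (.e (nat_lit 252359) (nat_lit 0) .nil) .nil)))) (.nd (nat_lit 9) 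
(.lf (nat_lit 532911) (.g (nat_lit 2225) (.e (nat_lit 57388) (nat_lit 5) (.e (nat_lit 114697) (nat_lit 11) (.e (nat_lit 426200) (nat_lit 9) (.e (nat_lit 426555) (nat_lit 32) (.e (nat_lit 376857) (nat_lit 21) (.e (nat_lit 57844) (nat_lit 252) .nil)))))) (.g (nat_lit 1) (.e (nat_lit 251896) (nat_lit 0) .nil) .nil))) 
(.lf (nat_lit 533423) (.g (nat_lit 3138) (.e (nat_lit 57406) (nat_lit 12) (.e (nat_lit 336120) (nat_lit 9) (.e (nat_lit 336407) (nat_lit 27) (.e (nat_lit 426343) (nat_lit 14) (.e (nat_lit 491558) (nat_lit 10) (.e (nat_lit 344096) (nat_lit 18) (.e (nat_lit 7265) (nat_lit 384) .nil))))))) (.g (nat_lit 1) (.e (nat_lit 252859) (nat_lit 0) .nil) .nil)))))) 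
(.nd (nat_lit 7) (.nd (nat_lit 8) (.nd (nat_lit 9) 
(.lf (nat_lit 532591) (.g (nat_lit 873) (.e (nat_lit 57379) (nat_lit 3) (.e (nat_lit 98365) (nat_lit 26) (.e (nat_lit 426326) (nat_lit 13) (.e (nat_lit 483341) (nat_lit 9) .nil)))) (.g (nat_lit 0) (.e (nat_lit 251519) (nat_lit 0) .nil) .nil))) 
(.lf (nat_lit 533103) (.g (nat_lit 1719) (.e (nat_lit 57389) (nat_lit 5) (.e (nat_lit 114695) (nat_lit 11) (.e (nat_lit 426262) (nat_lit 9) (.e (nat_lit 426554) (nat_lit 32) (.e (nat_lit 376857) (nat_lit 21) (.e (nat_lit 57851) (nat_lit 252) .nil)))))) (.g (nat_lit 1) (.e (nat_lit 252295) (nat_lit 0) .nil) .nil)))) (.nd (nat_lit 9) 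
(.lf (nat_lit 532847) (.g (nat_lit 3189) (.e (nat_lit 57388) (nat_lit 5) (.e (nat_lit 114697) (nat_lit 11) (.e (nat_lit 426190) (nat_lit 9) (.e (nat_lit 426555) (nat_lit 32) (.e (nat_lit 376857) (nat_lit 21) (.e (nat_lit 57847) (nat_lit 252) .nil)))))) (.g (nat_lit 1) (.e (nat_lit 251831) (nat_lit 0) .nil) .nil))) 
(.lf (nat_lit 533359) (.g (nat_lit 799) (.e (nat_lit 57404) (nat_lit 12) (.e (nat_lit 336443) (nat_lit 32) (.e (nat_lit 466979) (nat_lit 23) .nil))) (.g (nat_lit 0) (.e (nat_lit 252747) (nat_lit 0) .nil) .nil))))) (.nd (nat_lit 8) (.nd (nat_lit 9) 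
(.lf (nat_lit 532719) (.g (nat_lit 2735) (.e (nat_lit 57379) (nat_lit 3) (.e (nat_lit 98367) (nat_lit 27) (.e (nat_lit 434242) (nat_lit 28) (.e (nat_lit 573488) (nat_lit 14) (.e (nat_lit 73755) (nat_lit 8) (.e (nat_lit 557090) (nat_lit 12) (.e (nat_lit 163844) (nat_lit 0) (.e (nat_lit 5943) (nat_lit 322) .nil)))))))) (.g (nat_lit 1) (.e (nat_lit 251647) (nat_lit 0) .nil) .nil))) 
(.lf (nat_lit 533231) (.g (nat_lit 3146) (.e (nat_lit 57389) (nat_lit 5) (.e (nat_lit 114698) (nat_lit 11) (.e (nat_lit 426198) (nat_lit 9) (.e (nat_lit 426555) (nat_lit 32) (.e (nat_lit 376860) (nat_lit 21) (.e (nat_lit 57844) (nat_lit 252) .nil)))))) (.g (nat_lit 1) (.e (nat_lit 252489) (nat_lit 0) .nil) .nil)))) (.nd (nat_lit 9) 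
(.lf (nat_lit 532975) (.g (nat_lit 2320) (.e (nat_lit 57388) (nat_lit 5) (.e (nat_lit 114698) (nat_lit 11) (.e (nat_lit 426197) (nat_lit 9) (.e (nat_lit 426542) (nat_lit 29) (.e (nat_lit 352309) (nat_lit 21) (.e (nat_lit 57848) (nat_lit 252) .nil)))))) (.g (nat_lit 1) (.e (nat_lit 252051) (nat_lit 0) .nil) .nil))) 
(.lf (nat_lit 533487) (.g (nat_lit 1983) (.e (nat_lit 57406) (nat_lit 12) (.e (nat_lit 336456) (nat_lit 34) (.e (nat_lit 483383) (nat_lit 23) (.e (nat_lit 336263) (nat_lit 15) .nil)))) (.g (nat_lit 0) (.e (nat_lit 252955) (nat_lit 0) .nil) .nil)))))))) (.nd (nat_lit 5) (.nd (nat_lit 6) (.nd (nat_lit 7) (.nd (nat_lit 8) (.nd (nat_lit 9) 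
(.lf (nat_lit 532511) (.g (nat_lit 2716) (.e (nat_lit 57379) (nat_lit 3) (.e (nat_lit 98349) (nat_lit 24) (.e (nat_lit 409646) (nat_lit 18) (.e (nat_lit 303119) (nat_lit 3) (.e (nat_lit 204863) (nat_lit 27) .nil))))) (.g (nat_lit 0) (.e (nat_lit 251439) (nat_lit 0) .nil) .nil))) 
(.lf (nat_lit 533023) (.g (nat_lit 3384) (.e (nat_lit 57388) (nat_lit 5) (.e (nat_lit 114698) (nat_lit 11) (.e (nat_lit 426198) (nat_lit 9) (.e (nat_lit 426555) (nat_lit 32) (.e (nat_lit 376859) (nat_lit 21) (.e (nat_lit 57846) (nat_lit 252) .nil)))))) (.g (nat_lit 1) (.e (nat_lit 252099) (nat_lit 0) .nil) .nil)))) (.nd (nat_lit 9) 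
(.lf (nat_lit 532767) (.g (nat_lit 1576) (.e (nat_lit 57379) (nat_lit 3) (.e (nat_lit 98387) (nat_lit 33) (.e (nat_lit 491571) (nat_lit 13) (.e (nat_lit 393225) (nat_lit 9) .nil)))) (.g (nat_lit 0) (.e (nat_lit 251695) (nat_lit 0) .nil) .nil))) 
(.lf (nat_lit 533279) (.g (nat_lit 4141) (.e (nat_lit 57389) (nat_lit 5) (.e (nat_lit 114712) (nat_lit 21) (.e (nat_lit 57930) (nat_lit 282) (.e (nat_lit 163923) (nat_lit 15) (.e (nat_lit 450588) (nat_lit 10) (.e (nat_lit 573475) (nat_lit 12) (.e (nat_lit 57360) (nat_lit 0) (.e (nat_lit 5949) (nat_lit 322) .nil)))))))) (.g (nat_lit 1) (.e (nat_lit 252596) (nat_lit 0) .nil) .nil))))) 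
(.nd (nat_lit 8) (.nd (nat_lit 9) 
(.lf (nat_lit 532639) (.g (nat_lit 2899) (.e (nat_lit 57379) (nat_lit 3) (.e (nat_lit 98366) (nat_lit 27) (.e (nat_lit 434244) (nat_lit 28) (.e (nat_lit 573488) (nat_lit 14) (.e (nat_lit 73755) (nat_lit 8) (.e (nat_lit 557090) (nat_lit 12) (.e (nat_lit 163840) (nat_lit 0) (.e (nat_lit 5943) (nat_lit 322) .nil)))))))) (.g (nat_lit 1) (.e (nat_lit 251567) (nat_lit 0) .nil) .nil))) 
(.lf (nat_lit 533151) (.g (nat_lit 3600) (.e (nat_lit 57389) (nat_lit 5) (.e (nat_lit 114697) (nat_lit 11) (.e (nat_lit 426198) (nat_lit 9) (.e (nat_lit 426555) (nat_lit 32) (.e (nat_lit 376860) (nat_lit 21) (.e (nat_lit 57853) (nat_lit 252) .nil)))))) (.g (nat_lit 1) (.e (nat_lit 252343) (nat_lit 0) .nil) .nil)))) (.nd (nat_lit 9) 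
(.lf (nat_lit 532895) (.g (nat_lit 369) (.e (nat_lit 57388) (nat_lit 5) (.e (nat_lit 114697) (nat_lit 11) (.e (nat_lit 426199) (nat_lit 9) .nil))) (.g (nat_lit 0) (.e (nat_lit 251879) (nat_lit 0) .nil) .nil))) 
(.lf (nat_lit 533407) (.g (nat_lit 5098) (.e (nat_lit 57406) (nat_lit 12) (.e (nat_lit 336019) (nat_lit 3) (.e (nat_lit 98373) (nat_lit 29) (.e (nat_lit 450587) (nat_lit 10) (.e (nat_lit 573475) (nat_lit 12) .nil))))) (.g (nat_lit 0) (.e (nat_lit 252843) (nat_lit 0) .nil) .nil)))))) (.nd (nat_lit 7) (.nd (nat_lit 8) (.nd (nat_lit 9) 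
(.lf (nat_lit 532575) (.g (nat_lit 2479) (.e (nat_lit 57379) (nat_lit 3) (.e (nat_lit 98365) (nat_lit 26) (.e (nat_lit 426325) (nat_lit 13) (.e (nat_lit 483341) (nat_lit 9) (.e (nat_lit 426009) (nat_lit 0) (.e (nat_lit 2466) (nat_lit 157) (.e (nat_lit 5937) (nat_lit 322) .nil))))))) (.g (nat_lit 1) (.e (nat_lit 251503) (nat_lit 0) .nil) .nil))) 
(.lf (nat_lit 533087) (.g (nat_lit 3177) (.e (nat_lit 57388) (nat_lit 5) (.e (nat_lit 114712) (nat_lit 21) (.e (nat_lit 57930) (nat_lit 282) (.e (nat_lit 163923) (nat_lit 15) (.e (nat_lit 450587) (nat_lit 10) (.e (nat_lit 573477) (nat_lit 12) (.e (nat_lit 57361) (nat_lit 0) (.e (nat_lit 5949) (nat_lit 322) .nil)))))))) (.g (nat_lit 1) (.e (nat_lit 252263) (nat_lit 0) .nil) .nil)))) 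
(.nd (nat_lit 9) 
(.lf (nat_lit 532831) (.g (nat_lit 2723) (.e (nat_lit 57388) (nat_lit 5) (.e (nat_lit 114697) (nat_lit 11) (.e (nat_lit 426188) (nat_lit 9) (.e (nat_lit 426555) (nat_lit 32) (.e (nat_lit 376857) (nat_lit 21) (.e (nat_lit 57851) (nat_lit 252) .nil)))))) (.g (nat_lit 1) (.e (nat_lit 251815) (nat_lit 0) .nil) .nil))) 
(.lf (nat_lit 533343) (.g (nat_lit 1266) (.e (nat_lit 57398) (nat_lit 9) (.e (nat_lit 155669) (nat_lit 11) (.e (nat_lit 16435) (nat_lit 9) (.e (nat_lit 426555) (nat_lit 32) (.e (nat_lit 376857) (nat_lit 21) .nil))))) (.g (nat_lit 0) (.e (nat_lit 252706) (nat_lit 0) .nil) .nil))))) (.nd (nat_lit 8) (.nd (nat_lit 9) 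
(.lf (nat_lit 532703) (.g (nat_lit 1525) (.e (nat_lit 57379) (nat_lit 3) (.e (nat_lit 98367) (nat_lit 27) (.e (nat_lit 434231) (nat_lit 23) (.e (nat_lit 532506) (nat_lit 2) .nil)))) (.g (nat_lit 0) (.e (nat_lit 251631) (nat_lit 0) .nil) .nil))) 
(.lf (nat_lit 533215) (.g (nat_lit 1847) (.e (nat_lit 57389) (nat_lit 5) (.e (nat_lit 114698) (nat_lit 11) (.e (nat_lit 426198) (nat_lit 9) (.e (nat_lit 426542) (nat_lit 29) (.e (nat_lit 352307) (nat_lit 21) (.e (nat_lit 57845) (nat_lit 252) .nil)))))) (.g (nat_lit 1) (.e (nat_lit 252473) (nat_lit 0) .nil) .nil)))) (.nd (nat_lit 9) 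
(.lf (nat_lit 532959) (.g (nat_lit 3453) (.e (nat_lit 57388) (nat_lit 5) (.e (nat_lit 114698) (nat_lit 11) (.e (nat_lit 426190) (nat_lit 9) (.e (nat_lit 426555) (nat_lit 32) (.e (nat_lit 376857) (nat_lit 21) (.e (nat_lit 57846) (nat_lit 252) .nil)))))) (.g (nat_lit 1) (.e (nat_lit 252035) (nat_lit 0) .nil) .nil))) 
(.lf (nat_lit 533471) (.g (nat_lit 1652) (.e (nat_lit 57406) (nat_lit 12) (.e (nat_lit 336454) (nat_lit 34) (.e (nat_lit 483385) (nat_lit 23) (.e (nat_lit 336306) (nat_lit 15) (.e (nat_lit 3238) (nat_lit 197) .nil))))) (.g (nat_lit 0) (.e (nat_lit 252939) (nat_lit 0) .nil) .nil))))))) (.nd (nat_lit 6) (.nd (nat_lit 7) (.nd (nat_lit 8) (.nd (nat_lit 9) 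
(.lf (nat_lit 532543) (.g (nat_lit 2471) (.e (nat_lit 57379) (nat_lit 3) (.e (nat_lit 98365) (nat_lit 26) (.e (nat_lit 426325) (nat_lit 13) (.e (nat_lit 483337) (nat_lit 9) (.e (nat_lit 426009) (nat_lit 0) (.e (nat_lit 2430) (nat_lit 157) (.e (nat_lit 5943) (nat_lit 322) .nil))))))) (.g (nat_lit 1) (.e (nat_lit 251471) (nat_lit 0) .nil) .nil))) 
(.lf (nat_lit 533055) (.g (nat_lit 3593) (.e (nat_lit 57388) (nat_lit 5) (.e (nat_lit 114698) (nat_lit 11) (.e (nat_lit 426200) (nat_lit 9) (.e (nat_lit 426555) (nat_lit 32) (.e (nat_lit 376857) (nat_lit 21) (.e (nat_lit 57851) (nat_lit 252) .nil)))))) (.g (nat_lit 1) (.e (nat_lit 252131) (nat_lit 0) .nil) .nil)))) (.nd (nat_lit 9) 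
(.lf (nat_lit 532799) (.g (nat_lit 1760) (.e (nat_lit 57388) (nat_lit 5) (.e (nat_lit 114696) (nat_lit 11) (.e (nat_lit 426230) (nat_lit 9) (.e (nat_lit 426554) (nat_lit 32) (.e (nat_lit 376857) (nat_lit 21) (.e (nat_lit 57847) (nat_lit 252) .nil)))))) (.g (nat_lit 1) (.e (nat_lit 251783) (nat_lit 0) .nil) .nil))) 
(.lf (nat_lit 533311) (.g (nat_lit 2926) (.e (nat_lit 57390) (nat_lit 5) (.e (nat_lit 114697) (nat_lit 11) (.e (nat_lit 426199) (nat_lit 9) (.e (nat_lit 426555) (nat_lit 32) (.e (nat_lit 376857) (nat_lit 21) (.e (nat_lit 57847) (nat_lit 252) .nil)))))) (.g (nat_lit 1) (.e (nat_lit 252635) (nat_lit 0) .nil) .nil))))) (.nd (nat_lit 8) (.nd (nat_lit 9) 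
(.lf (nat_lit 532671) (.g (nat_lit 4414) (.e (nat_lit 57379) (nat_lit 3) (.e (nat_lit 98366) (nat_lit 27) (.e (nat_lit 434247) (nat_lit 28) (.e (nat_lit 573489) (nat_lit 14) (.e (nat_lit 73755) (nat_lit 8) (.e (nat_lit 557090) (nat_lit 12) (.e (nat_lit 163844) (nat_lit 0) (.e (nat_lit 5940) (nat_lit 322) .nil)))))))) (.g (nat_lit 1) (.e (nat_lit 251599) (nat_lit 0) .nil) .nil))) 
(.lf (nat_lit 533183) (.g (nat_lit 3080) (.e (nat_lit 57389) (nat_lit 5) (.e (nat_lit 114698) (nat_lit 11) (.e (nat_lit 426188) (nat_lit 9) (.e (nat_lit 426555) (nat_lit 32) (.e (nat_lit 376860) (nat_lit 21) (.e (nat_lit 57844) (nat_lit 252) .nil)))))) (.g (nat_lit 1) (.e (nat_lit 252441) (nat_lit 0) .nil) .nil)))) (.nd (nat_lit 9) 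
(.lf (nat_lit 532927) (.g (nat_lit 3027) (.e (nat_lit 57388) (nat_lit 5) (.e (nat_lit 114697) (nat_lit 11) (.e (nat_lit 426200) (nat_lit 9) (.e (nat_lit 426555) (nat_lit 32) (.e (nat_lit 376860) (nat_lit 21) (.e (nat_lit 57852) (nat_lit 252) .nil)))))) (.g (nat_lit 1) (.e (nat_lit 251912) (nat_lit 0) .nil) .nil))) 
(.lf (nat_lit 533439) (.g (nat_lit 2198) (.e (nat_lit 57406) (nat_lit 12) (.e (nat_lit 336316) (nat_lit 17) (.e (nat_lit 196666) (nat_lit 13) (.e (nat_lit 65617) (nat_lit 10) (.e (nat_lit 344089) (nat_lit 18) (.e (nat_lit 7693) (nat_lit 412) (.e (nat_lit 57368) (nat_lit 1) (.e (nat_lit 57854) (nat_lit 252) .nil)))))))) (.g (nat_lit 1) (.e (nat_lit 252878) (nat_lit 0) .nil) .nil)))))) 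
(.nd (nat_lit 7) (.nd (nat_lit 8) (.nd (nat_lit 9) 
(.lf (nat_lit 532607) (.g (nat_lit 3775) (.e (nat_lit 57379) (nat_lit 3) (.e (nat_lit 98366) (nat_lit 27) (.e (nat_lit 434231) (nat_lit 23) (.e (nat_lit 532514) (nat_lit 3) (.e (nat_lit 114716) (nat_lit 22) (.e (nat_lit 90164) (nat_lit 12) (.e (nat_lit 163850) (nat_lit 0) (.e (nat_lit 5939) (nat_lit 322) .nil)))))))) (.g (nat_lit 1) (.e (nat_lit 251535) (nat_lit 0) .nil) .nil))) 
(.lf (nat_lit 533119) (.g (nat_lit 3552) (.e (nat_lit 57389) (nat_lit 5) (.e (nat_lit 114697) (nat_lit 11) (.e (nat_lit 426188) (nat_lit 9) (.e (nat_lit 426555) (nat_lit 32) (.e (nat_lit 376860) (nat_lit 21) (.e (nat_lit 57853) (nat_lit 252) .nil)))))) (.g (nat_lit 1) (.e (nat_lit 252311) (nat_lit 0) .nil) .nil)))) (.nd (nat_lit 9) 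
(.lf (nat_lit 532863) (.g (nat_lit 2688) (.e (nat_lit 57388) (nat_lit 5) (.e (nat_lit 114697) (nat_lit 11) (.e (nat_lit 426197) (nat_lit 9) (.e (nat_lit 426555) (nat_lit 32) (.e (nat_lit 376857) (nat_lit 21) (.e (nat_lit 57846) (nat_lit 252) .nil)))))) (.g (nat_lit 1) (.e (nat_lit 251847) (nat_lit 0) .nil) .nil))) 
(.lf (nat_lit 533375) (.g (nat_lit 1874) (.e (nat_lit 57405) (nat_lit 12) (.e (nat_lit 336443) (nat_lit 32) (.e (nat_lit 466981) (nat_lit 23) (.e (nat_lit 204813) (nat_lit 9) (.e (nat_lit 426098) (nat_lit 1) .nil))))) (.g (nat_lit 0) (.e (nat_lit 252792) (nat_lit 0) .nil) .nil))))) (.nd (nat_lit 8) (.nd (nat_lit 9) 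
(.lf (nat_lit 532735) (.g (nat_lit 3723) (.e (nat_lit 57379) (nat_lit 3) (.e (nat_lit 98367) (nat_lit 27) (.e (nat_lit 434246) (nat_lit 28) (.e (nat_lit 573489) (nat_lit 14) (.e (nat_lit 73755) (nat_lit 8) (.e (nat_lit 557090) (nat_lit 12) (.e (nat_lit 163844) (nat_lit 0) (.e (nat_lit 5940) (nat_lit 322) .nil)))))))) (.g (nat_lit 1) (.e (nat_lit 251663) (nat_lit 0) .nil) .nil))) 
(.lf (nat_lit 533247) (.g (nat_lit 2744) (.e (nat_lit 57389) (nat_lit 5) (.e (nat_lit 114698) (nat_lit 11) (.e (nat_lit 426200) (nat_lit 9) (.e (nat_lit 426555) (nat_lit 32) (.e (nat_lit 376856) (nat_lit 21) .nil))))) (.g (nat_lit 0) (.e (nat_lit 252505) (nat_lit 0) .nil) .nil)))) (.nd (nat_lit 9) 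
(.lf (nat_lit 532991) (.g (nat_lit 3265) (.e (nat_lit 57388) (nat_lit 5) (.e (nat_lit 114698) (nat_lit 11) (.e (nat_lit 426197) (nat_lit 9) (.e (nat_lit 426555) (nat_lit 32) (.e (nat_lit 376859) (nat_lit 21) (.e (nat_lit 57848) (nat_lit 252) .nil)))))) (.g (nat_lit 1) (.e (nat_lit 252067) (nat_lit 0) .nil) .nil))) 
(.lf (nat_lit 533503) (.g (nat_lit 3867) (.e (nat_lit 57407) (nat_lit 12) (.e (nat_lit 336019) (nat_lit 3) (.e (nat_lit 98372) (nat_lit 29) (.e (nat_lit 450588) (nat_lit 10) (.e (nat_lit 573473) (nat_lit 12) (.e (nat_lit 57347) (nat_lit 0) (.e (nat_lit 7261) (nat_lit 384) .nil))))))) (.g (nat_lit 1) (.e (nat_lit 252971) (nat_lit 0) .nil) .nil)))))))))))))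

noncomputable def tv5581 : DT := (.nd (nat_lit 0) (.nd (nat_lit 1) (.nd (nat_lit 2) (.nd (nat_lit 3) (.nd (nat_lit 4) (.nd (nat_lit 5) (.nd (nat_lit 6) (.nd (nat_lit 7) (.nd (nat_lit 8) (.nd (nat_lit 9) 
(.lf (nat_lit 533504) (.g (nat_lit 4434) (.e (nat_lit 57407) (nat_lit 12) (.e (nat_lit 336019) (nat_lit 3) (.e (nat_lit 98372) (nat_lit 29) (.e (nat_lit 450588) (nat_lit 10) (.e (nat_lit 573473) (nat_lit 12) (.e (nat_lit 57348) (nat_lit 0) (.e (nat_lit 7261) (nat_lit 384) .nil))))))) (.g (nat_lit 1) (.e (nat_lit 252972) (nat_lit 0) .nil) .nil))) 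
(.lf (nat_lit 534016) (.g (nat_lit 3338) (.e (nat_lit 57464) (nat_lit 23) (.e (nat_lit 516139) (nat_lit 7) (.e (nat_lit 409646) (nat_lit 18) (.e (nat_lit 303117) (nat_lit 2) (.e (nat_lit 196668) (nat_lit 14) (.e (nat_lit 81664) (nat_lit 43) .nil)))))) (.g (nat_lit 1) (.e (nat_lit 253905) (nat_lit 0) .nil) .nil)))) (.nd (nat_lit 9) 
(.lf (nat_lit 533760) (.g (nat_lit 4240) (.e (nat_lit 57412) (nat_lit 12) (.e (nat_lit 336022) (nat_lit 3) (.e (nat_lit 98373) (nat_lit 29) (.e (nat_lit 450588) (nat_lit 10) (.e (nat_lit 573473) (nat_lit 12) (.e (nat_lit 57352) (nat_lit 0) (.e (nat_lit 7263) (nat_lit 384) .nil))))))) (.g (nat_lit 1) (.e (nat_lit 253350) (nat_lit 0) .nil) .nil))) 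
(.lf (nat_lit 534272) (.g (nat_lit 3234) (.e (nat_lit 57476) (nat_lit 28) (.e (nat_lit 557067) (nat_lit 9) (.e (nat_lit 3022) (nat_lit 187) (.e (nat_lit 450580) (nat_lit 5) (.e (nat_lit 532563) (nat_lit 15) (.e (nat_lit 385091) (nat_lit 49) (.e (nat_lit 778317) (nat_lit 3) .nil))))))) (.g (nat_lit 1) (.e (nat_lit 254300) (nat_lit 0) .nil) .nil))))) (.nd (nat_lit 8) (.nd (nat_lit 9) 
(.lf (nat_lit 533632) (.g (nat_lit 2404) (.e (nat_lit 57409) (nat_lit 12) (.e (nat_lit 336456) (nat_lit 34) (.e (nat_lit 483395) (nat_lit 24) (.e (nat_lit 344117) (nat_lit 21) (.e (nat_lit 516099) (nat_lit 0) (.e (nat_lit 2474) (nat_lit 157) (.e (nat_lit 6398) (nat_lit 339) .nil))))))) (.g (nat_lit 1) (.e (nat_lit 253141) (nat_lit 0) .nil) .nil))) 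
(.lf (nat_lit 534144) (.g (nat_lit 2909) (.e (nat_lit 57464) (nat_lit 23) (.e (nat_lit 516166) (nat_lit 12) (.e (nat_lit 450588) (nat_lit 10) (.e (nat_lit 573457) (nat_lit 9) (.e (nat_lit 365) (nat_lit 31) (.e (nat_lit 417795) (nat_lit 0) (.e (nat_lit 5395) (nat_lit 301) .nil))))))) (.g (nat_lit 1) (.e (nat_lit 254056) (nat_lit 0) .nil) .nil)))) (.nd (nat_lit 9) 
(.lf (nat_lit 533888) (.g (nat_lit 4637) (.e (nat_lit 57430) (nat_lit 16) (.e (nat_lit 368676) (nat_lit 21) (.e (nat_lit 516166) (nat_lit 12) (.e (nat_lit 450588) (nat_lit 10) (.e (nat_lit 573473) (nat_lit 12) .nil))))) (.g (nat_lit 0) (.e (nat_lit 253558) (nat_lit 0) .nil) .nil))) 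
(.lf (nat_lit 534400) (.g (nat_lit 2568) (.e (nat_lit 57478) (nat_lit 28) (.e (nat_lit 557098) (nat_lit 13) (.e (nat_lit 172097) (nat_lit 9) (.e (nat_lit 426140) (nat_lit 3) (.e (nat_lit 204855) (nat_lit 26) (.e (nat_lit 336290) (nat_lit 15) (.e (nat_lit 3714) (nat_lit 227) (.e (nat_lit 786176) (nat_lit 3) .nil)))))))) (.g (nat_lit 1) (.e (nat_lit 254552) (nat_lit 0) .nil) .nil)))))) 
(.nd (nat_lit 7) (.nd (nat_lit 8) (.nd (nat_lit 9) 
(.lf (nat_lit 533568) (.g (nat_lit 2186) (.e (nat_lit 57409) (nat_lit 12) (.e (nat_lit 336019) (nat_lit 3) (.e (nat_lit 98372) (nat_lit 29) (.e (nat_lit 450586) (nat_lit 10) (.e (nat_lit 573478) (nat_lit 12) .nil))))) (.g (nat_lit 0) (.e (nat_lit 253054) (nat_lit 0) .nil) .nil))) 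
(.lf (nat_lit 534080) (.g (nat_lit 2321) (.e (nat_lit 57464) (nat_lit 23) (.e (nat_lit 516165) (nat_lit 12) (.e (nat_lit 450586) (nat_lit 10) (.e (nat_lit 573449) (nat_lit 9) (.e (nat_lit 359) (nat_lit 30) .nil))))) (.g (nat_lit 0) (.e (nat_lit 253986) (nat_lit 0) .nil) .nil)))) (.nd (nat_lit 9) 
(.lf (nat_lit 533824) (.g (nat_lit 1812) (.e (nat_lit 57419) (nat_lit 12) (.e (nat_lit 336194) (nat_lit 12) (.e (nat_lit 385102) (nat_lit 50) (.e (nat_lit 786483) (nat_lit 30) (.e (nat_lit 360456) (nat_lit 0) (.e (nat_lit 5948) (nat_lit 322) .nil)))))) (.g (nat_lit 1) (.e (nat_lit 253448) (nat_lit 0) .nil) .nil))) 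
(.lf (nat_lit 534336) (.g (nat_lit 3319) (.e (nat_lit 57476) (nat_lit 28) (.e (nat_lit 557108) (nat_lit 15) (.e (nat_lit 188449) (nat_lit 22) (.e (nat_lit 196666) (nat_lit 13) (.e (nat_lit 65638) (nat_lit 15) .nil))))) (.g (nat_lit 0) (.e (nat_lit 254404) (nat_lit 0) .nil) .nil))))) (.nd (nat_lit 8) (.nd (nat_lit 9) 
(.lf (nat_lit 533696) (.g (nat_lit 3113) (.e (nat_lit 57411) (nat_lit 12) (.e (nat_lit 336456) (nat_lit 34) (.e (nat_lit 483395) (nat_lit 24) (.e (nat_lit 344117) (nat_lit 21) (.e (nat_lit 516099) (nat_lit 0) (.e (nat_lit 2474) (nat_lit 157) (.e (nat_lit 6401) (nat_lit 339) .nil))))))) (.g (nat_lit 1) (.e (nat_lit 253286) (nat_lit 0) .nil) .nil))) 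
(.lf (nat_lit 534208) (.g (nat_lit 2286) (.e (nat_lit 57466) (nat_lit 23) (.e (nat_lit 516117) (nat_lit 1) (.e (nat_lit 164398) (nat_lit 256) (.e (nat_lit 57375) (nat_lit 2) (.e (nat_lit 90174) (nat_lit 14) .nil))))) (.g (nat_lit 0) (.e (nat_lit 254126) (nat_lit 0) .nil) .nil)))) (.nd (nat_lit 9) 
(.lf (nat_lit 533952) (.g (nat_lit 1775) (.e (nat_lit 57446) (nat_lit 19) (.e (nat_lit 393229) (nat_lit 9) (.e (nat_lit 336084) (nat_lit 9) (.e (nat_lit 336324) (nat_lit 18) .nil)))) (.g (nat_lit 0) (.e (nat_lit 253672) (nat_lit 0) .nil) .nil))) 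
(.lf (nat_lit 534464) (.g (nat_lit 4278) (.e (nat_lit 57479) (nat_lit 28) (.e (nat_lit 557101) (nat_lit 13) (.e (nat_lit 172097) (nat_lit 9) (.e (nat_lit 426125) (nat_lit 2) (.e (nat_lit 196666) (nat_lit 13) (.e (nat_lit 65638) (nat_lit 15) (.e (nat_lit 3715) (nat_lit 227) (.e (nat_lit 778316) (nat_lit 3) .nil)))))))) (.g (nat_lit 1) (.e (nat_lit 254678) (nat_lit 0) .nil) .nil))))))) 
(.nd (nat_lit 6) (.nd (nat_lit 7) (.nd (nat_lit 8) (.nd (nat_lit 9) 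
(.lf (nat_lit 533536) (.g (nat_lit 3689) (.e (nat_lit 57407) (nat_lit 12) (.e (nat_lit 336456) (nat_lit 34) (.e (nat_lit 483379) (nat_lit 23) (.e (nat_lit 336324) (nat_lit 18) (.e (nat_lit 204831) (nat_lit 18) (.e (nat_lit 57847) (nat_lit 252) .nil)))))) (.g (nat_lit 1) (.e (nat_lit 253021) (nat_lit 0) .nil) .nil))) 
(.lf (nat_lit 534048) (.g (nat_lit 3786) (.e (nat_lit 57464) (nat_lit 23) (.e (nat_lit 516151) (nat_lit 9) (.e (nat_lit 426286) (nat_lit 10) (.e (nat_lit 434245) (nat_lit 28) (.e (nat_lit 573471) (nat_lit 11) (.e (nat_lit 16387) (nat_lit 0) (.e (nat_lit 7581) (nat_lit 405) .nil))))))) (.g (nat_lit 1) (.e (nat_lit 253941) (nat_lit 0) .nil) .nil)))) (.nd (nat_lit 9) 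
(.lf (nat_lit 533792) (.g (nat_lit 2068) (.e (nat_lit 57412) (nat_lit 12) (.e (nat_lit 336176) (nat_lit 10) (.e (nat_lit 344161) (nat_lit 37) (.e (nat_lit 647195) (nat_lit 9) (.e (nat_lit 7936) (nat_lit 37) (.e (nat_lit 466972) (nat_lit 21) (.e (nat_lit 164319) (nat_lit 228) .nil))))))) (.g (nat_lit 1) (.e (nat_lit 253383) (nat_lit 0) .nil) .nil))) 
(.lf (nat_lit 534304) (.g (nat_lit 3359) (.e (nat_lit 57476) (nat_lit 28) (.e (nat_lit 557097) (nat_lit 13) (.e (nat_lit 172115) (nat_lit 10) (.e (nat_lit 434231) (nat_lit 23) (.e (nat_lit 532535) (nat_lit 9) (.e (nat_lit 336290) (nat_lit 15) (.e (nat_lit 3711) (nat_lit 227) (.e (nat_lit 778316) (nat_lit 3) .nil)))))))) (.g (nat_lit 1) (.e (nat_lit 254372) (nat_lit 0) .nil) .nil))))) 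
(.nd (nat_lit 8) (.nd (nat_lit 9) 
(.lf (nat_lit 533664) (.g (nat_lit 1537) (.e (nat_lit 57411) (nat_lit 12) (.e (nat_lit 336324) (nat_lit 18) (.e (nat_lit 204852) (nat_lit 26) (.e (nat_lit 336211) (nat_lit 13) .nil)))) (.g (nat_lit 0) (.e (nat_lit 253227) (nat_lit 0) .nil) .nil))) 
(.lf (nat_lit 534176) (.g (nat_lit 2290) (.e (nat_lit 57465) (nat_lit 23) (.e (nat_lit 516117) (nat_lit 1) (.e (nat_lit 164398) (nat_lit 256) (.e (nat_lit 57373) (nat_lit 2) (.e (nat_lit 90174) (nat_lit 14) .nil))))) (.g (nat_lit 0) (.e (nat_lit 254092) (nat_lit 0) .nil) .nil)))) (.nd (nat_lit 9) 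
(.lf (nat_lit 533920) (.g (nat_lit 2057) (.e (nat_lit 57435) (nat_lit 17) (.e (nat_lit 376835) (nat_lit 0) (.e (nat_lit 3746) (nat_lit 228) (.e (nat_lit 786483) (nat_lit 30) (.e (nat_lit 360450) (nat_lit 0) (.e (nat_lit 7936) (nat_lit 322) .nil)))))) (.g (nat_lit 1) (.e (nat_lit 253603) (nat_lit 0) .nil) .nil))) 
(.lf (nat_lit 534432) (.g (nat_lit 2909) (.e (nat_lit 57478) (nat_lit 28) (.e (nat_lit 557109) (nat_lit 15) (.e (nat_lit 188452) (nat_lit 23) (.e (nat_lit 204864) (nat_lit 27) (.e (nat_lit 344167) (nat_lit 40) .nil))))) (.g (nat_lit 0) (.e (nat_lit 254600) (nat_lit 0) .nil) .nil)))))) (.nd (nat_lit 7) (.nd (nat_lit 8) (.nd (nat_lit 9) 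
(.lf (nat_lit 533600) (.g (nat_lit 191) (.e (nat_lit 57409) (nat_lit 12) (.e (nat_lit 336432) (nat_lit 30) (.e (nat_lit 450580) (nat_lit 5) .nil))) (.g (nat_lit 0) (.e (nat_lit 253104) (nat_lit 0) .nil) .nil))) 
(.lf (nat_lit 534112) (.g (nat_lit 3327) (.e (nat_lit 57464) (nat_lit 23) (.e (nat_lit 516165) (nat_lit 12) (.e (nat_lit 450588) (nat_lit 10) (.e (nat_lit 573470) (nat_lit 11) (.e (nat_lit 16388) (nat_lit 0) (.e (nat_lit 7583) (nat_lit 405) .nil)))))) (.g (nat_lit 1) (.e (nat_lit 254018) (nat_lit 0) .nil) .nil)))) (.nd (nat_lit 9) 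
(.lf (nat_lit 533856) (.g (nat_lit 1192) (.e (nat_lit 57424) (nat_lit 14) (.e (nat_lit 352262) (nat_lit 0) (.e (nat_lit 3631) (nat_lit 227) (.e (nat_lit 778327) (nat_lit 6) .nil)))) (.g (nat_lit 0) (.e (nat_lit 253510) (nat_lit 0) .nil) .nil))) 
(.lf (nat_lit 534368) (.g (nat_lit 3795) (.e (nat_lit 57477) (nat_lit 28) (.e (nat_lit 557067) (nat_lit 9) (.e (nat_lit 3022) (nat_lit 187) (.e (nat_lit 450579) (nat_lit 5) (.e (nat_lit 532563) (nat_lit 15) (.e (nat_lit 385093) (nat_lit 49) (.e (nat_lit 778317) (nat_lit 3) .nil))))))) (.g (nat_lit 1) (.e (nat_lit 254445) (nat_lit 0) .nil) .nil))))) (.nd (nat_lit 8) (.nd (nat_lit 9) 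
(.lf (nat_lit 533728) (.g (nat_lit 2499) (.e (nat_lit 57412) (nat_lit 12) (.e (nat_lit 336005) (nat_lit 2) (.e (nat_lit 90170) (nat_lit 13) (.e (nat_lit 172113) (nat_lit 10) (.e (nat_lit 434245) (nat_lit 28) (.e (nat_lit 573474) (nat_lit 12) (.e (nat_lit 57351) (nat_lit 0) (.e (nat_lit 7265) (nat_lit 384) .nil)))))))) (.g (nat_lit 1) (.e (nat_lit 253318) (nat_lit 0) .nil) .nil))) 
(.lf (nat_lit 534240) (.g (nat_lit 1186) (.e (nat_lit 57467) (nat_lit 23) (.e (nat_lit 516166) (nat_lit 12) (.e (nat_lit 450588) (nat_lit 10) .nil))) (.g (nat_lit 0) (.e (nat_lit 254169) (nat_lit 0) .nil) .nil)))) (.nd (nat_lit 9) 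
(.lf (nat_lit 533984) (.g (nat_lit 3407) (.e (nat_lit 57451) (nat_lit 20) (.e (nat_lit 401451) (nat_lit 12) (.e (nat_lit 475207) (nat_lit 41) (.e (nat_lit 712755) (nat_lit 30) (.e (nat_lit 450569) (nat_lit 0) (.e (nat_lit 5947) (nat_lit 322) .nil)))))) (.g (nat_lit 1) (.e (nat_lit 253727) (nat_lit 0) .nil) .nil))) 
(.lf (nat_lit 534496) (.g (nat_lit 3791) (.e (nat_lit 57479) (nat_lit 28) (.e (nat_lit 557105) (nat_lit 14) (.e (nat_lit 180252) (nat_lit 10) (.e (nat_lit 573481) (nat_lit 13) (.e (nat_lit 65569) (nat_lit 3) (.e (nat_lit 98321) (nat_lit 17) (.e (nat_lit 7936) (nat_lit 216) (.e (nat_lit 688165) (nat_lit 15) .nil)))))))) (.g (nat_lit 1) (.e (nat_lit 254710) (nat_lit 0) .nil) .nil)))))))) 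
(.nd (nat_lit 5) (.nd (nat_lit 6) (.nd (nat_lit 7) (.nd (nat_lit 8) (.nd (nat_lit 9) 
(.lf (nat_lit 533520) (.g (nat_lit 3109) (.e (nat_lit 57407) (nat_lit 12) (.e (nat_lit 336316) (nat_lit 17) (.e (nat_lit 196666) (nat_lit 13) (.e (nat_lit 65610) (nat_lit 10) (.e (nat_lit 344088) (nat_lit 18) (.e (nat_lit 7695) (nat_lit 412) (.e (nat_lit 57367) (nat_lit 1) (.e (nat_lit 57848) (nat_lit 252) .nil)))))))) (.g (nat_lit 1) (.e (nat_lit 252991) (nat_lit 0) .nil) .nil))) 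
(.lf (nat_lit 534032) (.g (nat_lit 1963) (.e (nat_lit 57464) (nat_lit 23) (.e (nat_lit 516151) (nat_lit 9) (.e (nat_lit 426170) (nat_lit 7) (.e (nat_lit 409631) (nat_lit 12) (.e (nat_lit 32792) (nat_lit 14) (.e (nat_lit 3031) (nat_lit 188) (.e (nat_lit 466688) (nat_lit 3) .nil))))))) (.g (nat_lit 1) (.e (nat_lit 253923) (nat_lit 0) .nil) .nil)))) (.nd (nat_lit 9) 
(.lf (nat_lit 533776) (.g (nat_lit 2621) (.e (nat_lit 57412) (nat_lit 12) (.e (nat_lit 336173) (nat_lit 10) (.e (nat_lit 344157) (nat_lit 36) (.e (nat_lit 638999) (nat_lit 8) (.e (nat_lit 172097) (nat_lit 9) (.e (nat_lit 426109) (nat_lit 1) (.e (nat_lit 164319) (nat_lit 228) .nil))))))) (.g (nat_lit 1) (.e (nat_lit 253367) (nat_lit 0) .nil) .nil))) 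
(.lf (nat_lit 534288) (.g (nat_lit 3126) (.e (nat_lit 57476) (nat_lit 28) (.e (nat_lit 557097) (nat_lit 13) (.e (nat_lit 172097) (nat_lit 9) (.e (nat_lit 426125) (nat_lit 2) (.e (nat_lit 196666) (nat_lit 13) (.e (nat_lit 65639) (nat_lit 15) (.e (nat_lit 3715) (nat_lit 227) (.e (nat_lit 778316) (nat_lit 3) .nil)))))))) (.g (nat_lit 1) (.e (nat_lit 254356) (nat_lit 0) .nil) .nil))))) 
(.nd (nat_lit 8) (.nd (nat_lit 9) 
(.lf (nat_lit 533648) (.g (nat_lit 4275) (.e (nat_lit 57411) (nat_lit 12) (.e (nat_lit 336019) (nat_lit 3) (.e (nat_lit 98373) (nat_lit 29) (.e (nat_lit 450587) (nat_lit 10) (.e (nat_lit 573478) (nat_lit 12) (.e (nat_lit 57351) (nat_lit 0) (.e (nat_lit 7261) (nat_lit 384) .nil))))))) (.g (nat_lit 1) (.e (nat_lit 253199) (nat_lit 0) .nil) .nil))) 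
(.lf (nat_lit 534160) (.g (nat_lit 2981) (.e (nat_lit 57465) (nat_lit 23) (.e (nat_lit 516115) (nat_lit 1) (.e (nat_lit 164325) (nat_lit 230) (.e (nat_lit 163868) (nat_lit 2) .nil)))) (.g (nat_lit 0) (.e (nat_lit 254075) (nat_lit 0) .nil) .nil)))) (.nd (nat_lit 9) 
(.lf (nat_lit 533904) (.g (nat_lit 2693) (.e (nat_lit 57431) (nat_lit 16) (.e (nat_lit 368676) (nat_lit 21) (.e (nat_lit 516165) (nat_lit 12) (.e (nat_lit 450586) (nat_lit 10) (.e (nat_lit 573478) (nat_lit 12) (.e (nat_lit 57353) (nat_lit 0) (.e (nat_lit 7266) (nat_lit 384) .nil))))))) (.g (nat_lit 1) (.e (nat_lit 253576) (nat_lit 0) .nil) .nil))) 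
(.lf (nat_lit 534416) (.g (nat_lit 3356) (.e (nat_lit 57478) (nat_lit 28) (.e (nat_lit 557104) (nat_lit 14) (.e (nat_lit 180252) (nat_lit 10) (.e (nat_lit 573482) (nat_lit 13) (.e (nat_lit 65569) (nat_lit 3) .nil))))) (.g (nat_lit 0) (.e (nat_lit 254569) (nat_lit 0) .nil) .nil)))))) (.nd (nat_lit 7) (.nd (nat_lit 8) (.nd (nat_lit 9) 
(.lf (nat_lit 533584) (.g (nat_lit 1684) (.e (nat_lit 57409) (nat_lit 12) (.e (nat_lit 336324) (nat_lit 18) (.e (nat_lit 204866) (nat_lit 28) (.e (nat_lit 352274) (nat_lit 11) .nil)))) (.g (nat_lit 0) (.e (nat_lit 253085) (nat_lit 0) .nil) .nil))) 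
(.lf (nat_lit 534096) (.g (nat_lit 1790) (.e (nat_lit 57464) (nat_lit 23) (.e (nat_lit 516165) (nat_lit 12) (.e (nat_lit 450587) (nat_lit 10) (.e (nat_lit 573456) (nat_lit 9) (.e (nat_lit 430) (nat_lit 32) .nil))))) (.g (nat_lit 0) (.e (nat_lit 254002) (nat_lit 0) .nil) .nil)))) (.nd (nat_lit 9) 
(.lf (nat_lit 533840) (.g (nat_lit 1580) (.e (nat_lit 57419) (nat_lit 12) (.e (nat_lit 336203) (nat_lit 12) (.e (nat_lit 385102) (nat_lit 50) (.e (nat_lit 786481) (nat_lit 30) (.e (nat_lit 360457) (nat_lit 0) (.e (nat_lit 5948) (nat_lit 322) .nil)))))) (.g (nat_lit 1) (.e (nat_lit 253464) (nat_lit 0) .nil) .nil))) 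
(.lf (nat_lit 534352) (.g (nat_lit 3899) (.e (nat_lit 57476) (nat_lit 28) (.e (nat_lit 557108) (nat_lit 15) (.e (nat_lit 188452) (nat_lit 23) (.e (nat_lit 204852) (nat_lit 26) (.e (nat_lit 336285) (nat_lit 15) (.e (nat_lit 3629) (nat_lit 227) (.e (nat_lit 778318) (nat_lit 3) .nil))))))) (.g (nat_lit 1) (.e (nat_lit 254420) (nat_lit 0) .nil) .nil))))) (.nd (nat_lit 8) (.nd (nat_lit 9) 
(.lf (nat_lit 533712) (.g (nat_lit 4246) (.e (nat_lit 57412) (nat_lit 12) (.e (nat_lit 336001) (nat_lit 2) (.e (nat_lit 90170) (nat_lit 13) (.e (nat_lit 172113) (nat_lit 10) (.e (nat_lit 434245) (nat_lit 28) (.e (nat_lit 573474) (nat_lit 12) (.e (nat_lit 57348) (nat_lit 0) (.e (nat_lit 7263) (nat_lit 384) .nil)))))))) (.g (nat_lit 1) (.e (nat_lit 253302) (nat_lit 0) .nil) .nil))) 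
(.lf (nat_lit 534224) (.g (nat_lit 2684) (.e (nat_lit 57466) (nat_lit 23) (.e (nat_lit 516150) (nat_lit 9) (.e (nat_lit 426131) (nat_lit 3) (.e (nat_lit 204837) (nat_lit 20) (.e (nat_lit 114714) (nat_lit 22) .nil))))) (.g (nat_lit 0) (.e (nat_lit 254142) (nat_lit 0) .nil) .nil)))) (.nd (nat_lit 9) 
(.lf (nat_lit 533968) (.g (nat_lit 2382) (.e (nat_lit 57449) (nat_lit 20) (.e (nat_lit 401454) (nat_lit 12) (.e (nat_lit 475210) (nat_lit 41) (.e (nat_lit 712755) (nat_lit 30) (.e (nat_lit 450569) (nat_lit 0) (.e (nat_lit 5946) (nat_lit 322) .nil)))))) (.g (nat_lit 1) (.e (nat_lit 253692) (nat_lit 0) .nil) .nil))) 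
(.lf (nat_lit 534480) (.g (nat_lit 2803) (.e (nat_lit 57479) (nat_lit 28) (.e (nat_lit 557103) (nat_lit 14) (.e (nat_lit 180250) (nat_lit 10) (.e (nat_lit 573482) (nat_lit 13) (.e (nat_lit 65569) (nat_lit 3) (.e (nat_lit 98321) (nat_lit 17) (.e (nat_lit 7936) (nat_lit 216) (.e (nat_lit 688166) (nat_lit 15) .nil)))))))) (.g (nat_lit 1) (.e (nat_lit 254694) (nat_lit 0) .nil) .nil))))))) 
(.nd (nat_lit 6) (.nd (nat_lit 7) (.nd (nat_lit 8) (.nd (nat_lit 9) 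
(.lf (nat_lit 533552) (.g (nat_lit 2345) (.e (nat_lit 57407) (nat_lit 12) (.e (nat_lit 336456) (nat_lit 34) (.e (nat_lit 483395) (nat_lit 24) (.e (nat_lit 344117) (nat_lit 21) (.e (nat_lit 516099) (nat_lit 0) .nil))))) (.g (nat_lit 0) (.e (nat_lit 253037) (nat_lit 0) .nil) .nil))) 
(.lf (nat_lit 534064) (.g (nat_lit 1293) (.e (nat_lit 57464) (nat_lit 23) (.e (nat_lit 516151) (nat_lit 9) (.e (nat_lit 426289) (nat_lit 10) (.e (nat_lit 434231) (nat_lit 23) (.e (nat_lit 532523) (nat_lit 7) .nil))))) (.g (nat_lit 0) (.e (nat_lit 253957) (nat_lit 0) .nil) .nil)))) (.nd (nat_lit 9) 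
(.lf (nat_lit 533808) (.g (nat_lit 2492) (.e (nat_lit 57413) (nat_lit 12) (.e (nat_lit 336028) (nat_lit 3) (.e (nat_lit 98373) (nat_lit 29) (.e (nat_lit 450588) (nat_lit 10) (.e (nat_lit 573475) (nat_lit 12) .nil))))) (.g (nat_lit 0) (.e (nat_lit 253422) (nat_lit 0) .nil) .nil))) 
(.lf (nat_lit 534320) (.g (nat_lit 2728) (.e (nat_lit 57476) (nat_lit 28) (.e (nat_lit 557107) (nat_lit 15) (.e (nat_lit 188450) (nat_lit 23) (.e (nat_lit 204852) (nat_lit 26) (.e (nat_lit 336238) (nat_lit 15) (.e (nat_lit 3624) (nat_lit 227) (.e (nat_lit 778318) (nat_lit 3) .nil))))))) (.g (nat_lit 1) (.e (nat_lit 254388) (nat_lit 0) .nil) .nil))))) (.nd (nat_lit 8) (.nd (nat_lit 9) 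
(.lf (nat_lit 533680) (.g (nat_lit 743) (.e (nat_lit 57411) (nat_lit 12) (.e (nat_lit 336454) (nat_lit 34) (.e (nat_lit 483395) (nat_lit 24) .nil))) (.g (nat_lit 0) (.e (nat_lit 253257) (nat_lit 0) .nil) .nil))) 
(.lf (nat_lit 534192) (.g (nat_lit 3670) (.e (nat_lit 57465) (nat_lit 23) (.e (nat_lit 516129) (nat_lit 3) (.e (nat_lit 221210) (nat_lit 22) (.e (nat_lit 196670) (nat_lit 14) (.e (nat_lit 73746) (nat_lit 3) (.e (nat_lit 516100) (nat_lit 0) (.e (nat_lit 3458) (nat_lit 216) (.e (nat_lit 688171) (nat_lit 15) .nil)))))))) (.g (nat_lit 1) (.e (nat_lit 254109) (nat_lit 0) .nil) .nil)))) 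
(.nd (nat_lit 9) 
(.lf (nat_lit 533936) (.g (nat_lit 2854) (.e (nat_lit 57437) (nat_lit 17) (.e (nat_lit 376860) (nat_lit 21) (.e (nat_lit 57857) (nat_lit 254) (.e (nat_lit 163920) (nat_lit 14) (.e (nat_lit 442430) (nat_lit 24) (.e (nat_lit 229637) (nat_lit 228) .nil)))))) (.g (nat_lit 1) (.e (nat_lit 253643) (nat_lit 0) .nil) .nil))) 
(.lf (nat_lit 534448) (.g (nat_lit 2473) (.e (nat_lit 57479) (nat_lit 28) (.e (nat_lit 557100) (nat_lit 13) (.e (nat_lit 172106) (nat_lit 10) (.e (nat_lit 434231) (nat_lit 23) (.e (nat_lit 532529) (nat_lit 9) (.e (nat_lit 336297) (nat_lit 15) (.e (nat_lit 3711) (nat_lit 227) (.e (nat_lit 778316) (nat_lit 3) .nil)))))))) (.g (nat_lit 1) (.e (nat_lit 254662) (nat_lit 0) .nil) .nil)))))) 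
(.nd (nat_lit 7) (.nd (nat_lit 8) (.nd (nat_lit 9) 
(.lf (nat_lit 533616) (.g (nat_lit 3432) (.e (nat_lit 57409) (nat_lit 12) (.e (nat_lit 336454) (nat_lit 34) (.e (nat_lit 483380) (nat_lit 23) (.e (nat_lit 336324) (nat_lit 18) (.e (nat_lit 204831) (nat_lit 18) (.e (nat_lit 57846) (nat_lit 252) .nil)))))) (.g (nat_lit 1) (.e (nat_lit 253121) (nat_lit 0) .nil) .nil))) 
(.lf (nat_lit 534128) (.g (nat_lit 3224) (.e (nat_lit 57464) (nat_lit 23) (.e (nat_lit 516166) (nat_lit 12) (.e (nat_lit 450588) (nat_lit 10) (.e (nat_lit 573449) (nat_lit 9) (.e (nat_lit 359) (nat_lit 30) (.e (nat_lit 409604) (nat_lit 0) (.e (nat_lit 5394) (nat_lit 301) .nil))))))) (.g (nat_lit 1) (.e (nat_lit 254040) (nat_lit 0) .nil) .nil)))) (.nd (nat_lit 9) 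
(.lf (nat_lit 533872) (.g (nat_lit 3702) (.e (nat_lit 57430) (nat_lit 16) (.e (nat_lit 368676) (nat_lit 21) (.e (nat_lit 516165) (nat_lit 12) (.e (nat_lit 450586) (nat_lit 10) (.e (nat_lit 573475) (nat_lit 12) (.e (nat_lit 57347) (nat_lit 0) (.e (nat_lit 7261) (nat_lit 384) .nil))))))) (.g (nat_lit 1) (.e (nat_lit 253542) (nat_lit 0) .nil) .nil))) 
(.lf (nat_lit 534384) (.g (nat_lit 2197) (.e (nat_lit 57477) (nat_lit 28) (.e (nat_lit 557107) (nat_lit 15) (.e (nat_lit 188450) (nat_lit 23) (.e (nat_lit 204855) (nat_lit 26) (.e (nat_lit 336253) (nat_lit 15) (.e (nat_lit 3716) (nat_lit 227) (.e (nat_lit 778316) (nat_lit 3) .nil))))))) (.g (nat_lit 1) (.e (nat_lit 254498) (nat_lit 0) .nil) .nil))))) (.nd (nat_lit 8) (.nd (nat_lit 9) 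
(.lf (nat_lit 533744) (.g (nat_lit 2335) (.e (nat_lit 57412) (nat_lit 12) (.e (nat_lit 336008) (nat_lit 2) (.e (nat_lit 90170) (nat_lit 13) (.e (nat_lit 172113) (nat_lit 10) (.e (nat_lit 434247) (nat_lit 28) (.e (nat_lit 573478) (nat_lit 12) (.e (nat_lit 57351) (nat_lit 0) (.e (nat_lit 7263) (nat_lit 384) .nil)))))))) (.g (nat_lit 1) (.e (nat_lit 253334) (nat_lit 0) .nil) .nil))) 
(.lf (nat_lit 534256) (.g (nat_lit 3863) (.e (nat_lit 57474) (nat_lit 28) (.e (nat_lit 557108) (nat_lit 15) (.e (nat_lit 188452) (nat_lit 23) (.e (nat_lit 204882) (nat_lit 32) .nil)))) (.g (nat_lit 0) (.e (nat_lit 254204) (nat_lit 0) .nil) .nil)))) (.nd (nat_lit 9) 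
(.lf (nat_lit 534000) (.g (nat_lit 2435) (.e (nat_lit 57464) (nat_lit 23) (.e (nat_lit 516117) (nat_lit 1) (.e (nat_lit 164329) (nat_lit 230) (.e (nat_lit 163850) (nat_lit 0) .nil)))) (.g (nat_lit 0) (.e (nat_lit 253869) (nat_lit 0) .nil) .nil))) 
(.lf (nat_lit 534512) (.g (nat_lit 4243) (.e (nat_lit 57479) (nat_lit 28) (.e (nat_lit 557105) (nat_lit 14) (.e (nat_lit 180252) (nat_lit 10) (.e (nat_lit 573487) (nat_lit 14) (.e (nat_lit 73746) (nat_lit 3) (.e (nat_lit 516100) (nat_lit 0) (.e (nat_lit 7936) (nat_lit 216) (.e (nat_lit 688165) (nat_lit 15) .nil)))))))) (.g (nat_lit 1) (.e (nat_lit 254726) (nat_lit 0) .nil) .nil))))))))) 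
(.nd (nat_lit 4) (.nd (nat_lit 5) (.nd (nat_lit 6) (.nd (nat_lit 7) (.nd (nat_lit 8) 
(.nd (nat_lit 9) 
(.lf (nat_lit 533512) (.g (nat_lit 5004) (.e (nat_lit 57407) (nat_lit 12) (.e (nat_lit 336019) (nat_lit 3) (.e (nat_lit 98373) (nat_lit 29) (.e (nat_lit 450587) (nat_lit 10) (.e (nat_lit 573477) (nat_lit 12) (.e (nat_lit 57353) (nat_lit 0) (.e (nat_lit 7261) (nat_lit 384) .nil))))))) (.g (nat_lit 1) (.e (nat_lit 252980) (nat_lit 0) .nil) .nil))) 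
(.lf (nat_lit 534024) (.g (nat_lit 4756) (.e (nat_lit 57464) (nat_lit 23) (.e (nat_lit 516139) (nat_lit 7) (.e (nat_lit 409648) (nat_lit 18) (.e (nat_lit 303119) (nat_lit 3) (.e (nat_lit 204821) (nat_lit 17) (.e (nat_lit 6238) (nat_lit 336) (.e (nat_lit 229657) (nat_lit 235) .nil))))))) (.g (nat_lit 1) (.e (nat_lit 253913) (nat_lit 0) .nil) .nil)))) (.nd (nat_lit 9) 
(.lf (nat_lit 533768) (.g (nat_lit 5189) (.e (nat_lit 57412) (nat_lit 12) (.e (nat_lit 336023) (nat_lit 3) (.e (nat_lit 98373) (nat_lit 29) (.e (nat_lit 450588) (nat_lit 10) (.e (nat_lit 573475) (nat_lit 12) (.e (nat_lit 57347) (nat_lit 0) (.e (nat_lit 7265) (nat_lit 384) .nil))))))) (.g (nat_lit 1) (.e (nat_lit 253358) (nat_lit 0) .nil) .nil))) 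
(.lf (nat_lit 534280) (.g (nat_lit 3774) (.e (nat_lit 57476) (nat_lit 28) (.e (nat_lit 557096) (nat_lit 13) (.e (nat_lit 172106) (nat_lit 10) (.e (nat_lit 434231) (nat_lit 23) (.e (nat_lit 532535) (nat_lit 9) (.e (nat_lit 336295) (nat_lit 15) (.e (nat_lit 3631) (nat_lit 227) (.e (nat_lit 778318) (nat_lit 3) .nil)))))))) (.g (nat_lit 1) (.e (nat_lit 254348) (nat_lit 0) .nil) .nil))))) 
(.nd (nat_lit 8) (.nd (nat_lit 9) 
(.lf (nat_lit 533640) (.g (nat_lit 570) (.e (nat_lit 57410) (nat_lit 12) (.e (nat_lit 336443) (nat_lit 32) (.e (nat_lit 466974) (nat_lit 22) .nil))) (.g (nat_lit 0) (.e (nat_lit 253154) (nat_lit 0) .nil) .nil))) 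
(.lf (nat_lit 534152) (.g (nat_lit 3986) (.e (nat_lit 57464) (nat_lit 23) (.e (nat_lit 516166) (nat_lit 12) (.e (nat_lit 450588) (nat_lit 10) (.e (nat_lit 573470) (nat_lit 11) (.e (nat_lit 16388) (nat_lit 0) (.e (nat_lit 7581) (nat_lit 405) .nil)))))) (.g (nat_lit 1) (.e (nat_lit 254064) (nat_lit 0) .nil) .nil)))) (.nd (nat_lit 9) 
(.lf (nat_lit 533896) (.g (nat_lit 3270) (.e (nat_lit 57431) (nat_lit 16) (.e (nat_lit 368676) (nat_lit 21) (.e (nat_lit 516165) (nat_lit 12) (.e (nat_lit 450586) (nat_lit 10) (.e (nat_lit 573473) (nat_lit 12) (.e (nat_lit 57353) (nat_lit 0) (.e (nat_lit 7261) (nat_lit 384) .nil))))))) (.g (nat_lit 1) (.e (nat_lit 253568) (nat_lit 0) .nil) .nil))) 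
(.lf (nat_lit 534408) (.g (nat_lit 4084) (.e (nat_lit 57478) (nat_lit 28) (.e (nat_lit 557100) (nat_lit 13) (.e (nat_lit 172106) (nat_lit 10) (.e (nat_lit 434231) (nat_lit 23) (.e (nat_lit 532535) (nat_lit 9) (.e (nat_lit 336295) (nat_lit 15) (.e (nat_lit 3631) (nat_lit 227) (.e (nat_lit 778317) (nat_lit 3) .nil)))))))) (.g (nat_lit 1) (.e (nat_lit 254560) (nat_lit 0) .nil) .nil)))))) 
(.nd (nat_lit 7) (.nd (nat_lit 8) (.nd (nat_lit 9) 
(.lf (nat_lit 533576) (.g (nat_lit 5243) (.e (nat_lit 57409) (nat_lit 12) (.e (nat_lit 336019) (nat_lit 3) (.e (nat_lit 98373) (nat_lit 29) (.e (nat_lit 450588) (nat_lit 10) (.e (nat_lit 573475) (nat_lit 12) (.e (nat_lit 57351) (nat_lit 0) (.e (nat_lit 7266) (nat_lit 384) .nil))))))) (.g (nat_lit 1) (.e (nat_lit 253062) (nat_lit 0) .nil) .nil))) 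
(.lf (nat_lit 534088) (.g (nat_lit 1725) (.e (nat_lit 57464) (nat_lit 23) (.e (nat_lit 516165) (nat_lit 12) (.e (nat_lit 450586) (nat_lit 10) (.e (nat_lit 573452) (nat_lit 9) (.e (nat_lit 7936) (nat_lit 36) (.e (nat_lit 466688) (nat_lit 3) .nil)))))) (.g (nat_lit 1) (.e (nat_lit 253994) (nat_lit 0) .nil) .nil)))) (.nd (nat_lit 9) 
(.lf (nat_lit 533832) (.g (nat_lit 2714) (.e (nat_lit 57419) (nat_lit 12) (.e (nat_lit 336194) (nat_lit 12) (.e (nat_lit 385105) (nat_lit 50) (.e (nat_lit 786481) (nat_lit 30) (.e (nat_lit 360457) (nat_lit 0) (.e (nat_lit 5948) (nat_lit 322) .nil)))))) (.g (nat_lit 1) (.e (nat_lit 253456) (nat_lit 0) .nil) .nil))) 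
(.lf (nat_lit 534344) (.g (nat_lit 3761) (.e (nat_lit 57476) (nat_lit 28) (.e (nat_lit 557108) (nat_lit 15) (.e (nat_lit 188452) (nat_lit 23) (.e (nat_lit 204852) (nat_lit 26) (.e (nat_lit 336242) (nat_lit 15) (.e (nat_lit 7936) (nat_lit 227) (.e (nat_lit 778318) (nat_lit 3) .nil))))))) (.g (nat_lit 1) (.e (nat_lit 254412) (nat_lit 0) .nil) .nil))))) (.nd (nat_lit 8) (.nd (nat_lit 9) 
(.lf (nat_lit 533704) (.g (nat_lit 3703) (.e (nat_lit 57412) (nat_lit 12) (.e (nat_lit 336001) (nat_lit 2) (.e (nat_lit 90170) (nat_lit 13) (.e (nat_lit 172106) (nat_lit 10) (.e (nat_lit 434244) (nat_lit 28) (.e (nat_lit 573474) (nat_lit 12) (.e (nat_lit 57353) (nat_lit 0) (.e (nat_lit 7265) (nat_lit 384) .nil)))))))) (.g (nat_lit 1) (.e (nat_lit 253294) (nat_lit 0) .nil) .nil))) 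
(.lf (nat_lit 534216) (.g (nat_lit 3296) (.e (nat_lit 57466) (nat_lit 23) (.e (nat_lit 516120) (nat_lit 1) (.e (nat_lit 164403) (nat_lit 256) (.e (nat_lit 57373) (nat_lit 2) (.e (nat_lit 90174) (nat_lit 14) .nil))))) (.g (nat_lit 0) (.e (nat_lit 254134) (nat_lit 0) .nil) .nil)))) (.nd (nat_lit 9) 
(.lf (nat_lit 533960) (.g (nat_lit 1262) (.e (nat_lit 57449) (nat_lit 20) (.e (nat_lit 401454) (nat_lit 12) (.e (nat_lit 475197) (nat_lit 40) (.e (nat_lit 704598) (nat_lit 6) .nil)))) (.g (nat_lit 0) (.e (nat_lit 253684) (nat_lit 0) .nil) .nil))) 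
(.lf (nat_lit 534472) (.g (nat_lit 2936) (.e (nat_lit 57479) (nat_lit 28) (.e (nat_lit 557101) (nat_lit 13) (.e (nat_lit 172097) (nat_lit 9) (.e (nat_lit 426140) (nat_lit 3) (.e (nat_lit 204855) (nat_lit 26) (.e (nat_lit 336290) (nat_lit 15) (.e (nat_lit 3714) (nat_lit 227) (.e (nat_lit 786176) (nat_lit 3) .nil)))))))) (.g (nat_lit 1) (.e (nat_lit 254686) (nat_lit 0) .nil) .nil))))))) 
(.nd (nat_lit 6) (.nd (nat_lit 7) (.nd (nat_lit 8) (.nd (nat_lit 9) 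
(.lf (nat_lit 533544) (.g (nat_lit 2000) (.e (nat_lit 57407) (nat_lit 12) (.e (nat_lit 336456) (nat_lit 34) (.e (nat_lit 483383) (nat_lit 23) (.e (nat_lit 336265) (nat_lit 15) .nil)))) (.g (nat_lit 0) (.e (nat_lit 253029) (nat_lit 0) .nil) .nil))) 
(.lf (nat_lit 534056) (.g (nat_lit 2855) (.e (nat_lit 57464) (nat_lit 23) (.e (nat_lit 516151) (nat_lit 9) (.e (nat_lit 426286) (nat_lit 10) (.e (nat_lit 434248) (nat_lit 28) (.e (nat_lit 573452) (nat_lit 9) (.e (nat_lit 7936) (nat_lit 36) (.e (nat_lit 466688) (nat_lit 3) .nil))))))) (.g (nat_lit 1) (.e (nat_lit 253949) (nat_lit 0) .nil) .nil)))) (.nd (nat_lit 9) 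
(.lf (nat_lit 533800) (.g (nat_lit 2947) (.e (nat_lit 57412) (nat_lit 12) (.e (nat_lit 336226) (nat_lit 14) (.e (nat_lit 401437) (nat_lit 9) (.e (nat_lit 426546) (nat_lit 30) (.e (nat_lit 360456) (nat_lit 0) (.e (nat_lit 5947) (nat_lit 322) .nil)))))) (.g (nat_lit 1) (.e (nat_lit 253405) (nat_lit 0) .nil) .nil))) 
(.lf (nat_lit 534312) (.g (nat_lit 2244) (.e (nat_lit 57476) (nat_lit 28) (.e (nat_lit 557104) (nat_lit 14) (.e (nat_lit 180252) (nat_lit 10) (.e (nat_lit 573489) (nat_lit 14) (.e (nat_lit 73754) (nat_lit 8) .nil))))) (.g (nat_lit 0) (.e (nat_lit 254380) (nat_lit 0) .nil) .nil))))) (.nd (nat_lit 8) (.nd (nat_lit 9) 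
(.lf (nat_lit 533672) (.g (nat_lit 1605) (.e (nat_lit 57411) (nat_lit 12) (.e (nat_lit 336443) (nat_lit 32) (.e (nat_lit 466974) (nat_lit 22) (.e (nat_lit 196654) (nat_lit 11) (.e (nat_lit 16405) (nat_lit 1) .nil))))) (.g (nat_lit 0) (.e (nat_lit 253245) (nat_lit 0) .nil) .nil))) 
(.lf (nat_lit 534184) (.g (nat_lit 3367) (.e (nat_lit 57465) (nat_lit 23) (.e (nat_lit 516129) (nat_lit 3) (.e (nat_lit 221210) (nat_lit 22) (.e (nat_lit 196668) (nat_lit 14) (.e (nat_lit 73746) (nat_lit 3) (.e (nat_lit 516100) (nat_lit 0) (.e (nat_lit 3458) (nat_lit 216) (.e (nat_lit 688171) (nat_lit 15) .nil)))))))) (.g (nat_lit 1) (.e (nat_lit 254101) (nat_lit 0) .nil) .nil)))) 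
(.nd (nat_lit 9) 
(.lf (nat_lit 533928) (.g (nat_lit 2634) (.e (nat_lit 57437) (nat_lit 17) (.e (nat_lit 376835) (nat_lit 0) (.e (nat_lit 3746) (nat_lit 228) (.e (nat_lit 786483) (nat_lit 30) (.e (nat_lit 360450) (nat_lit 0) (.e (nat_lit 7936) (nat_lit 322) .nil)))))) (.g (nat_lit 1) (.e (nat_lit 253626) (nat_lit 0) .nil) .nil))) 
(.lf (nat_lit 534440) (.g (nat_lit 3408) (.e (nat_lit 57479) (nat_lit 28) (.e (nat_lit 557100) (nat_lit 13) (.e (nat_lit 172106) (nat_lit 10) (.e (nat_lit 434231) (nat_lit 23) (.e (nat_lit 532529) (nat_lit 9) (.e (nat_lit 336242) (nat_lit 15) (.e (nat_lit 3684) (nat_lit 227) (.e (nat_lit 786176) (nat_lit 3) .nil)))))))) (.g (nat_lit 1) (.e (nat_lit 254654) (nat_lit 0) .nil) .nil)))))) 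
(.nd (nat_lit 7) (.nd (nat_lit 8) (.nd (nat_lit 9) 
(.lf (nat_lit 533608) (.g (nat_lit 1952) (.e (nat_lit 57409) (nat_lit 12) (.e (nat_lit 336443) (nat_lit 32) (.e (nat_lit 466977) (nat_lit 22) (.e (nat_lit 196655) (nat_lit 11) (.e (nat_lit 16405) (nat_lit 1) .nil))))) (.g (nat_lit 0) (.e (nat_lit 253112) (nat_lit 0) .nil) .nil))) 
(.lf (nat_lit 534120) (.g (nat_lit 3158) (.e (nat_lit 57464) (nat_lit 23) (.e (nat_lit 516166) (nat_lit 12) (.e (nat_lit 450587) (nat_lit 10) (.e (nat_lit 573455) (nat_lit 9) .nil)))) (.g (nat_lit 0) (.e (nat_lit 254032) (nat_lit 0) .nil) .nil)))) (.nd (nat_lit 9) 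
(.lf (nat_lit 533864) (.g (nat_lit 2944) (.e (nat_lit 57427) (nat_lit 15) (.e (nat_lit 360474) (nat_lit 8) (.e (nat_lit 557091) (nat_lit 12) (.e (nat_lit 164003) (nat_lit 40) (.e (nat_lit 655360) (nat_lit 0) (.e (nat_lit 2710) (nat_lit 170) (.e (nat_lit 221208) (nat_lit 21) (.e (nat_lit 164396) (nat_lit 256) .nil)))))))) (.g (nat_lit 1) (.e (nat_lit 253526) (nat_lit 0) .nil) .nil))) 
(.lf (nat_lit 534376) (.g (nat_lit 3084) (.e (nat_lit 57477) (nat_lit 28) (.e (nat_lit 557097) (nat_lit 13) (.e (nat_lit 172097) (nat_lit 9) (.e (nat_lit 426125) (nat_lit 2) (.e (nat_lit 196666) (nat_lit 13) (.e (nat_lit 65639) (nat_lit 15) (.e (nat_lit 3714) (nat_lit 227) (.e (nat_lit 786176) (nat_lit 3) .nil)))))))) (.g (nat_lit 1) (.e (nat_lit 254490) (nat_lit 0) .nil) .nil))))) 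
(.nd (nat_lit 8) (.nd (nat_lit 9) 
(.lf (nat_lit 533736) (.g (nat_lit 2467) (.e (nat_lit 57412) (nat_lit 12) (.e (nat_lit 336008) (nat_lit 2) (.e (nat_lit 90170) (nat_lit 13) (.e (nat_lit 172106) (nat_lit 10) (.e (nat_lit 434244) (nat_lit 28) (.e (nat_lit 573474) (nat_lit 12) (.e (nat_lit 57347) (nat_lit 0) (.e (nat_lit 7265) (nat_lit 384) .nil)))))))) (.g (nat_lit 1) (.e (nat_lit 253326) (nat_lit 0) .nil) .nil))) 
(.lf (nat_lit 534248) (.g (nat_lit 1082) (.e (nat_lit 57474) (nat_lit 28) (.e (nat_lit 557098) (nat_lit 13) (.e (nat_lit 172097) (nat_lit 9) .nil))) (.g (nat_lit 0) (.e (nat_lit 254196) (nat_lit 0) .nil) .nil)))) (.nd (nat_lit 9) 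
(.lf (nat_lit 533992) (.g (nat_lit 820) (.e (nat_lit 57464) (nat_lit 23) (.e (nat_lit 516115) (nat_lit 1) (.e (nat_lit 164325) (nat_lit 230) .nil))) (.g (nat_lit 0) (.e (nat_lit 253851) (nat_lit 0) .nil) .nil))) 
(.lf (nat_lit 534504) (.g (nat_lit 3519) (.e (nat_lit 57479) (nat_lit 28) (.e (nat_lit 557105) (nat_lit 14) (.e (nat_lit 180252) (nat_lit 10) (.e (nat_lit 573482) (nat_lit 13) (.e (nat_lit 65570) (nat_lit 3) (.e (nat_lit 98321) (nat_lit 17) (.e (nat_lit 7936) (nat_lit 216) (.e (nat_lit 688166) (nat_lit 15) .nil)))))))) (.g (nat_lit 1) (.e (nat_lit 254718) (nat_lit 0) .nil) .nil)))))))) 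
(.nd (nat_lit 5) (.nd (nat_lit 6) (.nd (nat_lit 7) (.nd (nat_lit 8) (.nd (nat_lit 9) 
(.lf (nat_lit 533528) (.g (nat_lit 2313) (.e (nat_lit 57407) (nat_lit 12) (.e (nat_lit 336443) (nat_lit 32) (.e (nat_lit 466977) (nat_lit 22) (.e (nat_lit 196656) (nat_lit 11) (.e (nat_lit 16404) (nat_lit 1) .nil))))) (.g (nat_lit 0) (.e (nat_lit 253012) (nat_lit 0) .nil) .nil))) 
(.lf (nat_lit 534040) (.g (nat_lit 2943) (.e (nat_lit 57464) (nat_lit 23) (.e (nat_lit 516151) (nat_lit 9) (.e (nat_lit 426286) (nat_lit 10) (.e (nat_lit 434245) (nat_lit 28) (.e (nat_lit 573449) (nat_lit 9) (.e (nat_lit 473) (nat_lit 36) (.e (nat_lit 466688) (nat_lit 3) .nil))))))) (.g (nat_lit 1) (.e (nat_lit 253933) (nat_lit 0) .nil) .nil)))) (.nd (nat_lit 9) 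
(.lf (nat_lit 533784) (.g (nat_lit 1597) (.e (nat_lit 57412) (nat_lit 12) (.e (nat_lit 336176) (nat_lit 10) (.e (nat_lit 344157) (nat_lit 36) (.e (nat_lit 638985) (nat_lit 5) (.e (nat_lit 3027) (nat_lit 187) (.e (nat_lit 458496) (nat_lit 0) (.e (nat_lit 5200) (nat_lit 294) .nil))))))) (.g (nat_lit 1) (.e (nat_lit 253375) (nat_lit 0) .nil) .nil))) 
(.lf (nat_lit 534296) (.g (nat_lit 3044) (.e (nat_lit 57476) (nat_lit 28) (.e (nat_lit 557097) (nat_lit 13) (.e (nat_lit 172115) (nat_lit 10) (.e (nat_lit 434231) (nat_lit 23) (.e (nat_lit 532528) (nat_lit 9) (.e (nat_lit 336303) (nat_lit 15) (.e (nat_lit 3619) (nat_lit 227) (.e (nat_lit 778318) (nat_lit 3) .nil)))))))) (.g (nat_lit 1) (.e (nat_lit 254364) (nat_lit 0) .nil) .nil))))) 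
(.nd (nat_lit 8) (.nd (nat_lit 9) 
(.lf (nat_lit 533656) (.g (nat_lit 4998) (.e (nat_lit 57411) (nat_lit 12) (.e (nat_lit 336019) (nat_lit 3) (.e (nat_lit 98373) (nat_lit 29) (.e (nat_lit 450588) (nat_lit 10) (.e (nat_lit 573475) (nat_lit 12) (.e (nat_lit 57353) (nat_lit 0) (.e (nat_lit 7261) (nat_lit 384) .nil))))))) (.g (nat_lit 1) (.e (nat_lit 253207) (nat_lit 0) .nil) .nil))) 
(.lf (nat_lit 534168) (.g (nat_lit 1898) (.e (nat_lit 57465) (nat_lit 23) (.e (nat_lit 516115) (nat_lit 1) (.e (nat_lit 164399) (nat_lit 256) (.e (nat_lit 57370) (nat_lit 2) (.e (nat_lit 90174) (nat_lit 14) .nil))))) (.g (nat_lit 0) (.e (nat_lit 254083) (nat_lit 0) .nil) .nil)))) (.nd (nat_lit 9) 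
(.lf (nat_lit 533912) (.g (nat_lit 5739) (.e (nat_lit 57431) (nat_lit 16) (.e (nat_lit 368676) (nat_lit 21) (.e (nat_lit 516166) (nat_lit 12) (.e (nat_lit 450588) (nat_lit 10) (.e (nat_lit 573473) (nat_lit 12) (.e (nat_lit 57348) (nat_lit 0) (.e (nat_lit 7261) (nat_lit 384) .nil))))))) (.g (nat_lit 1) (.e (nat_lit 253584) (nat_lit 0) .nil) .nil))) 
(.lf (nat_lit 534424) (.g (nat_lit 3288) (.e (nat_lit 57478) (nat_lit 28) (.e (nat_lit 557109) (nat_lit 15) (.e (nat_lit 188449) (nat_lit 22) (.e (nat_lit 196662) (nat_lit 13) (.e (nat_lit 65574) (nat_lit 4) .nil))))) (.g (nat_lit 0) (.e (nat_lit 254592) (nat_lit 0) .nil) .nil)))))) (.nd (nat_lit 7) (.nd (nat_lit 8) (.nd (nat_lit 9) 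
(.lf (nat_lit 533592) (.g (nat_lit 3069) (.e (nat_lit 57409) (nat_lit 12) (.e (nat_lit 336326) (nat_lit 18) (.e (nat_lit 204869) (nat_lit 29) (.e (nat_lit 360450) (nat_lit 0) (.e (nat_lit 7936) (nat_lit 412) .nil))))) (.g (nat_lit 0) (.e (nat_lit 253095) (nat_lit 0) .nil) .nil))) 
(.lf (nat_lit 534104) (.g (nat_lit 2713) (.e (nat_lit 57464) (nat_lit 23) (.e (nat_lit 516165) (nat_lit 12) (.e (nat_lit 450588) (nat_lit 10) (.e (nat_lit 573452) (nat_lit 9) (.e (nat_lit 430) (nat_lit 32) (.e (nat_lit 426009) (nat_lit 0) (.e (nat_lit 7583) (nat_lit 405) .nil))))))) (.g (nat_lit 1) (.e (nat_lit 254010) (nat_lit 0) .nil) .nil)))) (.nd (nat_lit 9) 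
(.lf (nat_lit 533848) (.g (nat_lit 2457) (.e (nat_lit 57421) (nat_lit 13) (.e (nat_lit 344068) (nat_lit 0) (.e (nat_lit 2856) (nat_lit 184) (.e (nat_lit 426542) (nat_lit 29) (.e (nat_lit 352316) (nat_lit 24) (.e (nat_lit 123198) (nat_lit 266) .nil)))))) (.g (nat_lit 1) (.e (nat_lit 253489) (nat_lit 0) .nil) .nil))) 
(.lf (nat_lit 534360) (.g (nat_lit 2780) (.e (nat_lit 57476) (nat_lit 28) (.e (nat_lit 557108) (nat_lit 15) (.e (nat_lit 188452) (nat_lit 23) (.e (nat_lit 204855) (nat_lit 26) (.e (nat_lit 336290) (nat_lit 15) (.e (nat_lit 3711) (nat_lit 227) (.e (nat_lit 778316) (nat_lit 3) .nil))))))) (.g (nat_lit 1) (.e (nat_lit 254428) (nat_lit 0) .nil) .nil))))) (.nd (nat_lit 8) (.nd (nat_lit 9) 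
(.lf (nat_lit 533720) (.g (nat_lit 4073) (.e (nat_lit 57412) (nat_lit 12) (.e (nat_lit 336001) (nat_lit 2) (.e (nat_lit 90170) (nat_lit 13) (.e (nat_lit 172113) (nat_lit 10) (.e (nat_lit 434248) (nat_lit 28) (.e (nat_lit 573473) (nat_lit 12) (.e (nat_lit 57353) (nat_lit 0) (.e (nat_lit 7265) (nat_lit 384) .nil)))))))) (.g (nat_lit 1) (.e (nat_lit 253310) (nat_lit 0) .nil) .nil))) 
(.lf (nat_lit 534232) (.g (nat_lit 2212) (.e (nat_lit 57467) (nat_lit 23) (.e (nat_lit 516115) (nat_lit 1) (.e (nat_lit 164398) (nat_lit 256) (.e (nat_lit 57375) (nat_lit 2) (.e (nat_lit 90174) (nat_lit 14) .nil))))) (.g (nat_lit 0) (.e (nat_lit 254160) (nat_lit 0) .nil) .nil)))) (.nd (nat_lit 9) 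
(.lf (nat_lit 533976) (.g (nat_lit 2634) (.e (nat_lit 57451) (nat_lit 20) (.e (nat_lit 401448) (nat_lit 10) (.e (nat_lit 434272) (nat_lit 38) (.e (nat_lit 655363) (nat_lit 0) (.e (nat_lit 3022) (nat_lit 187) (.e (nat_lit 450569) (nat_lit 0) (.e (nat_lit 5947) (nat_lit 322) .nil))))))) (.g (nat_lit 1) (.e (nat_lit 253717) (nat_lit 0) .nil) .nil))) 
(.lf (nat_lit 534488) (.g (nat_lit 2779) (.e (nat_lit 57479) (nat_lit 28) (.e (nat_lit 557105) (nat_lit 14) (.e (nat_lit 180251) (nat_lit 10) (.e (nat_lit 573485) (nat_lit 13) (.e (nat_lit 65570) (nat_lit 3) (.e (nat_lit 98321) (nat_lit 17) (.e (nat_lit 7936) (nat_lit 216) (.e (nat_lit 688165) (nat_lit 15) .nil)))))))) (.g (nat_lit 1) (.e (nat_lit 254702) (nat_lit 0) .nil) .nil))))))) 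
(.nd (nat_lit 6) (.nd (nat_lit 7) (.nd (nat_lit 8) (.nd (nat_lit 9) 
(.lf (nat_lit 533560) (.g (nat_lit 1245) (.e (nat_lit 57408) (nat_lit 12) (.e (nat_lit 336326) (nat_lit 18) (.e (nat_lit 204854) (nat_lit 26) (.e (nat_lit 336211) (nat_lit 13) .nil)))) (.g (nat_lit 0) (.e (nat_lit 253045) (nat_lit 0) .nil) .nil))) 
(.lf (nat_lit 534072) (.g (nat_lit 892) (.e (nat_lit 57464) (nat_lit 23) (.e (nat_lit 516163) (nat_lit 11) (.e (nat_lit 442427) (nat_lit 23) (.e (nat_lit 204845) (nat_lit 24) .nil)))) (.g (nat_lit 0) (.e (nat_lit 253975) (nat_lit 0) .nil) .nil)))) (.nd (nat_lit 9) 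
(.lf (nat_lit 533816) (.g (nat_lit 2584) (.e (nat_lit 57419) (nat_lit 12) (.e (nat_lit 335986) (nat_lit 1) (.e (nat_lit 57847) (nat_lit 252) (.e (nat_lit 57365) (nat_lit 1) (.e (nat_lit 57926) (nat_lit 282) .nil))))) (.g (nat_lit 0) (.e (nat_lit 253435) (nat_lit 0) .nil) .nil))) 
(.lf (nat_lit 534328) (.g (nat_lit 2149) (.e (nat_lit 57476) (nat_lit 28) (.e (nat_lit 557107) (nat_lit 15) (.e (nat_lit 188450) (nat_lit 23) (.e (nat_lit 204855) (nat_lit 26) (.e (nat_lit 336253) (nat_lit 15) .nil))))) (.g (nat_lit 0) (.e (nat_lit 254396) (nat_lit 0) .nil) .nil))))) (.nd (nat_lit 8) (.nd (nat_lit 9) 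
(.lf (nat_lit 533688) (.g (nat_lit 1571) (.e (nat_lit 57411) (nat_lit 12) (.e (nat_lit 336456) (nat_lit 34) (.e (nat_lit 483393) (nat_lit 23) (.e (nat_lit 336004) (nat_lit 2) (.e (nat_lit 90140) (nat_lit 9) .nil))))) (.g (nat_lit 0) (.e (nat_lit 253278) (nat_lit 0) .nil) .nil))) 
(.lf (nat_lit 534200) (.g (nat_lit 2223) (.e (nat_lit 57466) (nat_lit 23) (.e (nat_lit 516115) (nat_lit 1) (.e (nat_lit 164398) (nat_lit 256) (.e (nat_lit 57375) (nat_lit 2) (.e (nat_lit 90174) (nat_lit 14) .nil))))) (.g (nat_lit 0) (.e (nat_lit 254118) (nat_lit 0) .nil) .nil)))) (.nd (nat_lit 9) 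
(.lf (nat_lit 533944) (.g (nat_lit 1973) (.e (nat_lit 57442) (nat_lit 18) (.e (nat_lit 385074) (nat_lit 31) (.e (nat_lit 573477) (nat_lit 12) (.e (nat_lit 65280) (nat_lit 206) .nil)))) (.g (nat_lit 0) (.e (nat_lit 253654) (nat_lit 0) .nil) .nil))) 
(.lf (nat_lit 534456) (.g (nat_lit 3302) (.e (nat_lit 57479) (nat_lit 28) (.e (nat_lit 557100) (nat_lit 13) (.e (nat_lit 172106) (nat_lit 10) (.e (nat_lit 434231) (nat_lit 23) (.e (nat_lit 532535) (nat_lit 9) (.e (nat_lit 336290) (nat_lit 15) (.e (nat_lit 3715) (nat_lit 227) (.e (nat_lit 786176) (nat_lit 3) .nil)))))))) (.g (nat_lit 1) (.e (nat_lit 254670) (nat_lit 0) .nil) .nil)))))) 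
(.nd (nat_lit 7) (.nd (nat_lit 8) (.nd (nat_lit 9) 
(.lf (nat_lit 533624) (.g (nat_lit 3504) (.e (nat_lit 57409) (nat_lit 12) (.e (nat_lit 336454) (nat_lit 34) (.e (nat_lit 483385) (nat_lit 23) (.e (nat_lit 336324) (nat_lit 18) (.e (nat_lit 204831) (nat_lit 18) (.e (nat_lit 57846) (nat_lit 252) .nil)))))) (.g (nat_lit 1) (.e (nat_lit 253129) (nat_lit 0) .nil) .nil))) 
(.lf (nat_lit 534136) (.g (nat_lit 3863) (.e (nat_lit 57464) (nat_lit 23) (.e (nat_lit 516166) (nat_lit 12) (.e (nat_lit 450588) (nat_lit 10) (.e (nat_lit 573451) (nat_lit 9) (.e (nat_lit 396) (nat_lit 32) .nil))))) (.g (nat_lit 0) (.e (nat_lit 254048) (nat_lit 0) .nil) .nil)))) (.nd (nat_lit 9) 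
(.lf (nat_lit 533880) (.g (nat_lit 2719) (.e (nat_lit 57430) (nat_lit 16) (.e (nat_lit 368676) (nat_lit 21) (.e (nat_lit 516165) (nat_lit 12) (.e (nat_lit 450586) (nat_lit 10) (.e (nat_lit 573478) (nat_lit 12) (.e (nat_lit 57353) (nat_lit 0) (.e (nat_lit 7265) (nat_lit 384) .nil))))))) (.g (nat_lit 1) (.e (nat_lit 253550) (nat_lit 0) .nil) .nil))) 
(.lf (nat_lit 534392) (.g (nat_lit 2411) (.e (nat_lit 57477) (nat_lit 28) (.e (nat_lit 557108) (nat_lit 15) (.e (nat_lit 188452) (nat_lit 23) (.e (nat_lit 204855) (nat_lit 26) (.e (nat_lit 336253) (nat_lit 15) .nil))))) (.g (nat_lit 0) (.e (nat_lit 254506) (nat_lit 0) .nil) .nil))))) (.nd (nat_lit 8) (.nd (nat_lit 9) 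
(.lf (nat_lit 533752) (.g (nat_lit 3230) (.e (nat_lit 57412) (nat_lit 12) (.e (nat_lit 336022) (nat_lit 3) (.e (nat_lit 98373) (nat_lit 29) (.e (nat_lit 450587) (nat_lit 10) (.e (nat_lit 573477) (nat_lit 12) (.e (nat_lit 57352) (nat_lit 0) (.e (nat_lit 7261) (nat_lit 384) .nil))))))) (.g (nat_lit 1) (.e (nat_lit 253342) (nat_lit 0) .nil) .nil))) 
(.lf (nat_lit 534264) (.g (nat_lit 2375) (.e (nat_lit 57475) (nat_lit 28) (.e (nat_lit 557098) (nat_lit 13) (.e (nat_lit 172115) (nat_lit 10) (.e (nat_lit 434231) (nat_lit 23) (.e (nat_lit 532554) (nat_lit 13) .nil))))) (.g (nat_lit 0) (.e (nat_lit 254214) (nat_lit 0) .nil) .nil)))) (.nd (nat_lit 9) 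
(.lf (nat_lit 534008) (.g (nat_lit 3356) (.e (nat_lit 57464) (nat_lit 23) (.e (nat_lit 516139) (nat_lit 7) (.e (nat_lit 409643) (nat_lit 18) (.e (nat_lit 303119) (nat_lit 3) (.e (nat_lit 204821) (nat_lit 17) (.e (nat_lit 6238) (nat_lit 336) (.e (nat_lit 229657) (nat_lit 235) .nil))))))) (.g (nat_lit 1) (.e (nat_lit 253897) (nat_lit 0) .nil) .nil))) 
(.lf (nat_lit 534520) (.g (nat_lit 2243) (.e (nat_lit 57479) (nat_lit 28) (.e (nat_lit 557105) (nat_lit 14) (.e (nat_lit 180252) (nat_lit 10) (.e (nat_lit 573489) (nat_lit 14) (.e (nat_lit 73745) (nat_lit 3) (.e (nat_lit 516100) (nat_lit 0) (.e (nat_lit 7936) (nat_lit 216) (.e (nat_lit 688165) (nat_lit 15) .nil)))))))) (.g (nat_lit 1) (.e (nat_lit 254734) (nat_lit 0) .nil) .nil)))))))))) 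
(.nd (nat_lit 3) (.nd (nat_lit 4) (.nd (nat_lit 5) (.nd (nat_lit 6) (.nd (nat_lit 7) 
(.nd (nat_lit 8) (.nd (nat_lit 9) 
(.lf (nat_lit 533508) (.g (nat_lit 4225) (.e (nat_lit 57407) (nat_lit 12) (.e (nat_lit 336019) (nat_lit 3) (.e (nat_lit 98372) (nat_lit 29) (.e (nat_lit 450588) (nat_lit 10) (.e (nat_lit 573475) (nat_lit 12) (.e (nat_lit 57351) (nat_lit 0) (.e (nat_lit 7261) (nat_lit 384) .nil))))))) (.g (nat_lit 1) (.e (nat_lit 252976) (nat_lit 0) .nil) .nil))) 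
(.lf (nat_lit 534020) (.g (nat_lit 2969) (.e (nat_lit 57464) (nat_lit 23) (.e (nat_lit 516139) (nat_lit 7) (.e (nat_lit 409647) (nat_lit 18) (.e (nat_lit 303119) (nat_lit 3) (.e (nat_lit 204821) (nat_lit 17) (.e (nat_lit 6238) (nat_lit 336) (.e (nat_lit 229657) (nat_lit 235) .nil))))))) (.g (nat_lit 1) (.e (nat_lit 253909) (nat_lit 0) .nil) .nil)))) (.nd (nat_lit 9) 
(.lf (nat_lit 533764) (.g (nat_lit 4252) (.e (nat_lit 57412) (nat_lit 12) (.e (nat_lit 336022) (nat_lit 3) (.e (nat_lit 98373) (nat_lit 29) (.e (nat_lit 450588) (nat_lit 10) (.e (nat_lit 573475) (nat_lit 12) (.e (nat_lit 57351) (nat_lit 0) (.e (nat_lit 7265) (nat_lit 384) .nil))))))) (.g (nat_lit 1) (.e (nat_lit 253354) (nat_lit 0) .nil) .nil))) 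
(.lf (nat_lit 534276) (.g (nat_lit 1512) (.e (nat_lit 57476) (nat_lit 28) (.e (nat_lit 557090) (nat_lit 12) (.e (nat_lit 164038) (nat_lit 55) (.e (nat_lit 778336) (nat_lit 9) .nil)))) (.g (nat_lit 0) (.e (nat_lit 254317) (nat_lit 0) .nil) .nil))))) (.nd (nat_lit 8) (.nd (nat_lit 9) 
(.lf (nat_lit 533636) (.g (nat_lit 1523) (.e (nat_lit 57410) (nat_lit 12) (.e (nat_lit 336208) (nat_lit 12) (.e (nat_lit 385102) (nat_lit 50) (.e (nat_lit 786483) (nat_lit 30) (.e (nat_lit 368384) (nat_lit 0) (.e (nat_lit 5937) (nat_lit 322) .nil)))))) (.g (nat_lit 1) (.e (nat_lit 253146) (nat_lit 0) .nil) .nil))) 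
(.lf (nat_lit 534148) (.g (nat_lit 3607) (.e (nat_lit 57464) (nat_lit 23) (.e (nat_lit 516166) (nat_lit 12) (.e (nat_lit 450588) (nat_lit 10) (.e (nat_lit 573464) (nat_lit 9) .nil)))) (.g (nat_lit 0) (.e (nat_lit 254060) (nat_lit 0) .nil) .nil)))) (.nd (nat_lit 9) 
(.lf (nat_lit 533892) (.g (nat_lit 5767) (.e (nat_lit 57430) (nat_lit 16) (.e (nat_lit 368676) (nat_lit 21) (.e (nat_lit 516166) (nat_lit 12) (.e (nat_lit 450588) (nat_lit 10) (.e (nat_lit 573475) (nat_lit 12) (.e (nat_lit 57348) (nat_lit 0) (.e (nat_lit 7261) (nat_lit 384) .nil))))))) (.g (nat_lit 1) (.e (nat_lit 253562) (nat_lit 0) .nil) .nil))) 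
(.lf (nat_lit 534404) (.g (nat_lit 2506) (.e (nat_lit 57478) (nat_lit 28) (.e (nat_lit 557100) (nat_lit 13) (.e (nat_lit 172106) (nat_lit 10) (.e (nat_lit 434231) (nat_lit 23) (.e (nat_lit 532529) (nat_lit 9) (.e (nat_lit 336296) (nat_lit 15) (.e (nat_lit 3714) (nat_lit 227) (.e (nat_lit 786176) (nat_lit 3) .nil)))))))) (.g (nat_lit 1) (.e (nat_lit 254556) (nat_lit 0) .nil) .nil)))))) 
(.nd (nat_lit 7) (.nd (nat_lit 8) (.nd (nat_lit 9) 
(.lf (nat_lit 533572) (.g (nat_lit 5818) (.e (nat_lit 57409) (nat_lit 12) (.e (nat_lit 336019) (nat_lit 3) (.e (nat_lit 98373) (nat_lit 29) (.e (nat_lit 450588) (nat_lit 10) (.e (nat_lit 573473) (nat_lit 12) (.e (nat_lit 57347) (nat_lit 0) (.e (nat_lit 7266) (nat_lit 384) .nil))))))) (.g (nat_lit 1) (.e (nat_lit 253058) (nat_lit 0) .nil) .nil))) 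
(.lf (nat_lit 534084) (.g (nat_lit 2957) (.e (nat_lit 57464) (nat_lit 23) (.e (nat_lit 516165) (nat_lit 12) (.e (nat_lit 450586) (nat_lit 10) (.e (nat_lit 573452) (nat_lit 9) (.e (nat_lit 359) (nat_lit 30) (.e (nat_lit 409602) (nat_lit 0) (.e (nat_lit 5394) (nat_lit 301) .nil))))))) (.g (nat_lit 1) (.e (nat_lit 253990) (nat_lit 0) .nil) .nil)))) (.nd (nat_lit 9) 
(.lf (nat_lit 533828) (.g (nat_lit 1632) (.e (nat_lit 57419) (nat_lit 12) (.e (nat_lit 336194) (nat_lit 12) (.e (nat_lit 385103) (nat_lit 50) (.e (nat_lit 786483) (nat_lit 30) (.e (nat_lit 360456) (nat_lit 0) (.e (nat_lit 5949) (nat_lit 322) .nil)))))) (.g (nat_lit 1) (.e (nat_lit 253452) (nat_lit 0) .nil) .nil))) 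
(.lf (nat_lit 534340) (.g (nat_lit 2561) (.e (nat_lit 57476) (nat_lit 28) (.e (nat_lit 557108) (nat_lit 15) (.e (nat_lit 188449) (nat_lit 22) (.e (nat_lit 196666) (nat_lit 13) (.e (nat_lit 65639) (nat_lit 15) (.e (nat_lit 3714) (nat_lit 227) (.e (nat_lit 786176) (nat_lit 3) .nil))))))) (.g (nat_lit 1) (.e (nat_lit 254408) (nat_lit 0) .nil) .nil))))) (.nd (nat_lit 8) (.nd (nat_lit 9) 
(.lf (nat_lit 533700) (.g (nat_lit 4490) (.e (nat_lit 57412) (nat_lit 12) (.e (nat_lit 336001) (nat_lit 2) (.e (nat_lit 90170) (nat_lit 13) (.e (nat_lit 172106) (nat_lit 10) (.e (nat_lit 434244) (nat_lit 28) (.e (nat_lit 573473) (nat_lit 12) (.e (nat_lit 57353) (nat_lit 0) (.e (nat_lit 7265) (nat_lit 384) .nil)))))))) (.g (nat_lit 1) (.e (nat_lit 253290) (nat_lit 0) .nil) .nil))) 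
(.lf (nat_lit 534212) (.g (nat_lit 2401) (.e (nat_lit 57466) (nat_lit 23) (.e (nat_lit 516117) (nat_lit 1) (.e (nat_lit 164399) (nat_lit 256) (.e (nat_lit 57372) (nat_lit 2) (.e (nat_lit 90174) (nat_lit 14) .nil))))) (.g (nat_lit 0) (.e (nat_lit 254130) (nat_lit 0) .nil) .nil)))) (.nd (nat_lit 9) 
(.lf (nat_lit 533956) (.g (nat_lit 672) (.e (nat_lit 57447) (nat_lit 19) (.e (nat_lit 393234) (nat_lit 17) (.e (nat_lit 2399) (nat_lit 157) .nil))) (.g (nat_lit 0) (.e (nat_lit 253676) (nat_lit 0) .nil) .nil))) 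
(.lf (nat_lit 534468) (.g (nat_lit 2074) (.e (nat_lit 57479) (nat_lit 28) (.e (nat_lit 557101) (nat_lit 13) (.e (nat_lit 172097) (nat_lit 9) (.e (nat_lit 426125) (nat_lit 2) (.e (nat_lit 196666) (nat_lit 13) (.e (nat_lit 65639) (nat_lit 15) (.e (nat_lit 3716) (nat_lit 227) (.e (nat_lit 786176) (nat_lit 3) .nil)))))))) (.g (nat_lit 1) (.e (nat_lit 254682) (nat_lit 0) .nil) .nil))))))) 
(.nd (nat_lit 6) (.nd (nat_lit 7) (.nd (nat_lit 8) (.nd (nat_lit 9) 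
(.lf (nat_lit 533540) (.g (nat_lit 3606) (.e (nat_lit 57407) (nat_lit 12) (.e (nat_lit 336456) (nat_lit 34) (.e (nat_lit 483380) (nat_lit 23) (.e (nat_lit 336324) (nat_lit 18) (.e (nat_lit 204831) (nat_lit 18) (.e (nat_lit 57848) (nat_lit 252) .nil)))))) (.g (nat_lit 1) (.e (nat_lit 253025) (nat_lit 0) .nil) .nil))) 
(.lf (nat_lit 534052) (.g (nat_lit 2850) (.e (nat_lit 57464) (nat_lit 23) (.e (nat_lit 516151) (nat_lit 9) (.e (nat_lit 426286) (nat_lit 10) (.e (nat_lit 434247) (nat_lit 28) (.e (nat_lit 573469) (nat_lit 11) (.e (nat_lit 16387) (nat_lit 0) (.e (nat_lit 7581) (nat_lit 405) .nil))))))) (.g (nat_lit 1) (.e (nat_lit 253945) (nat_lit 0) .nil) .nil)))) (.nd (nat_lit 9) 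
(.lf (nat_lit 533796) (.g (nat_lit 2906) (.e (nat_lit 57412) (nat_lit 12) (.e (nat_lit 336226) (nat_lit 14) (.e (nat_lit 401437) (nat_lit 9) (.e (nat_lit 426544) (nat_lit 30) (.e (nat_lit 360456) (nat_lit 0) (.e (nat_lit 5949) (nat_lit 322) .nil)))))) (.g (nat_lit 1) (.e (nat_lit 253401) (nat_lit 0) .nil) .nil))) 
(.lf (nat_lit 534308) (.g (nat_lit 3304) (.e (nat_lit 57476) (nat_lit 28) (.e (nat_lit 557097) (nat_lit 13) (.e (nat_lit 172115) (nat_lit 10) (.e (nat_lit 434231) (nat_lit 23) (.e (nat_lit 532535) (nat_lit 9) (.e (nat_lit 336290) (nat_lit 15) (.e (nat_lit 3715) (nat_lit 227) (.e (nat_lit 778316) (nat_lit 3) .nil)))))))) (.g (nat_lit 1) (.e (nat_lit 254376) (nat_lit 0) .nil) .nil))))) 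
(.nd (nat_lit 8) (.nd (nat_lit 9) 
(.lf (nat_lit 533668) (.g (nat_lit 3502) (.e (nat_lit 57411) (nat_lit 12) (.e (nat_lit 336326) (nat_lit 18) (.e (nat_lit 204869) (nat_lit 29) (.e (nat_lit 360451) (nat_lit 0) (.e (nat_lit 7695) (nat_lit 412) .nil))))) (.g (nat_lit 0) (.e (nat_lit 253234) (nat_lit 0) .nil) .nil))) 
(.lf (nat_lit 534180) (.g (nat_lit 2783) (.e (nat_lit 57465) (nat_lit 23) (.e (nat_lit 516119) (nat_lit 1) (.e (nat_lit 164403) (nat_lit 256) (.e (nat_lit 57378) (nat_lit 3) (.e (nat_lit 98366) (nat_lit 27) .nil))))) (.g (nat_lit 0) (.e (nat_lit 254097) (nat_lit 0) .nil) .nil)))) (.nd (nat_lit 9) 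
(.lf (nat_lit 533924) (.g (nat_lit 929) (.e (nat_lit 57436) (nat_lit 17) (.e (nat_lit 376835) (nat_lit 0) (.e (nat_lit 3746) (nat_lit 228) (.e (nat_lit 786481) (nat_lit 30) (.e (nat_lit 368384) (nat_lit 0) .nil))))) (.g (nat_lit 0) (.e (nat_lit 253609) (nat_lit 0) .nil) .nil))) 
(.lf (nat_lit 534436) (.g (nat_lit 1273) (.e (nat_lit 57479) (nat_lit 28) (.e (nat_lit 557097) (nat_lit 13) (.e (nat_lit 172097) (nat_lit 9) (.e (nat_lit 426140) (nat_lit 3) .nil)))) (.g (nat_lit 0) (.e (nat_lit 254650) (nat_lit 0) .nil) .nil)))))) (.nd (nat_lit 7) (.nd (nat_lit 8) (.nd (nat_lit 9) 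
(.lf (nat_lit 533604) (.g (nat_lit 2808) (.e (nat_lit 57409) (nat_lit 12) (.e (nat_lit 336443) (nat_lit 32) (.e (nat_lit 466974) (nat_lit 22) (.e (nat_lit 196656) (nat_lit 11) (.e (nat_lit 16388) (nat_lit 0) (.e (nat_lit 2504) (nat_lit 157) (.e (nat_lit 5949) (nat_lit 322) .nil))))))) (.g (nat_lit 1) (.e (nat_lit 253108) (nat_lit 0) .nil) .nil))) 
(.lf (nat_lit 534116) (.g (nat_lit 1495) (.e (nat_lit 57464) (nat_lit 23) (.e (nat_lit 516166) (nat_lit 12) (.e (nat_lit 450578) (nat_lit 5) (.e (nat_lit 532523) (nat_lit 7) (.e (nat_lit 319504) (nat_lit 10) .nil))))) (.g (nat_lit 0) (.e (nat_lit 254028) (nat_lit 0) .nil) .nil)))) (.nd (nat_lit 9) 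
(.lf (nat_lit 533860) (.g (nat_lit 3164) (.e (nat_lit 57424) (nat_lit 14) (.e (nat_lit 352262) (nat_lit 0) (.e (nat_lit 3748) (nat_lit 228) (.e (nat_lit 786483) (nat_lit 30) (.e (nat_lit 360456) (nat_lit 0) (.e (nat_lit 5949) (nat_lit 322) .nil)))))) (.g (nat_lit 1) (.e (nat_lit 253514) (nat_lit 0) .nil) .nil))) 
(.lf (nat_lit 534372) (.g (nat_lit 2358) (.e (nat_lit 57477) (nat_lit 28) (.e (nat_lit 557067) (nat_lit 9) (.e (nat_lit 3022) (nat_lit 187) (.e (nat_lit 450580) (nat_lit 5) (.e (nat_lit 532566) (nat_lit 15) (.e (nat_lit 385092) (nat_lit 49) (.e (nat_lit 778317) (nat_lit 3) .nil))))))) (.g (nat_lit 1) (.e (nat_lit 254453) (nat_lit 0) .nil) .nil))))) (.nd (nat_lit 8) (.nd (nat_lit 9) 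
(.lf (nat_lit 533732) (.g (nat_lit 2660) (.e (nat_lit 57412) (nat_lit 12) (.e (nat_lit 336005) (nat_lit 2) (.e (nat_lit 90170) (nat_lit 13) (.e (nat_lit 172113) (nat_lit 10) (.e (nat_lit 434248) (nat_lit 28) (.e (nat_lit 573475) (nat_lit 12) (.e (nat_lit 57348) (nat_lit 0) (.e (nat_lit 7265) (nat_lit 384) .nil)))))))) (.g (nat_lit 1) (.e (nat_lit 253322) (nat_lit 0) .nil) .nil))) 
(.lf (nat_lit 534244) (.g (nat_lit 2054) (.e (nat_lit 57474) (nat_lit 28) (.e (nat_lit 557097) (nat_lit 13) (.e (nat_lit 172097) (nat_lit 9) (.e (nat_lit 426140) (nat_lit 3) (.e (nat_lit 204862) (nat_lit 27) .nil))))) (.g (nat_lit 0) (.e (nat_lit 254192) (nat_lit 0) .nil) .nil)))) (.nd (nat_lit 9) 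
(.lf (nat_lit 533988) (.g (nat_lit 2790) (.e (nat_lit 57463) (nat_lit 23) (.e (nat_lit 516151) (nat_lit 9) (.e (nat_lit 426211) (nat_lit 9) (.e (nat_lit 433920) (nat_lit 3) .nil)))) (.g (nat_lit 0) (.e (nat_lit 253842) (nat_lit 0) .nil) .nil))) 
(.lf (nat_lit 534500) (.g (nat_lit 4736) (.e (nat_lit 57479) (nat_lit 28) (.e (nat_lit 557105) (nat_lit 14) (.e (nat_lit 180252) (nat_lit 10) (.e (nat_lit 573482) (nat_lit 13) (.e (nat_lit 65569) (nat_lit 3) (.e (nat_lit 98321) (nat_lit 17) (.e (nat_lit 7936) (nat_lit 216) (.e (nat_lit 688165) (nat_lit 15) .nil)))))))) (.g (nat_lit 1) (.e (nat_lit 254714) (nat_lit 0) .nil) .nil)))))))) 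
(.nd (nat_lit 5) (.nd (nat_lit 6) (.nd (nat_lit 7) (.nd (nat_lit 8) (.nd (nat_lit 9) 
(.lf (nat_lit 533524) (.g (nat_lit 1314) (.e (nat_lit 57407) (nat_lit 12) (.e (nat_lit 336316) (nat_lit 17) (.e (nat_lit 196668) (nat_lit 14) (.e (nat_lit 73794) (nat_lit 46) .nil)))) (.g (nat_lit 0) (.e (nat_lit 252995) (nat_lit 0) .nil) .nil))) 
(.lf (nat_lit 534036) (.g (nat_lit 2157) (.e (nat_lit 57464) (nat_lit 23) (.e (nat_lit 516151) (nat_lit 9) (.e (nat_lit 426171) (nat_lit 7) (.e (nat_lit 409631) (nat_lit 12) (.e (nat_lit 32794) (nat_lit 14) (.e (nat_lit 3032) (nat_lit 188) (.e (nat_lit 466688) (nat_lit 3) .nil))))))) (.g (nat_lit 1) (.e (nat_lit 253927) (nat_lit 0) .nil) .nil)))) (.nd (nat_lit 9) 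
(.lf (nat_lit 533780) (.g (nat_lit 1692) (.e (nat_lit 57412) (nat_lit 12) (.e (nat_lit 336176) (nat_lit 10) (.e (nat_lit 344157) (nat_lit 36) (.e (nat_lit 638985) (nat_lit 5) (.e (nat_lit 3015) (nat_lit 187) (.e (nat_lit 458496) (nat_lit 0) (.e (nat_lit 5190) (nat_lit 294) .nil))))))) (.g (nat_lit 1) (.e (nat_lit 253371) (nat_lit 0) .nil) .nil))) 
(.lf (nat_lit 534292) (.g (nat_lit 5017) (.e (nat_lit 57476) (nat_lit 28) (.e (nat_lit 557097) (nat_lit 13) (.e (nat_lit 172114) (nat_lit 10) (.e (nat_lit 434231) (nat_lit 23) (.e (nat_lit 532535) (nat_lit 9) (.e (nat_lit 336295) (nat_lit 15) (.e (nat_lit 3629) (nat_lit 227) (.e (nat_lit 778318) (nat_lit 3) .nil)))))))) (.g (nat_lit 1) (.e (nat_lit 254360) (nat_lit 0) .nil) .nil))))) 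
(.nd (nat_lit 8) (.nd (nat_lit 9) 
(.lf (nat_lit 533652) (.g (nat_lit 5787) (.e (nat_lit 57411) (nat_lit 12) (.e (nat_lit 336019) (nat_lit 3) (.e (nat_lit 98373) (nat_lit 29) (.e (nat_lit 450588) (nat_lit 10) (.e (nat_lit 573473) (nat_lit 12) (.e (nat_lit 57353) (nat_lit 0) (.e (nat_lit 7261) (nat_lit 384) .nil))))))) (.g (nat_lit 1) (.e (nat_lit 253203) (nat_lit 0) .nil) .nil))) 
(.lf (nat_lit 534164) (.g (nat_lit 2976) (.e (nat_lit 57465) (nat_lit 23) (.e (nat_lit 516115) (nat_lit 1) (.e (nat_lit 164325) (nat_lit 230) (.e (nat_lit 163873) (nat_lit 3) (.e (nat_lit 204809) (nat_lit 9) (.e (nat_lit 426139) (nat_lit 3) (.e (nat_lit 204833) (nat_lit 19) (.e (nat_lit 106537) (nat_lit 12) .nil)))))))) (.g (nat_lit 1) (.e (nat_lit 254079) (nat_lit 0) .nil) .nil)))) 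
(.nd (nat_lit 9) 
(.lf (nat_lit 533908) (.g (nat_lit 4912) (.e (nat_lit 57431) (nat_lit 16) (.e (nat_lit 368676) (nat_lit 21) (.e (nat_lit 516166) (nat_lit 12) (.e (nat_lit 450587) (nat_lit 10) (.e (nat_lit 573477) (nat_lit 12) (.e (nat_lit 57353) (nat_lit 0) (.e (nat_lit 7265) (nat_lit 384) .nil))))))) (.g (nat_lit 1) (.e (nat_lit 253580) (nat_lit 0) .nil) .nil))) 
(.lf (nat_lit 534420) (.g (nat_lit 1973) (.e (nat_lit 57478) (nat_lit 28) (.e (nat_lit 557107) (nat_lit 15) (.e (nat_lit 188447) (nat_lit 22) (.e (nat_lit 196663) (nat_lit 13) (.e (nat_lit 65574) (nat_lit 4) .nil))))) (.g (nat_lit 0) (.e (nat_lit 254588) (nat_lit 0) .nil) .nil)))))) (.nd (nat_lit 7) (.nd (nat_lit 8) (.nd (nat_lit 9) 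
(.lf (nat_lit 533588) (.g (nat_lit 2071) (.e (nat_lit 57409) (nat_lit 12) (.e (nat_lit 336326) (nat_lit 18) (.e (nat_lit 204868) (nat_lit 29) (.e (nat_lit 360449) (nat_lit 0) (.e (nat_lit 7695) (nat_lit 412) .nil))))) (.g (nat_lit 0) (.e (nat_lit 253091) (nat_lit 0) .nil) .nil))) 
(.lf (nat_lit 534100) (.g (nat_lit 3004) (.e (nat_lit 57464) (nat_lit 23) (.e (nat_lit 516165) (nat_lit 12) (.e (nat_lit 450588) (nat_lit 10) (.e (nat_lit 573452) (nat_lit 9) (.e (nat_lit 359) (nat_lit 30) (.e (nat_lit 409603) (nat_lit 0) (.e (nat_lit 5394) (nat_lit 301) .nil))))))) (.g (nat_lit 1) (.e (nat_lit 254006) (nat_lit 0) .nil) .nil)))) (.nd (nat_lit 9) 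
(.lf (nat_lit 533844) (.g (nat_lit 1344) (.e (nat_lit 65280) (nat_lit 12) (.e (nat_lit 336326) (nat_lit 18) (.e (nat_lit 204854) (nat_lit 26) (.e (nat_lit 336211) (nat_lit 13) .nil)))) (.g (nat_lit 0) (.e (nat_lit 253474) (nat_lit 0) .nil) .nil))) 
(.lf (nat_lit 534356) (.g (nat_lit 3835) (.e (nat_lit 57476) (nat_lit 28) (.e (nat_lit 557108) (nat_lit 15) (.e (nat_lit 188452) (nat_lit 23) (.e (nat_lit 204852) (nat_lit 26) (.e (nat_lit 336301) (nat_lit 15) (.e (nat_lit 3629) (nat_lit 227) (.e (nat_lit 778318) (nat_lit 3) .nil))))))) (.g (nat_lit 1) (.e (nat_lit 254424) (nat_lit 0) .nil) .nil))))) (.nd (nat_lit 8) (.nd (nat_lit 9) 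
(.lf (nat_lit 533716) (.g (nat_lit 3301) (.e (nat_lit 57412) (nat_lit 12) (.e (nat_lit 336001) (nat_lit 2) (.e (nat_lit 90170) (nat_lit 13) (.e (nat_lit 172113) (nat_lit 10) (.e (nat_lit 434247) (nat_lit 28) (.e (nat_lit 573478) (nat_lit 12) (.e (nat_lit 57352) (nat_lit 0) (.e (nat_lit 7263) (nat_lit 384) .nil)))))))) (.g (nat_lit 1) (.e (nat_lit 253306) (nat_lit 0) .nil) .nil))) 
(.lf (nat_lit 534228) (.g (nat_lit 5053) (.e (nat_lit 57466) (nat_lit 23) (.e (nat_lit 516166) (nat_lit 12) (.e (nat_lit 450588) (nat_lit 10) (.e (nat_lit 573470) (nat_lit 11) .nil)))) (.g (nat_lit 0) (.e (nat_lit 254152) (nat_lit 0) .nil) .nil)))) (.nd (nat_lit 9) 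
(.lf (nat_lit 533972) (.g (nat_lit 989) (.e (nat_lit 57451) (nat_lit 20) (.e (nat_lit 401448) (nat_lit 10) (.e (nat_lit 434270) (nat_lit 38) .nil))) (.g (nat_lit 0) (.e (nat_lit 253713) (nat_lit 0) .nil) .nil))) 
(.lf (nat_lit 534484) (.g (nat_lit 3690) (.e (nat_lit 57479) (nat_lit 28) (.e (nat_lit 557105) (nat_lit 14) (.e (nat_lit 180251) (nat_lit 10) (.e (nat_lit 573484) (nat_lit 13) (.e (nat_lit 65571) (nat_lit 3) (.e (nat_lit 98321) (nat_lit 17) (.e (nat_lit 7936) (nat_lit 216) (.e (nat_lit 688165) (nat_lit 15) .nil)))))))) (.g (nat_lit 1) (.e (nat_lit 254698) (nat_lit 0) .nil) .nil))))))) 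
(.nd (nat_lit 6) (.nd (nat_lit 7) (.nd (nat_lit 8) (.nd (nat_lit 9) 
(.lf (nat_lit 533556) (.g (nat_lit 4617) (.e (nat_lit 57408) (nat_lit 12) (.e (nat_lit 336019) (nat_lit 3) (.e (nat_lit 98373) (nat_lit 29) (.e (nat_lit 450587) (nat_lit 10) (.e (nat_lit 573477) (nat_lit 12) .nil))))) (.g (nat_lit 0) (.e (nat_lit 253041) (nat_lit 0) .nil) .nil))) 
(.lf (nat_lit 534068) (.g (nat_lit 2918) (.e (nat_lit 57464) (nat_lit 23) (.e (nat_lit 516160) (nat_lit 10) (.e (nat_lit 434248) (nat_lit 28) (.e (nat_lit 573482) (nat_lit 13) (.e (nat_lit 65571) (nat_lit 3) (.e (nat_lit 98325) (nat_lit 17) (.e (nat_lit 3579) (nat_lit 223) (.e (nat_lit 745486) (nat_lit 3) .nil)))))))) (.g (nat_lit 1) (.e (nat_lit 253970) (nat_lit 0) .nil) .nil)))) 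
(.nd (nat_lit 9) 
(.lf (nat_lit 533812) (.g (nat_lit 2676) (.e (nat_lit 57415) (nat_lit 12) (.e (nat_lit 336028) (nat_lit 3) (.e (nat_lit 98373) (nat_lit 29) (.e (nat_lit 450588) (nat_lit 10) (.e (nat_lit 573473) (nat_lit 12) .nil))))) (.g (nat_lit 0) (.e (nat_lit 253426) (nat_lit 0) .nil) .nil))) 
(.lf (nat_lit 534324) (.g (nat_lit 3035) (.e (nat_lit 57476) (nat_lit 28) (.e (nat_lit 557107) (nat_lit 15) (.e (nat_lit 188450) (nat_lit 23) (.e (nat_lit 204852) (nat_lit 26) (.e (nat_lit 336265) (nat_lit 15) (.e (nat_lit 3629) (nat_lit 227) (.e (nat_lit 778318) (nat_lit 3) .nil))))))) (.g (nat_lit 1) (.e (nat_lit 254392) (nat_lit 0) .nil) .nil))))) (.nd (nat_lit 8) (.nd (nat_lit 9) 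
(.lf (nat_lit 533684) (.g (nat_lit 1758) (.e (nat_lit 57411) (nat_lit 12) (.e (nat_lit 336456) (nat_lit 34) (.e (nat_lit 483383) (nat_lit 23) (.e (nat_lit 343808) (nat_lit 18) .nil)))) (.g (nat_lit 0) (.e (nat_lit 253274) (nat_lit 0) .nil) .nil))) 
(.lf (nat_lit 534196) (.g (nat_lit 2243) (.e (nat_lit 57466) (nat_lit 23) (.e (nat_lit 516115) (nat_lit 1) (.e (nat_lit 164325) (nat_lit 230) (.e (nat_lit 163873) (nat_lit 3) (.e (nat_lit 204809) (nat_lit 9) .nil))))) (.g (nat_lit 0) (.e (nat_lit 254114) (nat_lit 0) .nil) .nil)))) (.nd (nat_lit 9) 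
(.lf (nat_lit 533940) (.g (nat_lit 1041) (.e (nat_lit 57442) (nat_lit 18) (.e (nat_lit 385065) (nat_lit 26) (.e (nat_lit 532558) (nat_lit 14) (.e (nat_lit 376842) (nat_lit 11) .nil)))) (.g (nat_lit 0) (.e (nat_lit 253648) (nat_lit 0) .nil) .nil))) 
(.lf (nat_lit 534452) (.g (nat_lit 4158) (.e (nat_lit 57479) (nat_lit 28) (.e (nat_lit 557100) (nat_lit 13) (.e (nat_lit 172106) (nat_lit 10) (.e (nat_lit 434231) (nat_lit 23) (.e (nat_lit 532535) (nat_lit 9) (.e (nat_lit 336287) (nat_lit 15) (.e (nat_lit 3715) (nat_lit 227) (.e (nat_lit 778316) (nat_lit 3) .nil)))))))) (.g (nat_lit 1) (.e (nat_lit 254666) (nat_lit 0) .nil) .nil)))))) 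
(.nd (nat_lit 7) (.nd (nat_lit 8) (.nd (nat_lit 9) 
(.lf (nat_lit 533620) (.g (nat_lit 3198) (.e (nat_lit 57409) (nat_lit 12) (.e (nat_lit 336454) (nat_lit 34) (.e (nat_lit 483384) (nat_lit 23) (.e (nat_lit 336324) (nat_lit 18) (.e (nat_lit 204831) (nat_lit 18) (.e (nat_lit 57846) (nat_lit 252) .nil)))))) (.g (nat_lit 1) (.e (nat_lit 253125) (nat_lit 0) .nil) .nil))) 
(.lf (nat_lit 534132) (.g (nat_lit 3809) (.e (nat_lit 57464) (nat_lit 23) (.e (nat_lit 516166) (nat_lit 12) (.e (nat_lit 450588) (nat_lit 10) (.e (nat_lit 573451) (nat_lit 9) (.e (nat_lit 359) (nat_lit 30) .nil))))) (.g (nat_lit 0) (.e (nat_lit 254044) (nat_lit 0) .nil) .nil)))) (.nd (nat_lit 9) 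
(.lf (nat_lit 533876) (.g (nat_lit 2695) (.e (nat_lit 57430) (nat_lit 16) (.e (nat_lit 368676) (nat_lit 21) (.e (nat_lit 516165) (nat_lit 12) (.e (nat_lit 450586) (nat_lit 10) (.e (nat_lit 573477) (nat_lit 12) (.e (nat_lit 57352) (nat_lit 0) (.e (nat_lit 7261) (nat_lit 384) .nil))))))) (.g (nat_lit 1) (.e (nat_lit 253546) (nat_lit 0) .nil) .nil))) 
(.lf (nat_lit 534388) (.g (nat_lit 2631) (.e (nat_lit 57477) (nat_lit 28) (.e (nat_lit 557108) (nat_lit 15) (.e (nat_lit 188449) (nat_lit 22) (.e (nat_lit 196666) (nat_lit 13) (.e (nat_lit 65639) (nat_lit 15) (.e (nat_lit 3711) (nat_lit 227) (.e (nat_lit 778316) (nat_lit 3) .nil))))))) (.g (nat_lit 1) (.e (nat_lit 254502) (nat_lit 0) .nil) .nil))))) (.nd (nat_lit 8) (.nd (nat_lit 9) 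
(.lf (nat_lit 533748) (.g (nat_lit 2346) (.e (nat_lit 57412) (nat_lit 12) (.e (nat_lit 336008) (nat_lit 2) (.e (nat_lit 90170) (nat_lit 13) (.e (nat_lit 172113) (nat_lit 10) (.e (nat_lit 434248) (nat_lit 28) (.e (nat_lit 573473) (nat_lit 12) (.e (nat_lit 57347) (nat_lit 0) (.e (nat_lit 7261) (nat_lit 384) .nil)))))))) (.g (nat_lit 1) (.e (nat_lit 253338) (nat_lit 0) .nil) .nil))) 
(.lf (nat_lit 534260) (.g (nat_lit 2156) (.e (nat_lit 57475) (nat_lit 28) (.e (nat_lit 557098) (nat_lit 13) (.e (nat_lit 172097) (nat_lit 9) (.e (nat_lit 426140) (nat_lit 3) (.e (nat_lit 204863) (nat_lit 27) .nil))))) (.g (nat_lit 0) (.e (nat_lit 254210) (nat_lit 0) .nil) .nil)))) (.nd (nat_lit 9) 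
(.lf (nat_lit 534004) (.g (nat_lit 2460) (.e (nat_lit 57464) (nat_lit 23) (.e (nat_lit 516138) (nat_lit 7) (.e (nat_lit 409645) (nat_lit 18) (.e (nat_lit 303119) (nat_lit 3) (.e (nat_lit 204846) (nat_lit 24) .nil))))) (.g (nat_lit 0) (.e (nat_lit 253886) (nat_lit 0) .nil) .nil))) 
(.lf (nat_lit 534516) (.g (nat_lit 4653) (.e (nat_lit 57479) (nat_lit 28) (.e (nat_lit 557105) (nat_lit 14) (.e (nat_lit 180252) (nat_lit 10) (.e (nat_lit 573487) (nat_lit 14) (.e (nat_lit 73747) (nat_lit 3) (.e (nat_lit 516100) (nat_lit 0) (.e (nat_lit 7936) (nat_lit 216) (.e (nat_lit 688165) (nat_lit 15) .nil)))))))) (.g (nat_lit 1) (.e (nat_lit 254730) (nat_lit 0) .nil) .nil))))))))) 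
(.nd (nat_lit 4) (.nd (nat_lit 5) (.nd (nat_lit 6) (.nd (nat_lit 7) (.nd (nat_lit 8) 
(.nd (nat_lit 9) 
(.lf (nat_lit 533516) (.g (nat_lit 4858) (.e (nat_lit 57407) (nat_lit 12) (.e (nat_lit 336019) (nat_lit 3) (.e (nat_lit 98373) (nat_lit 29) (.e (nat_lit 450588) (nat_lit 10) (.e (nat_lit 573473) (nat_lit 12) .nil))))) (.g (nat_lit 0) (.e (nat_lit 252984) (nat_lit 0) .nil) .nil))) 
(.lf (nat_lit 534028) (.g (nat_lit 2596) (.e (nat_lit 57464) (nat_lit 23) (.e (nat_lit 516139) (nat_lit 7) (.e (nat_lit 417536) (nat_lit 18) (.e (nat_lit 303119) (nat_lit 3) (.e (nat_lit 204821) (nat_lit 17) (.e (nat_lit 6238) (nat_lit 336) (.e (nat_lit 229657) (nat_lit 235) .nil))))))) (.g (nat_lit 1) (.e (nat_lit 253918) (nat_lit 0) .nil) .nil)))) (.nd (nat_lit 9) 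
(.lf (nat_lit 533772) (.g (nat_lit 1186) (.e (nat_lit 57412) (nat_lit 12) (.e (nat_lit 336058) (nat_lit 7) (.e (nat_lit 319527) (nat_lit 15) (.e (nat_lit 278547) (nat_lit 8) (.e (nat_lit 303131) (nat_lit 9) (.e (nat_lit 426109) (nat_lit 1) (.e (nat_lit 164319) (nat_lit 228) .nil))))))) (.g (nat_lit 1) (.e (nat_lit 253362) (nat_lit 0) .nil) .nil))) 
(.lf (nat_lit 534284) (.g (nat_lit 3372) (.e (nat_lit 57476) (nat_lit 28) (.e (nat_lit 557097) (nat_lit 13) (.e (nat_lit 172059) (nat_lit 1) (.e (nat_lit 164399) (nat_lit 256) (.e (nat_lit 57447) (nat_lit 19) (.e (nat_lit 393234) (nat_lit 17) (.e (nat_lit 7583) (nat_lit 405) .nil))))))) (.g (nat_lit 1) (.e (nat_lit 254352) (nat_lit 0) .nil) .nil))))) (.nd (nat_lit 8) (.nd (nat_lit 9) 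
(.lf (nat_lit 533644) (.g (nat_lit 1721) (.e (nat_lit 57410) (nat_lit 12) (.e (nat_lit 336454) (nat_lit 34) (.e (nat_lit 483385) (nat_lit 23) (.e (nat_lit 336306) (nat_lit 15) .nil)))) (.g (nat_lit 0) (.e (nat_lit 253170) (nat_lit 0) .nil) .nil))) 
(.lf (nat_lit 534156) (.g (nat_lit 4156) (.e (nat_lit 57464) (nat_lit 23) (.e (nat_lit 516166) (nat_lit 12) (.e (nat_lit 450588) (nat_lit 10) (.e (nat_lit 573473) (nat_lit 12) (.e (nat_lit 57350) (nat_lit 0) .nil))))) (.g (nat_lit 0) (.e (nat_lit 254068) (nat_lit 0) .nil) .nil)))) (.nd (nat_lit 9) 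
(.lf (nat_lit 533900) (.g (nat_lit 2447) (.e (nat_lit 57431) (nat_lit 16) (.e (nat_lit 368676) (nat_lit 21) (.e (nat_lit 516165) (nat_lit 12) (.e (nat_lit 450586) (nat_lit 10) (.e (nat_lit 573477) (nat_lit 12) .nil))))) (.g (nat_lit 0) (.e (nat_lit 253572) (nat_lit 0) .nil) .nil))) 
(.lf (nat_lit 534412) (.g (nat_lit 2770) (.e (nat_lit 57478) (nat_lit 28) (.e (nat_lit 557101) (nat_lit 13) (.e (nat_lit 172097) (nat_lit 9) (.e (nat_lit 426125) (nat_lit 2) (.e (nat_lit 196666) (nat_lit 13) (.e (nat_lit 65639) (nat_lit 15) (.e (nat_lit 3714) (nat_lit 227) (.e (nat_lit 786176) (nat_lit 3) .nil)))))))) (.g (nat_lit 1) (.e (nat_lit 254564) (nat_lit 0) .nil) .nil)))))) 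
(.nd (nat_lit 7) (.nd (nat_lit 8) (.nd (nat_lit 9) 
(.lf (nat_lit 533580) (.g (nat_lit 2812) (.e (nat_lit 57409) (nat_lit 12) (.e (nat_lit 336182) (nat_lit 11) (.e (nat_lit 368698) (nat_lit 43) (.e (nat_lit 770072) (nat_lit 8) (.e (nat_lit 65619) (nat_lit 10) (.e (nat_lit 344090) (nat_lit 18) (.e (nat_lit 7266) (nat_lit 384) .nil))))))) (.g (nat_lit 1) (.e (nat_lit 253066) (nat_lit 0) .nil) .nil))) 
(.lf (nat_lit 534092) (.g (nat_lit 2610) (.e (nat_lit 57464) (nat_lit 23) (.e (nat_lit 516165) (nat_lit 12) (.e (nat_lit 450586) (nat_lit 10) (.e (nat_lit 573470) (nat_lit 11) (.e (nat_lit 16387) (nat_lit 0) (.e (nat_lit 7581) (nat_lit 405) .nil)))))) (.g (nat_lit 1) (.e (nat_lit 253998) (nat_lit 0) .nil) .nil)))) (.nd (nat_lit 9) 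
(.lf (nat_lit 533836) (.g (nat_lit 2372) (.e (nat_lit 57419) (nat_lit 12) (.e (nat_lit 336194) (nat_lit 12) (.e (nat_lit 385106) (nat_lit 50) (.e (nat_lit 786481) (nat_lit 30) (.e (nat_lit 360457) (nat_lit 0) (.e (nat_lit 5948) (nat_lit 322) .nil)))))) (.g (nat_lit 1) (.e (nat_lit 253460) (nat_lit 0) .nil) .nil))) 
(.lf (nat_lit 534348) (.g (nat_lit 3879) (.e (nat_lit 57476) (nat_lit 28) (.e (nat_lit 557108) (nat_lit 15) (.e (nat_lit 188452) (nat_lit 23) (.e (nat_lit 204852) (nat_lit 26) (.e (nat_lit 336262) (nat_lit 15) (.e (nat_lit 3629) (nat_lit 227) (.e (nat_lit 778318) (nat_lit 3) .nil))))))) (.g (nat_lit 1) (.e (nat_lit 254416) (nat_lit 0) .nil) .nil))))) (.nd (nat_lit 8) (.nd (nat_lit 9) 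
(.lf (nat_lit 533708) (.g (nat_lit 4605) (.e (nat_lit 57412) (nat_lit 12) (.e (nat_lit 336001) (nat_lit 2) (.e (nat_lit 90170) (nat_lit 13) (.e (nat_lit 172113) (nat_lit 10) (.e (nat_lit 434242) (nat_lit 28) (.e (nat_lit 573474) (nat_lit 12) (.e (nat_lit 57348) (nat_lit 0) (.e (nat_lit 7265) (nat_lit 384) .nil)))))))) (.g (nat_lit 1) (.e (nat_lit 253298) (nat_lit 0) .nil) .nil))) 
(.lf (nat_lit 534220) (.g (nat_lit 2050) (.e (nat_lit 57466) (nat_lit 23) (.e (nat_lit 516129) (nat_lit 3) (.e (nat_lit 221210) (nat_lit 22) (.e (nat_lit 196670) (nat_lit 14) (.e (nat_lit 73746) (nat_lit 3) .nil))))) (.g (nat_lit 0) (.e (nat_lit 254138) (nat_lit 0) .nil) .nil)))) (.nd (nat_lit 9) 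
(.lf (nat_lit 533964) (.g (nat_lit 2603) (.e (nat_lit 57449) (nat_lit 20) (.e (nat_lit 401454) (nat_lit 12) (.e (nat_lit 475209) (nat_lit 41) (.e (nat_lit 712755) (nat_lit 30) (.e (nat_lit 450560) (nat_lit 0) (.e (nat_lit 5937) (nat_lit 322) .nil)))))) (.g (nat_lit 1) (.e (nat_lit 253688) (nat_lit 0) .nil) .nil))) 
(.lf (nat_lit 534476) (.g (nat_lit 3070) (.e (nat_lit 57479) (nat_lit 28) (.e (nat_lit 557101) (nat_lit 13) (.e (nat_lit 172115) (nat_lit 10) (.e (nat_lit 434231) (nat_lit 23) (.e (nat_lit 532535) (nat_lit 9) (.e (nat_lit 336290) (nat_lit 15) (.e (nat_lit 3711) (nat_lit 227) (.e (nat_lit 786176) (nat_lit 3) .nil)))))))) (.g (nat_lit 1) (.e (nat_lit 254690) (nat_lit 0) .nil) .nil))))))) 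
(.nd (nat_lit 6) (.nd (nat_lit 7) (.nd (nat_lit 8) (.nd (nat_lit 9) 
(.lf (nat_lit 533548) (.g (nat_lit 404) (.e (nat_lit 57407) (nat_lit 12) (.e (nat_lit 336456) (nat_lit 34) (.e (nat_lit 483389) (nat_lit 23) .nil))) (.g (nat_lit 0) (.e (nat_lit 253033) (nat_lit 0) .nil) .nil))) 
(.lf (nat_lit 534060) (.g (nat_lit 2896) (.e (nat_lit 57464) (nat_lit 23) (.e (nat_lit 516151) (nat_lit 9) (.e (nat_lit 426286) (nat_lit 10) (.e (nat_lit 434248) (nat_lit 28) (.e (nat_lit 573469) (nat_lit 11) (.e (nat_lit 16387) (nat_lit 0) (.e (nat_lit 7583) (nat_lit 405) .nil))))))) (.g (nat_lit 1) (.e (nat_lit 253953) (nat_lit 0) .nil) .nil)))) (.nd (nat_lit 9) 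
(.lf (nat_lit 533804) (.g (nat_lit 3623) (.e (nat_lit 57412) (nat_lit 12) (.e (nat_lit 336295) (nat_lit 15) (.e (nat_lit 3253) (nat_lit 197) (.e (nat_lit 532560) (nat_lit 14) (.e (nat_lit 376842) (nat_lit 11) (.e (nat_lit 426098) (nat_lit 1) (.e (nat_lit 164179) (nat_lit 154) .nil))))))) (.g (nat_lit 1) (.e (nat_lit 253409) (nat_lit 0) .nil) .nil))) 
(.lf (nat_lit 534316) (.g (nat_lit 2394) (.e (nat_lit 57476) (nat_lit 28) (.e (nat_lit 557107) (nat_lit 15) (.e (nat_lit 188447) (nat_lit 22) (.e (nat_lit 196666) (nat_lit 13) (.e (nat_lit 65639) (nat_lit 15) (.e (nat_lit 3714) (nat_lit 227) (.e (nat_lit 778316) (nat_lit 3) .nil))))))) (.g (nat_lit 1) (.e (nat_lit 254384) (nat_lit 0) .nil) .nil))))) (.nd (nat_lit 8) (.nd (nat_lit 9) 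
(.lf (nat_lit 533676) (.g (nat_lit 1657) (.e (nat_lit 57411) (nat_lit 12) (.e (nat_lit 336454) (nat_lit 34) (.e (nat_lit 483383) (nat_lit 23) (.e (nat_lit 335878) (nat_lit 0) .nil)))) (.g (nat_lit 0) (.e (nat_lit 253253) (nat_lit 0) .nil) .nil))) 
(.lf (nat_lit 534188) (.g (nat_lit 3266) (.e (nat_lit 57465) (nat_lit 23) (.e (nat_lit 516129) (nat_lit 3) (.e (nat_lit 221210) (nat_lit 22) (.e (nat_lit 196668) (nat_lit 14) (.e (nat_lit 73747) (nat_lit 3) (.e (nat_lit 516100) (nat_lit 0) (.e (nat_lit 3458) (nat_lit 216) (.e (nat_lit 688171) (nat_lit 15) .nil)))))))) (.g (nat_lit 1) (.e (nat_lit 254105) (nat_lit 0) .nil) .nil)))) 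
(.nd (nat_lit 9) 
(.lf (nat_lit 533932) (.g (nat_lit 1825) (.e (nat_lit 57437) (nat_lit 17) (.e (nat_lit 376835) (nat_lit 0) (.e (nat_lit 3748) (nat_lit 228) (.e (nat_lit 786483) (nat_lit 30) (.e (nat_lit 360450) (nat_lit 0) (.e (nat_lit 7936) (nat_lit 322) .nil)))))) (.g (nat_lit 1) (.e (nat_lit 253630) (nat_lit 0) .nil) .nil))) 
(.lf (nat_lit 534444) (.g (nat_lit 3095) (.e (nat_lit 57479) (nat_lit 28) (.e (nat_lit 557100) (nat_lit 13) (.e (nat_lit 172106) (nat_lit 10) (.e (nat_lit 434231) (nat_lit 23) (.e (nat_lit 532529) (nat_lit 9) (.e (nat_lit 336296) (nat_lit 15) (.e (nat_lit 3714) (nat_lit 227) (.e (nat_lit 786176) (nat_lit 3) .nil)))))))) (.g (nat_lit 1) (.e (nat_lit 254658) (nat_lit 0) .nil) .nil)))))) 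
(.nd (nat_lit 7) (.nd (nat_lit 8) (.nd (nat_lit 9) 
(.lf (nat_lit 533612) (.g (nat_lit 2494) (.e (nat_lit 57409) (nat_lit 12) (.e (nat_lit 336443) (nat_lit 32) (.e (nat_lit 466977) (nat_lit 22) (.e (nat_lit 196656) (nat_lit 11) (.e (nat_lit 16392) (nat_lit 0) (.e (nat_lit 2507) (nat_lit 157) (.e (nat_lit 5944) (nat_lit 322) .nil))))))) (.g (nat_lit 1) (.e (nat_lit 253116) (nat_lit 0) .nil) .nil))) 
(.lf (nat_lit 534124) (.g (nat_lit 1710) (.e (nat_lit 57464) (nat_lit 23) (.e (nat_lit 516166) (nat_lit 12) (.e (nat_lit 450587) (nat_lit 10) (.e (nat_lit 573457) (nat_lit 9) (.e (nat_lit 7936) (nat_lit 36) (.e (nat_lit 466688) (nat_lit 3) .nil)))))) (.g (nat_lit 1) (.e (nat_lit 254036) (nat_lit 0) .nil) .nil)))) (.nd (nat_lit 9) 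
(.lf (nat_lit 533868) (.g (nat_lit 2696) (.e (nat_lit 57430) (nat_lit 16) (.e (nat_lit 368676) (nat_lit 21) (.e (nat_lit 516165) (nat_lit 12) (.e (nat_lit 450586) (nat_lit 10) (.e (nat_lit 573473) (nat_lit 12) (.e (nat_lit 57347) (nat_lit 0) (.e (nat_lit 7261) (nat_lit 384) .nil))))))) (.g (nat_lit 1) (.e (nat_lit 253538) (nat_lit 0) .nil) .nil))) 
(.lf (nat_lit 534380) (.g (nat_lit 2606) (.e (nat_lit 57477) (nat_lit 28) (.e (nat_lit 557104) (nat_lit 14) (.e (nat_lit 180252) (nat_lit 10) (.e (nat_lit 573481) (nat_lit 13) (.e (nat_lit 65571) (nat_lit 3) (.e (nat_lit 98321) (nat_lit 17) (.e (nat_lit 7936) (nat_lit 216) (.e (nat_lit 688166) (nat_lit 15) .nil)))))))) (.g (nat_lit 1) (.e (nat_lit 254494) (nat_lit 0) .nil) .nil))))) 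
(.nd (nat_lit 8) (.nd (nat_lit 9) 
(.lf (nat_lit 533740) (.g (nat_lit 2406) (.e (nat_lit 57412) (nat_lit 12) (.e (nat_lit 336008) (nat_lit 2) (.e (nat_lit 90170) (nat_lit 13) (.e (nat_lit 172113) (nat_lit 10) (.e (nat_lit 434245) (nat_lit 28) (.e (nat_lit 573473) (nat_lit 12) (.e (nat_lit 57352) (nat_lit 0) (.e (nat_lit 7263) (nat_lit 384) .nil)))))))) (.g (nat_lit 1) (.e (nat_lit 253330) (nat_lit 0) .nil) .nil))) 
(.lf (nat_lit 534252) (.g (nat_lit 1321) (.e (nat_lit 57474) (nat_lit 28) (.e (nat_lit 557107) (nat_lit 15) (.e (nat_lit 188450) (nat_lit 23) (.e (nat_lit 204863) (nat_lit 27) .nil)))) (.g (nat_lit 0) (.e (nat_lit 254200) (nat_lit 0) .nil) .nil)))) (.nd (nat_lit 9) 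
(.lf (nat_lit 533996) (.g (nat_lit 2717) (.e (nat_lit 57464) (nat_lit 23) (.e (nat_lit 516115) (nat_lit 1) (.e (nat_lit 164398) (nat_lit 256) (.e (nat_lit 57372) (nat_lit 2) (.e (nat_lit 90174) (nat_lit 14) .nil))))) (.g (nat_lit 0) (.e (nat_lit 253856) (nat_lit 0) .nil) .nil))) 
(.lf (nat_lit 534508) (.g (nat_lit 4595) (.e (nat_lit 57479) (nat_lit 28) (.e (nat_lit 557105) (nat_lit 14) (.e (nat_lit 180252) (nat_lit 10) (.e (nat_lit 573482) (nat_lit 13) (.e (nat_lit 65571) (nat_lit 3) (.e (nat_lit 98321) (nat_lit 17) (.e (nat_lit 7936) (nat_lit 216) (.e (nat_lit 688165) (nat_lit 15) .nil)))))))) (.g (nat_lit 1) (.e (nat_lit 254722) (nat_lit 0) .nil) .nil)))))))) 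
(.nd (nat_lit 5) (.nd (nat_lit 6) (.nd (nat_lit 7) (.nd (nat_lit 8) (.nd (nat_lit 9) 
(.lf (nat_lit 533532) (.g (nat_lit 3302) (.e (nat_lit 57407) (nat_lit 12) (.e (nat_lit 336454) (nat_lit 34) (.e (nat_lit 483384) (nat_lit 23) (.e (nat_lit 336324) (nat_lit 18) (.e (nat_lit 204831) (nat_lit 18) (.e (nat_lit 57848) (nat_lit 252) .nil)))))) (.g (nat_lit 1) (.e (nat_lit 253017) (nat_lit 0) .nil) .nil))) 
(.lf (nat_lit 534044) (.g (nat_lit 2872) (.e (nat_lit 57464) (nat_lit 23) (.e (nat_lit 516151) (nat_lit 9) (.e (nat_lit 426286) (nat_lit 10) (.e (nat_lit 434245) (nat_lit 28) (.e (nat_lit 573451) (nat_lit 9) (.e (nat_lit 7936) (nat_lit 36) (.e (nat_lit 466688) (nat_lit 3) .nil))))))) (.g (nat_lit 1) (.e (nat_lit 253937) (nat_lit 0) .nil) .nil)))) (.nd (nat_lit 9) 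
(.lf (nat_lit 533788) (.g (nat_lit 1793) (.e (nat_lit 57412) (nat_lit 12) (.e (nat_lit 336176) (nat_lit 10) (.e (nat_lit 344157) (nat_lit 36) (.e (nat_lit 638986) (nat_lit 5) (.e (nat_lit 3022) (nat_lit 187) (.e (nat_lit 458496) (nat_lit 0) (.e (nat_lit 5200) (nat_lit 294) .nil))))))) (.g (nat_lit 1) (.e (nat_lit 253379) (nat_lit 0) .nil) .nil))) 
(.lf (nat_lit 534300) (.g (nat_lit 2981) (.e (nat_lit 57476) (nat_lit 28) (.e (nat_lit 557097) (nat_lit 13) (.e (nat_lit 172115) (nat_lit 10) (.e (nat_lit 434231) (nat_lit 23) (.e (nat_lit 532529) (nat_lit 9) (.e (nat_lit 336262) (nat_lit 15) (.e (nat_lit 3631) (nat_lit 227) (.e (nat_lit 778318) (nat_lit 3) .nil)))))))) (.g (nat_lit 1) (.e (nat_lit 254368) (nat_lit 0) .nil) .nil))))) 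
(.nd (nat_lit 8) (.nd (nat_lit 9) 
(.lf (nat_lit 533660) (.g (nat_lit 1616) (.e (nat_lit 57411) (nat_lit 12) (.e (nat_lit 336208) (nat_lit 12) (.e (nat_lit 385103) (nat_lit 50) (.e (nat_lit 786483) (nat_lit 30) (.e (nat_lit 360451) (nat_lit 0) (.e (nat_lit 7936) (nat_lit 322) .nil)))))) (.g (nat_lit 1) (.e (nat_lit 253216) (nat_lit 0) .nil) .nil))) 
(.lf (nat_lit 534172) (.g (nat_lit 2505) (.e (nat_lit 57465) (nat_lit 23) (.e (nat_lit 516115) (nat_lit 1) (.e (nat_lit 164399) (nat_lit 256) (.e (nat_lit 57379) (nat_lit 3) (.e (nat_lit 98354) (nat_lit 26) .nil))))) (.g (nat_lit 0) (.e (nat_lit 254088) (nat_lit 0) .nil) .nil)))) (.nd (nat_lit 9) 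
(.lf (nat_lit 533916) (.g (nat_lit 5691) (.e (nat_lit 57431) (nat_lit 16) (.e (nat_lit 368676) (nat_lit 21) (.e (nat_lit 516166) (nat_lit 12) (.e (nat_lit 450588) (nat_lit 10) (.e (nat_lit 573475) (nat_lit 12) (.e (nat_lit 57348) (nat_lit 0) (.e (nat_lit 7261) (nat_lit 384) .nil))))))) (.g (nat_lit 1) (.e (nat_lit 253588) (nat_lit 0) .nil) .nil))) 
(.lf (nat_lit 534428) (.g (nat_lit 3101) (.e (nat_lit 57478) (nat_lit 28) (.e (nat_lit 557109) (nat_lit 15) (.e (nat_lit 188449) (nat_lit 22) (.e (nat_lit 196666) (nat_lit 13) (.e (nat_lit 65639) (nat_lit 15) (.e (nat_lit 3714) (nat_lit 227) (.e (nat_lit 786176) (nat_lit 3) .nil))))))) (.g (nat_lit 1) (.e (nat_lit 254596) (nat_lit 0) .nil) .nil)))))) 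
(.nd (nat_lit 7) (.nd (nat_lit 8) (.nd (nat_lit 9) 
(.lf (nat_lit 533596) (.g (nat_lit 2826) (.e (nat_lit 57409) (nat_lit 12) (.e (nat_lit 336326) (nat_lit 18) (.e (nat_lit 204869) (nat_lit 29) (.e (nat_lit 360457) (nat_lit 0) (.e (nat_lit 7936) (nat_lit 412) .nil))))) (.g (nat_lit 0) (.e (nat_lit 253099) (nat_lit 0) .nil) .nil))) 
(.lf (nat_lit 534108) (.g (nat_lit 2726) (.e (nat_lit 57464) (nat_lit 23) (.e (nat_lit 516165) (nat_lit 12) (.e (nat_lit 450588) (nat_lit 10) (.e (nat_lit 573469) (nat_lit 11) .nil)))) (.g (nat_lit 0) (.e (nat_lit 254014) (nat_lit 0) .nil) .nil)))) (.nd (nat_lit 9) 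
(.lf (nat_lit 533852) (.g (nat_lit 2733) (.e (nat_lit 57423) (nat_lit 14) (.e (nat_lit 352262) (nat_lit 0) (.e (nat_lit 3748) (nat_lit 228) (.e (nat_lit 786481) (nat_lit 30) (.e (nat_lit 360456) (nat_lit 0) (.e (nat_lit 5949) (nat_lit 322) .nil)))))) (.g (nat_lit 1) (.e (nat_lit 253505) (nat_lit 0) .nil) .nil))) 
(.lf (nat_lit 534364) (.g (nat_lit 2719) (.e (nat_lit 57476) (nat_lit 28) (.e (nat_lit 557108) (nat_lit 15) (.e (nat_lit 188452) (nat_lit 23) (.e (nat_lit 204855) (nat_lit 26) (.e (nat_lit 336290) (nat_lit 15) (.e (nat_lit 3715) (nat_lit 227) (.e (nat_lit 778316) (nat_lit 3) .nil))))))) (.g (nat_lit 1) (.e (nat_lit 254432) (nat_lit 0) .nil) .nil))))) (.nd (nat_lit 8) (.nd (nat_lit 9) 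
(.lf (nat_lit 533724) (.g (nat_lit 2541) (.e (nat_lit 57412) (nat_lit 12) (.e (nat_lit 336005) (nat_lit 2) (.e (nat_lit 90170) (nat_lit 13) (.e (nat_lit 172113) (nat_lit 10) (.e (nat_lit 434245) (nat_lit 28) (.e (nat_lit 573474) (nat_lit 12) (.e (nat_lit 57347) (nat_lit 0) (.e (nat_lit 7263) (nat_lit 384) .nil)))))))) (.g (nat_lit 1) (.e (nat_lit 253314) (nat_lit 0) .nil) .nil))) 
(.lf (nat_lit 534236) (.g (nat_lit 2436) (.e (nat_lit 57467) (nat_lit 23) (.e (nat_lit 516117) (nat_lit 1) (.e (nat_lit 164399) (nat_lit 256) (.e (nat_lit 57372) (nat_lit 2) (.e (nat_lit 90174) (nat_lit 14) .nil))))) (.g (nat_lit 0) (.e (nat_lit 254165) (nat_lit 0) .nil) .nil)))) (.nd (nat_lit 9) 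
(.lf (nat_lit 533980) (.g (nat_lit 2467) (.e (nat_lit 57451) (nat_lit 20) (.e (nat_lit 401451) (nat_lit 12) (.e (nat_lit 475207) (nat_lit 41) (.e (nat_lit 712753) (nat_lit 30) (.e (nat_lit 450569) (nat_lit 0) (.e (nat_lit 5947) (nat_lit 322) .nil)))))) (.g (nat_lit 1) (.e (nat_lit 253723) (nat_lit 0) .nil) .nil))) 
(.lf (nat_lit 534492) (.g (nat_lit 3485) (.e (nat_lit 57479) (nat_lit 28) (.e (nat_lit 557105) (nat_lit 14) (.e (nat_lit 180251) (nat_lit 10) (.e (nat_lit 573487) (nat_lit 14) (.e (nat_lit 73746) (nat_lit 3) (.e (nat_lit 516100) (nat_lit 0) (.e (nat_lit 7936) (nat_lit 216) (.e (nat_lit 688165) (nat_lit 15) .nil)))))))) (.g (nat_lit 1) (.e (nat_lit 254706) (nat_lit 0) .nil) .nil))))))) 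
(.nd (nat_lit 6) (.nd (nat_lit 7) (.nd (nat_lit 8) (.nd (nat_lit 9) 
(.lf (nat_lit 533564) (.g (nat_lit 1819) (.e (nat_lit 57409) (nat_lit 12) (.e (nat_lit 336019) (nat_lit 3) (.e (nat_lit 98359) (nat_lit 26) (.e (nat_lit 426171) (nat_lit 7) .nil)))) (.g (nat_lit 0) (.e (nat_lit 253050) (nat_lit 0) .nil) .nil))) 
(.lf (nat_lit 534076) (.g (nat_lit 2048) (.e (nat_lit 57464) (nat_lit 23) (.e (nat_lit 516165) (nat_lit 12) (.e (nat_lit 450579) (nat_lit 5) (.e (nat_lit 532522) (nat_lit 7) (.e (nat_lit 319500) (nat_lit 10) .nil))))) (.g (nat_lit 0) (.e (nat_lit 253982) (nat_lit 0) .nil) .nil)))) (.nd (nat_lit 9) 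
(.lf (nat_lit 533820) (.g (nat_lit 1640) (.e (nat_lit 57419) (nat_lit 12) (.e (nat_lit 336027) (nat_lit 3) (.e (nat_lit 98372) (nat_lit 29) (.e (nat_lit 450586) (nat_lit 10) .nil)))) (.g (nat_lit 0) (.e (nat_lit 253439) (nat_lit 0) .nil) .nil))) 
(.lf (nat_lit 534332) (.g (nat_lit 2065) (.e (nat_lit 57476) (nat_lit 28) (.e (nat_lit 557107) (nat_lit 15) (.e (nat_lit 188450) (nat_lit 23) (.e (nat_lit 204855) (nat_lit 26) (.e (nat_lit 336290) (nat_lit 15) (.e (nat_lit 3714) (nat_lit 227) (.e (nat_lit 786176) (nat_lit 3) .nil))))))) (.g (nat_lit 1) (.e (nat_lit 254400) (nat_lit 0) .nil) .nil))))) (.nd (nat_lit 8) (.nd (nat_lit 9) 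
(.lf (nat_lit 533692) (.g (nat_lit 3160) (.e (nat_lit 57411) (nat_lit 12) (.e (nat_lit 336456) (nat_lit 34) (.e (nat_lit 483395) (nat_lit 24) (.e (nat_lit 344117) (nat_lit 21) (.e (nat_lit 516099) (nat_lit 0) (.e (nat_lit 2464) (nat_lit 157) (.e (nat_lit 6400) (nat_lit 339) .nil))))))) (.g (nat_lit 1) (.e (nat_lit 253282) (nat_lit 0) .nil) .nil))) 
(.lf (nat_lit 534204) (.g (nat_lit 2319) (.e (nat_lit 57466) (nat_lit 23) (.e (nat_lit 516115) (nat_lit 1) (.e (nat_lit 164399) (nat_lit 256) (.e (nat_lit 57378) (nat_lit 3) (.e (nat_lit 98366) (nat_lit 27) .nil))))) (.g (nat_lit 0) (.e (nat_lit 254122) (nat_lit 0) .nil) .nil)))) (.nd (nat_lit 9) 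
(.lf (nat_lit 533948) (.g (nat_lit 1718) (.e (nat_lit 57445) (nat_lit 19) (.e (nat_lit 393229) (nat_lit 9) (.e (nat_lit 335894) (nat_lit 0) (.e (nat_lit 6506) (nat_lit 344) .nil)))) (.g (nat_lit 0) (.e (nat_lit 253666) (nat_lit 0) .nil) .nil))) 
(.lf (nat_lit 534460) (.g (nat_lit 2605) (.e (nat_lit 57479) (nat_lit 28) (.e (nat_lit 557100) (nat_lit 13) (.e (nat_lit 172106) (nat_lit 10) (.e (nat_lit 434231) (nat_lit 23) (.e (nat_lit 532535) (nat_lit 9) (.e (nat_lit 336295) (nat_lit 15) (.e (nat_lit 3630) (nat_lit 227) (.e (nat_lit 786176) (nat_lit 3) .nil)))))))) (.g (nat_lit 1) (.e (nat_lit 254674) (nat_lit 0) .nil) .nil)))))) 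
(.nd (nat_lit 7) (.nd (nat_lit 8) (.nd (nat_lit 9) 
(.lf (nat_lit 533628) (.g (nat_lit 1792) (.e (nat_lit 57409) (nat_lit 12) (.e (nat_lit 336456) (nat_lit 34) (.e (nat_lit 483383) (nat_lit 23) (.e (nat_lit 343808) (nat_lit 18) .nil)))) (.g (nat_lit 0) (.e (nat_lit 253137) (nat_lit 0) .nil) .nil))) 
(.lf (nat_lit 534140) (.g (nat_lit 3584) (.e (nat_lit 57464) (nat_lit 23) (.e (nat_lit 516166) (nat_lit 12) (.e (nat_lit 450588) (nat_lit 10) (.e (nat_lit 573454) (nat_lit 9) (.e (nat_lit 397) (nat_lit 32) .nil))))) (.g (nat_lit 0) (.e (nat_lit 254052) (nat_lit 0) .nil) .nil)))) (.nd (nat_lit 9) 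
(.lf (nat_lit 533884) (.g (nat_lit 4526) (.e (nat_lit 57430) (nat_lit 16) (.e (nat_lit 368676) (nat_lit 21) (.e (nat_lit 516166) (nat_lit 12) (.e (nat_lit 450587) (nat_lit 10) (.e (nat_lit 573477) (nat_lit 12) (.e (nat_lit 57352) (nat_lit 0) (.e (nat_lit 7261) (nat_lit 384) .nil))))))) (.g (nat_lit 1) (.e (nat_lit 253554) (nat_lit 0) .nil) .nil))) 
(.lf (nat_lit 534396) (.g (nat_lit 1363) (.e (nat_lit 57478) (nat_lit 28) (.e (nat_lit 557090) (nat_lit 12) (.e (nat_lit 164038) (nat_lit 55) .nil))) (.g (nat_lit 0) (.e (nat_lit 254530) (nat_lit 0) .nil) .nil))))) (.nd (nat_lit 8) (.nd (nat_lit 9) 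
(.lf (nat_lit 533756) (.g (nat_lit 2663) (.e (nat_lit 57412) (nat_lit 12) (.e (nat_lit 336022) (nat_lit 3) (.e (nat_lit 98373) (nat_lit 29) (.e (nat_lit 450587) (nat_lit 10) (.e (nat_lit 573478) (nat_lit 12) .nil))))) (.g (nat_lit 0) (.e (nat_lit 253346) (nat_lit 0) .nil) .nil))) 
(.lf (nat_lit 534268) (.g (nat_lit 4553) (.e (nat_lit 57476) (nat_lit 28) (.e (nat_lit 557067) (nat_lit 9) (.e (nat_lit 3021) (nat_lit 187) (.e (nat_lit 450579) (nat_lit 5) (.e (nat_lit 532563) (nat_lit 15) (.e (nat_lit 385094) (nat_lit 49) (.e (nat_lit 778317) (nat_lit 3) .nil))))))) (.g (nat_lit 1) (.e (nat_lit 254287) (nat_lit 0) .nil) .nil)))) (.nd (nat_lit 9) 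
(.lf (nat_lit 534012) (.g (nat_lit 4274) (.e (nat_lit 57464) (nat_lit 23) (.e (nat_lit 516139) (nat_lit 7) (.e (nat_lit 409645) (nat_lit 18) (.e (nat_lit 303117) (nat_lit 2) (.e (nat_lit 196661) (nat_lit 12) (.e (nat_lit 57723) (nat_lit 180) (.e (nat_lit 229657) (nat_lit 235) .nil))))))) (.g (nat_lit 1) (.e (nat_lit 253901) (nat_lit 0) .nil) .nil))) 
(.lf (nat_lit 534524) (.g (nat_lit 3001) (.e (nat_lit 57479) (nat_lit 28) (.e (nat_lit 557105) (nat_lit 14) (.e (nat_lit 180252) (nat_lit 10) (.e (nat_lit 573489) (nat_lit 14) (.e (nat_lit 73747) (nat_lit 3) (.e (nat_lit 516097) (nat_lit 0) (.e (nat_lit 3455) (nat_lit 216) (.e (nat_lit 688167) (nat_lit 15) .nil)))))))) (.g (nat_lit 1) (.e (nat_lit 254738) (nat_lit 0) .nil) .nil))))))))))) 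
(.nd (nat_lit 2) (.nd (nat_lit 3) (.nd (nat_lit 4) (.nd (nat_lit 5) (.nd (nat_lit 6) 
(.nd (nat_lit 7) (.nd (nat_lit 8) (.nd (nat_lit 9) 
(.lf (nat_lit 533506) (.g (nat_lit 4195) (.e (nat_lit 57407) (nat_lit 12) (.e (nat_lit 336019) (nat_lit 3) (.e (nat_lit 98372) (nat_lit 29) (.e (nat_lit 450588) (nat_lit 10) (.e (nat_lit 573473) (nat_lit 12) (.e (nat_lit 57353) (nat_lit 0) (.e (nat_lit 7261) (nat_lit 384) .nil))))))) (.g (nat_lit 1) (.e (nat_lit 252974) (nat_lit 0) .nil) .nil))) 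
(.lf (nat_lit 534018) (.g (nat_lit 3939) (.e (nat_lit 57464) (nat_lit 23) (.e (nat_lit 516139) (nat_lit 7) (.e (nat_lit 409646) (nat_lit 18) (.e (nat_lit 303117) (nat_lit 2) (.e (nat_lit 196670) (nat_lit 14) (.e (nat_lit 81664) (nat_lit 43) .nil)))))) (.g (nat_lit 1) (.e (nat_lit 253907) (nat_lit 0) .nil) .nil)))) (.nd (nat_lit 9) 
(.lf (nat_lit 533762) (.g (nat_lit 5140) (.e (nat_lit 57412) (nat_lit 12) (.e (nat_lit 336022) (nat_lit 3) (.e (nat_lit 98373) (nat_lit 29) (.e (nat_lit 450588) (nat_lit 10) (.e (nat_lit 573475) (nat_lit 12) (.e (nat_lit 57347) (nat_lit 0) (.e (nat_lit 7261) (nat_lit 384) .nil))))))) (.g (nat_lit 1) (.e (nat_lit 253352) (nat_lit 0) .nil) .nil))) 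
(.lf (nat_lit 534274) (.g (nat_lit 5217) (.e (nat_lit 57476) (nat_lit 28) (.e (nat_lit 557067) (nat_lit 9) (.e (nat_lit 3022) (nat_lit 187) (.e (nat_lit 450580) (nat_lit 5) (.e (nat_lit 532566) (nat_lit 15) (.e (nat_lit 385094) (nat_lit 49) (.e (nat_lit 778317) (nat_lit 3) .nil))))))) (.g (nat_lit 1) (.e (nat_lit 254305) (nat_lit 0) .nil) .nil))))) (.nd (nat_lit 8) (.nd (nat_lit 9) 
(.lf (nat_lit 533634) (.g (nat_lit 3209) (.e (nat_lit 57409) (nat_lit 12) (.e (nat_lit 336456) (nat_lit 34) (.e (nat_lit 483395) (nat_lit 24) (.e (nat_lit 344117) (nat_lit 21) (.e (nat_lit 516099) (nat_lit 0) (.e (nat_lit 2474) (nat_lit 157) (.e (nat_lit 6401) (nat_lit 339) .nil))))))) (.g (nat_lit 1) (.e (nat_lit 253143) (nat_lit 0) .nil) .nil))) 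
(.lf (nat_lit 534146) (.g (nat_lit 2414) (.e (nat_lit 57464) (nat_lit 23) (.e (nat_lit 516166) (nat_lit 12) (.e (nat_lit 450588) (nat_lit 10) (.e (nat_lit 573457) (nat_lit 9) (.e (nat_lit 7936) (nat_lit 33) (.e (nat_lit 442112) (nat_lit 3) .nil)))))) (.g (nat_lit 1) (.e (nat_lit 254058) (nat_lit 0) .nil) .nil)))) (.nd (nat_lit 9) 
(.lf (nat_lit 533890) (.g (nat_lit 6429) (.e (nat_lit 57430) (nat_lit 16) (.e (nat_lit 368676) (nat_lit 21) (.e (nat_lit 516166) (nat_lit 12) (.e (nat_lit 450588) (nat_lit 10) (.e (nat_lit 573475) (nat_lit 12) (.e (nat_lit 57347) (nat_lit 0) (.e (nat_lit 7261) (nat_lit 384) .nil))))))) (.g (nat_lit 1) (.e (nat_lit 253560) (nat_lit 0) .nil) .nil))) 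
(.lf (nat_lit 534402) (.g (nat_lit 2789) (.e (nat_lit 57478) (nat_lit 28) (.e (nat_lit 557098) (nat_lit 13) (.e (nat_lit 172115) (nat_lit 10) (.e (nat_lit 434231) (nat_lit 23) (.e (nat_lit 532535) (nat_lit 9) (.e (nat_lit 336290) (nat_lit 15) (.e (nat_lit 3714) (nat_lit 227) (.e (nat_lit 786176) (nat_lit 3) .nil)))))))) (.g (nat_lit 1) (.e (nat_lit 254554) (nat_lit 0) .nil) .nil)))))) 
(.nd (nat_lit 7) (.nd (nat_lit 8) (.nd (nat_lit 9) 
(.lf (nat_lit 533570) (.g (nat_lit 4672) (.e (nat_lit 57409) (nat_lit 12) (.e (nat_lit 336019) (nat_lit 3) (.e (nat_lit 98373) (nat_lit 29) (.e (nat_lit 450587) (nat_lit 10) (.e (nat_lit 573473) (nat_lit 12) .nil))))) (.g (nat_lit 0) (.e (nat_lit 253056) (nat_lit 0) .nil) .nil))) 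
(.lf (nat_lit 534082) (.g (nat_lit 2168) (.e (nat_lit 57464) (nat_lit 23) (.e (nat_lit 516165) (nat_lit 12) (.e (nat_lit 450586) (nat_lit 10) (.e (nat_lit 573450) (nat_lit 9) (.e (nat_lit 473) (nat_lit 36) (.e (nat_lit 466688) (nat_lit 3) .nil)))))) (.g (nat_lit 1) (.e (nat_lit 253988) (nat_lit 0) .nil) .nil)))) (.nd (nat_lit 9) 
(.lf (nat_lit 533826) (.g (nat_lit 2534) (.e (nat_lit 57419) (nat_lit 12) (.e (nat_lit 336194) (nat_lit 12) (.e (nat_lit 385102) (nat_lit 50) (.e (nat_lit 786483) (nat_lit 30) (.e (nat_lit 360457) (nat_lit 0) (.e (nat_lit 5949) (nat_lit 322) .nil)))))) (.g (nat_lit 1) (.e (nat_lit 253450) (nat_lit 0) .nil) .nil))) 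
(.lf (nat_lit 534338) (.g (nat_lit 2532) (.e (nat_lit 57476) (nat_lit 28) (.e (nat_lit 557108) (nat_lit 15) (.e (nat_lit 188449) (nat_lit 22) (.e (nat_lit 196666) (nat_lit 13) (.e (nat_lit 65639) (nat_lit 15) (.e (nat_lit 3711) (nat_lit 227) (.e (nat_lit 786176) (nat_lit 3) .nil))))))) (.g (nat_lit 1) (.e (nat_lit 254406) (nat_lit 0) .nil) .nil))))) (.nd (nat_lit 8) (.nd (nat_lit 9) 
(.lf (nat_lit 533698) (.g (nat_lit 4251) (.e (nat_lit 57412) (nat_lit 12) (.e (nat_lit 336001) (nat_lit 2) (.e (nat_lit 90170) (nat_lit 13) (.e (nat_lit 172106) (nat_lit 10) (.e (nat_lit 434244) (nat_lit 28) (.e (nat_lit 573473) (nat_lit 12) (.e (nat_lit 57352) (nat_lit 0) (.e (nat_lit 7261) (nat_lit 384) .nil)))))))) (.g (nat_lit 1) (.e (nat_lit 253288) (nat_lit 0) .nil) .nil))) 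
(.lf (nat_lit 534210) (.g (nat_lit 2547) (.e (nat_lit 57466) (nat_lit 23) (.e (nat_lit 516117) (nat_lit 1) (.e (nat_lit 164398) (nat_lit 256) (.e (nat_lit 57378) (nat_lit 3) (.e (nat_lit 98367) (nat_lit 27) .nil))))) (.g (nat_lit 0) (.e (nat_lit 254128) (nat_lit 0) .nil) .nil)))) (.nd (nat_lit 9) 
(.lf (nat_lit 533954) (.g (nat_lit 1723) (.e (nat_lit 57446) (nat_lit 19) (.e (nat_lit 393229) (nat_lit 9) (.e (nat_lit 336088) (nat_lit 9) (.e (nat_lit 336257) (nat_lit 15) (.e (nat_lit 3252) (nat_lit 197) (.e (nat_lit 532501) (nat_lit 1) (.e (nat_lit 57851) (nat_lit 252) .nil))))))) (.g (nat_lit 1) (.e (nat_lit 253674) (nat_lit 0) .nil) .nil))) 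
(.lf (nat_lit 534466) (.g (nat_lit 3274) (.e (nat_lit 57479) (nat_lit 28) (.e (nat_lit 557101) (nat_lit 13) (.e (nat_lit 172097) (nat_lit 9) (.e (nat_lit 426125) (nat_lit 2) (.e (nat_lit 196666) (nat_lit 13) (.e (nat_lit 65639) (nat_lit 15) (.e (nat_lit 3714) (nat_lit 227) (.e (nat_lit 786176) (nat_lit 3) .nil)))))))) (.g (nat_lit 1) (.e (nat_lit 254680) (nat_lit 0) .nil) .nil))))))) 
(.nd (nat_lit 6) (.nd (nat_lit 7) (.nd (nat_lit 8) (.nd (nat_lit 9) 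
(.lf (nat_lit 533538) (.g (nat_lit 3732) (.e (nat_lit 57407) (nat_lit 12) (.e (nat_lit 336456) (nat_lit 34) (.e (nat_lit 483379) (nat_lit 23) (.e (nat_lit 336324) (nat_lit 18) (.e (nat_lit 204831) (nat_lit 18) (.e (nat_lit 57849) (nat_lit 252) .nil)))))) (.g (nat_lit 1) (.e (nat_lit 253023) (nat_lit 0) .nil) .nil))) 
(.lf (nat_lit 534050) (.g (nat_lit 2337) (.e (nat_lit 57464) (nat_lit 23) (.e (nat_lit 516151) (nat_lit 9) (.e (nat_lit 426286) (nat_lit 10) (.e (nat_lit 434247) (nat_lit 28) (.e (nat_lit 573456) (nat_lit 9) (.e (nat_lit 7936) (nat_lit 36) (.e (nat_lit 466688) (nat_lit 3) .nil))))))) (.g (nat_lit 1) (.e (nat_lit 253943) (nat_lit 0) .nil) .nil)))) (.nd (nat_lit 9) 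
(.lf (nat_lit 533794) (.g (nat_lit 3010) (.e (nat_lit 57412) (nat_lit 12) (.e (nat_lit 336226) (nat_lit 14) (.e (nat_lit 401437) (nat_lit 9) (.e (nat_lit 426544) (nat_lit 30) (.e (nat_lit 360455) (nat_lit 0) (.e (nat_lit 5944) (nat_lit 322) .nil)))))) (.g (nat_lit 1) (.e (nat_lit 253399) (nat_lit 0) .nil) .nil))) 
(.lf (nat_lit 534306) (.g (nat_lit 3284) (.e (nat_lit 57476) (nat_lit 28) (.e (nat_lit 557097) (nat_lit 13) (.e (nat_lit 172115) (nat_lit 10) (.e (nat_lit 434231) (nat_lit 23) (.e (nat_lit 532535) (nat_lit 9) (.e (nat_lit 336290) (nat_lit 15) (.e (nat_lit 3714) (nat_lit 227) (.e (nat_lit 778316) (nat_lit 3) .nil)))))))) (.g (nat_lit 1) (.e (nat_lit 254374) (nat_lit 0) .nil) .nil))))) 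
(.nd (nat_lit 8) (.nd (nat_lit 9) 
(.lf (nat_lit 533666) (.g (nat_lit 1458) (.e (nat_lit 57411) (nat_lit 12) (.e (nat_lit 336324) (nat_lit 18) (.e (nat_lit 204854) (nat_lit 26) (.e (nat_lit 343808) (nat_lit 13) .nil)))) (.g (nat_lit 0) (.e (nat_lit 253229) (nat_lit 0) .nil) .nil))) 
(.lf (nat_lit 534178) (.g (nat_lit 2436) (.e (nat_lit 57465) (nat_lit 23) (.e (nat_lit 516117) (nat_lit 1) (.e (nat_lit 164399) (nat_lit 256) (.e (nat_lit 57372) (nat_lit 2) (.e (nat_lit 90174) (nat_lit 14) .nil))))) (.g (nat_lit 0) (.e (nat_lit 254094) (nat_lit 0) .nil) .nil)))) (.nd (nat_lit 9) 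
(.lf (nat_lit 533922) (.g (nat_lit 1741) (.e (nat_lit 57435) (nat_lit 17) (.e (nat_lit 376835) (nat_lit 0) (.e (nat_lit 3746) (nat_lit 228) (.e (nat_lit 786483) (nat_lit 30) (.e (nat_lit 368384) (nat_lit 0) (.e (nat_lit 5953) (nat_lit 322) .nil)))))) (.g (nat_lit 1) (.e (nat_lit 253605) (nat_lit 0) .nil) .nil))) 
(.lf (nat_lit 534434) (.g (nat_lit 3668) (.e (nat_lit 57478) (nat_lit 28) (.e (nat_lit 557109) (nat_lit 15) (.e (nat_lit 188452) (nat_lit 23) (.e (nat_lit 204879) (nat_lit 32) .nil)))) (.g (nat_lit 0) (.e (nat_lit 254602) (nat_lit 0) .nil) .nil)))))) (.nd (nat_lit 7) (.nd (nat_lit 8) (.nd (nat_lit 9) 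
(.lf (nat_lit 533602) (.g (nat_lit 1977) (.e (nat_lit 57409) (nat_lit 12) (.e (nat_lit 336433) (nat_lit 30) (.e (nat_lit 450588) (nat_lit 10) (.e (nat_lit 573503) (nat_lit 18) (.e (nat_lit 1384) (nat_lit 105) .nil))))) (.g (nat_lit 0) (.e (nat_lit 253106) (nat_lit 0) .nil) .nil))) 
(.lf (nat_lit 534114) (.g (nat_lit 2250) (.e (nat_lit 57464) (nat_lit 23) (.e (nat_lit 516166) (nat_lit 12) (.e (nat_lit 450562) (nat_lit 0) (.e (nat_lit 4290) (nat_lit 254) (.e (nat_lit 122994) (nat_lit 74) (.e (nat_lit 442112) (nat_lit 3) .nil)))))) (.g (nat_lit 1) (.e (nat_lit 254022) (nat_lit 0) .nil) .nil)))) (.nd (nat_lit 9) 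
(.lf (nat_lit 533858) (.g (nat_lit 2912) (.e (nat_lit 57424) (nat_lit 14) (.e (nat_lit 352262) (nat_lit 0) (.e (nat_lit 3748) (nat_lit 228) (.e (nat_lit 786481) (nat_lit 30) (.e (nat_lit 360457) (nat_lit 0) (.e (nat_lit 5949) (nat_lit 322) .nil)))))) (.g (nat_lit 1) (.e (nat_lit 253512) (nat_lit 0) .nil) .nil))) 
(.lf (nat_lit 534370) (.g (nat_lit 1110) (.e (nat_lit 57477) (nat_lit 28) (.e (nat_lit 557067) (nat_lit 9) (.e (nat_lit 3022) (nat_lit 187) (.e (nat_lit 450580) (nat_lit 5) .nil)))) (.g (nat_lit 0) (.e (nat_lit 254447) (nat_lit 0) .nil) .nil))))) (.nd (nat_lit 8) (.nd (nat_lit 9) 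
(.lf (nat_lit 533730) (.g (nat_lit 3272) (.e (nat_lit 57412) (nat_lit 12) (.e (nat_lit 336005) (nat_lit 2) (.e (nat_lit 90170) (nat_lit 13) (.e (nat_lit 172113) (nat_lit 10) (.e (nat_lit 434248) (nat_lit 28) (.e (nat_lit 573475) (nat_lit 12) (.e (nat_lit 57347) (nat_lit 0) (.e (nat_lit 7265) (nat_lit 384) .nil)))))))) (.g (nat_lit 1) (.e (nat_lit 253320) (nat_lit 0) .nil) .nil))) 
(.lf (nat_lit 534242) (.g (nat_lit 1359) (.e (nat_lit 57474) (nat_lit 28) (.e (nat_lit 557095) (nat_lit 13) (.e (nat_lit 172115) (nat_lit 10) (.e (nat_lit 434231) (nat_lit 23) (.e (nat_lit 532535) (nat_lit 9) .nil))))) (.g (nat_lit 0) (.e (nat_lit 254190) (nat_lit 0) .nil) .nil)))) (.nd (nat_lit 9) 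
(.lf (nat_lit 533986) (.g (nat_lit 3392) (.e (nat_lit 57463) (nat_lit 23) (.e (nat_lit 516151) (nat_lit 9) (.e (nat_lit 426211) (nat_lit 9) (.e (nat_lit 426140) (nat_lit 3) (.e (nat_lit 204845) (nat_lit 24) .nil))))) (.g (nat_lit 0) (.e (nat_lit 253840) (nat_lit 0) .nil) .nil))) 
(.lf (nat_lit 534498) (.g (nat_lit 3938) (.e (nat_lit 57479) (nat_lit 28) (.e (nat_lit 557105) (nat_lit 14) (.e (nat_lit 180252) (nat_lit 10) (.e (nat_lit 573481) (nat_lit 13) (.e (nat_lit 65571) (nat_lit 3) (.e (nat_lit 98321) (nat_lit 17) (.e (nat_lit 7936) (nat_lit 216) (.e (nat_lit 688165) (nat_lit 15) .nil)))))))) (.g (nat_lit 1) (.e (nat_lit 254712) (nat_lit 0) .nil) .nil)))))))) 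
(.nd (nat_lit 5) (.nd (nat_lit 6) (.nd (nat_lit 7) (.nd (nat_lit 8) (.nd (nat_lit 9) 
(.lf (nat_lit 533522) (.g (nat_lit 2222) (.e (nat_lit 57407) (nat_lit 12) (.e (nat_lit 336316) (nat_lit 17) (.e (nat_lit 196666) (nat_lit 13) (.e (nat_lit 65617) (nat_lit 10) (.e (nat_lit 344088) (nat_lit 18) (.e (nat_lit 7697) (nat_lit 412) (.e (nat_lit 57366) (nat_lit 1) (.e (nat_lit 57847) (nat_lit 252) .nil)))))))) (.g (nat_lit 1) (.e (nat_lit 252993) (nat_lit 0) .nil) .nil))) 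
(.lf (nat_lit 534034) (.g (nat_lit 1975) (.e (nat_lit 57464) (nat_lit 23) (.e (nat_lit 516151) (nat_lit 9) (.e (nat_lit 426170) (nat_lit 7) (.e (nat_lit 409631) (nat_lit 12) (.e (nat_lit 40704) (nat_lit 19) (.e (nat_lit 188160) (nat_lit 35) .nil)))))) (.g (nat_lit 1) (.e (nat_lit 253925) (nat_lit 0) .nil) .nil)))) (.nd (nat_lit 9) 
(.lf (nat_lit 533778) (.g (nat_lit 818) (.e (nat_lit 57412) (nat_lit 12) (.e (nat_lit 336176) (nat_lit 10) (.e (nat_lit 344156) (nat_lit 36) (.e (nat_lit 638985) (nat_lit 5) .nil)))) (.g (nat_lit 0) (.e (nat_lit 253369) (nat_lit 0) .nil) .nil))) 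
(.lf (nat_lit 534290) (.g (nat_lit 4214) (.e (nat_lit 57476) (nat_lit 28) (.e (nat_lit 557097) (nat_lit 13) (.e (nat_lit 172097) (nat_lit 9) (.e (nat_lit 426125) (nat_lit 2) (.e (nat_lit 196666) (nat_lit 13) (.e (nat_lit 65640) (nat_lit 15) (.e (nat_lit 3631) (nat_lit 227) (.e (nat_lit 778318) (nat_lit 3) .nil)))))))) (.g (nat_lit 1) (.e (nat_lit 254358) (nat_lit 0) .nil) .nil))))) 
(.nd (nat_lit 8) (.nd (nat_lit 9) 
(.lf (nat_lit 533650) (.g (nat_lit 5216) (.e (nat_lit 57411) (nat_lit 12) (.e (nat_lit 336019) (nat_lit 3) (.e (nat_lit 98373) (nat_lit 29) (.e (nat_lit 450588) (nat_lit 10) (.e (nat_lit 573473) (nat_lit 12) (.e (nat_lit 57347) (nat_lit 0) (.e (nat_lit 7261) (nat_lit 384) .nil))))))) (.g (nat_lit 1) (.e (nat_lit 253201) (nat_lit 0) .nil) .nil))) 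
(.lf (nat_lit 534162) (.g (nat_lit 3439) (.e (nat_lit 57465) (nat_lit 23) (.e (nat_lit 516115) (nat_lit 1) (.e (nat_lit 164325) (nat_lit 230) (.e (nat_lit 163873) (nat_lit 3) (.e (nat_lit 204809) (nat_lit 9) (.e (nat_lit 426139) (nat_lit 3) (.e (nat_lit 204821) (nat_lit 17) (.e (nat_lit 2155) (nat_lit 142) (.e (nat_lit 704754) (nat_lit 12) .nil))))))))) (.g (nat_lit 1) (.e (nat_lit 254077) (nat_lit 0) .nil) .nil)))) 
(.nd (nat_lit 9) 
(.lf (nat_lit 533906) (.g (nat_lit 4821) (.e (nat_lit 57431) (nat_lit 16) (.e (nat_lit 368676) (nat_lit 21) (.e (nat_lit 516165) (nat_lit 12) (.e (nat_lit 450588) (nat_lit 10) (.e (nat_lit 573475) (nat_lit 12) (.e (nat_lit 57347) (nat_lit 0) (.e (nat_lit 7265) (nat_lit 384) .nil))))))) (.g (nat_lit 1) (.e (nat_lit 253578) (nat_lit 0) .nil) .nil))) 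
(.lf (nat_lit 534418) (.g (nat_lit 2551) (.e (nat_lit 57478) (nat_lit 28) (.e (nat_lit 557105) (nat_lit 14) (.e (nat_lit 180252) (nat_lit 10) (.e (nat_lit 573488) (nat_lit 14) (.e (nat_lit 73747) (nat_lit 3) (.e (nat_lit 516097) (nat_lit 0) (.e (nat_lit 3454) (nat_lit 216) (.e (nat_lit 688167) (nat_lit 15) .nil)))))))) (.g (nat_lit 1) (.e (nat_lit 254571) (nat_lit 0) .nil) .nil)))))) 
(.nd (nat_lit 7) (.nd (nat_lit 8) (.nd (nat_lit 9) 
(.lf (nat_lit 533586) (.g (nat_lit 1255) (.e (nat_lit 57409) (nat_lit 12) (.e (nat_lit 336325) (nat_lit 18) (.e (nat_lit 204855) (nat_lit 26) (.e (nat_lit 336217) (nat_lit 13) .nil)))) (.g (nat_lit 0) (.e (nat_lit 253087) (nat_lit 0) .nil) .nil))) 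
(.lf (nat_lit 534098) (.g (nat_lit 4199) (.e (nat_lit 57464) (nat_lit 23) (.e (nat_lit 516165) (nat_lit 12) (.e (nat_lit 450588) (nat_lit 10) (.e (nat_lit 573451) (nat_lit 9) (.e (nat_lit 359) (nat_lit 30) .nil))))) (.g (nat_lit 0) (.e (nat_lit 254004) (nat_lit 0) .nil) .nil)))) (.nd (nat_lit 9) 
(.lf (nat_lit 533842) (.g (nat_lit 2352) (.e (nat_lit 57419) (nat_lit 12) (.e (nat_lit 336203) (nat_lit 12) (.e (nat_lit 385102) (nat_lit 50) (.e (nat_lit 786483) (nat_lit 30) (.e (nat_lit 360456) (nat_lit 0) (.e (nat_lit 5949) (nat_lit 322) .nil)))))) (.g (nat_lit 1) (.e (nat_lit 253466) (nat_lit 0) .nil) .nil))) 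
(.lf (nat_lit 534354) (.g (nat_lit 3585) (.e (nat_lit 57476) (nat_lit 28) (.e (nat_lit 557108) (nat_lit 15) (.e (nat_lit 188452) (nat_lit 23) (.e (nat_lit 204852) (nat_lit 26) (.e (nat_lit 336303) (nat_lit 15) (.e (nat_lit 3621) (nat_lit 227) (.e (nat_lit 778318) (nat_lit 3) .nil))))))) (.g (nat_lit 1) (.e (nat_lit 254422) (nat_lit 0) .nil) .nil))))) (.nd (nat_lit 8) (.nd (nat_lit 9) 
(.lf (nat_lit 533714) (.g (nat_lit 2794) (.e (nat_lit 57412) (nat_lit 12) (.e (nat_lit 336001) (nat_lit 2) (.e (nat_lit 90170) (nat_lit 13) (.e (nat_lit 172113) (nat_lit 10) (.e (nat_lit 434247) (nat_lit 28) (.e (nat_lit 573477) (nat_lit 12) (.e (nat_lit 57353) (nat_lit 0) (.e (nat_lit 7263) (nat_lit 384) .nil)))))))) (.g (nat_lit 1) (.e (nat_lit 253304) (nat_lit 0) .nil) .nil))) 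
(.lf (nat_lit 534226) (.g (nat_lit 3684) (.e (nat_lit 57466) (nat_lit 23) (.e (nat_lit 516151) (nat_lit 9) (.e (nat_lit 426211) (nat_lit 9) (.e (nat_lit 426140) (nat_lit 3) (.e (nat_lit 204846) (nat_lit 24) .nil))))) (.g (nat_lit 0) (.e (nat_lit 254144) (nat_lit 0) .nil) .nil)))) (.nd (nat_lit 9) 
(.lf (nat_lit 533970) (.g (nat_lit 3124) (.e (nat_lit 57449) (nat_lit 20) (.e (nat_lit 401454) (nat_lit 12) (.e (nat_lit 475210) (nat_lit 41) (.e (nat_lit 712755) (nat_lit 30) (.e (nat_lit 450569) (nat_lit 0) (.e (nat_lit 5949) (nat_lit 322) .nil)))))) (.g (nat_lit 1) (.e (nat_lit 253694) (nat_lit 0) .nil) .nil))) 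
(.lf (nat_lit 534482) (.g (nat_lit 4283) (.e (nat_lit 57479) (nat_lit 28) (.e (nat_lit 557105) (nat_lit 14) (.e (nat_lit 180251) (nat_lit 10) (.e (nat_lit 573484) (nat_lit 13) (.e (nat_lit 65569) (nat_lit 3) (.e (nat_lit 98321) (nat_lit 17) (.e (nat_lit 7936) (nat_lit 216) (.e (nat_lit 688165) (nat_lit 15) .nil)))))))) (.g (nat_lit 1) (.e (nat_lit 254696) (nat_lit 0) .nil) .nil))))))) 
(.nd (nat_lit 6) (.nd (nat_lit 7) (.nd (nat_lit 8) (.nd (nat_lit 9) 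
(.lf (nat_lit 533554) (.g (nat_lit 1832) (.e (nat_lit 57407) (nat_lit 12) (.e (nat_lit 336456) (nat_lit 34) (.e (nat_lit 483407) (nat_lit 26) (.e (nat_lit 385066) (nat_lit 26) (.e (nat_lit 532502) (nat_lit 1) .nil))))) (.g (nat_lit 0) (.e (nat_lit 253039) (nat_lit 0) .nil) .nil))) 
(.lf (nat_lit 534066) (.g (nat_lit 1310) (.e (nat_lit 57464) (nat_lit 23) (.e (nat_lit 516160) (nat_lit 10) (.e (nat_lit 434193) (nat_lit 13) (.e (nat_lit 2570) (nat_lit 160) (.e (nat_lit 32808) (nat_lit 19) (.e (nat_lit 188160) (nat_lit 35) .nil)))))) (.g (nat_lit 1) (.e (nat_lit 253968) (nat_lit 0) .nil) .nil)))) (.nd (nat_lit 9) 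
(.lf (nat_lit 533810) (.g (nat_lit 2827) (.e (nat_lit 57414) (nat_lit 12) (.e (nat_lit 336028) (nat_lit 3) (.e (nat_lit 98373) (nat_lit 29) (.e (nat_lit 450588) (nat_lit 10) (.e (nat_lit 573475) (nat_lit 12) .nil))))) (.g (nat_lit 0) (.e (nat_lit 253424) (nat_lit 0) .nil) .nil))) 
(.lf (nat_lit 534322) (.g (nat_lit 3066) (.e (nat_lit 57476) (nat_lit 28) (.e (nat_lit 557107) (nat_lit 15) (.e (nat_lit 188450) (nat_lit 23) (.e (nat_lit 204852) (nat_lit 26) (.e (nat_lit 336262) (nat_lit 15) (.e (nat_lit 3629) (nat_lit 227) (.e (nat_lit 778318) (nat_lit 3) .nil))))))) (.g (nat_lit 1) (.e (nat_lit 254390) (nat_lit 0) .nil) .nil))))) (.nd (nat_lit 8) (.nd (nat_lit 9) 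
(.lf (nat_lit 533682) (.g (nat_lit 453) (.e (nat_lit 57411) (nat_lit 12) (.e (nat_lit 336456) (nat_lit 34) (.e (nat_lit 483378) (nat_lit 23) .nil))) (.g (nat_lit 0) (.e (nat_lit 253272) (nat_lit 0) .nil) .nil))) 
(.lf (nat_lit 534194) (.g (nat_lit 5149) (.e (nat_lit 57465) (nat_lit 23) (.e (nat_lit 516166) (nat_lit 12) (.e (nat_lit 450588) (nat_lit 10) (.e (nat_lit 573470) (nat_lit 11) .nil)))) (.g (nat_lit 0) (.e (nat_lit 254112) (nat_lit 0) .nil) .nil)))) (.nd (nat_lit 9) 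
(.lf (nat_lit 533938) (.g (nat_lit 1602) (.e (nat_lit 57440) (nat_lit 18) (.e (nat_lit 385068) (nat_lit 26) (.e (nat_lit 532530) (nat_lit 9) (.e (nat_lit 336211) (nat_lit 13) .nil)))) (.g (nat_lit 0) (.e (nat_lit 253645) (nat_lit 0) .nil) .nil))) 
(.lf (nat_lit 534450) (.g (nat_lit 2380) (.e (nat_lit 57479) (nat_lit 28) (.e (nat_lit 557100) (nat_lit 13) (.e (nat_lit 172106) (nat_lit 10) (.e (nat_lit 434231) (nat_lit 23) (.e (nat_lit 532529) (nat_lit 9) (.e (nat_lit 336299) (nat_lit 15) (.e (nat_lit 3716) (nat_lit 227) (.e (nat_lit 778316) (nat_lit 3) .nil)))))))) (.g (nat_lit 1) (.e (nat_lit 254664) (nat_lit 0) .nil) .nil)))))) 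
(.nd (nat_lit 7) (.nd (nat_lit 8) (.nd (nat_lit 9) 
(.lf (nat_lit 533618) (.g (nat_lit 1718) (.e (nat_lit 57409) (nat_lit 12) (.e (nat_lit 336454) (nat_lit 34) (.e (nat_lit 483383) (nat_lit 23) (.e (nat_lit 335878) (nat_lit 0) .nil)))) (.g (nat_lit 0) (.e (nat_lit 253123) (nat_lit 0) .nil) .nil))) 
(.lf (nat_lit 534130) (.g (nat_lit 2826) (.e (nat_lit 57464) (nat_lit 23) (.e (nat_lit 516166) (nat_lit 12) (.e (nat_lit 450588) (nat_lit 10) (.e (nat_lit 573450) (nat_lit 9) (.e (nat_lit 442) (nat_lit 33) (.e (nat_lit 442112) (nat_lit 3) .nil)))))) (.g (nat_lit 1) (.e (nat_lit 254042) (nat_lit 0) .nil) .nil)))) (.nd (nat_lit 9) 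
(.lf (nat_lit 533874) (.g (nat_lit 3493) (.e (nat_lit 57430) (nat_lit 16) (.e (nat_lit 368676) (nat_lit 21) (.e (nat_lit 516165) (nat_lit 12) (.e (nat_lit 450586) (nat_lit 10) (.e (nat_lit 573475) (nat_lit 12) (.e (nat_lit 57351) (nat_lit 0) (.e (nat_lit 7265) (nat_lit 384) .nil))))))) (.g (nat_lit 1) (.e (nat_lit 253544) (nat_lit 0) .nil) .nil))) 
(.lf (nat_lit 534386) (.g (nat_lit 2661) (.e (nat_lit 57477) (nat_lit 28) (.e (nat_lit 557108) (nat_lit 15) (.e (nat_lit 188449) (nat_lit 22) (.e (nat_lit 196665) (nat_lit 13) (.e (nat_lit 65633) (nat_lit 15) .nil))))) (.g (nat_lit 0) (.e (nat_lit 254500) (nat_lit 0) .nil) .nil))))) (.nd (nat_lit 8) (.nd (nat_lit 9) 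
(.lf (nat_lit 533746) (.g (nat_lit 2355) (.e (nat_lit 57412) (nat_lit 12) (.e (nat_lit 336008) (nat_lit 2) (.e (nat_lit 90170) (nat_lit 13) (.e (nat_lit 172113) (nat_lit 10) (.e (nat_lit 434247) (nat_lit 28) (.e (nat_lit 573478) (nat_lit 12) (.e (nat_lit 57353) (nat_lit 0) (.e (nat_lit 7261) (nat_lit 384) .nil)))))))) (.g (nat_lit 1) (.e (nat_lit 253336) (nat_lit 0) .nil) .nil))) 
(.lf (nat_lit 534258) (.g (nat_lit 1926) (.e (nat_lit 57475) (nat_lit 28) (.e (nat_lit 557098) (nat_lit 13) (.e (nat_lit 172097) (nat_lit 9) (.e (nat_lit 426125) (nat_lit 2) (.e (nat_lit 196666) (nat_lit 13) .nil))))) (.g (nat_lit 0) (.e (nat_lit 254208) (nat_lit 0) .nil) .nil)))) (.nd (nat_lit 9) 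
(.lf (nat_lit 534002) (.g (nat_lit 1373) (.e (nat_lit 57464) (nat_lit 23) (.e (nat_lit 516123) (nat_lit 2) (.e (nat_lit 213016) (nat_lit 9) (.e (nat_lit 2710) (nat_lit 170) (.e (nat_lit 221207) (nat_lit 21) (.e (nat_lit 164345) (nat_lit 240) (.e (nat_lit 2639) (nat_lit 165) (.e (nat_lit 188160) (nat_lit 35) .nil)))))))) (.g (nat_lit 1) (.e (nat_lit 253874) (nat_lit 0) .nil) .nil))) 
(.lf (nat_lit 534514) (.g (nat_lit 3680) (.e (nat_lit 57479) (nat_lit 28) (.e (nat_lit 557105) (nat_lit 14) (.e (nat_lit 180252) (nat_lit 10) (.e (nat_lit 573487) (nat_lit 14) (.e (nat_lit 73747) (nat_lit 3) (.e (nat_lit 516097) (nat_lit 0) (.e (nat_lit 3454) (nat_lit 216) (.e (nat_lit 688167) (nat_lit 15) .nil)))))))) (.g (nat_lit 1) (.e (nat_lit 254728) (nat_lit 0) .nil) .nil))))))))) 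
(.nd (nat_lit 4) (.nd (nat_lit 5) (.nd (nat_lit 6) (.nd (nat_lit 7) (.nd (nat_lit 8) 
(.nd (nat_lit 9) 
(.lf (nat_lit 533514) (.g (nat_lit 4535) (.e (nat_lit 57407) (nat_lit 12) (.e (nat_lit 336019) (nat_lit 3) (.e (nat_lit 98373) (nat_lit 29) (.e (nat_lit 450587) (nat_lit 10) (.e (nat_lit 573478) (nat_lit 12) (.e (nat_lit 57352) (nat_lit 0) (.e (nat_lit 7261) (nat_lit 384) .nil))))))) (.g (nat_lit 1) (.e (nat_lit 252982) (nat_lit 0) .nil) .nil))) 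
(.lf (nat_lit 534026) (.g (nat_lit 2889) (.e (nat_lit 57464) (nat_lit 23) (.e (nat_lit 516139) (nat_lit 7) (.e (nat_lit 409649) (nat_lit 18) (.e (nat_lit 303117) (nat_lit 2) (.e (nat_lit 196669) (nat_lit 14) .nil))))) (.g (nat_lit 0) (.e (nat_lit 253916) (nat_lit 0) .nil) .nil)))) (.nd (nat_lit 9) 
(.lf (nat_lit 533770) (.g (nat_lit 4408) (.e (nat_lit 57412) (nat_lit 12) (.e (nat_lit 336023) (nat_lit 3) (.e (nat_lit 98373) (nat_lit 29) (.e (nat_lit 450588) (nat_lit 10) (.e (nat_lit 573475) (nat_lit 12) (.e (nat_lit 57351) (nat_lit 0) (.e (nat_lit 7265) (nat_lit 384) .nil))))))) (.g (nat_lit 1) (.e (nat_lit 253360) (nat_lit 0) .nil) .nil))) 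
(.lf (nat_lit 534282) (.g (nat_lit 3484) (.e (nat_lit 57476) (nat_lit 28) (.e (nat_lit 557097) (nat_lit 13) (.e (nat_lit 172059) (nat_lit 1) (.e (nat_lit 164398) (nat_lit 256) (.e (nat_lit 57447) (nat_lit 19) (.e (nat_lit 393234) (nat_lit 17) (.e (nat_lit 7583) (nat_lit 405) .nil))))))) (.g (nat_lit 1) (.e (nat_lit 254350) (nat_lit 0) .nil) .nil))))) (.nd (nat_lit 8) (.nd (nat_lit 9) 
(.lf (nat_lit 533642) (.g (nat_lit 728) (.e (nat_lit 57410) (nat_lit 12) (.e (nat_lit 336443) (nat_lit 32) (.e (nat_lit 466981) (nat_lit 23) .nil))) (.g (nat_lit 0) (.e (nat_lit 253156) (nat_lit 0) .nil) .nil))) 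
(.lf (nat_lit 534154) (.g (nat_lit 4184) (.e (nat_lit 57464) (nat_lit 23) (.e (nat_lit 516166) (nat_lit 12) (.e (nat_lit 450588) (nat_lit 10) (.e (nat_lit 573471) (nat_lit 11) (.e (nat_lit 16388) (nat_lit 0) (.e (nat_lit 7581) (nat_lit 405) .nil)))))) (.g (nat_lit 1) (.e (nat_lit 254066) (nat_lit 0) .nil) .nil)))) (.nd (nat_lit 9) 
(.lf (nat_lit 533898) (.g (nat_lit 3281) (.e (nat_lit 57431) (nat_lit 16) (.e (nat_lit 368676) (nat_lit 21) (.e (nat_lit 516165) (nat_lit 12) (.e (nat_lit 450586) (nat_lit 10) (.e (nat_lit 573475) (nat_lit 12) (.e (nat_lit 57351) (nat_lit 0) (.e (nat_lit 7261) (nat_lit 384) .nil))))))) (.g (nat_lit 1) (.e (nat_lit 253570) (nat_lit 0) .nil) .nil))) 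
(.lf (nat_lit 534410) (.g (nat_lit 2598) (.e (nat_lit 57478) (nat_lit 28) (.e (nat_lit 557100) (nat_lit 13) (.e (nat_lit 172106) (nat_lit 10) (.e (nat_lit 434231) (nat_lit 23) (.e (nat_lit 532564) (nat_lit 15) .nil))))) (.g (nat_lit 0) (.e (nat_lit 254562) (nat_lit 0) .nil) .nil)))))) (.nd (nat_lit 7) (.nd (nat_lit 8) (.nd (nat_lit 9) 
(.lf (nat_lit 533578) (.g (nat_lit 2046) (.e (nat_lit 57409) (nat_lit 12) (.e (nat_lit 336182) (nat_lit 11) (.e (nat_lit 368698) (nat_lit 43) (.e (nat_lit 770072) (nat_lit 8) (.e (nat_lit 65610) (nat_lit 10) (.e (nat_lit 344090) (nat_lit 18) (.e (nat_lit 7265) (nat_lit 384) .nil))))))) (.g (nat_lit 1) (.e (nat_lit 253064) (nat_lit 0) .nil) .nil))) 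
(.lf (nat_lit 534090) (.g (nat_lit 1602) (.e (nat_lit 57464) (nat_lit 23) (.e (nat_lit 516165) (nat_lit 12) (.e (nat_lit 450586) (nat_lit 10) (.e (nat_lit 573457) (nat_lit 9) (.e (nat_lit 7936) (nat_lit 33) (.e (nat_lit 442112) (nat_lit 3) .nil)))))) (.g (nat_lit 1) (.e (nat_lit 253996) (nat_lit 0) .nil) .nil)))) (.nd (nat_lit 9) 
(.lf (nat_lit 533834) (.g (nat_lit 3149) (.e (nat_lit 57419) (nat_lit 12) (.e (nat_lit 336194) (nat_lit 12) (.e (nat_lit 385105) (nat_lit 50) (.e (nat_lit 786483) (nat_lit 30) (.e (nat_lit 360456) (nat_lit 0) (.e (nat_lit 5949) (nat_lit 322) .nil)))))) (.g (nat_lit 1) (.e (nat_lit 253458) (nat_lit 0) .nil) .nil))) 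
(.lf (nat_lit 534346) (.g (nat_lit 3859) (.e (nat_lit 57476) (nat_lit 28) (.e (nat_lit 557108) (nat_lit 15) (.e (nat_lit 188452) (nat_lit 23) (.e (nat_lit 204852) (nat_lit 26) (.e (nat_lit 336247) (nat_lit 15) (.e (nat_lit 3627) (nat_lit 227) (.e (nat_lit 778318) (nat_lit 3) .nil))))))) (.g (nat_lit 1) (.e (nat_lit 254414) (nat_lit 0) .nil) .nil))))) (.nd (nat_lit 8) (.nd (nat_lit 9) 
(.lf (nat_lit 533706) (.g (nat_lit 4527) (.e (nat_lit 57412) (nat_lit 12) (.e (nat_lit 336001) (nat_lit 2) (.e (nat_lit 90170) (nat_lit 13) (.e (nat_lit 172113) (nat_lit 10) (.e (nat_lit 434242) (nat_lit 28) (.e (nat_lit 573474) (nat_lit 12) (.e (nat_lit 57347) (nat_lit 0) (.e (nat_lit 7261) (nat_lit 384) .nil)))))))) (.g (nat_lit 1) (.e (nat_lit 253296) (nat_lit 0) .nil) .nil))) 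
(.lf (nat_lit 534218) (.g (nat_lit 2138) (.e (nat_lit 57466) (nat_lit 23) (.e (nat_lit 516129) (nat_lit 3) (.e (nat_lit 221210) (nat_lit 22) (.e (nat_lit 196668) (nat_lit 14) (.e (nat_lit 73746) (nat_lit 3) .nil))))) (.g (nat_lit 0) (.e (nat_lit 254136) (nat_lit 0) .nil) .nil)))) (.nd (nat_lit 9) 
(.lf (nat_lit 533962) (.g (nat_lit 1270) (.e (nat_lit 57449) (nat_lit 20) (.e (nat_lit 401454) (nat_lit 12) (.e (nat_lit 475198) (nat_lit 40) (.e (nat_lit 704599) (nat_lit 6) .nil)))) (.g (nat_lit 0) (.e (nat_lit 253686) (nat_lit 0) .nil) .nil))) 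
(.lf (nat_lit 534474) (.g (nat_lit 3802) (.e (nat_lit 57479) (nat_lit 28) (.e (nat_lit 557101) (nat_lit 13) (.e (nat_lit 172115) (nat_lit 10) (.e (nat_lit 434231) (nat_lit 23) (.e (nat_lit 532529) (nat_lit 9) (.e (nat_lit 336296) (nat_lit 15) (.e (nat_lit 3716) (nat_lit 227) (.e (nat_lit 778316) (nat_lit 3) .nil)))))))) (.g (nat_lit 1) (.e (nat_lit 254688) (nat_lit 0) .nil) .nil))))))) 
(.nd (nat_lit 6) (.nd (nat_lit 7) (.nd (nat_lit 8) (.nd (nat_lit 9) 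
(.lf (nat_lit 533546) (.g (nat_lit 2001) (.e (nat_lit 57407) (nat_lit 12) (.e (nat_lit 336456) (nat_lit 34) (.e (nat_lit 483383) (nat_lit 23) (.e (nat_lit 336297) (nat_lit 15) .nil)))) (.g (nat_lit 0) (.e (nat_lit 253031) (nat_lit 0) .nil) .nil))) 
(.lf (nat_lit 534058) (.g (nat_lit 2267) (.e (nat_lit 57464) (nat_lit 23) (.e (nat_lit 516151) (nat_lit 9) (.e (nat_lit 426286) (nat_lit 10) (.e (nat_lit 434248) (nat_lit 28) (.e (nat_lit 573457) (nat_lit 9) (.e (nat_lit 430) (nat_lit 32) (.e (nat_lit 426012) (nat_lit 0) (.e (nat_lit 7581) (nat_lit 405) .nil)))))))) (.g (nat_lit 1) (.e (nat_lit 253951) (nat_lit 0) .nil) .nil)))) (.nd (nat_lit 9) 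
(.lf (nat_lit 533802) (.g (nat_lit 2658) (.e (nat_lit 57412) (nat_lit 12) (.e (nat_lit 336226) (nat_lit 14) (.e (nat_lit 401437) (nat_lit 9) (.e (nat_lit 426546) (nat_lit 30) (.e (nat_lit 368384) (nat_lit 0) (.e (nat_lit 5936) (nat_lit 322) .nil)))))) (.g (nat_lit 1) (.e (nat_lit 253407) (nat_lit 0) .nil) .nil))) 
(.lf (nat_lit 534314) (.g (nat_lit 2482) (.e (nat_lit 57476) (nat_lit 28) (.e (nat_lit 557107) (nat_lit 15) (.e (nat_lit 188447) (nat_lit 22) (.e (nat_lit 196666) (nat_lit 13) (.e (nat_lit 65639) (nat_lit 15) (.e (nat_lit 3711) (nat_lit 227) (.e (nat_lit 778316) (nat_lit 3) .nil))))))) (.g (nat_lit 1) (.e (nat_lit 254382) (nat_lit 0) .nil) .nil))))) (.nd (nat_lit 8) (.nd (nat_lit 9) 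
(.lf (nat_lit 533674) (.g (nat_lit 2681) (.e (nat_lit 57411) (nat_lit 12) (.e (nat_lit 336454) (nat_lit 34) (.e (nat_lit 483380) (nat_lit 23) (.e (nat_lit 336324) (nat_lit 18) (.e (nat_lit 204831) (nat_lit 18) (.e (nat_lit 57846) (nat_lit 252) .nil)))))) (.g (nat_lit 1) (.e (nat_lit 253251) (nat_lit 0) .nil) .nil))) 
(.lf (nat_lit 534186) (.g (nat_lit 3918) (.e (nat_lit 57465) (nat_lit 23) (.e (nat_lit 516129) (nat_lit 3) (.e (nat_lit 221210) (nat_lit 22) (.e (nat_lit 196668) (nat_lit 14) (.e (nat_lit 73747) (nat_lit 3) (.e (nat_lit 516097) (nat_lit 0) (.e (nat_lit 3460) (nat_lit 216) (.e (nat_lit 688171) (nat_lit 15) .nil)))))))) (.g (nat_lit 1) (.e (nat_lit 254103) (nat_lit 0) .nil) .nil)))) 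
(.nd (nat_lit 9) 
(.lf (nat_lit 533930) (.g (nat_lit 1953) (.e (nat_lit 57437) (nat_lit 17) (.e (nat_lit 376835) (nat_lit 0) (.e (nat_lit 3746) (nat_lit 228) (.e (nat_lit 786483) (nat_lit 30) (.e (nat_lit 368384) (nat_lit 0) (.e (nat_lit 5936) (nat_lit 322) .nil)))))) (.g (nat_lit 1) (.e (nat_lit 253628) (nat_lit 0) .nil) .nil))) 
(.lf (nat_lit 534442) (.g (nat_lit 2493) (.e (nat_lit 57479) (nat_lit 28) (.e (nat_lit 557100) (nat_lit 13) (.e (nat_lit 172106) (nat_lit 10) (.e (nat_lit 434231) (nat_lit 23) (.e (nat_lit 532529) (nat_lit 9) (.e (nat_lit 336296) (nat_lit 15) (.e (nat_lit 3711) (nat_lit 227) (.e (nat_lit 786176) (nat_lit 3) .nil)))))))) (.g (nat_lit 1) (.e (nat_lit 254656) (nat_lit 0) .nil) .nil)))))) 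
(.nd (nat_lit 7) (.nd (nat_lit 8) (.nd (nat_lit 9) 
(.lf (nat_lit 533610) (.g (nat_lit 2598) (.e (nat_lit 57409) (nat_lit 12) (.e (nat_lit 336443) (nat_lit 32) (.e (nat_lit 466977) (nat_lit 22) (.e (nat_lit 196656) (nat_lit 11) (.e (nat_lit 16392) (nat_lit 0) (.e (nat_lit 2404) (nat_lit 157) (.e (nat_lit 5944) (nat_lit 322) .nil))))))) (.g (nat_lit 1) (.e (nat_lit 253114) (nat_lit 0) .nil) .nil))) 
(.lf (nat_lit 534122) (.g (nat_lit 1547) (.e (nat_lit 57464) (nat_lit 23) (.e (nat_lit 516166) (nat_lit 12) (.e (nat_lit 450587) (nat_lit 10) (.e (nat_lit 573456) (nat_lit 9) (.e (nat_lit 7936) (nat_lit 36) (.e (nat_lit 466688) (nat_lit 3) .nil)))))) (.g (nat_lit 1) (.e (nat_lit 254034) (nat_lit 0) .nil) .nil)))) (.nd (nat_lit 9) 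
(.lf (nat_lit 533866) (.g (nat_lit 1218) (.e (nat_lit 57427) (nat_lit 15) (.e (nat_lit 360474) (nat_lit 8) (.e (nat_lit 557116) (nat_lit 18) .nil))) (.g (nat_lit 0) (.e (nat_lit 253528) (nat_lit 0) .nil) .nil))) 
(.lf (nat_lit 534378) (.g (nat_lit 2507) (.e (nat_lit 57477) (nat_lit 28) (.e (nat_lit 557104) (nat_lit 14) (.e (nat_lit 180251) (nat_lit 10) (.e (nat_lit 573484) (nat_lit 13) (.e (nat_lit 65569) (nat_lit 3) (.e (nat_lit 98321) (nat_lit 17) (.e (nat_lit 7936) (nat_lit 216) (.e (nat_lit 688166) (nat_lit 15) .nil)))))))) (.g (nat_lit 1) (.e (nat_lit 254492) (nat_lit 0) .nil) .nil))))) 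
(.nd (nat_lit 8) (.nd (nat_lit 9) 
(.lf (nat_lit 533738) (.g (nat_lit 2422) (.e (nat_lit 57412) (nat_lit 12) (.e (nat_lit 336008) (nat_lit 2) (.e (nat_lit 90170) (nat_lit 13) (.e (nat_lit 172113) (nat_lit 10) (.e (nat_lit 434245) (nat_lit 28) (.e (nat_lit 573473) (nat_lit 12) (.e (nat_lit 57348) (nat_lit 0) (.e (nat_lit 7263) (nat_lit 384) .nil)))))))) (.g (nat_lit 1) (.e (nat_lit 253328) (nat_lit 0) .nil) .nil))) 
(.lf (nat_lit 534250) (.g (nat_lit 1826) (.e (nat_lit 57474) (nat_lit 28) (.e (nat_lit 557100) (nat_lit 13) (.e (nat_lit 172106) (nat_lit 10) (.e (nat_lit 434231) (nat_lit 23) .nil)))) (.g (nat_lit 0) (.e (nat_lit 254198) (nat_lit 0) .nil) .nil)))) (.nd (nat_lit 9) 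
(.lf (nat_lit 533994) (.g (nat_lit 3711) (.e (nat_lit 57464) (nat_lit 23) (.e (nat_lit 516115) (nat_lit 1) (.e (nat_lit 164325) (nat_lit 230) (.e (nat_lit 163873) (nat_lit 3) .nil)))) (.g (nat_lit 0) (.e (nat_lit 253854) (nat_lit 0) .nil) .nil))) 
(.lf (nat_lit 534506) (.g (nat_lit 3310) (.e (nat_lit 57479) (nat_lit 28) (.e (nat_lit 557105) (nat_lit 14) (.e (nat_lit 180252) (nat_lit 10) (.e (nat_lit 573482) (nat_lit 13) (.e (nat_lit 65571) (nat_lit 3) (.e (nat_lit 98319) (nat_lit 17) (.e (nat_lit 3454) (nat_lit 216) (.e (nat_lit 688167) (nat_lit 15) .nil)))))))) (.g (nat_lit 1) (.e (nat_lit 254720) (nat_lit 0) .nil) .nil)))))))) 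
(.nd (nat_lit 5) (.nd (nat_lit 6) (.nd (nat_lit 7) (.nd (nat_lit 8) (.nd (nat_lit 9) 
(.lf (nat_lit 533530) (.g (nat_lit 505) (.e (nat_lit 57407) (nat_lit 12) (.e (nat_lit 336454) (nat_lit 34) (.e (nat_lit 483378) (nat_lit 23) .nil))) (.g (nat_lit 0) (.e (nat_lit 253015) (nat_lit 0) .nil) .nil))) 
(.lf (nat_lit 534042) (.g (nat_lit 3420) (.e (nat_lit 57464) (nat_lit 23) (.e (nat_lit 516151) (nat_lit 9) (.e (nat_lit 426286) (nat_lit 10) (.e (nat_lit 434245) (nat_lit 28) (.e (nat_lit 573450) (nat_lit 9) (.e (nat_lit 473) (nat_lit 36) (.e (nat_lit 466688) (nat_lit 3) .nil))))))) (.g (nat_lit 1) (.e (nat_lit 253935) (nat_lit 0) .nil) .nil)))) (.nd (nat_lit 9) 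
(.lf (nat_lit 533786) (.g (nat_lit 1719) (.e (nat_lit 57412) (nat_lit 12) (.e (nat_lit 336176) (nat_lit 10) (.e (nat_lit 344157) (nat_lit 36) (.e (nat_lit 638986) (nat_lit 5) (.e (nat_lit 3015) (nat_lit 187) (.e (nat_lit 458496) (nat_lit 0) (.e (nat_lit 5190) (nat_lit 294) .nil))))))) (.g (nat_lit 1) (.e (nat_lit 253377) (nat_lit 0) .nil) .nil))) 
(.lf (nat_lit 534298) (.g (nat_lit 4642) (.e (nat_lit 57476) (nat_lit 28) (.e (nat_lit 557097) (nat_lit 13) (.e (nat_lit 172115) (nat_lit 10) (.e (nat_lit 434231) (nat_lit 23) (.e (nat_lit 532529) (nat_lit 9) (.e (nat_lit 336242) (nat_lit 15) (.e (nat_lit 7936) (nat_lit 227) (.e (nat_lit 778318) (nat_lit 3) .nil)))))))) (.g (nat_lit 1) (.e (nat_lit 254366) (nat_lit 0) .nil) .nil))))) 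
(.nd (nat_lit 8) (.nd (nat_lit 9) 
(.lf (nat_lit 533658) (.g (nat_lit 2563) (.e (nat_lit 57411) (nat_lit 12) (.e (nat_lit 336208) (nat_lit 12) (.e (nat_lit 385102) (nat_lit 50) (.e (nat_lit 786483) (nat_lit 30) (.e (nat_lit 360451) (nat_lit 0) (.e (nat_lit 7936) (nat_lit 322) .nil)))))) (.g (nat_lit 1) (.e (nat_lit 253214) (nat_lit 0) .nil) .nil))) 
(.lf (nat_lit 534170) (.g (nat_lit 1999) (.e (nat_lit 57465) (nat_lit 23) (.e (nat_lit 516115) (nat_lit 1) (.e (nat_lit 164399) (nat_lit 256) (.e (nat_lit 57375) (nat_lit 2) (.e (nat_lit 90174) (nat_lit 14) .nil))))) (.g (nat_lit 0) (.e (nat_lit 254085) (nat_lit 0) .nil) .nil)))) (.nd (nat_lit 9) 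
(.lf (nat_lit 533914) (.g (nat_lit 4608) (.e (nat_lit 57431) (nat_lit 16) (.e (nat_lit 368676) (nat_lit 21) (.e (nat_lit 516166) (nat_lit 12) (.e (nat_lit 450588) (nat_lit 10) (.e (nat_lit 573475) (nat_lit 12) .nil))))) (.g (nat_lit 0) (.e (nat_lit 253586) (nat_lit 0) .nil) .nil))) 
(.lf (nat_lit 534426) (.g (nat_lit 3424) (.e (nat_lit 57478) (nat_lit 28) (.e (nat_lit 557109) (nat_lit 15) (.e (nat_lit 188449) (nat_lit 22) (.e (nat_lit 196666) (nat_lit 13) (.e (nat_lit 65638) (nat_lit 15) .nil))))) (.g (nat_lit 0) (.e (nat_lit 254594) (nat_lit 0) .nil) .nil)))))) (.nd (nat_lit 7) (.nd (nat_lit 8) (.nd (nat_lit 9) 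
(.lf (nat_lit 533594) (.g (nat_lit 2827) (.e (nat_lit 57409) (nat_lit 12) (.e (nat_lit 336326) (nat_lit 18) (.e (nat_lit 204869) (nat_lit 29) (.e (nat_lit 360453) (nat_lit 0) (.e (nat_lit 7936) (nat_lit 412) .nil))))) (.g (nat_lit 0) (.e (nat_lit 253097) (nat_lit 0) .nil) .nil))) 
(.lf (nat_lit 534106) (.g (nat_lit 3017) (.e (nat_lit 57464) (nat_lit 23) (.e (nat_lit 516165) (nat_lit 12) (.e (nat_lit 450588) (nat_lit 10) (.e (nat_lit 573452) (nat_lit 9) (.e (nat_lit 430) (nat_lit 32) (.e (nat_lit 426012) (nat_lit 0) (.e (nat_lit 7583) (nat_lit 405) .nil))))))) (.g (nat_lit 1) (.e (nat_lit 254012) (nat_lit 0) .nil) .nil)))) (.nd (nat_lit 9) 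
(.lf (nat_lit 533850) (.g (nat_lit 1601) (.e (nat_lit 57421) (nat_lit 13) (.e (nat_lit 344133) (nat_lit 26) (.e (nat_lit 557068) (nat_lit 9) (.e (nat_lit 3104) (nat_lit 192) .nil)))) (.g (nat_lit 0) (.e (nat_lit 253492) (nat_lit 0) .nil) .nil))) 
(.lf (nat_lit 534362) (.g (nat_lit 2701) (.e (nat_lit 57476) (nat_lit 28) (.e (nat_lit 557108) (nat_lit 15) (.e (nat_lit 188452) (nat_lit 23) (.e (nat_lit 204855) (nat_lit 26) (.e (nat_lit 336290) (nat_lit 15) (.e (nat_lit 3714) (nat_lit 227) (.e (nat_lit 778316) (nat_lit 3) .nil))))))) (.g (nat_lit 1) (.e (nat_lit 254430) (nat_lit 0) .nil) .nil))))) (.nd (nat_lit 8) (.nd (nat_lit 9) 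
(.lf (nat_lit 533722) (.g (nat_lit 3945) (.e (nat_lit 57412) (nat_lit 12) (.e (nat_lit 336001) (nat_lit 2) (.e (nat_lit 90170) (nat_lit 13) (.e (nat_lit 172113) (nat_lit 10) (.e (nat_lit 434248) (nat_lit 28) (.e (nat_lit 573475) (nat_lit 12) (.e (nat_lit 57348) (nat_lit 0) (.e (nat_lit 7263) (nat_lit 384) .nil)))))))) (.g (nat_lit 1) (.e (nat_lit 253312) (nat_lit 0) .nil) .nil))) 
(.lf (nat_lit 534234) (.g (nat_lit 1970) (.e (nat_lit 57467) (nat_lit 23) (.e (nat_lit 516115) (nat_lit 1) (.e (nat_lit 164399) (nat_lit 256) (.e (nat_lit 57375) (nat_lit 2) (.e (nat_lit 90174) (nat_lit 14) .nil))))) (.g (nat_lit 0) (.e (nat_lit 254162) (nat_lit 0) .nil) .nil)))) (.nd (nat_lit 9) 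
(.lf (nat_lit 533978) (.g (nat_lit 3068) (.e (nat_lit 57451) (nat_lit 20) (.e (nat_lit 401448) (nat_lit 10) (.e (nat_lit 434272) (nat_lit 38) (.e (nat_lit 655364) (nat_lit 0) (.e (nat_lit 3022) (nat_lit 187) (.e (nat_lit 450569) (nat_lit 0) (.e (nat_lit 5947) (nat_lit 322) .nil))))))) (.g (nat_lit 1) (.e (nat_lit 253719) (nat_lit 0) .nil) .nil))) 
(.lf (nat_lit 534490) (.g (nat_lit 2914) (.e (nat_lit 57479) (nat_lit 28) (.e (nat_lit 557105) (nat_lit 14) (.e (nat_lit 180251) (nat_lit 10) (.e (nat_lit 573485) (nat_lit 13) (.e (nat_lit 65571) (nat_lit 3) (.e (nat_lit 98321) (nat_lit 17) (.e (nat_lit 7936) (nat_lit 216) (.e (nat_lit 688165) (nat_lit 15) .nil)))))))) (.g (nat_lit 1) (.e (nat_lit 254704) (nat_lit 0) .nil) .nil))))))) 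
(.nd (nat_lit 6) (.nd (nat_lit 7) (.nd (nat_lit 8) (.nd (nat_lit 9) 
(.lf (nat_lit 533562) (.g (nat_lit 924) (.e (nat_lit 57408) (nat_lit 12) (.e (nat_lit 336454) (nat_lit 34) (.e (nat_lit 483383) (nat_lit 23) (.e (nat_lit 336240) (nat_lit 15) .nil)))) (.g (nat_lit 0) (.e (nat_lit 253048) (nat_lit 0) .nil) .nil))) 
(.lf (nat_lit 534074) (.g (nat_lit 2162) (.e (nat_lit 57464) (nat_lit 23) (.e (nat_lit 516163) (nat_lit 11) (.e (nat_lit 442430) (nat_lit 24) (.e (nat_lit 229535) (nat_lit 134) (.e (nat_lit 2639) (nat_lit 165) (.e (nat_lit 188160) (nat_lit 35) .nil)))))) (.g (nat_lit 1) (.e (nat_lit 253978) (nat_lit 0) .nil) .nil)))) (.nd (nat_lit 9) 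
(.lf (nat_lit 533818) (.g (nat_lit 2576) (.e (nat_lit 57419) (nat_lit 12) (.e (nat_lit 335986) (nat_lit 1) (.e (nat_lit 57847) (nat_lit 252) (.e (nat_lit 57365) (nat_lit 1) (.e (nat_lit 57927) (nat_lit 282) .nil))))) (.g (nat_lit 0) (.e (nat_lit 253437) (nat_lit 0) .nil) .nil))) 
(.lf (nat_lit 534330) (.g (nat_lit 2045) (.e (nat_lit 57476) (nat_lit 28) (.e (nat_lit 557107) (nat_lit 15) (.e (nat_lit 188450) (nat_lit 23) (.e (nat_lit 204855) (nat_lit 26) (.e (nat_lit 336290) (nat_lit 15) (.e (nat_lit 3711) (nat_lit 227) (.e (nat_lit 786176) (nat_lit 3) .nil))))))) (.g (nat_lit 1) (.e (nat_lit 254398) (nat_lit 0) .nil) .nil))))) (.nd (nat_lit 8) (.nd (nat_lit 9) 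
(.lf (nat_lit 533690) (.g (nat_lit 2268) (.e (nat_lit 57411) (nat_lit 12) (.e (nat_lit 336456) (nat_lit 34) (.e (nat_lit 483394) (nat_lit 24) (.e (nat_lit 344117) (nat_lit 21) (.e (nat_lit 516106) (nat_lit 0) (.e (nat_lit 2478) (nat_lit 157) (.e (nat_lit 6400) (nat_lit 339) .nil))))))) (.g (nat_lit 1) (.e (nat_lit 253280) (nat_lit 0) .nil) .nil))) 
(.lf (nat_lit 534202) (.g (nat_lit 2032) (.e (nat_lit 57466) (nat_lit 23) (.e (nat_lit 516115) (nat_lit 1) (.e (nat_lit 164399) (nat_lit 256) (.e (nat_lit 57372) (nat_lit 2) (.e (nat_lit 90174) (nat_lit 14) .nil))))) (.g (nat_lit 0) (.e (nat_lit 254120) (nat_lit 0) .nil) .nil)))) (.nd (nat_lit 9) 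
(.lf (nat_lit 533946) (.g (nat_lit 2124) (.e (nat_lit 57443) (nat_lit 18) (.e (nat_lit 385074) (nat_lit 31) (.e (nat_lit 573485) (nat_lit 13) (.e (nat_lit 65619) (nat_lit 10) .nil)))) (.g (nat_lit 0) (.e (nat_lit 253663) (nat_lit 0) .nil) .nil))) 
(.lf (nat_lit 534458) (.g (nat_lit 2195) (.e (nat_lit 57479) (nat_lit 28) (.e (nat_lit 557100) (nat_lit 13) (.e (nat_lit 172106) (nat_lit 10) (.e (nat_lit 434231) (nat_lit 23) (.e (nat_lit 532535) (nat_lit 9) (.e (nat_lit 336295) (nat_lit 15) (.e (nat_lit 3617) (nat_lit 227) (.e (nat_lit 786176) (nat_lit 3) .nil)))))))) (.g (nat_lit 1) (.e (nat_lit 254672) (nat_lit 0) .nil) .nil)))))) 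
(.nd (nat_lit 7) (.nd (nat_lit 8) (.nd (nat_lit 9) 
(.lf (nat_lit 533626) (.g (nat_lit 1973) (.e (nat_lit 57409) (nat_lit 12) (.e (nat_lit 336454) (nat_lit 34) (.e (nat_lit 483395) (nat_lit 24) (.e (nat_lit 344117) (nat_lit 21) (.e (nat_lit 516115) (nat_lit 1) .nil))))) (.g (nat_lit 0) (.e (nat_lit 253131) (nat_lit 0) .nil) .nil))) 
(.lf (nat_lit 534138) (.g (nat_lit 2484) (.e (nat_lit 57464) (nat_lit 23) (.e (nat_lit 516166) (nat_lit 12) (.e (nat_lit 450588) (nat_lit 10) (.e (nat_lit 573452) (nat_lit 9) (.e (nat_lit 7936) (nat_lit 33) (.e (nat_lit 442112) (nat_lit 3) .nil)))))) (.g (nat_lit 1) (.e (nat_lit 254050) (nat_lit 0) .nil) .nil)))) (.nd (nat_lit 9) 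
(.lf (nat_lit 533882) (.g (nat_lit 4881) (.e (nat_lit 57430) (nat_lit 16) (.e (nat_lit 368676) (nat_lit 21) (.e (nat_lit 516165) (nat_lit 12) (.e (nat_lit 450588) (nat_lit 10) (.e (nat_lit 573473) (nat_lit 12) (.e (nat_lit 57347) (nat_lit 0) (.e (nat_lit 7266) (nat_lit 384) .nil))))))) (.g (nat_lit 1) (.e (nat_lit 253552) (nat_lit 0) .nil) .nil))) 
(.lf (nat_lit 534394) (.g (nat_lit 2879) (.e (nat_lit 57477) (nat_lit 28) (.e (nat_lit 557108) (nat_lit 15) (.e (nat_lit 188452) (nat_lit 23) (.e (nat_lit 204855) (nat_lit 26) (.e (nat_lit 336290) (nat_lit 15) (.e (nat_lit 3711) (nat_lit 227) (.e (nat_lit 778316) (nat_lit 3) .nil))))))) (.g (nat_lit 1) (.e (nat_lit 254508) (nat_lit 0) .nil) .nil))))) (.nd (nat_lit 8) (.nd (nat_lit 9) 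
(.lf (nat_lit 533754) (.g (nat_lit 3316) (.e (nat_lit 57412) (nat_lit 12) (.e (nat_lit 336022) (nat_lit 3) (.e (nat_lit 98373) (nat_lit 29) (.e (nat_lit 450587) (nat_lit 10) (.e (nat_lit 573477) (nat_lit 12) (.e (nat_lit 57353) (nat_lit 0) (.e (nat_lit 7261) (nat_lit 384) .nil))))))) (.g (nat_lit 1) (.e (nat_lit 253344) (nat_lit 0) .nil) .nil))) 
(.lf (nat_lit 534266) (.g (nat_lit 4038) (.e (nat_lit 57475) (nat_lit 28) (.e (nat_lit 557108) (nat_lit 15) (.e (nat_lit 188452) (nat_lit 23) (.e (nat_lit 204880) (nat_lit 32) .nil)))) (.g (nat_lit 0) (.e (nat_lit 254216) (nat_lit 0) .nil) .nil)))) (.nd (nat_lit 9) 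
(.lf (nat_lit 534010) (.g (nat_lit 2708) (.e (nat_lit 57464) (nat_lit 23) (.e (nat_lit 516139) (nat_lit 7) (.e (nat_lit 409644) (nat_lit 18) (.e (nat_lit 303117) (nat_lit 2) (.e (nat_lit 196661) (nat_lit 12) (.e (nat_lit 57723) (nat_lit 180) (.e (nat_lit 229657) (nat_lit 235) .nil))))))) (.g (nat_lit 1) (.e (nat_lit 253899) (nat_lit 0) .nil) .nil))) 
(.lf (nat_lit 534522) (.g (nat_lit 2367) (.e (nat_lit 57479) (nat_lit 28) (.e (nat_lit 557105) (nat_lit 14) (.e (nat_lit 180252) (nat_lit 10) (.e (nat_lit 573489) (nat_lit 14) (.e (nat_lit 73746) (nat_lit 3) (.e (nat_lit 516100) (nat_lit 0) (.e (nat_lit 7936) (nat_lit 216) (.e (nat_lit 688165) (nat_lit 15) .nil)))))))) (.g (nat_lit 1) (.e (nat_lit 254736) (nat_lit 0) .nil) .nil)))))))))) 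
(.nd (nat_lit 3) (.nd (nat_lit 4) (.nd (nat_lit 5) (.nd (nat_lit 6) (.nd (nat_lit 7) 
(.nd (nat_lit 8) (.nd (nat_lit 9) 
(.lf (nat_lit 533510) (.g (nat_lit 5097) (.e (nat_lit 57407) (nat_lit 12) (.e (nat_lit 336019) (nat_lit 3) (.e (nat_lit 98373) (nat_lit 29) (.e (nat_lit 450587) (nat_lit 10) (.e (nat_lit 573475) (nat_lit 12) .nil))))) (.g (nat_lit 0) (.e (nat_lit 252978) (nat_lit 0) .nil) .nil))) 
(.lf (nat_lit 534022) (.g (nat_lit 4274) (.e (nat_lit 57464) (nat_lit 23) (.e (nat_lit 516139) (nat_lit 7) (.e (nat_lit 409648) (nat_lit 18) (.e (nat_lit 303117) (nat_lit 2) (.e (nat_lit 196661) (nat_lit 12) (.e (nat_lit 57723) (nat_lit 180) (.e (nat_lit 229657) (nat_lit 235) .nil))))))) (.g (nat_lit 1) (.e (nat_lit 253911) (nat_lit 0) .nil) .nil)))) (.nd (nat_lit 9) 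
(.lf (nat_lit 533766) (.g (nat_lit 4287) (.e (nat_lit 57412) (nat_lit 12) (.e (nat_lit 336023) (nat_lit 3) (.e (nat_lit 98373) (nat_lit 29) (.e (nat_lit 450588) (nat_lit 10) (.e (nat_lit 573473) (nat_lit 12) (.e (nat_lit 57348) (nat_lit 0) (.e (nat_lit 7263) (nat_lit 384) .nil))))))) (.g (nat_lit 1) (.e (nat_lit 253356) (nat_lit 0) .nil) .nil))) 
(.lf (nat_lit 534278) (.g (nat_lit 4327) (.e (nat_lit 57476) (nat_lit 28) (.e (nat_lit 557090) (nat_lit 12) (.e (nat_lit 164038) (nat_lit 55) (.e (nat_lit 778336) (nat_lit 9) (.e (nat_lit 2668) (nat_lit 167) (.e (nat_lit 196666) (nat_lit 13) (.e (nat_lit 65571) (nat_lit 3) (.e (nat_lit 98346) (nat_lit 22) (.e (nat_lit 253996) (nat_lit 12) .nil))))))))) (.g (nat_lit 1) (.e (nat_lit 254319) (nat_lit 0) .nil) .nil))))) 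
(.nd (nat_lit 8) (.nd (nat_lit 9) 
(.lf (nat_lit 533638) (.g (nat_lit 3575) (.e (nat_lit 57410) (nat_lit 12) (.e (nat_lit 336398) (nat_lit 27) (.e (nat_lit 426290) (nat_lit 10) (.e (nat_lit 434231) (nat_lit 23) (.e (nat_lit 532579) (nat_lit 26) (.e (nat_lit 426098) (nat_lit 1) (.e (nat_lit 164399) (nat_lit 256) .nil))))))) (.g (nat_lit 1) (.e (nat_lit 253151) (nat_lit 0) .nil) .nil))) 
(.lf (nat_lit 534150) (.g (nat_lit 3040) (.e (nat_lit 57464) (nat_lit 23) (.e (nat_lit 516166) (nat_lit 12) (.e (nat_lit 450588) (nat_lit 10) (.e (nat_lit 573470) (nat_lit 11) (.e (nat_lit 16386) (nat_lit 0) (.e (nat_lit 7581) (nat_lit 405) .nil)))))) (.g (nat_lit 1) (.e (nat_lit 254062) (nat_lit 0) .nil) .nil)))) (.nd (nat_lit 9) 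
(.lf (nat_lit 533894) (.g (nat_lit 1708) (.e (nat_lit 57430) (nat_lit 16) (.e (nat_lit 368676) (nat_lit 21) (.e (nat_lit 516179) (nat_lit 15) (.e (nat_lit 475161) (nat_lit 21) .nil)))) (.g (nat_lit 0) (.e (nat_lit 253564) (nat_lit 0) .nil) .nil))) 
(.lf (nat_lit 534406) (.g (nat_lit 3535) (.e (nat_lit 57478) (nat_lit 28) (.e (nat_lit 557100) (nat_lit 13) (.e (nat_lit 172106) (nat_lit 10) (.e (nat_lit 434231) (nat_lit 23) (.e (nat_lit 532535) (nat_lit 9) (.e (nat_lit 336290) (nat_lit 15) (.e (nat_lit 3714) (nat_lit 227) (.e (nat_lit 786176) (nat_lit 3) .nil)))))))) (.g (nat_lit 1) (.e (nat_lit 254558) (nat_lit 0) .nil) .nil)))))) 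
(.nd (nat_lit 7) (.nd (nat_lit 8) (.nd (nat_lit 9) 
(.lf (nat_lit 533574) (.g (nat_lit 4889) (.e (nat_lit 57409) (nat_lit 12) (.e (nat_lit 336019) (nat_lit 3) (.e (nat_lit 98373) (nat_lit 29) (.e (nat_lit 450588) (nat_lit 10) (.e (nat_lit 573475) (nat_lit 12) (.e (nat_lit 57347) (nat_lit 0) (.e (nat_lit 7263) (nat_lit 384) .nil))))))) (.g (nat_lit 1) (.e (nat_lit 253060) (nat_lit 0) .nil) .nil))) 
(.lf (nat_lit 534086) (.g (nat_lit 2635) (.e (nat_lit 57464) (nat_lit 23) (.e (nat_lit 516165) (nat_lit 12) (.e (nat_lit 450586) (nat_lit 10) (.e (nat_lit 573452) (nat_lit 9) (.e (nat_lit 430) (nat_lit 32) (.e (nat_lit 426012) (nat_lit 0) (.e (nat_lit 7583) (nat_lit 405) .nil))))))) (.g (nat_lit 1) (.e (nat_lit 253992) (nat_lit 0) .nil) .nil)))) (.nd (nat_lit 9) 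
(.lf (nat_lit 533830) (.g (nat_lit 2116) (.e (nat_lit 57419) (nat_lit 12) (.e (nat_lit 336194) (nat_lit 12) (.e (nat_lit 385105) (nat_lit 50) (.e (nat_lit 786481) (nat_lit 30) (.e (nat_lit 360456) (nat_lit 0) (.e (nat_lit 5948) (nat_lit 322) .nil)))))) (.g (nat_lit 1) (.e (nat_lit 253454) (nat_lit 0) .nil) .nil))) 
(.lf (nat_lit 534342) (.g (nat_lit 2379) (.e (nat_lit 57476) (nat_lit 28) (.e (nat_lit 557108) (nat_lit 15) (.e (nat_lit 188449) (nat_lit 22) (.e (nat_lit 196666) (nat_lit 13) (.e (nat_lit 65639) (nat_lit 15) (.e (nat_lit 3716) (nat_lit 227) (.e (nat_lit 778316) (nat_lit 3) .nil))))))) (.g (nat_lit 1) (.e (nat_lit 254410) (nat_lit 0) .nil) .nil))))) (.nd (nat_lit 8) (.nd (nat_lit 9) 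
(.lf (nat_lit 533702) (.g (nat_lit 4194) (.e (nat_lit 57412) (nat_lit 12) (.e (nat_lit 336001) (nat_lit 2) (.e (nat_lit 90170) (nat_lit 13) (.e (nat_lit 172106) (nat_lit 10) (.e (nat_lit 434244) (nat_lit 28) (.e (nat_lit 573474) (nat_lit 12) (.e (nat_lit 57348) (nat_lit 0) (.e (nat_lit 7261) (nat_lit 384) .nil)))))))) (.g (nat_lit 1) (.e (nat_lit 253292) (nat_lit 0) .nil) .nil))) 
(.lf (nat_lit 534214) (.g (nat_lit 2981) (.e (nat_lit 57466) (nat_lit 23) (.e (nat_lit 516117) (nat_lit 1) (.e (nat_lit 164403) (nat_lit 256) (.e (nat_lit 57373) (nat_lit 2) (.e (nat_lit 90174) (nat_lit 14) .nil))))) (.g (nat_lit 0) (.e (nat_lit 254132) (nat_lit 0) .nil) .nil)))) (.nd (nat_lit 9) 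
(.lf (nat_lit 533958) (.g (nat_lit 1790) (.e (nat_lit 57448) (nat_lit 19) (.e (nat_lit 393251) (nat_lit 18) (.e (nat_lit 164151) (nat_lit 152) (.e (nat_lit 2635) (nat_lit 165) .nil)))) (.g (nat_lit 0) (.e (nat_lit 253679) (nat_lit 0) .nil) .nil))) 
(.lf (nat_lit 534470) (.g (nat_lit 3061) (.e (nat_lit 57479) (nat_lit 28) (.e (nat_lit 557101) (nat_lit 13) (.e (nat_lit 172097) (nat_lit 9) (.e (nat_lit 426140) (nat_lit 3) (.e (nat_lit 204855) (nat_lit 26) (.e (nat_lit 336253) (nat_lit 15) (.e (nat_lit 3716) (nat_lit 227) (.e (nat_lit 778316) (nat_lit 3) .nil)))))))) (.g (nat_lit 1) (.e (nat_lit 254684) (nat_lit 0) .nil) .nil))))))) 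
(.nd (nat_lit 6) (.nd (nat_lit 7) (.nd (nat_lit 8) (.nd (nat_lit 9) 
(.lf (nat_lit 533542) (.g (nat_lit 2417) (.e (nat_lit 57407) (nat_lit 12) (.e (nat_lit 336456) (nat_lit 34) (.e (nat_lit 483383) (nat_lit 23) (.e (nat_lit 336258) (nat_lit 15) (.e (nat_lit 3248) (nat_lit 197) .nil))))) (.g (nat_lit 0) (.e (nat_lit 253027) (nat_lit 0) .nil) .nil))) 
(.lf (nat_lit 534054) (.g (nat_lit 3360) (.e (nat_lit 57464) (nat_lit 23) (.e (nat_lit 516151) (nat_lit 9) (.e (nat_lit 426286) (nat_lit 10) (.e (nat_lit 434248) (nat_lit 28) (.e (nat_lit 573450) (nat_lit 9) (.e (nat_lit 442) (nat_lit 33) (.e (nat_lit 442112) (nat_lit 3) .nil))))))) (.g (nat_lit 1) (.e (nat_lit 253947) (nat_lit 0) .nil) .nil)))) (.nd (nat_lit 9) 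
(.lf (nat_lit 533798) (.g (nat_lit 3325) (.e (nat_lit 57412) (nat_lit 12) (.e (nat_lit 336226) (nat_lit 14) (.e (nat_lit 401437) (nat_lit 9) (.e (nat_lit 426546) (nat_lit 30) (.e (nat_lit 360455) (nat_lit 0) (.e (nat_lit 5944) (nat_lit 322) .nil)))))) (.g (nat_lit 1) (.e (nat_lit 253403) (nat_lit 0) .nil) .nil))) 
(.lf (nat_lit 534310) (.g (nat_lit 2209) (.e (nat_lit 57476) (nat_lit 28) (.e (nat_lit 557097) (nat_lit 13) (.e (nat_lit 172115) (nat_lit 10) (.e (nat_lit 434231) (nat_lit 23) (.e (nat_lit 532564) (nat_lit 15) .nil))))) (.g (nat_lit 0) (.e (nat_lit 254378) (nat_lit 0) .nil) .nil))))) (.nd (nat_lit 8) (.nd (nat_lit 9) 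
(.lf (nat_lit 533670) (.g (nat_lit 2476) (.e (nat_lit 57411) (nat_lit 12) (.e (nat_lit 336367) (nat_lit 27) (.e (nat_lit 426542) (nat_lit 29) (.e (nat_lit 352313) (nat_lit 23) (.e (nat_lit 98325) (nat_lit 17) (.e (nat_lit 2478) (nat_lit 157) (.e (nat_lit 6400) (nat_lit 339) .nil))))))) (.g (nat_lit 1) (.e (nat_lit 253243) (nat_lit 0) .nil) .nil))) 
(.lf (nat_lit 534182) (.g (nat_lit 1583) (.e (nat_lit 57465) (nat_lit 23) (.e (nat_lit 516129) (nat_lit 3) (.e (nat_lit 221210) (nat_lit 22) (.e (nat_lit 196664) (nat_lit 13) (.e (nat_lit 65571) (nat_lit 3) .nil))))) (.g (nat_lit 0) (.e (nat_lit 254099) (nat_lit 0) .nil) .nil)))) (.nd (nat_lit 9) 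
(.lf (nat_lit 533926) (.g (nat_lit 1440) (.e (nat_lit 57436) (nat_lit 17) (.e (nat_lit 376865) (nat_lit 22) (.e (nat_lit 90160) (nat_lit 11) (.e (nat_lit 24667) (nat_lit 15) .nil)))) (.g (nat_lit 0) (.e (nat_lit 253615) (nat_lit 0) .nil) .nil))) 
(.lf (nat_lit 534438) (.g (nat_lit 3431) (.e (nat_lit 57479) (nat_lit 28) (.e (nat_lit 557100) (nat_lit 13) (.e (nat_lit 172106) (nat_lit 10) (.e (nat_lit 434231) (nat_lit 23) (.e (nat_lit 532529) (nat_lit 9) (.e (nat_lit 336242) (nat_lit 15) (.e (nat_lit 3681) (nat_lit 227) (.e (nat_lit 786176) (nat_lit 3) .nil)))))))) (.g (nat_lit 1) (.e (nat_lit 254652) (nat_lit 0) .nil) .nil)))))) 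
(.nd (nat_lit 7) (.nd (nat_lit 8) (.nd (nat_lit 9) 
(.lf (nat_lit 533606) (.g (nat_lit 2799) (.e (nat_lit 57409) (nat_lit 12) (.e (nat_lit 336443) (nat_lit 32) (.e (nat_lit 466974) (nat_lit 22) (.e (nat_lit 196656) (nat_lit 11) (.e (nat_lit 16392) (nat_lit 0) (.e (nat_lit 2506) (nat_lit 157) (.e (nat_lit 5944) (nat_lit 322) .nil))))))) (.g (nat_lit 1) (.e (nat_lit 253110) (nat_lit 0) .nil) .nil))) 
(.lf (nat_lit 534118) (.g (nat_lit 2120) (.e (nat_lit 57464) (nat_lit 23) (.e (nat_lit 516166) (nat_lit 12) (.e (nat_lit 450587) (nat_lit 10) (.e (nat_lit 573454) (nat_lit 9) (.e (nat_lit 441) (nat_lit 33) (.e (nat_lit 442112) (nat_lit 3) .nil)))))) (.g (nat_lit 1) (.e (nat_lit 254030) (nat_lit 0) .nil) .nil)))) (.nd (nat_lit 9) 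
(.lf (nat_lit 533862) (.g (nat_lit 541) (.e (nat_lit 57426) (nat_lit 15) (.e (nat_lit 360466) (nat_lit 3) (.e (nat_lit 516195) (nat_lit 26) .nil))) (.g (nat_lit 0) (.e (nat_lit 253523) (nat_lit 0) .nil) .nil))) 
(.lf (nat_lit 534374) (.g (nat_lit 4394) (.e (nat_lit 57477) (nat_lit 28) (.e (nat_lit 557095) (nat_lit 13) (.e (nat_lit 172106) (nat_lit 10) (.e (nat_lit 434231) (nat_lit 23) (.e (nat_lit 532535) (nat_lit 9) (.e (nat_lit 336295) (nat_lit 15) (.e (nat_lit 3631) (nat_lit 227) (.e (nat_lit 778317) (nat_lit 3) .nil)))))))) (.g (nat_lit 1) (.e (nat_lit 254488) (nat_lit 0) .nil) .nil))))) 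
(.nd (nat_lit 8) (.nd (nat_lit 9) 
(.lf (nat_lit 533734) (.g (nat_lit 2605) (.e (nat_lit 57412) (nat_lit 12) (.e (nat_lit 336005) (nat_lit 2) (.e (nat_lit 90170) (nat_lit 13) (.e (nat_lit 172113) (nat_lit 10) (.e (nat_lit 434248) (nat_lit 28) (.e (nat_lit 573475) (nat_lit 12) (.e (nat_lit 57351) (nat_lit 0) (.e (nat_lit 7265) (nat_lit 384) .nil)))))))) (.g (nat_lit 1) (.e (nat_lit 253324) (nat_lit 0) .nil) .nil))) 
(.lf (nat_lit 534246) (.g (nat_lit 2575) (.e (nat_lit 57474) (nat_lit 28) (.e (nat_lit 557097) (nat_lit 13) (.e (nat_lit 172115) (nat_lit 10) (.e (nat_lit 434231) (nat_lit 23) (.e (nat_lit 532543) (nat_lit 10) .nil))))) (.g (nat_lit 0) (.e (nat_lit 254194) (nat_lit 0) .nil) .nil)))) (.nd (nat_lit 9) 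
(.lf (nat_lit 533990) (.g (nat_lit 1698) (.e (nat_lit 57464) (nat_lit 23) (.e (nat_lit 516097) (nat_lit 0) (.e (nat_lit 3776) (nat_lit 229) (.e (nat_lit 794684) (nat_lit 25) (.e (nat_lit 221207) (nat_lit 21) (.e (nat_lit 164345) (nat_lit 240) (.e (nat_lit 2639) (nat_lit 165) (.e (nat_lit 188160) (nat_lit 35) .nil)))))))) (.g (nat_lit 1) (.e (nat_lit 253846) (nat_lit 0) .nil) .nil))) 
(.lf (nat_lit 534502) (.g (nat_lit 3467) (.e (nat_lit 57479) (nat_lit 28) (.e (nat_lit 557105) (nat_lit 14) (.e (nat_lit 180252) (nat_lit 10) (.e (nat_lit 573482) (nat_lit 13) (.e (nat_lit 65569) (nat_lit 3) (.e (nat_lit 98321) (nat_lit 17) (.e (nat_lit 7936) (nat_lit 216) (.e (nat_lit 688167) (nat_lit 15) .nil)))))))) (.g (nat_lit 1) (.e (nat_lit 254716) (nat_lit 0) .nil) .nil)))))))) 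
(.nd (nat_lit 5) (.nd (nat_lit 6) (.nd (nat_lit 7) (.nd (nat_lit 8) (.nd (nat_lit 9) 
(.lf (nat_lit 533526) (.g (nat_lit 1313) (.e (nat_lit 57407) (nat_lit 12) (.e (nat_lit 336367) (nat_lit 27) (.e (nat_lit 426482) (nat_lit 27) (.e (nat_lit 336089) (nat_lit 9) (.e (nat_lit 336326) (nat_lit 18) .nil))))) (.g (nat_lit 0) (.e (nat_lit 253010) (nat_lit 0) .nil) .nil))) 
(.lf (nat_lit 534038) (.g (nat_lit 2972) (.e (nat_lit 57464) (nat_lit 23) (.e (nat_lit 516151) (nat_lit 9) (.e (nat_lit 426211) (nat_lit 9) (.e (nat_lit 426125) (nat_lit 2) (.e (nat_lit 196683) (nat_lit 18) (.e (nat_lit 7936) (nat_lit 177) (.e (nat_lit 278552) (nat_lit 10) (.e (nat_lit 5395) (nat_lit 301) .nil)))))))) (.g (nat_lit 1) (.e (nat_lit 253929) (nat_lit 0) .nil) .nil)))) 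
(.nd (nat_lit 9) 
(.lf (nat_lit 533782) (.g (nat_lit 1750) (.e (nat_lit 57412) (nat_lit 12) (.e (nat_lit 336176) (nat_lit 10) (.e (nat_lit 344157) (nat_lit 36) (.e (nat_lit 638985) (nat_lit 5) (.e (nat_lit 3022) (nat_lit 187) (.e (nat_lit 458496) (nat_lit 0) (.e (nat_lit 5200) (nat_lit 294) .nil))))))) (.g (nat_lit 1) (.e (nat_lit 253373) (nat_lit 0) .nil) .nil))) 
(.lf (nat_lit 534294) (.g (nat_lit 2908) (.e (nat_lit 57476) (nat_lit 28) (.e (nat_lit 557097) (nat_lit 13) (.e (nat_lit 172115) (nat_lit 10) (.e (nat_lit 434231) (nat_lit 23) (.e (nat_lit 532528) (nat_lit 9) (.e (nat_lit 336263) (nat_lit 15) (.e (nat_lit 3630) (nat_lit 227) (.e (nat_lit 778318) (nat_lit 3) .nil)))))))) (.g (nat_lit 1) (.e (nat_lit 254362) (nat_lit 0) .nil) .nil))))) 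
(.nd (nat_lit 8) (.nd (nat_lit 9) 
(.lf (nat_lit 533654) (.g (nat_lit 5743) (.e (nat_lit 57411) (nat_lit 12) (.e (nat_lit 336019) (nat_lit 3) (.e (nat_lit 98373) (nat_lit 29) (.e (nat_lit 450588) (nat_lit 10) (.e (nat_lit 573475) (nat_lit 12) (.e (nat_lit 57348) (nat_lit 0) (.e (nat_lit 7261) (nat_lit 384) .nil))))))) (.g (nat_lit 1) (.e (nat_lit 253205) (nat_lit 0) .nil) .nil))) 
(.lf (nat_lit 534166) (.g (nat_lit 2739) (.e (nat_lit 57465) (nat_lit 23) (.e (nat_lit 516115) (nat_lit 1) (.e (nat_lit 164398) (nat_lit 256) (.e (nat_lit 57372) (nat_lit 2) (.e (nat_lit 90174) (nat_lit 14) .nil))))) (.g (nat_lit 0) (.e (nat_lit 254081) (nat_lit 0) .nil) .nil)))) (.nd (nat_lit 9) 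
(.lf (nat_lit 533910) (.g (nat_lit 4480) (.e (nat_lit 57431) (nat_lit 16) (.e (nat_lit 368676) (nat_lit 21) (.e (nat_lit 516166) (nat_lit 12) (.e (nat_lit 450587) (nat_lit 10) (.e (nat_lit 573478) (nat_lit 12) (.e (nat_lit 57353) (nat_lit 0) (.e (nat_lit 7261) (nat_lit 384) .nil))))))) (.g (nat_lit 1) (.e (nat_lit 253582) (nat_lit 0) .nil) .nil))) 
(.lf (nat_lit 534422) (.g (nat_lit 4486) (.e (nat_lit 57478) (nat_lit 28) (.e (nat_lit 557108) (nat_lit 15) (.e (nat_lit 188452) (nat_lit 23) (.e (nat_lit 204862) (nat_lit 27) (.e (nat_lit 344169) (nat_lit 40) .nil))))) (.g (nat_lit 0) (.e (nat_lit 254590) (nat_lit 0) .nil) .nil)))))) (.nd (nat_lit 7) (.nd (nat_lit 8) (.nd (nat_lit 9) 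
(.lf (nat_lit 533590) (.g (nat_lit 2890) (.e (nat_lit 57409) (nat_lit 12) (.e (nat_lit 336326) (nat_lit 18) (.e (nat_lit 204869) (nat_lit 29) (.e (nat_lit 360449) (nat_lit 0) (.e (nat_lit 7695) (nat_lit 412) .nil))))) (.g (nat_lit 0) (.e (nat_lit 253093) (nat_lit 0) .nil) .nil))) 
(.lf (nat_lit 534102) (.g (nat_lit 2935) (.e (nat_lit 57464) (nat_lit 23) (.e (nat_lit 516165) (nat_lit 12) (.e (nat_lit 450588) (nat_lit 10) (.e (nat_lit 573452) (nat_lit 9) (.e (nat_lit 359) (nat_lit 30) (.e (nat_lit 409605) (nat_lit 0) (.e (nat_lit 5394) (nat_lit 301) .nil))))))) (.g (nat_lit 1) (.e (nat_lit 254008) (nat_lit 0) .nil) .nil)))) (.nd (nat_lit 9) 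
(.lf (nat_lit 533846) (.g (nat_lit 1597) (.e (nat_lit 57420) (nat_lit 13) (.e (nat_lit 344133) (nat_lit 26) (.e (nat_lit 557068) (nat_lit 9) (.e (nat_lit 3104) (nat_lit 192) .nil)))) (.g (nat_lit 0) (.e (nat_lit 253485) (nat_lit 0) .nil) .nil))) 
(.lf (nat_lit 534358) (.g (nat_lit 2666) (.e (nat_lit 57476) (nat_lit 28) (.e (nat_lit 557108) (nat_lit 15) (.e (nat_lit 188452) (nat_lit 23) (.e (nat_lit 204855) (nat_lit 26) (.e (nat_lit 336253) (nat_lit 15) (.e (nat_lit 3716) (nat_lit 227) (.e (nat_lit 778316) (nat_lit 3) .nil))))))) (.g (nat_lit 1) (.e (nat_lit 254426) (nat_lit 0) .nil) .nil))))) (.nd (nat_lit 8) (.nd (nat_lit 9) 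
(.lf (nat_lit 533718) (.g (nat_lit 3921) (.e (nat_lit 57412) (nat_lit 12) (.e (nat_lit 336001) (nat_lit 2) (.e (nat_lit 90170) (nat_lit 13) (.e (nat_lit 172113) (nat_lit 10) (.e (nat_lit 434248) (nat_lit 28) (.e (nat_lit 573473) (nat_lit 12) (.e (nat_lit 57353) (nat_lit 0) (.e (nat_lit 7261) (nat_lit 384) .nil)))))))) (.g (nat_lit 1) (.e (nat_lit 253308) (nat_lit 0) .nil) .nil))) 
(.lf (nat_lit 534230) (.g (nat_lit 2719) (.e (nat_lit 57467) (nat_lit 23) (.e (nat_lit 516115) (nat_lit 1) (.e (nat_lit 164398) (nat_lit 256) (.e (nat_lit 57372) (nat_lit 2) (.e (nat_lit 90174) (nat_lit 14) .nil))))) (.g (nat_lit 0) (.e (nat_lit 254158) (nat_lit 0) .nil) .nil)))) (.nd (nat_lit 9) 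
(.lf (nat_lit 533974) (.g (nat_lit 2667) (.e (nat_lit 57451) (nat_lit 20) (.e (nat_lit 401448) (nat_lit 10) (.e (nat_lit 434271) (nat_lit 38) (.e (nat_lit 655363) (nat_lit 0) (.e (nat_lit 3022) (nat_lit 187) (.e (nat_lit 450569) (nat_lit 0) (.e (nat_lit 5947) (nat_lit 322) .nil))))))) (.g (nat_lit 1) (.e (nat_lit 253715) (nat_lit 0) .nil) .nil))) 
(.lf (nat_lit 534486) (.g (nat_lit 3587) (.e (nat_lit 57479) (nat_lit 28) (.e (nat_lit 557105) (nat_lit 14) (.e (nat_lit 180251) (nat_lit 10) (.e (nat_lit 573485) (nat_lit 13) (.e (nat_lit 65569) (nat_lit 3) (.e (nat_lit 98321) (nat_lit 17) (.e (nat_lit 7936) (nat_lit 216) (.e (nat_lit 688165) (nat_lit 15) .nil)))))))) (.g (nat_lit 1) (.e (nat_lit 254700) (nat_lit 0) .nil) .nil))))))) 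
(.nd (nat_lit 6) (.nd (nat_lit 7) (.nd (nat_lit 8) (.nd (nat_lit 9) 
(.lf (nat_lit 533558) (.g (nat_lit 5099) (.e (nat_lit 57408) (nat_lit 12) (.e (nat_lit 336019) (nat_lit 3) (.e (nat_lit 98373) (nat_lit 29) (.e (nat_lit 450588) (nat_lit 10) (.e (nat_lit 573475) (nat_lit 12) .nil))))) (.g (nat_lit 0) (.e (nat_lit 253043) (nat_lit 0) .nil) .nil))) 
(.lf (nat_lit 534070) (.g (nat_lit 1348) (.e (nat_lit 57464) (nat_lit 23) (.e (nat_lit 516163) (nat_lit 11) (.e (nat_lit 442412) (nat_lit 20) (.e (nat_lit 3271) (nat_lit 199) (.e (nat_lit 548914) (nat_lit 19) (.e (nat_lit 188160) (nat_lit 35) .nil)))))) (.g (nat_lit 1) (.e (nat_lit 253973) (nat_lit 0) .nil) .nil)))) (.nd (nat_lit 9) 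
(.lf (nat_lit 533814) (.g (nat_lit 3140) (.e (nat_lit 57418) (nat_lit 12) (.e (nat_lit 336027) (nat_lit 3) (.e (nat_lit 98373) (nat_lit 29) (.e (nat_lit 450587) (nat_lit 10) (.e (nat_lit 573475) (nat_lit 12) .nil))))) (.g (nat_lit 0) (.e (nat_lit 253431) (nat_lit 0) .nil) .nil))) 
(.lf (nat_lit 534326) (.g (nat_lit 2823) (.e (nat_lit 57476) (nat_lit 28) (.e (nat_lit 557107) (nat_lit 15) (.e (nat_lit 188450) (nat_lit 23) (.e (nat_lit 204852) (nat_lit 26) (.e (nat_lit 336303) (nat_lit 15) (.e (nat_lit 3629) (nat_lit 227) (.e (nat_lit 778318) (nat_lit 3) .nil))))))) (.g (nat_lit 1) (.e (nat_lit 254394) (nat_lit 0) .nil) .nil))))) (.nd (nat_lit 8) (.nd (nat_lit 9) 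
(.lf (nat_lit 533686) (.g (nat_lit 693) (.e (nat_lit 57411) (nat_lit 12) (.e (nat_lit 336456) (nat_lit 34) (.e (nat_lit 483387) (nat_lit 23) .nil))) (.g (nat_lit 0) (.e (nat_lit 253276) (nat_lit 0) .nil) .nil))) 
(.lf (nat_lit 534198) (.g (nat_lit 4004) (.e (nat_lit 57466) (nat_lit 23) (.e (nat_lit 516115) (nat_lit 1) (.e (nat_lit 164325) (nat_lit 230) (.e (nat_lit 163873) (nat_lit 3) (.e (nat_lit 204809) (nat_lit 9) (.e (nat_lit 426139) (nat_lit 3) (.e (nat_lit 204835) (nat_lit 19) (.e (nat_lit 106539) (nat_lit 12) .nil)))))))) (.g (nat_lit 1) (.e (nat_lit 254116) (nat_lit 0) .nil) .nil)))) 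
(.nd (nat_lit 9) 
(.lf (nat_lit 533942) (.g (nat_lit 1559) (.e (nat_lit 57442) (nat_lit 18) (.e (nat_lit 385068) (nat_lit 26) (.e (nat_lit 532515) (nat_lit 3) (.e (nat_lit 114723) (nat_lit 24) .nil)))) (.g (nat_lit 0) (.e (nat_lit 253650) (nat_lit 0) .nil) .nil))) 
(.lf (nat_lit 534454) (.g (nat_lit 2258) (.e (nat_lit 57479) (nat_lit 28) (.e (nat_lit 557100) (nat_lit 13) (.e (nat_lit 172106) (nat_lit 10) (.e (nat_lit 434231) (nat_lit 23) (.e (nat_lit 532535) (nat_lit 9) (.e (nat_lit 336290) (nat_lit 15) (.e (nat_lit 3681) (nat_lit 227) (.e (nat_lit 786176) (nat_lit 3) .nil)))))))) (.g (nat_lit 1) (.e (nat_lit 254668) (nat_lit 0) .nil) .nil)))))) 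
(.nd (nat_lit 7) (.nd (nat_lit 8) (.nd (nat_lit 9) 
(.lf (nat_lit 533622) (.g (nat_lit 1148) (.e (nat_lit 57409) (nat_lit 12) (.e (nat_lit 336454) (nat_lit 34) (.e (nat_lit 483385) (nat_lit 23) (.e (nat_lit 336260) (nat_lit 15) .nil)))) (.g (nat_lit 0) (.e (nat_lit 253127) (nat_lit 0) .nil) .nil))) 
(.lf (nat_lit 534134) (.g (nat_lit 4007) (.e (nat_lit 57464) (nat_lit 23) (.e (nat_lit 516166) (nat_lit 12) (.e (nat_lit 450588) (nat_lit 10) (.e (nat_lit 573451) (nat_lit 9) (.e (nat_lit 365) (nat_lit 31) (.e (nat_lit 417794) (nat_lit 0) (.e (nat_lit 5395) (nat_lit 301) .nil))))))) (.g (nat_lit 1) (.e (nat_lit 254046) (nat_lit 0) .nil) .nil)))) (.nd (nat_lit 9) 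
(.lf (nat_lit 533878) (.g (nat_lit 2601) (.e (nat_lit 57430) (nat_lit 16) (.e (nat_lit 368676) (nat_lit 21) (.e (nat_lit 516165) (nat_lit 12) (.e (nat_lit 450586) (nat_lit 10) (.e (nat_lit 573478) (nat_lit 12) .nil))))) (.g (nat_lit 0) (.e (nat_lit 253548) (nat_lit 0) .nil) .nil))) 
(.lf (nat_lit 534390) (.g (nat_lit 2592) (.e (nat_lit 57477) (nat_lit 28) (.e (nat_lit 557108) (nat_lit 15) (.e (nat_lit 188449) (nat_lit 22) (.e (nat_lit 196666) (nat_lit 13) (.e (nat_lit 65639) (nat_lit 15) (.e (nat_lit 3715) (nat_lit 227) (.e (nat_lit 778316) (nat_lit 3) .nil))))))) (.g (nat_lit 1) (.e (nat_lit 254504) (nat_lit 0) .nil) .nil))))) (.nd (nat_lit 8) (.nd (nat_lit 9) 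
(.lf (nat_lit 533750) (.g (nat_lit 3092) (.e (nat_lit 57412) (nat_lit 12) (.e (nat_lit 336008) (nat_lit 2) (.e (nat_lit 90170) (nat_lit 13) (.e (nat_lit 172113) (nat_lit 10) (.e (nat_lit 434248) (nat_lit 28) (.e (nat_lit 573475) (nat_lit 12) (.e (nat_lit 57348) (nat_lit 0) (.e (nat_lit 7261) (nat_lit 384) .nil)))))))) (.g (nat_lit 1) (.e (nat_lit 253340) (nat_lit 0) .nil) .nil))) 
(.lf (nat_lit 534262) (.g (nat_lit 2200) (.e (nat_lit 57475) (nat_lit 28) (.e (nat_lit 557098) (nat_lit 13) (.e (nat_lit 172115) (nat_lit 10) (.e (nat_lit 434231) (nat_lit 23) (.e (nat_lit 532530) (nat_lit 9) .nil))))) (.g (nat_lit 0) (.e (nat_lit 254212) (nat_lit 0) .nil) .nil)))) (.nd (nat_lit 9) 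
(.lf (nat_lit 534006) (.g (nat_lit 607) (.e (nat_lit 57464) (nat_lit 23) (.e (nat_lit 516139) (nat_lit 7) (.e (nat_lit 409643) (nat_lit 18) .nil))) (.g (nat_lit 0) (.e (nat_lit 253895) (nat_lit 0) .nil) .nil))) 
(.lf (nat_lit 534518) (.g (nat_lit 4357) (.e (nat_lit 57479) (nat_lit 28) (.e (nat_lit 557105) (nat_lit 14) (.e (nat_lit 180252) (nat_lit 10) (.e (nat_lit 573488) (nat_lit 14) (.e (nat_lit 73747) (nat_lit 3) (.e (nat_lit 516097) (nat_lit 0) (.e (nat_lit 3455) (nat_lit 216) (.e (nat_lit 688167) (nat_lit 15) .nil)))))))) (.g (nat_lit 1) (.e (nat_lit 254732) (nat_lit 0) .nil) .nil))))))))) 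
(.nd (nat_lit 4) (.nd (nat_lit 5) (.nd (nat_lit 6) (.nd (nat_lit 7) (.nd (nat_lit 8) 
(.nd (nat_lit 9) 
(.lf (nat_lit 533518) (.g (nat_lit 4830) (.e (nat_lit 57407) (nat_lit 12) (.e (nat_lit 336019) (nat_lit 3) (.e (nat_lit 98373) (nat_lit 29) (.e (nat_lit 450588) (nat_lit 10) (.e (nat_lit 573475) (nat_lit 12) .nil))))) (.g (nat_lit 0) (.e (nat_lit 252986) (nat_lit 0) .nil) .nil))) 
(.lf (nat_lit 534030) (.g (nat_lit 2884) (.e (nat_lit 57464) (nat_lit 23) (.e (nat_lit 516142) (nat_lit 8) (.e (nat_lit 417809) (nat_lit 6) (.e (nat_lit 286733) (nat_lit 2) (.e (nat_lit 90128) (nat_lit 9) (.e (nat_lit 3031) (nat_lit 188) (.e (nat_lit 466688) (nat_lit 3) .nil))))))) (.g (nat_lit 1) (.e (nat_lit 253920) (nat_lit 0) .nil) .nil)))) (.nd (nat_lit 9) 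
(.lf (nat_lit 533774) (.g (nat_lit 441) (.e (nat_lit 57412) (nat_lit 12) (.e (nat_lit 336173) (nat_lit 10) (.e (nat_lit 344155) (nat_lit 36) .nil))) (.g (nat_lit 0) (.e (nat_lit 253365) (nat_lit 0) .nil) .nil))) 
(.lf (nat_lit 534286) (.g (nat_lit 3188) (.e (nat_lit 57476) (nat_lit 28) (.e (nat_lit 557097) (nat_lit 13) (.e (nat_lit 172097) (nat_lit 9) (.e (nat_lit 426125) (nat_lit 2) (.e (nat_lit 196666) (nat_lit 13) (.e (nat_lit 65639) (nat_lit 15) (.e (nat_lit 3711) (nat_lit 227) (.e (nat_lit 778316) (nat_lit 3) .nil)))))))) (.g (nat_lit 1) (.e (nat_lit 254354) (nat_lit 0) .nil) .nil))))) 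
(.nd (nat_lit 8) (.nd (nat_lit 9) 
(.lf (nat_lit 533646) (.g (nat_lit 4467) (.e (nat_lit 57411) (nat_lit 12) (.e (nat_lit 336019) (nat_lit 3) (.e (nat_lit 98373) (nat_lit 29) (.e (nat_lit 450587) (nat_lit 10) (.e (nat_lit 573477) (nat_lit 12) (.e (nat_lit 57352) (nat_lit 0) (.e (nat_lit 7261) (nat_lit 384) .nil))))))) (.g (nat_lit 1) (.e (nat_lit 253197) (nat_lit 0) .nil) .nil))) 
(.lf (nat_lit 534158) (.g (nat_lit 1696) (.e (nat_lit 57464) (nat_lit 23) (.e (nat_lit 516183) (nat_lit 16) (.e (nat_lit 491571) (nat_lit 13) (.e (nat_lit 393242) (nat_lit 17) .nil)))) (.g (nat_lit 0) (.e (nat_lit 254073) (nat_lit 0) .nil) .nil)))) (.nd (nat_lit 9) 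
(.lf (nat_lit 533902) (.g (nat_lit 2687) (.e (nat_lit 57431) (nat_lit 16) (.e (nat_lit 368676) (nat_lit 21) (.e (nat_lit 516165) (nat_lit 12) (.e (nat_lit 450586) (nat_lit 10) (.e (nat_lit 573478) (nat_lit 12) (.e (nat_lit 57351) (nat_lit 0) (.e (nat_lit 7261) (nat_lit 384) .nil))))))) (.g (nat_lit 1) (.e (nat_lit 253574) (nat_lit 0) .nil) .nil))) 
(.lf (nat_lit 534414) (.g (nat_lit 2689) (.e (nat_lit 57478) (nat_lit 28) (.e (nat_lit 557101) (nat_lit 13) (.e (nat_lit 172115) (nat_lit 10) (.e (nat_lit 434231) (nat_lit 23) (.e (nat_lit 532535) (nat_lit 9) (.e (nat_lit 336290) (nat_lit 15) (.e (nat_lit 3714) (nat_lit 227) (.e (nat_lit 786176) (nat_lit 3) .nil)))))))) (.g (nat_lit 1) (.e (nat_lit 254566) (nat_lit 0) .nil) .nil)))))) 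
(.nd (nat_lit 7) (.nd (nat_lit 8) (.nd (nat_lit 9) 
(.lf (nat_lit 533582) (.g (nat_lit 2202) (.e (nat_lit 57409) (nat_lit 12) (.e (nat_lit 336316) (nat_lit 17) (.e (nat_lit 196666) (nat_lit 13) (.e (nat_lit 65617) (nat_lit 10) (.e (nat_lit 344088) (nat_lit 18) (.e (nat_lit 7697) (nat_lit 412) (.e (nat_lit 57364) (nat_lit 1) (.e (nat_lit 57854) (nat_lit 252) .nil)))))))) (.g (nat_lit 1) (.e (nat_lit 253077) (nat_lit 0) .nil) .nil))) 
(.lf (nat_lit 534094) (.g (nat_lit 3252) (.e (nat_lit 57464) (nat_lit 23) (.e (nat_lit 516165) (nat_lit 12) (.e (nat_lit 450586) (nat_lit 10) (.e (nat_lit 573470) (nat_lit 11) (.e (nat_lit 16388) (nat_lit 0) (.e (nat_lit 7581) (nat_lit 405) .nil)))))) (.g (nat_lit 1) (.e (nat_lit 254000) (nat_lit 0) .nil) .nil)))) (.nd (nat_lit 9) 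
(.lf (nat_lit 533838) (.g (nat_lit 1024) (.e (nat_lit 57419) (nat_lit 12) (.e (nat_lit 336194) (nat_lit 12) (.e (nat_lit 385106) (nat_lit 50) (.e (nat_lit 786483) (nat_lit 30) .nil)))) (.g (nat_lit 0) (.e (nat_lit 253462) (nat_lit 0) .nil) .nil))) 
(.lf (nat_lit 534350) (.g (nat_lit 3595) (.e (nat_lit 57476) (nat_lit 28) (.e (nat_lit 557108) (nat_lit 15) (.e (nat_lit 188452) (nat_lit 23) (.e (nat_lit 204852) (nat_lit 26) (.e (nat_lit 336263) (nat_lit 15) (.e (nat_lit 3631) (nat_lit 227) (.e (nat_lit 778318) (nat_lit 3) .nil))))))) (.g (nat_lit 1) (.e (nat_lit 254418) (nat_lit 0) .nil) .nil))))) (.nd (nat_lit 8) (.nd (nat_lit 9) 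
(.lf (nat_lit 533710) (.g (nat_lit 4327) (.e (nat_lit 57412) (nat_lit 12) (.e (nat_lit 336001) (nat_lit 2) (.e (nat_lit 90170) (nat_lit 13) (.e (nat_lit 172113) (nat_lit 10) (.e (nat_lit 434245) (nat_lit 28) (.e (nat_lit 573474) (nat_lit 12) (.e (nat_lit 57347) (nat_lit 0) (.e (nat_lit 7263) (nat_lit 384) .nil)))))))) (.g (nat_lit 1) (.e (nat_lit 253300) (nat_lit 0) .nil) .nil))) 
(.lf (nat_lit 534222) (.g (nat_lit 1407) (.e (nat_lit 57466) (nat_lit 23) (.e (nat_lit 516131) (nat_lit 3) (.e (nat_lit 221215) (nat_lit 23) (.e (nat_lit 204854) (nat_lit 26) .nil)))) (.g (nat_lit 0) (.e (nat_lit 254140) (nat_lit 0) .nil) .nil)))) (.nd (nat_lit 9) 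
(.lf (nat_lit 533966) (.g (nat_lit 769) (.e (nat_lit 57449) (nat_lit 20) (.e (nat_lit 401454) (nat_lit 12) (.e (nat_lit 475210) (nat_lit 41) .nil))) (.g (nat_lit 0) (.e (nat_lit 253690) (nat_lit 0) .nil) .nil))) 
(.lf (nat_lit 534478) (.g (nat_lit 2264) (.e (nat_lit 57479) (nat_lit 28) (.e (nat_lit 557101) (nat_lit 13) (.e (nat_lit 172115) (nat_lit 10) (.e (nat_lit 434231) (nat_lit 23) (.e (nat_lit 532535) (nat_lit 9) (.e (nat_lit 336290) (nat_lit 15) (.e (nat_lit 3715) (nat_lit 227) (.e (nat_lit 786176) (nat_lit 3) .nil)))))))) (.g (nat_lit 1) (.e (nat_lit 254692) (nat_lit 0) .nil) .nil))))))) 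
(.nd (nat_lit 6) (.nd (nat_lit 7) (.nd (nat_lit 8) (.nd (nat_lit 9) 
(.lf (nat_lit 533550) (.g (nat_lit 2649) (.e (nat_lit 57407) (nat_lit 12) (.e (nat_lit 336456) (nat_lit 34) (.e (nat_lit 483391) (nat_lit 23) (.e (nat_lit 336323) (nat_lit 18) (.e (nat_lit 204831) (nat_lit 18) (.e (nat_lit 57846) (nat_lit 252) .nil)))))) (.g (nat_lit 1) (.e (nat_lit 253035) (nat_lit 0) .nil) .nil))) 
(.lf (nat_lit 534062) (.g (nat_lit 2196) (.e (nat_lit 57464) (nat_lit 23) (.e (nat_lit 516151) (nat_lit 9) (.e (nat_lit 426286) (nat_lit 10) (.e (nat_lit 434248) (nat_lit 28) (.e (nat_lit 573470) (nat_lit 11) (.e (nat_lit 16386) (nat_lit 0) (.e (nat_lit 7583) (nat_lit 405) .nil))))))) (.g (nat_lit 1) (.e (nat_lit 253955) (nat_lit 0) .nil) .nil)))) (.nd (nat_lit 9) 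
(.lf (nat_lit 533806) (.g (nat_lit 2486) (.e (nat_lit 57413) (nat_lit 12) (.e (nat_lit 336001) (nat_lit 2) (.e (nat_lit 90170) (nat_lit 13) (.e (nat_lit 172113) (nat_lit 10) (.e (nat_lit 434245) (nat_lit 28) (.e (nat_lit 573474) (nat_lit 12) (.e (nat_lit 57347) (nat_lit 0) (.e (nat_lit 7261) (nat_lit 384) .nil)))))))) (.g (nat_lit 1) (.e (nat_lit 253420) (nat_lit 0) .nil) .nil))) 
(.lf (nat_lit 534318) (.g (nat_lit 2427) (.e (nat_lit 57476) (nat_lit 28) (.e (nat_lit 557107) (nat_lit 15) (.e (nat_lit 188447) (nat_lit 22) (.e (nat_lit 196666) (nat_lit 13) (.e (nat_lit 65639) (nat_lit 15) (.e (nat_lit 3715) (nat_lit 227) (.e (nat_lit 778316) (nat_lit 3) .nil))))))) (.g (nat_lit 1) (.e (nat_lit 254386) (nat_lit 0) .nil) .nil))))) (.nd (nat_lit 8) (.nd (nat_lit 9) 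
(.lf (nat_lit 533678) (.g (nat_lit 2112) (.e (nat_lit 57411) (nat_lit 12) (.e (nat_lit 336454) (nat_lit 34) (.e (nat_lit 483385) (nat_lit 23) (.e (nat_lit 336306) (nat_lit 15) (.e (nat_lit 3238) (nat_lit 197) (.e (nat_lit 532502) (nat_lit 1) (.e (nat_lit 57847) (nat_lit 252) .nil))))))) (.g (nat_lit 1) (.e (nat_lit 253255) (nat_lit 0) .nil) .nil))) 
(.lf (nat_lit 534190) (.g (nat_lit 1967) (.e (nat_lit 57465) (nat_lit 23) (.e (nat_lit 516129) (nat_lit 3) (.e (nat_lit 221210) (nat_lit 22) (.e (nat_lit 196668) (nat_lit 14) (.e (nat_lit 73747) (nat_lit 3) (.e (nat_lit 516100) (nat_lit 0) (.e (nat_lit 7936) (nat_lit 216) (.e (nat_lit 688170) (nat_lit 15) .nil)))))))) (.g (nat_lit 1) (.e (nat_lit 254107) (nat_lit 0) .nil) .nil)))) 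
(.nd (nat_lit 9) 
(.lf (nat_lit 533934) (.g (nat_lit 1820) (.e (nat_lit 57437) (nat_lit 17) (.e (nat_lit 376835) (nat_lit 0) (.e (nat_lit 3748) (nat_lit 228) (.e (nat_lit 786483) (nat_lit 30) (.e (nat_lit 368384) (nat_lit 0) (.e (nat_lit 5936) (nat_lit 322) .nil)))))) (.g (nat_lit 1) (.e (nat_lit 253632) (nat_lit 0) .nil) .nil))) 
(.lf (nat_lit 534446) (.g (nat_lit 2139) (.e (nat_lit 57479) (nat_lit 28) (.e (nat_lit 557100) (nat_lit 13) (.e (nat_lit 172106) (nat_lit 10) (.e (nat_lit 434231) (nat_lit 23) (.e (nat_lit 532529) (nat_lit 9) (.e (nat_lit 336296) (nat_lit 15) (.e (nat_lit 3715) (nat_lit 227) (.e (nat_lit 786176) (nat_lit 3) .nil)))))))) (.g (nat_lit 1) (.e (nat_lit 254660) (nat_lit 0) .nil) .nil)))))) 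
(.nd (nat_lit 7) (.nd (nat_lit 8) (.nd (nat_lit 9) 
(.lf (nat_lit 533614) (.g (nat_lit 2700) (.e (nat_lit 57409) (nat_lit 12) (.e (nat_lit 336452) (nat_lit 34) (.e (nat_lit 483382) (nat_lit 23) (.e (nat_lit 336324) (nat_lit 18) (.e (nat_lit 204831) (nat_lit 18) (.e (nat_lit 57852) (nat_lit 252) .nil)))))) (.g (nat_lit 1) (.e (nat_lit 253119) (nat_lit 0) .nil) .nil))) 
(.lf (nat_lit 534126) (.g (nat_lit 3917) (.e (nat_lit 57464) (nat_lit 23) (.e (nat_lit 516166) (nat_lit 12) (.e (nat_lit 450588) (nat_lit 10) (.e (nat_lit 573448) (nat_lit 9) (.e (nat_lit 473) (nat_lit 36) (.e (nat_lit 466688) (nat_lit 3) .nil)))))) (.g (nat_lit 1) (.e (nat_lit 254038) (nat_lit 0) .nil) .nil)))) (.nd (nat_lit 9) 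
(.lf (nat_lit 533870) (.g (nat_lit 3430) (.e (nat_lit 57430) (nat_lit 16) (.e (nat_lit 368676) (nat_lit 21) (.e (nat_lit 516165) (nat_lit 12) (.e (nat_lit 450586) (nat_lit 10) (.e (nat_lit 573473) (nat_lit 12) (.e (nat_lit 57353) (nat_lit 0) (.e (nat_lit 7265) (nat_lit 384) .nil))))))) (.g (nat_lit 1) (.e (nat_lit 253540) (nat_lit 0) .nil) .nil))) 
(.lf (nat_lit 534382) (.g (nat_lit 3144) (.e (nat_lit 57477) (nat_lit 28) (.e (nat_lit 557107) (nat_lit 15) (.e (nat_lit 188447) (nat_lit 22) (.e (nat_lit 196666) (nat_lit 13) (.e (nat_lit 65638) (nat_lit 15) .nil))))) (.g (nat_lit 0) (.e (nat_lit 254496) (nat_lit 0) .nil) .nil))))) (.nd (nat_lit 8) (.nd (nat_lit 9) 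
(.lf (nat_lit 533742) (.g (nat_lit 3038) (.e (nat_lit 57412) (nat_lit 12) (.e (nat_lit 336008) (nat_lit 2) (.e (nat_lit 90170) (nat_lit 13) (.e (nat_lit 172113) (nat_lit 10) (.e (nat_lit 434245) (nat_lit 28) (.e (nat_lit 573474) (nat_lit 12) (.e (nat_lit 57347) (nat_lit 0) (.e (nat_lit 7263) (nat_lit 384) .nil)))))))) (.g (nat_lit 1) (.e (nat_lit 253332) (nat_lit 0) .nil) .nil))) 
(.lf (nat_lit 534254) (.g (nat_lit 3541) (.e (nat_lit 57474) (nat_lit 28) (.e (nat_lit 557108) (nat_lit 15) (.e (nat_lit 188452) (nat_lit 23) (.e (nat_lit 204880) (nat_lit 32) .nil)))) (.g (nat_lit 0) (.e (nat_lit 254202) (nat_lit 0) .nil) .nil)))) (.nd (nat_lit 9) 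
(.lf (nat_lit 533998) (.g (nat_lit 2164) (.e (nat_lit 57464) (nat_lit 23) (.e (nat_lit 516115) (nat_lit 1) (.e (nat_lit 164399) (nat_lit 256) (.e (nat_lit 57372) (nat_lit 2) (.e (nat_lit 90174) (nat_lit 14) .nil))))) (.g (nat_lit 0) (.e (nat_lit 253858) (nat_lit 0) .nil) .nil))) 
(.lf (nat_lit 534510) (.g (nat_lit 3326) (.e (nat_lit 57479) (nat_lit 28) (.e (nat_lit 557105) (nat_lit 14) (.e (nat_lit 180252) (nat_lit 10) (.e (nat_lit 573482) (nat_lit 13) (.e (nat_lit 65571) (nat_lit 3) (.e (nat_lit 98321) (nat_lit 17) (.e (nat_lit 7936) (nat_lit 216) (.e (nat_lit 688167) (nat_lit 15) .nil)))))))) (.g (nat_lit 1) (.e (nat_lit 254724) (nat_lit 0) .nil) .nil)))))))) 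
(.nd (nat_lit 5) (.nd (nat_lit 6) (.nd (nat_lit 7) (.nd (nat_lit 8) (.nd (nat_lit 9) 
(.lf (nat_lit 533534) (.g (nat_lit 3822) (.e (nat_lit 57407) (nat_lit 12) (.e (nat_lit 336456) (nat_lit 34) (.e (nat_lit 483378) (nat_lit 23) (.e (nat_lit 336324) (nat_lit 18) (.e (nat_lit 204831) (nat_lit 18) (.e (nat_lit 57848) (nat_lit 252) .nil)))))) (.g (nat_lit 1) (.e (nat_lit 253019) (nat_lit 0) .nil) .nil))) 
(.lf (nat_lit 534046) (.g (nat_lit 2934) (.e (nat_lit 57464) (nat_lit 23) (.e (nat_lit 516151) (nat_lit 9) (.e (nat_lit 426286) (nat_lit 10) (.e (nat_lit 434245) (nat_lit 28) (.e (nat_lit 573458) (nat_lit 9) (.e (nat_lit 7936) (nat_lit 36) (.e (nat_lit 466688) (nat_lit 3) .nil))))))) (.g (nat_lit 1) (.e (nat_lit 253939) (nat_lit 0) .nil) .nil)))) (.nd (nat_lit 9) 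
(.lf (nat_lit 533790) (.g (nat_lit 1531) (.e (nat_lit 57412) (nat_lit 12) (.e (nat_lit 336176) (nat_lit 10) (.e (nat_lit 344157) (nat_lit 36) (.e (nat_lit 638986) (nat_lit 5) (.e (nat_lit 3027) (nat_lit 187) (.e (nat_lit 458496) (nat_lit 0) (.e (nat_lit 5202) (nat_lit 294) .nil))))))) (.g (nat_lit 1) (.e (nat_lit 253381) (nat_lit 0) .nil) .nil))) 
(.lf (nat_lit 534302) (.g (nat_lit 4817) (.e (nat_lit 57476) (nat_lit 28) (.e (nat_lit 557097) (nat_lit 13) (.e (nat_lit 172115) (nat_lit 10) (.e (nat_lit 434231) (nat_lit 23) (.e (nat_lit 532535) (nat_lit 9) (.e (nat_lit 336280) (nat_lit 15) (.e (nat_lit 3627) (nat_lit 227) (.e (nat_lit 778318) (nat_lit 3) .nil)))))))) (.g (nat_lit 1) (.e (nat_lit 254370) (nat_lit 0) .nil) .nil))))) 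
(.nd (nat_lit 8) (.nd (nat_lit 9) 
(.lf (nat_lit 533662) (.g (nat_lit 2634) (.e (nat_lit 57411) (nat_lit 12) (.e (nat_lit 336316) (nat_lit 17) (.e (nat_lit 196666) (nat_lit 13) (.e (nat_lit 65610) (nat_lit 10) (.e (nat_lit 344090) (nat_lit 18) (.e (nat_lit 7695) (nat_lit 412) (.e (nat_lit 57366) (nat_lit 1) (.e (nat_lit 57847) (nat_lit 252) .nil)))))))) (.g (nat_lit 1) (.e (nat_lit 253222) (nat_lit 0) .nil) .nil))) 
(.lf (nat_lit 534174) (.g (nat_lit 2021) (.e (nat_lit 57465) (nat_lit 23) (.e (nat_lit 516117) (nat_lit 1) (.e (nat_lit 164330) (nat_lit 230) (.e (nat_lit 163873) (nat_lit 3) .nil)))) (.g (nat_lit 0) (.e (nat_lit 254090) (nat_lit 0) .nil) .nil)))) (.nd (nat_lit 9) 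
(.lf (nat_lit 533918) (.g (nat_lit 5444) (.e (nat_lit 57432) (nat_lit 16) (.e (nat_lit 368676) (nat_lit 21) (.e (nat_lit 516166) (nat_lit 12) (.e (nat_lit 450588) (nat_lit 10) (.e (nat_lit 573473) (nat_lit 12) (.e (nat_lit 57347) (nat_lit 0) (.e (nat_lit 7261) (nat_lit 384) .nil))))))) (.g (nat_lit 1) (.e (nat_lit 253591) (nat_lit 0) .nil) .nil))) 
(.lf (nat_lit 534430) (.g (nat_lit 3331) (.e (nat_lit 57478) (nat_lit 28) (.e (nat_lit 557109) (nat_lit 15) (.e (nat_lit 188450) (nat_lit 23) (.e (nat_lit 204863) (nat_lit 27) (.e (nat_lit 344167) (nat_lit 40) .nil))))) (.g (nat_lit 0) (.e (nat_lit 254598) (nat_lit 0) .nil) .nil)))))) (.nd (nat_lit 7) (.nd (nat_lit 8) (.nd (nat_lit 9) 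
(.lf (nat_lit 533598) (.g (nat_lit 1176) (.e (nat_lit 57409) (nat_lit 12) (.e (nat_lit 336426) (nat_lit 29) (.e (nat_lit 442427) (nat_lit 23) (.e (nat_lit 204813) (nat_lit 9) .nil)))) (.g (nat_lit 0) (.e (nat_lit 253102) (nat_lit 0) .nil) .nil))) 
(.lf (nat_lit 534110) (.g (nat_lit 3136) (.e (nat_lit 57464) (nat_lit 23) (.e (nat_lit 516165) (nat_lit 12) (.e (nat_lit 450588) (nat_lit 10) (.e (nat_lit 573470) (nat_lit 11) (.e (nat_lit 16385) (nat_lit 0) (.e (nat_lit 7581) (nat_lit 405) .nil)))))) (.g (nat_lit 1) (.e (nat_lit 254016) (nat_lit 0) .nil) .nil)))) (.nd (nat_lit 9) 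
(.lf (nat_lit 533854) (.g (nat_lit 3036) (.e (nat_lit 57423) (nat_lit 14) (.e (nat_lit 352262) (nat_lit 0) (.e (nat_lit 3748) (nat_lit 228) (.e (nat_lit 786483) (nat_lit 30) (.e (nat_lit 360456) (nat_lit 0) (.e (nat_lit 5949) (nat_lit 322) .nil)))))) (.g (nat_lit 1) (.e (nat_lit 253507) (nat_lit 0) .nil) .nil))) 
(.lf (nat_lit 534366) (.g (nat_lit 1576) (.e (nat_lit 57477) (nat_lit 28) (.e (nat_lit 557067) (nat_lit 9) (.e (nat_lit 3022) (nat_lit 187) (.e (nat_lit 450578) (nat_lit 5) .nil)))) (.g (nat_lit 0) (.e (nat_lit 254443) (nat_lit 0) .nil) .nil))))) (.nd (nat_lit 8) (.nd (nat_lit 9) 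
(.lf (nat_lit 533726) (.g (nat_lit 2458) (.e (nat_lit 57412) (nat_lit 12) (.e (nat_lit 336005) (nat_lit 2) (.e (nat_lit 90170) (nat_lit 13) (.e (nat_lit 172113) (nat_lit 10) (.e (nat_lit 434245) (nat_lit 28) (.e (nat_lit 573474) (nat_lit 12) (.e (nat_lit 57351) (nat_lit 0) (.e (nat_lit 7261) (nat_lit 384) .nil)))))))) (.g (nat_lit 1) (.e (nat_lit 253316) (nat_lit 0) .nil) .nil))) 
(.lf (nat_lit 534238) (.g (nat_lit 2980) (.e (nat_lit 57467) (nat_lit 23) (.e (nat_lit 516117) (nat_lit 1) (.e (nat_lit 164403) (nat_lit 256) (.e (nat_lit 57373) (nat_lit 2) (.e (nat_lit 90174) (nat_lit 14) .nil))))) (.g (nat_lit 0) (.e (nat_lit 254167) (nat_lit 0) .nil) .nil)))) (.nd (nat_lit 9) 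
(.lf (nat_lit 533982) (.g (nat_lit 3132) (.e (nat_lit 57451) (nat_lit 20) (.e (nat_lit 401451) (nat_lit 12) (.e (nat_lit 475207) (nat_lit 41) (.e (nat_lit 712755) (nat_lit 30) (.e (nat_lit 450562) (nat_lit 0) (.e (nat_lit 5954) (nat_lit 322) .nil)))))) (.g (nat_lit 1) (.e (nat_lit 253725) (nat_lit 0) .nil) .nil))) 
(.lf (nat_lit 534494) (.g (nat_lit 3747) (.e (nat_lit 57479) (nat_lit 28) (.e (nat_lit 557105) (nat_lit 14) (.e (nat_lit 180252) (nat_lit 10) (.e (nat_lit 573480) (nat_lit 13) (.e (nat_lit 65571) (nat_lit 3) (.e (nat_lit 98321) (nat_lit 17) (.e (nat_lit 7936) (nat_lit 216) (.e (nat_lit 688165) (nat_lit 15) .nil)))))))) (.g (nat_lit 1) (.e (nat_lit 254708) (nat_lit 0) .nil) .nil))))))) 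
(.nd (nat_lit 6) (.nd (nat_lit 7) (.nd (nat_lit 8) (.nd (nat_lit 9) 
(.lf (nat_lit 533566) (.g (nat_lit 3422) (.e (nat_lit 57409) (nat_lit 12) (.e (nat_lit 336019) (nat_lit 3) (.e (nat_lit 98372) (nat_lit 29) (.e (nat_lit 450586) (nat_lit 10) (.e (nat_lit 573475) (nat_lit 12) (.e (nat_lit 57347) (nat_lit 0) (.e (nat_lit 7266) (nat_lit 384) .nil))))))) (.g (nat_lit 1) (.e (nat_lit 253052) (nat_lit 0) .nil) .nil))) 
(.lf (nat_lit 534078) (.g (nat_lit 1130) (.e (nat_lit 57464) (nat_lit 23) (.e (nat_lit 516165) (nat_lit 12) (.e (nat_lit 450579) (nat_lit 5) (.e (nat_lit 532523) (nat_lit 7) .nil)))) (.g (nat_lit 0) (.e (nat_lit 253984) (nat_lit 0) .nil) .nil)))) (.nd (nat_lit 9) 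
(.lf (nat_lit 533822) (.g (nat_lit 2238) (.e (nat_lit 57419) (nat_lit 12) (.e (nat_lit 336194) (nat_lit 12) (.e (nat_lit 385102) (nat_lit 50) (.e (nat_lit 786481) (nat_lit 30) (.e (nat_lit 360456) (nat_lit 0) (.e (nat_lit 5949) (nat_lit 322) .nil)))))) (.g (nat_lit 1) (.e (nat_lit 253446) (nat_lit 0) .nil) .nil))) 
(.lf (nat_lit 534334) (.g (nat_lit 1941) (.e (nat_lit 57476) (nat_lit 28) (.e (nat_lit 557107) (nat_lit 15) (.e (nat_lit 188450) (nat_lit 23) (.e (nat_lit 204855) (nat_lit 26) (.e (nat_lit 336290) (nat_lit 15) (.e (nat_lit 3716) (nat_lit 227) (.e (nat_lit 778316) (nat_lit 3) .nil))))))) (.g (nat_lit 1) (.e (nat_lit 254402) (nat_lit 0) .nil) .nil))))) (.nd (nat_lit 8) (.nd (nat_lit 9) 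
(.lf (nat_lit 533694) (.g (nat_lit 2697) (.e (nat_lit 57411) (nat_lit 12) (.e (nat_lit 336456) (nat_lit 34) (.e (nat_lit 483395) (nat_lit 24) (.e (nat_lit 344117) (nat_lit 21) (.e (nat_lit 516099) (nat_lit 0) (.e (nat_lit 2474) (nat_lit 157) (.e (nat_lit 6398) (nat_lit 339) .nil))))))) (.g (nat_lit 1) (.e (nat_lit 253284) (nat_lit 0) .nil) .nil))) 
(.lf (nat_lit 534206) (.g (nat_lit 2592) (.e (nat_lit 57466) (nat_lit 23) (.e (nat_lit 516117) (nat_lit 1) (.e (nat_lit 164330) (nat_lit 230) (.e (nat_lit 163873) (nat_lit 3) (.e (nat_lit 204809) (nat_lit 9) .nil))))) (.g (nat_lit 0) (.e (nat_lit 254124) (nat_lit 0) .nil) .nil)))) (.nd (nat_lit 9) 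
(.lf (nat_lit 533950) (.g (nat_lit 1079) (.e (nat_lit 57445) (nat_lit 19) (.e (nat_lit 393286) (nat_lit 25) (.e (nat_lit 458789) (nat_lit 23) (.e (nat_lit 532582) (nat_lit 26) .nil)))) (.g (nat_lit 0) (.e (nat_lit 253670) (nat_lit 0) .nil) .nil))) 
(.lf (nat_lit 534462) (.g (nat_lit 2045) (.e (nat_lit 57479) (nat_lit 28) (.e (nat_lit 557100) (nat_lit 13) (.e (nat_lit 172106) (nat_lit 10) (.e (nat_lit 434231) (nat_lit 23) (.e (nat_lit 532535) (nat_lit 9) (.e (nat_lit 336295) (nat_lit 15) (.e (nat_lit 3641) (nat_lit 227) (.e (nat_lit 786176) (nat_lit 3) .nil)))))))) (.g (nat_lit 1) (.e (nat_lit 254676) (nat_lit 0) .nil) .nil)))))) 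
(.nd (nat_lit 7) (.nd (nat_lit 8) (.nd (nat_lit 9) 
(.lf (nat_lit 533630) (.g (nat_lit 1553) (.e (nat_lit 57409) (nat_lit 12) (.e (nat_lit 336456) (nat_lit 34) (.e (nat_lit 483393) (nat_lit 23) (.e (nat_lit 336004) (nat_lit 2) (.e (nat_lit 90140) (nat_lit 9) .nil))))) (.g (nat_lit 0) (.e (nat_lit 253139) (nat_lit 0) .nil) .nil))) 
(.lf (nat_lit 534142) (.g (nat_lit 3662) (.e (nat_lit 57464) (nat_lit 23) (.e (nat_lit 516166) (nat_lit 12) (.e (nat_lit 450588) (nat_lit 10) (.e (nat_lit 573457) (nat_lit 9) (.e (nat_lit 359) (nat_lit 30) (.e (nat_lit 409602) (nat_lit 0) (.e (nat_lit 5394) (nat_lit 301) .nil))))))) (.g (nat_lit 1) (.e (nat_lit 254054) (nat_lit 0) .nil) .nil)))) (.nd (nat_lit 9) 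
(.lf (nat_lit 533886) (.g (nat_lit 4473) (.e (nat_lit 57430) (nat_lit 16) (.e (nat_lit 368676) (nat_lit 21) (.e (nat_lit 516166) (nat_lit 12) (.e (nat_lit 450587) (nat_lit 10) (.e (nat_lit 573478) (nat_lit 12) .nil))))) (.g (nat_lit 0) (.e (nat_lit 253556) (nat_lit 0) .nil) .nil))) 
(.lf (nat_lit 534398) (.g (nat_lit 2918) (.e (nat_lit 57478) (nat_lit 28) (.e (nat_lit 557098) (nat_lit 13) (.e (nat_lit 172097) (nat_lit 9) (.e (nat_lit 426125) (nat_lit 2) (.e (nat_lit 196666) (nat_lit 13) (.e (nat_lit 65639) (nat_lit 15) (.e (nat_lit 3714) (nat_lit 227) (.e (nat_lit 786176) (nat_lit 3) .nil)))))))) (.g (nat_lit 1) (.e (nat_lit 254550) (nat_lit 0) .nil) .nil))))) 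
(.nd (nat_lit 8) (.nd (nat_lit 9) 
(.lf (nat_lit 533758) (.g (nat_lit 2740) (.e (nat_lit 57412) (nat_lit 12) (.e (nat_lit 336022) (nat_lit 3) (.e (nat_lit 98373) (nat_lit 29) (.e (nat_lit 450587) (nat_lit 10) (.e (nat_lit 573478) (nat_lit 12) (.e (nat_lit 57351) (nat_lit 0) (.e (nat_lit 7265) (nat_lit 384) .nil))))))) (.g (nat_lit 1) (.e (nat_lit 253348) (nat_lit 0) .nil) .nil))) 
(.lf (nat_lit 534270) (.g (nat_lit 6046) (.e (nat_lit 57476) (nat_lit 28) (.e (nat_lit 557067) (nat_lit 9) (.e (nat_lit 3022) (nat_lit 187) (.e (nat_lit 450579) (nat_lit 5) (.e (nat_lit 532563) (nat_lit 15) (.e (nat_lit 385094) (nat_lit 49) (.e (nat_lit 778317) (nat_lit 3) .nil))))))) (.g (nat_lit 1) (.e (nat_lit 254291) (nat_lit 0) .nil) .nil)))) (.nd (nat_lit 9) 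
(.lf (nat_lit 534014) (.g (nat_lit 3407) (.e (nat_lit 57464) (nat_lit 23) (.e (nat_lit 516139) (nat_lit 7) (.e (nat_lit 409645) (nat_lit 18) (.e (nat_lit 303117) (nat_lit 2) (.e (nat_lit 196670) (nat_lit 14) (.e (nat_lit 81664) (nat_lit 43) .nil)))))) (.g (nat_lit 1) (.e (nat_lit 253903) (nat_lit 0) .nil) .nil))) 
(.lf (nat_lit 534526) (.g (nat_lit 3962) (.e (nat_lit 57479) (nat_lit 28) (.e (nat_lit 557105) (nat_lit 14) (.e (nat_lit 180252) (nat_lit 10) (.e (nat_lit 573489) (nat_lit 14) (.e (nat_lit 73747) (nat_lit 3) (.e (nat_lit 516100) (nat_lit 0) (.e (nat_lit 7936) (nat_lit 216) (.e (nat_lit 688166) (nat_lit 15) .nil)))))))) (.g (nat_lit 1) (.e (nat_lit 254740) (nat_lit 0) .nil) .nil)))))))))))) 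
(.nd (nat_lit 1) (.nd (nat_lit 2) (.nd (nat_lit 3) (.nd (nat_lit 4) (.nd (nat_lit 5) 
(.nd (nat_lit 6) (.nd (nat_lit 7) (.nd (nat_lit 8) (.nd (nat_lit 9) 
(.lf (nat_lit 533505) (.g (nat_lit 4083) (.e (nat_lit 57407) (nat_lit 12) (.e (nat_lit 336019) (nat_lit 3) (.e (nat_lit 98372) (nat_lit 29) (.e (nat_lit 450588) (nat_lit 10) (.e (nat_lit 573473) (nat_lit 12) (.e (nat_lit 57352) (nat_lit 0) (.e (nat_lit 7261) (nat_lit 384) .nil))))))) (.g (nat_lit 1) (.e (nat_lit 252973) (nat_lit 0) .nil) .nil))) 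
(.lf (nat_lit 534017) (.g (nat_lit 3081) (.e (nat_lit 57464) (nat_lit 23) (.e (nat_lit 516139) (nat_lit 7) (.e (nat_lit 409646) (nat_lit 18) (.e (nat_lit 303117) (nat_lit 2) (.e (nat_lit 196669) (nat_lit 14) .nil))))) (.g (nat_lit 0) (.e (nat_lit 253906) (nat_lit 0) .nil) .nil)))) (.nd (nat_lit 9) 
(.lf (nat_lit 533761) (.g (nat_lit 4624) (.e (nat_lit 57412) (nat_lit 12) (.e (nat_lit 336022) (nat_lit 3) (.e (nat_lit 98373) (nat_lit 29) (.e (nat_lit 450588) (nat_lit 10) (.e (nat_lit 573473) (nat_lit 12) (.e (nat_lit 57353) (nat_lit 0) (.e (nat_lit 7265) (nat_lit 384) .nil))))))) (.g (nat_lit 1) (.e (nat_lit 253351) (nat_lit 0) .nil) .nil))) 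
(.lf (nat_lit 534273) (.g (nat_lit 6361) (.e (nat_lit 57476) (nat_lit 28) (.e (nat_lit 557067) (nat_lit 9) (.e (nat_lit 3022) (nat_lit 187) (.e (nat_lit 450580) (nat_lit 5) (.e (nat_lit 532563) (nat_lit 15) (.e (nat_lit 385094) (nat_lit 49) (.e (nat_lit 778317) (nat_lit 3) .nil))))))) (.g (nat_lit 1) (.e (nat_lit 254302) (nat_lit 0) .nil) .nil))))) (.nd (nat_lit 8) (.nd (nat_lit 9) 
(.lf (nat_lit 533633) (.g (nat_lit 2658) (.e (nat_lit 57409) (nat_lit 12) (.e (nat_lit 336456) (nat_lit 34) (.e (nat_lit 483395) (nat_lit 24) (.e (nat_lit 344117) (nat_lit 21) (.e (nat_lit 516099) (nat_lit 0) (.e (nat_lit 2474) (nat_lit 157) (.e (nat_lit 6400) (nat_lit 339) .nil))))))) (.g (nat_lit 1) (.e (nat_lit 253142) (nat_lit 0) .nil) .nil))) 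
(.lf (nat_lit 534145) (.g (nat_lit 3357) (.e (nat_lit 57464) (nat_lit 23) (.e (nat_lit 516166) (nat_lit 12) (.e (nat_lit 450588) (nat_lit 10) (.e (nat_lit 573457) (nat_lit 9) (.e (nat_lit 430) (nat_lit 32) (.e (nat_lit 426012) (nat_lit 0) (.e (nat_lit 7583) (nat_lit 405) .nil))))))) (.g (nat_lit 1) (.e (nat_lit 254057) (nat_lit 0) .nil) .nil)))) (.nd (nat_lit 9) 
(.lf (nat_lit 533889) (.g (nat_lit 5459) (.e (nat_lit 57430) (nat_lit 16) (.e (nat_lit 368676) (nat_lit 21) (.e (nat_lit 516166) (nat_lit 12) (.e (nat_lit 450588) (nat_lit 10) (.e (nat_lit 573473) (nat_lit 12) (.e (nat_lit 57352) (nat_lit 0) (.e (nat_lit 7261) (nat_lit 384) .nil))))))) (.g (nat_lit 1) (.e (nat_lit 253559) (nat_lit 0) .nil) .nil))) 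
(.lf (nat_lit 534401) (.g (nat_lit 2742) (.e (nat_lit 57478) (nat_lit 28) (.e (nat_lit 557098) (nat_lit 13) (.e (nat_lit 172115) (nat_lit 10) (.e (nat_lit 434231) (nat_lit 23) (.e (nat_lit 532535) (nat_lit 9) (.e (nat_lit 336290) (nat_lit 15) (.e (nat_lit 3711) (nat_lit 227) (.e (nat_lit 786176) (nat_lit 3) .nil)))))))) (.g (nat_lit 1) (.e (nat_lit 254553) (nat_lit 0) .nil) .nil)))))) 
(.nd (nat_lit 7) (.nd (nat_lit 8) (.nd (nat_lit 9) 
(.lf (nat_lit 533569) (.g (nat_lit 3829) (.e (nat_lit 57409) (nat_lit 12) (.e (nat_lit 336019) (nat_lit 3) (.e (nat_lit 98372) (nat_lit 29) (.e (nat_lit 450588) (nat_lit 10) (.e (nat_lit 573473) (nat_lit 12) (.e (nat_lit 57347) (nat_lit 0) (.e (nat_lit 7266) (nat_lit 384) .nil))))))) (.g (nat_lit 1) (.e (nat_lit 253055) (nat_lit 0) .nil) .nil))) 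
(.lf (nat_lit 534081) (.g (nat_lit 2355) (.e (nat_lit 57464) (nat_lit 23) (.e (nat_lit 516165) (nat_lit 12) (.e (nat_lit 450586) (nat_lit 10) (.e (nat_lit 573450) (nat_lit 9) (.e (nat_lit 442) (nat_lit 33) (.e (nat_lit 442112) (nat_lit 3) .nil)))))) (.g (nat_lit 1) (.e (nat_lit 253987) (nat_lit 0) .nil) .nil)))) (.nd (nat_lit 9) 
(.lf (nat_lit 533825) (.g (nat_lit 2517) (.e (nat_lit 57419) (nat_lit 12) (.e (nat_lit 336194) (nat_lit 12) (.e (nat_lit 385102) (nat_lit 50) (.e (nat_lit 786483) (nat_lit 30) (.e (nat_lit 360456) (nat_lit 0) (.e (nat_lit 5949) (nat_lit 322) .nil)))))) (.g (nat_lit 1) (.e (nat_lit 253449) (nat_lit 0) .nil) .nil))) 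
(.lf (nat_lit 534337) (.g (nat_lit 2607) (.e (nat_lit 57476) (nat_lit 28) (.e (nat_lit 557108) (nat_lit 15) (.e (nat_lit 188449) (nat_lit 22) (.e (nat_lit 196666) (nat_lit 13) (.e (nat_lit 65639) (nat_lit 15) (.e (nat_lit 3711) (nat_lit 227) (.e (nat_lit 778316) (nat_lit 3) .nil))))))) (.g (nat_lit 1) (.e (nat_lit 254405) (nat_lit 0) .nil) .nil))))) (.nd (nat_lit 8) (.nd (nat_lit 9) 
(.lf (nat_lit 533697) (.g (nat_lit 935) (.e (nat_lit 57411) (nat_lit 12) (.e (nat_lit 336456) (nat_lit 34) (.e (nat_lit 483395) (nat_lit 24) (.e (nat_lit 344132) (nat_lit 26) .nil)))) (.g (nat_lit 0) (.e (nat_lit 253287) (nat_lit 0) .nil) .nil))) 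
(.lf (nat_lit 534209) (.g (nat_lit 2872) (.e (nat_lit 57466) (nat_lit 23) (.e (nat_lit 516117) (nat_lit 1) (.e (nat_lit 164398) (nat_lit 256) (.e (nat_lit 57378) (nat_lit 3) (.e (nat_lit 98366) (nat_lit 27) .nil))))) (.g (nat_lit 0) (.e (nat_lit 254127) (nat_lit 0) .nil) .nil)))) (.nd (nat_lit 9) 
(.lf (nat_lit 533953) (.g (nat_lit 1662) (.e (nat_lit 57446) (nat_lit 19) (.e (nat_lit 393229) (nat_lit 9) (.e (nat_lit 336088) (nat_lit 9) (.e (nat_lit 336240) (nat_lit 15) (.e (nat_lit 3230) (nat_lit 197) (.e (nat_lit 532504) (nat_lit 1) (.e (nat_lit 57851) (nat_lit 252) .nil))))))) (.g (nat_lit 1) (.e (nat_lit 253673) (nat_lit 0) .nil) .nil))) 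
(.lf (nat_lit 534465) (.g (nat_lit 3277) (.e (nat_lit 57479) (nat_lit 28) (.e (nat_lit 557101) (nat_lit 13) (.e (nat_lit 172097) (nat_lit 9) (.e (nat_lit 426125) (nat_lit 2) (.e (nat_lit 196666) (nat_lit 13) (.e (nat_lit 65639) (nat_lit 15) (.e (nat_lit 3711) (nat_lit 227) (.e (nat_lit 786176) (nat_lit 3) .nil)))))))) (.g (nat_lit 1) (.e (nat_lit 254679) (nat_lit 0) .nil) .nil))))))) 
(.nd (nat_lit 6) (.nd (nat_lit 7) (.nd (nat_lit 8) (.nd (nat_lit 9) 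
(.lf (nat_lit 533537) (.g (nat_lit 3671) (.e (nat_lit 57407) (nat_lit 12) (.e (nat_lit 336456) (nat_lit 34) (.e (nat_lit 483379) (nat_lit 23) (.e (nat_lit 336324) (nat_lit 18) (.e (nat_lit 204831) (nat_lit 18) (.e (nat_lit 57848) (nat_lit 252) .nil)))))) (.g (nat_lit 1) (.e (nat_lit 253022) (nat_lit 0) .nil) .nil))) 
(.lf (nat_lit 534049) (.g (nat_lit 3458) (.e (nat_lit 57464) (nat_lit 23) (.e (nat_lit 516151) (nat_lit 9) (.e (nat_lit 426286) (nat_lit 10) (.e (nat_lit 434245) (nat_lit 28) (.e (nat_lit 573471) (nat_lit 11) (.e (nat_lit 16387) (nat_lit 0) (.e (nat_lit 7583) (nat_lit 405) .nil))))))) (.g (nat_lit 1) (.e (nat_lit 253942) (nat_lit 0) .nil) .nil)))) (.nd (nat_lit 9) 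
(.lf (nat_lit 533793) (.g (nat_lit 2928) (.e (nat_lit 57412) (nat_lit 12) (.e (nat_lit 336226) (nat_lit 14) (.e (nat_lit 401437) (nat_lit 9) (.e (nat_lit 426542) (nat_lit 29) (.e (nat_lit 352317) (nat_lit 24) .nil))))) (.g (nat_lit 0) (.e (nat_lit 253398) (nat_lit 0) .nil) .nil))) 
(.lf (nat_lit 534305) (.g (nat_lit 3446) (.e (nat_lit 57476) (nat_lit 28) (.e (nat_lit 557097) (nat_lit 13) (.e (nat_lit 172115) (nat_lit 10) (.e (nat_lit 434231) (nat_lit 23) (.e (nat_lit 532535) (nat_lit 9) (.e (nat_lit 336290) (nat_lit 15) (.e (nat_lit 3711) (nat_lit 227) (.e (nat_lit 786176) (nat_lit 3) .nil)))))))) (.g (nat_lit 1) (.e (nat_lit 254373) (nat_lit 0) .nil) .nil))))) 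
(.nd (nat_lit 8) (.nd (nat_lit 9) 
(.lf (nat_lit 533665) (.g (nat_lit 1465) (.e (nat_lit 57411) (nat_lit 12) (.e (nat_lit 336324) (nat_lit 18) (.e (nat_lit 204852) (nat_lit 26) (.e (nat_lit 343808) (nat_lit 13) .nil)))) (.g (nat_lit 0) (.e (nat_lit 253228) (nat_lit 0) .nil) .nil))) 
(.lf (nat_lit 534177) (.g (nat_lit 2321) (.e (nat_lit 57465) (nat_lit 23) (.e (nat_lit 516117) (nat_lit 1) (.e (nat_lit 164398) (nat_lit 256) (.e (nat_lit 57375) (nat_lit 2) (.e (nat_lit 90174) (nat_lit 14) .nil))))) (.g (nat_lit 0) (.e (nat_lit 254093) (nat_lit 0) .nil) .nil)))) (.nd (nat_lit 9) 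
(.lf (nat_lit 533921) (.g (nat_lit 1993) (.e (nat_lit 57435) (nat_lit 17) (.e (nat_lit 376835) (nat_lit 0) (.e (nat_lit 3746) (nat_lit 228) (.e (nat_lit 786483) (nat_lit 30) (.e (nat_lit 368384) (nat_lit 0) (.e (nat_lit 5939) (nat_lit 322) .nil)))))) (.g (nat_lit 1) (.e (nat_lit 253604) (nat_lit 0) .nil) .nil))) 
(.lf (nat_lit 534433) (.g (nat_lit 2641) (.e (nat_lit 57478) (nat_lit 28) (.e (nat_lit 557109) (nat_lit 15) (.e (nat_lit 188452) (nat_lit 23) (.e (nat_lit 204864) (nat_lit 27) (.e (nat_lit 344169) (nat_lit 40) .nil))))) (.g (nat_lit 0) (.e (nat_lit 254601) (nat_lit 0) .nil) .nil)))))) (.nd (nat_lit 7) (.nd (nat_lit 8) (.nd (nat_lit 9) 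
(.lf (nat_lit 533601) (.g (nat_lit 1370) (.e (nat_lit 57409) (nat_lit 12) (.e (nat_lit 336433) (nat_lit 30) (.e (nat_lit 450588) (nat_lit 10) (.e (nat_lit 581376) (nat_lit 4) .nil)))) (.g (nat_lit 0) (.e (nat_lit 253105) (nat_lit 0) .nil) .nil))) 
(.lf (nat_lit 534113) (.g (nat_lit 2881) (.e (nat_lit 57464) (nat_lit 23) (.e (nat_lit 516165) (nat_lit 12) (.e (nat_lit 450588) (nat_lit 10) (.e (nat_lit 573471) (nat_lit 11) (.e (nat_lit 16387) (nat_lit 0) (.e (nat_lit 7583) (nat_lit 405) .nil)))))) (.g (nat_lit 1) (.e (nat_lit 254019) (nat_lit 0) .nil) .nil)))) (.nd (nat_lit 9) 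
(.lf (nat_lit 533857) (.g (nat_lit 2856) (.e (nat_lit 57424) (nat_lit 14) (.e (nat_lit 352262) (nat_lit 0) (.e (nat_lit 3748) (nat_lit 228) (.e (nat_lit 786481) (nat_lit 30) (.e (nat_lit 360456) (nat_lit 0) (.e (nat_lit 5949) (nat_lit 322) .nil)))))) (.g (nat_lit 1) (.e (nat_lit 253511) (nat_lit 0) .nil) .nil))) 
(.lf (nat_lit 534369) (.g (nat_lit 2179) (.e (nat_lit 57477) (nat_lit 28) (.e (nat_lit 557067) (nat_lit 9) (.e (nat_lit 3022) (nat_lit 187) (.e (nat_lit 450579) (nat_lit 5) (.e (nat_lit 532566) (nat_lit 15) .nil))))) (.g (nat_lit 0) (.e (nat_lit 254446) (nat_lit 0) .nil) .nil))))) (.nd (nat_lit 8) (.nd (nat_lit 9) 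
(.lf (nat_lit 533729) (.g (nat_lit 3222) (.e (nat_lit 57412) (nat_lit 12) (.e (nat_lit 336005) (nat_lit 2) (.e (nat_lit 90170) (nat_lit 13) (.e (nat_lit 172113) (nat_lit 10) (.e (nat_lit 434248) (nat_lit 28) (.e (nat_lit 573475) (nat_lit 12) (.e (nat_lit 57347) (nat_lit 0) (.e (nat_lit 7261) (nat_lit 384) .nil)))))))) (.g (nat_lit 1) (.e (nat_lit 253319) (nat_lit 0) .nil) .nil))) 
(.lf (nat_lit 534241) (.g (nat_lit 1516) (.e (nat_lit 57474) (nat_lit 28) (.e (nat_lit 557095) (nat_lit 13) (.e (nat_lit 172097) (nat_lit 9) (.e (nat_lit 426140) (nat_lit 3) (.e (nat_lit 204863) (nat_lit 27) .nil))))) (.g (nat_lit 0) (.e (nat_lit 254189) (nat_lit 0) .nil) .nil)))) (.nd (nat_lit 9) 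
(.lf (nat_lit 533985) (.g (nat_lit 2247) (.e (nat_lit 65280) (nat_lit 25) (.e (nat_lit 532544) (nat_lit 10) (.e (nat_lit 344133) (nat_lit 26) (.e (nat_lit 557103) (nat_lit 14) (.e (nat_lit 180250) (nat_lit 10) .nil))))) (.g (nat_lit 0) (.e (nat_lit 253827) (nat_lit 0) .nil) .nil))) 
(.lf (nat_lit 534497) (.g (nat_lit 3763) (.e (nat_lit 57479) (nat_lit 28) (.e (nat_lit 557105) (nat_lit 14) (.e (nat_lit 180252) (nat_lit 10) (.e (nat_lit 573481) (nat_lit 13) (.e (nat_lit 65569) (nat_lit 3) (.e (nat_lit 98321) (nat_lit 17) (.e (nat_lit 7936) (nat_lit 216) (.e (nat_lit 688166) (nat_lit 15) .nil)))))))) (.g (nat_lit 1) (.e (nat_lit 254711) (nat_lit 0) .nil) .nil)))))))) 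
(.nd (nat_lit 5) (.nd (nat_lit 6) (.nd (nat_lit 7) (.nd (nat_lit 8) (.nd (nat_lit 9) 
(.lf (nat_lit 533521) (.g (nat_lit 1018) (.e (nat_lit 57407) (nat_lit 12) (.e (nat_lit 336316) (nat_lit 17) (.e (nat_lit 196666) (nat_lit 13) (.e (nat_lit 65617) (nat_lit 10) .nil)))) (.g (nat_lit 0) (.e (nat_lit 252992) (nat_lit 0) .nil) .nil))) 
(.lf (nat_lit 534033) (.g (nat_lit 2007) (.e (nat_lit 57464) (nat_lit 23) (.e (nat_lit 516151) (nat_lit 9) (.e (nat_lit 426170) (nat_lit 7) (.e (nat_lit 409631) (nat_lit 12) (.e (nat_lit 32794) (nat_lit 14) (.e (nat_lit 3032) (nat_lit 188) (.e (nat_lit 466688) (nat_lit 3) .nil))))))) (.g (nat_lit 1) (.e (nat_lit 253924) (nat_lit 0) .nil) .nil)))) (.nd (nat_lit 9) 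
(.lf (nat_lit 533777) (.g (nat_lit 363) (.e (nat_lit 57412) (nat_lit 12) (.e (nat_lit 336176) (nat_lit 10) (.e (nat_lit 344138) (nat_lit 29) .nil))) (.g (nat_lit 0) (.e (nat_lit 253368) (nat_lit 0) .nil) .nil))) 
(.lf (nat_lit 534289) (.g (nat_lit 2945) (.e (nat_lit 57476) (nat_lit 28) (.e (nat_lit 557097) (nat_lit 13) (.e (nat_lit 172097) (nat_lit 9) (.e (nat_lit 426125) (nat_lit 2) (.e (nat_lit 196666) (nat_lit 13) (.e (nat_lit 65639) (nat_lit 15) (.e (nat_lit 3716) (nat_lit 227) (.e (nat_lit 778316) (nat_lit 3) .nil)))))))) (.g (nat_lit 1) (.e (nat_lit 254357) (nat_lit 0) .nil) .nil))))) 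
(.nd (nat_lit 8) (.nd (nat_lit 9) 
(.lf (nat_lit 533649) (.g (nat_lit 4160) (.e (nat_lit 57411) (nat_lit 12) (.e (nat_lit 336019) (nat_lit 3) (.e (nat_lit 98373) (nat_lit 29) (.e (nat_lit 450587) (nat_lit 10) (.e (nat_lit 573478) (nat_lit 12) (.e (nat_lit 57353) (nat_lit 0) (.e (nat_lit 7261) (nat_lit 384) .nil))))))) (.g (nat_lit 1) (.e (nat_lit 253200) (nat_lit 0) .nil) .nil))) 
(.lf (nat_lit 534161) (.g (nat_lit 2943) (.e (nat_lit 57465) (nat_lit 23) (.e (nat_lit 516115) (nat_lit 1) (.e (nat_lit 164325) (nat_lit 230) (.e (nat_lit 163873) (nat_lit 3) (.e (nat_lit 204809) (nat_lit 9) .nil))))) (.g (nat_lit 0) (.e (nat_lit 254076) (nat_lit 0) .nil) .nil)))) (.nd (nat_lit 9) 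
(.lf (nat_lit 533905) (.g (nat_lit 2618) (.e (nat_lit 57431) (nat_lit 16) (.e (nat_lit 368676) (nat_lit 21) (.e (nat_lit 516165) (nat_lit 12) (.e (nat_lit 450587) (nat_lit 10) (.e (nat_lit 573477) (nat_lit 12) .nil))))) (.g (nat_lit 0) (.e (nat_lit 253577) (nat_lit 0) .nil) .nil))) 
(.lf (nat_lit 534417) (.g (nat_lit 2786) (.e (nat_lit 57478) (nat_lit 28) (.e (nat_lit 557105) (nat_lit 14) (.e (nat_lit 180252) (nat_lit 10) (.e (nat_lit 573487) (nat_lit 14) (.e (nat_lit 73747) (nat_lit 3) (.e (nat_lit 516097) (nat_lit 0) (.e (nat_lit 3455) (nat_lit 216) (.e (nat_lit 688167) (nat_lit 15) .nil)))))))) (.g (nat_lit 1) (.e (nat_lit 254570) (nat_lit 0) .nil) .nil)))))) 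
(.nd (nat_lit 7) (.nd (nat_lit 8) (.nd (nat_lit 9) 
(.lf (nat_lit 533585) (.g (nat_lit 1874) (.e (nat_lit 57409) (nat_lit 12) (.e (nat_lit 336324) (nat_lit 18) (.e (nat_lit 204877) (nat_lit 31) (.e (nat_lit 376842) (nat_lit 11) (.e (nat_lit 426105) (nat_lit 1) .nil))))) (.g (nat_lit 0) (.e (nat_lit 253086) (nat_lit 0) .nil) .nil))) 
(.lf (nat_lit 534097) (.g (nat_lit 1563) (.e (nat_lit 57464) (nat_lit 23) (.e (nat_lit 516165) (nat_lit 12) (.e (nat_lit 450587) (nat_lit 10) (.e (nat_lit 573457) (nat_lit 9) (.e (nat_lit 430) (nat_lit 32) .nil))))) (.g (nat_lit 0) (.e (nat_lit 254003) (nat_lit 0) .nil) .nil)))) (.nd (nat_lit 9) 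
(.lf (nat_lit 533841) (.g (nat_lit 1441) (.e (nat_lit 57419) (nat_lit 12) (.e (nat_lit 336203) (nat_lit 12) (.e (nat_lit 385102) (nat_lit 50) (.e (nat_lit 786483) (nat_lit 30) (.e (nat_lit 360456) (nat_lit 0) (.e (nat_lit 5948) (nat_lit 322) .nil)))))) (.g (nat_lit 1) (.e (nat_lit 253465) (nat_lit 0) .nil) .nil))) 
(.lf (nat_lit 534353) (.g (nat_lit 3674) (.e (nat_lit 57476) (nat_lit 28) (.e (nat_lit 557108) (nat_lit 15) (.e (nat_lit 188452) (nat_lit 23) (.e (nat_lit 204852) (nat_lit 26) (.e (nat_lit 336303) (nat_lit 15) (.e (nat_lit 3618) (nat_lit 227) (.e (nat_lit 778318) (nat_lit 3) .nil))))))) (.g (nat_lit 1) (.e (nat_lit 254421) (nat_lit 0) .nil) .nil))))) (.nd (nat_lit 8) (.nd (nat_lit 9) 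
(.lf (nat_lit 533713) (.g (nat_lit 3041) (.e (nat_lit 57412) (nat_lit 12) (.e (nat_lit 336001) (nat_lit 2) (.e (nat_lit 90170) (nat_lit 13) (.e (nat_lit 172113) (nat_lit 10) (.e (nat_lit 434247) (nat_lit 28) (.e (nat_lit 573477) (nat_lit 12) (.e (nat_lit 57351) (nat_lit 0) (.e (nat_lit 7265) (nat_lit 384) .nil)))))))) (.g (nat_lit 1) (.e (nat_lit 253303) (nat_lit 0) .nil) .nil))) 
(.lf (nat_lit 534225) (.g (nat_lit 2822) (.e (nat_lit 57466) (nat_lit 23) (.e (nat_lit 516150) (nat_lit 9) (.e (nat_lit 426131) (nat_lit 3) (.e (nat_lit 204838) (nat_lit 20) (.e (nat_lit 114714) (nat_lit 22) .nil))))) (.g (nat_lit 0) (.e (nat_lit 254143) (nat_lit 0) .nil) .nil)))) (.nd (nat_lit 9) 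
(.lf (nat_lit 533969) (.g (nat_lit 2999) (.e (nat_lit 57449) (nat_lit 20) (.e (nat_lit 401454) (nat_lit 12) (.e (nat_lit 475210) (nat_lit 41) (.e (nat_lit 712755) (nat_lit 30) (.e (nat_lit 450569) (nat_lit 0) (.e (nat_lit 5948) (nat_lit 322) .nil)))))) (.g (nat_lit 1) (.e (nat_lit 253693) (nat_lit 0) .nil) .nil))) 
(.lf (nat_lit 534481) (.g (nat_lit 3290) (.e (nat_lit 57479) (nat_lit 28) (.e (nat_lit 557103) (nat_lit 14) (.e (nat_lit 180250) (nat_lit 10) (.e (nat_lit 573484) (nat_lit 13) (.e (nat_lit 65569) (nat_lit 3) (.e (nat_lit 98321) (nat_lit 17) (.e (nat_lit 7936) (nat_lit 216) (.e (nat_lit 688166) (nat_lit 15) .nil)))))))) (.g (nat_lit 1) (.e (nat_lit 254695) (nat_lit 0) .nil) .nil))))))) 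
(.nd (nat_lit 6) (.nd (nat_lit 7) (.nd (nat_lit 8) (.nd (nat_lit 9) 
(.lf (nat_lit 533553) (.g (nat_lit 2527) (.e (nat_lit 57407) (nat_lit 12) (.e (nat_lit 336456) (nat_lit 34) (.e (nat_lit 483395) (nat_lit 24) (.e (nat_lit 344117) (nat_lit 21) (.e (nat_lit 516099) (nat_lit 0) (.e (nat_lit 2474) (nat_lit 157) (.e (nat_lit 6393) (nat_lit 339) .nil))))))) (.g (nat_lit 1) (.e (nat_lit 253038) (nat_lit 0) .nil) .nil))) 
(.lf (nat_lit 534065) (.g (nat_lit 2377) (.e (nat_lit 57464) (nat_lit 23) (.e (nat_lit 516159) (nat_lit 10) (.e (nat_lit 434244) (nat_lit 28) (.e (nat_lit 573481) (nat_lit 13) (.e (nat_lit 73472) (nat_lit 15) .nil))))) (.g (nat_lit 0) (.e (nat_lit 253962) (nat_lit 0) .nil) .nil)))) (.nd (nat_lit 9) 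
(.lf (nat_lit 533809) (.g (nat_lit 2826) (.e (nat_lit 57414) (nat_lit 12) (.e (nat_lit 336028) (nat_lit 3) (.e (nat_lit 98373) (nat_lit 29) (.e (nat_lit 450588) (nat_lit 10) (.e (nat_lit 573473) (nat_lit 12) .nil))))) (.g (nat_lit 0) (.e (nat_lit 253423) (nat_lit 0) .nil) .nil))) 
(.lf (nat_lit 534321) (.g (nat_lit 2726) (.e (nat_lit 57476) (nat_lit 28) (.e (nat_lit 557107) (nat_lit 15) (.e (nat_lit 188450) (nat_lit 23) (.e (nat_lit 204852) (nat_lit 26) (.e (nat_lit 336238) (nat_lit 15) (.e (nat_lit 3626) (nat_lit 227) (.e (nat_lit 778318) (nat_lit 3) .nil))))))) (.g (nat_lit 1) (.e (nat_lit 254389) (nat_lit 0) .nil) .nil))))) (.nd (nat_lit 8) (.nd (nat_lit 9) 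
(.lf (nat_lit 533681) (.g (nat_lit 2857) (.e (nat_lit 57411) (nat_lit 12) (.e (nat_lit 336455) (nat_lit 34) (.e (nat_lit 483382) (nat_lit 23) (.e (nat_lit 336324) (nat_lit 18) (.e (nat_lit 204831) (nat_lit 18) (.e (nat_lit 57847) (nat_lit 252) .nil)))))) (.g (nat_lit 1) (.e (nat_lit 253260) (nat_lit 0) .nil) .nil))) 
(.lf (nat_lit 534193) (.g (nat_lit 2999) (.e (nat_lit 57465) (nat_lit 23) (.e (nat_lit 516129) (nat_lit 3) (.e (nat_lit 221210) (nat_lit 22) (.e (nat_lit 196670) (nat_lit 14) (.e (nat_lit 73746) (nat_lit 3) (.e (nat_lit 516100) (nat_lit 0) (.e (nat_lit 7936) (nat_lit 216) (.e (nat_lit 688168) (nat_lit 15) .nil)))))))) (.g (nat_lit 1) (.e (nat_lit 254110) (nat_lit 0) .nil) .nil)))) 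
(.nd (nat_lit 9) 
(.lf (nat_lit 533937) (.g (nat_lit 952) (.e (nat_lit 57439) (nat_lit 18) (.e (nat_lit 385068) (nat_lit 26) (.e (nat_lit 532530) (nat_lit 9) .nil))) (.g (nat_lit 0) (.e (nat_lit 253644) (nat_lit 0) .nil) .nil))) 
(.lf (nat_lit 534449) (.g (nat_lit 2262) (.e (nat_lit 57479) (nat_lit 28) (.e (nat_lit 557100) (nat_lit 13) (.e (nat_lit 172106) (nat_lit 10) (.e (nat_lit 434231) (nat_lit 23) (.e (nat_lit 532529) (nat_lit 9) (.e (nat_lit 336297) (nat_lit 15) (.e (nat_lit 3711) (nat_lit 227) (.e (nat_lit 786176) (nat_lit 3) .nil)))))))) (.g (nat_lit 1) (.e (nat_lit 254663) (nat_lit 0) .nil) .nil)))))) 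
(.nd (nat_lit 7) (.nd (nat_lit 8) (.nd (nat_lit 9) 
(.lf (nat_lit 533617) (.g (nat_lit 3122) (.e (nat_lit 57409) (nat_lit 12) (.e (nat_lit 336454) (nat_lit 34) (.e (nat_lit 483380) (nat_lit 23) (.e (nat_lit 336324) (nat_lit 18) (.e (nat_lit 204831) (nat_lit 18) (.e (nat_lit 57847) (nat_lit 252) .nil)))))) (.g (nat_lit 1) (.e (nat_lit 253122) (nat_lit 0) .nil) .nil))) 
(.lf (nat_lit 534129) (.g (nat_lit 3387) (.e (nat_lit 57464) (nat_lit 23) (.e (nat_lit 516166) (nat_lit 12) (.e (nat_lit 450588) (nat_lit 10) (.e (nat_lit 573449) (nat_lit 9) (.e (nat_lit 473) (nat_lit 36) (.e (nat_lit 466688) (nat_lit 3) .nil)))))) (.g (nat_lit 1) (.e (nat_lit 254041) (nat_lit 0) .nil) .nil)))) (.nd (nat_lit 9) 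
(.lf (nat_lit 533873) (.g (nat_lit 3750) (.e (nat_lit 57430) (nat_lit 16) (.e (nat_lit 368676) (nat_lit 21) (.e (nat_lit 516165) (nat_lit 12) (.e (nat_lit 450586) (nat_lit 10) (.e (nat_lit 573475) (nat_lit 12) (.e (nat_lit 57348) (nat_lit 0) (.e (nat_lit 7266) (nat_lit 384) .nil))))))) (.g (nat_lit 1) (.e (nat_lit 253543) (nat_lit 0) .nil) .nil))) 
(.lf (nat_lit 534385) (.g (nat_lit 2099) (.e (nat_lit 57477) (nat_lit 28) (.e (nat_lit 557107) (nat_lit 15) (.e (nat_lit 188450) (nat_lit 23) (.e (nat_lit 204855) (nat_lit 26) (.e (nat_lit 336290) (nat_lit 15) (.e (nat_lit 3714) (nat_lit 227) (.e (nat_lit 786176) (nat_lit 3) .nil))))))) (.g (nat_lit 1) (.e (nat_lit 254499) (nat_lit 0) .nil) .nil))))) (.nd (nat_lit 8) (.nd (nat_lit 9) 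
(.lf (nat_lit 533745) (.g (nat_lit 2488) (.e (nat_lit 57412) (nat_lit 12) (.e (nat_lit 336008) (nat_lit 2) (.e (nat_lit 90170) (nat_lit 13) (.e (nat_lit 172113) (nat_lit 10) (.e (nat_lit 434247) (nat_lit 28) (.e (nat_lit 573478) (nat_lit 12) (.e (nat_lit 57351) (nat_lit 0) (.e (nat_lit 7265) (nat_lit 384) .nil)))))))) (.g (nat_lit 1) (.e (nat_lit 253335) (nat_lit 0) .nil) .nil))) 
(.lf (nat_lit 534257) (.g (nat_lit 1130) (.e (nat_lit 57474) (nat_lit 28) (.e (nat_lit 557109) (nat_lit 15) (.e (nat_lit 188450) (nat_lit 23) .nil))) (.g (nat_lit 0) (.e (nat_lit 254205) (nat_lit 0) .nil) .nil)))) (.nd (nat_lit 9) 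
(.lf (nat_lit 534001) (.g (nat_lit 2126) (.e (nat_lit 57464) (nat_lit 23) (.e (nat_lit 516123) (nat_lit 2) (.e (nat_lit 213013) (nat_lit 9) (.e (nat_lit 2710) (nat_lit 170) (.e (nat_lit 221207) (nat_lit 21) (.e (nat_lit 164345) (nat_lit 240) (.e (nat_lit 2639) (nat_lit 165) (.e (nat_lit 188160) (nat_lit 35) .nil)))))))) (.g (nat_lit 1) (.e (nat_lit 253873) (nat_lit 0) .nil) .nil))) 
(.lf (nat_lit 534513) (.g (nat_lit 4457) (.e (nat_lit 57479) (nat_lit 28) (.e (nat_lit 557105) (nat_lit 14) (.e (nat_lit 180252) (nat_lit 10) (.e (nat_lit 573487) (nat_lit 14) (.e (nat_lit 73746) (nat_lit 3) (.e (nat_lit 516100) (nat_lit 0) (.e (nat_lit 7936) (nat_lit 216) (.e (nat_lit 688166) (nat_lit 15) .nil)))))))) (.g (nat_lit 1) (.e (nat_lit 254727) (nat_lit 0) .nil) .nil))))))))) 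
(.nd (nat_lit 4) (.nd (nat_lit 5) (.nd (nat_lit 6) (.nd (nat_lit 7) (.nd (nat_lit 8) 
(.nd (nat_lit 9) 
(.lf (nat_lit 533513) (.g (nat_lit 4748) (.e (nat_lit 57407) (nat_lit 12) (.e (nat_lit 336019) (nat_lit 3) (.e (nat_lit 98373) (nat_lit 29) (.e (nat_lit 450587) (nat_lit 10) (.e (nat_lit 573478) (nat_lit 12) (.e (nat_lit 57351) (nat_lit 0) (.e (nat_lit 7261) (nat_lit 384) .nil))))))) (.g (nat_lit 1) (.e (nat_lit 252981) (nat_lit 0) .nil) .nil))) 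
(.lf (nat_lit 534025) (.g (nat_lit 3720) (.e (nat_lit 57464) (nat_lit 23) (.e (nat_lit 516139) (nat_lit 7) (.e (nat_lit 409649) (nat_lit 18) (.e (nat_lit 303116) (nat_lit 2) (.e (nat_lit 196661) (nat_lit 12) (.e (nat_lit 57723) (nat_lit 180) (.e (nat_lit 229657) (nat_lit 235) .nil))))))) (.g (nat_lit 1) (.e (nat_lit 253915) (nat_lit 0) .nil) .nil)))) (.nd (nat_lit 9) 
(.lf (nat_lit 533769) (.g (nat_lit 4347) (.e (nat_lit 57412) (nat_lit 12) (.e (nat_lit 336023) (nat_lit 3) (.e (nat_lit 98373) (nat_lit 29) (.e (nat_lit 450588) (nat_lit 10) (.e (nat_lit 573475) (nat_lit 12) (.e (nat_lit 57351) (nat_lit 0) (.e (nat_lit 7261) (nat_lit 384) .nil))))))) (.g (nat_lit 1) (.e (nat_lit 253359) (nat_lit 0) .nil) .nil))) 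
(.lf (nat_lit 534281) (.g (nat_lit 3753) (.e (nat_lit 57476) (nat_lit 28) (.e (nat_lit 557096) (nat_lit 13) (.e (nat_lit 172106) (nat_lit 10) (.e (nat_lit 434231) (nat_lit 23) (.e (nat_lit 532535) (nat_lit 9) (.e (nat_lit 336295) (nat_lit 15) (.e (nat_lit 3632) (nat_lit 227) (.e (nat_lit 778318) (nat_lit 3) .nil)))))))) (.g (nat_lit 1) (.e (nat_lit 254349) (nat_lit 0) .nil) .nil))))) 
(.nd (nat_lit 8) (.nd (nat_lit 9) 
(.lf (nat_lit 533641) (.g (nat_lit 549) (.e (nat_lit 57410) (nat_lit 12) (.e (nat_lit 336443) (nat_lit 32) (.e (nat_lit 466979) (nat_lit 23) .nil))) (.g (nat_lit 0) (.e (nat_lit 253155) (nat_lit 0) .nil) .nil))) 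
(.lf (nat_lit 534153) (.g (nat_lit 3555) (.e (nat_lit 57464) (nat_lit 23) (.e (nat_lit 516166) (nat_lit 12) (.e (nat_lit 450588) (nat_lit 10) (.e (nat_lit 573470) (nat_lit 11) (.e (nat_lit 16388) (nat_lit 0) (.e (nat_lit 7583) (nat_lit 405) .nil)))))) (.g (nat_lit 1) (.e (nat_lit 254065) (nat_lit 0) .nil) .nil)))) (.nd (nat_lit 9) 
(.lf (nat_lit 533897) (.g (nat_lit 3277) (.e (nat_lit 57431) (nat_lit 16) (.e (nat_lit 368676) (nat_lit 21) (.e (nat_lit 516165) (nat_lit 12) (.e (nat_lit 450586) (nat_lit 10) (.e (nat_lit 573473) (nat_lit 12) (.e (nat_lit 57353) (nat_lit 0) (.e (nat_lit 7266) (nat_lit 384) .nil))))))) (.g (nat_lit 1) (.e (nat_lit 253569) (nat_lit 0) .nil) .nil))) 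
(.lf (nat_lit 534409) (.g (nat_lit 2478) (.e (nat_lit 57478) (nat_lit 28) (.e (nat_lit 557100) (nat_lit 13) (.e (nat_lit 172106) (nat_lit 10) (.e (nat_lit 434231) (nat_lit 23) (.e (nat_lit 532563) (nat_lit 15) .nil))))) (.g (nat_lit 0) (.e (nat_lit 254561) (nat_lit 0) .nil) .nil)))))) (.nd (nat_lit 7) (.nd (nat_lit 8) (.nd (nat_lit 9) 
(.lf (nat_lit 533577) (.g (nat_lit 2051) (.e (nat_lit 57409) (nat_lit 12) (.e (nat_lit 336182) (nat_lit 11) (.e (nat_lit 368698) (nat_lit 43) (.e (nat_lit 770071) (nat_lit 8) (.e (nat_lit 65617) (nat_lit 10) (.e (nat_lit 344095) (nat_lit 18) (.e (nat_lit 7263) (nat_lit 384) .nil))))))) (.g (nat_lit 1) (.e (nat_lit 253063) (nat_lit 0) .nil) .nil))) 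
(.lf (nat_lit 534089) (.g (nat_lit 1787) (.e (nat_lit 57464) (nat_lit 23) (.e (nat_lit 516165) (nat_lit 12) (.e (nat_lit 450586) (nat_lit 10) (.e (nat_lit 573456) (nat_lit 9) (.e (nat_lit 7936) (nat_lit 33) (.e (nat_lit 442112) (nat_lit 3) .nil)))))) (.g (nat_lit 1) (.e (nat_lit 253995) (nat_lit 0) .nil) .nil)))) (.nd (nat_lit 9) 
(.lf (nat_lit 533833) (.g (nat_lit 2992) (.e (nat_lit 57419) (nat_lit 12) (.e (nat_lit 336194) (nat_lit 12) (.e (nat_lit 385105) (nat_lit 50) (.e (nat_lit 786481) (nat_lit 30) (.e (nat_lit 360457) (nat_lit 0) (.e (nat_lit 5949) (nat_lit 322) .nil)))))) (.g (nat_lit 1) (.e (nat_lit 253457) (nat_lit 0) .nil) .nil))) 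
(.lf (nat_lit 534345) (.g (nat_lit 3911) (.e (nat_lit 57476) (nat_lit 28) (.e (nat_lit 557108) (nat_lit 15) (.e (nat_lit 188452) (nat_lit 23) (.e (nat_lit 204852) (nat_lit 26) (.e (nat_lit 336243) (nat_lit 15) (.e (nat_lit 3627) (nat_lit 227) (.e (nat_lit 778318) (nat_lit 3) .nil))))))) (.g (nat_lit 1) (.e (nat_lit 254413) (nat_lit 0) .nil) .nil))))) (.nd (nat_lit 8) (.nd (nat_lit 9) 
(.lf (nat_lit 533705) (.g (nat_lit 1645) (.e (nat_lit 57412) (nat_lit 12) (.e (nat_lit 336001) (nat_lit 2) (.e (nat_lit 90170) (nat_lit 13) (.e (nat_lit 172113) (nat_lit 10) (.e (nat_lit 434242) (nat_lit 28) .nil))))) (.g (nat_lit 0) (.e (nat_lit 253295) (nat_lit 0) .nil) .nil))) 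
(.lf (nat_lit 534217) (.g (nat_lit 2009) (.e (nat_lit 57466) (nat_lit 23) (.e (nat_lit 516120) (nat_lit 1) (.e (nat_lit 164403) (nat_lit 256) (.e (nat_lit 57378) (nat_lit 3) .nil)))) (.g (nat_lit 0) (.e (nat_lit 254135) (nat_lit 0) .nil) .nil)))) (.nd (nat_lit 9) 
(.lf (nat_lit 533961) (.g (nat_lit 1448) (.e (nat_lit 57449) (nat_lit 20) (.e (nat_lit 401454) (nat_lit 12) (.e (nat_lit 475198) (nat_lit 40) (.e (nat_lit 704598) (nat_lit 6) .nil)))) (.g (nat_lit 0) (.e (nat_lit 253685) (nat_lit 0) .nil) .nil))) 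
(.lf (nat_lit 534473) (.g (nat_lit 2115) (.e (nat_lit 57479) (nat_lit 28) (.e (nat_lit 557101) (nat_lit 13) (.e (nat_lit 172097) (nat_lit 9) (.e (nat_lit 426140) (nat_lit 3) (.e (nat_lit 204855) (nat_lit 26) (.e (nat_lit 336290) (nat_lit 15) (.e (nat_lit 3715) (nat_lit 227) (.e (nat_lit 786176) (nat_lit 3) .nil)))))))) (.g (nat_lit 1) (.e (nat_lit 254687) (nat_lit 0) .nil) .nil))))))) 
(.nd (nat_lit 6) (.nd (nat_lit 7) (.nd (nat_lit 8) (.nd (nat_lit 9) 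
(.lf (nat_lit 533545) (.g (nat_lit 1968) (.e (nat_lit 57407) (nat_lit 12) (.e (nat_lit 336456) (nat_lit 34) (.e (nat_lit 483383) (nat_lit 23) (.e (nat_lit 336286) (nat_lit 15) .nil)))) (.g (nat_lit 0) (.e (nat_lit 253030) (nat_lit 0) .nil) .nil))) 
(.lf (nat_lit 534057) (.g (nat_lit 2324) (.e (nat_lit 57464) (nat_lit 23) (.e (nat_lit 516151) (nat_lit 9) (.e (nat_lit 426286) (nat_lit 10) (.e (nat_lit 434248) (nat_lit 28) (.e (nat_lit 573457) (nat_lit 9) (.e (nat_lit 430) (nat_lit 32) (.e (nat_lit 426011) (nat_lit 0) (.e (nat_lit 7583) (nat_lit 405) .nil)))))))) (.g (nat_lit 1) (.e (nat_lit 253950) (nat_lit 0) .nil) .nil)))) (.nd (nat_lit 9) 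
(.lf (nat_lit 533801) (.g (nat_lit 2725) (.e (nat_lit 57412) (nat_lit 12) (.e (nat_lit 336226) (nat_lit 14) (.e (nat_lit 401437) (nat_lit 9) (.e (nat_lit 426546) (nat_lit 30) (.e (nat_lit 360456) (nat_lit 0) (.e (nat_lit 5948) (nat_lit 322) .nil)))))) (.g (nat_lit 1) (.e (nat_lit 253406) (nat_lit 0) .nil) .nil))) 
(.lf (nat_lit 534313) (.g (nat_lit 3210) (.e (nat_lit 57476) (nat_lit 28) (.e (nat_lit 557107) (nat_lit 15) (.e (nat_lit 188447) (nat_lit 22) (.e (nat_lit 196666) (nat_lit 13) (.e (nat_lit 65638) (nat_lit 15) .nil))))) (.g (nat_lit 0) (.e (nat_lit 254381) (nat_lit 0) .nil) .nil))))) (.nd (nat_lit 8) (.nd (nat_lit 9) 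
(.lf (nat_lit 533673) (.g (nat_lit 2332) (.e (nat_lit 57411) (nat_lit 12) (.e (nat_lit 336443) (nat_lit 32) (.e (nat_lit 466977) (nat_lit 22) (.e (nat_lit 196656) (nat_lit 11) (.e (nat_lit 16404) (nat_lit 1) .nil))))) (.g (nat_lit 0) (.e (nat_lit 253246) (nat_lit 0) .nil) .nil))) 
(.lf (nat_lit 534185) (.g (nat_lit 2720) (.e (nat_lit 57465) (nat_lit 23) (.e (nat_lit 516129) (nat_lit 3) (.e (nat_lit 221210) (nat_lit 22) (.e (nat_lit 196668) (nat_lit 14) (.e (nat_lit 73746) (nat_lit 3) (.e (nat_lit 516100) (nat_lit 0) (.e (nat_lit 7936) (nat_lit 216) (.e (nat_lit 688168) (nat_lit 15) .nil)))))))) (.g (nat_lit 1) (.e (nat_lit 254102) (nat_lit 0) .nil) .nil)))) 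
(.nd (nat_lit 9) 
(.lf (nat_lit 533929) (.g (nat_lit 2283) (.e (nat_lit 57437) (nat_lit 17) (.e (nat_lit 376835) (nat_lit 0) (.e (nat_lit 3746) (nat_lit 228) (.e (nat_lit 786483) (nat_lit 30) (.e (nat_lit 360451) (nat_lit 0) (.e (nat_lit 7936) (nat_lit 322) .nil)))))) (.g (nat_lit 1) (.e (nat_lit 253627) (nat_lit 0) .nil) .nil))) 
(.lf (nat_lit 534441) (.g (nat_lit 2291) (.e (nat_lit 57479) (nat_lit 28) (.e (nat_lit 557100) (nat_lit 13) (.e (nat_lit 172106) (nat_lit 10) (.e (nat_lit 434231) (nat_lit 23) (.e (nat_lit 532529) (nat_lit 9) (.e (nat_lit 336296) (nat_lit 15) (.e (nat_lit 3681) (nat_lit 227) (.e (nat_lit 786176) (nat_lit 3) .nil)))))))) (.g (nat_lit 1) (.e (nat_lit 254655) (nat_lit 0) .nil) .nil)))))) 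
(.nd (nat_lit 7) (.nd (nat_lit 8) (.nd (nat_lit 9) 
(.lf (nat_lit 533609) (.g (nat_lit 3122) (.e (nat_lit 57409) (nat_lit 12) (.e (nat_lit 336443) (nat_lit 32) (.e (nat_lit 466977) (nat_lit 22) (.e (nat_lit 196656) (nat_lit 11) (.e (nat_lit 16392) (nat_lit 0) (.e (nat_lit 2397) (nat_lit 157) (.e (nat_lit 5941) (nat_lit 322) .nil))))))) (.g (nat_lit 1) (.e (nat_lit 253113) (nat_lit 0) .nil) .nil))) 
(.lf (nat_lit 534121) (.g (nat_lit 1922) (.e (nat_lit 57464) (nat_lit 23) (.e (nat_lit 516166) (nat_lit 12) (.e (nat_lit 450587) (nat_lit 10) (.e (nat_lit 573456) (nat_lit 9) (.e (nat_lit 7936) (nat_lit 33) (.e (nat_lit 442112) (nat_lit 3) .nil)))))) (.g (nat_lit 1) (.e (nat_lit 254033) (nat_lit 0) .nil) .nil)))) (.nd (nat_lit 9) 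
(.lf (nat_lit 533865) (.g (nat_lit 3577) (.e (nat_lit 57427) (nat_lit 15) (.e (nat_lit 360474) (nat_lit 8) (.e (nat_lit 557091) (nat_lit 12) (.e (nat_lit 164003) (nat_lit 40) (.e (nat_lit 655364) (nat_lit 0) (.e (nat_lit 2707) (nat_lit 170) (.e (nat_lit 221208) (nat_lit 21) (.e (nat_lit 164401) (nat_lit 256) .nil)))))))) (.g (nat_lit 1) (.e (nat_lit 253527) (nat_lit 0) .nil) .nil))) 
(.lf (nat_lit 534377) (.g (nat_lit 2036) (.e (nat_lit 57477) (nat_lit 28) (.e (nat_lit 557097) (nat_lit 13) (.e (nat_lit 172115) (nat_lit 10) (.e (nat_lit 434231) (nat_lit 23) (.e (nat_lit 532564) (nat_lit 15) .nil))))) (.g (nat_lit 0) (.e (nat_lit 254491) (nat_lit 0) .nil) .nil))))) (.nd (nat_lit 8) (.nd (nat_lit 9) 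
(.lf (nat_lit 533737) (.g (nat_lit 2233) (.e (nat_lit 57412) (nat_lit 12) (.e (nat_lit 336008) (nat_lit 2) (.e (nat_lit 90170) (nat_lit 13) (.e (nat_lit 172113) (nat_lit 10) (.e (nat_lit 434245) (nat_lit 28) (.e (nat_lit 573473) (nat_lit 12) (.e (nat_lit 57347) (nat_lit 0) (.e (nat_lit 7261) (nat_lit 384) .nil)))))))) (.g (nat_lit 1) (.e (nat_lit 253327) (nat_lit 0) .nil) .nil))) 
(.lf (nat_lit 534249) (.g (nat_lit 1957) (.e (nat_lit 57474) (nat_lit 28) (.e (nat_lit 557098) (nat_lit 13) (.e (nat_lit 172115) (nat_lit 10) (.e (nat_lit 434231) (nat_lit 23) .nil)))) (.g (nat_lit 0) (.e (nat_lit 254197) (nat_lit 0) .nil) .nil)))) (.nd (nat_lit 9) 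
(.lf (nat_lit 533993) (.g (nat_lit 2872) (.e (nat_lit 57464) (nat_lit 23) (.e (nat_lit 516115) (nat_lit 1) (.e (nat_lit 164325) (nat_lit 230) (.e (nat_lit 163868) (nat_lit 2) .nil)))) (.g (nat_lit 0) (.e (nat_lit 253853) (nat_lit 0) .nil) .nil))) 
(.lf (nat_lit 534505) (.g (nat_lit 3231) (.e (nat_lit 57479) (nat_lit 28) (.e (nat_lit 557105) (nat_lit 14) (.e (nat_lit 180252) (nat_lit 10) (.e (nat_lit 573482) (nat_lit 13) (.e (nat_lit 65571) (nat_lit 3) (.e (nat_lit 98319) (nat_lit 17) (.e (nat_lit 3454) (nat_lit 216) (.e (nat_lit 688166) (nat_lit 15) .nil)))))))) (.g (nat_lit 1) (.e (nat_lit 254719) (nat_lit 0) .nil) .nil)))))))) 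
(.nd (nat_lit 5) (.nd (nat_lit 6) (.nd (nat_lit 7) (.nd (nat_lit 8) (.nd (nat_lit 9) 
(.lf (nat_lit 533529) (.g (nat_lit 855) (.e (nat_lit 57407) (nat_lit 12) (.e (nat_lit 336443) (nat_lit 32) (.e (nat_lit 466978) (nat_lit 23) .nil))) (.g (nat_lit 0) (.e (nat_lit 253013) (nat_lit 0) .nil) .nil))) 
(.lf (nat_lit 534041) (.g (nat_lit 3556) (.e (nat_lit 57464) (nat_lit 23) (.e (nat_lit 516151) (nat_lit 9) (.e (nat_lit 426286) (nat_lit 10) (.e (nat_lit 434245) (nat_lit 28) (.e (nat_lit 573450) (nat_lit 9) (.e (nat_lit 442) (nat_lit 33) (.e (nat_lit 442112) (nat_lit 3) .nil))))))) (.g (nat_lit 1) (.e (nat_lit 253934) (nat_lit 0) .nil) .nil)))) (.nd (nat_lit 9) 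
(.lf (nat_lit 533785) (.g (nat_lit 1536) (.e (nat_lit 57412) (nat_lit 12) (.e (nat_lit 336176) (nat_lit 10) (.e (nat_lit 344157) (nat_lit 36) (.e (nat_lit 638985) (nat_lit 5) (.e (nat_lit 3027) (nat_lit 187) (.e (nat_lit 458496) (nat_lit 0) (.e (nat_lit 5202) (nat_lit 294) .nil))))))) (.g (nat_lit 1) (.e (nat_lit 253376) (nat_lit 0) .nil) .nil))) 
(.lf (nat_lit 534297) (.g (nat_lit 3087) (.e (nat_lit 57476) (nat_lit 28) (.e (nat_lit 557097) (nat_lit 13) (.e (nat_lit 172115) (nat_lit 10) (.e (nat_lit 434231) (nat_lit 23) (.e (nat_lit 532528) (nat_lit 9) (.e (nat_lit 336303) (nat_lit 15) (.e (nat_lit 3621) (nat_lit 227) (.e (nat_lit 778318) (nat_lit 3) .nil)))))))) (.g (nat_lit 1) (.e (nat_lit 254365) (nat_lit 0) .nil) .nil))))) 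
(.nd (nat_lit 8) (.nd (nat_lit 9) 
(.lf (nat_lit 533657) (.g (nat_lit 2150) (.e (nat_lit 57411) (nat_lit 12) (.e (nat_lit 336208) (nat_lit 12) (.e (nat_lit 385102) (nat_lit 50) (.e (nat_lit 786483) (nat_lit 30) (.e (nat_lit 360450) (nat_lit 0) (.e (nat_lit 7936) (nat_lit 322) .nil)))))) (.g (nat_lit 1) (.e (nat_lit 253213) (nat_lit 0) .nil) .nil))) 
(.lf (nat_lit 534169) (.g (nat_lit 2255) (.e (nat_lit 57465) (nat_lit 23) (.e (nat_lit 516115) (nat_lit 1) (.e (nat_lit 164399) (nat_lit 256) (.e (nat_lit 57374) (nat_lit 2) (.e (nat_lit 90174) (nat_lit 14) .nil))))) (.g (nat_lit 0) (.e (nat_lit 254084) (nat_lit 0) .nil) .nil)))) (.nd (nat_lit 9) 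
(.lf (nat_lit 533913) (.g (nat_lit 5342) (.e (nat_lit 57431) (nat_lit 16) (.e (nat_lit 368676) (nat_lit 21) (.e (nat_lit 516166) (nat_lit 12) (.e (nat_lit 450588) (nat_lit 10) (.e (nat_lit 573473) (nat_lit 12) (.e (nat_lit 57352) (nat_lit 0) (.e (nat_lit 7261) (nat_lit 384) .nil))))))) (.g (nat_lit 1) (.e (nat_lit 253585) (nat_lit 0) .nil) .nil))) 
(.lf (nat_lit 534425) (.g (nat_lit 2444) (.e (nat_lit 57478) (nat_lit 28) (.e (nat_lit 557109) (nat_lit 15) (.e (nat_lit 188449) (nat_lit 22) (.e (nat_lit 196666) (nat_lit 13) (.e (nat_lit 73472) (nat_lit 4) .nil))))) (.g (nat_lit 0) (.e (nat_lit 254593) (nat_lit 0) .nil) .nil)))))) (.nd (nat_lit 7) (.nd (nat_lit 8) (.nd (nat_lit 9) 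
(.lf (nat_lit 533593) (.g (nat_lit 3505) (.e (nat_lit 57409) (nat_lit 12) (.e (nat_lit 336326) (nat_lit 18) (.e (nat_lit 204869) (nat_lit 29) (.e (nat_lit 360451) (nat_lit 0) (.e (nat_lit 7695) (nat_lit 412) (.e (nat_lit 57364) (nat_lit 1) (.e (nat_lit 57854) (nat_lit 252) .nil))))))) (.g (nat_lit 1) (.e (nat_lit 253096) (nat_lit 0) .nil) .nil))) 
(.lf (nat_lit 534105) (.g (nat_lit 2948) (.e (nat_lit 57464) (nat_lit 23) (.e (nat_lit 516165) (nat_lit 12) (.e (nat_lit 450588) (nat_lit 10) (.e (nat_lit 573452) (nat_lit 9) (.e (nat_lit 430) (nat_lit 32) (.e (nat_lit 426010) (nat_lit 0) (.e (nat_lit 7583) (nat_lit 405) .nil))))))) (.g (nat_lit 1) (.e (nat_lit 254011) (nat_lit 0) .nil) .nil)))) (.nd (nat_lit 9) 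
(.lf (nat_lit 533849) (.g (nat_lit 2405) (.e (nat_lit 57421) (nat_lit 13) (.e (nat_lit 344068) (nat_lit 0) (.e (nat_lit 2856) (nat_lit 184) (.e (nat_lit 426542) (nat_lit 29) (.e (nat_lit 352318) (nat_lit 24) .nil))))) (.g (nat_lit 0) (.e (nat_lit 253490) (nat_lit 0) .nil) .nil))) 
(.lf (nat_lit 534361) (.g (nat_lit 2611) (.e (nat_lit 57476) (nat_lit 28) (.e (nat_lit 557108) (nat_lit 15) (.e (nat_lit 188452) (nat_lit 23) (.e (nat_lit 204855) (nat_lit 26) (.e (nat_lit 336290) (nat_lit 15) (.e (nat_lit 3711) (nat_lit 227) (.e (nat_lit 786176) (nat_lit 3) .nil))))))) (.g (nat_lit 1) (.e (nat_lit 254429) (nat_lit 0) .nil) .nil))))) (.nd (nat_lit 8) (.nd (nat_lit 9) 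
(.lf (nat_lit 533721) (.g (nat_lit 4495) (.e (nat_lit 57412) (nat_lit 12) (.e (nat_lit 336001) (nat_lit 2) (.e (nat_lit 90170) (nat_lit 13) (.e (nat_lit 172113) (nat_lit 10) (.e (nat_lit 434248) (nat_lit 28) (.e (nat_lit 573475) (nat_lit 12) (.e (nat_lit 57347) (nat_lit 0) (.e (nat_lit 7263) (nat_lit 384) .nil)))))))) (.g (nat_lit 1) (.e (nat_lit 253311) (nat_lit 0) .nil) .nil))) 
(.lf (nat_lit 534233) (.g (nat_lit 2059) (.e (nat_lit 57467) (nat_lit 23) (.e (nat_lit 516115) (nat_lit 1) (.e (nat_lit 164399) (nat_lit 256) (.e (nat_lit 57372) (nat_lit 2) (.e (nat_lit 90174) (nat_lit 14) .nil))))) (.g (nat_lit 0) (.e (nat_lit 254161) (nat_lit 0) .nil) .nil)))) (.nd (nat_lit 9) 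
(.lf (nat_lit 533977) (.g (nat_lit 2304) (.e (nat_lit 57451) (nat_lit 20) (.e (nat_lit 401448) (nat_lit 10) (.e (nat_lit 434272) (nat_lit 38) (.e (nat_lit 655364) (nat_lit 0) (.e (nat_lit 3016) (nat_lit 187) (.e (nat_lit 450569) (nat_lit 0) (.e (nat_lit 5947) (nat_lit 322) .nil))))))) (.g (nat_lit 1) (.e (nat_lit 253718) (nat_lit 0) .nil) .nil))) 
(.lf (nat_lit 534489) (.g (nat_lit 2752) (.e (nat_lit 57479) (nat_lit 28) (.e (nat_lit 557105) (nat_lit 14) (.e (nat_lit 180251) (nat_lit 10) (.e (nat_lit 573485) (nat_lit 13) (.e (nat_lit 65570) (nat_lit 3) (.e (nat_lit 98321) (nat_lit 17) (.e (nat_lit 7936) (nat_lit 216) (.e (nat_lit 688166) (nat_lit 15) .nil)))))))) (.g (nat_lit 1) (.e (nat_lit 254703) (nat_lit 0) .nil) .nil))))))) 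
(.nd (nat_lit 6) (.nd (nat_lit 7) (.nd (nat_lit 8) (.nd (nat_lit 9) 
(.lf (nat_lit 533561) (.g (nat_lit 1099) (.e (nat_lit 57408) (nat_lit 12) (.e (nat_lit 336432) (nat_lit 30) (.e (nat_lit 450580) (nat_lit 5) (.e (nat_lit 532579) (nat_lit 26) .nil)))) (.g (nat_lit 0) (.e (nat_lit 253046) (nat_lit 0) .nil) .nil))) 
(.lf (nat_lit 534073) (.g (nat_lit 1122) (.e (nat_lit 57464) (nat_lit 23) (.e (nat_lit 516163) (nat_lit 11) (.e (nat_lit 442427) (nat_lit 23) (.e (nat_lit 204846) (nat_lit 24) .nil)))) (.g (nat_lit 0) (.e (nat_lit 253976) (nat_lit 0) .nil) .nil)))) (.nd (nat_lit 9) 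
(.lf (nat_lit 533817) (.g (nat_lit 2765) (.e (nat_lit 57419) (nat_lit 12) (.e (nat_lit 335986) (nat_lit 1) (.e (nat_lit 57847) (nat_lit 252) (.e (nat_lit 57365) (nat_lit 1) (.e (nat_lit 57926) (nat_lit 282) (.e (nat_lit 163933) (nat_lit 17) (.e (nat_lit 466971) (nat_lit 21) (.e (nat_lit 164401) (nat_lit 256) .nil)))))))) (.g (nat_lit 1) (.e (nat_lit 253436) (nat_lit 0) .nil) .nil))) 
(.lf (nat_lit 534329) (.g (nat_lit 2158) (.e (nat_lit 57476) (nat_lit 28) (.e (nat_lit 557107) (nat_lit 15) (.e (nat_lit 188450) (nat_lit 23) (.e (nat_lit 204855) (nat_lit 26) (.e (nat_lit 336290) (nat_lit 15) (.e (nat_lit 3711) (nat_lit 227) (.e (nat_lit 778316) (nat_lit 3) .nil))))))) (.g (nat_lit 1) (.e (nat_lit 254397) (nat_lit 0) .nil) .nil))))) (.nd (nat_lit 8) (.nd (nat_lit 9) 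
(.lf (nat_lit 533689) (.g (nat_lit 2686) (.e (nat_lit 57411) (nat_lit 12) (.e (nat_lit 336456) (nat_lit 34) (.e (nat_lit 483394) (nat_lit 24) (.e (nat_lit 344117) (nat_lit 21) (.e (nat_lit 516099) (nat_lit 0) .nil))))) (.g (nat_lit 0) (.e (nat_lit 253279) (nat_lit 0) .nil) .nil))) 
(.lf (nat_lit 534201) (.g (nat_lit 1841) (.e (nat_lit 57466) (nat_lit 23) (.e (nat_lit 516115) (nat_lit 1) (.e (nat_lit 164399) (nat_lit 256) (.e (nat_lit 57370) (nat_lit 2) (.e (nat_lit 90174) (nat_lit 14) .nil))))) (.g (nat_lit 0) (.e (nat_lit 254119) (nat_lit 0) .nil) .nil)))) (.nd (nat_lit 9) 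
(.lf (nat_lit 533945) (.g (nat_lit 753) (.e (nat_lit 57442) (nat_lit 18) (.e (nat_lit 385107) (nat_lit 51) (.e (nat_lit 802560) (nat_lit 1) .nil))) (.g (nat_lit 0) (.e (nat_lit 253655) (nat_lit 0) .nil) .nil))) 
(.lf (nat_lit 534457) (.g (nat_lit 3008) (.e (nat_lit 57479) (nat_lit 28) (.e (nat_lit 557100) (nat_lit 13) (.e (nat_lit 172106) (nat_lit 10) (.e (nat_lit 434231) (nat_lit 23) (.e (nat_lit 532535) (nat_lit 9) (.e (nat_lit 336290) (nat_lit 15) (.e (nat_lit 3716) (nat_lit 227) (.e (nat_lit 786176) (nat_lit 3) .nil)))))))) (.g (nat_lit 1) (.e (nat_lit 254671) (nat_lit 0) .nil) .nil)))))) 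
(.nd (nat_lit 7) (.nd (nat_lit 8) (.nd (nat_lit 9) 
(.lf (nat_lit 533625) (.g (nat_lit 457) (.e (nat_lit 57409) (nat_lit 12) (.e (nat_lit 336454) (nat_lit 34) (.e (nat_lit 483390) (nat_lit 23) .nil))) (.g (nat_lit 0) (.e (nat_lit 253130) (nat_lit 0) .nil) .nil))) 
(.lf (nat_lit 534137) (.g (nat_lit 3746) (.e (nat_lit 57464) (nat_lit 23) (.e (nat_lit 516166) (nat_lit 12) (.e (nat_lit 450588) (nat_lit 10) (.e (nat_lit 573451) (nat_lit 9) (.e (nat_lit 430) (nat_lit 32) .nil))))) (.g (nat_lit 0) (.e (nat_lit 254049) (nat_lit 0) .nil) .nil)))) (.nd (nat_lit 9) 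
(.lf (nat_lit 533881) (.g (nat_lit 2688) (.e (nat_lit 57430) (nat_lit 16) (.e (nat_lit 368676) (nat_lit 21) (.e (nat_lit 516165) (nat_lit 12) (.e (nat_lit 450587) (nat_lit 10) (.e (nat_lit 573478) (nat_lit 12) .nil))))) (.g (nat_lit 0) (.e (nat_lit 253551) (nat_lit 0) .nil) .nil))) 
(.lf (nat_lit 534393) (.g (nat_lit 2583) (.e (nat_lit 57477) (nat_lit 28) (.e (nat_lit 557108) (nat_lit 15) (.e (nat_lit 188452) (nat_lit 23) (.e (nat_lit 204855) (nat_lit 26) (.e (nat_lit 336287) (nat_lit 15) .nil))))) (.g (nat_lit 0) (.e (nat_lit 254507) (nat_lit 0) .nil) .nil))))) (.nd (nat_lit 8) (.nd (nat_lit 9) 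
(.lf (nat_lit 533753) (.g (nat_lit 2925) (.e (nat_lit 57412) (nat_lit 12) (.e (nat_lit 336022) (nat_lit 3) (.e (nat_lit 98373) (nat_lit 29) (.e (nat_lit 450587) (nat_lit 10) (.e (nat_lit 573477) (nat_lit 12) (.e (nat_lit 57352) (nat_lit 0) (.e (nat_lit 7263) (nat_lit 384) .nil))))))) (.g (nat_lit 1) (.e (nat_lit 253343) (nat_lit 0) .nil) .nil))) 
(.lf (nat_lit 534265) (.g (nat_lit 3101) (.e (nat_lit 57475) (nat_lit 28) (.e (nat_lit 557100) (nat_lit 13) (.e (nat_lit 172106) (nat_lit 10) (.e (nat_lit 434231) (nat_lit 23) (.e (nat_lit 532563) (nat_lit 15) .nil))))) (.g (nat_lit 0) (.e (nat_lit 254215) (nat_lit 0) .nil) .nil)))) (.nd (nat_lit 9) 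
(.lf (nat_lit 534009) (.g (nat_lit 572) (.e (nat_lit 57464) (nat_lit 23) (.e (nat_lit 516139) (nat_lit 7) (.e (nat_lit 409644) (nat_lit 18) .nil))) (.g (nat_lit 0) (.e (nat_lit 253898) (nat_lit 0) .nil) .nil))) 
(.lf (nat_lit 534521) (.g (nat_lit 2457) (.e (nat_lit 57479) (nat_lit 28) (.e (nat_lit 557105) (nat_lit 14) (.e (nat_lit 180252) (nat_lit 10) (.e (nat_lit 573489) (nat_lit 14) (.e (nat_lit 73745) (nat_lit 3) (.e (nat_lit 516100) (nat_lit 0) (.e (nat_lit 7936) (nat_lit 216) (.e (nat_lit 688166) (nat_lit 15) .nil)))))))) (.g (nat_lit 1) (.e (nat_lit 254735) (nat_lit 0) .nil) .nil)))))))))) 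
(.nd (nat_lit 3) (.nd (nat_lit 4) (.nd (nat_lit 5) (.nd (nat_lit 6) (.nd (nat_lit 7) 
(.nd (nat_lit 8) (.nd (nat_lit 9) 
(.lf (nat_lit 533509) (.g (nat_lit 4646) (.e (nat_lit 57407) (nat_lit 12) (.e (nat_lit 336019) (nat_lit 3) (.e (nat_lit 98373) (nat_lit 29) (.e (nat_lit 450587) (nat_lit 10) (.e (nat_lit 573473) (nat_lit 12) .nil))))) (.g (nat_lit 0) (.e (nat_lit 252977) (nat_lit 0) .nil) .nil))) 
(.lf (nat_lit 534021) (.g (nat_lit 3803) (.e (nat_lit 57464) (nat_lit 23) (.e (nat_lit 516139) (nat_lit 7) (.e (nat_lit 409648) (nat_lit 18) (.e (nat_lit 303116) (nat_lit 2) (.e (nat_lit 196661) (nat_lit 12) (.e (nat_lit 57723) (nat_lit 180) (.e (nat_lit 229657) (nat_lit 235) .nil))))))) (.g (nat_lit 1) (.e (nat_lit 253910) (nat_lit 0) .nil) .nil)))) (.nd (nat_lit 9) 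
(.lf (nat_lit 533765) (.g (nat_lit 3941) (.e (nat_lit 57412) (nat_lit 12) (.e (nat_lit 336023) (nat_lit 3) (.e (nat_lit 98373) (nat_lit 29) (.e (nat_lit 450588) (nat_lit 10) (.e (nat_lit 573473) (nat_lit 12) .nil))))) (.g (nat_lit 0) (.e (nat_lit 253355) (nat_lit 0) .nil) .nil))) 
(.lf (nat_lit 534277) (.g (nat_lit 3991) (.e (nat_lit 57476) (nat_lit 28) (.e (nat_lit 557090) (nat_lit 12) (.e (nat_lit 164038) (nat_lit 55) (.e (nat_lit 778336) (nat_lit 9) (.e (nat_lit 2668) (nat_lit 167) (.e (nat_lit 196666) (nat_lit 13) (.e (nat_lit 65569) (nat_lit 3) (.e (nat_lit 98346) (nat_lit 22) (.e (nat_lit 253996) (nat_lit 12) .nil))))))))) (.g (nat_lit 1) (.e (nat_lit 254318) (nat_lit 0) .nil) .nil))))) 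
(.nd (nat_lit 8) (.nd (nat_lit 9) 
(.lf (nat_lit 533637) (.g (nat_lit 1495) (.e (nat_lit 57410) (nat_lit 12) (.e (nat_lit 336208) (nat_lit 12) (.e (nat_lit 385103) (nat_lit 50) (.e (nat_lit 786483) (nat_lit 30) (.e (nat_lit 368384) (nat_lit 0) (.e (nat_lit 5937) (nat_lit 322) .nil)))))) (.g (nat_lit 1) (.e (nat_lit 253147) (nat_lit 0) .nil) .nil))) 
(.lf (nat_lit 534149) (.g (nat_lit 5181) (.e (nat_lit 57464) (nat_lit 23) (.e (nat_lit 516166) (nat_lit 12) (.e (nat_lit 450588) (nat_lit 10) (.e (nat_lit 573469) (nat_lit 11) (.e (nat_lit 16388) (nat_lit 0) (.e (nat_lit 7581) (nat_lit 405) .nil)))))) (.g (nat_lit 1) (.e (nat_lit 254061) (nat_lit 0) .nil) .nil)))) (.nd (nat_lit 9) 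
(.lf (nat_lit 533893) (.g (nat_lit 1414) (.e (nat_lit 57430) (nat_lit 16) (.e (nat_lit 368676) (nat_lit 21) (.e (nat_lit 516171) (nat_lit 13) (.e (nat_lit 458798) (nat_lit 31) .nil)))) (.g (nat_lit 0) (.e (nat_lit 253563) (nat_lit 0) .nil) .nil))) 
(.lf (nat_lit 534405) (.g (nat_lit 3488) (.e (nat_lit 57478) (nat_lit 28) (.e (nat_lit 557100) (nat_lit 13) (.e (nat_lit 172106) (nat_lit 10) (.e (nat_lit 434231) (nat_lit 23) (.e (nat_lit 532535) (nat_lit 9) (.e (nat_lit 336290) (nat_lit 15) (.e (nat_lit 3711) (nat_lit 227) (.e (nat_lit 786176) (nat_lit 3) .nil)))))))) (.g (nat_lit 1) (.e (nat_lit 254557) (nat_lit 0) .nil) .nil)))))) 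
(.nd (nat_lit 7) (.nd (nat_lit 8) (.nd (nat_lit 9) 
(.lf (nat_lit 533573) (.g (nat_lit 5210) (.e (nat_lit 57409) (nat_lit 12) (.e (nat_lit 336019) (nat_lit 3) (.e (nat_lit 98373) (nat_lit 29) (.e (nat_lit 450588) (nat_lit 10) (.e (nat_lit 573473) (nat_lit 12) (.e (nat_lit 57353) (nat_lit 0) (.e (nat_lit 7266) (nat_lit 384) .nil))))))) (.g (nat_lit 1) (.e (nat_lit 253059) (nat_lit 0) .nil) .nil))) 
(.lf (nat_lit 534085) (.g (nat_lit 2993) (.e (nat_lit 57464) (nat_lit 23) (.e (nat_lit 516165) (nat_lit 12) (.e (nat_lit 450586) (nat_lit 10) (.e (nat_lit 573452) (nat_lit 9) (.e (nat_lit 430) (nat_lit 32) (.e (nat_lit 426012) (nat_lit 0) (.e (nat_lit 7581) (nat_lit 405) .nil))))))) (.g (nat_lit 1) (.e (nat_lit 253991) (nat_lit 0) .nil) .nil)))) (.nd (nat_lit 9) 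
(.lf (nat_lit 533829) (.g (nat_lit 1366) (.e (nat_lit 57419) (nat_lit 12) (.e (nat_lit 336194) (nat_lit 12) (.e (nat_lit 385105) (nat_lit 50) (.e (nat_lit 786480) (nat_lit 29) .nil)))) (.g (nat_lit 0) (.e (nat_lit 253453) (nat_lit 0) .nil) .nil))) 
(.lf (nat_lit 534341) (.g (nat_lit 2563) (.e (nat_lit 57476) (nat_lit 28) (.e (nat_lit 557108) (nat_lit 15) (.e (nat_lit 188449) (nat_lit 22) (.e (nat_lit 196666) (nat_lit 13) (.e (nat_lit 65639) (nat_lit 15) (.e (nat_lit 3715) (nat_lit 227) (.e (nat_lit 778316) (nat_lit 3) .nil))))))) (.g (nat_lit 1) (.e (nat_lit 254409) (nat_lit 0) .nil) .nil))))) (.nd (nat_lit 8) (.nd (nat_lit 9) 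
(.lf (nat_lit 533701) (.g (nat_lit 4531) (.e (nat_lit 57412) (nat_lit 12) (.e (nat_lit 336001) (nat_lit 2) (.e (nat_lit 90170) (nat_lit 13) (.e (nat_lit 172106) (nat_lit 10) (.e (nat_lit 434244) (nat_lit 28) (.e (nat_lit 573474) (nat_lit 12) (.e (nat_lit 57347) (nat_lit 0) (.e (nat_lit 7263) (nat_lit 384) .nil)))))))) (.g (nat_lit 1) (.e (nat_lit 253291) (nat_lit 0) .nil) .nil))) 
(.lf (nat_lit 534213) (.g (nat_lit 2728) (.e (nat_lit 57466) (nat_lit 23) (.e (nat_lit 516117) (nat_lit 1) (.e (nat_lit 164399) (nat_lit 256) (.e (nat_lit 57378) (nat_lit 3) (.e (nat_lit 98366) (nat_lit 27) .nil))))) (.g (nat_lit 0) (.e (nat_lit 254131) (nat_lit 0) .nil) .nil)))) (.nd (nat_lit 9) 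
(.lf (nat_lit 533957) (.g (nat_lit 2479) (.e (nat_lit 57447) (nat_lit 19) (.e (nat_lit 393281) (nat_lit 23) (.e (nat_lit 426133) (nat_lit 3) (.e (nat_lit 204813) (nat_lit 9) (.e (nat_lit 426099) (nat_lit 1) .nil))))) (.g (nat_lit 0) (.e (nat_lit 253678) (nat_lit 0) .nil) .nil))) 
(.lf (nat_lit 534469) (.g (nat_lit 2617) (.e (nat_lit 57479) (nat_lit 28) (.e (nat_lit 557101) (nat_lit 13) (.e (nat_lit 172097) (nat_lit 9) (.e (nat_lit 426140) (nat_lit 3) (.e (nat_lit 204855) (nat_lit 26) (.e (nat_lit 336253) (nat_lit 15) (.e (nat_lit 3715) (nat_lit 227) (.e (nat_lit 778316) (nat_lit 3) .nil)))))))) (.g (nat_lit 1) (.e (nat_lit 254683) (nat_lit 0) .nil) .nil))))))) 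
(.nd (nat_lit 6) (.nd (nat_lit 7) (.nd (nat_lit 8) (.nd (nat_lit 9) 
(.lf (nat_lit 533541) (.g (nat_lit 2406) (.e (nat_lit 57407) (nat_lit 12) (.e (nat_lit 336456) (nat_lit 34) (.e (nat_lit 483383) (nat_lit 23) (.e (nat_lit 336240) (nat_lit 15) (.e (nat_lit 3230) (nat_lit 197) (.e (nat_lit 532503) (nat_lit 1) (.e (nat_lit 57848) (nat_lit 252) .nil))))))) (.g (nat_lit 1) (.e (nat_lit 253026) (nat_lit 0) .nil) .nil))) 
(.lf (nat_lit 534053) (.g (nat_lit 3455) (.e (nat_lit 57464) (nat_lit 23) (.e (nat_lit 516151) (nat_lit 9) (.e (nat_lit 426286) (nat_lit 10) (.e (nat_lit 434248) (nat_lit 28) (.e (nat_lit 573449) (nat_lit 9) (.e (nat_lit 473) (nat_lit 36) (.e (nat_lit 466688) (nat_lit 3) .nil))))))) (.g (nat_lit 1) (.e (nat_lit 253946) (nat_lit 0) .nil) .nil)))) (.nd (nat_lit 9) 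
(.lf (nat_lit 533797) (.g (nat_lit 2577) (.e (nat_lit 57412) (nat_lit 12) (.e (nat_lit 336226) (nat_lit 14) (.e (nat_lit 401437) (nat_lit 9) (.e (nat_lit 426544) (nat_lit 30) (.e (nat_lit 368384) (nat_lit 0) (.e (nat_lit 5936) (nat_lit 322) .nil)))))) (.g (nat_lit 1) (.e (nat_lit 253402) (nat_lit 0) .nil) .nil))) 
(.lf (nat_lit 534309) (.g (nat_lit 3151) (.e (nat_lit 57476) (nat_lit 28) (.e (nat_lit 557097) (nat_lit 13) (.e (nat_lit 172115) (nat_lit 10) (.e (nat_lit 434231) (nat_lit 23) (.e (nat_lit 532535) (nat_lit 9) (.e (nat_lit 336290) (nat_lit 15) (.e (nat_lit 3716) (nat_lit 227) (.e (nat_lit 778316) (nat_lit 3) .nil)))))))) (.g (nat_lit 1) (.e (nat_lit 254377) (nat_lit 0) .nil) .nil))))) 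
(.nd (nat_lit 8) (.nd (nat_lit 9) 
(.lf (nat_lit 533669) (.g (nat_lit 2538) (.e (nat_lit 57411) (nat_lit 12) (.e (nat_lit 336367) (nat_lit 27) (.e (nat_lit 426542) (nat_lit 29) (.e (nat_lit 352313) (nat_lit 23) (.e (nat_lit 98321) (nat_lit 17) (.e (nat_lit 2464) (nat_lit 157) (.e (nat_lit 6400) (nat_lit 339) .nil))))))) (.g (nat_lit 1) (.e (nat_lit 253242) (nat_lit 0) .nil) .nil))) 
(.lf (nat_lit 534181) (.g (nat_lit 3296) (.e (nat_lit 57465) (nat_lit 23) (.e (nat_lit 516120) (nat_lit 1) (.e (nat_lit 164403) (nat_lit 256) (.e (nat_lit 57373) (nat_lit 2) (.e (nat_lit 90174) (nat_lit 14) .nil))))) (.g (nat_lit 0) (.e (nat_lit 254098) (nat_lit 0) .nil) .nil)))) (.nd (nat_lit 9) 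
(.lf (nat_lit 533925) (.g (nat_lit 1874) (.e (nat_lit 57436) (nat_lit 17) (.e (nat_lit 376835) (nat_lit 0) (.e (nat_lit 3746) (nat_lit 228) (.e (nat_lit 786483) (nat_lit 30) (.e (nat_lit 368384) (nat_lit 0) (.e (nat_lit 5954) (nat_lit 322) .nil)))))) (.g (nat_lit 1) (.e (nat_lit 253610) (nat_lit 0) .nil) .nil))) 
(.lf (nat_lit 534437) (.g (nat_lit 3555) (.e (nat_lit 57479) (nat_lit 28) (.e (nat_lit 557099) (nat_lit 13) (.e (nat_lit 172106) (nat_lit 10) (.e (nat_lit 434231) (nat_lit 23) (.e (nat_lit 532535) (nat_lit 9) (.e (nat_lit 336295) (nat_lit 15) (.e (nat_lit 3631) (nat_lit 227) (.e (nat_lit 778317) (nat_lit 3) .nil)))))))) (.g (nat_lit 1) (.e (nat_lit 254651) (nat_lit 0) .nil) .nil)))))) 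
(.nd (nat_lit 7) (.nd (nat_lit 8) (.nd (nat_lit 9) 
(.lf (nat_lit 533605) (.g (nat_lit 3581) (.e (nat_lit 57409) (nat_lit 12) (.e (nat_lit 336443) (nat_lit 32) (.e (nat_lit 466974) (nat_lit 22) (.e (nat_lit 196656) (nat_lit 11) (.e (nat_lit 16392) (nat_lit 0) (.e (nat_lit 2484) (nat_lit 157) (.e (nat_lit 5949) (nat_lit 322) .nil))))))) (.g (nat_lit 1) (.e (nat_lit 253109) (nat_lit 0) .nil) .nil))) 
(.lf (nat_lit 534117) (.g (nat_lit 2192) (.e (nat_lit 57464) (nat_lit 23) (.e (nat_lit 516166) (nat_lit 12) (.e (nat_lit 450580) (nat_lit 5) (.e (nat_lit 532523) (nat_lit 7) (.e (nat_lit 319505) (nat_lit 10) .nil))))) (.g (nat_lit 0) (.e (nat_lit 254029) (nat_lit 0) .nil) .nil)))) (.nd (nat_lit 9) 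
(.lf (nat_lit 533861) (.g (nat_lit 3371) (.e (nat_lit 57424) (nat_lit 14) (.e (nat_lit 352262) (nat_lit 0) (.e (nat_lit 3748) (nat_lit 228) (.e (nat_lit 786483) (nat_lit 30) (.e (nat_lit 360457) (nat_lit 0) (.e (nat_lit 5949) (nat_lit 322) .nil)))))) (.g (nat_lit 1) (.e (nat_lit 253515) (nat_lit 0) .nil) .nil))) 
(.lf (nat_lit 534373) (.g (nat_lit 1104) (.e (nat_lit 57477) (nat_lit 28) (.e (nat_lit 557090) (nat_lit 12) (.e (nat_lit 164038) (nat_lit 55) .nil))) (.g (nat_lit 0) (.e (nat_lit 254454) (nat_lit 0) .nil) .nil))))) (.nd (nat_lit 8) (.nd (nat_lit 9) 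
(.lf (nat_lit 533733) (.g (nat_lit 2571) (.e (nat_lit 57412) (nat_lit 12) (.e (nat_lit 336005) (nat_lit 2) (.e (nat_lit 90170) (nat_lit 13) (.e (nat_lit 172113) (nat_lit 10) (.e (nat_lit 434248) (nat_lit 28) (.e (nat_lit 573475) (nat_lit 12) (.e (nat_lit 57351) (nat_lit 0) (.e (nat_lit 7261) (nat_lit 384) .nil)))))))) (.g (nat_lit 1) (.e (nat_lit 253323) (nat_lit 0) .nil) .nil))) 
(.lf (nat_lit 534245) (.g (nat_lit 2446) (.e (nat_lit 57474) (nat_lit 28) (.e (nat_lit 557097) (nat_lit 13) (.e (nat_lit 172115) (nat_lit 10) (.e (nat_lit 434231) (nat_lit 23) (.e (nat_lit 532535) (nat_lit 9) .nil))))) (.g (nat_lit 0) (.e (nat_lit 254193) (nat_lit 0) .nil) .nil)))) (.nd (nat_lit 9) 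
(.lf (nat_lit 533989) (.g (nat_lit 4358) (.e (nat_lit 57463) (nat_lit 23) (.e (nat_lit 516166) (nat_lit 12) (.e (nat_lit 450588) (nat_lit 10) (.e (nat_lit 573470) (nat_lit 11) .nil)))) (.g (nat_lit 0) (.e (nat_lit 253843) (nat_lit 0) .nil) .nil))) 
(.lf (nat_lit 534501) (.g (nat_lit 4708) (.e (nat_lit 57479) (nat_lit 28) (.e (nat_lit 557105) (nat_lit 14) (.e (nat_lit 180252) (nat_lit 10) (.e (nat_lit 573482) (nat_lit 13) (.e (nat_lit 65569) (nat_lit 3) (.e (nat_lit 98321) (nat_lit 17) (.e (nat_lit 7936) (nat_lit 216) (.e (nat_lit 688166) (nat_lit 15) .nil)))))))) (.g (nat_lit 1) (.e (nat_lit 254715) (nat_lit 0) .nil) .nil)))))))) 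
(.nd (nat_lit 5) (.nd (nat_lit 6) (.nd (nat_lit 7) (.nd (nat_lit 8) (.nd (nat_lit 9) 
(.lf (nat_lit 533525) (.g (nat_lit 1808) (.e (nat_lit 57407) (nat_lit 12) (.e (nat_lit 336326) (nat_lit 18) (.e (nat_lit 204869) (nat_lit 29) (.e (nat_lit 360492) (nat_lit 22) .nil)))) (.g (nat_lit 0) (.e (nat_lit 253004) (nat_lit 0) .nil) .nil))) 
(.lf (nat_lit 534037) (.g (nat_lit 817) (.e (nat_lit 57464) (nat_lit 23) (.e (nat_lit 516151) (nat_lit 9) (.e (nat_lit 426177) (nat_lit 8) .nil))) (.g (nat_lit 0) (.e (nat_lit 253928) (nat_lit 0) .nil) .nil)))) (.nd (nat_lit 9) 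
(.lf (nat_lit 533781) (.g (nat_lit 1851) (.e (nat_lit 57412) (nat_lit 12) (.e (nat_lit 336176) (nat_lit 10) (.e (nat_lit 344157) (nat_lit 36) (.e (nat_lit 638985) (nat_lit 5) (.e (nat_lit 3015) (nat_lit 187) (.e (nat_lit 458496) (nat_lit 0) (.e (nat_lit 5200) (nat_lit 294) .nil))))))) (.g (nat_lit 1) (.e (nat_lit 253372) (nat_lit 0) .nil) .nil))) 
(.lf (nat_lit 534293) (.g (nat_lit 2938) (.e (nat_lit 57476) (nat_lit 28) (.e (nat_lit 557097) (nat_lit 13) (.e (nat_lit 172115) (nat_lit 10) (.e (nat_lit 434231) (nat_lit 23) (.e (nat_lit 532527) (nat_lit 9) (.e (nat_lit 336282) (nat_lit 15) (.e (nat_lit 3632) (nat_lit 227) (.e (nat_lit 778318) (nat_lit 3) .nil)))))))) (.g (nat_lit 1) (.e (nat_lit 254361) (nat_lit 0) .nil) .nil))))) 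
(.nd (nat_lit 8) (.nd (nat_lit 9) 
(.lf (nat_lit 533653) (.g (nat_lit 6446) (.e (nat_lit 57411) (nat_lit 12) (.e (nat_lit 336019) (nat_lit 3) (.e (nat_lit 98373) (nat_lit 29) (.e (nat_lit 450588) (nat_lit 10) (.e (nat_lit 573475) (nat_lit 12) (.e (nat_lit 57347) (nat_lit 0) (.e (nat_lit 7261) (nat_lit 384) .nil))))))) (.g (nat_lit 1) (.e (nat_lit 253204) (nat_lit 0) .nil) .nil))) 
(.lf (nat_lit 534165) (.g (nat_lit 3349) (.e (nat_lit 57465) (nat_lit 23) (.e (nat_lit 516115) (nat_lit 1) (.e (nat_lit 164325) (nat_lit 230) (.e (nat_lit 163873) (nat_lit 3) (.e (nat_lit 204809) (nat_lit 9) (.e (nat_lit 426139) (nat_lit 3) (.e (nat_lit 204834) (nat_lit 19) (.e (nat_lit 106537) (nat_lit 12) .nil)))))))) (.g (nat_lit 1) (.e (nat_lit 254080) (nat_lit 0) .nil) .nil)))) 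
(.nd (nat_lit 9) 
(.lf (nat_lit 533909) (.g (nat_lit 4398) (.e (nat_lit 57431) (nat_lit 16) (.e (nat_lit 368676) (nat_lit 21) (.e (nat_lit 516166) (nat_lit 12) (.e (nat_lit 450587) (nat_lit 10) (.e (nat_lit 573478) (nat_lit 12) .nil))))) (.g (nat_lit 0) (.e (nat_lit 253581) (nat_lit 0) .nil) .nil))) 
(.lf (nat_lit 534421) (.g (nat_lit 2314) (.e (nat_lit 57478) (nat_lit 28) (.e (nat_lit 557107) (nat_lit 15) (.e (nat_lit 188447) (nat_lit 22) (.e (nat_lit 196666) (nat_lit 13) (.e (nat_lit 65573) (nat_lit 4) .nil))))) (.g (nat_lit 0) (.e (nat_lit 254589) (nat_lit 0) .nil) .nil)))))) (.nd (nat_lit 7) (.nd (nat_lit 8) (.nd (nat_lit 9) 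
(.lf (nat_lit 533589) (.g (nat_lit 1774) (.e (nat_lit 57409) (nat_lit 12) (.e (nat_lit 336326) (nat_lit 18) (.e (nat_lit 204869) (nat_lit 29) (.e (nat_lit 360448) (nat_lit 0) .nil)))) (.g (nat_lit 0) (.e (nat_lit 253092) (nat_lit 0) .nil) .nil))) 
(.lf (nat_lit 534101) (.g (nat_lit 2966) (.e (nat_lit 57464) (nat_lit 23) (.e (nat_lit 516165) (nat_lit 12) (.e (nat_lit 450588) (nat_lit 10) (.e (nat_lit 573452) (nat_lit 9) (.e (nat_lit 359) (nat_lit 30) (.e (nat_lit 409604) (nat_lit 0) (.e (nat_lit 5394) (nat_lit 301) .nil))))))) (.g (nat_lit 1) (.e (nat_lit 254007) (nat_lit 0) .nil) .nil)))) (.nd (nat_lit 9) 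
(.lf (nat_lit 533845) (.g (nat_lit 4490) (.e (nat_lit 57420) (nat_lit 13) (.e (nat_lit 344129) (nat_lit 26) (.e (nat_lit 557065) (nat_lit 9) (.e (nat_lit 3098) (nat_lit 192) (.e (nat_lit 491571) (nat_lit 13) (.e (nat_lit 393251) (nat_lit 18) (.e (nat_lit 164179) (nat_lit 154) .nil))))))) (.g (nat_lit 1) (.e (nat_lit 253481) (nat_lit 0) .nil) .nil))) 
(.lf (nat_lit 534357) (.g (nat_lit 2452) (.e (nat_lit 57476) (nat_lit 28) (.e (nat_lit 557108) (nat_lit 15) (.e (nat_lit 188452) (nat_lit 23) (.e (nat_lit 204855) (nat_lit 26) (.e (nat_lit 336253) (nat_lit 15) .nil))))) (.g (nat_lit 0) (.e (nat_lit 254425) (nat_lit 0) .nil) .nil))))) (.nd (nat_lit 8) (.nd (nat_lit 9) 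
(.lf (nat_lit 533717) (.g (nat_lit 3814) (.e (nat_lit 57412) (nat_lit 12) (.e (nat_lit 336001) (nat_lit 2) (.e (nat_lit 90170) (nat_lit 13) (.e (nat_lit 172113) (nat_lit 10) (.e (nat_lit 434248) (nat_lit 28) (.e (nat_lit 573473) (nat_lit 12) (.e (nat_lit 57352) (nat_lit 0) (.e (nat_lit 7261) (nat_lit 384) .nil)))))))) (.g (nat_lit 1) (.e (nat_lit 253307) (nat_lit 0) .nil) .nil))) 
(.lf (nat_lit 534229) (.g (nat_lit 410) (.e (nat_lit 57466) (nat_lit 23) (.e (nat_lit 516184) (nat_lit 16) (.e (nat_lit 491570) (nat_lit 13) .nil))) (.g (nat_lit 0) (.e (nat_lit 254153) (nat_lit 0) .nil) .nil)))) (.nd (nat_lit 9) 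
(.lf (nat_lit 533973) (.g (nat_lit 584) (.e (nat_lit 57451) (nat_lit 20) (.e (nat_lit 401448) (nat_lit 10) (.e (nat_lit 434271) (nat_lit 38) .nil))) (.g (nat_lit 0) (.e (nat_lit 253714) (nat_lit 0) .nil) .nil))) 
(.lf (nat_lit 534485) (.g (nat_lit 3663) (.e (nat_lit 57479) (nat_lit 28) (.e (nat_lit 557105) (nat_lit 14) (.e (nat_lit 180251) (nat_lit 10) (.e (nat_lit 573484) (nat_lit 13) (.e (nat_lit 65571) (nat_lit 3) (.e (nat_lit 98321) (nat_lit 17) (.e (nat_lit 7936) (nat_lit 216) (.e (nat_lit 688166) (nat_lit 15) .nil)))))))) (.g (nat_lit 1) (.e (nat_lit 254699) (nat_lit 0) .nil) .nil))))))) 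
(.nd (nat_lit 6) (.nd (nat_lit 7) (.nd (nat_lit 8) (.nd (nat_lit 9) 
(.lf (nat_lit 533557) (.g (nat_lit 5127) (.e (nat_lit 57408) (nat_lit 12) (.e (nat_lit 336019) (nat_lit 3) (.e (nat_lit 98373) (nat_lit 29) (.e (nat_lit 450588) (nat_lit 10) (.e (nat_lit 573473) (nat_lit 12) .nil))))) (.g (nat_lit 0) (.e (nat_lit 253042) (nat_lit 0) .nil) .nil))) 
(.lf (nat_lit 534069) (.g (nat_lit 1315) (.e (nat_lit 57464) (nat_lit 23) (.e (nat_lit 516163) (nat_lit 11) (.e (nat_lit 442411) (nat_lit 20) (.e (nat_lit 3272) (nat_lit 199) (.e (nat_lit 548914) (nat_lit 19) (.e (nat_lit 188160) (nat_lit 35) .nil)))))) (.g (nat_lit 1) (.e (nat_lit 253972) (nat_lit 0) .nil) .nil)))) (.nd (nat_lit 9) 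
(.lf (nat_lit 533813) (.g (nat_lit 2311) (.e (nat_lit 57417) (nat_lit 12) (.e (nat_lit 336206) (nat_lit 12) (.e (nat_lit 385102) (nat_lit 50) (.e (nat_lit 786483) (nat_lit 30) (.e (nat_lit 360457) (nat_lit 0) (.e (nat_lit 5949) (nat_lit 322) .nil)))))) (.g (nat_lit 1) (.e (nat_lit 253427) (nat_lit 0) .nil) .nil))) 
(.lf (nat_lit 534325) (.g (nat_lit 3090) (.e (nat_lit 57476) (nat_lit 28) (.e (nat_lit 557107) (nat_lit 15) (.e (nat_lit 188450) (nat_lit 23) (.e (nat_lit 204852) (nat_lit 26) (.e (nat_lit 336285) (nat_lit 15) (.e (nat_lit 3629) (nat_lit 227) (.e (nat_lit 778318) (nat_lit 3) .nil))))))) (.g (nat_lit 1) (.e (nat_lit 254393) (nat_lit 0) .nil) .nil))))) (.nd (nat_lit 8) (.nd (nat_lit 9) 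
(.lf (nat_lit 533685) (.g (nat_lit 1947) (.e (nat_lit 57411) (nat_lit 12) (.e (nat_lit 336456) (nat_lit 34) (.e (nat_lit 483384) (nat_lit 23) (.e (nat_lit 336324) (nat_lit 18) (.e (nat_lit 204831) (nat_lit 18) (.e (nat_lit 57847) (nat_lit 252) .nil)))))) (.g (nat_lit 1) (.e (nat_lit 253275) (nat_lit 0) .nil) .nil))) 
(.lf (nat_lit 534197) (.g (nat_lit 2725) (.e (nat_lit 57466) (nat_lit 23) (.e (nat_lit 516115) (nat_lit 1) (.e (nat_lit 164325) (nat_lit 230) (.e (nat_lit 163873) (nat_lit 3) (.e (nat_lit 204809) (nat_lit 9) (.e (nat_lit 426139) (nat_lit 3) (.e (nat_lit 204833) (nat_lit 19) (.e (nat_lit 106537) (nat_lit 12) .nil)))))))) (.g (nat_lit 1) (.e (nat_lit 254115) (nat_lit 0) .nil) .nil)))) 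
(.nd (nat_lit 9) 
(.lf (nat_lit 533941) (.g (nat_lit 1146) (.e (nat_lit 57442) (nat_lit 18) (.e (nat_lit 385067) (nat_lit 26) (.e (nat_lit 532560) (nat_lit 14) (.e (nat_lit 376842) (nat_lit 11) .nil)))) (.g (nat_lit 0) (.e (nat_lit 253649) (nat_lit 0) .nil) .nil))) 
(.lf (nat_lit 534453) (.g (nat_lit 4299) (.e (nat_lit 57479) (nat_lit 28) (.e (nat_lit 557100) (nat_lit 13) (.e (nat_lit 172106) (nat_lit 10) (.e (nat_lit 434231) (nat_lit 23) (.e (nat_lit 532535) (nat_lit 9) (.e (nat_lit 336287) (nat_lit 15) (.e (nat_lit 3716) (nat_lit 227) (.e (nat_lit 778316) (nat_lit 3) .nil)))))))) (.g (nat_lit 1) (.e (nat_lit 254667) (nat_lit 0) .nil) .nil)))))) 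
(.nd (nat_lit 7) (.nd (nat_lit 8) (.nd (nat_lit 9) 
(.lf (nat_lit 533621) (.g (nat_lit 2883) (.e (nat_lit 57409) (nat_lit 12) (.e (nat_lit 336454) (nat_lit 34) (.e (nat_lit 483384) (nat_lit 23) (.e (nat_lit 336324) (nat_lit 18) (.e (nat_lit 204831) (nat_lit 18) (.e (nat_lit 57847) (nat_lit 252) .nil)))))) (.g (nat_lit 1) (.e (nat_lit 253126) (nat_lit 0) .nil) .nil))) 
(.lf (nat_lit 534133) (.g (nat_lit 4730) (.e (nat_lit 57464) (nat_lit 23) (.e (nat_lit 516166) (nat_lit 12) (.e (nat_lit 450588) (nat_lit 10) (.e (nat_lit 573451) (nat_lit 9) (.e (nat_lit 359) (nat_lit 30) (.e (nat_lit 409602) (nat_lit 0) (.e (nat_lit 5394) (nat_lit 301) .nil))))))) (.g (nat_lit 1) (.e (nat_lit 254045) (nat_lit 0) .nil) .nil)))) (.nd (nat_lit 9) 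
(.lf (nat_lit 533877) (.g (nat_lit 2814) (.e (nat_lit 57430) (nat_lit 16) (.e (nat_lit 368676) (nat_lit 21) (.e (nat_lit 516165) (nat_lit 12) (.e (nat_lit 450586) (nat_lit 10) (.e (nat_lit 573477) (nat_lit 12) (.e (nat_lit 57353) (nat_lit 0) (.e (nat_lit 7261) (nat_lit 384) .nil))))))) (.g (nat_lit 1) (.e (nat_lit 253547) (nat_lit 0) .nil) .nil))) 
(.lf (nat_lit 534389) (.g (nat_lit 2445) (.e (nat_lit 57477) (nat_lit 28) (.e (nat_lit 557108) (nat_lit 15) (.e (nat_lit 188449) (nat_lit 22) (.e (nat_lit 196666) (nat_lit 13) (.e (nat_lit 65639) (nat_lit 15) (.e (nat_lit 3714) (nat_lit 227) (.e (nat_lit 786176) (nat_lit 3) .nil))))))) (.g (nat_lit 1) (.e (nat_lit 254503) (nat_lit 0) .nil) .nil))))) (.nd (nat_lit 8) (.nd (nat_lit 9) 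
(.lf (nat_lit 533749) (.g (nat_lit 3263) (.e (nat_lit 57412) (nat_lit 12) (.e (nat_lit 336008) (nat_lit 2) (.e (nat_lit 90170) (nat_lit 13) (.e (nat_lit 172113) (nat_lit 10) (.e (nat_lit 434248) (nat_lit 28) (.e (nat_lit 573475) (nat_lit 12) (.e (nat_lit 57347) (nat_lit 0) (.e (nat_lit 7263) (nat_lit 384) .nil)))))))) (.g (nat_lit 1) (.e (nat_lit 253339) (nat_lit 0) .nil) .nil))) 
(.lf (nat_lit 534261) (.g (nat_lit 1344) (.e (nat_lit 57475) (nat_lit 28) (.e (nat_lit 557098) (nat_lit 13) (.e (nat_lit 172115) (nat_lit 10) (.e (nat_lit 434231) (nat_lit 23) .nil)))) (.g (nat_lit 0) (.e (nat_lit 254211) (nat_lit 0) .nil) .nil)))) (.nd (nat_lit 9) 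
(.lf (nat_lit 534005) (.g (nat_lit 1340) (.e (nat_lit 57464) (nat_lit 23) (.e (nat_lit 516138) (nat_lit 7) (.e (nat_lit 409646) (nat_lit 18) (.e (nat_lit 303119) (nat_lit 3) .nil)))) (.g (nat_lit 0) (.e (nat_lit 253888) (nat_lit 0) .nil) .nil))) 
(.lf (nat_lit 534517) (.g (nat_lit 4867) (.e (nat_lit 57479) (nat_lit 28) (.e (nat_lit 557105) (nat_lit 14) (.e (nat_lit 180252) (nat_lit 10) (.e (nat_lit 573487) (nat_lit 14) (.e (nat_lit 73747) (nat_lit 3) (.e (nat_lit 516100) (nat_lit 0) (.e (nat_lit 7936) (nat_lit 216) (.e (nat_lit 688166) (nat_lit 15) .nil)))))))) (.g (nat_lit 1) (.e (nat_lit 254731) (nat_lit 0) .nil) .nil))))))))) 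
(.nd (nat_lit 4) (.nd (nat_lit 5) (.nd (nat_lit 6) (.nd (nat_lit 7) (.nd (nat_lit 8) 
(.nd (nat_lit 9) 
(.lf (nat_lit 533517) (.g (nat_lit 5812) (.e (nat_lit 57407) (nat_lit 12) (.e (nat_lit 336019) (nat_lit 3) (.e (nat_lit 98373) (nat_lit 29) (.e (nat_lit 450588) (nat_lit 10) (.e (nat_lit 573473) (nat_lit 12) (.e (nat_lit 57347) (nat_lit 0) (.e (nat_lit 7261) (nat_lit 384) .nil))))))) (.g (nat_lit 1) (.e (nat_lit 252985) (nat_lit 0) .nil) .nil))) 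
(.lf (nat_lit 534029) (.g (nat_lit 785) (.e (nat_lit 57464) (nat_lit 23) (.e (nat_lit 516139) (nat_lit 7) (.e (nat_lit 409641) (nat_lit 17) .nil))) (.g (nat_lit 0) (.e (nat_lit 253919) (nat_lit 0) .nil) .nil)))) (.nd (nat_lit 9) 
(.lf (nat_lit 533773) (.g (nat_lit 1529) (.e (nat_lit 57412) (nat_lit 12) (.e (nat_lit 336061) (nat_lit 7) (.e (nat_lit 319526) (nat_lit 15) (.e (nat_lit 278547) (nat_lit 8) (.e (nat_lit 303131) (nat_lit 9) (.e (nat_lit 426109) (nat_lit 1) (.e (nat_lit 164319) (nat_lit 228) .nil))))))) (.g (nat_lit 1) (.e (nat_lit 253363) (nat_lit 0) .nil) .nil))) 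
(.lf (nat_lit 534285) (.g (nat_lit 3698) (.e (nat_lit 57476) (nat_lit 28) (.e (nat_lit 557097) (nat_lit 13) (.e (nat_lit 172094) (nat_lit 9) (.e (nat_lit 426125) (nat_lit 2) (.e (nat_lit 196665) (nat_lit 13) (.e (nat_lit 65637) (nat_lit 15) (.e (nat_lit 3632) (nat_lit 227) (.e (nat_lit 778318) (nat_lit 3) .nil)))))))) (.g (nat_lit 1) (.e (nat_lit 254353) (nat_lit 0) .nil) .nil))))) 
(.nd (nat_lit 8) (.nd (nat_lit 9) 
(.lf (nat_lit 533645) (.g (nat_lit 1555) (.e (nat_lit 57410) (nat_lit 12) (.e (nat_lit 336454) (nat_lit 34) (.e (nat_lit 483408) (nat_lit 26) (.e (nat_lit 385066) (nat_lit 26) .nil)))) (.g (nat_lit 0) (.e (nat_lit 253183) (nat_lit 0) .nil) .nil))) 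
(.lf (nat_lit 534157) (.g (nat_lit 849) (.e (nat_lit 57464) (nat_lit 23) (.e (nat_lit 516175) (nat_lit 14) (.e (nat_lit 466967) (nat_lit 20) (.e (nat_lit 3266) (nat_lit 199) (.e (nat_lit 548914) (nat_lit 19) (.e (nat_lit 188160) (nat_lit 35) .nil)))))) (.g (nat_lit 1) (.e (nat_lit 254071) (nat_lit 0) .nil) .nil)))) (.nd (nat_lit 9) 
(.lf (nat_lit 533901) (.g (nat_lit 2433) (.e (nat_lit 57431) (nat_lit 16) (.e (nat_lit 368676) (nat_lit 21) (.e (nat_lit 516165) (nat_lit 12) (.e (nat_lit 450586) (nat_lit 10) (.e (nat_lit 573478) (nat_lit 12) .nil))))) (.g (nat_lit 0) (.e (nat_lit 253573) (nat_lit 0) .nil) .nil))) 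
(.lf (nat_lit 534413) (.g (nat_lit 2642) (.e (nat_lit 57478) (nat_lit 28) (.e (nat_lit 557101) (nat_lit 13) (.e (nat_lit 172115) (nat_lit 10) (.e (nat_lit 434231) (nat_lit 23) (.e (nat_lit 532535) (nat_lit 9) (.e (nat_lit 336290) (nat_lit 15) (.e (nat_lit 3711) (nat_lit 227) (.e (nat_lit 786176) (nat_lit 3) .nil)))))))) (.g (nat_lit 1) (.e (nat_lit 254565) (nat_lit 0) .nil) .nil)))))) 
(.nd (nat_lit 7) (.nd (nat_lit 8) (.nd (nat_lit 9) 
(.lf (nat_lit 533581) (.g (nat_lit 2227) (.e (nat_lit 57409) (nat_lit 12) (.e (nat_lit 336316) (nat_lit 17) (.e (nat_lit 196666) (nat_lit 13) (.e (nat_lit 65617) (nat_lit 10) (.e (nat_lit 344088) (nat_lit 18) (.e (nat_lit 7695) (nat_lit 412) (.e (nat_lit 57364) (nat_lit 1) (.e (nat_lit 57854) (nat_lit 252) .nil)))))))) (.g (nat_lit 1) (.e (nat_lit 253076) (nat_lit 0) .nil) .nil))) 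
(.lf (nat_lit 534093) (.g (nat_lit 2282) (.e (nat_lit 57464) (nat_lit 23) (.e (nat_lit 516165) (nat_lit 12) (.e (nat_lit 450586) (nat_lit 10) (.e (nat_lit 573470) (nat_lit 11) (.e (nat_lit 16387) (nat_lit 0) (.e (nat_lit 7583) (nat_lit 405) .nil)))))) (.g (nat_lit 1) (.e (nat_lit 253999) (nat_lit 0) .nil) .nil)))) (.nd (nat_lit 9) 
(.lf (nat_lit 533837) (.g (nat_lit 2652) (.e (nat_lit 57419) (nat_lit 12) (.e (nat_lit 336194) (nat_lit 12) (.e (nat_lit 385106) (nat_lit 50) (.e (nat_lit 786481) (nat_lit 30) (.e (nat_lit 360457) (nat_lit 0) (.e (nat_lit 5949) (nat_lit 322) .nil)))))) (.g (nat_lit 1) (.e (nat_lit 253461) (nat_lit 0) .nil) .nil))) 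
(.lf (nat_lit 534349) (.g (nat_lit 3683) (.e (nat_lit 57476) (nat_lit 28) (.e (nat_lit 557108) (nat_lit 15) (.e (nat_lit 188452) (nat_lit 23) (.e (nat_lit 204852) (nat_lit 26) (.e (nat_lit 336263) (nat_lit 15) (.e (nat_lit 3629) (nat_lit 227) (.e (nat_lit 778318) (nat_lit 3) .nil))))))) (.g (nat_lit 1) (.e (nat_lit 254417) (nat_lit 0) .nil) .nil))))) (.nd (nat_lit 8) (.nd (nat_lit 9) 
(.lf (nat_lit 533709) (.g (nat_lit 2739) (.e (nat_lit 57412) (nat_lit 12) (.e (nat_lit 336001) (nat_lit 2) (.e (nat_lit 90170) (nat_lit 13) (.e (nat_lit 172113) (nat_lit 10) (.e (nat_lit 434245) (nat_lit 28) (.e (nat_lit 573473) (nat_lit 12) (.e (nat_lit 57353) (nat_lit 0) (.e (nat_lit 7263) (nat_lit 384) .nil)))))))) (.g (nat_lit 1) (.e (nat_lit 253299) (nat_lit 0) .nil) .nil))) 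
(.lf (nat_lit 534221) (.g (nat_lit 1722) (.e (nat_lit 57466) (nat_lit 23) (.e (nat_lit 516129) (nat_lit 3) (.e (nat_lit 221215) (nat_lit 23) (.e (nat_lit 204879) (nat_lit 32) .nil)))) (.g (nat_lit 0) (.e (nat_lit 254139) (nat_lit 0) .nil) .nil)))) (.nd (nat_lit 9) 
(.lf (nat_lit 533965) (.g (nat_lit 2428) (.e (nat_lit 57449) (nat_lit 20) (.e (nat_lit 401454) (nat_lit 12) (.e (nat_lit 475209) (nat_lit 41) (.e (nat_lit 712755) (nat_lit 30) (.e (nat_lit 450569) (nat_lit 0) (.e (nat_lit 5949) (nat_lit 322) .nil)))))) (.g (nat_lit 1) (.e (nat_lit 253689) (nat_lit 0) .nil) .nil))) 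
(.lf (nat_lit 534477) (.g (nat_lit 3086) (.e (nat_lit 57479) (nat_lit 28) (.e (nat_lit 557101) (nat_lit 13) (.e (nat_lit 172115) (nat_lit 10) (.e (nat_lit 434231) (nat_lit 23) (.e (nat_lit 532535) (nat_lit 9) (.e (nat_lit 336290) (nat_lit 15) (.e (nat_lit 3714) (nat_lit 227) (.e (nat_lit 786176) (nat_lit 3) .nil)))))))) (.g (nat_lit 1) (.e (nat_lit 254691) (nat_lit 0) .nil) .nil))))))) 
(.nd (nat_lit 6) (.nd (nat_lit 7) (.nd (nat_lit 8) (.nd (nat_lit 9) 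
(.lf (nat_lit 533549) (.g (nat_lit 3009) (.e (nat_lit 57407) (nat_lit 12) (.e (nat_lit 336456) (nat_lit 34) (.e (nat_lit 483391) (nat_lit 23) (.e (nat_lit 336323) (nat_lit 18) (.e (nat_lit 204829) (nat_lit 18) (.e (nat_lit 57847) (nat_lit 252) .nil)))))) (.g (nat_lit 1) (.e (nat_lit 253034) (nat_lit 0) .nil) .nil))) 
(.lf (nat_lit 534061) (.g (nat_lit 4311) (.e (nat_lit 57464) (nat_lit 23) (.e (nat_lit 516151) (nat_lit 9) (.e (nat_lit 426286) (nat_lit 10) (.e (nat_lit 434248) (nat_lit 28) (.e (nat_lit 573469) (nat_lit 11) (.e (nat_lit 16388) (nat_lit 0) (.e (nat_lit 7583) (nat_lit 405) .nil))))))) (.g (nat_lit 1) (.e (nat_lit 253954) (nat_lit 0) .nil) .nil)))) (.nd (nat_lit 9) 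
(.lf (nat_lit 533805) (.g (nat_lit 2296) (.e (nat_lit 57413) (nat_lit 12) (.e (nat_lit 336001) (nat_lit 2) (.e (nat_lit 90170) (nat_lit 13) (.e (nat_lit 172113) (nat_lit 10) (.e (nat_lit 434245) (nat_lit 28) .nil))))) (.g (nat_lit 0) (.e (nat_lit 253419) (nat_lit 0) .nil) .nil))) 
(.lf (nat_lit 534317) (.g (nat_lit 2462) (.e (nat_lit 57476) (nat_lit 28) (.e (nat_lit 557107) (nat_lit 15) (.e (nat_lit 188447) (nat_lit 22) (.e (nat_lit 196666) (nat_lit 13) (.e (nat_lit 65639) (nat_lit 15) (.e (nat_lit 3714) (nat_lit 227) (.e (nat_lit 786176) (nat_lit 3) .nil))))))) (.g (nat_lit 1) (.e (nat_lit 254385) (nat_lit 0) .nil) .nil))))) (.nd (nat_lit 8) (.nd (nat_lit 9) 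
(.lf (nat_lit 533677) (.g (nat_lit 1444) (.e (nat_lit 57411) (nat_lit 12) (.e (nat_lit 336454) (nat_lit 34) (.e (nat_lit 483383) (nat_lit 23) (.e (nat_lit 343808) (nat_lit 3) .nil)))) (.g (nat_lit 0) (.e (nat_lit 253254) (nat_lit 0) .nil) .nil))) 
(.lf (nat_lit 534189) (.g (nat_lit 2565) (.e (nat_lit 57465) (nat_lit 23) (.e (nat_lit 516129) (nat_lit 3) (.e (nat_lit 221210) (nat_lit 22) (.e (nat_lit 196668) (nat_lit 14) (.e (nat_lit 73747) (nat_lit 3) (.e (nat_lit 516100) (nat_lit 0) (.e (nat_lit 7936) (nat_lit 216) (.e (nat_lit 688168) (nat_lit 15) .nil)))))))) (.g (nat_lit 1) (.e (nat_lit 254106) (nat_lit 0) .nil) .nil)))) 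
(.nd (nat_lit 9) 
(.lf (nat_lit 533933) (.g (nat_lit 1576) (.e (nat_lit 57437) (nat_lit 17) (.e (nat_lit 376835) (nat_lit 0) (.e (nat_lit 3748) (nat_lit 228) (.e (nat_lit 786483) (nat_lit 30) (.e (nat_lit 360451) (nat_lit 0) (.e (nat_lit 7936) (nat_lit 322) .nil)))))) (.g (nat_lit 1) (.e (nat_lit 253631) (nat_lit 0) .nil) .nil))) 
(.lf (nat_lit 534445) (.g (nat_lit 3169) (.e (nat_lit 57479) (nat_lit 28) (.e (nat_lit 557100) (nat_lit 13) (.e (nat_lit 172106) (nat_lit 10) (.e (nat_lit 434231) (nat_lit 23) (.e (nat_lit 532529) (nat_lit 9) (.e (nat_lit 336296) (nat_lit 15) (.e (nat_lit 3715) (nat_lit 227) (.e (nat_lit 778316) (nat_lit 3) .nil)))))))) (.g (nat_lit 1) (.e (nat_lit 254659) (nat_lit 0) .nil) .nil)))))) 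
(.nd (nat_lit 7) (.nd (nat_lit 8) (.nd (nat_lit 9) 
(.lf (nat_lit 533613) (.g (nat_lit 2216) (.e (nat_lit 57409) (nat_lit 12) (.e (nat_lit 336443) (nat_lit 32) (.e (nat_lit 466977) (nat_lit 22) (.e (nat_lit 196656) (nat_lit 11) (.e (nat_lit 16404) (nat_lit 1) .nil))))) (.g (nat_lit 0) (.e (nat_lit 253117) (nat_lit 0) .nil) .nil))) 
(.lf (nat_lit 534125) (.g (nat_lit 1221) (.e (nat_lit 57464) (nat_lit 23) (.e (nat_lit 516166) (nat_lit 12) (.e (nat_lit 450587) (nat_lit 10) (.e (nat_lit 573469) (nat_lit 11) .nil)))) (.g (nat_lit 0) (.e (nat_lit 254037) (nat_lit 0) .nil) .nil)))) (.nd (nat_lit 9) 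
(.lf (nat_lit 533869) (.g (nat_lit 3382) (.e (nat_lit 57430) (nat_lit 16) (.e (nat_lit 368676) (nat_lit 21) (.e (nat_lit 516165) (nat_lit 12) (.e (nat_lit 450586) (nat_lit 10) (.e (nat_lit 573473) (nat_lit 12) (.e (nat_lit 57348) (nat_lit 0) (.e (nat_lit 7261) (nat_lit 384) .nil))))))) (.g (nat_lit 1) (.e (nat_lit 253539) (nat_lit 0) .nil) .nil))) 
(.lf (nat_lit 534381) (.g (nat_lit 2698) (.e (nat_lit 57477) (nat_lit 28) (.e (nat_lit 557104) (nat_lit 14) (.e (nat_lit 180252) (nat_lit 10) (.e (nat_lit 573482) (nat_lit 13) (.e (nat_lit 65570) (nat_lit 3) (.e (nat_lit 98321) (nat_lit 17) (.e (nat_lit 7936) (nat_lit 216) (.e (nat_lit 688166) (nat_lit 15) .nil)))))))) (.g (nat_lit 1) (.e (nat_lit 254495) (nat_lit 0) .nil) .nil))))) 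
(.nd (nat_lit 8) (.nd (nat_lit 9) 
(.lf (nat_lit 533741) (.g (nat_lit 2588) (.e (nat_lit 57412) (nat_lit 12) (.e (nat_lit 336008) (nat_lit 2) (.e (nat_lit 90170) (nat_lit 13) (.e (nat_lit 172113) (nat_lit 10) (.e (nat_lit 434245) (nat_lit 28) (.e (nat_lit 573473) (nat_lit 12) (.e (nat_lit 57353) (nat_lit 0) (.e (nat_lit 7261) (nat_lit 384) .nil)))))))) (.g (nat_lit 1) (.e (nat_lit 253331) (nat_lit 0) .nil) .nil))) 
(.lf (nat_lit 534253) (.g (nat_lit 3573) (.e (nat_lit 57474) (nat_lit 28) (.e (nat_lit 557108) (nat_lit 15) (.e (nat_lit 188452) (nat_lit 23) (.e (nat_lit 204879) (nat_lit 32) .nil)))) (.g (nat_lit 0) (.e (nat_lit 254201) (nat_lit 0) .nil) .nil)))) (.nd (nat_lit 9) 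
(.lf (nat_lit 533997) (.g (nat_lit 2210) (.e (nat_lit 57464) (nat_lit 23) (.e (nat_lit 516115) (nat_lit 1) (.e (nat_lit 164398) (nat_lit 256) (.e (nat_lit 57375) (nat_lit 2) (.e (nat_lit 90174) (nat_lit 14) .nil))))) (.g (nat_lit 0) (.e (nat_lit 253857) (nat_lit 0) .nil) .nil))) 
(.lf (nat_lit 534509) (.g (nat_lit 4567) (.e (nat_lit 57479) (nat_lit 28) (.e (nat_lit 557105) (nat_lit 14) (.e (nat_lit 180252) (nat_lit 10) (.e (nat_lit 573482) (nat_lit 13) (.e (nat_lit 65571) (nat_lit 3) (.e (nat_lit 98321) (nat_lit 17) (.e (nat_lit 7936) (nat_lit 216) (.e (nat_lit 688166) (nat_lit 15) .nil)))))))) (.g (nat_lit 1) (.e (nat_lit 254723) (nat_lit 0) .nil) .nil)))))))) 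
(.nd (nat_lit 5) (.nd (nat_lit 6) (.nd (nat_lit 7) (.nd (nat_lit 8) (.nd (nat_lit 9) 
(.lf (nat_lit 533533) (.g (nat_lit 1623) (.e (nat_lit 57407) (nat_lit 12) (.e (nat_lit 336456) (nat_lit 34) (.e (nat_lit 483346) (nat_lit 17) (.e (nat_lit 6445) (nat_lit 343) .nil)))) (.g (nat_lit 0) (.e (nat_lit 253018) (nat_lit 0) .nil) .nil))) 
(.lf (nat_lit 534045) (.g (nat_lit 2315) (.e (nat_lit 57464) (nat_lit 23) (.e (nat_lit 516151) (nat_lit 9) (.e (nat_lit 426286) (nat_lit 10) (.e (nat_lit 434245) (nat_lit 28) (.e (nat_lit 573458) (nat_lit 9) (.e (nat_lit 426) (nat_lit 32) (.e (nat_lit 426010) (nat_lit 0) (.e (nat_lit 7583) (nat_lit 405) .nil)))))))) (.g (nat_lit 1) (.e (nat_lit 253938) (nat_lit 0) .nil) .nil)))) (.nd (nat_lit 9) 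
(.lf (nat_lit 533789) (.g (nat_lit 1592) (.e (nat_lit 57412) (nat_lit 12) (.e (nat_lit 336176) (nat_lit 10) (.e (nat_lit 344157) (nat_lit 36) (.e (nat_lit 638986) (nat_lit 5) (.e (nat_lit 3027) (nat_lit 187) (.e (nat_lit 458496) (nat_lit 0) (.e (nat_lit 5200) (nat_lit 294) .nil))))))) (.g (nat_lit 1) (.e (nat_lit 253380) (nat_lit 0) .nil) .nil))) 
(.lf (nat_lit 534301) (.g (nat_lit 4270) (.e (nat_lit 57476) (nat_lit 28) (.e (nat_lit 557097) (nat_lit 13) (.e (nat_lit 172115) (nat_lit 10) (.e (nat_lit 434231) (nat_lit 23) (.e (nat_lit 532529) (nat_lit 9) (.e (nat_lit 336306) (nat_lit 15) (.e (nat_lit 3618) (nat_lit 227) (.e (nat_lit 778318) (nat_lit 3) .nil)))))))) (.g (nat_lit 1) (.e (nat_lit 254369) (nat_lit 0) .nil) .nil))))) 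
(.nd (nat_lit 8) (.nd (nat_lit 9) 
(.lf (nat_lit 533661) (.g (nat_lit 2399) (.e (nat_lit 57411) (nat_lit 12) (.e (nat_lit 336316) (nat_lit 17) (.e (nat_lit 196666) (nat_lit 13) (.e (nat_lit 65610) (nat_lit 10) (.e (nat_lit 344090) (nat_lit 18) .nil))))) (.g (nat_lit 0) (.e (nat_lit 253221) (nat_lit 0) .nil) .nil))) 
(.lf (nat_lit 534173) (.g (nat_lit 2876) (.e (nat_lit 57465) (nat_lit 23) (.e (nat_lit 516115) (nat_lit 1) (.e (nat_lit 164403) (nat_lit 256) (.e (nat_lit 57373) (nat_lit 2) (.e (nat_lit 90174) (nat_lit 14) .nil))))) (.g (nat_lit 0) (.e (nat_lit 254089) (nat_lit 0) .nil) .nil)))) (.nd (nat_lit 9) 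
(.lf (nat_lit 533917) (.g (nat_lit 5836) (.e (nat_lit 57431) (nat_lit 16) (.e (nat_lit 368676) (nat_lit 21) (.e (nat_lit 516166) (nat_lit 12) (.e (nat_lit 450588) (nat_lit 10) (.e (nat_lit 573475) (nat_lit 12) (.e (nat_lit 57351) (nat_lit 0) (.e (nat_lit 7265) (nat_lit 384) .nil))))))) (.g (nat_lit 1) (.e (nat_lit 253589) (nat_lit 0) .nil) .nil))) 
(.lf (nat_lit 534429) (.g (nat_lit 2680) (.e (nat_lit 57478) (nat_lit 28) (.e (nat_lit 557109) (nat_lit 15) (.e (nat_lit 188450) (nat_lit 23) (.e (nat_lit 204862) (nat_lit 27) (.e (nat_lit 344169) (nat_lit 40) .nil))))) (.g (nat_lit 0) (.e (nat_lit 254597) (nat_lit 0) .nil) .nil)))))) (.nd (nat_lit 7) (.nd (nat_lit 8) (.nd (nat_lit 9) 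
(.lf (nat_lit 533597) (.g (nat_lit 2328) (.e (nat_lit 57409) (nat_lit 12) (.e (nat_lit 336367) (nat_lit 27) (.e (nat_lit 426542) (nat_lit 29) (.e (nat_lit 352315) (nat_lit 23) (.e (nat_lit 98325) (nat_lit 17) (.e (nat_lit 2478) (nat_lit 157) (.e (nat_lit 6401) (nat_lit 339) .nil))))))) (.g (nat_lit 1) (.e (nat_lit 253101) (nat_lit 0) .nil) .nil))) 
(.lf (nat_lit 534109) (.g (nat_lit 4059) (.e (nat_lit 57464) (nat_lit 23) (.e (nat_lit 516165) (nat_lit 12) (.e (nat_lit 450588) (nat_lit 10) (.e (nat_lit 573469) (nat_lit 11) (.e (nat_lit 16388) (nat_lit 0) (.e (nat_lit 7581) (nat_lit 405) .nil)))))) (.g (nat_lit 1) (.e (nat_lit 254015) (nat_lit 0) .nil) .nil)))) (.nd (nat_lit 9) 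
(.lf (nat_lit 533853) (.g (nat_lit 2786) (.e (nat_lit 57423) (nat_lit 14) (.e (nat_lit 352262) (nat_lit 0) (.e (nat_lit 3748) (nat_lit 228) (.e (nat_lit 786481) (nat_lit 30) (.e (nat_lit 360457) (nat_lit 0) (.e (nat_lit 5949) (nat_lit 322) .nil)))))) (.g (nat_lit 1) (.e (nat_lit 253506) (nat_lit 0) .nil) .nil))) 
(.lf (nat_lit 534365) (.g (nat_lit 2563) (.e (nat_lit 57476) (nat_lit 28) (.e (nat_lit 557108) (nat_lit 15) (.e (nat_lit 188452) (nat_lit 23) (.e (nat_lit 204855) (nat_lit 26) (.e (nat_lit 336290) (nat_lit 15) (.e (nat_lit 3716) (nat_lit 227) (.e (nat_lit 778316) (nat_lit 3) .nil))))))) (.g (nat_lit 1) (.e (nat_lit 254433) (nat_lit 0) .nil) .nil))))) (.nd (nat_lit 8) (.nd (nat_lit 9) 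
(.lf (nat_lit 533725) (.g (nat_lit 2460) (.e (nat_lit 57412) (nat_lit 12) (.e (nat_lit 336005) (nat_lit 2) (.e (nat_lit 90170) (nat_lit 13) (.e (nat_lit 172113) (nat_lit 10) (.e (nat_lit 434245) (nat_lit 28) (.e (nat_lit 573474) (nat_lit 12) (.e (nat_lit 57348) (nat_lit 0) (.e (nat_lit 7263) (nat_lit 384) .nil)))))))) (.g (nat_lit 1) (.e (nat_lit 253315) (nat_lit 0) .nil) .nil))) 
(.lf (nat_lit 534237) (.g (nat_lit 2376) (.e (nat_lit 57467) (nat_lit 23) (.e (nat_lit 516117) (nat_lit 1) (.e (nat_lit 164399) (nat_lit 256) (.e (nat_lit 57373) (nat_lit 2) (.e (nat_lit 90174) (nat_lit 14) .nil))))) (.g (nat_lit 0) (.e (nat_lit 254166) (nat_lit 0) .nil) .nil)))) (.nd (nat_lit 9) 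
(.lf (nat_lit 533981) (.g (nat_lit 3316) (.e (nat_lit 57451) (nat_lit 20) (.e (nat_lit 401451) (nat_lit 12) (.e (nat_lit 475207) (nat_lit 41) (.e (nat_lit 712755) (nat_lit 30) (.e (nat_lit 450562) (nat_lit 0) (.e (nat_lit 5945) (nat_lit 322) .nil)))))) (.g (nat_lit 1) (.e (nat_lit 253724) (nat_lit 0) .nil) .nil))) 
(.lf (nat_lit 534493) (.g (nat_lit 3700) (.e (nat_lit 57479) (nat_lit 28) (.e (nat_lit 557105) (nat_lit 14) (.e (nat_lit 180251) (nat_lit 10) (.e (nat_lit 573487) (nat_lit 14) (.e (nat_lit 73746) (nat_lit 3) (.e (nat_lit 516100) (nat_lit 0) (.e (nat_lit 7936) (nat_lit 216) (.e (nat_lit 688166) (nat_lit 15) .nil)))))))) (.g (nat_lit 1) (.e (nat_lit 254707) (nat_lit 0) .nil) .nil))))))) 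
(.nd (nat_lit 6) (.nd (nat_lit 7) (.nd (nat_lit 8) (.nd (nat_lit 9) 
(.lf (nat_lit 533565) (.g (nat_lit 2592) (.e (nat_lit 57409) (nat_lit 12) (.e (nat_lit 336019) (nat_lit 3) (.e (nat_lit 98372) (nat_lit 29) (.e (nat_lit 450586) (nat_lit 10) (.e (nat_lit 573473) (nat_lit 12) (.e (nat_lit 57348) (nat_lit 0) (.e (nat_lit 7266) (nat_lit 384) .nil))))))) (.g (nat_lit 1) (.e (nat_lit 253051) (nat_lit 0) .nil) .nil))) 
(.lf (nat_lit 534077) (.g (nat_lit 2247) (.e (nat_lit 57464) (nat_lit 23) (.e (nat_lit 516165) (nat_lit 12) (.e (nat_lit 450579) (nat_lit 5) (.e (nat_lit 532522) (nat_lit 7) (.e (nat_lit 319505) (nat_lit 10) .nil))))) (.g (nat_lit 0) (.e (nat_lit 253983) (nat_lit 0) .nil) .nil)))) (.nd (nat_lit 9) 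
(.lf (nat_lit 533821) (.g (nat_lit 3111) (.e (nat_lit 57419) (nat_lit 12) (.e (nat_lit 336027) (nat_lit 3) (.e (nat_lit 98373) (nat_lit 29) (.e (nat_lit 450588) (nat_lit 10) (.e (nat_lit 573473) (nat_lit 12) .nil))))) (.g (nat_lit 0) (.e (nat_lit 253440) (nat_lit 0) .nil) .nil))) 
(.lf (nat_lit 534333) (.g (nat_lit 2095) (.e (nat_lit 57476) (nat_lit 28) (.e (nat_lit 557107) (nat_lit 15) (.e (nat_lit 188450) (nat_lit 23) (.e (nat_lit 204855) (nat_lit 26) (.e (nat_lit 336290) (nat_lit 15) (.e (nat_lit 3715) (nat_lit 227) (.e (nat_lit 778316) (nat_lit 3) .nil))))))) (.g (nat_lit 1) (.e (nat_lit 254401) (nat_lit 0) .nil) .nil))))) (.nd (nat_lit 8) (.nd (nat_lit 9) 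
(.lf (nat_lit 533693) (.g (nat_lit 2856) (.e (nat_lit 57411) (nat_lit 12) (.e (nat_lit 336456) (nat_lit 34) (.e (nat_lit 483395) (nat_lit 24) (.e (nat_lit 344117) (nat_lit 21) (.e (nat_lit 516099) (nat_lit 0) (.e (nat_lit 2464) (nat_lit 157) (.e (nat_lit 6401) (nat_lit 339) .nil))))))) (.g (nat_lit 1) (.e (nat_lit 253283) (nat_lit 0) .nil) .nil))) 
(.lf (nat_lit 534205) (.g (nat_lit 2867) (.e (nat_lit 57466) (nat_lit 23) (.e (nat_lit 516115) (nat_lit 1) (.e (nat_lit 164403) (nat_lit 256) (.e (nat_lit 57373) (nat_lit 2) (.e (nat_lit 90174) (nat_lit 14) .nil))))) (.g (nat_lit 0) (.e (nat_lit 254123) (nat_lit 0) .nil) .nil)))) (.nd (nat_lit 9) 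
(.lf (nat_lit 533949) (.g (nat_lit 1057) (.e (nat_lit 57445) (nat_lit 19) (.e (nat_lit 393251) (nat_lit 18) (.e (nat_lit 164179) (nat_lit 154) .nil))) (.g (nat_lit 0) (.e (nat_lit 253667) (nat_lit 0) .nil) .nil))) 
(.lf (nat_lit 534461) (.g (nat_lit 2180) (.e (nat_lit 57479) (nat_lit 28) (.e (nat_lit 557100) (nat_lit 13) (.e (nat_lit 172106) (nat_lit 10) (.e (nat_lit 434231) (nat_lit 23) (.e (nat_lit 532535) (nat_lit 9) (.e (nat_lit 336295) (nat_lit 15) (.e (nat_lit 3631) (nat_lit 227) (.e (nat_lit 786176) (nat_lit 3) .nil)))))))) (.g (nat_lit 1) (.e (nat_lit 254675) (nat_lit 0) .nil) .nil)))))) 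
(.nd (nat_lit 7) (.nd (nat_lit 8) (.nd (nat_lit 9) 
(.lf (nat_lit 533629) (.g (nat_lit 2345) (.e (nat_lit 57409) (nat_lit 12) (.e (nat_lit 336456) (nat_lit 34) (.e (nat_lit 483391) (nat_lit 23) (.e (nat_lit 336323) (nat_lit 18) (.e (nat_lit 204830) (nat_lit 18) (.e (nat_lit 57854) (nat_lit 252) .nil)))))) (.g (nat_lit 1) (.e (nat_lit 253138) (nat_lit 0) .nil) .nil))) 
(.lf (nat_lit 534141) (.g (nat_lit 3292) (.e (nat_lit 57464) (nat_lit 23) (.e (nat_lit 516166) (nat_lit 12) (.e (nat_lit 450588) (nat_lit 10) (.e (nat_lit 573454) (nat_lit 9) (.e (nat_lit 7936) (nat_lit 36) .nil))))) (.g (nat_lit 0) (.e (nat_lit 254053) (nat_lit 0) .nil) .nil)))) (.nd (nat_lit 9) 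
(.lf (nat_lit 533885) (.g (nat_lit 4655) (.e (nat_lit 57430) (nat_lit 16) (.e (nat_lit 368676) (nat_lit 21) (.e (nat_lit 516166) (nat_lit 12) (.e (nat_lit 450587) (nat_lit 10) (.e (nat_lit 573477) (nat_lit 12) (.e (nat_lit 57353) (nat_lit 0) (.e (nat_lit 7261) (nat_lit 384) .nil))))))) (.g (nat_lit 1) (.e (nat_lit 253555) (nat_lit 0) .nil) .nil))) 
(.lf (nat_lit 534397) (.g (nat_lit 2890) (.e (nat_lit 57478) (nat_lit 28) (.e (nat_lit 557098) (nat_lit 13) (.e (nat_lit 172097) (nat_lit 9) (.e (nat_lit 426125) (nat_lit 2) (.e (nat_lit 196666) (nat_lit 13) (.e (nat_lit 65639) (nat_lit 15) (.e (nat_lit 3711) (nat_lit 227) (.e (nat_lit 786176) (nat_lit 3) .nil)))))))) (.g (nat_lit 1) (.e (nat_lit 254549) (nat_lit 0) .nil) .nil))))) 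
(.nd (nat_lit 8) (.nd (nat_lit 9) 
(.lf (nat_lit 533757) (.g (nat_lit 2804) (.e (nat_lit 57412) (nat_lit 12) (.e (nat_lit 336022) (nat_lit 3) (.e (nat_lit 98373) (nat_lit 29) (.e (nat_lit 450587) (nat_lit 10) (.e (nat_lit 573478) (nat_lit 12) (.e (nat_lit 57351) (nat_lit 0) (.e (nat_lit 7261) (nat_lit 384) .nil))))))) (.g (nat_lit 1) (.e (nat_lit 253347) (nat_lit 0) .nil) .nil))) 
(.lf (nat_lit 534269) (.g (nat_lit 785) (.e (nat_lit 57476) (nat_lit 28) (.e (nat_lit 557067) (nat_lit 9) (.e (nat_lit 3022) (nat_lit 187) .nil))) (.g (nat_lit 0) (.e (nat_lit 254288) (nat_lit 0) .nil) .nil)))) (.nd (nat_lit 9) 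
(.lf (nat_lit 534013) (.g (nat_lit 3037) (.e (nat_lit 57464) (nat_lit 23) (.e (nat_lit 516139) (nat_lit 7) (.e (nat_lit 409645) (nat_lit 18) (.e (nat_lit 303117) (nat_lit 2) (.e (nat_lit 196668) (nat_lit 14) .nil))))) (.g (nat_lit 0) (.e (nat_lit 253902) (nat_lit 0) .nil) .nil))) 
(.lf (nat_lit 534525) (.g (nat_lit 3748) (.e (nat_lit 57479) (nat_lit 28) (.e (nat_lit 557105) (nat_lit 14) (.e (nat_lit 180252) (nat_lit 10) (.e (nat_lit 573489) (nat_lit 14) (.e (nat_lit 73747) (nat_lit 3) (.e (nat_lit 516100) (nat_lit 0) (.e (nat_lit 7936) (nat_lit 216) (.e (nat_lit 688165) (nat_lit 15) .nil)))))))) (.g (nat_lit 1) (.e (nat_lit 254739) (nat_lit 0) .nil) .nil))))))))))) 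
(.nd (nat_lit 2) (.nd (nat_lit 3) (.nd (nat_lit 4) (.nd (nat_lit 5) (.nd (nat_lit 6) 
(.nd (nat_lit 7) (.nd (nat_lit 8) (.nd (nat_lit 9) 
(.lf (nat_lit 533507) (.g (nat_lit 4455) (.e (nat_lit 57407) (nat_lit 12) (.e (nat_lit 336019) (nat_lit 3) (.e (nat_lit 98372) (nat_lit 29) (.e (nat_lit 450588) (nat_lit 10) (.e (nat_lit 573475) (nat_lit 12) (.e (nat_lit 57348) (nat_lit 0) (.e (nat_lit 7261) (nat_lit 384) .nil))))))) (.g (nat_lit 1) (.e (nat_lit 252975) (nat_lit 0) .nil) .nil))) 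
(.lf (nat_lit 534019) (.g (nat_lit 2708) (.e (nat_lit 57464) (nat_lit 23) (.e (nat_lit 516139) (nat_lit 7) (.e (nat_lit 409647) (nat_lit 18) (.e (nat_lit 303117) (nat_lit 2) (.e (nat_lit 196661) (nat_lit 12) (.e (nat_lit 57723) (nat_lit 180) (.e (nat_lit 229657) (nat_lit 235) .nil))))))) (.g (nat_lit 1) (.e (nat_lit 253908) (nat_lit 0) .nil) .nil)))) (.nd (nat_lit 9) 
(.lf (nat_lit 533763) (.g (nat_lit 4332) (.e (nat_lit 57412) (nat_lit 12) (.e (nat_lit 336022) (nat_lit 3) (.e (nat_lit 98373) (nat_lit 29) (.e (nat_lit 450588) (nat_lit 10) (.e (nat_lit 573475) (nat_lit 12) (.e (nat_lit 57351) (nat_lit 0) (.e (nat_lit 7261) (nat_lit 384) .nil))))))) (.g (nat_lit 1) (.e (nat_lit 253353) (nat_lit 0) .nil) .nil))) 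
(.lf (nat_lit 534275) (.g (nat_lit 525) (.e (nat_lit 57476) (nat_lit 28) (.e (nat_lit 557085) (nat_lit 11) (.e (nat_lit 24657) (nat_lit 13) .nil))) (.g (nat_lit 0) (.e (nat_lit 254306) (nat_lit 0) .nil) .nil))))) (.nd (nat_lit 8) (.nd (nat_lit 9) 
(.lf (nat_lit 533635) (.g (nat_lit 1591) (.e (nat_lit 57410) (nat_lit 12) (.e (nat_lit 336208) (nat_lit 12) (.e (nat_lit 385102) (nat_lit 50) (.e (nat_lit 786483) (nat_lit 30) (.e (nat_lit 360451) (nat_lit 0) (.e (nat_lit 7936) (nat_lit 322) .nil)))))) (.g (nat_lit 1) (.e (nat_lit 253145) (nat_lit 0) .nil) .nil))) 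
(.lf (nat_lit 534147) (.g (nat_lit 2414) (.e (nat_lit 57464) (nat_lit 23) (.e (nat_lit 516166) (nat_lit 12) (.e (nat_lit 450588) (nat_lit 10) (.e (nat_lit 573457) (nat_lit 9) (.e (nat_lit 7936) (nat_lit 36) (.e (nat_lit 466688) (nat_lit 3) .nil)))))) (.g (nat_lit 1) (.e (nat_lit 254059) (nat_lit 0) .nil) .nil)))) (.nd (nat_lit 9) 
(.lf (nat_lit 533891) (.g (nat_lit 7353) (.e (nat_lit 57430) (nat_lit 16) (.e (nat_lit 368676) (nat_lit 21) (.e (nat_lit 516166) (nat_lit 12) (.e (nat_lit 450588) (nat_lit 10) (.e (nat_lit 573475) (nat_lit 12) (.e (nat_lit 57347) (nat_lit 0) (.e (nat_lit 7266) (nat_lit 384) .nil))))))) (.g (nat_lit 1) (.e (nat_lit 253561) (nat_lit 0) .nil) .nil))) 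
(.lf (nat_lit 534403) (.g (nat_lit 2025) (.e (nat_lit 57478) (nat_lit 28) (.e (nat_lit 557098) (nat_lit 13) (.e (nat_lit 172115) (nat_lit 10) (.e (nat_lit 434231) (nat_lit 23) (.e (nat_lit 532564) (nat_lit 15) .nil))))) (.g (nat_lit 0) (.e (nat_lit 254555) (nat_lit 0) .nil) .nil)))))) (.nd (nat_lit 7) (.nd (nat_lit 8) (.nd (nat_lit 9) 
(.lf (nat_lit 533571) (.g (nat_lit 4289) (.e (nat_lit 57409) (nat_lit 12) (.e (nat_lit 336019) (nat_lit 3) (.e (nat_lit 98373) (nat_lit 29) (.e (nat_lit 450587) (nat_lit 10) (.e (nat_lit 573478) (nat_lit 12) .nil))))) (.g (nat_lit 0) (.e (nat_lit 253057) (nat_lit 0) .nil) .nil))) 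
(.lf (nat_lit 534083) (.g (nat_lit 2983) (.e (nat_lit 57464) (nat_lit 23) (.e (nat_lit 516165) (nat_lit 12) (.e (nat_lit 450586) (nat_lit 10) (.e (nat_lit 573451) (nat_lit 9) (.e (nat_lit 430) (nat_lit 32) .nil))))) (.g (nat_lit 0) (.e (nat_lit 253989) (nat_lit 0) .nil) .nil)))) (.nd (nat_lit 9) 
(.lf (nat_lit 533827) (.g (nat_lit 1488) (.e (nat_lit 57419) (nat_lit 12) (.e (nat_lit 336194) (nat_lit 12) (.e (nat_lit 385103) (nat_lit 50) (.e (nat_lit 786481) (nat_lit 30) (.e (nat_lit 360456) (nat_lit 0) (.e (nat_lit 5949) (nat_lit 322) .nil)))))) (.g (nat_lit 1) (.e (nat_lit 253451) (nat_lit 0) .nil) .nil))) 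
(.lf (nat_lit 534339) (.g (nat_lit 2519) (.e (nat_lit 57476) (nat_lit 28) (.e (nat_lit 557108) (nat_lit 15) (.e (nat_lit 188449) (nat_lit 22) (.e (nat_lit 196666) (nat_lit 13) (.e (nat_lit 65639) (nat_lit 15) (.e (nat_lit 3714) (nat_lit 227) (.e (nat_lit 778316) (nat_lit 3) .nil))))))) (.g (nat_lit 1) (.e (nat_lit 254407) (nat_lit 0) .nil) .nil))))) (.nd (nat_lit 8) (.nd (nat_lit 9) 
(.lf (nat_lit 533699) (.g (nat_lit 4340) (.e (nat_lit 57412) (nat_lit 12) (.e (nat_lit 336001) (nat_lit 2) (.e (nat_lit 90170) (nat_lit 13) (.e (nat_lit 172106) (nat_lit 10) (.e (nat_lit 434244) (nat_lit 28) (.e (nat_lit 573473) (nat_lit 12) (.e (nat_lit 57353) (nat_lit 0) (.e (nat_lit 7261) (nat_lit 384) .nil)))))))) (.g (nat_lit 1) (.e (nat_lit 253289) (nat_lit 0) .nil) .nil))) 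
(.lf (nat_lit 534211) (.g (nat_lit 2048) (.e (nat_lit 57466) (nat_lit 23) (.e (nat_lit 516117) (nat_lit 1) (.e (nat_lit 164399) (nat_lit 256) (.e (nat_lit 57370) (nat_lit 2) (.e (nat_lit 90174) (nat_lit 14) .nil))))) (.g (nat_lit 0) (.e (nat_lit 254129) (nat_lit 0) .nil) .nil)))) (.nd (nat_lit 9) 
(.lf (nat_lit 533955) (.g (nat_lit 856) (.e (nat_lit 57446) (nat_lit 19) (.e (nat_lit 393287) (nat_lit 25) (.e (nat_lit 458789) (nat_lit 23) (.e (nat_lit 532579) (nat_lit 26) .nil)))) (.g (nat_lit 0) (.e (nat_lit 253675) (nat_lit 0) .nil) .nil))) 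
(.lf (nat_lit 534467) (.g (nat_lit 2400) (.e (nat_lit 57479) (nat_lit 28) (.e (nat_lit 557101) (nat_lit 13) (.e (nat_lit 172097) (nat_lit 9) (.e (nat_lit 426125) (nat_lit 2) (.e (nat_lit 196666) (nat_lit 13) (.e (nat_lit 65639) (nat_lit 15) (.e (nat_lit 3715) (nat_lit 227) (.e (nat_lit 786176) (nat_lit 3) .nil)))))))) (.g (nat_lit 1) (.e (nat_lit 254681) (nat_lit 0) .nil) .nil))))))) 
(.nd (nat_lit 6) (.nd (nat_lit 7) (.nd (nat_lit 8) (.nd (nat_lit 9) 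
(.lf (nat_lit 533539) (.g (nat_lit 3650) (.e (nat_lit 57407) (nat_lit 12) (.e (nat_lit 336456) (nat_lit 34) (.e (nat_lit 483380) (nat_lit 23) (.e (nat_lit 336324) (nat_lit 18) (.e (nat_lit 204831) (nat_lit 18) (.e (nat_lit 57846) (nat_lit 252) .nil)))))) (.g (nat_lit 1) (.e (nat_lit 253024) (nat_lit 0) .nil) .nil))) 
(.lf (nat_lit 534051) (.g (nat_lit 2413) (.e (nat_lit 57464) (nat_lit 23) (.e (nat_lit 516151) (nat_lit 9) (.e (nat_lit 426286) (nat_lit 10) (.e (nat_lit 434247) (nat_lit 28) (.e (nat_lit 573457) (nat_lit 9) (.e (nat_lit 7936) (nat_lit 36) (.e (nat_lit 466688) (nat_lit 3) .nil))))))) (.g (nat_lit 1) (.e (nat_lit 253944) (nat_lit 0) .nil) .nil)))) (.nd (nat_lit 9) 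
(.lf (nat_lit 533795) (.g (nat_lit 2547) (.e (nat_lit 57412) (nat_lit 12) (.e (nat_lit 336226) (nat_lit 14) (.e (nat_lit 401437) (nat_lit 9) (.e (nat_lit 426544) (nat_lit 30) (.e (nat_lit 360456) (nat_lit 0) (.e (nat_lit 5934) (nat_lit 322) .nil)))))) (.g (nat_lit 1) (.e (nat_lit 253400) (nat_lit 0) .nil) .nil))) 
(.lf (nat_lit 534307) (.g (nat_lit 3492) (.e (nat_lit 57476) (nat_lit 28) (.e (nat_lit 557097) (nat_lit 13) (.e (nat_lit 172115) (nat_lit 10) (.e (nat_lit 434231) (nat_lit 23) (.e (nat_lit 532535) (nat_lit 9) (.e (nat_lit 336290) (nat_lit 15) (.e (nat_lit 3714) (nat_lit 227) (.e (nat_lit 786176) (nat_lit 3) .nil)))))))) (.g (nat_lit 1) (.e (nat_lit 254375) (nat_lit 0) .nil) .nil))))) 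
(.nd (nat_lit 8) (.nd (nat_lit 9) 
(.lf (nat_lit 533667) (.g (nat_lit 3546) (.e (nat_lit 57411) (nat_lit 12) (.e (nat_lit 336326) (nat_lit 18) (.e (nat_lit 204869) (nat_lit 29) (.e (nat_lit 360450) (nat_lit 0) (.e (nat_lit 7695) (nat_lit 412) .nil))))) (.g (nat_lit 0) (.e (nat_lit 253233) (nat_lit 0) .nil) .nil))) 
(.lf (nat_lit 534179) (.g (nat_lit 2980) (.e (nat_lit 57465) (nat_lit 23) (.e (nat_lit 516117) (nat_lit 1) (.e (nat_lit 164403) (nat_lit 256) (.e (nat_lit 57373) (nat_lit 2) (.e (nat_lit 90174) (nat_lit 14) .nil))))) (.g (nat_lit 0) (.e (nat_lit 254095) (nat_lit 0) .nil) .nil)))) (.nd (nat_lit 9) 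
(.lf (nat_lit 533923) (.g (nat_lit 1980) (.e (nat_lit 57435) (nat_lit 17) (.e (nat_lit 376835) (nat_lit 0) (.e (nat_lit 3748) (nat_lit 228) (.e (nat_lit 786483) (nat_lit 30) (.e (nat_lit 368384) (nat_lit 0) (.e (nat_lit 5936) (nat_lit 322) .nil)))))) (.g (nat_lit 1) (.e (nat_lit 253606) (nat_lit 0) .nil) .nil))) 
(.lf (nat_lit 534435) (.g (nat_lit 3491) (.e (nat_lit 57478) (nat_lit 28) (.e (nat_lit 557109) (nat_lit 15) (.e (nat_lit 188452) (nat_lit 23) (.e (nat_lit 204882) (nat_lit 32) .nil)))) (.g (nat_lit 0) (.e (nat_lit 254603) (nat_lit 0) .nil) .nil)))))) (.nd (nat_lit 7) (.nd (nat_lit 8) (.nd (nat_lit 9) 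
(.lf (nat_lit 533603) (.g (nat_lit 2925) (.e (nat_lit 57409) (nat_lit 12) (.e (nat_lit 336443) (nat_lit 32) (.e (nat_lit 466974) (nat_lit 22) (.e (nat_lit 196656) (nat_lit 11) (.e (nat_lit 16388) (nat_lit 0) (.e (nat_lit 2485) (nat_lit 157) (.e (nat_lit 5949) (nat_lit 322) .nil))))))) (.g (nat_lit 1) (.e (nat_lit 253107) (nat_lit 0) .nil) .nil))) 
(.lf (nat_lit 534115) (.g (nat_lit 1253) (.e (nat_lit 57464) (nat_lit 23) (.e (nat_lit 516166) (nat_lit 12) (.e (nat_lit 450563) (nat_lit 0) (.e (nat_lit 3919) (nat_lit 239) .nil)))) (.g (nat_lit 0) (.e (nat_lit 254023) (nat_lit 0) .nil) .nil)))) (.nd (nat_lit 9) 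
(.lf (nat_lit 533859) (.g (nat_lit 2103) (.e (nat_lit 57424) (nat_lit 14) (.e (nat_lit 352262) (nat_lit 0) (.e (nat_lit 3748) (nat_lit 228) (.e (nat_lit 786483) (nat_lit 30) (.e (nat_lit 360451) (nat_lit 0) (.e (nat_lit 7936) (nat_lit 322) .nil)))))) (.g (nat_lit 1) (.e (nat_lit 253513) (nat_lit 0) .nil) .nil))) 
(.lf (nat_lit 534371) (.g (nat_lit 4747) (.e (nat_lit 57477) (nat_lit 28) (.e (nat_lit 557067) (nat_lit 9) (.e (nat_lit 3022) (nat_lit 187) (.e (nat_lit 450580) (nat_lit 5) (.e (nat_lit 532563) (nat_lit 15) (.e (nat_lit 385094) (nat_lit 49) (.e (nat_lit 778317) (nat_lit 3) .nil))))))) (.g (nat_lit 1) (.e (nat_lit 254452) (nat_lit 0) .nil) .nil))))) (.nd (nat_lit 8) (.nd (nat_lit 9) 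
(.lf (nat_lit 533731) (.g (nat_lit 2619) (.e (nat_lit 57412) (nat_lit 12) (.e (nat_lit 336005) (nat_lit 2) (.e (nat_lit 90170) (nat_lit 13) (.e (nat_lit 172113) (nat_lit 10) (.e (nat_lit 434248) (nat_lit 28) (.e (nat_lit 573475) (nat_lit 12) (.e (nat_lit 57348) (nat_lit 0) (.e (nat_lit 7261) (nat_lit 384) .nil)))))))) (.g (nat_lit 1) (.e (nat_lit 253321) (nat_lit 0) .nil) .nil))) 
(.lf (nat_lit 534243) (.g (nat_lit 1810) (.e (nat_lit 57474) (nat_lit 28) (.e (nat_lit 557097) (nat_lit 13) (.e (nat_lit 172097) (nat_lit 9) (.e (nat_lit 426125) (nat_lit 2) (.e (nat_lit 196666) (nat_lit 13) .nil))))) (.g (nat_lit 0) (.e (nat_lit 254191) (nat_lit 0) .nil) .nil)))) (.nd (nat_lit 9) 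
(.lf (nat_lit 533987) (.g (nat_lit 3372) (.e (nat_lit 57463) (nat_lit 23) (.e (nat_lit 516151) (nat_lit 9) (.e (nat_lit 426211) (nat_lit 9) (.e (nat_lit 426140) (nat_lit 3) (.e (nat_lit 204846) (nat_lit 24) .nil))))) (.g (nat_lit 0) (.e (nat_lit 253841) (nat_lit 0) .nil) .nil))) 
(.lf (nat_lit 534499) (.g (nat_lit 3910) (.e (nat_lit 57479) (nat_lit 28) (.e (nat_lit 557105) (nat_lit 14) (.e (nat_lit 180252) (nat_lit 10) (.e (nat_lit 573481) (nat_lit 13) (.e (nat_lit 65571) (nat_lit 3) (.e (nat_lit 98321) (nat_lit 17) (.e (nat_lit 7936) (nat_lit 216) (.e (nat_lit 688166) (nat_lit 15) .nil)))))))) (.g (nat_lit 1) (.e (nat_lit 254713) (nat_lit 0) .nil) .nil)))))))) 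
(.nd (nat_lit 5) (.nd (nat_lit 6) (.nd (nat_lit 7) (.nd (nat_lit 8) (.nd (nat_lit 9) 
(.lf (nat_lit 533523) (.g (nat_lit 1971) (.e (nat_lit 57407) (nat_lit 12) (.e (nat_lit 336316) (nat_lit 17) (.e (nat_lit 196666) (nat_lit 13) (.e (nat_lit 65617) (nat_lit 10) (.e (nat_lit 344095) (nat_lit 18) (.e (nat_lit 7695) (nat_lit 412) (.e (nat_lit 57366) (nat_lit 1) (.e (nat_lit 57847) (nat_lit 252) .nil)))))))) (.g (nat_lit 1) (.e (nat_lit 252994) (nat_lit 0) .nil) .nil))) 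
(.lf (nat_lit 534035) (.g (nat_lit 1829) (.e (nat_lit 57464) (nat_lit 23) (.e (nat_lit 516151) (nat_lit 9) (.e (nat_lit 426171) (nat_lit 7) (.e (nat_lit 409612) (nat_lit 10) (.e (nat_lit 504) (nat_lit 41) .nil))))) (.g (nat_lit 0) (.e (nat_lit 253926) (nat_lit 0) .nil) .nil)))) (.nd (nat_lit 9) 
(.lf (nat_lit 533779) (.g (nat_lit 1029) (.e (nat_lit 57412) (nat_lit 12) (.e (nat_lit 336176) (nat_lit 10) (.e (nat_lit 344156) (nat_lit 36) (.e (nat_lit 638985) (nat_lit 5) (.e (nat_lit 3015) (nat_lit 187) .nil))))) (.g (nat_lit 0) (.e (nat_lit 253370) (nat_lit 0) .nil) .nil))) 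
(.lf (nat_lit 534291) (.g (nat_lit 3098) (.e (nat_lit 57476) (nat_lit 28) (.e (nat_lit 557097) (nat_lit 13) (.e (nat_lit 172105) (nat_lit 10) (.e (nat_lit 434231) (nat_lit 23) (.e (nat_lit 532535) (nat_lit 9) (.e (nat_lit 336295) (nat_lit 15) (.e (nat_lit 3630) (nat_lit 227) (.e (nat_lit 778318) (nat_lit 3) .nil)))))))) (.g (nat_lit 1) (.e (nat_lit 254359) (nat_lit 0) .nil) .nil))))) 
(.nd (nat_lit 8) (.nd (nat_lit 9) 
(.lf (nat_lit 533651) (.g (nat_lit 5663) (.e (nat_lit 57411) (nat_lit 12) (.e (nat_lit 336019) (nat_lit 3) (.e (nat_lit 98373) (nat_lit 29) (.e (nat_lit 450588) (nat_lit 10) (.e (nat_lit 573473) (nat_lit 12) (.e (nat_lit 57352) (nat_lit 0) (.e (nat_lit 7261) (nat_lit 384) .nil))))))) (.g (nat_lit 1) (.e (nat_lit 253202) (nat_lit 0) .nil) .nil))) 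
(.lf (nat_lit 534163) (.g (nat_lit 2944) (.e (nat_lit 57465) (nat_lit 23) (.e (nat_lit 516115) (nat_lit 1) (.e (nat_lit 164325) (nat_lit 230) (.e (nat_lit 163873) (nat_lit 3) (.e (nat_lit 204809) (nat_lit 9) (.e (nat_lit 426139) (nat_lit 3) (.e (nat_lit 204832) (nat_lit 19) (.e (nat_lit 106539) (nat_lit 12) .nil)))))))) (.g (nat_lit 1) (.e (nat_lit 254078) (nat_lit 0) .nil) .nil)))) 
(.nd (nat_lit 9) 
(.lf (nat_lit 533907) (.g (nat_lit 4432) (.e (nat_lit 57431) (nat_lit 16) (.e (nat_lit 368676) (nat_lit 21) (.e (nat_lit 516166) (nat_lit 12) (.e (nat_lit 450587) (nat_lit 10) (.e (nat_lit 573477) (nat_lit 12) (.e (nat_lit 57352) (nat_lit 0) (.e (nat_lit 7261) (nat_lit 384) .nil))))))) (.g (nat_lit 1) (.e (nat_lit 253579) (nat_lit 0) .nil) .nil))) 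
(.lf (nat_lit 534419) (.g (nat_lit 3321) (.e (nat_lit 57478) (nat_lit 28) (.e (nat_lit 557105) (nat_lit 14) (.e (nat_lit 180252) (nat_lit 10) (.e (nat_lit 573488) (nat_lit 14) (.e (nat_lit 73747) (nat_lit 3) (.e (nat_lit 516097) (nat_lit 0) (.e (nat_lit 3455) (nat_lit 216) (.e (nat_lit 688167) (nat_lit 15) .nil)))))))) (.g (nat_lit 1) (.e (nat_lit 254572) (nat_lit 0) .nil) .nil)))))) 
(.nd (nat_lit 7) (.nd (nat_lit 8) (.nd (nat_lit 9) 
(.lf (nat_lit 533587) (.g (nat_lit 1040) (.e (nat_lit 57409) (nat_lit 12) (.e (nat_lit 336326) (nat_lit 18) (.e (nat_lit 204861) (nat_lit 26) (.e (nat_lit 336222) (nat_lit 13) .nil)))) (.g (nat_lit 0) (.e (nat_lit 253090) (nat_lit 0) .nil) .nil))) 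
(.lf (nat_lit 534099) (.g (nat_lit 3350) (.e (nat_lit 57464) (nat_lit 23) (.e (nat_lit 516165) (nat_lit 12) (.e (nat_lit 450588) (nat_lit 10) (.e (nat_lit 573452) (nat_lit 9) (.e (nat_lit 359) (nat_lit 30) (.e (nat_lit 409602) (nat_lit 0) (.e (nat_lit 5394) (nat_lit 301) .nil))))))) (.g (nat_lit 1) (.e (nat_lit 254005) (nat_lit 0) .nil) .nil)))) (.nd (nat_lit 9) 
(.lf (nat_lit 533843) (.g (nat_lit 2254) (.e (nat_lit 57419) (nat_lit 12) (.e (nat_lit 336203) (nat_lit 12) (.e (nat_lit 385102) (nat_lit 50) (.e (nat_lit 786483) (nat_lit 30) (.e (nat_lit 360457) (nat_lit 0) (.e (nat_lit 5948) (nat_lit 322) .nil)))))) (.g (nat_lit 1) (.e (nat_lit 253467) (nat_lit 0) .nil) .nil))) 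
(.lf (nat_lit 534355) (.g (nat_lit 3713) (.e (nat_lit 57476) (nat_lit 28) (.e (nat_lit 557108) (nat_lit 15) (.e (nat_lit 188452) (nat_lit 23) (.e (nat_lit 204852) (nat_lit 26) (.e (nat_lit 336306) (nat_lit 15) (.e (nat_lit 3618) (nat_lit 227) (.e (nat_lit 778318) (nat_lit 3) .nil))))))) (.g (nat_lit 1) (.e (nat_lit 254423) (nat_lit 0) .nil) .nil))))) (.nd (nat_lit 8) (.nd (nat_lit 9) 
(.lf (nat_lit 533715) (.g (nat_lit 3413) (.e (nat_lit 57412) (nat_lit 12) (.e (nat_lit 336001) (nat_lit 2) (.e (nat_lit 90170) (nat_lit 13) (.e (nat_lit 172113) (nat_lit 10) (.e (nat_lit 434247) (nat_lit 28) (.e (nat_lit 573478) (nat_lit 12) (.e (nat_lit 57352) (nat_lit 0) (.e (nat_lit 7261) (nat_lit 384) .nil)))))))) (.g (nat_lit 1) (.e (nat_lit 253305) (nat_lit 0) .nil) .nil))) 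
(.lf (nat_lit 534227) (.g (nat_lit 3141) (.e (nat_lit 57466) (nat_lit 23) (.e (nat_lit 516151) (nat_lit 9) (.e (nat_lit 426211) (nat_lit 9) (.e (nat_lit 433920) (nat_lit 3) .nil)))) (.g (nat_lit 0) (.e (nat_lit 254145) (nat_lit 0) .nil) .nil)))) (.nd (nat_lit 9) 
(.lf (nat_lit 533971) (.g (nat_lit 762) (.e (nat_lit 57451) (nat_lit 20) (.e (nat_lit 401446) (nat_lit 10) (.e (nat_lit 434272) (nat_lit 38) .nil))) (.g (nat_lit 0) (.e (nat_lit 253712) (nat_lit 0) .nil) .nil))) 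
(.lf (nat_lit 534483) (.g (nat_lit 4256) (.e (nat_lit 57479) (nat_lit 28) (.e (nat_lit 557105) (nat_lit 14) (.e (nat_lit 180251) (nat_lit 10) (.e (nat_lit 573484) (nat_lit 13) (.e (nat_lit 65569) (nat_lit 3) (.e (nat_lit 98321) (nat_lit 17) (.e (nat_lit 7936) (nat_lit 216) (.e (nat_lit 688166) (nat_lit 15) .nil)))))))) (.g (nat_lit 1) (.e (nat_lit 254697) (nat_lit 0) .nil) .nil))))))) 
(.nd (nat_lit 6) (.nd (nat_lit 7) (.nd (nat_lit 8) (.nd (nat_lit 9) 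
(.lf (nat_lit 533555) (.g (nat_lit 1585) (.e (nat_lit 57408) (nat_lit 12) (.e (nat_lit 336019) (nat_lit 3) (.e (nat_lit 98372) (nat_lit 29) (.e (nat_lit 450586) (nat_lit 10) .nil)))) (.g (nat_lit 0) (.e (nat_lit 253040) (nat_lit 0) .nil) .nil))) 
(.lf (nat_lit 534067) (.g (nat_lit 1386) (.e (nat_lit 57464) (nat_lit 23) (.e (nat_lit 516160) (nat_lit 10) (.e (nat_lit 434193) (nat_lit 13) (.e (nat_lit 2571) (nat_lit 160) (.e (nat_lit 32808) (nat_lit 19) (.e (nat_lit 188160) (nat_lit 35) .nil)))))) (.g (nat_lit 1) (.e (nat_lit 253969) (nat_lit 0) .nil) .nil)))) (.nd (nat_lit 9) 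
(.lf (nat_lit 533811) (.g (nat_lit 3021) (.e (nat_lit 57415) (nat_lit 12) (.e (nat_lit 336013) (nat_lit 2) (.e (nat_lit 90170) (nat_lit 13) (.e (nat_lit 172113) (nat_lit 10) .nil)))) (.g (nat_lit 0) (.e (nat_lit 253425) (nat_lit 0) .nil) .nil))) 
(.lf (nat_lit 534323) (.g (nat_lit 2846) (.e (nat_lit 57476) (nat_lit 28) (.e (nat_lit 557107) (nat_lit 15) (.e (nat_lit 188450) (nat_lit 23) (.e (nat_lit 204852) (nat_lit 26) (.e (nat_lit 336263) (nat_lit 15) (.e (nat_lit 3629) (nat_lit 227) (.e (nat_lit 778318) (nat_lit 3) .nil))))))) (.g (nat_lit 1) (.e (nat_lit 254391) (nat_lit 0) .nil) .nil))))) (.nd (nat_lit 8) (.nd (nat_lit 9) 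
(.lf (nat_lit 533683) (.g (nat_lit 3306) (.e (nat_lit 57411) (nat_lit 12) (.e (nat_lit 336456) (nat_lit 34) (.e (nat_lit 483379) (nat_lit 23) (.e (nat_lit 336324) (nat_lit 18) (.e (nat_lit 204831) (nat_lit 18) (.e (nat_lit 57847) (nat_lit 252) .nil)))))) (.g (nat_lit 1) (.e (nat_lit 253273) (nat_lit 0) .nil) .nil))) 
(.lf (nat_lit 534195) (.g (nat_lit 2945) (.e (nat_lit 57466) (nat_lit 23) (.e (nat_lit 516115) (nat_lit 1) (.e (nat_lit 164325) (nat_lit 230) (.e (nat_lit 163868) (nat_lit 2) .nil)))) (.g (nat_lit 0) (.e (nat_lit 254113) (nat_lit 0) .nil) .nil)))) (.nd (nat_lit 9) 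
(.lf (nat_lit 533939) (.g (nat_lit 1191) (.e (nat_lit 57440) (nat_lit 18) (.e (nat_lit 385068) (nat_lit 26) (.e (nat_lit 532560) (nat_lit 14) (.e (nat_lit 376860) (nat_lit 21) .nil)))) (.g (nat_lit 0) (.e (nat_lit 253646) (nat_lit 0) .nil) .nil))) 
(.lf (nat_lit 534451) (.g (nat_lit 4507) (.e (nat_lit 57479) (nat_lit 28) (.e (nat_lit 557100) (nat_lit 13) (.e (nat_lit 172106) (nat_lit 10) (.e (nat_lit 434231) (nat_lit 23) (.e (nat_lit 532535) (nat_lit 9) (.e (nat_lit 336253) (nat_lit 15) (.e (nat_lit 3716) (nat_lit 227) (.e (nat_lit 778316) (nat_lit 3) .nil)))))))) (.g (nat_lit 1) (.e (nat_lit 254665) (nat_lit 0) .nil) .nil)))))) 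
(.nd (nat_lit 7) (.nd (nat_lit 8) (.nd (nat_lit 9) 
(.lf (nat_lit 533619) (.g (nat_lit 1860) (.e (nat_lit 57409) (nat_lit 12) (.e (nat_lit 336454) (nat_lit 34) (.e (nat_lit 483383) (nat_lit 23) (.e (nat_lit 336322) (nat_lit 18) .nil)))) (.g (nat_lit 0) (.e (nat_lit 253124) (nat_lit 0) .nil) .nil))) 
(.lf (nat_lit 534131) (.g (nat_lit 2668) (.e (nat_lit 57464) (nat_lit 23) (.e (nat_lit 516166) (nat_lit 12) (.e (nat_lit 450588) (nat_lit 10) (.e (nat_lit 573450) (nat_lit 9) (.e (nat_lit 473) (nat_lit 36) (.e (nat_lit 466688) (nat_lit 3) .nil)))))) (.g (nat_lit 1) (.e (nat_lit 254043) (nat_lit 0) .nil) .nil)))) (.nd (nat_lit 9) 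
(.lf (nat_lit 533875) (.g (nat_lit 2615) (.e (nat_lit 57430) (nat_lit 16) (.e (nat_lit 368676) (nat_lit 21) (.e (nat_lit 516165) (nat_lit 12) (.e (nat_lit 450586) (nat_lit 10) (.e (nat_lit 573477) (nat_lit 12) .nil))))) (.g (nat_lit 0) (.e (nat_lit 253545) (nat_lit 0) .nil) .nil))) 
(.lf (nat_lit 534387) (.g (nat_lit 3241) (.e (nat_lit 57477) (nat_lit 28) (.e (nat_lit 557108) (nat_lit 15) (.e (nat_lit 188449) (nat_lit 22) (.e (nat_lit 196666) (nat_lit 13) (.e (nat_lit 65638) (nat_lit 15) .nil))))) (.g (nat_lit 0) (.e (nat_lit 254501) (nat_lit 0) .nil) .nil))))) (.nd (nat_lit 8) (.nd (nat_lit 9) 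
(.lf (nat_lit 533747) (.g (nat_lit 2422) (.e (nat_lit 57412) (nat_lit 12) (.e (nat_lit 336008) (nat_lit 2) (.e (nat_lit 90170) (nat_lit 13) (.e (nat_lit 172113) (nat_lit 10) (.e (nat_lit 434247) (nat_lit 28) (.e (nat_lit 573478) (nat_lit 12) (.e (nat_lit 57353) (nat_lit 0) (.e (nat_lit 7265) (nat_lit 384) .nil)))))))) (.g (nat_lit 1) (.e (nat_lit 253337) (nat_lit 0) .nil) .nil))) 
(.lf (nat_lit 534259) (.g (nat_lit 2164) (.e (nat_lit 57475) (nat_lit 28) (.e (nat_lit 557098) (nat_lit 13) (.e (nat_lit 172097) (nat_lit 9) (.e (nat_lit 426140) (nat_lit 3) (.e (nat_lit 204862) (nat_lit 27) .nil))))) (.g (nat_lit 0) (.e (nat_lit 254209) (nat_lit 0) .nil) .nil)))) (.nd (nat_lit 9) 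
(.lf (nat_lit 534003) (.g (nat_lit 1372) (.e (nat_lit 57464) (nat_lit 23) (.e (nat_lit 516138) (nat_lit 7) (.e (nat_lit 409645) (nat_lit 18) (.e (nat_lit 303119) (nat_lit 3) .nil)))) (.g (nat_lit 0) (.e (nat_lit 253885) (nat_lit 0) .nil) .nil))) 
(.lf (nat_lit 534515) (.g (nat_lit 4435) (.e (nat_lit 57479) (nat_lit 28) (.e (nat_lit 557105) (nat_lit 14) (.e (nat_lit 180252) (nat_lit 10) (.e (nat_lit 573487) (nat_lit 14) (.e (nat_lit 73747) (nat_lit 3) (.e (nat_lit 516097) (nat_lit 0) (.e (nat_lit 3455) (nat_lit 216) (.e (nat_lit 688167) (nat_lit 15) .nil)))))))) (.g (nat_lit 1) (.e (nat_lit 254729) (nat_lit 0) .nil) .nil))))))))) 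
(.nd (nat_lit 4) (.nd (nat_lit 5) (.nd (nat_lit 6) (.nd (nat_lit 7) (.nd (nat_lit 8) 
(.nd (nat_lit 9) 
(.lf (nat_lit 533515) (.g (nat_lit 4614) (.e (nat_lit 57407) (nat_lit 12) (.e (nat_lit 336019) (nat_lit 3) (.e (nat_lit 98373) (nat_lit 29) (.e (nat_lit 450587) (nat_lit 10) (.e (nat_lit 573478) (nat_lit 12) (.e (nat_lit 57353) (nat_lit 0) (.e (nat_lit 7261) (nat_lit 384) .nil))))))) (.g (nat_lit 1) (.e (nat_lit 252983) (nat_lit 0) .nil) .nil))) 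
(.lf (nat_lit 534027) (.g (nat_lit 1891) (.e (nat_lit 57464) (nat_lit 23) (.e (nat_lit 516139) (nat_lit 7) (.e (nat_lit 417536) (nat_lit 18) (.e (nat_lit 303117) (nat_lit 2) (.e (nat_lit 196661) (nat_lit 12) (.e (nat_lit 57723) (nat_lit 180) (.e (nat_lit 229657) (nat_lit 235) .nil))))))) (.g (nat_lit 1) (.e (nat_lit 253917) (nat_lit 0) .nil) .nil)))) (.nd (nat_lit 9) 
(.lf (nat_lit 533771) (.g (nat_lit 941) (.e (nat_lit 57412) (nat_lit 12) (.e (nat_lit 336058) (nat_lit 7) (.e (nat_lit 319526) (nat_lit 15) (.e (nat_lit 278547) (nat_lit 8) (.e (nat_lit 303131) (nat_lit 9) (.e (nat_lit 426109) (nat_lit 1) (.e (nat_lit 164319) (nat_lit 228) .nil))))))) (.g (nat_lit 1) (.e (nat_lit 253361) (nat_lit 0) .nil) .nil))) 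
(.lf (nat_lit 534283) (.g (nat_lit 2747) (.e (nat_lit 57476) (nat_lit 28) (.e (nat_lit 557097) (nat_lit 13) (.e (nat_lit 172059) (nat_lit 1) (.e (nat_lit 164399) (nat_lit 256) (.e (nat_lit 57447) (nat_lit 19) (.e (nat_lit 393233) (nat_lit 17) (.e (nat_lit 7583) (nat_lit 405) .nil))))))) (.g (nat_lit 1) (.e (nat_lit 254351) (nat_lit 0) .nil) .nil))))) (.nd (nat_lit 8) (.nd (nat_lit 9) 
(.lf (nat_lit 533643) (.g (nat_lit 1778) (.e (nat_lit 57410) (nat_lit 12) (.e (nat_lit 336454) (nat_lit 34) (.e (nat_lit 483385) (nat_lit 23) (.e (nat_lit 336260) (nat_lit 15) .nil)))) (.g (nat_lit 0) (.e (nat_lit 253167) (nat_lit 0) .nil) .nil))) 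
(.lf (nat_lit 534155) (.g (nat_lit 3764) (.e (nat_lit 57464) (nat_lit 23) (.e (nat_lit 516166) (nat_lit 12) (.e (nat_lit 450588) (nat_lit 10) (.e (nat_lit 573471) (nat_lit 11) (.e (nat_lit 16388) (nat_lit 0) (.e (nat_lit 7583) (nat_lit 405) .nil)))))) (.g (nat_lit 1) (.e (nat_lit 254067) (nat_lit 0) .nil) .nil)))) (.nd (nat_lit 9) 
(.lf (nat_lit 533899) (.g (nat_lit 3461) (.e (nat_lit 57431) (nat_lit 16) (.e (nat_lit 368676) (nat_lit 21) (.e (nat_lit 516165) (nat_lit 12) (.e (nat_lit 450586) (nat_lit 10) (.e (nat_lit 573475) (nat_lit 12) (.e (nat_lit 57351) (nat_lit 0) (.e (nat_lit 7266) (nat_lit 384) .nil))))))) (.g (nat_lit 1) (.e (nat_lit 253571) (nat_lit 0) .nil) .nil))) 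
(.lf (nat_lit 534411) (.g (nat_lit 2742) (.e (nat_lit 57478) (nat_lit 28) (.e (nat_lit 557101) (nat_lit 13) (.e (nat_lit 172097) (nat_lit 9) (.e (nat_lit 426125) (nat_lit 2) (.e (nat_lit 196666) (nat_lit 13) (.e (nat_lit 65639) (nat_lit 15) (.e (nat_lit 3711) (nat_lit 227) (.e (nat_lit 786176) (nat_lit 3) .nil)))))))) (.g (nat_lit 1) (.e (nat_lit 254563) (nat_lit 0) .nil) .nil)))))) 
(.nd (nat_lit 7) (.nd (nat_lit 8) (.nd (nat_lit 9) 
(.lf (nat_lit 533579) (.g (nat_lit 1988) (.e (nat_lit 57409) (nat_lit 12) (.e (nat_lit 336182) (nat_lit 11) (.e (nat_lit 368698) (nat_lit 43) (.e (nat_lit 770072) (nat_lit 8) (.e (nat_lit 65617) (nat_lit 10) (.e (nat_lit 344095) (nat_lit 18) (.e (nat_lit 7263) (nat_lit 384) .nil))))))) (.g (nat_lit 1) (.e (nat_lit 253065) (nat_lit 0) .nil) .nil))) 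
(.lf (nat_lit 534091) (.g (nat_lit 1602) (.e (nat_lit 57464) (nat_lit 23) (.e (nat_lit 516165) (nat_lit 12) (.e (nat_lit 450586) (nat_lit 10) (.e (nat_lit 573457) (nat_lit 9) (.e (nat_lit 7936) (nat_lit 36) (.e (nat_lit 466688) (nat_lit 3) .nil)))))) (.g (nat_lit 1) (.e (nat_lit 253997) (nat_lit 0) .nil) .nil)))) (.nd (nat_lit 9) 
(.lf (nat_lit 533835) (.g (nat_lit 1774) (.e (nat_lit 57419) (nat_lit 12) (.e (nat_lit 336194) (nat_lit 12) (.e (nat_lit 385106) (nat_lit 50) (.e (nat_lit 786481) (nat_lit 30) (.e (nat_lit 360456) (nat_lit 0) (.e (nat_lit 5948) (nat_lit 322) .nil)))))) (.g (nat_lit 1) (.e (nat_lit 253459) (nat_lit 0) .nil) .nil))) 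
(.lf (nat_lit 534347) (.g (nat_lit 3652) (.e (nat_lit 57476) (nat_lit 28) (.e (nat_lit 557108) (nat_lit 15) (.e (nat_lit 188452) (nat_lit 23) (.e (nat_lit 204852) (nat_lit 26) (.e (nat_lit 336260) (nat_lit 15) (.e (nat_lit 3634) (nat_lit 227) (.e (nat_lit 778318) (nat_lit 3) .nil))))))) (.g (nat_lit 1) (.e (nat_lit 254415) (nat_lit 0) .nil) .nil))))) (.nd (nat_lit 8) (.nd (nat_lit 9) 
(.lf (nat_lit 533707) (.g (nat_lit 4475) (.e (nat_lit 57412) (nat_lit 12) (.e (nat_lit 336001) (nat_lit 2) (.e (nat_lit 90170) (nat_lit 13) (.e (nat_lit 172113) (nat_lit 10) (.e (nat_lit 434242) (nat_lit 28) (.e (nat_lit 573474) (nat_lit 12) (.e (nat_lit 57348) (nat_lit 0) (.e (nat_lit 7261) (nat_lit 384) .nil)))))))) (.g (nat_lit 1) (.e (nat_lit 253297) (nat_lit 0) .nil) .nil))) 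
(.lf (nat_lit 534219) (.g (nat_lit 1872) (.e (nat_lit 57466) (nat_lit 23) (.e (nat_lit 516129) (nat_lit 3) (.e (nat_lit 221210) (nat_lit 22) (.e (nat_lit 196668) (nat_lit 14) (.e (nat_lit 73747) (nat_lit 3) .nil))))) (.g (nat_lit 0) (.e (nat_lit 254137) (nat_lit 0) .nil) .nil)))) (.nd (nat_lit 9) 
(.lf (nat_lit 533963) (.g (nat_lit 784) (.e (nat_lit 57449) (nat_lit 20) (.e (nat_lit 401454) (nat_lit 12) (.e (nat_lit 475209) (nat_lit 41) .nil))) (.g (nat_lit 0) (.e (nat_lit 253687) (nat_lit 0) .nil) .nil))) 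
(.lf (nat_lit 534475) (.g (nat_lit 4245) (.e (nat_lit 57479) (nat_lit 28) (.e (nat_lit 557101) (nat_lit 13) (.e (nat_lit 172115) (nat_lit 10) (.e (nat_lit 434231) (nat_lit 23) (.e (nat_lit 532535) (nat_lit 9) (.e (nat_lit 336253) (nat_lit 15) (.e (nat_lit 3716) (nat_lit 227) (.e (nat_lit 778316) (nat_lit 3) .nil)))))))) (.g (nat_lit 1) (.e (nat_lit 254689) (nat_lit 0) .nil) .nil))))))) 
(.nd (nat_lit 6) (.nd (nat_lit 7) (.nd (nat_lit 8) (.nd (nat_lit 9) 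
(.lf (nat_lit 533547) (.g (nat_lit 1746) (.e (nat_lit 57407) (nat_lit 12) (.e (nat_lit 336456) (nat_lit 34) (.e (nat_lit 483383) (nat_lit 23) (.e (nat_lit 343808) (nat_lit 18) .nil)))) (.g (nat_lit 0) (.e (nat_lit 253032) (nat_lit 0) .nil) .nil))) 
(.lf (nat_lit 534059) (.g (nat_lit 3182) (.e (nat_lit 57464) (nat_lit 23) (.e (nat_lit 516151) (nat_lit 9) (.e (nat_lit 426286) (nat_lit 10) (.e (nat_lit 434248) (nat_lit 28) (.e (nat_lit 573469) (nat_lit 11) (.e (nat_lit 16387) (nat_lit 0) (.e (nat_lit 7581) (nat_lit 405) .nil))))))) (.g (nat_lit 1) (.e (nat_lit 253952) (nat_lit 0) .nil) .nil)))) (.nd (nat_lit 9) 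
(.lf (nat_lit 533803) (.g (nat_lit 2432) (.e (nat_lit 57412) (nat_lit 12) (.e (nat_lit 336226) (nat_lit 14) (.e (nat_lit 401438) (nat_lit 9) (.e (nat_lit 426542) (nat_lit 29) (.e (nat_lit 352317) (nat_lit 24) .nil))))) (.g (nat_lit 0) (.e (nat_lit 253408) (nat_lit 0) .nil) .nil))) 
(.lf (nat_lit 534315) (.g (nat_lit 2433) (.e (nat_lit 57476) (nat_lit 28) (.e (nat_lit 557107) (nat_lit 15) (.e (nat_lit 188447) (nat_lit 22) (.e (nat_lit 196666) (nat_lit 13) (.e (nat_lit 65639) (nat_lit 15) (.e (nat_lit 3711) (nat_lit 227) (.e (nat_lit 786176) (nat_lit 3) .nil))))))) (.g (nat_lit 1) (.e (nat_lit 254383) (nat_lit 0) .nil) .nil))))) (.nd (nat_lit 8) (.nd (nat_lit 9) 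
(.lf (nat_lit 533675) (.g (nat_lit 3381) (.e (nat_lit 57411) (nat_lit 12) (.e (nat_lit 336454) (nat_lit 34) (.e (nat_lit 483380) (nat_lit 23) (.e (nat_lit 336324) (nat_lit 18) (.e (nat_lit 204831) (nat_lit 18) (.e (nat_lit 57849) (nat_lit 252) .nil)))))) (.g (nat_lit 1) (.e (nat_lit 253252) (nat_lit 0) .nil) .nil))) 
(.lf (nat_lit 534187) (.g (nat_lit 2542) (.e (nat_lit 57465) (nat_lit 23) (.e (nat_lit 516129) (nat_lit 3) (.e (nat_lit 221210) (nat_lit 22) (.e (nat_lit 196668) (nat_lit 14) (.e (nat_lit 73747) (nat_lit 3) (.e (nat_lit 516100) (nat_lit 0) (.e (nat_lit 3460) (nat_lit 216) (.e (nat_lit 688171) (nat_lit 15) .nil)))))))) (.g (nat_lit 1) (.e (nat_lit 254104) (nat_lit 0) .nil) .nil)))) 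
(.nd (nat_lit 9) 
(.lf (nat_lit 533931) (.g (nat_lit 1855) (.e (nat_lit 57437) (nat_lit 17) (.e (nat_lit 376835) (nat_lit 0) (.e (nat_lit 3746) (nat_lit 228) (.e (nat_lit 786483) (nat_lit 30) (.e (nat_lit 368384) (nat_lit 0) (.e (nat_lit 5941) (nat_lit 322) .nil)))))) (.g (nat_lit 1) (.e (nat_lit 253629) (nat_lit 0) .nil) .nil))) 
(.lf (nat_lit 534443) (.g (nat_lit 3252) (.e (nat_lit 57479) (nat_lit 28) (.e (nat_lit 557100) (nat_lit 13) (.e (nat_lit 172106) (nat_lit 10) (.e (nat_lit 434231) (nat_lit 23) (.e (nat_lit 532529) (nat_lit 9) (.e (nat_lit 336296) (nat_lit 15) (.e (nat_lit 3714) (nat_lit 227) (.e (nat_lit 778316) (nat_lit 3) .nil)))))))) (.g (nat_lit 1) (.e (nat_lit 254657) (nat_lit 0) .nil) .nil)))))) 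
(.nd (nat_lit 7) (.nd (nat_lit 8) (.nd (nat_lit 9) 
(.lf (nat_lit 533611) (.g (nat_lit 3101) (.e (nat_lit 57409) (nat_lit 12) (.e (nat_lit 336443) (nat_lit 32) (.e (nat_lit 466977) (nat_lit 22) (.e (nat_lit 196656) (nat_lit 11) (.e (nat_lit 16392) (nat_lit 0) (.e (nat_lit 2506) (nat_lit 157) (.e (nat_lit 5944) (nat_lit 322) .nil))))))) (.g (nat_lit 1) (.e (nat_lit 253115) (nat_lit 0) .nil) .nil))) 
(.lf (nat_lit 534123) (.g (nat_lit 1710) (.e (nat_lit 57464) (nat_lit 23) (.e (nat_lit 516166) (nat_lit 12) (.e (nat_lit 450587) (nat_lit 10) (.e (nat_lit 573457) (nat_lit 9) (.e (nat_lit 7936) (nat_lit 33) (.e (nat_lit 442112) (nat_lit 3) .nil)))))) (.g (nat_lit 1) (.e (nat_lit 254035) (nat_lit 0) .nil) .nil)))) (.nd (nat_lit 9) 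
(.lf (nat_lit 533867) (.g (nat_lit 5501) (.e (nat_lit 57429) (nat_lit 16) (.e (nat_lit 368676) (nat_lit 21) (.e (nat_lit 516166) (nat_lit 12) (.e (nat_lit 450588) (nat_lit 10) (.e (nat_lit 573475) (nat_lit 12) .nil))))) (.g (nat_lit 0) (.e (nat_lit 253529) (nat_lit 0) .nil) .nil))) 
(.lf (nat_lit 534379) (.g (nat_lit 2521) (.e (nat_lit 57477) (nat_lit 28) (.e (nat_lit 557104) (nat_lit 14) (.e (nat_lit 180252) (nat_lit 10) (.e (nat_lit 573481) (nat_lit 13) (.e (nat_lit 65569) (nat_lit 3) (.e (nat_lit 98321) (nat_lit 17) (.e (nat_lit 7936) (nat_lit 216) (.e (nat_lit 688166) (nat_lit 15) .nil)))))))) (.g (nat_lit 1) (.e (nat_lit 254493) (nat_lit 0) .nil) .nil))))) 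
(.nd (nat_lit 8) (.nd (nat_lit 9) 
(.lf (nat_lit 533739) (.g (nat_lit 2485) (.e (nat_lit 57412) (nat_lit 12) (.e (nat_lit 336008) (nat_lit 2) (.e (nat_lit 90170) (nat_lit 13) (.e (nat_lit 172113) (nat_lit 10) (.e (nat_lit 434245) (nat_lit 28) (.e (nat_lit 573473) (nat_lit 12) (.e (nat_lit 57352) (nat_lit 0) (.e (nat_lit 7261) (nat_lit 384) .nil)))))))) (.g (nat_lit 1) (.e (nat_lit 253329) (nat_lit 0) .nil) .nil))) 
(.lf (nat_lit 534251) (.g (nat_lit 1353) (.e (nat_lit 57474) (nat_lit 28) (.e (nat_lit 557101) (nat_lit 13) (.e (nat_lit 172115) (nat_lit 10) (.e (nat_lit 434231) (nat_lit 23) .nil)))) (.g (nat_lit 0) (.e (nat_lit 254199) (nat_lit 0) .nil) .nil)))) (.nd (nat_lit 9) 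
(.lf (nat_lit 533995) (.g (nat_lit 4329) (.e (nat_lit 57464) (nat_lit 23) (.e (nat_lit 516115) (nat_lit 1) (.e (nat_lit 164325) (nat_lit 230) (.e (nat_lit 163873) (nat_lit 3) (.e (nat_lit 204809) (nat_lit 9) .nil))))) (.g (nat_lit 0) (.e (nat_lit 253855) (nat_lit 0) .nil) .nil))) 
(.lf (nat_lit 534507) (.g (nat_lit 3634) (.e (nat_lit 57479) (nat_lit 28) (.e (nat_lit 557105) (nat_lit 14) (.e (nat_lit 180252) (nat_lit 10) (.e (nat_lit 573482) (nat_lit 13) (.e (nat_lit 65571) (nat_lit 3) (.e (nat_lit 98319) (nat_lit 17) (.e (nat_lit 3455) (nat_lit 216) (.e (nat_lit 688167) (nat_lit 15) .nil)))))))) (.g (nat_lit 1) (.e (nat_lit 254721) (nat_lit 0) .nil) .nil)))))))) 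
(.nd (nat_lit 5) (.nd (nat_lit 6) (.nd (nat_lit 7) (.nd (nat_lit 8) (.nd (nat_lit 9) 
(.lf (nat_lit 533531) (.g (nat_lit 712) (.e (nat_lit 57407) (nat_lit 12) (.e (nat_lit 336454) (nat_lit 34) (.e (nat_lit 483379) (nat_lit 23) .nil))) (.g (nat_lit 0) (.e (nat_lit 253016) (nat_lit 0) .nil) .nil))) 
(.lf (nat_lit 534043) (.g (nat_lit 2277) (.e (nat_lit 57464) (nat_lit 23) (.e (nat_lit 516151) (nat_lit 9) (.e (nat_lit 426286) (nat_lit 10) (.e (nat_lit 434245) (nat_lit 28) (.e (nat_lit 573451) (nat_lit 9) (.e (nat_lit 396) (nat_lit 32) (.e (nat_lit 426011) (nat_lit 0) (.e (nat_lit 7583) (nat_lit 405) .nil)))))))) (.g (nat_lit 1) (.e (nat_lit 253936) (nat_lit 0) .nil) .nil)))) (.nd (nat_lit 9) 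
(.lf (nat_lit 533787) (.g (nat_lit 1675) (.e (nat_lit 57412) (nat_lit 12) (.e (nat_lit 336176) (nat_lit 10) (.e (nat_lit 344157) (nat_lit 36) (.e (nat_lit 638986) (nat_lit 5) (.e (nat_lit 3022) (nat_lit 187) (.e (nat_lit 458496) (nat_lit 0) (.e (nat_lit 5190) (nat_lit 294) .nil))))))) (.g (nat_lit 1) (.e (nat_lit 253378) (nat_lit 0) .nil) .nil))) 
(.lf (nat_lit 534299) (.g (nat_lit 4545) (.e (nat_lit 57476) (nat_lit 28) (.e (nat_lit 557097) (nat_lit 13) (.e (nat_lit 172115) (nat_lit 10) (.e (nat_lit 434231) (nat_lit 23) (.e (nat_lit 532529) (nat_lit 9) (.e (nat_lit 336247) (nat_lit 15) (.e (nat_lit 3627) (nat_lit 227) (.e (nat_lit 778318) (nat_lit 3) .nil)))))))) (.g (nat_lit 1) (.e (nat_lit 254367) (nat_lit 0) .nil) .nil))))) 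
(.nd (nat_lit 8) (.nd (nat_lit 9) 
(.lf (nat_lit 533659) (.g (nat_lit 1743) (.e (nat_lit 57411) (nat_lit 12) (.e (nat_lit 336208) (nat_lit 12) (.e (nat_lit 385103) (nat_lit 50) (.e (nat_lit 786483) (nat_lit 30) (.e (nat_lit 360450) (nat_lit 0) (.e (nat_lit 7936) (nat_lit 322) .nil)))))) (.g (nat_lit 1) (.e (nat_lit 253215) (nat_lit 0) .nil) .nil))) 
(.lf (nat_lit 534171) (.g (nat_lit 2377) (.e (nat_lit 57465) (nat_lit 23) (.e (nat_lit 516115) (nat_lit 1) (.e (nat_lit 164399) (nat_lit 256) (.e (nat_lit 57378) (nat_lit 3) (.e (nat_lit 98366) (nat_lit 27) .nil))))) (.g (nat_lit 0) (.e (nat_lit 254087) (nat_lit 0) .nil) .nil)))) (.nd (nat_lit 9) 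
(.lf (nat_lit 533915) (.g (nat_lit 6354) (.e (nat_lit 57431) (nat_lit 16) (.e (nat_lit 368676) (nat_lit 21) (.e (nat_lit 516166) (nat_lit 12) (.e (nat_lit 450588) (nat_lit 10) (.e (nat_lit 573475) (nat_lit 12) (.e (nat_lit 57347) (nat_lit 0) (.e (nat_lit 7261) (nat_lit 384) .nil))))))) (.g (nat_lit 1) (.e (nat_lit 253587) (nat_lit 0) .nil) .nil))) 
(.lf (nat_lit 534427) (.g (nat_lit 2166) (.e (nat_lit 57478) (nat_lit 28) (.e (nat_lit 557109) (nat_lit 15) (.e (nat_lit 188449) (nat_lit 22) (.e (nat_lit 196666) (nat_lit 13) (.e (nat_lit 65639) (nat_lit 15) .nil))))) (.g (nat_lit 0) (.e (nat_lit 254595) (nat_lit 0) .nil) .nil)))))) (.nd (nat_lit 7) (.nd (nat_lit 8) (.nd (nat_lit 9) 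
(.lf (nat_lit 533595) (.g (nat_lit 2564) (.e (nat_lit 57409) (nat_lit 12) (.e (nat_lit 336326) (nat_lit 18) (.e (nat_lit 204869) (nat_lit 29) (.e (nat_lit 360456) (nat_lit 0) (.e (nat_lit 7936) (nat_lit 412) .nil))))) (.g (nat_lit 0) (.e (nat_lit 253098) (nat_lit 0) .nil) .nil))) 
(.lf (nat_lit 534107) (.g (nat_lit 2901) (.e (nat_lit 57464) (nat_lit 23) (.e (nat_lit 516165) (nat_lit 12) (.e (nat_lit 450588) (nat_lit 10) (.e (nat_lit 573457) (nat_lit 9) (.e (nat_lit 430) (nat_lit 32) .nil))))) (.g (nat_lit 0) (.e (nat_lit 254013) (nat_lit 0) .nil) .nil)))) (.nd (nat_lit 9) 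
(.lf (nat_lit 533851) (.g (nat_lit 2742) (.e (nat_lit 57423) (nat_lit 14) (.e (nat_lit 352261) (nat_lit 0) (.e (nat_lit 3302) (nat_lit 202) (.e (nat_lit 573492) (nat_lit 15) (.e (nat_lit 81959) (nat_lit 24) (.e (nat_lit 130816) (nat_lit 142) .nil)))))) (.g (nat_lit 1) (.e (nat_lit 253502) (nat_lit 0) .nil) .nil))) 
(.lf (nat_lit 534363) (.g (nat_lit 2631) (.e (nat_lit 57476) (nat_lit 28) (.e (nat_lit 557108) (nat_lit 15) (.e (nat_lit 188452) (nat_lit 23) (.e (nat_lit 204855) (nat_lit 26) (.e (nat_lit 336290) (nat_lit 15) (.e (nat_lit 3714) (nat_lit 227) (.e (nat_lit 786176) (nat_lit 3) .nil))))))) (.g (nat_lit 1) (.e (nat_lit 254431) (nat_lit 0) .nil) .nil))))) (.nd (nat_lit 8) (.nd (nat_lit 9) 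
(.lf (nat_lit 533723) (.g (nat_lit 4182) (.e (nat_lit 57412) (nat_lit 12) (.e (nat_lit 336001) (nat_lit 2) (.e (nat_lit 90170) (nat_lit 13) (.e (nat_lit 172113) (nat_lit 10) (.e (nat_lit 434248) (nat_lit 28) (.e (nat_lit 573475) (nat_lit 12) (.e (nat_lit 57351) (nat_lit 0) (.e (nat_lit 7261) (nat_lit 384) .nil)))))))) (.g (nat_lit 1) (.e (nat_lit 253313) (nat_lit 0) .nil) .nil))) 
(.lf (nat_lit 534235) (.g (nat_lit 2347) (.e (nat_lit 57467) (nat_lit 23) (.e (nat_lit 516115) (nat_lit 1) (.e (nat_lit 164399) (nat_lit 256) (.e (nat_lit 57378) (nat_lit 3) (.e (nat_lit 98366) (nat_lit 27) .nil))))) (.g (nat_lit 0) (.e (nat_lit 254164) (nat_lit 0) .nil) .nil)))) (.nd (nat_lit 9) 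
(.lf (nat_lit 533979) (.g (nat_lit 1189) (.e (nat_lit 57451) (nat_lit 20) (.e (nat_lit 401451) (nat_lit 12) (.e (nat_lit 475207) (nat_lit 41) .nil))) (.g (nat_lit 0) (.e (nat_lit 253722) (nat_lit 0) .nil) .nil))) 
(.lf (nat_lit 534491) (.g (nat_lit 2887) (.e (nat_lit 57479) (nat_lit 28) (.e (nat_lit 557105) (nat_lit 14) (.e (nat_lit 180251) (nat_lit 10) (.e (nat_lit 573485) (nat_lit 13) (.e (nat_lit 65571) (nat_lit 3) (.e (nat_lit 98321) (nat_lit 17) (.e (nat_lit 7936) (nat_lit 216) (.e (nat_lit 688166) (nat_lit 15) .nil)))))))) (.g (nat_lit 1) (.e (nat_lit 254705) (nat_lit 0) .nil) .nil))))))) 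
(.nd (nat_lit 6) (.nd (nat_lit 7) (.nd (nat_lit 8) (.nd (nat_lit 9) 
(.lf (nat_lit 533563) (.g (nat_lit 2017) (.e (nat_lit 57408) (nat_lit 12) (.e (nat_lit 336454) (nat_lit 34) (.e (nat_lit 483402) (nat_lit 26) (.e (nat_lit 385068) (nat_lit 26) (.e (nat_lit 532503) (nat_lit 1) .nil))))) (.g (nat_lit 0) (.e (nat_lit 253049) (nat_lit 0) .nil) .nil))) 
(.lf (nat_lit 534075) (.g (nat_lit 2367) (.e (nat_lit 57464) (nat_lit 23) (.e (nat_lit 516164) (nat_lit 11) (.e (nat_lit 442427) (nat_lit 23) (.e (nat_lit 204846) (nat_lit 24) (.e (nat_lit 319504) (nat_lit 10) .nil))))) (.g (nat_lit 0) (.e (nat_lit 253980) (nat_lit 0) .nil) .nil)))) (.nd (nat_lit 9) 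
(.lf (nat_lit 533819) (.g (nat_lit 3320) (.e (nat_lit 57419) (nat_lit 12) (.e (nat_lit 336011) (nat_lit 2) (.e (nat_lit 90170) (nat_lit 13) (.e (nat_lit 172113) (nat_lit 10) (.e (nat_lit 434248) (nat_lit 28) .nil))))) (.g (nat_lit 0) (.e (nat_lit 253438) (nat_lit 0) .nil) .nil))) 
(.lf (nat_lit 534331) (.g (nat_lit 2079) (.e (nat_lit 57476) (nat_lit 28) (.e (nat_lit 557107) (nat_lit 15) (.e (nat_lit 188450) (nat_lit 23) (.e (nat_lit 204855) (nat_lit 26) (.e (nat_lit 336290) (nat_lit 15) (.e (nat_lit 3714) (nat_lit 227) (.e (nat_lit 778316) (nat_lit 3) .nil))))))) (.g (nat_lit 1) (.e (nat_lit 254399) (nat_lit 0) .nil) .nil))))) (.nd (nat_lit 8) (.nd (nat_lit 9) 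
(.lf (nat_lit 533691) (.g (nat_lit 2375) (.e (nat_lit 57411) (nat_lit 12) (.e (nat_lit 336456) (nat_lit 34) (.e (nat_lit 483395) (nat_lit 24) (.e (nat_lit 344117) (nat_lit 21) (.e (nat_lit 516099) (nat_lit 0) .nil))))) (.g (nat_lit 0) (.e (nat_lit 253281) (nat_lit 0) .nil) .nil))) 
(.lf (nat_lit 534203) (.g (nat_lit 1942) (.e (nat_lit 57466) (nat_lit 23) (.e (nat_lit 516115) (nat_lit 1) (.e (nat_lit 164399) (nat_lit 256) (.e (nat_lit 57375) (nat_lit 2) (.e (nat_lit 90174) (nat_lit 14) .nil))))) (.g (nat_lit 0) (.e (nat_lit 254121) (nat_lit 0) .nil) .nil)))) (.nd (nat_lit 9) 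
(.lf (nat_lit 533947) (.g (nat_lit 1310) (.e (nat_lit 65280) (nat_lit 18) (.e (nat_lit 385068) (nat_lit 26) (.e (nat_lit 532534) (nat_lit 9) (.e (nat_lit 336211) (nat_lit 13) .nil)))) (.g (nat_lit 0) (.e (nat_lit 253665) (nat_lit 0) .nil) .nil))) 
(.lf (nat_lit 534459) (.g (nat_lit 2679) (.e (nat_lit 57479) (nat_lit 28) (.e (nat_lit 557100) (nat_lit 13) (.e (nat_lit 172106) (nat_lit 10) (.e (nat_lit 434231) (nat_lit 23) (.e (nat_lit 532535) (nat_lit 9) (.e (nat_lit 336295) (nat_lit 15) (.e (nat_lit 3629) (nat_lit 227) (.e (nat_lit 786176) (nat_lit 3) .nil)))))))) (.g (nat_lit 1) (.e (nat_lit 254673) (nat_lit 0) .nil) .nil)))))) 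
(.nd (nat_lit 7) (.nd (nat_lit 8) (.nd (nat_lit 9) 
(.lf (nat_lit 533627) (.g (nat_lit 3569) (.e (nat_lit 57409) (nat_lit 12) (.e (nat_lit 336455) (nat_lit 34) (.e (nat_lit 483380) (nat_lit 23) (.e (nat_lit 336324) (nat_lit 18) (.e (nat_lit 204831) (nat_lit 18) (.e (nat_lit 57852) (nat_lit 252) .nil)))))) (.g (nat_lit 1) (.e (nat_lit 253132) (nat_lit 0) .nil) .nil))) 
(.lf (nat_lit 534139) (.g (nat_lit 2484) (.e (nat_lit 57464) (nat_lit 23) (.e (nat_lit 516166) (nat_lit 12) (.e (nat_lit 450588) (nat_lit 10) (.e (nat_lit 573452) (nat_lit 9) (.e (nat_lit 7936) (nat_lit 36) (.e (nat_lit 466688) (nat_lit 3) .nil)))))) (.g (nat_lit 1) (.e (nat_lit 254051) (nat_lit 0) .nil) .nil)))) (.nd (nat_lit 9) 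
(.lf (nat_lit 533883) (.g (nat_lit 4434) (.e (nat_lit 57430) (nat_lit 16) (.e (nat_lit 368676) (nat_lit 21) (.e (nat_lit 516166) (nat_lit 12) (.e (nat_lit 450587) (nat_lit 10) (.e (nat_lit 573477) (nat_lit 12) (.e (nat_lit 57351) (nat_lit 0) (.e (nat_lit 7266) (nat_lit 384) .nil))))))) (.g (nat_lit 1) (.e (nat_lit 253553) (nat_lit 0) .nil) .nil))) 
(.lf (nat_lit 534395) (.g (nat_lit 2614) (.e (nat_lit 57477) (nat_lit 28) (.e (nat_lit 557108) (nat_lit 15) (.e (nat_lit 188452) (nat_lit 23) (.e (nat_lit 204855) (nat_lit 26) (.e (nat_lit 336290) (nat_lit 15) (.e (nat_lit 3714) (nat_lit 227) (.e (nat_lit 786176) (nat_lit 3) .nil))))))) (.g (nat_lit 1) (.e (nat_lit 254509) (nat_lit 0) .nil) .nil))))) (.nd (nat_lit 8) (.nd (nat_lit 9) 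
(.lf (nat_lit 533755) (.g (nat_lit 3166) (.e (nat_lit 57412) (nat_lit 12) (.e (nat_lit 336022) (nat_lit 3) (.e (nat_lit 98373) (nat_lit 29) (.e (nat_lit 450587) (nat_lit 10) (.e (nat_lit 573477) (nat_lit 12) (.e (nat_lit 57353) (nat_lit 0) (.e (nat_lit 7265) (nat_lit 384) .nil))))))) (.g (nat_lit 1) (.e (nat_lit 253345) (nat_lit 0) .nil) .nil))) 
(.lf (nat_lit 534267) (.g (nat_lit 4439) (.e (nat_lit 57475) (nat_lit 28) (.e (nat_lit 557109) (nat_lit 15) (.e (nat_lit 188452) (nat_lit 23) (.e (nat_lit 204880) (nat_lit 32) .nil)))) (.g (nat_lit 0) (.e (nat_lit 254217) (nat_lit 0) .nil) .nil)))) (.nd (nat_lit 9) 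
(.lf (nat_lit 534011) (.g (nat_lit 1377) (.e (nat_lit 57464) (nat_lit 23) (.e (nat_lit 516139) (nat_lit 7) (.e (nat_lit 409644) (nat_lit 18) (.e (nat_lit 303119) (nat_lit 3) .nil)))) (.g (nat_lit 0) (.e (nat_lit 253900) (nat_lit 0) .nil) .nil))) 
(.lf (nat_lit 534523) (.g (nat_lit 2581) (.e (nat_lit 57479) (nat_lit 28) (.e (nat_lit 557105) (nat_lit 14) (.e (nat_lit 180252) (nat_lit 10) (.e (nat_lit 573489) (nat_lit 14) (.e (nat_lit 73746) (nat_lit 3) (.e (nat_lit 516100) (nat_lit 0) (.e (nat_lit 7936) (nat_lit 216) (.e (nat_lit 688166) (nat_lit 15) .nil)))))))) (.g (nat_lit 1) (.e (nat_lit 254737) (nat_lit 0) .nil) .nil)))))))))) 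
(.nd (nat_lit 3) (.nd (nat_lit 4) (.nd (nat_lit 5) (.nd (nat_lit 6) (.nd (nat_lit 7) 
(.nd (nat_lit 8) (.nd (nat_lit 9) 
(.lf (nat_lit 533511) (.g (nat_lit 4945) (.e (nat_lit 57407) (nat_lit 12) (.e (nat_lit 336019) (nat_lit 3) (.e (nat_lit 98373) (nat_lit 29) (.e (nat_lit 450587) (nat_lit 10) (.e (nat_lit 573477) (nat_lit 12) (.e (nat_lit 57352) (nat_lit 0) (.e (nat_lit 7261) (nat_lit 384) .nil))))))) (.g (nat_lit 1) (.e (nat_lit 252979) (nat_lit 0) .nil) .nil))) 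
(.lf (nat_lit 534023) (.g (nat_lit 3067) (.e (nat_lit 57464) (nat_lit 23) (.e (nat_lit 516139) (nat_lit 7) (.e (nat_lit 409648) (nat_lit 18) (.e (nat_lit 303117) (nat_lit 2) (.e (nat_lit 196670) (nat_lit 14) .nil))))) (.g (nat_lit 0) (.e (nat_lit 253912) (nat_lit 0) .nil) .nil)))) (.nd (nat_lit 9) 
(.lf (nat_lit 533767) (.g (nat_lit 4383) (.e (nat_lit 57412) (nat_lit 12) (.e (nat_lit 336023) (nat_lit 3) (.e (nat_lit 98373) (nat_lit 29) (.e (nat_lit 450588) (nat_lit 10) (.e (nat_lit 573473) (nat_lit 12) (.e (nat_lit 57352) (nat_lit 0) (.e (nat_lit 7261) (nat_lit 384) .nil))))))) (.g (nat_lit 1) (.e (nat_lit 253357) (nat_lit 0) .nil) .nil))) 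
(.lf (nat_lit 534279) (.g (nat_lit 5912) (.e (nat_lit 57476) (nat_lit 28) (.e (nat_lit 557095) (nat_lit 13) (.e (nat_lit 172106) (nat_lit 10) (.e (nat_lit 434231) (nat_lit 23) (.e (nat_lit 532535) (nat_lit 9) (.e (nat_lit 336295) (nat_lit 15) (.e (nat_lit 3632) (nat_lit 227) (.e (nat_lit 778317) (nat_lit 3) .nil)))))))) (.g (nat_lit 1) (.e (nat_lit 254347) (nat_lit 0) .nil) .nil))))) 
(.nd (nat_lit 8) (.nd (nat_lit 9) 
(.lf (nat_lit 533639) (.g (nat_lit 3864) (.e (nat_lit 57410) (nat_lit 12) (.e (nat_lit 336398) (nat_lit 27) (.e (nat_lit 426290) (nat_lit 10) (.e (nat_lit 434231) (nat_lit 23) (.e (nat_lit 532579) (nat_lit 26) (.e (nat_lit 426100) (nat_lit 1) (.e (nat_lit 164399) (nat_lit 256) .nil))))))) (.g (nat_lit 1) (.e (nat_lit 253152) (nat_lit 0) .nil) .nil))) 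
(.lf (nat_lit 534151) (.g (nat_lit 3037) (.e (nat_lit 57464) (nat_lit 23) (.e (nat_lit 516166) (nat_lit 12) (.e (nat_lit 450588) (nat_lit 10) (.e (nat_lit 573470) (nat_lit 11) (.e (nat_lit 16387) (nat_lit 0) (.e (nat_lit 7583) (nat_lit 405) .nil)))))) (.g (nat_lit 1) (.e (nat_lit 254063) (nat_lit 0) .nil) .nil)))) (.nd (nat_lit 9) 
(.lf (nat_lit 533895) (.g (nat_lit 1256) (.e (nat_lit 57431) (nat_lit 16) (.e (nat_lit 368674) (nat_lit 21) (.e (nat_lit 516166) (nat_lit 12) (.e (nat_lit 450587) (nat_lit 10) .nil)))) (.g (nat_lit 0) (.e (nat_lit 253567) (nat_lit 0) .nil) .nil))) 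
(.lf (nat_lit 534407) (.g (nat_lit 3562) (.e (nat_lit 57478) (nat_lit 28) (.e (nat_lit 557100) (nat_lit 13) (.e (nat_lit 172106) (nat_lit 10) (.e (nat_lit 434231) (nat_lit 23) (.e (nat_lit 532535) (nat_lit 9) (.e (nat_lit 336295) (nat_lit 15) (.e (nat_lit 3629) (nat_lit 227) (.e (nat_lit 778317) (nat_lit 3) .nil)))))))) (.g (nat_lit 1) (.e (nat_lit 254559) (nat_lit 0) .nil) .nil)))))) 
(.nd (nat_lit 7) (.nd (nat_lit 8) (.nd (nat_lit 9) 
(.lf (nat_lit 533575) (.g (nat_lit 5169) (.e (nat_lit 57409) (nat_lit 12) (.e (nat_lit 336019) (nat_lit 3) (.e (nat_lit 98373) (nat_lit 29) (.e (nat_lit 450588) (nat_lit 10) (.e (nat_lit 573475) (nat_lit 12) (.e (nat_lit 57347) (nat_lit 0) (.e (nat_lit 7265) (nat_lit 384) .nil))))))) (.g (nat_lit 1) (.e (nat_lit 253061) (nat_lit 0) .nil) .nil))) 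
(.lf (nat_lit 534087) (.g (nat_lit 1725) (.e (nat_lit 57464) (nat_lit 23) (.e (nat_lit 516165) (nat_lit 12) (.e (nat_lit 450586) (nat_lit 10) (.e (nat_lit 573452) (nat_lit 9) (.e (nat_lit 7936) (nat_lit 33) (.e (nat_lit 442112) (nat_lit 3) .nil)))))) (.g (nat_lit 1) (.e (nat_lit 253993) (nat_lit 0) .nil) .nil)))) (.nd (nat_lit 9) 
(.lf (nat_lit 533831) (.g (nat_lit 2956) (.e (nat_lit 57419) (nat_lit 12) (.e (nat_lit 336194) (nat_lit 12) (.e (nat_lit 385105) (nat_lit 50) (.e (nat_lit 786481) (nat_lit 30) (.e (nat_lit 360456) (nat_lit 0) (.e (nat_lit 5949) (nat_lit 322) .nil)))))) (.g (nat_lit 1) (.e (nat_lit 253455) (nat_lit 0) .nil) .nil))) 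
(.lf (nat_lit 534343) (.g (nat_lit 4099) (.e (nat_lit 57476) (nat_lit 28) (.e (nat_lit 557108) (nat_lit 15) (.e (nat_lit 188452) (nat_lit 23) (.e (nat_lit 204852) (nat_lit 26) (.e (nat_lit 336238) (nat_lit 15) (.e (nat_lit 3627) (nat_lit 227) (.e (nat_lit 778318) (nat_lit 3) .nil))))))) (.g (nat_lit 1) (.e (nat_lit 254411) (nat_lit 0) .nil) .nil))))) (.nd (nat_lit 8) (.nd (nat_lit 9) 
(.lf (nat_lit 533703) (.g (nat_lit 3565) (.e (nat_lit 57412) (nat_lit 12) (.e (nat_lit 336001) (nat_lit 2) (.e (nat_lit 90170) (nat_lit 13) (.e (nat_lit 172106) (nat_lit 10) (.e (nat_lit 434244) (nat_lit 28) (.e (nat_lit 573474) (nat_lit 12) (.e (nat_lit 57353) (nat_lit 0) (.e (nat_lit 7261) (nat_lit 384) .nil)))))))) (.g (nat_lit 1) (.e (nat_lit 253293) (nat_lit 0) .nil) .nil))) 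
(.lf (nat_lit 534215) (.g (nat_lit 2387) (.e (nat_lit 57466) (nat_lit 23) (.e (nat_lit 516119) (nat_lit 1) (.e (nat_lit 164403) (nat_lit 256) (.e (nat_lit 57378) (nat_lit 3) (.e (nat_lit 98367) (nat_lit 27) .nil))))) (.g (nat_lit 0) (.e (nat_lit 254133) (nat_lit 0) .nil) .nil)))) (.nd (nat_lit 9) 
(.lf (nat_lit 533959) (.g (nat_lit 2431) (.e (nat_lit 57448) (nat_lit 19) (.e (nat_lit 393281) (nat_lit 23) (.e (nat_lit 426133) (nat_lit 3) (.e (nat_lit 204813) (nat_lit 9) (.e (nat_lit 426099) (nat_lit 1) .nil))))) (.g (nat_lit 0) (.e (nat_lit 253681) (nat_lit 0) .nil) .nil))) 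
(.lf (nat_lit 534471) (.g (nat_lit 2948) (.e (nat_lit 57479) (nat_lit 28) (.e (nat_lit 557101) (nat_lit 13) (.e (nat_lit 172097) (nat_lit 9) (.e (nat_lit 426140) (nat_lit 3) (.e (nat_lit 204855) (nat_lit 26) (.e (nat_lit 336290) (nat_lit 15) (.e (nat_lit 3711) (nat_lit 227) (.e (nat_lit 786176) (nat_lit 3) .nil)))))))) (.g (nat_lit 1) (.e (nat_lit 254685) (nat_lit 0) .nil) .nil))))))) 
(.nd (nat_lit 6) (.nd (nat_lit 7) (.nd (nat_lit 8) (.nd (nat_lit 9) 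
(.lf (nat_lit 533543) (.g (nat_lit 2035) (.e (nat_lit 57407) (nat_lit 12) (.e (nat_lit 336456) (nat_lit 34) (.e (nat_lit 483383) (nat_lit 23) (.e (nat_lit 336263) (nat_lit 15) .nil)))) (.g (nat_lit 0) (.e (nat_lit 253028) (nat_lit 0) .nil) .nil))) 
(.lf (nat_lit 534055) (.g (nat_lit 3286) (.e (nat_lit 57464) (nat_lit 23) (.e (nat_lit 516151) (nat_lit 9) (.e (nat_lit 426286) (nat_lit 10) (.e (nat_lit 434248) (nat_lit 28) (.e (nat_lit 573450) (nat_lit 9) (.e (nat_lit 473) (nat_lit 36) (.e (nat_lit 466688) (nat_lit 3) .nil))))))) (.g (nat_lit 1) (.e (nat_lit 253948) (nat_lit 0) .nil) .nil)))) (.nd (nat_lit 9) 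
(.lf (nat_lit 533799) (.g (nat_lit 3259) (.e (nat_lit 57412) (nat_lit 12) (.e (nat_lit 336226) (nat_lit 14) (.e (nat_lit 401437) (nat_lit 9) (.e (nat_lit 426546) (nat_lit 30) (.e (nat_lit 360456) (nat_lit 0) (.e (nat_lit 5934) (nat_lit 322) .nil)))))) (.g (nat_lit 1) (.e (nat_lit 253404) (nat_lit 0) .nil) .nil))) 
(.lf (nat_lit 534311) (.g (nat_lit 2333) (.e (nat_lit 57476) (nat_lit 28) (.e (nat_lit 557104) (nat_lit 14) (.e (nat_lit 180252) (nat_lit 10) (.e (nat_lit 573487) (nat_lit 14) (.e (nat_lit 73753) (nat_lit 8) .nil))))) (.g (nat_lit 0) (.e (nat_lit 254379) (nat_lit 0) .nil) .nil))))) (.nd (nat_lit 8) (.nd (nat_lit 9) 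
(.lf (nat_lit 533671) (.g (nat_lit 3068) (.e (nat_lit 57411) (nat_lit 12) (.e (nat_lit 336367) (nat_lit 27) (.e (nat_lit 426542) (nat_lit 29) (.e (nat_lit 352315) (nat_lit 23) (.e (nat_lit 98325) (nat_lit 17) (.e (nat_lit 2478) (nat_lit 157) (.e (nat_lit 6400) (nat_lit 339) .nil))))))) (.g (nat_lit 1) (.e (nat_lit 253244) (nat_lit 0) .nil) .nil))) 
(.lf (nat_lit 534183) (.g (nat_lit 2566) (.e (nat_lit 57465) (nat_lit 23) (.e (nat_lit 516129) (nat_lit 3) (.e (nat_lit 221210) (nat_lit 22) (.e (nat_lit 196666) (nat_lit 13) (.e (nat_lit 65569) (nat_lit 3) (.e (nat_lit 98325) (nat_lit 17) (.e (nat_lit 3452) (nat_lit 216) (.e (nat_lit 688171) (nat_lit 15) .nil)))))))) (.g (nat_lit 1) (.e (nat_lit 254100) (nat_lit 0) .nil) .nil)))) 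
(.nd (nat_lit 9) 
(.lf (nat_lit 533927) (.g (nat_lit 1527) (.e (nat_lit 57437) (nat_lit 17) (.e (nat_lit 376835) (nat_lit 0) (.e (nat_lit 3746) (nat_lit 228) (.e (nat_lit 786481) (nat_lit 30) (.e (nat_lit 368384) (nat_lit 0) (.e (nat_lit 5936) (nat_lit 322) .nil)))))) (.g (nat_lit 1) (.e (nat_lit 253625) (nat_lit 0) .nil) .nil))) 
(.lf (nat_lit 534439) (.g (nat_lit 2555) (.e (nat_lit 57479) (nat_lit 28) (.e (nat_lit 557100) (nat_lit 13) (.e (nat_lit 172106) (nat_lit 10) (.e (nat_lit 434231) (nat_lit 23) (.e (nat_lit 532529) (nat_lit 9) (.e (nat_lit 336242) (nat_lit 15) (.e (nat_lit 3682) (nat_lit 227) (.e (nat_lit 786176) (nat_lit 3) .nil)))))))) (.g (nat_lit 1) (.e (nat_lit 254653) (nat_lit 0) .nil) .nil)))))) 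
(.nd (nat_lit 7) (.nd (nat_lit 8) (.nd (nat_lit 9) 
(.lf (nat_lit 533607) (.g (nat_lit 1998) (.e (nat_lit 57409) (nat_lit 12) (.e (nat_lit 336443) (nat_lit 32) (.e (nat_lit 466977) (nat_lit 22) (.e (nat_lit 196655) (nat_lit 11) (.e (nat_lit 16388) (nat_lit 0) .nil))))) (.g (nat_lit 0) (.e (nat_lit 253111) (nat_lit 0) .nil) .nil))) 
(.lf (nat_lit 534119) (.g (nat_lit 2238) (.e (nat_lit 57464) (nat_lit 23) (.e (nat_lit 516166) (nat_lit 12) (.e (nat_lit 450587) (nat_lit 10) (.e (nat_lit 573454) (nat_lit 9) (.e (nat_lit 7936) (nat_lit 36) (.e (nat_lit 466688) (nat_lit 3) .nil)))))) (.g (nat_lit 1) (.e (nat_lit 254031) (nat_lit 0) .nil) .nil)))) (.nd (nat_lit 9) 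
(.lf (nat_lit 533863) (.g (nat_lit 3227) (.e (nat_lit 57427) (nat_lit 15) (.e (nat_lit 360474) (nat_lit 8) (.e (nat_lit 557091) (nat_lit 12) (.e (nat_lit 164003) (nat_lit 40) (.e (nat_lit 655360) (nat_lit 0) (.e (nat_lit 2709) (nat_lit 170) (.e (nat_lit 221208) (nat_lit 21) (.e (nat_lit 164402) (nat_lit 256) .nil)))))))) (.g (nat_lit 1) (.e (nat_lit 253525) (nat_lit 0) .nil) .nil))) 
(.lf (nat_lit 534375) (.g (nat_lit 1827) (.e (nat_lit 57477) (nat_lit 28) (.e (nat_lit 557095) (nat_lit 13) (.e (nat_lit 172115) (nat_lit 10) (.e (nat_lit 434231) (nat_lit 23) (.e (nat_lit 532563) (nat_lit 15) .nil))))) (.g (nat_lit 0) (.e (nat_lit 254489) (nat_lit 0) .nil) .nil))))) (.nd (nat_lit 8) (.nd (nat_lit 9) 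
(.lf (nat_lit 533735) (.g (nat_lit 2464) (.e (nat_lit 57412) (nat_lit 12) (.e (nat_lit 336008) (nat_lit 2) (.e (nat_lit 90170) (nat_lit 13) (.e (nat_lit 172106) (nat_lit 10) (.e (nat_lit 434244) (nat_lit 28) (.e (nat_lit 573474) (nat_lit 12) (.e (nat_lit 57347) (nat_lit 0) (.e (nat_lit 7261) (nat_lit 384) .nil)))))))) (.g (nat_lit 1) (.e (nat_lit 253325) (nat_lit 0) .nil) .nil))) 
(.lf (nat_lit 534247) (.g (nat_lit 2529) (.e (nat_lit 57474) (nat_lit 28) (.e (nat_lit 557097) (nat_lit 13) (.e (nat_lit 172115) (nat_lit 10) (.e (nat_lit 434231) (nat_lit 23) (.e (nat_lit 532544) (nat_lit 10) .nil))))) (.g (nat_lit 0) (.e (nat_lit 254195) (nat_lit 0) .nil) .nil)))) (.nd (nat_lit 9) 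
(.lf (nat_lit 533991) (.g (nat_lit 557) (.e (nat_lit 57464) (nat_lit 23) (.e (nat_lit 516106) (nat_lit 0) (.e (nat_lit 7936) (nat_lit 393) .nil))) (.g (nat_lit 0) (.e (nat_lit 253849) (nat_lit 0) .nil) .nil))) 
(.lf (nat_lit 534503) (.g (nat_lit 3547) (.e (nat_lit 57479) (nat_lit 28) (.e (nat_lit 557105) (nat_lit 14) (.e (nat_lit 180252) (nat_lit 10) (.e (nat_lit 573482) (nat_lit 13) (.e (nat_lit 65570) (nat_lit 3) (.e (nat_lit 98321) (nat_lit 17) (.e (nat_lit 7936) (nat_lit 216) (.e (nat_lit 688165) (nat_lit 15) .nil)))))))) (.g (nat_lit 1) (.e (nat_lit 254717) (nat_lit 0) .nil) .nil)))))))) 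
(.nd (nat_lit 5) (.nd (nat_lit 6) (.nd (nat_lit 7) (.nd (nat_lit 8) (.nd (nat_lit 9) 
(.lf (nat_lit 533527) (.g (nat_lit 1439) (.e (nat_lit 57407) (nat_lit 12) (.e (nat_lit 336367) (nat_lit 27) (.e (nat_lit 426546) (nat_lit 30) (.e (nat_lit 360475) (nat_lit 8) (.e (nat_lit 557091) (nat_lit 12) .nil))))) (.g (nat_lit 0) (.e (nat_lit 253011) (nat_lit 0) .nil) .nil))) 
(.lf (nat_lit 534039) (.g (nat_lit 2541) (.e (nat_lit 57464) (nat_lit 23) (.e (nat_lit 516151) (nat_lit 9) (.e (nat_lit 426286) (nat_lit 10) (.e (nat_lit 434245) (nat_lit 28) (.e (nat_lit 573448) (nat_lit 9) (.e (nat_lit 473) (nat_lit 36) (.e (nat_lit 466688) (nat_lit 3) .nil))))))) (.g (nat_lit 1) (.e (nat_lit 253932) (nat_lit 0) .nil) .nil)))) (.nd (nat_lit 9) 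
(.lf (nat_lit 533783) (.g (nat_lit 1424) (.e (nat_lit 57412) (nat_lit 12) (.e (nat_lit 336176) (nat_lit 10) (.e (nat_lit 344157) (nat_lit 36) (.e (nat_lit 638985) (nat_lit 5) (.e (nat_lit 3022) (nat_lit 187) (.e (nat_lit 458496) (nat_lit 0) (.e (nat_lit 5202) (nat_lit 294) .nil))))))) (.g (nat_lit 1) (.e (nat_lit 253374) (nat_lit 0) .nil) .nil))) 
(.lf (nat_lit 534295) (.g (nat_lit 2988) (.e (nat_lit 57476) (nat_lit 28) (.e (nat_lit 557097) (nat_lit 13) (.e (nat_lit 172115) (nat_lit 10) (.e (nat_lit 434231) (nat_lit 23) (.e (nat_lit 532528) (nat_lit 9) (.e (nat_lit 336269) (nat_lit 15) (.e (nat_lit 3629) (nat_lit 227) (.e (nat_lit 778318) (nat_lit 3) .nil)))))))) (.g (nat_lit 1) (.e (nat_lit 254363) (nat_lit 0) .nil) .nil))))) 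
(.nd (nat_lit 8) (.nd (nat_lit 9) 
(.lf (nat_lit 533655) (.g (nat_lit 5578) (.e (nat_lit 57411) (nat_lit 12) (.e (nat_lit 336019) (nat_lit 3) (.e (nat_lit 98373) (nat_lit 29) (.e (nat_lit 450588) (nat_lit 10) (.e (nat_lit 573475) (nat_lit 12) (.e (nat_lit 57351) (nat_lit 0) (.e (nat_lit 7261) (nat_lit 384) .nil))))))) (.g (nat_lit 1) (.e (nat_lit 253206) (nat_lit 0) .nil) .nil))) 
(.lf (nat_lit 534167) (.g (nat_lit 2232) (.e (nat_lit 57465) (nat_lit 23) (.e (nat_lit 516115) (nat_lit 1) (.e (nat_lit 164398) (nat_lit 256) (.e (nat_lit 57375) (nat_lit 2) (.e (nat_lit 90174) (nat_lit 14) .nil))))) (.g (nat_lit 0) (.e (nat_lit 254082) (nat_lit 0) .nil) .nil)))) (.nd (nat_lit 9) 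
(.lf (nat_lit 533911) (.g (nat_lit 4574) (.e (nat_lit 57431) (nat_lit 16) (.e (nat_lit 368676) (nat_lit 21) (.e (nat_lit 516166) (nat_lit 12) (.e (nat_lit 450587) (nat_lit 10) (.e (nat_lit 573478) (nat_lit 12) (.e (nat_lit 57353) (nat_lit 0) (.e (nat_lit 7266) (nat_lit 384) .nil))))))) (.g (nat_lit 1) (.e (nat_lit 253583) (nat_lit 0) .nil) .nil))) 
(.lf (nat_lit 534423) (.g (nat_lit 3418) (.e (nat_lit 57478) (nat_lit 28) (.e (nat_lit 557108) (nat_lit 15) (.e (nat_lit 188452) (nat_lit 23) (.e (nat_lit 204880) (nat_lit 32) (.e (nat_lit 392960) (nat_lit 49) .nil))))) (.g (nat_lit 0) (.e (nat_lit 254591) (nat_lit 0) .nil) .nil)))))) (.nd (nat_lit 7) (.nd (nat_lit 8) (.nd (nat_lit 9) 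
(.lf (nat_lit 533591) (.g (nat_lit 3598) (.e (nat_lit 57409) (nat_lit 12) (.e (nat_lit 336326) (nat_lit 18) (.e (nat_lit 204869) (nat_lit 29) (.e (nat_lit 360450) (nat_lit 0) (.e (nat_lit 7695) (nat_lit 412) (.e (nat_lit 57364) (nat_lit 1) (.e (nat_lit 57854) (nat_lit 252) .nil))))))) (.g (nat_lit 1) (.e (nat_lit 253094) (nat_lit 0) .nil) .nil))) 
(.lf (nat_lit 534103) (.g (nat_lit 3070) (.e (nat_lit 57464) (nat_lit 23) (.e (nat_lit 516165) (nat_lit 12) (.e (nat_lit 450588) (nat_lit 10) (.e (nat_lit 573452) (nat_lit 9) (.e (nat_lit 430) (nat_lit 32) (.e (nat_lit 426009) (nat_lit 0) (.e (nat_lit 7581) (nat_lit 405) .nil))))))) (.g (nat_lit 1) (.e (nat_lit 254009) (nat_lit 0) .nil) .nil)))) (.nd (nat_lit 9) 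
(.lf (nat_lit 533847) (.g (nat_lit 2566) (.e (nat_lit 57421) (nat_lit 13) (.e (nat_lit 344068) (nat_lit 0) (.e (nat_lit 2856) (nat_lit 184) (.e (nat_lit 426542) (nat_lit 29) (.e (nat_lit 352316) (nat_lit 24) (.e (nat_lit 123197) (nat_lit 266) .nil)))))) (.g (nat_lit 1) (.e (nat_lit 253488) (nat_lit 0) .nil) .nil))) 
(.lf (nat_lit 534359) (.g (nat_lit 2623) (.e (nat_lit 57476) (nat_lit 28) (.e (nat_lit 557108) (nat_lit 15) (.e (nat_lit 188452) (nat_lit 23) (.e (nat_lit 204855) (nat_lit 26) (.e (nat_lit 336287) (nat_lit 15) .nil))))) (.g (nat_lit 0) (.e (nat_lit 254427) (nat_lit 0) .nil) .nil))))) (.nd (nat_lit 8) (.nd (nat_lit 9) 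
(.lf (nat_lit 533719) (.g (nat_lit 2850) (.e (nat_lit 57412) (nat_lit 12) (.e (nat_lit 336001) (nat_lit 2) (.e (nat_lit 90170) (nat_lit 13) (.e (nat_lit 172113) (nat_lit 10) (.e (nat_lit 434248) (nat_lit 28) (.e (nat_lit 573473) (nat_lit 12) (.e (nat_lit 57353) (nat_lit 0) (.e (nat_lit 7263) (nat_lit 384) .nil)))))))) (.g (nat_lit 1) (.e (nat_lit 253309) (nat_lit 0) .nil) .nil))) 
(.lf (nat_lit 534231) (.g (nat_lit 2125) (.e (nat_lit 57467) (nat_lit 23) (.e (nat_lit 516115) (nat_lit 1) (.e (nat_lit 164398) (nat_lit 256) (.e (nat_lit 57373) (nat_lit 2) (.e (nat_lit 90174) (nat_lit 14) .nil))))) (.g (nat_lit 0) (.e (nat_lit 254159) (nat_lit 0) .nil) .nil)))) (.nd (nat_lit 9) 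
(.lf (nat_lit 533975) (.g (nat_lit 586) (.e (nat_lit 57451) (nat_lit 20) (.e (nat_lit 401448) (nat_lit 10) (.e (nat_lit 434272) (nat_lit 38) .nil))) (.g (nat_lit 0) (.e (nat_lit 253716) (nat_lit 0) .nil) .nil))) 
(.lf (nat_lit 534487) (.g (nat_lit 3560) (.e (nat_lit 57479) (nat_lit 28) (.e (nat_lit 557105) (nat_lit 14) (.e (nat_lit 180251) (nat_lit 10) (.e (nat_lit 573485) (nat_lit 13) (.e (nat_lit 65569) (nat_lit 3) (.e (nat_lit 98321) (nat_lit 17) (.e (nat_lit 7936) (nat_lit 216) (.e (nat_lit 688166) (nat_lit 15) .nil)))))))) (.g (nat_lit 1) (.e (nat_lit 254701) (nat_lit 0) .nil) .nil))))))) 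
(.nd (nat_lit 6) (.nd (nat_lit 7) (.nd (nat_lit 8) (.nd (nat_lit 9) 
(.lf (nat_lit 533559) (.g (nat_lit 5172) (.e (nat_lit 57408) (nat_lit 12) (.e (nat_lit 336019) (nat_lit 3) (.e (nat_lit 98373) (nat_lit 29) (.e (nat_lit 450588) (nat_lit 10) (.e (nat_lit 573475) (nat_lit 12) (.e (nat_lit 57347) (nat_lit 0) (.e (nat_lit 7261) (nat_lit 384) .nil))))))) (.g (nat_lit 1) (.e (nat_lit 253044) (nat_lit 0) .nil) .nil))) 
(.lf (nat_lit 534071) (.g (nat_lit 2087) (.e (nat_lit 57464) (nat_lit 23) (.e (nat_lit 516163) (nat_lit 11) (.e (nat_lit 442412) (nat_lit 20) (.e (nat_lit 3272) (nat_lit 199) (.e (nat_lit 548914) (nat_lit 19) (.e (nat_lit 188160) (nat_lit 35) .nil)))))) (.g (nat_lit 1) (.e (nat_lit 253974) (nat_lit 0) .nil) .nil)))) (.nd (nat_lit 9) 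
(.lf (nat_lit 533815) (.g (nat_lit 1767) (.e (nat_lit 57418) (nat_lit 12) (.e (nat_lit 336194) (nat_lit 12) (.e (nat_lit 385106) (nat_lit 50) (.e (nat_lit 786481) (nat_lit 30) .nil)))) (.g (nat_lit 0) (.e (nat_lit 253432) (nat_lit 0) .nil) .nil))) 
(.lf (nat_lit 534327) (.g (nat_lit 2981) (.e (nat_lit 57476) (nat_lit 28) (.e (nat_lit 557107) (nat_lit 15) (.e (nat_lit 188450) (nat_lit 23) (.e (nat_lit 204852) (nat_lit 26) (.e (nat_lit 336301) (nat_lit 15) (.e (nat_lit 3629) (nat_lit 227) (.e (nat_lit 778318) (nat_lit 3) .nil))))))) (.g (nat_lit 1) (.e (nat_lit 254395) (nat_lit 0) .nil) .nil))))) (.nd (nat_lit 8) (.nd (nat_lit 9) 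
(.lf (nat_lit 533687) (.g (nat_lit 2180) (.e (nat_lit 57411) (nat_lit 12) (.e (nat_lit 336456) (nat_lit 34) (.e (nat_lit 483387) (nat_lit 23) (.e (nat_lit 336282) (nat_lit 15) (.e (nat_lit 3253) (nat_lit 197) (.e (nat_lit 532503) (nat_lit 1) (.e (nat_lit 57847) (nat_lit 252) .nil))))))) (.g (nat_lit 1) (.e (nat_lit 253277) (nat_lit 0) .nil) .nil))) 
(.lf (nat_lit 534199) (.g (nat_lit 2731) (.e (nat_lit 57466) (nat_lit 23) (.e (nat_lit 516115) (nat_lit 1) (.e (nat_lit 164398) (nat_lit 256) (.e (nat_lit 57372) (nat_lit 2) (.e (nat_lit 90174) (nat_lit 14) .nil))))) (.g (nat_lit 0) (.e (nat_lit 254117) (nat_lit 0) .nil) .nil)))) (.nd (nat_lit 9) 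
(.lf (nat_lit 533943) (.g (nat_lit 1589) (.e (nat_lit 57442) (nat_lit 18) (.e (nat_lit 385068) (nat_lit 26) (.e (nat_lit 532530) (nat_lit 9) (.e (nat_lit 336211) (nat_lit 13) .nil)))) (.g (nat_lit 0) (.e (nat_lit 253651) (nat_lit 0) .nil) .nil))) 
(.lf (nat_lit 534455) (.g (nat_lit 2238) (.e (nat_lit 57479) (nat_lit 28) (.e (nat_lit 557100) (nat_lit 13) (.e (nat_lit 172106) (nat_lit 10) (.e (nat_lit 434231) (nat_lit 23) (.e (nat_lit 532535) (nat_lit 9) (.e (nat_lit 336290) (nat_lit 15) (.e (nat_lit 3683) (nat_lit 227) (.e (nat_lit 786176) (nat_lit 3) .nil)))))))) (.g (nat_lit 1) (.e (nat_lit 254669) (nat_lit 0) .nil) .nil)))))) 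
(.nd (nat_lit 7) (.nd (nat_lit 8) (.nd (nat_lit 9) 
(.lf (nat_lit 533623) (.g (nat_lit 1072) (.e (nat_lit 57409) (nat_lit 12) (.e (nat_lit 336454) (nat_lit 34) (.e (nat_lit 483385) (nat_lit 23) (.e (nat_lit 336306) (nat_lit 15) .nil)))) (.g (nat_lit 0) (.e (nat_lit 253128) (nat_lit 0) .nil) .nil))) 
(.lf (nat_lit 534135) (.g (nat_lit 3964) (.e (nat_lit 57464) (nat_lit 23) (.e (nat_lit 516166) (nat_lit 12) (.e (nat_lit 450588) (nat_lit 10) (.e (nat_lit 573451) (nat_lit 9) (.e (nat_lit 365) (nat_lit 31) (.e (nat_lit 417796) (nat_lit 0) (.e (nat_lit 5389) (nat_lit 301) .nil))))))) (.g (nat_lit 1) (.e (nat_lit 254047) (nat_lit 0) .nil) .nil)))) (.nd (nat_lit 9) 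
(.lf (nat_lit 533879) (.g (nat_lit 2605) (.e (nat_lit 57430) (nat_lit 16) (.e (nat_lit 368676) (nat_lit 21) (.e (nat_lit 516165) (nat_lit 12) (.e (nat_lit 450586) (nat_lit 10) (.e (nat_lit 573478) (nat_lit 12) (.e (nat_lit 57351) (nat_lit 0) (.e (nat_lit 7261) (nat_lit 384) .nil))))))) (.g (nat_lit 1) (.e (nat_lit 253549) (nat_lit 0) .nil) .nil))) 
(.lf (nat_lit 534391) (.g (nat_lit 2412) (.e (nat_lit 57477) (nat_lit 28) (.e (nat_lit 557108) (nat_lit 15) (.e (nat_lit 188452) (nat_lit 23) (.e (nat_lit 204852) (nat_lit 26) (.e (nat_lit 343808) (nat_lit 15) (.e (nat_lit 3716) (nat_lit 227) (.e (nat_lit 778316) (nat_lit 3) .nil))))))) (.g (nat_lit 1) (.e (nat_lit 254505) (nat_lit 0) .nil) .nil))))) (.nd (nat_lit 8) (.nd (nat_lit 9) 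
(.lf (nat_lit 533751) (.g (nat_lit 3160) (.e (nat_lit 57412) (nat_lit 12) (.e (nat_lit 336008) (nat_lit 2) (.e (nat_lit 90170) (nat_lit 13) (.e (nat_lit 172113) (nat_lit 10) (.e (nat_lit 434248) (nat_lit 28) (.e (nat_lit 573475) (nat_lit 12) (.e (nat_lit 57348) (nat_lit 0) (.e (nat_lit 7265) (nat_lit 384) .nil)))))))) (.g (nat_lit 1) (.e (nat_lit 253341) (nat_lit 0) .nil) .nil))) 
(.lf (nat_lit 534263) (.g (nat_lit 2143) (.e (nat_lit 57475) (nat_lit 28) (.e (nat_lit 557098) (nat_lit 13) (.e (nat_lit 172115) (nat_lit 10) (.e (nat_lit 434231) (nat_lit 23) (.e (nat_lit 532535) (nat_lit 9) .nil))))) (.g (nat_lit 0) (.e (nat_lit 254213) (nat_lit 0) .nil) .nil)))) (.nd (nat_lit 9) 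
(.lf (nat_lit 534007) (.g (nat_lit 2619) (.e (nat_lit 57464) (nat_lit 23) (.e (nat_lit 516139) (nat_lit 7) (.e (nat_lit 409643) (nat_lit 18) (.e (nat_lit 303117) (nat_lit 2) (.e (nat_lit 196661) (nat_lit 12) (.e (nat_lit 57723) (nat_lit 180) (.e (nat_lit 229657) (nat_lit 235) .nil))))))) (.g (nat_lit 1) (.e (nat_lit 253896) (nat_lit 0) .nil) .nil))) 
(.lf (nat_lit 534519) (.g (nat_lit 4511) (.e (nat_lit 57479) (nat_lit 28) (.e (nat_lit 557105) (nat_lit 14) (.e (nat_lit 180252) (nat_lit 10) (.e (nat_lit 573488) (nat_lit 14) (.e (nat_lit 73747) (nat_lit 3) (.e (nat_lit 516100) (nat_lit 0) (.e (nat_lit 7936) (nat_lit 216) (.e (nat_lit 688166) (nat_lit 15) .nil)))))))) (.g (nat_lit 1) (.e (nat_lit 254733) (nat_lit 0) .nil) .nil))))))))) 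
(.nd (nat_lit 4) (.nd (nat_lit 5) (.nd (nat_lit 6) (.nd (nat_lit 7) (.nd (nat_lit 8) 
(.nd (nat_lit 9) 
(.lf (nat_lit 533519) (.g (nat_lit 5460) (.e (nat_lit 57407) (nat_lit 12) (.e (nat_lit 336019) (nat_lit 3) (.e (nat_lit 98373) (nat_lit 29) (.e (nat_lit 450588) (nat_lit 10) (.e (nat_lit 573475) (nat_lit 12) (.e (nat_lit 57353) (nat_lit 0) (.e (nat_lit 7261) (nat_lit 384) .nil))))))) (.g (nat_lit 1) (.e (nat_lit 252987) (nat_lit 0) .nil) .nil))) 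
(.lf (nat_lit 534031) (.g (nat_lit 3819) (.e (nat_lit 57464) (nat_lit 23) (.e (nat_lit 516142) (nat_lit 8) (.e (nat_lit 417810) (nat_lit 6) (.e (nat_lit 286733) (nat_lit 2) (.e (nat_lit 90128) (nat_lit 9) (.e (nat_lit 3031) (nat_lit 188) (.e (nat_lit 466688) (nat_lit 3) .nil))))))) (.g (nat_lit 1) (.e (nat_lit 253921) (nat_lit 0) .nil) .nil)))) (.nd (nat_lit 9) 
(.lf (nat_lit 533775) (.g (nat_lit 2604) (.e (nat_lit 57412) (nat_lit 12) (.e (nat_lit 336173) (nat_lit 10) (.e (nat_lit 344157) (nat_lit 36) (.e (nat_lit 638999) (nat_lit 8) (.e (nat_lit 172094) (nat_lit 9) (.e (nat_lit 426109) (nat_lit 1) (.e (nat_lit 164319) (nat_lit 228) .nil))))))) (.g (nat_lit 1) (.e (nat_lit 253366) (nat_lit 0) .nil) .nil))) 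
(.lf (nat_lit 534287) (.g (nat_lit 3098) (.e (nat_lit 57476) (nat_lit 28) (.e (nat_lit 557097) (nat_lit 13) (.e (nat_lit 172097) (nat_lit 9) (.e (nat_lit 426125) (nat_lit 2) (.e (nat_lit 196666) (nat_lit 13) (.e (nat_lit 65639) (nat_lit 15) (.e (nat_lit 3714) (nat_lit 227) (.e (nat_lit 778316) (nat_lit 3) .nil)))))))) (.g (nat_lit 1) (.e (nat_lit 254355) (nat_lit 0) .nil) .nil))))) 
(.nd (nat_lit 8) (.nd (nat_lit 9) 
(.lf (nat_lit 533647) (.g (nat_lit 4550) (.e (nat_lit 57411) (nat_lit 12) (.e (nat_lit 336019) (nat_lit 3) (.e (nat_lit 98373) (nat_lit 29) (.e (nat_lit 450587) (nat_lit 10) (.e (nat_lit 573477) (nat_lit 12) (.e (nat_lit 57353) (nat_lit 0) (.e (nat_lit 7261) (nat_lit 384) .nil))))))) (.g (nat_lit 1) (.e (nat_lit 253198) (nat_lit 0) .nil) .nil))) 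
(.lf (nat_lit 534159) (.g (nat_lit 2366) (.e (nat_lit 57464) (nat_lit 23) (.e (nat_lit 516183) (nat_lit 16) (.e (nat_lit 491571) (nat_lit 13) (.e (nat_lit 393258) (nat_lit 20) (.e (nat_lit 261888) (nat_lit 14) .nil))))) (.g (nat_lit 0) (.e (nat_lit 254074) (nat_lit 0) .nil) .nil)))) (.nd (nat_lit 9) 
(.lf (nat_lit 533903) (.g (nat_lit 2599) (.e (nat_lit 57431) (nat_lit 16) (.e (nat_lit 368676) (nat_lit 21) (.e (nat_lit 516165) (nat_lit 12) (.e (nat_lit 450586) (nat_lit 10) (.e (nat_lit 573478) (nat_lit 12) (.e (nat_lit 57353) (nat_lit 0) (.e (nat_lit 7261) (nat_lit 384) .nil))))))) (.g (nat_lit 1) (.e (nat_lit 253575) (nat_lit 0) .nil) .nil))) 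
(.lf (nat_lit 534415) (.g (nat_lit 1913) (.e (nat_lit 57478) (nat_lit 28) (.e (nat_lit 557101) (nat_lit 13) (.e (nat_lit 172115) (nat_lit 10) (.e (nat_lit 434231) (nat_lit 23) (.e (nat_lit 532564) (nat_lit 15) .nil))))) (.g (nat_lit 0) (.e (nat_lit 254567) (nat_lit 0) .nil) .nil)))))) (.nd (nat_lit 7) (.nd (nat_lit 8) (.nd (nat_lit 9) 
(.lf (nat_lit 533583) (.g (nat_lit 1467) (.e (nat_lit 57409) (nat_lit 12) (.e (nat_lit 336324) (nat_lit 18) (.e (nat_lit 204854) (nat_lit 26) (.e (nat_lit 343808) (nat_lit 13) .nil)))) (.g (nat_lit 0) (.e (nat_lit 253084) (nat_lit 0) .nil) .nil))) 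
(.lf (nat_lit 534095) (.g (nat_lit 2808) (.e (nat_lit 57464) (nat_lit 23) (.e (nat_lit 516165) (nat_lit 12) (.e (nat_lit 450586) (nat_lit 10) (.e (nat_lit 573470) (nat_lit 11) (.e (nat_lit 16388) (nat_lit 0) (.e (nat_lit 7583) (nat_lit 405) .nil)))))) (.g (nat_lit 1) (.e (nat_lit 254001) (nat_lit 0) .nil) .nil)))) (.nd (nat_lit 9) 
(.lf (nat_lit 533839) (.g (nat_lit 2091) (.e (nat_lit 57419) (nat_lit 12) (.e (nat_lit 336203) (nat_lit 12) (.e (nat_lit 385102) (nat_lit 50) (.e (nat_lit 786481) (nat_lit 30) (.e (nat_lit 360456) (nat_lit 0) (.e (nat_lit 5949) (nat_lit 322) .nil)))))) (.g (nat_lit 1) (.e (nat_lit 253463) (nat_lit 0) .nil) .nil))) 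
(.lf (nat_lit 534351) (.g (nat_lit 3844) (.e (nat_lit 57476) (nat_lit 28) (.e (nat_lit 557108) (nat_lit 15) (.e (nat_lit 188452) (nat_lit 23) (.e (nat_lit 204852) (nat_lit 26) (.e (nat_lit 336265) (nat_lit 15) (.e (nat_lit 3629) (nat_lit 227) (.e (nat_lit 778318) (nat_lit 3) .nil))))))) (.g (nat_lit 1) (.e (nat_lit 254419) (nat_lit 0) .nil) .nil))))) (.nd (nat_lit 8) (.nd (nat_lit 9) 
(.lf (nat_lit 533711) (.g (nat_lit 4552) (.e (nat_lit 57412) (nat_lit 12) (.e (nat_lit 336001) (nat_lit 2) (.e (nat_lit 90170) (nat_lit 13) (.e (nat_lit 172113) (nat_lit 10) (.e (nat_lit 434245) (nat_lit 28) (.e (nat_lit 573474) (nat_lit 12) (.e (nat_lit 57348) (nat_lit 0) (.e (nat_lit 7261) (nat_lit 384) .nil)))))))) (.g (nat_lit 1) (.e (nat_lit 253301) (nat_lit 0) .nil) .nil))) 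
(.lf (nat_lit 534223) (.g (nat_lit 1840) (.e (nat_lit 57466) (nat_lit 23) (.e (nat_lit 516144) (nat_lit 9) (.e (nat_lit 426131) (nat_lit 3) (.e (nat_lit 204838) (nat_lit 20) (.e (nat_lit 114714) (nat_lit 22) .nil))))) (.g (nat_lit 0) (.e (nat_lit 254141) (nat_lit 0) .nil) .nil)))) (.nd (nat_lit 9) 
(.lf (nat_lit 533967) (.g (nat_lit 3212) (.e (nat_lit 57449) (nat_lit 20) (.e (nat_lit 401454) (nat_lit 12) (.e (nat_lit 475210) (nat_lit 41) (.e (nat_lit 712755) (nat_lit 30) (.e (nat_lit 450562) (nat_lit 0) (.e (nat_lit 5945) (nat_lit 322) .nil)))))) (.g (nat_lit 1) (.e (nat_lit 253691) (nat_lit 0) .nil) .nil))) 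
(.lf (nat_lit 534479) (.g (nat_lit 5499) (.e (nat_lit 57479) (nat_lit 28) (.e (nat_lit 557101) (nat_lit 13) (.e (nat_lit 172116) (nat_lit 10) (.e (nat_lit 434231) (nat_lit 23) (.e (nat_lit 532535) (nat_lit 9) (.e (nat_lit 336295) (nat_lit 15) (.e (nat_lit 3632) (nat_lit 227) (.e (nat_lit 778317) (nat_lit 3) .nil)))))))) (.g (nat_lit 1) (.e (nat_lit 254693) (nat_lit 0) .nil) .nil))))))) 
(.nd (nat_lit 6) (.nd (nat_lit 7) (.nd (nat_lit 8) (.nd (nat_lit 9) 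
(.lf (nat_lit 533551) (.g (nat_lit 2590) (.e (nat_lit 57407) (nat_lit 12) (.e (nat_lit 336456) (nat_lit 34) (.e (nat_lit 483391) (nat_lit 23) (.e (nat_lit 336323) (nat_lit 18) (.e (nat_lit 204831) (nat_lit 18) (.e (nat_lit 57848) (nat_lit 252) .nil)))))) (.g (nat_lit 1) (.e (nat_lit 253036) (nat_lit 0) .nil) .nil))) 
(.lf (nat_lit 534063) (.g (nat_lit 4185) (.e (nat_lit 57464) (nat_lit 23) (.e (nat_lit 516151) (nat_lit 9) (.e (nat_lit 426286) (nat_lit 10) (.e (nat_lit 434248) (nat_lit 28) (.e (nat_lit 573471) (nat_lit 11) (.e (nat_lit 16387) (nat_lit 0) (.e (nat_lit 7583) (nat_lit 405) .nil))))))) (.g (nat_lit 1) (.e (nat_lit 253956) (nat_lit 0) .nil) .nil)))) (.nd (nat_lit 9) 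
(.lf (nat_lit 533807) (.g (nat_lit 3187) (.e (nat_lit 57413) (nat_lit 12) (.e (nat_lit 336028) (nat_lit 3) (.e (nat_lit 98372) (nat_lit 29) (.e (nat_lit 450588) (nat_lit 10) (.e (nat_lit 573473) (nat_lit 12) .nil))))) (.g (nat_lit 0) (.e (nat_lit 253421) (nat_lit 0) .nil) .nil))) 
(.lf (nat_lit 534319) (.g (nat_lit 2248) (.e (nat_lit 57476) (nat_lit 28) (.e (nat_lit 557107) (nat_lit 15) (.e (nat_lit 188447) (nat_lit 22) (.e (nat_lit 196666) (nat_lit 13) (.e (nat_lit 65639) (nat_lit 15) (.e (nat_lit 3716) (nat_lit 227) (.e (nat_lit 778316) (nat_lit 3) .nil))))))) (.g (nat_lit 1) (.e (nat_lit 254387) (nat_lit 0) .nil) .nil))))) (.nd (nat_lit 8) (.nd (nat_lit 9) 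
(.lf (nat_lit 533679) (.g (nat_lit 3737) (.e (nat_lit 57411) (nat_lit 12) (.e (nat_lit 336454) (nat_lit 34) (.e (nat_lit 483385) (nat_lit 23) (.e (nat_lit 336324) (nat_lit 18) (.e (nat_lit 204831) (nat_lit 18) (.e (nat_lit 57849) (nat_lit 252) .nil)))))) (.g (nat_lit 1) (.e (nat_lit 253256) (nat_lit 0) .nil) .nil))) 
(.lf (nat_lit 534191) (.g (nat_lit 1909) (.e (nat_lit 57465) (nat_lit 23) (.e (nat_lit 516129) (nat_lit 3) (.e (nat_lit 221210) (nat_lit 22) (.e (nat_lit 196668) (nat_lit 14) (.e (nat_lit 73747) (nat_lit 3) (.e (nat_lit 516105) (nat_lit 0) (.e (nat_lit 3458) (nat_lit 216) (.e (nat_lit 688171) (nat_lit 15) .nil)))))))) (.g (nat_lit 1) (.e (nat_lit 254108) (nat_lit 0) .nil) .nil)))) 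
(.nd (nat_lit 9) 
(.lf (nat_lit 533935) (.g (nat_lit 1717) (.e (nat_lit 57437) (nat_lit 17) (.e (nat_lit 376835) (nat_lit 0) (.e (nat_lit 3748) (nat_lit 228) (.e (nat_lit 786483) (nat_lit 30) (.e (nat_lit 368384) (nat_lit 0) (.e (nat_lit 5941) (nat_lit 322) .nil)))))) (.g (nat_lit 1) (.e (nat_lit 253633) (nat_lit 0) .nil) .nil))) 
(.lf (nat_lit 534447) (.g (nat_lit 2449) (.e (nat_lit 57479) (nat_lit 28) (.e (nat_lit 557100) (nat_lit 13) (.e (nat_lit 172106) (nat_lit 10) (.e (nat_lit 434231) (nat_lit 23) (.e (nat_lit 532529) (nat_lit 9) (.e (nat_lit 336296) (nat_lit 15) (.e (nat_lit 3716) (nat_lit 227) (.e (nat_lit 786176) (nat_lit 3) .nil)))))))) (.g (nat_lit 1) (.e (nat_lit 254661) (nat_lit 0) .nil) .nil)))))) 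
(.nd (nat_lit 7) (.nd (nat_lit 8) (.nd (nat_lit 9) 
(.lf (nat_lit 533615) (.g (nat_lit 3272) (.e (nat_lit 57409) (nat_lit 12) (.e (nat_lit 336452) (nat_lit 34) (.e (nat_lit 483383) (nat_lit 23) (.e (nat_lit 336324) (nat_lit 18) (.e (nat_lit 204831) (nat_lit 18) (.e (nat_lit 57854) (nat_lit 252) .nil)))))) (.g (nat_lit 1) (.e (nat_lit 253120) (nat_lit 0) .nil) .nil))) 
(.lf (nat_lit 534127) (.g (nat_lit 3092) (.e (nat_lit 57464) (nat_lit 23) (.e (nat_lit 516166) (nat_lit 12) (.e (nat_lit 450588) (nat_lit 10) (.e (nat_lit 573449) (nat_lit 9) (.e (nat_lit 359) (nat_lit 30) .nil))))) (.g (nat_lit 0) (.e (nat_lit 254039) (nat_lit 0) .nil) .nil)))) (.nd (nat_lit 9) 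
(.lf (nat_lit 533871) (.g (nat_lit 2646) (.e (nat_lit 57430) (nat_lit 16) (.e (nat_lit 368676) (nat_lit 21) (.e (nat_lit 516165) (nat_lit 12) (.e (nat_lit 450586) (nat_lit 10) (.e (nat_lit 573475) (nat_lit 12) .nil))))) (.g (nat_lit 0) (.e (nat_lit 253541) (nat_lit 0) .nil) .nil))) 
(.lf (nat_lit 534383) (.g (nat_lit 2474) (.e (nat_lit 57477) (nat_lit 28) (.e (nat_lit 557107) (nat_lit 15) (.e (nat_lit 188447) (nat_lit 22) (.e (nat_lit 196666) (nat_lit 13) (.e (nat_lit 65639) (nat_lit 15) (.e (nat_lit 3714) (nat_lit 227) (.e (nat_lit 786176) (nat_lit 3) .nil))))))) (.g (nat_lit 1) (.e (nat_lit 254497) (nat_lit 0) .nil) .nil))))) (.nd (nat_lit 8) (.nd (nat_lit 9) 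
(.lf (nat_lit 533743) (.g (nat_lit 2445) (.e (nat_lit 57412) (nat_lit 12) (.e (nat_lit 336008) (nat_lit 2) (.e (nat_lit 90170) (nat_lit 13) (.e (nat_lit 172113) (nat_lit 10) (.e (nat_lit 434247) (nat_lit 28) (.e (nat_lit 573478) (nat_lit 12) (.e (nat_lit 57351) (nat_lit 0) (.e (nat_lit 7261) (nat_lit 384) .nil)))))))) (.g (nat_lit 1) (.e (nat_lit 253333) (nat_lit 0) .nil) .nil))) 
(.lf (nat_lit 534255) (.g (nat_lit 3826) (.e (nat_lit 57474) (nat_lit 28) (.e (nat_lit 557108) (nat_lit 15) (.e (nat_lit 188452) (nat_lit 23) (.e (nat_lit 204881) (nat_lit 32) .nil)))) (.g (nat_lit 0) (.e (nat_lit 254203) (nat_lit 0) .nil) .nil)))) (.nd (nat_lit 9) 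
(.lf (nat_lit 533999) (.g (nat_lit 1972) (.e (nat_lit 57464) (nat_lit 23) (.e (nat_lit 516116) (nat_lit 1) (.e (nat_lit 164329) (nat_lit 230) (.e (nat_lit 163850) (nat_lit 0) (.e (nat_lit 3304) (nat_lit 202) .nil))))) (.g (nat_lit 0) (.e (nat_lit 253864) (nat_lit 0) .nil) .nil))) 
(.lf (nat_lit 534511) (.g (nat_lit 3099) (.e (nat_lit 57479) (nat_lit 28) (.e (nat_lit 557105) (nat_lit 14) (.e (nat_lit 180252) (nat_lit 10) (.e (nat_lit 573482) (nat_lit 13) (.e (nat_lit 65571) (nat_lit 3) (.e (nat_lit 98325) (nat_lit 17) (.e (nat_lit 3459) (nat_lit 216) (.e (nat_lit 688165) (nat_lit 15) .nil)))))))) (.g (nat_lit 1) (.e (nat_lit 254725) (nat_lit 0) .nil) .nil)))))))) 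
(.nd (nat_lit 5) (.nd (nat_lit 6) (.nd (nat_lit 7) (.nd (nat_lit 8) (.nd (nat_lit 9) 
(.lf (nat_lit 533535) (.g (nat_lit 3646) (.e (nat_lit 57407) (nat_lit 12) (.e (nat_lit 336456) (nat_lit 34) (.e (nat_lit 483379) (nat_lit 23) (.e (nat_lit 336324) (nat_lit 18) (.e (nat_lit 204831) (nat_lit 18) (.e (nat_lit 57846) (nat_lit 252) .nil)))))) (.g (nat_lit 1) (.e (nat_lit 253020) (nat_lit 0) .nil) .nil))) 
(.lf (nat_lit 534047) (.g (nat_lit 1961) (.e (nat_lit 57464) (nat_lit 23) (.e (nat_lit 516151) (nat_lit 9) (.e (nat_lit 426286) (nat_lit 10) (.e (nat_lit 434245) (nat_lit 28) (.e (nat_lit 573470) (nat_lit 11) (.e (nat_lit 16386) (nat_lit 0) (.e (nat_lit 7583) (nat_lit 405) .nil))))))) (.g (nat_lit 1) (.e (nat_lit 253940) (nat_lit 0) .nil) .nil)))) (.nd (nat_lit 9) 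
(.lf (nat_lit 533791) (.g (nat_lit 2031) (.e (nat_lit 57412) (nat_lit 12) (.e (nat_lit 336176) (nat_lit 10) (.e (nat_lit 344161) (nat_lit 37) (.e (nat_lit 647195) (nat_lit 9) (.e (nat_lit 7936) (nat_lit 35) (.e (nat_lit 450569) (nat_lit 0) (.e (nat_lit 5190) (nat_lit 294) .nil))))))) (.g (nat_lit 1) (.e (nat_lit 253382) (nat_lit 0) .nil) .nil))) 
(.lf (nat_lit 534303) (.g (nat_lit 4605) (.e (nat_lit 57476) (nat_lit 28) (.e (nat_lit 557097) (nat_lit 13) (.e (nat_lit 172115) (nat_lit 10) (.e (nat_lit 434231) (nat_lit 23) (.e (nat_lit 532535) (nat_lit 9) (.e (nat_lit 336282) (nat_lit 15) (.e (nat_lit 3632) (nat_lit 227) (.e (nat_lit 778318) (nat_lit 3) .nil)))))))) (.g (nat_lit 1) (.e (nat_lit 254371) (nat_lit 0) .nil) .nil))))) 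
(.nd (nat_lit 8) (.nd (nat_lit 9) 
(.lf (nat_lit 533663) (.g (nat_lit 2657) (.e (nat_lit 57411) (nat_lit 12) (.e (nat_lit 336316) (nat_lit 17) (.e (nat_lit 196666) (nat_lit 13) (.e (nat_lit 65610) (nat_lit 10) (.e (nat_lit 344090) (nat_lit 18) (.e (nat_lit 7697) (nat_lit 412) (.e (nat_lit 57366) (nat_lit 1) (.e (nat_lit 57847) (nat_lit 252) .nil)))))))) (.g (nat_lit 1) (.e (nat_lit 253223) (nat_lit 0) .nil) .nil))) 
(.lf (nat_lit 534175) (.g (nat_lit 2829) (.e (nat_lit 57465) (nat_lit 23) (.e (nat_lit 516117) (nat_lit 1) (.e (nat_lit 164398) (nat_lit 256) (.e (nat_lit 57372) (nat_lit 2) (.e (nat_lit 90174) (nat_lit 14) .nil))))) (.g (nat_lit 0) (.e (nat_lit 254091) (nat_lit 0) .nil) .nil)))) (.nd (nat_lit 9) 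
(.lf (nat_lit 533919) (.g (nat_lit 5501) (.e (nat_lit 57433) (nat_lit 16) (.e (nat_lit 368676) (nat_lit 21) (.e (nat_lit 516166) (nat_lit 12) (.e (nat_lit 450588) (nat_lit 10) (.e (nat_lit 573475) (nat_lit 12) .nil))))) (.g (nat_lit 0) (.e (nat_lit 253592) (nat_lit 0) .nil) .nil))) 
(.lf (nat_lit 534431) (.g (nat_lit 3058) (.e (nat_lit 57478) (nat_lit 28) (.e (nat_lit 557109) (nat_lit 15) (.e (nat_lit 188452) (nat_lit 23) (.e (nat_lit 204859) (nat_lit 26) (.e (nat_lit 336035) (nat_lit 4) .nil))))) (.g (nat_lit 0) (.e (nat_lit 254599) (nat_lit 0) .nil) .nil)))))) (.nd (nat_lit 7) (.nd (nat_lit 8) (.nd (nat_lit 9) 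
(.lf (nat_lit 533599) (.g (nat_lit 894) (.e (nat_lit 57409) (nat_lit 12) (.e (nat_lit 336428) (nat_lit 29) (.e (nat_lit 442425) (nat_lit 23) (.e (nat_lit 204809) (nat_lit 9) .nil)))) (.g (nat_lit 0) (.e (nat_lit 253103) (nat_lit 0) .nil) .nil))) 
(.lf (nat_lit 534111) (.g (nat_lit 2870) (.e (nat_lit 57464) (nat_lit 23) (.e (nat_lit 516165) (nat_lit 12) (.e (nat_lit 450588) (nat_lit 10) (.e (nat_lit 573470) (nat_lit 11) (.e (nat_lit 16387) (nat_lit 0) (.e (nat_lit 7583) (nat_lit 405) .nil)))))) (.g (nat_lit 1) (.e (nat_lit 254017) (nat_lit 0) .nil) .nil)))) (.nd (nat_lit 9) 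
(.lf (nat_lit 533855) (.g (nat_lit 3241) (.e (nat_lit 57423) (nat_lit 14) (.e (nat_lit 352262) (nat_lit 0) (.e (nat_lit 3748) (nat_lit 228) (.e (nat_lit 786483) (nat_lit 30) (.e (nat_lit 360457) (nat_lit 0) (.e (nat_lit 5949) (nat_lit 322) .nil)))))) (.g (nat_lit 1) (.e (nat_lit 253508) (nat_lit 0) .nil) .nil))) 
(.lf (nat_lit 534367) (.g (nat_lit 1536) (.e (nat_lit 57477) (nat_lit 28) (.e (nat_lit 557067) (nat_lit 9) (.e (nat_lit 3022) (nat_lit 187) (.e (nat_lit 450579) (nat_lit 5) .nil)))) (.g (nat_lit 0) (.e (nat_lit 254444) (nat_lit 0) .nil) .nil))))) (.nd (nat_lit 8) (.nd (nat_lit 9) 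
(.lf (nat_lit 533727) (.g (nat_lit 2371) (.e (nat_lit 57412) (nat_lit 12) (.e (nat_lit 336005) (nat_lit 2) (.e (nat_lit 90170) (nat_lit 13) (.e (nat_lit 172113) (nat_lit 10) (.e (nat_lit 434245) (nat_lit 28) (.e (nat_lit 573474) (nat_lit 12) (.e (nat_lit 57351) (nat_lit 0) (.e (nat_lit 7263) (nat_lit 384) .nil)))))))) (.g (nat_lit 1) (.e (nat_lit 253317) (nat_lit 0) .nil) .nil))) 
(.lf (nat_lit 534239) (.g (nat_lit 2582) (.e (nat_lit 57467) (nat_lit 23) (.e (nat_lit 516119) (nat_lit 1) (.e (nat_lit 164403) (nat_lit 256) (.e (nat_lit 57373) (nat_lit 2) (.e (nat_lit 90174) (nat_lit 14) .nil))))) (.g (nat_lit 0) (.e (nat_lit 254168) (nat_lit 0) .nil) .nil)))) (.nd (nat_lit 9) 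
(.lf (nat_lit 533983) (.g (nat_lit 3406) (.e (nat_lit 57451) (nat_lit 20) (.e (nat_lit 401451) (nat_lit 12) (.e (nat_lit 475207) (nat_lit 41) (.e (nat_lit 712755) (nat_lit 30) (.e (nat_lit 450563) (nat_lit 0) (.e (nat_lit 5945) (nat_lit 322) .nil)))))) (.g (nat_lit 1) (.e (nat_lit 253726) (nat_lit 0) .nil) .nil))) 
(.lf (nat_lit 534495) (.g (nat_lit 3719) (.e (nat_lit 57479) (nat_lit 28) (.e (nat_lit 557105) (nat_lit 14) (.e (nat_lit 180252) (nat_lit 10) (.e (nat_lit 573480) (nat_lit 13) (.e (nat_lit 65571) (nat_lit 3) (.e (nat_lit 98321) (nat_lit 17) (.e (nat_lit 7936) (nat_lit 216) (.e (nat_lit 688166) (nat_lit 15) .nil)))))))) (.g (nat_lit 1) (.e (nat_lit 254709) (nat_lit 0) .nil) .nil))))))) 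
(.nd (nat_lit 6) (.nd (nat_lit 7) (.nd (nat_lit 8) (.nd (nat_lit 9) 
(.lf (nat_lit 533567) (.g (nat_lit 2280) (.e (nat_lit 57409) (nat_lit 12) (.e (nat_lit 336019) (nat_lit 3) (.e (nat_lit 98372) (nat_lit 29) (.e (nat_lit 450586) (nat_lit 10) (.e (nat_lit 573477) (nat_lit 12) .nil))))) (.g (nat_lit 0) (.e (nat_lit 253053) (nat_lit 0) .nil) .nil))) 
(.lf (nat_lit 534079) (.g (nat_lit 2075) (.e (nat_lit 57464) (nat_lit 23) (.e (nat_lit 516165) (nat_lit 12) (.e (nat_lit 450581) (nat_lit 5) (.e (nat_lit 532523) (nat_lit 7) (.e (nat_lit 319505) (nat_lit 10) .nil))))) (.g (nat_lit 0) (.e (nat_lit 253985) (nat_lit 0) .nil) .nil)))) (.nd (nat_lit 9) 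
(.lf (nat_lit 533823) (.g (nat_lit 2266) (.e (nat_lit 57419) (nat_lit 12) (.e (nat_lit 336194) (nat_lit 12) (.e (nat_lit 385102) (nat_lit 50) (.e (nat_lit 786481) (nat_lit 30) (.e (nat_lit 360457) (nat_lit 0) (.e (nat_lit 5949) (nat_lit 322) .nil)))))) (.g (nat_lit 1) (.e (nat_lit 253447) (nat_lit 0) .nil) .nil))) 
(.lf (nat_lit 534335) (.g (nat_lit 2751) (.e (nat_lit 57476) (nat_lit 28) (.e (nat_lit 557108) (nat_lit 15) (.e (nat_lit 188449) (nat_lit 22) (.e (nat_lit 196665) (nat_lit 13) (.e (nat_lit 65633) (nat_lit 15) .nil))))) (.g (nat_lit 0) (.e (nat_lit 254403) (nat_lit 0) .nil) .nil))))) (.nd (nat_lit 8) (.nd (nat_lit 9) 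
(.lf (nat_lit 533695) (.g (nat_lit 3482) (.e (nat_lit 57411) (nat_lit 12) (.e (nat_lit 336456) (nat_lit 34) (.e (nat_lit 483395) (nat_lit 24) (.e (nat_lit 344117) (nat_lit 21) (.e (nat_lit 516099) (nat_lit 0) (.e (nat_lit 2474) (nat_lit 157) (.e (nat_lit 6400) (nat_lit 339) .nil))))))) (.g (nat_lit 1) (.e (nat_lit 253285) (nat_lit 0) .nil) .nil))) 
(.lf (nat_lit 534207) (.g (nat_lit 2794) (.e (nat_lit 57466) (nat_lit 23) (.e (nat_lit 516117) (nat_lit 1) (.e (nat_lit 164398) (nat_lit 256) (.e (nat_lit 57372) (nat_lit 2) (.e (nat_lit 90174) (nat_lit 14) .nil))))) (.g (nat_lit 0) (.e (nat_lit 254125) (nat_lit 0) .nil) .nil)))) (.nd (nat_lit 9) 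
(.lf (nat_lit 533951) (.g (nat_lit 800) (.e (nat_lit 57446) (nat_lit 19) (.e (nat_lit 393229) (nat_lit 9) (.e (nat_lit 336073) (nat_lit 9) .nil))) (.g (nat_lit 0) (.e (nat_lit 253671) (nat_lit 0) .nil) .nil))) 
(.lf (nat_lit 534463) (.g (nat_lit 2349) (.e (nat_lit 57479) (nat_lit 28) (.e (nat_lit 557100) (nat_lit 13) (.e (nat_lit 172106) (nat_lit 10) (.e (nat_lit 434231) (nat_lit 23) (.e (nat_lit 532535) (nat_lit 9) (.e (nat_lit 336295) (nat_lit 15) (.e (nat_lit 7936) (nat_lit 227) (.e (nat_lit 786176) (nat_lit 3) .nil)))))))) (.g (nat_lit 1) (.e (nat_lit 254677) (nat_lit 0) .nil) .nil)))))) 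
(.nd (nat_lit 7) (.nd (nat_lit 8) (.nd (nat_lit 9) 
(.lf (nat_lit 533631) (.g (nat_lit 2947) (.e (nat_lit 57409) (nat_lit 12) (.e (nat_lit 336456) (nat_lit 34) (.e (nat_lit 483395) (nat_lit 24) (.e (nat_lit 344117) (nat_lit 21) (.e (nat_lit 516099) (nat_lit 0) (.e (nat_lit 2464) (nat_lit 157) (.e (nat_lit 6401) (nat_lit 339) .nil))))))) (.g (nat_lit 1) (.e (nat_lit 253140) (nat_lit 0) .nil) .nil))) 
(.lf (nat_lit 534143) (.g (nat_lit 3243) (.e (nat_lit 57464) (nat_lit 23) (.e (nat_lit 516166) (nat_lit 12) (.e (nat_lit 450588) (nat_lit 10) (.e (nat_lit 573457) (nat_lit 9) (.e (nat_lit 359) (nat_lit 30) (.e (nat_lit 409605) (nat_lit 0) (.e (nat_lit 5394) (nat_lit 301) .nil))))))) (.g (nat_lit 1) (.e (nat_lit 254055) (nat_lit 0) .nil) .nil)))) (.nd (nat_lit 9) 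
(.lf (nat_lit 533887) (.g (nat_lit 4540) (.e (nat_lit 57430) (nat_lit 16) (.e (nat_lit 368676) (nat_lit 21) (.e (nat_lit 516166) (nat_lit 12) (.e (nat_lit 450587) (nat_lit 10) (.e (nat_lit 573478) (nat_lit 12) (.e (nat_lit 57353) (nat_lit 0) (.e (nat_lit 7261) (nat_lit 384) .nil))))))) (.g (nat_lit 1) (.e (nat_lit 253557) (nat_lit 0) .nil) .nil))) 
(.lf (nat_lit 534399) (.g (nat_lit 2549) (.e (nat_lit 57478) (nat_lit 28) (.e (nat_lit 557098) (nat_lit 13) (.e (nat_lit 172097) (nat_lit 9) (.e (nat_lit 426140) (nat_lit 3) (.e (nat_lit 204855) (nat_lit 26) (.e (nat_lit 336290) (nat_lit 15) (.e (nat_lit 3711) (nat_lit 227) (.e (nat_lit 786176) (nat_lit 3) .nil)))))))) (.g (nat_lit 1) (.e (nat_lit 254551) (nat_lit 0) .nil) .nil))))) 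
(.nd (nat_lit 8) (.nd (nat_lit 9) 
(.lf (nat_lit 533759) (.g (nat_lit 4572) (.e (nat_lit 57412) (nat_lit 12) (.e (nat_lit 336022) (nat_lit 3) (.e (nat_lit 98373) (nat_lit 29) (.e (nat_lit 450588) (nat_lit 10) (.e (nat_lit 573473) (nat_lit 12) (.e (nat_lit 57352) (nat_lit 0) (.e (nat_lit 7261) (nat_lit 384) .nil))))))) (.g (nat_lit 1) (.e (nat_lit 253349) (nat_lit 0) .nil) .nil))) 
(.lf (nat_lit 534271) (.g (nat_lit 1433) (.e (nat_lit 57476) (nat_lit 28) (.e (nat_lit 557067) (nat_lit 9) (.e (nat_lit 3022) (nat_lit 187) (.e (nat_lit 450580) (nat_lit 5) .nil)))) (.g (nat_lit 0) (.e (nat_lit 254292) (nat_lit 0) .nil) .nil)))) (.nd (nat_lit 9) 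
(.lf (nat_lit 534015) (.g (nat_lit 4876) (.e (nat_lit 57464) (nat_lit 23) (.e (nat_lit 516139) (nat_lit 7) (.e (nat_lit 409645) (nat_lit 18) (.e (nat_lit 303119) (nat_lit 3) (.e (nat_lit 204821) (nat_lit 17) (.e (nat_lit 6238) (nat_lit 336) (.e (nat_lit 229657) (nat_lit 235) .nil))))))) (.g (nat_lit 1) (.e (nat_lit 253904) (nat_lit 0) .nil) .nil))) 
(.lf (nat_lit 534527) (.g (nat_lit 2479) (.e (nat_lit 57479) (nat_lit 28) (.e (nat_lit 557105) (nat_lit 14) (.e (nat_lit 180252) (nat_lit 10) (.e (nat_lit 573489) (nat_lit 14) (.e (nat_lit 73747) (nat_lit 3) (.e (nat_lit 516100) (nat_lit 0) (.e (nat_lit 7936) (nat_lit 216) (.e (nat_lit 688167) (nat_lit 15) .nil)))))))) (.g (nat_lit 1) (.e (nat_lit 254741) (nat_lit 0) .nil) .nil)))))))))))))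

noncomputable def tv5582 : DT := (.nd (nat_lit 0) (.nd (nat_lit 1) (.nd (nat_lit 2) (.nd (nat_lit 3) (.nd (nat_lit 4) (.nd (nat_lit 5) (.nd (nat_lit 6) (.nd (nat_lit 7) (.nd (nat_lit 8) (.nd (nat_lit 9) 
(.lf (nat_lit 534528) (.g (nat_lit 2813) (.e (nat_lit 57479) (nat_lit 28) (.e (nat_lit 557105) (nat_lit 14) (.e (nat_lit 180252) (nat_lit 10) (.e (nat_lit 573489) (nat_lit 14) (.e (nat_lit 73748) (nat_lit 3) (.e (nat_lit 516097) (nat_lit 0) (.e (nat_lit 3455) (nat_lit 216) (.e (nat_lit 688167) (nat_lit 15) .nil)))))))) (.g (nat_lit 1) (.e (nat_lit 254742) (nat_lit 0) .nil) .nil))) 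
(.lf (nat_lit 535040) (.g (nat_lit 2851) (.e (nat_lit 57688) (nat_lit 156) (.e (nat_lit 163902) (nat_lit 12) (.e (nat_lit 426567) (nat_lit 34) (.e (nat_lit 393271) (nat_lit 23) (.e (nat_lit 426131) (nat_lit 3) .nil))))) (.g (nat_lit 0) (.e (nat_lit 256631) (nat_lit 0) .nil) .nil)))) (.nd (nat_lit 9) 
(.lf (nat_lit 534784) (.g (nat_lit 3557) (.e (nat_lit 57575) (nat_lit 55) (.e (nat_lit 778466) (nat_lit 11) (.e (nat_lit 24617) (nat_lit 7) (.e (nat_lit 319533) (nat_lit 16) (.e (nat_lit 286753) (nat_lit 10) (.e (nat_lit 344088) (nat_lit 18) (.e (nat_lit 5439) (nat_lit 306) (.e (nat_lit 1183) (nat_lit 87) .nil)))))))) (.g (nat_lit 1) (.e (nat_lit 255286) (nat_lit 0) .nil) .nil))) 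
(.lf (nat_lit 535296) (.g (nat_lit 3866) (.e (nat_lit 57819) (nat_lit 248) (.e (nat_lit 164375) (nat_lit 252) (.e (nat_lit 229433) (nat_lit 25) (.e (nat_lit 532535) (nat_lit 9) (.e (nat_lit 336099) (nat_lit 9) (.e (nat_lit 336013) (nat_lit 2) (.e (nat_lit 98048) (nat_lit 19) .nil))))))) (.g (nat_lit 1) (.e (nat_lit 257989) (nat_lit 0) .nil) .nil))))) (.nd (nat_lit 8) (.nd (nat_lit 9) 
(.lf (nat_lit 534656) (.g (nat_lit 4932) (.e (nat_lit 57572) (nat_lit 54) (.e (nat_lit 770072) (nat_lit 8) (.e (nat_lit 65571) (nat_lit 3) (.e (nat_lit 98359) (nat_lit 26) (.e (nat_lit 426286) (nat_lit 10) (.e (nat_lit 434248) (nat_lit 28) (.e (nat_lit 573474) (nat_lit 12) .nil))))))) (.g (nat_lit 1) (.e (nat_lit 255054) (nat_lit 0) .nil) .nil))) 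
(.lf (nat_lit 535168) (.g (nat_lit 2719) (.e (nat_lit 57692) (nat_lit 156) (.e (nat_lit 163905) (nat_lit 12) (.e (nat_lit 426438) (nat_lit 18) (.e (nat_lit 98358) (nat_lit 26) (.e (nat_lit 426323) (nat_lit 13) (.e (nat_lit 483366) (nat_lit 18) .nil)))))) (.g (nat_lit 1) (.e (nat_lit 257002) (nat_lit 0) .nil) .nil)))) (.nd (nat_lit 9) 
(.lf (nat_lit 534912) (.g (nat_lit 2504) (.e (nat_lit 57659) (nat_lit 152) (.e (nat_lit 2612) (nat_lit 163) (.e (nat_lit 163978) (nat_lit 30) (.e (nat_lit 573487) (nat_lit 14) (.e (nat_lit 73753) (nat_lit 8) .nil))))) (.g (nat_lit 0) (.e (nat_lit 256232) (nat_lit 0) .nil) .nil))) 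
(.lf (nat_lit 535424) (.g (nat_lit 1901) (.e (nat_lit 57847) (nat_lit 252) (.e (nat_lit 57375) (nat_lit 2) (.e (nat_lit 90158) (nat_lit 11) (.e (nat_lit 24628) (nat_lit 9) (.e (nat_lit 336375) (nat_lit 27) .nil))))) (.g (nat_lit 0) (.e (nat_lit 258271) (nat_lit 0) .nil) .nil)))))) (.nd (nat_lit 7) (.nd (nat_lit 8) (.nd (nat_lit 9) 
(.lf (nat_lit 534592) (.g (nat_lit 1985) (.e (nat_lit 57502) (nat_lit 38) (.e (nat_lit 638995) (nat_lit 7) (.e (nat_lit 163979) (nat_lit 30) (.e (nat_lit 573489) (nat_lit 14) (.e (nat_lit 73755) (nat_lit 8) .nil))))) (.g (nat_lit 0) (.e (nat_lit 254898) (nat_lit 0) .nil) .nil))) 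
(.lf (nat_lit 535104) (.g (nat_lit 2404) (.e (nat_lit 57691) (nat_lit 156) (.e (nat_lit 163871) (nat_lit 2) (.e (nat_lit 196656) (nat_lit 11) (.e (nat_lit 16458) (nat_lit 12) .nil)))) (.g (nat_lit 0) (.e (nat_lit 256845) (nat_lit 0) .nil) .nil)))) (.nd (nat_lit 9) 
(.lf (nat_lit 534848) (.g (nat_lit 2768) (.e (nat_lit 65280) (nat_lit 84) (.e (nat_lit 516131) (nat_lit 3) (.e (nat_lit 221215) (nat_lit 23) (.e (nat_lit 204861) (nat_lit 26) (.e (nat_lit 336004) (nat_lit 2) .nil))))) (.g (nat_lit 0) (.e (nat_lit 255869) (nat_lit 0) .nil) .nil))) 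
(.lf (nat_lit 535360) (.g (nat_lit 1797) (.e (nat_lit 57844) (nat_lit 252) (.e (nat_lit 57379) (nat_lit 3) (.e (nat_lit 98341) (nat_lit 20) (.e (nat_lit 221210) (nat_lit 22) .nil)))) (.g (nat_lit 0) (.e (nat_lit 258177) (nat_lit 0) .nil) .nil))))) (.nd (nat_lit 8) (.nd (nat_lit 9) 
(.lf (nat_lit 534720) (.g (nat_lit 1895) (.e (nat_lit 57574) (nat_lit 55) (.e (nat_lit 778466) (nat_lit 11) (.e (nat_lit 24604) (nat_lit 2) (.e (nat_lit 90178) (nat_lit 15) (.e (nat_lit 188440) (nat_lit 20) .nil))))) (.g (nat_lit 0) (.e (nat_lit 255165) (nat_lit 0) .nil) .nil))) 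
(.lf (nat_lit 535232) (.g (nat_lit 1880) (.e (nat_lit 57713) (nat_lit 176) (.e (nat_lit 1348) (nat_lit 102) (.e (nat_lit 286735) (nat_lit 3) (.e (nat_lit 98354) (nat_lit 26) .nil)))) (.g (nat_lit 0) (.e (nat_lit 257349) (nat_lit 0) .nil) .nil)))) (.nd (nat_lit 9) 
(.lf (nat_lit 534976) (.g (nat_lit 1928) (.e (nat_lit 57687) (nat_lit 156) (.e (nat_lit 163902) (nat_lit 12) (.e (nat_lit 426438) (nat_lit 18) (.e (nat_lit 98365) (nat_lit 26) (.e (nat_lit 426334) (nat_lit 13) .nil))))) (.g (nat_lit 0) (.e (nat_lit 256472) (nat_lit 0) .nil) .nil))) 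
(.lf (nat_lit 535488) (.g (nat_lit 3158) (.e (nat_lit 57848) (nat_lit 252) (.e (nat_lit 57375) (nat_lit 2) (.e (nat_lit 90159) (nat_lit 11) (.e (nat_lit 24626) (nat_lit 9) (.e (nat_lit 336454) (nat_lit 34) (.e (nat_lit 483365) (nat_lit 18) .nil)))))) (.g (nat_lit 1) (.e (nat_lit 258360) (nat_lit 0) .nil) .nil))))))) (.nd (nat_lit 6) (.nd (nat_lit 7) (.nd (nat_lit 8) (.nd (nat_lit 9) 
(.lf (nat_lit 534560) (.g (nat_lit 2280) (.e (nat_lit 57480) (nat_lit 28) (.e (nat_lit 557107) (nat_lit 15) (.e (nat_lit 188450) (nat_lit 23) (.e (nat_lit 204852) (nat_lit 26) (.e (nat_lit 343808) (nat_lit 15) (.e (nat_lit 3716) (nat_lit 227) (.e (nat_lit 778316) (nat_lit 3) .nil))))))) (.g (nat_lit 1) (.e (nat_lit 254845) (nat_lit 0) .nil) .nil))) 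
(.lf (nat_lit 535072) (.g (nat_lit 628) (.e (nat_lit 57688) (nat_lit 156) (.e (nat_lit 163907) (nat_lit 12) (.e (nat_lit 426436) (nat_lit 18) .nil))) (.g (nat_lit 0) (.e (nat_lit 256680) (nat_lit 0) .nil) .nil)))) (.nd (nat_lit 9) 
(.lf (nat_lit 534816) (.g (nat_lit 2045) (.e (nat_lit 65280) (nat_lit 65) (.e (nat_lit 213030) (nat_lit 11) (.e (nat_lit 24617) (nat_lit 7) (.e (nat_lit 319533) (nat_lit 16) (.e (nat_lit 286753) (nat_lit 10) .nil))))) (.g (nat_lit 0) (.e (nat_lit 255592) (nat_lit 0) .nil) .nil))) 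
(.lf (nat_lit 535328) (.g (nat_lit 1941) (.e (nat_lit 57829) (nat_lit 250) (.e (nat_lit 1183) (nat_lit 87) (.e (nat_lit 57478) (nat_lit 28) (.e (nat_lit 557105) (nat_lit 14) (.e (nat_lit 180251) (nat_lit 10) .nil))))) (.g (nat_lit 0) (.e (nat_lit 258079) (nat_lit 0) .nil) .nil))))) (.nd (nat_lit 8) (.nd (nat_lit 9) 
(.lf (nat_lit 534688) (.g (nat_lit 2646) (.e (nat_lit 57574) (nat_lit 55) (.e (nat_lit 778465) (nat_lit 11) (.e (nat_lit 24607) (nat_lit 3) (.e (nat_lit 98372) (nat_lit 29) (.e (nat_lit 450587) (nat_lit 10) (.e (nat_lit 573477) (nat_lit 12) .nil)))))) (.g (nat_lit 1) (.e (nat_lit 255093) (nat_lit 0) .nil) .nil))) 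
(.lf (nat_lit 535200) (.g (nat_lit 703) (.e (nat_lit 65280) (nat_lit 156) (.e (nat_lit 163903) (nat_lit 12) (.e (nat_lit 426479) (nat_lit 27) .nil))) (.g (nat_lit 0) (.e (nat_lit 257116) (nat_lit 0) .nil) .nil)))) (.nd (nat_lit 9) 
(.lf (nat_lit 534944) (.g (nat_lit 1350) (.e (nat_lit 57686) (nat_lit 156) (.e (nat_lit 163902) (nat_lit 12) (.e (nat_lit 426568) (nat_lit 34) (.e (nat_lit 393277) (nat_lit 23) .nil)))) (.g (nat_lit 0) (.e (nat_lit 256392) (nat_lit 0) .nil) .nil))) 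
(.lf (nat_lit 535456) (.g (nat_lit 3117) (.e (nat_lit 57847) (nat_lit 252) (.e (nat_lit 57411) (nat_lit 12) (.e (nat_lit 336316) (nat_lit 17) (.e (nat_lit 196666) (nat_lit 13) (.e (nat_lit 65610) (nat_lit 10) (.e (nat_lit 344090) (nat_lit 18) (.e (nat_lit 7695) (nat_lit 412) (.e (nat_lit 57367) (nat_lit 1) .nil)))))))) (.g (nat_lit 1) (.e (nat_lit 258313) (nat_lit 0) .nil) .nil)))))) 
(.nd (nat_lit 7) (.nd (nat_lit 8) (.nd (nat_lit 9) 
(.lf (nat_lit 534624) (.g (nat_lit 4832) (.e (nat_lit 57508) (nat_lit 39) (.e (nat_lit 647175) (nat_lit 0) (.e (nat_lit 2684) (nat_lit 168) (.e (nat_lit 204862) (nat_lit 27) (.e (nat_lit 344133) (nat_lit 26) (.e (nat_lit 557105) (nat_lit 14) (.e (nat_lit 180252) (nat_lit 10) (.e (nat_lit 573474) (nat_lit 12) .nil)))))))) (.g (nat_lit 1) (.e (nat_lit 254960) (nat_lit 0) .nil) .nil))) 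
(.lf (nat_lit 535136) (.g (nat_lit 367) (.e (nat_lit 57691) (nat_lit 156) (.e (nat_lit 163907) (nat_lit 12) (.e (nat_lit 426568) (nat_lit 34) .nil))) (.g (nat_lit 0) (.e (nat_lit 256917) (nat_lit 0) .nil) .nil)))) (.nd (nat_lit 9) 
(.lf (nat_lit 534880) (.g (nat_lit 2152) (.e (nat_lit 57610) (nat_lit 109) (.e (nat_lit 720909) (nat_lit 11) (.e (nat_lit 426187) (nat_lit 9) (.e (nat_lit 426550) (nat_lit 31) (.e (nat_lit 368656) (nat_lit 14) (.e (nat_lit 57815) (nat_lit 246) .nil)))))) (.g (nat_lit 1) (.e (nat_lit 255976) (nat_lit 0) .nil) .nil))) 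
(.lf (nat_lit 535392) (.g (nat_lit 2336) (.e (nat_lit 57846) (nat_lit 252) (.e (nat_lit 57372) (nat_lit 2) (.e (nat_lit 90160) (nat_lit 11) (.e (nat_lit 24636) (nat_lit 9) (.e (nat_lit 336453) (nat_lit 34) (.e (nat_lit 483366) (nat_lit 18) .nil)))))) (.g (nat_lit 1) (.e (nat_lit 258223) (nat_lit 0) .nil) .nil))))) (.nd (nat_lit 8) (.nd (nat_lit 9) 
(.lf (nat_lit 534752) (.g (nat_lit 2563) (.e (nat_lit 57574) (nat_lit 55) (.e (nat_lit 778466) (nat_lit 11) (.e (nat_lit 24617) (nat_lit 7) (.e (nat_lit 319533) (nat_lit 16) (.e (nat_lit 286751) (nat_lit 10) .nil))))) (.g (nat_lit 0) (.e (nat_lit 255202) (nat_lit 0) .nil) .nil))) 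
(.lf (nat_lit 535264) (.g (nat_lit 4132) (.e (nat_lit 57750) (nat_lit 201) (.e (nat_lit 3067) (nat_lit 190) (.e (nat_lit 475184) (nat_lit 29) (.e (nat_lit 557101) (nat_lit 13) (.e (nat_lit 172097) (nat_lit 9) (.e (nat_lit 426125) (nat_lit 2) (.e (nat_lit 196661) (nat_lit 12) .nil))))))) (.g (nat_lit 1) (.e (nat_lit 257529) (nat_lit 0) .nil) .nil)))) (.nd (nat_lit 9) 
(.lf (nat_lit 535008) (.g (nat_lit 2007) (.e (nat_lit 57687) (nat_lit 156) (.e (nat_lit 163933) (nat_lit 17) (.e (nat_lit 466972) (nat_lit 21) (.e (nat_lit 164332) (nat_lit 230) (.e (nat_lit 163862) (nat_lit 1) .nil))))) (.g (nat_lit 0) (.e (nat_lit 256541) (nat_lit 0) .nil) .nil))) 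
(.lf (nat_lit 535520) (.g (nat_lit 1479) (.e (nat_lit 57848) (nat_lit 252) (.e (nat_lit 57407) (nat_lit 12) (.e (nat_lit 336456) (nat_lit 34) (.e (nat_lit 483393) (nat_lit 23) (.e (nat_lit 336291) (nat_lit 15) .nil))))) (.g (nat_lit 0) (.e (nat_lit 258413) (nat_lit 0) .nil) .nil)))))))) (.nd (nat_lit 5) (.nd (nat_lit 6) (.nd (nat_lit 7) (.nd (nat_lit 8) (.nd (nat_lit 9) 
(.lf (nat_lit 534544) (.g (nat_lit 4027) (.e (nat_lit 57480) (nat_lit 28) (.e (nat_lit 557098) (nat_lit 13) (.e (nat_lit 172115) (nat_lit 10) (.e (nat_lit 434231) (nat_lit 23) (.e (nat_lit 532529) (nat_lit 9) (.e (nat_lit 336296) (nat_lit 15) (.e (nat_lit 3716) (nat_lit 227) (.e (nat_lit 778316) (nat_lit 3) .nil)))))))) (.g (nat_lit 1) (.e (nat_lit 254825) (nat_lit 0) .nil) .nil))) 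
(.lf (nat_lit 535056) (.g (nat_lit 3331) (.e (nat_lit 57688) (nat_lit 156) (.e (nat_lit 163903) (nat_lit 12) (.e (nat_lit 426566) (nat_lit 34) (.e (nat_lit 393272) (nat_lit 23) (.e (nat_lit 426131) (nat_lit 3) (.e (nat_lit 204829) (nat_lit 18) .nil)))))) (.g (nat_lit 1) (.e (nat_lit 256652) (nat_lit 0) .nil) .nil)))) (.nd (nat_lit 9) 
(.lf (nat_lit 534800) (.g (nat_lit 2897) (.e (nat_lit 57540) (nat_lit 46) (.e (nat_lit 704738) (nat_lit 11) (.e (nat_lit 16425) (nat_lit 7) (.e (nat_lit 409648) (nat_lit 18) (.e (nat_lit 303137) (nat_lit 10) .nil))))) (.g (nat_lit 0) (.e (nat_lit 255398) (nat_lit 0) .nil) .nil))) 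
(.lf (nat_lit 535312) (.g (nat_lit 1249) (.e (nat_lit 57810) (nat_lit 246) (.e (nat_lit 57879) (nat_lit 270) (.e (nat_lit 496) (nat_lit 39) (.e (nat_lit 483391) (nat_lit 23) (.e (nat_lit 336319) (nat_lit 17) (.e (nat_lit 196698) (nat_lit 19) .nil)))))) (.g (nat_lit 1) (.e (nat_lit 258012) (nat_lit 0) .nil) .nil))))) (.nd (nat_lit 8) (.nd (nat_lit 9) 
(.lf (nat_lit 534672) (.g (nat_lit 3359) (.e (nat_lit 57574) (nat_lit 55) (.e (nat_lit 778465) (nat_lit 11) (.e (nat_lit 24604) (nat_lit 2) (.e (nat_lit 90170) (nat_lit 13) (.e (nat_lit 172105) (nat_lit 10) (.e (nat_lit 434247) (nat_lit 28) (.e (nat_lit 573477) (nat_lit 12) .nil))))))) (.g (nat_lit 1) (.e (nat_lit 255077) (nat_lit 0) .nil) .nil))) 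
(.lf (nat_lit 535184) (.g (nat_lit 2084) (.e (nat_lit 57692) (nat_lit 156) (.e (nat_lit 163907) (nat_lit 12) (.e (nat_lit 426428) (nat_lit 17) (.e (nat_lit 90170) (nat_lit 13) (.e (nat_lit 172122) (nat_lit 13) .nil))))) (.g (nat_lit 0) (.e (nat_lit 257061) (nat_lit 0) .nil) .nil)))) (.nd (nat_lit 9) 
(.lf (nat_lit 534928) (.g (nat_lit 2946) (.e (nat_lit 57686) (nat_lit 156) (.e (nat_lit 163875) (nat_lit 3) (.e (nat_lit 204830) (nat_lit 18) (.e (nat_lit 57852) (nat_lit 252) (.e (nat_lit 57431) (nat_lit 16) .nil))))) (.g (nat_lit 0) (.e (nat_lit 256373) (nat_lit 0) .nil) .nil))) 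
(.lf (nat_lit 535440) (.g (nat_lit 3622) (.e (nat_lit 57847) (nat_lit 252) (.e (nat_lit 57407) (nat_lit 12) (.e (nat_lit 336316) (nat_lit 17) (.e (nat_lit 196666) (nat_lit 13) (.e (nat_lit 65610) (nat_lit 10) (.e (nat_lit 344090) (nat_lit 18) (.e (nat_lit 7695) (nat_lit 412) (.e (nat_lit 57363) (nat_lit 1) .nil)))))))) (.g (nat_lit 1) (.e (nat_lit 258294) (nat_lit 0) .nil) .nil)))))) 
(.nd (nat_lit 7) (.nd (nat_lit 8) (.nd (nat_lit 9) 
(.lf (nat_lit 534608) (.g (nat_lit 946) (.e (nat_lit 57503) (nat_lit 38) (.e (nat_lit 638995) (nat_lit 7) (.e (nat_lit 163979) (nat_lit 30) (.e (nat_lit 573489) (nat_lit 14) .nil)))) (.g (nat_lit 0) (.e (nat_lit 254915) (nat_lit 0) .nil) .nil))) 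
(.lf (nat_lit 535120) (.g (nat_lit 2415) (.e (nat_lit 57691) (nat_lit 156) (.e (nat_lit 163905) (nat_lit 12) (.e (nat_lit 426566) (nat_lit 34) (.e (nat_lit 393282) (nat_lit 24) (.e (nat_lit 434231) (nat_lit 23) .nil))))) (.g (nat_lit 0) (.e (nat_lit 256870) (nat_lit 0) .nil) .nil)))) (.nd (nat_lit 9) 
(.lf (nat_lit 534864) (.g (nat_lit 2089) (.e (nat_lit 57615) (nat_lit 116) (.e (nat_lit 778466) (nat_lit 11) (.e (nat_lit 24617) (nat_lit 7) (.e (nat_lit 319534) (nat_lit 16) .nil)))) (.g (nat_lit 0) (.e (nat_lit 255900) (nat_lit 0) .nil) .nil))) 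
(.lf (nat_lit 535376) (.g (nat_lit 1648) (.e (nat_lit 57845) (nat_lit 252) (.e (nat_lit 57371) (nat_lit 2) (.e (nat_lit 90160) (nat_lit 11) (.e (nat_lit 24628) (nat_lit 9) .nil)))) (.g (nat_lit 0) (.e (nat_lit 258205) (nat_lit 0) .nil) .nil))))) (.nd (nat_lit 8) (.nd (nat_lit 9) 
(.lf (nat_lit 534736) (.g (nat_lit 4054) (.e (nat_lit 57574) (nat_lit 55) (.e (nat_lit 778466) (nat_lit 11) (.e (nat_lit 24608) (nat_lit 3) (.e (nat_lit 98356) (nat_lit 26) (.e (nat_lit 426273) (nat_lit 10) (.e (nat_lit 434248) (nat_lit 28) (.e (nat_lit 573475) (nat_lit 12) .nil))))))) (.g (nat_lit 1) (.e (nat_lit 255184) (nat_lit 0) .nil) .nil))) 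
(.lf (nat_lit 535248) (.g (nat_lit 1881) (.e (nat_lit 57717) (nat_lit 176) (.e (nat_lit 1348) (nat_lit 102) (.e (nat_lit 286735) (nat_lit 3) (.e (nat_lit 98382) (nat_lit 31) .nil)))) (.g (nat_lit 0) (.e (nat_lit 257382) (nat_lit 0) .nil) .nil)))) (.nd (nat_lit 9) 
(.lf (nat_lit 534992) (.g (nat_lit 1592) (.e (nat_lit 57687) (nat_lit 156) (.e (nat_lit 163903) (nat_lit 12) (.e (nat_lit 426568) (nat_lit 34) (.e (nat_lit 393281) (nat_lit 23) .nil)))) (.g (nat_lit 0) (.e (nat_lit 256490) (nat_lit 0) .nil) .nil))) 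
(.lf (nat_lit 535504) (.g (nat_lit 1417) (.e (nat_lit 57848) (nat_lit 252) (.e (nat_lit 57407) (nat_lit 12) (.e (nat_lit 336367) (nat_lit 27) (.e (nat_lit 426530) (nat_lit 27) (.e (nat_lit 336118) (nat_lit 9) .nil))))) (.g (nat_lit 0) (.e (nat_lit 258397) (nat_lit 0) .nil) .nil))))))) (.nd (nat_lit 6) (.nd (nat_lit 7) (.nd (nat_lit 8) (.nd (nat_lit 9) 
(.lf (nat_lit 534576) (.g (nat_lit 3294) (.e (nat_lit 57480) (nat_lit 28) (.e (nat_lit 557109) (nat_lit 15) (.e (nat_lit 188449) (nat_lit 22) (.e (nat_lit 196666) (nat_lit 13) (.e (nat_lit 65639) (nat_lit 15) (.e (nat_lit 3714) (nat_lit 227) (.e (nat_lit 786176) (nat_lit 3) .nil))))))) (.g (nat_lit 1) (.e (nat_lit 254861) (nat_lit 0) .nil) .nil))) 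
(.lf (nat_lit 535088) (.g (nat_lit 2105) (.e (nat_lit 57688) (nat_lit 156) (.e (nat_lit 163933) (nat_lit 17) (.e (nat_lit 466972) (nat_lit 21) (.e (nat_lit 164182) (nat_lit 154) (.e (nat_lit 65280) (nat_lit 65) .nil))))) (.g (nat_lit 0) (.e (nat_lit 256765) (nat_lit 0) .nil) .nil)))) (.nd (nat_lit 9) 
(.lf (nat_lit 534832) (.g (nat_lit 3886) (.e (nat_lit 57592) (nat_lit 73) (.e (nat_lit 426316) (nat_lit 12) (.e (nat_lit 475185) (nat_lit 29) (.e (nat_lit 557100) (nat_lit 13) (.e (nat_lit 172113) (nat_lit 10) .nil))))) (.g (nat_lit 0) (.e (nat_lit 255745) (nat_lit 0) .nil) .nil))) 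
(.lf (nat_lit 535344) (.g (nat_lit 2276) (.e (nat_lit 57857) (nat_lit 254) (.e (nat_lit 163908) (nat_lit 12) (.e (nat_lit 426171) (nat_lit 7) (.e (nat_lit 409649) (nat_lit 18) (.e (nat_lit 303146) (nat_lit 14) .nil))))) (.g (nat_lit 0) (.e (nat_lit 258128) (nat_lit 0) .nil) .nil))))) (.nd (nat_lit 8) (.nd (nat_lit 9) 
(.lf (nat_lit 534704) (.g (nat_lit 2244) (.e (nat_lit 57574) (nat_lit 55) (.e (nat_lit 778466) (nat_lit 11) (.e (nat_lit 24604) (nat_lit 2) (.e (nat_lit 90169) (nat_lit 13) (.e (nat_lit 172112) (nat_lit 10) .nil))))) (.g (nat_lit 0) (.e (nat_lit 255148) (nat_lit 0) .nil) .nil))) 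
(.lf (nat_lit 535216) (.g (nat_lit 1862) (.e (nat_lit 65280) (nat_lit 168) (.e (nat_lit 163874) (nat_lit 3) (.e (nat_lit 204863) (nat_lit 27) (.e (nat_lit 344131) (nat_lit 26) .nil)))) (.g (nat_lit 0) (.e (nat_lit 257282) (nat_lit 0) .nil) .nil)))) (.nd (nat_lit 9) 
(.lf (nat_lit 534960) (.g (nat_lit 734) (.e (nat_lit 57686) (nat_lit 156) (.e (nat_lit 163905) (nat_lit 12) (.e (nat_lit 426479) (nat_lit 27) .nil))) (.g (nat_lit 0) (.e (nat_lit 256409) (nat_lit 0) .nil) .nil))) 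
(.lf (nat_lit 535472) (.g (nat_lit 2612) (.e (nat_lit 57848) (nat_lit 252) (.e (nat_lit 57372) (nat_lit 2) (.e (nat_lit 90159) (nat_lit 11) (.e (nat_lit 24625) (nat_lit 9) (.e (nat_lit 336454) (nat_lit 34) (.e (nat_lit 483366) (nat_lit 18) .nil)))))) (.g (nat_lit 1) (.e (nat_lit 258335) (nat_lit 0) .nil) .nil)))))) (.nd (nat_lit 7) (.nd (nat_lit 8) (.nd (nat_lit 9) 
(.lf (nat_lit 534640) (.g (nat_lit 4986) (.e (nat_lit 57572) (nat_lit 54) (.e (nat_lit 770071) (nat_lit 8) (.e (nat_lit 65571) (nat_lit 3) (.e (nat_lit 98359) (nat_lit 26) (.e (nat_lit 426286) (nat_lit 10) (.e (nat_lit 434245) (nat_lit 28) (.e (nat_lit 573474) (nat_lit 12) .nil))))))) (.g (nat_lit 1) (.e (nat_lit 255033) (nat_lit 0) .nil) .nil))) 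
(.lf (nat_lit 535152) (.g (nat_lit 1256) (.e (nat_lit 57692) (nat_lit 156) (.e (nat_lit 163874) (nat_lit 3) (.e (nat_lit 204837) (nat_lit 20) (.e (nat_lit 114718) (nat_lit 23) .nil)))) (.g (nat_lit 0) (.e (nat_lit 256976) (nat_lit 0) .nil) .nil)))) (.nd (nat_lit 9) 
(.lf (nat_lit 534896) (.g (nat_lit 1381) (.e (nat_lit 57610) (nat_lit 109) (.e (nat_lit 720909) (nat_lit 11) (.e (nat_lit 426197) (nat_lit 9) (.e (nat_lit 426550) (nat_lit 31) (.e (nat_lit 368656) (nat_lit 14) (.e (nat_lit 57808) (nat_lit 246) .nil)))))) (.g (nat_lit 1) (.e (nat_lit 255992) (nat_lit 0) .nil) .nil))) 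
(.lf (nat_lit 535408) (.g (nat_lit 1696) (.e (nat_lit 57846) (nat_lit 252) (.e (nat_lit 57407) (nat_lit 12) (.e (nat_lit 336456) (nat_lit 34) (.e (nat_lit 483407) (nat_lit 26) .nil)))) (.g (nat_lit 0) (.e (nat_lit 258251) (nat_lit 0) .nil) .nil))))) (.nd (nat_lit 8) (.nd (nat_lit 9) 
(.lf (nat_lit 534768) (.g (nat_lit 3095) (.e (nat_lit 57575) (nat_lit 55) (.e (nat_lit 778465) (nat_lit 11) (.e (nat_lit 24604) (nat_lit 2) (.e (nat_lit 90178) (nat_lit 15) (.e (nat_lit 188440) (nat_lit 20) (.e (nat_lit 3304) (nat_lit 202) (.e (nat_lit 573477) (nat_lit 12) .nil))))))) (.g (nat_lit 1) (.e (nat_lit 255266) (nat_lit 0) .nil) .nil))) 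
(.lf (nat_lit 535280) (.g (nat_lit 3047) (.e (nat_lit 65280) (nat_lit 201) (.e (nat_lit 3063) (nat_lit 190) (.e (nat_lit 475185) (nat_lit 29) (.e (nat_lit 557098) (nat_lit 13) (.e (nat_lit 172097) (nat_lit 9) .nil))))) (.g (nat_lit 0) (.e (nat_lit 257804) (nat_lit 0) .nil) .nil)))) (.nd (nat_lit 9) 
(.lf (nat_lit 535024) (.g (nat_lit 3042) (.e (nat_lit 57688) (nat_lit 156) (.e (nat_lit 163875) (nat_lit 3) (.e (nat_lit 204838) (nat_lit 20) (.e (nat_lit 114718) (nat_lit 23) (.e (nat_lit 98365) (nat_lit 26) (.e (nat_lit 426133) (nat_lit 3) (.e (nat_lit 204829) (nat_lit 18) .nil))))))) (.g (nat_lit 1) (.e (nat_lit 256605) (nat_lit 0) .nil) .nil))) 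
(.lf (nat_lit 535536) (.g (nat_lit 3102) (.e (nat_lit 57849) (nat_lit 252) (.e (nat_lit 57372) (nat_lit 2) (.e (nat_lit 90158) (nat_lit 11) (.e (nat_lit 24608) (nat_lit 3) (.e (nat_lit 98321) (nat_lit 17) (.e (nat_lit 3771) (nat_lit 229) (.e (nat_lit 794673) (nat_lit 23) (.e (nat_lit 204831) (nat_lit 18) .nil)))))))) (.g (nat_lit 1) (.e (nat_lit 258429) (nat_lit 0) .nil) .nil))))))))) 
(.nd (nat_lit 4) (.nd (nat_lit 5) (.nd (nat_lit 6) (.nd (nat_lit 7) (.nd (nat_lit 8) 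
(.nd (nat_lit 9) 
(.lf (nat_lit 534536) (.g (nat_lit 3884) (.e (nat_lit 57480) (nat_lit 28) (.e (nat_lit 557098) (nat_lit 13) (.e (nat_lit 172097) (nat_lit 9) (.e (nat_lit 426125) (nat_lit 2) (.e (nat_lit 196666) (nat_lit 13) (.e (nat_lit 65639) (nat_lit 15) (.e (nat_lit 3714) (nat_lit 227) (.e (nat_lit 786176) (nat_lit 3) .nil)))))))) (.g (nat_lit 1) (.e (nat_lit 254817) (nat_lit 0) .nil) .nil))) 
(.lf (nat_lit 535048) (.g (nat_lit 2655) (.e (nat_lit 57688) (nat_lit 156) (.e (nat_lit 163903) (nat_lit 12) (.e (nat_lit 426436) (nat_lit 18) (.e (nat_lit 98381) (nat_lit 31) (.e (nat_lit 466954) (nat_lit 11) (.e (nat_lit 335994) (nat_lit 1) .nil)))))) (.g (nat_lit 1) (.e (nat_lit 256640) (nat_lit 0) .nil) .nil)))) (.nd (nat_lit 9) 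
(.lf (nat_lit 534792) (.g (nat_lit 415) (.e (nat_lit 57521) (nat_lit 44) (.e (nat_lit 688177) (nat_lit 16) (.e (nat_lit 73472) (nat_lit 27) .nil))) (.g (nat_lit 0) (.e (nat_lit 255308) (nat_lit 0) .nil) .nil))) 
(.lf (nat_lit 535304) (.g (nat_lit 1609) (.e (nat_lit 57809) (nat_lit 246) (.e (nat_lit 57879) (nat_lit 270) (.e (nat_lit 496) (nat_lit 39) (.e (nat_lit 483383) (nat_lit 23) (.e (nat_lit 343808) (nat_lit 17) (.e (nat_lit 196698) (nat_lit 19) .nil)))))) (.g (nat_lit 1) (.e (nat_lit 258001) (nat_lit 0) .nil) .nil))))) (.nd (nat_lit 8) (.nd (nat_lit 9) 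
(.lf (nat_lit 534664) (.g (nat_lit 964) (.e (nat_lit 57574) (nat_lit 55) (.e (nat_lit 778362) (nat_lit 9) (.e (nat_lit 307) (nat_lit 22) (.e (nat_lit 344107) (nat_lit 19) .nil)))) (.g (nat_lit 0) (.e (nat_lit 255067) (nat_lit 0) .nil) .nil))) 
(.lf (nat_lit 535176) (.g (nat_lit 1003) (.e (nat_lit 57692) (nat_lit 156) (.e (nat_lit 163905) (nat_lit 12) (.e (nat_lit 426568) (nat_lit 34) (.e (nat_lit 393281) (nat_lit 23) .nil)))) (.g (nat_lit 0) (.e (nat_lit 257028) (nat_lit 0) .nil) .nil)))) (.nd (nat_lit 9) 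
(.lf (nat_lit 534920) (.g (nat_lit 1366) (.e (nat_lit 57685) (nat_lit 156) (.e (nat_lit 163902) (nat_lit 12) (.e (nat_lit 426438) (nat_lit 18) (.e (nat_lit 98380) (nat_lit 31) .nil)))) (.g (nat_lit 0) (.e (nat_lit 256344) (nat_lit 0) .nil) .nil))) 
(.lf (nat_lit 535432) (.g (nat_lit 2255) (.e (nat_lit 57847) (nat_lit 252) (.e (nat_lit 57379) (nat_lit 3) (.e (nat_lit 98342) (nat_lit 20) (.e (nat_lit 221210) (nat_lit 22) (.e (nat_lit 196665) (nat_lit 13) (.e (nat_lit 65637) (nat_lit 15) (.e (nat_lit 3253) (nat_lit 197) (.e (nat_lit 532503) (nat_lit 1) .nil)))))))) (.g (nat_lit 1) (.e (nat_lit 258282) (nat_lit 0) .nil) .nil)))))) 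
(.nd (nat_lit 7) (.nd (nat_lit 8) (.nd (nat_lit 9) 
(.lf (nat_lit 534600) (.g (nat_lit 2837) (.e (nat_lit 57502) (nat_lit 38) (.e (nat_lit 638996) (nat_lit 7) (.e (nat_lit 163979) (nat_lit 30) (.e (nat_lit 573487) (nat_lit 14) (.e (nat_lit 73754) (nat_lit 8) .nil))))) (.g (nat_lit 0) (.e (nat_lit 254906) (nat_lit 0) .nil) .nil))) 
(.lf (nat_lit 535112) (.g (nat_lit 3923) (.e (nat_lit 57691) (nat_lit 156) (.e (nat_lit 163875) (nat_lit 3) (.e (nat_lit 204838) (nat_lit 20) (.e (nat_lit 114718) (nat_lit 23) (.e (nat_lit 98367) (nat_lit 27) (.e (nat_lit 434232) (nat_lit 23) (.e (nat_lit 532504) (nat_lit 1) .nil))))))) (.g (nat_lit 1) (.e (nat_lit 256853) (nat_lit 0) .nil) .nil)))) (.nd (nat_lit 9) 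
(.lf (nat_lit 534856) (.g (nat_lit 2208) (.e (nat_lit 57611) (nat_lit 116) (.e (nat_lit 778466) (nat_lit 11) (.e (nat_lit 24617) (nat_lit 7) (.e (nat_lit 319533) (nat_lit 16) .nil)))) (.g (nat_lit 0) (.e (nat_lit 255887) (nat_lit 0) .nil) .nil))) 
(.lf (nat_lit 535368) (.g (nat_lit 640) (.e (nat_lit 57844) (nat_lit 252) (.e (nat_lit 57390) (nat_lit 5) (.e (nat_lit 114697) (nat_lit 11) (.e (nat_lit 426198) (nat_lit 9) .nil)))) (.g (nat_lit 0) (.e (nat_lit 258197) (nat_lit 0) .nil) .nil))))) (.nd (nat_lit 8) (.nd (nat_lit 9) 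
(.lf (nat_lit 534728) (.g (nat_lit 2616) (.e (nat_lit 57574) (nat_lit 55) (.e (nat_lit 778466) (nat_lit 11) (.e (nat_lit 24607) (nat_lit 3) (.e (nat_lit 98372) (nat_lit 29) (.e (nat_lit 450587) (nat_lit 10) (.e (nat_lit 573477) (nat_lit 12) .nil)))))) (.g (nat_lit 1) (.e (nat_lit 255174) (nat_lit 0) .nil) .nil))) 
(.lf (nat_lit 535240) (.g (nat_lit 1934) (.e (nat_lit 57714) (nat_lit 176) (.e (nat_lit 1348) (nat_lit 102) (.e (nat_lit 286735) (nat_lit 3) (.e (nat_lit 98360) (nat_lit 26) .nil)))) (.g (nat_lit 0) (.e (nat_lit 257364) (nat_lit 0) .nil) .nil)))) (.nd (nat_lit 9) 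
(.lf (nat_lit 534984) (.g (nat_lit 1969) (.e (nat_lit 57687) (nat_lit 156) (.e (nat_lit 163903) (nat_lit 12) (.e (nat_lit 426436) (nat_lit 18) (.e (nat_lit 98358) (nat_lit 26) (.e (nat_lit 426323) (nat_lit 13) .nil))))) (.g (nat_lit 0) (.e (nat_lit 256482) (nat_lit 0) .nil) .nil))) 
(.lf (nat_lit 535496) (.g (nat_lit 1363) (.e (nat_lit 57848) (nat_lit 252) (.e (nat_lit 57388) (nat_lit 5) (.e (nat_lit 114698) (nat_lit 11) (.e (nat_lit 426186) (nat_lit 9) .nil)))) (.g (nat_lit 0) (.e (nat_lit 258377) (nat_lit 0) .nil) .nil))))))) (.nd (nat_lit 6) (.nd (nat_lit 7) (.nd (nat_lit 8) (.nd (nat_lit 9) 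
(.lf (nat_lit 534568) (.g (nat_lit 3358) (.e (nat_lit 57480) (nat_lit 28) (.e (nat_lit 557109) (nat_lit 15) (.e (nat_lit 188447) (nat_lit 22) (.e (nat_lit 196666) (nat_lit 13) (.e (nat_lit 65639) (nat_lit 15) (.e (nat_lit 3711) (nat_lit 227) (.e (nat_lit 786176) (nat_lit 3) .nil))))))) (.g (nat_lit 1) (.e (nat_lit 254853) (nat_lit 0) .nil) .nil))) 
(.lf (nat_lit 535080) (.g (nat_lit 854) (.e (nat_lit 57688) (nat_lit 156) (.e (nat_lit 163907) (nat_lit 12) (.e (nat_lit 426487) (nat_lit 27) .nil))) (.g (nat_lit 0) (.e (nat_lit 256691) (nat_lit 0) .nil) .nil)))) (.nd (nat_lit 9) 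
(.lf (nat_lit 534824) (.g (nat_lit 4663) (.e (nat_lit 57588) (nat_lit 73) (.e (nat_lit 426124) (nat_lit 2) (.e (nat_lit 196681) (nat_lit 17) (.e (nat_lit 131086) (nat_lit 1) (.e (nat_lit 57854) (nat_lit 252) (.e (nat_lit 57378) (nat_lit 3) (.e (nat_lit 98334) (nat_lit 18) (.e (nat_lit 164399) (nat_lit 256) .nil)))))))) (.g (nat_lit 1) (.e (nat_lit 255670) (nat_lit 0) .nil) .nil))) 
(.lf (nat_lit 535336) (.g (nat_lit 2624) (.e (nat_lit 57830) (nat_lit 250) (.e (nat_lit 1183) (nat_lit 87) (.e (nat_lit 57480) (nat_lit 28) (.e (nat_lit 557105) (nat_lit 14) (.e (nat_lit 180251) (nat_lit 10) .nil))))) (.g (nat_lit 0) (.e (nat_lit 258093) (nat_lit 0) .nil) .nil))))) (.nd (nat_lit 8) (.nd (nat_lit 9) 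
(.lf (nat_lit 534696) (.g (nat_lit 5217) (.e (nat_lit 57574) (nat_lit 55) (.e (nat_lit 778466) (nat_lit 11) (.e (nat_lit 24603) (nat_lit 2) (.e (nat_lit 90178) (nat_lit 15) (.e (nat_lit 188440) (nat_lit 20) (.e (nat_lit 3307) (nat_lit 202) (.e (nat_lit 573477) (nat_lit 12) .nil))))))) (.g (nat_lit 1) (.e (nat_lit 255107) (nat_lit 0) .nil) .nil))) 
(.lf (nat_lit 535208) (.g (nat_lit 1266) (.e (nat_lit 65280) (nat_lit 168) (.e (nat_lit 163867) (nat_lit 2) (.e (nat_lit 196670) (nat_lit 14) (.e (nat_lit 73753) (nat_lit 8) .nil)))) (.g (nat_lit 0) (.e (nat_lit 257264) (nat_lit 0) .nil) .nil)))) (.nd (nat_lit 9) 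
(.lf (nat_lit 534952) (.g (nat_lit 1375) (.e (nat_lit 57686) (nat_lit 156) (.e (nat_lit 163903) (nat_lit 12) (.e (nat_lit 426438) (nat_lit 18) (.e (nat_lit 98363) (nat_lit 26) (.e (nat_lit 426321) (nat_lit 13) .nil))))) (.g (nat_lit 0) (.e (nat_lit 256401) (nat_lit 0) .nil) .nil))) 
(.lf (nat_lit 535464) (.g (nat_lit 1522) (.e (nat_lit 57847) (nat_lit 252) (.e (nat_lit 57411) (nat_lit 12) (.e (nat_lit 336456) (nat_lit 34) (.e (nat_lit 483407) (nat_lit 26) .nil)))) (.g (nat_lit 0) (.e (nat_lit 258326) (nat_lit 0) .nil) .nil)))))) (.nd (nat_lit 7) (.nd (nat_lit 8) (.nd (nat_lit 9) 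
(.lf (nat_lit 534632) (.g (nat_lit 1988) (.e (nat_lit 57570) (nat_lit 54) (.e (nat_lit 770072) (nat_lit 8) (.e (nat_lit 65568) (nat_lit 2) (.e (nat_lit 90170) (nat_lit 13) (.e (nat_lit 172113) (nat_lit 10) .nil))))) (.g (nat_lit 0) (.e (nat_lit 255024) (nat_lit 0) .nil) .nil))) 
(.lf (nat_lit 535144) (.g (nat_lit 3360) (.e (nat_lit 57692) (nat_lit 156) (.e (nat_lit 163869) (nat_lit 2) (.e (nat_lit 196654) (nat_lit 11) (.e (nat_lit 16458) (nat_lit 12) (.e (nat_lit 475152) (nat_lit 17) (.e (nat_lit 65280) (nat_lit 109) (.e (nat_lit 720930) (nat_lit 21) .nil))))))) (.g (nat_lit 1) (.e (nat_lit 256964) (nat_lit 0) .nil) .nil)))) (.nd (nat_lit 9) 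
(.lf (nat_lit 534888) (.g (nat_lit 1475) (.e (nat_lit 57610) (nat_lit 109) (.e (nat_lit 720909) (nat_lit 11) (.e (nat_lit 426196) (nat_lit 9) (.e (nat_lit 426550) (nat_lit 31) (.e (nat_lit 368656) (nat_lit 14) (.e (nat_lit 57813) (nat_lit 246) .nil)))))) (.g (nat_lit 1) (.e (nat_lit 255984) (nat_lit 0) .nil) .nil))) 
(.lf (nat_lit 535400) (.g (nat_lit 3470) (.e (nat_lit 57846) (nat_lit 252) (.e (nat_lit 57406) (nat_lit 12) (.e (nat_lit 336454) (nat_lit 34) (.e (nat_lit 483404) (nat_lit 26) .nil)))) (.g (nat_lit 0) (.e (nat_lit 258242) (nat_lit 0) .nil) .nil))))) (.nd (nat_lit 8) (.nd (nat_lit 9) 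
(.lf (nat_lit 534760) (.g (nat_lit 1242) (.e (nat_lit 57575) (nat_lit 55) (.e (nat_lit 778465) (nat_lit 11) (.e (nat_lit 24580) (nat_lit 0) (.e (nat_lit 1808) (nat_lit 120) .nil)))) (.g (nat_lit 0) (.e (nat_lit 255256) (nat_lit 0) .nil) .nil))) 
(.lf (nat_lit 535272) (.g (nat_lit 2001) (.e (nat_lit 57750) (nat_lit 201) (.e (nat_lit 3090) (nat_lit 191) (.e (nat_lit 483363) (nat_lit 18) (.e (nat_lit 57688) (nat_lit 156) (.e (nat_lit 163917) (nat_lit 13) .nil))))) (.g (nat_lit 0) (.e (nat_lit 257655) (nat_lit 0) .nil) .nil)))) (.nd (nat_lit 9) 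
(.lf (nat_lit 535016) (.g (nat_lit 1928) (.e (nat_lit 57688) (nat_lit 156) (.e (nat_lit 163873) (nat_lit 3) (.e (nat_lit 204838) (nat_lit 20) (.e (nat_lit 114719) (nat_lit 23) (.e (nat_lit 98365) (nat_lit 26) .nil))))) (.g (nat_lit 0) (.e (nat_lit 256597) (nat_lit 0) .nil) .nil))) 
(.lf (nat_lit 535528) (.g (nat_lit 2010) (.e (nat_lit 57848) (nat_lit 252) (.e (nat_lit 57445) (nat_lit 19) (.e (nat_lit 393229) (nat_lit 9) (.e (nat_lit 336086) (nat_lit 9) (.e (nat_lit 336257) (nat_lit 15) .nil))))) (.g (nat_lit 0) (.e (nat_lit 258421) (nat_lit 0) .nil) .nil)))))))) (.nd (nat_lit 5) (.nd (nat_lit 6) (.nd (nat_lit 7) (.nd (nat_lit 8) (.nd (nat_lit 9) 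
(.lf (nat_lit 534552) (.g (nat_lit 3558) (.e (nat_lit 57480) (nat_lit 28) (.e (nat_lit 557107) (nat_lit 15) (.e (nat_lit 188447) (nat_lit 22) (.e (nat_lit 196666) (nat_lit 13) (.e (nat_lit 65638) (nat_lit 15) (.e (nat_lit 3715) (nat_lit 227) (.e (nat_lit 778316) (nat_lit 3) .nil))))))) (.g (nat_lit 1) (.e (nat_lit 254837) (nat_lit 0) .nil) .nil))) 
(.lf (nat_lit 535064) (.g (nat_lit 1007) (.e (nat_lit 57688) (nat_lit 156) (.e (nat_lit 163905) (nat_lit 12) (.e (nat_lit 426566) (nat_lit 34) .nil))) (.g (nat_lit 0) (.e (nat_lit 256667) (nat_lit 0) .nil) .nil)))) (.nd (nat_lit 9) 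
(.lf (nat_lit 534808) (.g (nat_lit 2711) (.e (nat_lit 65280) (nat_lit 62) (.e (nat_lit 164327) (nat_lit 230) (.e (nat_lit 163903) (nat_lit 12) (.e (nat_lit 426438) (nat_lit 18) (.e (nat_lit 98381) (nat_lit 31) .nil))))) (.g (nat_lit 0) (.e (nat_lit 255501) (nat_lit 0) .nil) .nil))) 
(.lf (nat_lit 535320) (.g (nat_lit 1947) (.e (nat_lit 57811) (nat_lit 246) (.e (nat_lit 57879) (nat_lit 270) (.e (nat_lit 496) (nat_lit 39) (.e (nat_lit 483380) (nat_lit 23) (.e (nat_lit 336316) (nat_lit 17) (.e (nat_lit 204544) (nat_lit 19) .nil)))))) (.g (nat_lit 1) (.e (nat_lit 258023) (nat_lit 0) .nil) .nil))))) (.nd (nat_lit 8) (.nd (nat_lit 9) 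
(.lf (nat_lit 534680) (.g (nat_lit 5727) (.e (nat_lit 57574) (nat_lit 55) (.e (nat_lit 778465) (nat_lit 11) (.e (nat_lit 24604) (nat_lit 2) (.e (nat_lit 90178) (nat_lit 15) (.e (nat_lit 188440) (nat_lit 20) (.e (nat_lit 3307) (nat_lit 202) (.e (nat_lit 573475) (nat_lit 12) .nil))))))) (.g (nat_lit 1) (.e (nat_lit 255085) (nat_lit 0) .nil) .nil))) 
(.lf (nat_lit 535192) (.g (nat_lit 635) (.e (nat_lit 57692) (nat_lit 156) (.e (nat_lit 163907) (nat_lit 12) (.e (nat_lit 426478) (nat_lit 27) .nil))) (.g (nat_lit 0) (.e (nat_lit 257071) (nat_lit 0) .nil) .nil)))) (.nd (nat_lit 9) 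
(.lf (nat_lit 534936) (.g (nat_lit 741) (.e (nat_lit 57686) (nat_lit 156) (.e (nat_lit 163902) (nat_lit 12) (.e (nat_lit 426436) (nat_lit 18) .nil))) (.g (nat_lit 0) (.e (nat_lit 256383) (nat_lit 0) .nil) .nil))) 
(.lf (nat_lit 535448) (.g (nat_lit 2019) (.e (nat_lit 57847) (nat_lit 252) (.e (nat_lit 57407) (nat_lit 12) (.e (nat_lit 336316) (nat_lit 17) (.e (nat_lit 196666) (nat_lit 13) (.e (nat_lit 65617) (nat_lit 10) (.e (nat_lit 344091) (nat_lit 18) (.e (nat_lit 7702) (nat_lit 413) (.e (nat_lit 122889) (nat_lit 1) .nil)))))))) (.g (nat_lit 1) (.e (nat_lit 258302) (nat_lit 0) .nil) .nil)))))) 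
(.nd (nat_lit 7) (.nd (nat_lit 8) (.nd (nat_lit 9) 
(.lf (nat_lit 534616) (.g (nat_lit 3416) (.e (nat_lit 57504) (nat_lit 38) (.e (nat_lit 638995) (nat_lit 7) (.e (nat_lit 163978) (nat_lit 30) (.e (nat_lit 573489) (nat_lit 14) (.e (nat_lit 73754) (nat_lit 8) (.e (nat_lit 557105) (nat_lit 14) (.e (nat_lit 180252) (nat_lit 10) (.e (nat_lit 573473) (nat_lit 12) .nil)))))))) (.g (nat_lit 1) (.e (nat_lit 254935) (nat_lit 0) .nil) .nil))) 
(.lf (nat_lit 535128) (.g (nat_lit 408) (.e (nat_lit 57691) (nat_lit 156) (.e (nat_lit 163907) (nat_lit 12) (.e (nat_lit 426131) (nat_lit 3) .nil))) (.g (nat_lit 0) (.e (nat_lit 256879) (nat_lit 0) .nil) .nil)))) (.nd (nat_lit 9) 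
(.lf (nat_lit 534872) (.g (nat_lit 1032) (.e (nat_lit 57610) (nat_lit 109) (.e (nat_lit 720907) (nat_lit 11) (.e (nat_lit 426230) (nat_lit 9) (.e (nat_lit 426549) (nat_lit 31) (.e (nat_lit 368656) (nat_lit 14) (.e (nat_lit 57808) (nat_lit 246) .nil)))))) (.g (nat_lit 1) (.e (nat_lit 255931) (nat_lit 0) .nil) .nil))) 
(.lf (nat_lit 535384) (.g (nat_lit 2014) (.e (nat_lit 57846) (nat_lit 252) (.e (nat_lit 57371) (nat_lit 2) (.e (nat_lit 90128) (nat_lit 9) (.e (nat_lit 314) (nat_lit 23) (.e (nat_lit 360192) (nat_lit 18) .nil))))) (.g (nat_lit 0) (.e (nat_lit 258215) (nat_lit 0) .nil) .nil))))) (.nd (nat_lit 8) (.nd (nat_lit 9) 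
(.lf (nat_lit 534744) (.g (nat_lit 3077) (.e (nat_lit 57574) (nat_lit 55) (.e (nat_lit 778466) (nat_lit 11) (.e (nat_lit 24608) (nat_lit 3) (.e (nat_lit 98365) (nat_lit 26) (.e (nat_lit 426298) (nat_lit 11) (.e (nat_lit 458794) (nat_lit 28) (.e (nat_lit 573476) (nat_lit 12) .nil))))))) (.g (nat_lit 1) (.e (nat_lit 255194) (nat_lit 0) .nil) .nil))) 
(.lf (nat_lit 535256) (.g (nat_lit 3371) (.e (nat_lit 57750) (nat_lit 201) (.e (nat_lit 2854) (nat_lit 184) (.e (nat_lit 426402) (nat_lit 15) (.e (nat_lit 1859) (nat_lit 124) (.e (nat_lit 557109) (nat_lit 15) (.e (nat_lit 188449) (nat_lit 22) (.e (nat_lit 196661) (nat_lit 12) .nil))))))) (.g (nat_lit 1) (.e (nat_lit 257510) (nat_lit 0) .nil) .nil)))) (.nd (nat_lit 9) 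
(.lf (nat_lit 535000) (.g (nat_lit 1731) (.e (nat_lit 57687) (nat_lit 156) (.e (nat_lit 163907) (nat_lit 12) (.e (nat_lit 426479) (nat_lit 27) (.e (nat_lit 336434) (nat_lit 30) .nil)))) (.g (nat_lit 0) (.e (nat_lit 256500) (nat_lit 0) .nil) .nil))) 
(.lf (nat_lit 535512) (.g (nat_lit 2302) (.e (nat_lit 57848) (nat_lit 252) (.e (nat_lit 57407) (nat_lit 12) (.e (nat_lit 336456) (nat_lit 34) (.e (nat_lit 483346) (nat_lit 17) (.e (nat_lit 6445) (nat_lit 343) .nil))))) (.g (nat_lit 0) (.e (nat_lit 258405) (nat_lit 0) .nil) .nil))))))) (.nd (nat_lit 6) (.nd (nat_lit 7) (.nd (nat_lit 8) (.nd (nat_lit 9) 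
(.lf (nat_lit 534584) (.g (nat_lit 2361) (.e (nat_lit 57502) (nat_lit 38) (.e (nat_lit 638995) (nat_lit 7) (.e (nat_lit 163978) (nat_lit 30) (.e (nat_lit 573487) (nat_lit 14) .nil)))) (.g (nat_lit 0) (.e (nat_lit 254889) (nat_lit 0) .nil) .nil))) 
(.lf (nat_lit 535096) (.g (nat_lit 4766) (.e (nat_lit 57689) (nat_lit 156) (.e (nat_lit 163875) (nat_lit 3) (.e (nat_lit 204838) (nat_lit 20) (.e (nat_lit 114719) (nat_lit 23) (.e (nat_lit 98367) (nat_lit 27) (.e (nat_lit 434231) (nat_lit 23) (.e (nat_lit 532500) (nat_lit 1) .nil))))))) (.g (nat_lit 1) (.e (nat_lit 256822) (nat_lit 0) .nil) .nil)))) (.nd (nat_lit 9) 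
(.lf (nat_lit 534840) (.g (nat_lit 1522) (.e (nat_lit 57596) (nat_lit 82) (.e (nat_lit 499900) (nat_lit 7) (.e (nat_lit 24628) (nat_lit 9) (.e (nat_lit 336450) (nat_lit 33) (.e (nat_lit 475152) (nat_lit 17) .nil))))) (.g (nat_lit 0) (.e (nat_lit 255794) (nat_lit 0) .nil) .nil))) 
(.lf (nat_lit 535352) (.g (nat_lit 569) (.e (nat_lit 57859) (nat_lit 255) (.e (nat_lit 229412) (nat_lit 14) (.e (nat_lit 442421) (nat_lit 21) .nil))) (.g (nat_lit 0) (.e (nat_lit 258160) (nat_lit 0) .nil) .nil))))) (.nd (nat_lit 8) (.nd (nat_lit 9) 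
(.lf (nat_lit 534712) (.g (nat_lit 2473) (.e (nat_lit 57574) (nat_lit 55) (.e (nat_lit 778466) (nat_lit 11) (.e (nat_lit 24604) (nat_lit 2) (.e (nat_lit 90176) (nat_lit 15) (.e (nat_lit 188439) (nat_lit 20) (.e (nat_lit 3304) (nat_lit 202) (.e (nat_lit 573478) (nat_lit 12) .nil))))))) (.g (nat_lit 1) (.e (nat_lit 255157) (nat_lit 0) .nil) .nil))) 
(.lf (nat_lit 535224) (.g (nat_lit 2321) (.e (nat_lit 65280) (nat_lit 168) (.e (nat_lit 163875) (nat_lit 3) (.e (nat_lit 204863) (nat_lit 27) (.e (nat_lit 344133) (nat_lit 26) (.e (nat_lit 557098) (nat_lit 13) .nil))))) (.g (nat_lit 0) (.e (nat_lit 257290) (nat_lit 0) .nil) .nil)))) (.nd (nat_lit 9) 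
(.lf (nat_lit 534968) (.g (nat_lit 2690) (.e (nat_lit 57687) (nat_lit 156) (.e (nat_lit 163875) (nat_lit 3) (.e (nat_lit 204837) (nat_lit 20) (.e (nat_lit 114719) (nat_lit 23) (.e (nat_lit 98367) (nat_lit 27) .nil))))) (.g (nat_lit 0) (.e (nat_lit 256464) (nat_lit 0) .nil) .nil))) 
(.lf (nat_lit 535480) (.g (nat_lit 2528) (.e (nat_lit 57848) (nat_lit 252) (.e (nat_lit 57373) (nat_lit 2) (.e (nat_lit 90158) (nat_lit 11) (.e (nat_lit 24628) (nat_lit 9) (.e (nat_lit 336454) (nat_lit 34) (.e (nat_lit 483366) (nat_lit 18) .nil)))))) (.g (nat_lit 1) (.e (nat_lit 258352) (nat_lit 0) .nil) .nil)))))) (.nd (nat_lit 7) (.nd (nat_lit 8) (.nd (nat_lit 9) 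
(.lf (nat_lit 534648) (.g (nat_lit 4847) (.e (nat_lit 57572) (nat_lit 54) (.e (nat_lit 770072) (nat_lit 8) (.e (nat_lit 65569) (nat_lit 3) (.e (nat_lit 98359) (nat_lit 26) (.e (nat_lit 426286) (nat_lit 10) (.e (nat_lit 434248) (nat_lit 28) (.e (nat_lit 573474) (nat_lit 12) .nil))))))) (.g (nat_lit 1) (.e (nat_lit 255046) (nat_lit 0) .nil) .nil))) 
(.lf (nat_lit 535160) (.g (nat_lit 1421) (.e (nat_lit 57692) (nat_lit 156) (.e (nat_lit 163875) (nat_lit 3) (.e (nat_lit 204837) (nat_lit 20) (.e (nat_lit 114718) (nat_lit 23) .nil)))) (.g (nat_lit 0) (.e (nat_lit 256984) (nat_lit 0) .nil) .nil)))) (.nd (nat_lit 9) 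
(.lf (nat_lit 534904) (.g (nat_lit 1773) (.e (nat_lit 57610) (nat_lit 109) (.e (nat_lit 720909) (nat_lit 11) (.e (nat_lit 426198) (nat_lit 9) (.e (nat_lit 426550) (nat_lit 31) (.e (nat_lit 368656) (nat_lit 14) (.e (nat_lit 57808) (nat_lit 246) .nil)))))) (.g (nat_lit 1) (.e (nat_lit 256000) (nat_lit 0) .nil) .nil))) 
(.lf (nat_lit 535416) (.g (nat_lit 2237) (.e (nat_lit 57847) (nat_lit 252) (.e (nat_lit 57372) (nat_lit 2) (.e (nat_lit 90160) (nat_lit 11) (.e (nat_lit 24628) (nat_lit 9) (.e (nat_lit 336370) (nat_lit 27) (.e (nat_lit 426501) (nat_lit 27) (.e (nat_lit 335986) (nat_lit 1) .nil))))))) (.g (nat_lit 1) (.e (nat_lit 258261) (nat_lit 0) .nil) .nil))))) (.nd (nat_lit 8) (.nd (nat_lit 9) 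
(.lf (nat_lit 534776) (.g (nat_lit 2064) (.e (nat_lit 57575) (nat_lit 55) (.e (nat_lit 778466) (nat_lit 11) (.e (nat_lit 24607) (nat_lit 3) (.e (nat_lit 98374) (nat_lit 29) (.e (nat_lit 450586) (nat_lit 10) .nil))))) (.g (nat_lit 0) (.e (nat_lit 255276) (nat_lit 0) .nil) .nil))) 
(.lf (nat_lit 535288) (.g (nat_lit 533) (.e (nat_lit 57786) (nat_lit 245) (.e (nat_lit 2809) (nat_lit 180) (.e (nat_lit 303137) (nat_lit 10) .nil))) (.g (nat_lit 0) (.e (nat_lit 257961) (nat_lit 0) .nil) .nil)))) (.nd (nat_lit 9) 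
(.lf (nat_lit 535032) (.g (nat_lit 3075) (.e (nat_lit 57688) (nat_lit 156) (.e (nat_lit 163902) (nat_lit 12) (.e (nat_lit 426438) (nat_lit 18) (.e (nat_lit 98380) (nat_lit 31) (.e (nat_lit 466954) (nat_lit 11) (.e (nat_lit 335995) (nat_lit 1) .nil)))))) (.g (nat_lit 1) (.e (nat_lit 256616) (nat_lit 0) .nil) .nil))) 
(.lf (nat_lit 535544) (.g (nat_lit 1905) (.e (nat_lit 57849) (nat_lit 252) (.e (nat_lit 57373) (nat_lit 2) (.e (nat_lit 90160) (nat_lit 11) (.e (nat_lit 24630) (nat_lit 9) .nil)))) (.g (nat_lit 0) (.e (nat_lit 258440) (nat_lit 0) .nil) .nil)))))))))) (.nd (nat_lit 3) (.nd (nat_lit 4) (.nd (nat_lit 5) (.nd (nat_lit 6) (.nd (nat_lit 7) (.nd (nat_lit 8) (.nd (nat_lit 9) 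
(.lf (nat_lit 534532) (.g (nat_lit 2324) (.e (nat_lit 57479) (nat_lit 28) (.e (nat_lit 557105) (nat_lit 14) (.e (nat_lit 180252) (nat_lit 10) (.e (nat_lit 573489) (nat_lit 14) (.e (nat_lit 73748) (nat_lit 3) (.e (nat_lit 516105) (nat_lit 0) (.e (nat_lit 7936) (nat_lit 216) (.e (nat_lit 688166) (nat_lit 15) .nil)))))))) (.g (nat_lit 1) (.e (nat_lit 254746) (nat_lit 0) .nil) .nil))) 
(.lf (nat_lit 535044) (.g (nat_lit 3148) (.e (nat_lit 57688) (nat_lit 156) (.e (nat_lit 163903) (nat_lit 12) (.e (nat_lit 426436) (nat_lit 18) (.e (nat_lit 98358) (nat_lit 26) (.e (nat_lit 426323) (nat_lit 13) (.e (nat_lit 483366) (nat_lit 18) .nil)))))) (.g (nat_lit 1) (.e (nat_lit 256636) (nat_lit 0) .nil) .nil)))) (.nd (nat_lit 9) 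
(.lf (nat_lit 534788) (.g (nat_lit 3681) (.e (nat_lit 65280) (nat_lit 55) (.e (nat_lit 778462) (nat_lit 11) (.e (nat_lit 24604) (nat_lit 2) (.e (nat_lit 90170) (nat_lit 13) (.e (nat_lit 172113) (nat_lit 10) .nil))))) (.g (nat_lit 0) (.e (nat_lit 255290) (nat_lit 0) .nil) .nil))) 
(.lf (nat_lit 535300) (.g (nat_lit 2345) (.e (nat_lit 57808) (nat_lit 246) (.e (nat_lit 57879) (nat_lit 270) (.e (nat_lit 496) (nat_lit 39) (.e (nat_lit 483403) (nat_lit 26) (.e (nat_lit 385057) (nat_lit 22) (.e (nat_lit 499780) (nat_lit 1) .nil)))))) (.g (nat_lit 1) (.e (nat_lit 257997) (nat_lit 0) .nil) .nil))))) (.nd (nat_lit 8) (.nd (nat_lit 9) 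
(.lf (nat_lit 534660) (.g (nat_lit 2954) (.e (nat_lit 57573) (nat_lit 55) (.e (nat_lit 778469) (nat_lit 11) (.e (nat_lit 24609) (nat_lit 3) (.e (nat_lit 98373) (nat_lit 29) (.e (nat_lit 450587) (nat_lit 10) (.e (nat_lit 573478) (nat_lit 12) .nil)))))) (.g (nat_lit 1) (.e (nat_lit 255062) (nat_lit 0) .nil) .nil))) 
(.lf (nat_lit 535172) (.g (nat_lit 818) (.e (nat_lit 57692) (nat_lit 156) (.e (nat_lit 163905) (nat_lit 12) (.e (nat_lit 426509) (nat_lit 27) .nil))) (.g (nat_lit 0) (.e (nat_lit 257022) (nat_lit 0) .nil) .nil)))) (.nd (nat_lit 9) 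
(.lf (nat_lit 534916) (.g (nat_lit 1511) (.e (nat_lit 57685) (nat_lit 156) (.e (nat_lit 163873) (nat_lit 3) (.e (nat_lit 204838) (nat_lit 20) (.e (nat_lit 114719) (nat_lit 23) .nil)))) (.g (nat_lit 0) (.e (nat_lit 256338) (nat_lit 0) .nil) .nil))) 
(.lf (nat_lit 535428) (.g (nat_lit 3743) (.e (nat_lit 57847) (nat_lit 252) (.e (nat_lit 57377) (nat_lit 3) (.e (nat_lit 98317) (nat_lit 9) (.e (nat_lit 335995) (nat_lit 1) .nil)))) (.g (nat_lit 0) (.e (nat_lit 258276) (nat_lit 0) .nil) .nil)))))) (.nd (nat_lit 7) (.nd (nat_lit 8) (.nd (nat_lit 9) 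
(.lf (nat_lit 534596) (.g (nat_lit 1957) (.e (nat_lit 57502) (nat_lit 38) (.e (nat_lit 638996) (nat_lit 7) (.e (nat_lit 163977) (nat_lit 30) (.e (nat_lit 573489) (nat_lit 14) (.e (nat_lit 73755) (nat_lit 8) .nil))))) (.g (nat_lit 0) (.e (nat_lit 254902) (nat_lit 0) .nil) .nil))) 
(.lf (nat_lit 535108) (.g (nat_lit 1246) (.e (nat_lit 57691) (nat_lit 156) (.e (nat_lit 163875) (nat_lit 3) (.e (nat_lit 204837) (nat_lit 20) (.e (nat_lit 114718) (nat_lit 23) .nil)))) (.g (nat_lit 0) (.e (nat_lit 256849) (nat_lit 0) .nil) .nil)))) (.nd (nat_lit 9) 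
(.lf (nat_lit 534852) (.g (nat_lit 1837) (.e (nat_lit 65280) (nat_lit 115) (.e (nat_lit 770072) (nat_lit 8) (.e (nat_lit 65583) (nat_lit 7) (.e (nat_lit 319530) (nat_lit 16) (.e (nat_lit 286748) (nat_lit 9) .nil))))) (.g (nat_lit 0) (.e (nat_lit 255883) (nat_lit 0) .nil) .nil))) 
(.lf (nat_lit 535364) (.g (nat_lit 1040) (.e (nat_lit 57844) (nat_lit 252) (.e (nat_lit 57388) (nat_lit 5) (.e (nat_lit 114697) (nat_lit 11) (.e (nat_lit 426197) (nat_lit 9) .nil)))) (.g (nat_lit 0) (.e (nat_lit 258181) (nat_lit 0) .nil) .nil))))) (.nd (nat_lit 8) (.nd (nat_lit 9) 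
(.lf (nat_lit 534724) (.g (nat_lit 3690) (.e (nat_lit 57574) (nat_lit 55) (.e (nat_lit 778466) (nat_lit 11) (.e (nat_lit 24604) (nat_lit 2) (.e (nat_lit 90178) (nat_lit 15) (.e (nat_lit 188441) (nat_lit 20) (.e (nat_lit 3304) (nat_lit 202) (.e (nat_lit 573477) (nat_lit 12) .nil))))))) (.g (nat_lit 1) (.e (nat_lit 255169) (nat_lit 0) .nil) .nil))) 
(.lf (nat_lit 535236) (.g (nat_lit 1786) (.e (nat_lit 57713) (nat_lit 176) (.e (nat_lit 1348) (nat_lit 102) (.e (nat_lit 286735) (nat_lit 3) (.e (nat_lit 98379) (nat_lit 31) .nil)))) (.g (nat_lit 0) (.e (nat_lit 257353) (nat_lit 0) .nil) .nil)))) (.nd (nat_lit 9) 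
(.lf (nat_lit 534980) (.g (nat_lit 2551) (.e (nat_lit 57687) (nat_lit 156) (.e (nat_lit 163903) (nat_lit 12) (.e (nat_lit 426428) (nat_lit 17) (.e (nat_lit 90170) (nat_lit 13) (.e (nat_lit 172123) (nat_lit 13) .nil))))) (.g (nat_lit 0) (.e (nat_lit 256477) (nat_lit 0) .nil) .nil))) 
(.lf (nat_lit 535492) (.g (nat_lit 1415) (.e (nat_lit 57848) (nat_lit 252) (.e (nat_lit 57375) (nat_lit 2) (.e (nat_lit 90159) (nat_lit 11) (.e (nat_lit 24657) (nat_lit 13) (.e (nat_lit 401152) (nat_lit 9) (.e (nat_lit 336000) (nat_lit 1) .nil)))))) (.g (nat_lit 1) (.e (nat_lit 258364) (nat_lit 0) .nil) .nil))))))) (.nd (nat_lit 6) (.nd (nat_lit 7) (.nd (nat_lit 8) (.nd (nat_lit 9) 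
(.lf (nat_lit 534564) (.g (nat_lit 2640) (.e (nat_lit 57480) (nat_lit 28) (.e (nat_lit 557107) (nat_lit 15) (.e (nat_lit 188450) (nat_lit 23) (.e (nat_lit 204855) (nat_lit 26) (.e (nat_lit 336290) (nat_lit 15) (.e (nat_lit 3714) (nat_lit 227) (.e (nat_lit 786176) (nat_lit 3) .nil))))))) (.g (nat_lit 1) (.e (nat_lit 254849) (nat_lit 0) .nil) .nil))) 
(.lf (nat_lit 535076) (.g (nat_lit 859) (.e (nat_lit 57688) (nat_lit 156) (.e (nat_lit 163907) (nat_lit 12) (.e (nat_lit 426478) (nat_lit 27) .nil))) (.g (nat_lit 0) (.e (nat_lit 256684) (nat_lit 0) .nil) .nil)))) (.nd (nat_lit 9) 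
(.lf (nat_lit 534820) (.g (nat_lit 1946) (.e (nat_lit 65280) (nat_lit 65) (.e (nat_lit 213032) (nat_lit 11) (.e (nat_lit 24600) (nat_lit 1) (.e (nat_lit 57688) (nat_lit 156) (.e (nat_lit 163933) (nat_lit 17) .nil))))) (.g (nat_lit 0) (.e (nat_lit 255600) (nat_lit 0) .nil) .nil))) 
(.lf (nat_lit 535332) (.g (nat_lit 2046) (.e (nat_lit 57830) (nat_lit 250) (.e (nat_lit 1183) (nat_lit 87) (.e (nat_lit 57478) (nat_lit 28) (.e (nat_lit 557103) (nat_lit 14) (.e (nat_lit 180250) (nat_lit 10) .nil))))) (.g (nat_lit 0) (.e (nat_lit 258089) (nat_lit 0) .nil) .nil))))) (.nd (nat_lit 8) (.nd (nat_lit 9) 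
(.lf (nat_lit 534692) (.g (nat_lit 1853) (.e (nat_lit 57574) (nat_lit 55) (.e (nat_lit 778465) (nat_lit 11) (.e (nat_lit 24608) (nat_lit 3) (.e (nat_lit 98381) (nat_lit 31) .nil)))) (.g (nat_lit 0) (.e (nat_lit 255097) (nat_lit 0) .nil) .nil))) 
(.lf (nat_lit 535204) (.g (nat_lit 1903) (.e (nat_lit 57694) (nat_lit 157) (.e (nat_lit 229415) (nat_lit 15) (.e (nat_lit 450563) (nat_lit 0) (.e (nat_lit 6255) (nat_lit 337) .nil)))) (.g (nat_lit 0) (.e (nat_lit 257141) (nat_lit 0) .nil) .nil)))) (.nd (nat_lit 9) 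
(.lf (nat_lit 534948) (.g (nat_lit 748) (.e (nat_lit 57686) (nat_lit 156) (.e (nat_lit 163903) (nat_lit 12) (.e (nat_lit 426436) (nat_lit 18) .nil))) (.g (nat_lit 0) (.e (nat_lit 256396) (nat_lit 0) .nil) .nil))) 
(.lf (nat_lit 535460) (.g (nat_lit 802) (.e (nat_lit 57847) (nat_lit 252) (.e (nat_lit 57411) (nat_lit 12) (.e (nat_lit 336452) (nat_lit 34) .nil))) (.g (nat_lit 0) (.e (nat_lit 258318) (nat_lit 0) .nil) .nil)))))) (.nd (nat_lit 7) (.nd (nat_lit 8) (.nd (nat_lit 9) 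
(.lf (nat_lit 534628) (.g (nat_lit 2203) (.e (nat_lit 57508) (nat_lit 39) (.e (nat_lit 647201) (nat_lit 12) (.e (nat_lit 57574) (nat_lit 55) (.e (nat_lit 778455) (nat_lit 10) .nil)))) (.g (nat_lit 0) (.e (nat_lit 254977) (nat_lit 0) .nil) .nil))) 
(.lf (nat_lit 535140) (.g (nat_lit 2932) (.e (nat_lit 57691) (nat_lit 156) (.e (nat_lit 163938) (nat_lit 18) (.e (nat_lit 475179) (nat_lit 24) (.e (nat_lit 516176) (nat_lit 14) (.e (nat_lit 466954) (nat_lit 11) (.e (nat_lit 335994) (nat_lit 1) .nil)))))) (.g (nat_lit 1) (.e (nat_lit 256937) (nat_lit 0) .nil) .nil)))) (.nd (nat_lit 9) 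
(.lf (nat_lit 534884) (.g (nat_lit 1862) (.e (nat_lit 57610) (nat_lit 109) (.e (nat_lit 720909) (nat_lit 11) (.e (nat_lit 426188) (nat_lit 9) (.e (nat_lit 426550) (nat_lit 31) (.e (nat_lit 368656) (nat_lit 14) (.e (nat_lit 57815) (nat_lit 246) .nil)))))) (.g (nat_lit 1) (.e (nat_lit 255980) (nat_lit 0) .nil) .nil))) 
(.lf (nat_lit 535396) (.g (nat_lit 1498) (.e (nat_lit 57846) (nat_lit 252) (.e (nat_lit 57388) (nat_lit 5) (.e (nat_lit 114698) (nat_lit 11) (.e (nat_lit 426186) (nat_lit 9) .nil)))) (.g (nat_lit 0) (.e (nat_lit 258231) (nat_lit 0) .nil) .nil))))) (.nd (nat_lit 8) (.nd (nat_lit 9) 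
(.lf (nat_lit 534756) (.g (nat_lit 2236) (.e (nat_lit 57574) (nat_lit 55) (.e (nat_lit 778466) (nat_lit 11) (.e (nat_lit 24617) (nat_lit 7) (.e (nat_lit 319533) (nat_lit 16) (.e (nat_lit 286754) (nat_lit 10) .nil))))) (.g (nat_lit 0) (.e (nat_lit 255211) (nat_lit 0) .nil) .nil))) 
(.lf (nat_lit 535268) (.g (nat_lit 3637) (.e (nat_lit 57750) (nat_lit 201) (.e (nat_lit 3067) (nat_lit 190) (.e (nat_lit 475185) (nat_lit 29) (.e (nat_lit 557107) (nat_lit 15) (.e (nat_lit 188447) (nat_lit 22) (.e (nat_lit 196661) (nat_lit 12) .nil)))))) (.g (nat_lit 1) (.e (nat_lit 257533) (nat_lit 0) .nil) .nil)))) (.nd (nat_lit 9) 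
(.lf (nat_lit 535012) (.g (nat_lit 2300) (.e (nat_lit 57688) (nat_lit 156) (.e (nat_lit 163873) (nat_lit 3) (.e (nat_lit 204837) (nat_lit 20) (.e (nat_lit 114719) (nat_lit 23) (.e (nat_lit 98366) (nat_lit 27) .nil))))) (.g (nat_lit 0) (.e (nat_lit 256593) (nat_lit 0) .nil) .nil))) 
(.lf (nat_lit 535524) (.g (nat_lit 2074) (.e (nat_lit 57848) (nat_lit 252) (.e (nat_lit 57445) (nat_lit 19) (.e (nat_lit 393229) (nat_lit 9) (.e (nat_lit 336086) (nat_lit 9) (.e (nat_lit 336238) (nat_lit 15) .nil))))) (.g (nat_lit 0) (.e (nat_lit 258417) (nat_lit 0) .nil) .nil)))))))) (.nd (nat_lit 5) (.nd (nat_lit 6) (.nd (nat_lit 7) (.nd (nat_lit 8) (.nd (nat_lit 9) 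
(.lf (nat_lit 534548) (.g (nat_lit 4617) (.e (nat_lit 57480) (nat_lit 28) (.e (nat_lit 557099) (nat_lit 13) (.e (nat_lit 172106) (nat_lit 10) (.e (nat_lit 434231) (nat_lit 23) (.e (nat_lit 532535) (nat_lit 9) (.e (nat_lit 336295) (nat_lit 15) (.e (nat_lit 3630) (nat_lit 227) (.e (nat_lit 778317) (nat_lit 3) .nil)))))))) (.g (nat_lit 1) (.e (nat_lit 254829) (nat_lit 0) .nil) .nil))) 
(.lf (nat_lit 535060) (.g (nat_lit 1294) (.e (nat_lit 57688) (nat_lit 156) (.e (nat_lit 163905) (nat_lit 12) (.e (nat_lit 426428) (nat_lit 17) (.e (nat_lit 90169) (nat_lit 13) .nil)))) (.g (nat_lit 0) (.e (nat_lit 256656) (nat_lit 0) .nil) .nil)))) (.nd (nat_lit 9) 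
(.lf (nat_lit 534804) (.g (nat_lit 1694) (.e (nat_lit 65280) (nat_lit 46) (.e (nat_lit 704738) (nat_lit 11) (.e (nat_lit 16425) (nat_lit 7) (.e (nat_lit 409649) (nat_lit 18) (.e (nat_lit 303140) (nat_lit 10) .nil))))) (.g (nat_lit 0) (.e (nat_lit 255409) (nat_lit 0) .nil) .nil))) 
(.lf (nat_lit 535316) (.g (nat_lit 1669) (.e (nat_lit 57810) (nat_lit 246) (.e (nat_lit 57883) (nat_lit 270) (.e (nat_lit 371) (nat_lit 32) (.e (nat_lit 426542) (nat_lit 29) (.e (nat_lit 360192) (nat_lit 2) (.e (nat_lit 196698) (nat_lit 19) .nil)))))) (.g (nat_lit 1) (.e (nat_lit 258016) (nat_lit 0) .nil) .nil))))) (.nd (nat_lit 8) (.nd (nat_lit 9) 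
(.lf (nat_lit 534676) (.g (nat_lit 2641) (.e (nat_lit 57574) (nat_lit 55) (.e (nat_lit 778465) (nat_lit 11) (.e (nat_lit 24604) (nat_lit 2) (.e (nat_lit 90176) (nat_lit 15) (.e (nat_lit 188436) (nat_lit 20) (.e (nat_lit 3307) (nat_lit 202) (.e (nat_lit 573477) (nat_lit 12) .nil))))))) (.g (nat_lit 1) (.e (nat_lit 255081) (nat_lit 0) .nil) .nil))) 
(.lf (nat_lit 535188) (.g (nat_lit 628) (.e (nat_lit 57692) (nat_lit 156) (.e (nat_lit 163907) (nat_lit 12) (.e (nat_lit 426434) (nat_lit 18) .nil))) (.g (nat_lit 0) (.e (nat_lit 257065) (nat_lit 0) .nil) .nil)))) (.nd (nat_lit 9) 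
(.lf (nat_lit 534932) (.g (nat_lit 1433) (.e (nat_lit 57686) (nat_lit 156) (.e (nat_lit 163875) (nat_lit 3) (.e (nat_lit 204837) (nat_lit 20) (.e (nat_lit 114719) (nat_lit 23) .nil)))) (.g (nat_lit 0) (.e (nat_lit 256377) (nat_lit 0) .nil) .nil))) 
(.lf (nat_lit 535444) (.g (nat_lit 2123) (.e (nat_lit 57847) (nat_lit 252) (.e (nat_lit 57407) (nat_lit 12) (.e (nat_lit 336316) (nat_lit 17) (.e (nat_lit 196666) (nat_lit 13) (.e (nat_lit 65617) (nat_lit 10) (.e (nat_lit 344087) (nat_lit 18) (.e (nat_lit 7695) (nat_lit 412) (.e (nat_lit 57366) (nat_lit 1) .nil)))))))) (.g (nat_lit 1) (.e (nat_lit 258298) (nat_lit 0) .nil) .nil)))))) 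
(.nd (nat_lit 7) (.nd (nat_lit 8) (.nd (nat_lit 9) 
(.lf (nat_lit 534612) (.g (nat_lit 3787) (.e (nat_lit 57503) (nat_lit 38) (.e (nat_lit 638996) (nat_lit 7) (.e (nat_lit 163978) (nat_lit 30) (.e (nat_lit 573489) (nat_lit 14) (.e (nat_lit 73754) (nat_lit 8) (.e (nat_lit 557105) (nat_lit 14) (.e (nat_lit 180252) (nat_lit 10) (.e (nat_lit 573475) (nat_lit 12) .nil)))))))) (.g (nat_lit 1) (.e (nat_lit 254920) (nat_lit 0) .nil) .nil))) 
(.lf (nat_lit 535124) (.g (nat_lit 1320) (.e (nat_lit 57691) (nat_lit 156) (.e (nat_lit 163906) (nat_lit 12) (.e (nat_lit 426428) (nat_lit 17) (.e (nat_lit 90176) (nat_lit 15) (.e (nat_lit 188423) (nat_lit 11) .nil))))) (.g (nat_lit 0) (.e (nat_lit 256875) (nat_lit 0) .nil) .nil)))) (.nd (nat_lit 9) 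
(.lf (nat_lit 534868) (.g (nat_lit 2299) (.e (nat_lit 57616) (nat_lit 116) (.e (nat_lit 778466) (nat_lit 11) (.e (nat_lit 24617) (nat_lit 7) (.e (nat_lit 319533) (nat_lit 16) .nil)))) (.g (nat_lit 0) (.e (nat_lit 255905) (nat_lit 0) .nil) .nil))) 
(.lf (nat_lit 535380) (.g (nat_lit 546) (.e (nat_lit 57845) (nat_lit 252) (.e (nat_lit 57389) (nat_lit 5) (.e (nat_lit 114695) (nat_lit 11) .nil))) (.g (nat_lit 0) (.e (nat_lit 258209) (nat_lit 0) .nil) .nil))))) (.nd (nat_lit 8) (.nd (nat_lit 9) 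
(.lf (nat_lit 534740) (.g (nat_lit 4134) (.e (nat_lit 57574) (nat_lit 55) (.e (nat_lit 778466) (nat_lit 11) (.e (nat_lit 24608) (nat_lit 3) (.e (nat_lit 98359) (nat_lit 26) (.e (nat_lit 426286) (nat_lit 10) (.e (nat_lit 434245) (nat_lit 28) (.e (nat_lit 573474) (nat_lit 12) .nil))))))) (.g (nat_lit 1) (.e (nat_lit 255188) (nat_lit 0) .nil) .nil))) 
(.lf (nat_lit 535252) (.g (nat_lit 4144) (.e (nat_lit 57750) (nat_lit 201) (.e (nat_lit 2664) (nat_lit 167) (.e (nat_lit 196666) (nat_lit 13) (.e (nat_lit 65610) (nat_lit 10) (.e (nat_lit 344117) (nat_lit 21) (.e (nat_lit 516106) (nat_lit 0) (.e (nat_lit 7936) (nat_lit 405) .nil))))))) (.g (nat_lit 1) (.e (nat_lit 257466) (nat_lit 0) .nil) .nil)))) (.nd (nat_lit 9) 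
(.lf (nat_lit 534996) (.g (nat_lit 2718) (.e (nat_lit 57687) (nat_lit 156) (.e (nat_lit 163907) (nat_lit 12) (.e (nat_lit 426428) (nat_lit 17) (.e (nat_lit 90170) (nat_lit 13) (.e (nat_lit 172123) (nat_lit 13) .nil))))) (.g (nat_lit 0) (.e (nat_lit 256496) (nat_lit 0) .nil) .nil))) 
(.lf (nat_lit 535508) (.g (nat_lit 2121) (.e (nat_lit 57848) (nat_lit 252) (.e (nat_lit 57407) (nat_lit 12) (.e (nat_lit 336454) (nat_lit 34) (.e (nat_lit 483383) (nat_lit 23) (.e (nat_lit 336240) (nat_lit 15) .nil))))) (.g (nat_lit 0) (.e (nat_lit 258401) (nat_lit 0) .nil) .nil))))))) (.nd (nat_lit 6) (.nd (nat_lit 7) (.nd (nat_lit 8) (.nd (nat_lit 9) 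
(.lf (nat_lit 534580) (.g (nat_lit 3355) (.e (nat_lit 57480) (nat_lit 28) (.e (nat_lit 557109) (nat_lit 15) (.e (nat_lit 188452) (nat_lit 23) (.e (nat_lit 204855) (nat_lit 26) (.e (nat_lit 336290) (nat_lit 15) (.e (nat_lit 3714) (nat_lit 227) (.e (nat_lit 786176) (nat_lit 3) .nil))))))) (.g (nat_lit 1) (.e (nat_lit 254865) (nat_lit 0) .nil) .nil))) 
(.lf (nat_lit 535092) (.g (nat_lit 2296) (.e (nat_lit 57689) (nat_lit 156) (.e (nat_lit 163874) (nat_lit 3) (.e (nat_lit 204837) (nat_lit 20) (.e (nat_lit 114719) (nat_lit 23) (.e (nat_lit 98367) (nat_lit 27) .nil))))) (.g (nat_lit 0) (.e (nat_lit 256818) (nat_lit 0) .nil) .nil)))) (.nd (nat_lit 9) 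
(.lf (nat_lit 534836) (.g (nat_lit 1567) (.e (nat_lit 57596) (nat_lit 82) (.e (nat_lit 499900) (nat_lit 7) (.e (nat_lit 24625) (nat_lit 9) (.e (nat_lit 336450) (nat_lit 33) (.e (nat_lit 475152) (nat_lit 17) .nil))))) (.g (nat_lit 0) (.e (nat_lit 255788) (nat_lit 0) .nil) .nil))) 
(.lf (nat_lit 535348) (.g (nat_lit 752) (.e (nat_lit 57857) (nat_lit 254) (.e (nat_lit 163920) (nat_lit 14) (.e (nat_lit 442410) (nat_lit 20) .nil))) (.g (nat_lit 0) (.e (nat_lit 258135) (nat_lit 0) .nil) .nil))))) (.nd (nat_lit 8) (.nd (nat_lit 9) 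
(.lf (nat_lit 534708) (.g (nat_lit 3366) (.e (nat_lit 57574) (nat_lit 55) (.e (nat_lit 778466) (nat_lit 11) (.e (nat_lit 24604) (nat_lit 2) (.e (nat_lit 90170) (nat_lit 13) (.e (nat_lit 172110) (nat_lit 10) (.e (nat_lit 434246) (nat_lit 28) (.e (nat_lit 573475) (nat_lit 12) .nil))))))) (.g (nat_lit 1) (.e (nat_lit 255152) (nat_lit 0) .nil) .nil))) 
(.lf (nat_lit 535220) (.g (nat_lit 1422) (.e (nat_lit 65280) (nat_lit 168) (.e (nat_lit 163875) (nat_lit 3) (.e (nat_lit 204862) (nat_lit 27) (.e (nat_lit 344131) (nat_lit 26) .nil)))) (.g (nat_lit 0) (.e (nat_lit 257286) (nat_lit 0) .nil) .nil)))) (.nd (nat_lit 9) 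
(.lf (nat_lit 534964) (.g (nat_lit 1725) (.e (nat_lit 57686) (nat_lit 156) (.e (nat_lit 163907) (nat_lit 12) (.e (nat_lit 426438) (nat_lit 18) (.e (nat_lit 98365) (nat_lit 26) .nil)))) (.g (nat_lit 0) (.e (nat_lit 256413) (nat_lit 0) .nil) .nil))) 
(.lf (nat_lit 535476) (.g (nat_lit 1117) (.e (nat_lit 57848) (nat_lit 252) (.e (nat_lit 57372) (nat_lit 2) (.e (nat_lit 90159) (nat_lit 11) (.e (nat_lit 24657) (nat_lit 13) (.e (nat_lit 401152) (nat_lit 9) .nil))))) (.g (nat_lit 0) (.e (nat_lit 258339) (nat_lit 0) .nil) .nil)))))) (.nd (nat_lit 7) (.nd (nat_lit 8) (.nd (nat_lit 9) 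
(.lf (nat_lit 534644) (.g (nat_lit 5455) (.e (nat_lit 57572) (nat_lit 54) (.e (nat_lit 770072) (nat_lit 8) (.e (nat_lit 65568) (nat_lit 2) (.e (nat_lit 90170) (nat_lit 13) (.e (nat_lit 172113) (nat_lit 10) (.e (nat_lit 434248) (nat_lit 28) (.e (nat_lit 573474) (nat_lit 12) .nil))))))) (.g (nat_lit 1) (.e (nat_lit 255042) (nat_lit 0) .nil) .nil))) 
(.lf (nat_lit 535156) (.g (nat_lit 2083) (.e (nat_lit 57692) (nat_lit 156) (.e (nat_lit 163874) (nat_lit 3) (.e (nat_lit 204837) (nat_lit 20) (.e (nat_lit 114719) (nat_lit 23) (.e (nat_lit 98366) (nat_lit 27) .nil))))) (.g (nat_lit 0) (.e (nat_lit 256980) (nat_lit 0) .nil) .nil)))) (.nd (nat_lit 9) 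
(.lf (nat_lit 534900) (.g (nat_lit 1375) (.e (nat_lit 57610) (nat_lit 109) (.e (nat_lit 720909) (nat_lit 11) (.e (nat_lit 426197) (nat_lit 9) (.e (nat_lit 426550) (nat_lit 31) (.e (nat_lit 368656) (nat_lit 14) (.e (nat_lit 57813) (nat_lit 246) .nil)))))) (.g (nat_lit 1) (.e (nat_lit 255996) (nat_lit 0) .nil) .nil))) 
(.lf (nat_lit 535412) (.g (nat_lit 1539) (.e (nat_lit 57847) (nat_lit 252) (.e (nat_lit 57371) (nat_lit 2) (.e (nat_lit 90160) (nat_lit 11) (.e (nat_lit 24623) (nat_lit 9) .nil)))) (.g (nat_lit 0) (.e (nat_lit 258256) (nat_lit 0) .nil) .nil))))) (.nd (nat_lit 8) (.nd (nat_lit 9) 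
(.lf (nat_lit 534772) (.g (nat_lit 3539) (.e (nat_lit 57575) (nat_lit 55) (.e (nat_lit 778466) (nat_lit 11) (.e (nat_lit 24604) (nat_lit 2) (.e (nat_lit 90170) (nat_lit 13) (.e (nat_lit 172110) (nat_lit 10) .nil))))) (.g (nat_lit 0) (.e (nat_lit 255272) (nat_lit 0) .nil) .nil))) 
(.lf (nat_lit 535284) (.g (nat_lit 1573) (.e (nat_lit 57741) (nat_lit 187) (.e (nat_lit 1427) (nat_lit 108) (.e (nat_lit 336324) (nat_lit 18) (.e (nat_lit 204838) (nat_lit 20) .nil)))) (.g (nat_lit 0) (.e (nat_lit 257940) (nat_lit 0) .nil) .nil)))) (.nd (nat_lit 9) 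
(.lf (nat_lit 535028) (.g (nat_lit 1495) (.e (nat_lit 57688) (nat_lit 156) (.e (nat_lit 163902) (nat_lit 12) (.e (nat_lit 426436) (nat_lit 18) (.e (nat_lit 98371) (nat_lit 28) .nil)))) (.g (nat_lit 0) (.e (nat_lit 256612) (nat_lit 0) .nil) .nil))) 
(.lf (nat_lit 535540) (.g (nat_lit 2288) (.e (nat_lit 57849) (nat_lit 252) (.e (nat_lit 57372) (nat_lit 2) (.e (nat_lit 90158) (nat_lit 11) (.e (nat_lit 24630) (nat_lit 9) (.e (nat_lit 336456) (nat_lit 34) (.e (nat_lit 483362) (nat_lit 18) .nil)))))) (.g (nat_lit 1) (.e (nat_lit 258433) (nat_lit 0) .nil) .nil))))))))) 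
(.nd (nat_lit 4) (.nd (nat_lit 5) (.nd (nat_lit 6) (.nd (nat_lit 7) (.nd (nat_lit 8) 
(.nd (nat_lit 9) 
(.lf (nat_lit 534540) (.g (nat_lit 3086) (.e (nat_lit 57480) (nat_lit 28) (.e (nat_lit 557098) (nat_lit 13) (.e (nat_lit 172097) (nat_lit 9) (.e (nat_lit 426140) (nat_lit 3) (.e (nat_lit 204855) (nat_lit 26) (.e (nat_lit 336253) (nat_lit 15) (.e (nat_lit 3716) (nat_lit 227) (.e (nat_lit 778316) (nat_lit 3) .nil)))))))) (.g (nat_lit 1) (.e (nat_lit 254821) (nat_lit 0) .nil) .nil))) 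
(.lf (nat_lit 535052) (.g (nat_lit 2656) (.e (nat_lit 57688) (nat_lit 156) (.e (nat_lit 163903) (nat_lit 12) (.e (nat_lit 426438) (nat_lit 18) (.e (nat_lit 98380) (nat_lit 31) (.e (nat_lit 466954) (nat_lit 11) (.e (nat_lit 335994) (nat_lit 1) .nil)))))) (.g (nat_lit 1) (.e (nat_lit 256644) (nat_lit 0) .nil) .nil)))) (.nd (nat_lit 9) 
(.lf (nat_lit 534796) (.g (nat_lit 2175) (.e (nat_lit 57534) (nat_lit 46) (.e (nat_lit 704734) (nat_lit 11) (.e (nat_lit 16416) (nat_lit 3) (.e (nat_lit 204861) (nat_lit 26) (.e (nat_lit 336076) (nat_lit 9) .nil))))) (.g (nat_lit 0) (.e (nat_lit 255372) (nat_lit 0) .nil) .nil))) 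
(.lf (nat_lit 535308) (.g (nat_lit 2077) (.e (nat_lit 57809) (nat_lit 246) (.e (nat_lit 57883) (nat_lit 270) (.e (nat_lit 496) (nat_lit 39) (.e (nat_lit 483380) (nat_lit 23) (.e (nat_lit 336316) (nat_lit 17) (.e (nat_lit 204544) (nat_lit 19) .nil)))))) (.g (nat_lit 1) (.e (nat_lit 258005) (nat_lit 0) .nil) .nil))))) (.nd (nat_lit 8) (.nd (nat_lit 9) 
(.lf (nat_lit 534668) (.g (nat_lit 3098) (.e (nat_lit 57574) (nat_lit 55) (.e (nat_lit 778465) (nat_lit 11) (.e (nat_lit 24603) (nat_lit 2) (.e (nat_lit 90176) (nat_lit 15) (.e (nat_lit 188440) (nat_lit 20) (.e (nat_lit 3307) (nat_lit 202) (.e (nat_lit 573478) (nat_lit 12) .nil))))))) (.g (nat_lit 1) (.e (nat_lit 255072) (nat_lit 0) .nil) .nil))) 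
(.lf (nat_lit 535180) (.g (nat_lit 518) (.e (nat_lit 57692) (nat_lit 156) (.e (nat_lit 163907) (nat_lit 12) (.e (nat_lit 426131) (nat_lit 3) .nil))) (.g (nat_lit 0) (.e (nat_lit 257033) (nat_lit 0) .nil) .nil)))) (.nd (nat_lit 9) 
(.lf (nat_lit 534924) (.g (nat_lit 948) (.e (nat_lit 57685) (nat_lit 156) (.e (nat_lit 163903) (nat_lit 12) (.e (nat_lit 426428) (nat_lit 17) .nil))) (.g (nat_lit 0) (.e (nat_lit 256348) (nat_lit 0) .nil) .nil))) 
(.lf (nat_lit 535436) (.g (nat_lit 1559) (.e (nat_lit 57847) (nat_lit 252) (.e (nat_lit 57405) (nat_lit 12) (.e (nat_lit 336454) (nat_lit 34) (.e (nat_lit 483385) (nat_lit 23) .nil)))) (.g (nat_lit 0) (.e (nat_lit 258290) (nat_lit 0) .nil) .nil)))))) (.nd (nat_lit 7) (.nd (nat_lit 8) (.nd (nat_lit 9) 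
(.lf (nat_lit 534604) (.g (nat_lit 446) (.e (nat_lit 57503) (nat_lit 38) (.e (nat_lit 639020) (nat_lit 16) (.e (nat_lit 65627) (nat_lit 13) .nil))) (.g (nat_lit 0) (.e (nat_lit 254910) (nat_lit 0) .nil) .nil))) 
(.lf (nat_lit 535116) (.g (nat_lit 596) (.e (nat_lit 57691) (nat_lit 156) (.e (nat_lit 163905) (nat_lit 12) (.e (nat_lit 426436) (nat_lit 18) .nil))) (.g (nat_lit 0) (.e (nat_lit 256858) (nat_lit 0) .nil) .nil)))) (.nd (nat_lit 9) 
(.lf (nat_lit 534860) (.g (nat_lit 3164) (.e (nat_lit 57612) (nat_lit 116) (.e (nat_lit 778466) (nat_lit 11) (.e (nat_lit 24617) (nat_lit 7) (.e (nat_lit 319533) (nat_lit 16) (.e (nat_lit 286753) (nat_lit 10) .nil))))) (.g (nat_lit 0) (.e (nat_lit 255894) (nat_lit 0) .nil) .nil))) 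
(.lf (nat_lit 535372) (.g (nat_lit 1552) (.e (nat_lit 57844) (nat_lit 252) (.e (nat_lit 57408) (nat_lit 12) (.e (nat_lit 336454) (nat_lit 34) (.e (nat_lit 483404) (nat_lit 26) .nil)))) (.g (nat_lit 0) (.e (nat_lit 258201) (nat_lit 0) .nil) .nil))))) (.nd (nat_lit 8) (.nd (nat_lit 9) 
(.lf (nat_lit 534732) (.g (nat_lit 3533) (.e (nat_lit 57574) (nat_lit 55) (.e (nat_lit 778466) (nat_lit 11) (.e (nat_lit 24608) (nat_lit 3) (.e (nat_lit 98356) (nat_lit 26) (.e (nat_lit 426272) (nat_lit 10) .nil))))) (.g (nat_lit 0) (.e (nat_lit 255180) (nat_lit 0) .nil) .nil))) 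
(.lf (nat_lit 535244) (.g (nat_lit 2213) (.e (nat_lit 57715) (nat_lit 176) (.e (nat_lit 1348) (nat_lit 102) (.e (nat_lit 286735) (nat_lit 3) (.e (nat_lit 98362) (nat_lit 26) .nil)))) (.g (nat_lit 0) (.e (nat_lit 257373) (nat_lit 0) .nil) .nil)))) (.nd (nat_lit 9) 
(.lf (nat_lit 534988) (.g (nat_lit 662) (.e (nat_lit 57687) (nat_lit 156) (.e (nat_lit 163903) (nat_lit 12) (.e (nat_lit 426478) (nat_lit 27) .nil))) (.g (nat_lit 0) (.e (nat_lit 256486) (nat_lit 0) .nil) .nil))) 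
(.lf (nat_lit 535500) (.g (nat_lit 2359) (.e (nat_lit 57848) (nat_lit 252) (.e (nat_lit 57406) (nat_lit 12) (.e (nat_lit 336454) (nat_lit 34) (.e (nat_lit 483385) (nat_lit 23) .nil)))) (.g (nat_lit 0) (.e (nat_lit 258393) (nat_lit 0) .nil) .nil))))))) (.nd (nat_lit 6) (.nd (nat_lit 7) (.nd (nat_lit 8) (.nd (nat_lit 9) 
(.lf (nat_lit 534572) (.g (nat_lit 3304) (.e (nat_lit 57480) (nat_lit 28) (.e (nat_lit 557109) (nat_lit 15) (.e (nat_lit 188447) (nat_lit 22) (.e (nat_lit 196666) (nat_lit 13) (.e (nat_lit 65639) (nat_lit 15) (.e (nat_lit 3716) (nat_lit 227) (.e (nat_lit 778316) (nat_lit 3) .nil))))))) (.g (nat_lit 1) (.e (nat_lit 254857) (nat_lit 0) .nil) .nil))) 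
(.lf (nat_lit 535084) (.g (nat_lit 1527) (.e (nat_lit 57688) (nat_lit 156) (.e (nat_lit 163933) (nat_lit 17) (.e (nat_lit 466954) (nat_lit 11) (.e (nat_lit 336232) (nat_lit 14) .nil)))) (.g (nat_lit 0) (.e (nat_lit 256761) (nat_lit 0) .nil) .nil)))) (.nd (nat_lit 9) 
(.lf (nat_lit 534828) (.g (nat_lit 3326) (.e (nat_lit 57591) (nat_lit 73) (.e (nat_lit 426316) (nat_lit 12) (.e (nat_lit 475185) (nat_lit 29) (.e (nat_lit 557100) (nat_lit 13) .nil)))) (.g (nat_lit 0) (.e (nat_lit 255721) (nat_lit 0) .nil) .nil))) 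
(.lf (nat_lit 535340) (.g (nat_lit 1661) (.e (nat_lit 57857) (nat_lit 254) (.e (nat_lit 163908) (nat_lit 12) (.e (nat_lit 426025) (nat_lit 0) (.e (nat_lit 7107) (nat_lit 380) (.e (nat_lit 164281) (nat_lit 222) .nil))))) (.g (nat_lit 0) (.e (nat_lit 258124) (nat_lit 0) .nil) .nil))))) (.nd (nat_lit 8) (.nd (nat_lit 9) 
(.lf (nat_lit 534700) (.g (nat_lit 3662) (.e (nat_lit 57574) (nat_lit 55) (.e (nat_lit 778466) (nat_lit 11) (.e (nat_lit 24604) (nat_lit 2) (.e (nat_lit 90167) (nat_lit 13) (.e (nat_lit 172113) (nat_lit 10) (.e (nat_lit 434247) (nat_lit 28) (.e (nat_lit 573478) (nat_lit 12) .nil))))))) (.g (nat_lit 1) (.e (nat_lit 255144) (nat_lit 0) .nil) .nil))) 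
(.lf (nat_lit 535212) (.g (nat_lit 1543) (.e (nat_lit 65280) (nat_lit 168) (.e (nat_lit 163869) (nat_lit 2) (.e (nat_lit 196670) (nat_lit 14) (.e (nat_lit 73755) (nat_lit 8) .nil)))) (.g (nat_lit 0) (.e (nat_lit 257275) (nat_lit 0) .nil) .nil)))) (.nd (nat_lit 9) 
(.lf (nat_lit 534956) (.g (nat_lit 745) (.e (nat_lit 57686) (nat_lit 156) (.e (nat_lit 163903) (nat_lit 12) (.e (nat_lit 426567) (nat_lit 34) .nil))) (.g (nat_lit 0) (.e (nat_lit 256405) (nat_lit 0) .nil) .nil))) 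
(.lf (nat_lit 535468) (.g (nat_lit 1157) (.e (nat_lit 57848) (nat_lit 252) (.e (nat_lit 57368) (nat_lit 1) (.e (nat_lit 57854) (nat_lit 252) (.e (nat_lit 57389) (nat_lit 5) (.e (nat_lit 114723) (nat_lit 24) .nil))))) (.g (nat_lit 0) (.e (nat_lit 258331) (nat_lit 0) .nil) .nil)))))) (.nd (nat_lit 7) (.nd (nat_lit 8) (.nd (nat_lit 9) 
(.lf (nat_lit 534636) (.g (nat_lit 1854) (.e (nat_lit 57571) (nat_lit 54) (.e (nat_lit 770076) (nat_lit 12) (.e (nat_lit 131093) (nat_lit 2) (.e (nat_lit 90170) (nat_lit 13) (.e (nat_lit 172113) (nat_lit 10) .nil))))) (.g (nat_lit 0) (.e (nat_lit 255028) (nat_lit 0) .nil) .nil))) 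
(.lf (nat_lit 535148) (.g (nat_lit 2209) (.e (nat_lit 57692) (nat_lit 156) (.e (nat_lit 163869) (nat_lit 2) (.e (nat_lit 196656) (nat_lit 11) (.e (nat_lit 16458) (nat_lit 12) .nil)))) (.g (nat_lit 0) (.e (nat_lit 256969) (nat_lit 0) .nil) .nil)))) (.nd (nat_lit 9) 
(.lf (nat_lit 534892) (.g (nat_lit 312) (.e (nat_lit 57610) (nat_lit 109) (.e (nat_lit 720909) (nat_lit 11) (.e (nat_lit 426197) (nat_lit 9) .nil))) (.g (nat_lit 0) (.e (nat_lit 255988) (nat_lit 0) .nil) .nil))) 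
(.lf (nat_lit 535404) (.g (nat_lit 2043) (.e (nat_lit 57846) (nat_lit 252) (.e (nat_lit 57407) (nat_lit 12) (.e (nat_lit 336454) (nat_lit 34) (.e (nat_lit 483385) (nat_lit 23) (.e (nat_lit 336260) (nat_lit 15) .nil))))) (.g (nat_lit 0) (.e (nat_lit 258247) (nat_lit 0) .nil) .nil))))) (.nd (nat_lit 8) (.nd (nat_lit 9) 
(.lf (nat_lit 534764) (.g (nat_lit 4227) (.e (nat_lit 57575) (nat_lit 55) (.e (nat_lit 778465) (nat_lit 11) (.e (nat_lit 24604) (nat_lit 2) (.e (nat_lit 90170) (nat_lit 13) (.e (nat_lit 172106) (nat_lit 10) (.e (nat_lit 434242) (nat_lit 28) (.e (nat_lit 573477) (nat_lit 12) .nil))))))) (.g (nat_lit 1) (.e (nat_lit 255262) (nat_lit 0) .nil) .nil))) 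
(.lf (nat_lit 535276) (.g (nat_lit 4311) (.e (nat_lit 57751) (nat_lit 201) (.e (nat_lit 3067) (nat_lit 190) (.e (nat_lit 475183) (nat_lit 29) (.e (nat_lit 557098) (nat_lit 13) (.e (nat_lit 172097) (nat_lit 9) (.e (nat_lit 426125) (nat_lit 2) (.e (nat_lit 196661) (nat_lit 12) .nil))))))) (.g (nat_lit 1) (.e (nat_lit 257701) (nat_lit 0) .nil) .nil)))) (.nd (nat_lit 9) 
(.lf (nat_lit 535020) (.g (nat_lit 1930) (.e (nat_lit 57688) (nat_lit 156) (.e (nat_lit 163874) (nat_lit 3) (.e (nat_lit 204838) (nat_lit 20) (.e (nat_lit 114719) (nat_lit 23) (.e (nat_lit 98366) (nat_lit 27) .nil))))) (.g (nat_lit 0) (.e (nat_lit 256601) (nat_lit 0) .nil) .nil))) 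
(.lf (nat_lit 535532) (.g (nat_lit 3721) (.e (nat_lit 57848) (nat_lit 252) (.e (nat_lit 57445) (nat_lit 19) (.e (nat_lit 393229) (nat_lit 9) (.e (nat_lit 336105) (nat_lit 9) .nil)))) (.g (nat_lit 0) (.e (nat_lit 258425) (nat_lit 0) .nil) .nil)))))))) (.nd (nat_lit 5) (.nd (nat_lit 6) (.nd (nat_lit 7) (.nd (nat_lit 8) (.nd (nat_lit 9) 
(.lf (nat_lit 534556) (.g (nat_lit 2279) (.e (nat_lit 57480) (nat_lit 28) (.e (nat_lit 557107) (nat_lit 15) (.e (nat_lit 188450) (nat_lit 23) (.e (nat_lit 204852) (nat_lit 26) (.e (nat_lit 336242) (nat_lit 15) (.e (nat_lit 3681) (nat_lit 227) (.e (nat_lit 786176) (nat_lit 3) .nil))))))) (.g (nat_lit 1) (.e (nat_lit 254841) (nat_lit 0) .nil) .nil))) 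
(.lf (nat_lit 535068) (.g (nat_lit 1718) (.e (nat_lit 57688) (nat_lit 156) (.e (nat_lit 163907) (nat_lit 12) (.e (nat_lit 426428) (nat_lit 17) (.e (nat_lit 90169) (nat_lit 13) (.e (nat_lit 172122) (nat_lit 13) .nil))))) (.g (nat_lit 0) (.e (nat_lit 256676) (nat_lit 0) .nil) .nil)))) (.nd (nat_lit 9) 
(.lf (nat_lit 534812) (.g (nat_lit 1567) (.e (nat_lit 65280) (nat_lit 64) (.e (nat_lit 204868) (nat_lit 29) (.e (nat_lit 360466) (nat_lit 3) (.e (nat_lit 516149) (nat_lit 9) .nil)))) (.g (nat_lit 0) (.e (nat_lit 255565) (nat_lit 0) .nil) .nil))) 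
(.lf (nat_lit 535324) (.g (nat_lit 2362) (.e (nat_lit 57811) (nat_lit 246) (.e (nat_lit 57879) (nat_lit 270) (.e (nat_lit 496) (nat_lit 39) (.e (nat_lit 483403) (nat_lit 26) (.e (nat_lit 385057) (nat_lit 22) (.e (nat_lit 499780) (nat_lit 1) .nil)))))) (.g (nat_lit 1) (.e (nat_lit 258027) (nat_lit 0) .nil) .nil))))) (.nd (nat_lit 8) (.nd (nat_lit 9) 
(.lf (nat_lit 534684) (.g (nat_lit 3511) (.e (nat_lit 57574) (nat_lit 55) (.e (nat_lit 778465) (nat_lit 11) (.e (nat_lit 24604) (nat_lit 2) (.e (nat_lit 90178) (nat_lit 15) (.e (nat_lit 188441) (nat_lit 20) (.e (nat_lit 3307) (nat_lit 202) (.e (nat_lit 573477) (nat_lit 12) .nil))))))) (.g (nat_lit 1) (.e (nat_lit 255089) (nat_lit 0) .nil) .nil))) 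
(.lf (nat_lit 535196) (.g (nat_lit 435) (.e (nat_lit 57692) (nat_lit 156) (.e (nat_lit 163907) (nat_lit 12) (.e (nat_lit 426568) (nat_lit 34) .nil))) (.g (nat_lit 0) (.e (nat_lit 257085) (nat_lit 0) .nil) .nil)))) (.nd (nat_lit 9) 
(.lf (nat_lit 534940) (.g (nat_lit 890) (.e (nat_lit 57686) (nat_lit 156) (.e (nat_lit 163902) (nat_lit 12) (.e (nat_lit 426438) (nat_lit 18) (.e (nat_lit 98363) (nat_lit 26) .nil)))) (.g (nat_lit 0) (.e (nat_lit 256388) (nat_lit 0) .nil) .nil))) 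
(.lf (nat_lit 535452) (.g (nat_lit 2035) (.e (nat_lit 57847) (nat_lit 252) (.e (nat_lit 57407) (nat_lit 12) (.e (nat_lit 336316) (nat_lit 17) (.e (nat_lit 196666) (nat_lit 13) (.e (nat_lit 65617) (nat_lit 10) (.e (nat_lit 344096) (nat_lit 18) (.e (nat_lit 7697) (nat_lit 412) (.e (nat_lit 57363) (nat_lit 1) .nil)))))))) (.g (nat_lit 1) (.e (nat_lit 258306) (nat_lit 0) .nil) .nil)))))) 
(.nd (nat_lit 7) (.nd (nat_lit 8) (.nd (nat_lit 9) 
(.lf (nat_lit 534620) (.g (nat_lit 3111) (.e (nat_lit 65280) (nat_lit 38) (.e (nat_lit 638995) (nat_lit 7) (.e (nat_lit 163978) (nat_lit 30) (.e (nat_lit 573489) (nat_lit 14) (.e (nat_lit 73755) (nat_lit 8) .nil))))) (.g (nat_lit 0) (.e (nat_lit 254941) (nat_lit 0) .nil) .nil))) 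
(.lf (nat_lit 535132) (.g (nat_lit 456) (.e (nat_lit 57691) (nat_lit 156) (.e (nat_lit 163907) (nat_lit 12) (.e (nat_lit 426436) (nat_lit 18) .nil))) (.g (nat_lit 0) (.e (nat_lit 256901) (nat_lit 0) .nil) .nil)))) (.nd (nat_lit 9) 
(.lf (nat_lit 534876) (.g (nat_lit 2124) (.e (nat_lit 57610) (nat_lit 109) (.e (nat_lit 720909) (nat_lit 11) (.e (nat_lit 426187) (nat_lit 9) (.e (nat_lit 426550) (nat_lit 31) (.e (nat_lit 368656) (nat_lit 14) (.e (nat_lit 57810) (nat_lit 246) .nil)))))) (.g (nat_lit 1) (.e (nat_lit 255972) (nat_lit 0) .nil) .nil))) 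
(.lf (nat_lit 535388) (.g (nat_lit 3738) (.e (nat_lit 57846) (nat_lit 252) (.e (nat_lit 57372) (nat_lit 2) (.e (nat_lit 90160) (nat_lit 11) (.e (nat_lit 24628) (nat_lit 9) (.e (nat_lit 336454) (nat_lit 34) (.e (nat_lit 483365) (nat_lit 18) .nil)))))) (.g (nat_lit 1) (.e (nat_lit 258219) (nat_lit 0) .nil) .nil))))) (.nd (nat_lit 8) (.nd (nat_lit 9) 
(.lf (nat_lit 534748) (.g (nat_lit 5365) (.e (nat_lit 57574) (nat_lit 55) (.e (nat_lit 778466) (nat_lit 11) (.e (nat_lit 24608) (nat_lit 3) (.e (nat_lit 98373) (nat_lit 29) (.e (nat_lit 450588) (nat_lit 10) (.e (nat_lit 573475) (nat_lit 12) .nil)))))) (.g (nat_lit 1) (.e (nat_lit 255198) (nat_lit 0) .nil) .nil))) 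
(.lf (nat_lit 535260) (.g (nat_lit 3743) (.e (nat_lit 57750) (nat_lit 201) (.e (nat_lit 2857) (nat_lit 184) (.e (nat_lit 426402) (nat_lit 15) (.e (nat_lit 1859) (nat_lit 124) (.e (nat_lit 557109) (nat_lit 15) (.e (nat_lit 188449) (nat_lit 22) (.e (nat_lit 196661) (nat_lit 12) .nil))))))) (.g (nat_lit 1) (.e (nat_lit 257522) (nat_lit 0) .nil) .nil)))) (.nd (nat_lit 9) 
(.lf (nat_lit 535004) (.g (nat_lit 353) (.e (nat_lit 57687) (nat_lit 156) (.e (nat_lit 163933) (nat_lit 17) (.e (nat_lit 466954) (nat_lit 11) .nil))) (.g (nat_lit 0) (.e (nat_lit 256531) (nat_lit 0) .nil) .nil))) 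
(.lf (nat_lit 535516) (.g (nat_lit 2344) (.e (nat_lit 57848) (nat_lit 252) (.e (nat_lit 57407) (nat_lit 12) (.e (nat_lit 336456) (nat_lit 34) (.e (nat_lit 483383) (nat_lit 23) (.e (nat_lit 336270) (nat_lit 15) .nil))))) (.g (nat_lit 0) (.e (nat_lit 258409) (nat_lit 0) .nil) .nil))))))) (.nd (nat_lit 6) (.nd (nat_lit 7) (.nd (nat_lit 8) (.nd (nat_lit 9) 
(.lf (nat_lit 534588) (.g (nat_lit 2947) (.e (nat_lit 57502) (nat_lit 38) (.e (nat_lit 638995) (nat_lit 7) (.e (nat_lit 163979) (nat_lit 30) (.e (nat_lit 573487) (nat_lit 14) (.e (nat_lit 73754) (nat_lit 8) .nil))))) (.g (nat_lit 0) (.e (nat_lit 254894) (nat_lit 0) .nil) .nil))) 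
(.lf (nat_lit 535100) (.g (nat_lit 2365) (.e (nat_lit 57690) (nat_lit 156) (.e (nat_lit 163874) (nat_lit 3) (.e (nat_lit 204837) (nat_lit 20) (.e (nat_lit 114719) (nat_lit 23) (.e (nat_lit 98366) (nat_lit 27) .nil))))) (.g (nat_lit 0) (.e (nat_lit 256830) (nat_lit 0) .nil) .nil)))) (.nd (nat_lit 9) 
(.lf (nat_lit 534844) (.g (nat_lit 1393) (.e (nat_lit 57596) (nat_lit 82) (.e (nat_lit 499900) (nat_lit 7) (.e (nat_lit 24630) (nat_lit 9) (.e (nat_lit 336450) (nat_lit 33) (.e (nat_lit 475152) (nat_lit 17) .nil))))) (.g (nat_lit 0) (.e (nat_lit 255799) (nat_lit 0) .nil) .nil))) 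
(.lf (nat_lit 535356) (.g (nat_lit 2260) (.e (nat_lit 57844) (nat_lit 252) (.e (nat_lit 57375) (nat_lit 2) (.e (nat_lit 90158) (nat_lit 11) (.e (nat_lit 24628) (nat_lit 9) (.e (nat_lit 336454) (nat_lit 34) (.e (nat_lit 483366) (nat_lit 18) .nil)))))) (.g (nat_lit 1) (.e (nat_lit 258173) (nat_lit 0) .nil) .nil))))) (.nd (nat_lit 8) (.nd (nat_lit 9) 
(.lf (nat_lit 534716) (.g (nat_lit 2882) (.e (nat_lit 57574) (nat_lit 55) (.e (nat_lit 778466) (nat_lit 11) (.e (nat_lit 24604) (nat_lit 2) (.e (nat_lit 90176) (nat_lit 15) (.e (nat_lit 188441) (nat_lit 20) (.e (nat_lit 3307) (nat_lit 202) (.e (nat_lit 573477) (nat_lit 12) .nil))))))) (.g (nat_lit 1) (.e (nat_lit 255161) (nat_lit 0) .nil) .nil))) 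
(.lf (nat_lit 535228) (.g (nat_lit 1919) (.e (nat_lit 57711) (nat_lit 176) (.e (nat_lit 1348) (nat_lit 102) (.e (nat_lit 286735) (nat_lit 3) (.e (nat_lit 98355) (nat_lit 26) .nil)))) (.g (nat_lit 0) (.e (nat_lit 257307) (nat_lit 0) .nil) .nil)))) (.nd (nat_lit 9) 
(.lf (nat_lit 534972) (.g (nat_lit 1444) (.e (nat_lit 57687) (nat_lit 156) (.e (nat_lit 163902) (nat_lit 12) (.e (nat_lit 426428) (nat_lit 17) (.e (nat_lit 90170) (nat_lit 13) .nil)))) (.g (nat_lit 0) (.e (nat_lit 256468) (nat_lit 0) .nil) .nil))) 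
(.lf (nat_lit 535484) (.g (nat_lit 3033) (.e (nat_lit 57848) (nat_lit 252) (.e (nat_lit 57374) (nat_lit 2) (.e (nat_lit 90158) (nat_lit 11) (.e (nat_lit 24625) (nat_lit 9) (.e (nat_lit 336456) (nat_lit 34) (.e (nat_lit 483365) (nat_lit 18) .nil)))))) (.g (nat_lit 1) (.e (nat_lit 258356) (nat_lit 0) .nil) .nil)))))) (.nd (nat_lit 7) (.nd (nat_lit 8) (.nd (nat_lit 9) 
(.lf (nat_lit 534652) (.g (nat_lit 1817) (.e (nat_lit 57572) (nat_lit 54) (.e (nat_lit 770072) (nat_lit 8) (.e (nat_lit 65571) (nat_lit 3) (.e (nat_lit 98359) (nat_lit 26) (.e (nat_lit 426286) (nat_lit 10) (.e (nat_lit 434242) (nat_lit 28) (.e (nat_lit 573472) (nat_lit 12) .nil))))))) (.g (nat_lit 1) (.e (nat_lit 255050) (nat_lit 0) .nil) .nil))) 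
(.lf (nat_lit 535164) (.g (nat_lit 1263) (.e (nat_lit 57692) (nat_lit 156) (.e (nat_lit 163905) (nat_lit 12) (.e (nat_lit 426428) (nat_lit 17) (.e (nat_lit 90184) (nat_lit 17) .nil)))) (.g (nat_lit 0) (.e (nat_lit 256996) (nat_lit 0) .nil) .nil)))) (.nd (nat_lit 9) 
(.lf (nat_lit 534908) (.g (nat_lit 1938) (.e (nat_lit 57610) (nat_lit 109) (.e (nat_lit 720909) (nat_lit 11) (.e (nat_lit 426200) (nat_lit 9) (.e (nat_lit 426550) (nat_lit 31) (.e (nat_lit 368656) (nat_lit 14) (.e (nat_lit 57815) (nat_lit 246) .nil)))))) (.g (nat_lit 1) (.e (nat_lit 256004) (nat_lit 0) .nil) .nil))) 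
(.lf (nat_lit 535420) (.g (nat_lit 1609) (.e (nat_lit 57847) (nat_lit 252) (.e (nat_lit 57374) (nat_lit 2) (.e (nat_lit 90156) (nat_lit 11) (.e (nat_lit 24627) (nat_lit 9) (.e (nat_lit 336454) (nat_lit 34) .nil))))) (.g (nat_lit 0) (.e (nat_lit 258267) (nat_lit 0) .nil) .nil))))) (.nd (nat_lit 8) (.nd (nat_lit 9) 
(.lf (nat_lit 534780) (.g (nat_lit 5129) (.e (nat_lit 57575) (nat_lit 55) (.e (nat_lit 778466) (nat_lit 11) (.e (nat_lit 24608) (nat_lit 3) (.e (nat_lit 98373) (nat_lit 29) (.e (nat_lit 450587) (nat_lit 10) (.e (nat_lit 573477) (nat_lit 12) .nil)))))) (.g (nat_lit 1) (.e (nat_lit 255281) (nat_lit 0) .nil) .nil))) 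
(.lf (nat_lit 535292) (.g (nat_lit 3315) (.e (nat_lit 57819) (nat_lit 248) (.e (nat_lit 164359) (nat_lit 246) (.e (nat_lit 2661) (nat_lit 167) (.e (nat_lit 196666) (nat_lit 13) (.e (nat_lit 65598) (nat_lit 9) (.e (nat_lit 336013) (nat_lit 2) (.e (nat_lit 98048) (nat_lit 19) .nil))))))) (.g (nat_lit 1) (.e (nat_lit 257979) (nat_lit 0) .nil) .nil)))) (.nd (nat_lit 9) 
(.lf (nat_lit 535036) (.g (nat_lit 1093) (.e (nat_lit 57688) (nat_lit 156) (.e (nat_lit 163902) (nat_lit 12) (.e (nat_lit 426484) (nat_lit 27) .nil))) (.g (nat_lit 0) (.e (nat_lit 256621) (nat_lit 0) .nil) .nil))) 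
(.lf (nat_lit 535548) (.g (nat_lit 2429) (.e (nat_lit 57849) (nat_lit 252) (.e (nat_lit 57375) (nat_lit 2) (.e (nat_lit 90158) (nat_lit 11) (.e (nat_lit 24628) (nat_lit 9) (.e (nat_lit 336368) (nat_lit 27) (.e (nat_lit 426497) (nat_lit 27) (.e (nat_lit 335986) (nat_lit 1) .nil))))))) (.g (nat_lit 1) (.e (nat_lit 258444) (nat_lit 0) .nil) .nil))))))))))) 
(.nd (nat_lit 2) (.nd (nat_lit 3) (.nd (nat_lit 4) (.nd (nat_lit 5) (.nd (nat_lit 6) 
(.nd (nat_lit 7) (.nd (nat_lit 8) (.nd (nat_lit 9) 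
(.lf (nat_lit 534530) (.g (nat_lit 3912) (.e (nat_lit 57479) (nat_lit 28) (.e (nat_lit 557105) (nat_lit 14) (.e (nat_lit 180252) (nat_lit 10) (.e (nat_lit 573489) (nat_lit 14) (.e (nat_lit 73748) (nat_lit 3) (.e (nat_lit 516100) (nat_lit 0) (.e (nat_lit 7936) (nat_lit 216) (.e (nat_lit 688166) (nat_lit 15) .nil)))))))) (.g (nat_lit 1) (.e (nat_lit 254744) (nat_lit 0) .nil) .nil))) 
(.lf (nat_lit 535042) (.g (nat_lit 2325) (.e (nat_lit 57688) (nat_lit 156) (.e (nat_lit 163903) (nat_lit 12) (.e (nat_lit 426428) (nat_lit 17) (.e (nat_lit 90178) (nat_lit 15) (.e (nat_lit 188421) (nat_lit 11) (.e (nat_lit 335993) (nat_lit 1) .nil)))))) (.g (nat_lit 1) (.e (nat_lit 256634) (nat_lit 0) .nil) .nil)))) (.nd (nat_lit 9) 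
(.lf (nat_lit 534786) (.g (nat_lit 3478) (.e (nat_lit 57575) (nat_lit 55) (.e (nat_lit 778466) (nat_lit 11) (.e (nat_lit 24617) (nat_lit 7) (.e (nat_lit 319533) (nat_lit 16) (.e (nat_lit 286753) (nat_lit 10) (.e (nat_lit 344166) (nat_lit 38) (.e (nat_lit 655398) (nat_lit 12) .nil))))))) (.g (nat_lit 1) (.e (nat_lit 255288) (nat_lit 0) .nil) .nil))) 
(.lf (nat_lit 535298) (.g (nat_lit 2118) (.e (nat_lit 57808) (nat_lit 246) (.e (nat_lit 57879) (nat_lit 270) (.e (nat_lit 496) (nat_lit 39) (.e (nat_lit 483383) (nat_lit 23) (.e (nat_lit 336320) (nat_lit 17) (.e (nat_lit 196698) (nat_lit 19) .nil)))))) (.g (nat_lit 1) (.e (nat_lit 257995) (nat_lit 0) .nil) .nil))))) (.nd (nat_lit 8) (.nd (nat_lit 9) 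
(.lf (nat_lit 534658) (.g (nat_lit 4234) (.e (nat_lit 57572) (nat_lit 54) (.e (nat_lit 770072) (nat_lit 8) (.e (nat_lit 65571) (nat_lit 3) (.e (nat_lit 98374) (nat_lit 29) (.e (nat_lit 450585) (nat_lit 10) (.e (nat_lit 573474) (nat_lit 12) .nil)))))) (.g (nat_lit 1) (.e (nat_lit 255056) (nat_lit 0) .nil) .nil))) 
(.lf (nat_lit 535170) (.g (nat_lit 876) (.e (nat_lit 57692) (nat_lit 156) (.e (nat_lit 163905) (nat_lit 12) (.e (nat_lit 426487) (nat_lit 27) .nil))) (.g (nat_lit 0) (.e (nat_lit 257019) (nat_lit 0) .nil) .nil)))) (.nd (nat_lit 9) 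
(.lf (nat_lit 534914) (.g (nat_lit 2192) (.e (nat_lit 57663) (nat_lit 152) (.e (nat_lit 2612) (nat_lit 163) (.e (nat_lit 163978) (nat_lit 30) (.e (nat_lit 573487) (nat_lit 14) (.e (nat_lit 73753) (nat_lit 8) .nil))))) (.g (nat_lit 0) (.e (nat_lit 256255) (nat_lit 0) .nil) .nil))) 
(.lf (nat_lit 535426) (.g (nat_lit 2414) (.e (nat_lit 57847) (nat_lit 252) (.e (nat_lit 57375) (nat_lit 2) (.e (nat_lit 90160) (nat_lit 11) (.e (nat_lit 24628) (nat_lit 9) (.e (nat_lit 336370) (nat_lit 27) (.e (nat_lit 426501) (nat_lit 27) (.e (nat_lit 335986) (nat_lit 1) .nil))))))) (.g (nat_lit 1) (.e (nat_lit 258274) (nat_lit 0) .nil) .nil)))))) 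
(.nd (nat_lit 7) (.nd (nat_lit 8) (.nd (nat_lit 9) 
(.lf (nat_lit 534594) (.g (nat_lit 4456) (.e (nat_lit 57502) (nat_lit 38) (.e (nat_lit 638995) (nat_lit 7) (.e (nat_lit 163979) (nat_lit 30) (.e (nat_lit 573489) (nat_lit 14) (.e (nat_lit 73755) (nat_lit 8) (.e (nat_lit 557105) (nat_lit 14) (.e (nat_lit 180251) (nat_lit 10) (.e (nat_lit 573477) (nat_lit 12) .nil)))))))) (.g (nat_lit 1) (.e (nat_lit 254900) (nat_lit 0) .nil) .nil))) 
(.lf (nat_lit 535106) (.g (nat_lit 3924) (.e (nat_lit 57691) (nat_lit 156) (.e (nat_lit 163875) (nat_lit 3) (.e (nat_lit 204830) (nat_lit 18) (.e (nat_lit 57852) (nat_lit 252) (.e (nat_lit 57430) (nat_lit 16) (.e (nat_lit 368676) (nat_lit 21) (.e (nat_lit 516146) (nat_lit 9) (.e (nat_lit 426422) (nat_lit 16) .nil)))))))) (.g (nat_lit 1) (.e (nat_lit 256847) (nat_lit 0) .nil) .nil)))) 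
(.nd (nat_lit 9) 
(.lf (nat_lit 534850) (.g (nat_lit 2433) (.e (nat_lit 65280) (nat_lit 84) (.e (nat_lit 516179) (nat_lit 15) (.e (nat_lit 475179) (nat_lit 24) (.e (nat_lit 516171) (nat_lit 13) (.e (nat_lit 458789) (nat_lit 23) .nil))))) (.g (nat_lit 0) (.e (nat_lit 255871) (nat_lit 0) .nil) .nil))) 
(.lf (nat_lit 535362) (.g (nat_lit 1281) (.e (nat_lit 57844) (nat_lit 252) (.e (nat_lit 57382) (nat_lit 4) (.e (nat_lit 106536) (nat_lit 11) (.e (nat_lit 16437) (nat_lit 9) .nil)))) (.g (nat_lit 0) (.e (nat_lit 258179) (nat_lit 0) .nil) .nil))))) (.nd (nat_lit 8) (.nd (nat_lit 9) 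
(.lf (nat_lit 534722) (.g (nat_lit 4747) (.e (nat_lit 57574) (nat_lit 55) (.e (nat_lit 778466) (nat_lit 11) (.e (nat_lit 24604) (nat_lit 2) (.e (nat_lit 90178) (nat_lit 15) (.e (nat_lit 188440) (nat_lit 20) (.e (nat_lit 3307) (nat_lit 202) (.e (nat_lit 573478) (nat_lit 12) .nil))))))) (.g (nat_lit 1) (.e (nat_lit 255167) (nat_lit 0) .nil) .nil))) 
(.lf (nat_lit 535234) (.g (nat_lit 1877) (.e (nat_lit 57713) (nat_lit 176) (.e (nat_lit 1348) (nat_lit 102) (.e (nat_lit 286735) (nat_lit 3) (.e (nat_lit 98360) (nat_lit 26) .nil)))) (.g (nat_lit 0) (.e (nat_lit 257351) (nat_lit 0) .nil) .nil)))) (.nd (nat_lit 9) 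
(.lf (nat_lit 534978) (.g (nat_lit 414) (.e (nat_lit 57687) (nat_lit 156) (.e (nat_lit 163902) (nat_lit 12) (.e (nat_lit 426568) (nat_lit 34) .nil))) (.g (nat_lit 0) (.e (nat_lit 256474) (nat_lit 0) .nil) .nil))) 
(.lf (nat_lit 535490) (.g (nat_lit 1619) (.e (nat_lit 57848) (nat_lit 252) (.e (nat_lit 57375) (nat_lit 2) (.e (nat_lit 90159) (nat_lit 11) (.e (nat_lit 24657) (nat_lit 13) (.e (nat_lit 393227) (nat_lit 9) (.e (nat_lit 343808) (nat_lit 1) .nil)))))) (.g (nat_lit 1) (.e (nat_lit 258362) (nat_lit 0) .nil) .nil))))))) (.nd (nat_lit 6) (.nd (nat_lit 7) (.nd (nat_lit 8) (.nd (nat_lit 9) 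
(.lf (nat_lit 534562) (.g (nat_lit 2811) (.e (nat_lit 57480) (nat_lit 28) (.e (nat_lit 557107) (nat_lit 15) (.e (nat_lit 188450) (nat_lit 23) (.e (nat_lit 204855) (nat_lit 26) (.e (nat_lit 336253) (nat_lit 15) (.e (nat_lit 3716) (nat_lit 227) (.e (nat_lit 778316) (nat_lit 3) .nil))))))) (.g (nat_lit 1) (.e (nat_lit 254847) (nat_lit 0) .nil) .nil))) 
(.lf (nat_lit 535074) (.g (nat_lit 859) (.e (nat_lit 57688) (nat_lit 156) (.e (nat_lit 163907) (nat_lit 12) (.e (nat_lit 426437) (nat_lit 18) .nil))) (.g (nat_lit 0) (.e (nat_lit 256682) (nat_lit 0) .nil) .nil)))) (.nd (nat_lit 9) 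
(.lf (nat_lit 534818) (.g (nat_lit 938) (.e (nat_lit 65280) (nat_lit 65) (.e (nat_lit 213032) (nat_lit 11) (.e (nat_lit 24597) (nat_lit 1) .nil))) (.g (nat_lit 0) (.e (nat_lit 255598) (nat_lit 0) .nil) .nil))) 
(.lf (nat_lit 535330) (.g (nat_lit 2583) (.e (nat_lit 57829) (nat_lit 250) (.e (nat_lit 1183) (nat_lit 87) (.e (nat_lit 57480) (nat_lit 28) (.e (nat_lit 557103) (nat_lit 14) (.e (nat_lit 180250) (nat_lit 10) .nil))))) (.g (nat_lit 0) (.e (nat_lit 258081) (nat_lit 0) .nil) .nil))))) (.nd (nat_lit 8) (.nd (nat_lit 9) 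
(.lf (nat_lit 534690) (.g (nat_lit 2067) (.e (nat_lit 57574) (nat_lit 55) (.e (nat_lit 778465) (nat_lit 11) (.e (nat_lit 24608) (nat_lit 3) (.e (nat_lit 98356) (nat_lit 26) .nil)))) (.g (nat_lit 0) (.e (nat_lit 255095) (nat_lit 0) .nil) .nil))) 
(.lf (nat_lit 535202) (.g (nat_lit 1725) (.e (nat_lit 57694) (nat_lit 157) (.e (nat_lit 229415) (nat_lit 15) (.e (nat_lit 450563) (nat_lit 0) (.e (nat_lit 6252) (nat_lit 337) .nil)))) (.g (nat_lit 0) (.e (nat_lit 257139) (nat_lit 0) .nil) .nil)))) (.nd (nat_lit 9) 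
(.lf (nat_lit 534946) (.g (nat_lit 2017) (.e (nat_lit 57686) (nat_lit 156) (.e (nat_lit 163903) (nat_lit 12) (.e (nat_lit 426428) (nat_lit 17) (.e (nat_lit 90170) (nat_lit 13) (.e (nat_lit 172123) (nat_lit 13) .nil))))) (.g (nat_lit 0) (.e (nat_lit 256394) (nat_lit 0) .nil) .nil))) 
(.lf (nat_lit 535458) (.g (nat_lit 2713) (.e (nat_lit 57847) (nat_lit 252) (.e (nat_lit 57411) (nat_lit 12) (.e (nat_lit 336316) (nat_lit 17) (.e (nat_lit 196666) (nat_lit 13) (.e (nat_lit 65617) (nat_lit 10) (.e (nat_lit 344096) (nat_lit 18) (.e (nat_lit 7695) (nat_lit 412) (.e (nat_lit 57366) (nat_lit 1) .nil)))))))) (.g (nat_lit 1) (.e (nat_lit 258315) (nat_lit 0) .nil) .nil)))))) 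
(.nd (nat_lit 7) (.nd (nat_lit 8) (.nd (nat_lit 9) 
(.lf (nat_lit 534626) (.g (nat_lit 3217) (.e (nat_lit 57508) (nat_lit 39) (.e (nat_lit 647181) (nat_lit 3) (.e (nat_lit 163964) (nat_lit 25) (.e (nat_lit 532553) (nat_lit 13) (.e (nat_lit 368676) (nat_lit 21) (.e (nat_lit 516131) (nat_lit 3) (.e (nat_lit 221212) (nat_lit 22) (.e (nat_lit 196658) (nat_lit 12) .nil)))))))) (.g (nat_lit 1) (.e (nat_lit 254963) (nat_lit 0) .nil) .nil))) 
(.lf (nat_lit 535138) (.g (nat_lit 2995) (.e (nat_lit 57691) (nat_lit 156) (.e (nat_lit 163938) (nat_lit 18) (.e (nat_lit 475179) (nat_lit 24) (.e (nat_lit 516150) (nat_lit 9) (.e (nat_lit 426323) (nat_lit 13) (.e (nat_lit 483366) (nat_lit 18) .nil)))))) (.g (nat_lit 1) (.e (nat_lit 256934) (nat_lit 0) .nil) .nil)))) (.nd (nat_lit 9) 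
(.lf (nat_lit 534882) (.g (nat_lit 1887) (.e (nat_lit 57610) (nat_lit 109) (.e (nat_lit 720909) (nat_lit 11) (.e (nat_lit 426188) (nat_lit 9) (.e (nat_lit 426550) (nat_lit 31) (.e (nat_lit 368656) (nat_lit 14) (.e (nat_lit 57808) (nat_lit 246) .nil)))))) (.g (nat_lit 1) (.e (nat_lit 255978) (nat_lit 0) .nil) .nil))) 
(.lf (nat_lit 535394) (.g (nat_lit 2340) (.e (nat_lit 57846) (nat_lit 252) (.e (nat_lit 57375) (nat_lit 2) (.e (nat_lit 90160) (nat_lit 11) (.e (nat_lit 24628) (nat_lit 9) (.e (nat_lit 336456) (nat_lit 34) .nil))))) (.g (nat_lit 0) (.e (nat_lit 258226) (nat_lit 0) .nil) .nil))))) (.nd (nat_lit 8) (.nd (nat_lit 9) 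
(.lf (nat_lit 534754) (.g (nat_lit 2295) (.e (nat_lit 57574) (nat_lit 55) (.e (nat_lit 778466) (nat_lit 11) (.e (nat_lit 24617) (nat_lit 7) (.e (nat_lit 319533) (nat_lit 16) (.e (nat_lit 286753) (nat_lit 10) .nil))))) (.g (nat_lit 0) (.e (nat_lit 255204) (nat_lit 0) .nil) .nil))) 
(.lf (nat_lit 535266) (.g (nat_lit 3986) (.e (nat_lit 57750) (nat_lit 201) (.e (nat_lit 3067) (nat_lit 190) (.e (nat_lit 475184) (nat_lit 29) (.e (nat_lit 557109) (nat_lit 15) (.e (nat_lit 188449) (nat_lit 22) (.e (nat_lit 196661) (nat_lit 12) .nil)))))) (.g (nat_lit 1) (.e (nat_lit 257531) (nat_lit 0) .nil) .nil)))) (.nd (nat_lit 9) 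
(.lf (nat_lit 535010) (.g (nat_lit 776) (.e (nat_lit 57688) (nat_lit 156) (.e (nat_lit 163867) (nat_lit 2) (.e (nat_lit 196656) (nat_lit 11) .nil))) (.g (nat_lit 0) (.e (nat_lit 256569) (nat_lit 0) .nil) .nil))) 
(.lf (nat_lit 535522) (.g (nat_lit 3140) (.e (nat_lit 57848) (nat_lit 252) (.e (nat_lit 57409) (nat_lit 12) (.e (nat_lit 336454) (nat_lit 34) (.e (nat_lit 483385) (nat_lit 23) (.e (nat_lit 336306) (nat_lit 15) .nil))))) (.g (nat_lit 0) (.e (nat_lit 258415) (nat_lit 0) .nil) .nil)))))))) (.nd (nat_lit 5) (.nd (nat_lit 6) (.nd (nat_lit 7) (.nd (nat_lit 8) (.nd (nat_lit 9) 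
(.lf (nat_lit 534546) (.g (nat_lit 2306) (.e (nat_lit 57480) (nat_lit 28) (.e (nat_lit 557098) (nat_lit 13) (.e (nat_lit 172115) (nat_lit 10) (.e (nat_lit 434231) (nat_lit 23) (.e (nat_lit 532535) (nat_lit 9) (.e (nat_lit 336290) (nat_lit 15) (.e (nat_lit 3715) (nat_lit 227) (.e (nat_lit 786176) (nat_lit 3) .nil)))))))) (.g (nat_lit 1) (.e (nat_lit 254827) (nat_lit 0) .nil) .nil))) 
(.lf (nat_lit 535058) (.g (nat_lit 1848) (.e (nat_lit 57688) (nat_lit 156) (.e (nat_lit 163903) (nat_lit 12) (.e (nat_lit 426566) (nat_lit 34) (.e (nat_lit 393284) (nat_lit 24) .nil)))) (.g (nat_lit 0) (.e (nat_lit 256654) (nat_lit 0) .nil) .nil)))) (.nd (nat_lit 9) 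
(.lf (nat_lit 534802) (.g (nat_lit 2021) (.e (nat_lit 57540) (nat_lit 46) (.e (nat_lit 704738) (nat_lit 11) (.e (nat_lit 16425) (nat_lit 7) (.e (nat_lit 409649) (nat_lit 18) (.e (nat_lit 303140) (nat_lit 10) .nil))))) (.g (nat_lit 0) (.e (nat_lit 255400) (nat_lit 0) .nil) .nil))) 
(.lf (nat_lit 535314) (.g (nat_lit 1951) (.e (nat_lit 57810) (nat_lit 246) (.e (nat_lit 57879) (nat_lit 270) (.e (nat_lit 496) (nat_lit 39) (.e (nat_lit 483406) (nat_lit 26) (.e (nat_lit 385057) (nat_lit 22) (.e (nat_lit 499780) (nat_lit 1) .nil)))))) (.g (nat_lit 1) (.e (nat_lit 258014) (nat_lit 0) .nil) .nil))))) (.nd (nat_lit 8) (.nd (nat_lit 9) 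
(.lf (nat_lit 534674) (.g (nat_lit 4381) (.e (nat_lit 57574) (nat_lit 55) (.e (nat_lit 778465) (nat_lit 11) (.e (nat_lit 24604) (nat_lit 2) (.e (nat_lit 90170) (nat_lit 13) (.e (nat_lit 172113) (nat_lit 10) (.e (nat_lit 434247) (nat_lit 28) (.e (nat_lit 573477) (nat_lit 12) .nil))))))) (.g (nat_lit 1) (.e (nat_lit 255079) (nat_lit 0) .nil) .nil))) 
(.lf (nat_lit 535186) (.g (nat_lit 3612) (.e (nat_lit 57692) (nat_lit 156) (.e (nat_lit 163907) (nat_lit 12) (.e (nat_lit 426428) (nat_lit 17) (.e (nat_lit 90178) (nat_lit 15) (.e (nat_lit 188421) (nat_lit 11) (.e (nat_lit 335996) (nat_lit 1) .nil)))))) (.g (nat_lit 1) (.e (nat_lit 257063) (nat_lit 0) .nil) .nil)))) (.nd (nat_lit 9) 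
(.lf (nat_lit 534930) (.g (nat_lit 1494) (.e (nat_lit 57686) (nat_lit 156) (.e (nat_lit 163875) (nat_lit 3) (.e (nat_lit 204837) (nat_lit 20) (.e (nat_lit 114718) (nat_lit 23) .nil)))) (.g (nat_lit 0) (.e (nat_lit 256375) (nat_lit 0) .nil) .nil))) 
(.lf (nat_lit 535442) (.g (nat_lit 3398) (.e (nat_lit 57847) (nat_lit 252) (.e (nat_lit 57407) (nat_lit 12) (.e (nat_lit 336316) (nat_lit 17) (.e (nat_lit 196666) (nat_lit 13) (.e (nat_lit 65610) (nat_lit 10) (.e (nat_lit 344090) (nat_lit 18) (.e (nat_lit 7697) (nat_lit 412) (.e (nat_lit 57363) (nat_lit 1) .nil)))))))) (.g (nat_lit 1) (.e (nat_lit 258296) (nat_lit 0) .nil) .nil)))))) 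
(.nd (nat_lit 7) (.nd (nat_lit 8) (.nd (nat_lit 9) 
(.lf (nat_lit 534610) (.g (nat_lit 5407) (.e (nat_lit 57503) (nat_lit 38) (.e (nat_lit 638995) (nat_lit 7) (.e (nat_lit 163979) (nat_lit 30) (.e (nat_lit 573489) (nat_lit 14) (.e (nat_lit 73755) (nat_lit 8) (.e (nat_lit 557103) (nat_lit 14) (.e (nat_lit 180250) (nat_lit 10) (.e (nat_lit 573473) (nat_lit 12) .nil)))))))) (.g (nat_lit 1) (.e (nat_lit 254918) (nat_lit 0) .nil) .nil))) 
(.lf (nat_lit 535122) (.g (nat_lit 939) (.e (nat_lit 57691) (nat_lit 156) (.e (nat_lit 163905) (nat_lit 12) (.e (nat_lit 426568) (nat_lit 34) (.e (nat_lit 393282) (nat_lit 24) .nil)))) (.g (nat_lit 0) (.e (nat_lit 256872) (nat_lit 0) .nil) .nil)))) (.nd (nat_lit 9) 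
(.lf (nat_lit 534866) (.g (nat_lit 3736) (.e (nat_lit 57615) (nat_lit 116) (.e (nat_lit 778466) (nat_lit 11) (.e (nat_lit 24617) (nat_lit 7) (.e (nat_lit 319534) (nat_lit 16) (.e (nat_lit 286756) (nat_lit 10) (.e (nat_lit 344168) (nat_lit 40) (.e (nat_lit 679680) (nat_lit 15) .nil))))))) (.g (nat_lit 1) (.e (nat_lit 255903) (nat_lit 0) .nil) .nil))) 
(.lf (nat_lit 535378) (.g (nat_lit 1787) (.e (nat_lit 57845) (nat_lit 252) (.e (nat_lit 57375) (nat_lit 2) (.e (nat_lit 90160) (nat_lit 11) (.e (nat_lit 24624) (nat_lit 9) .nil)))) (.g (nat_lit 0) (.e (nat_lit 258207) (nat_lit 0) .nil) .nil))))) (.nd (nat_lit 8) (.nd (nat_lit 9) 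
(.lf (nat_lit 534738) (.g (nat_lit 3603) (.e (nat_lit 57574) (nat_lit 55) (.e (nat_lit 778466) (nat_lit 11) (.e (nat_lit 24608) (nat_lit 3) (.e (nat_lit 98356) (nat_lit 26) (.e (nat_lit 433920) (nat_lit 10) .nil))))) (.g (nat_lit 0) (.e (nat_lit 255186) (nat_lit 0) .nil) .nil))) 
(.lf (nat_lit 535250) (.g (nat_lit 1756) (.e (nat_lit 65280) (nat_lit 176) (.e (nat_lit 1349) (nat_lit 102) (.e (nat_lit 286735) (nat_lit 3) (.e (nat_lit 98362) (nat_lit 26) .nil)))) (.g (nat_lit 0) (.e (nat_lit 257405) (nat_lit 0) .nil) .nil)))) (.nd (nat_lit 9) 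
(.lf (nat_lit 534994) (.g (nat_lit 734) (.e (nat_lit 57687) (nat_lit 156) (.e (nat_lit 163905) (nat_lit 12) (.e (nat_lit 426479) (nat_lit 27) .nil))) (.g (nat_lit 0) (.e (nat_lit 256492) (nat_lit 0) .nil) .nil))) 
(.lf (nat_lit 535506) (.g (nat_lit 3095) (.e (nat_lit 57848) (nat_lit 252) (.e (nat_lit 57407) (nat_lit 12) (.e (nat_lit 336367) (nat_lit 27) (.e (nat_lit 426542) (nat_lit 29) (.e (nat_lit 352267) (nat_lit 0) (.e (nat_lit 3253) (nat_lit 197) (.e (nat_lit 532503) (nat_lit 1) .nil))))))) (.g (nat_lit 1) (.e (nat_lit 258399) (nat_lit 0) .nil) .nil))))))) 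
(.nd (nat_lit 6) (.nd (nat_lit 7) (.nd (nat_lit 8) (.nd (nat_lit 9) 
(.lf (nat_lit 534578) (.g (nat_lit 3247) (.e (nat_lit 57480) (nat_lit 28) (.e (nat_lit 557109) (nat_lit 15) (.e (nat_lit 188450) (nat_lit 23) (.e (nat_lit 204855) (nat_lit 26) (.e (nat_lit 336290) (nat_lit 15) (.e (nat_lit 3711) (nat_lit 227) (.e (nat_lit 786176) (nat_lit 3) .nil))))))) (.g (nat_lit 1) (.e (nat_lit 254863) (nat_lit 0) .nil) .nil))) 
(.lf (nat_lit 535090) (.g (nat_lit 2788) (.e (nat_lit 57688) (nat_lit 156) (.e (nat_lit 163938) (nat_lit 18) (.e (nat_lit 475179) (nat_lit 24) (.e (nat_lit 516176) (nat_lit 14) (.e (nat_lit 466954) (nat_lit 11) (.e (nat_lit 335994) (nat_lit 1) .nil)))))) (.g (nat_lit 1) (.e (nat_lit 256769) (nat_lit 0) .nil) .nil)))) (.nd (nat_lit 9) 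
(.lf (nat_lit 534834) (.g (nat_lit 1661) (.e (nat_lit 57592) (nat_lit 73) (.e (nat_lit 426316) (nat_lit 12) (.e (nat_lit 475185) (nat_lit 29) (.e (nat_lit 557109) (nat_lit 15) .nil)))) (.g (nat_lit 0) (.e (nat_lit 255747) (nat_lit 0) .nil) .nil))) 
(.lf (nat_lit 535346) (.g (nat_lit 1435) (.e (nat_lit 57857) (nat_lit 254) (.e (nat_lit 163908) (nat_lit 12) (.e (nat_lit 426275) (nat_lit 10) (.e (nat_lit 434268) (nat_lit 36) (.e (nat_lit 639020) (nat_lit 16) .nil))))) (.g (nat_lit 0) (.e (nat_lit 258130) (nat_lit 0) .nil) .nil))))) (.nd (nat_lit 8) (.nd (nat_lit 9) 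
(.lf (nat_lit 534706) (.g (nat_lit 4257) (.e (nat_lit 57574) (nat_lit 55) (.e (nat_lit 778466) (nat_lit 11) (.e (nat_lit 24604) (nat_lit 2) (.e (nat_lit 90170) (nat_lit 13) (.e (nat_lit 172105) (nat_lit 10) (.e (nat_lit 434247) (nat_lit 28) (.e (nat_lit 573478) (nat_lit 12) .nil))))))) (.g (nat_lit 1) (.e (nat_lit 255150) (nat_lit 0) .nil) .nil))) 
(.lf (nat_lit 535218) (.g (nat_lit 923) (.e (nat_lit 65280) (nat_lit 168) (.e (nat_lit 163874) (nat_lit 3) (.e (nat_lit 204864) (nat_lit 27) .nil))) (.g (nat_lit 0) (.e (nat_lit 257284) (nat_lit 0) .nil) .nil)))) (.nd (nat_lit 9) 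
(.lf (nat_lit 534962) (.g (nat_lit 2531) (.e (nat_lit 57686) (nat_lit 156) (.e (nat_lit 163907) (nat_lit 12) (.e (nat_lit 426428) (nat_lit 17) (.e (nat_lit 90170) (nat_lit 13) (.e (nat_lit 172121) (nat_lit 13) .nil))))) (.g (nat_lit 0) (.e (nat_lit 256411) (nat_lit 0) .nil) .nil))) 
(.lf (nat_lit 535474) (.g (nat_lit 3071) (.e (nat_lit 57848) (nat_lit 252) (.e (nat_lit 57372) (nat_lit 2) (.e (nat_lit 90159) (nat_lit 11) (.e (nat_lit 24627) (nat_lit 9) (.e (nat_lit 336454) (nat_lit 34) (.e (nat_lit 483366) (nat_lit 18) .nil)))))) (.g (nat_lit 1) (.e (nat_lit 258337) (nat_lit 0) .nil) .nil)))))) (.nd (nat_lit 7) (.nd (nat_lit 8) (.nd (nat_lit 9) 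
(.lf (nat_lit 534642) (.g (nat_lit 1650) (.e (nat_lit 57572) (nat_lit 54) (.e (nat_lit 770071) (nat_lit 8) (.e (nat_lit 65586) (nat_lit 7) (.e (nat_lit 319531) (nat_lit 16) (.e (nat_lit 286748) (nat_lit 9) .nil))))) (.g (nat_lit 0) (.e (nat_lit 255036) (nat_lit 0) .nil) .nil))) 
(.lf (nat_lit 535154) (.g (nat_lit 1137) (.e (nat_lit 57692) (nat_lit 156) (.e (nat_lit 163874) (nat_lit 3) (.e (nat_lit 204837) (nat_lit 20) (.e (nat_lit 114719) (nat_lit 23) .nil)))) (.g (nat_lit 0) (.e (nat_lit 256978) (nat_lit 0) .nil) .nil)))) (.nd (nat_lit 9) 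
(.lf (nat_lit 534898) (.g (nat_lit 1332) (.e (nat_lit 57610) (nat_lit 109) (.e (nat_lit 720909) (nat_lit 11) (.e (nat_lit 426197) (nat_lit 9) (.e (nat_lit 426550) (nat_lit 31) (.e (nat_lit 368656) (nat_lit 14) (.e (nat_lit 57810) (nat_lit 246) .nil)))))) (.g (nat_lit 1) (.e (nat_lit 255994) (nat_lit 0) .nil) .nil))) 
(.lf (nat_lit 535410) (.g (nat_lit 1581) (.e (nat_lit 57846) (nat_lit 252) (.e (nat_lit 57409) (nat_lit 12) (.e (nat_lit 336454) (nat_lit 34) (.e (nat_lit 483404) (nat_lit 26) .nil)))) (.g (nat_lit 0) (.e (nat_lit 258253) (nat_lit 0) .nil) .nil))))) (.nd (nat_lit 8) (.nd (nat_lit 9) 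
(.lf (nat_lit 534770) (.g (nat_lit 3299) (.e (nat_lit 57575) (nat_lit 55) (.e (nat_lit 778466) (nat_lit 11) (.e (nat_lit 24604) (nat_lit 2) (.e (nat_lit 90170) (nat_lit 13) (.e (nat_lit 172105) (nat_lit 10) (.e (nat_lit 434247) (nat_lit 28) (.e (nat_lit 573477) (nat_lit 12) .nil))))))) (.g (nat_lit 1) (.e (nat_lit 255270) (nat_lit 0) .nil) .nil))) 
(.lf (nat_lit 535282) (.g (nat_lit 1681) (.e (nat_lit 65280) (nat_lit 206) (.e (nat_lit 180244) (nat_lit 5) (.e (nat_lit 532523) (nat_lit 7) (.e (nat_lit 319538) (nat_lit 19) .nil)))) (.g (nat_lit 0) (.e (nat_lit 257867) (nat_lit 0) .nil) .nil)))) (.nd (nat_lit 9) 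
(.lf (nat_lit 535026) (.g (nat_lit 2182) (.e (nat_lit 57688) (nat_lit 156) (.e (nat_lit 163902) (nat_lit 12) (.e (nat_lit 426434) (nat_lit 18) (.e (nat_lit 98358) (nat_lit 26) (.e (nat_lit 426323) (nat_lit 13) .nil))))) (.g (nat_lit 0) (.e (nat_lit 256609) (nat_lit 0) .nil) .nil))) 
(.lf (nat_lit 535538) (.g (nat_lit 2476) (.e (nat_lit 57849) (nat_lit 252) (.e (nat_lit 57372) (nat_lit 2) (.e (nat_lit 90158) (nat_lit 11) (.e (nat_lit 24628) (nat_lit 9) (.e (nat_lit 336375) (nat_lit 27) (.e (nat_lit 426524) (nat_lit 27) (.e (nat_lit 335986) (nat_lit 1) .nil))))))) (.g (nat_lit 1) (.e (nat_lit 258431) (nat_lit 0) .nil) .nil))))))))) 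
(.nd (nat_lit 4) (.nd (nat_lit 5) (.nd (nat_lit 6) (.nd (nat_lit 7) (.nd (nat_lit 8) 
(.nd (nat_lit 9) 
(.lf (nat_lit 534538) (.g (nat_lit 2033) (.e (nat_lit 57480) (nat_lit 28) (.e (nat_lit 557098) (nat_lit 13) (.e (nat_lit 172097) (nat_lit 9) (.e (nat_lit 426125) (nat_lit 2) (.e (nat_lit 196666) (nat_lit 13) (.e (nat_lit 65639) (nat_lit 15) (.e (nat_lit 3716) (nat_lit 227) (.e (nat_lit 786176) (nat_lit 3) .nil)))))))) (.g (nat_lit 1) (.e (nat_lit 254819) (nat_lit 0) .nil) .nil))) 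
(.lf (nat_lit 535050) (.g (nat_lit 3354) (.e (nat_lit 57688) (nat_lit 156) (.e (nat_lit 163903) (nat_lit 12) (.e (nat_lit 426438) (nat_lit 18) (.e (nat_lit 98358) (nat_lit 26) (.e (nat_lit 426323) (nat_lit 13) (.e (nat_lit 483365) (nat_lit 18) .nil)))))) (.g (nat_lit 1) (.e (nat_lit 256642) (nat_lit 0) .nil) .nil)))) (.nd (nat_lit 9) 
(.lf (nat_lit 534794) (.g (nat_lit 557) (.e (nat_lit 57530) (nat_lit 46) (.e (nat_lit 704590) (nat_lit 3) (.e (nat_lit 163962) (nat_lit 25) .nil))) (.g (nat_lit 0) (.e (nat_lit 255355) (nat_lit 0) .nil) .nil))) 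
(.lf (nat_lit 535306) (.g (nat_lit 2384) (.e (nat_lit 57809) (nat_lit 246) (.e (nat_lit 57879) (nat_lit 270) (.e (nat_lit 496) (nat_lit 39) (.e (nat_lit 483403) (nat_lit 26) (.e (nat_lit 385057) (nat_lit 22) (.e (nat_lit 499780) (nat_lit 1) .nil)))))) (.g (nat_lit 1) (.e (nat_lit 258003) (nat_lit 0) .nil) .nil))))) (.nd (nat_lit 8) (.nd (nat_lit 9) 
(.lf (nat_lit 534666) (.g (nat_lit 467) (.e (nat_lit 57574) (nat_lit 55) (.e (nat_lit 778465) (nat_lit 11) (.e (nat_lit 24603) (nat_lit 2) .nil))) (.g (nat_lit 0) (.e (nat_lit 255070) (nat_lit 0) .nil) .nil))) 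
(.lf (nat_lit 535178) (.g (nat_lit 1391) (.e (nat_lit 57692) (nat_lit 156) (.e (nat_lit 163906) (nat_lit 12) (.e (nat_lit 426428) (nat_lit 17) (.e (nat_lit 90170) (nat_lit 13) (.e (nat_lit 172121) (nat_lit 13) .nil))))) (.g (nat_lit 0) (.e (nat_lit 257030) (nat_lit 0) .nil) .nil)))) (.nd (nat_lit 9) 
(.lf (nat_lit 534922) (.g (nat_lit 2777) (.e (nat_lit 57685) (nat_lit 156) (.e (nat_lit 163902) (nat_lit 12) (.e (nat_lit 426566) (nat_lit 34) (.e (nat_lit 393271) (nat_lit 23) .nil)))) (.g (nat_lit 0) (.e (nat_lit 256346) (nat_lit 0) .nil) .nil))) 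
(.lf (nat_lit 535434) (.g (nat_lit 2606) (.e (nat_lit 57847) (nat_lit 252) (.e (nat_lit 57389) (nat_lit 5) (.e (nat_lit 114697) (nat_lit 11) (.e (nat_lit 426188) (nat_lit 9) (.e (nat_lit 426555) (nat_lit 32) (.e (nat_lit 376859) (nat_lit 21) .nil)))))) (.g (nat_lit 1) (.e (nat_lit 258286) (nat_lit 0) .nil) .nil)))))) (.nd (nat_lit 7) (.nd (nat_lit 8) (.nd (nat_lit 9) 
(.lf (nat_lit 534602) (.g (nat_lit 1772) (.e (nat_lit 57502) (nat_lit 38) (.e (nat_lit 638998) (nat_lit 8) (.e (nat_lit 172067) (nat_lit 3) (.e (nat_lit 204866) (nat_lit 28) .nil)))) (.g (nat_lit 0) (.e (nat_lit 254908) (nat_lit 0) .nil) .nil))) 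
(.lf (nat_lit 535114) (.g (nat_lit 2281) (.e (nat_lit 57691) (nat_lit 156) (.e (nat_lit 163905) (nat_lit 12) (.e (nat_lit 426428) (nat_lit 17) (.e (nat_lit 90178) (nat_lit 15) (.e (nat_lit 188421) (nat_lit 11) (.e (nat_lit 335993) (nat_lit 1) .nil)))))) (.g (nat_lit 1) (.e (nat_lit 256856) (nat_lit 0) .nil) .nil)))) (.nd (nat_lit 9) 
(.lf (nat_lit 534858) (.g (nat_lit 3334) (.e (nat_lit 57611) (nat_lit 116) (.e (nat_lit 778466) (nat_lit 11) (.e (nat_lit 24617) (nat_lit 7) (.e (nat_lit 319534) (nat_lit 16) (.e (nat_lit 286756) (nat_lit 10) (.e (nat_lit 344169) (nat_lit 40) (.e (nat_lit 679680) (nat_lit 15) .nil))))))) (.g (nat_lit 1) (.e (nat_lit 255890) (nat_lit 0) .nil) .nil))) 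
(.lf (nat_lit 535370) (.g (nat_lit 3802) (.e (nat_lit 57844) (nat_lit 252) (.e (nat_lit 57406) (nat_lit 12) (.e (nat_lit 336454) (nat_lit 34) (.e (nat_lit 483379) (nat_lit 23) .nil)))) (.g (nat_lit 0) (.e (nat_lit 258199) (nat_lit 0) .nil) .nil))))) (.nd (nat_lit 8) (.nd (nat_lit 9) 
(.lf (nat_lit 534730) (.g (nat_lit 5153) (.e (nat_lit 57574) (nat_lit 55) (.e (nat_lit 778466) (nat_lit 11) (.e (nat_lit 24607) (nat_lit 3) (.e (nat_lit 98373) (nat_lit 29) (.e (nat_lit 450588) (nat_lit 10) (.e (nat_lit 573475) (nat_lit 12) .nil)))))) (.g (nat_lit 1) (.e (nat_lit 255176) (nat_lit 0) .nil) .nil))) 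
(.lf (nat_lit 535242) (.g (nat_lit 1832) (.e (nat_lit 57714) (nat_lit 176) (.e (nat_lit 1349) (nat_lit 102) (.e (nat_lit 286735) (nat_lit 3) (.e (nat_lit 98360) (nat_lit 26) .nil)))) (.g (nat_lit 0) (.e (nat_lit 257370) (nat_lit 0) .nil) .nil)))) (.nd (nat_lit 9) 
(.lf (nat_lit 534986) (.g (nat_lit 1330) (.e (nat_lit 57687) (nat_lit 156) (.e (nat_lit 163903) (nat_lit 12) (.e (nat_lit 426436) (nat_lit 18) (.e (nat_lit 98382) (nat_lit 31) .nil)))) (.g (nat_lit 0) (.e (nat_lit 256484) (nat_lit 0) .nil) .nil))) 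
(.lf (nat_lit 535498) (.g (nat_lit 369) (.e (nat_lit 57848) (nat_lit 252) (.e (nat_lit 57388) (nat_lit 5) (.e (nat_lit 122624) (nat_lit 16) .nil))) (.g (nat_lit 0) (.e (nat_lit 258385) (nat_lit 0) .nil) .nil))))))) (.nd (nat_lit 6) (.nd (nat_lit 7) (.nd (nat_lit 8) (.nd (nat_lit 9) 
(.lf (nat_lit 534570) (.g (nat_lit 3369) (.e (nat_lit 57480) (nat_lit 28) (.e (nat_lit 557109) (nat_lit 15) (.e (nat_lit 188447) (nat_lit 22) (.e (nat_lit 196666) (nat_lit 13) (.e (nat_lit 65639) (nat_lit 15) (.e (nat_lit 3714) (nat_lit 227) (.e (nat_lit 786176) (nat_lit 3) .nil))))))) (.g (nat_lit 1) (.e (nat_lit 254855) (nat_lit 0) .nil) .nil))) 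
(.lf (nat_lit 535082) (.g (nat_lit 1513) (.e (nat_lit 57688) (nat_lit 156) (.e (nat_lit 163908) (nat_lit 12) (.e (nat_lit 426412) (nat_lit 15) (.e (nat_lit 1784) (nat_lit 119) .nil)))) (.g (nat_lit 0) (.e (nat_lit 256696) (nat_lit 0) .nil) .nil)))) (.nd (nat_lit 9) 
(.lf (nat_lit 534826) (.g (nat_lit 1467) (.e (nat_lit 57588) (nat_lit 73) (.e (nat_lit 426316) (nat_lit 12) (.e (nat_lit 475185) (nat_lit 29) (.e (nat_lit 557109) (nat_lit 15) .nil)))) (.g (nat_lit 0) (.e (nat_lit 255706) (nat_lit 0) .nil) .nil))) 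
(.lf (nat_lit 535338) (.g (nat_lit 625) (.e (nat_lit 57830) (nat_lit 250) (.e (nat_lit 1201) (nat_lit 88) (.e (nat_lit 65543) (nat_lit 0) .nil))) (.g (nat_lit 0) (.e (nat_lit 258095) (nat_lit 0) .nil) .nil))))) (.nd (nat_lit 8) (.nd (nat_lit 9) 
(.lf (nat_lit 534698) (.g (nat_lit 1512) (.e (nat_lit 57574) (nat_lit 55) (.e (nat_lit 778466) (nat_lit 11) (.e (nat_lit 24604) (nat_lit 2) (.e (nat_lit 90167) (nat_lit 13) .nil)))) (.g (nat_lit 0) (.e (nat_lit 255142) (nat_lit 0) .nil) .nil))) 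
(.lf (nat_lit 535210) (.g (nat_lit 1499) (.e (nat_lit 65280) (nat_lit 168) (.e (nat_lit 163869) (nat_lit 2) (.e (nat_lit 196670) (nat_lit 14) (.e (nat_lit 73753) (nat_lit 8) .nil)))) (.g (nat_lit 0) (.e (nat_lit 257271) (nat_lit 0) .nil) .nil)))) (.nd (nat_lit 9) 
(.lf (nat_lit 534954) (.g (nat_lit 3053) (.e (nat_lit 57686) (nat_lit 156) (.e (nat_lit 163903) (nat_lit 12) (.e (nat_lit 426479) (nat_lit 27) (.e (nat_lit 336443) (nat_lit 32) (.e (nat_lit 466979) (nat_lit 23) (.e (nat_lit 204829) (nat_lit 18) .nil)))))) (.g (nat_lit 1) (.e (nat_lit 256403) (nat_lit 0) .nil) .nil))) 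
(.lf (nat_lit 535466) (.g (nat_lit 2412) (.e (nat_lit 57847) (nat_lit 252) (.e (nat_lit 57447) (nat_lit 19) (.e (nat_lit 393229) (nat_lit 9) (.e (nat_lit 336086) (nat_lit 9) (.e (nat_lit 343808) (nat_lit 18) .nil))))) (.g (nat_lit 0) (.e (nat_lit 258329) (nat_lit 0) .nil) .nil)))))) (.nd (nat_lit 7) (.nd (nat_lit 8) (.nd (nat_lit 9) 
(.lf (nat_lit 534634) (.g (nat_lit 1973) (.e (nat_lit 57570) (nat_lit 54) (.e (nat_lit 770076) (nat_lit 12) (.e (nat_lit 131093) (nat_lit 2) (.e (nat_lit 90170) (nat_lit 13) (.e (nat_lit 172113) (nat_lit 10) .nil))))) (.g (nat_lit 0) (.e (nat_lit 255026) (nat_lit 0) .nil) .nil))) 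
(.lf (nat_lit 535146) (.g (nat_lit 3258) (.e (nat_lit 57692) (nat_lit 156) (.e (nat_lit 163869) (nat_lit 2) (.e (nat_lit 196654) (nat_lit 11) (.e (nat_lit 16459) (nat_lit 12) (.e (nat_lit 475152) (nat_lit 17) .nil))))) (.g (nat_lit 0) (.e (nat_lit 256966) (nat_lit 0) .nil) .nil)))) (.nd (nat_lit 9) 
(.lf (nat_lit 534890) (.g (nat_lit 1460) (.e (nat_lit 57610) (nat_lit 109) (.e (nat_lit 720909) (nat_lit 11) (.e (nat_lit 426196) (nat_lit 9) (.e (nat_lit 426550) (nat_lit 31) (.e (nat_lit 368656) (nat_lit 14) (.e (nat_lit 57815) (nat_lit 246) .nil)))))) (.g (nat_lit 1) (.e (nat_lit 255986) (nat_lit 0) .nil) .nil))) 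
(.lf (nat_lit 535402) (.g (nat_lit 789) (.e (nat_lit 57846) (nat_lit 252) (.e (nat_lit 57406) (nat_lit 12) (.e (nat_lit 336456) (nat_lit 34) .nil))) (.g (nat_lit 0) (.e (nat_lit 258244) (nat_lit 0) .nil) .nil))))) (.nd (nat_lit 8) (.nd (nat_lit 9) 
(.lf (nat_lit 534762) (.g (nat_lit 3255) (.e (nat_lit 57575) (nat_lit 55) (.e (nat_lit 778465) (nat_lit 11) (.e (nat_lit 24604) (nat_lit 2) (.e (nat_lit 90169) (nat_lit 13) (.e (nat_lit 172113) (nat_lit 10) (.e (nat_lit 434247) (nat_lit 28) (.e (nat_lit 573477) (nat_lit 12) .nil))))))) (.g (nat_lit 1) (.e (nat_lit 255260) (nat_lit 0) .nil) .nil))) 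
(.lf (nat_lit 535274) (.g (nat_lit 2479) (.e (nat_lit 57750) (nat_lit 201) (.e (nat_lit 3090) (nat_lit 191) (.e (nat_lit 483365) (nat_lit 18) (.e (nat_lit 57688) (nat_lit 156) (.e (nat_lit 163916) (nat_lit 13) .nil))))) (.g (nat_lit 0) (.e (nat_lit 257668) (nat_lit 0) .nil) .nil)))) (.nd (nat_lit 9) 
(.lf (nat_lit 535018) (.g (nat_lit 3979) (.e (nat_lit 57688) (nat_lit 156) (.e (nat_lit 163874) (nat_lit 3) (.e (nat_lit 204837) (nat_lit 20) (.e (nat_lit 114718) (nat_lit 23) (.e (nat_lit 98367) (nat_lit 27) (.e (nat_lit 434232) (nat_lit 23) (.e (nat_lit 532503) (nat_lit 1) .nil))))))) (.g (nat_lit 1) (.e (nat_lit 256599) (nat_lit 0) .nil) .nil))) 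
(.lf (nat_lit 535530) (.g (nat_lit 2155) (.e (nat_lit 57848) (nat_lit 252) (.e (nat_lit 57445) (nat_lit 19) (.e (nat_lit 393229) (nat_lit 9) (.e (nat_lit 336086) (nat_lit 9) (.e (nat_lit 336261) (nat_lit 15) .nil))))) (.g (nat_lit 0) (.e (nat_lit 258423) (nat_lit 0) .nil) .nil)))))))) (.nd (nat_lit 5) (.nd (nat_lit 6) (.nd (nat_lit 7) (.nd (nat_lit 8) (.nd (nat_lit 9) 
(.lf (nat_lit 534554) (.g (nat_lit 3240) (.e (nat_lit 57480) (nat_lit 28) (.e (nat_lit 557107) (nat_lit 15) (.e (nat_lit 188447) (nat_lit 22) (.e (nat_lit 196666) (nat_lit 13) (.e (nat_lit 65639) (nat_lit 15) (.e (nat_lit 3711) (nat_lit 227) (.e (nat_lit 778316) (nat_lit 3) .nil))))))) (.g (nat_lit 1) (.e (nat_lit 254839) (nat_lit 0) .nil) .nil))) 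
(.lf (nat_lit 535066) (.g (nat_lit 4227) (.e (nat_lit 57688) (nat_lit 156) (.e (nat_lit 163907) (nat_lit 12) (.e (nat_lit 426128) (nat_lit 2) (.e (nat_lit 196672) (nat_lit 15) (.e (nat_lit 81954) (nat_lit 23) (.e (nat_lit 106240) (nat_lit 1) .nil)))))) (.g (nat_lit 1) (.e (nat_lit 256670) (nat_lit 0) .nil) .nil)))) (.nd (nat_lit 9) 
(.lf (nat_lit 534810) (.g (nat_lit 1908) (.e (nat_lit 65280) (nat_lit 63) (.e (nat_lit 196666) (nat_lit 13) (.e (nat_lit 65610) (nat_lit 10) (.e (nat_lit 344117) (nat_lit 21) .nil)))) (.g (nat_lit 0) (.e (nat_lit 255530) (nat_lit 0) .nil) .nil))) 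
(.lf (nat_lit 535322) (.g (nat_lit 1620) (.e (nat_lit 57811) (nat_lit 246) (.e (nat_lit 57879) (nat_lit 270) (.e (nat_lit 496) (nat_lit 39) (.e (nat_lit 483383) (nat_lit 23) (.e (nat_lit 343808) (nat_lit 17) (.e (nat_lit 196698) (nat_lit 19) .nil)))))) (.g (nat_lit 1) (.e (nat_lit 258025) (nat_lit 0) .nil) .nil))))) (.nd (nat_lit 8) (.nd (nat_lit 9) 
(.lf (nat_lit 534682) (.g (nat_lit 4442) (.e (nat_lit 57574) (nat_lit 55) (.e (nat_lit 778465) (nat_lit 11) (.e (nat_lit 24604) (nat_lit 2) (.e (nat_lit 90178) (nat_lit 15) (.e (nat_lit 188440) (nat_lit 20) (.e (nat_lit 3307) (nat_lit 202) (.e (nat_lit 573478) (nat_lit 12) .nil))))))) (.g (nat_lit 1) (.e (nat_lit 255087) (nat_lit 0) .nil) .nil))) 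
(.lf (nat_lit 535194) (.g (nat_lit 869) (.e (nat_lit 57692) (nat_lit 156) (.e (nat_lit 163907) (nat_lit 12) (.e (nat_lit 426487) (nat_lit 27) .nil))) (.g (nat_lit 0) (.e (nat_lit 257078) (nat_lit 0) .nil) .nil)))) (.nd (nat_lit 9) 
(.lf (nat_lit 534938) (.g (nat_lit 2473) (.e (nat_lit 57686) (nat_lit 156) (.e (nat_lit 163902) (nat_lit 12) (.e (nat_lit 426436) (nat_lit 18) (.e (nat_lit 98358) (nat_lit 26) (.e (nat_lit 426322) (nat_lit 13) .nil))))) (.g (nat_lit 0) (.e (nat_lit 256386) (nat_lit 0) .nil) .nil))) 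
(.lf (nat_lit 535450) (.g (nat_lit 3634) (.e (nat_lit 57847) (nat_lit 252) (.e (nat_lit 57407) (nat_lit 12) (.e (nat_lit 336316) (nat_lit 17) (.e (nat_lit 196666) (nat_lit 13) (.e (nat_lit 65617) (nat_lit 10) (.e (nat_lit 344096) (nat_lit 18) (.e (nat_lit 7695) (nat_lit 412) (.e (nat_lit 57363) (nat_lit 1) .nil)))))))) (.g (nat_lit 1) (.e (nat_lit 258304) (nat_lit 0) .nil) .nil)))))) 
(.nd (nat_lit 7) (.nd (nat_lit 8) (.nd (nat_lit 9) 
(.lf (nat_lit 534618) (.g (nat_lit 1884) (.e (nat_lit 57504) (nat_lit 38) (.e (nat_lit 638995) (nat_lit 7) (.e (nat_lit 163979) (nat_lit 30) (.e (nat_lit 573487) (nat_lit 14) (.e (nat_lit 73753) (nat_lit 8) .nil))))) (.g (nat_lit 0) (.e (nat_lit 254937) (nat_lit 0) .nil) .nil))) 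
(.lf (nat_lit 535130) (.g (nat_lit 2378) (.e (nat_lit 57691) (nat_lit 156) (.e (nat_lit 163907) (nat_lit 12) (.e (nat_lit 426428) (nat_lit 17) (.e (nat_lit 90178) (nat_lit 15) (.e (nat_lit 188421) (nat_lit 11) (.e (nat_lit 335993) (nat_lit 1) .nil)))))) (.g (nat_lit 1) (.e (nat_lit 256899) (nat_lit 0) .nil) .nil)))) (.nd (nat_lit 9) 
(.lf (nat_lit 534874) (.g (nat_lit 1025) (.e (nat_lit 57610) (nat_lit 109) (.e (nat_lit 720907) (nat_lit 11) (.e (nat_lit 426230) (nat_lit 9) (.e (nat_lit 426549) (nat_lit 31) (.e (nat_lit 368656) (nat_lit 14) (.e (nat_lit 57816) (nat_lit 246) .nil)))))) (.g (nat_lit 1) (.e (nat_lit 255933) (nat_lit 0) .nil) .nil))) 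
(.lf (nat_lit 535386) (.g (nat_lit 2006) (.e (nat_lit 57846) (nat_lit 252) (.e (nat_lit 57371) (nat_lit 2) (.e (nat_lit 90160) (nat_lit 11) (.e (nat_lit 24636) (nat_lit 9) (.e (nat_lit 336453) (nat_lit 34) .nil))))) (.g (nat_lit 0) (.e (nat_lit 258217) (nat_lit 0) .nil) .nil))))) (.nd (nat_lit 8) (.nd (nat_lit 9) 
(.lf (nat_lit 534746) (.g (nat_lit 4097) (.e (nat_lit 57574) (nat_lit 55) (.e (nat_lit 778466) (nat_lit 11) (.e (nat_lit 24608) (nat_lit 3) (.e (nat_lit 98372) (nat_lit 29) (.e (nat_lit 450586) (nat_lit 10) (.e (nat_lit 573475) (nat_lit 12) .nil)))))) (.g (nat_lit 1) (.e (nat_lit 255196) (nat_lit 0) .nil) .nil))) 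
(.lf (nat_lit 535258) (.g (nat_lit 739) (.e (nat_lit 57750) (nat_lit 201) (.e (nat_lit 2856) (nat_lit 184) (.e (nat_lit 426537) (nat_lit 28) .nil))) (.g (nat_lit 0) (.e (nat_lit 257518) (nat_lit 0) .nil) .nil)))) (.nd (nat_lit 9) 
(.lf (nat_lit 535002) (.g (nat_lit 2174) (.e (nat_lit 57687) (nat_lit 156) (.e (nat_lit 163908) (nat_lit 12) (.e (nat_lit 426412) (nat_lit 15) (.e (nat_lit 1800) (nat_lit 119) (.e (nat_lit 516176) (nat_lit 14) .nil))))) (.g (nat_lit 0) (.e (nat_lit 256502) (nat_lit 0) .nil) .nil))) 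
(.lf (nat_lit 535514) (.g (nat_lit 1037) (.e (nat_lit 57848) (nat_lit 252) (.e (nat_lit 57407) (nat_lit 12) (.e (nat_lit 336456) (nat_lit 34) (.e (nat_lit 483379) (nat_lit 23) .nil)))) (.g (nat_lit 0) (.e (nat_lit 258407) (nat_lit 0) .nil) .nil))))))) (.nd (nat_lit 6) (.nd (nat_lit 7) (.nd (nat_lit 8) (.nd (nat_lit 9) 
(.lf (nat_lit 534586) (.g (nat_lit 2816) (.e (nat_lit 57502) (nat_lit 38) (.e (nat_lit 638995) (nat_lit 7) (.e (nat_lit 163978) (nat_lit 30) (.e (nat_lit 573489) (nat_lit 14) (.e (nat_lit 73755) (nat_lit 8) .nil))))) (.g (nat_lit 0) (.e (nat_lit 254891) (nat_lit 0) .nil) .nil))) 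
(.lf (nat_lit 535098) (.g (nat_lit 1773) (.e (nat_lit 57689) (nat_lit 156) (.e (nat_lit 163907) (nat_lit 12) (.e (nat_lit 426428) (nat_lit 17) (.e (nat_lit 90178) (nat_lit 15) .nil)))) (.g (nat_lit 0) (.e (nat_lit 256827) (nat_lit 0) .nil) .nil)))) (.nd (nat_lit 9) 
(.lf (nat_lit 534842) (.g (nat_lit 2028) (.e (nat_lit 57596) (nat_lit 82) (.e (nat_lit 499900) (nat_lit 7) (.e (nat_lit 24628) (nat_lit 9) (.e (nat_lit 336450) (nat_lit 33) (.e (nat_lit 475152) (nat_lit 17) (.e (nat_lit 57813) (nat_lit 246) .nil)))))) (.g (nat_lit 1) (.e (nat_lit 255796) (nat_lit 0) .nil) .nil))) 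
(.lf (nat_lit 535354) (.g (nat_lit 2427) (.e (nat_lit 57844) (nat_lit 252) (.e (nat_lit 57371) (nat_lit 2) (.e (nat_lit 90160) (nat_lit 11) (.e (nat_lit 24630) (nat_lit 9) (.e (nat_lit 336456) (nat_lit 34) .nil))))) (.g (nat_lit 0) (.e (nat_lit 258171) (nat_lit 0) .nil) .nil))))) (.nd (nat_lit 8) (.nd (nat_lit 9) 
(.lf (nat_lit 534714) (.g (nat_lit 2767) (.e (nat_lit 57574) (nat_lit 55) (.e (nat_lit 778466) (nat_lit 11) (.e (nat_lit 24604) (nat_lit 2) (.e (nat_lit 90176) (nat_lit 15) (.e (nat_lit 188442) (nat_lit 20) (.e (nat_lit 3304) (nat_lit 202) (.e (nat_lit 573477) (nat_lit 12) .nil))))))) (.g (nat_lit 1) (.e (nat_lit 255159) (nat_lit 0) .nil) .nil))) 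
(.lf (nat_lit 535226) (.g (nat_lit 796) (.e (nat_lit 57711) (nat_lit 176) (.e (nat_lit 1374) (nat_lit 104) (.e (nat_lit 303119) (nat_lit 3) .nil))) (.g (nat_lit 0) (.e (nat_lit 257297) (nat_lit 0) .nil) .nil)))) (.nd (nat_lit 9) 
(.lf (nat_lit 534970) (.g (nat_lit 2499) (.e (nat_lit 57687) (nat_lit 156) (.e (nat_lit 163875) (nat_lit 3) (.e (nat_lit 204838) (nat_lit 20) (.e (nat_lit 114719) (nat_lit 23) (.e (nat_lit 98367) (nat_lit 27) .nil))))) (.g (nat_lit 0) (.e (nat_lit 256466) (nat_lit 0) .nil) .nil))) 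
(.lf (nat_lit 535482) (.g (nat_lit 2145) (.e (nat_lit 57848) (nat_lit 252) (.e (nat_lit 57374) (nat_lit 2) (.e (nat_lit 90156) (nat_lit 11) (.e (nat_lit 24625) (nat_lit 9) (.e (nat_lit 336454) (nat_lit 34) (.e (nat_lit 483366) (nat_lit 18) .nil)))))) (.g (nat_lit 1) (.e (nat_lit 258354) (nat_lit 0) .nil) .nil)))))) (.nd (nat_lit 7) (.nd (nat_lit 8) (.nd (nat_lit 9) 
(.lf (nat_lit 534650) (.g (nat_lit 2724) (.e (nat_lit 57572) (nat_lit 54) (.e (nat_lit 770072) (nat_lit 8) (.e (nat_lit 65571) (nat_lit 3) (.e (nat_lit 98354) (nat_lit 26) .nil)))) (.g (nat_lit 0) (.e (nat_lit 255048) (nat_lit 0) .nil) .nil))) 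
(.lf (nat_lit 535162) (.g (nat_lit 1272) (.e (nat_lit 57692) (nat_lit 156) (.e (nat_lit 163875) (nat_lit 3) (.e (nat_lit 204838) (nat_lit 20) (.e (nat_lit 114718) (nat_lit 23) .nil)))) (.g (nat_lit 0) (.e (nat_lit 256986) (nat_lit 0) .nil) .nil)))) (.nd (nat_lit 9) 
(.lf (nat_lit 534906) (.g (nat_lit 1968) (.e (nat_lit 57610) (nat_lit 109) (.e (nat_lit 720909) (nat_lit 11) (.e (nat_lit 426200) (nat_lit 9) (.e (nat_lit 426550) (nat_lit 31) (.e (nat_lit 368656) (nat_lit 14) (.e (nat_lit 57808) (nat_lit 246) .nil)))))) (.g (nat_lit 1) (.e (nat_lit 256002) (nat_lit 0) .nil) .nil))) 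
(.lf (nat_lit 535418) (.g (nat_lit 2978) (.e (nat_lit 57847) (nat_lit 252) (.e (nat_lit 57373) (nat_lit 2) (.e (nat_lit 90158) (nat_lit 11) (.e (nat_lit 24608) (nat_lit 3) (.e (nat_lit 98321) (nat_lit 17) .nil))))) (.g (nat_lit 0) (.e (nat_lit 258264) (nat_lit 0) .nil) .nil))))) (.nd (nat_lit 8) (.nd (nat_lit 9) 
(.lf (nat_lit 534778) (.g (nat_lit 3422) (.e (nat_lit 57575) (nat_lit 55) (.e (nat_lit 778466) (nat_lit 11) (.e (nat_lit 24608) (nat_lit 3) (.e (nat_lit 98372) (nat_lit 29) (.e (nat_lit 450587) (nat_lit 10) .nil))))) (.g (nat_lit 0) (.e (nat_lit 255279) (nat_lit 0) .nil) .nil))) 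
(.lf (nat_lit 535290) (.g (nat_lit 1268) (.e (nat_lit 57786) (nat_lit 245) (.e (nat_lit 2809) (nat_lit 180) (.e (nat_lit 303137) (nat_lit 10) (.e (nat_lit 434275) (nat_lit 39) .nil)))) (.g (nat_lit 0) (.e (nat_lit 257966) (nat_lit 0) .nil) .nil)))) (.nd (nat_lit 9) 
(.lf (nat_lit 535034) (.g (nat_lit 1119) (.e (nat_lit 57688) (nat_lit 156) (.e (nat_lit 163902) (nat_lit 12) (.e (nat_lit 426478) (nat_lit 27) .nil))) (.g (nat_lit 0) (.e (nat_lit 256618) (nat_lit 0) .nil) .nil))) 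
(.lf (nat_lit 535546) (.g (nat_lit 1131) (.e (nat_lit 57849) (nat_lit 252) (.e (nat_lit 57375) (nat_lit 2) (.e (nat_lit 90157) (nat_lit 11) (.e (nat_lit 24660) (nat_lit 13) .nil)))) (.g (nat_lit 0) (.e (nat_lit 258442) (nat_lit 0) .nil) .nil)))))))))) (.nd (nat_lit 3) (.nd (nat_lit 4) (.nd (nat_lit 5) (.nd (nat_lit 6) (.nd (nat_lit 7) (.nd (nat_lit 8) (.nd (nat_lit 9) 
(.lf (nat_lit 534534) (.g (nat_lit 3028) (.e (nat_lit 57480) (nat_lit 28) (.e (nat_lit 557095) (nat_lit 13) (.e (nat_lit 172106) (nat_lit 10) (.e (nat_lit 434231) (nat_lit 23) (.e (nat_lit 532535) (nat_lit 9) (.e (nat_lit 336295) (nat_lit 15) (.e (nat_lit 3632) (nat_lit 227) (.e (nat_lit 778317) (nat_lit 3) .nil)))))))) (.g (nat_lit 1) (.e (nat_lit 254815) (nat_lit 0) .nil) .nil))) 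
(.lf (nat_lit 535046) (.g (nat_lit 957) (.e (nat_lit 57688) (nat_lit 156) (.e (nat_lit 163903) (nat_lit 12) (.e (nat_lit 426436) (nat_lit 18) (.e (nat_lit 98369) (nat_lit 28) .nil)))) (.g (nat_lit 0) (.e (nat_lit 256638) (nat_lit 0) .nil) .nil)))) (.nd (nat_lit 9) 
(.lf (nat_lit 534790) (.g (nat_lit 254) (.e (nat_lit 65280) (nat_lit 57) (.e (nat_lit 794637) (nat_lit 11) (.e (nat_lit 336002) (nat_lit 2) .nil))) (.g (nat_lit 0) (.e (nat_lit 255292) (nat_lit 0) .nil) .nil))) 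
(.lf (nat_lit 535302) (.g (nat_lit 1964) (.e (nat_lit 57809) (nat_lit 246) (.e (nat_lit 57879) (nat_lit 270) (.e (nat_lit 496) (nat_lit 39) (.e (nat_lit 483380) (nat_lit 23) (.e (nat_lit 336316) (nat_lit 17) (.e (nat_lit 204544) (nat_lit 19) .nil)))))) (.g (nat_lit 1) (.e (nat_lit 257999) (nat_lit 0) .nil) .nil))))) (.nd (nat_lit 8) (.nd (nat_lit 9) 
(.lf (nat_lit 534662) (.g (nat_lit 2365) (.e (nat_lit 57574) (nat_lit 55) (.e (nat_lit 778362) (nat_lit 9) (.e (nat_lit 232) (nat_lit 21) (.e (nat_lit 336022) (nat_lit 3) (.e (nat_lit 98372) (nat_lit 29) .nil))))) (.g (nat_lit 0) (.e (nat_lit 255064) (nat_lit 0) .nil) .nil))) 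
(.lf (nat_lit 535174) (.g (nat_lit 1352) (.e (nat_lit 57692) (nat_lit 156) (.e (nat_lit 163905) (nat_lit 12) (.e (nat_lit 426566) (nat_lit 34) (.e (nat_lit 393282) (nat_lit 24) (.e (nat_lit 434233) (nat_lit 23) .nil))))) (.g (nat_lit 0) (.e (nat_lit 257026) (nat_lit 0) .nil) .nil)))) (.nd (nat_lit 9) 
(.lf (nat_lit 534918) (.g (nat_lit 2329) (.e (nat_lit 57685) (nat_lit 156) (.e (nat_lit 163875) (nat_lit 3) (.e (nat_lit 204837) (nat_lit 20) (.e (nat_lit 114719) (nat_lit 23) (.e (nat_lit 98366) (nat_lit 27) .nil))))) (.g (nat_lit 0) (.e (nat_lit 256340) (nat_lit 0) .nil) .nil))) 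
(.lf (nat_lit 535430) (.g (nat_lit 1641) (.e (nat_lit 57847) (nat_lit 252) (.e (nat_lit 57378) (nat_lit 3) (.e (nat_lit 98341) (nat_lit 20) (.e (nat_lit 221214) (nat_lit 23) .nil)))) (.g (nat_lit 0) (.e (nat_lit 258278) (nat_lit 0) .nil) .nil)))))) (.nd (nat_lit 7) (.nd (nat_lit 8) (.nd (nat_lit 9) 
(.lf (nat_lit 534598) (.g (nat_lit 2434) (.e (nat_lit 57502) (nat_lit 38) (.e (nat_lit 638996) (nat_lit 7) (.e (nat_lit 163978) (nat_lit 30) (.e (nat_lit 573489) (nat_lit 14) (.e (nat_lit 73755) (nat_lit 8) .nil))))) (.g (nat_lit 0) (.e (nat_lit 254904) (nat_lit 0) .nil) .nil))) 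
(.lf (nat_lit 535110) (.g (nat_lit 4159) (.e (nat_lit 57691) (nat_lit 156) (.e (nat_lit 163875) (nat_lit 3) (.e (nat_lit 204837) (nat_lit 20) (.e (nat_lit 114718) (nat_lit 23) (.e (nat_lit 98367) (nat_lit 27) (.e (nat_lit 434232) (nat_lit 23) (.e (nat_lit 532504) (nat_lit 1) .nil))))))) (.g (nat_lit 1) (.e (nat_lit 256851) (nat_lit 0) .nil) .nil)))) (.nd (nat_lit 9) 
(.lf (nat_lit 534854) (.g (nat_lit 2366) (.e (nat_lit 57611) (nat_lit 116) (.e (nat_lit 778465) (nat_lit 11) (.e (nat_lit 24617) (nat_lit 7) (.e (nat_lit 319533) (nat_lit 16) (.e (nat_lit 286753) (nat_lit 10) .nil))))) (.g (nat_lit 0) (.e (nat_lit 255885) (nat_lit 0) .nil) .nil))) 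
(.lf (nat_lit 535366) (.g (nat_lit 373) (.e (nat_lit 57844) (nat_lit 252) (.e (nat_lit 57389) (nat_lit 5) (.e (nat_lit 114697) (nat_lit 11) .nil))) (.g (nat_lit 0) (.e (nat_lit 258188) (nat_lit 0) .nil) .nil))))) (.nd (nat_lit 8) (.nd (nat_lit 9) 
(.lf (nat_lit 534726) (.g (nat_lit 3665) (.e (nat_lit 57574) (nat_lit 55) (.e (nat_lit 778466) (nat_lit 11) (.e (nat_lit 24606) (nat_lit 3) (.e (nat_lit 98373) (nat_lit 29) (.e (nat_lit 450587) (nat_lit 10) (.e (nat_lit 573478) (nat_lit 12) .nil)))))) (.g (nat_lit 1) (.e (nat_lit 255172) (nat_lit 0) .nil) .nil))) 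
(.lf (nat_lit 535238) (.g (nat_lit 1937) (.e (nat_lit 57714) (nat_lit 176) (.e (nat_lit 1348) (nat_lit 102) (.e (nat_lit 286735) (nat_lit 3) (.e (nat_lit 98354) (nat_lit 26) .nil)))) (.g (nat_lit 0) (.e (nat_lit 257362) (nat_lit 0) .nil) .nil)))) (.nd (nat_lit 9) 
(.lf (nat_lit 534982) (.g (nat_lit 1752) (.e (nat_lit 57687) (nat_lit 156) (.e (nat_lit 163903) (nat_lit 12) (.e (nat_lit 426428) (nat_lit 17) (.e (nat_lit 90184) (nat_lit 17) .nil)))) (.g (nat_lit 0) (.e (nat_lit 256479) (nat_lit 0) .nil) .nil))) 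
(.lf (nat_lit 535494) (.g (nat_lit 1547) (.e (nat_lit 57848) (nat_lit 252) (.e (nat_lit 57375) (nat_lit 2) (.e (nat_lit 90181) (nat_lit 16) .nil))) (.g (nat_lit 0) (.e (nat_lit 258367) (nat_lit 0) .nil) .nil))))))) (.nd (nat_lit 6) (.nd (nat_lit 7) (.nd (nat_lit 8) (.nd (nat_lit 9) 
(.lf (nat_lit 534566) (.g (nat_lit 4219) (.e (nat_lit 57480) (nat_lit 28) (.e (nat_lit 557109) (nat_lit 15) (.e (nat_lit 188447) (nat_lit 22) (.e (nat_lit 196666) (nat_lit 13) (.e (nat_lit 65638) (nat_lit 15) .nil))))) (.g (nat_lit 0) (.e (nat_lit 254851) (nat_lit 0) .nil) .nil))) 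
(.lf (nat_lit 535078) (.g (nat_lit 1541) (.e (nat_lit 57688) (nat_lit 156) (.e (nat_lit 163907) (nat_lit 12) (.e (nat_lit 426479) (nat_lit 27) (.e (nat_lit 336443) (nat_lit 32) .nil)))) (.g (nat_lit 0) (.e (nat_lit 256687) (nat_lit 0) .nil) .nil)))) (.nd (nat_lit 9) 
(.lf (nat_lit 534822) (.g (nat_lit 1545) (.e (nat_lit 57588) (nat_lit 73) (.e (nat_lit 426124) (nat_lit 2) (.e (nat_lit 196681) (nat_lit 17) (.e (nat_lit 131086) (nat_lit 1) .nil)))) (.g (nat_lit 0) (.e (nat_lit 255668) (nat_lit 0) .nil) .nil))) 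
(.lf (nat_lit 535334) (.g (nat_lit 2448) (.e (nat_lit 57830) (nat_lit 250) (.e (nat_lit 1183) (nat_lit 87) (.e (nat_lit 57479) (nat_lit 28) (.e (nat_lit 557105) (nat_lit 14) (.e (nat_lit 180251) (nat_lit 10) .nil))))) (.g (nat_lit 0) (.e (nat_lit 258091) (nat_lit 0) .nil) .nil))))) (.nd (nat_lit 8) (.nd (nat_lit 9) 
(.lf (nat_lit 534694) (.g (nat_lit 5158) (.e (nat_lit 57574) (nat_lit 55) (.e (nat_lit 778466) (nat_lit 11) (.e (nat_lit 24603) (nat_lit 2) (.e (nat_lit 90176) (nat_lit 15) (.e (nat_lit 188440) (nat_lit 20) (.e (nat_lit 3307) (nat_lit 202) (.e (nat_lit 573477) (nat_lit 12) .nil))))))) (.g (nat_lit 1) (.e (nat_lit 255105) (nat_lit 0) .nil) .nil))) 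
(.lf (nat_lit 535206) (.g (nat_lit 754) (.e (nat_lit 65280) (nat_lit 168) (.e (nat_lit 163867) (nat_lit 2) (.e (nat_lit 196669) (nat_lit 14) .nil))) (.g (nat_lit 0) (.e (nat_lit 257262) (nat_lit 0) .nil) .nil)))) (.nd (nat_lit 9) 
(.lf (nat_lit 534950) (.g (nat_lit 2214) (.e (nat_lit 57686) (nat_lit 156) (.e (nat_lit 163903) (nat_lit 12) (.e (nat_lit 426436) (nat_lit 18) (.e (nat_lit 98358) (nat_lit 26) (.e (nat_lit 426323) (nat_lit 13) .nil))))) (.g (nat_lit 0) (.e (nat_lit 256398) (nat_lit 0) .nil) .nil))) 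
(.lf (nat_lit 535462) (.g (nat_lit 675) (.e (nat_lit 57847) (nat_lit 252) (.e (nat_lit 57411) (nat_lit 12) (.e (nat_lit 336455) (nat_lit 34) .nil))) (.g (nat_lit 0) (.e (nat_lit 258321) (nat_lit 0) .nil) .nil)))))) (.nd (nat_lit 7) (.nd (nat_lit 8) (.nd (nat_lit 9) 
(.lf (nat_lit 534630) (.g (nat_lit 2628) (.e (nat_lit 57509) (nat_lit 39) (.e (nat_lit 647199) (nat_lit 11) (.e (nat_lit 16388) (nat_lit 0) (.e (nat_lit 3544) (nat_lit 219) (.e (nat_lit 712753) (nat_lit 30) (.e (nat_lit 450586) (nat_lit 10) (.e (nat_lit 573478) (nat_lit 12) .nil))))))) (.g (nat_lit 1) (.e (nat_lit 254979) (nat_lit 0) .nil) .nil))) 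
(.lf (nat_lit 535142) (.g (nat_lit 1319) (.e (nat_lit 57692) (nat_lit 156) (.e (nat_lit 163869) (nat_lit 2) (.e (nat_lit 196654) (nat_lit 11) .nil))) (.g (nat_lit 0) (.e (nat_lit 256958) (nat_lit 0) .nil) .nil)))) (.nd (nat_lit 9) 
(.lf (nat_lit 534886) (.g (nat_lit 1432) (.e (nat_lit 57610) (nat_lit 109) (.e (nat_lit 720909) (nat_lit 11) (.e (nat_lit 426196) (nat_lit 9) (.e (nat_lit 426550) (nat_lit 31) (.e (nat_lit 368656) (nat_lit 14) (.e (nat_lit 57810) (nat_lit 246) .nil)))))) (.g (nat_lit 1) (.e (nat_lit 255982) (nat_lit 0) .nil) .nil))) 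
(.lf (nat_lit 535398) (.g (nat_lit 531) (.e (nat_lit 57846) (nat_lit 252) (.e (nat_lit 57389) (nat_lit 5) (.e (nat_lit 114697) (nat_lit 11) .nil))) (.g (nat_lit 0) (.e (nat_lit 258236) (nat_lit 0) .nil) .nil))))) (.nd (nat_lit 8) (.nd (nat_lit 9) 
(.lf (nat_lit 534758) (.g (nat_lit 1793) (.e (nat_lit 57575) (nat_lit 55) (.e (nat_lit 778464) (nat_lit 11) (.e (nat_lit 24604) (nat_lit 2) (.e (nat_lit 90178) (nat_lit 15) (.e (nat_lit 188442) (nat_lit 20) .nil))))) (.g (nat_lit 0) (.e (nat_lit 255254) (nat_lit 0) .nil) .nil))) 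
(.lf (nat_lit 535270) (.g (nat_lit 1781) (.e (nat_lit 57750) (nat_lit 201) (.e (nat_lit 3090) (nat_lit 191) (.e (nat_lit 483333) (nat_lit 0) (.e (nat_lit 7098) (nat_lit 380) (.e (nat_lit 164371) (nat_lit 249) .nil))))) (.g (nat_lit 0) (.e (nat_lit 257644) (nat_lit 0) .nil) .nil)))) (.nd (nat_lit 9) 
(.lf (nat_lit 535014) (.g (nat_lit 1546) (.e (nat_lit 57688) (nat_lit 156) (.e (nat_lit 163873) (nat_lit 3) (.e (nat_lit 204838) (nat_lit 20) (.e (nat_lit 114718) (nat_lit 23) .nil)))) (.g (nat_lit 0) (.e (nat_lit 256595) (nat_lit 0) .nil) .nil))) 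
(.lf (nat_lit 535526) (.g (nat_lit 2162) (.e (nat_lit 57848) (nat_lit 252) (.e (nat_lit 57445) (nat_lit 19) (.e (nat_lit 393229) (nat_lit 9) (.e (nat_lit 336086) (nat_lit 9) (.e (nat_lit 336247) (nat_lit 15) .nil))))) (.g (nat_lit 0) (.e (nat_lit 258419) (nat_lit 0) .nil) .nil)))))))) (.nd (nat_lit 5) (.nd (nat_lit 6) (.nd (nat_lit 7) (.nd (nat_lit 8) (.nd (nat_lit 9) 
(.lf (nat_lit 534550) (.g (nat_lit 461) (.e (nat_lit 57480) (nat_lit 28) (.e (nat_lit 557105) (nat_lit 14) (.e (nat_lit 180264) (nat_lit 21) .nil))) (.g (nat_lit 0) (.e (nat_lit 254831) (nat_lit 0) .nil) .nil))) 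
(.lf (nat_lit 535062) (.g (nat_lit 701) (.e (nat_lit 57688) (nat_lit 156) (.e (nat_lit 163905) (nat_lit 12) (.e (nat_lit 426437) (nat_lit 18) .nil))) (.g (nat_lit 0) (.e (nat_lit 256660) (nat_lit 0) .nil) .nil)))) (.nd (nat_lit 9) 
(.lf (nat_lit 534806) (.g (nat_lit 2459) (.e (nat_lit 65280) (nat_lit 62) (.e (nat_lit 164327) (nat_lit 230) (.e (nat_lit 163903) (nat_lit 12) (.e (nat_lit 426428) (nat_lit 17) .nil)))) (.g (nat_lit 0) (.e (nat_lit 255497) (nat_lit 0) .nil) .nil))) 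
(.lf (nat_lit 535318) (.g (nat_lit 1797) (.e (nat_lit 57810) (nat_lit 246) (.e (nat_lit 57883) (nat_lit 270) (.e (nat_lit 496) (nat_lit 39) (.e (nat_lit 483382) (nat_lit 23) (.e (nat_lit 336320) (nat_lit 17) (.e (nat_lit 196698) (nat_lit 19) .nil)))))) (.g (nat_lit 1) (.e (nat_lit 258018) (nat_lit 0) .nil) .nil))))) (.nd (nat_lit 8) (.nd (nat_lit 9) 
(.lf (nat_lit 534678) (.g (nat_lit 5606) (.e (nat_lit 57574) (nat_lit 55) (.e (nat_lit 778465) (nat_lit 11) (.e (nat_lit 24604) (nat_lit 2) (.e (nat_lit 90176) (nat_lit 15) (.e (nat_lit 188440) (nat_lit 20) (.e (nat_lit 3307) (nat_lit 202) (.e (nat_lit 573477) (nat_lit 12) .nil))))))) (.g (nat_lit 1) (.e (nat_lit 255083) (nat_lit 0) .nil) .nil))) 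
(.lf (nat_lit 535190) (.g (nat_lit 1928) (.e (nat_lit 57692) (nat_lit 156) (.e (nat_lit 163907) (nat_lit 12) (.e (nat_lit 426436) (nat_lit 18) (.e (nat_lit 98358) (nat_lit 26) (.e (nat_lit 426322) (nat_lit 13) .nil))))) (.g (nat_lit 0) (.e (nat_lit 257068) (nat_lit 0) .nil) .nil)))) (.nd (nat_lit 9) 
(.lf (nat_lit 534934) (.g (nat_lit 730) (.e (nat_lit 57686) (nat_lit 156) (.e (nat_lit 163902) (nat_lit 12) (.e (nat_lit 426434) (nat_lit 18) .nil))) (.g (nat_lit 0) (.e (nat_lit 256381) (nat_lit 0) .nil) .nil))) 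
(.lf (nat_lit 535446) (.g (nat_lit 3617) (.e (nat_lit 57847) (nat_lit 252) (.e (nat_lit 57407) (nat_lit 12) (.e (nat_lit 336316) (nat_lit 17) (.e (nat_lit 196666) (nat_lit 13) (.e (nat_lit 65617) (nat_lit 10) (.e (nat_lit 344091) (nat_lit 18) (.e (nat_lit 7695) (nat_lit 412) (.e (nat_lit 57363) (nat_lit 1) .nil)))))))) (.g (nat_lit 1) (.e (nat_lit 258300) (nat_lit 0) .nil) .nil)))))) 
(.nd (nat_lit 7) (.nd (nat_lit 8) (.nd (nat_lit 9) 
(.lf (nat_lit 534614) (.g (nat_lit 2290) (.e (nat_lit 57504) (nat_lit 38) (.e (nat_lit 638995) (nat_lit 7) (.e (nat_lit 163978) (nat_lit 30) (.e (nat_lit 573487) (nat_lit 14) .nil)))) (.g (nat_lit 0) (.e (nat_lit 254933) (nat_lit 0) .nil) .nil))) 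
(.lf (nat_lit 535126) (.g (nat_lit 651) (.e (nat_lit 57691) (nat_lit 156) (.e (nat_lit 163907) (nat_lit 12) (.e (nat_lit 425986) (nat_lit 0) .nil))) (.g (nat_lit 0) (.e (nat_lit 256877) (nat_lit 0) .nil) .nil)))) (.nd (nat_lit 9) 
(.lf (nat_lit 534870) (.g (nat_lit 1640) (.e (nat_lit 57602) (nat_lit 107) (.e (nat_lit 704734) (nat_lit 11) (.e (nat_lit 16468) (nat_lit 13) (.e (nat_lit 483372) (nat_lit 21) (.e (nat_lit 327424) (nat_lit 10) .nil))))) (.g (nat_lit 0) (.e (nat_lit 255908) (nat_lit 0) .nil) .nil))) 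
(.lf (nat_lit 535382) (.g (nat_lit 1297) (.e (nat_lit 57845) (nat_lit 252) (.e (nat_lit 57389) (nat_lit 5) (.e (nat_lit 114698) (nat_lit 11) (.e (nat_lit 426198) (nat_lit 9) .nil)))) (.g (nat_lit 0) (.e (nat_lit 258211) (nat_lit 0) .nil) .nil))))) (.nd (nat_lit 8) (.nd (nat_lit 9) 
(.lf (nat_lit 534742) (.g (nat_lit 3221) (.e (nat_lit 57574) (nat_lit 55) (.e (nat_lit 778466) (nat_lit 11) (.e (nat_lit 24608) (nat_lit 3) (.e (nat_lit 98359) (nat_lit 26) (.e (nat_lit 426286) (nat_lit 10) (.e (nat_lit 434247) (nat_lit 28) (.e (nat_lit 573478) (nat_lit 12) .nil))))))) (.g (nat_lit 1) (.e (nat_lit 255190) (nat_lit 0) .nil) .nil))) 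
(.lf (nat_lit 535254) (.g (nat_lit 3865) (.e (nat_lit 57750) (nat_lit 201) (.e (nat_lit 2854) (nat_lit 184) (.e (nat_lit 426402) (nat_lit 15) (.e (nat_lit 1859) (nat_lit 124) (.e (nat_lit 557098) (nat_lit 13) (.e (nat_lit 172097) (nat_lit 9) (.e (nat_lit 426125) (nat_lit 2) (.e (nat_lit 196661) (nat_lit 12) .nil)))))))) (.g (nat_lit 1) (.e (nat_lit 257508) (nat_lit 0) .nil) .nil)))) 
(.nd (nat_lit 9) 
(.lf (nat_lit 534998) (.g (nat_lit 1119) (.e (nat_lit 57687) (nat_lit 156) (.e (nat_lit 163907) (nat_lit 12) (.e (nat_lit 426479) (nat_lit 27) .nil))) (.g (nat_lit 0) (.e (nat_lit 256498) (nat_lit 0) .nil) .nil))) 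
(.lf (nat_lit 535510) (.g (nat_lit 2503) (.e (nat_lit 57848) (nat_lit 252) (.e (nat_lit 57407) (nat_lit 12) (.e (nat_lit 336454) (nat_lit 34) (.e (nat_lit 483385) (nat_lit 23) (.e (nat_lit 336240) (nat_lit 15) .nil))))) (.g (nat_lit 0) (.e (nat_lit 258403) (nat_lit 0) .nil) .nil))))))) (.nd (nat_lit 6) (.nd (nat_lit 7) (.nd (nat_lit 8) (.nd (nat_lit 9) 
(.lf (nat_lit 534582) (.g (nat_lit 4257) (.e (nat_lit 57500) (nat_lit 37) (.e (nat_lit 630799) (nat_lit 7) (.e (nat_lit 163977) (nat_lit 30) (.e (nat_lit 573489) (nat_lit 14) (.e (nat_lit 73755) (nat_lit 8) (.e (nat_lit 557105) (nat_lit 14) (.e (nat_lit 180252) (nat_lit 10) (.e (nat_lit 573475) (nat_lit 12) .nil)))))))) (.g (nat_lit 1) (.e (nat_lit 254882) (nat_lit 0) .nil) .nil))) 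
(.lf (nat_lit 535094) (.g (nat_lit 4926) (.e (nat_lit 57689) (nat_lit 156) (.e (nat_lit 163875) (nat_lit 3) (.e (nat_lit 204837) (nat_lit 20) (.e (nat_lit 114718) (nat_lit 23) (.e (nat_lit 98367) (nat_lit 27) (.e (nat_lit 434231) (nat_lit 23) (.e (nat_lit 532500) (nat_lit 1) .nil))))))) (.g (nat_lit 1) (.e (nat_lit 256820) (nat_lit 0) .nil) .nil)))) (.nd (nat_lit 9) 
(.lf (nat_lit 534838) (.g (nat_lit 2087) (.e (nat_lit 57596) (nat_lit 82) (.e (nat_lit 499900) (nat_lit 7) (.e (nat_lit 24625) (nat_lit 9) (.e (nat_lit 336450) (nat_lit 33) (.e (nat_lit 475152) (nat_lit 17) (.e (nat_lit 57813) (nat_lit 246) .nil)))))) (.g (nat_lit 1) (.e (nat_lit 255790) (nat_lit 0) .nil) .nil))) 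
(.lf (nat_lit 535350) (.g (nat_lit 479) (.e (nat_lit 57857) (nat_lit 254) (.e (nat_lit 163923) (nat_lit 15) (.e (nat_lit 450596) (nat_lit 17) .nil))) (.g (nat_lit 0) (.e (nat_lit 258137) (nat_lit 0) .nil) .nil))))) (.nd (nat_lit 8) (.nd (nat_lit 9) 
(.lf (nat_lit 534710) (.g (nat_lit 5080) (.e (nat_lit 57574) (nat_lit 55) (.e (nat_lit 778466) (nat_lit 11) (.e (nat_lit 24604) (nat_lit 2) (.e (nat_lit 90170) (nat_lit 13) (.e (nat_lit 172113) (nat_lit 10) (.e (nat_lit 434248) (nat_lit 28) (.e (nat_lit 573475) (nat_lit 12) .nil))))))) (.g (nat_lit 1) (.e (nat_lit 255154) (nat_lit 0) .nil) .nil))) 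
(.lf (nat_lit 535222) (.g (nat_lit 2164) (.e (nat_lit 65280) (nat_lit 168) (.e (nat_lit 163875) (nat_lit 3) (.e (nat_lit 204863) (nat_lit 27) (.e (nat_lit 344129) (nat_lit 26) (.e (nat_lit 557097) (nat_lit 13) .nil))))) (.g (nat_lit 0) (.e (nat_lit 257288) (nat_lit 0) .nil) .nil)))) (.nd (nat_lit 9) 
(.lf (nat_lit 534966) (.g (nat_lit 1144) (.e (nat_lit 57686) (nat_lit 156) (.e (nat_lit 163907) (nat_lit 12) (.e (nat_lit 426568) (nat_lit 34) .nil))) (.g (nat_lit 0) (.e (nat_lit 256415) (nat_lit 0) .nil) .nil))) 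
(.lf (nat_lit 535478) (.g (nat_lit 2288) (.e (nat_lit 57848) (nat_lit 252) (.e (nat_lit 57372) (nat_lit 2) (.e (nat_lit 90160) (nat_lit 11) (.e (nat_lit 24631) (nat_lit 9) .nil)))) (.g (nat_lit 0) (.e (nat_lit 258344) (nat_lit 0) .nil) .nil)))))) (.nd (nat_lit 7) (.nd (nat_lit 8) (.nd (nat_lit 9) 
(.lf (nat_lit 534646) (.g (nat_lit 4253) (.e (nat_lit 57572) (nat_lit 54) (.e (nat_lit 770072) (nat_lit 8) (.e (nat_lit 65569) (nat_lit 3) (.e (nat_lit 98359) (nat_lit 26) (.e (nat_lit 426286) (nat_lit 10) (.e (nat_lit 434245) (nat_lit 28) (.e (nat_lit 573473) (nat_lit 12) .nil))))))) (.g (nat_lit 1) (.e (nat_lit 255044) (nat_lit 0) .nil) .nil))) 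
(.lf (nat_lit 535158) (.g (nat_lit 1541) (.e (nat_lit 57692) (nat_lit 156) (.e (nat_lit 163874) (nat_lit 3) (.e (nat_lit 204838) (nat_lit 20) (.e (nat_lit 114719) (nat_lit 23) (.e (nat_lit 98366) (nat_lit 27) .nil))))) (.g (nat_lit 0) (.e (nat_lit 256982) (nat_lit 0) .nil) .nil)))) (.nd (nat_lit 9) 
(.lf (nat_lit 534902) (.g (nat_lit 1360) (.e (nat_lit 57610) (nat_lit 109) (.e (nat_lit 720909) (nat_lit 11) (.e (nat_lit 426197) (nat_lit 9) (.e (nat_lit 426550) (nat_lit 31) (.e (nat_lit 368656) (nat_lit 14) (.e (nat_lit 57815) (nat_lit 246) .nil)))))) (.g (nat_lit 1) (.e (nat_lit 255998) (nat_lit 0) .nil) .nil))) 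
(.lf (nat_lit 535414) (.g (nat_lit 2683) (.e (nat_lit 57847) (nat_lit 252) (.e (nat_lit 57371) (nat_lit 2) (.e (nat_lit 90160) (nat_lit 11) (.e (nat_lit 24630) (nat_lit 9) (.e (nat_lit 336456) (nat_lit 34) .nil))))) (.g (nat_lit 0) (.e (nat_lit 258258) (nat_lit 0) .nil) .nil))))) (.nd (nat_lit 8) (.nd (nat_lit 9) 
(.lf (nat_lit 534774) (.g (nat_lit 3735) (.e (nat_lit 57575) (nat_lit 55) (.e (nat_lit 778466) (nat_lit 11) (.e (nat_lit 24604) (nat_lit 2) (.e (nat_lit 90178) (nat_lit 15) (.e (nat_lit 188441) (nat_lit 20) (.e (nat_lit 3304) (nat_lit 202) (.e (nat_lit 573477) (nat_lit 12) .nil))))))) (.g (nat_lit 1) (.e (nat_lit 255274) (nat_lit 0) .nil) .nil))) 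
(.lf (nat_lit 535286) (.g (nat_lit 1868) (.e (nat_lit 65280) (nat_lit 241) (.e (nat_lit 57373) (nat_lit 2) (.e (nat_lit 90170) (nat_lit 13) (.e (nat_lit 172106) (nat_lit 10) .nil)))) (.g (nat_lit 0) (.e (nat_lit 257956) (nat_lit 0) .nil) .nil)))) (.nd (nat_lit 9) 
(.lf (nat_lit 535030) (.g (nat_lit 1176) (.e (nat_lit 57688) (nat_lit 156) (.e (nat_lit 163902) (nat_lit 12) (.e (nat_lit 426437) (nat_lit 18) (.e (nat_lit 98380) (nat_lit 31) .nil)))) (.g (nat_lit 0) (.e (nat_lit 256614) (nat_lit 0) .nil) .nil))) 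
(.lf (nat_lit 535542) (.g (nat_lit 3057) (.e (nat_lit 57849) (nat_lit 252) (.e (nat_lit 57372) (nat_lit 2) (.e (nat_lit 90160) (nat_lit 11) (.e (nat_lit 24630) (nat_lit 9) (.e (nat_lit 336454) (nat_lit 34) (.e (nat_lit 483363) (nat_lit 18) .nil)))))) (.g (nat_lit 1) (.e (nat_lit 258435) (nat_lit 0) .nil) .nil))))))))) 
(.nd (nat_lit 4) (.nd (nat_lit 5) (.nd (nat_lit 6) (.nd (nat_lit 7) (.nd (nat_lit 8) 
(.nd (nat_lit 9) 
(.lf (nat_lit 534542) (.g (nat_lit 2059) (.e (nat_lit 57480) (nat_lit 28) (.e (nat_lit 557098) (nat_lit 13) (.e (nat_lit 172097) (nat_lit 9) (.e (nat_lit 426140) (nat_lit 3) (.e (nat_lit 204855) (nat_lit 26) (.e (nat_lit 336290) (nat_lit 15) (.e (nat_lit 3715) (nat_lit 227) (.e (nat_lit 786176) (nat_lit 3) .nil)))))))) (.g (nat_lit 1) (.e (nat_lit 254823) (nat_lit 0) .nil) .nil))) 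
(.lf (nat_lit 535054) (.g (nat_lit 586) (.e (nat_lit 57688) (nat_lit 156) (.e (nat_lit 163903) (nat_lit 12) (.e (nat_lit 426478) (nat_lit 27) .nil))) (.g (nat_lit 0) (.e (nat_lit 256646) (nat_lit 0) .nil) .nil)))) (.nd (nat_lit 9) 
(.lf (nat_lit 534798) (.g (nat_lit 3118) (.e (nat_lit 57539) (nat_lit 46) (.e (nat_lit 704738) (nat_lit 11) (.e (nat_lit 16425) (nat_lit 7) (.e (nat_lit 409649) (nat_lit 18) (.e (nat_lit 303132) (nat_lit 9) (.e (nat_lit 426025) (nat_lit 0) (.e (nat_lit 3397) (nat_lit 211) (.e (nat_lit 647201) (nat_lit 12) .nil)))))))) (.g (nat_lit 1) (.e (nat_lit 255387) (nat_lit 0) .nil) .nil))) 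
(.lf (nat_lit 535310) (.g (nat_lit 1770) (.e (nat_lit 57809) (nat_lit 246) (.e (nat_lit 57883) (nat_lit 270) (.e (nat_lit 496) (nat_lit 39) (.e (nat_lit 483383) (nat_lit 23) (.e (nat_lit 343808) (nat_lit 17) (.e (nat_lit 196698) (nat_lit 19) .nil)))))) (.g (nat_lit 1) (.e (nat_lit 258007) (nat_lit 0) .nil) .nil))))) (.nd (nat_lit 8) (.nd (nat_lit 9) 
(.lf (nat_lit 534670) (.g (nat_lit 3430) (.e (nat_lit 57574) (nat_lit 55) (.e (nat_lit 778465) (nat_lit 11) (.e (nat_lit 24603) (nat_lit 2) (.e (nat_lit 90178) (nat_lit 15) (.e (nat_lit 188440) (nat_lit 20) (.e (nat_lit 3307) (nat_lit 202) (.e (nat_lit 573478) (nat_lit 12) .nil))))))) (.g (nat_lit 1) (.e (nat_lit 255074) (nat_lit 0) .nil) .nil))) 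
(.lf (nat_lit 535182) (.g (nat_lit 1133) (.e (nat_lit 57692) (nat_lit 156) (.e (nat_lit 163907) (nat_lit 12) (.e (nat_lit 426131) (nat_lit 3) (.e (nat_lit 204877) (nat_lit 31) .nil)))) (.g (nat_lit 0) (.e (nat_lit 257037) (nat_lit 0) .nil) .nil)))) (.nd (nat_lit 9) 
(.lf (nat_lit 534926) (.g (nat_lit 1008) (.e (nat_lit 57685) (nat_lit 156) (.e (nat_lit 163905) (nat_lit 12) (.e (nat_lit 426566) (nat_lit 34) .nil))) (.g (nat_lit 0) (.e (nat_lit 256352) (nat_lit 0) .nil) .nil))) 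
(.lf (nat_lit 535438) (.g (nat_lit 2741) (.e (nat_lit 57847) (nat_lit 252) (.e (nat_lit 57406) (nat_lit 12) (.e (nat_lit 336454) (nat_lit 34) (.e (nat_lit 483382) (nat_lit 23) .nil)))) (.g (nat_lit 0) (.e (nat_lit 258292) (nat_lit 0) .nil) .nil)))))) (.nd (nat_lit 7) (.nd (nat_lit 8) (.nd (nat_lit 9) 
(.lf (nat_lit 534606) (.g (nat_lit 3204) (.e (nat_lit 57503) (nat_lit 38) (.e (nat_lit 638995) (nat_lit 7) (.e (nat_lit 163978) (nat_lit 30) (.e (nat_lit 573487) (nat_lit 14) (.e (nat_lit 73754) (nat_lit 8) .nil))))) (.g (nat_lit 0) (.e (nat_lit 254912) (nat_lit 0) .nil) .nil))) 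
(.lf (nat_lit 535118) (.g (nat_lit 589) (.e (nat_lit 57691) (nat_lit 156) (.e (nat_lit 163905) (nat_lit 12) (.e (nat_lit 426437) (nat_lit 18) .nil))) (.g (nat_lit 0) (.e (nat_lit 256860) (nat_lit 0) .nil) .nil)))) (.nd (nat_lit 9) 
(.lf (nat_lit 534862) (.g (nat_lit 3119) (.e (nat_lit 57615) (nat_lit 116) (.e (nat_lit 778466) (nat_lit 11) (.e (nat_lit 24617) (nat_lit 7) (.e (nat_lit 319533) (nat_lit 16) (.e (nat_lit 286752) (nat_lit 10) .nil))))) (.g (nat_lit 0) (.e (nat_lit 255898) (nat_lit 0) .nil) .nil))) 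
(.lf (nat_lit 535374) (.g (nat_lit 3482) (.e (nat_lit 57844) (nat_lit 252) (.e (nat_lit 57445) (nat_lit 19) (.e (nat_lit 393229) (nat_lit 9) (.e (nat_lit 336073) (nat_lit 9) .nil)))) (.g (nat_lit 0) (.e (nat_lit 258203) (nat_lit 0) .nil) .nil))))) (.nd (nat_lit 8) (.nd (nat_lit 9) 
(.lf (nat_lit 534734) (.g (nat_lit 4087) (.e (nat_lit 57574) (nat_lit 55) (.e (nat_lit 778466) (nat_lit 11) (.e (nat_lit 24608) (nat_lit 3) (.e (nat_lit 98356) (nat_lit 26) (.e (nat_lit 426272) (nat_lit 10) (.e (nat_lit 434247) (nat_lit 28) (.e (nat_lit 573478) (nat_lit 12) .nil))))))) (.g (nat_lit 1) (.e (nat_lit 255182) (nat_lit 0) .nil) .nil))) 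
(.lf (nat_lit 535246) (.g (nat_lit 1881) (.e (nat_lit 57715) (nat_lit 176) (.e (nat_lit 1348) (nat_lit 102) (.e (nat_lit 286735) (nat_lit 3) (.e (nat_lit 98382) (nat_lit 31) .nil)))) (.g (nat_lit 0) (.e (nat_lit 257375) (nat_lit 0) .nil) .nil)))) (.nd (nat_lit 9) 
(.lf (nat_lit 534990) (.g (nat_lit 1033) (.e (nat_lit 57687) (nat_lit 156) (.e (nat_lit 163903) (nat_lit 12) (.e (nat_lit 426479) (nat_lit 27) (.e (nat_lit 336434) (nat_lit 30) .nil)))) (.g (nat_lit 0) (.e (nat_lit 256488) (nat_lit 0) .nil) .nil))) 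
(.lf (nat_lit 535502) (.g (nat_lit 2445) (.e (nat_lit 57848) (nat_lit 252) (.e (nat_lit 57407) (nat_lit 12) (.e (nat_lit 336316) (nat_lit 17) (.e (nat_lit 196666) (nat_lit 13) (.e (nat_lit 65617) (nat_lit 10) (.e (nat_lit 344088) (nat_lit 18) (.e (nat_lit 7695) (nat_lit 412) (.e (nat_lit 57367) (nat_lit 1) .nil)))))))) (.g (nat_lit 1) (.e (nat_lit 258395) (nat_lit 0) .nil) .nil))))))) 
(.nd (nat_lit 6) (.nd (nat_lit 7) (.nd (nat_lit 8) (.nd (nat_lit 9) 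
(.lf (nat_lit 534574) (.g (nat_lit 3953) (.e (nat_lit 57480) (nat_lit 28) (.e (nat_lit 557109) (nat_lit 15) (.e (nat_lit 188449) (nat_lit 22) (.e (nat_lit 196666) (nat_lit 13) (.e (nat_lit 65638) (nat_lit 15) (.e (nat_lit 3715) (nat_lit 227) (.e (nat_lit 778316) (nat_lit 3) .nil))))))) (.g (nat_lit 1) (.e (nat_lit 254859) (nat_lit 0) .nil) .nil))) 
(.lf (nat_lit 535086) (.g (nat_lit 1441) (.e (nat_lit 57688) (nat_lit 156) (.e (nat_lit 163933) (nat_lit 17) (.e (nat_lit 466971) (nat_lit 21) (.e (nat_lit 164151) (nat_lit 152) .nil)))) (.g (nat_lit 0) (.e (nat_lit 256763) (nat_lit 0) .nil) .nil)))) (.nd (nat_lit 9) 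
(.lf (nat_lit 534830) (.g (nat_lit 2778) (.e (nat_lit 57592) (nat_lit 73) (.e (nat_lit 426316) (nat_lit 12) (.e (nat_lit 475185) (nat_lit 29) (.e (nat_lit 557098) (nat_lit 13) .nil)))) (.g (nat_lit 0) (.e (nat_lit 255743) (nat_lit 0) .nil) .nil))) 
(.lf (nat_lit 535342) (.g (nat_lit 1162) (.e (nat_lit 57857) (nat_lit 254) (.e (nat_lit 163908) (nat_lit 12) (.e (nat_lit 426171) (nat_lit 7) (.e (nat_lit 409635) (nat_lit 14) .nil)))) (.g (nat_lit 0) (.e (nat_lit 258126) (nat_lit 0) .nil) .nil))))) (.nd (nat_lit 8) (.nd (nat_lit 9) 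
(.lf (nat_lit 534702) (.g (nat_lit 2192) (.e (nat_lit 57574) (nat_lit 55) (.e (nat_lit 778466) (nat_lit 11) (.e (nat_lit 24604) (nat_lit 2) (.e (nat_lit 90169) (nat_lit 13) (.e (nat_lit 172105) (nat_lit 10) .nil))))) (.g (nat_lit 0) (.e (nat_lit 255146) (nat_lit 0) .nil) .nil))) 
(.lf (nat_lit 535214) (.g (nat_lit 2067) (.e (nat_lit 65280) (nat_lit 168) (.e (nat_lit 163874) (nat_lit 3) (.e (nat_lit 204862) (nat_lit 27) (.e (nat_lit 344129) (nat_lit 26) (.e (nat_lit 557103) (nat_lit 14) .nil))))) (.g (nat_lit 0) (.e (nat_lit 257280) (nat_lit 0) .nil) .nil)))) (.nd (nat_lit 9) 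
(.lf (nat_lit 534958) (.g (nat_lit 2344) (.e (nat_lit 57686) (nat_lit 156) (.e (nat_lit 163905) (nat_lit 12) (.e (nat_lit 426428) (nat_lit 17) (.e (nat_lit 90170) (nat_lit 13) (.e (nat_lit 172123) (nat_lit 13) .nil))))) (.g (nat_lit 0) (.e (nat_lit 256407) (nat_lit 0) .nil) .nil))) 
(.lf (nat_lit 535470) (.g (nat_lit 1640) (.e (nat_lit 57848) (nat_lit 252) (.e (nat_lit 57370) (nat_lit 2) (.e (nat_lit 90158) (nat_lit 11) (.e (nat_lit 24630) (nat_lit 9) (.e (nat_lit 336456) (nat_lit 34) .nil))))) (.g (nat_lit 0) (.e (nat_lit 258333) (nat_lit 0) .nil) .nil)))))) (.nd (nat_lit 7) (.nd (nat_lit 8) (.nd (nat_lit 9) 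
(.lf (nat_lit 534638) (.g (nat_lit 2519) (.e (nat_lit 57572) (nat_lit 54) (.e (nat_lit 770071) (nat_lit 8) (.e (nat_lit 65568) (nat_lit 2) (.e (nat_lit 90170) (nat_lit 13) (.e (nat_lit 172113) (nat_lit 10) (.e (nat_lit 434242) (nat_lit 28) (.e (nat_lit 573473) (nat_lit 12) .nil))))))) (.g (nat_lit 1) (.e (nat_lit 255031) (nat_lit 0) .nil) .nil))) 
(.lf (nat_lit 535150) (.g (nat_lit 4083) (.e (nat_lit 57692) (nat_lit 156) (.e (nat_lit 163869) (nat_lit 2) (.e (nat_lit 196656) (nat_lit 11) (.e (nat_lit 16473) (nat_lit 14) (.e (nat_lit 491584) (nat_lit 28) (.e (nat_lit 442112) (nat_lit 46) (.e (nat_lit 720934) (nat_lit 21) .nil))))))) (.g (nat_lit 1) (.e (nat_lit 256971) (nat_lit 0) .nil) .nil)))) (.nd (nat_lit 9) 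
(.lf (nat_lit 534894) (.g (nat_lit 1012) (.e (nat_lit 57610) (nat_lit 109) (.e (nat_lit 720909) (nat_lit 11) (.e (nat_lit 426197) (nat_lit 9) (.e (nat_lit 426533) (nat_lit 28) (.e (nat_lit 344084) (nat_lit 14) (.e (nat_lit 57811) (nat_lit 246) .nil)))))) (.g (nat_lit 1) (.e (nat_lit 255990) (nat_lit 0) .nil) .nil))) 
(.lf (nat_lit 535406) (.g (nat_lit 2078) (.e (nat_lit 57846) (nat_lit 252) (.e (nat_lit 57407) (nat_lit 12) (.e (nat_lit 336454) (nat_lit 34) (.e (nat_lit 483404) (nat_lit 26) .nil)))) (.g (nat_lit 0) (.e (nat_lit 258249) (nat_lit 0) .nil) .nil))))) (.nd (nat_lit 8) (.nd (nat_lit 9) 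
(.lf (nat_lit 534766) (.g (nat_lit 2846) (.e (nat_lit 57575) (nat_lit 55) (.e (nat_lit 778465) (nat_lit 11) (.e (nat_lit 24604) (nat_lit 2) (.e (nat_lit 90176) (nat_lit 15) (.e (nat_lit 188424) (nat_lit 20) (.e (nat_lit 3304) (nat_lit 202) (.e (nat_lit 573477) (nat_lit 12) .nil))))))) (.g (nat_lit 1) (.e (nat_lit 255264) (nat_lit 0) .nil) .nil))) 
(.lf (nat_lit 535278) (.g (nat_lit 3555) (.e (nat_lit 57751) (nat_lit 201) (.e (nat_lit 3067) (nat_lit 190) (.e (nat_lit 475184) (nat_lit 29) (.e (nat_lit 557109) (nat_lit 15) (.e (nat_lit 188449) (nat_lit 22) (.e (nat_lit 196661) (nat_lit 12) .nil)))))) (.g (nat_lit 1) (.e (nat_lit 257703) (nat_lit 0) .nil) .nil)))) (.nd (nat_lit 9) 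
(.lf (nat_lit 535022) (.g (nat_lit 3196) (.e (nat_lit 57688) (nat_lit 156) (.e (nat_lit 163875) (nat_lit 3) (.e (nat_lit 204829) (nat_lit 18) (.e (nat_lit 57847) (nat_lit 252) (.e (nat_lit 57432) (nat_lit 16) (.e (nat_lit 368676) (nat_lit 21) (.e (nat_lit 516146) (nat_lit 9) (.e (nat_lit 426422) (nat_lit 16) .nil)))))))) (.g (nat_lit 1) (.e (nat_lit 256603) (nat_lit 0) .nil) .nil))) 
(.lf (nat_lit 535534) (.g (nat_lit 776) (.e (nat_lit 57849) (nat_lit 252) (.e (nat_lit 57371) (nat_lit 2) (.e (nat_lit 90160) (nat_lit 11) .nil))) (.g (nat_lit 0) (.e (nat_lit 258427) (nat_lit 0) .nil) .nil)))))))) (.nd (nat_lit 5) (.nd (nat_lit 6) (.nd (nat_lit 7) (.nd (nat_lit 8) (.nd (nat_lit 9) 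
(.lf (nat_lit 534558) (.g (nat_lit 2112) (.e (nat_lit 57480) (nat_lit 28) (.e (nat_lit 557107) (nat_lit 15) (.e (nat_lit 188450) (nat_lit 23) (.e (nat_lit 204852) (nat_lit 26) (.e (nat_lit 336296) (nat_lit 15) (.e (nat_lit 3714) (nat_lit 227) (.e (nat_lit 778316) (nat_lit 3) .nil))))))) (.g (nat_lit 1) (.e (nat_lit 254843) (nat_lit 0) .nil) .nil))) 
(.lf (nat_lit 535070) (.g (nat_lit 842) (.e (nat_lit 57688) (nat_lit 156) (.e (nat_lit 163907) (nat_lit 12) (.e (nat_lit 426432) (nat_lit 17) .nil))) (.g (nat_lit 0) (.e (nat_lit 256678) (nat_lit 0) .nil) .nil)))) (.nd (nat_lit 9) 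
(.lf (nat_lit 534814) (.g (nat_lit 1871) (.e (nat_lit 65280) (nat_lit 64) (.e (nat_lit 204878) (nat_lit 31) (.e (nat_lit 376862) (nat_lit 22) (.e (nat_lit 90185) (nat_lit 17) (.e (nat_lit 237582) (nat_lit 1) .nil))))) (.g (nat_lit 0) (.e (nat_lit 255590) (nat_lit 0) .nil) .nil))) 
(.lf (nat_lit 535326) (.g (nat_lit 2121) (.e (nat_lit 57811) (nat_lit 246) (.e (nat_lit 57883) (nat_lit 270) (.e (nat_lit 496) (nat_lit 39) (.e (nat_lit 483380) (nat_lit 23) (.e (nat_lit 336316) (nat_lit 17) (.e (nat_lit 204544) (nat_lit 19) .nil)))))) (.g (nat_lit 1) (.e (nat_lit 258029) (nat_lit 0) .nil) .nil))))) (.nd (nat_lit 8) (.nd (nat_lit 9) 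
(.lf (nat_lit 534686) (.g (nat_lit 3534) (.e (nat_lit 57574) (nat_lit 55) (.e (nat_lit 778465) (nat_lit 11) (.e (nat_lit 24607) (nat_lit 3) (.e (nat_lit 98359) (nat_lit 26) (.e (nat_lit 426286) (nat_lit 10) (.e (nat_lit 434247) (nat_lit 28) (.e (nat_lit 573478) (nat_lit 12) .nil))))))) (.g (nat_lit 1) (.e (nat_lit 255091) (nat_lit 0) .nil) .nil))) 
(.lf (nat_lit 535198) (.g (nat_lit 763) (.e (nat_lit 57692) (nat_lit 156) (.e (nat_lit 163913) (nat_lit 12) (.e (nat_lit 426419) (nat_lit 15) .nil))) (.g (nat_lit 0) (.e (nat_lit 257087) (nat_lit 0) .nil) .nil)))) (.nd (nat_lit 9) 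
(.lf (nat_lit 534942) (.g (nat_lit 1338) (.e (nat_lit 57686) (nat_lit 156) (.e (nat_lit 163902) (nat_lit 12) (.e (nat_lit 426479) (nat_lit 27) (.e (nat_lit 336430) (nat_lit 29) (.e (nat_lit 442425) (nat_lit 23) .nil))))) (.g (nat_lit 0) (.e (nat_lit 256390) (nat_lit 0) .nil) .nil))) 
(.lf (nat_lit 535454) (.g (nat_lit 2033) (.e (nat_lit 57847) (nat_lit 252) (.e (nat_lit 57407) (nat_lit 12) (.e (nat_lit 336454) (nat_lit 34) (.e (nat_lit 483381) (nat_lit 23) .nil)))) (.g (nat_lit 0) (.e (nat_lit 258309) (nat_lit 0) .nil) .nil)))))) (.nd (nat_lit 7) (.nd (nat_lit 8) (.nd (nat_lit 9) 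
(.lf (nat_lit 534622) (.g (nat_lit 3207) (.e (nat_lit 57507) (nat_lit 39) (.e (nat_lit 647181) (nat_lit 3) (.e (nat_lit 163964) (nat_lit 25) (.e (nat_lit 532553) (nat_lit 13) (.e (nat_lit 368676) (nat_lit 21) (.e (nat_lit 516131) (nat_lit 3) (.e (nat_lit 221212) (nat_lit 22) (.e (nat_lit 196660) (nat_lit 12) .nil)))))))) (.g (nat_lit 1) (.e (nat_lit 254950) (nat_lit 0) .nil) .nil))) 
(.lf (nat_lit 535134) (.g (nat_lit 847) (.e (nat_lit 57691) (nat_lit 156) (.e (nat_lit 163907) (nat_lit 12) (.e (nat_lit 426481) (nat_lit 27) .nil))) (.g (nat_lit 0) (.e (nat_lit 256908) (nat_lit 0) .nil) .nil)))) (.nd (nat_lit 9) 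
(.lf (nat_lit 534878) (.g (nat_lit 2167) (.e (nat_lit 57610) (nat_lit 109) (.e (nat_lit 720909) (nat_lit 11) (.e (nat_lit 426187) (nat_lit 9) (.e (nat_lit 426550) (nat_lit 31) (.e (nat_lit 368656) (nat_lit 14) (.e (nat_lit 57813) (nat_lit 246) .nil)))))) (.g (nat_lit 1) (.e (nat_lit 255974) (nat_lit 0) .nil) .nil))) 
(.lf (nat_lit 535390) (.g (nat_lit 1647) (.e (nat_lit 57846) (nat_lit 252) (.e (nat_lit 57372) (nat_lit 2) (.e (nat_lit 90160) (nat_lit 11) (.e (nat_lit 24631) (nat_lit 9) .nil)))) (.g (nat_lit 0) (.e (nat_lit 258221) (nat_lit 0) .nil) .nil))))) (.nd (nat_lit 8) (.nd (nat_lit 9) 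
(.lf (nat_lit 534750) (.g (nat_lit 2798) (.e (nat_lit 57574) (nat_lit 55) (.e (nat_lit 778466) (nat_lit 11) (.e (nat_lit 24608) (nat_lit 3) (.e (nat_lit 98381) (nat_lit 31) .nil)))) (.g (nat_lit 0) (.e (nat_lit 255200) (nat_lit 0) .nil) .nil))) 
(.lf (nat_lit 535262) (.g (nat_lit 5181) (.e (nat_lit 57750) (nat_lit 201) (.e (nat_lit 3067) (nat_lit 190) (.e (nat_lit 475183) (nat_lit 29) (.e (nat_lit 557109) (nat_lit 15) (.e (nat_lit 188449) (nat_lit 22) (.e (nat_lit 196661) (nat_lit 12) .nil)))))) (.g (nat_lit 1) (.e (nat_lit 257526) (nat_lit 0) .nil) .nil)))) (.nd (nat_lit 9) 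
(.lf (nat_lit 535006) (.g (nat_lit 2349) (.e (nat_lit 57687) (nat_lit 156) (.e (nat_lit 163933) (nat_lit 17) (.e (nat_lit 466971) (nat_lit 21) (.e (nat_lit 164325) (nat_lit 230) (.e (nat_lit 163861) (nat_lit 1) (.e (nat_lit 164332) (nat_lit 230) (.e (nat_lit 163905) (nat_lit 12) (.e (nat_lit 426422) (nat_lit 16) .nil)))))))) (.g (nat_lit 1) (.e (nat_lit 256538) (nat_lit 0) .nil) .nil))) 
(.lf (nat_lit 535518) (.g (nat_lit 1676) (.e (nat_lit 57848) (nat_lit 252) (.e (nat_lit 57407) (nat_lit 12) (.e (nat_lit 336456) (nat_lit 34) (.e (nat_lit 483386) (nat_lit 23) (.e (nat_lit 336282) (nat_lit 15) .nil))))) (.g (nat_lit 0) (.e (nat_lit 258411) (nat_lit 0) .nil) .nil))))))) (.nd (nat_lit 6) (.nd (nat_lit 7) (.nd (nat_lit 8) (.nd (nat_lit 9) 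
(.lf (nat_lit 534590) (.g (nat_lit 1471) (.e (nat_lit 57502) (nat_lit 38) (.e (nat_lit 638995) (nat_lit 7) (.e (nat_lit 163979) (nat_lit 30) (.e (nat_lit 573489) (nat_lit 14) .nil)))) (.g (nat_lit 0) (.e (nat_lit 254896) (nat_lit 0) .nil) .nil))) 
(.lf (nat_lit 535102) (.g (nat_lit 1288) (.e (nat_lit 57691) (nat_lit 156) (.e (nat_lit 163869) (nat_lit 2) (.e (nat_lit 196654) (nat_lit 11) .nil))) (.g (nat_lit 0) (.e (nat_lit 256841) (nat_lit 0) .nil) .nil)))) (.nd (nat_lit 9) 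
(.lf (nat_lit 534846) (.g (nat_lit 1274) (.e (nat_lit 65280) (nat_lit 84) (.e (nat_lit 516130) (nat_lit 3) (.e (nat_lit 221212) (nat_lit 22) (.e (nat_lit 196681) (nat_lit 17) (.e (nat_lit 131096) (nat_lit 3) .nil))))) (.g (nat_lit 0) (.e (nat_lit 255867) (nat_lit 0) .nil) .nil))) 
(.lf (nat_lit 535358) (.g (nat_lit 675) (.e (nat_lit 57844) (nat_lit 252) (.e (nat_lit 57379) (nat_lit 3) (.e (nat_lit 98315) (nat_lit 9) .nil))) (.g (nat_lit 0) (.e (nat_lit 258175) (nat_lit 0) .nil) .nil))))) (.nd (nat_lit 8) (.nd (nat_lit 9) 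
(.lf (nat_lit 534718) (.g (nat_lit 2795) (.e (nat_lit 57574) (nat_lit 55) (.e (nat_lit 778466) (nat_lit 11) (.e (nat_lit 24604) (nat_lit 2) (.e (nat_lit 90178) (nat_lit 15) (.e (nat_lit 188424) (nat_lit 20) (.e (nat_lit 3307) (nat_lit 202) (.e (nat_lit 573477) (nat_lit 12) .nil))))))) (.g (nat_lit 1) (.e (nat_lit 255163) (nat_lit 0) .nil) .nil))) 
(.lf (nat_lit 535230) (.g (nat_lit 1919) (.e (nat_lit 57711) (nat_lit 176) (.e (nat_lit 1348) (nat_lit 102) (.e (nat_lit 286735) (nat_lit 3) (.e (nat_lit 98362) (nat_lit 26) .nil)))) (.g (nat_lit 0) (.e (nat_lit 257309) (nat_lit 0) .nil) .nil)))) (.nd (nat_lit 9) 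
(.lf (nat_lit 534974) (.g (nat_lit 1666) (.e (nat_lit 57687) (nat_lit 156) (.e (nat_lit 163902) (nat_lit 12) (.e (nat_lit 426436) (nat_lit 18) (.e (nat_lit 98358) (nat_lit 26) .nil)))) (.g (nat_lit 0) (.e (nat_lit 256470) (nat_lit 0) .nil) .nil))) 
(.lf (nat_lit 535486) (.g (nat_lit 2843) (.e (nat_lit 57848) (nat_lit 252) (.e (nat_lit 57375) (nat_lit 2) (.e (nat_lit 90157) (nat_lit 11) (.e (nat_lit 24655) (nat_lit 13) (.e (nat_lit 393229) (nat_lit 9) (.e (nat_lit 335994) (nat_lit 1) .nil)))))) (.g (nat_lit 1) (.e (nat_lit 258358) (nat_lit 0) .nil) .nil)))))) (.nd (nat_lit 7) (.nd (nat_lit 8) (.nd (nat_lit 9) 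
(.lf (nat_lit 534654) (.g (nat_lit 2937) (.e (nat_lit 57572) (nat_lit 54) (.e (nat_lit 770072) (nat_lit 8) (.e (nat_lit 65571) (nat_lit 3) (.e (nat_lit 98359) (nat_lit 26) (.e (nat_lit 426286) (nat_lit 10) (.e (nat_lit 434247) (nat_lit 28) (.e (nat_lit 573473) (nat_lit 12) .nil))))))) (.g (nat_lit 1) (.e (nat_lit 255052) (nat_lit 0) .nil) .nil))) 
(.lf (nat_lit 535166) (.g (nat_lit 868) (.e (nat_lit 57692) (nat_lit 156) (.e (nat_lit 163905) (nat_lit 12) (.e (nat_lit 426434) (nat_lit 18) .nil))) (.g (nat_lit 0) (.e (nat_lit 256998) (nat_lit 0) .nil) .nil)))) (.nd (nat_lit 9) 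
(.lf (nat_lit 534910) (.g (nat_lit 2155) (.e (nat_lit 65280) (nat_lit 146) (.e (nat_lit 1209) (nat_lit 89) (.e (nat_lit 73753) (nat_lit 8) (.e (nat_lit 557119) (nat_lit 18) (.e (nat_lit 2798) (nat_lit 180) .nil))))) (.g (nat_lit 0) (.e (nat_lit 256134) (nat_lit 0) .nil) .nil))) 
(.lf (nat_lit 535422) (.g (nat_lit 1401) (.e (nat_lit 57847) (nat_lit 252) (.e (nat_lit 57374) (nat_lit 2) (.e (nat_lit 90158) (nat_lit 11) (.e (nat_lit 24627) (nat_lit 9) .nil)))) (.g (nat_lit 0) (.e (nat_lit 258269) (nat_lit 0) .nil) .nil))))) (.nd (nat_lit 8) (.nd (nat_lit 9) 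
(.lf (nat_lit 534782) (.g (nat_lit 2938) (.e (nat_lit 57575) (nat_lit 55) (.e (nat_lit 778466) (nat_lit 11) (.e (nat_lit 24608) (nat_lit 3) (.e (nat_lit 98381) (nat_lit 31) .nil)))) (.g (nat_lit 0) (.e (nat_lit 255283) (nat_lit 0) .nil) .nil))) 
(.lf (nat_lit 535294) (.g (nat_lit 3193) (.e (nat_lit 57819) (nat_lit 248) (.e (nat_lit 164359) (nat_lit 246) (.e (nat_lit 2679) (nat_lit 168) (.e (nat_lit 204855) (nat_lit 26) (.e (nat_lit 336099) (nat_lit 9) (.e (nat_lit 336013) (nat_lit 2) (.e (nat_lit 98048) (nat_lit 19) .nil))))))) (.g (nat_lit 1) (.e (nat_lit 257982) (nat_lit 0) .nil) .nil)))) (.nd (nat_lit 9) 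
(.lf (nat_lit 535038) (.g (nat_lit 1825) (.e (nat_lit 57688) (nat_lit 156) (.e (nat_lit 163902) (nat_lit 12) (.e (nat_lit 426566) (nat_lit 34) (.e (nat_lit 393273) (nat_lit 23) (.e (nat_lit 433920) (nat_lit 3) (.e (nat_lit 204829) (nat_lit 18) .nil)))))) (.g (nat_lit 1) (.e (nat_lit 256629) (nat_lit 0) .nil) .nil))) 
(.lf (nat_lit 535550) (.g (nat_lit 2563) (.e (nat_lit 57849) (nat_lit 252) (.e (nat_lit 57375) (nat_lit 2) (.e (nat_lit 90158) (nat_lit 11) (.e (nat_lit 24628) (nat_lit 9) (.e (nat_lit 336372) (nat_lit 27) (.e (nat_lit 426522) (nat_lit 27) (.e (nat_lit 335986) (nat_lit 1) .nil))))))) (.g (nat_lit 1) (.e (nat_lit 258446) (nat_lit 0) .nil) .nil)))))))))))) 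
(.nd (nat_lit 1) (.nd (nat_lit 2) (.nd (nat_lit 3) (.nd (nat_lit 4) (.nd (nat_lit 5) 
(.nd (nat_lit 6) (.nd (nat_lit 7) (.nd (nat_lit 8) (.nd (nat_lit 9) 
(.lf (nat_lit 534529) (.g (nat_lit 3698) (.e (nat_lit 57479) (nat_lit 28) (.e (nat_lit 557105) (nat_lit 14) (.e (nat_lit 180252) (nat_lit 10) (.e (nat_lit 573489) (nat_lit 14) (.e (nat_lit 73748) (nat_lit 3) (.e (nat_lit 516100) (nat_lit 0) (.e (nat_lit 7936) (nat_lit 216) (.e (nat_lit 688165) (nat_lit 15) .nil)))))))) (.g (nat_lit 1) (.e (nat_lit 254743) (nat_lit 0) .nil) .nil))) 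
(.lf (nat_lit 535041) (.g (nat_lit 404) (.e (nat_lit 57688) (nat_lit 156) (.e (nat_lit 163902) (nat_lit 12) (.e (nat_lit 426568) (nat_lit 34) .nil))) (.g (nat_lit 0) (.e (nat_lit 256632) (nat_lit 0) .nil) .nil)))) (.nd (nat_lit 9) 
(.lf (nat_lit 534785) (.g (nat_lit 3042) (.e (nat_lit 57575) (nat_lit 55) (.e (nat_lit 778466) (nat_lit 11) (.e (nat_lit 24617) (nat_lit 7) (.e (nat_lit 319533) (nat_lit 16) (.e (nat_lit 286753) (nat_lit 10) (.e (nat_lit 344161) (nat_lit 37) (.e (nat_lit 647201) (nat_lit 12) .nil))))))) (.g (nat_lit 1) (.e (nat_lit 255287) (nat_lit 0) .nil) .nil))) 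
(.lf (nat_lit 535297) (.g (nat_lit 125) (.e (nat_lit 57806) (nat_lit 246) (.e (nat_lit 57600) (nat_lit 84) (.e (nat_lit 516199) (nat_lit 26) .nil))) (.g (nat_lit 0) (.e (nat_lit 257994) (nat_lit 0) .nil) .nil))))) (.nd (nat_lit 8) (.nd (nat_lit 9) 
(.lf (nat_lit 534657) (.g (nat_lit 2821) (.e (nat_lit 57572) (nat_lit 54) (.e (nat_lit 770072) (nat_lit 8) (.e (nat_lit 65571) (nat_lit 3) (.e (nat_lit 98362) (nat_lit 26) .nil)))) (.g (nat_lit 0) (.e (nat_lit 255055) (nat_lit 0) .nil) .nil))) 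
(.lf (nat_lit 535169) (.g (nat_lit 953) (.e (nat_lit 57692) (nat_lit 156) (.e (nat_lit 163905) (nat_lit 12) (.e (nat_lit 426481) (nat_lit 27) .nil))) (.g (nat_lit 0) (.e (nat_lit 257017) (nat_lit 0) .nil) .nil)))) (.nd (nat_lit 9) 
(.lf (nat_lit 534913) (.g (nat_lit 762) (.e (nat_lit 57662) (nat_lit 152) (.e (nat_lit 2630) (nat_lit 164) (.e (nat_lit 172039) (nat_lit 0) .nil))) (.g (nat_lit 0) (.e (nat_lit 256252) (nat_lit 0) .nil) .nil))) 
(.lf (nat_lit 535425) (.g (nat_lit 2200) (.e (nat_lit 57847) (nat_lit 252) (.e (nat_lit 57375) (nat_lit 2) (.e (nat_lit 90160) (nat_lit 11) (.e (nat_lit 24628) (nat_lit 9) (.e (nat_lit 336366) (nat_lit 27) (.e (nat_lit 426501) (nat_lit 27) (.e (nat_lit 335986) (nat_lit 1) .nil))))))) (.g (nat_lit 1) (.e (nat_lit 258273) (nat_lit 0) .nil) .nil)))))) 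
(.nd (nat_lit 7) (.nd (nat_lit 8) (.nd (nat_lit 9) 
(.lf (nat_lit 534593) (.g (nat_lit 4841) (.e (nat_lit 57502) (nat_lit 38) (.e (nat_lit 638995) (nat_lit 7) (.e (nat_lit 163979) (nat_lit 30) (.e (nat_lit 573489) (nat_lit 14) (.e (nat_lit 73755) (nat_lit 8) (.e (nat_lit 557103) (nat_lit 14) (.e (nat_lit 180250) (nat_lit 10) (.e (nat_lit 573477) (nat_lit 12) .nil)))))))) (.g (nat_lit 1) (.e (nat_lit 254899) (nat_lit 0) .nil) .nil))) 
(.lf (nat_lit 535105) (.g (nat_lit 1734) (.e (nat_lit 57691) (nat_lit 156) (.e (nat_lit 163874) (nat_lit 3) (.e (nat_lit 204836) (nat_lit 20) (.e (nat_lit 114718) (nat_lit 23) (.e (nat_lit 98366) (nat_lit 27) .nil))))) (.g (nat_lit 0) (.e (nat_lit 256846) (nat_lit 0) .nil) .nil)))) (.nd (nat_lit 9) 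
(.lf (nat_lit 534849) (.g (nat_lit 528) (.e (nat_lit 65280) (nat_lit 84) (.e (nat_lit 516179) (nat_lit 15) (.e (nat_lit 475177) (nat_lit 24) .nil))) (.g (nat_lit 0) (.e (nat_lit 255870) (nat_lit 0) .nil) .nil))) 
(.lf (nat_lit 535361) (.g (nat_lit 1752) (.e (nat_lit 57844) (nat_lit 252) (.e (nat_lit 57379) (nat_lit 3) (.e (nat_lit 98341) (nat_lit 20) (.e (nat_lit 221214) (nat_lit 23) .nil)))) (.g (nat_lit 0) (.e (nat_lit 258178) (nat_lit 0) .nil) .nil))))) (.nd (nat_lit 8) (.nd (nat_lit 9) 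
(.lf (nat_lit 534721) (.g (nat_lit 6361) (.e (nat_lit 57574) (nat_lit 55) (.e (nat_lit 778466) (nat_lit 11) (.e (nat_lit 24604) (nat_lit 2) (.e (nat_lit 90178) (nat_lit 15) (.e (nat_lit 188440) (nat_lit 20) (.e (nat_lit 3307) (nat_lit 202) (.e (nat_lit 573477) (nat_lit 12) .nil))))))) (.g (nat_lit 1) (.e (nat_lit 255166) (nat_lit 0) .nil) .nil))) 
(.lf (nat_lit 535233) (.g (nat_lit 1875) (.e (nat_lit 57713) (nat_lit 176) (.e (nat_lit 1348) (nat_lit 102) (.e (nat_lit 286735) (nat_lit 3) (.e (nat_lit 98355) (nat_lit 26) .nil)))) (.g (nat_lit 0) (.e (nat_lit 257350) (nat_lit 0) .nil) .nil)))) (.nd (nat_lit 9) 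
(.lf (nat_lit 534977) (.g (nat_lit 470) (.e (nat_lit 57687) (nat_lit 156) (.e (nat_lit 163902) (nat_lit 12) (.e (nat_lit 426566) (nat_lit 34) .nil))) (.g (nat_lit 0) (.e (nat_lit 256473) (nat_lit 0) .nil) .nil))) 
(.lf (nat_lit 535489) (.g (nat_lit 3009) (.e (nat_lit 57848) (nat_lit 252) (.e (nat_lit 57375) (nat_lit 2) (.e (nat_lit 90159) (nat_lit 11) (.e (nat_lit 24627) (nat_lit 9) (.e (nat_lit 336454) (nat_lit 34) (.e (nat_lit 483366) (nat_lit 18) .nil)))))) (.g (nat_lit 1) (.e (nat_lit 258361) (nat_lit 0) .nil) .nil))))))) (.nd (nat_lit 6) (.nd (nat_lit 7) (.nd (nat_lit 8) (.nd (nat_lit 9) 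
(.lf (nat_lit 534561) (.g (nat_lit 2369) (.e (nat_lit 57480) (nat_lit 28) (.e (nat_lit 557107) (nat_lit 15) (.e (nat_lit 188450) (nat_lit 23) (.e (nat_lit 204855) (nat_lit 26) (.e (nat_lit 336253) (nat_lit 15) (.e (nat_lit 3715) (nat_lit 227) (.e (nat_lit 778316) (nat_lit 3) .nil))))))) (.g (nat_lit 1) (.e (nat_lit 254846) (nat_lit 0) .nil) .nil))) 
(.lf (nat_lit 535073) (.g (nat_lit 3260) (.e (nat_lit 57688) (nat_lit 156) (.e (nat_lit 163907) (nat_lit 12) (.e (nat_lit 426436) (nat_lit 18) (.e (nat_lit 98358) (nat_lit 26) (.e (nat_lit 426323) (nat_lit 13) (.e (nat_lit 483366) (nat_lit 18) .nil)))))) (.g (nat_lit 1) (.e (nat_lit 256681) (nat_lit 0) .nil) .nil)))) (.nd (nat_lit 9) 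
(.lf (nat_lit 534817) (.g (nat_lit 1774) (.e (nat_lit 65280) (nat_lit 65) (.e (nat_lit 213030) (nat_lit 11) (.e (nat_lit 24617) (nat_lit 7) (.e (nat_lit 319534) (nat_lit 16) (.e (nat_lit 286756) (nat_lit 10) .nil))))) (.g (nat_lit 0) (.e (nat_lit 255593) (nat_lit 0) .nil) .nil))) 
(.lf (nat_lit 535329) (.g (nat_lit 2357) (.e (nat_lit 57829) (nat_lit 250) (.e (nat_lit 1183) (nat_lit 87) (.e (nat_lit 57479) (nat_lit 28) (.e (nat_lit 557105) (nat_lit 14) (.e (nat_lit 180251) (nat_lit 10) .nil))))) (.g (nat_lit 0) (.e (nat_lit 258080) (nat_lit 0) .nil) .nil))))) (.nd (nat_lit 8) (.nd (nat_lit 9) 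
(.lf (nat_lit 534689) (.g (nat_lit 2280) (.e (nat_lit 57574) (nat_lit 55) (.e (nat_lit 778465) (nat_lit 11) (.e (nat_lit 24607) (nat_lit 3) (.e (nat_lit 98372) (nat_lit 29) (.e (nat_lit 450587) (nat_lit 10) (.e (nat_lit 573478) (nat_lit 12) .nil)))))) (.g (nat_lit 1) (.e (nat_lit 255094) (nat_lit 0) .nil) .nil))) 
(.lf (nat_lit 535201) (.g (nat_lit 413) (.e (nat_lit 57694) (nat_lit 157) (.e (nat_lit 229415) (nat_lit 15) (.e (nat_lit 450563) (nat_lit 0) .nil))) (.g (nat_lit 0) (.e (nat_lit 257137) (nat_lit 0) .nil) .nil)))) (.nd (nat_lit 9) 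
(.lf (nat_lit 534945) (.g (nat_lit 1351) (.e (nat_lit 57686) (nat_lit 156) (.e (nat_lit 163902) (nat_lit 12) (.e (nat_lit 426568) (nat_lit 34) (.e (nat_lit 393281) (nat_lit 23) .nil)))) (.g (nat_lit 0) (.e (nat_lit 256393) (nat_lit 0) .nil) .nil))) 
(.lf (nat_lit 535457) (.g (nat_lit 3179) (.e (nat_lit 57847) (nat_lit 252) (.e (nat_lit 57411) (nat_lit 12) (.e (nat_lit 336316) (nat_lit 17) (.e (nat_lit 196666) (nat_lit 13) (.e (nat_lit 65617) (nat_lit 10) (.e (nat_lit 344091) (nat_lit 18) (.e (nat_lit 7695) (nat_lit 412) (.e (nat_lit 57367) (nat_lit 1) .nil)))))))) (.g (nat_lit 1) (.e (nat_lit 258314) (nat_lit 0) .nil) .nil)))))) 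
(.nd (nat_lit 7) (.nd (nat_lit 8) (.nd (nat_lit 9) 
(.lf (nat_lit 534625) (.g (nat_lit 4793) (.e (nat_lit 57508) (nat_lit 39) (.e (nat_lit 647175) (nat_lit 0) (.e (nat_lit 2684) (nat_lit 168) (.e (nat_lit 204863) (nat_lit 27) (.e (nat_lit 344133) (nat_lit 26) (.e (nat_lit 557105) (nat_lit 14) (.e (nat_lit 180252) (nat_lit 10) (.e (nat_lit 573474) (nat_lit 12) .nil)))))))) (.g (nat_lit 1) (.e (nat_lit 254961) (nat_lit 0) .nil) .nil))) 
(.lf (nat_lit 535137) (.g (nat_lit 2919) (.e (nat_lit 57691) (nat_lit 156) (.e (nat_lit 163938) (nat_lit 18) (.e (nat_lit 475179) (nat_lit 24) (.e (nat_lit 516146) (nat_lit 9) (.e (nat_lit 426323) (nat_lit 13) (.e (nat_lit 483366) (nat_lit 18) .nil)))))) (.g (nat_lit 1) (.e (nat_lit 256933) (nat_lit 0) .nil) .nil)))) (.nd (nat_lit 9) 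
(.lf (nat_lit 534881) (.g (nat_lit 2144) (.e (nat_lit 57610) (nat_lit 109) (.e (nat_lit 720909) (nat_lit 11) (.e (nat_lit 426187) (nat_lit 9) (.e (nat_lit 426550) (nat_lit 31) (.e (nat_lit 368656) (nat_lit 14) (.e (nat_lit 57816) (nat_lit 246) .nil)))))) (.g (nat_lit 1) (.e (nat_lit 255977) (nat_lit 0) .nil) .nil))) 
(.lf (nat_lit 535393) (.g (nat_lit 1886) (.e (nat_lit 57846) (nat_lit 252) (.e (nat_lit 57372) (nat_lit 2) (.e (nat_lit 90160) (nat_lit 11) (.e (nat_lit 24636) (nat_lit 9) (.e (nat_lit 343808) (nat_lit 34) (.e (nat_lit 483366) (nat_lit 18) .nil)))))) (.g (nat_lit 1) (.e (nat_lit 258224) (nat_lit 0) .nil) .nil))))) (.nd (nat_lit 8) (.nd (nat_lit 9) 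
(.lf (nat_lit 534753) (.g (nat_lit 1929) (.e (nat_lit 57574) (nat_lit 55) (.e (nat_lit 778466) (nat_lit 11) (.e (nat_lit 24617) (nat_lit 7) (.e (nat_lit 319533) (nat_lit 16) (.e (nat_lit 286752) (nat_lit 10) .nil))))) (.g (nat_lit 0) (.e (nat_lit 255203) (nat_lit 0) .nil) .nil))) 
(.lf (nat_lit 535265) (.g (nat_lit 3834) (.e (nat_lit 57750) (nat_lit 201) (.e (nat_lit 3067) (nat_lit 190) (.e (nat_lit 475184) (nat_lit 29) (.e (nat_lit 557109) (nat_lit 15) (.e (nat_lit 188447) (nat_lit 22) (.e (nat_lit 196661) (nat_lit 12) .nil)))))) (.g (nat_lit 1) (.e (nat_lit 257530) (nat_lit 0) .nil) .nil)))) (.nd (nat_lit 9) 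
(.lf (nat_lit 535009) (.g (nat_lit 750) (.e (nat_lit 57688) (nat_lit 156) (.e (nat_lit 163867) (nat_lit 2) (.e (nat_lit 196654) (nat_lit 11) .nil))) (.g (nat_lit 0) (.e (nat_lit 256567) (nat_lit 0) .nil) .nil))) 
(.lf (nat_lit 535521) (.g (nat_lit 2366) (.e (nat_lit 57848) (nat_lit 252) (.e (nat_lit 57409) (nat_lit 12) (.e (nat_lit 336454) (nat_lit 34) (.e (nat_lit 483385) (nat_lit 23) .nil)))) (.g (nat_lit 0) (.e (nat_lit 258414) (nat_lit 0) .nil) .nil)))))))) (.nd (nat_lit 5) (.nd (nat_lit 6) (.nd (nat_lit 7) (.nd (nat_lit 8) (.nd (nat_lit 9) 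
(.lf (nat_lit 534545) (.g (nat_lit 4367) (.e (nat_lit 57480) (nat_lit 28) (.e (nat_lit 557098) (nat_lit 13) (.e (nat_lit 172115) (nat_lit 10) (.e (nat_lit 434231) (nat_lit 23) (.e (nat_lit 532535) (nat_lit 9) (.e (nat_lit 336253) (nat_lit 15) (.e (nat_lit 3716) (nat_lit 227) (.e (nat_lit 778316) (nat_lit 3) .nil)))))))) (.g (nat_lit 1) (.e (nat_lit 254826) (nat_lit 0) .nil) .nil))) 
(.lf (nat_lit 535057) (.g (nat_lit 1848) (.e (nat_lit 57688) (nat_lit 156) (.e (nat_lit 163903) (nat_lit 12) (.e (nat_lit 426566) (nat_lit 34) (.e (nat_lit 393283) (nat_lit 24) .nil)))) (.g (nat_lit 0) (.e (nat_lit 256653) (nat_lit 0) .nil) .nil)))) (.nd (nat_lit 9) 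
(.lf (nat_lit 534801) (.g (nat_lit 2875) (.e (nat_lit 57540) (nat_lit 46) (.e (nat_lit 704738) (nat_lit 11) (.e (nat_lit 16425) (nat_lit 7) (.e (nat_lit 409648) (nat_lit 18) (.e (nat_lit 303138) (nat_lit 10) .nil))))) (.g (nat_lit 0) (.e (nat_lit 255399) (nat_lit 0) .nil) .nil))) 
(.lf (nat_lit 535313) (.g (nat_lit 2377) (.e (nat_lit 57810) (nat_lit 246) (.e (nat_lit 57879) (nat_lit 270) (.e (nat_lit 496) (nat_lit 39) (.e (nat_lit 483403) (nat_lit 26) (.e (nat_lit 385057) (nat_lit 22) (.e (nat_lit 499780) (nat_lit 1) .nil)))))) (.g (nat_lit 1) (.e (nat_lit 258013) (nat_lit 0) .nil) .nil))))) (.nd (nat_lit 8) (.nd (nat_lit 9) 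
(.lf (nat_lit 534673) (.g (nat_lit 3774) (.e (nat_lit 57574) (nat_lit 55) (.e (nat_lit 778465) (nat_lit 11) (.e (nat_lit 24604) (nat_lit 2) (.e (nat_lit 90170) (nat_lit 13) (.e (nat_lit 172110) (nat_lit 10) .nil))))) (.g (nat_lit 0) (.e (nat_lit 255078) (nat_lit 0) .nil) .nil))) 
(.lf (nat_lit 535185) (.g (nat_lit 2362) (.e (nat_lit 57692) (nat_lit 156) (.e (nat_lit 163907) (nat_lit 12) (.e (nat_lit 426428) (nat_lit 17) (.e (nat_lit 90178) (nat_lit 15) (.e (nat_lit 188421) (nat_lit 11) (.e (nat_lit 335993) (nat_lit 1) .nil)))))) (.g (nat_lit 1) (.e (nat_lit 257062) (nat_lit 0) .nil) .nil)))) (.nd (nat_lit 9) 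
(.lf (nat_lit 534929) (.g (nat_lit 2645) (.e (nat_lit 57686) (nat_lit 156) (.e (nat_lit 163875) (nat_lit 3) (.e (nat_lit 204830) (nat_lit 18) (.e (nat_lit 57854) (nat_lit 252) (.e (nat_lit 57431) (nat_lit 16) .nil))))) (.g (nat_lit 0) (.e (nat_lit 256374) (nat_lit 0) .nil) .nil))) 
(.lf (nat_lit 535441) (.g (nat_lit 3817) (.e (nat_lit 57847) (nat_lit 252) (.e (nat_lit 57407) (nat_lit 12) (.e (nat_lit 336316) (nat_lit 17) (.e (nat_lit 196666) (nat_lit 13) (.e (nat_lit 65610) (nat_lit 10) (.e (nat_lit 344090) (nat_lit 18) (.e (nat_lit 7695) (nat_lit 412) (.e (nat_lit 57366) (nat_lit 1) .nil)))))))) (.g (nat_lit 1) (.e (nat_lit 258295) (nat_lit 0) .nil) .nil)))))) 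
(.nd (nat_lit 7) (.nd (nat_lit 8) (.nd (nat_lit 9) 
(.lf (nat_lit 534609) (.g (nat_lit 4037) (.e (nat_lit 57503) (nat_lit 38) (.e (nat_lit 638995) (nat_lit 7) (.e (nat_lit 163979) (nat_lit 30) (.e (nat_lit 573489) (nat_lit 14) (.e (nat_lit 73754) (nat_lit 8) (.e (nat_lit 557103) (nat_lit 14) (.e (nat_lit 180250) (nat_lit 10) (.e (nat_lit 573475) (nat_lit 12) .nil)))))))) (.g (nat_lit 1) (.e (nat_lit 254917) (nat_lit 0) .nil) .nil))) 
(.lf (nat_lit 535121) (.g (nat_lit 900) (.e (nat_lit 57691) (nat_lit 156) (.e (nat_lit 163905) (nat_lit 12) (.e (nat_lit 426568) (nat_lit 34) (.e (nat_lit 393281) (nat_lit 23) .nil)))) (.g (nat_lit 0) (.e (nat_lit 256871) (nat_lit 0) .nil) .nil)))) (.nd (nat_lit 9) 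
(.lf (nat_lit 534865) (.g (nat_lit 3654) (.e (nat_lit 57615) (nat_lit 116) (.e (nat_lit 778466) (nat_lit 11) (.e (nat_lit 24617) (nat_lit 7) (.e (nat_lit 319534) (nat_lit 16) (.e (nat_lit 286752) (nat_lit 10) .nil))))) (.g (nat_lit 0) (.e (nat_lit 255902) (nat_lit 0) .nil) .nil))) 
(.lf (nat_lit 535377) (.g (nat_lit 1341) (.e (nat_lit 57845) (nat_lit 252) (.e (nat_lit 57375) (nat_lit 2) (.e (nat_lit 90158) (nat_lit 11) (.e (nat_lit 24628) (nat_lit 9) .nil)))) (.g (nat_lit 0) (.e (nat_lit 258206) (nat_lit 0) .nil) .nil))))) (.nd (nat_lit 8) (.nd (nat_lit 9) 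
(.lf (nat_lit 534737) (.g (nat_lit 4128) (.e (nat_lit 57574) (nat_lit 55) (.e (nat_lit 778466) (nat_lit 11) (.e (nat_lit 24608) (nat_lit 3) (.e (nat_lit 98356) (nat_lit 26) (.e (nat_lit 426274) (nat_lit 10) (.e (nat_lit 434247) (nat_lit 28) (.e (nat_lit 573477) (nat_lit 12) .nil))))))) (.g (nat_lit 1) (.e (nat_lit 255185) (nat_lit 0) .nil) .nil))) 
(.lf (nat_lit 535249) (.g (nat_lit 1748) (.e (nat_lit 65280) (nat_lit 176) (.e (nat_lit 1349) (nat_lit 102) (.e (nat_lit 286735) (nat_lit 3) (.e (nat_lit 98360) (nat_lit 26) .nil)))) (.g (nat_lit 0) (.e (nat_lit 257404) (nat_lit 0) .nil) .nil)))) (.nd (nat_lit 9) 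
(.lf (nat_lit 534993) (.g (nat_lit 716) (.e (nat_lit 57687) (nat_lit 156) (.e (nat_lit 163905) (nat_lit 12) (.e (nat_lit 426438) (nat_lit 18) .nil))) (.g (nat_lit 0) (.e (nat_lit 256491) (nat_lit 0) .nil) .nil))) 
(.lf (nat_lit 535505) (.g (nat_lit 3486) (.e (nat_lit 57848) (nat_lit 252) (.e (nat_lit 57407) (nat_lit 12) (.e (nat_lit 336367) (nat_lit 27) (.e (nat_lit 426540) (nat_lit 29) (.e (nat_lit 352262) (nat_lit 0) (.e (nat_lit 3253) (nat_lit 197) (.e (nat_lit 532503) (nat_lit 1) .nil))))))) (.g (nat_lit 1) (.e (nat_lit 258398) (nat_lit 0) .nil) .nil))))))) 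
(.nd (nat_lit 6) (.nd (nat_lit 7) (.nd (nat_lit 8) (.nd (nat_lit 9) 
(.lf (nat_lit 534577) (.g (nat_lit 3487) (.e (nat_lit 57480) (nat_lit 28) (.e (nat_lit 557109) (nat_lit 15) (.e (nat_lit 188449) (nat_lit 22) (.e (nat_lit 196666) (nat_lit 13) (.e (nat_lit 65639) (nat_lit 15) (.e (nat_lit 3715) (nat_lit 227) (.e (nat_lit 778316) (nat_lit 3) .nil))))))) (.g (nat_lit 1) (.e (nat_lit 254862) (nat_lit 0) .nil) .nil))) 
(.lf (nat_lit 535089) (.g (nat_lit 1478) (.e (nat_lit 57688) (nat_lit 156) (.e (nat_lit 163935) (nat_lit 18) (.e (nat_lit 475177) (nat_lit 24) (.e (nat_lit 516150) (nat_lit 9) (.e (nat_lit 426323) (nat_lit 13) .nil))))) (.g (nat_lit 0) (.e (nat_lit 256766) (nat_lit 0) .nil) .nil)))) (.nd (nat_lit 9) 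
(.lf (nat_lit 534833) (.g (nat_lit 2855) (.e (nat_lit 57592) (nat_lit 73) (.e (nat_lit 426316) (nat_lit 12) (.e (nat_lit 475185) (nat_lit 29) (.e (nat_lit 557101) (nat_lit 13) .nil)))) (.g (nat_lit 0) (.e (nat_lit 255746) (nat_lit 0) .nil) .nil))) 
(.lf (nat_lit 535345) (.g (nat_lit 4655) (.e (nat_lit 57857) (nat_lit 254) (.e (nat_lit 163908) (nat_lit 12) (.e (nat_lit 426171) (nat_lit 7) (.e (nat_lit 409649) (nat_lit 18) (.e (nat_lit 303146) (nat_lit 14) (.e (nat_lit 491546) (nat_lit 9) (.e (nat_lit 335997) (nat_lit 1) .nil))))))) (.g (nat_lit 1) (.e (nat_lit 258129) (nat_lit 0) .nil) .nil))))) (.nd (nat_lit 8) (.nd (nat_lit 9) 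
(.lf (nat_lit 534705) (.g (nat_lit 3389) (.e (nat_lit 57574) (nat_lit 55) (.e (nat_lit 778466) (nat_lit 11) (.e (nat_lit 24604) (nat_lit 2) (.e (nat_lit 90169) (nat_lit 13) (.e (nat_lit 172113) (nat_lit 10) (.e (nat_lit 434247) (nat_lit 28) (.e (nat_lit 573477) (nat_lit 12) .nil))))))) (.g (nat_lit 1) (.e (nat_lit 255149) (nat_lit 0) .nil) .nil))) 
(.lf (nat_lit 535217) (.g (nat_lit 2602) (.e (nat_lit 65280) (nat_lit 168) (.e (nat_lit 163874) (nat_lit 3) (.e (nat_lit 204863) (nat_lit 27) (.e (nat_lit 344133) (nat_lit 26) (.e (nat_lit 557103) (nat_lit 14) .nil))))) (.g (nat_lit 0) (.e (nat_lit 257283) (nat_lit 0) .nil) .nil)))) (.nd (nat_lit 9) 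
(.lf (nat_lit 534961) (.g (nat_lit 722) (.e (nat_lit 57686) (nat_lit 156) (.e (nat_lit 163905) (nat_lit 12) (.e (nat_lit 426568) (nat_lit 34) .nil))) (.g (nat_lit 0) (.e (nat_lit 256410) (nat_lit 0) .nil) .nil))) 
(.lf (nat_lit 535473) (.g (nat_lit 3297) (.e (nat_lit 57848) (nat_lit 252) (.e (nat_lit 57372) (nat_lit 2) (.e (nat_lit 90159) (nat_lit 11) (.e (nat_lit 24626) (nat_lit 9) (.e (nat_lit 336454) (nat_lit 34) (.e (nat_lit 483365) (nat_lit 18) .nil)))))) (.g (nat_lit 1) (.e (nat_lit 258336) (nat_lit 0) .nil) .nil)))))) (.nd (nat_lit 7) (.nd (nat_lit 8) (.nd (nat_lit 9) 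
(.lf (nat_lit 534641) (.g (nat_lit 1707) (.e (nat_lit 57572) (nat_lit 54) (.e (nat_lit 770071) (nat_lit 8) (.e (nat_lit 65583) (nat_lit 7) (.e (nat_lit 319530) (nat_lit 16) (.e (nat_lit 286748) (nat_lit 9) (.e (nat_lit 336295) (nat_lit 15) (.e (nat_lit 2443) (nat_lit 157) (.e (nat_lit 7660) (nat_lit 410) (.e (nat_lit 1172) (nat_lit 87) .nil))))))))) (.g (nat_lit 1) (.e (nat_lit 255035) (nat_lit 0) .nil) .nil))) 
(.lf (nat_lit 535153) (.g (nat_lit 2028) (.e (nat_lit 57692) (nat_lit 156) (.e (nat_lit 163874) (nat_lit 3) (.e (nat_lit 204837) (nat_lit 20) (.e (nat_lit 114718) (nat_lit 23) (.e (nat_lit 98363) (nat_lit 26) .nil))))) (.g (nat_lit 0) (.e (nat_lit 256977) (nat_lit 0) .nil) .nil)))) (.nd (nat_lit 9) 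
(.lf (nat_lit 534897) (.g (nat_lit 1314) (.e (nat_lit 57610) (nat_lit 109) (.e (nat_lit 720909) (nat_lit 11) (.e (nat_lit 426197) (nat_lit 9) (.e (nat_lit 426550) (nat_lit 31) (.e (nat_lit 368656) (nat_lit 14) (.e (nat_lit 57809) (nat_lit 246) .nil)))))) (.g (nat_lit 1) (.e (nat_lit 255993) (nat_lit 0) .nil) .nil))) 
(.lf (nat_lit 535409) (.g (nat_lit 1922) (.e (nat_lit 57846) (nat_lit 252) (.e (nat_lit 57409) (nat_lit 12) (.e (nat_lit 336454) (nat_lit 34) (.e (nat_lit 483385) (nat_lit 23) .nil)))) (.g (nat_lit 0) (.e (nat_lit 258252) (nat_lit 0) .nil) .nil))))) (.nd (nat_lit 8) (.nd (nat_lit 9) 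
(.lf (nat_lit 534769) (.g (nat_lit 2949) (.e (nat_lit 57575) (nat_lit 55) (.e (nat_lit 778465) (nat_lit 11) (.e (nat_lit 24617) (nat_lit 7) (.e (nat_lit 319533) (nat_lit 16) (.e (nat_lit 286754) (nat_lit 10) (.e (nat_lit 344161) (nat_lit 37) (.e (nat_lit 647201) (nat_lit 12) .nil))))))) (.g (nat_lit 1) (.e (nat_lit 255267) (nat_lit 0) .nil) .nil))) 
(.lf (nat_lit 535281) (.g (nat_lit 449) (.e (nat_lit 65280) (nat_lit 206) (.e (nat_lit 180243) (nat_lit 5) (.e (nat_lit 532481) (nat_lit 0) .nil))) (.g (nat_lit 0) (.e (nat_lit 257863) (nat_lit 0) .nil) .nil)))) (.nd (nat_lit 9) 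
(.lf (nat_lit 535025) (.g (nat_lit 812) (.e (nat_lit 57688) (nat_lit 156) (.e (nat_lit 163902) (nat_lit 12) (.e (nat_lit 426434) (nat_lit 18) .nil))) (.g (nat_lit 0) (.e (nat_lit 256608) (nat_lit 0) .nil) .nil))) 
(.lf (nat_lit 535537) (.g (nat_lit 2523) (.e (nat_lit 57849) (nat_lit 252) (.e (nat_lit 57372) (nat_lit 2) (.e (nat_lit 90158) (nat_lit 11) (.e (nat_lit 24628) (nat_lit 9) (.e (nat_lit 336372) (nat_lit 27) (.e (nat_lit 426522) (nat_lit 27) (.e (nat_lit 335986) (nat_lit 1) .nil))))))) (.g (nat_lit 1) (.e (nat_lit 258430) (nat_lit 0) .nil) .nil))))))))) 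
(.nd (nat_lit 4) (.nd (nat_lit 5) (.nd (nat_lit 6) (.nd (nat_lit 7) (.nd (nat_lit 8) 
(.nd (nat_lit 9) 
(.lf (nat_lit 534537) (.g (nat_lit 2359) (.e (nat_lit 57480) (nat_lit 28) (.e (nat_lit 557098) (nat_lit 13) (.e (nat_lit 172097) (nat_lit 9) (.e (nat_lit 426125) (nat_lit 2) (.e (nat_lit 196666) (nat_lit 13) (.e (nat_lit 65639) (nat_lit 15) (.e (nat_lit 3715) (nat_lit 227) (.e (nat_lit 786176) (nat_lit 3) .nil)))))))) (.g (nat_lit 1) (.e (nat_lit 254818) (nat_lit 0) .nil) .nil))) 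
(.lf (nat_lit 535049) (.g (nat_lit 1148) (.e (nat_lit 57688) (nat_lit 156) (.e (nat_lit 163903) (nat_lit 12) (.e (nat_lit 426436) (nat_lit 18) (.e (nat_lit 98382) (nat_lit 31) .nil)))) (.g (nat_lit 0) (.e (nat_lit 256641) (nat_lit 0) .nil) .nil)))) (.nd (nat_lit 9) 
(.lf (nat_lit 534793) (.g (nat_lit 557) (.e (nat_lit 57528) (nat_lit 46) (.e (nat_lit 704590) (nat_lit 3) (.e (nat_lit 163962) (nat_lit 25) .nil))) (.g (nat_lit 0) (.e (nat_lit 255350) (nat_lit 0) .nil) .nil))) 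
(.lf (nat_lit 535305) (.g (nat_lit 1239) (.e (nat_lit 57809) (nat_lit 246) (.e (nat_lit 57879) (nat_lit 270) (.e (nat_lit 496) (nat_lit 39) (.e (nat_lit 483391) (nat_lit 23) (.e (nat_lit 336319) (nat_lit 17) (.e (nat_lit 196698) (nat_lit 19) .nil)))))) (.g (nat_lit 1) (.e (nat_lit 258002) (nat_lit 0) .nil) .nil))))) (.nd (nat_lit 8) (.nd (nat_lit 9) 
(.lf (nat_lit 534665) (.g (nat_lit 703) (.e (nat_lit 57574) (nat_lit 55) (.e (nat_lit 778465) (nat_lit 11) (.e (nat_lit 24578) (nat_lit 0) .nil))) (.g (nat_lit 0) (.e (nat_lit 255069) (nat_lit 0) .nil) .nil))) 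
(.lf (nat_lit 535177) (.g (nat_lit 992) (.e (nat_lit 57692) (nat_lit 156) (.e (nat_lit 163905) (nat_lit 12) (.e (nat_lit 426568) (nat_lit 34) (.e (nat_lit 393282) (nat_lit 24) .nil)))) (.g (nat_lit 0) (.e (nat_lit 257029) (nat_lit 0) .nil) .nil)))) (.nd (nat_lit 9) 
(.lf (nat_lit 534921) (.g (nat_lit 1373) (.e (nat_lit 57685) (nat_lit 156) (.e (nat_lit 163902) (nat_lit 12) (.e (nat_lit 426438) (nat_lit 18) (.e (nat_lit 98381) (nat_lit 31) .nil)))) (.g (nat_lit 0) (.e (nat_lit 256345) (nat_lit 0) .nil) .nil))) 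
(.lf (nat_lit 535433) (.g (nat_lit 2661) (.e (nat_lit 57847) (nat_lit 252) (.e (nat_lit 57389) (nat_lit 5) (.e (nat_lit 114697) (nat_lit 11) (.e (nat_lit 426188) (nat_lit 9) (.e (nat_lit 426555) (nat_lit 32) (.e (nat_lit 376857) (nat_lit 21) .nil)))))) (.g (nat_lit 1) (.e (nat_lit 258285) (nat_lit 0) .nil) .nil)))))) (.nd (nat_lit 7) (.nd (nat_lit 8) (.nd (nat_lit 9) 
(.lf (nat_lit 534601) (.g (nat_lit 2269) (.e (nat_lit 57502) (nat_lit 38) (.e (nat_lit 638996) (nat_lit 7) (.e (nat_lit 163979) (nat_lit 30) (.e (nat_lit 573489) (nat_lit 14) (.e (nat_lit 73755) (nat_lit 8) .nil))))) (.g (nat_lit 0) (.e (nat_lit 254907) (nat_lit 0) .nil) .nil))) 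
(.lf (nat_lit 535113) (.g (nat_lit 1517) (.e (nat_lit 57691) (nat_lit 156) (.e (nat_lit 163905) (nat_lit 12) (.e (nat_lit 426428) (nat_lit 17) (.e (nat_lit 90170) (nat_lit 13) (.e (nat_lit 172121) (nat_lit 13) .nil))))) (.g (nat_lit 0) (.e (nat_lit 256855) (nat_lit 0) .nil) .nil)))) (.nd (nat_lit 9) 
(.lf (nat_lit 534857) (.g (nat_lit 3239) (.e (nat_lit 57611) (nat_lit 116) (.e (nat_lit 778466) (nat_lit 11) (.e (nat_lit 24617) (nat_lit 7) (.e (nat_lit 319533) (nat_lit 16) (.e (nat_lit 286753) (nat_lit 10) .nil))))) (.g (nat_lit 0) (.e (nat_lit 255888) (nat_lit 0) .nil) .nil))) 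
(.lf (nat_lit 535369) (.g (nat_lit 451) (.e (nat_lit 57844) (nat_lit 252) (.e (nat_lit 57406) (nat_lit 12) (.e (nat_lit 336454) (nat_lit 34) .nil))) (.g (nat_lit 0) (.e (nat_lit 258198) (nat_lit 0) .nil) .nil))))) (.nd (nat_lit 8) (.nd (nat_lit 9) 
(.lf (nat_lit 534729) (.g (nat_lit 2286) (.e (nat_lit 57574) (nat_lit 55) (.e (nat_lit 778466) (nat_lit 11) (.e (nat_lit 24607) (nat_lit 3) (.e (nat_lit 98372) (nat_lit 29) (.e (nat_lit 450587) (nat_lit 10) (.e (nat_lit 573478) (nat_lit 12) .nil)))))) (.g (nat_lit 1) (.e (nat_lit 255175) (nat_lit 0) .nil) .nil))) 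
(.lf (nat_lit 535241) (.g (nat_lit 1843) (.e (nat_lit 57714) (nat_lit 176) (.e (nat_lit 1348) (nat_lit 102) (.e (nat_lit 286735) (nat_lit 3) (.e (nat_lit 98379) (nat_lit 31) .nil)))) (.g (nat_lit 0) (.e (nat_lit 257365) (nat_lit 0) .nil) .nil)))) (.nd (nat_lit 9) 
(.lf (nat_lit 534985) (.g (nat_lit 1527) (.e (nat_lit 57687) (nat_lit 156) (.e (nat_lit 163903) (nat_lit 12) (.e (nat_lit 426436) (nat_lit 18) (.e (nat_lit 98379) (nat_lit 31) .nil)))) (.g (nat_lit 0) (.e (nat_lit 256483) (nat_lit 0) .nil) .nil))) 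
(.lf (nat_lit 535497) (.g (nat_lit 1148) (.e (nat_lit 57848) (nat_lit 252) (.e (nat_lit 57388) (nat_lit 5) (.e (nat_lit 114698) (nat_lit 11) (.e (nat_lit 426199) (nat_lit 9) .nil)))) (.g (nat_lit 0) (.e (nat_lit 258378) (nat_lit 0) .nil) .nil))))))) (.nd (nat_lit 6) (.nd (nat_lit 7) (.nd (nat_lit 8) (.nd (nat_lit 9) 
(.lf (nat_lit 534569) (.g (nat_lit 3473) (.e (nat_lit 57480) (nat_lit 28) (.e (nat_lit 557109) (nat_lit 15) (.e (nat_lit 188447) (nat_lit 22) (.e (nat_lit 196666) (nat_lit 13) (.e (nat_lit 65639) (nat_lit 15) (.e (nat_lit 3714) (nat_lit 227) (.e (nat_lit 778316) (nat_lit 3) .nil))))))) (.g (nat_lit 1) (.e (nat_lit 254854) (nat_lit 0) .nil) .nil))) 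
(.lf (nat_lit 535081) (.g (nat_lit 497) (.e (nat_lit 57688) (nat_lit 156) (.e (nat_lit 163907) (nat_lit 12) (.e (nat_lit 426568) (nat_lit 34) .nil))) (.g (nat_lit 0) (.e (nat_lit 256694) (nat_lit 0) .nil) .nil)))) (.nd (nat_lit 9) 
(.lf (nat_lit 534825) (.g (nat_lit 3248) (.e (nat_lit 57588) (nat_lit 73) (.e (nat_lit 426316) (nat_lit 12) (.e (nat_lit 475185) (nat_lit 29) (.e (nat_lit 557100) (nat_lit 13) .nil)))) (.g (nat_lit 0) (.e (nat_lit 255705) (nat_lit 0) .nil) .nil))) 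
(.lf (nat_lit 535337) (.g (nat_lit 535) (.e (nat_lit 57830) (nat_lit 250) (.e (nat_lit 1201) (nat_lit 88) (.e (nat_lit 65539) (nat_lit 0) .nil))) (.g (nat_lit 0) (.e (nat_lit 258094) (nat_lit 0) .nil) .nil))))) (.nd (nat_lit 8) (.nd (nat_lit 9) 
(.lf (nat_lit 534697) (.g (nat_lit 3539) (.e (nat_lit 57574) (nat_lit 55) (.e (nat_lit 778466) (nat_lit 11) (.e (nat_lit 24603) (nat_lit 2) (.e (nat_lit 90178) (nat_lit 15) (.e (nat_lit 188440) (nat_lit 20) (.e (nat_lit 3307) (nat_lit 202) (.e (nat_lit 573478) (nat_lit 12) .nil))))))) (.g (nat_lit 1) (.e (nat_lit 255108) (nat_lit 0) .nil) .nil))) 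
(.lf (nat_lit 535209) (.g (nat_lit 993) (.e (nat_lit 65280) (nat_lit 168) (.e (nat_lit 163869) (nat_lit 2) (.e (nat_lit 196668) (nat_lit 14) (.e (nat_lit 73753) (nat_lit 8) .nil)))) (.g (nat_lit 0) (.e (nat_lit 257268) (nat_lit 0) .nil) .nil)))) (.nd (nat_lit 9) 
(.lf (nat_lit 534953) (.g (nat_lit 1114) (.e (nat_lit 57686) (nat_lit 156) (.e (nat_lit 163903) (nat_lit 12) (.e (nat_lit 426438) (nat_lit 18) (.e (nat_lit 98379) (nat_lit 31) .nil)))) (.g (nat_lit 0) (.e (nat_lit 256402) (nat_lit 0) .nil) .nil))) 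
(.lf (nat_lit 535465) (.g (nat_lit 3631) (.e (nat_lit 57847) (nat_lit 252) (.e (nat_lit 57445) (nat_lit 19) (.e (nat_lit 393229) (nat_lit 9) (.e (nat_lit 335995) (nat_lit 1) .nil)))) (.g (nat_lit 0) (.e (nat_lit 258328) (nat_lit 0) .nil) .nil)))))) (.nd (nat_lit 7) (.nd (nat_lit 8) (.nd (nat_lit 9) 
(.lf (nat_lit 534633) (.g (nat_lit 1681) (.e (nat_lit 57570) (nat_lit 54) (.e (nat_lit 770073) (nat_lit 9) (.e (nat_lit 73746) (nat_lit 3) (.e (nat_lit 516165) (nat_lit 12) (.e (nat_lit 450587) (nat_lit 10) .nil))))) (.g (nat_lit 0) (.e (nat_lit 255025) (nat_lit 0) .nil) .nil))) 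
(.lf (nat_lit 535145) (.g (nat_lit 2366) (.e (nat_lit 57692) (nat_lit 156) (.e (nat_lit 163869) (nat_lit 2) (.e (nat_lit 196654) (nat_lit 11) (.e (nat_lit 16459) (nat_lit 12) .nil)))) (.g (nat_lit 0) (.e (nat_lit 256965) (nat_lit 0) .nil) .nil)))) (.nd (nat_lit 9) 
(.lf (nat_lit 534889) (.g (nat_lit 1431) (.e (nat_lit 57610) (nat_lit 109) (.e (nat_lit 720909) (nat_lit 11) (.e (nat_lit 426196) (nat_lit 9) (.e (nat_lit 426550) (nat_lit 31) (.e (nat_lit 368656) (nat_lit 14) (.e (nat_lit 57814) (nat_lit 246) .nil)))))) (.g (nat_lit 1) (.e (nat_lit 255985) (nat_lit 0) .nil) .nil))) 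
(.lf (nat_lit 535401) (.g (nat_lit 2339) (.e (nat_lit 57846) (nat_lit 252) (.e (nat_lit 57406) (nat_lit 12) (.e (nat_lit 336454) (nat_lit 34) (.e (nat_lit 483407) (nat_lit 26) .nil)))) (.g (nat_lit 0) (.e (nat_lit 258243) (nat_lit 0) .nil) .nil))))) (.nd (nat_lit 8) (.nd (nat_lit 9) 
(.lf (nat_lit 534761) (.g (nat_lit 5538) (.e (nat_lit 57575) (nat_lit 55) (.e (nat_lit 778465) (nat_lit 11) (.e (nat_lit 24603) (nat_lit 2) (.e (nat_lit 90178) (nat_lit 15) (.e (nat_lit 188440) (nat_lit 20) (.e (nat_lit 3307) (nat_lit 202) (.e (nat_lit 573477) (nat_lit 12) .nil))))))) (.g (nat_lit 1) (.e (nat_lit 255258) (nat_lit 0) .nil) .nil))) 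
(.lf (nat_lit 535273) (.g (nat_lit 1618) (.e (nat_lit 57750) (nat_lit 201) (.e (nat_lit 3090) (nat_lit 191) (.e (nat_lit 483364) (nat_lit 18) (.e (nat_lit 57692) (nat_lit 156) (.e (nat_lit 163907) (nat_lit 12) .nil))))) (.g (nat_lit 0) (.e (nat_lit 257658) (nat_lit 0) .nil) .nil)))) (.nd (nat_lit 9) 
(.lf (nat_lit 535017) (.g (nat_lit 2290) (.e (nat_lit 57688) (nat_lit 156) (.e (nat_lit 163874) (nat_lit 3) (.e (nat_lit 204837) (nat_lit 20) (.e (nat_lit 114718) (nat_lit 23) (.e (nat_lit 98363) (nat_lit 26) .nil))))) (.g (nat_lit 0) (.e (nat_lit 256598) (nat_lit 0) .nil) .nil))) 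
(.lf (nat_lit 535529) (.g (nat_lit 2189) (.e (nat_lit 57848) (nat_lit 252) (.e (nat_lit 57445) (nat_lit 19) (.e (nat_lit 393229) (nat_lit 9) (.e (nat_lit 336086) (nat_lit 9) (.e (nat_lit 336259) (nat_lit 15) .nil))))) (.g (nat_lit 0) (.e (nat_lit 258422) (nat_lit 0) .nil) .nil)))))))) (.nd (nat_lit 5) (.nd (nat_lit 6) (.nd (nat_lit 7) (.nd (nat_lit 8) (.nd (nat_lit 9) 
(.lf (nat_lit 534553) (.g (nat_lit 3169) (.e (nat_lit 57480) (nat_lit 28) (.e (nat_lit 557107) (nat_lit 15) (.e (nat_lit 188447) (nat_lit 22) (.e (nat_lit 196666) (nat_lit 13) (.e (nat_lit 65638) (nat_lit 15) (.e (nat_lit 3716) (nat_lit 227) (.e (nat_lit 778316) (nat_lit 3) .nil))))))) (.g (nat_lit 1) (.e (nat_lit 254838) (nat_lit 0) .nil) .nil))) 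
(.lf (nat_lit 535065) (.g (nat_lit 593) (.e (nat_lit 57688) (nat_lit 156) (.e (nat_lit 163907) (nat_lit 12) (.e (nat_lit 425986) (nat_lit 0) .nil))) (.g (nat_lit 0) (.e (nat_lit 256669) (nat_lit 0) .nil) .nil)))) (.nd (nat_lit 9) 
(.lf (nat_lit 534809) (.g (nat_lit 382) (.e (nat_lit 65280) (nat_lit 62) (.e (nat_lit 164399) (nat_lit 256) (.e (nat_lit 57435) (nat_lit 17) .nil))) (.g (nat_lit 0) (.e (nat_lit 255511) (nat_lit 0) .nil) .nil))) 
(.lf (nat_lit 535321) (.g (nat_lit 2044) (.e (nat_lit 57811) (nat_lit 246) (.e (nat_lit 57879) (nat_lit 270) (.e (nat_lit 496) (nat_lit 39) (.e (nat_lit 483383) (nat_lit 23) (.e (nat_lit 336316) (nat_lit 17) (.e (nat_lit 204544) (nat_lit 19) .nil)))))) (.g (nat_lit 1) (.e (nat_lit 258024) (nat_lit 0) .nil) .nil))))) (.nd (nat_lit 8) (.nd (nat_lit 9) 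
(.lf (nat_lit 534681) (.g (nat_lit 6188) (.e (nat_lit 57574) (nat_lit 55) (.e (nat_lit 778465) (nat_lit 11) (.e (nat_lit 24604) (nat_lit 2) (.e (nat_lit 90178) (nat_lit 15) (.e (nat_lit 188440) (nat_lit 20) (.e (nat_lit 3307) (nat_lit 202) (.e (nat_lit 573477) (nat_lit 12) .nil))))))) (.g (nat_lit 1) (.e (nat_lit 255086) (nat_lit 0) .nil) .nil))) 
(.lf (nat_lit 535193) (.g (nat_lit 890) (.e (nat_lit 57692) (nat_lit 156) (.e (nat_lit 163907) (nat_lit 12) (.e (nat_lit 426480) (nat_lit 27) .nil))) (.g (nat_lit 0) (.e (nat_lit 257072) (nat_lit 0) .nil) .nil)))) (.nd (nat_lit 9) 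
(.lf (nat_lit 534937) (.g (nat_lit 1416) (.e (nat_lit 57686) (nat_lit 156) (.e (nat_lit 163902) (nat_lit 12) (.e (nat_lit 426436) (nat_lit 18) (.e (nat_lit 98358) (nat_lit 26) .nil)))) (.g (nat_lit 0) (.e (nat_lit 256385) (nat_lit 0) .nil) .nil))) 
(.lf (nat_lit 535449) (.g (nat_lit 2654) (.e (nat_lit 57847) (nat_lit 252) (.e (nat_lit 57407) (nat_lit 12) (.e (nat_lit 336316) (nat_lit 17) (.e (nat_lit 196666) (nat_lit 13) (.e (nat_lit 65617) (nat_lit 10) (.e (nat_lit 344095) (nat_lit 18) (.e (nat_lit 7695) (nat_lit 412) (.e (nat_lit 57367) (nat_lit 1) .nil)))))))) (.g (nat_lit 1) (.e (nat_lit 258303) (nat_lit 0) .nil) .nil)))))) 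
(.nd (nat_lit 7) (.nd (nat_lit 8) (.nd (nat_lit 9) 
(.lf (nat_lit 534617) (.g (nat_lit 2607) (.e (nat_lit 57504) (nat_lit 38) (.e (nat_lit 638995) (nat_lit 7) (.e (nat_lit 163978) (nat_lit 30) (.e (nat_lit 573489) (nat_lit 14) (.e (nat_lit 73755) (nat_lit 8) .nil))))) (.g (nat_lit 0) (.e (nat_lit 254936) (nat_lit 0) .nil) .nil))) 
(.lf (nat_lit 535129) (.g (nat_lit 1607) (.e (nat_lit 57691) (nat_lit 156) (.e (nat_lit 163907) (nat_lit 12) (.e (nat_lit 426428) (nat_lit 17) (.e (nat_lit 90170) (nat_lit 13) (.e (nat_lit 172121) (nat_lit 13) .nil))))) (.g (nat_lit 0) (.e (nat_lit 256898) (nat_lit 0) .nil) .nil)))) (.nd (nat_lit 9) 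
(.lf (nat_lit 534873) (.g (nat_lit 998) (.e (nat_lit 57610) (nat_lit 109) (.e (nat_lit 720907) (nat_lit 11) (.e (nat_lit 426230) (nat_lit 9) (.e (nat_lit 426549) (nat_lit 31) (.e (nat_lit 368656) (nat_lit 14) (.e (nat_lit 57810) (nat_lit 246) .nil)))))) (.g (nat_lit 1) (.e (nat_lit 255932) (nat_lit 0) .nil) .nil))) 
(.lf (nat_lit 535385) (.g (nat_lit 2372) (.e (nat_lit 57846) (nat_lit 252) (.e (nat_lit 57371) (nat_lit 2) (.e (nat_lit 90160) (nat_lit 11) (.e (nat_lit 24580) (nat_lit 0) .nil)))) (.g (nat_lit 0) (.e (nat_lit 258216) (nat_lit 0) .nil) .nil))))) (.nd (nat_lit 8) (.nd (nat_lit 9) 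
(.lf (nat_lit 534745) (.g (nat_lit 2883) (.e (nat_lit 57574) (nat_lit 55) (.e (nat_lit 778466) (nat_lit 11) (.e (nat_lit 24608) (nat_lit 3) (.e (nat_lit 98370) (nat_lit 28) .nil)))) (.g (nat_lit 0) (.e (nat_lit 255195) (nat_lit 0) .nil) .nil))) 
(.lf (nat_lit 535257) (.g (nat_lit 833) (.e (nat_lit 57750) (nat_lit 201) (.e (nat_lit 2856) (nat_lit 184) (.e (nat_lit 426533) (nat_lit 28) .nil))) (.g (nat_lit 0) (.e (nat_lit 257517) (nat_lit 0) .nil) .nil)))) (.nd (nat_lit 9) 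
(.lf (nat_lit 535001) (.g (nat_lit 1101) (.e (nat_lit 57687) (nat_lit 156) (.e (nat_lit 163907) (nat_lit 12) (.e (nat_lit 426568) (nat_lit 34) .nil))) (.g (nat_lit 0) (.e (nat_lit 256501) (nat_lit 0) .nil) .nil))) 
(.lf (nat_lit 535513) (.g (nat_lit 1343) (.e (nat_lit 57848) (nat_lit 252) (.e (nat_lit 57407) (nat_lit 12) (.e (nat_lit 336456) (nat_lit 34) (.e (nat_lit 483378) (nat_lit 23) (.e (nat_lit 343808) (nat_lit 18) .nil))))) (.g (nat_lit 0) (.e (nat_lit 258406) (nat_lit 0) .nil) .nil))))))) (.nd (nat_lit 6) (.nd (nat_lit 7) (.nd (nat_lit 8) (.nd (nat_lit 9) 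
(.lf (nat_lit 534585) (.g (nat_lit 3121) (.e (nat_lit 57502) (nat_lit 38) (.e (nat_lit 638995) (nat_lit 7) (.e (nat_lit 163978) (nat_lit 30) (.e (nat_lit 573489) (nat_lit 14) (.e (nat_lit 73754) (nat_lit 8) .nil))))) (.g (nat_lit 0) (.e (nat_lit 254890) (nat_lit 0) .nil) .nil))) 
(.lf (nat_lit 535097) (.g (nat_lit 1129) (.e (nat_lit 57689) (nat_lit 156) (.e (nat_lit 163905) (nat_lit 12) (.e (nat_lit 426479) (nat_lit 27) (.e (nat_lit 336432) (nat_lit 30) .nil)))) (.g (nat_lit 0) (.e (nat_lit 256824) (nat_lit 0) .nil) .nil)))) (.nd (nat_lit 9) 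
(.lf (nat_lit 534841) (.g (nat_lit 2055) (.e (nat_lit 57596) (nat_lit 82) (.e (nat_lit 499900) (nat_lit 7) (.e (nat_lit 24628) (nat_lit 9) (.e (nat_lit 336450) (nat_lit 33) (.e (nat_lit 475152) (nat_lit 17) (.e (nat_lit 57809) (nat_lit 246) .nil)))))) (.g (nat_lit 1) (.e (nat_lit 255795) (nat_lit 0) .nil) .nil))) 
(.lf (nat_lit 535353) (.g (nat_lit 3007) (.e (nat_lit 57844) (nat_lit 252) (.e (nat_lit 57371) (nat_lit 2) (.e (nat_lit 90160) (nat_lit 11) (.e (nat_lit 24628) (nat_lit 9) (.e (nat_lit 336367) (nat_lit 27) (.e (nat_lit 426482) (nat_lit 27) (.e (nat_lit 335997) (nat_lit 1) .nil))))))) (.g (nat_lit 1) (.e (nat_lit 258170) (nat_lit 0) .nil) .nil))))) (.nd (nat_lit 8) (.nd (nat_lit 9) 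
(.lf (nat_lit 534713) (.g (nat_lit 2493) (.e (nat_lit 57574) (nat_lit 55) (.e (nat_lit 778466) (nat_lit 11) (.e (nat_lit 24604) (nat_lit 2) (.e (nat_lit 90176) (nat_lit 15) (.e (nat_lit 188439) (nat_lit 20) (.e (nat_lit 3306) (nat_lit 202) (.e (nat_lit 573478) (nat_lit 12) .nil))))))) (.g (nat_lit 1) (.e (nat_lit 255158) (nat_lit 0) .nil) .nil))) 
(.lf (nat_lit 535225) (.g (nat_lit 841) (.e (nat_lit 65280) (nat_lit 168) (.e (nat_lit 163875) (nat_lit 3) (.e (nat_lit 204864) (nat_lit 27) .nil))) (.g (nat_lit 0) (.e (nat_lit 257291) (nat_lit 0) .nil) .nil)))) (.nd (nat_lit 9) 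
(.lf (nat_lit 534969) (.g (nat_lit 1871) (.e (nat_lit 57687) (nat_lit 156) (.e (nat_lit 163875) (nat_lit 3) (.e (nat_lit 204838) (nat_lit 20) (.e (nat_lit 114715) (nat_lit 22) .nil)))) (.g (nat_lit 0) (.e (nat_lit 256465) (nat_lit 0) .nil) .nil))) 
(.lf (nat_lit 535481) (.g (nat_lit 1870) (.e (nat_lit 57848) (nat_lit 252) (.e (nat_lit 57373) (nat_lit 2) (.e (nat_lit 90158) (nat_lit 11) (.e (nat_lit 24630) (nat_lit 9) .nil)))) (.g (nat_lit 0) (.e (nat_lit 258353) (nat_lit 0) .nil) .nil)))))) (.nd (nat_lit 7) (.nd (nat_lit 8) (.nd (nat_lit 9) 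
(.lf (nat_lit 534649) (.g (nat_lit 3479) (.e (nat_lit 57572) (nat_lit 54) (.e (nat_lit 770072) (nat_lit 8) (.e (nat_lit 65571) (nat_lit 3) (.e (nat_lit 98323) (nat_lit 17) (.e (nat_lit 7936) (nat_lit 393) (.e (nat_lit 180252) (nat_lit 10) (.e (nat_lit 573474) (nat_lit 12) .nil))))))) (.g (nat_lit 1) (.e (nat_lit 255047) (nat_lit 0) .nil) .nil))) 
(.lf (nat_lit 535161) (.g (nat_lit 2216) (.e (nat_lit 57692) (nat_lit 156) (.e (nat_lit 163875) (nat_lit 3) (.e (nat_lit 204837) (nat_lit 20) (.e (nat_lit 114719) (nat_lit 23) (.e (nat_lit 98366) (nat_lit 27) .nil))))) (.g (nat_lit 0) (.e (nat_lit 256985) (nat_lit 0) .nil) .nil)))) (.nd (nat_lit 9) 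
(.lf (nat_lit 534905) (.g (nat_lit 1747) (.e (nat_lit 57610) (nat_lit 109) (.e (nat_lit 720909) (nat_lit 11) (.e (nat_lit 426198) (nat_lit 9) (.e (nat_lit 426550) (nat_lit 31) (.e (nat_lit 368656) (nat_lit 14) (.e (nat_lit 57815) (nat_lit 246) .nil)))))) (.g (nat_lit 1) (.e (nat_lit 256001) (nat_lit 0) .nil) .nil))) 
(.lf (nat_lit 535417) (.g (nat_lit 1833) (.e (nat_lit 57847) (nat_lit 252) (.e (nat_lit 57372) (nat_lit 2) (.e (nat_lit 90160) (nat_lit 11) (.e (nat_lit 24636) (nat_lit 9) (.e (nat_lit 343808) (nat_lit 34) (.e (nat_lit 483366) (nat_lit 18) .nil)))))) (.g (nat_lit 1) (.e (nat_lit 258262) (nat_lit 0) .nil) .nil))))) (.nd (nat_lit 8) (.nd (nat_lit 9) 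
(.lf (nat_lit 534777) (.g (nat_lit 2891) (.e (nat_lit 57575) (nat_lit 55) (.e (nat_lit 778466) (nat_lit 11) (.e (nat_lit 24608) (nat_lit 3) (.e (nat_lit 98370) (nat_lit 28) .nil)))) (.g (nat_lit 0) (.e (nat_lit 255278) (nat_lit 0) .nil) .nil))) 
(.lf (nat_lit 535289) (.g (nat_lit 1189) (.e (nat_lit 57786) (nat_lit 245) (.e (nat_lit 2809) (nat_lit 180) (.e (nat_lit 303137) (nat_lit 10) (.e (nat_lit 434269) (nat_lit 36) .nil)))) (.g (nat_lit 0) (.e (nat_lit 257963) (nat_lit 0) .nil) .nil)))) (.nd (nat_lit 9) 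
(.lf (nat_lit 535033) (.g (nat_lit 3126) (.e (nat_lit 57688) (nat_lit 156) (.e (nat_lit 163902) (nat_lit 12) (.e (nat_lit 426438) (nat_lit 18) (.e (nat_lit 98381) (nat_lit 31) (.e (nat_lit 466954) (nat_lit 11) (.e (nat_lit 335995) (nat_lit 1) .nil)))))) (.g (nat_lit 1) (.e (nat_lit 256617) (nat_lit 0) .nil) .nil))) 
(.lf (nat_lit 535545) (.g (nat_lit 1014) (.e (nat_lit 57849) (nat_lit 252) (.e (nat_lit 57375) (nat_lit 2) (.e (nat_lit 90157) (nat_lit 11) (.e (nat_lit 24657) (nat_lit 13) .nil)))) (.g (nat_lit 0) (.e (nat_lit 258441) (nat_lit 0) .nil) .nil)))))))))) (.nd (nat_lit 3) (.nd (nat_lit 4) (.nd (nat_lit 5) (.nd (nat_lit 6) (.nd (nat_lit 7) (.nd (nat_lit 8) (.nd (nat_lit 9) 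
(.lf (nat_lit 534533) (.g (nat_lit 4524) (.e (nat_lit 57480) (nat_lit 28) (.e (nat_lit 557067) (nat_lit 9) (.e (nat_lit 3022) (nat_lit 187) (.e (nat_lit 450580) (nat_lit 5) (.e (nat_lit 532563) (nat_lit 15) (.e (nat_lit 385092) (nat_lit 49) (.e (nat_lit 778317) (nat_lit 3) .nil))))))) (.g (nat_lit 1) (.e (nat_lit 254761) (nat_lit 0) .nil) .nil))) 
(.lf (nat_lit 535045) (.g (nat_lit 1850) (.e (nat_lit 57688) (nat_lit 156) (.e (nat_lit 163903) (nat_lit 12) (.e (nat_lit 426436) (nat_lit 18) (.e (nat_lit 98358) (nat_lit 26) (.e (nat_lit 433920) (nat_lit 13) .nil))))) (.g (nat_lit 0) (.e (nat_lit 256637) (nat_lit 0) .nil) .nil)))) (.nd (nat_lit 9) 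
(.lf (nat_lit 534789) (.g (nat_lit 1826) (.e (nat_lit 65280) (nat_lit 55) (.e (nat_lit 778469) (nat_lit 11) (.e (nat_lit 24608) (nat_lit 3) (.e (nat_lit 98372) (nat_lit 29) (.e (nat_lit 450586) (nat_lit 10) .nil))))) (.g (nat_lit 0) (.e (nat_lit 255291) (nat_lit 0) .nil) .nil))) 
(.lf (nat_lit 535301) (.g (nat_lit 1921) (.e (nat_lit 57808) (nat_lit 246) (.e (nat_lit 57879) (nat_lit 270) (.e (nat_lit 496) (nat_lit 39) (.e (nat_lit 483406) (nat_lit 26) (.e (nat_lit 385057) (nat_lit 22) (.e (nat_lit 499780) (nat_lit 1) .nil)))))) (.g (nat_lit 1) (.e (nat_lit 257998) (nat_lit 0) .nil) .nil))))) (.nd (nat_lit 8) (.nd (nat_lit 9) 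
(.lf (nat_lit 534661) (.g (nat_lit 897) (.e (nat_lit 57574) (nat_lit 55) (.e (nat_lit 778361) (nat_lit 9) (.e (nat_lit 307) (nat_lit 22) (.e (nat_lit 344107) (nat_lit 19) .nil)))) (.g (nat_lit 0) (.e (nat_lit 255063) (nat_lit 0) .nil) .nil))) 
(.lf (nat_lit 535173) (.g (nat_lit 1157) (.e (nat_lit 57692) (nat_lit 156) (.e (nat_lit 163905) (nat_lit 12) (.e (nat_lit 426530) (nat_lit 27) (.e (nat_lit 336390) (nat_lit 27) .nil)))) (.g (nat_lit 0) (.e (nat_lit 257023) (nat_lit 0) .nil) .nil)))) (.nd (nat_lit 9) 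
(.lf (nat_lit 534917) (.g (nat_lit 1523) (.e (nat_lit 57685) (nat_lit 156) (.e (nat_lit 163874) (nat_lit 3) (.e (nat_lit 204838) (nat_lit 20) (.e (nat_lit 114715) (nat_lit 22) .nil)))) (.g (nat_lit 0) (.e (nat_lit 256339) (nat_lit 0) .nil) .nil))) 
(.lf (nat_lit 535429) (.g (nat_lit 2998) (.e (nat_lit 57847) (nat_lit 252) (.e (nat_lit 57377) (nat_lit 3) (.e (nat_lit 98333) (nat_lit 18) (.e (nat_lit 164403) (nat_lit 256) (.e (nat_lit 57588) (nat_lit 73) .nil))))) (.g (nat_lit 0) (.e (nat_lit 258277) (nat_lit 0) .nil) .nil)))))) (.nd (nat_lit 7) (.nd (nat_lit 8) (.nd (nat_lit 9) 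
(.lf (nat_lit 534597) (.g (nat_lit 2858) (.e (nat_lit 57502) (nat_lit 38) (.e (nat_lit 638996) (nat_lit 7) (.e (nat_lit 163978) (nat_lit 30) (.e (nat_lit 573487) (nat_lit 14) (.e (nat_lit 73753) (nat_lit 8) .nil))))) (.g (nat_lit 0) (.e (nat_lit 254903) (nat_lit 0) .nil) .nil))) 
(.lf (nat_lit 535109) (.g (nat_lit 3524) (.e (nat_lit 57691) (nat_lit 156) (.e (nat_lit 163875) (nat_lit 3) (.e (nat_lit 204837) (nat_lit 20) (.e (nat_lit 114718) (nat_lit 23) (.e (nat_lit 98365) (nat_lit 26) (.e (nat_lit 426133) (nat_lit 3) (.e (nat_lit 204829) (nat_lit 18) .nil))))))) (.g (nat_lit 1) (.e (nat_lit 256850) (nat_lit 0) .nil) .nil)))) (.nd (nat_lit 9) 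
(.lf (nat_lit 534853) (.g (nat_lit 1928) (.e (nat_lit 65280) (nat_lit 115) (.e (nat_lit 770072) (nat_lit 8) (.e (nat_lit 65583) (nat_lit 7) (.e (nat_lit 319530) (nat_lit 16) (.e (nat_lit 286759) (nat_lit 12) .nil))))) (.g (nat_lit 0) (.e (nat_lit 255884) (nat_lit 0) .nil) .nil))) 
(.lf (nat_lit 535365) (.g (nat_lit 1554) (.e (nat_lit 57844) (nat_lit 252) (.e (nat_lit 57388) (nat_lit 5) (.e (nat_lit 114698) (nat_lit 11) (.e (nat_lit 426186) (nat_lit 9) .nil)))) (.g (nat_lit 0) (.e (nat_lit 258182) (nat_lit 0) .nil) .nil))))) (.nd (nat_lit 8) (.nd (nat_lit 9) 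
(.lf (nat_lit 534725) (.g (nat_lit 3193) (.e (nat_lit 57574) (nat_lit 55) (.e (nat_lit 778466) (nat_lit 11) (.e (nat_lit 24604) (nat_lit 2) (.e (nat_lit 90178) (nat_lit 15) (.e (nat_lit 188441) (nat_lit 20) (.e (nat_lit 3308) (nat_lit 202) (.e (nat_lit 573477) (nat_lit 12) .nil))))))) (.g (nat_lit 1) (.e (nat_lit 255170) (nat_lit 0) .nil) .nil))) 
(.lf (nat_lit 535237) (.g (nat_lit 2363) (.e (nat_lit 57713) (nat_lit 176) (.e (nat_lit 1348) (nat_lit 102) (.e (nat_lit 286735) (nat_lit 3) (.e (nat_lit 98382) (nat_lit 31) (.e (nat_lit 466976) (nat_lit 22) .nil))))) (.g (nat_lit 0) (.e (nat_lit 257354) (nat_lit 0) .nil) .nil)))) (.nd (nat_lit 9) 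
(.lf (nat_lit 534981) (.g (nat_lit 2202) (.e (nat_lit 57687) (nat_lit 156) (.e (nat_lit 163903) (nat_lit 12) (.e (nat_lit 426428) (nat_lit 17) (.e (nat_lit 90176) (nat_lit 15) (.e (nat_lit 188423) (nat_lit 11) .nil))))) (.g (nat_lit 0) (.e (nat_lit 256478) (nat_lit 0) .nil) .nil))) 
(.lf (nat_lit 535493) (.g (nat_lit 3111) (.e (nat_lit 57848) (nat_lit 252) (.e (nat_lit 57375) (nat_lit 2) (.e (nat_lit 90160) (nat_lit 11) (.e (nat_lit 24630) (nat_lit 9) (.e (nat_lit 336454) (nat_lit 34) (.e (nat_lit 483366) (nat_lit 18) .nil)))))) (.g (nat_lit 1) (.e (nat_lit 258366) (nat_lit 0) .nil) .nil))))))) (.nd (nat_lit 6) (.nd (nat_lit 7) (.nd (nat_lit 8) (.nd (nat_lit 9) 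
(.lf (nat_lit 534565) (.g (nat_lit 2926) (.e (nat_lit 57480) (nat_lit 28) (.e (nat_lit 557108) (nat_lit 15) (.e (nat_lit 188452) (nat_lit 23) (.e (nat_lit 204880) (nat_lit 32) (.e (nat_lit 392960) (nat_lit 49) .nil))))) (.g (nat_lit 0) (.e (nat_lit 254850) (nat_lit 0) .nil) .nil))) 
(.lf (nat_lit 535077) (.g (nat_lit 687) (.e (nat_lit 57688) (nat_lit 156) (.e (nat_lit 163907) (nat_lit 12) (.e (nat_lit 426479) (nat_lit 27) .nil))) (.g (nat_lit 0) (.e (nat_lit 256686) (nat_lit 0) .nil) .nil)))) (.nd (nat_lit 9) 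
(.lf (nat_lit 534821) (.g (nat_lit 1910) (.e (nat_lit 57587) (nat_lit 73) (.e (nat_lit 426316) (nat_lit 12) (.e (nat_lit 475185) (nat_lit 29) (.e (nat_lit 557109) (nat_lit 15) .nil)))) (.g (nat_lit 0) (.e (nat_lit 255642) (nat_lit 0) .nil) .nil))) 
(.lf (nat_lit 535333) (.g (nat_lit 1921) (.e (nat_lit 57830) (nat_lit 250) (.e (nat_lit 1183) (nat_lit 87) (.e (nat_lit 57478) (nat_lit 28) (.e (nat_lit 557105) (nat_lit 14) (.e (nat_lit 180251) (nat_lit 10) .nil))))) (.g (nat_lit 0) (.e (nat_lit 258090) (nat_lit 0) .nil) .nil))))) (.nd (nat_lit 8) (.nd (nat_lit 9) 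
(.lf (nat_lit 534693) (.g (nat_lit 3783) (.e (nat_lit 57574) (nat_lit 55) (.e (nat_lit 778466) (nat_lit 11) (.e (nat_lit 24602) (nat_lit 2) (.e (nat_lit 90170) (nat_lit 13) (.e (nat_lit 172113) (nat_lit 10) (.e (nat_lit 434247) (nat_lit 28) (.e (nat_lit 573478) (nat_lit 12) .nil))))))) (.g (nat_lit 1) (.e (nat_lit 255102) (nat_lit 0) .nil) .nil))) 
(.lf (nat_lit 535205) (.g (nat_lit 794) (.e (nat_lit 65280) (nat_lit 168) (.e (nat_lit 163867) (nat_lit 2) (.e (nat_lit 196667) (nat_lit 14) .nil))) (.g (nat_lit 0) (.e (nat_lit 257260) (nat_lit 0) .nil) .nil)))) (.nd (nat_lit 9) 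
(.lf (nat_lit 534949) (.g (nat_lit 2453) (.e (nat_lit 57686) (nat_lit 156) (.e (nat_lit 163903) (nat_lit 12) (.e (nat_lit 426436) (nat_lit 18) (.e (nat_lit 98358) (nat_lit 26) (.e (nat_lit 426322) (nat_lit 13) .nil))))) (.g (nat_lit 0) (.e (nat_lit 256397) (nat_lit 0) .nil) .nil))) 
(.lf (nat_lit 535461) (.g (nat_lit 1906) (.e (nat_lit 57847) (nat_lit 252) (.e (nat_lit 57411) (nat_lit 12) (.e (nat_lit 336454) (nat_lit 34) (.e (nat_lit 483385) (nat_lit 23) (.e (nat_lit 336270) (nat_lit 15) .nil))))) (.g (nat_lit 0) (.e (nat_lit 258320) (nat_lit 0) .nil) .nil)))))) (.nd (nat_lit 7) (.nd (nat_lit 8) (.nd (nat_lit 9) 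
(.lf (nat_lit 534629) (.g (nat_lit 1903) (.e (nat_lit 57509) (nat_lit 39) (.e (nat_lit 647199) (nat_lit 11) (.e (nat_lit 16388) (nat_lit 0) (.e (nat_lit 3544) (nat_lit 219) (.e (nat_lit 712753) (nat_lit 30) (.e (nat_lit 450586) (nat_lit 10) (.e (nat_lit 573477) (nat_lit 12) .nil))))))) (.g (nat_lit 1) (.e (nat_lit 254978) (nat_lit 0) .nil) .nil))) 
(.lf (nat_lit 535141) (.g (nat_lit 2638) (.e (nat_lit 57691) (nat_lit 156) (.e (nat_lit 163939) (nat_lit 18) (.e (nat_lit 475179) (nat_lit 24) (.e (nat_lit 516146) (nat_lit 9) (.e (nat_lit 426323) (nat_lit 13) (.e (nat_lit 483366) (nat_lit 18) .nil)))))) (.g (nat_lit 1) (.e (nat_lit 256938) (nat_lit 0) .nil) .nil)))) (.nd (nat_lit 9) 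
(.lf (nat_lit 534885) (.g (nat_lit 1481) (.e (nat_lit 57610) (nat_lit 109) (.e (nat_lit 720909) (nat_lit 11) (.e (nat_lit 426196) (nat_lit 9) (.e (nat_lit 426550) (nat_lit 31) (.e (nat_lit 368656) (nat_lit 14) (.e (nat_lit 57808) (nat_lit 246) .nil)))))) (.g (nat_lit 1) (.e (nat_lit 255981) (nat_lit 0) .nil) .nil))) 
(.lf (nat_lit 535397) (.g (nat_lit 1171) (.e (nat_lit 57846) (nat_lit 252) (.e (nat_lit 57388) (nat_lit 5) (.e (nat_lit 114698) (nat_lit 11) (.e (nat_lit 426197) (nat_lit 9) .nil)))) (.g (nat_lit 0) (.e (nat_lit 258232) (nat_lit 0) .nil) .nil))))) (.nd (nat_lit 8) (.nd (nat_lit 9) 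
(.lf (nat_lit 534757) (.g (nat_lit 3489) (.e (nat_lit 57574) (nat_lit 55) (.e (nat_lit 778466) (nat_lit 11) (.e (nat_lit 24617) (nat_lit 7) (.e (nat_lit 319534) (nat_lit 16) (.e (nat_lit 286756) (nat_lit 10) (.e (nat_lit 344160) (nat_lit 37) (.e (nat_lit 655104) (nat_lit 12) .nil))))))) (.g (nat_lit 1) (.e (nat_lit 255248) (nat_lit 0) .nil) .nil))) 
(.lf (nat_lit 535269) (.g (nat_lit 4184) (.e (nat_lit 57750) (nat_lit 201) (.e (nat_lit 3067) (nat_lit 190) (.e (nat_lit 475185) (nat_lit 29) (.e (nat_lit 557109) (nat_lit 15) (.e (nat_lit 188449) (nat_lit 22) (.e (nat_lit 196661) (nat_lit 12) .nil)))))) (.g (nat_lit 1) (.e (nat_lit 257534) (nat_lit 0) .nil) .nil)))) (.nd (nat_lit 9) 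
(.lf (nat_lit 535013) (.g (nat_lit 1870) (.e (nat_lit 57688) (nat_lit 156) (.e (nat_lit 163873) (nat_lit 3) (.e (nat_lit 204838) (nat_lit 20) (.e (nat_lit 114716) (nat_lit 22) (.e (nat_lit 90168) (nat_lit 13) .nil))))) (.g (nat_lit 0) (.e (nat_lit 256594) (nat_lit 0) .nil) .nil))) 
(.lf (nat_lit 535525) (.g (nat_lit 2094) (.e (nat_lit 57848) (nat_lit 252) (.e (nat_lit 57445) (nat_lit 19) (.e (nat_lit 393229) (nat_lit 9) (.e (nat_lit 336086) (nat_lit 9) (.e (nat_lit 336243) (nat_lit 15) .nil))))) (.g (nat_lit 0) (.e (nat_lit 258418) (nat_lit 0) .nil) .nil)))))))) (.nd (nat_lit 5) (.nd (nat_lit 6) (.nd (nat_lit 7) (.nd (nat_lit 8) (.nd (nat_lit 9) 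
(.lf (nat_lit 534549) (.g (nat_lit 5820) (.e (nat_lit 57480) (nat_lit 28) (.e (nat_lit 557099) (nat_lit 13) (.e (nat_lit 172106) (nat_lit 10) (.e (nat_lit 434231) (nat_lit 23) (.e (nat_lit 532535) (nat_lit 9) (.e (nat_lit 336295) (nat_lit 15) (.e (nat_lit 3632) (nat_lit 227) (.e (nat_lit 778317) (nat_lit 3) .nil)))))))) (.g (nat_lit 1) (.e (nat_lit 254830) (nat_lit 0) .nil) .nil))) 
(.lf (nat_lit 535061) (.g (nat_lit 707) (.e (nat_lit 57688) (nat_lit 156) (.e (nat_lit 163905) (nat_lit 12) (.e (nat_lit 426436) (nat_lit 18) .nil))) (.g (nat_lit 0) (.e (nat_lit 256657) (nat_lit 0) .nil) .nil)))) (.nd (nat_lit 9) 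
(.lf (nat_lit 534805) (.g (nat_lit 3697) (.e (nat_lit 57548) (nat_lit 47) (.e (nat_lit 712740) (nat_lit 27) (.e (nat_lit 426544) (nat_lit 30) (.e (nat_lit 360475) (nat_lit 8) (.e (nat_lit 557091) (nat_lit 12) (.e (nat_lit 164003) (nat_lit 40) (.e (nat_lit 655398) (nat_lit 12) .nil))))))) (.g (nat_lit 1) (.e (nat_lit 255471) (nat_lit 0) .nil) .nil))) 
(.lf (nat_lit 535317) (.g (nat_lit 1521) (.e (nat_lit 57810) (nat_lit 246) (.e (nat_lit 57883) (nat_lit 270) (.e (nat_lit 371) (nat_lit 32) (.e (nat_lit 426555) (nat_lit 32) (.e (nat_lit 384768) (nat_lit 2) (.e (nat_lit 196698) (nat_lit 19) .nil)))))) (.g (nat_lit 1) (.e (nat_lit 258017) (nat_lit 0) .nil) .nil))))) (.nd (nat_lit 8) (.nd (nat_lit 9) 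
(.lf (nat_lit 534677) (.g (nat_lit 1549) (.e (nat_lit 57574) (nat_lit 55) (.e (nat_lit 778465) (nat_lit 11) (.e (nat_lit 24604) (nat_lit 2) (.e (nat_lit 90176) (nat_lit 15) (.e (nat_lit 188439) (nat_lit 20) .nil))))) (.g (nat_lit 0) (.e (nat_lit 255082) (nat_lit 0) .nil) .nil))) 
(.lf (nat_lit 535189) (.g (nat_lit 403) (.e (nat_lit 57692) (nat_lit 156) (.e (nat_lit 163907) (nat_lit 12) (.e (nat_lit 426436) (nat_lit 18) .nil))) (.g (nat_lit 0) (.e (nat_lit 257066) (nat_lit 0) .nil) .nil)))) (.nd (nat_lit 9) 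
(.lf (nat_lit 534933) (.g (nat_lit 1442) (.e (nat_lit 57686) (nat_lit 156) (.e (nat_lit 163875) (nat_lit 3) (.e (nat_lit 204838) (nat_lit 20) (.e (nat_lit 114719) (nat_lit 23) .nil)))) (.g (nat_lit 0) (.e (nat_lit 256378) (nat_lit 0) .nil) .nil))) 
(.lf (nat_lit 535445) (.g (nat_lit 2806) (.e (nat_lit 57847) (nat_lit 252) (.e (nat_lit 57407) (nat_lit 12) (.e (nat_lit 336316) (nat_lit 17) (.e (nat_lit 196666) (nat_lit 13) (.e (nat_lit 65617) (nat_lit 10) (.e (nat_lit 344087) (nat_lit 18) (.e (nat_lit 7695) (nat_lit 412) (.e (nat_lit 57367) (nat_lit 1) .nil)))))))) (.g (nat_lit 1) (.e (nat_lit 258299) (nat_lit 0) .nil) .nil)))))) 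
(.nd (nat_lit 7) (.nd (nat_lit 8) (.nd (nat_lit 9) 
(.lf (nat_lit 534613) (.g (nat_lit 439) (.e (nat_lit 57504) (nat_lit 38) (.e (nat_lit 639020) (nat_lit 16) (.e (nat_lit 65627) (nat_lit 13) .nil))) (.g (nat_lit 0) (.e (nat_lit 254923) (nat_lit 0) .nil) .nil))) 
(.lf (nat_lit 535125) (.g (nat_lit 763) (.e (nat_lit 57691) (nat_lit 156) (.e (nat_lit 163906) (nat_lit 12) (.e (nat_lit 426438) (nat_lit 18) (.e (nat_lit 98362) (nat_lit 26) .nil)))) (.g (nat_lit 0) (.e (nat_lit 256876) (nat_lit 0) .nil) .nil)))) (.nd (nat_lit 9) 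
(.lf (nat_lit 534869) (.g (nat_lit 2783) (.e (nat_lit 57616) (nat_lit 116) (.e (nat_lit 778466) (nat_lit 11) (.e (nat_lit 24617) (nat_lit 7) (.e (nat_lit 319534) (nat_lit 16) (.e (nat_lit 286756) (nat_lit 10) (.e (nat_lit 344168) (nat_lit 40) (.e (nat_lit 679680) (nat_lit 15) .nil))))))) (.g (nat_lit 1) (.e (nat_lit 255906) (nat_lit 0) .nil) .nil))) 
(.lf (nat_lit 535381) (.g (nat_lit 608) (.e (nat_lit 57845) (nat_lit 252) (.e (nat_lit 57389) (nat_lit 5) (.e (nat_lit 114698) (nat_lit 11) .nil))) (.g (nat_lit 0) (.e (nat_lit 258210) (nat_lit 0) .nil) .nil))))) (.nd (nat_lit 8) (.nd (nat_lit 9) 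
(.lf (nat_lit 534741) (.g (nat_lit 3417) (.e (nat_lit 57574) (nat_lit 55) (.e (nat_lit 778466) (nat_lit 11) (.e (nat_lit 24608) (nat_lit 3) (.e (nat_lit 98359) (nat_lit 26) (.e (nat_lit 426286) (nat_lit 10) (.e (nat_lit 434247) (nat_lit 28) (.e (nat_lit 573477) (nat_lit 12) .nil))))))) (.g (nat_lit 1) (.e (nat_lit 255189) (nat_lit 0) .nil) .nil))) 
(.lf (nat_lit 535253) (.g (nat_lit 2713) (.e (nat_lit 57750) (nat_lit 201) (.e (nat_lit 2854) (nat_lit 184) (.e (nat_lit 426402) (nat_lit 15) (.e (nat_lit 1849) (nat_lit 124) (.e (nat_lit 557108) (nat_lit 15) (.e (nat_lit 188449) (nat_lit 22) (.e (nat_lit 196661) (nat_lit 12) .nil))))))) (.g (nat_lit 1) (.e (nat_lit 257507) (nat_lit 0) .nil) .nil)))) (.nd (nat_lit 9) 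
(.lf (nat_lit 534997) (.g (nat_lit 1137) (.e (nat_lit 57687) (nat_lit 156) (.e (nat_lit 163907) (nat_lit 12) (.e (nat_lit 426438) (nat_lit 18) .nil))) (.g (nat_lit 0) (.e (nat_lit 256497) (nat_lit 0) .nil) .nil))) 
(.lf (nat_lit 535509) (.g (nat_lit 1645) (.e (nat_lit 57848) (nat_lit 252) (.e (nat_lit 57407) (nat_lit 12) (.e (nat_lit 336454) (nat_lit 34) (.e (nat_lit 483384) (nat_lit 23) .nil)))) (.g (nat_lit 0) (.e (nat_lit 258402) (nat_lit 0) .nil) .nil))))))) (.nd (nat_lit 6) (.nd (nat_lit 7) (.nd (nat_lit 8) (.nd (nat_lit 9) 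
(.lf (nat_lit 534581) (.g (nat_lit 3661) (.e (nat_lit 57480) (nat_lit 28) (.e (nat_lit 557109) (nat_lit 15) (.e (nat_lit 188452) (nat_lit 23) (.e (nat_lit 204880) (nat_lit 32) (.e (nat_lit 392960) (nat_lit 49) .nil))))) (.g (nat_lit 0) (.e (nat_lit 254866) (nat_lit 0) .nil) .nil))) 
(.lf (nat_lit 535093) (.g (nat_lit 2004) (.e (nat_lit 57689) (nat_lit 156) (.e (nat_lit 163874) (nat_lit 3) (.e (nat_lit 204838) (nat_lit 20) (.e (nat_lit 114715) (nat_lit 22) (.e (nat_lit 90174) (nat_lit 14) .nil))))) (.g (nat_lit 0) (.e (nat_lit 256819) (nat_lit 0) .nil) .nil)))) (.nd (nat_lit 9) 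
(.lf (nat_lit 534837) (.g (nat_lit 2113) (.e (nat_lit 57596) (nat_lit 82) (.e (nat_lit 499900) (nat_lit 7) (.e (nat_lit 24625) (nat_lit 9) (.e (nat_lit 336450) (nat_lit 33) (.e (nat_lit 475152) (nat_lit 17) (.e (nat_lit 57809) (nat_lit 246) .nil)))))) (.g (nat_lit 1) (.e (nat_lit 255789) (nat_lit 0) .nil) .nil))) 
(.lf (nat_lit 535349) (.g (nat_lit 621) (.e (nat_lit 57857) (nat_lit 254) (.e (nat_lit 163923) (nat_lit 15) (.e (nat_lit 450595) (nat_lit 17) .nil))) (.g (nat_lit 0) (.e (nat_lit 258136) (nat_lit 0) .nil) .nil))))) (.nd (nat_lit 8) (.nd (nat_lit 9) 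
(.lf (nat_lit 534709) (.g (nat_lit 4613) (.e (nat_lit 57574) (nat_lit 55) (.e (nat_lit 778466) (nat_lit 11) (.e (nat_lit 24604) (nat_lit 2) (.e (nat_lit 90170) (nat_lit 13) (.e (nat_lit 172113) (nat_lit 10) (.e (nat_lit 434247) (nat_lit 28) (.e (nat_lit 573477) (nat_lit 12) .nil))))))) (.g (nat_lit 1) (.e (nat_lit 255153) (nat_lit 0) .nil) .nil))) 
(.lf (nat_lit 535221) (.g (nat_lit 2409) (.e (nat_lit 65280) (nat_lit 168) (.e (nat_lit 163875) (nat_lit 3) (.e (nat_lit 204862) (nat_lit 27) (.e (nat_lit 344133) (nat_lit 26) (.e (nat_lit 557098) (nat_lit 13) .nil))))) (.g (nat_lit 0) (.e (nat_lit 257287) (nat_lit 0) .nil) .nil)))) (.nd (nat_lit 9) 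
(.lf (nat_lit 534965) (.g (nat_lit 1128) (.e (nat_lit 57686) (nat_lit 156) (.e (nat_lit 163907) (nat_lit 12) (.e (nat_lit 426479) (nat_lit 27) .nil))) (.g (nat_lit 0) (.e (nat_lit 256414) (nat_lit 0) .nil) .nil))) 
(.lf (nat_lit 535477) (.g (nat_lit 1460) (.e (nat_lit 57848) (nat_lit 252) (.e (nat_lit 57372) (nat_lit 2) (.e (nat_lit 90159) (nat_lit 11) (.e (nat_lit 24657) (nat_lit 13) (.e (nat_lit 401152) (nat_lit 9) (.e (nat_lit 336000) (nat_lit 1) .nil)))))) (.g (nat_lit 1) (.e (nat_lit 258340) (nat_lit 0) .nil) .nil)))))) (.nd (nat_lit 7) (.nd (nat_lit 8) (.nd (nat_lit 9) 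
(.lf (nat_lit 534645) (.g (nat_lit 2783) (.e (nat_lit 57572) (nat_lit 54) (.e (nat_lit 770072) (nat_lit 8) (.e (nat_lit 65569) (nat_lit 3) (.e (nat_lit 98359) (nat_lit 26) (.e (nat_lit 426286) (nat_lit 10) (.e (nat_lit 434243) (nat_lit 28) (.e (nat_lit 573474) (nat_lit 12) .nil))))))) (.g (nat_lit 1) (.e (nat_lit 255043) (nat_lit 0) .nil) .nil))) 
(.lf (nat_lit 535157) (.g (nat_lit 2776) (.e (nat_lit 57692) (nat_lit 156) (.e (nat_lit 163874) (nat_lit 3) (.e (nat_lit 204838) (nat_lit 20) (.e (nat_lit 114719) (nat_lit 23) (.e (nat_lit 98363) (nat_lit 26) (.e (nat_lit 426129) (nat_lit 3) (.e (nat_lit 204829) (nat_lit 18) .nil))))))) (.g (nat_lit 1) (.e (nat_lit 256981) (nat_lit 0) .nil) .nil)))) (.nd (nat_lit 9) 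
(.lf (nat_lit 534901) (.g (nat_lit 1331) (.e (nat_lit 57610) (nat_lit 109) (.e (nat_lit 720909) (nat_lit 11) (.e (nat_lit 426197) (nat_lit 9) (.e (nat_lit 426550) (nat_lit 31) (.e (nat_lit 368656) (nat_lit 14) (.e (nat_lit 57814) (nat_lit 246) .nil)))))) (.g (nat_lit 1) (.e (nat_lit 255997) (nat_lit 0) .nil) .nil))) 
(.lf (nat_lit 535413) (.g (nat_lit 2671) (.e (nat_lit 57847) (nat_lit 252) (.e (nat_lit 57371) (nat_lit 2) (.e (nat_lit 90160) (nat_lit 11) (.e (nat_lit 24630) (nat_lit 9) (.e (nat_lit 336454) (nat_lit 34) .nil))))) (.g (nat_lit 0) (.e (nat_lit 258257) (nat_lit 0) .nil) .nil))))) (.nd (nat_lit 8) (.nd (nat_lit 9) 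
(.lf (nat_lit 534773) (.g (nat_lit 3368) (.e (nat_lit 57575) (nat_lit 55) (.e (nat_lit 778466) (nat_lit 11) (.e (nat_lit 24604) (nat_lit 2) (.e (nat_lit 90178) (nat_lit 15) (.e (nat_lit 188436) (nat_lit 20) (.e (nat_lit 3307) (nat_lit 202) (.e (nat_lit 573477) (nat_lit 12) .nil))))))) (.g (nat_lit 1) (.e (nat_lit 255273) (nat_lit 0) .nil) .nil))) 
(.lf (nat_lit 535285) (.g (nat_lit 1500) (.e (nat_lit 65280) (nat_lit 192) (.e (nat_lit 73746) (nat_lit 3) (.e (nat_lit 516139) (nat_lit 7) (.e (nat_lit 409643) (nat_lit 18) .nil)))) (.g (nat_lit 0) (.e (nat_lit 257942) (nat_lit 0) .nil) .nil)))) (.nd (nat_lit 9) 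
(.lf (nat_lit 535029) (.g (nat_lit 806) (.e (nat_lit 57688) (nat_lit 156) (.e (nat_lit 163902) (nat_lit 12) (.e (nat_lit 426437) (nat_lit 18) .nil))) (.g (nat_lit 0) (.e (nat_lit 256613) (nat_lit 0) .nil) .nil))) 
(.lf (nat_lit 535541) (.g (nat_lit 2907) (.e (nat_lit 57849) (nat_lit 252) (.e (nat_lit 57372) (nat_lit 2) (.e (nat_lit 90160) (nat_lit 11) (.e (nat_lit 24628) (nat_lit 9) (.e (nat_lit 336414) (nat_lit 27) (.e (nat_lit 426503) (nat_lit 27) (.e (nat_lit 335986) (nat_lit 1) .nil))))))) (.g (nat_lit 1) (.e (nat_lit 258434) (nat_lit 0) .nil) .nil))))))))) 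
(.nd (nat_lit 4) (.nd (nat_lit 5) (.nd (nat_lit 6) (.nd (nat_lit 7) (.nd (nat_lit 8) 
(.nd (nat_lit 9) 
(.lf (nat_lit 534541) (.g (nat_lit 3531) (.e (nat_lit 57480) (nat_lit 28) (.e (nat_lit 557098) (nat_lit 13) (.e (nat_lit 172097) (nat_lit 9) (.e (nat_lit 426140) (nat_lit 3) (.e (nat_lit 204855) (nat_lit 26) (.e (nat_lit 336290) (nat_lit 15) (.e (nat_lit 3714) (nat_lit 227) (.e (nat_lit 786176) (nat_lit 3) .nil)))))))) (.g (nat_lit 1) (.e (nat_lit 254822) (nat_lit 0) .nil) .nil))) 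
(.lf (nat_lit 535053) (.g (nat_lit 3051) (.e (nat_lit 57688) (nat_lit 156) (.e (nat_lit 163903) (nat_lit 12) (.e (nat_lit 426438) (nat_lit 18) (.e (nat_lit 98380) (nat_lit 31) (.e (nat_lit 466954) (nat_lit 11) (.e (nat_lit 335995) (nat_lit 1) .nil)))))) (.g (nat_lit 1) (.e (nat_lit 256645) (nat_lit 0) .nil) .nil)))) (.nd (nat_lit 9) 
(.lf (nat_lit 534797) (.g (nat_lit 3157) (.e (nat_lit 57539) (nat_lit 46) (.e (nat_lit 704738) (nat_lit 11) (.e (nat_lit 16425) (nat_lit 7) (.e (nat_lit 409648) (nat_lit 18) (.e (nat_lit 303137) (nat_lit 10) .nil))))) (.g (nat_lit 0) (.e (nat_lit 255386) (nat_lit 0) .nil) .nil))) 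
(.lf (nat_lit 535309) (.g (nat_lit 2187) (.e (nat_lit 57809) (nat_lit 246) (.e (nat_lit 57883) (nat_lit 270) (.e (nat_lit 496) (nat_lit 39) (.e (nat_lit 483383) (nat_lit 23) (.e (nat_lit 336316) (nat_lit 17) (.e (nat_lit 204544) (nat_lit 19) .nil)))))) (.g (nat_lit 1) (.e (nat_lit 258006) (nat_lit 0) .nil) .nil))))) (.nd (nat_lit 8) (.nd (nat_lit 9) 
(.lf (nat_lit 534669) (.g (nat_lit 5303) (.e (nat_lit 57574) (nat_lit 55) (.e (nat_lit 778465) (nat_lit 11) (.e (nat_lit 24603) (nat_lit 2) (.e (nat_lit 90178) (nat_lit 15) (.e (nat_lit 188440) (nat_lit 20) (.e (nat_lit 3307) (nat_lit 202) (.e (nat_lit 573477) (nat_lit 12) .nil))))))) (.g (nat_lit 1) (.e (nat_lit 255073) (nat_lit 0) .nil) .nil))) 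
(.lf (nat_lit 535181) (.g (nat_lit 1429) (.e (nat_lit 57692) (nat_lit 156) (.e (nat_lit 163907) (nat_lit 12) (.e (nat_lit 426131) (nat_lit 3) (.e (nat_lit 204868) (nat_lit 29) .nil)))) (.g (nat_lit 0) (.e (nat_lit 257036) (nat_lit 0) .nil) .nil)))) (.nd (nat_lit 9) 
(.lf (nat_lit 534925) (.g (nat_lit 1703) (.e (nat_lit 57685) (nat_lit 156) (.e (nat_lit 163903) (nat_lit 12) (.e (nat_lit 426438) (nat_lit 18) (.e (nat_lit 98381) (nat_lit 31) (.e (nat_lit 466954) (nat_lit 11) .nil))))) (.g (nat_lit 0) (.e (nat_lit 256349) (nat_lit 0) .nil) .nil))) 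
(.lf (nat_lit 535437) (.g (nat_lit 2722) (.e (nat_lit 57847) (nat_lit 252) (.e (nat_lit 57405) (nat_lit 12) (.e (nat_lit 336454) (nat_lit 34) (.e (nat_lit 483385) (nat_lit 23) (.e (nat_lit 336260) (nat_lit 15) .nil))))) (.g (nat_lit 0) (.e (nat_lit 258291) (nat_lit 0) .nil) .nil)))))) (.nd (nat_lit 7) (.nd (nat_lit 8) (.nd (nat_lit 9) 
(.lf (nat_lit 534605) (.g (nat_lit 2071) (.e (nat_lit 57503) (nat_lit 38) (.e (nat_lit 638995) (nat_lit 7) (.e (nat_lit 163978) (nat_lit 30) (.e (nat_lit 573487) (nat_lit 14) .nil)))) (.g (nat_lit 0) (.e (nat_lit 254911) (nat_lit 0) .nil) .nil))) 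
(.lf (nat_lit 535117) (.g (nat_lit 2340) (.e (nat_lit 57691) (nat_lit 156) (.e (nat_lit 163905) (nat_lit 12) (.e (nat_lit 426436) (nat_lit 18) (.e (nat_lit 98358) (nat_lit 26) (.e (nat_lit 426322) (nat_lit 13) .nil))))) (.g (nat_lit 0) (.e (nat_lit 256859) (nat_lit 0) .nil) .nil)))) (.nd (nat_lit 9) 
(.lf (nat_lit 534861) (.g (nat_lit 3287) (.e (nat_lit 57612) (nat_lit 116) (.e (nat_lit 778466) (nat_lit 11) (.e (nat_lit 24617) (nat_lit 7) (.e (nat_lit 319534) (nat_lit 16) (.e (nat_lit 286756) (nat_lit 10) (.e (nat_lit 344169) (nat_lit 40) (.e (nat_lit 679680) (nat_lit 15) .nil))))))) (.g (nat_lit 1) (.e (nat_lit 255895) (nat_lit 0) .nil) .nil))) 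
(.lf (nat_lit 535373) (.g (nat_lit 1336) (.e (nat_lit 57844) (nat_lit 252) (.e (nat_lit 57408) (nat_lit 12) (.e (nat_lit 336454) (nat_lit 34) (.e (nat_lit 483405) (nat_lit 26) .nil)))) (.g (nat_lit 0) (.e (nat_lit 258202) (nat_lit 0) .nil) .nil))))) (.nd (nat_lit 8) (.nd (nat_lit 9) 
(.lf (nat_lit 534733) (.g (nat_lit 4466) (.e (nat_lit 57574) (nat_lit 55) (.e (nat_lit 778466) (nat_lit 11) (.e (nat_lit 24608) (nat_lit 3) (.e (nat_lit 98356) (nat_lit 26) (.e (nat_lit 426272) (nat_lit 10) (.e (nat_lit 434247) (nat_lit 28) (.e (nat_lit 573477) (nat_lit 12) .nil))))))) (.g (nat_lit 1) (.e (nat_lit 255181) (nat_lit 0) .nil) .nil))) 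
(.lf (nat_lit 535245) (.g (nat_lit 2048) (.e (nat_lit 57715) (nat_lit 176) (.e (nat_lit 1348) (nat_lit 102) (.e (nat_lit 286735) (nat_lit 3) (.e (nat_lit 98374) (nat_lit 29) .nil)))) (.g (nat_lit 0) (.e (nat_lit 257374) (nat_lit 0) .nil) .nil)))) (.nd (nat_lit 9) 
(.lf (nat_lit 534989) (.g (nat_lit 1073) (.e (nat_lit 57687) (nat_lit 156) (.e (nat_lit 163903) (nat_lit 12) (.e (nat_lit 426479) (nat_lit 27) (.e (nat_lit 336432) (nat_lit 30) .nil)))) (.g (nat_lit 0) (.e (nat_lit 256487) (nat_lit 0) .nil) .nil))) 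
(.lf (nat_lit 535501) (.g (nat_lit 3784) (.e (nat_lit 57848) (nat_lit 252) (.e (nat_lit 57407) (nat_lit 12) (.e (nat_lit 336316) (nat_lit 17) (.e (nat_lit 196666) (nat_lit 13) (.e (nat_lit 65610) (nat_lit 10) (.e (nat_lit 344090) (nat_lit 18) (.e (nat_lit 7695) (nat_lit 412) (.e (nat_lit 57367) (nat_lit 1) .nil)))))))) (.g (nat_lit 1) (.e (nat_lit 258394) (nat_lit 0) .nil) .nil))))))) 
(.nd (nat_lit 6) (.nd (nat_lit 7) (.nd (nat_lit 8) (.nd (nat_lit 9) 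
(.lf (nat_lit 534573) (.g (nat_lit 3240) (.e (nat_lit 57480) (nat_lit 28) (.e (nat_lit 557109) (nat_lit 15) (.e (nat_lit 188449) (nat_lit 22) (.e (nat_lit 196665) (nat_lit 13) (.e (nat_lit 65633) (nat_lit 15) .nil))))) (.g (nat_lit 0) (.e (nat_lit 254858) (nat_lit 0) .nil) .nil))) 
(.lf (nat_lit 535085) (.g (nat_lit 518) (.e (nat_lit 57688) (nat_lit 156) (.e (nat_lit 163933) (nat_lit 17) (.e (nat_lit 466971) (nat_lit 21) .nil))) (.g (nat_lit 0) (.e (nat_lit 256762) (nat_lit 0) .nil) .nil)))) (.nd (nat_lit 9) 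
(.lf (nat_lit 534829) (.g (nat_lit 1785) (.e (nat_lit 57591) (nat_lit 73) (.e (nat_lit 426316) (nat_lit 12) (.e (nat_lit 475185) (nat_lit 29) (.e (nat_lit 557109) (nat_lit 15) .nil)))) (.g (nat_lit 0) (.e (nat_lit 255723) (nat_lit 0) .nil) .nil))) 
(.lf (nat_lit 535341) (.g (nat_lit 410) (.e (nat_lit 57857) (nat_lit 254) (.e (nat_lit 163908) (nat_lit 12) (.e (nat_lit 426171) (nat_lit 7) .nil))) (.g (nat_lit 0) (.e (nat_lit 258125) (nat_lit 0) .nil) .nil))))) (.nd (nat_lit 8) (.nd (nat_lit 9) 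
(.lf (nat_lit 534701) (.g (nat_lit 2577) (.e (nat_lit 57574) (nat_lit 55) (.e (nat_lit 778466) (nat_lit 11) (.e (nat_lit 24604) (nat_lit 2) (.e (nat_lit 90168) (nat_lit 13) (.e (nat_lit 172112) (nat_lit 10) (.e (nat_lit 434248) (nat_lit 28) (.e (nat_lit 573475) (nat_lit 12) .nil))))))) (.g (nat_lit 1) (.e (nat_lit 255145) (nat_lit 0) .nil) .nil))) 
(.lf (nat_lit 535213) (.g (nat_lit 1752) (.e (nat_lit 65280) (nat_lit 168) (.e (nat_lit 163871) (nat_lit 2) (.e (nat_lit 196670) (nat_lit 14) (.e (nat_lit 73753) (nat_lit 8) .nil)))) (.g (nat_lit 0) (.e (nat_lit 257276) (nat_lit 0) .nil) .nil)))) (.nd (nat_lit 9) 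
(.lf (nat_lit 534957) (.g (nat_lit 1106) (.e (nat_lit 57686) (nat_lit 156) (.e (nat_lit 163903) (nat_lit 12) (.e (nat_lit 426568) (nat_lit 34) (.e (nat_lit 393281) (nat_lit 23) .nil)))) (.g (nat_lit 0) (.e (nat_lit 256406) (nat_lit 0) .nil) .nil))) 
(.lf (nat_lit 535469) (.g (nat_lit 1539) (.e (nat_lit 57848) (nat_lit 252) (.e (nat_lit 57370) (nat_lit 2) (.e (nat_lit 90158) (nat_lit 11) (.e (nat_lit 24630) (nat_lit 9) (.e (nat_lit 336454) (nat_lit 34) .nil))))) (.g (nat_lit 0) (.e (nat_lit 258332) (nat_lit 0) .nil) .nil)))))) (.nd (nat_lit 7) (.nd (nat_lit 8) (.nd (nat_lit 9) 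
(.lf (nat_lit 534637) (.g (nat_lit 2540) (.e (nat_lit 57572) (nat_lit 54) (.e (nat_lit 770071) (nat_lit 8) (.e (nat_lit 65568) (nat_lit 2) (.e (nat_lit 90170) (nat_lit 13) (.e (nat_lit 172113) (nat_lit 10) (.e (nat_lit 434242) (nat_lit 28) (.e (nat_lit 573472) (nat_lit 12) .nil))))))) (.g (nat_lit 1) (.e (nat_lit 255030) (nat_lit 0) .nil) .nil))) 
(.lf (nat_lit 535149) (.g (nat_lit 2247) (.e (nat_lit 57692) (nat_lit 156) (.e (nat_lit 163869) (nat_lit 2) (.e (nat_lit 196656) (nat_lit 11) (.e (nat_lit 16472) (nat_lit 14) .nil)))) (.g (nat_lit 0) (.e (nat_lit 256970) (nat_lit 0) .nil) .nil)))) (.nd (nat_lit 9) 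
(.lf (nat_lit 534893) (.g (nat_lit 1012) (.e (nat_lit 57610) (nat_lit 109) (.e (nat_lit 720909) (nat_lit 11) (.e (nat_lit 426197) (nat_lit 9) (.e (nat_lit 426533) (nat_lit 28) (.e (nat_lit 344084) (nat_lit 14) (.e (nat_lit 57810) (nat_lit 246) .nil)))))) (.g (nat_lit 1) (.e (nat_lit 255989) (nat_lit 0) .nil) .nil))) 
(.lf (nat_lit 535405) (.g (nat_lit 2060) (.e (nat_lit 57846) (nat_lit 252) (.e (nat_lit 57407) (nat_lit 12) (.e (nat_lit 336454) (nat_lit 34) (.e (nat_lit 483402) (nat_lit 26) .nil)))) (.g (nat_lit 0) (.e (nat_lit 258248) (nat_lit 0) .nil) .nil))))) (.nd (nat_lit 8) (.nd (nat_lit 9) 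
(.lf (nat_lit 534765) (.g (nat_lit 3901) (.e (nat_lit 57575) (nat_lit 55) (.e (nat_lit 778465) (nat_lit 11) (.e (nat_lit 24604) (nat_lit 2) (.e (nat_lit 90170) (nat_lit 13) (.e (nat_lit 172110) (nat_lit 10) .nil))))) (.g (nat_lit 0) (.e (nat_lit 255263) (nat_lit 0) .nil) .nil))) 
(.lf (nat_lit 535277) (.g (nat_lit 4760) (.e (nat_lit 57751) (nat_lit 201) (.e (nat_lit 3067) (nat_lit 190) (.e (nat_lit 475183) (nat_lit 29) (.e (nat_lit 557109) (nat_lit 15) (.e (nat_lit 188449) (nat_lit 22) (.e (nat_lit 196661) (nat_lit 12) .nil)))))) (.g (nat_lit 1) (.e (nat_lit 257702) (nat_lit 0) .nil) .nil)))) (.nd (nat_lit 9) 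
(.lf (nat_lit 535021) (.g (nat_lit 2993) (.e (nat_lit 57688) (nat_lit 156) (.e (nat_lit 163875) (nat_lit 3) (.e (nat_lit 204829) (nat_lit 18) (.e (nat_lit 57847) (nat_lit 252) (.e (nat_lit 57430) (nat_lit 16) (.e (nat_lit 368676) (nat_lit 21) (.e (nat_lit 516146) (nat_lit 9) (.e (nat_lit 426422) (nat_lit 16) .nil)))))))) (.g (nat_lit 1) (.e (nat_lit 256602) (nat_lit 0) .nil) .nil))) 
(.lf (nat_lit 535533) (.g (nat_lit 3546) (.e (nat_lit 57848) (nat_lit 252) (.e (nat_lit 57445) (nat_lit 19) (.e (nat_lit 393229) (nat_lit 9) (.e (nat_lit 336107) (nat_lit 9) .nil)))) (.g (nat_lit 0) (.e (nat_lit 258426) (nat_lit 0) .nil) .nil)))))))) (.nd (nat_lit 5) (.nd (nat_lit 6) (.nd (nat_lit 7) (.nd (nat_lit 8) (.nd (nat_lit 9) 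
(.lf (nat_lit 534557) (.g (nat_lit 2303) (.e (nat_lit 57480) (nat_lit 28) (.e (nat_lit 557107) (nat_lit 15) (.e (nat_lit 188450) (nat_lit 23) (.e (nat_lit 204852) (nat_lit 26) (.e (nat_lit 336257) (nat_lit 15) (.e (nat_lit 3673) (nat_lit 227) (.e (nat_lit 778316) (nat_lit 3) .nil))))))) (.g (nat_lit 1) (.e (nat_lit 254842) (nat_lit 0) .nil) .nil))) 
(.lf (nat_lit 535069) (.g (nat_lit 1472) (.e (nat_lit 57688) (nat_lit 156) (.e (nat_lit 163907) (nat_lit 12) (.e (nat_lit 426428) (nat_lit 17) (.e (nat_lit 90184) (nat_lit 17) .nil)))) (.g (nat_lit 0) (.e (nat_lit 256677) (nat_lit 0) .nil) .nil)))) (.nd (nat_lit 9) 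
(.lf (nat_lit 534813) (.g (nat_lit 1756) (.e (nat_lit 65280) (nat_lit 64) (.e (nat_lit 204877) (nat_lit 31) (.e (nat_lit 376862) (nat_lit 22) (.e (nat_lit 90185) (nat_lit 17) (.e (nat_lit 237582) (nat_lit 1) .nil))))) (.g (nat_lit 0) (.e (nat_lit 255588) (nat_lit 0) .nil) .nil))) 
(.lf (nat_lit 535325) (.g (nat_lit 1936) (.e (nat_lit 57811) (nat_lit 246) (.e (nat_lit 57879) (nat_lit 270) (.e (nat_lit 496) (nat_lit 39) (.e (nat_lit 483406) (nat_lit 26) (.e (nat_lit 385057) (nat_lit 22) (.e (nat_lit 499780) (nat_lit 1) .nil)))))) (.g (nat_lit 1) (.e (nat_lit 258028) (nat_lit 0) .nil) .nil))))) (.nd (nat_lit 8) (.nd (nat_lit 9) 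
(.lf (nat_lit 534685) (.g (nat_lit 3887) (.e (nat_lit 57574) (nat_lit 55) (.e (nat_lit 778465) (nat_lit 11) (.e (nat_lit 24607) (nat_lit 3) (.e (nat_lit 98359) (nat_lit 26) (.e (nat_lit 426286) (nat_lit 10) (.e (nat_lit 434247) (nat_lit 28) (.e (nat_lit 573477) (nat_lit 12) .nil))))))) (.g (nat_lit 1) (.e (nat_lit 255090) (nat_lit 0) .nil) .nil))) 
(.lf (nat_lit 535197) (.g (nat_lit 3468) (.e (nat_lit 57692) (nat_lit 156) (.e (nat_lit 163907) (nat_lit 12) (.e (nat_lit 426568) (nat_lit 34) (.e (nat_lit 393271) (nat_lit 23) (.e (nat_lit 426131) (nat_lit 3) (.e (nat_lit 204831) (nat_lit 18) .nil)))))) (.g (nat_lit 1) (.e (nat_lit 257086) (nat_lit 0) .nil) .nil)))) (.nd (nat_lit 9) 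
(.lf (nat_lit 534941) (.g (nat_lit 756) (.e (nat_lit 57686) (nat_lit 156) (.e (nat_lit 163902) (nat_lit 12) (.e (nat_lit 426478) (nat_lit 27) .nil))) (.g (nat_lit 0) (.e (nat_lit 256389) (nat_lit 0) .nil) .nil))) 
(.lf (nat_lit 535453) (.g (nat_lit 998) (.e (nat_lit 57847) (nat_lit 252) (.e (nat_lit 57407) (nat_lit 12) (.e (nat_lit 336372) (nat_lit 27) .nil))) (.g (nat_lit 0) (.e (nat_lit 258308) (nat_lit 0) .nil) .nil)))))) (.nd (nat_lit 7) (.nd (nat_lit 8) (.nd (nat_lit 9) 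
(.lf (nat_lit 534621) (.g (nat_lit 5707) (.e (nat_lit 57507) (nat_lit 39) (.e (nat_lit 647176) (nat_lit 0) (.e (nat_lit 2663) (nat_lit 167) (.e (nat_lit 196670) (nat_lit 14) (.e (nat_lit 73753) (nat_lit 8) (.e (nat_lit 557105) (nat_lit 14) (.e (nat_lit 180252) (nat_lit 10) (.e (nat_lit 573474) (nat_lit 12) .nil)))))))) (.g (nat_lit 1) (.e (nat_lit 254948) (nat_lit 0) .nil) .nil))) 
(.lf (nat_lit 535133) (.g (nat_lit 709) (.e (nat_lit 57691) (nat_lit 156) (.e (nat_lit 163907) (nat_lit 12) (.e (nat_lit 426478) (nat_lit 27) .nil))) (.g (nat_lit 0) (.e (nat_lit 256904) (nat_lit 0) .nil) .nil)))) (.nd (nat_lit 9) 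
(.lf (nat_lit 534877) (.g (nat_lit 2170) (.e (nat_lit 57610) (nat_lit 109) (.e (nat_lit 720909) (nat_lit 11) (.e (nat_lit 426187) (nat_lit 9) (.e (nat_lit 426550) (nat_lit 31) (.e (nat_lit 368656) (nat_lit 14) (.e (nat_lit 57811) (nat_lit 246) .nil)))))) (.g (nat_lit 1) (.e (nat_lit 255973) (nat_lit 0) .nil) .nil))) 
(.lf (nat_lit 535389) (.g (nat_lit 3248) (.e (nat_lit 57846) (nat_lit 252) (.e (nat_lit 57372) (nat_lit 2) (.e (nat_lit 90160) (nat_lit 11) (.e (nat_lit 24628) (nat_lit 9) (.e (nat_lit 336454) (nat_lit 34) (.e (nat_lit 483366) (nat_lit 18) .nil)))))) (.g (nat_lit 1) (.e (nat_lit 258220) (nat_lit 0) .nil) .nil))))) (.nd (nat_lit 8) (.nd (nat_lit 9) 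
(.lf (nat_lit 534749) (.g (nat_lit 2948) (.e (nat_lit 57574) (nat_lit 55) (.e (nat_lit 778466) (nat_lit 11) (.e (nat_lit 24608) (nat_lit 3) (.e (nat_lit 98380) (nat_lit 31) .nil)))) (.g (nat_lit 0) (.e (nat_lit 255199) (nat_lit 0) .nil) .nil))) 
(.lf (nat_lit 535261) (.g (nat_lit 4079) (.e (nat_lit 57750) (nat_lit 201) (.e (nat_lit 3064) (nat_lit 190) (.e (nat_lit 475185) (nat_lit 29) (.e (nat_lit 557101) (nat_lit 13) (.e (nat_lit 172097) (nat_lit 9) (.e (nat_lit 426125) (nat_lit 2) (.e (nat_lit 196661) (nat_lit 12) .nil))))))) (.g (nat_lit 1) (.e (nat_lit 257525) (nat_lit 0) .nil) .nil)))) (.nd (nat_lit 9) 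
(.lf (nat_lit 535005) (.g (nat_lit 1541) (.e (nat_lit 57687) (nat_lit 156) (.e (nat_lit 163933) (nat_lit 17) (.e (nat_lit 466971) (nat_lit 21) (.e (nat_lit 164151) (nat_lit 152) .nil)))) (.g (nat_lit 0) (.e (nat_lit 256537) (nat_lit 0) .nil) .nil))) 
(.lf (nat_lit 535517) (.g (nat_lit 1064) (.e (nat_lit 57848) (nat_lit 252) (.e (nat_lit 57407) (nat_lit 12) (.e (nat_lit 336456) (nat_lit 34) (.e (nat_lit 483386) (nat_lit 23) .nil)))) (.g (nat_lit 0) (.e (nat_lit 258410) (nat_lit 0) .nil) .nil))))))) (.nd (nat_lit 6) (.nd (nat_lit 7) (.nd (nat_lit 8) (.nd (nat_lit 9) 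
(.lf (nat_lit 534589) (.g (nat_lit 3072) (.e (nat_lit 57502) (nat_lit 38) (.e (nat_lit 638995) (nat_lit 7) (.e (nat_lit 163979) (nat_lit 30) (.e (nat_lit 573487) (nat_lit 14) (.e (nat_lit 73755) (nat_lit 8) .nil))))) (.g (nat_lit 0) (.e (nat_lit 254895) (nat_lit 0) .nil) .nil))) 
(.lf (nat_lit 535101) (.g (nat_lit 807) (.e (nat_lit 57690) (nat_lit 156) (.e (nat_lit 163913) (nat_lit 12) (.e (nat_lit 426483) (nat_lit 27) .nil))) (.g (nat_lit 0) (.e (nat_lit 256835) (nat_lit 0) .nil) .nil)))) (.nd (nat_lit 9) 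
(.lf (nat_lit 534845) (.g (nat_lit 964) (.e (nat_lit 57596) (nat_lit 82) (.e (nat_lit 499900) (nat_lit 7) (.e (nat_lit 24655) (nat_lit 13) (.e (nat_lit 401152) (nat_lit 7) .nil)))) (.g (nat_lit 0) (.e (nat_lit 255800) (nat_lit 0) .nil) .nil))) 
(.lf (nat_lit 535357) (.g (nat_lit 2761) (.e (nat_lit 57844) (nat_lit 252) (.e (nat_lit 57375) (nat_lit 2) (.e (nat_lit 90160) (nat_lit 11) (.e (nat_lit 24630) (nat_lit 9) (.e (nat_lit 336456) (nat_lit 34) .nil))))) (.g (nat_lit 0) (.e (nat_lit 258174) (nat_lit 0) .nil) .nil))))) (.nd (nat_lit 8) (.nd (nat_lit 9) 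
(.lf (nat_lit 534717) (.g (nat_lit 3985) (.e (nat_lit 57574) (nat_lit 55) (.e (nat_lit 778466) (nat_lit 11) (.e (nat_lit 24604) (nat_lit 2) (.e (nat_lit 90177) (nat_lit 15) (.e (nat_lit 188434) (nat_lit 20) (.e (nat_lit 3304) (nat_lit 202) (.e (nat_lit 573477) (nat_lit 12) .nil))))))) (.g (nat_lit 1) (.e (nat_lit 255162) (nat_lit 0) .nil) .nil))) 
(.lf (nat_lit 535229) (.g (nat_lit 1921) (.e (nat_lit 57711) (nat_lit 176) (.e (nat_lit 1348) (nat_lit 102) (.e (nat_lit 286735) (nat_lit 3) (.e (nat_lit 98360) (nat_lit 26) .nil)))) (.g (nat_lit 0) (.e (nat_lit 257308) (nat_lit 0) .nil) .nil)))) (.nd (nat_lit 9) 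
(.lf (nat_lit 534973) (.g (nat_lit 647) (.e (nat_lit 57687) (nat_lit 156) (.e (nat_lit 163902) (nat_lit 12) (.e (nat_lit 426436) (nat_lit 18) .nil))) (.g (nat_lit 0) (.e (nat_lit 256469) (nat_lit 0) .nil) .nil))) 
(.lf (nat_lit 535485) (.g (nat_lit 3574) (.e (nat_lit 57848) (nat_lit 252) (.e (nat_lit 57374) (nat_lit 2) (.e (nat_lit 90158) (nat_lit 11) (.e (nat_lit 24655) (nat_lit 13) (.e (nat_lit 393229) (nat_lit 9) (.e (nat_lit 335994) (nat_lit 1) .nil)))))) (.g (nat_lit 1) (.e (nat_lit 258357) (nat_lit 0) .nil) .nil)))))) (.nd (nat_lit 7) (.nd (nat_lit 8) (.nd (nat_lit 9) 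
(.lf (nat_lit 534653) (.g (nat_lit 4356) (.e (nat_lit 57572) (nat_lit 54) (.e (nat_lit 770072) (nat_lit 8) (.e (nat_lit 65571) (nat_lit 3) (.e (nat_lit 98359) (nat_lit 26) (.e (nat_lit 426286) (nat_lit 10) (.e (nat_lit 434245) (nat_lit 28) (.e (nat_lit 573473) (nat_lit 12) .nil))))))) (.g (nat_lit 1) (.e (nat_lit 255051) (nat_lit 0) .nil) .nil))) 
(.lf (nat_lit 535165) (.g (nat_lit 422) (.e (nat_lit 57692) (nat_lit 156) (.e (nat_lit 163905) (nat_lit 12) (.e (nat_lit 426432) (nat_lit 17) .nil))) (.g (nat_lit 0) (.e (nat_lit 256997) (nat_lit 0) .nil) .nil)))) (.nd (nat_lit 9) 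
(.lf (nat_lit 534909) (.g (nat_lit 1011) (.e (nat_lit 65280) (nat_lit 144) (.e (nat_lit 163902) (nat_lit 12) (.e (nat_lit 426438) (nat_lit 18) (.e (nat_lit 98358) (nat_lit 26) .nil)))) (.g (nat_lit 0) (.e (nat_lit 256129) (nat_lit 0) .nil) .nil))) 
(.lf (nat_lit 535421) (.g (nat_lit 560) (.e (nat_lit 57847) (nat_lit 252) (.e (nat_lit 57374) (nat_lit 2) (.e (nat_lit 90158) (nat_lit 11) .nil))) (.g (nat_lit 0) (.e (nat_lit 258268) (nat_lit 0) .nil) .nil))))) (.nd (nat_lit 8) (.nd (nat_lit 9) 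
(.lf (nat_lit 534781) (.g (nat_lit 4596) (.e (nat_lit 57575) (nat_lit 55) (.e (nat_lit 778466) (nat_lit 11) (.e (nat_lit 24608) (nat_lit 3) (.e (nat_lit 98380) (nat_lit 31) (.e (nat_lit 466967) (nat_lit 20) (.e (nat_lit 3305) (nat_lit 202) (.e (nat_lit 573477) (nat_lit 12) .nil))))))) (.g (nat_lit 1) (.e (nat_lit 255282) (nat_lit 0) .nil) .nil))) 
(.lf (nat_lit 535293) (.g (nat_lit 448) (.e (nat_lit 57819) (nat_lit 248) (.e (nat_lit 164359) (nat_lit 246) (.e (nat_lit 2679) (nat_lit 168) .nil))) (.g (nat_lit 0) (.e (nat_lit 257981) (nat_lit 0) .nil) .nil)))) (.nd (nat_lit 9) 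
(.lf (nat_lit 535037) (.g (nat_lit 220) (.e (nat_lit 57688) (nat_lit 156) (.e (nat_lit 163902) (nat_lit 12) (.e (nat_lit 426566) (nat_lit 34) .nil))) (.g (nat_lit 0) (.e (nat_lit 256627) (nat_lit 0) .nil) .nil))) 
(.lf (nat_lit 535549) (.g (nat_lit 2413) (.e (nat_lit 57849) (nat_lit 252) (.e (nat_lit 57375) (nat_lit 2) (.e (nat_lit 90158) (nat_lit 11) (.e (nat_lit 24628) (nat_lit 9) (.e (nat_lit 336370) (nat_lit 27) (.e (nat_lit 426497) (nat_lit 27) (.e (nat_lit 335986) (nat_lit 1) .nil))))))) (.g (nat_lit 1) (.e (nat_lit 258445) (nat_lit 0) .nil) .nil))))))))))) 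
(.nd (nat_lit 2) (.nd (nat_lit 3) (.nd (nat_lit 4) (.nd (nat_lit 5) (.nd (nat_lit 6) 
(.nd (nat_lit 7) (.nd (nat_lit 8) (.nd (nat_lit 9) 
(.lf (nat_lit 534531) (.g (nat_lit 2429) (.e (nat_lit 57479) (nat_lit 28) (.e (nat_lit 557105) (nat_lit 14) (.e (nat_lit 180252) (nat_lit 10) (.e (nat_lit 573489) (nat_lit 14) (.e (nat_lit 73748) (nat_lit 3) (.e (nat_lit 516100) (nat_lit 0) (.e (nat_lit 7936) (nat_lit 216) (.e (nat_lit 688167) (nat_lit 15) .nil)))))))) (.g (nat_lit 1) (.e (nat_lit 254745) (nat_lit 0) .nil) .nil))) 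
(.lf (nat_lit 535043) (.g (nat_lit 516) (.e (nat_lit 57688) (nat_lit 156) (.e (nat_lit 163903) (nat_lit 12) (.e (nat_lit 426432) (nat_lit 17) .nil))) (.g (nat_lit 0) (.e (nat_lit 256635) (nat_lit 0) .nil) .nil)))) (.nd (nat_lit 9) 
(.lf (nat_lit 534787) (.g (nat_lit 2921) (.e (nat_lit 57575) (nat_lit 55) (.e (nat_lit 778466) (nat_lit 11) (.e (nat_lit 24617) (nat_lit 7) (.e (nat_lit 319534) (nat_lit 16) (.e (nat_lit 286756) (nat_lit 10) (.e (nat_lit 344165) (nat_lit 38) (.e (nat_lit 655398) (nat_lit 12) .nil))))))) (.g (nat_lit 1) (.e (nat_lit 255289) (nat_lit 0) .nil) .nil))) 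
(.lf (nat_lit 535299) (.g (nat_lit 1593) (.e (nat_lit 57808) (nat_lit 246) (.e (nat_lit 57879) (nat_lit 270) (.e (nat_lit 496) (nat_lit 39) (.e (nat_lit 483383) (nat_lit 23) (.e (nat_lit 343808) (nat_lit 17) (.e (nat_lit 196698) (nat_lit 19) .nil)))))) (.g (nat_lit 1) (.e (nat_lit 257996) (nat_lit 0) .nil) .nil))))) (.nd (nat_lit 8) (.nd (nat_lit 9) 
(.lf (nat_lit 534659) (.g (nat_lit 4413) (.e (nat_lit 57572) (nat_lit 54) (.e (nat_lit 770072) (nat_lit 8) (.e (nat_lit 65571) (nat_lit 3) (.e (nat_lit 98374) (nat_lit 29) (.e (nat_lit 450586) (nat_lit 10) (.e (nat_lit 573474) (nat_lit 12) .nil)))))) (.g (nat_lit 1) (.e (nat_lit 255057) (nat_lit 0) .nil) .nil))) 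
(.lf (nat_lit 535171) (.g (nat_lit 554) (.e (nat_lit 57692) (nat_lit 156) (.e (nat_lit 163905) (nat_lit 12) (.e (nat_lit 426489) (nat_lit 27) .nil))) (.g (nat_lit 0) (.e (nat_lit 257020) (nat_lit 0) .nil) .nil)))) (.nd (nat_lit 9) 
(.lf (nat_lit 534915) (.g (nat_lit 743) (.e (nat_lit 57663) (nat_lit 152) (.e (nat_lit 2725) (nat_lit 172) (.e (nat_lit 237573) (nat_lit 0) .nil))) (.g (nat_lit 0) (.e (nat_lit 256259) (nat_lit 0) .nil) .nil))) 
(.lf (nat_lit 535427) (.g (nat_lit 1835) (.e (nat_lit 57847) (nat_lit 252) (.e (nat_lit 57375) (nat_lit 2) (.e (nat_lit 90160) (nat_lit 11) (.e (nat_lit 24636) (nat_lit 9) (.e (nat_lit 343808) (nat_lit 34) (.e (nat_lit 483366) (nat_lit 18) .nil)))))) (.g (nat_lit 1) (.e (nat_lit 258275) (nat_lit 0) .nil) .nil)))))) (.nd (nat_lit 7) (.nd (nat_lit 8) (.nd (nat_lit 9) 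
(.lf (nat_lit 534595) (.g (nat_lit 2791) (.e (nat_lit 57502) (nat_lit 38) (.e (nat_lit 638996) (nat_lit 7) (.e (nat_lit 163977) (nat_lit 30) (.e (nat_lit 573487) (nat_lit 14) (.e (nat_lit 73754) (nat_lit 8) .nil))))) (.g (nat_lit 0) (.e (nat_lit 254901) (nat_lit 0) .nil) .nil))) 
(.lf (nat_lit 535107) (.g (nat_lit 2561) (.e (nat_lit 57691) (nat_lit 156) (.e (nat_lit 163875) (nat_lit 3) (.e (nat_lit 204830) (nat_lit 18) (.e (nat_lit 57854) (nat_lit 252) (.e (nat_lit 57431) (nat_lit 16) .nil))))) (.g (nat_lit 0) (.e (nat_lit 256848) (nat_lit 0) .nil) .nil)))) (.nd (nat_lit 9) 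
(.lf (nat_lit 534851) (.g (nat_lit 677) (.e (nat_lit 65280) (nat_lit 115) (.e (nat_lit 770072) (nat_lit 8) (.e (nat_lit 65582) (nat_lit 7) .nil))) (.g (nat_lit 0) (.e (nat_lit 255882) (nat_lit 0) .nil) .nil))) 
(.lf (nat_lit 535363) (.g (nat_lit 293) (.e (nat_lit 57844) (nat_lit 252) (.e (nat_lit 57388) (nat_lit 5) (.e (nat_lit 114696) (nat_lit 11) .nil))) (.g (nat_lit 0) (.e (nat_lit 258180) (nat_lit 0) .nil) .nil))))) (.nd (nat_lit 8) (.nd (nat_lit 9) 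
(.lf (nat_lit 534723) (.g (nat_lit 2625) (.e (nat_lit 57574) (nat_lit 55) (.e (nat_lit 778466) (nat_lit 11) (.e (nat_lit 24604) (nat_lit 2) (.e (nat_lit 90178) (nat_lit 15) (.e (nat_lit 188441) (nat_lit 20) .nil))))) (.g (nat_lit 0) (.e (nat_lit 255168) (nat_lit 0) .nil) .nil))) 
(.lf (nat_lit 535235) (.g (nat_lit 1875) (.e (nat_lit 57713) (nat_lit 176) (.e (nat_lit 1348) (nat_lit 102) (.e (nat_lit 286735) (nat_lit 3) (.e (nat_lit 98362) (nat_lit 26) .nil)))) (.g (nat_lit 0) (.e (nat_lit 257352) (nat_lit 0) .nil) .nil)))) (.nd (nat_lit 9) 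
(.lf (nat_lit 534979) (.g (nat_lit 2383) (.e (nat_lit 57687) (nat_lit 156) (.e (nat_lit 163903) (nat_lit 12) (.e (nat_lit 426428) (nat_lit 17) (.e (nat_lit 90170) (nat_lit 13) (.e (nat_lit 172121) (nat_lit 13) .nil))))) (.g (nat_lit 0) (.e (nat_lit 256476) (nat_lit 0) .nil) .nil))) 
(.lf (nat_lit 535491) (.g (nat_lit 1040) (.e (nat_lit 57848) (nat_lit 252) (.e (nat_lit 57375) (nat_lit 2) (.e (nat_lit 90159) (nat_lit 11) (.e (nat_lit 24657) (nat_lit 13) (.e (nat_lit 401152) (nat_lit 9) .nil))))) (.g (nat_lit 0) (.e (nat_lit 258363) (nat_lit 0) .nil) .nil))))))) (.nd (nat_lit 6) (.nd (nat_lit 7) (.nd (nat_lit 8) (.nd (nat_lit 9) 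
(.lf (nat_lit 534563) (.g (nat_lit 2946) (.e (nat_lit 57480) (nat_lit 28) (.e (nat_lit 557107) (nat_lit 15) (.e (nat_lit 188450) (nat_lit 23) (.e (nat_lit 204855) (nat_lit 26) (.e (nat_lit 336290) (nat_lit 15) (.e (nat_lit 3711) (nat_lit 227) (.e (nat_lit 778316) (nat_lit 3) .nil))))))) (.g (nat_lit 1) (.e (nat_lit 254848) (nat_lit 0) .nil) .nil))) 
(.lf (nat_lit 535075) (.g (nat_lit 3085) (.e (nat_lit 57688) (nat_lit 156) (.e (nat_lit 163907) (nat_lit 12) (.e (nat_lit 426438) (nat_lit 18) (.e (nat_lit 98370) (nat_lit 28) (.e (nat_lit 442385) (nat_lit 11) (.e (nat_lit 335995) (nat_lit 1) .nil)))))) (.g (nat_lit 1) (.e (nat_lit 256683) (nat_lit 0) .nil) .nil)))) (.nd (nat_lit 9) 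
(.lf (nat_lit 534819) (.g (nat_lit 986) (.e (nat_lit 65280) (nat_lit 65) (.e (nat_lit 213032) (nat_lit 11) (.e (nat_lit 24599) (nat_lit 1) .nil))) (.g (nat_lit 0) (.e (nat_lit 255599) (nat_lit 0) .nil) .nil))) 
(.lf (nat_lit 535331) (.g (nat_lit 2820) (.e (nat_lit 57829) (nat_lit 250) (.e (nat_lit 1183) (nat_lit 87) (.e (nat_lit 57480) (nat_lit 28) (.e (nat_lit 557105) (nat_lit 14) (.e (nat_lit 180251) (nat_lit 10) .nil))))) (.g (nat_lit 0) (.e (nat_lit 258082) (nat_lit 0) .nil) .nil))))) (.nd (nat_lit 8) (.nd (nat_lit 9) 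
(.lf (nat_lit 534691) (.g (nat_lit 2932) (.e (nat_lit 57574) (nat_lit 55) (.e (nat_lit 778465) (nat_lit 11) (.e (nat_lit 24608) (nat_lit 3) (.e (nat_lit 98359) (nat_lit 26) (.e (nat_lit 426286) (nat_lit 10) (.e (nat_lit 434247) (nat_lit 28) (.e (nat_lit 573478) (nat_lit 12) .nil))))))) (.g (nat_lit 1) (.e (nat_lit 255096) (nat_lit 0) .nil) .nil))) 
(.lf (nat_lit 535203) (.g (nat_lit 1413) (.e (nat_lit 57694) (nat_lit 157) (.e (nat_lit 229415) (nat_lit 15) (.e (nat_lit 450563) (nat_lit 0) (.e (nat_lit 6254) (nat_lit 337) .nil)))) (.g (nat_lit 0) (.e (nat_lit 257140) (nat_lit 0) .nil) .nil)))) (.nd (nat_lit 9) 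
(.lf (nat_lit 534947) (.g (nat_lit 741) (.e (nat_lit 57686) (nat_lit 156) (.e (nat_lit 163903) (nat_lit 12) (.e (nat_lit 426432) (nat_lit 17) .nil))) (.g (nat_lit 0) (.e (nat_lit 256395) (nat_lit 0) .nil) .nil))) 
(.lf (nat_lit 535459) (.g (nat_lit 3196) (.e (nat_lit 57847) (nat_lit 252) (.e (nat_lit 57411) (nat_lit 12) (.e (nat_lit 336316) (nat_lit 17) (.e (nat_lit 196666) (nat_lit 13) (.e (nat_lit 65617) (nat_lit 10) (.e (nat_lit 344096) (nat_lit 18) (.e (nat_lit 7695) (nat_lit 412) (.e (nat_lit 57367) (nat_lit 1) .nil)))))))) (.g (nat_lit 1) (.e (nat_lit 258316) (nat_lit 0) .nil) .nil)))))) 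
(.nd (nat_lit 7) (.nd (nat_lit 8) (.nd (nat_lit 9) 
(.lf (nat_lit 534627) (.g (nat_lit 1430) (.e (nat_lit 57508) (nat_lit 39) (.e (nat_lit 647199) (nat_lit 11) (.e (nat_lit 16392) (nat_lit 0) (.e (nat_lit 3543) (nat_lit 219) .nil)))) (.g (nat_lit 0) (.e (nat_lit 254976) (nat_lit 0) .nil) .nil))) 
(.lf (nat_lit 535139) (.g (nat_lit 2785) (.e (nat_lit 57691) (nat_lit 156) (.e (nat_lit 163938) (nat_lit 18) (.e (nat_lit 475179) (nat_lit 24) (.e (nat_lit 516174) (nat_lit 14) (.e (nat_lit 466954) (nat_lit 11) (.e (nat_lit 335994) (nat_lit 1) .nil)))))) (.g (nat_lit 1) (.e (nat_lit 256936) (nat_lit 0) .nil) .nil)))) (.nd (nat_lit 9) 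
(.lf (nat_lit 534883) (.g (nat_lit 1835) (.e (nat_lit 57610) (nat_lit 109) (.e (nat_lit 720909) (nat_lit 11) (.e (nat_lit 426188) (nat_lit 9) (.e (nat_lit 426550) (nat_lit 31) (.e (nat_lit 368656) (nat_lit 14) (.e (nat_lit 57810) (nat_lit 246) .nil)))))) (.g (nat_lit 1) (.e (nat_lit 255979) (nat_lit 0) .nil) .nil))) 
(.lf (nat_lit 535395) (.g (nat_lit 3390) (.e (nat_lit 57846) (nat_lit 252) (.e (nat_lit 57377) (nat_lit 3) (.e (nat_lit 98317) (nat_lit 9) (.e (nat_lit 336074) (nat_lit 9) (.e (nat_lit 336456) (nat_lit 34) .nil))))) (.g (nat_lit 0) (.e (nat_lit 258227) (nat_lit 0) .nil) .nil))))) (.nd (nat_lit 8) (.nd (nat_lit 9) 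
(.lf (nat_lit 534755) (.g (nat_lit 2861) (.e (nat_lit 57574) (nat_lit 55) (.e (nat_lit 778466) (nat_lit 11) (.e (nat_lit 24617) (nat_lit 7) (.e (nat_lit 319533) (nat_lit 16) (.e (nat_lit 286753) (nat_lit 10) (.e (nat_lit 344161) (nat_lit 37) (.e (nat_lit 647201) (nat_lit 12) .nil))))))) (.g (nat_lit 1) (.e (nat_lit 255209) (nat_lit 0) .nil) .nil))) 
(.lf (nat_lit 535267) (.g (nat_lit 4823) (.e (nat_lit 57750) (nat_lit 201) (.e (nat_lit 3067) (nat_lit 190) (.e (nat_lit 475185) (nat_lit 29) (.e (nat_lit 557101) (nat_lit 13) (.e (nat_lit 172097) (nat_lit 9) (.e (nat_lit 426125) (nat_lit 2) (.e (nat_lit 196661) (nat_lit 12) .nil))))))) (.g (nat_lit 1) (.e (nat_lit 257532) (nat_lit 0) .nil) .nil)))) (.nd (nat_lit 9) 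
(.lf (nat_lit 535011) (.g (nat_lit 1288) (.e (nat_lit 57688) (nat_lit 156) (.e (nat_lit 163869) (nat_lit 2) (.e (nat_lit 196654) (nat_lit 11) .nil))) (.g (nat_lit 0) (.e (nat_lit 256575) (nat_lit 0) .nil) .nil))) 
(.lf (nat_lit 535523) (.g (nat_lit 1677) (.e (nat_lit 57848) (nat_lit 252) (.e (nat_lit 57411) (nat_lit 12) (.e (nat_lit 336454) (nat_lit 34) (.e (nat_lit 483385) (nat_lit 23) (.e (nat_lit 336324) (nat_lit 18) .nil))))) (.g (nat_lit 0) (.e (nat_lit 258416) (nat_lit 0) .nil) .nil)))))))) (.nd (nat_lit 5) (.nd (nat_lit 6) (.nd (nat_lit 7) (.nd (nat_lit 8) (.nd (nat_lit 9) 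
(.lf (nat_lit 534547) (.g (nat_lit 5057) (.e (nat_lit 57480) (nat_lit 28) (.e (nat_lit 557098) (nat_lit 13) (.e (nat_lit 172116) (nat_lit 10) (.e (nat_lit 434231) (nat_lit 23) (.e (nat_lit 532535) (nat_lit 9) (.e (nat_lit 336295) (nat_lit 15) (.e (nat_lit 3632) (nat_lit 227) (.e (nat_lit 778317) (nat_lit 3) .nil)))))))) (.g (nat_lit 1) (.e (nat_lit 254828) (nat_lit 0) .nil) .nil))) 
(.lf (nat_lit 535059) (.g (nat_lit 886) (.e (nat_lit 57688) (nat_lit 156) (.e (nat_lit 163904) (nat_lit 12) (.e (nat_lit 426568) (nat_lit 34) (.e (nat_lit 393286) (nat_lit 25) .nil)))) (.g (nat_lit 0) (.e (nat_lit 256655) (nat_lit 0) .nil) .nil)))) (.nd (nat_lit 9) 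
(.lf (nat_lit 534803) (.g (nat_lit 2109) (.e (nat_lit 65280) (nat_lit 46) (.e (nat_lit 704738) (nat_lit 11) (.e (nat_lit 16425) (nat_lit 7) (.e (nat_lit 409648) (nat_lit 18) (.e (nat_lit 303137) (nat_lit 10) .nil))))) (.g (nat_lit 0) (.e (nat_lit 255408) (nat_lit 0) .nil) .nil))) 
(.lf (nat_lit 535315) (.g (nat_lit 1459) (.e (nat_lit 57810) (nat_lit 246) (.e (nat_lit 57883) (nat_lit 270) (.e (nat_lit 371) (nat_lit 32) (.e (nat_lit 426540) (nat_lit 29) (.e (nat_lit 360192) (nat_lit 2) (.e (nat_lit 196698) (nat_lit 19) .nil)))))) (.g (nat_lit 1) (.e (nat_lit 258015) (nat_lit 0) .nil) .nil))))) (.nd (nat_lit 8) (.nd (nat_lit 9) 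
(.lf (nat_lit 534675) (.g (nat_lit 4043) (.e (nat_lit 57574) (nat_lit 55) (.e (nat_lit 778465) (nat_lit 11) (.e (nat_lit 24604) (nat_lit 2) (.e (nat_lit 90170) (nat_lit 13) (.e (nat_lit 172113) (nat_lit 10) (.e (nat_lit 434247) (nat_lit 28) (.e (nat_lit 573478) (nat_lit 12) .nil))))))) (.g (nat_lit 1) (.e (nat_lit 255080) (nat_lit 0) .nil) .nil))) 
(.lf (nat_lit 535187) (.g (nat_lit 1335) (.e (nat_lit 57692) (nat_lit 156) (.e (nat_lit 163907) (nat_lit 12) (.e (nat_lit 426428) (nat_lit 17) (.e (nat_lit 90184) (nat_lit 17) .nil)))) (.g (nat_lit 0) (.e (nat_lit 257064) (nat_lit 0) .nil) .nil)))) (.nd (nat_lit 9) 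
(.lf (nat_lit 534931) (.g (nat_lit 2138) (.e (nat_lit 57686) (nat_lit 156) (.e (nat_lit 163875) (nat_lit 3) (.e (nat_lit 204837) (nat_lit 20) (.e (nat_lit 114718) (nat_lit 23) (.e (nat_lit 98367) (nat_lit 27) .nil))))) (.g (nat_lit 0) (.e (nat_lit 256376) (nat_lit 0) .nil) .nil))) 
(.lf (nat_lit 535443) (.g (nat_lit 3840) (.e (nat_lit 57847) (nat_lit 252) (.e (nat_lit 57407) (nat_lit 12) (.e (nat_lit 336316) (nat_lit 17) (.e (nat_lit 196666) (nat_lit 13) (.e (nat_lit 65610) (nat_lit 10) (.e (nat_lit 344090) (nat_lit 18) (.e (nat_lit 7697) (nat_lit 412) (.e (nat_lit 57366) (nat_lit 1) .nil)))))))) (.g (nat_lit 1) (.e (nat_lit 258297) (nat_lit 0) .nil) .nil)))))) 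
(.nd (nat_lit 7) (.nd (nat_lit 8) (.nd (nat_lit 9) 
(.lf (nat_lit 534611) (.g (nat_lit 3282) (.e (nat_lit 57503) (nat_lit 38) (.e (nat_lit 638996) (nat_lit 7) (.e (nat_lit 163978) (nat_lit 30) (.e (nat_lit 573487) (nat_lit 14) (.e (nat_lit 73753) (nat_lit 8) (.e (nat_lit 557105) (nat_lit 14) (.e (nat_lit 180252) (nat_lit 10) (.e (nat_lit 573473) (nat_lit 12) .nil)))))))) (.g (nat_lit 1) (.e (nat_lit 254919) (nat_lit 0) .nil) .nil))) 
(.lf (nat_lit 535123) (.g (nat_lit 1415) (.e (nat_lit 57691) (nat_lit 156) (.e (nat_lit 163906) (nat_lit 12) (.e (nat_lit 426428) (nat_lit 17) (.e (nat_lit 90170) (nat_lit 13) (.e (nat_lit 172121) (nat_lit 13) .nil))))) (.g (nat_lit 0) (.e (nat_lit 256874) (nat_lit 0) .nil) .nil)))) (.nd (nat_lit 9) 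
(.lf (nat_lit 534867) (.g (nat_lit 3900) (.e (nat_lit 57615) (nat_lit 116) (.e (nat_lit 778466) (nat_lit 11) (.e (nat_lit 24617) (nat_lit 7) (.e (nat_lit 319534) (nat_lit 16) (.e (nat_lit 286756) (nat_lit 10) (.e (nat_lit 344169) (nat_lit 40) (.e (nat_lit 679680) (nat_lit 15) .nil))))))) (.g (nat_lit 1) (.e (nat_lit 255904) (nat_lit 0) .nil) .nil))) 
(.lf (nat_lit 535379) (.g (nat_lit 1351) (.e (nat_lit 57845) (nat_lit 252) (.e (nat_lit 57388) (nat_lit 5) (.e (nat_lit 114698) (nat_lit 11) (.e (nat_lit 426198) (nat_lit 9) .nil)))) (.g (nat_lit 0) (.e (nat_lit 258208) (nat_lit 0) .nil) .nil))))) (.nd (nat_lit 8) (.nd (nat_lit 9) 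
(.lf (nat_lit 534739) (.g (nat_lit 4136) (.e (nat_lit 57574) (nat_lit 55) (.e (nat_lit 778466) (nat_lit 11) (.e (nat_lit 24608) (nat_lit 3) (.e (nat_lit 98358) (nat_lit 26) (.e (nat_lit 426272) (nat_lit 10) .nil))))) (.g (nat_lit 0) (.e (nat_lit 255187) (nat_lit 0) .nil) .nil))) 
(.lf (nat_lit 535251) (.g (nat_lit 2065) (.e (nat_lit 57735) (nat_lit 183) (.e (nat_lit 57447) (nat_lit 19) (.e (nat_lit 393238) (nat_lit 17) (.e (nat_lit 3486) (nat_lit 218) .nil)))) (.g (nat_lit 0) (.e (nat_lit 257424) (nat_lit 0) .nil) .nil)))) (.nd (nat_lit 9) 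
(.lf (nat_lit 534995) (.g (nat_lit 1345) (.e (nat_lit 57687) (nat_lit 156) (.e (nat_lit 163905) (nat_lit 12) (.e (nat_lit 426479) (nat_lit 27) (.e (nat_lit 336430) (nat_lit 29) .nil)))) (.g (nat_lit 0) (.e (nat_lit 256493) (nat_lit 0) .nil) .nil))) 
(.lf (nat_lit 535507) (.g (nat_lit 1933) (.e (nat_lit 57848) (nat_lit 252) (.e (nat_lit 57407) (nat_lit 12) (.e (nat_lit 336454) (nat_lit 34) (.e (nat_lit 483378) (nat_lit 23) .nil)))) (.g (nat_lit 0) (.e (nat_lit 258400) (nat_lit 0) .nil) .nil))))))) (.nd (nat_lit 6) (.nd (nat_lit 7) (.nd (nat_lit 8) (.nd (nat_lit 9) 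
(.lf (nat_lit 534579) (.g (nat_lit 3249) (.e (nat_lit 57480) (nat_lit 28) (.e (nat_lit 557109) (nat_lit 15) (.e (nat_lit 188450) (nat_lit 23) (.e (nat_lit 204855) (nat_lit 26) (.e (nat_lit 336290) (nat_lit 15) (.e (nat_lit 3714) (nat_lit 227) (.e (nat_lit 786176) (nat_lit 3) .nil))))))) (.g (nat_lit 1) (.e (nat_lit 254864) (nat_lit 0) .nil) .nil))) 
(.lf (nat_lit 535091) (.g (nat_lit 1870) (.e (nat_lit 57688) (nat_lit 156) (.e (nat_lit 163939) (nat_lit 18) (.e (nat_lit 475179) (nat_lit 24) (.e (nat_lit 516176) (nat_lit 14) (.e (nat_lit 466953) (nat_lit 11) .nil))))) (.g (nat_lit 0) (.e (nat_lit 256773) (nat_lit 0) .nil) .nil)))) (.nd (nat_lit 9) 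
(.lf (nat_lit 534835) (.g (nat_lit 2264) (.e (nat_lit 57592) (nat_lit 73) (.e (nat_lit 426316) (nat_lit 12) (.e (nat_lit 475185) (nat_lit 29) (.e (nat_lit 557109) (nat_lit 15) (.e (nat_lit 188434) (nat_lit 20) .nil))))) (.g (nat_lit 0) (.e (nat_lit 255748) (nat_lit 0) .nil) .nil))) 
(.lf (nat_lit 535347) (.g (nat_lit 546) (.e (nat_lit 57857) (nat_lit 254) (.e (nat_lit 163908) (nat_lit 12) (.e (nat_lit 426279) (nat_lit 10) .nil))) (.g (nat_lit 0) (.e (nat_lit 258131) (nat_lit 0) .nil) .nil))))) (.nd (nat_lit 8) (.nd (nat_lit 9) 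
(.lf (nat_lit 534707) (.g (nat_lit 4558) (.e (nat_lit 57574) (nat_lit 55) (.e (nat_lit 778466) (nat_lit 11) (.e (nat_lit 24604) (nat_lit 2) (.e (nat_lit 90170) (nat_lit 13) (.e (nat_lit 172106) (nat_lit 10) (.e (nat_lit 434246) (nat_lit 28) (.e (nat_lit 573478) (nat_lit 12) .nil))))))) (.g (nat_lit 1) (.e (nat_lit 255151) (nat_lit 0) .nil) .nil))) 
(.lf (nat_lit 535219) (.g (nat_lit 1319) (.e (nat_lit 65280) (nat_lit 168) (.e (nat_lit 163875) (nat_lit 3) (.e (nat_lit 204862) (nat_lit 27) (.e (nat_lit 344129) (nat_lit 26) .nil)))) (.g (nat_lit 0) (.e (nat_lit 257285) (nat_lit 0) .nil) .nil)))) (.nd (nat_lit 9) 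
(.lf (nat_lit 534963) (.g (nat_lit 1110) (.e (nat_lit 57686) (nat_lit 156) (.e (nat_lit 163907) (nat_lit 12) (.e (nat_lit 426438) (nat_lit 18) .nil))) (.g (nat_lit 0) (.e (nat_lit 256412) (nat_lit 0) .nil) .nil))) 
(.lf (nat_lit 535475) (.g (nat_lit 1811) (.e (nat_lit 57848) (nat_lit 252) (.e (nat_lit 57372) (nat_lit 2) (.e (nat_lit 90159) (nat_lit 11) (.e (nat_lit 24657) (nat_lit 13) (.e (nat_lit 393227) (nat_lit 9) (.e (nat_lit 343808) (nat_lit 1) .nil)))))) (.g (nat_lit 1) (.e (nat_lit 258338) (nat_lit 0) .nil) .nil)))))) (.nd (nat_lit 7) (.nd (nat_lit 8) (.nd (nat_lit 9) 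
(.lf (nat_lit 534643) (.g (nat_lit 1739) (.e (nat_lit 57572) (nat_lit 54) (.e (nat_lit 770071) (nat_lit 8) (.e (nat_lit 65586) (nat_lit 7) (.e (nat_lit 319531) (nat_lit 16) (.e (nat_lit 286748) (nat_lit 9) (.e (nat_lit 336295) (nat_lit 15) (.e (nat_lit 2443) (nat_lit 157) (.e (nat_lit 7660) (nat_lit 410) (.e (nat_lit 1171) (nat_lit 87) .nil))))))))) (.g (nat_lit 1) (.e (nat_lit 255037) (nat_lit 0) .nil) .nil))) 
(.lf (nat_lit 535155) (.g (nat_lit 2866) (.e (nat_lit 57692) (nat_lit 156) (.e (nat_lit 163874) (nat_lit 3) (.e (nat_lit 204837) (nat_lit 20) (.e (nat_lit 114719) (nat_lit 23) (.e (nat_lit 98363) (nat_lit 26) (.e (nat_lit 426129) (nat_lit 3) (.e (nat_lit 204829) (nat_lit 18) .nil))))))) (.g (nat_lit 1) (.e (nat_lit 256979) (nat_lit 0) .nil) .nil)))) (.nd (nat_lit 9) 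
(.lf (nat_lit 534899) (.g (nat_lit 1378) (.e (nat_lit 57610) (nat_lit 109) (.e (nat_lit 720909) (nat_lit 11) (.e (nat_lit 426197) (nat_lit 9) (.e (nat_lit 426550) (nat_lit 31) (.e (nat_lit 368656) (nat_lit 14) (.e (nat_lit 57811) (nat_lit 246) .nil)))))) (.g (nat_lit 1) (.e (nat_lit 255995) (nat_lit 0) .nil) .nil))) 
(.lf (nat_lit 535411) (.g (nat_lit 3273) (.e (nat_lit 57847) (nat_lit 252) (.e (nat_lit 57355) (nat_lit 0) (.e (nat_lit 1858) (nat_lit 124) (.e (nat_lit 557105) (nat_lit 14) (.e (nat_lit 180252) (nat_lit 10) (.e (nat_lit 573481) (nat_lit 13) (.e (nat_lit 65637) (nat_lit 15) (.e (nat_lit 3253) (nat_lit 197) (.e (nat_lit 532503) (nat_lit 1) .nil))))))))) (.g (nat_lit 1) (.e (nat_lit 258254) (nat_lit 0) .nil) .nil))))) 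
(.nd (nat_lit 8) (.nd (nat_lit 9) 
(.lf (nat_lit 534771) (.g (nat_lit 3978) (.e (nat_lit 57575) (nat_lit 55) (.e (nat_lit 778466) (nat_lit 11) (.e (nat_lit 24604) (nat_lit 2) (.e (nat_lit 90170) (nat_lit 13) (.e (nat_lit 172106) (nat_lit 10) (.e (nat_lit 434242) (nat_lit 28) (.e (nat_lit 573477) (nat_lit 12) .nil))))))) (.g (nat_lit 1) (.e (nat_lit 255271) (nat_lit 0) .nil) .nil))) 
(.lf (nat_lit 535283) (.g (nat_lit 741) (.e (nat_lit 57741) (nat_lit 187) (.e (nat_lit 1427) (nat_lit 108) (.e (nat_lit 336324) (nat_lit 18) .nil))) (.g (nat_lit 0) (.e (nat_lit 257939) (nat_lit 0) .nil) .nil)))) (.nd (nat_lit 9) 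
(.lf (nat_lit 535027) (.g (nat_lit 1763) (.e (nat_lit 57688) (nat_lit 156) (.e (nat_lit 163902) (nat_lit 12) (.e (nat_lit 426436) (nat_lit 18) (.e (nat_lit 98358) (nat_lit 26) (.e (nat_lit 433920) (nat_lit 13) .nil))))) (.g (nat_lit 0) (.e (nat_lit 256611) (nat_lit 0) .nil) .nil))) 
(.lf (nat_lit 535539) (.g (nat_lit 2355) (.e (nat_lit 57849) (nat_lit 252) (.e (nat_lit 57372) (nat_lit 2) (.e (nat_lit 90158) (nat_lit 11) (.e (nat_lit 24628) (nat_lit 9) (.e (nat_lit 336456) (nat_lit 34) (.e (nat_lit 483362) (nat_lit 18) .nil)))))) (.g (nat_lit 1) (.e (nat_lit 258432) (nat_lit 0) .nil) .nil))))))))) 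
(.nd (nat_lit 4) (.nd (nat_lit 5) (.nd (nat_lit 6) (.nd (nat_lit 7) (.nd (nat_lit 8) 
(.nd (nat_lit 9) 
(.lf (nat_lit 534539) (.g (nat_lit 2643) (.e (nat_lit 57480) (nat_lit 28) (.e (nat_lit 557098) (nat_lit 13) (.e (nat_lit 172097) (nat_lit 9) (.e (nat_lit 426140) (nat_lit 3) (.e (nat_lit 204855) (nat_lit 26) (.e (nat_lit 336253) (nat_lit 15) (.e (nat_lit 3715) (nat_lit 227) (.e (nat_lit 778316) (nat_lit 3) .nil)))))))) (.g (nat_lit 1) (.e (nat_lit 254820) (nat_lit 0) .nil) .nil))) 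
(.lf (nat_lit 535051) (.g (nat_lit 3039) (.e (nat_lit 57688) (nat_lit 156) (.e (nat_lit 163903) (nat_lit 12) (.e (nat_lit 426438) (nat_lit 18) (.e (nat_lit 98358) (nat_lit 26) (.e (nat_lit 426323) (nat_lit 13) (.e (nat_lit 483366) (nat_lit 18) .nil)))))) (.g (nat_lit 1) (.e (nat_lit 256643) (nat_lit 0) .nil) .nil)))) (.nd (nat_lit 9) 
(.lf (nat_lit 534795) (.g (nat_lit 2115) (.e (nat_lit 57534) (nat_lit 46) (.e (nat_lit 704734) (nat_lit 11) (.e (nat_lit 16416) (nat_lit 3) (.e (nat_lit 204861) (nat_lit 26) (.e (nat_lit 336075) (nat_lit 9) .nil))))) (.g (nat_lit 0) (.e (nat_lit 255371) (nat_lit 0) .nil) .nil))) 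
(.lf (nat_lit 535307) (.g (nat_lit 1960) (.e (nat_lit 57809) (nat_lit 246) (.e (nat_lit 57879) (nat_lit 270) (.e (nat_lit 496) (nat_lit 39) (.e (nat_lit 483406) (nat_lit 26) (.e (nat_lit 385057) (nat_lit 22) (.e (nat_lit 499780) (nat_lit 1) .nil)))))) (.g (nat_lit 1) (.e (nat_lit 258004) (nat_lit 0) .nil) .nil))))) (.nd (nat_lit 8) (.nd (nat_lit 9) 
(.lf (nat_lit 534667) (.g (nat_lit 5036) (.e (nat_lit 57574) (nat_lit 55) (.e (nat_lit 778465) (nat_lit 11) (.e (nat_lit 24603) (nat_lit 2) (.e (nat_lit 90176) (nat_lit 15) (.e (nat_lit 188440) (nat_lit 20) (.e (nat_lit 3307) (nat_lit 202) (.e (nat_lit 573477) (nat_lit 12) .nil))))))) (.g (nat_lit 1) (.e (nat_lit 255071) (nat_lit 0) .nil) .nil))) 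
(.lf (nat_lit 535179) (.g (nat_lit 631) (.e (nat_lit 57692) (nat_lit 156) (.e (nat_lit 163907) (nat_lit 12) (.e (nat_lit 425986) (nat_lit 0) .nil))) (.g (nat_lit 0) (.e (nat_lit 257031) (nat_lit 0) .nil) .nil)))) (.nd (nat_lit 9) 
(.lf (nat_lit 534923) (.g (nat_lit 1616) (.e (nat_lit 57685) (nat_lit 156) (.e (nat_lit 163902) (nat_lit 12) (.e (nat_lit 426568) (nat_lit 34) (.e (nat_lit 393284) (nat_lit 24) .nil)))) (.g (nat_lit 0) (.e (nat_lit 256347) (nat_lit 0) .nil) .nil))) 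
(.lf (nat_lit 535435) (.g (nat_lit 2924) (.e (nat_lit 57847) (nat_lit 252) (.e (nat_lit 57390) (nat_lit 5) (.e (nat_lit 114698) (nat_lit 11) (.e (nat_lit 426188) (nat_lit 9) (.e (nat_lit 426555) (nat_lit 32) (.e (nat_lit 376857) (nat_lit 21) .nil)))))) (.g (nat_lit 1) (.e (nat_lit 258287) (nat_lit 0) .nil) .nil)))))) (.nd (nat_lit 7) (.nd (nat_lit 8) (.nd (nat_lit 9) 
(.lf (nat_lit 534603) (.g (nat_lit 1118) (.e (nat_lit 57502) (nat_lit 38) (.e (nat_lit 638998) (nat_lit 8) (.e (nat_lit 172123) (nat_lit 13) (.e (nat_lit 483396) (nat_lit 24) .nil)))) (.g (nat_lit 0) (.e (nat_lit 254909) (nat_lit 0) .nil) .nil))) 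
(.lf (nat_lit 535115) (.g (nat_lit 1137) (.e (nat_lit 57691) (nat_lit 156) (.e (nat_lit 163905) (nat_lit 12) (.e (nat_lit 426428) (nat_lit 17) (.e (nat_lit 90184) (nat_lit 17) .nil)))) (.g (nat_lit 0) (.e (nat_lit 256857) (nat_lit 0) .nil) .nil)))) (.nd (nat_lit 9) 
(.lf (nat_lit 534859) (.g (nat_lit 2999) (.e (nat_lit 57612) (nat_lit 116) (.e (nat_lit 778466) (nat_lit 11) (.e (nat_lit 24617) (nat_lit 7) (.e (nat_lit 319533) (nat_lit 16) (.e (nat_lit 286752) (nat_lit 10) .nil))))) (.g (nat_lit 0) (.e (nat_lit 255893) (nat_lit 0) .nil) .nil))) 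
(.lf (nat_lit 535371) (.g (nat_lit 410) (.e (nat_lit 57844) (nat_lit 252) (.e (nat_lit 57406) (nat_lit 12) (.e (nat_lit 336456) (nat_lit 34) .nil))) (.g (nat_lit 0) (.e (nat_lit 258200) (nat_lit 0) .nil) .nil))))) (.nd (nat_lit 8) (.nd (nat_lit 9) 
(.lf (nat_lit 534731) (.g (nat_lit 2859) (.e (nat_lit 57574) (nat_lit 55) (.e (nat_lit 778466) (nat_lit 11) (.e (nat_lit 24608) (nat_lit 3) (.e (nat_lit 98355) (nat_lit 26) .nil)))) (.g (nat_lit 0) (.e (nat_lit 255179) (nat_lit 0) .nil) .nil))) 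
(.lf (nat_lit 535243) (.g (nat_lit 2215) (.e (nat_lit 57715) (nat_lit 176) (.e (nat_lit 1348) (nat_lit 102) (.e (nat_lit 286735) (nat_lit 3) (.e (nat_lit 98360) (nat_lit 26) .nil)))) (.g (nat_lit 0) (.e (nat_lit 257372) (nat_lit 0) .nil) .nil)))) (.nd (nat_lit 9) 
(.lf (nat_lit 534987) (.g (nat_lit 658) (.e (nat_lit 57687) (nat_lit 156) (.e (nat_lit 163903) (nat_lit 12) (.e (nat_lit 426438) (nat_lit 18) .nil))) (.g (nat_lit 0) (.e (nat_lit 256485) (nat_lit 0) .nil) .nil))) 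
(.lf (nat_lit 535499) (.g (nat_lit 535) (.e (nat_lit 57848) (nat_lit 252) (.e (nat_lit 57406) (nat_lit 12) (.e (nat_lit 336454) (nat_lit 34) .nil))) (.g (nat_lit 0) (.e (nat_lit 258392) (nat_lit 0) .nil) .nil))))))) (.nd (nat_lit 6) (.nd (nat_lit 7) (.nd (nat_lit 8) (.nd (nat_lit 9) 
(.lf (nat_lit 534571) (.g (nat_lit 3498) (.e (nat_lit 57480) (nat_lit 28) (.e (nat_lit 557109) (nat_lit 15) (.e (nat_lit 188447) (nat_lit 22) (.e (nat_lit 196666) (nat_lit 13) (.e (nat_lit 65639) (nat_lit 15) (.e (nat_lit 3715) (nat_lit 227) (.e (nat_lit 778316) (nat_lit 3) .nil))))))) (.g (nat_lit 1) (.e (nat_lit 254856) (nat_lit 0) .nil) .nil))) 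
(.lf (nat_lit 535083) (.g (nat_lit 1935) (.e (nat_lit 57688) (nat_lit 156) (.e (nat_lit 163933) (nat_lit 17) (.e (nat_lit 466954) (nat_lit 11) (.e (nat_lit 336067) (nat_lit 8) (.e (nat_lit 327717) (nat_lit 17) .nil))))) (.g (nat_lit 0) (.e (nat_lit 256758) (nat_lit 0) .nil) .nil)))) (.nd (nat_lit 9) 
(.lf (nat_lit 534827) (.g (nat_lit 2901) (.e (nat_lit 57591) (nat_lit 73) (.e (nat_lit 426316) (nat_lit 12) (.e (nat_lit 475185) (nat_lit 29) (.e (nat_lit 557098) (nat_lit 13) .nil)))) (.g (nat_lit 0) (.e (nat_lit 255720) (nat_lit 0) .nil) .nil))) 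
(.lf (nat_lit 535339) (.g (nat_lit 421) (.e (nat_lit 57857) (nat_lit 254) (.e (nat_lit 163850) (nat_lit 0) (.e (nat_lit 3304) (nat_lit 202) .nil))) (.g (nat_lit 0) (.e (nat_lit 258109) (nat_lit 0) .nil) .nil))))) (.nd (nat_lit 8) (.nd (nat_lit 9) 
(.lf (nat_lit 534699) (.g (nat_lit 3835) (.e (nat_lit 57574) (nat_lit 55) (.e (nat_lit 778466) (nat_lit 11) (.e (nat_lit 24604) (nat_lit 2) (.e (nat_lit 90167) (nat_lit 13) (.e (nat_lit 172113) (nat_lit 10) (.e (nat_lit 434247) (nat_lit 28) (.e (nat_lit 573477) (nat_lit 12) .nil))))))) (.g (nat_lit 1) (.e (nat_lit 255143) (nat_lit 0) .nil) .nil))) 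
(.lf (nat_lit 535211) (.g (nat_lit 1606) (.e (nat_lit 65280) (nat_lit 168) (.e (nat_lit 163869) (nat_lit 2) (.e (nat_lit 196670) (nat_lit 14) (.e (nat_lit 73754) (nat_lit 8) .nil)))) (.g (nat_lit 0) (.e (nat_lit 257273) (nat_lit 0) .nil) .nil)))) (.nd (nat_lit 9) 
(.lf (nat_lit 534955) (.g (nat_lit 853) (.e (nat_lit 57686) (nat_lit 156) (.e (nat_lit 163903) (nat_lit 12) (.e (nat_lit 426566) (nat_lit 34) .nil))) (.g (nat_lit 0) (.e (nat_lit 256404) (nat_lit 0) .nil) .nil))) 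
(.lf (nat_lit 535467) (.g (nat_lit 2818) (.e (nat_lit 57847) (nat_lit 252) (.e (nat_lit 57448) (nat_lit 19) (.e (nat_lit 393251) (nat_lit 18) (.e (nat_lit 164179) (nat_lit 154) (.e (nat_lit 57364) (nat_lit 1) .nil))))) (.g (nat_lit 0) (.e (nat_lit 258330) (nat_lit 0) .nil) .nil)))))) (.nd (nat_lit 7) (.nd (nat_lit 8) (.nd (nat_lit 9) 
(.lf (nat_lit 534635) (.g (nat_lit 1362) (.e (nat_lit 57571) (nat_lit 54) (.e (nat_lit 770072) (nat_lit 8) (.e (nat_lit 65571) (nat_lit 3) (.e (nat_lit 98373) (nat_lit 29) .nil)))) (.g (nat_lit 0) (.e (nat_lit 255027) (nat_lit 0) .nil) .nil))) 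
(.lf (nat_lit 535147) (.g (nat_lit 664) (.e (nat_lit 57692) (nat_lit 156) (.e (nat_lit 163869) (nat_lit 2) (.e (nat_lit 196656) (nat_lit 11) .nil))) (.g (nat_lit 0) (.e (nat_lit 256968) (nat_lit 0) .nil) .nil)))) (.nd (nat_lit 9) 
(.lf (nat_lit 534891) (.g (nat_lit 1452) (.e (nat_lit 57610) (nat_lit 109) (.e (nat_lit 720909) (nat_lit 11) (.e (nat_lit 426196) (nat_lit 9) (.e (nat_lit 426550) (nat_lit 31) (.e (nat_lit 368656) (nat_lit 14) (.e (nat_lit 57816) (nat_lit 246) .nil)))))) (.g (nat_lit 1) (.e (nat_lit 255987) (nat_lit 0) .nil) .nil))) 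
(.lf (nat_lit 535403) (.g (nat_lit 580) (.e (nat_lit 57846) (nat_lit 252) (.e (nat_lit 57407) (nat_lit 12) (.e (nat_lit 336370) (nat_lit 27) .nil))) (.g (nat_lit 0) (.e (nat_lit 258245) (nat_lit 0) .nil) .nil))))) (.nd (nat_lit 8) (.nd (nat_lit 9) 
(.lf (nat_lit 534763) (.g (nat_lit 3575) (.e (nat_lit 57575) (nat_lit 55) (.e (nat_lit 778465) (nat_lit 11) (.e (nat_lit 24604) (nat_lit 2) (.e (nat_lit 90170) (nat_lit 13) (.e (nat_lit 172105) (nat_lit 10) (.e (nat_lit 434247) (nat_lit 28) (.e (nat_lit 573477) (nat_lit 12) .nil))))))) (.g (nat_lit 1) (.e (nat_lit 255261) (nat_lit 0) .nil) .nil))) 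
(.lf (nat_lit 535275) (.g (nat_lit 2482) (.e (nat_lit 57750) (nat_lit 201) (.e (nat_lit 3090) (nat_lit 191) (.e (nat_lit 483365) (nat_lit 18) (.e (nat_lit 57688) (nat_lit 156) (.e (nat_lit 163917) (nat_lit 13) .nil))))) (.g (nat_lit 0) (.e (nat_lit 257669) (nat_lit 0) .nil) .nil)))) (.nd (nat_lit 9) 
(.lf (nat_lit 535019) (.g (nat_lit 2352) (.e (nat_lit 57688) (nat_lit 156) (.e (nat_lit 163874) (nat_lit 3) (.e (nat_lit 204837) (nat_lit 20) (.e (nat_lit 114719) (nat_lit 23) (.e (nat_lit 98366) (nat_lit 27) .nil))))) (.g (nat_lit 0) (.e (nat_lit 256600) (nat_lit 0) .nil) .nil))) 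
(.lf (nat_lit 535531) (.g (nat_lit 2039) (.e (nat_lit 57848) (nat_lit 252) (.e (nat_lit 57445) (nat_lit 19) (.e (nat_lit 393229) (nat_lit 9) (.e (nat_lit 336086) (nat_lit 9) (.e (nat_lit 336260) (nat_lit 15) .nil))))) (.g (nat_lit 0) (.e (nat_lit 258424) (nat_lit 0) .nil) .nil)))))))) (.nd (nat_lit 5) (.nd (nat_lit 6) (.nd (nat_lit 7) (.nd (nat_lit 8) (.nd (nat_lit 9) 
(.lf (nat_lit 534555) (.g (nat_lit 3014) (.e (nat_lit 57480) (nat_lit 28) (.e (nat_lit 557107) (nat_lit 15) (.e (nat_lit 188447) (nat_lit 22) (.e (nat_lit 196666) (nat_lit 13) (.e (nat_lit 65639) (nat_lit 15) (.e (nat_lit 3714) (nat_lit 227) (.e (nat_lit 786176) (nat_lit 3) .nil))))))) (.g (nat_lit 1) (.e (nat_lit 254840) (nat_lit 0) .nil) .nil))) 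
(.lf (nat_lit 535067) (.g (nat_lit 521) (.e (nat_lit 57688) (nat_lit 156) (.e (nat_lit 163907) (nat_lit 12) (.e (nat_lit 426428) (nat_lit 17) .nil))) (.g (nat_lit 0) (.e (nat_lit 256675) (nat_lit 0) .nil) .nil)))) (.nd (nat_lit 9) 
(.lf (nat_lit 534811) (.g (nat_lit 429) (.e (nat_lit 65280) (nat_lit 64) (.e (nat_lit 204868) (nat_lit 29) (.e (nat_lit 360466) (nat_lit 3) .nil))) (.g (nat_lit 0) (.e (nat_lit 255560) (nat_lit 0) .nil) .nil))) 
(.lf (nat_lit 535323) (.g (nat_lit 743) (.e (nat_lit 57811) (nat_lit 246) (.e (nat_lit 57879) (nat_lit 270) (.e (nat_lit 496) (nat_lit 39) (.e (nat_lit 483391) (nat_lit 23) (.e (nat_lit 336317) (nat_lit 17) (.e (nat_lit 204544) (nat_lit 19) .nil)))))) (.g (nat_lit 1) (.e (nat_lit 258026) (nat_lit 0) .nil) .nil))))) (.nd (nat_lit 8) (.nd (nat_lit 9) 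
(.lf (nat_lit 534683) (.g (nat_lit 2726) (.e (nat_lit 57574) (nat_lit 55) (.e (nat_lit 778465) (nat_lit 11) (.e (nat_lit 24604) (nat_lit 2) (.e (nat_lit 90178) (nat_lit 15) (.e (nat_lit 188441) (nat_lit 20) (.e (nat_lit 3304) (nat_lit 202) (.e (nat_lit 573477) (nat_lit 12) .nil))))))) (.g (nat_lit 1) (.e (nat_lit 255088) (nat_lit 0) .nil) .nil))) 
(.lf (nat_lit 535195) (.g (nat_lit 389) (.e (nat_lit 57692) (nat_lit 156) (.e (nat_lit 163907) (nat_lit 12) (.e (nat_lit 426566) (nat_lit 34) .nil))) (.g (nat_lit 0) (.e (nat_lit 257084) (nat_lit 0) .nil) .nil)))) (.nd (nat_lit 9) 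
(.lf (nat_lit 534939) (.g (nat_lit 1797) (.e (nat_lit 57686) (nat_lit 156) (.e (nat_lit 163902) (nat_lit 12) (.e (nat_lit 426437) (nat_lit 18) (.e (nat_lit 98365) (nat_lit 26) (.e (nat_lit 426325) (nat_lit 13) .nil))))) (.g (nat_lit 0) (.e (nat_lit 256387) (nat_lit 0) .nil) .nil))) 
(.lf (nat_lit 535451) (.g (nat_lit 3829) (.e (nat_lit 57847) (nat_lit 252) (.e (nat_lit 57407) (nat_lit 12) (.e (nat_lit 336316) (nat_lit 17) (.e (nat_lit 196666) (nat_lit 13) (.e (nat_lit 65617) (nat_lit 10) (.e (nat_lit 344096) (nat_lit 18) (.e (nat_lit 7695) (nat_lit 412) (.e (nat_lit 57366) (nat_lit 1) .nil)))))))) (.g (nat_lit 1) (.e (nat_lit 258305) (nat_lit 0) .nil) .nil)))))) 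
(.nd (nat_lit 7) (.nd (nat_lit 8) (.nd (nat_lit 9) 
(.lf (nat_lit 534619) (.g (nat_lit 2024) (.e (nat_lit 57504) (nat_lit 38) (.e (nat_lit 638996) (nat_lit 7) (.e (nat_lit 163978) (nat_lit 30) (.e (nat_lit 573487) (nat_lit 14) .nil)))) (.g (nat_lit 0) (.e (nat_lit 254938) (nat_lit 0) .nil) .nil))) 
(.lf (nat_lit 535131) (.g (nat_lit 2103) (.e (nat_lit 57691) (nat_lit 156) (.e (nat_lit 163907) (nat_lit 12) (.e (nat_lit 426434) (nat_lit 18) (.e (nat_lit 98358) (nat_lit 26) (.e (nat_lit 426323) (nat_lit 13) .nil))))) (.g (nat_lit 0) (.e (nat_lit 256900) (nat_lit 0) .nil) .nil)))) (.nd (nat_lit 9) 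
(.lf (nat_lit 534875) (.g (nat_lit 2173) (.e (nat_lit 57610) (nat_lit 109) (.e (nat_lit 720909) (nat_lit 11) (.e (nat_lit 426187) (nat_lit 9) (.e (nat_lit 426550) (nat_lit 31) (.e (nat_lit 368656) (nat_lit 14) (.e (nat_lit 57808) (nat_lit 246) .nil)))))) (.g (nat_lit 1) (.e (nat_lit 255971) (nat_lit 0) .nil) .nil))) 
(.lf (nat_lit 535387) (.g (nat_lit 662) (.e (nat_lit 57846) (nat_lit 252) (.e (nat_lit 57372) (nat_lit 2) (.e (nat_lit 90125) (nat_lit 9) .nil))) (.g (nat_lit 0) (.e (nat_lit 258218) (nat_lit 0) .nil) .nil))))) (.nd (nat_lit 8) (.nd (nat_lit 9) 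
(.lf (nat_lit 534747) (.g (nat_lit 3498) (.e (nat_lit 57574) (nat_lit 55) (.e (nat_lit 778466) (nat_lit 11) (.e (nat_lit 24608) (nat_lit 3) (.e (nat_lit 98372) (nat_lit 29) (.e (nat_lit 450586) (nat_lit 10) (.e (nat_lit 573478) (nat_lit 12) .nil)))))) (.g (nat_lit 1) (.e (nat_lit 255197) (nat_lit 0) .nil) .nil))) 
(.lf (nat_lit 535259) (.g (nat_lit 3089) (.e (nat_lit 57750) (nat_lit 201) (.e (nat_lit 2857) (nat_lit 184) (.e (nat_lit 426402) (nat_lit 15) (.e (nat_lit 1849) (nat_lit 124) (.e (nat_lit 557108) (nat_lit 15) (.e (nat_lit 188449) (nat_lit 22) (.e (nat_lit 196661) (nat_lit 12) .nil))))))) (.g (nat_lit 1) (.e (nat_lit 257521) (nat_lit 0) .nil) .nil)))) (.nd (nat_lit 9) 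
(.lf (nat_lit 535003) (.g (nat_lit 571) (.e (nat_lit 57687) (nat_lit 156) (.e (nat_lit 163933) (nat_lit 17) (.e (nat_lit 466950) (nat_lit 11) .nil))) (.g (nat_lit 0) (.e (nat_lit 256530) (nat_lit 0) .nil) .nil))) 
(.lf (nat_lit 535515) (.g (nat_lit 870) (.e (nat_lit 57848) (nat_lit 252) (.e (nat_lit 57407) (nat_lit 12) (.e (nat_lit 336456) (nat_lit 34) (.e (nat_lit 483383) (nat_lit 23) .nil)))) (.g (nat_lit 0) (.e (nat_lit 258408) (nat_lit 0) .nil) .nil))))))) (.nd (nat_lit 6) (.nd (nat_lit 7) (.nd (nat_lit 8) (.nd (nat_lit 9) 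
(.lf (nat_lit 534587) (.g (nat_lit 1662) (.e (nat_lit 57502) (nat_lit 38) (.e (nat_lit 638995) (nat_lit 7) (.e (nat_lit 163979) (nat_lit 30) (.e (nat_lit 573487) (nat_lit 14) .nil)))) (.g (nat_lit 0) (.e (nat_lit 254892) (nat_lit 0) .nil) .nil))) 
(.lf (nat_lit 535099) (.g (nat_lit 1017) (.e (nat_lit 57689) (nat_lit 156) (.e (nat_lit 163907) (nat_lit 12) (.e (nat_lit 426479) (nat_lit 27) (.e (nat_lit 336432) (nat_lit 30) .nil)))) (.g (nat_lit 0) (.e (nat_lit 256829) (nat_lit 0) .nil) .nil)))) (.nd (nat_lit 9) 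
(.lf (nat_lit 534843) (.g (nat_lit 2000) (.e (nat_lit 57596) (nat_lit 82) (.e (nat_lit 499900) (nat_lit 7) (.e (nat_lit 24628) (nat_lit 9) (.e (nat_lit 336450) (nat_lit 33) (.e (nat_lit 475152) (nat_lit 17) (.e (nat_lit 57815) (nat_lit 246) .nil)))))) (.g (nat_lit 1) (.e (nat_lit 255797) (nat_lit 0) .nil) .nil))) 
(.lf (nat_lit 535355) (.g (nat_lit 630) (.e (nat_lit 57844) (nat_lit 252) (.e (nat_lit 57374) (nat_lit 2) (.e (nat_lit 90158) (nat_lit 11) .nil))) (.g (nat_lit 0) (.e (nat_lit 258172) (nat_lit 0) .nil) .nil))))) (.nd (nat_lit 8) (.nd (nat_lit 9) 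
(.lf (nat_lit 534715) (.g (nat_lit 6046) (.e (nat_lit 57574) (nat_lit 55) (.e (nat_lit 778466) (nat_lit 11) (.e (nat_lit 24604) (nat_lit 2) (.e (nat_lit 90176) (nat_lit 15) (.e (nat_lit 188440) (nat_lit 20) (.e (nat_lit 3307) (nat_lit 202) (.e (nat_lit 573477) (nat_lit 12) .nil))))))) (.g (nat_lit 1) (.e (nat_lit 255160) (nat_lit 0) .nil) .nil))) 
(.lf (nat_lit 535227) (.g (nat_lit 1924) (.e (nat_lit 57711) (nat_lit 176) (.e (nat_lit 1348) (nat_lit 102) (.e (nat_lit 286735) (nat_lit 3) (.e (nat_lit 98354) (nat_lit 26) .nil)))) (.g (nat_lit 0) (.e (nat_lit 257306) (nat_lit 0) .nil) .nil)))) (.nd (nat_lit 9) 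
(.lf (nat_lit 534971) (.g (nat_lit 695) (.e (nat_lit 57687) (nat_lit 156) (.e (nat_lit 163902) (nat_lit 12) (.e (nat_lit 426428) (nat_lit 17) .nil))) (.g (nat_lit 0) (.e (nat_lit 256467) (nat_lit 0) .nil) .nil))) 
(.lf (nat_lit 535483) (.g (nat_lit 1964) (.e (nat_lit 57848) (nat_lit 252) (.e (nat_lit 57374) (nat_lit 2) (.e (nat_lit 90156) (nat_lit 11) (.e (nat_lit 24628) (nat_lit 9) (.e (nat_lit 336454) (nat_lit 34) (.e (nat_lit 483366) (nat_lit 18) .nil)))))) (.g (nat_lit 1) (.e (nat_lit 258355) (nat_lit 0) .nil) .nil)))))) (.nd (nat_lit 7) (.nd (nat_lit 8) (.nd (nat_lit 9) 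
(.lf (nat_lit 534651) (.g (nat_lit 1936) (.e (nat_lit 57572) (nat_lit 54) (.e (nat_lit 770072) (nat_lit 8) (.e (nat_lit 65571) (nat_lit 3) (.e (nat_lit 98356) (nat_lit 26) .nil)))) (.g (nat_lit 0) (.e (nat_lit 255049) (nat_lit 0) .nil) .nil))) 
(.lf (nat_lit 535163) (.g (nat_lit 2130) (.e (nat_lit 57692) (nat_lit 156) (.e (nat_lit 163905) (nat_lit 12) (.e (nat_lit 426428) (nat_lit 17) (.e (nat_lit 90178) (nat_lit 15) (.e (nat_lit 188421) (nat_lit 11) (.e (nat_lit 335993) (nat_lit 1) .nil)))))) (.g (nat_lit 1) (.e (nat_lit 256995) (nat_lit 0) .nil) .nil)))) (.nd (nat_lit 9) 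
(.lf (nat_lit 534907) (.g (nat_lit 1918) (.e (nat_lit 57610) (nat_lit 109) (.e (nat_lit 720909) (nat_lit 11) (.e (nat_lit 426200) (nat_lit 9) (.e (nat_lit 426550) (nat_lit 31) (.e (nat_lit 368656) (nat_lit 14) (.e (nat_lit 57810) (nat_lit 246) .nil)))))) (.g (nat_lit 1) (.e (nat_lit 256003) (nat_lit 0) .nil) .nil))) 
(.lf (nat_lit 535419) (.g (nat_lit 651) (.e (nat_lit 57847) (nat_lit 252) (.e (nat_lit 57374) (nat_lit 2) (.e (nat_lit 90156) (nat_lit 11) .nil))) (.g (nat_lit 0) (.e (nat_lit 258266) (nat_lit 0) .nil) .nil))))) (.nd (nat_lit 8) (.nd (nat_lit 9) 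
(.lf (nat_lit 534779) (.g (nat_lit 3833) (.e (nat_lit 57575) (nat_lit 55) (.e (nat_lit 778466) (nat_lit 11) (.e (nat_lit 24608) (nat_lit 3) (.e (nat_lit 98373) (nat_lit 29) (.e (nat_lit 450586) (nat_lit 10) (.e (nat_lit 573477) (nat_lit 12) .nil)))))) (.g (nat_lit 1) (.e (nat_lit 255280) (nat_lit 0) .nil) .nil))) 
(.lf (nat_lit 535291) (.g (nat_lit 1763) (.e (nat_lit 57819) (nat_lit 248) (.e (nat_lit 164359) (nat_lit 246) (.e (nat_lit 2661) (nat_lit 167) (.e (nat_lit 196665) (nat_lit 13) (.e (nat_lit 65598) (nat_lit 9) (.e (nat_lit 336013) (nat_lit 2) (.e (nat_lit 98048) (nat_lit 19) .nil))))))) (.g (nat_lit 1) (.e (nat_lit 257978) (nat_lit 0) .nil) .nil)))) (.nd (nat_lit 9) 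
(.lf (nat_lit 535035) (.g (nat_lit 1216) (.e (nat_lit 57688) (nat_lit 156) (.e (nat_lit 163902) (nat_lit 12) (.e (nat_lit 426481) (nat_lit 27) .nil))) (.g (nat_lit 0) (.e (nat_lit 256620) (nat_lit 0) .nil) .nil))) 
(.lf (nat_lit 535547) (.g (nat_lit 3763) (.e (nat_lit 57849) (nat_lit 252) (.e (nat_lit 57375) (nat_lit 2) (.e (nat_lit 90158) (nat_lit 11) (.e (nat_lit 24608) (nat_lit 3) (.e (nat_lit 98321) (nat_lit 17) (.e (nat_lit 3771) (nat_lit 229) (.e (nat_lit 794673) (nat_lit 23) (.e (nat_lit 204831) (nat_lit 18) .nil)))))))) (.g (nat_lit 1) (.e (nat_lit 258443) (nat_lit 0) .nil) .nil)))))))))) 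
(.nd (nat_lit 3) (.nd (nat_lit 4) (.nd (nat_lit 5) (.nd (nat_lit 6) (.nd (nat_lit 7) 
(.nd (nat_lit 8) (.nd (nat_lit 9) 
(.lf (nat_lit 534535) (.g (nat_lit 4319) (.e (nat_lit 57480) (nat_lit 28) (.e (nat_lit 557098) (nat_lit 13) (.e (nat_lit 172097) (nat_lit 9) (.e (nat_lit 426125) (nat_lit 2) (.e (nat_lit 196666) (nat_lit 13) (.e (nat_lit 65638) (nat_lit 15) (.e (nat_lit 3715) (nat_lit 227) (.e (nat_lit 778316) (nat_lit 3) .nil)))))))) (.g (nat_lit 1) (.e (nat_lit 254816) (nat_lit 0) .nil) .nil))) 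
(.lf (nat_lit 535047) (.g (nat_lit 1608) (.e (nat_lit 57688) (nat_lit 156) (.e (nat_lit 163903) (nat_lit 12) (.e (nat_lit 426436) (nat_lit 18) (.e (nat_lit 98371) (nat_lit 28) .nil)))) (.g (nat_lit 0) (.e (nat_lit 256639) (nat_lit 0) .nil) .nil)))) (.nd (nat_lit 9) 
(.lf (nat_lit 534791) (.g (nat_lit 2455) (.e (nat_lit 65280) (nat_lit 57) (.e (nat_lit 794637) (nat_lit 11) (.e (nat_lit 336004) (nat_lit 2) (.e (nat_lit 90170) (nat_lit 13) (.e (nat_lit 172113) (nat_lit 10) .nil))))) (.g (nat_lit 0) (.e (nat_lit 255294) (nat_lit 0) .nil) .nil))) 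
(.lf (nat_lit 535303) (.g (nat_lit 2066) (.e (nat_lit 57809) (nat_lit 246) (.e (nat_lit 57879) (nat_lit 270) (.e (nat_lit 496) (nat_lit 39) (.e (nat_lit 483383) (nat_lit 23) (.e (nat_lit 336316) (nat_lit 17) (.e (nat_lit 204544) (nat_lit 19) .nil)))))) (.g (nat_lit 1) (.e (nat_lit 258000) (nat_lit 0) .nil) .nil))))) (.nd (nat_lit 8) (.nd (nat_lit 9) 
(.lf (nat_lit 534663) (.g (nat_lit 708) (.e (nat_lit 57574) (nat_lit 55) (.e (nat_lit 778362) (nat_lit 9) (.e (nat_lit 297) (nat_lit 22) .nil))) (.g (nat_lit 0) (.e (nat_lit 255065) (nat_lit 0) .nil) .nil))) 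
(.lf (nat_lit 535175) (.g (nat_lit 2810) (.e (nat_lit 57692) (nat_lit 156) (.e (nat_lit 163905) (nat_lit 12) (.e (nat_lit 426568) (nat_lit 34) (.e (nat_lit 393279) (nat_lit 23) (.e (nat_lit 426129) (nat_lit 3) (.e (nat_lit 204829) (nat_lit 18) .nil)))))) (.g (nat_lit 1) (.e (nat_lit 257027) (nat_lit 0) .nil) .nil)))) (.nd (nat_lit 9) 
(.lf (nat_lit 534919) (.g (nat_lit 756) (.e (nat_lit 57685) (nat_lit 156) (.e (nat_lit 163902) (nat_lit 12) (.e (nat_lit 426438) (nat_lit 18) .nil))) (.g (nat_lit 0) (.e (nat_lit 256343) (nat_lit 0) .nil) .nil))) 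
(.lf (nat_lit 535431) (.g (nat_lit 2502) (.e (nat_lit 57847) (nat_lit 252) (.e (nat_lit 57379) (nat_lit 3) (.e (nat_lit 98341) (nat_lit 20) (.e (nat_lit 221210) (nat_lit 22) (.e (nat_lit 196665) (nat_lit 13) (.e (nat_lit 65637) (nat_lit 15) (.e (nat_lit 3253) (nat_lit 197) (.e (nat_lit 532503) (nat_lit 1) .nil)))))))) (.g (nat_lit 1) (.e (nat_lit 258281) (nat_lit 0) .nil) .nil)))))) 
(.nd (nat_lit 7) (.nd (nat_lit 8) (.nd (nat_lit 9) 
(.lf (nat_lit 534599) (.g (nat_lit 4366) (.e (nat_lit 57502) (nat_lit 38) (.e (nat_lit 638996) (nat_lit 7) (.e (nat_lit 163978) (nat_lit 30) (.e (nat_lit 573489) (nat_lit 14) (.e (nat_lit 73755) (nat_lit 8) (.e (nat_lit 557105) (nat_lit 14) (.e (nat_lit 180251) (nat_lit 10) (.e (nat_lit 573477) (nat_lit 12) .nil)))))))) (.g (nat_lit 1) (.e (nat_lit 254905) (nat_lit 0) .nil) .nil))) 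
(.lf (nat_lit 535111) (.g (nat_lit 3575) (.e (nat_lit 57691) (nat_lit 156) (.e (nat_lit 163875) (nat_lit 3) (.e (nat_lit 204838) (nat_lit 20) (.e (nat_lit 114718) (nat_lit 23) (.e (nat_lit 98365) (nat_lit 26) (.e (nat_lit 426139) (nat_lit 3) (.e (nat_lit 204830) (nat_lit 18) .nil))))))) (.g (nat_lit 1) (.e (nat_lit 256852) (nat_lit 0) .nil) .nil)))) (.nd (nat_lit 9) 
(.lf (nat_lit 534855) (.g (nat_lit 1291) (.e (nat_lit 57611) (nat_lit 116) (.e (nat_lit 778465) (nat_lit 11) (.e (nat_lit 24617) (nat_lit 7) (.e (nat_lit 319534) (nat_lit 16) .nil)))) (.g (nat_lit 0) (.e (nat_lit 255886) (nat_lit 0) .nil) .nil))) 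
(.lf (nat_lit 535367) (.g (nat_lit 578) (.e (nat_lit 57844) (nat_lit 252) (.e (nat_lit 57389) (nat_lit 5) (.e (nat_lit 114698) (nat_lit 11) .nil))) (.g (nat_lit 0) (.e (nat_lit 258189) (nat_lit 0) .nil) .nil))))) (.nd (nat_lit 8) (.nd (nat_lit 9) 
(.lf (nat_lit 534727) (.g (nat_lit 3972) (.e (nat_lit 57574) (nat_lit 55) (.e (nat_lit 778466) (nat_lit 11) (.e (nat_lit 24607) (nat_lit 3) (.e (nat_lit 98372) (nat_lit 29) (.e (nat_lit 450586) (nat_lit 10) (.e (nat_lit 573475) (nat_lit 12) .nil)))))) (.g (nat_lit 1) (.e (nat_lit 255173) (nat_lit 0) .nil) .nil))) 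
(.lf (nat_lit 535239) (.g (nat_lit 1931) (.e (nat_lit 57714) (nat_lit 176) (.e (nat_lit 1348) (nat_lit 102) (.e (nat_lit 286735) (nat_lit 3) (.e (nat_lit 98355) (nat_lit 26) .nil)))) (.g (nat_lit 0) (.e (nat_lit 257363) (nat_lit 0) .nil) .nil)))) (.nd (nat_lit 9) 
(.lf (nat_lit 534983) (.g (nat_lit 501) (.e (nat_lit 57687) (nat_lit 156) (.e (nat_lit 163903) (nat_lit 12) (.e (nat_lit 426436) (nat_lit 18) .nil))) (.g (nat_lit 0) (.e (nat_lit 256480) (nat_lit 0) .nil) .nil))) 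
(.lf (nat_lit 535495) (.g (nat_lit 660) (.e (nat_lit 57848) (nat_lit 252) (.e (nat_lit 57378) (nat_lit 3) (.e (nat_lit 106240) (nat_lit 14) .nil))) (.g (nat_lit 0) (.e (nat_lit 258374) (nat_lit 0) .nil) .nil))))))) (.nd (nat_lit 6) (.nd (nat_lit 7) (.nd (nat_lit 8) (.nd (nat_lit 9) 
(.lf (nat_lit 534567) (.g (nat_lit 3553) (.e (nat_lit 57480) (nat_lit 28) (.e (nat_lit 557109) (nat_lit 15) (.e (nat_lit 188447) (nat_lit 22) (.e (nat_lit 196666) (nat_lit 13) (.e (nat_lit 65639) (nat_lit 15) (.e (nat_lit 3711) (nat_lit 227) (.e (nat_lit 778316) (nat_lit 3) .nil))))))) (.g (nat_lit 1) (.e (nat_lit 254852) (nat_lit 0) .nil) .nil))) 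
(.lf (nat_lit 535079) (.g (nat_lit 854) (.e (nat_lit 57688) (nat_lit 156) (.e (nat_lit 163907) (nat_lit 12) (.e (nat_lit 426481) (nat_lit 27) .nil))) (.g (nat_lit 0) (.e (nat_lit 256689) (nat_lit 0) .nil) .nil)))) (.nd (nat_lit 9) 
(.lf (nat_lit 534823) (.g (nat_lit 3758) (.e (nat_lit 57588) (nat_lit 73) (.e (nat_lit 426124) (nat_lit 2) (.e (nat_lit 196681) (nat_lit 17) (.e (nat_lit 131086) (nat_lit 1) (.e (nat_lit 57847) (nat_lit 252) (.e (nat_lit 57377) (nat_lit 3) (.e (nat_lit 98333) (nat_lit 18) (.e (nat_lit 164399) (nat_lit 256) .nil)))))))) (.g (nat_lit 1) (.e (nat_lit 255669) (nat_lit 0) .nil) .nil))) 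
(.lf (nat_lit 535335) (.g (nat_lit 2445) (.e (nat_lit 57830) (nat_lit 250) (.e (nat_lit 1183) (nat_lit 87) (.e (nat_lit 57480) (nat_lit 28) (.e (nat_lit 557103) (nat_lit 14) (.e (nat_lit 180250) (nat_lit 10) .nil))))) (.g (nat_lit 0) (.e (nat_lit 258092) (nat_lit 0) .nil) .nil))))) (.nd (nat_lit 8) (.nd (nat_lit 9) 
(.lf (nat_lit 534695) (.g (nat_lit 3415) (.e (nat_lit 57574) (nat_lit 55) (.e (nat_lit 778466) (nat_lit 11) (.e (nat_lit 24603) (nat_lit 2) (.e (nat_lit 90176) (nat_lit 15) (.e (nat_lit 188440) (nat_lit 20) (.e (nat_lit 3307) (nat_lit 202) (.e (nat_lit 573478) (nat_lit 12) .nil))))))) (.g (nat_lit 1) (.e (nat_lit 255106) (nat_lit 0) .nil) .nil))) 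
(.lf (nat_lit 535207) (.g (nat_lit 586) (.e (nat_lit 65280) (nat_lit 168) (.e (nat_lit 163867) (nat_lit 2) (.e (nat_lit 196670) (nat_lit 14) .nil))) (.g (nat_lit 0) (.e (nat_lit 257263) (nat_lit 0) .nil) .nil)))) (.nd (nat_lit 9) 
(.lf (nat_lit 534951) (.g (nat_lit 338) (.e (nat_lit 57686) (nat_lit 156) (.e (nat_lit 163903) (nat_lit 12) (.e (nat_lit 426438) (nat_lit 18) .nil))) (.g (nat_lit 0) (.e (nat_lit 256400) (nat_lit 0) .nil) .nil))) 
(.lf (nat_lit 535463) (.g (nat_lit 1232) (.e (nat_lit 57847) (nat_lit 252) (.e (nat_lit 57411) (nat_lit 12) (.e (nat_lit 336456) (nat_lit 34) (.e (nat_lit 483387) (nat_lit 23) .nil)))) (.g (nat_lit 0) (.e (nat_lit 258325) (nat_lit 0) .nil) .nil)))))) (.nd (nat_lit 7) (.nd (nat_lit 8) (.nd (nat_lit 9) 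
(.lf (nat_lit 534631) (.g (nat_lit 1675) (.e (nat_lit 57511) (nat_lit 39) (.e (nat_lit 647199) (nat_lit 11) (.e (nat_lit 16388) (nat_lit 0) (.e (nat_lit 3544) (nat_lit 219) (.e (nat_lit 712753) (nat_lit 30) (.e (nat_lit 450586) (nat_lit 10) (.e (nat_lit 573478) (nat_lit 12) .nil))))))) (.g (nat_lit 1) (.e (nat_lit 254981) (nat_lit 0) .nil) .nil))) 
(.lf (nat_lit 535143) (.g (nat_lit 3440) (.e (nat_lit 57692) (nat_lit 156) (.e (nat_lit 163869) (nat_lit 2) (.e (nat_lit 196654) (nat_lit 11) (.e (nat_lit 16458) (nat_lit 12) (.e (nat_lit 475152) (nat_lit 17) (.e (nat_lit 57609) (nat_lit 109) (.e (nat_lit 720934) (nat_lit 21) .nil))))))) (.g (nat_lit 1) (.e (nat_lit 256963) (nat_lit 0) .nil) .nil)))) (.nd (nat_lit 9) 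
(.lf (nat_lit 534887) (.g (nat_lit 1478) (.e (nat_lit 57610) (nat_lit 109) (.e (nat_lit 720909) (nat_lit 11) (.e (nat_lit 426196) (nat_lit 9) (.e (nat_lit 426550) (nat_lit 31) (.e (nat_lit 368656) (nat_lit 14) (.e (nat_lit 57811) (nat_lit 246) .nil)))))) (.g (nat_lit 1) (.e (nat_lit 255983) (nat_lit 0) .nil) .nil))) 
(.lf (nat_lit 535399) (.g (nat_lit 2271) (.e (nat_lit 57846) (nat_lit 252) (.e (nat_lit 57406) (nat_lit 12) (.e (nat_lit 336454) (nat_lit 34) (.e (nat_lit 483385) (nat_lit 23) .nil)))) (.g (nat_lit 0) (.e (nat_lit 258241) (nat_lit 0) .nil) .nil))))) (.nd (nat_lit 8) (.nd (nat_lit 9) 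
(.lf (nat_lit 534759) (.g (nat_lit 1489) (.e (nat_lit 57575) (nat_lit 55) (.e (nat_lit 778464) (nat_lit 11) (.e (nat_lit 24607) (nat_lit 3) (.e (nat_lit 98374) (nat_lit 29) .nil)))) (.g (nat_lit 0) (.e (nat_lit 255255) (nat_lit 0) .nil) .nil))) 
(.lf (nat_lit 535271) (.g (nat_lit 659) (.e (nat_lit 57750) (nat_lit 201) (.e (nat_lit 3090) (nat_lit 191) (.e (nat_lit 483362) (nat_lit 18) .nil))) (.g (nat_lit 0) (.e (nat_lit 257653) (nat_lit 0) .nil) .nil)))) (.nd (nat_lit 9) 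
(.lf (nat_lit 535015) (.g (nat_lit 3007) (.e (nat_lit 57688) (nat_lit 156) (.e (nat_lit 163873) (nat_lit 3) (.e (nat_lit 204838) (nat_lit 20) (.e (nat_lit 114719) (nat_lit 23) (.e (nat_lit 98363) (nat_lit 26) (.e (nat_lit 426129) (nat_lit 3) (.e (nat_lit 204829) (nat_lit 18) .nil))))))) (.g (nat_lit 1) (.e (nat_lit 256596) (nat_lit 0) .nil) .nil))) 
(.lf (nat_lit 535527) (.g (nat_lit 2112) (.e (nat_lit 57848) (nat_lit 252) (.e (nat_lit 57445) (nat_lit 19) (.e (nat_lit 393229) (nat_lit 9) (.e (nat_lit 336086) (nat_lit 9) (.e (nat_lit 336245) (nat_lit 15) .nil))))) (.g (nat_lit 0) (.e (nat_lit 258420) (nat_lit 0) .nil) .nil)))))))) (.nd (nat_lit 5) (.nd (nat_lit 6) (.nd (nat_lit 7) (.nd (nat_lit 8) (.nd (nat_lit 9) 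
(.lf (nat_lit 534551) (.g (nat_lit 3164) (.e (nat_lit 57480) (nat_lit 28) (.e (nat_lit 557107) (nat_lit 15) (.e (nat_lit 188447) (nat_lit 22) (.e (nat_lit 196666) (nat_lit 13) (.e (nat_lit 65638) (nat_lit 15) .nil))))) (.g (nat_lit 0) (.e (nat_lit 254836) (nat_lit 0) .nil) .nil))) 
(.lf (nat_lit 535063) (.g (nat_lit 662) (.e (nat_lit 57688) (nat_lit 156) (.e (nat_lit 163905) (nat_lit 12) (.e (nat_lit 426530) (nat_lit 27) .nil))) (.g (nat_lit 0) (.e (nat_lit 256666) (nat_lit 0) .nil) .nil)))) (.nd (nat_lit 9) 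
(.lf (nat_lit 534807) (.g (nat_lit 2137) (.e (nat_lit 65280) (nat_lit 62) (.e (nat_lit 164327) (nat_lit 230) (.e (nat_lit 163903) (nat_lit 12) (.e (nat_lit 426438) (nat_lit 18) .nil)))) (.g (nat_lit 0) (.e (nat_lit 255500) (nat_lit 0) .nil) .nil))) 
(.lf (nat_lit 535319) (.g (nat_lit 2390) (.e (nat_lit 57810) (nat_lit 246) (.e (nat_lit 57883) (nat_lit 270) (.e (nat_lit 496) (nat_lit 39) (.e (nat_lit 483403) (nat_lit 26) (.e (nat_lit 385057) (nat_lit 22) (.e (nat_lit 499780) (nat_lit 1) .nil)))))) (.g (nat_lit 1) (.e (nat_lit 258019) (nat_lit 0) .nil) .nil))))) (.nd (nat_lit 8) (.nd (nat_lit 9) 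
(.lf (nat_lit 534679) (.g (nat_lit 3795) (.e (nat_lit 57574) (nat_lit 55) (.e (nat_lit 778465) (nat_lit 11) (.e (nat_lit 24604) (nat_lit 2) (.e (nat_lit 90176) (nat_lit 15) (.e (nat_lit 188440) (nat_lit 20) (.e (nat_lit 3307) (nat_lit 202) (.e (nat_lit 573478) (nat_lit 12) .nil))))))) (.g (nat_lit 1) (.e (nat_lit 255084) (nat_lit 0) .nil) .nil))) 
(.lf (nat_lit 535191) (.g (nat_lit 901) (.e (nat_lit 57692) (nat_lit 156) (.e (nat_lit 163907) (nat_lit 12) (.e (nat_lit 426438) (nat_lit 18) (.e (nat_lit 98370) (nat_lit 28) .nil)))) (.g (nat_lit 0) (.e (nat_lit 257070) (nat_lit 0) .nil) .nil)))) (.nd (nat_lit 9) 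
(.lf (nat_lit 534935) (.g (nat_lit 1623) (.e (nat_lit 57686) (nat_lit 156) (.e (nat_lit 163902) (nat_lit 12) (.e (nat_lit 426434) (nat_lit 18) (.e (nat_lit 98365) (nat_lit 26) (.e (nat_lit 426334) (nat_lit 13) .nil))))) (.g (nat_lit 0) (.e (nat_lit 256382) (nat_lit 0) .nil) .nil))) 
(.lf (nat_lit 535447) (.g (nat_lit 3790) (.e (nat_lit 57847) (nat_lit 252) (.e (nat_lit 57407) (nat_lit 12) (.e (nat_lit 336316) (nat_lit 17) (.e (nat_lit 196666) (nat_lit 13) (.e (nat_lit 65617) (nat_lit 10) (.e (nat_lit 344091) (nat_lit 18) (.e (nat_lit 7695) (nat_lit 412) (.e (nat_lit 57366) (nat_lit 1) .nil)))))))) (.g (nat_lit 1) (.e (nat_lit 258301) (nat_lit 0) .nil) .nil)))))) 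
(.nd (nat_lit 7) (.nd (nat_lit 8) (.nd (nat_lit 9) 
(.lf (nat_lit 534615) (.g (nat_lit 3423) (.e (nat_lit 57504) (nat_lit 38) (.e (nat_lit 638995) (nat_lit 7) (.e (nat_lit 163978) (nat_lit 30) (.e (nat_lit 573487) (nat_lit 14) (.e (nat_lit 73754) (nat_lit 8) .nil))))) (.g (nat_lit 0) (.e (nat_lit 254934) (nat_lit 0) .nil) .nil))) 
(.lf (nat_lit 535127) (.g (nat_lit 3661) (.e (nat_lit 57691) (nat_lit 156) (.e (nat_lit 163907) (nat_lit 12) (.e (nat_lit 426128) (nat_lit 2) (.e (nat_lit 196672) (nat_lit 15) (.e (nat_lit 81954) (nat_lit 23) (.e (nat_lit 106240) (nat_lit 1) .nil)))))) (.g (nat_lit 1) (.e (nat_lit 256878) (nat_lit 0) .nil) .nil)))) (.nd (nat_lit 9) 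
(.lf (nat_lit 534871) (.g (nat_lit 2042) (.e (nat_lit 57606) (nat_lit 107) (.e (nat_lit 704597) (nat_lit 6) (.e (nat_lit 188452) (nat_lit 23) (.e (nat_lit 204805) (nat_lit 0) (.e (nat_lit 7105) (nat_lit 380) (.e (nat_lit 164281) (nat_lit 222) .nil)))))) (.g (nat_lit 1) (.e (nat_lit 255910) (nat_lit 0) .nil) .nil))) 
(.lf (nat_lit 535383) (.g (nat_lit 2613) (.e (nat_lit 57845) (nat_lit 252) (.e (nat_lit 57406) (nat_lit 12) (.e (nat_lit 336454) (nat_lit 34) (.e (nat_lit 483406) (nat_lit 26) .nil)))) (.g (nat_lit 0) (.e (nat_lit 258214) (nat_lit 0) .nil) .nil))))) (.nd (nat_lit 8) (.nd (nat_lit 9) 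
(.lf (nat_lit 534743) (.g (nat_lit 2434) (.e (nat_lit 57574) (nat_lit 55) (.e (nat_lit 778466) (nat_lit 11) (.e (nat_lit 24608) (nat_lit 3) (.e (nat_lit 98362) (nat_lit 26) .nil)))) (.g (nat_lit 0) (.e (nat_lit 255193) (nat_lit 0) .nil) .nil))) 
(.lf (nat_lit 535255) (.g (nat_lit 2625) (.e (nat_lit 57750) (nat_lit 201) (.e (nat_lit 2854) (nat_lit 184) (.e (nat_lit 426402) (nat_lit 15) (.e (nat_lit 1859) (nat_lit 124) (.e (nat_lit 557107) (nat_lit 15) (.e (nat_lit 188447) (nat_lit 22) (.e (nat_lit 196661) (nat_lit 12) .nil))))))) (.g (nat_lit 1) (.e (nat_lit 257509) (nat_lit 0) .nil) .nil)))) (.nd (nat_lit 9) 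
(.lf (nat_lit 534999) (.g (nat_lit 2050) (.e (nat_lit 57687) (nat_lit 156) (.e (nat_lit 163907) (nat_lit 12) (.e (nat_lit 426479) (nat_lit 27) (.e (nat_lit 336432) (nat_lit 30) (.e (nat_lit 450580) (nat_lit 5) .nil))))) (.g (nat_lit 0) (.e (nat_lit 256499) (nat_lit 0) .nil) .nil))) 
(.lf (nat_lit 535511) (.g (nat_lit 1935) (.e (nat_lit 57848) (nat_lit 252) (.e (nat_lit 57407) (nat_lit 12) (.e (nat_lit 336454) (nat_lit 34) (.e (nat_lit 483404) (nat_lit 26) .nil)))) (.g (nat_lit 0) (.e (nat_lit 258404) (nat_lit 0) .nil) .nil))))))) (.nd (nat_lit 6) (.nd (nat_lit 7) (.nd (nat_lit 8) (.nd (nat_lit 9) 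
(.lf (nat_lit 534583) (.g (nat_lit 4590) (.e (nat_lit 57501) (nat_lit 37) (.e (nat_lit 630799) (nat_lit 7) (.e (nat_lit 163979) (nat_lit 30) (.e (nat_lit 573489) (nat_lit 14) (.e (nat_lit 73755) (nat_lit 8) (.e (nat_lit 557105) (nat_lit 14) (.e (nat_lit 180252) (nat_lit 10) (.e (nat_lit 573473) (nat_lit 12) .nil)))))))) (.g (nat_lit 1) (.e (nat_lit 254886) (nat_lit 0) .nil) .nil))) 
(.lf (nat_lit 535095) (.g (nat_lit 5116) (.e (nat_lit 57689) (nat_lit 156) (.e (nat_lit 163875) (nat_lit 3) (.e (nat_lit 204837) (nat_lit 20) (.e (nat_lit 114719) (nat_lit 23) (.e (nat_lit 98367) (nat_lit 27) (.e (nat_lit 434231) (nat_lit 23) (.e (nat_lit 532500) (nat_lit 1) .nil))))))) (.g (nat_lit 1) (.e (nat_lit 256821) (nat_lit 0) .nil) .nil)))) (.nd (nat_lit 9) 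
(.lf (nat_lit 534839) (.g (nat_lit 2059) (.e (nat_lit 57596) (nat_lit 82) (.e (nat_lit 499900) (nat_lit 7) (.e (nat_lit 24625) (nat_lit 9) (.e (nat_lit 336450) (nat_lit 33) (.e (nat_lit 475152) (nat_lit 17) (.e (nat_lit 57815) (nat_lit 246) .nil)))))) (.g (nat_lit 1) (.e (nat_lit 255791) (nat_lit 0) .nil) .nil))) 
(.lf (nat_lit 535351) (.g (nat_lit 612) (.e (nat_lit 57858) (nat_lit 255) (.e (nat_lit 229412) (nat_lit 14) (.e (nat_lit 442421) (nat_lit 21) .nil))) (.g (nat_lit 0) (.e (nat_lit 258146) (nat_lit 0) .nil) .nil))))) (.nd (nat_lit 8) (.nd (nat_lit 9) 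
(.lf (nat_lit 534711) (.g (nat_lit 2721) (.e (nat_lit 57574) (nat_lit 55) (.e (nat_lit 778466) (nat_lit 11) (.e (nat_lit 24604) (nat_lit 2) (.e (nat_lit 90176) (nat_lit 15) (.e (nat_lit 188424) (nat_lit 20) (.e (nat_lit 3304) (nat_lit 202) (.e (nat_lit 573477) (nat_lit 12) .nil))))))) (.g (nat_lit 1) (.e (nat_lit 255156) (nat_lit 0) .nil) .nil))) 
(.lf (nat_lit 535223) (.g (nat_lit 1322) (.e (nat_lit 65280) (nat_lit 168) (.e (nat_lit 163875) (nat_lit 3) (.e (nat_lit 204863) (nat_lit 27) (.e (nat_lit 344132) (nat_lit 26) .nil)))) (.g (nat_lit 0) (.e (nat_lit 257289) (nat_lit 0) .nil) .nil)))) (.nd (nat_lit 9) 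
(.lf (nat_lit 534967) (.g (nat_lit 1598) (.e (nat_lit 57686) (nat_lit 156) (.e (nat_lit 163908) (nat_lit 12) (.e (nat_lit 426412) (nat_lit 15) (.e (nat_lit 1800) (nat_lit 119) .nil)))) (.g (nat_lit 0) (.e (nat_lit 256418) (nat_lit 0) .nil) .nil))) 
(.lf (nat_lit 535479) (.g (nat_lit 2410) (.e (nat_lit 57848) (nat_lit 252) (.e (nat_lit 57372) (nat_lit 2) (.e (nat_lit 90160) (nat_lit 11) (.e (nat_lit 24638) (nat_lit 9) (.e (nat_lit 343808) (nat_lit 34) .nil))))) (.g (nat_lit 0) (.e (nat_lit 258345) (nat_lit 0) .nil) .nil)))))) (.nd (nat_lit 7) (.nd (nat_lit 8) (.nd (nat_lit 9) 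
(.lf (nat_lit 534647) (.g (nat_lit 4628) (.e (nat_lit 57572) (nat_lit 54) (.e (nat_lit 770072) (nat_lit 8) (.e (nat_lit 65569) (nat_lit 3) (.e (nat_lit 98359) (nat_lit 26) (.e (nat_lit 426286) (nat_lit 10) (.e (nat_lit 434247) (nat_lit 28) (.e (nat_lit 573475) (nat_lit 12) .nil))))))) (.g (nat_lit 1) (.e (nat_lit 255045) (nat_lit 0) .nil) .nil))) 
(.lf (nat_lit 535159) (.g (nat_lit 2975) (.e (nat_lit 57692) (nat_lit 156) (.e (nat_lit 163875) (nat_lit 3) (.e (nat_lit 204830) (nat_lit 18) (.e (nat_lit 57854) (nat_lit 252) (.e (nat_lit 57431) (nat_lit 16) (.e (nat_lit 368676) (nat_lit 21) (.e (nat_lit 516146) (nat_lit 9) (.e (nat_lit 426422) (nat_lit 16) .nil)))))))) (.g (nat_lit 1) (.e (nat_lit 256983) (nat_lit 0) .nil) .nil)))) 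
(.nd (nat_lit 9) 
(.lf (nat_lit 534903) (.g (nat_lit 1352) (.e (nat_lit 57610) (nat_lit 109) (.e (nat_lit 720909) (nat_lit 11) (.e (nat_lit 426197) (nat_lit 9) (.e (nat_lit 426550) (nat_lit 31) (.e (nat_lit 368656) (nat_lit 14) (.e (nat_lit 57816) (nat_lit 246) .nil)))))) (.g (nat_lit 1) (.e (nat_lit 255999) (nat_lit 0) .nil) .nil))) 
(.lf (nat_lit 535415) (.g (nat_lit 3068) (.e (nat_lit 57847) (nat_lit 252) (.e (nat_lit 57372) (nat_lit 2) (.e (nat_lit 90158) (nat_lit 11) (.e (nat_lit 24608) (nat_lit 3) (.e (nat_lit 98321) (nat_lit 17) (.e (nat_lit 3771) (nat_lit 229) (.e (nat_lit 794673) (nat_lit 23) (.e (nat_lit 204829) (nat_lit 18) .nil)))))))) (.g (nat_lit 1) (.e (nat_lit 258259) (nat_lit 0) .nil) .nil))))) 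
(.nd (nat_lit 8) (.nd (nat_lit 9) 
(.lf (nat_lit 534775) (.g (nat_lit 3588) (.e (nat_lit 57575) (nat_lit 55) (.e (nat_lit 778466) (nat_lit 11) (.e (nat_lit 24604) (nat_lit 2) (.e (nat_lit 90178) (nat_lit 15) (.e (nat_lit 188441) (nat_lit 20) (.e (nat_lit 3307) (nat_lit 202) (.e (nat_lit 573477) (nat_lit 12) .nil))))))) (.g (nat_lit 1) (.e (nat_lit 255275) (nat_lit 0) .nil) .nil))) 
(.lf (nat_lit 535287) (.g (nat_lit 2217) (.e (nat_lit 65280) (nat_lit 241) (.e (nat_lit 57374) (nat_lit 2) (.e (nat_lit 90170) (nat_lit 13) (.e (nat_lit 172106) (nat_lit 10) (.e (nat_lit 434231) (nat_lit 23) .nil))))) (.g (nat_lit 0) (.e (nat_lit 257957) (nat_lit 0) .nil) .nil)))) (.nd (nat_lit 9) 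
(.lf (nat_lit 535031) (.g (nat_lit 1601) (.e (nat_lit 57688) (nat_lit 156) (.e (nat_lit 163902) (nat_lit 12) (.e (nat_lit 426437) (nat_lit 18) (.e (nat_lit 98381) (nat_lit 31) (.e (nat_lit 466954) (nat_lit 11) .nil))))) (.g (nat_lit 0) (.e (nat_lit 256615) (nat_lit 0) .nil) .nil))) 
(.lf (nat_lit 535543) (.g (nat_lit 2435) (.e (nat_lit 57849) (nat_lit 252) (.e (nat_lit 57373) (nat_lit 2) (.e (nat_lit 90158) (nat_lit 11) (.e (nat_lit 24630) (nat_lit 9) (.e (nat_lit 336454) (nat_lit 34) .nil))))) (.g (nat_lit 0) (.e (nat_lit 258439) (nat_lit 0) .nil) .nil))))))))) (.nd (nat_lit 4) (.nd (nat_lit 5) (.nd (nat_lit 6) (.nd (nat_lit 7) (.nd (nat_lit 8) (.nd (nat_lit 9) 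
(.lf (nat_lit 534543) (.g (nat_lit 5532) (.e (nat_lit 57480) (nat_lit 28) (.e (nat_lit 557098) (nat_lit 13) (.e (nat_lit 172114) (nat_lit 10) (.e (nat_lit 434231) (nat_lit 23) (.e (nat_lit 532535) (nat_lit 9) (.e (nat_lit 336295) (nat_lit 15) (.e (nat_lit 3632) (nat_lit 227) (.e (nat_lit 778317) (nat_lit 3) .nil)))))))) (.g (nat_lit 1) (.e (nat_lit 254824) (nat_lit 0) .nil) .nil))) 
(.lf (nat_lit 535055) (.g (nat_lit 653) (.e (nat_lit 57688) (nat_lit 156) (.e (nat_lit 163903) (nat_lit 12) (.e (nat_lit 426481) (nat_lit 27) .nil))) (.g (nat_lit 0) (.e (nat_lit 256647) (nat_lit 0) .nil) .nil)))) (.nd (nat_lit 9) 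
(.lf (nat_lit 534799) (.g (nat_lit 2457) (.e (nat_lit 57539) (nat_lit 46) (.e (nat_lit 704738) (nat_lit 11) (.e (nat_lit 16425) (nat_lit 7) (.e (nat_lit 409649) (nat_lit 18) (.e (nat_lit 303140) (nat_lit 10) .nil))))) (.g (nat_lit 0) (.e (nat_lit 255388) (nat_lit 0) .nil) .nil))) 
(.lf (nat_lit 535311) (.g (nat_lit 1617) (.e (nat_lit 57810) (nat_lit 246) (.e (nat_lit 57879) (nat_lit 270) (.e (nat_lit 496) (nat_lit 39) (.e (nat_lit 483383) (nat_lit 23) (.e (nat_lit 343808) (nat_lit 17) (.e (nat_lit 196698) (nat_lit 19) .nil)))))) (.g (nat_lit 1) (.e (nat_lit 258011) (nat_lit 0) .nil) .nil))))) (.nd (nat_lit 8) (.nd (nat_lit 9) 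
(.lf (nat_lit 534671) (.g (nat_lit 2586) (.e (nat_lit 57574) (nat_lit 55) (.e (nat_lit 778465) (nat_lit 11) (.e (nat_lit 24604) (nat_lit 2) (.e (nat_lit 90169) (nat_lit 13) (.e (nat_lit 172111) (nat_lit 10) (.e (nat_lit 434247) (nat_lit 28) (.e (nat_lit 573478) (nat_lit 12) .nil))))))) (.g (nat_lit 1) (.e (nat_lit 255076) (nat_lit 0) .nil) .nil))) 
(.lf (nat_lit 535183) (.g (nat_lit 810) (.e (nat_lit 57692) (nat_lit 156) (.e (nat_lit 163907) (nat_lit 12) (.e (nat_lit 426354) (nat_lit 15) .nil))) (.g (nat_lit 0) (.e (nat_lit 257058) (nat_lit 0) .nil) .nil)))) (.nd (nat_lit 9) 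
(.lf (nat_lit 534927) (.g (nat_lit 2319) (.e (nat_lit 57685) (nat_lit 156) (.e (nat_lit 163907) (nat_lit 12) (.e (nat_lit 426438) (nat_lit 18) (.e (nat_lit 98358) (nat_lit 26) (.e (nat_lit 426323) (nat_lit 13) .nil))))) (.g (nat_lit 0) (.e (nat_lit 256353) (nat_lit 0) .nil) .nil))) 
(.lf (nat_lit 535439) (.g (nat_lit 2172) (.e (nat_lit 57847) (nat_lit 252) (.e (nat_lit 57406) (nat_lit 12) (.e (nat_lit 336454) (nat_lit 34) (.e (nat_lit 483385) (nat_lit 23) .nil)))) (.g (nat_lit 0) (.e (nat_lit 258293) (nat_lit 0) .nil) .nil)))))) (.nd (nat_lit 7) (.nd (nat_lit 8) (.nd (nat_lit 9) 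
(.lf (nat_lit 534607) (.g (nat_lit 1651) (.e (nat_lit 57503) (nat_lit 38) (.e (nat_lit 638995) (nat_lit 7) (.e (nat_lit 163979) (nat_lit 30) (.e (nat_lit 573488) (nat_lit 14) (.e (nat_lit 73755) (nat_lit 8) .nil))))) (.g (nat_lit 0) (.e (nat_lit 254914) (nat_lit 0) .nil) .nil))) 
(.lf (nat_lit 535119) (.g (nat_lit 963) (.e (nat_lit 57691) (nat_lit 156) (.e (nat_lit 163905) (nat_lit 12) (.e (nat_lit 426566) (nat_lit 34) .nil))) (.g (nat_lit 0) (.e (nat_lit 256869) (nat_lit 0) .nil) .nil)))) (.nd (nat_lit 9) 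
(.lf (nat_lit 534863) (.g (nat_lit 3251) (.e (nat_lit 57615) (nat_lit 116) (.e (nat_lit 778466) (nat_lit 11) (.e (nat_lit 24617) (nat_lit 7) (.e (nat_lit 319533) (nat_lit 16) (.e (nat_lit 286753) (nat_lit 10) .nil))))) (.g (nat_lit 0) (.e (nat_lit 255899) (nat_lit 0) .nil) .nil))) 
(.lf (nat_lit 535375) (.g (nat_lit 4092) (.e (nat_lit 57844) (nat_lit 252) (.e (nat_lit 57445) (nat_lit 19) (.e (nat_lit 393229) (nat_lit 9) (.e (nat_lit 336100) (nat_lit 9) .nil)))) (.g (nat_lit 0) (.e (nat_lit 258204) (nat_lit 0) .nil) .nil))))) (.nd (nat_lit 8) (.nd (nat_lit 9) 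
(.lf (nat_lit 534735) (.g (nat_lit 4100) (.e (nat_lit 57574) (nat_lit 55) (.e (nat_lit 778466) (nat_lit 11) (.e (nat_lit 24608) (nat_lit 3) (.e (nat_lit 98356) (nat_lit 26) (.e (nat_lit 426273) (nat_lit 10) (.e (nat_lit 434247) (nat_lit 28) (.e (nat_lit 573477) (nat_lit 12) .nil))))))) (.g (nat_lit 1) (.e (nat_lit 255183) (nat_lit 0) .nil) .nil))) 
(.lf (nat_lit 535247) (.g (nat_lit 1633) (.e (nat_lit 57716) (nat_lit 176) (.e (nat_lit 1348) (nat_lit 102) (.e (nat_lit 286735) (nat_lit 3) (.e (nat_lit 98382) (nat_lit 31) .nil)))) (.g (nat_lit 0) (.e (nat_lit 257377) (nat_lit 0) .nil) .nil)))) (.nd (nat_lit 9) 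
(.lf (nat_lit 534991) (.g (nat_lit 1062) (.e (nat_lit 57687) (nat_lit 156) (.e (nat_lit 163903) (nat_lit 12) (.e (nat_lit 426566) (nat_lit 34) (.e (nat_lit 393289) (nat_lit 25) .nil)))) (.g (nat_lit 0) (.e (nat_lit 256489) (nat_lit 0) .nil) .nil))) 
(.lf (nat_lit 535503) (.g (nat_lit 752) (.e (nat_lit 57848) (nat_lit 252) (.e (nat_lit 57407) (nat_lit 12) (.e (nat_lit 336324) (nat_lit 18) .nil))) (.g (nat_lit 0) (.e (nat_lit 258396) (nat_lit 0) .nil) .nil))))))) (.nd (nat_lit 6) (.nd (nat_lit 7) (.nd (nat_lit 8) (.nd (nat_lit 9) 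
(.lf (nat_lit 534575) (.g (nat_lit 3566) (.e (nat_lit 57480) (nat_lit 28) (.e (nat_lit 557109) (nat_lit 15) (.e (nat_lit 188449) (nat_lit 22) (.e (nat_lit 196666) (nat_lit 13) (.e (nat_lit 65638) (nat_lit 15) (.e (nat_lit 3716) (nat_lit 227) (.e (nat_lit 778316) (nat_lit 3) .nil))))))) (.g (nat_lit 1) (.e (nat_lit 254860) (nat_lit 0) .nil) .nil))) 
(.lf (nat_lit 535087) (.g (nat_lit 2950) (.e (nat_lit 57688) (nat_lit 156) (.e (nat_lit 163933) (nat_lit 17) (.e (nat_lit 466971) (nat_lit 21) (.e (nat_lit 164325) (nat_lit 230) (.e (nat_lit 163861) (nat_lit 1) (.e (nat_lit 164332) (nat_lit 230) (.e (nat_lit 163905) (nat_lit 12) (.e (nat_lit 426422) (nat_lit 16) .nil)))))))) (.g (nat_lit 1) (.e (nat_lit 256764) (nat_lit 0) .nil) .nil)))) 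
(.nd (nat_lit 9) 
(.lf (nat_lit 534831) (.g (nat_lit 2642) (.e (nat_lit 57592) (nat_lit 73) (.e (nat_lit 426316) (nat_lit 12) (.e (nat_lit 475185) (nat_lit 29) (.e (nat_lit 557100) (nat_lit 13) .nil)))) (.g (nat_lit 0) (.e (nat_lit 255744) (nat_lit 0) .nil) .nil))) 
(.lf (nat_lit 535343) (.g (nat_lit 4692) (.e (nat_lit 57857) (nat_lit 254) (.e (nat_lit 163908) (nat_lit 12) (.e (nat_lit 426171) (nat_lit 7) (.e (nat_lit 409646) (nat_lit 18) (.e (nat_lit 303146) (nat_lit 14) (.e (nat_lit 491546) (nat_lit 9) (.e (nat_lit 335997) (nat_lit 1) .nil))))))) (.g (nat_lit 1) (.e (nat_lit 258127) (nat_lit 0) .nil) .nil))))) (.nd (nat_lit 8) (.nd (nat_lit 9) 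
(.lf (nat_lit 534703) (.g (nat_lit 2523) (.e (nat_lit 57574) (nat_lit 55) (.e (nat_lit 778466) (nat_lit 11) (.e (nat_lit 24604) (nat_lit 2) (.e (nat_lit 90169) (nat_lit 13) (.e (nat_lit 172105) (nat_lit 10) (.e (nat_lit 434247) (nat_lit 28) (.e (nat_lit 573477) (nat_lit 12) .nil))))))) (.g (nat_lit 1) (.e (nat_lit 255147) (nat_lit 0) .nil) .nil))) 
(.lf (nat_lit 535215) (.g (nat_lit 1651) (.e (nat_lit 65280) (nat_lit 168) (.e (nat_lit 163874) (nat_lit 3) (.e (nat_lit 204862) (nat_lit 27) (.e (nat_lit 344133) (nat_lit 26) (.e (nat_lit 557103) (nat_lit 14) .nil))))) (.g (nat_lit 0) (.e (nat_lit 257281) (nat_lit 0) .nil) .nil)))) (.nd (nat_lit 9) 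
(.lf (nat_lit 534959) (.g (nat_lit 716) (.e (nat_lit 57686) (nat_lit 156) (.e (nat_lit 163905) (nat_lit 12) (.e (nat_lit 426438) (nat_lit 18) .nil))) (.g (nat_lit 0) (.e (nat_lit 256408) (nat_lit 0) .nil) .nil))) 
(.lf (nat_lit 535471) (.g (nat_lit 1653) (.e (nat_lit 57848) (nat_lit 252) (.e (nat_lit 57371) (nat_lit 2) (.e (nat_lit 90160) (nat_lit 11) (.e (nat_lit 24628) (nat_lit 9) .nil)))) (.g (nat_lit 0) (.e (nat_lit 258334) (nat_lit 0) .nil) .nil)))))) (.nd (nat_lit 7) (.nd (nat_lit 8) (.nd (nat_lit 9) 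
(.lf (nat_lit 534639) (.g (nat_lit 5116) (.e (nat_lit 57572) (nat_lit 54) (.e (nat_lit 770071) (nat_lit 8) (.e (nat_lit 65568) (nat_lit 2) (.e (nat_lit 90170) (nat_lit 13) (.e (nat_lit 172113) (nat_lit 10) (.e (nat_lit 434245) (nat_lit 28) (.e (nat_lit 573474) (nat_lit 12) .nil))))))) (.g (nat_lit 1) (.e (nat_lit 255032) (nat_lit 0) .nil) .nil))) 
(.lf (nat_lit 535151) (.g (nat_lit 4354) (.e (nat_lit 57692) (nat_lit 156) (.e (nat_lit 163874) (nat_lit 3) (.e (nat_lit 204837) (nat_lit 20) (.e (nat_lit 114714) (nat_lit 22) (.e (nat_lit 90174) (nat_lit 14) (.e (nat_lit 180243) (nat_lit 5) (.e (nat_lit 532502) (nat_lit 1) .nil))))))) (.g (nat_lit 1) (.e (nat_lit 256975) (nat_lit 0) .nil) .nil)))) (.nd (nat_lit 9) 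
(.lf (nat_lit 534895) (.g (nat_lit 1069) (.e (nat_lit 57610) (nat_lit 109) (.e (nat_lit 720909) (nat_lit 11) (.e (nat_lit 426197) (nat_lit 9) (.e (nat_lit 426533) (nat_lit 28) (.e (nat_lit 344084) (nat_lit 14) (.e (nat_lit 57815) (nat_lit 246) .nil)))))) (.g (nat_lit 1) (.e (nat_lit 255991) (nat_lit 0) .nil) .nil))) 
(.lf (nat_lit 535407) (.g (nat_lit 1236) (.e (nat_lit 57846) (nat_lit 252) (.e (nat_lit 57407) (nat_lit 12) (.e (nat_lit 336456) (nat_lit 34) (.e (nat_lit 483402) (nat_lit 26) .nil)))) (.g (nat_lit 0) (.e (nat_lit 258250) (nat_lit 0) .nil) .nil))))) (.nd (nat_lit 8) (.nd (nat_lit 9) 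
(.lf (nat_lit 534767) (.g (nat_lit 2891) (.e (nat_lit 57575) (nat_lit 55) (.e (nat_lit 778465) (nat_lit 11) (.e (nat_lit 24604) (nat_lit 2) (.e (nat_lit 90176) (nat_lit 15) (.e (nat_lit 188442) (nat_lit 20) (.e (nat_lit 3304) (nat_lit 202) (.e (nat_lit 573477) (nat_lit 12) .nil))))))) (.g (nat_lit 1) (.e (nat_lit 255265) (nat_lit 0) .nil) .nil))) 
(.lf (nat_lit 535279) (.g (nat_lit 3764) (.e (nat_lit 57751) (nat_lit 201) (.e (nat_lit 3067) (nat_lit 190) (.e (nat_lit 475185) (nat_lit 29) (.e (nat_lit 557109) (nat_lit 15) (.e (nat_lit 188449) (nat_lit 22) (.e (nat_lit 196661) (nat_lit 12) .nil)))))) (.g (nat_lit 1) (.e (nat_lit 257704) (nat_lit 0) .nil) .nil)))) (.nd (nat_lit 9) 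
(.lf (nat_lit 535023) (.g (nat_lit 3423) (.e (nat_lit 57688) (nat_lit 156) (.e (nat_lit 163875) (nat_lit 3) (.e (nat_lit 204830) (nat_lit 18) (.e (nat_lit 57852) (nat_lit 252) (.e (nat_lit 57431) (nat_lit 16) (.e (nat_lit 368676) (nat_lit 21) (.e (nat_lit 516146) (nat_lit 9) (.e (nat_lit 426422) (nat_lit 16) .nil)))))))) (.g (nat_lit 1) (.e (nat_lit 256604) (nat_lit 0) .nil) .nil))) 
(.lf (nat_lit 535535) (.g (nat_lit 962) (.e (nat_lit 57849) (nat_lit 252) (.e (nat_lit 57372) (nat_lit 2) (.e (nat_lit 90133) (nat_lit 9) (.e (nat_lit 333) (nat_lit 26) .nil)))) (.g (nat_lit 0) (.e (nat_lit 258428) (nat_lit 0) .nil) .nil)))))))) (.nd (nat_lit 5) (.nd (nat_lit 6) (.nd (nat_lit 7) (.nd (nat_lit 8) (.nd (nat_lit 9) 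
(.lf (nat_lit 534559) (.g (nat_lit 2353) (.e (nat_lit 57480) (nat_lit 28) (.e (nat_lit 557107) (nat_lit 15) (.e (nat_lit 188450) (nat_lit 23) (.e (nat_lit 204852) (nat_lit 26) (.e (nat_lit 336296) (nat_lit 15) (.e (nat_lit 3716) (nat_lit 227) (.e (nat_lit 778316) (nat_lit 3) .nil))))))) (.g (nat_lit 1) (.e (nat_lit 254844) (nat_lit 0) .nil) .nil))) 
(.lf (nat_lit 535071) (.g (nat_lit 2099) (.e (nat_lit 57688) (nat_lit 156) (.e (nat_lit 163907) (nat_lit 12) (.e (nat_lit 426434) (nat_lit 18) (.e (nat_lit 98358) (nat_lit 26) (.e (nat_lit 426323) (nat_lit 13) .nil))))) (.g (nat_lit 0) (.e (nat_lit 256679) (nat_lit 0) .nil) .nil)))) (.nd (nat_lit 9) 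
(.lf (nat_lit 534815) (.g (nat_lit 753) (.e (nat_lit 65280) (nat_lit 65) (.e (nat_lit 213030) (nat_lit 11) (.e (nat_lit 24597) (nat_lit 1) .nil))) (.g (nat_lit 0) (.e (nat_lit 255591) (nat_lit 0) .nil) .nil))) 
(.lf (nat_lit 535327) (.g (nat_lit 2059) (.e (nat_lit 57829) (nat_lit 250) (.e (nat_lit 1183) (nat_lit 87) (.e (nat_lit 57478) (nat_lit 28) (.e (nat_lit 557103) (nat_lit 14) (.e (nat_lit 180250) (nat_lit 10) .nil))))) (.g (nat_lit 0) (.e (nat_lit 258078) (nat_lit 0) .nil) .nil))))) (.nd (nat_lit 8) (.nd (nat_lit 9) 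
(.lf (nat_lit 534687) (.g (nat_lit 3965) (.e (nat_lit 57574) (nat_lit 55) (.e (nat_lit 778465) (nat_lit 11) (.e (nat_lit 24607) (nat_lit 3) (.e (nat_lit 98372) (nat_lit 29) (.e (nat_lit 450586) (nat_lit 10) (.e (nat_lit 573475) (nat_lit 12) .nil)))))) (.g (nat_lit 1) (.e (nat_lit 255092) (nat_lit 0) .nil) .nil))) 
(.lf (nat_lit 535199) (.g (nat_lit 503) (.e (nat_lit 65280) (nat_lit 156) (.e (nat_lit 163902) (nat_lit 12) (.e (nat_lit 426479) (nat_lit 27) .nil))) (.g (nat_lit 0) (.e (nat_lit 257115) (nat_lit 0) .nil) .nil)))) (.nd (nat_lit 9) 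
(.lf (nat_lit 534943) (.g (nat_lit 625) (.e (nat_lit 57686) (nat_lit 156) (.e (nat_lit 163902) (nat_lit 12) (.e (nat_lit 426566) (nat_lit 34) .nil))) (.g (nat_lit 0) (.e (nat_lit 256391) (nat_lit 0) .nil) .nil))) 
(.lf (nat_lit 535455) (.g (nat_lit 2137) (.e (nat_lit 57847) (nat_lit 252) (.e (nat_lit 57407) (nat_lit 12) (.e (nat_lit 336456) (nat_lit 34) (.e (nat_lit 483346) (nat_lit 17) (.e (nat_lit 6445) (nat_lit 343) .nil))))) (.g (nat_lit 0) (.e (nat_lit 258310) (nat_lit 0) .nil) .nil)))))) (.nd (nat_lit 7) (.nd (nat_lit 8) (.nd (nat_lit 9) 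
(.lf (nat_lit 534623) (.g (nat_lit 2204) (.e (nat_lit 57507) (nat_lit 39) (.e (nat_lit 647201) (nat_lit 12) (.e (nat_lit 57574) (nat_lit 55) (.e (nat_lit 778455) (nat_lit 10) .nil)))) (.g (nat_lit 0) (.e (nat_lit 254959) (nat_lit 0) .nil) .nil))) 
(.lf (nat_lit 535135) (.g (nat_lit 418) (.e (nat_lit 57691) (nat_lit 156) (.e (nat_lit 163907) (nat_lit 12) (.e (nat_lit 426566) (nat_lit 34) .nil))) (.g (nat_lit 0) (.e (nat_lit 256916) (nat_lit 0) .nil) .nil)))) (.nd (nat_lit 9) 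
(.lf (nat_lit 534879) (.g (nat_lit 2123) (.e (nat_lit 57610) (nat_lit 109) (.e (nat_lit 720909) (nat_lit 11) (.e (nat_lit 426187) (nat_lit 9) (.e (nat_lit 426550) (nat_lit 31) (.e (nat_lit 368656) (nat_lit 14) (.e (nat_lit 57814) (nat_lit 246) .nil)))))) (.g (nat_lit 1) (.e (nat_lit 255975) (nat_lit 0) .nil) .nil))) 
(.lf (nat_lit 535391) (.g (nat_lit 1272) (.e (nat_lit 57846) (nat_lit 252) (.e (nat_lit 57372) (nat_lit 2) (.e (nat_lit 90160) (nat_lit 11) (.e (nat_lit 24634) (nat_lit 9) .nil)))) (.g (nat_lit 0) (.e (nat_lit 258222) (nat_lit 0) .nil) .nil))))) (.nd (nat_lit 8) (.nd (nat_lit 9) 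
(.lf (nat_lit 534751) (.g (nat_lit 3389) (.e (nat_lit 57574) (nat_lit 55) (.e (nat_lit 778466) (nat_lit 11) (.e (nat_lit 24608) (nat_lit 3) (.e (nat_lit 98381) (nat_lit 31) (.e (nat_lit 466967) (nat_lit 20) .nil))))) (.g (nat_lit 0) (.e (nat_lit 255201) (nat_lit 0) .nil) .nil))) 
(.lf (nat_lit 535263) (.g (nat_lit 4247) (.e (nat_lit 57750) (nat_lit 201) (.e (nat_lit 3067) (nat_lit 190) (.e (nat_lit 475184) (nat_lit 29) (.e (nat_lit 557098) (nat_lit 13) (.e (nat_lit 172097) (nat_lit 9) (.e (nat_lit 426125) (nat_lit 2) (.e (nat_lit 196661) (nat_lit 12) .nil))))))) (.g (nat_lit 1) (.e (nat_lit 257528) (nat_lit 0) .nil) .nil)))) (.nd (nat_lit 9) 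
(.lf (nat_lit 535007) (.g (nat_lit 705) (.e (nat_lit 57687) (nat_lit 156) (.e (nat_lit 163933) (nat_lit 17) (.e (nat_lit 466972) (nat_lit 21) .nil))) (.g (nat_lit 0) (.e (nat_lit 256540) (nat_lit 0) .nil) .nil))) 
(.lf (nat_lit 535519) (.g (nat_lit 938) (.e (nat_lit 57848) (nat_lit 252) (.e (nat_lit 57407) (nat_lit 12) (.e (nat_lit 336456) (nat_lit 34) (.e (nat_lit 483391) (nat_lit 23) .nil)))) (.g (nat_lit 0) (.e (nat_lit 258412) (nat_lit 0) .nil) .nil))))))) (.nd (nat_lit 6) (.nd (nat_lit 7) (.nd (nat_lit 8) (.nd (nat_lit 9) 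
(.lf (nat_lit 534591) (.g (nat_lit 2966) (.e (nat_lit 57502) (nat_lit 38) (.e (nat_lit 638995) (nat_lit 7) (.e (nat_lit 163979) (nat_lit 30) (.e (nat_lit 573489) (nat_lit 14) (.e (nat_lit 73753) (nat_lit 8) .nil))))) (.g (nat_lit 0) (.e (nat_lit 254897) (nat_lit 0) .nil) .nil))) 
(.lf (nat_lit 535103) (.g (nat_lit 2407) (.e (nat_lit 57691) (nat_lit 156) (.e (nat_lit 163869) (nat_lit 2) (.e (nat_lit 196654) (nat_lit 11) (.e (nat_lit 16458) (nat_lit 12) .nil)))) (.g (nat_lit 0) (.e (nat_lit 256843) (nat_lit 0) .nil) .nil)))) (.nd (nat_lit 9) 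
(.lf (nat_lit 534847) (.g (nat_lit 1323) (.e (nat_lit 65280) (nat_lit 84) (.e (nat_lit 516130) (nat_lit 3) (.e (nat_lit 221212) (nat_lit 22) (.e (nat_lit 196681) (nat_lit 17) (.e (nat_lit 131098) (nat_lit 3) .nil))))) (.g (nat_lit 0) (.e (nat_lit 255868) (nat_lit 0) .nil) .nil))) 
(.lf (nat_lit 535359) (.g (nat_lit 864) (.e (nat_lit 57844) (nat_lit 252) (.e (nat_lit 57379) (nat_lit 3) (.e (nat_lit 98341) (nat_lit 20) .nil))) (.g (nat_lit 0) (.e (nat_lit 258176) (nat_lit 0) .nil) .nil))))) (.nd (nat_lit 8) (.nd (nat_lit 9) 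
(.lf (nat_lit 534719) (.g (nat_lit 2359) (.e (nat_lit 57574) (nat_lit 55) (.e (nat_lit 778466) (nat_lit 11) (.e (nat_lit 24604) (nat_lit 2) (.e (nat_lit 90178) (nat_lit 15) (.e (nat_lit 188442) (nat_lit 20) .nil))))) (.g (nat_lit 0) (.e (nat_lit 255164) (nat_lit 0) .nil) .nil))) 
(.lf (nat_lit 535231) (.g (nat_lit 2721) (.e (nat_lit 57711) (nat_lit 176) (.e (nat_lit 1348) (nat_lit 102) (.e (nat_lit 286735) (nat_lit 3) (.e (nat_lit 98362) (nat_lit 26) (.e (nat_lit 426185) (nat_lit 9) .nil))))) (.g (nat_lit 0) (.e (nat_lit 257310) (nat_lit 0) .nil) .nil)))) (.nd (nat_lit 9) 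
(.lf (nat_lit 534975) (.g (nat_lit 1642) (.e (nat_lit 57687) (nat_lit 156) (.e (nat_lit 163902) (nat_lit 12) (.e (nat_lit 426438) (nat_lit 18) (.e (nat_lit 98363) (nat_lit 26) (.e (nat_lit 426321) (nat_lit 13) .nil))))) (.g (nat_lit 0) (.e (nat_lit 256471) (nat_lit 0) .nil) .nil))) 
(.lf (nat_lit 535487) (.g (nat_lit 2477) (.e (nat_lit 57848) (nat_lit 252) (.e (nat_lit 57375) (nat_lit 2) (.e (nat_lit 90159) (nat_lit 11) (.e (nat_lit 24625) (nat_lit 9) (.e (nat_lit 336454) (nat_lit 34) (.e (nat_lit 483366) (nat_lit 18) .nil)))))) (.g (nat_lit 1) (.e (nat_lit 258359) (nat_lit 0) .nil) .nil)))))) (.nd (nat_lit 7) (.nd (nat_lit 8) (.nd (nat_lit 9) 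
(.lf (nat_lit 534655) (.g (nat_lit 4345) (.e (nat_lit 57572) (nat_lit 54) (.e (nat_lit 770072) (nat_lit 8) (.e (nat_lit 65571) (nat_lit 3) (.e (nat_lit 98359) (nat_lit 26) (.e (nat_lit 426286) (nat_lit 10) (.e (nat_lit 434247) (nat_lit 28) (.e (nat_lit 573474) (nat_lit 12) .nil))))))) (.g (nat_lit 1) (.e (nat_lit 255053) (nat_lit 0) .nil) .nil))) 
(.lf (nat_lit 535167) (.g (nat_lit 313) (.e (nat_lit 57692) (nat_lit 156) (.e (nat_lit 163905) (nat_lit 12) (.e (nat_lit 426436) (nat_lit 18) .nil))) (.g (nat_lit 0) (.e (nat_lit 256999) (nat_lit 0) .nil) .nil)))) (.nd (nat_lit 9) 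
(.lf (nat_lit 534911) (.g (nat_lit 2407) (.e (nat_lit 57651) (nat_lit 152) (.e (nat_lit 2638) (nat_lit 165) (.e (nat_lit 180250) (nat_lit 10) (.e (nat_lit 573456) (nat_lit 9) (.e (nat_lit 1669) (nat_lit 116) .nil))))) (.g (nat_lit 0) (.e (nat_lit 256153) (nat_lit 0) .nil) .nil))) 
(.lf (nat_lit 535423) (.g (nat_lit 2938) (.e (nat_lit 57847) (nat_lit 252) (.e (nat_lit 57375) (nat_lit 2) (.e (nat_lit 90158) (nat_lit 11) (.e (nat_lit 24608) (nat_lit 3) (.e (nat_lit 98321) (nat_lit 17) .nil))))) (.g (nat_lit 0) (.e (nat_lit 258270) (nat_lit 0) .nil) .nil))))) (.nd (nat_lit 8) (.nd (nat_lit 9) 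
(.lf (nat_lit 534783) (.g (nat_lit 2793) (.e (nat_lit 57575) (nat_lit 55) (.e (nat_lit 778466) (nat_lit 11) (.e (nat_lit 24617) (nat_lit 7) (.e (nat_lit 319533) (nat_lit 16) (.e (nat_lit 286751) (nat_lit 10) .nil))))) (.g (nat_lit 0) (.e (nat_lit 255285) (nat_lit 0) .nil) .nil))) 
(.lf (nat_lit 535295) (.g (nat_lit 2304) (.e (nat_lit 57819) (nat_lit 248) (.e (nat_lit 164359) (nat_lit 246) (.e (nat_lit 2679) (nat_lit 168) (.e (nat_lit 204866) (nat_lit 28) (.e (nat_lit 352312) (nat_lit 22) (.e (nat_lit 98048) (nat_lit 19) .nil)))))) (.g (nat_lit 1) (.e (nat_lit 257983) (nat_lit 0) .nil) .nil)))) (.nd (nat_lit 9) 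
(.lf (nat_lit 535039) (.g (nat_lit 1814) (.e (nat_lit 57688) (nat_lit 156) (.e (nat_lit 163902) (nat_lit 12) (.e (nat_lit 426566) (nat_lit 34) (.e (nat_lit 401152) (nat_lit 23) .nil)))) (.g (nat_lit 0) (.e (nat_lit 256630) (nat_lit 0) .nil) .nil))) 
(.lf (nat_lit 535551) (.g (nat_lit 2493) (.e (nat_lit 57849) (nat_lit 252) (.e (nat_lit 57375) (nat_lit 2) (.e (nat_lit 90158) (nat_lit 11) (.e (nat_lit 24628) (nat_lit 9) (.e (nat_lit 336375) (nat_lit 27) (.e (nat_lit 426524) (nat_lit 27) (.e (nat_lit 335986) (nat_lit 1) .nil))))))) (.g (nat_lit 1) (.e (nat_lit 258447) (nat_lit 0) .nil) .nil)))))))))))))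

noncomputable def tv5583 : DT := (.nd (nat_lit 0) (.nd (nat_lit 1) (.nd (nat_lit 2) (.nd (nat_lit 3) (.nd (nat_lit 4) (.nd (nat_lit 5) (.nd (nat_lit 6) (.nd (nat_lit 7) (.nd (nat_lit 8) (.nd (nat_lit 9) 
(.lf (nat_lit 535552) (.g (nat_lit 3441) (.e (nat_lit 57849) (nat_lit 252) (.e (nat_lit 57375) (nat_lit 2) (.e (nat_lit 90158) (nat_lit 11) (.e (nat_lit 24628) (nat_lit 9) (.e (nat_lit 336456) (nat_lit 34) (.e (nat_lit 483363) (nat_lit 18) .nil)))))) (.g (nat_lit 1) (.e (nat_lit 258448) (nat_lit 0) .nil) .nil))) 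
(.lf (nat_lit 536064) (.g (nat_lit 1992) (.e (nat_lit 57925) (nat_lit 282) (.e (nat_lit 163867) (nat_lit 2) (.e (nat_lit 196668) (nat_lit 14) (.e (nat_lit 73747) (nat_lit 3) (.e (nat_lit 516131) (nat_lit 3) .nil))))) (.g (nat_lit 0) (.e (nat_lit 259495) (nat_lit 0) .nil) .nil)))) (.nd (nat_lit 9) 
(.lf (nat_lit 535808) (.g (nat_lit 398) (.e (nat_lit 57854) (nat_lit 252) (.e (nat_lit 57389) (nat_lit 5) (.e (nat_lit 114712) (nat_lit 21) .nil))) (.g (nat_lit 0) (.e (nat_lit 258872) (nat_lit 0) .nil) .nil))) 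
(.lf (nat_lit 536320) (.g (nat_lit 1869) (.e (nat_lit 57927) (nat_lit 282) (.e (nat_lit 163905) (nat_lit 12) (.e (nat_lit 426546) (nat_lit 30) (.e (nat_lit 360466) (nat_lit 3) (.e (nat_lit 516194) (nat_lit 26) (.e (nat_lit 343808) (nat_lit 1) .nil)))))) (.g (nat_lit 1) (.e (nat_lit 260084) (nat_lit 0) .nil) .nil))))) (.nd (nat_lit 8) (.nd (nat_lit 9) 
(.lf (nat_lit 535680) (.g (nat_lit 2604) (.e (nat_lit 57852) (nat_lit 252) (.e (nat_lit 57371) (nat_lit 2) (.e (nat_lit 90160) (nat_lit 11) (.e (nat_lit 24630) (nat_lit 9) (.e (nat_lit 336454) (nat_lit 34) .nil))))) (.g (nat_lit 0) (.e (nat_lit 258631) (nat_lit 0) .nil) .nil))) 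
(.lf (nat_lit 536192) (.g (nat_lit 1787) (.e (nat_lit 57927) (nat_lit 282) (.e (nat_lit 163868) (nat_lit 2) (.e (nat_lit 196670) (nat_lit 14) (.e (nat_lit 73746) (nat_lit 3) (.e (nat_lit 516131) (nat_lit 3) .nil))))) (.g (nat_lit 0) (.e (nat_lit 259841) (nat_lit 0) .nil) .nil)))) (.nd (nat_lit 9) 
(.lf (nat_lit 535936) (.g (nat_lit 3044) (.e (nat_lit 57878) (nat_lit 270) (.e (nat_lit 162) (nat_lit 11) (.e (nat_lit 196670) (nat_lit 14) (.e (nat_lit 73753) (nat_lit 8) (.e (nat_lit 557105) (nat_lit 14) (.e (nat_lit 180252) (nat_lit 10) (.e (nat_lit 581376) (nat_lit 19) .nil))))))) (.g (nat_lit 1) (.e (nat_lit 259062) (nat_lit 0) .nil) .nil))) 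
(.lf (nat_lit 536448) (.g (nat_lit 3117) (.e (nat_lit 57929) (nat_lit 282) (.e (nat_lit 163920) (nat_lit 14) (.e (nat_lit 442424) (nat_lit 22) (.e (nat_lit 196656) (nat_lit 11) (.e (nat_lit 24320) (nat_lit 20) .nil))))) (.g (nat_lit 0) (.e (nat_lit 260387) (nat_lit 0) .nil) .nil)))))) (.nd (nat_lit 7) (.nd (nat_lit 8) (.nd (nat_lit 9) 
(.lf (nat_lit 535616) (.g (nat_lit 4539) (.e (nat_lit 57851) (nat_lit 252) (.e (nat_lit 57377) (nat_lit 3) (.e (nat_lit 98317) (nat_lit 9) (.e (nat_lit 336011) (nat_lit 2) .nil)))) (.g (nat_lit 0) (.e (nat_lit 258543) (nat_lit 0) .nil) .nil))) 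
(.lf (nat_lit 536128) (.g (nat_lit 1134) (.e (nat_lit 57926) (nat_lit 282) (.e (nat_lit 163874) (nat_lit 3) (.e (nat_lit 204880) (nat_lit 32) .nil))) (.g (nat_lit 0) (.e (nat_lit 259665) (nat_lit 0) .nil) .nil)))) (.nd (nat_lit 9) 
(.lf (nat_lit 535872) (.g (nat_lit 2249) (.e (nat_lit 57854) (nat_lit 252) (.e (nat_lit 57409) (nat_lit 12) (.e (nat_lit 336316) (nat_lit 17) (.e (nat_lit 196666) (nat_lit 13) (.e (nat_lit 65617) (nat_lit 10) (.e (nat_lit 344095) (nat_lit 18) (.e (nat_lit 7695) (nat_lit 412) (.e (nat_lit 57365) (nat_lit 1) .nil)))))))) (.g (nat_lit 1) (.e (nat_lit 258939) (nat_lit 0) .nil) .nil))) 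
(.lf (nat_lit 536384) (.g (nat_lit 2942) (.e (nat_lit 57928) (nat_lit 282) (.e (nat_lit 163870) (nat_lit 2) (.e (nat_lit 196666) (nat_lit 13) (.e (nat_lit 65569) (nat_lit 3) (.e (nat_lit 98341) (nat_lit 20) .nil))))) (.g (nat_lit 0) (.e (nat_lit 260257) (nat_lit 0) .nil) .nil))))) (.nd (nat_lit 8) (.nd (nat_lit 9) 
(.lf (nat_lit 535744) (.g (nat_lit 3645) (.e (nat_lit 57854) (nat_lit 252) (.e (nat_lit 57371) (nat_lit 2) (.e (nat_lit 90160) (nat_lit 11) (.e (nat_lit 24627) (nat_lit 9) (.e (nat_lit 336454) (nat_lit 34) (.e (nat_lit 483364) (nat_lit 18) .nil)))))) (.g (nat_lit 1) (.e (nat_lit 258731) (nat_lit 0) .nil) .nil))) 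
(.lf (nat_lit 536256) (.g (nat_lit 2872) (.e (nat_lit 57927) (nat_lit 282) (.e (nat_lit 163874) (nat_lit 3) (.e (nat_lit 204863) (nat_lit 27) (.e (nat_lit 344117) (nat_lit 21) (.e (nat_lit 516122) (nat_lit 2) (.e (nat_lit 213035) (nat_lit 12) (.e (nat_lit 163964) (nat_lit 25) (.e (nat_lit 532499) (nat_lit 1) .nil)))))))) (.g (nat_lit 1) (.e (nat_lit 259978) (nat_lit 0) .nil) .nil)))) 
(.nd (nat_lit 9) 
(.lf (nat_lit 536000) (.g (nat_lit 1381) (.e (nat_lit 57883) (nat_lit 270) (.e (nat_lit 496) (nat_lit 39) (.e (nat_lit 483382) (nat_lit 23) (.e (nat_lit 336316) (nat_lit 17) (.e (nat_lit 204544) (nat_lit 19) (.e (nat_lit 57809) (nat_lit 246) .nil)))))) (.g (nat_lit 1) (.e (nat_lit 259267) (nat_lit 0) .nil) .nil))) 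
(.lf (nat_lit 536512) (.g (nat_lit 2314) (.e (nat_lit 57931) (nat_lit 282) (.e (nat_lit 163866) (nat_lit 2) (.e (nat_lit 196666) (nat_lit 13) (.e (nat_lit 65569) (nat_lit 3) (.e (nat_lit 98342) (nat_lit 20) .nil))))) (.g (nat_lit 0) (.e (nat_lit 260572) (nat_lit 0) .nil) .nil))))))) (.nd (nat_lit 6) (.nd (nat_lit 7) (.nd (nat_lit 8) (.nd (nat_lit 9) 
(.lf (nat_lit 535584) (.g (nat_lit 2736) (.e (nat_lit 57849) (nat_lit 252) (.e (nat_lit 57407) (nat_lit 12) (.e (nat_lit 336454) (nat_lit 34) (.e (nat_lit 483385) (nat_lit 23) (.e (nat_lit 336306) (nat_lit 15) (.e (nat_lit 3238) (nat_lit 197) (.e (nat_lit 532502) (nat_lit 1) .nil))))))) (.g (nat_lit 1) (.e (nat_lit 258509) (nat_lit 0) .nil) .nil))) 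
(.lf (nat_lit 536096) (.g (nat_lit 1609) (.e (nat_lit 57926) (nat_lit 282) (.e (nat_lit 163868) (nat_lit 2) (.e (nat_lit 196668) (nat_lit 14) (.e (nat_lit 73746) (nat_lit 3) .nil)))) (.g (nat_lit 0) (.e (nat_lit 259580) (nat_lit 0) .nil) .nil)))) (.nd (nat_lit 9) 
(.lf (nat_lit 535840) (.g (nat_lit 2497) (.e (nat_lit 57854) (nat_lit 252) (.e (nat_lit 57406) (nat_lit 12) (.e (nat_lit 336456) (nat_lit 34) (.e (nat_lit 483346) (nat_lit 17) (.e (nat_lit 6506) (nat_lit 344) .nil))))) (.g (nat_lit 0) (.e (nat_lit 258907) (nat_lit 0) .nil) .nil))) 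
(.lf (nat_lit 536352) (.g (nat_lit 3394) (.e (nat_lit 57927) (nat_lit 282) (.e (nat_lit 163933) (nat_lit 17) (.e (nat_lit 466977) (nat_lit 22) (.e (nat_lit 196654) (nat_lit 11) (.e (nat_lit 16407) (nat_lit 1) (.e (nat_lit 164332) (nat_lit 230) (.e (nat_lit 171776) (nat_lit 62) .nil))))))) (.g (nat_lit 1) (.e (nat_lit 260129) (nat_lit 0) .nil) .nil))))) (.nd (nat_lit 8) (.nd (nat_lit 9) 
(.lf (nat_lit 535712) (.g (nat_lit 1595) (.e (nat_lit 57852) (nat_lit 252) (.e (nat_lit 57406) (nat_lit 12) (.e (nat_lit 336456) (nat_lit 34) (.e (nat_lit 483383) (nat_lit 23) .nil)))) (.g (nat_lit 0) (.e (nat_lit 258686) (nat_lit 0) .nil) .nil))) 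
(.lf (nat_lit 536224) (.g (nat_lit 2622) (.e (nat_lit 57927) (nat_lit 282) (.e (nat_lit 163871) (nat_lit 2) (.e (nat_lit 196668) (nat_lit 14) (.e (nat_lit 73747) (nat_lit 3) (.e (nat_lit 516130) (nat_lit 3) (.e (nat_lit 221215) (nat_lit 23) (.e (nat_lit 204829) (nat_lit 18) .nil))))))) (.g (nat_lit 1) (.e (nat_lit 259913) (nat_lit 0) .nil) .nil)))) (.nd (nat_lit 9) 
(.lf (nat_lit 535968) (.g (nat_lit 2509) (.e (nat_lit 57881) (nat_lit 270) (.e (nat_lit 174) (nat_lit 12) (.e (nat_lit 204861) (nat_lit 26) (.e (nat_lit 336213) (nat_lit 13) (.e (nat_lit 393221) (nat_lit 0) (.e (nat_lit 6217) (nat_lit 333) .nil)))))) (.g (nat_lit 1) (.e (nat_lit 259158) (nat_lit 0) .nil) .nil))) 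
(.lf (nat_lit 536480) (.g (nat_lit 3205) (.e (nat_lit 57930) (nat_lit 282) (.e (nat_lit 163867) (nat_lit 2) (.e (nat_lit 196668) (nat_lit 14) (.e (nat_lit 73747) (nat_lit 3) (.e (nat_lit 516131) (nat_lit 3) (.e (nat_lit 221215) (nat_lit 23) (.e (nat_lit 204828) (nat_lit 18) .nil))))))) (.g (nat_lit 1) (.e (nat_lit 260496) (nat_lit 0) .nil) .nil)))))) 
(.nd (nat_lit 7) (.nd (nat_lit 8) (.nd (nat_lit 9) 
(.lf (nat_lit 535648) (.g (nat_lit 1138) (.e (nat_lit 57851) (nat_lit 252) (.e (nat_lit 57406) (nat_lit 12) (.e (nat_lit 336456) (nat_lit 34) (.e (nat_lit 483378) (nat_lit 23) .nil)))) (.g (nat_lit 0) (.e (nat_lit 258598) (nat_lit 0) .nil) .nil))) 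
(.lf (nat_lit 536160) (.g (nat_lit 2433) (.e (nat_lit 57927) (nat_lit 282) (.e (nat_lit 163866) (nat_lit 2) (.e (nat_lit 196670) (nat_lit 14) (.e (nat_lit 73746) (nat_lit 3) (.e (nat_lit 516127) (nat_lit 2) (.e (nat_lit 213035) (nat_lit 12) (.e (nat_lit 163965) (nat_lit 25) (.e (nat_lit 532499) (nat_lit 1) .nil)))))))) (.g (nat_lit 1) (.e (nat_lit 259792) (nat_lit 0) .nil) .nil)))) 
(.nd (nat_lit 9) 
(.lf (nat_lit 535904) (.g (nat_lit 2125) (.e (nat_lit 57861) (nat_lit 256) (.e (nat_lit 3090) (nat_lit 191) (.e (nat_lit 483372) (nat_lit 21) (.e (nat_lit 319534) (nat_lit 16) .nil)))) (.g (nat_lit 0) (.e (nat_lit 258978) (nat_lit 0) .nil) .nil))) 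
(.lf (nat_lit 536416) (.g (nat_lit 1753) (.e (nat_lit 57929) (nat_lit 282) (.e (nat_lit 163874) (nat_lit 3) (.e (nat_lit 204861) (nat_lit 26) (.e (nat_lit 336077) (nat_lit 9) .nil)))) (.g (nat_lit 0) (.e (nat_lit 260340) (nat_lit 0) .nil) .nil))))) (.nd (nat_lit 8) (.nd (nat_lit 9) 
(.lf (nat_lit 535776) (.g (nat_lit 987) (.e (nat_lit 57854) (nat_lit 252) (.e (nat_lit 57378) (nat_lit 3) (.e (nat_lit 98335) (nat_lit 18) .nil))) (.g (nat_lit 0) (.e (nat_lit 258776) (nat_lit 0) .nil) .nil))) 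
(.lf (nat_lit 536288) (.g (nat_lit 1241) (.e (nat_lit 57927) (nat_lit 282) (.e (nat_lit 163875) (nat_lit 3) (.e (nat_lit 204876) (nat_lit 31) (.e (nat_lit 376840) (nat_lit 11) (.e (nat_lit 426485) (nat_lit 27) (.e (nat_lit 343808) (nat_lit 1) .nil)))))) (.g (nat_lit 1) (.e (nat_lit 260041) (nat_lit 0) .nil) .nil)))) (.nd (nat_lit 9) 
(.lf (nat_lit 536032) (.g (nat_lit 1668) (.e (nat_lit 57924) (nat_lit 282) (.e (nat_lit 163868) (nat_lit 2) (.e (nat_lit 196668) (nat_lit 14) (.e (nat_lit 73746) (nat_lit 3) .nil)))) (.g (nat_lit 0) (.e (nat_lit 259413) (nat_lit 0) .nil) .nil))) 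
(.lf (nat_lit 536544) (.g (nat_lit 1033) (.e (nat_lit 57931) (nat_lit 282) (.e (nat_lit 163869) (nat_lit 2) (.e (nat_lit 196663) (nat_lit 13) (.e (nat_lit 65599) (nat_lit 9) .nil)))) (.g (nat_lit 0) (.e (nat_lit 260631) (nat_lit 0) .nil) .nil)))))))) (.nd (nat_lit 5) (.nd (nat_lit 6) (.nd (nat_lit 7) (.nd (nat_lit 8) (.nd (nat_lit 9) 
(.lf (nat_lit 535568) (.g (nat_lit 2630) (.e (nat_lit 57849) (nat_lit 252) (.e (nat_lit 57379) (nat_lit 3) (.e (nat_lit 98334) (nat_lit 18) (.e (nat_lit 164399) (nat_lit 256) (.e (nat_lit 57588) (nat_lit 73) .nil))))) (.g (nat_lit 0) (.e (nat_lit 258471) (nat_lit 0) .nil) .nil))) 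
(.lf (nat_lit 536080) (.g (nat_lit 2104) (.e (nat_lit 57925) (nat_lit 282) (.e (nat_lit 163871) (nat_lit 2) (.e (nat_lit 196670) (nat_lit 14) (.e (nat_lit 73746) (nat_lit 3) (.e (nat_lit 516124) (nat_lit 2) .nil))))) (.g (nat_lit 0) (.e (nat_lit 259536) (nat_lit 0) .nil) .nil)))) (.nd (nat_lit 9) 
(.lf (nat_lit 535824) (.g (nat_lit 2531) (.e (nat_lit 57854) (nat_lit 252) (.e (nat_lit 57406) (nat_lit 12) (.e (nat_lit 336316) (nat_lit 17) (.e (nat_lit 196666) (nat_lit 13) (.e (nat_lit 65617) (nat_lit 10) (.e (nat_lit 344088) (nat_lit 18) (.e (nat_lit 7697) (nat_lit 412) (.e (nat_lit 57366) (nat_lit 1) .nil)))))))) (.g (nat_lit 1) (.e (nat_lit 258891) (nat_lit 0) .nil) .nil))) 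
(.lf (nat_lit 536336) (.g (nat_lit 1994) (.e (nat_lit 57927) (nat_lit 282) (.e (nat_lit 163907) (nat_lit 12) (.e (nat_lit 426555) (nat_lit 32) (.e (nat_lit 376869) (nat_lit 23) (.e (nat_lit 98315) (nat_lit 9) (.e (nat_lit 343808) (nat_lit 1) .nil)))))) (.g (nat_lit 1) (.e (nat_lit 260103) (nat_lit 0) .nil) .nil))))) (.nd (nat_lit 8) (.nd (nat_lit 9) 
(.lf (nat_lit 535696) (.g (nat_lit 3786) (.e (nat_lit 57852) (nat_lit 252) (.e (nat_lit 57406) (nat_lit 12) (.e (nat_lit 336316) (nat_lit 17) (.e (nat_lit 196666) (nat_lit 13) (.e (nat_lit 65610) (nat_lit 10) (.e (nat_lit 344090) (nat_lit 18) (.e (nat_lit 7695) (nat_lit 412) (.e (nat_lit 57368) (nat_lit 1) .nil)))))))) (.g (nat_lit 1) (.e (nat_lit 258670) (nat_lit 0) .nil) .nil))) 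
(.lf (nat_lit 536208) (.g (nat_lit 2124) (.e (nat_lit 57927) (nat_lit 282) (.e (nat_lit 163869) (nat_lit 2) (.e (nat_lit 196670) (nat_lit 14) (.e (nat_lit 73746) (nat_lit 3) (.e (nat_lit 516124) (nat_lit 2) .nil))))) (.g (nat_lit 0) (.e (nat_lit 259875) (nat_lit 0) .nil) .nil)))) (.nd (nat_lit 9) 
(.lf (nat_lit 535952) (.g (nat_lit 2880) (.e (nat_lit 57879) (nat_lit 270) (.e (nat_lit 162) (nat_lit 11) (.e (nat_lit 196670) (nat_lit 14) (.e (nat_lit 73753) (nat_lit 8) (.e (nat_lit 557105) (nat_lit 14) (.e (nat_lit 180252) (nat_lit 10) (.e (nat_lit 581376) (nat_lit 19) .nil))))))) (.g (nat_lit 1) (.e (nat_lit 259105) (nat_lit 0) .nil) .nil))) 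
(.lf (nat_lit 536464) (.g (nat_lit 2544) (.e (nat_lit 57929) (nat_lit 282) (.e (nat_lit 163923) (nat_lit 15) (.e (nat_lit 450587) (nat_lit 10) (.e (nat_lit 573477) (nat_lit 12) (.e (nat_lit 57361) (nat_lit 0) (.e (nat_lit 5949) (nat_lit 322) (.e (nat_lit 57389) (nat_lit 5) (.e (nat_lit 114712) (nat_lit 21) .nil)))))))) (.g (nat_lit 1) (.e (nat_lit 260413) (nat_lit 0) .nil) .nil)))))) 
(.nd (nat_lit 7) (.nd (nat_lit 8) (.nd (nat_lit 9) 
(.lf (nat_lit 535632) (.g (nat_lit 3307) (.e (nat_lit 57851) (nat_lit 252) (.e (nat_lit 57406) (nat_lit 12) (.e (nat_lit 336316) (nat_lit 17) (.e (nat_lit 196666) (nat_lit 13) (.e (nat_lit 65610) (nat_lit 10) (.e (nat_lit 344090) (nat_lit 18) (.e (nat_lit 7695) (nat_lit 412) (.e (nat_lit 57365) (nat_lit 1) .nil)))))))) (.g (nat_lit 1) (.e (nat_lit 258582) (nat_lit 0) .nil) .nil))) 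
(.lf (nat_lit 536144) (.g (nat_lit 3137) (.e (nat_lit 57926) (nat_lit 282) (.e (nat_lit 163907) (nat_lit 12) (.e (nat_lit 426555) (nat_lit 32) (.e (nat_lit 376865) (nat_lit 22) (.e (nat_lit 90158) (nat_lit 11) (.e (nat_lit 24598) (nat_lit 1) .nil)))))) (.g (nat_lit 1) (.e (nat_lit 259711) (nat_lit 0) .nil) .nil)))) (.nd (nat_lit 9) 
(.lf (nat_lit 535888) (.g (nat_lit 3319) (.e (nat_lit 57854) (nat_lit 252) (.e (nat_lit 57409) (nat_lit 12) (.e (nat_lit 336326) (nat_lit 18) (.e (nat_lit 204869) (nat_lit 29) (.e (nat_lit 360456) (nat_lit 0) (.e (nat_lit 7936) (nat_lit 412) (.e (nat_lit 57368) (nat_lit 1) .nil))))))) (.g (nat_lit 1) (.e (nat_lit 258955) (nat_lit 0) .nil) .nil))) 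
(.lf (nat_lit 536400) (.g (nat_lit 1400) (.e (nat_lit 57929) (nat_lit 282) (.e (nat_lit 163869) (nat_lit 2) (.e (nat_lit 196666) (nat_lit 13) (.e (nat_lit 65569) (nat_lit 3) .nil)))) (.g (nat_lit 0) (.e (nat_lit 260309) (nat_lit 0) .nil) .nil))))) (.nd (nat_lit 8) (.nd (nat_lit 9) 
(.lf (nat_lit 535760) (.g (nat_lit 3384) (.e (nat_lit 57854) (nat_lit 252) (.e (nat_lit 57377) (nat_lit 3) (.e (nat_lit 98317) (nat_lit 9) (.e (nat_lit 336074) (nat_lit 9) (.e (nat_lit 336454) (nat_lit 34) .nil))))) (.g (nat_lit 0) (.e (nat_lit 258758) (nat_lit 0) .nil) .nil))) 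
(.lf (nat_lit 536272) (.g (nat_lit 2360) (.e (nat_lit 57927) (nat_lit 282) (.e (nat_lit 163875) (nat_lit 3) (.e (nat_lit 204861) (nat_lit 26) (.e (nat_lit 336075) (nat_lit 9) (.e (nat_lit 336454) (nat_lit 34) (.e (nat_lit 483362) (nat_lit 18) .nil)))))) (.g (nat_lit 1) (.e (nat_lit 260012) (nat_lit 0) .nil) .nil)))) (.nd (nat_lit 9) 
(.lf (nat_lit 536016) (.g (nat_lit 2028) (.e (nat_lit 57902) (nat_lit 277) (.e (nat_lit 131133) (nat_lit 15) (.e (nat_lit 3746) (nat_lit 228) (.e (nat_lit 786483) (nat_lit 30) (.e (nat_lit 360484) (nat_lit 15) (.e (nat_lit 655104) (nat_lit 15) .nil)))))) (.g (nat_lit 1) (.e (nat_lit 259316) (nat_lit 0) .nil) .nil))) 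
(.lf (nat_lit 536528) (.g (nat_lit 1153) (.e (nat_lit 57931) (nat_lit 282) (.e (nat_lit 163867) (nat_lit 2) (.e (nat_lit 196668) (nat_lit 14) (.e (nat_lit 73747) (nat_lit 3) .nil)))) (.g (nat_lit 0) (.e (nat_lit 260605) (nat_lit 0) .nil) .nil))))))) (.nd (nat_lit 6) (.nd (nat_lit 7) (.nd (nat_lit 8) (.nd (nat_lit 9) 
(.lf (nat_lit 535600) (.g (nat_lit 3857) (.e (nat_lit 57851) (nat_lit 252) (.e (nat_lit 57354) (nat_lit 0) (.e (nat_lit 1855) (nat_lit 124) (.e (nat_lit 557105) (nat_lit 14) (.e (nat_lit 180252) (nat_lit 10) (.e (nat_lit 573482) (nat_lit 13) (.e (nat_lit 65636) (nat_lit 15) (.e (nat_lit 3249) (nat_lit 197) (.e (nat_lit 532500) (nat_lit 1) .nil))))))))) (.g (nat_lit 1) (.e (nat_lit 258525) (nat_lit 0) .nil) .nil))) 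
(.lf (nat_lit 536112) (.g (nat_lit 933) (.e (nat_lit 57926) (nat_lit 282) (.e (nat_lit 163870) (nat_lit 2) (.e (nat_lit 196670) (nat_lit 14) (.e (nat_lit 73746) (nat_lit 3) .nil)))) (.g (nat_lit 0) (.e (nat_lit 259618) (nat_lit 0) .nil) .nil)))) (.nd (nat_lit 9) 
(.lf (nat_lit 535856) (.g (nat_lit 3485) (.e (nat_lit 57854) (nat_lit 252) (.e (nat_lit 57409) (nat_lit 12) (.e (nat_lit 336316) (nat_lit 17) (.e (nat_lit 196666) (nat_lit 13) (.e (nat_lit 65610) (nat_lit 10) (.e (nat_lit 344089) (nat_lit 18) (.e (nat_lit 7693) (nat_lit 412) (.e (nat_lit 57368) (nat_lit 1) .nil)))))))) (.g (nat_lit 1) (.e (nat_lit 258923) (nat_lit 0) .nil) .nil))) 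
(.lf (nat_lit 536368) (.g (nat_lit 2669) (.e (nat_lit 57927) (nat_lit 282) (.e (nat_lit 163943) (nat_lit 19) (.e (nat_lit 483345) (nat_lit 17) (.e (nat_lit 6712) (nat_lit 360) (.e (nat_lit 163975) (nat_lit 30) (.e (nat_lit 573481) (nat_lit 13) (.e (nat_lit 65563) (nat_lit 1) .nil))))))) (.g (nat_lit 1) (.e (nat_lit 260163) (nat_lit 0) .nil) .nil))))) (.nd (nat_lit 8) (.nd (nat_lit 9) 
(.lf (nat_lit 535728) (.g (nat_lit 1628) (.e (nat_lit 57853) (nat_lit 252) (.e (nat_lit 57406) (nat_lit 12) (.e (nat_lit 336454) (nat_lit 34) (.e (nat_lit 483385) (nat_lit 23) .nil)))) (.g (nat_lit 0) (.e (nat_lit 258712) (nat_lit 0) .nil) .nil))) 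
(.lf (nat_lit 536240) (.g (nat_lit 2969) (.e (nat_lit 57927) (nat_lit 282) (.e (nat_lit 163874) (nat_lit 3) (.e (nat_lit 204854) (nat_lit 26) (.e (nat_lit 336019) (nat_lit 3) (.e (nat_lit 98342) (nat_lit 20) (.e (nat_lit 221198) (nat_lit 20) (.e (nat_lit 3240) (nat_lit 197) (.e (nat_lit 532499) (nat_lit 1) .nil)))))))) (.g (nat_lit 1) (.e (nat_lit 259962) (nat_lit 0) .nil) .nil)))) 
(.nd (nat_lit 9) 
(.lf (nat_lit 535984) (.g (nat_lit 2399) (.e (nat_lit 57883) (nat_lit 270) (.e (nat_lit 174) (nat_lit 12) (.e (nat_lit 204876) (nat_lit 31) (.e (nat_lit 376842) (nat_lit 11) (.e (nat_lit 426408) (nat_lit 15) (.e (nat_lit 6216) (nat_lit 333) .nil)))))) (.g (nat_lit 1) (.e (nat_lit 259233) (nat_lit 0) .nil) .nil))) 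
(.lf (nat_lit 536496) (.g (nat_lit 2889) (.e (nat_lit 57930) (nat_lit 282) (.e (nat_lit 163902) (nat_lit 12) (.e (nat_lit 426555) (nat_lit 32) (.e (nat_lit 376862) (nat_lit 22) (.e (nat_lit 90158) (nat_lit 11) (.e (nat_lit 24599) (nat_lit 1) .nil)))))) (.g (nat_lit 1) (.e (nat_lit 260536) (nat_lit 0) .nil) .nil)))))) (.nd (nat_lit 7) (.nd (nat_lit 8) (.nd (nat_lit 9) 
(.lf (nat_lit 535664) (.g (nat_lit 2456) (.e (nat_lit 57851) (nat_lit 252) (.e (nat_lit 57406) (nat_lit 12) (.e (nat_lit 336456) (nat_lit 34) (.e (nat_lit 483383) (nat_lit 23) (.e (nat_lit 336284) (nat_lit 15) (.e (nat_lit 3249) (nat_lit 197) (.e (nat_lit 532504) (nat_lit 1) .nil))))))) (.g (nat_lit 1) (.e (nat_lit 258614) (nat_lit 0) .nil) .nil))) 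
(.lf (nat_lit 536176) (.g (nat_lit 2348) (.e (nat_lit 57927) (nat_lit 282) (.e (nat_lit 163868) (nat_lit 2) (.e (nat_lit 196666) (nat_lit 13) (.e (nat_lit 65569) (nat_lit 3) .nil)))) (.g (nat_lit 0) (.e (nat_lit 259821) (nat_lit 0) .nil) .nil)))) (.nd (nat_lit 9) 
(.lf (nat_lit 535920) (.g (nat_lit 1948) (.e (nat_lit 57872) (nat_lit 264) (.e (nat_lit 1209) (nat_lit 89) (.e (nat_lit 73781) (nat_lit 32) (.e (nat_lit 3090) (nat_lit 191) (.e (nat_lit 483389) (nat_lit 23) .nil))))) (.g (nat_lit 0) (.e (nat_lit 259018) (nat_lit 0) .nil) .nil))) 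
(.lf (nat_lit 536432) (.g (nat_lit 2101) (.e (nat_lit 57929) (nat_lit 282) (.e (nat_lit 163902) (nat_lit 12) (.e (nat_lit 426544) (nat_lit 30) (.e (nat_lit 360467) (nat_lit 3) (.e (nat_lit 516195) (nat_lit 26) .nil))))) (.g (nat_lit 0) (.e (nat_lit 260365) (nat_lit 0) .nil) .nil))))) (.nd (nat_lit 8) (.nd (nat_lit 9) 
(.lf (nat_lit 535792) (.g (nat_lit 334) (.e (nat_lit 57854) (nat_lit 252) (.e (nat_lit 57389) (nat_lit 5) (.e (nat_lit 114697) (nat_lit 11) .nil))) (.g (nat_lit 0) (.e (nat_lit 258824) (nat_lit 0) .nil) .nil))) 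
(.lf (nat_lit 536304) (.g (nat_lit 4002) (.e (nat_lit 57927) (nat_lit 282) (.e (nat_lit 163886) (nat_lit 5) (.e (nat_lit 221218) (nat_lit 24) (.e (nat_lit 213032) (nat_lit 11) (.e (nat_lit 24651) (nat_lit 12) (.e (nat_lit 385109) (nat_lit 51) (.e (nat_lit 802560) (nat_lit 1) .nil))))))) (.g (nat_lit 1) (.e (nat_lit 260061) (nat_lit 0) .nil) .nil)))) (.nd (nat_lit 9) 
(.lf (nat_lit 536048) (.g (nat_lit 2245) (.e (nat_lit 57924) (nat_lit 282) (.e (nat_lit 163871) (nat_lit 2) (.e (nat_lit 196668) (nat_lit 14) (.e (nat_lit 73747) (nat_lit 3) (.e (nat_lit 516130) (nat_lit 3) .nil))))) (.g (nat_lit 0) (.e (nat_lit 259435) (nat_lit 0) .nil) .nil))) 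
(.lf (nat_lit 536560) (.g (nat_lit 3468) (.e (nat_lit 57931) (nat_lit 282) (.e (nat_lit 163869) (nat_lit 2) (.e (nat_lit 196668) (nat_lit 14) (.e (nat_lit 73747) (nat_lit 3) (.e (nat_lit 516130) (nat_lit 3) (.e (nat_lit 221214) (nat_lit 23) (.e (nat_lit 204829) (nat_lit 18) .nil))))))) (.g (nat_lit 1) (.e (nat_lit 260659) (nat_lit 0) .nil) .nil))))))))) 
(.nd (nat_lit 4) (.nd (nat_lit 5) (.nd (nat_lit 6) (.nd (nat_lit 7) (.nd (nat_lit 8) 
(.nd (nat_lit 9) 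
(.lf (nat_lit 535560) (.g (nat_lit 1362) (.e (nat_lit 57849) (nat_lit 252) (.e (nat_lit 57379) (nat_lit 3) (.e (nat_lit 98313) (nat_lit 9) (.e (nat_lit 336075) (nat_lit 9) .nil)))) (.g (nat_lit 0) (.e (nat_lit 258462) (nat_lit 0) .nil) .nil))) 
(.lf (nat_lit 536072) (.g (nat_lit 2506) (.e (nat_lit 57925) (nat_lit 282) (.e (nat_lit 163870) (nat_lit 2) (.e (nat_lit 196666) (nat_lit 13) (.e (nat_lit 65571) (nat_lit 3) (.e (nat_lit 98342) (nat_lit 20) .nil))))) (.g (nat_lit 0) (.e (nat_lit 259517) (nat_lit 0) .nil) .nil)))) (.nd (nat_lit 9) 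
(.lf (nat_lit 535816) (.g (nat_lit 3640) (.e (nat_lit 57854) (nat_lit 252) (.e (nat_lit 57406) (nat_lit 12) (.e (nat_lit 336316) (nat_lit 17) (.e (nat_lit 196666) (nat_lit 13) (.e (nat_lit 65610) (nat_lit 10) (.e (nat_lit 344090) (nat_lit 18) (.e (nat_lit 7697) (nat_lit 412) (.e (nat_lit 57364) (nat_lit 1) .nil)))))))) (.g (nat_lit 1) (.e (nat_lit 258883) (nat_lit 0) .nil) .nil))) 
(.lf (nat_lit 536328) (.g (nat_lit 635) (.e (nat_lit 57927) (nat_lit 282) (.e (nat_lit 163907) (nat_lit 12) (.e (nat_lit 426544) (nat_lit 30) .nil))) (.g (nat_lit 0) (.e (nat_lit 260093) (nat_lit 0) .nil) .nil))))) (.nd (nat_lit 8) (.nd (nat_lit 9) 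
(.lf (nat_lit 535688) (.g (nat_lit 4708) (.e (nat_lit 57852) (nat_lit 252) (.e (nat_lit 57377) (nat_lit 3) (.e (nat_lit 98317) (nat_lit 9) (.e (nat_lit 336010) (nat_lit 2) .nil)))) (.g (nat_lit 0) (.e (nat_lit 258640) (nat_lit 0) .nil) .nil))) 
(.lf (nat_lit 536200) (.g (nat_lit 2216) (.e (nat_lit 57927) (nat_lit 282) (.e (nat_lit 163869) (nat_lit 2) (.e (nat_lit 196666) (nat_lit 13) (.e (nat_lit 65571) (nat_lit 3) (.e (nat_lit 98341) (nat_lit 20) .nil))))) (.g (nat_lit 0) (.e (nat_lit 259858) (nat_lit 0) .nil) .nil)))) (.nd (nat_lit 9) 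
(.lf (nat_lit 535944) (.g (nat_lit 2005) (.e (nat_lit 57878) (nat_lit 270) (.e (nat_lit 496) (nat_lit 39) (.e (nat_lit 483380) (nat_lit 23) (.e (nat_lit 336316) (nat_lit 17) (.e (nat_lit 196698) (nat_lit 19) (.e (nat_lit 57813) (nat_lit 246) .nil)))))) (.g (nat_lit 1) (.e (nat_lit 259087) (nat_lit 0) .nil) .nil))) 
(.lf (nat_lit 536456) (.g (nat_lit 2708) (.e (nat_lit 57929) (nat_lit 282) (.e (nat_lit 163923) (nat_lit 15) (.e (nat_lit 450587) (nat_lit 10) (.e (nat_lit 573456) (nat_lit 9) (.e (nat_lit 1288) (nat_lit 95) .nil))))) (.g (nat_lit 0) (.e (nat_lit 260401) (nat_lit 0) .nil) .nil)))))) (.nd (nat_lit 7) (.nd (nat_lit 8) (.nd (nat_lit 9) 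
(.lf (nat_lit 535624) (.g (nat_lit 362) (.e (nat_lit 57851) (nat_lit 252) (.e (nat_lit 57389) (nat_lit 5) (.e (nat_lit 114697) (nat_lit 11) .nil))) (.g (nat_lit 0) (.e (nat_lit 258559) (nat_lit 0) .nil) .nil))) 
(.lf (nat_lit 536136) (.g (nat_lit 2041) (.e (nat_lit 57926) (nat_lit 282) (.e (nat_lit 163886) (nat_lit 5) (.e (nat_lit 221212) (nat_lit 22) (.e (nat_lit 196654) (nat_lit 11) (.e (nat_lit 16459) (nat_lit 12) (.e (nat_lit 475177) (nat_lit 24) (.e (nat_lit 524032) (nat_lit 18) .nil))))))) (.g (nat_lit 1) (.e (nat_lit 259683) (nat_lit 0) .nil) .nil)))) (.nd (nat_lit 9) 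
(.lf (nat_lit 535880) (.g (nat_lit 3740) (.e (nat_lit 57854) (nat_lit 252) (.e (nat_lit 57409) (nat_lit 12) (.e (nat_lit 336326) (nat_lit 18) (.e (nat_lit 204869) (nat_lit 29) (.e (nat_lit 360450) (nat_lit 0) (.e (nat_lit 7697) (nat_lit 412) (.e (nat_lit 57364) (nat_lit 1) .nil))))))) (.g (nat_lit 1) (.e (nat_lit 258947) (nat_lit 0) .nil) .nil))) 
(.lf (nat_lit 536392) (.g (nat_lit 1870) (.e (nat_lit 57928) (nat_lit 282) (.e (nat_lit 163875) (nat_lit 3) (.e (nat_lit 204862) (nat_lit 27) (.e (nat_lit 344117) (nat_lit 21) (.e (nat_lit 516123) (nat_lit 2) .nil))))) (.g (nat_lit 0) (.e (nat_lit 260288) (nat_lit 0) .nil) .nil))))) (.nd (nat_lit 8) (.nd (nat_lit 9) 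
(.lf (nat_lit 535752) (.g (nat_lit 2171) (.e (nat_lit 57854) (nat_lit 252) (.e (nat_lit 57373) (nat_lit 2) (.e (nat_lit 90158) (nat_lit 11) (.e (nat_lit 24628) (nat_lit 9) (.e (nat_lit 336368) (nat_lit 27) .nil))))) (.g (nat_lit 0) (.e (nat_lit 258740) (nat_lit 0) .nil) .nil))) 
(.lf (nat_lit 536264) (.g (nat_lit 2439) (.e (nat_lit 57927) (nat_lit 282) (.e (nat_lit 163874) (nat_lit 3) (.e (nat_lit 204876) (nat_lit 31) (.e (nat_lit 376842) (nat_lit 11) (.e (nat_lit 426521) (nat_lit 27) (.e (nat_lit 335987) (nat_lit 1) .nil)))))) (.g (nat_lit 1) (.e (nat_lit 259994) (nat_lit 0) .nil) .nil)))) (.nd (nat_lit 9) 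
(.lf (nat_lit 536008) (.g (nat_lit 2105) (.e (nat_lit 57883) (nat_lit 270) (.e (nat_lit 496) (nat_lit 39) (.e (nat_lit 483406) (nat_lit 26) (.e (nat_lit 385057) (nat_lit 22) (.e (nat_lit 499780) (nat_lit 1) (.e (nat_lit 57809) (nat_lit 246) .nil)))))) (.g (nat_lit 1) (.e (nat_lit 259282) (nat_lit 0) .nil) .nil))) 
(.lf (nat_lit 536520) (.g (nat_lit 2125) (.e (nat_lit 57931) (nat_lit 282) (.e (nat_lit 163867) (nat_lit 2) (.e (nat_lit 196663) (nat_lit 13) (.e (nat_lit 65571) (nat_lit 3) (.e (nat_lit 98341) (nat_lit 20) .nil))))) (.g (nat_lit 0) (.e (nat_lit 260589) (nat_lit 0) .nil) .nil))))))) (.nd (nat_lit 6) (.nd (nat_lit 7) (.nd (nat_lit 8) (.nd (nat_lit 9) 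
(.lf (nat_lit 535592) (.g (nat_lit 3284) (.e (nat_lit 57849) (nat_lit 252) (.e (nat_lit 57445) (nat_lit 19) (.e (nat_lit 393229) (nat_lit 9) (.e (nat_lit 335914) (nat_lit 0) .nil)))) (.g (nat_lit 0) (.e (nat_lit 258517) (nat_lit 0) .nil) .nil))) 
(.lf (nat_lit 536104) (.g (nat_lit 1240) (.e (nat_lit 57926) (nat_lit 282) (.e (nat_lit 163868) (nat_lit 2) (.e (nat_lit 196674) (nat_lit 15) (.e (nat_lit 89856) (nat_lit 11) .nil)))) (.g (nat_lit 0) (.e (nat_lit 259591) (nat_lit 0) .nil) .nil)))) (.nd (nat_lit 9) 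
(.lf (nat_lit 535848) (.g (nat_lit 1998) (.e (nat_lit 57854) (nat_lit 252) (.e (nat_lit 57406) (nat_lit 12) (.e (nat_lit 336456) (nat_lit 34) (.e (nat_lit 483393) (nat_lit 23) (.e (nat_lit 336275) (nat_lit 15) .nil))))) (.g (nat_lit 0) (.e (nat_lit 258915) (nat_lit 0) .nil) .nil))) 
(.lf (nat_lit 536360) (.g (nat_lit 3740) (.e (nat_lit 57927) (nat_lit 282) (.e (nat_lit 163933) (nat_lit 17) (.e (nat_lit 466977) (nat_lit 22) (.e (nat_lit 196656) (nat_lit 11) (.e (nat_lit 16407) (nat_lit 1) (.e (nat_lit 164332) (nat_lit 230) (.e (nat_lit 171776) (nat_lit 62) .nil))))))) (.g (nat_lit 1) (.e (nat_lit 260137) (nat_lit 0) .nil) .nil))))) (.nd (nat_lit 8) (.nd (nat_lit 9) 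
(.lf (nat_lit 535720) (.g (nat_lit 2523) (.e (nat_lit 57853) (nat_lit 252) (.e (nat_lit 57371) (nat_lit 2) (.e (nat_lit 90160) (nat_lit 11) (.e (nat_lit 24630) (nat_lit 9) (.e (nat_lit 336454) (nat_lit 34) .nil))))) (.g (nat_lit 0) (.e (nat_lit 258702) (nat_lit 0) .nil) .nil))) 
(.lf (nat_lit 536232) (.g (nat_lit 2162) (.e (nat_lit 57927) (nat_lit 282) (.e (nat_lit 163871) (nat_lit 2) (.e (nat_lit 196674) (nat_lit 15) (.e (nat_lit 81925) (nat_lit 11) (.e (nat_lit 426500) (nat_lit 27) (.e (nat_lit 343808) (nat_lit 1) .nil)))))) (.g (nat_lit 1) (.e (nat_lit 259927) (nat_lit 0) .nil) .nil)))) (.nd (nat_lit 9) 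
(.lf (nat_lit 535976) (.g (nat_lit 3320) (.e (nat_lit 57883) (nat_lit 270) (.e (nat_lit 162) (nat_lit 11) (.e (nat_lit 196670) (nat_lit 14) (.e (nat_lit 73753) (nat_lit 8) (.e (nat_lit 557105) (nat_lit 14) (.e (nat_lit 180252) (nat_lit 10) (.e (nat_lit 581376) (nat_lit 19) .nil))))))) (.g (nat_lit 1) (.e (nat_lit 259202) (nat_lit 0) .nil) .nil))) 
(.lf (nat_lit 536488) (.g (nat_lit 2548) (.e (nat_lit 57930) (nat_lit 282) (.e (nat_lit 163869) (nat_lit 2) (.e (nat_lit 196668) (nat_lit 14) (.e (nat_lit 73746) (nat_lit 3) (.e (nat_lit 516131) (nat_lit 3) .nil))))) (.g (nat_lit 0) (.e (nat_lit 260508) (nat_lit 0) .nil) .nil)))))) (.nd (nat_lit 7) (.nd (nat_lit 8) (.nd (nat_lit 9) 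
(.lf (nat_lit 535656) (.g (nat_lit 1796) (.e (nat_lit 57851) (nat_lit 252) (.e (nat_lit 57406) (nat_lit 12) (.e (nat_lit 336456) (nat_lit 34) (.e (nat_lit 483383) (nat_lit 23) (.e (nat_lit 336257) (nat_lit 15) .nil))))) (.g (nat_lit 0) (.e (nat_lit 258606) (nat_lit 0) .nil) .nil))) 
(.lf (nat_lit 536168) (.g (nat_lit 2435) (.e (nat_lit 57927) (nat_lit 282) (.e (nat_lit 163867) (nat_lit 2) (.e (nat_lit 196670) (nat_lit 14) (.e (nat_lit 73746) (nat_lit 3) (.e (nat_lit 516127) (nat_lit 2) .nil))))) (.g (nat_lit 0) (.e (nat_lit 259805) (nat_lit 0) .nil) .nil)))) (.nd (nat_lit 9) 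
(.lf (nat_lit 535912) (.g (nat_lit 3704) (.e (nat_lit 57871) (nat_lit 264) (.e (nat_lit 1209) (nat_lit 89) (.e (nat_lit 73782) (nat_lit 32) (.e (nat_lit 2856) (nat_lit 184) (.e (nat_lit 426542) (nat_lit 29) (.e (nat_lit 352309) (nat_lit 21) .nil)))))) (.g (nat_lit 1) (.e (nat_lit 259005) (nat_lit 0) .nil) .nil))) 
(.lf (nat_lit 536424) (.g (nat_lit 2653) (.e (nat_lit 57929) (nat_lit 282) (.e (nat_lit 163874) (nat_lit 3) (.e (nat_lit 204865) (nat_lit 28) (.e (nat_lit 352277) (nat_lit 11) (.e (nat_lit 426500) (nat_lit 27) (.e (nat_lit 335995) (nat_lit 1) .nil)))))) (.g (nat_lit 1) (.e (nat_lit 260348) (nat_lit 0) .nil) .nil))))) (.nd (nat_lit 8) (.nd (nat_lit 9) 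
(.lf (nat_lit 535784) (.g (nat_lit 1217) (.e (nat_lit 57854) (nat_lit 252) (.e (nat_lit 57378) (nat_lit 3) (.e (nat_lit 98344) (nat_lit 21) .nil))) (.g (nat_lit 0) (.e (nat_lit 258786) (nat_lit 0) .nil) .nil))) 
(.lf (nat_lit 536296) (.g (nat_lit 1948) (.e (nat_lit 57927) (nat_lit 282) (.e (nat_lit 163875) (nat_lit 3) (.e (nat_lit 204877) (nat_lit 31) (.e (nat_lit 376842) (nat_lit 11) (.e (nat_lit 426517) (nat_lit 27) (.e (nat_lit 343808) (nat_lit 1) .nil)))))) (.g (nat_lit 1) (.e (nat_lit 260049) (nat_lit 0) .nil) .nil)))) (.nd (nat_lit 9) 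
(.lf (nat_lit 536040) (.g (nat_lit 2105) (.e (nat_lit 57924) (nat_lit 282) (.e (nat_lit 163870) (nat_lit 2) (.e (nat_lit 196666) (nat_lit 13) (.e (nat_lit 65569) (nat_lit 3) .nil)))) (.g (nat_lit 0) (.e (nat_lit 259424) (nat_lit 0) .nil) .nil))) 
(.lf (nat_lit 536552) (.g (nat_lit 3714) (.e (nat_lit 57931) (nat_lit 282) (.e (nat_lit 163869) (nat_lit 2) (.e (nat_lit 196666) (nat_lit 13) (.e (nat_lit 65571) (nat_lit 3) (.e (nat_lit 98342) (nat_lit 20) (.e (nat_lit 221215) (nat_lit 23) (.e (nat_lit 204828) (nat_lit 18) .nil))))))) (.g (nat_lit 1) (.e (nat_lit 260641) (nat_lit 0) .nil) .nil)))))))) 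
(.nd (nat_lit 5) (.nd (nat_lit 6) (.nd (nat_lit 7) (.nd (nat_lit 8) (.nd (nat_lit 9) 
(.lf (nat_lit 535576) (.g (nat_lit 607) (.e (nat_lit 57849) (nat_lit 252) (.e (nat_lit 57389) (nat_lit 5) (.e (nat_lit 114698) (nat_lit 11) .nil))) (.g (nat_lit 0) (.e (nat_lit 258490) (nat_lit 0) .nil) .nil))) 
(.lf (nat_lit 536088) (.g (nat_lit 2060) (.e (nat_lit 57926) (nat_lit 282) (.e (nat_lit 163867) (nat_lit 2) (.e (nat_lit 196668) (nat_lit 14) (.e (nat_lit 73747) (nat_lit 3) (.e (nat_lit 516131) (nat_lit 3) .nil))))) (.g (nat_lit 0) (.e (nat_lit 259567) (nat_lit 0) .nil) .nil)))) (.nd (nat_lit 9) 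
(.lf (nat_lit 535832) (.g (nat_lit 573) (.e (nat_lit 57854) (nat_lit 252) (.e (nat_lit 57406) (nat_lit 12) (.e (nat_lit 336452) (nat_lit 34) .nil))) (.g (nat_lit 0) (.e (nat_lit 258899) (nat_lit 0) .nil) .nil))) 
(.lf (nat_lit 536344) (.g (nat_lit 2078) (.e (nat_lit 57927) (nat_lit 282) (.e (nat_lit 163933) (nat_lit 17) (.e (nat_lit 466977) (nat_lit 22) (.e (nat_lit 196624) (nat_lit 9) (.e (nat_lit 483) (nat_lit 38) .nil))))) (.g (nat_lit 0) (.e (nat_lit 260121) (nat_lit 0) .nil) .nil))))) (.nd (nat_lit 8) (.nd (nat_lit 9) 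
(.lf (nat_lit 535704) (.g (nat_lit 2300) (.e (nat_lit 57852) (nat_lit 252) (.e (nat_lit 57406) (nat_lit 12) (.e (nat_lit 336367) (nat_lit 27) (.e (nat_lit 426555) (nat_lit 32) (.e (nat_lit 376832) (nat_lit 0) .nil))))) (.g (nat_lit 0) (.e (nat_lit 258678) (nat_lit 0) .nil) .nil))) 
(.lf (nat_lit 536216) (.g (nat_lit 1538) (.e (nat_lit 57927) (nat_lit 282) (.e (nat_lit 163870) (nat_lit 2) (.e (nat_lit 196666) (nat_lit 13) (.e (nat_lit 65571) (nat_lit 3) .nil)))) (.g (nat_lit 0) (.e (nat_lit 259886) (nat_lit 0) .nil) .nil)))) (.nd (nat_lit 9) 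
(.lf (nat_lit 535960) (.g (nat_lit 1394) (.e (nat_lit 57879) (nat_lit 270) (.e (nat_lit 496) (nat_lit 39) (.e (nat_lit 483381) (nat_lit 23) (.e (nat_lit 336320) (nat_lit 17) (.e (nat_lit 196698) (nat_lit 19) (.e (nat_lit 57808) (nat_lit 246) .nil)))))) (.g (nat_lit 1) (.e (nat_lit 259128) (nat_lit 0) .nil) .nil))) 
(.lf (nat_lit 536472) (.g (nat_lit 700) (.e (nat_lit 57929) (nat_lit 282) (.e (nat_lit 163931) (nat_lit 17) (.e (nat_lit 466974) (nat_lit 22) .nil))) (.g (nat_lit 0) (.e (nat_lit 260424) (nat_lit 0) .nil) .nil)))))) (.nd (nat_lit 7) (.nd (nat_lit 8) (.nd (nat_lit 9) 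
(.lf (nat_lit 535640) (.g (nat_lit 3212) (.e (nat_lit 57851) (nat_lit 252) (.e (nat_lit 57406) (nat_lit 12) (.e (nat_lit 336367) (nat_lit 27) (.e (nat_lit 426540) (nat_lit 29) (.e (nat_lit 352262) (nat_lit 0) (.e (nat_lit 3253) (nat_lit 197) (.e (nat_lit 532504) (nat_lit 1) .nil))))))) (.g (nat_lit 1) (.e (nat_lit 258590) (nat_lit 0) .nil) .nil))) 
(.lf (nat_lit 536152) (.g (nat_lit 1054) (.e (nat_lit 57926) (nat_lit 282) (.e (nat_lit 163943) (nat_lit 19) (.e (nat_lit 483350) (nat_lit 17) .nil))) (.g (nat_lit 0) (.e (nat_lit 259748) (nat_lit 0) .nil) .nil)))) (.nd (nat_lit 9) 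
(.lf (nat_lit 535896) (.g (nat_lit 1217) (.e (nat_lit 57854) (nat_lit 252) (.e (nat_lit 57409) (nat_lit 12) (.e (nat_lit 336456) (nat_lit 34) (.e (nat_lit 483387) (nat_lit 23) .nil)))) (.g (nat_lit 0) (.e (nat_lit 258964) (nat_lit 0) .nil) .nil))) 
(.lf (nat_lit 536408) (.g (nat_lit 2438) (.e (nat_lit 57929) (nat_lit 282) (.e (nat_lit 163869) (nat_lit 2) (.e (nat_lit 196668) (nat_lit 14) (.e (nat_lit 73747) (nat_lit 3) (.e (nat_lit 516130) (nat_lit 3) (.e (nat_lit 221215) (nat_lit 23) (.e (nat_lit 204830) (nat_lit 18) .nil))))))) (.g (nat_lit 1) (.e (nat_lit 260326) (nat_lit 0) .nil) .nil))))) (.nd (nat_lit 8) (.nd (nat_lit 9) 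
(.lf (nat_lit 535768) (.g (nat_lit 529) (.e (nat_lit 57854) (nat_lit 252) (.e (nat_lit 57378) (nat_lit 3) (.e (nat_lit 98333) (nat_lit 18) .nil))) (.g (nat_lit 0) (.e (nat_lit 258768) (nat_lit 0) .nil) .nil))) 
(.lf (nat_lit 536280) (.g (nat_lit 3597) (.e (nat_lit 57927) (nat_lit 282) (.e (nat_lit 163875) (nat_lit 3) (.e (nat_lit 204862) (nat_lit 27) (.e (nat_lit 344117) (nat_lit 21) (.e (nat_lit 516106) (nat_lit 0) (.e (nat_lit 3721) (nat_lit 227) (.e (nat_lit 778474) (nat_lit 12) (.e (nat_lit 163962) (nat_lit 25) (.e (nat_lit 532499) (nat_lit 1) .nil))))))))) (.g (nat_lit 1) (.e (nat_lit 260020) (nat_lit 0) .nil) .nil)))) 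
(.nd (nat_lit 9) 
(.lf (nat_lit 536024) (.g (nat_lit 1870) (.e (nat_lit 57924) (nat_lit 282) (.e (nat_lit 163867) (nat_lit 2) (.e (nat_lit 196668) (nat_lit 14) (.e (nat_lit 73746) (nat_lit 3) (.e (nat_lit 516129) (nat_lit 3) .nil))))) (.g (nat_lit 0) (.e (nat_lit 259392) (nat_lit 0) .nil) .nil))) 
(.lf (nat_lit 536536) (.g (nat_lit 1288) (.e (nat_lit 57931) (nat_lit 282) (.e (nat_lit 163867) (nat_lit 2) (.e (nat_lit 196671) (nat_lit 15) (.e (nat_lit 81927) (nat_lit 11) (.e (nat_lit 426500) (nat_lit 27) .nil))))) (.g (nat_lit 0) (.e (nat_lit 260619) (nat_lit 0) .nil) .nil))))))) (.nd (nat_lit 6) (.nd (nat_lit 7) (.nd (nat_lit 8) (.nd (nat_lit 9) 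
(.lf (nat_lit 535608) (.g (nat_lit 1472) (.e (nat_lit 57851) (nat_lit 252) (.e (nat_lit 57371) (nat_lit 2) (.e (nat_lit 90160) (nat_lit 11) (.e (nat_lit 24608) (nat_lit 3) .nil)))) (.g (nat_lit 0) (.e (nat_lit 258535) (nat_lit 0) .nil) .nil))) 
(.lf (nat_lit 536120) (.g (nat_lit 1743) (.e (nat_lit 57926) (nat_lit 282) (.e (nat_lit 163874) (nat_lit 3) (.e (nat_lit 204855) (nat_lit 26) (.e (nat_lit 336020) (nat_lit 3) .nil)))) (.g (nat_lit 0) (.e (nat_lit 259634) (nat_lit 0) .nil) .nil)))) (.nd (nat_lit 9) 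
(.lf (nat_lit 535864) (.g (nat_lit 2678) (.e (nat_lit 57854) (nat_lit 252) (.e (nat_lit 57409) (nat_lit 12) (.e (nat_lit 336316) (nat_lit 17) (.e (nat_lit 196666) (nat_lit 13) (.e (nat_lit 65617) (nat_lit 10) (.e (nat_lit 344088) (nat_lit 18) (.e (nat_lit 7693) (nat_lit 412) (.e (nat_lit 57368) (nat_lit 1) .nil)))))))) (.g (nat_lit 1) (.e (nat_lit 258931) (nat_lit 0) .nil) .nil))) 
(.lf (nat_lit 536376) (.g (nat_lit 1505) (.e (nat_lit 57928) (nat_lit 282) (.e (nat_lit 163868) (nat_lit 2) (.e (nat_lit 196668) (nat_lit 14) (.e (nat_lit 73746) (nat_lit 3) .nil)))) (.g (nat_lit 0) (.e (nat_lit 260236) (nat_lit 0) .nil) .nil))))) (.nd (nat_lit 8) (.nd (nat_lit 9) 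
(.lf (nat_lit 535736) (.g (nat_lit 1831) (.e (nat_lit 57853) (nat_lit 252) (.e (nat_lit 57406) (nat_lit 12) (.e (nat_lit 336456) (nat_lit 34) (.e (nat_lit 483387) (nat_lit 23) .nil)))) (.g (nat_lit 0) (.e (nat_lit 258720) (nat_lit 0) .nil) .nil))) 
(.lf (nat_lit 536248) (.g (nat_lit 3302) (.e (nat_lit 57927) (nat_lit 282) (.e (nat_lit 163874) (nat_lit 3) (.e (nat_lit 204862) (nat_lit 27) (.e (nat_lit 344117) (nat_lit 21) (.e (nat_lit 516099) (nat_lit 0) (.e (nat_lit 3771) (nat_lit 229) (.e (nat_lit 794673) (nat_lit 23) (.e (nat_lit 204830) (nat_lit 18) .nil)))))))) (.g (nat_lit 1) (.e (nat_lit 259970) (nat_lit 0) .nil) .nil)))) 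
(.nd (nat_lit 9) 
(.lf (nat_lit 535992) (.g (nat_lit 1652) (.e (nat_lit 57883) (nat_lit 270) (.e (nat_lit 371) (nat_lit 32) (.e (nat_lit 426546) (nat_lit 30) (.e (nat_lit 360466) (nat_lit 3) (.e (nat_lit 516190) (nat_lit 17) (.e (nat_lit 6215) (nat_lit 333) .nil)))))) (.g (nat_lit 1) (.e (nat_lit 259248) (nat_lit 0) .nil) .nil))) 
(.lf (nat_lit 536504) (.g (nat_lit 3593) (.e (nat_lit 57930) (nat_lit 282) (.e (nat_lit 163923) (nat_lit 15) (.e (nat_lit 450587) (nat_lit 10) (.e (nat_lit 573475) (nat_lit 12) (.e (nat_lit 57360) (nat_lit 0) .nil))))) (.g (nat_lit 0) (.e (nat_lit 260551) (nat_lit 0) .nil) .nil)))))) (.nd (nat_lit 7) (.nd (nat_lit 8) (.nd (nat_lit 9) 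
(.lf (nat_lit 535672) (.g (nat_lit 2973) (.e (nat_lit 57851) (nat_lit 252) (.e (nat_lit 57445) (nat_lit 19) (.e (nat_lit 393229) (nat_lit 9) (.e (nat_lit 335995) (nat_lit 1) .nil)))) (.g (nat_lit 0) (.e (nat_lit 258622) (nat_lit 0) .nil) .nil))) 
(.lf (nat_lit 536184) (.g (nat_lit 1113) (.e (nat_lit 57927) (nat_lit 282) (.e (nat_lit 163868) (nat_lit 2) (.e (nat_lit 196668) (nat_lit 14) (.e (nat_lit 73747) (nat_lit 3) .nil)))) (.g (nat_lit 0) (.e (nat_lit 259830) (nat_lit 0) .nil) .nil)))) (.nd (nat_lit 9) 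
(.lf (nat_lit 535928) (.g (nat_lit 1375) (.e (nat_lit 57872) (nat_lit 264) (.e (nat_lit 1211) (nat_lit 89) (.e (nat_lit 73782) (nat_lit 32) (.e (nat_lit 3090) (nat_lit 191) (.e (nat_lit 483380) (nat_lit 23) .nil))))) (.g (nat_lit 0) (.e (nat_lit 259026) (nat_lit 0) .nil) .nil))) 
(.lf (nat_lit 536440) (.g (nat_lit 2558) (.e (nat_lit 57929) (nat_lit 282) (.e (nat_lit 163905) (nat_lit 12) (.e (nat_lit 426555) (nat_lit 32) (.e (nat_lit 376865) (nat_lit 22) (.e (nat_lit 90160) (nat_lit 11) (.e (nat_lit 24598) (nat_lit 1) .nil)))))) (.g (nat_lit 1) (.e (nat_lit 260374) (nat_lit 0) .nil) .nil))))) (.nd (nat_lit 8) (.nd (nat_lit 9) 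
(.lf (nat_lit 535800) (.g (nat_lit 326) (.e (nat_lit 57854) (nat_lit 252) (.e (nat_lit 57389) (nat_lit 5) (.e (nat_lit 122624) (nat_lit 12) .nil))) (.g (nat_lit 0) (.e (nat_lit 258837) (nat_lit 0) .nil) .nil))) 
(.lf (nat_lit 536312) (.g (nat_lit 984) (.e (nat_lit 57927) (nat_lit 282) (.e (nat_lit 163903) (nat_lit 12) (.e (nat_lit 426543) (nat_lit 29) .nil))) (.g (nat_lit 0) (.e (nat_lit 260076) (nat_lit 0) .nil) .nil)))) (.nd (nat_lit 9) 
(.lf (nat_lit 536056) (.g (nat_lit 698) (.e (nat_lit 57924) (nat_lit 282) (.e (nat_lit 163923) (nat_lit 15) (.e (nat_lit 450587) (nat_lit 10) .nil))) (.g (nat_lit 0) (.e (nat_lit 259460) (nat_lit 0) .nil) .nil))) 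
(.lf (nat_lit 536568) (.g (nat_lit 518) (.e (nat_lit 57931) (nat_lit 282) (.e (nat_lit 163869) (nat_lit 2) (.e (nat_lit 196673) (nat_lit 15) .nil))) (.g (nat_lit 0) (.e (nat_lit 260678) (nat_lit 0) .nil) .nil)))))))))) (.nd (nat_lit 3) (.nd (nat_lit 4) (.nd (nat_lit 5) (.nd (nat_lit 6) (.nd (nat_lit 7) (.nd (nat_lit 8) (.nd (nat_lit 9) 
(.lf (nat_lit 535556) (.g (nat_lit 489) (.e (nat_lit 57849) (nat_lit 252) (.e (nat_lit 57377) (nat_lit 3) (.e (nat_lit 98314) (nat_lit 9) .nil))) (.g (nat_lit 0) (.e (nat_lit 258458) (nat_lit 0) .nil) .nil))) 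
(.lf (nat_lit 536068) (.g (nat_lit 2443) (.e (nat_lit 57925) (nat_lit 282) (.e (nat_lit 163868) (nat_lit 2) (.e (nat_lit 196668) (nat_lit 14) (.e (nat_lit 73747) (nat_lit 3) (.e (nat_lit 516124) (nat_lit 2) .nil))))) (.g (nat_lit 0) (.e (nat_lit 259509) (nat_lit 0) .nil) .nil)))) (.nd (nat_lit 9) 
(.lf (nat_lit 535812) (.g (nat_lit 3509) (.e (nat_lit 57854) (nat_lit 252) (.e (nat_lit 57406) (nat_lit 12) (.e (nat_lit 336316) (nat_lit 17) (.e (nat_lit 196666) (nat_lit 13) (.e (nat_lit 65610) (nat_lit 10) (.e (nat_lit 344088) (nat_lit 18) (.e (nat_lit 7695) (nat_lit 412) (.e (nat_lit 57366) (nat_lit 1) .nil)))))))) (.g (nat_lit 1) (.e (nat_lit 258879) (nat_lit 0) .nil) .nil))) 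
(.lf (nat_lit 536324) (.g (nat_lit 2594) (.e (nat_lit 57927) (nat_lit 282) (.e (nat_lit 163906) (nat_lit 12) (.e (nat_lit 426555) (nat_lit 32) (.e (nat_lit 376862) (nat_lit 22) (.e (nat_lit 90160) (nat_lit 11) (.e (nat_lit 24597) (nat_lit 1) .nil)))))) (.g (nat_lit 1) (.e (nat_lit 260089) (nat_lit 0) .nil) .nil))))) (.nd (nat_lit 8) (.nd (nat_lit 9) 
(.lf (nat_lit 535684) (.g (nat_lit 3055) (.e (nat_lit 57852) (nat_lit 252) (.e (nat_lit 57373) (nat_lit 2) (.e (nat_lit 90160) (nat_lit 11) (.e (nat_lit 24608) (nat_lit 3) (.e (nat_lit 98340) (nat_lit 20) .nil))))) (.g (nat_lit 0) (.e (nat_lit 258636) (nat_lit 0) .nil) .nil))) 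
(.lf (nat_lit 536196) (.g (nat_lit 1972) (.e (nat_lit 57927) (nat_lit 282) (.e (nat_lit 163869) (nat_lit 2) (.e (nat_lit 196663) (nat_lit 13) (.e (nat_lit 65571) (nat_lit 3) (.e (nat_lit 98341) (nat_lit 20) .nil))))) (.g (nat_lit 0) (.e (nat_lit 259851) (nat_lit 0) .nil) .nil)))) (.nd (nat_lit 9) 
(.lf (nat_lit 535940) (.g (nat_lit 2816) (.e (nat_lit 57878) (nat_lit 270) (.e (nat_lit 371) (nat_lit 32) (.e (nat_lit 426544) (nat_lit 30) (.e (nat_lit 360467) (nat_lit 3) (.e (nat_lit 516191) (nat_lit 17) (.e (nat_lit 6207) (nat_lit 333) .nil)))))) (.g (nat_lit 1) (.e (nat_lit 259076) (nat_lit 0) .nil) .nil))) 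
(.lf (nat_lit 536452) (.g (nat_lit 553) (.e (nat_lit 57929) (nat_lit 282) (.e (nat_lit 163923) (nat_lit 15) (.e (nat_lit 450587) (nat_lit 10) .nil))) (.g (nat_lit 0) (.e (nat_lit 260395) (nat_lit 0) .nil) .nil)))))) (.nd (nat_lit 7) (.nd (nat_lit 8) (.nd (nat_lit 9) 
(.lf (nat_lit 535620) (.g (nat_lit 1099) (.e (nat_lit 57851) (nat_lit 252) (.e (nat_lit 57388) (nat_lit 5) (.e (nat_lit 114698) (nat_lit 11) (.e (nat_lit 426197) (nat_lit 9) .nil)))) (.g (nat_lit 0) (.e (nat_lit 258548) (nat_lit 0) .nil) .nil))) 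
(.lf (nat_lit 536132) (.g (nat_lit 2992) (.e (nat_lit 57926) (nat_lit 282) (.e (nat_lit 163875) (nat_lit 3) (.e (nat_lit 204863) (nat_lit 27) (.e (nat_lit 344117) (nat_lit 21) (.e (nat_lit 516123) (nat_lit 2) (.e (nat_lit 213036) (nat_lit 13) (.e (nat_lit 229433) (nat_lit 25) (.e (nat_lit 532501) (nat_lit 1) .nil)))))))) (.g (nat_lit 1) (.e (nat_lit 259671) (nat_lit 0) .nil) .nil)))) 
(.nd (nat_lit 9) 
(.lf (nat_lit 535876) (.g (nat_lit 2498) (.e (nat_lit 57854) (nat_lit 252) (.e (nat_lit 57409) (nat_lit 12) (.e (nat_lit 336326) (nat_lit 18) (.e (nat_lit 204869) (nat_lit 29) (.e (nat_lit 360448) (nat_lit 0) (.e (nat_lit 7694) (nat_lit 412) (.e (nat_lit 57368) (nat_lit 1) .nil))))))) (.g (nat_lit 1) (.e (nat_lit 258943) (nat_lit 0) .nil) .nil))) 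
(.lf (nat_lit 536388) (.g (nat_lit 1357) (.e (nat_lit 57928) (nat_lit 282) (.e (nat_lit 163871) (nat_lit 2) (.e (nat_lit 196670) (nat_lit 14) (.e (nat_lit 73746) (nat_lit 3) .nil)))) (.g (nat_lit 0) (.e (nat_lit 260273) (nat_lit 0) .nil) .nil))))) (.nd (nat_lit 8) (.nd (nat_lit 9) 
(.lf (nat_lit 535748) (.g (nat_lit 1904) (.e (nat_lit 57854) (nat_lit 252) (.e (nat_lit 57371) (nat_lit 2) (.e (nat_lit 90160) (nat_lit 11) (.e (nat_lit 24630) (nat_lit 9) (.e (nat_lit 336414) (nat_lit 27) .nil))))) (.g (nat_lit 0) (.e (nat_lit 258735) (nat_lit 0) .nil) .nil))) 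
(.lf (nat_lit 536260) (.g (nat_lit 2698) (.e (nat_lit 57927) (nat_lit 282) (.e (nat_lit 163874) (nat_lit 3) (.e (nat_lit 204863) (nat_lit 27) (.e (nat_lit 344117) (nat_lit 21) (.e (nat_lit 516129) (nat_lit 3) (.e (nat_lit 221202) (nat_lit 20) (.e (nat_lit 3249) (nat_lit 197) (.e (nat_lit 532499) (nat_lit 1) .nil)))))))) (.g (nat_lit 1) (.e (nat_lit 259982) (nat_lit 0) .nil) .nil)))) 
(.nd (nat_lit 9) 
(.lf (nat_lit 536004) (.g (nat_lit 2097) (.e (nat_lit 57883) (nat_lit 270) (.e (nat_lit 496) (nat_lit 39) (.e (nat_lit 483383) (nat_lit 23) (.e (nat_lit 336320) (nat_lit 17) (.e (nat_lit 196698) (nat_lit 19) (.e (nat_lit 57810) (nat_lit 246) .nil)))))) (.g (nat_lit 1) (.e (nat_lit 259272) (nat_lit 0) .nil) .nil))) 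
(.lf (nat_lit 536516) (.g (nat_lit 1318) (.e (nat_lit 57931) (nat_lit 282) (.e (nat_lit 163866) (nat_lit 2) (.e (nat_lit 196668) (nat_lit 14) (.e (nat_lit 73746) (nat_lit 3) .nil)))) (.g (nat_lit 0) (.e (nat_lit 260580) (nat_lit 0) .nil) .nil))))))) (.nd (nat_lit 6) (.nd (nat_lit 7) (.nd (nat_lit 8) (.nd (nat_lit 9) 
(.lf (nat_lit 535588) (.g (nat_lit 1282) (.e (nat_lit 57849) (nat_lit 252) (.e (nat_lit 57407) (nat_lit 12) (.e (nat_lit 336456) (nat_lit 34) (.e (nat_lit 483386) (nat_lit 23) .nil)))) (.g (nat_lit 0) (.e (nat_lit 258513) (nat_lit 0) .nil) .nil))) 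
(.lf (nat_lit 536100) (.g (nat_lit 2149) (.e (nat_lit 57926) (nat_lit 282) (.e (nat_lit 163868) (nat_lit 2) (.e (nat_lit 196670) (nat_lit 14) (.e (nat_lit 73746) (nat_lit 3) (.e (nat_lit 516124) (nat_lit 2) .nil))))) (.g (nat_lit 0) (.e (nat_lit 259587) (nat_lit 0) .nil) .nil)))) (.nd (nat_lit 9) 
(.lf (nat_lit 535844) (.g (nat_lit 1551) (.e (nat_lit 57854) (nat_lit 252) (.e (nat_lit 57406) (nat_lit 12) (.e (nat_lit 336456) (nat_lit 34) (.e (nat_lit 483386) (nat_lit 23) .nil)))) (.g (nat_lit 0) (.e (nat_lit 258911) (nat_lit 0) .nil) .nil))) 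
(.lf (nat_lit 536356) (.g (nat_lit 2327) (.e (nat_lit 57927) (nat_lit 282) (.e (nat_lit 163933) (nat_lit 17) (.e (nat_lit 466977) (nat_lit 22) (.e (nat_lit 196656) (nat_lit 11) (.e (nat_lit 16406) (nat_lit 1) (.e (nat_lit 164332) (nat_lit 230) (.e (nat_lit 171776) (nat_lit 62) .nil))))))) (.g (nat_lit 1) (.e (nat_lit 260133) (nat_lit 0) .nil) .nil))))) (.nd (nat_lit 8) (.nd (nat_lit 9) 
(.lf (nat_lit 535716) (.g (nat_lit 869) (.e (nat_lit 57852) (nat_lit 252) (.e (nat_lit 57447) (nat_lit 19) (.e (nat_lit 393238) (nat_lit 17) .nil))) (.g (nat_lit 0) (.e (nat_lit 258693) (nat_lit 0) .nil) .nil))) 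
(.lf (nat_lit 536228) (.g (nat_lit 1617) (.e (nat_lit 57927) (nat_lit 282) (.e (nat_lit 163871) (nat_lit 2) (.e (nat_lit 196670) (nat_lit 14) (.e (nat_lit 73746) (nat_lit 3) (.e (nat_lit 516124) (nat_lit 2) .nil))))) (.g (nat_lit 0) (.e (nat_lit 259921) (nat_lit 0) .nil) .nil)))) (.nd (nat_lit 9) 
(.lf (nat_lit 535972) (.g (nat_lit 2321) (.e (nat_lit 57881) (nat_lit 270) (.e (nat_lit 496) (nat_lit 39) (.e (nat_lit 483380) (nat_lit 23) (.e (nat_lit 336320) (nat_lit 17) (.e (nat_lit 196698) (nat_lit 19) (.e (nat_lit 57816) (nat_lit 246) .nil)))))) (.g (nat_lit 1) (.e (nat_lit 259176) (nat_lit 0) .nil) .nil))) 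
(.lf (nat_lit 536484) (.g (nat_lit 2874) (.e (nat_lit 57930) (nat_lit 282) (.e (nat_lit 163869) (nat_lit 2) (.e (nat_lit 196666) (nat_lit 13) (.e (nat_lit 65569) (nat_lit 3) (.e (nat_lit 98342) (nat_lit 20) .nil))))) (.g (nat_lit 0) (.e (nat_lit 260501) (nat_lit 0) .nil) .nil)))))) (.nd (nat_lit 7) (.nd (nat_lit 8) (.nd (nat_lit 9) 
(.lf (nat_lit 535652) (.g (nat_lit 3753) (.e (nat_lit 57851) (nat_lit 252) (.e (nat_lit 57406) (nat_lit 12) (.e (nat_lit 336456) (nat_lit 34) (.e (nat_lit 483380) (nat_lit 23) (.e (nat_lit 336324) (nat_lit 18) (.e (nat_lit 204831) (nat_lit 18) .nil)))))) (.g (nat_lit 1) (.e (nat_lit 258602) (nat_lit 0) .nil) .nil))) 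
(.lf (nat_lit 536164) (.g (nat_lit 1506) (.e (nat_lit 57927) (nat_lit 282) (.e (nat_lit 163867) (nat_lit 2) (.e (nat_lit 196668) (nat_lit 14) (.e (nat_lit 73747) (nat_lit 3) .nil)))) (.g (nat_lit 0) (.e (nat_lit 259800) (nat_lit 0) .nil) .nil)))) (.nd (nat_lit 9) 
(.lf (nat_lit 535908) (.g (nat_lit 972) (.e (nat_lit 57870) (nat_lit 264) (.e (nat_lit 1209) (nat_lit 89) (.e (nat_lit 73782) (nat_lit 32) (.e (nat_lit 3088) (nat_lit 191) .nil)))) (.g (nat_lit 0) (.e (nat_lit 259001) (nat_lit 0) .nil) .nil))) 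
(.lf (nat_lit 536420) (.g (nat_lit 2158) (.e (nat_lit 57929) (nat_lit 282) (.e (nat_lit 163874) (nat_lit 3) (.e (nat_lit 204862) (nat_lit 27) (.e (nat_lit 344117) (nat_lit 21) (.e (nat_lit 516130) (nat_lit 3) .nil))))) (.g (nat_lit 0) (.e (nat_lit 260344) (nat_lit 0) .nil) .nil))))) (.nd (nat_lit 8) (.nd (nat_lit 9) 
(.lf (nat_lit 535780) (.g (nat_lit 2692) (.e (nat_lit 57854) (nat_lit 252) (.e (nat_lit 57378) (nat_lit 3) (.e (nat_lit 98341) (nat_lit 20) (.e (nat_lit 221210) (nat_lit 22) (.e (nat_lit 196665) (nat_lit 13) (.e (nat_lit 65637) (nat_lit 15) (.e (nat_lit 3253) (nat_lit 197) (.e (nat_lit 532501) (nat_lit 1) .nil)))))))) (.g (nat_lit 1) (.e (nat_lit 258782) (nat_lit 0) .nil) .nil))) 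
(.lf (nat_lit 536292) (.g (nat_lit 791) (.e (nat_lit 57927) (nat_lit 282) (.e (nat_lit 163875) (nat_lit 3) (.e (nat_lit 204877) (nat_lit 31) (.e (nat_lit 376840) (nat_lit 11) .nil)))) (.g (nat_lit 0) (.e (nat_lit 260045) (nat_lit 0) .nil) .nil)))) (.nd (nat_lit 9) 
(.lf (nat_lit 536036) (.g (nat_lit 2316) (.e (nat_lit 57924) (nat_lit 282) (.e (nat_lit 163868) (nat_lit 2) (.e (nat_lit 196668) (nat_lit 14) (.e (nat_lit 73747) (nat_lit 3) (.e (nat_lit 516124) (nat_lit 2) .nil))))) (.g (nat_lit 0) (.e (nat_lit 259417) (nat_lit 0) .nil) .nil))) 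
(.lf (nat_lit 536548) (.g (nat_lit 242) (.e (nat_lit 57931) (nat_lit 282) (.e (nat_lit 163869) (nat_lit 2) (.e (nat_lit 196666) (nat_lit 13) .nil))) (.g (nat_lit 0) (.e (nat_lit 260635) (nat_lit 0) .nil) .nil)))))))) (.nd (nat_lit 5) (.nd (nat_lit 6) (.nd (nat_lit 7) (.nd (nat_lit 8) (.nd (nat_lit 9) 
(.lf (nat_lit 535572) (.g (nat_lit 2615) (.e (nat_lit 57849) (nat_lit 252) (.e (nat_lit 57379) (nat_lit 3) (.e (nat_lit 98335) (nat_lit 18) (.e (nat_lit 164403) (nat_lit 256) (.e (nat_lit 57588) (nat_lit 73) .nil))))) (.g (nat_lit 0) (.e (nat_lit 258477) (nat_lit 0) .nil) .nil))) 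
(.lf (nat_lit 536084) (.g (nat_lit 526) (.e (nat_lit 57926) (nat_lit 282) (.e (nat_lit 163843) (nat_lit 0) (.e (nat_lit 3248) (nat_lit 197) .nil))) (.g (nat_lit 0) (.e (nat_lit 259559) (nat_lit 0) .nil) .nil)))) (.nd (nat_lit 9) 
(.lf (nat_lit 535828) (.g (nat_lit 2337) (.e (nat_lit 57854) (nat_lit 252) (.e (nat_lit 57406) (nat_lit 12) (.e (nat_lit 336316) (nat_lit 17) (.e (nat_lit 196666) (nat_lit 13) (.e (nat_lit 65617) (nat_lit 10) (.e (nat_lit 344095) (nat_lit 18) (.e (nat_lit 7695) (nat_lit 412) (.e (nat_lit 57366) (nat_lit 1) .nil)))))))) (.g (nat_lit 1) (.e (nat_lit 258895) (nat_lit 0) .nil) .nil))) 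
(.lf (nat_lit 536340) (.g (nat_lit 2271) (.e (nat_lit 57927) (nat_lit 282) (.e (nat_lit 163933) (nat_lit 17) (.e (nat_lit 466972) (nat_lit 21) (.e (nat_lit 164403) (nat_lit 256) (.e (nat_lit 57441) (nat_lit 18) .nil))))) (.g (nat_lit 0) (.e (nat_lit 260117) (nat_lit 0) .nil) .nil))))) (.nd (nat_lit 8) (.nd (nat_lit 9) 
(.lf (nat_lit 535700) (.g (nat_lit 2561) (.e (nat_lit 57852) (nat_lit 252) (.e (nat_lit 57406) (nat_lit 12) (.e (nat_lit 336316) (nat_lit 17) (.e (nat_lit 196666) (nat_lit 13) (.e (nat_lit 65617) (nat_lit 10) (.e (nat_lit 344088) (nat_lit 18) (.e (nat_lit 7695) (nat_lit 412) (.e (nat_lit 57368) (nat_lit 1) .nil)))))))) (.g (nat_lit 1) (.e (nat_lit 258674) (nat_lit 0) .nil) .nil))) 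
(.lf (nat_lit 536212) (.g (nat_lit 3494) (.e (nat_lit 57927) (nat_lit 282) (.e (nat_lit 163869) (nat_lit 2) (.e (nat_lit 196670) (nat_lit 14) (.e (nat_lit 73746) (nat_lit 3) (.e (nat_lit 516129) (nat_lit 3) (.e (nat_lit 221196) (nat_lit 20) (.e (nat_lit 3250) (nat_lit 197) (.e (nat_lit 532499) (nat_lit 1) .nil)))))))) (.g (nat_lit 1) (.e (nat_lit 259879) (nat_lit 0) .nil) .nil)))) 
(.nd (nat_lit 9) 
(.lf (nat_lit 535956) (.g (nat_lit 2628) (.e (nat_lit 57879) (nat_lit 270) (.e (nat_lit 371) (nat_lit 32) (.e (nat_lit 426542) (nat_lit 29) (.e (nat_lit 352315) (nat_lit 23) (.e (nat_lit 98309) (nat_lit 0) (.e (nat_lit 6207) (nat_lit 333) .nil)))))) (.g (nat_lit 1) (.e (nat_lit 259114) (nat_lit 0) .nil) .nil))) 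
(.lf (nat_lit 536468) (.g (nat_lit 1915) (.e (nat_lit 57929) (nat_lit 282) (.e (nat_lit 163923) (nat_lit 15) (.e (nat_lit 450588) (nat_lit 10) (.e (nat_lit 573452) (nat_lit 9) .nil)))) (.g (nat_lit 0) (.e (nat_lit 260417) (nat_lit 0) .nil) .nil)))))) (.nd (nat_lit 7) (.nd (nat_lit 8) (.nd (nat_lit 9) 
(.lf (nat_lit 535636) (.g (nat_lit 2816) (.e (nat_lit 57851) (nat_lit 252) (.e (nat_lit 57406) (nat_lit 12) (.e (nat_lit 336316) (nat_lit 17) (.e (nat_lit 196666) (nat_lit 13) (.e (nat_lit 65617) (nat_lit 10) (.e (nat_lit 344091) (nat_lit 18) (.e (nat_lit 7697) (nat_lit 412) (.e (nat_lit 57366) (nat_lit 1) .nil)))))))) (.g (nat_lit 1) (.e (nat_lit 258586) (nat_lit 0) .nil) .nil))) 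
(.lf (nat_lit 536148) (.g (nat_lit 2538) (.e (nat_lit 57926) (nat_lit 282) (.e (nat_lit 163933) (nat_lit 17) (.e (nat_lit 466977) (nat_lit 22) (.e (nat_lit 196624) (nat_lit 9) (.e (nat_lit 489) (nat_lit 38) (.e (nat_lit 475212) (nat_lit 42) (.e (nat_lit 720931) (nat_lit 21) .nil))))))) (.g (nat_lit 1) (.e (nat_lit 259738) (nat_lit 0) .nil) .nil)))) (.nd (nat_lit 9) 
(.lf (nat_lit 535892) (.g (nat_lit 794) (.e (nat_lit 57854) (nat_lit 252) (.e (nat_lit 57409) (nat_lit 12) (.e (nat_lit 336452) (nat_lit 34) .nil))) (.g (nat_lit 0) (.e (nat_lit 258959) (nat_lit 0) .nil) .nil))) 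
(.lf (nat_lit 536404) (.g (nat_lit 1663) (.e (nat_lit 57929) (nat_lit 282) (.e (nat_lit 163869) (nat_lit 2) (.e (nat_lit 196668) (nat_lit 14) (.e (nat_lit 73746) (nat_lit 3) .nil)))) (.g (nat_lit 0) (.e (nat_lit 260320) (nat_lit 0) .nil) .nil))))) (.nd (nat_lit 8) (.nd (nat_lit 9) 
(.lf (nat_lit 535764) (.g (nat_lit 1219) (.e (nat_lit 57854) (nat_lit 252) (.e (nat_lit 57378) (nat_lit 3) (.e (nat_lit 98322) (nat_lit 17) .nil))) (.g (nat_lit 0) (.e (nat_lit 258764) (nat_lit 0) .nil) .nil))) 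
(.lf (nat_lit 536276) (.g (nat_lit 2058) (.e (nat_lit 57927) (nat_lit 282) (.e (nat_lit 163875) (nat_lit 3) (.e (nat_lit 204861) (nat_lit 26) (.e (nat_lit 336076) (nat_lit 9) (.e (nat_lit 336374) (nat_lit 27) .nil))))) (.g (nat_lit 0) (.e (nat_lit 260016) (nat_lit 0) .nil) .nil)))) (.nd (nat_lit 9) 
(.lf (nat_lit 536020) (.g (nat_lit 679) (.e (nat_lit 57924) (nat_lit 282) (.e (nat_lit 163867) (nat_lit 2) (.e (nat_lit 196663) (nat_lit 13) .nil))) (.g (nat_lit 0) (.e (nat_lit 259385) (nat_lit 0) .nil) .nil))) 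
(.lf (nat_lit 536532) (.g (nat_lit 2090) (.e (nat_lit 57931) (nat_lit 282) (.e (nat_lit 163867) (nat_lit 2) (.e (nat_lit 196670) (nat_lit 14) (.e (nat_lit 73746) (nat_lit 3) (.e (nat_lit 516124) (nat_lit 2) .nil))))) (.g (nat_lit 0) (.e (nat_lit 260615) (nat_lit 0) .nil) .nil))))))) (.nd (nat_lit 6) (.nd (nat_lit 7) (.nd (nat_lit 8) (.nd (nat_lit 9) 
(.lf (nat_lit 535604) (.g (nat_lit 2392) (.e (nat_lit 57851) (nat_lit 252) (.e (nat_lit 57371) (nat_lit 2) (.e (nat_lit 90158) (nat_lit 11) (.e (nat_lit 24608) (nat_lit 3) (.e (nat_lit 98337) (nat_lit 19) .nil))))) (.g (nat_lit 0) (.e (nat_lit 258530) (nat_lit 0) .nil) .nil))) 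
(.lf (nat_lit 536116) (.g (nat_lit 1456) (.e (nat_lit 57926) (nat_lit 282) (.e (nat_lit 163871) (nat_lit 2) (.e (nat_lit 196670) (nat_lit 14) (.e (nat_lit 73746) (nat_lit 3) (.e (nat_lit 516124) (nat_lit 2) .nil))))) (.g (nat_lit 0) (.e (nat_lit 259624) (nat_lit 0) .nil) .nil)))) (.nd (nat_lit 9) 
(.lf (nat_lit 535860) (.g (nat_lit 3779) (.e (nat_lit 57854) (nat_lit 252) (.e (nat_lit 57409) (nat_lit 12) (.e (nat_lit 336316) (nat_lit 17) (.e (nat_lit 196666) (nat_lit 13) (.e (nat_lit 65610) (nat_lit 10) (.e (nat_lit 344090) (nat_lit 18) (.e (nat_lit 7702) (nat_lit 413) (.e (nat_lit 122889) (nat_lit 1) .nil)))))))) (.g (nat_lit 1) (.e (nat_lit 258927) (nat_lit 0) .nil) .nil))) 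
(.lf (nat_lit 536372) (.g (nat_lit 2181) (.e (nat_lit 57927) (nat_lit 282) (.e (nat_lit 163943) (nat_lit 19) (.e (nat_lit 483395) (nat_lit 24) (.e (nat_lit 344117) (nat_lit 21) (.e (nat_lit 516194) (nat_lit 26) (.e (nat_lit 335986) (nat_lit 1) .nil)))))) (.g (nat_lit 1) (.e (nat_lit 260198) (nat_lit 0) .nil) .nil))))) (.nd (nat_lit 8) (.nd (nat_lit 9) 
(.lf (nat_lit 535732) (.g (nat_lit 2414) (.e (nat_lit 57853) (nat_lit 252) (.e (nat_lit 57406) (nat_lit 12) (.e (nat_lit 336454) (nat_lit 34) (.e (nat_lit 483407) (nat_lit 26) .nil)))) (.g (nat_lit 0) (.e (nat_lit 258716) (nat_lit 0) .nil) .nil))) 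
(.lf (nat_lit 536244) (.g (nat_lit 2130) (.e (nat_lit 57927) (nat_lit 282) (.e (nat_lit 163874) (nat_lit 3) (.e (nat_lit 204861) (nat_lit 26) (.e (nat_lit 336076) (nat_lit 9) (.e (nat_lit 336366) (nat_lit 27) .nil))))) (.g (nat_lit 0) (.e (nat_lit 259966) (nat_lit 0) .nil) .nil)))) (.nd (nat_lit 9) 
(.lf (nat_lit 535988) (.g (nat_lit 3077) (.e (nat_lit 57883) (nat_lit 270) (.e (nat_lit 371) (nat_lit 32) (.e (nat_lit 426544) (nat_lit 30) (.e (nat_lit 360467) (nat_lit 3) (.e (nat_lit 516191) (nat_lit 17) (.e (nat_lit 6207) (nat_lit 333) .nil)))))) (.g (nat_lit 1) (.e (nat_lit 259244) (nat_lit 0) .nil) .nil))) 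
(.lf (nat_lit 536500) (.g (nat_lit 1996) (.e (nat_lit 57930) (nat_lit 282) (.e (nat_lit 163902) (nat_lit 12) (.e (nat_lit 426555) (nat_lit 32) (.e (nat_lit 376865) (nat_lit 22) (.e (nat_lit 90160) (nat_lit 11) (.e (nat_lit 24597) (nat_lit 1) .nil)))))) (.g (nat_lit 1) (.e (nat_lit 260540) (nat_lit 0) .nil) .nil)))))) (.nd (nat_lit 7) (.nd (nat_lit 8) (.nd (nat_lit 9) 
(.lf (nat_lit 535668) (.g (nat_lit 1295) (.e (nat_lit 57851) (nat_lit 252) (.e (nat_lit 57406) (nat_lit 12) (.e (nat_lit 336456) (nat_lit 34) (.e (nat_lit 483386) (nat_lit 23) .nil)))) (.g (nat_lit 0) (.e (nat_lit 258618) (nat_lit 0) .nil) .nil))) 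
(.lf (nat_lit 536180) (.g (nat_lit 1584) (.e (nat_lit 57927) (nat_lit 282) (.e (nat_lit 163868) (nat_lit 2) (.e (nat_lit 196668) (nat_lit 14) (.e (nat_lit 73745) (nat_lit 3) .nil)))) (.g (nat_lit 0) (.e (nat_lit 259825) (nat_lit 0) .nil) .nil)))) (.nd (nat_lit 9) 
(.lf (nat_lit 535924) (.g (nat_lit 1786) (.e (nat_lit 57872) (nat_lit 264) (.e (nat_lit 1211) (nat_lit 89) (.e (nat_lit 73781) (nat_lit 32) (.e (nat_lit 3090) (nat_lit 191) (.e (nat_lit 483380) (nat_lit 23) (.e (nat_lit 343808) (nat_lit 1) .nil)))))) (.g (nat_lit 1) (.e (nat_lit 259022) (nat_lit 0) .nil) .nil))) 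
(.lf (nat_lit 536436) (.g (nat_lit 2272) (.e (nat_lit 57929) (nat_lit 282) (.e (nat_lit 163902) (nat_lit 12) (.e (nat_lit 426555) (nat_lit 32) (.e (nat_lit 376865) (nat_lit 22) (.e (nat_lit 90158) (nat_lit 11) (.e (nat_lit 24598) (nat_lit 1) .nil)))))) (.g (nat_lit 1) (.e (nat_lit 260369) (nat_lit 0) .nil) .nil))))) (.nd (nat_lit 8) (.nd (nat_lit 9) 
(.lf (nat_lit 535796) (.g (nat_lit 1185) (.e (nat_lit 57854) (nat_lit 252) (.e (nat_lit 57389) (nat_lit 5) (.e (nat_lit 114698) (nat_lit 11) (.e (nat_lit 426197) (nat_lit 9) .nil)))) (.g (nat_lit 0) (.e (nat_lit 258830) (nat_lit 0) .nil) .nil))) 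
(.lf (nat_lit 536308) (.g (nat_lit 3810) (.e (nat_lit 57927) (nat_lit 282) (.e (nat_lit 163886) (nat_lit 5) (.e (nat_lit 221219) (nat_lit 24) (.e (nat_lit 213032) (nat_lit 11) (.e (nat_lit 24651) (nat_lit 12) (.e (nat_lit 385109) (nat_lit 51) (.e (nat_lit 802560) (nat_lit 1) .nil))))))) (.g (nat_lit 1) (.e (nat_lit 260065) (nat_lit 0) .nil) .nil)))) (.nd (nat_lit 9) 
(.lf (nat_lit 536052) (.g (nat_lit 1847) (.e (nat_lit 57924) (nat_lit 282) (.e (nat_lit 163871) (nat_lit 2) (.e (nat_lit 196670) (nat_lit 14) (.e (nat_lit 73746) (nat_lit 3) (.e (nat_lit 516131) (nat_lit 3) .nil))))) (.g (nat_lit 0) (.e (nat_lit 259441) (nat_lit 0) .nil) .nil))) 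
(.lf (nat_lit 536564) (.g (nat_lit 5338) (.e (nat_lit 57931) (nat_lit 282) (.e (nat_lit 163869) (nat_lit 2) (.e (nat_lit 196670) (nat_lit 14) (.e (nat_lit 73746) (nat_lit 3) (.e (nat_lit 516129) (nat_lit 3) (.e (nat_lit 221204) (nat_lit 20) (.e (nat_lit 3253) (nat_lit 197) (.e (nat_lit 532503) (nat_lit 1) .nil)))))))) (.g (nat_lit 1) (.e (nat_lit 260671) (nat_lit 0) .nil) .nil))))))))) 
(.nd (nat_lit 4) (.nd (nat_lit 5) (.nd (nat_lit 6) (.nd (nat_lit 7) (.nd (nat_lit 8) 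
(.nd (nat_lit 9) 
(.lf (nat_lit 535564) (.g (nat_lit 3256) (.e (nat_lit 57849) (nat_lit 252) (.e (nat_lit 57379) (nat_lit 3) (.e (nat_lit 98333) (nat_lit 18) (.e (nat_lit 164403) (nat_lit 256) (.e (nat_lit 57588) (nat_lit 73) .nil))))) (.g (nat_lit 0) (.e (nat_lit 258466) (nat_lit 0) .nil) .nil))) 
(.lf (nat_lit 536076) (.g (nat_lit 1437) (.e (nat_lit 57925) (nat_lit 282) (.e (nat_lit 163871) (nat_lit 2) (.e (nat_lit 196668) (nat_lit 14) (.e (nat_lit 73747) (nat_lit 3) .nil)))) (.g (nat_lit 0) (.e (nat_lit 259527) (nat_lit 0) .nil) .nil)))) (.nd (nat_lit 9) 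
(.lf (nat_lit 535820) (.g (nat_lit 2523) (.e (nat_lit 57854) (nat_lit 252) (.e (nat_lit 57406) (nat_lit 12) (.e (nat_lit 336316) (nat_lit 17) (.e (nat_lit 196666) (nat_lit 13) (.e (nat_lit 65617) (nat_lit 10) (.e (nat_lit 344088) (nat_lit 18) (.e (nat_lit 7693) (nat_lit 412) (.e (nat_lit 57368) (nat_lit 1) .nil)))))))) (.g (nat_lit 1) (.e (nat_lit 258887) (nat_lit 0) .nil) .nil))) 
(.lf (nat_lit 536332) (.g (nat_lit 3073) (.e (nat_lit 57927) (nat_lit 282) (.e (nat_lit 163907) (nat_lit 12) (.e (nat_lit 426555) (nat_lit 32) (.e (nat_lit 376865) (nat_lit 22) (.e (nat_lit 90160) (nat_lit 11) (.e (nat_lit 24598) (nat_lit 1) .nil)))))) (.g (nat_lit 1) (.e (nat_lit 260099) (nat_lit 0) .nil) .nil))))) (.nd (nat_lit 8) (.nd (nat_lit 9) 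
(.lf (nat_lit 535692) (.g (nat_lit 2275) (.e (nat_lit 57852) (nat_lit 252) (.e (nat_lit 57378) (nat_lit 3) (.e (nat_lit 98335) (nat_lit 18) (.e (nat_lit 164403) (nat_lit 256) (.e (nat_lit 57588) (nat_lit 73) .nil))))) (.g (nat_lit 0) (.e (nat_lit 258645) (nat_lit 0) .nil) .nil))) 
(.lf (nat_lit 536204) (.g (nat_lit 2673) (.e (nat_lit 57927) (nat_lit 282) (.e (nat_lit 163869) (nat_lit 2) (.e (nat_lit 196668) (nat_lit 14) (.e (nat_lit 73747) (nat_lit 3) (.e (nat_lit 516130) (nat_lit 3) (.e (nat_lit 221215) (nat_lit 23) (.e (nat_lit 204830) (nat_lit 18) .nil))))))) (.g (nat_lit 1) (.e (nat_lit 259869) (nat_lit 0) .nil) .nil)))) (.nd (nat_lit 9) 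
(.lf (nat_lit 535948) (.g (nat_lit 1419) (.e (nat_lit 57878) (nat_lit 270) (.e (nat_lit 496) (nat_lit 39) (.e (nat_lit 483382) (nat_lit 23) (.e (nat_lit 336320) (nat_lit 17) (.e (nat_lit 196698) (nat_lit 19) (.e (nat_lit 57815) (nat_lit 246) .nil)))))) (.g (nat_lit 1) (.e (nat_lit 259091) (nat_lit 0) .nil) .nil))) 
(.lf (nat_lit 536460) (.g (nat_lit 2495) (.e (nat_lit 57929) (nat_lit 282) (.e (nat_lit 163923) (nat_lit 15) (.e (nat_lit 450587) (nat_lit 10) (.e (nat_lit 573475) (nat_lit 12) (.e (nat_lit 57516) (nat_lit 42) .nil))))) (.g (nat_lit 0) (.e (nat_lit 260406) (nat_lit 0) .nil) .nil)))))) (.nd (nat_lit 7) (.nd (nat_lit 8) (.nd (nat_lit 9) 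
(.lf (nat_lit 535628) (.g (nat_lit 1594) (.e (nat_lit 57851) (nat_lit 252) (.e (nat_lit 57389) (nat_lit 5) (.e (nat_lit 114698) (nat_lit 11) (.e (nat_lit 426197) (nat_lit 9) (.e (nat_lit 426555) (nat_lit 32) .nil))))) (.g (nat_lit 0) (.e (nat_lit 258566) (nat_lit 0) .nil) .nil))) 
(.lf (nat_lit 536140) (.g (nat_lit 845) (.e (nat_lit 57926) (nat_lit 282) (.e (nat_lit 163903) (nat_lit 12) (.e (nat_lit 426538) (nat_lit 29) .nil))) (.g (nat_lit 0) (.e (nat_lit 259703) (nat_lit 0) .nil) .nil)))) (.nd (nat_lit 9) 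
(.lf (nat_lit 535884) (.g (nat_lit 4261) (.e (nat_lit 57854) (nat_lit 252) (.e (nat_lit 57409) (nat_lit 12) (.e (nat_lit 336326) (nat_lit 18) (.e (nat_lit 204869) (nat_lit 29) (.e (nat_lit 360451) (nat_lit 0) (.e (nat_lit 7695) (nat_lit 412) (.e (nat_lit 57366) (nat_lit 1) .nil))))))) (.g (nat_lit 1) (.e (nat_lit 258951) (nat_lit 0) .nil) .nil))) 
(.lf (nat_lit 536396) (.g (nat_lit 1514) (.e (nat_lit 57929) (nat_lit 282) (.e (nat_lit 163867) (nat_lit 2) (.e (nat_lit 196668) (nat_lit 14) (.e (nat_lit 73746) (nat_lit 3) .nil)))) (.g (nat_lit 0) (.e (nat_lit 260304) (nat_lit 0) .nil) .nil))))) (.nd (nat_lit 8) (.nd (nat_lit 9) 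
(.lf (nat_lit 535756) (.g (nat_lit 3227) (.e (nat_lit 57854) (nat_lit 252) (.e (nat_lit 57373) (nat_lit 2) (.e (nat_lit 90160) (nat_lit 11) (.e (nat_lit 24623) (nat_lit 9) (.e (nat_lit 336454) (nat_lit 34) (.e (nat_lit 483364) (nat_lit 18) .nil)))))) (.g (nat_lit 1) (.e (nat_lit 258748) (nat_lit 0) .nil) .nil))) 
(.lf (nat_lit 536268) (.g (nat_lit 2026) (.e (nat_lit 57927) (nat_lit 282) (.e (nat_lit 163874) (nat_lit 3) (.e (nat_lit 204882) (nat_lit 32) (.e (nat_lit 392960) (nat_lit 40) .nil)))) (.g (nat_lit 0) (.e (nat_lit 260004) (nat_lit 0) .nil) .nil)))) (.nd (nat_lit 9) 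
(.lf (nat_lit 536012) (.g (nat_lit 718) (.e (nat_lit 57887) (nat_lit 270) (.e (nat_lit 1633) (nat_lit 114) (.e (nat_lit 385074) (nat_lit 31) .nil))) (.g (nat_lit 0) (.e (nat_lit 259295) (nat_lit 0) .nil) .nil))) 
(.lf (nat_lit 536524) (.g (nat_lit 456) (.e (nat_lit 57931) (nat_lit 282) (.e (nat_lit 163867) (nat_lit 2) (.e (nat_lit 196665) (nat_lit 13) .nil))) (.g (nat_lit 0) (.e (nat_lit 260595) (nat_lit 0) .nil) .nil))))))) (.nd (nat_lit 6) (.nd (nat_lit 7) (.nd (nat_lit 8) (.nd (nat_lit 9) 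
(.lf (nat_lit 535596) (.g (nat_lit 2427) (.e (nat_lit 57850) (nat_lit 252) (.e (nat_lit 57406) (nat_lit 12) (.e (nat_lit 336454) (nat_lit 34) (.e (nat_lit 483403) (nat_lit 26) .nil)))) (.g (nat_lit 0) (.e (nat_lit 258521) (nat_lit 0) .nil) .nil))) 
(.lf (nat_lit 536108) (.g (nat_lit 1618) (.e (nat_lit 57926) (nat_lit 282) (.e (nat_lit 163869) (nat_lit 2) (.e (nat_lit 196668) (nat_lit 14) (.e (nat_lit 73747) (nat_lit 3) (.e (nat_lit 516131) (nat_lit 3) .nil))))) (.g (nat_lit 0) (.e (nat_lit 259605) (nat_lit 0) .nil) .nil)))) (.nd (nat_lit 9) 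
(.lf (nat_lit 535852) (.g (nat_lit 3611) (.e (nat_lit 57854) (nat_lit 252) (.e (nat_lit 57409) (nat_lit 12) (.e (nat_lit 336316) (nat_lit 17) (.e (nat_lit 196666) (nat_lit 13) (.e (nat_lit 65610) (nat_lit 10) (.e (nat_lit 344088) (nat_lit 18) (.e (nat_lit 7694) (nat_lit 412) (.e (nat_lit 57368) (nat_lit 1) .nil)))))))) (.g (nat_lit 1) (.e (nat_lit 258919) (nat_lit 0) .nil) .nil))) 
(.lf (nat_lit 536364) (.g (nat_lit 1839) (.e (nat_lit 57927) (nat_lit 282) (.e (nat_lit 163941) (nat_lit 19) (.e (nat_lit 483345) (nat_lit 17) (.e (nat_lit 6712) (nat_lit 360) (.e (nat_lit 163975) (nat_lit 30) .nil))))) (.g (nat_lit 0) (.e (nat_lit 260141) (nat_lit 0) .nil) .nil))))) (.nd (nat_lit 8) (.nd (nat_lit 9) 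
(.lf (nat_lit 535724) (.g (nat_lit 730) (.e (nat_lit 57853) (nat_lit 252) (.e (nat_lit 57406) (nat_lit 12) (.e (nat_lit 336370) (nat_lit 27) .nil))) (.g (nat_lit 0) (.e (nat_lit 258708) (nat_lit 0) .nil) .nil))) 
(.lf (nat_lit 536236) (.g (nat_lit 2562) (.e (nat_lit 57927) (nat_lit 282) (.e (nat_lit 163873) (nat_lit 3) (.e (nat_lit 204861) (nat_lit 26) (.e (nat_lit 336076) (nat_lit 9) (.e (nat_lit 336454) (nat_lit 34) (.e (nat_lit 483362) (nat_lit 18) .nil)))))) (.g (nat_lit 1) (.e (nat_lit 259941) (nat_lit 0) .nil) .nil)))) (.nd (nat_lit 9) 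
(.lf (nat_lit 535980) (.g (nat_lit 2786) (.e (nat_lit 57883) (nat_lit 270) (.e (nat_lit 174) (nat_lit 12) (.e (nat_lit 204861) (nat_lit 26) (.e (nat_lit 336213) (nat_lit 13) (.e (nat_lit 393221) (nat_lit 0) (.e (nat_lit 6207) (nat_lit 333) .nil)))))) (.g (nat_lit 1) (.e (nat_lit 259218) (nat_lit 0) .nil) .nil))) 
(.lf (nat_lit 536492) (.g (nat_lit 1254) (.e (nat_lit 57930) (nat_lit 282) (.e (nat_lit 163869) (nat_lit 2) (.e (nat_lit 196681) (nat_lit 17) (.e (nat_lit 131105) (nat_lit 9) .nil)))) (.g (nat_lit 0) (.e (nat_lit 260515) (nat_lit 0) .nil) .nil)))))) (.nd (nat_lit 7) (.nd (nat_lit 8) (.nd (nat_lit 9) 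
(.lf (nat_lit 535660) (.g (nat_lit 2058) (.e (nat_lit 57851) (nat_lit 252) (.e (nat_lit 57406) (nat_lit 12) (.e (nat_lit 336456) (nat_lit 34) (.e (nat_lit 483383) (nat_lit 23) (.e (nat_lit 336261) (nat_lit 15) (.e (nat_lit 3251) (nat_lit 197) (.e (nat_lit 532501) (nat_lit 1) .nil))))))) (.g (nat_lit 1) (.e (nat_lit 258610) (nat_lit 0) .nil) .nil))) 
(.lf (nat_lit 536172) (.g (nat_lit 1964) (.e (nat_lit 57927) (nat_lit 282) (.e (nat_lit 163868) (nat_lit 2) (.e (nat_lit 196663) (nat_lit 13) (.e (nat_lit 65571) (nat_lit 3) (.e (nat_lit 98338) (nat_lit 19) .nil))))) (.g (nat_lit 0) (.e (nat_lit 259811) (nat_lit 0) .nil) .nil)))) (.nd (nat_lit 9) 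
(.lf (nat_lit 535916) (.g (nat_lit 2110) (.e (nat_lit 57872) (nat_lit 264) (.e (nat_lit 1190) (nat_lit 88) (.e (nat_lit 65630) (nat_lit 14) (.e (nat_lit 401457) (nat_lit 13) (.e (nat_lit 483389) (nat_lit 23) .nil))))) (.g (nat_lit 0) (.e (nat_lit 259014) (nat_lit 0) .nil) .nil))) 
(.lf (nat_lit 536428) (.g (nat_lit 1079) (.e (nat_lit 57929) (nat_lit 282) (.e (nat_lit 163874) (nat_lit 3) (.e (nat_lit 204873) (nat_lit 30) (.e (nat_lit 368676) (nat_lit 21) .nil)))) (.g (nat_lit 0) (.e (nat_lit 260354) (nat_lit 0) .nil) .nil))))) (.nd (nat_lit 8) (.nd (nat_lit 9) 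
(.lf (nat_lit 535788) (.g (nat_lit 243) (.e (nat_lit 57854) (nat_lit 252) (.e (nat_lit 57388) (nat_lit 5) (.e (nat_lit 122624) (nat_lit 12) .nil))) (.g (nat_lit 0) (.e (nat_lit 258800) (nat_lit 0) .nil) .nil))) 
(.lf (nat_lit 536300) (.g (nat_lit 4582) (.e (nat_lit 57927) (nat_lit 282) (.e (nat_lit 163886) (nat_lit 5) (.e (nat_lit 221215) (nat_lit 23) (.e (nat_lit 204813) (nat_lit 9) (.e (nat_lit 426306) (nat_lit 12) (.e (nat_lit 475177) (nat_lit 24) (.e (nat_lit 524032) (nat_lit 18) .nil))))))) (.g (nat_lit 1) (.e (nat_lit 260057) (nat_lit 0) .nil) .nil)))) (.nd (nat_lit 9) 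
(.lf (nat_lit 536044) (.g (nat_lit 1999) (.e (nat_lit 57924) (nat_lit 282) (.e (nat_lit 163871) (nat_lit 2) (.e (nat_lit 196668) (nat_lit 14) (.e (nat_lit 73746) (nat_lit 3) (.e (nat_lit 516129) (nat_lit 3) .nil))))) (.g (nat_lit 0) (.e (nat_lit 259431) (nat_lit 0) .nil) .nil))) 
(.lf (nat_lit 536556) (.g (nat_lit 1890) (.e (nat_lit 57931) (nat_lit 282) (.e (nat_lit 163869) (nat_lit 2) (.e (nat_lit 196668) (nat_lit 14) (.e (nat_lit 73747) (nat_lit 3) (.e (nat_lit 516129) (nat_lit 3) .nil))))) (.g (nat_lit 0) (.e (nat_lit 260655) (nat_lit 0) .nil) .nil)))))))) (.nd (nat_lit 5) (.nd (nat_lit 6) (.nd (nat_lit 7) (.nd (nat_lit 8) (.nd (nat_lit 9) 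
(.lf (nat_lit 535580) (.g (nat_lit 1839) (.e (nat_lit 57849) (nat_lit 252) (.e (nat_lit 57407) (nat_lit 12) (.e (nat_lit 336454) (nat_lit 34) (.e (nat_lit 483378) (nat_lit 23) .nil)))) (.g (nat_lit 0) (.e (nat_lit 258505) (nat_lit 0) .nil) .nil))) 
(.lf (nat_lit 536092) (.g (nat_lit 598) (.e (nat_lit 57926) (nat_lit 282) (.e (nat_lit 163868) (nat_lit 2) (.e (nat_lit 196663) (nat_lit 13) .nil))) (.g (nat_lit 0) (.e (nat_lit 259575) (nat_lit 0) .nil) .nil)))) (.nd (nat_lit 9) 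
(.lf (nat_lit 535836) (.g (nat_lit 2606) (.e (nat_lit 57854) (nat_lit 252) (.e (nat_lit 57406) (nat_lit 12) (.e (nat_lit 336456) (nat_lit 34) (.e (nat_lit 483346) (nat_lit 17) (.e (nat_lit 6434) (nat_lit 343) .nil))))) (.g (nat_lit 0) (.e (nat_lit 258903) (nat_lit 0) .nil) .nil))) 
(.lf (nat_lit 536348) (.g (nat_lit 1236) (.e (nat_lit 57927) (nat_lit 282) (.e (nat_lit 163933) (nat_lit 17) (.e (nat_lit 466977) (nat_lit 22) (.e (nat_lit 196654) (nat_lit 11) .nil)))) (.g (nat_lit 0) (.e (nat_lit 260125) (nat_lit 0) .nil) .nil))))) (.nd (nat_lit 8) (.nd (nat_lit 9) 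
(.lf (nat_lit 535708) (.g (nat_lit 2911) (.e (nat_lit 57852) (nat_lit 252) (.e (nat_lit 57406) (nat_lit 12) (.e (nat_lit 336456) (nat_lit 34) (.e (nat_lit 483346) (nat_lit 17) (.e (nat_lit 6445) (nat_lit 343) .nil))))) (.g (nat_lit 0) (.e (nat_lit 258682) (nat_lit 0) .nil) .nil))) 
(.lf (nat_lit 536220) (.g (nat_lit 2311) (.e (nat_lit 57927) (nat_lit 282) (.e (nat_lit 163871) (nat_lit 2) (.e (nat_lit 196663) (nat_lit 13) (.e (nat_lit 65571) (nat_lit 3) (.e (nat_lit 98341) (nat_lit 20) .nil))))) (.g (nat_lit 0) (.e (nat_lit 259903) (nat_lit 0) .nil) .nil)))) (.nd (nat_lit 9) 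
(.lf (nat_lit 535964) (.g (nat_lit 3400) (.e (nat_lit 57881) (nat_lit 270) (.e (nat_lit 162) (nat_lit 11) (.e (nat_lit 196670) (nat_lit 14) (.e (nat_lit 73753) (nat_lit 8) (.e (nat_lit 557105) (nat_lit 14) (.e (nat_lit 180252) (nat_lit 10) (.e (nat_lit 581376) (nat_lit 19) .nil))))))) (.g (nat_lit 1) (.e (nat_lit 259145) (nat_lit 0) .nil) .nil))) 
(.lf (nat_lit 536476) (.g (nat_lit 1391) (.e (nat_lit 57930) (nat_lit 282) (.e (nat_lit 163867) (nat_lit 2) (.e (nat_lit 196668) (nat_lit 14) (.e (nat_lit 73746) (nat_lit 3) .nil)))) (.g (nat_lit 0) (.e (nat_lit 260488) (nat_lit 0) .nil) .nil)))))) (.nd (nat_lit 7) (.nd (nat_lit 8) (.nd (nat_lit 9) 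
(.lf (nat_lit 535644) (.g (nat_lit 1090) (.e (nat_lit 57851) (nat_lit 252) (.e (nat_lit 57406) (nat_lit 12) (.e (nat_lit 336454) (nat_lit 34) (.e (nat_lit 483405) (nat_lit 26) .nil)))) (.g (nat_lit 0) (.e (nat_lit 258594) (nat_lit 0) .nil) .nil))) 
(.lf (nat_lit 536156) (.g (nat_lit 2921) (.e (nat_lit 57927) (nat_lit 282) (.e (nat_lit 163866) (nat_lit 2) (.e (nat_lit 196666) (nat_lit 13) (.e (nat_lit 65571) (nat_lit 3) (.e (nat_lit 98341) (nat_lit 20) (.e (nat_lit 221215) (nat_lit 23) (.e (nat_lit 204830) (nat_lit 18) .nil))))))) (.g (nat_lit 1) (.e (nat_lit 259783) (nat_lit 0) .nil) .nil)))) (.nd (nat_lit 9) 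
(.lf (nat_lit 535900) (.g (nat_lit 2426) (.e (nat_lit 57854) (nat_lit 252) (.e (nat_lit 57447) (nat_lit 19) (.e (nat_lit 393229) (nat_lit 9) (.e (nat_lit 336086) (nat_lit 9) (.e (nat_lit 336270) (nat_lit 15) (.e (nat_lit 3253) (nat_lit 197) (.e (nat_lit 532501) (nat_lit 1) .nil))))))) (.g (nat_lit 1) (.e (nat_lit 258968) (nat_lit 0) .nil) .nil))) 
(.lf (nat_lit 536412) (.g (nat_lit 345) (.e (nat_lit 57929) (nat_lit 282) (.e (nat_lit 163873) (nat_lit 3) (.e (nat_lit 204861) (nat_lit 26) .nil))) (.g (nat_lit 0) (.e (nat_lit 260336) (nat_lit 0) .nil) .nil))))) (.nd (nat_lit 8) (.nd (nat_lit 9) 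
(.lf (nat_lit 535772) (.g (nat_lit 2355) (.e (nat_lit 57854) (nat_lit 252) (.e (nat_lit 57378) (nat_lit 3) (.e (nat_lit 98334) (nat_lit 18) (.e (nat_lit 164399) (nat_lit 256) (.e (nat_lit 57588) (nat_lit 73) .nil))))) (.g (nat_lit 0) (.e (nat_lit 258772) (nat_lit 0) .nil) .nil))) 
(.lf (nat_lit 536284) (.g (nat_lit 2717) (.e (nat_lit 57927) (nat_lit 282) (.e (nat_lit 163875) (nat_lit 3) (.e (nat_lit 204863) (nat_lit 27) (.e (nat_lit 344117) (nat_lit 21) (.e (nat_lit 516123) (nat_lit 2) (.e (nat_lit 213013) (nat_lit 9) (.e (nat_lit 2684) (nat_lit 168) (.e (nat_lit 204829) (nat_lit 18) .nil)))))))) (.g (nat_lit 1) (.e (nat_lit 260024) (nat_lit 0) .nil) .nil)))) 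
(.nd (nat_lit 9) 
(.lf (nat_lit 536028) (.g (nat_lit 3240) (.e (nat_lit 57924) (nat_lit 282) (.e (nat_lit 163867) (nat_lit 2) (.e (nat_lit 196668) (nat_lit 14) (.e (nat_lit 73747) (nat_lit 3) (.e (nat_lit 516131) (nat_lit 3) (.e (nat_lit 221215) (nat_lit 23) (.e (nat_lit 204828) (nat_lit 18) .nil))))))) (.g (nat_lit 1) (.e (nat_lit 259404) (nat_lit 0) .nil) .nil))) 
(.lf (nat_lit 536540) (.g (nat_lit 557) (.e (nat_lit 57931) (nat_lit 282) (.e (nat_lit 163867) (nat_lit 2) (.e (nat_lit 196682) (nat_lit 17) .nil))) (.g (nat_lit 0) (.e (nat_lit 260627) (nat_lit 0) .nil) .nil))))))) (.nd (nat_lit 6) (.nd (nat_lit 7) (.nd (nat_lit 8) (.nd (nat_lit 9) 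
(.lf (nat_lit 535612) (.g (nat_lit 2701) (.e (nat_lit 57851) (nat_lit 252) (.e (nat_lit 57373) (nat_lit 2) (.e (nat_lit 90158) (nat_lit 11) (.e (nat_lit 24630) (nat_lit 9) (.e (nat_lit 336456) (nat_lit 34) .nil))))) (.g (nat_lit 0) (.e (nat_lit 258539) (nat_lit 0) .nil) .nil))) 
(.lf (nat_lit 536124) (.g (nat_lit 2332) (.e (nat_lit 57926) (nat_lit 282) (.e (nat_lit 163874) (nat_lit 3) (.e (nat_lit 204862) (nat_lit 27) (.e (nat_lit 344117) (nat_lit 21) (.e (nat_lit 516122) (nat_lit 2) .nil))))) (.g (nat_lit 0) (.e (nat_lit 259638) (nat_lit 0) .nil) .nil)))) (.nd (nat_lit 9) 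
(.lf (nat_lit 535868) (.g (nat_lit 2702) (.e (nat_lit 57854) (nat_lit 252) (.e (nat_lit 57409) (nat_lit 12) (.e (nat_lit 336316) (nat_lit 17) (.e (nat_lit 196666) (nat_lit 13) (.e (nat_lit 65617) (nat_lit 10) (.e (nat_lit 344088) (nat_lit 18) (.e (nat_lit 7697) (nat_lit 412) (.e (nat_lit 57366) (nat_lit 1) .nil)))))))) (.g (nat_lit 1) (.e (nat_lit 258935) (nat_lit 0) .nil) .nil))) 
(.lf (nat_lit 536380) (.g (nat_lit 2164) (.e (nat_lit 57928) (nat_lit 282) (.e (nat_lit 163868) (nat_lit 2) (.e (nat_lit 196668) (nat_lit 14) (.e (nat_lit 73747) (nat_lit 3) (.e (nat_lit 516124) (nat_lit 2) .nil))))) (.g (nat_lit 0) (.e (nat_lit 260243) (nat_lit 0) .nil) .nil))))) (.nd (nat_lit 8) (.nd (nat_lit 9) 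
(.lf (nat_lit 535740) (.g (nat_lit 889) (.e (nat_lit 57854) (nat_lit 252) (.e (nat_lit 57366) (nat_lit 1) (.e (nat_lit 57854) (nat_lit 252) (.e (nat_lit 57389) (nat_lit 5) (.e (nat_lit 114723) (nat_lit 24) .nil))))) (.g (nat_lit 0) (.e (nat_lit 258726) (nat_lit 0) .nil) .nil))) 
(.lf (nat_lit 536252) (.g (nat_lit 3179) (.e (nat_lit 57927) (nat_lit 282) (.e (nat_lit 163874) (nat_lit 3) (.e (nat_lit 204862) (nat_lit 27) (.e (nat_lit 344117) (nat_lit 21) (.e (nat_lit 516122) (nat_lit 2) (.e (nat_lit 213036) (nat_lit 13) (.e (nat_lit 229433) (nat_lit 25) (.e (nat_lit 532501) (nat_lit 1) .nil)))))))) (.g (nat_lit 1) (.e (nat_lit 259974) (nat_lit 0) .nil) .nil)))) 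
(.nd (nat_lit 9) 
(.lf (nat_lit 535996) (.g (nat_lit 2169) (.e (nat_lit 57883) (nat_lit 270) (.e (nat_lit 496) (nat_lit 39) (.e (nat_lit 483380) (nat_lit 23) (.e (nat_lit 336320) (nat_lit 17) (.e (nat_lit 196698) (nat_lit 19) (.e (nat_lit 57809) (nat_lit 246) .nil)))))) (.g (nat_lit 1) (.e (nat_lit 259263) (nat_lit 0) .nil) .nil))) 
(.lf (nat_lit 536508) (.g (nat_lit 2983) (.e (nat_lit 57930) (nat_lit 282) (.e (nat_lit 163923) (nat_lit 15) (.e (nat_lit 450587) (nat_lit 10) (.e (nat_lit 573477) (nat_lit 12) (.e (nat_lit 57361) (nat_lit 0) (.e (nat_lit 5934) (nat_lit 322) (.e (nat_lit 57389) (nat_lit 5) (.e (nat_lit 114712) (nat_lit 21) .nil)))))))) (.g (nat_lit 1) (.e (nat_lit 260555) (nat_lit 0) .nil) .nil)))))) 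
(.nd (nat_lit 7) (.nd (nat_lit 8) (.nd (nat_lit 9) 
(.lf (nat_lit 535676) (.g (nat_lit 2042) (.e (nat_lit 57852) (nat_lit 252) (.e (nat_lit 57371) (nat_lit 2) (.e (nat_lit 90160) (nat_lit 11) (.e (nat_lit 24580) (nat_lit 0) .nil)))) (.g (nat_lit 0) (.e (nat_lit 258627) (nat_lit 0) .nil) .nil))) 
(.lf (nat_lit 536188) (.g (nat_lit 982) (.e (nat_lit 57927) (nat_lit 282) (.e (nat_lit 163868) (nat_lit 2) (.e (nat_lit 196670) (nat_lit 14) (.e (nat_lit 73746) (nat_lit 3) .nil)))) (.g (nat_lit 0) (.e (nat_lit 259837) (nat_lit 0) .nil) .nil)))) (.nd (nat_lit 9) 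
(.lf (nat_lit 535932) (.g (nat_lit 3204) (.e (nat_lit 57873) (nat_lit 264) (.e (nat_lit 1209) (nat_lit 89) (.e (nat_lit 73781) (nat_lit 32) (.e (nat_lit 3090) (nat_lit 191) (.e (nat_lit 483380) (nat_lit 23) (.e (nat_lit 343808) (nat_lit 1) .nil)))))) (.g (nat_lit 1) (.e (nat_lit 259038) (nat_lit 0) .nil) .nil))) 
(.lf (nat_lit 536444) (.g (nat_lit 912) (.e (nat_lit 57929) (nat_lit 282) (.e (nat_lit 163920) (nat_lit 14) (.e (nat_lit 442424) (nat_lit 22) .nil))) (.g (nat_lit 0) (.e (nat_lit 260383) (nat_lit 0) .nil) .nil))))) (.nd (nat_lit 8) (.nd (nat_lit 9) 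
(.lf (nat_lit 535804) (.g (nat_lit 1733) (.e (nat_lit 57854) (nat_lit 252) (.e (nat_lit 57389) (nat_lit 5) (.e (nat_lit 114710) (nat_lit 21) (.e (nat_lit 57847) (nat_lit 252) (.e (nat_lit 65280) (nat_lit 66) .nil))))) (.g (nat_lit 0) (.e (nat_lit 258863) (nat_lit 0) .nil) .nil))) 
(.lf (nat_lit 536316) (.g (nat_lit 2950) (.e (nat_lit 57927) (nat_lit 282) (.e (nat_lit 163903) (nat_lit 12) (.e (nat_lit 426555) (nat_lit 32) (.e (nat_lit 376865) (nat_lit 22) (.e (nat_lit 90158) (nat_lit 11) (.e (nat_lit 24598) (nat_lit 1) .nil)))))) (.g (nat_lit 1) (.e (nat_lit 260080) (nat_lit 0) .nil) .nil)))) (.nd (nat_lit 9) 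
(.lf (nat_lit 536060) (.g (nat_lit 2411) (.e (nat_lit 57924) (nat_lit 282) (.e (nat_lit 163923) (nat_lit 15) (.e (nat_lit 450587) (nat_lit 10) (.e (nat_lit 573478) (nat_lit 12) (.e (nat_lit 57360) (nat_lit 0) .nil))))) (.g (nat_lit 0) (.e (nat_lit 259464) (nat_lit 0) .nil) .nil))) 
(.lf (nat_lit 536572) (.g (nat_lit 1859) (.e (nat_lit 57931) (nat_lit 282) (.e (nat_lit 163873) (nat_lit 3) (.e (nat_lit 204873) (nat_lit 30) (.e (nat_lit 368676) (nat_lit 21) (.e (nat_lit 516131) (nat_lit 3) .nil))))) (.g (nat_lit 0) (.e (nat_lit 260693) (nat_lit 0) .nil) .nil))))))))))) 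
(.nd (nat_lit 2) (.nd (nat_lit 3) (.nd (nat_lit 4) (.nd (nat_lit 5) (.nd (nat_lit 6) 
(.nd (nat_lit 7) (.nd (nat_lit 8) (.nd (nat_lit 9) 
(.lf (nat_lit 535554) (.g (nat_lit 1916) (.e (nat_lit 57849) (nat_lit 252) (.e (nat_lit 57375) (nat_lit 2) (.e (nat_lit 90160) (nat_lit 11) (.e (nat_lit 24604) (nat_lit 2) .nil)))) (.g (nat_lit 0) (.e (nat_lit 258453) (nat_lit 0) .nil) .nil))) 
(.lf (nat_lit 536066) (.g (nat_lit 1721) (.e (nat_lit 57925) (nat_lit 282) (.e (nat_lit 163868) (nat_lit 2) (.e (nat_lit 196668) (nat_lit 14) (.e (nat_lit 73746) (nat_lit 3) .nil)))) (.g (nat_lit 0) (.e (nat_lit 259507) (nat_lit 0) .nil) .nil)))) (.nd (nat_lit 9) 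
(.lf (nat_lit 535810) (.g (nat_lit 3455) (.e (nat_lit 57854) (nat_lit 252) (.e (nat_lit 57406) (nat_lit 12) (.e (nat_lit 336316) (nat_lit 17) (.e (nat_lit 196666) (nat_lit 13) (.e (nat_lit 65610) (nat_lit 10) (.e (nat_lit 344088) (nat_lit 18) (.e (nat_lit 7694) (nat_lit 412) (.e (nat_lit 57368) (nat_lit 1) .nil)))))))) (.g (nat_lit 1) (.e (nat_lit 258877) (nat_lit 0) .nil) .nil))) 
(.lf (nat_lit 536322) (.g (nat_lit 2500) (.e (nat_lit 57927) (nat_lit 282) (.e (nat_lit 163906) (nat_lit 12) (.e (nat_lit 426555) (nat_lit 32) (.e (nat_lit 376862) (nat_lit 22) (.e (nat_lit 90158) (nat_lit 11) (.e (nat_lit 24597) (nat_lit 1) .nil)))))) (.g (nat_lit 1) (.e (nat_lit 260087) (nat_lit 0) .nil) .nil))))) (.nd (nat_lit 8) (.nd (nat_lit 9) 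
(.lf (nat_lit 535682) (.g (nat_lit 3431) (.e (nat_lit 57852) (nat_lit 252) (.e (nat_lit 57373) (nat_lit 2) (.e (nat_lit 90158) (nat_lit 11) (.e (nat_lit 24608) (nat_lit 3) (.e (nat_lit 98340) (nat_lit 20) (.e (nat_lit 221213) (nat_lit 23) (.e (nat_lit 204830) (nat_lit 18) .nil))))))) (.g (nat_lit 1) (.e (nat_lit 258633) (nat_lit 0) .nil) .nil))) 
(.lf (nat_lit 536194) (.g (nat_lit 587) (.e (nat_lit 57927) (nat_lit 282) (.e (nat_lit 163869) (nat_lit 2) (.e (nat_lit 196663) (nat_lit 13) .nil))) (.g (nat_lit 0) (.e (nat_lit 259848) (nat_lit 0) .nil) .nil)))) (.nd (nat_lit 9) 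
(.lf (nat_lit 535938) (.g (nat_lit 2501) (.e (nat_lit 57878) (nat_lit 270) (.e (nat_lit 371) (nat_lit 32) (.e (nat_lit 426542) (nat_lit 29) (.e (nat_lit 352315) (nat_lit 23) (.e (nat_lit 98309) (nat_lit 0) (.e (nat_lit 6209) (nat_lit 333) .nil)))))) (.g (nat_lit 1) (.e (nat_lit 259074) (nat_lit 0) .nil) .nil))) 
(.lf (nat_lit 536450) (.g (nat_lit 1774) (.e (nat_lit 57929) (nat_lit 282) (.e (nat_lit 163920) (nat_lit 14) (.e (nat_lit 442427) (nat_lit 23) (.e (nat_lit 204810) (nat_lit 9) .nil)))) (.g (nat_lit 0) (.e (nat_lit 260390) (nat_lit 0) .nil) .nil)))))) (.nd (nat_lit 7) (.nd (nat_lit 8) (.nd (nat_lit 9) 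
(.lf (nat_lit 535618) (.g (nat_lit 4286) (.e (nat_lit 57851) (nat_lit 252) (.e (nat_lit 57377) (nat_lit 3) (.e (nat_lit 98317) (nat_lit 9) (.e (nat_lit 336027) (nat_lit 3) (.e (nat_lit 98337) (nat_lit 19) .nil))))) (.g (nat_lit 0) (.e (nat_lit 258545) (nat_lit 0) .nil) .nil))) 
(.lf (nat_lit 536130) (.g (nat_lit 1564) (.e (nat_lit 57926) (nat_lit 282) (.e (nat_lit 163875) (nat_lit 3) (.e (nat_lit 204850) (nat_lit 26) (.e (nat_lit 336028) (nat_lit 3) (.e (nat_lit 98325) (nat_lit 17) .nil))))) (.g (nat_lit 0) (.e (nat_lit 259668) (nat_lit 0) .nil) .nil)))) (.nd (nat_lit 9) 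
(.lf (nat_lit 535874) (.g (nat_lit 3578) (.e (nat_lit 57854) (nat_lit 252) (.e (nat_lit 57409) (nat_lit 12) (.e (nat_lit 336316) (nat_lit 17) (.e (nat_lit 196666) (nat_lit 13) (.e (nat_lit 65617) (nat_lit 10) (.e (nat_lit 344096) (nat_lit 18) (.e (nat_lit 7695) (nat_lit 412) (.e (nat_lit 57364) (nat_lit 1) .nil)))))))) (.g (nat_lit 1) (.e (nat_lit 258941) (nat_lit 0) .nil) .nil))) 
(.lf (nat_lit 536386) (.g (nat_lit 1941) (.e (nat_lit 57928) (nat_lit 282) (.e (nat_lit 163871) (nat_lit 2) (.e (nat_lit 196668) (nat_lit 14) (.e (nat_lit 73746) (nat_lit 3) (.e (nat_lit 516131) (nat_lit 3) .nil))))) (.g (nat_lit 0) (.e (nat_lit 260265) (nat_lit 0) .nil) .nil))))) (.nd (nat_lit 8) (.nd (nat_lit 9) 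
(.lf (nat_lit 535746) (.g (nat_lit 1940) (.e (nat_lit 57854) (nat_lit 252) (.e (nat_lit 57371) (nat_lit 2) (.e (nat_lit 90160) (nat_lit 11) (.e (nat_lit 24628) (nat_lit 9) (.e (nat_lit 336374) (nat_lit 27) .nil))))) (.g (nat_lit 0) (.e (nat_lit 258733) (nat_lit 0) .nil) .nil))) 
(.lf (nat_lit 536258) (.g (nat_lit 2753) (.e (nat_lit 57927) (nat_lit 282) (.e (nat_lit 163874) (nat_lit 3) (.e (nat_lit 204863) (nat_lit 27) (.e (nat_lit 344117) (nat_lit 21) (.e (nat_lit 516123) (nat_lit 2) (.e (nat_lit 213033) (nat_lit 12) (.e (nat_lit 163962) (nat_lit 25) (.e (nat_lit 532500) (nat_lit 1) .nil)))))))) (.g (nat_lit 1) (.e (nat_lit 259980) (nat_lit 0) .nil) .nil)))) 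
(.nd (nat_lit 9) 
(.lf (nat_lit 536002) (.g (nat_lit 2205) (.e (nat_lit 57883) (nat_lit 270) (.e (nat_lit 496) (nat_lit 39) (.e (nat_lit 483383) (nat_lit 23) (.e (nat_lit 336316) (nat_lit 17) (.e (nat_lit 204544) (nat_lit 19) (.e (nat_lit 57811) (nat_lit 246) .nil)))))) (.g (nat_lit 1) (.e (nat_lit 259270) (nat_lit 0) .nil) .nil))) 
(.lf (nat_lit 536514) (.g (nat_lit 2953) (.e (nat_lit 57931) (nat_lit 282) (.e (nat_lit 163866) (nat_lit 2) (.e (nat_lit 196666) (nat_lit 13) (.e (nat_lit 65625) (nat_lit 13) (.e (nat_lit 393229) (nat_lit 9) (.e (nat_lit 335995) (nat_lit 1) .nil)))))) (.g (nat_lit 1) (.e (nat_lit 260578) (nat_lit 0) .nil) .nil))))))) (.nd (nat_lit 6) (.nd (nat_lit 7) (.nd (nat_lit 8) (.nd (nat_lit 9) 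
(.lf (nat_lit 535586) (.g (nat_lit 1537) (.e (nat_lit 57849) (nat_lit 252) (.e (nat_lit 57407) (nat_lit 12) (.e (nat_lit 336456) (nat_lit 34) (.e (nat_lit 483378) (nat_lit 23) (.e (nat_lit 343808) (nat_lit 18) .nil))))) (.g (nat_lit 0) (.e (nat_lit 258511) (nat_lit 0) .nil) .nil))) 
(.lf (nat_lit 536098) (.g (nat_lit 3597) (.e (nat_lit 57926) (nat_lit 282) (.e (nat_lit 163868) (nat_lit 2) (.e (nat_lit 196668) (nat_lit 14) (.e (nat_lit 73747) (nat_lit 3) (.e (nat_lit 516131) (nat_lit 3) (.e (nat_lit 221215) (nat_lit 23) (.e (nat_lit 204828) (nat_lit 18) .nil))))))) (.g (nat_lit 1) (.e (nat_lit 259585) (nat_lit 0) .nil) .nil)))) (.nd (nat_lit 9) 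
(.lf (nat_lit 535842) (.g (nat_lit 1703) (.e (nat_lit 57854) (nat_lit 252) (.e (nat_lit 57406) (nat_lit 12) (.e (nat_lit 336456) (nat_lit 34) (.e (nat_lit 483378) (nat_lit 23) (.e (nat_lit 336282) (nat_lit 15) .nil))))) (.g (nat_lit 0) (.e (nat_lit 258909) (nat_lit 0) .nil) .nil))) 
(.lf (nat_lit 536354) (.g (nat_lit 2944) (.e (nat_lit 57927) (nat_lit 282) (.e (nat_lit 163933) (nat_lit 17) (.e (nat_lit 466977) (nat_lit 22) (.e (nat_lit 196656) (nat_lit 11) (.e (nat_lit 16405) (nat_lit 1) (.e (nat_lit 164325) (nat_lit 230) (.e (nat_lit 171776) (nat_lit 62) .nil))))))) (.g (nat_lit 1) (.e (nat_lit 260131) (nat_lit 0) .nil) .nil))))) (.nd (nat_lit 8) (.nd (nat_lit 9) 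
(.lf (nat_lit 535714) (.g (nat_lit 1853) (.e (nat_lit 57852) (nat_lit 252) (.e (nat_lit 57409) (nat_lit 12) (.e (nat_lit 336454) (nat_lit 34) (.e (nat_lit 483385) (nat_lit 23) (.e (nat_lit 336270) (nat_lit 15) .nil))))) (.g (nat_lit 0) (.e (nat_lit 258688) (nat_lit 0) .nil) .nil))) 
(.lf (nat_lit 536226) (.g (nat_lit 3366) (.e (nat_lit 57927) (nat_lit 282) (.e (nat_lit 163871) (nat_lit 2) (.e (nat_lit 196668) (nat_lit 14) (.e (nat_lit 73747) (nat_lit 3) (.e (nat_lit 516131) (nat_lit 3) (.e (nat_lit 221215) (nat_lit 23) (.e (nat_lit 204828) (nat_lit 18) .nil))))))) (.g (nat_lit 1) (.e (nat_lit 259919) (nat_lit 0) .nil) .nil)))) (.nd (nat_lit 9) 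
(.lf (nat_lit 535970) (.g (nat_lit 2629) (.e (nat_lit 57881) (nat_lit 270) (.e (nat_lit 174) (nat_lit 12) (.e (nat_lit 204877) (nat_lit 31) (.e (nat_lit 376842) (nat_lit 11) (.e (nat_lit 426408) (nat_lit 15) (.e (nat_lit 6217) (nat_lit 333) .nil)))))) (.g (nat_lit 1) (.e (nat_lit 259163) (nat_lit 0) .nil) .nil))) 
(.lf (nat_lit 536482) (.g (nat_lit 520) (.e (nat_lit 57930) (nat_lit 282) (.e (nat_lit 163867) (nat_lit 2) (.e (nat_lit 196671) (nat_lit 15) .nil))) (.g (nat_lit 0) (.e (nat_lit 260498) (nat_lit 0) .nil) .nil)))))) (.nd (nat_lit 7) (.nd (nat_lit 8) (.nd (nat_lit 9) 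
(.lf (nat_lit 535650) (.g (nat_lit 1115) (.e (nat_lit 57851) (nat_lit 252) (.e (nat_lit 57406) (nat_lit 12) (.e (nat_lit 336456) (nat_lit 34) (.e (nat_lit 483379) (nat_lit 23) .nil)))) (.g (nat_lit 0) (.e (nat_lit 258600) (nat_lit 0) .nil) .nil))) 
(.lf (nat_lit 536162) (.g (nat_lit 2671) (.e (nat_lit 57927) (nat_lit 282) (.e (nat_lit 163866) (nat_lit 2) (.e (nat_lit 196681) (nat_lit 17) (.e (nat_lit 131109) (nat_lit 9) (.e (nat_lit 336456) (nat_lit 34) (.e (nat_lit 483364) (nat_lit 18) .nil)))))) (.g (nat_lit 1) (.e (nat_lit 259797) (nat_lit 0) .nil) .nil)))) (.nd (nat_lit 9) 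
(.lf (nat_lit 535906) (.g (nat_lit 3561) (.e (nat_lit 57870) (nat_lit 264) (.e (nat_lit 1209) (nat_lit 89) (.e (nat_lit 73782) (nat_lit 32) (.e (nat_lit 2856) (nat_lit 184) (.e (nat_lit 426542) (nat_lit 29) (.e (nat_lit 352307) (nat_lit 21) .nil)))))) (.g (nat_lit 1) (.e (nat_lit 258999) (nat_lit 0) .nil) .nil))) 
(.lf (nat_lit 536418) (.g (nat_lit 2533) (.e (nat_lit 57929) (nat_lit 282) (.e (nat_lit 163874) (nat_lit 3) (.e (nat_lit 204862) (nat_lit 27) (.e (nat_lit 344117) (nat_lit 21) (.e (nat_lit 516122) (nat_lit 2) .nil))))) (.g (nat_lit 0) (.e (nat_lit 260342) (nat_lit 0) .nil) .nil))))) (.nd (nat_lit 8) (.nd (nat_lit 9) 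
(.lf (nat_lit 535778) (.g (nat_lit 2553) (.e (nat_lit 57854) (nat_lit 252) (.e (nat_lit 57378) (nat_lit 3) (.e (nat_lit 98335) (nat_lit 18) (.e (nat_lit 164402) (nat_lit 256) (.e (nat_lit 57588) (nat_lit 73) .nil))))) (.g (nat_lit 0) (.e (nat_lit 258778) (nat_lit 0) .nil) .nil))) 
(.lf (nat_lit 536290) (.g (nat_lit 1869) (.e (nat_lit 57927) (nat_lit 282) (.e (nat_lit 163875) (nat_lit 3) (.e (nat_lit 204876) (nat_lit 31) (.e (nat_lit 376842) (nat_lit 11) (.e (nat_lit 426500) (nat_lit 27) (.e (nat_lit 343808) (nat_lit 1) .nil)))))) (.g (nat_lit 1) (.e (nat_lit 260043) (nat_lit 0) .nil) .nil)))) (.nd (nat_lit 9) 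
(.lf (nat_lit 536034) (.g (nat_lit 2178) (.e (nat_lit 57924) (nat_lit 282) (.e (nat_lit 163868) (nat_lit 2) (.e (nat_lit 196668) (nat_lit 14) (.e (nat_lit 73746) (nat_lit 3) (.e (nat_lit 516131) (nat_lit 3) .nil))))) (.g (nat_lit 0) (.e (nat_lit 259415) (nat_lit 0) .nil) .nil))) 
(.lf (nat_lit 536546) (.g (nat_lit 3795) (.e (nat_lit 57931) (nat_lit 282) (.e (nat_lit 163869) (nat_lit 2) (.e (nat_lit 196664) (nat_lit 13) (.e (nat_lit 65571) (nat_lit 3) (.e (nat_lit 98341) (nat_lit 20) (.e (nat_lit 221204) (nat_lit 20) (.e (nat_lit 3253) (nat_lit 197) (.e (nat_lit 532503) (nat_lit 1) .nil)))))))) (.g (nat_lit 1) (.e (nat_lit 260633) (nat_lit 0) .nil) .nil)))))))) 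
(.nd (nat_lit 5) (.nd (nat_lit 6) (.nd (nat_lit 7) (.nd (nat_lit 8) (.nd (nat_lit 9) 
(.lf (nat_lit 535570) (.g (nat_lit 2562) (.e (nat_lit 57849) (nat_lit 252) (.e (nat_lit 57379) (nat_lit 3) (.e (nat_lit 98334) (nat_lit 18) (.e (nat_lit 164402) (nat_lit 256) (.e (nat_lit 57588) (nat_lit 73) .nil))))) (.g (nat_lit 0) (.e (nat_lit 258474) (nat_lit 0) .nil) .nil))) 
(.lf (nat_lit 536082) (.g (nat_lit 1962) (.e (nat_lit 57925) (nat_lit 282) (.e (nat_lit 163875) (nat_lit 3) (.e (nat_lit 204862) (nat_lit 27) (.e (nat_lit 344117) (nat_lit 21) (.e (nat_lit 516123) (nat_lit 2) .nil))))) (.g (nat_lit 0) (.e (nat_lit 259546) (nat_lit 0) .nil) .nil)))) (.nd (nat_lit 9) 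
(.lf (nat_lit 535826) (.g (nat_lit 3265) (.e (nat_lit 57854) (nat_lit 252) (.e (nat_lit 57406) (nat_lit 12) (.e (nat_lit 336316) (nat_lit 17) (.e (nat_lit 196666) (nat_lit 13) (.e (nat_lit 65617) (nat_lit 10) (.e (nat_lit 344091) (nat_lit 18) (.e (nat_lit 7695) (nat_lit 412) (.e (nat_lit 57364) (nat_lit 1) .nil)))))))) (.g (nat_lit 1) (.e (nat_lit 258893) (nat_lit 0) .nil) .nil))) 
(.lf (nat_lit 536338) (.g (nat_lit 1816) (.e (nat_lit 57927) (nat_lit 282) (.e (nat_lit 163933) (nat_lit 17) (.e (nat_lit 466971) (nat_lit 21) (.e (nat_lit 164401) (nat_lit 256) (.e (nat_lit 57442) (nat_lit 18) .nil))))) (.g (nat_lit 0) (.e (nat_lit 260115) (nat_lit 0) .nil) .nil))))) (.nd (nat_lit 8) (.nd (nat_lit 9) 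
(.lf (nat_lit 535698) (.g (nat_lit 4165) (.e (nat_lit 57852) (nat_lit 252) (.e (nat_lit 57406) (nat_lit 12) (.e (nat_lit 336316) (nat_lit 17) (.e (nat_lit 196666) (nat_lit 13) (.e (nat_lit 65610) (nat_lit 10) (.e (nat_lit 344090) (nat_lit 18) (.e (nat_lit 7697) (nat_lit 412) (.e (nat_lit 57366) (nat_lit 1) .nil)))))))) (.g (nat_lit 1) (.e (nat_lit 258672) (nat_lit 0) .nil) .nil))) 
(.lf (nat_lit 536210) (.g (nat_lit 2119) (.e (nat_lit 57927) (nat_lit 282) (.e (nat_lit 163869) (nat_lit 2) (.e (nat_lit 196670) (nat_lit 14) (.e (nat_lit 73746) (nat_lit 3) (.e (nat_lit 516127) (nat_lit 2) .nil))))) (.g (nat_lit 0) (.e (nat_lit 259877) (nat_lit 0) .nil) .nil)))) (.nd (nat_lit 9) 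
(.lf (nat_lit 535954) (.g (nat_lit 2452) (.e (nat_lit 57879) (nat_lit 270) (.e (nat_lit 371) (nat_lit 32) (.e (nat_lit 426542) (nat_lit 29) (.e (nat_lit 352313) (nat_lit 23) (.e (nat_lit 98309) (nat_lit 0) (.e (nat_lit 6207) (nat_lit 333) .nil)))))) (.g (nat_lit 1) (.e (nat_lit 259112) (nat_lit 0) .nil) .nil))) 
(.lf (nat_lit 536466) (.g (nat_lit 2400) (.e (nat_lit 57929) (nat_lit 282) (.e (nat_lit 163923) (nat_lit 15) (.e (nat_lit 450587) (nat_lit 10) (.e (nat_lit 573478) (nat_lit 12) (.e (nat_lit 57360) (nat_lit 0) (.e (nat_lit 5947) (nat_lit 322) (.e (nat_lit 57389) (nat_lit 5) (.e (nat_lit 114712) (nat_lit 21) .nil)))))))) (.g (nat_lit 1) (.e (nat_lit 260415) (nat_lit 0) .nil) .nil)))))) 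
(.nd (nat_lit 7) (.nd (nat_lit 8) (.nd (nat_lit 9) 
(.lf (nat_lit 535634) (.g (nat_lit 2937) (.e (nat_lit 57851) (nat_lit 252) (.e (nat_lit 57406) (nat_lit 12) (.e (nat_lit 336316) (nat_lit 17) (.e (nat_lit 196666) (nat_lit 13) (.e (nat_lit 65617) (nat_lit 10) (.e (nat_lit 344091) (nat_lit 18) (.e (nat_lit 7695) (nat_lit 412) (.e (nat_lit 57366) (nat_lit 1) .nil)))))))) (.g (nat_lit 1) (.e (nat_lit 258584) (nat_lit 0) .nil) .nil))) 
(.lf (nat_lit 536146) (.g (nat_lit 701) (.e (nat_lit 57926) (nat_lit 282) (.e (nat_lit 163933) (nat_lit 17) (.e (nat_lit 466972) (nat_lit 21) .nil))) (.g (nat_lit 0) (.e (nat_lit 259736) (nat_lit 0) .nil) .nil)))) (.nd (nat_lit 9) 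
(.lf (nat_lit 535890) (.g (nat_lit 912) (.e (nat_lit 57854) (nat_lit 252) (.e (nat_lit 57409) (nat_lit 12) (.e (nat_lit 336368) (nat_lit 27) .nil))) (.g (nat_lit 0) (.e (nat_lit 258957) (nat_lit 0) .nil) .nil))) 
(.lf (nat_lit 536402) (.g (nat_lit 2402) (.e (nat_lit 57929) (nat_lit 282) (.e (nat_lit 163869) (nat_lit 2) (.e (nat_lit 196666) (nat_lit 13) (.e (nat_lit 65571) (nat_lit 3) (.e (nat_lit 98341) (nat_lit 20) .nil))))) (.g (nat_lit 0) (.e (nat_lit 260314) (nat_lit 0) .nil) .nil))))) (.nd (nat_lit 8) (.nd (nat_lit 9) 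
(.lf (nat_lit 535762) (.g (nat_lit 377) (.e (nat_lit 57854) (nat_lit 252) (.e (nat_lit 57378) (nat_lit 3) (.e (nat_lit 98309) (nat_lit 0) .nil))) (.g (nat_lit 0) (.e (nat_lit 258760) (nat_lit 0) .nil) .nil))) 
(.lf (nat_lit 536274) (.g (nat_lit 2203) (.e (nat_lit 57927) (nat_lit 282) (.e (nat_lit 163875) (nat_lit 3) (.e (nat_lit 204861) (nat_lit 26) (.e (nat_lit 336076) (nat_lit 9) (.e (nat_lit 336370) (nat_lit 27) .nil))))) (.g (nat_lit 0) (.e (nat_lit 260014) (nat_lit 0) .nil) .nil)))) (.nd (nat_lit 9) 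
(.lf (nat_lit 536018) (.g (nat_lit 2017) (.e (nat_lit 57904) (nat_lit 278) (.e (nat_lit 2553) (nat_lit 159) (.e (nat_lit 24604) (nat_lit 2) (.e (nat_lit 90185) (nat_lit 17) (.e (nat_lit 237585) (nat_lit 1) .nil))))) (.g (nat_lit 0) (.e (nat_lit 259325) (nat_lit 0) .nil) .nil))) 
(.lf (nat_lit 536530) (.g (nat_lit 4254) (.e (nat_lit 57931) (nat_lit 282) (.e (nat_lit 163867) (nat_lit 2) (.e (nat_lit 196668) (nat_lit 14) (.e (nat_lit 73747) (nat_lit 3) (.e (nat_lit 516129) (nat_lit 3) (.e (nat_lit 221215) (nat_lit 23) (.e (nat_lit 204830) (nat_lit 18) .nil))))))) (.g (nat_lit 1) (.e (nat_lit 260609) (nat_lit 0) .nil) .nil))))))) 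
(.nd (nat_lit 6) (.nd (nat_lit 7) (.nd (nat_lit 8) (.nd (nat_lit 9) 
(.lf (nat_lit 535602) (.g (nat_lit 3913) (.e (nat_lit 57851) (nat_lit 252) (.e (nat_lit 57354) (nat_lit 0) (.e (nat_lit 1857) (nat_lit 124) (.e (nat_lit 557105) (nat_lit 14) (.e (nat_lit 180252) (nat_lit 10) (.e (nat_lit 573481) (nat_lit 13) (.e (nat_lit 65637) (nat_lit 15) (.e (nat_lit 3253) (nat_lit 197) (.e (nat_lit 532504) (nat_lit 1) .nil))))))))) (.g (nat_lit 1) (.e (nat_lit 258527) (nat_lit 0) .nil) .nil))) 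
(.lf (nat_lit 536114) (.g (nat_lit 2014) (.e (nat_lit 57926) (nat_lit 282) (.e (nat_lit 163871) (nat_lit 2) (.e (nat_lit 196668) (nat_lit 14) (.e (nat_lit 73747) (nat_lit 3) (.e (nat_lit 516124) (nat_lit 2) .nil))))) (.g (nat_lit 0) (.e (nat_lit 259620) (nat_lit 0) .nil) .nil)))) (.nd (nat_lit 9) 
(.lf (nat_lit 535858) (.g (nat_lit 4362) (.e (nat_lit 57854) (nat_lit 252) (.e (nat_lit 57409) (nat_lit 12) (.e (nat_lit 336316) (nat_lit 17) (.e (nat_lit 196666) (nat_lit 13) (.e (nat_lit 65610) (nat_lit 10) (.e (nat_lit 344090) (nat_lit 18) (.e (nat_lit 7695) (nat_lit 412) (.e (nat_lit 57366) (nat_lit 1) .nil)))))))) (.g (nat_lit 1) (.e (nat_lit 258925) (nat_lit 0) .nil) .nil))) 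
(.lf (nat_lit 536370) (.g (nat_lit 1057) (.e (nat_lit 57927) (nat_lit 282) (.e (nat_lit 163943) (nat_lit 19) (.e (nat_lit 483372) (nat_lit 21) .nil))) (.g (nat_lit 0) (.e (nat_lit 260168) (nat_lit 0) .nil) .nil))))) (.nd (nat_lit 8) (.nd (nat_lit 9) 
(.lf (nat_lit 535730) (.g (nat_lit 2649) (.e (nat_lit 57853) (nat_lit 252) (.e (nat_lit 57406) (nat_lit 12) (.e (nat_lit 336454) (nat_lit 34) (.e (nat_lit 483402) (nat_lit 26) .nil)))) (.g (nat_lit 0) (.e (nat_lit 258714) (nat_lit 0) .nil) .nil))) 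
(.lf (nat_lit 536242) (.g (nat_lit 1162) (.e (nat_lit 57927) (nat_lit 282) (.e (nat_lit 163874) (nat_lit 3) (.e (nat_lit 204856) (nat_lit 26) (.e (nat_lit 336028) (nat_lit 3) .nil)))) (.g (nat_lit 0) (.e (nat_lit 259964) (nat_lit 0) .nil) .nil)))) (.nd (nat_lit 9) 
(.lf (nat_lit 535986) (.g (nat_lit 2501) (.e (nat_lit 57883) (nat_lit 270) (.e (nat_lit 174) (nat_lit 12) (.e (nat_lit 204877) (nat_lit 31) (.e (nat_lit 376842) (nat_lit 11) (.e (nat_lit 426408) (nat_lit 15) (.e (nat_lit 6216) (nat_lit 333) .nil)))))) (.g (nat_lit 1) (.e (nat_lit 259235) (nat_lit 0) .nil) .nil))) 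
(.lf (nat_lit 536498) (.g (nat_lit 1989) (.e (nat_lit 57930) (nat_lit 282) (.e (nat_lit 163902) (nat_lit 12) (.e (nat_lit 426555) (nat_lit 32) (.e (nat_lit 376865) (nat_lit 22) (.e (nat_lit 90158) (nat_lit 11) (.e (nat_lit 24598) (nat_lit 1) .nil)))))) (.g (nat_lit 1) (.e (nat_lit 260538) (nat_lit 0) .nil) .nil)))))) (.nd (nat_lit 7) (.nd (nat_lit 8) (.nd (nat_lit 9) 
(.lf (nat_lit 535666) (.g (nat_lit 2561) (.e (nat_lit 57851) (nat_lit 252) (.e (nat_lit 57406) (nat_lit 12) (.e (nat_lit 336456) (nat_lit 34) (.e (nat_lit 483385) (nat_lit 23) (.e (nat_lit 336260) (nat_lit 15) .nil))))) (.g (nat_lit 0) (.e (nat_lit 258616) (nat_lit 0) .nil) .nil))) 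
(.lf (nat_lit 536178) (.g (nat_lit 2346) (.e (nat_lit 57927) (nat_lit 282) (.e (nat_lit 163868) (nat_lit 2) (.e (nat_lit 196666) (nat_lit 13) (.e (nat_lit 65571) (nat_lit 3) .nil)))) (.g (nat_lit 0) (.e (nat_lit 259823) (nat_lit 0) .nil) .nil)))) (.nd (nat_lit 9) 
(.lf (nat_lit 535922) (.g (nat_lit 2470) (.e (nat_lit 57872) (nat_lit 264) (.e (nat_lit 1209) (nat_lit 89) (.e (nat_lit 73781) (nat_lit 32) (.e (nat_lit 3090) (nat_lit 191) (.e (nat_lit 483393) (nat_lit 23) (.e (nat_lit 335986) (nat_lit 1) .nil)))))) (.g (nat_lit 1) (.e (nat_lit 259020) (nat_lit 0) .nil) .nil))) 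
(.lf (nat_lit 536434) (.g (nat_lit 1971) (.e (nat_lit 57929) (nat_lit 282) (.e (nat_lit 163902) (nat_lit 12) (.e (nat_lit 426555) (nat_lit 32) (.e (nat_lit 376862) (nat_lit 22) (.e (nat_lit 90160) (nat_lit 11) (.e (nat_lit 24598) (nat_lit 1) .nil)))))) (.g (nat_lit 1) (.e (nat_lit 260367) (nat_lit 0) .nil) .nil))))) (.nd (nat_lit 8) (.nd (nat_lit 9) 
(.lf (nat_lit 535794) (.g (nat_lit 1406) (.e (nat_lit 57854) (nat_lit 252) (.e (nat_lit 57389) (nat_lit 5) (.e (nat_lit 114697) (nat_lit 11) (.e (nat_lit 426315) (nat_lit 12) (.e (nat_lit 483072) (nat_lit 15) .nil))))) (.g (nat_lit 0) (.e (nat_lit 258826) (nat_lit 0) .nil) .nil))) 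
(.lf (nat_lit 536306) (.g (nat_lit 3628) (.e (nat_lit 57927) (nat_lit 282) (.e (nat_lit 163886) (nat_lit 5) (.e (nat_lit 221219) (nat_lit 24) (.e (nat_lit 213032) (nat_lit 11) (.e (nat_lit 24648) (nat_lit 12) (.e (nat_lit 385109) (nat_lit 51) (.e (nat_lit 802560) (nat_lit 1) .nil))))))) (.g (nat_lit 1) (.e (nat_lit 260063) (nat_lit 0) .nil) .nil)))) (.nd (nat_lit 9) 
(.lf (nat_lit 536050) (.g (nat_lit 1360) (.e (nat_lit 57924) (nat_lit 282) (.e (nat_lit 163871) (nat_lit 2) (.e (nat_lit 196670) (nat_lit 14) (.e (nat_lit 73746) (nat_lit 3) .nil)))) (.g (nat_lit 0) (.e (nat_lit 259439) (nat_lit 0) .nil) .nil))) 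
(.lf (nat_lit 536562) (.g (nat_lit 3298) (.e (nat_lit 57931) (nat_lit 282) (.e (nat_lit 163869) (nat_lit 2) (.e (nat_lit 196668) (nat_lit 14) (.e (nat_lit 73747) (nat_lit 3) (.e (nat_lit 516130) (nat_lit 3) (.e (nat_lit 221215) (nat_lit 23) (.e (nat_lit 204830) (nat_lit 18) .nil))))))) (.g (nat_lit 1) (.e (nat_lit 260661) (nat_lit 0) .nil) .nil))))))))) 
(.nd (nat_lit 4) (.nd (nat_lit 5) (.nd (nat_lit 6) (.nd (nat_lit 7) (.nd (nat_lit 8) 
(.nd (nat_lit 9) 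
(.lf (nat_lit 535562) (.g (nat_lit 2484) (.e (nat_lit 57849) (nat_lit 252) (.e (nat_lit 57379) (nat_lit 3) (.e (nat_lit 98333) (nat_lit 18) (.e (nat_lit 164399) (nat_lit 256) (.e (nat_lit 57588) (nat_lit 73) .nil))))) (.g (nat_lit 0) (.e (nat_lit 258464) (nat_lit 0) .nil) .nil))) 
(.lf (nat_lit 536074) (.g (nat_lit 1949) (.e (nat_lit 57925) (nat_lit 282) (.e (nat_lit 163871) (nat_lit 2) (.e (nat_lit 196668) (nat_lit 14) (.e (nat_lit 73746) (nat_lit 3) (.e (nat_lit 516124) (nat_lit 2) .nil))))) (.g (nat_lit 0) (.e (nat_lit 259521) (nat_lit 0) .nil) .nil)))) (.nd (nat_lit 9) 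
(.lf (nat_lit 535818) (.g (nat_lit 2316) (.e (nat_lit 57854) (nat_lit 252) (.e (nat_lit 57406) (nat_lit 12) (.e (nat_lit 336316) (nat_lit 17) (.e (nat_lit 196666) (nat_lit 13) (.e (nat_lit 65617) (nat_lit 10) (.e (nat_lit 344087) (nat_lit 18) (.e (nat_lit 7695) (nat_lit 412) (.e (nat_lit 57365) (nat_lit 1) .nil)))))))) (.g (nat_lit 1) (.e (nat_lit 258885) (nat_lit 0) .nil) .nil))) 
(.lf (nat_lit 536330) (.g (nat_lit 1975) (.e (nat_lit 57927) (nat_lit 282) (.e (nat_lit 163907) (nat_lit 12) (.e (nat_lit 426555) (nat_lit 32) (.e (nat_lit 376862) (nat_lit 22) (.e (nat_lit 90158) (nat_lit 11) (.e (nat_lit 32512) (nat_lit 1) .nil)))))) (.g (nat_lit 1) (.e (nat_lit 260097) (nat_lit 0) .nil) .nil))))) (.nd (nat_lit 8) (.nd (nat_lit 9) 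
(.lf (nat_lit 535690) (.g (nat_lit 4430) (.e (nat_lit 57852) (nat_lit 252) (.e (nat_lit 57377) (nat_lit 3) (.e (nat_lit 98317) (nat_lit 9) (.e (nat_lit 336012) (nat_lit 2) .nil)))) (.g (nat_lit 0) (.e (nat_lit 258642) (nat_lit 0) .nil) .nil))) 
(.lf (nat_lit 536202) (.g (nat_lit 1180) (.e (nat_lit 57927) (nat_lit 282) (.e (nat_lit 163869) (nat_lit 2) (.e (nat_lit 196668) (nat_lit 14) (.e (nat_lit 73747) (nat_lit 3) .nil)))) (.g (nat_lit 0) (.e (nat_lit 259864) (nat_lit 0) .nil) .nil)))) (.nd (nat_lit 9) 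
(.lf (nat_lit 535946) (.g (nat_lit 1722) (.e (nat_lit 57878) (nat_lit 270) (.e (nat_lit 496) (nat_lit 39) (.e (nat_lit 483380) (nat_lit 23) (.e (nat_lit 336320) (nat_lit 17) (.e (nat_lit 196698) (nat_lit 19) (.e (nat_lit 57815) (nat_lit 246) .nil)))))) (.g (nat_lit 1) (.e (nat_lit 259089) (nat_lit 0) .nil) .nil))) 
(.lf (nat_lit 536458) (.g (nat_lit 3579) (.e (nat_lit 57929) (nat_lit 282) (.e (nat_lit 163923) (nat_lit 15) (.e (nat_lit 450587) (nat_lit 10) (.e (nat_lit 573475) (nat_lit 12) (.e (nat_lit 57359) (nat_lit 0) .nil))))) (.g (nat_lit 0) (.e (nat_lit 260403) (nat_lit 0) .nil) .nil)))))) (.nd (nat_lit 7) (.nd (nat_lit 8) (.nd (nat_lit 9) 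
(.lf (nat_lit 535626) (.g (nat_lit 1631) (.e (nat_lit 57851) (nat_lit 252) (.e (nat_lit 57389) (nat_lit 5) (.e (nat_lit 114698) (nat_lit 11) (.e (nat_lit 426190) (nat_lit 9) (.e (nat_lit 426555) (nat_lit 32) .nil))))) (.g (nat_lit 0) (.e (nat_lit 258564) (nat_lit 0) .nil) .nil))) 
(.lf (nat_lit 536138) (.g (nat_lit 3040) (.e (nat_lit 57926) (nat_lit 282) (.e (nat_lit 163902) (nat_lit 12) (.e (nat_lit 426555) (nat_lit 32) (.e (nat_lit 376862) (nat_lit 22) (.e (nat_lit 90160) (nat_lit 11) (.e (nat_lit 24598) (nat_lit 1) .nil)))))) (.g (nat_lit 1) (.e (nat_lit 259701) (nat_lit 0) .nil) .nil)))) (.nd (nat_lit 9) 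
(.lf (nat_lit 535882) (.g (nat_lit 3608) (.e (nat_lit 57854) (nat_lit 252) (.e (nat_lit 57409) (nat_lit 12) (.e (nat_lit 336326) (nat_lit 18) (.e (nat_lit 204869) (nat_lit 29) (.e (nat_lit 360450) (nat_lit 0) (.e (nat_lit 7936) (nat_lit 412) (.e (nat_lit 57368) (nat_lit 1) .nil))))))) (.g (nat_lit 1) (.e (nat_lit 258949) (nat_lit 0) .nil) .nil))) 
(.lf (nat_lit 536394) (.g (nat_lit 1996) (.e (nat_lit 57928) (nat_lit 282) (.e (nat_lit 163875) (nat_lit 3) (.e (nat_lit 204873) (nat_lit 30) (.e (nat_lit 368676) (nat_lit 21) (.e (nat_lit 516131) (nat_lit 3) .nil))))) (.g (nat_lit 0) (.e (nat_lit 260292) (nat_lit 0) .nil) .nil))))) (.nd (nat_lit 8) (.nd (nat_lit 9) 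
(.lf (nat_lit 535754) (.g (nat_lit 4039) (.e (nat_lit 57854) (nat_lit 252) (.e (nat_lit 57373) (nat_lit 2) (.e (nat_lit 90158) (nat_lit 11) (.e (nat_lit 24630) (nat_lit 9) (.e (nat_lit 336454) (nat_lit 34) (.e (nat_lit 483365) (nat_lit 18) .nil)))))) (.g (nat_lit 1) (.e (nat_lit 258742) (nat_lit 0) .nil) .nil))) 
(.lf (nat_lit 536266) (.g (nat_lit 2418) (.e (nat_lit 57927) (nat_lit 282) (.e (nat_lit 163874) (nat_lit 3) (.e (nat_lit 204877) (nat_lit 31) (.e (nat_lit 376842) (nat_lit 11) (.e (nat_lit 426521) (nat_lit 27) (.e (nat_lit 335987) (nat_lit 1) .nil)))))) (.g (nat_lit 1) (.e (nat_lit 259996) (nat_lit 0) .nil) .nil)))) (.nd (nat_lit 9) 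
(.lf (nat_lit 536010) (.g (nat_lit 1781) (.e (nat_lit 57884) (nat_lit 270) (.e (nat_lit 1530) (nat_lit 109) (.e (nat_lit 344156) (nat_lit 36) (.e (nat_lit 638998) (nat_lit 8) (.e (nat_lit 172038) (nat_lit 0) (.e (nat_lit 7107) (nat_lit 380) (.e (nat_lit 164281) (nat_lit 222) .nil))))))) (.g (nat_lit 1) (.e (nat_lit 259286) (nat_lit 0) .nil) .nil))) 
(.lf (nat_lit 536522) (.g (nat_lit 2647) (.e (nat_lit 57931) (nat_lit 282) (.e (nat_lit 163867) (nat_lit 2) (.e (nat_lit 196663) (nat_lit 13) (.e (nat_lit 65571) (nat_lit 3) (.e (nat_lit 98342) (nat_lit 20) (.e (nat_lit 221215) (nat_lit 23) (.e (nat_lit 204828) (nat_lit 18) .nil))))))) (.g (nat_lit 1) (.e (nat_lit 260591) (nat_lit 0) .nil) .nil))))))) 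
(.nd (nat_lit 6) (.nd (nat_lit 7) (.nd (nat_lit 8) (.nd (nat_lit 9) 
(.lf (nat_lit 535594) (.g (nat_lit 464) (.e (nat_lit 57850) (nat_lit 252) (.e (nat_lit 57354) (nat_lit 0) (.e (nat_lit 2061) (nat_lit 142) .nil))) (.g (nat_lit 0) (.e (nat_lit 258519) (nat_lit 0) .nil) .nil))) 
(.lf (nat_lit 536106) (.g (nat_lit 1679) (.e (nat_lit 57926) (nat_lit 282) (.e (nat_lit 163869) (nat_lit 2) (.e (nat_lit 196668) (nat_lit 14) (.e (nat_lit 73746) (nat_lit 3) .nil)))) (.g (nat_lit 0) (.e (nat_lit 259602) (nat_lit 0) .nil) .nil)))) (.nd (nat_lit 9) 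
(.lf (nat_lit 535850) (.g (nat_lit 948) (.e (nat_lit 57854) (nat_lit 252) (.e (nat_lit 57409) (nat_lit 12) (.e (nat_lit 336117) (nat_lit 9) .nil))) (.g (nat_lit 0) (.e (nat_lit 258917) (nat_lit 0) .nil) .nil))) 
(.lf (nat_lit 536362) (.g (nat_lit 2033) (.e (nat_lit 57927) (nat_lit 282) (.e (nat_lit 163933) (nat_lit 17) (.e (nat_lit 466977) (nat_lit 22) (.e (nat_lit 196656) (nat_lit 11) (.e (nat_lit 24320) (nat_lit 15) .nil))))) (.g (nat_lit 0) (.e (nat_lit 260139) (nat_lit 0) .nil) .nil))))) (.nd (nat_lit 8) (.nd (nat_lit 9) 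
(.lf (nat_lit 535722) (.g (nat_lit 2585) (.e (nat_lit 57853) (nat_lit 252) (.e (nat_lit 57388) (nat_lit 5) (.e (nat_lit 114697) (nat_lit 11) (.e (nat_lit 426188) (nat_lit 9) (.e (nat_lit 426555) (nat_lit 32) (.e (nat_lit 376859) (nat_lit 21) .nil)))))) (.g (nat_lit 1) (.e (nat_lit 258704) (nat_lit 0) .nil) .nil))) 
(.lf (nat_lit 536234) (.g (nat_lit 829) (.e (nat_lit 57927) (nat_lit 282) (.e (nat_lit 163873) (nat_lit 3) (.e (nat_lit 204855) (nat_lit 26) .nil))) (.g (nat_lit 0) (.e (nat_lit 259939) (nat_lit 0) .nil) .nil)))) (.nd (nat_lit 9) 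
(.lf (nat_lit 535978) (.g (nat_lit 2253) (.e (nat_lit 57883) (nat_lit 270) (.e (nat_lit 174) (nat_lit 12) (.e (nat_lit 204859) (nat_lit 26) (.e (nat_lit 336209) (nat_lit 13) (.e (nat_lit 393221) (nat_lit 0) (.e (nat_lit 6207) (nat_lit 333) .nil)))))) (.g (nat_lit 1) (.e (nat_lit 259216) (nat_lit 0) .nil) .nil))) 
(.lf (nat_lit 536490) (.g (nat_lit 2173) (.e (nat_lit 57930) (nat_lit 282) (.e (nat_lit 163869) (nat_lit 2) (.e (nat_lit 196668) (nat_lit 14) (.e (nat_lit 73747) (nat_lit 3) (.e (nat_lit 516129) (nat_lit 3) .nil))))) (.g (nat_lit 0) (.e (nat_lit 260510) (nat_lit 0) .nil) .nil)))))) (.nd (nat_lit 7) (.nd (nat_lit 8) (.nd (nat_lit 9) 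
(.lf (nat_lit 535658) (.g (nat_lit 1906) (.e (nat_lit 57851) (nat_lit 252) (.e (nat_lit 57406) (nat_lit 12) (.e (nat_lit 336456) (nat_lit 34) (.e (nat_lit 483383) (nat_lit 23) (.e (nat_lit 336259) (nat_lit 15) .nil))))) (.g (nat_lit 0) (.e (nat_lit 258608) (nat_lit 0) .nil) .nil))) 
(.lf (nat_lit 536170) (.g (nat_lit 3201) (.e (nat_lit 57927) (nat_lit 282) (.e (nat_lit 163868) (nat_lit 2) (.e (nat_lit 196663) (nat_lit 13) (.e (nat_lit 65569) (nat_lit 3) (.e (nat_lit 98342) (nat_lit 20) (.e (nat_lit 221204) (nat_lit 20) (.e (nat_lit 3253) (nat_lit 197) (.e (nat_lit 532501) (nat_lit 1) .nil)))))))) (.g (nat_lit 1) (.e (nat_lit 259809) (nat_lit 0) .nil) .nil)))) 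
(.nd (nat_lit 9) 
(.lf (nat_lit 535914) (.g (nat_lit 446) (.e (nat_lit 57872) (nat_lit 264) (.e (nat_lit 1181) (nat_lit 87) (.e (nat_lit 65280) (nat_lit 25) .nil))) (.g (nat_lit 0) (.e (nat_lit 259007) (nat_lit 0) .nil) .nil))) 
(.lf (nat_lit 536426) (.g (nat_lit 2851) (.e (nat_lit 57929) (nat_lit 282) (.e (nat_lit 163874) (nat_lit 3) (.e (nat_lit 204866) (nat_lit 28) (.e (nat_lit 352277) (nat_lit 11) (.e (nat_lit 426500) (nat_lit 27) (.e (nat_lit 335995) (nat_lit 1) .nil)))))) (.g (nat_lit 1) (.e (nat_lit 260350) (nat_lit 0) .nil) .nil))))) (.nd (nat_lit 8) (.nd (nat_lit 9) 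
(.lf (nat_lit 535786) (.g (nat_lit 1452) (.e (nat_lit 57854) (nat_lit 252) (.e (nat_lit 57388) (nat_lit 5) (.e (nat_lit 114697) (nat_lit 11) (.e (nat_lit 426315) (nat_lit 12) (.e (nat_lit 483072) (nat_lit 15) .nil))))) (.g (nat_lit 0) (.e (nat_lit 258789) (nat_lit 0) .nil) .nil))) 
(.lf (nat_lit 536298) (.g (nat_lit 4845) (.e (nat_lit 57927) (nat_lit 282) (.e (nat_lit 163884) (nat_lit 5) (.e (nat_lit 221215) (nat_lit 23) (.e (nat_lit 204813) (nat_lit 9) (.e (nat_lit 426306) (nat_lit 12) (.e (nat_lit 475177) (nat_lit 24) (.e (nat_lit 524032) (nat_lit 18) .nil))))))) (.g (nat_lit 1) (.e (nat_lit 260055) (nat_lit 0) .nil) .nil)))) (.nd (nat_lit 9) 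
(.lf (nat_lit 536042) (.g (nat_lit 2614) (.e (nat_lit 57924) (nat_lit 282) (.e (nat_lit 163870) (nat_lit 2) (.e (nat_lit 196666) (nat_lit 13) (.e (nat_lit 65571) (nat_lit 3) (.e (nat_lit 98342) (nat_lit 20) .nil))))) (.g (nat_lit 0) (.e (nat_lit 259428) (nat_lit 0) .nil) .nil))) 
(.lf (nat_lit 536554) (.g (nat_lit 2261) (.e (nat_lit 57931) (nat_lit 282) (.e (nat_lit 163869) (nat_lit 2) (.e (nat_lit 196668) (nat_lit 14) (.e (nat_lit 73746) (nat_lit 3) (.e (nat_lit 516129) (nat_lit 3) .nil))))) (.g (nat_lit 0) (.e (nat_lit 260650) (nat_lit 0) .nil) .nil)))))))) (.nd (nat_lit 5) (.nd (nat_lit 6) (.nd (nat_lit 7) (.nd (nat_lit 8) (.nd (nat_lit 9) 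
(.lf (nat_lit 535578) (.g (nat_lit 2563) (.e (nat_lit 57849) (nat_lit 252) (.e (nat_lit 57406) (nat_lit 12) (.e (nat_lit 336454) (nat_lit 34) (.e (nat_lit 483380) (nat_lit 23) .nil)))) (.g (nat_lit 0) (.e (nat_lit 258501) (nat_lit 0) .nil) .nil))) 
(.lf (nat_lit 536090) (.g (nat_lit 2343) (.e (nat_lit 57926) (nat_lit 282) (.e (nat_lit 163867) (nat_lit 2) (.e (nat_lit 196670) (nat_lit 14) (.e (nat_lit 73746) (nat_lit 3) (.e (nat_lit 516127) (nat_lit 2) .nil))))) (.g (nat_lit 0) (.e (nat_lit 259572) (nat_lit 0) .nil) .nil)))) (.nd (nat_lit 9) 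
(.lf (nat_lit 535834) (.g (nat_lit 2333) (.e (nat_lit 57854) (nat_lit 252) (.e (nat_lit 57406) (nat_lit 12) (.e (nat_lit 336454) (nat_lit 34) (.e (nat_lit 483385) (nat_lit 23) (.e (nat_lit 336260) (nat_lit 15) (.e (nat_lit 3252) (nat_lit 197) (.e (nat_lit 532500) (nat_lit 1) .nil))))))) (.g (nat_lit 1) (.e (nat_lit 258901) (nat_lit 0) .nil) .nil))) 
(.lf (nat_lit 536346) (.g (nat_lit 2270) (.e (nat_lit 57927) (nat_lit 282) (.e (nat_lit 163933) (nat_lit 17) (.e (nat_lit 466977) (nat_lit 22) (.e (nat_lit 196624) (nat_lit 9) (.e (nat_lit 489) (nat_lit 38) (.e (nat_lit 475212) (nat_lit 42) (.e (nat_lit 720930) (nat_lit 21) .nil))))))) (.g (nat_lit 1) (.e (nat_lit 260123) (nat_lit 0) .nil) .nil))))) (.nd (nat_lit 8) (.nd (nat_lit 9) 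
(.lf (nat_lit 535706) (.g (nat_lit 430) (.e (nat_lit 57852) (nat_lit 252) (.e (nat_lit 57406) (nat_lit 12) (.e (nat_lit 336456) (nat_lit 34) .nil))) (.g (nat_lit 0) (.e (nat_lit 258680) (nat_lit 0) .nil) .nil))) 
(.lf (nat_lit 536218) (.g (nat_lit 1887) (.e (nat_lit 57927) (nat_lit 282) (.e (nat_lit 163870) (nat_lit 2) (.e (nat_lit 196668) (nat_lit 14) (.e (nat_lit 73747) (nat_lit 3) (.e (nat_lit 516129) (nat_lit 3) .nil))))) (.g (nat_lit 0) (.e (nat_lit 259899) (nat_lit 0) .nil) .nil)))) (.nd (nat_lit 9) 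
(.lf (nat_lit 535962) (.g (nat_lit 1275) (.e (nat_lit 57879) (nat_lit 270) (.e (nat_lit 496) (nat_lit 39) (.e (nat_lit 483382) (nat_lit 23) (.e (nat_lit 336316) (nat_lit 17) (.e (nat_lit 204544) (nat_lit 19) (.e (nat_lit 57809) (nat_lit 246) .nil)))))) (.g (nat_lit 1) (.e (nat_lit 259130) (nat_lit 0) .nil) .nil))) 
(.lf (nat_lit 536474) (.g (nat_lit 700) (.e (nat_lit 57929) (nat_lit 282) (.e (nat_lit 163931) (nat_lit 17) (.e (nat_lit 466977) (nat_lit 22) .nil))) (.g (nat_lit 0) (.e (nat_lit 260426) (nat_lit 0) .nil) .nil)))))) (.nd (nat_lit 7) (.nd (nat_lit 8) (.nd (nat_lit 9) 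
(.lf (nat_lit 535642) (.g (nat_lit 1429) (.e (nat_lit 57851) (nat_lit 252) (.e (nat_lit 57406) (nat_lit 12) (.e (nat_lit 336414) (nat_lit 27) (.e (nat_lit 426503) (nat_lit 27) .nil)))) (.g (nat_lit 0) (.e (nat_lit 258592) (nat_lit 0) .nil) .nil))) 
(.lf (nat_lit 536154) (.g (nat_lit 2825) (.e (nat_lit 57926) (nat_lit 282) (.e (nat_lit 163943) (nat_lit 19) (.e (nat_lit 483412) (nat_lit 27) (.e (nat_lit 401414) (nat_lit 0) (.e (nat_lit 3297) (nat_lit 202) .nil))))) (.g (nat_lit 0) (.e (nat_lit 259771) (nat_lit 0) .nil) .nil)))) (.nd (nat_lit 9) 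
(.lf (nat_lit 535898) (.g (nat_lit 4047) (.e (nat_lit 57854) (nat_lit 252) (.e (nat_lit 57445) (nat_lit 19) (.e (nat_lit 393229) (nat_lit 9) (.e (nat_lit 336105) (nat_lit 9) .nil)))) (.g (nat_lit 0) (.e (nat_lit 258966) (nat_lit 0) .nil) .nil))) 
(.lf (nat_lit 536410) (.g (nat_lit 3427) (.e (nat_lit 57929) (nat_lit 282) (.e (nat_lit 163869) (nat_lit 2) (.e (nat_lit 196674) (nat_lit 15) (.e (nat_lit 81925) (nat_lit 11) (.e (nat_lit 426500) (nat_lit 27) (.e (nat_lit 335996) (nat_lit 1) .nil)))))) (.g (nat_lit 1) (.e (nat_lit 260332) (nat_lit 0) .nil) .nil))))) (.nd (nat_lit 8) (.nd (nat_lit 9) 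
(.lf (nat_lit 535770) (.g (nat_lit 2915) (.e (nat_lit 57854) (nat_lit 252) (.e (nat_lit 57378) (nat_lit 3) (.e (nat_lit 98333) (nat_lit 18) (.e (nat_lit 164403) (nat_lit 256) (.e (nat_lit 57588) (nat_lit 73) .nil))))) (.g (nat_lit 0) (.e (nat_lit 258770) (nat_lit 0) .nil) .nil))) 
(.lf (nat_lit 536282) (.g (nat_lit 1723) (.e (nat_lit 57927) (nat_lit 282) (.e (nat_lit 163875) (nat_lit 3) (.e (nat_lit 204862) (nat_lit 27) (.e (nat_lit 344117) (nat_lit 21) (.e (nat_lit 516123) (nat_lit 2) .nil))))) (.g (nat_lit 0) (.e (nat_lit 260022) (nat_lit 0) .nil) .nil)))) (.nd (nat_lit 9) 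
(.lf (nat_lit 536026) (.g (nat_lit 1843) (.e (nat_lit 57924) (nat_lit 282) (.e (nat_lit 163867) (nat_lit 2) (.e (nat_lit 196668) (nat_lit 14) (.e (nat_lit 73747) (nat_lit 3) (.e (nat_lit 516129) (nat_lit 3) .nil))))) (.g (nat_lit 0) (.e (nat_lit 259397) (nat_lit 0) .nil) .nil))) 
(.lf (nat_lit 536538) (.g (nat_lit 925) (.e (nat_lit 57931) (nat_lit 282) (.e (nat_lit 163867) (nat_lit 2) (.e (nat_lit 196679) (nat_lit 17) (.e (nat_lit 131105) (nat_lit 9) .nil)))) (.g (nat_lit 0) (.e (nat_lit 260623) (nat_lit 0) .nil) .nil))))))) (.nd (nat_lit 6) (.nd (nat_lit 7) (.nd (nat_lit 8) (.nd (nat_lit 9) 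
(.lf (nat_lit 535610) (.g (nat_lit 3673) (.e (nat_lit 57851) (nat_lit 252) (.e (nat_lit 57371) (nat_lit 2) (.e (nat_lit 90160) (nat_lit 11) (.e (nat_lit 24628) (nat_lit 9) (.e (nat_lit 336454) (nat_lit 34) (.e (nat_lit 483365) (nat_lit 18) .nil)))))) (.g (nat_lit 1) (.e (nat_lit 258537) (nat_lit 0) .nil) .nil))) 
(.lf (nat_lit 536122) (.g (nat_lit 1589) (.e (nat_lit 57926) (nat_lit 282) (.e (nat_lit 163874) (nat_lit 3) (.e (nat_lit 204855) (nat_lit 26) (.e (nat_lit 336219) (nat_lit 13) .nil)))) (.g (nat_lit 0) (.e (nat_lit 259636) (nat_lit 0) .nil) .nil)))) (.nd (nat_lit 9) 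
(.lf (nat_lit 535866) (.g (nat_lit 2756) (.e (nat_lit 57854) (nat_lit 252) (.e (nat_lit 57409) (nat_lit 12) (.e (nat_lit 336316) (nat_lit 17) (.e (nat_lit 196666) (nat_lit 13) (.e (nat_lit 65617) (nat_lit 10) (.e (nat_lit 344088) (nat_lit 18) (.e (nat_lit 7695) (nat_lit 412) (.e (nat_lit 57365) (nat_lit 1) .nil)))))))) (.g (nat_lit 1) (.e (nat_lit 258933) (nat_lit 0) .nil) .nil))) 
(.lf (nat_lit 536378) (.g (nat_lit 2015) (.e (nat_lit 57928) (nat_lit 282) (.e (nat_lit 163868) (nat_lit 2) (.e (nat_lit 196668) (nat_lit 14) (.e (nat_lit 73746) (nat_lit 3) (.e (nat_lit 516131) (nat_lit 3) .nil))))) (.g (nat_lit 0) (.e (nat_lit 260240) (nat_lit 0) .nil) .nil))))) (.nd (nat_lit 8) (.nd (nat_lit 9) 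
(.lf (nat_lit 535738) (.g (nat_lit 1751) (.e (nat_lit 57853) (nat_lit 252) (.e (nat_lit 57406) (nat_lit 12) (.e (nat_lit 336456) (nat_lit 34) (.e (nat_lit 483393) (nat_lit 23) .nil)))) (.g (nat_lit 0) (.e (nat_lit 258722) (nat_lit 0) .nil) .nil))) 
(.lf (nat_lit 536250) (.g (nat_lit 3656) (.e (nat_lit 57927) (nat_lit 282) (.e (nat_lit 163874) (nat_lit 3) (.e (nat_lit 204862) (nat_lit 27) (.e (nat_lit 344117) (nat_lit 21) (.e (nat_lit 516106) (nat_lit 0) (.e (nat_lit 3721) (nat_lit 227) (.e (nat_lit 778474) (nat_lit 12) (.e (nat_lit 163963) (nat_lit 25) (.e (nat_lit 532499) (nat_lit 1) .nil))))))))) (.g (nat_lit 1) (.e (nat_lit 259972) (nat_lit 0) .nil) .nil)))) 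
(.nd (nat_lit 9) 
(.lf (nat_lit 535994) (.g (nat_lit 1838) (.e (nat_lit 57883) (nat_lit 270) (.e (nat_lit 496) (nat_lit 39) (.e (nat_lit 483379) (nat_lit 23) (.e (nat_lit 336320) (nat_lit 17) (.e (nat_lit 196698) (nat_lit 19) (.e (nat_lit 57810) (nat_lit 246) .nil)))))) (.g (nat_lit 1) (.e (nat_lit 259261) (nat_lit 0) .nil) .nil))) 
(.lf (nat_lit 536506) (.g (nat_lit 2747) (.e (nat_lit 57930) (nat_lit 282) (.e (nat_lit 163923) (nat_lit 15) (.e (nat_lit 450587) (nat_lit 10) (.e (nat_lit 573475) (nat_lit 12) (.e (nat_lit 57516) (nat_lit 42) .nil))))) (.g (nat_lit 0) (.e (nat_lit 260553) (nat_lit 0) .nil) .nil)))))) (.nd (nat_lit 7) (.nd (nat_lit 8) (.nd (nat_lit 9) 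
(.lf (nat_lit 535674) (.g (nat_lit 3703) (.e (nat_lit 57852) (nat_lit 252) (.e (nat_lit 57354) (nat_lit 0) (.e (nat_lit 1857) (nat_lit 124) (.e (nat_lit 557105) (nat_lit 14) (.e (nat_lit 180252) (nat_lit 10) (.e (nat_lit 573481) (nat_lit 13) (.e (nat_lit 65637) (nat_lit 15) (.e (nat_lit 3253) (nat_lit 197) (.e (nat_lit 532504) (nat_lit 1) .nil))))))))) (.g (nat_lit 1) (.e (nat_lit 258625) (nat_lit 0) .nil) .nil))) 
(.lf (nat_lit 536186) (.g (nat_lit 5107) (.e (nat_lit 57927) (nat_lit 282) (.e (nat_lit 163868) (nat_lit 2) (.e (nat_lit 196668) (nat_lit 14) (.e (nat_lit 73747) (nat_lit 3) (.e (nat_lit 516129) (nat_lit 3) (.e (nat_lit 221214) (nat_lit 23) (.e (nat_lit 204830) (nat_lit 18) .nil))))))) (.g (nat_lit 1) (.e (nat_lit 259833) (nat_lit 0) .nil) .nil)))) (.nd (nat_lit 9) 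
(.lf (nat_lit 535930) (.g (nat_lit 1401) (.e (nat_lit 57872) (nat_lit 264) (.e (nat_lit 1221) (nat_lit 90) (.e (nat_lit 81922) (nat_lit 0) (.e (nat_lit 3632) (nat_lit 227) (.e (nat_lit 778327) (nat_lit 6) .nil))))) (.g (nat_lit 0) (.e (nat_lit 259028) (nat_lit 0) .nil) .nil))) 
(.lf (nat_lit 536442) (.g (nat_lit 2965) (.e (nat_lit 57929) (nat_lit 282) (.e (nat_lit 163905) (nat_lit 12) (.e (nat_lit 426555) (nat_lit 32) (.e (nat_lit 376867) (nat_lit 23) (.e (nat_lit 98313) (nat_lit 9) (.e (nat_lit 335996) (nat_lit 1) .nil)))))) (.g (nat_lit 1) (.e (nat_lit 260376) (nat_lit 0) .nil) .nil))))) (.nd (nat_lit 8) (.nd (nat_lit 9) 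
(.lf (nat_lit 535802) (.g (nat_lit 329) (.e (nat_lit 57854) (nat_lit 252) (.e (nat_lit 57389) (nat_lit 5) (.e (nat_lit 114702) (nat_lit 20) .nil))) (.g (nat_lit 0) (.e (nat_lit 258861) (nat_lit 0) .nil) .nil))) 
(.lf (nat_lit 536314) (.g (nat_lit 2446) (.e (nat_lit 57927) (nat_lit 282) (.e (nat_lit 163903) (nat_lit 12) (.e (nat_lit 426546) (nat_lit 30) (.e (nat_lit 360466) (nat_lit 3) (.e (nat_lit 516194) (nat_lit 26) (.e (nat_lit 343808) (nat_lit 1) .nil)))))) (.g (nat_lit 1) (.e (nat_lit 260078) (nat_lit 0) .nil) .nil)))) (.nd (nat_lit 9) 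
(.lf (nat_lit 536058) (.g (nat_lit 2696) (.e (nat_lit 57924) (nat_lit 282) (.e (nat_lit 163923) (nat_lit 15) (.e (nat_lit 450587) (nat_lit 10) (.e (nat_lit 573475) (nat_lit 12) (.e (nat_lit 57516) (nat_lit 42) .nil))))) (.g (nat_lit 0) (.e (nat_lit 259462) (nat_lit 0) .nil) .nil))) 
(.lf (nat_lit 536570) (.g (nat_lit 767) (.e (nat_lit 57931) (nat_lit 282) (.e (nat_lit 163869) (nat_lit 2) (.e (nat_lit 196680) (nat_lit 17) (.e (nat_lit 131127) (nat_lit 13) .nil)))) (.g (nat_lit 0) (.e (nat_lit 260684) (nat_lit 0) .nil) .nil)))))))))) (.nd (nat_lit 3) (.nd (nat_lit 4) (.nd (nat_lit 5) (.nd (nat_lit 6) (.nd (nat_lit 7) (.nd (nat_lit 8) (.nd (nat_lit 9) 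
(.lf (nat_lit 535558) (.g (nat_lit 2213) (.e (nat_lit 57849) (nat_lit 252) (.e (nat_lit 57377) (nat_lit 3) (.e (nat_lit 98333) (nat_lit 18) (.e (nat_lit 164399) (nat_lit 256) (.e (nat_lit 57588) (nat_lit 73) .nil))))) (.g (nat_lit 0) (.e (nat_lit 258460) (nat_lit 0) .nil) .nil))) 
(.lf (nat_lit 536070) (.g (nat_lit 1890) (.e (nat_lit 57925) (nat_lit 282) (.e (nat_lit 163869) (nat_lit 2) (.e (nat_lit 196668) (nat_lit 14) (.e (nat_lit 73747) (nat_lit 3) .nil)))) (.g (nat_lit 0) (.e (nat_lit 259511) (nat_lit 0) .nil) .nil)))) (.nd (nat_lit 9) 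
(.lf (nat_lit 535814) (.g (nat_lit 3271) (.e (nat_lit 57854) (nat_lit 252) (.e (nat_lit 57406) (nat_lit 12) (.e (nat_lit 336316) (nat_lit 17) (.e (nat_lit 196666) (nat_lit 13) (.e (nat_lit 65610) (nat_lit 10) (.e (nat_lit 344090) (nat_lit 18) (.e (nat_lit 7695) (nat_lit 412) (.e (nat_lit 57364) (nat_lit 1) .nil)))))))) (.g (nat_lit 1) (.e (nat_lit 258881) (nat_lit 0) .nil) .nil))) 
(.lf (nat_lit 536326) (.g (nat_lit 2451) (.e (nat_lit 57927) (nat_lit 282) (.e (nat_lit 163906) (nat_lit 12) (.e (nat_lit 426555) (nat_lit 32) (.e (nat_lit 376865) (nat_lit 22) (.e (nat_lit 90158) (nat_lit 11) (.e (nat_lit 24597) (nat_lit 1) .nil)))))) (.g (nat_lit 1) (.e (nat_lit 260091) (nat_lit 0) .nil) .nil))))) (.nd (nat_lit 8) (.nd (nat_lit 9) 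
(.lf (nat_lit 535686) (.g (nat_lit 3131) (.e (nat_lit 57852) (nat_lit 252) (.e (nat_lit 57373) (nat_lit 2) (.e (nat_lit 90160) (nat_lit 11) (.e (nat_lit 24630) (nat_lit 9) (.e (nat_lit 336454) (nat_lit 34) (.e (nat_lit 483364) (nat_lit 18) .nil)))))) (.g (nat_lit 1) (.e (nat_lit 258638) (nat_lit 0) .nil) .nil))) 
(.lf (nat_lit 536198) (.g (nat_lit 1775) (.e (nat_lit 57927) (nat_lit 282) (.e (nat_lit 163869) (nat_lit 2) (.e (nat_lit 196664) (nat_lit 13) (.e (nat_lit 65571) (nat_lit 3) (.e (nat_lit 98341) (nat_lit 20) .nil))))) (.g (nat_lit 0) (.e (nat_lit 259853) (nat_lit 0) .nil) .nil)))) (.nd (nat_lit 9) 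
(.lf (nat_lit 535942) (.g (nat_lit 396) (.e (nat_lit 57878) (nat_lit 270) (.e (nat_lit 371) (nat_lit 32) (.e (nat_lit 426546) (nat_lit 30) .nil))) (.g (nat_lit 0) (.e (nat_lit 259078) (nat_lit 0) .nil) .nil))) 
(.lf (nat_lit 536454) (.g (nat_lit 2687) (.e (nat_lit 57929) (nat_lit 282) (.e (nat_lit 163923) (nat_lit 15) (.e (nat_lit 450587) (nat_lit 10) (.e (nat_lit 573444) (nat_lit 0) .nil)))) (.g (nat_lit 0) (.e (nat_lit 260397) (nat_lit 0) .nil) .nil)))))) (.nd (nat_lit 7) (.nd (nat_lit 8) (.nd (nat_lit 9) 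
(.lf (nat_lit 535622) (.g (nat_lit 360) (.e (nat_lit 57851) (nat_lit 252) (.e (nat_lit 57388) (nat_lit 5) (.e (nat_lit 122624) (nat_lit 16) .nil))) (.g (nat_lit 0) (.e (nat_lit 258555) (nat_lit 0) .nil) .nil))) 
(.lf (nat_lit 536134) (.g (nat_lit 641) (.e (nat_lit 57926) (nat_lit 282) (.e (nat_lit 163885) (nat_lit 5) (.e (nat_lit 221212) (nat_lit 22) .nil))) (.g (nat_lit 0) (.e (nat_lit 259681) (nat_lit 0) .nil) .nil)))) (.nd (nat_lit 9) 
(.lf (nat_lit 535878) (.g (nat_lit 4203) (.e (nat_lit 57854) (nat_lit 252) (.e (nat_lit 57409) (nat_lit 12) (.e (nat_lit 336326) (nat_lit 18) (.e (nat_lit 204869) (nat_lit 29) (.e (nat_lit 360450) (nat_lit 0) (.e (nat_lit 7695) (nat_lit 412) (.e (nat_lit 57365) (nat_lit 1) .nil))))))) (.g (nat_lit 1) (.e (nat_lit 258945) (nat_lit 0) .nil) .nil))) 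
(.lf (nat_lit 536390) (.g (nat_lit 1237) (.e (nat_lit 57928) (nat_lit 282) (.e (nat_lit 163875) (nat_lit 3) (.e (nat_lit 204861) (nat_lit 26) (.e (nat_lit 336213) (nat_lit 13) .nil)))) (.g (nat_lit 0) (.e (nat_lit 260286) (nat_lit 0) .nil) .nil))))) (.nd (nat_lit 8) (.nd (nat_lit 9) 
(.lf (nat_lit 535750) (.g (nat_lit 3821) (.e (nat_lit 57854) (nat_lit 252) (.e (nat_lit 57373) (nat_lit 2) (.e (nat_lit 90158) (nat_lit 11) (.e (nat_lit 24608) (nat_lit 3) (.e (nat_lit 98321) (nat_lit 17) (.e (nat_lit 3771) (nat_lit 229) (.e (nat_lit 794673) (nat_lit 23) (.e (nat_lit 204830) (nat_lit 18) .nil)))))))) (.g (nat_lit 1) (.e (nat_lit 258738) (nat_lit 0) .nil) .nil))) 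
(.lf (nat_lit 536262) (.g (nat_lit 1792) (.e (nat_lit 57927) (nat_lit 282) (.e (nat_lit 163874) (nat_lit 3) (.e (nat_lit 204863) (nat_lit 27) (.e (nat_lit 344118) (nat_lit 21) .nil)))) (.g (nat_lit 0) (.e (nat_lit 259984) (nat_lit 0) .nil) .nil)))) (.nd (nat_lit 9) 
(.lf (nat_lit 536006) (.g (nat_lit 2531) (.e (nat_lit 57883) (nat_lit 270) (.e (nat_lit 496) (nat_lit 39) (.e (nat_lit 483403) (nat_lit 26) (.e (nat_lit 385057) (nat_lit 22) (.e (nat_lit 499780) (nat_lit 1) (.e (nat_lit 57809) (nat_lit 246) .nil)))))) (.g (nat_lit 1) (.e (nat_lit 259279) (nat_lit 0) .nil) .nil))) 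
(.lf (nat_lit 536518) (.g (nat_lit 2375) (.e (nat_lit 57931) (nat_lit 282) (.e (nat_lit 163866) (nat_lit 2) (.e (nat_lit 196668) (nat_lit 14) (.e (nat_lit 73747) (nat_lit 3) (.e (nat_lit 516131) (nat_lit 3) (.e (nat_lit 221215) (nat_lit 23) (.e (nat_lit 204828) (nat_lit 18) .nil))))))) (.g (nat_lit 1) (.e (nat_lit 260583) (nat_lit 0) .nil) .nil))))))) 
(.nd (nat_lit 6) (.nd (nat_lit 7) (.nd (nat_lit 8) (.nd (nat_lit 9) 
(.lf (nat_lit 535590) (.g (nat_lit 329) (.e (nat_lit 57849) (nat_lit 252) (.e (nat_lit 57411) (nat_lit 12) (.e (nat_lit 336454) (nat_lit 34) .nil))) (.g (nat_lit 0) (.e (nat_lit 258515) (nat_lit 0) .nil) .nil))) 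
(.lf (nat_lit 536102) (.g (nat_lit 2010) (.e (nat_lit 57926) (nat_lit 282) (.e (nat_lit 163868) (nat_lit 2) (.e (nat_lit 196670) (nat_lit 14) (.e (nat_lit 73746) (nat_lit 3) (.e (nat_lit 516131) (nat_lit 3) .nil))))) (.g (nat_lit 0) (.e (nat_lit 259589) (nat_lit 0) .nil) .nil)))) (.nd (nat_lit 9) 
(.lf (nat_lit 535846) (.g (nat_lit 1695) (.e (nat_lit 57854) (nat_lit 252) (.e (nat_lit 57406) (nat_lit 12) (.e (nat_lit 336456) (nat_lit 34) (.e (nat_lit 483387) (nat_lit 23) (.e (nat_lit 336291) (nat_lit 15) .nil))))) (.g (nat_lit 0) (.e (nat_lit 258913) (nat_lit 0) .nil) .nil))) 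
(.lf (nat_lit 536358) (.g (nat_lit 3636) (.e (nat_lit 57927) (nat_lit 282) (.e (nat_lit 163933) (nat_lit 17) (.e (nat_lit 466977) (nat_lit 22) (.e (nat_lit 196656) (nat_lit 11) (.e (nat_lit 16407) (nat_lit 1) (.e (nat_lit 164325) (nat_lit 230) (.e (nat_lit 171776) (nat_lit 62) .nil))))))) (.g (nat_lit 1) (.e (nat_lit 260135) (nat_lit 0) .nil) .nil))))) (.nd (nat_lit 8) (.nd (nat_lit 9) 
(.lf (nat_lit 535718) (.g (nat_lit 3829) (.e (nat_lit 57853) (nat_lit 252) (.e (nat_lit 57371) (nat_lit 2) (.e (nat_lit 90160) (nat_lit 11) (.e (nat_lit 24627) (nat_lit 9) (.e (nat_lit 336454) (nat_lit 34) (.e (nat_lit 483365) (nat_lit 18) .nil)))))) (.g (nat_lit 1) (.e (nat_lit 258700) (nat_lit 0) .nil) .nil))) 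
(.lf (nat_lit 536230) (.g (nat_lit 1763) (.e (nat_lit 57927) (nat_lit 282) (.e (nat_lit 163871) (nat_lit 2) (.e (nat_lit 196672) (nat_lit 15) (.e (nat_lit 81927) (nat_lit 11) (.e (nat_lit 426500) (nat_lit 27) (.e (nat_lit 343808) (nat_lit 1) .nil)))))) (.g (nat_lit 1) (.e (nat_lit 259925) (nat_lit 0) .nil) .nil)))) (.nd (nat_lit 9) 
(.lf (nat_lit 535974) (.g (nat_lit 2408) (.e (nat_lit 57881) (nat_lit 270) (.e (nat_lit 496) (nat_lit 39) (.e (nat_lit 483383) (nat_lit 23) (.e (nat_lit 336320) (nat_lit 17) (.e (nat_lit 196698) (nat_lit 19) (.e (nat_lit 57816) (nat_lit 246) .nil)))))) (.g (nat_lit 1) (.e (nat_lit 259180) (nat_lit 0) .nil) .nil))) 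
(.lf (nat_lit 536486) (.g (nat_lit 2812) (.e (nat_lit 57930) (nat_lit 282) (.e (nat_lit 163869) (nat_lit 2) (.e (nat_lit 196666) (nat_lit 13) (.e (nat_lit 65571) (nat_lit 3) (.e (nat_lit 98342) (nat_lit 20) .nil))))) (.g (nat_lit 0) (.e (nat_lit 260503) (nat_lit 0) .nil) .nil)))))) (.nd (nat_lit 7) (.nd (nat_lit 8) (.nd (nat_lit 9) 
(.lf (nat_lit 535654) (.g (nat_lit 2196) (.e (nat_lit 57851) (nat_lit 252) (.e (nat_lit 57406) (nat_lit 12) (.e (nat_lit 336456) (nat_lit 34) (.e (nat_lit 483383) (nat_lit 23) (.e (nat_lit 336247) (nat_lit 15) (.e (nat_lit 3230) (nat_lit 197) (.e (nat_lit 532504) (nat_lit 1) .nil))))))) (.g (nat_lit 1) (.e (nat_lit 258604) (nat_lit 0) .nil) .nil))) 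
(.lf (nat_lit 536166) (.g (nat_lit 2426) (.e (nat_lit 57927) (nat_lit 282) (.e (nat_lit 163867) (nat_lit 2) (.e (nat_lit 196670) (nat_lit 14) (.e (nat_lit 73746) (nat_lit 3) (.e (nat_lit 516124) (nat_lit 2) .nil))))) (.g (nat_lit 0) (.e (nat_lit 259803) (nat_lit 0) .nil) .nil)))) (.nd (nat_lit 9) 
(.lf (nat_lit 535910) (.g (nat_lit 2070) (.e (nat_lit 57871) (nat_lit 264) (.e (nat_lit 1199) (nat_lit 88) (.e (nat_lit 65630) (nat_lit 14) (.e (nat_lit 401435) (nat_lit 9) (.e (nat_lit 426555) (nat_lit 32) .nil))))) (.g (nat_lit 0) (.e (nat_lit 259003) (nat_lit 0) .nil) .nil))) 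
(.lf (nat_lit 536422) (.g (nat_lit 1569) (.e (nat_lit 57929) (nat_lit 282) (.e (nat_lit 163874) (nat_lit 3) (.e (nat_lit 204864) (nat_lit 27) (.e (nat_lit 344130) (nat_lit 26) .nil)))) (.g (nat_lit 0) (.e (nat_lit 260346) (nat_lit 0) .nil) .nil))))) (.nd (nat_lit 8) (.nd (nat_lit 9) 
(.lf (nat_lit 535782) (.g (nat_lit 3101) (.e (nat_lit 57854) (nat_lit 252) (.e (nat_lit 57378) (nat_lit 3) (.e (nat_lit 98342) (nat_lit 20) (.e (nat_lit 221211) (nat_lit 22) (.e (nat_lit 196666) (nat_lit 13) (.e (nat_lit 65642) (nat_lit 15) (.e (nat_lit 3253) (nat_lit 197) (.e (nat_lit 532504) (nat_lit 1) .nil)))))))) (.g (nat_lit 1) (.e (nat_lit 258784) (nat_lit 0) .nil) .nil))) 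
(.lf (nat_lit 536294) (.g (nat_lit 1399) (.e (nat_lit 57927) (nat_lit 282) (.e (nat_lit 163875) (nat_lit 3) (.e (nat_lit 204877) (nat_lit 31) (.e (nat_lit 376840) (nat_lit 11) (.e (nat_lit 426520) (nat_lit 27) (.e (nat_lit 343808) (nat_lit 1) .nil)))))) (.g (nat_lit 1) (.e (nat_lit 260047) (nat_lit 0) .nil) .nil)))) (.nd (nat_lit 9) 
(.lf (nat_lit 536038) (.g (nat_lit 2146) (.e (nat_lit 57924) (nat_lit 282) (.e (nat_lit 163868) (nat_lit 2) (.e (nat_lit 196668) (nat_lit 14) (.e (nat_lit 73747) (nat_lit 3) (.e (nat_lit 516131) (nat_lit 3) .nil))))) (.g (nat_lit 0) (.e (nat_lit 259419) (nat_lit 0) .nil) .nil))) 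
(.lf (nat_lit 536550) (.g (nat_lit 2126) (.e (nat_lit 57931) (nat_lit 282) (.e (nat_lit 163869) (nat_lit 2) (.e (nat_lit 196666) (nat_lit 13) (.e (nat_lit 65571) (nat_lit 3) (.e (nat_lit 98341) (nat_lit 20) .nil))))) (.g (nat_lit 0) (.e (nat_lit 260639) (nat_lit 0) .nil) .nil)))))))) (.nd (nat_lit 5) (.nd (nat_lit 6) (.nd (nat_lit 7) (.nd (nat_lit 8) (.nd (nat_lit 9) 
(.lf (nat_lit 535574) (.g (nat_lit 1166) (.e (nat_lit 57849) (nat_lit 252) (.e (nat_lit 57388) (nat_lit 5) (.e (nat_lit 114698) (nat_lit 11) (.e (nat_lit 426325) (nat_lit 13) .nil)))) (.g (nat_lit 0) (.e (nat_lit 258483) (nat_lit 0) .nil) .nil))) 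
(.lf (nat_lit 536086) (.g (nat_lit 1637) (.e (nat_lit 57926) (nat_lit 282) (.e (nat_lit 163867) (nat_lit 2) (.e (nat_lit 196668) (nat_lit 14) (.e (nat_lit 73746) (nat_lit 3) .nil)))) (.g (nat_lit 0) (.e (nat_lit 259564) (nat_lit 0) .nil) .nil)))) (.nd (nat_lit 9) 
(.lf (nat_lit 535830) (.g (nat_lit 2901) (.e (nat_lit 57854) (nat_lit 252) (.e (nat_lit 57406) (nat_lit 12) (.e (nat_lit 336316) (nat_lit 17) (.e (nat_lit 196666) (nat_lit 13) (.e (nat_lit 65617) (nat_lit 10) (.e (nat_lit 344096) (nat_lit 18) (.e (nat_lit 7697) (nat_lit 412) (.e (nat_lit 57366) (nat_lit 1) .nil)))))))) (.g (nat_lit 1) (.e (nat_lit 258897) (nat_lit 0) .nil) .nil))) 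
(.lf (nat_lit 536342) (.g (nat_lit 732) (.e (nat_lit 57927) (nat_lit 282) (.e (nat_lit 163933) (nat_lit 17) (.e (nat_lit 466976) (nat_lit 22) .nil))) (.g (nat_lit 0) (.e (nat_lit 260119) (nat_lit 0) .nil) .nil))))) (.nd (nat_lit 8) (.nd (nat_lit 9) 
(.lf (nat_lit 535702) (.g (nat_lit 3989) (.e (nat_lit 57852) (nat_lit 252) (.e (nat_lit 57406) (nat_lit 12) (.e (nat_lit 336316) (nat_lit 17) (.e (nat_lit 196666) (nat_lit 13) (.e (nat_lit 65617) (nat_lit 10) (.e (nat_lit 344091) (nat_lit 18) (.e (nat_lit 7697) (nat_lit 412) (.e (nat_lit 57366) (nat_lit 1) .nil)))))))) (.g (nat_lit 1) (.e (nat_lit 258676) (nat_lit 0) .nil) .nil))) 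
(.lf (nat_lit 536214) (.g (nat_lit 1835) (.e (nat_lit 57927) (nat_lit 282) (.e (nat_lit 163870) (nat_lit 2) (.e (nat_lit 196666) (nat_lit 13) (.e (nat_lit 65569) (nat_lit 3) .nil)))) (.g (nat_lit 0) (.e (nat_lit 259884) (nat_lit 0) .nil) .nil)))) (.nd (nat_lit 9) 
(.lf (nat_lit 535958) (.g (nat_lit 2754) (.e (nat_lit 57879) (nat_lit 270) (.e (nat_lit 371) (nat_lit 32) (.e (nat_lit 426544) (nat_lit 30) (.e (nat_lit 360467) (nat_lit 3) (.e (nat_lit 516191) (nat_lit 17) (.e (nat_lit 6207) (nat_lit 333) .nil)))))) (.g (nat_lit 1) (.e (nat_lit 259116) (nat_lit 0) .nil) .nil))) 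
(.lf (nat_lit 536470) (.g (nat_lit 2891) (.e (nat_lit 57929) (nat_lit 282) (.e (nat_lit 163923) (nat_lit 15) (.e (nat_lit 450588) (nat_lit 10) (.e (nat_lit 573475) (nat_lit 12) (.e (nat_lit 57360) (nat_lit 0) .nil))))) (.g (nat_lit 0) (.e (nat_lit 260420) (nat_lit 0) .nil) .nil)))))) (.nd (nat_lit 7) (.nd (nat_lit 8) (.nd (nat_lit 9) 
(.lf (nat_lit 535638) (.g (nat_lit 2976) (.e (nat_lit 57851) (nat_lit 252) (.e (nat_lit 57406) (nat_lit 12) (.e (nat_lit 336316) (nat_lit 17) (.e (nat_lit 196666) (nat_lit 13) (.e (nat_lit 65617) (nat_lit 10) (.e (nat_lit 344096) (nat_lit 18) (.e (nat_lit 7695) (nat_lit 412) (.e (nat_lit 57366) (nat_lit 1) .nil)))))))) (.g (nat_lit 1) (.e (nat_lit 258588) (nat_lit 0) .nil) .nil))) 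
(.lf (nat_lit 536150) (.g (nat_lit 2068) (.e (nat_lit 57926) (nat_lit 282) (.e (nat_lit 163933) (nat_lit 17) (.e (nat_lit 466977) (nat_lit 22) (.e (nat_lit 196656) (nat_lit 11) (.e (nat_lit 24320) (nat_lit 15) .nil))))) (.g (nat_lit 0) (.e (nat_lit 259740) (nat_lit 0) .nil) .nil)))) (.nd (nat_lit 9) 
(.lf (nat_lit 535894) (.g (nat_lit 2324) (.e (nat_lit 57854) (nat_lit 252) (.e (nat_lit 57409) (nat_lit 12) (.e (nat_lit 336456) (nat_lit 34) (.e (nat_lit 483346) (nat_lit 17) (.e (nat_lit 6445) (nat_lit 343) .nil))))) (.g (nat_lit 0) (.e (nat_lit 258962) (nat_lit 0) .nil) .nil))) 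
(.lf (nat_lit 536406) (.g (nat_lit 1123) (.e (nat_lit 57929) (nat_lit 282) (.e (nat_lit 163869) (nat_lit 2) (.e (nat_lit 196668) (nat_lit 14) (.e (nat_lit 73747) (nat_lit 3) .nil)))) (.g (nat_lit 0) (.e (nat_lit 260322) (nat_lit 0) .nil) .nil))))) (.nd (nat_lit 8) (.nd (nat_lit 9) 
(.lf (nat_lit 535766) (.g (nat_lit 1148) (.e (nat_lit 57854) (nat_lit 252) (.e (nat_lit 57378) (nat_lit 3) (.e (nat_lit 98325) (nat_lit 17) .nil))) (.g (nat_lit 0) (.e (nat_lit 258766) (nat_lit 0) .nil) .nil))) 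
(.lf (nat_lit 536278) (.g (nat_lit 1244) (.e (nat_lit 57927) (nat_lit 282) (.e (nat_lit 163875) (nat_lit 3) (.e (nat_lit 204861) (nat_lit 26) (.e (nat_lit 336215) (nat_lit 13) .nil)))) (.g (nat_lit 0) (.e (nat_lit 260018) (nat_lit 0) .nil) .nil)))) (.nd (nat_lit 9) 
(.lf (nat_lit 536022) (.g (nat_lit 832) (.e (nat_lit 57924) (nat_lit 282) (.e (nat_lit 163867) (nat_lit 2) (.e (nat_lit 196667) (nat_lit 14) .nil))) (.g (nat_lit 0) (.e (nat_lit 259389) (nat_lit 0) .nil) .nil))) 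
(.lf (nat_lit 536534) (.g (nat_lit 4676) (.e (nat_lit 57931) (nat_lit 282) (.e (nat_lit 163867) (nat_lit 2) (.e (nat_lit 196670) (nat_lit 14) (.e (nat_lit 73746) (nat_lit 3) (.e (nat_lit 516129) (nat_lit 3) (.e (nat_lit 221214) (nat_lit 23) (.e (nat_lit 204830) (nat_lit 18) .nil))))))) (.g (nat_lit 1) (.e (nat_lit 260617) (nat_lit 0) .nil) .nil))))))) 
(.nd (nat_lit 6) (.nd (nat_lit 7) (.nd (nat_lit 8) (.nd (nat_lit 9) 
(.lf (nat_lit 535606) (.g (nat_lit 3218) (.e (nat_lit 57851) (nat_lit 252) (.e (nat_lit 57371) (nat_lit 2) (.e (nat_lit 90158) (nat_lit 11) (.e (nat_lit 24630) (nat_lit 9) (.e (nat_lit 336456) (nat_lit 34) (.e (nat_lit 483365) (nat_lit 18) .nil)))))) (.g (nat_lit 1) (.e (nat_lit 258532) (nat_lit 0) .nil) .nil))) 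
(.lf (nat_lit 536118) (.g (nat_lit 2543) (.e (nat_lit 57926) (nat_lit 282) (.e (nat_lit 163872) (nat_lit 3) (.e (nat_lit 204863) (nat_lit 27) (.e (nat_lit 344117) (nat_lit 21) (.e (nat_lit 516130) (nat_lit 3) (.e (nat_lit 221204) (nat_lit 20) (.e (nat_lit 3253) (nat_lit 197) (.e (nat_lit 532501) (nat_lit 1) .nil)))))))) (.g (nat_lit 1) (.e (nat_lit 259630) (nat_lit 0) .nil) .nil)))) 
(.nd (nat_lit 9) 
(.lf (nat_lit 535862) (.g (nat_lit 2401) (.e (nat_lit 57854) (nat_lit 252) (.e (nat_lit 57409) (nat_lit 12) (.e (nat_lit 336316) (nat_lit 17) (.e (nat_lit 196666) (nat_lit 13) (.e (nat_lit 65617) (nat_lit 10) (.e (nat_lit 344087) (nat_lit 18) (.e (nat_lit 7695) (nat_lit 412) (.e (nat_lit 57365) (nat_lit 1) .nil)))))))) (.g (nat_lit 1) (.e (nat_lit 258929) (nat_lit 0) .nil) .nil))) 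
(.lf (nat_lit 536374) (.g (nat_lit 4150) (.e (nat_lit 57927) (nat_lit 282) (.e (nat_lit 163943) (nat_lit 19) (.e (nat_lit 483413) (nat_lit 27) (.e (nat_lit 401414) (nat_lit 0) (.e (nat_lit 3297) (nat_lit 202) (.e (nat_lit 573481) (nat_lit 13) (.e (nat_lit 65563) (nat_lit 1) .nil))))))) (.g (nat_lit 1) (.e (nat_lit 260209) (nat_lit 0) .nil) .nil))))) (.nd (nat_lit 8) (.nd (nat_lit 9) 
(.lf (nat_lit 535734) (.g (nat_lit 644) (.e (nat_lit 57853) (nat_lit 252) (.e (nat_lit 57406) (nat_lit 12) (.e (nat_lit 336456) (nat_lit 34) .nil))) (.g (nat_lit 0) (.e (nat_lit 258718) (nat_lit 0) .nil) .nil))) 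
(.lf (nat_lit 536246) (.g (nat_lit 2741) (.e (nat_lit 57927) (nat_lit 282) (.e (nat_lit 163874) (nat_lit 3) (.e (nat_lit 204861) (nat_lit 26) (.e (nat_lit 336076) (nat_lit 9) (.e (nat_lit 336454) (nat_lit 34) (.e (nat_lit 483362) (nat_lit 18) .nil)))))) (.g (nat_lit 1) (.e (nat_lit 259968) (nat_lit 0) .nil) .nil)))) (.nd (nat_lit 9) 
(.lf (nat_lit 535990) (.g (nat_lit 1066) (.e (nat_lit 57883) (nat_lit 270) (.e (nat_lit 371) (nat_lit 32) (.e (nat_lit 426546) (nat_lit 30) (.e (nat_lit 360466) (nat_lit 3) (.e (nat_lit 516190) (nat_lit 17) .nil))))) (.g (nat_lit 0) (.e (nat_lit 259246) (nat_lit 0) .nil) .nil))) 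
(.lf (nat_lit 536502) (.g (nat_lit 2437) (.e (nat_lit 57930) (nat_lit 282) (.e (nat_lit 163902) (nat_lit 12) (.e (nat_lit 426555) (nat_lit 32) (.e (nat_lit 376865) (nat_lit 22) (.e (nat_lit 90160) (nat_lit 11) (.e (nat_lit 24599) (nat_lit 1) .nil)))))) (.g (nat_lit 1) (.e (nat_lit 260542) (nat_lit 0) .nil) .nil)))))) (.nd (nat_lit 7) (.nd (nat_lit 8) (.nd (nat_lit 9) 
(.lf (nat_lit 535670) (.g (nat_lit 1930) (.e (nat_lit 57851) (nat_lit 252) (.e (nat_lit 57406) (nat_lit 12) (.e (nat_lit 336456) (nat_lit 34) (.e (nat_lit 483386) (nat_lit 23) (.e (nat_lit 336282) (nat_lit 15) .nil))))) (.g (nat_lit 0) (.e (nat_lit 258620) (nat_lit 0) .nil) .nil))) 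
(.lf (nat_lit 536182) (.g (nat_lit 1993) (.e (nat_lit 57927) (nat_lit 282) (.e (nat_lit 163868) (nat_lit 2) (.e (nat_lit 196668) (nat_lit 14) (.e (nat_lit 73746) (nat_lit 3) (.e (nat_lit 516131) (nat_lit 3) .nil))))) (.g (nat_lit 0) (.e (nat_lit 259827) (nat_lit 0) .nil) .nil)))) (.nd (nat_lit 9) 
(.lf (nat_lit 535926) (.g (nat_lit 1676) (.e (nat_lit 57872) (nat_lit 264) (.e (nat_lit 1211) (nat_lit 89) (.e (nat_lit 73782) (nat_lit 32) (.e (nat_lit 2856) (nat_lit 184) (.e (nat_lit 426538) (nat_lit 29) .nil))))) (.g (nat_lit 0) (.e (nat_lit 259024) (nat_lit 0) .nil) .nil))) 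
(.lf (nat_lit 536438) (.g (nat_lit 2443) (.e (nat_lit 57929) (nat_lit 282) (.e (nat_lit 163905) (nat_lit 12) (.e (nat_lit 426555) (nat_lit 32) (.e (nat_lit 376862) (nat_lit 22) (.e (nat_lit 90158) (nat_lit 11) (.e (nat_lit 24598) (nat_lit 1) .nil)))))) (.g (nat_lit 1) (.e (nat_lit 260372) (nat_lit 0) .nil) .nil))))) (.nd (nat_lit 8) (.nd (nat_lit 9) 
(.lf (nat_lit 535798) (.g (nat_lit 4135) (.e (nat_lit 57854) (nat_lit 252) (.e (nat_lit 57389) (nat_lit 5) (.e (nat_lit 114698) (nat_lit 11) (.e (nat_lit 426200) (nat_lit 9) (.e (nat_lit 426555) (nat_lit 32) (.e (nat_lit 376859) (nat_lit 21) .nil)))))) (.g (nat_lit 1) (.e (nat_lit 258832) (nat_lit 0) .nil) .nil))) 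
(.lf (nat_lit 536310) (.g (nat_lit 605) (.e (nat_lit 57927) (nat_lit 282) (.e (nat_lit 163903) (nat_lit 12) (.e (nat_lit 426538) (nat_lit 29) .nil))) (.g (nat_lit 0) (.e (nat_lit 260074) (nat_lit 0) .nil) .nil)))) (.nd (nat_lit 9) 
(.lf (nat_lit 536054) (.g (nat_lit 1373) (.e (nat_lit 57924) (nat_lit 282) (.e (nat_lit 163903) (nat_lit 12) (.e (nat_lit 426555) (nat_lit 32) (.e (nat_lit 376862) (nat_lit 22) .nil)))) (.g (nat_lit 0) (.e (nat_lit 259454) (nat_lit 0) .nil) .nil))) 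
(.lf (nat_lit 536566) (.g (nat_lit 5451) (.e (nat_lit 57931) (nat_lit 282) (.e (nat_lit 163869) (nat_lit 2) (.e (nat_lit 196670) (nat_lit 14) (.e (nat_lit 73746) (nat_lit 3) (.e (nat_lit 516129) (nat_lit 3) (.e (nat_lit 221215) (nat_lit 23) (.e (nat_lit 204830) (nat_lit 18) .nil))))))) (.g (nat_lit 1) (.e (nat_lit 260673) (nat_lit 0) .nil) .nil))))))))) 
(.nd (nat_lit 4) (.nd (nat_lit 5) (.nd (nat_lit 6) (.nd (nat_lit 7) (.nd (nat_lit 8) 
(.nd (nat_lit 9) 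
(.lf (nat_lit 535566) (.g (nat_lit 798) (.e (nat_lit 57849) (nat_lit 252) (.e (nat_lit 57379) (nat_lit 3) (.e (nat_lit 98334) (nat_lit 18) .nil))) (.g (nat_lit 0) (.e (nat_lit 258469) (nat_lit 0) .nil) .nil))) 
(.lf (nat_lit 536078) (.g (nat_lit 2237) (.e (nat_lit 57925) (nat_lit 282) (.e (nat_lit 163871) (nat_lit 2) (.e (nat_lit 196668) (nat_lit 14) (.e (nat_lit 73747) (nat_lit 3) (.e (nat_lit 516130) (nat_lit 3) .nil))))) (.g (nat_lit 0) (.e (nat_lit 259529) (nat_lit 0) .nil) .nil)))) (.nd (nat_lit 9) 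
(.lf (nat_lit 535822) (.g (nat_lit 2671) (.e (nat_lit 57854) (nat_lit 252) (.e (nat_lit 57406) (nat_lit 12) (.e (nat_lit 336316) (nat_lit 17) (.e (nat_lit 196666) (nat_lit 13) (.e (nat_lit 65617) (nat_lit 10) (.e (nat_lit 344088) (nat_lit 18) (.e (nat_lit 7695) (nat_lit 412) (.e (nat_lit 57365) (nat_lit 1) .nil)))))))) (.g (nat_lit 1) (.e (nat_lit 258889) (nat_lit 0) .nil) .nil))) 
(.lf (nat_lit 536334) (.g (nat_lit 1891) (.e (nat_lit 57927) (nat_lit 282) (.e (nat_lit 163907) (nat_lit 12) (.e (nat_lit 426555) (nat_lit 32) (.e (nat_lit 376867) (nat_lit 23) (.e (nat_lit 98315) (nat_lit 9) (.e (nat_lit 343808) (nat_lit 1) .nil)))))) (.g (nat_lit 1) (.e (nat_lit 260101) (nat_lit 0) .nil) .nil))))) (.nd (nat_lit 8) (.nd (nat_lit 9) 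
(.lf (nat_lit 535694) (.g (nat_lit 1512) (.e (nat_lit 57852) (nat_lit 252) (.e (nat_lit 57404) (nat_lit 12) (.e (nat_lit 336454) (nat_lit 34) (.e (nat_lit 483408) (nat_lit 26) .nil)))) (.g (nat_lit 0) (.e (nat_lit 258663) (nat_lit 0) .nil) .nil))) 
(.lf (nat_lit 536206) (.g (nat_lit 1750) (.e (nat_lit 57927) (nat_lit 282) (.e (nat_lit 163869) (nat_lit 2) (.e (nat_lit 196668) (nat_lit 14) (.e (nat_lit 73748) (nat_lit 3) .nil)))) (.g (nat_lit 0) (.e (nat_lit 259872) (nat_lit 0) .nil) .nil)))) (.nd (nat_lit 9) 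
(.lf (nat_lit 535950) (.g (nat_lit 2274) (.e (nat_lit 57878) (nat_lit 270) (.e (nat_lit 496) (nat_lit 39) (.e (nat_lit 483383) (nat_lit 23) (.e (nat_lit 336320) (nat_lit 17) (.e (nat_lit 196698) (nat_lit 19) (.e (nat_lit 57816) (nat_lit 246) .nil)))))) (.g (nat_lit 1) (.e (nat_lit 259093) (nat_lit 0) .nil) .nil))) 
(.lf (nat_lit 536462) (.g (nat_lit 2495) (.e (nat_lit 57929) (nat_lit 282) (.e (nat_lit 163923) (nat_lit 15) (.e (nat_lit 450587) (nat_lit 10) (.e (nat_lit 573477) (nat_lit 12) (.e (nat_lit 57360) (nat_lit 0) .nil))))) (.g (nat_lit 0) (.e (nat_lit 260408) (nat_lit 0) .nil) .nil)))))) (.nd (nat_lit 7) (.nd (nat_lit 8) (.nd (nat_lit 9) 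
(.lf (nat_lit 535630) (.g (nat_lit 389) (.e (nat_lit 57851) (nat_lit 252) (.e (nat_lit 57389) (nat_lit 5) (.e (nat_lit 122624) (nat_lit 16) .nil))) (.g (nat_lit 0) (.e (nat_lit 258576) (nat_lit 0) .nil) .nil))) 
(.lf (nat_lit 536142) (.g (nat_lit 2376) (.e (nat_lit 57926) (nat_lit 282) (.e (nat_lit 163906) (nat_lit 12) (.e (nat_lit 426555) (nat_lit 32) (.e (nat_lit 376865) (nat_lit 22) (.e (nat_lit 90160) (nat_lit 11) (.e (nat_lit 24598) (nat_lit 1) .nil)))))) (.g (nat_lit 1) (.e (nat_lit 259709) (nat_lit 0) .nil) .nil)))) (.nd (nat_lit 9) 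
(.lf (nat_lit 535886) (.g (nat_lit 4098) (.e (nat_lit 57854) (nat_lit 252) (.e (nat_lit 57409) (nat_lit 12) (.e (nat_lit 336326) (nat_lit 18) (.e (nat_lit 204869) (nat_lit 29) (.e (nat_lit 360451) (nat_lit 0) (.e (nat_lit 7697) (nat_lit 412) (.e (nat_lit 57366) (nat_lit 1) .nil))))))) (.g (nat_lit 1) (.e (nat_lit 258953) (nat_lit 0) .nil) .nil))) 
(.lf (nat_lit 536398) (.g (nat_lit 1937) (.e (nat_lit 57929) (nat_lit 282) (.e (nat_lit 163867) (nat_lit 2) (.e (nat_lit 196668) (nat_lit 14) (.e (nat_lit 73747) (nat_lit 3) (.e (nat_lit 516131) (nat_lit 3) .nil))))) (.g (nat_lit 0) (.e (nat_lit 260306) (nat_lit 0) .nil) .nil))))) (.nd (nat_lit 8) (.nd (nat_lit 9) 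
(.lf (nat_lit 535758) (.g (nat_lit 2168) (.e (nat_lit 57854) (nat_lit 252) (.e (nat_lit 57377) (nat_lit 3) (.e (nat_lit 98313) (nat_lit 9) (.e (nat_lit 336027) (nat_lit 3) (.e (nat_lit 98321) (nat_lit 17) (.e (nat_lit 3771) (nat_lit 229) (.e (nat_lit 794673) (nat_lit 23) (.e (nat_lit 204830) (nat_lit 18) .nil)))))))) (.g (nat_lit 1) (.e (nat_lit 258755) (nat_lit 0) .nil) .nil))) 
(.lf (nat_lit 536270) (.g (nat_lit 1532) (.e (nat_lit 57927) (nat_lit 282) (.e (nat_lit 163875) (nat_lit 3) (.e (nat_lit 204859) (nat_lit 26) (.e (nat_lit 336116) (nat_lit 9) (.e (nat_lit 336453) (nat_lit 34) (.e (nat_lit 491264) (nat_lit 18) .nil)))))) (.g (nat_lit 1) (.e (nat_lit 260010) (nat_lit 0) .nil) .nil)))) (.nd (nat_lit 9) 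
(.lf (nat_lit 536014) (.g (nat_lit 3371) (.e (nat_lit 57890) (nat_lit 270) (.e (nat_lit 1234) (nat_lit 91) (.e (nat_lit 90170) (nat_lit 13) (.e (nat_lit 172106) (nat_lit 10) (.e (nat_lit 434231) (nat_lit 23) .nil))))) (.g (nat_lit 0) (.e (nat_lit 259297) (nat_lit 0) .nil) .nil))) 
(.lf (nat_lit 536526) (.g (nat_lit 1650) (.e (nat_lit 57931) (nat_lit 282) (.e (nat_lit 163867) (nat_lit 2) (.e (nat_lit 196668) (nat_lit 14) (.e (nat_lit 73746) (nat_lit 3) .nil)))) (.g (nat_lit 0) (.e (nat_lit 260602) (nat_lit 0) .nil) .nil))))))) (.nd (nat_lit 6) (.nd (nat_lit 7) (.nd (nat_lit 8) (.nd (nat_lit 9) 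
(.lf (nat_lit 535598) (.g (nat_lit 2408) (.e (nat_lit 57850) (nat_lit 252) (.e (nat_lit 57406) (nat_lit 12) (.e (nat_lit 336454) (nat_lit 34) (.e (nat_lit 483406) (nat_lit 26) .nil)))) (.g (nat_lit 0) (.e (nat_lit 258523) (nat_lit 0) .nil) .nil))) 
(.lf (nat_lit 536110) (.g (nat_lit 1938) (.e (nat_lit 57926) (nat_lit 282) (.e (nat_lit 163869) (nat_lit 2) (.e (nat_lit 196670) (nat_lit 14) (.e (nat_lit 73746) (nat_lit 3) (.e (nat_lit 516124) (nat_lit 2) .nil))))) (.g (nat_lit 0) (.e (nat_lit 259608) (nat_lit 0) .nil) .nil)))) (.nd (nat_lit 9) 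
(.lf (nat_lit 535854) (.g (nat_lit 3687) (.e (nat_lit 57854) (nat_lit 252) (.e (nat_lit 57409) (nat_lit 12) (.e (nat_lit 336316) (nat_lit 17) (.e (nat_lit 196666) (nat_lit 13) (.e (nat_lit 65610) (nat_lit 10) (.e (nat_lit 344088) (nat_lit 18) (.e (nat_lit 7695) (nat_lit 412) (.e (nat_lit 57366) (nat_lit 1) .nil)))))))) (.g (nat_lit 1) (.e (nat_lit 258921) (nat_lit 0) .nil) .nil))) 
(.lf (nat_lit 536366) (.g (nat_lit 1100) (.e (nat_lit 57927) (nat_lit 282) (.e (nat_lit 163943) (nat_lit 19) (.e (nat_lit 483342) (nat_lit 17) .nil))) (.g (nat_lit 0) (.e (nat_lit 260158) (nat_lit 0) .nil) .nil))))) (.nd (nat_lit 8) (.nd (nat_lit 9) 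
(.lf (nat_lit 535726) (.g (nat_lit 1406) (.e (nat_lit 57853) (nat_lit 252) (.e (nat_lit 57406) (nat_lit 12) (.e (nat_lit 336454) (nat_lit 34) (.e (nat_lit 483382) (nat_lit 23) .nil)))) (.g (nat_lit 0) (.e (nat_lit 258710) (nat_lit 0) .nil) .nil))) 
(.lf (nat_lit 536238) (.g (nat_lit 3879) (.e (nat_lit 57927) (nat_lit 282) (.e (nat_lit 163874) (nat_lit 3) (.e (nat_lit 204851) (nat_lit 26) (.e (nat_lit 336019) (nat_lit 3) (.e (nat_lit 98342) (nat_lit 20) (.e (nat_lit 221204) (nat_lit 20) (.e (nat_lit 3253) (nat_lit 197) (.e (nat_lit 532501) (nat_lit 1) .nil)))))))) (.g (nat_lit 1) (.e (nat_lit 259950) (nat_lit 0) .nil) .nil)))) 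
(.nd (nat_lit 9) 
(.lf (nat_lit 535982) (.g (nat_lit 2403) (.e (nat_lit 57883) (nat_lit 270) (.e (nat_lit 174) (nat_lit 12) (.e (nat_lit 204863) (nat_lit 27) (.e (nat_lit 344117) (nat_lit 21) (.e (nat_lit 516123) (nat_lit 2) (.e (nat_lit 213013) (nat_lit 9) (.e (nat_lit 2666) (nat_lit 167) (.e (nat_lit 196698) (nat_lit 19) .nil)))))))) (.g (nat_lit 1) (.e (nat_lit 259220) (nat_lit 0) .nil) .nil))) 
(.lf (nat_lit 536494) (.g (nat_lit 1185) (.e (nat_lit 57930) (nat_lit 282) (.e (nat_lit 163873) (nat_lit 3) (.e (nat_lit 204859) (nat_lit 26) (.e (nat_lit 336116) (nat_lit 9) .nil)))) (.g (nat_lit 0) (.e (nat_lit 260518) (nat_lit 0) .nil) .nil)))))) (.nd (nat_lit 7) (.nd (nat_lit 8) (.nd (nat_lit 9) 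
(.lf (nat_lit 535662) (.g (nat_lit 2184) (.e (nat_lit 57851) (nat_lit 252) (.e (nat_lit 57406) (nat_lit 12) (.e (nat_lit 336456) (nat_lit 34) (.e (nat_lit 483383) (nat_lit 23) (.e (nat_lit 336261) (nat_lit 15) (.e (nat_lit 3252) (nat_lit 197) (.e (nat_lit 532501) (nat_lit 1) .nil))))))) (.g (nat_lit 1) (.e (nat_lit 258612) (nat_lit 0) .nil) .nil))) 
(.lf (nat_lit 536174) (.g (nat_lit 2093) (.e (nat_lit 57927) (nat_lit 282) (.e (nat_lit 163868) (nat_lit 2) (.e (nat_lit 196664) (nat_lit 13) (.e (nat_lit 65571) (nat_lit 3) (.e (nat_lit 98341) (nat_lit 20) .nil))))) (.g (nat_lit 0) (.e (nat_lit 259818) (nat_lit 0) .nil) .nil)))) (.nd (nat_lit 9) 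
(.lf (nat_lit 535918) (.g (nat_lit 918) (.e (nat_lit 57872) (nat_lit 264) (.e (nat_lit 1209) (nat_lit 89) (.e (nat_lit 73781) (nat_lit 32) (.e (nat_lit 3090) (nat_lit 191) .nil)))) (.g (nat_lit 0) (.e (nat_lit 259016) (nat_lit 0) .nil) .nil))) 
(.lf (nat_lit 536430) (.g (nat_lit 2738) (.e (nat_lit 57929) (nat_lit 282) (.e (nat_lit 163874) (nat_lit 3) (.e (nat_lit 204876) (nat_lit 31) (.e (nat_lit 376842) (nat_lit 11) (.e (nat_lit 426500) (nat_lit 27) (.e (nat_lit 335995) (nat_lit 1) .nil)))))) (.g (nat_lit 1) (.e (nat_lit 260357) (nat_lit 0) .nil) .nil))))) (.nd (nat_lit 8) (.nd (nat_lit 9) 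
(.lf (nat_lit 535790) (.g (nat_lit 371) (.e (nat_lit 57854) (nat_lit 252) (.e (nat_lit 57389) (nat_lit 5) (.e (nat_lit 114695) (nat_lit 11) .nil))) (.g (nat_lit 0) (.e (nat_lit 258822) (nat_lit 0) .nil) .nil))) 
(.lf (nat_lit 536302) (.g (nat_lit 3942) (.e (nat_lit 57927) (nat_lit 282) (.e (nat_lit 163886) (nat_lit 5) (.e (nat_lit 221218) (nat_lit 24) (.e (nat_lit 213032) (nat_lit 11) (.e (nat_lit 24648) (nat_lit 12) (.e (nat_lit 385109) (nat_lit 51) (.e (nat_lit 802560) (nat_lit 1) .nil))))))) (.g (nat_lit 1) (.e (nat_lit 260059) (nat_lit 0) .nil) .nil)))) (.nd (nat_lit 9) 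
(.lf (nat_lit 536046) (.g (nat_lit 2274) (.e (nat_lit 57924) (nat_lit 282) (.e (nat_lit 163871) (nat_lit 2) (.e (nat_lit 196668) (nat_lit 14) (.e (nat_lit 73747) (nat_lit 3) (.e (nat_lit 516124) (nat_lit 2) .nil))))) (.g (nat_lit 0) (.e (nat_lit 259433) (nat_lit 0) .nil) .nil))) 
(.lf (nat_lit 536558) (.g (nat_lit 5713) (.e (nat_lit 57931) (nat_lit 282) (.e (nat_lit 163869) (nat_lit 2) (.e (nat_lit 196668) (nat_lit 14) (.e (nat_lit 73747) (nat_lit 3) (.e (nat_lit 516129) (nat_lit 3) (.e (nat_lit 221214) (nat_lit 23) (.e (nat_lit 204830) (nat_lit 18) .nil))))))) (.g (nat_lit 1) (.e (nat_lit 260657) (nat_lit 0) .nil) .nil)))))))) 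
(.nd (nat_lit 5) (.nd (nat_lit 6) (.nd (nat_lit 7) (.nd (nat_lit 8) (.nd (nat_lit 9) 
(.lf (nat_lit 535582) (.g (nat_lit 1194) (.e (nat_lit 57849) (nat_lit 252) (.e (nat_lit 57407) (nat_lit 12) (.e (nat_lit 336454) (nat_lit 34) (.e (nat_lit 483384) (nat_lit 23) .nil)))) (.g (nat_lit 0) (.e (nat_lit 258507) (nat_lit 0) .nil) .nil))) 
(.lf (nat_lit 536094) (.g (nat_lit 3461) (.e (nat_lit 57926) (nat_lit 282) (.e (nat_lit 163868) (nat_lit 2) (.e (nat_lit 196663) (nat_lit 13) (.e (nat_lit 65571) (nat_lit 3) (.e (nat_lit 98342) (nat_lit 20) (.e (nat_lit 221204) (nat_lit 20) (.e (nat_lit 3253) (nat_lit 197) (.e (nat_lit 532501) (nat_lit 1) .nil)))))))) (.g (nat_lit 1) (.e (nat_lit 259577) (nat_lit 0) .nil) .nil)))) 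
(.nd (nat_lit 9) 
(.lf (nat_lit 535838) (.g (nat_lit 2567) (.e (nat_lit 57854) (nat_lit 252) (.e (nat_lit 57406) (nat_lit 12) (.e (nat_lit 336456) (nat_lit 34) (.e (nat_lit 483346) (nat_lit 17) (.e (nat_lit 6445) (nat_lit 343) .nil))))) (.g (nat_lit 0) (.e (nat_lit 258905) (nat_lit 0) .nil) .nil))) 
(.lf (nat_lit 536350) (.g (nat_lit 3348) (.e (nat_lit 57927) (nat_lit 282) (.e (nat_lit 163933) (nat_lit 17) (.e (nat_lit 466977) (nat_lit 22) (.e (nat_lit 196654) (nat_lit 11) (.e (nat_lit 16407) (nat_lit 1) (.e (nat_lit 164325) (nat_lit 230) (.e (nat_lit 171776) (nat_lit 62) .nil))))))) (.g (nat_lit 1) (.e (nat_lit 260127) (nat_lit 0) .nil) .nil))))) (.nd (nat_lit 8) (.nd (nat_lit 9) 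
(.lf (nat_lit 535710) (.g (nat_lit 1591) (.e (nat_lit 57852) (nat_lit 252) (.e (nat_lit 57406) (nat_lit 12) (.e (nat_lit 336456) (nat_lit 34) (.e (nat_lit 483379) (nat_lit 23) .nil)))) (.g (nat_lit 0) (.e (nat_lit 258684) (nat_lit 0) .nil) .nil))) 
(.lf (nat_lit 536222) (.g (nat_lit 1169) (.e (nat_lit 57927) (nat_lit 282) (.e (nat_lit 163871) (nat_lit 2) (.e (nat_lit 196668) (nat_lit 14) (.e (nat_lit 73747) (nat_lit 3) .nil)))) (.g (nat_lit 0) (.e (nat_lit 259907) (nat_lit 0) .nil) .nil)))) (.nd (nat_lit 9) 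
(.lf (nat_lit 535966) (.g (nat_lit 1979) (.e (nat_lit 57881) (nat_lit 270) (.e (nat_lit 174) (nat_lit 12) (.e (nat_lit 204859) (nat_lit 26) (.e (nat_lit 336209) (nat_lit 13) (.e (nat_lit 393221) (nat_lit 0) (.e (nat_lit 6217) (nat_lit 333) .nil)))))) (.g (nat_lit 1) (.e (nat_lit 259155) (nat_lit 0) .nil) .nil))) 
(.lf (nat_lit 536478) (.g (nat_lit 1854) (.e (nat_lit 57930) (nat_lit 282) (.e (nat_lit 163867) (nat_lit 2) (.e (nat_lit 196668) (nat_lit 14) (.e (nat_lit 73747) (nat_lit 3) (.e (nat_lit 516129) (nat_lit 3) .nil))))) (.g (nat_lit 0) (.e (nat_lit 260491) (nat_lit 0) .nil) .nil)))))) (.nd (nat_lit 7) (.nd (nat_lit 8) (.nd (nat_lit 9) 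
(.lf (nat_lit 535646) (.g (nat_lit 1625) (.e (nat_lit 57851) (nat_lit 252) (.e (nat_lit 57406) (nat_lit 12) (.e (nat_lit 336456) (nat_lit 34) (.e (nat_lit 483365) (nat_lit 18) .nil)))) (.g (nat_lit 0) (.e (nat_lit 258596) (nat_lit 0) .nil) .nil))) 
(.lf (nat_lit 536158) (.g (nat_lit 1692) (.e (nat_lit 57927) (nat_lit 282) (.e (nat_lit 163866) (nat_lit 2) (.e (nat_lit 196670) (nat_lit 14) (.e (nat_lit 73746) (nat_lit 3) (.e (nat_lit 516124) (nat_lit 2) .nil))))) (.g (nat_lit 0) (.e (nat_lit 259790) (nat_lit 0) .nil) .nil)))) (.nd (nat_lit 9) 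
(.lf (nat_lit 535902) (.g (nat_lit 2083) (.e (nat_lit 57854) (nat_lit 252) (.e (nat_lit 57447) (nat_lit 19) (.e (nat_lit 393229) (nat_lit 9) (.e (nat_lit 336086) (nat_lit 9) (.e (nat_lit 336286) (nat_lit 15) .nil))))) (.g (nat_lit 0) (.e (nat_lit 258970) (nat_lit 0) .nil) .nil))) 
(.lf (nat_lit 536414) (.g (nat_lit 2896) (.e (nat_lit 57929) (nat_lit 282) (.e (nat_lit 163874) (nat_lit 3) (.e (nat_lit 204854) (nat_lit 26) (.e (nat_lit 336019) (nat_lit 3) (.e (nat_lit 98342) (nat_lit 20) (.e (nat_lit 221204) (nat_lit 20) (.e (nat_lit 3253) (nat_lit 197) (.e (nat_lit 532501) (nat_lit 1) .nil)))))))) (.g (nat_lit 1) (.e (nat_lit 260338) (nat_lit 0) .nil) .nil))))) 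
(.nd (nat_lit 8) (.nd (nat_lit 9) 
(.lf (nat_lit 535774) (.g (nat_lit 2993) (.e (nat_lit 57854) (nat_lit 252) (.e (nat_lit 57378) (nat_lit 3) (.e (nat_lit 98334) (nat_lit 18) (.e (nat_lit 164403) (nat_lit 256) (.e (nat_lit 57588) (nat_lit 73) (.e (nat_lit 426124) (nat_lit 2) (.e (nat_lit 196681) (nat_lit 17) (.e (nat_lit 131086) (nat_lit 1) .nil)))))))) (.g (nat_lit 1) (.e (nat_lit 258774) (nat_lit 0) .nil) .nil))) 
(.lf (nat_lit 536286) (.g (nat_lit 1750) (.e (nat_lit 57927) (nat_lit 282) (.e (nat_lit 163875) (nat_lit 3) (.e (nat_lit 204863) (nat_lit 27) (.e (nat_lit 344120) (nat_lit 21) .nil)))) (.g (nat_lit 0) (.e (nat_lit 260026) (nat_lit 0) .nil) .nil)))) (.nd (nat_lit 9) 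
(.lf (nat_lit 536030) (.g (nat_lit 2105) (.e (nat_lit 57924) (nat_lit 282) (.e (nat_lit 163867) (nat_lit 2) (.e (nat_lit 196670) (nat_lit 14) (.e (nat_lit 73746) (nat_lit 3) (.e (nat_lit 516127) (nat_lit 2) .nil))))) (.g (nat_lit 0) (.e (nat_lit 259408) (nat_lit 0) .nil) .nil))) 
(.lf (nat_lit 536542) (.g (nat_lit 4045) (.e (nat_lit 57931) (nat_lit 282) (.e (nat_lit 163869) (nat_lit 2) (.e (nat_lit 196663) (nat_lit 13) (.e (nat_lit 65571) (nat_lit 3) (.e (nat_lit 98341) (nat_lit 20) (.e (nat_lit 221204) (nat_lit 20) (.e (nat_lit 3253) (nat_lit 197) (.e (nat_lit 532503) (nat_lit 1) .nil)))))))) (.g (nat_lit 1) (.e (nat_lit 260629) (nat_lit 0) .nil) .nil))))))) 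
(.nd (nat_lit 6) (.nd (nat_lit 7) (.nd (nat_lit 8) (.nd (nat_lit 9) 
(.lf (nat_lit 535614) (.g (nat_lit 1886) (.e (nat_lit 57851) (nat_lit 252) (.e (nat_lit 57377) (nat_lit 3) (.e (nat_lit 98313) (nat_lit 9) (.e (nat_lit 336027) (nat_lit 3) (.e (nat_lit 98348) (nat_lit 23) .nil))))) (.g (nat_lit 0) (.e (nat_lit 258541) (nat_lit 0) .nil) .nil))) 
(.lf (nat_lit 536126) (.g (nat_lit 2137) (.e (nat_lit 57926) (nat_lit 282) (.e (nat_lit 163874) (nat_lit 3) (.e (nat_lit 204863) (nat_lit 27) (.e (nat_lit 344117) (nat_lit 21) (.e (nat_lit 516123) (nat_lit 2) .nil))))) (.g (nat_lit 0) (.e (nat_lit 259640) (nat_lit 0) .nil) .nil)))) (.nd (nat_lit 9) 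
(.lf (nat_lit 535870) (.g (nat_lit 3561) (.e (nat_lit 57854) (nat_lit 252) (.e (nat_lit 57409) (nat_lit 12) (.e (nat_lit 336316) (nat_lit 17) (.e (nat_lit 196666) (nat_lit 13) (.e (nat_lit 65617) (nat_lit 10) (.e (nat_lit 344091) (nat_lit 18) (.e (nat_lit 7695) (nat_lit 412) (.e (nat_lit 57364) (nat_lit 1) .nil)))))))) (.g (nat_lit 1) (.e (nat_lit 258937) (nat_lit 0) .nil) .nil))) 
(.lf (nat_lit 536382) (.g (nat_lit 2479) (.e (nat_lit 57928) (nat_lit 282) (.e (nat_lit 163869) (nat_lit 2) (.e (nat_lit 196666) (nat_lit 13) (.e (nat_lit 65569) (nat_lit 3) .nil)))) (.g (nat_lit 0) (.e (nat_lit 260253) (nat_lit 0) .nil) .nil))))) (.nd (nat_lit 8) (.nd (nat_lit 9) 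
(.lf (nat_lit 535742) (.g (nat_lit 1233) (.e (nat_lit 57854) (nat_lit 252) (.e (nat_lit 57371) (nat_lit 2) (.e (nat_lit 90133) (nat_lit 9) (.e (nat_lit 333) (nat_lit 26) .nil)))) (.g (nat_lit 0) (.e (nat_lit 258728) (nat_lit 0) .nil) .nil))) 
(.lf (nat_lit 536254) (.g (nat_lit 2221) (.e (nat_lit 57927) (nat_lit 282) (.e (nat_lit 163874) (nat_lit 3) (.e (nat_lit 204863) (nat_lit 27) (.e (nat_lit 344117) (nat_lit 21) (.e (nat_lit 516122) (nat_lit 2) .nil))))) (.g (nat_lit 0) (.e (nat_lit 259976) (nat_lit 0) .nil) .nil)))) (.nd (nat_lit 9) 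
(.lf (nat_lit 535998) (.g (nat_lit 1499) (.e (nat_lit 57883) (nat_lit 270) (.e (nat_lit 496) (nat_lit 39) (.e (nat_lit 483381) (nat_lit 23) (.e (nat_lit 336320) (nat_lit 17) (.e (nat_lit 196698) (nat_lit 19) (.e (nat_lit 57809) (nat_lit 246) .nil)))))) (.g (nat_lit 1) (.e (nat_lit 259265) (nat_lit 0) .nil) .nil))) 
(.lf (nat_lit 536510) (.g (nat_lit 3038) (.e (nat_lit 57930) (nat_lit 282) (.e (nat_lit 163923) (nat_lit 15) (.e (nat_lit 450588) (nat_lit 10) (.e (nat_lit 573475) (nat_lit 12) (.e (nat_lit 57360) (nat_lit 0) (.e (nat_lit 5947) (nat_lit 322) (.e (nat_lit 57389) (nat_lit 5) (.e (nat_lit 114712) (nat_lit 21) .nil)))))))) (.g (nat_lit 1) (.e (nat_lit 260557) (nat_lit 0) .nil) .nil)))))) 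
(.nd (nat_lit 7) (.nd (nat_lit 8) (.nd (nat_lit 9) 
(.lf (nat_lit 535678) (.g (nat_lit 3512) (.e (nat_lit 57852) (nat_lit 252) (.e (nat_lit 57371) (nat_lit 2) (.e (nat_lit 90160) (nat_lit 11) (.e (nat_lit 24627) (nat_lit 9) (.e (nat_lit 336454) (nat_lit 34) (.e (nat_lit 483364) (nat_lit 18) .nil)))))) (.g (nat_lit 1) (.e (nat_lit 258629) (nat_lit 0) .nil) .nil))) 
(.lf (nat_lit 536190) (.g (nat_lit 2650) (.e (nat_lit 57927) (nat_lit 282) (.e (nat_lit 163868) (nat_lit 2) (.e (nat_lit 196670) (nat_lit 14) (.e (nat_lit 73746) (nat_lit 3) (.e (nat_lit 516126) (nat_lit 2) (.e (nat_lit 220928) (nat_lit 13) (.e (nat_lit 229433) (nat_lit 25) (.e (nat_lit 532499) (nat_lit 1) .nil)))))))) (.g (nat_lit 1) (.e (nat_lit 259839) (nat_lit 0) .nil) .nil)))) 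
(.nd (nat_lit 9) 
(.lf (nat_lit 535934) (.g (nat_lit 2401) (.e (nat_lit 57873) (nat_lit 264) (.e (nat_lit 1209) (nat_lit 89) (.e (nat_lit 73781) (nat_lit 32) (.e (nat_lit 3090) (nat_lit 191) (.e (nat_lit 483389) (nat_lit 23) (.e (nat_lit 335991) (nat_lit 1) .nil)))))) (.g (nat_lit 1) (.e (nat_lit 259040) (nat_lit 0) .nil) .nil))) 
(.lf (nat_lit 536446) (.g (nat_lit 2109) (.e (nat_lit 57929) (nat_lit 282) (.e (nat_lit 163920) (nat_lit 14) (.e (nat_lit 442424) (nat_lit 22) (.e (nat_lit 196654) (nat_lit 11) .nil)))) (.g (nat_lit 0) (.e (nat_lit 260385) (nat_lit 0) .nil) .nil))))) (.nd (nat_lit 8) (.nd (nat_lit 9) 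
(.lf (nat_lit 535806) (.g (nat_lit 2000) (.e (nat_lit 57854) (nat_lit 252) (.e (nat_lit 57389) (nat_lit 5) (.e (nat_lit 114711) (nat_lit 21) (.e (nat_lit 57844) (nat_lit 252) (.e (nat_lit 65280) (nat_lit 66) .nil))))) (.g (nat_lit 0) (.e (nat_lit 258868) (nat_lit 0) .nil) .nil))) 
(.lf (nat_lit 536318) (.g (nat_lit 2030) (.e (nat_lit 57927) (nat_lit 282) (.e (nat_lit 163903) (nat_lit 12) (.e (nat_lit 426556) (nat_lit 32) (.e (nat_lit 376865) (nat_lit 22) (.e (nat_lit 90160) (nat_lit 11) (.e (nat_lit 24597) (nat_lit 1) .nil)))))) (.g (nat_lit 1) (.e (nat_lit 260082) (nat_lit 0) .nil) .nil)))) (.nd (nat_lit 9) 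
(.lf (nat_lit 536062) (.g (nat_lit 2043) (.e (nat_lit 57925) (nat_lit 282) (.e (nat_lit 163867) (nat_lit 2) (.e (nat_lit 196668) (nat_lit 14) (.e (nat_lit 73746) (nat_lit 3) (.e (nat_lit 516131) (nat_lit 3) .nil))))) (.g (nat_lit 0) (.e (nat_lit 259492) (nat_lit 0) .nil) .nil))) 
(.lf (nat_lit 536574) (.g (nat_lit 2073) (.e (nat_lit 57931) (nat_lit 282) (.e (nat_lit 163874) (nat_lit 3) (.e (nat_lit 204851) (nat_lit 26) (.e (nat_lit 336019) (nat_lit 3) (.e (nat_lit 98342) (nat_lit 20) .nil))))) (.g (nat_lit 0) (.e (nat_lit 260697) (nat_lit 0) .nil) .nil)))))))))))) 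
(.nd (nat_lit 1) (.nd (nat_lit 2) (.nd (nat_lit 3) (.nd (nat_lit 4) (.nd (nat_lit 5) 
(.nd (nat_lit 6) (.nd (nat_lit 7) (.nd (nat_lit 8) (.nd (nat_lit 9) 
(.lf (nat_lit 535553) (.g (nat_lit 2283) (.e (nat_lit 57849) (nat_lit 252) (.e (nat_lit 57375) (nat_lit 2) (.e (nat_lit 90158) (nat_lit 11) (.e (nat_lit 24630) (nat_lit 9) (.e (nat_lit 336456) (nat_lit 34) (.e (nat_lit 483362) (nat_lit 18) .nil)))))) (.g (nat_lit 1) (.e (nat_lit 258449) (nat_lit 0) .nil) .nil))) 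
(.lf (nat_lit 536065) (.g (nat_lit 2317) (.e (nat_lit 57925) (nat_lit 282) (.e (nat_lit 163867) (nat_lit 2) (.e (nat_lit 196670) (nat_lit 14) (.e (nat_lit 73746) (nat_lit 3) (.e (nat_lit 516127) (nat_lit 2) .nil))))) (.g (nat_lit 0) (.e (nat_lit 259501) (nat_lit 0) .nil) .nil)))) (.nd (nat_lit 9) 
(.lf (nat_lit 535809) (.g (nat_lit 1730) (.e (nat_lit 57854) (nat_lit 252) (.e (nat_lit 57389) (nat_lit 5) (.e (nat_lit 114712) (nat_lit 21) (.e (nat_lit 57853) (nat_lit 252) (.e (nat_lit 65280) (nat_lit 66) .nil))))) (.g (nat_lit 0) (.e (nat_lit 258875) (nat_lit 0) .nil) .nil))) 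
(.lf (nat_lit 536321) (.g (nat_lit 2752) (.e (nat_lit 57927) (nat_lit 282) (.e (nat_lit 163905) (nat_lit 12) (.e (nat_lit 426555) (nat_lit 32) (.e (nat_lit 376867) (nat_lit 23) (.e (nat_lit 98313) (nat_lit 9) (.e (nat_lit 335988) (nat_lit 1) .nil)))))) (.g (nat_lit 1) (.e (nat_lit 260086) (nat_lit 0) .nil) .nil))))) (.nd (nat_lit 8) (.nd (nat_lit 9) 
(.lf (nat_lit 535681) (.g (nat_lit 2535) (.e (nat_lit 57852) (nat_lit 252) (.e (nat_lit 57373) (nat_lit 2) (.e (nat_lit 90158) (nat_lit 11) (.e (nat_lit 24608) (nat_lit 3) (.e (nat_lit 98337) (nat_lit 19) .nil))))) (.g (nat_lit 0) (.e (nat_lit 258632) (nat_lit 0) .nil) .nil))) 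
(.lf (nat_lit 536193) (.g (nat_lit 3306) (.e (nat_lit 57927) (nat_lit 282) (.e (nat_lit 163868) (nat_lit 2) (.e (nat_lit 196670) (nat_lit 14) (.e (nat_lit 73746) (nat_lit 3) (.e (nat_lit 516131) (nat_lit 3) (.e (nat_lit 221215) (nat_lit 23) (.e (nat_lit 204828) (nat_lit 18) .nil))))))) (.g (nat_lit 1) (.e (nat_lit 259842) (nat_lit 0) .nil) .nil)))) (.nd (nat_lit 9) 
(.lf (nat_lit 535937) (.g (nat_lit 2324) (.e (nat_lit 57878) (nat_lit 270) (.e (nat_lit 371) (nat_lit 32) (.e (nat_lit 426542) (nat_lit 29) (.e (nat_lit 352313) (nat_lit 23) (.e (nat_lit 98309) (nat_lit 0) (.e (nat_lit 6209) (nat_lit 333) .nil)))))) (.g (nat_lit 1) (.e (nat_lit 259073) (nat_lit 0) .nil) .nil))) 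
(.lf (nat_lit 536449) (.g (nat_lit 912) (.e (nat_lit 57929) (nat_lit 282) (.e (nat_lit 163920) (nat_lit 14) (.e (nat_lit 442427) (nat_lit 23) .nil))) (.g (nat_lit 0) (.e (nat_lit 260389) (nat_lit 0) .nil) .nil)))))) (.nd (nat_lit 7) (.nd (nat_lit 8) (.nd (nat_lit 9) 
(.lf (nat_lit 535617) (.g (nat_lit 4475) (.e (nat_lit 57851) (nat_lit 252) (.e (nat_lit 57377) (nat_lit 3) (.e (nat_lit 98317) (nat_lit 9) (.e (nat_lit 336012) (nat_lit 2) .nil)))) (.g (nat_lit 0) (.e (nat_lit 258544) (nat_lit 0) .nil) .nil))) 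
(.lf (nat_lit 536129) (.g (nat_lit 1130) (.e (nat_lit 57926) (nat_lit 282) (.e (nat_lit 163874) (nat_lit 3) (.e (nat_lit 204882) (nat_lit 32) .nil))) (.g (nat_lit 0) (.e (nat_lit 259667) (nat_lit 0) .nil) .nil)))) (.nd (nat_lit 9) 
(.lf (nat_lit 535873) (.g (nat_lit 2514) (.e (nat_lit 57854) (nat_lit 252) (.e (nat_lit 57409) (nat_lit 12) (.e (nat_lit 336316) (nat_lit 17) (.e (nat_lit 196666) (nat_lit 13) (.e (nat_lit 65617) (nat_lit 10) (.e (nat_lit 344095) (nat_lit 18) (.e (nat_lit 7695) (nat_lit 412) (.e (nat_lit 57366) (nat_lit 1) .nil)))))))) (.g (nat_lit 1) (.e (nat_lit 258940) (nat_lit 0) .nil) .nil))) 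
(.lf (nat_lit 536385) (.g (nat_lit 1430) (.e (nat_lit 57928) (nat_lit 282) (.e (nat_lit 163871) (nat_lit 2) (.e (nat_lit 196668) (nat_lit 14) (.e (nat_lit 73746) (nat_lit 3) .nil)))) (.g (nat_lit 0) (.e (nat_lit 260262) (nat_lit 0) .nil) .nil))))) (.nd (nat_lit 8) (.nd (nat_lit 9) 
(.lf (nat_lit 535745) (.g (nat_lit 3947) (.e (nat_lit 57854) (nat_lit 252) (.e (nat_lit 57371) (nat_lit 2) (.e (nat_lit 90160) (nat_lit 11) (.e (nat_lit 24627) (nat_lit 9) (.e (nat_lit 336454) (nat_lit 34) (.e (nat_lit 483365) (nat_lit 18) .nil)))))) (.g (nat_lit 1) (.e (nat_lit 258732) (nat_lit 0) .nil) .nil))) 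
(.lf (nat_lit 536257) (.g (nat_lit 2914) (.e (nat_lit 57927) (nat_lit 282) (.e (nat_lit 163874) (nat_lit 3) (.e (nat_lit 204863) (nat_lit 27) (.e (nat_lit 344117) (nat_lit 21) (.e (nat_lit 516122) (nat_lit 2) (.e (nat_lit 213035) (nat_lit 12) (.e (nat_lit 163965) (nat_lit 25) (.e (nat_lit 532499) (nat_lit 1) .nil)))))))) (.g (nat_lit 1) (.e (nat_lit 259979) (nat_lit 0) .nil) .nil)))) 
(.nd (nat_lit 9) 
(.lf (nat_lit 536001) (.g (nat_lit 1453) (.e (nat_lit 57883) (nat_lit 270) (.e (nat_lit 496) (nat_lit 39) (.e (nat_lit 483382) (nat_lit 23) (.e (nat_lit 336316) (nat_lit 17) (.e (nat_lit 204544) (nat_lit 19) (.e (nat_lit 57811) (nat_lit 246) .nil)))))) (.g (nat_lit 1) (.e (nat_lit 259268) (nat_lit 0) .nil) .nil))) 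
(.lf (nat_lit 536513) (.g (nat_lit 2446) (.e (nat_lit 57931) (nat_lit 282) (.e (nat_lit 163866) (nat_lit 2) (.e (nat_lit 196666) (nat_lit 13) (.e (nat_lit 65571) (nat_lit 3) (.e (nat_lit 98342) (nat_lit 20) .nil))))) (.g (nat_lit 0) (.e (nat_lit 260575) (nat_lit 0) .nil) .nil))))))) (.nd (nat_lit 6) (.nd (nat_lit 7) (.nd (nat_lit 8) (.nd (nat_lit 9) 
(.lf (nat_lit 535585) (.g (nat_lit 2515) (.e (nat_lit 57849) (nat_lit 252) (.e (nat_lit 57407) (nat_lit 12) (.e (nat_lit 336456) (nat_lit 34) (.e (nat_lit 483346) (nat_lit 17) (.e (nat_lit 6445) (nat_lit 343) .nil))))) (.g (nat_lit 0) (.e (nat_lit 258510) (nat_lit 0) .nil) .nil))) 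
(.lf (nat_lit 536097) (.g (nat_lit 2081) (.e (nat_lit 57926) (nat_lit 282) (.e (nat_lit 163868) (nat_lit 2) (.e (nat_lit 196668) (nat_lit 14) (.e (nat_lit 73747) (nat_lit 3) (.e (nat_lit 516124) (nat_lit 2) .nil))))) (.g (nat_lit 0) (.e (nat_lit 259582) (nat_lit 0) .nil) .nil)))) (.nd (nat_lit 9) 
(.lf (nat_lit 535841) (.g (nat_lit 1397) (.e (nat_lit 57854) (nat_lit 252) (.e (nat_lit 57406) (nat_lit 12) (.e (nat_lit 336456) (nat_lit 34) (.e (nat_lit 483378) (nat_lit 23) .nil)))) (.g (nat_lit 0) (.e (nat_lit 258908) (nat_lit 0) .nil) .nil))) 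
(.lf (nat_lit 536353) (.g (nat_lit 1038) (.e (nat_lit 57927) (nat_lit 282) (.e (nat_lit 163933) (nat_lit 17) (.e (nat_lit 466977) (nat_lit 22) (.e (nat_lit 196656) (nat_lit 11) .nil)))) (.g (nat_lit 0) (.e (nat_lit 260130) (nat_lit 0) .nil) .nil))))) (.nd (nat_lit 8) (.nd (nat_lit 9) 
(.lf (nat_lit 535713) (.g (nat_lit 1647) (.e (nat_lit 57852) (nat_lit 252) (.e (nat_lit 57406) (nat_lit 12) (.e (nat_lit 336456) (nat_lit 34) (.e (nat_lit 483393) (nat_lit 23) .nil)))) (.g (nat_lit 0) (.e (nat_lit 258687) (nat_lit 0) .nil) .nil))) 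
(.lf (nat_lit 536225) (.g (nat_lit 1804) (.e (nat_lit 57927) (nat_lit 282) (.e (nat_lit 163871) (nat_lit 2) (.e (nat_lit 196668) (nat_lit 14) (.e (nat_lit 73747) (nat_lit 3) (.e (nat_lit 516131) (nat_lit 3) .nil))))) (.g (nat_lit 0) (.e (nat_lit 259914) (nat_lit 0) .nil) .nil)))) (.nd (nat_lit 9) 
(.lf (nat_lit 535969) (.g (nat_lit 2528) (.e (nat_lit 57881) (nat_lit 270) (.e (nat_lit 174) (nat_lit 12) (.e (nat_lit 204876) (nat_lit 31) (.e (nat_lit 376842) (nat_lit 11) (.e (nat_lit 426408) (nat_lit 15) (.e (nat_lit 6217) (nat_lit 333) .nil)))))) (.g (nat_lit 1) (.e (nat_lit 259162) (nat_lit 0) .nil) .nil))) 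
(.lf (nat_lit 536481) (.g (nat_lit 3379) (.e (nat_lit 57930) (nat_lit 282) (.e (nat_lit 163867) (nat_lit 2) (.e (nat_lit 196670) (nat_lit 14) (.e (nat_lit 73746) (nat_lit 3) (.e (nat_lit 516131) (nat_lit 3) (.e (nat_lit 221215) (nat_lit 23) (.e (nat_lit 204828) (nat_lit 18) .nil))))))) (.g (nat_lit 1) (.e (nat_lit 260497) (nat_lit 0) .nil) .nil)))))) 
(.nd (nat_lit 7) (.nd (nat_lit 8) (.nd (nat_lit 9) 
(.lf (nat_lit 535649) (.g (nat_lit 3779) (.e (nat_lit 57851) (nat_lit 252) (.e (nat_lit 57406) (nat_lit 12) (.e (nat_lit 336456) (nat_lit 34) (.e (nat_lit 483378) (nat_lit 23) (.e (nat_lit 336324) (nat_lit 18) (.e (nat_lit 204831) (nat_lit 18) .nil)))))) (.g (nat_lit 1) (.e (nat_lit 258599) (nat_lit 0) .nil) .nil))) 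
(.lf (nat_lit 536161) (.g (nat_lit 2535) (.e (nat_lit 57927) (nat_lit 282) (.e (nat_lit 163866) (nat_lit 2) (.e (nat_lit 196681) (nat_lit 17) (.e (nat_lit 131105) (nat_lit 9) (.e (nat_lit 336456) (nat_lit 34) (.e (nat_lit 483364) (nat_lit 18) .nil)))))) (.g (nat_lit 1) (.e (nat_lit 259795) (nat_lit 0) .nil) .nil)))) (.nd (nat_lit 9) 
(.lf (nat_lit 535905) (.g (nat_lit 2919) (.e (nat_lit 57861) (nat_lit 256) (.e (nat_lit 3090) (nat_lit 191) (.e (nat_lit 483372) (nat_lit 21) (.e (nat_lit 319534) (nat_lit 16) (.e (nat_lit 286728) (nat_lit 0) .nil))))) (.g (nat_lit 0) (.e (nat_lit 258979) (nat_lit 0) .nil) .nil))) 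
(.lf (nat_lit 536417) (.g (nat_lit 1467) (.e (nat_lit 57929) (nat_lit 282) (.e (nat_lit 163874) (nat_lit 3) (.e (nat_lit 204862) (nat_lit 27) (.e (nat_lit 344117) (nat_lit 21) .nil)))) (.g (nat_lit 0) (.e (nat_lit 260341) (nat_lit 0) .nil) .nil))))) (.nd (nat_lit 8) (.nd (nat_lit 9) 
(.lf (nat_lit 535777) (.g (nat_lit 1850) (.e (nat_lit 57854) (nat_lit 252) (.e (nat_lit 57378) (nat_lit 3) (.e (nat_lit 98335) (nat_lit 18) (.e (nat_lit 164401) (nat_lit 256) .nil)))) (.g (nat_lit 0) (.e (nat_lit 258777) (nat_lit 0) .nil) .nil))) 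
(.lf (nat_lit 536289) (.g (nat_lit 1298) (.e (nat_lit 57927) (nat_lit 282) (.e (nat_lit 163875) (nat_lit 3) (.e (nat_lit 204876) (nat_lit 31) (.e (nat_lit 376840) (nat_lit 11) (.e (nat_lit 426520) (nat_lit 27) (.e (nat_lit 343808) (nat_lit 1) .nil)))))) (.g (nat_lit 1) (.e (nat_lit 260042) (nat_lit 0) .nil) .nil)))) (.nd (nat_lit 9) 
(.lf (nat_lit 536033) (.g (nat_lit 2145) (.e (nat_lit 57924) (nat_lit 282) (.e (nat_lit 163868) (nat_lit 2) (.e (nat_lit 196668) (nat_lit 14) (.e (nat_lit 73746) (nat_lit 3) (.e (nat_lit 516129) (nat_lit 3) .nil))))) (.g (nat_lit 0) (.e (nat_lit 259414) (nat_lit 0) .nil) .nil))) 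
(.lf (nat_lit 536545) (.g (nat_lit 1982) (.e (nat_lit 57931) (nat_lit 282) (.e (nat_lit 163869) (nat_lit 2) (.e (nat_lit 196664) (nat_lit 13) (.e (nat_lit 65571) (nat_lit 3) (.e (nat_lit 98338) (nat_lit 19) .nil))))) (.g (nat_lit 0) (.e (nat_lit 260632) (nat_lit 0) .nil) .nil)))))))) (.nd (nat_lit 5) (.nd (nat_lit 6) (.nd (nat_lit 7) (.nd (nat_lit 8) (.nd (nat_lit 9) 
(.lf (nat_lit 535569) (.g (nat_lit 1916) (.e (nat_lit 57849) (nat_lit 252) (.e (nat_lit 57379) (nat_lit 3) (.e (nat_lit 98334) (nat_lit 18) (.e (nat_lit 164401) (nat_lit 256) .nil)))) (.g (nat_lit 0) (.e (nat_lit 258472) (nat_lit 0) .nil) .nil))) 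
(.lf (nat_lit 536081) (.g (nat_lit 3300) (.e (nat_lit 57925) (nat_lit 282) (.e (nat_lit 163875) (nat_lit 3) (.e (nat_lit 204862) (nat_lit 27) (.e (nat_lit 344117) (nat_lit 21) (.e (nat_lit 516099) (nat_lit 0) (.e (nat_lit 3771) (nat_lit 229) (.e (nat_lit 794673) (nat_lit 23) (.e (nat_lit 204830) (nat_lit 18) .nil)))))))) (.g (nat_lit 1) (.e (nat_lit 259545) (nat_lit 0) .nil) .nil)))) 
(.nd (nat_lit 9) 
(.lf (nat_lit 535825) (.g (nat_lit 2465) (.e (nat_lit 57854) (nat_lit 252) (.e (nat_lit 57406) (nat_lit 12) (.e (nat_lit 336316) (nat_lit 17) (.e (nat_lit 196666) (nat_lit 13) (.e (nat_lit 65617) (nat_lit 10) (.e (nat_lit 344089) (nat_lit 18) (.e (nat_lit 7694) (nat_lit 412) (.e (nat_lit 57368) (nat_lit 1) .nil)))))))) (.g (nat_lit 1) (.e (nat_lit 258892) (nat_lit 0) .nil) .nil))) 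
(.lf (nat_lit 536337) (.g (nat_lit 642) (.e (nat_lit 57927) (nat_lit 282) (.e (nat_lit 163933) (nat_lit 17) (.e (nat_lit 466971) (nat_lit 21) .nil))) (.g (nat_lit 0) (.e (nat_lit 260114) (nat_lit 0) .nil) .nil))))) (.nd (nat_lit 8) (.nd (nat_lit 9) 
(.lf (nat_lit 535697) (.g (nat_lit 3772) (.e (nat_lit 57852) (nat_lit 252) (.e (nat_lit 57406) (nat_lit 12) (.e (nat_lit 336316) (nat_lit 17) (.e (nat_lit 196666) (nat_lit 13) (.e (nat_lit 65610) (nat_lit 10) (.e (nat_lit 344090) (nat_lit 18) (.e (nat_lit 7697) (nat_lit 412) (.e (nat_lit 57364) (nat_lit 1) .nil)))))))) (.g (nat_lit 1) (.e (nat_lit 258671) (nat_lit 0) .nil) .nil))) 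
(.lf (nat_lit 536209) (.g (nat_lit 2092) (.e (nat_lit 57927) (nat_lit 282) (.e (nat_lit 163869) (nat_lit 2) (.e (nat_lit 196670) (nat_lit 14) (.e (nat_lit 73746) (nat_lit 3) (.e (nat_lit 516126) (nat_lit 2) .nil))))) (.g (nat_lit 0) (.e (nat_lit 259876) (nat_lit 0) .nil) .nil)))) (.nd (nat_lit 9) 
(.lf (nat_lit 535953) (.g (nat_lit 1221) (.e (nat_lit 57879) (nat_lit 270) (.e (nat_lit 162) (nat_lit 11) (.e (nat_lit 196670) (nat_lit 14) (.e (nat_lit 73792) (nat_lit 45) .nil)))) (.g (nat_lit 0) (.e (nat_lit 259106) (nat_lit 0) .nil) .nil))) 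
(.lf (nat_lit 536465) (.g (nat_lit 2218) (.e (nat_lit 57929) (nat_lit 282) (.e (nat_lit 163923) (nat_lit 15) (.e (nat_lit 450587) (nat_lit 10) (.e (nat_lit 573478) (nat_lit 12) (.e (nat_lit 57360) (nat_lit 0) .nil))))) (.g (nat_lit 0) (.e (nat_lit 260414) (nat_lit 0) .nil) .nil)))))) (.nd (nat_lit 7) (.nd (nat_lit 8) (.nd (nat_lit 9) 
(.lf (nat_lit 535633) (.g (nat_lit 3267) (.e (nat_lit 57851) (nat_lit 252) (.e (nat_lit 57406) (nat_lit 12) (.e (nat_lit 336316) (nat_lit 17) (.e (nat_lit 196666) (nat_lit 13) (.e (nat_lit 65610) (nat_lit 10) (.e (nat_lit 344090) (nat_lit 18) (.e (nat_lit 7695) (nat_lit 412) (.e (nat_lit 57368) (nat_lit 1) .nil)))))))) (.g (nat_lit 1) (.e (nat_lit 258583) (nat_lit 0) .nil) .nil))) 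
(.lf (nat_lit 536145) (.g (nat_lit 642) (.e (nat_lit 57926) (nat_lit 282) (.e (nat_lit 163933) (nat_lit 17) (.e (nat_lit 466971) (nat_lit 21) .nil))) (.g (nat_lit 0) (.e (nat_lit 259735) (nat_lit 0) .nil) .nil)))) (.nd (nat_lit 9) 
(.lf (nat_lit 535889) (.g (nat_lit 953) (.e (nat_lit 57854) (nat_lit 252) (.e (nat_lit 57409) (nat_lit 12) (.e (nat_lit 336367) (nat_lit 27) (.e (nat_lit 426530) (nat_lit 27) (.e (nat_lit 336118) (nat_lit 9) .nil))))) (.g (nat_lit 0) (.e (nat_lit 258956) (nat_lit 0) .nil) .nil))) 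
(.lf (nat_lit 536401) (.g (nat_lit 3183) (.e (nat_lit 57929) (nat_lit 282) (.e (nat_lit 163869) (nat_lit 2) (.e (nat_lit 196666) (nat_lit 13) (.e (nat_lit 65569) (nat_lit 3) (.e (nat_lit 98342) (nat_lit 20) (.e (nat_lit 221213) (nat_lit 23) (.e (nat_lit 204830) (nat_lit 18) .nil))))))) (.g (nat_lit 1) (.e (nat_lit 260311) (nat_lit 0) .nil) .nil))))) (.nd (nat_lit 8) (.nd (nat_lit 9) 
(.lf (nat_lit 535761) (.g (nat_lit 2348) (.e (nat_lit 57854) (nat_lit 252) (.e (nat_lit 57377) (nat_lit 3) (.e (nat_lit 98333) (nat_lit 18) (.e (nat_lit 164399) (nat_lit 256) (.e (nat_lit 57588) (nat_lit 73) .nil))))) (.g (nat_lit 0) (.e (nat_lit 258759) (nat_lit 0) .nil) .nil))) 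
(.lf (nat_lit 536273) (.g (nat_lit 2239) (.e (nat_lit 57927) (nat_lit 282) (.e (nat_lit 163875) (nat_lit 3) (.e (nat_lit 204861) (nat_lit 26) (.e (nat_lit 336076) (nat_lit 9) (.e (nat_lit 336366) (nat_lit 27) .nil))))) (.g (nat_lit 0) (.e (nat_lit 260013) (nat_lit 0) .nil) .nil)))) (.nd (nat_lit 9) 
(.lf (nat_lit 536017) (.g (nat_lit 2159) (.e (nat_lit 57902) (nat_lit 277) (.e (nat_lit 131140) (nat_lit 27) (.e (nat_lit 426343) (nat_lit 14) (.e (nat_lit 491552) (nat_lit 9) (.e (nat_lit 336248) (nat_lit 15) (.e (nat_lit 7081) (nat_lit 378) .nil)))))) (.g (nat_lit 1) (.e (nat_lit 259318) (nat_lit 0) .nil) .nil))) 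
(.lf (nat_lit 536529) (.g (nat_lit 1810) (.e (nat_lit 57931) (nat_lit 282) (.e (nat_lit 163867) (nat_lit 2) (.e (nat_lit 196668) (nat_lit 14) (.e (nat_lit 73747) (nat_lit 3) (.e (nat_lit 516129) (nat_lit 3) .nil))))) (.g (nat_lit 0) (.e (nat_lit 260608) (nat_lit 0) .nil) .nil))))))) (.nd (nat_lit 6) (.nd (nat_lit 7) (.nd (nat_lit 8) (.nd (nat_lit 9) 
(.lf (nat_lit 535601) (.g (nat_lit 4690) (.e (nat_lit 57851) (nat_lit 252) (.e (nat_lit 57354) (nat_lit 0) (.e (nat_lit 1855) (nat_lit 124) (.e (nat_lit 557105) (nat_lit 14) (.e (nat_lit 180252) (nat_lit 10) (.e (nat_lit 573482) (nat_lit 13) (.e (nat_lit 65637) (nat_lit 15) (.e (nat_lit 3253) (nat_lit 197) (.e (nat_lit 532504) (nat_lit 1) .nil))))))))) (.g (nat_lit 1) (.e (nat_lit 258526) (nat_lit 0) .nil) .nil))) 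
(.lf (nat_lit 536113) (.g (nat_lit 1080) (.e (nat_lit 57926) (nat_lit 282) (.e (nat_lit 163871) (nat_lit 2) (.e (nat_lit 196668) (nat_lit 14) (.e (nat_lit 73747) (nat_lit 3) .nil)))) (.g (nat_lit 0) (.e (nat_lit 259619) (nat_lit 0) .nil) .nil)))) (.nd (nat_lit 9) 
(.lf (nat_lit 535857) (.g (nat_lit 4097) (.e (nat_lit 57854) (nat_lit 252) (.e (nat_lit 57409) (nat_lit 12) (.e (nat_lit 336316) (nat_lit 17) (.e (nat_lit 196666) (nat_lit 13) (.e (nat_lit 65610) (nat_lit 10) (.e (nat_lit 344090) (nat_lit 18) (.e (nat_lit 7695) (nat_lit 412) (.e (nat_lit 57365) (nat_lit 1) .nil)))))))) (.g (nat_lit 1) (.e (nat_lit 258924) (nat_lit 0) .nil) .nil))) 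
(.lf (nat_lit 536369) (.g (nat_lit 2719) (.e (nat_lit 57927) (nat_lit 282) (.e (nat_lit 163943) (nat_lit 19) (.e (nat_lit 483346) (nat_lit 17) (.e (nat_lit 6712) (nat_lit 360) (.e (nat_lit 163978) (nat_lit 30) (.e (nat_lit 573485) (nat_lit 13) (.e (nat_lit 65563) (nat_lit 1) .nil))))))) (.g (nat_lit 1) (.e (nat_lit 260165) (nat_lit 0) .nil) .nil))))) (.nd (nat_lit 8) (.nd (nat_lit 9) 
(.lf (nat_lit 535729) (.g (nat_lit 2962) (.e (nat_lit 57853) (nat_lit 252) (.e (nat_lit 57406) (nat_lit 12) (.e (nat_lit 336454) (nat_lit 34) (.e (nat_lit 483385) (nat_lit 23) (.e (nat_lit 336324) (nat_lit 18) (.e (nat_lit 204831) (nat_lit 18) .nil)))))) (.g (nat_lit 1) (.e (nat_lit 258713) (nat_lit 0) .nil) .nil))) 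
(.lf (nat_lit 536241) (.g (nat_lit 1774) (.e (nat_lit 57927) (nat_lit 282) (.e (nat_lit 163874) (nat_lit 3) (.e (nat_lit 204855) (nat_lit 26) (.e (nat_lit 336020) (nat_lit 3) .nil)))) (.g (nat_lit 0) (.e (nat_lit 259963) (nat_lit 0) .nil) .nil)))) (.nd (nat_lit 9) 
(.lf (nat_lit 535985) (.g (nat_lit 2357) (.e (nat_lit 57883) (nat_lit 270) (.e (nat_lit 174) (nat_lit 12) (.e (nat_lit 204876) (nat_lit 31) (.e (nat_lit 376842) (nat_lit 11) (.e (nat_lit 426408) (nat_lit 15) (.e (nat_lit 6217) (nat_lit 333) .nil)))))) (.g (nat_lit 1) (.e (nat_lit 259234) (nat_lit 0) .nil) .nil))) 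
(.lf (nat_lit 536497) (.g (nat_lit 1863) (.e (nat_lit 57930) (nat_lit 282) (.e (nat_lit 163902) (nat_lit 12) (.e (nat_lit 426555) (nat_lit 32) (.e (nat_lit 376865) (nat_lit 22) (.e (nat_lit 90158) (nat_lit 11) (.e (nat_lit 24597) (nat_lit 1) .nil)))))) (.g (nat_lit 1) (.e (nat_lit 260537) (nat_lit 0) .nil) .nil)))))) (.nd (nat_lit 7) (.nd (nat_lit 8) (.nd (nat_lit 9) 
(.lf (nat_lit 535665) (.g (nat_lit 3101) (.e (nat_lit 57851) (nat_lit 252) (.e (nat_lit 57406) (nat_lit 12) (.e (nat_lit 336456) (nat_lit 34) (.e (nat_lit 483384) (nat_lit 23) (.e (nat_lit 336324) (nat_lit 18) (.e (nat_lit 204831) (nat_lit 18) .nil)))))) (.g (nat_lit 1) (.e (nat_lit 258615) (nat_lit 0) .nil) .nil))) 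
(.lf (nat_lit 536177) (.g (nat_lit 2899) (.e (nat_lit 57927) (nat_lit 282) (.e (nat_lit 163868) (nat_lit 2) (.e (nat_lit 196666) (nat_lit 13) (.e (nat_lit 65569) (nat_lit 3) (.e (nat_lit 98342) (nat_lit 20) .nil))))) (.g (nat_lit 0) (.e (nat_lit 259822) (nat_lit 0) .nil) .nil)))) (.nd (nat_lit 9) 
(.lf (nat_lit 535921) (.g (nat_lit 2638) (.e (nat_lit 57872) (nat_lit 264) (.e (nat_lit 1209) (nat_lit 89) (.e (nat_lit 73781) (nat_lit 32) (.e (nat_lit 3090) (nat_lit 191) (.e (nat_lit 483392) (nat_lit 23) (.e (nat_lit 335995) (nat_lit 1) .nil)))))) (.g (nat_lit 1) (.e (nat_lit 259019) (nat_lit 0) .nil) .nil))) 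
(.lf (nat_lit 536433) (.g (nat_lit 2229) (.e (nat_lit 57929) (nat_lit 282) (.e (nat_lit 163902) (nat_lit 12) (.e (nat_lit 426555) (nat_lit 32) (.e (nat_lit 376862) (nat_lit 22) (.e (nat_lit 90158) (nat_lit 11) (.e (nat_lit 24598) (nat_lit 1) .nil)))))) (.g (nat_lit 1) (.e (nat_lit 260366) (nat_lit 0) .nil) .nil))))) (.nd (nat_lit 8) (.nd (nat_lit 9) 
(.lf (nat_lit 535793) (.g (nat_lit 2654) (.e (nat_lit 57854) (nat_lit 252) (.e (nat_lit 57389) (nat_lit 5) (.e (nat_lit 114697) (nat_lit 11) (.e (nat_lit 426198) (nat_lit 9) (.e (nat_lit 426555) (nat_lit 32) (.e (nat_lit 376856) (nat_lit 21) .nil)))))) (.g (nat_lit 1) (.e (nat_lit 258825) (nat_lit 0) .nil) .nil))) 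
(.lf (nat_lit 536305) (.g (nat_lit 3500) (.e (nat_lit 57927) (nat_lit 282) (.e (nat_lit 163886) (nat_lit 5) (.e (nat_lit 221218) (nat_lit 24) (.e (nat_lit 213032) (nat_lit 11) (.e (nat_lit 24653) (nat_lit 12) (.e (nat_lit 385109) (nat_lit 51) (.e (nat_lit 802560) (nat_lit 1) .nil))))))) (.g (nat_lit 1) (.e (nat_lit 260062) (nat_lit 0) .nil) .nil)))) (.nd (nat_lit 9) 
(.lf (nat_lit 536049) (.g (nat_lit 1989) (.e (nat_lit 57924) (nat_lit 282) (.e (nat_lit 163871) (nat_lit 2) (.e (nat_lit 196668) (nat_lit 14) (.e (nat_lit 73747) (nat_lit 3) (.e (nat_lit 516131) (nat_lit 3) .nil))))) (.g (nat_lit 0) (.e (nat_lit 259436) (nat_lit 0) .nil) .nil))) 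
(.lf (nat_lit 536561) (.g (nat_lit 3389) (.e (nat_lit 57931) (nat_lit 282) (.e (nat_lit 163869) (nat_lit 2) (.e (nat_lit 196668) (nat_lit 14) (.e (nat_lit 73747) (nat_lit 3) (.e (nat_lit 516130) (nat_lit 3) (.e (nat_lit 221214) (nat_lit 23) (.e (nat_lit 204830) (nat_lit 18) .nil))))))) (.g (nat_lit 1) (.e (nat_lit 260660) (nat_lit 0) .nil) .nil))))))))) 
(.nd (nat_lit 4) (.nd (nat_lit 5) (.nd (nat_lit 6) (.nd (nat_lit 7) (.nd (nat_lit 8) 
(.nd (nat_lit 9) 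
(.lf (nat_lit 535561) (.g (nat_lit 731) (.e (nat_lit 57849) (nat_lit 252) (.e (nat_lit 57379) (nat_lit 3) (.e (nat_lit 98333) (nat_lit 18) .nil))) (.g (nat_lit 0) (.e (nat_lit 258463) (nat_lit 0) .nil) .nil))) 
(.lf (nat_lit 536073) (.g (nat_lit 1450) (.e (nat_lit 57925) (nat_lit 282) (.e (nat_lit 163871) (nat_lit 2) (.e (nat_lit 196668) (nat_lit 14) (.e (nat_lit 73746) (nat_lit 3) .nil)))) (.g (nat_lit 0) (.e (nat_lit 259520) (nat_lit 0) .nil) .nil)))) (.nd (nat_lit 9) 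
(.lf (nat_lit 535817) (.g (nat_lit 3707) (.e (nat_lit 57854) (nat_lit 252) (.e (nat_lit 57406) (nat_lit 12) (.e (nat_lit 336316) (nat_lit 17) (.e (nat_lit 196666) (nat_lit 13) (.e (nat_lit 65610) (nat_lit 10) (.e (nat_lit 344090) (nat_lit 18) (.e (nat_lit 7702) (nat_lit 413) (.e (nat_lit 122889) (nat_lit 1) .nil)))))))) (.g (nat_lit 1) (.e (nat_lit 258884) (nat_lit 0) .nil) .nil))) 
(.lf (nat_lit 536329) (.g (nat_lit 2555) (.e (nat_lit 57927) (nat_lit 282) (.e (nat_lit 163907) (nat_lit 12) (.e (nat_lit 426544) (nat_lit 30) (.e (nat_lit 360467) (nat_lit 3) (.e (nat_lit 516195) (nat_lit 26) (.e (nat_lit 343808) (nat_lit 1) .nil)))))) (.g (nat_lit 1) (.e (nat_lit 260094) (nat_lit 0) .nil) .nil))))) (.nd (nat_lit 8) (.nd (nat_lit 9) 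
(.lf (nat_lit 535689) (.g (nat_lit 4562) (.e (nat_lit 57852) (nat_lit 252) (.e (nat_lit 57377) (nat_lit 3) (.e (nat_lit 98317) (nat_lit 9) (.e (nat_lit 336011) (nat_lit 2) .nil)))) (.g (nat_lit 0) (.e (nat_lit 258641) (nat_lit 0) .nil) .nil))) 
(.lf (nat_lit 536201) (.g (nat_lit 1752) (.e (nat_lit 57927) (nat_lit 282) (.e (nat_lit 163869) (nat_lit 2) (.e (nat_lit 196668) (nat_lit 14) (.e (nat_lit 73746) (nat_lit 3) .nil)))) (.g (nat_lit 0) (.e (nat_lit 259863) (nat_lit 0) .nil) .nil)))) (.nd (nat_lit 9) 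
(.lf (nat_lit 535945) (.g (nat_lit 1987) (.e (nat_lit 57878) (nat_lit 270) (.e (nat_lit 496) (nat_lit 39) (.e (nat_lit 483380) (nat_lit 23) (.e (nat_lit 336316) (nat_lit 17) (.e (nat_lit 196698) (nat_lit 19) (.e (nat_lit 57816) (nat_lit 246) .nil)))))) (.g (nat_lit 1) (.e (nat_lit 259088) (nat_lit 0) .nil) .nil))) 
(.lf (nat_lit 536457) (.g (nat_lit 1542) (.e (nat_lit 57929) (nat_lit 282) (.e (nat_lit 163923) (nat_lit 15) (.e (nat_lit 450587) (nat_lit 10) (.e (nat_lit 573475) (nat_lit 12) .nil)))) (.g (nat_lit 0) (.e (nat_lit 260402) (nat_lit 0) .nil) .nil)))))) (.nd (nat_lit 7) (.nd (nat_lit 8) (.nd (nat_lit 9) 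
(.lf (nat_lit 535625) (.g (nat_lit 508) (.e (nat_lit 57851) (nat_lit 252) (.e (nat_lit 57389) (nat_lit 5) (.e (nat_lit 114698) (nat_lit 11) .nil))) (.g (nat_lit 0) (.e (nat_lit 258563) (nat_lit 0) .nil) .nil))) 
(.lf (nat_lit 536137) (.g (nat_lit 1385) (.e (nat_lit 57926) (nat_lit 282) (.e (nat_lit 163886) (nat_lit 5) (.e (nat_lit 221212) (nat_lit 22) (.e (nat_lit 196655) (nat_lit 11) (.e (nat_lit 16458) (nat_lit 12) .nil))))) (.g (nat_lit 0) (.e (nat_lit 259684) (nat_lit 0) .nil) .nil)))) (.nd (nat_lit 9) 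
(.lf (nat_lit 535881) (.g (nat_lit 4231) (.e (nat_lit 57854) (nat_lit 252) (.e (nat_lit 57409) (nat_lit 12) (.e (nat_lit 336326) (nat_lit 18) (.e (nat_lit 204869) (nat_lit 29) (.e (nat_lit 360450) (nat_lit 0) (.e (nat_lit 7697) (nat_lit 412) (.e (nat_lit 57366) (nat_lit 1) .nil))))))) (.g (nat_lit 1) (.e (nat_lit 258948) (nat_lit 0) .nil) .nil))) 
(.lf (nat_lit 536393) (.g (nat_lit 4456) (.e (nat_lit 57928) (nat_lit 282) (.e (nat_lit 163875) (nat_lit 3) (.e (nat_lit 204862) (nat_lit 27) (.e (nat_lit 344117) (nat_lit 21) (.e (nat_lit 516130) (nat_lit 3) (.e (nat_lit 221204) (nat_lit 20) (.e (nat_lit 3253) (nat_lit 197) (.e (nat_lit 532501) (nat_lit 1) .nil)))))))) (.g (nat_lit 1) (.e (nat_lit 260289) (nat_lit 0) .nil) .nil))))) 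
(.nd (nat_lit 8) (.nd (nat_lit 9) 
(.lf (nat_lit 535753) (.g (nat_lit 1892) (.e (nat_lit 57854) (nat_lit 252) (.e (nat_lit 57373) (nat_lit 2) (.e (nat_lit 90158) (nat_lit 11) (.e (nat_lit 24628) (nat_lit 9) (.e (nat_lit 336452) (nat_lit 34) .nil))))) (.g (nat_lit 0) (.e (nat_lit 258741) (nat_lit 0) .nil) .nil))) 
(.lf (nat_lit 536265) (.g (nat_lit 417) (.e (nat_lit 57927) (nat_lit 282) (.e (nat_lit 163874) (nat_lit 3) (.e (nat_lit 204877) (nat_lit 31) .nil))) (.g (nat_lit 0) (.e (nat_lit 259995) (nat_lit 0) .nil) .nil)))) (.nd (nat_lit 9) 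
(.lf (nat_lit 536009) (.g (nat_lit 1962) (.e (nat_lit 57883) (nat_lit 270) (.e (nat_lit 496) (nat_lit 39) (.e (nat_lit 483406) (nat_lit 26) (.e (nat_lit 385057) (nat_lit 22) (.e (nat_lit 499780) (nat_lit 1) (.e (nat_lit 57810) (nat_lit 246) .nil)))))) (.g (nat_lit 1) (.e (nat_lit 259283) (nat_lit 0) .nil) .nil))) 
(.lf (nat_lit 536521) (.g (nat_lit 3725) (.e (nat_lit 57931) (nat_lit 282) (.e (nat_lit 163867) (nat_lit 2) (.e (nat_lit 196663) (nat_lit 13) (.e (nat_lit 65571) (nat_lit 3) (.e (nat_lit 98342) (nat_lit 20) (.e (nat_lit 221204) (nat_lit 20) (.e (nat_lit 3253) (nat_lit 197) (.e (nat_lit 532504) (nat_lit 1) .nil)))))))) (.g (nat_lit 1) (.e (nat_lit 260590) (nat_lit 0) .nil) .nil))))))) 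
(.nd (nat_lit 6) (.nd (nat_lit 7) (.nd (nat_lit 8) (.nd (nat_lit 9) 
(.lf (nat_lit 535593) (.g (nat_lit 1781) (.e (nat_lit 57849) (nat_lit 252) (.e (nat_lit 57445) (nat_lit 19) (.e (nat_lit 393229) (nat_lit 9) (.e (nat_lit 336085) (nat_lit 9) (.e (nat_lit 343808) (nat_lit 18) .nil))))) (.g (nat_lit 0) (.e (nat_lit 258518) (nat_lit 0) .nil) .nil))) 
(.lf (nat_lit 536105) (.g (nat_lit 629) (.e (nat_lit 57926) (nat_lit 282) (.e (nat_lit 163869) (nat_lit 2) (.e (nat_lit 196663) (nat_lit 13) .nil))) (.g (nat_lit 0) (.e (nat_lit 259595) (nat_lit 0) .nil) .nil)))) (.nd (nat_lit 9) 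
(.lf (nat_lit 535849) (.g (nat_lit 3027) (.e (nat_lit 57854) (nat_lit 252) (.e (nat_lit 57409) (nat_lit 12) (.e (nat_lit 336019) (nat_lit 3) (.e (nat_lit 98384) (nat_lit 32) (.e (nat_lit 475163) (nat_lit 21) .nil))))) (.g (nat_lit 0) (.e (nat_lit 258916) (nat_lit 0) .nil) .nil))) 
(.lf (nat_lit 536361) (.g (nat_lit 2176) (.e (nat_lit 57927) (nat_lit 282) (.e (nat_lit 163933) (nat_lit 17) (.e (nat_lit 466977) (nat_lit 22) (.e (nat_lit 196656) (nat_lit 11) (.e (nat_lit 16475) (nat_lit 15) .nil))))) (.g (nat_lit 0) (.e (nat_lit 260138) (nat_lit 0) .nil) .nil))))) (.nd (nat_lit 8) (.nd (nat_lit 9) 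
(.lf (nat_lit 535721) (.g (nat_lit 3410) (.e (nat_lit 57853) (nat_lit 252) (.e (nat_lit 57377) (nat_lit 3) (.e (nat_lit 98317) (nat_lit 9) (.e (nat_lit 336074) (nat_lit 9) (.e (nat_lit 336454) (nat_lit 34) .nil))))) (.g (nat_lit 0) (.e (nat_lit 258703) (nat_lit 0) .nil) .nil))) 
(.lf (nat_lit 536233) (.g (nat_lit 901) (.e (nat_lit 57927) (nat_lit 282) (.e (nat_lit 163873) (nat_lit 3) (.e (nat_lit 204852) (nat_lit 26) .nil))) (.g (nat_lit 0) (.e (nat_lit 259936) (nat_lit 0) .nil) .nil)))) (.nd (nat_lit 9) 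
(.lf (nat_lit 535977) (.g (nat_lit 1206) (.e (nat_lit 57883) (nat_lit 270) (.e (nat_lit 162) (nat_lit 11) (.e (nat_lit 196670) (nat_lit 14) (.e (nat_lit 73792) (nat_lit 45) .nil)))) (.g (nat_lit 0) (.e (nat_lit 259203) (nat_lit 0) .nil) .nil))) 
(.lf (nat_lit 536489) (.g (nat_lit 1588) (.e (nat_lit 57930) (nat_lit 282) (.e (nat_lit 163869) (nat_lit 2) (.e (nat_lit 196668) (nat_lit 14) (.e (nat_lit 73747) (nat_lit 3) .nil)))) (.g (nat_lit 0) (.e (nat_lit 260509) (nat_lit 0) .nil) .nil)))))) (.nd (nat_lit 7) (.nd (nat_lit 8) (.nd (nat_lit 9) 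
(.lf (nat_lit 535657) (.g (nat_lit 2275) (.e (nat_lit 57851) (nat_lit 252) (.e (nat_lit 57406) (nat_lit 12) (.e (nat_lit 336456) (nat_lit 34) (.e (nat_lit 483383) (nat_lit 23) (.e (nat_lit 336258) (nat_lit 15) .nil))))) (.g (nat_lit 0) (.e (nat_lit 258607) (nat_lit 0) .nil) .nil))) 
(.lf (nat_lit 536169) (.g (nat_lit 409) (.e (nat_lit 57927) (nat_lit 282) (.e (nat_lit 163868) (nat_lit 2) (.e (nat_lit 196663) (nat_lit 13) .nil))) (.g (nat_lit 0) (.e (nat_lit 259808) (nat_lit 0) .nil) .nil)))) (.nd (nat_lit 9) 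
(.lf (nat_lit 535913) (.g (nat_lit 785) (.e (nat_lit 57871) (nat_lit 264) (.e (nat_lit 1211) (nat_lit 89) (.e (nat_lit 73782) (nat_lit 32) (.e (nat_lit 3089) (nat_lit 191) .nil)))) (.g (nat_lit 0) (.e (nat_lit 259006) (nat_lit 0) .nil) .nil))) 
(.lf (nat_lit 536425) (.g (nat_lit 2982) (.e (nat_lit 57929) (nat_lit 282) (.e (nat_lit 163874) (nat_lit 3) (.e (nat_lit 204865) (nat_lit 28) (.e (nat_lit 352277) (nat_lit 11) (.e (nat_lit 426500) (nat_lit 27) (.e (nat_lit 335996) (nat_lit 1) .nil)))))) (.g (nat_lit 1) (.e (nat_lit 260349) (nat_lit 0) .nil) .nil))))) (.nd (nat_lit 8) (.nd (nat_lit 9) 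
(.lf (nat_lit 535785) (.g (nat_lit 2422) (.e (nat_lit 57854) (nat_lit 252) (.e (nat_lit 57388) (nat_lit 5) (.e (nat_lit 114697) (nat_lit 11) (.e (nat_lit 426198) (nat_lit 9) (.e (nat_lit 426555) (nat_lit 32) (.e (nat_lit 376856) (nat_lit 21) .nil)))))) (.g (nat_lit 1) (.e (nat_lit 258788) (nat_lit 0) .nil) .nil))) 
(.lf (nat_lit 536297) (.g (nat_lit 701) (.e (nat_lit 57927) (nat_lit 282) (.e (nat_lit 163884) (nat_lit 5) (.e (nat_lit 221210) (nat_lit 22) .nil))) (.g (nat_lit 0) (.e (nat_lit 260054) (nat_lit 0) .nil) .nil)))) (.nd (nat_lit 9) 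
(.lf (nat_lit 536041) (.g (nat_lit 2637) (.e (nat_lit 57924) (nat_lit 282) (.e (nat_lit 163870) (nat_lit 2) (.e (nat_lit 196666) (nat_lit 13) (.e (nat_lit 65571) (nat_lit 3) (.e (nat_lit 98341) (nat_lit 20) .nil))))) (.g (nat_lit 0) (.e (nat_lit 259427) (nat_lit 0) .nil) .nil))) 
(.lf (nat_lit 536553) (.g (nat_lit 1792) (.e (nat_lit 57931) (nat_lit 282) (.e (nat_lit 163869) (nat_lit 2) (.e (nat_lit 196668) (nat_lit 14) (.e (nat_lit 73746) (nat_lit 3) .nil)))) (.g (nat_lit 0) (.e (nat_lit 260649) (nat_lit 0) .nil) .nil)))))))) (.nd (nat_lit 5) (.nd (nat_lit 6) (.nd (nat_lit 7) (.nd (nat_lit 8) (.nd (nat_lit 9) 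
(.lf (nat_lit 535577) (.g (nat_lit 2800) (.e (nat_lit 57849) (nat_lit 252) (.e (nat_lit 57390) (nat_lit 5) (.e (nat_lit 114698) (nat_lit 11) (.e (nat_lit 426334) (nat_lit 13) (.e (nat_lit 483383) (nat_lit 23) (.e (nat_lit 336000) (nat_lit 1) .nil)))))) (.g (nat_lit 1) (.e (nat_lit 258494) (nat_lit 0) .nil) .nil))) 
(.lf (nat_lit 536089) (.g (nat_lit 2334) (.e (nat_lit 57926) (nat_lit 282) (.e (nat_lit 163867) (nat_lit 2) (.e (nat_lit 196670) (nat_lit 14) (.e (nat_lit 73746) (nat_lit 3) (.e (nat_lit 516124) (nat_lit 2) .nil))))) (.g (nat_lit 0) (.e (nat_lit 259570) (nat_lit 0) .nil) .nil)))) (.nd (nat_lit 9) 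
(.lf (nat_lit 535833) (.g (nat_lit 1703) (.e (nat_lit 57854) (nat_lit 252) (.e (nat_lit 57406) (nat_lit 12) (.e (nat_lit 336454) (nat_lit 34) (.e (nat_lit 483385) (nat_lit 23) (.e (nat_lit 336260) (nat_lit 15) .nil))))) (.g (nat_lit 0) (.e (nat_lit 258900) (nat_lit 0) .nil) .nil))) 
(.lf (nat_lit 536345) (.g (nat_lit 2380) (.e (nat_lit 57927) (nat_lit 282) (.e (nat_lit 163933) (nat_lit 17) (.e (nat_lit 466977) (nat_lit 22) (.e (nat_lit 196624) (nat_lit 9) (.e (nat_lit 489) (nat_lit 38) (.e (nat_lit 475212) (nat_lit 42) (.e (nat_lit 720929) (nat_lit 21) .nil))))))) (.g (nat_lit 1) (.e (nat_lit 260122) (nat_lit 0) .nil) .nil))))) (.nd (nat_lit 8) (.nd (nat_lit 9) 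
(.lf (nat_lit 535705) (.g (nat_lit 295) (.e (nat_lit 57852) (nat_lit 252) (.e (nat_lit 57406) (nat_lit 12) (.e (nat_lit 336454) (nat_lit 34) .nil))) (.g (nat_lit 0) (.e (nat_lit 258679) (nat_lit 0) .nil) .nil))) 
(.lf (nat_lit 536217) (.g (nat_lit 2429) (.e (nat_lit 57927) (nat_lit 282) (.e (nat_lit 163870) (nat_lit 2) (.e (nat_lit 196666) (nat_lit 13) (.e (nat_lit 65571) (nat_lit 3) (.e (nat_lit 98341) (nat_lit 20) .nil))))) (.g (nat_lit 0) (.e (nat_lit 259889) (nat_lit 0) .nil) .nil)))) (.nd (nat_lit 9) 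
(.lf (nat_lit 535961) (.g (nat_lit 1406) (.e (nat_lit 57879) (nat_lit 270) (.e (nat_lit 496) (nat_lit 39) (.e (nat_lit 483381) (nat_lit 23) (.e (nat_lit 336320) (nat_lit 17) (.e (nat_lit 196698) (nat_lit 19) (.e (nat_lit 57809) (nat_lit 246) .nil)))))) (.g (nat_lit 1) (.e (nat_lit 259129) (nat_lit 0) .nil) .nil))) 
(.lf (nat_lit 536473) (.g (nat_lit 1313) (.e (nat_lit 57929) (nat_lit 282) (.e (nat_lit 163931) (nat_lit 17) (.e (nat_lit 466975) (nat_lit 22) (.e (nat_lit 196654) (nat_lit 11) (.e (nat_lit 24320) (nat_lit 20) .nil))))) (.g (nat_lit 0) (.e (nat_lit 260425) (nat_lit 0) .nil) .nil)))))) (.nd (nat_lit 7) (.nd (nat_lit 8) (.nd (nat_lit 9) 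
(.lf (nat_lit 535641) (.g (nat_lit 2839) (.e (nat_lit 57851) (nat_lit 252) (.e (nat_lit 57406) (nat_lit 12) (.e (nat_lit 336367) (nat_lit 27) (.e (nat_lit 426542) (nat_lit 29) (.e (nat_lit 352267) (nat_lit 0) (.e (nat_lit 3253) (nat_lit 197) (.e (nat_lit 532504) (nat_lit 1) .nil))))))) (.g (nat_lit 1) (.e (nat_lit 258591) (nat_lit 0) .nil) .nil))) 
(.lf (nat_lit 536153) (.g (nat_lit 1098) (.e (nat_lit 57926) (nat_lit 282) (.e (nat_lit 163943) (nat_lit 19) (.e (nat_lit 483405) (nat_lit 26) .nil))) (.g (nat_lit 0) (.e (nat_lit 259768) (nat_lit 0) .nil) .nil)))) (.nd (nat_lit 9) 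
(.lf (nat_lit 535897) (.g (nat_lit 1721) (.e (nat_lit 57854) (nat_lit 252) (.e (nat_lit 57445) (nat_lit 19) (.e (nat_lit 393229) (nat_lit 9) (.e (nat_lit 336086) (nat_lit 9) (.e (nat_lit 336285) (nat_lit 15) .nil))))) (.g (nat_lit 0) (.e (nat_lit 258965) (nat_lit 0) .nil) .nil))) 
(.lf (nat_lit 536409) (.g (nat_lit 1581) (.e (nat_lit 57929) (nat_lit 282) (.e (nat_lit 163869) (nat_lit 2) (.e (nat_lit 196668) (nat_lit 14) (.e (nat_lit 73747) (nat_lit 3) (.e (nat_lit 516131) (nat_lit 3) .nil))))) (.g (nat_lit 0) (.e (nat_lit 260327) (nat_lit 0) .nil) .nil))))) (.nd (nat_lit 8) (.nd (nat_lit 9) 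
(.lf (nat_lit 535769) (.g (nat_lit 2366) (.e (nat_lit 57854) (nat_lit 252) (.e (nat_lit 57378) (nat_lit 3) (.e (nat_lit 98333) (nat_lit 18) (.e (nat_lit 164398) (nat_lit 256) (.e (nat_lit 57588) (nat_lit 73) .nil))))) (.g (nat_lit 0) (.e (nat_lit 258769) (nat_lit 0) .nil) .nil))) 
(.lf (nat_lit 536281) (.g (nat_lit 3542) (.e (nat_lit 57927) (nat_lit 282) (.e (nat_lit 163875) (nat_lit 3) (.e (nat_lit 204862) (nat_lit 27) (.e (nat_lit 344117) (nat_lit 21) (.e (nat_lit 516106) (nat_lit 0) (.e (nat_lit 3721) (nat_lit 227) (.e (nat_lit 778474) (nat_lit 12) (.e (nat_lit 163963) (nat_lit 25) (.e (nat_lit 532499) (nat_lit 1) .nil))))))))) (.g (nat_lit 1) (.e (nat_lit 260021) (nat_lit 0) .nil) .nil)))) 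
(.nd (nat_lit 9) 
(.lf (nat_lit 536025) (.g (nat_lit 1904) (.e (nat_lit 57924) (nat_lit 282) (.e (nat_lit 163867) (nat_lit 2) (.e (nat_lit 196668) (nat_lit 14) (.e (nat_lit 73746) (nat_lit 3) (.e (nat_lit 516131) (nat_lit 3) .nil))))) (.g (nat_lit 0) (.e (nat_lit 259393) (nat_lit 0) .nil) .nil))) 
(.lf (nat_lit 536537) (.g (nat_lit 608) (.e (nat_lit 57931) (nat_lit 282) (.e (nat_lit 163867) (nat_lit 2) (.e (nat_lit 196679) (nat_lit 17) .nil))) (.g (nat_lit 0) (.e (nat_lit 260622) (nat_lit 0) .nil) .nil))))))) (.nd (nat_lit 6) (.nd (nat_lit 7) (.nd (nat_lit 8) (.nd (nat_lit 9) 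
(.lf (nat_lit 535609) (.g (nat_lit 2631) (.e (nat_lit 57851) (nat_lit 252) (.e (nat_lit 57371) (nat_lit 2) (.e (nat_lit 90160) (nat_lit 11) (.e (nat_lit 24608) (nat_lit 3) (.e (nat_lit 98337) (nat_lit 19) .nil))))) (.g (nat_lit 0) (.e (nat_lit 258536) (nat_lit 0) .nil) .nil))) 
(.lf (nat_lit 536121) (.g (nat_lit 1310) (.e (nat_lit 57926) (nat_lit 282) (.e (nat_lit 163874) (nat_lit 3) (.e (nat_lit 204855) (nat_lit 26) (.e (nat_lit 336212) (nat_lit 13) .nil)))) (.g (nat_lit 0) (.e (nat_lit 259635) (nat_lit 0) .nil) .nil)))) (.nd (nat_lit 9) 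
(.lf (nat_lit 535865) (.g (nat_lit 2945) (.e (nat_lit 57854) (nat_lit 252) (.e (nat_lit 57409) (nat_lit 12) (.e (nat_lit 336316) (nat_lit 17) (.e (nat_lit 196666) (nat_lit 13) (.e (nat_lit 65617) (nat_lit 10) (.e (nat_lit 344088) (nat_lit 18) (.e (nat_lit 7694) (nat_lit 412) (.e (nat_lit 57368) (nat_lit 1) .nil)))))))) (.g (nat_lit 1) (.e (nat_lit 258932) (nat_lit 0) .nil) .nil))) 
(.lf (nat_lit 536377) (.g (nat_lit 2003) (.e (nat_lit 57928) (nat_lit 282) (.e (nat_lit 163868) (nat_lit 2) (.e (nat_lit 196668) (nat_lit 14) (.e (nat_lit 73746) (nat_lit 3) (.e (nat_lit 516124) (nat_lit 2) .nil))))) (.g (nat_lit 0) (.e (nat_lit 260238) (nat_lit 0) .nil) .nil))))) (.nd (nat_lit 8) (.nd (nat_lit 9) 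
(.lf (nat_lit 535737) (.g (nat_lit 1761) (.e (nat_lit 57853) (nat_lit 252) (.e (nat_lit 57406) (nat_lit 12) (.e (nat_lit 336456) (nat_lit 34) (.e (nat_lit 483391) (nat_lit 23) .nil)))) (.g (nat_lit 0) (.e (nat_lit 258721) (nat_lit 0) .nil) .nil))) 
(.lf (nat_lit 536249) (.g (nat_lit 3711) (.e (nat_lit 57927) (nat_lit 282) (.e (nat_lit 163874) (nat_lit 3) (.e (nat_lit 204862) (nat_lit 27) (.e (nat_lit 344117) (nat_lit 21) (.e (nat_lit 516106) (nat_lit 0) (.e (nat_lit 3721) (nat_lit 227) (.e (nat_lit 778474) (nat_lit 12) (.e (nat_lit 163962) (nat_lit 25) (.e (nat_lit 532499) (nat_lit 1) .nil))))))))) (.g (nat_lit 1) (.e (nat_lit 259971) (nat_lit 0) .nil) .nil)))) 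
(.nd (nat_lit 9) 
(.lf (nat_lit 535993) (.g (nat_lit 1033) (.e (nat_lit 57883) (nat_lit 270) (.e (nat_lit 371) (nat_lit 32) (.e (nat_lit 426546) (nat_lit 30) (.e (nat_lit 360466) (nat_lit 3) (.e (nat_lit 516191) (nat_lit 17) .nil))))) (.g (nat_lit 0) (.e (nat_lit 259249) (nat_lit 0) .nil) .nil))) 
(.lf (nat_lit 536505) (.g (nat_lit 2804) (.e (nat_lit 57930) (nat_lit 282) (.e (nat_lit 163923) (nat_lit 15) (.e (nat_lit 450587) (nat_lit 10) (.e (nat_lit 573475) (nat_lit 12) (.e (nat_lit 57515) (nat_lit 42) .nil))))) (.g (nat_lit 0) (.e (nat_lit 260552) (nat_lit 0) .nil) .nil)))))) (.nd (nat_lit 7) (.nd (nat_lit 8) (.nd (nat_lit 9) 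
(.lf (nat_lit 535673) (.g (nat_lit 3972) (.e (nat_lit 57852) (nat_lit 252) (.e (nat_lit 57354) (nat_lit 0) (.e (nat_lit 1855) (nat_lit 124) (.e (nat_lit 557105) (nat_lit 14) (.e (nat_lit 180252) (nat_lit 10) (.e (nat_lit 573482) (nat_lit 13) (.e (nat_lit 65637) (nat_lit 15) (.e (nat_lit 3253) (nat_lit 197) (.e (nat_lit 532501) (nat_lit 1) .nil))))))))) (.g (nat_lit 1) (.e (nat_lit 258624) (nat_lit 0) .nil) .nil))) 
(.lf (nat_lit 536185) (.g (nat_lit 1940) (.e (nat_lit 57927) (nat_lit 282) (.e (nat_lit 163868) (nat_lit 2) (.e (nat_lit 196668) (nat_lit 14) (.e (nat_lit 73747) (nat_lit 3) (.e (nat_lit 516124) (nat_lit 2) .nil))))) (.g (nat_lit 0) (.e (nat_lit 259831) (nat_lit 0) .nil) .nil)))) (.nd (nat_lit 9) 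
(.lf (nat_lit 535929) (.g (nat_lit 1660) (.e (nat_lit 57872) (nat_lit 264) (.e (nat_lit 1211) (nat_lit 89) (.e (nat_lit 73782) (nat_lit 32) (.e (nat_lit 3090) (nat_lit 191) (.e (nat_lit 483393) (nat_lit 23) .nil))))) (.g (nat_lit 0) (.e (nat_lit 259027) (nat_lit 0) .nil) .nil))) 
(.lf (nat_lit 536441) (.g (nat_lit 2652) (.e (nat_lit 57929) (nat_lit 282) (.e (nat_lit 163905) (nat_lit 12) (.e (nat_lit 426555) (nat_lit 32) (.e (nat_lit 376865) (nat_lit 22) (.e (nat_lit 90160) (nat_lit 11) (.e (nat_lit 24599) (nat_lit 1) .nil)))))) (.g (nat_lit 1) (.e (nat_lit 260375) (nat_lit 0) .nil) .nil))))) (.nd (nat_lit 8) (.nd (nat_lit 9) 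
(.lf (nat_lit 535801) (.g (nat_lit 326) (.e (nat_lit 57854) (nat_lit 252) (.e (nat_lit 57389) (nat_lit 5) (.e (nat_lit 122624) (nat_lit 13) .nil))) (.g (nat_lit 0) (.e (nat_lit 258859) (nat_lit 0) .nil) .nil))) 
(.lf (nat_lit 536313) (.g (nat_lit 850) (.e (nat_lit 57927) (nat_lit 282) (.e (nat_lit 163903) (nat_lit 12) (.e (nat_lit 426546) (nat_lit 30) .nil))) (.g (nat_lit 0) (.e (nat_lit 260077) (nat_lit 0) .nil) .nil)))) (.nd (nat_lit 9) 
(.lf (nat_lit 536057) (.g (nat_lit 3543) (.e (nat_lit 57924) (nat_lit 282) (.e (nat_lit 163923) (nat_lit 15) (.e (nat_lit 450587) (nat_lit 10) (.e (nat_lit 573475) (nat_lit 12) (.e (nat_lit 57360) (nat_lit 0) .nil))))) (.g (nat_lit 0) (.e (nat_lit 259461) (nat_lit 0) .nil) .nil))) 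
(.lf (nat_lit 536569) (.g (nat_lit 331) (.e (nat_lit 57931) (nat_lit 282) (.e (nat_lit 163869) (nat_lit 2) (.e (nat_lit 196674) (nat_lit 15) .nil))) (.g (nat_lit 0) (.e (nat_lit 260680) (nat_lit 0) .nil) .nil)))))))))) (.nd (nat_lit 3) (.nd (nat_lit 4) (.nd (nat_lit 5) (.nd (nat_lit 6) (.nd (nat_lit 7) (.nd (nat_lit 8) (.nd (nat_lit 9) 
(.lf (nat_lit 535557) (.g (nat_lit 3754) (.e (nat_lit 57849) (nat_lit 252) (.e (nat_lit 57377) (nat_lit 3) (.e (nat_lit 98317) (nat_lit 9) (.e (nat_lit 335995) (nat_lit 1) .nil)))) (.g (nat_lit 0) (.e (nat_lit 258459) (nat_lit 0) .nil) .nil))) 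
(.lf (nat_lit 536069) (.g (nat_lit 2273) (.e (nat_lit 57925) (nat_lit 282) (.e (nat_lit 163868) (nat_lit 2) (.e (nat_lit 196668) (nat_lit 14) (.e (nat_lit 73747) (nat_lit 3) (.e (nat_lit 516131) (nat_lit 3) .nil))))) (.g (nat_lit 0) (.e (nat_lit 259510) (nat_lit 0) .nil) .nil)))) (.nd (nat_lit 9) 
(.lf (nat_lit 535813) (.g (nat_lit 3329) (.e (nat_lit 57854) (nat_lit 252) (.e (nat_lit 57406) (nat_lit 12) (.e (nat_lit 336316) (nat_lit 17) (.e (nat_lit 196666) (nat_lit 13) (.e (nat_lit 65610) (nat_lit 10) (.e (nat_lit 344089) (nat_lit 18) (.e (nat_lit 7693) (nat_lit 412) (.e (nat_lit 57368) (nat_lit 1) .nil)))))))) (.g (nat_lit 1) (.e (nat_lit 258880) (nat_lit 0) .nil) .nil))) 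
(.lf (nat_lit 536325) (.g (nat_lit 2492) (.e (nat_lit 57927) (nat_lit 282) (.e (nat_lit 163906) (nat_lit 12) (.e (nat_lit 426555) (nat_lit 32) (.e (nat_lit 376862) (nat_lit 22) (.e (nat_lit 90160) (nat_lit 11) (.e (nat_lit 24598) (nat_lit 1) .nil)))))) (.g (nat_lit 1) (.e (nat_lit 260090) (nat_lit 0) .nil) .nil))))) (.nd (nat_lit 8) (.nd (nat_lit 9) 
(.lf (nat_lit 535685) (.g (nat_lit 2525) (.e (nat_lit 57852) (nat_lit 252) (.e (nat_lit 57373) (nat_lit 2) (.e (nat_lit 90160) (nat_lit 11) (.e (nat_lit 24628) (nat_lit 9) (.e (nat_lit 336454) (nat_lit 34) (.e (nat_lit 483364) (nat_lit 18) .nil)))))) (.g (nat_lit 1) (.e (nat_lit 258637) (nat_lit 0) .nil) .nil))) 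
(.lf (nat_lit 536197) (.g (nat_lit 1946) (.e (nat_lit 57927) (nat_lit 282) (.e (nat_lit 163869) (nat_lit 2) (.e (nat_lit 196664) (nat_lit 13) (.e (nat_lit 65571) (nat_lit 3) (.e (nat_lit 98338) (nat_lit 19) .nil))))) (.g (nat_lit 0) (.e (nat_lit 259852) (nat_lit 0) .nil) .nil)))) (.nd (nat_lit 9) 
(.lf (nat_lit 535941) (.g (nat_lit 2670) (.e (nat_lit 57878) (nat_lit 270) (.e (nat_lit 371) (nat_lit 32) (.e (nat_lit 426544) (nat_lit 30) (.e (nat_lit 360467) (nat_lit 3) (.e (nat_lit 516191) (nat_lit 17) (.e (nat_lit 6209) (nat_lit 333) .nil)))))) (.g (nat_lit 1) (.e (nat_lit 259077) (nat_lit 0) .nil) .nil))) 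
(.lf (nat_lit 536453) (.g (nat_lit 2304) (.e (nat_lit 57929) (nat_lit 282) (.e (nat_lit 163923) (nat_lit 15) (.e (nat_lit 450587) (nat_lit 10) (.e (nat_lit 573443) (nat_lit 0) .nil)))) (.g (nat_lit 0) (.e (nat_lit 260396) (nat_lit 0) .nil) .nil)))))) (.nd (nat_lit 7) (.nd (nat_lit 8) (.nd (nat_lit 9) 
(.lf (nat_lit 535621) (.g (nat_lit 360) (.e (nat_lit 57851) (nat_lit 252) (.e (nat_lit 57388) (nat_lit 5) (.e (nat_lit 122624) (nat_lit 13) .nil))) (.g (nat_lit 0) (.e (nat_lit 258554) (nat_lit 0) .nil) .nil))) 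
(.lf (nat_lit 536133) (.g (nat_lit 701) (.e (nat_lit 57926) (nat_lit 282) (.e (nat_lit 163884) (nat_lit 5) (.e (nat_lit 221210) (nat_lit 22) .nil))) (.g (nat_lit 0) (.e (nat_lit 259680) (nat_lit 0) .nil) .nil)))) (.nd (nat_lit 9) 
(.lf (nat_lit 535877) (.g (nat_lit 2492) (.e (nat_lit 57854) (nat_lit 252) (.e (nat_lit 57409) (nat_lit 12) (.e (nat_lit 336326) (nat_lit 18) (.e (nat_lit 204869) (nat_lit 29) (.e (nat_lit 360448) (nat_lit 0) (.e (nat_lit 7695) (nat_lit 412) (.e (nat_lit 57366) (nat_lit 1) .nil))))))) (.g (nat_lit 1) (.e (nat_lit 258944) (nat_lit 0) .nil) .nil))) 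
(.lf (nat_lit 536389) (.g (nat_lit 2011) (.e (nat_lit 57928) (nat_lit 282) (.e (nat_lit 163871) (nat_lit 2) (.e (nat_lit 196670) (nat_lit 14) (.e (nat_lit 73746) (nat_lit 3) (.e (nat_lit 516129) (nat_lit 3) .nil))))) (.g (nat_lit 0) (.e (nat_lit 260274) (nat_lit 0) .nil) .nil))))) (.nd (nat_lit 8) (.nd (nat_lit 9) 
(.lf (nat_lit 535749) (.g (nat_lit 3410) (.e (nat_lit 57854) (nat_lit 252) (.e (nat_lit 57371) (nat_lit 2) (.e (nat_lit 90160) (nat_lit 11) (.e (nat_lit 24630) (nat_lit 9) (.e (nat_lit 336454) (nat_lit 34) (.e (nat_lit 483364) (nat_lit 18) .nil)))))) (.g (nat_lit 1) (.e (nat_lit 258736) (nat_lit 0) .nil) .nil))) 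
(.lf (nat_lit 536261) (.g (nat_lit 2794) (.e (nat_lit 57927) (nat_lit 282) (.e (nat_lit 163874) (nat_lit 3) (.e (nat_lit 204863) (nat_lit 27) (.e (nat_lit 344117) (nat_lit 21) (.e (nat_lit 516130) (nat_lit 3) (.e (nat_lit 221202) (nat_lit 20) (.e (nat_lit 3249) (nat_lit 197) (.e (nat_lit 532499) (nat_lit 1) .nil)))))))) (.g (nat_lit 1) (.e (nat_lit 259983) (nat_lit 0) .nil) .nil)))) 
(.nd (nat_lit 9) 
(.lf (nat_lit 536005) (.g (nat_lit 1368) (.e (nat_lit 57883) (nat_lit 270) (.e (nat_lit 496) (nat_lit 39) (.e (nat_lit 483391) (nat_lit 23) (.e (nat_lit 336319) (nat_lit 17) (.e (nat_lit 196698) (nat_lit 19) (.e (nat_lit 57809) (nat_lit 246) .nil)))))) (.g (nat_lit 1) (.e (nat_lit 259274) (nat_lit 0) .nil) .nil))) 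
(.lf (nat_lit 536517) (.g (nat_lit 1839) (.e (nat_lit 57931) (nat_lit 282) (.e (nat_lit 163866) (nat_lit 2) (.e (nat_lit 196668) (nat_lit 14) (.e (nat_lit 73746) (nat_lit 3) (.e (nat_lit 516129) (nat_lit 3) .nil))))) (.g (nat_lit 0) (.e (nat_lit 260581) (nat_lit 0) .nil) .nil))))))) (.nd (nat_lit 6) (.nd (nat_lit 7) (.nd (nat_lit 8) (.nd (nat_lit 9) 
(.lf (nat_lit 535589) (.g (nat_lit 2770) (.e (nat_lit 57849) (nat_lit 252) (.e (nat_lit 57407) (nat_lit 12) (.e (nat_lit 336456) (nat_lit 34) (.e (nat_lit 483391) (nat_lit 23) (.e (nat_lit 336323) (nat_lit 18) (.e (nat_lit 204831) (nat_lit 18) .nil)))))) (.g (nat_lit 1) (.e (nat_lit 258514) (nat_lit 0) .nil) .nil))) 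
(.lf (nat_lit 536101) (.g (nat_lit 2006) (.e (nat_lit 57926) (nat_lit 282) (.e (nat_lit 163868) (nat_lit 2) (.e (nat_lit 196670) (nat_lit 14) (.e (nat_lit 73746) (nat_lit 3) (.e (nat_lit 516129) (nat_lit 3) .nil))))) (.g (nat_lit 0) (.e (nat_lit 259588) (nat_lit 0) .nil) .nil)))) (.nd (nat_lit 9) 
(.lf (nat_lit 535845) (.g (nat_lit 1357) (.e (nat_lit 57854) (nat_lit 252) (.e (nat_lit 57406) (nat_lit 12) (.e (nat_lit 336456) (nat_lit 34) (.e (nat_lit 483387) (nat_lit 23) .nil)))) (.g (nat_lit 0) (.e (nat_lit 258912) (nat_lit 0) .nil) .nil))) 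
(.lf (nat_lit 536357) (.g (nat_lit 2002) (.e (nat_lit 57927) (nat_lit 282) (.e (nat_lit 163933) (nat_lit 17) (.e (nat_lit 466977) (nat_lit 22) (.e (nat_lit 196656) (nat_lit 11) (.e (nat_lit 16407) (nat_lit 1) (.e (nat_lit 164324) (nat_lit 230) (.e (nat_lit 171776) (nat_lit 62) .nil))))))) (.g (nat_lit 1) (.e (nat_lit 260134) (nat_lit 0) .nil) .nil))))) (.nd (nat_lit 8) (.nd (nat_lit 9) 
(.lf (nat_lit 535717) (.g (nat_lit 1961) (.e (nat_lit 57853) (nat_lit 252) (.e (nat_lit 57371) (nat_lit 2) (.e (nat_lit 90160) (nat_lit 11) (.e (nat_lit 24580) (nat_lit 0) .nil)))) (.g (nat_lit 0) (.e (nat_lit 258699) (nat_lit 0) .nil) .nil))) 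
(.lf (nat_lit 536229) (.g (nat_lit 1638) (.e (nat_lit 57927) (nat_lit 282) (.e (nat_lit 163871) (nat_lit 2) (.e (nat_lit 196670) (nat_lit 14) (.e (nat_lit 73746) (nat_lit 3) (.e (nat_lit 516127) (nat_lit 2) .nil))))) (.g (nat_lit 0) (.e (nat_lit 259922) (nat_lit 0) .nil) .nil)))) (.nd (nat_lit 9) 
(.lf (nat_lit 535973) (.g (nat_lit 1639) (.e (nat_lit 57881) (nat_lit 270) (.e (nat_lit 496) (nat_lit 39) (.e (nat_lit 483381) (nat_lit 23) (.e (nat_lit 336320) (nat_lit 17) (.e (nat_lit 196698) (nat_lit 19) (.e (nat_lit 57816) (nat_lit 246) .nil)))))) (.g (nat_lit 1) (.e (nat_lit 259177) (nat_lit 0) .nil) .nil))) 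
(.lf (nat_lit 536485) (.g (nat_lit 2872) (.e (nat_lit 57930) (nat_lit 282) (.e (nat_lit 163869) (nat_lit 2) (.e (nat_lit 196666) (nat_lit 13) (.e (nat_lit 65571) (nat_lit 3) (.e (nat_lit 98341) (nat_lit 20) .nil))))) (.g (nat_lit 0) (.e (nat_lit 260502) (nat_lit 0) .nil) .nil)))))) (.nd (nat_lit 7) (.nd (nat_lit 8) (.nd (nat_lit 9) 
(.lf (nat_lit 535653) (.g (nat_lit 2189) (.e (nat_lit 57851) (nat_lit 252) (.e (nat_lit 57406) (nat_lit 12) (.e (nat_lit 336456) (nat_lit 34) (.e (nat_lit 483383) (nat_lit 23) (.e (nat_lit 336243) (nat_lit 15) (.e (nat_lit 3230) (nat_lit 197) (.e (nat_lit 532504) (nat_lit 1) .nil))))))) (.g (nat_lit 1) (.e (nat_lit 258603) (nat_lit 0) .nil) .nil))) 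
(.lf (nat_lit 536165) (.g (nat_lit 1515) (.e (nat_lit 57927) (nat_lit 282) (.e (nat_lit 163867) (nat_lit 2) (.e (nat_lit 196670) (nat_lit 14) (.e (nat_lit 73746) (nat_lit 3) .nil)))) (.g (nat_lit 0) (.e (nat_lit 259802) (nat_lit 0) .nil) .nil)))) (.nd (nat_lit 9) 
(.lf (nat_lit 535909) (.g (nat_lit 2047) (.e (nat_lit 57871) (nat_lit 264) (.e (nat_lit 1190) (nat_lit 88) (.e (nat_lit 65630) (nat_lit 14) (.e (nat_lit 401437) (nat_lit 9) (.e (nat_lit 426555) (nat_lit 32) .nil))))) (.g (nat_lit 0) (.e (nat_lit 259002) (nat_lit 0) .nil) .nil))) 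
(.lf (nat_lit 536421) (.g (nat_lit 3355) (.e (nat_lit 57929) (nat_lit 282) (.e (nat_lit 163874) (nat_lit 3) (.e (nat_lit 204863) (nat_lit 27) (.e (nat_lit 344117) (nat_lit 21) (.e (nat_lit 516099) (nat_lit 0) (.e (nat_lit 3771) (nat_lit 229) (.e (nat_lit 794673) (nat_lit 23) (.e (nat_lit 204830) (nat_lit 18) .nil)))))))) (.g (nat_lit 1) (.e (nat_lit 260345) (nat_lit 0) .nil) .nil))))) 
(.nd (nat_lit 8) (.nd (nat_lit 9) 
(.lf (nat_lit 535781) (.g (nat_lit 2292) (.e (nat_lit 57854) (nat_lit 252) (.e (nat_lit 57378) (nat_lit 3) (.e (nat_lit 98342) (nat_lit 20) (.e (nat_lit 221210) (nat_lit 22) (.e (nat_lit 196665) (nat_lit 13) (.e (nat_lit 65637) (nat_lit 15) (.e (nat_lit 3253) (nat_lit 197) (.e (nat_lit 532501) (nat_lit 1) .nil)))))))) (.g (nat_lit 1) (.e (nat_lit 258783) (nat_lit 0) .nil) .nil))) 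
(.lf (nat_lit 536293) (.g (nat_lit 1320) (.e (nat_lit 57927) (nat_lit 282) (.e (nat_lit 163875) (nat_lit 3) (.e (nat_lit 204877) (nat_lit 31) (.e (nat_lit 376840) (nat_lit 11) (.e (nat_lit 426485) (nat_lit 27) (.e (nat_lit 343808) (nat_lit 1) .nil)))))) (.g (nat_lit 1) (.e (nat_lit 260046) (nat_lit 0) .nil) .nil)))) (.nd (nat_lit 9) 
(.lf (nat_lit 536037) (.g (nat_lit 2071) (.e (nat_lit 57924) (nat_lit 282) (.e (nat_lit 163868) (nat_lit 2) (.e (nat_lit 196668) (nat_lit 14) (.e (nat_lit 73747) (nat_lit 3) (.e (nat_lit 516129) (nat_lit 3) .nil))))) (.g (nat_lit 0) (.e (nat_lit 259418) (nat_lit 0) .nil) .nil))) 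
(.lf (nat_lit 536549) (.g (nat_lit 1503) (.e (nat_lit 57931) (nat_lit 282) (.e (nat_lit 163869) (nat_lit 2) (.e (nat_lit 196666) (nat_lit 13) (.e (nat_lit 65569) (nat_lit 3) (.e (nat_lit 98342) (nat_lit 20) .nil))))) (.g (nat_lit 0) (.e (nat_lit 260637) (nat_lit 0) .nil) .nil)))))))) (.nd (nat_lit 5) (.nd (nat_lit 6) (.nd (nat_lit 7) (.nd (nat_lit 8) (.nd (nat_lit 9) 
(.lf (nat_lit 535573) (.g (nat_lit 248) (.e (nat_lit 57849) (nat_lit 252) (.e (nat_lit 57388) (nat_lit 5) (.e (nat_lit 114696) (nat_lit 11) .nil))) (.g (nat_lit 0) (.e (nat_lit 258481) (nat_lit 0) .nil) .nil))) 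
(.lf (nat_lit 536085) (.g (nat_lit 1715) (.e (nat_lit 57926) (nat_lit 282) (.e (nat_lit 163866) (nat_lit 2) (.e (nat_lit 196666) (nat_lit 13) (.e (nat_lit 65569) (nat_lit 3) .nil)))) (.g (nat_lit 0) (.e (nat_lit 259563) (nat_lit 0) .nil) .nil)))) (.nd (nat_lit 9) 
(.lf (nat_lit 535829) (.g (nat_lit 3282) (.e (nat_lit 57854) (nat_lit 252) (.e (nat_lit 57406) (nat_lit 12) (.e (nat_lit 336316) (nat_lit 17) (.e (nat_lit 196666) (nat_lit 13) (.e (nat_lit 65617) (nat_lit 10) (.e (nat_lit 344096) (nat_lit 18) (.e (nat_lit 7695) (nat_lit 412) (.e (nat_lit 57364) (nat_lit 1) .nil)))))))) (.g (nat_lit 1) (.e (nat_lit 258896) (nat_lit 0) .nil) .nil))) 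
(.lf (nat_lit 536341) (.g (nat_lit 3938) (.e (nat_lit 57927) (nat_lit 282) (.e (nat_lit 163933) (nat_lit 17) (.e (nat_lit 466972) (nat_lit 21) (.e (nat_lit 164403) (nat_lit 256) (.e (nat_lit 57442) (nat_lit 18) (.e (nat_lit 385109) (nat_lit 51) (.e (nat_lit 802560) (nat_lit 1) .nil))))))) (.g (nat_lit 1) (.e (nat_lit 260118) (nat_lit 0) .nil) .nil))))) (.nd (nat_lit 8) (.nd (nat_lit 9) 
(.lf (nat_lit 535701) (.g (nat_lit 3498) (.e (nat_lit 57852) (nat_lit 252) (.e (nat_lit 57406) (nat_lit 12) (.e (nat_lit 336316) (nat_lit 17) (.e (nat_lit 196666) (nat_lit 13) (.e (nat_lit 65617) (nat_lit 10) (.e (nat_lit 344091) (nat_lit 18) (.e (nat_lit 7697) (nat_lit 412) (.e (nat_lit 57364) (nat_lit 1) .nil)))))))) (.g (nat_lit 1) (.e (nat_lit 258675) (nat_lit 0) .nil) .nil))) 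
(.lf (nat_lit 536213) (.g (nat_lit 5253) (.e (nat_lit 57927) (nat_lit 282) (.e (nat_lit 163869) (nat_lit 2) (.e (nat_lit 196670) (nat_lit 14) (.e (nat_lit 73746) (nat_lit 3) (.e (nat_lit 516129) (nat_lit 3) (.e (nat_lit 221214) (nat_lit 23) (.e (nat_lit 204829) (nat_lit 18) .nil))))))) (.g (nat_lit 1) (.e (nat_lit 259880) (nat_lit 0) .nil) .nil)))) (.nd (nat_lit 9) 
(.lf (nat_lit 535957) (.g (nat_lit 2455) (.e (nat_lit 57879) (nat_lit 270) (.e (nat_lit 371) (nat_lit 32) (.e (nat_lit 426542) (nat_lit 29) (.e (nat_lit 352315) (nat_lit 23) (.e (nat_lit 98309) (nat_lit 0) (.e (nat_lit 6209) (nat_lit 333) .nil)))))) (.g (nat_lit 1) (.e (nat_lit 259115) (nat_lit 0) .nil) .nil))) 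
(.lf (nat_lit 536469) (.g (nat_lit 2985) (.e (nat_lit 57929) (nat_lit 282) (.e (nat_lit 163923) (nat_lit 15) (.e (nat_lit 450588) (nat_lit 10) (.e (nat_lit 573452) (nat_lit 9) (.e (nat_lit 1286) (nat_lit 95) .nil))))) (.g (nat_lit 0) (.e (nat_lit 260418) (nat_lit 0) .nil) .nil)))))) (.nd (nat_lit 7) (.nd (nat_lit 8) (.nd (nat_lit 9) 
(.lf (nat_lit 535637) (.g (nat_lit 2311) (.e (nat_lit 57851) (nat_lit 252) (.e (nat_lit 57406) (nat_lit 12) (.e (nat_lit 336316) (nat_lit 17) (.e (nat_lit 196666) (nat_lit 13) (.e (nat_lit 65617) (nat_lit 10) (.e (nat_lit 344091) (nat_lit 18) (.e (nat_lit 7702) (nat_lit 413) (.e (nat_lit 122889) (nat_lit 1) .nil)))))))) (.g (nat_lit 1) (.e (nat_lit 258587) (nat_lit 0) .nil) .nil))) 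
(.lf (nat_lit 536149) (.g (nat_lit 1068) (.e (nat_lit 57926) (nat_lit 282) (.e (nat_lit 163933) (nat_lit 17) (.e (nat_lit 466977) (nat_lit 22) (.e (nat_lit 196656) (nat_lit 11) .nil)))) (.g (nat_lit 0) (.e (nat_lit 259739) (nat_lit 0) .nil) .nil)))) (.nd (nat_lit 9) 
(.lf (nat_lit 535893) (.g (nat_lit 1792) (.e (nat_lit 57854) (nat_lit 252) (.e (nat_lit 57409) (nat_lit 12) (.e (nat_lit 336454) (nat_lit 34) (.e (nat_lit 483385) (nat_lit 23) (.e (nat_lit 336270) (nat_lit 15) .nil))))) (.g (nat_lit 0) (.e (nat_lit 258961) (nat_lit 0) .nil) .nil))) 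
(.lf (nat_lit 536405) (.g (nat_lit 2167) (.e (nat_lit 57929) (nat_lit 282) (.e (nat_lit 163869) (nat_lit 2) (.e (nat_lit 196668) (nat_lit 14) (.e (nat_lit 73746) (nat_lit 3) (.e (nat_lit 516131) (nat_lit 3) .nil))))) (.g (nat_lit 0) (.e (nat_lit 260321) (nat_lit 0) .nil) .nil))))) (.nd (nat_lit 8) (.nd (nat_lit 9) 
(.lf (nat_lit 535765) (.g (nat_lit 1210) (.e (nat_lit 57854) (nat_lit 252) (.e (nat_lit 57378) (nat_lit 3) (.e (nat_lit 98323) (nat_lit 17) .nil))) (.g (nat_lit 0) (.e (nat_lit 258765) (nat_lit 0) .nil) .nil))) 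
(.lf (nat_lit 536277) (.g (nat_lit 2047) (.e (nat_lit 57927) (nat_lit 282) (.e (nat_lit 163875) (nat_lit 3) (.e (nat_lit 204861) (nat_lit 26) (.e (nat_lit 336076) (nat_lit 9) (.e (nat_lit 336377) (nat_lit 27) .nil))))) (.g (nat_lit 0) (.e (nat_lit 260017) (nat_lit 0) .nil) .nil)))) (.nd (nat_lit 9) 
(.lf (nat_lit 536021) (.g (nat_lit 1076) (.e (nat_lit 57924) (nat_lit 282) (.e (nat_lit 163867) (nat_lit 2) (.e (nat_lit 196663) (nat_lit 13) (.e (nat_lit 65569) (nat_lit 3) .nil)))) (.g (nat_lit 0) (.e (nat_lit 259386) (nat_lit 0) .nil) .nil))) 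
(.lf (nat_lit 536533) (.g (nat_lit 3691) (.e (nat_lit 57931) (nat_lit 282) (.e (nat_lit 163867) (nat_lit 2) (.e (nat_lit 196670) (nat_lit 14) (.e (nat_lit 73746) (nat_lit 3) (.e (nat_lit 516129) (nat_lit 3) (.e (nat_lit 221204) (nat_lit 20) (.e (nat_lit 3253) (nat_lit 197) (.e (nat_lit 532499) (nat_lit 1) .nil)))))))) (.g (nat_lit 1) (.e (nat_lit 260616) (nat_lit 0) .nil) .nil))))))) 
(.nd (nat_lit 6) (.nd (nat_lit 7) (.nd (nat_lit 8) (.nd (nat_lit 9) 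
(.lf (nat_lit 535605) (.g (nat_lit 3103) (.e (nat_lit 57851) (nat_lit 252) (.e (nat_lit 57371) (nat_lit 2) (.e (nat_lit 90158) (nat_lit 11) (.e (nat_lit 24628) (nat_lit 9) (.e (nat_lit 336454) (nat_lit 34) (.e (nat_lit 483366) (nat_lit 18) .nil)))))) (.g (nat_lit 1) (.e (nat_lit 258531) (nat_lit 0) .nil) .nil))) 
(.lf (nat_lit 536117) (.g (nat_lit 3627) (.e (nat_lit 57926) (nat_lit 282) (.e (nat_lit 163872) (nat_lit 3) (.e (nat_lit 204863) (nat_lit 27) (.e (nat_lit 344117) (nat_lit 21) (.e (nat_lit 516099) (nat_lit 0) (.e (nat_lit 3771) (nat_lit 229) (.e (nat_lit 794673) (nat_lit 23) (.e (nat_lit 204830) (nat_lit 18) .nil)))))))) (.g (nat_lit 1) (.e (nat_lit 259629) (nat_lit 0) .nil) .nil)))) 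
(.nd (nat_lit 9) 
(.lf (nat_lit 535861) (.g (nat_lit 3976) (.e (nat_lit 57854) (nat_lit 252) (.e (nat_lit 57409) (nat_lit 12) (.e (nat_lit 336316) (nat_lit 17) (.e (nat_lit 196666) (nat_lit 13) (.e (nat_lit 65610) (nat_lit 10) (.e (nat_lit 344097) (nat_lit 18) (.e (nat_lit 7936) (nat_lit 412) (.e (nat_lit 57368) (nat_lit 1) .nil)))))))) (.g (nat_lit 1) (.e (nat_lit 258928) (nat_lit 0) .nil) .nil))) 
(.lf (nat_lit 536373) (.g (nat_lit 1100) (.e (nat_lit 57927) (nat_lit 282) (.e (nat_lit 163943) (nat_lit 19) (.e (nat_lit 483406) (nat_lit 26) .nil))) (.g (nat_lit 0) (.e (nat_lit 260205) (nat_lit 0) .nil) .nil))))) (.nd (nat_lit 8) (.nd (nat_lit 9) 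
(.lf (nat_lit 535733) (.g (nat_lit 755) (.e (nat_lit 57853) (nat_lit 252) (.e (nat_lit 57406) (nat_lit 12) (.e (nat_lit 336455) (nat_lit 34) .nil))) (.g (nat_lit 0) (.e (nat_lit 258717) (nat_lit 0) .nil) .nil))) 
(.lf (nat_lit 536245) (.g (nat_lit 1997) (.e (nat_lit 57927) (nat_lit 282) (.e (nat_lit 163874) (nat_lit 3) (.e (nat_lit 204861) (nat_lit 26) (.e (nat_lit 336076) (nat_lit 9) (.e (nat_lit 336372) (nat_lit 27) .nil))))) (.g (nat_lit 0) (.e (nat_lit 259967) (nat_lit 0) .nil) .nil)))) (.nd (nat_lit 9) 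
(.lf (nat_lit 535989) (.g (nat_lit 2473) (.e (nat_lit 57883) (nat_lit 270) (.e (nat_lit 371) (nat_lit 32) (.e (nat_lit 426544) (nat_lit 30) (.e (nat_lit 360467) (nat_lit 3) (.e (nat_lit 516191) (nat_lit 17) (.e (nat_lit 6217) (nat_lit 333) .nil)))))) (.g (nat_lit 1) (.e (nat_lit 259245) (nat_lit 0) .nil) .nil))) 
(.lf (nat_lit 536501) (.g (nat_lit 1953) (.e (nat_lit 57930) (nat_lit 282) (.e (nat_lit 163902) (nat_lit 12) (.e (nat_lit 426555) (nat_lit 32) (.e (nat_lit 376865) (nat_lit 22) (.e (nat_lit 90160) (nat_lit 11) (.e (nat_lit 24598) (nat_lit 1) .nil)))))) (.g (nat_lit 1) (.e (nat_lit 260541) (nat_lit 0) .nil) .nil)))))) (.nd (nat_lit 7) (.nd (nat_lit 8) (.nd (nat_lit 9) 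
(.lf (nat_lit 535669) (.g (nat_lit 1905) (.e (nat_lit 57851) (nat_lit 252) (.e (nat_lit 57406) (nat_lit 12) (.e (nat_lit 336456) (nat_lit 34) (.e (nat_lit 483386) (nat_lit 23) (.e (nat_lit 336280) (nat_lit 15) .nil))))) (.g (nat_lit 0) (.e (nat_lit 258619) (nat_lit 0) .nil) .nil))) 
(.lf (nat_lit 536181) (.g (nat_lit 1482) (.e (nat_lit 57927) (nat_lit 282) (.e (nat_lit 163868) (nat_lit 2) (.e (nat_lit 196668) (nat_lit 14) (.e (nat_lit 73746) (nat_lit 3) .nil)))) (.g (nat_lit 0) (.e (nat_lit 259826) (nat_lit 0) .nil) .nil)))) (.nd (nat_lit 9) 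
(.lf (nat_lit 535925) (.g (nat_lit 1445) (.e (nat_lit 57872) (nat_lit 264) (.e (nat_lit 1211) (nat_lit 89) (.e (nat_lit 73781) (nat_lit 32) (.e (nat_lit 3090) (nat_lit 191) (.e (nat_lit 483389) (nat_lit 23) .nil))))) (.g (nat_lit 0) (.e (nat_lit 259023) (nat_lit 0) .nil) .nil))) 
(.lf (nat_lit 536437) (.g (nat_lit 2320) (.e (nat_lit 57929) (nat_lit 282) (.e (nat_lit 163902) (nat_lit 12) (.e (nat_lit 426555) (nat_lit 32) (.e (nat_lit 376865) (nat_lit 22) (.e (nat_lit 90160) (nat_lit 11) (.e (nat_lit 24598) (nat_lit 1) .nil)))))) (.g (nat_lit 1) (.e (nat_lit 260370) (nat_lit 0) .nil) .nil))))) (.nd (nat_lit 8) (.nd (nat_lit 9) 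
(.lf (nat_lit 535797) (.g (nat_lit 2947) (.e (nat_lit 57854) (nat_lit 252) (.e (nat_lit 57389) (nat_lit 5) (.e (nat_lit 114698) (nat_lit 11) (.e (nat_lit 426198) (nat_lit 9) (.e (nat_lit 426555) (nat_lit 32) (.e (nat_lit 376856) (nat_lit 21) .nil)))))) (.g (nat_lit 1) (.e (nat_lit 258831) (nat_lit 0) .nil) .nil))) 
(.lf (nat_lit 536309) (.g (nat_lit 3563) (.e (nat_lit 57927) (nat_lit 282) (.e (nat_lit 163886) (nat_lit 5) (.e (nat_lit 221219) (nat_lit 24) (.e (nat_lit 213032) (nat_lit 11) (.e (nat_lit 24653) (nat_lit 12) (.e (nat_lit 385109) (nat_lit 51) (.e (nat_lit 802560) (nat_lit 1) .nil))))))) (.g (nat_lit 1) (.e (nat_lit 260066) (nat_lit 0) .nil) .nil)))) (.nd (nat_lit 9) 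
(.lf (nat_lit 536053) (.g (nat_lit 1551) (.e (nat_lit 57924) (nat_lit 282) (.e (nat_lit 163875) (nat_lit 3) (.e (nat_lit 204862) (nat_lit 27) (.e (nat_lit 344117) (nat_lit 21) .nil)))) (.g (nat_lit 0) (.e (nat_lit 259446) (nat_lit 0) .nil) .nil))) 
(.lf (nat_lit 536565) (.g (nat_lit 3719) (.e (nat_lit 57931) (nat_lit 282) (.e (nat_lit 163869) (nat_lit 2) (.e (nat_lit 196670) (nat_lit 14) (.e (nat_lit 73746) (nat_lit 3) (.e (nat_lit 516129) (nat_lit 3) (.e (nat_lit 221214) (nat_lit 23) (.e (nat_lit 204828) (nat_lit 18) .nil))))))) (.g (nat_lit 1) (.e (nat_lit 260672) (nat_lit 0) .nil) .nil))))))))) 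
(.nd (nat_lit 4) (.nd (nat_lit 5) (.nd (nat_lit 6) (.nd (nat_lit 7) (.nd (nat_lit 8) 
(.nd (nat_lit 9) 
(.lf (nat_lit 535565) (.g (nat_lit 3632) (.e (nat_lit 57849) (nat_lit 252) (.e (nat_lit 57379) (nat_lit 3) (.e (nat_lit 98333) (nat_lit 18) (.e (nat_lit 164403) (nat_lit 256) (.e (nat_lit 57588) (nat_lit 73) (.e (nat_lit 426124) (nat_lit 2) (.e (nat_lit 196681) (nat_lit 17) (.e (nat_lit 131086) (nat_lit 1) .nil)))))))) (.g (nat_lit 1) (.e (nat_lit 258467) (nat_lit 0) .nil) .nil))) 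
(.lf (nat_lit 536077) (.g (nat_lit 2269) (.e (nat_lit 57925) (nat_lit 282) (.e (nat_lit 163871) (nat_lit 2) (.e (nat_lit 196668) (nat_lit 14) (.e (nat_lit 73747) (nat_lit 3) (.e (nat_lit 516124) (nat_lit 2) .nil))))) (.g (nat_lit 0) (.e (nat_lit 259528) (nat_lit 0) .nil) .nil)))) (.nd (nat_lit 9) 
(.lf (nat_lit 535821) (.g (nat_lit 2790) (.e (nat_lit 57854) (nat_lit 252) (.e (nat_lit 57406) (nat_lit 12) (.e (nat_lit 336316) (nat_lit 17) (.e (nat_lit 196666) (nat_lit 13) (.e (nat_lit 65617) (nat_lit 10) (.e (nat_lit 344088) (nat_lit 18) (.e (nat_lit 7694) (nat_lit 412) (.e (nat_lit 57368) (nat_lit 1) .nil)))))))) (.g (nat_lit 1) (.e (nat_lit 258888) (nat_lit 0) .nil) .nil))) 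
(.lf (nat_lit 536333) (.g (nat_lit 2000) (.e (nat_lit 57927) (nat_lit 282) (.e (nat_lit 163907) (nat_lit 12) (.e (nat_lit 426555) (nat_lit 32) (.e (nat_lit 376867) (nat_lit 23) (.e (nat_lit 98313) (nat_lit 9) (.e (nat_lit 343808) (nat_lit 1) .nil)))))) (.g (nat_lit 1) (.e (nat_lit 260100) (nat_lit 0) .nil) .nil))))) (.nd (nat_lit 8) (.nd (nat_lit 9) 
(.lf (nat_lit 535693) (.g (nat_lit 732) (.e (nat_lit 57852) (nat_lit 252) (.e (nat_lit 57378) (nat_lit 3) (.e (nat_lit 98338) (nat_lit 19) .nil))) (.g (nat_lit 0) (.e (nat_lit 258646) (nat_lit 0) .nil) .nil))) 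
(.lf (nat_lit 536205) (.g (nat_lit 1694) (.e (nat_lit 57927) (nat_lit 282) (.e (nat_lit 163869) (nat_lit 2) (.e (nat_lit 196668) (nat_lit 14) (.e (nat_lit 73747) (nat_lit 3) (.e (nat_lit 516131) (nat_lit 3) .nil))))) (.g (nat_lit 0) (.e (nat_lit 259870) (nat_lit 0) .nil) .nil)))) (.nd (nat_lit 9) 
(.lf (nat_lit 535949) (.g (nat_lit 1772) (.e (nat_lit 57878) (nat_lit 270) (.e (nat_lit 496) (nat_lit 39) (.e (nat_lit 483383) (nat_lit 23) (.e (nat_lit 336320) (nat_lit 17) (.e (nat_lit 196698) (nat_lit 19) (.e (nat_lit 57815) (nat_lit 246) .nil)))))) (.g (nat_lit 1) (.e (nat_lit 259092) (nat_lit 0) .nil) .nil))) 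
(.lf (nat_lit 536461) (.g (nat_lit 3481) (.e (nat_lit 57929) (nat_lit 282) (.e (nat_lit 163923) (nat_lit 15) (.e (nat_lit 450587) (nat_lit 10) (.e (nat_lit 573475) (nat_lit 12) (.e (nat_lit 57516) (nat_lit 42) (.e (nat_lit 671757) (nat_lit 3) (.e (nat_lit 57550) (nat_lit 48) (.e (nat_lit 720934) (nat_lit 21) .nil)))))))) (.g (nat_lit 1) (.e (nat_lit 260407) (nat_lit 0) .nil) .nil)))))) 
(.nd (nat_lit 7) (.nd (nat_lit 8) (.nd (nat_lit 9) 
(.lf (nat_lit 535629) (.g (nat_lit 389) (.e (nat_lit 57851) (nat_lit 252) (.e (nat_lit 57389) (nat_lit 5) (.e (nat_lit 122624) (nat_lit 13) .nil))) (.g (nat_lit 0) (.e (nat_lit 258575) (nat_lit 0) .nil) .nil))) 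
(.lf (nat_lit 536141) (.g (nat_lit 2521) (.e (nat_lit 57926) (nat_lit 282) (.e (nat_lit 163906) (nat_lit 12) (.e (nat_lit 426555) (nat_lit 32) (.e (nat_lit 376862) (nat_lit 22) (.e (nat_lit 90158) (nat_lit 11) (.e (nat_lit 24598) (nat_lit 1) .nil)))))) (.g (nat_lit 1) (.e (nat_lit 259708) (nat_lit 0) .nil) .nil)))) (.nd (nat_lit 9) 
(.lf (nat_lit 535885) (.g (nat_lit 3736) (.e (nat_lit 57854) (nat_lit 252) (.e (nat_lit 57409) (nat_lit 12) (.e (nat_lit 336326) (nat_lit 18) (.e (nat_lit 204869) (nat_lit 29) (.e (nat_lit 360451) (nat_lit 0) (.e (nat_lit 7697) (nat_lit 412) (.e (nat_lit 57364) (nat_lit 1) .nil))))))) (.g (nat_lit 1) (.e (nat_lit 258952) (nat_lit 0) .nil) .nil))) 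
(.lf (nat_lit 536397) (.g (nat_lit 1322) (.e (nat_lit 57929) (nat_lit 282) (.e (nat_lit 163867) (nat_lit 2) (.e (nat_lit 196668) (nat_lit 14) (.e (nat_lit 73747) (nat_lit 3) .nil)))) (.g (nat_lit 0) (.e (nat_lit 260305) (nat_lit 0) .nil) .nil))))) (.nd (nat_lit 8) (.nd (nat_lit 9) 
(.lf (nat_lit 535757) (.g (nat_lit 820) (.e (nat_lit 57854) (nat_lit 252) (.e (nat_lit 57373) (nat_lit 2) (.e (nat_lit 90165) (nat_lit 12) .nil))) (.g (nat_lit 0) (.e (nat_lit 258749) (nat_lit 0) .nil) .nil))) 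
(.lf (nat_lit 536269) (.g (nat_lit 754) (.e (nat_lit 57927) (nat_lit 282) (.e (nat_lit 163875) (nat_lit 3) (.e (nat_lit 204855) (nat_lit 26) .nil))) (.g (nat_lit 0) (.e (nat_lit 260009) (nat_lit 0) .nil) .nil)))) (.nd (nat_lit 9) 
(.lf (nat_lit 536013) (.g (nat_lit 844) (.e (nat_lit 57887) (nat_lit 270) (.e (nat_lit 1633) (nat_lit 114) (.e (nat_lit 385102) (nat_lit 50) .nil))) (.g (nat_lit 0) (.e (nat_lit 259296) (nat_lit 0) .nil) .nil))) 
(.lf (nat_lit 536525) (.g (nat_lit 671) (.e (nat_lit 57931) (nat_lit 282) (.e (nat_lit 163867) (nat_lit 2) (.e (nat_lit 196667) (nat_lit 14) .nil))) (.g (nat_lit 0) (.e (nat_lit 260599) (nat_lit 0) .nil) .nil))))))) (.nd (nat_lit 6) (.nd (nat_lit 7) (.nd (nat_lit 8) (.nd (nat_lit 9) 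
(.lf (nat_lit 535597) (.g (nat_lit 2810) (.e (nat_lit 57850) (nat_lit 252) (.e (nat_lit 57406) (nat_lit 12) (.e (nat_lit 336454) (nat_lit 34) (.e (nat_lit 483405) (nat_lit 26) .nil)))) (.g (nat_lit 0) (.e (nat_lit 258522) (nat_lit 0) .nil) .nil))) 
(.lf (nat_lit 536109) (.g (nat_lit 1139) (.e (nat_lit 57926) (nat_lit 282) (.e (nat_lit 163869) (nat_lit 2) (.e (nat_lit 196670) (nat_lit 14) (.e (nat_lit 73746) (nat_lit 3) .nil)))) (.g (nat_lit 0) (.e (nat_lit 259607) (nat_lit 0) .nil) .nil)))) (.nd (nat_lit 9) 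
(.lf (nat_lit 535853) (.g (nat_lit 3422) (.e (nat_lit 57854) (nat_lit 252) (.e (nat_lit 57409) (nat_lit 12) (.e (nat_lit 336316) (nat_lit 17) (.e (nat_lit 196666) (nat_lit 13) (.e (nat_lit 65610) (nat_lit 10) (.e (nat_lit 344088) (nat_lit 18) (.e (nat_lit 7695) (nat_lit 412) (.e (nat_lit 57365) (nat_lit 1) .nil)))))))) (.g (nat_lit 1) (.e (nat_lit 258920) (nat_lit 0) .nil) .nil))) 
(.lf (nat_lit 536365) (.g (nat_lit 2078) (.e (nat_lit 57927) (nat_lit 282) (.e (nat_lit 163941) (nat_lit 19) (.e (nat_lit 483395) (nat_lit 24) (.e (nat_lit 344117) (nat_lit 21) (.e (nat_lit 516194) (nat_lit 26) .nil))))) (.g (nat_lit 0) (.e (nat_lit 260151) (nat_lit 0) .nil) .nil))))) (.nd (nat_lit 8) (.nd (nat_lit 9) 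
(.lf (nat_lit 535725) (.g (nat_lit 712) (.e (nat_lit 57853) (nat_lit 252) (.e (nat_lit 57406) (nat_lit 12) (.e (nat_lit 336452) (nat_lit 34) .nil))) (.g (nat_lit 0) (.e (nat_lit 258709) (nat_lit 0) .nil) .nil))) 
(.lf (nat_lit 536237) (.g (nat_lit 791) (.e (nat_lit 57927) (nat_lit 282) (.e (nat_lit 163873) (nat_lit 3) (.e (nat_lit 204872) (nat_lit 30) .nil))) (.g (nat_lit 0) (.e (nat_lit 259943) (nat_lit 0) .nil) .nil)))) (.nd (nat_lit 9) 
(.lf (nat_lit 535981) (.g (nat_lit 2272) (.e (nat_lit 57883) (nat_lit 270) (.e (nat_lit 174) (nat_lit 12) (.e (nat_lit 204862) (nat_lit 27) (.e (nat_lit 344117) (nat_lit 21) (.e (nat_lit 516123) (nat_lit 2) (.e (nat_lit 213013) (nat_lit 9) (.e (nat_lit 2666) (nat_lit 167) (.e (nat_lit 196698) (nat_lit 19) .nil)))))))) (.g (nat_lit 1) (.e (nat_lit 259219) (nat_lit 0) .nil) .nil))) 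
(.lf (nat_lit 536493) (.g (nat_lit 965) (.e (nat_lit 57930) (nat_lit 282) (.e (nat_lit 163873) (nat_lit 3) (.e (nat_lit 204853) (nat_lit 26) (.e (nat_lit 336114) (nat_lit 9) .nil)))) (.g (nat_lit 0) (.e (nat_lit 260517) (nat_lit 0) .nil) .nil)))))) (.nd (nat_lit 7) (.nd (nat_lit 8) (.nd (nat_lit 9) 
(.lf (nat_lit 535661) (.g (nat_lit 2044) (.e (nat_lit 57851) (nat_lit 252) (.e (nat_lit 57406) (nat_lit 12) (.e (nat_lit 336456) (nat_lit 34) (.e (nat_lit 483383) (nat_lit 23) (.e (nat_lit 336261) (nat_lit 15) (.e (nat_lit 3251) (nat_lit 197) (.e (nat_lit 532504) (nat_lit 1) .nil))))))) (.g (nat_lit 1) (.e (nat_lit 258611) (nat_lit 0) .nil) .nil))) 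
(.lf (nat_lit 536173) (.g (nat_lit 833) (.e (nat_lit 57927) (nat_lit 282) (.e (nat_lit 163868) (nat_lit 2) (.e (nat_lit 196663) (nat_lit 13) (.e (nat_lit 65596) (nat_lit 9) .nil)))) (.g (nat_lit 0) (.e (nat_lit 259817) (nat_lit 0) .nil) .nil)))) (.nd (nat_lit 9) 
(.lf (nat_lit 535917) (.g (nat_lit 2020) (.e (nat_lit 57872) (nat_lit 264) (.e (nat_lit 1190) (nat_lit 88) (.e (nat_lit 65630) (nat_lit 14) (.e (nat_lit 401457) (nat_lit 13) (.e (nat_lit 483393) (nat_lit 23) .nil))))) (.g (nat_lit 0) (.e (nat_lit 259015) (nat_lit 0) .nil) .nil))) 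
(.lf (nat_lit 536429) (.g (nat_lit 1671) (.e (nat_lit 57929) (nat_lit 282) (.e (nat_lit 163874) (nat_lit 3) (.e (nat_lit 204873) (nat_lit 30) (.e (nat_lit 368676) (nat_lit 21) (.e (nat_lit 516131) (nat_lit 3) .nil))))) (.g (nat_lit 0) (.e (nat_lit 260355) (nat_lit 0) .nil) .nil))))) (.nd (nat_lit 8) (.nd (nat_lit 9) 
(.lf (nat_lit 535789) (.g (nat_lit 505) (.e (nat_lit 57854) (nat_lit 252) (.e (nat_lit 57389) (nat_lit 5) (.e (nat_lit 114694) (nat_lit 11) .nil))) (.g (nat_lit 0) (.e (nat_lit 258817) (nat_lit 0) .nil) .nil))) 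
(.lf (nat_lit 536301) (.g (nat_lit 4708) (.e (nat_lit 57927) (nat_lit 282) (.e (nat_lit 163886) (nat_lit 5) (.e (nat_lit 221218) (nat_lit 24) (.e (nat_lit 213032) (nat_lit 11) (.e (nat_lit 24628) (nat_lit 9) (.e (nat_lit 336336) (nat_lit 20) (.e (nat_lit 229120) (nat_lit 1) .nil))))))) (.g (nat_lit 1) (.e (nat_lit 260058) (nat_lit 0) .nil) .nil)))) (.nd (nat_lit 9) 
(.lf (nat_lit 536045) (.g (nat_lit 2033) (.e (nat_lit 57924) (nat_lit 282) (.e (nat_lit 163871) (nat_lit 2) (.e (nat_lit 196668) (nat_lit 14) (.e (nat_lit 73746) (nat_lit 3) (.e (nat_lit 516131) (nat_lit 3) .nil))))) (.g (nat_lit 0) (.e (nat_lit 259432) (nat_lit 0) .nil) .nil))) 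
(.lf (nat_lit 536557) (.g (nat_lit 5853) (.e (nat_lit 57931) (nat_lit 282) (.e (nat_lit 163869) (nat_lit 2) (.e (nat_lit 196668) (nat_lit 14) (.e (nat_lit 73747) (nat_lit 3) (.e (nat_lit 516129) (nat_lit 3) (.e (nat_lit 221214) (nat_lit 23) (.e (nat_lit 204829) (nat_lit 18) .nil))))))) (.g (nat_lit 1) (.e (nat_lit 260656) (nat_lit 0) .nil) .nil)))))))) 
(.nd (nat_lit 5) (.nd (nat_lit 6) (.nd (nat_lit 7) (.nd (nat_lit 8) (.nd (nat_lit 9) 
(.lf (nat_lit 535581) (.g (nat_lit 1956) (.e (nat_lit 57849) (nat_lit 252) (.e (nat_lit 57407) (nat_lit 12) (.e (nat_lit 336454) (nat_lit 34) (.e (nat_lit 483379) (nat_lit 23) .nil)))) (.g (nat_lit 0) (.e (nat_lit 258506) (nat_lit 0) .nil) .nil))) 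
(.lf (nat_lit 536093) (.g (nat_lit 2205) (.e (nat_lit 57926) (nat_lit 282) (.e (nat_lit 163868) (nat_lit 2) (.e (nat_lit 196663) (nat_lit 13) (.e (nat_lit 65571) (nat_lit 3) (.e (nat_lit 98338) (nat_lit 19) .nil))))) (.g (nat_lit 0) (.e (nat_lit 259576) (nat_lit 0) .nil) .nil)))) (.nd (nat_lit 9) 
(.lf (nat_lit 535837) (.g (nat_lit 2601) (.e (nat_lit 57854) (nat_lit 252) (.e (nat_lit 57406) (nat_lit 12) (.e (nat_lit 336456) (nat_lit 34) (.e (nat_lit 483346) (nat_lit 17) (.e (nat_lit 6435) (nat_lit 343) .nil))))) (.g (nat_lit 0) (.e (nat_lit 258904) (nat_lit 0) .nil) .nil))) 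
(.lf (nat_lit 536349) (.g (nat_lit 2257) (.e (nat_lit 57927) (nat_lit 282) (.e (nat_lit 163933) (nat_lit 17) (.e (nat_lit 466977) (nat_lit 22) (.e (nat_lit 196654) (nat_lit 11) (.e (nat_lit 16406) (nat_lit 1) (.e (nat_lit 164330) (nat_lit 230) (.e (nat_lit 171776) (nat_lit 62) .nil))))))) (.g (nat_lit 1) (.e (nat_lit 260126) (nat_lit 0) .nil) .nil))))) (.nd (nat_lit 8) (.nd (nat_lit 9) 
(.lf (nat_lit 535709) (.g (nat_lit 1591) (.e (nat_lit 57852) (nat_lit 252) (.e (nat_lit 57406) (nat_lit 12) (.e (nat_lit 336456) (nat_lit 34) (.e (nat_lit 483378) (nat_lit 23) .nil)))) (.g (nat_lit 0) (.e (nat_lit 258683) (nat_lit 0) .nil) .nil))) 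
(.lf (nat_lit 536221) (.g (nat_lit 1401) (.e (nat_lit 57927) (nat_lit 282) (.e (nat_lit 163871) (nat_lit 2) (.e (nat_lit 196668) (nat_lit 14) (.e (nat_lit 73746) (nat_lit 3) .nil)))) (.g (nat_lit 0) (.e (nat_lit 259905) (nat_lit 0) .nil) .nil)))) (.nd (nat_lit 9) 
(.lf (nat_lit 535965) (.g (nat_lit 2233) (.e (nat_lit 57881) (nat_lit 270) (.e (nat_lit 174) (nat_lit 12) (.e (nat_lit 204859) (nat_lit 26) (.e (nat_lit 336209) (nat_lit 13) (.e (nat_lit 393221) (nat_lit 0) (.e (nat_lit 6209) (nat_lit 333) .nil)))))) (.g (nat_lit 1) (.e (nat_lit 259154) (nat_lit 0) .nil) .nil))) 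
(.lf (nat_lit 536477) (.g (nat_lit 1911) (.e (nat_lit 57930) (nat_lit 282) (.e (nat_lit 163867) (nat_lit 2) (.e (nat_lit 196668) (nat_lit 14) (.e (nat_lit 73746) (nat_lit 3) (.e (nat_lit 516131) (nat_lit 3) .nil))))) (.g (nat_lit 0) (.e (nat_lit 260489) (nat_lit 0) .nil) .nil)))))) (.nd (nat_lit 7) (.nd (nat_lit 8) (.nd (nat_lit 9) 
(.lf (nat_lit 535645) (.g (nat_lit 342) (.e (nat_lit 57851) (nat_lit 252) (.e (nat_lit 57406) (nat_lit 12) (.e (nat_lit 336456) (nat_lit 34) .nil))) (.g (nat_lit 0) (.e (nat_lit 258595) (nat_lit 0) .nil) .nil))) 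
(.lf (nat_lit 536157) (.g (nat_lit 1289) (.e (nat_lit 57927) (nat_lit 282) (.e (nat_lit 163866) (nat_lit 2) (.e (nat_lit 196668) (nat_lit 14) (.e (nat_lit 73746) (nat_lit 3) .nil)))) (.g (nat_lit 0) (.e (nat_lit 259787) (nat_lit 0) .nil) .nil)))) (.nd (nat_lit 9) 
(.lf (nat_lit 535901) (.g (nat_lit 2067) (.e (nat_lit 57854) (nat_lit 252) (.e (nat_lit 57447) (nat_lit 19) (.e (nat_lit 393229) (nat_lit 9) (.e (nat_lit 336086) (nat_lit 9) (.e (nat_lit 336285) (nat_lit 15) .nil))))) (.g (nat_lit 0) (.e (nat_lit 258969) (nat_lit 0) .nil) .nil))) 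
(.lf (nat_lit 536413) (.g (nat_lit 1589) (.e (nat_lit 57929) (nat_lit 282) (.e (nat_lit 163874) (nat_lit 3) (.e (nat_lit 204852) (nat_lit 26) (.e (nat_lit 343808) (nat_lit 9) .nil)))) (.g (nat_lit 0) (.e (nat_lit 260337) (nat_lit 0) .nil) .nil))))) (.nd (nat_lit 8) (.nd (nat_lit 9) 
(.lf (nat_lit 535773) (.g (nat_lit 2239) (.e (nat_lit 57854) (nat_lit 252) (.e (nat_lit 57378) (nat_lit 3) (.e (nat_lit 98334) (nat_lit 18) (.e (nat_lit 164402) (nat_lit 256) (.e (nat_lit 57588) (nat_lit 73) .nil))))) (.g (nat_lit 0) (.e (nat_lit 258773) (nat_lit 0) .nil) .nil))) 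
(.lf (nat_lit 536285) (.g (nat_lit 2879) (.e (nat_lit 57927) (nat_lit 282) (.e (nat_lit 163875) (nat_lit 3) (.e (nat_lit 204863) (nat_lit 27) (.e (nat_lit 344117) (nat_lit 21) (.e (nat_lit 516123) (nat_lit 2) (.e (nat_lit 213033) (nat_lit 12) (.e (nat_lit 163962) (nat_lit 25) (.e (nat_lit 532499) (nat_lit 1) .nil)))))))) (.g (nat_lit 1) (.e (nat_lit 260025) (nat_lit 0) .nil) .nil)))) 
(.nd (nat_lit 9) 
(.lf (nat_lit 536029) (.g (nat_lit 2080) (.e (nat_lit 57924) (nat_lit 282) (.e (nat_lit 163867) (nat_lit 2) (.e (nat_lit 196670) (nat_lit 14) (.e (nat_lit 73746) (nat_lit 3) (.e (nat_lit 516124) (nat_lit 2) .nil))))) (.g (nat_lit 0) (.e (nat_lit 259406) (nat_lit 0) .nil) .nil))) 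
(.lf (nat_lit 536541) (.g (nat_lit 634) (.e (nat_lit 57931) (nat_lit 282) (.e (nat_lit 163869) (nat_lit 2) (.e (nat_lit 196663) (nat_lit 13) .nil))) (.g (nat_lit 0) (.e (nat_lit 260628) (nat_lit 0) .nil) .nil))))))) (.nd (nat_lit 6) (.nd (nat_lit 7) (.nd (nat_lit 8) (.nd (nat_lit 9) 
(.lf (nat_lit 535613) (.g (nat_lit 1768) (.e (nat_lit 57851) (nat_lit 252) (.e (nat_lit 57377) (nat_lit 3) (.e (nat_lit 98313) (nat_lit 9) (.e (nat_lit 336027) (nat_lit 3) (.e (nat_lit 98325) (nat_lit 17) .nil))))) (.g (nat_lit 0) (.e (nat_lit 258540) (nat_lit 0) .nil) .nil))) 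
(.lf (nat_lit 536125) (.g (nat_lit 1990) (.e (nat_lit 57926) (nat_lit 282) (.e (nat_lit 163874) (nat_lit 3) (.e (nat_lit 204862) (nat_lit 27) (.e (nat_lit 344117) (nat_lit 21) (.e (nat_lit 516123) (nat_lit 2) .nil))))) (.g (nat_lit 0) (.e (nat_lit 259639) (nat_lit 0) .nil) .nil)))) (.nd (nat_lit 9) 
(.lf (nat_lit 535869) (.g (nat_lit 2620) (.e (nat_lit 57854) (nat_lit 252) (.e (nat_lit 57409) (nat_lit 12) (.e (nat_lit 336316) (nat_lit 17) (.e (nat_lit 196666) (nat_lit 13) (.e (nat_lit 65617) (nat_lit 10) (.e (nat_lit 344089) (nat_lit 18) (.e (nat_lit 7694) (nat_lit 412) (.e (nat_lit 57368) (nat_lit 1) .nil)))))))) (.g (nat_lit 1) (.e (nat_lit 258936) (nat_lit 0) .nil) .nil))) 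
(.lf (nat_lit 536381) (.g (nat_lit 1919) (.e (nat_lit 57928) (nat_lit 282) (.e (nat_lit 163868) (nat_lit 2) (.e (nat_lit 196668) (nat_lit 14) (.e (nat_lit 73747) (nat_lit 3) (.e (nat_lit 516129) (nat_lit 3) .nil))))) (.g (nat_lit 0) (.e (nat_lit 260245) (nat_lit 0) .nil) .nil))))) (.nd (nat_lit 8) (.nd (nat_lit 9) 
(.lf (nat_lit 535741) (.g (nat_lit 3177) (.e (nat_lit 57854) (nat_lit 252) (.e (nat_lit 57370) (nat_lit 2) (.e (nat_lit 90158) (nat_lit 11) (.e (nat_lit 24628) (nat_lit 9) (.e (nat_lit 336456) (nat_lit 34) (.e (nat_lit 483365) (nat_lit 18) .nil)))))) (.g (nat_lit 1) (.e (nat_lit 258727) (nat_lit 0) .nil) .nil))) 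
(.lf (nat_lit 536253) (.g (nat_lit 3590) (.e (nat_lit 57927) (nat_lit 282) (.e (nat_lit 163874) (nat_lit 3) (.e (nat_lit 204863) (nat_lit 27) (.e (nat_lit 344117) (nat_lit 21) (.e (nat_lit 516099) (nat_lit 0) (.e (nat_lit 3771) (nat_lit 229) (.e (nat_lit 794673) (nat_lit 23) (.e (nat_lit 204830) (nat_lit 18) .nil)))))))) (.g (nat_lit 1) (.e (nat_lit 259975) (nat_lit 0) .nil) .nil)))) 
(.nd (nat_lit 9) 
(.lf (nat_lit 535997) (.g (nat_lit 2039) (.e (nat_lit 57883) (nat_lit 270) (.e (nat_lit 496) (nat_lit 39) (.e (nat_lit 483380) (nat_lit 23) (.e (nat_lit 336320) (nat_lit 17) (.e (nat_lit 196698) (nat_lit 19) (.e (nat_lit 57810) (nat_lit 246) .nil)))))) (.g (nat_lit 1) (.e (nat_lit 259264) (nat_lit 0) .nil) .nil))) 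
(.lf (nat_lit 536509) (.g (nat_lit 2359) (.e (nat_lit 57930) (nat_lit 282) (.e (nat_lit 163923) (nat_lit 15) (.e (nat_lit 450587) (nat_lit 10) (.e (nat_lit 573478) (nat_lit 12) (.e (nat_lit 57360) (nat_lit 0) .nil))))) (.g (nat_lit 0) (.e (nat_lit 260556) (nat_lit 0) .nil) .nil)))))) (.nd (nat_lit 7) (.nd (nat_lit 8) (.nd (nat_lit 9) 
(.lf (nat_lit 535677) (.g (nat_lit 3275) (.e (nat_lit 57852) (nat_lit 252) (.e (nat_lit 57371) (nat_lit 2) (.e (nat_lit 90160) (nat_lit 11) (.e (nat_lit 24608) (nat_lit 3) (.e (nat_lit 98340) (nat_lit 20) .nil))))) (.g (nat_lit 0) (.e (nat_lit 258628) (nat_lit 0) .nil) .nil))) 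
(.lf (nat_lit 536189) (.g (nat_lit 1915) (.e (nat_lit 57927) (nat_lit 282) (.e (nat_lit 163868) (nat_lit 2) (.e (nat_lit 196670) (nat_lit 14) (.e (nat_lit 73746) (nat_lit 3) (.e (nat_lit 516124) (nat_lit 2) .nil))))) (.g (nat_lit 0) (.e (nat_lit 259838) (nat_lit 0) .nil) .nil)))) (.nd (nat_lit 9) 
(.lf (nat_lit 535933) (.g (nat_lit 1651) (.e (nat_lit 57873) (nat_lit 264) (.e (nat_lit 1209) (nat_lit 89) (.e (nat_lit 73781) (nat_lit 32) (.e (nat_lit 3090) (nat_lit 191) (.e (nat_lit 483386) (nat_lit 23) .nil))))) (.g (nat_lit 0) (.e (nat_lit 259039) (nat_lit 0) .nil) .nil))) 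
(.lf (nat_lit 536445) (.g (nat_lit 2109) (.e (nat_lit 57929) (nat_lit 282) (.e (nat_lit 163920) (nat_lit 14) (.e (nat_lit 442424) (nat_lit 22) (.e (nat_lit 196652) (nat_lit 11) .nil)))) (.g (nat_lit 0) (.e (nat_lit 260384) (nat_lit 0) .nil) .nil))))) (.nd (nat_lit 8) (.nd (nat_lit 9) 
(.lf (nat_lit 535805) (.g (nat_lit 597) (.e (nat_lit 57854) (nat_lit 252) (.e (nat_lit 57389) (nat_lit 5) (.e (nat_lit 114711) (nat_lit 21) .nil))) (.g (nat_lit 0) (.e (nat_lit 258866) (nat_lit 0) .nil) .nil))) 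
(.lf (nat_lit 536317) (.g (nat_lit 3169) (.e (nat_lit 57927) (nat_lit 282) (.e (nat_lit 163903) (nat_lit 12) (.e (nat_lit 426555) (nat_lit 32) (.e (nat_lit 376865) (nat_lit 22) (.e (nat_lit 90160) (nat_lit 11) (.e (nat_lit 24597) (nat_lit 1) .nil)))))) (.g (nat_lit 1) (.e (nat_lit 260081) (nat_lit 0) .nil) .nil)))) (.nd (nat_lit 9) 
(.lf (nat_lit 536061) (.g (nat_lit 1522) (.e (nat_lit 57925) (nat_lit 282) (.e (nat_lit 163867) (nat_lit 2) (.e (nat_lit 196668) (nat_lit 14) (.e (nat_lit 73746) (nat_lit 3) .nil)))) (.g (nat_lit 0) (.e (nat_lit 259491) (nat_lit 0) .nil) .nil))) 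
(.lf (nat_lit 536573) (.g (nat_lit 1261) (.e (nat_lit 57931) (nat_lit 282) (.e (nat_lit 163874) (nat_lit 3) (.e (nat_lit 204829) (nat_lit 18) .nil))) (.g (nat_lit 0) (.e (nat_lit 260694) (nat_lit 0) .nil) .nil))))))))))) (.nd (nat_lit 2) (.nd (nat_lit 3) (.nd (nat_lit 4) (.nd (nat_lit 5) (.nd (nat_lit 6) (.nd (nat_lit 7) (.nd (nat_lit 8) (.nd (nat_lit 9) 
(.lf (nat_lit 535555) (.g (nat_lit 4361) (.e (nat_lit 57849) (nat_lit 252) (.e (nat_lit 57375) (nat_lit 2) (.e (nat_lit 90160) (nat_lit 11) (.e (nat_lit 24608) (nat_lit 3) (.e (nat_lit 98321) (nat_lit 17) (.e (nat_lit 3771) (nat_lit 229) (.e (nat_lit 794673) (nat_lit 23) (.e (nat_lit 204829) (nat_lit 18) .nil)))))))) (.g (nat_lit 1) (.e (nat_lit 258454) (nat_lit 0) .nil) .nil))) 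
(.lf (nat_lit 536067) (.g (nat_lit 1616) (.e (nat_lit 57925) (nat_lit 282) (.e (nat_lit 163868) (nat_lit 2) (.e (nat_lit 196668) (nat_lit 14) (.e (nat_lit 73747) (nat_lit 3) .nil)))) (.g (nat_lit 0) (.e (nat_lit 259508) (nat_lit 0) .nil) .nil)))) (.nd (nat_lit 9) 
(.lf (nat_lit 535811) (.g (nat_lit 3336) (.e (nat_lit 57854) (nat_lit 252) (.e (nat_lit 57406) (nat_lit 12) (.e (nat_lit 336316) (nat_lit 17) (.e (nat_lit 196666) (nat_lit 13) (.e (nat_lit 65610) (nat_lit 10) (.e (nat_lit 344088) (nat_lit 18) (.e (nat_lit 7695) (nat_lit 412) (.e (nat_lit 57365) (nat_lit 1) .nil)))))))) (.g (nat_lit 1) (.e (nat_lit 258878) (nat_lit 0) .nil) .nil))) 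
(.lf (nat_lit 536323) (.g (nat_lit 2499) (.e (nat_lit 57927) (nat_lit 282) (.e (nat_lit 163906) (nat_lit 12) (.e (nat_lit 426555) (nat_lit 32) (.e (nat_lit 376862) (nat_lit 22) (.e (nat_lit 90158) (nat_lit 11) (.e (nat_lit 24598) (nat_lit 1) .nil)))))) (.g (nat_lit 1) (.e (nat_lit 260088) (nat_lit 0) .nil) .nil))))) (.nd (nat_lit 8) (.nd (nat_lit 9) 
(.lf (nat_lit 535683) (.g (nat_lit 1685) (.e (nat_lit 57852) (nat_lit 252) (.e (nat_lit 57373) (nat_lit 2) (.e (nat_lit 90160) (nat_lit 11) (.e (nat_lit 24604) (nat_lit 2) .nil)))) (.g (nat_lit 0) (.e (nat_lit 258635) (nat_lit 0) .nil) .nil))) 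
(.lf (nat_lit 536195) (.g (nat_lit 939) (.e (nat_lit 57927) (nat_lit 282) (.e (nat_lit 163869) (nat_lit 2) (.e (nat_lit 196663) (nat_lit 13) (.e (nat_lit 65569) (nat_lit 3) .nil)))) (.g (nat_lit 0) (.e (nat_lit 259849) (nat_lit 0) .nil) .nil)))) (.nd (nat_lit 9) 
(.lf (nat_lit 535939) (.g (nat_lit 390) (.e (nat_lit 57878) (nat_lit 270) (.e (nat_lit 371) (nat_lit 32) (.e (nat_lit 426544) (nat_lit 30) .nil))) (.g (nat_lit 0) (.e (nat_lit 259075) (nat_lit 0) .nil) .nil))) 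
(.lf (nat_lit 536451) (.g (nat_lit 948) (.e (nat_lit 57929) (nat_lit 282) (.e (nat_lit 163923) (nat_lit 15) (.e (nat_lit 450571) (nat_lit 1) (.e (nat_lit 500048) (nat_lit 16) .nil)))) (.g (nat_lit 0) (.e (nat_lit 260393) (nat_lit 0) .nil) .nil)))))) (.nd (nat_lit 7) (.nd (nat_lit 8) (.nd (nat_lit 9) 
(.lf (nat_lit 535619) (.g (nat_lit 4417) (.e (nat_lit 57851) (nat_lit 252) (.e (nat_lit 57377) (nat_lit 3) (.e (nat_lit 98317) (nat_lit 9) (.e (nat_lit 336027) (nat_lit 3) (.e (nat_lit 98338) (nat_lit 19) .nil))))) (.g (nat_lit 0) (.e (nat_lit 258546) (nat_lit 0) .nil) .nil))) 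
(.lf (nat_lit 536131) (.g (nat_lit 1795) (.e (nat_lit 57926) (nat_lit 282) (.e (nat_lit 163875) (nat_lit 3) (.e (nat_lit 204855) (nat_lit 26) (.e (nat_lit 336219) (nat_lit 13) .nil)))) (.g (nat_lit 0) (.e (nat_lit 259670) (nat_lit 0) .nil) .nil)))) (.nd (nat_lit 9) 
(.lf (nat_lit 535875) (.g (nat_lit 2205) (.e (nat_lit 57854) (nat_lit 252) (.e (nat_lit 57409) (nat_lit 12) (.e (nat_lit 336326) (nat_lit 18) (.e (nat_lit 204868) (nat_lit 29) (.e (nat_lit 360449) (nat_lit 0) (.e (nat_lit 7695) (nat_lit 412) (.e (nat_lit 57368) (nat_lit 1) .nil))))))) (.g (nat_lit 1) (.e (nat_lit 258942) (nat_lit 0) .nil) .nil))) 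
(.lf (nat_lit 536387) (.g (nat_lit 2184) (.e (nat_lit 57928) (nat_lit 282) (.e (nat_lit 163871) (nat_lit 2) (.e (nat_lit 196668) (nat_lit 14) (.e (nat_lit 73747) (nat_lit 3) (.e (nat_lit 516124) (nat_lit 2) .nil))))) (.g (nat_lit 0) (.e (nat_lit 260266) (nat_lit 0) .nil) .nil))))) (.nd (nat_lit 8) (.nd (nat_lit 9) 
(.lf (nat_lit 535747) (.g (nat_lit 3797) (.e (nat_lit 57854) (nat_lit 252) (.e (nat_lit 57371) (nat_lit 2) (.e (nat_lit 90160) (nat_lit 11) (.e (nat_lit 24628) (nat_lit 9) (.e (nat_lit 336454) (nat_lit 34) (.e (nat_lit 483365) (nat_lit 18) .nil)))))) (.g (nat_lit 1) (.e (nat_lit 258734) (nat_lit 0) .nil) .nil))) 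
(.lf (nat_lit 536259) (.g (nat_lit 2747) (.e (nat_lit 57927) (nat_lit 282) (.e (nat_lit 163874) (nat_lit 3) (.e (nat_lit 204863) (nat_lit 27) (.e (nat_lit 344117) (nat_lit 21) (.e (nat_lit 516123) (nat_lit 2) (.e (nat_lit 220928) (nat_lit 13) (.e (nat_lit 229433) (nat_lit 25) (.e (nat_lit 532499) (nat_lit 1) .nil)))))))) (.g (nat_lit 1) (.e (nat_lit 259981) (nat_lit 0) .nil) .nil)))) 
(.nd (nat_lit 9) 
(.lf (nat_lit 536003) (.g (nat_lit 2262) (.e (nat_lit 57883) (nat_lit 270) (.e (nat_lit 496) (nat_lit 39) (.e (nat_lit 483383) (nat_lit 23) (.e (nat_lit 336320) (nat_lit 17) (.e (nat_lit 196698) (nat_lit 19) (.e (nat_lit 57809) (nat_lit 246) .nil)))))) (.g (nat_lit 1) (.e (nat_lit 259271) (nat_lit 0) .nil) .nil))) 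
(.lf (nat_lit 536515) (.g (nat_lit 2933) (.e (nat_lit 57931) (nat_lit 282) (.e (nat_lit 163866) (nat_lit 2) (.e (nat_lit 196666) (nat_lit 13) (.e (nat_lit 65625) (nat_lit 13) (.e (nat_lit 393229) (nat_lit 9) (.e (nat_lit 335996) (nat_lit 1) .nil)))))) (.g (nat_lit 1) (.e (nat_lit 260579) (nat_lit 0) .nil) .nil))))))) (.nd (nat_lit 6) (.nd (nat_lit 7) (.nd (nat_lit 8) (.nd (nat_lit 9) 
(.lf (nat_lit 535587) (.g (nat_lit 2350) (.e (nat_lit 57849) (nat_lit 252) (.e (nat_lit 57407) (nat_lit 12) (.e (nat_lit 336456) (nat_lit 34) (.e (nat_lit 483383) (nat_lit 23) (.e (nat_lit 343808) (nat_lit 18) .nil))))) (.g (nat_lit 0) (.e (nat_lit 258512) (nat_lit 0) .nil) .nil))) 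
(.lf (nat_lit 536099) (.g (nat_lit 1204) (.e (nat_lit 57926) (nat_lit 282) (.e (nat_lit 163868) (nat_lit 2) (.e (nat_lit 196670) (nat_lit 14) (.e (nat_lit 73746) (nat_lit 3) .nil)))) (.g (nat_lit 0) (.e (nat_lit 259586) (nat_lit 0) .nil) .nil)))) (.nd (nat_lit 9) 
(.lf (nat_lit 535843) (.g (nat_lit 1755) (.e (nat_lit 57854) (nat_lit 252) (.e (nat_lit 57406) (nat_lit 12) (.e (nat_lit 336456) (nat_lit 34) (.e (nat_lit 483381) (nat_lit 23) (.e (nat_lit 336326) (nat_lit 18) .nil))))) (.g (nat_lit 0) (.e (nat_lit 258910) (nat_lit 0) .nil) .nil))) 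
(.lf (nat_lit 536355) (.g (nat_lit 3881) (.e (nat_lit 57927) (nat_lit 282) (.e (nat_lit 163933) (nat_lit 17) (.e (nat_lit 466977) (nat_lit 22) (.e (nat_lit 196656) (nat_lit 11) (.e (nat_lit 16406) (nat_lit 1) (.e (nat_lit 164330) (nat_lit 230) (.e (nat_lit 171776) (nat_lit 62) .nil))))))) (.g (nat_lit 1) (.e (nat_lit 260132) (nat_lit 0) .nil) .nil))))) (.nd (nat_lit 8) (.nd (nat_lit 9) 
(.lf (nat_lit 535715) (.g (nat_lit 1638) (.e (nat_lit 57852) (nat_lit 252) (.e (nat_lit 57409) (nat_lit 12) (.e (nat_lit 336456) (nat_lit 34) (.e (nat_lit 483387) (nat_lit 23) .nil)))) (.g (nat_lit 0) (.e (nat_lit 258689) (nat_lit 0) .nil) .nil))) 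
(.lf (nat_lit 536227) (.g (nat_lit 867) (.e (nat_lit 57927) (nat_lit 282) (.e (nat_lit 163871) (nat_lit 2) (.e (nat_lit 196670) (nat_lit 14) (.e (nat_lit 73746) (nat_lit 3) .nil)))) (.g (nat_lit 0) (.e (nat_lit 259920) (nat_lit 0) .nil) .nil)))) (.nd (nat_lit 9) 
(.lf (nat_lit 535971) (.g (nat_lit 2200) (.e (nat_lit 57881) (nat_lit 270) (.e (nat_lit 496) (nat_lit 39) (.e (nat_lit 483380) (nat_lit 23) (.e (nat_lit 336316) (nat_lit 17) (.e (nat_lit 196698) (nat_lit 19) (.e (nat_lit 57816) (nat_lit 246) .nil)))))) (.g (nat_lit 1) (.e (nat_lit 259175) (nat_lit 0) .nil) .nil))) 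
(.lf (nat_lit 536483) (.g (nat_lit 966) (.e (nat_lit 57930) (nat_lit 282) (.e (nat_lit 163867) (nat_lit 2) (.e (nat_lit 196681) (nat_lit 17) (.e (nat_lit 131105) (nat_lit 9) .nil)))) (.g (nat_lit 0) (.e (nat_lit 260499) (nat_lit 0) .nil) .nil)))))) (.nd (nat_lit 7) (.nd (nat_lit 8) (.nd (nat_lit 9) 
(.lf (nat_lit 535651) (.g (nat_lit 1951) (.e (nat_lit 57851) (nat_lit 252) (.e (nat_lit 57406) (nat_lit 12) (.e (nat_lit 336456) (nat_lit 34) (.e (nat_lit 483380) (nat_lit 23) (.e (nat_lit 336257) (nat_lit 15) .nil))))) (.g (nat_lit 0) (.e (nat_lit 258601) (nat_lit 0) .nil) .nil))) 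
(.lf (nat_lit 536163) (.g (nat_lit 1641) (.e (nat_lit 57927) (nat_lit 282) (.e (nat_lit 163867) (nat_lit 2) (.e (nat_lit 196668) (nat_lit 14) (.e (nat_lit 73746) (nat_lit 3) .nil)))) (.g (nat_lit 0) (.e (nat_lit 259799) (nat_lit 0) .nil) .nil)))) (.nd (nat_lit 9) 
(.lf (nat_lit 535907) (.g (nat_lit 1174) (.e (nat_lit 57870) (nat_lit 264) (.e (nat_lit 1209) (nat_lit 89) (.e (nat_lit 73782) (nat_lit 32) (.e (nat_lit 3087) (nat_lit 191) (.e (nat_lit 483393) (nat_lit 23) .nil))))) (.g (nat_lit 0) (.e (nat_lit 259000) (nat_lit 0) .nil) .nil))) 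
(.lf (nat_lit 536419) (.g (nat_lit 2191) (.e (nat_lit 57929) (nat_lit 282) (.e (nat_lit 163874) (nat_lit 3) (.e (nat_lit 204862) (nat_lit 27) (.e (nat_lit 344117) (nat_lit 21) (.e (nat_lit 516123) (nat_lit 2) .nil))))) (.g (nat_lit 0) (.e (nat_lit 260343) (nat_lit 0) .nil) .nil))))) (.nd (nat_lit 8) (.nd (nat_lit 9) 
(.lf (nat_lit 535779) (.g (nat_lit 2516) (.e (nat_lit 57854) (nat_lit 252) (.e (nat_lit 57378) (nat_lit 3) (.e (nat_lit 98335) (nat_lit 18) (.e (nat_lit 164403) (nat_lit 256) (.e (nat_lit 57588) (nat_lit 73) .nil))))) (.g (nat_lit 0) (.e (nat_lit 258779) (nat_lit 0) .nil) .nil))) 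
(.lf (nat_lit 536291) (.g (nat_lit 1888) (.e (nat_lit 57927) (nat_lit 282) (.e (nat_lit 163875) (nat_lit 3) (.e (nat_lit 204876) (nat_lit 31) (.e (nat_lit 376842) (nat_lit 11) (.e (nat_lit 426517) (nat_lit 27) (.e (nat_lit 343808) (nat_lit 1) .nil)))))) (.g (nat_lit 1) (.e (nat_lit 260044) (nat_lit 0) .nil) .nil)))) (.nd (nat_lit 9) 
(.lf (nat_lit 536035) (.g (nat_lit 1489) (.e (nat_lit 57924) (nat_lit 282) (.e (nat_lit 163868) (nat_lit 2) (.e (nat_lit 196668) (nat_lit 14) (.e (nat_lit 73747) (nat_lit 3) .nil)))) (.g (nat_lit 0) (.e (nat_lit 259416) (nat_lit 0) .nil) .nil))) 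
(.lf (nat_lit 536547) (.g (nat_lit 1164) (.e (nat_lit 57931) (nat_lit 282) (.e (nat_lit 163869) (nat_lit 2) (.e (nat_lit 196665) (nat_lit 13) (.e (nat_lit 65569) (nat_lit 3) .nil)))) (.g (nat_lit 0) (.e (nat_lit 260634) (nat_lit 0) .nil) .nil)))))))) (.nd (nat_lit 5) (.nd (nat_lit 6) (.nd (nat_lit 7) (.nd (nat_lit 8) (.nd (nat_lit 9) 
(.lf (nat_lit 535571) (.g (nat_lit 3049) (.e (nat_lit 57849) (nat_lit 252) (.e (nat_lit 57379) (nat_lit 3) (.e (nat_lit 98334) (nat_lit 18) (.e (nat_lit 164403) (nat_lit 256) (.e (nat_lit 57588) (nat_lit 73) .nil))))) (.g (nat_lit 0) (.e (nat_lit 258475) (nat_lit 0) .nil) .nil))) 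
(.lf (nat_lit 536083) (.g (nat_lit 1920) (.e (nat_lit 57925) (nat_lit 282) (.e (nat_lit 163875) (nat_lit 3) (.e (nat_lit 204863) (nat_lit 27) (.e (nat_lit 344118) (nat_lit 21) .nil)))) (.g (nat_lit 0) (.e (nat_lit 259547) (nat_lit 0) .nil) .nil)))) (.nd (nat_lit 9) 
(.lf (nat_lit 535827) (.g (nat_lit 3366) (.e (nat_lit 57854) (nat_lit 252) (.e (nat_lit 57406) (nat_lit 12) (.e (nat_lit 336316) (nat_lit 17) (.e (nat_lit 196666) (nat_lit 13) (.e (nat_lit 65617) (nat_lit 10) (.e (nat_lit 344091) (nat_lit 18) (.e (nat_lit 7697) (nat_lit 412) (.e (nat_lit 57364) (nat_lit 1) .nil)))))))) (.g (nat_lit 1) (.e (nat_lit 258894) (nat_lit 0) .nil) .nil))) 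
(.lf (nat_lit 536339) (.g (nat_lit 4064) (.e (nat_lit 57927) (nat_lit 282) (.e (nat_lit 163933) (nat_lit 17) (.e (nat_lit 466972) (nat_lit 21) (.e (nat_lit 164403) (nat_lit 256) (.e (nat_lit 57440) (nat_lit 18) (.e (nat_lit 385109) (nat_lit 51) (.e (nat_lit 802560) (nat_lit 1) .nil))))))) (.g (nat_lit 1) (.e (nat_lit 260116) (nat_lit 0) .nil) .nil))))) (.nd (nat_lit 8) (.nd (nat_lit 9) 
(.lf (nat_lit 535699) (.g (nat_lit 2798) (.e (nat_lit 57852) (nat_lit 252) (.e (nat_lit 57406) (nat_lit 12) (.e (nat_lit 336316) (nat_lit 17) (.e (nat_lit 196666) (nat_lit 13) (.e (nat_lit 65617) (nat_lit 10) (.e (nat_lit 344088) (nat_lit 18) (.e (nat_lit 7695) (nat_lit 412) (.e (nat_lit 57366) (nat_lit 1) .nil)))))))) (.g (nat_lit 1) (.e (nat_lit 258673) (nat_lit 0) .nil) .nil))) 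
(.lf (nat_lit 536211) (.g (nat_lit 3460) (.e (nat_lit 57927) (nat_lit 282) (.e (nat_lit 163869) (nat_lit 2) (.e (nat_lit 196670) (nat_lit 14) (.e (nat_lit 73746) (nat_lit 3) (.e (nat_lit 516129) (nat_lit 3) (.e (nat_lit 221196) (nat_lit 20) (.e (nat_lit 3241) (nat_lit 197) (.e (nat_lit 532499) (nat_lit 1) .nil)))))))) (.g (nat_lit 1) (.e (nat_lit 259878) (nat_lit 0) .nil) .nil)))) 
(.nd (nat_lit 9) 
(.lf (nat_lit 535955) (.g (nat_lit 2279) (.e (nat_lit 57879) (nat_lit 270) (.e (nat_lit 371) (nat_lit 32) (.e (nat_lit 426542) (nat_lit 29) (.e (nat_lit 352313) (nat_lit 23) (.e (nat_lit 98309) (nat_lit 0) (.e (nat_lit 6209) (nat_lit 333) .nil)))))) (.g (nat_lit 1) (.e (nat_lit 259113) (nat_lit 0) .nil) .nil))) 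
(.lf (nat_lit 536467) (.g (nat_lit 569) (.e (nat_lit 57929) (nat_lit 282) (.e (nat_lit 163923) (nat_lit 15) (.e (nat_lit 450588) (nat_lit 10) .nil))) (.g (nat_lit 0) (.e (nat_lit 260416) (nat_lit 0) .nil) .nil)))))) (.nd (nat_lit 7) (.nd (nat_lit 8) (.nd (nat_lit 9) 
(.lf (nat_lit 535635) (.g (nat_lit 3482) (.e (nat_lit 57851) (nat_lit 252) (.e (nat_lit 57406) (nat_lit 12) (.e (nat_lit 336316) (nat_lit 17) (.e (nat_lit 196666) (nat_lit 13) (.e (nat_lit 65617) (nat_lit 10) (.e (nat_lit 344091) (nat_lit 18) (.e (nat_lit 7697) (nat_lit 412) (.e (nat_lit 57364) (nat_lit 1) .nil)))))))) (.g (nat_lit 1) (.e (nat_lit 258585) (nat_lit 0) .nil) .nil))) 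
(.lf (nat_lit 536147) (.g (nat_lit 2091) (.e (nat_lit 57926) (nat_lit 282) (.e (nat_lit 163933) (nat_lit 17) (.e (nat_lit 466977) (nat_lit 22) (.e (nat_lit 196624) (nat_lit 9) (.e (nat_lit 489) (nat_lit 38) .nil))))) (.g (nat_lit 0) (.e (nat_lit 259737) (nat_lit 0) .nil) .nil)))) (.nd (nat_lit 9) 
(.lf (nat_lit 535891) (.g (nat_lit 948) (.e (nat_lit 57854) (nat_lit 252) (.e (nat_lit 57409) (nat_lit 12) (.e (nat_lit 336372) (nat_lit 27) .nil))) (.g (nat_lit 0) (.e (nat_lit 258958) (nat_lit 0) .nil) .nil))) 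
(.lf (nat_lit 536403) (.g (nat_lit 3553) (.e (nat_lit 57929) (nat_lit 282) (.e (nat_lit 163869) (nat_lit 2) (.e (nat_lit 196666) (nat_lit 13) (.e (nat_lit 65571) (nat_lit 3) (.e (nat_lit 98342) (nat_lit 20) (.e (nat_lit 221204) (nat_lit 20) (.e (nat_lit 3253) (nat_lit 197) (.e (nat_lit 532503) (nat_lit 1) .nil)))))))) (.g (nat_lit 1) (.e (nat_lit 260315) (nat_lit 0) .nil) .nil))))) 
(.nd (nat_lit 8) (.nd (nat_lit 9) 
(.lf (nat_lit 535763) (.g (nat_lit 722) (.e (nat_lit 57854) (nat_lit 252) (.e (nat_lit 57378) (nat_lit 3) (.e (nat_lit 98314) (nat_lit 9) .nil))) (.g (nat_lit 0) (.e (nat_lit 258761) (nat_lit 0) .nil) .nil))) 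
(.lf (nat_lit 536275) (.g (nat_lit 2101) (.e (nat_lit 57927) (nat_lit 282) (.e (nat_lit 163875) (nat_lit 3) (.e (nat_lit 204861) (nat_lit 26) (.e (nat_lit 336076) (nat_lit 9) (.e (nat_lit 336372) (nat_lit 27) .nil))))) (.g (nat_lit 0) (.e (nat_lit 260015) (nat_lit 0) .nil) .nil)))) (.nd (nat_lit 9) 
(.lf (nat_lit 536019) (.g (nat_lit 2017) (.e (nat_lit 57909) (nat_lit 278) (.e (nat_lit 2553) (nat_lit 159) (.e (nat_lit 24604) (nat_lit 2) (.e (nat_lit 90185) (nat_lit 17) (.e (nat_lit 237585) (nat_lit 1) .nil))))) (.g (nat_lit 0) (.e (nat_lit 259355) (nat_lit 0) .nil) .nil))) 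
(.lf (nat_lit 536531) (.g (nat_lit 3649) (.e (nat_lit 57931) (nat_lit 282) (.e (nat_lit 163867) (nat_lit 2) (.e (nat_lit 196668) (nat_lit 14) (.e (nat_lit 73747) (nat_lit 3) (.e (nat_lit 516131) (nat_lit 3) (.e (nat_lit 221215) (nat_lit 23) (.e (nat_lit 204828) (nat_lit 18) .nil))))))) (.g (nat_lit 1) (.e (nat_lit 260613) (nat_lit 0) .nil) .nil))))))) 
(.nd (nat_lit 6) (.nd (nat_lit 7) (.nd (nat_lit 8) (.nd (nat_lit 9) 
(.lf (nat_lit 535603) (.g (nat_lit 1365) (.e (nat_lit 57851) (nat_lit 252) (.e (nat_lit 57371) (nat_lit 2) (.e (nat_lit 90128) (nat_lit 9) (.e (nat_lit 293) (nat_lit 21) .nil)))) (.g (nat_lit 0) (.e (nat_lit 258529) (nat_lit 0) .nil) .nil))) 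
(.lf (nat_lit 536115) (.g (nat_lit 706) (.e (nat_lit 57926) (nat_lit 282) (.e (nat_lit 163871) (nat_lit 2) (.e (nat_lit 196670) (nat_lit 14) (.e (nat_lit 73746) (nat_lit 3) .nil)))) (.g (nat_lit 0) (.e (nat_lit 259623) (nat_lit 0) .nil) .nil)))) (.nd (nat_lit 9) 
(.lf (nat_lit 535859) (.g (nat_lit 3937) (.e (nat_lit 57854) (nat_lit 252) (.e (nat_lit 57409) (nat_lit 12) (.e (nat_lit 336316) (nat_lit 17) (.e (nat_lit 196666) (nat_lit 13) (.e (nat_lit 65610) (nat_lit 10) (.e (nat_lit 344090) (nat_lit 18) (.e (nat_lit 7697) (nat_lit 412) (.e (nat_lit 57364) (nat_lit 1) .nil)))))))) (.g (nat_lit 1) (.e (nat_lit 258926) (nat_lit 0) .nil) .nil))) 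
(.lf (nat_lit 536371) (.g (nat_lit 2913) (.e (nat_lit 57927) (nat_lit 282) (.e (nat_lit 163943) (nat_lit 19) (.e (nat_lit 483393) (nat_lit 23) (.e (nat_lit 336021) (nat_lit 3) (.e (nat_lit 98313) (nat_lit 9) (.e (nat_lit 335987) (nat_lit 1) .nil)))))) (.g (nat_lit 1) (.e (nat_lit 260195) (nat_lit 0) .nil) .nil))))) (.nd (nat_lit 8) (.nd (nat_lit 9) 
(.lf (nat_lit 535731) (.g (nat_lit 3169) (.e (nat_lit 57853) (nat_lit 252) (.e (nat_lit 57406) (nat_lit 12) (.e (nat_lit 336454) (nat_lit 34) (.e (nat_lit 483404) (nat_lit 26) .nil)))) (.g (nat_lit 0) (.e (nat_lit 258715) (nat_lit 0) .nil) .nil))) 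
(.lf (nat_lit 536243) (.g (nat_lit 2582) (.e (nat_lit 57927) (nat_lit 282) (.e (nat_lit 163874) (nat_lit 3) (.e (nat_lit 204861) (nat_lit 26) (.e (nat_lit 336075) (nat_lit 9) (.e (nat_lit 336454) (nat_lit 34) (.e (nat_lit 483362) (nat_lit 18) .nil)))))) (.g (nat_lit 1) (.e (nat_lit 259965) (nat_lit 0) .nil) .nil)))) (.nd (nat_lit 9) 
(.lf (nat_lit 535987) (.g (nat_lit 2453) (.e (nat_lit 57883) (nat_lit 270) (.e (nat_lit 174) (nat_lit 12) (.e (nat_lit 204877) (nat_lit 31) (.e (nat_lit 376842) (nat_lit 11) (.e (nat_lit 426408) (nat_lit 15) (.e (nat_lit 6217) (nat_lit 333) .nil)))))) (.g (nat_lit 1) (.e (nat_lit 259236) (nat_lit 0) .nil) .nil))) 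
(.lf (nat_lit 536499) (.g (nat_lit 2936) (.e (nat_lit 57930) (nat_lit 282) (.e (nat_lit 163902) (nat_lit 12) (.e (nat_lit 426555) (nat_lit 32) (.e (nat_lit 376865) (nat_lit 22) (.e (nat_lit 90158) (nat_lit 11) (.e (nat_lit 24599) (nat_lit 1) .nil)))))) (.g (nat_lit 1) (.e (nat_lit 260539) (nat_lit 0) .nil) .nil)))))) (.nd (nat_lit 7) (.nd (nat_lit 8) (.nd (nat_lit 9) 
(.lf (nat_lit 535667) (.g (nat_lit 2820) (.e (nat_lit 57851) (nat_lit 252) (.e (nat_lit 57406) (nat_lit 12) (.e (nat_lit 336456) (nat_lit 34) (.e (nat_lit 483385) (nat_lit 23) (.e (nat_lit 336306) (nat_lit 15) (.e (nat_lit 3238) (nat_lit 197) (.e (nat_lit 532500) (nat_lit 1) .nil))))))) (.g (nat_lit 1) (.e (nat_lit 258617) (nat_lit 0) .nil) .nil))) 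
(.lf (nat_lit 536179) (.g (nat_lit 961) (.e (nat_lit 57927) (nat_lit 282) (.e (nat_lit 163868) (nat_lit 2) (.e (nat_lit 196667) (nat_lit 14) .nil))) (.g (nat_lit 0) (.e (nat_lit 259824) (nat_lit 0) .nil) .nil)))) (.nd (nat_lit 9) 
(.lf (nat_lit 535923) (.g (nat_lit 3742) (.e (nat_lit 57872) (nat_lit 264) (.e (nat_lit 1209) (nat_lit 89) (.e (nat_lit 73782) (nat_lit 32) (.e (nat_lit 2856) (nat_lit 184) (.e (nat_lit 426555) (nat_lit 32) (.e (nat_lit 376857) (nat_lit 21) .nil)))))) (.g (nat_lit 1) (.e (nat_lit 259021) (nat_lit 0) .nil) .nil))) 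
(.lf (nat_lit 536435) (.g (nat_lit 2200) (.e (nat_lit 57929) (nat_lit 282) (.e (nat_lit 163902) (nat_lit 12) (.e (nat_lit 426555) (nat_lit 32) (.e (nat_lit 376862) (nat_lit 22) (.e (nat_lit 90160) (nat_lit 11) (.e (nat_lit 24599) (nat_lit 1) .nil)))))) (.g (nat_lit 1) (.e (nat_lit 260368) (nat_lit 0) .nil) .nil))))) (.nd (nat_lit 8) (.nd (nat_lit 9) 
(.lf (nat_lit 535795) (.g (nat_lit 426) (.e (nat_lit 57854) (nat_lit 252) (.e (nat_lit 57389) (nat_lit 5) (.e (nat_lit 114698) (nat_lit 11) .nil))) (.g (nat_lit 0) (.e (nat_lit 258829) (nat_lit 0) .nil) .nil))) 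
(.lf (nat_lit 536307) (.g (nat_lit 3597) (.e (nat_lit 57927) (nat_lit 282) (.e (nat_lit 163886) (nat_lit 5) (.e (nat_lit 221219) (nat_lit 24) (.e (nat_lit 213032) (nat_lit 11) (.e (nat_lit 24650) (nat_lit 12) (.e (nat_lit 385109) (nat_lit 51) (.e (nat_lit 802560) (nat_lit 1) .nil))))))) (.g (nat_lit 1) (.e (nat_lit 260064) (nat_lit 0) .nil) .nil)))) (.nd (nat_lit 9) 
(.lf (nat_lit 536051) (.g (nat_lit 2014) (.e (nat_lit 57924) (nat_lit 282) (.e (nat_lit 163871) (nat_lit 2) (.e (nat_lit 196670) (nat_lit 14) (.e (nat_lit 73746) (nat_lit 3) (.e (nat_lit 516129) (nat_lit 3) .nil))))) (.g (nat_lit 0) (.e (nat_lit 259440) (nat_lit 0) .nil) .nil))) 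
(.lf (nat_lit 536563) (.g (nat_lit 582) (.e (nat_lit 57931) (nat_lit 282) (.e (nat_lit 163869) (nat_lit 2) (.e (nat_lit 196669) (nat_lit 14) .nil))) (.g (nat_lit 0) (.e (nat_lit 260670) (nat_lit 0) .nil) .nil))))))))) (.nd (nat_lit 4) (.nd (nat_lit 5) (.nd (nat_lit 6) (.nd (nat_lit 7) (.nd (nat_lit 8) (.nd (nat_lit 9) 
(.lf (nat_lit 535563) (.g (nat_lit 2119) (.e (nat_lit 57849) (nat_lit 252) (.e (nat_lit 57379) (nat_lit 3) (.e (nat_lit 98333) (nat_lit 18) (.e (nat_lit 164402) (nat_lit 256) .nil)))) (.g (nat_lit 0) (.e (nat_lit 258465) (nat_lit 0) .nil) .nil))) 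
(.lf (nat_lit 536075) (.g (nat_lit 1928) (.e (nat_lit 57925) (nat_lit 282) (.e (nat_lit 163871) (nat_lit 2) (.e (nat_lit 196668) (nat_lit 14) (.e (nat_lit 73746) (nat_lit 3) (.e (nat_lit 516129) (nat_lit 3) .nil))))) (.g (nat_lit 0) (.e (nat_lit 259524) (nat_lit 0) .nil) .nil)))) (.nd (nat_lit 9) 
(.lf (nat_lit 535819) (.g (nat_lit 2489) (.e (nat_lit 57854) (nat_lit 252) (.e (nat_lit 57406) (nat_lit 12) (.e (nat_lit 336316) (nat_lit 17) (.e (nat_lit 196666) (nat_lit 13) (.e (nat_lit 65617) (nat_lit 10) (.e (nat_lit 344087) (nat_lit 18) (.e (nat_lit 7695) (nat_lit 412) (.e (nat_lit 57366) (nat_lit 1) .nil)))))))) (.g (nat_lit 1) (.e (nat_lit 258886) (nat_lit 0) .nil) .nil))) 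
(.lf (nat_lit 536331) (.g (nat_lit 2078) (.e (nat_lit 57927) (nat_lit 282) (.e (nat_lit 163907) (nat_lit 12) (.e (nat_lit 426555) (nat_lit 32) (.e (nat_lit 376865) (nat_lit 22) (.e (nat_lit 90158) (nat_lit 11) (.e (nat_lit 32512) (nat_lit 1) .nil)))))) (.g (nat_lit 1) (.e (nat_lit 260098) (nat_lit 0) .nil) .nil))))) (.nd (nat_lit 8) (.nd (nat_lit 9) 
(.lf (nat_lit 535691) (.g (nat_lit 2345) (.e (nat_lit 57852) (nat_lit 252) (.e (nat_lit 57377) (nat_lit 3) (.e (nat_lit 98333) (nat_lit 18) (.e (nat_lit 164399) (nat_lit 256) (.e (nat_lit 57588) (nat_lit 73) .nil))))) (.g (nat_lit 0) (.e (nat_lit 258644) (nat_lit 0) .nil) .nil))) 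
(.lf (nat_lit 536203) (.g (nat_lit 5112) (.e (nat_lit 57927) (nat_lit 282) (.e (nat_lit 163869) (nat_lit 2) (.e (nat_lit 196668) (nat_lit 14) (.e (nat_lit 73747) (nat_lit 3) (.e (nat_lit 516129) (nat_lit 3) (.e (nat_lit 221214) (nat_lit 23) (.e (nat_lit 204830) (nat_lit 18) .nil))))))) (.g (nat_lit 1) (.e (nat_lit 259868) (nat_lit 0) .nil) .nil)))) (.nd (nat_lit 9) 
(.lf (nat_lit 535947) (.g (nat_lit 2175) (.e (nat_lit 57878) (nat_lit 270) (.e (nat_lit 496) (nat_lit 39) (.e (nat_lit 483380) (nat_lit 23) (.e (nat_lit 336320) (nat_lit 17) (.e (nat_lit 196698) (nat_lit 19) (.e (nat_lit 57816) (nat_lit 246) .nil)))))) (.g (nat_lit 1) (.e (nat_lit 259090) (nat_lit 0) .nil) .nil))) 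
(.lf (nat_lit 536459) (.g (nat_lit 3342) (.e (nat_lit 57929) (nat_lit 282) (.e (nat_lit 163923) (nat_lit 15) (.e (nat_lit 450587) (nat_lit 10) (.e (nat_lit 573475) (nat_lit 12) (.e (nat_lit 57360) (nat_lit 0) .nil))))) (.g (nat_lit 0) (.e (nat_lit 260404) (nat_lit 0) .nil) .nil)))))) (.nd (nat_lit 7) (.nd (nat_lit 8) (.nd (nat_lit 9) 
(.lf (nat_lit 535627) (.g (nat_lit 1374) (.e (nat_lit 57851) (nat_lit 252) (.e (nat_lit 57389) (nat_lit 5) (.e (nat_lit 114698) (nat_lit 11) (.e (nat_lit 426197) (nat_lit 9) .nil)))) (.g (nat_lit 0) (.e (nat_lit 258565) (nat_lit 0) .nil) .nil))) 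
(.lf (nat_lit 536139) (.g (nat_lit 3139) (.e (nat_lit 57926) (nat_lit 282) (.e (nat_lit 163902) (nat_lit 12) (.e (nat_lit 426555) (nat_lit 32) (.e (nat_lit 376865) (nat_lit 22) (.e (nat_lit 90160) (nat_lit 11) (.e (nat_lit 24598) (nat_lit 1) .nil)))))) (.g (nat_lit 1) (.e (nat_lit 259702) (nat_lit 0) .nil) .nil)))) (.nd (nat_lit 9) 
(.lf (nat_lit 535883) (.g (nat_lit 4075) (.e (nat_lit 57854) (nat_lit 252) (.e (nat_lit 57409) (nat_lit 12) (.e (nat_lit 336326) (nat_lit 18) (.e (nat_lit 204869) (nat_lit 29) (.e (nat_lit 360451) (nat_lit 0) (.e (nat_lit 7695) (nat_lit 412) (.e (nat_lit 57365) (nat_lit 1) .nil))))))) (.g (nat_lit 1) (.e (nat_lit 258950) (nat_lit 0) .nil) .nil))) 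
(.lf (nat_lit 536395) (.g (nat_lit 1710) (.e (nat_lit 57929) (nat_lit 282) (.e (nat_lit 163866) (nat_lit 2) (.e (nat_lit 196666) (nat_lit 13) (.e (nat_lit 65569) (nat_lit 3) .nil)))) (.g (nat_lit 0) (.e (nat_lit 260303) (nat_lit 0) .nil) .nil))))) (.nd (nat_lit 8) (.nd (nat_lit 9) 
(.lf (nat_lit 535755) (.g (nat_lit 3166) (.e (nat_lit 57854) (nat_lit 252) (.e (nat_lit 57373) (nat_lit 2) (.e (nat_lit 90160) (nat_lit 11) (.e (nat_lit 24608) (nat_lit 3) (.e (nat_lit 98321) (nat_lit 17) (.e (nat_lit 3771) (nat_lit 229) (.e (nat_lit 794673) (nat_lit 23) (.e (nat_lit 204830) (nat_lit 18) .nil)))))))) (.g (nat_lit 1) (.e (nat_lit 258747) (nat_lit 0) .nil) .nil))) 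
(.lf (nat_lit 536267) (.g (nat_lit 1086) (.e (nat_lit 57927) (nat_lit 282) (.e (nat_lit 163874) (nat_lit 3) (.e (nat_lit 204880) (nat_lit 32) .nil))) (.g (nat_lit 0) (.e (nat_lit 259997) (nat_lit 0) .nil) .nil)))) (.nd (nat_lit 9) 
(.lf (nat_lit 536011) (.g (nat_lit 1610) (.e (nat_lit 57884) (nat_lit 270) (.e (nat_lit 1550) (nat_lit 109) (.e (nat_lit 344160) (nat_lit 37) (.e (nat_lit 647199) (nat_lit 11) (.e (nat_lit 16392) (nat_lit 0) .nil))))) (.g (nat_lit 0) (.e (nat_lit 259287) (nat_lit 0) .nil) .nil))) 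
(.lf (nat_lit 536523) (.g (nat_lit 2123) (.e (nat_lit 57931) (nat_lit 282) (.e (nat_lit 163867) (nat_lit 2) (.e (nat_lit 196664) (nat_lit 13) (.e (nat_lit 65571) (nat_lit 3) (.e (nat_lit 98341) (nat_lit 20) .nil))))) (.g (nat_lit 0) (.e (nat_lit 260594) (nat_lit 0) .nil) .nil))))))) (.nd (nat_lit 6) (.nd (nat_lit 7) (.nd (nat_lit 8) (.nd (nat_lit 9) 
(.lf (nat_lit 535595) (.g (nat_lit 2740) (.e (nat_lit 57850) (nat_lit 252) (.e (nat_lit 57406) (nat_lit 12) (.e (nat_lit 336454) (nat_lit 34) (.e (nat_lit 483382) (nat_lit 23) .nil)))) (.g (nat_lit 0) (.e (nat_lit 258520) (nat_lit 0) .nil) .nil))) 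
(.lf (nat_lit 536107) (.g (nat_lit 1143) (.e (nat_lit 57926) (nat_lit 282) (.e (nat_lit 163869) (nat_lit 2) (.e (nat_lit 196668) (nat_lit 14) (.e (nat_lit 73747) (nat_lit 3) .nil)))) (.g (nat_lit 0) (.e (nat_lit 259603) (nat_lit 0) .nil) .nil)))) (.nd (nat_lit 9) 
(.lf (nat_lit 535851) (.g (nat_lit 3344) (.e (nat_lit 57854) (nat_lit 252) (.e (nat_lit 57409) (nat_lit 12) (.e (nat_lit 336316) (nat_lit 17) (.e (nat_lit 196666) (nat_lit 13) (.e (nat_lit 65610) (nat_lit 10) (.e (nat_lit 344088) (nat_lit 18) (.e (nat_lit 7693) (nat_lit 412) (.e (nat_lit 57368) (nat_lit 1) .nil)))))))) (.g (nat_lit 1) (.e (nat_lit 258918) (nat_lit 0) .nil) .nil))) 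
(.lf (nat_lit 536363) (.g (nat_lit 4502) (.e (nat_lit 57927) (nat_lit 282) (.e (nat_lit 163933) (nat_lit 17) (.e (nat_lit 466981) (nat_lit 23) (.e (nat_lit 204809) (nat_lit 9) (.e (nat_lit 426108) (nat_lit 1) (.e (nat_lit 164330) (nat_lit 230) (.e (nat_lit 171776) (nat_lit 62) .nil))))))) (.g (nat_lit 1) (.e (nat_lit 260140) (nat_lit 0) .nil) .nil))))) (.nd (nat_lit 8) (.nd (nat_lit 9) 
(.lf (nat_lit 535723) (.g (nat_lit 1774) (.e (nat_lit 57853) (nat_lit 252) (.e (nat_lit 57406) (nat_lit 12) (.e (nat_lit 336367) (nat_lit 27) (.e (nat_lit 426530) (nat_lit 27) (.e (nat_lit 336116) (nat_lit 9) .nil))))) (.g (nat_lit 0) (.e (nat_lit 258707) (nat_lit 0) .nil) .nil))) 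
(.lf (nat_lit 536235) (.g (nat_lit 2386) (.e (nat_lit 57927) (nat_lit 282) (.e (nat_lit 163873) (nat_lit 3) (.e (nat_lit 204861) (nat_lit 26) (.e (nat_lit 336075) (nat_lit 9) (.e (nat_lit 336454) (nat_lit 34) (.e (nat_lit 483362) (nat_lit 18) .nil)))))) (.g (nat_lit 1) (.e (nat_lit 259940) (nat_lit 0) .nil) .nil)))) (.nd (nat_lit 9) 
(.lf (nat_lit 535979) (.g (nat_lit 1932) (.e (nat_lit 57883) (nat_lit 270) (.e (nat_lit 174) (nat_lit 12) (.e (nat_lit 204859) (nat_lit 26) (.e (nat_lit 336209) (nat_lit 13) (.e (nat_lit 393221) (nat_lit 0) (.e (nat_lit 6216) (nat_lit 333) .nil)))))) (.g (nat_lit 1) (.e (nat_lit 259217) (nat_lit 0) .nil) .nil))) 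
(.lf (nat_lit 536491) (.g (nat_lit 2020) (.e (nat_lit 57930) (nat_lit 282) (.e (nat_lit 163869) (nat_lit 2) (.e (nat_lit 196668) (nat_lit 14) (.e (nat_lit 73747) (nat_lit 3) (.e (nat_lit 516131) (nat_lit 3) .nil))))) (.g (nat_lit 0) (.e (nat_lit 260511) (nat_lit 0) .nil) .nil)))))) (.nd (nat_lit 7) (.nd (nat_lit 8) (.nd (nat_lit 9) 
(.lf (nat_lit 535659) (.g (nat_lit 2131) (.e (nat_lit 57851) (nat_lit 252) (.e (nat_lit 57406) (nat_lit 12) (.e (nat_lit 336456) (nat_lit 34) (.e (nat_lit 483383) (nat_lit 23) (.e (nat_lit 336261) (nat_lit 15) (.e (nat_lit 3230) (nat_lit 197) (.e (nat_lit 532504) (nat_lit 1) .nil))))))) (.g (nat_lit 1) (.e (nat_lit 258609) (nat_lit 0) .nil) .nil))) 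
(.lf (nat_lit 536171) (.g (nat_lit 3011) (.e (nat_lit 57927) (nat_lit 282) (.e (nat_lit 163868) (nat_lit 2) (.e (nat_lit 196663) (nat_lit 13) (.e (nat_lit 65569) (nat_lit 3) (.e (nat_lit 98342) (nat_lit 20) (.e (nat_lit 221213) (nat_lit 23) (.e (nat_lit 204829) (nat_lit 18) .nil))))))) (.g (nat_lit 1) (.e (nat_lit 259810) (nat_lit 0) .nil) .nil)))) (.nd (nat_lit 9) 
(.lf (nat_lit 535915) (.g (nat_lit 1982) (.e (nat_lit 57872) (nat_lit 264) (.e (nat_lit 1190) (nat_lit 88) (.e (nat_lit 65628) (nat_lit 14) (.e (nat_lit 401457) (nat_lit 13) (.e (nat_lit 483389) (nat_lit 23) .nil))))) (.g (nat_lit 0) (.e (nat_lit 259013) (nat_lit 0) .nil) .nil))) 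
(.lf (nat_lit 536427) (.g (nat_lit 3176) (.e (nat_lit 57929) (nat_lit 282) (.e (nat_lit 163874) (nat_lit 3) (.e (nat_lit 204866) (nat_lit 28) (.e (nat_lit 352277) (nat_lit 11) (.e (nat_lit 426500) (nat_lit 27) (.e (nat_lit 335996) (nat_lit 1) .nil)))))) (.g (nat_lit 1) (.e (nat_lit 260351) (nat_lit 0) .nil) .nil))))) (.nd (nat_lit 8) (.nd (nat_lit 9) 
(.lf (nat_lit 535787) (.g (nat_lit 2706) (.e (nat_lit 57854) (nat_lit 252) (.e (nat_lit 57388) (nat_lit 5) (.e (nat_lit 114698) (nat_lit 11) (.e (nat_lit 426198) (nat_lit 9) (.e (nat_lit 426555) (nat_lit 32) (.e (nat_lit 376856) (nat_lit 21) .nil)))))) (.g (nat_lit 1) (.e (nat_lit 258796) (nat_lit 0) .nil) .nil))) 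
(.lf (nat_lit 536299) (.g (nat_lit 1755) (.e (nat_lit 57927) (nat_lit 282) (.e (nat_lit 163886) (nat_lit 5) (.e (nat_lit 221210) (nat_lit 22) (.e (nat_lit 196656) (nat_lit 11) (.e (nat_lit 16425) (nat_lit 7) .nil))))) (.g (nat_lit 0) (.e (nat_lit 260056) (nat_lit 0) .nil) .nil)))) (.nd (nat_lit 9) 
(.lf (nat_lit 536043) (.g (nat_lit 1521) (.e (nat_lit 57924) (nat_lit 282) (.e (nat_lit 163871) (nat_lit 2) (.e (nat_lit 196668) (nat_lit 14) (.e (nat_lit 73746) (nat_lit 3) .nil)))) (.g (nat_lit 0) (.e (nat_lit 259430) (nat_lit 0) .nil) .nil))) 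
(.lf (nat_lit 536555) (.g (nat_lit 2295) (.e (nat_lit 57931) (nat_lit 282) (.e (nat_lit 163869) (nat_lit 2) (.e (nat_lit 196668) (nat_lit 14) (.e (nat_lit 73746) (nat_lit 3) (.e (nat_lit 516131) (nat_lit 3) .nil))))) (.g (nat_lit 0) (.e (nat_lit 260651) (nat_lit 0) .nil) .nil)))))))) (.nd (nat_lit 5) (.nd (nat_lit 6) (.nd (nat_lit 7) (.nd (nat_lit 8) (.nd (nat_lit 9) 
(.lf (nat_lit 535579) (.g (nat_lit 2814) (.e (nat_lit 57849) (nat_lit 252) (.e (nat_lit 57406) (nat_lit 12) (.e (nat_lit 336454) (nat_lit 34) (.e (nat_lit 483405) (nat_lit 26) .nil)))) (.g (nat_lit 0) (.e (nat_lit 258502) (nat_lit 0) .nil) .nil))) 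
(.lf (nat_lit 536091) (.g (nat_lit 1358) (.e (nat_lit 57926) (nat_lit 282) (.e (nat_lit 163867) (nat_lit 2) (.e (nat_lit 196681) (nat_lit 17) (.e (nat_lit 131109) (nat_lit 9) .nil)))) (.g (nat_lit 0) (.e (nat_lit 259573) (nat_lit 0) .nil) .nil)))) (.nd (nat_lit 9) 
(.lf (nat_lit 535835) (.g (nat_lit 1869) (.e (nat_lit 57854) (nat_lit 252) (.e (nat_lit 57406) (nat_lit 12) (.e (nat_lit 336454) (nat_lit 34) (.e (nat_lit 483385) (nat_lit 23) (.e (nat_lit 336270) (nat_lit 15) .nil))))) (.g (nat_lit 0) (.e (nat_lit 258902) (nat_lit 0) .nil) .nil))) 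
(.lf (nat_lit 536347) (.g (nat_lit 2521) (.e (nat_lit 57927) (nat_lit 282) (.e (nat_lit 163933) (nat_lit 17) (.e (nat_lit 466977) (nat_lit 22) (.e (nat_lit 196624) (nat_lit 9) (.e (nat_lit 489) (nat_lit 38) (.e (nat_lit 475212) (nat_lit 42) (.e (nat_lit 720931) (nat_lit 21) .nil))))))) (.g (nat_lit 1) (.e (nat_lit 260124) (nat_lit 0) .nil) .nil))))) (.nd (nat_lit 8) (.nd (nat_lit 9) 
(.lf (nat_lit 535707) (.g (nat_lit 1899) (.e (nat_lit 57852) (nat_lit 252) (.e (nat_lit 57406) (nat_lit 12) (.e (nat_lit 336456) (nat_lit 34) (.e (nat_lit 483346) (nat_lit 17) .nil)))) (.g (nat_lit 0) (.e (nat_lit 258681) (nat_lit 0) .nil) .nil))) 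
(.lf (nat_lit 536219) (.g (nat_lit 1793) (.e (nat_lit 57927) (nat_lit 282) (.e (nat_lit 163870) (nat_lit 2) (.e (nat_lit 196668) (nat_lit 14) (.e (nat_lit 73747) (nat_lit 3) (.e (nat_lit 516131) (nat_lit 3) .nil))))) (.g (nat_lit 0) (.e (nat_lit 259900) (nat_lit 0) .nil) .nil)))) (.nd (nat_lit 9) 
(.lf (nat_lit 535963) (.g (nat_lit 1249) (.e (nat_lit 57879) (nat_lit 270) (.e (nat_lit 496) (nat_lit 39) (.e (nat_lit 483382) (nat_lit 23) (.e (nat_lit 336316) (nat_lit 17) (.e (nat_lit 204544) (nat_lit 19) (.e (nat_lit 57811) (nat_lit 246) .nil)))))) (.g (nat_lit 1) (.e (nat_lit 259131) (nat_lit 0) .nil) .nil))) 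
(.lf (nat_lit 536475) (.g (nat_lit 1051) (.e (nat_lit 57929) (nat_lit 282) (.e (nat_lit 163943) (nat_lit 19) (.e (nat_lit 483350) (nat_lit 17) .nil))) (.g (nat_lit 0) (.e (nat_lit 260449) (nat_lit 0) .nil) .nil)))))) (.nd (nat_lit 7) (.nd (nat_lit 8) (.nd (nat_lit 9) 
(.lf (nat_lit 535643) (.g (nat_lit 2320) (.e (nat_lit 57851) (nat_lit 252) (.e (nat_lit 57406) (nat_lit 12) (.e (nat_lit 336454) (nat_lit 34) (.e (nat_lit 483402) (nat_lit 26) (.e (nat_lit 385068) (nat_lit 26) .nil))))) (.g (nat_lit 0) (.e (nat_lit 258593) (nat_lit 0) .nil) .nil))) 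
(.lf (nat_lit 536155) (.g (nat_lit 1167) (.e (nat_lit 57927) (nat_lit 282) (.e (nat_lit 163866) (nat_lit 2) (.e (nat_lit 196665) (nat_lit 13) (.e (nat_lit 65625) (nat_lit 13) (.e (nat_lit 393225) (nat_lit 9) .nil))))) (.g (nat_lit 0) (.e (nat_lit 259779) (nat_lit 0) .nil) .nil)))) (.nd (nat_lit 9) 
(.lf (nat_lit 535899) (.g (nat_lit 4069) (.e (nat_lit 57854) (nat_lit 252) (.e (nat_lit 57445) (nat_lit 19) (.e (nat_lit 393229) (nat_lit 9) (.e (nat_lit 336155) (nat_lit 9) .nil)))) (.g (nat_lit 0) (.e (nat_lit 258967) (nat_lit 0) .nil) .nil))) 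
(.lf (nat_lit 536411) (.g (nat_lit 1370) (.e (nat_lit 57929) (nat_lit 282) (.e (nat_lit 163869) (nat_lit 2) (.e (nat_lit 196681) (nat_lit 17) (.e (nat_lit 131124) (nat_lit 13) .nil)))) (.g (nat_lit 0) (.e (nat_lit 260334) (nat_lit 0) .nil) .nil))))) (.nd (nat_lit 8) (.nd (nat_lit 9) 
(.lf (nat_lit 535771) (.g (nat_lit 548) (.e (nat_lit 57854) (nat_lit 252) (.e (nat_lit 57378) (nat_lit 3) (.e (nat_lit 98334) (nat_lit 18) .nil))) (.g (nat_lit 0) (.e (nat_lit 258771) (nat_lit 0) .nil) .nil))) 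
(.lf (nat_lit 536283) (.g (nat_lit 3165) (.e (nat_lit 57927) (nat_lit 282) (.e (nat_lit 163875) (nat_lit 3) (.e (nat_lit 204863) (nat_lit 27) (.e (nat_lit 344117) (nat_lit 21) (.e (nat_lit 516099) (nat_lit 0) (.e (nat_lit 3771) (nat_lit 229) (.e (nat_lit 794673) (nat_lit 23) (.e (nat_lit 204830) (nat_lit 18) .nil)))))))) (.g (nat_lit 1) (.e (nat_lit 260023) (nat_lit 0) .nil) .nil)))) 
(.nd (nat_lit 9) 
(.lf (nat_lit 536027) (.g (nat_lit 1844) (.e (nat_lit 57924) (nat_lit 282) (.e (nat_lit 163867) (nat_lit 2) (.e (nat_lit 196668) (nat_lit 14) (.e (nat_lit 73747) (nat_lit 3) (.e (nat_lit 516131) (nat_lit 3) .nil))))) (.g (nat_lit 0) (.e (nat_lit 259398) (nat_lit 0) .nil) .nil))) 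
(.lf (nat_lit 536539) (.g (nat_lit 925) (.e (nat_lit 57931) (nat_lit 282) (.e (nat_lit 163867) (nat_lit 2) (.e (nat_lit 196679) (nat_lit 17) (.e (nat_lit 131125) (nat_lit 13) .nil)))) (.g (nat_lit 0) (.e (nat_lit 260624) (nat_lit 0) .nil) .nil))))))) (.nd (nat_lit 6) (.nd (nat_lit 7) (.nd (nat_lit 8) (.nd (nat_lit 9) 
(.lf (nat_lit 535611) (.g (nat_lit 2018) (.e (nat_lit 57851) (nat_lit 252) (.e (nat_lit 57373) (nat_lit 2) (.e (nat_lit 90158) (nat_lit 11) (.e (nat_lit 24630) (nat_lit 9) .nil)))) (.g (nat_lit 0) (.e (nat_lit 258538) (nat_lit 0) .nil) .nil))) 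
(.lf (nat_lit 536123) (.g (nat_lit 1266) (.e (nat_lit 57926) (nat_lit 282) (.e (nat_lit 163874) (nat_lit 3) (.e (nat_lit 204862) (nat_lit 27) (.e (nat_lit 344117) (nat_lit 21) .nil)))) (.g (nat_lit 0) (.e (nat_lit 259637) (nat_lit 0) .nil) .nil)))) (.nd (nat_lit 9) 
(.lf (nat_lit 535867) (.g (nat_lit 3021) (.e (nat_lit 57854) (nat_lit 252) (.e (nat_lit 57409) (nat_lit 12) (.e (nat_lit 336316) (nat_lit 17) (.e (nat_lit 196666) (nat_lit 13) (.e (nat_lit 65617) (nat_lit 10) (.e (nat_lit 344088) (nat_lit 18) (.e (nat_lit 7695) (nat_lit 412) (.e (nat_lit 57366) (nat_lit 1) .nil)))))))) (.g (nat_lit 1) (.e (nat_lit 258934) (nat_lit 0) .nil) .nil))) 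
(.lf (nat_lit 536379) (.g (nat_lit 1337) (.e (nat_lit 57928) (nat_lit 282) (.e (nat_lit 163868) (nat_lit 2) (.e (nat_lit 196668) (nat_lit 14) (.e (nat_lit 73747) (nat_lit 3) .nil)))) (.g (nat_lit 0) (.e (nat_lit 260242) (nat_lit 0) .nil) .nil))))) (.nd (nat_lit 8) (.nd (nat_lit 9) 
(.lf (nat_lit 535739) (.g (nat_lit 2590) (.e (nat_lit 57853) (nat_lit 252) (.e (nat_lit 57409) (nat_lit 12) (.e (nat_lit 336454) (nat_lit 34) (.e (nat_lit 483385) (nat_lit 23) (.e (nat_lit 336324) (nat_lit 18) .nil))))) (.g (nat_lit 0) (.e (nat_lit 258723) (nat_lit 0) .nil) .nil))) 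
(.lf (nat_lit 536251) (.g (nat_lit 3027) (.e (nat_lit 57927) (nat_lit 282) (.e (nat_lit 163874) (nat_lit 3) (.e (nat_lit 204862) (nat_lit 27) (.e (nat_lit 344117) (nat_lit 21) (.e (nat_lit 516122) (nat_lit 2) (.e (nat_lit 213036) (nat_lit 13) (.e (nat_lit 229433) (nat_lit 25) (.e (nat_lit 532499) (nat_lit 1) .nil)))))))) (.g (nat_lit 1) (.e (nat_lit 259973) (nat_lit 0) .nil) .nil)))) 
(.nd (nat_lit 9) 
(.lf (nat_lit 535995) (.g (nat_lit 655) (.e (nat_lit 57883) (nat_lit 270) (.e (nat_lit 496) (nat_lit 39) (.e (nat_lit 483379) (nat_lit 23) (.e (nat_lit 343808) (nat_lit 17) .nil)))) (.g (nat_lit 0) (.e (nat_lit 259262) (nat_lit 0) .nil) .nil))) 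
(.lf (nat_lit 536507) (.g (nat_lit 2636) (.e (nat_lit 57930) (nat_lit 282) (.e (nat_lit 163923) (nat_lit 15) (.e (nat_lit 450587) (nat_lit 10) (.e (nat_lit 573477) (nat_lit 12) (.e (nat_lit 57360) (nat_lit 0) .nil))))) (.g (nat_lit 0) (.e (nat_lit 260554) (nat_lit 0) .nil) .nil)))))) (.nd (nat_lit 7) (.nd (nat_lit 8) (.nd (nat_lit 9) 
(.lf (nat_lit 535675) (.g (nat_lit 2677) (.e (nat_lit 57852) (nat_lit 252) (.e (nat_lit 57371) (nat_lit 2) (.e (nat_lit 90158) (nat_lit 11) (.e (nat_lit 24608) (nat_lit 3) (.e (nat_lit 98340) (nat_lit 20) (.e (nat_lit 221213) (nat_lit 23) (.e (nat_lit 204830) (nat_lit 18) .nil))))))) (.g (nat_lit 1) (.e (nat_lit 258626) (nat_lit 0) .nil) .nil))) 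
(.lf (nat_lit 536187) (.g (nat_lit 4611) (.e (nat_lit 57927) (nat_lit 282) (.e (nat_lit 163868) (nat_lit 2) (.e (nat_lit 196668) (nat_lit 14) (.e (nat_lit 73747) (nat_lit 3) (.e (nat_lit 516131) (nat_lit 3) (.e (nat_lit 221215) (nat_lit 23) (.e (nat_lit 204830) (nat_lit 18) .nil))))))) (.g (nat_lit 1) (.e (nat_lit 259836) (nat_lit 0) .nil) .nil)))) (.nd (nat_lit 9) 
(.lf (nat_lit 535931) (.g (nat_lit 2288) (.e (nat_lit 57873) (nat_lit 264) (.e (nat_lit 1190) (nat_lit 88) (.e (nat_lit 65630) (nat_lit 14) (.e (nat_lit 401437) (nat_lit 9) (.e (nat_lit 426538) (nat_lit 29) .nil))))) (.g (nat_lit 0) (.e (nat_lit 259037) (nat_lit 0) .nil) .nil))) 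
(.lf (nat_lit 536443) (.g (nat_lit 3012) (.e (nat_lit 57929) (nat_lit 282) (.e (nat_lit 163905) (nat_lit 12) (.e (nat_lit 426555) (nat_lit 32) (.e (nat_lit 376869) (nat_lit 23) (.e (nat_lit 98313) (nat_lit 9) (.e (nat_lit 335996) (nat_lit 1) .nil)))))) (.g (nat_lit 1) (.e (nat_lit 260377) (nat_lit 0) .nil) .nil))))) (.nd (nat_lit 8) (.nd (nat_lit 9) 
(.lf (nat_lit 535803) (.g (nat_lit 553) (.e (nat_lit 57854) (nat_lit 252) (.e (nat_lit 57389) (nat_lit 5) (.e (nat_lit 114710) (nat_lit 21) .nil))) (.g (nat_lit 0) (.e (nat_lit 258862) (nat_lit 0) .nil) .nil))) 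
(.lf (nat_lit 536315) (.g (nat_lit 2871) (.e (nat_lit 57927) (nat_lit 282) (.e (nat_lit 163903) (nat_lit 12) (.e (nat_lit 426555) (nat_lit 32) (.e (nat_lit 376862) (nat_lit 22) (.e (nat_lit 90158) (nat_lit 11) (.e (nat_lit 24598) (nat_lit 1) .nil)))))) (.g (nat_lit 1) (.e (nat_lit 260079) (nat_lit 0) .nil) .nil)))) (.nd (nat_lit 9) 
(.lf (nat_lit 536059) (.g (nat_lit 2688) (.e (nat_lit 57924) (nat_lit 282) (.e (nat_lit 163923) (nat_lit 15) (.e (nat_lit 450587) (nat_lit 10) (.e (nat_lit 573477) (nat_lit 12) (.e (nat_lit 57360) (nat_lit 0) .nil))))) (.g (nat_lit 0) (.e (nat_lit 259463) (nat_lit 0) .nil) .nil))) 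
(.lf (nat_lit 536571) (.g (nat_lit 1612) (.e (nat_lit 57931) (nat_lit 282) (.e (nat_lit 163873) (nat_lit 3) (.e (nat_lit 204855) (nat_lit 26) (.e (nat_lit 336218) (nat_lit 13) .nil)))) (.g (nat_lit 0) (.e (nat_lit 260690) (nat_lit 0) .nil) .nil)))))))))) (.nd (nat_lit 3) (.nd (nat_lit 4) (.nd (nat_lit 5) (.nd (nat_lit 6) (.nd (nat_lit 7) (.nd (nat_lit 8) (.nd (nat_lit 9) 
(.lf (nat_lit 535559) (.g (nat_lit 2872) (.e (nat_lit 57849) (nat_lit 252) (.e (nat_lit 57377) (nat_lit 3) (.e (nat_lit 98333) (nat_lit 18) (.e (nat_lit 164403) (nat_lit 256) (.e (nat_lit 57588) (nat_lit 73) .nil))))) (.g (nat_lit 0) (.e (nat_lit 258461) (nat_lit 0) .nil) .nil))) 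
(.lf (nat_lit 536071) (.g (nat_lit 2627) (.e (nat_lit 57925) (nat_lit 282) (.e (nat_lit 163870) (nat_lit 2) (.e (nat_lit 196666) (nat_lit 13) (.e (nat_lit 65569) (nat_lit 3) (.e (nat_lit 98342) (nat_lit 20) .nil))))) (.g (nat_lit 0) (.e (nat_lit 259514) (nat_lit 0) .nil) .nil)))) (.nd (nat_lit 9) 
(.lf (nat_lit 535815) (.g (nat_lit 4184) (.e (nat_lit 57854) (nat_lit 252) (.e (nat_lit 57406) (nat_lit 12) (.e (nat_lit 336316) (nat_lit 17) (.e (nat_lit 196666) (nat_lit 13) (.e (nat_lit 65610) (nat_lit 10) (.e (nat_lit 344090) (nat_lit 18) (.e (nat_lit 7695) (nat_lit 412) (.e (nat_lit 57366) (nat_lit 1) .nil)))))))) (.g (nat_lit 1) (.e (nat_lit 258882) (nat_lit 0) .nil) .nil))) 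
(.lf (nat_lit 536327) (.g (nat_lit 2450) (.e (nat_lit 57927) (nat_lit 282) (.e (nat_lit 163906) (nat_lit 12) (.e (nat_lit 426555) (nat_lit 32) (.e (nat_lit 376865) (nat_lit 22) (.e (nat_lit 90158) (nat_lit 11) (.e (nat_lit 24598) (nat_lit 1) .nil)))))) (.g (nat_lit 1) (.e (nat_lit 260092) (nat_lit 0) .nil) .nil))))) (.nd (nat_lit 8) (.nd (nat_lit 9) 
(.lf (nat_lit 535687) (.g (nat_lit 4413) (.e (nat_lit 57852) (nat_lit 252) (.e (nat_lit 57377) (nat_lit 3) (.e (nat_lit 98317) (nat_lit 9) (.e (nat_lit 335995) (nat_lit 1) .nil)))) (.g (nat_lit 0) (.e (nat_lit 258639) (nat_lit 0) .nil) .nil))) 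
(.lf (nat_lit 536199) (.g (nat_lit 1193) (.e (nat_lit 57927) (nat_lit 282) (.e (nat_lit 163869) (nat_lit 2) (.e (nat_lit 196666) (nat_lit 13) (.e (nat_lit 65569) (nat_lit 3) .nil)))) (.g (nat_lit 0) (.e (nat_lit 259854) (nat_lit 0) .nil) .nil)))) (.nd (nat_lit 9) 
(.lf (nat_lit 535943) (.g (nat_lit 1489) (.e (nat_lit 57878) (nat_lit 270) (.e (nat_lit 496) (nat_lit 39) (.e (nat_lit 483379) (nat_lit 23) (.e (nat_lit 336320) (nat_lit 17) (.e (nat_lit 196698) (nat_lit 19) (.e (nat_lit 57815) (nat_lit 246) .nil)))))) (.g (nat_lit 1) (.e (nat_lit 259086) (nat_lit 0) .nil) .nil))) 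
(.lf (nat_lit 536455) (.g (nat_lit 1808) (.e (nat_lit 57929) (nat_lit 282) (.e (nat_lit 163923) (nat_lit 15) (.e (nat_lit 450587) (nat_lit 10) (.e (nat_lit 581376) (nat_lit 4) .nil)))) (.g (nat_lit 0) (.e (nat_lit 260400) (nat_lit 0) .nil) .nil)))))) (.nd (nat_lit 7) (.nd (nat_lit 8) (.nd (nat_lit 9) 
(.lf (nat_lit 535623) (.g (nat_lit 525) (.e (nat_lit 57851) (nat_lit 252) (.e (nat_lit 57389) (nat_lit 5) (.e (nat_lit 114694) (nat_lit 11) .nil))) (.g (nat_lit 0) (.e (nat_lit 258557) (nat_lit 0) .nil) .nil))) 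
(.lf (nat_lit 536135) (.g (nat_lit 2064) (.e (nat_lit 57926) (nat_lit 282) (.e (nat_lit 163886) (nat_lit 5) (.e (nat_lit 221212) (nat_lit 22) (.e (nat_lit 196654) (nat_lit 11) (.e (nat_lit 16456) (nat_lit 12) (.e (nat_lit 475177) (nat_lit 24) (.e (nat_lit 524032) (nat_lit 18) .nil))))))) (.g (nat_lit 1) (.e (nat_lit 259682) (nat_lit 0) .nil) .nil)))) (.nd (nat_lit 9) 
(.lf (nat_lit 535879) (.g (nat_lit 4352) (.e (nat_lit 57854) (nat_lit 252) (.e (nat_lit 57409) (nat_lit 12) (.e (nat_lit 336326) (nat_lit 18) (.e (nat_lit 204869) (nat_lit 29) (.e (nat_lit 360450) (nat_lit 0) (.e (nat_lit 7695) (nat_lit 412) (.e (nat_lit 57366) (nat_lit 1) .nil))))))) (.g (nat_lit 1) (.e (nat_lit 258946) (nat_lit 0) .nil) .nil))) 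
(.lf (nat_lit 536391) (.g (nat_lit 2212) (.e (nat_lit 57928) (nat_lit 282) (.e (nat_lit 163875) (nat_lit 3) (.e (nat_lit 204862) (nat_lit 27) (.e (nat_lit 344117) (nat_lit 21) (.e (nat_lit 516122) (nat_lit 2) .nil))))) (.g (nat_lit 0) (.e (nat_lit 260287) (nat_lit 0) .nil) .nil))))) (.nd (nat_lit 8) (.nd (nat_lit 9) 
(.lf (nat_lit 535751) (.g (nat_lit 1525) (.e (nat_lit 57854) (nat_lit 252) (.e (nat_lit 57373) (nat_lit 2) (.e (nat_lit 90158) (nat_lit 11) (.e (nat_lit 24624) (nat_lit 9) .nil)))) (.g (nat_lit 0) (.e (nat_lit 258739) (nat_lit 0) .nil) .nil))) 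
(.lf (nat_lit 536263) (.g (nat_lit 421) (.e (nat_lit 57927) (nat_lit 282) (.e (nat_lit 163874) (nat_lit 3) (.e (nat_lit 204876) (nat_lit 31) .nil))) (.g (nat_lit 0) (.e (nat_lit 259993) (nat_lit 0) .nil) .nil)))) (.nd (nat_lit 9) 
(.lf (nat_lit 536007) (.g (nat_lit 1640) (.e (nat_lit 57883) (nat_lit 270) (.e (nat_lit 496) (nat_lit 39) (.e (nat_lit 483405) (nat_lit 26) (.e (nat_lit 385057) (nat_lit 22) (.e (nat_lit 499780) (nat_lit 1) (.e (nat_lit 57810) (nat_lit 246) .nil)))))) (.g (nat_lit 1) (.e (nat_lit 259280) (nat_lit 0) .nil) .nil))) 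
(.lf (nat_lit 536519) (.g (nat_lit 594) (.e (nat_lit 57931) (nat_lit 282) (.e (nat_lit 163867) (nat_lit 2) (.e (nat_lit 196662) (nat_lit 13) .nil))) (.g (nat_lit 0) (.e (nat_lit 260585) (nat_lit 0) .nil) .nil))))))) (.nd (nat_lit 6) (.nd (nat_lit 7) (.nd (nat_lit 8) (.nd (nat_lit 9) 
(.lf (nat_lit 535591) (.g (nat_lit 792) (.e (nat_lit 57849) (nat_lit 252) (.e (nat_lit 57411) (nat_lit 12) (.e (nat_lit 336455) (nat_lit 34) .nil))) (.g (nat_lit 0) (.e (nat_lit 258516) (nat_lit 0) .nil) .nil))) 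
(.lf (nat_lit 536103) (.g (nat_lit 1862) (.e (nat_lit 57926) (nat_lit 282) (.e (nat_lit 163868) (nat_lit 2) (.e (nat_lit 196672) (nat_lit 15) (.e (nat_lit 81925) (nat_lit 11) .nil)))) (.g (nat_lit 0) (.e (nat_lit 259590) (nat_lit 0) .nil) .nil)))) (.nd (nat_lit 9) 
(.lf (nat_lit 535847) (.g (nat_lit 1443) (.e (nat_lit 57854) (nat_lit 252) (.e (nat_lit 57406) (nat_lit 12) (.e (nat_lit 336456) (nat_lit 34) (.e (nat_lit 483389) (nat_lit 23) .nil)))) (.g (nat_lit 0) (.e (nat_lit 258914) (nat_lit 0) .nil) .nil))) 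
(.lf (nat_lit 536359) (.g (nat_lit 4154) (.e (nat_lit 57927) (nat_lit 282) (.e (nat_lit 163933) (nat_lit 17) (.e (nat_lit 466977) (nat_lit 22) (.e (nat_lit 196656) (nat_lit 11) (.e (nat_lit 16407) (nat_lit 1) (.e (nat_lit 164330) (nat_lit 230) (.e (nat_lit 171776) (nat_lit 62) .nil))))))) (.g (nat_lit 1) (.e (nat_lit 260136) (nat_lit 0) .nil) .nil))))) (.nd (nat_lit 8) (.nd (nat_lit 9) 
(.lf (nat_lit 535719) (.g (nat_lit 2120) (.e (nat_lit 57853) (nat_lit 252) (.e (nat_lit 57371) (nat_lit 2) (.e (nat_lit 90160) (nat_lit 11) (.e (nat_lit 24628) (nat_lit 9) (.e (nat_lit 336454) (nat_lit 34) .nil))))) (.g (nat_lit 0) (.e (nat_lit 258701) (nat_lit 0) .nil) .nil))) 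
(.lf (nat_lit 536231) (.g (nat_lit 764) (.e (nat_lit 57927) (nat_lit 282) (.e (nat_lit 163871) (nat_lit 2) (.e (nat_lit 196673) (nat_lit 15) .nil))) (.g (nat_lit 0) (.e (nat_lit 259926) (nat_lit 0) .nil) .nil)))) (.nd (nat_lit 9) 
(.lf (nat_lit 535975) (.g (nat_lit 1518) (.e (nat_lit 57881) (nat_lit 270) (.e (nat_lit 496) (nat_lit 39) (.e (nat_lit 483391) (nat_lit 23) (.e (nat_lit 336319) (nat_lit 17) (.e (nat_lit 196698) (nat_lit 19) (.e (nat_lit 57816) (nat_lit 246) .nil)))))) (.g (nat_lit 1) (.e (nat_lit 259184) (nat_lit 0) .nil) .nil))) 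
(.lf (nat_lit 536487) (.g (nat_lit 2514) (.e (nat_lit 57930) (nat_lit 282) (.e (nat_lit 163869) (nat_lit 2) (.e (nat_lit 196668) (nat_lit 14) (.e (nat_lit 73746) (nat_lit 3) (.e (nat_lit 516129) (nat_lit 3) .nil))))) (.g (nat_lit 0) (.e (nat_lit 260507) (nat_lit 0) .nil) .nil)))))) (.nd (nat_lit 7) (.nd (nat_lit 8) (.nd (nat_lit 9) 
(.lf (nat_lit 535655) (.g (nat_lit 2061) (.e (nat_lit 57851) (nat_lit 252) (.e (nat_lit 57406) (nat_lit 12) (.e (nat_lit 336456) (nat_lit 34) (.e (nat_lit 483383) (nat_lit 23) (.e (nat_lit 336245) (nat_lit 15) (.e (nat_lit 3230) (nat_lit 197) (.e (nat_lit 532504) (nat_lit 1) .nil))))))) (.g (nat_lit 1) (.e (nat_lit 258605) (nat_lit 0) .nil) .nil))) 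
(.lf (nat_lit 536167) (.g (nat_lit 2414) (.e (nat_lit 57927) (nat_lit 282) (.e (nat_lit 163867) (nat_lit 2) (.e (nat_lit 196670) (nat_lit 14) (.e (nat_lit 73746) (nat_lit 3) (.e (nat_lit 516126) (nat_lit 2) .nil))))) (.g (nat_lit 0) (.e (nat_lit 259804) (nat_lit 0) .nil) .nil)))) (.nd (nat_lit 9) 
(.lf (nat_lit 535911) (.g (nat_lit 3813) (.e (nat_lit 57871) (nat_lit 264) (.e (nat_lit 1209) (nat_lit 89) (.e (nat_lit 73782) (nat_lit 32) (.e (nat_lit 2856) (nat_lit 184) (.e (nat_lit 426542) (nat_lit 29) (.e (nat_lit 352307) (nat_lit 21) .nil)))))) (.g (nat_lit 1) (.e (nat_lit 259004) (nat_lit 0) .nil) .nil))) 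
(.lf (nat_lit 536423) (.g (nat_lit 1608) (.e (nat_lit 57929) (nat_lit 282) (.e (nat_lit 163874) (nat_lit 3) (.e (nat_lit 204864) (nat_lit 27) (.e (nat_lit 344133) (nat_lit 26) .nil)))) (.g (nat_lit 0) (.e (nat_lit 260347) (nat_lit 0) .nil) .nil))))) (.nd (nat_lit 8) (.nd (nat_lit 9) 
(.lf (nat_lit 535783) (.g (nat_lit 2448) (.e (nat_lit 57854) (nat_lit 252) (.e (nat_lit 57378) (nat_lit 3) (.e (nat_lit 98342) (nat_lit 20) (.e (nat_lit 221212) (nat_lit 22) (.e (nat_lit 196665) (nat_lit 13) (.e (nat_lit 65637) (nat_lit 15) (.e (nat_lit 3253) (nat_lit 197) (.e (nat_lit 532501) (nat_lit 1) .nil)))))))) (.g (nat_lit 1) (.e (nat_lit 258785) (nat_lit 0) .nil) .nil))) 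
(.lf (nat_lit 536295) (.g (nat_lit 1921) (.e (nat_lit 57927) (nat_lit 282) (.e (nat_lit 163875) (nat_lit 3) (.e (nat_lit 204877) (nat_lit 31) (.e (nat_lit 376842) (nat_lit 11) (.e (nat_lit 426500) (nat_lit 27) (.e (nat_lit 343808) (nat_lit 1) .nil)))))) (.g (nat_lit 1) (.e (nat_lit 260048) (nat_lit 0) .nil) .nil)))) (.nd (nat_lit 9) 
(.lf (nat_lit 536039) (.g (nat_lit 1890) (.e (nat_lit 57924) (nat_lit 282) (.e (nat_lit 163869) (nat_lit 2) (.e (nat_lit 196668) (nat_lit 14) (.e (nat_lit 73747) (nat_lit 3) .nil)))) (.g (nat_lit 0) (.e (nat_lit 259423) (nat_lit 0) .nil) .nil))) 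
(.lf (nat_lit 536551) (.g (nat_lit 1962) (.e (nat_lit 57931) (nat_lit 282) (.e (nat_lit 163869) (nat_lit 2) (.e (nat_lit 196666) (nat_lit 13) (.e (nat_lit 65571) (nat_lit 3) (.e (nat_lit 98342) (nat_lit 20) .nil))))) (.g (nat_lit 0) (.e (nat_lit 260640) (nat_lit 0) .nil) .nil)))))))) (.nd (nat_lit 5) (.nd (nat_lit 6) (.nd (nat_lit 7) (.nd (nat_lit 8) (.nd (nat_lit 9) 
(.lf (nat_lit 535575) (.g (nat_lit 1342) (.e (nat_lit 57849) (nat_lit 252) (.e (nat_lit 57388) (nat_lit 5) (.e (nat_lit 114698) (nat_lit 11) (.e (nat_lit 426326) (nat_lit 13) .nil)))) (.g (nat_lit 0) (.e (nat_lit 258484) (nat_lit 0) .nil) .nil))) 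
(.lf (nat_lit 536087) (.g (nat_lit 1445) (.e (nat_lit 57926) (nat_lit 282) (.e (nat_lit 163867) (nat_lit 2) (.e (nat_lit 196668) (nat_lit 14) (.e (nat_lit 73747) (nat_lit 3) .nil)))) (.g (nat_lit 0) (.e (nat_lit 259565) (nat_lit 0) .nil) .nil)))) (.nd (nat_lit 9) 
(.lf (nat_lit 535831) (.g (nat_lit 655) (.e (nat_lit 57854) (nat_lit 252) (.e (nat_lit 57406) (nat_lit 12) (.e (nat_lit 336377) (nat_lit 27) .nil))) (.g (nat_lit 0) (.e (nat_lit 258898) (nat_lit 0) .nil) .nil))) 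
(.lf (nat_lit 536343) (.g (nat_lit 467) (.e (nat_lit 57927) (nat_lit 282) (.e (nat_lit 163933) (nat_lit 17) (.e (nat_lit 466977) (nat_lit 22) .nil))) (.g (nat_lit 0) (.e (nat_lit 260120) (nat_lit 0) .nil) .nil))))) (.nd (nat_lit 8) (.nd (nat_lit 9) 
(.lf (nat_lit 535703) (.g (nat_lit 2916) (.e (nat_lit 57852) (nat_lit 252) (.e (nat_lit 57406) (nat_lit 12) (.e (nat_lit 336316) (nat_lit 17) (.e (nat_lit 196666) (nat_lit 13) (.e (nat_lit 65617) (nat_lit 10) (.e (nat_lit 344096) (nat_lit 18) (.e (nat_lit 7697) (nat_lit 412) (.e (nat_lit 57366) (nat_lit 1) .nil)))))))) (.g (nat_lit 1) (.e (nat_lit 258677) (nat_lit 0) .nil) .nil))) 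
(.lf (nat_lit 536215) (.g (nat_lit 3181) (.e (nat_lit 57927) (nat_lit 282) (.e (nat_lit 163870) (nat_lit 2) (.e (nat_lit 196666) (nat_lit 13) (.e (nat_lit 65569) (nat_lit 3) (.e (nat_lit 98342) (nat_lit 20) (.e (nat_lit 221215) (nat_lit 23) (.e (nat_lit 204828) (nat_lit 18) .nil))))))) (.g (nat_lit 1) (.e (nat_lit 259885) (nat_lit 0) .nil) .nil)))) (.nd (nat_lit 9) 
(.lf (nat_lit 535959) (.g (nat_lit 1052) (.e (nat_lit 57879) (nat_lit 270) (.e (nat_lit 371) (nat_lit 32) (.e (nat_lit 426546) (nat_lit 30) (.e (nat_lit 360466) (nat_lit 3) (.e (nat_lit 516190) (nat_lit 17) .nil))))) (.g (nat_lit 0) (.e (nat_lit 259117) (nat_lit 0) .nil) .nil))) 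
(.lf (nat_lit 536471) (.g (nat_lit 2971) (.e (nat_lit 57929) (nat_lit 282) (.e (nat_lit 163923) (nat_lit 15) (.e (nat_lit 450588) (nat_lit 10) (.e (nat_lit 573475) (nat_lit 12) (.e (nat_lit 57360) (nat_lit 0) (.e (nat_lit 5949) (nat_lit 322) (.e (nat_lit 57389) (nat_lit 5) (.e (nat_lit 114712) (nat_lit 21) .nil)))))))) (.g (nat_lit 1) (.e (nat_lit 260423) (nat_lit 0) .nil) .nil)))))) 
(.nd (nat_lit 7) (.nd (nat_lit 8) (.nd (nat_lit 9) 
(.lf (nat_lit 535639) (.g (nat_lit 3138) (.e (nat_lit 57851) (nat_lit 252) (.e (nat_lit 57406) (nat_lit 12) (.e (nat_lit 336367) (nat_lit 27) (.e (nat_lit 426540) (nat_lit 29) (.e (nat_lit 352262) (nat_lit 0) (.e (nat_lit 3253) (nat_lit 197) (.e (nat_lit 532501) (nat_lit 1) .nil))))))) (.g (nat_lit 1) (.e (nat_lit 258589) (nat_lit 0) .nil) .nil))) 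
(.lf (nat_lit 536151) (.g (nat_lit 2687) (.e (nat_lit 57926) (nat_lit 282) (.e (nat_lit 163943) (nat_lit 19) (.e (nat_lit 483346) (nat_lit 17) (.e (nat_lit 6712) (nat_lit 360) (.e (nat_lit 163978) (nat_lit 30) (.e (nat_lit 573485) (nat_lit 13) (.e (nat_lit 65563) (nat_lit 1) .nil))))))) (.g (nat_lit 1) (.e (nat_lit 259747) (nat_lit 0) .nil) .nil)))) (.nd (nat_lit 9) 
(.lf (nat_lit 535895) (.g (nat_lit 976) (.e (nat_lit 57854) (nat_lit 252) (.e (nat_lit 57409) (nat_lit 12) (.e (nat_lit 336456) (nat_lit 34) (.e (nat_lit 483378) (nat_lit 23) .nil)))) (.g (nat_lit 0) (.e (nat_lit 258963) (nat_lit 0) .nil) .nil))) 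
(.lf (nat_lit 536407) (.g (nat_lit 1734) (.e (nat_lit 57929) (nat_lit 282) (.e (nat_lit 163869) (nat_lit 2) (.e (nat_lit 196668) (nat_lit 14) (.e (nat_lit 73747) (nat_lit 3) (.e (nat_lit 516129) (nat_lit 3) .nil))))) (.g (nat_lit 0) (.e (nat_lit 260325) (nat_lit 0) .nil) .nil))))) (.nd (nat_lit 8) (.nd (nat_lit 9) 
(.lf (nat_lit 535767) (.g (nat_lit 1202) (.e (nat_lit 57854) (nat_lit 252) (.e (nat_lit 57378) (nat_lit 3) (.e (nat_lit 98326) (nat_lit 17) .nil))) (.g (nat_lit 0) (.e (nat_lit 258767) (nat_lit 0) .nil) .nil))) 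
(.lf (nat_lit 536279) (.g (nat_lit 3411) (.e (nat_lit 57927) (nat_lit 282) (.e (nat_lit 163875) (nat_lit 3) (.e (nat_lit 204862) (nat_lit 27) (.e (nat_lit 344117) (nat_lit 21) (.e (nat_lit 516099) (nat_lit 0) (.e (nat_lit 3771) (nat_lit 229) (.e (nat_lit 794673) (nat_lit 23) (.e (nat_lit 204830) (nat_lit 18) .nil)))))))) (.g (nat_lit 1) (.e (nat_lit 260019) (nat_lit 0) .nil) .nil)))) 
(.nd (nat_lit 9) 
(.lf (nat_lit 536023) (.g (nat_lit 1384) (.e (nat_lit 57924) (nat_lit 282) (.e (nat_lit 163867) (nat_lit 2) (.e (nat_lit 196668) (nat_lit 14) (.e (nat_lit 73746) (nat_lit 3) .nil)))) (.g (nat_lit 0) (.e (nat_lit 259390) (nat_lit 0) .nil) .nil))) 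
(.lf (nat_lit 536535) (.g (nat_lit 3795) (.e (nat_lit 57931) (nat_lit 282) (.e (nat_lit 163867) (nat_lit 2) (.e (nat_lit 196670) (nat_lit 14) (.e (nat_lit 73746) (nat_lit 3) (.e (nat_lit 516131) (nat_lit 3) (.e (nat_lit 221215) (nat_lit 23) (.e (nat_lit 204828) (nat_lit 18) .nil))))))) (.g (nat_lit 1) (.e (nat_lit 260618) (nat_lit 0) .nil) .nil))))))) 
(.nd (nat_lit 6) (.nd (nat_lit 7) (.nd (nat_lit 8) (.nd (nat_lit 9) 
(.lf (nat_lit 535607) (.g (nat_lit 1734) (.e (nat_lit 57851) (nat_lit 252) (.e (nat_lit 57371) (nat_lit 2) (.e (nat_lit 90160) (nat_lit 11) (.e (nat_lit 24580) (nat_lit 0) .nil)))) (.g (nat_lit 0) (.e (nat_lit 258533) (nat_lit 0) .nil) .nil))) 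
(.lf (nat_lit 536119) (.g (nat_lit 1131) (.e (nat_lit 57926) (nat_lit 282) (.e (nat_lit 163874) (nat_lit 3) (.e (nat_lit 204829) (nat_lit 18) .nil))) (.g (nat_lit 0) (.e (nat_lit 259632) (nat_lit 0) .nil) .nil)))) (.nd (nat_lit 9) 
(.lf (nat_lit 535863) (.g (nat_lit 2666) (.e (nat_lit 57854) (nat_lit 252) (.e (nat_lit 57409) (nat_lit 12) (.e (nat_lit 336316) (nat_lit 17) (.e (nat_lit 196666) (nat_lit 13) (.e (nat_lit 65617) (nat_lit 10) (.e (nat_lit 344087) (nat_lit 18) (.e (nat_lit 7695) (nat_lit 412) (.e (nat_lit 57366) (nat_lit 1) .nil)))))))) (.g (nat_lit 1) (.e (nat_lit 258930) (nat_lit 0) .nil) .nil))) 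
(.lf (nat_lit 536375) (.g (nat_lit 986) (.e (nat_lit 57928) (nat_lit 282) (.e (nat_lit 163868) (nat_lit 2) (.e (nat_lit 196663) (nat_lit 13) .nil))) (.g (nat_lit 0) (.e (nat_lit 260234) (nat_lit 0) .nil) .nil))))) (.nd (nat_lit 8) (.nd (nat_lit 9) 
(.lf (nat_lit 535735) (.g (nat_lit 1803) (.e (nat_lit 57853) (nat_lit 252) (.e (nat_lit 57406) (nat_lit 12) (.e (nat_lit 336456) (nat_lit 34) (.e (nat_lit 483379) (nat_lit 23) .nil)))) (.g (nat_lit 0) (.e (nat_lit 258719) (nat_lit 0) .nil) .nil))) 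
(.lf (nat_lit 536247) (.g (nat_lit 1203) (.e (nat_lit 57927) (nat_lit 282) (.e (nat_lit 163874) (nat_lit 3) (.e (nat_lit 204862) (nat_lit 27) (.e (nat_lit 344117) (nat_lit 21) .nil)))) (.g (nat_lit 0) (.e (nat_lit 259969) (nat_lit 0) .nil) .nil)))) (.nd (nat_lit 9) 
(.lf (nat_lit 535991) (.g (nat_lit 1564) (.e (nat_lit 57883) (nat_lit 270) (.e (nat_lit 371) (nat_lit 32) (.e (nat_lit 426546) (nat_lit 30) (.e (nat_lit 360466) (nat_lit 3) (.e (nat_lit 516190) (nat_lit 17) (.e (nat_lit 6214) (nat_lit 333) .nil)))))) (.g (nat_lit 1) (.e (nat_lit 259247) (nat_lit 0) .nil) .nil))) 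
(.lf (nat_lit 536503) (.g (nat_lit 4074) (.e (nat_lit 57930) (nat_lit 282) (.e (nat_lit 163923) (nat_lit 15) (.e (nat_lit 450587) (nat_lit 10) (.e (nat_lit 573475) (nat_lit 12) (.e (nat_lit 57359) (nat_lit 0) (.e (nat_lit 5944) (nat_lit 322) (.e (nat_lit 57389) (nat_lit 5) (.e (nat_lit 114712) (nat_lit 21) .nil)))))))) (.g (nat_lit 1) (.e (nat_lit 260550) (nat_lit 0) .nil) .nil)))))) 
(.nd (nat_lit 7) (.nd (nat_lit 8) (.nd (nat_lit 9) 
(.lf (nat_lit 535671) (.g (nat_lit 1337) (.e (nat_lit 57851) (nat_lit 252) (.e (nat_lit 57408) (nat_lit 12) (.e (nat_lit 336454) (nat_lit 34) (.e (nat_lit 483405) (nat_lit 26) .nil)))) (.g (nat_lit 0) (.e (nat_lit 258621) (nat_lit 0) .nil) .nil))) 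
(.lf (nat_lit 536183) (.g (nat_lit 3397) (.e (nat_lit 57927) (nat_lit 282) (.e (nat_lit 163868) (nat_lit 2) (.e (nat_lit 196668) (nat_lit 14) (.e (nat_lit 73746) (nat_lit 3) (.e (nat_lit 516131) (nat_lit 3) (.e (nat_lit 221215) (nat_lit 23) (.e (nat_lit 204828) (nat_lit 18) .nil))))))) (.g (nat_lit 1) (.e (nat_lit 259829) (nat_lit 0) .nil) .nil)))) (.nd (nat_lit 9) 
(.lf (nat_lit 535927) (.g (nat_lit 741) (.e (nat_lit 57872) (nat_lit 264) (.e (nat_lit 1211) (nat_lit 89) (.e (nat_lit 73782) (nat_lit 32) (.e (nat_lit 3087) (nat_lit 191) .nil)))) (.g (nat_lit 0) (.e (nat_lit 259025) (nat_lit 0) .nil) .nil))) 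
(.lf (nat_lit 536439) (.g (nat_lit 2504) (.e (nat_lit 57929) (nat_lit 282) (.e (nat_lit 163905) (nat_lit 12) (.e (nat_lit 426555) (nat_lit 32) (.e (nat_lit 376865) (nat_lit 22) (.e (nat_lit 90158) (nat_lit 11) (.e (nat_lit 24598) (nat_lit 1) .nil)))))) (.g (nat_lit 1) (.e (nat_lit 260373) (nat_lit 0) .nil) .nil))))) (.nd (nat_lit 8) (.nd (nat_lit 9) 
(.lf (nat_lit 535799) (.g (nat_lit 326) (.e (nat_lit 57854) (nat_lit 252) (.e (nat_lit 57389) (nat_lit 5) (.e (nat_lit 122624) (nat_lit 11) .nil))) (.g (nat_lit 0) (.e (nat_lit 258836) (nat_lit 0) .nil) .nil))) 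
(.lf (nat_lit 536311) (.g (nat_lit 2166) (.e (nat_lit 57927) (nat_lit 282) (.e (nat_lit 163903) (nat_lit 12) (.e (nat_lit 426538) (nat_lit 29) (.e (nat_lit 352315) (nat_lit 23) (.e (nat_lit 98316) (nat_lit 9) (.e (nat_lit 335987) (nat_lit 1) .nil)))))) (.g (nat_lit 1) (.e (nat_lit 260075) (nat_lit 0) .nil) .nil)))) (.nd (nat_lit 9) 
(.lf (nat_lit 536055) (.g (nat_lit 1985) (.e (nat_lit 57924) (nat_lit 282) (.e (nat_lit 163905) (nat_lit 12) (.e (nat_lit 426555) (nat_lit 32) (.e (nat_lit 376865) (nat_lit 22) .nil)))) (.g (nat_lit 0) (.e (nat_lit 259457) (nat_lit 0) .nil) .nil))) 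
(.lf (nat_lit 536567) (.g (nat_lit 309) (.e (nat_lit 57931) (nat_lit 282) (.e (nat_lit 163869) (nat_lit 2) (.e (nat_lit 196672) (nat_lit 15) .nil))) (.g (nat_lit 0) (.e (nat_lit 260675) (nat_lit 0) .nil) .nil))))))))) (.nd (nat_lit 4) (.nd (nat_lit 5) (.nd (nat_lit 6) (.nd (nat_lit 7) (.nd (nat_lit 8) (.nd (nat_lit 9) 
(.lf (nat_lit 535567) (.g (nat_lit 3924) (.e (nat_lit 57849) (nat_lit 252) (.e (nat_lit 57379) (nat_lit 3) (.e (nat_lit 98334) (nat_lit 18) (.e (nat_lit 164398) (nat_lit 256) (.e (nat_lit 57588) (nat_lit 73) (.e (nat_lit 426124) (nat_lit 2) (.e (nat_lit 196681) (nat_lit 17) (.e (nat_lit 131086) (nat_lit 1) .nil)))))))) (.g (nat_lit 1) (.e (nat_lit 258470) (nat_lit 0) .nil) .nil))) 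
(.lf (nat_lit 536079) (.g (nat_lit 1353) (.e (nat_lit 57925) (nat_lit 282) (.e (nat_lit 163871) (nat_lit 2) (.e (nat_lit 196670) (nat_lit 14) (.e (nat_lit 73746) (nat_lit 3) .nil)))) (.g (nat_lit 0) (.e (nat_lit 259535) (nat_lit 0) .nil) .nil)))) (.nd (nat_lit 9) 
(.lf (nat_lit 535823) (.g (nat_lit 2844) (.e (nat_lit 57854) (nat_lit 252) (.e (nat_lit 57406) (nat_lit 12) (.e (nat_lit 336316) (nat_lit 17) (.e (nat_lit 196666) (nat_lit 13) (.e (nat_lit 65617) (nat_lit 10) (.e (nat_lit 344088) (nat_lit 18) (.e (nat_lit 7695) (nat_lit 412) (.e (nat_lit 57366) (nat_lit 1) .nil)))))))) (.g (nat_lit 1) (.e (nat_lit 258890) (nat_lit 0) .nil) .nil))) 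
(.lf (nat_lit 536335) (.g (nat_lit 2077) (.e (nat_lit 57927) (nat_lit 282) (.e (nat_lit 163907) (nat_lit 12) (.e (nat_lit 426555) (nat_lit 32) (.e (nat_lit 376869) (nat_lit 23) (.e (nat_lit 98313) (nat_lit 9) (.e (nat_lit 343808) (nat_lit 1) .nil)))))) (.g (nat_lit 1) (.e (nat_lit 260102) (nat_lit 0) .nil) .nil))))) (.nd (nat_lit 8) (.nd (nat_lit 9) 
(.lf (nat_lit 535695) (.g (nat_lit 4138) (.e (nat_lit 57852) (nat_lit 252) (.e (nat_lit 57406) (nat_lit 12) (.e (nat_lit 336316) (nat_lit 17) (.e (nat_lit 196666) (nat_lit 13) (.e (nat_lit 65610) (nat_lit 10) (.e (nat_lit 344090) (nat_lit 18) (.e (nat_lit 7695) (nat_lit 412) (.e (nat_lit 57366) (nat_lit 1) .nil)))))))) (.g (nat_lit 1) (.e (nat_lit 258669) (nat_lit 0) .nil) .nil))) 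
(.lf (nat_lit 536207) (.g (nat_lit 1321) (.e (nat_lit 57927) (nat_lit 282) (.e (nat_lit 163869) (nat_lit 2) (.e (nat_lit 196670) (nat_lit 14) (.e (nat_lit 73746) (nat_lit 3) .nil)))) (.g (nat_lit 0) (.e (nat_lit 259874) (nat_lit 0) .nil) .nil)))) (.nd (nat_lit 9) 
(.lf (nat_lit 535951) (.g (nat_lit 1387) (.e (nat_lit 57878) (nat_lit 270) (.e (nat_lit 496) (nat_lit 39) (.e (nat_lit 483391) (nat_lit 23) (.e (nat_lit 336319) (nat_lit 17) (.e (nat_lit 196698) (nat_lit 19) (.e (nat_lit 57816) (nat_lit 246) .nil)))))) (.g (nat_lit 1) (.e (nat_lit 259096) (nat_lit 0) .nil) .nil))) 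
(.lf (nat_lit 536463) (.g (nat_lit 2511) (.e (nat_lit 57929) (nat_lit 282) (.e (nat_lit 163923) (nat_lit 15) (.e (nat_lit 450587) (nat_lit 10) (.e (nat_lit 573477) (nat_lit 12) (.e (nat_lit 57361) (nat_lit 0) .nil))))) (.g (nat_lit 0) (.e (nat_lit 260410) (nat_lit 0) .nil) .nil)))))) (.nd (nat_lit 7) (.nd (nat_lit 8) (.nd (nat_lit 9) 
(.lf (nat_lit 535631) (.g (nat_lit 3387) (.e (nat_lit 57851) (nat_lit 252) (.e (nat_lit 57406) (nat_lit 12) (.e (nat_lit 336316) (nat_lit 17) (.e (nat_lit 196666) (nat_lit 13) (.e (nat_lit 65610) (nat_lit 10) (.e (nat_lit 344090) (nat_lit 18) (.e (nat_lit 7695) (nat_lit 412) (.e (nat_lit 57364) (nat_lit 1) .nil)))))))) (.g (nat_lit 1) (.e (nat_lit 258581) (nat_lit 0) .nil) .nil))) 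
(.lf (nat_lit 536143) (.g (nat_lit 3050) (.e (nat_lit 57926) (nat_lit 282) (.e (nat_lit 163907) (nat_lit 12) (.e (nat_lit 426555) (nat_lit 32) (.e (nat_lit 376862) (nat_lit 22) (.e (nat_lit 90158) (nat_lit 11) (.e (nat_lit 24598) (nat_lit 1) .nil)))))) (.g (nat_lit 1) (.e (nat_lit 259710) (nat_lit 0) .nil) .nil)))) (.nd (nat_lit 9) 
(.lf (nat_lit 535887) (.g (nat_lit 2579) (.e (nat_lit 57854) (nat_lit 252) (.e (nat_lit 57409) (nat_lit 12) (.e (nat_lit 336326) (nat_lit 18) (.e (nat_lit 204869) (nat_lit 29) (.e (nat_lit 360456) (nat_lit 0) (.e (nat_lit 7936) (nat_lit 412) (.e (nat_lit 57364) (nat_lit 1) .nil))))))) (.g (nat_lit 1) (.e (nat_lit 258954) (nat_lit 0) .nil) .nil))) 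
(.lf (nat_lit 536399) (.g (nat_lit 2534) (.e (nat_lit 57929) (nat_lit 282) (.e (nat_lit 163867) (nat_lit 2) (.e (nat_lit 196670) (nat_lit 14) (.e (nat_lit 73746) (nat_lit 3) (.e (nat_lit 516129) (nat_lit 3) (.e (nat_lit 221204) (nat_lit 20) (.e (nat_lit 3253) (nat_lit 197) (.e (nat_lit 532501) (nat_lit 1) .nil)))))))) (.g (nat_lit 1) (.e (nat_lit 260308) (nat_lit 0) .nil) .nil))))) 
(.nd (nat_lit 8) (.nd (nat_lit 9) 
(.lf (nat_lit 535759) (.g (nat_lit 320) (.e (nat_lit 57854) (nat_lit 252) (.e (nat_lit 57377) (nat_lit 3) (.e (nat_lit 98315) (nat_lit 9) .nil))) (.g (nat_lit 0) (.e (nat_lit 258756) (nat_lit 0) .nil) .nil))) 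
(.lf (nat_lit 536271) (.g (nat_lit 1583) (.e (nat_lit 57927) (nat_lit 282) (.e (nat_lit 163875) (nat_lit 3) (.e (nat_lit 204859) (nat_lit 26) (.e (nat_lit 336118) (nat_lit 9) (.e (nat_lit 336453) (nat_lit 34) (.e (nat_lit 491264) (nat_lit 18) .nil)))))) (.g (nat_lit 1) (.e (nat_lit 260011) (nat_lit 0) .nil) .nil)))) (.nd (nat_lit 9) 
(.lf (nat_lit 536015) (.g (nat_lit 2180) (.e (nat_lit 57892) (nat_lit 271) (.e (nat_lit 8234) (nat_lit 20) (.e (nat_lit 573484) (nat_lit 13) (.e (nat_lit 65617) (nat_lit 10) .nil)))) (.g (nat_lit 0) (.e (nat_lit 259299) (nat_lit 0) .nil) .nil))) 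
(.lf (nat_lit 536527) (.g (nat_lit 3984) (.e (nat_lit 57931) (nat_lit 282) (.e (nat_lit 163867) (nat_lit 2) (.e (nat_lit 196668) (nat_lit 14) (.e (nat_lit 73746) (nat_lit 3) (.e (nat_lit 516129) (nat_lit 3) (.e (nat_lit 221196) (nat_lit 20) (.e (nat_lit 3248) (nat_lit 197) (.e (nat_lit 532503) (nat_lit 1) .nil)))))))) (.g (nat_lit 1) (.e (nat_lit 260603) (nat_lit 0) .nil) .nil))))))) 
(.nd (nat_lit 6) (.nd (nat_lit 7) (.nd (nat_lit 8) (.nd (nat_lit 9) 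
(.lf (nat_lit 535599) (.g (nat_lit 1578) (.e (nat_lit 57850) (nat_lit 252) (.e (nat_lit 57408) (nat_lit 12) (.e (nat_lit 336454) (nat_lit 34) (.e (nat_lit 483406) (nat_lit 26) (.e (nat_lit 385066) (nat_lit 26) .nil))))) (.g (nat_lit 0) (.e (nat_lit 258524) (nat_lit 0) .nil) .nil))) 
(.lf (nat_lit 536111) (.g (nat_lit 5021) (.e (nat_lit 57926) (nat_lit 282) (.e (nat_lit 163869) (nat_lit 2) (.e (nat_lit 196670) (nat_lit 14) (.e (nat_lit 73746) (nat_lit 3) (.e (nat_lit 516129) (nat_lit 3) (.e (nat_lit 221215) (nat_lit 23) (.e (nat_lit 204829) (nat_lit 18) .nil))))))) (.g (nat_lit 1) (.e (nat_lit 259609) (nat_lit 0) .nil) .nil)))) (.nd (nat_lit 9) 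
(.lf (nat_lit 535855) (.g (nat_lit 3368) (.e (nat_lit 57854) (nat_lit 252) (.e (nat_lit 57409) (nat_lit 12) (.e (nat_lit 336316) (nat_lit 17) (.e (nat_lit 196666) (nat_lit 13) (.e (nat_lit 65610) (nat_lit 10) (.e (nat_lit 344088) (nat_lit 18) (.e (nat_lit 7697) (nat_lit 412) (.e (nat_lit 57366) (nat_lit 1) .nil)))))))) (.g (nat_lit 1) (.e (nat_lit 258922) (nat_lit 0) .nil) .nil))) 
(.lf (nat_lit 536367) (.g (nat_lit 3097) (.e (nat_lit 57927) (nat_lit 282) (.e (nat_lit 163943) (nat_lit 19) (.e (nat_lit 483344) (nat_lit 17) (.e (nat_lit 6712) (nat_lit 360) (.e (nat_lit 163979) (nat_lit 30) (.e (nat_lit 573482) (nat_lit 13) (.e (nat_lit 65563) (nat_lit 1) .nil))))))) (.g (nat_lit 1) (.e (nat_lit 260160) (nat_lit 0) .nil) .nil))))) (.nd (nat_lit 8) (.nd (nat_lit 9) 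
(.lf (nat_lit 535727) (.g (nat_lit 1986) (.e (nat_lit 57853) (nat_lit 252) (.e (nat_lit 57406) (nat_lit 12) (.e (nat_lit 336454) (nat_lit 34) (.e (nat_lit 483384) (nat_lit 23) .nil)))) (.g (nat_lit 0) (.e (nat_lit 258711) (nat_lit 0) .nil) .nil))) 
(.lf (nat_lit 536239) (.g (nat_lit 1706) (.e (nat_lit 57927) (nat_lit 282) (.e (nat_lit 163874) (nat_lit 3) (.e (nat_lit 204852) (nat_lit 26) (.e (nat_lit 336210) (nat_lit 13) .nil)))) (.g (nat_lit 0) (.e (nat_lit 259954) (nat_lit 0) .nil) .nil)))) (.nd (nat_lit 9) 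
(.lf (nat_lit 535983) (.g (nat_lit 1223) (.e (nat_lit 57883) (nat_lit 270) (.e (nat_lit 174) (nat_lit 12) (.e (nat_lit 204876) (nat_lit 31) (.e (nat_lit 376842) (nat_lit 11) (.e (nat_lit 426406) (nat_lit 15) (.e (nat_lit 6215) (nat_lit 333) .nil)))))) (.g (nat_lit 1) (.e (nat_lit 259232) (nat_lit 0) .nil) .nil))) 
(.lf (nat_lit 536495) (.g (nat_lit 369) (.e (nat_lit 57930) (nat_lit 282) (.e (nat_lit 163874) (nat_lit 3) (.e (nat_lit 204861) (nat_lit 26) .nil))) (.g (nat_lit 0) (.e (nat_lit 260519) (nat_lit 0) .nil) .nil)))))) (.nd (nat_lit 7) (.nd (nat_lit 8) (.nd (nat_lit 9) 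
(.lf (nat_lit 535663) (.g (nat_lit 2722) (.e (nat_lit 57851) (nat_lit 252) (.e (nat_lit 57406) (nat_lit 12) (.e (nat_lit 336456) (nat_lit 34) (.e (nat_lit 483383) (nat_lit 23) (.e (nat_lit 336284) (nat_lit 15) (.e (nat_lit 3249) (nat_lit 197) (.e (nat_lit 532500) (nat_lit 1) .nil))))))) (.g (nat_lit 1) (.e (nat_lit 258613) (nat_lit 0) .nil) .nil))) 
(.lf (nat_lit 536175) (.g (nat_lit 1148) (.e (nat_lit 57927) (nat_lit 282) (.e (nat_lit 163868) (nat_lit 2) (.e (nat_lit 196665) (nat_lit 13) (.e (nat_lit 65569) (nat_lit 3) .nil)))) (.g (nat_lit 0) (.e (nat_lit 259819) (nat_lit 0) .nil) .nil)))) (.nd (nat_lit 9) 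
(.lf (nat_lit 535919) (.g (nat_lit 2256) (.e (nat_lit 57872) (nat_lit 264) (.e (nat_lit 1209) (nat_lit 89) (.e (nat_lit 73781) (nat_lit 32) (.e (nat_lit 3090) (nat_lit 191) (.e (nat_lit 483386) (nat_lit 23) (.e (nat_lit 335985) (nat_lit 1) .nil)))))) (.g (nat_lit 1) (.e (nat_lit 259017) (nat_lit 0) .nil) .nil))) 
(.lf (nat_lit 536431) (.g (nat_lit 3053) (.e (nat_lit 57929) (nat_lit 282) (.e (nat_lit 163874) (nat_lit 3) (.e (nat_lit 204876) (nat_lit 31) (.e (nat_lit 376842) (nat_lit 11) (.e (nat_lit 426500) (nat_lit 27) (.e (nat_lit 335996) (nat_lit 1) .nil)))))) (.g (nat_lit 1) (.e (nat_lit 260358) (nat_lit 0) .nil) .nil))))) (.nd (nat_lit 8) (.nd (nat_lit 9) 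
(.lf (nat_lit 535791) (.g (nat_lit 428) (.e (nat_lit 57854) (nat_lit 252) (.e (nat_lit 57389) (nat_lit 5) (.e (nat_lit 114696) (nat_lit 11) .nil))) (.g (nat_lit 0) (.e (nat_lit 258823) (nat_lit 0) .nil) .nil))) 
(.lf (nat_lit 536303) (.g (nat_lit 3493) (.e (nat_lit 57927) (nat_lit 282) (.e (nat_lit 163886) (nat_lit 5) (.e (nat_lit 221218) (nat_lit 24) (.e (nat_lit 213032) (nat_lit 11) (.e (nat_lit 24650) (nat_lit 12) (.e (nat_lit 385109) (nat_lit 51) (.e (nat_lit 802560) (nat_lit 1) .nil))))))) (.g (nat_lit 1) (.e (nat_lit 260060) (nat_lit 0) .nil) .nil)))) (.nd (nat_lit 9) 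
(.lf (nat_lit 536047) (.g (nat_lit 2016) (.e (nat_lit 57924) (nat_lit 282) (.e (nat_lit 163871) (nat_lit 2) (.e (nat_lit 196668) (nat_lit 14) (.e (nat_lit 73747) (nat_lit 3) (.e (nat_lit 516129) (nat_lit 3) .nil))))) (.g (nat_lit 0) (.e (nat_lit 259434) (nat_lit 0) .nil) .nil))) 
(.lf (nat_lit 536559) (.g (nat_lit 5431) (.e (nat_lit 57931) (nat_lit 282) (.e (nat_lit 163869) (nat_lit 2) (.e (nat_lit 196668) (nat_lit 14) (.e (nat_lit 73747) (nat_lit 3) (.e (nat_lit 516129) (nat_lit 3) (.e (nat_lit 221215) (nat_lit 23) (.e (nat_lit 204830) (nat_lit 18) .nil))))))) (.g (nat_lit 1) (.e (nat_lit 260658) (nat_lit 0) .nil) .nil)))))))) 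
(.nd (nat_lit 5) (.nd (nat_lit 6) (.nd (nat_lit 7) (.nd (nat_lit 8) (.nd (nat_lit 9) 
(.lf (nat_lit 535583) (.g (nat_lit 1016) (.e (nat_lit 57849) (nat_lit 252) (.e (nat_lit 57407) (nat_lit 12) (.e (nat_lit 336454) (nat_lit 34) (.e (nat_lit 483385) (nat_lit 23) .nil)))) (.g (nat_lit 0) (.e (nat_lit 258508) (nat_lit 0) .nil) .nil))) 
(.lf (nat_lit 536095) (.g (nat_lit 565) (.e (nat_lit 57926) (nat_lit 282) (.e (nat_lit 163868) (nat_lit 2) (.e (nat_lit 196668) (nat_lit 14) .nil))) (.g (nat_lit 0) (.e (nat_lit 259579) (nat_lit 0) .nil) .nil)))) (.nd (nat_lit 9) 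
(.lf (nat_lit 535839) (.g (nat_lit 2532) (.e (nat_lit 57854) (nat_lit 252) (.e (nat_lit 57406) (nat_lit 12) (.e (nat_lit 336456) (nat_lit 34) (.e (nat_lit 483346) (nat_lit 17) (.e (nat_lit 6446) (nat_lit 343) .nil))))) (.g (nat_lit 0) (.e (nat_lit 258906) (nat_lit 0) .nil) .nil))) 
(.lf (nat_lit 536351) (.g (nat_lit 3689) (.e (nat_lit 57927) (nat_lit 282) (.e (nat_lit 163933) (nat_lit 17) (.e (nat_lit 466977) (nat_lit 22) (.e (nat_lit 196654) (nat_lit 11) (.e (nat_lit 16407) (nat_lit 1) (.e (nat_lit 164330) (nat_lit 230) (.e (nat_lit 171776) (nat_lit 62) .nil))))))) (.g (nat_lit 1) (.e (nat_lit 260128) (nat_lit 0) .nil) .nil))))) (.nd (nat_lit 8) (.nd (nat_lit 9) 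
(.lf (nat_lit 535711) (.g (nat_lit 1831) (.e (nat_lit 57852) (nat_lit 252) (.e (nat_lit 57406) (nat_lit 12) (.e (nat_lit 336456) (nat_lit 34) (.e (nat_lit 483381) (nat_lit 23) .nil)))) (.g (nat_lit 0) (.e (nat_lit 258685) (nat_lit 0) .nil) .nil))) 
(.lf (nat_lit 536223) (.g (nat_lit 2103) (.e (nat_lit 57927) (nat_lit 282) (.e (nat_lit 163871) (nat_lit 2) (.e (nat_lit 196668) (nat_lit 14) (.e (nat_lit 73747) (nat_lit 3) (.e (nat_lit 516124) (nat_lit 2) .nil))))) (.g (nat_lit 0) (.e (nat_lit 259908) (nat_lit 0) .nil) .nil)))) (.nd (nat_lit 9) 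
(.lf (nat_lit 535967) (.g (nat_lit 2776) (.e (nat_lit 57881) (nat_lit 270) (.e (nat_lit 174) (nat_lit 12) (.e (nat_lit 204861) (nat_lit 26) (.e (nat_lit 336213) (nat_lit 13) (.e (nat_lit 393221) (nat_lit 0) (.e (nat_lit 6209) (nat_lit 333) .nil)))))) (.g (nat_lit 1) (.e (nat_lit 259157) (nat_lit 0) .nil) .nil))) 
(.lf (nat_lit 536479) (.g (nat_lit 1812) (.e (nat_lit 57930) (nat_lit 282) (.e (nat_lit 163867) (nat_lit 2) (.e (nat_lit 196668) (nat_lit 14) (.e (nat_lit 73747) (nat_lit 3) (.e (nat_lit 516131) (nat_lit 3) .nil))))) (.g (nat_lit 0) (.e (nat_lit 260493) (nat_lit 0) .nil) .nil)))))) (.nd (nat_lit 7) (.nd (nat_lit 8) (.nd (nat_lit 9) 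
(.lf (nat_lit 535647) (.g (nat_lit 2255) (.e (nat_lit 57851) (nat_lit 252) (.e (nat_lit 57406) (nat_lit 12) (.e (nat_lit 336456) (nat_lit 34) (.e (nat_lit 483365) (nat_lit 18) (.e (nat_lit 57771) (nat_lit 227) .nil))))) (.g (nat_lit 0) (.e (nat_lit 258597) (nat_lit 0) .nil) .nil))) 
(.lf (nat_lit 536159) (.g (nat_lit 1696) (.e (nat_lit 57927) (nat_lit 282) (.e (nat_lit 163866) (nat_lit 2) (.e (nat_lit 196670) (nat_lit 14) (.e (nat_lit 73746) (nat_lit 3) (.e (nat_lit 516127) (nat_lit 2) .nil))))) (.g (nat_lit 0) (.e (nat_lit 259791) (nat_lit 0) .nil) .nil)))) (.nd (nat_lit 9) 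
(.lf (nat_lit 535903) (.g (nat_lit 2043) (.e (nat_lit 57861) (nat_lit 256) (.e (nat_lit 3090) (nat_lit 191) (.e (nat_lit 483372) (nat_lit 21) (.e (nat_lit 319533) (nat_lit 16) .nil)))) (.g (nat_lit 0) (.e (nat_lit 258977) (nat_lit 0) .nil) .nil))) 
(.lf (nat_lit 536415) (.g (nat_lit 1744) (.e (nat_lit 57929) (nat_lit 282) (.e (nat_lit 163874) (nat_lit 3) (.e (nat_lit 204861) (nat_lit 26) (.e (nat_lit 336074) (nat_lit 9) .nil)))) (.g (nat_lit 0) (.e (nat_lit 260339) (nat_lit 0) .nil) .nil))))) (.nd (nat_lit 8) (.nd (nat_lit 9) 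
(.lf (nat_lit 535775) (.g (nat_lit 3196) (.e (nat_lit 57854) (nat_lit 252) (.e (nat_lit 57378) (nat_lit 3) (.e (nat_lit 98334) (nat_lit 18) (.e (nat_lit 164403) (nat_lit 256) (.e (nat_lit 57588) (nat_lit 73) (.e (nat_lit 426124) (nat_lit 2) (.e (nat_lit 196681) (nat_lit 17) (.e (nat_lit 131089) (nat_lit 1) .nil)))))))) (.g (nat_lit 1) (.e (nat_lit 258775) (nat_lit 0) .nil) .nil))) 
(.lf (nat_lit 536287) (.g (nat_lit 1832) (.e (nat_lit 57927) (nat_lit 282) (.e (nat_lit 163875) (nat_lit 3) (.e (nat_lit 204865) (nat_lit 28) (.e (nat_lit 352277) (nat_lit 11) (.e (nat_lit 426500) (nat_lit 27) (.e (nat_lit 343808) (nat_lit 1) .nil)))))) (.g (nat_lit 1) (.e (nat_lit 260027) (nat_lit 0) .nil) .nil)))) (.nd (nat_lit 9) 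
(.lf (nat_lit 536031) (.g (nat_lit 4952) (.e (nat_lit 57924) (nat_lit 282) (.e (nat_lit 163867) (nat_lit 2) (.e (nat_lit 196670) (nat_lit 14) (.e (nat_lit 73746) (nat_lit 3) (.e (nat_lit 516129) (nat_lit 3) (.e (nat_lit 221204) (nat_lit 20) (.e (nat_lit 3253) (nat_lit 197) (.e (nat_lit 532503) (nat_lit 1) .nil)))))))) (.g (nat_lit 1) (.e (nat_lit 259409) (nat_lit 0) .nil) .nil))) 
(.lf (nat_lit 536543) (.g (nat_lit 3811) (.e (nat_lit 57931) (nat_lit 282) (.e (nat_lit 163869) (nat_lit 2) (.e (nat_lit 196663) (nat_lit 13) (.e (nat_lit 65571) (nat_lit 3) (.e (nat_lit 98342) (nat_lit 20) (.e (nat_lit 221204) (nat_lit 20) (.e (nat_lit 3253) (nat_lit 197) (.e (nat_lit 532503) (nat_lit 1) .nil)))))))) (.g (nat_lit 1) (.e (nat_lit 260630) (nat_lit 0) .nil) .nil))))))) 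
(.nd (nat_lit 6) (.nd (nat_lit 7) (.nd (nat_lit 8) (.nd (nat_lit 9) 
(.lf (nat_lit 535615) (.g (nat_lit 4426) (.e (nat_lit 57851) (nat_lit 252) (.e (nat_lit 57377) (nat_lit 3) (.e (nat_lit 98317) (nat_lit 9) (.e (nat_lit 336010) (nat_lit 2) .nil)))) (.g (nat_lit 0) (.e (nat_lit 258542) (nat_lit 0) .nil) .nil))) 
(.lf (nat_lit 536127) (.g (nat_lit 2143) (.e (nat_lit 57926) (nat_lit 282) (.e (nat_lit 163874) (nat_lit 3) (.e (nat_lit 204877) (nat_lit 31) (.e (nat_lit 376842) (nat_lit 11) (.e (nat_lit 426521) (nat_lit 27) (.e (nat_lit 335987) (nat_lit 1) .nil)))))) (.g (nat_lit 1) (.e (nat_lit 259664) (nat_lit 0) .nil) .nil)))) (.nd (nat_lit 9) 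
(.lf (nat_lit 535871) (.g (nat_lit 3662) (.e (nat_lit 57854) (nat_lit 252) (.e (nat_lit 57409) (nat_lit 12) (.e (nat_lit 336316) (nat_lit 17) (.e (nat_lit 196666) (nat_lit 13) (.e (nat_lit 65617) (nat_lit 10) (.e (nat_lit 344091) (nat_lit 18) (.e (nat_lit 7697) (nat_lit 412) (.e (nat_lit 57364) (nat_lit 1) .nil)))))))) (.g (nat_lit 1) (.e (nat_lit 258938) (nat_lit 0) .nil) .nil))) 
(.lf (nat_lit 536383) (.g (nat_lit 1890) (.e (nat_lit 57928) (nat_lit 282) (.e (nat_lit 163869) (nat_lit 2) (.e (nat_lit 196668) (nat_lit 14) (.e (nat_lit 73747) (nat_lit 3) .nil)))) (.g (nat_lit 0) (.e (nat_lit 260254) (nat_lit 0) .nil) .nil))))) (.nd (nat_lit 8) (.nd (nat_lit 9) 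
(.lf (nat_lit 535743) (.g (nat_lit 2310) (.e (nat_lit 57854) (nat_lit 252) (.e (nat_lit 57371) (nat_lit 2) (.e (nat_lit 90160) (nat_lit 11) (.e (nat_lit 24580) (nat_lit 0) (.e (nat_lit 6445) (nat_lit 343) .nil))))) (.g (nat_lit 0) (.e (nat_lit 258729) (nat_lit 0) .nil) .nil))) 
(.lf (nat_lit 536255) (.g (nat_lit 2804) (.e (nat_lit 57927) (nat_lit 282) (.e (nat_lit 163874) (nat_lit 3) (.e (nat_lit 204863) (nat_lit 27) (.e (nat_lit 344117) (nat_lit 21) (.e (nat_lit 516122) (nat_lit 2) (.e (nat_lit 213035) (nat_lit 12) (.e (nat_lit 163963) (nat_lit 25) (.e (nat_lit 532499) (nat_lit 1) .nil)))))))) (.g (nat_lit 1) (.e (nat_lit 259977) (nat_lit 0) .nil) .nil)))) 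
(.nd (nat_lit 9) 
(.lf (nat_lit 535999) (.g (nat_lit 1512) (.e (nat_lit 57883) (nat_lit 270) (.e (nat_lit 496) (nat_lit 39) (.e (nat_lit 483381) (nat_lit 23) (.e (nat_lit 336320) (nat_lit 17) (.e (nat_lit 196698) (nat_lit 19) (.e (nat_lit 57811) (nat_lit 246) .nil)))))) (.g (nat_lit 1) (.e (nat_lit 259266) (nat_lit 0) .nil) .nil))) 
(.lf (nat_lit 536511) (.g (nat_lit 2416) (.e (nat_lit 57931) (nat_lit 282) (.e (nat_lit 163866) (nat_lit 2) (.e (nat_lit 196666) (nat_lit 13) (.e (nat_lit 65569) (nat_lit 3) (.e (nat_lit 98341) (nat_lit 20) .nil))))) (.g (nat_lit 0) (.e (nat_lit 260571) (nat_lit 0) .nil) .nil)))))) (.nd (nat_lit 7) (.nd (nat_lit 8) (.nd (nat_lit 9) 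
(.lf (nat_lit 535679) (.g (nat_lit 3606) (.e (nat_lit 57852) (nat_lit 252) (.e (nat_lit 57371) (nat_lit 2) (.e (nat_lit 90160) (nat_lit 11) (.e (nat_lit 24627) (nat_lit 9) (.e (nat_lit 336454) (nat_lit 34) (.e (nat_lit 483365) (nat_lit 18) .nil)))))) (.g (nat_lit 1) (.e (nat_lit 258630) (nat_lit 0) .nil) .nil))) 
(.lf (nat_lit 536191) (.g (nat_lit 1940) (.e (nat_lit 57927) (nat_lit 282) (.e (nat_lit 163868) (nat_lit 2) (.e (nat_lit 196670) (nat_lit 14) (.e (nat_lit 73746) (nat_lit 3) (.e (nat_lit 516127) (nat_lit 2) .nil))))) (.g (nat_lit 0) (.e (nat_lit 259840) (nat_lit 0) .nil) .nil)))) (.nd (nat_lit 9) 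
(.lf (nat_lit 535935) (.g (nat_lit 1310) (.e (nat_lit 57873) (nat_lit 264) (.e (nat_lit 1211) (nat_lit 89) (.e (nat_lit 73781) (nat_lit 32) (.e (nat_lit 3090) (nat_lit 191) (.e (nat_lit 483386) (nat_lit 23) .nil))))) (.g (nat_lit 0) (.e (nat_lit 259042) (nat_lit 0) .nil) .nil))) 
(.lf (nat_lit 536447) (.g (nat_lit 2109) (.e (nat_lit 57929) (nat_lit 282) (.e (nat_lit 163920) (nat_lit 14) (.e (nat_lit 442424) (nat_lit 22) (.e (nat_lit 196655) (nat_lit 11) .nil)))) (.g (nat_lit 0) (.e (nat_lit 260386) (nat_lit 0) .nil) .nil))))) (.nd (nat_lit 8) (.nd (nat_lit 9) 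
(.lf (nat_lit 535807) (.g (nat_lit 1871) (.e (nat_lit 57854) (nat_lit 252) (.e (nat_lit 57389) (nat_lit 5) (.e (nat_lit 114711) (nat_lit 21) (.e (nat_lit 57848) (nat_lit 252) (.e (nat_lit 65280) (nat_lit 66) .nil))))) (.g (nat_lit 0) (.e (nat_lit 258871) (nat_lit 0) .nil) .nil))) 
(.lf (nat_lit 536319) (.g (nat_lit 1924) (.e (nat_lit 57927) (nat_lit 282) (.e (nat_lit 163903) (nat_lit 12) (.e (nat_lit 426556) (nat_lit 32) (.e (nat_lit 376865) (nat_lit 22) (.e (nat_lit 90160) (nat_lit 11) (.e (nat_lit 24598) (nat_lit 1) .nil)))))) (.g (nat_lit 1) (.e (nat_lit 260083) (nat_lit 0) .nil) .nil)))) (.nd (nat_lit 9) 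
(.lf (nat_lit 536063) (.g (nat_lit 1388) (.e (nat_lit 57925) (nat_lit 282) (.e (nat_lit 163867) (nat_lit 2) (.e (nat_lit 196668) (nat_lit 14) (.e (nat_lit 73747) (nat_lit 3) .nil)))) (.g (nat_lit 0) (.e (nat_lit 259493) (nat_lit 0) .nil) .nil))) 
(.lf (nat_lit 536575) (.g (nat_lit 2178) (.e (nat_lit 57931) (nat_lit 282) (.e (nat_lit 163874) (nat_lit 3) (.e (nat_lit 204852) (nat_lit 26) (.e (nat_lit 336211) (nat_lit 13) (.e (nat_lit 393224) (nat_lit 9) .nil))))) (.g (nat_lit 0) (.e (nat_lit 260700) (nat_lit 0) .nil) .nil)))))))))))))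

noncomputable def tv5584 : DT := (.nd (nat_lit 0) (.nd (nat_lit 1) (.nd (nat_lit 2) (.nd (nat_lit 3) (.nd (nat_lit 4) (.nd (nat_lit 5) (.nd (nat_lit 6) (.nd (nat_lit 7) (.nd (nat_lit 8) (.nd (nat_lit 9) 
(.lf (nat_lit 536576) (.g (nat_lit 1077) (.e (nat_lit 57931) (nat_lit 282) (.e (nat_lit 163874) (nat_lit 3) (.e (nat_lit 204853) (nat_lit 26) .nil))) (.g (nat_lit 0) (.e (nat_lit 260703) (nat_lit 0) .nil) .nil))) 
(.lf (nat_lit 537088) (.g (nat_lit 1031) (.e (nat_lit 65598) (nat_lit 9) (.e (nat_lit 336013) (nat_lit 2) (.e (nat_lit 90161) (nat_lit 12) .nil))) (.g (nat_lit 0) (.e (nat_lit 262072) (nat_lit 0) .nil) .nil)))) (.nd (nat_lit 9) 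
(.lf (nat_lit 536832) (.g (nat_lit 2915) (.e (nat_lit 65571) (nat_lit 3) (.e (nat_lit 98341) (nat_lit 20) (.e (nat_lit 221215) (nat_lit 23) (.e (nat_lit 204830) (nat_lit 18) (.e (nat_lit 57927) (nat_lit 282) (.e (nat_lit 163868) (nat_lit 2) (.e (nat_lit 196664) (nat_lit 13) .nil))))))) (.g (nat_lit 1) (.e (nat_lit 261604) (nat_lit 0) .nil) .nil))) 
(.lf (nat_lit 537344) (.g (nat_lit 3629) (.e (nat_lit 65610) (nat_lit 10) (.e (nat_lit 344127) (nat_lit 26) (.e (nat_lit 557090) (nat_lit 12) (.e (nat_lit 164020) (nat_lit 45) (.e (nat_lit 696329) (nat_lit 5) .nil))))) (.g (nat_lit 0) (.e (nat_lit 262466) (nat_lit 0) .nil) .nil))))) (.nd (nat_lit 8) (.nd (nat_lit 9) 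
(.lf (nat_lit 536704) (.g (nat_lit 1089) (.e (nat_lit 65561) (nat_lit 0) (.e (nat_lit 1800) (nat_lit 119) (.e (nat_lit 516120) (nat_lit 1) (.e (nat_lit 164183) (nat_lit 154) .nil)))) (.g (nat_lit 0) (.e (nat_lit 261165) (nat_lit 0) .nil) .nil))) 
(.lf (nat_lit 537216) (.g (nat_lit 4898) (.e (nat_lit 65604) (nat_lit 9) (.e (nat_lit 336028) (nat_lit 3) (.e (nat_lit 98366) (nat_lit 27) (.e (nat_lit 434272) (nat_lit 38) (.e (nat_lit 655375) (nat_lit 3) (.e (nat_lit 163979) (nat_lit 30) (.e (nat_lit 573482) (nat_lit 13) .nil))))))) (.g (nat_lit 1) (.e (nat_lit 262242) (nat_lit 0) .nil) .nil)))) (.nd (nat_lit 9) 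
(.lf (nat_lit 536960) (.g (nat_lit 2605) (.e (nat_lit 65583) (nat_lit 7) (.e (nat_lit 319526) (nat_lit 15) (.e (nat_lit 278546) (nat_lit 8) (.e (nat_lit 303137) (nat_lit 10) (.e (nat_lit 434268) (nat_lit 36) (.e (nat_lit 639020) (nat_lit 16) .nil)))))) (.g (nat_lit 1) (.e (nat_lit 261807) (nat_lit 0) .nil) .nil))) 
(.lf (nat_lit 537472) (.g (nat_lit 1088) (.e (nat_lit 65617) (nat_lit 10) (.e (nat_lit 344127) (nat_lit 26) (.e (nat_lit 557090) (nat_lit 12) (.e (nat_lit 163850) (nat_lit 0) .nil)))) (.g (nat_lit 0) (.e (nat_lit 262712) (nat_lit 0) .nil) .nil)))))) (.nd (nat_lit 7) (.nd (nat_lit 8) (.nd (nat_lit 9) 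
(.lf (nat_lit 536640) (.g (nat_lit 680) (.e (nat_lit 57931) (nat_lit 282) (.e (nat_lit 163931) (nat_lit 17) (.e (nat_lit 466980) (nat_lit 23) .nil))) (.g (nat_lit 0) (.e (nat_lit 260851) (nat_lit 0) .nil) .nil))) 
(.lf (nat_lit 537152) (.g (nat_lit 2152) (.e (nat_lit 65604) (nat_lit 9) (.e (nat_lit 336013) (nat_lit 2) (.e (nat_lit 90145) (nat_lit 9) .nil))) (.g (nat_lit 0) (.e (nat_lit 262169) (nat_lit 0) .nil) .nil)))) (.nd (nat_lit 9) 
(.lf (nat_lit 536896) (.g (nat_lit 3109) (.e (nat_lit 65571) (nat_lit 3) (.e (nat_lit 98389) (nat_lit 33) (.e (nat_lit 491546) (nat_lit 9) (.e (nat_lit 336013) (nat_lit 2) (.e (nat_lit 90133) (nat_lit 9) (.e (nat_lit 2397) (nat_lit 157) (.e (nat_lit 7585) (nat_lit 406) .nil))))))) (.g (nat_lit 1) (.e (nat_lit 261674) (nat_lit 0) .nil) .nil))) 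
(.lf (nat_lit 537408) (.g (nat_lit 3501) (.e (nat_lit 65616) (nat_lit 10) (.e (nat_lit 344117) (nat_lit 21) (.e (nat_lit 516139) (nat_lit 7) (.e (nat_lit 409645) (nat_lit 18) (.e (nat_lit 303117) (nat_lit 2) .nil))))) (.g (nat_lit 0) (.e (nat_lit 262630) (nat_lit 0) .nil) .nil))))) (.nd (nat_lit 8) (.nd (nat_lit 9) 
(.lf (nat_lit 536768) (.g (nat_lit 4310) (.e (nat_lit 65569) (nat_lit 3) (.e (nat_lit 98341) (nat_lit 20) (.e (nat_lit 221214) (nat_lit 23) (.e (nat_lit 204829) (nat_lit 18) (.e (nat_lit 57931) (nat_lit 282) (.e (nat_lit 163869) (nat_lit 2) (.e (nat_lit 196666) (nat_lit 13) .nil))))))) (.g (nat_lit 1) (.e (nat_lit 261492) (nat_lit 0) .nil) .nil))) 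
(.lf (nat_lit 537280) (.g (nat_lit 627) (.e (nat_lit 65609) (nat_lit 10) (.e (nat_lit 344177) (nat_lit 43) (.e (nat_lit 770074) (nat_lit 10) .nil))) (.g (nat_lit 0) (.e (nat_lit 262346) (nat_lit 0) .nil) .nil)))) (.nd (nat_lit 9) 
(.lf (nat_lit 537024) (.g (nat_lit 3031) (.e (nat_lit 65586) (nat_lit 7) (.e (nat_lit 319531) (nat_lit 16) (.e (nat_lit 286759) (nat_lit 12) (.e (nat_lit 385107) (nat_lit 51) (.e (nat_lit 794638) (nat_lit 20) (.e (nat_lit 3613) (nat_lit 226) (.e (nat_lit 770072) (nat_lit 8) .nil))))))) (.g (nat_lit 1) (.e (nat_lit 261895) (nat_lit 0) .nil) .nil))) 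
(.lf (nat_lit 537536) (.g (nat_lit 4183) (.e (nat_lit 65617) (nat_lit 10) (.e (nat_lit 344133) (nat_lit 26) (.e (nat_lit 557087) (nat_lit 11) (.e (nat_lit 24580) (nat_lit 0) (.e (nat_lit 6619) (nat_lit 357) (.e (nat_lit 2668) (nat_lit 167) (.e (nat_lit 196666) (nat_lit 13) .nil))))))) (.g (nat_lit 1) (.e (nat_lit 262791) (nat_lit 0) .nil) .nil))))))) 
(.nd (nat_lit 6) (.nd (nat_lit 7) (.nd (nat_lit 8) (.nd (nat_lit 9) 
(.lf (nat_lit 536608) (.g (nat_lit 389) (.e (nat_lit 57931) (nat_lit 282) (.e (nat_lit 163896) (nat_lit 10) (.e (nat_lit 409616) (nat_lit 10) .nil))) (.g (nat_lit 0) (.e (nat_lit 260752) (nat_lit 0) .nil) .nil))) 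
(.lf (nat_lit 537120) (.g (nat_lit 2228) (.e (nat_lit 65603) (nat_lit 9) (.e (nat_lit 336028) (nat_lit 3) (.e (nat_lit 98350) (nat_lit 24) (.e (nat_lit 409650) (nat_lit 19) (.e (nat_lit 311312) (nat_lit 2) .nil))))) (.g (nat_lit 0) (.e (nat_lit 262123) (nat_lit 0) .nil) .nil)))) (.nd (nat_lit 9) 
(.lf (nat_lit 536864) (.g (nat_lit 3221) (.e (nat_lit 65571) (nat_lit 3) (.e (nat_lit 98342) (nat_lit 20) (.e (nat_lit 221215) (nat_lit 23) (.e (nat_lit 204829) (nat_lit 18) (.e (nat_lit 57927) (nat_lit 282) (.e (nat_lit 163868) (nat_lit 2) (.e (nat_lit 196664) (nat_lit 13) .nil))))))) (.g (nat_lit 1) (.e (nat_lit 261639) (nat_lit 0) .nil) .nil))) 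
(.lf (nat_lit 537376) (.g (nat_lit 497) (.e (nat_lit 65610) (nat_lit 10) (.e (nat_lit 344129) (nat_lit 26) (.e (nat_lit 557089) (nat_lit 12) .nil))) (.g (nat_lit 0) (.e (nat_lit 262572) (nat_lit 0) .nil) .nil))))) (.nd (nat_lit 8) (.nd (nat_lit 9) 
(.lf (nat_lit 536736) (.g (nat_lit 2500) (.e (nat_lit 65568) (nat_lit 2) (.e (nat_lit 90170) (nat_lit 13) (.e (nat_lit 172106) (nat_lit 10) (.e (nat_lit 434231) (nat_lit 23) (.e (nat_lit 532577) (nat_lit 17) (.e (nat_lit 3452) (nat_lit 216) (.e (nat_lit 688172) (nat_lit 16) .nil))))))) (.g (nat_lit 1) (.e (nat_lit 261349) (nat_lit 0) .nil) .nil))) 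
(.lf (nat_lit 537248) (.g (nat_lit 1410) (.e (nat_lit 65601) (nat_lit 9) (.e (nat_lit 336295) (nat_lit 15) (.e (nat_lit 3305) (nat_lit 202) (.e (nat_lit 573484) (nat_lit 13) .nil)))) (.g (nat_lit 0) (.e (nat_lit 262283) (nat_lit 0) .nil) .nil)))) (.nd (nat_lit 9) 
(.lf (nat_lit 536992) (.g (nat_lit 2345) (.e (nat_lit 65586) (nat_lit 7) (.e (nat_lit 319517) (nat_lit 12) (.e (nat_lit 32788) (nat_lit 10) (.e (nat_lit 73782) (nat_lit 32) (.e (nat_lit 2664) (nat_lit 167) (.e (nat_lit 196666) (nat_lit 13) .nil)))))) (.g (nat_lit 1) (.e (nat_lit 261861) (nat_lit 0) .nil) .nil))) 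
(.lf (nat_lit 537504) (.g (nat_lit 3923) (.e (nat_lit 65617) (nat_lit 10) (.e (nat_lit 344130) (nat_lit 26) (.e (nat_lit 557087) (nat_lit 11) (.e (nat_lit 24625) (nat_lit 9) (.e (nat_lit 336301) (nat_lit 15) (.e (nat_lit 3304) (nat_lit 202) (.e (nat_lit 573484) (nat_lit 13) .nil))))))) (.g (nat_lit 1) (.e (nat_lit 262751) (nat_lit 0) .nil) .nil)))))) 
(.nd (nat_lit 7) (.nd (nat_lit 8) (.nd (nat_lit 9) 
(.lf (nat_lit 536672) (.g (nat_lit 1400) (.e (nat_lit 57931) (nat_lit 282) (.e (nat_lit 163943) (nat_lit 19) (.e (nat_lit 483393) (nat_lit 23) (.e (nat_lit 336027) (nat_lit 3) .nil)))) (.g (nat_lit 0) (.e (nat_lit 260949) (nat_lit 0) .nil) .nil))) 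
(.lf (nat_lit 537184) (.g (nat_lit 2613) (.e (nat_lit 65604) (nat_lit 9) (.e (nat_lit 336013) (nat_lit 2) (.e (nat_lit 90170) (nat_lit 13) (.e (nat_lit 172051) (nat_lit 0) .nil)))) (.g (nat_lit 0) (.e (nat_lit 262201) (nat_lit 0) .nil) .nil)))) (.nd (nat_lit 9) 
(.lf (nat_lit 536928) (.g (nat_lit 1421) (.e (nat_lit 65580) (nat_lit 6) (.e (nat_lit 147492) (nat_lit 11) (.e (nat_lit 24630) (nat_lit 9) (.e (nat_lit 336438) (nat_lit 31) (.e (nat_lit 466688) (nat_lit 4) .nil))))) (.g (nat_lit 1) (.e (nat_lit 261753) (nat_lit 0) .nil) .nil))) 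
(.lf (nat_lit 537440) (.g (nat_lit 4489) (.e (nat_lit 65617) (nat_lit 10) (.e (nat_lit 344117) (nat_lit 21) (.e (nat_lit 516151) (nat_lit 9) (.e (nat_lit 426025) (nat_lit 0) .nil)))) (.g (nat_lit 0) (.e (nat_lit 262676) (nat_lit 0) .nil) .nil))))) (.nd (nat_lit 8) (.nd (nat_lit 9) 
(.lf (nat_lit 536800) (.g (nat_lit 2111) (.e (nat_lit 65570) (nat_lit 3) (.e (nat_lit 98333) (nat_lit 18) (.e (nat_lit 164179) (nat_lit 154) (.e (nat_lit 57377) (nat_lit 3) .nil)))) (.g (nat_lit 0) (.e (nat_lit 261542) (nat_lit 0) .nil) .nil))) 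
(.lf (nat_lit 537312) (.g (nat_lit 2612) (.e (nat_lit 65610) (nat_lit 10) (.e (nat_lit 344117) (nat_lit 21) (.e (nat_lit 516151) (nat_lit 9) (.e (nat_lit 426034) (nat_lit 0) .nil)))) (.g (nat_lit 0) (.e (nat_lit 262403) (nat_lit 0) .nil) .nil)))) (.nd (nat_lit 9) 
(.lf (nat_lit 537056) (.g (nat_lit 4229) (.e (nat_lit 65591) (nat_lit 9) (.e (nat_lit 336454) (nat_lit 34) (.e (nat_lit 483365) (nat_lit 18) (.e (nat_lit 57930) (nat_lit 282) .nil)))) (.g (nat_lit 0) (.e (nat_lit 262002) (nat_lit 0) .nil) .nil))) 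
(.lf (nat_lit 537568) (.g (nat_lit 3366) (.e (nat_lit 65618) (nat_lit 10) (.e (nat_lit 344117) (nat_lit 21) (.e (nat_lit 516179) (nat_lit 15) (.e (nat_lit 475199) (nat_lit 40) (.e (nat_lit 704589) (nat_lit 3) (.e (nat_lit 163979) (nat_lit 30) (.e (nat_lit 573480) (nat_lit 13) .nil))))))) (.g (nat_lit 1) (.e (nat_lit 262829) (nat_lit 0) .nil) .nil)))))))) 
(.nd (nat_lit 5) (.nd (nat_lit 6) (.nd (nat_lit 7) (.nd (nat_lit 8) (.nd (nat_lit 9) 
(.lf (nat_lit 536592) (.g (nat_lit 1565) (.e (nat_lit 57931) (nat_lit 282) (.e (nat_lit 163874) (nat_lit 3) (.e (nat_lit 204873) (nat_lit 30) (.e (nat_lit 368676) (nat_lit 21) (.e (nat_lit 516131) (nat_lit 3) .nil))))) (.g (nat_lit 0) (.e (nat_lit 260727) (nat_lit 0) .nil) .nil))) 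
(.lf (nat_lit 537104) (.g (nat_lit 1282) (.e (nat_lit 65598) (nat_lit 9) (.e (nat_lit 336013) (nat_lit 2) (.e (nat_lit 90172) (nat_lit 14) .nil))) (.g (nat_lit 0) (.e (nat_lit 262088) (nat_lit 0) .nil) .nil)))) (.nd (nat_lit 9) 
(.lf (nat_lit 536848) (.g (nat_lit 3270) (.e (nat_lit 65571) (nat_lit 3) (.e (nat_lit 98342) (nat_lit 20) (.e (nat_lit 221214) (nat_lit 23) (.e (nat_lit 204829) (nat_lit 18) (.e (nat_lit 57928) (nat_lit 282) (.e (nat_lit 163868) (nat_lit 2) (.e (nat_lit 196663) (nat_lit 13) .nil))))))) (.g (nat_lit 1) (.e (nat_lit 261623) (nat_lit 0) .nil) .nil))) 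
(.lf (nat_lit 537360) (.g (nat_lit 1244) (.e (nat_lit 65610) (nat_lit 10) (.e (nat_lit 344129) (nat_lit 26) (.e (nat_lit 557074) (nat_lit 9) (.e (nat_lit 2599) (nat_lit 163) .nil)))) (.g (nat_lit 0) (.e (nat_lit 262524) (nat_lit 0) .nil) .nil))))) (.nd (nat_lit 8) (.nd (nat_lit 9) 
(.lf (nat_lit 536720) (.g (nat_lit 1740) (.e (nat_lit 65566) (nat_lit 2) (.e (nat_lit 90170) (nat_lit 13) (.e (nat_lit 172106) (nat_lit 10) (.e (nat_lit 434244) (nat_lit 28) (.e (nat_lit 573474) (nat_lit 12) .nil))))) (.g (nat_lit 0) (.e (nat_lit 261299) (nat_lit 0) .nil) .nil))) 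
(.lf (nat_lit 537232) (.g (nat_lit 5308) (.e (nat_lit 65604) (nat_lit 9) (.e (nat_lit 336028) (nat_lit 3) (.e (nat_lit 98367) (nat_lit 27) (.e (nat_lit 434272) (nat_lit 38) (.e (nat_lit 655375) (nat_lit 3) (.e (nat_lit 163978) (nat_lit 30) (.e (nat_lit 573479) (nat_lit 13) .nil))))))) (.g (nat_lit 1) (.e (nat_lit 262264) (nat_lit 0) .nil) .nil)))) (.nd (nat_lit 9) 
(.lf (nat_lit 536976) (.g (nat_lit 3417) (.e (nat_lit 65583) (nat_lit 7) (.e (nat_lit 319530) (nat_lit 16) (.e (nat_lit 286762) (nat_lit 14) (.e (nat_lit 401446) (nat_lit 10) (.e (nat_lit 434268) (nat_lit 36) (.e (nat_lit 639020) (nat_lit 16) .nil)))))) (.g (nat_lit 1) (.e (nat_lit 261826) (nat_lit 0) .nil) .nil))) 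
(.lf (nat_lit 537488) (.g (nat_lit 2727) (.e (nat_lit 65617) (nat_lit 10) (.e (nat_lit 344128) (nat_lit 26) (.e (nat_lit 557090) (nat_lit 12) (.e (nat_lit 164020) (nat_lit 45) (.e (nat_lit 696330) (nat_lit 5) (.e (nat_lit 2884) (nat_lit 184) (.e (nat_lit 426125) (nat_lit 2) (.e (nat_lit 196666) (nat_lit 13) .nil)))))))) (.g (nat_lit 1) (.e (nat_lit 262729) (nat_lit 0) .nil) .nil)))))) 
(.nd (nat_lit 7) (.nd (nat_lit 8) (.nd (nat_lit 9) 
(.lf (nat_lit 536656) (.g (nat_lit 1609) (.e (nat_lit 57931) (nat_lit 282) (.e (nat_lit 163943) (nat_lit 19) (.e (nat_lit 483350) (nat_lit 17) (.e (nat_lit 7936) (nat_lit 360) .nil)))) (.g (nat_lit 0) (.e (nat_lit 260905) (nat_lit 0) .nil) .nil))) 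
(.lf (nat_lit 537168) (.g (nat_lit 2003) (.e (nat_lit 65604) (nat_lit 9) (.e (nat_lit 336013) (nat_lit 2) (.e (nat_lit 90170) (nat_lit 13) (.e (nat_lit 172041) (nat_lit 0) .nil)))) (.g (nat_lit 0) (.e (nat_lit 262185) (nat_lit 0) .nil) .nil)))) (.nd (nat_lit 9) 
(.lf (nat_lit 536912) (.g (nat_lit 1514) (.e (nat_lit 65578) (nat_lit 6) (.e (nat_lit 147494) (nat_lit 11) (.e (nat_lit 24630) (nat_lit 9) (.e (nat_lit 336438) (nat_lit 31) (.e (nat_lit 466688) (nat_lit 4) .nil))))) (.g (nat_lit 1) (.e (nat_lit 261726) (nat_lit 0) .nil) .nil))) 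
(.lf (nat_lit 537424) (.g (nat_lit 2221) (.e (nat_lit 65617) (nat_lit 10) (.e (nat_lit 344091) (nat_lit 18) (.e (nat_lit 7710) (nat_lit 414) (.e (nat_lit 163923) (nat_lit 15) (.e (nat_lit 450584) (nat_lit 9) (.e (nat_lit 565267) (nat_lit 4) .nil)))))) (.g (nat_lit 1) (.e (nat_lit 262660) (nat_lit 0) .nil) .nil))))) (.nd (nat_lit 8) (.nd (nat_lit 9) 
(.lf (nat_lit 536784) (.g (nat_lit 2300) (.e (nat_lit 65569) (nat_lit 3) (.e (nat_lit 98342) (nat_lit 20) (.e (nat_lit 221214) (nat_lit 23) (.e (nat_lit 204831) (nat_lit 18) (.e (nat_lit 57931) (nat_lit 282) .nil))))) (.g (nat_lit 0) (.e (nat_lit 261511) (nat_lit 0) .nil) .nil))) 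
(.lf (nat_lit 537296) (.g (nat_lit 2648) (.e (nat_lit 65610) (nat_lit 10) (.e (nat_lit 344117) (nat_lit 21) (.e (nat_lit 516106) (nat_lit 0) (.e (nat_lit 6986) (nat_lit 377) (.e (nat_lit 2512) (nat_lit 157) (.e (nat_lit 5612) (nat_lit 312) (.e (nat_lit 2668) (nat_lit 167) (.e (nat_lit 196666) (nat_lit 13) .nil)))))))) (.g (nat_lit 1) (.e (nat_lit 262383) (nat_lit 0) .nil) .nil)))) 
(.nd (nat_lit 9) 
(.lf (nat_lit 537040) (.g (nat_lit 2358) (.e (nat_lit 65589) (nat_lit 9) (.e (nat_lit 336013) (nat_lit 2) (.e (nat_lit 90165) (nat_lit 12) (.e (nat_lit 164214) (nat_lit 176) .nil)))) (.g (nat_lit 0) (.e (nat_lit 261917) (nat_lit 0) .nil) .nil))) 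
(.lf (nat_lit 537552) (.g (nat_lit 1258) (.e (nat_lit 65617) (nat_lit 10) (.e (nat_lit 344157) (nat_lit 36) (.e (nat_lit 638999) (nat_lit 8) (.e (nat_lit 172112) (nat_lit 10) (.e (nat_lit 434266) (nat_lit 35) (.e (nat_lit 630821) (nat_lit 16) .nil)))))) (.g (nat_lit 1) (.e (nat_lit 262809) (nat_lit 0) .nil) .nil))))))) (.nd (nat_lit 6) (.nd (nat_lit 7) (.nd (nat_lit 8) (.nd (nat_lit 9) 
(.lf (nat_lit 536624) (.g (nat_lit 2025) (.e (nat_lit 57931) (nat_lit 282) (.e (nat_lit 163905) (nat_lit 12) (.e (nat_lit 426542) (nat_lit 29) (.e (nat_lit 352315) (nat_lit 23) (.e (nat_lit 98313) (nat_lit 9) (.e (nat_lit 335993) (nat_lit 1) .nil)))))) (.g (nat_lit 1) (.e (nat_lit 260827) (nat_lit 0) .nil) .nil))) 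
(.lf (nat_lit 537136) (.g (nat_lit 1616) (.e (nat_lit 65604) (nat_lit 9) (.e (nat_lit 336013) (nat_lit 2) (.e (nat_lit 90130) (nat_lit 9) .nil))) (.g (nat_lit 0) (.e (nat_lit 262153) (nat_lit 0) .nil) .nil)))) (.nd (nat_lit 9) 
(.lf (nat_lit 536880) (.g (nat_lit 2453) (.e (nat_lit 65571) (nat_lit 3) (.e (nat_lit 98350) (nat_lit 24) (.e (nat_lit 409623) (nat_lit 10) (.e (nat_lit 5664) (nat_lit 312) (.e (nat_lit 2679) (nat_lit 168) (.e (nat_lit 204819) (nat_lit 17) (.e (nat_lit 7936) (nat_lit 347) .nil))))))) (.g (nat_lit 1) (.e (nat_lit 261655) (nat_lit 0) .nil) .nil))) 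
(.lf (nat_lit 537392) (.g (nat_lit 2946) (.e (nat_lit 65611) (nat_lit 10) (.e (nat_lit 344117) (nat_lit 21) (.e (nat_lit 516139) (nat_lit 7) (.e (nat_lit 409644) (nat_lit 18) .nil)))) (.g (nat_lit 0) (.e (nat_lit 262596) (nat_lit 0) .nil) .nil))))) (.nd (nat_lit 8) (.nd (nat_lit 9) 
(.lf (nat_lit 536752) (.g (nat_lit 2529) (.e (nat_lit 65568) (nat_lit 2) (.e (nat_lit 90170) (nat_lit 13) (.e (nat_lit 172113) (nat_lit 10) (.e (nat_lit 434247) (nat_lit 28) (.e (nat_lit 573473) (nat_lit 12) .nil))))) (.g (nat_lit 0) (.e (nat_lit 261365) (nat_lit 0) .nil) .nil))) 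
(.lf (nat_lit 537264) (.g (nat_lit 591) (.e (nat_lit 73472) (nat_lit 9) (.e (nat_lit 336027) (nat_lit 3) (.e (nat_lit 98350) (nat_lit 24) .nil))) (.g (nat_lit 0) (.e (nat_lit 262318) (nat_lit 0) .nil) .nil)))) (.nd (nat_lit 9) 
(.lf (nat_lit 537008) (.g (nat_lit 1961) (.e (nat_lit 65586) (nat_lit 7) (.e (nat_lit 319531) (nat_lit 16) (.e (nat_lit 286748) (nat_lit 9) (.e (nat_lit 336295) (nat_lit 15) (.e (nat_lit 3806) (nat_lit 231) (.e (nat_lit 811038) (nat_lit 11) (.e (nat_lit 7936) (nat_lit 74) (.e (nat_lit 770072) (nat_lit 8) .nil)))))))) (.g (nat_lit 1) (.e (nat_lit 261879) (nat_lit 0) .nil) .nil))) 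
(.lf (nat_lit 537520) (.g (nat_lit 674) (.e (nat_lit 65617) (nat_lit 10) (.e (nat_lit 344132) (nat_lit 26) (.e (nat_lit 557092) (nat_lit 12) .nil))) (.g (nat_lit 0) (.e (nat_lit 262773) (nat_lit 0) .nil) .nil)))))) (.nd (nat_lit 7) (.nd (nat_lit 8) (.nd (nat_lit 9) 
(.lf (nat_lit 536688) (.g (nat_lit 2279) (.e (nat_lit 57931) (nat_lit 282) (.e (nat_lit 163943) (nat_lit 19) (.e (nat_lit 483413) (nat_lit 27) (.e (nat_lit 401418) (nat_lit 0) .nil)))) (.g (nat_lit 0) (.e (nat_lit 260972) (nat_lit 0) .nil) .nil))) 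
(.lf (nat_lit 537200) (.g (nat_lit 3520) (.e (nat_lit 65604) (nat_lit 9) (.e (nat_lit 336028) (nat_lit 3) (.e (nat_lit 98359) (nat_lit 26) (.e (nat_lit 426023) (nat_lit 0) (.e (nat_lit 3401) (nat_lit 211) (.e (nat_lit 647180) (nat_lit 3) (.e (nat_lit 163979) (nat_lit 30) (.e (nat_lit 573482) (nat_lit 13) .nil)))))))) (.g (nat_lit 1) (.e (nat_lit 262224) (nat_lit 0) .nil) .nil)))) (.nd (nat_lit 9) 
(.lf (nat_lit 536944) (.g (nat_lit 1856) (.e (nat_lit 65580) (nat_lit 6) (.e (nat_lit 147496) (nat_lit 11) (.e (nat_lit 24624) (nat_lit 9) (.e (nat_lit 336438) (nat_lit 31) (.e (nat_lit 466688) (nat_lit 4) .nil))))) (.g (nat_lit 1) (.e (nat_lit 261774) (nat_lit 0) .nil) .nil))) 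
(.lf (nat_lit 537456) (.g (nat_lit 2729) (.e (nat_lit 65617) (nat_lit 10) (.e (nat_lit 344127) (nat_lit 26) (.e (nat_lit 557090) (nat_lit 12) (.e (nat_lit 163843) (nat_lit 0) (.e (nat_lit 6252) (nat_lit 337) .nil))))) (.g (nat_lit 0) (.e (nat_lit 262695) (nat_lit 0) .nil) .nil))))) (.nd (nat_lit 8) (.nd (nat_lit 9) 
(.lf (nat_lit 536816) (.g (nat_lit 4187) (.e (nat_lit 65571) (nat_lit 3) (.e (nat_lit 98341) (nat_lit 20) (.e (nat_lit 221214) (nat_lit 23) (.e (nat_lit 204829) (nat_lit 18) (.e (nat_lit 57927) (nat_lit 282) (.e (nat_lit 163868) (nat_lit 2) (.e (nat_lit 196663) (nat_lit 13) .nil))))))) (.g (nat_lit 1) (.e (nat_lit 261588) (nat_lit 0) .nil) .nil))) 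
(.lf (nat_lit 537328) (.g (nat_lit 3201) (.e (nat_lit 65610) (nat_lit 10) (.e (nat_lit 344117) (nat_lit 21) (.e (nat_lit 516179) (nat_lit 15) (.e (nat_lit 475198) (nat_lit 40) (.e (nat_lit 704589) (nat_lit 3) (.e (nat_lit 163975) (nat_lit 30) (.e (nat_lit 573483) (nat_lit 13) .nil))))))) (.g (nat_lit 1) (.e (nat_lit 262433) (nat_lit 0) .nil) .nil)))) (.nd (nat_lit 9) 
(.lf (nat_lit 537072) (.g (nat_lit 869) (.e (nat_lit 65597) (nat_lit 9) (.e (nat_lit 336013) (nat_lit 2) (.e (nat_lit 90170) (nat_lit 13) .nil))) (.g (nat_lit 0) (.e (nat_lit 262044) (nat_lit 0) .nil) .nil))) 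
(.lf (nat_lit 537584) (.g (nat_lit 4099) (.e (nat_lit 65619) (nat_lit 10) (.e (nat_lit 344117) (nat_lit 21) (.e (nat_lit 516106) (nat_lit 0) (.e (nat_lit 6986) (nat_lit 377) (.e (nat_lit 2779) (nat_lit 178) (.e (nat_lit 286765) (nat_lit 15) (.e (nat_lit 3296) (nat_lit 202) (.e (nat_lit 573482) (nat_lit 13) .nil)))))))) (.g (nat_lit 1) (.e (nat_lit 262864) (nat_lit 0) .nil) .nil))))))))) 
(.nd (nat_lit 4) (.nd (nat_lit 5) (.nd (nat_lit 6) (.nd (nat_lit 7) (.nd (nat_lit 8) 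
(.nd (nat_lit 9) 
(.lf (nat_lit 536584) (.g (nat_lit 2093) (.e (nat_lit 57931) (nat_lit 282) (.e (nat_lit 163874) (nat_lit 3) (.e (nat_lit 204862) (nat_lit 27) (.e (nat_lit 344117) (nat_lit 21) (.e (nat_lit 516130) (nat_lit 3) .nil))))) (.g (nat_lit 0) (.e (nat_lit 260711) (nat_lit 0) .nil) .nil))) 
(.lf (nat_lit 537096) (.g (nat_lit 3216) (.e (nat_lit 65598) (nat_lit 9) (.e (nat_lit 336013) (nat_lit 2) (.e (nat_lit 90170) (nat_lit 13) (.e (nat_lit 172049) (nat_lit 0) .nil)))) (.g (nat_lit 0) (.e (nat_lit 262080) (nat_lit 0) .nil) .nil)))) (.nd (nat_lit 9) 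
(.lf (nat_lit 536840) (.g (nat_lit 3391) (.e (nat_lit 65571) (nat_lit 3) (.e (nat_lit 98342) (nat_lit 20) (.e (nat_lit 221213) (nat_lit 23) (.e (nat_lit 204829) (nat_lit 18) (.e (nat_lit 57931) (nat_lit 282) (.e (nat_lit 163867) (nat_lit 2) (.e (nat_lit 196663) (nat_lit 13) .nil))))))) (.g (nat_lit 1) (.e (nat_lit 261615) (nat_lit 0) .nil) .nil))) 
(.lf (nat_lit 537352) (.g (nat_lit 2118) (.e (nat_lit 65610) (nat_lit 10) (.e (nat_lit 344129) (nat_lit 26) (.e (nat_lit 557067) (nat_lit 9) (.e (nat_lit 2433) (nat_lit 157) (.e (nat_lit 3460) (nat_lit 216) .nil))))) (.g (nat_lit 0) (.e (nat_lit 262487) (nat_lit 0) .nil) .nil))))) (.nd (nat_lit 8) (.nd (nat_lit 9) 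
(.lf (nat_lit 536712) (.g (nat_lit 445) (.e (nat_lit 65563) (nat_lit 1) (.e (nat_lit 57931) (nat_lit 282) (.e (nat_lit 163943) (nat_lit 19) .nil))) (.g (nat_lit 0) (.e (nat_lit 261204) (nat_lit 0) .nil) .nil))) 
(.lf (nat_lit 537224) (.g (nat_lit 2146) (.e (nat_lit 65604) (nat_lit 9) (.e (nat_lit 336028) (nat_lit 3) (.e (nat_lit 98367) (nat_lit 27) (.e (nat_lit 434275) (nat_lit 39) (.e (nat_lit 663565) (nat_lit 3) .nil))))) (.g (nat_lit 0) (.e (nat_lit 262256) (nat_lit 0) .nil) .nil)))) (.nd (nat_lit 9) 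
(.lf (nat_lit 536968) (.g (nat_lit 2237) (.e (nat_lit 65583) (nat_lit 7) (.e (nat_lit 319530) (nat_lit 16) (.e (nat_lit 286748) (nat_lit 9) (.e (nat_lit 336295) (nat_lit 15) (.e (nat_lit 3757) (nat_lit 229) (.e (nat_lit 794649) (nat_lit 20) (.e (nat_lit 3613) (nat_lit 226) (.e (nat_lit 770072) (nat_lit 8) .nil)))))))) (.g (nat_lit 1) (.e (nat_lit 261818) (nat_lit 0) .nil) .nil))) 
(.lf (nat_lit 537480) (.g (nat_lit 2865) (.e (nat_lit 65617) (nat_lit 10) (.e (nat_lit 344127) (nat_lit 26) (.e (nat_lit 557090) (nat_lit 12) (.e (nat_lit 164022) (nat_lit 46) (.e (nat_lit 704627) (nat_lit 9) .nil))))) (.g (nat_lit 0) (.e (nat_lit 262721) (nat_lit 0) .nil) .nil)))))) (.nd (nat_lit 7) (.nd (nat_lit 8) (.nd (nat_lit 9) 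
(.lf (nat_lit 536648) (.g (nat_lit 2742) (.e (nat_lit 57931) (nat_lit 282) (.e (nat_lit 163943) (nat_lit 19) (.e (nat_lit 483344) (nat_lit 17) (.e (nat_lit 6712) (nat_lit 360) (.e (nat_lit 163978) (nat_lit 30) .nil))))) (.g (nat_lit 0) (.e (nat_lit 260888) (nat_lit 0) .nil) .nil))) 
(.lf (nat_lit 537160) (.g (nat_lit 2152) (.e (nat_lit 65604) (nat_lit 9) (.e (nat_lit 336013) (nat_lit 2) (.e (nat_lit 90167) (nat_lit 13) .nil))) (.g (nat_lit 0) (.e (nat_lit 262177) (nat_lit 0) .nil) .nil)))) (.nd (nat_lit 9) 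
(.lf (nat_lit 536904) (.g (nat_lit 1341) (.e (nat_lit 65578) (nat_lit 6) (.e (nat_lit 147492) (nat_lit 11) (.e (nat_lit 24630) (nat_lit 9) (.e (nat_lit 336438) (nat_lit 31) (.e (nat_lit 466688) (nat_lit 4) .nil))))) (.g (nat_lit 1) (.e (nat_lit 261716) (nat_lit 0) .nil) .nil))) 
(.lf (nat_lit 537416) (.g (nat_lit 403) (.e (nat_lit 65616) (nat_lit 10) (.e (nat_lit 344156) (nat_lit 36) (.e (nat_lit 638985) (nat_lit 5) .nil))) (.g (nat_lit 0) (.e (nat_lit 262642) (nat_lit 0) .nil) .nil))))) (.nd (nat_lit 8) (.nd (nat_lit 9) 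
(.lf (nat_lit 536776) (.g (nat_lit 742) (.e (nat_lit 65569) (nat_lit 3) (.e (nat_lit 98342) (nat_lit 20) (.e (nat_lit 221214) (nat_lit 23) .nil))) (.g (nat_lit 0) (.e (nat_lit 261501) (nat_lit 0) .nil) .nil))) 
(.lf (nat_lit 537288) (.g (nat_lit 761) (.e (nat_lit 65610) (nat_lit 10) (.e (nat_lit 344117) (nat_lit 21) (.e (nat_lit 516100) (nat_lit 0) .nil))) (.g (nat_lit 0) (.e (nat_lit 262373) (nat_lit 0) .nil) .nil)))) (.nd (nat_lit 9) 
(.lf (nat_lit 537032) (.g (nat_lit 2859) (.e (nat_lit 65586) (nat_lit 7) (.e (nat_lit 319534) (nat_lit 16) (.e (nat_lit 286762) (nat_lit 14) (.e (nat_lit 401447) (nat_lit 10) (.e (nat_lit 434268) (nat_lit 36) (.e (nat_lit 639020) (nat_lit 16) .nil)))))) (.g (nat_lit 1) (.e (nat_lit 261903) (nat_lit 0) .nil) .nil))) 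
(.lf (nat_lit 537544) (.g (nat_lit 373) (.e (nat_lit 65617) (nat_lit 10) (.e (nat_lit 344133) (nat_lit 26) (.e (nat_lit 557091) (nat_lit 12) .nil))) (.g (nat_lit 0) (.e (nat_lit 262799) (nat_lit 0) .nil) .nil))))))) (.nd (nat_lit 6) (.nd (nat_lit 7) (.nd (nat_lit 8) (.nd (nat_lit 9) 
(.lf (nat_lit 536616) (.g (nat_lit 2956) (.e (nat_lit 57931) (nat_lit 282) (.e (nat_lit 163902) (nat_lit 12) (.e (nat_lit 426555) (nat_lit 32) (.e (nat_lit 376862) (nat_lit 22) (.e (nat_lit 90160) (nat_lit 11) (.e (nat_lit 24598) (nat_lit 1) .nil)))))) (.g (nat_lit 1) (.e (nat_lit 260814) (nat_lit 0) .nil) .nil))) 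
(.lf (nat_lit 537128) (.g (nat_lit 2274) (.e (nat_lit 65604) (nat_lit 9) (.e (nat_lit 335997) (nat_lit 1) (.e (nat_lit 57857) (nat_lit 254) (.e (nat_lit 163920) (nat_lit 14) (.e (nat_lit 442411) (nat_lit 20) (.e (nat_lit 3390) (nat_lit 210) (.e (nat_lit 639021) (nat_lit 16) .nil))))))) (.g (nat_lit 1) (.e (nat_lit 262144) (nat_lit 0) .nil) .nil)))) (.nd (nat_lit 9) 
(.lf (nat_lit 536872) (.g (nat_lit 3169) (.e (nat_lit 65571) (nat_lit 3) (.e (nat_lit 98342) (nat_lit 20) (.e (nat_lit 221215) (nat_lit 23) (.e (nat_lit 204830) (nat_lit 18) (.e (nat_lit 57927) (nat_lit 282) (.e (nat_lit 163868) (nat_lit 2) (.e (nat_lit 196664) (nat_lit 13) .nil))))))) (.g (nat_lit 1) (.e (nat_lit 261647) (nat_lit 0) .nil) .nil))) 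
(.lf (nat_lit 537384) (.g (nat_lit 1764) (.e (nat_lit 65610) (nat_lit 10) (.e (nat_lit 344129) (nat_lit 26) (.e (nat_lit 557090) (nat_lit 12) (.e (nat_lit 163848) (nat_lit 0) .nil)))) (.g (nat_lit 0) (.e (nat_lit 262583) (nat_lit 0) .nil) .nil))))) (.nd (nat_lit 8) (.nd (nat_lit 9) 
(.lf (nat_lit 536744) (.g (nat_lit 2550) (.e (nat_lit 65568) (nat_lit 2) (.e (nat_lit 90170) (nat_lit 13) (.e (nat_lit 172106) (nat_lit 10) (.e (nat_lit 434231) (nat_lit 23) (.e (nat_lit 540416) (nat_lit 17) (.e (nat_lit 3458) (nat_lit 216) (.e (nat_lit 688176) (nat_lit 16) .nil))))))) (.g (nat_lit 1) (.e (nat_lit 261357) (nat_lit 0) .nil) .nil))) 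
(.lf (nat_lit 537256) (.g (nat_lit 2066) (.e (nat_lit 65608) (nat_lit 9) (.e (nat_lit 336021) (nat_lit 3) (.e (nat_lit 98350) (nat_lit 24) (.e (nat_lit 409643) (nat_lit 18) .nil)))) (.g (nat_lit 0) (.e (nat_lit 262306) (nat_lit 0) .nil) .nil)))) (.nd (nat_lit 9) 
(.lf (nat_lit 537000) (.g (nat_lit 2492) (.e (nat_lit 65586) (nat_lit 7) (.e (nat_lit 319531) (nat_lit 16) (.e (nat_lit 286748) (nat_lit 9) (.e (nat_lit 336295) (nat_lit 15) (.e (nat_lit 3632) (nat_lit 227) (.e (nat_lit 778445) (nat_lit 9) (.e (nat_lit 2468) (nat_lit 157) (.e (nat_lit 3613) (nat_lit 226) (.e (nat_lit 770072) (nat_lit 8) .nil))))))))) (.g (nat_lit 1) (.e (nat_lit 261871) (nat_lit 0) .nil) .nil))) 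
(.lf (nat_lit 537512) (.g (nat_lit 5063) (.e (nat_lit 65617) (nat_lit 10) (.e (nat_lit 344130) (nat_lit 26) (.e (nat_lit 557090) (nat_lit 12) (.e (nat_lit 164022) (nat_lit 46) (.e (nat_lit 704629) (nat_lit 9) (.e (nat_lit 442) (nat_lit 33) (.e (nat_lit 434217) (nat_lit 19) (.e (nat_lit 500065) (nat_lit 18) .nil)))))))) (.g (nat_lit 1) (.e (nat_lit 262763) (nat_lit 0) .nil) .nil)))))) 
(.nd (nat_lit 7) (.nd (nat_lit 8) (.nd (nat_lit 9) 
(.lf (nat_lit 536680) (.g (nat_lit 2361) (.e (nat_lit 57931) (nat_lit 282) (.e (nat_lit 163943) (nat_lit 19) (.e (nat_lit 483411) (nat_lit 27) (.e (nat_lit 401416) (nat_lit 0) .nil)))) (.g (nat_lit 0) (.e (nat_lit 260963) (nat_lit 0) .nil) .nil))) 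
(.lf (nat_lit 537192) (.g (nat_lit 5568) (.e (nat_lit 65604) (nat_lit 9) (.e (nat_lit 336013) (nat_lit 2) (.e (nat_lit 90170) (nat_lit 13) (.e (nat_lit 172138) (nat_lit 15) (.e (nat_lit 2059) (nat_lit 142) (.e (nat_lit 704589) (nat_lit 3) (.e (nat_lit 163979) (nat_lit 30) (.e (nat_lit 573482) (nat_lit 13) .nil)))))))) (.g (nat_lit 1) (.e (nat_lit 262209) (nat_lit 0) .nil) .nil)))) 
(.nd (nat_lit 9) 
(.lf (nat_lit 536936) (.g (nat_lit 1373) (.e (nat_lit 65580) (nat_lit 6) (.e (nat_lit 147493) (nat_lit 11) (.e (nat_lit 24630) (nat_lit 9) (.e (nat_lit 336438) (nat_lit 31) (.e (nat_lit 466688) (nat_lit 4) .nil))))) (.g (nat_lit 1) (.e (nat_lit 261761) (nat_lit 0) .nil) .nil))) 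
(.lf (nat_lit 537448) (.g (nat_lit 2520) (.e (nat_lit 65617) (nat_lit 10) (.e (nat_lit 344126) (nat_lit 25) (.e (nat_lit 548889) (nat_lit 9) (.e (nat_lit 65546) (nat_lit 0) (.e (nat_lit 6676) (nat_lit 357) .nil))))) (.g (nat_lit 0) (.e (nat_lit 262684) (nat_lit 0) .nil) .nil))))) (.nd (nat_lit 8) (.nd (nat_lit 9) 
(.lf (nat_lit 536808) (.g (nat_lit 969) (.e (nat_lit 65571) (nat_lit 3) (.e (nat_lit 98317) (nat_lit 9) (.e (nat_lit 336288) (nat_lit 15) .nil))) (.g (nat_lit 0) (.e (nat_lit 261564) (nat_lit 0) .nil) .nil))) 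
(.lf (nat_lit 537320) (.g (nat_lit 2415) (.e (nat_lit 65610) (nat_lit 10) (.e (nat_lit 344117) (nat_lit 21) (.e (nat_lit 516151) (nat_lit 9) (.e (nat_lit 426367) (nat_lit 15) .nil)))) (.g (nat_lit 0) (.e (nat_lit 262414) (nat_lit 0) .nil) .nil)))) (.nd (nat_lit 9) 
(.lf (nat_lit 537064) (.g (nat_lit 2054) (.e (nat_lit 65596) (nat_lit 9) (.e (nat_lit 336013) (nat_lit 2) (.e (nat_lit 90165) (nat_lit 12) (.e (nat_lit 164207) (nat_lit 176) .nil)))) (.g (nat_lit 0) (.e (nat_lit 262020) (nat_lit 0) .nil) .nil))) 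
(.lf (nat_lit 537576) (.g (nat_lit 2929) (.e (nat_lit 65619) (nat_lit 10) (.e (nat_lit 344115) (nat_lit 20) (.e (nat_lit 507906) (nat_lit 0) (.e (nat_lit 5405) (nat_lit 302) (.e (nat_lit 65637) (nat_lit 15) (.e (nat_lit 3305) (nat_lit 202) (.e (nat_lit 573485) (nat_lit 13) .nil))))))) (.g (nat_lit 1) (.e (nat_lit 262853) (nat_lit 0) .nil) .nil)))))))) 
(.nd (nat_lit 5) (.nd (nat_lit 6) (.nd (nat_lit 7) (.nd (nat_lit 8) (.nd (nat_lit 9) 
(.lf (nat_lit 536600) (.g (nat_lit 495) (.e (nat_lit 57931) (nat_lit 282) (.e (nat_lit 163885) (nat_lit 5) (.e (nat_lit 221212) (nat_lit 22) .nil))) (.g (nat_lit 0) (.e (nat_lit 260741) (nat_lit 0) .nil) .nil))) 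
(.lf (nat_lit 537112) (.g (nat_lit 767) (.e (nat_lit 65603) (nat_lit 9) (.e (nat_lit 336013) (nat_lit 2) (.e (nat_lit 90165) (nat_lit 12) .nil))) (.g (nat_lit 0) (.e (nat_lit 262111) (nat_lit 0) .nil) .nil)))) (.nd (nat_lit 9) 
(.lf (nat_lit 536856) (.g (nat_lit 2899) (.e (nat_lit 65571) (nat_lit 3) (.e (nat_lit 98342) (nat_lit 20) (.e (nat_lit 221214) (nat_lit 23) (.e (nat_lit 204830) (nat_lit 18) (.e (nat_lit 57929) (nat_lit 282) (.e (nat_lit 163869) (nat_lit 2) (.e (nat_lit 196663) (nat_lit 13) .nil))))))) (.g (nat_lit 1) (.e (nat_lit 261631) (nat_lit 0) .nil) .nil))) 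
(.lf (nat_lit 537368) (.g (nat_lit 2381) (.e (nat_lit 65610) (nat_lit 10) (.e (nat_lit 344129) (nat_lit 26) (.e (nat_lit 557088) (nat_lit 12) (.e (nat_lit 164018) (nat_lit 45) (.e (nat_lit 696329) (nat_lit 5) (.e (nat_lit 2884) (nat_lit 184) (.e (nat_lit 426125) (nat_lit 2) (.e (nat_lit 196666) (nat_lit 13) .nil)))))))) (.g (nat_lit 1) (.e (nat_lit 262564) (nat_lit 0) .nil) .nil))))) 
(.nd (nat_lit 8) (.nd (nat_lit 9) 
(.lf (nat_lit 536728) (.g (nat_lit 1268) (.e (nat_lit 65568) (nat_lit 2) (.e (nat_lit 90160) (nat_lit 11) (.e (nat_lit 24671) (nat_lit 15) .nil))) (.g (nat_lit 0) (.e (nat_lit 261338) (nat_lit 0) .nil) .nil))) 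
(.lf (nat_lit 537240) (.g (nat_lit 1201) (.e (nat_lit 65604) (nat_lit 9) (.e (nat_lit 336028) (nat_lit 3) (.e (nat_lit 98388) (nat_lit 33) (.e (nat_lit 491566) (nat_lit 12) .nil)))) (.g (nat_lit 0) (.e (nat_lit 262272) (nat_lit 0) .nil) .nil)))) (.nd (nat_lit 9) 
(.lf (nat_lit 536984) (.g (nat_lit 700) (.e (nat_lit 65584) (nat_lit 7) (.e (nat_lit 319526) (nat_lit 15) (.e (nat_lit 278547) (nat_lit 8) (.e (nat_lit 303137) (nat_lit 10) (.e (nat_lit 434266) (nat_lit 35) (.e (nat_lit 630821) (nat_lit 16) .nil)))))) (.g (nat_lit 1) (.e (nat_lit 261840) (nat_lit 0) .nil) .nil))) 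
(.lf (nat_lit 537496) (.g (nat_lit 3503) (.e (nat_lit 65617) (nat_lit 10) (.e (nat_lit 344130) (nat_lit 26) (.e (nat_lit 557087) (nat_lit 11) (.e (nat_lit 24584) (nat_lit 0) (.e (nat_lit 6677) (nat_lit 357) (.e (nat_lit 2664) (nat_lit 167) (.e (nat_lit 196666) (nat_lit 13) .nil))))))) (.g (nat_lit 1) (.e (nat_lit 262741) (nat_lit 0) .nil) .nil)))))) 
(.nd (nat_lit 7) (.nd (nat_lit 8) (.nd (nat_lit 9) 
(.lf (nat_lit 536664) (.g (nat_lit 3532) (.e (nat_lit 57931) (nat_lit 282) (.e (nat_lit 163943) (nat_lit 19) (.e (nat_lit 483372) (nat_lit 21) (.e (nat_lit 319504) (nat_lit 10) (.e (nat_lit 618) (nat_lit 48) (.e (nat_lit 557093) (nat_lit 12) (.e (nat_lit 164239) (nat_lit 187) (.e (nat_lit 1179) (nat_lit 87) .nil)))))))) (.g (nat_lit 1) (.e (nat_lit 260914) (nat_lit 0) .nil) .nil))) 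
(.lf (nat_lit 537176) (.g (nat_lit 2610) (.e (nat_lit 65604) (nat_lit 9) (.e (nat_lit 336013) (nat_lit 2) (.e (nat_lit 90170) (nat_lit 13) (.e (nat_lit 172048) (nat_lit 0) .nil)))) (.g (nat_lit 0) (.e (nat_lit 262193) (nat_lit 0) .nil) .nil)))) (.nd (nat_lit 9) 
(.lf (nat_lit 536920) (.g (nat_lit 509) (.e (nat_lit 65578) (nat_lit 6) (.e (nat_lit 147495) (nat_lit 11) (.e (nat_lit 24657) (nat_lit 13) .nil))) (.g (nat_lit 0) (.e (nat_lit 261737) (nat_lit 0) .nil) .nil))) 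
(.lf (nat_lit 537432) (.g (nat_lit 3414) (.e (nat_lit 65617) (nat_lit 10) (.e (nat_lit 344117) (nat_lit 21) (.e (nat_lit 516139) (nat_lit 7) (.e (nat_lit 409617) (nat_lit 10) (.e (nat_lit 7936) (nat_lit 312) (.e (nat_lit 2668) (nat_lit 167) (.e (nat_lit 196666) (nat_lit 13) .nil))))))) (.g (nat_lit 1) (.e (nat_lit 262668) (nat_lit 0) .nil) .nil))))) (.nd (nat_lit 8) (.nd (nat_lit 9) 
(.lf (nat_lit 536792) (.g (nat_lit 1748) (.e (nat_lit 65569) (nat_lit 3) (.e (nat_lit 98350) (nat_lit 24) (.e (nat_lit 409641) (nat_lit 17) (.e (nat_lit 294928) (nat_lit 2) .nil)))) (.g (nat_lit 0) (.e (nat_lit 261520) (nat_lit 0) .nil) .nil))) 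
(.lf (nat_lit 537304) (.g (nat_lit 3618) (.e (nat_lit 65610) (nat_lit 10) (.e (nat_lit 344117) (nat_lit 21) (.e (nat_lit 516139) (nat_lit 7) (.e (nat_lit 409644) (nat_lit 18) (.e (nat_lit 303116) (nat_lit 2) (.e (nat_lit 196666) (nat_lit 13) .nil)))))) (.g (nat_lit 1) (.e (nat_lit 262392) (nat_lit 0) .nil) .nil)))) (.nd (nat_lit 9) 
(.lf (nat_lit 537048) (.g (nat_lit 2711) (.e (nat_lit 65589) (nat_lit 9) (.e (nat_lit 336324) (nat_lit 18) (.e (nat_lit 204835) (nat_lit 19) (.e (nat_lit 106536) (nat_lit 11) .nil)))) (.g (nat_lit 0) (.e (nat_lit 261935) (nat_lit 0) .nil) .nil))) 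
(.lf (nat_lit 537560) (.g (nat_lit 869) (.e (nat_lit 65618) (nat_lit 10) (.e (nat_lit 344117) (nat_lit 21) (.e (nat_lit 516151) (nat_lit 9) .nil))) (.g (nat_lit 0) (.e (nat_lit 262821) (nat_lit 0) .nil) .nil))))))) (.nd (nat_lit 6) (.nd (nat_lit 7) (.nd (nat_lit 8) (.nd (nat_lit 9) 
(.lf (nat_lit 536632) (.g (nat_lit 1743) (.e (nat_lit 57931) (nat_lit 282) (.e (nat_lit 163923) (nat_lit 15) (.e (nat_lit 450587) (nat_lit 10) (.e (nat_lit 573475) (nat_lit 12) .nil)))) (.g (nat_lit 0) (.e (nat_lit 260843) (nat_lit 0) .nil) .nil))) 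
(.lf (nat_lit 537144) (.g (nat_lit 2152) (.e (nat_lit 65604) (nat_lit 9) (.e (nat_lit 336013) (nat_lit 2) (.e (nat_lit 90135) (nat_lit 9) .nil))) (.g (nat_lit 0) (.e (nat_lit 262161) (nat_lit 0) .nil) .nil)))) (.nd (nat_lit 9) 
(.lf (nat_lit 536888) (.g (nat_lit 4078) (.e (nat_lit 65571) (nat_lit 3) (.e (nat_lit 98359) (nat_lit 26) (.e (nat_lit 426286) (nat_lit 10) (.e (nat_lit 434247) (nat_lit 28) (.e (nat_lit 573475) (nat_lit 12) (.e (nat_lit 57572) (nat_lit 54) (.e (nat_lit 770071) (nat_lit 8) .nil))))))) (.g (nat_lit 1) (.e (nat_lit 261663) (nat_lit 0) .nil) .nil))) 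
(.lf (nat_lit 537400) (.g (nat_lit 2748) (.e (nat_lit 65613) (nat_lit 10) (.e (nat_lit 344119) (nat_lit 21) (.e (nat_lit 516182) (nat_lit 15) (.e (nat_lit 475198) (nat_lit 40) (.e (nat_lit 704589) (nat_lit 3) (.e (nat_lit 163975) (nat_lit 30) (.e (nat_lit 573481) (nat_lit 13) .nil))))))) (.g (nat_lit 1) (.e (nat_lit 262609) (nat_lit 0) .nil) .nil))))) (.nd (nat_lit 8) (.nd (nat_lit 9) 
(.lf (nat_lit 536760) (.g (nat_lit 885) (.e (nat_lit 65569) (nat_lit 3) (.e (nat_lit 98333) (nat_lit 18) (.e (nat_lit 164179) (nat_lit 154) .nil))) (.g (nat_lit 0) (.e (nat_lit 261390) (nat_lit 0) .nil) .nil))) 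
(.lf (nat_lit 537272) (.g (nat_lit 1989) (.e (nat_lit 65609) (nat_lit 10) (.e (nat_lit 344117) (nat_lit 21) (.e (nat_lit 516179) (nat_lit 15) (.e (nat_lit 475199) (nat_lit 40) .nil)))) (.g (nat_lit 0) (.e (nat_lit 262332) (nat_lit 0) .nil) .nil)))) (.nd (nat_lit 9) 
(.lf (nat_lit 537016) (.g (nat_lit 2696) (.e (nat_lit 65586) (nat_lit 7) (.e (nat_lit 319531) (nat_lit 16) (.e (nat_lit 286759) (nat_lit 12) (.e (nat_lit 385094) (nat_lit 49) (.e (nat_lit 778342) (nat_lit 9) (.e (nat_lit 2440) (nat_lit 157) (.e (nat_lit 3610) (nat_lit 226) (.e (nat_lit 770071) (nat_lit 8) .nil)))))))) (.g (nat_lit 1) (.e (nat_lit 261887) (nat_lit 0) .nil) .nil))) 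
(.lf (nat_lit 537528) (.g (nat_lit 1056) (.e (nat_lit 65617) (nat_lit 10) (.e (nat_lit 344133) (nat_lit 26) (.e (nat_lit 557074) (nat_lit 9) .nil))) (.g (nat_lit 0) (.e (nat_lit 262783) (nat_lit 0) .nil) .nil)))))) (.nd (nat_lit 7) (.nd (nat_lit 8) (.nd (nat_lit 9) 
(.lf (nat_lit 536696) (.g (nat_lit 1918) (.e (nat_lit 65540) (nat_lit 0) (.e (nat_lit 6681) (nat_lit 357) (.e (nat_lit 3090) (nat_lit 191) (.e (nat_lit 483395) (nat_lit 24) (.e (nat_lit 344168) (nat_lit 40) (.e (nat_lit 671760) (nat_lit 4) .nil)))))) (.g (nat_lit 1) (.e (nat_lit 261135) (nat_lit 0) .nil) .nil))) 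
(.lf (nat_lit 537208) (.g (nat_lit 1663) (.e (nat_lit 65604) (nat_lit 9) (.e (nat_lit 336028) (nat_lit 3) (.e (nat_lit 98364) (nat_lit 26) (.e (nat_lit 426107) (nat_lit 1) (.e (nat_lit 164347) (nat_lit 240) .nil))))) (.g (nat_lit 0) (.e (nat_lit 262233) (nat_lit 0) .nil) .nil)))) (.nd (nat_lit 9) 
(.lf (nat_lit 536952) (.g (nat_lit 1990) (.e (nat_lit 65582) (nat_lit 7) (.e (nat_lit 319534) (nat_lit 16) (.e (nat_lit 286756) (nat_lit 10) (.e (nat_lit 344088) (nat_lit 18) .nil)))) (.g (nat_lit 0) (.e (nat_lit 261791) (nat_lit 0) .nil) .nil))) 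
(.lf (nat_lit 537464) (.g (nat_lit 2768) (.e (nat_lit 65617) (nat_lit 10) (.e (nat_lit 344127) (nat_lit 26) (.e (nat_lit 557090) (nat_lit 12) (.e (nat_lit 163844) (nat_lit 0) (.e (nat_lit 6252) (nat_lit 337) .nil))))) (.g (nat_lit 0) (.e (nat_lit 262704) (nat_lit 0) .nil) .nil))))) (.nd (nat_lit 8) (.nd (nat_lit 9) 
(.lf (nat_lit 536824) (.g (nat_lit 3063) (.e (nat_lit 65571) (nat_lit 3) (.e (nat_lit 98341) (nat_lit 20) (.e (nat_lit 221214) (nat_lit 23) (.e (nat_lit 204830) (nat_lit 18) (.e (nat_lit 57927) (nat_lit 282) (.e (nat_lit 163869) (nat_lit 2) (.e (nat_lit 196664) (nat_lit 13) .nil))))))) (.g (nat_lit 1) (.e (nat_lit 261596) (nat_lit 0) .nil) .nil))) 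
(.lf (nat_lit 537336) (.g (nat_lit 1520) (.e (nat_lit 65610) (nat_lit 10) (.e (nat_lit 344117) (nat_lit 21) (.e (nat_lit 516179) (nat_lit 15) (.e (nat_lit 475220) (nat_lit 44) .nil)))) (.g (nat_lit 0) (.e (nat_lit 262450) (nat_lit 0) .nil) .nil)))) (.nd (nat_lit 9) 
(.lf (nat_lit 537080) (.g (nat_lit 1282) (.e (nat_lit 65598) (nat_lit 9) (.e (nat_lit 336013) (nat_lit 2) (.e (nat_lit 90131) (nat_lit 9) .nil))) (.g (nat_lit 0) (.e (nat_lit 262061) (nat_lit 0) .nil) .nil))) 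
(.lf (nat_lit 537592) (.g (nat_lit 5022) (.e (nat_lit 65619) (nat_lit 10) (.e (nat_lit 344117) (nat_lit 21) (.e (nat_lit 516138) (nat_lit 7) (.e (nat_lit 409646) (nat_lit 18) (.e (nat_lit 303117) (nat_lit 2) (.e (nat_lit 196666) (nat_lit 13) .nil)))))) (.g (nat_lit 1) (.e (nat_lit 262872) (nat_lit 0) .nil) .nil)))))))))) 
(.nd (nat_lit 3) (.nd (nat_lit 4) (.nd (nat_lit 5) (.nd (nat_lit 6) (.nd (nat_lit 7) 
(.nd (nat_lit 8) (.nd (nat_lit 9) 
(.lf (nat_lit 536580) (.g (nat_lit 885) (.e (nat_lit 57931) (nat_lit 282) (.e (nat_lit 163874) (nat_lit 3) (.e (nat_lit 204862) (nat_lit 27) .nil))) (.g (nat_lit 0) (.e (nat_lit 260707) (nat_lit 0) .nil) .nil))) 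
(.lf (nat_lit 537092) (.g (nat_lit 4555) (.e (nat_lit 65598) (nat_lit 9) (.e (nat_lit 336013) (nat_lit 2) (.e (nat_lit 90169) (nat_lit 13) (.e (nat_lit 172133) (nat_lit 15) (.e (nat_lit 2059) (nat_lit 142) (.e (nat_lit 704589) (nat_lit 3) (.e (nat_lit 163976) (nat_lit 30) (.e (nat_lit 573481) (nat_lit 13) .nil)))))))) (.g (nat_lit 1) (.e (nat_lit 262076) (nat_lit 0) .nil) .nil)))) 
(.nd (nat_lit 9) 
(.lf (nat_lit 536836) (.g (nat_lit 3134) (.e (nat_lit 65571) (nat_lit 3) (.e (nat_lit 98341) (nat_lit 20) (.e (nat_lit 221215) (nat_lit 23) (.e (nat_lit 204831) (nat_lit 18) (.e (nat_lit 57931) (nat_lit 282) (.e (nat_lit 163869) (nat_lit 2) (.e (nat_lit 196663) (nat_lit 13) .nil))))))) (.g (nat_lit 1) (.e (nat_lit 261608) (nat_lit 0) .nil) .nil))) 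
(.lf (nat_lit 537348) (.g (nat_lit 2765) (.e (nat_lit 65610) (nat_lit 10) (.e (nat_lit 344129) (nat_lit 26) (.e (nat_lit 557065) (nat_lit 9) (.e (nat_lit 2612) (nat_lit 163) (.e (nat_lit 164189) (nat_lit 157) (.e (nat_lit 229399) (nat_lit 12) (.e (nat_lit 426125) (nat_lit 2) (.e (nat_lit 196666) (nat_lit 13) .nil)))))))) (.g (nat_lit 1) (.e (nat_lit 262475) (nat_lit 0) .nil) .nil))))) 
(.nd (nat_lit 8) (.nd (nat_lit 9) 
(.lf (nat_lit 536708) (.g (nat_lit 2435) (.e (nat_lit 65563) (nat_lit 1) (.e (nat_lit 57926) (nat_lit 282) (.e (nat_lit 163943) (nat_lit 19) (.e (nat_lit 483345) (nat_lit 17) (.e (nat_lit 6712) (nat_lit 360) .nil))))) (.g (nat_lit 0) (.e (nat_lit 261194) (nat_lit 0) .nil) .nil))) 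
(.lf (nat_lit 537220) (.g (nat_lit 2226) (.e (nat_lit 65604) (nat_lit 9) (.e (nat_lit 336028) (nat_lit 3) (.e (nat_lit 98367) (nat_lit 27) (.e (nat_lit 434208) (nat_lit 18) (.e (nat_lit 4754) (nat_lit 281) .nil))))) (.g (nat_lit 0) (.e (nat_lit 262246) (nat_lit 0) .nil) .nil)))) (.nd (nat_lit 9) 
(.lf (nat_lit 536964) (.g (nat_lit 1334) (.e (nat_lit 65583) (nat_lit 7) (.e (nat_lit 319530) (nat_lit 16) (.e (nat_lit 286727) (nat_lit 0) (.e (nat_lit 6646) (nat_lit 357) .nil)))) (.g (nat_lit 0) (.e (nat_lit 261814) (nat_lit 0) .nil) .nil))) 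
(.lf (nat_lit 537476) (.g (nat_lit 1728) (.e (nat_lit 65617) (nat_lit 10) (.e (nat_lit 344127) (nat_lit 26) (.e (nat_lit 557090) (nat_lit 12) (.e (nat_lit 164020) (nat_lit 45) .nil)))) (.g (nat_lit 0) (.e (nat_lit 262717) (nat_lit 0) .nil) .nil)))))) (.nd (nat_lit 7) (.nd (nat_lit 8) (.nd (nat_lit 9) 
(.lf (nat_lit 536644) (.g (nat_lit 1402) (.e (nat_lit 57931) (nat_lit 282) (.e (nat_lit 163943) (nat_lit 19) (.e (nat_lit 483343) (nat_lit 17) (.e (nat_lit 6712) (nat_lit 360) .nil)))) (.g (nat_lit 0) (.e (nat_lit 260882) (nat_lit 0) .nil) .nil))) 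
(.lf (nat_lit 537156) (.g (nat_lit 3402) (.e (nat_lit 65604) (nat_lit 9) (.e (nat_lit 336013) (nat_lit 2) (.e (nat_lit 90165) (nat_lit 12) (.e (nat_lit 164218) (nat_lit 179) (.e (nat_lit 164337) (nat_lit 232) (.e (nat_lit 77) (nat_lit 0) (.e (nat_lit 3308) (nat_lit 202) (.e (nat_lit 573482) (nat_lit 13) .nil)))))))) (.g (nat_lit 1) (.e (nat_lit 262173) (nat_lit 0) .nil) .nil)))) (.nd (nat_lit 9) 
(.lf (nat_lit 536900) (.g (nat_lit 2490) (.e (nat_lit 65574) (nat_lit 4) (.e (nat_lit 123195) (nat_lit 266) (.e (nat_lit 57346) (nat_lit 0) (.e (nat_lit 6203) (nat_lit 332) (.e (nat_lit 2798) (nat_lit 180) (.e (nat_lit 303133) (nat_lit 9) (.e (nat_lit 426412) (nat_lit 15) (.e (nat_lit 7936) (nat_lit 347) .nil)))))))) (.g (nat_lit 1) (.e (nat_lit 261695) (nat_lit 0) .nil) .nil))) 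
(.lf (nat_lit 537412) (.g (nat_lit 1399) (.e (nat_lit 65616) (nat_lit 10) (.e (nat_lit 344133) (nat_lit 26) (.e (nat_lit 557068) (nat_lit 9) (.e (nat_lit 290) (nat_lit 21) .nil)))) (.g (nat_lit 0) (.e (nat_lit 262637) (nat_lit 0) .nil) .nil))))) (.nd (nat_lit 8) (.nd (nat_lit 9) 
(.lf (nat_lit 536772) (.g (nat_lit 3697) (.e (nat_lit 65569) (nat_lit 3) (.e (nat_lit 98341) (nat_lit 20) (.e (nat_lit 221215) (nat_lit 23) (.e (nat_lit 204830) (nat_lit 18) (.e (nat_lit 57931) (nat_lit 282) (.e (nat_lit 163869) (nat_lit 2) (.e (nat_lit 196666) (nat_lit 13) .nil))))))) (.g (nat_lit 1) (.e (nat_lit 261496) (nat_lit 0) .nil) .nil))) 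
(.lf (nat_lit 537284) (.g (nat_lit 3506) (.e (nat_lit 65610) (nat_lit 10) (.e (nat_lit 344117) (nat_lit 21) (.e (nat_lit 516097) (nat_lit 0) (.e (nat_lit 2409) (nat_lit 157) (.e (nat_lit 4506) (nat_lit 263) (.e (nat_lit 2629) (nat_lit 164) (.e (nat_lit 172064) (nat_lit 2) (.e (nat_lit 196666) (nat_lit 13) .nil)))))))) (.g (nat_lit 1) (.e (nat_lit 262368) (nat_lit 0) .nil) .nil)))) 
(.nd (nat_lit 9) 
(.lf (nat_lit 537028) (.g (nat_lit 4172) (.e (nat_lit 65586) (nat_lit 7) (.e (nat_lit 319531) (nat_lit 16) (.e (nat_lit 286762) (nat_lit 14) (.e (nat_lit 401446) (nat_lit 10) (.e (nat_lit 434268) (nat_lit 36) (.e (nat_lit 639020) (nat_lit 16) .nil)))))) (.g (nat_lit 1) (.e (nat_lit 261899) (nat_lit 0) .nil) .nil))) 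
(.lf (nat_lit 537540) (.g (nat_lit 3994) (.e (nat_lit 65617) (nat_lit 10) (.e (nat_lit 344133) (nat_lit 26) (.e (nat_lit 557087) (nat_lit 11) (.e (nat_lit 24625) (nat_lit 9) (.e (nat_lit 336303) (nat_lit 15) (.e (nat_lit 3304) (nat_lit 202) (.e (nat_lit 573484) (nat_lit 13) .nil))))))) (.g (nat_lit 1) (.e (nat_lit 262795) (nat_lit 0) .nil) .nil))))))) 
(.nd (nat_lit 6) (.nd (nat_lit 7) (.nd (nat_lit 8) (.nd (nat_lit 9) 
(.lf (nat_lit 536612) (.g (nat_lit 2001) (.e (nat_lit 57931) (nat_lit 282) (.e (nat_lit 163902) (nat_lit 12) (.e (nat_lit 426553) (nat_lit 32) (.e (nat_lit 376865) (nat_lit 22) (.e (nat_lit 90160) (nat_lit 11) (.e (nat_lit 24599) (nat_lit 1) .nil)))))) (.g (nat_lit 1) (.e (nat_lit 260810) (nat_lit 0) .nil) .nil))) 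
(.lf (nat_lit 537124) (.g (nat_lit 429) (.e (nat_lit 65604) (nat_lit 9) (.e (nat_lit 335997) (nat_lit 1) (.e (nat_lit 57834) (nat_lit 250) .nil))) (.g (nat_lit 0) (.e (nat_lit 262140) (nat_lit 0) .nil) .nil)))) (.nd (nat_lit 9) 
(.lf (nat_lit 536868) (.g (nat_lit 4231) (.e (nat_lit 65571) (nat_lit 3) (.e (nat_lit 98342) (nat_lit 20) (.e (nat_lit 221215) (nat_lit 23) (.e (nat_lit 204830) (nat_lit 18) (.e (nat_lit 57926) (nat_lit 282) (.e (nat_lit 163868) (nat_lit 2) (.e (nat_lit 196663) (nat_lit 13) .nil))))))) (.g (nat_lit 1) (.e (nat_lit 261643) (nat_lit 0) .nil) .nil))) 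
(.lf (nat_lit 537380) (.g (nat_lit 2130) (.e (nat_lit 65610) (nat_lit 10) (.e (nat_lit 344129) (nat_lit 26) (.e (nat_lit 557090) (nat_lit 12) (.e (nat_lit 163843) (nat_lit 0) (.e (nat_lit 6255) (nat_lit 337) .nil))))) (.g (nat_lit 0) (.e (nat_lit 262577) (nat_lit 0) .nil) .nil))))) (.nd (nat_lit 8) (.nd (nat_lit 9) 
(.lf (nat_lit 536740) (.g (nat_lit 2764) (.e (nat_lit 65568) (nat_lit 2) (.e (nat_lit 90170) (nat_lit 13) (.e (nat_lit 172106) (nat_lit 10) (.e (nat_lit 434231) (nat_lit 23) (.e (nat_lit 532577) (nat_lit 17) (.e (nat_lit 3452) (nat_lit 216) (.e (nat_lit 688177) (nat_lit 16) .nil))))))) (.g (nat_lit 1) (.e (nat_lit 261353) (nat_lit 0) .nil) .nil))) 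
(.lf (nat_lit 537252) (.g (nat_lit 3746) (.e (nat_lit 65606) (nat_lit 9) (.e (nat_lit 336027) (nat_lit 3) (.e (nat_lit 98384) (nat_lit 32) (.e (nat_lit 475199) (nat_lit 40) (.e (nat_lit 704589) (nat_lit 3) .nil))))) (.g (nat_lit 0) (.e (nat_lit 262299) (nat_lit 0) .nil) .nil)))) (.nd (nat_lit 9) 
(.lf (nat_lit 536996) (.g (nat_lit 2075) (.e (nat_lit 65586) (nat_lit 7) (.e (nat_lit 319531) (nat_lit 16) (.e (nat_lit 286727) (nat_lit 0) (.e (nat_lit 6680) (nat_lit 357) (.e (nat_lit 2959) (nat_lit 185) (.e (nat_lit 434266) (nat_lit 35) (.e (nat_lit 630821) (nat_lit 16) .nil))))))) (.g (nat_lit 1) (.e (nat_lit 261867) (nat_lit 0) .nil) .nil))) 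
(.lf (nat_lit 537508) (.g (nat_lit 4447) (.e (nat_lit 65617) (nat_lit 10) (.e (nat_lit 344130) (nat_lit 26) (.e (nat_lit 557087) (nat_lit 11) (.e (nat_lit 24634) (nat_lit 9) (.e (nat_lit 336295) (nat_lit 15) (.e (nat_lit 3305) (nat_lit 202) (.e (nat_lit 573484) (nat_lit 13) .nil))))))) (.g (nat_lit 1) (.e (nat_lit 262755) (nat_lit 0) .nil) .nil)))))) 
(.nd (nat_lit 7) (.nd (nat_lit 8) (.nd (nat_lit 9) 
(.lf (nat_lit 536676) (.g (nat_lit 2269) (.e (nat_lit 57931) (nat_lit 282) (.e (nat_lit 163943) (nat_lit 19) (.e (nat_lit 483410) (nat_lit 27) (.e (nat_lit 401414) (nat_lit 0) .nil)))) (.g (nat_lit 0) (.e (nat_lit 260959) (nat_lit 0) .nil) .nil))) 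
(.lf (nat_lit 537188) (.g (nat_lit 4267) (.e (nat_lit 65604) (nat_lit 9) (.e (nat_lit 336013) (nat_lit 2) (.e (nat_lit 90170) (nat_lit 13) (.e (nat_lit 172068) (nat_lit 4) (.e (nat_lit 229663) (nat_lit 240) (.e (nat_lit 2602) (nat_lit 163) (.e (nat_lit 163979) (nat_lit 30) (.e (nat_lit 573482) (nat_lit 13) .nil)))))))) (.g (nat_lit 1) (.e (nat_lit 262205) (nat_lit 0) .nil) .nil)))) 
(.nd (nat_lit 9) 
(.lf (nat_lit 536932) (.g (nat_lit 1239) (.e (nat_lit 65580) (nat_lit 6) (.e (nat_lit 147492) (nat_lit 11) (.e (nat_lit 24657) (nat_lit 13) (.e (nat_lit 393242) (nat_lit 17) (.e (nat_lit 7936) (nat_lit 406) .nil))))) (.g (nat_lit 1) (.e (nat_lit 261757) (nat_lit 0) .nil) .nil))) 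
(.lf (nat_lit 537444) (.g (nat_lit 1888) (.e (nat_lit 65617) (nat_lit 10) (.e (nat_lit 344117) (nat_lit 21) (.e (nat_lit 516179) (nat_lit 15) (.e (nat_lit 475199) (nat_lit 40) .nil)))) (.g (nat_lit 0) (.e (nat_lit 262680) (nat_lit 0) .nil) .nil))))) (.nd (nat_lit 8) (.nd (nat_lit 9) 
(.lf (nat_lit 536804) (.g (nat_lit 977) (.e (nat_lit 65570) (nat_lit 3) (.e (nat_lit 98333) (nat_lit 18) (.e (nat_lit 164183) (nat_lit 154) .nil))) (.g (nat_lit 0) (.e (nat_lit 261548) (nat_lit 0) .nil) .nil))) 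
(.lf (nat_lit 537316) (.g (nat_lit 2579) (.e (nat_lit 65610) (nat_lit 10) (.e (nat_lit 344117) (nat_lit 21) (.e (nat_lit 516151) (nat_lit 9) (.e (nat_lit 426045) (nat_lit 0) .nil)))) (.g (nat_lit 0) (.e (nat_lit 262407) (nat_lit 0) .nil) .nil)))) (.nd (nat_lit 9) 
(.lf (nat_lit 537060) (.g (nat_lit 2964) (.e (nat_lit 65595) (nat_lit 9) (.e (nat_lit 336013) (nat_lit 2) (.e (nat_lit 90170) (nat_lit 13) (.e (nat_lit 172049) (nat_lit 0) .nil)))) (.g (nat_lit 0) (.e (nat_lit 262013) (nat_lit 0) .nil) .nil))) 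
(.lf (nat_lit 537572) (.g (nat_lit 3536) (.e (nat_lit 65619) (nat_lit 10) (.e (nat_lit 344090) (nat_lit 18) (.e (nat_lit 7710) (nat_lit 414) (.e (nat_lit 163922) (nat_lit 15) (.e (nat_lit 450584) (nat_lit 9) (.e (nat_lit 565267) (nat_lit 4) .nil)))))) (.g (nat_lit 1) (.e (nat_lit 262839) (nat_lit 0) .nil) .nil)))))))) 
(.nd (nat_lit 5) (.nd (nat_lit 6) (.nd (nat_lit 7) (.nd (nat_lit 8) (.nd (nat_lit 9) 
(.lf (nat_lit 536596) (.g (nat_lit 385) (.e (nat_lit 57931) (nat_lit 282) (.e (nat_lit 163874) (nat_lit 3) (.e (nat_lit 204877) (nat_lit 31) .nil))) (.g (nat_lit 0) (.e (nat_lit 260732) (nat_lit 0) .nil) .nil))) 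
(.lf (nat_lit 537108) (.g (nat_lit 532) (.e (nat_lit 65599) (nat_lit 9) (.e (nat_lit 335997) (nat_lit 1) (.e (nat_lit 57857) (nat_lit 254) .nil))) (.g (nat_lit 0) (.e (nat_lit 262095) (nat_lit 0) .nil) .nil)))) (.nd (nat_lit 9) 
(.lf (nat_lit 536852) (.g (nat_lit 2592) (.e (nat_lit 65571) (nat_lit 3) (.e (nat_lit 98342) (nat_lit 20) (.e (nat_lit 221214) (nat_lit 23) (.e (nat_lit 204830) (nat_lit 18) (.e (nat_lit 57926) (nat_lit 282) (.e (nat_lit 163869) (nat_lit 2) (.e (nat_lit 196664) (nat_lit 13) .nil))))))) (.g (nat_lit 1) (.e (nat_lit 261627) (nat_lit 0) .nil) .nil))) 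
(.lf (nat_lit 537364) (.g (nat_lit 3530) (.e (nat_lit 65610) (nat_lit 10) (.e (nat_lit 344129) (nat_lit 26) (.e (nat_lit 557087) (nat_lit 11) (.e (nat_lit 24625) (nat_lit 9) (.e (nat_lit 343808) (nat_lit 15) (.e (nat_lit 3307) (nat_lit 202) (.e (nat_lit 573484) (nat_lit 13) .nil))))))) (.g (nat_lit 1) (.e (nat_lit 262560) (nat_lit 0) .nil) .nil))))) (.nd (nat_lit 8) (.nd (nat_lit 9) 
(.lf (nat_lit 536724) (.g (nat_lit 2265) (.e (nat_lit 65566) (nat_lit 2) (.e (nat_lit 90170) (nat_lit 13) (.e (nat_lit 172113) (nat_lit 10) (.e (nat_lit 434248) (nat_lit 28) (.e (nat_lit 573476) (nat_lit 12) .nil))))) (.g (nat_lit 0) (.e (nat_lit 261303) (nat_lit 0) .nil) .nil))) 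
(.lf (nat_lit 537236) (.g (nat_lit 4076) (.e (nat_lit 65604) (nat_lit 9) (.e (nat_lit 336028) (nat_lit 3) (.e (nat_lit 98384) (nat_lit 32) (.e (nat_lit 475198) (nat_lit 40) (.e (nat_lit 704590) (nat_lit 3) (.e (nat_lit 163975) (nat_lit 30) (.e (nat_lit 573481) (nat_lit 13) .nil))))))) (.g (nat_lit 1) (.e (nat_lit 262268) (nat_lit 0) .nil) .nil)))) (.nd (nat_lit 9) 
(.lf (nat_lit 536980) (.g (nat_lit 2053) (.e (nat_lit 65583) (nat_lit 7) (.e (nat_lit 319534) (nat_lit 16) (.e (nat_lit 286756) (nat_lit 10) (.e (nat_lit 344088) (nat_lit 18) .nil)))) (.g (nat_lit 0) (.e (nat_lit 261830) (nat_lit 0) .nil) .nil))) 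
(.lf (nat_lit 537492) (.g (nat_lit 2845) (.e (nat_lit 65617) (nat_lit 10) (.e (nat_lit 344129) (nat_lit 26) (.e (nat_lit 557090) (nat_lit 12) (.e (nat_lit 164020) (nat_lit 45) .nil)))) (.g (nat_lit 0) (.e (nat_lit 262734) (nat_lit 0) .nil) .nil)))))) (.nd (nat_lit 7) (.nd (nat_lit 8) (.nd (nat_lit 9) 
(.lf (nat_lit 536660) (.g (nat_lit 1141) (.e (nat_lit 57931) (nat_lit 282) (.e (nat_lit 163943) (nat_lit 19) (.e (nat_lit 483363) (nat_lit 18) .nil))) (.g (nat_lit 0) (.e (nat_lit 260909) (nat_lit 0) .nil) .nil))) 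
(.lf (nat_lit 537172) (.g (nat_lit 4215) (.e (nat_lit 65604) (nat_lit 9) (.e (nat_lit 336013) (nat_lit 2) (.e (nat_lit 90170) (nat_lit 13) (.e (nat_lit 172042) (nat_lit 0) (.e (nat_lit 3408) (nat_lit 212) (.e (nat_lit 655373) (nat_lit 3) (.e (nat_lit 163979) (nat_lit 30) (.e (nat_lit 573482) (nat_lit 13) .nil)))))))) (.g (nat_lit 1) (.e (nat_lit 262189) (nat_lit 0) .nil) .nil)))) (.nd (nat_lit 9) 
(.lf (nat_lit 536916) (.g (nat_lit 554) (.e (nat_lit 65578) (nat_lit 6) (.e (nat_lit 147495) (nat_lit 11) (.e (nat_lit 24629) (nat_lit 9) .nil))) (.g (nat_lit 0) (.e (nat_lit 261730) (nat_lit 0) .nil) .nil))) 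
(.lf (nat_lit 537428) (.g (nat_lit 1900) (.e (nat_lit 65617) (nat_lit 10) (.e (nat_lit 344117) (nat_lit 21) (.e (nat_lit 516097) (nat_lit 0) (.e (nat_lit 7073) (nat_lit 377) .nil)))) (.g (nat_lit 0) (.e (nat_lit 262664) (nat_lit 0) .nil) .nil))))) (.nd (nat_lit 8) (.nd (nat_lit 9) 
(.lf (nat_lit 536788) (.g (nat_lit 2311) (.e (nat_lit 65569) (nat_lit 3) (.e (nat_lit 98342) (nat_lit 20) (.e (nat_lit 221215) (nat_lit 23) (.e (nat_lit 204830) (nat_lit 18) (.e (nat_lit 57931) (nat_lit 282) (.e (nat_lit 163867) (nat_lit 2) (.e (nat_lit 196663) (nat_lit 13) .nil))))))) (.g (nat_lit 1) (.e (nat_lit 261516) (nat_lit 0) .nil) .nil))) 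
(.lf (nat_lit 537300) (.g (nat_lit 1519) (.e (nat_lit 65610) (nat_lit 10) (.e (nat_lit 344117) (nat_lit 21) (.e (nat_lit 516116) (nat_lit 1) (.e (nat_lit 171776) (nat_lit 278) .nil)))) (.g (nat_lit 0) (.e (nat_lit 262388) (nat_lit 0) .nil) .nil)))) (.nd (nat_lit 9) 
(.lf (nat_lit 537044) (.g (nat_lit 3376) (.e (nat_lit 65589) (nat_lit 9) (.e (nat_lit 336013) (nat_lit 2) (.e (nat_lit 90170) (nat_lit 13) (.e (nat_lit 172138) (nat_lit 15) .nil)))) (.g (nat_lit 0) (.e (nat_lit 261923) (nat_lit 0) .nil) .nil))) 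
(.lf (nat_lit 537556) (.g (nat_lit 679) (.e (nat_lit 65617) (nat_lit 10) (.e (nat_lit 344175) (nat_lit 43) (.e (nat_lit 770074) (nat_lit 10) (.e (nat_lit 81939) (nat_lit 20) .nil)))) (.g (nat_lit 0) (.e (nat_lit 262814) (nat_lit 0) .nil) .nil))))))) (.nd (nat_lit 6) (.nd (nat_lit 7) (.nd (nat_lit 8) (.nd (nat_lit 9) 
(.lf (nat_lit 536628) (.g (nat_lit 3305) (.e (nat_lit 57931) (nat_lit 282) (.e (nat_lit 163905) (nat_lit 12) (.e (nat_lit 426555) (nat_lit 32) (.e (nat_lit 376865) (nat_lit 22) (.e (nat_lit 90160) (nat_lit 11) (.e (nat_lit 24597) (nat_lit 1) .nil)))))) (.g (nat_lit 1) (.e (nat_lit 260831) (nat_lit 0) .nil) .nil))) 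
(.lf (nat_lit 537140) (.g (nat_lit 4072) (.e (nat_lit 65604) (nat_lit 9) (.e (nat_lit 336013) (nat_lit 2) (.e (nat_lit 90134) (nat_lit 9) (.e (nat_lit 3071) (nat_lit 190) (.e (nat_lit 475198) (nat_lit 40) (.e (nat_lit 704589) (nat_lit 3) (.e (nat_lit 163975) (nat_lit 30) (.e (nat_lit 573481) (nat_lit 13) .nil)))))))) (.g (nat_lit 1) (.e (nat_lit 262157) (nat_lit 0) .nil) .nil)))) (.nd (nat_lit 9) 
(.lf (nat_lit 536884) (.g (nat_lit 1152) (.e (nat_lit 65571) (nat_lit 3) (.e (nat_lit 98358) (nat_lit 26) (.e (nat_lit 426294) (nat_lit 11) .nil))) (.g (nat_lit 0) (.e (nat_lit 261659) (nat_lit 0) .nil) .nil))) 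
(.lf (nat_lit 537396) (.g (nat_lit 3768) (.e (nat_lit 65611) (nat_lit 10) (.e (nat_lit 344117) (nat_lit 21) (.e (nat_lit 516139) (nat_lit 7) (.e (nat_lit 409649) (nat_lit 18) (.e (nat_lit 303117) (nat_lit 2) (.e (nat_lit 196666) (nat_lit 13) .nil)))))) (.g (nat_lit 1) (.e (nat_lit 262600) (nat_lit 0) .nil) .nil))))) (.nd (nat_lit 8) (.nd (nat_lit 9) 
(.lf (nat_lit 536756) (.g (nat_lit 2835) (.e (nat_lit 65568) (nat_lit 2) (.e (nat_lit 90170) (nat_lit 13) (.e (nat_lit 172113) (nat_lit 10) (.e (nat_lit 434248) (nat_lit 28) (.e (nat_lit 573478) (nat_lit 12) .nil))))) (.g (nat_lit 0) (.e (nat_lit 261369) (nat_lit 0) .nil) .nil))) 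
(.lf (nat_lit 537268) (.g (nat_lit 596) (.e (nat_lit 65609) (nat_lit 10) (.e (nat_lit 344117) (nat_lit 21) (.e (nat_lit 516151) (nat_lit 9) .nil))) (.g (nat_lit 0) (.e (nat_lit 262328) (nat_lit 0) .nil) .nil)))) (.nd (nat_lit 9) 
(.lf (nat_lit 537012) (.g (nat_lit 2472) (.e (nat_lit 65586) (nat_lit 7) (.e (nat_lit 319531) (nat_lit 16) (.e (nat_lit 286756) (nat_lit 10) (.e (nat_lit 344090) (nat_lit 18) (.e (nat_lit 5570) (nat_lit 308) .nil))))) (.g (nat_lit 0) (.e (nat_lit 261883) (nat_lit 0) .nil) .nil))) 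
(.lf (nat_lit 537524) (.g (nat_lit 5057) (.e (nat_lit 65617) (nat_lit 10) (.e (nat_lit 344132) (nat_lit 26) (.e (nat_lit 557094) (nat_lit 12) (.e (nat_lit 164022) (nat_lit 46) (.e (nat_lit 704629) (nat_lit 9) (.e (nat_lit 442) (nat_lit 33) (.e (nat_lit 434217) (nat_lit 19) (.e (nat_lit 500065) (nat_lit 18) .nil)))))))) (.g (nat_lit 1) (.e (nat_lit 262777) (nat_lit 0) .nil) .nil)))))) 
(.nd (nat_lit 7) (.nd (nat_lit 8) (.nd (nat_lit 9) 
(.lf (nat_lit 536692) (.g (nat_lit 2239) (.e (nat_lit 57762) (nat_lit 215) (.e (nat_lit 2505) (nat_lit 157) (.e (nat_lit 3062) (nat_lit 190) (.e (nat_lit 475185) (nat_lit 29) (.e (nat_lit 557109) (nat_lit 15) .nil))))) (.g (nat_lit 0) (.e (nat_lit 260995) (nat_lit 0) .nil) .nil))) 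
(.lf (nat_lit 537204) (.g (nat_lit 3936) (.e (nat_lit 65604) (nat_lit 9) (.e (nat_lit 336028) (nat_lit 3) (.e (nat_lit 98359) (nat_lit 26) (.e (nat_lit 426043) (nat_lit 0) (.e (nat_lit 3407) (nat_lit 212) (.e (nat_lit 655373) (nat_lit 3) (.e (nat_lit 163979) (nat_lit 30) (.e (nat_lit 573482) (nat_lit 13) .nil)))))))) (.g (nat_lit 1) (.e (nat_lit 262228) (nat_lit 0) .nil) .nil)))) (.nd (nat_lit 9) 
(.lf (nat_lit 536948) (.g (nat_lit 2313) (.e (nat_lit 65582) (nat_lit 7) (.e (nat_lit 319531) (nat_lit 16) (.e (nat_lit 286756) (nat_lit 10) (.e (nat_lit 344160) (nat_lit 37) (.e (nat_lit 647190) (nat_lit 9) .nil))))) (.g (nat_lit 0) (.e (nat_lit 261787) (nat_lit 0) .nil) .nil))) 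
(.lf (nat_lit 537460) (.g (nat_lit 2720) (.e (nat_lit 65617) (nat_lit 10) (.e (nat_lit 344127) (nat_lit 26) (.e (nat_lit 557090) (nat_lit 12) (.e (nat_lit 163843) (nat_lit 0) (.e (nat_lit 6418) (nat_lit 341) .nil))))) (.g (nat_lit 0) (.e (nat_lit 262700) (nat_lit 0) .nil) .nil))))) (.nd (nat_lit 8) (.nd (nat_lit 9) 
(.lf (nat_lit 536820) (.g (nat_lit 3023) (.e (nat_lit 65571) (nat_lit 3) (.e (nat_lit 98341) (nat_lit 20) (.e (nat_lit 221214) (nat_lit 23) (.e (nat_lit 204829) (nat_lit 18) (.e (nat_lit 57931) (nat_lit 282) (.e (nat_lit 163867) (nat_lit 2) (.e (nat_lit 196664) (nat_lit 13) .nil))))))) (.g (nat_lit 1) (.e (nat_lit 261592) (nat_lit 0) .nil) .nil))) 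
(.lf (nat_lit 537332) (.g (nat_lit 3473) (.e (nat_lit 65610) (nat_lit 10) (.e (nat_lit 344117) (nat_lit 21) (.e (nat_lit 516179) (nat_lit 15) (.e (nat_lit 475199) (nat_lit 40) (.e (nat_lit 704589) (nat_lit 3) (.e (nat_lit 163974) (nat_lit 30) (.e (nat_lit 573483) (nat_lit 13) .nil))))))) (.g (nat_lit 1) (.e (nat_lit 262438) (nat_lit 0) .nil) .nil)))) (.nd (nat_lit 9) 
(.lf (nat_lit 537076) (.g (nat_lit 2050) (.e (nat_lit 65598) (nat_lit 9) (.e (nat_lit 335997) (nat_lit 1) (.e (nat_lit 57857) (nat_lit 254) (.e (nat_lit 163908) (nat_lit 12) (.e (nat_lit 426286) (nat_lit 10) (.e (nat_lit 434266) (nat_lit 35) (.e (nat_lit 630821) (nat_lit 16) .nil))))))) (.g (nat_lit 1) (.e (nat_lit 262057) (nat_lit 0) .nil) .nil))) 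
(.lf (nat_lit 537588) (.g (nat_lit 1960) (.e (nat_lit 65619) (nat_lit 10) (.e (nat_lit 344117) (nat_lit 21) (.e (nat_lit 516106) (nat_lit 0) (.e (nat_lit 7016) (nat_lit 377) .nil)))) (.g (nat_lit 0) (.e (nat_lit 262868) (nat_lit 0) .nil) .nil))))))))) (.nd (nat_lit 4) (.nd (nat_lit 5) (.nd (nat_lit 6) (.nd (nat_lit 7) (.nd (nat_lit 8) (.nd (nat_lit 9) 
(.lf (nat_lit 536588) (.g (nat_lit 1764) (.e (nat_lit 57931) (nat_lit 282) (.e (nat_lit 163874) (nat_lit 3) (.e (nat_lit 204863) (nat_lit 27) (.e (nat_lit 344120) (nat_lit 21) .nil)))) (.g (nat_lit 0) (.e (nat_lit 260715) (nat_lit 0) .nil) .nil))) 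
(.lf (nat_lit 537100) (.g (nat_lit 4218) (.e (nat_lit 65598) (nat_lit 9) (.e (nat_lit 336013) (nat_lit 2) (.e (nat_lit 90170) (nat_lit 13) (.e (nat_lit 172136) (nat_lit 15) .nil)))) (.g (nat_lit 0) (.e (nat_lit 262084) (nat_lit 0) .nil) .nil)))) (.nd (nat_lit 9) 
(.lf (nat_lit 536844) (.g (nat_lit 2578) (.e (nat_lit 65571) (nat_lit 3) (.e (nat_lit 98342) (nat_lit 20) (.e (nat_lit 221214) (nat_lit 23) (.e (nat_lit 204829) (nat_lit 18) (.e (nat_lit 57927) (nat_lit 282) (.e (nat_lit 163866) (nat_lit 2) (.e (nat_lit 196663) (nat_lit 13) .nil))))))) (.g (nat_lit 1) (.e (nat_lit 261619) (nat_lit 0) .nil) .nil))) 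
(.lf (nat_lit 537356) (.g (nat_lit 1626) (.e (nat_lit 65610) (nat_lit 10) (.e (nat_lit 344129) (nat_lit 26) (.e (nat_lit 557067) (nat_lit 9) (.e (nat_lit 2469) (nat_lit 157) .nil)))) (.g (nat_lit 0) (.e (nat_lit 262502) (nat_lit 0) .nil) .nil))))) (.nd (nat_lit 8) (.nd (nat_lit 9) 
(.lf (nat_lit 536716) (.g (nat_lit 2311) (.e (nat_lit 65563) (nat_lit 1) (.e (nat_lit 57931) (nat_lit 282) (.e (nat_lit 163943) (nat_lit 19) (.e (nat_lit 483345) (nat_lit 17) (.e (nat_lit 6714) (nat_lit 360) .nil))))) (.g (nat_lit 0) (.e (nat_lit 261208) (nat_lit 0) .nil) .nil))) 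
(.lf (nat_lit 537228) (.g (nat_lit 2643) (.e (nat_lit 65604) (nat_lit 9) (.e (nat_lit 336028) (nat_lit 3) (.e (nat_lit 98367) (nat_lit 27) (.e (nat_lit 434272) (nat_lit 38) (.e (nat_lit 655367) (nat_lit 0) (.e (nat_lit 2477) (nat_lit 157) (.e (nat_lit 3308) (nat_lit 202) (.e (nat_lit 573482) (nat_lit 13) .nil)))))))) (.g (nat_lit 1) (.e (nat_lit 262260) (nat_lit 0) .nil) .nil)))) (.nd (nat_lit 9) 
(.lf (nat_lit 536972) (.g (nat_lit 734) (.e (nat_lit 65583) (nat_lit 7) (.e (nat_lit 319530) (nat_lit 16) (.e (nat_lit 286757) (nat_lit 11) .nil))) (.g (nat_lit 0) (.e (nat_lit 261822) (nat_lit 0) .nil) .nil))) 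
(.lf (nat_lit 537484) (.g (nat_lit 1671) (.e (nat_lit 65617) (nat_lit 10) (.e (nat_lit 344127) (nat_lit 26) (.e (nat_lit 557090) (nat_lit 12) (.e (nat_lit 171776) (nat_lit 48) .nil)))) (.g (nat_lit 0) (.e (nat_lit 262725) (nat_lit 0) .nil) .nil)))))) (.nd (nat_lit 7) (.nd (nat_lit 8) (.nd (nat_lit 9) 
(.lf (nat_lit 536652) (.g (nat_lit 2845) (.e (nat_lit 57931) (nat_lit 282) (.e (nat_lit 163943) (nat_lit 19) (.e (nat_lit 483346) (nat_lit 17) (.e (nat_lit 6712) (nat_lit 360) (.e (nat_lit 163978) (nat_lit 30) (.e (nat_lit 573485) (nat_lit 13) (.e (nat_lit 65563) (nat_lit 1) .nil))))))) (.g (nat_lit 1) (.e (nat_lit 260897) (nat_lit 0) .nil) .nil))) 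
(.lf (nat_lit 537164) (.g (nat_lit 1793) (.e (nat_lit 65604) (nat_lit 9) (.e (nat_lit 336013) (nat_lit 2) (.e (nat_lit 90169) (nat_lit 13) .nil))) (.g (nat_lit 0) (.e (nat_lit 262181) (nat_lit 0) .nil) .nil)))) (.nd (nat_lit 9) 
(.lf (nat_lit 536908) (.g (nat_lit 1250) (.e (nat_lit 65578) (nat_lit 6) (.e (nat_lit 147492) (nat_lit 11) (.e (nat_lit 24657) (nat_lit 13) (.e (nat_lit 393242) (nat_lit 17) (.e (nat_lit 7936) (nat_lit 406) .nil))))) (.g (nat_lit 1) (.e (nat_lit 261720) (nat_lit 0) .nil) .nil))) 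
(.lf (nat_lit 537420) (.g (nat_lit 2019) (.e (nat_lit 65617) (nat_lit 10) (.e (nat_lit 344091) (nat_lit 18) (.e (nat_lit 7265) (nat_lit 384) (.e (nat_lit 57409) (nat_lit 12) (.e (nat_lit 336182) (nat_lit 11) (.e (nat_lit 368698) (nat_lit 43) (.e (nat_lit 770072) (nat_lit 8) .nil))))))) (.g (nat_lit 1) (.e (nat_lit 262654) (nat_lit 0) .nil) .nil))))) (.nd (nat_lit 8) (.nd (nat_lit 9) 
(.lf (nat_lit 536780) (.g (nat_lit 5323) (.e (nat_lit 65569) (nat_lit 3) (.e (nat_lit 98342) (nat_lit 20) (.e (nat_lit 221214) (nat_lit 23) (.e (nat_lit 204829) (nat_lit 18) (.e (nat_lit 57931) (nat_lit 282) (.e (nat_lit 163869) (nat_lit 2) (.e (nat_lit 196666) (nat_lit 13) .nil))))))) (.g (nat_lit 1) (.e (nat_lit 261505) (nat_lit 0) .nil) .nil))) 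
(.lf (nat_lit 537292) (.g (nat_lit 4878) (.e (nat_lit 65610) (nat_lit 10) (.e (nat_lit 344117) (nat_lit 21) (.e (nat_lit 516106) (nat_lit 0) (.e (nat_lit 2425) (nat_lit 157) (.e (nat_lit 4516) (nat_lit 263) (.e (nat_lit 2619) (nat_lit 164) (.e (nat_lit 172064) (nat_lit 2) (.e (nat_lit 196666) (nat_lit 13) .nil)))))))) (.g (nat_lit 1) (.e (nat_lit 262377) (nat_lit 0) .nil) .nil)))) 
(.nd (nat_lit 9) 
(.lf (nat_lit 537036) (.g (nat_lit 2312) (.e (nat_lit 65589) (nat_lit 9) (.e (nat_lit 336013) (nat_lit 2) (.e (nat_lit 90165) (nat_lit 12) (.e (nat_lit 164209) (nat_lit 176) .nil)))) (.g (nat_lit 0) (.e (nat_lit 261913) (nat_lit 0) .nil) .nil))) 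
(.lf (nat_lit 537548) (.g (nat_lit 5718) (.e (nat_lit 65617) (nat_lit 10) (.e (nat_lit 344133) (nat_lit 26) (.e (nat_lit 557091) (nat_lit 12) (.e (nat_lit 164022) (nat_lit 46) (.e (nat_lit 704629) (nat_lit 9) (.e (nat_lit 442) (nat_lit 33) (.e (nat_lit 434217) (nat_lit 19) (.e (nat_lit 500065) (nat_lit 18) .nil)))))))) (.g (nat_lit 1) (.e (nat_lit 262805) (nat_lit 0) .nil) .nil))))))) 
(.nd (nat_lit 6) (.nd (nat_lit 7) (.nd (nat_lit 8) (.nd (nat_lit 9) 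
(.lf (nat_lit 536620) (.g (nat_lit 1988) (.e (nat_lit 57931) (nat_lit 282) (.e (nat_lit 163902) (nat_lit 12) (.e (nat_lit 426556) (nat_lit 32) (.e (nat_lit 376865) (nat_lit 22) (.e (nat_lit 90158) (nat_lit 11) (.e (nat_lit 24598) (nat_lit 1) .nil)))))) (.g (nat_lit 1) (.e (nat_lit 260818) (nat_lit 0) .nil) .nil))) 
(.lf (nat_lit 537132) (.g (nat_lit 2152) (.e (nat_lit 65604) (nat_lit 9) (.e (nat_lit 336013) (nat_lit 2) (.e (nat_lit 90125) (nat_lit 9) .nil))) (.g (nat_lit 0) (.e (nat_lit 262149) (nat_lit 0) .nil) .nil)))) (.nd (nat_lit 9) 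
(.lf (nat_lit 536876) (.g (nat_lit 2680) (.e (nat_lit 65571) (nat_lit 3) (.e (nat_lit 98342) (nat_lit 20) (.e (nat_lit 221215) (nat_lit 23) (.e (nat_lit 204831) (nat_lit 18) (.e (nat_lit 57924) (nat_lit 282) (.e (nat_lit 163867) (nat_lit 2) (.e (nat_lit 196663) (nat_lit 13) .nil))))))) (.g (nat_lit 1) (.e (nat_lit 261651) (nat_lit 0) .nil) .nil))) 
(.lf (nat_lit 537388) (.g (nat_lit 1095) (.e (nat_lit 65610) (nat_lit 10) (.e (nat_lit 344133) (nat_lit 26) (.e (nat_lit 557087) (nat_lit 11) .nil))) (.g (nat_lit 0) (.e (nat_lit 262588) (nat_lit 0) .nil) .nil))))) (.nd (nat_lit 8) (.nd (nat_lit 9) 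
(.lf (nat_lit 536748) (.g (nat_lit 2237) (.e (nat_lit 65568) (nat_lit 2) (.e (nat_lit 90170) (nat_lit 13) (.e (nat_lit 172113) (nat_lit 10) (.e (nat_lit 434245) (nat_lit 28) (.e (nat_lit 573472) (nat_lit 12) .nil))))) (.g (nat_lit 0) (.e (nat_lit 261361) (nat_lit 0) .nil) .nil))) 
(.lf (nat_lit 537260) (.g (nat_lit 747) (.e (nat_lit 65607) (nat_lit 9) (.e (nat_lit 336012) (nat_lit 2) (.e (nat_lit 90172) (nat_lit 14) .nil))) (.g (nat_lit 0) (.e (nat_lit 262310) (nat_lit 0) .nil) .nil)))) (.nd (nat_lit 9) 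
(.lf (nat_lit 537004) (.g (nat_lit 1966) (.e (nat_lit 65586) (nat_lit 7) (.e (nat_lit 319531) (nat_lit 16) (.e (nat_lit 286748) (nat_lit 9) (.e (nat_lit 336295) (nat_lit 15) (.e (nat_lit 3758) (nat_lit 229) (.e (nat_lit 794648) (nat_lit 20) (.e (nat_lit 3613) (nat_lit 226) (.e (nat_lit 770072) (nat_lit 8) .nil)))))))) (.g (nat_lit 1) (.e (nat_lit 261875) (nat_lit 0) .nil) .nil))) 
(.lf (nat_lit 537516) (.g (nat_lit 3400) (.e (nat_lit 65617) (nat_lit 10) (.e (nat_lit 344130) (nat_lit 26) (.e (nat_lit 557091) (nat_lit 12) (.e (nat_lit 164020) (nat_lit 45) (.e (nat_lit 696327) (nat_lit 5) (.e (nat_lit 2884) (nat_lit 184) (.e (nat_lit 426125) (nat_lit 2) (.e (nat_lit 196666) (nat_lit 13) .nil)))))))) (.g (nat_lit 1) (.e (nat_lit 262767) (nat_lit 0) .nil) .nil)))))) 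
(.nd (nat_lit 7) (.nd (nat_lit 8) (.nd (nat_lit 9) 
(.lf (nat_lit 536684) (.g (nat_lit 2190) (.e (nat_lit 57931) (nat_lit 282) (.e (nat_lit 163943) (nat_lit 19) (.e (nat_lit 483412) (nat_lit 27) (.e (nat_lit 401416) (nat_lit 0) (.e (nat_lit 3308) (nat_lit 202) .nil))))) (.g (nat_lit 0) (.e (nat_lit 260967) (nat_lit 0) .nil) .nil))) 
(.lf (nat_lit 537196) (.g (nat_lit 339) (.e (nat_lit 65604) (nat_lit 9) (.e (nat_lit 336028) (nat_lit 3) (.e (nat_lit 98325) (nat_lit 17) .nil))) (.g (nat_lit 0) (.e (nat_lit 262214) (nat_lit 0) .nil) .nil)))) (.nd (nat_lit 9) 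
(.lf (nat_lit 536940) (.g (nat_lit 1507) (.e (nat_lit 65580) (nat_lit 6) (.e (nat_lit 147494) (nat_lit 11) (.e (nat_lit 24630) (nat_lit 9) (.e (nat_lit 336438) (nat_lit 31) (.e (nat_lit 466688) (nat_lit 4) .nil))))) (.g (nat_lit 1) (.e (nat_lit 261767) (nat_lit 0) .nil) .nil))) 
(.lf (nat_lit 537452) (.g (nat_lit 1710) (.e (nat_lit 65617) (nat_lit 10) (.e (nat_lit 344138) (nat_lit 29) (.e (nat_lit 581653) (nat_lit 6) (.e (nat_lit 188441) (nat_lit 20) (.e (nat_lit 3579) (nat_lit 223) (.e (nat_lit 745490) (nat_lit 4) .nil)))))) (.g (nat_lit 1) (.e (nat_lit 262690) (nat_lit 0) .nil) .nil))))) (.nd (nat_lit 8) (.nd (nat_lit 9) 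
(.lf (nat_lit 536812) (.g (nat_lit 537) (.e (nat_lit 65571) (nat_lit 3) (.e (nat_lit 98341) (nat_lit 20) (.e (nat_lit 221204) (nat_lit 20) .nil))) (.g (nat_lit 0) (.e (nat_lit 261584) (nat_lit 0) .nil) .nil))) 
(.lf (nat_lit 537324) (.g (nat_lit 1044) (.e (nat_lit 65610) (nat_lit 10) (.e (nat_lit 344117) (nat_lit 21) (.e (nat_lit 516151) (nat_lit 9) (.e (nat_lit 426412) (nat_lit 15) .nil)))) (.g (nat_lit 0) (.e (nat_lit 262418) (nat_lit 0) .nil) .nil)))) (.nd (nat_lit 9) 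
(.lf (nat_lit 537068) (.g (nat_lit 2581) (.e (nat_lit 65596) (nat_lit 9) (.e (nat_lit 336020) (nat_lit 3) (.e (nat_lit 98350) (nat_lit 24) (.e (nat_lit 409616) (nat_lit 10) (.e (nat_lit 7936) (nat_lit 312) (.e (nat_lit 2668) (nat_lit 167) (.e (nat_lit 196666) (nat_lit 13) .nil))))))) (.g (nat_lit 1) (.e (nat_lit 262027) (nat_lit 0) .nil) .nil))) 
(.lf (nat_lit 537580) (.g (nat_lit 1505) (.e (nat_lit 65619) (nat_lit 10) (.e (nat_lit 344117) (nat_lit 21) (.e (nat_lit 516097) (nat_lit 0) (.e (nat_lit 7936) (nat_lit 377) .nil)))) (.g (nat_lit 0) (.e (nat_lit 262857) (nat_lit 0) .nil) .nil)))))))) (.nd (nat_lit 5) (.nd (nat_lit 6) (.nd (nat_lit 7) (.nd (nat_lit 8) (.nd (nat_lit 9) 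
(.lf (nat_lit 536604) (.g (nat_lit 1505) (.e (nat_lit 57931) (nat_lit 282) (.e (nat_lit 163885) (nat_lit 5) (.e (nat_lit 221212) (nat_lit 22) (.e (nat_lit 196654) (nat_lit 11) (.e (nat_lit 16458) (nat_lit 12) .nil))))) (.g (nat_lit 0) (.e (nat_lit 260745) (nat_lit 0) .nil) .nil))) 
(.lf (nat_lit 537116) (.g (nat_lit 4246) (.e (nat_lit 65603) (nat_lit 9) (.e (nat_lit 336028) (nat_lit 3) (.e (nat_lit 98349) (nat_lit 24) (.e (nat_lit 409645) (nat_lit 18) (.e (nat_lit 303117) (nat_lit 2) (.e (nat_lit 196665) (nat_lit 13) .nil)))))) (.g (nat_lit 1) (.e (nat_lit 262119) (nat_lit 0) .nil) .nil)))) (.nd (nat_lit 9) 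
(.lf (nat_lit 536860) (.g (nat_lit 3739) (.e (nat_lit 65571) (nat_lit 3) (.e (nat_lit 98342) (nat_lit 20) (.e (nat_lit 221214) (nat_lit 23) (.e (nat_lit 204831) (nat_lit 18) (.e (nat_lit 57931) (nat_lit 282) (.e (nat_lit 163869) (nat_lit 2) (.e (nat_lit 196664) (nat_lit 13) .nil))))))) (.g (nat_lit 1) (.e (nat_lit 261635) (nat_lit 0) .nil) .nil))) 
(.lf (nat_lit 537372) (.g (nat_lit 2615) (.e (nat_lit 65610) (nat_lit 10) (.e (nat_lit 344129) (nat_lit 26) (.e (nat_lit 557088) (nat_lit 12) (.e (nat_lit 164020) (nat_lit 45) (.e (nat_lit 696329) (nat_lit 5) (.e (nat_lit 2884) (nat_lit 184) (.e (nat_lit 426125) (nat_lit 2) (.e (nat_lit 196666) (nat_lit 13) .nil)))))))) (.g (nat_lit 1) (.e (nat_lit 262568) (nat_lit 0) .nil) .nil))))) 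
(.nd (nat_lit 8) (.nd (nat_lit 9) 
(.lf (nat_lit 536732) (.g (nat_lit 3640) (.e (nat_lit 65568) (nat_lit 2) (.e (nat_lit 90170) (nat_lit 13) (.e (nat_lit 172106) (nat_lit 10) (.e (nat_lit 434231) (nat_lit 23) (.e (nat_lit 532570) (nat_lit 17) (.e (nat_lit 3452) (nat_lit 216) (.e (nat_lit 688178) (nat_lit 16) .nil))))))) (.g (nat_lit 1) (.e (nat_lit 261345) (nat_lit 0) .nil) .nil))) 
(.lf (nat_lit 537244) (.g (nat_lit 1061) (.e (nat_lit 65605) (nat_lit 9) (.e (nat_lit 336028) (nat_lit 3) (.e (nat_lit 98350) (nat_lit 24) .nil))) (.g (nat_lit 0) (.e (nat_lit 262276) (nat_lit 0) .nil) .nil)))) (.nd (nat_lit 9) 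
(.lf (nat_lit 536988) (.g (nat_lit 707) (.e (nat_lit 65585) (nat_lit 7) (.e (nat_lit 319526) (nat_lit 15) (.e (nat_lit 278547) (nat_lit 8) (.e (nat_lit 303140) (nat_lit 10) (.e (nat_lit 434266) (nat_lit 35) (.e (nat_lit 630821) (nat_lit 16) .nil)))))) (.g (nat_lit 1) (.e (nat_lit 261851) (nat_lit 0) .nil) .nil))) 
(.lf (nat_lit 537500) (.g (nat_lit 3891) (.e (nat_lit 65617) (nat_lit 10) (.e (nat_lit 344130) (nat_lit 26) (.e (nat_lit 557087) (nat_lit 11) (.e (nat_lit 24625) (nat_lit 9) (.e (nat_lit 336265) (nat_lit 15) (.e (nat_lit 3304) (nat_lit 202) (.e (nat_lit 573484) (nat_lit 13) .nil))))))) (.g (nat_lit 1) (.e (nat_lit 262747) (nat_lit 0) .nil) .nil)))))) 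
(.nd (nat_lit 7) (.nd (nat_lit 8) (.nd (nat_lit 9) 
(.lf (nat_lit 536668) (.g (nat_lit 1141) (.e (nat_lit 57931) (nat_lit 282) (.e (nat_lit 163943) (nat_lit 19) (.e (nat_lit 483380) (nat_lit 23) .nil))) (.g (nat_lit 0) (.e (nat_lit 260922) (nat_lit 0) .nil) .nil))) 
(.lf (nat_lit 537180) (.g (nat_lit 4201) (.e (nat_lit 65604) (nat_lit 9) (.e (nat_lit 336013) (nat_lit 2) (.e (nat_lit 90170) (nat_lit 13) (.e (nat_lit 172049) (nat_lit 0) (.e (nat_lit 3407) (nat_lit 212) (.e (nat_lit 655373) (nat_lit 3) (.e (nat_lit 163979) (nat_lit 30) (.e (nat_lit 573482) (nat_lit 13) .nil)))))))) (.g (nat_lit 1) (.e (nat_lit 262197) (nat_lit 0) .nil) .nil)))) (.nd (nat_lit 9) 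
(.lf (nat_lit 536924) (.g (nat_lit 1724) (.e (nat_lit 65578) (nat_lit 6) (.e (nat_lit 147496) (nat_lit 11) (.e (nat_lit 24624) (nat_lit 9) (.e (nat_lit 336438) (nat_lit 31) (.e (nat_lit 466688) (nat_lit 4) .nil))))) (.g (nat_lit 1) (.e (nat_lit 261742) (nat_lit 0) .nil) .nil))) 
(.lf (nat_lit 537436) (.g (nat_lit 2516) (.e (nat_lit 65617) (nat_lit 10) (.e (nat_lit 344117) (nat_lit 21) (.e (nat_lit 516139) (nat_lit 7) (.e (nat_lit 409646) (nat_lit 18) (.e (nat_lit 303116) (nat_lit 2) .nil))))) (.g (nat_lit 0) (.e (nat_lit 262672) (nat_lit 0) .nil) .nil))))) (.nd (nat_lit 8) (.nd (nat_lit 9) 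
(.lf (nat_lit 536796) (.g (nat_lit 1715) (.e (nat_lit 65570) (nat_lit 3) (.e (nat_lit 98317) (nat_lit 9) (.e (nat_lit 336288) (nat_lit 15) (.e (nat_lit 7936) (nat_lit 195) .nil)))) (.g (nat_lit 0) (.e (nat_lit 261532) (nat_lit 0) .nil) .nil))) 
(.lf (nat_lit 537308) (.g (nat_lit 1379) (.e (nat_lit 65610) (nat_lit 10) (.e (nat_lit 344117) (nat_lit 21) (.e (nat_lit 516145) (nat_lit 9) (.e (nat_lit 426467) (nat_lit 24) .nil)))) (.g (nat_lit 0) (.e (nat_lit 262399) (nat_lit 0) .nil) .nil)))) (.nd (nat_lit 9) 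
(.lf (nat_lit 537052) (.g (nat_lit 2142) (.e (nat_lit 65591) (nat_lit 9) (.e (nat_lit 336369) (nat_lit 27) (.e (nat_lit 426173) (nat_lit 7) (.e (nat_lit 409649) (nat_lit 18) (.e (nat_lit 303107) (nat_lit 0) .nil))))) (.g (nat_lit 0) (.e (nat_lit 261997) (nat_lit 0) .nil) .nil))) 
(.lf (nat_lit 537564) (.g (nat_lit 5944) (.e (nat_lit 65618) (nat_lit 10) (.e (nat_lit 344117) (nat_lit 21) (.e (nat_lit 516151) (nat_lit 9) (.e (nat_lit 426412) (nat_lit 15) (.e (nat_lit 2059) (nat_lit 142) (.e (nat_lit 704589) (nat_lit 3) (.e (nat_lit 163975) (nat_lit 30) (.e (nat_lit 573481) (nat_lit 13) .nil)))))))) (.g (nat_lit 1) (.e (nat_lit 262825) (nat_lit 0) .nil) .nil))))))) 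
(.nd (nat_lit 6) (.nd (nat_lit 7) (.nd (nat_lit 8) (.nd (nat_lit 9) 
(.lf (nat_lit 536636) (.g (nat_lit 2411) (.e (nat_lit 57931) (nat_lit 282) (.e (nat_lit 163923) (nat_lit 15) (.e (nat_lit 450587) (nat_lit 10) (.e (nat_lit 573478) (nat_lit 12) (.e (nat_lit 57360) (nat_lit 0) .nil))))) (.g (nat_lit 0) (.e (nat_lit 260847) (nat_lit 0) .nil) .nil))) 
(.lf (nat_lit 537148) (.g (nat_lit 2152) (.e (nat_lit 65604) (nat_lit 9) (.e (nat_lit 336013) (nat_lit 2) (.e (nat_lit 90141) (nat_lit 9) .nil))) (.g (nat_lit 0) (.e (nat_lit 262165) (nat_lit 0) .nil) .nil)))) (.nd (nat_lit 9) 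
(.lf (nat_lit 536892) (.g (nat_lit 4037) (.e (nat_lit 65571) (nat_lit 3) (.e (nat_lit 98374) (nat_lit 29) (.e (nat_lit 450585) (nat_lit 10) (.e (nat_lit 573474) (nat_lit 12) (.e (nat_lit 57572) (nat_lit 54) (.e (nat_lit 770071) (nat_lit 8) .nil)))))) (.g (nat_lit 1) (.e (nat_lit 261669) (nat_lit 0) .nil) .nil))) 
(.lf (nat_lit 537404) (.g (nat_lit 2436) (.e (nat_lit 65615) (nat_lit 10) (.e (nat_lit 344117) (nat_lit 21) (.e (nat_lit 516106) (nat_lit 0) (.e (nat_lit 7936) (nat_lit 377) .nil)))) (.g (nat_lit 0) (.e (nat_lit 262614) (nat_lit 0) .nil) .nil))))) (.nd (nat_lit 8) (.nd (nat_lit 9) 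
(.lf (nat_lit 536764) (.g (nat_lit 2496) (.e (nat_lit 65569) (nat_lit 3) (.e (nat_lit 98334) (nat_lit 18) (.e (nat_lit 164182) (nat_lit 154) (.e (nat_lit 57378) (nat_lit 3) (.e (nat_lit 98340) (nat_lit 20) .nil))))) (.g (nat_lit 0) (.e (nat_lit 261451) (nat_lit 0) .nil) .nil))) 
(.lf (nat_lit 537276) (.g (nat_lit 1379) (.e (nat_lit 65609) (nat_lit 10) (.e (nat_lit 344133) (nat_lit 26) (.e (nat_lit 557091) (nat_lit 12) (.e (nat_lit 164022) (nat_lit 46) .nil)))) (.g (nat_lit 0) (.e (nat_lit 262341) (nat_lit 0) .nil) .nil)))) (.nd (nat_lit 9) 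
(.lf (nat_lit 537020) (.g (nat_lit 3318) (.e (nat_lit 65586) (nat_lit 7) (.e (nat_lit 319531) (nat_lit 16) (.e (nat_lit 286759) (nat_lit 12) (.e (nat_lit 385094) (nat_lit 49) (.e (nat_lit 778346) (nat_lit 9) (.e (nat_lit 2471) (nat_lit 157) (.e (nat_lit 3613) (nat_lit 226) (.e (nat_lit 770072) (nat_lit 8) .nil)))))))) (.g (nat_lit 1) (.e (nat_lit 261891) (nat_lit 0) .nil) .nil))) 
(.lf (nat_lit 537532) (.g (nat_lit 2303) (.e (nat_lit 65617) (nat_lit 10) (.e (nat_lit 344133) (nat_lit 26) (.e (nat_lit 557085) (nat_lit 11) (.e (nat_lit 24631) (nat_lit 9) (.e (nat_lit 336295) (nat_lit 15) (.e (nat_lit 3305) (nat_lit 202) (.e (nat_lit 573484) (nat_lit 13) .nil))))))) (.g (nat_lit 1) (.e (nat_lit 262787) (nat_lit 0) .nil) .nil)))))) 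
(.nd (nat_lit 7) (.nd (nat_lit 8) (.nd (nat_lit 9) 
(.lf (nat_lit 536700) (.g (nat_lit 3381) (.e (nat_lit 65549) (nat_lit 0) (.e (nat_lit 1858) (nat_lit 124) (.e (nat_lit 557105) (nat_lit 14) (.e (nat_lit 180252) (nat_lit 10) (.e (nat_lit 573474) (nat_lit 12) .nil))))) (.g (nat_lit 0) (.e (nat_lit 261151) (nat_lit 0) .nil) .nil))) 
(.lf (nat_lit 537212) (.g (nat_lit 2821) (.e (nat_lit 65604) (nat_lit 9) (.e (nat_lit 336028) (nat_lit 3) (.e (nat_lit 98365) (nat_lit 26) (.e (nat_lit 426108) (nat_lit 1) (.e (nat_lit 164345) (nat_lit 240) .nil))))) (.g (nat_lit 0) (.e (nat_lit 262238) (nat_lit 0) .nil) .nil)))) (.nd (nat_lit 9) 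
(.lf (nat_lit 536956) (.g (nat_lit 2876) (.e (nat_lit 65582) (nat_lit 7) (.e (nat_lit 319534) (nat_lit 16) (.e (nat_lit 286762) (nat_lit 14) (.e (nat_lit 401448) (nat_lit 10) (.e (nat_lit 434268) (nat_lit 36) .nil))))) (.g (nat_lit 0) (.e (nat_lit 261795) (nat_lit 0) .nil) .nil))) 
(.lf (nat_lit 537468) (.g (nat_lit 1895) (.e (nat_lit 65617) (nat_lit 10) (.e (nat_lit 344127) (nat_lit 26) (.e (nat_lit 557090) (nat_lit 12) (.e (nat_lit 163847) (nat_lit 0) .nil)))) (.g (nat_lit 0) (.e (nat_lit 262708) (nat_lit 0) .nil) .nil))))) (.nd (nat_lit 8) (.nd (nat_lit 9) 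
(.lf (nat_lit 536828) (.g (nat_lit 2496) (.e (nat_lit 65571) (nat_lit 3) (.e (nat_lit 98341) (nat_lit 20) (.e (nat_lit 221215) (nat_lit 23) (.e (nat_lit 204829) (nat_lit 18) (.e (nat_lit 57927) (nat_lit 282) (.e (nat_lit 163869) (nat_lit 2) (.e (nat_lit 196664) (nat_lit 13) .nil))))))) (.g (nat_lit 1) (.e (nat_lit 261600) (nat_lit 0) .nil) .nil))) 
(.lf (nat_lit 537340) (.g (nat_lit 1885) (.e (nat_lit 65610) (nat_lit 10) (.e (nat_lit 344127) (nat_lit 26) (.e (nat_lit 557090) (nat_lit 12) (.e (nat_lit 163843) (nat_lit 0) .nil)))) (.g (nat_lit 0) (.e (nat_lit 262462) (nat_lit 0) .nil) .nil)))) (.nd (nat_lit 9) 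
(.lf (nat_lit 537084) (.g (nat_lit 2291) (.e (nat_lit 65598) (nat_lit 9) (.e (nat_lit 336013) (nat_lit 2) (.e (nat_lit 90134) (nat_lit 9) (.e (nat_lit 2828) (nat_lit 182) .nil)))) (.g (nat_lit 0) (.e (nat_lit 262068) (nat_lit 0) .nil) .nil))) 
(.lf (nat_lit 537596) (.g (nat_lit 3404) (.e (nat_lit 65619) (nat_lit 10) (.e (nat_lit 344117) (nat_lit 21) (.e (nat_lit 516139) (nat_lit 7) (.e (nat_lit 409625) (nat_lit 10) .nil)))) (.g (nat_lit 0) (.e (nat_lit 262876) (nat_lit 0) .nil) .nil))))))))))) (.nd (nat_lit 2) (.nd (nat_lit 3) (.nd (nat_lit 4) (.nd (nat_lit 5) (.nd (nat_lit 6) (.nd (nat_lit 7) (.nd (nat_lit 8) (.nd (nat_lit 9) 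
(.lf (nat_lit 536578) (.g (nat_lit 2623) (.e (nat_lit 57931) (nat_lit 282) (.e (nat_lit 163874) (nat_lit 3) (.e (nat_lit 204861) (nat_lit 26) (.e (nat_lit 336076) (nat_lit 9) (.e (nat_lit 336454) (nat_lit 34) (.e (nat_lit 483362) (nat_lit 18) .nil)))))) (.g (nat_lit 1) (.e (nat_lit 260705) (nat_lit 0) .nil) .nil))) 
(.lf (nat_lit 537090) (.g (nat_lit 1282) (.e (nat_lit 65598) (nat_lit 9) (.e (nat_lit 336013) (nat_lit 2) (.e (nat_lit 90169) (nat_lit 13) .nil))) (.g (nat_lit 0) (.e (nat_lit 262074) (nat_lit 0) .nil) .nil)))) (.nd (nat_lit 9) 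
(.lf (nat_lit 536834) (.g (nat_lit 2668) (.e (nat_lit 65571) (nat_lit 3) (.e (nat_lit 98341) (nat_lit 20) (.e (nat_lit 221215) (nat_lit 23) (.e (nat_lit 204830) (nat_lit 18) (.e (nat_lit 57927) (nat_lit 282) (.e (nat_lit 163869) (nat_lit 2) (.e (nat_lit 196664) (nat_lit 13) .nil))))))) (.g (nat_lit 1) (.e (nat_lit 261606) (nat_lit 0) .nil) .nil))) 
(.lf (nat_lit 537346) (.g (nat_lit 4749) (.e (nat_lit 65610) (nat_lit 10) (.e (nat_lit 344129) (nat_lit 26) (.e (nat_lit 557065) (nat_lit 9) (.e (nat_lit 2612) (nat_lit 163) (.e (nat_lit 164187) (nat_lit 157) (.e (nat_lit 229399) (nat_lit 12) (.e (nat_lit 426125) (nat_lit 2) (.e (nat_lit 196666) (nat_lit 13) .nil)))))))) (.g (nat_lit 1) (.e (nat_lit 262473) (nat_lit 0) .nil) .nil))))) 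
(.nd (nat_lit 8) (.nd (nat_lit 9) 
(.lf (nat_lit 536706) (.g (nat_lit 1931) (.e (nat_lit 65563) (nat_lit 1) (.e (nat_lit 57926) (nat_lit 282) (.e (nat_lit 163943) (nat_lit 19) (.e (nat_lit 483343) (nat_lit 17) .nil)))) (.g (nat_lit 0) (.e (nat_lit 261192) (nat_lit 0) .nil) .nil))) 
(.lf (nat_lit 537218) (.g (nat_lit 1994) (.e (nat_lit 65604) (nat_lit 9) (.e (nat_lit 336028) (nat_lit 3) (.e (nat_lit 98367) (nat_lit 27) (.e (nat_lit 434202) (nat_lit 18) (.e (nat_lit 5537) (nat_lit 306) .nil))))) (.g (nat_lit 0) (.e (nat_lit 262244) (nat_lit 0) .nil) .nil)))) (.nd (nat_lit 9) 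
(.lf (nat_lit 536962) (.g (nat_lit 1082) (.e (nat_lit 65583) (nat_lit 7) (.e (nat_lit 319526) (nat_lit 15) (.e (nat_lit 278547) (nat_lit 8) (.e (nat_lit 303140) (nat_lit 10) (.e (nat_lit 434266) (nat_lit 35) (.e (nat_lit 630821) (nat_lit 16) .nil)))))) (.g (nat_lit 1) (.e (nat_lit 261809) (nat_lit 0) .nil) .nil))) 
(.lf (nat_lit 537474) (.g (nat_lit 2400) (.e (nat_lit 65617) (nat_lit 10) (.e (nat_lit 344127) (nat_lit 26) (.e (nat_lit 557090) (nat_lit 12) (.e (nat_lit 163852) (nat_lit 0) (.e (nat_lit 6428) (nat_lit 342) .nil))))) (.g (nat_lit 0) (.e (nat_lit 262714) (nat_lit 0) .nil) .nil)))))) (.nd (nat_lit 7) (.nd (nat_lit 8) (.nd (nat_lit 9) 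
(.lf (nat_lit 536642) (.g (nat_lit 858) (.e (nat_lit 57931) (nat_lit 282) (.e (nat_lit 163941) (nat_lit 19) (.e (nat_lit 483343) (nat_lit 17) (.e (nat_lit 6712) (nat_lit 360) .nil)))) (.g (nat_lit 0) (.e (nat_lit 260856) (nat_lit 0) .nil) .nil))) 
(.lf (nat_lit 537154) (.g (nat_lit 3877) (.e (nat_lit 65604) (nat_lit 9) (.e (nat_lit 336013) (nat_lit 2) (.e (nat_lit 90165) (nat_lit 12) (.e (nat_lit 164208) (nat_lit 176) (.e (nat_lit 2781) (nat_lit 178) (.e (nat_lit 286765) (nat_lit 15) (.e (nat_lit 3308) (nat_lit 202) (.e (nat_lit 573482) (nat_lit 13) .nil)))))))) (.g (nat_lit 1) (.e (nat_lit 262171) (nat_lit 0) .nil) .nil)))) 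
(.nd (nat_lit 9) 
(.lf (nat_lit 536898) (.g (nat_lit 3363) (.e (nat_lit 65571) (nat_lit 3) (.e (nat_lit 98389) (nat_lit 33) (.e (nat_lit 491546) (nat_lit 9) (.e (nat_lit 336013) (nat_lit 2) (.e (nat_lit 90133) (nat_lit 9) (.e (nat_lit 2400) (nat_lit 157) (.e (nat_lit 7586) (nat_lit 406) .nil))))))) (.g (nat_lit 1) (.e (nat_lit 261676) (nat_lit 0) .nil) .nil))) 
(.lf (nat_lit 537410) (.g (nat_lit 3118) (.e (nat_lit 65616) (nat_lit 10) (.e (nat_lit 344117) (nat_lit 21) (.e (nat_lit 516179) (nat_lit 15) (.e (nat_lit 475198) (nat_lit 40) .nil)))) (.g (nat_lit 0) (.e (nat_lit 262633) (nat_lit 0) .nil) .nil))))) (.nd (nat_lit 8) (.nd (nat_lit 9) 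
(.lf (nat_lit 536770) (.g (nat_lit 4119) (.e (nat_lit 65569) (nat_lit 3) (.e (nat_lit 98341) (nat_lit 20) (.e (nat_lit 221214) (nat_lit 23) (.e (nat_lit 204830) (nat_lit 18) (.e (nat_lit 57931) (nat_lit 282) (.e (nat_lit 163869) (nat_lit 2) (.e (nat_lit 196666) (nat_lit 13) .nil))))))) (.g (nat_lit 1) (.e (nat_lit 261494) (nat_lit 0) .nil) .nil))) 
(.lf (nat_lit 537282) (.g (nat_lit 1791) (.e (nat_lit 65610) (nat_lit 10) (.e (nat_lit 344090) (nat_lit 18) (.e (nat_lit 7265) (nat_lit 384) (.e (nat_lit 57409) (nat_lit 12) (.e (nat_lit 336182) (nat_lit 11) (.e (nat_lit 368698) (nat_lit 43) (.e (nat_lit 770071) (nat_lit 8) .nil))))))) (.g (nat_lit 1) (.e (nat_lit 262349) (nat_lit 0) .nil) .nil)))) (.nd (nat_lit 9) 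
(.lf (nat_lit 537026) (.g (nat_lit 2694) (.e (nat_lit 65586) (nat_lit 7) (.e (nat_lit 319531) (nat_lit 16) (.e (nat_lit 286759) (nat_lit 12) (.e (nat_lit 385107) (nat_lit 51) (.e (nat_lit 794642) (nat_lit 20) (.e (nat_lit 3615) (nat_lit 226) (.e (nat_lit 770071) (nat_lit 8) .nil))))))) (.g (nat_lit 1) (.e (nat_lit 261897) (nat_lit 0) .nil) .nil))) 
(.lf (nat_lit 537538) (.g (nat_lit 3745) (.e (nat_lit 65617) (nat_lit 10) (.e (nat_lit 344133) (nat_lit 26) (.e (nat_lit 557087) (nat_lit 11) (.e (nat_lit 24625) (nat_lit 9) (.e (nat_lit 336263) (nat_lit 15) (.e (nat_lit 3305) (nat_lit 202) (.e (nat_lit 573484) (nat_lit 13) .nil))))))) (.g (nat_lit 1) (.e (nat_lit 262793) (nat_lit 0) .nil) .nil))))))) 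
(.nd (nat_lit 6) (.nd (nat_lit 7) (.nd (nat_lit 8) (.nd (nat_lit 9) 
(.lf (nat_lit 536610) (.g (nat_lit 1923) (.e (nat_lit 57931) (nat_lit 282) (.e (nat_lit 163896) (nat_lit 10) (.e (nat_lit 409648) (nat_lit 18) (.e (nat_lit 303133) (nat_lit 9) .nil)))) (.g (nat_lit 0) (.e (nat_lit 260780) (nat_lit 0) .nil) .nil))) 
(.lf (nat_lit 537122) (.g (nat_lit 3867) (.e (nat_lit 65604) (nat_lit 9) (.e (nat_lit 335907) (nat_lit 0) (.e (nat_lit 2345) (nat_lit 151) (.e (nat_lit 778464) (nat_lit 11) (.e (nat_lit 24665) (nat_lit 14) (.e (nat_lit 401414) (nat_lit 0) (.e (nat_lit 3459) (nat_lit 216) (.e (nat_lit 688178) (nat_lit 16) .nil)))))))) (.g (nat_lit 1) (.e (nat_lit 262125) (nat_lit 0) .nil) .nil)))) (.nd (nat_lit 9) 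
(.lf (nat_lit 536866) (.g (nat_lit 2864) (.e (nat_lit 65571) (nat_lit 3) (.e (nat_lit 98342) (nat_lit 20) (.e (nat_lit 221215) (nat_lit 23) (.e (nat_lit 204829) (nat_lit 18) (.e (nat_lit 57927) (nat_lit 282) (.e (nat_lit 163869) (nat_lit 2) (.e (nat_lit 196664) (nat_lit 13) .nil))))))) (.g (nat_lit 1) (.e (nat_lit 261641) (nat_lit 0) .nil) .nil))) 
(.lf (nat_lit 537378) (.g (nat_lit 2263) (.e (nat_lit 65610) (nat_lit 10) (.e (nat_lit 344129) (nat_lit 26) (.e (nat_lit 557090) (nat_lit 12) (.e (nat_lit 163843) (nat_lit 0) (.e (nat_lit 6252) (nat_lit 337) .nil))))) (.g (nat_lit 0) (.e (nat_lit 262575) (nat_lit 0) .nil) .nil))))) (.nd (nat_lit 8) (.nd (nat_lit 9) 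
(.lf (nat_lit 536738) (.g (nat_lit 2557) (.e (nat_lit 65568) (nat_lit 2) (.e (nat_lit 90170) (nat_lit 13) (.e (nat_lit 172106) (nat_lit 10) (.e (nat_lit 434231) (nat_lit 23) (.e (nat_lit 532577) (nat_lit 17) (.e (nat_lit 3452) (nat_lit 216) (.e (nat_lit 688175) (nat_lit 16) .nil))))))) (.g (nat_lit 1) (.e (nat_lit 261351) (nat_lit 0) .nil) .nil))) 
(.lf (nat_lit 537250) (.g (nat_lit 1741) (.e (nat_lit 65606) (nat_lit 9) (.e (nat_lit 336012) (nat_lit 2) (.e (nat_lit 90172) (nat_lit 14) (.e (nat_lit 180229) (nat_lit 0) .nil)))) (.g (nat_lit 0) (.e (nat_lit 262296) (nat_lit 0) .nil) .nil)))) (.nd (nat_lit 9) 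
(.lf (nat_lit 536994) (.g (nat_lit 1110) (.e (nat_lit 65586) (nat_lit 7) (.e (nat_lit 319526) (nat_lit 15) (.e (nat_lit 278547) (nat_lit 8) (.e (nat_lit 303137) (nat_lit 10) (.e (nat_lit 434266) (nat_lit 35) (.e (nat_lit 630821) (nat_lit 16) .nil)))))) (.g (nat_lit 1) (.e (nat_lit 261865) (nat_lit 0) .nil) .nil))) 
(.lf (nat_lit 537506) (.g (nat_lit 2919) (.e (nat_lit 65617) (nat_lit 10) (.e (nat_lit 344130) (nat_lit 26) (.e (nat_lit 557087) (nat_lit 11) (.e (nat_lit 24628) (nat_lit 9) (.e (nat_lit 336303) (nat_lit 15) (.e (nat_lit 3304) (nat_lit 202) (.e (nat_lit 573484) (nat_lit 13) .nil))))))) (.g (nat_lit 1) (.e (nat_lit 262753) (nat_lit 0) .nil) .nil)))))) 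
(.nd (nat_lit 7) (.nd (nat_lit 8) (.nd (nat_lit 9) 
(.lf (nat_lit 536674) (.g (nat_lit 1082) (.e (nat_lit 57931) (nat_lit 282) (.e (nat_lit 163943) (nat_lit 19) (.e (nat_lit 483405) (nat_lit 26) .nil))) (.g (nat_lit 0) (.e (nat_lit 260955) (nat_lit 0) .nil) .nil))) 
(.lf (nat_lit 537186) (.g (nat_lit 1234) (.e (nat_lit 65604) (nat_lit 9) (.e (nat_lit 336013) (nat_lit 2) (.e (nat_lit 90170) (nat_lit 13) (.e (nat_lit 172059) (nat_lit 1) .nil)))) (.g (nat_lit 0) (.e (nat_lit 262203) (nat_lit 0) .nil) .nil)))) (.nd (nat_lit 9) 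
(.lf (nat_lit 536930) (.g (nat_lit 1718) (.e (nat_lit 65580) (nat_lit 6) (.e (nat_lit 147492) (nat_lit 11) (.e (nat_lit 24657) (nat_lit 13) (.e (nat_lit 393235) (nat_lit 17) (.e (nat_lit 7936) (nat_lit 406) .nil))))) (.g (nat_lit 1) (.e (nat_lit 261755) (nat_lit 0) .nil) .nil))) 
(.lf (nat_lit 537442) (.g (nat_lit 3714) (.e (nat_lit 65617) (nat_lit 10) (.e (nat_lit 344117) (nat_lit 21) (.e (nat_lit 516151) (nat_lit 9) (.e (nat_lit 426412) (nat_lit 15) .nil)))) (.g (nat_lit 0) (.e (nat_lit 262678) (nat_lit 0) .nil) .nil))))) (.nd (nat_lit 8) (.nd (nat_lit 9) 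
(.lf (nat_lit 536802) (.g (nat_lit 2200) (.e (nat_lit 65570) (nat_lit 3) (.e (nat_lit 98333) (nat_lit 18) (.e (nat_lit 164179) (nat_lit 154) (.e (nat_lit 57378) (nat_lit 3) .nil)))) (.g (nat_lit 0) (.e (nat_lit 261545) (nat_lit 0) .nil) .nil))) 
(.lf (nat_lit 537314) (.g (nat_lit 3154) (.e (nat_lit 65610) (nat_lit 10) (.e (nat_lit 344117) (nat_lit 21) (.e (nat_lit 516151) (nat_lit 9) (.e (nat_lit 426037) (nat_lit 0) (.e (nat_lit 3403) (nat_lit 212) .nil))))) (.g (nat_lit 0) (.e (nat_lit 262405) (nat_lit 0) .nil) .nil)))) (.nd (nat_lit 9) 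
(.lf (nat_lit 537058) (.g (nat_lit 869) (.e (nat_lit 65595) (nat_lit 9) (.e (nat_lit 336013) (nat_lit 2) (.e (nat_lit 90170) (nat_lit 13) .nil))) (.g (nat_lit 0) (.e (nat_lit 262011) (nat_lit 0) .nil) .nil))) 
(.lf (nat_lit 537570) (.g (nat_lit 1654) (.e (nat_lit 65619) (nat_lit 10) (.e (nat_lit 344090) (nat_lit 18) (.e (nat_lit 7708) (nat_lit 414) (.e (nat_lit 163907) (nat_lit 12) (.e (nat_lit 426294) (nat_lit 11) .nil))))) (.g (nat_lit 0) (.e (nat_lit 262831) (nat_lit 0) .nil) .nil)))))))) (.nd (nat_lit 5) (.nd (nat_lit 6) (.nd (nat_lit 7) (.nd (nat_lit 8) (.nd (nat_lit 9) 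
(.lf (nat_lit 536594) (.g (nat_lit 385) (.e (nat_lit 57931) (nat_lit 282) (.e (nat_lit 163874) (nat_lit 3) (.e (nat_lit 204876) (nat_lit 31) .nil))) (.g (nat_lit 0) (.e (nat_lit 260730) (nat_lit 0) .nil) .nil))) 
(.lf (nat_lit 537106) (.g (nat_lit 1282) (.e (nat_lit 65598) (nat_lit 9) (.e (nat_lit 336013) (nat_lit 2) (.e (nat_lit 90185) (nat_lit 17) .nil))) (.g (nat_lit 0) (.e (nat_lit 262090) (nat_lit 0) .nil) .nil)))) (.nd (nat_lit 9) 
(.lf (nat_lit 536850) (.g (nat_lit 4401) (.e (nat_lit 65571) (nat_lit 3) (.e (nat_lit 98342) (nat_lit 20) (.e (nat_lit 221214) (nat_lit 23) (.e (nat_lit 204830) (nat_lit 18) (.e (nat_lit 57926) (nat_lit 282) (.e (nat_lit 163868) (nat_lit 2) (.e (nat_lit 196663) (nat_lit 13) .nil))))))) (.g (nat_lit 1) (.e (nat_lit 261625) (nat_lit 0) .nil) .nil))) 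
(.lf (nat_lit 537362) (.g (nat_lit 1361) (.e (nat_lit 65610) (nat_lit 10) (.e (nat_lit 344129) (nat_lit 26) (.e (nat_lit 557084) (nat_lit 10) (.e (nat_lit 8287) (nat_lit 51) .nil)))) (.g (nat_lit 0) (.e (nat_lit 262541) (nat_lit 0) .nil) .nil))))) (.nd (nat_lit 8) (.nd (nat_lit 9) 
(.lf (nat_lit 536722) (.g (nat_lit 2575) (.e (nat_lit 65566) (nat_lit 2) (.e (nat_lit 90170) (nat_lit 13) (.e (nat_lit 172113) (nat_lit 10) (.e (nat_lit 434247) (nat_lit 28) (.e (nat_lit 573473) (nat_lit 12) .nil))))) (.g (nat_lit 0) (.e (nat_lit 261301) (nat_lit 0) .nil) .nil))) 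
(.lf (nat_lit 537234) (.g (nat_lit 2032) (.e (nat_lit 65604) (nat_lit 9) (.e (nat_lit 336028) (nat_lit 3) (.e (nat_lit 98384) (nat_lit 32) (.e (nat_lit 475197) (nat_lit 40) .nil)))) (.g (nat_lit 0) (.e (nat_lit 262266) (nat_lit 0) .nil) .nil)))) (.nd (nat_lit 9) 
(.lf (nat_lit 536978) (.g (nat_lit 1354) (.e (nat_lit 65583) (nat_lit 7) (.e (nat_lit 319530) (nat_lit 16) (.e (nat_lit 286762) (nat_lit 14) (.e (nat_lit 401448) (nat_lit 10) .nil)))) (.g (nat_lit 0) (.e (nat_lit 261828) (nat_lit 0) .nil) .nil))) 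
(.lf (nat_lit 537490) (.g (nat_lit 2596) (.e (nat_lit 65617) (nat_lit 10) (.e (nat_lit 344129) (nat_lit 26) (.e (nat_lit 557087) (nat_lit 11) (.e (nat_lit 24580) (nat_lit 0) .nil)))) (.g (nat_lit 0) (.e (nat_lit 262732) (nat_lit 0) .nil) .nil)))))) (.nd (nat_lit 7) (.nd (nat_lit 8) (.nd (nat_lit 9) 
(.lf (nat_lit 536658) (.g (nat_lit 1141) (.e (nat_lit 57931) (nat_lit 282) (.e (nat_lit 163943) (nat_lit 19) (.e (nat_lit 483353) (nat_lit 17) .nil))) (.g (nat_lit 0) (.e (nat_lit 260907) (nat_lit 0) .nil) .nil))) 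
(.lf (nat_lit 537170) (.g (nat_lit 4323) (.e (nat_lit 65604) (nat_lit 9) (.e (nat_lit 336013) (nat_lit 2) (.e (nat_lit 90170) (nat_lit 13) (.e (nat_lit 172042) (nat_lit 0) (.e (nat_lit 3406) (nat_lit 212) (.e (nat_lit 655373) (nat_lit 3) (.e (nat_lit 163979) (nat_lit 30) (.e (nat_lit 573482) (nat_lit 13) .nil)))))))) (.g (nat_lit 1) (.e (nat_lit 262187) (nat_lit 0) .nil) .nil)))) (.nd (nat_lit 9) 
(.lf (nat_lit 536914) (.g (nat_lit 1232) (.e (nat_lit 65578) (nat_lit 6) (.e (nat_lit 147495) (nat_lit 11) (.e (nat_lit 24627) (nat_lit 9) (.e (nat_lit 336438) (nat_lit 31) .nil)))) (.g (nat_lit 0) (.e (nat_lit 261728) (nat_lit 0) .nil) .nil))) 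
(.lf (nat_lit 537426) (.g (nat_lit 2194) (.e (nat_lit 65617) (nat_lit 10) (.e (nat_lit 344096) (nat_lit 18) (.e (nat_lit 7265) (nat_lit 384) (.e (nat_lit 57409) (nat_lit 12) (.e (nat_lit 336182) (nat_lit 11) (.e (nat_lit 368698) (nat_lit 43) (.e (nat_lit 770072) (nat_lit 8) .nil))))))) (.g (nat_lit 1) (.e (nat_lit 262662) (nat_lit 0) .nil) .nil))))) (.nd (nat_lit 8) (.nd (nat_lit 9) 
(.lf (nat_lit 536786) (.g (nat_lit 1930) (.e (nat_lit 65569) (nat_lit 3) (.e (nat_lit 98342) (nat_lit 20) (.e (nat_lit 221215) (nat_lit 23) (.e (nat_lit 204829) (nat_lit 18) (.e (nat_lit 57931) (nat_lit 282) .nil))))) (.g (nat_lit 0) (.e (nat_lit 261514) (nat_lit 0) .nil) .nil))) 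
(.lf (nat_lit 537298) (.g (nat_lit 1519) (.e (nat_lit 65610) (nat_lit 10) (.e (nat_lit 344117) (nat_lit 21) (.e (nat_lit 516116) (nat_lit 1) (.e (nat_lit 171776) (nat_lit 261) .nil)))) (.g (nat_lit 0) (.e (nat_lit 262385) (nat_lit 0) .nil) .nil)))) (.nd (nat_lit 9) 
(.lf (nat_lit 537042) (.g (nat_lit 3550) (.e (nat_lit 65589) (nat_lit 9) (.e (nat_lit 336013) (nat_lit 2) (.e (nat_lit 90170) (nat_lit 13) (.e (nat_lit 172042) (nat_lit 0) .nil)))) (.g (nat_lit 0) (.e (nat_lit 261921) (nat_lit 0) .nil) .nil))) 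
(.lf (nat_lit 537554) (.g (nat_lit 2569) (.e (nat_lit 65617) (nat_lit 10) (.e (nat_lit 344169) (nat_lit 40) (.e (nat_lit 671764) (nat_lit 6) (.e (nat_lit 81935) (nat_lit 20) (.e (nat_lit 1999) (nat_lit 137) (.e (nat_lit 663567) (nat_lit 4) .nil)))))) (.g (nat_lit 1) (.e (nat_lit 262811) (nat_lit 0) .nil) .nil))))))) (.nd (nat_lit 6) (.nd (nat_lit 7) (.nd (nat_lit 8) (.nd (nat_lit 9) 
(.lf (nat_lit 536626) (.g (nat_lit 2991) (.e (nat_lit 57931) (nat_lit 282) (.e (nat_lit 163905) (nat_lit 12) (.e (nat_lit 426555) (nat_lit 32) (.e (nat_lit 376862) (nat_lit 22) (.e (nat_lit 90158) (nat_lit 11) (.e (nat_lit 24597) (nat_lit 1) .nil)))))) (.g (nat_lit 1) (.e (nat_lit 260829) (nat_lit 0) .nil) .nil))) 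
(.lf (nat_lit 537138) (.g (nat_lit 2571) (.e (nat_lit 65604) (nat_lit 9) (.e (nat_lit 336013) (nat_lit 2) (.e (nat_lit 90133) (nat_lit 9) (.e (nat_lit 3072) (nat_lit 190) .nil)))) (.g (nat_lit 0) (.e (nat_lit 262155) (nat_lit 0) .nil) .nil)))) (.nd (nat_lit 9) 
(.lf (nat_lit 536882) (.g (nat_lit 3911) (.e (nat_lit 65571) (nat_lit 3) (.e (nat_lit 98350) (nat_lit 24) (.e (nat_lit 409641) (nat_lit 17) (.e (nat_lit 294928) (nat_lit 2) (.e (nat_lit 90133) (nat_lit 9) (.e (nat_lit 2397) (nat_lit 157) (.e (nat_lit 7585) (nat_lit 406) .nil))))))) (.g (nat_lit 1) (.e (nat_lit 261657) (nat_lit 0) .nil) .nil))) 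
(.lf (nat_lit 537394) (.g (nat_lit 3768) (.e (nat_lit 65611) (nat_lit 10) (.e (nat_lit 344117) (nat_lit 21) (.e (nat_lit 516139) (nat_lit 7) (.e (nat_lit 409646) (nat_lit 18) (.e (nat_lit 303117) (nat_lit 2) (.e (nat_lit 196666) (nat_lit 13) .nil)))))) (.g (nat_lit 1) (.e (nat_lit 262598) (nat_lit 0) .nil) .nil))))) (.nd (nat_lit 8) (.nd (nat_lit 9) 
(.lf (nat_lit 536754) (.g (nat_lit 4797) (.e (nat_lit 65568) (nat_lit 2) (.e (nat_lit 90170) (nat_lit 13) (.e (nat_lit 172113) (nat_lit 10) (.e (nat_lit 434247) (nat_lit 28) (.e (nat_lit 573474) (nat_lit 12) (.e (nat_lit 57572) (nat_lit 54) (.e (nat_lit 770072) (nat_lit 8) .nil))))))) (.g (nat_lit 1) (.e (nat_lit 261367) (nat_lit 0) .nil) .nil))) 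
(.lf (nat_lit 537266) (.g (nat_lit 682) (.e (nat_lit 73472) (nat_lit 9) (.e (nat_lit 336027) (nat_lit 3) (.e (nat_lit 98387) (nat_lit 33) .nil))) (.g (nat_lit 0) (.e (nat_lit 262322) (nat_lit 0) .nil) .nil)))) (.nd (nat_lit 9) 
(.lf (nat_lit 537010) (.g (nat_lit 2052) (.e (nat_lit 65586) (nat_lit 7) (.e (nat_lit 319531) (nat_lit 16) (.e (nat_lit 286752) (nat_lit 10) (.e (nat_lit 344091) (nat_lit 18) (.e (nat_lit 5566) (nat_lit 308) .nil))))) (.g (nat_lit 0) (.e (nat_lit 261881) (nat_lit 0) .nil) .nil))) 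
(.lf (nat_lit 537522) (.g (nat_lit 1140) (.e (nat_lit 65617) (nat_lit 10) (.e (nat_lit 344132) (nat_lit 26) (.e (nat_lit 557093) (nat_lit 12) (.e (nat_lit 164023) (nat_lit 46) .nil)))) (.g (nat_lit 0) (.e (nat_lit 262775) (nat_lit 0) .nil) .nil)))))) (.nd (nat_lit 7) (.nd (nat_lit 8) (.nd (nat_lit 9) 
(.lf (nat_lit 536690) (.g (nat_lit 885) (.e (nat_lit 57921) (nat_lit 280) (.e (nat_lit 57378) (nat_lit 3) (.e (nat_lit 98384) (nat_lit 32) .nil))) (.g (nat_lit 0) (.e (nat_lit 260990) (nat_lit 0) .nil) .nil))) 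
(.lf (nat_lit 537202) (.g (nat_lit 4086) (.e (nat_lit 65604) (nat_lit 9) (.e (nat_lit 336028) (nat_lit 3) (.e (nat_lit 98359) (nat_lit 26) (.e (nat_lit 426043) (nat_lit 0) (.e (nat_lit 3406) (nat_lit 212) (.e (nat_lit 655373) (nat_lit 3) (.e (nat_lit 163979) (nat_lit 30) (.e (nat_lit 573482) (nat_lit 13) .nil)))))))) (.g (nat_lit 1) (.e (nat_lit 262226) (nat_lit 0) .nil) .nil)))) (.nd (nat_lit 9) 
(.lf (nat_lit 536946) (.g (nat_lit 1855) (.e (nat_lit 65580) (nat_lit 6) (.e (nat_lit 147496) (nat_lit 11) (.e (nat_lit 24626) (nat_lit 9) (.e (nat_lit 336438) (nat_lit 31) (.e (nat_lit 466688) (nat_lit 4) .nil))))) (.g (nat_lit 1) (.e (nat_lit 261776) (nat_lit 0) .nil) .nil))) 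
(.lf (nat_lit 537458) (.g (nat_lit 2627) (.e (nat_lit 65617) (nat_lit 10) (.e (nat_lit 344127) (nat_lit 26) (.e (nat_lit 557090) (nat_lit 12) (.e (nat_lit 163843) (nat_lit 0) (.e (nat_lit 6255) (nat_lit 337) .nil))))) (.g (nat_lit 0) (.e (nat_lit 262697) (nat_lit 0) .nil) .nil))))) (.nd (nat_lit 8) (.nd (nat_lit 9) 
(.lf (nat_lit 536818) (.g (nat_lit 2857) (.e (nat_lit 65571) (nat_lit 3) (.e (nat_lit 98341) (nat_lit 20) (.e (nat_lit 221214) (nat_lit 23) (.e (nat_lit 204829) (nat_lit 18) (.e (nat_lit 57927) (nat_lit 282) (.e (nat_lit 163869) (nat_lit 2) (.e (nat_lit 196664) (nat_lit 13) .nil))))))) (.g (nat_lit 1) (.e (nat_lit 261590) (nat_lit 0) .nil) .nil))) 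
(.lf (nat_lit 537330) (.g (nat_lit 3531) (.e (nat_lit 65610) (nat_lit 10) (.e (nat_lit 344117) (nat_lit 21) (.e (nat_lit 516179) (nat_lit 15) (.e (nat_lit 475198) (nat_lit 40) (.e (nat_lit 704589) (nat_lit 3) (.e (nat_lit 163979) (nat_lit 30) (.e (nat_lit 573483) (nat_lit 13) .nil))))))) (.g (nat_lit 1) (.e (nat_lit 262435) (nat_lit 0) .nil) .nil)))) (.nd (nat_lit 9) 
(.lf (nat_lit 537074) (.g (nat_lit 2355) (.e (nat_lit 65597) (nat_lit 9) (.e (nat_lit 336028) (nat_lit 3) (.e (nat_lit 98350) (nat_lit 24) (.e (nat_lit 409643) (nat_lit 18) .nil)))) (.g (nat_lit 0) (.e (nat_lit 262046) (nat_lit 0) .nil) .nil))) 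
(.lf (nat_lit 537586) (.g (nat_lit 5216) (.e (nat_lit 65619) (nat_lit 10) (.e (nat_lit 344117) (nat_lit 21) (.e (nat_lit 516106) (nat_lit 0) (.e (nat_lit 6986) (nat_lit 377) (.e (nat_lit 2781) (nat_lit 178) (.e (nat_lit 286765) (nat_lit 15) (.e (nat_lit 3308) (nat_lit 202) (.e (nat_lit 573482) (nat_lit 13) .nil)))))))) (.g (nat_lit 1) (.e (nat_lit 262866) (nat_lit 0) .nil) .nil))))))))) 
(.nd (nat_lit 4) (.nd (nat_lit 5) (.nd (nat_lit 6) (.nd (nat_lit 7) (.nd (nat_lit 8) 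
(.nd (nat_lit 9) 
(.lf (nat_lit 536586) (.g (nat_lit 2373) (.e (nat_lit 57931) (nat_lit 282) (.e (nat_lit 163874) (nat_lit 3) (.e (nat_lit 204863) (nat_lit 27) (.e (nat_lit 344117) (nat_lit 21) (.e (nat_lit 516123) (nat_lit 2) .nil))))) (.g (nat_lit 0) (.e (nat_lit 260713) (nat_lit 0) .nil) .nil))) 
(.lf (nat_lit 537098) (.g (nat_lit 3555) (.e (nat_lit 65598) (nat_lit 9) (.e (nat_lit 336013) (nat_lit 2) (.e (nat_lit 90170) (nat_lit 13) (.e (nat_lit 172068) (nat_lit 4) .nil)))) (.g (nat_lit 0) (.e (nat_lit 262082) (nat_lit 0) .nil) .nil)))) (.nd (nat_lit 9) 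
(.lf (nat_lit 536842) (.g (nat_lit 651) (.e (nat_lit 65571) (nat_lit 3) (.e (nat_lit 98342) (nat_lit 20) (.e (nat_lit 221214) (nat_lit 23) .nil))) (.g (nat_lit 0) (.e (nat_lit 261617) (nat_lit 0) .nil) .nil))) 
(.lf (nat_lit 537354) (.g (nat_lit 1626) (.e (nat_lit 65610) (nat_lit 10) (.e (nat_lit 344129) (nat_lit 26) (.e (nat_lit 557067) (nat_lit 9) (.e (nat_lit 2460) (nat_lit 157) .nil)))) (.g (nat_lit 0) (.e (nat_lit 262495) (nat_lit 0) .nil) .nil))))) (.nd (nat_lit 8) (.nd (nat_lit 9) 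
(.lf (nat_lit 536714) (.g (nat_lit 2849) (.e (nat_lit 65563) (nat_lit 1) (.e (nat_lit 57931) (nat_lit 282) (.e (nat_lit 163943) (nat_lit 19) (.e (nat_lit 483344) (nat_lit 17) (.e (nat_lit 6714) (nat_lit 360) .nil))))) (.g (nat_lit 0) (.e (nat_lit 261206) (nat_lit 0) .nil) .nil))) 
(.lf (nat_lit 537226) (.g (nat_lit 4967) (.e (nat_lit 65604) (nat_lit 9) (.e (nat_lit 336028) (nat_lit 3) (.e (nat_lit 98367) (nat_lit 27) (.e (nat_lit 434271) (nat_lit 38) (.e (nat_lit 655375) (nat_lit 3) (.e (nat_lit 163979) (nat_lit 30) (.e (nat_lit 573482) (nat_lit 13) .nil))))))) (.g (nat_lit 1) (.e (nat_lit 262258) (nat_lit 0) .nil) .nil)))) (.nd (nat_lit 9) 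
(.lf (nat_lit 536970) (.g (nat_lit 2082) (.e (nat_lit 65583) (nat_lit 7) (.e (nat_lit 319530) (nat_lit 16) (.e (nat_lit 286748) (nat_lit 9) (.e (nat_lit 336295) (nat_lit 15) (.e (nat_lit 3806) (nat_lit 231) (.e (nat_lit 811033) (nat_lit 11) (.e (nat_lit 852) (nat_lit 74) (.e (nat_lit 770072) (nat_lit 8) .nil)))))))) (.g (nat_lit 1) (.e (nat_lit 261820) (nat_lit 0) .nil) .nil))) 
(.lf (nat_lit 537482) (.g (nat_lit 3139) (.e (nat_lit 65617) (nat_lit 10) (.e (nat_lit 344127) (nat_lit 26) (.e (nat_lit 557090) (nat_lit 12) (.e (nat_lit 164022) (nat_lit 46) (.e (nat_lit 704629) (nat_lit 9) .nil))))) (.g (nat_lit 0) (.e (nat_lit 262723) (nat_lit 0) .nil) .nil)))))) (.nd (nat_lit 7) (.nd (nat_lit 8) (.nd (nat_lit 9) 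
(.lf (nat_lit 536650) (.g (nat_lit 3791) (.e (nat_lit 57931) (nat_lit 282) (.e (nat_lit 163943) (nat_lit 19) (.e (nat_lit 483346) (nat_lit 17) (.e (nat_lit 6712) (nat_lit 360) (.e (nat_lit 163975) (nat_lit 30) (.e (nat_lit 573481) (nat_lit 13) (.e (nat_lit 65563) (nat_lit 1) .nil))))))) (.g (nat_lit 1) (.e (nat_lit 260892) (nat_lit 0) .nil) .nil))) 
(.lf (nat_lit 537162) (.g (nat_lit 5841) (.e (nat_lit 65604) (nat_lit 9) (.e (nat_lit 336013) (nat_lit 2) (.e (nat_lit 90168) (nat_lit 13) (.e (nat_lit 172133) (nat_lit 15) (.e (nat_lit 2059) (nat_lit 142) (.e (nat_lit 704589) (nat_lit 3) (.e (nat_lit 163975) (nat_lit 30) (.e (nat_lit 573481) (nat_lit 13) .nil)))))))) (.g (nat_lit 1) (.e (nat_lit 262179) (nat_lit 0) .nil) .nil)))) 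
(.nd (nat_lit 9) 
(.lf (nat_lit 536906) (.g (nat_lit 1645) (.e (nat_lit 65578) (nat_lit 6) (.e (nat_lit 147492) (nat_lit 11) (.e (nat_lit 24657) (nat_lit 13) (.e (nat_lit 393235) (nat_lit 17) (.e (nat_lit 7936) (nat_lit 406) .nil))))) (.g (nat_lit 1) (.e (nat_lit 261718) (nat_lit 0) .nil) .nil))) 
(.lf (nat_lit 537418) (.g (nat_lit 1967) (.e (nat_lit 65616) (nat_lit 10) (.e (nat_lit 344169) (nat_lit 40) (.e (nat_lit 671764) (nat_lit 6) (.e (nat_lit 81931) (nat_lit 20) (.e (nat_lit 1999) (nat_lit 137) (.e (nat_lit 663567) (nat_lit 4) .nil)))))) (.g (nat_lit 1) (.e (nat_lit 262648) (nat_lit 0) .nil) .nil))))) (.nd (nat_lit 8) (.nd (nat_lit 9) 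
(.lf (nat_lit 536778) (.g (nat_lit 2352) (.e (nat_lit 65569) (nat_lit 3) (.e (nat_lit 98342) (nat_lit 20) (.e (nat_lit 221214) (nat_lit 23) (.e (nat_lit 204829) (nat_lit 18) (.e (nat_lit 57931) (nat_lit 282) .nil))))) (.g (nat_lit 0) (.e (nat_lit 261503) (nat_lit 0) .nil) .nil))) 
(.lf (nat_lit 537290) (.g (nat_lit 3756) (.e (nat_lit 65610) (nat_lit 10) (.e (nat_lit 344117) (nat_lit 21) (.e (nat_lit 516102) (nat_lit 0) (.e (nat_lit 7107) (nat_lit 380) (.e (nat_lit 164362) (nat_lit 246) (.e (nat_lit 2661) (nat_lit 167) (.e (nat_lit 196666) (nat_lit 13) .nil))))))) (.g (nat_lit 1) (.e (nat_lit 262375) (nat_lit 0) .nil) .nil)))) (.nd (nat_lit 9) 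
(.lf (nat_lit 537034) (.g (nat_lit 733) (.e (nat_lit 65589) (nat_lit 9) (.e (nat_lit 336013) (nat_lit 2) (.e (nat_lit 90134) (nat_lit 9) .nil))) (.g (nat_lit 0) (.e (nat_lit 261905) (nat_lit 0) .nil) .nil))) 
(.lf (nat_lit 537546) (.g (nat_lit 4890) (.e (nat_lit 65617) (nat_lit 10) (.e (nat_lit 344133) (nat_lit 26) (.e (nat_lit 557091) (nat_lit 12) (.e (nat_lit 164018) (nat_lit 45) (.e (nat_lit 696344) (nat_lit 8) (.e (nat_lit 172064) (nat_lit 2) (.e (nat_lit 196666) (nat_lit 13) .nil))))))) (.g (nat_lit 1) (.e (nat_lit 262803) (nat_lit 0) .nil) .nil))))))) 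
(.nd (nat_lit 6) (.nd (nat_lit 7) (.nd (nat_lit 8) (.nd (nat_lit 9) 
(.lf (nat_lit 536618) (.g (nat_lit 2896) (.e (nat_lit 57931) (nat_lit 282) (.e (nat_lit 163902) (nat_lit 12) (.e (nat_lit 426555) (nat_lit 32) (.e (nat_lit 376865) (nat_lit 22) (.e (nat_lit 90158) (nat_lit 11) (.e (nat_lit 24600) (nat_lit 1) .nil)))))) (.g (nat_lit 1) (.e (nat_lit 260816) (nat_lit 0) .nil) .nil))) 
(.lf (nat_lit 537130) (.g (nat_lit 2152) (.e (nat_lit 65604) (nat_lit 9) (.e (nat_lit 336013) (nat_lit 2) (.e (nat_lit 90122) (nat_lit 9) .nil))) (.g (nat_lit 0) (.e (nat_lit 262147) (nat_lit 0) .nil) .nil)))) (.nd (nat_lit 9) 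
(.lf (nat_lit 536874) (.g (nat_lit 2601) (.e (nat_lit 65571) (nat_lit 3) (.e (nat_lit 98342) (nat_lit 20) (.e (nat_lit 221215) (nat_lit 23) (.e (nat_lit 204830) (nat_lit 18) (.e (nat_lit 57929) (nat_lit 282) (.e (nat_lit 163869) (nat_lit 2) (.e (nat_lit 196664) (nat_lit 13) .nil))))))) (.g (nat_lit 1) (.e (nat_lit 261649) (nat_lit 0) .nil) .nil))) 
(.lf (nat_lit 537386) (.g (nat_lit 5876) (.e (nat_lit 65610) (nat_lit 10) (.e (nat_lit 344129) (nat_lit 26) (.e (nat_lit 557092) (nat_lit 12) (.e (nat_lit 164023) (nat_lit 46) (.e (nat_lit 704626) (nat_lit 9) (.e (nat_lit 375) (nat_lit 32) (.e (nat_lit 426125) (nat_lit 2) (.e (nat_lit 196666) (nat_lit 13) .nil)))))))) (.g (nat_lit 1) (.e (nat_lit 262586) (nat_lit 0) .nil) .nil))))) 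
(.nd (nat_lit 8) (.nd (nat_lit 9) 
(.lf (nat_lit 536746) (.g (nat_lit 2525) (.e (nat_lit 65568) (nat_lit 2) (.e (nat_lit 90170) (nat_lit 13) (.e (nat_lit 172106) (nat_lit 10) (.e (nat_lit 434242) (nat_lit 28) (.e (nat_lit 573474) (nat_lit 12) .nil))))) (.g (nat_lit 0) (.e (nat_lit 261359) (nat_lit 0) .nil) .nil))) 
(.lf (nat_lit 537258) (.g (nat_lit 4136) (.e (nat_lit 65608) (nat_lit 9) (.e (nat_lit 336021) (nat_lit 3) (.e (nat_lit 98384) (nat_lit 32) (.e (nat_lit 475199) (nat_lit 40) (.e (nat_lit 704589) (nat_lit 3) .nil))))) (.g (nat_lit 0) (.e (nat_lit 262308) (nat_lit 0) .nil) .nil)))) (.nd (nat_lit 9) 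
(.lf (nat_lit 537002) (.g (nat_lit 3046) (.e (nat_lit 65586) (nat_lit 7) (.e (nat_lit 319531) (nat_lit 16) (.e (nat_lit 286748) (nat_lit 9) (.e (nat_lit 336295) (nat_lit 15) (.e (nat_lit 3632) (nat_lit 227) (.e (nat_lit 778568) (nat_lit 15) (.e (nat_lit 65280) (nat_lit 115) (.e (nat_lit 770072) (nat_lit 8) .nil)))))))) (.g (nat_lit 1) (.e (nat_lit 261873) (nat_lit 0) .nil) .nil))) 
(.lf (nat_lit 537514) (.g (nat_lit 2507) (.e (nat_lit 65617) (nat_lit 10) (.e (nat_lit 344130) (nat_lit 26) (.e (nat_lit 557090) (nat_lit 12) (.e (nat_lit 164022) (nat_lit 46) (.e (nat_lit 704629) (nat_lit 9) (.e (nat_lit 452) (nat_lit 33) (.e (nat_lit 434219) (nat_lit 19) (.e (nat_lit 500059) (nat_lit 18) .nil)))))))) (.g (nat_lit 1) (.e (nat_lit 262765) (nat_lit 0) .nil) .nil)))))) 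
(.nd (nat_lit 7) (.nd (nat_lit 8) (.nd (nat_lit 9) 
(.lf (nat_lit 536682) (.g (nat_lit 1998) (.e (nat_lit 57931) (nat_lit 282) (.e (nat_lit 163943) (nat_lit 19) (.e (nat_lit 483412) (nat_lit 27) (.e (nat_lit 401414) (nat_lit 0) .nil)))) (.g (nat_lit 0) (.e (nat_lit 260965) (nat_lit 0) .nil) .nil))) 
(.lf (nat_lit 537194) (.g (nat_lit 2152) (.e (nat_lit 65604) (nat_lit 9) (.e (nat_lit 336013) (nat_lit 2) (.e (nat_lit 90173) (nat_lit 14) .nil))) (.g (nat_lit 0) (.e (nat_lit 262211) (nat_lit 0) .nil) .nil)))) (.nd (nat_lit 9) 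
(.lf (nat_lit 536938) (.g (nat_lit 1757) (.e (nat_lit 65580) (nat_lit 6) (.e (nat_lit 147494) (nat_lit 11) (.e (nat_lit 24625) (nat_lit 9) (.e (nat_lit 336438) (nat_lit 31) (.e (nat_lit 466688) (nat_lit 4) .nil))))) (.g (nat_lit 1) (.e (nat_lit 261763) (nat_lit 0) .nil) .nil))) 
(.lf (nat_lit 537450) (.g (nat_lit 1648) (.e (nat_lit 65617) (nat_lit 10) (.e (nat_lit 344138) (nat_lit 29) (.e (nat_lit 581653) (nat_lit 6) (.e (nat_lit 188434) (nat_lit 20) (.e (nat_lit 3579) (nat_lit 223) (.e (nat_lit 745490) (nat_lit 4) .nil)))))) (.g (nat_lit 1) (.e (nat_lit 262688) (nat_lit 0) .nil) .nil))))) (.nd (nat_lit 8) (.nd (nat_lit 9) 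
(.lf (nat_lit 536810) (.g (nat_lit 1660) (.e (nat_lit 65571) (nat_lit 3) (.e (nat_lit 98335) (nat_lit 18) (.e (nat_lit 164179) (nat_lit 154) (.e (nat_lit 57377) (nat_lit 3) .nil)))) (.g (nat_lit 0) (.e (nat_lit 261581) (nat_lit 0) .nil) .nil))) 
(.lf (nat_lit 537322) (.g (nat_lit 2326) (.e (nat_lit 65610) (nat_lit 10) (.e (nat_lit 344117) (nat_lit 21) (.e (nat_lit 516151) (nat_lit 9) (.e (nat_lit 426410) (nat_lit 15) .nil)))) (.g (nat_lit 0) (.e (nat_lit 262416) (nat_lit 0) .nil) .nil)))) (.nd (nat_lit 9) 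
(.lf (nat_lit 537066) (.g (nat_lit 2249) (.e (nat_lit 65596) (nat_lit 9) (.e (nat_lit 336013) (nat_lit 2) (.e (nat_lit 90165) (nat_lit 12) (.e (nat_lit 164210) (nat_lit 176) .nil)))) (.g (nat_lit 0) (.e (nat_lit 262023) (nat_lit 0) .nil) .nil))) 
(.lf (nat_lit 537578) (.g (nat_lit 2950) (.e (nat_lit 65619) (nat_lit 10) (.e (nat_lit 344115) (nat_lit 20) (.e (nat_lit 507908) (nat_lit 0) (.e (nat_lit 5405) (nat_lit 302) (.e (nat_lit 65637) (nat_lit 15) (.e (nat_lit 3305) (nat_lit 202) (.e (nat_lit 573485) (nat_lit 13) .nil))))))) (.g (nat_lit 1) (.e (nat_lit 262855) (nat_lit 0) .nil) .nil)))))))) 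
(.nd (nat_lit 5) (.nd (nat_lit 6) (.nd (nat_lit 7) (.nd (nat_lit 8) (.nd (nat_lit 9) 
(.lf (nat_lit 536602) (.g (nat_lit 2048) (.e (nat_lit 57931) (nat_lit 282) (.e (nat_lit 163885) (nat_lit 5) (.e (nat_lit 221212) (nat_lit 22) (.e (nat_lit 196653) (nat_lit 11) (.e (nat_lit 16458) (nat_lit 12) (.e (nat_lit 475177) (nat_lit 24) (.e (nat_lit 524032) (nat_lit 18) .nil))))))) (.g (nat_lit 1) (.e (nat_lit 260743) (nat_lit 0) .nil) .nil))) 
(.lf (nat_lit 537114) (.g (nat_lit 3523) (.e (nat_lit 65603) (nat_lit 9) (.e (nat_lit 336013) (nat_lit 2) (.e (nat_lit 90170) (nat_lit 13) (.e (nat_lit 172042) (nat_lit 0) .nil)))) (.g (nat_lit 0) (.e (nat_lit 262117) (nat_lit 0) .nil) .nil)))) (.nd (nat_lit 9) 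
(.lf (nat_lit 536858) (.g (nat_lit 2905) (.e (nat_lit 65571) (nat_lit 3) (.e (nat_lit 98342) (nat_lit 20) (.e (nat_lit 221214) (nat_lit 23) (.e (nat_lit 204830) (nat_lit 18) (.e (nat_lit 57931) (nat_lit 282) (.e (nat_lit 163867) (nat_lit 2) (.e (nat_lit 196664) (nat_lit 13) .nil))))))) (.g (nat_lit 1) (.e (nat_lit 261633) (nat_lit 0) .nil) .nil))) 
(.lf (nat_lit 537370) (.g (nat_lit 2752) (.e (nat_lit 65610) (nat_lit 10) (.e (nat_lit 344129) (nat_lit 26) (.e (nat_lit 557088) (nat_lit 12) (.e (nat_lit 164018) (nat_lit 45) (.e (nat_lit 696344) (nat_lit 8) (.e (nat_lit 172062) (nat_lit 2) (.e (nat_lit 196666) (nat_lit 13) .nil))))))) (.g (nat_lit 1) (.e (nat_lit 262566) (nat_lit 0) .nil) .nil))))) (.nd (nat_lit 8) (.nd (nat_lit 9) 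
(.lf (nat_lit 536730) (.g (nat_lit 2823) (.e (nat_lit 65568) (nat_lit 2) (.e (nat_lit 90170) (nat_lit 13) (.e (nat_lit 172106) (nat_lit 10) (.e (nat_lit 434231) (nat_lit 23) (.e (nat_lit 532570) (nat_lit 17) .nil))))) (.g (nat_lit 0) (.e (nat_lit 261343) (nat_lit 0) .nil) .nil))) 
(.lf (nat_lit 537242) (.g (nat_lit 548) (.e (nat_lit 65604) (nat_lit 9) (.e (nat_lit 336389) (nat_lit 27) (.e (nat_lit 426344) (nat_lit 14) .nil))) (.g (nat_lit 0) (.e (nat_lit 262274) (nat_lit 0) .nil) .nil)))) (.nd (nat_lit 9) 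
(.lf (nat_lit 536986) (.g (nat_lit 1740) (.e (nat_lit 65585) (nat_lit 7) (.e (nat_lit 319526) (nat_lit 15) (.e (nat_lit 278546) (nat_lit 8) (.e (nat_lit 303139) (nat_lit 10) (.e (nat_lit 434268) (nat_lit 36) (.e (nat_lit 639020) (nat_lit 16) .nil)))))) (.g (nat_lit 1) (.e (nat_lit 261849) (nat_lit 0) .nil) .nil))) 
(.lf (nat_lit 537498) (.g (nat_lit 5258) (.e (nat_lit 65617) (nat_lit 10) (.e (nat_lit 344130) (nat_lit 26) (.e (nat_lit 557087) (nat_lit 11) (.e (nat_lit 24623) (nat_lit 9) (.e (nat_lit 336295) (nat_lit 15) (.e (nat_lit 3305) (nat_lit 202) (.e (nat_lit 573484) (nat_lit 13) .nil))))))) (.g (nat_lit 1) (.e (nat_lit 262745) (nat_lit 0) .nil) .nil)))))) 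
(.nd (nat_lit 7) (.nd (nat_lit 8) (.nd (nat_lit 9) 
(.lf (nat_lit 536666) (.g (nat_lit 4039) (.e (nat_lit 57931) (nat_lit 282) (.e (nat_lit 163943) (nat_lit 19) (.e (nat_lit 483372) (nat_lit 21) (.e (nat_lit 319505) (nat_lit 10) (.e (nat_lit 618) (nat_lit 48) (.e (nat_lit 557093) (nat_lit 12) (.e (nat_lit 164239) (nat_lit 187) (.e (nat_lit 1179) (nat_lit 87) .nil)))))))) (.g (nat_lit 1) (.e (nat_lit 260916) (nat_lit 0) .nil) .nil))) 
(.lf (nat_lit 537178) (.g (nat_lit 4361) (.e (nat_lit 65604) (nat_lit 9) (.e (nat_lit 336013) (nat_lit 2) (.e (nat_lit 90170) (nat_lit 13) (.e (nat_lit 172049) (nat_lit 0) (.e (nat_lit 3406) (nat_lit 212) (.e (nat_lit 655373) (nat_lit 3) (.e (nat_lit 163979) (nat_lit 30) (.e (nat_lit 573482) (nat_lit 13) .nil)))))))) (.g (nat_lit 1) (.e (nat_lit 262195) (nat_lit 0) .nil) .nil)))) (.nd (nat_lit 9) 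
(.lf (nat_lit 536922) (.g (nat_lit 2460) (.e (nat_lit 65578) (nat_lit 6) (.e (nat_lit 147495) (nat_lit 11) (.e (nat_lit 24658) (nat_lit 13) (.e (nat_lit 393237) (nat_lit 17) (.e (nat_lit 7936) (nat_lit 406) .nil))))) (.g (nat_lit 1) (.e (nat_lit 261739) (nat_lit 0) .nil) .nil))) 
(.lf (nat_lit 537434) (.g (nat_lit 2686) (.e (nat_lit 65617) (nat_lit 10) (.e (nat_lit 344117) (nat_lit 21) (.e (nat_lit 516139) (nat_lit 7) (.e (nat_lit 409644) (nat_lit 18) .nil)))) (.g (nat_lit 0) (.e (nat_lit 262670) (nat_lit 0) .nil) .nil))))) (.nd (nat_lit 8) (.nd (nat_lit 9) 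
(.lf (nat_lit 536794) (.g (nat_lit 3742) (.e (nat_lit 65569) (nat_lit 3) (.e (nat_lit 98359) (nat_lit 26) (.e (nat_lit 426286) (nat_lit 10) (.e (nat_lit 434247) (nat_lit 28) (.e (nat_lit 573475) (nat_lit 12) (.e (nat_lit 57572) (nat_lit 54) (.e (nat_lit 770071) (nat_lit 8) .nil))))))) (.g (nat_lit 1) (.e (nat_lit 261522) (nat_lit 0) .nil) .nil))) 
(.lf (nat_lit 537306) (.g (nat_lit 4565) (.e (nat_lit 65610) (nat_lit 10) (.e (nat_lit 344117) (nat_lit 21) (.e (nat_lit 516142) (nat_lit 8) (.e (nat_lit 417817) (nat_lit 10) (.e (nat_lit 5612) (nat_lit 312) (.e (nat_lit 2668) (nat_lit 167) (.e (nat_lit 196666) (nat_lit 13) .nil))))))) (.g (nat_lit 1) (.e (nat_lit 262394) (nat_lit 0) .nil) .nil)))) (.nd (nat_lit 9) 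
(.lf (nat_lit 537050) (.g (nat_lit 3474) (.e (nat_lit 65589) (nat_lit 9) (.e (nat_lit 336454) (nat_lit 34) (.e (nat_lit 483365) (nat_lit 18) (.e (nat_lit 57931) (nat_lit 282) .nil)))) (.g (nat_lit 0) (.e (nat_lit 261954) (nat_lit 0) .nil) .nil))) 
(.lf (nat_lit 537562) (.g (nat_lit 4503) (.e (nat_lit 65618) (nat_lit 10) (.e (nat_lit 344117) (nat_lit 21) (.e (nat_lit 516151) (nat_lit 9) (.e (nat_lit 426412) (nat_lit 15) (.e (nat_lit 2056) (nat_lit 142) .nil))))) (.g (nat_lit 0) (.e (nat_lit 262823) (nat_lit 0) .nil) .nil))))))) (.nd (nat_lit 6) (.nd (nat_lit 7) (.nd (nat_lit 8) (.nd (nat_lit 9) 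
(.lf (nat_lit 536634) (.g (nat_lit 2696) (.e (nat_lit 57931) (nat_lit 282) (.e (nat_lit 163923) (nat_lit 15) (.e (nat_lit 450587) (nat_lit 10) (.e (nat_lit 573475) (nat_lit 12) (.e (nat_lit 57516) (nat_lit 42) .nil))))) (.g (nat_lit 0) (.e (nat_lit 260845) (nat_lit 0) .nil) .nil))) 
(.lf (nat_lit 537146) (.g (nat_lit 2152) (.e (nat_lit 65604) (nat_lit 9) (.e (nat_lit 336013) (nat_lit 2) (.e (nat_lit 90138) (nat_lit 9) .nil))) (.g (nat_lit 0) (.e (nat_lit 262163) (nat_lit 0) .nil) .nil)))) (.nd (nat_lit 9) 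
(.lf (nat_lit 536890) (.g (nat_lit 2847) (.e (nat_lit 65571) (nat_lit 3) (.e (nat_lit 98367) (nat_lit 27) (.e (nat_lit 434272) (nat_lit 38) (.e (nat_lit 655375) (nat_lit 3) .nil)))) (.g (nat_lit 0) (.e (nat_lit 261665) (nat_lit 0) .nil) .nil))) 
(.lf (nat_lit 537402) (.g (nat_lit 3764) (.e (nat_lit 65614) (nat_lit 10) (.e (nat_lit 344119) (nat_lit 21) (.e (nat_lit 516139) (nat_lit 7) (.e (nat_lit 409648) (nat_lit 18) (.e (nat_lit 303117) (nat_lit 2) (.e (nat_lit 196666) (nat_lit 13) .nil)))))) (.g (nat_lit 1) (.e (nat_lit 262611) (nat_lit 0) .nil) .nil))))) (.nd (nat_lit 8) (.nd (nat_lit 9) 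
(.lf (nat_lit 536762) (.g (nat_lit 3307) (.e (nat_lit 65569) (nat_lit 3) (.e (nat_lit 98333) (nat_lit 18) (.e (nat_lit 164179) (nat_lit 154) (.e (nat_lit 57378) (nat_lit 3) (.e (nat_lit 98340) (nat_lit 20) .nil))))) (.g (nat_lit 0) (.e (nat_lit 261407) (nat_lit 0) .nil) .nil))) 
(.lf (nat_lit 537274) (.g (nat_lit 1526) (.e (nat_lit 65609) (nat_lit 10) (.e (nat_lit 344133) (nat_lit 26) (.e (nat_lit 557087) (nat_lit 11) (.e (nat_lit 24625) (nat_lit 9) .nil)))) (.g (nat_lit 0) (.e (nat_lit 262337) (nat_lit 0) .nil) .nil)))) (.nd (nat_lit 9) 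
(.lf (nat_lit 537018) (.g (nat_lit 2908) (.e (nat_lit 65586) (nat_lit 7) (.e (nat_lit 319531) (nat_lit 16) (.e (nat_lit 286759) (nat_lit 12) (.e (nat_lit 385094) (nat_lit 49) (.e (nat_lit 778346) (nat_lit 9) (.e (nat_lit 2452) (nat_lit 157) (.e (nat_lit 3613) (nat_lit 226) (.e (nat_lit 770072) (nat_lit 8) .nil)))))))) (.g (nat_lit 1) (.e (nat_lit 261889) (nat_lit 0) .nil) .nil))) 
(.lf (nat_lit 537530) (.g (nat_lit 4333) (.e (nat_lit 65617) (nat_lit 10) (.e (nat_lit 344133) (nat_lit 26) (.e (nat_lit 557085) (nat_lit 11) (.e (nat_lit 24580) (nat_lit 0) (.e (nat_lit 6619) (nat_lit 357) (.e (nat_lit 2668) (nat_lit 167) (.e (nat_lit 196666) (nat_lit 13) .nil))))))) (.g (nat_lit 1) (.e (nat_lit 262785) (nat_lit 0) .nil) .nil)))))) 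
(.nd (nat_lit 7) (.nd (nat_lit 8) (.nd (nat_lit 9) 
(.lf (nat_lit 536698) (.g (nat_lit 810) (.e (nat_lit 65549) (nat_lit 0) (.e (nat_lit 1858) (nat_lit 124) (.e (nat_lit 557056) (nat_lit 0) .nil))) (.g (nat_lit 0) (.e (nat_lit 261147) (nat_lit 0) .nil) .nil))) 
(.lf (nat_lit 537210) (.g (nat_lit 2541) (.e (nat_lit 65604) (nat_lit 9) (.e (nat_lit 336028) (nat_lit 3) (.e (nat_lit 98365) (nat_lit 26) (.e (nat_lit 426107) (nat_lit 1) (.e (nat_lit 164345) (nat_lit 240) .nil))))) (.g (nat_lit 0) (.e (nat_lit 262235) (nat_lit 0) .nil) .nil)))) (.nd (nat_lit 9) 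
(.lf (nat_lit 536954) (.g (nat_lit 2449) (.e (nat_lit 65582) (nat_lit 7) (.e (nat_lit 319534) (nat_lit 16) (.e (nat_lit 286756) (nat_lit 10) (.e (nat_lit 344160) (nat_lit 37) (.e (nat_lit 647190) (nat_lit 9) .nil))))) (.g (nat_lit 0) (.e (nat_lit 261793) (nat_lit 0) .nil) .nil))) 
(.lf (nat_lit 537466) (.g (nat_lit 2777) (.e (nat_lit 65617) (nat_lit 10) (.e (nat_lit 344127) (nat_lit 26) (.e (nat_lit 557090) (nat_lit 12) (.e (nat_lit 163844) (nat_lit 0) (.e (nat_lit 6416) (nat_lit 341) .nil))))) (.g (nat_lit 0) (.e (nat_lit 262706) (nat_lit 0) .nil) .nil))))) (.nd (nat_lit 8) (.nd (nat_lit 9) 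
(.lf (nat_lit 536826) (.g (nat_lit 3128) (.e (nat_lit 65571) (nat_lit 3) (.e (nat_lit 98341) (nat_lit 20) (.e (nat_lit 221214) (nat_lit 23) (.e (nat_lit 204831) (nat_lit 18) (.e (nat_lit 57931) (nat_lit 282) (.e (nat_lit 163869) (nat_lit 2) (.e (nat_lit 196664) (nat_lit 13) .nil))))))) (.g (nat_lit 1) (.e (nat_lit 261598) (nat_lit 0) .nil) .nil))) 
(.lf (nat_lit 537338) (.g (nat_lit 3662) (.e (nat_lit 65610) (nat_lit 10) (.e (nat_lit 344117) (nat_lit 21) (.e (nat_lit 516184) (nat_lit 16) (.e (nat_lit 491554) (nat_lit 9) (.e (nat_lit 336295) (nat_lit 15) (.e (nat_lit 3305) (nat_lit 202) (.e (nat_lit 573484) (nat_lit 13) .nil))))))) (.g (nat_lit 1) (.e (nat_lit 262452) (nat_lit 0) .nil) .nil)))) (.nd (nat_lit 9) 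
(.lf (nat_lit 537082) (.g (nat_lit 2544) (.e (nat_lit 65598) (nat_lit 9) (.e (nat_lit 336013) (nat_lit 2) (.e (nat_lit 90134) (nat_lit 9) (.e (nat_lit 2825) (nat_lit 182) .nil)))) (.g (nat_lit 0) (.e (nat_lit 262066) (nat_lit 0) .nil) .nil))) 
(.lf (nat_lit 537594) (.g (nat_lit 4449) (.e (nat_lit 65619) (nat_lit 10) (.e (nat_lit 344117) (nat_lit 21) (.e (nat_lit 516139) (nat_lit 7) (.e (nat_lit 409617) (nat_lit 10) (.e (nat_lit 5627) (nat_lit 312) (.e (nat_lit 2668) (nat_lit 167) (.e (nat_lit 196666) (nat_lit 13) .nil))))))) (.g (nat_lit 1) (.e (nat_lit 262874) (nat_lit 0) .nil) .nil)))))))))) 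
(.nd (nat_lit 3) (.nd (nat_lit 4) (.nd (nat_lit 5) (.nd (nat_lit 6) (.nd (nat_lit 7) 
(.nd (nat_lit 8) (.nd (nat_lit 9) 
(.lf (nat_lit 536582) (.g (nat_lit 2468) (.e (nat_lit 57931) (nat_lit 282) (.e (nat_lit 163874) (nat_lit 3) (.e (nat_lit 204862) (nat_lit 27) (.e (nat_lit 344117) (nat_lit 21) (.e (nat_lit 516122) (nat_lit 2) .nil))))) (.g (nat_lit 0) (.e (nat_lit 260709) (nat_lit 0) .nil) .nil))) 
(.lf (nat_lit 537094) (.g (nat_lit 3143) (.e (nat_lit 65598) (nat_lit 9) (.e (nat_lit 336013) (nat_lit 2) (.e (nat_lit 90170) (nat_lit 13) (.e (nat_lit 172042) (nat_lit 0) .nil)))) (.g (nat_lit 0) (.e (nat_lit 262078) (nat_lit 0) .nil) .nil)))) (.nd (nat_lit 9) 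
(.lf (nat_lit 536838) (.g (nat_lit 2707) (.e (nat_lit 65571) (nat_lit 3) (.e (nat_lit 98342) (nat_lit 20) (.e (nat_lit 221213) (nat_lit 23) (.e (nat_lit 204829) (nat_lit 18) (.e (nat_lit 57926) (nat_lit 282) (.e (nat_lit 163868) (nat_lit 2) (.e (nat_lit 196663) (nat_lit 13) .nil))))))) (.g (nat_lit 1) (.e (nat_lit 261613) (nat_lit 0) .nil) .nil))) 
(.lf (nat_lit 537350) (.g (nat_lit 1421) (.e (nat_lit 65610) (nat_lit 10) (.e (nat_lit 344129) (nat_lit 26) (.e (nat_lit 557066) (nat_lit 9) (.e (nat_lit 297) (nat_lit 22) .nil)))) (.g (nat_lit 0) (.e (nat_lit 262479) (nat_lit 0) .nil) .nil))))) (.nd (nat_lit 8) (.nd (nat_lit 9) 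
(.lf (nat_lit 536710) (.g (nat_lit 2695) (.e (nat_lit 65563) (nat_lit 1) (.e (nat_lit 57927) (nat_lit 282) (.e (nat_lit 163943) (nat_lit 19) (.e (nat_lit 483344) (nat_lit 17) (.e (nat_lit 6712) (nat_lit 360) .nil))))) (.g (nat_lit 0) (.e (nat_lit 261197) (nat_lit 0) .nil) .nil))) 
(.lf (nat_lit 537222) (.g (nat_lit 2995) (.e (nat_lit 65604) (nat_lit 9) (.e (nat_lit 336028) (nat_lit 3) (.e (nat_lit 98367) (nat_lit 27) (.e (nat_lit 434208) (nat_lit 18) (.e (nat_lit 5537) (nat_lit 306) (.e (nat_lit 2610) (nat_lit 163) (.e (nat_lit 163979) (nat_lit 30) (.e (nat_lit 573482) (nat_lit 13) .nil)))))))) (.g (nat_lit 1) (.e (nat_lit 262251) (nat_lit 0) .nil) .nil)))) 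
(.nd (nat_lit 9) 
(.lf (nat_lit 536966) (.g (nat_lit 2533) (.e (nat_lit 65583) (nat_lit 7) (.e (nat_lit 319530) (nat_lit 16) (.e (nat_lit 286748) (nat_lit 9) (.e (nat_lit 336295) (nat_lit 15) (.e (nat_lit 2442) (nat_lit 157) (.e (nat_lit 7660) (nat_lit 410) (.e (nat_lit 1172) (nat_lit 87) (.e (nat_lit 57572) (nat_lit 54) (.e (nat_lit 770072) (nat_lit 8) .nil))))))))) (.g (nat_lit 1) (.e (nat_lit 261816) (nat_lit 0) .nil) .nil))) 
(.lf (nat_lit 537478) (.g (nat_lit 2046) (.e (nat_lit 65617) (nat_lit 10) (.e (nat_lit 344127) (nat_lit 26) (.e (nat_lit 557090) (nat_lit 12) (.e (nat_lit 164022) (nat_lit 46) .nil)))) (.g (nat_lit 0) (.e (nat_lit 262719) (nat_lit 0) .nil) .nil)))))) (.nd (nat_lit 7) (.nd (nat_lit 8) (.nd (nat_lit 9) 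
(.lf (nat_lit 536646) (.g (nat_lit 3111) (.e (nat_lit 57931) (nat_lit 282) (.e (nat_lit 163943) (nat_lit 19) (.e (nat_lit 483344) (nat_lit 17) (.e (nat_lit 6712) (nat_lit 360) (.e (nat_lit 163975) (nat_lit 30) (.e (nat_lit 573481) (nat_lit 13) (.e (nat_lit 65563) (nat_lit 1) .nil))))))) (.g (nat_lit 1) (.e (nat_lit 260884) (nat_lit 0) .nil) .nil))) 
(.lf (nat_lit 537158) (.g (nat_lit 1691) (.e (nat_lit 65604) (nat_lit 9) (.e (nat_lit 336013) (nat_lit 2) (.e (nat_lit 90166) (nat_lit 13) .nil))) (.g (nat_lit 0) (.e (nat_lit 262175) (nat_lit 0) .nil) .nil)))) (.nd (nat_lit 9) 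
(.lf (nat_lit 536902) (.g (nat_lit 2022) (.e (nat_lit 65577) (nat_lit 5) (.e (nat_lit 139289) (nat_lit 9) (.e (nat_lit 3102) (nat_lit 192) (.e (nat_lit 491558) (nat_lit 10) (.e (nat_lit 344115) (nat_lit 20) (.e (nat_lit 507908) (nat_lit 0) (.e (nat_lit 5401) (nat_lit 302) .nil))))))) (.g (nat_lit 1) (.e (nat_lit 261712) (nat_lit 0) .nil) .nil))) 
(.lf (nat_lit 537414) (.g (nat_lit 2059) (.e (nat_lit 65616) (nat_lit 10) (.e (nat_lit 344133) (nat_lit 26) (.e (nat_lit 557119) (nat_lit 18) (.e (nat_lit 2808) (nat_lit 180) .nil)))) (.g (nat_lit 0) (.e (nat_lit 262640) (nat_lit 0) .nil) .nil))))) (.nd (nat_lit 8) (.nd (nat_lit 9) 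
(.lf (nat_lit 536774) (.g (nat_lit 797) (.e (nat_lit 65569) (nat_lit 3) (.e (nat_lit 98342) (nat_lit 20) (.e (nat_lit 221204) (nat_lit 20) .nil))) (.g (nat_lit 0) (.e (nat_lit 261498) (nat_lit 0) .nil) .nil))) 
(.lf (nat_lit 537286) (.g (nat_lit 3618) (.e (nat_lit 65610) (nat_lit 10) (.e (nat_lit 344117) (nat_lit 21) (.e (nat_lit 516097) (nat_lit 0) (.e (nat_lit 3341) (nat_lit 205) (.e (nat_lit 598059) (nat_lit 16) (.e (nat_lit 172064) (nat_lit 2) (.e (nat_lit 196666) (nat_lit 13) .nil))))))) (.g (nat_lit 1) (.e (nat_lit 262371) (nat_lit 0) .nil) .nil)))) (.nd (nat_lit 9) 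
(.lf (nat_lit 537030) (.g (nat_lit 4655) (.e (nat_lit 65586) (nat_lit 7) (.e (nat_lit 319531) (nat_lit 16) (.e (nat_lit 286762) (nat_lit 14) (.e (nat_lit 401448) (nat_lit 10) (.e (nat_lit 434268) (nat_lit 36) (.e (nat_lit 639020) (nat_lit 16) .nil)))))) (.g (nat_lit 1) (.e (nat_lit 261901) (nat_lit 0) .nil) .nil))) 
(.lf (nat_lit 537542) (.g (nat_lit 2982) (.e (nat_lit 65617) (nat_lit 10) (.e (nat_lit 344133) (nat_lit 26) (.e (nat_lit 557087) (nat_lit 11) (.e (nat_lit 24631) (nat_lit 9) (.e (nat_lit 336295) (nat_lit 15) (.e (nat_lit 3305) (nat_lit 202) (.e (nat_lit 573484) (nat_lit 13) .nil))))))) (.g (nat_lit 1) (.e (nat_lit 262797) (nat_lit 0) .nil) .nil))))))) 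
(.nd (nat_lit 6) (.nd (nat_lit 7) (.nd (nat_lit 8) (.nd (nat_lit 9) 
(.lf (nat_lit 536614) (.g (nat_lit 2811) (.e (nat_lit 57931) (nat_lit 282) (.e (nat_lit 163902) (nat_lit 12) (.e (nat_lit 426555) (nat_lit 32) (.e (nat_lit 376862) (nat_lit 22) (.e (nat_lit 90158) (nat_lit 11) (.e (nat_lit 24600) (nat_lit 1) .nil)))))) (.g (nat_lit 1) (.e (nat_lit 260812) (nat_lit 0) .nil) .nil))) 
(.lf (nat_lit 537126) (.g (nat_lit 2050) (.e (nat_lit 65604) (nat_lit 9) (.e (nat_lit 335997) (nat_lit 1) (.e (nat_lit 57857) (nat_lit 254) (.e (nat_lit 163908) (nat_lit 12) (.e (nat_lit 426285) (nat_lit 10) (.e (nat_lit 434266) (nat_lit 35) (.e (nat_lit 630821) (nat_lit 16) .nil))))))) (.g (nat_lit 1) (.e (nat_lit 262142) (nat_lit 0) .nil) .nil)))) (.nd (nat_lit 9) 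
(.lf (nat_lit 536870) (.g (nat_lit 2442) (.e (nat_lit 65571) (nat_lit 3) (.e (nat_lit 98342) (nat_lit 20) (.e (nat_lit 221215) (nat_lit 23) (.e (nat_lit 204830) (nat_lit 18) (.e (nat_lit 57926) (nat_lit 282) (.e (nat_lit 163869) (nat_lit 2) (.e (nat_lit 196664) (nat_lit 13) .nil))))))) (.g (nat_lit 1) (.e (nat_lit 261645) (nat_lit 0) .nil) .nil))) 
(.lf (nat_lit 537382) (.g (nat_lit 1841) (.e (nat_lit 65610) (nat_lit 10) (.e (nat_lit 344129) (nat_lit 26) (.e (nat_lit 557090) (nat_lit 12) (.e (nat_lit 163844) (nat_lit 0) (.e (nat_lit 6250) (nat_lit 337) .nil))))) (.g (nat_lit 0) (.e (nat_lit 262579) (nat_lit 0) .nil) .nil))))) (.nd (nat_lit 8) (.nd (nat_lit 9) 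
(.lf (nat_lit 536742) (.g (nat_lit 2586) (.e (nat_lit 65568) (nat_lit 2) (.e (nat_lit 90170) (nat_lit 13) (.e (nat_lit 172106) (nat_lit 10) (.e (nat_lit 434231) (nat_lit 23) (.e (nat_lit 540416) (nat_lit 17) (.e (nat_lit 3453) (nat_lit 216) (.e (nat_lit 688177) (nat_lit 16) .nil))))))) (.g (nat_lit 1) (.e (nat_lit 261355) (nat_lit 0) .nil) .nil))) 
(.lf (nat_lit 537254) (.g (nat_lit 3024) (.e (nat_lit 65608) (nat_lit 9) (.e (nat_lit 336021) (nat_lit 3) (.e (nat_lit 98349) (nat_lit 24) (.e (nat_lit 409646) (nat_lit 18) (.e (nat_lit 303117) (nat_lit 2) (.e (nat_lit 196665) (nat_lit 13) .nil)))))) (.g (nat_lit 1) (.e (nat_lit 262304) (nat_lit 0) .nil) .nil)))) (.nd (nat_lit 9) 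
(.lf (nat_lit 536998) (.g (nat_lit 2498) (.e (nat_lit 65586) (nat_lit 7) (.e (nat_lit 319531) (nat_lit 16) (.e (nat_lit 286748) (nat_lit 9) (.e (nat_lit 336295) (nat_lit 15) (.e (nat_lit 2442) (nat_lit 157) (.e (nat_lit 7660) (nat_lit 410) (.e (nat_lit 1171) (nat_lit 87) (.e (nat_lit 57572) (nat_lit 54) (.e (nat_lit 770072) (nat_lit 8) .nil))))))))) (.g (nat_lit 1) (.e (nat_lit 261869) (nat_lit 0) .nil) .nil))) 
(.lf (nat_lit 537510) (.g (nat_lit 187) (.e (nat_lit 65617) (nat_lit 10) (.e (nat_lit 344130) (nat_lit 26) (.e (nat_lit 557090) (nat_lit 12) .nil))) (.g (nat_lit 0) (.e (nat_lit 262758) (nat_lit 0) .nil) .nil)))))) (.nd (nat_lit 7) (.nd (nat_lit 8) (.nd (nat_lit 9) 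
(.lf (nat_lit 536678) (.g (nat_lit 2383) (.e (nat_lit 57931) (nat_lit 282) (.e (nat_lit 163943) (nat_lit 19) (.e (nat_lit 483411) (nat_lit 27) (.e (nat_lit 401414) (nat_lit 0) .nil)))) (.g (nat_lit 0) (.e (nat_lit 260961) (nat_lit 0) .nil) .nil))) 
(.lf (nat_lit 537190) (.g (nat_lit 2588) (.e (nat_lit 65604) (nat_lit 9) (.e (nat_lit 336013) (nat_lit 2) (.e (nat_lit 90170) (nat_lit 13) (.e (nat_lit 172134) (nat_lit 15) .nil)))) (.g (nat_lit 0) (.e (nat_lit 262207) (nat_lit 0) .nil) .nil)))) (.nd (nat_lit 9) 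
(.lf (nat_lit 536934) (.g (nat_lit 837) (.e (nat_lit 65580) (nat_lit 6) (.e (nat_lit 147492) (nat_lit 11) (.e (nat_lit 24657) (nat_lit 13) (.e (nat_lit 401152) (nat_lit 17) .nil)))) (.g (nat_lit 0) (.e (nat_lit 261759) (nat_lit 0) .nil) .nil))) 
(.lf (nat_lit 537446) (.g (nat_lit 1883) (.e (nat_lit 65617) (nat_lit 10) (.e (nat_lit 344120) (nat_lit 21) (.e (nat_lit 516139) (nat_lit 7) (.e (nat_lit 409616) (nat_lit 10) (.e (nat_lit 5627) (nat_lit 312) (.e (nat_lit 2668) (nat_lit 167) (.e (nat_lit 196666) (nat_lit 13) .nil))))))) (.g (nat_lit 1) (.e (nat_lit 262682) (nat_lit 0) .nil) .nil))))) (.nd (nat_lit 8) (.nd (nat_lit 9) 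
(.lf (nat_lit 536806) (.g (nat_lit 369) (.e (nat_lit 65571) (nat_lit 3) (.e (nat_lit 98313) (nat_lit 9) (.e (nat_lit 336011) (nat_lit 2) .nil))) (.g (nat_lit 0) (.e (nat_lit 261557) (nat_lit 0) .nil) .nil))) 
(.lf (nat_lit 537318) (.g (nat_lit 2619) (.e (nat_lit 65610) (nat_lit 10) (.e (nat_lit 344117) (nat_lit 21) (.e (nat_lit 516151) (nat_lit 9) (.e (nat_lit 426102) (nat_lit 1) .nil)))) (.g (nat_lit 0) (.e (nat_lit 262409) (nat_lit 0) .nil) .nil)))) (.nd (nat_lit 9) 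
(.lf (nat_lit 537062) (.g (nat_lit 1046) (.e (nat_lit 65595) (nat_lit 9) (.e (nat_lit 336028) (nat_lit 3) (.e (nat_lit 98350) (nat_lit 24) .nil))) (.g (nat_lit 0) (.e (nat_lit 262015) (nat_lit 0) .nil) .nil))) 
(.lf (nat_lit 537574) (.g (nat_lit 980) (.e (nat_lit 65619) (nat_lit 10) (.e (nat_lit 344097) (nat_lit 18) (.e (nat_lit 5072) (nat_lit 292) (.e (nat_lit 7936) (nat_lit 166) .nil)))) (.g (nat_lit 0) (.e (nat_lit 262841) (nat_lit 0) .nil) .nil)))))))) (.nd (nat_lit 5) (.nd (nat_lit 6) (.nd (nat_lit 7) (.nd (nat_lit 8) (.nd (nat_lit 9) 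
(.lf (nat_lit 536598) (.g (nat_lit 569) (.e (nat_lit 57931) (nat_lit 282) (.e (nat_lit 163885) (nat_lit 5) (.e (nat_lit 221210) (nat_lit 22) .nil))) (.g (nat_lit 0) (.e (nat_lit 260739) (nat_lit 0) .nil) .nil))) 
(.lf (nat_lit 537110) (.g (nat_lit 2060) (.e (nat_lit 65599) (nat_lit 9) (.e (nat_lit 336023) (nat_lit 3) (.e (nat_lit 98350) (nat_lit 24) (.e (nat_lit 409648) (nat_lit 18) (.e (nat_lit 303117) (nat_lit 2) (.e (nat_lit 196666) (nat_lit 13) .nil)))))) (.g (nat_lit 1) (.e (nat_lit 262103) (nat_lit 0) .nil) .nil)))) (.nd (nat_lit 9) 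
(.lf (nat_lit 536854) (.g (nat_lit 3472) (.e (nat_lit 65571) (nat_lit 3) (.e (nat_lit 98342) (nat_lit 20) (.e (nat_lit 221214) (nat_lit 23) (.e (nat_lit 204830) (nat_lit 18) (.e (nat_lit 57927) (nat_lit 282) (.e (nat_lit 163868) (nat_lit 2) (.e (nat_lit 196664) (nat_lit 13) .nil))))))) (.g (nat_lit 1) (.e (nat_lit 261629) (nat_lit 0) .nil) .nil))) 
(.lf (nat_lit 537366) (.g (nat_lit 2522) (.e (nat_lit 65610) (nat_lit 10) (.e (nat_lit 344129) (nat_lit 26) (.e (nat_lit 557088) (nat_lit 12) (.e (nat_lit 164018) (nat_lit 45) (.e (nat_lit 696327) (nat_lit 5) (.e (nat_lit 2884) (nat_lit 184) (.e (nat_lit 426125) (nat_lit 2) (.e (nat_lit 196666) (nat_lit 13) .nil)))))))) (.g (nat_lit 1) (.e (nat_lit 262562) (nat_lit 0) .nil) .nil))))) 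
(.nd (nat_lit 8) (.nd (nat_lit 9) 
(.lf (nat_lit 536726) (.g (nat_lit 1952) (.e (nat_lit 65567) (nat_lit 2) (.e (nat_lit 90170) (nat_lit 13) (.e (nat_lit 172106) (nat_lit 10) (.e (nat_lit 434244) (nat_lit 28) .nil)))) (.g (nat_lit 0) (.e (nat_lit 261323) (nat_lit 0) .nil) .nil))) 
(.lf (nat_lit 537238) (.g (nat_lit 3221) (.e (nat_lit 65604) (nat_lit 9) (.e (nat_lit 336028) (nat_lit 3) (.e (nat_lit 98384) (nat_lit 32) (.e (nat_lit 475199) (nat_lit 40) (.e (nat_lit 704589) (nat_lit 3) (.e (nat_lit 163976) (nat_lit 30) (.e (nat_lit 573481) (nat_lit 13) .nil))))))) (.g (nat_lit 1) (.e (nat_lit 262270) (nat_lit 0) .nil) .nil)))) (.nd (nat_lit 9) 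
(.lf (nat_lit 536982) (.g (nat_lit 136) (.e (nat_lit 65584) (nat_lit 7) (.e (nat_lit 319499) (nat_lit 10) (.e (nat_lit 804) (nat_lit 67) .nil))) (.g (nat_lit 0) (.e (nat_lit 261832) (nat_lit 0) .nil) .nil))) 
(.lf (nat_lit 537494) (.g (nat_lit 4126) (.e (nat_lit 65617) (nat_lit 10) (.e (nat_lit 344130) (nat_lit 26) (.e (nat_lit 557086) (nat_lit 11) (.e (nat_lit 24580) (nat_lit 0) (.e (nat_lit 6619) (nat_lit 357) (.e (nat_lit 2668) (nat_lit 167) (.e (nat_lit 196666) (nat_lit 13) .nil))))))) (.g (nat_lit 1) (.e (nat_lit 262738) (nat_lit 0) .nil) .nil)))))) 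
(.nd (nat_lit 7) (.nd (nat_lit 8) (.nd (nat_lit 9) 
(.lf (nat_lit 536662) (.g (nat_lit 1821) (.e (nat_lit 57931) (nat_lit 282) (.e (nat_lit 163943) (nat_lit 19) (.e (nat_lit 483365) (nat_lit 18) (.e (nat_lit 57854) (nat_lit 252) .nil)))) (.g (nat_lit 0) (.e (nat_lit 260911) (nat_lit 0) .nil) .nil))) 
(.lf (nat_lit 537174) (.g (nat_lit 2603) (.e (nat_lit 65604) (nat_lit 9) (.e (nat_lit 336013) (nat_lit 2) (.e (nat_lit 90170) (nat_lit 13) (.e (nat_lit 172043) (nat_lit 0) .nil)))) (.g (nat_lit 0) (.e (nat_lit 262191) (nat_lit 0) .nil) .nil)))) (.nd (nat_lit 9) 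
(.lf (nat_lit 536918) (.g (nat_lit 520) (.e (nat_lit 65578) (nat_lit 6) (.e (nat_lit 147495) (nat_lit 11) (.e (nat_lit 24654) (nat_lit 13) .nil))) (.g (nat_lit 0) (.e (nat_lit 261735) (nat_lit 0) .nil) .nil))) 
(.lf (nat_lit 537430) (.g (nat_lit 2166) (.e (nat_lit 65617) (nat_lit 10) (.e (nat_lit 344117) (nat_lit 21) (.e (nat_lit 516106) (nat_lit 0) (.e (nat_lit 6998) (nat_lit 377) .nil)))) (.g (nat_lit 0) (.e (nat_lit 262666) (nat_lit 0) .nil) .nil))))) (.nd (nat_lit 8) (.nd (nat_lit 9) 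
(.lf (nat_lit 536790) (.g (nat_lit 4466) (.e (nat_lit 65569) (nat_lit 3) (.e (nat_lit 98342) (nat_lit 20) (.e (nat_lit 221215) (nat_lit 23) (.e (nat_lit 204831) (nat_lit 18) (.e (nat_lit 57931) (nat_lit 282) (.e (nat_lit 163869) (nat_lit 2) (.e (nat_lit 196666) (nat_lit 13) .nil))))))) (.g (nat_lit 1) (.e (nat_lit 261518) (nat_lit 0) .nil) .nil))) 
(.lf (nat_lit 537302) (.g (nat_lit 3714) (.e (nat_lit 65610) (nat_lit 10) (.e (nat_lit 344117) (nat_lit 21) (.e (nat_lit 516138) (nat_lit 7) (.e (nat_lit 409645) (nat_lit 18) (.e (nat_lit 303112) (nat_lit 0) (.e (nat_lit 3107) (nat_lit 193) (.e (nat_lit 500065) (nat_lit 18) .nil))))))) (.g (nat_lit 1) (.e (nat_lit 262390) (nat_lit 0) .nil) .nil)))) (.nd (nat_lit 9) 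
(.lf (nat_lit 537046) (.g (nat_lit 1751) (.e (nat_lit 65589) (nat_lit 9) (.e (nat_lit 336028) (nat_lit 3) (.e (nat_lit 98350) (nat_lit 24) (.e (nat_lit 409617) (nat_lit 10) .nil)))) (.g (nat_lit 0) (.e (nat_lit 261927) (nat_lit 0) .nil) .nil))) 
(.lf (nat_lit 537558) (.g (nat_lit 1709) (.e (nat_lit 65618) (nat_lit 10) (.e (nat_lit 344117) (nat_lit 21) (.e (nat_lit 516106) (nat_lit 0) (.e (nat_lit 7936) (nat_lit 377) .nil)))) (.g (nat_lit 0) (.e (nat_lit 262819) (nat_lit 0) .nil) .nil))))))) (.nd (nat_lit 6) (.nd (nat_lit 7) (.nd (nat_lit 8) (.nd (nat_lit 9) 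
(.lf (nat_lit 536630) (.g (nat_lit 3073) (.e (nat_lit 57931) (nat_lit 282) (.e (nat_lit 163905) (nat_lit 12) (.e (nat_lit 426555) (nat_lit 32) (.e (nat_lit 376869) (nat_lit 23) (.e (nat_lit 98313) (nat_lit 9) (.e (nat_lit 335995) (nat_lit 1) .nil)))))) (.g (nat_lit 1) (.e (nat_lit 260833) (nat_lit 0) .nil) .nil))) 
(.lf (nat_lit 537142) (.g (nat_lit 4126) (.e (nat_lit 65604) (nat_lit 9) (.e (nat_lit 336013) (nat_lit 2) (.e (nat_lit 90134) (nat_lit 9) (.e (nat_lit 3071) (nat_lit 190) (.e (nat_lit 475199) (nat_lit 40) (.e (nat_lit 704589) (nat_lit 3) (.e (nat_lit 163976) (nat_lit 30) (.e (nat_lit 573481) (nat_lit 13) .nil)))))))) (.g (nat_lit 1) (.e (nat_lit 262159) (nat_lit 0) .nil) .nil)))) (.nd (nat_lit 9) 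
(.lf (nat_lit 536886) (.g (nat_lit 4931) (.e (nat_lit 65571) (nat_lit 3) (.e (nat_lit 98359) (nat_lit 26) (.e (nat_lit 426286) (nat_lit 10) (.e (nat_lit 434242) (nat_lit 28) (.e (nat_lit 573474) (nat_lit 12) (.e (nat_lit 57572) (nat_lit 54) (.e (nat_lit 770071) (nat_lit 8) .nil))))))) (.g (nat_lit 1) (.e (nat_lit 261661) (nat_lit 0) .nil) .nil))) 
(.lf (nat_lit 537398) (.g (nat_lit 923) (.e (nat_lit 65611) (nat_lit 10) (.e (nat_lit 344183) (nat_lit 49) (.e (nat_lit 819221) (nat_lit 6) (.e (nat_lit 188440) (nat_lit 20) (.e (nat_lit 3288) (nat_lit 201) (.e (nat_lit 565267) (nat_lit 4) .nil)))))) (.g (nat_lit 1) (.e (nat_lit 262606) (nat_lit 0) .nil) .nil))))) (.nd (nat_lit 8) (.nd (nat_lit 9) 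
(.lf (nat_lit 536758) (.g (nat_lit 935) (.e (nat_lit 65569) (nat_lit 3) (.e (nat_lit 98317) (nat_lit 9) (.e (nat_lit 336293) (nat_lit 15) .nil))) (.g (nat_lit 0) (.e (nat_lit 261384) (nat_lit 0) .nil) .nil))) 
(.lf (nat_lit 537270) (.g (nat_lit 701) (.e (nat_lit 65609) (nat_lit 10) (.e (nat_lit 344117) (nat_lit 21) (.e (nat_lit 516160) (nat_lit 10) .nil))) (.g (nat_lit 0) (.e (nat_lit 262330) (nat_lit 0) .nil) .nil)))) (.nd (nat_lit 9) 
(.lf (nat_lit 537014) (.g (nat_lit 2198) (.e (nat_lit 65586) (nat_lit 7) (.e (nat_lit 319531) (nat_lit 16) (.e (nat_lit 286756) (nat_lit 10) (.e (nat_lit 344094) (nat_lit 18) .nil)))) (.g (nat_lit 0) (.e (nat_lit 261885) (nat_lit 0) .nil) .nil))) 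
(.lf (nat_lit 537526) (.g (nat_lit 1056) (.e (nat_lit 65617) (nat_lit 10) (.e (nat_lit 344133) (nat_lit 26) (.e (nat_lit 557067) (nat_lit 9) .nil))) (.g (nat_lit 0) (.e (nat_lit 262780) (nat_lit 0) .nil) .nil)))))) (.nd (nat_lit 7) (.nd (nat_lit 8) (.nd (nat_lit 9) 
(.lf (nat_lit 536694) (.g (nat_lit 821) (.e (nat_lit 65540) (nat_lit 0) (.e (nat_lit 6681) (nat_lit 357) (.e (nat_lit 3090) (nat_lit 191) (.e (nat_lit 483386) (nat_lit 23) .nil)))) (.g (nat_lit 0) (.e (nat_lit 261133) (nat_lit 0) .nil) .nil))) 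
(.lf (nat_lit 537206) (.g (nat_lit 5477) (.e (nat_lit 65604) (nat_lit 9) (.e (nat_lit 336028) (nat_lit 3) (.e (nat_lit 98359) (nat_lit 26) (.e (nat_lit 426412) (nat_lit 15) (.e (nat_lit 2059) (nat_lit 142) (.e (nat_lit 704589) (nat_lit 3) (.e (nat_lit 163979) (nat_lit 30) (.e (nat_lit 573482) (nat_lit 13) .nil)))))))) (.g (nat_lit 1) (.e (nat_lit 262231) (nat_lit 0) .nil) .nil)))) 
(.nd (nat_lit 9) 
(.lf (nat_lit 536950) (.g (nat_lit 1536) (.e (nat_lit 65582) (nat_lit 7) (.e (nat_lit 319533) (nat_lit 16) (.e (nat_lit 286753) (nat_lit 10) (.e (nat_lit 344160) (nat_lit 37) .nil)))) (.g (nat_lit 0) (.e (nat_lit 261789) (nat_lit 0) .nil) .nil))) 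
(.lf (nat_lit 537462) (.g (nat_lit 2482) (.e (nat_lit 65617) (nat_lit 10) (.e (nat_lit 344127) (nat_lit 26) (.e (nat_lit 557090) (nat_lit 12) (.e (nat_lit 163843) (nat_lit 0) (.e (nat_lit 6421) (nat_lit 341) .nil))))) (.g (nat_lit 0) (.e (nat_lit 262702) (nat_lit 0) .nil) .nil))))) (.nd (nat_lit 8) (.nd (nat_lit 9) 
(.lf (nat_lit 536822) (.g (nat_lit 4321) (.e (nat_lit 65571) (nat_lit 3) (.e (nat_lit 98341) (nat_lit 20) (.e (nat_lit 221214) (nat_lit 23) (.e (nat_lit 204830) (nat_lit 18) (.e (nat_lit 57927) (nat_lit 282) (.e (nat_lit 163868) (nat_lit 2) (.e (nat_lit 196663) (nat_lit 13) .nil))))))) (.g (nat_lit 1) (.e (nat_lit 261594) (nat_lit 0) .nil) .nil))) 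
(.lf (nat_lit 537334) (.g (nat_lit 6807) (.e (nat_lit 65610) (nat_lit 10) (.e (nat_lit 344117) (nat_lit 21) (.e (nat_lit 516179) (nat_lit 15) (.e (nat_lit 475199) (nat_lit 40) (.e (nat_lit 704589) (nat_lit 3) (.e (nat_lit 163978) (nat_lit 30) (.e (nat_lit 573479) (nat_lit 13) .nil))))))) (.g (nat_lit 1) (.e (nat_lit 262440) (nat_lit 0) .nil) .nil)))) (.nd (nat_lit 9) 
(.lf (nat_lit 537078) (.g (nat_lit 939) (.e (nat_lit 65598) (nat_lit 9) (.e (nat_lit 336013) (nat_lit 2) (.e (nat_lit 90121) (nat_lit 9) .nil))) (.g (nat_lit 0) (.e (nat_lit 262059) (nat_lit 0) .nil) .nil))) 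
(.lf (nat_lit 537590) (.g (nat_lit 5116) (.e (nat_lit 65619) (nat_lit 10) (.e (nat_lit 344117) (nat_lit 21) (.e (nat_lit 516138) (nat_lit 7) (.e (nat_lit 409645) (nat_lit 18) (.e (nat_lit 303117) (nat_lit 2) (.e (nat_lit 196666) (nat_lit 13) .nil)))))) (.g (nat_lit 1) (.e (nat_lit 262870) (nat_lit 0) .nil) .nil))))))))) 
(.nd (nat_lit 4) (.nd (nat_lit 5) (.nd (nat_lit 6) (.nd (nat_lit 7) (.nd (nat_lit 8) 
(.nd (nat_lit 9) 
(.lf (nat_lit 536590) (.g (nat_lit 3023) (.e (nat_lit 57931) (nat_lit 282) (.e (nat_lit 163874) (nat_lit 3) (.e (nat_lit 204865) (nat_lit 28) (.e (nat_lit 352277) (nat_lit 11) (.e (nat_lit 426500) (nat_lit 27) (.e (nat_lit 335995) (nat_lit 1) .nil)))))) (.g (nat_lit 1) (.e (nat_lit 260717) (nat_lit 0) .nil) .nil))) 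
(.lf (nat_lit 537102) (.g (nat_lit 3808) (.e (nat_lit 65598) (nat_lit 9) (.e (nat_lit 336013) (nat_lit 2) (.e (nat_lit 90170) (nat_lit 13) (.e (nat_lit 172138) (nat_lit 15) .nil)))) (.g (nat_lit 0) (.e (nat_lit 262086) (nat_lit 0) .nil) .nil)))) (.nd (nat_lit 9) 
(.lf (nat_lit 536846) (.g (nat_lit 3556) (.e (nat_lit 65571) (nat_lit 3) (.e (nat_lit 98342) (nat_lit 20) (.e (nat_lit 221214) (nat_lit 23) (.e (nat_lit 204829) (nat_lit 18) (.e (nat_lit 57927) (nat_lit 282) (.e (nat_lit 163868) (nat_lit 2) (.e (nat_lit 196664) (nat_lit 13) .nil))))))) (.g (nat_lit 1) (.e (nat_lit 261621) (nat_lit 0) .nil) .nil))) 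
(.lf (nat_lit 537358) (.g (nat_lit 4189) (.e (nat_lit 65610) (nat_lit 10) (.e (nat_lit 344129) (nat_lit 26) (.e (nat_lit 557069) (nat_lit 9) (.e (nat_lit 2612) (nat_lit 163) (.e (nat_lit 164187) (nat_lit 157) (.e (nat_lit 229399) (nat_lit 12) (.e (nat_lit 426125) (nat_lit 2) (.e (nat_lit 196666) (nat_lit 13) .nil)))))))) (.g (nat_lit 1) (.e (nat_lit 262515) (nat_lit 0) .nil) .nil))))) 
(.nd (nat_lit 8) (.nd (nat_lit 9) 
(.lf (nat_lit 536718) (.g (nat_lit 2848) (.e (nat_lit 65563) (nat_lit 1) (.e (nat_lit 57931) (nat_lit 282) (.e (nat_lit 163943) (nat_lit 19) (.e (nat_lit 483413) (nat_lit 27) (.e (nat_lit 401413) (nat_lit 0) .nil))))) (.g (nat_lit 0) (.e (nat_lit 261210) (nat_lit 0) .nil) .nil))) 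
(.lf (nat_lit 537230) (.g (nat_lit 2854) (.e (nat_lit 65604) (nat_lit 9) (.e (nat_lit 336028) (nat_lit 3) (.e (nat_lit 98367) (nat_lit 27) (.e (nat_lit 434272) (nat_lit 38) (.e (nat_lit 655367) (nat_lit 0) (.e (nat_lit 2515) (nat_lit 157) (.e (nat_lit 3304) (nat_lit 202) (.e (nat_lit 573485) (nat_lit 13) .nil)))))))) (.g (nat_lit 1) (.e (nat_lit 262262) (nat_lit 0) .nil) .nil)))) (.nd (nat_lit 9) 
(.lf (nat_lit 536974) (.g (nat_lit 3350) (.e (nat_lit 65583) (nat_lit 7) (.e (nat_lit 319530) (nat_lit 16) (.e (nat_lit 286759) (nat_lit 12) (.e (nat_lit 385107) (nat_lit 51) (.e (nat_lit 794638) (nat_lit 20) (.e (nat_lit 3613) (nat_lit 226) (.e (nat_lit 770072) (nat_lit 8) .nil))))))) (.g (nat_lit 1) (.e (nat_lit 261824) (nat_lit 0) .nil) .nil))) 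
(.lf (nat_lit 537486) (.g (nat_lit 1993) (.e (nat_lit 65617) (nat_lit 10) (.e (nat_lit 344127) (nat_lit 26) (.e (nat_lit 557093) (nat_lit 12) (.e (nat_lit 164022) (nat_lit 46) (.e (nat_lit 704629) (nat_lit 9) .nil))))) (.g (nat_lit 0) (.e (nat_lit 262727) (nat_lit 0) .nil) .nil)))))) (.nd (nat_lit 7) (.nd (nat_lit 8) (.nd (nat_lit 9) 
(.lf (nat_lit 536654) (.g (nat_lit 1763) (.e (nat_lit 57931) (nat_lit 282) (.e (nat_lit 163943) (nat_lit 19) (.e (nat_lit 483346) (nat_lit 17) (.e (nat_lit 6714) (nat_lit 360) (.e (nat_lit 163975) (nat_lit 30) .nil))))) (.g (nat_lit 0) (.e (nat_lit 260901) (nat_lit 0) .nil) .nil))) 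
(.lf (nat_lit 537166) (.g (nat_lit 3993) (.e (nat_lit 65604) (nat_lit 9) (.e (nat_lit 336013) (nat_lit 2) (.e (nat_lit 90170) (nat_lit 13) (.e (nat_lit 172039) (nat_lit 0) (.e (nat_lit 3402) (nat_lit 211) (.e (nat_lit 647180) (nat_lit 3) (.e (nat_lit 163979) (nat_lit 30) (.e (nat_lit 573482) (nat_lit 13) .nil)))))))) (.g (nat_lit 1) (.e (nat_lit 262183) (nat_lit 0) .nil) .nil)))) (.nd (nat_lit 9) 
(.lf (nat_lit 536910) (.g (nat_lit 1740) (.e (nat_lit 65578) (nat_lit 6) (.e (nat_lit 147494) (nat_lit 11) (.e (nat_lit 24625) (nat_lit 9) (.e (nat_lit 336438) (nat_lit 31) (.e (nat_lit 466688) (nat_lit 4) .nil))))) (.g (nat_lit 1) (.e (nat_lit 261722) (nat_lit 0) .nil) .nil))) 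
(.lf (nat_lit 537422) (.g (nat_lit 2456) (.e (nat_lit 65617) (nat_lit 10) (.e (nat_lit 344091) (nat_lit 18) (.e (nat_lit 7708) (nat_lit 414) (.e (nat_lit 163908) (nat_lit 12) (.e (nat_lit 426285) (nat_lit 10) (.e (nat_lit 434241) (nat_lit 27) (.e (nat_lit 565267) (nat_lit 4) .nil))))))) (.g (nat_lit 1) (.e (nat_lit 262657) (nat_lit 0) .nil) .nil))))) (.nd (nat_lit 8) (.nd (nat_lit 9) 
(.lf (nat_lit 536782) (.g (nat_lit 2684) (.e (nat_lit 65569) (nat_lit 3) (.e (nat_lit 98342) (nat_lit 20) (.e (nat_lit 221214) (nat_lit 23) (.e (nat_lit 204830) (nat_lit 18) (.e (nat_lit 57931) (nat_lit 282) (.e (nat_lit 163867) (nat_lit 2) (.e (nat_lit 196663) (nat_lit 13) .nil))))))) (.g (nat_lit 1) (.e (nat_lit 261509) (nat_lit 0) .nil) .nil))) 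
(.lf (nat_lit 537294) (.g (nat_lit 3643) (.e (nat_lit 65610) (nat_lit 10) (.e (nat_lit 344117) (nat_lit 21) (.e (nat_lit 516106) (nat_lit 0) (.e (nat_lit 3337) (nat_lit 205) (.e (nat_lit 598061) (nat_lit 16) (.e (nat_lit 172064) (nat_lit 2) (.e (nat_lit 196666) (nat_lit 13) .nil))))))) (.g (nat_lit 1) (.e (nat_lit 262381) (nat_lit 0) .nil) .nil)))) (.nd (nat_lit 9) 
(.lf (nat_lit 537038) (.g (nat_lit 2389) (.e (nat_lit 65589) (nat_lit 9) (.e (nat_lit 336013) (nat_lit 2) (.e (nat_lit 90165) (nat_lit 12) (.e (nat_lit 164210) (nat_lit 176) (.e (nat_lit 7936) (nat_lit 180) .nil))))) (.g (nat_lit 0) (.e (nat_lit 261915) (nat_lit 0) .nil) .nil))) 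
(.lf (nat_lit 537550) (.g (nat_lit 1083) (.e (nat_lit 65617) (nat_lit 10) (.e (nat_lit 344133) (nat_lit 26) (.e (nat_lit 557093) (nat_lit 12) .nil))) (.g (nat_lit 0) (.e (nat_lit 262807) (nat_lit 0) .nil) .nil))))))) (.nd (nat_lit 6) (.nd (nat_lit 7) (.nd (nat_lit 8) (.nd (nat_lit 9) 
(.lf (nat_lit 536622) (.g (nat_lit 2609) (.e (nat_lit 57931) (nat_lit 282) (.e (nat_lit 163902) (nat_lit 12) (.e (nat_lit 426556) (nat_lit 32) (.e (nat_lit 376865) (nat_lit 22) (.e (nat_lit 90160) (nat_lit 11) (.e (nat_lit 24597) (nat_lit 1) .nil)))))) (.g (nat_lit 1) (.e (nat_lit 260820) (nat_lit 0) .nil) .nil))) 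
(.lf (nat_lit 537134) (.g (nat_lit 2469) (.e (nat_lit 65604) (nat_lit 9) (.e (nat_lit 336013) (nat_lit 2) (.e (nat_lit 90127) (nat_lit 9) (.e (nat_lit 3063) (nat_lit 190) .nil)))) (.g (nat_lit 0) (.e (nat_lit 262151) (nat_lit 0) .nil) .nil)))) (.nd (nat_lit 9) 
(.lf (nat_lit 536878) (.g (nat_lit 4638) (.e (nat_lit 65571) (nat_lit 3) (.e (nat_lit 98350) (nat_lit 24) (.e (nat_lit 409617) (nat_lit 10) (.e (nat_lit 5355) (nat_lit 298) (.e (nat_lit 1235) (nat_lit 91) (.e (nat_lit 90133) (nat_lit 9) (.e (nat_lit 2397) (nat_lit 157) (.e (nat_lit 7586) (nat_lit 406) .nil)))))))) (.g (nat_lit 1) (.e (nat_lit 261653) (nat_lit 0) .nil) .nil))) 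
(.lf (nat_lit 537390) (.g (nat_lit 1222) (.e (nat_lit 65610) (nat_lit 10) (.e (nat_lit 344160) (nat_lit 37) (.e (nat_lit 647190) (nat_lit 9) (.e (nat_lit 7936) (nat_lit 34) .nil)))) (.g (nat_lit 0) (.e (nat_lit 262590) (nat_lit 0) .nil) .nil))))) (.nd (nat_lit 8) (.nd (nat_lit 9) 
(.lf (nat_lit 536750) (.g (nat_lit 2529) (.e (nat_lit 65568) (nat_lit 2) (.e (nat_lit 90170) (nat_lit 13) (.e (nat_lit 172113) (nat_lit 10) (.e (nat_lit 434247) (nat_lit 28) (.e (nat_lit 573472) (nat_lit 12) .nil))))) (.g (nat_lit 0) (.e (nat_lit 261363) (nat_lit 0) .nil) .nil))) 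
(.lf (nat_lit 537262) (.g (nat_lit 3091) (.e (nat_lit 65607) (nat_lit 9) (.e (nat_lit 336027) (nat_lit 3) (.e (nat_lit 98367) (nat_lit 27) (.e (nat_lit 434272) (nat_lit 38) (.e (nat_lit 655375) (nat_lit 3) .nil))))) (.g (nat_lit 0) (.e (nat_lit 262314) (nat_lit 0) .nil) .nil)))) (.nd (nat_lit 9) 
(.lf (nat_lit 537006) (.g (nat_lit 2173) (.e (nat_lit 65586) (nat_lit 7) (.e (nat_lit 319531) (nat_lit 16) (.e (nat_lit 286748) (nat_lit 9) (.e (nat_lit 336295) (nat_lit 15) (.e (nat_lit 3784) (nat_lit 230) (.e (nat_lit 802831) (nat_lit 20) (.e (nat_lit 3613) (nat_lit 226) (.e (nat_lit 770072) (nat_lit 8) .nil)))))))) (.g (nat_lit 1) (.e (nat_lit 261877) (nat_lit 0) .nil) .nil))) 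
(.lf (nat_lit 537518) (.g (nat_lit 2464) (.e (nat_lit 65617) (nat_lit 10) (.e (nat_lit 344132) (nat_lit 26) (.e (nat_lit 557085) (nat_lit 11) (.e (nat_lit 24630) (nat_lit 9) (.e (nat_lit 336260) (nat_lit 15) .nil))))) (.g (nat_lit 0) (.e (nat_lit 262770) (nat_lit 0) .nil) .nil)))))) (.nd (nat_lit 7) (.nd (nat_lit 8) (.nd (nat_lit 9) 
(.lf (nat_lit 536686) (.g (nat_lit 2591) (.e (nat_lit 57931) (nat_lit 282) (.e (nat_lit 163943) (nat_lit 19) (.e (nat_lit 483413) (nat_lit 27) (.e (nat_lit 401414) (nat_lit 0) (.e (nat_lit 3304) (nat_lit 202) .nil))))) (.g (nat_lit 0) (.e (nat_lit 260970) (nat_lit 0) .nil) .nil))) 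
(.lf (nat_lit 537198) (.g (nat_lit 3995) (.e (nat_lit 65604) (nat_lit 9) (.e (nat_lit 336028) (nat_lit 3) (.e (nat_lit 98325) (nat_lit 17) (.e (nat_lit 6986) (nat_lit 377) (.e (nat_lit 2782) (nat_lit 178) (.e (nat_lit 286765) (nat_lit 15) (.e (nat_lit 3308) (nat_lit 202) (.e (nat_lit 573482) (nat_lit 13) .nil)))))))) (.g (nat_lit 1) (.e (nat_lit 262216) (nat_lit 0) .nil) .nil)))) (.nd (nat_lit 9) 
(.lf (nat_lit 536942) (.g (nat_lit 1699) (.e (nat_lit 65580) (nat_lit 6) (.e (nat_lit 147495) (nat_lit 11) (.e (nat_lit 24628) (nat_lit 9) (.e (nat_lit 336438) (nat_lit 31) (.e (nat_lit 466688) (nat_lit 4) .nil))))) (.g (nat_lit 1) (.e (nat_lit 261769) (nat_lit 0) .nil) .nil))) 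
(.lf (nat_lit 537454) (.g (nat_lit 1991) (.e (nat_lit 65617) (nat_lit 10) (.e (nat_lit 344127) (nat_lit 26) (.e (nat_lit 557089) (nat_lit 12) (.e (nat_lit 164017) (nat_lit 44) (.e (nat_lit 688141) (nat_lit 5) .nil))))) (.g (nat_lit 0) (.e (nat_lit 262692) (nat_lit 0) .nil) .nil))))) (.nd (nat_lit 8) (.nd (nat_lit 9) 
(.lf (nat_lit 536814) (.g (nat_lit 3525) (.e (nat_lit 65571) (nat_lit 3) (.e (nat_lit 98341) (nat_lit 20) (.e (nat_lit 221213) (nat_lit 23) (.e (nat_lit 204830) (nat_lit 18) (.e (nat_lit 57926) (nat_lit 282) (.e (nat_lit 163868) (nat_lit 2) (.e (nat_lit 196663) (nat_lit 13) .nil))))))) (.g (nat_lit 1) (.e (nat_lit 261586) (nat_lit 0) .nil) .nil))) 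
(.lf (nat_lit 537326) (.g (nat_lit 381) (.e (nat_lit 65610) (nat_lit 10) (.e (nat_lit 344117) (nat_lit 21) (.e (nat_lit 516179) (nat_lit 15) .nil))) (.g (nat_lit 0) (.e (nat_lit 262431) (nat_lit 0) .nil) .nil)))) (.nd (nat_lit 9) 
(.lf (nat_lit 537070) (.g (nat_lit 2243) (.e (nat_lit 65596) (nat_lit 9) (.e (nat_lit 336295) (nat_lit 15) (.e (nat_lit 3305) (nat_lit 202) (.e (nat_lit 573480) (nat_lit 13) .nil)))) (.g (nat_lit 0) (.e (nat_lit 262031) (nat_lit 0) .nil) .nil))) 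
(.lf (nat_lit 537582) (.g (nat_lit 2469) (.e (nat_lit 65619) (nat_lit 10) (.e (nat_lit 344117) (nat_lit 21) (.e (nat_lit 516106) (nat_lit 0) (.e (nat_lit 6986) (nat_lit 377) (.e (nat_lit 2777) (nat_lit 178) (.e (nat_lit 286765) (nat_lit 15) (.e (nat_lit 3296) (nat_lit 202) (.e (nat_lit 573479) (nat_lit 13) .nil)))))))) (.g (nat_lit 1) (.e (nat_lit 262862) (nat_lit 0) .nil) .nil)))))))) 
(.nd (nat_lit 5) (.nd (nat_lit 6) (.nd (nat_lit 7) (.nd (nat_lit 8) (.nd (nat_lit 9) 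
(.lf (nat_lit 536606) (.g (nat_lit 1811) (.e (nat_lit 57931) (nat_lit 282) (.e (nat_lit 163885) (nat_lit 5) (.e (nat_lit 221212) (nat_lit 22) (.e (nat_lit 196655) (nat_lit 11) (.e (nat_lit 16458) (nat_lit 12) (.e (nat_lit 475177) (nat_lit 24) (.e (nat_lit 524032) (nat_lit 18) .nil))))))) (.g (nat_lit 1) (.e (nat_lit 260747) (nat_lit 0) .nil) .nil))) 
(.lf (nat_lit 537118) (.g (nat_lit 4053) (.e (nat_lit 65603) (nat_lit 9) (.e (nat_lit 336028) (nat_lit 3) (.e (nat_lit 98350) (nat_lit 24) (.e (nat_lit 409646) (nat_lit 18) (.e (nat_lit 303117) (nat_lit 2) (.e (nat_lit 196665) (nat_lit 13) .nil)))))) (.g (nat_lit 1) (.e (nat_lit 262121) (nat_lit 0) .nil) .nil)))) (.nd (nat_lit 9) 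
(.lf (nat_lit 536862) (.g (nat_lit 3480) (.e (nat_lit 65571) (nat_lit 3) (.e (nat_lit 98342) (nat_lit 20) (.e (nat_lit 221215) (nat_lit 23) (.e (nat_lit 204829) (nat_lit 18) (.e (nat_lit 57926) (nat_lit 282) (.e (nat_lit 163868) (nat_lit 2) (.e (nat_lit 196663) (nat_lit 13) .nil))))))) (.g (nat_lit 1) (.e (nat_lit 261637) (nat_lit 0) .nil) .nil))) 
(.lf (nat_lit 537374) (.g (nat_lit 3521) (.e (nat_lit 65610) (nat_lit 10) (.e (nat_lit 344129) (nat_lit 26) (.e (nat_lit 557088) (nat_lit 12) (.e (nat_lit 164022) (nat_lit 46) (.e (nat_lit 704629) (nat_lit 9) (.e (nat_lit 375) (nat_lit 32) (.e (nat_lit 426125) (nat_lit 2) (.e (nat_lit 196666) (nat_lit 13) .nil)))))))) (.g (nat_lit 1) (.e (nat_lit 262570) (nat_lit 0) .nil) .nil))))) 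
(.nd (nat_lit 8) (.nd (nat_lit 9) 
(.lf (nat_lit 536734) (.g (nat_lit 2897) (.e (nat_lit 65568) (nat_lit 2) (.e (nat_lit 90170) (nat_lit 13) (.e (nat_lit 172106) (nat_lit 10) (.e (nat_lit 434231) (nat_lit 23) (.e (nat_lit 532576) (nat_lit 17) (.e (nat_lit 3452) (nat_lit 216) (.e (nat_lit 688174) (nat_lit 16) .nil))))))) (.g (nat_lit 1) (.e (nat_lit 261347) (nat_lit 0) .nil) .nil))) 
(.lf (nat_lit 537246) (.g (nat_lit 2587) (.e (nat_lit 65601) (nat_lit 9) (.e (nat_lit 336028) (nat_lit 3) (.e (nat_lit 98349) (nat_lit 24) (.e (nat_lit 409645) (nat_lit 18) (.e (nat_lit 303117) (nat_lit 2) .nil))))) (.g (nat_lit 0) (.e (nat_lit 262280) (nat_lit 0) .nil) .nil)))) (.nd (nat_lit 9) 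
(.lf (nat_lit 536990) (.g (nat_lit 1215) (.e (nat_lit 65585) (nat_lit 7) (.e (nat_lit 319533) (nat_lit 16) (.e (nat_lit 286753) (nat_lit 10) (.e (nat_lit 344090) (nat_lit 18) .nil)))) (.g (nat_lit 0) (.e (nat_lit 261857) (nat_lit 0) .nil) .nil))) 
(.lf (nat_lit 537502) (.g (nat_lit 4217) (.e (nat_lit 65617) (nat_lit 10) (.e (nat_lit 344130) (nat_lit 26) (.e (nat_lit 557087) (nat_lit 11) (.e (nat_lit 24625) (nat_lit 9) (.e (nat_lit 336304) (nat_lit 15) (.e (nat_lit 3304) (nat_lit 202) (.e (nat_lit 573484) (nat_lit 13) .nil))))))) (.g (nat_lit 1) (.e (nat_lit 262749) (nat_lit 0) .nil) .nil)))))) 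
(.nd (nat_lit 7) (.nd (nat_lit 8) (.nd (nat_lit 9) 
(.lf (nat_lit 536670) (.g (nat_lit 2381) (.e (nat_lit 57931) (nat_lit 282) (.e (nat_lit 163943) (nat_lit 19) (.e (nat_lit 483393) (nat_lit 23) (.e (nat_lit 336021) (nat_lit 3) (.e (nat_lit 98316) (nat_lit 9) .nil))))) (.g (nat_lit 0) (.e (nat_lit 260947) (nat_lit 0) .nil) .nil))) 
(.lf (nat_lit 537182) (.g (nat_lit 2613) (.e (nat_lit 65604) (nat_lit 9) (.e (nat_lit 336013) (nat_lit 2) (.e (nat_lit 90170) (nat_lit 13) (.e (nat_lit 172054) (nat_lit 0) .nil)))) (.g (nat_lit 0) (.e (nat_lit 262199) (nat_lit 0) .nil) .nil)))) (.nd (nat_lit 9) 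
(.lf (nat_lit 536926) (.g (nat_lit 1758) (.e (nat_lit 65578) (nat_lit 6) (.e (nat_lit 147496) (nat_lit 11) (.e (nat_lit 24626) (nat_lit 9) (.e (nat_lit 336438) (nat_lit 31) (.e (nat_lit 466688) (nat_lit 4) .nil))))) (.g (nat_lit 1) (.e (nat_lit 261744) (nat_lit 0) .nil) .nil))) 
(.lf (nat_lit 537438) (.g (nat_lit 629) (.e (nat_lit 65617) (nat_lit 10) (.e (nat_lit 344117) (nat_lit 21) (.e (nat_lit 516151) (nat_lit 9) .nil))) (.g (nat_lit 0) (.e (nat_lit 262674) (nat_lit 0) .nil) .nil))))) (.nd (nat_lit 8) (.nd (nat_lit 9) 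
(.lf (nat_lit 536798) (.g (nat_lit 1763) (.e (nat_lit 65570) (nat_lit 3) (.e (nat_lit 98333) (nat_lit 18) (.e (nat_lit 164177) (nat_lit 154) (.e (nat_lit 57379) (nat_lit 3) .nil)))) (.g (nat_lit 0) (.e (nat_lit 261537) (nat_lit 0) .nil) .nil))) 
(.lf (nat_lit 537310) (.g (nat_lit 2624) (.e (nat_lit 65610) (nat_lit 10) (.e (nat_lit 344117) (nat_lit 21) (.e (nat_lit 516151) (nat_lit 9) (.e (nat_lit 426019) (nat_lit 0) .nil)))) (.g (nat_lit 0) (.e (nat_lit 262401) (nat_lit 0) .nil) .nil)))) (.nd (nat_lit 9) 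
(.lf (nat_lit 537054) (.g (nat_lit 747) (.e (nat_lit 65591) (nat_lit 9) (.e (nat_lit 336454) (nat_lit 34) (.e (nat_lit 483365) (nat_lit 18) .nil))) (.g (nat_lit 0) (.e (nat_lit 261999) (nat_lit 0) .nil) .nil))) 
(.lf (nat_lit 537566) (.g (nat_lit 3195) (.e (nat_lit 65618) (nat_lit 10) (.e (nat_lit 344117) (nat_lit 21) (.e (nat_lit 516179) (nat_lit 15) (.e (nat_lit 475197) (nat_lit 40) .nil)))) (.g (nat_lit 0) (.e (nat_lit 262827) (nat_lit 0) .nil) .nil))))))) (.nd (nat_lit 6) (.nd (nat_lit 7) (.nd (nat_lit 8) (.nd (nat_lit 9) 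
(.lf (nat_lit 536638) (.g (nat_lit 1587) (.e (nat_lit 57931) (nat_lit 282) (.e (nat_lit 163931) (nat_lit 17) (.e (nat_lit 466977) (nat_lit 22) (.e (nat_lit 196654) (nat_lit 11) .nil)))) (.g (nat_lit 0) (.e (nat_lit 260849) (nat_lit 0) .nil) .nil))) 
(.lf (nat_lit 537150) (.g (nat_lit 2152) (.e (nat_lit 65604) (nat_lit 9) (.e (nat_lit 336013) (nat_lit 2) (.e (nat_lit 90146) (nat_lit 9) .nil))) (.g (nat_lit 0) (.e (nat_lit 262167) (nat_lit 0) .nil) .nil)))) (.nd (nat_lit 9) 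
(.lf (nat_lit 536894) (.g (nat_lit 3822) (.e (nat_lit 65571) (nat_lit 3) (.e (nat_lit 98374) (nat_lit 29) (.e (nat_lit 450586) (nat_lit 10) (.e (nat_lit 573474) (nat_lit 12) (.e (nat_lit 57572) (nat_lit 54) (.e (nat_lit 770071) (nat_lit 8) .nil)))))) (.g (nat_lit 1) (.e (nat_lit 261671) (nat_lit 0) .nil) .nil))) 
(.lf (nat_lit 537406) (.g (nat_lit 2527) (.e (nat_lit 65615) (nat_lit 10) (.e (nat_lit 344117) (nat_lit 21) (.e (nat_lit 516179) (nat_lit 15) (.e (nat_lit 475199) (nat_lit 40) .nil)))) (.g (nat_lit 0) (.e (nat_lit 262616) (nat_lit 0) .nil) .nil))))) (.nd (nat_lit 8) (.nd (nat_lit 9) 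
(.lf (nat_lit 536766) (.g (nat_lit 440) (.e (nat_lit 65569) (nat_lit 3) (.e (nat_lit 98341) (nat_lit 20) (.e (nat_lit 229120) (nat_lit 3) .nil))) (.g (nat_lit 0) (.e (nat_lit 261490) (nat_lit 0) .nil) .nil))) 
(.lf (nat_lit 537278) (.g (nat_lit 1257) (.e (nat_lit 65609) (nat_lit 10) (.e (nat_lit 344169) (nat_lit 40) (.e (nat_lit 671764) (nat_lit 6) (.e (nat_lit 81935) (nat_lit 20) (.e (nat_lit 1996) (nat_lit 137) .nil))))) (.g (nat_lit 0) (.e (nat_lit 262344) (nat_lit 0) .nil) .nil)))) (.nd (nat_lit 9) 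
(.lf (nat_lit 537022) (.g (nat_lit 2869) (.e (nat_lit 65586) (nat_lit 7) (.e (nat_lit 319531) (nat_lit 16) (.e (nat_lit 286759) (nat_lit 12) (.e (nat_lit 385106) (nat_lit 50) (.e (nat_lit 786436) (nat_lit 0) (.e (nat_lit 3388) (nat_lit 210) (.e (nat_lit 639020) (nat_lit 16) .nil))))))) (.g (nat_lit 1) (.e (nat_lit 261893) (nat_lit 0) .nil) .nil))) 
(.lf (nat_lit 537534) (.g (nat_lit 3769) (.e (nat_lit 65617) (nat_lit 10) (.e (nat_lit 344133) (nat_lit 26) (.e (nat_lit 557086) (nat_lit 11) (.e (nat_lit 24579) (nat_lit 0) (.e (nat_lit 6619) (nat_lit 357) (.e (nat_lit 2668) (nat_lit 167) (.e (nat_lit 196666) (nat_lit 13) .nil))))))) (.g (nat_lit 1) (.e (nat_lit 262789) (nat_lit 0) .nil) .nil)))))) 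
(.nd (nat_lit 7) (.nd (nat_lit 8) (.nd (nat_lit 9) 
(.lf (nat_lit 536702) (.g (nat_lit 4399) (.e (nat_lit 65550) (nat_lit 0) (.e (nat_lit 1788) (nat_lit 119) (.e (nat_lit 516165) (nat_lit 12) (.e (nat_lit 450588) (nat_lit 10) (.e (nat_lit 573474) (nat_lit 12) .nil))))) (.g (nat_lit 0) (.e (nat_lit 261153) (nat_lit 0) .nil) .nil))) 
(.lf (nat_lit 537214) (.g (nat_lit 4290) (.e (nat_lit 65604) (nat_lit 9) (.e (nat_lit 336028) (nat_lit 3) (.e (nat_lit 98366) (nat_lit 27) (.e (nat_lit 434272) (nat_lit 38) (.e (nat_lit 655373) (nat_lit 3) (.e (nat_lit 163979) (nat_lit 30) (.e (nat_lit 573482) (nat_lit 13) .nil))))))) (.g (nat_lit 1) (.e (nat_lit 262240) (nat_lit 0) .nil) .nil)))) (.nd (nat_lit 9) 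
(.lf (nat_lit 536958) (.g (nat_lit 1964) (.e (nat_lit 65583) (nat_lit 7) (.e (nat_lit 319506) (nat_lit 10) (.e (nat_lit 5019) (nat_lit 290) (.e (nat_lit 164359) (nat_lit 246) (.e (nat_lit 2973) (nat_lit 185) (.e (nat_lit 434266) (nat_lit 35) (.e (nat_lit 630821) (nat_lit 16) .nil))))))) (.g (nat_lit 1) (.e (nat_lit 261802) (nat_lit 0) .nil) .nil))) 
(.lf (nat_lit 537470) (.g (nat_lit 2464) (.e (nat_lit 65617) (nat_lit 10) (.e (nat_lit 344127) (nat_lit 26) (.e (nat_lit 557090) (nat_lit 12) (.e (nat_lit 163847) (nat_lit 0) (.e (nat_lit 6254) (nat_lit 337) .nil))))) (.g (nat_lit 0) (.e (nat_lit 262710) (nat_lit 0) .nil) .nil))))) (.nd (nat_lit 8) (.nd (nat_lit 9) 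
(.lf (nat_lit 536830) (.g (nat_lit 3923) (.e (nat_lit 65571) (nat_lit 3) (.e (nat_lit 98341) (nat_lit 20) (.e (nat_lit 221215) (nat_lit 23) (.e (nat_lit 204830) (nat_lit 18) (.e (nat_lit 57926) (nat_lit 282) (.e (nat_lit 163868) (nat_lit 2) (.e (nat_lit 196663) (nat_lit 13) .nil))))))) (.g (nat_lit 1) (.e (nat_lit 261602) (nat_lit 0) .nil) .nil))) 
(.lf (nat_lit 537342) (.g (nat_lit 4047) (.e (nat_lit 65610) (nat_lit 10) (.e (nat_lit 344127) (nat_lit 26) (.e (nat_lit 557090) (nat_lit 12) (.e (nat_lit 164020) (nat_lit 45) (.e (nat_lit 696327) (nat_lit 5) .nil))))) (.g (nat_lit 0) (.e (nat_lit 262464) (nat_lit 0) .nil) .nil)))) (.nd (nat_lit 9) 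
(.lf (nat_lit 537086) (.g (nat_lit 2532) (.e (nat_lit 65598) (nat_lit 9) (.e (nat_lit 336013) (nat_lit 2) (.e (nat_lit 90134) (nat_lit 9) (.e (nat_lit 3071) (nat_lit 190) .nil)))) (.g (nat_lit 0) (.e (nat_lit 262070) (nat_lit 0) .nil) .nil))) 
(.lf (nat_lit 537598) (.g (nat_lit 3981) (.e (nat_lit 65619) (nat_lit 10) (.e (nat_lit 344117) (nat_lit 21) (.e (nat_lit 516143) (nat_lit 9) (.e (nat_lit 426412) (nat_lit 15) (.e (nat_lit 2059) (nat_lit 142) (.e (nat_lit 704589) (nat_lit 3) (.e (nat_lit 163978) (nat_lit 30) (.e (nat_lit 573485) (nat_lit 13) .nil)))))))) (.g (nat_lit 1) (.e (nat_lit 262881) (nat_lit 0) .nil) .nil)))))))))))) 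
(.nd (nat_lit 1) (.nd (nat_lit 2) (.nd (nat_lit 3) (.nd (nat_lit 4) (.nd (nat_lit 5) 
(.nd (nat_lit 6) (.nd (nat_lit 7) (.nd (nat_lit 8) (.nd (nat_lit 9) 
(.lf (nat_lit 536577) (.g (nat_lit 557) (.e (nat_lit 57931) (nat_lit 282) (.e (nat_lit 163874) (nat_lit 3) (.e (nat_lit 204855) (nat_lit 26) .nil))) (.g (nat_lit 0) (.e (nat_lit 260704) (nat_lit 0) .nil) .nil))) 
(.lf (nat_lit 537089) (.g (nat_lit 2246) (.e (nat_lit 65598) (nat_lit 9) (.e (nat_lit 336013) (nat_lit 2) (.e (nat_lit 90165) (nat_lit 12) (.e (nat_lit 164214) (nat_lit 176) .nil)))) (.g (nat_lit 0) (.e (nat_lit 262073) (nat_lit 0) .nil) .nil)))) (.nd (nat_lit 9) 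
(.lf (nat_lit 536833) (.g (nat_lit 2810) (.e (nat_lit 65571) (nat_lit 3) (.e (nat_lit 98341) (nat_lit 20) (.e (nat_lit 221215) (nat_lit 23) (.e (nat_lit 204830) (nat_lit 18) (.e (nat_lit 57927) (nat_lit 282) (.e (nat_lit 163869) (nat_lit 2) (.e (nat_lit 196663) (nat_lit 13) .nil))))))) (.g (nat_lit 1) (.e (nat_lit 261605) (nat_lit 0) .nil) .nil))) 
(.lf (nat_lit 537345) (.g (nat_lit 4056) (.e (nat_lit 65610) (nat_lit 10) (.e (nat_lit 344127) (nat_lit 26) (.e (nat_lit 557090) (nat_lit 12) (.e (nat_lit 164020) (nat_lit 45) (.e (nat_lit 696330) (nat_lit 5) .nil))))) (.g (nat_lit 0) (.e (nat_lit 262467) (nat_lit 0) .nil) .nil))))) (.nd (nat_lit 8) (.nd (nat_lit 9) 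
(.lf (nat_lit 536705) (.g (nat_lit 1262) (.e (nat_lit 65563) (nat_lit 1) (.e (nat_lit 57926) (nat_lit 282) (.e (nat_lit 163941) (nat_lit 19) (.e (nat_lit 483345) (nat_lit 17) .nil)))) (.g (nat_lit 0) (.e (nat_lit 261191) (nat_lit 0) .nil) .nil))) 
(.lf (nat_lit 537217) (.g (nat_lit 374) (.e (nat_lit 65604) (nat_lit 9) (.e (nat_lit 336028) (nat_lit 3) (.e (nat_lit 98367) (nat_lit 27) .nil))) (.g (nat_lit 0) (.e (nat_lit 262243) (nat_lit 0) .nil) .nil)))) (.nd (nat_lit 9) 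
(.lf (nat_lit 536961) (.g (nat_lit 785) (.e (nat_lit 65583) (nat_lit 7) (.e (nat_lit 319526) (nat_lit 15) (.e (nat_lit 278547) (nat_lit 8) (.e (nat_lit 303138) (nat_lit 10) (.e (nat_lit 434266) (nat_lit 35) (.e (nat_lit 630821) (nat_lit 16) .nil)))))) (.g (nat_lit 1) (.e (nat_lit 261808) (nat_lit 0) .nil) .nil))) 
(.lf (nat_lit 537473) (.g (nat_lit 2359) (.e (nat_lit 65617) (nat_lit 10) (.e (nat_lit 344127) (nat_lit 26) (.e (nat_lit 557090) (nat_lit 12) (.e (nat_lit 163850) (nat_lit 0) (.e (nat_lit 6428) (nat_lit 342) .nil))))) (.g (nat_lit 0) (.e (nat_lit 262713) (nat_lit 0) .nil) .nil)))))) (.nd (nat_lit 7) (.nd (nat_lit 8) (.nd (nat_lit 9) 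
(.lf (nat_lit 536641) (.g (nat_lit 1118) (.e (nat_lit 57931) (nat_lit 282) (.e (nat_lit 163932) (nat_lit 17) (.e (nat_lit 466977) (nat_lit 22) (.e (nat_lit 196656) (nat_lit 11) .nil)))) (.g (nat_lit 0) (.e (nat_lit 260855) (nat_lit 0) .nil) .nil))) 
(.lf (nat_lit 537153) (.g (nat_lit 2152) (.e (nat_lit 65604) (nat_lit 9) (.e (nat_lit 336013) (nat_lit 2) (.e (nat_lit 90149) (nat_lit 9) .nil))) (.g (nat_lit 0) (.e (nat_lit 262170) (nat_lit 0) .nil) .nil)))) (.nd (nat_lit 9) 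
(.lf (nat_lit 536897) (.g (nat_lit 3441) (.e (nat_lit 65571) (nat_lit 3) (.e (nat_lit 98389) (nat_lit 33) (.e (nat_lit 491546) (nat_lit 9) (.e (nat_lit 336013) (nat_lit 2) (.e (nat_lit 90133) (nat_lit 9) (.e (nat_lit 2397) (nat_lit 157) (.e (nat_lit 7586) (nat_lit 406) .nil))))))) (.g (nat_lit 1) (.e (nat_lit 261675) (nat_lit 0) .nil) .nil))) 
(.lf (nat_lit 537409) (.g (nat_lit 4455) (.e (nat_lit 65616) (nat_lit 10) (.e (nat_lit 344117) (nat_lit 21) (.e (nat_lit 516151) (nat_lit 9) (.e (nat_lit 426412) (nat_lit 15) (.e (nat_lit 2058) (nat_lit 142) .nil))))) (.g (nat_lit 0) (.e (nat_lit 262632) (nat_lit 0) .nil) .nil))))) (.nd (nat_lit 8) (.nd (nat_lit 9) 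
(.lf (nat_lit 536769) (.g (nat_lit 2480) (.e (nat_lit 65569) (nat_lit 3) (.e (nat_lit 98341) (nat_lit 20) (.e (nat_lit 221214) (nat_lit 23) (.e (nat_lit 204830) (nat_lit 18) (.e (nat_lit 57927) (nat_lit 282) (.e (nat_lit 163868) (nat_lit 2) (.e (nat_lit 196663) (nat_lit 13) .nil))))))) (.g (nat_lit 1) (.e (nat_lit 261493) (nat_lit 0) .nil) .nil))) 
(.lf (nat_lit 537281) (.g (nat_lit 3746) (.e (nat_lit 65609) (nat_lit 10) (.e (nat_lit 344179) (nat_lit 44) (.e (nat_lit 778466) (nat_lit 11) (.e (nat_lit 24617) (nat_lit 7) (.e (nat_lit 319505) (nat_lit 10) (.e (nat_lit 720) (nat_lit 64) (.e (nat_lit 688177) (nat_lit 16) .nil))))))) (.g (nat_lit 1) (.e (nat_lit 262347) (nat_lit 0) .nil) .nil)))) (.nd (nat_lit 9) 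
(.lf (nat_lit 537025) (.g (nat_lit 2538) (.e (nat_lit 65586) (nat_lit 7) (.e (nat_lit 319531) (nat_lit 16) (.e (nat_lit 286759) (nat_lit 12) (.e (nat_lit 385107) (nat_lit 51) (.e (nat_lit 794641) (nat_lit 20) (.e (nat_lit 3615) (nat_lit 226) (.e (nat_lit 770071) (nat_lit 8) .nil))))))) (.g (nat_lit 1) (.e (nat_lit 261896) (nat_lit 0) .nil) .nil))) 
(.lf (nat_lit 537537) (.g (nat_lit 3421) (.e (nat_lit 65617) (nat_lit 10) (.e (nat_lit 344133) (nat_lit 26) (.e (nat_lit 557087) (nat_lit 11) (.e (nat_lit 24625) (nat_lit 9) (.e (nat_lit 336257) (nat_lit 15) (.e (nat_lit 3304) (nat_lit 202) (.e (nat_lit 573484) (nat_lit 13) .nil))))))) (.g (nat_lit 1) (.e (nat_lit 262792) (nat_lit 0) .nil) .nil))))))) 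
(.nd (nat_lit 6) (.nd (nat_lit 7) (.nd (nat_lit 8) (.nd (nat_lit 9) 
(.lf (nat_lit 536609) (.g (nat_lit 344) (.e (nat_lit 57931) (nat_lit 282) (.e (nat_lit 163896) (nat_lit 10) (.e (nat_lit 409648) (nat_lit 18) .nil))) (.g (nat_lit 0) (.e (nat_lit 260779) (nat_lit 0) .nil) .nil))) 
(.lf (nat_lit 537121) (.g (nat_lit 3944) (.e (nat_lit 65604) (nat_lit 9) (.e (nat_lit 335907) (nat_lit 0) (.e (nat_lit 2342) (nat_lit 151) (.e (nat_lit 778466) (nat_lit 11) (.e (nat_lit 24617) (nat_lit 7) (.e (nat_lit 319505) (nat_lit 10) (.e (nat_lit 720) (nat_lit 64) (.e (nat_lit 688178) (nat_lit 16) .nil)))))))) (.g (nat_lit 1) (.e (nat_lit 262124) (nat_lit 0) .nil) .nil)))) (.nd (nat_lit 9) 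
(.lf (nat_lit 536865) (.g (nat_lit 3113) (.e (nat_lit 65571) (nat_lit 3) (.e (nat_lit 98342) (nat_lit 20) (.e (nat_lit 221215) (nat_lit 23) (.e (nat_lit 204829) (nat_lit 18) (.e (nat_lit 57927) (nat_lit 282) (.e (nat_lit 163869) (nat_lit 2) (.e (nat_lit 196663) (nat_lit 13) .nil))))))) (.g (nat_lit 1) (.e (nat_lit 261640) (nat_lit 0) .nil) .nil))) 
(.lf (nat_lit 537377) (.g (nat_lit 2183) (.e (nat_lit 65610) (nat_lit 10) (.e (nat_lit 344129) (nat_lit 26) (.e (nat_lit 557090) (nat_lit 12) (.e (nat_lit 163843) (nat_lit 0) (.e (nat_lit 6250) (nat_lit 337) .nil))))) (.g (nat_lit 0) (.e (nat_lit 262574) (nat_lit 0) .nil) .nil))))) (.nd (nat_lit 8) (.nd (nat_lit 9) 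
(.lf (nat_lit 536737) (.g (nat_lit 3202) (.e (nat_lit 65568) (nat_lit 2) (.e (nat_lit 90170) (nat_lit 13) (.e (nat_lit 172106) (nat_lit 10) (.e (nat_lit 434231) (nat_lit 23) (.e (nat_lit 532577) (nat_lit 17) (.e (nat_lit 3452) (nat_lit 216) (.e (nat_lit 688174) (nat_lit 16) .nil))))))) (.g (nat_lit 1) (.e (nat_lit 261350) (nat_lit 0) .nil) .nil))) 
(.lf (nat_lit 537249) (.g (nat_lit 546) (.e (nat_lit 65602) (nat_lit 9) (.e (nat_lit 335997) (nat_lit 1) (.e (nat_lit 57857) (nat_lit 254) .nil))) (.g (nat_lit 0) (.e (nat_lit 262294) (nat_lit 0) .nil) .nil)))) (.nd (nat_lit 9) 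
(.lf (nat_lit 536993) (.g (nat_lit 2232) (.e (nat_lit 65586) (nat_lit 7) (.e (nat_lit 319518) (nat_lit 12) (.e (nat_lit 32788) (nat_lit 10) (.e (nat_lit 73782) (nat_lit 32) (.e (nat_lit 2664) (nat_lit 167) (.e (nat_lit 196666) (nat_lit 13) .nil)))))) (.g (nat_lit 1) (.e (nat_lit 261862) (nat_lit 0) .nil) .nil))) 
(.lf (nat_lit 537505) (.g (nat_lit 2718) (.e (nat_lit 65617) (nat_lit 10) (.e (nat_lit 344130) (nat_lit 26) (.e (nat_lit 557087) (nat_lit 11) (.e (nat_lit 24627) (nat_lit 9) (.e (nat_lit 336270) (nat_lit 15) (.e (nat_lit 3305) (nat_lit 202) (.e (nat_lit 573484) (nat_lit 13) .nil))))))) (.g (nat_lit 1) (.e (nat_lit 262752) (nat_lit 0) .nil) .nil)))))) 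
(.nd (nat_lit 7) (.nd (nat_lit 8) (.nd (nat_lit 9) 
(.lf (nat_lit 536673) (.g (nat_lit 873) (.e (nat_lit 57931) (nat_lit 282) (.e (nat_lit 163943) (nat_lit 19) (.e (nat_lit 483395) (nat_lit 24) (.e (nat_lit 344133) (nat_lit 26) .nil)))) (.g (nat_lit 0) (.e (nat_lit 260951) (nat_lit 0) .nil) .nil))) 
(.lf (nat_lit 537185) (.g (nat_lit 2582) (.e (nat_lit 65604) (nat_lit 9) (.e (nat_lit 336013) (nat_lit 2) (.e (nat_lit 90170) (nat_lit 13) (.e (nat_lit 172052) (nat_lit 0) .nil)))) (.g (nat_lit 0) (.e (nat_lit 262202) (nat_lit 0) .nil) .nil)))) (.nd (nat_lit 9) 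
(.lf (nat_lit 536929) (.g (nat_lit 2540) (.e (nat_lit 65580) (nat_lit 6) (.e (nat_lit 147492) (nat_lit 11) (.e (nat_lit 24657) (nat_lit 13) (.e (nat_lit 393232) (nat_lit 17) (.e (nat_lit 7587) (nat_lit 406) .nil))))) (.g (nat_lit 1) (.e (nat_lit 261754) (nat_lit 0) .nil) .nil))) 
(.lf (nat_lit 537441) (.g (nat_lit 3079) (.e (nat_lit 65617) (nat_lit 10) (.e (nat_lit 344117) (nat_lit 21) (.e (nat_lit 516151) (nat_lit 9) (.e (nat_lit 426142) (nat_lit 4) .nil)))) (.g (nat_lit 0) (.e (nat_lit 262677) (nat_lit 0) .nil) .nil))))) (.nd (nat_lit 8) (.nd (nat_lit 9) 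
(.lf (nat_lit 536801) (.g (nat_lit 3189) (.e (nat_lit 65570) (nat_lit 3) (.e (nat_lit 98333) (nat_lit 18) (.e (nat_lit 164179) (nat_lit 154) (.e (nat_lit 57377) (nat_lit 3) (.e (nat_lit 98341) (nat_lit 20) .nil))))) (.g (nat_lit 0) (.e (nat_lit 261544) (nat_lit 0) .nil) .nil))) 
(.lf (nat_lit 537313) (.g (nat_lit 3154) (.e (nat_lit 65610) (nat_lit 10) (.e (nat_lit 344117) (nat_lit 21) (.e (nat_lit 516151) (nat_lit 9) (.e (nat_lit 426037) (nat_lit 0) (.e (nat_lit 2458) (nat_lit 157) .nil))))) (.g (nat_lit 0) (.e (nat_lit 262404) (nat_lit 0) .nil) .nil)))) (.nd (nat_lit 9) 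
(.lf (nat_lit 537057) (.g (nat_lit 4145) (.e (nat_lit 65591) (nat_lit 9) (.e (nat_lit 336454) (nat_lit 34) (.e (nat_lit 483365) (nat_lit 18) (.e (nat_lit 57931) (nat_lit 282) .nil)))) (.g (nat_lit 0) (.e (nat_lit 262003) (nat_lit 0) .nil) .nil))) 
(.lf (nat_lit 537569) (.g (nat_lit 2412) (.e (nat_lit 65619) (nat_lit 10) (.e (nat_lit 344090) (nat_lit 18) (.e (nat_lit 7265) (nat_lit 384) (.e (nat_lit 57406) (nat_lit 12) (.e (nat_lit 336182) (nat_lit 11) (.e (nat_lit 368698) (nat_lit 43) (.e (nat_lit 770072) (nat_lit 8) .nil))))))) (.g (nat_lit 1) (.e (nat_lit 262830) (nat_lit 0) .nil) .nil)))))))) 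
(.nd (nat_lit 5) (.nd (nat_lit 6) (.nd (nat_lit 7) (.nd (nat_lit 8) (.nd (nat_lit 9) 
(.lf (nat_lit 536593) (.g (nat_lit 2724) (.e (nat_lit 57931) (nat_lit 282) (.e (nat_lit 163874) (nat_lit 3) (.e (nat_lit 204874) (nat_lit 30) (.e (nat_lit 368676) (nat_lit 21) (.e (nat_lit 516131) (nat_lit 3) .nil))))) (.g (nat_lit 0) (.e (nat_lit 260729) (nat_lit 0) .nil) .nil))) 
(.lf (nat_lit 537105) (.g (nat_lit 1282) (.e (nat_lit 65598) (nat_lit 9) (.e (nat_lit 336013) (nat_lit 2) (.e (nat_lit 90174) (nat_lit 14) .nil))) (.g (nat_lit 0) (.e (nat_lit 262089) (nat_lit 0) .nil) .nil)))) (.nd (nat_lit 9) 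
(.lf (nat_lit 536849) (.g (nat_lit 2851) (.e (nat_lit 65571) (nat_lit 3) (.e (nat_lit 98342) (nat_lit 20) (.e (nat_lit 221214) (nat_lit 23) (.e (nat_lit 204830) (nat_lit 18) (.e (nat_lit 57926) (nat_lit 282) (.e (nat_lit 163867) (nat_lit 2) (.e (nat_lit 196663) (nat_lit 13) .nil))))))) (.g (nat_lit 1) (.e (nat_lit 261624) (nat_lit 0) .nil) .nil))) 
(.lf (nat_lit 537361) (.g (nat_lit 1308) (.e (nat_lit 65610) (nat_lit 10) (.e (nat_lit 344129) (nat_lit 26) (.e (nat_lit 557074) (nat_lit 9) (.e (nat_lit 2607) (nat_lit 163) .nil)))) (.g (nat_lit 0) (.e (nat_lit 262525) (nat_lit 0) .nil) .nil))))) (.nd (nat_lit 8) (.nd (nat_lit 9) 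
(.lf (nat_lit 536721) (.g (nat_lit 2575) (.e (nat_lit 65566) (nat_lit 2) (.e (nat_lit 90170) (nat_lit 13) (.e (nat_lit 172113) (nat_lit 10) (.e (nat_lit 434247) (nat_lit 28) (.e (nat_lit 573472) (nat_lit 12) .nil))))) (.g (nat_lit 0) (.e (nat_lit 261300) (nat_lit 0) .nil) .nil))) 
(.lf (nat_lit 537233) (.g (nat_lit 4998) (.e (nat_lit 65604) (nat_lit 9) (.e (nat_lit 336028) (nat_lit 3) (.e (nat_lit 98367) (nat_lit 27) (.e (nat_lit 434272) (nat_lit 38) (.e (nat_lit 655375) (nat_lit 3) (.e (nat_lit 163979) (nat_lit 30) (.e (nat_lit 573482) (nat_lit 13) .nil))))))) (.g (nat_lit 1) (.e (nat_lit 262265) (nat_lit 0) .nil) .nil)))) (.nd (nat_lit 9) 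
(.lf (nat_lit 536977) (.g (nat_lit 2702) (.e (nat_lit 65583) (nat_lit 7) (.e (nat_lit 319530) (nat_lit 16) (.e (nat_lit 286762) (nat_lit 14) (.e (nat_lit 401447) (nat_lit 10) (.e (nat_lit 434268) (nat_lit 36) (.e (nat_lit 639020) (nat_lit 16) .nil)))))) (.g (nat_lit 1) (.e (nat_lit 261827) (nat_lit 0) .nil) .nil))) 
(.lf (nat_lit 537489) (.g (nat_lit 2487) (.e (nat_lit 65617) (nat_lit 10) (.e (nat_lit 344128) (nat_lit 26) (.e (nat_lit 557090) (nat_lit 12) (.e (nat_lit 164020) (nat_lit 45) (.e (nat_lit 696343) (nat_lit 8) .nil))))) (.g (nat_lit 0) (.e (nat_lit 262730) (nat_lit 0) .nil) .nil)))))) (.nd (nat_lit 7) (.nd (nat_lit 8) (.nd (nat_lit 9) 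
(.lf (nat_lit 536657) (.g (nat_lit 1178) (.e (nat_lit 57931) (nat_lit 282) (.e (nat_lit 163943) (nat_lit 19) (.e (nat_lit 483352) (nat_lit 17) (.e (nat_lit 7936) (nat_lit 360) .nil)))) (.g (nat_lit 0) (.e (nat_lit 260906) (nat_lit 0) .nil) .nil))) 
(.lf (nat_lit 537169) (.g (nat_lit 950) (.e (nat_lit 65604) (nat_lit 9) (.e (nat_lit 336013) (nat_lit 2) (.e (nat_lit 90170) (nat_lit 13) (.e (nat_lit 172042) (nat_lit 0) .nil)))) (.g (nat_lit 0) (.e (nat_lit 262186) (nat_lit 0) .nil) .nil)))) (.nd (nat_lit 9) 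
(.lf (nat_lit 536913) (.g (nat_lit 2099) (.e (nat_lit 65578) (nat_lit 6) (.e (nat_lit 147495) (nat_lit 11) (.e (nat_lit 24625) (nat_lit 9) (.e (nat_lit 336438) (nat_lit 31) (.e (nat_lit 466688) (nat_lit 4) .nil))))) (.g (nat_lit 1) (.e (nat_lit 261727) (nat_lit 0) .nil) .nil))) 
(.lf (nat_lit 537425) (.g (nat_lit 2215) (.e (nat_lit 65617) (nat_lit 10) (.e (nat_lit 344096) (nat_lit 18) (.e (nat_lit 7265) (nat_lit 384) (.e (nat_lit 57409) (nat_lit 12) (.e (nat_lit 336182) (nat_lit 11) (.e (nat_lit 368698) (nat_lit 43) (.e (nat_lit 770071) (nat_lit 8) .nil))))))) (.g (nat_lit 1) (.e (nat_lit 262661) (nat_lit 0) .nil) .nil))))) (.nd (nat_lit 8) (.nd (nat_lit 9) 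
(.lf (nat_lit 536785) (.g (nat_lit 3383) (.e (nat_lit 65569) (nat_lit 3) (.e (nat_lit 98342) (nat_lit 20) (.e (nat_lit 221215) (nat_lit 23) (.e (nat_lit 204828) (nat_lit 18) (.e (nat_lit 57931) (nat_lit 282) (.e (nat_lit 163869) (nat_lit 2) (.e (nat_lit 196666) (nat_lit 13) .nil))))))) (.g (nat_lit 1) (.e (nat_lit 261513) (nat_lit 0) .nil) .nil))) 
(.lf (nat_lit 537297) (.g (nat_lit 3655) (.e (nat_lit 65610) (nat_lit 10) (.e (nat_lit 344117) (nat_lit 21) (.e (nat_lit 516106) (nat_lit 0) (.e (nat_lit 7095) (nat_lit 380) (.e (nat_lit 164362) (nat_lit 246) (.e (nat_lit 2661) (nat_lit 167) (.e (nat_lit 196666) (nat_lit 13) .nil))))))) (.g (nat_lit 1) (.e (nat_lit 262384) (nat_lit 0) .nil) .nil)))) (.nd (nat_lit 9) 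
(.lf (nat_lit 537041) (.g (nat_lit 709) (.e (nat_lit 65589) (nat_lit 9) (.e (nat_lit 336013) (nat_lit 2) (.e (nat_lit 90170) (nat_lit 13) .nil))) (.g (nat_lit 0) (.e (nat_lit 261920) (nat_lit 0) .nil) .nil))) 
(.lf (nat_lit 537553) (.g (nat_lit 2395) (.e (nat_lit 65617) (nat_lit 10) (.e (nat_lit 344169) (nat_lit 40) (.e (nat_lit 671764) (nat_lit 6) (.e (nat_lit 81931) (nat_lit 20) (.e (nat_lit 1999) (nat_lit 137) (.e (nat_lit 663567) (nat_lit 4) .nil)))))) (.g (nat_lit 1) (.e (nat_lit 262810) (nat_lit 0) .nil) .nil))))))) (.nd (nat_lit 6) (.nd (nat_lit 7) (.nd (nat_lit 8) (.nd (nat_lit 9) 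
(.lf (nat_lit 536625) (.g (nat_lit 411) (.e (nat_lit 57931) (nat_lit 282) (.e (nat_lit 163905) (nat_lit 12) (.e (nat_lit 426546) (nat_lit 30) .nil))) (.g (nat_lit 0) (.e (nat_lit 260828) (nat_lit 0) .nil) .nil))) 
(.lf (nat_lit 537137) (.g (nat_lit 2117) (.e (nat_lit 65604) (nat_lit 9) (.e (nat_lit 336013) (nat_lit 2) (.e (nat_lit 90133) (nat_lit 9) .nil))) (.g (nat_lit 0) (.e (nat_lit 262154) (nat_lit 0) .nil) .nil)))) (.nd (nat_lit 9) 
(.lf (nat_lit 536881) (.g (nat_lit 1330) (.e (nat_lit 65571) (nat_lit 3) (.e (nat_lit 98350) (nat_lit 24) (.e (nat_lit 409623) (nat_lit 10) (.e (nat_lit 5761) (nat_lit 315) .nil)))) (.g (nat_lit 0) (.e (nat_lit 261656) (nat_lit 0) .nil) .nil))) 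
(.lf (nat_lit 537393) (.g (nat_lit 3127) (.e (nat_lit 65611) (nat_lit 10) (.e (nat_lit 344117) (nat_lit 21) (.e (nat_lit 516139) (nat_lit 7) (.e (nat_lit 409645) (nat_lit 18) .nil)))) (.g (nat_lit 0) (.e (nat_lit 262597) (nat_lit 0) .nil) .nil))))) (.nd (nat_lit 8) (.nd (nat_lit 9) 
(.lf (nat_lit 536753) (.g (nat_lit 2732) (.e (nat_lit 65568) (nat_lit 2) (.e (nat_lit 90170) (nat_lit 13) (.e (nat_lit 172113) (nat_lit 10) (.e (nat_lit 434247) (nat_lit 28) (.e (nat_lit 573473) (nat_lit 12) (.e (nat_lit 57572) (nat_lit 54) (.e (nat_lit 770071) (nat_lit 8) .nil))))))) (.g (nat_lit 1) (.e (nat_lit 261366) (nat_lit 0) .nil) .nil))) 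
(.lf (nat_lit 537265) (.g (nat_lit 3603) (.e (nat_lit 73472) (nat_lit 9) (.e (nat_lit 336027) (nat_lit 3) (.e (nat_lit 98384) (nat_lit 32) (.e (nat_lit 475199) (nat_lit 40) (.e (nat_lit 704589) (nat_lit 3) .nil))))) (.g (nat_lit 0) (.e (nat_lit 262321) (nat_lit 0) .nil) .nil)))) (.nd (nat_lit 9) 
(.lf (nat_lit 537009) (.g (nat_lit 1940) (.e (nat_lit 65586) (nat_lit 7) (.e (nat_lit 319531) (nat_lit 16) (.e (nat_lit 286748) (nat_lit 9) (.e (nat_lit 336295) (nat_lit 15) (.e (nat_lit 3806) (nat_lit 231) (.e (nat_lit 811042) (nat_lit 11) (.e (nat_lit 7936) (nat_lit 74) (.e (nat_lit 770072) (nat_lit 8) .nil)))))))) (.g (nat_lit 1) (.e (nat_lit 261880) (nat_lit 0) .nil) .nil))) 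
(.lf (nat_lit 537521) (.g (nat_lit 5452) (.e (nat_lit 65617) (nat_lit 10) (.e (nat_lit 344132) (nat_lit 26) (.e (nat_lit 557093) (nat_lit 12) (.e (nat_lit 164022) (nat_lit 46) (.e (nat_lit 704629) (nat_lit 9) (.e (nat_lit 442) (nat_lit 33) (.e (nat_lit 434217) (nat_lit 19) (.e (nat_lit 500065) (nat_lit 18) .nil)))))))) (.g (nat_lit 1) (.e (nat_lit 262774) (nat_lit 0) .nil) .nil)))))) 
(.nd (nat_lit 7) (.nd (nat_lit 8) (.nd (nat_lit 9) 
(.lf (nat_lit 536689) (.g (nat_lit 1884) (.e (nat_lit 57931) (nat_lit 282) (.e (nat_lit 163946) (nat_lit 20) (.e (nat_lit 491566) (nat_lit 12) (.e (nat_lit 385093) (nat_lit 49) (.e (nat_lit 778326) (nat_lit 6) .nil))))) (.g (nat_lit 0) (.e (nat_lit 260973) (nat_lit 0) .nil) .nil))) 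
(.lf (nat_lit 537201) (.g (nat_lit 3671) (.e (nat_lit 65604) (nat_lit 9) (.e (nat_lit 336028) (nat_lit 3) (.e (nat_lit 98359) (nat_lit 26) (.e (nat_lit 426023) (nat_lit 0) (.e (nat_lit 3402) (nat_lit 211) (.e (nat_lit 647180) (nat_lit 3) (.e (nat_lit 163979) (nat_lit 30) (.e (nat_lit 573482) (nat_lit 13) .nil)))))))) (.g (nat_lit 1) (.e (nat_lit 262225) (nat_lit 0) .nil) .nil)))) (.nd (nat_lit 9) 
(.lf (nat_lit 536945) (.g (nat_lit 2564) (.e (nat_lit 65580) (nat_lit 6) (.e (nat_lit 147496) (nat_lit 11) (.e (nat_lit 24625) (nat_lit 9) (.e (nat_lit 336438) (nat_lit 31) (.e (nat_lit 466688) (nat_lit 4) .nil))))) (.g (nat_lit 1) (.e (nat_lit 261775) (nat_lit 0) .nil) .nil))) 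
(.lf (nat_lit 537457) (.g (nat_lit 2603) (.e (nat_lit 65617) (nat_lit 10) (.e (nat_lit 344127) (nat_lit 26) (.e (nat_lit 557090) (nat_lit 12) (.e (nat_lit 163843) (nat_lit 0) (.e (nat_lit 6254) (nat_lit 337) .nil))))) (.g (nat_lit 0) (.e (nat_lit 262696) (nat_lit 0) .nil) .nil))))) (.nd (nat_lit 8) (.nd (nat_lit 9) 
(.lf (nat_lit 536817) (.g (nat_lit 2947) (.e (nat_lit 65571) (nat_lit 3) (.e (nat_lit 98341) (nat_lit 20) (.e (nat_lit 221214) (nat_lit 23) (.e (nat_lit 204829) (nat_lit 18) (.e (nat_lit 57927) (nat_lit 282) (.e (nat_lit 163869) (nat_lit 2) (.e (nat_lit 196663) (nat_lit 13) .nil))))))) (.g (nat_lit 1) (.e (nat_lit 261589) (nat_lit 0) .nil) .nil))) 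
(.lf (nat_lit 537329) (.g (nat_lit 3633) (.e (nat_lit 65610) (nat_lit 10) (.e (nat_lit 344117) (nat_lit 21) (.e (nat_lit 516179) (nat_lit 15) (.e (nat_lit 475198) (nat_lit 40) (.e (nat_lit 704589) (nat_lit 3) (.e (nat_lit 163979) (nat_lit 30) (.e (nat_lit 573480) (nat_lit 13) .nil))))))) (.g (nat_lit 1) (.e (nat_lit 262434) (nat_lit 0) .nil) .nil)))) (.nd (nat_lit 9) 
(.lf (nat_lit 537073) (.g (nat_lit 3523) (.e (nat_lit 65597) (nat_lit 9) (.e (nat_lit 336013) (nat_lit 2) (.e (nat_lit 90170) (nat_lit 13) (.e (nat_lit 172042) (nat_lit 0) .nil)))) (.g (nat_lit 0) (.e (nat_lit 262045) (nat_lit 0) .nil) .nil))) 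
(.lf (nat_lit 537585) (.g (nat_lit 2992) (.e (nat_lit 65619) (nat_lit 10) (.e (nat_lit 344117) (nat_lit 21) (.e (nat_lit 516106) (nat_lit 0) (.e (nat_lit 6986) (nat_lit 377) (.e (nat_lit 2781) (nat_lit 178) (.e (nat_lit 286765) (nat_lit 15) (.e (nat_lit 3296) (nat_lit 202) (.e (nat_lit 573485) (nat_lit 13) .nil)))))))) (.g (nat_lit 1) (.e (nat_lit 262865) (nat_lit 0) .nil) .nil))))))))) 
(.nd (nat_lit 4) (.nd (nat_lit 5) (.nd (nat_lit 6) (.nd (nat_lit 7) (.nd (nat_lit 8) 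
(.nd (nat_lit 9) 
(.lf (nat_lit 536585) (.g (nat_lit 4052) (.e (nat_lit 57931) (nat_lit 282) (.e (nat_lit 163874) (nat_lit 3) (.e (nat_lit 204863) (nat_lit 27) (.e (nat_lit 344117) (nat_lit 21) (.e (nat_lit 516099) (nat_lit 0) (.e (nat_lit 3771) (nat_lit 229) (.e (nat_lit 794673) (nat_lit 23) (.e (nat_lit 204831) (nat_lit 18) .nil)))))))) (.g (nat_lit 1) (.e (nat_lit 260712) (nat_lit 0) .nil) .nil))) 
(.lf (nat_lit 537097) (.g (nat_lit 3595) (.e (nat_lit 65598) (nat_lit 9) (.e (nat_lit 336013) (nat_lit 2) (.e (nat_lit 90170) (nat_lit 13) (.e (nat_lit 172061) (nat_lit 1) .nil)))) (.g (nat_lit 0) (.e (nat_lit 262081) (nat_lit 0) .nil) .nil)))) (.nd (nat_lit 9) 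
(.lf (nat_lit 536841) (.g (nat_lit 3588) (.e (nat_lit 65571) (nat_lit 3) (.e (nat_lit 98342) (nat_lit 20) (.e (nat_lit 221213) (nat_lit 23) (.e (nat_lit 204830) (nat_lit 18) (.e (nat_lit 57926) (nat_lit 282) (.e (nat_lit 163868) (nat_lit 2) (.e (nat_lit 196663) (nat_lit 13) .nil))))))) (.g (nat_lit 1) (.e (nat_lit 261616) (nat_lit 0) .nil) .nil))) 
(.lf (nat_lit 537353) (.g (nat_lit 2291) (.e (nat_lit 65610) (nat_lit 10) (.e (nat_lit 344129) (nat_lit 26) (.e (nat_lit 557067) (nat_lit 9) (.e (nat_lit 2433) (nat_lit 157) (.e (nat_lit 3460) (nat_lit 216) (.e (nat_lit 688138) (nat_lit 5) (.e (nat_lit 2887) (nat_lit 184) (.e (nat_lit 426125) (nat_lit 2) (.e (nat_lit 196666) (nat_lit 13) .nil))))))))) (.g (nat_lit 1) (.e (nat_lit 262489) (nat_lit 0) .nil) .nil))))) 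
(.nd (nat_lit 8) (.nd (nat_lit 9) 
(.lf (nat_lit 536713) (.g (nat_lit 2063) (.e (nat_lit 65563) (nat_lit 1) (.e (nat_lit 57931) (nat_lit 282) (.e (nat_lit 163943) (nat_lit 19) (.e (nat_lit 483342) (nat_lit 17) .nil)))) (.g (nat_lit 0) (.e (nat_lit 261205) (nat_lit 0) .nil) .nil))) 
(.lf (nat_lit 537225) (.g (nat_lit 4444) (.e (nat_lit 65604) (nat_lit 9) (.e (nat_lit 336028) (nat_lit 3) (.e (nat_lit 98367) (nat_lit 27) (.e (nat_lit 434271) (nat_lit 38) (.e (nat_lit 655373) (nat_lit 3) (.e (nat_lit 163979) (nat_lit 30) (.e (nat_lit 573482) (nat_lit 13) .nil))))))) (.g (nat_lit 1) (.e (nat_lit 262257) (nat_lit 0) .nil) .nil)))) (.nd (nat_lit 9) 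
(.lf (nat_lit 536969) (.g (nat_lit 2358) (.e (nat_lit 65583) (nat_lit 7) (.e (nat_lit 319530) (nat_lit 16) (.e (nat_lit 286748) (nat_lit 9) (.e (nat_lit 336295) (nat_lit 15) (.e (nat_lit 3784) (nat_lit 230) (.e (nat_lit 802829) (nat_lit 20) (.e (nat_lit 3613) (nat_lit 226) (.e (nat_lit 770072) (nat_lit 8) .nil)))))))) (.g (nat_lit 1) (.e (nat_lit 261819) (nat_lit 0) .nil) .nil))) 
(.lf (nat_lit 537481) (.g (nat_lit 2935) (.e (nat_lit 65617) (nat_lit 10) (.e (nat_lit 344127) (nat_lit 26) (.e (nat_lit 557090) (nat_lit 12) (.e (nat_lit 164022) (nat_lit 46) (.e (nat_lit 704628) (nat_lit 9) .nil))))) (.g (nat_lit 0) (.e (nat_lit 262722) (nat_lit 0) .nil) .nil)))))) (.nd (nat_lit 7) (.nd (nat_lit 8) (.nd (nat_lit 9) 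
(.lf (nat_lit 536649) (.g (nat_lit 848) (.e (nat_lit 57931) (nat_lit 282) (.e (nat_lit 163943) (nat_lit 19) (.e (nat_lit 483345) (nat_lit 17) .nil))) (.g (nat_lit 0) (.e (nat_lit 260891) (nat_lit 0) .nil) .nil))) 
(.lf (nat_lit 537161) (.g (nat_lit 2152) (.e (nat_lit 65604) (nat_lit 9) (.e (nat_lit 336013) (nat_lit 2) (.e (nat_lit 90168) (nat_lit 13) .nil))) (.g (nat_lit 0) (.e (nat_lit 262178) (nat_lit 0) .nil) .nil)))) (.nd (nat_lit 9) 
(.lf (nat_lit 536905) (.g (nat_lit 985) (.e (nat_lit 65578) (nat_lit 6) (.e (nat_lit 147492) (nat_lit 11) (.e (nat_lit 24657) (nat_lit 13) (.e (nat_lit 393232) (nat_lit 17) .nil)))) (.g (nat_lit 0) (.e (nat_lit 261717) (nat_lit 0) .nil) .nil))) 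
(.lf (nat_lit 537417) (.g (nat_lit 898) (.e (nat_lit 65616) (nat_lit 10) (.e (nat_lit 344157) (nat_lit 36) (.e (nat_lit 638999) (nat_lit 8) (.e (nat_lit 172112) (nat_lit 10) (.e (nat_lit 434266) (nat_lit 35) (.e (nat_lit 630821) (nat_lit 16) .nil)))))) (.g (nat_lit 1) (.e (nat_lit 262644) (nat_lit 0) .nil) .nil))))) (.nd (nat_lit 8) (.nd (nat_lit 9) 
(.lf (nat_lit 536777) (.g (nat_lit 2567) (.e (nat_lit 65569) (nat_lit 3) (.e (nat_lit 98342) (nat_lit 20) (.e (nat_lit 221214) (nat_lit 23) (.e (nat_lit 204829) (nat_lit 18) (.e (nat_lit 57926) (nat_lit 282) (.e (nat_lit 163868) (nat_lit 2) (.e (nat_lit 196663) (nat_lit 13) .nil))))))) (.g (nat_lit 1) (.e (nat_lit 261502) (nat_lit 0) .nil) .nil))) 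
(.lf (nat_lit 537289) (.g (nat_lit 4203) (.e (nat_lit 65610) (nat_lit 10) (.e (nat_lit 344117) (nat_lit 21) (.e (nat_lit 516102) (nat_lit 0) (.e (nat_lit 2403) (nat_lit 157) (.e (nat_lit 4507) (nat_lit 263) (.e (nat_lit 2619) (nat_lit 164) (.e (nat_lit 172064) (nat_lit 2) (.e (nat_lit 196666) (nat_lit 13) .nil)))))))) (.g (nat_lit 1) (.e (nat_lit 262374) (nat_lit 0) .nil) .nil)))) 
(.nd (nat_lit 9) 
(.lf (nat_lit 537033) (.g (nat_lit 3996) (.e (nat_lit 65586) (nat_lit 7) (.e (nat_lit 319534) (nat_lit 16) (.e (nat_lit 286762) (nat_lit 14) (.e (nat_lit 401448) (nat_lit 10) (.e (nat_lit 434268) (nat_lit 36) (.e (nat_lit 639020) (nat_lit 16) .nil)))))) (.g (nat_lit 1) (.e (nat_lit 261904) (nat_lit 0) .nil) .nil))) 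
(.lf (nat_lit 537545) (.g (nat_lit 2933) (.e (nat_lit 65617) (nat_lit 10) (.e (nat_lit 344133) (nat_lit 26) (.e (nat_lit 557091) (nat_lit 12) (.e (nat_lit 163850) (nat_lit 0) (.e (nat_lit 6273) (nat_lit 337) (.e (nat_lit 2632) (nat_lit 164) (.e (nat_lit 172062) (nat_lit 2) (.e (nat_lit 196666) (nat_lit 13) .nil)))))))) (.g (nat_lit 1) (.e (nat_lit 262802) (nat_lit 0) .nil) .nil))))))) 
(.nd (nat_lit 6) (.nd (nat_lit 7) (.nd (nat_lit 8) (.nd (nat_lit 9) 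
(.lf (nat_lit 536617) (.g (nat_lit 3018) (.e (nat_lit 57931) (nat_lit 282) (.e (nat_lit 163902) (nat_lit 12) (.e (nat_lit 426555) (nat_lit 32) (.e (nat_lit 376865) (nat_lit 22) (.e (nat_lit 90158) (nat_lit 11) (.e (nat_lit 24597) (nat_lit 1) .nil)))))) (.g (nat_lit 1) (.e (nat_lit 260815) (nat_lit 0) .nil) .nil))) 
(.lf (nat_lit 537129) (.g (nat_lit 1248) (.e (nat_lit 65604) (nat_lit 9) (.e (nat_lit 335997) (nat_lit 1) (.e (nat_lit 57857) (nat_lit 254) (.e (nat_lit 163923) (nat_lit 15) (.e (nat_lit 450592) (nat_lit 14) .nil))))) (.g (nat_lit 0) (.e (nat_lit 262145) (nat_lit 0) .nil) .nil)))) (.nd (nat_lit 9) 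
(.lf (nat_lit 536873) (.g (nat_lit 2774) (.e (nat_lit 65571) (nat_lit 3) (.e (nat_lit 98342) (nat_lit 20) (.e (nat_lit 221215) (nat_lit 23) (.e (nat_lit 204830) (nat_lit 18) (.e (nat_lit 57929) (nat_lit 282) (.e (nat_lit 163869) (nat_lit 2) (.e (nat_lit 196663) (nat_lit 13) .nil))))))) (.g (nat_lit 1) (.e (nat_lit 261648) (nat_lit 0) .nil) .nil))) 
(.lf (nat_lit 537385) (.g (nat_lit 2113) (.e (nat_lit 65610) (nat_lit 10) (.e (nat_lit 344129) (nat_lit 26) (.e (nat_lit 557090) (nat_lit 12) (.e (nat_lit 163850) (nat_lit 0) (.e (nat_lit 6273) (nat_lit 337) .nil))))) (.g (nat_lit 0) (.e (nat_lit 262584) (nat_lit 0) .nil) .nil))))) (.nd (nat_lit 8) (.nd (nat_lit 9) 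
(.lf (nat_lit 536745) (.g (nat_lit 2906) (.e (nat_lit 65568) (nat_lit 2) (.e (nat_lit 90170) (nat_lit 13) (.e (nat_lit 172106) (nat_lit 10) (.e (nat_lit 434231) (nat_lit 23) (.e (nat_lit 540416) (nat_lit 17) (.e (nat_lit 3458) (nat_lit 216) (.e (nat_lit 688178) (nat_lit 16) .nil))))))) (.g (nat_lit 1) (.e (nat_lit 261358) (nat_lit 0) .nil) .nil))) 
(.lf (nat_lit 537257) (.g (nat_lit 2786) (.e (nat_lit 65608) (nat_lit 9) (.e (nat_lit 336021) (nat_lit 3) (.e (nat_lit 98350) (nat_lit 24) (.e (nat_lit 409646) (nat_lit 18) (.e (nat_lit 303117) (nat_lit 2) (.e (nat_lit 196665) (nat_lit 13) .nil)))))) (.g (nat_lit 1) (.e (nat_lit 262307) (nat_lit 0) .nil) .nil)))) (.nd (nat_lit 9) 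
(.lf (nat_lit 537001) (.g (nat_lit 2929) (.e (nat_lit 65586) (nat_lit 7) (.e (nat_lit 319531) (nat_lit 16) (.e (nat_lit 286748) (nat_lit 9) (.e (nat_lit 336295) (nat_lit 15) (.e (nat_lit 3632) (nat_lit 227) (.e (nat_lit 778548) (nat_lit 14) (.e (nat_lit 993) (nat_lit 81) (.e (nat_lit 852) (nat_lit 74) (.e (nat_lit 770072) (nat_lit 8) .nil))))))))) (.g (nat_lit 1) (.e (nat_lit 261872) (nat_lit 0) .nil) .nil))) 
(.lf (nat_lit 537513) (.g (nat_lit 3746) (.e (nat_lit 65617) (nat_lit 10) (.e (nat_lit 344130) (nat_lit 26) (.e (nat_lit 557090) (nat_lit 12) (.e (nat_lit 164022) (nat_lit 46) (.e (nat_lit 704629) (nat_lit 9) (.e (nat_lit 442) (nat_lit 33) (.e (nat_lit 434222) (nat_lit 19) (.e (nat_lit 500064) (nat_lit 18) .nil)))))))) (.g (nat_lit 1) (.e (nat_lit 262764) (nat_lit 0) .nil) .nil)))))) 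
(.nd (nat_lit 7) (.nd (nat_lit 8) (.nd (nat_lit 9) 
(.lf (nat_lit 536681) (.g (nat_lit 1106) (.e (nat_lit 57931) (nat_lit 282) (.e (nat_lit 163943) (nat_lit 19) (.e (nat_lit 483412) (nat_lit 27) .nil))) (.g (nat_lit 0) (.e (nat_lit 260964) (nat_lit 0) .nil) .nil))) 
(.lf (nat_lit 537193) (.g (nat_lit 1902) (.e (nat_lit 65604) (nat_lit 9) (.e (nat_lit 336013) (nat_lit 2) (.e (nat_lit 90171) (nat_lit 14) .nil))) (.g (nat_lit 0) (.e (nat_lit 262210) (nat_lit 0) .nil) .nil)))) (.nd (nat_lit 9) 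
(.lf (nat_lit 536937) (.g (nat_lit 1367) (.e (nat_lit 65580) (nat_lit 6) (.e (nat_lit 147493) (nat_lit 11) (.e (nat_lit 24657) (nat_lit 13) (.e (nat_lit 393249) (nat_lit 17) (.e (nat_lit 7936) (nat_lit 406) .nil))))) (.g (nat_lit 1) (.e (nat_lit 261762) (nat_lit 0) .nil) .nil))) 
(.lf (nat_lit 537449) (.g (nat_lit 1627) (.e (nat_lit 65617) (nat_lit 10) (.e (nat_lit 344138) (nat_lit 29) (.e (nat_lit 581653) (nat_lit 6) (.e (nat_lit 188434) (nat_lit 20) (.e (nat_lit 3577) (nat_lit 223) (.e (nat_lit 745491) (nat_lit 4) .nil)))))) (.g (nat_lit 1) (.e (nat_lit 262687) (nat_lit 0) .nil) .nil))))) (.nd (nat_lit 8) (.nd (nat_lit 9) 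
(.lf (nat_lit 536809) (.g (nat_lit 2077) (.e (nat_lit 65571) (nat_lit 3) (.e (nat_lit 98333) (nat_lit 18) (.e (nat_lit 164182) (nat_lit 154) (.e (nat_lit 57378) (nat_lit 3) (.e (nat_lit 98342) (nat_lit 20) .nil))))) (.g (nat_lit 0) (.e (nat_lit 261571) (nat_lit 0) .nil) .nil))) 
(.lf (nat_lit 537321) (.g (nat_lit 2460) (.e (nat_lit 65610) (nat_lit 10) (.e (nat_lit 344117) (nat_lit 21) (.e (nat_lit 516151) (nat_lit 9) (.e (nat_lit 426372) (nat_lit 15) .nil)))) (.g (nat_lit 0) (.e (nat_lit 262415) (nat_lit 0) .nil) .nil)))) (.nd (nat_lit 9) 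
(.lf (nat_lit 537065) (.g (nat_lit 2309) (.e (nat_lit 65596) (nat_lit 9) (.e (nat_lit 336013) (nat_lit 2) (.e (nat_lit 90165) (nat_lit 12) (.e (nat_lit 164209) (nat_lit 176) .nil)))) (.g (nat_lit 0) (.e (nat_lit 262022) (nat_lit 0) .nil) .nil))) 
(.lf (nat_lit 537577) (.g (nat_lit 2901) (.e (nat_lit 65619) (nat_lit 10) (.e (nat_lit 344115) (nat_lit 20) (.e (nat_lit 507907) (nat_lit 0) (.e (nat_lit 5405) (nat_lit 302) (.e (nat_lit 65637) (nat_lit 15) (.e (nat_lit 3305) (nat_lit 202) (.e (nat_lit 573485) (nat_lit 13) .nil))))))) (.g (nat_lit 1) (.e (nat_lit 262854) (nat_lit 0) .nil) .nil)))))))) 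
(.nd (nat_lit 5) (.nd (nat_lit 6) (.nd (nat_lit 7) (.nd (nat_lit 8) (.nd (nat_lit 9) 
(.lf (nat_lit 536601) (.g (nat_lit 1891) (.e (nat_lit 57931) (nat_lit 282) (.e (nat_lit 163885) (nat_lit 5) (.e (nat_lit 221212) (nat_lit 22) (.e (nat_lit 196653) (nat_lit 11) (.e (nat_lit 16456) (nat_lit 12) (.e (nat_lit 475177) (nat_lit 24) (.e (nat_lit 524032) (nat_lit 18) .nil))))))) (.g (nat_lit 1) (.e (nat_lit 260742) (nat_lit 0) .nil) .nil))) 
(.lf (nat_lit 537113) (.g (nat_lit 841) (.e (nat_lit 65603) (nat_lit 9) (.e (nat_lit 336013) (nat_lit 2) (.e (nat_lit 90170) (nat_lit 13) .nil))) (.g (nat_lit 0) (.e (nat_lit 262116) (nat_lit 0) .nil) .nil)))) (.nd (nat_lit 9) 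
(.lf (nat_lit 536857) (.g (nat_lit 2726) (.e (nat_lit 65571) (nat_lit 3) (.e (nat_lit 98342) (nat_lit 20) (.e (nat_lit 221214) (nat_lit 23) (.e (nat_lit 204830) (nat_lit 18) (.e (nat_lit 57929) (nat_lit 282) (.e (nat_lit 163869) (nat_lit 2) (.e (nat_lit 196664) (nat_lit 13) .nil))))))) (.g (nat_lit 1) (.e (nat_lit 261632) (nat_lit 0) .nil) .nil))) 
(.lf (nat_lit 537369) (.g (nat_lit 2577) (.e (nat_lit 65610) (nat_lit 10) (.e (nat_lit 344129) (nat_lit 26) (.e (nat_lit 557088) (nat_lit 12) (.e (nat_lit 164018) (nat_lit 45) (.e (nat_lit 696330) (nat_lit 5) (.e (nat_lit 2884) (nat_lit 184) (.e (nat_lit 426125) (nat_lit 2) (.e (nat_lit 196666) (nat_lit 13) .nil)))))))) (.g (nat_lit 1) (.e (nat_lit 262565) (nat_lit 0) .nil) .nil))))) 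
(.nd (nat_lit 8) (.nd (nat_lit 9) 
(.lf (nat_lit 536729) (.g (nat_lit 2420) (.e (nat_lit 65568) (nat_lit 2) (.e (nat_lit 90170) (nat_lit 13) (.e (nat_lit 172106) (nat_lit 10) (.e (nat_lit 434231) (nat_lit 23) (.e (nat_lit 532481) (nat_lit 0) .nil))))) (.g (nat_lit 0) (.e (nat_lit 261342) (nat_lit 0) .nil) .nil))) 
(.lf (nat_lit 537241) (.g (nat_lit 617) (.e (nat_lit 65604) (nat_lit 9) (.e (nat_lit 336295) (nat_lit 15) (.e (nat_lit 3305) (nat_lit 202) .nil))) (.g (nat_lit 0) (.e (nat_lit 262273) (nat_lit 0) .nil) .nil)))) (.nd (nat_lit 9) 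
(.lf (nat_lit 536985) (.g (nat_lit 710) (.e (nat_lit 65584) (nat_lit 7) (.e (nat_lit 319526) (nat_lit 15) (.e (nat_lit 278547) (nat_lit 8) (.e (nat_lit 303140) (nat_lit 10) (.e (nat_lit 434266) (nat_lit 35) .nil))))) (.g (nat_lit 0) (.e (nat_lit 261841) (nat_lit 0) .nil) .nil))) 
(.lf (nat_lit 537497) (.g (nat_lit 3186) (.e (nat_lit 65617) (nat_lit 10) (.e (nat_lit 344130) (nat_lit 26) (.e (nat_lit 557087) (nat_lit 11) (.e (nat_lit 24588) (nat_lit 0) (.e (nat_lit 6676) (nat_lit 357) (.e (nat_lit 2664) (nat_lit 167) (.e (nat_lit 196666) (nat_lit 13) .nil))))))) (.g (nat_lit 1) (.e (nat_lit 262742) (nat_lit 0) .nil) .nil)))))) 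
(.nd (nat_lit 7) (.nd (nat_lit 8) (.nd (nat_lit 9) 
(.lf (nat_lit 536665) (.g (nat_lit 4631) (.e (nat_lit 57931) (nat_lit 282) (.e (nat_lit 163943) (nat_lit 19) (.e (nat_lit 483372) (nat_lit 21) (.e (nat_lit 319505) (nat_lit 10) (.e (nat_lit 618) (nat_lit 48) (.e (nat_lit 557093) (nat_lit 12) (.e (nat_lit 164238) (nat_lit 187) (.e (nat_lit 1179) (nat_lit 87) .nil)))))))) (.g (nat_lit 1) (.e (nat_lit 260915) (nat_lit 0) .nil) .nil))) 
(.lf (nat_lit 537177) (.g (nat_lit 1152) (.e (nat_lit 65604) (nat_lit 9) (.e (nat_lit 336013) (nat_lit 2) (.e (nat_lit 90170) (nat_lit 13) (.e (nat_lit 172049) (nat_lit 0) .nil)))) (.g (nat_lit 0) (.e (nat_lit 262194) (nat_lit 0) .nil) .nil)))) (.nd (nat_lit 9) 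
(.lf (nat_lit 536921) (.g (nat_lit 2573) (.e (nat_lit 65578) (nat_lit 6) (.e (nat_lit 147495) (nat_lit 11) (.e (nat_lit 24658) (nat_lit 13) (.e (nat_lit 393234) (nat_lit 17) (.e (nat_lit 7936) (nat_lit 406) .nil))))) (.g (nat_lit 1) (.e (nat_lit 261738) (nat_lit 0) .nil) .nil))) 
(.lf (nat_lit 537433) (.g (nat_lit 3324) (.e (nat_lit 65617) (nat_lit 10) (.e (nat_lit 344117) (nat_lit 21) (.e (nat_lit 516139) (nat_lit 7) (.e (nat_lit 409643) (nat_lit 18) (.e (nat_lit 303116) (nat_lit 2) .nil))))) (.g (nat_lit 0) (.e (nat_lit 262669) (nat_lit 0) .nil) .nil))))) (.nd (nat_lit 8) (.nd (nat_lit 9) 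
(.lf (nat_lit 536793) (.g (nat_lit 4259) (.e (nat_lit 65569) (nat_lit 3) (.e (nat_lit 98359) (nat_lit 26) (.e (nat_lit 426286) (nat_lit 10) (.e (nat_lit 434247) (nat_lit 28) (.e (nat_lit 573474) (nat_lit 12) (.e (nat_lit 57572) (nat_lit 54) (.e (nat_lit 770072) (nat_lit 8) .nil))))))) (.g (nat_lit 1) (.e (nat_lit 261521) (nat_lit 0) .nil) .nil))) 
(.lf (nat_lit 537305) (.g (nat_lit 4802) (.e (nat_lit 65610) (nat_lit 10) (.e (nat_lit 344117) (nat_lit 21) (.e (nat_lit 516139) (nat_lit 7) (.e (nat_lit 409645) (nat_lit 18) (.e (nat_lit 303112) (nat_lit 0) (.e (nat_lit 3107) (nat_lit 193) (.e (nat_lit 500065) (nat_lit 18) .nil))))))) (.g (nat_lit 1) (.e (nat_lit 262393) (nat_lit 0) .nil) .nil)))) (.nd (nat_lit 9) 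
(.lf (nat_lit 537049) (.g (nat_lit 605) (.e (nat_lit 65589) (nat_lit 9) (.e (nat_lit 336454) (nat_lit 34) (.e (nat_lit 483365) (nat_lit 18) .nil))) (.g (nat_lit 0) (.e (nat_lit 261948) (nat_lit 0) .nil) .nil))) 
(.lf (nat_lit 537561) (.g (nat_lit 2378) (.e (nat_lit 65618) (nat_lit 10) (.e (nat_lit 344117) (nat_lit 21) (.e (nat_lit 516151) (nat_lit 9) (.e (nat_lit 426043) (nat_lit 0) .nil)))) (.g (nat_lit 0) (.e (nat_lit 262822) (nat_lit 0) .nil) .nil))))))) (.nd (nat_lit 6) (.nd (nat_lit 7) (.nd (nat_lit 8) (.nd (nat_lit 9) 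
(.lf (nat_lit 536633) (.g (nat_lit 3543) (.e (nat_lit 57931) (nat_lit 282) (.e (nat_lit 163923) (nat_lit 15) (.e (nat_lit 450587) (nat_lit 10) (.e (nat_lit 573475) (nat_lit 12) (.e (nat_lit 57360) (nat_lit 0) .nil))))) (.g (nat_lit 0) (.e (nat_lit 260844) (nat_lit 0) .nil) .nil))) 
(.lf (nat_lit 537145) (.g (nat_lit 2152) (.e (nat_lit 65604) (nat_lit 9) (.e (nat_lit 336013) (nat_lit 2) (.e (nat_lit 90137) (nat_lit 9) .nil))) (.g (nat_lit 0) (.e (nat_lit 262162) (nat_lit 0) .nil) .nil)))) (.nd (nat_lit 9) 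
(.lf (nat_lit 536889) (.g (nat_lit 1988) (.e (nat_lit 65571) (nat_lit 3) (.e (nat_lit 98359) (nat_lit 26) (.e (nat_lit 426286) (nat_lit 10) (.e (nat_lit 434248) (nat_lit 28) (.e (nat_lit 573452) (nat_lit 9) .nil))))) (.g (nat_lit 0) (.e (nat_lit 261664) (nat_lit 0) .nil) .nil))) 
(.lf (nat_lit 537401) (.g (nat_lit 3954) (.e (nat_lit 65614) (nat_lit 10) (.e (nat_lit 344118) (nat_lit 21) (.e (nat_lit 516139) (nat_lit 7) (.e (nat_lit 409648) (nat_lit 18) (.e (nat_lit 303117) (nat_lit 2) (.e (nat_lit 196666) (nat_lit 13) .nil)))))) (.g (nat_lit 1) (.e (nat_lit 262610) (nat_lit 0) .nil) .nil))))) (.nd (nat_lit 8) (.nd (nat_lit 9) 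
(.lf (nat_lit 536761) (.g (nat_lit 1828) (.e (nat_lit 65569) (nat_lit 3) (.e (nat_lit 98333) (nat_lit 18) (.e (nat_lit 164179) (nat_lit 154) (.e (nat_lit 57377) (nat_lit 3) .nil)))) (.g (nat_lit 0) (.e (nat_lit 261399) (nat_lit 0) .nil) .nil))) 
(.lf (nat_lit 537273) (.g (nat_lit 2192) (.e (nat_lit 65609) (nat_lit 10) (.e (nat_lit 344119) (nat_lit 21) (.e (nat_lit 516179) (nat_lit 15) (.e (nat_lit 475199) (nat_lit 40) (.e (nat_lit 704589) (nat_lit 3) .nil))))) (.g (nat_lit 0) (.e (nat_lit 262333) (nat_lit 0) .nil) .nil)))) (.nd (nat_lit 9) 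
(.lf (nat_lit 537017) (.g (nat_lit 3153) (.e (nat_lit 65586) (nat_lit 7) (.e (nat_lit 319531) (nat_lit 16) (.e (nat_lit 286759) (nat_lit 12) (.e (nat_lit 385094) (nat_lit 49) (.e (nat_lit 778342) (nat_lit 9) (.e (nat_lit 2471) (nat_lit 157) (.e (nat_lit 3613) (nat_lit 226) (.e (nat_lit 770072) (nat_lit 8) .nil)))))))) (.g (nat_lit 1) (.e (nat_lit 261888) (nat_lit 0) .nil) .nil))) 
(.lf (nat_lit 537529) (.g (nat_lit 1071) (.e (nat_lit 65617) (nat_lit 10) (.e (nat_lit 344133) (nat_lit 26) (.e (nat_lit 557084) (nat_lit 10) .nil))) (.g (nat_lit 0) (.e (nat_lit 262784) (nat_lit 0) .nil) .nil)))))) (.nd (nat_lit 7) (.nd (nat_lit 8) (.nd (nat_lit 9) 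
(.lf (nat_lit 536697) (.g (nat_lit 405) (.e (nat_lit 65542) (nat_lit 0) (.e (nat_lit 6218) (nat_lit 333) (.e (nat_lit 57819) (nat_lit 248) .nil))) (.g (nat_lit 0) (.e (nat_lit 261137) (nat_lit 0) .nil) .nil))) 
(.lf (nat_lit 537209) (.g (nat_lit 2911) (.e (nat_lit 65604) (nat_lit 9) (.e (nat_lit 336028) (nat_lit 3) (.e (nat_lit 98365) (nat_lit 26) (.e (nat_lit 426100) (nat_lit 1) (.e (nat_lit 164345) (nat_lit 240) .nil))))) (.g (nat_lit 0) (.e (nat_lit 262234) (nat_lit 0) .nil) .nil)))) (.nd (nat_lit 9) 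
(.lf (nat_lit 536953) (.g (nat_lit 1934) (.e (nat_lit 65582) (nat_lit 7) (.e (nat_lit 319534) (nat_lit 16) (.e (nat_lit 286756) (nat_lit 10) (.e (nat_lit 344090) (nat_lit 18) .nil)))) (.g (nat_lit 0) (.e (nat_lit 261792) (nat_lit 0) .nil) .nil))) 
(.lf (nat_lit 537465) (.g (nat_lit 2772) (.e (nat_lit 65617) (nat_lit 10) (.e (nat_lit 344127) (nat_lit 26) (.e (nat_lit 557090) (nat_lit 12) (.e (nat_lit 163844) (nat_lit 0) (.e (nat_lit 6254) (nat_lit 337) .nil))))) (.g (nat_lit 0) (.e (nat_lit 262705) (nat_lit 0) .nil) .nil))))) (.nd (nat_lit 8) (.nd (nat_lit 9) 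
(.lf (nat_lit 536825) (.g (nat_lit 3591) (.e (nat_lit 65571) (nat_lit 3) (.e (nat_lit 98341) (nat_lit 20) (.e (nat_lit 221214) (nat_lit 23) (.e (nat_lit 204830) (nat_lit 18) (.e (nat_lit 57931) (nat_lit 282) (.e (nat_lit 163867) (nat_lit 2) (.e (nat_lit 196663) (nat_lit 13) .nil))))))) (.g (nat_lit 1) (.e (nat_lit 261597) (nat_lit 0) .nil) .nil))) 
(.lf (nat_lit 537337) (.g (nat_lit 4798) (.e (nat_lit 65610) (nat_lit 10) (.e (nat_lit 344117) (nat_lit 21) (.e (nat_lit 516180) (nat_lit 15) (.e (nat_lit 475210) (nat_lit 41) (.e (nat_lit 712722) (nat_lit 15) (.e (nat_lit 3302) (nat_lit 202) (.e (nat_lit 573484) (nat_lit 13) .nil))))))) (.g (nat_lit 1) (.e (nat_lit 262451) (nat_lit 0) .nil) .nil)))) (.nd (nat_lit 9) 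
(.lf (nat_lit 537081) (.g (nat_lit 2462) (.e (nat_lit 65598) (nat_lit 9) (.e (nat_lit 336013) (nat_lit 2) (.e (nat_lit 90134) (nat_lit 9) (.e (nat_lit 2822) (nat_lit 182) .nil)))) (.g (nat_lit 0) (.e (nat_lit 262063) (nat_lit 0) .nil) .nil))) 
(.lf (nat_lit 537593) (.g (nat_lit 3348) (.e (nat_lit 65619) (nat_lit 10) (.e (nat_lit 344117) (nat_lit 21) (.e (nat_lit 516139) (nat_lit 7) (.e (nat_lit 409609) (nat_lit 10) .nil)))) (.g (nat_lit 0) (.e (nat_lit 262873) (nat_lit 0) .nil) .nil)))))))))) (.nd (nat_lit 3) (.nd (nat_lit 4) (.nd (nat_lit 5) (.nd (nat_lit 6) (.nd (nat_lit 7) (.nd (nat_lit 8) (.nd (nat_lit 9) 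
(.lf (nat_lit 536581) (.g (nat_lit 4064) (.e (nat_lit 57931) (nat_lit 282) (.e (nat_lit 163874) (nat_lit 3) (.e (nat_lit 204862) (nat_lit 27) (.e (nat_lit 344117) (nat_lit 21) (.e (nat_lit 516099) (nat_lit 0) (.e (nat_lit 3771) (nat_lit 229) (.e (nat_lit 794673) (nat_lit 23) (.e (nat_lit 204831) (nat_lit 18) .nil)))))))) (.g (nat_lit 1) (.e (nat_lit 260708) (nat_lit 0) .nil) .nil))) 
(.lf (nat_lit 537093) (.g (nat_lit 779) (.e (nat_lit 65598) (nat_lit 9) (.e (nat_lit 336013) (nat_lit 2) (.e (nat_lit 90170) (nat_lit 13) .nil))) (.g (nat_lit 0) (.e (nat_lit 262077) (nat_lit 0) .nil) .nil)))) (.nd (nat_lit 9) 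
(.lf (nat_lit 536837) (.g (nat_lit 3278) (.e (nat_lit 65571) (nat_lit 3) (.e (nat_lit 98342) (nat_lit 20) (.e (nat_lit 221204) (nat_lit 20) (.e (nat_lit 3253) (nat_lit 197) (.e (nat_lit 532503) (nat_lit 1) (.e (nat_lit 57924) (nat_lit 282) (.e (nat_lit 163867) (nat_lit 2) (.e (nat_lit 196663) (nat_lit 13) .nil)))))))) (.g (nat_lit 1) (.e (nat_lit 261610) (nat_lit 0) .nil) .nil))) 
(.lf (nat_lit 537349) (.g (nat_lit 2452) (.e (nat_lit 65610) (nat_lit 10) (.e (nat_lit 344129) (nat_lit 26) (.e (nat_lit 557065) (nat_lit 9) (.e (nat_lit 2741) (nat_lit 174) (.e (nat_lit 253959) (nat_lit 9) (.e (nat_lit 396) (nat_lit 32) (.e (nat_lit 426122) (nat_lit 2) (.e (nat_lit 196666) (nat_lit 13) .nil)))))))) (.g (nat_lit 1) (.e (nat_lit 262476) (nat_lit 0) .nil) .nil))))) 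
(.nd (nat_lit 8) (.nd (nat_lit 9) 
(.lf (nat_lit 536709) (.g (nat_lit 1893) (.e (nat_lit 65563) (nat_lit 1) (.e (nat_lit 57927) (nat_lit 282) (.e (nat_lit 163943) (nat_lit 19) (.e (nat_lit 483343) (nat_lit 17) .nil)))) (.g (nat_lit 0) (.e (nat_lit 261196) (nat_lit 0) .nil) .nil))) 
(.lf (nat_lit 537221) (.g (nat_lit 2996) (.e (nat_lit 65604) (nat_lit 9) (.e (nat_lit 336028) (nat_lit 3) (.e (nat_lit 98367) (nat_lit 27) (.e (nat_lit 434208) (nat_lit 18) (.e (nat_lit 5537) (nat_lit 306) (.e (nat_lit 2610) (nat_lit 163) (.e (nat_lit 163978) (nat_lit 30) (.e (nat_lit 573485) (nat_lit 13) .nil)))))))) (.g (nat_lit 1) (.e (nat_lit 262250) (nat_lit 0) .nil) .nil)))) 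
(.nd (nat_lit 9) 
(.lf (nat_lit 536965) (.g (nat_lit 2148) (.e (nat_lit 65583) (nat_lit 7) (.e (nat_lit 319530) (nat_lit 16) (.e (nat_lit 286727) (nat_lit 0) (.e (nat_lit 6680) (nat_lit 357) (.e (nat_lit 2958) (nat_lit 185) (.e (nat_lit 434266) (nat_lit 35) (.e (nat_lit 630821) (nat_lit 16) .nil))))))) (.g (nat_lit 1) (.e (nat_lit 261815) (nat_lit 0) .nil) .nil))) 
(.lf (nat_lit 537477) (.g (nat_lit 1892) (.e (nat_lit 65617) (nat_lit 10) (.e (nat_lit 344127) (nat_lit 26) (.e (nat_lit 557090) (nat_lit 12) (.e (nat_lit 164021) (nat_lit 46) .nil)))) (.g (nat_lit 0) (.e (nat_lit 262718) (nat_lit 0) .nil) .nil)))))) (.nd (nat_lit 7) (.nd (nat_lit 8) (.nd (nat_lit 9) 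
(.lf (nat_lit 536645) (.g (nat_lit 1907) (.e (nat_lit 57931) (nat_lit 282) (.e (nat_lit 163943) (nat_lit 19) (.e (nat_lit 483344) (nat_lit 17) (.e (nat_lit 6712) (nat_lit 360) .nil)))) (.g (nat_lit 0) (.e (nat_lit 260883) (nat_lit 0) .nil) .nil))) 
(.lf (nat_lit 537157) (.g (nat_lit 3390) (.e (nat_lit 65604) (nat_lit 9) (.e (nat_lit 336013) (nat_lit 2) (.e (nat_lit 90165) (nat_lit 12) (.e (nat_lit 164218) (nat_lit 179) (.e (nat_lit 164339) (nat_lit 232) (.e (nat_lit 77) (nat_lit 0) (.e (nat_lit 3308) (nat_lit 202) (.e (nat_lit 573482) (nat_lit 13) .nil)))))))) (.g (nat_lit 1) (.e (nat_lit 262174) (nat_lit 0) .nil) .nil)))) (.nd (nat_lit 9) 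
(.lf (nat_lit 536901) (.g (nat_lit 2021) (.e (nat_lit 65577) (nat_lit 5) (.e (nat_lit 139289) (nat_lit 9) (.e (nat_lit 3102) (nat_lit 192) (.e (nat_lit 491558) (nat_lit 10) (.e (nat_lit 344115) (nat_lit 20) (.e (nat_lit 507907) (nat_lit 0) (.e (nat_lit 5401) (nat_lit 302) .nil))))))) (.g (nat_lit 1) (.e (nat_lit 261711) (nat_lit 0) .nil) .nil))) 
(.lf (nat_lit 537413) (.g (nat_lit 803) (.e (nat_lit 65616) (nat_lit 10) (.e (nat_lit 344133) (nat_lit 26) (.e (nat_lit 557086) (nat_lit 11) .nil))) (.g (nat_lit 0) (.e (nat_lit 262638) (nat_lit 0) .nil) .nil))))) (.nd (nat_lit 8) (.nd (nat_lit 9) 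
(.lf (nat_lit 536773) (.g (nat_lit 705) (.e (nat_lit 65569) (nat_lit 3) (.e (nat_lit 98342) (nat_lit 20) (.e (nat_lit 221198) (nat_lit 20) .nil))) (.g (nat_lit 0) (.e (nat_lit 261497) (nat_lit 0) .nil) .nil))) 
(.lf (nat_lit 537285) (.g (nat_lit 3492) (.e (nat_lit 65610) (nat_lit 10) (.e (nat_lit 344117) (nat_lit 21) (.e (nat_lit 516097) (nat_lit 0) (.e (nat_lit 2414) (nat_lit 157) (.e (nat_lit 4506) (nat_lit 263) (.e (nat_lit 2619) (nat_lit 164) (.e (nat_lit 172064) (nat_lit 2) (.e (nat_lit 196666) (nat_lit 13) .nil)))))))) (.g (nat_lit 1) (.e (nat_lit 262369) (nat_lit 0) .nil) .nil)))) 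
(.nd (nat_lit 9) 
(.lf (nat_lit 537029) (.g (nat_lit 3700) (.e (nat_lit 65586) (nat_lit 7) (.e (nat_lit 319531) (nat_lit 16) (.e (nat_lit 286762) (nat_lit 14) (.e (nat_lit 401447) (nat_lit 10) (.e (nat_lit 434268) (nat_lit 36) (.e (nat_lit 639020) (nat_lit 16) .nil)))))) (.g (nat_lit 1) (.e (nat_lit 261900) (nat_lit 0) .nil) .nil))) 
(.lf (nat_lit 537541) (.g (nat_lit 3770) (.e (nat_lit 65617) (nat_lit 10) (.e (nat_lit 344133) (nat_lit 26) (.e (nat_lit 557087) (nat_lit 11) (.e (nat_lit 24625) (nat_lit 9) (.e (nat_lit 336297) (nat_lit 15) (.e (nat_lit 3305) (nat_lit 202) (.e (nat_lit 573484) (nat_lit 13) .nil))))))) (.g (nat_lit 1) (.e (nat_lit 262796) (nat_lit 0) .nil) .nil))))))) 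
(.nd (nat_lit 6) (.nd (nat_lit 7) (.nd (nat_lit 8) (.nd (nat_lit 9) 
(.lf (nat_lit 536613) (.g (nat_lit 2930) (.e (nat_lit 57931) (nat_lit 282) (.e (nat_lit 163902) (nat_lit 12) (.e (nat_lit 426555) (nat_lit 32) (.e (nat_lit 376862) (nat_lit 22) (.e (nat_lit 90158) (nat_lit 11) (.e (nat_lit 24597) (nat_lit 1) .nil)))))) (.g (nat_lit 1) (.e (nat_lit 260811) (nat_lit 0) .nil) .nil))) 
(.lf (nat_lit 537125) (.g (nat_lit 1689) (.e (nat_lit 65604) (nat_lit 9) (.e (nat_lit 335997) (nat_lit 1) (.e (nat_lit 57857) (nat_lit 254) (.e (nat_lit 163908) (nat_lit 12) (.e (nat_lit 426285) (nat_lit 10) (.e (nat_lit 434265) (nat_lit 35) (.e (nat_lit 630820) (nat_lit 16) .nil))))))) (.g (nat_lit 1) (.e (nat_lit 262141) (nat_lit 0) .nil) .nil)))) (.nd (nat_lit 9) 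
(.lf (nat_lit 536869) (.g (nat_lit 2597) (.e (nat_lit 65571) (nat_lit 3) (.e (nat_lit 98342) (nat_lit 20) (.e (nat_lit 221215) (nat_lit 23) (.e (nat_lit 204830) (nat_lit 18) (.e (nat_lit 57926) (nat_lit 282) (.e (nat_lit 163869) (nat_lit 2) (.e (nat_lit 196663) (nat_lit 13) .nil))))))) (.g (nat_lit 1) (.e (nat_lit 261644) (nat_lit 0) .nil) .nil))) 
(.lf (nat_lit 537381) (.g (nat_lit 2114) (.e (nat_lit 65610) (nat_lit 10) (.e (nat_lit 344129) (nat_lit 26) (.e (nat_lit 557090) (nat_lit 12) (.e (nat_lit 163843) (nat_lit 0) (.e (nat_lit 6420) (nat_lit 341) .nil))))) (.g (nat_lit 0) (.e (nat_lit 262578) (nat_lit 0) .nil) .nil))))) (.nd (nat_lit 8) (.nd (nat_lit 9) 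
(.lf (nat_lit 536741) (.g (nat_lit 2083) (.e (nat_lit 65568) (nat_lit 2) (.e (nat_lit 90170) (nat_lit 13) (.e (nat_lit 172106) (nat_lit 10) (.e (nat_lit 434231) (nat_lit 23) (.e (nat_lit 540416) (nat_lit 17) .nil))))) (.g (nat_lit 0) (.e (nat_lit 261354) (nat_lit 0) .nil) .nil))) 
(.lf (nat_lit 537253) (.g (nat_lit 2804) (.e (nat_lit 65608) (nat_lit 9) (.e (nat_lit 336020) (nat_lit 3) (.e (nat_lit 98350) (nat_lit 24) (.e (nat_lit 409645) (nat_lit 18) (.e (nat_lit 303117) (nat_lit 2) .nil))))) (.g (nat_lit 0) (.e (nat_lit 262300) (nat_lit 0) .nil) .nil)))) (.nd (nat_lit 9) 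
(.lf (nat_lit 536997) (.g (nat_lit 2086) (.e (nat_lit 65586) (nat_lit 7) (.e (nat_lit 319531) (nat_lit 16) (.e (nat_lit 286727) (nat_lit 0) (.e (nat_lit 6680) (nat_lit 357) (.e (nat_lit 2962) (nat_lit 185) (.e (nat_lit 434266) (nat_lit 35) (.e (nat_lit 630821) (nat_lit 16) .nil))))))) (.g (nat_lit 1) (.e (nat_lit 261868) (nat_lit 0) .nil) .nil))) 
(.lf (nat_lit 537509) (.g (nat_lit 2538) (.e (nat_lit 65617) (nat_lit 10) (.e (nat_lit 344130) (nat_lit 26) (.e (nat_lit 557087) (nat_lit 11) (.e (nat_lit 24638) (nat_lit 9) (.e (nat_lit 336291) (nat_lit 15) (.e (nat_lit 3305) (nat_lit 202) (.e (nat_lit 573484) (nat_lit 13) .nil))))))) (.g (nat_lit 1) (.e (nat_lit 262756) (nat_lit 0) .nil) .nil)))))) 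
(.nd (nat_lit 7) (.nd (nat_lit 8) (.nd (nat_lit 9) 
(.lf (nat_lit 536677) (.g (nat_lit 2164) (.e (nat_lit 57931) (nat_lit 282) (.e (nat_lit 163943) (nat_lit 19) (.e (nat_lit 483410) (nat_lit 27) (.e (nat_lit 401416) (nat_lit 0) .nil)))) (.g (nat_lit 0) (.e (nat_lit 260960) (nat_lit 0) .nil) .nil))) 
(.lf (nat_lit 537189) (.g (nat_lit 4966) (.e (nat_lit 65604) (nat_lit 9) (.e (nat_lit 336013) (nat_lit 2) (.e (nat_lit 90170) (nat_lit 13) (.e (nat_lit 172070) (nat_lit 4) (.e (nat_lit 229678) (nat_lit 244) (.e (nat_lit 163850) (nat_lit 0) (.e (nat_lit 3304) (nat_lit 202) (.e (nat_lit 573485) (nat_lit 13) .nil)))))))) (.g (nat_lit 1) (.e (nat_lit 262206) (nat_lit 0) .nil) .nil)))) 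
(.nd (nat_lit 9) 
(.lf (nat_lit 536933) (.g (nat_lit 1243) (.e (nat_lit 65580) (nat_lit 6) (.e (nat_lit 147492) (nat_lit 11) (.e (nat_lit 24657) (nat_lit 13) (.e (nat_lit 393249) (nat_lit 17) (.e (nat_lit 7936) (nat_lit 406) .nil))))) (.g (nat_lit 1) (.e (nat_lit 261758) (nat_lit 0) .nil) .nil))) 
(.lf (nat_lit 537445) (.g (nat_lit 3068) (.e (nat_lit 65617) (nat_lit 10) (.e (nat_lit 344119) (nat_lit 21) (.e (nat_lit 516139) (nat_lit 7) (.e (nat_lit 409649) (nat_lit 18) (.e (nat_lit 303116) (nat_lit 2) (.e (nat_lit 196666) (nat_lit 13) .nil)))))) (.g (nat_lit 1) (.e (nat_lit 262681) (nat_lit 0) .nil) .nil))))) (.nd (nat_lit 8) (.nd (nat_lit 9) 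
(.lf (nat_lit 536805) (.g (nat_lit 3336) (.e (nat_lit 65570) (nat_lit 3) (.e (nat_lit 98372) (nat_lit 29) (.e (nat_lit 450588) (nat_lit 10) (.e (nat_lit 573474) (nat_lit 12) .nil)))) (.g (nat_lit 0) (.e (nat_lit 261554) (nat_lit 0) .nil) .nil))) 
(.lf (nat_lit 537317) (.g (nat_lit 2575) (.e (nat_lit 65610) (nat_lit 10) (.e (nat_lit 344117) (nat_lit 21) (.e (nat_lit 516151) (nat_lit 9) (.e (nat_lit 426047) (nat_lit 0) .nil)))) (.g (nat_lit 0) (.e (nat_lit 262408) (nat_lit 0) .nil) .nil)))) (.nd (nat_lit 9) 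
(.lf (nat_lit 537061) (.g (nat_lit 3484) (.e (nat_lit 65595) (nat_lit 9) (.e (nat_lit 336013) (nat_lit 2) (.e (nat_lit 90170) (nat_lit 13) (.e (nat_lit 172138) (nat_lit 15) .nil)))) (.g (nat_lit 0) (.e (nat_lit 262014) (nat_lit 0) .nil) .nil))) 
(.lf (nat_lit 537573) (.g (nat_lit 3494) (.e (nat_lit 65619) (nat_lit 10) (.e (nat_lit 344090) (nat_lit 18) (.e (nat_lit 7710) (nat_lit 414) (.e (nat_lit 163923) (nat_lit 15) (.e (nat_lit 450584) (nat_lit 9) (.e (nat_lit 565267) (nat_lit 4) .nil)))))) (.g (nat_lit 1) (.e (nat_lit 262840) (nat_lit 0) .nil) .nil)))))))) 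
(.nd (nat_lit 5) (.nd (nat_lit 6) (.nd (nat_lit 7) (.nd (nat_lit 8) (.nd (nat_lit 9) 
(.lf (nat_lit 536597) (.g (nat_lit 2069) (.e (nat_lit 57931) (nat_lit 282) (.e (nat_lit 163884) (nat_lit 5) (.e (nat_lit 221210) (nat_lit 22) (.e (nat_lit 196654) (nat_lit 11) (.e (nat_lit 16456) (nat_lit 12) (.e (nat_lit 475177) (nat_lit 24) (.e (nat_lit 524032) (nat_lit 18) .nil))))))) (.g (nat_lit 1) (.e (nat_lit 260738) (nat_lit 0) .nil) .nil))) 
(.lf (nat_lit 537109) (.g (nat_lit 3464) (.e (nat_lit 65599) (nat_lit 9) (.e (nat_lit 336013) (nat_lit 2) (.e (nat_lit 90170) (nat_lit 13) (.e (nat_lit 172042) (nat_lit 0) .nil)))) (.g (nat_lit 0) (.e (nat_lit 262102) (nat_lit 0) .nil) .nil)))) (.nd (nat_lit 9) 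
(.lf (nat_lit 536853) (.g (nat_lit 2476) (.e (nat_lit 65571) (nat_lit 3) (.e (nat_lit 98342) (nat_lit 20) (.e (nat_lit 221214) (nat_lit 23) (.e (nat_lit 204830) (nat_lit 18) (.e (nat_lit 57927) (nat_lit 282) (.e (nat_lit 163866) (nat_lit 2) (.e (nat_lit 196664) (nat_lit 13) .nil))))))) (.g (nat_lit 1) (.e (nat_lit 261628) (nat_lit 0) .nil) .nil))) 
(.lf (nat_lit 537365) (.g (nat_lit 4471) (.e (nat_lit 65610) (nat_lit 10) (.e (nat_lit 344129) (nat_lit 26) (.e (nat_lit 557087) (nat_lit 11) (.e (nat_lit 24631) (nat_lit 9) (.e (nat_lit 336295) (nat_lit 15) (.e (nat_lit 3305) (nat_lit 202) (.e (nat_lit 573484) (nat_lit 13) .nil))))))) (.g (nat_lit 1) (.e (nat_lit 262561) (nat_lit 0) .nil) .nil))))) (.nd (nat_lit 8) (.nd (nat_lit 9) 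
(.lf (nat_lit 536725) (.g (nat_lit 1211) (.e (nat_lit 65567) (nat_lit 2) (.e (nat_lit 90160) (nat_lit 11) (.e (nat_lit 24671) (nat_lit 15) .nil))) (.g (nat_lit 0) (.e (nat_lit 261320) (nat_lit 0) .nil) .nil))) 
(.lf (nat_lit 537237) (.g (nat_lit 3417) (.e (nat_lit 65604) (nat_lit 9) (.e (nat_lit 336028) (nat_lit 3) (.e (nat_lit 98384) (nat_lit 32) (.e (nat_lit 475199) (nat_lit 40) (.e (nat_lit 704589) (nat_lit 3) (.e (nat_lit 163975) (nat_lit 30) (.e (nat_lit 573481) (nat_lit 13) .nil))))))) (.g (nat_lit 1) (.e (nat_lit 262269) (nat_lit 0) .nil) .nil)))) (.nd (nat_lit 9) 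
(.lf (nat_lit 536981) (.g (nat_lit 2587) (.e (nat_lit 65583) (nat_lit 7) (.e (nat_lit 319534) (nat_lit 16) (.e (nat_lit 286756) (nat_lit 10) (.e (nat_lit 344090) (nat_lit 18) (.e (nat_lit 5570) (nat_lit 308) .nil))))) (.g (nat_lit 0) (.e (nat_lit 261831) (nat_lit 0) .nil) .nil))) 
(.lf (nat_lit 537493) (.g (nat_lit 2462) (.e (nat_lit 65617) (nat_lit 10) (.e (nat_lit 344130) (nat_lit 26) (.e (nat_lit 557085) (nat_lit 11) (.e (nat_lit 24631) (nat_lit 9) (.e (nat_lit 336295) (nat_lit 15) (.e (nat_lit 3305) (nat_lit 202) (.e (nat_lit 573484) (nat_lit 13) .nil))))))) (.g (nat_lit 1) (.e (nat_lit 262737) (nat_lit 0) .nil) .nil)))))) 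
(.nd (nat_lit 7) (.nd (nat_lit 8) (.nd (nat_lit 9) 
(.lf (nat_lit 536661) (.g (nat_lit 1141) (.e (nat_lit 57931) (nat_lit 282) (.e (nat_lit 163943) (nat_lit 19) (.e (nat_lit 483364) (nat_lit 18) .nil))) (.g (nat_lit 0) (.e (nat_lit 260910) (nat_lit 0) .nil) .nil))) 
(.lf (nat_lit 537173) (.g (nat_lit 4282) (.e (nat_lit 65604) (nat_lit 9) (.e (nat_lit 336013) (nat_lit 2) (.e (nat_lit 90170) (nat_lit 13) (.e (nat_lit 172042) (nat_lit 0) (.e (nat_lit 3409) (nat_lit 212) (.e (nat_lit 655373) (nat_lit 3) (.e (nat_lit 163979) (nat_lit 30) (.e (nat_lit 573482) (nat_lit 13) .nil)))))))) (.g (nat_lit 1) (.e (nat_lit 262190) (nat_lit 0) .nil) .nil)))) (.nd (nat_lit 9) 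
(.lf (nat_lit 536917) (.g (nat_lit 1828) (.e (nat_lit 65578) (nat_lit 6) (.e (nat_lit 147495) (nat_lit 11) (.e (nat_lit 24630) (nat_lit 9) (.e (nat_lit 336438) (nat_lit 31) (.e (nat_lit 466688) (nat_lit 4) .nil))))) (.g (nat_lit 1) (.e (nat_lit 261732) (nat_lit 0) .nil) .nil))) 
(.lf (nat_lit 537429) (.g (nat_lit 2225) (.e (nat_lit 65617) (nat_lit 10) (.e (nat_lit 344117) (nat_lit 21) (.e (nat_lit 516106) (nat_lit 0) (.e (nat_lit 6986) (nat_lit 377) .nil)))) (.g (nat_lit 0) (.e (nat_lit 262665) (nat_lit 0) .nil) .nil))))) (.nd (nat_lit 8) (.nd (nat_lit 9) 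
(.lf (nat_lit 536789) (.g (nat_lit 4598) (.e (nat_lit 65569) (nat_lit 3) (.e (nat_lit 98342) (nat_lit 20) (.e (nat_lit 221215) (nat_lit 23) (.e (nat_lit 204830) (nat_lit 18) (.e (nat_lit 57931) (nat_lit 282) (.e (nat_lit 163869) (nat_lit 2) (.e (nat_lit 196666) (nat_lit 13) .nil))))))) (.g (nat_lit 1) (.e (nat_lit 261517) (nat_lit 0) .nil) .nil))) 
(.lf (nat_lit 537301) (.g (nat_lit 3025) (.e (nat_lit 65610) (nat_lit 10) (.e (nat_lit 344117) (nat_lit 21) (.e (nat_lit 516138) (nat_lit 7) (.e (nat_lit 409644) (nat_lit 18) (.e (nat_lit 303116) (nat_lit 2) (.e (nat_lit 196666) (nat_lit 13) .nil)))))) (.g (nat_lit 1) (.e (nat_lit 262389) (nat_lit 0) .nil) .nil)))) (.nd (nat_lit 9) 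
(.lf (nat_lit 537045) (.g (nat_lit 1217) (.e (nat_lit 65589) (nat_lit 9) (.e (nat_lit 336023) (nat_lit 3) (.e (nat_lit 98350) (nat_lit 24) (.e (nat_lit 409616) (nat_lit 10) .nil)))) (.g (nat_lit 0) (.e (nat_lit 261924) (nat_lit 0) .nil) .nil))) 
(.lf (nat_lit 537557) (.g (nat_lit 602) (.e (nat_lit 65617) (nat_lit 10) (.e (nat_lit 344175) (nat_lit 43) (.e (nat_lit 770074) (nat_lit 10) (.e (nat_lit 81942) (nat_lit 20) .nil)))) (.g (nat_lit 0) (.e (nat_lit 262815) (nat_lit 0) .nil) .nil))))))) (.nd (nat_lit 6) (.nd (nat_lit 7) (.nd (nat_lit 8) (.nd (nat_lit 9) 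
(.lf (nat_lit 536629) (.g (nat_lit 2985) (.e (nat_lit 57931) (nat_lit 282) (.e (nat_lit 163905) (nat_lit 12) (.e (nat_lit 426555) (nat_lit 32) (.e (nat_lit 376867) (nat_lit 23) (.e (nat_lit 98313) (nat_lit 9) (.e (nat_lit 335996) (nat_lit 1) .nil)))))) (.g (nat_lit 1) (.e (nat_lit 260832) (nat_lit 0) .nil) .nil))) 
(.lf (nat_lit 537141) (.g (nat_lit 4434) (.e (nat_lit 65604) (nat_lit 9) (.e (nat_lit 336013) (nat_lit 2) (.e (nat_lit 90134) (nat_lit 9) (.e (nat_lit 3071) (nat_lit 190) (.e (nat_lit 475199) (nat_lit 40) (.e (nat_lit 704589) (nat_lit 3) (.e (nat_lit 163975) (nat_lit 30) (.e (nat_lit 573481) (nat_lit 13) .nil)))))))) (.g (nat_lit 1) (.e (nat_lit 262158) (nat_lit 0) .nil) .nil)))) (.nd (nat_lit 9) 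
(.lf (nat_lit 536885) (.g (nat_lit 1516) (.e (nat_lit 65571) (nat_lit 3) (.e (nat_lit 98359) (nat_lit 26) (.e (nat_lit 426286) (nat_lit 10) (.e (nat_lit 434242) (nat_lit 28) (.e (nat_lit 573472) (nat_lit 12) .nil))))) (.g (nat_lit 0) (.e (nat_lit 261660) (nat_lit 0) .nil) .nil))) 
(.lf (nat_lit 537397) (.g (nat_lit 704) (.e (nat_lit 65611) (nat_lit 10) (.e (nat_lit 344133) (nat_lit 26) (.e (nat_lit 557087) (nat_lit 11) .nil))) (.g (nat_lit 0) (.e (nat_lit 262602) (nat_lit 0) .nil) .nil))))) (.nd (nat_lit 8) (.nd (nat_lit 9) 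
(.lf (nat_lit 536757) (.g (nat_lit 925) (.e (nat_lit 65569) (nat_lit 3) (.e (nat_lit 98317) (nat_lit 9) (.e (nat_lit 336288) (nat_lit 15) .nil))) (.g (nat_lit 0) (.e (nat_lit 261383) (nat_lit 0) .nil) .nil))) 
(.lf (nat_lit 537269) (.g (nat_lit 1925) (.e (nat_lit 65609) (nat_lit 10) (.e (nat_lit 344117) (nat_lit 21) (.e (nat_lit 516151) (nat_lit 9) (.e (nat_lit 426412) (nat_lit 15) .nil)))) (.g (nat_lit 0) (.e (nat_lit 262329) (nat_lit 0) .nil) .nil)))) (.nd (nat_lit 9) 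
(.lf (nat_lit 537013) (.g (nat_lit 2198) (.e (nat_lit 65586) (nat_lit 7) (.e (nat_lit 319531) (nat_lit 16) (.e (nat_lit 286756) (nat_lit 10) (.e (nat_lit 344092) (nat_lit 18) .nil)))) (.g (nat_lit 0) (.e (nat_lit 261884) (nat_lit 0) .nil) .nil))) 
(.lf (nat_lit 537525) (.g (nat_lit 1952) (.e (nat_lit 65617) (nat_lit 10) (.e (nat_lit 344133) (nat_lit 26) (.e (nat_lit 557066) (nat_lit 9) (.e (nat_lit 314) (nat_lit 23) (.e (nat_lit 352265) (nat_lit 0) .nil))))) (.g (nat_lit 0) (.e (nat_lit 262779) (nat_lit 0) .nil) .nil)))))) (.nd (nat_lit 7) (.nd (nat_lit 8) (.nd (nat_lit 9) 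
(.lf (nat_lit 536693) (.g (nat_lit 646) (.e (nat_lit 65536) (nat_lit 0) (.e (nat_lit 1792) (nat_lit 119) (.e (nat_lit 516166) (nat_lit 12) (.e (nat_lit 450587) (nat_lit 10) .nil)))) (.g (nat_lit 0) (.e (nat_lit 261100) (nat_lit 0) .nil) .nil))) 
(.lf (nat_lit 537205) (.g (nat_lit 3959) (.e (nat_lit 65604) (nat_lit 9) (.e (nat_lit 336028) (nat_lit 3) (.e (nat_lit 98359) (nat_lit 26) (.e (nat_lit 426043) (nat_lit 0) (.e (nat_lit 3408) (nat_lit 212) (.e (nat_lit 655373) (nat_lit 3) (.e (nat_lit 163979) (nat_lit 30) (.e (nat_lit 573482) (nat_lit 13) .nil)))))))) (.g (nat_lit 1) (.e (nat_lit 262229) (nat_lit 0) .nil) .nil)))) (.nd (nat_lit 9) 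
(.lf (nat_lit 536949) (.g (nat_lit 2178) (.e (nat_lit 65582) (nat_lit 7) (.e (nat_lit 319531) (nat_lit 16) (.e (nat_lit 286762) (nat_lit 14) (.e (nat_lit 401446) (nat_lit 10) .nil)))) (.g (nat_lit 0) (.e (nat_lit 261788) (nat_lit 0) .nil) .nil))) 
(.lf (nat_lit 537461) (.g (nat_lit 2602) (.e (nat_lit 65617) (nat_lit 10) (.e (nat_lit 344127) (nat_lit 26) (.e (nat_lit 557090) (nat_lit 12) (.e (nat_lit 163843) (nat_lit 0) (.e (nat_lit 6420) (nat_lit 341) .nil))))) (.g (nat_lit 0) (.e (nat_lit 262701) (nat_lit 0) .nil) .nil))))) (.nd (nat_lit 8) (.nd (nat_lit 9) 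
(.lf (nat_lit 536821) (.g (nat_lit 4159) (.e (nat_lit 65571) (nat_lit 3) (.e (nat_lit 98341) (nat_lit 20) (.e (nat_lit 221214) (nat_lit 23) (.e (nat_lit 204830) (nat_lit 18) (.e (nat_lit 57926) (nat_lit 282) (.e (nat_lit 163868) (nat_lit 2) (.e (nat_lit 196663) (nat_lit 13) .nil))))))) (.g (nat_lit 1) (.e (nat_lit 261593) (nat_lit 0) .nil) .nil))) 
(.lf (nat_lit 537333) (.g (nat_lit 4568) (.e (nat_lit 65610) (nat_lit 10) (.e (nat_lit 344117) (nat_lit 21) (.e (nat_lit 516179) (nat_lit 15) (.e (nat_lit 475199) (nat_lit 40) (.e (nat_lit 704589) (nat_lit 3) (.e (nat_lit 163975) (nat_lit 30) (.e (nat_lit 573483) (nat_lit 13) .nil))))))) (.g (nat_lit 1) (.e (nat_lit 262439) (nat_lit 0) .nil) .nil)))) (.nd (nat_lit 9) 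
(.lf (nat_lit 537077) (.g (nat_lit 1123) (.e (nat_lit 65598) (nat_lit 9) (.e (nat_lit 335997) (nat_lit 1) (.e (nat_lit 57857) (nat_lit 254) (.e (nat_lit 163923) (nat_lit 15) (.e (nat_lit 450591) (nat_lit 13) .nil))))) (.g (nat_lit 0) (.e (nat_lit 262058) (nat_lit 0) .nil) .nil))) 
(.lf (nat_lit 537589) (.g (nat_lit 3722) (.e (nat_lit 65619) (nat_lit 10) (.e (nat_lit 344117) (nat_lit 21) (.e (nat_lit 516138) (nat_lit 7) (.e (nat_lit 409645) (nat_lit 18) (.e (nat_lit 303117) (nat_lit 2) (.e (nat_lit 196665) (nat_lit 13) .nil)))))) (.g (nat_lit 1) (.e (nat_lit 262869) (nat_lit 0) .nil) .nil))))))))) 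
(.nd (nat_lit 4) (.nd (nat_lit 5) (.nd (nat_lit 6) (.nd (nat_lit 7) (.nd (nat_lit 8) 
(.nd (nat_lit 9) 
(.lf (nat_lit 536589) (.g (nat_lit 2125) (.e (nat_lit 57931) (nat_lit 282) (.e (nat_lit 163874) (nat_lit 3) (.e (nat_lit 204863) (nat_lit 27) (.e (nat_lit 344120) (nat_lit 21) (.e (nat_lit 516131) (nat_lit 3) .nil))))) (.g (nat_lit 0) (.e (nat_lit 260716) (nat_lit 0) .nil) .nil))) 
(.lf (nat_lit 537101) (.g (nat_lit 4183) (.e (nat_lit 65598) (nat_lit 9) (.e (nat_lit 336013) (nat_lit 2) (.e (nat_lit 90170) (nat_lit 13) (.e (nat_lit 172137) (nat_lit 15) .nil)))) (.g (nat_lit 0) (.e (nat_lit 262085) (nat_lit 0) .nil) .nil)))) (.nd (nat_lit 9) 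
(.lf (nat_lit 536845) (.g (nat_lit 2689) (.e (nat_lit 65571) (nat_lit 3) (.e (nat_lit 98342) (nat_lit 20) (.e (nat_lit 221214) (nat_lit 23) (.e (nat_lit 204829) (nat_lit 18) (.e (nat_lit 57927) (nat_lit 282) (.e (nat_lit 163866) (nat_lit 2) (.e (nat_lit 196664) (nat_lit 13) .nil))))))) (.g (nat_lit 1) (.e (nat_lit 261620) (nat_lit 0) .nil) .nil))) 
(.lf (nat_lit 537357) (.g (nat_lit 1684) (.e (nat_lit 65610) (nat_lit 10) (.e (nat_lit 344129) (nat_lit 26) (.e (nat_lit 557067) (nat_lit 9) (.e (nat_lit 2739) (nat_lit 174) .nil)))) (.g (nat_lit 0) (.e (nat_lit 262514) (nat_lit 0) .nil) .nil))))) (.nd (nat_lit 8) (.nd (nat_lit 9) 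
(.lf (nat_lit 536717) (.g (nat_lit 2715) (.e (nat_lit 65563) (nat_lit 1) (.e (nat_lit 57931) (nat_lit 282) (.e (nat_lit 163943) (nat_lit 19) (.e (nat_lit 483413) (nat_lit 27) (.e (nat_lit 401408) (nat_lit 0) .nil))))) (.g (nat_lit 0) (.e (nat_lit 261209) (nat_lit 0) .nil) .nil))) 
(.lf (nat_lit 537229) (.g (nat_lit 3081) (.e (nat_lit 65604) (nat_lit 9) (.e (nat_lit 336028) (nat_lit 3) (.e (nat_lit 98367) (nat_lit 27) (.e (nat_lit 434272) (nat_lit 38) (.e (nat_lit 655367) (nat_lit 0) (.e (nat_lit 2515) (nat_lit 157) (.e (nat_lit 3304) (nat_lit 202) (.e (nat_lit 573482) (nat_lit 13) .nil)))))))) (.g (nat_lit 1) (.e (nat_lit 262261) (nat_lit 0) .nil) .nil)))) (.nd (nat_lit 9) 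
(.lf (nat_lit 536973) (.g (nat_lit 3080) (.e (nat_lit 65583) (nat_lit 7) (.e (nat_lit 319530) (nat_lit 16) (.e (nat_lit 286759) (nat_lit 12) (.e (nat_lit 385107) (nat_lit 51) (.e (nat_lit 794638) (nat_lit 20) (.e (nat_lit 3606) (nat_lit 226) (.e (nat_lit 770072) (nat_lit 8) .nil))))))) (.g (nat_lit 1) (.e (nat_lit 261823) (nat_lit 0) .nil) .nil))) 
(.lf (nat_lit 537485) (.g (nat_lit 2828) (.e (nat_lit 65617) (nat_lit 10) (.e (nat_lit 344127) (nat_lit 26) (.e (nat_lit 557091) (nat_lit 12) (.e (nat_lit 164020) (nat_lit 45) (.e (nat_lit 696329) (nat_lit 5) .nil))))) (.g (nat_lit 0) (.e (nat_lit 262726) (nat_lit 0) .nil) .nil)))))) (.nd (nat_lit 7) (.nd (nat_lit 8) (.nd (nat_lit 9) 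
(.lf (nat_lit 536653) (.g (nat_lit 3948) (.e (nat_lit 57931) (nat_lit 282) (.e (nat_lit 163943) (nat_lit 19) (.e (nat_lit 483346) (nat_lit 17) (.e (nat_lit 6712) (nat_lit 360) (.e (nat_lit 163979) (nat_lit 30) (.e (nat_lit 573482) (nat_lit 13) (.e (nat_lit 65563) (nat_lit 1) .nil))))))) (.g (nat_lit 1) (.e (nat_lit 260900) (nat_lit 0) .nil) .nil))) 
(.lf (nat_lit 537165) (.g (nat_lit 2166) (.e (nat_lit 65604) (nat_lit 9) (.e (nat_lit 336013) (nat_lit 2) (.e (nat_lit 90169) (nat_lit 13) (.e (nat_lit 172133) (nat_lit 15) .nil)))) (.g (nat_lit 0) (.e (nat_lit 262182) (nat_lit 0) .nil) .nil)))) (.nd (nat_lit 9) 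
(.lf (nat_lit 536909) (.g (nat_lit 1258) (.e (nat_lit 65578) (nat_lit 6) (.e (nat_lit 147492) (nat_lit 11) (.e (nat_lit 24657) (nat_lit 13) (.e (nat_lit 393244) (nat_lit 17) (.e (nat_lit 7936) (nat_lit 406) .nil))))) (.g (nat_lit 1) (.e (nat_lit 261721) (nat_lit 0) .nil) .nil))) 
(.lf (nat_lit 537421) (.g (nat_lit 2521) (.e (nat_lit 65617) (nat_lit 10) (.e (nat_lit 344091) (nat_lit 18) (.e (nat_lit 7607) (nat_lit 410) (.e (nat_lit 2630) (nat_lit 164) (.e (nat_lit 172113) (nat_lit 10) (.e (nat_lit 434241) (nat_lit 27) (.e (nat_lit 565267) (nat_lit 4) .nil))))))) (.g (nat_lit 1) (.e (nat_lit 262655) (nat_lit 0) .nil) .nil))))) (.nd (nat_lit 8) (.nd (nat_lit 9) 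
(.lf (nat_lit 536781) (.g (nat_lit 2329) (.e (nat_lit 65569) (nat_lit 3) (.e (nat_lit 98342) (nat_lit 20) (.e (nat_lit 221214) (nat_lit 23) (.e (nat_lit 204830) (nat_lit 18) (.e (nat_lit 57924) (nat_lit 282) .nil))))) (.g (nat_lit 0) (.e (nat_lit 261508) (nat_lit 0) .nil) .nil))) 
(.lf (nat_lit 537293) (.g (nat_lit 2032) (.e (nat_lit 65610) (nat_lit 10) (.e (nat_lit 344117) (nat_lit 21) (.e (nat_lit 516106) (nat_lit 0) (.e (nat_lit 2426) (nat_lit 157) .nil)))) (.g (nat_lit 0) (.e (nat_lit 262378) (nat_lit 0) .nil) .nil)))) (.nd (nat_lit 9) 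
(.lf (nat_lit 537037) (.g (nat_lit 2251) (.e (nat_lit 65589) (nat_lit 9) (.e (nat_lit 336013) (nat_lit 2) (.e (nat_lit 90165) (nat_lit 12) (.e (nat_lit 164210) (nat_lit 176) .nil)))) (.g (nat_lit 0) (.e (nat_lit 261914) (nat_lit 0) .nil) .nil))) 
(.lf (nat_lit 537549) (.g (nat_lit 2866) (.e (nat_lit 65617) (nat_lit 10) (.e (nat_lit 344133) (nat_lit 26) (.e (nat_lit 557091) (nat_lit 12) (.e (nat_lit 164022) (nat_lit 46) (.e (nat_lit 704629) (nat_lit 9) (.e (nat_lit 452) (nat_lit 33) (.e (nat_lit 434219) (nat_lit 19) (.e (nat_lit 500059) (nat_lit 18) .nil)))))))) (.g (nat_lit 1) (.e (nat_lit 262806) (nat_lit 0) .nil) .nil))))))) 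
(.nd (nat_lit 6) (.nd (nat_lit 7) (.nd (nat_lit 8) (.nd (nat_lit 9) 
(.lf (nat_lit 536621) (.g (nat_lit 1848) (.e (nat_lit 57931) (nat_lit 282) (.e (nat_lit 163902) (nat_lit 12) (.e (nat_lit 426556) (nat_lit 32) (.e (nat_lit 376865) (nat_lit 22) (.e (nat_lit 90158) (nat_lit 11) (.e (nat_lit 24599) (nat_lit 1) .nil)))))) (.g (nat_lit 1) (.e (nat_lit 260819) (nat_lit 0) .nil) .nil))) 
(.lf (nat_lit 537133) (.g (nat_lit 2152) (.e (nat_lit 65604) (nat_lit 9) (.e (nat_lit 336013) (nat_lit 2) (.e (nat_lit 90127) (nat_lit 9) .nil))) (.g (nat_lit 0) (.e (nat_lit 262150) (nat_lit 0) .nil) .nil)))) (.nd (nat_lit 9) 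
(.lf (nat_lit 536877) (.g (nat_lit 3847) (.e (nat_lit 65571) (nat_lit 3) (.e (nat_lit 98350) (nat_lit 24) (.e (nat_lit 409617) (nat_lit 10) (.e (nat_lit 5355) (nat_lit 298) (.e (nat_lit 1235) (nat_lit 91) (.e (nat_lit 90133) (nat_lit 9) (.e (nat_lit 2397) (nat_lit 157) (.e (nat_lit 7585) (nat_lit 406) .nil)))))))) (.g (nat_lit 1) (.e (nat_lit 261652) (nat_lit 0) .nil) .nil))) 
(.lf (nat_lit 537389) (.g (nat_lit 4211) (.e (nat_lit 65610) (nat_lit 10) (.e (nat_lit 344133) (nat_lit 26) (.e (nat_lit 557087) (nat_lit 11) (.e (nat_lit 24625) (nat_lit 9) (.e (nat_lit 336240) (nat_lit 15) (.e (nat_lit 3309) (nat_lit 202) (.e (nat_lit 573484) (nat_lit 13) .nil))))))) (.g (nat_lit 1) (.e (nat_lit 262589) (nat_lit 0) .nil) .nil))))) (.nd (nat_lit 8) (.nd (nat_lit 9) 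
(.lf (nat_lit 536749) (.g (nat_lit 3595) (.e (nat_lit 65568) (nat_lit 2) (.e (nat_lit 90170) (nat_lit 13) (.e (nat_lit 172113) (nat_lit 10) (.e (nat_lit 434245) (nat_lit 28) (.e (nat_lit 573475) (nat_lit 12) (.e (nat_lit 57572) (nat_lit 54) (.e (nat_lit 770071) (nat_lit 8) .nil))))))) (.g (nat_lit 1) (.e (nat_lit 261362) (nat_lit 0) .nil) .nil))) 
(.lf (nat_lit 537261) (.g (nat_lit 1731) (.e (nat_lit 65607) (nat_lit 9) (.e (nat_lit 336012) (nat_lit 2) (.e (nat_lit 90172) (nat_lit 14) (.e (nat_lit 180229) (nat_lit 0) .nil)))) (.g (nat_lit 0) (.e (nat_lit 262311) (nat_lit 0) .nil) .nil)))) (.nd (nat_lit 9) 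
(.lf (nat_lit 537005) (.g (nat_lit 2109) (.e (nat_lit 65586) (nat_lit 7) (.e (nat_lit 319531) (nat_lit 16) (.e (nat_lit 286748) (nat_lit 9) (.e (nat_lit 336295) (nat_lit 15) (.e (nat_lit 3761) (nat_lit 229) (.e (nat_lit 794639) (nat_lit 20) (.e (nat_lit 3615) (nat_lit 226) (.e (nat_lit 770071) (nat_lit 8) .nil)))))))) (.g (nat_lit 1) (.e (nat_lit 261876) (nat_lit 0) .nil) .nil))) 
(.lf (nat_lit 537517) (.g (nat_lit 3480) (.e (nat_lit 65617) (nat_lit 10) (.e (nat_lit 344130) (nat_lit 26) (.e (nat_lit 557091) (nat_lit 12) (.e (nat_lit 164020) (nat_lit 45) (.e (nat_lit 696330) (nat_lit 5) (.e (nat_lit 2884) (nat_lit 184) (.e (nat_lit 426125) (nat_lit 2) (.e (nat_lit 196666) (nat_lit 13) .nil)))))))) (.g (nat_lit 1) (.e (nat_lit 262768) (nat_lit 0) .nil) .nil)))))) 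
(.nd (nat_lit 7) (.nd (nat_lit 8) (.nd (nat_lit 9) 
(.lf (nat_lit 536685) (.g (nat_lit 4539) (.e (nat_lit 57931) (nat_lit 282) (.e (nat_lit 163943) (nat_lit 19) (.e (nat_lit 483413) (nat_lit 27) (.e (nat_lit 401414) (nat_lit 0) (.e (nat_lit 3297) (nat_lit 202) (.e (nat_lit 573481) (nat_lit 13) (.e (nat_lit 65563) (nat_lit 1) .nil))))))) (.g (nat_lit 1) (.e (nat_lit 260969) (nat_lit 0) .nil) .nil))) 
(.lf (nat_lit 537197) (.g (nat_lit 4155) (.e (nat_lit 65604) (nat_lit 9) (.e (nat_lit 336028) (nat_lit 3) (.e (nat_lit 98325) (nat_lit 17) (.e (nat_lit 6986) (nat_lit 377) (.e (nat_lit 2781) (nat_lit 178) (.e (nat_lit 286765) (nat_lit 15) (.e (nat_lit 3308) (nat_lit 202) (.e (nat_lit 573482) (nat_lit 13) .nil)))))))) (.g (nat_lit 1) (.e (nat_lit 262215) (nat_lit 0) .nil) .nil)))) (.nd (nat_lit 9) 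
(.lf (nat_lit 536941) (.g (nat_lit 603) (.e (nat_lit 65580) (nat_lit 6) (.e (nat_lit 147495) (nat_lit 11) (.e (nat_lit 24627) (nat_lit 9) .nil))) (.g (nat_lit 0) (.e (nat_lit 261768) (nat_lit 0) .nil) .nil))) 
(.lf (nat_lit 537453) (.g (nat_lit 1571) (.e (nat_lit 65617) (nat_lit 10) (.e (nat_lit 344127) (nat_lit 26) (.e (nat_lit 557087) (nat_lit 11) (.e (nat_lit 24625) (nat_lit 9) .nil)))) (.g (nat_lit 0) (.e (nat_lit 262691) (nat_lit 0) .nil) .nil))))) (.nd (nat_lit 8) (.nd (nat_lit 9) 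
(.lf (nat_lit 536813) (.g (nat_lit 3642) (.e (nat_lit 65571) (nat_lit 3) (.e (nat_lit 98341) (nat_lit 20) (.e (nat_lit 221213) (nat_lit 23) (.e (nat_lit 204829) (nat_lit 18) (.e (nat_lit 57927) (nat_lit 282) (.e (nat_lit 163868) (nat_lit 2) (.e (nat_lit 196663) (nat_lit 13) .nil))))))) (.g (nat_lit 1) (.e (nat_lit 261585) (nat_lit 0) .nil) .nil))) 
(.lf (nat_lit 537325) (.g (nat_lit 1845) (.e (nat_lit 65610) (nat_lit 10) (.e (nat_lit 344117) (nat_lit 21) (.e (nat_lit 516160) (nat_lit 10) (.e (nat_lit 434208) (nat_lit 18) (.e (nat_lit 4754) (nat_lit 281) .nil))))) (.g (nat_lit 0) (.e (nat_lit 262428) (nat_lit 0) .nil) .nil)))) (.nd (nat_lit 9) 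
(.lf (nat_lit 537069) (.g (nat_lit 601) (.e (nat_lit 65596) (nat_lit 9) (.e (nat_lit 336028) (nat_lit 3) (.e (nat_lit 98350) (nat_lit 24) .nil))) (.g (nat_lit 0) (.e (nat_lit 262028) (nat_lit 0) .nil) .nil))) 
(.lf (nat_lit 537581) (.g (nat_lit 359) (.e (nat_lit 65619) (nat_lit 10) (.e (nat_lit 344117) (nat_lit 21) (.e (nat_lit 516106) (nat_lit 0) .nil))) (.g (nat_lit 0) (.e (nat_lit 262859) (nat_lit 0) .nil) .nil)))))))) (.nd (nat_lit 5) (.nd (nat_lit 6) (.nd (nat_lit 7) (.nd (nat_lit 8) (.nd (nat_lit 9) 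
(.lf (nat_lit 536605) (.g (nat_lit 2862) (.e (nat_lit 57931) (nat_lit 282) (.e (nat_lit 163885) (nat_lit 5) (.e (nat_lit 221212) (nat_lit 22) (.e (nat_lit 196654) (nat_lit 11) (.e (nat_lit 16459) (nat_lit 12) (.e (nat_lit 475177) (nat_lit 24) (.e (nat_lit 524032) (nat_lit 18) .nil))))))) (.g (nat_lit 1) (.e (nat_lit 260746) (nat_lit 0) .nil) .nil))) 
(.lf (nat_lit 537117) (.g (nat_lit 4154) (.e (nat_lit 65603) (nat_lit 9) (.e (nat_lit 336028) (nat_lit 3) (.e (nat_lit 98349) (nat_lit 24) (.e (nat_lit 409646) (nat_lit 18) (.e (nat_lit 303117) (nat_lit 2) (.e (nat_lit 196665) (nat_lit 13) .nil)))))) (.g (nat_lit 1) (.e (nat_lit 262120) (nat_lit 0) .nil) .nil)))) (.nd (nat_lit 9) 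
(.lf (nat_lit 536861) (.g (nat_lit 442) (.e (nat_lit 65571) (nat_lit 3) (.e (nat_lit 98342) (nat_lit 20) (.e (nat_lit 221215) (nat_lit 23) .nil))) (.g (nat_lit 0) (.e (nat_lit 261636) (nat_lit 0) .nil) .nil))) 
(.lf (nat_lit 537373) (.g (nat_lit 3777) (.e (nat_lit 65610) (nat_lit 10) (.e (nat_lit 344129) (nat_lit 26) (.e (nat_lit 557088) (nat_lit 12) (.e (nat_lit 164020) (nat_lit 45) (.e (nat_lit 696344) (nat_lit 8) (.e (nat_lit 172064) (nat_lit 2) (.e (nat_lit 196666) (nat_lit 13) .nil))))))) (.g (nat_lit 1) (.e (nat_lit 262569) (nat_lit 0) .nil) .nil))))) (.nd (nat_lit 8) (.nd (nat_lit 9) 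
(.lf (nat_lit 536733) (.g (nat_lit 2829) (.e (nat_lit 65568) (nat_lit 2) (.e (nat_lit 90170) (nat_lit 13) (.e (nat_lit 172106) (nat_lit 10) (.e (nat_lit 434231) (nat_lit 23) (.e (nat_lit 532570) (nat_lit 17) (.e (nat_lit 3456) (nat_lit 216) (.e (nat_lit 688172) (nat_lit 16) .nil))))))) (.g (nat_lit 1) (.e (nat_lit 261346) (nat_lit 0) .nil) .nil))) 
(.lf (nat_lit 537245) (.g (nat_lit 869) (.e (nat_lit 65601) (nat_lit 9) (.e (nat_lit 336013) (nat_lit 2) (.e (nat_lit 90170) (nat_lit 13) .nil))) (.g (nat_lit 0) (.e (nat_lit 262279) (nat_lit 0) .nil) .nil)))) (.nd (nat_lit 9) 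
(.lf (nat_lit 536989) (.g (nat_lit 1343) (.e (nat_lit 65585) (nat_lit 7) (.e (nat_lit 319533) (nat_lit 16) (.e (nat_lit 286753) (nat_lit 10) (.e (nat_lit 344088) (nat_lit 18) .nil)))) (.g (nat_lit 0) (.e (nat_lit 261856) (nat_lit 0) .nil) .nil))) 
(.lf (nat_lit 537501) (.g (nat_lit 3795) (.e (nat_lit 65617) (nat_lit 10) (.e (nat_lit 344130) (nat_lit 26) (.e (nat_lit 557087) (nat_lit 11) (.e (nat_lit 24625) (nat_lit 9) (.e (nat_lit 336264) (nat_lit 15) (.e (nat_lit 3304) (nat_lit 202) (.e (nat_lit 573484) (nat_lit 13) .nil))))))) (.g (nat_lit 1) (.e (nat_lit 262748) (nat_lit 0) .nil) .nil)))))) 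
(.nd (nat_lit 7) (.nd (nat_lit 8) (.nd (nat_lit 9) 
(.lf (nat_lit 536669) (.g (nat_lit 2677) (.e (nat_lit 57931) (nat_lit 282) (.e (nat_lit 163943) (nat_lit 19) (.e (nat_lit 483393) (nat_lit 23) (.e (nat_lit 336021) (nat_lit 3) (.e (nat_lit 98313) (nat_lit 9) (.e (nat_lit 335993) (nat_lit 1) .nil)))))) (.g (nat_lit 1) (.e (nat_lit 260945) (nat_lit 0) .nil) .nil))) 
(.lf (nat_lit 537181) (.g (nat_lit 4230) (.e (nat_lit 65604) (nat_lit 9) (.e (nat_lit 336013) (nat_lit 2) (.e (nat_lit 90170) (nat_lit 13) (.e (nat_lit 172049) (nat_lit 0) (.e (nat_lit 3408) (nat_lit 212) (.e (nat_lit 655373) (nat_lit 3) (.e (nat_lit 163979) (nat_lit 30) (.e (nat_lit 573482) (nat_lit 13) .nil)))))))) (.g (nat_lit 1) (.e (nat_lit 262198) (nat_lit 0) .nil) .nil)))) (.nd (nat_lit 9) 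
(.lf (nat_lit 536925) (.g (nat_lit 2421) (.e (nat_lit 65578) (nat_lit 6) (.e (nat_lit 147496) (nat_lit 11) (.e (nat_lit 24625) (nat_lit 9) (.e (nat_lit 336438) (nat_lit 31) (.e (nat_lit 466688) (nat_lit 4) .nil))))) (.g (nat_lit 1) (.e (nat_lit 261743) (nat_lit 0) .nil) .nil))) 
(.lf (nat_lit 537437) (.g (nat_lit 5837) (.e (nat_lit 65617) (nat_lit 10) (.e (nat_lit 344117) (nat_lit 21) (.e (nat_lit 516139) (nat_lit 7) (.e (nat_lit 409646) (nat_lit 18) (.e (nat_lit 303117) (nat_lit 2) (.e (nat_lit 196666) (nat_lit 13) .nil)))))) (.g (nat_lit 1) (.e (nat_lit 262673) (nat_lit 0) .nil) .nil))))) (.nd (nat_lit 8) (.nd (nat_lit 9) 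
(.lf (nat_lit 536797) (.g (nat_lit 3123) (.e (nat_lit 65570) (nat_lit 3) (.e (nat_lit 98323) (nat_lit 17) (.e (nat_lit 6989) (nat_lit 377) (.e (nat_lit 2810) (nat_lit 180) (.e (nat_lit 303119) (nat_lit 3) (.e (nat_lit 204819) (nat_lit 17) (.e (nat_lit 7936) (nat_lit 347) .nil))))))) (.g (nat_lit 1) (.e (nat_lit 261533) (nat_lit 0) .nil) .nil))) 
(.lf (nat_lit 537309) (.g (nat_lit 1952) (.e (nat_lit 65610) (nat_lit 10) (.e (nat_lit 344117) (nat_lit 21) (.e (nat_lit 516146) (nat_lit 9) (.e (nat_lit 426442) (nat_lit 19) .nil)))) (.g (nat_lit 0) (.e (nat_lit 262400) (nat_lit 0) .nil) .nil)))) (.nd (nat_lit 9) 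
(.lf (nat_lit 537053) (.g (nat_lit 2431) (.e (nat_lit 65591) (nat_lit 9) (.e (nat_lit 336369) (nat_lit 27) (.e (nat_lit 426173) (nat_lit 7) (.e (nat_lit 409649) (nat_lit 18) (.e (nat_lit 303111) (nat_lit 0) (.e (nat_lit 3459) (nat_lit 216) (.e (nat_lit 688178) (nat_lit 16) .nil))))))) (.g (nat_lit 1) (.e (nat_lit 261998) (nat_lit 0) .nil) .nil))) 
(.lf (nat_lit 537565) (.g (nat_lit 2067) (.e (nat_lit 65618) (nat_lit 10) (.e (nat_lit 344117) (nat_lit 21) (.e (nat_lit 516160) (nat_lit 10) (.e (nat_lit 434272) (nat_lit 38) .nil)))) (.g (nat_lit 0) (.e (nat_lit 262826) (nat_lit 0) .nil) .nil))))))) (.nd (nat_lit 6) (.nd (nat_lit 7) (.nd (nat_lit 8) (.nd (nat_lit 9) 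
(.lf (nat_lit 536637) (.g (nat_lit 1319) (.e (nat_lit 57931) (nat_lit 282) (.e (nat_lit 163931) (nat_lit 17) (.e (nat_lit 466974) (nat_lit 22) (.e (nat_lit 196654) (nat_lit 11) .nil)))) (.g (nat_lit 0) (.e (nat_lit 260848) (nat_lit 0) .nil) .nil))) 
(.lf (nat_lit 537149) (.g (nat_lit 2152) (.e (nat_lit 65604) (nat_lit 9) (.e (nat_lit 336013) (nat_lit 2) (.e (nat_lit 90143) (nat_lit 9) .nil))) (.g (nat_lit 0) (.e (nat_lit 262166) (nat_lit 0) .nil) .nil)))) (.nd (nat_lit 9) 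
(.lf (nat_lit 536893) (.g (nat_lit 1967) (.e (nat_lit 65571) (nat_lit 3) (.e (nat_lit 98374) (nat_lit 29) (.e (nat_lit 450586) (nat_lit 10) (.e (nat_lit 573473) (nat_lit 12) (.e (nat_lit 57572) (nat_lit 54) .nil))))) (.g (nat_lit 0) (.e (nat_lit 261670) (nat_lit 0) .nil) .nil))) 
(.lf (nat_lit 537405) (.g (nat_lit 3659) (.e (nat_lit 65615) (nat_lit 10) (.e (nat_lit 344117) (nat_lit 21) (.e (nat_lit 516151) (nat_lit 9) (.e (nat_lit 426412) (nat_lit 15) .nil)))) (.g (nat_lit 0) (.e (nat_lit 262615) (nat_lit 0) .nil) .nil))))) (.nd (nat_lit 8) (.nd (nat_lit 9) 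
(.lf (nat_lit 536765) (.g (nat_lit 2599) (.e (nat_lit 65569) (nat_lit 3) (.e (nat_lit 98335) (nat_lit 18) (.e (nat_lit 164179) (nat_lit 154) (.e (nat_lit 57379) (nat_lit 3) (.e (nat_lit 98341) (nat_lit 20) .nil))))) (.g (nat_lit 0) (.e (nat_lit 261481) (nat_lit 0) .nil) .nil))) 
(.lf (nat_lit 537277) (.g (nat_lit 917) (.e (nat_lit 65609) (nat_lit 10) (.e (nat_lit 344169) (nat_lit 40) (.e (nat_lit 671764) (nat_lit 6) (.e (nat_lit 81934) (nat_lit 20) .nil)))) (.g (nat_lit 0) (.e (nat_lit 262343) (nat_lit 0) .nil) .nil)))) (.nd (nat_lit 9) 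
(.lf (nat_lit 537021) (.g (nat_lit 3253) (.e (nat_lit 65586) (nat_lit 7) (.e (nat_lit 319531) (nat_lit 16) (.e (nat_lit 286759) (nat_lit 12) (.e (nat_lit 385094) (nat_lit 49) (.e (nat_lit 778344) (nat_lit 9) (.e (nat_lit 2455) (nat_lit 157) (.e (nat_lit 3613) (nat_lit 226) (.e (nat_lit 770072) (nat_lit 8) .nil)))))))) (.g (nat_lit 1) (.e (nat_lit 261892) (nat_lit 0) .nil) .nil))) 
(.lf (nat_lit 537533) (.g (nat_lit 3728) (.e (nat_lit 65617) (nat_lit 10) (.e (nat_lit 344133) (nat_lit 26) (.e (nat_lit 557086) (nat_lit 11) (.e (nat_lit 24577) (nat_lit 0) (.e (nat_lit 6619) (nat_lit 357) (.e (nat_lit 2668) (nat_lit 167) (.e (nat_lit 196666) (nat_lit 13) .nil))))))) (.g (nat_lit 1) (.e (nat_lit 262788) (nat_lit 0) .nil) .nil)))))) 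
(.nd (nat_lit 7) (.nd (nat_lit 8) (.nd (nat_lit 9) 
(.lf (nat_lit 536701) (.g (nat_lit 3204) (.e (nat_lit 65549) (nat_lit 0) (.e (nat_lit 1858) (nat_lit 124) (.e (nat_lit 557105) (nat_lit 14) (.e (nat_lit 180252) (nat_lit 10) (.e (nat_lit 573475) (nat_lit 12) .nil))))) (.g (nat_lit 0) (.e (nat_lit 261152) (nat_lit 0) .nil) .nil))) 
(.lf (nat_lit 537213) (.g (nat_lit 3333) (.e (nat_lit 65604) (nat_lit 9) (.e (nat_lit 336028) (nat_lit 3) (.e (nat_lit 98365) (nat_lit 26) (.e (nat_lit 426108) (nat_lit 1) (.e (nat_lit 164345) (nat_lit 240) (.e (nat_lit 2610) (nat_lit 163) (.e (nat_lit 163978) (nat_lit 30) (.e (nat_lit 573485) (nat_lit 13) .nil)))))))) (.g (nat_lit 1) (.e (nat_lit 262239) (nat_lit 0) .nil) .nil)))) 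
(.nd (nat_lit 9) 
(.lf (nat_lit 536957) (.g (nat_lit 2214) (.e (nat_lit 65583) (nat_lit 7) (.e (nat_lit 319506) (nat_lit 10) (.e (nat_lit 4854) (nat_lit 287) (.e (nat_lit 2809) (nat_lit 180) (.e (nat_lit 303137) (nat_lit 10) (.e (nat_lit 434266) (nat_lit 35) (.e (nat_lit 630821) (nat_lit 16) .nil))))))) (.g (nat_lit 1) (.e (nat_lit 261800) (nat_lit 0) .nil) .nil))) 
(.lf (nat_lit 537469) (.g (nat_lit 2475) (.e (nat_lit 65617) (nat_lit 10) (.e (nat_lit 344127) (nat_lit 26) (.e (nat_lit 557090) (nat_lit 12) (.e (nat_lit 163847) (nat_lit 0) (.e (nat_lit 6252) (nat_lit 337) .nil))))) (.g (nat_lit 0) (.e (nat_lit 262709) (nat_lit 0) .nil) .nil))))) (.nd (nat_lit 8) (.nd (nat_lit 9) 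
(.lf (nat_lit 536829) (.g (nat_lit 3525) (.e (nat_lit 65571) (nat_lit 3) (.e (nat_lit 98341) (nat_lit 20) (.e (nat_lit 221215) (nat_lit 23) (.e (nat_lit 204829) (nat_lit 18) (.e (nat_lit 57931) (nat_lit 282) (.e (nat_lit 163867) (nat_lit 2) (.e (nat_lit 196663) (nat_lit 13) .nil))))))) (.g (nat_lit 1) (.e (nat_lit 261601) (nat_lit 0) .nil) .nil))) 
(.lf (nat_lit 537341) (.g (nat_lit 2291) (.e (nat_lit 65610) (nat_lit 10) (.e (nat_lit 344127) (nat_lit 26) (.e (nat_lit 557090) (nat_lit 12) (.e (nat_lit 163844) (nat_lit 0) .nil)))) (.g (nat_lit 0) (.e (nat_lit 262463) (nat_lit 0) .nil) .nil)))) (.nd (nat_lit 9) 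
(.lf (nat_lit 537085) (.g (nat_lit 2531) (.e (nat_lit 65598) (nat_lit 9) (.e (nat_lit 336013) (nat_lit 2) (.e (nat_lit 90134) (nat_lit 9) (.e (nat_lit 3063) (nat_lit 190) .nil)))) (.g (nat_lit 0) (.e (nat_lit 262069) (nat_lit 0) .nil) .nil))) 
(.lf (nat_lit 537597) (.g (nat_lit 3195) (.e (nat_lit 65619) (nat_lit 10) (.e (nat_lit 344117) (nat_lit 21) (.e (nat_lit 516139) (nat_lit 7) (.e (nat_lit 409651) (nat_lit 19) .nil)))) (.g (nat_lit 0) (.e (nat_lit 262878) (nat_lit 0) .nil) .nil))))))))))) (.nd (nat_lit 2) (.nd (nat_lit 3) (.nd (nat_lit 4) (.nd (nat_lit 5) (.nd (nat_lit 6) (.nd (nat_lit 7) (.nd (nat_lit 8) (.nd (nat_lit 9) 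
(.lf (nat_lit 536579) (.g (nat_lit 1659) (.e (nat_lit 57931) (nat_lit 282) (.e (nat_lit 163874) (nat_lit 3) (.e (nat_lit 204861) (nat_lit 26) (.e (nat_lit 336212) (nat_lit 13) .nil)))) (.g (nat_lit 0) (.e (nat_lit 260706) (nat_lit 0) .nil) .nil))) 
(.lf (nat_lit 537091) (.g (nat_lit 1755) (.e (nat_lit 65598) (nat_lit 9) (.e (nat_lit 336013) (nat_lit 2) (.e (nat_lit 90169) (nat_lit 13) (.e (nat_lit 172133) (nat_lit 15) .nil)))) (.g (nat_lit 0) (.e (nat_lit 262075) (nat_lit 0) .nil) .nil)))) (.nd (nat_lit 9) 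
(.lf (nat_lit 536835) (.g (nat_lit 2867) (.e (nat_lit 65571) (nat_lit 3) (.e (nat_lit 98341) (nat_lit 20) (.e (nat_lit 221215) (nat_lit 23) (.e (nat_lit 204830) (nat_lit 18) (.e (nat_lit 57931) (nat_lit 282) (.e (nat_lit 163869) (nat_lit 2) (.e (nat_lit 196664) (nat_lit 13) .nil))))))) (.g (nat_lit 1) (.e (nat_lit 261607) (nat_lit 0) .nil) .nil))) 
(.lf (nat_lit 537347) (.g (nat_lit 2844) (.e (nat_lit 65610) (nat_lit 10) (.e (nat_lit 344129) (nat_lit 26) (.e (nat_lit 557065) (nat_lit 9) (.e (nat_lit 2612) (nat_lit 163) (.e (nat_lit 164188) (nat_lit 157) (.e (nat_lit 229399) (nat_lit 12) (.e (nat_lit 426125) (nat_lit 2) (.e (nat_lit 196666) (nat_lit 13) .nil)))))))) (.g (nat_lit 1) (.e (nat_lit 262474) (nat_lit 0) .nil) .nil))))) 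
(.nd (nat_lit 8) (.nd (nat_lit 9) 
(.lf (nat_lit 536707) (.g (nat_lit 2724) (.e (nat_lit 65563) (nat_lit 1) (.e (nat_lit 57926) (nat_lit 282) (.e (nat_lit 163943) (nat_lit 19) (.e (nat_lit 483344) (nat_lit 17) (.e (nat_lit 6712) (nat_lit 360) .nil))))) (.g (nat_lit 0) (.e (nat_lit 261193) (nat_lit 0) .nil) .nil))) 
(.lf (nat_lit 537219) (.g (nat_lit 2019) (.e (nat_lit 65604) (nat_lit 9) (.e (nat_lit 336028) (nat_lit 3) (.e (nat_lit 98367) (nat_lit 27) (.e (nat_lit 434203) (nat_lit 18) (.e (nat_lit 5537) (nat_lit 306) .nil))))) (.g (nat_lit 0) (.e (nat_lit 262245) (nat_lit 0) .nil) .nil)))) (.nd (nat_lit 9) 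
(.lf (nat_lit 536963) (.g (nat_lit 2331) (.e (nat_lit 65583) (nat_lit 7) (.e (nat_lit 319527) (nat_lit 15) (.e (nat_lit 278546) (nat_lit 8) (.e (nat_lit 303137) (nat_lit 10) (.e (nat_lit 434268) (nat_lit 36) (.e (nat_lit 639020) (nat_lit 16) .nil)))))) (.g (nat_lit 1) (.e (nat_lit 261810) (nat_lit 0) .nil) .nil))) 
(.lf (nat_lit 537475) (.g (nat_lit 2036) (.e (nat_lit 65617) (nat_lit 10) (.e (nat_lit 344127) (nat_lit 26) (.e (nat_lit 557090) (nat_lit 12) (.e (nat_lit 164017) (nat_lit 44) .nil)))) (.g (nat_lit 0) (.e (nat_lit 262716) (nat_lit 0) .nil) .nil)))))) (.nd (nat_lit 7) (.nd (nat_lit 8) (.nd (nat_lit 9) 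
(.lf (nat_lit 536643) (.g (nat_lit 1896) (.e (nat_lit 57931) (nat_lit 282) (.e (nat_lit 163941) (nat_lit 19) (.e (nat_lit 483346) (nat_lit 17) (.e (nat_lit 6714) (nat_lit 360) (.e (nat_lit 163975) (nat_lit 30) .nil))))) (.g (nat_lit 0) (.e (nat_lit 260859) (nat_lit 0) .nil) .nil))) 
(.lf (nat_lit 537155) (.g (nat_lit 3833) (.e (nat_lit 65604) (nat_lit 9) (.e (nat_lit 336013) (nat_lit 2) (.e (nat_lit 90165) (nat_lit 12) (.e (nat_lit 164208) (nat_lit 176) (.e (nat_lit 2782) (nat_lit 178) (.e (nat_lit 286765) (nat_lit 15) (.e (nat_lit 3308) (nat_lit 202) (.e (nat_lit 573482) (nat_lit 13) .nil)))))))) (.g (nat_lit 1) (.e (nat_lit 262172) (nat_lit 0) .nil) .nil)))) 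
(.nd (nat_lit 9) 
(.lf (nat_lit 536899) (.g (nat_lit 1492) (.e (nat_lit 65574) (nat_lit 4) (.e (nat_lit 123182) (nat_lit 264) (.e (nat_lit 1183) (nat_lit 87) (.e (nat_lit 57478) (nat_lit 28) .nil)))) (.g (nat_lit 0) (.e (nat_lit 261687) (nat_lit 0) .nil) .nil))) 
(.lf (nat_lit 537411) (.g (nat_lit 2244) (.e (nat_lit 65616) (nat_lit 10) (.e (nat_lit 344119) (nat_lit 21) (.e (nat_lit 516179) (nat_lit 15) (.e (nat_lit 475199) (nat_lit 40) (.e (nat_lit 704589) (nat_lit 3) .nil))))) (.g (nat_lit 0) (.e (nat_lit 262635) (nat_lit 0) .nil) .nil))))) (.nd (nat_lit 8) (.nd (nat_lit 9) 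
(.lf (nat_lit 536771) (.g (nat_lit 3875) (.e (nat_lit 65569) (nat_lit 3) (.e (nat_lit 98341) (nat_lit 20) (.e (nat_lit 221215) (nat_lit 23) (.e (nat_lit 204829) (nat_lit 18) (.e (nat_lit 57931) (nat_lit 282) (.e (nat_lit 163869) (nat_lit 2) (.e (nat_lit 196666) (nat_lit 13) .nil))))))) (.g (nat_lit 1) (.e (nat_lit 261495) (nat_lit 0) .nil) .nil))) 
(.lf (nat_lit 537283) (.g (nat_lit 532) (.e (nat_lit 65610) (nat_lit 10) (.e (nat_lit 344117) (nat_lit 21) (.e (nat_lit 516097) (nat_lit 0) .nil))) (.g (nat_lit 0) (.e (nat_lit 262367) (nat_lit 0) .nil) .nil)))) (.nd (nat_lit 9) 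
(.lf (nat_lit 537027) (.g (nat_lit 2716) (.e (nat_lit 65586) (nat_lit 7) (.e (nat_lit 319531) (nat_lit 16) (.e (nat_lit 286759) (nat_lit 12) (.e (nat_lit 385107) (nat_lit 51) (.e (nat_lit 794644) (nat_lit 20) (.e (nat_lit 3606) (nat_lit 226) (.e (nat_lit 770072) (nat_lit 8) .nil))))))) (.g (nat_lit 1) (.e (nat_lit 261898) (nat_lit 0) .nil) .nil))) 
(.lf (nat_lit 537539) (.g (nat_lit 4432) (.e (nat_lit 65617) (nat_lit 10) (.e (nat_lit 344133) (nat_lit 26) (.e (nat_lit 557087) (nat_lit 11) (.e (nat_lit 24625) (nat_lit 9) (.e (nat_lit 336284) (nat_lit 15) (.e (nat_lit 3302) (nat_lit 202) (.e (nat_lit 573484) (nat_lit 13) .nil))))))) (.g (nat_lit 1) (.e (nat_lit 262794) (nat_lit 0) .nil) .nil))))))) 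
(.nd (nat_lit 6) (.nd (nat_lit 7) (.nd (nat_lit 8) (.nd (nat_lit 9) 
(.lf (nat_lit 536611) (.g (nat_lit 595) (.e (nat_lit 57931) (nat_lit 282) (.e (nat_lit 163902) (nat_lit 12) (.e (nat_lit 426546) (nat_lit 30) .nil))) (.g (nat_lit 0) (.e (nat_lit 260809) (nat_lit 0) .nil) .nil))) 
(.lf (nat_lit 537123) (.g (nat_lit 429) (.e (nat_lit 65604) (nat_lit 9) (.e (nat_lit 335997) (nat_lit 1) (.e (nat_lit 57822) (nat_lit 250) .nil))) (.g (nat_lit 0) (.e (nat_lit 262132) (nat_lit 0) .nil) .nil)))) (.nd (nat_lit 9) 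
(.lf (nat_lit 536867) (.g (nat_lit 2978) (.e (nat_lit 65571) (nat_lit 3) (.e (nat_lit 98342) (nat_lit 20) (.e (nat_lit 221215) (nat_lit 23) (.e (nat_lit 204829) (nat_lit 18) (.e (nat_lit 57928) (nat_lit 282) (.e (nat_lit 163868) (nat_lit 2) (.e (nat_lit 196663) (nat_lit 13) .nil))))))) (.g (nat_lit 1) (.e (nat_lit 261642) (nat_lit 0) .nil) .nil))) 
(.lf (nat_lit 537379) (.g (nat_lit 2112) (.e (nat_lit 65610) (nat_lit 10) (.e (nat_lit 344129) (nat_lit 26) (.e (nat_lit 557090) (nat_lit 12) (.e (nat_lit 163843) (nat_lit 0) (.e (nat_lit 6254) (nat_lit 337) .nil))))) (.g (nat_lit 0) (.e (nat_lit 262576) (nat_lit 0) .nil) .nil))))) (.nd (nat_lit 8) (.nd (nat_lit 9) 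
(.lf (nat_lit 536739) (.g (nat_lit 2707) (.e (nat_lit 65568) (nat_lit 2) (.e (nat_lit 90170) (nat_lit 13) (.e (nat_lit 172106) (nat_lit 10) (.e (nat_lit 434231) (nat_lit 23) (.e (nat_lit 532577) (nat_lit 17) (.e (nat_lit 3452) (nat_lit 216) (.e (nat_lit 688176) (nat_lit 16) .nil))))))) (.g (nat_lit 1) (.e (nat_lit 261352) (nat_lit 0) .nil) .nil))) 
(.lf (nat_lit 537251) (.g (nat_lit 1580) (.e (nat_lit 65606) (nat_lit 9) (.e (nat_lit 336027) (nat_lit 3) (.e (nat_lit 98349) (nat_lit 24) (.e (nat_lit 409645) (nat_lit 18) .nil)))) (.g (nat_lit 0) (.e (nat_lit 262298) (nat_lit 0) .nil) .nil)))) (.nd (nat_lit 9) 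
(.lf (nat_lit 536995) (.g (nat_lit 1105) (.e (nat_lit 65586) (nat_lit 7) (.e (nat_lit 319526) (nat_lit 15) (.e (nat_lit 278547) (nat_lit 8) (.e (nat_lit 303140) (nat_lit 10) (.e (nat_lit 434266) (nat_lit 35) (.e (nat_lit 630821) (nat_lit 16) .nil)))))) (.g (nat_lit 1) (.e (nat_lit 261866) (nat_lit 0) .nil) .nil))) 
(.lf (nat_lit 537507) (.g (nat_lit 4532) (.e (nat_lit 65617) (nat_lit 10) (.e (nat_lit 344130) (nat_lit 26) (.e (nat_lit 557087) (nat_lit 11) (.e (nat_lit 24631) (nat_lit 9) (.e (nat_lit 336295) (nat_lit 15) (.e (nat_lit 3305) (nat_lit 202) (.e (nat_lit 573484) (nat_lit 13) .nil))))))) (.g (nat_lit 1) (.e (nat_lit 262754) (nat_lit 0) .nil) .nil)))))) 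
(.nd (nat_lit 7) (.nd (nat_lit 8) (.nd (nat_lit 9) 
(.lf (nat_lit 536675) (.g (nat_lit 1098) (.e (nat_lit 57931) (nat_lit 282) (.e (nat_lit 163943) (nat_lit 19) (.e (nat_lit 483410) (nat_lit 27) .nil))) (.g (nat_lit 0) (.e (nat_lit 260958) (nat_lit 0) .nil) .nil))) 
(.lf (nat_lit 537187) (.g (nat_lit 4550) (.e (nat_lit 65604) (nat_lit 9) (.e (nat_lit 336013) (nat_lit 2) (.e (nat_lit 90170) (nat_lit 13) (.e (nat_lit 172059) (nat_lit 1) (.e (nat_lit 164348) (nat_lit 240) (.e (nat_lit 2599) (nat_lit 163) (.e (nat_lit 163979) (nat_lit 30) (.e (nat_lit 573482) (nat_lit 13) .nil)))))))) (.g (nat_lit 1) (.e (nat_lit 262204) (nat_lit 0) .nil) .nil)))) 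
(.nd (nat_lit 9) 
(.lf (nat_lit 536931) (.g (nat_lit 1573) (.e (nat_lit 65580) (nat_lit 6) (.e (nat_lit 147492) (nat_lit 11) (.e (nat_lit 24657) (nat_lit 13) (.e (nat_lit 393239) (nat_lit 17) (.e (nat_lit 7936) (nat_lit 406) .nil))))) (.g (nat_lit 1) (.e (nat_lit 261756) (nat_lit 0) .nil) .nil))) 
(.lf (nat_lit 537443) (.g (nat_lit 661) (.e (nat_lit 65617) (nat_lit 10) (.e (nat_lit 344117) (nat_lit 21) (.e (nat_lit 516160) (nat_lit 10) .nil))) (.g (nat_lit 0) (.e (nat_lit 262679) (nat_lit 0) .nil) .nil))))) (.nd (nat_lit 8) (.nd (nat_lit 9) 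
(.lf (nat_lit 536803) (.g (nat_lit 1014) (.e (nat_lit 65570) (nat_lit 3) (.e (nat_lit 98333) (nat_lit 18) (.e (nat_lit 164182) (nat_lit 154) .nil))) (.g (nat_lit 0) (.e (nat_lit 261546) (nat_lit 0) .nil) .nil))) 
(.lf (nat_lit 537315) (.g (nat_lit 3154) (.e (nat_lit 65610) (nat_lit 10) (.e (nat_lit 344117) (nat_lit 21) (.e (nat_lit 516151) (nat_lit 9) (.e (nat_lit 426037) (nat_lit 0) (.e (nat_lit 3406) (nat_lit 212) .nil))))) (.g (nat_lit 0) (.e (nat_lit 262406) (nat_lit 0) .nil) .nil)))) (.nd (nat_lit 9) 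
(.lf (nat_lit 537059) (.g (nat_lit 3288) (.e (nat_lit 65595) (nat_lit 9) (.e (nat_lit 336013) (nat_lit 2) (.e (nat_lit 90170) (nat_lit 13) (.e (nat_lit 172042) (nat_lit 0) .nil)))) (.g (nat_lit 0) (.e (nat_lit 262012) (nat_lit 0) .nil) .nil))) 
(.lf (nat_lit 537571) (.g (nat_lit 3012) (.e (nat_lit 65619) (nat_lit 10) (.e (nat_lit 344090) (nat_lit 18) (.e (nat_lit 7708) (nat_lit 414) (.e (nat_lit 163908) (nat_lit 12) (.e (nat_lit 426285) (nat_lit 10) (.e (nat_lit 434241) (nat_lit 27) (.e (nat_lit 565267) (nat_lit 4) .nil))))))) (.g (nat_lit 1) (.e (nat_lit 262832) (nat_lit 0) .nil) .nil)))))))) 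
(.nd (nat_lit 5) (.nd (nat_lit 6) (.nd (nat_lit 7) (.nd (nat_lit 8) (.nd (nat_lit 9) 
(.lf (nat_lit 536595) (.g (nat_lit 3086) (.e (nat_lit 57931) (nat_lit 282) (.e (nat_lit 163874) (nat_lit 3) (.e (nat_lit 204876) (nat_lit 31) (.e (nat_lit 376842) (nat_lit 11) (.e (nat_lit 426500) (nat_lit 27) (.e (nat_lit 335995) (nat_lit 1) .nil)))))) (.g (nat_lit 1) (.e (nat_lit 260731) (nat_lit 0) .nil) .nil))) 
(.lf (nat_lit 537107) (.g (nat_lit 3922) (.e (nat_lit 65598) (nat_lit 9) (.e (nat_lit 336412) (nat_lit 27) (.e (nat_lit 426343) (nat_lit 14) (.e (nat_lit 491560) (nat_lit 10) (.e (nat_lit 344177) (nat_lit 43) (.e (nat_lit 770072) (nat_lit 8) .nil)))))) (.g (nat_lit 1) (.e (nat_lit 262094) (nat_lit 0) .nil) .nil)))) (.nd (nat_lit 9) 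
(.lf (nat_lit 536851) (.g (nat_lit 2747) (.e (nat_lit 65571) (nat_lit 3) (.e (nat_lit 98342) (nat_lit 20) (.e (nat_lit 221214) (nat_lit 23) (.e (nat_lit 204830) (nat_lit 18) (.e (nat_lit 57926) (nat_lit 282) (.e (nat_lit 163869) (nat_lit 2) (.e (nat_lit 196663) (nat_lit 13) .nil))))))) (.g (nat_lit 1) (.e (nat_lit 261626) (nat_lit 0) .nil) .nil))) 
(.lf (nat_lit 537363) (.g (nat_lit 4052) (.e (nat_lit 65610) (nat_lit 10) (.e (nat_lit 344129) (nat_lit 26) (.e (nat_lit 557086) (nat_lit 11) (.e (nat_lit 24628) (nat_lit 9) (.e (nat_lit 336240) (nat_lit 15) (.e (nat_lit 3309) (nat_lit 202) (.e (nat_lit 573484) (nat_lit 13) .nil))))))) (.g (nat_lit 1) (.e (nat_lit 262555) (nat_lit 0) .nil) .nil))))) (.nd (nat_lit 8) (.nd (nat_lit 9) 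
(.lf (nat_lit 536723) (.g (nat_lit 2302) (.e (nat_lit 65566) (nat_lit 2) (.e (nat_lit 90170) (nat_lit 13) (.e (nat_lit 172113) (nat_lit 10) (.e (nat_lit 434247) (nat_lit 28) (.e (nat_lit 573477) (nat_lit 12) .nil))))) (.g (nat_lit 0) (.e (nat_lit 261302) (nat_lit 0) .nil) .nil))) 
(.lf (nat_lit 537235) (.g (nat_lit 2932) (.e (nat_lit 65604) (nat_lit 9) (.e (nat_lit 336028) (nat_lit 3) (.e (nat_lit 98384) (nat_lit 32) (.e (nat_lit 475198) (nat_lit 40) (.e (nat_lit 704589) (nat_lit 3) (.e (nat_lit 163976) (nat_lit 30) (.e (nat_lit 573481) (nat_lit 13) .nil))))))) (.g (nat_lit 1) (.e (nat_lit 262267) (nat_lit 0) .nil) .nil)))) (.nd (nat_lit 9) 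
(.lf (nat_lit 536979) (.g (nat_lit 1596) (.e (nat_lit 65583) (nat_lit 7) (.e (nat_lit 319530) (nat_lit 16) (.e (nat_lit 294656) (nat_lit 35) (.e (nat_lit 491566) (nat_lit 12) (.e (nat_lit 385100) (nat_lit 49) .nil))))) (.g (nat_lit 0) (.e (nat_lit 261829) (nat_lit 0) .nil) .nil))) 
(.lf (nat_lit 537491) (.g (nat_lit 2556) (.e (nat_lit 65617) (nat_lit 10) (.e (nat_lit 344129) (nat_lit 26) (.e (nat_lit 557090) (nat_lit 12) (.e (nat_lit 163850) (nat_lit 0) .nil)))) (.g (nat_lit 0) (.e (nat_lit 262733) (nat_lit 0) .nil) .nil)))))) (.nd (nat_lit 7) (.nd (nat_lit 8) (.nd (nat_lit 9) 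
(.lf (nat_lit 536659) (.g (nat_lit 1141) (.e (nat_lit 57931) (nat_lit 282) (.e (nat_lit 163943) (nat_lit 19) (.e (nat_lit 483354) (nat_lit 17) .nil))) (.g (nat_lit 0) (.e (nat_lit 260908) (nat_lit 0) .nil) .nil))) 
(.lf (nat_lit 537171) (.g (nat_lit 4766) (.e (nat_lit 65604) (nat_lit 9) (.e (nat_lit 336013) (nat_lit 2) (.e (nat_lit 90170) (nat_lit 13) (.e (nat_lit 172042) (nat_lit 0) (.e (nat_lit 3406) (nat_lit 212) (.e (nat_lit 655375) (nat_lit 3) (.e (nat_lit 163979) (nat_lit 30) (.e (nat_lit 573482) (nat_lit 13) .nil)))))))) (.g (nat_lit 1) (.e (nat_lit 262188) (nat_lit 0) .nil) .nil)))) (.nd (nat_lit 9) 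
(.lf (nat_lit 536915) (.g (nat_lit 2003) (.e (nat_lit 65578) (nat_lit 6) (.e (nat_lit 147495) (nat_lit 11) (.e (nat_lit 24628) (nat_lit 9) (.e (nat_lit 336438) (nat_lit 31) (.e (nat_lit 466688) (nat_lit 4) .nil))))) (.g (nat_lit 1) (.e (nat_lit 261729) (nat_lit 0) .nil) .nil))) 
(.lf (nat_lit 537427) (.g (nat_lit 2031) (.e (nat_lit 65617) (nat_lit 10) (.e (nat_lit 344115) (nat_lit 20) (.e (nat_lit 507922) (nat_lit 6) (.e (nat_lit 286748) (nat_lit 9) (.e (nat_lit 336295) (nat_lit 15) (.e (nat_lit 3305) (nat_lit 202) (.e (nat_lit 573484) (nat_lit 13) .nil))))))) (.g (nat_lit 1) (.e (nat_lit 262663) (nat_lit 0) .nil) .nil))))) (.nd (nat_lit 8) (.nd (nat_lit 9) 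
(.lf (nat_lit 536787) (.g (nat_lit 4844) (.e (nat_lit 65569) (nat_lit 3) (.e (nat_lit 98342) (nat_lit 20) (.e (nat_lit 221215) (nat_lit 23) (.e (nat_lit 204829) (nat_lit 18) (.e (nat_lit 57931) (nat_lit 282) (.e (nat_lit 163869) (nat_lit 2) (.e (nat_lit 196666) (nat_lit 13) .nil))))))) (.g (nat_lit 1) (.e (nat_lit 261515) (nat_lit 0) .nil) .nil))) 
(.lf (nat_lit 537299) (.g (nat_lit 1519) (.e (nat_lit 65610) (nat_lit 10) (.e (nat_lit 344117) (nat_lit 21) (.e (nat_lit 516116) (nat_lit 1) (.e (nat_lit 171776) (nat_lit 266) .nil)))) (.g (nat_lit 0) (.e (nat_lit 262386) (nat_lit 0) .nil) .nil)))) (.nd (nat_lit 9) 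
(.lf (nat_lit 537043) (.g (nat_lit 2856) (.e (nat_lit 65589) (nat_lit 9) (.e (nat_lit 336013) (nat_lit 2) (.e (nat_lit 90170) (nat_lit 13) (.e (nat_lit 172049) (nat_lit 0) .nil)))) (.g (nat_lit 0) (.e (nat_lit 261922) (nat_lit 0) .nil) .nil))) 
(.lf (nat_lit 537555) (.g (nat_lit 914) (.e (nat_lit 65617) (nat_lit 10) (.e (nat_lit 344169) (nat_lit 40) (.e (nat_lit 671764) (nat_lit 6) (.e (nat_lit 81958) (nat_lit 24) .nil)))) (.g (nat_lit 0) (.e (nat_lit 262812) (nat_lit 0) .nil) .nil))))))) (.nd (nat_lit 6) (.nd (nat_lit 7) (.nd (nat_lit 8) (.nd (nat_lit 9) 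
(.lf (nat_lit 536627) (.g (nat_lit 3054) (.e (nat_lit 57931) (nat_lit 282) (.e (nat_lit 163905) (nat_lit 12) (.e (nat_lit 426555) (nat_lit 32) (.e (nat_lit 376865) (nat_lit 22) (.e (nat_lit 90158) (nat_lit 11) (.e (nat_lit 24597) (nat_lit 1) .nil)))))) (.g (nat_lit 1) (.e (nat_lit 260830) (nat_lit 0) .nil) .nil))) 
(.lf (nat_lit 537139) (.g (nat_lit 3757) (.e (nat_lit 65604) (nat_lit 9) (.e (nat_lit 336013) (nat_lit 2) (.e (nat_lit 90134) (nat_lit 9) (.e (nat_lit 3063) (nat_lit 190) (.e (nat_lit 475199) (nat_lit 40) (.e (nat_lit 704589) (nat_lit 3) (.e (nat_lit 163976) (nat_lit 30) (.e (nat_lit 573481) (nat_lit 13) .nil)))))))) (.g (nat_lit 1) (.e (nat_lit 262156) (nat_lit 0) .nil) .nil)))) (.nd (nat_lit 9) 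
(.lf (nat_lit 536883) (.g (nat_lit 1044) (.e (nat_lit 65571) (nat_lit 3) (.e (nat_lit 98353) (nat_lit 25) (.e (nat_lit 417820) (nat_lit 10) (.e (nat_lit 5761) (nat_lit 315) .nil)))) (.g (nat_lit 0) (.e (nat_lit 261658) (nat_lit 0) .nil) .nil))) 
(.lf (nat_lit 537395) (.g (nat_lit 3158) (.e (nat_lit 65611) (nat_lit 10) (.e (nat_lit 344117) (nat_lit 21) (.e (nat_lit 516139) (nat_lit 7) (.e (nat_lit 409647) (nat_lit 18) .nil)))) (.g (nat_lit 0) (.e (nat_lit 262599) (nat_lit 0) .nil) .nil))))) (.nd (nat_lit 8) (.nd (nat_lit 9) 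
(.lf (nat_lit 536755) (.g (nat_lit 4372) (.e (nat_lit 65568) (nat_lit 2) (.e (nat_lit 90170) (nat_lit 13) (.e (nat_lit 172113) (nat_lit 10) (.e (nat_lit 434247) (nat_lit 28) (.e (nat_lit 573475) (nat_lit 12) (.e (nat_lit 57572) (nat_lit 54) (.e (nat_lit 770071) (nat_lit 8) .nil))))))) (.g (nat_lit 1) (.e (nat_lit 261368) (nat_lit 0) .nil) .nil))) 
(.lf (nat_lit 537267) (.g (nat_lit 3713) (.e (nat_lit 65609) (nat_lit 10) (.e (nat_lit 344117) (nat_lit 21) (.e (nat_lit 516139) (nat_lit 7) (.e (nat_lit 409645) (nat_lit 18) (.e (nat_lit 303117) (nat_lit 2) (.e (nat_lit 196665) (nat_lit 13) .nil)))))) (.g (nat_lit 1) (.e (nat_lit 262327) (nat_lit 0) .nil) .nil)))) (.nd (nat_lit 9) 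
(.lf (nat_lit 537011) (.g (nat_lit 2403) (.e (nat_lit 65586) (nat_lit 7) (.e (nat_lit 319531) (nat_lit 16) (.e (nat_lit 286753) (nat_lit 10) (.e (nat_lit 344160) (nat_lit 37) (.e (nat_lit 647196) (nat_lit 9) .nil))))) (.g (nat_lit 0) (.e (nat_lit 261882) (nat_lit 0) .nil) .nil))) 
(.lf (nat_lit 537523) (.g (nat_lit 3553) (.e (nat_lit 65617) (nat_lit 10) (.e (nat_lit 344132) (nat_lit 26) (.e (nat_lit 557093) (nat_lit 12) (.e (nat_lit 164023) (nat_lit 46) (.e (nat_lit 704629) (nat_lit 9) (.e (nat_lit 442) (nat_lit 33) (.e (nat_lit 434217) (nat_lit 19) (.e (nat_lit 500065) (nat_lit 18) .nil)))))))) (.g (nat_lit 1) (.e (nat_lit 262776) (nat_lit 0) .nil) .nil)))))) 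
(.nd (nat_lit 7) (.nd (nat_lit 8) (.nd (nat_lit 9) 
(.lf (nat_lit 536691) (.g (nat_lit 838) (.e (nat_lit 57921) (nat_lit 280) (.e (nat_lit 57379) (nat_lit 3) (.e (nat_lit 98384) (nat_lit 32) .nil))) (.g (nat_lit 0) (.e (nat_lit 260992) (nat_lit 0) .nil) .nil))) 
(.lf (nat_lit 537203) (.g (nat_lit 4533) (.e (nat_lit 65604) (nat_lit 9) (.e (nat_lit 336028) (nat_lit 3) (.e (nat_lit 98359) (nat_lit 26) (.e (nat_lit 426043) (nat_lit 0) (.e (nat_lit 3406) (nat_lit 212) (.e (nat_lit 655375) (nat_lit 3) (.e (nat_lit 163979) (nat_lit 30) (.e (nat_lit 573482) (nat_lit 13) .nil)))))))) (.g (nat_lit 1) (.e (nat_lit 262227) (nat_lit 0) .nil) .nil)))) (.nd (nat_lit 9) 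
(.lf (nat_lit 536947) (.g (nat_lit 2432) (.e (nat_lit 65582) (nat_lit 7) (.e (nat_lit 319531) (nat_lit 16) (.e (nat_lit 286756) (nat_lit 10) (.e (nat_lit 344160) (nat_lit 37) (.e (nat_lit 647188) (nat_lit 9) .nil))))) (.g (nat_lit 0) (.e (nat_lit 261786) (nat_lit 0) .nil) .nil))) 
(.lf (nat_lit 537459) (.g (nat_lit 2648) (.e (nat_lit 65617) (nat_lit 10) (.e (nat_lit 344127) (nat_lit 26) (.e (nat_lit 557090) (nat_lit 12) (.e (nat_lit 163843) (nat_lit 0) (.e (nat_lit 6416) (nat_lit 341) .nil))))) (.g (nat_lit 0) (.e (nat_lit 262699) (nat_lit 0) .nil) .nil))))) (.nd (nat_lit 8) (.nd (nat_lit 9) 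
(.lf (nat_lit 536819) (.g (nat_lit 3979) (.e (nat_lit 65571) (nat_lit 3) (.e (nat_lit 98341) (nat_lit 20) (.e (nat_lit 221214) (nat_lit 23) (.e (nat_lit 204829) (nat_lit 18) (.e (nat_lit 57931) (nat_lit 282) (.e (nat_lit 163867) (nat_lit 2) (.e (nat_lit 196663) (nat_lit 13) .nil))))))) (.g (nat_lit 1) (.e (nat_lit 261591) (nat_lit 0) .nil) .nil))) 
(.lf (nat_lit 537331) (.g (nat_lit 3653) (.e (nat_lit 65610) (nat_lit 10) (.e (nat_lit 344117) (nat_lit 21) (.e (nat_lit 516179) (nat_lit 15) (.e (nat_lit 475199) (nat_lit 40) (.e (nat_lit 704589) (nat_lit 3) (.e (nat_lit 163973) (nat_lit 30) (.e (nat_lit 573484) (nat_lit 13) .nil))))))) (.g (nat_lit 1) (.e (nat_lit 262437) (nat_lit 0) .nil) .nil)))) (.nd (nat_lit 9) 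
(.lf (nat_lit 537075) (.g (nat_lit 3793) (.e (nat_lit 65597) (nat_lit 9) (.e (nat_lit 336028) (nat_lit 3) (.e (nat_lit 98350) (nat_lit 24) (.e (nat_lit 409645) (nat_lit 18) (.e (nat_lit 303117) (nat_lit 2) .nil))))) (.g (nat_lit 0) (.e (nat_lit 262047) (nat_lit 0) .nil) .nil))) 
(.lf (nat_lit 537587) (.g (nat_lit 2467) (.e (nat_lit 65619) (nat_lit 10) (.e (nat_lit 344117) (nat_lit 21) (.e (nat_lit 516106) (nat_lit 0) (.e (nat_lit 6986) (nat_lit 377) (.e (nat_lit 2793) (nat_lit 179) .nil))))) (.g (nat_lit 0) (.e (nat_lit 262867) (nat_lit 0) .nil) .nil))))))))) (.nd (nat_lit 4) (.nd (nat_lit 5) (.nd (nat_lit 6) (.nd (nat_lit 7) (.nd (nat_lit 8) (.nd (nat_lit 9) 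
(.lf (nat_lit 536587) (.g (nat_lit 1883) (.e (nat_lit 57931) (nat_lit 282) (.e (nat_lit 163874) (nat_lit 3) (.e (nat_lit 204863) (nat_lit 27) (.e (nat_lit 344118) (nat_lit 21) .nil)))) (.g (nat_lit 0) (.e (nat_lit 260714) (nat_lit 0) .nil) .nil))) 
(.lf (nat_lit 537099) (.g (nat_lit 3506) (.e (nat_lit 65598) (nat_lit 9) (.e (nat_lit 336013) (nat_lit 2) (.e (nat_lit 90170) (nat_lit 13) (.e (nat_lit 172070) (nat_lit 4) .nil)))) (.g (nat_lit 0) (.e (nat_lit 262083) (nat_lit 0) .nil) .nil)))) (.nd (nat_lit 9) 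
(.lf (nat_lit 536843) (.g (nat_lit 3803) (.e (nat_lit 65571) (nat_lit 3) (.e (nat_lit 98342) (nat_lit 20) (.e (nat_lit 221214) (nat_lit 23) (.e (nat_lit 204829) (nat_lit 18) (.e (nat_lit 57926) (nat_lit 282) (.e (nat_lit 163868) (nat_lit 2) (.e (nat_lit 196663) (nat_lit 13) .nil))))))) (.g (nat_lit 1) (.e (nat_lit 261618) (nat_lit 0) .nil) .nil))) 
(.lf (nat_lit 537355) (.g (nat_lit 1626) (.e (nat_lit 65610) (nat_lit 10) (.e (nat_lit 344129) (nat_lit 26) (.e (nat_lit 557067) (nat_lit 9) (.e (nat_lit 2462) (nat_lit 157) .nil)))) (.g (nat_lit 0) (.e (nat_lit 262496) (nat_lit 0) .nil) .nil))))) (.nd (nat_lit 8) (.nd (nat_lit 9) 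
(.lf (nat_lit 536715) (.g (nat_lit 2281) (.e (nat_lit 65563) (nat_lit 1) (.e (nat_lit 57931) (nat_lit 282) (.e (nat_lit 163943) (nat_lit 19) (.e (nat_lit 483345) (nat_lit 17) (.e (nat_lit 6712) (nat_lit 360) .nil))))) (.g (nat_lit 0) (.e (nat_lit 261207) (nat_lit 0) .nil) .nil))) 
(.lf (nat_lit 537227) (.g (nat_lit 3042) (.e (nat_lit 65604) (nat_lit 9) (.e (nat_lit 336028) (nat_lit 3) (.e (nat_lit 98367) (nat_lit 27) (.e (nat_lit 434272) (nat_lit 38) (.e (nat_lit 655364) (nat_lit 0) (.e (nat_lit 2472) (nat_lit 157) (.e (nat_lit 3308) (nat_lit 202) (.e (nat_lit 573482) (nat_lit 13) .nil)))))))) (.g (nat_lit 1) (.e (nat_lit 262259) (nat_lit 0) .nil) .nil)))) (.nd (nat_lit 9) 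
(.lf (nat_lit 536971) (.g (nat_lit 2333) (.e (nat_lit 65583) (nat_lit 7) (.e (nat_lit 319530) (nat_lit 16) (.e (nat_lit 286753) (nat_lit 10) (.e (nat_lit 344160) (nat_lit 37) (.e (nat_lit 647196) (nat_lit 9) .nil))))) (.g (nat_lit 0) (.e (nat_lit 261821) (nat_lit 0) .nil) .nil))) 
(.lf (nat_lit 537483) (.g (nat_lit 3536) (.e (nat_lit 65617) (nat_lit 10) (.e (nat_lit 344127) (nat_lit 26) (.e (nat_lit 557090) (nat_lit 12) (.e (nat_lit 164022) (nat_lit 46) (.e (nat_lit 704629) (nat_lit 9) (.e (nat_lit 442) (nat_lit 33) (.e (nat_lit 434222) (nat_lit 19) (.e (nat_lit 500065) (nat_lit 18) .nil)))))))) (.g (nat_lit 1) (.e (nat_lit 262724) (nat_lit 0) .nil) .nil)))))) 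
(.nd (nat_lit 7) (.nd (nat_lit 8) (.nd (nat_lit 9) 
(.lf (nat_lit 536651) (.g (nat_lit 3560) (.e (nat_lit 57931) (nat_lit 282) (.e (nat_lit 163943) (nat_lit 19) (.e (nat_lit 483346) (nat_lit 17) (.e (nat_lit 6712) (nat_lit 360) (.e (nat_lit 163976) (nat_lit 30) (.e (nat_lit 573481) (nat_lit 13) (.e (nat_lit 65563) (nat_lit 1) .nil))))))) (.g (nat_lit 1) (.e (nat_lit 260895) (nat_lit 0) .nil) .nil))) 
(.lf (nat_lit 537163) (.g (nat_lit 5470) (.e (nat_lit 65604) (nat_lit 9) (.e (nat_lit 336013) (nat_lit 2) (.e (nat_lit 90168) (nat_lit 13) (.e (nat_lit 172133) (nat_lit 15) (.e (nat_lit 2059) (nat_lit 142) (.e (nat_lit 704589) (nat_lit 3) (.e (nat_lit 163976) (nat_lit 30) (.e (nat_lit 573481) (nat_lit 13) .nil)))))))) (.g (nat_lit 1) (.e (nat_lit 262180) (nat_lit 0) .nil) .nil)))) 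
(.nd (nat_lit 9) 
(.lf (nat_lit 536907) (.g (nat_lit 1392) (.e (nat_lit 65578) (nat_lit 6) (.e (nat_lit 147492) (nat_lit 11) (.e (nat_lit 24657) (nat_lit 13) (.e (nat_lit 393239) (nat_lit 17) (.e (nat_lit 7936) (nat_lit 406) .nil))))) (.g (nat_lit 1) (.e (nat_lit 261719) (nat_lit 0) .nil) .nil))) 
(.lf (nat_lit 537419) (.g (nat_lit 2066) (.e (nat_lit 65617) (nat_lit 10) (.e (nat_lit 344091) (nat_lit 18) (.e (nat_lit 7265) (nat_lit 384) (.e (nat_lit 57409) (nat_lit 12) (.e (nat_lit 336182) (nat_lit 11) (.e (nat_lit 368698) (nat_lit 43) (.e (nat_lit 770071) (nat_lit 8) .nil))))))) (.g (nat_lit 1) (.e (nat_lit 262653) (nat_lit 0) .nil) .nil))))) (.nd (nat_lit 8) (.nd (nat_lit 9) 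
(.lf (nat_lit 536779) (.g (nat_lit 3016) (.e (nat_lit 65569) (nat_lit 3) (.e (nat_lit 98342) (nat_lit 20) (.e (nat_lit 221214) (nat_lit 23) (.e (nat_lit 204829) (nat_lit 18) (.e (nat_lit 57931) (nat_lit 282) (.e (nat_lit 163869) (nat_lit 2) (.e (nat_lit 196663) (nat_lit 13) .nil))))))) (.g (nat_lit 1) (.e (nat_lit 261504) (nat_lit 0) .nil) .nil))) 
(.lf (nat_lit 537291) (.g (nat_lit 1993) (.e (nat_lit 65610) (nat_lit 10) (.e (nat_lit 344117) (nat_lit 21) (.e (nat_lit 516106) (nat_lit 0) (.e (nat_lit 2416) (nat_lit 157) .nil)))) (.g (nat_lit 0) (.e (nat_lit 262376) (nat_lit 0) .nil) .nil)))) (.nd (nat_lit 9) 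
(.lf (nat_lit 537035) (.g (nat_lit 2580) (.e (nat_lit 65589) (nat_lit 9) (.e (nat_lit 336013) (nat_lit 2) (.e (nat_lit 90134) (nat_lit 9) (.e (nat_lit 3096) (nat_lit 192) .nil)))) (.g (nat_lit 0) (.e (nat_lit 261912) (nat_lit 0) .nil) .nil))) 
(.lf (nat_lit 537547) (.g (nat_lit 1165) (.e (nat_lit 65617) (nat_lit 10) (.e (nat_lit 344133) (nat_lit 26) (.e (nat_lit 557091) (nat_lit 12) (.e (nat_lit 164022) (nat_lit 46) .nil)))) (.g (nat_lit 0) (.e (nat_lit 262804) (nat_lit 0) .nil) .nil))))))) (.nd (nat_lit 6) (.nd (nat_lit 7) (.nd (nat_lit 8) (.nd (nat_lit 9) 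
(.lf (nat_lit 536619) (.g (nat_lit 599) (.e (nat_lit 57931) (nat_lit 282) (.e (nat_lit 163902) (nat_lit 12) (.e (nat_lit 426556) (nat_lit 32) .nil))) (.g (nat_lit 0) (.e (nat_lit 260817) (nat_lit 0) .nil) .nil))) 
(.lf (nat_lit 537131) (.g (nat_lit 2152) (.e (nat_lit 65604) (nat_lit 9) (.e (nat_lit 336013) (nat_lit 2) (.e (nat_lit 90124) (nat_lit 9) .nil))) (.g (nat_lit 0) (.e (nat_lit 262148) (nat_lit 0) .nil) .nil)))) (.nd (nat_lit 9) 
(.lf (nat_lit 536875) (.g (nat_lit 2632) (.e (nat_lit 65571) (nat_lit 3) (.e (nat_lit 98342) (nat_lit 20) (.e (nat_lit 221215) (nat_lit 23) (.e (nat_lit 204830) (nat_lit 18) (.e (nat_lit 57931) (nat_lit 282) (.e (nat_lit 163867) (nat_lit 2) (.e (nat_lit 196664) (nat_lit 13) .nil))))))) (.g (nat_lit 1) (.e (nat_lit 261650) (nat_lit 0) .nil) .nil))) 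
(.lf (nat_lit 537387) (.g (nat_lit 5092) (.e (nat_lit 65610) (nat_lit 10) (.e (nat_lit 344129) (nat_lit 26) (.e (nat_lit 557093) (nat_lit 12) (.e (nat_lit 164023) (nat_lit 46) (.e (nat_lit 704626) (nat_lit 9) (.e (nat_lit 375) (nat_lit 32) (.e (nat_lit 426125) (nat_lit 2) (.e (nat_lit 196666) (nat_lit 13) .nil)))))))) (.g (nat_lit 1) (.e (nat_lit 262587) (nat_lit 0) .nil) .nil))))) 
(.nd (nat_lit 8) (.nd (nat_lit 9) 
(.lf (nat_lit 536747) (.g (nat_lit 2166) (.e (nat_lit 65568) (nat_lit 2) (.e (nat_lit 90170) (nat_lit 13) (.e (nat_lit 172106) (nat_lit 10) (.e (nat_lit 434243) (nat_lit 28) .nil)))) (.g (nat_lit 0) (.e (nat_lit 261360) (nat_lit 0) .nil) .nil))) 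
(.lf (nat_lit 537259) (.g (nat_lit 3681) (.e (nat_lit 65608) (nat_lit 9) (.e (nat_lit 336027) (nat_lit 3) (.e (nat_lit 98349) (nat_lit 24) (.e (nat_lit 409645) (nat_lit 18) (.e (nat_lit 303117) (nat_lit 2) (.e (nat_lit 196665) (nat_lit 13) .nil)))))) (.g (nat_lit 1) (.e (nat_lit 262309) (nat_lit 0) .nil) .nil)))) (.nd (nat_lit 9) 
(.lf (nat_lit 537003) (.g (nat_lit 1909) (.e (nat_lit 65586) (nat_lit 7) (.e (nat_lit 319531) (nat_lit 16) (.e (nat_lit 286748) (nat_lit 9) (.e (nat_lit 336295) (nat_lit 15) (.e (nat_lit 3758) (nat_lit 229) (.e (nat_lit 794638) (nat_lit 20) (.e (nat_lit 3613) (nat_lit 226) (.e (nat_lit 770072) (nat_lit 8) .nil)))))))) (.g (nat_lit 1) (.e (nat_lit 261874) (nat_lit 0) .nil) .nil))) 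
(.lf (nat_lit 537515) (.g (nat_lit 3487) (.e (nat_lit 65617) (nat_lit 10) (.e (nat_lit 344130) (nat_lit 26) (.e (nat_lit 557090) (nat_lit 12) (.e (nat_lit 164022) (nat_lit 46) (.e (nat_lit 704738) (nat_lit 11) (.e (nat_lit 16401) (nat_lit 0) (.e (nat_lit 3141) (nat_lit 193) (.e (nat_lit 500065) (nat_lit 18) .nil)))))))) (.g (nat_lit 1) (.e (nat_lit 262766) (nat_lit 0) .nil) .nil)))))) 
(.nd (nat_lit 7) (.nd (nat_lit 8) (.nd (nat_lit 9) 
(.lf (nat_lit 536683) (.g (nat_lit 2812) (.e (nat_lit 57931) (nat_lit 282) (.e (nat_lit 163943) (nat_lit 19) (.e (nat_lit 483412) (nat_lit 27) (.e (nat_lit 401414) (nat_lit 0) (.e (nat_lit 3297) (nat_lit 202) .nil))))) (.g (nat_lit 0) (.e (nat_lit 260966) (nat_lit 0) .nil) .nil))) 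
(.lf (nat_lit 537195) (.g (nat_lit 1944) (.e (nat_lit 65604) (nat_lit 9) (.e (nat_lit 336013) (nat_lit 2) (.e (nat_lit 90185) (nat_lit 17) .nil))) (.g (nat_lit 0) (.e (nat_lit 262213) (nat_lit 0) .nil) .nil)))) (.nd (nat_lit 9) 
(.lf (nat_lit 536939) (.g (nat_lit 1536) (.e (nat_lit 65580) (nat_lit 6) (.e (nat_lit 147494) (nat_lit 11) (.e (nat_lit 24627) (nat_lit 9) (.e (nat_lit 336438) (nat_lit 31) (.e (nat_lit 466688) (nat_lit 4) .nil))))) (.g (nat_lit 1) (.e (nat_lit 261765) (nat_lit 0) .nil) .nil))) 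
(.lf (nat_lit 537451) (.g (nat_lit 1717) (.e (nat_lit 65617) (nat_lit 10) (.e (nat_lit 344138) (nat_lit 29) (.e (nat_lit 581653) (nat_lit 6) (.e (nat_lit 188440) (nat_lit 20) (.e (nat_lit 3579) (nat_lit 223) (.e (nat_lit 745490) (nat_lit 4) .nil)))))) (.g (nat_lit 1) (.e (nat_lit 262689) (nat_lit 0) .nil) .nil))))) (.nd (nat_lit 8) (.nd (nat_lit 9) 
(.lf (nat_lit 536811) (.g (nat_lit 3249) (.e (nat_lit 65571) (nat_lit 3) (.e (nat_lit 98335) (nat_lit 18) (.e (nat_lit 164182) (nat_lit 154) (.e (nat_lit 57379) (nat_lit 3) (.e (nat_lit 98338) (nat_lit 19) .nil))))) (.g (nat_lit 0) (.e (nat_lit 261583) (nat_lit 0) .nil) .nil))) 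
(.lf (nat_lit 537323) (.g (nat_lit 2413) (.e (nat_lit 65610) (nat_lit 10) (.e (nat_lit 344117) (nat_lit 21) (.e (nat_lit 516151) (nat_lit 9) (.e (nat_lit 426414) (nat_lit 15) .nil)))) (.g (nat_lit 0) (.e (nat_lit 262417) (nat_lit 0) .nil) .nil)))) (.nd (nat_lit 9) 
(.lf (nat_lit 537067) (.g (nat_lit 1338) (.e (nat_lit 65596) (nat_lit 9) (.e (nat_lit 336020) (nat_lit 3) (.e (nat_lit 98350) (nat_lit 24) (.e (nat_lit 409616) (nat_lit 10) .nil)))) (.g (nat_lit 0) (.e (nat_lit 262026) (nat_lit 0) .nil) .nil))) 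
(.lf (nat_lit 537579) (.g (nat_lit 1963) (.e (nat_lit 65619) (nat_lit 10) (.e (nat_lit 344115) (nat_lit 20) (.e (nat_lit 507922) (nat_lit 6) (.e (nat_lit 286748) (nat_lit 9) (.e (nat_lit 336295) (nat_lit 15) (.e (nat_lit 3305) (nat_lit 202) (.e (nat_lit 573485) (nat_lit 13) .nil))))))) (.g (nat_lit 1) (.e (nat_lit 262856) (nat_lit 0) .nil) .nil)))))))) 
(.nd (nat_lit 5) (.nd (nat_lit 6) (.nd (nat_lit 7) (.nd (nat_lit 8) (.nd (nat_lit 9) 
(.lf (nat_lit 536603) (.g (nat_lit 2889) (.e (nat_lit 57931) (nat_lit 282) (.e (nat_lit 163885) (nat_lit 5) (.e (nat_lit 221212) (nat_lit 22) (.e (nat_lit 196654) (nat_lit 11) (.e (nat_lit 16456) (nat_lit 12) (.e (nat_lit 475177) (nat_lit 24) (.e (nat_lit 524032) (nat_lit 18) .nil))))))) (.g (nat_lit 1) (.e (nat_lit 260744) (nat_lit 0) .nil) .nil))) 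
(.lf (nat_lit 537115) (.g (nat_lit 3685) (.e (nat_lit 65603) (nat_lit 9) (.e (nat_lit 336013) (nat_lit 2) (.e (nat_lit 90170) (nat_lit 13) (.e (nat_lit 172138) (nat_lit 15) .nil)))) (.g (nat_lit 0) (.e (nat_lit 262118) (nat_lit 0) .nil) .nil)))) (.nd (nat_lit 9) 
(.lf (nat_lit 536859) (.g (nat_lit 3644) (.e (nat_lit 65571) (nat_lit 3) (.e (nat_lit 98342) (nat_lit 20) (.e (nat_lit 221214) (nat_lit 23) (.e (nat_lit 204830) (nat_lit 18) (.e (nat_lit 57931) (nat_lit 282) (.e (nat_lit 163869) (nat_lit 2) (.e (nat_lit 196664) (nat_lit 13) .nil))))))) (.g (nat_lit 1) (.e (nat_lit 261634) (nat_lit 0) .nil) .nil))) 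
(.lf (nat_lit 537371) (.g (nat_lit 2340) (.e (nat_lit 65610) (nat_lit 10) (.e (nat_lit 344129) (nat_lit 26) (.e (nat_lit 557088) (nat_lit 12) (.e (nat_lit 164020) (nat_lit 45) (.e (nat_lit 696328) (nat_lit 5) (.e (nat_lit 2884) (nat_lit 184) (.e (nat_lit 426125) (nat_lit 2) (.e (nat_lit 196666) (nat_lit 13) .nil)))))))) (.g (nat_lit 1) (.e (nat_lit 262567) (nat_lit 0) .nil) .nil))))) 
(.nd (nat_lit 8) (.nd (nat_lit 9) 
(.lf (nat_lit 536731) (.g (nat_lit 3224) (.e (nat_lit 65568) (nat_lit 2) (.e (nat_lit 90170) (nat_lit 13) (.e (nat_lit 172106) (nat_lit 10) (.e (nat_lit 434231) (nat_lit 23) (.e (nat_lit 532570) (nat_lit 17) (.e (nat_lit 3452) (nat_lit 216) (.e (nat_lit 688174) (nat_lit 16) .nil))))))) (.g (nat_lit 1) (.e (nat_lit 261344) (nat_lit 0) .nil) .nil))) 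
(.lf (nat_lit 537243) (.g (nat_lit 2946) (.e (nat_lit 65604) (nat_lit 9) (.e (nat_lit 336412) (nat_lit 27) (.e (nat_lit 426343) (nat_lit 14) (.e (nat_lit 491560) (nat_lit 10) (.e (nat_lit 344177) (nat_lit 43) (.e (nat_lit 770072) (nat_lit 8) .nil)))))) (.g (nat_lit 1) (.e (nat_lit 262275) (nat_lit 0) .nil) .nil)))) (.nd (nat_lit 9) 
(.lf (nat_lit 536987) (.g (nat_lit 709) (.e (nat_lit 65585) (nat_lit 7) (.e (nat_lit 319526) (nat_lit 15) (.e (nat_lit 278547) (nat_lit 8) (.e (nat_lit 303137) (nat_lit 10) (.e (nat_lit 434266) (nat_lit 35) (.e (nat_lit 630821) (nat_lit 16) .nil)))))) (.g (nat_lit 1) (.e (nat_lit 261850) (nat_lit 0) .nil) .nil))) 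
(.lf (nat_lit 537499) (.g (nat_lit 3886) (.e (nat_lit 65617) (nat_lit 10) (.e (nat_lit 344130) (nat_lit 26) (.e (nat_lit 557087) (nat_lit 11) (.e (nat_lit 24625) (nat_lit 9) (.e (nat_lit 336259) (nat_lit 15) (.e (nat_lit 3304) (nat_lit 202) (.e (nat_lit 573484) (nat_lit 13) .nil))))))) (.g (nat_lit 1) (.e (nat_lit 262746) (nat_lit 0) .nil) .nil)))))) 
(.nd (nat_lit 7) (.nd (nat_lit 8) (.nd (nat_lit 9) 
(.lf (nat_lit 536667) (.g (nat_lit 1858) (.e (nat_lit 57931) (nat_lit 282) (.e (nat_lit 163943) (nat_lit 19) (.e (nat_lit 483372) (nat_lit 21) (.e (nat_lit 327424) (nat_lit 10) .nil)))) (.g (nat_lit 0) (.e (nat_lit 260917) (nat_lit 0) .nil) .nil))) 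
(.lf (nat_lit 537179) (.g (nat_lit 4813) (.e (nat_lit 65604) (nat_lit 9) (.e (nat_lit 336013) (nat_lit 2) (.e (nat_lit 90170) (nat_lit 13) (.e (nat_lit 172049) (nat_lit 0) (.e (nat_lit 3406) (nat_lit 212) (.e (nat_lit 655375) (nat_lit 3) (.e (nat_lit 163979) (nat_lit 30) (.e (nat_lit 573482) (nat_lit 13) .nil)))))))) (.g (nat_lit 1) (.e (nat_lit 262196) (nat_lit 0) .nil) .nil)))) (.nd (nat_lit 9) 
(.lf (nat_lit 536923) (.g (nat_lit 2431) (.e (nat_lit 65578) (nat_lit 6) (.e (nat_lit 147495) (nat_lit 11) (.e (nat_lit 24658) (nat_lit 13) (.e (nat_lit 393249) (nat_lit 17) (.e (nat_lit 7936) (nat_lit 406) .nil))))) (.g (nat_lit 1) (.e (nat_lit 261740) (nat_lit 0) .nil) .nil))) 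
(.lf (nat_lit 537435) (.g (nat_lit 2480) (.e (nat_lit 65617) (nat_lit 10) (.e (nat_lit 344117) (nat_lit 21) (.e (nat_lit 516139) (nat_lit 7) (.e (nat_lit 409645) (nat_lit 18) .nil)))) (.g (nat_lit 0) (.e (nat_lit 262671) (nat_lit 0) .nil) .nil))))) (.nd (nat_lit 8) (.nd (nat_lit 9) 
(.lf (nat_lit 536795) (.g (nat_lit 2117) (.e (nat_lit 65569) (nat_lit 3) (.e (nat_lit 98389) (nat_lit 33) (.e (nat_lit 491560) (nat_lit 10) (.e (nat_lit 344107) (nat_lit 19) (.e (nat_lit 499825) (nat_lit 5) .nil))))) (.g (nat_lit 0) (.e (nat_lit 261523) (nat_lit 0) .nil) .nil))) 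
(.lf (nat_lit 537307) (.g (nat_lit 407) (.e (nat_lit 65610) (nat_lit 10) (.e (nat_lit 344117) (nat_lit 21) (.e (nat_lit 516145) (nat_lit 9) .nil))) (.g (nat_lit 0) (.e (nat_lit 262395) (nat_lit 0) .nil) .nil)))) (.nd (nat_lit 9) 
(.lf (nat_lit 537051) (.g (nat_lit 2711) (.e (nat_lit 65591) (nat_lit 9) (.e (nat_lit 336324) (nat_lit 18) (.e (nat_lit 204835) (nat_lit 19) (.e (nat_lit 106536) (nat_lit 11) .nil)))) (.g (nat_lit 0) (.e (nat_lit 261995) (nat_lit 0) .nil) .nil))) 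
(.lf (nat_lit 537563) (.g (nat_lit 4504) (.e (nat_lit 65618) (nat_lit 10) (.e (nat_lit 344117) (nat_lit 21) (.e (nat_lit 516151) (nat_lit 9) (.e (nat_lit 426412) (nat_lit 15) (.e (nat_lit 2057) (nat_lit 142) .nil))))) (.g (nat_lit 0) (.e (nat_lit 262824) (nat_lit 0) .nil) .nil))))))) (.nd (nat_lit 6) (.nd (nat_lit 7) (.nd (nat_lit 8) (.nd (nat_lit 9) 
(.lf (nat_lit 536635) (.g (nat_lit 2688) (.e (nat_lit 57931) (nat_lit 282) (.e (nat_lit 163923) (nat_lit 15) (.e (nat_lit 450587) (nat_lit 10) (.e (nat_lit 573477) (nat_lit 12) (.e (nat_lit 57360) (nat_lit 0) .nil))))) (.g (nat_lit 0) (.e (nat_lit 260846) (nat_lit 0) .nil) .nil))) 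
(.lf (nat_lit 537147) (.g (nat_lit 2152) (.e (nat_lit 65604) (nat_lit 9) (.e (nat_lit 336013) (nat_lit 2) (.e (nat_lit 90140) (nat_lit 9) .nil))) (.g (nat_lit 0) (.e (nat_lit 262164) (nat_lit 0) .nil) .nil)))) (.nd (nat_lit 9) 
(.lf (nat_lit 536891) (.g (nat_lit 1849) (.e (nat_lit 65571) (nat_lit 3) (.e (nat_lit 98373) (nat_lit 29) (.e (nat_lit 450586) (nat_lit 10) (.e (nat_lit 573473) (nat_lit 12) (.e (nat_lit 57572) (nat_lit 54) .nil))))) (.g (nat_lit 0) (.e (nat_lit 261668) (nat_lit 0) .nil) .nil))) 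
(.lf (nat_lit 537403) (.g (nat_lit 1002) (.e (nat_lit 65615) (nat_lit 10) (.e (nat_lit 344117) (nat_lit 21) (.e (nat_lit 516099) (nat_lit 0) .nil))) (.g (nat_lit 0) (.e (nat_lit 262613) (nat_lit 0) .nil) .nil))))) (.nd (nat_lit 8) (.nd (nat_lit 9) 
(.lf (nat_lit 536763) (.g (nat_lit 825) (.e (nat_lit 65569) (nat_lit 3) (.e (nat_lit 98333) (nat_lit 18) (.e (nat_lit 164196) (nat_lit 158) .nil))) (.g (nat_lit 0) (.e (nat_lit 261432) (nat_lit 0) .nil) .nil))) 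
(.lf (nat_lit 537275) (.g (nat_lit 3288) (.e (nat_lit 65609) (nat_lit 10) (.e (nat_lit 344133) (nat_lit 26) (.e (nat_lit 557087) (nat_lit 11) (.e (nat_lit 24625) (nat_lit 9) (.e (nat_lit 336257) (nat_lit 15) (.e (nat_lit 3308) (nat_lit 202) (.e (nat_lit 573482) (nat_lit 13) .nil))))))) (.g (nat_lit 1) (.e (nat_lit 262338) (nat_lit 0) .nil) .nil)))) (.nd (nat_lit 9) 
(.lf (nat_lit 537019) (.g (nat_lit 2868) (.e (nat_lit 65586) (nat_lit 7) (.e (nat_lit 319531) (nat_lit 16) (.e (nat_lit 286759) (nat_lit 12) (.e (nat_lit 385094) (nat_lit 49) (.e (nat_lit 778346) (nat_lit 9) (.e (nat_lit 2465) (nat_lit 157) (.e (nat_lit 3613) (nat_lit 226) (.e (nat_lit 770072) (nat_lit 8) .nil)))))))) (.g (nat_lit 1) (.e (nat_lit 261890) (nat_lit 0) .nil) .nil))) 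
(.lf (nat_lit 537531) (.g (nat_lit 2835) (.e (nat_lit 65617) (nat_lit 10) (.e (nat_lit 344133) (nat_lit 26) (.e (nat_lit 557085) (nat_lit 11) (.e (nat_lit 24627) (nat_lit 9) (.e (nat_lit 336270) (nat_lit 15) (.e (nat_lit 3305) (nat_lit 202) (.e (nat_lit 573484) (nat_lit 13) .nil))))))) (.g (nat_lit 1) (.e (nat_lit 262786) (nat_lit 0) .nil) .nil)))))) 
(.nd (nat_lit 7) (.nd (nat_lit 8) (.nd (nat_lit 9) 
(.lf (nat_lit 536699) (.g (nat_lit 793) (.e (nat_lit 65549) (nat_lit 0) (.e (nat_lit 1858) (nat_lit 124) (.e (nat_lit 557062) (nat_lit 0) .nil))) (.g (nat_lit 0) (.e (nat_lit 261148) (nat_lit 0) .nil) .nil))) 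
(.lf (nat_lit 537211) (.g (nat_lit 2588) (.e (nat_lit 65604) (nat_lit 9) (.e (nat_lit 336028) (nat_lit 3) (.e (nat_lit 98365) (nat_lit 26) (.e (nat_lit 426107) (nat_lit 1) (.e (nat_lit 164347) (nat_lit 240) .nil))))) (.g (nat_lit 0) (.e (nat_lit 262236) (nat_lit 0) .nil) .nil)))) (.nd (nat_lit 9) 
(.lf (nat_lit 536955) (.g (nat_lit 2471) (.e (nat_lit 65582) (nat_lit 7) (.e (nat_lit 319534) (nat_lit 16) (.e (nat_lit 286756) (nat_lit 10) (.e (nat_lit 344160) (nat_lit 37) (.e (nat_lit 647196) (nat_lit 9) .nil))))) (.g (nat_lit 0) (.e (nat_lit 261794) (nat_lit 0) .nil) .nil))) 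
(.lf (nat_lit 537467) (.g (nat_lit 2768) (.e (nat_lit 65617) (nat_lit 10) (.e (nat_lit 344127) (nat_lit 26) (.e (nat_lit 557090) (nat_lit 12) (.e (nat_lit 163844) (nat_lit 0) (.e (nat_lit 6418) (nat_lit 341) .nil))))) (.g (nat_lit 0) (.e (nat_lit 262707) (nat_lit 0) .nil) .nil))))) (.nd (nat_lit 8) (.nd (nat_lit 9) 
(.lf (nat_lit 536827) (.g (nat_lit 3862) (.e (nat_lit 65571) (nat_lit 3) (.e (nat_lit 98341) (nat_lit 20) (.e (nat_lit 221215) (nat_lit 23) (.e (nat_lit 204829) (nat_lit 18) (.e (nat_lit 57927) (nat_lit 282) (.e (nat_lit 163868) (nat_lit 2) (.e (nat_lit 196663) (nat_lit 13) .nil))))))) (.g (nat_lit 1) (.e (nat_lit 261599) (nat_lit 0) .nil) .nil))) 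
(.lf (nat_lit 537339) (.g (nat_lit 1672) (.e (nat_lit 65610) (nat_lit 10) (.e (nat_lit 344138) (nat_lit 29) (.e (nat_lit 581653) (nat_lit 6) (.e (nat_lit 188434) (nat_lit 20) (.e (nat_lit 3577) (nat_lit 223) (.e (nat_lit 745491) (nat_lit 4) .nil)))))) (.g (nat_lit 1) (.e (nat_lit 262461) (nat_lit 0) .nil) .nil)))) (.nd (nat_lit 9) 
(.lf (nat_lit 537083) (.g (nat_lit 2544) (.e (nat_lit 65598) (nat_lit 9) (.e (nat_lit 336013) (nat_lit 2) (.e (nat_lit 90134) (nat_lit 9) (.e (nat_lit 2827) (nat_lit 182) .nil)))) (.g (nat_lit 0) (.e (nat_lit 262067) (nat_lit 0) .nil) .nil))) 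
(.lf (nat_lit 537595) (.g (nat_lit 2688) (.e (nat_lit 65619) (nat_lit 10) (.e (nat_lit 344117) (nat_lit 21) (.e (nat_lit 516139) (nat_lit 7) (.e (nat_lit 409618) (nat_lit 10) .nil)))) (.g (nat_lit 0) (.e (nat_lit 262875) (nat_lit 0) .nil) .nil)))))))))) (.nd (nat_lit 3) (.nd (nat_lit 4) (.nd (nat_lit 5) (.nd (nat_lit 6) (.nd (nat_lit 7) (.nd (nat_lit 8) (.nd (nat_lit 9) 
(.lf (nat_lit 536583) (.g (nat_lit 2126) (.e (nat_lit 57931) (nat_lit 282) (.e (nat_lit 163874) (nat_lit 3) (.e (nat_lit 204862) (nat_lit 27) (.e (nat_lit 344117) (nat_lit 21) (.e (nat_lit 516123) (nat_lit 2) .nil))))) (.g (nat_lit 0) (.e (nat_lit 260710) (nat_lit 0) .nil) .nil))) 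
(.lf (nat_lit 537095) (.g (nat_lit 3554) (.e (nat_lit 65598) (nat_lit 9) (.e (nat_lit 336013) (nat_lit 2) (.e (nat_lit 90170) (nat_lit 13) (.e (nat_lit 172046) (nat_lit 0) .nil)))) (.g (nat_lit 0) (.e (nat_lit 262079) (nat_lit 0) .nil) .nil)))) (.nd (nat_lit 9) 
(.lf (nat_lit 536839) (.g (nat_lit 2431) (.e (nat_lit 65571) (nat_lit 3) (.e (nat_lit 98342) (nat_lit 20) (.e (nat_lit 221213) (nat_lit 23) (.e (nat_lit 204829) (nat_lit 18) (.e (nat_lit 57927) (nat_lit 282) (.e (nat_lit 163869) (nat_lit 2) (.e (nat_lit 196664) (nat_lit 13) .nil))))))) (.g (nat_lit 1) (.e (nat_lit 261614) (nat_lit 0) .nil) .nil))) 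
(.lf (nat_lit 537351) (.g (nat_lit 1715) (.e (nat_lit 65610) (nat_lit 10) (.e (nat_lit 344129) (nat_lit 26) (.e (nat_lit 557067) (nat_lit 9) (.e (nat_lit 290) (nat_lit 21) .nil)))) (.g (nat_lit 0) (.e (nat_lit 262484) (nat_lit 0) .nil) .nil))))) (.nd (nat_lit 8) (.nd (nat_lit 9) 
(.lf (nat_lit 536711) (.g (nat_lit 2439) (.e (nat_lit 65563) (nat_lit 1) (.e (nat_lit 57931) (nat_lit 282) (.e (nat_lit 163941) (nat_lit 19) (.e (nat_lit 483344) (nat_lit 17) (.e (nat_lit 6712) (nat_lit 360) .nil))))) (.g (nat_lit 0) (.e (nat_lit 261203) (nat_lit 0) .nil) .nil))) 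
(.lf (nat_lit 537223) (.g (nat_lit 3039) (.e (nat_lit 65604) (nat_lit 9) (.e (nat_lit 336028) (nat_lit 3) (.e (nat_lit 98367) (nat_lit 27) (.e (nat_lit 434208) (nat_lit 18) (.e (nat_lit 5537) (nat_lit 306) (.e (nat_lit 2611) (nat_lit 163) (.e (nat_lit 163978) (nat_lit 30) (.e (nat_lit 573485) (nat_lit 13) .nil)))))))) (.g (nat_lit 1) (.e (nat_lit 262252) (nat_lit 0) .nil) .nil)))) 
(.nd (nat_lit 9) 
(.lf (nat_lit 536967) (.g (nat_lit 3233) (.e (nat_lit 65583) (nat_lit 7) (.e (nat_lit 319530) (nat_lit 16) (.e (nat_lit 286748) (nat_lit 9) (.e (nat_lit 336295) (nat_lit 15) (.e (nat_lit 3632) (nat_lit 227) (.e (nat_lit 778548) (nat_lit 14) (.e (nat_lit 992) (nat_lit 81) (.e (nat_lit 852) (nat_lit 74) (.e (nat_lit 770072) (nat_lit 8) .nil))))))))) (.g (nat_lit 1) (.e (nat_lit 261817) (nat_lit 0) .nil) .nil))) 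
(.lf (nat_lit 537479) (.g (nat_lit 2858) (.e (nat_lit 65617) (nat_lit 10) (.e (nat_lit 344127) (nat_lit 26) (.e (nat_lit 557090) (nat_lit 12) (.e (nat_lit 164022) (nat_lit 46) (.e (nat_lit 704626) (nat_lit 9) .nil))))) (.g (nat_lit 0) (.e (nat_lit 262720) (nat_lit 0) .nil) .nil)))))) (.nd (nat_lit 7) (.nd (nat_lit 8) (.nd (nat_lit 9) 
(.lf (nat_lit 536647) (.g (nat_lit 3204) (.e (nat_lit 57931) (nat_lit 282) (.e (nat_lit 163943) (nat_lit 19) (.e (nat_lit 483344) (nat_lit 17) (.e (nat_lit 6712) (nat_lit 360) (.e (nat_lit 163976) (nat_lit 30) (.e (nat_lit 573481) (nat_lit 13) (.e (nat_lit 65563) (nat_lit 1) .nil))))))) (.g (nat_lit 1) (.e (nat_lit 260887) (nat_lit 0) .nil) .nil))) 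
(.lf (nat_lit 537159) (.g (nat_lit 2380) (.e (nat_lit 65604) (nat_lit 9) (.e (nat_lit 336013) (nat_lit 2) (.e (nat_lit 90166) (nat_lit 13) (.e (nat_lit 172138) (nat_lit 15) (.e (nat_lit 2059) (nat_lit 142) .nil))))) (.g (nat_lit 0) (.e (nat_lit 262176) (nat_lit 0) .nil) .nil)))) (.nd (nat_lit 9) 
(.lf (nat_lit 536903) (.g (nat_lit 1385) (.e (nat_lit 65578) (nat_lit 6) (.e (nat_lit 147492) (nat_lit 11) (.e (nat_lit 24627) (nat_lit 9) (.e (nat_lit 336438) (nat_lit 31) (.e (nat_lit 466688) (nat_lit 4) .nil))))) (.g (nat_lit 1) (.e (nat_lit 261714) (nat_lit 0) .nil) .nil))) 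
(.lf (nat_lit 537415) (.g (nat_lit 1956) (.e (nat_lit 65616) (nat_lit 10) (.e (nat_lit 344154) (nat_lit 35) (.e (nat_lit 630802) (nat_lit 8) (.e (nat_lit 172106) (nat_lit 10) (.e (nat_lit 434268) (nat_lit 36) (.e (nat_lit 639020) (nat_lit 16) .nil)))))) (.g (nat_lit 1) (.e (nat_lit 262641) (nat_lit 0) .nil) .nil))))) (.nd (nat_lit 8) (.nd (nat_lit 9) 
(.lf (nat_lit 536775) (.g (nat_lit 803) (.e (nat_lit 65569) (nat_lit 3) (.e (nat_lit 98342) (nat_lit 20) (.e (nat_lit 221213) (nat_lit 23) .nil))) (.g (nat_lit 0) (.e (nat_lit 261500) (nat_lit 0) .nil) .nil))) 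
(.lf (nat_lit 537287) (.g (nat_lit 424) (.e (nat_lit 65610) (nat_lit 10) (.e (nat_lit 344117) (nat_lit 21) (.e (nat_lit 516099) (nat_lit 0) .nil))) (.g (nat_lit 0) (.e (nat_lit 262372) (nat_lit 0) .nil) .nil)))) (.nd (nat_lit 9) 
(.lf (nat_lit 537031) (.g (nat_lit 3411) (.e (nat_lit 65586) (nat_lit 7) (.e (nat_lit 319534) (nat_lit 16) (.e (nat_lit 286762) (nat_lit 14) (.e (nat_lit 401446) (nat_lit 10) (.e (nat_lit 434268) (nat_lit 36) (.e (nat_lit 639020) (nat_lit 16) .nil)))))) (.g (nat_lit 1) (.e (nat_lit 261902) (nat_lit 0) .nil) .nil))) 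
(.lf (nat_lit 537543) (.g (nat_lit 4787) (.e (nat_lit 65617) (nat_lit 10) (.e (nat_lit 344133) (nat_lit 26) (.e (nat_lit 557089) (nat_lit 12) (.e (nat_lit 163849) (nat_lit 0) (.e (nat_lit 6255) (nat_lit 337) (.e (nat_lit 2630) (nat_lit 164) (.e (nat_lit 172064) (nat_lit 2) (.e (nat_lit 196666) (nat_lit 13) .nil)))))))) (.g (nat_lit 1) (.e (nat_lit 262798) (nat_lit 0) .nil) .nil))))))) 
(.nd (nat_lit 6) (.nd (nat_lit 7) (.nd (nat_lit 8) (.nd (nat_lit 9) 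
(.lf (nat_lit 536615) (.g (nat_lit 2867) (.e (nat_lit 57931) (nat_lit 282) (.e (nat_lit 163902) (nat_lit 12) (.e (nat_lit 426555) (nat_lit 32) (.e (nat_lit 376862) (nat_lit 22) (.e (nat_lit 90160) (nat_lit 11) (.e (nat_lit 24597) (nat_lit 1) .nil)))))) (.g (nat_lit 1) (.e (nat_lit 260813) (nat_lit 0) .nil) .nil))) 
(.lf (nat_lit 537127) (.g (nat_lit 1684) (.e (nat_lit 65604) (nat_lit 9) (.e (nat_lit 335997) (nat_lit 1) (.e (nat_lit 57857) (nat_lit 254) (.e (nat_lit 163908) (nat_lit 12) (.e (nat_lit 426286) (nat_lit 10) (.e (nat_lit 434266) (nat_lit 35) (.e (nat_lit 630821) (nat_lit 16) .nil))))))) (.g (nat_lit 1) (.e (nat_lit 262143) (nat_lit 0) .nil) .nil)))) (.nd (nat_lit 9) 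
(.lf (nat_lit 536871) (.g (nat_lit 2192) (.e (nat_lit 65571) (nat_lit 3) (.e (nat_lit 98342) (nat_lit 20) (.e (nat_lit 221215) (nat_lit 23) (.e (nat_lit 204830) (nat_lit 18) (.e (nat_lit 57927) (nat_lit 282) (.e (nat_lit 163866) (nat_lit 2) (.e (nat_lit 196664) (nat_lit 13) .nil))))))) (.g (nat_lit 1) (.e (nat_lit 261646) (nat_lit 0) .nil) .nil))) 
(.lf (nat_lit 537383) (.g (nat_lit 1847) (.e (nat_lit 65610) (nat_lit 10) (.e (nat_lit 344129) (nat_lit 26) (.e (nat_lit 557090) (nat_lit 12) (.e (nat_lit 163844) (nat_lit 0) (.e (nat_lit 6420) (nat_lit 341) .nil))))) (.g (nat_lit 0) (.e (nat_lit 262581) (nat_lit 0) .nil) .nil))))) (.nd (nat_lit 8) (.nd (nat_lit 9) 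
(.lf (nat_lit 536743) (.g (nat_lit 2668) (.e (nat_lit 65568) (nat_lit 2) (.e (nat_lit 90170) (nat_lit 13) (.e (nat_lit 172106) (nat_lit 10) (.e (nat_lit 434231) (nat_lit 23) (.e (nat_lit 540416) (nat_lit 17) (.e (nat_lit 3459) (nat_lit 216) (.e (nat_lit 688176) (nat_lit 16) .nil))))))) (.g (nat_lit 1) (.e (nat_lit 261356) (nat_lit 0) .nil) .nil))) 
(.lf (nat_lit 537255) (.g (nat_lit 967) (.e (nat_lit 65608) (nat_lit 9) (.e (nat_lit 336021) (nat_lit 3) (.e (nat_lit 98350) (nat_lit 24) .nil))) (.g (nat_lit 0) (.e (nat_lit 262305) (nat_lit 0) .nil) .nil)))) (.nd (nat_lit 9) 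
(.lf (nat_lit 536999) (.g (nat_lit 3043) (.e (nat_lit 65586) (nat_lit 7) (.e (nat_lit 319531) (nat_lit 16) (.e (nat_lit 286748) (nat_lit 9) (.e (nat_lit 336295) (nat_lit 15) (.e (nat_lit 3632) (nat_lit 227) (.e (nat_lit 778445) (nat_lit 9) (.e (nat_lit 2458) (nat_lit 157) (.e (nat_lit 3613) (nat_lit 226) (.e (nat_lit 770072) (nat_lit 8) .nil))))))))) (.g (nat_lit 1) (.e (nat_lit 261870) (nat_lit 0) .nil) .nil))) 
(.lf (nat_lit 537511) (.g (nat_lit 1860) (.e (nat_lit 65617) (nat_lit 10) (.e (nat_lit 344130) (nat_lit 26) (.e (nat_lit 557090) (nat_lit 12) (.e (nat_lit 163850) (nat_lit 0) (.e (nat_lit 6273) (nat_lit 337) .nil))))) (.g (nat_lit 0) (.e (nat_lit 262761) (nat_lit 0) .nil) .nil)))))) (.nd (nat_lit 7) (.nd (nat_lit 8) (.nd (nat_lit 9) 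
(.lf (nat_lit 536679) (.g (nat_lit 3357) (.e (nat_lit 57931) (nat_lit 282) (.e (nat_lit 163943) (nat_lit 19) (.e (nat_lit 483411) (nat_lit 27) (.e (nat_lit 401414) (nat_lit 0) (.e (nat_lit 3297) (nat_lit 202) .nil))))) (.g (nat_lit 0) (.e (nat_lit 260962) (nat_lit 0) .nil) .nil))) 
(.lf (nat_lit 537191) (.g (nat_lit 2440) (.e (nat_lit 65604) (nat_lit 9) (.e (nat_lit 336013) (nat_lit 2) (.e (nat_lit 90170) (nat_lit 13) (.e (nat_lit 172136) (nat_lit 15) .nil)))) (.g (nat_lit 0) (.e (nat_lit 262208) (nat_lit 0) .nil) .nil)))) (.nd (nat_lit 9) 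
(.lf (nat_lit 536935) (.g (nat_lit 1330) (.e (nat_lit 65580) (nat_lit 6) (.e (nat_lit 147493) (nat_lit 11) (.e (nat_lit 24627) (nat_lit 9) (.e (nat_lit 336438) (nat_lit 31) (.e (nat_lit 466688) (nat_lit 4) .nil))))) (.g (nat_lit 1) (.e (nat_lit 261760) (nat_lit 0) .nil) .nil))) 
(.lf (nat_lit 537447) (.g (nat_lit 1832) (.e (nat_lit 65617) (nat_lit 10) (.e (nat_lit 344120) (nat_lit 21) (.e (nat_lit 516139) (nat_lit 7) (.e (nat_lit 409617) (nat_lit 10) (.e (nat_lit 5627) (nat_lit 312) (.e (nat_lit 2668) (nat_lit 167) (.e (nat_lit 196666) (nat_lit 13) .nil))))))) (.g (nat_lit 1) (.e (nat_lit 262683) (nat_lit 0) .nil) .nil))))) (.nd (nat_lit 8) (.nd (nat_lit 9) 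
(.lf (nat_lit 536807) (.g (nat_lit 366) (.e (nat_lit 65571) (nat_lit 3) (.e (nat_lit 98313) (nat_lit 9) (.e (nat_lit 336027) (nat_lit 3) .nil))) (.g (nat_lit 0) (.e (nat_lit 261559) (nat_lit 0) .nil) .nil))) 
(.lf (nat_lit 537319) (.g (nat_lit 2056) (.e (nat_lit 65610) (nat_lit 10) (.e (nat_lit 344117) (nat_lit 21) (.e (nat_lit 516151) (nat_lit 9) (.e (nat_lit 426365) (nat_lit 15) .nil)))) (.g (nat_lit 0) (.e (nat_lit 262413) (nat_lit 0) .nil) .nil)))) (.nd (nat_lit 9) 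
(.lf (nat_lit 537063) (.g (nat_lit 809) (.e (nat_lit 65596) (nat_lit 9) (.e (nat_lit 336013) (nat_lit 2) (.e (nat_lit 90165) (nat_lit 12) .nil))) (.g (nat_lit 0) (.e (nat_lit 262019) (nat_lit 0) .nil) .nil))) 
(.lf (nat_lit 537575) (.g (nat_lit 411) (.e (nat_lit 65619) (nat_lit 10) (.e (nat_lit 344097) (nat_lit 18) (.e (nat_lit 7672) (nat_lit 410) .nil))) (.g (nat_lit 0) (.e (nat_lit 262847) (nat_lit 0) .nil) .nil)))))))) (.nd (nat_lit 5) (.nd (nat_lit 6) (.nd (nat_lit 7) (.nd (nat_lit 8) (.nd (nat_lit 9) 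
(.lf (nat_lit 536599) (.g (nat_lit 4129) (.e (nat_lit 57931) (nat_lit 282) (.e (nat_lit 163885) (nat_lit 5) (.e (nat_lit 221210) (nat_lit 22) (.e (nat_lit 196656) (nat_lit 11) (.e (nat_lit 16425) (nat_lit 7) (.e (nat_lit 409617) (nat_lit 10) (.e (nat_lit 604) (nat_lit 45) (.e (nat_lit 532503) (nat_lit 1) .nil)))))))) (.g (nat_lit 1) (.e (nat_lit 260740) (nat_lit 0) .nil) .nil))) 
(.lf (nat_lit 537111) (.g (nat_lit 2541) (.e (nat_lit 65603) (nat_lit 9) (.e (nat_lit 336013) (nat_lit 2) (.e (nat_lit 90134) (nat_lit 9) (.e (nat_lit 3096) (nat_lit 192) .nil)))) (.g (nat_lit 0) (.e (nat_lit 262110) (nat_lit 0) .nil) .nil)))) (.nd (nat_lit 9) 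
(.lf (nat_lit 536855) (.g (nat_lit 3444) (.e (nat_lit 65571) (nat_lit 3) (.e (nat_lit 98342) (nat_lit 20) (.e (nat_lit 221214) (nat_lit 23) (.e (nat_lit 204830) (nat_lit 18) (.e (nat_lit 57927) (nat_lit 282) (.e (nat_lit 163869) (nat_lit 2) (.e (nat_lit 196663) (nat_lit 13) .nil))))))) (.g (nat_lit 1) (.e (nat_lit 261630) (nat_lit 0) .nil) .nil))) 
(.lf (nat_lit 537367) (.g (nat_lit 2335) (.e (nat_lit 65610) (nat_lit 10) (.e (nat_lit 344129) (nat_lit 26) (.e (nat_lit 557088) (nat_lit 12) (.e (nat_lit 164018) (nat_lit 45) (.e (nat_lit 696328) (nat_lit 5) (.e (nat_lit 2884) (nat_lit 184) (.e (nat_lit 426125) (nat_lit 2) (.e (nat_lit 196666) (nat_lit 13) .nil)))))))) (.g (nat_lit 1) (.e (nat_lit 262563) (nat_lit 0) .nil) .nil))))) 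
(.nd (nat_lit 8) (.nd (nat_lit 9) 
(.lf (nat_lit 536727) (.g (nat_lit 1687) (.e (nat_lit 65567) (nat_lit 2) (.e (nat_lit 90170) (nat_lit 13) (.e (nat_lit 172113) (nat_lit 10) (.e (nat_lit 434247) (nat_lit 28) .nil)))) (.g (nat_lit 0) (.e (nat_lit 261324) (nat_lit 0) .nil) .nil))) 
(.lf (nat_lit 537239) (.g (nat_lit 1704) (.e (nat_lit 65604) (nat_lit 9) (.e (nat_lit 336028) (nat_lit 3) (.e (nat_lit 98384) (nat_lit 32) (.e (nat_lit 475210) (nat_lit 41) .nil)))) (.g (nat_lit 0) (.e (nat_lit 262271) (nat_lit 0) .nil) .nil)))) (.nd (nat_lit 9) 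
(.lf (nat_lit 536983) (.g (nat_lit 2349) (.e (nat_lit 65584) (nat_lit 7) (.e (nat_lit 319526) (nat_lit 15) (.e (nat_lit 278546) (nat_lit 8) (.e (nat_lit 303137) (nat_lit 10) (.e (nat_lit 434268) (nat_lit 36) (.e (nat_lit 639020) (nat_lit 16) .nil)))))) (.g (nat_lit 1) (.e (nat_lit 261839) (nat_lit 0) .nil) .nil))) 
(.lf (nat_lit 537495) (.g (nat_lit 4871) (.e (nat_lit 65617) (nat_lit 10) (.e (nat_lit 344130) (nat_lit 26) (.e (nat_lit 557087) (nat_lit 11) (.e (nat_lit 24580) (nat_lit 0) (.e (nat_lit 6619) (nat_lit 357) (.e (nat_lit 2668) (nat_lit 167) (.e (nat_lit 196666) (nat_lit 13) .nil))))))) (.g (nat_lit 1) (.e (nat_lit 262739) (nat_lit 0) .nil) .nil)))))) 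
(.nd (nat_lit 7) (.nd (nat_lit 8) (.nd (nat_lit 9) 
(.lf (nat_lit 536663) (.g (nat_lit 1141) (.e (nat_lit 57931) (nat_lit 282) (.e (nat_lit 163943) (nat_lit 19) (.e (nat_lit 483372) (nat_lit 21) .nil))) (.g (nat_lit 0) (.e (nat_lit 260912) (nat_lit 0) .nil) .nil))) 
(.lf (nat_lit 537175) (.g (nat_lit 2614) (.e (nat_lit 65604) (nat_lit 9) (.e (nat_lit 336013) (nat_lit 2) (.e (nat_lit 90170) (nat_lit 13) (.e (nat_lit 172045) (nat_lit 0) .nil)))) (.g (nat_lit 0) (.e (nat_lit 262192) (nat_lit 0) .nil) .nil)))) (.nd (nat_lit 9) 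
(.lf (nat_lit 536919) (.g (nat_lit 1757) (.e (nat_lit 65578) (nat_lit 6) (.e (nat_lit 147495) (nat_lit 11) (.e (nat_lit 24654) (nat_lit 13) (.e (nat_lit 393232) (nat_lit 17) (.e (nat_lit 7936) (nat_lit 406) .nil))))) (.g (nat_lit 1) (.e (nat_lit 261736) (nat_lit 0) .nil) .nil))) 
(.lf (nat_lit 537431) (.g (nat_lit 2341) (.e (nat_lit 65617) (nat_lit 10) (.e (nat_lit 344117) (nat_lit 21) (.e (nat_lit 516106) (nat_lit 0) (.e (nat_lit 7936) (nat_lit 377) .nil)))) (.g (nat_lit 0) (.e (nat_lit 262667) (nat_lit 0) .nil) .nil))))) (.nd (nat_lit 8) (.nd (nat_lit 9) 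
(.lf (nat_lit 536791) (.g (nat_lit 2940) (.e (nat_lit 65569) (nat_lit 3) (.e (nat_lit 98346) (nat_lit 22) (.e (nat_lit 253996) (nat_lit 12) (.e (nat_lit 57477) (nat_lit 28) (.e (nat_lit 557090) (nat_lit 12) (.e (nat_lit 164038) (nat_lit 55) (.e (nat_lit 778336) (nat_lit 9) (.e (nat_lit 2668) (nat_lit 167) (.e (nat_lit 196666) (nat_lit 13) .nil))))))))) (.g (nat_lit 1) (.e (nat_lit 261519) (nat_lit 0) .nil) .nil))) 
(.lf (nat_lit 537303) (.g (nat_lit 3830) (.e (nat_lit 65610) (nat_lit 10) (.e (nat_lit 344117) (nat_lit 21) (.e (nat_lit 516139) (nat_lit 7) (.e (nat_lit 409616) (nat_lit 10) (.e (nat_lit 5616) (nat_lit 312) (.e (nat_lit 2668) (nat_lit 167) (.e (nat_lit 196666) (nat_lit 13) .nil))))))) (.g (nat_lit 1) (.e (nat_lit 262391) (nat_lit 0) .nil) .nil)))) (.nd (nat_lit 9) 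
(.lf (nat_lit 537047) (.g (nat_lit 1877) (.e (nat_lit 65589) (nat_lit 9) (.e (nat_lit 336028) (nat_lit 3) (.e (nat_lit 98350) (nat_lit 24) (.e (nat_lit 409623) (nat_lit 10) .nil)))) (.g (nat_lit 0) (.e (nat_lit 261928) (nat_lit 0) .nil) .nil))) 
(.lf (nat_lit 537559) (.g (nat_lit 3764) (.e (nat_lit 65618) (nat_lit 10) (.e (nat_lit 344117) (nat_lit 21) (.e (nat_lit 516139) (nat_lit 7) (.e (nat_lit 409645) (nat_lit 18) (.e (nat_lit 303117) (nat_lit 2) (.e (nat_lit 196665) (nat_lit 13) .nil)))))) (.g (nat_lit 1) (.e (nat_lit 262820) (nat_lit 0) .nil) .nil))))))) (.nd (nat_lit 6) (.nd (nat_lit 7) (.nd (nat_lit 8) (.nd (nat_lit 9) 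
(.lf (nat_lit 536631) (.g (nat_lit 3028) (.e (nat_lit 57931) (nat_lit 282) (.e (nat_lit 163905) (nat_lit 12) (.e (nat_lit 426555) (nat_lit 32) (.e (nat_lit 376869) (nat_lit 23) (.e (nat_lit 98313) (nat_lit 9) (.e (nat_lit 335996) (nat_lit 1) .nil)))))) (.g (nat_lit 1) (.e (nat_lit 260834) (nat_lit 0) .nil) .nil))) 
(.lf (nat_lit 537143) (.g (nat_lit 4829) (.e (nat_lit 65604) (nat_lit 9) (.e (nat_lit 336013) (nat_lit 2) (.e (nat_lit 90134) (nat_lit 9) (.e (nat_lit 3098) (nat_lit 192) (.e (nat_lit 491566) (nat_lit 12) (.e (nat_lit 385073) (nat_lit 31) (.e (nat_lit 573482) (nat_lit 13) .nil))))))) (.g (nat_lit 1) (.e (nat_lit 262160) (nat_lit 0) .nil) .nil)))) (.nd (nat_lit 9) 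
(.lf (nat_lit 536887) (.g (nat_lit 2961) (.e (nat_lit 65571) (nat_lit 3) (.e (nat_lit 98359) (nat_lit 26) (.e (nat_lit 426286) (nat_lit 10) (.e (nat_lit 434246) (nat_lit 28) (.e (nat_lit 573474) (nat_lit 12) (.e (nat_lit 57572) (nat_lit 54) (.e (nat_lit 770072) (nat_lit 8) .nil))))))) (.g (nat_lit 1) (.e (nat_lit 261662) (nat_lit 0) .nil) .nil))) 
(.lf (nat_lit 537399) (.g (nat_lit 1485) (.e (nat_lit 65613) (nat_lit 10) (.e (nat_lit 344119) (nat_lit 21) (.e (nat_lit 516146) (nat_lit 9) (.e (nat_lit 426444) (nat_lit 19) .nil)))) (.g (nat_lit 0) (.e (nat_lit 262608) (nat_lit 0) .nil) .nil))))) (.nd (nat_lit 8) (.nd (nat_lit 9) 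
(.lf (nat_lit 536759) (.g (nat_lit 922) (.e (nat_lit 65569) (nat_lit 3) (.e (nat_lit 98333) (nat_lit 18) (.e (nat_lit 164177) (nat_lit 154) .nil))) (.g (nat_lit 0) (.e (nat_lit 261386) (nat_lit 0) .nil) .nil))) 
(.lf (nat_lit 537271) (.g (nat_lit 2212) (.e (nat_lit 65609) (nat_lit 10) (.e (nat_lit 344117) (nat_lit 21) (.e (nat_lit 516179) (nat_lit 15) (.e (nat_lit 475197) (nat_lit 40) .nil)))) (.g (nat_lit 0) (.e (nat_lit 262331) (nat_lit 0) .nil) .nil)))) (.nd (nat_lit 9) 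
(.lf (nat_lit 537015) (.g (nat_lit 1547) (.e (nat_lit 65586) (nat_lit 7) (.e (nat_lit 319531) (nat_lit 16) (.e (nat_lit 286759) (nat_lit 12) (.e (nat_lit 385047) (nat_lit 21) (.e (nat_lit 7936) (nat_lit 412) .nil))))) (.g (nat_lit 0) (.e (nat_lit 261886) (nat_lit 0) .nil) .nil))) 
(.lf (nat_lit 537527) (.g (nat_lit 1056) (.e (nat_lit 65617) (nat_lit 10) (.e (nat_lit 344133) (nat_lit 26) (.e (nat_lit 557072) (nat_lit 9) .nil))) (.g (nat_lit 0) (.e (nat_lit 262782) (nat_lit 0) .nil) .nil)))))) (.nd (nat_lit 7) (.nd (nat_lit 8) (.nd (nat_lit 9) 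
(.lf (nat_lit 536695) (.g (nat_lit 2466) (.e (nat_lit 65540) (nat_lit 0) (.e (nat_lit 6681) (nat_lit 357) (.e (nat_lit 3090) (nat_lit 191) (.e (nat_lit 483394) (nat_lit 24) (.e (nat_lit 344169) (nat_lit 40) (.e (nat_lit 671760) (nat_lit 4) .nil)))))) (.g (nat_lit 1) (.e (nat_lit 261134) (nat_lit 0) .nil) .nil))) 
(.lf (nat_lit 537207) (.g (nat_lit 1899) (.e (nat_lit 65604) (nat_lit 9) (.e (nat_lit 336028) (nat_lit 3) (.e (nat_lit 98363) (nat_lit 26) (.e (nat_lit 426110) (nat_lit 1) (.e (nat_lit 164348) (nat_lit 240) .nil))))) (.g (nat_lit 0) (.e (nat_lit 262232) (nat_lit 0) .nil) .nil)))) (.nd (nat_lit 9) 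
(.lf (nat_lit 536951) (.g (nat_lit 2210) (.e (nat_lit 65582) (nat_lit 7) (.e (nat_lit 319533) (nat_lit 16) (.e (nat_lit 286753) (nat_lit 10) (.e (nat_lit 344160) (nat_lit 37) (.e (nat_lit 647190) (nat_lit 9) .nil))))) (.g (nat_lit 0) (.e (nat_lit 261790) (nat_lit 0) .nil) .nil))) 
(.lf (nat_lit 537463) (.g (nat_lit 2767) (.e (nat_lit 65617) (nat_lit 10) (.e (nat_lit 344127) (nat_lit 26) (.e (nat_lit 557090) (nat_lit 12) (.e (nat_lit 163844) (nat_lit 0) (.e (nat_lit 6250) (nat_lit 337) .nil))))) (.g (nat_lit 0) (.e (nat_lit 262703) (nat_lit 0) .nil) .nil))))) (.nd (nat_lit 8) (.nd (nat_lit 9) 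
(.lf (nat_lit 536823) (.g (nat_lit 3141) (.e (nat_lit 65571) (nat_lit 3) (.e (nat_lit 98341) (nat_lit 20) (.e (nat_lit 221214) (nat_lit 23) (.e (nat_lit 204830) (nat_lit 18) (.e (nat_lit 57927) (nat_lit 282) (.e (nat_lit 163869) (nat_lit 2) (.e (nat_lit 196663) (nat_lit 13) .nil))))))) (.g (nat_lit 1) (.e (nat_lit 261595) (nat_lit 0) .nil) .nil))) 
(.lf (nat_lit 537335) (.g (nat_lit 1393) (.e (nat_lit 65610) (nat_lit 10) (.e (nat_lit 344117) (nat_lit 21) (.e (nat_lit 516179) (nat_lit 15) (.e (nat_lit 475209) (nat_lit 41) .nil)))) (.g (nat_lit 0) (.e (nat_lit 262441) (nat_lit 0) .nil) .nil)))) (.nd (nat_lit 9) 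
(.lf (nat_lit 537079) (.g (nat_lit 1282) (.e (nat_lit 65598) (nat_lit 9) (.e (nat_lit 336013) (nat_lit 2) (.e (nat_lit 90128) (nat_lit 9) .nil))) (.g (nat_lit 0) (.e (nat_lit 262060) (nat_lit 0) .nil) .nil))) 
(.lf (nat_lit 537591) (.g (nat_lit 3068) (.e (nat_lit 65619) (nat_lit 10) (.e (nat_lit 344117) (nat_lit 21) (.e (nat_lit 516138) (nat_lit 7) (.e (nat_lit 409646) (nat_lit 18) (.e (nat_lit 303117) (nat_lit 2) (.e (nat_lit 196665) (nat_lit 13) .nil)))))) (.g (nat_lit 1) (.e (nat_lit 262871) (nat_lit 0) .nil) .nil))))))))) 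
(.nd (nat_lit 4) (.nd (nat_lit 5) (.nd (nat_lit 6) (.nd (nat_lit 7) (.nd (nat_lit 8) 
(.nd (nat_lit 9) 
(.lf (nat_lit 536591) (.g (nat_lit 3212) (.e (nat_lit 57931) (nat_lit 282) (.e (nat_lit 163874) (nat_lit 3) (.e (nat_lit 204866) (nat_lit 28) (.e (nat_lit 352277) (nat_lit 11) (.e (nat_lit 426500) (nat_lit 27) (.e (nat_lit 335995) (nat_lit 1) .nil)))))) (.g (nat_lit 1) (.e (nat_lit 260718) (nat_lit 0) .nil) .nil))) 
(.lf (nat_lit 537103) (.g (nat_lit 4194) (.e (nat_lit 65598) (nat_lit 9) (.e (nat_lit 336013) (nat_lit 2) (.e (nat_lit 90170) (nat_lit 13) (.e (nat_lit 172138) (nat_lit 15) (.e (nat_lit 2059) (nat_lit 142) .nil))))) (.g (nat_lit 0) (.e (nat_lit 262087) (nat_lit 0) .nil) .nil)))) (.nd (nat_lit 9) 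
(.lf (nat_lit 536847) (.g (nat_lit 3420) (.e (nat_lit 65571) (nat_lit 3) (.e (nat_lit 98342) (nat_lit 20) (.e (nat_lit 221214) (nat_lit 23) (.e (nat_lit 204829) (nat_lit 18) (.e (nat_lit 57927) (nat_lit 282) (.e (nat_lit 163869) (nat_lit 2) (.e (nat_lit 196663) (nat_lit 13) .nil))))))) (.g (nat_lit 1) (.e (nat_lit 261622) (nat_lit 0) .nil) .nil))) 
(.lf (nat_lit 537359) (.g (nat_lit 1542) (.e (nat_lit 65610) (nat_lit 10) (.e (nat_lit 344129) (nat_lit 26) (.e (nat_lit 557070) (nat_lit 9) (.e (nat_lit 2397) (nat_lit 157) .nil)))) (.g (nat_lit 0) (.e (nat_lit 262516) (nat_lit 0) .nil) .nil))))) (.nd (nat_lit 8) (.nd (nat_lit 9) 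
(.lf (nat_lit 536719) (.g (nat_lit 1731) (.e (nat_lit 65566) (nat_lit 2) (.e (nat_lit 90170) (nat_lit 13) (.e (nat_lit 172106) (nat_lit 10) (.e (nat_lit 434243) (nat_lit 28) .nil)))) (.g (nat_lit 0) (.e (nat_lit 261298) (nat_lit 0) .nil) .nil))) 
(.lf (nat_lit 537231) (.g (nat_lit 4420) (.e (nat_lit 65604) (nat_lit 9) (.e (nat_lit 336028) (nat_lit 3) (.e (nat_lit 98367) (nat_lit 27) (.e (nat_lit 434272) (nat_lit 38) (.e (nat_lit 655373) (nat_lit 3) (.e (nat_lit 163979) (nat_lit 30) (.e (nat_lit 573482) (nat_lit 13) .nil))))))) (.g (nat_lit 1) (.e (nat_lit 262263) (nat_lit 0) .nil) .nil)))) (.nd (nat_lit 9) 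
(.lf (nat_lit 536975) (.g (nat_lit 2541) (.e (nat_lit 65583) (nat_lit 7) (.e (nat_lit 319530) (nat_lit 16) (.e (nat_lit 286759) (nat_lit 12) (.e (nat_lit 385107) (nat_lit 51) (.e (nat_lit 794640) (nat_lit 20) .nil))))) (.g (nat_lit 0) (.e (nat_lit 261825) (nat_lit 0) .nil) .nil))) 
(.lf (nat_lit 537487) (.g (nat_lit 2634) (.e (nat_lit 65617) (nat_lit 10) (.e (nat_lit 344128) (nat_lit 26) (.e (nat_lit 557090) (nat_lit 12) (.e (nat_lit 164020) (nat_lit 45) (.e (nat_lit 696327) (nat_lit 5) (.e (nat_lit 2884) (nat_lit 184) (.e (nat_lit 426125) (nat_lit 2) (.e (nat_lit 196666) (nat_lit 13) .nil)))))))) (.g (nat_lit 1) (.e (nat_lit 262728) (nat_lit 0) .nil) .nil)))))) 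
(.nd (nat_lit 7) (.nd (nat_lit 8) (.nd (nat_lit 9) 
(.lf (nat_lit 536655) (.g (nat_lit 3749) (.e (nat_lit 57931) (nat_lit 282) (.e (nat_lit 163943) (nat_lit 19) (.e (nat_lit 483346) (nat_lit 17) (.e (nat_lit 6714) (nat_lit 360) (.e (nat_lit 163975) (nat_lit 30) (.e (nat_lit 573481) (nat_lit 13) (.e (nat_lit 65563) (nat_lit 1) .nil))))))) (.g (nat_lit 1) (.e (nat_lit 260902) (nat_lit 0) .nil) .nil))) 
(.lf (nat_lit 537167) (.g (nat_lit 2614) (.e (nat_lit 65604) (nat_lit 9) (.e (nat_lit 336013) (nat_lit 2) (.e (nat_lit 90170) (nat_lit 13) (.e (nat_lit 172040) (nat_lit 0) .nil)))) (.g (nat_lit 0) (.e (nat_lit 262184) (nat_lit 0) .nil) .nil)))) (.nd (nat_lit 9) 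
(.lf (nat_lit 536911) (.g (nat_lit 1539) (.e (nat_lit 65578) (nat_lit 6) (.e (nat_lit 147494) (nat_lit 11) (.e (nat_lit 24627) (nat_lit 9) (.e (nat_lit 336438) (nat_lit 31) (.e (nat_lit 466688) (nat_lit 4) .nil))))) (.g (nat_lit 1) (.e (nat_lit 261724) (nat_lit 0) .nil) .nil))) 
(.lf (nat_lit 537423) (.g (nat_lit 2696) (.e (nat_lit 65617) (nat_lit 10) (.e (nat_lit 344091) (nat_lit 18) (.e (nat_lit 7710) (nat_lit 414) (.e (nat_lit 163908) (nat_lit 12) (.e (nat_lit 426285) (nat_lit 10) (.e (nat_lit 434241) (nat_lit 27) (.e (nat_lit 565267) (nat_lit 4) .nil))))))) (.g (nat_lit 1) (.e (nat_lit 262658) (nat_lit 0) .nil) .nil))))) (.nd (nat_lit 8) (.nd (nat_lit 9) 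
(.lf (nat_lit 536783) (.g (nat_lit 5042) (.e (nat_lit 65569) (nat_lit 3) (.e (nat_lit 98342) (nat_lit 20) (.e (nat_lit 221214) (nat_lit 23) (.e (nat_lit 204830) (nat_lit 18) (.e (nat_lit 57931) (nat_lit 282) (.e (nat_lit 163869) (nat_lit 2) (.e (nat_lit 196666) (nat_lit 13) .nil))))))) (.g (nat_lit 1) (.e (nat_lit 261510) (nat_lit 0) .nil) .nil))) 
(.lf (nat_lit 537295) (.g (nat_lit 2385) (.e (nat_lit 65610) (nat_lit 10) (.e (nat_lit 344117) (nat_lit 21) (.e (nat_lit 516106) (nat_lit 0) (.e (nat_lit 3339) (nat_lit 205) (.e (nat_lit 598059) (nat_lit 16) (.e (nat_lit 172064) (nat_lit 2) (.e (nat_lit 196666) (nat_lit 13) .nil))))))) (.g (nat_lit 1) (.e (nat_lit 262382) (nat_lit 0) .nil) .nil)))) (.nd (nat_lit 9) 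
(.lf (nat_lit 537039) (.g (nat_lit 2295) (.e (nat_lit 65589) (nat_lit 9) (.e (nat_lit 336013) (nat_lit 2) (.e (nat_lit 90165) (nat_lit 12) (.e (nat_lit 164211) (nat_lit 176) .nil)))) (.g (nat_lit 0) (.e (nat_lit 261916) (nat_lit 0) .nil) .nil))) 
(.lf (nat_lit 537551) (.g (nat_lit 439) (.e (nat_lit 65617) (nat_lit 10) (.e (nat_lit 344156) (nat_lit 36) (.e (nat_lit 638985) (nat_lit 5) .nil))) (.g (nat_lit 0) (.e (nat_lit 262808) (nat_lit 0) .nil) .nil))))))) (.nd (nat_lit 6) (.nd (nat_lit 7) (.nd (nat_lit 8) (.nd (nat_lit 9) 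
(.lf (nat_lit 536623) (.g (nat_lit 2695) (.e (nat_lit 57931) (nat_lit 282) (.e (nat_lit 163902) (nat_lit 12) (.e (nat_lit 426556) (nat_lit 32) (.e (nat_lit 376865) (nat_lit 22) (.e (nat_lit 90160) (nat_lit 11) (.e (nat_lit 24598) (nat_lit 1) .nil)))))) (.g (nat_lit 1) (.e (nat_lit 260821) (nat_lit 0) .nil) .nil))) 
(.lf (nat_lit 537135) (.g (nat_lit 2135) (.e (nat_lit 65604) (nat_lit 9) (.e (nat_lit 336013) (nat_lit 2) (.e (nat_lit 90128) (nat_lit 9) .nil))) (.g (nat_lit 0) (.e (nat_lit 262152) (nat_lit 0) .nil) .nil)))) (.nd (nat_lit 9) 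
(.lf (nat_lit 536879) (.g (nat_lit 2609) (.e (nat_lit 65571) (nat_lit 3) (.e (nat_lit 98350) (nat_lit 24) (.e (nat_lit 409623) (nat_lit 10) (.e (nat_lit 5664) (nat_lit 312) (.e (nat_lit 2679) (nat_lit 168) (.e (nat_lit 204817) (nat_lit 17) (.e (nat_lit 7936) (nat_lit 347) .nil))))))) (.g (nat_lit 1) (.e (nat_lit 261654) (nat_lit 0) .nil) .nil))) 
(.lf (nat_lit 537391) (.g (nat_lit 1425) (.e (nat_lit 65610) (nat_lit 10) (.e (nat_lit 344160) (nat_lit 37) (.e (nat_lit 647195) (nat_lit 9) (.e (nat_lit 7936) (nat_lit 32) .nil)))) (.g (nat_lit 0) (.e (nat_lit 262591) (nat_lit 0) .nil) .nil))))) (.nd (nat_lit 8) (.nd (nat_lit 9) 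
(.lf (nat_lit 536751) (.g (nat_lit 3086) (.e (nat_lit 65568) (nat_lit 2) (.e (nat_lit 90170) (nat_lit 13) (.e (nat_lit 172113) (nat_lit 10) (.e (nat_lit 434247) (nat_lit 28) (.e (nat_lit 573472) (nat_lit 12) (.e (nat_lit 57572) (nat_lit 54) (.e (nat_lit 770072) (nat_lit 8) .nil))))))) (.g (nat_lit 1) (.e (nat_lit 261364) (nat_lit 0) .nil) .nil))) 
(.lf (nat_lit 537263) (.g (nat_lit 3742) (.e (nat_lit 65607) (nat_lit 9) (.e (nat_lit 336027) (nat_lit 3) (.e (nat_lit 98384) (nat_lit 32) (.e (nat_lit 475199) (nat_lit 40) (.e (nat_lit 704589) (nat_lit 3) .nil))))) (.g (nat_lit 0) (.e (nat_lit 262315) (nat_lit 0) .nil) .nil)))) (.nd (nat_lit 9) 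
(.lf (nat_lit 537007) (.g (nat_lit 1941) (.e (nat_lit 65586) (nat_lit 7) (.e (nat_lit 319531) (nat_lit 16) (.e (nat_lit 286748) (nat_lit 9) (.e (nat_lit 336295) (nat_lit 15) (.e (nat_lit 3804) (nat_lit 231) (.e (nat_lit 811035) (nat_lit 11) (.e (nat_lit 7936) (nat_lit 74) (.e (nat_lit 770072) (nat_lit 8) .nil)))))))) (.g (nat_lit 1) (.e (nat_lit 261878) (nat_lit 0) .nil) .nil))) 
(.lf (nat_lit 537519) (.g (nat_lit 3394) (.e (nat_lit 65617) (nat_lit 10) (.e (nat_lit 344132) (nat_lit 26) (.e (nat_lit 557090) (nat_lit 12) (.e (nat_lit 164020) (nat_lit 45) (.e (nat_lit 696343) (nat_lit 8) (.e (nat_lit 172062) (nat_lit 2) (.e (nat_lit 196666) (nat_lit 13) .nil))))))) (.g (nat_lit 1) (.e (nat_lit 262771) (nat_lit 0) .nil) .nil)))))) 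
(.nd (nat_lit 7) (.nd (nat_lit 8) (.nd (nat_lit 9) 
(.lf (nat_lit 536687) (.g (nat_lit 4490) (.e (nat_lit 57931) (nat_lit 282) (.e (nat_lit 163943) (nat_lit 19) (.e (nat_lit 483413) (nat_lit 27) (.e (nat_lit 401414) (nat_lit 0) (.e (nat_lit 3304) (nat_lit 202) (.e (nat_lit 573484) (nat_lit 13) (.e (nat_lit 65563) (nat_lit 1) .nil))))))) (.g (nat_lit 1) (.e (nat_lit 260971) (nat_lit 0) .nil) .nil))) 
(.lf (nat_lit 537199) (.g (nat_lit 363) (.e (nat_lit 65604) (nat_lit 9) (.e (nat_lit 336028) (nat_lit 3) (.e (nat_lit 98359) (nat_lit 26) .nil))) (.g (nat_lit 0) (.e (nat_lit 262223) (nat_lit 0) .nil) .nil)))) (.nd (nat_lit 9) 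
(.lf (nat_lit 536943) (.g (nat_lit 1976) (.e (nat_lit 65580) (nat_lit 6) (.e (nat_lit 147495) (nat_lit 11) (.e (nat_lit 24658) (nat_lit 13) (.e (nat_lit 393249) (nat_lit 17) (.e (nat_lit 7936) (nat_lit 406) .nil))))) (.g (nat_lit 1) (.e (nat_lit 261772) (nat_lit 0) .nil) .nil))) 
(.lf (nat_lit 537455) (.g (nat_lit 1887) (.e (nat_lit 65617) (nat_lit 10) (.e (nat_lit 344127) (nat_lit 26) (.e (nat_lit 557090) (nat_lit 12) (.e (nat_lit 163840) (nat_lit 0) .nil)))) (.g (nat_lit 0) (.e (nat_lit 262693) (nat_lit 0) .nil) .nil))))) (.nd (nat_lit 8) (.nd (nat_lit 9) 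
(.lf (nat_lit 536815) (.g (nat_lit 3363) (.e (nat_lit 65571) (nat_lit 3) (.e (nat_lit 98341) (nat_lit 20) (.e (nat_lit 221213) (nat_lit 23) (.e (nat_lit 204830) (nat_lit 18) (.e (nat_lit 57927) (nat_lit 282) (.e (nat_lit 163868) (nat_lit 2) (.e (nat_lit 196663) (nat_lit 13) .nil))))))) (.g (nat_lit 1) (.e (nat_lit 261587) (nat_lit 0) .nil) .nil))) 
(.lf (nat_lit 537327) (.g (nat_lit 1649) (.e (nat_lit 65610) (nat_lit 10) (.e (nat_lit 344117) (nat_lit 21) (.e (nat_lit 516179) (nat_lit 15) (.e (nat_lit 475197) (nat_lit 40) .nil)))) (.g (nat_lit 0) (.e (nat_lit 262432) (nat_lit 0) .nil) .nil)))) (.nd (nat_lit 9) 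
(.lf (nat_lit 537071) (.g (nat_lit 809) (.e (nat_lit 65597) (nat_lit 9) (.e (nat_lit 336013) (nat_lit 2) (.e (nat_lit 90165) (nat_lit 12) .nil))) (.g (nat_lit 0) (.e (nat_lit 262039) (nat_lit 0) .nil) .nil))) 
(.lf (nat_lit 537583) (.g (nat_lit 2633) (.e (nat_lit 65619) (nat_lit 10) (.e (nat_lit 344117) (nat_lit 21) (.e (nat_lit 516106) (nat_lit 0) (.e (nat_lit 6986) (nat_lit 377) (.e (nat_lit 2779) (nat_lit 178) (.e (nat_lit 286765) (nat_lit 15) (.e (nat_lit 3296) (nat_lit 202) (.e (nat_lit 573479) (nat_lit 13) .nil)))))))) (.g (nat_lit 1) (.e (nat_lit 262863) (nat_lit 0) .nil) .nil)))))))) 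
(.nd (nat_lit 5) (.nd (nat_lit 6) (.nd (nat_lit 7) (.nd (nat_lit 8) (.nd (nat_lit 9) 
(.lf (nat_lit 536607) (.g (nat_lit 4277) (.e (nat_lit 57931) (nat_lit 282) (.e (nat_lit 163885) (nat_lit 5) (.e (nat_lit 221215) (nat_lit 23) (.e (nat_lit 204813) (nat_lit 9) (.e (nat_lit 426306) (nat_lit 12) (.e (nat_lit 475177) (nat_lit 24) (.e (nat_lit 524032) (nat_lit 18) .nil))))))) (.g (nat_lit 1) (.e (nat_lit 260749) (nat_lit 0) .nil) .nil))) 
(.lf (nat_lit 537119) (.g (nat_lit 3665) (.e (nat_lit 65603) (nat_lit 9) (.e (nat_lit 336028) (nat_lit 3) (.e (nat_lit 98350) (nat_lit 24) (.e (nat_lit 409649) (nat_lit 18) (.e (nat_lit 303117) (nat_lit 2) (.e (nat_lit 196665) (nat_lit 13) .nil)))))) (.g (nat_lit 1) (.e (nat_lit 262122) (nat_lit 0) .nil) .nil)))) (.nd (nat_lit 9) 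
(.lf (nat_lit 536863) (.g (nat_lit 2362) (.e (nat_lit 65571) (nat_lit 3) (.e (nat_lit 98342) (nat_lit 20) (.e (nat_lit 221215) (nat_lit 23) (.e (nat_lit 204829) (nat_lit 18) (.e (nat_lit 57927) (nat_lit 282) (.e (nat_lit 163866) (nat_lit 2) (.e (nat_lit 196664) (nat_lit 13) .nil))))))) (.g (nat_lit 1) (.e (nat_lit 261638) (nat_lit 0) .nil) .nil))) 
(.lf (nat_lit 537375) (.g (nat_lit 4093) (.e (nat_lit 65610) (nat_lit 10) (.e (nat_lit 344129) (nat_lit 26) (.e (nat_lit 557088) (nat_lit 12) (.e (nat_lit 164023) (nat_lit 46) (.e (nat_lit 704629) (nat_lit 9) (.e (nat_lit 375) (nat_lit 32) (.e (nat_lit 426125) (nat_lit 2) (.e (nat_lit 196666) (nat_lit 13) .nil)))))))) (.g (nat_lit 1) (.e (nat_lit 262571) (nat_lit 0) .nil) .nil))))) 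
(.nd (nat_lit 8) (.nd (nat_lit 9) 
(.lf (nat_lit 536735) (.g (nat_lit 3313) (.e (nat_lit 65568) (nat_lit 2) (.e (nat_lit 90170) (nat_lit 13) (.e (nat_lit 172106) (nat_lit 10) (.e (nat_lit 434231) (nat_lit 23) (.e (nat_lit 532576) (nat_lit 17) (.e (nat_lit 3452) (nat_lit 216) (.e (nat_lit 688178) (nat_lit 16) .nil))))))) (.g (nat_lit 1) (.e (nat_lit 261348) (nat_lit 0) .nil) .nil))) 
(.lf (nat_lit 537247) (.g (nat_lit 2379) (.e (nat_lit 65601) (nat_lit 9) (.e (nat_lit 336028) (nat_lit 3) (.e (nat_lit 98350) (nat_lit 24) (.e (nat_lit 409643) (nat_lit 18) .nil)))) (.g (nat_lit 0) (.e (nat_lit 262281) (nat_lit 0) .nil) .nil)))) (.nd (nat_lit 9) 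
(.lf (nat_lit 536991) (.g (nat_lit 1829) (.e (nat_lit 65585) (nat_lit 7) (.e (nat_lit 319534) (nat_lit 16) (.e (nat_lit 286756) (nat_lit 10) (.e (nat_lit 344090) (nat_lit 18) .nil)))) (.g (nat_lit 0) (.e (nat_lit 261858) (nat_lit 0) .nil) .nil))) 
(.lf (nat_lit 537503) (.g (nat_lit 4101) (.e (nat_lit 65617) (nat_lit 10) (.e (nat_lit 344130) (nat_lit 26) (.e (nat_lit 557087) (nat_lit 11) (.e (nat_lit 24625) (nat_lit 9) (.e (nat_lit 336308) (nat_lit 15) (.e (nat_lit 3304) (nat_lit 202) (.e (nat_lit 573484) (nat_lit 13) .nil))))))) (.g (nat_lit 1) (.e (nat_lit 262750) (nat_lit 0) .nil) .nil)))))) 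
(.nd (nat_lit 7) (.nd (nat_lit 8) (.nd (nat_lit 9) 
(.lf (nat_lit 536671) (.g (nat_lit 1724) (.e (nat_lit 57931) (nat_lit 282) (.e (nat_lit 163943) (nat_lit 19) (.e (nat_lit 483393) (nat_lit 23) (.e (nat_lit 336025) (nat_lit 3) (.e (nat_lit 98317) (nat_lit 9) .nil))))) (.g (nat_lit 0) (.e (nat_lit 260948) (nat_lit 0) .nil) .nil))) 
(.lf (nat_lit 537183) (.g (nat_lit 2614) (.e (nat_lit 65604) (nat_lit 9) (.e (nat_lit 336013) (nat_lit 2) (.e (nat_lit 90170) (nat_lit 13) (.e (nat_lit 172055) (nat_lit 0) .nil)))) (.g (nat_lit 0) (.e (nat_lit 262200) (nat_lit 0) .nil) .nil)))) (.nd (nat_lit 9) 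
(.lf (nat_lit 536927) (.g (nat_lit 1421) (.e (nat_lit 65580) (nat_lit 6) (.e (nat_lit 147492) (nat_lit 11) (.e (nat_lit 24627) (nat_lit 9) (.e (nat_lit 336438) (nat_lit 31) (.e (nat_lit 466688) (nat_lit 4) .nil))))) (.g (nat_lit 1) (.e (nat_lit 261751) (nat_lit 0) .nil) .nil))) 
(.lf (nat_lit 537439) (.g (nat_lit 4077) (.e (nat_lit 65617) (nat_lit 10) (.e (nat_lit 344117) (nat_lit 21) (.e (nat_lit 516151) (nat_lit 9) (.e (nat_lit 426022) (nat_lit 0) .nil)))) (.g (nat_lit 0) (.e (nat_lit 262675) (nat_lit 0) .nil) .nil))))) (.nd (nat_lit 8) (.nd (nat_lit 9) 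
(.lf (nat_lit 536799) (.g (nat_lit 1104) (.e (nat_lit 65570) (nat_lit 3) (.e (nat_lit 98333) (nat_lit 18) (.e (nat_lit 164179) (nat_lit 154) .nil))) (.g (nat_lit 0) (.e (nat_lit 261538) (nat_lit 0) .nil) .nil))) 
(.lf (nat_lit 537311) (.g (nat_lit 2867) (.e (nat_lit 65610) (nat_lit 10) (.e (nat_lit 344117) (nat_lit 21) (.e (nat_lit 516151) (nat_lit 9) (.e (nat_lit 426019) (nat_lit 0) (.e (nat_lit 3411) (nat_lit 212) .nil))))) (.g (nat_lit 0) (.e (nat_lit 262402) (nat_lit 0) .nil) .nil)))) (.nd (nat_lit 9) 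
(.lf (nat_lit 537055) (.g (nat_lit 3449) (.e (nat_lit 65591) (nat_lit 9) (.e (nat_lit 336454) (nat_lit 34) (.e (nat_lit 483365) (nat_lit 18) (.e (nat_lit 57929) (nat_lit 282) .nil)))) (.g (nat_lit 0) (.e (nat_lit 262001) (nat_lit 0) .nil) .nil))) 
(.lf (nat_lit 537567) (.g (nat_lit 3774) (.e (nat_lit 65618) (nat_lit 10) (.e (nat_lit 344117) (nat_lit 21) (.e (nat_lit 516179) (nat_lit 15) (.e (nat_lit 475198) (nat_lit 40) (.e (nat_lit 704589) (nat_lit 3) .nil))))) (.g (nat_lit 0) (.e (nat_lit 262828) (nat_lit 0) .nil) .nil))))))) (.nd (nat_lit 6) (.nd (nat_lit 7) (.nd (nat_lit 8) (.nd (nat_lit 9) 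
(.lf (nat_lit 536639) (.g (nat_lit 2446) (.e (nat_lit 57931) (nat_lit 282) (.e (nat_lit 163931) (nat_lit 17) (.e (nat_lit 466977) (nat_lit 22) (.e (nat_lit 196656) (nat_lit 11) (.e (nat_lit 24320) (nat_lit 20) .nil))))) (.g (nat_lit 0) (.e (nat_lit 260850) (nat_lit 0) .nil) .nil))) 
(.lf (nat_lit 537151) (.g (nat_lit 2152) (.e (nat_lit 65604) (nat_lit 9) (.e (nat_lit 336013) (nat_lit 2) (.e (nat_lit 90144) (nat_lit 9) .nil))) (.g (nat_lit 0) (.e (nat_lit 262168) (nat_lit 0) .nil) .nil)))) (.nd (nat_lit 9) 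
(.lf (nat_lit 536895) (.g (nat_lit 3154) (.e (nat_lit 65571) (nat_lit 3) (.e (nat_lit 98374) (nat_lit 29) (.e (nat_lit 450586) (nat_lit 10) (.e (nat_lit 573475) (nat_lit 12) (.e (nat_lit 57572) (nat_lit 54) (.e (nat_lit 770071) (nat_lit 8) .nil)))))) (.g (nat_lit 1) (.e (nat_lit 261672) (nat_lit 0) .nil) .nil))) 
(.lf (nat_lit 537407) (.g (nat_lit 1212) (.e (nat_lit 65615) (nat_lit 10) (.e (nat_lit 344120) (nat_lit 21) (.e (nat_lit 516179) (nat_lit 15) (.e (nat_lit 475199) (nat_lit 40) .nil)))) (.g (nat_lit 0) (.e (nat_lit 262617) (nat_lit 0) .nil) .nil))))) (.nd (nat_lit 8) (.nd (nat_lit 9) 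
(.lf (nat_lit 536767) (.g (nat_lit 2346) (.e (nat_lit 65569) (nat_lit 3) (.e (nat_lit 98341) (nat_lit 20) (.e (nat_lit 221214) (nat_lit 23) (.e (nat_lit 204829) (nat_lit 18) (.e (nat_lit 57927) (nat_lit 282) (.e (nat_lit 163868) (nat_lit 2) (.e (nat_lit 196663) (nat_lit 13) .nil))))))) (.g (nat_lit 1) (.e (nat_lit 261491) (nat_lit 0) .nil) .nil))) 
(.lf (nat_lit 537279) (.g (nat_lit 1340) (.e (nat_lit 65609) (nat_lit 10) (.e (nat_lit 344169) (nat_lit 40) (.e (nat_lit 671764) (nat_lit 6) (.e (nat_lit 81935) (nat_lit 20) (.e (nat_lit 1999) (nat_lit 137) .nil))))) (.g (nat_lit 0) (.e (nat_lit 262345) (nat_lit 0) .nil) .nil)))) (.nd (nat_lit 9) 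
(.lf (nat_lit 537023) (.g (nat_lit 2546) (.e (nat_lit 65586) (nat_lit 7) (.e (nat_lit 319531) (nat_lit 16) (.e (nat_lit 286759) (nat_lit 12) (.e (nat_lit 385107) (nat_lit 51) (.e (nat_lit 794638) (nat_lit 20) (.e (nat_lit 3606) (nat_lit 226) (.e (nat_lit 770072) (nat_lit 8) .nil))))))) (.g (nat_lit 1) (.e (nat_lit 261894) (nat_lit 0) .nil) .nil))) 
(.lf (nat_lit 537535) (.g (nat_lit 4313) (.e (nat_lit 65617) (nat_lit 10) (.e (nat_lit 344133) (nat_lit 26) (.e (nat_lit 557086) (nat_lit 11) (.e (nat_lit 24580) (nat_lit 0) (.e (nat_lit 6619) (nat_lit 357) (.e (nat_lit 2668) (nat_lit 167) (.e (nat_lit 196666) (nat_lit 13) .nil))))))) (.g (nat_lit 1) (.e (nat_lit 262790) (nat_lit 0) .nil) .nil)))))) 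
(.nd (nat_lit 7) (.nd (nat_lit 8) (.nd (nat_lit 9) 
(.lf (nat_lit 536703) (.g (nat_lit 1535) (.e (nat_lit 65550) (nat_lit 0) (.e (nat_lit 1788) (nat_lit 119) (.e (nat_lit 516166) (nat_lit 12) (.e (nat_lit 450587) (nat_lit 10) .nil)))) (.g (nat_lit 0) (.e (nat_lit 261154) (nat_lit 0) .nil) .nil))) 
(.lf (nat_lit 537215) (.g (nat_lit 2783) (.e (nat_lit 65604) (nat_lit 9) (.e (nat_lit 336028) (nat_lit 3) (.e (nat_lit 98366) (nat_lit 27) (.e (nat_lit 434272) (nat_lit 38) (.e (nat_lit 655375) (nat_lit 3) (.e (nat_lit 163978) (nat_lit 30) (.e (nat_lit 573483) (nat_lit 13) .nil))))))) (.g (nat_lit 1) (.e (nat_lit 262241) (nat_lit 0) .nil) .nil)))) (.nd (nat_lit 9) 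
(.lf (nat_lit 536959) (.g (nat_lit 1806) (.e (nat_lit 65583) (nat_lit 7) (.e (nat_lit 319506) (nat_lit 10) (.e (nat_lit 5019) (nat_lit 290) (.e (nat_lit 164359) (nat_lit 246) (.e (nat_lit 2979) (nat_lit 185) (.e (nat_lit 434266) (nat_lit 35) (.e (nat_lit 630821) (nat_lit 16) .nil))))))) (.g (nat_lit 1) (.e (nat_lit 261803) (nat_lit 0) .nil) .nil))) 
(.lf (nat_lit 537471) (.g (nat_lit 2459) (.e (nat_lit 65617) (nat_lit 10) (.e (nat_lit 344127) (nat_lit 26) (.e (nat_lit 557090) (nat_lit 12) (.e (nat_lit 163847) (nat_lit 0) (.e (nat_lit 6255) (nat_lit 337) .nil))))) (.g (nat_lit 0) (.e (nat_lit 262711) (nat_lit 0) .nil) .nil))))) (.nd (nat_lit 8) (.nd (nat_lit 9) 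
(.lf (nat_lit 536831) (.g (nat_lit 4004) (.e (nat_lit 65571) (nat_lit 3) (.e (nat_lit 98341) (nat_lit 20) (.e (nat_lit 221215) (nat_lit 23) (.e (nat_lit 204830) (nat_lit 18) (.e (nat_lit 57927) (nat_lit 282) (.e (nat_lit 163868) (nat_lit 2) (.e (nat_lit 196663) (nat_lit 13) .nil))))))) (.g (nat_lit 1) (.e (nat_lit 261603) (nat_lit 0) .nil) .nil))) 
(.lf (nat_lit 537343) (.g (nat_lit 3531) (.e (nat_lit 65610) (nat_lit 10) (.e (nat_lit 344127) (nat_lit 26) (.e (nat_lit 557090) (nat_lit 12) (.e (nat_lit 164020) (nat_lit 45) (.e (nat_lit 696328) (nat_lit 5) .nil))))) (.g (nat_lit 0) (.e (nat_lit 262465) (nat_lit 0) .nil) .nil)))) (.nd (nat_lit 9) 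
(.lf (nat_lit 537087) (.g (nat_lit 1282) (.e (nat_lit 65598) (nat_lit 9) (.e (nat_lit 336013) (nat_lit 2) (.e (nat_lit 90140) (nat_lit 9) .nil))) (.g (nat_lit 0) (.e (nat_lit 262071) (nat_lit 0) .nil) .nil))) 
(.lf (nat_lit 537599) (.g (nat_lit 4100) (.e (nat_lit 65619) (nat_lit 10) (.e (nat_lit 344117) (nat_lit 21) (.e (nat_lit 516143) (nat_lit 9) (.e (nat_lit 426412) (nat_lit 15) (.e (nat_lit 2059) (nat_lit 142) (.e (nat_lit 704589) (nat_lit 3) (.e (nat_lit 163979) (nat_lit 30) (.e (nat_lit 573482) (nat_lit 13) .nil)))))))) (.g (nat_lit 1) (.e (nat_lit 262882) (nat_lit 0) .nil) .nil)))))))))))))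


end

end Pool.Agent.Lib.MP_5854e1_co.Cz
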