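import Pool.Agent.Lib.MP_5854e1_co.DtD

/-!
# Windows and cells of the rings
-/

set_option autoImplicit false
set_option maxRecDepth 100000
set_option deprecated.oldSectionVars true

namespace Pool.Agent.Lib.MP_5854e1_co.Cz

open Pool.Agent.Lib.MP_5854e1_co

noncomputable section

noncomputable def tv5585 : DT := (.nd (nat_lit 0) (.nd (nat_lit 1) (.nd (nat_lit 2) (.nd (nat_lit 3) (.nd (nat_lit 4) (.nd (nat_lit 5) (.nd (nat_lit 6) (.nd (nat_lit 7) (.nd (nat_lit 8) (.nd (nat_lit 9) 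
(.lf (nat_lit 537600) (.g (nat_lit 2901) (.e (nat_lit 65619) (nat_lit 10) (.e (nat_lit 344117) (nat_lit 21) (.e (nat_lit 516145) (nat_lit 9) (.e (nat_lit 426091) (nat_lit 0) (.e (nat_lit 2458) (nat_lit 157) .nil))))) (.g (nat_lit 0) (.e (nat_lit 262883) (nat_lit 0) .nil) .nil))) 
(.lf (nat_lit 538112) (.g (nat_lit 1807) (.e (nat_lit 65653) (nat_lit 27) (.e (nat_lit 426342) (nat_lit 14) (.e (nat_lit 491547) (nat_lit 9) (.e (nat_lit 336414) (nat_lit 27) (.e (nat_lit 425984) (nat_lit 0) (.e (nat_lit 7588) (nat_lit 406) .nil)))))) (.g (nat_lit 1) (.e (nat_lit 264279) (nat_lit 0) .nil) .nil)))) (.nd (nat_lit 9) 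
(.lf (nat_lit 537856) (.g (nat_lit 696) (.e (nat_lit 65628) (nat_lit 14) (.e (nat_lit 401425) (nat_lit 2) (.e (nat_lit 196626) (nat_lit 9) .nil))) (.g (nat_lit 0) (.e (nat_lit 263309) (nat_lit 0) .nil) .nil))) 
(.lf (nat_lit 538368) (.g (nat_lit 590) (.e (nat_lit 73746) (nat_lit 3) (.e (nat_lit 516139) (nat_lit 7) (.e (nat_lit 409641) (nat_lit 17) .nil))) (.g (nat_lit 0) (.e (nat_lit 265572) (nat_lit 0) .nil) .nil))))) (.nd (nat_lit 8) (.nd (nat_lit 9) 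
(.lf (nat_lit 537728) (.g (nat_lit 2889) (.e (nat_lit 65619) (nat_lit 10) (.e (nat_lit 344129) (nat_lit 26) (.e (nat_lit 557087) (nat_lit 11) (.e (nat_lit 24584) (nat_lit 0) (.e (nat_lit 6477) (nat_lit 343) .nil))))) (.g (nat_lit 0) (.e (nat_lit 263031) (nat_lit 0) .nil) .nil))) 
(.lf (nat_lit 538240) (.g (nat_lit 3042) (.e (nat_lit 73745) (nat_lit 3) (.e (nat_lit 516185) (nat_lit 16) (.e (nat_lit 491560) (nat_lit 10) (.e (nat_lit 344117) (nat_lit 21) (.e (nat_lit 516106) (nat_lit 0) (.e (nat_lit 7936) (nat_lit 407) .nil)))))) (.g (nat_lit 1) (.e (nat_lit 265044) (nat_lit 0) .nil) .nil)))) (.nd (nat_lit 9) 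
(.lf (nat_lit 537984) (.g (nat_lit 2937) (.e (nat_lit 65637) (nat_lit 15) (.e (nat_lit 3253) (nat_lit 197) (.e (nat_lit 532504) (nat_lit 1) (.e (nat_lit 57852) (nat_lit 252) (.e (nat_lit 57344) (nat_lit 0) (.e (nat_lit 1859) (nat_lit 124) (.e (nat_lit 557105) (nat_lit 14) (.e (nat_lit 180252) (nat_lit 10) (.e (nat_lit 573481) (nat_lit 13) .nil))))))))) (.g (nat_lit 1) (.e (nat_lit 263534) (nat_lit 0) .nil) .nil))) 
(.lf (nat_lit 538496) (.g (nat_lit 2645) (.e (nat_lit 73748) (nat_lit 3) (.e (nat_lit 516102) (nat_lit 0) (.e (nat_lit 6989) (nat_lit 377) (.e (nat_lit 2777) (nat_lit 178) (.e (nat_lit 286735) (nat_lit 3) (.e (nat_lit 98319) (nat_lit 17) (.e (nat_lit 7591) (nat_lit 407) .nil))))))) (.g (nat_lit 1) (.e (nat_lit 266220) (nat_lit 0) .nil) .nil)))))) (.nd (nat_lit 7) (.nd (nat_lit 8) (.nd (nat_lit 9) 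
(.lf (nat_lit 537664) (.g (nat_lit 442) (.e (nat_lit 65619) (nat_lit 10) (.e (nat_lit 344117) (nat_lit 21) (.e (nat_lit 516160) (nat_lit 10) .nil))) (.g (nat_lit 0) (.e (nat_lit 262947) (nat_lit 0) .nil) .nil))) 
(.lf (nat_lit 538176) (.g (nat_lit 1416) (.e (nat_lit 73731) (nat_lit 0) (.e (nat_lit 7266) (nat_lit 384) (.e (nat_lit 57409) (nat_lit 12) (.e (nat_lit 336115) (nat_lit 9) (.e (nat_lit 343808) (nat_lit 31) (.e (nat_lit 466688) (nat_lit 5) .nil)))))) (.g (nat_lit 1) (.e (nat_lit 264761) (nat_lit 0) .nil) .nil)))) (.nd (nat_lit 9) 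
(.lf (nat_lit 537920) (.g (nat_lit 2791) (.e (nat_lit 65630) (nat_lit 14) (.e (nat_lit 401425) (nat_lit 2) (.e (nat_lit 196666) (nat_lit 13) (.e (nat_lit 65630) (nat_lit 14) (.e (nat_lit 401412) (nat_lit 0) (.e (nat_lit 3133) (nat_lit 193) (.e (nat_lit 500060) (nat_lit 18) .nil))))))) (.g (nat_lit 1) (.e (nat_lit 263406) (nat_lit 0) .nil) .nil))) 
(.lf (nat_lit 538432) (.g (nat_lit 2566) (.e (nat_lit 73747) (nat_lit 3) (.e (nat_lit 516119) (nat_lit 1) (.e (nat_lit 164178) (nat_lit 154) (.e (nat_lit 57378) (nat_lit 3) (.e (nat_lit 98340) (nat_lit 20) .nil))))) (.g (nat_lit 0) (.e (nat_lit 266006) (nat_lit 0) .nil) .nil))))) (.nd (nat_lit 8) (.nd (nat_lit 9) 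
(.lf (nat_lit 537792) (.g (nat_lit 2041) (.e (nat_lit 65620) (nat_lit 10) (.e (nat_lit 344138) (nat_lit 29) (.e (nat_lit 581653) (nat_lit 6) (.e (nat_lit 188439) (nat_lit 20) (.e (nat_lit 3579) (nat_lit 223) (.e (nat_lit 745490) (nat_lit 4) .nil)))))) (.g (nat_lit 1) (.e (nat_lit 263111) (nat_lit 0) .nil) .nil))) 
(.lf (nat_lit 538304) (.g (nat_lit 4006) (.e (nat_lit 73746) (nat_lit 3) (.e (nat_lit 516120) (nat_lit 1) (.e (nat_lit 164182) (nat_lit 154) (.e (nat_lit 57379) (nat_lit 3) (.e (nat_lit 98341) (nat_lit 20) (.e (nat_lit 221212) (nat_lit 22) (.e (nat_lit 196668) (nat_lit 14) .nil))))))) (.g (nat_lit 1) (.e (nat_lit 265421) (nat_lit 0) .nil) .nil)))) (.nd (nat_lit 9) 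
(.lf (nat_lit 538048) (.g (nat_lit 2374) (.e (nat_lit 73472) (nat_lit 18) (.e (nat_lit 204862) (nat_lit 27) (.e (nat_lit 344117) (nat_lit 21) (.e (nat_lit 516099) (nat_lit 0) .nil)))) (.g (nat_lit 0) (.e (nat_lit 263856) (nat_lit 0) .nil) .nil))) 
(.lf (nat_lit 538560) (.g (nat_lit 536) (.e (nat_lit 73753) (nat_lit 8) (.e (nat_lit 557098) (nat_lit 13) (.e (nat_lit 172066) (nat_lit 3) .nil))) (.g (nat_lit 0) (.e (nat_lit 266417) (nat_lit 0) .nil) .nil))))))) (.nd (nat_lit 6) (.nd (nat_lit 7) (.nd (nat_lit 8) (.nd (nat_lit 9) 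
(.lf (nat_lit 537632) (.g (nat_lit 3692) (.e (nat_lit 65619) (nat_lit 10) (.e (nat_lit 344117) (nat_lit 21) (.e (nat_lit 516151) (nat_lit 9) (.e (nat_lit 426037) (nat_lit 0) (.e (nat_lit 2458) (nat_lit 157) .nil))))) (.g (nat_lit 0) (.e (nat_lit 262915) (nat_lit 0) .nil) .nil))) 
(.lf (nat_lit 538144) (.g (nat_lit 901) (.e (nat_lit 73472) (nat_lit 34) (.e (nat_lit 483382) (nat_lit 23) (.e (nat_lit 336019) (nat_lit 3) (.e (nat_lit 98335) (nat_lit 18) .nil)))) (.g (nat_lit 0) (.e (nat_lit 264521) (nat_lit 0) .nil) .nil)))) (.nd (nat_lit 9) 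
(.lf (nat_lit 537888) (.g (nat_lit 1060) (.e (nat_lit 65628) (nat_lit 14) (.e (nat_lit 401428) (nat_lit 3) (.e (nat_lit 204866) (nat_lit 28) (.e (nat_lit 352260) (nat_lit 0) .nil)))) (.g (nat_lit 0) (.e (nat_lit 263349) (nat_lit 0) .nil) .nil))) 
(.lf (nat_lit 538400) (.g (nat_lit 2076) (.e (nat_lit 73747) (nat_lit 3) (.e (nat_lit 516098) (nat_lit 0) (.e (nat_lit 7593) (nat_lit 407) (.e (nat_lit 73738) (nat_lit 1) (.e (nat_lit 499910) (nat_lit 8) (.e (nat_lit 171776) (nat_lit 192) .nil)))))) (.g (nat_lit 1) (.e (nat_lit 265617) (nat_lit 0) .nil) .nil))))) (.nd (nat_lit 8) (.nd (nat_lit 9) 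
(.lf (nat_lit 537760) (.g (nat_lit 3141) (.e (nat_lit 65619) (nat_lit 10) (.e (nat_lit 344129) (nat_lit 26) (.e (nat_lit 557087) (nat_lit 11) (.e (nat_lit 24669) (nat_lit 15) .nil)))) (.g (nat_lit 0) (.e (nat_lit 263063) (nat_lit 0) .nil) .nil))) 
(.lf (nat_lit 538272) (.g (nat_lit 2701) (.e (nat_lit 73746) (nat_lit 3) (.e (nat_lit 516116) (nat_lit 1) (.e (nat_lit 164182) (nat_lit 154) (.e (nat_lit 57379) (nat_lit 3) (.e (nat_lit 98342) (nat_lit 20) .nil))))) (.g (nat_lit 0) (.e (nat_lit 265216) (nat_lit 0) .nil) .nil)))) (.nd (nat_lit 9) 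
(.lf (nat_lit 538016) (.g (nat_lit 3513) (.e (nat_lit 65637) (nat_lit 15) (.e (nat_lit 3632) (nat_lit 227) (.e (nat_lit 778327) (nat_lit 6) (.e (nat_lit 81959) (nat_lit 24) (.e (nat_lit 123195) (nat_lit 266) (.e (nat_lit 57354) (nat_lit 0) (.e (nat_lit 7936) (nat_lit 347) .nil))))))) (.g (nat_lit 1) (.e (nat_lit 263630) (nat_lit 0) .nil) .nil))) 
(.lf (nat_lit 538528) (.g (nat_lit 3036) (.e (nat_lit 73748) (nat_lit 3) (.e (nat_lit 516139) (nat_lit 7) (.e (nat_lit 409641) (nat_lit 17) (.e (nat_lit 294931) (nat_lit 3) (.e (nat_lit 98319) (nat_lit 17) (.e (nat_lit 7591) (nat_lit 407) .nil)))))) (.g (nat_lit 1) (.e (nat_lit 266268) (nat_lit 0) .nil) .nil)))))) (.nd (nat_lit 7) (.nd (nat_lit 8) (.nd (nat_lit 9) 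
(.lf (nat_lit 537696) (.g (nat_lit 1399) (.e (nat_lit 65619) (nat_lit 10) (.e (nat_lit 344138) (nat_lit 29) (.e (nat_lit 581653) (nat_lit 6) (.e (nat_lit 188434) (nat_lit 20) (.e (nat_lit 3579) (nat_lit 223) .nil))))) (.g (nat_lit 0) (.e (nat_lit 262988) (nat_lit 0) .nil) .nil))) 
(.lf (nat_lit 538208) (.g (nat_lit 1728) (.e (nat_lit 81664) (nat_lit 5) (.e (nat_lit 532583) (nat_lit 26) (.e (nat_lit 426188) (nat_lit 9) (.e (nat_lit 426562) (nat_lit 33) (.e (nat_lit 392960) (nat_lit 5) .nil))))) (.g (nat_lit 0) (.e (nat_lit 264984) (nat_lit 0) .nil) .nil)))) (.nd (nat_lit 9) 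
(.lf (nat_lit 537952) (.g (nat_lit 1123) (.e (nat_lit 65630) (nat_lit 14) (.e (nat_lit 401428) (nat_lit 3) (.e (nat_lit 204868) (nat_lit 29) (.e (nat_lit 360448) (nat_lit 0) .nil)))) (.g (nat_lit 0) (.e (nat_lit 263449) (nat_lit 0) .nil) .nil))) 
(.lf (nat_lit 538464) (.g (nat_lit 4529) (.e (nat_lit 73747) (nat_lit 3) (.e (nat_lit 516131) (nat_lit 3) (.e (nat_lit 221215) (nat_lit 23) (.e (nat_lit 204830) (nat_lit 18) (.e (nat_lit 57926) (nat_lit 282) (.e (nat_lit 163869) (nat_lit 2) (.e (nat_lit 196668) (nat_lit 14) .nil))))))) (.g (nat_lit 1) (.e (nat_lit 266169) (nat_lit 0) .nil) .nil))))) (.nd (nat_lit 8) (.nd (nat_lit 9) 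
(.lf (nat_lit 537824) (.g (nat_lit 3079) (.e (nat_lit 65623) (nat_lit 12) (.e (nat_lit 385074) (nat_lit 31) (.e (nat_lit 573493) (nat_lit 15) (.e (nat_lit 81959) (nat_lit 24) (.e (nat_lit 123040) (nat_lit 140) .nil))))) (.g (nat_lit 0) (.e (nat_lit 263201) (nat_lit 0) .nil) .nil))) 
(.lf (nat_lit 538336) (.g (nat_lit 2620) (.e (nat_lit 73746) (nat_lit 3) (.e (nat_lit 516131) (nat_lit 3) (.e (nat_lit 221214) (nat_lit 23) (.e (nat_lit 204829) (nat_lit 18) (.e (nat_lit 57928) (nat_lit 282) (.e (nat_lit 163871) (nat_lit 2) (.e (nat_lit 196668) (nat_lit 14) .nil))))))) (.g (nat_lit 1) (.e (nat_lit 265528) (nat_lit 0) .nil) .nil)))) (.nd (nat_lit 9) 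
(.lf (nat_lit 538080) (.g (nat_lit 1698) (.e (nat_lit 65652) (nat_lit 27) (.e (nat_lit 426163) (nat_lit 6) (.e (nat_lit 253962) (nat_lit 9) (.e (nat_lit 452) (nat_lit 33) .nil)))) (.g (nat_lit 0) (.e (nat_lit 264171) (nat_lit 0) .nil) .nil))) 
(.lf (nat_lit 538592) (.g (nat_lit 2878) (.e (nat_lit 73753) (nat_lit 8) (.e (nat_lit 557103) (nat_lit 14) (.e (nat_lit 180250) (nat_lit 10) (.e (nat_lit 573475) (nat_lit 12) (.e (nat_lit 57504) (nat_lit 38) (.e (nat_lit 638994) (nat_lit 7) (.e (nat_lit 163976) (nat_lit 30) (.e (nat_lit 573487) (nat_lit 14) .nil)))))))) (.g (nat_lit 1) (.e (nat_lit 266529) (nat_lit 0) .nil) .nil)))))))) 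
(.nd (nat_lit 5) (.nd (nat_lit 6) (.nd (nat_lit 7) (.nd (nat_lit 8) (.nd (nat_lit 9) 
(.lf (nat_lit 537616) (.g (nat_lit 2207) (.e (nat_lit 65619) (nat_lit 10) (.e (nat_lit 344117) (nat_lit 21) (.e (nat_lit 516146) (nat_lit 9) (.e (nat_lit 426375) (nat_lit 15) .nil)))) (.g (nat_lit 0) (.e (nat_lit 262899) (nat_lit 0) .nil) .nil))) 
(.lf (nat_lit 538128) (.g (nat_lit 1962) (.e (nat_lit 65653) (nat_lit 27) (.e (nat_lit 426344) (nat_lit 14) (.e (nat_lit 491552) (nat_lit 9) (.e (nat_lit 336412) (nat_lit 27) (.e (nat_lit 426009) (nat_lit 0) (.e (nat_lit 7587) (nat_lit 406) .nil)))))) (.g (nat_lit 1) (.e (nat_lit 264296) (nat_lit 0) .nil) .nil)))) (.nd (nat_lit 9) 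
(.lf (nat_lit 537872) (.g (nat_lit 3626) (.e (nat_lit 65628) (nat_lit 14) (.e (nat_lit 401425) (nat_lit 2) (.e (nat_lit 196681) (nat_lit 17) (.e (nat_lit 131109) (nat_lit 9) (.e (nat_lit 336240) (nat_lit 15) (.e (nat_lit 3309) (nat_lit 202) (.e (nat_lit 573485) (nat_lit 13) .nil))))))) (.g (nat_lit 1) (.e (nat_lit 263330) (nat_lit 0) .nil) .nil))) 
(.lf (nat_lit 538384) (.g (nat_lit 2205) (.e (nat_lit 73746) (nat_lit 3) (.e (nat_lit 516185) (nat_lit 16) (.e (nat_lit 491560) (nat_lit 10) (.e (nat_lit 344109) (nat_lit 19) .nil)))) (.g (nat_lit 0) (.e (nat_lit 265598) (nat_lit 0) .nil) .nil))))) (.nd (nat_lit 8) (.nd (nat_lit 9) 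
(.lf (nat_lit 537744) (.g (nat_lit 2337) (.e (nat_lit 65619) (nat_lit 10) (.e (nat_lit 344129) (nat_lit 26) (.e (nat_lit 557087) (nat_lit 11) (.e (nat_lit 24623) (nat_lit 9) (.e (nat_lit 336291) (nat_lit 15) .nil))))) (.g (nat_lit 0) (.e (nat_lit 263047) (nat_lit 0) .nil) .nil))) 
(.lf (nat_lit 538256) (.g (nat_lit 3634) (.e (nat_lit 73746) (nat_lit 3) (.e (nat_lit 516115) (nat_lit 1) (.e (nat_lit 164179) (nat_lit 154) (.e (nat_lit 57377) (nat_lit 3) (.e (nat_lit 98341) (nat_lit 20) (.e (nat_lit 221212) (nat_lit 22) (.e (nat_lit 196668) (nat_lit 14) .nil))))))) (.g (nat_lit 1) (.e (nat_lit 265132) (nat_lit 0) .nil) .nil)))) (.nd (nat_lit 9) 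
(.lf (nat_lit 538000) (.g (nat_lit 4565) (.e (nat_lit 65637) (nat_lit 15) (.e (nat_lit 3305) (nat_lit 202) (.e (nat_lit 573484) (nat_lit 13) (.e (nat_lit 65610) (nat_lit 10) (.e (nat_lit 344117) (nat_lit 21) (.e (nat_lit 516106) (nat_lit 0) (.e (nat_lit 7936) (nat_lit 406) .nil))))))) (.g (nat_lit 1) (.e (nat_lit 263589) (nat_lit 0) .nil) .nil))) 
(.lf (nat_lit 538512) (.g (nat_lit 1603) (.e (nat_lit 73748) (nat_lit 3) (.e (nat_lit 516131) (nat_lit 3) (.e (nat_lit 221215) (nat_lit 23) (.e (nat_lit 204827) (nat_lit 17) .nil)))) (.g (nat_lit 0) (.e (nat_lit 266248) (nat_lit 0) .nil) .nil)))))) (.nd (nat_lit 7) (.nd (nat_lit 8) (.nd (nat_lit 9) 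
(.lf (nat_lit 537680) (.g (nat_lit 1603) (.e (nat_lit 65619) (nat_lit 10) (.e (nat_lit 344117) (nat_lit 21) (.e (nat_lit 516170) (nat_lit 13) (.e (nat_lit 458775) (nat_lit 18) .nil)))) (.g (nat_lit 0) (.e (nat_lit 262964) (nat_lit 0) .nil) .nil))) 
(.lf (nat_lit 538192) (.g (nat_lit 2259) (.e (nat_lit 73739) (nat_lit 1) (.e (nat_lit 499847) (nat_lit 5) (.e (nat_lit 3102) (nat_lit 192) (.e (nat_lit 491558) (nat_lit 10) (.e (nat_lit 344115) (nat_lit 20) (.e (nat_lit 507906) (nat_lit 0) (.e (nat_lit 5412) (nat_lit 303) .nil))))))) (.g (nat_lit 1) (.e (nat_lit 264921) (nat_lit 0) .nil) .nil)))) (.nd (nat_lit 9) 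
(.lf (nat_lit 537936) (.g (nat_lit 4876) (.e (nat_lit 65630) (nat_lit 14) (.e (nat_lit 401428) (nat_lit 3) (.e (nat_lit 204855) (nat_lit 26) (.e (nat_lit 336226) (nat_lit 14) (.e (nat_lit 401425) (nat_lit 2) (.e (nat_lit 196666) (nat_lit 13) .nil)))))) (.g (nat_lit 1) (.e (nat_lit 263432) (nat_lit 0) .nil) .nil))) 
(.lf (nat_lit 538448) (.g (nat_lit 2846) (.e (nat_lit 73747) (nat_lit 3) (.e (nat_lit 516129) (nat_lit 3) (.e (nat_lit 221214) (nat_lit 23) (.e (nat_lit 204829) (nat_lit 18) (.e (nat_lit 57924) (nat_lit 282) (.e (nat_lit 163871) (nat_lit 2) (.e (nat_lit 196668) (nat_lit 14) .nil))))))) (.g (nat_lit 1) (.e (nat_lit 266147) (nat_lit 0) .nil) .nil))))) (.nd (nat_lit 8) (.nd (nat_lit 9) 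
(.lf (nat_lit 537808) (.g (nat_lit 2391) (.e (nat_lit 65622) (nat_lit 12) (.e (nat_lit 385074) (nat_lit 31) (.e (nat_lit 573493) (nat_lit 15) (.e (nat_lit 81939) (nat_lit 20) .nil)))) (.g (nat_lit 0) (.e (nat_lit 263151) (nat_lit 0) .nil) .nil))) 
(.lf (nat_lit 538320) (.g (nat_lit 4691) (.e (nat_lit 73746) (nat_lit 3) (.e (nat_lit 516129) (nat_lit 3) (.e (nat_lit 221214) (nat_lit 23) (.e (nat_lit 204830) (nat_lit 18) (.e (nat_lit 57926) (nat_lit 282) (.e (nat_lit 163868) (nat_lit 2) (.e (nat_lit 196670) (nat_lit 14) .nil))))))) (.g (nat_lit 1) (.e (nat_lit 265507) (nat_lit 0) .nil) .nil)))) (.nd (nat_lit 9) 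
(.lf (nat_lit 538064) (.g (nat_lit 414) (.e (nat_lit 65647) (nat_lit 25) (.e (nat_lit 409602) (nat_lit 0) (.e (nat_lit 5404) (nat_lit 302) .nil))) (.g (nat_lit 0) (.e (nat_lit 264064) (nat_lit 0) .nil) .nil))) 
(.lf (nat_lit 538576) (.g (nat_lit 2450) (.e (nat_lit 73753) (nat_lit 8) (.e (nat_lit 557103) (nat_lit 14) (.e (nat_lit 180244) (nat_lit 5) (.e (nat_lit 532499) (nat_lit 1) (.e (nat_lit 65280) (nat_lit 168) .nil))))) (.g (nat_lit 0) (.e (nat_lit 266492) (nat_lit 0) .nil) .nil))))))) (.nd (nat_lit 6) (.nd (nat_lit 7) (.nd (nat_lit 8) (.nd (nat_lit 9) 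
(.lf (nat_lit 537648) (.g (nat_lit 2244) (.e (nat_lit 65619) (nat_lit 10) (.e (nat_lit 344117) (nat_lit 21) (.e (nat_lit 516151) (nat_lit 9) (.e (nat_lit 426104) (nat_lit 1) .nil)))) (.g (nat_lit 0) (.e (nat_lit 262931) (nat_lit 0) .nil) .nil))) 
(.lf (nat_lit 538160) (.g (nat_lit 897) (.e (nat_lit 73472) (nat_lit 34) (.e (nat_lit 483413) (nat_lit 27) (.e (nat_lit 401426) (nat_lit 3) .nil))) (.g (nat_lit 0) (.e (nat_lit 264661) (nat_lit 0) .nil) .nil)))) (.nd (nat_lit 9) 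
(.lf (nat_lit 537904) (.g (nat_lit 1631) (.e (nat_lit 65629) (nat_lit 14) (.e (nat_lit 401428) (nat_lit 3) (.e (nat_lit 204863) (nat_lit 27) (.e (nat_lit 344068) (nat_lit 0) .nil)))) (.g (nat_lit 0) (.e (nat_lit 263381) (nat_lit 0) .nil) .nil))) 
(.lf (nat_lit 538416) (.g (nat_lit 2936) (.e (nat_lit 73747) (nat_lit 3) (.e (nat_lit 516116) (nat_lit 1) (.e (nat_lit 164182) (nat_lit 154) (.e (nat_lit 57379) (nat_lit 3) (.e (nat_lit 98340) (nat_lit 20) .nil))))) (.g (nat_lit 0) (.e (nat_lit 265881) (nat_lit 0) .nil) .nil))))) (.nd (nat_lit 8) (.nd (nat_lit 9) 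
(.lf (nat_lit 537776) (.g (nat_lit 2093) (.e (nat_lit 65619) (nat_lit 10) (.e (nat_lit 344160) (nat_lit 37) (.e (nat_lit 647195) (nat_lit 9) (.e (nat_lit 426) (nat_lit 32) (.e (nat_lit 426275) (nat_lit 10) .nil))))) (.g (nat_lit 0) (.e (nat_lit 263091) (nat_lit 0) .nil) .nil))) 
(.lf (nat_lit 538288) (.g (nat_lit 3221) (.e (nat_lit 73746) (nat_lit 3) (.e (nat_lit 516119) (nat_lit 1) (.e (nat_lit 164179) (nat_lit 154) (.e (nat_lit 57379) (nat_lit 3) (.e (nat_lit 98341) (nat_lit 20) (.e (nat_lit 221212) (nat_lit 22) (.e (nat_lit 196668) (nat_lit 14) .nil))))))) (.g (nat_lit 1) (.e (nat_lit 265359) (nat_lit 0) .nil) .nil)))) (.nd (nat_lit 9) 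
(.lf (nat_lit 538032) (.g (nat_lit 1698) (.e (nat_lit 65642) (nat_lit 15) (.e (nat_lit 3747) (nat_lit 228) (.e (nat_lit 786473) (nat_lit 27) (.e (nat_lit 336420) (nat_lit 28) .nil)))) (.g (nat_lit 0) (.e (nat_lit 263740) (nat_lit 0) .nil) .nil))) 
(.lf (nat_lit 538544) (.g (nat_lit 2250) (.e (nat_lit 73753) (nat_lit 8) (.e (nat_lit 557087) (nat_lit 11) (.e (nat_lit 24644) (nat_lit 11) (.e (nat_lit 368676) (nat_lit 21) (.e (nat_lit 516106) (nat_lit 0) (.e (nat_lit 7936) (nat_lit 407) .nil)))))) (.g (nat_lit 1) (.e (nat_lit 266381) (nat_lit 0) .nil) .nil)))))) (.nd (nat_lit 7) (.nd (nat_lit 8) (.nd (nat_lit 9) 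
(.lf (nat_lit 537712) (.g (nat_lit 3338) (.e (nat_lit 65619) (nat_lit 10) (.e (nat_lit 344129) (nat_lit 26) (.e (nat_lit 557066) (nat_lit 9) (.e (nat_lit 307) (nat_lit 22) (.e (nat_lit 344097) (nat_lit 18) (.e (nat_lit 4717) (nat_lit 275) (.e (nat_lit 2610) (nat_lit 163) (.e (nat_lit 163977) (nat_lit 30) (.e (nat_lit 573482) (nat_lit 13) .nil))))))))) (.g (nat_lit 1) (.e (nat_lit 263009) (nat_lit 0) .nil) .nil))) 
(.lf (nat_lit 538224) (.g (nat_lit 983) (.e (nat_lit 73750) (nat_lit 6) (.e (nat_lit 540724) (nat_lit 28) (.e (nat_lit 442395) (nat_lit 20) (.e (nat_lit 3571) (nat_lit 222) (.e (nat_lit 737283) (nat_lit 0) (.e (nat_lit 5412) (nat_lit 303) .nil)))))) (.g (nat_lit 1) (.e (nat_lit 265024) (nat_lit 0) .nil) .nil)))) (.nd (nat_lit 9) 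
(.lf (nat_lit 537968) (.g (nat_lit 1689) (.e (nat_lit 65636) (nat_lit 15) (.e (nat_lit 3249) (nat_lit 197) (.e (nat_lit 532504) (nat_lit 1) (.e (nat_lit 57851) (nat_lit 252) (.e (nat_lit 57354) (nat_lit 0) .nil))))) (.g (nat_lit 0) (.e (nat_lit 263502) (nat_lit 0) .nil) .nil))) 
(.lf (nat_lit 538480) (.g (nat_lit 2912) (.e (nat_lit 73747) (nat_lit 3) (.e (nat_lit 516139) (nat_lit 7) (.e (nat_lit 409648) (nat_lit 18) (.e (nat_lit 303108) (nat_lit 0) (.e (nat_lit 3272) (nat_lit 199) (.e (nat_lit 548910) (nat_lit 17) (.e (nat_lit 171776) (nat_lit 192) .nil))))))) (.g (nat_lit 1) (.e (nat_lit 266187) (nat_lit 0) .nil) .nil))))) (.nd (nat_lit 8) (.nd (nat_lit 9) 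
(.lf (nat_lit 537840) (.g (nat_lit 627) (.e (nat_lit 65625) (nat_lit 13) (.e (nat_lit 393253) (nat_lit 18) (.e (nat_lit 164179) (nat_lit 154) .nil))) (.g (nat_lit 0) (.e (nat_lit 263245) (nat_lit 0) .nil) .nil))) 
(.lf (nat_lit 538352) (.g (nat_lit 3453) (.e (nat_lit 73746) (nat_lit 3) (.e (nat_lit 516131) (nat_lit 3) (.e (nat_lit 221215) (nat_lit 23) (.e (nat_lit 204830) (nat_lit 18) (.e (nat_lit 57926) (nat_lit 282) (.e (nat_lit 163871) (nat_lit 2) (.e (nat_lit 196668) (nat_lit 14) .nil))))))) (.g (nat_lit 1) (.e (nat_lit 265546) (nat_lit 0) .nil) .nil)))) (.nd (nat_lit 9) 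
(.lf (nat_lit 538096) (.g (nat_lit 965) (.e (nat_lit 65653) (nat_lit 27) (.e (nat_lit 426012) (nat_lit 0) (.e (nat_lit 7587) (nat_lit 406) (.e (nat_lit 65647) (nat_lit 25) .nil)))) (.g (nat_lit 0) (.e (nat_lit 264207) (nat_lit 0) .nil) .nil))) 
(.lf (nat_lit 538608) (.g (nat_lit 438) (.e (nat_lit 73753) (nat_lit 8) (.e (nat_lit 557104) (nat_lit 14) (.e (nat_lit 188160) (nat_lit 3) .nil))) (.g (nat_lit 0) (.e (nat_lit 266550) (nat_lit 0) .nil) .nil))))))))) (.nd (nat_lit 4) (.nd (nat_lit 5) (.nd (nat_lit 6) (.nd (nat_lit 7) (.nd (nat_lit 8) (.nd (nat_lit 9) 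
(.lf (nat_lit 537608) (.g (nat_lit 2553) (.e (nat_lit 65619) (nat_lit 10) (.e (nat_lit 344117) (nat_lit 21) (.e (nat_lit 516145) (nat_lit 9) (.e (nat_lit 426364) (nat_lit 15) .nil)))) (.g (nat_lit 0) (.e (nat_lit 262891) (nat_lit 0) .nil) .nil))) 
(.lf (nat_lit 538120) (.g (nat_lit 2118) (.e (nat_lit 65653) (nat_lit 27) (.e (nat_lit 426343) (nat_lit 14) (.e (nat_lit 491552) (nat_lit 9) (.e (nat_lit 336412) (nat_lit 27) (.e (nat_lit 426010) (nat_lit 0) (.e (nat_lit 7589) (nat_lit 406) .nil)))))) (.g (nat_lit 1) (.e (nat_lit 264287) (nat_lit 0) .nil) .nil)))) (.nd (nat_lit 9) 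
(.lf (nat_lit 537864) (.g (nat_lit 4040) (.e (nat_lit 65628) (nat_lit 14) (.e (nat_lit 401425) (nat_lit 2) (.e (nat_lit 196666) (nat_lit 13) (.e (nat_lit 65628) (nat_lit 14) (.e (nat_lit 401425) (nat_lit 2) (.e (nat_lit 196665) (nat_lit 13) .nil)))))) (.g (nat_lit 1) (.e (nat_lit 263319) (nat_lit 0) .nil) .nil))) 
(.lf (nat_lit 538376) (.g (nat_lit 5343) (.e (nat_lit 73746) (nat_lit 3) (.e (nat_lit 516166) (nat_lit 12) (.e (nat_lit 450588) (nat_lit 10) (.e (nat_lit 573476) (nat_lit 12) .nil)))) (.g (nat_lit 0) (.e (nat_lit 265586) (nat_lit 0) .nil) .nil))))) (.nd (nat_lit 8) (.nd (nat_lit 9) 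
(.lf (nat_lit 537736) (.g (nat_lit 3106) (.e (nat_lit 65619) (nat_lit 10) (.e (nat_lit 344129) (nat_lit 26) (.e (nat_lit 557087) (nat_lit 11) (.e (nat_lit 24599) (nat_lit 1) (.e (nat_lit 57771) (nat_lit 227) .nil))))) (.g (nat_lit 0) (.e (nat_lit 263039) (nat_lit 0) .nil) .nil))) 
(.lf (nat_lit 538248) (.g (nat_lit 2707) (.e (nat_lit 73746) (nat_lit 3) (.e (nat_lit 516102) (nat_lit 0) (.e (nat_lit 6989) (nat_lit 377) (.e (nat_lit 2810) (nat_lit 180) (.e (nat_lit 303119) (nat_lit 3) (.e (nat_lit 204819) (nat_lit 17) (.e (nat_lit 7936) (nat_lit 348) .nil))))))) (.g (nat_lit 1) (.e (nat_lit 265056) (nat_lit 0) .nil) .nil)))) (.nd (nat_lit 9) 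
(.lf (nat_lit 537992) (.g (nat_lit 1705) (.e (nat_lit 65637) (nat_lit 15) (.e (nat_lit 3253) (nat_lit 197) (.e (nat_lit 532563) (nat_lit 15) (.e (nat_lit 385068) (nat_lit 26) .nil)))) (.g (nat_lit 0) (.e (nat_lit 263571) (nat_lit 0) .nil) .nil))) 
(.lf (nat_lit 538504) (.g (nat_lit 1463) (.e (nat_lit 73748) (nat_lit 3) (.e (nat_lit 516129) (nat_lit 3) (.e (nat_lit 221214) (nat_lit 23) (.e (nat_lit 204830) (nat_lit 18) .nil)))) (.g (nat_lit 0) (.e (nat_lit 266232) (nat_lit 0) .nil) .nil)))))) (.nd (nat_lit 7) (.nd (nat_lit 8) (.nd (nat_lit 9) 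
(.lf (nat_lit 537672) (.g (nat_lit 5278) (.e (nat_lit 65619) (nat_lit 10) (.e (nat_lit 344117) (nat_lit 21) (.e (nat_lit 516160) (nat_lit 10) (.e (nat_lit 434271) (nat_lit 38) (.e (nat_lit 655375) (nat_lit 3) (.e (nat_lit 163978) (nat_lit 30) (.e (nat_lit 573479) (nat_lit 13) .nil))))))) (.g (nat_lit 1) (.e (nat_lit 262956) (nat_lit 0) .nil) .nil))) 
(.lf (nat_lit 538184) (.g (nat_lit 2387) (.e (nat_lit 73739) (nat_lit 1) (.e (nat_lit 499811) (nat_lit 5) (.e (nat_lit 3102) (nat_lit 192) (.e (nat_lit 491558) (nat_lit 10) (.e (nat_lit 344115) (nat_lit 20) (.e (nat_lit 507908) (nat_lit 0) (.e (nat_lit 5412) (nat_lit 303) .nil))))))) (.g (nat_lit 1) (.e (nat_lit 264913) (nat_lit 0) .nil) .nil)))) (.nd (nat_lit 9) 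
(.lf (nat_lit 537928) (.g (nat_lit 3461) (.e (nat_lit 65630) (nat_lit 14) (.e (nat_lit 401425) (nat_lit 2) (.e (nat_lit 196681) (nat_lit 17) (.e (nat_lit 131109) (nat_lit 9) (.e (nat_lit 336240) (nat_lit 15) (.e (nat_lit 3309) (nat_lit 202) (.e (nat_lit 573485) (nat_lit 13) .nil))))))) (.g (nat_lit 1) (.e (nat_lit 263415) (nat_lit 0) .nil) .nil))) 
(.lf (nat_lit 538440) (.g (nat_lit 788) (.e (nat_lit 73747) (nat_lit 3) (.e (nat_lit 516119) (nat_lit 1) (.e (nat_lit 164196) (nat_lit 158) .nil))) (.g (nat_lit 0) (.e (nat_lit 266071) (nat_lit 0) .nil) .nil))))) (.nd (nat_lit 8) (.nd (nat_lit 9) 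
(.lf (nat_lit 537800) (.g (nat_lit 1009) (.e (nat_lit 65622) (nat_lit 12) (.e (nat_lit 385068) (nat_lit 26) (.e (nat_lit 532513) (nat_lit 3) (.e (nat_lit 122624) (nat_lit 12) .nil)))) (.g (nat_lit 0) (.e (nat_lit 263128) (nat_lit 0) .nil) .nil))) 
(.lf (nat_lit 538312) (.g (nat_lit 436) (.e (nat_lit 73746) (nat_lit 3) (.e (nat_lit 516129) (nat_lit 3) (.e (nat_lit 221210) (nat_lit 22) .nil))) (.g (nat_lit 0) (.e (nat_lit 265497) (nat_lit 0) .nil) .nil)))) (.nd (nat_lit 9) 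
(.lf (nat_lit 538056) (.g (nat_lit 1490) (.e (nat_lit 73472) (nat_lit 18) (.e (nat_lit 204863) (nat_lit 27) (.e (nat_lit 344132) (nat_lit 26) (.e (nat_lit 557101) (nat_lit 13) .nil)))) (.g (nat_lit 0) (.e (nat_lit 263864) (nat_lit 0) .nil) .nil))) 
(.lf (nat_lit 538568) (.g (nat_lit 455) (.e (nat_lit 73753) (nat_lit 8) (.e (nat_lit 557100) (nat_lit 13) (.e (nat_lit 172067) (nat_lit 3) .nil))) (.g (nat_lit 0) (.e (nat_lit 266434) (nat_lit 0) .nil) .nil))))))) (.nd (nat_lit 6) (.nd (nat_lit 7) (.nd (nat_lit 8) (.nd (nat_lit 9) 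
(.lf (nat_lit 537640) (.g (nat_lit 3458) (.e (nat_lit 65619) (nat_lit 10) (.e (nat_lit 344117) (nat_lit 21) (.e (nat_lit 516151) (nat_lit 9) (.e (nat_lit 426049) (nat_lit 0) (.e (nat_lit 2478) (nat_lit 157) .nil))))) (.g (nat_lit 0) (.e (nat_lit 262923) (nat_lit 0) .nil) .nil))) 
(.lf (nat_lit 538152) (.g (nat_lit 324) (.e (nat_lit 73472) (nat_lit 34) (.e (nat_lit 483403) (nat_lit 26) (.e (nat_lit 385066) (nat_lit 26) .nil))) (.g (nat_lit 0) (.e (nat_lit 264592) (nat_lit 0) .nil) .nil)))) (.nd (nat_lit 9) 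
(.lf (nat_lit 537896) (.g (nat_lit 1600) (.e (nat_lit 65628) (nat_lit 14) (.e (nat_lit 401437) (nat_lit 9) (.e (nat_lit 426540) (nat_lit 29) (.e (nat_lit 352302) (nat_lit 20) .nil)))) (.g (nat_lit 0) (.e (nat_lit 263373) (nat_lit 0) .nil) .nil))) 
(.lf (nat_lit 538408) (.g (nat_lit 4563) (.e (nat_lit 73747) (nat_lit 3) (.e (nat_lit 516115) (nat_lit 1) (.e (nat_lit 164177) (nat_lit 154) (.e (nat_lit 57379) (nat_lit 3) (.e (nat_lit 98342) (nat_lit 20) (.e (nat_lit 221212) (nat_lit 22) (.e (nat_lit 196668) (nat_lit 14) .nil))))))) (.g (nat_lit 1) (.e (nat_lit 265646) (nat_lit 0) .nil) .nil))))) (.nd (nat_lit 8) (.nd (nat_lit 9) 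
(.lf (nat_lit 537768) (.g (nat_lit 2873) (.e (nat_lit 65619) (nat_lit 10) (.e (nat_lit 344129) (nat_lit 26) (.e (nat_lit 557090) (nat_lit 12) (.e (nat_lit 163847) (nat_lit 0) .nil)))) (.g (nat_lit 0) (.e (nat_lit 263071) (nat_lit 0) .nil) .nil))) 
(.lf (nat_lit 538280) (.g (nat_lit 2943) (.e (nat_lit 73746) (nat_lit 3) (.e (nat_lit 516117) (nat_lit 1) (.e (nat_lit 164183) (nat_lit 154) (.e (nat_lit 57378) (nat_lit 3) (.e (nat_lit 98340) (nat_lit 20) (.e (nat_lit 221210) (nat_lit 22) (.e (nat_lit 196668) (nat_lit 14) .nil))))))) (.g (nat_lit 1) (.e (nat_lit 265276) (nat_lit 0) .nil) .nil)))) (.nd (nat_lit 9) 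
(.lf (nat_lit 538024) (.g (nat_lit 3192) (.e (nat_lit 65640) (nat_lit 15) (.e (nat_lit 3305) (nat_lit 202) (.e (nat_lit 573485) (nat_lit 13) (.e (nat_lit 65604) (nat_lit 9) (.e (nat_lit 336028) (nat_lit 3) (.e (nat_lit 98325) (nat_lit 17) (.e (nat_lit 7936) (nat_lit 406) .nil))))))) (.g (nat_lit 1) (.e (nat_lit 263665) (nat_lit 0) .nil) .nil))) 
(.lf (nat_lit 538536) (.g (nat_lit 1641) (.e (nat_lit 73757) (nat_lit 11) (.e (nat_lit 581651) (nat_lit 4) (.e (nat_lit 172094) (nat_lit 9) (.e (nat_lit 426025) (nat_lit 0) (.e (nat_lit 3569) (nat_lit 222) (.e (nat_lit 737283) (nat_lit 0) (.e (nat_lit 5409) (nat_lit 303) .nil))))))) (.g (nat_lit 1) (.e (nat_lit 266325) (nat_lit 0) .nil) .nil)))))) 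
(.nd (nat_lit 7) (.nd (nat_lit 8) (.nd (nat_lit 9) 
(.lf (nat_lit 537704) (.g (nat_lit 1604) (.e (nat_lit 65619) (nat_lit 10) (.e (nat_lit 344129) (nat_lit 26) (.e (nat_lit 557065) (nat_lit 9) (.e (nat_lit 332) (nat_lit 26) .nil)))) (.g (nat_lit 0) (.e (nat_lit 262997) (nat_lit 0) .nil) .nil))) 
(.lf (nat_lit 538216) (.g (nat_lit 1457) (.e (nat_lit 81664) (nat_lit 5) (.e (nat_lit 532583) (nat_lit 26) (.e (nat_lit 426199) (nat_lit 9) (.e (nat_lit 426558) (nat_lit 33) (.e (nat_lit 392960) (nat_lit 5) .nil))))) (.g (nat_lit 0) (.e (nat_lit 264994) (nat_lit 0) .nil) .nil)))) (.nd (nat_lit 9) 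
(.lf (nat_lit 537960) (.g (nat_lit 2968) (.e (nat_lit 65630) (nat_lit 14) (.e (nat_lit 401437) (nat_lit 9) (.e (nat_lit 426542) (nat_lit 29) (.e (nat_lit 352283) (nat_lit 20) (.e (nat_lit 1999) (nat_lit 137) (.e (nat_lit 663567) (nat_lit 4) .nil)))))) (.g (nat_lit 1) (.e (nat_lit 263478) (nat_lit 0) .nil) .nil))) 
(.lf (nat_lit 538472) (.g (nat_lit 2499) (.e (nat_lit 73747) (nat_lit 3) (.e (nat_lit 516138) (nat_lit 7) (.e (nat_lit 409641) (nat_lit 17) (.e (nat_lit 294928) (nat_lit 2) (.e (nat_lit 90133) (nat_lit 9) (.e (nat_lit 2397) (nat_lit 157) (.e (nat_lit 7590) (nat_lit 407) .nil))))))) (.g (nat_lit 1) (.e (nat_lit 266178) (nat_lit 0) .nil) .nil))))) (.nd (nat_lit 8) (.nd (nat_lit 9) 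
(.lf (nat_lit 537832) (.g (nat_lit 2458) (.e (nat_lit 65624) (nat_lit 12) (.e (nat_lit 385074) (nat_lit 31) (.e (nat_lit 573484) (nat_lit 13) (.e (nat_lit 65623) (nat_lit 12) (.e (nat_lit 385074) (nat_lit 31) .nil))))) (.g (nat_lit 0) (.e (nat_lit 263226) (nat_lit 0) .nil) .nil))) 
(.lf (nat_lit 538344) (.g (nat_lit 2745) (.e (nat_lit 73746) (nat_lit 3) (.e (nat_lit 516131) (nat_lit 3) (.e (nat_lit 221215) (nat_lit 23) (.e (nat_lit 204828) (nat_lit 18) (.e (nat_lit 57926) (nat_lit 282) (.e (nat_lit 163871) (nat_lit 2) (.e (nat_lit 196670) (nat_lit 14) .nil))))))) (.g (nat_lit 1) (.e (nat_lit 265538) (nat_lit 0) .nil) .nil)))) (.nd (nat_lit 9) 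
(.lf (nat_lit 538088) (.g (nat_lit 1616) (.e (nat_lit 65652) (nat_lit 27) (.e (nat_lit 426347) (nat_lit 14) (.e (nat_lit 491549) (nat_lit 9) (.e (nat_lit 336438) (nat_lit 31) (.e (nat_lit 466688) (nat_lit 4) .nil))))) (.g (nat_lit 1) (.e (nat_lit 264182) (nat_lit 0) .nil) .nil))) 
(.lf (nat_lit 538600) (.g (nat_lit 2588) (.e (nat_lit 73753) (nat_lit 8) (.e (nat_lit 557103) (nat_lit 14) (.e (nat_lit 180252) (nat_lit 10) (.e (nat_lit 573475) (nat_lit 12) (.e (nat_lit 57503) (nat_lit 38) .nil))))) (.g (nat_lit 0) (.e (nat_lit 266537) (nat_lit 0) .nil) .nil)))))))) (.nd (nat_lit 5) (.nd (nat_lit 6) (.nd (nat_lit 7) (.nd (nat_lit 8) (.nd (nat_lit 9) 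
(.lf (nat_lit 537624) (.g (nat_lit 3146) (.e (nat_lit 65619) (nat_lit 10) (.e (nat_lit 344117) (nat_lit 21) (.e (nat_lit 516151) (nat_lit 9) (.e (nat_lit 426019) (nat_lit 0) .nil)))) (.g (nat_lit 0) (.e (nat_lit 262907) (nat_lit 0) .nil) .nil))) 
(.lf (nat_lit 538136) (.g (nat_lit 1518) (.e (nat_lit 73472) (nat_lit 27) (.e (nat_lit 426347) (nat_lit 14) (.e (nat_lit 491549) (nat_lit 9) (.e (nat_lit 336421) (nat_lit 28) (.e (nat_lit 442112) (nat_lit 4) .nil))))) (.g (nat_lit 0) (.e (nat_lit 264322) (nat_lit 0) .nil) .nil)))) (.nd (nat_lit 9) 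
(.lf (nat_lit 537880) (.g (nat_lit 2145) (.e (nat_lit 65628) (nat_lit 14) (.e (nat_lit 401428) (nat_lit 3) (.e (nat_lit 204861) (nat_lit 26) (.e (nat_lit 336194) (nat_lit 12) (.e (nat_lit 385073) (nat_lit 31) (.e (nat_lit 573485) (nat_lit 13) .nil)))))) (.g (nat_lit 1) (.e (nat_lit 263341) (nat_lit 0) .nil) .nil))) 
(.lf (nat_lit 538392) (.g (nat_lit 1528) (.e (nat_lit 73746) (nat_lit 3) (.e (nat_lit 524032) (nat_lit 33) (.e (nat_lit 401457) (nat_lit 13) (.e (nat_lit 483330) (nat_lit 0) (.e (nat_lit 7936) (nat_lit 407) .nil))))) (.g (nat_lit 1) (.e (nat_lit 265608) (nat_lit 0) .nil) .nil))))) (.nd (nat_lit 8) (.nd (nat_lit 9) 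
(.lf (nat_lit 537752) (.g (nat_lit 3302) (.e (nat_lit 65619) (nat_lit 10) (.e (nat_lit 344129) (nat_lit 26) (.e (nat_lit 557087) (nat_lit 11) (.e (nat_lit 24628) (nat_lit 9) (.e (nat_lit 336260) (nat_lit 15) (.e (nat_lit 3307) (nat_lit 202) (.e (nat_lit 573485) (nat_lit 13) .nil))))))) (.g (nat_lit 1) (.e (nat_lit 263055) (nat_lit 0) .nil) .nil))) 
(.lf (nat_lit 538264) (.g (nat_lit 3035) (.e (nat_lit 73746) (nat_lit 3) (.e (nat_lit 516115) (nat_lit 1) (.e (nat_lit 164182) (nat_lit 154) (.e (nat_lit 57378) (nat_lit 3) (.e (nat_lit 98342) (nat_lit 20) (.e (nat_lit 221212) (nat_lit 22) (.e (nat_lit 196668) (nat_lit 14) .nil))))))) (.g (nat_lit 1) (.e (nat_lit 265159) (nat_lit 0) .nil) .nil)))) (.nd (nat_lit 9) 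
(.lf (nat_lit 538008) (.g (nat_lit 3080) (.e (nat_lit 65637) (nat_lit 15) (.e (nat_lit 3305) (nat_lit 202) (.e (nat_lit 573493) (nat_lit 15) (.e (nat_lit 81953) (nat_lit 22) (.e (nat_lit 90133) (nat_lit 9) (.e (nat_lit 2397) (nat_lit 157) (.e (nat_lit 7586) (nat_lit 406) .nil))))))) (.g (nat_lit 1) (.e (nat_lit 263607) (nat_lit 0) .nil) .nil))) 
(.lf (nat_lit 538520) (.g (nat_lit 3002) (.e (nat_lit 73748) (nat_lit 3) (.e (nat_lit 516139) (nat_lit 7) (.e (nat_lit 409645) (nat_lit 18) (.e (nat_lit 303117) (nat_lit 2) (.e (nat_lit 196661) (nat_lit 12) .nil))))) (.g (nat_lit 0) (.e (nat_lit 266258) (nat_lit 0) .nil) .nil)))))) (.nd (nat_lit 7) (.nd (nat_lit 8) (.nd (nat_lit 9) 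
(.lf (nat_lit 537688) (.g (nat_lit 2846) (.e (nat_lit 65619) (nat_lit 10) (.e (nat_lit 344117) (nat_lit 21) (.e (nat_lit 516185) (nat_lit 16) (.e (nat_lit 491547) (nat_lit 9) (.e (nat_lit 336261) (nat_lit 15) .nil))))) (.g (nat_lit 0) (.e (nat_lit 262974) (nat_lit 0) .nil) .nil))) 
(.lf (nat_lit 538200) (.g (nat_lit 1884) (.e (nat_lit 81664) (nat_lit 5) (.e (nat_lit 532579) (nat_lit 26) (.e (nat_lit 426188) (nat_lit 9) (.e (nat_lit 426558) (nat_lit 33) (.e (nat_lit 392960) (nat_lit 5) .nil))))) (.g (nat_lit 0) (.e (nat_lit 264955) (nat_lit 0) .nil) .nil)))) (.nd (nat_lit 9) 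
(.lf (nat_lit 537944) (.g (nat_lit 3139) (.e (nat_lit 65630) (nat_lit 14) (.e (nat_lit 401428) (nat_lit 3) (.e (nat_lit 204861) (nat_lit 26) (.e (nat_lit 336230) (nat_lit 14) (.e (nat_lit 401414) (nat_lit 0) (.e (nat_lit 3124) (nat_lit 193) (.e (nat_lit 500060) (nat_lit 18) .nil))))))) (.g (nat_lit 1) (.e (nat_lit 263440) (nat_lit 0) .nil) .nil))) 
(.lf (nat_lit 538456) (.g (nat_lit 2913) (.e (nat_lit 73747) (nat_lit 3) (.e (nat_lit 516129) (nat_lit 3) (.e (nat_lit 221215) (nat_lit 23) (.e (nat_lit 204831) (nat_lit 18) (.e (nat_lit 57929) (nat_lit 282) (.e (nat_lit 163869) (nat_lit 2) (.e (nat_lit 196668) (nat_lit 14) .nil))))))) (.g (nat_lit 1) (.e (nat_lit 266156) (nat_lit 0) .nil) .nil))))) (.nd (nat_lit 8) (.nd (nat_lit 9) 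
(.lf (nat_lit 537816) (.g (nat_lit 2545) (.e (nat_lit 65623) (nat_lit 12) (.e (nat_lit 385074) (nat_lit 31) (.e (nat_lit 573480) (nat_lit 13) (.e (nat_lit 65630) (nat_lit 14) (.e (nat_lit 401425) (nat_lit 2) (.e (nat_lit 196665) (nat_lit 13) .nil)))))) (.g (nat_lit 1) (.e (nat_lit 263171) (nat_lit 0) .nil) .nil))) 
(.lf (nat_lit 538328) (.g (nat_lit 5205) (.e (nat_lit 73746) (nat_lit 3) (.e (nat_lit 516129) (nat_lit 3) (.e (nat_lit 221215) (nat_lit 23) (.e (nat_lit 204830) (nat_lit 18) (.e (nat_lit 57927) (nat_lit 282) (.e (nat_lit 163869) (nat_lit 2) (.e (nat_lit 196670) (nat_lit 14) .nil))))))) (.g (nat_lit 1) (.e (nat_lit 265515) (nat_lit 0) .nil) .nil)))) (.nd (nat_lit 9) 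
(.lf (nat_lit 538072) (.g (nat_lit 1596) (.e (nat_lit 65649) (nat_lit 27) (.e (nat_lit 426341) (nat_lit 14) (.e (nat_lit 491571) (nat_lit 13) (.e (nat_lit 393235) (nat_lit 17) .nil)))) (.g (nat_lit 0) (.e (nat_lit 264152) (nat_lit 0) .nil) .nil))) 
(.lf (nat_lit 538584) (.g (nat_lit 3572) (.e (nat_lit 73753) (nat_lit 8) (.e (nat_lit 557103) (nat_lit 14) (.e (nat_lit 180250) (nat_lit 10) (.e (nat_lit 573474) (nat_lit 12) (.e (nat_lit 57503) (nat_lit 38) (.e (nat_lit 638994) (nat_lit 7) (.e (nat_lit 163976) (nat_lit 30) (.e (nat_lit 573487) (nat_lit 14) .nil)))))))) (.g (nat_lit 1) (.e (nat_lit 266520) (nat_lit 0) .nil) .nil))))))) 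
(.nd (nat_lit 6) (.nd (nat_lit 7) (.nd (nat_lit 8) (.nd (nat_lit 9) 
(.lf (nat_lit 537656) (.g (nat_lit 468) (.e (nat_lit 65619) (nat_lit 10) (.e (nat_lit 344117) (nat_lit 21) (.e (nat_lit 516159) (nat_lit 10) .nil))) (.g (nat_lit 0) (.e (nat_lit 262939) (nat_lit 0) .nil) .nil))) 
(.lf (nat_lit 538168) (.g (nat_lit 1732) (.e (nat_lit 73729) (nat_lit 0) (.e (nat_lit 7266) (nat_lit 384) (.e (nat_lit 57409) (nat_lit 12) (.e (nat_lit 336115) (nat_lit 9) (.e (nat_lit 343808) (nat_lit 31) (.e (nat_lit 466688) (nat_lit 5) .nil)))))) (.g (nat_lit 1) (.e (nat_lit 264707) (nat_lit 0) .nil) .nil)))) (.nd (nat_lit 9) 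
(.lf (nat_lit 537912) (.g (nat_lit 984) (.e (nat_lit 65630) (nat_lit 14) (.e (nat_lit 401425) (nat_lit 2) (.e (nat_lit 196666) (nat_lit 13) (.e (nat_lit 65622) (nat_lit 12) .nil)))) (.g (nat_lit 0) (.e (nat_lit 263398) (nat_lit 0) .nil) .nil))) 
(.lf (nat_lit 538424) (.g (nat_lit 2576) (.e (nat_lit 73747) (nat_lit 3) (.e (nat_lit 516117) (nat_lit 1) (.e (nat_lit 164181) (nat_lit 154) (.e (nat_lit 57379) (nat_lit 3) (.e (nat_lit 98340) (nat_lit 20) (.e (nat_lit 221212) (nat_lit 22) (.e (nat_lit 196668) (nat_lit 14) .nil))))))) (.g (nat_lit 1) (.e (nat_lit 265903) (nat_lit 0) .nil) .nil))))) (.nd (nat_lit 8) (.nd (nat_lit 9) 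
(.lf (nat_lit 537784) (.g (nat_lit 3768) (.e (nat_lit 65620) (nat_lit 10) (.e (nat_lit 344117) (nat_lit 21) (.e (nat_lit 516139) (nat_lit 7) (.e (nat_lit 409649) (nat_lit 18) (.e (nat_lit 303117) (nat_lit 2) (.e (nat_lit 196666) (nat_lit 13) .nil)))))) (.g (nat_lit 1) (.e (nat_lit 263103) (nat_lit 0) .nil) .nil))) 
(.lf (nat_lit 538296) (.g (nat_lit 2426) (.e (nat_lit 73746) (nat_lit 3) (.e (nat_lit 516119) (nat_lit 1) (.e (nat_lit 164183) (nat_lit 154) (.e (nat_lit 57379) (nat_lit 3) (.e (nat_lit 98340) (nat_lit 20) .nil))))) (.g (nat_lit 0) (.e (nat_lit 265375) (nat_lit 0) .nil) .nil)))) (.nd (nat_lit 9) 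
(.lf (nat_lit 538040) (.g (nat_lit 1875) (.e (nat_lit 73472) (nat_lit 18) (.e (nat_lit 204829) (nat_lit 18) (.e (nat_lit 57854) (nat_lit 252) (.e (nat_lit 57378) (nat_lit 3) (.e (nat_lit 98342) (nat_lit 20) .nil))))) (.g (nat_lit 0) (.e (nat_lit 263789) (nat_lit 0) .nil) .nil))) 
(.lf (nat_lit 538552) (.g (nat_lit 659) (.e (nat_lit 73753) (nat_lit 8) (.e (nat_lit 557091) (nat_lit 12) (.e (nat_lit 164005) (nat_lit 41) .nil))) (.g (nat_lit 0) (.e (nat_lit 266400) (nat_lit 0) .nil) .nil)))))) (.nd (nat_lit 7) (.nd (nat_lit 8) (.nd (nat_lit 9) 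
(.lf (nat_lit 537720) (.g (nat_lit 1888) (.e (nat_lit 65619) (nat_lit 10) (.e (nat_lit 344129) (nat_lit 26) (.e (nat_lit 557074) (nat_lit 9) (.e (nat_lit 250) (nat_lit 21) (.e (nat_lit 336203) (nat_lit 12) .nil))))) (.g (nat_lit 0) (.e (nat_lit 263021) (nat_lit 0) .nil) .nil))) 
(.lf (nat_lit 538232) (.g (nat_lit 671) (.e (nat_lit 73745) (nat_lit 3) (.e (nat_lit 516119) (nat_lit 1) (.e (nat_lit 164179) (nat_lit 154) .nil))) (.g (nat_lit 0) (.e (nat_lit 265035) (nat_lit 0) .nil) .nil)))) (.nd (nat_lit 9) 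
(.lf (nat_lit 537976) (.g (nat_lit 1217) (.e (nat_lit 65637) (nat_lit 15) (.e (nat_lit 3253) (nat_lit 197) (.e (nat_lit 532501) (nat_lit 1) (.e (nat_lit 57852) (nat_lit 252) .nil)))) (.g (nat_lit 0) (.e (nat_lit 263525) (nat_lit 0) .nil) .nil))) 
(.lf (nat_lit 538488) (.g (nat_lit 2815) (.e (nat_lit 73747) (nat_lit 3) (.e (nat_lit 516185) (nat_lit 16) (.e (nat_lit 491560) (nat_lit 10) (.e (nat_lit 352000) (nat_lit 19) (.e (nat_lit 499910) (nat_lit 8) (.e (nat_lit 171776) (nat_lit 192) .nil)))))) (.g (nat_lit 1) (.e (nat_lit 266196) (nat_lit 0) .nil) .nil))))) (.nd (nat_lit 8) (.nd (nat_lit 9) 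
(.lf (nat_lit 537848) (.g (nat_lit 2707) (.e (nat_lit 65626) (nat_lit 13) (.e (nat_lit 393225) (nat_lit 9) (.e (nat_lit 335996) (nat_lit 1) (.e (nat_lit 57931) (nat_lit 282) (.e (nat_lit 163866) (nat_lit 2) (.e (nat_lit 196665) (nat_lit 13) .nil)))))) (.g (nat_lit 1) (.e (nat_lit 263267) (nat_lit 0) .nil) .nil))) 
(.lf (nat_lit 538360) (.g (nat_lit 2765) (.e (nat_lit 73746) (nat_lit 3) (.e (nat_lit 516139) (nat_lit 7) (.e (nat_lit 409644) (nat_lit 18) (.e (nat_lit 303119) (nat_lit 3) (.e (nat_lit 204821) (nat_lit 17) (.e (nat_lit 7936) (nat_lit 348) .nil)))))) (.g (nat_lit 1) (.e (nat_lit 265560) (nat_lit 0) .nil) .nil)))) (.nd (nat_lit 9) 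
(.lf (nat_lit 538104) (.g (nat_lit 1670) (.e (nat_lit 65653) (nat_lit 27) (.e (nat_lit 426315) (nat_lit 12) (.e (nat_lit 475209) (nat_lit 41) (.e (nat_lit 712745) (nat_lit 27) (.e (nat_lit 425984) (nat_lit 0) (.e (nat_lit 7588) (nat_lit 406) .nil)))))) (.g (nat_lit 1) (.e (nat_lit 264267) (nat_lit 0) .nil) .nil))) 
(.lf (nat_lit 538616) (.g (nat_lit 3068) (.e (nat_lit 73753) (nat_lit 8) (.e (nat_lit 557104) (nat_lit 14) (.e (nat_lit 180252) (nat_lit 10) (.e (nat_lit 573473) (nat_lit 12) (.e (nat_lit 57504) (nat_lit 38) .nil))))) (.g (nat_lit 0) (.e (nat_lit 266561) (nat_lit 0) .nil) .nil)))))))))) 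
(.nd (nat_lit 3) (.nd (nat_lit 4) (.nd (nat_lit 5) (.nd (nat_lit 6) (.nd (nat_lit 7) 
(.nd (nat_lit 8) (.nd (nat_lit 9) 
(.lf (nat_lit 537604) (.g (nat_lit 2577) (.e (nat_lit 65619) (nat_lit 10) (.e (nat_lit 344117) (nat_lit 21) (.e (nat_lit 516145) (nat_lit 9) (.e (nat_lit 426350) (nat_lit 15) .nil)))) (.g (nat_lit 0) (.e (nat_lit 262887) (nat_lit 0) .nil) .nil))) 
(.lf (nat_lit 538116) (.g (nat_lit 2471) (.e (nat_lit 65653) (nat_lit 27) (.e (nat_lit 426343) (nat_lit 14) (.e (nat_lit 491546) (nat_lit 9) (.e (nat_lit 336414) (nat_lit 27) (.e (nat_lit 425987) (nat_lit 0) (.e (nat_lit 7588) (nat_lit 406) .nil)))))) (.g (nat_lit 1) (.e (nat_lit 264283) (nat_lit 0) .nil) .nil)))) (.nd (nat_lit 9) 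
(.lf (nat_lit 537860) (.g (nat_lit 1630) (.e (nat_lit 65628) (nat_lit 14) (.e (nat_lit 401425) (nat_lit 2) (.e (nat_lit 196666) (nat_lit 13) (.e (nat_lit 65596) (nat_lit 9) .nil)))) (.g (nat_lit 0) (.e (nat_lit 263315) (nat_lit 0) .nil) .nil))) 
(.lf (nat_lit 538372) (.g (nat_lit 3467) (.e (nat_lit 73746) (nat_lit 3) (.e (nat_lit 516166) (nat_lit 12) (.e (nat_lit 450587) (nat_lit 10) (.e (nat_lit 573472) (nat_lit 12) .nil)))) (.g (nat_lit 0) (.e (nat_lit 265582) (nat_lit 0) .nil) .nil))))) (.nd (nat_lit 8) (.nd (nat_lit 9) 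
(.lf (nat_lit 537732) (.g (nat_lit 2340) (.e (nat_lit 65619) (nat_lit 10) (.e (nat_lit 344129) (nat_lit 26) (.e (nat_lit 557087) (nat_lit 11) (.e (nat_lit 24589) (nat_lit 0) .nil)))) (.g (nat_lit 0) (.e (nat_lit 263035) (nat_lit 0) .nil) .nil))) 
(.lf (nat_lit 538244) (.g (nat_lit 3004) (.e (nat_lit 73746) (nat_lit 3) (.e (nat_lit 516098) (nat_lit 0) (.e (nat_lit 7591) (nat_lit 407) (.e (nat_lit 73747) (nat_lit 3) (.e (nat_lit 516106) (nat_lit 0) (.e (nat_lit 7936) (nat_lit 407) .nil)))))) (.g (nat_lit 1) (.e (nat_lit 265051) (nat_lit 0) .nil) .nil)))) (.nd (nat_lit 9) 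
(.lf (nat_lit 537988) (.g (nat_lit 2091) (.e (nat_lit 65637) (nat_lit 15) (.e (nat_lit 3253) (nat_lit 197) (.e (nat_lit 532504) (nat_lit 1) (.e (nat_lit 57852) (nat_lit 252) (.e (nat_lit 57378) (nat_lit 3) .nil))))) (.g (nat_lit 0) (.e (nat_lit 263538) (nat_lit 0) .nil) .nil))) 
(.lf (nat_lit 538500) (.g (nat_lit 754) (.e (nat_lit 73748) (nat_lit 3) (.e (nat_lit 516119) (nat_lit 1) (.e (nat_lit 171776) (nat_lit 160) .nil))) (.g (nat_lit 0) (.e (nat_lit 266227) (nat_lit 0) .nil) .nil)))))) (.nd (nat_lit 7) (.nd (nat_lit 8) (.nd (nat_lit 9) 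
(.lf (nat_lit 537668) (.g (nat_lit 2766) (.e (nat_lit 65619) (nat_lit 10) (.e (nat_lit 344117) (nat_lit 21) (.e (nat_lit 516160) (nat_lit 10) (.e (nat_lit 434208) (nat_lit 18) (.e (nat_lit 5537) (nat_lit 306) .nil))))) (.g (nat_lit 0) (.e (nat_lit 262952) (nat_lit 0) .nil) .nil))) 
(.lf (nat_lit 538180) (.g (nat_lit 2165) (.e (nat_lit 73737) (nat_lit 0) (.e (nat_lit 5949) (nat_lit 322) (.e (nat_lit 57447) (nat_lit 19) (.e (nat_lit 393234) (nat_lit 17) (.e (nat_lit 2398) (nat_lit 157) .nil))))) (.g (nat_lit 0) (.e (nat_lit 264853) (nat_lit 0) .nil) .nil)))) (.nd (nat_lit 9) 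
(.lf (nat_lit 537924) (.g (nat_lit 3659) (.e (nat_lit 65630) (nat_lit 14) (.e (nat_lit 401425) (nat_lit 2) (.e (nat_lit 196670) (nat_lit 14) (.e (nat_lit 73781) (nat_lit 32) (.e (nat_lit 2663) (nat_lit 167) (.e (nat_lit 196663) (nat_lit 13) .nil)))))) (.g (nat_lit 1) (.e (nat_lit 263410) (nat_lit 0) .nil) .nil))) 
(.lf (nat_lit 538436) (.g (nat_lit 2682) (.e (nat_lit 73747) (nat_lit 3) (.e (nat_lit 516119) (nat_lit 1) (.e (nat_lit 164182) (nat_lit 154) (.e (nat_lit 57378) (nat_lit 3) (.e (nat_lit 98340) (nat_lit 20) .nil))))) (.g (nat_lit 0) (.e (nat_lit 266057) (nat_lit 0) .nil) .nil))))) (.nd (nat_lit 8) (.nd (nat_lit 9) 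
(.lf (nat_lit 537796) (.g (nat_lit 2236) (.e (nat_lit 65621) (nat_lit 11) (.e (nat_lit 368676) (nat_lit 21) (.e (nat_lit 516179) (nat_lit 15) (.e (nat_lit 475198) (nat_lit 40) .nil)))) (.g (nat_lit 0) (.e (nat_lit 263122) (nat_lit 0) .nil) .nil))) 
(.lf (nat_lit 538308) (.g (nat_lit 404) (.e (nat_lit 73746) (nat_lit 3) (.e (nat_lit 516120) (nat_lit 1) (.e (nat_lit 164226) (nat_lit 181) .nil))) (.g (nat_lit 0) (.e (nat_lit 265483) (nat_lit 0) .nil) .nil)))) (.nd (nat_lit 9) 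
(.lf (nat_lit 538052) (.g (nat_lit 803) (.e (nat_lit 73472) (nat_lit 18) (.e (nat_lit 204862) (nat_lit 27) (.e (nat_lit 344132) (nat_lit 26) (.e (nat_lit 557100) (nat_lit 13) .nil)))) (.g (nat_lit 0) (.e (nat_lit 263860) (nat_lit 0) .nil) .nil))) 
(.lf (nat_lit 538564) (.g (nat_lit 1223) (.e (nat_lit 73753) (nat_lit 8) (.e (nat_lit 557098) (nat_lit 13) (.e (nat_lit 172133) (nat_lit 15) (.e (nat_lit 1800) (nat_lit 119) .nil)))) (.g (nat_lit 0) (.e (nat_lit 266427) (nat_lit 0) .nil) .nil))))))) (.nd (nat_lit 6) (.nd (nat_lit 7) (.nd (nat_lit 8) (.nd (nat_lit 9) 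
(.lf (nat_lit 537636) (.g (nat_lit 2685) (.e (nat_lit 65619) (nat_lit 10) (.e (nat_lit 344117) (nat_lit 21) (.e (nat_lit 516151) (nat_lit 9) (.e (nat_lit 426041) (nat_lit 0) .nil)))) (.g (nat_lit 0) (.e (nat_lit 262919) (nat_lit 0) .nil) .nil))) 
(.lf (nat_lit 538148) (.g (nat_lit 1006) (.e (nat_lit 73472) (nat_lit 34) (.e (nat_lit 483385) (nat_lit 23) (.e (nat_lit 336019) (nat_lit 3) (.e (nat_lit 98334) (nat_lit 18) .nil)))) (.g (nat_lit 0) (.e (nat_lit 264546) (nat_lit 0) .nil) .nil)))) (.nd (nat_lit 9) 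
(.lf (nat_lit 537892) (.g (nat_lit 3594) (.e (nat_lit 65628) (nat_lit 14) (.e (nat_lit 401428) (nat_lit 3) (.e (nat_lit 204877) (nat_lit 31) (.e (nat_lit 376835) (nat_lit 0) (.e (nat_lit 3305) (nat_lit 202) (.e (nat_lit 573482) (nat_lit 13) .nil)))))) (.g (nat_lit 1) (.e (nat_lit 263353) (nat_lit 0) .nil) .nil))) 
(.lf (nat_lit 538404) (.g (nat_lit 2170) (.e (nat_lit 73747) (nat_lit 3) (.e (nat_lit 516102) (nat_lit 0) (.e (nat_lit 6989) (nat_lit 377) (.e (nat_lit 2810) (nat_lit 180) (.e (nat_lit 303119) (nat_lit 3) (.e (nat_lit 204819) (nat_lit 17) (.e (nat_lit 7936) (nat_lit 348) .nil))))))) (.g (nat_lit 1) (.e (nat_lit 265621) (nat_lit 0) .nil) .nil))))) (.nd (nat_lit 8) (.nd (nat_lit 9) 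
(.lf (nat_lit 537764) (.g (nat_lit 441) (.e (nat_lit 65619) (nat_lit 10) (.e (nat_lit 344129) (nat_lit 26) (.e (nat_lit 557089) (nat_lit 12) .nil))) (.g (nat_lit 0) (.e (nat_lit 263067) (nat_lit 0) .nil) .nil))) 
(.lf (nat_lit 538276) (.g (nat_lit 2103) (.e (nat_lit 73746) (nat_lit 3) (.e (nat_lit 516117) (nat_lit 1) (.e (nat_lit 164181) (nat_lit 154) (.e (nat_lit 57378) (nat_lit 3) (.e (nat_lit 98340) (nat_lit 20) .nil))))) (.g (nat_lit 0) (.e (nat_lit 265229) (nat_lit 0) .nil) .nil)))) (.nd (nat_lit 9) 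
(.lf (nat_lit 538020) (.g (nat_lit 1272) (.e (nat_lit 65637) (nat_lit 15) (.e (nat_lit 3748) (nat_lit 228) (.e (nat_lit 786483) (nat_lit 30) (.e (nat_lit 360484) (nat_lit 15) .nil)))) (.g (nat_lit 0) (.e (nat_lit 263650) (nat_lit 0) .nil) .nil))) 
(.lf (nat_lit 538532) (.g (nat_lit 4665) (.e (nat_lit 73748) (nat_lit 3) (.e (nat_lit 516166) (nat_lit 12) (.e (nat_lit 450587) (nat_lit 10) (.e (nat_lit 573472) (nat_lit 12) .nil)))) (.g (nat_lit 0) (.e (nat_lit 266272) (nat_lit 0) .nil) .nil)))))) (.nd (nat_lit 7) (.nd (nat_lit 8) (.nd (nat_lit 9) 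
(.lf (nat_lit 537700) (.g (nat_lit 409) (.e (nat_lit 65619) (nat_lit 10) (.e (nat_lit 344129) (nat_lit 26) (.e (nat_lit 557065) (nat_lit 9) .nil))) (.g (nat_lit 0) (.e (nat_lit 262993) (nat_lit 0) .nil) .nil))) 
(.lf (nat_lit 538212) (.g (nat_lit 926) (.e (nat_lit 81664) (nat_lit 5) (.e (nat_lit 532583) (nat_lit 26) (.e (nat_lit 426196) (nat_lit 9) (.e (nat_lit 426558) (nat_lit 33) (.e (nat_lit 392960) (nat_lit 5) .nil))))) (.g (nat_lit 0) (.e (nat_lit 264988) (nat_lit 0) .nil) .nil)))) (.nd (nat_lit 9) 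
(.lf (nat_lit 537956) (.g (nat_lit 2909) (.e (nat_lit 65630) (nat_lit 14) (.e (nat_lit 401428) (nat_lit 3) (.e (nat_lit 204869) (nat_lit 29) (.e (nat_lit 360457) (nat_lit 0) (.e (nat_lit 3962) (nat_lit 239) .nil))))) (.g (nat_lit 0) (.e (nat_lit 263453) (nat_lit 0) .nil) .nil))) 
(.lf (nat_lit 538468) (.g (nat_lit 2623) (.e (nat_lit 73747) (nat_lit 3) (.e (nat_lit 516138) (nat_lit 7) (.e (nat_lit 409645) (nat_lit 18) (.e (nat_lit 303117) (nat_lit 2) (.e (nat_lit 196661) (nat_lit 12) .nil))))) (.g (nat_lit 0) (.e (nat_lit 266173) (nat_lit 0) .nil) .nil))))) (.nd (nat_lit 8) (.nd (nat_lit 9) 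
(.lf (nat_lit 537828) (.g (nat_lit 1041) (.e (nat_lit 65624) (nat_lit 12) (.e (nat_lit 385066) (nat_lit 26) (.e (nat_lit 532513) (nat_lit 3) (.e (nat_lit 114698) (nat_lit 11) .nil)))) (.g (nat_lit 0) (.e (nat_lit 263213) (nat_lit 0) .nil) .nil))) 
(.lf (nat_lit 538340) (.g (nat_lit 4406) (.e (nat_lit 73746) (nat_lit 3) (.e (nat_lit 516131) (nat_lit 3) (.e (nat_lit 221214) (nat_lit 23) (.e (nat_lit 204830) (nat_lit 18) (.e (nat_lit 57929) (nat_lit 282) (.e (nat_lit 163869) (nat_lit 2) (.e (nat_lit 196670) (nat_lit 14) .nil))))))) (.g (nat_lit 1) (.e (nat_lit 265532) (nat_lit 0) .nil) .nil)))) (.nd (nat_lit 9) 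
(.lf (nat_lit 538084) (.g (nat_lit 1506) (.e (nat_lit 65652) (nat_lit 27) (.e (nat_lit 426163) (nat_lit 6) (.e (nat_lit 253992) (nat_lit 11) (.e (nat_lit 16411) (nat_lit 2) .nil)))) (.g (nat_lit 0) (.e (nat_lit 264175) (nat_lit 0) .nil) .nil))) 
(.lf (nat_lit 538596) (.g (nat_lit 3067) (.e (nat_lit 73753) (nat_lit 8) (.e (nat_lit 557103) (nat_lit 14) (.e (nat_lit 180250) (nat_lit 10) (.e (nat_lit 573475) (nat_lit 12) (.e (nat_lit 57507) (nat_lit 39) (.e (nat_lit 655104) (nat_lit 0) (.e (nat_lit 2657) (nat_lit 167) (.e (nat_lit 196670) (nat_lit 14) .nil)))))))) (.g (nat_lit 1) (.e (nat_lit 266533) (nat_lit 0) .nil) .nil)))))))) 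
(.nd (nat_lit 5) (.nd (nat_lit 6) (.nd (nat_lit 7) (.nd (nat_lit 8) (.nd (nat_lit 9) 
(.lf (nat_lit 537620) (.g (nat_lit 2455) (.e (nat_lit 65619) (nat_lit 10) (.e (nat_lit 344117) (nat_lit 21) (.e (nat_lit 516150) (nat_lit 9) (.e (nat_lit 426444) (nat_lit 19) (.e (nat_lit 114432) (nat_lit 3) .nil))))) (.g (nat_lit 0) (.e (nat_lit 262903) (nat_lit 0) .nil) .nil))) 
(.lf (nat_lit 538132) (.g (nat_lit 1593) (.e (nat_lit 73472) (nat_lit 27) (.e (nat_lit 426163) (nat_lit 6) (.e (nat_lit 253991) (nat_lit 11) (.e (nat_lit 16416) (nat_lit 3) .nil)))) (.g (nat_lit 0) (.e (nat_lit 264300) (nat_lit 0) .nil) .nil)))) (.nd (nat_lit 9) 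
(.lf (nat_lit 537876) (.g (nat_lit 4189) (.e (nat_lit 65628) (nat_lit 14) (.e (nat_lit 401428) (nat_lit 3) (.e (nat_lit 204849) (nat_lit 25) (.e (nat_lit 327699) (nat_lit 8) (.e (nat_lit 303117) (nat_lit 2) (.e (nat_lit 196665) (nat_lit 13) .nil)))))) (.g (nat_lit 1) (.e (nat_lit 263335) (nat_lit 0) .nil) .nil))) 
(.lf (nat_lit 538388) (.g (nat_lit 3202) (.e (nat_lit 73746) (nat_lit 3) (.e (nat_lit 516185) (nat_lit 16) (.e (nat_lit 491560) (nat_lit 10) (.e (nat_lit 344118) (nat_lit 21) (.e (nat_lit 516106) (nat_lit 0) (.e (nat_lit 7936) (nat_lit 407) .nil)))))) (.g (nat_lit 1) (.e (nat_lit 265602) (nat_lit 0) .nil) .nil))))) (.nd (nat_lit 8) (.nd (nat_lit 9) 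
(.lf (nat_lit 537748) (.g (nat_lit 4117) (.e (nat_lit 65619) (nat_lit 10) (.e (nat_lit 344129) (nat_lit 26) (.e (nat_lit 557087) (nat_lit 11) (.e (nat_lit 24625) (nat_lit 9) (.e (nat_lit 336260) (nat_lit 15) (.e (nat_lit 3307) (nat_lit 202) (.e (nat_lit 573485) (nat_lit 13) .nil))))))) (.g (nat_lit 1) (.e (nat_lit 263051) (nat_lit 0) .nil) .nil))) 
(.lf (nat_lit 538260) (.g (nat_lit 1707) (.e (nat_lit 73746) (nat_lit 3) (.e (nat_lit 516115) (nat_lit 1) (.e (nat_lit 164179) (nat_lit 154) (.e (nat_lit 57379) (nat_lit 3) .nil)))) (.g (nat_lit 0) (.e (nat_lit 265139) (nat_lit 0) .nil) .nil)))) (.nd (nat_lit 9) 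
(.lf (nat_lit 538004) (.g (nat_lit 2123) (.e (nat_lit 65637) (nat_lit 15) (.e (nat_lit 3305) (nat_lit 202) (.e (nat_lit 573485) (nat_lit 13) (.e (nat_lit 65619) (nat_lit 10) (.e (nat_lit 344115) (nat_lit 20) (.e (nat_lit 507908) (nat_lit 0) (.e (nat_lit 5401) (nat_lit 302) .nil))))))) (.g (nat_lit 1) (.e (nat_lit 263599) (nat_lit 0) .nil) .nil))) 
(.lf (nat_lit 538516) (.g (nat_lit 2051) (.e (nat_lit 73748) (nat_lit 3) (.e (nat_lit 516131) (nat_lit 3) (.e (nat_lit 221215) (nat_lit 23) (.e (nat_lit 204831) (nat_lit 18) (.e (nat_lit 57931) (nat_lit 282) .nil))))) (.g (nat_lit 0) (.e (nat_lit 266252) (nat_lit 0) .nil) .nil)))))) (.nd (nat_lit 7) (.nd (nat_lit 8) (.nd (nat_lit 9) 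
(.lf (nat_lit 537684) (.g (nat_lit 4088) (.e (nat_lit 65619) (nat_lit 10) (.e (nat_lit 344117) (nat_lit 21) (.e (nat_lit 516179) (nat_lit 15) (.e (nat_lit 475195) (nat_lit 40) .nil)))) (.g (nat_lit 0) (.e (nat_lit 262969) (nat_lit 0) .nil) .nil))) 
(.lf (nat_lit 538196) (.g (nat_lit 2917) (.e (nat_lit 73739) (nat_lit 1) (.e (nat_lit 499848) (nat_lit 5) (.e (nat_lit 3102) (nat_lit 192) (.e (nat_lit 491560) (nat_lit 10) (.e (nat_lit 344115) (nat_lit 20) (.e (nat_lit 507908) (nat_lit 0) (.e (nat_lit 5412) (nat_lit 303) .nil))))))) (.g (nat_lit 1) (.e (nat_lit 264925) (nat_lit 0) .nil) .nil)))) (.nd (nat_lit 9) 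
(.lf (nat_lit 537940) (.g (nat_lit 3696) (.e (nat_lit 65630) (nat_lit 14) (.e (nat_lit 401428) (nat_lit 3) (.e (nat_lit 204861) (nat_lit 26) (.e (nat_lit 336194) (nat_lit 12) (.e (nat_lit 385074) (nat_lit 31) (.e (nat_lit 573480) (nat_lit 13) .nil)))))) (.g (nat_lit 1) (.e (nat_lit 263436) (nat_lit 0) .nil) .nil))) 
(.lf (nat_lit 538452) (.g (nat_lit 4893) (.e (nat_lit 73747) (nat_lit 3) (.e (nat_lit 516129) (nat_lit 3) (.e (nat_lit 221215) (nat_lit 23) (.e (nat_lit 204829) (nat_lit 18) (.e (nat_lit 57927) (nat_lit 282) (.e (nat_lit 163869) (nat_lit 2) (.e (nat_lit 196668) (nat_lit 14) .nil))))))) (.g (nat_lit 1) (.e (nat_lit 266152) (nat_lit 0) .nil) .nil))))) (.nd (nat_lit 8) (.nd (nat_lit 9) 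
(.lf (nat_lit 537812) (.g (nat_lit 3085) (.e (nat_lit 65623) (nat_lit 12) (.e (nat_lit 385068) (nat_lit 26) (.e (nat_lit 532513) (nat_lit 3) (.e (nat_lit 114698) (nat_lit 11) (.e (nat_lit 426122) (nat_lit 2) (.e (nat_lit 196665) (nat_lit 13) .nil)))))) (.g (nat_lit 1) (.e (nat_lit 263161) (nat_lit 0) .nil) .nil))) 
(.lf (nat_lit 538324) (.g (nat_lit 2982) (.e (nat_lit 73746) (nat_lit 3) (.e (nat_lit 516129) (nat_lit 3) (.e (nat_lit 221214) (nat_lit 23) (.e (nat_lit 204831) (nat_lit 18) (.e (nat_lit 57929) (nat_lit 282) (.e (nat_lit 163869) (nat_lit 2) (.e (nat_lit 196670) (nat_lit 14) .nil))))))) (.g (nat_lit 1) (.e (nat_lit 265511) (nat_lit 0) .nil) .nil)))) (.nd (nat_lit 9) 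
(.lf (nat_lit 538068) (.g (nat_lit 1394) (.e (nat_lit 65648) (nat_lit 26) (.e (nat_lit 417828) (nat_lit 18) (.e (nat_lit 303145) (nat_lit 13) (.e (nat_lit 483346) (nat_lit 17) .nil)))) (.g (nat_lit 0) (.e (nat_lit 264127) (nat_lit 0) .nil) .nil))) 
(.lf (nat_lit 538580) (.g (nat_lit 2177) (.e (nat_lit 73753) (nat_lit 8) (.e (nat_lit 557103) (nat_lit 14) (.e (nat_lit 180250) (nat_lit 10) (.e (nat_lit 573473) (nat_lit 12) (.e (nat_lit 57500) (nat_lit 37) .nil))))) (.g (nat_lit 0) (.e (nat_lit 266516) (nat_lit 0) .nil) .nil))))))) (.nd (nat_lit 6) (.nd (nat_lit 7) (.nd (nat_lit 8) (.nd (nat_lit 9) 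
(.lf (nat_lit 537652) (.g (nat_lit 3150) (.e (nat_lit 65619) (nat_lit 10) (.e (nat_lit 344117) (nat_lit 21) (.e (nat_lit 516151) (nat_lit 9) (.e (nat_lit 426394) (nat_lit 15) (.e (nat_lit 2054) (nat_lit 142) .nil))))) (.g (nat_lit 0) (.e (nat_lit 262935) (nat_lit 0) .nil) .nil))) 
(.lf (nat_lit 538164) (.g (nat_lit 423) (.e (nat_lit 73729) (nat_lit 0) (.e (nat_lit 7125) (nat_lit 382) (.e (nat_lit 1212) (nat_lit 89) .nil))) (.g (nat_lit 0) (.e (nat_lit 264695) (nat_lit 0) .nil) .nil)))) (.nd (nat_lit 9) 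
(.lf (nat_lit 537908) (.g (nat_lit 1480) (.e (nat_lit 65630) (nat_lit 14) (.e (nat_lit 401425) (nat_lit 2) (.e (nat_lit 196666) (nat_lit 13) (.e (nat_lit 65589) (nat_lit 9) .nil)))) (.g (nat_lit 0) (.e (nat_lit 263394) (nat_lit 0) .nil) .nil))) 
(.lf (nat_lit 538420) (.g (nat_lit 2251) (.e (nat_lit 73747) (nat_lit 3) (.e (nat_lit 516117) (nat_lit 1) (.e (nat_lit 164176) (nat_lit 154) (.e (nat_lit 57377) (nat_lit 3) (.e (nat_lit 98341) (nat_lit 20) .nil))))) (.g (nat_lit 0) (.e (nat_lit 265895) (nat_lit 0) .nil) .nil))))) (.nd (nat_lit 8) (.nd (nat_lit 9) 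
(.lf (nat_lit 537780) (.g (nat_lit 2901) (.e (nat_lit 65620) (nat_lit 10) (.e (nat_lit 344117) (nat_lit 21) (.e (nat_lit 516138) (nat_lit 7) (.e (nat_lit 409645) (nat_lit 18) (.e (nat_lit 303117) (nat_lit 2) .nil))))) (.g (nat_lit 0) (.e (nat_lit 263099) (nat_lit 0) .nil) .nil))) 
(.lf (nat_lit 538292) (.g (nat_lit 3423) (.e (nat_lit 73746) (nat_lit 3) (.e (nat_lit 516119) (nat_lit 1) (.e (nat_lit 164182) (nat_lit 154) (.e (nat_lit 57379) (nat_lit 3) (.e (nat_lit 98341) (nat_lit 20) (.e (nat_lit 221210) (nat_lit 22) (.e (nat_lit 196668) (nat_lit 14) .nil))))))) (.g (nat_lit 1) (.e (nat_lit 265370) (nat_lit 0) .nil) .nil)))) (.nd (nat_lit 9) 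
(.lf (nat_lit 538036) (.g (nat_lit 1617) (.e (nat_lit 73472) (nat_lit 18) (.e (nat_lit 204829) (nat_lit 18) (.e (nat_lit 57847) (nat_lit 252) (.e (nat_lit 57379) (nat_lit 3) .nil)))) (.g (nat_lit 0) (.e (nat_lit 263785) (nat_lit 0) .nil) .nil))) 
(.lf (nat_lit 538548) (.g (nat_lit 801) (.e (nat_lit 73753) (nat_lit 8) (.e (nat_lit 557090) (nat_lit 12) (.e (nat_lit 163850) (nat_lit 0) .nil))) (.g (nat_lit 0) (.e (nat_lit 266386) (nat_lit 0) .nil) .nil)))))) (.nd (nat_lit 7) (.nd (nat_lit 8) (.nd (nat_lit 9) 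
(.lf (nat_lit 537716) (.g (nat_lit 396) (.e (nat_lit 65619) (nat_lit 10) (.e (nat_lit 344129) (nat_lit 26) (.e (nat_lit 557067) (nat_lit 9) .nil))) (.g (nat_lit 0) (.e (nat_lit 263016) (nat_lit 0) .nil) .nil))) 
(.lf (nat_lit 538228) (.g (nat_lit 773) (.e (nat_lit 73750) (nat_lit 6) (.e (nat_lit 540724) (nat_lit 28) (.e (nat_lit 442396) (nat_lit 20) (.e (nat_lit 3571) (nat_lit 222) (.e (nat_lit 737283) (nat_lit 0) (.e (nat_lit 5409) (nat_lit 303) .nil)))))) (.g (nat_lit 1) (.e (nat_lit 265028) (nat_lit 0) .nil) .nil)))) (.nd (nat_lit 9) 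
(.lf (nat_lit 537972) (.g (nat_lit 4279) (.e (nat_lit 65636) (nat_lit 15) (.e (nat_lit 3302) (nat_lit 202) (.e (nat_lit 573492) (nat_lit 15) (.e (nat_lit 81956) (nat_lit 23) (.e (nat_lit 98320) (nat_lit 17) (.e (nat_lit 7589) (nat_lit 406) .nil)))))) (.g (nat_lit 1) (.e (nat_lit 263520) (nat_lit 0) .nil) .nil))) 
(.lf (nat_lit 538484) (.g (nat_lit 3642) (.e (nat_lit 73747) (nat_lit 3) (.e (nat_lit 516139) (nat_lit 7) (.e (nat_lit 409641) (nat_lit 17) (.e (nat_lit 294931) (nat_lit 3) (.e (nat_lit 98319) (nat_lit 17) (.e (nat_lit 7591) (nat_lit 407) .nil)))))) (.g (nat_lit 1) (.e (nat_lit 266191) (nat_lit 0) .nil) .nil))))) (.nd (nat_lit 8) (.nd (nat_lit 9) 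
(.lf (nat_lit 537844) (.g (nat_lit 2253) (.e (nat_lit 65626) (nat_lit 13) (.e (nat_lit 393225) (nat_lit 9) (.e (nat_lit 335988) (nat_lit 1) (.e (nat_lit 57926) (nat_lit 282) (.e (nat_lit 163871) (nat_lit 2) (.e (nat_lit 196665) (nat_lit 13) .nil)))))) (.g (nat_lit 1) (.e (nat_lit 263255) (nat_lit 0) .nil) .nil))) 
(.lf (nat_lit 538356) (.g (nat_lit 2501) (.e (nat_lit 73746) (nat_lit 3) (.e (nat_lit 516131) (nat_lit 3) (.e (nat_lit 221215) (nat_lit 23) (.e (nat_lit 204831) (nat_lit 18) (.e (nat_lit 57930) (nat_lit 282) (.e (nat_lit 163867) (nat_lit 2) (.e (nat_lit 196670) (nat_lit 14) .nil))))))) (.g (nat_lit 1) (.e (nat_lit 265550) (nat_lit 0) .nil) .nil)))) (.nd (nat_lit 9) 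
(.lf (nat_lit 538100) (.g (nat_lit 1606) (.e (nat_lit 65653) (nat_lit 27) (.e (nat_lit 426308) (nat_lit 12) (.e (nat_lit 475208) (nat_lit 41) (.e (nat_lit 712745) (nat_lit 27) (.e (nat_lit 425984) (nat_lit 0) (.e (nat_lit 7588) (nat_lit 406) .nil)))))) (.g (nat_lit 1) (.e (nat_lit 264256) (nat_lit 0) .nil) .nil))) 
(.lf (nat_lit 538612) (.g (nat_lit 799) (.e (nat_lit 73753) (nat_lit 8) (.e (nat_lit 557104) (nat_lit 14) (.e (nat_lit 180252) (nat_lit 10) .nil))) (.g (nat_lit 0) (.e (nat_lit 266554) (nat_lit 0) .nil) .nil))))))))) (.nd (nat_lit 4) (.nd (nat_lit 5) (.nd (nat_lit 6) (.nd (nat_lit 7) (.nd (nat_lit 8) (.nd (nat_lit 9) 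
(.lf (nat_lit 537612) (.g (nat_lit 2278) (.e (nat_lit 65619) (nat_lit 10) (.e (nat_lit 344117) (nat_lit 21) (.e (nat_lit 516145) (nat_lit 9) (.e (nat_lit 426402) (nat_lit 15) .nil)))) (.g (nat_lit 0) (.e (nat_lit 262895) (nat_lit 0) .nil) .nil))) 
(.lf (nat_lit 538124) (.g (nat_lit 3204) (.e (nat_lit 65653) (nat_lit 27) (.e (nat_lit 426343) (nat_lit 14) (.e (nat_lit 491556) (nat_lit 9) (.e (nat_lit 336390) (nat_lit 27) (.e (nat_lit 426012) (nat_lit 0) (.e (nat_lit 7589) (nat_lit 406) .nil)))))) (.g (nat_lit 1) (.e (nat_lit 264291) (nat_lit 0) .nil) .nil)))) (.nd (nat_lit 9) 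
(.lf (nat_lit 537868) (.g (nat_lit 4562) (.e (nat_lit 65628) (nat_lit 14) (.e (nat_lit 401425) (nat_lit 2) (.e (nat_lit 196666) (nat_lit 13) (.e (nat_lit 65630) (nat_lit 14) (.e (nat_lit 401425) (nat_lit 2) (.e (nat_lit 196665) (nat_lit 13) .nil)))))) (.g (nat_lit 1) (.e (nat_lit 263323) (nat_lit 0) .nil) .nil))) 
(.lf (nat_lit 538380) (.g (nat_lit 3141) (.e (nat_lit 73746) (nat_lit 3) (.e (nat_lit 516184) (nat_lit 16) (.e (nat_lit 491546) (nat_lit 9) (.e (nat_lit 336028) (nat_lit 3) (.e (nat_lit 98320) (nat_lit 17) (.e (nat_lit 7593) (nat_lit 407) .nil)))))) (.g (nat_lit 1) (.e (nat_lit 265592) (nat_lit 0) .nil) .nil))))) (.nd (nat_lit 8) (.nd (nat_lit 9) 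
(.lf (nat_lit 537740) (.g (nat_lit 2337) (.e (nat_lit 65619) (nat_lit 10) (.e (nat_lit 344129) (nat_lit 26) (.e (nat_lit 557087) (nat_lit 11) (.e (nat_lit 24623) (nat_lit 9) (.e (nat_lit 336303) (nat_lit 15) .nil))))) (.g (nat_lit 0) (.e (nat_lit 263043) (nat_lit 0) .nil) .nil))) 
(.lf (nat_lit 538252) (.g (nat_lit 902) (.e (nat_lit 73746) (nat_lit 3) (.e (nat_lit 516115) (nat_lit 1) (.e (nat_lit 164157) (nat_lit 152) .nil))) (.g (nat_lit 0) (.e (nat_lit 265065) (nat_lit 0) .nil) .nil)))) (.nd (nat_lit 9) 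
(.lf (nat_lit 537996) (.g (nat_lit 2467) (.e (nat_lit 65637) (nat_lit 15) (.e (nat_lit 3305) (nat_lit 202) (.e (nat_lit 573482) (nat_lit 13) (.e (nat_lit 65619) (nat_lit 10) (.e (nat_lit 344115) (nat_lit 20) (.e (nat_lit 507907) (nat_lit 0) (.e (nat_lit 5406) (nat_lit 302) .nil))))))) (.g (nat_lit 1) (.e (nat_lit 263581) (nat_lit 0) .nil) .nil))) 
(.lf (nat_lit 538508) (.g (nat_lit 2101) (.e (nat_lit 73748) (nat_lit 3) (.e (nat_lit 516131) (nat_lit 3) (.e (nat_lit 221214) (nat_lit 23) (.e (nat_lit 204829) (nat_lit 18) (.e (nat_lit 57931) (nat_lit 282) .nil))))) (.g (nat_lit 0) (.e (nat_lit 266239) (nat_lit 0) .nil) .nil)))))) (.nd (nat_lit 7) (.nd (nat_lit 8) (.nd (nat_lit 9) 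
(.lf (nat_lit 537676) (.g (nat_lit 3772) (.e (nat_lit 65619) (nat_lit 10) (.e (nat_lit 344117) (nat_lit 21) (.e (nat_lit 516160) (nat_lit 10) (.e (nat_lit 434272) (nat_lit 38) (.e (nat_lit 655375) (nat_lit 3) (.e (nat_lit 163973) (nat_lit 30) (.e (nat_lit 573479) (nat_lit 13) .nil))))))) (.g (nat_lit 1) (.e (nat_lit 262960) (nat_lit 0) .nil) .nil))) 
(.lf (nat_lit 538188) (.g (nat_lit 2197) (.e (nat_lit 73739) (nat_lit 1) (.e (nat_lit 499842) (nat_lit 5) (.e (nat_lit 3102) (nat_lit 192) (.e (nat_lit 491558) (nat_lit 10) (.e (nat_lit 344115) (nat_lit 20) (.e (nat_lit 507906) (nat_lit 0) (.e (nat_lit 5412) (nat_lit 303) .nil))))))) (.g (nat_lit 1) (.e (nat_lit 264917) (nat_lit 0) .nil) .nil)))) (.nd (nat_lit 9) 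
(.lf (nat_lit 537932) (.g (nat_lit 1864) (.e (nat_lit 65630) (nat_lit 14) (.e (nat_lit 401427) (nat_lit 3) (.e (nat_lit 204854) (nat_lit 26) (.e (nat_lit 336208) (nat_lit 12) (.e (nat_lit 385073) (nat_lit 31) .nil))))) (.g (nat_lit 0) (.e (nat_lit 263419) (nat_lit 0) .nil) .nil))) 
(.lf (nat_lit 538444) (.g (nat_lit 2704) (.e (nat_lit 73747) (nat_lit 3) (.e (nat_lit 516120) (nat_lit 1) (.e (nat_lit 164182) (nat_lit 154) (.e (nat_lit 57378) (nat_lit 3) (.e (nat_lit 98340) (nat_lit 20) .nil))))) (.g (nat_lit 0) (.e (nat_lit 266093) (nat_lit 0) .nil) .nil))))) (.nd (nat_lit 8) (.nd (nat_lit 9) 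
(.lf (nat_lit 537804) (.g (nat_lit 1870) (.e (nat_lit 65622) (nat_lit 12) (.e (nat_lit 385074) (nat_lit 31) (.e (nat_lit 573482) (nat_lit 13) (.e (nat_lit 65622) (nat_lit 12) .nil)))) (.g (nat_lit 0) (.e (nat_lit 263143) (nat_lit 0) .nil) .nil))) 
(.lf (nat_lit 538316) (.g (nat_lit 2935) (.e (nat_lit 73746) (nat_lit 3) (.e (nat_lit 516129) (nat_lit 3) (.e (nat_lit 221214) (nat_lit 23) (.e (nat_lit 204829) (nat_lit 18) (.e (nat_lit 57930) (nat_lit 282) (.e (nat_lit 163867) (nat_lit 2) (.e (nat_lit 196668) (nat_lit 14) .nil))))))) (.g (nat_lit 1) (.e (nat_lit 265503) (nat_lit 0) .nil) .nil)))) (.nd (nat_lit 9) 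
(.lf (nat_lit 538060) (.g (nat_lit 1995) (.e (nat_lit 73472) (nat_lit 18) (.e (nat_lit 204882) (nat_lit 32) (.e (nat_lit 385066) (nat_lit 26) (.e (nat_lit 532529) (nat_lit 9) (.e (nat_lit 336316) (nat_lit 17) .nil))))) (.g (nat_lit 0) (.e (nat_lit 263910) (nat_lit 0) .nil) .nil))) 
(.lf (nat_lit 538572) (.g (nat_lit 2436) (.e (nat_lit 73753) (nat_lit 8) (.e (nat_lit 557103) (nat_lit 14) (.e (nat_lit 180243) (nat_lit 5) (.e (nat_lit 532501) (nat_lit 1) (.e (nat_lit 57703) (nat_lit 164) .nil))))) (.g (nat_lit 0) (.e (nat_lit 266459) (nat_lit 0) .nil) .nil))))))) (.nd (nat_lit 6) (.nd (nat_lit 7) (.nd (nat_lit 8) (.nd (nat_lit 9) 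
(.lf (nat_lit 537644) (.g (nat_lit 3127) (.e (nat_lit 65619) (nat_lit 10) (.e (nat_lit 344117) (nat_lit 21) (.e (nat_lit 516151) (nat_lit 9) (.e (nat_lit 426047) (nat_lit 0) .nil)))) (.g (nat_lit 0) (.e (nat_lit 262927) (nat_lit 0) .nil) .nil))) 
(.lf (nat_lit 538156) (.g (nat_lit 661) (.e (nat_lit 73472) (nat_lit 34) (.e (nat_lit 483411) (nat_lit 27) (.e (nat_lit 401426) (nat_lit 3) .nil))) (.g (nat_lit 0) (.e (nat_lit 264648) (nat_lit 0) .nil) .nil)))) (.nd (nat_lit 9) 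
(.lf (nat_lit 537900) (.g (nat_lit 2781) (.e (nat_lit 65628) (nat_lit 14) (.e (nat_lit 401438) (nat_lit 9) (.e (nat_lit 426542) (nat_lit 29) (.e (nat_lit 352283) (nat_lit 20) (.e (nat_lit 1994) (nat_lit 137) (.e (nat_lit 663567) (nat_lit 4) .nil)))))) (.g (nat_lit 1) (.e (nat_lit 263377) (nat_lit 0) .nil) .nil))) 
(.lf (nat_lit 538412) (.g (nat_lit 3416) (.e (nat_lit 73747) (nat_lit 3) (.e (nat_lit 516115) (nat_lit 1) (.e (nat_lit 164179) (nat_lit 154) (.e (nat_lit 57379) (nat_lit 3) (.e (nat_lit 98340) (nat_lit 20) (.e (nat_lit 221210) (nat_lit 22) (.e (nat_lit 196668) (nat_lit 14) .nil))))))) (.g (nat_lit 1) (.e (nat_lit 265757) (nat_lit 0) .nil) .nil))))) (.nd (nat_lit 8) (.nd (nat_lit 9) 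
(.lf (nat_lit 537772) (.g (nat_lit 3093) (.e (nat_lit 65619) (nat_lit 10) (.e (nat_lit 344129) (nat_lit 26) (.e (nat_lit 557090) (nat_lit 12) (.e (nat_lit 164017) (nat_lit 44) .nil)))) (.g (nat_lit 0) (.e (nat_lit 263076) (nat_lit 0) .nil) .nil))) 
(.lf (nat_lit 538284) (.g (nat_lit 3763) (.e (nat_lit 73746) (nat_lit 3) (.e (nat_lit 516119) (nat_lit 1) (.e (nat_lit 164178) (nat_lit 154) (.e (nat_lit 57379) (nat_lit 3) (.e (nat_lit 98342) (nat_lit 20) (.e (nat_lit 221212) (nat_lit 22) (.e (nat_lit 196670) (nat_lit 14) .nil))))))) (.g (nat_lit 1) (.e (nat_lit 265314) (nat_lit 0) .nil) .nil)))) (.nd (nat_lit 9) 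
(.lf (nat_lit 538028) (.g (nat_lit 3125) (.e (nat_lit 65642) (nat_lit 15) (.e (nat_lit 3305) (nat_lit 202) (.e (nat_lit 573484) (nat_lit 13) (.e (nat_lit 65610) (nat_lit 10) (.e (nat_lit 344117) (nat_lit 21) (.e (nat_lit 516099) (nat_lit 0) (.e (nat_lit 7936) (nat_lit 406) .nil))))))) (.g (nat_lit 1) (.e (nat_lit 263724) (nat_lit 0) .nil) .nil))) 
(.lf (nat_lit 538540) (.g (nat_lit 2311) (.e (nat_lit 73753) (nat_lit 8) (.e (nat_lit 557086) (nat_lit 11) (.e (nat_lit 24627) (nat_lit 9) (.e (nat_lit 336019) (nat_lit 3) (.e (nat_lit 98319) (nat_lit 17) (.e (nat_lit 7593) (nat_lit 407) .nil)))))) (.g (nat_lit 1) (.e (nat_lit 266365) (nat_lit 0) .nil) .nil)))))) (.nd (nat_lit 7) (.nd (nat_lit 8) (.nd (nat_lit 9) 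
(.lf (nat_lit 537708) (.g (nat_lit 1437) (.e (nat_lit 65619) (nat_lit 10) (.e (nat_lit 344129) (nat_lit 26) (.e (nat_lit 557066) (nat_lit 9) (.e (nat_lit 307) (nat_lit 22) .nil)))) (.g (nat_lit 0) (.e (nat_lit 263004) (nat_lit 0) .nil) .nil))) 
(.lf (nat_lit 538220) (.g (nat_lit 1364) (.e (nat_lit 81664) (nat_lit 5) (.e (nat_lit 532583) (nat_lit 26) (.e (nat_lit 426200) (nat_lit 9) (.e (nat_lit 426560) (nat_lit 33) .nil)))) (.g (nat_lit 0) (.e (nat_lit 264999) (nat_lit 0) .nil) .nil)))) (.nd (nat_lit 9) 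
(.lf (nat_lit 537964) (.g (nat_lit 571) (.e (nat_lit 65630) (nat_lit 14) (.e (nat_lit 401454) (nat_lit 12) (.e (nat_lit 475198) (nat_lit 40) .nil))) (.g (nat_lit 0) (.e (nat_lit 263483) (nat_lit 0) .nil) .nil))) 
(.lf (nat_lit 538476) (.g (nat_lit 2787) (.e (nat_lit 73747) (nat_lit 3) (.e (nat_lit 516139) (nat_lit 7) (.e (nat_lit 409644) (nat_lit 18) (.e (nat_lit 303119) (nat_lit 3) (.e (nat_lit 204821) (nat_lit 17) (.e (nat_lit 7936) (nat_lit 348) .nil)))))) (.g (nat_lit 1) (.e (nat_lit 266183) (nat_lit 0) .nil) .nil))))) (.nd (nat_lit 8) (.nd (nat_lit 9) 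
(.lf (nat_lit 537836) (.g (nat_lit 2487) (.e (nat_lit 65624) (nat_lit 12) (.e (nat_lit 385074) (nat_lit 31) (.e (nat_lit 573493) (nat_lit 15) (.e (nat_lit 81924) (nat_lit 0) .nil)))) (.g (nat_lit 0) (.e (nat_lit 263230) (nat_lit 0) .nil) .nil))) 
(.lf (nat_lit 538348) (.g (nat_lit 2805) (.e (nat_lit 73746) (nat_lit 3) (.e (nat_lit 516131) (nat_lit 3) (.e (nat_lit 221215) (nat_lit 23) (.e (nat_lit 204829) (nat_lit 18) (.e (nat_lit 57926) (nat_lit 282) (.e (nat_lit 163871) (nat_lit 2) (.e (nat_lit 196668) (nat_lit 14) .nil))))))) (.g (nat_lit 1) (.e (nat_lit 265542) (nat_lit 0) .nil) .nil)))) (.nd (nat_lit 9) 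
(.lf (nat_lit 538092) (.g (nat_lit 2667) (.e (nat_lit 65652) (nat_lit 27) (.e (nat_lit 426347) (nat_lit 14) (.e (nat_lit 491571) (nat_lit 13) (.e (nat_lit 393235) (nat_lit 17) (.e (nat_lit 7936) (nat_lit 406) .nil))))) (.g (nat_lit 1) (.e (nat_lit 264189) (nat_lit 0) .nil) .nil))) 
(.lf (nat_lit 538604) (.g (nat_lit 2633) (.e (nat_lit 73753) (nat_lit 8) (.e (nat_lit 557104) (nat_lit 14) (.e (nat_lit 180244) (nat_lit 5) (.e (nat_lit 532481) (nat_lit 0) (.e (nat_lit 2271) (nat_lit 149) (.e (nat_lit 761898) (nat_lit 15) (.e (nat_lit 163978) (nat_lit 30) (.e (nat_lit 573487) (nat_lit 14) .nil)))))))) (.g (nat_lit 1) (.e (nat_lit 266543) (nat_lit 0) .nil) .nil)))))))) 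
(.nd (nat_lit 5) (.nd (nat_lit 6) (.nd (nat_lit 7) (.nd (nat_lit 8) (.nd (nat_lit 9) 
(.lf (nat_lit 537628) (.g (nat_lit 4088) (.e (nat_lit 65619) (nat_lit 10) (.e (nat_lit 344117) (nat_lit 21) (.e (nat_lit 516151) (nat_lit 9) (.e (nat_lit 426023) (nat_lit 0) (.e (nat_lit 3402) (nat_lit 211) (.e (nat_lit 647180) (nat_lit 3) (.e (nat_lit 163979) (nat_lit 30) (.e (nat_lit 573482) (nat_lit 13) .nil)))))))) (.g (nat_lit 1) (.e (nat_lit 262911) (nat_lit 0) .nil) .nil))) 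
(.lf (nat_lit 538140) (.g (nat_lit 1552) (.e (nat_lit 73472) (nat_lit 29) (.e (nat_lit 442428) (nat_lit 24) (.e (nat_lit 229678) (nat_lit 244) (.e (nat_lit 163896) (nat_lit 10) (.e (nat_lit 417536) (nat_lit 0) .nil))))) (.g (nat_lit 0) (.e (nat_lit 264431) (nat_lit 0) .nil) .nil)))) (.nd (nat_lit 9) 
(.lf (nat_lit 537884) (.g (nat_lit 2305) (.e (nat_lit 65628) (nat_lit 14) (.e (nat_lit 401428) (nat_lit 3) (.e (nat_lit 204863) (nat_lit 27) (.e (nat_lit 344071) (nat_lit 8) .nil)))) (.g (nat_lit 0) (.e (nat_lit 263345) (nat_lit 0) .nil) .nil))) 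
(.lf (nat_lit 538396) (.g (nat_lit 2407) (.e (nat_lit 73747) (nat_lit 3) (.e (nat_lit 516098) (nat_lit 0) (.e (nat_lit 7591) (nat_lit 407) (.e (nat_lit 73740) (nat_lit 1) (.e (nat_lit 499910) (nat_lit 8) (.e (nat_lit 171776) (nat_lit 192) .nil)))))) (.g (nat_lit 1) (.e (nat_lit 265613) (nat_lit 0) .nil) .nil))))) (.nd (nat_lit 8) (.nd (nat_lit 9) 
(.lf (nat_lit 537756) (.g (nat_lit 2900) (.e (nat_lit 65619) (nat_lit 10) (.e (nat_lit 344129) (nat_lit 26) (.e (nat_lit 557087) (nat_lit 11) (.e (nat_lit 24638) (nat_lit 9) (.e (nat_lit 343808) (nat_lit 15) (.e (nat_lit 3309) (nat_lit 202) (.e (nat_lit 573485) (nat_lit 13) .nil))))))) (.g (nat_lit 1) (.e (nat_lit 263059) (nat_lit 0) .nil) .nil))) 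
(.lf (nat_lit 538268) (.g (nat_lit 1569) (.e (nat_lit 73746) (nat_lit 3) (.e (nat_lit 516116) (nat_lit 1) (.e (nat_lit 164182) (nat_lit 154) (.e (nat_lit 57379) (nat_lit 3) .nil)))) (.g (nat_lit 0) (.e (nat_lit 265212) (nat_lit 0) .nil) .nil)))) (.nd (nat_lit 9) 
(.lf (nat_lit 538012) (.g (nat_lit 3933) (.e (nat_lit 65637) (nat_lit 15) (.e (nat_lit 3632) (nat_lit 227) (.e (nat_lit 778323) (nat_lit 5) (.e (nat_lit 73781) (nat_lit 32) (.e (nat_lit 3067) (nat_lit 190) (.e (nat_lit 483072) (nat_lit 12) .nil)))))) (.g (nat_lit 1) (.e (nat_lit 263622) (nat_lit 0) .nil) .nil))) 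
(.lf (nat_lit 538524) (.g (nat_lit 2434) (.e (nat_lit 73748) (nat_lit 3) (.e (nat_lit 516139) (nat_lit 7) (.e (nat_lit 409640) (nat_lit 17) (.e (nat_lit 294928) (nat_lit 2) (.e (nat_lit 90133) (nat_lit 9) (.e (nat_lit 2400) (nat_lit 157) (.e (nat_lit 7590) (nat_lit 407) .nil))))))) (.g (nat_lit 1) (.e (nat_lit 266263) (nat_lit 0) .nil) .nil)))))) (.nd (nat_lit 7) (.nd (nat_lit 8) (.nd (nat_lit 9) 
(.lf (nat_lit 537692) (.g (nat_lit 1981) (.e (nat_lit 65619) (nat_lit 10) (.e (nat_lit 344126) (nat_lit 25) (.e (nat_lit 548889) (nat_lit 9) (.e (nat_lit 65589) (nat_lit 9) .nil)))) (.g (nat_lit 0) (.e (nat_lit 262980) (nat_lit 0) .nil) .nil))) 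
(.lf (nat_lit 538204) (.g (nat_lit 467) (.e (nat_lit 81664) (nat_lit 5) (.e (nat_lit 532583) (nat_lit 26) (.e (nat_lit 426186) (nat_lit 9) .nil))) (.g (nat_lit 0) (.e (nat_lit 264980) (nat_lit 0) .nil) .nil)))) (.nd (nat_lit 9) 
(.lf (nat_lit 537948) (.g (nat_lit 1907) (.e (nat_lit 65630) (nat_lit 14) (.e (nat_lit 401428) (nat_lit 3) (.e (nat_lit 204863) (nat_lit 27) (.e (nat_lit 344148) (nat_lit 33) .nil)))) (.g (nat_lit 0) (.e (nat_lit 263445) (nat_lit 0) .nil) .nil))) 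
(.lf (nat_lit 538460) (.g (nat_lit 3475) (.e (nat_lit 73747) (nat_lit 3) (.e (nat_lit 516131) (nat_lit 3) (.e (nat_lit 221215) (nat_lit 23) (.e (nat_lit 204828) (nat_lit 18) (.e (nat_lit 57926) (nat_lit 282) (.e (nat_lit 163869) (nat_lit 2) (.e (nat_lit 196668) (nat_lit 14) .nil))))))) (.g (nat_lit 1) (.e (nat_lit 266165) (nat_lit 0) .nil) .nil))))) (.nd (nat_lit 8) (.nd (nat_lit 9) 
(.lf (nat_lit 537820) (.g (nat_lit 3805) (.e (nat_lit 65623) (nat_lit 12) (.e (nat_lit 385074) (nat_lit 31) (.e (nat_lit 573485) (nat_lit 13) (.e (nat_lit 65628) (nat_lit 14) (.e (nat_lit 401425) (nat_lit 2) (.e (nat_lit 196665) (nat_lit 13) .nil)))))) (.g (nat_lit 1) (.e (nat_lit 263188) (nat_lit 0) .nil) .nil))) 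
(.lf (nat_lit 538332) (.g (nat_lit 1427) (.e (nat_lit 73746) (nat_lit 3) (.e (nat_lit 516131) (nat_lit 3) (.e (nat_lit 221212) (nat_lit 22) (.e (nat_lit 196661) (nat_lit 12) .nil)))) (.g (nat_lit 0) (.e (nat_lit 265523) (nat_lit 0) .nil) .nil)))) (.nd (nat_lit 9) 
(.lf (nat_lit 538076) (.g (nat_lit 2581) (.e (nat_lit 65651) (nat_lit 27) (.e (nat_lit 426011) (nat_lit 0) (.e (nat_lit 7581) (nat_lit 405) (.e (nat_lit 57476) (nat_lit 28) (.e (nat_lit 557067) (nat_lit 9) .nil))))) (.g (nat_lit 0) (.e (nat_lit 264160) (nat_lit 0) .nil) .nil))) 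
(.lf (nat_lit 538588) (.g (nat_lit 2707) (.e (nat_lit 73753) (nat_lit 8) (.e (nat_lit 557103) (nat_lit 14) (.e (nat_lit 180250) (nat_lit 10) (.e (nat_lit 573474) (nat_lit 12) (.e (nat_lit 57508) (nat_lit 39) (.e (nat_lit 655104) (nat_lit 0) (.e (nat_lit 2667) (nat_lit 167) (.e (nat_lit 196670) (nat_lit 14) .nil)))))))) (.g (nat_lit 1) (.e (nat_lit 266524) (nat_lit 0) .nil) .nil))))))) 
(.nd (nat_lit 6) (.nd (nat_lit 7) (.nd (nat_lit 8) (.nd (nat_lit 9) 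
(.lf (nat_lit 537660) (.g (nat_lit 4311) (.e (nat_lit 65619) (nat_lit 10) (.e (nat_lit 344117) (nat_lit 21) (.e (nat_lit 516159) (nat_lit 10) (.e (nat_lit 434272) (nat_lit 38) (.e (nat_lit 655373) (nat_lit 3) (.e (nat_lit 163979) (nat_lit 30) (.e (nat_lit 573482) (nat_lit 13) .nil))))))) (.g (nat_lit 1) (.e (nat_lit 262943) (nat_lit 0) .nil) .nil))) 
(.lf (nat_lit 538172) (.g (nat_lit 1725) (.e (nat_lit 73731) (nat_lit 0) (.e (nat_lit 7265) (nat_lit 384) (.e (nat_lit 57406) (nat_lit 12) (.e (nat_lit 336115) (nat_lit 9) .nil)))) (.g (nat_lit 0) (.e (nat_lit 264753) (nat_lit 0) .nil) .nil)))) (.nd (nat_lit 9) 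
(.lf (nat_lit 537916) (.g (nat_lit 2519) (.e (nat_lit 65630) (nat_lit 14) (.e (nat_lit 401425) (nat_lit 2) (.e (nat_lit 196666) (nat_lit 13) (.e (nat_lit 65629) (nat_lit 14) (.e (nat_lit 401412) (nat_lit 0) .nil))))) (.g (nat_lit 0) (.e (nat_lit 263402) (nat_lit 0) .nil) .nil))) 
(.lf (nat_lit 538428) (.g (nat_lit 2503) (.e (nat_lit 73747) (nat_lit 3) (.e (nat_lit 516118) (nat_lit 1) (.e (nat_lit 164179) (nat_lit 154) (.e (nat_lit 57378) (nat_lit 3) (.e (nat_lit 98340) (nat_lit 20) .nil))))) (.g (nat_lit 0) (.e (nat_lit 265977) (nat_lit 0) .nil) .nil))))) (.nd (nat_lit 8) (.nd (nat_lit 9) 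
(.lf (nat_lit 537788) (.g (nat_lit 905) (.e (nat_lit 65620) (nat_lit 10) (.e (nat_lit 344117) (nat_lit 21) (.e (nat_lit 516160) (nat_lit 10) .nil))) (.g (nat_lit 0) (.e (nat_lit 263107) (nat_lit 0) .nil) .nil))) 
(.lf (nat_lit 538300) (.g (nat_lit 3113) (.e (nat_lit 73746) (nat_lit 3) (.e (nat_lit 516120) (nat_lit 1) (.e (nat_lit 164182) (nat_lit 154) (.e (nat_lit 57378) (nat_lit 3) (.e (nat_lit 98340) (nat_lit 20) (.e (nat_lit 221210) (nat_lit 22) (.e (nat_lit 196668) (nat_lit 14) .nil))))))) (.g (nat_lit 1) (.e (nat_lit 265403) (nat_lit 0) .nil) .nil)))) (.nd (nat_lit 9) 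
(.lf (nat_lit 538044) (.g (nat_lit 1879) (.e (nat_lit 73472) (nat_lit 18) (.e (nat_lit 204831) (nat_lit 18) (.e (nat_lit 57849) (nat_lit 252) (.e (nat_lit 57379) (nat_lit 3) (.e (nat_lit 98342) (nat_lit 20) .nil))))) (.g (nat_lit 0) (.e (nat_lit 263793) (nat_lit 0) .nil) .nil))) 
(.lf (nat_lit 538556) (.g (nat_lit 1767) (.e (nat_lit 73753) (nat_lit 8) (.e (nat_lit 557097) (nat_lit 13) (.e (nat_lit 172065) (nat_lit 3) (.e (nat_lit 204817) (nat_lit 17) (.e (nat_lit 7936) (nat_lit 149) .nil))))) (.g (nat_lit 0) (.e (nat_lit 266408) (nat_lit 0) .nil) .nil)))))) (.nd (nat_lit 7) (.nd (nat_lit 8) (.nd (nat_lit 9) 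
(.lf (nat_lit 537724) (.g (nat_lit 314) (.e (nat_lit 65619) (nat_lit 10) (.e (nat_lit 344129) (nat_lit 26) (.e (nat_lit 557087) (nat_lit 11) .nil))) (.g (nat_lit 0) (.e (nat_lit 263026) (nat_lit 0) .nil) .nil))) 
(.lf (nat_lit 538236) (.g (nat_lit 1647) (.e (nat_lit 73745) (nat_lit 3) (.e (nat_lit 516119) (nat_lit 1) (.e (nat_lit 164179) (nat_lit 154) (.e (nat_lit 57379) (nat_lit 3) .nil)))) (.g (nat_lit 0) (.e (nat_lit 265040) (nat_lit 0) .nil) .nil)))) (.nd (nat_lit 9) 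
(.lf (nat_lit 537980) (.g (nat_lit 1508) (.e (nat_lit 65637) (nat_lit 15) (.e (nat_lit 3253) (nat_lit 197) (.e (nat_lit 532503) (nat_lit 1) (.e (nat_lit 57872) (nat_lit 264) .nil)))) (.g (nat_lit 0) (.e (nat_lit 263529) (nat_lit 0) .nil) .nil))) 
(.lf (nat_lit 538492) (.g (nat_lit 1657) (.e (nat_lit 73747) (nat_lit 3) (.e (nat_lit 516195) (nat_lit 26) (.e (nat_lit 336027) (nat_lit 3) (.e (nat_lit 98323) (nat_lit 17) .nil)))) (.g (nat_lit 0) (.e (nat_lit 266214) (nat_lit 0) .nil) .nil))))) (.nd (nat_lit 8) (.nd (nat_lit 9) 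
(.lf (nat_lit 537852) (.g (nat_lit 2487) (.e (nat_lit 65627) (nat_lit 13) (.e (nat_lit 393282) (nat_lit 24) (.e (nat_lit 434275) (nat_lit 39) (.e (nat_lit 663580) (nat_lit 9) (.e (nat_lit 2416) (nat_lit 157) (.e (nat_lit 3390) (nat_lit 210) (.e (nat_lit 639020) (nat_lit 16) .nil))))))) (.g (nat_lit 1) (.e (nat_lit 263303) (nat_lit 0) .nil) .nil))) 
(.lf (nat_lit 538364) (.g (nat_lit 3037) (.e (nat_lit 73746) (nat_lit 3) (.e (nat_lit 516139) (nat_lit 7) (.e (nat_lit 409648) (nat_lit 18) (.e (nat_lit 303117) (nat_lit 2) (.e (nat_lit 196661) (nat_lit 12) .nil))))) (.g (nat_lit 0) (.e (nat_lit 265564) (nat_lit 0) .nil) .nil)))) (.nd (nat_lit 9) 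
(.lf (nat_lit 538108) (.g (nat_lit 291) (.e (nat_lit 65653) (nat_lit 27) (.e (nat_lit 426341) (nat_lit 14) (.e (nat_lit 491571) (nat_lit 13) .nil))) (.g (nat_lit 0) (.e (nat_lit 264275) (nat_lit 0) .nil) .nil))) 
(.lf (nat_lit 538620) (.g (nat_lit 2092) (.e (nat_lit 73753) (nat_lit 8) (.e (nat_lit 557104) (nat_lit 14) (.e (nat_lit 180252) (nat_lit 10) (.e (nat_lit 573475) (nat_lit 12) .nil)))) (.g (nat_lit 0) (.e (nat_lit 266565) (nat_lit 0) .nil) .nil))))))))))) (.nd (nat_lit 2) (.nd (nat_lit 3) (.nd (nat_lit 4) (.nd (nat_lit 5) (.nd (nat_lit 6) (.nd (nat_lit 7) (.nd (nat_lit 8) (.nd (nat_lit 9) 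
(.lf (nat_lit 537602) (.g (nat_lit 2668) (.e (nat_lit 65619) (nat_lit 10) (.e (nat_lit 344117) (nat_lit 21) (.e (nat_lit 516145) (nat_lit 9) (.e (nat_lit 426095) (nat_lit 0) .nil)))) (.g (nat_lit 0) (.e (nat_lit 262885) (nat_lit 0) .nil) .nil))) 
(.lf (nat_lit 538114) (.g (nat_lit 2599) (.e (nat_lit 65653) (nat_lit 27) (.e (nat_lit 426343) (nat_lit 14) (.e (nat_lit 491546) (nat_lit 9) (.e (nat_lit 336412) (nat_lit 27) (.e (nat_lit 426011) (nat_lit 0) (.e (nat_lit 7589) (nat_lit 406) .nil)))))) (.g (nat_lit 1) (.e (nat_lit 264281) (nat_lit 0) .nil) .nil)))) (.nd (nat_lit 9) 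
(.lf (nat_lit 537858) (.g (nat_lit 1231) (.e (nat_lit 65628) (nat_lit 14) (.e (nat_lit 401425) (nat_lit 2) (.e (nat_lit 196630) (nat_lit 9) (.e (nat_lit 1573) (nat_lit 110) .nil)))) (.g (nat_lit 0) (.e (nat_lit 263312) (nat_lit 0) .nil) .nil))) 
(.lf (nat_lit 538370) (.g (nat_lit 861) (.e (nat_lit 73746) (nat_lit 3) (.e (nat_lit 516139) (nat_lit 7) (.e (nat_lit 409642) (nat_lit 17) .nil))) (.g (nat_lit 0) (.e (nat_lit 265576) (nat_lit 0) .nil) .nil))))) (.nd (nat_lit 8) (.nd (nat_lit 9) 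
(.lf (nat_lit 537730) (.g (nat_lit 1591) (.e (nat_lit 65619) (nat_lit 10) (.e (nat_lit 344129) (nat_lit 26) (.e (nat_lit 557087) (nat_lit 11) (.e (nat_lit 24588) (nat_lit 0) .nil)))) (.g (nat_lit 0) (.e (nat_lit 263033) (nat_lit 0) .nil) .nil))) 
(.lf (nat_lit 538242) (.g (nat_lit 2729) (.e (nat_lit 73746) (nat_lit 3) (.e (nat_lit 516097) (nat_lit 0) (.e (nat_lit 7593) (nat_lit 407) (.e (nat_lit 73746) (nat_lit 3) (.e (nat_lit 516106) (nat_lit 0) (.e (nat_lit 7936) (nat_lit 407) .nil)))))) (.g (nat_lit 1) (.e (nat_lit 265046) (nat_lit 0) .nil) .nil)))) (.nd (nat_lit 9) 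
(.lf (nat_lit 537986) (.g (nat_lit 2418) (.e (nat_lit 65637) (nat_lit 15) (.e (nat_lit 3253) (nat_lit 197) (.e (nat_lit 532504) (nat_lit 1) (.e (nat_lit 57852) (nat_lit 252) (.e (nat_lit 57376) (nat_lit 3) (.e (nat_lit 98342) (nat_lit 20) (.e (nat_lit 221212) (nat_lit 22) (.e (nat_lit 196664) (nat_lit 13) .nil)))))))) (.g (nat_lit 1) (.e (nat_lit 263536) (nat_lit 0) .nil) .nil))) 
(.lf (nat_lit 538498) (.g (nat_lit 2012) (.e (nat_lit 73748) (nat_lit 3) (.e (nat_lit 516115) (nat_lit 1) (.e (nat_lit 164179) (nat_lit 154) (.e (nat_lit 57378) (nat_lit 3) .nil)))) (.g (nat_lit 0) (.e (nat_lit 266224) (nat_lit 0) .nil) .nil)))))) (.nd (nat_lit 7) (.nd (nat_lit 8) (.nd (nat_lit 9) 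
(.lf (nat_lit 537666) (.g (nat_lit 2490) (.e (nat_lit 65619) (nat_lit 10) (.e (nat_lit 344117) (nat_lit 21) (.e (nat_lit 516160) (nat_lit 10) (.e (nat_lit 434203) (nat_lit 18) (.e (nat_lit 5537) (nat_lit 306) .nil))))) (.g (nat_lit 0) (.e (nat_lit 262950) (nat_lit 0) .nil) .nil))) 
(.lf (nat_lit 538178) (.g (nat_lit 2110) (.e (nat_lit 73736) (nat_lit 0) (.e (nat_lit 5949) (nat_lit 322) (.e (nat_lit 57409) (nat_lit 12) (.e (nat_lit 336421) (nat_lit 28) (.e (nat_lit 434206) (nat_lit 18) (.e (nat_lit 5968) (nat_lit 324) (.e (nat_lit 163871) (nat_lit 2) (.e (nat_lit 196668) (nat_lit 14) .nil)))))))) (.g (nat_lit 1) (.e (nat_lit 264826) (nat_lit 0) .nil) .nil)))) 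
(.nd (nat_lit 9) 
(.lf (nat_lit 537922) (.g (nat_lit 3449) (.e (nat_lit 65630) (nat_lit 14) (.e (nat_lit 401425) (nat_lit 2) (.e (nat_lit 196666) (nat_lit 13) (.e (nat_lit 65630) (nat_lit 14) (.e (nat_lit 401412) (nat_lit 0) (.e (nat_lit 3138) (nat_lit 193) (.e (nat_lit 500064) (nat_lit 18) .nil))))))) (.g (nat_lit 1) (.e (nat_lit 263408) (nat_lit 0) .nil) .nil))) 
(.lf (nat_lit 538434) (.g (nat_lit 2406) (.e (nat_lit 73747) (nat_lit 3) (.e (nat_lit 516119) (nat_lit 1) (.e (nat_lit 164179) (nat_lit 154) (.e (nat_lit 57379) (nat_lit 3) (.e (nat_lit 98340) (nat_lit 20) .nil))))) (.g (nat_lit 0) (.e (nat_lit 266053) (nat_lit 0) .nil) .nil))))) (.nd (nat_lit 8) (.nd (nat_lit 9) 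
(.lf (nat_lit 537794) (.g (nat_lit 888) (.e (nat_lit 65620) (nat_lit 10) (.e (nat_lit 344183) (nat_lit 49) (.e (nat_lit 819221) (nat_lit 6) (.e (nat_lit 188440) (nat_lit 20) (.e (nat_lit 3288) (nat_lit 201) (.e (nat_lit 565267) (nat_lit 4) .nil)))))) (.g (nat_lit 1) (.e (nat_lit 263120) (nat_lit 0) .nil) .nil))) 
(.lf (nat_lit 538306) (.g (nat_lit 4096) (.e (nat_lit 73746) (nat_lit 3) (.e (nat_lit 516120) (nat_lit 1) (.e (nat_lit 164183) (nat_lit 154) (.e (nat_lit 57378) (nat_lit 3) (.e (nat_lit 98342) (nat_lit 20) (.e (nat_lit 221212) (nat_lit 22) (.e (nat_lit 196668) (nat_lit 14) .nil))))))) (.g (nat_lit 1) (.e (nat_lit 265479) (nat_lit 0) .nil) .nil)))) (.nd (nat_lit 9) 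
(.lf (nat_lit 538050) (.g (nat_lit 2380) (.e (nat_lit 73472) (nat_lit 18) (.e (nat_lit 204862) (nat_lit 27) (.e (nat_lit 344129) (nat_lit 26) (.e (nat_lit 557096) (nat_lit 13) (.e (nat_lit 172140) (nat_lit 22) .nil))))) (.g (nat_lit 0) (.e (nat_lit 263858) (nat_lit 0) .nil) .nil))) 
(.lf (nat_lit 538562) (.g (nat_lit 2525) (.e (nat_lit 73753) (nat_lit 8) (.e (nat_lit 557098) (nat_lit 13) (.e (nat_lit 172067) (nat_lit 3) (.e (nat_lit 204816) (nat_lit 17) (.e (nat_lit 2273) (nat_lit 149) .nil))))) (.g (nat_lit 0) (.e (nat_lit 266422) (nat_lit 0) .nil) .nil))))))) (.nd (nat_lit 6) (.nd (nat_lit 7) (.nd (nat_lit 8) (.nd (nat_lit 9) 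
(.lf (nat_lit 537634) (.g (nat_lit 3833) (.e (nat_lit 65619) (nat_lit 10) (.e (nat_lit 344117) (nat_lit 21) (.e (nat_lit 516151) (nat_lit 9) (.e (nat_lit 426037) (nat_lit 0) (.e (nat_lit 2458) (nat_lit 157) (.e (nat_lit 5547) (nat_lit 306) (.e (nat_lit 2611) (nat_lit 163) (.e (nat_lit 163978) (nat_lit 30) (.e (nat_lit 573479) (nat_lit 13) .nil))))))))) (.g (nat_lit 1) (.e (nat_lit 262917) (nat_lit 0) .nil) .nil))) 
(.lf (nat_lit 538146) (.g (nat_lit 808) (.e (nat_lit 73472) (nat_lit 34) (.e (nat_lit 483384) (nat_lit 23) (.e (nat_lit 336019) (nat_lit 3) (.e (nat_lit 98334) (nat_lit 18) .nil)))) (.g (nat_lit 0) (.e (nat_lit 264541) (nat_lit 0) .nil) .nil)))) (.nd (nat_lit 9) 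
(.lf (nat_lit 537890) (.g (nat_lit 2491) (.e (nat_lit 65628) (nat_lit 14) (.e (nat_lit 401428) (nat_lit 3) (.e (nat_lit 204869) (nat_lit 29) (.e (nat_lit 360448) (nat_lit 0) (.e (nat_lit 3972) (nat_lit 239) .nil))))) (.g (nat_lit 0) (.e (nat_lit 263351) (nat_lit 0) .nil) .nil))) 
(.lf (nat_lit 538402) (.g (nat_lit 2959) (.e (nat_lit 73747) (nat_lit 3) (.e (nat_lit 516098) (nat_lit 0) (.e (nat_lit 7593) (nat_lit 407) (.e (nat_lit 73746) (nat_lit 3) (.e (nat_lit 516098) (nat_lit 0) (.e (nat_lit 7591) (nat_lit 407) .nil)))))) (.g (nat_lit 1) (.e (nat_lit 265619) (nat_lit 0) .nil) .nil))))) (.nd (nat_lit 8) (.nd (nat_lit 9) 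
(.lf (nat_lit 537762) (.g (nat_lit 3141) (.e (nat_lit 65619) (nat_lit 10) (.e (nat_lit 344129) (nat_lit 26) (.e (nat_lit 557087) (nat_lit 11) (.e (nat_lit 24671) (nat_lit 15) .nil)))) (.g (nat_lit 0) (.e (nat_lit 263065) (nat_lit 0) .nil) .nil))) 
(.lf (nat_lit 538274) (.g (nat_lit 3216) (.e (nat_lit 73746) (nat_lit 3) (.e (nat_lit 516117) (nat_lit 1) (.e (nat_lit 164176) (nat_lit 154) (.e (nat_lit 57379) (nat_lit 3) (.e (nat_lit 98341) (nat_lit 20) (.e (nat_lit 221212) (nat_lit 22) (.e (nat_lit 196670) (nat_lit 14) .nil))))))) (.g (nat_lit 1) (.e (nat_lit 265222) (nat_lit 0) .nil) .nil)))) (.nd (nat_lit 9) 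
(.lf (nat_lit 538018) (.g (nat_lit 903) (.e (nat_lit 65637) (nat_lit 15) (.e (nat_lit 3748) (nat_lit 228) (.e (nat_lit 786481) (nat_lit 30) (.e (nat_lit 360482) (nat_lit 15) (.e (nat_lit 647203) (nat_lit 14) .nil))))) (.g (nat_lit 0) (.e (nat_lit 263646) (nat_lit 0) .nil) .nil))) 
(.lf (nat_lit 538530) (.g (nat_lit 2948) (.e (nat_lit 73748) (nat_lit 3) (.e (nat_lit 516139) (nat_lit 7) (.e (nat_lit 409642) (nat_lit 17) (.e (nat_lit 294928) (nat_lit 2) (.e (nat_lit 90133) (nat_lit 9) (.e (nat_lit 2400) (nat_lit 157) (.e (nat_lit 7590) (nat_lit 407) .nil))))))) (.g (nat_lit 1) (.e (nat_lit 266270) (nat_lit 0) .nil) .nil)))))) (.nd (nat_lit 7) (.nd (nat_lit 8) (.nd (nat_lit 9) 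
(.lf (nat_lit 537698) (.g (nat_lit 1358) (.e (nat_lit 65619) (nat_lit 10) (.e (nat_lit 344138) (nat_lit 29) (.e (nat_lit 581653) (nat_lit 6) (.e (nat_lit 188440) (nat_lit 20) (.e (nat_lit 3579) (nat_lit 223) .nil))))) (.g (nat_lit 0) (.e (nat_lit 262990) (nat_lit 0) .nil) .nil))) 
(.lf (nat_lit 538210) (.g (nat_lit 954) (.e (nat_lit 81664) (nat_lit 5) (.e (nat_lit 532583) (nat_lit 26) (.e (nat_lit 426190) (nat_lit 9) (.e (nat_lit 426560) (nat_lit 33) .nil)))) (.g (nat_lit 0) (.e (nat_lit 264986) (nat_lit 0) .nil) .nil)))) (.nd (nat_lit 9) 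
(.lf (nat_lit 537954) (.g (nat_lit 2578) (.e (nat_lit 65630) (nat_lit 14) (.e (nat_lit 401428) (nat_lit 3) (.e (nat_lit 204869) (nat_lit 29) (.e (nat_lit 360448) (nat_lit 0) (.e (nat_lit 3923) (nat_lit 239) .nil))))) (.g (nat_lit 0) (.e (nat_lit 263451) (nat_lit 0) .nil) .nil))) 
(.lf (nat_lit 538466) (.g (nat_lit 2340) (.e (nat_lit 73747) (nat_lit 3) (.e (nat_lit 516131) (nat_lit 3) (.e (nat_lit 221215) (nat_lit 23) (.e (nat_lit 204831) (nat_lit 18) (.e (nat_lit 57930) (nat_lit 282) (.e (nat_lit 163867) (nat_lit 2) (.e (nat_lit 196668) (nat_lit 14) .nil))))))) (.g (nat_lit 1) (.e (nat_lit 266171) (nat_lit 0) .nil) .nil))))) (.nd (nat_lit 8) (.nd (nat_lit 9) 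
(.lf (nat_lit 537826) (.g (nat_lit 1556) (.e (nat_lit 65623) (nat_lit 12) (.e (nat_lit 385106) (nat_lit 50) (.e (nat_lit 786480) (nat_lit 29) (.e (nat_lit 352302) (nat_lit 20) .nil)))) (.g (nat_lit 0) (.e (nat_lit 263210) (nat_lit 0) .nil) .nil))) 
(.lf (nat_lit 538338) (.g (nat_lit 4057) (.e (nat_lit 73746) (nat_lit 3) (.e (nat_lit 516131) (nat_lit 3) (.e (nat_lit 221214) (nat_lit 23) (.e (nat_lit 204830) (nat_lit 18) (.e (nat_lit 57926) (nat_lit 282) (.e (nat_lit 163868) (nat_lit 2) (.e (nat_lit 196670) (nat_lit 14) .nil))))))) (.g (nat_lit 1) (.e (nat_lit 265530) (nat_lit 0) .nil) .nil)))) (.nd (nat_lit 9) 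
(.lf (nat_lit 538082) (.g (nat_lit 1772) (.e (nat_lit 65652) (nat_lit 27) (.e (nat_lit 426163) (nat_lit 6) (.e (nat_lit 253991) (nat_lit 11) (.e (nat_lit 16412) (nat_lit 2) .nil)))) (.g (nat_lit 0) (.e (nat_lit 264173) (nat_lit 0) .nil) .nil))) 
(.lf (nat_lit 538594) (.g (nat_lit 2869) (.e (nat_lit 73753) (nat_lit 8) (.e (nat_lit 557103) (nat_lit 14) (.e (nat_lit 180250) (nat_lit 10) (.e (nat_lit 573475) (nat_lit 12) (.e (nat_lit 57504) (nat_lit 38) (.e (nat_lit 638996) (nat_lit 7) (.e (nat_lit 163978) (nat_lit 30) (.e (nat_lit 573487) (nat_lit 14) .nil)))))))) (.g (nat_lit 1) (.e (nat_lit 266531) (nat_lit 0) .nil) .nil)))))))) 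
(.nd (nat_lit 5) (.nd (nat_lit 6) (.nd (nat_lit 7) (.nd (nat_lit 8) (.nd (nat_lit 9) 
(.lf (nat_lit 537618) (.g (nat_lit 2207) (.e (nat_lit 65619) (nat_lit 10) (.e (nat_lit 344117) (nat_lit 21) (.e (nat_lit 516146) (nat_lit 9) (.e (nat_lit 426469) (nat_lit 24) .nil)))) (.g (nat_lit 0) (.e (nat_lit 262901) (nat_lit 0) .nil) .nil))) 
(.lf (nat_lit 538130) (.g (nat_lit 1911) (.e (nat_lit 65653) (nat_lit 27) (.e (nat_lit 426344) (nat_lit 14) (.e (nat_lit 491568) (nat_lit 13) (.e (nat_lit 393235) (nat_lit 17) (.e (nat_lit 7936) (nat_lit 406) .nil))))) (.g (nat_lit 1) (.e (nat_lit 264298) (nat_lit 0) .nil) .nil)))) (.nd (nat_lit 9) 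
(.lf (nat_lit 537874) (.g (nat_lit 1220) (.e (nat_lit 65628) (nat_lit 14) (.e (nat_lit 401428) (nat_lit 3) (.e (nat_lit 204845) (nat_lit 24) (.e (nat_lit 319491) (nat_lit 0) .nil)))) (.g (nat_lit 0) (.e (nat_lit 263333) (nat_lit 0) .nil) .nil))) 
(.lf (nat_lit 538386) (.g (nat_lit 3931) (.e (nat_lit 73746) (nat_lit 3) (.e (nat_lit 516185) (nat_lit 16) (.e (nat_lit 491560) (nat_lit 10) (.e (nat_lit 344118) (nat_lit 21) (.e (nat_lit 516097) (nat_lit 0) (.e (nat_lit 7593) (nat_lit 407) .nil)))))) (.g (nat_lit 1) (.e (nat_lit 265600) (nat_lit 0) .nil) .nil))))) (.nd (nat_lit 8) (.nd (nat_lit 9) 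
(.lf (nat_lit 537746) (.g (nat_lit 3109) (.e (nat_lit 65619) (nat_lit 10) (.e (nat_lit 344129) (nat_lit 26) (.e (nat_lit 557087) (nat_lit 11) (.e (nat_lit 24625) (nat_lit 9) (.e (nat_lit 336257) (nat_lit 15) (.e (nat_lit 3298) (nat_lit 202) (.e (nat_lit 573481) (nat_lit 13) .nil))))))) (.g (nat_lit 1) (.e (nat_lit 263049) (nat_lit 0) .nil) .nil))) 
(.lf (nat_lit 538258) (.g (nat_lit 3945) (.e (nat_lit 73746) (nat_lit 3) (.e (nat_lit 516115) (nat_lit 1) (.e (nat_lit 164179) (nat_lit 154) (.e (nat_lit 57378) (nat_lit 3) (.e (nat_lit 98340) (nat_lit 20) (.e (nat_lit 221210) (nat_lit 22) (.e (nat_lit 196668) (nat_lit 14) .nil))))))) (.g (nat_lit 1) (.e (nat_lit 265137) (nat_lit 0) .nil) .nil)))) (.nd (nat_lit 9) 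
(.lf (nat_lit 538002) (.g (nat_lit 3360) (.e (nat_lit 65637) (nat_lit 15) (.e (nat_lit 3305) (nat_lit 202) (.e (nat_lit 573485) (nat_lit 13) (.e (nat_lit 65604) (nat_lit 9) (.e (nat_lit 336028) (nat_lit 3) (.e (nat_lit 98325) (nat_lit 17) (.e (nat_lit 7936) (nat_lit 406) .nil))))))) (.g (nat_lit 1) (.e (nat_lit 263597) (nat_lit 0) .nil) .nil))) 
(.lf (nat_lit 538514) (.g (nat_lit 2520) (.e (nat_lit 73748) (nat_lit 3) (.e (nat_lit 516131) (nat_lit 3) (.e (nat_lit 221215) (nat_lit 23) (.e (nat_lit 204829) (nat_lit 18) (.e (nat_lit 57926) (nat_lit 282) (.e (nat_lit 163869) (nat_lit 2) (.e (nat_lit 196670) (nat_lit 14) .nil))))))) (.g (nat_lit 1) (.e (nat_lit 266250) (nat_lit 0) .nil) .nil)))))) 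
(.nd (nat_lit 7) (.nd (nat_lit 8) (.nd (nat_lit 9) 
(.lf (nat_lit 537682) (.g (nat_lit 2033) (.e (nat_lit 65619) (nat_lit 10) (.e (nat_lit 344117) (nat_lit 21) (.e (nat_lit 516171) (nat_lit 13) (.e (nat_lit 458774) (nat_lit 18) (.e (nat_lit 5543) (nat_lit 306) .nil))))) (.g (nat_lit 0) (.e (nat_lit 262967) (nat_lit 0) .nil) .nil))) 
(.lf (nat_lit 538194) (.g (nat_lit 2216) (.e (nat_lit 73739) (nat_lit 1) (.e (nat_lit 499848) (nat_lit 5) (.e (nat_lit 3102) (nat_lit 192) (.e (nat_lit 491558) (nat_lit 10) (.e (nat_lit 344115) (nat_lit 20) (.e (nat_lit 507908) (nat_lit 0) (.e (nat_lit 5412) (nat_lit 303) .nil))))))) (.g (nat_lit 1) (.e (nat_lit 264923) (nat_lit 0) .nil) .nil)))) (.nd (nat_lit 9) 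
(.lf (nat_lit 537938) (.g (nat_lit 3492) (.e (nat_lit 65630) (nat_lit 14) (.e (nat_lit 401428) (nat_lit 3) (.e (nat_lit 204861) (nat_lit 26) (.e (nat_lit 336076) (nat_lit 9) (.e (nat_lit 336240) (nat_lit 15) (.e (nat_lit 3309) (nat_lit 202) (.e (nat_lit 573485) (nat_lit 13) .nil))))))) (.g (nat_lit 1) (.e (nat_lit 263434) (nat_lit 0) .nil) .nil))) 
(.lf (nat_lit 538450) (.g (nat_lit 2604) (.e (nat_lit 73747) (nat_lit 3) (.e (nat_lit 516129) (nat_lit 3) (.e (nat_lit 221214) (nat_lit 23) (.e (nat_lit 204831) (nat_lit 18) (.e (nat_lit 57929) (nat_lit 282) (.e (nat_lit 163869) (nat_lit 2) (.e (nat_lit 196668) (nat_lit 14) .nil))))))) (.g (nat_lit 1) (.e (nat_lit 266149) (nat_lit 0) .nil) .nil))))) (.nd (nat_lit 8) (.nd (nat_lit 9) 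
(.lf (nat_lit 537810) (.g (nat_lit 1381) (.e (nat_lit 65623) (nat_lit 12) (.e (nat_lit 385068) (nat_lit 26) (.e (nat_lit 532513) (nat_lit 3) (.e (nat_lit 114697) (nat_lit 11) .nil)))) (.g (nat_lit 0) (.e (nat_lit 263159) (nat_lit 0) .nil) .nil))) 
(.lf (nat_lit 538322) (.g (nat_lit 3006) (.e (nat_lit 73746) (nat_lit 3) (.e (nat_lit 516129) (nat_lit 3) (.e (nat_lit 221214) (nat_lit 23) (.e (nat_lit 204830) (nat_lit 18) (.e (nat_lit 57927) (nat_lit 282) (.e (nat_lit 163870) (nat_lit 2) (.e (nat_lit 196670) (nat_lit 14) .nil))))))) (.g (nat_lit 1) (.e (nat_lit 265509) (nat_lit 0) .nil) .nil)))) (.nd (nat_lit 9) 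
(.lf (nat_lit 538066) (.g (nat_lit 2978) (.e (nat_lit 65648) (nat_lit 26) (.e (nat_lit 417811) (nat_lit 6) (.e (nat_lit 286748) (nat_lit 9) (.e (nat_lit 336389) (nat_lit 27) (.e (nat_lit 426012) (nat_lit 0) (.e (nat_lit 7587) (nat_lit 406) .nil)))))) (.g (nat_lit 1) (.e (nat_lit 264124) (nat_lit 0) .nil) .nil))) 
(.lf (nat_lit 538578) (.g (nat_lit 3329) (.e (nat_lit 73753) (nat_lit 8) (.e (nat_lit 557103) (nat_lit 14) (.e (nat_lit 180244) (nat_lit 5) (.e (nat_lit 532504) (nat_lit 1) (.e (nat_lit 65280) (nat_lit 168) (.e (nat_lit 163867) (nat_lit 2) (.e (nat_lit 196670) (nat_lit 14) .nil))))))) (.g (nat_lit 1) (.e (nat_lit 266513) (nat_lit 0) .nil) .nil))))))) 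
(.nd (nat_lit 6) (.nd (nat_lit 7) (.nd (nat_lit 8) (.nd (nat_lit 9) 
(.lf (nat_lit 537650) (.g (nat_lit 2808) (.e (nat_lit 65619) (nat_lit 10) (.e (nat_lit 344117) (nat_lit 21) (.e (nat_lit 516151) (nat_lit 9) (.e (nat_lit 426146) (nat_lit 4) .nil)))) (.g (nat_lit 0) (.e (nat_lit 262933) (nat_lit 0) .nil) .nil))) 
(.lf (nat_lit 538162) (.g (nat_lit 3002) (.e (nat_lit 73729) (nat_lit 0) (.e (nat_lit 4539) (nat_lit 267) (.e (nat_lit 163869) (nat_lit 2) (.e (nat_lit 196656) (nat_lit 11) (.e (nat_lit 16425) (nat_lit 7) (.e (nat_lit 409616) (nat_lit 10) (.e (nat_lit 858) (nat_lit 75) (.e (nat_lit 778323) (nat_lit 5) .nil)))))))) (.g (nat_lit 1) (.e (nat_lit 264683) (nat_lit 0) .nil) .nil)))) (.nd (nat_lit 9) 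
(.lf (nat_lit 537906) (.g (nat_lit 1087) (.e (nat_lit 65630) (nat_lit 14) (.e (nat_lit 401425) (nat_lit 2) (.e (nat_lit 196661) (nat_lit 12) (.e (nat_lit 57740) (nat_lit 187) .nil)))) (.g (nat_lit 0) (.e (nat_lit 263392) (nat_lit 0) .nil) .nil))) 
(.lf (nat_lit 538418) (.g (nat_lit 2933) (.e (nat_lit 73747) (nat_lit 3) (.e (nat_lit 516116) (nat_lit 1) (.e (nat_lit 164182) (nat_lit 154) (.e (nat_lit 57379) (nat_lit 3) (.e (nat_lit 98342) (nat_lit 20) (.e (nat_lit 221212) (nat_lit 22) (.e (nat_lit 196668) (nat_lit 14) .nil))))))) (.g (nat_lit 1) (.e (nat_lit 265883) (nat_lit 0) .nil) .nil))))) (.nd (nat_lit 8) (.nd (nat_lit 9) 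
(.lf (nat_lit 537778) (.g (nat_lit 1201) (.e (nat_lit 65619) (nat_lit 10) (.e (nat_lit 344183) (nat_lit 49) (.e (nat_lit 819221) (nat_lit 6) (.e (nat_lit 188440) (nat_lit 20) (.e (nat_lit 3288) (nat_lit 201) (.e (nat_lit 565267) (nat_lit 4) .nil)))))) (.g (nat_lit 1) (.e (nat_lit 263095) (nat_lit 0) .nil) .nil))) 
(.lf (nat_lit 538290) (.g (nat_lit 3266) (.e (nat_lit 73746) (nat_lit 3) (.e (nat_lit 516119) (nat_lit 1) (.e (nat_lit 164182) (nat_lit 154) (.e (nat_lit 57379) (nat_lit 3) (.e (nat_lit 98340) (nat_lit 20) (.e (nat_lit 221212) (nat_lit 22) (.e (nat_lit 196670) (nat_lit 14) .nil))))))) (.g (nat_lit 1) (.e (nat_lit 265368) (nat_lit 0) .nil) .nil)))) (.nd (nat_lit 9) 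
(.lf (nat_lit 538034) (.g (nat_lit 1297) (.e (nat_lit 73472) (nat_lit 15) (.e (nat_lit 3253) (nat_lit 197) (.e (nat_lit 532503) (nat_lit 1) (.e (nat_lit 57870) (nat_lit 264) .nil)))) (.g (nat_lit 0) (.e (nat_lit 263743) (nat_lit 0) .nil) .nil))) 
(.lf (nat_lit 538546) (.g (nat_lit 2683) (.e (nat_lit 73753) (nat_lit 8) (.e (nat_lit 557087) (nat_lit 11) (.e (nat_lit 24646) (nat_lit 11) (.e (nat_lit 368676) (nat_lit 21) (.e (nat_lit 516098) (nat_lit 0) (.e (nat_lit 7593) (nat_lit 407) .nil)))))) (.g (nat_lit 1) (.e (nat_lit 266384) (nat_lit 0) .nil) .nil)))))) (.nd (nat_lit 7) (.nd (nat_lit 8) (.nd (nat_lit 9) 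
(.lf (nat_lit 537714) (.g (nat_lit 1919) (.e (nat_lit 65619) (nat_lit 10) (.e (nat_lit 344129) (nat_lit 26) (.e (nat_lit 557066) (nat_lit 9) (.e (nat_lit 332) (nat_lit 26) .nil)))) (.g (nat_lit 0) (.e (nat_lit 263014) (nat_lit 0) .nil) .nil))) 
(.lf (nat_lit 538226) (.g (nat_lit 852) (.e (nat_lit 73750) (nat_lit 6) (.e (nat_lit 540724) (nat_lit 28) (.e (nat_lit 442395) (nat_lit 20) (.e (nat_lit 3571) (nat_lit 222) (.e (nat_lit 737284) (nat_lit 0) (.e (nat_lit 5409) (nat_lit 303) .nil)))))) (.g (nat_lit 1) (.e (nat_lit 265026) (nat_lit 0) .nil) .nil)))) (.nd (nat_lit 9) 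
(.lf (nat_lit 537970) (.g (nat_lit 2802) (.e (nat_lit 65636) (nat_lit 15) (.e (nat_lit 3302) (nat_lit 202) (.e (nat_lit 573482) (nat_lit 13) (.e (nat_lit 65619) (nat_lit 10) (.e (nat_lit 344115) (nat_lit 20) (.e (nat_lit 507908) (nat_lit 0) (.e (nat_lit 5405) (nat_lit 302) .nil))))))) (.g (nat_lit 1) (.e (nat_lit 263511) (nat_lit 0) .nil) .nil))) 
(.lf (nat_lit 538482) (.g (nat_lit 3939) (.e (nat_lit 73747) (nat_lit 3) (.e (nat_lit 516139) (nat_lit 7) (.e (nat_lit 409649) (nat_lit 18) (.e (nat_lit 303117) (nat_lit 2) (.e (nat_lit 196661) (nat_lit 12) (.e (nat_lit 65280) (nat_lit 192) .nil)))))) (.g (nat_lit 1) (.e (nat_lit 266189) (nat_lit 0) .nil) .nil))))) (.nd (nat_lit 8) (.nd (nat_lit 9) 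
(.lf (nat_lit 537842) (.g (nat_lit 2240) (.e (nat_lit 65626) (nat_lit 13) (.e (nat_lit 393225) (nat_lit 9) (.e (nat_lit 335986) (nat_lit 1) (.e (nat_lit 57926) (nat_lit 282) (.e (nat_lit 163871) (nat_lit 2) (.e (nat_lit 196665) (nat_lit 13) .nil)))))) (.g (nat_lit 1) (.e (nat_lit 263253) (nat_lit 0) .nil) .nil))) 
(.lf (nat_lit 538354) (.g (nat_lit 4563) (.e (nat_lit 73746) (nat_lit 3) (.e (nat_lit 516131) (nat_lit 3) (.e (nat_lit 221215) (nat_lit 23) (.e (nat_lit 204830) (nat_lit 18) (.e (nat_lit 57929) (nat_lit 282) (.e (nat_lit 163869) (nat_lit 2) (.e (nat_lit 196670) (nat_lit 14) .nil))))))) (.g (nat_lit 1) (.e (nat_lit 265548) (nat_lit 0) .nil) .nil)))) (.nd (nat_lit 9) 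
(.lf (nat_lit 538098) (.g (nat_lit 3360) (.e (nat_lit 65653) (nat_lit 27) (.e (nat_lit 426306) (nat_lit 12) (.e (nat_lit 475211) (nat_lit 41) (.e (nat_lit 712745) (nat_lit 27) (.e (nat_lit 425984) (nat_lit 0) (.e (nat_lit 7588) (nat_lit 406) .nil)))))) (.g (nat_lit 1) (.e (nat_lit 264243) (nat_lit 0) .nil) .nil))) 
(.lf (nat_lit 538610) (.g (nat_lit 2452) (.e (nat_lit 73753) (nat_lit 8) (.e (nat_lit 557104) (nat_lit 14) (.e (nat_lit 180251) (nat_lit 10) (.e (nat_lit 573475) (nat_lit 12) (.e (nat_lit 57503) (nat_lit 38) .nil))))) (.g (nat_lit 0) (.e (nat_lit 266552) (nat_lit 0) .nil) .nil))))))))) (.nd (nat_lit 4) (.nd (nat_lit 5) (.nd (nat_lit 6) (.nd (nat_lit 7) (.nd (nat_lit 8) (.nd (nat_lit 9) 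
(.lf (nat_lit 537610) (.g (nat_lit 2557) (.e (nat_lit 65619) (nat_lit 10) (.e (nat_lit 344117) (nat_lit 21) (.e (nat_lit 516145) (nat_lit 9) (.e (nat_lit 426420) (nat_lit 15) .nil)))) (.g (nat_lit 0) (.e (nat_lit 262893) (nat_lit 0) .nil) .nil))) 
(.lf (nat_lit 538122) (.g (nat_lit 2822) (.e (nat_lit 65653) (nat_lit 27) (.e (nat_lit 426343) (nat_lit 14) (.e (nat_lit 491552) (nat_lit 9) (.e (nat_lit 336412) (nat_lit 27) (.e (nat_lit 426011) (nat_lit 0) (.e (nat_lit 7589) (nat_lit 406) .nil)))))) (.g (nat_lit 1) (.e (nat_lit 264289) (nat_lit 0) .nil) .nil)))) (.nd (nat_lit 9) 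
(.lf (nat_lit 537866) (.g (nat_lit 2657) (.e (nat_lit 65628) (nat_lit 14) (.e (nat_lit 401425) (nat_lit 2) (.e (nat_lit 196666) (nat_lit 13) (.e (nat_lit 65629) (nat_lit 14) (.e (nat_lit 401425) (nat_lit 2) .nil))))) (.g (nat_lit 0) (.e (nat_lit 263321) (nat_lit 0) .nil) .nil))) 
(.lf (nat_lit 538378) (.g (nat_lit 5176) (.e (nat_lit 73746) (nat_lit 3) (.e (nat_lit 516166) (nat_lit 12) (.e (nat_lit 450588) (nat_lit 10) (.e (nat_lit 573478) (nat_lit 12) .nil)))) (.g (nat_lit 0) (.e (nat_lit 265588) (nat_lit 0) .nil) .nil))))) (.nd (nat_lit 8) (.nd (nat_lit 9) 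
(.lf (nat_lit 537738) (.g (nat_lit 2514) (.e (nat_lit 65619) (nat_lit 10) (.e (nat_lit 344129) (nat_lit 26) (.e (nat_lit 557087) (nat_lit 11) (.e (nat_lit 24623) (nat_lit 9) (.e (nat_lit 336238) (nat_lit 15) (.e (nat_lit 3309) (nat_lit 202) (.e (nat_lit 573485) (nat_lit 13) .nil))))))) (.g (nat_lit 1) (.e (nat_lit 263041) (nat_lit 0) .nil) .nil))) 
(.lf (nat_lit 538250) (.g (nat_lit 3899) (.e (nat_lit 73746) (nat_lit 3) (.e (nat_lit 516102) (nat_lit 0) (.e (nat_lit 6989) (nat_lit 377) (.e (nat_lit 2777) (nat_lit 178) (.e (nat_lit 286735) (nat_lit 3) (.e (nat_lit 98325) (nat_lit 17) (.e (nat_lit 7936) (nat_lit 407) .nil))))))) (.g (nat_lit 1) (.e (nat_lit 265060) (nat_lit 0) .nil) .nil)))) (.nd (nat_lit 9) 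
(.lf (nat_lit 537994) (.g (nat_lit 3158) (.e (nat_lit 65637) (nat_lit 15) (.e (nat_lit 3305) (nat_lit 202) (.e (nat_lit 573482) (nat_lit 13) (.e (nat_lit 65604) (nat_lit 9) (.e (nat_lit 336028) (nat_lit 3) (.e (nat_lit 98325) (nat_lit 17) (.e (nat_lit 7936) (nat_lit 406) .nil))))))) (.g (nat_lit 1) (.e (nat_lit 263579) (nat_lit 0) .nil) .nil))) 
(.lf (nat_lit 538506) (.g (nat_lit 302) (.e (nat_lit 73748) (nat_lit 3) (.e (nat_lit 516131) (nat_lit 3) (.e (nat_lit 221212) (nat_lit 22) .nil))) (.g (nat_lit 0) (.e (nat_lit 266235) (nat_lit 0) .nil) .nil)))))) (.nd (nat_lit 7) (.nd (nat_lit 8) (.nd (nat_lit 9) 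
(.lf (nat_lit 537674) (.g (nat_lit 5155) (.e (nat_lit 65619) (nat_lit 10) (.e (nat_lit 344117) (nat_lit 21) (.e (nat_lit 516160) (nat_lit 10) (.e (nat_lit 434271) (nat_lit 38) (.e (nat_lit 655375) (nat_lit 3) (.e (nat_lit 163979) (nat_lit 30) (.e (nat_lit 573482) (nat_lit 13) .nil))))))) (.g (nat_lit 1) (.e (nat_lit 262958) (nat_lit 0) .nil) .nil))) 
(.lf (nat_lit 538186) (.g (nat_lit 2951) (.e (nat_lit 73739) (nat_lit 1) (.e (nat_lit 499833) (nat_lit 5) (.e (nat_lit 3102) (nat_lit 192) (.e (nat_lit 491560) (nat_lit 10) (.e (nat_lit 344115) (nat_lit 20) (.e (nat_lit 507907) (nat_lit 0) (.e (nat_lit 5412) (nat_lit 303) .nil))))))) (.g (nat_lit 1) (.e (nat_lit 264915) (nat_lit 0) .nil) .nil)))) (.nd (nat_lit 9) 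
(.lf (nat_lit 537930) (.g (nat_lit 4475) (.e (nat_lit 65630) (nat_lit 14) (.e (nat_lit 401425) (nat_lit 2) (.e (nat_lit 196681) (nat_lit 17) (.e (nat_lit 131123) (nat_lit 12) (.e (nat_lit 385074) (nat_lit 31) (.e (nat_lit 573482) (nat_lit 13) .nil)))))) (.g (nat_lit 1) (.e (nat_lit 263417) (nat_lit 0) .nil) .nil))) 
(.lf (nat_lit 538442) (.g (nat_lit 1148) (.e (nat_lit 73747) (nat_lit 3) (.e (nat_lit 516120) (nat_lit 1) (.e (nat_lit 164160) (nat_lit 152) .nil))) (.g (nat_lit 0) (.e (nat_lit 266074) (nat_lit 0) .nil) .nil))))) (.nd (nat_lit 8) (.nd (nat_lit 9) 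
(.lf (nat_lit 537802) (.g (nat_lit 692) (.e (nat_lit 65622) (nat_lit 12) (.e (nat_lit 385074) (nat_lit 31) (.e (nat_lit 573454) (nat_lit 9) .nil))) (.g (nat_lit 0) (.e (nat_lit 263139) (nat_lit 0) .nil) .nil))) 
(.lf (nat_lit 538314) (.g (nat_lit 538) (.e (nat_lit 73746) (nat_lit 3) (.e (nat_lit 516129) (nat_lit 3) (.e (nat_lit 221212) (nat_lit 22) .nil))) (.g (nat_lit 0) (.e (nat_lit 265500) (nat_lit 0) .nil) .nil)))) (.nd (nat_lit 9) 
(.lf (nat_lit 538058) (.g (nat_lit 635) (.e (nat_lit 73472) (nat_lit 18) (.e (nat_lit 204877) (nat_lit 31) (.e (nat_lit 376842) (nat_lit 11) (.e (nat_lit 426098) (nat_lit 1) .nil)))) (.g (nat_lit 0) (.e (nat_lit 263905) (nat_lit 0) .nil) .nil))) 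
(.lf (nat_lit 538570) (.g (nat_lit 2725) (.e (nat_lit 73753) (nat_lit 8) (.e (nat_lit 557101) (nat_lit 13) (.e (nat_lit 172067) (nat_lit 3) (.e (nat_lit 204816) (nat_lit 17) (.e (nat_lit 2273) (nat_lit 149) .nil))))) (.g (nat_lit 0) (.e (nat_lit 266441) (nat_lit 0) .nil) .nil))))))) (.nd (nat_lit 6) (.nd (nat_lit 7) (.nd (nat_lit 8) (.nd (nat_lit 9) 
(.lf (nat_lit 537642) (.g (nat_lit 2840) (.e (nat_lit 65619) (nat_lit 10) (.e (nat_lit 344117) (nat_lit 21) (.e (nat_lit 516151) (nat_lit 9) (.e (nat_lit 426046) (nat_lit 0) .nil)))) (.g (nat_lit 0) (.e (nat_lit 262925) (nat_lit 0) .nil) .nil))) 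
(.lf (nat_lit 538154) (.g (nat_lit 1675) (.e (nat_lit 73472) (nat_lit 34) (.e (nat_lit 483408) (nat_lit 26) (.e (nat_lit 385067) (nat_lit 26) (.e (nat_lit 532503) (nat_lit 1) (.e (nat_lit 57822) (nat_lit 250) .nil))))) (.g (nat_lit 0) (.e (nat_lit 264629) (nat_lit 0) .nil) .nil)))) (.nd (nat_lit 9) 
(.lf (nat_lit 537898) (.g (nat_lit 1129) (.e (nat_lit 65628) (nat_lit 14) (.e (nat_lit 401437) (nat_lit 9) (.e (nat_lit 426542) (nat_lit 29) (.e (nat_lit 352280) (nat_lit 20) .nil)))) (.g (nat_lit 0) (.e (nat_lit 263375) (nat_lit 0) .nil) .nil))) 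
(.lf (nat_lit 538410) (.g (nat_lit 3617) (.e (nat_lit 73747) (nat_lit 3) (.e (nat_lit 516115) (nat_lit 1) (.e (nat_lit 164178) (nat_lit 154) (.e (nat_lit 57379) (nat_lit 3) (.e (nat_lit 98342) (nat_lit 20) (.e (nat_lit 221212) (nat_lit 22) (.e (nat_lit 196668) (nat_lit 14) .nil))))))) (.g (nat_lit 1) (.e (nat_lit 265650) (nat_lit 0) .nil) .nil))))) (.nd (nat_lit 8) (.nd (nat_lit 9) 
(.lf (nat_lit 537770) (.g (nat_lit 3511) (.e (nat_lit 65619) (nat_lit 10) (.e (nat_lit 344129) (nat_lit 26) (.e (nat_lit 557090) (nat_lit 12) (.e (nat_lit 164014) (nat_lit 43) .nil)))) (.g (nat_lit 0) (.e (nat_lit 263074) (nat_lit 0) .nil) .nil))) 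
(.lf (nat_lit 538282) (.g (nat_lit 1350) (.e (nat_lit 73746) (nat_lit 3) (.e (nat_lit 516118) (nat_lit 1) (.e (nat_lit 164177) (nat_lit 154) (.e (nat_lit 57379) (nat_lit 3) (.e (nat_lit 98340) (nat_lit 20) .nil))))) (.g (nat_lit 0) (.e (nat_lit 265280) (nat_lit 0) .nil) .nil)))) (.nd (nat_lit 9) 
(.lf (nat_lit 538026) (.g (nat_lit 1771) (.e (nat_lit 65642) (nat_lit 15) (.e (nat_lit 3253) (nat_lit 197) (.e (nat_lit 532563) (nat_lit 15) (.e (nat_lit 385068) (nat_lit 26) .nil)))) (.g (nat_lit 0) (.e (nat_lit 263708) (nat_lit 0) .nil) .nil))) 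
(.lf (nat_lit 538538) (.g (nat_lit 536) (.e (nat_lit 73752) (nat_lit 8) (.e (nat_lit 557104) (nat_lit 14) (.e (nat_lit 180252) (nat_lit 10) .nil))) (.g (nat_lit 0) (.e (nat_lit 266359) (nat_lit 0) .nil) .nil)))))) (.nd (nat_lit 7) (.nd (nat_lit 8) (.nd (nat_lit 9) 
(.lf (nat_lit 537706) (.g (nat_lit 2198) (.e (nat_lit 65619) (nat_lit 10) (.e (nat_lit 344129) (nat_lit 26) (.e (nat_lit 557066) (nat_lit 9) (.e (nat_lit 232) (nat_lit 21) (.e (nat_lit 335997) (nat_lit 1) .nil))))) (.g (nat_lit 0) (.e (nat_lit 263000) (nat_lit 0) .nil) .nil))) 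
(.lf (nat_lit 538218) (.g (nat_lit 1769) (.e (nat_lit 81664) (nat_lit 5) (.e (nat_lit 532583) (nat_lit 26) (.e (nat_lit 426199) (nat_lit 9) (.e (nat_lit 426562) (nat_lit 33) (.e (nat_lit 392960) (nat_lit 5) .nil))))) (.g (nat_lit 0) (.e (nat_lit 264996) (nat_lit 0) .nil) .nil)))) (.nd (nat_lit 9) 
(.lf (nat_lit 537962) (.g (nat_lit 2710) (.e (nat_lit 65630) (nat_lit 14) (.e (nat_lit 401438) (nat_lit 9) (.e (nat_lit 426542) (nat_lit 29) (.e (nat_lit 352283) (nat_lit 20) (.e (nat_lit 1999) (nat_lit 137) (.e (nat_lit 663567) (nat_lit 4) .nil)))))) (.g (nat_lit 1) (.e (nat_lit 263480) (nat_lit 0) .nil) .nil))) 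
(.lf (nat_lit 538474) (.g (nat_lit 2016) (.e (nat_lit 73747) (nat_lit 3) (.e (nat_lit 516139) (nat_lit 7) (.e (nat_lit 409643) (nat_lit 18) (.e (nat_lit 303117) (nat_lit 2) (.e (nat_lit 196661) (nat_lit 12) .nil))))) (.g (nat_lit 0) (.e (nat_lit 266181) (nat_lit 0) .nil) .nil))))) (.nd (nat_lit 8) (.nd (nat_lit 9) 
(.lf (nat_lit 537834) (.g (nat_lit 2814) (.e (nat_lit 65624) (nat_lit 12) (.e (nat_lit 385074) (nat_lit 31) (.e (nat_lit 573493) (nat_lit 15) (.e (nat_lit 81922) (nat_lit 0) (.e (nat_lit 3304) (nat_lit 202) .nil))))) (.g (nat_lit 0) (.e (nat_lit 263228) (nat_lit 0) .nil) .nil))) 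
(.lf (nat_lit 538346) (.g (nat_lit 4513) (.e (nat_lit 73746) (nat_lit 3) (.e (nat_lit 516131) (nat_lit 3) (.e (nat_lit 221215) (nat_lit 23) (.e (nat_lit 204828) (nat_lit 18) (.e (nat_lit 57931) (nat_lit 282) (.e (nat_lit 163869) (nat_lit 2) (.e (nat_lit 196670) (nat_lit 14) .nil))))))) (.g (nat_lit 1) (.e (nat_lit 265540) (nat_lit 0) .nil) .nil)))) (.nd (nat_lit 9) 
(.lf (nat_lit 538090) (.g (nat_lit 3117) (.e (nat_lit 65652) (nat_lit 27) (.e (nat_lit 426347) (nat_lit 14) (.e (nat_lit 491571) (nat_lit 13) (.e (nat_lit 393232) (nat_lit 17) (.e (nat_lit 7587) (nat_lit 406) .nil))))) (.g (nat_lit 1) (.e (nat_lit 264187) (nat_lit 0) .nil) .nil))) 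
(.lf (nat_lit 538602) (.g (nat_lit 374) (.e (nat_lit 73753) (nat_lit 8) (.e (nat_lit 557104) (nat_lit 14) (.e (nat_lit 180244) (nat_lit 5) .nil))) (.g (nat_lit 0) (.e (nat_lit 266541) (nat_lit 0) .nil) .nil)))))))) (.nd (nat_lit 5) (.nd (nat_lit 6) (.nd (nat_lit 7) (.nd (nat_lit 8) (.nd (nat_lit 9) 
(.lf (nat_lit 537626) (.g (nat_lit 3157) (.e (nat_lit 65619) (nat_lit 10) (.e (nat_lit 344117) (nat_lit 21) (.e (nat_lit 516151) (nat_lit 9) (.e (nat_lit 426021) (nat_lit 0) .nil)))) (.g (nat_lit 0) (.e (nat_lit 262909) (nat_lit 0) .nil) .nil))) 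
(.lf (nat_lit 538138) (.g (nat_lit 1810) (.e (nat_lit 73472) (nat_lit 29) (.e (nat_lit 442374) (nat_lit 0) (.e (nat_lit 2174) (nat_lit 143) (.e (nat_lit 712745) (nat_lit 27) (.e (nat_lit 425984) (nat_lit 0) .nil))))) (.g (nat_lit 0) (.e (nat_lit 264368) (nat_lit 0) .nil) .nil)))) (.nd (nat_lit 9) 
(.lf (nat_lit 537882) (.g (nat_lit 2441) (.e (nat_lit 65628) (nat_lit 14) (.e (nat_lit 401428) (nat_lit 3) (.e (nat_lit 204861) (nat_lit 26) (.e (nat_lit 336203) (nat_lit 12) (.e (nat_lit 385072) (nat_lit 31) (.e (nat_lit 573482) (nat_lit 13) .nil)))))) (.g (nat_lit 1) (.e (nat_lit 263343) (nat_lit 0) .nil) .nil))) 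
(.lf (nat_lit 538394) (.g (nat_lit 2124) (.e (nat_lit 73747) (nat_lit 3) (.e (nat_lit 516098) (nat_lit 0) (.e (nat_lit 7591) (nat_lit 407) (.e (nat_lit 73738) (nat_lit 1) (.e (nat_lit 499910) (nat_lit 8) (.e (nat_lit 171776) (nat_lit 192) .nil)))))) (.g (nat_lit 1) (.e (nat_lit 265611) (nat_lit 0) .nil) .nil))))) (.nd (nat_lit 8) (.nd (nat_lit 9) 
(.lf (nat_lit 537754) (.g (nat_lit 3057) (.e (nat_lit 65619) (nat_lit 10) (.e (nat_lit 344129) (nat_lit 26) (.e (nat_lit 557087) (nat_lit 11) (.e (nat_lit 24628) (nat_lit 9) (.e (nat_lit 343808) (nat_lit 15) .nil))))) (.g (nat_lit 0) (.e (nat_lit 263057) (nat_lit 0) .nil) .nil))) 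
(.lf (nat_lit 538266) (.g (nat_lit 3293) (.e (nat_lit 73746) (nat_lit 3) (.e (nat_lit 516115) (nat_lit 1) (.e (nat_lit 164182) (nat_lit 154) (.e (nat_lit 57379) (nat_lit 3) (.e (nat_lit 98342) (nat_lit 20) (.e (nat_lit 221212) (nat_lit 22) (.e (nat_lit 196668) (nat_lit 14) .nil))))))) (.g (nat_lit 1) (.e (nat_lit 265172) (nat_lit 0) .nil) .nil)))) (.nd (nat_lit 9) 
(.lf (nat_lit 538010) (.g (nat_lit 3659) (.e (nat_lit 65637) (nat_lit 15) (.e (nat_lit 3305) (nat_lit 202) (.e (nat_lit 573493) (nat_lit 15) (.e (nat_lit 81956) (nat_lit 23) (.e (nat_lit 98321) (nat_lit 17) (.e (nat_lit 7936) (nat_lit 406) .nil)))))) (.g (nat_lit 1) (.e (nat_lit 263609) (nat_lit 0) .nil) .nil))) 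
(.lf (nat_lit 538522) (.g (nat_lit 3081) (.e (nat_lit 73748) (nat_lit 3) (.e (nat_lit 516139) (nat_lit 7) (.e (nat_lit 409649) (nat_lit 18) (.e (nat_lit 303117) (nat_lit 2) (.e (nat_lit 196661) (nat_lit 12) .nil))))) (.g (nat_lit 0) (.e (nat_lit 266260) (nat_lit 0) .nil) .nil)))))) (.nd (nat_lit 7) (.nd (nat_lit 8) (.nd (nat_lit 9) 
(.lf (nat_lit 537690) (.g (nat_lit 3389) (.e (nat_lit 65619) (nat_lit 10) (.e (nat_lit 344119) (nat_lit 21) (.e (nat_lit 516179) (nat_lit 15) (.e (nat_lit 475199) (nat_lit 40) (.e (nat_lit 704589) (nat_lit 3) (.e (nat_lit 163975) (nat_lit 30) (.e (nat_lit 573481) (nat_lit 13) .nil))))))) (.g (nat_lit 1) (.e (nat_lit 262976) (nat_lit 0) .nil) .nil))) 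
(.lf (nat_lit 538202) (.g (nat_lit 1772) (.e (nat_lit 81664) (nat_lit 5) (.e (nat_lit 532579) (nat_lit 26) (.e (nat_lit 426188) (nat_lit 9) (.e (nat_lit 426562) (nat_lit 33) (.e (nat_lit 392960) (nat_lit 5) .nil))))) (.g (nat_lit 0) (.e (nat_lit 264957) (nat_lit 0) .nil) .nil)))) (.nd (nat_lit 9) 
(.lf (nat_lit 537946) (.g (nat_lit 3247) (.e (nat_lit 65630) (nat_lit 14) (.e (nat_lit 401428) (nat_lit 3) (.e (nat_lit 204861) (nat_lit 26) (.e (nat_lit 336232) (nat_lit 14) (.e (nat_lit 401414) (nat_lit 0) (.e (nat_lit 3124) (nat_lit 193) (.e (nat_lit 500059) (nat_lit 18) .nil))))))) (.g (nat_lit 1) (.e (nat_lit 263442) (nat_lit 0) .nil) .nil))) 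
(.lf (nat_lit 538458) (.g (nat_lit 2494) (.e (nat_lit 73747) (nat_lit 3) (.e (nat_lit 516130) (nat_lit 3) (.e (nat_lit 221215) (nat_lit 23) (.e (nat_lit 204829) (nat_lit 18) (.e (nat_lit 57928) (nat_lit 282) (.e (nat_lit 163868) (nat_lit 2) (.e (nat_lit 196668) (nat_lit 14) .nil))))))) (.g (nat_lit 1) (.e (nat_lit 266158) (nat_lit 0) .nil) .nil))))) (.nd (nat_lit 8) (.nd (nat_lit 9) 
(.lf (nat_lit 537818) (.g (nat_lit 3095) (.e (nat_lit 65623) (nat_lit 12) (.e (nat_lit 385074) (nat_lit 31) (.e (nat_lit 573482) (nat_lit 13) (.e (nat_lit 65630) (nat_lit 14) (.e (nat_lit 401425) (nat_lit 2) (.e (nat_lit 196665) (nat_lit 13) .nil)))))) (.g (nat_lit 1) (.e (nat_lit 263176) (nat_lit 0) .nil) .nil))) 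
(.lf (nat_lit 538330) (.g (nat_lit 3043) (.e (nat_lit 73746) (nat_lit 3) (.e (nat_lit 516129) (nat_lit 3) (.e (nat_lit 221215) (nat_lit 23) (.e (nat_lit 204830) (nat_lit 18) (.e (nat_lit 57930) (nat_lit 282) (.e (nat_lit 163867) (nat_lit 2) (.e (nat_lit 196668) (nat_lit 14) .nil))))))) (.g (nat_lit 1) (.e (nat_lit 265517) (nat_lit 0) .nil) .nil)))) (.nd (nat_lit 9) 
(.lf (nat_lit 538074) (.g (nat_lit 1546) (.e (nat_lit 65649) (nat_lit 27) (.e (nat_lit 426341) (nat_lit 14) (.e (nat_lit 491571) (nat_lit 13) (.e (nat_lit 393242) (nat_lit 17) .nil)))) (.g (nat_lit 0) (.e (nat_lit 264154) (nat_lit 0) .nil) .nil))) 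
(.lf (nat_lit 538586) (.g (nat_lit 5460) (.e (nat_lit 73753) (nat_lit 8) (.e (nat_lit 557103) (nat_lit 14) (.e (nat_lit 180250) (nat_lit 10) (.e (nat_lit 573474) (nat_lit 12) (.e (nat_lit 57503) (nat_lit 38) (.e (nat_lit 638995) (nat_lit 7) (.e (nat_lit 163978) (nat_lit 30) (.e (nat_lit 573487) (nat_lit 14) .nil)))))))) (.g (nat_lit 1) (.e (nat_lit 266522) (nat_lit 0) .nil) .nil))))))) 
(.nd (nat_lit 6) (.nd (nat_lit 7) (.nd (nat_lit 8) (.nd (nat_lit 9) 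
(.lf (nat_lit 537658) (.g (nat_lit 2709) (.e (nat_lit 65619) (nat_lit 10) (.e (nat_lit 344117) (nat_lit 21) (.e (nat_lit 516159) (nat_lit 10) (.e (nat_lit 434275) (nat_lit 39) (.e (nat_lit 663589) (nat_lit 14) (.e (nat_lit 2449) (nat_lit 157) (.e (nat_lit 632) (nat_lit 50) (.e (nat_lit 573485) (nat_lit 13) .nil)))))))) (.g (nat_lit 1) (.e (nat_lit 262941) (nat_lit 0) .nil) .nil))) 
(.lf (nat_lit 538170) (.g (nat_lit 714) (.e (nat_lit 73730) (nat_lit 0) (.e (nat_lit 7263) (nat_lit 384) (.e (nat_lit 57412) (nat_lit 12) (.e (nat_lit 336073) (nat_lit 9) .nil)))) (.g (nat_lit 0) (.e (nat_lit 264731) (nat_lit 0) .nil) .nil)))) (.nd (nat_lit 9) 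
(.lf (nat_lit 537914) (.g (nat_lit 1980) (.e (nat_lit 65630) (nat_lit 14) (.e (nat_lit 401425) (nat_lit 2) (.e (nat_lit 196666) (nat_lit 13) (.e (nat_lit 65628) (nat_lit 14) (.e (nat_lit 401412) (nat_lit 0) .nil))))) (.g (nat_lit 0) (.e (nat_lit 263400) (nat_lit 0) .nil) .nil))) 
(.lf (nat_lit 538426) (.g (nat_lit 2325) (.e (nat_lit 73747) (nat_lit 3) (.e (nat_lit 516117) (nat_lit 1) (.e (nat_lit 164182) (nat_lit 154) (.e (nat_lit 57378) (nat_lit 3) (.e (nat_lit 98340) (nat_lit 20) (.e (nat_lit 221212) (nat_lit 22) (.e (nat_lit 196668) (nat_lit 14) .nil))))))) (.g (nat_lit 1) (.e (nat_lit 265926) (nat_lit 0) .nil) .nil))))) (.nd (nat_lit 8) (.nd (nat_lit 9) 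
(.lf (nat_lit 537786) (.g (nat_lit 4420) (.e (nat_lit 65620) (nat_lit 10) (.e (nat_lit 344117) (nat_lit 21) (.e (nat_lit 516151) (nat_lit 9) (.e (nat_lit 426412) (nat_lit 15) (.e (nat_lit 2057) (nat_lit 142) .nil))))) (.g (nat_lit 0) (.e (nat_lit 263105) (nat_lit 0) .nil) .nil))) 
(.lf (nat_lit 538298) (.g (nat_lit 530) (.e (nat_lit 73746) (nat_lit 3) (.e (nat_lit 516120) (nat_lit 1) (.e (nat_lit 164181) (nat_lit 154) .nil))) (.g (nat_lit 0) (.e (nat_lit 265380) (nat_lit 0) .nil) .nil)))) (.nd (nat_lit 9) 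
(.lf (nat_lit 538042) (.g (nat_lit 1103) (.e (nat_lit 73472) (nat_lit 18) (.e (nat_lit 204830) (nat_lit 18) (.e (nat_lit 57854) (nat_lit 252) (.e (nat_lit 57378) (nat_lit 3) .nil)))) (.g (nat_lit 0) (.e (nat_lit 263791) (nat_lit 0) .nil) .nil))) 
(.lf (nat_lit 538554) (.g (nat_lit 2515) (.e (nat_lit 73753) (nat_lit 8) (.e (nat_lit 557096) (nat_lit 13) (.e (nat_lit 172067) (nat_lit 3) (.e (nat_lit 204816) (nat_lit 17) (.e (nat_lit 2273) (nat_lit 149) .nil))))) (.g (nat_lit 0) (.e (nat_lit 266403) (nat_lit 0) .nil) .nil)))))) (.nd (nat_lit 7) (.nd (nat_lit 8) (.nd (nat_lit 9) 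
(.lf (nat_lit 537722) (.g (nat_lit 2180) (.e (nat_lit 65619) (nat_lit 10) (.e (nat_lit 344129) (nat_lit 26) (.e (nat_lit 557084) (nat_lit 10) (.e (nat_lit 8540) (nat_lit 226) .nil)))) (.g (nat_lit 0) (.e (nat_lit 263023) (nat_lit 0) .nil) .nil))) 
(.lf (nat_lit 538234) (.g (nat_lit 2413) (.e (nat_lit 73745) (nat_lit 3) (.e (nat_lit 516119) (nat_lit 1) (.e (nat_lit 164179) (nat_lit 154) (.e (nat_lit 57378) (nat_lit 3) (.e (nat_lit 98342) (nat_lit 20) .nil))))) (.g (nat_lit 0) (.e (nat_lit 265038) (nat_lit 0) .nil) .nil)))) (.nd (nat_lit 9) 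
(.lf (nat_lit 537978) (.g (nat_lit 1907) (.e (nat_lit 65637) (nat_lit 15) (.e (nat_lit 3253) (nat_lit 197) (.e (nat_lit 532503) (nat_lit 1) (.e (nat_lit 57844) (nat_lit 252) (.e (nat_lit 57354) (nat_lit 0) .nil))))) (.g (nat_lit 0) (.e (nat_lit 263527) (nat_lit 0) .nil) .nil))) 
(.lf (nat_lit 538490) (.g (nat_lit 3608) (.e (nat_lit 73747) (nat_lit 3) (.e (nat_lit 516185) (nat_lit 16) (.e (nat_lit 491560) (nat_lit 10) (.e (nat_lit 344117) (nat_lit 21) (.e (nat_lit 516106) (nat_lit 0) (.e (nat_lit 7936) (nat_lit 407) .nil)))))) (.g (nat_lit 1) (.e (nat_lit 266198) (nat_lit 0) .nil) .nil))))) (.nd (nat_lit 8) (.nd (nat_lit 9) 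
(.lf (nat_lit 537850) (.g (nat_lit 3484) (.e (nat_lit 65626) (nat_lit 13) (.e (nat_lit 393229) (nat_lit 9) (.e (nat_lit 335995) (nat_lit 1) (.e (nat_lit 57931) (nat_lit 282) (.e (nat_lit 163867) (nat_lit 2) (.e (nat_lit 196665) (nat_lit 13) .nil)))))) (.g (nat_lit 1) (.e (nat_lit 263269) (nat_lit 0) .nil) .nil))) 
(.lf (nat_lit 538362) (.g (nat_lit 3181) (.e (nat_lit 73746) (nat_lit 3) (.e (nat_lit 516139) (nat_lit 7) (.e (nat_lit 409646) (nat_lit 18) (.e (nat_lit 303117) (nat_lit 2) (.e (nat_lit 196661) (nat_lit 12) (.e (nat_lit 65280) (nat_lit 192) .nil)))))) (.g (nat_lit 1) (.e (nat_lit 265562) (nat_lit 0) .nil) .nil)))) (.nd (nat_lit 9) 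
(.lf (nat_lit 538106) (.g (nat_lit 3727) (.e (nat_lit 65653) (nat_lit 27) (.e (nat_lit 426316) (nat_lit 12) (.e (nat_lit 475210) (nat_lit 41) (.e (nat_lit 712745) (nat_lit 27) (.e (nat_lit 425984) (nat_lit 0) .nil))))) (.g (nat_lit 0) (.e (nat_lit 264270) (nat_lit 0) .nil) .nil))) 
(.lf (nat_lit 538618) (.g (nat_lit 1783) (.e (nat_lit 73753) (nat_lit 8) (.e (nat_lit 557104) (nat_lit 14) (.e (nat_lit 180252) (nat_lit 10) (.e (nat_lit 573474) (nat_lit 12) .nil)))) (.g (nat_lit 0) (.e (nat_lit 266563) (nat_lit 0) .nil) .nil)))))))))) (.nd (nat_lit 3) (.nd (nat_lit 4) (.nd (nat_lit 5) (.nd (nat_lit 6) (.nd (nat_lit 7) (.nd (nat_lit 8) (.nd (nat_lit 9) 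
(.lf (nat_lit 537606) (.g (nat_lit 2547) (.e (nat_lit 65619) (nat_lit 10) (.e (nat_lit 344117) (nat_lit 21) (.e (nat_lit 516145) (nat_lit 9) (.e (nat_lit 426357) (nat_lit 15) .nil)))) (.g (nat_lit 0) (.e (nat_lit 262889) (nat_lit 0) .nil) .nil))) 
(.lf (nat_lit 538118) (.g (nat_lit 2657) (.e (nat_lit 65653) (nat_lit 27) (.e (nat_lit 426343) (nat_lit 14) (.e (nat_lit 491547) (nat_lit 9) (.e (nat_lit 336414) (nat_lit 27) (.e (nat_lit 425987) (nat_lit 0) (.e (nat_lit 7588) (nat_lit 406) .nil)))))) (.g (nat_lit 1) (.e (nat_lit 264285) (nat_lit 0) .nil) .nil)))) (.nd (nat_lit 9) 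
(.lf (nat_lit 537862) (.g (nat_lit 3105) (.e (nat_lit 65628) (nat_lit 14) (.e (nat_lit 401425) (nat_lit 2) (.e (nat_lit 196666) (nat_lit 13) (.e (nat_lit 65623) (nat_lit 12) (.e (nat_lit 385074) (nat_lit 31) (.e (nat_lit 573485) (nat_lit 13) .nil)))))) (.g (nat_lit 1) (.e (nat_lit 263317) (nat_lit 0) .nil) .nil))) 
(.lf (nat_lit 538374) (.g (nat_lit 5738) (.e (nat_lit 73746) (nat_lit 3) (.e (nat_lit 516166) (nat_lit 12) (.e (nat_lit 450588) (nat_lit 10) (.e (nat_lit 573472) (nat_lit 12) .nil)))) (.g (nat_lit 0) (.e (nat_lit 265584) (nat_lit 0) .nil) .nil))))) (.nd (nat_lit 8) (.nd (nat_lit 9) 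
(.lf (nat_lit 537734) (.g (nat_lit 2400) (.e (nat_lit 65619) (nat_lit 10) (.e (nat_lit 344129) (nat_lit 26) (.e (nat_lit 557087) (nat_lit 11) (.e (nat_lit 24598) (nat_lit 1) (.e (nat_lit 57770) (nat_lit 227) .nil))))) (.g (nat_lit 0) (.e (nat_lit 263037) (nat_lit 0) .nil) .nil))) 
(.lf (nat_lit 538246) (.g (nat_lit 1656) (.e (nat_lit 73746) (nat_lit 3) (.e (nat_lit 516098) (nat_lit 0) (.e (nat_lit 7593) (nat_lit 407) (.e (nat_lit 73739) (nat_lit 1) (.e (nat_lit 499910) (nat_lit 8) (.e (nat_lit 171776) (nat_lit 192) .nil)))))) (.g (nat_lit 1) (.e (nat_lit 265053) (nat_lit 0) .nil) .nil)))) (.nd (nat_lit 9) 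
(.lf (nat_lit 537990) (.g (nat_lit 425) (.e (nat_lit 65637) (nat_lit 15) (.e (nat_lit 3253) (nat_lit 197) (.e (nat_lit 532530) (nat_lit 9) .nil))) (.g (nat_lit 0) (.e (nat_lit 263540) (nat_lit 0) .nil) .nil))) 
(.lf (nat_lit 538502) (.g (nat_lit 568) (.e (nat_lit 73748) (nat_lit 3) (.e (nat_lit 516129) (nat_lit 3) (.e (nat_lit 221214) (nat_lit 23) .nil))) (.g (nat_lit 0) (.e (nat_lit 266230) (nat_lit 0) .nil) .nil)))))) (.nd (nat_lit 7) (.nd (nat_lit 8) (.nd (nat_lit 9) 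
(.lf (nat_lit 537670) (.g (nat_lit 2009) (.e (nat_lit 65619) (nat_lit 10) (.e (nat_lit 344117) (nat_lit 21) (.e (nat_lit 516160) (nat_lit 10) (.e (nat_lit 434213) (nat_lit 18) .nil)))) (.g (nat_lit 0) (.e (nat_lit 262954) (nat_lit 0) .nil) .nil))) 
(.lf (nat_lit 538182) (.g (nat_lit 2357) (.e (nat_lit 73739) (nat_lit 1) (.e (nat_lit 499811) (nat_lit 5) (.e (nat_lit 3102) (nat_lit 192) (.e (nat_lit 491558) (nat_lit 10) (.e (nat_lit 344115) (nat_lit 20) (.e (nat_lit 507906) (nat_lit 0) (.e (nat_lit 5412) (nat_lit 303) .nil))))))) (.g (nat_lit 1) (.e (nat_lit 264911) (nat_lit 0) .nil) .nil)))) (.nd (nat_lit 9) 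
(.lf (nat_lit 537926) (.g (nat_lit 151) (.e (nat_lit 65630) (nat_lit 14) (.e (nat_lit 401425) (nat_lit 2) (.e (nat_lit 196681) (nat_lit 17) .nil))) (.g (nat_lit 0) (.e (nat_lit 263413) (nat_lit 0) .nil) .nil))) 
(.lf (nat_lit 538438) (.g (nat_lit 3188) (.e (nat_lit 73747) (nat_lit 3) (.e (nat_lit 516119) (nat_lit 1) (.e (nat_lit 164182) (nat_lit 154) (.e (nat_lit 57379) (nat_lit 3) (.e (nat_lit 98340) (nat_lit 20) (.e (nat_lit 221212) (nat_lit 22) (.e (nat_lit 196668) (nat_lit 14) .nil))))))) (.g (nat_lit 1) (.e (nat_lit 266066) (nat_lit 0) .nil) .nil))))) (.nd (nat_lit 8) (.nd (nat_lit 9) 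
(.lf (nat_lit 537798) (.g (nat_lit 1186) (.e (nat_lit 65621) (nat_lit 11) (.e (nat_lit 368676) (nat_lit 21) (.e (nat_lit 516182) (nat_lit 15) .nil))) (.g (nat_lit 0) (.e (nat_lit 263124) (nat_lit 0) .nil) .nil))) 
(.lf (nat_lit 538310) (.g (nat_lit 4325) (.e (nat_lit 73746) (nat_lit 3) (.e (nat_lit 516127) (nat_lit 2) (.e (nat_lit 213035) (nat_lit 12) (.e (nat_lit 163965) (nat_lit 25) (.e (nat_lit 532499) (nat_lit 1) (.e (nat_lit 57927) (nat_lit 282) (.e (nat_lit 163869) (nat_lit 2) (.e (nat_lit 196670) (nat_lit 14) .nil)))))))) (.g (nat_lit 1) (.e (nat_lit 265494) (nat_lit 0) .nil) .nil)))) 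
(.nd (nat_lit 9) 
(.lf (nat_lit 538054) (.g (nat_lit 713) (.e (nat_lit 73472) (nat_lit 18) (.e (nat_lit 204863) (nat_lit 27) (.e (nat_lit 344131) (nat_lit 26) .nil))) (.g (nat_lit 0) (.e (nat_lit 263862) (nat_lit 0) .nil) .nil))) 
(.lf (nat_lit 538566) (.g (nat_lit 415) (.e (nat_lit 73753) (nat_lit 8) (.e (nat_lit 557098) (nat_lit 13) (.e (nat_lit 172140) (nat_lit 22) .nil))) (.g (nat_lit 0) (.e (nat_lit 266430) (nat_lit 0) .nil) .nil))))))) (.nd (nat_lit 6) (.nd (nat_lit 7) (.nd (nat_lit 8) (.nd (nat_lit 9) 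
(.lf (nat_lit 537638) (.g (nat_lit 1218) (.e (nat_lit 65619) (nat_lit 10) (.e (nat_lit 344117) (nat_lit 21) (.e (nat_lit 516151) (nat_lit 9) (.e (nat_lit 426043) (nat_lit 0) .nil)))) (.g (nat_lit 0) (.e (nat_lit 262921) (nat_lit 0) .nil) .nil))) 
(.lf (nat_lit 538150) (.g (nat_lit 1023) (.e (nat_lit 73472) (nat_lit 34) (.e (nat_lit 483395) (nat_lit 24) (.e (nat_lit 344117) (nat_lit 21) (.e (nat_lit 516115) (nat_lit 1) .nil)))) (.g (nat_lit 0) (.e (nat_lit 264571) (nat_lit 0) .nil) .nil)))) (.nd (nat_lit 9) 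
(.lf (nat_lit 537894) (.g (nat_lit 595) (.e (nat_lit 65628) (nat_lit 14) (.e (nat_lit 401435) (nat_lit 9) (.e (nat_lit 426546) (nat_lit 30) .nil))) (.g (nat_lit 0) (.e (nat_lit 263371) (nat_lit 0) .nil) .nil))) 
(.lf (nat_lit 538406) (.g (nat_lit 3051) (.e (nat_lit 73747) (nat_lit 3) (.e (nat_lit 516102) (nat_lit 0) (.e (nat_lit 6989) (nat_lit 377) (.e (nat_lit 2777) (nat_lit 178) (.e (nat_lit 286735) (nat_lit 3) (.e (nat_lit 98323) (nat_lit 17) (.e (nat_lit 7936) (nat_lit 407) .nil))))))) (.g (nat_lit 1) (.e (nat_lit 265623) (nat_lit 0) .nil) .nil))))) (.nd (nat_lit 8) (.nd (nat_lit 9) 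
(.lf (nat_lit 537766) (.g (nat_lit 404) (.e (nat_lit 65619) (nat_lit 10) (.e (nat_lit 344129) (nat_lit 26) (.e (nat_lit 557090) (nat_lit 12) .nil))) (.g (nat_lit 0) (.e (nat_lit 263069) (nat_lit 0) .nil) .nil))) 
(.lf (nat_lit 538278) (.g (nat_lit 2792) (.e (nat_lit 73746) (nat_lit 3) (.e (nat_lit 516117) (nat_lit 1) (.e (nat_lit 164182) (nat_lit 154) (.e (nat_lit 57379) (nat_lit 3) (.e (nat_lit 98340) (nat_lit 20) (.e (nat_lit 221212) (nat_lit 22) (.e (nat_lit 196668) (nat_lit 14) .nil))))))) (.g (nat_lit 1) (.e (nat_lit 265247) (nat_lit 0) .nil) .nil)))) (.nd (nat_lit 9) 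
(.lf (nat_lit 538022) (.g (nat_lit 2335) (.e (nat_lit 65640) (nat_lit 15) (.e (nat_lit 3253) (nat_lit 197) (.e (nat_lit 532504) (nat_lit 1) (.e (nat_lit 57851) (nat_lit 252) (.e (nat_lit 57354) (nat_lit 0) .nil))))) (.g (nat_lit 0) (.e (nat_lit 263653) (nat_lit 0) .nil) .nil))) 
(.lf (nat_lit 538534) (.g (nat_lit 718) (.e (nat_lit 81664) (nat_lit 3) (.e (nat_lit 516166) (nat_lit 12) (.e (nat_lit 450587) (nat_lit 10) (.e (nat_lit 573477) (nat_lit 12) .nil)))) (.g (nat_lit 0) (.e (nat_lit 266275) (nat_lit 0) .nil) .nil)))))) (.nd (nat_lit 7) (.nd (nat_lit 8) (.nd (nat_lit 9) 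
(.lf (nat_lit 537702) (.g (nat_lit 1714) (.e (nat_lit 65619) (nat_lit 10) (.e (nat_lit 344129) (nat_lit 26) (.e (nat_lit 557065) (nat_lit 9) (.e (nat_lit 249) (nat_lit 21) (.e (nat_lit 336203) (nat_lit 12) .nil))))) (.g (nat_lit 0) (.e (nat_lit 262995) (nat_lit 0) .nil) .nil))) 
(.lf (nat_lit 538214) (.g (nat_lit 1469) (.e (nat_lit 81664) (nat_lit 5) (.e (nat_lit 532583) (nat_lit 26) (.e (nat_lit 426197) (nat_lit 9) (.e (nat_lit 426562) (nat_lit 33) (.e (nat_lit 392960) (nat_lit 5) .nil))))) (.g (nat_lit 0) (.e (nat_lit 264990) (nat_lit 0) .nil) .nil)))) (.nd (nat_lit 9) 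
(.lf (nat_lit 537958) (.g (nat_lit 2320) (.e (nat_lit 65630) (nat_lit 14) (.e (nat_lit 401437) (nat_lit 9) (.e (nat_lit 426540) (nat_lit 29) (.e (nat_lit 352307) (nat_lit 21) (.e (nat_lit 57873) (nat_lit 264) .nil))))) (.g (nat_lit 0) (.e (nat_lit 263476) (nat_lit 0) .nil) .nil))) 
(.lf (nat_lit 538470) (.g (nat_lit 2843) (.e (nat_lit 73747) (nat_lit 3) (.e (nat_lit 516138) (nat_lit 7) (.e (nat_lit 409646) (nat_lit 18) (.e (nat_lit 303117) (nat_lit 2) (.e (nat_lit 196661) (nat_lit 12) .nil))))) (.g (nat_lit 0) (.e (nat_lit 266175) (nat_lit 0) .nil) .nil))))) (.nd (nat_lit 8) (.nd (nat_lit 9) 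
(.lf (nat_lit 537830) (.g (nat_lit 2438) (.e (nat_lit 65624) (nat_lit 12) (.e (nat_lit 385074) (nat_lit 31) (.e (nat_lit 573482) (nat_lit 13) (.e (nat_lit 65601) (nat_lit 9) .nil)))) (.g (nat_lit 0) (.e (nat_lit 263223) (nat_lit 0) .nil) .nil))) 
(.lf (nat_lit 538342) (.g (nat_lit 1981) (.e (nat_lit 73746) (nat_lit 3) (.e (nat_lit 516131) (nat_lit 3) (.e (nat_lit 221215) (nat_lit 23) (.e (nat_lit 204817) (nat_lit 17) .nil)))) (.g (nat_lit 0) (.e (nat_lit 265535) (nat_lit 0) .nil) .nil)))) (.nd (nat_lit 9) 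
(.lf (nat_lit 538086) (.g (nat_lit 2411) (.e (nat_lit 65652) (nat_lit 27) (.e (nat_lit 426347) (nat_lit 14) (.e (nat_lit 491549) (nat_lit 9) (.e (nat_lit 336414) (nat_lit 27) (.e (nat_lit 425987) (nat_lit 0) (.e (nat_lit 7588) (nat_lit 406) .nil)))))) (.g (nat_lit 1) (.e (nat_lit 264180) (nat_lit 0) .nil) .nil))) 
(.lf (nat_lit 538598) (.g (nat_lit 1304) (.e (nat_lit 73753) (nat_lit 8) (.e (nat_lit 557103) (nat_lit 14) (.e (nat_lit 180251) (nat_lit 10) (.e (nat_lit 573475) (nat_lit 12) .nil)))) (.g (nat_lit 0) (.e (nat_lit 266535) (nat_lit 0) .nil) .nil)))))))) (.nd (nat_lit 5) (.nd (nat_lit 6) (.nd (nat_lit 7) (.nd (nat_lit 8) (.nd (nat_lit 9) 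
(.lf (nat_lit 537622) (.g (nat_lit 1362) (.e (nat_lit 65619) (nat_lit 10) (.e (nat_lit 344117) (nat_lit 21) (.e (nat_lit 516151) (nat_lit 9) (.e (nat_lit 426003) (nat_lit 0) .nil)))) (.g (nat_lit 0) (.e (nat_lit 262905) (nat_lit 0) .nil) .nil))) 
(.lf (nat_lit 538134) (.g (nat_lit 1590) (.e (nat_lit 73472) (nat_lit 27) (.e (nat_lit 426340) (nat_lit 14) (.e (nat_lit 491571) (nat_lit 13) (.e (nat_lit 393235) (nat_lit 17) (.e (nat_lit 7936) (nat_lit 406) .nil))))) (.g (nat_lit 0) (.e (nat_lit 264320) (nat_lit 0) .nil) .nil)))) (.nd (nat_lit 9) 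
(.lf (nat_lit 537878) (.g (nat_lit 2914) (.e (nat_lit 65628) (nat_lit 14) (.e (nat_lit 401428) (nat_lit 3) (.e (nat_lit 204855) (nat_lit 26) (.e (nat_lit 336193) (nat_lit 12) (.e (nat_lit 385074) (nat_lit 31) (.e (nat_lit 573485) (nat_lit 13) .nil)))))) (.g (nat_lit 1) (.e (nat_lit 263338) (nat_lit 0) .nil) .nil))) 
(.lf (nat_lit 538390) (.g (nat_lit 1524) (.e (nat_lit 73746) (nat_lit 3) (.e (nat_lit 524032) (nat_lit 33) (.e (nat_lit 401456) (nat_lit 13) (.e (nat_lit 483333) (nat_lit 0) (.e (nat_lit 7936) (nat_lit 407) .nil))))) (.g (nat_lit 1) (.e (nat_lit 265606) (nat_lit 0) .nil) .nil))))) (.nd (nat_lit 8) (.nd (nat_lit 9) 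
(.lf (nat_lit 537750) (.g (nat_lit 3397) (.e (nat_lit 65619) (nat_lit 10) (.e (nat_lit 344129) (nat_lit 26) (.e (nat_lit 557087) (nat_lit 11) (.e (nat_lit 24628) (nat_lit 9) (.e (nat_lit 336261) (nat_lit 15) (.e (nat_lit 3307) (nat_lit 202) (.e (nat_lit 573485) (nat_lit 13) .nil))))))) (.g (nat_lit 1) (.e (nat_lit 263053) (nat_lit 0) .nil) .nil))) 
(.lf (nat_lit 538262) (.g (nat_lit 3793) (.e (nat_lit 73746) (nat_lit 3) (.e (nat_lit 516115) (nat_lit 1) (.e (nat_lit 164179) (nat_lit 154) (.e (nat_lit 57379) (nat_lit 3) (.e (nat_lit 98341) (nat_lit 20) (.e (nat_lit 221212) (nat_lit 22) (.e (nat_lit 196668) (nat_lit 14) .nil))))))) (.g (nat_lit 1) (.e (nat_lit 265141) (nat_lit 0) .nil) .nil)))) (.nd (nat_lit 9) 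
(.lf (nat_lit 538006) (.g (nat_lit 2239) (.e (nat_lit 65637) (nat_lit 15) (.e (nat_lit 3305) (nat_lit 202) (.e (nat_lit 573491) (nat_lit 15) (.e (nat_lit 81954) (nat_lit 23) (.e (nat_lit 98321) (nat_lit 17) (.e (nat_lit 7936) (nat_lit 406) .nil)))))) (.g (nat_lit 1) (.e (nat_lit 263605) (nat_lit 0) .nil) .nil))) 
(.lf (nat_lit 538518) (.g (nat_lit 3273) (.e (nat_lit 73748) (nat_lit 3) (.e (nat_lit 516139) (nat_lit 7) (.e (nat_lit 409617) (nat_lit 10) (.e (nat_lit 5355) (nat_lit 298) (.e (nat_lit 1235) (nat_lit 91) (.e (nat_lit 90133) (nat_lit 9) (.e (nat_lit 2397) (nat_lit 157) (.e (nat_lit 7590) (nat_lit 407) .nil)))))))) (.g (nat_lit 1) (.e (nat_lit 266255) (nat_lit 0) .nil) .nil)))))) 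
(.nd (nat_lit 7) (.nd (nat_lit 8) (.nd (nat_lit 9) 
(.lf (nat_lit 537686) (.g (nat_lit 4079) (.e (nat_lit 65619) (nat_lit 10) (.e (nat_lit 344117) (nat_lit 21) (.e (nat_lit 516179) (nat_lit 15) (.e (nat_lit 483072) (nat_lit 40) .nil)))) (.g (nat_lit 0) (.e (nat_lit 262971) (nat_lit 0) .nil) .nil))) 
(.lf (nat_lit 538198) (.g (nat_lit 1754) (.e (nat_lit 81664) (nat_lit 5) (.e (nat_lit 532514) (nat_lit 3) (.e (nat_lit 114719) (nat_lit 23) (.e (nat_lit 98350) (nat_lit 24) (.e (nat_lit 409617) (nat_lit 10) .nil))))) (.g (nat_lit 0) (.e (nat_lit 264945) (nat_lit 0) .nil) .nil)))) (.nd (nat_lit 9) 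
(.lf (nat_lit 537942) (.g (nat_lit 1692) (.e (nat_lit 65630) (nat_lit 14) (.e (nat_lit 401428) (nat_lit 3) (.e (nat_lit 204861) (nat_lit 26) (.e (nat_lit 336203) (nat_lit 12) (.e (nat_lit 385073) (nat_lit 31) (.e (nat_lit 573485) (nat_lit 13) .nil)))))) (.g (nat_lit 1) (.e (nat_lit 263438) (nat_lit 0) .nil) .nil))) 
(.lf (nat_lit 538454) (.g (nat_lit 4808) (.e (nat_lit 73747) (nat_lit 3) (.e (nat_lit 516129) (nat_lit 3) (.e (nat_lit 221215) (nat_lit 23) (.e (nat_lit 204830) (nat_lit 18) (.e (nat_lit 57926) (nat_lit 282) (.e (nat_lit 163869) (nat_lit 2) (.e (nat_lit 196668) (nat_lit 14) .nil))))))) (.g (nat_lit 1) (.e (nat_lit 266154) (nat_lit 0) .nil) .nil))))) (.nd (nat_lit 8) (.nd (nat_lit 9) 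
(.lf (nat_lit 537814) (.g (nat_lit 2273) (.e (nat_lit 65623) (nat_lit 12) (.e (nat_lit 385068) (nat_lit 26) (.e (nat_lit 532513) (nat_lit 3) (.e (nat_lit 114698) (nat_lit 11) (.e (nat_lit 426124) (nat_lit 2) (.e (nat_lit 196665) (nat_lit 13) .nil)))))) (.g (nat_lit 1) (.e (nat_lit 263163) (nat_lit 0) .nil) .nil))) 
(.lf (nat_lit 538326) (.g (nat_lit 4715) (.e (nat_lit 73746) (nat_lit 3) (.e (nat_lit 516129) (nat_lit 3) (.e (nat_lit 221215) (nat_lit 23) (.e (nat_lit 204830) (nat_lit 18) (.e (nat_lit 57926) (nat_lit 282) (.e (nat_lit 163868) (nat_lit 2) (.e (nat_lit 196668) (nat_lit 14) .nil))))))) (.g (nat_lit 1) (.e (nat_lit 265513) (nat_lit 0) .nil) .nil)))) (.nd (nat_lit 9) 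
(.lf (nat_lit 538070) (.g (nat_lit 1299) (.e (nat_lit 65649) (nat_lit 27) (.e (nat_lit 426316) (nat_lit 12) (.e (nat_lit 475211) (nat_lit 41) (.e (nat_lit 712747) (nat_lit 28) .nil)))) (.g (nat_lit 0) (.e (nat_lit 264149) (nat_lit 0) .nil) .nil))) 
(.lf (nat_lit 538582) (.g (nat_lit 3066) (.e (nat_lit 73753) (nat_lit 8) (.e (nat_lit 557103) (nat_lit 14) (.e (nat_lit 180250) (nat_lit 10) (.e (nat_lit 573473) (nat_lit 12) (.e (nat_lit 57504) (nat_lit 38) (.e (nat_lit 638994) (nat_lit 7) (.e (nat_lit 163976) (nat_lit 30) (.e (nat_lit 573487) (nat_lit 14) .nil)))))))) (.g (nat_lit 1) (.e (nat_lit 266518) (nat_lit 0) .nil) .nil))))))) 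
(.nd (nat_lit 6) (.nd (nat_lit 7) (.nd (nat_lit 8) (.nd (nat_lit 9) 
(.lf (nat_lit 537654) (.g (nat_lit 614) (.e (nat_lit 65619) (nat_lit 10) (.e (nat_lit 344117) (nat_lit 21) (.e (nat_lit 516152) (nat_lit 9) .nil))) (.g (nat_lit 0) (.e (nat_lit 262937) (nat_lit 0) .nil) .nil))) 
(.lf (nat_lit 538166) (.g (nat_lit 1578) (.e (nat_lit 73729) (nat_lit 0) (.e (nat_lit 7265) (nat_lit 384) (.e (nat_lit 57406) (nat_lit 12) (.e (nat_lit 336115) (nat_lit 9) .nil)))) (.g (nat_lit 0) (.e (nat_lit 264700) (nat_lit 0) .nil) .nil)))) (.nd (nat_lit 9) 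
(.lf (nat_lit 537910) (.g (nat_lit 1454) (.e (nat_lit 65630) (nat_lit 14) (.e (nat_lit 401425) (nat_lit 2) (.e (nat_lit 196666) (nat_lit 13) (.e (nat_lit 65596) (nat_lit 9) .nil)))) (.g (nat_lit 0) (.e (nat_lit 263396) (nat_lit 0) .nil) .nil))) 
(.lf (nat_lit 538422) (.g (nat_lit 2496) (.e (nat_lit 73747) (nat_lit 3) (.e (nat_lit 516117) (nat_lit 1) (.e (nat_lit 164180) (nat_lit 154) (.e (nat_lit 57379) (nat_lit 3) (.e (nat_lit 98340) (nat_lit 20) (.e (nat_lit 221212) (nat_lit 22) (.e (nat_lit 196668) (nat_lit 14) .nil))))))) (.g (nat_lit 1) (.e (nat_lit 265898) (nat_lit 0) .nil) .nil))))) (.nd (nat_lit 8) (.nd (nat_lit 9) 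
(.lf (nat_lit 537782) (.g (nat_lit 3126) (.e (nat_lit 65620) (nat_lit 10) (.e (nat_lit 344117) (nat_lit 21) (.e (nat_lit 516139) (nat_lit 7) (.e (nat_lit 409643) (nat_lit 18) .nil)))) (.g (nat_lit 0) (.e (nat_lit 263101) (nat_lit 0) .nil) .nil))) 
(.lf (nat_lit 538294) (.g (nat_lit 3275) (.e (nat_lit 73746) (nat_lit 3) (.e (nat_lit 516119) (nat_lit 1) (.e (nat_lit 164182) (nat_lit 154) (.e (nat_lit 57379) (nat_lit 3) (.e (nat_lit 98342) (nat_lit 20) (.e (nat_lit 221210) (nat_lit 22) (.e (nat_lit 196668) (nat_lit 14) .nil))))))) (.g (nat_lit 1) (.e (nat_lit 265372) (nat_lit 0) .nil) .nil)))) (.nd (nat_lit 9) 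
(.lf (nat_lit 538038) (.g (nat_lit 869) (.e (nat_lit 73472) (nat_lit 18) (.e (nat_lit 204829) (nat_lit 18) (.e (nat_lit 57849) (nat_lit 252) (.e (nat_lit 57379) (nat_lit 3) .nil)))) (.g (nat_lit 0) (.e (nat_lit 263787) (nat_lit 0) .nil) .nil))) 
(.lf (nat_lit 538550) (.g (nat_lit 863) (.e (nat_lit 73753) (nat_lit 8) (.e (nat_lit 557090) (nat_lit 12) (.e (nat_lit 164006) (nat_lit 41) .nil))) (.g (nat_lit 0) (.e (nat_lit 266391) (nat_lit 0) .nil) .nil)))))) (.nd (nat_lit 7) (.nd (nat_lit 8) (.nd (nat_lit 9) 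
(.lf (nat_lit 537718) (.g (nat_lit 2483) (.e (nat_lit 65619) (nat_lit 10) (.e (nat_lit 344129) (nat_lit 26) (.e (nat_lit 557070) (nat_lit 9) (.e (nat_lit 283) (nat_lit 21) .nil)))) (.g (nat_lit 0) (.e (nat_lit 263019) (nat_lit 0) .nil) .nil))) 
(.lf (nat_lit 538230) (.g (nat_lit 1119) (.e (nat_lit 73750) (nat_lit 6) (.e (nat_lit 540724) (nat_lit 28) (.e (nat_lit 442399) (nat_lit 20) (.e (nat_lit 3571) (nat_lit 222) (.e (nat_lit 737283) (nat_lit 0) (.e (nat_lit 5412) (nat_lit 303) .nil)))))) (.g (nat_lit 1) (.e (nat_lit 265030) (nat_lit 0) .nil) .nil)))) (.nd (nat_lit 9) 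
(.lf (nat_lit 537974) (.g (nat_lit 3083) (.e (nat_lit 65637) (nat_lit 15) (.e (nat_lit 3253) (nat_lit 197) (.e (nat_lit 532499) (nat_lit 1) (.e (nat_lit 57847) (nat_lit 252) (.e (nat_lit 57349) (nat_lit 0) (.e (nat_lit 1860) (nat_lit 124) (.e (nat_lit 557105) (nat_lit 14) (.e (nat_lit 180252) (nat_lit 10) (.e (nat_lit 573481) (nat_lit 13) .nil))))))))) (.g (nat_lit 1) (.e (nat_lit 263523) (nat_lit 0) .nil) .nil))) 
(.lf (nat_lit 538486) (.g (nat_lit 3206) (.e (nat_lit 73747) (nat_lit 3) (.e (nat_lit 516185) (nat_lit 16) (.e (nat_lit 491560) (nat_lit 10) (.e (nat_lit 344107) (nat_lit 19) (.e (nat_lit 499825) (nat_lit 5) (.e (nat_lit 2397) (nat_lit 157) (.e (nat_lit 7590) (nat_lit 407) .nil))))))) (.g (nat_lit 1) (.e (nat_lit 266194) (nat_lit 0) .nil) .nil))))) (.nd (nat_lit 8) (.nd (nat_lit 9) 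
(.lf (nat_lit 537846) (.g (nat_lit 3248) (.e (nat_lit 65626) (nat_lit 13) (.e (nat_lit 393225) (nat_lit 9) (.e (nat_lit 335995) (nat_lit 1) (.e (nat_lit 57931) (nat_lit 282) (.e (nat_lit 163866) (nat_lit 2) (.e (nat_lit 196665) (nat_lit 13) .nil)))))) (.g (nat_lit 1) (.e (nat_lit 263261) (nat_lit 0) .nil) .nil))) 
(.lf (nat_lit 538358) (.g (nat_lit 2106) (.e (nat_lit 73746) (nat_lit 3) (.e (nat_lit 516139) (nat_lit 7) (.e (nat_lit 409617) (nat_lit 10) (.e (nat_lit 5355) (nat_lit 298) (.e (nat_lit 1235) (nat_lit 91) .nil))))) (.g (nat_lit 0) (.e (nat_lit 265556) (nat_lit 0) .nil) .nil)))) (.nd (nat_lit 9) 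
(.lf (nat_lit 538102) (.g (nat_lit 1478) (.e (nat_lit 65653) (nat_lit 27) (.e (nat_lit 426313) (nat_lit 12) (.e (nat_lit 475211) (nat_lit 41) (.e (nat_lit 712745) (nat_lit 27) (.e (nat_lit 425984) (nat_lit 0) .nil))))) (.g (nat_lit 0) (.e (nat_lit 264261) (nat_lit 0) .nil) .nil))) 
(.lf (nat_lit 538614) (.g (nat_lit 2958) (.e (nat_lit 73753) (nat_lit 8) (.e (nat_lit 557104) (nat_lit 14) (.e (nat_lit 180252) (nat_lit 10) (.e (nat_lit 573473) (nat_lit 12) (.e (nat_lit 57503) (nat_lit 38) .nil))))) (.g (nat_lit 0) (.e (nat_lit 266559) (nat_lit 0) .nil) .nil))))))))) (.nd (nat_lit 4) (.nd (nat_lit 5) (.nd (nat_lit 6) (.nd (nat_lit 7) (.nd (nat_lit 8) (.nd (nat_lit 9) 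
(.lf (nat_lit 537614) (.g (nat_lit 2556) (.e (nat_lit 65619) (nat_lit 10) (.e (nat_lit 344117) (nat_lit 21) (.e (nat_lit 516145) (nat_lit 9) (.e (nat_lit 426440) (nat_lit 19) .nil)))) (.g (nat_lit 0) (.e (nat_lit 262897) (nat_lit 0) .nil) .nil))) 
(.lf (nat_lit 538126) (.g (nat_lit 1995) (.e (nat_lit 65653) (nat_lit 27) (.e (nat_lit 426344) (nat_lit 14) (.e (nat_lit 491552) (nat_lit 9) (.e (nat_lit 336389) (nat_lit 27) (.e (nat_lit 426012) (nat_lit 0) (.e (nat_lit 7587) (nat_lit 406) .nil)))))) (.g (nat_lit 1) (.e (nat_lit 264294) (nat_lit 0) .nil) .nil)))) (.nd (nat_lit 9) 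
(.lf (nat_lit 537870) (.g (nat_lit 3805) (.e (nat_lit 65628) (nat_lit 14) (.e (nat_lit 401425) (nat_lit 2) (.e (nat_lit 196674) (nat_lit 15) (.e (nat_lit 81922) (nat_lit 0) (.e (nat_lit 3305) (nat_lit 202) (.e (nat_lit 573484) (nat_lit 13) .nil)))))) (.g (nat_lit 1) (.e (nat_lit 263326) (nat_lit 0) .nil) .nil))) 
(.lf (nat_lit 538382) (.g (nat_lit 525) (.e (nat_lit 73746) (nat_lit 3) (.e (nat_lit 516185) (nat_lit 16) (.e (nat_lit 491552) (nat_lit 9) .nil))) (.g (nat_lit 0) (.e (nat_lit 265595) (nat_lit 0) .nil) .nil))))) (.nd (nat_lit 8) (.nd (nat_lit 9) 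
(.lf (nat_lit 537742) (.g (nat_lit 2605) (.e (nat_lit 65619) (nat_lit 10) (.e (nat_lit 344129) (nat_lit 26) (.e (nat_lit 557087) (nat_lit 11) (.e (nat_lit 24623) (nat_lit 9) (.e (nat_lit 336303) (nat_lit 15) (.e (nat_lit 3308) (nat_lit 202) (.e (nat_lit 573482) (nat_lit 13) .nil))))))) (.g (nat_lit 1) (.e (nat_lit 263045) (nat_lit 0) .nil) .nil))) 
(.lf (nat_lit 538254) (.g (nat_lit 2194) (.e (nat_lit 73746) (nat_lit 3) (.e (nat_lit 516115) (nat_lit 1) (.e (nat_lit 164178) (nat_lit 154) (.e (nat_lit 57377) (nat_lit 3) (.e (nat_lit 98342) (nat_lit 20) .nil))))) (.g (nat_lit 0) (.e (nat_lit 265079) (nat_lit 0) .nil) .nil)))) (.nd (nat_lit 9) 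
(.lf (nat_lit 537998) (.g (nat_lit 1421) (.e (nat_lit 65637) (nat_lit 15) (.e (nat_lit 3305) (nat_lit 202) (.e (nat_lit 573484) (nat_lit 13) (.e (nat_lit 65610) (nat_lit 10) .nil)))) (.g (nat_lit 0) (.e (nat_lit 263583) (nat_lit 0) .nil) .nil))) 
(.lf (nat_lit 538510) (.g (nat_lit 1767) (.e (nat_lit 73748) (nat_lit 3) (.e (nat_lit 516131) (nat_lit 3) (.e (nat_lit 221215) (nat_lit 23) (.e (nat_lit 204814) (nat_lit 17) .nil)))) (.g (nat_lit 0) (.e (nat_lit 266242) (nat_lit 0) .nil) .nil)))))) (.nd (nat_lit 7) (.nd (nat_lit 8) (.nd (nat_lit 9) 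
(.lf (nat_lit 537678) (.g (nat_lit 5476) (.e (nat_lit 65619) (nat_lit 10) (.e (nat_lit 344117) (nat_lit 21) (.e (nat_lit 516160) (nat_lit 10) (.e (nat_lit 434272) (nat_lit 38) (.e (nat_lit 655375) (nat_lit 3) (.e (nat_lit 163979) (nat_lit 30) (.e (nat_lit 573482) (nat_lit 13) .nil))))))) (.g (nat_lit 1) (.e (nat_lit 262962) (nat_lit 0) .nil) .nil))) 
(.lf (nat_lit 538190) (.g (nat_lit 2926) (.e (nat_lit 73739) (nat_lit 1) (.e (nat_lit 499842) (nat_lit 5) (.e (nat_lit 3102) (nat_lit 192) (.e (nat_lit 491560) (nat_lit 10) (.e (nat_lit 344115) (nat_lit 20) (.e (nat_lit 507907) (nat_lit 0) (.e (nat_lit 5412) (nat_lit 303) .nil))))))) (.g (nat_lit 1) (.e (nat_lit 264919) (nat_lit 0) .nil) .nil)))) (.nd (nat_lit 9) 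
(.lf (nat_lit 537934) (.g (nat_lit 3849) (.e (nat_lit 65630) (nat_lit 14) (.e (nat_lit 401428) (nat_lit 3) (.e (nat_lit 204845) (nat_lit 24) (.e (nat_lit 319490) (nat_lit 0) (.e (nat_lit 5664) (nat_lit 312) (.e (nat_lit 2661) (nat_lit 167) (.e (nat_lit 196666) (nat_lit 13) .nil))))))) (.g (nat_lit 1) (.e (nat_lit 263428) (nat_lit 0) .nil) .nil))) 
(.lf (nat_lit 538446) (.g (nat_lit 410) (.e (nat_lit 73747) (nat_lit 3) (.e (nat_lit 516129) (nat_lit 3) (.e (nat_lit 221210) (nat_lit 22) .nil))) (.g (nat_lit 0) (.e (nat_lit 266142) (nat_lit 0) .nil) .nil))))) (.nd (nat_lit 8) (.nd (nat_lit 9) 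
(.lf (nat_lit 537806) (.g (nat_lit 2154) (.e (nat_lit 65622) (nat_lit 12) (.e (nat_lit 385074) (nat_lit 31) (.e (nat_lit 573493) (nat_lit 15) (.e (nat_lit 81923) (nat_lit 0) .nil)))) (.g (nat_lit 0) (.e (nat_lit 263149) (nat_lit 0) .nil) .nil))) 
(.lf (nat_lit 538318) (.g (nat_lit 3367) (.e (nat_lit 73746) (nat_lit 3) (.e (nat_lit 516129) (nat_lit 3) (.e (nat_lit 221214) (nat_lit 23) (.e (nat_lit 204830) (nat_lit 18) (.e (nat_lit 57925) (nat_lit 282) (.e (nat_lit 163868) (nat_lit 2) (.e (nat_lit 196668) (nat_lit 14) .nil))))))) (.g (nat_lit 1) (.e (nat_lit 265505) (nat_lit 0) .nil) .nil)))) (.nd (nat_lit 9) 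
(.lf (nat_lit 538062) (.g (nat_lit 769) (.e (nat_lit 65644) (nat_lit 22) (.e (nat_lit 245776) (nat_lit 4) (.e (nat_lit 172094) (nat_lit 9) (.e (nat_lit 426025) (nat_lit 0) .nil)))) (.g (nat_lit 0) (.e (nat_lit 264039) (nat_lit 0) .nil) .nil))) 
(.lf (nat_lit 538574) (.g (nat_lit 2680) (.e (nat_lit 73753) (nat_lit 8) (.e (nat_lit 557103) (nat_lit 14) (.e (nat_lit 180244) (nat_lit 5) (.e (nat_lit 532499) (nat_lit 1) (.e (nat_lit 57652) (nat_lit 152) .nil))))) (.g (nat_lit 0) (.e (nat_lit 266471) (nat_lit 0) .nil) .nil))))))) (.nd (nat_lit 6) (.nd (nat_lit 7) (.nd (nat_lit 8) (.nd (nat_lit 9) 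
(.lf (nat_lit 537646) (.g (nat_lit 3028) (.e (nat_lit 65619) (nat_lit 10) (.e (nat_lit 344117) (nat_lit 21) (.e (nat_lit 516151) (nat_lit 9) (.e (nat_lit 426101) (nat_lit 1) .nil)))) (.g (nat_lit 0) (.e (nat_lit 262929) (nat_lit 0) .nil) .nil))) 
(.lf (nat_lit 538158) (.g (nat_lit 732) (.e (nat_lit 73472) (nat_lit 34) (.e (nat_lit 483411) (nat_lit 27) (.e (nat_lit 401428) (nat_lit 3) .nil))) (.g (nat_lit 0) (.e (nat_lit 264650) (nat_lit 0) .nil) .nil)))) (.nd (nat_lit 9) 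
(.lf (nat_lit 537902) (.g (nat_lit 2084) (.e (nat_lit 65628) (nat_lit 14) (.e (nat_lit 401459) (nat_lit 13) (.e (nat_lit 483383) (nat_lit 23) (.e (nat_lit 335939) (nat_lit 0) .nil)))) (.g (nat_lit 0) (.e (nat_lit 263379) (nat_lit 0) .nil) .nil))) 
(.lf (nat_lit 538414) (.g (nat_lit 5190) (.e (nat_lit 73747) (nat_lit 3) (.e (nat_lit 516115) (nat_lit 1) (.e (nat_lit 164182) (nat_lit 154) (.e (nat_lit 57379) (nat_lit 3) (.e (nat_lit 98342) (nat_lit 20) (.e (nat_lit 221210) (nat_lit 22) (.e (nat_lit 196668) (nat_lit 14) .nil))))))) (.g (nat_lit 1) (.e (nat_lit 265833) (nat_lit 0) .nil) .nil))))) (.nd (nat_lit 8) (.nd (nat_lit 9) 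
(.lf (nat_lit 537774) (.g (nat_lit 2634) (.e (nat_lit 65619) (nat_lit 10) (.e (nat_lit 344129) (nat_lit 26) (.e (nat_lit 557090) (nat_lit 12) (.e (nat_lit 171776) (nat_lit 48) .nil)))) (.g (nat_lit 0) (.e (nat_lit 263078) (nat_lit 0) .nil) .nil))) 
(.lf (nat_lit 538286) (.g (nat_lit 3998) (.e (nat_lit 73746) (nat_lit 3) (.e (nat_lit 516119) (nat_lit 1) (.e (nat_lit 164179) (nat_lit 154) (.e (nat_lit 57378) (nat_lit 3) (.e (nat_lit 98342) (nat_lit 20) (.e (nat_lit 221212) (nat_lit 22) (.e (nat_lit 196668) (nat_lit 14) .nil))))))) (.g (nat_lit 1) (.e (nat_lit 265356) (nat_lit 0) .nil) .nil)))) (.nd (nat_lit 9) 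
(.lf (nat_lit 538030) (.g (nat_lit 3058) (.e (nat_lit 65642) (nat_lit 15) (.e (nat_lit 3305) (nat_lit 202) (.e (nat_lit 573485) (nat_lit 13) (.e (nat_lit 65604) (nat_lit 9) (.e (nat_lit 336028) (nat_lit 3) (.e (nat_lit 98325) (nat_lit 17) (.e (nat_lit 7936) (nat_lit 406) .nil))))))) (.g (nat_lit 1) (.e (nat_lit 263733) (nat_lit 0) .nil) .nil))) 
(.lf (nat_lit 538542) (.g (nat_lit 463) (.e (nat_lit 73753) (nat_lit 8) (.e (nat_lit 557087) (nat_lit 11) (.e (nat_lit 24634) (nat_lit 9) .nil))) (.g (nat_lit 0) (.e (nat_lit 266376) (nat_lit 0) .nil) .nil)))))) (.nd (nat_lit 7) (.nd (nat_lit 8) (.nd (nat_lit 9) 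
(.lf (nat_lit 537710) (.g (nat_lit 1992) (.e (nat_lit 65619) (nat_lit 10) (.e (nat_lit 344129) (nat_lit 26) (.e (nat_lit 557066) (nat_lit 9) (.e (nat_lit 307) (nat_lit 22) (.e (nat_lit 344090) (nat_lit 18) .nil))))) (.g (nat_lit 0) (.e (nat_lit 263006) (nat_lit 0) .nil) .nil))) 
(.lf (nat_lit 538222) (.g (nat_lit 943) (.e (nat_lit 73750) (nat_lit 6) (.e (nat_lit 540724) (nat_lit 28) (.e (nat_lit 442395) (nat_lit 20) (.e (nat_lit 3571) (nat_lit 222) (.e (nat_lit 737283) (nat_lit 0) (.e (nat_lit 5409) (nat_lit 303) .nil)))))) (.g (nat_lit 1) (.e (nat_lit 265022) (nat_lit 0) .nil) .nil)))) (.nd (nat_lit 9) 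
(.lf (nat_lit 537966) (.g (nat_lit 2632) (.e (nat_lit 65636) (nat_lit 15) (.e (nat_lit 3249) (nat_lit 197) (.e (nat_lit 532501) (nat_lit 1) (.e (nat_lit 57851) (nat_lit 252) (.e (nat_lit 57354) (nat_lit 0) .nil))))) (.g (nat_lit 0) (.e (nat_lit 263500) (nat_lit 0) .nil) .nil))) 
(.lf (nat_lit 538478) (.g (nat_lit 3745) (.e (nat_lit 73747) (nat_lit 3) (.e (nat_lit 516139) (nat_lit 7) (.e (nat_lit 409646) (nat_lit 18) (.e (nat_lit 303117) (nat_lit 2) (.e (nat_lit 196661) (nat_lit 12) (.e (nat_lit 65280) (nat_lit 192) .nil)))))) (.g (nat_lit 1) (.e (nat_lit 266185) (nat_lit 0) .nil) .nil))))) (.nd (nat_lit 8) (.nd (nat_lit 9) 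
(.lf (nat_lit 537838) (.g (nat_lit 2799) (.e (nat_lit 65625) (nat_lit 13) (.e (nat_lit 393225) (nat_lit 9) (.e (nat_lit 335988) (nat_lit 1) (.e (nat_lit 57931) (nat_lit 282) (.e (nat_lit 163866) (nat_lit 2) (.e (nat_lit 196666) (nat_lit 13) .nil)))))) (.g (nat_lit 1) (.e (nat_lit 263238) (nat_lit 0) .nil) .nil))) 
(.lf (nat_lit 538350) (.g (nat_lit 5311) (.e (nat_lit 73746) (nat_lit 3) (.e (nat_lit 516131) (nat_lit 3) (.e (nat_lit 221215) (nat_lit 23) (.e (nat_lit 204829) (nat_lit 18) (.e (nat_lit 57931) (nat_lit 282) (.e (nat_lit 163869) (nat_lit 2) (.e (nat_lit 196670) (nat_lit 14) .nil))))))) (.g (nat_lit 1) (.e (nat_lit 265544) (nat_lit 0) .nil) .nil)))) (.nd (nat_lit 9) 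
(.lf (nat_lit 538094) (.g (nat_lit 2761) (.e (nat_lit 65653) (nat_lit 27) (.e (nat_lit 426011) (nat_lit 0) (.e (nat_lit 7591) (nat_lit 407) (.e (nat_lit 73731) (nat_lit 0) (.e (nat_lit 7265) (nat_lit 384) (.e (nat_lit 57354) (nat_lit 0) (.e (nat_lit 7936) (nat_lit 347) .nil))))))) (.g (nat_lit 1) (.e (nat_lit 264199) (nat_lit 0) .nil) .nil))) 
(.lf (nat_lit 538606) (.g (nat_lit 1340) (.e (nat_lit 73753) (nat_lit 8) (.e (nat_lit 557104) (nat_lit 14) (.e (nat_lit 180244) (nat_lit 5) (.e (nat_lit 532499) (nat_lit 1) .nil)))) (.g (nat_lit 0) (.e (nat_lit 266545) (nat_lit 0) .nil) .nil)))))))) (.nd (nat_lit 5) (.nd (nat_lit 6) (.nd (nat_lit 7) (.nd (nat_lit 8) (.nd (nat_lit 9) 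
(.lf (nat_lit 537630) (.g (nat_lit 3141) (.e (nat_lit 65619) (nat_lit 10) (.e (nat_lit 344117) (nat_lit 21) (.e (nat_lit 516151) (nat_lit 9) (.e (nat_lit 426034) (nat_lit 0) .nil)))) (.g (nat_lit 0) (.e (nat_lit 262913) (nat_lit 0) .nil) .nil))) 
(.lf (nat_lit 538142) (.g (nat_lit 910) (.e (nat_lit 73472) (nat_lit 32) (.e (nat_lit 466972) (nat_lit 21) (.e (nat_lit 164403) (nat_lit 256) (.e (nat_lit 57400) (nat_lit 10) .nil)))) (.g (nat_lit 0) (.e (nat_lit 264496) (nat_lit 0) .nil) .nil)))) (.nd (nat_lit 9) 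
(.lf (nat_lit 537886) (.g (nat_lit 1889) (.e (nat_lit 65628) (nat_lit 14) (.e (nat_lit 401428) (nat_lit 3) (.e (nat_lit 204863) (nat_lit 27) (.e (nat_lit 344149) (nat_lit 33) .nil)))) (.g (nat_lit 0) (.e (nat_lit 263347) (nat_lit 0) .nil) .nil))) 
(.lf (nat_lit 538398) (.g (nat_lit 2826) (.e (nat_lit 73747) (nat_lit 3) (.e (nat_lit 516098) (nat_lit 0) (.e (nat_lit 7591) (nat_lit 407) (.e (nat_lit 73747) (nat_lit 3) (.e (nat_lit 516106) (nat_lit 0) (.e (nat_lit 7936) (nat_lit 407) .nil)))))) (.g (nat_lit 1) (.e (nat_lit 265615) (nat_lit 0) .nil) .nil))))) (.nd (nat_lit 8) (.nd (nat_lit 9) 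
(.lf (nat_lit 537758) (.g (nat_lit 4610) (.e (nat_lit 65619) (nat_lit 10) (.e (nat_lit 344129) (nat_lit 26) (.e (nat_lit 557087) (nat_lit 11) (.e (nat_lit 24648) (nat_lit 12) (.e (nat_lit 385072) (nat_lit 31) (.e (nat_lit 573485) (nat_lit 13) .nil)))))) (.g (nat_lit 1) (.e (nat_lit 263061) (nat_lit 0) .nil) .nil))) 
(.lf (nat_lit 538270) (.g (nat_lit 2736) (.e (nat_lit 73746) (nat_lit 3) (.e (nat_lit 516116) (nat_lit 1) (.e (nat_lit 164182) (nat_lit 154) (.e (nat_lit 57379) (nat_lit 3) (.e (nat_lit 98341) (nat_lit 20) .nil))))) (.g (nat_lit 0) (.e (nat_lit 265214) (nat_lit 0) .nil) .nil)))) (.nd (nat_lit 9) 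
(.lf (nat_lit 538014) (.g (nat_lit 1827) (.e (nat_lit 65637) (nat_lit 15) (.e (nat_lit 3632) (nat_lit 227) (.e (nat_lit 778326) (nat_lit 6) (.e (nat_lit 81957) (nat_lit 24) (.e (nat_lit 123195) (nat_lit 266) (.e (nat_lit 57354) (nat_lit 0) (.e (nat_lit 7936) (nat_lit 347) .nil))))))) (.g (nat_lit 1) (.e (nat_lit 263628) (nat_lit 0) .nil) .nil))) 
(.lf (nat_lit 538526) (.g (nat_lit 3663) (.e (nat_lit 73748) (nat_lit 3) (.e (nat_lit 516139) (nat_lit 7) (.e (nat_lit 409641) (nat_lit 17) (.e (nat_lit 294928) (nat_lit 2) (.e (nat_lit 90133) (nat_lit 9) (.e (nat_lit 2400) (nat_lit 157) (.e (nat_lit 7590) (nat_lit 407) .nil))))))) (.g (nat_lit 1) (.e (nat_lit 266266) (nat_lit 0) .nil) .nil)))))) (.nd (nat_lit 7) (.nd (nat_lit 8) (.nd (nat_lit 9) 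
(.lf (nat_lit 537694) (.g (nat_lit 3575) (.e (nat_lit 65619) (nat_lit 10) (.e (nat_lit 344126) (nat_lit 25) (.e (nat_lit 548891) (nat_lit 11) (.e (nat_lit 81922) (nat_lit 0) (.e (nat_lit 3305) (nat_lit 202) (.e (nat_lit 573485) (nat_lit 13) .nil)))))) (.g (nat_lit 1) (.e (nat_lit 262985) (nat_lit 0) .nil) .nil))) 
(.lf (nat_lit 538206) (.g (nat_lit 1847) (.e (nat_lit 81664) (nat_lit 5) (.e (nat_lit 532583) (nat_lit 26) (.e (nat_lit 426188) (nat_lit 9) (.e (nat_lit 426558) (nat_lit 33) (.e (nat_lit 392960) (nat_lit 5) .nil))))) (.g (nat_lit 0) (.e (nat_lit 264982) (nat_lit 0) .nil) .nil)))) (.nd (nat_lit 9) 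
(.lf (nat_lit 537950) (.g (nat_lit 2042) (.e (nat_lit 65630) (nat_lit 14) (.e (nat_lit 401428) (nat_lit 3) (.e (nat_lit 204866) (nat_lit 28) (.e (nat_lit 352265) (nat_lit 0) (.e (nat_lit 3304) (nat_lit 202) (.e (nat_lit 573485) (nat_lit 13) .nil)))))) (.g (nat_lit 1) (.e (nat_lit 263447) (nat_lit 0) .nil) .nil))) 
(.lf (nat_lit 538462) (.g (nat_lit 4599) (.e (nat_lit 73747) (nat_lit 3) (.e (nat_lit 516131) (nat_lit 3) (.e (nat_lit 221215) (nat_lit 23) (.e (nat_lit 204829) (nat_lit 18) (.e (nat_lit 57927) (nat_lit 282) (.e (nat_lit 163869) (nat_lit 2) (.e (nat_lit 196668) (nat_lit 14) .nil))))))) (.g (nat_lit 1) (.e (nat_lit 266167) (nat_lit 0) .nil) .nil))))) (.nd (nat_lit 8) (.nd (nat_lit 9) 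
(.lf (nat_lit 537822) (.g (nat_lit 466) (.e (nat_lit 65623) (nat_lit 12) (.e (nat_lit 385074) (nat_lit 31) (.e (nat_lit 573489) (nat_lit 14) .nil))) (.g (nat_lit 0) (.e (nat_lit 263193) (nat_lit 0) .nil) .nil))) 
(.lf (nat_lit 538334) (.g (nat_lit 3076) (.e (nat_lit 73746) (nat_lit 3) (.e (nat_lit 516131) (nat_lit 3) (.e (nat_lit 221214) (nat_lit 23) (.e (nat_lit 204829) (nat_lit 18) (.e (nat_lit 57926) (nat_lit 282) (.e (nat_lit 163871) (nat_lit 2) (.e (nat_lit 196670) (nat_lit 14) .nil))))))) (.g (nat_lit 1) (.e (nat_lit 265526) (nat_lit 0) .nil) .nil)))) (.nd (nat_lit 9) 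
(.lf (nat_lit 538078) (.g (nat_lit 2088) (.e (nat_lit 65651) (nat_lit 27) (.e (nat_lit 426343) (nat_lit 14) (.e (nat_lit 491570) (nat_lit 13) (.e (nat_lit 393230) (nat_lit 17) .nil)))) (.g (nat_lit 0) (.e (nat_lit 264164) (nat_lit 0) .nil) .nil))) 
(.lf (nat_lit 538590) (.g (nat_lit 3754) (.e (nat_lit 73753) (nat_lit 8) (.e (nat_lit 557103) (nat_lit 14) (.e (nat_lit 180250) (nat_lit 10) (.e (nat_lit 573475) (nat_lit 12) (.e (nat_lit 57503) (nat_lit 38) (.e (nat_lit 638994) (nat_lit 7) (.e (nat_lit 163976) (nat_lit 30) (.e (nat_lit 573487) (nat_lit 14) .nil)))))))) (.g (nat_lit 1) (.e (nat_lit 266527) (nat_lit 0) .nil) .nil))))))) 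
(.nd (nat_lit 6) (.nd (nat_lit 7) (.nd (nat_lit 8) (.nd (nat_lit 9) 
(.lf (nat_lit 537662) (.g (nat_lit 5463) (.e (nat_lit 65619) (nat_lit 10) (.e (nat_lit 344117) (nat_lit 21) (.e (nat_lit 516159) (nat_lit 10) (.e (nat_lit 434272) (nat_lit 38) (.e (nat_lit 655375) (nat_lit 3) (.e (nat_lit 163978) (nat_lit 30) (.e (nat_lit 573479) (nat_lit 13) .nil))))))) (.g (nat_lit 1) (.e (nat_lit 262945) (nat_lit 0) .nil) .nil))) 
(.lf (nat_lit 538174) (.g (nat_lit 1723) (.e (nat_lit 73731) (nat_lit 0) (.e (nat_lit 7265) (nat_lit 384) (.e (nat_lit 57406) (nat_lit 12) (.e (nat_lit 336146) (nat_lit 9) .nil)))) (.g (nat_lit 0) (.e (nat_lit 264757) (nat_lit 0) .nil) .nil)))) (.nd (nat_lit 9) 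
(.lf (nat_lit 537918) (.g (nat_lit 2442) (.e (nat_lit 65630) (nat_lit 14) (.e (nat_lit 401425) (nat_lit 2) (.e (nat_lit 196666) (nat_lit 13) (.e (nat_lit 65630) (nat_lit 14) (.e (nat_lit 401412) (nat_lit 0) .nil))))) (.g (nat_lit 0) (.e (nat_lit 263404) (nat_lit 0) .nil) .nil))) 
(.lf (nat_lit 538430) (.g (nat_lit 2336) (.e (nat_lit 73747) (nat_lit 3) (.e (nat_lit 516118) (nat_lit 1) (.e (nat_lit 164183) (nat_lit 154) (.e (nat_lit 57379) (nat_lit 3) (.e (nat_lit 98340) (nat_lit 20) (.e (nat_lit 221212) (nat_lit 22) (.e (nat_lit 196668) (nat_lit 14) .nil))))))) (.g (nat_lit 1) (.e (nat_lit 265994) (nat_lit 0) .nil) .nil))))) (.nd (nat_lit 8) (.nd (nat_lit 9) 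
(.lf (nat_lit 537790) (.g (nat_lit 3005) (.e (nat_lit 65620) (nat_lit 10) (.e (nat_lit 344117) (nat_lit 21) (.e (nat_lit 516179) (nat_lit 15) (.e (nat_lit 475199) (nat_lit 40) (.e (nat_lit 704589) (nat_lit 3) .nil))))) (.g (nat_lit 0) (.e (nat_lit 263109) (nat_lit 0) .nil) .nil))) 
(.lf (nat_lit 538302) (.g (nat_lit 1440) (.e (nat_lit 73746) (nat_lit 3) (.e (nat_lit 516120) (nat_lit 1) (.e (nat_lit 164182) (nat_lit 154) (.e (nat_lit 57379) (nat_lit 3) .nil)))) (.g (nat_lit 0) (.e (nat_lit 265405) (nat_lit 0) .nil) .nil)))) (.nd (nat_lit 9) 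
(.lf (nat_lit 538046) (.g (nat_lit 1350) (.e (nat_lit 73472) (nat_lit 18) (.e (nat_lit 204831) (nat_lit 18) (.e (nat_lit 57870) (nat_lit 264) (.e (nat_lit 1171) (nat_lit 87) (.e (nat_lit 57464) (nat_lit 23) .nil))))) (.g (nat_lit 0) (.e (nat_lit 263795) (nat_lit 0) .nil) .nil))) 
(.lf (nat_lit 538558) (.g (nat_lit 257) (.e (nat_lit 73753) (nat_lit 8) (.e (nat_lit 557098) (nat_lit 13) (.e (nat_lit 172065) (nat_lit 3) .nil))) (.g (nat_lit 0) (.e (nat_lit 266414) (nat_lit 0) .nil) .nil)))))) (.nd (nat_lit 7) (.nd (nat_lit 8) (.nd (nat_lit 9) 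
(.lf (nat_lit 537726) (.g (nat_lit 2728) (.e (nat_lit 65619) (nat_lit 10) (.e (nat_lit 344129) (nat_lit 26) (.e (nat_lit 557087) (nat_lit 11) (.e (nat_lit 24581) (nat_lit 0) .nil)))) (.g (nat_lit 0) (.e (nat_lit 263028) (nat_lit 0) .nil) .nil))) 
(.lf (nat_lit 538238) (.g (nat_lit 961) (.e (nat_lit 73745) (nat_lit 3) (.e (nat_lit 516120) (nat_lit 1) (.e (nat_lit 164183) (nat_lit 154) .nil))) (.g (nat_lit 0) (.e (nat_lit 265042) (nat_lit 0) .nil) .nil)))) (.nd (nat_lit 9) 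
(.lf (nat_lit 537982) (.g (nat_lit 1878) (.e (nat_lit 65637) (nat_lit 15) (.e (nat_lit 3253) (nat_lit 197) (.e (nat_lit 532504) (nat_lit 1) (.e (nat_lit 57851) (nat_lit 252) (.e (nat_lit 57354) (nat_lit 0) .nil))))) (.g (nat_lit 0) (.e (nat_lit 263532) (nat_lit 0) .nil) .nil))) 
(.lf (nat_lit 538494) (.g (nat_lit 1495) (.e (nat_lit 73747) (nat_lit 3) (.e (nat_lit 516199) (nat_lit 26) (.e (nat_lit 336288) (nat_lit 15) (.e (nat_lit 7936) (nat_lit 195) .nil)))) (.g (nat_lit 0) (.e (nat_lit 266218) (nat_lit 0) .nil) .nil))))) (.nd (nat_lit 8) (.nd (nat_lit 9) 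
(.lf (nat_lit 537854) (.g (nat_lit 2628) (.e (nat_lit 65627) (nat_lit 13) (.e (nat_lit 393284) (nat_lit 24) (.e (nat_lit 434275) (nat_lit 39) (.e (nat_lit 663584) (nat_lit 12) (.e (nat_lit 164000) (nat_lit 38) (.e (nat_lit 639020) (nat_lit 16) .nil)))))) (.g (nat_lit 1) (.e (nat_lit 263305) (nat_lit 0) .nil) .nil))) 
(.lf (nat_lit 538366) (.g (nat_lit 566) (.e (nat_lit 73746) (nat_lit 3) (.e (nat_lit 516139) (nat_lit 7) (.e (nat_lit 409640) (nat_lit 17) .nil))) (.g (nat_lit 0) (.e (nat_lit 265568) (nat_lit 0) .nil) .nil)))) (.nd (nat_lit 9) 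
(.lf (nat_lit 538110) (.g (nat_lit 1802) (.e (nat_lit 65653) (nat_lit 27) (.e (nat_lit 426341) (nat_lit 14) (.e (nat_lit 491571) (nat_lit 13) (.e (nat_lit 393238) (nat_lit 17) (.e (nat_lit 7936) (nat_lit 406) .nil))))) (.g (nat_lit 1) (.e (nat_lit 264277) (nat_lit 0) .nil) .nil))) 
(.lf (nat_lit 538622) (.g (nat_lit 3340) (.e (nat_lit 73753) (nat_lit 8) (.e (nat_lit 557104) (nat_lit 14) (.e (nat_lit 180252) (nat_lit 10) (.e (nat_lit 573475) (nat_lit 12) (.e (nat_lit 57501) (nat_lit 37) .nil))))) (.g (nat_lit 0) (.e (nat_lit 266567) (nat_lit 0) .nil) .nil)))))))))))) 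
(.nd (nat_lit 1) (.nd (nat_lit 2) (.nd (nat_lit 3) (.nd (nat_lit 4) (.nd (nat_lit 5) 
(.nd (nat_lit 6) (.nd (nat_lit 7) (.nd (nat_lit 8) (.nd (nat_lit 9) 
(.lf (nat_lit 537601) (.g (nat_lit 2894) (.e (nat_lit 65619) (nat_lit 10) (.e (nat_lit 344117) (nat_lit 21) (.e (nat_lit 516145) (nat_lit 9) (.e (nat_lit 426093) (nat_lit 0) (.e (nat_lit 2458) (nat_lit 157) .nil))))) (.g (nat_lit 0) (.e (nat_lit 262884) (nat_lit 0) .nil) .nil))) 
(.lf (nat_lit 538113) (.g (nat_lit 2245) (.e (nat_lit 65653) (nat_lit 27) (.e (nat_lit 426343) (nat_lit 14) (.e (nat_lit 491546) (nat_lit 9) (.e (nat_lit 336389) (nat_lit 27) (.e (nat_lit 426012) (nat_lit 0) (.e (nat_lit 7589) (nat_lit 406) .nil)))))) (.g (nat_lit 1) (.e (nat_lit 264280) (nat_lit 0) .nil) .nil)))) (.nd (nat_lit 9) 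
(.lf (nat_lit 537857) (.g (nat_lit 608) (.e (nat_lit 65628) (nat_lit 14) (.e (nat_lit 401425) (nat_lit 2) (.e (nat_lit 196628) (nat_lit 9) .nil))) (.g (nat_lit 0) (.e (nat_lit 263310) (nat_lit 0) .nil) .nil))) 
(.lf (nat_lit 538369) (.g (nat_lit 1667) (.e (nat_lit 73746) (nat_lit 3) (.e (nat_lit 516139) (nat_lit 7) (.e (nat_lit 409641) (nat_lit 17) (.e (nat_lit 294930) (nat_lit 3) .nil)))) (.g (nat_lit 0) (.e (nat_lit 265575) (nat_lit 0) .nil) .nil))))) (.nd (nat_lit 8) (.nd (nat_lit 9) 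
(.lf (nat_lit 537729) (.g (nat_lit 2351) (.e (nat_lit 65619) (nat_lit 10) (.e (nat_lit 344129) (nat_lit 26) (.e (nat_lit 557087) (nat_lit 11) (.e (nat_lit 24584) (nat_lit 0) (.e (nat_lit 6490) (nat_lit 343) .nil))))) (.g (nat_lit 0) (.e (nat_lit 263032) (nat_lit 0) .nil) .nil))) 
(.lf (nat_lit 538241) (.g (nat_lit 3884) (.e (nat_lit 73746) (nat_lit 3) (.e (nat_lit 516097) (nat_lit 0) (.e (nat_lit 7593) (nat_lit 407) (.e (nat_lit 73746) (nat_lit 3) (.e (nat_lit 516097) (nat_lit 0) (.e (nat_lit 7593) (nat_lit 407) .nil)))))) (.g (nat_lit 1) (.e (nat_lit 265045) (nat_lit 0) .nil) .nil)))) (.nd (nat_lit 9) 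
(.lf (nat_lit 537985) (.g (nat_lit 2175) (.e (nat_lit 65637) (nat_lit 15) (.e (nat_lit 3253) (nat_lit 197) (.e (nat_lit 532504) (nat_lit 1) (.e (nat_lit 57852) (nat_lit 252) (.e (nat_lit 57376) (nat_lit 3) .nil))))) (.g (nat_lit 0) (.e (nat_lit 263535) (nat_lit 0) .nil) .nil))) 
(.lf (nat_lit 538497) (.g (nat_lit 4206) (.e (nat_lit 73748) (nat_lit 3) (.e (nat_lit 516102) (nat_lit 0) (.e (nat_lit 6989) (nat_lit 377) (.e (nat_lit 2777) (nat_lit 178) (.e (nat_lit 286735) (nat_lit 3) (.e (nat_lit 98325) (nat_lit 17) (.e (nat_lit 7936) (nat_lit 407) .nil))))))) (.g (nat_lit 1) (.e (nat_lit 266221) (nat_lit 0) .nil) .nil)))))) (.nd (nat_lit 7) (.nd (nat_lit 8) (.nd (nat_lit 9) 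
(.lf (nat_lit 537665) (.g (nat_lit 2415) (.e (nat_lit 65619) (nat_lit 10) (.e (nat_lit 344117) (nat_lit 21) (.e (nat_lit 516160) (nat_lit 10) (.e (nat_lit 434202) (nat_lit 18) (.e (nat_lit 5537) (nat_lit 306) .nil))))) (.g (nat_lit 0) (.e (nat_lit 262948) (nat_lit 0) .nil) .nil))) 
(.lf (nat_lit 538177) (.g (nat_lit 428) (.e (nat_lit 73732) (nat_lit 0) (.e (nat_lit 5907) (nat_lit 320) (.e (nat_lit 1211) (nat_lit 89) .nil))) (.g (nat_lit 0) (.e (nat_lit 264772) (nat_lit 0) .nil) .nil)))) (.nd (nat_lit 9) 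
(.lf (nat_lit 537921) (.g (nat_lit 2863) (.e (nat_lit 65630) (nat_lit 14) (.e (nat_lit 401425) (nat_lit 2) (.e (nat_lit 196666) (nat_lit 13) (.e (nat_lit 65630) (nat_lit 14) (.e (nat_lit 401412) (nat_lit 0) (.e (nat_lit 3138) (nat_lit 193) (.e (nat_lit 500059) (nat_lit 18) .nil))))))) (.g (nat_lit 1) (.e (nat_lit 263407) (nat_lit 0) .nil) .nil))) 
(.lf (nat_lit 538433) (.g (nat_lit 2934) (.e (nat_lit 73747) (nat_lit 3) (.e (nat_lit 516119) (nat_lit 1) (.e (nat_lit 164179) (nat_lit 154) (.e (nat_lit 57377) (nat_lit 3) (.e (nat_lit 98342) (nat_lit 20) (.e (nat_lit 221212) (nat_lit 22) (.e (nat_lit 196669) (nat_lit 14) .nil))))))) (.g (nat_lit 1) (.e (nat_lit 266045) (nat_lit 0) .nil) .nil))))) (.nd (nat_lit 8) (.nd (nat_lit 9) 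
(.lf (nat_lit 537793) (.g (nat_lit 978) (.e (nat_lit 65620) (nat_lit 10) (.e (nat_lit 344157) (nat_lit 36) (.e (nat_lit 638999) (nat_lit 8) (.e (nat_lit 172112) (nat_lit 10) (.e (nat_lit 434266) (nat_lit 35) (.e (nat_lit 630821) (nat_lit 16) .nil)))))) (.g (nat_lit 1) (.e (nat_lit 263116) (nat_lit 0) .nil) .nil))) 
(.lf (nat_lit 538305) (.g (nat_lit 4242) (.e (nat_lit 73746) (nat_lit 3) (.e (nat_lit 516120) (nat_lit 1) (.e (nat_lit 164182) (nat_lit 154) (.e (nat_lit 57379) (nat_lit 3) (.e (nat_lit 98342) (nat_lit 20) (.e (nat_lit 221212) (nat_lit 22) (.e (nat_lit 196668) (nat_lit 14) .nil))))))) (.g (nat_lit 1) (.e (nat_lit 265422) (nat_lit 0) .nil) .nil)))) (.nd (nat_lit 9) 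
(.lf (nat_lit 538049) (.g (nat_lit 1453) (.e (nat_lit 73472) (nat_lit 18) (.e (nat_lit 204862) (nat_lit 27) (.e (nat_lit 344129) (nat_lit 26) (.e (nat_lit 557067) (nat_lit 9) .nil)))) (.g (nat_lit 0) (.e (nat_lit 263857) (nat_lit 0) .nil) .nil))) 
(.lf (nat_lit 538561) (.g (nat_lit 486) (.e (nat_lit 73753) (nat_lit 8) (.e (nat_lit 557098) (nat_lit 13) (.e (nat_lit 172067) (nat_lit 3) .nil))) (.g (nat_lit 0) (.e (nat_lit 266420) (nat_lit 0) .nil) .nil))))))) (.nd (nat_lit 6) (.nd (nat_lit 7) (.nd (nat_lit 8) (.nd (nat_lit 9) 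
(.lf (nat_lit 537633) (.g (nat_lit 3969) (.e (nat_lit 65619) (nat_lit 10) (.e (nat_lit 344117) (nat_lit 21) (.e (nat_lit 516151) (nat_lit 9) (.e (nat_lit 426037) (nat_lit 0) (.e (nat_lit 2458) (nat_lit 157) (.e (nat_lit 5547) (nat_lit 306) (.e (nat_lit 2610) (nat_lit 163) (.e (nat_lit 163978) (nat_lit 30) (.e (nat_lit 573479) (nat_lit 13) .nil))))))))) (.g (nat_lit 1) (.e (nat_lit 262916) (nat_lit 0) .nil) .nil))) 
(.lf (nat_lit 538145) (.g (nat_lit 1012) (.e (nat_lit 73472) (nat_lit 34) (.e (nat_lit 483383) (nat_lit 23) (.e (nat_lit 336019) (nat_lit 3) (.e (nat_lit 98333) (nat_lit 18) .nil)))) (.g (nat_lit 0) (.e (nat_lit 264528) (nat_lit 0) .nil) .nil)))) (.nd (nat_lit 9) 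
(.lf (nat_lit 537889) (.g (nat_lit 2553) (.e (nat_lit 65628) (nat_lit 14) (.e (nat_lit 401428) (nat_lit 3) (.e (nat_lit 204869) (nat_lit 29) (.e (nat_lit 360448) (nat_lit 0) (.e (nat_lit 3927) (nat_lit 239) .nil))))) (.g (nat_lit 0) (.e (nat_lit 263350) (nat_lit 0) .nil) .nil))) 
(.lf (nat_lit 538401) (.g (nat_lit 2260) (.e (nat_lit 73747) (nat_lit 3) (.e (nat_lit 516098) (nat_lit 0) (.e (nat_lit 7593) (nat_lit 407) (.e (nat_lit 73739) (nat_lit 1) (.e (nat_lit 499910) (nat_lit 8) (.e (nat_lit 171776) (nat_lit 192) .nil)))))) (.g (nat_lit 1) (.e (nat_lit 265618) (nat_lit 0) .nil) .nil))))) (.nd (nat_lit 8) (.nd (nat_lit 9) 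
(.lf (nat_lit 537761) (.g (nat_lit 3141) (.e (nat_lit 65619) (nat_lit 10) (.e (nat_lit 344129) (nat_lit 26) (.e (nat_lit 557087) (nat_lit 11) (.e (nat_lit 24670) (nat_lit 15) .nil)))) (.g (nat_lit 0) (.e (nat_lit 263064) (nat_lit 0) .nil) .nil))) 
(.lf (nat_lit 538273) (.g (nat_lit 2637) (.e (nat_lit 73746) (nat_lit 3) (.e (nat_lit 516117) (nat_lit 1) (.e (nat_lit 164176) (nat_lit 154) (.e (nat_lit 57377) (nat_lit 3) (.e (nat_lit 98342) (nat_lit 20) (.e (nat_lit 221212) (nat_lit 22) (.e (nat_lit 196670) (nat_lit 14) .nil))))))) (.g (nat_lit 1) (.e (nat_lit 265220) (nat_lit 0) .nil) .nil)))) (.nd (nat_lit 9) 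
(.lf (nat_lit 538017) (.g (nat_lit 1145) (.e (nat_lit 65637) (nat_lit 15) (.e (nat_lit 3748) (nat_lit 228) (.e (nat_lit 786473) (nat_lit 27) (.e (nat_lit 336420) (nat_lit 28) .nil)))) (.g (nat_lit 0) (.e (nat_lit 263636) (nat_lit 0) .nil) .nil))) 
(.lf (nat_lit 538529) (.g (nat_lit 3099) (.e (nat_lit 73748) (nat_lit 3) (.e (nat_lit 516139) (nat_lit 7) (.e (nat_lit 409642) (nat_lit 17) (.e (nat_lit 294928) (nat_lit 2) (.e (nat_lit 90133) (nat_lit 9) (.e (nat_lit 2397) (nat_lit 157) (.e (nat_lit 7590) (nat_lit 407) .nil))))))) (.g (nat_lit 1) (.e (nat_lit 266269) (nat_lit 0) .nil) .nil)))))) (.nd (nat_lit 7) (.nd (nat_lit 8) (.nd (nat_lit 9) 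
(.lf (nat_lit 537697) (.g (nat_lit 2983) (.e (nat_lit 65619) (nat_lit 10) (.e (nat_lit 344138) (nat_lit 29) (.e (nat_lit 581653) (nat_lit 6) (.e (nat_lit 188439) (nat_lit 20) (.e (nat_lit 3579) (nat_lit 223) (.e (nat_lit 745491) (nat_lit 4) .nil)))))) (.g (nat_lit 1) (.e (nat_lit 262989) (nat_lit 0) .nil) .nil))) 
(.lf (nat_lit 538209) (.g (nat_lit 1489) (.e (nat_lit 81664) (nat_lit 5) (.e (nat_lit 532583) (nat_lit 26) (.e (nat_lit 426189) (nat_lit 9) (.e (nat_lit 426562) (nat_lit 33) (.e (nat_lit 392960) (nat_lit 5) .nil))))) (.g (nat_lit 0) (.e (nat_lit 264985) (nat_lit 0) .nil) .nil)))) (.nd (nat_lit 9) 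
(.lf (nat_lit 537953) (.g (nat_lit 1078) (.e (nat_lit 65630) (nat_lit 14) (.e (nat_lit 401428) (nat_lit 3) (.e (nat_lit 204868) (nat_lit 29) (.e (nat_lit 368384) (nat_lit 0) .nil)))) (.g (nat_lit 0) (.e (nat_lit 263450) (nat_lit 0) .nil) .nil))) 
(.lf (nat_lit 538465) (.g (nat_lit 4606) (.e (nat_lit 73747) (nat_lit 3) (.e (nat_lit 516131) (nat_lit 3) (.e (nat_lit 221215) (nat_lit 23) (.e (nat_lit 204830) (nat_lit 18) (.e (nat_lit 57927) (nat_lit 282) (.e (nat_lit 163869) (nat_lit 2) (.e (nat_lit 196668) (nat_lit 14) .nil))))))) (.g (nat_lit 1) (.e (nat_lit 266170) (nat_lit 0) .nil) .nil))))) (.nd (nat_lit 8) (.nd (nat_lit 9) 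
(.lf (nat_lit 537825) (.g (nat_lit 1874) (.e (nat_lit 65623) (nat_lit 12) (.e (nat_lit 385106) (nat_lit 50) (.e (nat_lit 786478) (nat_lit 29) (.e (nat_lit 352318) (nat_lit 24) (.e (nat_lit 123182) (nat_lit 264) .nil))))) (.g (nat_lit 0) (.e (nat_lit 263209) (nat_lit 0) .nil) .nil))) 
(.lf (nat_lit 538337) (.g (nat_lit 2373) (.e (nat_lit 73746) (nat_lit 3) (.e (nat_lit 516131) (nat_lit 3) (.e (nat_lit 221214) (nat_lit 23) (.e (nat_lit 204829) (nat_lit 18) (.e (nat_lit 57931) (nat_lit 282) (.e (nat_lit 163866) (nat_lit 2) (.e (nat_lit 196670) (nat_lit 14) .nil))))))) (.g (nat_lit 1) (.e (nat_lit 265529) (nat_lit 0) .nil) .nil)))) (.nd (nat_lit 9) 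
(.lf (nat_lit 538081) (.g (nat_lit 2229) (.e (nat_lit 65652) (nat_lit 27) (.e (nat_lit 426163) (nat_lit 6) (.e (nat_lit 253991) (nat_lit 11) (.e (nat_lit 16411) (nat_lit 2) .nil)))) (.g (nat_lit 0) (.e (nat_lit 264172) (nat_lit 0) .nil) .nil))) 
(.lf (nat_lit 538593) (.g (nat_lit 3713) (.e (nat_lit 73753) (nat_lit 8) (.e (nat_lit 557103) (nat_lit 14) (.e (nat_lit 180250) (nat_lit 10) (.e (nat_lit 573475) (nat_lit 12) (.e (nat_lit 57504) (nat_lit 38) (.e (nat_lit 638995) (nat_lit 7) (.e (nat_lit 163979) (nat_lit 30) (.e (nat_lit 573488) (nat_lit 14) .nil)))))))) (.g (nat_lit 1) (.e (nat_lit 266530) (nat_lit 0) .nil) .nil)))))))) 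
(.nd (nat_lit 5) (.nd (nat_lit 6) (.nd (nat_lit 7) (.nd (nat_lit 8) (.nd (nat_lit 9) 
(.lf (nat_lit 537617) (.g (nat_lit 2207) (.e (nat_lit 65619) (nat_lit 10) (.e (nat_lit 344117) (nat_lit 21) (.e (nat_lit 516146) (nat_lit 9) (.e (nat_lit 426442) (nat_lit 19) .nil)))) (.g (nat_lit 0) (.e (nat_lit 262900) (nat_lit 0) .nil) .nil))) 
(.lf (nat_lit 538129) (.g (nat_lit 2341) (.e (nat_lit 65653) (nat_lit 27) (.e (nat_lit 426344) (nat_lit 14) (.e (nat_lit 491552) (nat_lit 9) (.e (nat_lit 336412) (nat_lit 27) (.e (nat_lit 426012) (nat_lit 0) (.e (nat_lit 7587) (nat_lit 406) .nil)))))) (.g (nat_lit 1) (.e (nat_lit 264297) (nat_lit 0) .nil) .nil)))) (.nd (nat_lit 9) 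
(.lf (nat_lit 537873) (.g (nat_lit 3951) (.e (nat_lit 65628) (nat_lit 14) (.e (nat_lit 401428) (nat_lit 3) (.e (nat_lit 204816) (nat_lit 17) (.e (nat_lit 6203) (nat_lit 332) (.e (nat_lit 2798) (nat_lit 180) (.e (nat_lit 303117) (nat_lit 2) (.e (nat_lit 196665) (nat_lit 13) .nil))))))) (.g (nat_lit 1) (.e (nat_lit 263332) (nat_lit 0) .nil) .nil))) 
(.lf (nat_lit 538385) (.g (nat_lit 3475) (.e (nat_lit 73746) (nat_lit 3) (.e (nat_lit 516185) (nat_lit 16) (.e (nat_lit 491560) (nat_lit 10) (.e (nat_lit 344117) (nat_lit 21) (.e (nat_lit 516106) (nat_lit 0) (.e (nat_lit 7936) (nat_lit 407) .nil)))))) (.g (nat_lit 1) (.e (nat_lit 265599) (nat_lit 0) .nil) .nil))))) (.nd (nat_lit 8) (.nd (nat_lit 9) 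
(.lf (nat_lit 537745) (.g (nat_lit 4443) (.e (nat_lit 65619) (nat_lit 10) (.e (nat_lit 344129) (nat_lit 26) (.e (nat_lit 557087) (nat_lit 11) (.e (nat_lit 24623) (nat_lit 9) (.e (nat_lit 336295) (nat_lit 15) (.e (nat_lit 3305) (nat_lit 202) (.e (nat_lit 573485) (nat_lit 13) .nil))))))) (.g (nat_lit 1) (.e (nat_lit 263048) (nat_lit 0) .nil) .nil))) 
(.lf (nat_lit 538257) (.g (nat_lit 5018) (.e (nat_lit 73746) (nat_lit 3) (.e (nat_lit 516115) (nat_lit 1) (.e (nat_lit 164179) (nat_lit 154) (.e (nat_lit 57377) (nat_lit 3) (.e (nat_lit 98342) (nat_lit 20) (.e (nat_lit 221212) (nat_lit 22) (.e (nat_lit 196670) (nat_lit 14) .nil))))))) (.g (nat_lit 1) (.e (nat_lit 265133) (nat_lit 0) .nil) .nil)))) (.nd (nat_lit 9) 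
(.lf (nat_lit 538001) (.g (nat_lit 3556) (.e (nat_lit 65637) (nat_lit 15) (.e (nat_lit 3305) (nat_lit 202) (.e (nat_lit 573485) (nat_lit 13) (.e (nat_lit 65604) (nat_lit 9) (.e (nat_lit 336013) (nat_lit 2) (.e (nat_lit 90165) (nat_lit 12) (.e (nat_lit 171776) (nat_lit 191) .nil))))))) (.g (nat_lit 1) (.e (nat_lit 263596) (nat_lit 0) .nil) .nil))) 
(.lf (nat_lit 538513) (.g (nat_lit 1394) (.e (nat_lit 73748) (nat_lit 3) (.e (nat_lit 516131) (nat_lit 3) (.e (nat_lit 221215) (nat_lit 23) (.e (nat_lit 204829) (nat_lit 18) .nil)))) (.g (nat_lit 0) (.e (nat_lit 266249) (nat_lit 0) .nil) .nil)))))) (.nd (nat_lit 7) (.nd (nat_lit 8) (.nd (nat_lit 9) 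
(.lf (nat_lit 537681) (.g (nat_lit 1973) (.e (nat_lit 65619) (nat_lit 10) (.e (nat_lit 344117) (nat_lit 21) (.e (nat_lit 516170) (nat_lit 13) (.e (nat_lit 458804) (nat_lit 38) (.e (nat_lit 655373) (nat_lit 3) .nil))))) (.g (nat_lit 0) (.e (nat_lit 262965) (nat_lit 0) .nil) .nil))) 
(.lf (nat_lit 538193) (.g (nat_lit 2190) (.e (nat_lit 73739) (nat_lit 1) (.e (nat_lit 499848) (nat_lit 5) (.e (nat_lit 3102) (nat_lit 192) (.e (nat_lit 491558) (nat_lit 10) (.e (nat_lit 344115) (nat_lit 20) (.e (nat_lit 507906) (nat_lit 0) (.e (nat_lit 5412) (nat_lit 303) .nil))))))) (.g (nat_lit 1) (.e (nat_lit 264922) (nat_lit 0) .nil) .nil)))) (.nd (nat_lit 9) 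
(.lf (nat_lit 537937) (.g (nat_lit 3228) (.e (nat_lit 65630) (nat_lit 14) (.e (nat_lit 401428) (nat_lit 3) (.e (nat_lit 204861) (nat_lit 26) (.e (nat_lit 336075) (nat_lit 9) (.e (nat_lit 336240) (nat_lit 15) (.e (nat_lit 3309) (nat_lit 202) (.e (nat_lit 573485) (nat_lit 13) .nil))))))) (.g (nat_lit 1) (.e (nat_lit 263433) (nat_lit 0) .nil) .nil))) 
(.lf (nat_lit 538449) (.g (nat_lit 3777) (.e (nat_lit 73747) (nat_lit 3) (.e (nat_lit 516129) (nat_lit 3) (.e (nat_lit 221214) (nat_lit 23) (.e (nat_lit 204829) (nat_lit 18) (.e (nat_lit 57927) (nat_lit 282) (.e (nat_lit 163867) (nat_lit 2) (.e (nat_lit 196668) (nat_lit 14) .nil))))))) (.g (nat_lit 1) (.e (nat_lit 266148) (nat_lit 0) .nil) .nil))))) (.nd (nat_lit 8) (.nd (nat_lit 9) 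
(.lf (nat_lit 537809) (.g (nat_lit 1540) (.e (nat_lit 65622) (nat_lit 12) (.e (nat_lit 385106) (nat_lit 50) (.e (nat_lit 786480) (nat_lit 29) (.e (nat_lit 352303) (nat_lit 20) .nil)))) (.g (nat_lit 0) (.e (nat_lit 263153) (nat_lit 0) .nil) .nil))) 
(.lf (nat_lit 538321) (.g (nat_lit 4113) (.e (nat_lit 73746) (nat_lit 3) (.e (nat_lit 516129) (nat_lit 3) (.e (nat_lit 221214) (nat_lit 23) (.e (nat_lit 204830) (nat_lit 18) (.e (nat_lit 57926) (nat_lit 282) (.e (nat_lit 163871) (nat_lit 2) (.e (nat_lit 196668) (nat_lit 14) .nil))))))) (.g (nat_lit 1) (.e (nat_lit 265508) (nat_lit 0) .nil) .nil)))) (.nd (nat_lit 9) 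
(.lf (nat_lit 538065) (.g (nat_lit 552) (.e (nat_lit 65648) (nat_lit 26) (.e (nat_lit 417796) (nat_lit 0) (.e (nat_lit 5401) (nat_lit 302) (.e (nat_lit 65647) (nat_lit 25) .nil)))) (.g (nat_lit 0) (.e (nat_lit 264122) (nat_lit 0) .nil) .nil))) 
(.lf (nat_lit 538577) (.g (nat_lit 3499) (.e (nat_lit 73753) (nat_lit 8) (.e (nat_lit 557103) (nat_lit 14) (.e (nat_lit 180244) (nat_lit 5) (.e (nat_lit 532501) (nat_lit 1) (.e (nat_lit 65280) (nat_lit 168) (.e (nat_lit 163871) (nat_lit 2) (.e (nat_lit 196668) (nat_lit 14) .nil))))))) (.g (nat_lit 1) (.e (nat_lit 266500) (nat_lit 0) .nil) .nil))))))) 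
(.nd (nat_lit 6) (.nd (nat_lit 7) (.nd (nat_lit 8) (.nd (nat_lit 9) 
(.lf (nat_lit 537649) (.g (nat_lit 3050) (.e (nat_lit 65619) (nat_lit 10) (.e (nat_lit 344117) (nat_lit 21) (.e (nat_lit 516151) (nat_lit 9) (.e (nat_lit 426104) (nat_lit 1) (.e (nat_lit 164346) (nat_lit 240) (.e (nat_lit 2610) (nat_lit 163) (.e (nat_lit 163978) (nat_lit 30) (.e (nat_lit 573479) (nat_lit 13) .nil)))))))) (.g (nat_lit 1) (.e (nat_lit 262932) (nat_lit 0) .nil) .nil))) 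
(.lf (nat_lit 538161) (.g (nat_lit 1067) (.e (nat_lit 73472) (nat_lit 34) (.e (nat_lit 483413) (nat_lit 27) (.e (nat_lit 401427) (nat_lit 3) .nil))) (.g (nat_lit 0) (.e (nat_lit 264663) (nat_lit 0) .nil) .nil)))) (.nd (nat_lit 9) 
(.lf (nat_lit 537905) (.g (nat_lit 638) (.e (nat_lit 65630) (nat_lit 14) (.e (nat_lit 401425) (nat_lit 2) (.e (nat_lit 196661) (nat_lit 12) .nil))) (.g (nat_lit 0) (.e (nat_lit 263391) (nat_lit 0) .nil) .nil))) 
(.lf (nat_lit 538417) (.g (nat_lit 2906) (.e (nat_lit 73747) (nat_lit 3) (.e (nat_lit 516116) (nat_lit 1) (.e (nat_lit 164182) (nat_lit 154) (.e (nat_lit 57379) (nat_lit 3) (.e (nat_lit 98341) (nat_lit 20) (.e (nat_lit 221212) (nat_lit 22) (.e (nat_lit 196668) (nat_lit 14) .nil))))))) (.g (nat_lit 1) (.e (nat_lit 265882) (nat_lit 0) .nil) .nil))))) (.nd (nat_lit 8) (.nd (nat_lit 9) 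
(.lf (nat_lit 537777) (.g (nat_lit 914) (.e (nat_lit 65619) (nat_lit 10) (.e (nat_lit 344160) (nat_lit 37) (.e (nat_lit 647195) (nat_lit 9) (.e (nat_lit 7936) (nat_lit 34) .nil)))) (.g (nat_lit 0) (.e (nat_lit 263092) (nat_lit 0) .nil) .nil))) 
(.lf (nat_lit 538289) (.g (nat_lit 2365) (.e (nat_lit 73746) (nat_lit 3) (.e (nat_lit 516119) (nat_lit 1) (.e (nat_lit 164180) (nat_lit 154) (.e (nat_lit 57378) (nat_lit 3) (.e (nat_lit 98340) (nat_lit 20) .nil))))) (.g (nat_lit 0) (.e (nat_lit 265362) (nat_lit 0) .nil) .nil)))) (.nd (nat_lit 9) 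
(.lf (nat_lit 538033) (.g (nat_lit 377) (.e (nat_lit 65642) (nat_lit 15) (.e (nat_lit 3748) (nat_lit 228) (.e (nat_lit 786473) (nat_lit 27) .nil))) (.g (nat_lit 0) (.e (nat_lit 263741) (nat_lit 0) .nil) .nil))) 
(.lf (nat_lit 538545) (.g (nat_lit 626) (.e (nat_lit 73753) (nat_lit 8) (.e (nat_lit 557087) (nat_lit 11) (.e (nat_lit 24645) (nat_lit 11) .nil))) (.g (nat_lit 0) (.e (nat_lit 266382) (nat_lit 0) .nil) .nil)))))) (.nd (nat_lit 7) (.nd (nat_lit 8) (.nd (nat_lit 9) 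
(.lf (nat_lit 537713) (.g (nat_lit 2158) (.e (nat_lit 65619) (nat_lit 10) (.e (nat_lit 344129) (nat_lit 26) (.e (nat_lit 557066) (nat_lit 9) (.e (nat_lit 315) (nat_lit 23) (.e (nat_lit 352266) (nat_lit 0) .nil))))) (.g (nat_lit 0) (.e (nat_lit 263012) (nat_lit 0) .nil) .nil))) 
(.lf (nat_lit 538225) (.g (nat_lit 788) (.e (nat_lit 73750) (nat_lit 6) (.e (nat_lit 540724) (nat_lit 28) (.e (nat_lit 442395) (nat_lit 20) (.e (nat_lit 3571) (nat_lit 222) (.e (nat_lit 737283) (nat_lit 0) (.e (nat_lit 5413) (nat_lit 303) .nil)))))) (.g (nat_lit 1) (.e (nat_lit 265025) (nat_lit 0) .nil) .nil)))) (.nd (nat_lit 9) 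
(.lf (nat_lit 537969) (.g (nat_lit 2765) (.e (nat_lit 65636) (nat_lit 15) (.e (nat_lit 3302) (nat_lit 202) (.e (nat_lit 573482) (nat_lit 13) (.e (nat_lit 65619) (nat_lit 10) (.e (nat_lit 344115) (nat_lit 20) (.e (nat_lit 507907) (nat_lit 0) (.e (nat_lit 5405) (nat_lit 302) .nil))))))) (.g (nat_lit 1) (.e (nat_lit 263510) (nat_lit 0) .nil) .nil))) 
(.lf (nat_lit 538481) (.g (nat_lit 3407) (.e (nat_lit 73747) (nat_lit 3) (.e (nat_lit 516139) (nat_lit 7) (.e (nat_lit 409648) (nat_lit 18) (.e (nat_lit 303117) (nat_lit 2) (.e (nat_lit 196661) (nat_lit 12) (.e (nat_lit 65280) (nat_lit 192) .nil)))))) (.g (nat_lit 1) (.e (nat_lit 266188) (nat_lit 0) .nil) .nil))))) (.nd (nat_lit 8) (.nd (nat_lit 9) 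
(.lf (nat_lit 537841) (.g (nat_lit 823) (.e (nat_lit 65625) (nat_lit 13) (.e (nat_lit 393298) (nat_lit 27) (.e (nat_lit 491552) (nat_lit 9) .nil))) (.g (nat_lit 0) (.e (nat_lit 263247) (nat_lit 0) .nil) .nil))) 
(.lf (nat_lit 538353) (.g (nat_lit 4762) (.e (nat_lit 73746) (nat_lit 3) (.e (nat_lit 516131) (nat_lit 3) (.e (nat_lit 221215) (nat_lit 23) (.e (nat_lit 204830) (nat_lit 18) (.e (nat_lit 57927) (nat_lit 282) (.e (nat_lit 163869) (nat_lit 2) (.e (nat_lit 196670) (nat_lit 14) .nil))))))) (.g (nat_lit 1) (.e (nat_lit 265547) (nat_lit 0) .nil) .nil)))) (.nd (nat_lit 9) 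
(.lf (nat_lit 538097) (.g (nat_lit 209) (.e (nat_lit 65653) (nat_lit 27) (.e (nat_lit 426182) (nat_lit 8) (.e (nat_lit 425728) (nat_lit 10) .nil))) (.g (nat_lit 0) (.e (nat_lit 264224) (nat_lit 0) .nil) .nil))) 
(.lf (nat_lit 538609) (.g (nat_lit 718) (.e (nat_lit 73753) (nat_lit 8) (.e (nat_lit 557104) (nat_lit 14) (.e (nat_lit 180251) (nat_lit 10) .nil))) (.g (nat_lit 0) (.e (nat_lit 266551) (nat_lit 0) .nil) .nil))))))))) (.nd (nat_lit 4) (.nd (nat_lit 5) (.nd (nat_lit 6) (.nd (nat_lit 7) (.nd (nat_lit 8) (.nd (nat_lit 9) 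
(.lf (nat_lit 537609) (.g (nat_lit 2585) (.e (nat_lit 65619) (nat_lit 10) (.e (nat_lit 344117) (nat_lit 21) (.e (nat_lit 516145) (nat_lit 9) (.e (nat_lit 426379) (nat_lit 15) (.e (nat_lit 2057) (nat_lit 142) .nil))))) (.g (nat_lit 0) (.e (nat_lit 262892) (nat_lit 0) .nil) .nil))) 
(.lf (nat_lit 538121) (.g (nat_lit 3118) (.e (nat_lit 65653) (nat_lit 27) (.e (nat_lit 426343) (nat_lit 14) (.e (nat_lit 491552) (nat_lit 9) (.e (nat_lit 336412) (nat_lit 27) (.e (nat_lit 426011) (nat_lit 0) (.e (nat_lit 7587) (nat_lit 406) .nil)))))) (.g (nat_lit 1) (.e (nat_lit 264288) (nat_lit 0) .nil) .nil)))) (.nd (nat_lit 9) 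
(.lf (nat_lit 537865) (.g (nat_lit 2604) (.e (nat_lit 65628) (nat_lit 14) (.e (nat_lit 401425) (nat_lit 2) (.e (nat_lit 196666) (nat_lit 13) (.e (nat_lit 65629) (nat_lit 14) (.e (nat_lit 401412) (nat_lit 0) .nil))))) (.g (nat_lit 0) (.e (nat_lit 263320) (nat_lit 0) .nil) .nil))) 
(.lf (nat_lit 538377) (.g (nat_lit 5725) (.e (nat_lit 73746) (nat_lit 3) (.e (nat_lit 516166) (nat_lit 12) (.e (nat_lit 450588) (nat_lit 10) (.e (nat_lit 573477) (nat_lit 12) .nil)))) (.g (nat_lit 0) (.e (nat_lit 265587) (nat_lit 0) .nil) .nil))))) (.nd (nat_lit 8) (.nd (nat_lit 9) 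
(.lf (nat_lit 537737) (.g (nat_lit 3141) (.e (nat_lit 65619) (nat_lit 10) (.e (nat_lit 344129) (nat_lit 26) (.e (nat_lit 557087) (nat_lit 11) (.e (nat_lit 24600) (nat_lit 1) .nil)))) (.g (nat_lit 0) (.e (nat_lit 263040) (nat_lit 0) .nil) .nil))) 
(.lf (nat_lit 538249) (.g (nat_lit 3516) (.e (nat_lit 73746) (nat_lit 3) (.e (nat_lit 516102) (nat_lit 0) (.e (nat_lit 6989) (nat_lit 377) (.e (nat_lit 2777) (nat_lit 178) (.e (nat_lit 286735) (nat_lit 3) (.e (nat_lit 98323) (nat_lit 17) (.e (nat_lit 7936) (nat_lit 407) .nil))))))) (.g (nat_lit 1) (.e (nat_lit 265059) (nat_lit 0) .nil) .nil)))) (.nd (nat_lit 9) 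
(.lf (nat_lit 537993) (.g (nat_lit 3360) (.e (nat_lit 65637) (nat_lit 15) (.e (nat_lit 3305) (nat_lit 202) (.e (nat_lit 573482) (nat_lit 13) (.e (nat_lit 65604) (nat_lit 9) (.e (nat_lit 336013) (nat_lit 2) (.e (nat_lit 90165) (nat_lit 12) (.e (nat_lit 171776) (nat_lit 191) .nil))))))) (.g (nat_lit 1) (.e (nat_lit 263578) (nat_lit 0) .nil) .nil))) 
(.lf (nat_lit 538505) (.g (nat_lit 2308) (.e (nat_lit 73748) (nat_lit 3) (.e (nat_lit 516129) (nat_lit 3) (.e (nat_lit 221214) (nat_lit 23) (.e (nat_lit 204831) (nat_lit 18) (.e (nat_lit 57931) (nat_lit 282) .nil))))) (.g (nat_lit 0) (.e (nat_lit 266233) (nat_lit 0) .nil) .nil)))))) (.nd (nat_lit 7) (.nd (nat_lit 8) (.nd (nat_lit 9) 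
(.lf (nat_lit 537673) (.g (nat_lit 2847) (.e (nat_lit 65619) (nat_lit 10) (.e (nat_lit 344117) (nat_lit 21) (.e (nat_lit 516160) (nat_lit 10) (.e (nat_lit 434271) (nat_lit 38) (.e (nat_lit 655375) (nat_lit 3) (.e (nat_lit 163978) (nat_lit 30) (.e (nat_lit 573483) (nat_lit 13) .nil))))))) (.g (nat_lit 1) (.e (nat_lit 262957) (nat_lit 0) .nil) .nil))) 
(.lf (nat_lit 538185) (.g (nat_lit 2225) (.e (nat_lit 73739) (nat_lit 1) (.e (nat_lit 499833) (nat_lit 5) (.e (nat_lit 3102) (nat_lit 192) (.e (nat_lit 491558) (nat_lit 10) (.e (nat_lit 344115) (nat_lit 20) (.e (nat_lit 507906) (nat_lit 0) (.e (nat_lit 5412) (nat_lit 303) .nil))))))) (.g (nat_lit 1) (.e (nat_lit 264914) (nat_lit 0) .nil) .nil)))) (.nd (nat_lit 9) 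
(.lf (nat_lit 537929) (.g (nat_lit 3553) (.e (nat_lit 65630) (nat_lit 14) (.e (nat_lit 401425) (nat_lit 2) (.e (nat_lit 196681) (nat_lit 17) (.e (nat_lit 131123) (nat_lit 12) (.e (nat_lit 385074) (nat_lit 31) (.e (nat_lit 573480) (nat_lit 13) .nil)))))) (.g (nat_lit 1) (.e (nat_lit 263416) (nat_lit 0) .nil) .nil))) 
(.lf (nat_lit 538441) (.g (nat_lit 586) (.e (nat_lit 73747) (nat_lit 3) (.e (nat_lit 516119) (nat_lit 1) (.e (nat_lit 171776) (nat_lit 160) .nil))) (.g (nat_lit 0) (.e (nat_lit 266073) (nat_lit 0) .nil) .nil))))) (.nd (nat_lit 8) (.nd (nat_lit 9) 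
(.lf (nat_lit 537801) (.g (nat_lit 860) (.e (nat_lit 65622) (nat_lit 12) (.e (nat_lit 385068) (nat_lit 26) (.e (nat_lit 532515) (nat_lit 3) (.e (nat_lit 122624) (nat_lit 12) .nil)))) (.g (nat_lit 0) (.e (nat_lit 263129) (nat_lit 0) .nil) .nil))) 
(.lf (nat_lit 538313) (.g (nat_lit 2262) (.e (nat_lit 73746) (nat_lit 3) (.e (nat_lit 516129) (nat_lit 3) (.e (nat_lit 221210) (nat_lit 22) (.e (nat_lit 196630) (nat_lit 9) (.e (nat_lit 1183) (nat_lit 87) .nil))))) (.g (nat_lit 0) (.e (nat_lit 265498) (nat_lit 0) .nil) .nil)))) (.nd (nat_lit 9) 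
(.lf (nat_lit 538057) (.g (nat_lit 1270) (.e (nat_lit 73472) (nat_lit 18) (.e (nat_lit 204863) (nat_lit 27) (.e (nat_lit 344133) (nat_lit 26) (.e (nat_lit 557098) (nat_lit 13) .nil)))) (.g (nat_lit 0) (.e (nat_lit 263865) (nat_lit 0) .nil) .nil))) 
(.lf (nat_lit 538569) (.g (nat_lit 455) (.e (nat_lit 73753) (nat_lit 8) (.e (nat_lit 557100) (nat_lit 13) (.e (nat_lit 172138) (nat_lit 15) .nil))) (.g (nat_lit 0) (.e (nat_lit 266437) (nat_lit 0) .nil) .nil))))))) (.nd (nat_lit 6) (.nd (nat_lit 7) (.nd (nat_lit 8) (.nd (nat_lit 9) 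
(.lf (nat_lit 537641) (.g (nat_lit 3137) (.e (nat_lit 65619) (nat_lit 10) (.e (nat_lit 344117) (nat_lit 21) (.e (nat_lit 516151) (nat_lit 9) (.e (nat_lit 426050) (nat_lit 0) .nil)))) (.g (nat_lit 0) (.e (nat_lit 262924) (nat_lit 0) .nil) .nil))) 
(.lf (nat_lit 538153) (.g (nat_lit 424) (.e (nat_lit 73472) (nat_lit 34) (.e (nat_lit 483406) (nat_lit 26) (.e (nat_lit 385066) (nat_lit 26) .nil))) (.g (nat_lit 0) (.e (nat_lit 264604) (nat_lit 0) .nil) .nil)))) (.nd (nat_lit 9) 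
(.lf (nat_lit 537897) (.g (nat_lit 2285) (.e (nat_lit 65628) (nat_lit 14) (.e (nat_lit 401437) (nat_lit 9) (.e (nat_lit 426540) (nat_lit 29) (.e (nat_lit 352307) (nat_lit 21) (.e (nat_lit 57873) (nat_lit 264) .nil))))) (.g (nat_lit 0) (.e (nat_lit 263374) (nat_lit 0) .nil) .nil))) 
(.lf (nat_lit 538409) (.g (nat_lit 739) (.e (nat_lit 73747) (nat_lit 3) (.e (nat_lit 516115) (nat_lit 1) (.e (nat_lit 164178) (nat_lit 154) .nil))) (.g (nat_lit 0) (.e (nat_lit 265647) (nat_lit 0) .nil) .nil))))) (.nd (nat_lit 8) (.nd (nat_lit 9) 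
(.lf (nat_lit 537769) (.g (nat_lit 3286) (.e (nat_lit 65619) (nat_lit 10) (.e (nat_lit 344129) (nat_lit 26) (.e (nat_lit 557090) (nat_lit 12) (.e (nat_lit 163849) (nat_lit 0) .nil)))) (.g (nat_lit 0) (.e (nat_lit 263072) (nat_lit 0) .nil) .nil))) 
(.lf (nat_lit 538281) (.g (nat_lit 772) (.e (nat_lit 73746) (nat_lit 3) (.e (nat_lit 516117) (nat_lit 1) (.e (nat_lit 164200) (nat_lit 164) .nil))) (.g (nat_lit 0) (.e (nat_lit 265278) (nat_lit 0) .nil) .nil)))) (.nd (nat_lit 9) 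
(.lf (nat_lit 538025) (.g (nat_lit 3552) (.e (nat_lit 65640) (nat_lit 15) (.e (nat_lit 3305) (nat_lit 202) (.e (nat_lit 573485) (nat_lit 13) (.e (nat_lit 65619) (nat_lit 10) (.e (nat_lit 344117) (nat_lit 21) (.e (nat_lit 516106) (nat_lit 0) (.e (nat_lit 7936) (nat_lit 406) .nil))))))) (.g (nat_lit 1) (.e (nat_lit 263666) (nat_lit 0) .nil) .nil))) 
(.lf (nat_lit 538537) (.g (nat_lit 1693) (.e (nat_lit 73757) (nat_lit 11) (.e (nat_lit 581651) (nat_lit 4) (.e (nat_lit 172094) (nat_lit 9) (.e (nat_lit 426025) (nat_lit 0) (.e (nat_lit 3569) (nat_lit 222) (.e (nat_lit 737283) (nat_lit 0) (.e (nat_lit 5412) (nat_lit 303) .nil))))))) (.g (nat_lit 1) (.e (nat_lit 266326) (nat_lit 0) .nil) .nil)))))) 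
(.nd (nat_lit 7) (.nd (nat_lit 8) (.nd (nat_lit 9) 
(.lf (nat_lit 537705) (.g (nat_lit 1377) (.e (nat_lit 65619) (nat_lit 10) (.e (nat_lit 344129) (nat_lit 26) (.e (nat_lit 557065) (nat_lit 9) (.e (nat_lit 334) (nat_lit 26) .nil)))) (.g (nat_lit 0) (.e (nat_lit 262998) (nat_lit 0) .nil) .nil))) 
(.lf (nat_lit 538217) (.g (nat_lit 1230) (.e (nat_lit 81664) (nat_lit 5) (.e (nat_lit 532583) (nat_lit 26) (.e (nat_lit 426199) (nat_lit 9) (.e (nat_lit 426560) (nat_lit 33) (.e (nat_lit 392960) (nat_lit 5) .nil))))) (.g (nat_lit 0) (.e (nat_lit 264995) (nat_lit 0) .nil) .nil)))) (.nd (nat_lit 9) 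
(.lf (nat_lit 537961) (.g (nat_lit 3168) (.e (nat_lit 65630) (nat_lit 14) (.e (nat_lit 401437) (nat_lit 9) (.e (nat_lit 426542) (nat_lit 29) (.e (nat_lit 352287) (nat_lit 20) (.e (nat_lit 1999) (nat_lit 137) (.e (nat_lit 663567) (nat_lit 4) .nil)))))) (.g (nat_lit 1) (.e (nat_lit 263479) (nat_lit 0) .nil) .nil))) 
(.lf (nat_lit 538473) (.g (nat_lit 4152) (.e (nat_lit 73747) (nat_lit 3) (.e (nat_lit 516139) (nat_lit 7) (.e (nat_lit 409616) (nat_lit 10) (.e (nat_lit 5355) (nat_lit 298) (.e (nat_lit 1235) (nat_lit 91) (.e (nat_lit 90133) (nat_lit 9) (.e (nat_lit 2397) (nat_lit 157) (.e (nat_lit 7590) (nat_lit 407) .nil)))))))) (.g (nat_lit 1) (.e (nat_lit 266180) (nat_lit 0) .nil) .nil))))) 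
(.nd (nat_lit 8) (.nd (nat_lit 9) 
(.lf (nat_lit 537833) (.g (nat_lit 2679) (.e (nat_lit 65624) (nat_lit 12) (.e (nat_lit 385074) (nat_lit 31) (.e (nat_lit 573492) (nat_lit 15) (.e (nat_lit 89856) (nat_lit 0) .nil)))) (.g (nat_lit 0) (.e (nat_lit 263227) (nat_lit 0) .nil) .nil))) 
(.lf (nat_lit 538345) (.g (nat_lit 3966) (.e (nat_lit 73746) (nat_lit 3) (.e (nat_lit 516131) (nat_lit 3) (.e (nat_lit 221215) (nat_lit 23) (.e (nat_lit 204828) (nat_lit 18) (.e (nat_lit 57927) (nat_lit 282) (.e (nat_lit 163869) (nat_lit 2) (.e (nat_lit 196670) (nat_lit 14) .nil))))))) (.g (nat_lit 1) (.e (nat_lit 265539) (nat_lit 0) .nil) .nil)))) (.nd (nat_lit 9) 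
(.lf (nat_lit 538089) (.g (nat_lit 2805) (.e (nat_lit 65652) (nat_lit 27) (.e (nat_lit 426347) (nat_lit 14) (.e (nat_lit 491569) (nat_lit 13) (.e (nat_lit 393234) (nat_lit 17) (.e (nat_lit 7587) (nat_lit 406) .nil))))) (.g (nat_lit 1) (.e (nat_lit 264183) (nat_lit 0) .nil) .nil))) 
(.lf (nat_lit 538601) (.g (nat_lit 3425) (.e (nat_lit 73753) (nat_lit 8) (.e (nat_lit 557103) (nat_lit 14) (.e (nat_lit 180252) (nat_lit 10) (.e (nat_lit 573475) (nat_lit 12) (.e (nat_lit 57503) (nat_lit 38) (.e (nat_lit 638995) (nat_lit 7) (.e (nat_lit 163978) (nat_lit 30) (.e (nat_lit 573487) (nat_lit 14) .nil)))))))) (.g (nat_lit 1) (.e (nat_lit 266538) (nat_lit 0) .nil) .nil)))))))) 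
(.nd (nat_lit 5) (.nd (nat_lit 6) (.nd (nat_lit 7) (.nd (nat_lit 8) (.nd (nat_lit 9) 
(.lf (nat_lit 537625) (.g (nat_lit 3150) (.e (nat_lit 65619) (nat_lit 10) (.e (nat_lit 344117) (nat_lit 21) (.e (nat_lit 516151) (nat_lit 9) (.e (nat_lit 426020) (nat_lit 0) .nil)))) (.g (nat_lit 0) (.e (nat_lit 262908) (nat_lit 0) .nil) .nil))) 
(.lf (nat_lit 538137) (.g (nat_lit 1654) (.e (nat_lit 73472) (nat_lit 27) (.e (nat_lit 426347) (nat_lit 14) (.e (nat_lit 491549) (nat_lit 9) (.e (nat_lit 336438) (nat_lit 31) (.e (nat_lit 466688) (nat_lit 4) .nil))))) (.g (nat_lit 0) (.e (nat_lit 264323) (nat_lit 0) .nil) .nil)))) (.nd (nat_lit 9) 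
(.lf (nat_lit 537881) (.g (nat_lit 4750) (.e (nat_lit 65628) (nat_lit 14) (.e (nat_lit 401428) (nat_lit 3) (.e (nat_lit 204861) (nat_lit 26) (.e (nat_lit 336194) (nat_lit 12) (.e (nat_lit 385074) (nat_lit 31) (.e (nat_lit 573482) (nat_lit 13) .nil)))))) (.g (nat_lit 1) (.e (nat_lit 263342) (nat_lit 0) .nil) .nil))) 
(.lf (nat_lit 538393) (.g (nat_lit 1351) (.e (nat_lit 73746) (nat_lit 3) (.e (nat_lit 524032) (nat_lit 33) (.e (nat_lit 401457) (nat_lit 13) (.e (nat_lit 483331) (nat_lit 0) (.e (nat_lit 7936) (nat_lit 407) .nil))))) (.g (nat_lit 1) (.e (nat_lit 265609) (nat_lit 0) .nil) .nil))))) (.nd (nat_lit 8) (.nd (nat_lit 9) 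
(.lf (nat_lit 537753) (.g (nat_lit 3062) (.e (nat_lit 65619) (nat_lit 10) (.e (nat_lit 344129) (nat_lit 26) (.e (nat_lit 557087) (nat_lit 11) (.e (nat_lit 24628) (nat_lit 9) (.e (nat_lit 336303) (nat_lit 15) .nil))))) (.g (nat_lit 0) (.e (nat_lit 263056) (nat_lit 0) .nil) .nil))) 
(.lf (nat_lit 538265) (.g (nat_lit 3037) (.e (nat_lit 73746) (nat_lit 3) (.e (nat_lit 516115) (nat_lit 1) (.e (nat_lit 164182) (nat_lit 154) (.e (nat_lit 57379) (nat_lit 3) (.e (nat_lit 98341) (nat_lit 20) (.e (nat_lit 221212) (nat_lit 22) (.e (nat_lit 196668) (nat_lit 14) .nil))))))) (.g (nat_lit 1) (.e (nat_lit 265171) (nat_lit 0) .nil) .nil)))) (.nd (nat_lit 9) 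
(.lf (nat_lit 538009) (.g (nat_lit 2826) (.e (nat_lit 65637) (nat_lit 15) (.e (nat_lit 3305) (nat_lit 202) (.e (nat_lit 573493) (nat_lit 15) (.e (nat_lit 81953) (nat_lit 22) (.e (nat_lit 90165) (nat_lit 12) (.e (nat_lit 171776) (nat_lit 191) .nil)))))) (.g (nat_lit 1) (.e (nat_lit 263608) (nat_lit 0) .nil) .nil))) 
(.lf (nat_lit 538521) (.g (nat_lit 2889) (.e (nat_lit 73748) (nat_lit 3) (.e (nat_lit 516139) (nat_lit 7) (.e (nat_lit 409646) (nat_lit 18) (.e (nat_lit 303117) (nat_lit 2) (.e (nat_lit 196661) (nat_lit 12) .nil))))) (.g (nat_lit 0) (.e (nat_lit 266259) (nat_lit 0) .nil) .nil)))))) (.nd (nat_lit 7) (.nd (nat_lit 8) (.nd (nat_lit 9) 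
(.lf (nat_lit 537689) (.g (nat_lit 1632) (.e (nat_lit 65619) (nat_lit 10) (.e (nat_lit 344119) (nat_lit 21) (.e (nat_lit 516146) (nat_lit 9) (.e (nat_lit 426444) (nat_lit 19) .nil)))) (.g (nat_lit 0) (.e (nat_lit 262975) (nat_lit 0) .nil) .nil))) 
(.lf (nat_lit 538201) (.g (nat_lit 1450) (.e (nat_lit 81664) (nat_lit 5) (.e (nat_lit 532579) (nat_lit 26) (.e (nat_lit 426188) (nat_lit 9) (.e (nat_lit 426560) (nat_lit 33) .nil)))) (.g (nat_lit 0) (.e (nat_lit 264956) (nat_lit 0) .nil) .nil)))) (.nd (nat_lit 9) 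
(.lf (nat_lit 537945) (.g (nat_lit 2923) (.e (nat_lit 65630) (nat_lit 14) (.e (nat_lit 401428) (nat_lit 3) (.e (nat_lit 204861) (nat_lit 26) (.e (nat_lit 336231) (nat_lit 14) (.e (nat_lit 401414) (nat_lit 0) (.e (nat_lit 3124) (nat_lit 193) (.e (nat_lit 500059) (nat_lit 18) .nil))))))) (.g (nat_lit 1) (.e (nat_lit 263441) (nat_lit 0) .nil) .nil))) 
(.lf (nat_lit 538457) (.g (nat_lit 5203) (.e (nat_lit 73747) (nat_lit 3) (.e (nat_lit 516129) (nat_lit 3) (.e (nat_lit 221215) (nat_lit 23) (.e (nat_lit 204831) (nat_lit 18) (.e (nat_lit 57931) (nat_lit 282) (.e (nat_lit 163869) (nat_lit 2) (.e (nat_lit 196668) (nat_lit 14) .nil))))))) (.g (nat_lit 1) (.e (nat_lit 266157) (nat_lit 0) .nil) .nil))))) (.nd (nat_lit 8) (.nd (nat_lit 9) 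
(.lf (nat_lit 537817) (.g (nat_lit 1066) (.e (nat_lit 65623) (nat_lit 12) (.e (nat_lit 385074) (nat_lit 31) (.e (nat_lit 573481) (nat_lit 13) .nil))) (.g (nat_lit 0) (.e (nat_lit 263172) (nat_lit 0) .nil) .nil))) 
(.lf (nat_lit 538329) (.g (nat_lit 4897) (.e (nat_lit 73746) (nat_lit 3) (.e (nat_lit 516129) (nat_lit 3) (.e (nat_lit 221215) (nat_lit 23) (.e (nat_lit 204830) (nat_lit 18) (.e (nat_lit 57929) (nat_lit 282) (.e (nat_lit 163869) (nat_lit 2) (.e (nat_lit 196670) (nat_lit 14) .nil))))))) (.g (nat_lit 1) (.e (nat_lit 265516) (nat_lit 0) .nil) .nil)))) (.nd (nat_lit 9) 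
(.lf (nat_lit 538073) (.g (nat_lit 2503) (.e (nat_lit 65649) (nat_lit 27) (.e (nat_lit 426341) (nat_lit 14) (.e (nat_lit 491571) (nat_lit 13) (.e (nat_lit 393238) (nat_lit 17) (.e (nat_lit 7936) (nat_lit 406) .nil))))) (.g (nat_lit 0) (.e (nat_lit 264153) (nat_lit 0) .nil) .nil))) 
(.lf (nat_lit 538585) (.g (nat_lit 3528) (.e (nat_lit 73753) (nat_lit 8) (.e (nat_lit 557103) (nat_lit 14) (.e (nat_lit 180250) (nat_lit 10) (.e (nat_lit 573474) (nat_lit 12) (.e (nat_lit 57503) (nat_lit 38) (.e (nat_lit 638994) (nat_lit 7) (.e (nat_lit 163979) (nat_lit 30) (.e (nat_lit 573487) (nat_lit 14) .nil)))))))) (.g (nat_lit 1) (.e (nat_lit 266521) (nat_lit 0) .nil) .nil))))))) 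
(.nd (nat_lit 6) (.nd (nat_lit 7) (.nd (nat_lit 8) (.nd (nat_lit 9) 
(.lf (nat_lit 537657) (.g (nat_lit 2805) (.e (nat_lit 65619) (nat_lit 10) (.e (nat_lit 344117) (nat_lit 21) (.e (nat_lit 516159) (nat_lit 10) (.e (nat_lit 434275) (nat_lit 39) (.e (nat_lit 663589) (nat_lit 14) (.e (nat_lit 2427) (nat_lit 157) (.e (nat_lit 632) (nat_lit 50) (.e (nat_lit 573485) (nat_lit 13) .nil)))))))) (.g (nat_lit 1) (.e (nat_lit 262940) (nat_lit 0) .nil) .nil))) 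
(.lf (nat_lit 538169) (.g (nat_lit 778) (.e (nat_lit 73730) (nat_lit 0) (.e (nat_lit 7261) (nat_lit 384) (.e (nat_lit 57412) (nat_lit 12) (.e (nat_lit 336082) (nat_lit 9) .nil)))) (.g (nat_lit 0) (.e (nat_lit 264730) (nat_lit 0) .nil) .nil)))) (.nd (nat_lit 9) 
(.lf (nat_lit 537913) (.g (nat_lit 1010) (.e (nat_lit 65630) (nat_lit 14) (.e (nat_lit 401425) (nat_lit 2) (.e (nat_lit 196666) (nat_lit 13) (.e (nat_lit 65628) (nat_lit 14) .nil)))) (.g (nat_lit 0) (.e (nat_lit 263399) (nat_lit 0) .nil) .nil))) 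
(.lf (nat_lit 538425) (.g (nat_lit 2585) (.e (nat_lit 73747) (nat_lit 3) (.e (nat_lit 516117) (nat_lit 1) (.e (nat_lit 164182) (nat_lit 154) (.e (nat_lit 57378) (nat_lit 3) (.e (nat_lit 98340) (nat_lit 20) (.e (nat_lit 221210) (nat_lit 22) (.e (nat_lit 196668) (nat_lit 14) .nil))))))) (.g (nat_lit 1) (.e (nat_lit 265925) (nat_lit 0) .nil) .nil))))) (.nd (nat_lit 8) (.nd (nat_lit 9) 
(.lf (nat_lit 537785) (.g (nat_lit 1025) (.e (nat_lit 65620) (nat_lit 10) (.e (nat_lit 344117) (nat_lit 21) (.e (nat_lit 516151) (nat_lit 9) .nil))) (.g (nat_lit 0) (.e (nat_lit 263104) (nat_lit 0) .nil) .nil))) 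
(.lf (nat_lit 538297) (.g (nat_lit 2556) (.e (nat_lit 73746) (nat_lit 3) (.e (nat_lit 516120) (nat_lit 1) (.e (nat_lit 164176) (nat_lit 154) (.e (nat_lit 57377) (nat_lit 3) (.e (nat_lit 98342) (nat_lit 20) (.e (nat_lit 221212) (nat_lit 22) (.e (nat_lit 196670) (nat_lit 14) .nil))))))) (.g (nat_lit 1) (.e (nat_lit 265377) (nat_lit 0) .nil) .nil)))) (.nd (nat_lit 9) 
(.lf (nat_lit 538041) (.g (nat_lit 1520) (.e (nat_lit 73472) (nat_lit 18) (.e (nat_lit 204830) (nat_lit 18) (.e (nat_lit 57852) (nat_lit 252) (.e (nat_lit 57378) (nat_lit 3) .nil)))) (.g (nat_lit 0) (.e (nat_lit 263790) (nat_lit 0) .nil) .nil))) 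
(.lf (nat_lit 538553) (.g (nat_lit 660) (.e (nat_lit 73753) (nat_lit 8) (.e (nat_lit 557091) (nat_lit 12) (.e (nat_lit 164007) (nat_lit 41) .nil))) (.g (nat_lit 0) (.e (nat_lit 266401) (nat_lit 0) .nil) .nil)))))) (.nd (nat_lit 7) (.nd (nat_lit 8) (.nd (nat_lit 9) 
(.lf (nat_lit 537721) (.g (nat_lit 513) (.e (nat_lit 65619) (nat_lit 10) (.e (nat_lit 344129) (nat_lit 26) (.e (nat_lit 557084) (nat_lit 10) .nil))) (.g (nat_lit 0) (.e (nat_lit 263022) (nat_lit 0) .nil) .nil))) 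
(.lf (nat_lit 538233) (.g (nat_lit 2217) (.e (nat_lit 73745) (nat_lit 3) (.e (nat_lit 516119) (nat_lit 1) (.e (nat_lit 164179) (nat_lit 154) (.e (nat_lit 57377) (nat_lit 3) (.e (nat_lit 98342) (nat_lit 20) .nil))))) (.g (nat_lit 0) (.e (nat_lit 265037) (nat_lit 0) .nil) .nil)))) (.nd (nat_lit 9) 
(.lf (nat_lit 537977) (.g (nat_lit 2329) (.e (nat_lit 65637) (nat_lit 15) (.e (nat_lit 3253) (nat_lit 197) (.e (nat_lit 532501) (nat_lit 1) (.e (nat_lit 57852) (nat_lit 252) (.e (nat_lit 57378) (nat_lit 3) .nil))))) (.g (nat_lit 0) (.e (nat_lit 263526) (nat_lit 0) .nil) .nil))) 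
(.lf (nat_lit 538489) (.g (nat_lit 4071) (.e (nat_lit 73747) (nat_lit 3) (.e (nat_lit 516185) (nat_lit 16) (.e (nat_lit 491560) (nat_lit 10) (.e (nat_lit 344117) (nat_lit 21) (.e (nat_lit 516098) (nat_lit 0) (.e (nat_lit 7591) (nat_lit 407) .nil)))))) (.g (nat_lit 1) (.e (nat_lit 266197) (nat_lit 0) .nil) .nil))))) (.nd (nat_lit 8) (.nd (nat_lit 9) 
(.lf (nat_lit 537849) (.g (nat_lit 3584) (.e (nat_lit 65626) (nat_lit 13) (.e (nat_lit 393225) (nat_lit 9) (.e (nat_lit 335996) (nat_lit 1) (.e (nat_lit 57931) (nat_lit 282) (.e (nat_lit 163867) (nat_lit 2) (.e (nat_lit 196665) (nat_lit 13) .nil)))))) (.g (nat_lit 1) (.e (nat_lit 263268) (nat_lit 0) .nil) .nil))) 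
(.lf (nat_lit 538361) (.g (nat_lit 3015) (.e (nat_lit 73746) (nat_lit 3) (.e (nat_lit 516139) (nat_lit 7) (.e (nat_lit 409645) (nat_lit 18) (.e (nat_lit 303117) (nat_lit 2) (.e (nat_lit 196661) (nat_lit 12) .nil))))) (.g (nat_lit 0) (.e (nat_lit 265561) (nat_lit 0) .nil) .nil)))) (.nd (nat_lit 9) 
(.lf (nat_lit 538105) (.g (nat_lit 2646) (.e (nat_lit 65653) (nat_lit 27) (.e (nat_lit 426315) (nat_lit 12) (.e (nat_lit 475210) (nat_lit 41) (.e (nat_lit 712745) (nat_lit 27) (.e (nat_lit 425984) (nat_lit 0) (.e (nat_lit 7586) (nat_lit 406) .nil)))))) (.g (nat_lit 1) (.e (nat_lit 264268) (nat_lit 0) .nil) .nil))) 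
(.lf (nat_lit 538617) (.g (nat_lit 3069) (.e (nat_lit 73753) (nat_lit 8) (.e (nat_lit 557104) (nat_lit 14) (.e (nat_lit 180252) (nat_lit 10) (.e (nat_lit 573473) (nat_lit 12) (.e (nat_lit 57504) (nat_lit 38) (.e (nat_lit 638995) (nat_lit 7) (.e (nat_lit 163978) (nat_lit 30) (.e (nat_lit 573487) (nat_lit 14) .nil)))))))) (.g (nat_lit 1) (.e (nat_lit 266562) (nat_lit 0) .nil) .nil)))))))))) 
(.nd (nat_lit 3) (.nd (nat_lit 4) (.nd (nat_lit 5) (.nd (nat_lit 6) (.nd (nat_lit 7) 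
(.nd (nat_lit 8) (.nd (nat_lit 9) 
(.lf (nat_lit 537605) (.g (nat_lit 2557) (.e (nat_lit 65619) (nat_lit 10) (.e (nat_lit 344117) (nat_lit 21) (.e (nat_lit 516145) (nat_lit 9) (.e (nat_lit 426354) (nat_lit 15) .nil)))) (.g (nat_lit 0) (.e (nat_lit 262888) (nat_lit 0) .nil) .nil))) 
(.lf (nat_lit 538117) (.g (nat_lit 2779) (.e (nat_lit 65653) (nat_lit 27) (.e (nat_lit 426343) (nat_lit 14) (.e (nat_lit 491547) (nat_lit 9) (.e (nat_lit 336414) (nat_lit 27) (.e (nat_lit 425984) (nat_lit 0) (.e (nat_lit 7588) (nat_lit 406) .nil)))))) (.g (nat_lit 1) (.e (nat_lit 264284) (nat_lit 0) .nil) .nil)))) (.nd (nat_lit 9) 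
(.lf (nat_lit 537861) (.g (nat_lit 1377) (.e (nat_lit 65628) (nat_lit 14) (.e (nat_lit 401425) (nat_lit 2) (.e (nat_lit 196666) (nat_lit 13) (.e (nat_lit 65599) (nat_lit 9) .nil)))) (.g (nat_lit 0) (.e (nat_lit 263316) (nat_lit 0) .nil) .nil))) 
(.lf (nat_lit 538373) (.g (nat_lit 4780) (.e (nat_lit 73746) (nat_lit 3) (.e (nat_lit 516166) (nat_lit 12) (.e (nat_lit 450587) (nat_lit 10) (.e (nat_lit 573475) (nat_lit 12) (.e (nat_lit 57572) (nat_lit 54) .nil))))) (.g (nat_lit 0) (.e (nat_lit 265583) (nat_lit 0) .nil) .nil))))) (.nd (nat_lit 8) (.nd (nat_lit 9) 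
(.lf (nat_lit 537733) (.g (nat_lit 3141) (.e (nat_lit 65619) (nat_lit 10) (.e (nat_lit 344129) (nat_lit 26) (.e (nat_lit 557087) (nat_lit 11) (.e (nat_lit 24596) (nat_lit 1) .nil)))) (.g (nat_lit 0) (.e (nat_lit 263036) (nat_lit 0) .nil) .nil))) 
(.lf (nat_lit 538245) (.g (nat_lit 1810) (.e (nat_lit 73746) (nat_lit 3) (.e (nat_lit 516098) (nat_lit 0) (.e (nat_lit 7591) (nat_lit 407) (.e (nat_lit 73748) (nat_lit 3) (.e (nat_lit 516106) (nat_lit 0) (.e (nat_lit 7936) (nat_lit 407) .nil)))))) (.g (nat_lit 1) (.e (nat_lit 265052) (nat_lit 0) .nil) .nil)))) (.nd (nat_lit 9) 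
(.lf (nat_lit 537989) (.g (nat_lit 1593) (.e (nat_lit 65637) (nat_lit 15) (.e (nat_lit 3253) (nat_lit 197) (.e (nat_lit 532504) (nat_lit 1) (.e (nat_lit 57854) (nat_lit 252) (.e (nat_lit 57378) (nat_lit 3) .nil))))) (.g (nat_lit 0) (.e (nat_lit 263539) (nat_lit 0) .nil) .nil))) 
(.lf (nat_lit 538501) (.g (nat_lit 539) (.e (nat_lit 73748) (nat_lit 3) (.e (nat_lit 516129) (nat_lit 3) (.e (nat_lit 221210) (nat_lit 22) .nil))) (.g (nat_lit 0) (.e (nat_lit 266229) (nat_lit 0) .nil) .nil)))))) (.nd (nat_lit 7) (.nd (nat_lit 8) (.nd (nat_lit 9) 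
(.lf (nat_lit 537669) (.g (nat_lit 2033) (.e (nat_lit 65619) (nat_lit 10) (.e (nat_lit 344117) (nat_lit 21) (.e (nat_lit 516160) (nat_lit 10) (.e (nat_lit 434210) (nat_lit 18) .nil)))) (.g (nat_lit 0) (.e (nat_lit 262953) (nat_lit 0) .nil) .nil))) 
(.lf (nat_lit 538181) (.g (nat_lit 2303) (.e (nat_lit 73737) (nat_lit 0) (.e (nat_lit 5949) (nat_lit 322) (.e (nat_lit 57447) (nat_lit 19) (.e (nat_lit 393234) (nat_lit 17) (.e (nat_lit 2399) (nat_lit 157) (.e (nat_lit 5968) (nat_lit 324) (.e (nat_lit 163871) (nat_lit 2) (.e (nat_lit 196668) (nat_lit 14) .nil)))))))) (.g (nat_lit 1) (.e (nat_lit 264854) (nat_lit 0) .nil) .nil)))) (.nd (nat_lit 9) 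
(.lf (nat_lit 537925) (.g (nat_lit 1603) (.e (nat_lit 65630) (nat_lit 14) (.e (nat_lit 401425) (nat_lit 2) (.e (nat_lit 196672) (nat_lit 15) (.e (nat_lit 81922) (nat_lit 0) .nil)))) (.g (nat_lit 0) (.e (nat_lit 263412) (nat_lit 0) .nil) .nil))) 
(.lf (nat_lit 538437) (.g (nat_lit 3216) (.e (nat_lit 73747) (nat_lit 3) (.e (nat_lit 516119) (nat_lit 1) (.e (nat_lit 164182) (nat_lit 154) (.e (nat_lit 57379) (nat_lit 3) (.e (nat_lit 98340) (nat_lit 20) (.e (nat_lit 221210) (nat_lit 22) (.e (nat_lit 196668) (nat_lit 14) .nil))))))) (.g (nat_lit 1) (.e (nat_lit 266065) (nat_lit 0) .nil) .nil))))) (.nd (nat_lit 8) (.nd (nat_lit 9) 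
(.lf (nat_lit 537797) (.g (nat_lit 2296) (.e (nat_lit 65621) (nat_lit 11) (.e (nat_lit 368676) (nat_lit 21) (.e (nat_lit 516179) (nat_lit 15) (.e (nat_lit 475199) (nat_lit 40) .nil)))) (.g (nat_lit 0) (.e (nat_lit 263123) (nat_lit 0) .nil) .nil))) 
(.lf (nat_lit 538309) (.g (nat_lit 2774) (.e (nat_lit 73746) (nat_lit 3) (.e (nat_lit 516124) (nat_lit 2) (.e (nat_lit 220928) (nat_lit 3) (.e (nat_lit 57464) (nat_lit 23) (.e (nat_lit 516116) (nat_lit 1) (.e (nat_lit 164329) (nat_lit 230) (.e (nat_lit 163850) (nat_lit 0) (.e (nat_lit 3306) (nat_lit 202) (.e (nat_lit 573486) (nat_lit 14) .nil))))))))) (.g (nat_lit 1) (.e (nat_lit 265486) (nat_lit 0) .nil) .nil)))) 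
(.nd (nat_lit 9) 
(.lf (nat_lit 538053) (.g (nat_lit 2740) (.e (nat_lit 73472) (nat_lit 18) (.e (nat_lit 204863) (nat_lit 27) (.e (nat_lit 344117) (nat_lit 21) (.e (nat_lit 516099) (nat_lit 0) .nil)))) (.g (nat_lit 0) (.e (nat_lit 263861) (nat_lit 0) .nil) .nil))) 
(.lf (nat_lit 538565) (.g (nat_lit 511) (.e (nat_lit 73753) (nat_lit 8) (.e (nat_lit 557098) (nat_lit 13) (.e (nat_lit 179968) (nat_lit 18) .nil))) (.g (nat_lit 0) (.e (nat_lit 266429) (nat_lit 0) .nil) .nil))))))) (.nd (nat_lit 6) (.nd (nat_lit 7) (.nd (nat_lit 8) (.nd (nat_lit 9) 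
(.lf (nat_lit 537637) (.g (nat_lit 3128) (.e (nat_lit 65619) (nat_lit 10) (.e (nat_lit 344117) (nat_lit 21) (.e (nat_lit 516151) (nat_lit 9) (.e (nat_lit 426045) (nat_lit 0) .nil)))) (.g (nat_lit 0) (.e (nat_lit 262920) (nat_lit 0) .nil) .nil))) 
(.lf (nat_lit 538149) (.g (nat_lit 2148) (.e (nat_lit 73472) (nat_lit 34) (.e (nat_lit 483394) (nat_lit 24) (.e (nat_lit 344117) (nat_lit 21) (.e (nat_lit 516099) (nat_lit 0) .nil)))) (.g (nat_lit 0) (.e (nat_lit 264566) (nat_lit 0) .nil) .nil)))) (.nd (nat_lit 9) 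
(.lf (nat_lit 537893) (.g (nat_lit 590) (.e (nat_lit 65628) (nat_lit 14) (.e (nat_lit 401435) (nat_lit 9) (.e (nat_lit 426544) (nat_lit 30) .nil))) (.g (nat_lit 0) (.e (nat_lit 263370) (nat_lit 0) .nil) .nil))) 
(.lf (nat_lit 538405) (.g (nat_lit 2720) (.e (nat_lit 73747) (nat_lit 3) (.e (nat_lit 516102) (nat_lit 0) (.e (nat_lit 6989) (nat_lit 377) (.e (nat_lit 2777) (nat_lit 178) (.e (nat_lit 286735) (nat_lit 3) (.e (nat_lit 98319) (nat_lit 17) (.e (nat_lit 7591) (nat_lit 407) .nil))))))) (.g (nat_lit 1) (.e (nat_lit 265622) (nat_lit 0) .nil) .nil))))) (.nd (nat_lit 8) (.nd (nat_lit 9) 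
(.lf (nat_lit 537765) (.g (nat_lit 2056) (.e (nat_lit 65619) (nat_lit 10) (.e (nat_lit 344129) (nat_lit 26) (.e (nat_lit 557089) (nat_lit 12) (.e (nat_lit 164020) (nat_lit 45) .nil)))) (.g (nat_lit 0) (.e (nat_lit 263068) (nat_lit 0) .nil) .nil))) 
(.lf (nat_lit 538277) (.g (nat_lit 3093) (.e (nat_lit 73746) (nat_lit 3) (.e (nat_lit 516117) (nat_lit 1) (.e (nat_lit 164182) (nat_lit 154) (.e (nat_lit 57379) (nat_lit 3) (.e (nat_lit 98340) (nat_lit 20) (.e (nat_lit 221210) (nat_lit 22) (.e (nat_lit 196668) (nat_lit 14) .nil))))))) (.g (nat_lit 1) (.e (nat_lit 265246) (nat_lit 0) .nil) .nil)))) (.nd (nat_lit 9) 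
(.lf (nat_lit 538021) (.g (nat_lit 2620) (.e (nat_lit 65640) (nat_lit 15) (.e (nat_lit 3253) (nat_lit 197) (.e (nat_lit 532501) (nat_lit 1) (.e (nat_lit 57851) (nat_lit 252) (.e (nat_lit 57354) (nat_lit 0) .nil))))) (.g (nat_lit 0) (.e (nat_lit 263652) (nat_lit 0) .nil) .nil))) 
(.lf (nat_lit 538533) (.g (nat_lit 3173) (.e (nat_lit 73748) (nat_lit 3) (.e (nat_lit 516185) (nat_lit 16) (.e (nat_lit 491560) (nat_lit 10) (.e (nat_lit 344117) (nat_lit 21) (.e (nat_lit 516098) (nat_lit 0) (.e (nat_lit 7591) (nat_lit 407) .nil)))))) (.g (nat_lit 1) (.e (nat_lit 266273) (nat_lit 0) .nil) .nil)))))) (.nd (nat_lit 7) (.nd (nat_lit 8) (.nd (nat_lit 9) 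
(.lf (nat_lit 537701) (.g (nat_lit 1604) (.e (nat_lit 65619) (nat_lit 10) (.e (nat_lit 344129) (nat_lit 26) (.e (nat_lit 557065) (nat_lit 9) (.e (nat_lit 242) (nat_lit 21) .nil)))) (.g (nat_lit 0) (.e (nat_lit 262994) (nat_lit 0) .nil) .nil))) 
(.lf (nat_lit 538213) (.g (nat_lit 923) (.e (nat_lit 81664) (nat_lit 5) (.e (nat_lit 532583) (nat_lit 26) (.e (nat_lit 426197) (nat_lit 9) (.e (nat_lit 426560) (nat_lit 33) (.e (nat_lit 392960) (nat_lit 5) .nil))))) (.g (nat_lit 0) (.e (nat_lit 264989) (nat_lit 0) .nil) .nil)))) (.nd (nat_lit 9) 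
(.lf (nat_lit 537957) (.g (nat_lit 1636) (.e (nat_lit 65630) (nat_lit 14) (.e (nat_lit 401437) (nat_lit 9) (.e (nat_lit 426540) (nat_lit 29) (.e (nat_lit 352307) (nat_lit 21) .nil)))) (.g (nat_lit 0) (.e (nat_lit 263475) (nat_lit 0) .nil) .nil))) 
(.lf (nat_lit 538469) (.g (nat_lit 1342) (.e (nat_lit 73747) (nat_lit 3) (.e (nat_lit 516138) (nat_lit 7) (.e (nat_lit 409645) (nat_lit 18) (.e (nat_lit 303119) (nat_lit 3) .nil)))) (.g (nat_lit 0) (.e (nat_lit 266174) (nat_lit 0) .nil) .nil))))) (.nd (nat_lit 8) (.nd (nat_lit 9) 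
(.lf (nat_lit 537829) (.g (nat_lit 4205) (.e (nat_lit 65624) (nat_lit 12) (.e (nat_lit 385066) (nat_lit 26) (.e (nat_lit 532514) (nat_lit 3) (.e (nat_lit 114698) (nat_lit 11) (.e (nat_lit 426123) (nat_lit 2) (.e (nat_lit 196666) (nat_lit 13) .nil)))))) (.g (nat_lit 1) (.e (nat_lit 263214) (nat_lit 0) .nil) .nil))) 
(.lf (nat_lit 538341) (.g (nat_lit 1981) (.e (nat_lit 73746) (nat_lit 3) (.e (nat_lit 516131) (nat_lit 3) (.e (nat_lit 221215) (nat_lit 23) (.e (nat_lit 204815) (nat_lit 17) .nil)))) (.g (nat_lit 0) (.e (nat_lit 265534) (nat_lit 0) .nil) .nil)))) (.nd (nat_lit 9) 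
(.lf (nat_lit 538085) (.g (nat_lit 1623) (.e (nat_lit 65652) (nat_lit 27) (.e (nat_lit 426163) (nat_lit 6) (.e (nat_lit 253992) (nat_lit 11) (.e (nat_lit 16412) (nat_lit 2) .nil)))) (.g (nat_lit 0) (.e (nat_lit 264176) (nat_lit 0) .nil) .nil))) 
(.lf (nat_lit 538597) (.g (nat_lit 2937) (.e (nat_lit 73753) (nat_lit 8) (.e (nat_lit 557103) (nat_lit 14) (.e (nat_lit 180250) (nat_lit 10) (.e (nat_lit 573475) (nat_lit 12) (.e (nat_lit 57508) (nat_lit 39) (.e (nat_lit 655104) (nat_lit 0) (.e (nat_lit 2667) (nat_lit 167) (.e (nat_lit 196670) (nat_lit 14) .nil)))))))) (.g (nat_lit 1) (.e (nat_lit 266534) (nat_lit 0) .nil) .nil)))))))) 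
(.nd (nat_lit 5) (.nd (nat_lit 6) (.nd (nat_lit 7) (.nd (nat_lit 8) (.nd (nat_lit 9) 
(.lf (nat_lit 537621) (.g (nat_lit 2426) (.e (nat_lit 65619) (nat_lit 10) (.e (nat_lit 344117) (nat_lit 21) (.e (nat_lit 516150) (nat_lit 9) (.e (nat_lit 426469) (nat_lit 24) .nil)))) (.g (nat_lit 0) (.e (nat_lit 262904) (nat_lit 0) .nil) .nil))) 
(.lf (nat_lit 538133) (.g (nat_lit 2092) (.e (nat_lit 73472) (nat_lit 27) (.e (nat_lit 426306) (nat_lit 12) (.e (nat_lit 475210) (nat_lit 41) (.e (nat_lit 712745) (nat_lit 27) .nil)))) (.g (nat_lit 0) (.e (nat_lit 264308) (nat_lit 0) .nil) .nil)))) (.nd (nat_lit 9) 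
(.lf (nat_lit 537877) (.g (nat_lit 3600) (.e (nat_lit 65628) (nat_lit 14) (.e (nat_lit 401428) (nat_lit 3) (.e (nat_lit 204854) (nat_lit 26) (.e (nat_lit 336208) (nat_lit 12) (.e (nat_lit 385074) (nat_lit 31) (.e (nat_lit 573485) (nat_lit 13) .nil)))))) (.g (nat_lit 1) (.e (nat_lit 263337) (nat_lit 0) .nil) .nil))) 
(.lf (nat_lit 538389) (.g (nat_lit 1944) (.e (nat_lit 73746) (nat_lit 3) (.e (nat_lit 524032) (nat_lit 32) (.e (nat_lit 385105) (nat_lit 50) (.e (nat_lit 786473) (nat_lit 27) (.e (nat_lit 336241) (nat_lit 15) (.e (nat_lit 7592) (nat_lit 407) .nil)))))) (.g (nat_lit 1) (.e (nat_lit 265605) (nat_lit 0) .nil) .nil))))) (.nd (nat_lit 8) (.nd (nat_lit 9) 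
(.lf (nat_lit 537749) (.g (nat_lit 3772) (.e (nat_lit 65619) (nat_lit 10) (.e (nat_lit 344129) (nat_lit 26) (.e (nat_lit 557087) (nat_lit 11) (.e (nat_lit 24625) (nat_lit 9) (.e (nat_lit 336260) (nat_lit 15) (.e (nat_lit 3308) (nat_lit 202) (.e (nat_lit 573482) (nat_lit 13) .nil))))))) (.g (nat_lit 1) (.e (nat_lit 263052) (nat_lit 0) .nil) .nil))) 
(.lf (nat_lit 538261) (.g (nat_lit 3547) (.e (nat_lit 73746) (nat_lit 3) (.e (nat_lit 516115) (nat_lit 1) (.e (nat_lit 164179) (nat_lit 154) (.e (nat_lit 57379) (nat_lit 3) (.e (nat_lit 98340) (nat_lit 20) (.e (nat_lit 221212) (nat_lit 22) (.e (nat_lit 196670) (nat_lit 14) .nil))))))) (.g (nat_lit 1) (.e (nat_lit 265140) (nat_lit 0) .nil) .nil)))) (.nd (nat_lit 9) 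
(.lf (nat_lit 538005) (.g (nat_lit 3610) (.e (nat_lit 65637) (nat_lit 15) (.e (nat_lit 3305) (nat_lit 202) (.e (nat_lit 573485) (nat_lit 13) (.e (nat_lit 65619) (nat_lit 10) (.e (nat_lit 344117) (nat_lit 21) (.e (nat_lit 516106) (nat_lit 0) (.e (nat_lit 7936) (nat_lit 406) .nil))))))) (.g (nat_lit 1) (.e (nat_lit 263600) (nat_lit 0) .nil) .nil))) 
(.lf (nat_lit 538517) (.g (nat_lit 2123) (.e (nat_lit 73748) (nat_lit 3) (.e (nat_lit 516139) (nat_lit 7) (.e (nat_lit 409617) (nat_lit 10) (.e (nat_lit 5355) (nat_lit 298) (.e (nat_lit 1235) (nat_lit 91) .nil))))) (.g (nat_lit 0) (.e (nat_lit 266254) (nat_lit 0) .nil) .nil)))))) (.nd (nat_lit 7) (.nd (nat_lit 8) (.nd (nat_lit 9) 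
(.lf (nat_lit 537685) (.g (nat_lit 3082) (.e (nat_lit 65619) (nat_lit 10) (.e (nat_lit 344117) (nat_lit 21) (.e (nat_lit 516179) (nat_lit 15) (.e (nat_lit 475196) (nat_lit 40) .nil)))) (.g (nat_lit 0) (.e (nat_lit 262970) (nat_lit 0) .nil) .nil))) 
(.lf (nat_lit 538197) (.g (nat_lit 774) (.e (nat_lit 73743) (nat_lit 1) (.e (nat_lit 499846) (nat_lit 5) (.e (nat_lit 2610) (nat_lit 163) (.e (nat_lit 164183) (nat_lit 154) .nil)))) (.g (nat_lit 0) (.e (nat_lit 264942) (nat_lit 0) .nil) .nil)))) (.nd (nat_lit 9) 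
(.lf (nat_lit 537941) (.g (nat_lit 4200) (.e (nat_lit 65630) (nat_lit 14) (.e (nat_lit 401428) (nat_lit 3) (.e (nat_lit 204861) (nat_lit 26) (.e (nat_lit 336194) (nat_lit 12) (.e (nat_lit 385074) (nat_lit 31) (.e (nat_lit 573482) (nat_lit 13) .nil)))))) (.g (nat_lit 1) (.e (nat_lit 263437) (nat_lit 0) .nil) .nil))) 
(.lf (nat_lit 538453) (.g (nat_lit 5673) (.e (nat_lit 73747) (nat_lit 3) (.e (nat_lit 516129) (nat_lit 3) (.e (nat_lit 221215) (nat_lit 23) (.e (nat_lit 204829) (nat_lit 18) (.e (nat_lit 57931) (nat_lit 282) (.e (nat_lit 163869) (nat_lit 2) (.e (nat_lit 196668) (nat_lit 14) .nil))))))) (.g (nat_lit 1) (.e (nat_lit 266153) (nat_lit 0) .nil) .nil))))) (.nd (nat_lit 8) (.nd (nat_lit 9) 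
(.lf (nat_lit 537813) (.g (nat_lit 2371) (.e (nat_lit 65623) (nat_lit 12) (.e (nat_lit 385068) (nat_lit 26) (.e (nat_lit 532513) (nat_lit 3) (.e (nat_lit 114698) (nat_lit 11) (.e (nat_lit 426122) (nat_lit 2) (.e (nat_lit 196666) (nat_lit 13) .nil)))))) (.g (nat_lit 1) (.e (nat_lit 263162) (nat_lit 0) .nil) .nil))) 
(.lf (nat_lit 538325) (.g (nat_lit 4308) (.e (nat_lit 73746) (nat_lit 3) (.e (nat_lit 516129) (nat_lit 3) (.e (nat_lit 221215) (nat_lit 23) (.e (nat_lit 204828) (nat_lit 18) (.e (nat_lit 57931) (nat_lit 282) (.e (nat_lit 163869) (nat_lit 2) (.e (nat_lit 196670) (nat_lit 14) .nil))))))) (.g (nat_lit 1) (.e (nat_lit 265512) (nat_lit 0) .nil) .nil)))) (.nd (nat_lit 9) 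
(.lf (nat_lit 538069) (.g (nat_lit 392) (.e (nat_lit 65649) (nat_lit 27) (.e (nat_lit 426172) (nat_lit 7) (.e (nat_lit 417536) (nat_lit 16) .nil))) (.g (nat_lit 0) (.e (nat_lit 264130) (nat_lit 0) .nil) .nil))) 
(.lf (nat_lit 538581) (.g (nat_lit 4988) (.e (nat_lit 73753) (nat_lit 8) (.e (nat_lit 557103) (nat_lit 14) (.e (nat_lit 180250) (nat_lit 10) (.e (nat_lit 573473) (nat_lit 12) (.e (nat_lit 57503) (nat_lit 38) (.e (nat_lit 638995) (nat_lit 7) (.e (nat_lit 163978) (nat_lit 30) (.e (nat_lit 573487) (nat_lit 14) .nil)))))))) (.g (nat_lit 1) (.e (nat_lit 266517) (nat_lit 0) .nil) .nil))))))) 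
(.nd (nat_lit 6) (.nd (nat_lit 7) (.nd (nat_lit 8) (.nd (nat_lit 9) 
(.lf (nat_lit 537653) (.g (nat_lit 6188) (.e (nat_lit 65619) (nat_lit 10) (.e (nat_lit 344117) (nat_lit 21) (.e (nat_lit 516151) (nat_lit 9) (.e (nat_lit 426412) (nat_lit 15) (.e (nat_lit 2059) (nat_lit 142) (.e (nat_lit 704589) (nat_lit 3) (.e (nat_lit 163979) (nat_lit 30) (.e (nat_lit 573482) (nat_lit 13) .nil)))))))) (.g (nat_lit 1) (.e (nat_lit 262936) (nat_lit 0) .nil) .nil))) 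
(.lf (nat_lit 538165) (.g (nat_lit 1544) (.e (nat_lit 73729) (nat_lit 0) (.e (nat_lit 7265) (nat_lit 384) (.e (nat_lit 57406) (nat_lit 12) (.e (nat_lit 336114) (nat_lit 9) .nil)))) (.g (nat_lit 0) (.e (nat_lit 264699) (nat_lit 0) .nil) .nil)))) (.nd (nat_lit 9) 
(.lf (nat_lit 537909) (.g (nat_lit 1991) (.e (nat_lit 65630) (nat_lit 14) (.e (nat_lit 401425) (nat_lit 2) (.e (nat_lit 196666) (nat_lit 13) (.e (nat_lit 65592) (nat_lit 9) .nil)))) (.g (nat_lit 0) (.e (nat_lit 263395) (nat_lit 0) .nil) .nil))) 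
(.lf (nat_lit 538421) (.g (nat_lit 2389) (.e (nat_lit 73747) (nat_lit 3) (.e (nat_lit 516117) (nat_lit 1) (.e (nat_lit 164180) (nat_lit 154) (.e (nat_lit 57378) (nat_lit 3) (.e (nat_lit 98340) (nat_lit 20) .nil))))) (.g (nat_lit 0) (.e (nat_lit 265897) (nat_lit 0) .nil) .nil))))) (.nd (nat_lit 8) (.nd (nat_lit 9) 
(.lf (nat_lit 537781) (.g (nat_lit 2901) (.e (nat_lit 65620) (nat_lit 10) (.e (nat_lit 344117) (nat_lit 21) (.e (nat_lit 516138) (nat_lit 7) (.e (nat_lit 409646) (nat_lit 18) (.e (nat_lit 303117) (nat_lit 2) .nil))))) (.g (nat_lit 0) (.e (nat_lit 263100) (nat_lit 0) .nil) .nil))) 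
(.lf (nat_lit 538293) (.g (nat_lit 4280) (.e (nat_lit 73746) (nat_lit 3) (.e (nat_lit 516119) (nat_lit 1) (.e (nat_lit 164182) (nat_lit 154) (.e (nat_lit 57379) (nat_lit 3) (.e (nat_lit 98341) (nat_lit 20) (.e (nat_lit 221210) (nat_lit 22) (.e (nat_lit 196670) (nat_lit 14) .nil))))))) (.g (nat_lit 1) (.e (nat_lit 265371) (nat_lit 0) .nil) .nil)))) (.nd (nat_lit 9) 
(.lf (nat_lit 538037) (.g (nat_lit 1943) (.e (nat_lit 73472) (nat_lit 18) (.e (nat_lit 204829) (nat_lit 18) (.e (nat_lit 57847) (nat_lit 252) (.e (nat_lit 57379) (nat_lit 3) (.e (nat_lit 98342) (nat_lit 20) .nil))))) (.g (nat_lit 0) (.e (nat_lit 263786) (nat_lit 0) .nil) .nil))) 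
(.lf (nat_lit 538549) (.g (nat_lit 946) (.e (nat_lit 73753) (nat_lit 8) (.e (nat_lit 557090) (nat_lit 12) (.e (nat_lit 163999) (nat_lit 38) .nil))) (.g (nat_lit 0) (.e (nat_lit 266390) (nat_lit 0) .nil) .nil)))))) (.nd (nat_lit 7) (.nd (nat_lit 8) (.nd (nat_lit 9) 
(.lf (nat_lit 537717) (.g (nat_lit 2494) (.e (nat_lit 65619) (nat_lit 10) (.e (nat_lit 344129) (nat_lit 26) (.e (nat_lit 557067) (nat_lit 9) (.e (nat_lit 20) (nat_lit 0) .nil)))) (.g (nat_lit 0) (.e (nat_lit 263017) (nat_lit 0) .nil) .nil))) 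
(.lf (nat_lit 538229) (.g (nat_lit 809) (.e (nat_lit 73750) (nat_lit 6) (.e (nat_lit 540724) (nat_lit 28) (.e (nat_lit 442396) (nat_lit 20) (.e (nat_lit 3571) (nat_lit 222) (.e (nat_lit 737283) (nat_lit 0) (.e (nat_lit 5412) (nat_lit 303) .nil)))))) (.g (nat_lit 1) (.e (nat_lit 265029) (nat_lit 0) .nil) .nil)))) (.nd (nat_lit 9) 
(.lf (nat_lit 537973) (.g (nat_lit 3186) (.e (nat_lit 65636) (nat_lit 15) (.e (nat_lit 3302) (nat_lit 202) (.e (nat_lit 573492) (nat_lit 15) (.e (nat_lit 81956) (nat_lit 23) (.e (nat_lit 98321) (nat_lit 17) (.e (nat_lit 7936) (nat_lit 406) .nil)))))) (.g (nat_lit 1) (.e (nat_lit 263521) (nat_lit 0) .nil) .nil))) 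
(.lf (nat_lit 538485) (.g (nat_lit 3736) (.e (nat_lit 73747) (nat_lit 3) (.e (nat_lit 516139) (nat_lit 7) (.e (nat_lit 409641) (nat_lit 17) (.e (nat_lit 294931) (nat_lit 3) (.e (nat_lit 98323) (nat_lit 17) (.e (nat_lit 7936) (nat_lit 407) .nil)))))) (.g (nat_lit 1) (.e (nat_lit 266192) (nat_lit 0) .nil) .nil))))) (.nd (nat_lit 8) (.nd (nat_lit 9) 
(.lf (nat_lit 537845) (.g (nat_lit 3197) (.e (nat_lit 65626) (nat_lit 13) (.e (nat_lit 393225) (nat_lit 9) (.e (nat_lit 335988) (nat_lit 1) (.e (nat_lit 57931) (nat_lit 282) (.e (nat_lit 163867) (nat_lit 2) (.e (nat_lit 196665) (nat_lit 13) .nil)))))) (.g (nat_lit 1) (.e (nat_lit 263256) (nat_lit 0) .nil) .nil))) 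
(.lf (nat_lit 538357) (.g (nat_lit 4999) (.e (nat_lit 73746) (nat_lit 3) (.e (nat_lit 516131) (nat_lit 3) (.e (nat_lit 221215) (nat_lit 23) (.e (nat_lit 204831) (nat_lit 18) (.e (nat_lit 57931) (nat_lit 282) (.e (nat_lit 163869) (nat_lit 2) (.e (nat_lit 196670) (nat_lit 14) .nil))))))) (.g (nat_lit 1) (.e (nat_lit 265551) (nat_lit 0) .nil) .nil)))) (.nd (nat_lit 9) 
(.lf (nat_lit 538101) (.g (nat_lit 2982) (.e (nat_lit 65653) (nat_lit 27) (.e (nat_lit 426308) (nat_lit 12) (.e (nat_lit 475210) (nat_lit 41) (.e (nat_lit 712745) (nat_lit 27) (.e (nat_lit 425984) (nat_lit 0) (.e (nat_lit 7586) (nat_lit 406) .nil)))))) (.g (nat_lit 1) (.e (nat_lit 264257) (nat_lit 0) .nil) .nil))) 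
(.lf (nat_lit 538613) (.g (nat_lit 2159) (.e (nat_lit 73753) (nat_lit 8) (.e (nat_lit 557104) (nat_lit 14) (.e (nat_lit 180252) (nat_lit 10) (.e (nat_lit 573473) (nat_lit 12) .nil)))) (.g (nat_lit 0) (.e (nat_lit 266557) (nat_lit 0) .nil) .nil))))))))) (.nd (nat_lit 4) (.nd (nat_lit 5) (.nd (nat_lit 6) (.nd (nat_lit 7) (.nd (nat_lit 8) (.nd (nat_lit 9) 
(.lf (nat_lit 537613) (.g (nat_lit 2694) (.e (nat_lit 65619) (nat_lit 10) (.e (nat_lit 344117) (nat_lit 21) (.e (nat_lit 516145) (nat_lit 9) (.e (nat_lit 426404) (nat_lit 15) (.e (nat_lit 2056) (nat_lit 142) .nil))))) (.g (nat_lit 0) (.e (nat_lit 262896) (nat_lit 0) .nil) .nil))) 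
(.lf (nat_lit 538125) (.g (nat_lit 3426) (.e (nat_lit 65653) (nat_lit 27) (.e (nat_lit 426343) (nat_lit 14) (.e (nat_lit 491570) (nat_lit 13) (.e (nat_lit 393232) (nat_lit 17) (.e (nat_lit 7589) (nat_lit 406) .nil))))) (.g (nat_lit 1) (.e (nat_lit 264293) (nat_lit 0) .nil) .nil)))) (.nd (nat_lit 9) 
(.lf (nat_lit 537869) (.g (nat_lit 419) (.e (nat_lit 65628) (nat_lit 14) (.e (nat_lit 401425) (nat_lit 2) (.e (nat_lit 196670) (nat_lit 14) .nil))) (.g (nat_lit 0) (.e (nat_lit 263325) (nat_lit 0) .nil) .nil))) 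
(.lf (nat_lit 538381) (.g (nat_lit 2458) (.e (nat_lit 73746) (nat_lit 3) (.e (nat_lit 516185) (nat_lit 16) (.e (nat_lit 491546) (nat_lit 9) (.e (nat_lit 336028) (nat_lit 3) (.e (nat_lit 98320) (nat_lit 17) (.e (nat_lit 7593) (nat_lit 407) .nil)))))) (.g (nat_lit 1) (.e (nat_lit 265594) (nat_lit 0) .nil) .nil))))) (.nd (nat_lit 8) (.nd (nat_lit 9) 
(.lf (nat_lit 537741) (.g (nat_lit 2708) (.e (nat_lit 65619) (nat_lit 10) (.e (nat_lit 344129) (nat_lit 26) (.e (nat_lit 557087) (nat_lit 11) (.e (nat_lit 24623) (nat_lit 9) (.e (nat_lit 336303) (nat_lit 15) (.e (nat_lit 3304) (nat_lit 202) (.e (nat_lit 573485) (nat_lit 13) .nil))))))) (.g (nat_lit 1) (.e (nat_lit 263044) (nat_lit 0) .nil) .nil))) 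
(.lf (nat_lit 538253) (.g (nat_lit 2871) (.e (nat_lit 73746) (nat_lit 3) (.e (nat_lit 516115) (nat_lit 1) (.e (nat_lit 164177) (nat_lit 154) (.e (nat_lit 57379) (nat_lit 3) (.e (nat_lit 98341) (nat_lit 20) (.e (nat_lit 221212) (nat_lit 22) (.e (nat_lit 196668) (nat_lit 14) .nil))))))) (.g (nat_lit 1) (.e (nat_lit 265077) (nat_lit 0) .nil) .nil)))) (.nd (nat_lit 9) 
(.lf (nat_lit 537997) (.g (nat_lit 3223) (.e (nat_lit 65637) (nat_lit 15) (.e (nat_lit 3305) (nat_lit 202) (.e (nat_lit 573482) (nat_lit 13) (.e (nat_lit 65619) (nat_lit 10) (.e (nat_lit 344117) (nat_lit 21) (.e (nat_lit 516106) (nat_lit 0) (.e (nat_lit 7936) (nat_lit 406) .nil))))))) (.g (nat_lit 1) (.e (nat_lit 263582) (nat_lit 0) .nil) .nil))) 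
(.lf (nat_lit 538509) (.g (nat_lit 360) (.e (nat_lit 73748) (nat_lit 3) (.e (nat_lit 516131) (nat_lit 3) (.e (nat_lit 221215) (nat_lit 23) .nil))) (.g (nat_lit 0) (.e (nat_lit 266240) (nat_lit 0) .nil) .nil)))))) (.nd (nat_lit 7) (.nd (nat_lit 8) (.nd (nat_lit 9) 
(.lf (nat_lit 537677) (.g (nat_lit 5982) (.e (nat_lit 65619) (nat_lit 10) (.e (nat_lit 344117) (nat_lit 21) (.e (nat_lit 516160) (nat_lit 10) (.e (nat_lit 434272) (nat_lit 38) (.e (nat_lit 655375) (nat_lit 3) (.e (nat_lit 163978) (nat_lit 30) (.e (nat_lit 573479) (nat_lit 13) .nil))))))) (.g (nat_lit 1) (.e (nat_lit 262961) (nat_lit 0) .nil) .nil))) 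
(.lf (nat_lit 538189) (.g (nat_lit 2223) (.e (nat_lit 73739) (nat_lit 1) (.e (nat_lit 499842) (nat_lit 5) (.e (nat_lit 3102) (nat_lit 192) (.e (nat_lit 491558) (nat_lit 10) (.e (nat_lit 344115) (nat_lit 20) (.e (nat_lit 507908) (nat_lit 0) (.e (nat_lit 5412) (nat_lit 303) .nil))))))) (.g (nat_lit 1) (.e (nat_lit 264918) (nat_lit 0) .nil) .nil)))) (.nd (nat_lit 9) 
(.lf (nat_lit 537933) (.g (nat_lit 3421) (.e (nat_lit 65630) (nat_lit 14) (.e (nat_lit 401427) (nat_lit 3) (.e (nat_lit 204861) (nat_lit 26) (.e (nat_lit 336194) (nat_lit 12) (.e (nat_lit 385074) (nat_lit 31) (.e (nat_lit 573480) (nat_lit 13) .nil)))))) (.g (nat_lit 1) (.e (nat_lit 263423) (nat_lit 0) .nil) .nil))) 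
(.lf (nat_lit 538445) (.g (nat_lit 2921) (.e (nat_lit 73747) (nat_lit 3) (.e (nat_lit 516120) (nat_lit 1) (.e (nat_lit 164182) (nat_lit 154) (.e (nat_lit 57378) (nat_lit 3) (.e (nat_lit 98340) (nat_lit 20) (.e (nat_lit 221210) (nat_lit 22) (.e (nat_lit 196668) (nat_lit 14) .nil))))))) (.g (nat_lit 1) (.e (nat_lit 266094) (nat_lit 0) .nil) .nil))))) (.nd (nat_lit 8) (.nd (nat_lit 9) 
(.lf (nat_lit 537805) (.g (nat_lit 2019) (.e (nat_lit 65622) (nat_lit 12) (.e (nat_lit 385074) (nat_lit 31) (.e (nat_lit 573487) (nat_lit 14) (.e (nat_lit 73779) (nat_lit 32) .nil)))) (.g (nat_lit 0) (.e (nat_lit 263147) (nat_lit 0) .nil) .nil))) 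
(.lf (nat_lit 538317) (.g (nat_lit 3041) (.e (nat_lit 73746) (nat_lit 3) (.e (nat_lit 516129) (nat_lit 3) (.e (nat_lit 221214) (nat_lit 23) (.e (nat_lit 204830) (nat_lit 18) (.e (nat_lit 57924) (nat_lit 282) (.e (nat_lit 163871) (nat_lit 2) (.e (nat_lit 196668) (nat_lit 14) .nil))))))) (.g (nat_lit 1) (.e (nat_lit 265504) (nat_lit 0) .nil) .nil)))) (.nd (nat_lit 9) 
(.lf (nat_lit 538061) (.g (nat_lit 163) (.e (nat_lit 73472) (nat_lit 18) (.e (nat_lit 204882) (nat_lit 32) (.e (nat_lit 385068) (nat_lit 26) .nil))) (.g (nat_lit 0) (.e (nat_lit 263912) (nat_lit 0) .nil) .nil))) 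
(.lf (nat_lit 538573) (.g (nat_lit 374) (.e (nat_lit 73753) (nat_lit 8) (.e (nat_lit 557103) (nat_lit 14) (.e (nat_lit 180244) (nat_lit 5) .nil))) (.g (nat_lit 0) (.e (nat_lit 266465) (nat_lit 0) .nil) .nil))))))) (.nd (nat_lit 6) (.nd (nat_lit 7) (.nd (nat_lit 8) (.nd (nat_lit 9) 
(.lf (nat_lit 537645) (.g (nat_lit 3802) (.e (nat_lit 65619) (nat_lit 10) (.e (nat_lit 344117) (nat_lit 21) (.e (nat_lit 516151) (nat_lit 9) (.e (nat_lit 426047) (nat_lit 0) (.e (nat_lit 2458) (nat_lit 157) (.e (nat_lit 5547) (nat_lit 306) (.e (nat_lit 2611) (nat_lit 163) (.e (nat_lit 163978) (nat_lit 30) (.e (nat_lit 573479) (nat_lit 13) .nil))))))))) (.g (nat_lit 1) (.e (nat_lit 262928) (nat_lit 0) .nil) .nil))) 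
(.lf (nat_lit 538157) (.g (nat_lit 808) (.e (nat_lit 73472) (nat_lit 34) (.e (nat_lit 483411) (nat_lit 27) (.e (nat_lit 401427) (nat_lit 3) .nil))) (.g (nat_lit 0) (.e (nat_lit 264649) (nat_lit 0) .nil) .nil)))) (.nd (nat_lit 9) 
(.lf (nat_lit 537901) (.g (nat_lit 2796) (.e (nat_lit 65628) (nat_lit 14) (.e (nat_lit 401458) (nat_lit 13) (.e (nat_lit 483383) (nat_lit 23) (.e (nat_lit 336240) (nat_lit 15) (.e (nat_lit 3637) (nat_lit 227) (.e (nat_lit 778321) (nat_lit 4) .nil)))))) (.g (nat_lit 1) (.e (nat_lit 263378) (nat_lit 0) .nil) .nil))) 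
(.lf (nat_lit 538413) (.g (nat_lit 3360) (.e (nat_lit 73747) (nat_lit 3) (.e (nat_lit 516115) (nat_lit 1) (.e (nat_lit 164179) (nat_lit 154) (.e (nat_lit 57379) (nat_lit 3) (.e (nat_lit 98340) (nat_lit 20) (.e (nat_lit 221212) (nat_lit 22) (.e (nat_lit 196668) (nat_lit 14) .nil))))))) (.g (nat_lit 1) (.e (nat_lit 265758) (nat_lit 0) .nil) .nil))))) (.nd (nat_lit 8) (.nd (nat_lit 9) 
(.lf (nat_lit 537773) (.g (nat_lit 3091) (.e (nat_lit 65619) (nat_lit 10) (.e (nat_lit 344129) (nat_lit 26) (.e (nat_lit 557090) (nat_lit 12) (.e (nat_lit 164018) (nat_lit 45) .nil)))) (.g (nat_lit 0) (.e (nat_lit 263077) (nat_lit 0) .nil) .nil))) 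
(.lf (nat_lit 538285) (.g (nat_lit 3578) (.e (nat_lit 73746) (nat_lit 3) (.e (nat_lit 516119) (nat_lit 1) (.e (nat_lit 164179) (nat_lit 154) (.e (nat_lit 57378) (nat_lit 3) (.e (nat_lit 98340) (nat_lit 20) (.e (nat_lit 221210) (nat_lit 22) (.e (nat_lit 196668) (nat_lit 14) .nil))))))) (.g (nat_lit 1) (.e (nat_lit 265355) (nat_lit 0) .nil) .nil)))) (.nd (nat_lit 9) 
(.lf (nat_lit 538029) (.g (nat_lit 3456) (.e (nat_lit 65642) (nat_lit 15) (.e (nat_lit 3305) (nat_lit 202) (.e (nat_lit 573484) (nat_lit 13) (.e (nat_lit 65610) (nat_lit 10) (.e (nat_lit 344117) (nat_lit 21) (.e (nat_lit 516106) (nat_lit 0) (.e (nat_lit 7936) (nat_lit 406) .nil))))))) (.g (nat_lit 1) (.e (nat_lit 263725) (nat_lit 0) .nil) .nil))) 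
(.lf (nat_lit 538541) (.g (nat_lit 2415) (.e (nat_lit 73753) (nat_lit 8) (.e (nat_lit 557086) (nat_lit 11) (.e (nat_lit 24646) (nat_lit 11) (.e (nat_lit 368676) (nat_lit 21) (.e (nat_lit 516098) (nat_lit 0) (.e (nat_lit 7591) (nat_lit 407) .nil)))))) (.g (nat_lit 1) (.e (nat_lit 266367) (nat_lit 0) .nil) .nil)))))) (.nd (nat_lit 7) (.nd (nat_lit 8) (.nd (nat_lit 9) 
(.lf (nat_lit 537709) (.g (nat_lit 1982) (.e (nat_lit 65619) (nat_lit 10) (.e (nat_lit 344129) (nat_lit 26) (.e (nat_lit 557066) (nat_lit 9) (.e (nat_lit 307) (nat_lit 22) (.e (nat_lit 344088) (nat_lit 18) .nil))))) (.g (nat_lit 0) (.e (nat_lit 263005) (nat_lit 0) .nil) .nil))) 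
(.lf (nat_lit 538221) (.g (nat_lit 1703) (.e (nat_lit 81664) (nat_lit 5) (.e (nat_lit 532583) (nat_lit 26) (.e (nat_lit 426200) (nat_lit 9) (.e (nat_lit 426562) (nat_lit 33) (.e (nat_lit 392960) (nat_lit 5) .nil))))) (.g (nat_lit 0) (.e (nat_lit 265000) (nat_lit 0) .nil) .nil)))) (.nd (nat_lit 9) 
(.lf (nat_lit 537965) (.g (nat_lit 2049) (.e (nat_lit 65636) (nat_lit 15) (.e (nat_lit 3249) (nat_lit 197) (.e (nat_lit 532500) (nat_lit 1) (.e (nat_lit 57851) (nat_lit 252) (.e (nat_lit 57354) (nat_lit 0) .nil))))) (.g (nat_lit 0) (.e (nat_lit 263499) (nat_lit 0) .nil) .nil))) 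
(.lf (nat_lit 538477) (.g (nat_lit 3067) (.e (nat_lit 73747) (nat_lit 3) (.e (nat_lit 516139) (nat_lit 7) (.e (nat_lit 409645) (nat_lit 18) (.e (nat_lit 303117) (nat_lit 2) (.e (nat_lit 196661) (nat_lit 12) .nil))))) (.g (nat_lit 0) (.e (nat_lit 266184) (nat_lit 0) .nil) .nil))))) (.nd (nat_lit 8) (.nd (nat_lit 9) 
(.lf (nat_lit 537837) (.g (nat_lit 925) (.e (nat_lit 65624) (nat_lit 12) (.e (nat_lit 385074) (nat_lit 31) (.e (nat_lit 573497) (nat_lit 17) .nil))) (.g (nat_lit 0) (.e (nat_lit 263231) (nat_lit 0) .nil) .nil))) 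
(.lf (nat_lit 538349) (.g (nat_lit 4699) (.e (nat_lit 73746) (nat_lit 3) (.e (nat_lit 516131) (nat_lit 3) (.e (nat_lit 221215) (nat_lit 23) (.e (nat_lit 204829) (nat_lit 18) (.e (nat_lit 57927) (nat_lit 282) (.e (nat_lit 163869) (nat_lit 2) (.e (nat_lit 196670) (nat_lit 14) .nil))))))) (.g (nat_lit 1) (.e (nat_lit 265543) (nat_lit 0) .nil) .nil)))) (.nd (nat_lit 9) 
(.lf (nat_lit 538093) (.g (nat_lit 3327) (.e (nat_lit 65653) (nat_lit 27) (.e (nat_lit 426011) (nat_lit 0) (.e (nat_lit 7591) (nat_lit 407) (.e (nat_lit 73729) (nat_lit 0) (.e (nat_lit 7265) (nat_lit 384) (.e (nat_lit 57354) (nat_lit 0) (.e (nat_lit 7936) (nat_lit 347) .nil))))))) (.g (nat_lit 1) (.e (nat_lit 264198) (nat_lit 0) .nil) .nil))) 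
(.lf (nat_lit 538605) (.g (nat_lit 1888) (.e (nat_lit 73753) (nat_lit 8) (.e (nat_lit 557104) (nat_lit 14) (.e (nat_lit 180244) (nat_lit 5) (.e (nat_lit 532484) (nat_lit 0) (.e (nat_lit 7936) (nat_lit 149) .nil))))) (.g (nat_lit 0) (.e (nat_lit 266544) (nat_lit 0) .nil) .nil)))))))) (.nd (nat_lit 5) (.nd (nat_lit 6) (.nd (nat_lit 7) (.nd (nat_lit 8) (.nd (nat_lit 9) 
(.lf (nat_lit 537629) (.g (nat_lit 2845) (.e (nat_lit 65619) (nat_lit 10) (.e (nat_lit 344117) (nat_lit 21) (.e (nat_lit 516151) (nat_lit 9) (.e (nat_lit 426036) (nat_lit 0) .nil)))) (.g (nat_lit 0) (.e (nat_lit 262912) (nat_lit 0) .nil) .nil))) 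
(.lf (nat_lit 538141) (.g (nat_lit 1386) (.e (nat_lit 73472) (nat_lit 29) (.e (nat_lit 442430) (nat_lit 24) (.e (nat_lit 229678) (nat_lit 244) (.e (nat_lit 163896) (nat_lit 10) (.e (nat_lit 417536) (nat_lit 0) .nil))))) (.g (nat_lit 0) (.e (nat_lit 264456) (nat_lit 0) .nil) .nil)))) (.nd (nat_lit 9) 
(.lf (nat_lit 537885) (.g (nat_lit 1930) (.e (nat_lit 65628) (nat_lit 14) (.e (nat_lit 401428) (nat_lit 3) (.e (nat_lit 204863) (nat_lit 27) (.e (nat_lit 344148) (nat_lit 33) .nil)))) (.g (nat_lit 0) (.e (nat_lit 263346) (nat_lit 0) .nil) .nil))) 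
(.lf (nat_lit 538397) (.g (nat_lit 2852) (.e (nat_lit 73747) (nat_lit 3) (.e (nat_lit 516098) (nat_lit 0) (.e (nat_lit 7591) (nat_lit 407) (.e (nat_lit 73747) (nat_lit 3) (.e (nat_lit 516098) (nat_lit 0) (.e (nat_lit 7591) (nat_lit 407) .nil)))))) (.g (nat_lit 1) (.e (nat_lit 265614) (nat_lit 0) .nil) .nil))))) (.nd (nat_lit 8) (.nd (nat_lit 9) 
(.lf (nat_lit 537757) (.g (nat_lit 3074) (.e (nat_lit 65619) (nat_lit 10) (.e (nat_lit 344129) (nat_lit 26) (.e (nat_lit 557087) (nat_lit 11) (.e (nat_lit 24647) (nat_lit 12) (.e (nat_lit 385074) (nat_lit 31) (.e (nat_lit 573485) (nat_lit 13) .nil)))))) (.g (nat_lit 1) (.e (nat_lit 263060) (nat_lit 0) .nil) .nil))) 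
(.lf (nat_lit 538269) (.g (nat_lit 2936) (.e (nat_lit 73746) (nat_lit 3) (.e (nat_lit 516116) (nat_lit 1) (.e (nat_lit 164182) (nat_lit 154) (.e (nat_lit 57379) (nat_lit 3) (.e (nat_lit 98340) (nat_lit 20) .nil))))) (.g (nat_lit 0) (.e (nat_lit 265213) (nat_lit 0) .nil) .nil)))) (.nd (nat_lit 9) 
(.lf (nat_lit 538013) (.g (nat_lit 3871) (.e (nat_lit 65637) (nat_lit 15) (.e (nat_lit 3632) (nat_lit 227) (.e (nat_lit 778323) (nat_lit 5) (.e (nat_lit 73782) (nat_lit 32) (.e (nat_lit 3067) (nat_lit 190) (.e (nat_lit 483072) (nat_lit 12) .nil)))))) (.g (nat_lit 1) (.e (nat_lit 263623) (nat_lit 0) .nil) .nil))) 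
(.lf (nat_lit 538525) (.g (nat_lit 587) (.e (nat_lit 73748) (nat_lit 3) (.e (nat_lit 516139) (nat_lit 7) (.e (nat_lit 409641) (nat_lit 17) .nil))) (.g (nat_lit 0) (.e (nat_lit 266264) (nat_lit 0) .nil) .nil)))))) (.nd (nat_lit 7) (.nd (nat_lit 8) (.nd (nat_lit 9) 
(.lf (nat_lit 537693) (.g (nat_lit 2667) (.e (nat_lit 65619) (nat_lit 10) (.e (nat_lit 344126) (nat_lit 25) (.e (nat_lit 548889) (nat_lit 9) (.e (nat_lit 65599) (nat_lit 9) (.e (nat_lit 336267) (nat_lit 15) .nil))))) (.g (nat_lit 0) (.e (nat_lit 262983) (nat_lit 0) .nil) .nil))) 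
(.lf (nat_lit 538205) (.g (nat_lit 1406) (.e (nat_lit 81664) (nat_lit 5) (.e (nat_lit 532583) (nat_lit 26) (.e (nat_lit 426187) (nat_lit 9) (.e (nat_lit 426558) (nat_lit 33) (.e (nat_lit 392960) (nat_lit 5) .nil))))) (.g (nat_lit 0) (.e (nat_lit 264981) (nat_lit 0) .nil) .nil)))) (.nd (nat_lit 9) 
(.lf (nat_lit 537949) (.g (nat_lit 1924) (.e (nat_lit 65630) (nat_lit 14) (.e (nat_lit 401428) (nat_lit 3) (.e (nat_lit 204863) (nat_lit 27) (.e (nat_lit 344149) (nat_lit 33) .nil)))) (.g (nat_lit 0) (.e (nat_lit 263446) (nat_lit 0) .nil) .nil))) 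
(.lf (nat_lit 538461) (.g (nat_lit 4515) (.e (nat_lit 73747) (nat_lit 3) (.e (nat_lit 516131) (nat_lit 3) (.e (nat_lit 221215) (nat_lit 23) (.e (nat_lit 204828) (nat_lit 18) (.e (nat_lit 57931) (nat_lit 282) (.e (nat_lit 163869) (nat_lit 2) (.e (nat_lit 196668) (nat_lit 14) .nil))))))) (.g (nat_lit 1) (.e (nat_lit 266166) (nat_lit 0) .nil) .nil))))) (.nd (nat_lit 8) (.nd (nat_lit 9) 
(.lf (nat_lit 537821) (.g (nat_lit 450) (.e (nat_lit 65623) (nat_lit 12) (.e (nat_lit 385074) (nat_lit 31) (.e (nat_lit 573487) (nat_lit 14) .nil))) (.g (nat_lit 0) (.e (nat_lit 263189) (nat_lit 0) .nil) .nil))) 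
(.lf (nat_lit 538333) (.g (nat_lit 2571) (.e (nat_lit 73746) (nat_lit 3) (.e (nat_lit 516131) (nat_lit 3) (.e (nat_lit 221213) (nat_lit 23) (.e (nat_lit 204830) (nat_lit 18) (.e (nat_lit 57927) (nat_lit 282) (.e (nat_lit 163871) (nat_lit 2) (.e (nat_lit 196670) (nat_lit 14) .nil))))))) (.g (nat_lit 1) (.e (nat_lit 265525) (nat_lit 0) .nil) .nil)))) (.nd (nat_lit 9) 
(.lf (nat_lit 538077) (.g (nat_lit 2223) (.e (nat_lit 65651) (nat_lit 27) (.e (nat_lit 426012) (nat_lit 0) (.e (nat_lit 7581) (nat_lit 405) (.e (nat_lit 57480) (nat_lit 28) (.e (nat_lit 557068) (nat_lit 9) .nil))))) (.g (nat_lit 0) (.e (nat_lit 264161) (nat_lit 0) .nil) .nil))) 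
(.lf (nat_lit 538589) (.g (nat_lit 2871) (.e (nat_lit 73753) (nat_lit 8) (.e (nat_lit 557103) (nat_lit 14) (.e (nat_lit 180250) (nat_lit 10) (.e (nat_lit 573475) (nat_lit 12) (.e (nat_lit 57502) (nat_lit 38) (.e (nat_lit 638995) (nat_lit 7) (.e (nat_lit 163977) (nat_lit 30) (.e (nat_lit 573487) (nat_lit 14) .nil)))))))) (.g (nat_lit 1) (.e (nat_lit 266526) (nat_lit 0) .nil) .nil))))))) 
(.nd (nat_lit 6) (.nd (nat_lit 7) (.nd (nat_lit 8) (.nd (nat_lit 9) 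
(.lf (nat_lit 537661) (.g (nat_lit 3234) (.e (nat_lit 65619) (nat_lit 10) (.e (nat_lit 344117) (nat_lit 21) (.e (nat_lit 516159) (nat_lit 10) (.e (nat_lit 434272) (nat_lit 38) (.e (nat_lit 655375) (nat_lit 3) (.e (nat_lit 163973) (nat_lit 30) (.e (nat_lit 573479) (nat_lit 13) .nil))))))) (.g (nat_lit 1) (.e (nat_lit 262944) (nat_lit 0) .nil) .nil))) 
(.lf (nat_lit 538173) (.g (nat_lit 1517) (.e (nat_lit 73731) (nat_lit 0) (.e (nat_lit 7265) (nat_lit 384) (.e (nat_lit 57406) (nat_lit 12) (.e (nat_lit 336120) (nat_lit 9) .nil)))) (.g (nat_lit 0) (.e (nat_lit 264755) (nat_lit 0) .nil) .nil)))) (.nd (nat_lit 9) 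
(.lf (nat_lit 537917) (.g (nat_lit 3420) (.e (nat_lit 65630) (nat_lit 14) (.e (nat_lit 401425) (nat_lit 2) (.e (nat_lit 196666) (nat_lit 13) (.e (nat_lit 65629) (nat_lit 14) (.e (nat_lit 401424) (nat_lit 2) (.e (nat_lit 196663) (nat_lit 13) .nil)))))) (.g (nat_lit 1) (.e (nat_lit 263403) (nat_lit 0) .nil) .nil))) 
(.lf (nat_lit 538429) (.g (nat_lit 2395) (.e (nat_lit 73747) (nat_lit 3) (.e (nat_lit 516118) (nat_lit 1) (.e (nat_lit 164183) (nat_lit 154) (.e (nat_lit 57379) (nat_lit 3) (.e (nat_lit 98340) (nat_lit 20) (.e (nat_lit 221210) (nat_lit 22) (.e (nat_lit 196668) (nat_lit 14) .nil))))))) (.g (nat_lit 1) (.e (nat_lit 265993) (nat_lit 0) .nil) .nil))))) (.nd (nat_lit 8) (.nd (nat_lit 9) 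
(.lf (nat_lit 537789) (.g (nat_lit 3028) (.e (nat_lit 65620) (nat_lit 10) (.e (nat_lit 344117) (nat_lit 21) (.e (nat_lit 516179) (nat_lit 15) (.e (nat_lit 475198) (nat_lit 40) .nil)))) (.g (nat_lit 0) (.e (nat_lit 263108) (nat_lit 0) .nil) .nil))) 
(.lf (nat_lit 538301) (.g (nat_lit 2295) (.e (nat_lit 73746) (nat_lit 3) (.e (nat_lit 516120) (nat_lit 1) (.e (nat_lit 164182) (nat_lit 154) (.e (nat_lit 57378) (nat_lit 3) (.e (nat_lit 98342) (nat_lit 20) .nil))))) (.g (nat_lit 0) (.e (nat_lit 265404) (nat_lit 0) .nil) .nil)))) (.nd (nat_lit 9) 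
(.lf (nat_lit 538045) (.g (nat_lit 1586) (.e (nat_lit 73472) (nat_lit 18) (.e (nat_lit 204831) (nat_lit 18) (.e (nat_lit 57852) (nat_lit 252) (.e (nat_lit 57378) (nat_lit 3) .nil)))) (.g (nat_lit 0) (.e (nat_lit 263794) (nat_lit 0) .nil) .nil))) 
(.lf (nat_lit 538557) (.g (nat_lit 2124) (.e (nat_lit 73753) (nat_lit 8) (.e (nat_lit 557097) (nat_lit 13) (.e (nat_lit 172067) (nat_lit 3) (.e (nat_lit 204815) (nat_lit 17) (.e (nat_lit 2271) (nat_lit 149) .nil))))) (.g (nat_lit 0) (.e (nat_lit 266411) (nat_lit 0) .nil) .nil)))))) (.nd (nat_lit 7) (.nd (nat_lit 8) (.nd (nat_lit 9) 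
(.lf (nat_lit 537725) (.g (nat_lit 2308) (.e (nat_lit 65619) (nat_lit 10) (.e (nat_lit 344129) (nat_lit 26) (.e (nat_lit 557087) (nat_lit 11) (.e (nat_lit 24580) (nat_lit 0) .nil)))) (.g (nat_lit 0) (.e (nat_lit 263027) (nat_lit 0) .nil) .nil))) 
(.lf (nat_lit 538237) (.g (nat_lit 794) (.e (nat_lit 73745) (nat_lit 3) (.e (nat_lit 516119) (nat_lit 1) (.e (nat_lit 171776) (nat_lit 160) .nil))) (.g (nat_lit 0) (.e (nat_lit 265041) (nat_lit 0) .nil) .nil)))) (.nd (nat_lit 9) 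
(.lf (nat_lit 537981) (.g (nat_lit 1181) (.e (nat_lit 65637) (nat_lit 15) (.e (nat_lit 3253) (nat_lit 197) (.e (nat_lit 532504) (nat_lit 1) (.e (nat_lit 57851) (nat_lit 252) .nil)))) (.g (nat_lit 0) (.e (nat_lit 263531) (nat_lit 0) .nil) .nil))) 
(.lf (nat_lit 538493) (.g (nat_lit 1565) (.e (nat_lit 73747) (nat_lit 3) (.e (nat_lit 516195) (nat_lit 26) (.e (nat_lit 336027) (nat_lit 3) (.e (nat_lit 98325) (nat_lit 17) .nil)))) (.g (nat_lit 0) (.e (nat_lit 266215) (nat_lit 0) .nil) .nil))))) (.nd (nat_lit 8) (.nd (nat_lit 9) 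
(.lf (nat_lit 537853) (.g (nat_lit 2301) (.e (nat_lit 65627) (nat_lit 13) (.e (nat_lit 393284) (nat_lit 24) (.e (nat_lit 434275) (nat_lit 39) (.e (nat_lit 663584) (nat_lit 12) (.e (nat_lit 163999) (nat_lit 38) (.e (nat_lit 639020) (nat_lit 16) .nil)))))) (.g (nat_lit 1) (.e (nat_lit 263304) (nat_lit 0) .nil) .nil))) 
(.lf (nat_lit 538365) (.g (nat_lit 3338) (.e (nat_lit 73746) (nat_lit 3) (.e (nat_lit 516139) (nat_lit 7) (.e (nat_lit 409649) (nat_lit 18) (.e (nat_lit 303117) (nat_lit 2) (.e (nat_lit 196661) (nat_lit 12) (.e (nat_lit 65280) (nat_lit 192) .nil)))))) (.g (nat_lit 1) (.e (nat_lit 265565) (nat_lit 0) .nil) .nil)))) (.nd (nat_lit 9) 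
(.lf (nat_lit 538109) (.g (nat_lit 1989) (.e (nat_lit 65653) (nat_lit 27) (.e (nat_lit 426341) (nat_lit 14) (.e (nat_lit 491571) (nat_lit 13) (.e (nat_lit 393235) (nat_lit 17) (.e (nat_lit 7936) (nat_lit 406) .nil))))) (.g (nat_lit 1) (.e (nat_lit 264276) (nat_lit 0) .nil) .nil))) 
(.lf (nat_lit 538621) (.g (nat_lit 2770) (.e (nat_lit 73753) (nat_lit 8) (.e (nat_lit 557104) (nat_lit 14) (.e (nat_lit 180252) (nat_lit 10) (.e (nat_lit 573475) (nat_lit 12) (.e (nat_lit 57500) (nat_lit 37) .nil))))) (.g (nat_lit 0) (.e (nat_lit 266566) (nat_lit 0) .nil) .nil))))))))))) 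
(.nd (nat_lit 2) (.nd (nat_lit 3) (.nd (nat_lit 4) (.nd (nat_lit 5) (.nd (nat_lit 6) 
(.nd (nat_lit 7) (.nd (nat_lit 8) (.nd (nat_lit 9) 
(.lf (nat_lit 537603) (.g (nat_lit 2730) (.e (nat_lit 65619) (nat_lit 10) (.e (nat_lit 344117) (nat_lit 21) (.e (nat_lit 516145) (nat_lit 9) (.e (nat_lit 426112) (nat_lit 1) (.e (nat_lit 164348) (nat_lit 240) .nil))))) (.g (nat_lit 0) (.e (nat_lit 262886) (nat_lit 0) .nil) .nil))) 
(.lf (nat_lit 538115) (.g (nat_lit 2703) (.e (nat_lit 65653) (nat_lit 27) (.e (nat_lit 426343) (nat_lit 14) (.e (nat_lit 491546) (nat_lit 9) (.e (nat_lit 336414) (nat_lit 27) (.e (nat_lit 425984) (nat_lit 0) (.e (nat_lit 7588) (nat_lit 406) .nil)))))) (.g (nat_lit 1) (.e (nat_lit 264282) (nat_lit 0) .nil) .nil)))) (.nd (nat_lit 9) 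
(.lf (nat_lit 537859) (.g (nat_lit 644) (.e (nat_lit 65628) (nat_lit 14) (.e (nat_lit 401425) (nat_lit 2) (.e (nat_lit 196661) (nat_lit 12) .nil))) (.g (nat_lit 0) (.e (nat_lit 263313) (nat_lit 0) .nil) .nil))) 
(.lf (nat_lit 538371) (.g (nat_lit 2201) (.e (nat_lit 73746) (nat_lit 3) (.e (nat_lit 516166) (nat_lit 12) (.e (nat_lit 450585) (nat_lit 10) (.e (nat_lit 573474) (nat_lit 12) .nil)))) (.g (nat_lit 0) (.e (nat_lit 265581) (nat_lit 0) .nil) .nil))))) (.nd (nat_lit 8) (.nd (nat_lit 9) 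
(.lf (nat_lit 537731) (.g (nat_lit 2164) (.e (nat_lit 65619) (nat_lit 10) (.e (nat_lit 344129) (nat_lit 26) (.e (nat_lit 557087) (nat_lit 11) (.e (nat_lit 24588) (nat_lit 0) (.e (nat_lit 1926) (nat_lit 131) .nil))))) (.g (nat_lit 0) (.e (nat_lit 263034) (nat_lit 0) .nil) .nil))) 
(.lf (nat_lit 538243) (.g (nat_lit 1605) (.e (nat_lit 73746) (nat_lit 3) (.e (nat_lit 516098) (nat_lit 0) (.e (nat_lit 7591) (nat_lit 407) (.e (nat_lit 73739) (nat_lit 1) (.e (nat_lit 499910) (nat_lit 8) (.e (nat_lit 171776) (nat_lit 192) .nil)))))) (.g (nat_lit 1) (.e (nat_lit 265049) (nat_lit 0) .nil) .nil)))) (.nd (nat_lit 9) 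
(.lf (nat_lit 537987) (.g (nat_lit 2280) (.e (nat_lit 65637) (nat_lit 15) (.e (nat_lit 3253) (nat_lit 197) (.e (nat_lit 532504) (nat_lit 1) (.e (nat_lit 57852) (nat_lit 252) (.e (nat_lit 57377) (nat_lit 3) .nil))))) (.g (nat_lit 0) (.e (nat_lit 263537) (nat_lit 0) .nil) .nil))) 
(.lf (nat_lit 538499) (.g (nat_lit 883) (.e (nat_lit 73748) (nat_lit 3) (.e (nat_lit 516115) (nat_lit 1) (.e (nat_lit 164196) (nat_lit 158) .nil))) (.g (nat_lit 0) (.e (nat_lit 266225) (nat_lit 0) .nil) .nil)))))) (.nd (nat_lit 7) (.nd (nat_lit 8) (.nd (nat_lit 9) 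
(.lf (nat_lit 537667) (.g (nat_lit 2029) (.e (nat_lit 65619) (nat_lit 10) (.e (nat_lit 344117) (nat_lit 21) (.e (nat_lit 516160) (nat_lit 10) (.e (nat_lit 434208) (nat_lit 18) .nil)))) (.g (nat_lit 0) (.e (nat_lit 262951) (nat_lit 0) .nil) .nil))) 
(.lf (nat_lit 538179) (.g (nat_lit 2050) (.e (nat_lit 73737) (nat_lit 0) (.e (nat_lit 5949) (nat_lit 322) (.e (nat_lit 57409) (nat_lit 12) (.e (nat_lit 336421) (nat_lit 28) (.e (nat_lit 434206) (nat_lit 18) .nil))))) (.g (nat_lit 0) (.e (nat_lit 264848) (nat_lit 0) .nil) .nil)))) (.nd (nat_lit 9) 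
(.lf (nat_lit 537923) (.g (nat_lit 1088) (.e (nat_lit 65630) (nat_lit 14) (.e (nat_lit 401425) (nat_lit 2) (.e (nat_lit 196668) (nat_lit 14) (.e (nat_lit 73782) (nat_lit 32) .nil)))) (.g (nat_lit 0) (.e (nat_lit 263409) (nat_lit 0) .nil) .nil))) 
(.lf (nat_lit 538435) (.g (nat_lit 2300) (.e (nat_lit 73747) (nat_lit 3) (.e (nat_lit 516119) (nat_lit 1) (.e (nat_lit 164180) (nat_lit 154) (.e (nat_lit 57378) (nat_lit 3) (.e (nat_lit 98340) (nat_lit 20) .nil))))) (.g (nat_lit 0) (.e (nat_lit 266055) (nat_lit 0) .nil) .nil))))) (.nd (nat_lit 8) (.nd (nat_lit 9) 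
(.lf (nat_lit 537795) (.g (nat_lit 1888) (.e (nat_lit 73472) (nat_lit 10) (.e (nat_lit 344117) (nat_lit 21) (.e (nat_lit 516139) (nat_lit 7) (.e (nat_lit 409645) (nat_lit 18) (.e (nat_lit 303117) (nat_lit 2) .nil))))) (.g (nat_lit 0) (.e (nat_lit 263121) (nat_lit 0) .nil) .nil))) 
(.lf (nat_lit 538307) (.g (nat_lit 3150) (.e (nat_lit 73746) (nat_lit 3) (.e (nat_lit 516120) (nat_lit 1) (.e (nat_lit 164183) (nat_lit 154) (.e (nat_lit 57379) (nat_lit 3) (.e (nat_lit 98340) (nat_lit 20) (.e (nat_lit 221212) (nat_lit 22) (.e (nat_lit 196668) (nat_lit 14) .nil))))))) (.g (nat_lit 1) (.e (nat_lit 265482) (nat_lit 0) .nil) .nil)))) (.nd (nat_lit 9) 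
(.lf (nat_lit 538051) (.g (nat_lit 1248) (.e (nat_lit 73472) (nat_lit 18) (.e (nat_lit 204862) (nat_lit 27) (.e (nat_lit 344129) (nat_lit 26) (.e (nat_lit 557097) (nat_lit 13) .nil)))) (.g (nat_lit 0) (.e (nat_lit 263859) (nat_lit 0) .nil) .nil))) 
(.lf (nat_lit 538563) (.g (nat_lit 1506) (.e (nat_lit 73753) (nat_lit 8) (.e (nat_lit 557098) (nat_lit 13) (.e (nat_lit 172067) (nat_lit 3) (.e (nat_lit 204821) (nat_lit 17) .nil)))) (.g (nat_lit 0) (.e (nat_lit 266423) (nat_lit 0) .nil) .nil))))))) (.nd (nat_lit 6) (.nd (nat_lit 7) (.nd (nat_lit 8) (.nd (nat_lit 9) 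
(.lf (nat_lit 537635) (.g (nat_lit 3692) (.e (nat_lit 65619) (nat_lit 10) (.e (nat_lit 344117) (nat_lit 21) (.e (nat_lit 516151) (nat_lit 9) (.e (nat_lit 426037) (nat_lit 0) (.e (nat_lit 2478) (nat_lit 157) .nil))))) (.g (nat_lit 0) (.e (nat_lit 262918) (nat_lit 0) .nil) .nil))) 
(.lf (nat_lit 538147) (.g (nat_lit 1048) (.e (nat_lit 73472) (nat_lit 34) (.e (nat_lit 483385) (nat_lit 23) (.e (nat_lit 336019) (nat_lit 3) (.e (nat_lit 98333) (nat_lit 18) .nil)))) (.g (nat_lit 0) (.e (nat_lit 264545) (nat_lit 0) .nil) .nil)))) (.nd (nat_lit 9) 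
(.lf (nat_lit 537891) (.g (nat_lit 3508) (.e (nat_lit 65628) (nat_lit 14) (.e (nat_lit 401428) (nat_lit 3) (.e (nat_lit 204876) (nat_lit 31) (.e (nat_lit 376835) (nat_lit 0) (.e (nat_lit 3305) (nat_lit 202) (.e (nat_lit 573482) (nat_lit 13) .nil)))))) (.g (nat_lit 1) (.e (nat_lit 263352) (nat_lit 0) .nil) .nil))) 
(.lf (nat_lit 538403) (.g (nat_lit 2299) (.e (nat_lit 73747) (nat_lit 3) (.e (nat_lit 516098) (nat_lit 0) (.e (nat_lit 7593) (nat_lit 407) (.e (nat_lit 73746) (nat_lit 3) (.e (nat_lit 516106) (nat_lit 0) (.e (nat_lit 7936) (nat_lit 407) .nil)))))) (.g (nat_lit 1) (.e (nat_lit 265620) (nat_lit 0) .nil) .nil))))) (.nd (nat_lit 8) (.nd (nat_lit 9) 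
(.lf (nat_lit 537763) (.g (nat_lit 3141) (.e (nat_lit 65619) (nat_lit 10) (.e (nat_lit 344129) (nat_lit 26) (.e (nat_lit 557087) (nat_lit 11) (.e (nat_lit 24673) (nat_lit 15) .nil)))) (.g (nat_lit 0) (.e (nat_lit 263066) (nat_lit 0) .nil) .nil))) 
(.lf (nat_lit 538275) (.g (nat_lit 2795) (.e (nat_lit 73746) (nat_lit 3) (.e (nat_lit 516117) (nat_lit 1) (.e (nat_lit 164180) (nat_lit 154) (.e (nat_lit 57378) (nat_lit 3) (.e (nat_lit 98340) (nat_lit 20) (.e (nat_lit 221212) (nat_lit 22) (.e (nat_lit 196670) (nat_lit 14) .nil))))))) (.g (nat_lit 1) (.e (nat_lit 265226) (nat_lit 0) .nil) .nil)))) (.nd (nat_lit 9) 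
(.lf (nat_lit 538019) (.g (nat_lit 1242) (.e (nat_lit 65637) (nat_lit 15) (.e (nat_lit 3748) (nat_lit 228) (.e (nat_lit 786483) (nat_lit 30) (.e (nat_lit 360483) (nat_lit 15) .nil)))) (.g (nat_lit 0) (.e (nat_lit 263648) (nat_lit 0) .nil) .nil))) 
(.lf (nat_lit 538531) (.g (nat_lit 1411) (.e (nat_lit 73748) (nat_lit 3) (.e (nat_lit 516139) (nat_lit 7) (.e (nat_lit 409642) (nat_lit 17) (.e (nat_lit 294931) (nat_lit 3) .nil)))) (.g (nat_lit 0) (.e (nat_lit 266271) (nat_lit 0) .nil) .nil)))))) (.nd (nat_lit 7) (.nd (nat_lit 8) (.nd (nat_lit 9) 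
(.lf (nat_lit 537699) (.g (nat_lit 1815) (.e (nat_lit 65619) (nat_lit 10) (.e (nat_lit 344138) (nat_lit 29) (.e (nat_lit 581653) (nat_lit 6) (.e (nat_lit 188441) (nat_lit 20) (.e (nat_lit 3578) (nat_lit 223) (.e (nat_lit 745491) (nat_lit 4) .nil)))))) (.g (nat_lit 1) (.e (nat_lit 262991) (nat_lit 0) .nil) .nil))) 
(.lf (nat_lit 538211) (.g (nat_lit 1669) (.e (nat_lit 81664) (nat_lit 5) (.e (nat_lit 532583) (nat_lit 26) (.e (nat_lit 426190) (nat_lit 9) (.e (nat_lit 426562) (nat_lit 33) (.e (nat_lit 392960) (nat_lit 5) .nil))))) (.g (nat_lit 0) (.e (nat_lit 264987) (nat_lit 0) .nil) .nil)))) (.nd (nat_lit 9) 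
(.lf (nat_lit 537955) (.g (nat_lit 2536) (.e (nat_lit 65630) (nat_lit 14) (.e (nat_lit 401428) (nat_lit 3) (.e (nat_lit 204869) (nat_lit 29) (.e (nat_lit 360448) (nat_lit 0) (.e (nat_lit 3986) (nat_lit 239) .nil))))) (.g (nat_lit 0) (.e (nat_lit 263452) (nat_lit 0) .nil) .nil))) 
(.lf (nat_lit 538467) (.g (nat_lit 5018) (.e (nat_lit 73747) (nat_lit 3) (.e (nat_lit 516131) (nat_lit 3) (.e (nat_lit 221215) (nat_lit 23) (.e (nat_lit 204831) (nat_lit 18) (.e (nat_lit 57931) (nat_lit 282) (.e (nat_lit 163869) (nat_lit 2) (.e (nat_lit 196668) (nat_lit 14) .nil))))))) (.g (nat_lit 1) (.e (nat_lit 266172) (nat_lit 0) .nil) .nil))))) (.nd (nat_lit 8) (.nd (nat_lit 9) 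
(.lf (nat_lit 537827) (.g (nat_lit 1825) (.e (nat_lit 65623) (nat_lit 12) (.e (nat_lit 385106) (nat_lit 50) (.e (nat_lit 786483) (nat_lit 30) (.e (nat_lit 360457) (nat_lit 0) (.e (nat_lit 5818) (nat_lit 320) .nil))))) (.g (nat_lit 0) (.e (nat_lit 263211) (nat_lit 0) .nil) .nil))) 
(.lf (nat_lit 538339) (.g (nat_lit 3223) (.e (nat_lit 73746) (nat_lit 3) (.e (nat_lit 516131) (nat_lit 3) (.e (nat_lit 221214) (nat_lit 23) (.e (nat_lit 204830) (nat_lit 18) (.e (nat_lit 57926) (nat_lit 282) (.e (nat_lit 163871) (nat_lit 2) (.e (nat_lit 196668) (nat_lit 14) .nil))))))) (.g (nat_lit 1) (.e (nat_lit 265531) (nat_lit 0) .nil) .nil)))) (.nd (nat_lit 9) 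
(.lf (nat_lit 538083) (.g (nat_lit 3461) (.e (nat_lit 65652) (nat_lit 27) (.e (nat_lit 426163) (nat_lit 6) (.e (nat_lit 253991) (nat_lit 11) (.e (nat_lit 16416) (nat_lit 3) (.e (nat_lit 204817) (nat_lit 17) .nil))))) (.g (nat_lit 0) (.e (nat_lit 264174) (nat_lit 0) .nil) .nil))) 
(.lf (nat_lit 538595) (.g (nat_lit 2899) (.e (nat_lit 73753) (nat_lit 8) (.e (nat_lit 557103) (nat_lit 14) (.e (nat_lit 180250) (nat_lit 10) (.e (nat_lit 573475) (nat_lit 12) (.e (nat_lit 57507) (nat_lit 39) (.e (nat_lit 647176) (nat_lit 0) (.e (nat_lit 2667) (nat_lit 167) (.e (nat_lit 196670) (nat_lit 14) .nil)))))))) (.g (nat_lit 1) (.e (nat_lit 266532) (nat_lit 0) .nil) .nil)))))))) 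
(.nd (nat_lit 5) (.nd (nat_lit 6) (.nd (nat_lit 7) (.nd (nat_lit 8) (.nd (nat_lit 9) 
(.lf (nat_lit 537619) (.g (nat_lit 2143) (.e (nat_lit 65619) (nat_lit 10) (.e (nat_lit 344117) (nat_lit 21) (.e (nat_lit 516149) (nat_lit 9) (.e (nat_lit 426444) (nat_lit 19) (.e (nat_lit 114432) (nat_lit 3) .nil))))) (.g (nat_lit 0) (.e (nat_lit 262902) (nat_lit 0) .nil) .nil))) 
(.lf (nat_lit 538131) (.g (nat_lit 1990) (.e (nat_lit 65653) (nat_lit 27) (.e (nat_lit 426344) (nat_lit 14) (.e (nat_lit 491568) (nat_lit 13) (.e (nat_lit 393242) (nat_lit 17) (.e (nat_lit 7936) (nat_lit 406) .nil))))) (.g (nat_lit 1) (.e (nat_lit 264299) (nat_lit 0) .nil) .nil)))) (.nd (nat_lit 9) 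
(.lf (nat_lit 537875) (.g (nat_lit 3673) (.e (nat_lit 65628) (nat_lit 14) (.e (nat_lit 401428) (nat_lit 3) (.e (nat_lit 204849) (nat_lit 25) (.e (nat_lit 327698) (nat_lit 8) (.e (nat_lit 303117) (nat_lit 2) (.e (nat_lit 196665) (nat_lit 13) .nil)))))) (.g (nat_lit 1) (.e (nat_lit 263334) (nat_lit 0) .nil) .nil))) 
(.lf (nat_lit 538387) (.g (nat_lit 3699) (.e (nat_lit 73746) (nat_lit 3) (.e (nat_lit 516185) (nat_lit 16) (.e (nat_lit 491560) (nat_lit 10) (.e (nat_lit 344118) (nat_lit 21) (.e (nat_lit 516098) (nat_lit 0) (.e (nat_lit 7593) (nat_lit 407) .nil)))))) (.g (nat_lit 1) (.e (nat_lit 265601) (nat_lit 0) .nil) .nil))))) (.nd (nat_lit 8) (.nd (nat_lit 9) 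
(.lf (nat_lit 537747) (.g (nat_lit 3030) (.e (nat_lit 65619) (nat_lit 10) (.e (nat_lit 344129) (nat_lit 26) (.e (nat_lit 557087) (nat_lit 11) (.e (nat_lit 24625) (nat_lit 9) (.e (nat_lit 336261) (nat_lit 15) (.e (nat_lit 3307) (nat_lit 202) (.e (nat_lit 573485) (nat_lit 13) .nil))))))) (.g (nat_lit 1) (.e (nat_lit 263050) (nat_lit 0) .nil) .nil))) 
(.lf (nat_lit 538259) (.g (nat_lit 3912) (.e (nat_lit 73746) (nat_lit 3) (.e (nat_lit 516115) (nat_lit 1) (.e (nat_lit 164179) (nat_lit 154) (.e (nat_lit 57378) (nat_lit 3) (.e (nat_lit 98341) (nat_lit 20) (.e (nat_lit 221212) (nat_lit 22) (.e (nat_lit 196668) (nat_lit 14) .nil))))))) (.g (nat_lit 1) (.e (nat_lit 265138) (nat_lit 0) .nil) .nil)))) (.nd (nat_lit 9) 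
(.lf (nat_lit 538003) (.g (nat_lit 2117) (.e (nat_lit 65637) (nat_lit 15) (.e (nat_lit 3305) (nat_lit 202) (.e (nat_lit 573485) (nat_lit 13) (.e (nat_lit 65619) (nat_lit 10) (.e (nat_lit 344115) (nat_lit 20) (.e (nat_lit 507907) (nat_lit 0) (.e (nat_lit 5401) (nat_lit 302) .nil))))))) (.g (nat_lit 1) (.e (nat_lit 263598) (nat_lit 0) .nil) .nil))) 
(.lf (nat_lit 538515) (.g (nat_lit 1337) (.e (nat_lit 73748) (nat_lit 3) (.e (nat_lit 516131) (nat_lit 3) (.e (nat_lit 221215) (nat_lit 23) (.e (nat_lit 204830) (nat_lit 18) .nil)))) (.g (nat_lit 0) (.e (nat_lit 266251) (nat_lit 0) .nil) .nil)))))) (.nd (nat_lit 7) (.nd (nat_lit 8) (.nd (nat_lit 9) 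
(.lf (nat_lit 537683) (.g (nat_lit 1441) (.e (nat_lit 65619) (nat_lit 10) (.e (nat_lit 344117) (nat_lit 21) (.e (nat_lit 516171) (nat_lit 13) (.e (nat_lit 458804) (nat_lit 38) .nil)))) (.g (nat_lit 0) (.e (nat_lit 262968) (nat_lit 0) .nil) .nil))) 
(.lf (nat_lit 538195) (.g (nat_lit 2919) (.e (nat_lit 73739) (nat_lit 1) (.e (nat_lit 499848) (nat_lit 5) (.e (nat_lit 3102) (nat_lit 192) (.e (nat_lit 491560) (nat_lit 10) (.e (nat_lit 344115) (nat_lit 20) (.e (nat_lit 507907) (nat_lit 0) (.e (nat_lit 5412) (nat_lit 303) .nil))))))) (.g (nat_lit 1) (.e (nat_lit 264924) (nat_lit 0) .nil) .nil)))) (.nd (nat_lit 9) 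
(.lf (nat_lit 537939) (.g (nat_lit 1991) (.e (nat_lit 65630) (nat_lit 14) (.e (nat_lit 401428) (nat_lit 3) (.e (nat_lit 204861) (nat_lit 26) (.e (nat_lit 336194) (nat_lit 12) (.e (nat_lit 385073) (nat_lit 31) (.e (nat_lit 573485) (nat_lit 13) .nil)))))) (.g (nat_lit 1) (.e (nat_lit 263435) (nat_lit 0) .nil) .nil))) 
(.lf (nat_lit 538451) (.g (nat_lit 4251) (.e (nat_lit 73747) (nat_lit 3) (.e (nat_lit 516129) (nat_lit 3) (.e (nat_lit 221215) (nat_lit 23) (.e (nat_lit 204828) (nat_lit 18) (.e (nat_lit 57931) (nat_lit 282) (.e (nat_lit 163869) (nat_lit 2) (.e (nat_lit 196668) (nat_lit 14) .nil))))))) (.g (nat_lit 1) (.e (nat_lit 266151) (nat_lit 0) .nil) .nil))))) (.nd (nat_lit 8) (.nd (nat_lit 9) 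
(.lf (nat_lit 537811) (.g (nat_lit 2847) (.e (nat_lit 65623) (nat_lit 12) (.e (nat_lit 385068) (nat_lit 26) (.e (nat_lit 532513) (nat_lit 3) (.e (nat_lit 114697) (nat_lit 11) (.e (nat_lit 426122) (nat_lit 2) (.e (nat_lit 196665) (nat_lit 13) .nil)))))) (.g (nat_lit 1) (.e (nat_lit 263160) (nat_lit 0) .nil) .nil))) 
(.lf (nat_lit 538323) (.g (nat_lit 3165) (.e (nat_lit 73746) (nat_lit 3) (.e (nat_lit 516129) (nat_lit 3) (.e (nat_lit 221214) (nat_lit 23) (.e (nat_lit 204830) (nat_lit 18) (.e (nat_lit 57930) (nat_lit 282) (.e (nat_lit 163867) (nat_lit 2) (.e (nat_lit 196668) (nat_lit 14) .nil))))))) (.g (nat_lit 1) (.e (nat_lit 265510) (nat_lit 0) .nil) .nil)))) (.nd (nat_lit 9) 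
(.lf (nat_lit 538067) (.g (nat_lit 3134) (.e (nat_lit 65648) (nat_lit 26) (.e (nat_lit 417811) (nat_lit 6) (.e (nat_lit 286748) (nat_lit 9) (.e (nat_lit 336389) (nat_lit 27) (.e (nat_lit 426012) (nat_lit 0) (.e (nat_lit 7589) (nat_lit 406) .nil)))))) (.g (nat_lit 1) (.e (nat_lit 264125) (nat_lit 0) .nil) .nil))) 
(.lf (nat_lit 538579) (.g (nat_lit 508) (.e (nat_lit 73753) (nat_lit 8) (.e (nat_lit 557103) (nat_lit 14) (.e (nat_lit 188160) (nat_lit 3) .nil))) (.g (nat_lit 0) (.e (nat_lit 266514) (nat_lit 0) .nil) .nil))))))) (.nd (nat_lit 6) (.nd (nat_lit 7) (.nd (nat_lit 8) (.nd (nat_lit 9) 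
(.lf (nat_lit 537651) (.g (nat_lit 3038) (.e (nat_lit 65619) (nat_lit 10) (.e (nat_lit 344117) (nat_lit 21) (.e (nat_lit 516151) (nat_lit 9) (.e (nat_lit 426367) (nat_lit 15) .nil)))) (.g (nat_lit 0) (.e (nat_lit 262934) (nat_lit 0) .nil) .nil))) 
(.lf (nat_lit 538163) (.g (nat_lit 2834) (.e (nat_lit 73729) (nat_lit 0) (.e (nat_lit 4539) (nat_lit 267) (.e (nat_lit 163871) (nat_lit 2) (.e (nat_lit 196656) (nat_lit 11) (.e (nat_lit 16425) (nat_lit 7) (.e (nat_lit 409617) (nat_lit 10) (.e (nat_lit 858) (nat_lit 75) (.e (nat_lit 778323) (nat_lit 5) .nil)))))))) (.g (nat_lit 1) (.e (nat_lit 264684) (nat_lit 0) .nil) .nil)))) (.nd (nat_lit 9) 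
(.lf (nat_lit 537907) (.g (nat_lit 1822) (.e (nat_lit 65630) (nat_lit 14) (.e (nat_lit 401425) (nat_lit 2) (.e (nat_lit 196666) (nat_lit 13) (.e (nat_lit 65538) (nat_lit 0) .nil)))) (.g (nat_lit 0) (.e (nat_lit 263393) (nat_lit 0) .nil) .nil))) 
(.lf (nat_lit 538419) (.g (nat_lit 2353) (.e (nat_lit 73747) (nat_lit 3) (.e (nat_lit 516116) (nat_lit 1) (.e (nat_lit 164183) (nat_lit 154) (.e (nat_lit 57379) (nat_lit 3) (.e (nat_lit 98340) (nat_lit 20) .nil))))) (.g (nat_lit 0) (.e (nat_lit 265892) (nat_lit 0) .nil) .nil))))) (.nd (nat_lit 8) (.nd (nat_lit 9) 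
(.lf (nat_lit 537779) (.g (nat_lit 733) (.e (nat_lit 65620) (nat_lit 10) (.e (nat_lit 344117) (nat_lit 21) (.e (nat_lit 516106) (nat_lit 0) .nil))) (.g (nat_lit 0) (.e (nat_lit 263098) (nat_lit 0) .nil) .nil))) 
(.lf (nat_lit 538291) (.g (nat_lit 2575) (.e (nat_lit 73746) (nat_lit 3) (.e (nat_lit 516119) (nat_lit 1) (.e (nat_lit 164182) (nat_lit 154) (.e (nat_lit 57379) (nat_lit 3) (.e (nat_lit 98341) (nat_lit 20) .nil))))) (.g (nat_lit 0) (.e (nat_lit 265369) (nat_lit 0) .nil) .nil)))) (.nd (nat_lit 9) 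
(.lf (nat_lit 538035) (.g (nat_lit 1836) (.e (nat_lit 73472) (nat_lit 15) (.e (nat_lit 3253) (nat_lit 197) (.e (nat_lit 532563) (nat_lit 15) (.e (nat_lit 385066) (nat_lit 26) (.e (nat_lit 532530) (nat_lit 9) .nil))))) (.g (nat_lit 0) (.e (nat_lit 263745) (nat_lit 0) .nil) .nil))) 
(.lf (nat_lit 538547) (.g (nat_lit 779) (.e (nat_lit 73753) (nat_lit 8) (.e (nat_lit 557090) (nat_lit 12) (.e (nat_lit 163841) (nat_lit 0) .nil))) (.g (nat_lit 0) (.e (nat_lit 266385) (nat_lit 0) .nil) .nil)))))) (.nd (nat_lit 7) (.nd (nat_lit 8) (.nd (nat_lit 9) 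
(.lf (nat_lit 537715) (.g (nat_lit 1841) (.e (nat_lit 65619) (nat_lit 10) (.e (nat_lit 344129) (nat_lit 26) (.e (nat_lit 557066) (nat_lit 9) (.e (nat_lit 336) (nat_lit 26) .nil)))) (.g (nat_lit 0) (.e (nat_lit 263015) (nat_lit 0) .nil) .nil))) 
(.lf (nat_lit 538227) (.g (nat_lit 908) (.e (nat_lit 73750) (nat_lit 6) (.e (nat_lit 540724) (nat_lit 28) (.e (nat_lit 442395) (nat_lit 20) (.e (nat_lit 3571) (nat_lit 222) (.e (nat_lit 737284) (nat_lit 0) (.e (nat_lit 5412) (nat_lit 303) .nil)))))) (.g (nat_lit 1) (.e (nat_lit 265027) (nat_lit 0) .nil) .nil)))) (.nd (nat_lit 9) 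
(.lf (nat_lit 537971) (.g (nat_lit 1248) (.e (nat_lit 65636) (nat_lit 15) (.e (nat_lit 3302) (nat_lit 202) (.e (nat_lit 573492) (nat_lit 15) (.e (nat_lit 81956) (nat_lit 23) .nil)))) (.g (nat_lit 0) (.e (nat_lit 263519) (nat_lit 0) .nil) .nil))) 
(.lf (nat_lit 538483) (.g (nat_lit 3008) (.e (nat_lit 73747) (nat_lit 3) (.e (nat_lit 516139) (nat_lit 7) (.e (nat_lit 409640) (nat_lit 17) (.e (nat_lit 294931) (nat_lit 3) (.e (nat_lit 98323) (nat_lit 17) (.e (nat_lit 7936) (nat_lit 407) .nil)))))) (.g (nat_lit 1) (.e (nat_lit 266190) (nat_lit 0) .nil) .nil))))) (.nd (nat_lit 8) (.nd (nat_lit 9) 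
(.lf (nat_lit 537843) (.g (nat_lit 2804) (.e (nat_lit 65626) (nat_lit 13) (.e (nat_lit 393225) (nat_lit 9) (.e (nat_lit 335986) (nat_lit 1) (.e (nat_lit 57931) (nat_lit 282) (.e (nat_lit 163867) (nat_lit 2) (.e (nat_lit 196665) (nat_lit 13) .nil)))))) (.g (nat_lit 1) (.e (nat_lit 263254) (nat_lit 0) .nil) .nil))) 
(.lf (nat_lit 538355) (.g (nat_lit 2695) (.e (nat_lit 73746) (nat_lit 3) (.e (nat_lit 516131) (nat_lit 3) (.e (nat_lit 221215) (nat_lit 23) (.e (nat_lit 204830) (nat_lit 18) (.e (nat_lit 57930) (nat_lit 282) (.e (nat_lit 163867) (nat_lit 2) (.e (nat_lit 196668) (nat_lit 14) .nil))))))) (.g (nat_lit 1) (.e (nat_lit 265549) (nat_lit 0) .nil) .nil)))) (.nd (nat_lit 9) 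
(.lf (nat_lit 538099) (.g (nat_lit 1566) (.e (nat_lit 65653) (nat_lit 27) (.e (nat_lit 426308) (nat_lit 12) (.e (nat_lit 475208) (nat_lit 41) (.e (nat_lit 712745) (nat_lit 27) (.e (nat_lit 425984) (nat_lit 0) (.e (nat_lit 7586) (nat_lit 406) .nil)))))) (.g (nat_lit 1) (.e (nat_lit 264255) (nat_lit 0) .nil) .nil))) 
(.lf (nat_lit 538611) (.g (nat_lit 1341) (.e (nat_lit 73753) (nat_lit 8) (.e (nat_lit 557104) (nat_lit 14) (.e (nat_lit 180251) (nat_lit 10) (.e (nat_lit 573478) (nat_lit 12) .nil)))) (.g (nat_lit 0) (.e (nat_lit 266553) (nat_lit 0) .nil) .nil))))))))) (.nd (nat_lit 4) (.nd (nat_lit 5) (.nd (nat_lit 6) (.nd (nat_lit 7) (.nd (nat_lit 8) (.nd (nat_lit 9) 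
(.lf (nat_lit 537611) (.g (nat_lit 2557) (.e (nat_lit 65619) (nat_lit 10) (.e (nat_lit 344117) (nat_lit 21) (.e (nat_lit 516145) (nat_lit 9) (.e (nat_lit 426399) (nat_lit 15) .nil)))) (.g (nat_lit 0) (.e (nat_lit 262894) (nat_lit 0) .nil) .nil))) 
(.lf (nat_lit 538123) (.g (nat_lit 2534) (.e (nat_lit 65653) (nat_lit 27) (.e (nat_lit 426343) (nat_lit 14) (.e (nat_lit 491552) (nat_lit 9) (.e (nat_lit 336412) (nat_lit 27) (.e (nat_lit 426012) (nat_lit 0) (.e (nat_lit 7589) (nat_lit 406) .nil)))))) (.g (nat_lit 1) (.e (nat_lit 264290) (nat_lit 0) .nil) .nil)))) (.nd (nat_lit 9) 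
(.lf (nat_lit 537867) (.g (nat_lit 2638) (.e (nat_lit 65628) (nat_lit 14) (.e (nat_lit 401425) (nat_lit 2) (.e (nat_lit 196666) (nat_lit 13) (.e (nat_lit 65630) (nat_lit 14) (.e (nat_lit 401412) (nat_lit 0) .nil))))) (.g (nat_lit 0) (.e (nat_lit 263322) (nat_lit 0) .nil) .nil))) 
(.lf (nat_lit 538379) (.g (nat_lit 2577) (.e (nat_lit 73746) (nat_lit 3) (.e (nat_lit 516183) (nat_lit 16) (.e (nat_lit 491546) (nat_lit 9) (.e (nat_lit 336028) (nat_lit 3) (.e (nat_lit 98320) (nat_lit 17) (.e (nat_lit 7593) (nat_lit 407) .nil)))))) (.g (nat_lit 1) (.e (nat_lit 265589) (nat_lit 0) .nil) .nil))))) (.nd (nat_lit 8) (.nd (nat_lit 9) 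
(.lf (nat_lit 537739) (.g (nat_lit 2733) (.e (nat_lit 65619) (nat_lit 10) (.e (nat_lit 344129) (nat_lit 26) (.e (nat_lit 557087) (nat_lit 11) (.e (nat_lit 24623) (nat_lit 9) (.e (nat_lit 336260) (nat_lit 15) (.e (nat_lit 3307) (nat_lit 202) (.e (nat_lit 573485) (nat_lit 13) .nil))))))) (.g (nat_lit 1) (.e (nat_lit 263042) (nat_lit 0) .nil) .nil))) 
(.lf (nat_lit 538251) (.g (nat_lit 557) (.e (nat_lit 73746) (nat_lit 3) (.e (nat_lit 516106) (nat_lit 0) (.e (nat_lit 7936) (nat_lit 407) .nil))) (.g (nat_lit 0) (.e (nat_lit 265064) (nat_lit 0) .nil) .nil)))) (.nd (nat_lit 9) 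
(.lf (nat_lit 537995) (.g (nat_lit 1914) (.e (nat_lit 65637) (nat_lit 15) (.e (nat_lit 3305) (nat_lit 202) (.e (nat_lit 573482) (nat_lit 13) (.e (nat_lit 65619) (nat_lit 10) (.e (nat_lit 344115) (nat_lit 20) .nil))))) (.g (nat_lit 0) (.e (nat_lit 263580) (nat_lit 0) .nil) .nil))) 
(.lf (nat_lit 538507) (.g (nat_lit 598) (.e (nat_lit 73748) (nat_lit 3) (.e (nat_lit 516131) (nat_lit 3) (.e (nat_lit 221214) (nat_lit 23) .nil))) (.g (nat_lit 0) (.e (nat_lit 266238) (nat_lit 0) .nil) .nil)))))) (.nd (nat_lit 7) (.nd (nat_lit 8) (.nd (nat_lit 9) 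
(.lf (nat_lit 537675) (.g (nat_lit 4890) (.e (nat_lit 65619) (nat_lit 10) (.e (nat_lit 344117) (nat_lit 21) (.e (nat_lit 516160) (nat_lit 10) (.e (nat_lit 434272) (nat_lit 38) (.e (nat_lit 655373) (nat_lit 3) (.e (nat_lit 163979) (nat_lit 30) (.e (nat_lit 573482) (nat_lit 13) .nil))))))) (.g (nat_lit 1) (.e (nat_lit 262959) (nat_lit 0) .nil) .nil))) 
(.lf (nat_lit 538187) (.g (nat_lit 2956) (.e (nat_lit 73739) (nat_lit 1) (.e (nat_lit 499833) (nat_lit 5) (.e (nat_lit 3102) (nat_lit 192) (.e (nat_lit 491560) (nat_lit 10) (.e (nat_lit 344115) (nat_lit 20) (.e (nat_lit 507908) (nat_lit 0) (.e (nat_lit 5412) (nat_lit 303) .nil))))))) (.g (nat_lit 1) (.e (nat_lit 264916) (nat_lit 0) .nil) .nil)))) (.nd (nat_lit 9) 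
(.lf (nat_lit 537931) (.g (nat_lit 682) (.e (nat_lit 65630) (nat_lit 14) (.e (nat_lit 401425) (nat_lit 2) (.e (nat_lit 196682) (nat_lit 17) .nil))) (.g (nat_lit 0) (.e (nat_lit 263418) (nat_lit 0) .nil) .nil))) 
(.lf (nat_lit 538443) (.g (nat_lit 2137) (.e (nat_lit 73747) (nat_lit 3) (.e (nat_lit 516120) (nat_lit 1) (.e (nat_lit 164180) (nat_lit 154) (.e (nat_lit 57379) (nat_lit 3) (.e (nat_lit 98342) (nat_lit 20) .nil))))) (.g (nat_lit 0) (.e (nat_lit 266076) (nat_lit 0) .nil) .nil))))) (.nd (nat_lit 8) (.nd (nat_lit 9) 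
(.lf (nat_lit 537803) (.g (nat_lit 1804) (.e (nat_lit 65622) (nat_lit 12) (.e (nat_lit 385074) (nat_lit 31) (.e (nat_lit 573454) (nat_lit 9) (.e (nat_lit 970) (nat_lit 81) .nil)))) (.g (nat_lit 0) (.e (nat_lit 263140) (nat_lit 0) .nil) .nil))) 
(.lf (nat_lit 538315) (.g (nat_lit 2905) (.e (nat_lit 73746) (nat_lit 3) (.e (nat_lit 516129) (nat_lit 3) (.e (nat_lit 221214) (nat_lit 23) (.e (nat_lit 204829) (nat_lit 18) (.e (nat_lit 57924) (nat_lit 282) (.e (nat_lit 163867) (nat_lit 2) (.e (nat_lit 196668) (nat_lit 14) .nil))))))) (.g (nat_lit 1) (.e (nat_lit 265502) (nat_lit 0) .nil) .nil)))) (.nd (nat_lit 9) 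
(.lf (nat_lit 538059) (.g (nat_lit 2427) (.e (nat_lit 73472) (nat_lit 18) (.e (nat_lit 204880) (nat_lit 32) (.e (nat_lit 385068) (nat_lit 26) (.e (nat_lit 532530) (nat_lit 9) (.e (nat_lit 336316) (nat_lit 17) .nil))))) (.g (nat_lit 0) (.e (nat_lit 263907) (nat_lit 0) .nil) .nil))) 
(.lf (nat_lit 538571) (.g (nat_lit 3513) (.e (nat_lit 73753) (nat_lit 8) (.e (nat_lit 557103) (nat_lit 14) (.e (nat_lit 180243) (nat_lit 5) (.e (nat_lit 532481) (nat_lit 0) (.e (nat_lit 2271) (nat_lit 149) (.e (nat_lit 761898) (nat_lit 15) (.e (nat_lit 163979) (nat_lit 30) (.e (nat_lit 573487) (nat_lit 14) .nil)))))))) (.g (nat_lit 1) (.e (nat_lit 266448) (nat_lit 0) .nil) .nil))))))) 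
(.nd (nat_lit 6) (.nd (nat_lit 7) (.nd (nat_lit 8) (.nd (nat_lit 9) 
(.lf (nat_lit 537643) (.g (nat_lit 2963) (.e (nat_lit 65619) (nat_lit 10) (.e (nat_lit 344117) (nat_lit 21) (.e (nat_lit 516151) (nat_lit 9) (.e (nat_lit 426046) (nat_lit 0) (.e (nat_lit 2458) (nat_lit 157) .nil))))) (.g (nat_lit 0) (.e (nat_lit 262926) (nat_lit 0) .nil) .nil))) 
(.lf (nat_lit 538155) (.g (nat_lit 316) (.e (nat_lit 73472) (nat_lit 34) (.e (nat_lit 483408) (nat_lit 26) (.e (nat_lit 385068) (nat_lit 26) .nil))) (.g (nat_lit 0) (.e (nat_lit 264632) (nat_lit 0) .nil) .nil)))) (.nd (nat_lit 9) 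
(.lf (nat_lit 537899) (.g (nat_lit 1121) (.e (nat_lit 65628) (nat_lit 14) (.e (nat_lit 401438) (nat_lit 9) (.e (nat_lit 426542) (nat_lit 29) (.e (nat_lit 352281) (nat_lit 20) .nil)))) (.g (nat_lit 0) (.e (nat_lit 263376) (nat_lit 0) .nil) .nil))) 
(.lf (nat_lit 538411) (.g (nat_lit 5311) (.e (nat_lit 73747) (nat_lit 3) (.e (nat_lit 516115) (nat_lit 1) (.e (nat_lit 164179) (nat_lit 154) (.e (nat_lit 57378) (nat_lit 3) (.e (nat_lit 98342) (nat_lit 20) (.e (nat_lit 221212) (nat_lit 22) (.e (nat_lit 196668) (nat_lit 14) .nil))))))) (.g (nat_lit 1) (.e (nat_lit 265756) (nat_lit 0) .nil) .nil))))) (.nd (nat_lit 8) (.nd (nat_lit 9) 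
(.lf (nat_lit 537771) (.g (nat_lit 3473) (.e (nat_lit 65619) (nat_lit 10) (.e (nat_lit 344129) (nat_lit 26) (.e (nat_lit 557090) (nat_lit 12) (.e (nat_lit 164015) (nat_lit 43) .nil)))) (.g (nat_lit 0) (.e (nat_lit 263075) (nat_lit 0) .nil) .nil))) 
(.lf (nat_lit 538283) (.g (nat_lit 2615) (.e (nat_lit 73746) (nat_lit 3) (.e (nat_lit 516118) (nat_lit 1) (.e (nat_lit 164182) (nat_lit 154) (.e (nat_lit 57379) (nat_lit 3) (.e (nat_lit 98342) (nat_lit 20) (.e (nat_lit 221212) (nat_lit 22) (.e (nat_lit 196670) (nat_lit 14) .nil))))))) (.g (nat_lit 1) (.e (nat_lit 265290) (nat_lit 0) .nil) .nil)))) (.nd (nat_lit 9) 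
(.lf (nat_lit 538027) (.g (nat_lit 2589) (.e (nat_lit 65642) (nat_lit 15) (.e (nat_lit 3253) (nat_lit 197) (.e (nat_lit 532563) (nat_lit 15) (.e (nat_lit 385068) (nat_lit 26) (.e (nat_lit 532530) (nat_lit 9) .nil))))) (.g (nat_lit 0) (.e (nat_lit 263709) (nat_lit 0) .nil) .nil))) 
(.lf (nat_lit 538539) (.g (nat_lit 2809) (.e (nat_lit 73752) (nat_lit 8) (.e (nat_lit 557105) (nat_lit 14) (.e (nat_lit 180252) (nat_lit 10) (.e (nat_lit 573474) (nat_lit 12) .nil)))) (.g (nat_lit 0) (.e (nat_lit 266360) (nat_lit 0) .nil) .nil)))))) (.nd (nat_lit 7) (.nd (nat_lit 8) (.nd (nat_lit 9) 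
(.lf (nat_lit 537707) (.g (nat_lit 2354) (.e (nat_lit 65619) (nat_lit 10) (.e (nat_lit 344129) (nat_lit 26) (.e (nat_lit 557066) (nat_lit 9) (.e (nat_lit 232) (nat_lit 21) (.e (nat_lit 336089) (nat_lit 9) .nil))))) (.g (nat_lit 0) (.e (nat_lit 263003) (nat_lit 0) .nil) .nil))) 
(.lf (nat_lit 538219) (.g (nat_lit 1843) (.e (nat_lit 81664) (nat_lit 5) (.e (nat_lit 532583) (nat_lit 26) (.e (nat_lit 426200) (nat_lit 9) (.e (nat_lit 426558) (nat_lit 33) (.e (nat_lit 392960) (nat_lit 5) .nil))))) (.g (nat_lit 0) (.e (nat_lit 264998) (nat_lit 0) .nil) .nil)))) (.nd (nat_lit 9) 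
(.lf (nat_lit 537963) (.g (nat_lit 2887) (.e (nat_lit 65630) (nat_lit 14) (.e (nat_lit 401438) (nat_lit 9) (.e (nat_lit 426542) (nat_lit 29) (.e (nat_lit 352287) (nat_lit 20) (.e (nat_lit 1999) (nat_lit 137) (.e (nat_lit 663567) (nat_lit 4) .nil)))))) (.g (nat_lit 1) (.e (nat_lit 263481) (nat_lit 0) .nil) .nil))) 
(.lf (nat_lit 538475) (.g (nat_lit 3698) (.e (nat_lit 73747) (nat_lit 3) (.e (nat_lit 516139) (nat_lit 7) (.e (nat_lit 409644) (nat_lit 18) (.e (nat_lit 303119) (nat_lit 3) (.e (nat_lit 204819) (nat_lit 17) (.e (nat_lit 7936) (nat_lit 348) .nil)))))) (.g (nat_lit 1) (.e (nat_lit 266182) (nat_lit 0) .nil) .nil))))) (.nd (nat_lit 8) (.nd (nat_lit 9) 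
(.lf (nat_lit 537835) (.g (nat_lit 3884) (.e (nat_lit 65624) (nat_lit 12) (.e (nat_lit 385074) (nat_lit 31) (.e (nat_lit 573493) (nat_lit 15) (.e (nat_lit 81922) (nat_lit 0) (.e (nat_lit 3305) (nat_lit 202) (.e (nat_lit 573482) (nat_lit 13) .nil)))))) (.g (nat_lit 1) (.e (nat_lit 263229) (nat_lit 0) .nil) .nil))) 
(.lf (nat_lit 538347) (.g (nat_lit 2696) (.e (nat_lit 73746) (nat_lit 3) (.e (nat_lit 516131) (nat_lit 3) (.e (nat_lit 221215) (nat_lit 23) (.e (nat_lit 204829) (nat_lit 18) (.e (nat_lit 57925) (nat_lit 282) (.e (nat_lit 163871) (nat_lit 2) (.e (nat_lit 196668) (nat_lit 14) .nil))))))) (.g (nat_lit 1) (.e (nat_lit 265541) (nat_lit 0) .nil) .nil)))) (.nd (nat_lit 9) 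
(.lf (nat_lit 538091) (.g (nat_lit 3064) (.e (nat_lit 65652) (nat_lit 27) (.e (nat_lit 426347) (nat_lit 14) (.e (nat_lit 491571) (nat_lit 13) (.e (nat_lit 393232) (nat_lit 17) (.e (nat_lit 7589) (nat_lit 406) .nil))))) (.g (nat_lit 1) (.e (nat_lit 264188) (nat_lit 0) .nil) .nil))) 
(.lf (nat_lit 538603) (.g (nat_lit 2440) (.e (nat_lit 73753) (nat_lit 8) (.e (nat_lit 557104) (nat_lit 14) (.e (nat_lit 180244) (nat_lit 5) (.e (nat_lit 532481) (nat_lit 0) (.e (nat_lit 2271) (nat_lit 149) .nil))))) (.g (nat_lit 0) (.e (nat_lit 266542) (nat_lit 0) .nil) .nil)))))))) (.nd (nat_lit 5) (.nd (nat_lit 6) (.nd (nat_lit 7) (.nd (nat_lit 8) (.nd (nat_lit 9) 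
(.lf (nat_lit 537627) (.g (nat_lit 3931) (.e (nat_lit 65619) (nat_lit 10) (.e (nat_lit 344117) (nat_lit 21) (.e (nat_lit 516151) (nat_lit 9) (.e (nat_lit 426023) (nat_lit 0) (.e (nat_lit 3401) (nat_lit 211) (.e (nat_lit 647180) (nat_lit 3) (.e (nat_lit 163979) (nat_lit 30) (.e (nat_lit 573482) (nat_lit 13) .nil)))))))) (.g (nat_lit 1) (.e (nat_lit 262910) (nat_lit 0) .nil) .nil))) 
(.lf (nat_lit 538139) (.g (nat_lit 415) (.e (nat_lit 73472) (nat_lit 29) (.e (nat_lit 442428) (nat_lit 24) (.e (nat_lit 229678) (nat_lit 244) .nil))) (.g (nat_lit 0) (.e (nat_lit 264429) (nat_lit 0) .nil) .nil)))) (.nd (nat_lit 9) 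
(.lf (nat_lit 537883) (.g (nat_lit 2298) (.e (nat_lit 65628) (nat_lit 14) (.e (nat_lit 401428) (nat_lit 3) (.e (nat_lit 204861) (nat_lit 26) (.e (nat_lit 336226) (nat_lit 14) (.e (nat_lit 401425) (nat_lit 2) (.e (nat_lit 196666) (nat_lit 13) .nil)))))) (.g (nat_lit 1) (.e (nat_lit 263344) (nat_lit 0) .nil) .nil))) 
(.lf (nat_lit 538395) (.g (nat_lit 2232) (.e (nat_lit 73747) (nat_lit 3) (.e (nat_lit 516098) (nat_lit 0) (.e (nat_lit 7591) (nat_lit 407) (.e (nat_lit 73739) (nat_lit 1) (.e (nat_lit 499910) (nat_lit 8) (.e (nat_lit 171776) (nat_lit 192) .nil)))))) (.g (nat_lit 1) (.e (nat_lit 265612) (nat_lit 0) .nil) .nil))))) (.nd (nat_lit 8) (.nd (nat_lit 9) 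
(.lf (nat_lit 537755) (.g (nat_lit 2663) (.e (nat_lit 65619) (nat_lit 10) (.e (nat_lit 344129) (nat_lit 26) (.e (nat_lit 557087) (nat_lit 11) (.e (nat_lit 24630) (nat_lit 9) (.e (nat_lit 336240) (nat_lit 15) (.e (nat_lit 3309) (nat_lit 202) (.e (nat_lit 573485) (nat_lit 13) .nil))))))) (.g (nat_lit 1) (.e (nat_lit 263058) (nat_lit 0) .nil) .nil))) 
(.lf (nat_lit 538267) (.g (nat_lit 3135) (.e (nat_lit 73746) (nat_lit 3) (.e (nat_lit 516115) (nat_lit 1) (.e (nat_lit 164183) (nat_lit 154) (.e (nat_lit 57378) (nat_lit 3) (.e (nat_lit 98341) (nat_lit 20) (.e (nat_lit 221212) (nat_lit 22) (.e (nat_lit 196668) (nat_lit 14) .nil))))))) (.g (nat_lit 1) (.e (nat_lit 265208) (nat_lit 0) .nil) .nil)))) (.nd (nat_lit 9) 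
(.lf (nat_lit 538011) (.g (nat_lit 3190) (.e (nat_lit 65637) (nat_lit 15) (.e (nat_lit 3305) (nat_lit 202) (.e (nat_lit 573493) (nat_lit 15) (.e (nat_lit 81956) (nat_lit 23) (.e (nat_lit 98325) (nat_lit 17) (.e (nat_lit 7936) (nat_lit 406) .nil)))))) (.g (nat_lit 1) (.e (nat_lit 263610) (nat_lit 0) .nil) .nil))) 
(.lf (nat_lit 538523) (.g (nat_lit 2571) (.e (nat_lit 73748) (nat_lit 3) (.e (nat_lit 516139) (nat_lit 7) (.e (nat_lit 409640) (nat_lit 17) (.e (nat_lit 294928) (nat_lit 2) (.e (nat_lit 90133) (nat_lit 9) (.e (nat_lit 2397) (nat_lit 157) (.e (nat_lit 7590) (nat_lit 407) .nil))))))) (.g (nat_lit 1) (.e (nat_lit 266262) (nat_lit 0) .nil) .nil)))))) (.nd (nat_lit 7) (.nd (nat_lit 8) (.nd (nat_lit 9) 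
(.lf (nat_lit 537691) (.g (nat_lit 1011) (.e (nat_lit 65619) (nat_lit 10) (.e (nat_lit 344126) (nat_lit 25) (.e (nat_lit 548874) (nat_lit 5) (.e (nat_lit 1575) (nat_lit 110) .nil)))) (.g (nat_lit 0) (.e (nat_lit 262979) (nat_lit 0) .nil) .nil))) 
(.lf (nat_lit 538203) (.g (nat_lit 422) (.e (nat_lit 81664) (nat_lit 5) (.e (nat_lit 532579) (nat_lit 26) (.e (nat_lit 426335) (nat_lit 13) .nil))) (.g (nat_lit 0) (.e (nat_lit 264966) (nat_lit 0) .nil) .nil)))) (.nd (nat_lit 9) 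
(.lf (nat_lit 537947) (.g (nat_lit 2339) (.e (nat_lit 65630) (nat_lit 14) (.e (nat_lit 401428) (nat_lit 3) (.e (nat_lit 204863) (nat_lit 27) (.e (nat_lit 344071) (nat_lit 8) .nil)))) (.g (nat_lit 0) (.e (nat_lit 263443) (nat_lit 0) .nil) .nil))) 
(.lf (nat_lit 538459) (.g (nat_lit 4431) (.e (nat_lit 73747) (nat_lit 3) (.e (nat_lit 516131) (nat_lit 3) (.e (nat_lit 221214) (nat_lit 23) (.e (nat_lit 204830) (nat_lit 18) (.e (nat_lit 57926) (nat_lit 282) (.e (nat_lit 163869) (nat_lit 2) (.e (nat_lit 196668) (nat_lit 14) .nil))))))) (.g (nat_lit 1) (.e (nat_lit 266161) (nat_lit 0) .nil) .nil))))) (.nd (nat_lit 8) (.nd (nat_lit 9) 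
(.lf (nat_lit 537819) (.g (nat_lit 3830) (.e (nat_lit 65623) (nat_lit 12) (.e (nat_lit 385074) (nat_lit 31) (.e (nat_lit 573484) (nat_lit 13) (.e (nat_lit 65624) (nat_lit 12) (.e (nat_lit 385074) (nat_lit 31) (.e (nat_lit 573485) (nat_lit 13) .nil)))))) (.g (nat_lit 1) (.e (nat_lit 263182) (nat_lit 0) .nil) .nil))) 
(.lf (nat_lit 538331) (.g (nat_lit 5256) (.e (nat_lit 73746) (nat_lit 3) (.e (nat_lit 516129) (nat_lit 3) (.e (nat_lit 221215) (nat_lit 23) (.e (nat_lit 204831) (nat_lit 18) (.e (nat_lit 57931) (nat_lit 282) (.e (nat_lit 163869) (nat_lit 2) (.e (nat_lit 196670) (nat_lit 14) .nil))))))) (.g (nat_lit 1) (.e (nat_lit 265518) (nat_lit 0) .nil) .nil)))) (.nd (nat_lit 9) 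
(.lf (nat_lit 538075) (.g (nat_lit 2081) (.e (nat_lit 65649) (nat_lit 27) (.e (nat_lit 426343) (nat_lit 14) (.e (nat_lit 491570) (nat_lit 13) (.e (nat_lit 393232) (nat_lit 17) .nil)))) (.g (nat_lit 0) (.e (nat_lit 264155) (nat_lit 0) .nil) .nil))) 
(.lf (nat_lit 538587) (.g (nat_lit 2748) (.e (nat_lit 73753) (nat_lit 8) (.e (nat_lit 557103) (nat_lit 14) (.e (nat_lit 180250) (nat_lit 10) (.e (nat_lit 573474) (nat_lit 12) (.e (nat_lit 57506) (nat_lit 39) (.e (nat_lit 655104) (nat_lit 0) (.e (nat_lit 2667) (nat_lit 167) (.e (nat_lit 196670) (nat_lit 14) .nil)))))))) (.g (nat_lit 1) (.e (nat_lit 266523) (nat_lit 0) .nil) .nil))))))) 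
(.nd (nat_lit 6) (.nd (nat_lit 7) (.nd (nat_lit 8) (.nd (nat_lit 9) 
(.lf (nat_lit 537659) (.g (nat_lit 4800) (.e (nat_lit 65619) (nat_lit 10) (.e (nat_lit 344117) (nat_lit 21) (.e (nat_lit 516159) (nat_lit 10) (.e (nat_lit 434271) (nat_lit 38) (.e (nat_lit 655375) (nat_lit 3) (.e (nat_lit 163978) (nat_lit 30) (.e (nat_lit 573479) (nat_lit 13) .nil))))))) (.g (nat_lit 1) (.e (nat_lit 262942) (nat_lit 0) .nil) .nil))) 
(.lf (nat_lit 538171) (.g (nat_lit 2859) (.e (nat_lit 73731) (nat_lit 0) (.e (nat_lit 4539) (nat_lit 267) (.e (nat_lit 163869) (nat_lit 2) (.e (nat_lit 196656) (nat_lit 11) (.e (nat_lit 16425) (nat_lit 7) (.e (nat_lit 409616) (nat_lit 10) (.e (nat_lit 858) (nat_lit 75) (.e (nat_lit 778323) (nat_lit 5) .nil)))))))) (.g (nat_lit 1) (.e (nat_lit 264738) (nat_lit 0) .nil) .nil)))) (.nd (nat_lit 9) 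
(.lf (nat_lit 537915) (.g (nat_lit 1827) (.e (nat_lit 65630) (nat_lit 14) (.e (nat_lit 401425) (nat_lit 2) (.e (nat_lit 196666) (nat_lit 13) (.e (nat_lit 65629) (nat_lit 14) .nil)))) (.g (nat_lit 0) (.e (nat_lit 263401) (nat_lit 0) .nil) .nil))) 
(.lf (nat_lit 538427) (.g (nat_lit 3076) (.e (nat_lit 73747) (nat_lit 3) (.e (nat_lit 516117) (nat_lit 1) (.e (nat_lit 164182) (nat_lit 154) (.e (nat_lit 57378) (nat_lit 3) (.e (nat_lit 98341) (nat_lit 20) (.e (nat_lit 221212) (nat_lit 22) (.e (nat_lit 196668) (nat_lit 14) .nil))))))) (.g (nat_lit 1) (.e (nat_lit 265927) (nat_lit 0) .nil) .nil))))) (.nd (nat_lit 8) (.nd (nat_lit 9) 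
(.lf (nat_lit 537787) (.g (nat_lit 942) (.e (nat_lit 65620) (nat_lit 10) (.e (nat_lit 344117) (nat_lit 21) (.e (nat_lit 516159) (nat_lit 10) .nil))) (.g (nat_lit 0) (.e (nat_lit 263106) (nat_lit 0) .nil) .nil))) 
(.lf (nat_lit 538299) (.g (nat_lit 565) (.e (nat_lit 73746) (nat_lit 3) (.e (nat_lit 516120) (nat_lit 1) (.e (nat_lit 164182) (nat_lit 154) .nil))) (.g (nat_lit 0) (.e (nat_lit 265384) (nat_lit 0) .nil) .nil)))) (.nd (nat_lit 9) 
(.lf (nat_lit 538043) (.g (nat_lit 1951) (.e (nat_lit 73472) (nat_lit 18) (.e (nat_lit 204831) (nat_lit 18) (.e (nat_lit 57849) (nat_lit 252) (.e (nat_lit 57379) (nat_lit 3) (.e (nat_lit 98341) (nat_lit 20) .nil))))) (.g (nat_lit 0) (.e (nat_lit 263792) (nat_lit 0) .nil) .nil))) 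
(.lf (nat_lit 538555) (.g (nat_lit 1067) (.e (nat_lit 73753) (nat_lit 8) (.e (nat_lit 557097) (nat_lit 13) (.e (nat_lit 172064) (nat_lit 2) (.e (nat_lit 204544) (nat_lit 2) .nil)))) (.g (nat_lit 0) (.e (nat_lit 266406) (nat_lit 0) .nil) .nil)))))) (.nd (nat_lit 7) (.nd (nat_lit 8) (.nd (nat_lit 9) 
(.lf (nat_lit 537723) (.g (nat_lit 2275) (.e (nat_lit 65619) (nat_lit 10) (.e (nat_lit 344129) (nat_lit 26) (.e (nat_lit 557084) (nat_lit 10) (.e (nat_lit 8566) (nat_lit 250) (.e (nat_lit 1427) (nat_lit 108) .nil))))) (.g (nat_lit 0) (.e (nat_lit 263025) (nat_lit 0) .nil) .nil))) 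
(.lf (nat_lit 538235) (.g (nat_lit 2715) (.e (nat_lit 73745) (nat_lit 3) (.e (nat_lit 516119) (nat_lit 1) (.e (nat_lit 164179) (nat_lit 154) (.e (nat_lit 57378) (nat_lit 3) (.e (nat_lit 98342) (nat_lit 20) (.e (nat_lit 221212) (nat_lit 22) (.e (nat_lit 196669) (nat_lit 14) .nil))))))) (.g (nat_lit 1) (.e (nat_lit 265039) (nat_lit 0) .nil) .nil)))) (.nd (nat_lit 9) 
(.lf (nat_lit 537979) (.g (nat_lit 2089) (.e (nat_lit 65637) (nat_lit 15) (.e (nat_lit 3253) (nat_lit 197) (.e (nat_lit 532503) (nat_lit 1) (.e (nat_lit 57849) (nat_lit 252) (.e (nat_lit 57379) (nat_lit 3) .nil))))) (.g (nat_lit 0) (.e (nat_lit 263528) (nat_lit 0) .nil) .nil))) 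
(.lf (nat_lit 538491) (.g (nat_lit 3286) (.e (nat_lit 73747) (nat_lit 3) (.e (nat_lit 516185) (nat_lit 16) (.e (nat_lit 491560) (nat_lit 10) (.e (nat_lit 344118) (nat_lit 21) (.e (nat_lit 516106) (nat_lit 0) (.e (nat_lit 7936) (nat_lit 407) .nil)))))) (.g (nat_lit 1) (.e (nat_lit 266199) (nat_lit 0) .nil) .nil))))) (.nd (nat_lit 8) (.nd (nat_lit 9) 
(.lf (nat_lit 537851) (.g (nat_lit 946) (.e (nat_lit 65626) (nat_lit 13) (.e (nat_lit 393251) (nat_lit 18) (.e (nat_lit 164182) (nat_lit 154) .nil))) (.g (nat_lit 0) (.e (nat_lit 263273) (nat_lit 0) .nil) .nil))) 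
(.lf (nat_lit 538363) (.g (nat_lit 2358) (.e (nat_lit 73746) (nat_lit 3) (.e (nat_lit 516139) (nat_lit 7) (.e (nat_lit 409648) (nat_lit 18) (.e (nat_lit 303108) (nat_lit 0) (.e (nat_lit 3272) (nat_lit 199) (.e (nat_lit 548910) (nat_lit 17) (.e (nat_lit 171776) (nat_lit 192) .nil))))))) (.g (nat_lit 1) (.e (nat_lit 265563) (nat_lit 0) .nil) .nil)))) (.nd (nat_lit 9) 
(.lf (nat_lit 538107) (.g (nat_lit 2777) (.e (nat_lit 65653) (nat_lit 27) (.e (nat_lit 426341) (nat_lit 14) (.e (nat_lit 491570) (nat_lit 13) (.e (nat_lit 393232) (nat_lit 17) (.e (nat_lit 7589) (nat_lit 406) .nil))))) (.g (nat_lit 1) (.e (nat_lit 264274) (nat_lit 0) .nil) .nil))) 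
(.lf (nat_lit 538619) (.g (nat_lit 3034) (.e (nat_lit 73753) (nat_lit 8) (.e (nat_lit 557104) (nat_lit 14) (.e (nat_lit 180252) (nat_lit 10) (.e (nat_lit 573474) (nat_lit 12) (.e (nat_lit 57503) (nat_lit 38) .nil))))) (.g (nat_lit 0) (.e (nat_lit 266564) (nat_lit 0) .nil) .nil)))))))))) 
(.nd (nat_lit 3) (.nd (nat_lit 4) (.nd (nat_lit 5) (.nd (nat_lit 6) (.nd (nat_lit 7) 
(.nd (nat_lit 8) (.nd (nat_lit 9) 
(.lf (nat_lit 537607) (.g (nat_lit 2540) (.e (nat_lit 65619) (nat_lit 10) (.e (nat_lit 344117) (nat_lit 21) (.e (nat_lit 516145) (nat_lit 9) (.e (nat_lit 426362) (nat_lit 15) .nil)))) (.g (nat_lit 0) (.e (nat_lit 262890) (nat_lit 0) .nil) .nil))) 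
(.lf (nat_lit 538119) (.g (nat_lit 1836) (.e (nat_lit 65653) (nat_lit 27) (.e (nat_lit 426343) (nat_lit 14) (.e (nat_lit 491552) (nat_lit 9) (.e (nat_lit 336389) (nat_lit 27) (.e (nat_lit 426012) (nat_lit 0) (.e (nat_lit 7589) (nat_lit 406) .nil)))))) (.g (nat_lit 1) (.e (nat_lit 264286) (nat_lit 0) .nil) .nil)))) (.nd (nat_lit 9) 
(.lf (nat_lit 537863) (.g (nat_lit 2166) (.e (nat_lit 65628) (nat_lit 14) (.e (nat_lit 401425) (nat_lit 2) (.e (nat_lit 196666) (nat_lit 13) (.e (nat_lit 65628) (nat_lit 14) (.e (nat_lit 401412) (nat_lit 0) .nil))))) (.g (nat_lit 0) (.e (nat_lit 263318) (nat_lit 0) .nil) .nil))) 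
(.lf (nat_lit 538375) (.g (nat_lit 3063) (.e (nat_lit 73746) (nat_lit 3) (.e (nat_lit 516166) (nat_lit 12) (.e (nat_lit 450588) (nat_lit 10) (.e (nat_lit 573475) (nat_lit 12) (.e (nat_lit 57356) (nat_lit 0) .nil))))) (.g (nat_lit 0) (.e (nat_lit 265585) (nat_lit 0) .nil) .nil))))) (.nd (nat_lit 8) (.nd (nat_lit 9) 
(.lf (nat_lit 537735) (.g (nat_lit 2612) (.e (nat_lit 65619) (nat_lit 10) (.e (nat_lit 344129) (nat_lit 26) (.e (nat_lit 557087) (nat_lit 11) (.e (nat_lit 24599) (nat_lit 1) .nil)))) (.g (nat_lit 0) (.e (nat_lit 263038) (nat_lit 0) .nil) .nil))) 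
(.lf (nat_lit 538247) (.g (nat_lit 2502) (.e (nat_lit 73746) (nat_lit 3) (.e (nat_lit 516098) (nat_lit 0) (.e (nat_lit 7593) (nat_lit 407) (.e (nat_lit 73746) (nat_lit 3) (.e (nat_lit 516106) (nat_lit 0) (.e (nat_lit 7936) (nat_lit 407) .nil)))))) (.g (nat_lit 1) (.e (nat_lit 265054) (nat_lit 0) .nil) .nil)))) (.nd (nat_lit 9) 
(.lf (nat_lit 537991) (.g (nat_lit 740) (.e (nat_lit 65637) (nat_lit 15) (.e (nat_lit 3253) (nat_lit 197) (.e (nat_lit 532533) (nat_lit 9) (.e (nat_lit 336211) (nat_lit 13) .nil)))) (.g (nat_lit 0) (.e (nat_lit 263543) (nat_lit 0) .nil) .nil))) 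
(.lf (nat_lit 538503) (.g (nat_lit 1610) (.e (nat_lit 73748) (nat_lit 3) (.e (nat_lit 516129) (nat_lit 3) (.e (nat_lit 221214) (nat_lit 23) (.e (nat_lit 204821) (nat_lit 17) .nil)))) (.g (nat_lit 0) (.e (nat_lit 266231) (nat_lit 0) .nil) .nil)))))) (.nd (nat_lit 7) (.nd (nat_lit 8) (.nd (nat_lit 9) 
(.lf (nat_lit 537671) (.g (nat_lit 4632) (.e (nat_lit 65619) (nat_lit 10) (.e (nat_lit 344117) (nat_lit 21) (.e (nat_lit 516160) (nat_lit 10) (.e (nat_lit 434271) (nat_lit 38) (.e (nat_lit 655373) (nat_lit 3) (.e (nat_lit 163979) (nat_lit 30) (.e (nat_lit 573482) (nat_lit 13) .nil))))))) (.g (nat_lit 1) (.e (nat_lit 262955) (nat_lit 0) .nil) .nil))) 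
(.lf (nat_lit 538183) (.g (nat_lit 2362) (.e (nat_lit 73739) (nat_lit 1) (.e (nat_lit 499811) (nat_lit 5) (.e (nat_lit 3102) (nat_lit 192) (.e (nat_lit 491558) (nat_lit 10) (.e (nat_lit 344115) (nat_lit 20) (.e (nat_lit 507907) (nat_lit 0) (.e (nat_lit 5412) (nat_lit 303) .nil))))))) (.g (nat_lit 1) (.e (nat_lit 264912) (nat_lit 0) .nil) .nil)))) (.nd (nat_lit 9) 
(.lf (nat_lit 537927) (.g (nat_lit 1646) (.e (nat_lit 65630) (nat_lit 14) (.e (nat_lit 401425) (nat_lit 2) (.e (nat_lit 196681) (nat_lit 17) (.e (nat_lit 131104) (nat_lit 9) .nil)))) (.g (nat_lit 0) (.e (nat_lit 263414) (nat_lit 0) .nil) .nil))) 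
(.lf (nat_lit 538439) (.g (nat_lit 2408) (.e (nat_lit 73747) (nat_lit 3) (.e (nat_lit 516119) (nat_lit 1) (.e (nat_lit 164183) (nat_lit 154) (.e (nat_lit 57379) (nat_lit 3) (.e (nat_lit 98340) (nat_lit 20) .nil))))) (.g (nat_lit 0) (.e (nat_lit 266070) (nat_lit 0) .nil) .nil))))) (.nd (nat_lit 8) (.nd (nat_lit 9) 
(.lf (nat_lit 537799) (.g (nat_lit 2227) (.e (nat_lit 65621) (nat_lit 11) (.e (nat_lit 368676) (nat_lit 21) (.e (nat_lit 516182) (nat_lit 15) (.e (nat_lit 475198) (nat_lit 40) (.e (nat_lit 704589) (nat_lit 3) .nil))))) (.g (nat_lit 0) (.e (nat_lit 263125) (nat_lit 0) .nil) .nil))) 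
(.lf (nat_lit 538311) (.g (nat_lit 430) (.e (nat_lit 73746) (nat_lit 3) (.e (nat_lit 516129) (nat_lit 3) (.e (nat_lit 229120) (nat_lit 3) .nil))) (.g (nat_lit 0) (.e (nat_lit 265496) (nat_lit 0) .nil) .nil)))) (.nd (nat_lit 9) 
(.lf (nat_lit 538055) (.g (nat_lit 2826) (.e (nat_lit 73472) (nat_lit 18) (.e (nat_lit 204863) (nat_lit 27) (.e (nat_lit 344132) (nat_lit 26) (.e (nat_lit 557100) (nat_lit 13) (.e (nat_lit 172049) (nat_lit 0) .nil))))) (.g (nat_lit 0) (.e (nat_lit 263863) (nat_lit 0) .nil) .nil))) 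
(.lf (nat_lit 538567) (.g (nat_lit 409) (.e (nat_lit 73753) (nat_lit 8) (.e (nat_lit 557100) (nat_lit 13) (.e (nat_lit 172065) (nat_lit 3) .nil))) (.g (nat_lit 0) (.e (nat_lit 266431) (nat_lit 0) .nil) .nil))))))) (.nd (nat_lit 6) (.nd (nat_lit 7) (.nd (nat_lit 8) (.nd (nat_lit 9) 
(.lf (nat_lit 537639) (.g (nat_lit 3135) (.e (nat_lit 65619) (nat_lit 10) (.e (nat_lit 344117) (nat_lit 21) (.e (nat_lit 516151) (nat_lit 9) (.e (nat_lit 426049) (nat_lit 0) .nil)))) (.g (nat_lit 0) (.e (nat_lit 262922) (nat_lit 0) .nil) .nil))) 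
(.lf (nat_lit 538151) (.g (nat_lit 428) (.e (nat_lit 73472) (nat_lit 34) (.e (nat_lit 483395) (nat_lit 24) (.e (nat_lit 344118) (nat_lit 21) .nil))) (.g (nat_lit 0) (.e (nat_lit 264575) (nat_lit 0) .nil) .nil)))) (.nd (nat_lit 9) 
(.lf (nat_lit 537895) (.g (nat_lit 925) (.e (nat_lit 65628) (nat_lit 14) (.e (nat_lit 401437) (nat_lit 9) (.e (nat_lit 426538) (nat_lit 29) (.e (nat_lit 352307) (nat_lit 21) .nil)))) (.g (nat_lit 0) (.e (nat_lit 263372) (nat_lit 0) .nil) .nil))) 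
(.lf (nat_lit 538407) (.g (nat_lit 2194) (.e (nat_lit 73747) (nat_lit 3) (.e (nat_lit 516106) (nat_lit 0) (.e (nat_lit 3579) (nat_lit 223) (.e (nat_lit 745476) (nat_lit 0) (.e (nat_lit 1256) (nat_lit 92) .nil))))) (.g (nat_lit 0) (.e (nat_lit 265624) (nat_lit 0) .nil) .nil))))) (.nd (nat_lit 8) (.nd (nat_lit 9) 
(.lf (nat_lit 537767) (.g (nat_lit 2877) (.e (nat_lit 65619) (nat_lit 10) (.e (nat_lit 344129) (nat_lit 26) (.e (nat_lit 557090) (nat_lit 12) (.e (nat_lit 163843) (nat_lit 0) .nil)))) (.g (nat_lit 0) (.e (nat_lit 263070) (nat_lit 0) .nil) .nil))) 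
(.lf (nat_lit 538279) (.g (nat_lit 407) (.e (nat_lit 73746) (nat_lit 3) (.e (nat_lit 516117) (nat_lit 1) (.e (nat_lit 164183) (nat_lit 154) .nil))) (.g (nat_lit 0) (.e (nat_lit 265248) (nat_lit 0) .nil) .nil)))) (.nd (nat_lit 9) 
(.lf (nat_lit 538023) (.g (nat_lit 3134) (.e (nat_lit 65640) (nat_lit 15) (.e (nat_lit 3304) (nat_lit 202) (.e (nat_lit 573485) (nat_lit 13) (.e (nat_lit 65619) (nat_lit 10) (.e (nat_lit 344117) (nat_lit 21) (.e (nat_lit 516106) (nat_lit 0) (.e (nat_lit 7936) (nat_lit 406) .nil))))))) (.g (nat_lit 1) (.e (nat_lit 263657) (nat_lit 0) .nil) .nil))) 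
(.lf (nat_lit 538535) (.g (nat_lit 858) (.e (nat_lit 73757) (nat_lit 11) (.e (nat_lit 581651) (nat_lit 4) (.e (nat_lit 172087) (nat_lit 9) (.e (nat_lit 426558) (nat_lit 33) (.e (nat_lit 392960) (nat_lit 5) .nil))))) (.g (nat_lit 1) (.e (nat_lit 266324) (nat_lit 0) .nil) .nil)))))) (.nd (nat_lit 7) (.nd (nat_lit 8) (.nd (nat_lit 9) 
(.lf (nat_lit 537703) (.g (nat_lit 1638) (.e (nat_lit 65619) (nat_lit 10) (.e (nat_lit 344129) (nat_lit 26) (.e (nat_lit 557065) (nat_lit 9) (.e (nat_lit 307) (nat_lit 22) .nil)))) (.g (nat_lit 0) (.e (nat_lit 262996) (nat_lit 0) .nil) .nil))) 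
(.lf (nat_lit 538215) (.g (nat_lit 1503) (.e (nat_lit 81664) (nat_lit 5) (.e (nat_lit 532583) (nat_lit 26) (.e (nat_lit 426198) (nat_lit 9) (.e (nat_lit 426562) (nat_lit 33) (.e (nat_lit 392960) (nat_lit 5) .nil))))) (.g (nat_lit 0) (.e (nat_lit 264991) (nat_lit 0) .nil) .nil)))) (.nd (nat_lit 9) 
(.lf (nat_lit 537959) (.g (nat_lit 1636) (.e (nat_lit 65630) (nat_lit 14) (.e (nat_lit 401437) (nat_lit 9) (.e (nat_lit 426540) (nat_lit 29) (.e (nat_lit 352308) (nat_lit 21) .nil)))) (.g (nat_lit 0) (.e (nat_lit 263477) (nat_lit 0) .nil) .nil))) 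
(.lf (nat_lit 538471) (.g (nat_lit 1378) (.e (nat_lit 73747) (nat_lit 3) (.e (nat_lit 516138) (nat_lit 7) (.e (nat_lit 409646) (nat_lit 18) (.e (nat_lit 303119) (nat_lit 3) .nil)))) (.g (nat_lit 0) (.e (nat_lit 266176) (nat_lit 0) .nil) .nil))))) (.nd (nat_lit 8) (.nd (nat_lit 9) 
(.lf (nat_lit 537831) (.g (nat_lit 3865) (.e (nat_lit 65624) (nat_lit 12) (.e (nat_lit 385074) (nat_lit 31) (.e (nat_lit 573484) (nat_lit 13) (.e (nat_lit 65622) (nat_lit 12) (.e (nat_lit 385074) (nat_lit 31) (.e (nat_lit 573484) (nat_lit 13) .nil)))))) (.g (nat_lit 1) (.e (nat_lit 263225) (nat_lit 0) .nil) .nil))) 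
(.lf (nat_lit 538343) (.g (nat_lit 1981) (.e (nat_lit 73746) (nat_lit 3) (.e (nat_lit 516131) (nat_lit 3) (.e (nat_lit 221215) (nat_lit 23) (.e (nat_lit 204818) (nat_lit 17) .nil)))) (.g (nat_lit 0) (.e (nat_lit 265536) (nat_lit 0) .nil) .nil)))) (.nd (nat_lit 9) 
(.lf (nat_lit 538087) (.g (nat_lit 1445) (.e (nat_lit 65652) (nat_lit 27) (.e (nat_lit 426347) (nat_lit 14) (.e (nat_lit 491549) (nat_lit 9) (.e (nat_lit 336421) (nat_lit 28) (.e (nat_lit 442112) (nat_lit 4) .nil))))) (.g (nat_lit 1) (.e (nat_lit 264181) (nat_lit 0) .nil) .nil))) 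
(.lf (nat_lit 538599) (.g (nat_lit 731) (.e (nat_lit 73753) (nat_lit 8) (.e (nat_lit 557103) (nat_lit 14) (.e (nat_lit 180252) (nat_lit 10) .nil))) (.g (nat_lit 0) (.e (nat_lit 266536) (nat_lit 0) .nil) .nil)))))))) (.nd (nat_lit 5) (.nd (nat_lit 6) (.nd (nat_lit 7) (.nd (nat_lit 8) (.nd (nat_lit 9) 
(.lf (nat_lit 537623) (.g (nat_lit 3129) (.e (nat_lit 65619) (nat_lit 10) (.e (nat_lit 344117) (nat_lit 21) (.e (nat_lit 516151) (nat_lit 9) (.e (nat_lit 426017) (nat_lit 0) .nil)))) (.g (nat_lit 0) (.e (nat_lit 262906) (nat_lit 0) .nil) .nil))) 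
(.lf (nat_lit 538135) (.g (nat_lit 1411) (.e (nat_lit 73472) (nat_lit 27) (.e (nat_lit 426340) (nat_lit 14) (.e (nat_lit 491571) (nat_lit 13) (.e (nat_lit 393242) (nat_lit 17) (.e (nat_lit 7936) (nat_lit 406) .nil))))) (.g (nat_lit 0) (.e (nat_lit 264321) (nat_lit 0) .nil) .nil)))) (.nd (nat_lit 9) 
(.lf (nat_lit 537879) (.g (nat_lit 2883) (.e (nat_lit 65628) (nat_lit 14) (.e (nat_lit 401428) (nat_lit 3) (.e (nat_lit 204855) (nat_lit 26) (.e (nat_lit 336200) (nat_lit 12) (.e (nat_lit 385074) (nat_lit 31) (.e (nat_lit 573485) (nat_lit 13) .nil)))))) (.g (nat_lit 1) (.e (nat_lit 263340) (nat_lit 0) .nil) .nil))) 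
(.lf (nat_lit 538391) (.g (nat_lit 1522) (.e (nat_lit 73746) (nat_lit 3) (.e (nat_lit 524032) (nat_lit 33) (.e (nat_lit 401457) (nat_lit 13) (.e (nat_lit 483329) (nat_lit 0) (.e (nat_lit 7936) (nat_lit 407) .nil))))) (.g (nat_lit 1) (.e (nat_lit 265607) (nat_lit 0) .nil) .nil))))) (.nd (nat_lit 8) (.nd (nat_lit 9) 
(.lf (nat_lit 537751) (.g (nat_lit 2973) (.e (nat_lit 65619) (nat_lit 10) (.e (nat_lit 344129) (nat_lit 26) (.e (nat_lit 557087) (nat_lit 11) (.e (nat_lit 24628) (nat_lit 9) (.e (nat_lit 336260) (nat_lit 15) .nil))))) (.g (nat_lit 0) (.e (nat_lit 263054) (nat_lit 0) .nil) .nil))) 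
(.lf (nat_lit 538263) (.g (nat_lit 902) (.e (nat_lit 73746) (nat_lit 3) (.e (nat_lit 516115) (nat_lit 1) (.e (nat_lit 164180) (nat_lit 154) .nil))) (.g (nat_lit 0) (.e (nat_lit 265142) (nat_lit 0) .nil) .nil)))) (.nd (nat_lit 9) 
(.lf (nat_lit 538007) (.g (nat_lit 2261) (.e (nat_lit 65637) (nat_lit 15) (.e (nat_lit 3305) (nat_lit 202) (.e (nat_lit 573491) (nat_lit 15) (.e (nat_lit 81954) (nat_lit 23) (.e (nat_lit 98325) (nat_lit 17) (.e (nat_lit 7936) (nat_lit 406) .nil)))))) (.g (nat_lit 1) (.e (nat_lit 263606) (nat_lit 0) .nil) .nil))) 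
(.lf (nat_lit 538519) (.g (nat_lit 2554) (.e (nat_lit 73748) (nat_lit 3) (.e (nat_lit 516139) (nat_lit 7) (.e (nat_lit 409644) (nat_lit 18) (.e (nat_lit 303119) (nat_lit 3) (.e (nat_lit 204821) (nat_lit 17) .nil))))) (.g (nat_lit 0) (.e (nat_lit 266257) (nat_lit 0) .nil) .nil)))))) (.nd (nat_lit 7) (.nd (nat_lit 8) (.nd (nat_lit 9) 
(.lf (nat_lit 537687) (.g (nat_lit 3788) (.e (nat_lit 65619) (nat_lit 10) (.e (nat_lit 344117) (nat_lit 21) (.e (nat_lit 516179) (nat_lit 15) (.e (nat_lit 475210) (nat_lit 41) .nil)))) (.g (nat_lit 0) (.e (nat_lit 262972) (nat_lit 0) .nil) .nil))) 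
(.lf (nat_lit 538199) (.g (nat_lit 483) (.e (nat_lit 81664) (nat_lit 5) (.e (nat_lit 532579) (nat_lit 26) (.e (nat_lit 426187) (nat_lit 9) .nil))) (.g (nat_lit 0) (.e (nat_lit 264954) (nat_lit 0) .nil) .nil)))) (.nd (nat_lit 9) 
(.lf (nat_lit 537943) (.g (nat_lit 2959) (.e (nat_lit 65630) (nat_lit 14) (.e (nat_lit 401428) (nat_lit 3) (.e (nat_lit 204861) (nat_lit 26) (.e (nat_lit 336229) (nat_lit 14) (.e (nat_lit 401414) (nat_lit 0) (.e (nat_lit 3124) (nat_lit 193) (.e (nat_lit 500059) (nat_lit 18) .nil))))))) (.g (nat_lit 1) (.e (nat_lit 263439) (nat_lit 0) .nil) .nil))) 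
(.lf (nat_lit 538455) (.g (nat_lit 5012) (.e (nat_lit 73747) (nat_lit 3) (.e (nat_lit 516129) (nat_lit 3) (.e (nat_lit 221215) (nat_lit 23) (.e (nat_lit 204830) (nat_lit 18) (.e (nat_lit 57927) (nat_lit 282) (.e (nat_lit 163869) (nat_lit 2) (.e (nat_lit 196668) (nat_lit 14) .nil))))))) (.g (nat_lit 1) (.e (nat_lit 266155) (nat_lit 0) .nil) .nil))))) (.nd (nat_lit 8) (.nd (nat_lit 9) 
(.lf (nat_lit 537815) (.g (nat_lit 2626) (.e (nat_lit 65623) (nat_lit 12) (.e (nat_lit 385068) (nat_lit 26) (.e (nat_lit 532515) (nat_lit 3) (.e (nat_lit 114698) (nat_lit 11) (.e (nat_lit 426122) (nat_lit 2) (.e (nat_lit 196665) (nat_lit 13) .nil)))))) (.g (nat_lit 1) (.e (nat_lit 263165) (nat_lit 0) .nil) .nil))) 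
(.lf (nat_lit 538327) (.g (nat_lit 4499) (.e (nat_lit 73746) (nat_lit 3) (.e (nat_lit 516129) (nat_lit 3) (.e (nat_lit 221215) (nat_lit 23) (.e (nat_lit 204830) (nat_lit 18) (.e (nat_lit 57926) (nat_lit 282) (.e (nat_lit 163868) (nat_lit 2) (.e (nat_lit 196670) (nat_lit 14) .nil))))))) (.g (nat_lit 1) (.e (nat_lit 265514) (nat_lit 0) .nil) .nil)))) (.nd (nat_lit 9) 
(.lf (nat_lit 538071) (.g (nat_lit 441) (.e (nat_lit 65649) (nat_lit 27) (.e (nat_lit 426341) (nat_lit 14) (.e (nat_lit 491571) (nat_lit 13) .nil))) (.g (nat_lit 0) (.e (nat_lit 264151) (nat_lit 0) .nil) .nil))) 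
(.lf (nat_lit 538583) (.g (nat_lit 2925) (.e (nat_lit 73753) (nat_lit 8) (.e (nat_lit 557103) (nat_lit 14) (.e (nat_lit 180250) (nat_lit 10) (.e (nat_lit 573473) (nat_lit 12) (.e (nat_lit 57504) (nat_lit 38) (.e (nat_lit 638996) (nat_lit 7) (.e (nat_lit 163978) (nat_lit 30) (.e (nat_lit 573487) (nat_lit 14) .nil)))))))) (.g (nat_lit 1) (.e (nat_lit 266519) (nat_lit 0) .nil) .nil))))))) 
(.nd (nat_lit 6) (.nd (nat_lit 7) (.nd (nat_lit 8) (.nd (nat_lit 9) 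
(.lf (nat_lit 537655) (.g (nat_lit 2353) (.e (nat_lit 65619) (nat_lit 10) (.e (nat_lit 344117) (nat_lit 21) (.e (nat_lit 516157) (nat_lit 9) (.e (nat_lit 426107) (nat_lit 1) (.e (nat_lit 164347) (nat_lit 240) .nil))))) (.g (nat_lit 0) (.e (nat_lit 262938) (nat_lit 0) .nil) .nil))) 
(.lf (nat_lit 538167) (.g (nat_lit 1721) (.e (nat_lit 73729) (nat_lit 0) (.e (nat_lit 7266) (nat_lit 384) (.e (nat_lit 57409) (nat_lit 12) (.e (nat_lit 336115) (nat_lit 9) (.e (nat_lit 343808) (nat_lit 28) (.e (nat_lit 442112) (nat_lit 5) .nil)))))) (.g (nat_lit 1) (.e (nat_lit 264706) (nat_lit 0) .nil) .nil)))) (.nd (nat_lit 9) 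
(.lf (nat_lit 537911) (.g (nat_lit 1081) (.e (nat_lit 65630) (nat_lit 14) (.e (nat_lit 401425) (nat_lit 2) (.e (nat_lit 196666) (nat_lit 13) (.e (nat_lit 65599) (nat_lit 9) .nil)))) (.g (nat_lit 0) (.e (nat_lit 263397) (nat_lit 0) .nil) .nil))) 
(.lf (nat_lit 538423) (.g (nat_lit 2257) (.e (nat_lit 73747) (nat_lit 3) (.e (nat_lit 516117) (nat_lit 1) (.e (nat_lit 164181) (nat_lit 154) (.e (nat_lit 57378) (nat_lit 3) (.e (nat_lit 98340) (nat_lit 20) .nil))))) (.g (nat_lit 0) (.e (nat_lit 265902) (nat_lit 0) .nil) .nil))))) (.nd (nat_lit 8) (.nd (nat_lit 9) 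
(.lf (nat_lit 537783) (.g (nat_lit 3768) (.e (nat_lit 65620) (nat_lit 10) (.e (nat_lit 344117) (nat_lit 21) (.e (nat_lit 516139) (nat_lit 7) (.e (nat_lit 409646) (nat_lit 18) (.e (nat_lit 303117) (nat_lit 2) (.e (nat_lit 196666) (nat_lit 13) .nil)))))) (.g (nat_lit 1) (.e (nat_lit 263102) (nat_lit 0) .nil) .nil))) 
(.lf (nat_lit 538295) (.g (nat_lit 4198) (.e (nat_lit 73746) (nat_lit 3) (.e (nat_lit 516119) (nat_lit 1) (.e (nat_lit 164182) (nat_lit 154) (.e (nat_lit 57379) (nat_lit 3) (.e (nat_lit 98342) (nat_lit 20) (.e (nat_lit 221210) (nat_lit 22) (.e (nat_lit 196670) (nat_lit 14) .nil))))))) (.g (nat_lit 1) (.e (nat_lit 265373) (nat_lit 0) .nil) .nil)))) (.nd (nat_lit 9) 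
(.lf (nat_lit 538039) (.g (nat_lit 1927) (.e (nat_lit 73472) (nat_lit 18) (.e (nat_lit 204829) (nat_lit 18) (.e (nat_lit 57854) (nat_lit 252) (.e (nat_lit 57378) (nat_lit 3) (.e (nat_lit 98341) (nat_lit 20) .nil))))) (.g (nat_lit 0) (.e (nat_lit 263788) (nat_lit 0) .nil) .nil))) 
(.lf (nat_lit 538551) (.g (nat_lit 1662) (.e (nat_lit 73753) (nat_lit 8) (.e (nat_lit 557091) (nat_lit 12) (.e (nat_lit 163999) (nat_lit 38) (.e (nat_lit 639016) (nat_lit 15) .nil)))) (.g (nat_lit 0) (.e (nat_lit 266399) (nat_lit 0) .nil) .nil)))))) (.nd (nat_lit 7) (.nd (nat_lit 8) (.nd (nat_lit 9) 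
(.lf (nat_lit 537719) (.g (nat_lit 2409) (.e (nat_lit 65619) (nat_lit 10) (.e (nat_lit 344129) (nat_lit 26) (.e (nat_lit 557070) (nat_lit 9) (.e (nat_lit 333) (nat_lit 26) .nil)))) (.g (nat_lit 0) (.e (nat_lit 263020) (nat_lit 0) .nil) .nil))) 
(.lf (nat_lit 538231) (.g (nat_lit 832) (.e (nat_lit 73745) (nat_lit 3) (.e (nat_lit 516119) (nat_lit 1) (.e (nat_lit 164176) (nat_lit 154) .nil))) (.g (nat_lit 0) (.e (nat_lit 265034) (nat_lit 0) .nil) .nil)))) (.nd (nat_lit 9) 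
(.lf (nat_lit 537975) (.g (nat_lit 2038) (.e (nat_lit 65637) (nat_lit 15) (.e (nat_lit 3253) (nat_lit 197) (.e (nat_lit 532501) (nat_lit 1) (.e (nat_lit 57851) (nat_lit 252) (.e (nat_lit 57354) (nat_lit 0) .nil))))) (.g (nat_lit 0) (.e (nat_lit 263524) (nat_lit 0) .nil) .nil))) 
(.lf (nat_lit 538487) (.g (nat_lit 3236) (.e (nat_lit 73747) (nat_lit 3) (.e (nat_lit 516185) (nat_lit 16) (.e (nat_lit 491560) (nat_lit 10) (.e (nat_lit 344107) (nat_lit 19) (.e (nat_lit 499825) (nat_lit 5) (.e (nat_lit 2400) (nat_lit 157) (.e (nat_lit 7590) (nat_lit 407) .nil))))))) (.g (nat_lit 1) (.e (nat_lit 266195) (nat_lit 0) .nil) .nil))))) (.nd (nat_lit 8) (.nd (nat_lit 9) 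
(.lf (nat_lit 537847) (.g (nat_lit 3678) (.e (nat_lit 65626) (nat_lit 13) (.e (nat_lit 393225) (nat_lit 9) (.e (nat_lit 335996) (nat_lit 1) (.e (nat_lit 57930) (nat_lit 282) (.e (nat_lit 163867) (nat_lit 2) (.e (nat_lit 196665) (nat_lit 13) .nil)))))) (.g (nat_lit 1) (.e (nat_lit 263266) (nat_lit 0) .nil) .nil))) 
(.lf (nat_lit 538359) (.g (nat_lit 3307) (.e (nat_lit 73746) (nat_lit 3) (.e (nat_lit 516139) (nat_lit 7) (.e (nat_lit 409644) (nat_lit 18) (.e (nat_lit 303119) (nat_lit 3) (.e (nat_lit 204819) (nat_lit 17) (.e (nat_lit 7936) (nat_lit 348) .nil)))))) (.g (nat_lit 1) (.e (nat_lit 265559) (nat_lit 0) .nil) .nil)))) (.nd (nat_lit 9) 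
(.lf (nat_lit 538103) (.g (nat_lit 1299) (.e (nat_lit 65653) (nat_lit 27) (.e (nat_lit 426315) (nat_lit 12) (.e (nat_lit 475208) (nat_lit 41) (.e (nat_lit 712745) (nat_lit 27) (.e (nat_lit 425984) (nat_lit 0) (.e (nat_lit 7588) (nat_lit 406) .nil)))))) (.g (nat_lit 1) (.e (nat_lit 264266) (nat_lit 0) .nil) .nil))) 
(.lf (nat_lit 538615) (.g (nat_lit 3145) (.e (nat_lit 73753) (nat_lit 8) (.e (nat_lit 557104) (nat_lit 14) (.e (nat_lit 180252) (nat_lit 10) (.e (nat_lit 573473) (nat_lit 12) (.e (nat_lit 57503) (nat_lit 38) (.e (nat_lit 638995) (nat_lit 7) (.e (nat_lit 163979) (nat_lit 30) (.e (nat_lit 573487) (nat_lit 14) .nil)))))))) (.g (nat_lit 1) (.e (nat_lit 266560) (nat_lit 0) .nil) .nil))))))))) 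
(.nd (nat_lit 4) (.nd (nat_lit 5) (.nd (nat_lit 6) (.nd (nat_lit 7) (.nd (nat_lit 8) 
(.nd (nat_lit 9) 
(.lf (nat_lit 537615) (.g (nat_lit 2299) (.e (nat_lit 65619) (nat_lit 10) (.e (nat_lit 344117) (nat_lit 21) (.e (nat_lit 516145) (nat_lit 9) (.e (nat_lit 426467) (nat_lit 24) .nil)))) (.g (nat_lit 0) (.e (nat_lit 262898) (nat_lit 0) .nil) .nil))) 
(.lf (nat_lit 538127) (.g (nat_lit 2083) (.e (nat_lit 65653) (nat_lit 27) (.e (nat_lit 426344) (nat_lit 14) (.e (nat_lit 491552) (nat_lit 9) (.e (nat_lit 336389) (nat_lit 27) (.e (nat_lit 426012) (nat_lit 0) (.e (nat_lit 7589) (nat_lit 406) .nil)))))) (.g (nat_lit 1) (.e (nat_lit 264295) (nat_lit 0) .nil) .nil)))) (.nd (nat_lit 9) 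
(.lf (nat_lit 537871) (.g (nat_lit 423) (.e (nat_lit 65628) (nat_lit 14) (.e (nat_lit 401425) (nat_lit 2) (.e (nat_lit 196681) (nat_lit 17) .nil))) (.g (nat_lit 0) (.e (nat_lit 263329) (nat_lit 0) .nil) .nil))) 
(.lf (nat_lit 538383) (.g (nat_lit 1849) (.e (nat_lit 73746) (nat_lit 3) (.e (nat_lit 516185) (nat_lit 16) (.e (nat_lit 491560) (nat_lit 10) (.e (nat_lit 344107) (nat_lit 19) .nil)))) (.g (nat_lit 0) (.e (nat_lit 265597) (nat_lit 0) .nil) .nil))))) (.nd (nat_lit 8) (.nd (nat_lit 9) 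
(.lf (nat_lit 537743) (.g (nat_lit 2556) (.e (nat_lit 65619) (nat_lit 10) (.e (nat_lit 344129) (nat_lit 26) (.e (nat_lit 557087) (nat_lit 11) (.e (nat_lit 24623) (nat_lit 9) (.e (nat_lit 336306) (nat_lit 15) (.e (nat_lit 3307) (nat_lit 202) (.e (nat_lit 573485) (nat_lit 13) .nil))))))) (.g (nat_lit 1) (.e (nat_lit 263046) (nat_lit 0) .nil) .nil))) 
(.lf (nat_lit 538255) (.g (nat_lit 3523) (.e (nat_lit 73746) (nat_lit 3) (.e (nat_lit 516115) (nat_lit 1) (.e (nat_lit 164178) (nat_lit 154) (.e (nat_lit 57379) (nat_lit 3) (.e (nat_lit 98342) (nat_lit 20) (.e (nat_lit 221212) (nat_lit 22) (.e (nat_lit 196670) (nat_lit 14) .nil))))))) (.g (nat_lit 1) (.e (nat_lit 265080) (nat_lit 0) .nil) .nil)))) (.nd (nat_lit 9) 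
(.lf (nat_lit 537999) (.g (nat_lit 3677) (.e (nat_lit 65637) (nat_lit 15) (.e (nat_lit 3305) (nat_lit 202) (.e (nat_lit 573484) (nat_lit 13) (.e (nat_lit 65610) (nat_lit 10) (.e (nat_lit 344117) (nat_lit 21) (.e (nat_lit 516099) (nat_lit 0) (.e (nat_lit 7936) (nat_lit 406) .nil))))))) (.g (nat_lit 1) (.e (nat_lit 263588) (nat_lit 0) .nil) .nil))) 
(.lf (nat_lit 538511) (.g (nat_lit 1503) (.e (nat_lit 73748) (nat_lit 3) (.e (nat_lit 516131) (nat_lit 3) (.e (nat_lit 221215) (nat_lit 23) (.e (nat_lit 204821) (nat_lit 17) .nil)))) (.g (nat_lit 0) (.e (nat_lit 266245) (nat_lit 0) .nil) .nil)))))) (.nd (nat_lit 7) (.nd (nat_lit 8) (.nd (nat_lit 9) 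
(.lf (nat_lit 537679) (.g (nat_lit 2032) (.e (nat_lit 65619) (nat_lit 10) (.e (nat_lit 344117) (nat_lit 21) (.e (nat_lit 516169) (nat_lit 13) (.e (nat_lit 458804) (nat_lit 38) (.e (nat_lit 655373) (nat_lit 3) .nil))))) (.g (nat_lit 0) (.e (nat_lit 262963) (nat_lit 0) .nil) .nil))) 
(.lf (nat_lit 538191) (.g (nat_lit 2924) (.e (nat_lit 73739) (nat_lit 1) (.e (nat_lit 499842) (nat_lit 5) (.e (nat_lit 3102) (nat_lit 192) (.e (nat_lit 491560) (nat_lit 10) (.e (nat_lit 344115) (nat_lit 20) (.e (nat_lit 507908) (nat_lit 0) (.e (nat_lit 5412) (nat_lit 303) .nil))))))) (.g (nat_lit 1) (.e (nat_lit 264920) (nat_lit 0) .nil) .nil)))) (.nd (nat_lit 9) 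
(.lf (nat_lit 537935) (.g (nat_lit 2593) (.e (nat_lit 65630) (nat_lit 14) (.e (nat_lit 401428) (nat_lit 3) (.e (nat_lit 204855) (nat_lit 26) (.e (nat_lit 336193) (nat_lit 12) (.e (nat_lit 385074) (nat_lit 31) (.e (nat_lit 573485) (nat_lit 13) .nil)))))) (.g (nat_lit 1) (.e (nat_lit 263431) (nat_lit 0) .nil) .nil))) 
(.lf (nat_lit 538447) (.g (nat_lit 3704) (.e (nat_lit 73747) (nat_lit 3) (.e (nat_lit 516129) (nat_lit 3) (.e (nat_lit 221213) (nat_lit 23) (.e (nat_lit 204830) (nat_lit 18) (.e (nat_lit 57926) (nat_lit 282) (.e (nat_lit 163869) (nat_lit 2) (.e (nat_lit 196668) (nat_lit 14) .nil))))))) (.g (nat_lit 1) (.e (nat_lit 266144) (nat_lit 0) .nil) .nil))))) (.nd (nat_lit 8) (.nd (nat_lit 9) 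
(.lf (nat_lit 537807) (.g (nat_lit 1351) (.e (nat_lit 65622) (nat_lit 12) (.e (nat_lit 385074) (nat_lit 31) (.e (nat_lit 573493) (nat_lit 15) (.e (nat_lit 89856) (nat_lit 0) .nil)))) (.g (nat_lit 0) (.e (nat_lit 263150) (nat_lit 0) .nil) .nil))) 
(.lf (nat_lit 538319) (.g (nat_lit 4897) (.e (nat_lit 73746) (nat_lit 3) (.e (nat_lit 516129) (nat_lit 3) (.e (nat_lit 221214) (nat_lit 23) (.e (nat_lit 204830) (nat_lit 18) (.e (nat_lit 57926) (nat_lit 282) (.e (nat_lit 163868) (nat_lit 2) (.e (nat_lit 196668) (nat_lit 14) .nil))))))) (.g (nat_lit 1) (.e (nat_lit 265506) (nat_lit 0) .nil) .nil)))) (.nd (nat_lit 9) 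
(.lf (nat_lit 538063) (.g (nat_lit 1474) (.e (nat_lit 65647) (nat_lit 25) (.e (nat_lit 409602) (nat_lit 0) (.e (nat_lit 5293) (nat_lit 298) (.e (nat_lit 1423) (nat_lit 108) (.e (nat_lit 336438) (nat_lit 31) .nil))))) (.g (nat_lit 0) (.e (nat_lit 264060) (nat_lit 0) .nil) .nil))) 
(.lf (nat_lit 538575) (.g (nat_lit 2837) (.e (nat_lit 73753) (nat_lit 8) (.e (nat_lit 557103) (nat_lit 14) (.e (nat_lit 180244) (nat_lit 5) (.e (nat_lit 532499) (nat_lit 1) (.e (nat_lit 57704) (nat_lit 164) .nil))))) (.g (nat_lit 0) (.e (nat_lit 266491) (nat_lit 0) .nil) .nil))))))) (.nd (nat_lit 6) (.nd (nat_lit 7) (.nd (nat_lit 8) (.nd (nat_lit 9) 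
(.lf (nat_lit 537647) (.g (nat_lit 3021) (.e (nat_lit 65619) (nat_lit 10) (.e (nat_lit 344117) (nat_lit 21) (.e (nat_lit 516151) (nat_lit 9) (.e (nat_lit 426103) (nat_lit 1) .nil)))) (.g (nat_lit 0) (.e (nat_lit 262930) (nat_lit 0) .nil) .nil))) 
(.lf (nat_lit 538159) (.g (nat_lit 749) (.e (nat_lit 73472) (nat_lit 34) (.e (nat_lit 483412) (nat_lit 27) (.e (nat_lit 401426) (nat_lit 3) .nil))) (.g (nat_lit 0) (.e (nat_lit 264654) (nat_lit 0) .nil) .nil)))) (.nd (nat_lit 9) 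
(.lf (nat_lit 537903) (.g (nat_lit 1502) (.e (nat_lit 65629) (nat_lit 14) (.e (nat_lit 401425) (nat_lit 2) (.e (nat_lit 196674) (nat_lit 15) (.e (nat_lit 81922) (nat_lit 0) .nil)))) (.g (nat_lit 0) (.e (nat_lit 263380) (nat_lit 0) .nil) .nil))) 
(.lf (nat_lit 538415) (.g (nat_lit 2425) (.e (nat_lit 73747) (nat_lit 3) (.e (nat_lit 516116) (nat_lit 1) (.e (nat_lit 164182) (nat_lit 154) (.e (nat_lit 57378) (nat_lit 3) (.e (nat_lit 98342) (nat_lit 20) .nil))))) (.g (nat_lit 0) (.e (nat_lit 265876) (nat_lit 0) .nil) .nil))))) (.nd (nat_lit 8) (.nd (nat_lit 9) 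
(.lf (nat_lit 537775) (.g (nat_lit 2369) (.e (nat_lit 65619) (nat_lit 10) (.e (nat_lit 344129) (nat_lit 26) (.e (nat_lit 557119) (nat_lit 18) (.e (nat_lit 2448) (nat_lit 157) .nil)))) (.g (nat_lit 0) (.e (nat_lit 263081) (nat_lit 0) .nil) .nil))) 
(.lf (nat_lit 538287) (.g (nat_lit 2370) (.e (nat_lit 73746) (nat_lit 3) (.e (nat_lit 516119) (nat_lit 1) (.e (nat_lit 164179) (nat_lit 154) (.e (nat_lit 57379) (nat_lit 3) (.e (nat_lit 98340) (nat_lit 20) .nil))))) (.g (nat_lit 0) (.e (nat_lit 265358) (nat_lit 0) .nil) .nil)))) (.nd (nat_lit 9) 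
(.lf (nat_lit 538031) (.g (nat_lit 2367) (.e (nat_lit 65642) (nat_lit 15) (.e (nat_lit 3305) (nat_lit 202) (.e (nat_lit 573485) (nat_lit 13) (.e (nat_lit 65619) (nat_lit 10) (.e (nat_lit 344117) (nat_lit 21) (.e (nat_lit 516098) (nat_lit 0) (.e (nat_lit 7585) (nat_lit 406) .nil))))))) (.g (nat_lit 1) (.e (nat_lit 263734) (nat_lit 0) .nil) .nil))) 
(.lf (nat_lit 538543) (.g (nat_lit 1899) (.e (nat_lit 73753) (nat_lit 8) (.e (nat_lit 557087) (nat_lit 11) (.e (nat_lit 24643) (nat_lit 11) (.e (nat_lit 368676) (nat_lit 21) (.e (nat_lit 516106) (nat_lit 0) (.e (nat_lit 7936) (nat_lit 407) .nil)))))) (.g (nat_lit 1) (.e (nat_lit 266380) (nat_lit 0) .nil) .nil)))))) (.nd (nat_lit 7) (.nd (nat_lit 8) (.nd (nat_lit 9) 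
(.lf (nat_lit 537711) (.g (nat_lit 1982) (.e (nat_lit 65619) (nat_lit 10) (.e (nat_lit 344129) (nat_lit 26) (.e (nat_lit 557066) (nat_lit 9) (.e (nat_lit 307) (nat_lit 22) (.e (nat_lit 344097) (nat_lit 18) .nil))))) (.g (nat_lit 0) (.e (nat_lit 263007) (nat_lit 0) .nil) .nil))) 
(.lf (nat_lit 538223) (.g (nat_lit 808) (.e (nat_lit 73750) (nat_lit 6) (.e (nat_lit 540724) (nat_lit 28) (.e (nat_lit 442395) (nat_lit 20) (.e (nat_lit 3571) (nat_lit 222) (.e (nat_lit 737283) (nat_lit 0) (.e (nat_lit 5410) (nat_lit 303) .nil)))))) (.g (nat_lit 1) (.e (nat_lit 265023) (nat_lit 0) .nil) .nil)))) (.nd (nat_lit 9) 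
(.lf (nat_lit 537967) (.g (nat_lit 1212) (.e (nat_lit 65636) (nat_lit 15) (.e (nat_lit 3249) (nat_lit 197) (.e (nat_lit 532503) (nat_lit 1) (.e (nat_lit 57870) (nat_lit 264) .nil)))) (.g (nat_lit 0) (.e (nat_lit 263501) (nat_lit 0) .nil) .nil))) 
(.lf (nat_lit 538479) (.g (nat_lit 2534) (.e (nat_lit 73747) (nat_lit 3) (.e (nat_lit 516139) (nat_lit 7) (.e (nat_lit 409647) (nat_lit 18) (.e (nat_lit 303117) (nat_lit 2) (.e (nat_lit 196661) (nat_lit 12) .nil))))) (.g (nat_lit 0) (.e (nat_lit 266186) (nat_lit 0) .nil) .nil))))) (.nd (nat_lit 8) (.nd (nat_lit 9) 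
(.lf (nat_lit 537839) (.g (nat_lit 2586) (.e (nat_lit 65625) (nat_lit 13) (.e (nat_lit 393234) (nat_lit 17) (.e (nat_lit 7591) (nat_lit 407) (.e (nat_lit 73773) (nat_lit 25) (.e (nat_lit 770072) (nat_lit 8) .nil))))) (.g (nat_lit 1) (.e (nat_lit 263243) (nat_lit 0) .nil) .nil))) 
(.lf (nat_lit 538351) (.g (nat_lit 4179) (.e (nat_lit 73746) (nat_lit 3) (.e (nat_lit 516131) (nat_lit 3) (.e (nat_lit 221215) (nat_lit 23) (.e (nat_lit 204830) (nat_lit 18) (.e (nat_lit 57926) (nat_lit 282) (.e (nat_lit 163868) (nat_lit 2) (.e (nat_lit 196670) (nat_lit 14) .nil))))))) (.g (nat_lit 1) (.e (nat_lit 265545) (nat_lit 0) .nil) .nil)))) (.nd (nat_lit 9) 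
(.lf (nat_lit 538095) (.g (nat_lit 3046) (.e (nat_lit 65653) (nat_lit 27) (.e (nat_lit 426011) (nat_lit 0) (.e (nat_lit 7593) (nat_lit 407) (.e (nat_lit 73729) (nat_lit 0) (.e (nat_lit 7265) (nat_lit 384) (.e (nat_lit 57354) (nat_lit 0) (.e (nat_lit 7936) (nat_lit 347) .nil))))))) (.g (nat_lit 1) (.e (nat_lit 264201) (nat_lit 0) .nil) .nil))) 
(.lf (nat_lit 538607) (.g (nat_lit 1112) (.e (nat_lit 73753) (nat_lit 8) (.e (nat_lit 557104) (nat_lit 14) (.e (nat_lit 180245) (nat_lit 5) (.e (nat_lit 532499) (nat_lit 1) .nil)))) (.g (nat_lit 0) (.e (nat_lit 266549) (nat_lit 0) .nil) .nil)))))))) (.nd (nat_lit 5) (.nd (nat_lit 6) (.nd (nat_lit 7) (.nd (nat_lit 8) (.nd (nat_lit 9) 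
(.lf (nat_lit 537631) (.g (nat_lit 3135) (.e (nat_lit 65619) (nat_lit 10) (.e (nat_lit 344117) (nat_lit 21) (.e (nat_lit 516151) (nat_lit 9) (.e (nat_lit 426037) (nat_lit 0) .nil)))) (.g (nat_lit 0) (.e (nat_lit 262914) (nat_lit 0) .nil) .nil))) 
(.lf (nat_lit 538143) (.g (nat_lit 513) (.e (nat_lit 73472) (nat_lit 34) (.e (nat_lit 483344) (nat_lit 17) (.e (nat_lit 6712) (nat_lit 360) .nil))) (.g (nat_lit 0) (.e (nat_lit 264514) (nat_lit 0) .nil) .nil)))) (.nd (nat_lit 9) 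
(.lf (nat_lit 537887) (.g (nat_lit 3517) (.e (nat_lit 65628) (nat_lit 14) (.e (nat_lit 401428) (nat_lit 3) (.e (nat_lit 204865) (nat_lit 28) (.e (nat_lit 352262) (nat_lit 0) (.e (nat_lit 3305) (nat_lit 202) (.e (nat_lit 573482) (nat_lit 13) .nil)))))) (.g (nat_lit 1) (.e (nat_lit 263348) (nat_lit 0) .nil) .nil))) 
(.lf (nat_lit 538399) (.g (nat_lit 1622) (.e (nat_lit 73747) (nat_lit 3) (.e (nat_lit 516098) (nat_lit 0) (.e (nat_lit 7591) (nat_lit 407) (.e (nat_lit 73748) (nat_lit 3) (.e (nat_lit 516106) (nat_lit 0) (.e (nat_lit 7936) (nat_lit 407) .nil)))))) (.g (nat_lit 1) (.e (nat_lit 265616) (nat_lit 0) .nil) .nil))))) (.nd (nat_lit 8) (.nd (nat_lit 9) 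
(.lf (nat_lit 537759) (.g (nat_lit 3563) (.e (nat_lit 65619) (nat_lit 10) (.e (nat_lit 344129) (nat_lit 26) (.e (nat_lit 557087) (nat_lit 11) (.e (nat_lit 24653) (nat_lit 12) (.e (nat_lit 385073) (nat_lit 31) (.e (nat_lit 573482) (nat_lit 13) .nil)))))) (.g (nat_lit 1) (.e (nat_lit 263062) (nat_lit 0) .nil) .nil))) 
(.lf (nat_lit 538271) (.g (nat_lit 3057) (.e (nat_lit 73746) (nat_lit 3) (.e (nat_lit 516116) (nat_lit 1) (.e (nat_lit 164182) (nat_lit 154) (.e (nat_lit 57379) (nat_lit 3) (.e (nat_lit 98341) (nat_lit 20) (.e (nat_lit 221210) (nat_lit 22) (.e (nat_lit 196670) (nat_lit 14) .nil))))))) (.g (nat_lit 1) (.e (nat_lit 265215) (nat_lit 0) .nil) .nil)))) (.nd (nat_lit 9) 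
(.lf (nat_lit 538015) (.g (nat_lit 3333) (.e (nat_lit 65637) (nat_lit 15) (.e (nat_lit 3632) (nat_lit 227) (.e (nat_lit 778326) (nat_lit 6) (.e (nat_lit 81959) (nat_lit 24) (.e (nat_lit 123195) (nat_lit 266) (.e (nat_lit 57354) (nat_lit 0) (.e (nat_lit 7936) (nat_lit 347) .nil))))))) (.g (nat_lit 1) (.e (nat_lit 263629) (nat_lit 0) .nil) .nil))) 
(.lf (nat_lit 538527) (.g (nat_lit 1673) (.e (nat_lit 73748) (nat_lit 3) (.e (nat_lit 516139) (nat_lit 7) (.e (nat_lit 409641) (nat_lit 17) (.e (nat_lit 294930) (nat_lit 3) .nil)))) (.g (nat_lit 0) (.e (nat_lit 266267) (nat_lit 0) .nil) .nil)))))) (.nd (nat_lit 7) (.nd (nat_lit 8) (.nd (nat_lit 9) 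
(.lf (nat_lit 537695) (.g (nat_lit 3474) (.e (nat_lit 65619) (nat_lit 10) (.e (nat_lit 344126) (nat_lit 25) (.e (nat_lit 548891) (nat_lit 11) (.e (nat_lit 81924) (nat_lit 0) (.e (nat_lit 3305) (nat_lit 202) (.e (nat_lit 573485) (nat_lit 13) .nil)))))) (.g (nat_lit 1) (.e (nat_lit 262986) (nat_lit 0) .nil) .nil))) 
(.lf (nat_lit 538207) (.g (nat_lit 1538) (.e (nat_lit 81664) (nat_lit 5) (.e (nat_lit 532583) (nat_lit 26) (.e (nat_lit 426188) (nat_lit 9) (.e (nat_lit 426560) (nat_lit 33) .nil)))) (.g (nat_lit 0) (.e (nat_lit 264983) (nat_lit 0) .nil) .nil)))) (.nd (nat_lit 9) 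
(.lf (nat_lit 537951) (.g (nat_lit 1919) (.e (nat_lit 65630) (nat_lit 14) (.e (nat_lit 401428) (nat_lit 3) (.e (nat_lit 204866) (nat_lit 28) (.e (nat_lit 352318) (nat_lit 24) (.e (nat_lit 130816) (nat_lit 140) .nil))))) (.g (nat_lit 0) (.e (nat_lit 263448) (nat_lit 0) .nil) .nil))) 
(.lf (nat_lit 538463) (.g (nat_lit 5329) (.e (nat_lit 73747) (nat_lit 3) (.e (nat_lit 516131) (nat_lit 3) (.e (nat_lit 221215) (nat_lit 23) (.e (nat_lit 204829) (nat_lit 18) (.e (nat_lit 57931) (nat_lit 282) (.e (nat_lit 163869) (nat_lit 2) (.e (nat_lit 196668) (nat_lit 14) .nil))))))) (.g (nat_lit 1) (.e (nat_lit 266168) (nat_lit 0) .nil) .nil))))) (.nd (nat_lit 8) (.nd (nat_lit 9) 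
(.lf (nat_lit 537823) (.g (nat_lit 368) (.e (nat_lit 65623) (nat_lit 12) (.e (nat_lit 385074) (nat_lit 31) (.e (nat_lit 573493) (nat_lit 15) .nil))) (.g (nat_lit 0) (.e (nat_lit 263196) (nat_lit 0) .nil) .nil))) 
(.lf (nat_lit 538335) (.g (nat_lit 3360) (.e (nat_lit 73746) (nat_lit 3) (.e (nat_lit 516131) (nat_lit 3) (.e (nat_lit 221214) (nat_lit 23) (.e (nat_lit 204829) (nat_lit 18) (.e (nat_lit 57927) (nat_lit 282) (.e (nat_lit 163871) (nat_lit 2) (.e (nat_lit 196670) (nat_lit 14) .nil))))))) (.g (nat_lit 1) (.e (nat_lit 265527) (nat_lit 0) .nil) .nil)))) (.nd (nat_lit 9) 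
(.lf (nat_lit 538079) (.g (nat_lit 867) (.e (nat_lit 65654) (nat_lit 27) (.e (nat_lit 426306) (nat_lit 12) (.e (nat_lit 475211) (nat_lit 41) .nil))) (.g (nat_lit 0) (.e (nat_lit 264170) (nat_lit 0) .nil) .nil))) 
(.lf (nat_lit 538591) (.g (nat_lit 5238) (.e (nat_lit 73753) (nat_lit 8) (.e (nat_lit 557103) (nat_lit 14) (.e (nat_lit 180250) (nat_lit 10) (.e (nat_lit 573475) (nat_lit 12) (.e (nat_lit 57503) (nat_lit 38) (.e (nat_lit 638995) (nat_lit 7) (.e (nat_lit 163978) (nat_lit 30) (.e (nat_lit 573487) (nat_lit 14) .nil)))))))) (.g (nat_lit 1) (.e (nat_lit 266528) (nat_lit 0) .nil) .nil))))))) 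
(.nd (nat_lit 6) (.nd (nat_lit 7) (.nd (nat_lit 8) (.nd (nat_lit 9) 
(.lf (nat_lit 537663) (.g (nat_lit 4949) (.e (nat_lit 65619) (nat_lit 10) (.e (nat_lit 344117) (nat_lit 21) (.e (nat_lit 516159) (nat_lit 10) (.e (nat_lit 434272) (nat_lit 38) (.e (nat_lit 655375) (nat_lit 3) (.e (nat_lit 163979) (nat_lit 30) (.e (nat_lit 573482) (nat_lit 13) .nil))))))) (.g (nat_lit 1) (.e (nat_lit 262946) (nat_lit 0) .nil) .nil))) 
(.lf (nat_lit 538175) (.g (nat_lit 1405) (.e (nat_lit 73731) (nat_lit 0) (.e (nat_lit 7266) (nat_lit 384) (.e (nat_lit 57409) (nat_lit 12) (.e (nat_lit 336115) (nat_lit 9) (.e (nat_lit 343808) (nat_lit 28) (.e (nat_lit 442112) (nat_lit 5) .nil)))))) (.g (nat_lit 1) (.e (nat_lit 264760) (nat_lit 0) .nil) .nil)))) (.nd (nat_lit 9) 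
(.lf (nat_lit 537919) (.g (nat_lit 2698) (.e (nat_lit 65630) (nat_lit 14) (.e (nat_lit 401425) (nat_lit 2) (.e (nat_lit 196666) (nat_lit 13) (.e (nat_lit 65630) (nat_lit 14) (.e (nat_lit 401412) (nat_lit 0) (.e (nat_lit 3122) (nat_lit 193) (.e (nat_lit 500060) (nat_lit 18) .nil))))))) (.g (nat_lit 1) (.e (nat_lit 263405) (nat_lit 0) .nil) .nil))) 
(.lf (nat_lit 538431) (.g (nat_lit 2112) (.e (nat_lit 73747) (nat_lit 3) (.e (nat_lit 516119) (nat_lit 1) (.e (nat_lit 164176) (nat_lit 154) (.e (nat_lit 57378) (nat_lit 3) (.e (nat_lit 98340) (nat_lit 20) .nil))))) (.g (nat_lit 0) (.e (nat_lit 266001) (nat_lit 0) .nil) .nil))))) (.nd (nat_lit 8) (.nd (nat_lit 9) 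
(.lf (nat_lit 537791) (.g (nat_lit 2697) (.e (nat_lit 65620) (nat_lit 10) (.e (nat_lit 344118) (nat_lit 21) (.e (nat_lit 516179) (nat_lit 15) (.e (nat_lit 475199) (nat_lit 40) (.e (nat_lit 704589) (nat_lit 3) (.e (nat_lit 163978) (nat_lit 30) (.e (nat_lit 573485) (nat_lit 13) .nil))))))) (.g (nat_lit 1) (.e (nat_lit 263110) (nat_lit 0) .nil) .nil))) 
(.lf (nat_lit 538303) (.g (nat_lit 3477) (.e (nat_lit 73746) (nat_lit 3) (.e (nat_lit 516120) (nat_lit 1) (.e (nat_lit 164182) (nat_lit 154) (.e (nat_lit 57379) (nat_lit 3) (.e (nat_lit 98340) (nat_lit 20) (.e (nat_lit 221212) (nat_lit 22) (.e (nat_lit 196668) (nat_lit 14) .nil))))))) (.g (nat_lit 1) (.e (nat_lit 265420) (nat_lit 0) .nil) .nil)))) (.nd (nat_lit 9) 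
(.lf (nat_lit 538047) (.g (nat_lit 2195) (.e (nat_lit 73472) (nat_lit 18) (.e (nat_lit 204862) (nat_lit 27) (.e (nat_lit 344117) (nat_lit 21) (.e (nat_lit 516097) (nat_lit 0) (.e (nat_lit 3605) (nat_lit 225) .nil))))) (.g (nat_lit 0) (.e (nat_lit 263855) (nat_lit 0) .nil) .nil))) 
(.lf (nat_lit 538559) (.g (nat_lit 1113) (.e (nat_lit 73753) (nat_lit 8) (.e (nat_lit 557098) (nat_lit 13) (.e (nat_lit 172065) (nat_lit 3) (.e (nat_lit 204821) (nat_lit 17) .nil)))) (.g (nat_lit 0) (.e (nat_lit 266415) (nat_lit 0) .nil) .nil)))))) (.nd (nat_lit 7) (.nd (nat_lit 8) (.nd (nat_lit 9) 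
(.lf (nat_lit 537727) (.g (nat_lit 2827) (.e (nat_lit 65619) (nat_lit 10) (.e (nat_lit 344129) (nat_lit 26) (.e (nat_lit 557087) (nat_lit 11) (.e (nat_lit 24584) (nat_lit 0) (.e (nat_lit 1932) (nat_lit 131) .nil))))) (.g (nat_lit 0) (.e (nat_lit 263030) (nat_lit 0) .nil) .nil))) 
(.lf (nat_lit 538239) (.g (nat_lit 563) (.e (nat_lit 73745) (nat_lit 3) (.e (nat_lit 516139) (nat_lit 7) (.e (nat_lit 409644) (nat_lit 18) .nil))) (.g (nat_lit 0) (.e (nat_lit 265043) (nat_lit 0) .nil) .nil)))) (.nd (nat_lit 9) 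
(.lf (nat_lit 537983) (.g (nat_lit 2355) (.e (nat_lit 65637) (nat_lit 15) (.e (nat_lit 3253) (nat_lit 197) (.e (nat_lit 532504) (nat_lit 1) (.e (nat_lit 57851) (nat_lit 252) (.e (nat_lit 57357) (nat_lit 0) .nil))))) (.g (nat_lit 0) (.e (nat_lit 263533) (nat_lit 0) .nil) .nil))) 
(.lf (nat_lit 538495) (.g (nat_lit 2337) (.e (nat_lit 73748) (nat_lit 3) (.e (nat_lit 516102) (nat_lit 0) (.e (nat_lit 6989) (nat_lit 377) (.e (nat_lit 2777) (nat_lit 178) (.e (nat_lit 286735) (nat_lit 3) .nil))))) (.g (nat_lit 0) (.e (nat_lit 266219) (nat_lit 0) .nil) .nil))))) (.nd (nat_lit 8) (.nd (nat_lit 9) 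
(.lf (nat_lit 537855) (.g (nat_lit 2343) (.e (nat_lit 65627) (nat_lit 13) (.e (nat_lit 393296) (nat_lit 26) (.e (nat_lit 475214) (nat_lit 42) (.e (nat_lit 720912) (nat_lit 20) .nil)))) (.g (nat_lit 0) (.e (nat_lit 263306) (nat_lit 0) .nil) .nil))) 
(.lf (nat_lit 538367) (.g (nat_lit 2378) (.e (nat_lit 73746) (nat_lit 3) (.e (nat_lit 516139) (nat_lit 7) (.e (nat_lit 409640) (nat_lit 17) (.e (nat_lit 294931) (nat_lit 3) (.e (nat_lit 98323) (nat_lit 17) (.e (nat_lit 7936) (nat_lit 407) .nil)))))) (.g (nat_lit 1) (.e (nat_lit 265571) (nat_lit 0) .nil) .nil)))) (.nd (nat_lit 9) 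
(.lf (nat_lit 538111) (.g (nat_lit 1947) (.e (nat_lit 65653) (nat_lit 27) (.e (nat_lit 426341) (nat_lit 14) (.e (nat_lit 491571) (nat_lit 13) (.e (nat_lit 393242) (nat_lit 17) (.e (nat_lit 7936) (nat_lit 406) .nil))))) (.g (nat_lit 1) (.e (nat_lit 264278) (nat_lit 0) .nil) .nil))) 
(.lf (nat_lit 538623) (.g (nat_lit 3213) (.e (nat_lit 73753) (nat_lit 8) (.e (nat_lit 557104) (nat_lit 14) (.e (nat_lit 180252) (nat_lit 10) (.e (nat_lit 573475) (nat_lit 12) (.e (nat_lit 57502) (nat_lit 38) .nil))))) (.g (nat_lit 0) (.e (nat_lit 266568) (nat_lit 0) .nil) .nil)))))))))))))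

noncomputable def tv5586 : DT := (.nd (nat_lit 0) (.nd (nat_lit 1) (.nd (nat_lit 2) (.nd (nat_lit 3) (.nd (nat_lit 4) (.nd (nat_lit 5) (.nd (nat_lit 6) (.nd (nat_lit 7) (.nd (nat_lit 8) (.nd (nat_lit 9) 
(.lf (nat_lit 538624) (.g (nat_lit 3019) (.e (nat_lit 73753) (nat_lit 8) (.e (nat_lit 557104) (nat_lit 14) (.e (nat_lit 180252) (nat_lit 10) (.e (nat_lit 573475) (nat_lit 12) (.e (nat_lit 57503) (nat_lit 38) .nil))))) (.g (nat_lit 0) (.e (nat_lit 266569) (nat_lit 0) .nil) .nil))) 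
(.lf (nat_lit 539136) (.g (nat_lit 1375) (.e (nat_lit 81664) (nat_lit 26) (.e (nat_lit 778462) (nat_lit 11) (.e (nat_lit 24628) (nat_lit 9) (.e (nat_lit 336438) (nat_lit 31) (.e (nat_lit 466688) (nat_lit 5) .nil))))) (.g (nat_lit 0) (.e (nat_lit 267843) (nat_lit 0) .nil) .nil)))) (.nd (nat_lit 9) 
(.lf (nat_lit 538880) (.g (nat_lit 2676) (.e (nat_lit 73755) (nat_lit 8) (.e (nat_lit 557104) (nat_lit 14) (.e (nat_lit 180252) (nat_lit 10) (.e (nat_lit 573474) (nat_lit 12) (.e (nat_lit 57500) (nat_lit 37) .nil))))) (.g (nat_lit 0) (.e (nat_lit 267042) (nat_lit 0) .nil) .nil))) 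
(.lf (nat_lit 539392) (.g (nat_lit 264) (.e (nat_lit 81664) (nat_lit 35) (.e (nat_lit 163950) (nat_lit 21) (.e (nat_lit 500072) (nat_lit 19) .nil))) (.g (nat_lit 0) (.e (nat_lit 268337) (nat_lit 0) .nil) .nil))))) (.nd (nat_lit 8) (.nd (nat_lit 9) 
(.lf (nat_lit 538752) (.g (nat_lit 2512) (.e (nat_lit 73754) (nat_lit 8) (.e (nat_lit 557105) (nat_lit 14) (.e (nat_lit 180252) (nat_lit 10) (.e (nat_lit 573473) (nat_lit 12) (.e (nat_lit 57508) (nat_lit 39) (.e (nat_lit 655104) (nat_lit 0) (.e (nat_lit 2667) (nat_lit 167) (.e (nat_lit 196669) (nat_lit 14) .nil)))))))) (.g (nat_lit 1) (.e (nat_lit 266735) (nat_lit 0) .nil) .nil))) 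
(.lf (nat_lit 539264) (.g (nat_lit 1763) (.e (nat_lit 73781) (nat_lit 32) (.e (nat_lit 3090) (nat_lit 191) (.e (nat_lit 483403) (nat_lit 26) (.e (nat_lit 385090) (nat_lit 49) (.e (nat_lit 778323) (nat_lit 5) .nil))))) (.g (nat_lit 0) (.e (nat_lit 268080) (nat_lit 0) .nil) .nil)))) (.nd (nat_lit 9) 
(.lf (nat_lit 539008) (.g (nat_lit 1797) (.e (nat_lit 73766) (nat_lit 19) (.e (nat_lit 647199) (nat_lit 11) (.e (nat_lit 16392) (nat_lit 0) (.e (nat_lit 7107) (nat_lit 380) (.e (nat_lit 164281) (nat_lit 222) (.e (nat_lit 57898) (nat_lit 275) .nil)))))) (.g (nat_lit 1) (.e (nat_lit 267570) (nat_lit 0) .nil) .nil))) 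
(.lf (nat_lit 539520) (.g (nat_lit 1226) (.e (nat_lit 89856) (nat_lit 3) (.e (nat_lit 204837) (nat_lit 20) (.e (nat_lit 114698) (nat_lit 11) (.e (nat_lit 426122) (nat_lit 2) .nil)))) (.g (nat_lit 0) (.e (nat_lit 268828) (nat_lit 0) .nil) .nil)))))) (.nd (nat_lit 7) (.nd (nat_lit 8) (.nd (nat_lit 9) 
(.lf (nat_lit 538688) (.g (nat_lit 3091) (.e (nat_lit 73753) (nat_lit 8) (.e (nat_lit 557119) (nat_lit 18) (.e (nat_lit 2798) (nat_lit 180) (.e (nat_lit 303127) (nat_lit 9) (.e (nat_lit 426558) (nat_lit 33) (.e (nat_lit 392960) (nat_lit 5) .nil)))))) (.g (nat_lit 1) (.e (nat_lit 266648) (nat_lit 0) .nil) .nil))) 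
(.lf (nat_lit 539200) (.g (nat_lit 2970) (.e (nat_lit 73781) (nat_lit 32) (.e (nat_lit 3088) (nat_lit 191) (.e (nat_lit 483406) (nat_lit 26) (.e (nat_lit 385094) (nat_lit 49) (.e (nat_lit 778323) (nat_lit 5) .nil))))) (.g (nat_lit 1) (.e (nat_lit 268016) (nat_lit 0) .nil) .nil)))) (.nd (nat_lit 9) 
(.lf (nat_lit 538944) (.g (nat_lit 2804) (.e (nat_lit 73755) (nat_lit 8) (.e (nat_lit 557105) (nat_lit 14) (.e (nat_lit 180252) (nat_lit 10) (.e (nat_lit 573474) (nat_lit 12) (.e (nat_lit 57507) (nat_lit 39) (.e (nat_lit 655104) (nat_lit 0) (.e (nat_lit 2656) (nat_lit 167) (.e (nat_lit 196669) (nat_lit 14) .nil)))))))) (.g (nat_lit 1) (.e (nat_lit 267340) (nat_lit 0) .nil) .nil))) 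
(.lf (nat_lit 539456) (.g (nat_lit 2006) (.e (nat_lit 81922) (nat_lit 0) (.e (nat_lit 3747) (nat_lit 228) (.e (nat_lit 786481) (nat_lit 30) (.e (nat_lit 360486) (nat_lit 18) (.e (nat_lit 671764) (nat_lit 6) .nil))))) (.g (nat_lit 1) (.e (nat_lit 268537) (nat_lit 0) .nil) .nil))))) (.nd (nat_lit 8) (.nd (nat_lit 9) 
(.lf (nat_lit 538816) (.g (nat_lit 4283) (.e (nat_lit 73755) (nat_lit 8) (.e (nat_lit 557090) (nat_lit 12) (.e (nat_lit 163844) (nat_lit 0) (.e (nat_lit 5943) (nat_lit 322) (.e (nat_lit 57375) (nat_lit 2) (.e (nat_lit 90173) (nat_lit 14) (.e (nat_lit 180252) (nat_lit 10) (.e (nat_lit 573489) (nat_lit 14) .nil)))))))) (.g (nat_lit 1) (.e (nat_lit 266816) (nat_lit 0) .nil) .nil))) 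
(.lf (nat_lit 539328) (.g (nat_lit 2990) (.e (nat_lit 73782) (nat_lit 32) (.e (nat_lit 2856) (nat_lit 184) (.e (nat_lit 426555) (nat_lit 32) (.e (nat_lit 376859) (nat_lit 21) (.e (nat_lit 57873) (nat_lit 264) (.e (nat_lit 1210) (nat_lit 89) .nil)))))) (.g (nat_lit 1) (.e (nat_lit 268193) (nat_lit 0) .nil) .nil)))) (.nd (nat_lit 9) 
(.lf (nat_lit 539072) (.g (nat_lit 3963) (.e (nat_lit 73775) (nat_lit 26) (.e (nat_lit 778466) (nat_lit 11) (.e (nat_lit 24623) (nat_lit 9) (.e (nat_lit 336412) (nat_lit 27) (.e (nat_lit 426011) (nat_lit 0) (.e (nat_lit 7591) (nat_lit 407) .nil)))))) (.g (nat_lit 1) (.e (nat_lit 267754) (nat_lit 0) .nil) .nil))) 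
(.lf (nat_lit 539584) (.g (nat_lit 1154) (.e (nat_lit 81938) (nat_lit 20) (.e (nat_lit 2390) (nat_lit 156) (.e (nat_lit 819203) (nat_lit 0) (.e (nat_lit 3015) (nat_lit 187) (.e (nat_lit 458496) (nat_lit 8) (.e (nat_lit 564992) (nat_lit 6) .nil)))))) (.g (nat_lit 1) (.e (nat_lit 269018) (nat_lit 0) .nil) .nil))))))) (.nd (nat_lit 6) (.nd (nat_lit 7) (.nd (nat_lit 8) (.nd (nat_lit 9) 
(.lf (nat_lit 538656) (.g (nat_lit 3031) (.e (nat_lit 73753) (nat_lit 8) (.e (nat_lit 557105) (nat_lit 14) (.e (nat_lit 180252) (nat_lit 10) (.e (nat_lit 573474) (nat_lit 12) (.e (nat_lit 57504) (nat_lit 38) (.e (nat_lit 638994) (nat_lit 7) (.e (nat_lit 163975) (nat_lit 30) (.e (nat_lit 573487) (nat_lit 14) .nil)))))))) (.g (nat_lit 1) (.e (nat_lit 266609) (nat_lit 0) .nil) .nil))) 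
(.lf (nat_lit 539168) (.g (nat_lit 3727) (.e (nat_lit 73781) (nat_lit 32) (.e (nat_lit 2856) (nat_lit 184) (.e (nat_lit 426540) (nat_lit 29) (.e (nat_lit 352262) (nat_lit 0) (.e (nat_lit 3632) (nat_lit 227) (.e (nat_lit 778323) (nat_lit 5) .nil)))))) (.g (nat_lit 1) (.e (nat_lit 267983) (nat_lit 0) .nil) .nil)))) (.nd (nat_lit 9) 
(.lf (nat_lit 538912) (.g (nat_lit 2662) (.e (nat_lit 73755) (nat_lit 8) (.e (nat_lit 557105) (nat_lit 14) (.e (nat_lit 180252) (nat_lit 10) (.e (nat_lit 573451) (nat_lit 9) (.e (nat_lit 1174) (nat_lit 87) .nil))))) (.g (nat_lit 0) (.e (nat_lit 267206) (nat_lit 0) .nil) .nil))) 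
(.lf (nat_lit 539424) (.g (nat_lit 639) (.e (nat_lit 73792) (nat_lit 45) (.e (nat_lit 1163) (nat_lit 86) (.e (nat_lit 49157) (nat_lit 0) (.e (nat_lit 2984) (nat_lit 186) (.e (nat_lit 450304) (nat_lit 2) (.e (nat_lit 98048) (nat_lit 5) .nil)))))) (.g (nat_lit 1) (.e (nat_lit 268444) (nat_lit 0) .nil) .nil))))) (.nd (nat_lit 8) (.nd (nat_lit 9) 
(.lf (nat_lit 538784) (.g (nat_lit 2682) (.e (nat_lit 73754) (nat_lit 8) (.e (nat_lit 557105) (nat_lit 14) (.e (nat_lit 180252) (nat_lit 10) (.e (nat_lit 573476) (nat_lit 12) .nil)))) (.g (nat_lit 0) (.e (nat_lit 266768) (nat_lit 0) .nil) .nil))) 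
(.lf (nat_lit 539296) (.g (nat_lit 741) (.e (nat_lit 73782) (nat_lit 32) (.e (nat_lit 2856) (nat_lit 184) (.e (nat_lit 426538) (nat_lit 29) (.e (nat_lit 360192) (nat_lit 4) .nil)))) (.g (nat_lit 0) (.e (nat_lit 268161) (nat_lit 0) .nil) .nil)))) (.nd (nat_lit 9) 
(.lf (nat_lit 539040) (.g (nat_lit 4233) (.e (nat_lit 73775) (nat_lit 26) (.e (nat_lit 778465) (nat_lit 11) (.e (nat_lit 24623) (nat_lit 9) (.e (nat_lit 336389) (nat_lit 27) (.e (nat_lit 426012) (nat_lit 0) (.e (nat_lit 7591) (nat_lit 407) .nil)))))) (.g (nat_lit 1) (.e (nat_lit 267703) (nat_lit 0) .nil) .nil))) 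
(.lf (nat_lit 539552) (.g (nat_lit 1996) (.e (nat_lit 81934) (nat_lit 20) (.e (nat_lit 1996) (nat_lit 137) (.e (nat_lit 663567) (nat_lit 4) (.e (nat_lit 65619) (nat_lit 10) (.e (nat_lit 344169) (nat_lit 40) (.e (nat_lit 671764) (nat_lit 6) .nil)))))) (.g (nat_lit 1) (.e (nat_lit 268945) (nat_lit 0) .nil) .nil)))))) (.nd (nat_lit 7) (.nd (nat_lit 8) (.nd (nat_lit 9) 
(.lf (nat_lit 538720) (.g (nat_lit 288) (.e (nat_lit 73754) (nat_lit 8) (.e (nat_lit 557101) (nat_lit 13) (.e (nat_lit 172066) (nat_lit 3) .nil))) (.g (nat_lit 0) (.e (nat_lit 266690) (nat_lit 0) .nil) .nil))) 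
(.lf (nat_lit 539232) (.g (nat_lit 1787) (.e (nat_lit 73781) (nat_lit 32) (.e (nat_lit 3090) (nat_lit 191) (.e (nat_lit 483381) (nat_lit 23) (.e (nat_lit 336332) (nat_lit 19) (.e (nat_lit 220928) (nat_lit 5) .nil))))) (.g (nat_lit 1) (.e (nat_lit 268048) (nat_lit 0) .nil) .nil)))) (.nd (nat_lit 9) 
(.lf (nat_lit 538976) (.g (nat_lit 2987) (.e (nat_lit 73755) (nat_lit 8) (.e (nat_lit 557119) (nat_lit 18) (.e (nat_lit 2797) (nat_lit 180) (.e (nat_lit 303145) (nat_lit 13) (.e (nat_lit 483333) (nat_lit 0) (.e (nat_lit 7936) (nat_lit 407) .nil)))))) (.g (nat_lit 1) (.e (nat_lit 267387) (nat_lit 0) .nil) .nil))) 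
(.lf (nat_lit 539488) (.g (nat_lit 1470) (.e (nat_lit 81924) (nat_lit 0) (.e (nat_lit 3747) (nat_lit 228) (.e (nat_lit 786473) (nat_lit 27) (.e (nat_lit 336119) (nat_lit 9) (.e (nat_lit 336331) (nat_lit 19) (.e (nat_lit 220928) (nat_lit 6) .nil)))))) (.g (nat_lit 1) (.e (nat_lit 268647) (nat_lit 0) .nil) .nil))))) (.nd (nat_lit 8) (.nd (nat_lit 9) 
(.lf (nat_lit 538848) (.g (nat_lit 2430) (.e (nat_lit 73755) (nat_lit 8) (.e (nat_lit 557104) (nat_lit 14) (.e (nat_lit 180244) (nat_lit 5) (.e (nat_lit 532481) (nat_lit 0) (.e (nat_lit 2265) (nat_lit 149) .nil))))) (.g (nat_lit 0) (.e (nat_lit 266914) (nat_lit 0) .nil) .nil))) 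
(.lf (nat_lit 539360) (.g (nat_lit 1663) (.e (nat_lit 73782) (nat_lit 32) (.e (nat_lit 3090) (nat_lit 191) (.e (nat_lit 483381) (nat_lit 23) (.e (nat_lit 336332) (nat_lit 19) (.e (nat_lit 220928) (nat_lit 5) .nil))))) (.g (nat_lit 1) (.e (nat_lit 268225) (nat_lit 0) .nil) .nil)))) (.nd (nat_lit 9) 
(.lf (nat_lit 539104) (.g (nat_lit 1955) (.e (nat_lit 73775) (nat_lit 26) (.e (nat_lit 778466) (nat_lit 11) (.e (nat_lit 24636) (nat_lit 9) (.e (nat_lit 336402) (nat_lit 27) (.e (nat_lit 425984) (nat_lit 0) (.e (nat_lit 7590) (nat_lit 407) .nil)))))) (.g (nat_lit 1) (.e (nat_lit 267791) (nat_lit 0) .nil) .nil))) 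
(.lf (nat_lit 539616) (.g (nat_lit 2009) (.e (nat_lit 81938) (nat_lit 20) (.e (nat_lit 2391) (nat_lit 156) (.e (nat_lit 819204) (nat_lit 0) (.e (nat_lit 3015) (nat_lit 187) (.e (nat_lit 458496) (nat_lit 8) (.e (nat_lit 564992) (nat_lit 6) .nil)))))) (.g (nat_lit 1) (.e (nat_lit 269051) (nat_lit 0) .nil) .nil)))))))) 
(.nd (nat_lit 5) (.nd (nat_lit 6) (.nd (nat_lit 7) (.nd (nat_lit 8) (.nd (nat_lit 9) 
(.lf (nat_lit 538640) (.g (nat_lit 2915) (.e (nat_lit 73753) (nat_lit 8) (.e (nat_lit 557105) (nat_lit 14) (.e (nat_lit 180252) (nat_lit 10) (.e (nat_lit 573451) (nat_lit 9) (.e (nat_lit 1169) (nat_lit 87) .nil))))) (.g (nat_lit 0) (.e (nat_lit 266591) (nat_lit 0) .nil) .nil))) 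
(.lf (nat_lit 539152) (.g (nat_lit 4071) (.e (nat_lit 73781) (nat_lit 32) (.e (nat_lit 2664) (nat_lit 167) (.e (nat_lit 196666) (nat_lit 13) (.e (nat_lit 65630) (nat_lit 14) (.e (nat_lit 401425) (nat_lit 2) (.e (nat_lit 196670) (nat_lit 14) .nil)))))) (.g (nat_lit 1) (.e (nat_lit 267951) (nat_lit 0) .nil) .nil)))) (.nd (nat_lit 9) 
(.lf (nat_lit 538896) (.g (nat_lit 3604) (.e (nat_lit 73755) (nat_lit 8) (.e (nat_lit 557105) (nat_lit 14) (.e (nat_lit 180244) (nat_lit 5) (.e (nat_lit 532503) (nat_lit 1) (.e (nat_lit 57661) (nat_lit 152) (.e (nat_lit 2606) (nat_lit 163) (.e (nat_lit 163978) (nat_lit 30) (.e (nat_lit 573489) (nat_lit 14) .nil)))))))) (.g (nat_lit 1) (.e (nat_lit 267110) (nat_lit 0) .nil) .nil))) 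
(.lf (nat_lit 539408) (.g (nat_lit 522) (.e (nat_lit 73788) (nat_lit 45) (.e (nat_lit 1163) (nat_lit 86) (.e (nat_lit 49157) (nat_lit 0) (.e (nat_lit 2984) (nat_lit 186) (.e (nat_lit 450304) (nat_lit 2) (.e (nat_lit 98048) (nat_lit 5) .nil)))))) (.g (nat_lit 1) (.e (nat_lit 268412) (nat_lit 0) .nil) .nil))))) (.nd (nat_lit 8) (.nd (nat_lit 9) 
(.lf (nat_lit 538768) (.g (nat_lit 3412) (.e (nat_lit 73754) (nat_lit 8) (.e (nat_lit 557105) (nat_lit 14) (.e (nat_lit 180252) (nat_lit 10) (.e (nat_lit 573475) (nat_lit 12) (.e (nat_lit 57507) (nat_lit 39) (.e (nat_lit 647176) (nat_lit 0) (.e (nat_lit 2663) (nat_lit 167) (.e (nat_lit 196667) (nat_lit 14) .nil)))))))) (.g (nat_lit 1) (.e (nat_lit 266752) (nat_lit 0) .nil) .nil))) 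
(.lf (nat_lit 539280) (.g (nat_lit 461) (.e (nat_lit 73782) (nat_lit 32) (.e (nat_lit 2663) (nat_lit 167) (.e (nat_lit 196667) (nat_lit 14) .nil))) (.g (nat_lit 0) (.e (nat_lit 268107) (nat_lit 0) .nil) .nil)))) (.nd (nat_lit 9) 
(.lf (nat_lit 539024) (.g (nat_lit 1498) (.e (nat_lit 73775) (nat_lit 26) (.e (nat_lit 778463) (nat_lit 11) (.e (nat_lit 24627) (nat_lit 9) (.e (nat_lit 336421) (nat_lit 28) (.e (nat_lit 442112) (nat_lit 5) .nil))))) (.g (nat_lit 1) (.e (nat_lit 267680) (nat_lit 0) .nil) .nil))) 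
(.lf (nat_lit 539536) (.g (nat_lit 2535) (.e (nat_lit 81927) (nat_lit 11) (.e (nat_lit 426500) (nat_lit 27) (.e (nat_lit 335988) (nat_lit 1) (.e (nat_lit 57927) (nat_lit 282) (.e (nat_lit 163868) (nat_lit 2) (.e (nat_lit 196672) (nat_lit 15) .nil)))))) (.g (nat_lit 1) (.e (nat_lit 268869) (nat_lit 0) .nil) .nil)))))) (.nd (nat_lit 7) (.nd (nat_lit 8) (.nd (nat_lit 9) 
(.lf (nat_lit 538704) (.g (nat_lit 3653) (.e (nat_lit 73753) (nat_lit 8) (.e (nat_lit 557119) (nat_lit 18) (.e (nat_lit 2798) (nat_lit 180) (.e (nat_lit 303145) (nat_lit 13) (.e (nat_lit 483333) (nat_lit 0) (.e (nat_lit 7936) (nat_lit 407) .nil)))))) (.g (nat_lit 1) (.e (nat_lit 266664) (nat_lit 0) .nil) .nil))) 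
(.lf (nat_lit 539216) (.g (nat_lit 2190) (.e (nat_lit 73781) (nat_lit 32) (.e (nat_lit 3089) (nat_lit 191) (.e (nat_lit 483406) (nat_lit 26) (.e (nat_lit 385095) (nat_lit 49) (.e (nat_lit 786176) (nat_lit 5) .nil))))) (.g (nat_lit 1) (.e (nat_lit 268032) (nat_lit 0) .nil) .nil)))) (.nd (nat_lit 9) 
(.lf (nat_lit 538960) (.g (nat_lit 5896) (.e (nat_lit 73755) (nat_lit 8) (.e (nat_lit 557105) (nat_lit 14) (.e (nat_lit 180252) (nat_lit 10) (.e (nat_lit 573475) (nat_lit 12) (.e (nat_lit 57503) (nat_lit 38) (.e (nat_lit 638996) (nat_lit 7) (.e (nat_lit 163978) (nat_lit 30) (.e (nat_lit 573489) (nat_lit 14) .nil)))))))) (.g (nat_lit 1) (.e (nat_lit 267363) (nat_lit 0) .nil) .nil))) 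
(.lf (nat_lit 539472) (.g (nat_lit 1406) (.e (nat_lit 81924) (nat_lit 0) (.e (nat_lit 3305) (nat_lit 202) (.e (nat_lit 573484) (nat_lit 13) (.e (nat_lit 65629) (nat_lit 14) .nil)))) (.g (nat_lit 0) (.e (nat_lit 268611) (nat_lit 0) .nil) .nil))))) (.nd (nat_lit 8) (.nd (nat_lit 9) 
(.lf (nat_lit 538832) (.g (nat_lit 785) (.e (nat_lit 73755) (nat_lit 8) (.e (nat_lit 557098) (nat_lit 13) (.e (nat_lit 172131) (nat_lit 15) .nil))) (.g (nat_lit 0) (.e (nat_lit 266866) (nat_lit 0) .nil) .nil))) 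
(.lf (nat_lit 539344) (.g (nat_lit 2004) (.e (nat_lit 73782) (nat_lit 32) (.e (nat_lit 3089) (nat_lit 191) (.e (nat_lit 483383) (nat_lit 23) (.e (nat_lit 336240) (nat_lit 15) (.e (nat_lit 3626) (nat_lit 227) (.e (nat_lit 778323) (nat_lit 5) .nil)))))) (.g (nat_lit 1) (.e (nat_lit 268209) (nat_lit 0) .nil) .nil)))) (.nd (nat_lit 9) 
(.lf (nat_lit 539088) (.g (nat_lit 2295) (.e (nat_lit 73775) (nat_lit 26) (.e (nat_lit 778466) (nat_lit 11) (.e (nat_lit 24628) (nat_lit 9) (.e (nat_lit 336421) (nat_lit 28) (.e (nat_lit 442112) (nat_lit 5) .nil))))) (.g (nat_lit 1) (.e (nat_lit 267773) (nat_lit 0) .nil) .nil))) 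
(.lf (nat_lit 539600) (.g (nat_lit 1096) (.e (nat_lit 81938) (nat_lit 20) (.e (nat_lit 2390) (nat_lit 156) (.e (nat_lit 819221) (nat_lit 6) (.e (nat_lit 188427) (nat_lit 20) (.e (nat_lit 3281) (nat_lit 200) (.e (nat_lit 564992) (nat_lit 6) .nil)))))) (.g (nat_lit 1) (.e (nat_lit 269034) (nat_lit 0) .nil) .nil))))))) (.nd (nat_lit 6) (.nd (nat_lit 7) (.nd (nat_lit 8) (.nd (nat_lit 9) 
(.lf (nat_lit 538672) (.g (nat_lit 2666) (.e (nat_lit 73753) (nat_lit 8) (.e (nat_lit 557105) (nat_lit 14) (.e (nat_lit 180252) (nat_lit 10) (.e (nat_lit 573476) (nat_lit 12) .nil)))) (.g (nat_lit 0) (.e (nat_lit 266630) (nat_lit 0) .nil) .nil))) 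
(.lf (nat_lit 539184) (.g (nat_lit 3386) (.e (nat_lit 73781) (nat_lit 32) (.e (nat_lit 2857) (nat_lit 184) (.e (nat_lit 426542) (nat_lit 29) (.e (nat_lit 352267) (nat_lit 0) (.e (nat_lit 3632) (nat_lit 227) (.e (nat_lit 778324) (nat_lit 5) .nil)))))) (.g (nat_lit 1) (.e (nat_lit 267999) (nat_lit 0) .nil) .nil)))) (.nd (nat_lit 9) 
(.lf (nat_lit 538928) (.g (nat_lit 2131) (.e (nat_lit 73755) (nat_lit 8) (.e (nat_lit 557105) (nat_lit 14) (.e (nat_lit 180252) (nat_lit 10) (.e (nat_lit 573474) (nat_lit 12) (.e (nat_lit 57500) (nat_lit 37) .nil))))) (.g (nat_lit 0) (.e (nat_lit 267324) (nat_lit 0) .nil) .nil))) 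
(.lf (nat_lit 539440) (.g (nat_lit 1469) (.e (nat_lit 81922) (nat_lit 0) (.e (nat_lit 3305) (nat_lit 202) (.e (nat_lit 573489) (nat_lit 14) (.e (nat_lit 73780) (nat_lit 32) .nil)))) (.g (nat_lit 0) (.e (nat_lit 268494) (nat_lit 0) .nil) .nil))))) (.nd (nat_lit 8) (.nd (nat_lit 9) 
(.lf (nat_lit 538800) (.g (nat_lit 3713) (.e (nat_lit 73755) (nat_lit 8) (.e (nat_lit 557067) (nat_lit 9) (.e (nat_lit 2604) (nat_lit 163) (.e (nat_lit 164398) (nat_lit 256) (.e (nat_lit 57378) (nat_lit 3) (.e (nat_lit 98368) (nat_lit 27) (.e (nat_lit 434245) (nat_lit 28) (.e (nat_lit 573488) (nat_lit 14) .nil)))))))) (.g (nat_lit 1) (.e (nat_lit 266785) (nat_lit 0) .nil) .nil))) 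
(.lf (nat_lit 539312) (.g (nat_lit 3581) (.e (nat_lit 73782) (nat_lit 32) (.e (nat_lit 2856) (nat_lit 184) (.e (nat_lit 426542) (nat_lit 29) (.e (nat_lit 352316) (nat_lit 24) (.e (nat_lit 123182) (nat_lit 264) (.e (nat_lit 1212) (nat_lit 89) .nil)))))) (.g (nat_lit 1) (.e (nat_lit 268177) (nat_lit 0) .nil) .nil)))) (.nd (nat_lit 9) 
(.lf (nat_lit 539056) (.g (nat_lit 2199) (.e (nat_lit 73775) (nat_lit 26) (.e (nat_lit 778465) (nat_lit 11) (.e (nat_lit 24625) (nat_lit 9) (.e (nat_lit 336438) (nat_lit 31) (.e (nat_lit 466688) (nat_lit 5) .nil))))) (.g (nat_lit 1) (.e (nat_lit 267720) (nat_lit 0) .nil) .nil))) 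
(.lf (nat_lit 539568) (.g (nat_lit 920) (.e (nat_lit 81938) (nat_lit 20) (.e (nat_lit 1886) (nat_lit 127) (.e (nat_lit 581652) (nat_lit 5) (.e (nat_lit 180284) (nat_lit 45) (.e (nat_lit 2579) (nat_lit 161) (.e (nat_lit 48896) (nat_lit 6) .nil)))))) (.g (nat_lit 1) (.e (nat_lit 268999) (nat_lit 0) .nil) .nil)))))) (.nd (nat_lit 7) (.nd (nat_lit 8) (.nd (nat_lit 9) 
(.lf (nat_lit 538736) (.g (nat_lit 1649) (.e (nat_lit 73754) (nat_lit 8) (.e (nat_lit 557105) (nat_lit 14) (.e (nat_lit 180252) (nat_lit 10) (.e (nat_lit 573452) (nat_lit 9) .nil)))) (.g (nat_lit 0) (.e (nat_lit 266718) (nat_lit 0) .nil) .nil))) 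
(.lf (nat_lit 539248) (.g (nat_lit 2918) (.e (nat_lit 73781) (nat_lit 32) (.e (nat_lit 3090) (nat_lit 191) (.e (nat_lit 483394) (nat_lit 24) (.e (nat_lit 344097) (nat_lit 18) (.e (nat_lit 5906) (nat_lit 320) (.e (nat_lit 1211) (nat_lit 89) .nil)))))) (.g (nat_lit 1) (.e (nat_lit 268064) (nat_lit 0) .nil) .nil)))) (.nd (nat_lit 9) 
(.lf (nat_lit 538992) (.g (nat_lit 2672) (.e (nat_lit 73755) (nat_lit 8) (.e (nat_lit 557119) (nat_lit 18) (.e (nat_lit 2798) (nat_lit 180) (.e (nat_lit 303133) (nat_lit 9) (.e (nat_lit 426499) (nat_lit 27) (.e (nat_lit 336291) (nat_lit 15) (.e (nat_lit 7936) (nat_lit 407) .nil))))))) (.g (nat_lit 1) (.e (nat_lit 267405) (nat_lit 0) .nil) .nil))) 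
(.lf (nat_lit 539504) (.g (nat_lit 2249) (.e (nat_lit 89856) (nat_lit 0) (.e (nat_lit 3304) (nat_lit 202) (.e (nat_lit 573484) (nat_lit 13) (.e (nat_lit 65624) (nat_lit 12) (.e (nat_lit 385074) (nat_lit 31) .nil))))) (.g (nat_lit 0) (.e (nat_lit 268731) (nat_lit 0) .nil) .nil))))) (.nd (nat_lit 8) (.nd (nat_lit 9) 
(.lf (nat_lit 538864) (.g (nat_lit 4426) (.e (nat_lit 73755) (nat_lit 8) (.e (nat_lit 557104) (nat_lit 14) (.e (nat_lit 180250) (nat_lit 10) (.e (nat_lit 573473) (nat_lit 12) (.e (nat_lit 57503) (nat_lit 38) (.e (nat_lit 638995) (nat_lit 7) (.e (nat_lit 163979) (nat_lit 30) (.e (nat_lit 573489) (nat_lit 14) .nil)))))))) (.g (nat_lit 1) (.e (nat_lit 267021) (nat_lit 0) .nil) .nil))) 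
(.lf (nat_lit 539376) (.g (nat_lit 1351) (.e (nat_lit 81664) (nat_lit 32) (.e (nat_lit 2668) (nat_lit 167) (.e (nat_lit 196664) (nat_lit 13) (.e (nat_lit 65630) (nat_lit 14) (.e (nat_lit 401425) (nat_lit 2) .nil))))) (.g (nat_lit 0) (.e (nat_lit 268258) (nat_lit 0) .nil) .nil)))) (.nd (nat_lit 9) 
(.lf (nat_lit 539120) (.g (nat_lit 2563) (.e (nat_lit 73776) (nat_lit 26) (.e (nat_lit 778465) (nat_lit 11) (.e (nat_lit 24623) (nat_lit 9) (.e (nat_lit 336412) (nat_lit 27) (.e (nat_lit 426011) (nat_lit 0) .nil))))) (.g (nat_lit 0) (.e (nat_lit 267813) (nat_lit 0) .nil) .nil))) 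
(.lf (nat_lit 539632) (.g (nat_lit 1641) (.e (nat_lit 81938) (nat_lit 20) (.e (nat_lit 2391) (nat_lit 156) (.e (nat_lit 819221) (nat_lit 6) (.e (nat_lit 188431) (nat_lit 20) (.e (nat_lit 3281) (nat_lit 200) (.e (nat_lit 564992) (nat_lit 6) .nil)))))) (.g (nat_lit 1) (.e (nat_lit 269068) (nat_lit 0) .nil) .nil))))))))) 
(.nd (nat_lit 4) (.nd (nat_lit 5) (.nd (nat_lit 6) (.nd (nat_lit 7) (.nd (nat_lit 8) 
(.nd (nat_lit 9) 
(.lf (nat_lit 538632) (.g (nat_lit 2905) (.e (nat_lit 73753) (nat_lit 8) (.e (nat_lit 557105) (nat_lit 14) (.e (nat_lit 180251) (nat_lit 10) (.e (nat_lit 573473) (nat_lit 12) (.e (nat_lit 57503) (nat_lit 38) (.e (nat_lit 638995) (nat_lit 7) (.e (nat_lit 163978) (nat_lit 30) (.e (nat_lit 573487) (nat_lit 14) .nil)))))))) (.g (nat_lit 1) (.e (nat_lit 266579) (nat_lit 0) .nil) .nil))) 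
(.lf (nat_lit 539144) (.g (nat_lit 2708) (.e (nat_lit 73781) (nat_lit 32) (.e (nat_lit 2663) (nat_lit 167) (.e (nat_lit 196666) (nat_lit 13) (.e (nat_lit 65617) (nat_lit 10) (.e (nat_lit 344126) (nat_lit 25) (.e (nat_lit 548890) (nat_lit 10) .nil)))))) (.g (nat_lit 1) (.e (nat_lit 267926) (nat_lit 0) .nil) .nil)))) (.nd (nat_lit 9) 
(.lf (nat_lit 538888) (.g (nat_lit 3034) (.e (nat_lit 73755) (nat_lit 8) (.e (nat_lit 557104) (nat_lit 14) (.e (nat_lit 180252) (nat_lit 10) (.e (nat_lit 573475) (nat_lit 12) (.e (nat_lit 57501) (nat_lit 37) (.e (nat_lit 630799) (nat_lit 7) (.e (nat_lit 163976) (nat_lit 30) (.e (nat_lit 573488) (nat_lit 14) .nil)))))))) (.g (nat_lit 1) (.e (nat_lit 267050) (nat_lit 0) .nil) .nil))) 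
(.lf (nat_lit 539400) (.g (nat_lit 2063) (.e (nat_lit 73785) (nat_lit 40) (.e (nat_lit 1252) (nat_lit 92) (.e (nat_lit 98349) (nat_lit 24) (.e (nat_lit 409645) (nat_lit 18) (.e (nat_lit 303117) (nat_lit 2) .nil))))) (.g (nat_lit 0) (.e (nat_lit 268374) (nat_lit 0) .nil) .nil))))) (.nd (nat_lit 8) (.nd (nat_lit 9) 
(.lf (nat_lit 538760) (.g (nat_lit 3948) (.e (nat_lit 73754) (nat_lit 8) (.e (nat_lit 557105) (nat_lit 14) (.e (nat_lit 180252) (nat_lit 10) (.e (nat_lit 573474) (nat_lit 12) (.e (nat_lit 57511) (nat_lit 39) (.e (nat_lit 655104) (nat_lit 0) (.e (nat_lit 2667) (nat_lit 167) (.e (nat_lit 196670) (nat_lit 14) .nil)))))))) (.g (nat_lit 1) (.e (nat_lit 266743) (nat_lit 0) .nil) .nil))) 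
(.lf (nat_lit 539272) (.g (nat_lit 1444) (.e (nat_lit 73781) (nat_lit 32) (.e (nat_lit 3090) (nat_lit 191) (.e (nat_lit 483403) (nat_lit 26) (.e (nat_lit 385100) (nat_lit 49) .nil)))) (.g (nat_lit 0) (.e (nat_lit 268088) (nat_lit 0) .nil) .nil)))) (.nd (nat_lit 9) 
(.lf (nat_lit 539016) (.g (nat_lit 1743) (.e (nat_lit 73773) (nat_lit 25) (.e (nat_lit 770072) (nat_lit 8) (.e (nat_lit 65571) (nat_lit 3) (.e (nat_lit 98342) (nat_lit 20) .nil)))) (.g (nat_lit 0) (.e (nat_lit 267646) (nat_lit 0) .nil) .nil))) 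
(.lf (nat_lit 539528) (.g (nat_lit 962) (.e (nat_lit 81926) (nat_lit 11) (.e (nat_lit 426108) (nat_lit 1) (.e (nat_lit 164183) (nat_lit 154) .nil))) (.g (nat_lit 0) (.e (nat_lit 268851) (nat_lit 0) .nil) .nil)))))) (.nd (nat_lit 7) (.nd (nat_lit 8) (.nd (nat_lit 9) 
(.lf (nat_lit 538696) (.g (nat_lit 3222) (.e (nat_lit 73753) (nat_lit 8) (.e (nat_lit 557119) (nat_lit 18) (.e (nat_lit 2798) (nat_lit 180) (.e (nat_lit 303133) (nat_lit 9) (.e (nat_lit 426499) (nat_lit 27) (.e (nat_lit 336293) (nat_lit 15) (.e (nat_lit 7936) (nat_lit 407) .nil))))))) (.g (nat_lit 1) (.e (nat_lit 266656) (nat_lit 0) .nil) .nil))) 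
(.lf (nat_lit 539208) (.g (nat_lit 1950) (.e (nat_lit 73781) (nat_lit 32) (.e (nat_lit 3089) (nat_lit 191) (.e (nat_lit 483383) (nat_lit 23) (.e (nat_lit 336330) (nat_lit 19) (.e (nat_lit 220928) (nat_lit 5) .nil))))) (.g (nat_lit 1) (.e (nat_lit 268024) (nat_lit 0) .nil) .nil)))) (.nd (nat_lit 9) 
(.lf (nat_lit 538952) (.g (nat_lit 2813) (.e (nat_lit 73755) (nat_lit 8) (.e (nat_lit 557105) (nat_lit 14) (.e (nat_lit 180252) (nat_lit 10) (.e (nat_lit 573474) (nat_lit 12) (.e (nat_lit 57510) (nat_lit 39) (.e (nat_lit 647173) (nat_lit 0) (.e (nat_lit 2663) (nat_lit 167) (.e (nat_lit 196669) (nat_lit 14) .nil)))))))) (.g (nat_lit 1) (.e (nat_lit 267351) (nat_lit 0) .nil) .nil))) 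
(.lf (nat_lit 539464) (.g (nat_lit 1432) (.e (nat_lit 81923) (nat_lit 0) (.e (nat_lit 3305) (nat_lit 202) (.e (nat_lit 573484) (nat_lit 13) (.e (nat_lit 65624) (nat_lit 12) .nil)))) (.g (nat_lit 0) (.e (nat_lit 268559) (nat_lit 0) .nil) .nil))))) (.nd (nat_lit 8) (.nd (nat_lit 9) 
(.lf (nat_lit 538824) (.g (nat_lit 1682) (.e (nat_lit 73755) (nat_lit 8) (.e (nat_lit 557097) (nat_lit 13) (.e (nat_lit 172067) (nat_lit 3) (.e (nat_lit 204818) (nat_lit 17) .nil)))) (.g (nat_lit 0) (.e (nat_lit 266840) (nat_lit 0) .nil) .nil))) 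
(.lf (nat_lit 539336) (.g (nat_lit 1957) (.e (nat_lit 73782) (nat_lit 32) (.e (nat_lit 3088) (nat_lit 191) (.e (nat_lit 483382) (nat_lit 23) (.e (nat_lit 336332) (nat_lit 19) (.e (nat_lit 220928) (nat_lit 5) .nil))))) (.g (nat_lit 1) (.e (nat_lit 268201) (nat_lit 0) .nil) .nil)))) (.nd (nat_lit 9) 
(.lf (nat_lit 539080) (.g (nat_lit 2001) (.e (nat_lit 73775) (nat_lit 26) (.e (nat_lit 778466) (nat_lit 11) (.e (nat_lit 24625) (nat_lit 9) (.e (nat_lit 336367) (nat_lit 27) (.e (nat_lit 425986) (nat_lit 0) (.e (nat_lit 7936) (nat_lit 407) .nil)))))) (.g (nat_lit 1) (.e (nat_lit 267763) (nat_lit 0) .nil) .nil))) 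
(.lf (nat_lit 539592) (.g (nat_lit 1578) (.e (nat_lit 81938) (nat_lit 20) (.e (nat_lit 2390) (nat_lit 156) (.e (nat_lit 819204) (nat_lit 0) (.e (nat_lit 3015) (nat_lit 187) (.e (nat_lit 458496) (nat_lit 8) (.e (nat_lit 564992) (nat_lit 6) .nil)))))) (.g (nat_lit 1) (.e (nat_lit 269026) (nat_lit 0) .nil) .nil))))))) (.nd (nat_lit 6) (.nd (nat_lit 7) (.nd (nat_lit 8) (.nd (nat_lit 9) 
(.lf (nat_lit 538664) (.g (nat_lit 3384) (.e (nat_lit 73753) (nat_lit 8) (.e (nat_lit 557105) (nat_lit 14) (.e (nat_lit 180252) (nat_lit 10) (.e (nat_lit 573474) (nat_lit 12) (.e (nat_lit 57510) (nat_lit 39) (.e (nat_lit 655104) (nat_lit 0) (.e (nat_lit 2667) (nat_lit 167) (.e (nat_lit 196670) (nat_lit 14) .nil)))))))) (.g (nat_lit 1) (.e (nat_lit 266617) (nat_lit 0) .nil) .nil))) 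
(.lf (nat_lit 539176) (.g (nat_lit 3467) (.e (nat_lit 73781) (nat_lit 32) (.e (nat_lit 2857) (nat_lit 184) (.e (nat_lit 426482) (nat_lit 27) (.e (nat_lit 336205) (nat_lit 12) (.e (nat_lit 385093) (nat_lit 49) (.e (nat_lit 778323) (nat_lit 5) .nil)))))) (.g (nat_lit 1) (.e (nat_lit 267991) (nat_lit 0) .nil) .nil)))) (.nd (nat_lit 9) 
(.lf (nat_lit 538920) (.g (nat_lit 5469) (.e (nat_lit 73755) (nat_lit 8) (.e (nat_lit 557105) (nat_lit 14) (.e (nat_lit 180252) (nat_lit 10) (.e (nat_lit 573473) (nat_lit 12) (.e (nat_lit 57503) (nat_lit 38) (.e (nat_lit 638996) (nat_lit 7) (.e (nat_lit 163978) (nat_lit 30) (.e (nat_lit 573489) (nat_lit 14) .nil)))))))) (.g (nat_lit 1) (.e (nat_lit 267259) (nat_lit 0) .nil) .nil))) 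
(.lf (nat_lit 539432) (.g (nat_lit 1330) (.e (nat_lit 81921) (nat_lit 0) (.e (nat_lit 3715) (nat_lit 227) (.e (nat_lit 778325) (nat_lit 6) (.e (nat_lit 81922) (nat_lit 0) (.e (nat_lit 3631) (nat_lit 227) (.e (nat_lit 778326) (nat_lit 6) .nil)))))) (.g (nat_lit 1) (.e (nat_lit 268453) (nat_lit 0) .nil) .nil))))) (.nd (nat_lit 8) (.nd (nat_lit 9) 
(.lf (nat_lit 538792) (.g (nat_lit 558) (.e (nat_lit 73754) (nat_lit 8) (.e (nat_lit 557119) (nat_lit 18) (.e (nat_lit 2798) (nat_lit 180) .nil))) (.g (nat_lit 0) (.e (nat_lit 266776) (nat_lit 0) .nil) .nil))) 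
(.lf (nat_lit 539304) (.g (nat_lit 1701) (.e (nat_lit 73782) (nat_lit 32) (.e (nat_lit 2856) (nat_lit 184) (.e (nat_lit 426542) (nat_lit 29) (.e (nat_lit 352291) (nat_lit 20) .nil)))) (.g (nat_lit 0) (.e (nat_lit 268169) (nat_lit 0) .nil) .nil)))) (.nd (nat_lit 9) 
(.lf (nat_lit 539048) (.g (nat_lit 2176) (.e (nat_lit 73775) (nat_lit 26) (.e (nat_lit 778465) (nat_lit 11) (.e (nat_lit 24623) (nat_lit 9) (.e (nat_lit 336436) (nat_lit 31) (.e (nat_lit 466688) (nat_lit 5) .nil))))) (.g (nat_lit 1) (.e (nat_lit 267712) (nat_lit 0) .nil) .nil))) 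
(.lf (nat_lit 539560) (.g (nat_lit 1890) (.e (nat_lit 81938) (nat_lit 20) (.e (nat_lit 1781) (nat_lit 119) (.e (nat_lit 516139) (nat_lit 7) (.e (nat_lit 409646) (nat_lit 18) (.e (nat_lit 303117) (nat_lit 2) .nil))))) (.g (nat_lit 0) (.e (nat_lit 268974) (nat_lit 0) .nil) .nil)))))) (.nd (nat_lit 7) (.nd (nat_lit 8) (.nd (nat_lit 9) 
(.lf (nat_lit 538728) (.g (nat_lit 893) (.e (nat_lit 73754) (nat_lit 8) (.e (nat_lit 557105) (nat_lit 14) (.e (nat_lit 180251) (nat_lit 10) (.e (nat_lit 573478) (nat_lit 12) .nil)))) (.g (nat_lit 0) (.e (nat_lit 266706) (nat_lit 0) .nil) .nil))) 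
(.lf (nat_lit 539240) (.g (nat_lit 1615) (.e (nat_lit 73781) (nat_lit 32) (.e (nat_lit 3090) (nat_lit 191) (.e (nat_lit 483391) (nat_lit 23) (.e (nat_lit 336331) (nat_lit 19) (.e (nat_lit 220928) (nat_lit 5) .nil))))) (.g (nat_lit 1) (.e (nat_lit 268056) (nat_lit 0) .nil) .nil)))) (.nd (nat_lit 9) 
(.lf (nat_lit 538984) (.g (nat_lit 2516) (.e (nat_lit 73755) (nat_lit 8) (.e (nat_lit 557119) (nat_lit 18) (.e (nat_lit 2798) (nat_lit 180) (.e (nat_lit 303127) (nat_lit 9) (.e (nat_lit 426558) (nat_lit 33) (.e (nat_lit 392960) (nat_lit 5) .nil)))))) (.g (nat_lit 1) (.e (nat_lit 267397) (nat_lit 0) .nil) .nil))) 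
(.lf (nat_lit 539496) (.g (nat_lit 311) (.e (nat_lit 81924) (nat_lit 0) (.e (nat_lit 3748) (nat_lit 228) (.e (nat_lit 786483) (nat_lit 30) .nil))) (.g (nat_lit 0) (.e (nat_lit 268657) (nat_lit 0) .nil) .nil))))) (.nd (nat_lit 8) (.nd (nat_lit 9) 
(.lf (nat_lit 538856) (.g (nat_lit 2966) (.e (nat_lit 73755) (nat_lit 8) (.e (nat_lit 557104) (nat_lit 14) (.e (nat_lit 180244) (nat_lit 5) (.e (nat_lit 532499) (nat_lit 1) (.e (nat_lit 57652) (nat_lit 152) (.e (nat_lit 2606) (nat_lit 163) (.e (nat_lit 163979) (nat_lit 30) (.e (nat_lit 573489) (nat_lit 14) .nil)))))))) (.g (nat_lit 1) (.e (nat_lit 266926) (nat_lit 0) .nil) .nil))) 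
(.lf (nat_lit 539368) (.g (nat_lit 2361) (.e (nat_lit 73782) (nat_lit 32) (.e (nat_lit 3090) (nat_lit 191) (.e (nat_lit 483403) (nat_lit 26) (.e (nat_lit 385096) (nat_lit 49) (.e (nat_lit 786176) (nat_lit 5) .nil))))) (.g (nat_lit 1) (.e (nat_lit 268233) (nat_lit 0) .nil) .nil)))) (.nd (nat_lit 9) 
(.lf (nat_lit 539112) (.g (nat_lit 1445) (.e (nat_lit 73775) (nat_lit 26) (.e (nat_lit 778466) (nat_lit 11) (.e (nat_lit 24655) (nat_lit 13) (.e (nat_lit 393247) (nat_lit 17) .nil)))) (.g (nat_lit 0) (.e (nat_lit 267802) (nat_lit 0) .nil) .nil))) 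
(.lf (nat_lit 539624) (.g (nat_lit 1500) (.e (nat_lit 81938) (nat_lit 20) (.e (nat_lit 2391) (nat_lit 156) (.e (nat_lit 819221) (nat_lit 6) (.e (nat_lit 188427) (nat_lit 20) (.e (nat_lit 3277) (nat_lit 200) (.e (nat_lit 564992) (nat_lit 6) .nil)))))) (.g (nat_lit 1) (.e (nat_lit 269060) (nat_lit 0) .nil) .nil)))))))) 
(.nd (nat_lit 5) (.nd (nat_lit 6) (.nd (nat_lit 7) (.nd (nat_lit 8) (.nd (nat_lit 9) 
(.lf (nat_lit 538648) (.g (nat_lit 2498) (.e (nat_lit 73753) (nat_lit 8) (.e (nat_lit 557105) (nat_lit 14) (.e (nat_lit 180252) (nat_lit 10) (.e (nat_lit 573474) (nat_lit 12) (.e (nat_lit 57347) (nat_lit 0) .nil))))) (.g (nat_lit 0) (.e (nat_lit 266600) (nat_lit 0) .nil) .nil))) 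
(.lf (nat_lit 539160) (.g (nat_lit 1507) (.e (nat_lit 73781) (nat_lit 32) (.e (nat_lit 2854) (nat_lit 184) (.e (nat_lit 426542) (nat_lit 29) (.e (nat_lit 352290) (nat_lit 20) (.e (nat_lit 2005) (nat_lit 138) (.e (nat_lit 671763) (nat_lit 5) .nil)))))) (.g (nat_lit 1) (.e (nat_lit 267975) (nat_lit 0) .nil) .nil)))) (.nd (nat_lit 9) 
(.lf (nat_lit 538904) (.g (nat_lit 2850) (.e (nat_lit 73755) (nat_lit 8) (.e (nat_lit 557105) (nat_lit 14) (.e (nat_lit 180251) (nat_lit 10) (.e (nat_lit 573475) (nat_lit 12) (.e (nat_lit 57503) (nat_lit 38) (.e (nat_lit 638994) (nat_lit 7) (.e (nat_lit 163976) (nat_lit 30) (.e (nat_lit 573488) (nat_lit 14) .nil)))))))) (.g (nat_lit 1) (.e (nat_lit 267142) (nat_lit 0) .nil) .nil))) 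
(.lf (nat_lit 539416) (.g (nat_lit 483) (.e (nat_lit 73791) (nat_lit 45) (.e (nat_lit 1162) (nat_lit 86) (.e (nat_lit 49156) (nat_lit 0) (.e (nat_lit 2984) (nat_lit 186) (.e (nat_lit 450304) (nat_lit 2) (.e (nat_lit 98048) (nat_lit 5) .nil)))))) (.g (nat_lit 1) (.e (nat_lit 268429) (nat_lit 0) .nil) .nil))))) (.nd (nat_lit 8) (.nd (nat_lit 9) 
(.lf (nat_lit 538776) (.g (nat_lit 2843) (.e (nat_lit 73754) (nat_lit 8) (.e (nat_lit 557105) (nat_lit 14) (.e (nat_lit 180252) (nat_lit 10) (.e (nat_lit 573475) (nat_lit 12) (.e (nat_lit 57508) (nat_lit 39) (.e (nat_lit 647176) (nat_lit 0) (.e (nat_lit 2663) (nat_lit 167) (.e (nat_lit 196667) (nat_lit 14) .nil)))))))) (.g (nat_lit 1) (.e (nat_lit 266760) (nat_lit 0) .nil) .nil))) 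
(.lf (nat_lit 539288) (.g (nat_lit 1607) (.e (nat_lit 73782) (nat_lit 32) (.e (nat_lit 2682) (nat_lit 168) (.e (nat_lit 204863) (nat_lit 27) (.e (nat_lit 344065) (nat_lit 0) .nil)))) (.g (nat_lit 0) (.e (nat_lit 268149) (nat_lit 0) .nil) .nil)))) (.nd (nat_lit 9) 
(.lf (nat_lit 539032) (.g (nat_lit 1812) (.e (nat_lit 73775) (nat_lit 26) (.e (nat_lit 778464) (nat_lit 11) (.e (nat_lit 24630) (nat_lit 9) (.e (nat_lit 336421) (nat_lit 28) (.e (nat_lit 442112) (nat_lit 5) .nil))))) (.g (nat_lit 1) (.e (nat_lit 267690) (nat_lit 0) .nil) .nil))) 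
(.lf (nat_lit 539544) (.g (nat_lit 1406) (.e (nat_lit 81928) (nat_lit 20) (.e (nat_lit 2281) (nat_lit 150) (.e (nat_lit 770072) (nat_lit 8) (.e (nat_lit 65610) (nat_lit 10) .nil)))) (.g (nat_lit 0) (.e (nat_lit 268912) (nat_lit 0) .nil) .nil)))))) (.nd (nat_lit 7) (.nd (nat_lit 8) (.nd (nat_lit 9) 
(.lf (nat_lit 538712) (.g (nat_lit 2046) (.e (nat_lit 73754) (nat_lit 8) (.e (nat_lit 557086) (nat_lit 11) (.e (nat_lit 24646) (nat_lit 11) (.e (nat_lit 368676) (nat_lit 21) (.e (nat_lit 516098) (nat_lit 0) (.e (nat_lit 7593) (nat_lit 407) .nil)))))) (.g (nat_lit 1) (.e (nat_lit 266673) (nat_lit 0) .nil) .nil))) 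
(.lf (nat_lit 539224) (.g (nat_lit 2891) (.e (nat_lit 73781) (nat_lit 32) (.e (nat_lit 3090) (nat_lit 191) (.e (nat_lit 483380) (nat_lit 23) (.e (nat_lit 336240) (nat_lit 15) (.e (nat_lit 3637) (nat_lit 227) (.e (nat_lit 778324) (nat_lit 5) .nil)))))) (.g (nat_lit 1) (.e (nat_lit 268040) (nat_lit 0) .nil) .nil)))) (.nd (nat_lit 9) 
(.lf (nat_lit 538968) (.g (nat_lit 3003) (.e (nat_lit 73755) (nat_lit 8) (.e (nat_lit 557105) (nat_lit 14) (.e (nat_lit 180252) (nat_lit 10) (.e (nat_lit 573477) (nat_lit 12) (.e (nat_lit 57502) (nat_lit 38) (.e (nat_lit 638995) (nat_lit 7) (.e (nat_lit 163978) (nat_lit 30) (.e (nat_lit 573489) (nat_lit 14) .nil)))))))) (.g (nat_lit 1) (.e (nat_lit 267371) (nat_lit 0) .nil) .nil))) 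
(.lf (nat_lit 539480) (.g (nat_lit 1587) (.e (nat_lit 81924) (nat_lit 0) (.e (nat_lit 3631) (nat_lit 227) (.e (nat_lit 778326) (nat_lit 6) (.e (nat_lit 81943) (nat_lit 20) (.e (nat_lit 2006) (nat_lit 138) (.e (nat_lit 671764) (nat_lit 6) .nil)))))) (.g (nat_lit 1) (.e (nat_lit 268632) (nat_lit 0) .nil) .nil))))) (.nd (nat_lit 8) (.nd (nat_lit 9) 
(.lf (nat_lit 538840) (.g (nat_lit 1234) (.e (nat_lit 73755) (nat_lit 8) (.e (nat_lit 557103) (nat_lit 14) (.e (nat_lit 180244) (nat_lit 5) (.e (nat_lit 532503) (nat_lit 1) .nil)))) (.g (nat_lit 0) (.e (nat_lit 266900) (nat_lit 0) .nil) .nil))) 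
(.lf (nat_lit 539352) (.g (nat_lit 2009) (.e (nat_lit 73782) (nat_lit 32) (.e (nat_lit 3089) (nat_lit 191) (.e (nat_lit 483406) (nat_lit 26) (.e (nat_lit 385096) (nat_lit 49) (.e (nat_lit 786176) (nat_lit 5) .nil))))) (.g (nat_lit 1) (.e (nat_lit 268217) (nat_lit 0) .nil) .nil)))) (.nd (nat_lit 9) 
(.lf (nat_lit 539096) (.g (nat_lit 1902) (.e (nat_lit 73775) (nat_lit 26) (.e (nat_lit 778466) (nat_lit 11) (.e (nat_lit 24632) (nat_lit 9) (.e (nat_lit 336386) (nat_lit 27) (.e (nat_lit 426052) (nat_lit 0) (.e (nat_lit 7936) (nat_lit 407) .nil)))))) (.g (nat_lit 1) (.e (nat_lit 267781) (nat_lit 0) .nil) .nil))) 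
(.lf (nat_lit 539608) (.g (nat_lit 1593) (.e (nat_lit 81938) (nat_lit 20) (.e (nat_lit 2391) (nat_lit 156) (.e (nat_lit 819203) (nat_lit 0) (.e (nat_lit 3016) (nat_lit 187) (.e (nat_lit 458496) (nat_lit 8) (.e (nat_lit 564992) (nat_lit 6) .nil)))))) (.g (nat_lit 1) (.e (nat_lit 269043) (nat_lit 0) .nil) .nil))))))) (.nd (nat_lit 6) (.nd (nat_lit 7) (.nd (nat_lit 8) (.nd (nat_lit 9) 
(.lf (nat_lit 538680) (.g (nat_lit 2753) (.e (nat_lit 73753) (nat_lit 8) (.e (nat_lit 557119) (nat_lit 18) (.e (nat_lit 2797) (nat_lit 180) (.e (nat_lit 303145) (nat_lit 13) (.e (nat_lit 483332) (nat_lit 0) (.e (nat_lit 7936) (nat_lit 407) .nil)))))) (.g (nat_lit 1) (.e (nat_lit 266638) (nat_lit 0) .nil) .nil))) 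
(.lf (nat_lit 539192) (.g (nat_lit 2136) (.e (nat_lit 73781) (nat_lit 32) (.e (nat_lit 3088) (nat_lit 191) (.e (nat_lit 483383) (nat_lit 23) (.e (nat_lit 336332) (nat_lit 19) (.e (nat_lit 220928) (nat_lit 5) .nil))))) (.g (nat_lit 1) (.e (nat_lit 268008) (nat_lit 0) .nil) .nil)))) (.nd (nat_lit 9) 
(.lf (nat_lit 538936) (.g (nat_lit 2508) (.e (nat_lit 73755) (nat_lit 8) (.e (nat_lit 557105) (nat_lit 14) (.e (nat_lit 180252) (nat_lit 10) (.e (nat_lit 573474) (nat_lit 12) (.e (nat_lit 57502) (nat_lit 38) (.e (nat_lit 638994) (nat_lit 7) (.e (nat_lit 163976) (nat_lit 30) (.e (nat_lit 573488) (nat_lit 14) .nil)))))))) (.g (nat_lit 1) (.e (nat_lit 267332) (nat_lit 0) .nil) .nil))) 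
(.lf (nat_lit 539448) (.g (nat_lit 1938) (.e (nat_lit 81922) (nat_lit 0) (.e (nat_lit 3632) (nat_lit 227) (.e (nat_lit 778327) (nat_lit 6) (.e (nat_lit 81922) (nat_lit 0) (.e (nat_lit 3631) (nat_lit 227) (.e (nat_lit 778327) (nat_lit 6) .nil)))))) (.g (nat_lit 1) (.e (nat_lit 268516) (nat_lit 0) .nil) .nil))))) (.nd (nat_lit 8) (.nd (nat_lit 9) 
(.lf (nat_lit 538808) (.g (nat_lit 1856) (.e (nat_lit 73755) (nat_lit 8) (.e (nat_lit 557087) (nat_lit 11) (.e (nat_lit 24641) (nat_lit 10) (.e (nat_lit 344107) (nat_lit 19) .nil)))) (.g (nat_lit 0) (.e (nat_lit 266805) (nat_lit 0) .nil) .nil))) 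
(.lf (nat_lit 539320) (.g (nat_lit 2088) (.e (nat_lit 73782) (nat_lit 32) (.e (nat_lit 2856) (nat_lit 184) (.e (nat_lit 426555) (nat_lit 32) (.e (nat_lit 376856) (nat_lit 21) .nil)))) (.g (nat_lit 0) (.e (nat_lit 268185) (nat_lit 0) .nil) .nil)))) (.nd (nat_lit 9) 
(.lf (nat_lit 539064) (.g (nat_lit 964) (.e (nat_lit 73775) (nat_lit 26) (.e (nat_lit 778465) (nat_lit 11) (.e (nat_lit 24633) (nat_lit 9) .nil))) (.g (nat_lit 0) (.e (nat_lit 267729) (nat_lit 0) .nil) .nil))) 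
(.lf (nat_lit 539576) (.g (nat_lit 1053) (.e (nat_lit 81938) (nat_lit 20) (.e (nat_lit 1886) (nat_lit 127) (.e (nat_lit 581652) (nat_lit 5) (.e (nat_lit 180288) (nat_lit 45) (.e (nat_lit 2579) (nat_lit 161) (.e (nat_lit 48896) (nat_lit 6) .nil)))))) (.g (nat_lit 1) (.e (nat_lit 269007) (nat_lit 0) .nil) .nil)))))) (.nd (nat_lit 7) (.nd (nat_lit 8) (.nd (nat_lit 9) 
(.lf (nat_lit 538744) (.g (nat_lit 2492) (.e (nat_lit 73754) (nat_lit 8) (.e (nat_lit 557105) (nat_lit 14) (.e (nat_lit 180252) (nat_lit 10) (.e (nat_lit 573473) (nat_lit 12) (.e (nat_lit 57507) (nat_lit 39) (.e (nat_lit 655104) (nat_lit 0) (.e (nat_lit 2656) (nat_lit 167) (.e (nat_lit 196667) (nat_lit 14) .nil)))))))) (.g (nat_lit 1) (.e (nat_lit 266727) (nat_lit 0) .nil) .nil))) 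
(.lf (nat_lit 539256) (.g (nat_lit 2838) (.e (nat_lit 73781) (nat_lit 32) (.e (nat_lit 3090) (nat_lit 191) (.e (nat_lit 483396) (nat_lit 24) (.e (nat_lit 344097) (nat_lit 18) (.e (nat_lit 5907) (nat_lit 320) (.e (nat_lit 1209) (nat_lit 89) .nil)))))) (.g (nat_lit 1) (.e (nat_lit 268072) (nat_lit 0) .nil) .nil)))) (.nd (nat_lit 9) 
(.lf (nat_lit 539000) (.g (nat_lit 2729) (.e (nat_lit 73755) (nat_lit 8) (.e (nat_lit 557119) (nat_lit 18) (.e (nat_lit 2798) (nat_lit 180) (.e (nat_lit 303145) (nat_lit 13) (.e (nat_lit 483335) (nat_lit 0) (.e (nat_lit 7936) (nat_lit 407) .nil)))))) (.g (nat_lit 1) (.e (nat_lit 267413) (nat_lit 0) .nil) .nil))) 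
(.lf (nat_lit 539512) (.g (nat_lit 1425) (.e (nat_lit 89856) (nat_lit 0) (.e (nat_lit 3605) (nat_lit 225) (.e (nat_lit 761905) (nat_lit 16) (.e (nat_lit 172106) (nat_lit 10) .nil)))) (.g (nat_lit 0) (.e (nat_lit 268799) (nat_lit 0) .nil) .nil))))) (.nd (nat_lit 8) (.nd (nat_lit 9) 
(.lf (nat_lit 538872) (.g (nat_lit 3920) (.e (nat_lit 73755) (nat_lit 8) (.e (nat_lit 557104) (nat_lit 14) (.e (nat_lit 180250) (nat_lit 10) (.e (nat_lit 573475) (nat_lit 12) (.e (nat_lit 57503) (nat_lit 38) (.e (nat_lit 638994) (nat_lit 7) (.e (nat_lit 163979) (nat_lit 30) (.e (nat_lit 573489) (nat_lit 14) .nil)))))))) (.g (nat_lit 1) (.e (nat_lit 267029) (nat_lit 0) .nil) .nil))) 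
(.lf (nat_lit 539384) (.g (nat_lit 557) (.e (nat_lit 81664) (nat_lit 32) (.e (nat_lit 2668) (nat_lit 167) (.e (nat_lit 196672) (nat_lit 15) .nil))) (.g (nat_lit 0) (.e (nat_lit 268276) (nat_lit 0) .nil) .nil)))) (.nd (nat_lit 9) 
(.lf (nat_lit 539128) (.g (nat_lit 1571) (.e (nat_lit 73776) (nat_lit 26) (.e (nat_lit 778465) (nat_lit 11) (.e (nat_lit 24658) (nat_lit 13) (.e (nat_lit 393237) (nat_lit 17) (.e (nat_lit 7936) (nat_lit 407) .nil))))) (.g (nat_lit 1) (.e (nat_lit 267824) (nat_lit 0) .nil) .nil))) 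
(.lf (nat_lit 539640) (.g (nat_lit 448) (.e (nat_lit 81939) (nat_lit 20) (.e (nat_lit 1886) (nat_lit 127) (.e (nat_lit 581652) (nat_lit 5) (.e (nat_lit 180287) (nat_lit 45) (.e (nat_lit 2580) (nat_lit 161) (.e (nat_lit 48896) (nat_lit 6) .nil)))))) (.g (nat_lit 1) (.e (nat_lit 269082) (nat_lit 0) .nil) .nil)))))))))) 
(.nd (nat_lit 3) (.nd (nat_lit 4) (.nd (nat_lit 5) (.nd (nat_lit 6) (.nd (nat_lit 7) 
(.nd (nat_lit 8) (.nd (nat_lit 9) 
(.lf (nat_lit 538628) (.g (nat_lit 760) (.e (nat_lit 73753) (nat_lit 8) (.e (nat_lit 557105) (nat_lit 14) (.e (nat_lit 180244) (nat_lit 5) .nil))) (.g (nat_lit 0) (.e (nat_lit 266575) (nat_lit 0) .nil) .nil))) 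
(.lf (nat_lit 539140) (.g (nat_lit 2105) (.e (nat_lit 73780) (nat_lit 32) (.e (nat_lit 2936) (nat_lit 184) (.e (nat_lit 426541) (nat_lit 29) (.e (nat_lit 352267) (nat_lit 0) (.e (nat_lit 3632) (nat_lit 227) (.e (nat_lit 778323) (nat_lit 5) .nil)))))) (.g (nat_lit 1) (.e (nat_lit 267917) (nat_lit 0) .nil) .nil)))) (.nd (nat_lit 9) 
(.lf (nat_lit 538884) (.g (nat_lit 3063) (.e (nat_lit 73755) (nat_lit 8) (.e (nat_lit 557104) (nat_lit 14) (.e (nat_lit 180252) (nat_lit 10) (.e (nat_lit 573474) (nat_lit 12) (.e (nat_lit 57502) (nat_lit 38) (.e (nat_lit 638995) (nat_lit 7) (.e (nat_lit 163979) (nat_lit 30) (.e (nat_lit 573489) (nat_lit 14) .nil)))))))) (.g (nat_lit 1) (.e (nat_lit 267046) (nat_lit 0) .nil) .nil))) 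
(.lf (nat_lit 539396) (.g (nat_lit 1705) (.e (nat_lit 81664) (nat_lit 35) (.e (nat_lit 163962) (nat_lit 25) (.e (nat_lit 532535) (nat_lit 9) (.e (nat_lit 336234) (nat_lit 14) (.e (nat_lit 401423) (nat_lit 2) .nil))))) (.g (nat_lit 0) (.e (nat_lit 268357) (nat_lit 0) .nil) .nil))))) (.nd (nat_lit 8) (.nd (nat_lit 9) 
(.lf (nat_lit 538756) (.g (nat_lit 3087) (.e (nat_lit 73754) (nat_lit 8) (.e (nat_lit 557105) (nat_lit 14) (.e (nat_lit 180252) (nat_lit 10) (.e (nat_lit 573474) (nat_lit 12) (.e (nat_lit 57503) (nat_lit 38) .nil))))) (.g (nat_lit 0) (.e (nat_lit 266739) (nat_lit 0) .nil) .nil))) 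
(.lf (nat_lit 539268) (.g (nat_lit 2324) (.e (nat_lit 73781) (nat_lit 32) (.e (nat_lit 3090) (nat_lit 191) (.e (nat_lit 483403) (nat_lit 26) (.e (nat_lit 385095) (nat_lit 49) .nil)))) (.g (nat_lit 0) (.e (nat_lit 268084) (nat_lit 0) .nil) .nil)))) (.nd (nat_lit 9) 
(.lf (nat_lit 539012) (.g (nat_lit 2186) (.e (nat_lit 73773) (nat_lit 25) (.e (nat_lit 770071) (nat_lit 8) (.e (nat_lit 65626) (nat_lit 13) (.e (nat_lit 393234) (nat_lit 17) (.e (nat_lit 7591) (nat_lit 407) .nil))))) (.g (nat_lit 1) (.e (nat_lit 267642) (nat_lit 0) .nil) .nil))) 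
(.lf (nat_lit 539524) (.g (nat_lit 635) (.e (nat_lit 81925) (nat_lit 11) (.e (nat_lit 426100) (nat_lit 1) (.e (nat_lit 164183) (nat_lit 154) .nil))) (.g (nat_lit 0) (.e (nat_lit 268836) (nat_lit 0) .nil) .nil)))))) (.nd (nat_lit 7) (.nd (nat_lit 8) (.nd (nat_lit 9) 
(.lf (nat_lit 538692) (.g (nat_lit 3119) (.e (nat_lit 73753) (nat_lit 8) (.e (nat_lit 557119) (nat_lit 18) (.e (nat_lit 2798) (nat_lit 180) (.e (nat_lit 303133) (nat_lit 9) (.e (nat_lit 426499) (nat_lit 27) (.e (nat_lit 336278) (nat_lit 15) (.e (nat_lit 7936) (nat_lit 407) .nil))))))) (.g (nat_lit 1) (.e (nat_lit 266652) (nat_lit 0) .nil) .nil))) 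
(.lf (nat_lit 539204) (.g (nat_lit 2186) (.e (nat_lit 73781) (nat_lit 32) (.e (nat_lit 3089) (nat_lit 191) (.e (nat_lit 483383) (nat_lit 23) (.e (nat_lit 336240) (nat_lit 15) (.e (nat_lit 3623) (nat_lit 227) (.e (nat_lit 778323) (nat_lit 5) .nil)))))) (.g (nat_lit 1) (.e (nat_lit 268020) (nat_lit 0) .nil) .nil)))) (.nd (nat_lit 9) 
(.lf (nat_lit 538948) (.g (nat_lit 2355) (.e (nat_lit 73755) (nat_lit 8) (.e (nat_lit 557105) (nat_lit 14) (.e (nat_lit 180252) (nat_lit 10) (.e (nat_lit 573474) (nat_lit 12) (.e (nat_lit 57508) (nat_lit 39) (.e (nat_lit 655104) (nat_lit 0) (.e (nat_lit 2661) (nat_lit 167) (.e (nat_lit 196669) (nat_lit 14) .nil)))))))) (.g (nat_lit 1) (.e (nat_lit 267344) (nat_lit 0) .nil) .nil))) 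
(.lf (nat_lit 539460) (.g (nat_lit 283) (.e (nat_lit 81922) (nat_lit 0) (.e (nat_lit 3748) (nat_lit 228) (.e (nat_lit 786480) (nat_lit 29) .nil))) (.g (nat_lit 0) (.e (nat_lit 268544) (nat_lit 0) .nil) .nil))))) (.nd (nat_lit 8) (.nd (nat_lit 9) 
(.lf (nat_lit 538820) (.g (nat_lit 2496) (.e (nat_lit 73755) (nat_lit 8) (.e (nat_lit 557096) (nat_lit 13) (.e (nat_lit 172067) (nat_lit 3) (.e (nat_lit 204816) (nat_lit 17) (.e (nat_lit 2273) (nat_lit 149) .nil))))) (.g (nat_lit 0) (.e (nat_lit 266825) (nat_lit 0) .nil) .nil))) 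
(.lf (nat_lit 539332) (.g (nat_lit 1857) (.e (nat_lit 73782) (nat_lit 32) (.e (nat_lit 2857) (nat_lit 184) (.e (nat_lit 426540) (nat_lit 29) (.e (nat_lit 352262) (nat_lit 0) (.e (nat_lit 3630) (nat_lit 227) (.e (nat_lit 778323) (nat_lit 5) .nil)))))) (.g (nat_lit 1) (.e (nat_lit 268197) (nat_lit 0) .nil) .nil)))) (.nd (nat_lit 9) 
(.lf (nat_lit 539076) (.g (nat_lit 1802) (.e (nat_lit 73775) (nat_lit 26) (.e (nat_lit 778466) (nat_lit 11) (.e (nat_lit 24623) (nat_lit 9) (.e (nat_lit 336438) (nat_lit 31) (.e (nat_lit 466688) (nat_lit 5) .nil))))) (.g (nat_lit 0) (.e (nat_lit 267758) (nat_lit 0) .nil) .nil))) 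
(.lf (nat_lit 539588) (.g (nat_lit 1322) (.e (nat_lit 81938) (nat_lit 20) (.e (nat_lit 2390) (nat_lit 156) (.e (nat_lit 819204) (nat_lit 0) (.e (nat_lit 2989) (nat_lit 186) (.e (nat_lit 450304) (nat_lit 2) (.e (nat_lit 98048) (nat_lit 6) .nil)))))) (.g (nat_lit 1) (.e (nat_lit 269022) (nat_lit 0) .nil) .nil))))))) (.nd (nat_lit 6) (.nd (nat_lit 7) (.nd (nat_lit 8) (.nd (nat_lit 9) 
(.lf (nat_lit 538660) (.g (nat_lit 3278) (.e (nat_lit 73753) (nat_lit 8) (.e (nat_lit 557105) (nat_lit 14) (.e (nat_lit 180252) (nat_lit 10) (.e (nat_lit 573474) (nat_lit 12) (.e (nat_lit 57506) (nat_lit 39) (.e (nat_lit 647176) (nat_lit 0) (.e (nat_lit 2667) (nat_lit 167) (.e (nat_lit 196670) (nat_lit 14) .nil)))))))) (.g (nat_lit 1) (.e (nat_lit 266613) (nat_lit 0) .nil) .nil))) 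
(.lf (nat_lit 539172) (.g (nat_lit 1617) (.e (nat_lit 73781) (nat_lit 32) (.e (nat_lit 2856) (nat_lit 184) (.e (nat_lit 426542) (nat_lit 29) (.e (nat_lit 352266) (nat_lit 0) .nil)))) (.g (nat_lit 0) (.e (nat_lit 267987) (nat_lit 0) .nil) .nil)))) (.nd (nat_lit 9) 
(.lf (nat_lit 538916) (.g (nat_lit 1132) (.e (nat_lit 73755) (nat_lit 8) (.e (nat_lit 557105) (nat_lit 14) (.e (nat_lit 180252) (nat_lit 10) (.e (nat_lit 573473) (nat_lit 12) .nil)))) (.g (nat_lit 0) (.e (nat_lit 267252) (nat_lit 0) .nil) .nil))) 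
(.lf (nat_lit 539428) (.g (nat_lit 1343) (.e (nat_lit 81921) (nat_lit 0) (.e (nat_lit 3711) (nat_lit 227) (.e (nat_lit 778325) (nat_lit 6) (.e (nat_lit 81924) (nat_lit 0) (.e (nat_lit 3632) (nat_lit 227) (.e (nat_lit 778326) (nat_lit 6) .nil)))))) (.g (nat_lit 1) (.e (nat_lit 268449) (nat_lit 0) .nil) .nil))))) (.nd (nat_lit 8) (.nd (nat_lit 9) 
(.lf (nat_lit 538788) (.g (nat_lit 692) (.e (nat_lit 73754) (nat_lit 8) (.e (nat_lit 557105) (nat_lit 14) (.e (nat_lit 180248) (nat_lit 9) .nil))) (.g (nat_lit 0) (.e (nat_lit 266772) (nat_lit 0) .nil) .nil))) 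
(.lf (nat_lit 539300) (.g (nat_lit 1611) (.e (nat_lit 73782) (nat_lit 32) (.e (nat_lit 2856) (nat_lit 184) (.e (nat_lit 426540) (nat_lit 29) (.e (nat_lit 352316) (nat_lit 24) .nil)))) (.g (nat_lit 0) (.e (nat_lit 268165) (nat_lit 0) .nil) .nil)))) (.nd (nat_lit 9) 
(.lf (nat_lit 539044) (.g (nat_lit 2416) (.e (nat_lit 73775) (nat_lit 26) (.e (nat_lit 778465) (nat_lit 11) (.e (nat_lit 24623) (nat_lit 9) (.e (nat_lit 336421) (nat_lit 28) (.e (nat_lit 442112) (nat_lit 5) .nil))))) (.g (nat_lit 1) (.e (nat_lit 267708) (nat_lit 0) .nil) .nil))) 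
(.lf (nat_lit 539556) (.g (nat_lit 1809) (.e (nat_lit 81934) (nat_lit 20) (.e (nat_lit 1996) (nat_lit 137) (.e (nat_lit 663569) (nat_lit 6) (.e (nat_lit 81947) (nat_lit 20) (.e (nat_lit 2006) (nat_lit 138) (.e (nat_lit 671764) (nat_lit 6) .nil)))))) (.g (nat_lit 1) (.e (nat_lit 268949) (nat_lit 0) .nil) .nil)))))) (.nd (nat_lit 7) (.nd (nat_lit 8) (.nd (nat_lit 9) 
(.lf (nat_lit 538724) (.g (nat_lit 764) (.e (nat_lit 73754) (nat_lit 8) (.e (nat_lit 557105) (nat_lit 14) (.e (nat_lit 180250) (nat_lit 10) .nil))) (.g (nat_lit 0) (.e (nat_lit 266702) (nat_lit 0) .nil) .nil))) 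
(.lf (nat_lit 539236) (.g (nat_lit 1907) (.e (nat_lit 73781) (nat_lit 32) (.e (nat_lit 3090) (nat_lit 191) (.e (nat_lit 483386) (nat_lit 23) (.e (nat_lit 335985) (nat_lit 1) (.e (nat_lit 57872) (nat_lit 264) (.e (nat_lit 1211) (nat_lit 89) .nil)))))) (.g (nat_lit 1) (.e (nat_lit 268052) (nat_lit 0) .nil) .nil)))) (.nd (nat_lit 9) 
(.lf (nat_lit 538980) (.g (nat_lit 420) (.e (nat_lit 73755) (nat_lit 8) (.e (nat_lit 557119) (nat_lit 18) (.e (nat_lit 2798) (nat_lit 180) .nil))) (.g (nat_lit 0) (.e (nat_lit 267392) (nat_lit 0) .nil) .nil))) 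
(.lf (nat_lit 539492) (.g (nat_lit 1898) (.e (nat_lit 81924) (nat_lit 0) (.e (nat_lit 3747) (nat_lit 228) (.e (nat_lit 786481) (nat_lit 30) (.e (nat_lit 360486) (nat_lit 18) (.e (nat_lit 671764) (nat_lit 6) .nil))))) (.g (nat_lit 1) (.e (nat_lit 268651) (nat_lit 0) .nil) .nil))))) (.nd (nat_lit 8) (.nd (nat_lit 9) 
(.lf (nat_lit 538852) (.g (nat_lit 2993) (.e (nat_lit 73755) (nat_lit 8) (.e (nat_lit 557104) (nat_lit 14) (.e (nat_lit 180244) (nat_lit 5) (.e (nat_lit 532490) (nat_lit 0) (.e (nat_lit 2264) (nat_lit 149) (.e (nat_lit 761899) (nat_lit 15) (.e (nat_lit 163977) (nat_lit 30) (.e (nat_lit 573489) (nat_lit 14) .nil)))))))) (.g (nat_lit 1) (.e (nat_lit 266920) (nat_lit 0) .nil) .nil))) 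
(.lf (nat_lit 539364) (.g (nat_lit 1221) (.e (nat_lit 73782) (nat_lit 32) (.e (nat_lit 3090) (nat_lit 191) (.e (nat_lit 483393) (nat_lit 23) (.e (nat_lit 336291) (nat_lit 15) .nil)))) (.g (nat_lit 0) (.e (nat_lit 268229) (nat_lit 0) .nil) .nil)))) (.nd (nat_lit 9) 
(.lf (nat_lit 539108) (.g (nat_lit 2127) (.e (nat_lit 73775) (nat_lit 26) (.e (nat_lit 778466) (nat_lit 11) (.e (nat_lit 24638) (nat_lit 9) (.e (nat_lit 336387) (nat_lit 27) (.e (nat_lit 426024) (nat_lit 0) (.e (nat_lit 7936) (nat_lit 407) .nil)))))) (.g (nat_lit 1) (.e (nat_lit 267798) (nat_lit 0) .nil) .nil))) 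
(.lf (nat_lit 539620) (.g (nat_lit 2275) (.e (nat_lit 81938) (nat_lit 20) (.e (nat_lit 2391) (nat_lit 156) (.e (nat_lit 819204) (nat_lit 0) (.e (nat_lit 3022) (nat_lit 187) (.e (nat_lit 450584) (nat_lit 9) (.e (nat_lit 573184) (nat_lit 6) .nil)))))) (.g (nat_lit 1) (.e (nat_lit 269055) (nat_lit 0) .nil) .nil)))))))) 
(.nd (nat_lit 5) (.nd (nat_lit 6) (.nd (nat_lit 7) (.nd (nat_lit 8) (.nd (nat_lit 9) 
(.lf (nat_lit 538644) (.g (nat_lit 2629) (.e (nat_lit 73753) (nat_lit 8) (.e (nat_lit 557105) (nat_lit 14) (.e (nat_lit 180252) (nat_lit 10) (.e (nat_lit 573451) (nat_lit 9) (.e (nat_lit 1177) (nat_lit 87) .nil))))) (.g (nat_lit 0) (.e (nat_lit 266595) (nat_lit 0) .nil) .nil))) 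
(.lf (nat_lit 539156) (.g (nat_lit 3666) (.e (nat_lit 73781) (nat_lit 32) (.e (nat_lit 2682) (nat_lit 168) (.e (nat_lit 204846) (nat_lit 24) (.e (nat_lit 319490) (nat_lit 0) (.e (nat_lit 5664) (nat_lit 312) (.e (nat_lit 2661) (nat_lit 167) (.e (nat_lit 196669) (nat_lit 14) .nil))))))) (.g (nat_lit 1) (.e (nat_lit 267963) (nat_lit 0) .nil) .nil)))) (.nd (nat_lit 9) 
(.lf (nat_lit 538900) (.g (nat_lit 1661) (.e (nat_lit 73755) (nat_lit 8) (.e (nat_lit 557105) (nat_lit 14) (.e (nat_lit 180251) (nat_lit 10) (.e (nat_lit 573473) (nat_lit 12) .nil)))) (.g (nat_lit 0) (.e (nat_lit 267138) (nat_lit 0) .nil) .nil))) 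
(.lf (nat_lit 539412) (.g (nat_lit 580) (.e (nat_lit 73789) (nat_lit 45) (.e (nat_lit 1163) (nat_lit 86) (.e (nat_lit 49156) (nat_lit 0) (.e (nat_lit 2984) (nat_lit 186) (.e (nat_lit 450304) (nat_lit 2) (.e (nat_lit 98048) (nat_lit 5) .nil)))))) (.g (nat_lit 1) (.e (nat_lit 268424) (nat_lit 0) .nil) .nil))))) (.nd (nat_lit 8) (.nd (nat_lit 9) 
(.lf (nat_lit 538772) (.g (nat_lit 2425) (.e (nat_lit 73754) (nat_lit 8) (.e (nat_lit 557105) (nat_lit 14) (.e (nat_lit 180252) (nat_lit 10) (.e (nat_lit 573475) (nat_lit 12) (.e (nat_lit 57507) (nat_lit 39) (.e (nat_lit 655104) (nat_lit 0) (.e (nat_lit 2666) (nat_lit 167) (.e (nat_lit 196667) (nat_lit 14) .nil)))))))) (.g (nat_lit 1) (.e (nat_lit 266756) (nat_lit 0) .nil) .nil))) 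
(.lf (nat_lit 539284) (.g (nat_lit 2840) (.e (nat_lit 73782) (nat_lit 32) (.e (nat_lit 2664) (nat_lit 167) (.e (nat_lit 196674) (nat_lit 15) (.e (nat_lit 81947) (nat_lit 20) (.e (nat_lit 1842) (nat_lit 123) (.e (nat_lit 548890) (nat_lit 10) .nil)))))) (.g (nat_lit 1) (.e (nat_lit 268132) (nat_lit 0) .nil) .nil)))) (.nd (nat_lit 9) 
(.lf (nat_lit 539028) (.g (nat_lit 1979) (.e (nat_lit 73775) (nat_lit 26) (.e (nat_lit 778464) (nat_lit 11) (.e (nat_lit 24625) (nat_lit 9) (.e (nat_lit 336414) (nat_lit 27) (.e (nat_lit 425984) (nat_lit 0) .nil))))) (.g (nat_lit 0) (.e (nat_lit 267685) (nat_lit 0) .nil) .nil))) 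
(.lf (nat_lit 539540) (.g (nat_lit 1511) (.e (nat_lit 89856) (nat_lit 18) (.e (nat_lit 483364) (nat_lit 18) (.e (nat_lit 57931) (nat_lit 282) (.e (nat_lit 163867) (nat_lit 2) .nil)))) (.g (nat_lit 0) (.e (nat_lit 268891) (nat_lit 0) .nil) .nil)))))) (.nd (nat_lit 7) (.nd (nat_lit 8) (.nd (nat_lit 9) 
(.lf (nat_lit 538708) (.g (nat_lit 2469) (.e (nat_lit 73753) (nat_lit 8) (.e (nat_lit 557119) (nat_lit 18) (.e (nat_lit 2798) (nat_lit 180) (.e (nat_lit 303145) (nat_lit 13) (.e (nat_lit 483363) (nat_lit 18) .nil))))) (.g (nat_lit 0) (.e (nat_lit 266668) (nat_lit 0) .nil) .nil))) 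
(.lf (nat_lit 539220) (.g (nat_lit 1826) (.e (nat_lit 73781) (nat_lit 32) (.e (nat_lit 3090) (nat_lit 191) (.e (nat_lit 483379) (nat_lit 23) (.e (nat_lit 336332) (nat_lit 19) (.e (nat_lit 220928) (nat_lit 5) .nil))))) (.g (nat_lit 1) (.e (nat_lit 268036) (nat_lit 0) .nil) .nil)))) (.nd (nat_lit 9) 
(.lf (nat_lit 538964) (.g (nat_lit 2417) (.e (nat_lit 73755) (nat_lit 8) (.e (nat_lit 557105) (nat_lit 14) (.e (nat_lit 180252) (nat_lit 10) (.e (nat_lit 573475) (nat_lit 12) (.e (nat_lit 57507) (nat_lit 39) .nil))))) (.g (nat_lit 0) (.e (nat_lit 267367) (nat_lit 0) .nil) .nil))) 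
(.lf (nat_lit 539476) (.g (nat_lit 966) (.e (nat_lit 81924) (nat_lit 0) (.e (nat_lit 3631) (nat_lit 227) (.e (nat_lit 778326) (nat_lit 6) (.e (nat_lit 81921) (nat_lit 0) (.e (nat_lit 3716) (nat_lit 227) (.e (nat_lit 778325) (nat_lit 6) .nil)))))) (.g (nat_lit 1) (.e (nat_lit 268628) (nat_lit 0) .nil) .nil))))) (.nd (nat_lit 8) (.nd (nat_lit 9) 
(.lf (nat_lit 538836) (.g (nat_lit 2279) (.e (nat_lit 73755) (nat_lit 8) (.e (nat_lit 557103) (nat_lit 14) (.e (nat_lit 180244) (nat_lit 5) (.e (nat_lit 532481) (nat_lit 0) (.e (nat_lit 2265) (nat_lit 149) .nil))))) (.g (nat_lit 0) (.e (nat_lit 266874) (nat_lit 0) .nil) .nil))) 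
(.lf (nat_lit 539348) (.g (nat_lit 1310) (.e (nat_lit 73782) (nat_lit 32) (.e (nat_lit 3089) (nat_lit 191) (.e (nat_lit 483391) (nat_lit 23) (.e (nat_lit 336331) (nat_lit 19) (.e (nat_lit 220928) (nat_lit 5) .nil))))) (.g (nat_lit 1) (.e (nat_lit 268213) (nat_lit 0) .nil) .nil)))) (.nd (nat_lit 9) 
(.lf (nat_lit 539092) (.g (nat_lit 3286) (.e (nat_lit 73775) (nat_lit 26) (.e (nat_lit 778466) (nat_lit 11) (.e (nat_lit 24631) (nat_lit 9) (.e (nat_lit 336412) (nat_lit 27) (.e (nat_lit 426011) (nat_lit 0) (.e (nat_lit 7591) (nat_lit 407) .nil)))))) (.g (nat_lit 1) (.e (nat_lit 267777) (nat_lit 0) .nil) .nil))) 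
(.lf (nat_lit 539604) (.g (nat_lit 1447) (.e (nat_lit 81938) (nat_lit 20) (.e (nat_lit 2391) (nat_lit 156) (.e (nat_lit 819203) (nat_lit 0) (.e (nat_lit 2989) (nat_lit 186) (.e (nat_lit 450304) (nat_lit 2) (.e (nat_lit 98048) (nat_lit 6) .nil)))))) (.g (nat_lit 1) (.e (nat_lit 269039) (nat_lit 0) .nil) .nil))))))) (.nd (nat_lit 6) (.nd (nat_lit 7) (.nd (nat_lit 8) (.nd (nat_lit 9) 
(.lf (nat_lit 538676) (.g (nat_lit 2094) (.e (nat_lit 73753) (nat_lit 8) (.e (nat_lit 557118) (nat_lit 18) (.e (nat_lit 2808) (nat_lit 180) (.e (nat_lit 303127) (nat_lit 9) (.e (nat_lit 426558) (nat_lit 33) (.e (nat_lit 392960) (nat_lit 5) .nil)))))) (.g (nat_lit 1) (.e (nat_lit 266634) (nat_lit 0) .nil) .nil))) 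
(.lf (nat_lit 539188) (.g (nat_lit 1929) (.e (nat_lit 73781) (nat_lit 32) (.e (nat_lit 3087) (nat_lit 191) (.e (nat_lit 483394) (nat_lit 24) (.e (nat_lit 344169) (nat_lit 40) (.e (nat_lit 671763) (nat_lit 5) .nil))))) (.g (nat_lit 1) (.e (nat_lit 268004) (nat_lit 0) .nil) .nil)))) (.nd (nat_lit 9) 
(.lf (nat_lit 538932) (.g (nat_lit 2352) (.e (nat_lit 73755) (nat_lit 8) (.e (nat_lit 557105) (nat_lit 14) (.e (nat_lit 180252) (nat_lit 10) (.e (nat_lit 573474) (nat_lit 12) (.e (nat_lit 57501) (nat_lit 37) (.e (nat_lit 630799) (nat_lit 7) (.e (nat_lit 163975) (nat_lit 30) (.e (nat_lit 573488) (nat_lit 14) .nil)))))))) (.g (nat_lit 1) (.e (nat_lit 267328) (nat_lit 0) .nil) .nil))) 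
(.lf (nat_lit 539444) (.g (nat_lit 2006) (.e (nat_lit 81922) (nat_lit 0) (.e (nat_lit 3631) (nat_lit 227) (.e (nat_lit 778327) (nat_lit 6) (.e (nat_lit 81922) (nat_lit 0) (.e (nat_lit 3631) (nat_lit 227) (.e (nat_lit 778327) (nat_lit 6) .nil)))))) (.g (nat_lit 1) (.e (nat_lit 268510) (nat_lit 0) .nil) .nil))))) (.nd (nat_lit 8) (.nd (nat_lit 9) 
(.lf (nat_lit 538804) (.g (nat_lit 2963) (.e (nat_lit 73755) (nat_lit 8) (.e (nat_lit 557087) (nat_lit 11) (.e (nat_lit 24625) (nat_lit 9) (.e (nat_lit 336016) (nat_lit 2) (.e (nat_lit 90133) (nat_lit 9) (.e (nat_lit 2397) (nat_lit 157) (.e (nat_lit 7590) (nat_lit 407) .nil))))))) (.g (nat_lit 1) (.e (nat_lit 266800) (nat_lit 0) .nil) .nil))) 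
(.lf (nat_lit 539316) (.g (nat_lit 3187) (.e (nat_lit 73782) (nat_lit 32) (.e (nat_lit 2856) (nat_lit 184) (.e (nat_lit 426542) (nat_lit 29) (.e (nat_lit 352317) (nat_lit 24) (.e (nat_lit 123184) (nat_lit 264) (.e (nat_lit 1212) (nat_lit 89) .nil)))))) (.g (nat_lit 1) (.e (nat_lit 268181) (nat_lit 0) .nil) .nil)))) (.nd (nat_lit 9) 
(.lf (nat_lit 539060) (.g (nat_lit 2024) (.e (nat_lit 73775) (nat_lit 26) (.e (nat_lit 778465) (nat_lit 11) (.e (nat_lit 24628) (nat_lit 9) (.e (nat_lit 336414) (nat_lit 27) .nil)))) (.g (nat_lit 0) (.e (nat_lit 267724) (nat_lit 0) .nil) .nil))) 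
(.lf (nat_lit 539572) (.g (nat_lit 1072) (.e (nat_lit 81938) (nat_lit 20) (.e (nat_lit 1886) (nat_lit 127) (.e (nat_lit 581652) (nat_lit 5) (.e (nat_lit 180285) (nat_lit 45) (.e (nat_lit 2580) (nat_lit 161) (.e (nat_lit 48896) (nat_lit 6) .nil)))))) (.g (nat_lit 1) (.e (nat_lit 269003) (nat_lit 0) .nil) .nil)))))) (.nd (nat_lit 7) (.nd (nat_lit 8) (.nd (nat_lit 9) 
(.lf (nat_lit 538740) (.g (nat_lit 2682) (.e (nat_lit 73754) (nat_lit 8) (.e (nat_lit 557105) (nat_lit 14) (.e (nat_lit 180252) (nat_lit 10) (.e (nat_lit 573472) (nat_lit 12) .nil)))) (.g (nat_lit 0) (.e (nat_lit 266723) (nat_lit 0) .nil) .nil))) 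
(.lf (nat_lit 539252) (.g (nat_lit 3356) (.e (nat_lit 73781) (nat_lit 32) (.e (nat_lit 3090) (nat_lit 191) (.e (nat_lit 483395) (nat_lit 24) (.e (nat_lit 344097) (nat_lit 18) (.e (nat_lit 5906) (nat_lit 320) (.e (nat_lit 1209) (nat_lit 89) .nil)))))) (.g (nat_lit 1) (.e (nat_lit 268068) (nat_lit 0) .nil) .nil)))) (.nd (nat_lit 9) 
(.lf (nat_lit 538996) (.g (nat_lit 2742) (.e (nat_lit 73755) (nat_lit 8) (.e (nat_lit 557119) (nat_lit 18) (.e (nat_lit 2798) (nat_lit 180) (.e (nat_lit 303145) (nat_lit 13) (.e (nat_lit 483330) (nat_lit 0) .nil))))) (.g (nat_lit 0) (.e (nat_lit 267409) (nat_lit 0) .nil) .nil))) 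
(.lf (nat_lit 539508) (.g (nat_lit 950) (.e (nat_lit 89856) (nat_lit 0) (.e (nat_lit 3604) (nat_lit 225) (.e (nat_lit 761912) (nat_lit 18) (.e (nat_lit 196352) (nat_lit 0) .nil)))) (.g (nat_lit 0) (.e (nat_lit 268789) (nat_lit 0) .nil) .nil))))) (.nd (nat_lit 8) (.nd (nat_lit 9) 
(.lf (nat_lit 538868) (.g (nat_lit 2086) (.e (nat_lit 73755) (nat_lit 8) (.e (nat_lit 557104) (nat_lit 14) (.e (nat_lit 180250) (nat_lit 10) (.e (nat_lit 573475) (nat_lit 12) (.e (nat_lit 57500) (nat_lit 37) .nil))))) (.g (nat_lit 0) (.e (nat_lit 267025) (nat_lit 0) .nil) .nil))) 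
(.lf (nat_lit 539380) (.g (nat_lit 1248) (.e (nat_lit 81664) (nat_lit 32) (.e (nat_lit 2668) (nat_lit 167) (.e (nat_lit 196666) (nat_lit 13) (.e (nat_lit 65628) (nat_lit 14) .nil)))) (.g (nat_lit 0) (.e (nat_lit 268268) (nat_lit 0) .nil) .nil)))) (.nd (nat_lit 9) 
(.lf (nat_lit 539124) (.g (nat_lit 402) (.e (nat_lit 73776) (nat_lit 26) (.e (nat_lit 778465) (nat_lit 11) (.e (nat_lit 24627) (nat_lit 9) .nil))) (.g (nat_lit 0) (.e (nat_lit 267818) (nat_lit 0) .nil) .nil))) 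
(.lf (nat_lit 539636) (.g (nat_lit 430) (.e (nat_lit 81939) (nat_lit 20) (.e (nat_lit 1886) (nat_lit 127) (.e (nat_lit 581652) (nat_lit 5) (.e (nat_lit 180284) (nat_lit 45) (.e (nat_lit 2580) (nat_lit 161) (.e (nat_lit 48896) (nat_lit 6) .nil)))))) (.g (nat_lit 1) (.e (nat_lit 269078) (nat_lit 0) .nil) .nil))))))))) 
(.nd (nat_lit 4) (.nd (nat_lit 5) (.nd (nat_lit 6) (.nd (nat_lit 7) (.nd (nat_lit 8) 
(.nd (nat_lit 9) 
(.lf (nat_lit 538636) (.g (nat_lit 1333) (.e (nat_lit 73753) (nat_lit 8) (.e (nat_lit 557105) (nat_lit 14) (.e (nat_lit 180251) (nat_lit 10) (.e (nat_lit 573477) (nat_lit 12) .nil)))) (.g (nat_lit 0) (.e (nat_lit 266583) (nat_lit 0) .nil) .nil))) 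
(.lf (nat_lit 539148) (.g (nat_lit 1073) (.e (nat_lit 73781) (nat_lit 32) (.e (nat_lit 2664) (nat_lit 167) (.e (nat_lit 196630) (nat_lit 9) (.e (nat_lit 1573) (nat_lit 110) .nil)))) (.g (nat_lit 0) (.e (nat_lit 267944) (nat_lit 0) .nil) .nil)))) (.nd (nat_lit 9) 
(.lf (nat_lit 538892) (.g (nat_lit 4382) (.e (nat_lit 73755) (nat_lit 8) (.e (nat_lit 557104) (nat_lit 14) (.e (nat_lit 180252) (nat_lit 10) (.e (nat_lit 573475) (nat_lit 12) (.e (nat_lit 57503) (nat_lit 38) (.e (nat_lit 638994) (nat_lit 7) (.e (nat_lit 163979) (nat_lit 30) (.e (nat_lit 573489) (nat_lit 14) .nil)))))))) (.g (nat_lit 1) (.e (nat_lit 267054) (nat_lit 0) .nil) .nil))) 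
(.lf (nat_lit 539404) (.g (nat_lit 572) (.e (nat_lit 73788) (nat_lit 45) (.e (nat_lit 1162) (nat_lit 86) (.e (nat_lit 49157) (nat_lit 0) (.e (nat_lit 2984) (nat_lit 186) (.e (nat_lit 450304) (nat_lit 2) (.e (nat_lit 98048) (nat_lit 5) .nil)))))) (.g (nat_lit 1) (.e (nat_lit 268407) (nat_lit 0) .nil) .nil))))) (.nd (nat_lit 8) (.nd (nat_lit 9) 
(.lf (nat_lit 538764) (.g (nat_lit 2585) (.e (nat_lit 73754) (nat_lit 8) (.e (nat_lit 557105) (nat_lit 14) (.e (nat_lit 180252) (nat_lit 10) (.e (nat_lit 573475) (nat_lit 12) (.e (nat_lit 57506) (nat_lit 39) (.e (nat_lit 647176) (nat_lit 0) (.e (nat_lit 2663) (nat_lit 167) (.e (nat_lit 196667) (nat_lit 14) .nil)))))))) (.g (nat_lit 1) (.e (nat_lit 266748) (nat_lit 0) .nil) .nil))) 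
(.lf (nat_lit 539276) (.g (nat_lit 1733) (.e (nat_lit 73781) (nat_lit 32) (.e (nat_lit 3090) (nat_lit 191) (.e (nat_lit 483406) (nat_lit 26) (.e (nat_lit 385091) (nat_lit 49) (.e (nat_lit 778323) (nat_lit 5) .nil))))) (.g (nat_lit 0) (.e (nat_lit 268092) (nat_lit 0) .nil) .nil)))) (.nd (nat_lit 9) 
(.lf (nat_lit 539020) (.g (nat_lit 1036) (.e (nat_lit 73774) (nat_lit 26) (.e (nat_lit 778469) (nat_lit 11) (.e (nat_lit 24628) (nat_lit 9) (.e (nat_lit 336438) (nat_lit 31) (.e (nat_lit 466688) (nat_lit 5) .nil))))) (.g (nat_lit 0) (.e (nat_lit 267656) (nat_lit 0) .nil) .nil))) 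
(.lf (nat_lit 539532) (.g (nat_lit 755) (.e (nat_lit 81927) (nat_lit 11) (.e (nat_lit 426107) (nat_lit 1) (.e (nat_lit 164182) (nat_lit 154) .nil))) (.g (nat_lit 0) (.e (nat_lit 268862) (nat_lit 0) .nil) .nil)))))) (.nd (nat_lit 7) (.nd (nat_lit 8) (.nd (nat_lit 9) 
(.lf (nat_lit 538700) (.g (nat_lit 2588) (.e (nat_lit 73753) (nat_lit 8) (.e (nat_lit 557119) (nat_lit 18) (.e (nat_lit 2798) (nat_lit 180) (.e (nat_lit 303145) (nat_lit 13) (.e (nat_lit 483328) (nat_lit 0) .nil))))) (.g (nat_lit 0) (.e (nat_lit 266660) (nat_lit 0) .nil) .nil))) 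
(.lf (nat_lit 539212) (.g (nat_lit 2662) (.e (nat_lit 73781) (nat_lit 32) (.e (nat_lit 3089) (nat_lit 191) (.e (nat_lit 483403) (nat_lit 26) (.e (nat_lit 385093) (nat_lit 49) (.e (nat_lit 778324) (nat_lit 5) .nil))))) (.g (nat_lit 1) (.e (nat_lit 268028) (nat_lit 0) .nil) .nil)))) (.nd (nat_lit 9) 
(.lf (nat_lit 538956) (.g (nat_lit 1496) (.e (nat_lit 73755) (nat_lit 8) (.e (nat_lit 557105) (nat_lit 14) (.e (nat_lit 180252) (nat_lit 10) (.e (nat_lit 573475) (nat_lit 12) .nil)))) (.g (nat_lit 0) (.e (nat_lit 267356) (nat_lit 0) .nil) .nil))) 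
(.lf (nat_lit 539468) (.g (nat_lit 536) (.e (nat_lit 81924) (nat_lit 0) (.e (nat_lit 3305) (nat_lit 202) (.e (nat_lit 573457) (nat_lit 9) .nil))) (.g (nat_lit 0) (.e (nat_lit 268604) (nat_lit 0) .nil) .nil))))) (.nd (nat_lit 8) (.nd (nat_lit 9) 
(.lf (nat_lit 538828) (.g (nat_lit 550) (.e (nat_lit 73755) (nat_lit 8) (.e (nat_lit 557098) (nat_lit 13) (.e (nat_lit 172063) (nat_lit 2) .nil))) (.g (nat_lit 0) (.e (nat_lit 266856) (nat_lit 0) .nil) .nil))) 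
(.lf (nat_lit 539340) (.g (nat_lit 3062) (.e (nat_lit 73782) (nat_lit 32) (.e (nat_lit 3088) (nat_lit 191) (.e (nat_lit 483406) (nat_lit 26) (.e (nat_lit 385094) (nat_lit 49) (.e (nat_lit 778323) (nat_lit 5) .nil))))) (.g (nat_lit 1) (.e (nat_lit 268205) (nat_lit 0) .nil) .nil)))) (.nd (nat_lit 9) 
(.lf (nat_lit 539084) (.g (nat_lit 1899) (.e (nat_lit 73775) (nat_lit 26) (.e (nat_lit 778466) (nat_lit 11) (.e (nat_lit 24626) (nat_lit 9) (.e (nat_lit 336421) (nat_lit 28) (.e (nat_lit 442112) (nat_lit 5) .nil))))) (.g (nat_lit 1) (.e (nat_lit 267767) (nat_lit 0) .nil) .nil))) 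
(.lf (nat_lit 539596) (.g (nat_lit 1458) (.e (nat_lit 81938) (nat_lit 20) (.e (nat_lit 2390) (nat_lit 156) (.e (nat_lit 819204) (nat_lit 0) (.e (nat_lit 3027) (nat_lit 187) (.e (nat_lit 458496) (nat_lit 8) (.e (nat_lit 564992) (nat_lit 6) .nil)))))) (.g (nat_lit 1) (.e (nat_lit 269030) (nat_lit 0) .nil) .nil))))))) (.nd (nat_lit 6) (.nd (nat_lit 7) (.nd (nat_lit 8) (.nd (nat_lit 9) 
(.lf (nat_lit 538668) (.g (nat_lit 2564) (.e (nat_lit 73753) (nat_lit 8) (.e (nat_lit 557105) (nat_lit 14) (.e (nat_lit 180252) (nat_lit 10) (.e (nat_lit 573475) (nat_lit 12) (.e (nat_lit 57503) (nat_lit 38) (.e (nat_lit 638994) (nat_lit 7) (.e (nat_lit 163978) (nat_lit 30) (.e (nat_lit 573487) (nat_lit 14) .nil)))))))) (.g (nat_lit 1) (.e (nat_lit 266626) (nat_lit 0) .nil) .nil))) 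
(.lf (nat_lit 539180) (.g (nat_lit 1043) (.e (nat_lit 73781) (nat_lit 32) (.e (nat_lit 2857) (nat_lit 184) (.e (nat_lit 426540) (nat_lit 29) (.e (nat_lit 352265) (nat_lit 0) .nil)))) (.g (nat_lit 0) (.e (nat_lit 267995) (nat_lit 0) .nil) .nil)))) (.nd (nat_lit 9) 
(.lf (nat_lit 538924) (.g (nat_lit 2058) (.e (nat_lit 73755) (nat_lit 8) (.e (nat_lit 557105) (nat_lit 14) (.e (nat_lit 180252) (nat_lit 10) (.e (nat_lit 573474) (nat_lit 12) (.e (nat_lit 57349) (nat_lit 0) .nil))))) (.g (nat_lit 0) (.e (nat_lit 267296) (nat_lit 0) .nil) .nil))) 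
(.lf (nat_lit 539436) (.g (nat_lit 238) (.e (nat_lit 81922) (nat_lit 0) (.e (nat_lit 3305) (nat_lit 202) (.e (nat_lit 573484) (nat_lit 13) .nil))) (.g (nat_lit 0) (.e (nat_lit 268481) (nat_lit 0) .nil) .nil))))) (.nd (nat_lit 8) (.nd (nat_lit 9) 
(.lf (nat_lit 538796) (.g (nat_lit 3751) (.e (nat_lit 73755) (nat_lit 8) (.e (nat_lit 557067) (nat_lit 9) (.e (nat_lit 2598) (nat_lit 163) (.e (nat_lit 164398) (nat_lit 256) (.e (nat_lit 57378) (nat_lit 3) (.e (nat_lit 98368) (nat_lit 27) (.e (nat_lit 434245) (nat_lit 28) (.e (nat_lit 573488) (nat_lit 14) .nil)))))))) (.g (nat_lit 1) (.e (nat_lit 266781) (nat_lit 0) .nil) .nil))) 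
(.lf (nat_lit 539308) (.g (nat_lit 3620) (.e (nat_lit 73782) (nat_lit 32) (.e (nat_lit 2856) (nat_lit 184) (.e (nat_lit 426542) (nat_lit 29) (.e (nat_lit 352307) (nat_lit 21) (.e (nat_lit 57871) (nat_lit 264) (.e (nat_lit 1210) (nat_lit 89) .nil)))))) (.g (nat_lit 1) (.e (nat_lit 268173) (nat_lit 0) .nil) .nil)))) (.nd (nat_lit 9) 
(.lf (nat_lit 539052) (.g (nat_lit 2235) (.e (nat_lit 73775) (nat_lit 26) (.e (nat_lit 778465) (nat_lit 11) (.e (nat_lit 24624) (nat_lit 9) (.e (nat_lit 336438) (nat_lit 31) (.e (nat_lit 466688) (nat_lit 5) .nil))))) (.g (nat_lit 1) (.e (nat_lit 267716) (nat_lit 0) .nil) .nil))) 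
(.lf (nat_lit 539564) (.g (nat_lit 1869) (.e (nat_lit 81938) (nat_lit 20) (.e (nat_lit 1841) (nat_lit 123) (.e (nat_lit 548874) (nat_lit 5) (.e (nat_lit 1401) (nat_lit 106) (.e (nat_lit 327424) (nat_lit 8) (.e (nat_lit 303117) (nat_lit 2) (.e (nat_lit 196673) (nat_lit 15) .nil))))))) (.g (nat_lit 1) (.e (nat_lit 268982) (nat_lit 0) .nil) .nil)))))) 
(.nd (nat_lit 7) (.nd (nat_lit 8) (.nd (nat_lit 9) 
(.lf (nat_lit 538732) (.g (nat_lit 1811) (.e (nat_lit 73754) (nat_lit 8) (.e (nat_lit 557105) (nat_lit 14) (.e (nat_lit 180252) (nat_lit 10) (.e (nat_lit 573451) (nat_lit 9) .nil)))) (.g (nat_lit 0) (.e (nat_lit 266710) (nat_lit 0) .nil) .nil))) 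
(.lf (nat_lit 539244) (.g (nat_lit 3029) (.e (nat_lit 73781) (nat_lit 32) (.e (nat_lit 3090) (nat_lit 191) (.e (nat_lit 483393) (nat_lit 23) (.e (nat_lit 335995) (nat_lit 1) (.e (nat_lit 57872) (nat_lit 264) (.e (nat_lit 1211) (nat_lit 89) .nil)))))) (.g (nat_lit 1) (.e (nat_lit 268060) (nat_lit 0) .nil) .nil)))) (.nd (nat_lit 9) 
(.lf (nat_lit 538988) (.g (nat_lit 2547) (.e (nat_lit 73755) (nat_lit 8) (.e (nat_lit 557119) (nat_lit 18) (.e (nat_lit 2798) (nat_lit 180) (.e (nat_lit 303133) (nat_lit 9) (.e (nat_lit 426499) (nat_lit 27) (.e (nat_lit 336275) (nat_lit 15) (.e (nat_lit 7936) (nat_lit 407) .nil))))))) (.g (nat_lit 1) (.e (nat_lit 267401) (nat_lit 0) .nil) .nil))) 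
(.lf (nat_lit 539500) (.g (nat_lit 1352) (.e (nat_lit 89856) (nat_lit 0) (.e (nat_lit 3249) (nat_lit 197) (.e (nat_lit 532507) (nat_lit 2) (.e (nat_lit 106536) (nat_lit 11) (.e (nat_lit 16412) (nat_lit 2) .nil))))) (.g (nat_lit 0) (.e (nat_lit 268674) (nat_lit 0) .nil) .nil))))) (.nd (nat_lit 8) (.nd (nat_lit 9) 
(.lf (nat_lit 538860) (.g (nat_lit 2499) (.e (nat_lit 73755) (nat_lit 8) (.e (nat_lit 557104) (nat_lit 14) (.e (nat_lit 180244) (nat_lit 5) (.e (nat_lit 532504) (nat_lit 1) (.e (nat_lit 57662) (nat_lit 152) .nil))))) (.g (nat_lit 0) (.e (nat_lit 267003) (nat_lit 0) .nil) .nil))) 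
(.lf (nat_lit 539372) (.g (nat_lit 1788) (.e (nat_lit 81664) (nat_lit 32) (.e (nat_lit 2663) (nat_lit 167) (.e (nat_lit 196666) (nat_lit 13) (.e (nat_lit 65622) (nat_lit 12) .nil)))) (.g (nat_lit 0) (.e (nat_lit 268246) (nat_lit 0) .nil) .nil)))) (.nd (nat_lit 9) 
(.lf (nat_lit 539116) (.g (nat_lit 2040) (.e (nat_lit 73775) (nat_lit 26) (.e (nat_lit 778466) (nat_lit 11) (.e (nat_lit 24658) (nat_lit 13) (.e (nat_lit 393240) (nat_lit 17) (.e (nat_lit 7936) (nat_lit 407) .nil))))) (.g (nat_lit 1) (.e (nat_lit 267806) (nat_lit 0) .nil) .nil))) 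
(.lf (nat_lit 539628) (.g (nat_lit 1248) (.e (nat_lit 81938) (nat_lit 20) (.e (nat_lit 2391) (nat_lit 156) (.e (nat_lit 819221) (nat_lit 6) (.e (nat_lit 188428) (nat_lit 20) (.e (nat_lit 3281) (nat_lit 200) (.e (nat_lit 564992) (nat_lit 6) .nil)))))) (.g (nat_lit 1) (.e (nat_lit 269064) (nat_lit 0) .nil) .nil)))))))) 
(.nd (nat_lit 5) (.nd (nat_lit 6) (.nd (nat_lit 7) (.nd (nat_lit 8) (.nd (nat_lit 9) 
(.lf (nat_lit 538652) (.g (nat_lit 3071) (.e (nat_lit 73753) (nat_lit 8) (.e (nat_lit 557105) (nat_lit 14) (.e (nat_lit 180252) (nat_lit 10) (.e (nat_lit 573474) (nat_lit 12) (.e (nat_lit 57502) (nat_lit 38) .nil))))) (.g (nat_lit 0) (.e (nat_lit 266605) (nat_lit 0) .nil) .nil))) 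
(.lf (nat_lit 539164) (.g (nat_lit 1218) (.e (nat_lit 73781) (nat_lit 32) (.e (nat_lit 2855) (nat_lit 184) (.e (nat_lit 426542) (nat_lit 29) (.e (nat_lit 352264) (nat_lit 0) (.e (nat_lit 3711) (nat_lit 227) (.e (nat_lit 786176) (nat_lit 5) .nil)))))) (.g (nat_lit 1) (.e (nat_lit 267979) (nat_lit 0) .nil) .nil)))) (.nd (nat_lit 9) 
(.lf (nat_lit 538908) (.g (nat_lit 2845) (.e (nat_lit 73755) (nat_lit 8) (.e (nat_lit 557105) (nat_lit 14) (.e (nat_lit 180251) (nat_lit 10) (.e (nat_lit 573475) (nat_lit 12) (.e (nat_lit 57504) (nat_lit 38) (.e (nat_lit 638996) (nat_lit 7) (.e (nat_lit 163978) (nat_lit 30) (.e (nat_lit 573489) (nat_lit 14) .nil)))))))) (.g (nat_lit 1) (.e (nat_lit 267146) (nat_lit 0) .nil) .nil))) 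
(.lf (nat_lit 539420) (.g (nat_lit 553) (.e (nat_lit 73791) (nat_lit 45) (.e (nat_lit 1163) (nat_lit 86) (.e (nat_lit 49157) (nat_lit 0) (.e (nat_lit 2984) (nat_lit 186) (.e (nat_lit 450304) (nat_lit 2) (.e (nat_lit 98048) (nat_lit 5) .nil)))))) (.g (nat_lit 1) (.e (nat_lit 268436) (nat_lit 0) .nil) .nil))))) (.nd (nat_lit 8) (.nd (nat_lit 9) 
(.lf (nat_lit 538780) (.g (nat_lit 2614) (.e (nat_lit 73754) (nat_lit 8) (.e (nat_lit 557105) (nat_lit 14) (.e (nat_lit 180252) (nat_lit 10) (.e (nat_lit 573475) (nat_lit 12) (.e (nat_lit 57509) (nat_lit 39) (.e (nat_lit 655104) (nat_lit 0) (.e (nat_lit 2667) (nat_lit 167) (.e (nat_lit 196667) (nat_lit 14) .nil)))))))) (.g (nat_lit 1) (.e (nat_lit 266764) (nat_lit 0) .nil) .nil))) 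
(.lf (nat_lit 539292) (.g (nat_lit 1670) (.e (nat_lit 73782) (nat_lit 32) (.e (nat_lit 2855) (nat_lit 184) (.e (nat_lit 426546) (nat_lit 30) (.e (nat_lit 360486) (nat_lit 18) (.e (nat_lit 671763) (nat_lit 5) .nil))))) (.g (nat_lit 1) (.e (nat_lit 268157) (nat_lit 0) .nil) .nil)))) (.nd (nat_lit 9) 
(.lf (nat_lit 539036) (.g (nat_lit 2128) (.e (nat_lit 73775) (nat_lit 26) (.e (nat_lit 778465) (nat_lit 11) (.e (nat_lit 24623) (nat_lit 9) (.e (nat_lit 336379) (nat_lit 27) (.e (nat_lit 426075) (nat_lit 0) (.e (nat_lit 7936) (nat_lit 407) .nil)))))) (.g (nat_lit 1) (.e (nat_lit 267699) (nat_lit 0) .nil) .nil))) 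
(.lf (nat_lit 539548) (.g (nat_lit 1729) (.e (nat_lit 81931) (nat_lit 20) (.e (nat_lit 2295) (nat_lit 151) (.e (nat_lit 778512) (nat_lit 14) (.e (nat_lit 2810) (nat_lit 180) (.e (nat_lit 303127) (nat_lit 9) (.e (nat_lit 426428) (nat_lit 17) (.e (nat_lit 98048) (nat_lit 6) .nil))))))) (.g (nat_lit 1) (.e (nat_lit 268922) (nat_lit 0) .nil) .nil)))))) 
(.nd (nat_lit 7) (.nd (nat_lit 8) (.nd (nat_lit 9) 
(.lf (nat_lit 538716) (.g (nat_lit 451) (.e (nat_lit 73754) (nat_lit 8) (.e (nat_lit 557100) (nat_lit 13) (.e (nat_lit 172065) (nat_lit 3) .nil))) (.g (nat_lit 0) (.e (nat_lit 266683) (nat_lit 0) .nil) .nil))) 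
(.lf (nat_lit 539228) (.g (nat_lit 1814) (.e (nat_lit 73781) (nat_lit 32) (.e (nat_lit 3090) (nat_lit 191) (.e (nat_lit 483380) (nat_lit 23) (.e (nat_lit 336281) (nat_lit 15) .nil)))) (.g (nat_lit 0) (.e (nat_lit 268044) (nat_lit 0) .nil) .nil)))) (.nd (nat_lit 9) 
(.lf (nat_lit 538972) (.g (nat_lit 2179) (.e (nat_lit 73755) (nat_lit 8) (.e (nat_lit 557119) (nat_lit 18) (.e (nat_lit 2797) (nat_lit 180) (.e (nat_lit 303145) (nat_lit 13) (.e (nat_lit 483328) (nat_lit 0) (.e (nat_lit 7936) (nat_lit 407) .nil)))))) (.g (nat_lit 1) (.e (nat_lit 267383) (nat_lit 0) .nil) .nil))) 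
(.lf (nat_lit 539484) (.g (nat_lit 1853) (.e (nat_lit 81924) (nat_lit 0) (.e (nat_lit 3631) (nat_lit 227) (.e (nat_lit 778327) (nat_lit 6) (.e (nat_lit 81946) (nat_lit 20) (.e (nat_lit 2006) (nat_lit 138) (.e (nat_lit 671764) (nat_lit 6) .nil)))))) (.g (nat_lit 1) (.e (nat_lit 268636) (nat_lit 0) .nil) .nil))))) (.nd (nat_lit 8) (.nd (nat_lit 9) 
(.lf (nat_lit 538844) (.g (nat_lit 719) (.e (nat_lit 73755) (nat_lit 8) (.e (nat_lit 557103) (nat_lit 14) (.e (nat_lit 180251) (nat_lit 10) .nil))) (.g (nat_lit 0) (.e (nat_lit 266908) (nat_lit 0) .nil) .nil))) 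
(.lf (nat_lit 539356) (.g (nat_lit 2077) (.e (nat_lit 73782) (nat_lit 32) (.e (nat_lit 3090) (nat_lit 191) (.e (nat_lit 483380) (nat_lit 23) (.e (nat_lit 336328) (nat_lit 19) (.e (nat_lit 220928) (nat_lit 5) .nil))))) (.g (nat_lit 1) (.e (nat_lit 268221) (nat_lit 0) .nil) .nil)))) (.nd (nat_lit 9) 
(.lf (nat_lit 539100) (.g (nat_lit 2115) (.e (nat_lit 73775) (nat_lit 26) (.e (nat_lit 778466) (nat_lit 11) (.e (nat_lit 24632) (nat_lit 9) (.e (nat_lit 336417) (nat_lit 27) (.e (nat_lit 426035) (nat_lit 0) (.e (nat_lit 7936) (nat_lit 407) .nil)))))) (.g (nat_lit 1) (.e (nat_lit 267785) (nat_lit 0) .nil) .nil))) 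
(.lf (nat_lit 539612) (.g (nat_lit 1760) (.e (nat_lit 81938) (nat_lit 20) (.e (nat_lit 2391) (nat_lit 156) (.e (nat_lit 819204) (nat_lit 0) (.e (nat_lit 2989) (nat_lit 186) (.e (nat_lit 450304) (nat_lit 2) (.e (nat_lit 98048) (nat_lit 6) .nil)))))) (.g (nat_lit 1) (.e (nat_lit 269047) (nat_lit 0) .nil) .nil))))))) (.nd (nat_lit 6) (.nd (nat_lit 7) (.nd (nat_lit 8) (.nd (nat_lit 9) 
(.lf (nat_lit 538684) (.g (nat_lit 1970) (.e (nat_lit 73753) (nat_lit 8) (.e (nat_lit 557119) (nat_lit 18) (.e (nat_lit 2797) (nat_lit 180) (.e (nat_lit 303145) (nat_lit 13) (.e (nat_lit 491264) (nat_lit 0) .nil))))) (.g (nat_lit 0) (.e (nat_lit 266642) (nat_lit 0) .nil) .nil))) 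
(.lf (nat_lit 539196) (.g (nat_lit 2598) (.e (nat_lit 73781) (nat_lit 32) (.e (nat_lit 3088) (nat_lit 191) (.e (nat_lit 483402) (nat_lit 26) (.e (nat_lit 385093) (nat_lit 49) (.e (nat_lit 778323) (nat_lit 5) .nil))))) (.g (nat_lit 1) (.e (nat_lit 268012) (nat_lit 0) .nil) .nil)))) (.nd (nat_lit 9) 
(.lf (nat_lit 538940) (.g (nat_lit 3172) (.e (nat_lit 73755) (nat_lit 8) (.e (nat_lit 557105) (nat_lit 14) (.e (nat_lit 180252) (nat_lit 10) (.e (nat_lit 573474) (nat_lit 12) (.e (nat_lit 57504) (nat_lit 38) (.e (nat_lit 638983) (nat_lit 5) (.e (nat_lit 2466) (nat_lit 157) (.e (nat_lit 3307) (nat_lit 202) (.e (nat_lit 573489) (nat_lit 14) .nil))))))))) (.g (nat_lit 1) (.e (nat_lit 267336) (nat_lit 0) .nil) .nil))) 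
(.lf (nat_lit 539452) (.g (nat_lit 2716) (.e (nat_lit 81922) (nat_lit 0) (.e (nat_lit 3747) (nat_lit 228) (.e (nat_lit 786478) (nat_lit 29) (.e (nat_lit 352262) (nat_lit 0) (.e (nat_lit 3632) (nat_lit 227) (.e (nat_lit 778327) (nat_lit 6) .nil)))))) (.g (nat_lit 1) (.e (nat_lit 268533) (nat_lit 0) .nil) .nil))))) (.nd (nat_lit 8) (.nd (nat_lit 9) 
(.lf (nat_lit 538812) (.g (nat_lit 3732) (.e (nat_lit 73755) (nat_lit 8) (.e (nat_lit 557090) (nat_lit 12) (.e (nat_lit 163843) (nat_lit 0) (.e (nat_lit 5943) (nat_lit 322) (.e (nat_lit 57372) (nat_lit 2) (.e (nat_lit 90173) (nat_lit 14) (.e (nat_lit 180252) (nat_lit 10) (.e (nat_lit 573489) (nat_lit 14) .nil)))))))) (.g (nat_lit 1) (.e (nat_lit 266812) (nat_lit 0) .nil) .nil))) 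
(.lf (nat_lit 539324) (.g (nat_lit 2101) (.e (nat_lit 73782) (nat_lit 32) (.e (nat_lit 2856) (nat_lit 184) (.e (nat_lit 426555) (nat_lit 32) (.e (nat_lit 376858) (nat_lit 21) .nil)))) (.g (nat_lit 0) (.e (nat_lit 268189) (nat_lit 0) .nil) .nil)))) (.nd (nat_lit 9) 
(.lf (nat_lit 539068) (.g (nat_lit 1578) (.e (nat_lit 73775) (nat_lit 26) (.e (nat_lit 778465) (nat_lit 11) (.e (nat_lit 24658) (nat_lit 13) (.e (nat_lit 393237) (nat_lit 17) .nil)))) (.g (nat_lit 0) (.e (nat_lit 267735) (nat_lit 0) .nil) .nil))) 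
(.lf (nat_lit 539580) (.g (nat_lit 1153) (.e (nat_lit 81938) (nat_lit 20) (.e (nat_lit 2281) (nat_lit 150) (.e (nat_lit 770072) (nat_lit 8) (.e (nat_lit 65616) (nat_lit 10) .nil)))) (.g (nat_lit 0) (.e (nat_lit 269013) (nat_lit 0) .nil) .nil)))))) (.nd (nat_lit 7) (.nd (nat_lit 8) (.nd (nat_lit 9) 
(.lf (nat_lit 538748) (.g (nat_lit 2880) (.e (nat_lit 73754) (nat_lit 8) (.e (nat_lit 557105) (nat_lit 14) (.e (nat_lit 180252) (nat_lit 10) (.e (nat_lit 573473) (nat_lit 12) (.e (nat_lit 57507) (nat_lit 39) (.e (nat_lit 655104) (nat_lit 0) (.e (nat_lit 2667) (nat_lit 167) (.e (nat_lit 196669) (nat_lit 14) .nil)))))))) (.g (nat_lit 1) (.e (nat_lit 266731) (nat_lit 0) .nil) .nil))) 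
(.lf (nat_lit 539260) (.g (nat_lit 2726) (.e (nat_lit 73781) (nat_lit 32) (.e (nat_lit 3090) (nat_lit 191) (.e (nat_lit 483399) (nat_lit 25) (.e (nat_lit 368662) (nat_lit 18) (.e (nat_lit 5906) (nat_lit 320) (.e (nat_lit 1211) (nat_lit 89) .nil)))))) (.g (nat_lit 1) (.e (nat_lit 268076) (nat_lit 0) .nil) .nil)))) (.nd (nat_lit 9) 
(.lf (nat_lit 539004) (.g (nat_lit 3693) (.e (nat_lit 73755) (nat_lit 8) (.e (nat_lit 557119) (nat_lit 18) (.e (nat_lit 2798) (nat_lit 180) (.e (nat_lit 303147) (nat_lit 15) (.e (nat_lit 1788) (nat_lit 119) (.e (nat_lit 516159) (nat_lit 10) (.e (nat_lit 434247) (nat_lit 28) (.e (nat_lit 573489) (nat_lit 14) .nil)))))))) (.g (nat_lit 1) (.e (nat_lit 267429) (nat_lit 0) .nil) .nil))) 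
(.lf (nat_lit 539516) (.g (nat_lit 993) (.e (nat_lit 89856) (nat_lit 0) (.e (nat_lit 3605) (nat_lit 225) (.e (nat_lit 761914) (nat_lit 18) (.e (nat_lit 188446) (nat_lit 21) .nil)))) (.g (nat_lit 0) (.e (nat_lit 268811) (nat_lit 0) .nil) .nil))))) (.nd (nat_lit 8) (.nd (nat_lit 9) 
(.lf (nat_lit 538876) (.g (nat_lit 2329) (.e (nat_lit 73755) (nat_lit 8) (.e (nat_lit 557104) (nat_lit 14) (.e (nat_lit 180251) (nat_lit 10) (.e (nat_lit 573475) (nat_lit 12) (.e (nat_lit 57503) (nat_lit 38) .nil))))) (.g (nat_lit 0) (.e (nat_lit 267033) (nat_lit 0) .nil) .nil))) 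
(.lf (nat_lit 539388) (.g (nat_lit 1446) (.e (nat_lit 81664) (nat_lit 32) (.e (nat_lit 3085) (nat_lit 191) (.e (nat_lit 483401) (nat_lit 25) (.e (nat_lit 368662) (nat_lit 18) (.e (nat_lit 5905) (nat_lit 320) .nil))))) (.g (nat_lit 0) (.e (nat_lit 268316) (nat_lit 0) .nil) .nil)))) (.nd (nat_lit 9) 
(.lf (nat_lit 539132) (.g (nat_lit 1783) (.e (nat_lit 73776) (nat_lit 26) (.e (nat_lit 778466) (nat_lit 11) (.e (nat_lit 24626) (nat_lit 9) (.e (nat_lit 336438) (nat_lit 31) (.e (nat_lit 466688) (nat_lit 5) .nil))))) (.g (nat_lit 1) (.e (nat_lit 267833) (nat_lit 0) .nil) .nil))) 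
(.lf (nat_lit 539644) (.g (nat_lit 616) (.e (nat_lit 81939) (nat_lit 20) (.e (nat_lit 2390) (nat_lit 156) (.e (nat_lit 819203) (nat_lit 0) (.e (nat_lit 2989) (nat_lit 186) (.e (nat_lit 450304) (nat_lit 2) (.e (nat_lit 98048) (nat_lit 6) .nil)))))) (.g (nat_lit 1) (.e (nat_lit 269089) (nat_lit 0) .nil) .nil))))))))))) 
(.nd (nat_lit 2) (.nd (nat_lit 3) (.nd (nat_lit 4) (.nd (nat_lit 5) (.nd (nat_lit 6) 
(.nd (nat_lit 7) (.nd (nat_lit 8) (.nd (nat_lit 9) 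
(.lf (nat_lit 538626) (.g (nat_lit 3333) (.e (nat_lit 73753) (nat_lit 8) (.e (nat_lit 557104) (nat_lit 14) (.e (nat_lit 180252) (nat_lit 10) (.e (nat_lit 573475) (nat_lit 12) (.e (nat_lit 57504) (nat_lit 38) .nil))))) (.g (nat_lit 0) (.e (nat_lit 266571) (nat_lit 0) .nil) .nil))) 
(.lf (nat_lit 539138) (.g (nat_lit 148) (.e (nat_lit 73777) (nat_lit 31) (.e (nat_lit 819203) (nat_lit 0) (.e (nat_lit 3015) (nat_lit 187) .nil))) (.g (nat_lit 0) (.e (nat_lit 267877) (nat_lit 0) .nil) .nil)))) (.nd (nat_lit 9) 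
(.lf (nat_lit 538882) (.g (nat_lit 2867) (.e (nat_lit 73755) (nat_lit 8) (.e (nat_lit 557104) (nat_lit 14) (.e (nat_lit 180252) (nat_lit 10) (.e (nat_lit 573474) (nat_lit 12) (.e (nat_lit 57500) (nat_lit 37) (.e (nat_lit 630800) (nat_lit 7) (.e (nat_lit 163979) (nat_lit 30) (.e (nat_lit 573489) (nat_lit 14) .nil)))))))) (.g (nat_lit 1) (.e (nat_lit 267044) (nat_lit 0) .nil) .nil))) 
(.lf (nat_lit 539394) (.g (nat_lit 243) (.e (nat_lit 81664) (nat_lit 35) (.e (nat_lit 163950) (nat_lit 21) (.e (nat_lit 507648) (nat_lit 20) .nil))) (.g (nat_lit 0) (.e (nat_lit 268339) (nat_lit 0) .nil) .nil))))) (.nd (nat_lit 8) (.nd (nat_lit 9) 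
(.lf (nat_lit 538754) (.g (nat_lit 2179) (.e (nat_lit 73754) (nat_lit 8) (.e (nat_lit 557105) (nat_lit 14) (.e (nat_lit 180252) (nat_lit 10) (.e (nat_lit 573474) (nat_lit 12) .nil)))) (.g (nat_lit 0) (.e (nat_lit 266737) (nat_lit 0) .nil) .nil))) 
(.lf (nat_lit 539266) (.g (nat_lit 3391) (.e (nat_lit 73781) (nat_lit 32) (.e (nat_lit 3090) (nat_lit 191) (.e (nat_lit 483403) (nat_lit 26) (.e (nat_lit 385093) (nat_lit 49) (.e (nat_lit 778324) (nat_lit 5) .nil))))) (.g (nat_lit 1) (.e (nat_lit 268082) (nat_lit 0) .nil) .nil)))) (.nd (nat_lit 9) 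
(.lf (nat_lit 539010) (.g (nat_lit 1547) (.e (nat_lit 73769) (nat_lit 20) (.e (nat_lit 655378) (nat_lit 4) (.e (nat_lit 172147) (nat_lit 27) (.e (nat_lit 335895) (nat_lit 0) (.e (nat_lit 6712) (nat_lit 360) .nil))))) (.g (nat_lit 0) (.e (nat_lit 267605) (nat_lit 0) .nil) .nil))) 
(.lf (nat_lit 539522) (.g (nat_lit 1176) (.e (nat_lit 89856) (nat_lit 3) (.e (nat_lit 204838) (nat_lit 20) (.e (nat_lit 114698) (nat_lit 11) (.e (nat_lit 426122) (nat_lit 2) .nil)))) (.g (nat_lit 0) (.e (nat_lit 268831) (nat_lit 0) .nil) .nil)))))) (.nd (nat_lit 7) (.nd (nat_lit 8) (.nd (nat_lit 9) 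
(.lf (nat_lit 538690) (.g (nat_lit 3665) (.e (nat_lit 73753) (nat_lit 8) (.e (nat_lit 557119) (nat_lit 18) (.e (nat_lit 2798) (nat_lit 180) (.e (nat_lit 303133) (nat_lit 9) (.e (nat_lit 426499) (nat_lit 27) (.e (nat_lit 336273) (nat_lit 15) (.e (nat_lit 7936) (nat_lit 407) .nil))))))) (.g (nat_lit 1) (.e (nat_lit 266650) (nat_lit 0) .nil) .nil))) 
(.lf (nat_lit 539202) (.g (nat_lit 1658) (.e (nat_lit 73781) (nat_lit 32) (.e (nat_lit 3089) (nat_lit 191) (.e (nat_lit 483379) (nat_lit 23) (.e (nat_lit 336332) (nat_lit 19) (.e (nat_lit 220928) (nat_lit 5) .nil))))) (.g (nat_lit 1) (.e (nat_lit 268018) (nat_lit 0) .nil) .nil)))) (.nd (nat_lit 9) 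
(.lf (nat_lit 538946) (.g (nat_lit 2656) (.e (nat_lit 73755) (nat_lit 8) (.e (nat_lit 557105) (nat_lit 14) (.e (nat_lit 180252) (nat_lit 10) (.e (nat_lit 573474) (nat_lit 12) (.e (nat_lit 57507) (nat_lit 39) (.e (nat_lit 655104) (nat_lit 0) (.e (nat_lit 2661) (nat_lit 167) (.e (nat_lit 196669) (nat_lit 14) .nil)))))))) (.g (nat_lit 1) (.e (nat_lit 267342) (nat_lit 0) .nil) .nil))) 
(.lf (nat_lit 539458) (.g (nat_lit 1155) (.e (nat_lit 81922) (nat_lit 0) (.e (nat_lit 3747) (nat_lit 228) (.e (nat_lit 786483) (nat_lit 30) (.e (nat_lit 368384) (nat_lit 0) .nil)))) (.g (nat_lit 0) (.e (nat_lit 268539) (nat_lit 0) .nil) .nil))))) (.nd (nat_lit 8) (.nd (nat_lit 9) 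
(.lf (nat_lit 538818) (.g (nat_lit 4923) (.e (nat_lit 73755) (nat_lit 8) (.e (nat_lit 557091) (nat_lit 12) (.e (nat_lit 163841) (nat_lit 0) (.e (nat_lit 5933) (nat_lit 322) (.e (nat_lit 57373) (nat_lit 2) (.e (nat_lit 90174) (nat_lit 14) (.e (nat_lit 180251) (nat_lit 10) (.e (nat_lit 573489) (nat_lit 14) .nil)))))))) (.g (nat_lit 1) (.e (nat_lit 266821) (nat_lit 0) .nil) .nil))) 
(.lf (nat_lit 539330) (.g (nat_lit 3241) (.e (nat_lit 73782) (nat_lit 32) (.e (nat_lit 2856) (nat_lit 184) (.e (nat_lit 426555) (nat_lit 32) (.e (nat_lit 376860) (nat_lit 21) (.e (nat_lit 57870) (nat_lit 264) (.e (nat_lit 1210) (nat_lit 89) .nil)))))) (.g (nat_lit 1) (.e (nat_lit 268195) (nat_lit 0) .nil) .nil)))) (.nd (nat_lit 9) 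
(.lf (nat_lit 539074) (.g (nat_lit 1127) (.e (nat_lit 73775) (nat_lit 26) (.e (nat_lit 778466) (nat_lit 11) (.e (nat_lit 24623) (nat_lit 9) (.e (nat_lit 336414) (nat_lit 27) .nil)))) (.g (nat_lit 0) (.e (nat_lit 267756) (nat_lit 0) .nil) .nil))) 
(.lf (nat_lit 539586) (.g (nat_lit 1187) (.e (nat_lit 81938) (nat_lit 20) (.e (nat_lit 2390) (nat_lit 156) (.e (nat_lit 819203) (nat_lit 0) (.e (nat_lit 3022) (nat_lit 187) (.e (nat_lit 458496) (nat_lit 8) (.e (nat_lit 564992) (nat_lit 6) .nil)))))) (.g (nat_lit 1) (.e (nat_lit 269020) (nat_lit 0) .nil) .nil))))))) (.nd (nat_lit 6) (.nd (nat_lit 7) (.nd (nat_lit 8) (.nd (nat_lit 9) 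
(.lf (nat_lit 538658) (.g (nat_lit 3163) (.e (nat_lit 73753) (nat_lit 8) (.e (nat_lit 557105) (nat_lit 14) (.e (nat_lit 180252) (nat_lit 10) (.e (nat_lit 573474) (nat_lit 12) (.e (nat_lit 57505) (nat_lit 39) .nil))))) (.g (nat_lit 0) (.e (nat_lit 266611) (nat_lit 0) .nil) .nil))) 
(.lf (nat_lit 539170) (.g (nat_lit 1618) (.e (nat_lit 73781) (nat_lit 32) (.e (nat_lit 2856) (nat_lit 184) (.e (nat_lit 426540) (nat_lit 29) (.e (nat_lit 352267) (nat_lit 0) .nil)))) (.g (nat_lit 0) (.e (nat_lit 267985) (nat_lit 0) .nil) .nil)))) (.nd (nat_lit 9) 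
(.lf (nat_lit 538914) (.g (nat_lit 2184) (.e (nat_lit 73755) (nat_lit 8) (.e (nat_lit 557105) (nat_lit 14) (.e (nat_lit 180252) (nat_lit 10) (.e (nat_lit 573453) (nat_lit 9) .nil)))) (.g (nat_lit 0) (.e (nat_lit 267217) (nat_lit 0) .nil) .nil))) 
(.lf (nat_lit 539426) (.g (nat_lit 1457) (.e (nat_lit 81920) (nat_lit 0) (.e (nat_lit 3715) (nat_lit 227) (.e (nat_lit 778325) (nat_lit 6) (.e (nat_lit 81924) (nat_lit 0) (.e (nat_lit 3632) (nat_lit 227) (.e (nat_lit 778327) (nat_lit 6) .nil)))))) (.g (nat_lit 1) (.e (nat_lit 268446) (nat_lit 0) .nil) .nil))))) (.nd (nat_lit 8) (.nd (nat_lit 9) 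
(.lf (nat_lit 538786) (.g (nat_lit 2442) (.e (nat_lit 73754) (nat_lit 8) (.e (nat_lit 557105) (nat_lit 14) (.e (nat_lit 180252) (nat_lit 10) (.e (nat_lit 573495) (nat_lit 16) .nil)))) (.g (nat_lit 0) (.e (nat_lit 266770) (nat_lit 0) .nil) .nil))) 
(.lf (nat_lit 539298) (.g (nat_lit 3003) (.e (nat_lit 73782) (nat_lit 32) (.e (nat_lit 2856) (nat_lit 184) (.e (nat_lit 426538) (nat_lit 29) (.e (nat_lit 352318) (nat_lit 24) (.e (nat_lit 123182) (nat_lit 264) (.e (nat_lit 1212) (nat_lit 89) .nil)))))) (.g (nat_lit 1) (.e (nat_lit 268163) (nat_lit 0) .nil) .nil)))) (.nd (nat_lit 9) 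
(.lf (nat_lit 539042) (.g (nat_lit 1569) (.e (nat_lit 73775) (nat_lit 26) (.e (nat_lit 778465) (nat_lit 11) (.e (nat_lit 24623) (nat_lit 9) (.e (nat_lit 336400) (nat_lit 27) .nil)))) (.g (nat_lit 0) (.e (nat_lit 267705) (nat_lit 0) .nil) .nil))) 
(.lf (nat_lit 539554) (.g (nat_lit 1356) (.e (nat_lit 81934) (nat_lit 20) (.e (nat_lit 1996) (nat_lit 137) (.e (nat_lit 663569) (nat_lit 6) (.e (nat_lit 81943) (nat_lit 20) (.e (nat_lit 2006) (nat_lit 138) (.e (nat_lit 671764) (nat_lit 6) .nil)))))) (.g (nat_lit 1) (.e (nat_lit 268947) (nat_lit 0) .nil) .nil)))))) (.nd (nat_lit 7) (.nd (nat_lit 8) (.nd (nat_lit 9) 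
(.lf (nat_lit 538722) (.g (nat_lit 2853) (.e (nat_lit 73754) (nat_lit 8) (.e (nat_lit 557105) (nat_lit 14) (.e (nat_lit 180245) (nat_lit 5) (.e (nat_lit 532503) (nat_lit 1) (.e (nat_lit 65280) (nat_lit 168) (.e (nat_lit 163867) (nat_lit 2) (.e (nat_lit 196670) (nat_lit 14) .nil))))))) (.g (nat_lit 1) (.e (nat_lit 266700) (nat_lit 0) .nil) .nil))) 
(.lf (nat_lit 539234) (.g (nat_lit 2903) (.e (nat_lit 73781) (nat_lit 32) (.e (nat_lit 3090) (nat_lit 191) (.e (nat_lit 483383) (nat_lit 23) (.e (nat_lit 336240) (nat_lit 15) (.e (nat_lit 3637) (nat_lit 227) (.e (nat_lit 778324) (nat_lit 5) .nil)))))) (.g (nat_lit 1) (.e (nat_lit 268050) (nat_lit 0) .nil) .nil)))) (.nd (nat_lit 9) 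
(.lf (nat_lit 538978) (.g (nat_lit 2835) (.e (nat_lit 73755) (nat_lit 8) (.e (nat_lit 557119) (nat_lit 18) (.e (nat_lit 2797) (nat_lit 180) (.e (nat_lit 303145) (nat_lit 13) (.e (nat_lit 483335) (nat_lit 0) (.e (nat_lit 7936) (nat_lit 407) .nil)))))) (.g (nat_lit 1) (.e (nat_lit 267389) (nat_lit 0) .nil) .nil))) 
(.lf (nat_lit 539490) (.g (nat_lit 2722) (.e (nat_lit 81924) (nat_lit 0) (.e (nat_lit 3747) (nat_lit 228) (.e (nat_lit 786478) (nat_lit 29) (.e (nat_lit 352262) (nat_lit 0) (.e (nat_lit 3632) (nat_lit 227) (.e (nat_lit 778326) (nat_lit 6) .nil)))))) (.g (nat_lit 1) (.e (nat_lit 268649) (nat_lit 0) .nil) .nil))))) (.nd (nat_lit 8) (.nd (nat_lit 9) 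
(.lf (nat_lit 538850) (.g (nat_lit 2431) (.e (nat_lit 73755) (nat_lit 8) (.e (nat_lit 557104) (nat_lit 14) (.e (nat_lit 180244) (nat_lit 5) (.e (nat_lit 532481) (nat_lit 0) (.e (nat_lit 2267) (nat_lit 149) .nil))))) (.g (nat_lit 0) (.e (nat_lit 266916) (nat_lit 0) .nil) .nil))) 
(.lf (nat_lit 539362) (.g (nat_lit 3565) (.e (nat_lit 73782) (nat_lit 32) (.e (nat_lit 3090) (nat_lit 191) (.e (nat_lit 483387) (nat_lit 23) (.e (nat_lit 336282) (nat_lit 15) (.e (nat_lit 3632) (nat_lit 227) (.e (nat_lit 778323) (nat_lit 5) .nil)))))) (.g (nat_lit 1) (.e (nat_lit 268227) (nat_lit 0) .nil) .nil)))) (.nd (nat_lit 9) 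
(.lf (nat_lit 539106) (.g (nat_lit 1476) (.e (nat_lit 73775) (nat_lit 26) (.e (nat_lit 778466) (nat_lit 11) (.e (nat_lit 24636) (nat_lit 9) (.e (nat_lit 336435) (nat_lit 31) (.e (nat_lit 466688) (nat_lit 5) .nil))))) (.g (nat_lit 1) (.e (nat_lit 267795) (nat_lit 0) .nil) .nil))) 
(.lf (nat_lit 539618) (.g (nat_lit 1853) (.e (nat_lit 81938) (nat_lit 20) (.e (nat_lit 2391) (nat_lit 156) (.e (nat_lit 819204) (nat_lit 0) (.e (nat_lit 3016) (nat_lit 187) (.e (nat_lit 450584) (nat_lit 9) (.e (nat_lit 573184) (nat_lit 6) .nil)))))) (.g (nat_lit 1) (.e (nat_lit 269053) (nat_lit 0) .nil) .nil)))))))) 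
(.nd (nat_lit 5) (.nd (nat_lit 6) (.nd (nat_lit 7) (.nd (nat_lit 8) (.nd (nat_lit 9) 
(.lf (nat_lit 538642) (.g (nat_lit 3002) (.e (nat_lit 73753) (nat_lit 8) (.e (nat_lit 557105) (nat_lit 14) (.e (nat_lit 180252) (nat_lit 10) (.e (nat_lit 573451) (nat_lit 9) (.e (nat_lit 1174) (nat_lit 87) .nil))))) (.g (nat_lit 0) (.e (nat_lit 266593) (nat_lit 0) .nil) .nil))) 
(.lf (nat_lit 539154) (.g (nat_lit 2803) (.e (nat_lit 73781) (nat_lit 32) (.e (nat_lit 2664) (nat_lit 167) (.e (nat_lit 196674) (nat_lit 15) (.e (nat_lit 81947) (nat_lit 20) (.e (nat_lit 1842) (nat_lit 123) (.e (nat_lit 548890) (nat_lit 10) .nil)))))) (.g (nat_lit 1) (.e (nat_lit 267955) (nat_lit 0) .nil) .nil)))) (.nd (nat_lit 9) 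
(.lf (nat_lit 538898) (.g (nat_lit 3563) (.e (nat_lit 73755) (nat_lit 8) (.e (nat_lit 557105) (nat_lit 14) (.e (nat_lit 180250) (nat_lit 10) (.e (nat_lit 573475) (nat_lit 12) (.e (nat_lit 57503) (nat_lit 38) (.e (nat_lit 638995) (nat_lit 7) (.e (nat_lit 163977) (nat_lit 30) (.e (nat_lit 573489) (nat_lit 14) .nil)))))))) (.g (nat_lit 1) (.e (nat_lit 267135) (nat_lit 0) .nil) .nil))) 
(.lf (nat_lit 539410) (.g (nat_lit 652) (.e (nat_lit 73789) (nat_lit 45) (.e (nat_lit 1162) (nat_lit 86) (.e (nat_lit 49156) (nat_lit 0) (.e (nat_lit 2984) (nat_lit 186) (.e (nat_lit 450304) (nat_lit 2) (.e (nat_lit 98048) (nat_lit 5) .nil)))))) (.g (nat_lit 1) (.e (nat_lit 268419) (nat_lit 0) .nil) .nil))))) (.nd (nat_lit 8) (.nd (nat_lit 9) 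
(.lf (nat_lit 538770) (.g (nat_lit 2397) (.e (nat_lit 73754) (nat_lit 8) (.e (nat_lit 557105) (nat_lit 14) (.e (nat_lit 180252) (nat_lit 10) (.e (nat_lit 573475) (nat_lit 12) (.e (nat_lit 57507) (nat_lit 39) (.e (nat_lit 655104) (nat_lit 0) (.e (nat_lit 2656) (nat_lit 167) (.e (nat_lit 196667) (nat_lit 14) .nil)))))))) (.g (nat_lit 1) (.e (nat_lit 266754) (nat_lit 0) .nil) .nil))) 
(.lf (nat_lit 539282) (.g (nat_lit 3155) (.e (nat_lit 73782) (nat_lit 32) (.e (nat_lit 2664) (nat_lit 167) (.e (nat_lit 196666) (nat_lit 13) (.e (nat_lit 65622) (nat_lit 12) (.e (nat_lit 385074) (nat_lit 31) (.e (nat_lit 573489) (nat_lit 14) .nil)))))) (.g (nat_lit 1) (.e (nat_lit 268126) (nat_lit 0) .nil) .nil)))) (.nd (nat_lit 9) 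
(.lf (nat_lit 539026) (.g (nat_lit 1266) (.e (nat_lit 73775) (nat_lit 26) (.e (nat_lit 778463) (nat_lit 11) (.e (nat_lit 24657) (nat_lit 13) (.e (nat_lit 393242) (nat_lit 17) (.e (nat_lit 7936) (nat_lit 407) .nil))))) (.g (nat_lit 1) (.e (nat_lit 267683) (nat_lit 0) .nil) .nil))) 
(.lf (nat_lit 539538) (.g (nat_lit 2596) (.e (nat_lit 81927) (nat_lit 11) (.e (nat_lit 426500) (nat_lit 27) (.e (nat_lit 335995) (nat_lit 1) (.e (nat_lit 57930) (nat_lit 282) (.e (nat_lit 163869) (nat_lit 2) (.e (nat_lit 196672) (nat_lit 15) .nil)))))) (.g (nat_lit 1) (.e (nat_lit 268873) (nat_lit 0) .nil) .nil)))))) (.nd (nat_lit 7) (.nd (nat_lit 8) (.nd (nat_lit 9) 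
(.lf (nat_lit 538706) (.g (nat_lit 3292) (.e (nat_lit 73753) (nat_lit 8) (.e (nat_lit 557119) (nat_lit 18) (.e (nat_lit 2798) (nat_lit 180) (.e (nat_lit 303145) (nat_lit 13) (.e (nat_lit 483335) (nat_lit 0) (.e (nat_lit 7936) (nat_lit 407) .nil)))))) (.g (nat_lit 1) (.e (nat_lit 266666) (nat_lit 0) .nil) .nil))) 
(.lf (nat_lit 539218) (.g (nat_lit 2979) (.e (nat_lit 73781) (nat_lit 32) (.e (nat_lit 3090) (nat_lit 191) (.e (nat_lit 483378) (nat_lit 23) (.e (nat_lit 335997) (nat_lit 1) (.e (nat_lit 57872) (nat_lit 264) (.e (nat_lit 1209) (nat_lit 89) .nil)))))) (.g (nat_lit 1) (.e (nat_lit 268034) (nat_lit 0) .nil) .nil)))) (.nd (nat_lit 9) 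
(.lf (nat_lit 538962) (.g (nat_lit 2997) (.e (nat_lit 73755) (nat_lit 8) (.e (nat_lit 557105) (nat_lit 14) (.e (nat_lit 180252) (nat_lit 10) (.e (nat_lit 573475) (nat_lit 12) (.e (nat_lit 57504) (nat_lit 38) (.e (nat_lit 638994) (nat_lit 7) (.e (nat_lit 163976) (nat_lit 30) (.e (nat_lit 573488) (nat_lit 14) .nil)))))))) (.g (nat_lit 1) (.e (nat_lit 267365) (nat_lit 0) .nil) .nil))) 
(.lf (nat_lit 539474) (.g (nat_lit 413) (.e (nat_lit 81924) (nat_lit 0) (.e (nat_lit 3305) (nat_lit 202) (.e (nat_lit 573491) (nat_lit 15) .nil))) (.g (nat_lit 0) (.e (nat_lit 268623) (nat_lit 0) .nil) .nil))))) (.nd (nat_lit 8) (.nd (nat_lit 9) 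
(.lf (nat_lit 538834) (.g (nat_lit 415) (.e (nat_lit 73755) (nat_lit 8) (.e (nat_lit 557098) (nat_lit 13) (.e (nat_lit 172140) (nat_lit 22) .nil))) (.g (nat_lit 0) (.e (nat_lit 266869) (nat_lit 0) .nil) .nil))) 
(.lf (nat_lit 539346) (.g (nat_lit 1923) (.e (nat_lit 73782) (nat_lit 32) (.e (nat_lit 3089) (nat_lit 191) (.e (nat_lit 483383) (nat_lit 23) (.e (nat_lit 336330) (nat_lit 19) (.e (nat_lit 220928) (nat_lit 5) .nil))))) (.g (nat_lit 1) (.e (nat_lit 268211) (nat_lit 0) .nil) .nil)))) (.nd (nat_lit 9) 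
(.lf (nat_lit 539090) (.g (nat_lit 1835) (.e (nat_lit 73775) (nat_lit 26) (.e (nat_lit 778466) (nat_lit 11) (.e (nat_lit 24628) (nat_lit 9) (.e (nat_lit 336423) (nat_lit 28) (.e (nat_lit 442112) (nat_lit 5) .nil))))) (.g (nat_lit 1) (.e (nat_lit 267775) (nat_lit 0) .nil) .nil))) 
(.lf (nat_lit 539602) (.g (nat_lit 1209) (.e (nat_lit 81938) (nat_lit 20) (.e (nat_lit 2390) (nat_lit 156) (.e (nat_lit 819221) (nat_lit 6) (.e (nat_lit 188431) (nat_lit 20) (.e (nat_lit 3281) (nat_lit 200) (.e (nat_lit 564992) (nat_lit 6) .nil)))))) (.g (nat_lit 1) (.e (nat_lit 269036) (nat_lit 0) .nil) .nil))))))) (.nd (nat_lit 6) (.nd (nat_lit 7) (.nd (nat_lit 8) (.nd (nat_lit 9) 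
(.lf (nat_lit 538674) (.g (nat_lit 2410) (.e (nat_lit 73753) (nat_lit 8) (.e (nat_lit 557105) (nat_lit 14) (.e (nat_lit 180252) (nat_lit 10) (.e (nat_lit 573495) (nat_lit 16) .nil)))) (.g (nat_lit 0) (.e (nat_lit 266632) (nat_lit 0) .nil) .nil))) 
(.lf (nat_lit 539186) (.g (nat_lit 1563) (.e (nat_lit 73781) (nat_lit 32) (.e (nat_lit 3087) (nat_lit 191) (.e (nat_lit 483383) (nat_lit 23) (.e (nat_lit 336332) (nat_lit 19) (.e (nat_lit 220928) (nat_lit 5) .nil))))) (.g (nat_lit 1) (.e (nat_lit 268002) (nat_lit 0) .nil) .nil)))) (.nd (nat_lit 9) 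
(.lf (nat_lit 538930) (.g (nat_lit 5189) (.e (nat_lit 73755) (nat_lit 8) (.e (nat_lit 557105) (nat_lit 14) (.e (nat_lit 180252) (nat_lit 10) (.e (nat_lit 573474) (nat_lit 12) (.e (nat_lit 57500) (nat_lit 37) (.e (nat_lit 630799) (nat_lit 7) (.e (nat_lit 163978) (nat_lit 30) (.e (nat_lit 573489) (nat_lit 14) .nil)))))))) (.g (nat_lit 1) (.e (nat_lit 267326) (nat_lit 0) .nil) .nil))) 
(.lf (nat_lit 539442) (.g (nat_lit 1801) (.e (nat_lit 81922) (nat_lit 0) (.e (nat_lit 3631) (nat_lit 227) (.e (nat_lit 778326) (nat_lit 6) (.e (nat_lit 81924) (nat_lit 0) (.e (nat_lit 3632) (nat_lit 227) (.e (nat_lit 778327) (nat_lit 6) .nil)))))) (.g (nat_lit 1) (.e (nat_lit 268508) (nat_lit 0) .nil) .nil))))) (.nd (nat_lit 8) (.nd (nat_lit 9) 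
(.lf (nat_lit 538802) (.g (nat_lit 600) (.e (nat_lit 73755) (nat_lit 8) (.e (nat_lit 557067) (nat_lit 9) (.e (nat_lit 3063) (nat_lit 190) .nil))) (.g (nat_lit 0) (.e (nat_lit 266793) (nat_lit 0) .nil) .nil))) 
(.lf (nat_lit 539314) (.g (nat_lit 2835) (.e (nat_lit 73782) (nat_lit 32) (.e (nat_lit 2856) (nat_lit 184) (.e (nat_lit 426542) (nat_lit 29) (.e (nat_lit 352317) (nat_lit 24) (.e (nat_lit 123182) (nat_lit 264) (.e (nat_lit 1212) (nat_lit 89) .nil)))))) (.g (nat_lit 1) (.e (nat_lit 268179) (nat_lit 0) .nil) .nil)))) (.nd (nat_lit 9) 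
(.lf (nat_lit 539058) (.g (nat_lit 1269) (.e (nat_lit 73775) (nat_lit 26) (.e (nat_lit 778465) (nat_lit 11) (.e (nat_lit 24627) (nat_lit 9) (.e (nat_lit 336414) (nat_lit 27) .nil)))) (.g (nat_lit 0) (.e (nat_lit 267722) (nat_lit 0) .nil) .nil))) 
(.lf (nat_lit 539570) (.g (nat_lit 1078) (.e (nat_lit 81938) (nat_lit 20) (.e (nat_lit 1886) (nat_lit 127) (.e (nat_lit 581652) (nat_lit 5) (.e (nat_lit 180285) (nat_lit 45) (.e (nat_lit 2578) (nat_lit 161) (.e (nat_lit 48896) (nat_lit 6) .nil)))))) (.g (nat_lit 1) (.e (nat_lit 269001) (nat_lit 0) .nil) .nil)))))) (.nd (nat_lit 7) (.nd (nat_lit 8) (.nd (nat_lit 9) 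
(.lf (nat_lit 538738) (.g (nat_lit 2645) (.e (nat_lit 73754) (nat_lit 8) (.e (nat_lit 557105) (nat_lit 14) (.e (nat_lit 180252) (nat_lit 10) (.e (nat_lit 573459) (nat_lit 9) .nil)))) (.g (nat_lit 0) (.e (nat_lit 266721) (nat_lit 0) .nil) .nil))) 
(.lf (nat_lit 539250) (.g (nat_lit 3362) (.e (nat_lit 73781) (nat_lit 32) (.e (nat_lit 3090) (nat_lit 191) (.e (nat_lit 483395) (nat_lit 24) (.e (nat_lit 344097) (nat_lit 18) (.e (nat_lit 5905) (nat_lit 320) (.e (nat_lit 1209) (nat_lit 89) .nil)))))) (.g (nat_lit 1) (.e (nat_lit 268066) (nat_lit 0) .nil) .nil)))) (.nd (nat_lit 9) 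
(.lf (nat_lit 538994) (.g (nat_lit 1680) (.e (nat_lit 73755) (nat_lit 8) (.e (nat_lit 557119) (nat_lit 18) (.e (nat_lit 2798) (nat_lit 180) (.e (nat_lit 303144) (nat_lit 13) .nil)))) (.g (nat_lit 0) (.e (nat_lit 267407) (nat_lit 0) .nil) .nil))) 
(.lf (nat_lit 539506) (.g (nat_lit 1214) (.e (nat_lit 89856) (nat_lit 0) (.e (nat_lit 3604) (nat_lit 225) (.e (nat_lit 761906) (nat_lit 16) (.e (nat_lit 172097) (nat_lit 9) (.e (nat_lit 426109) (nat_lit 1) .nil))))) (.g (nat_lit 0) (.e (nat_lit 268786) (nat_lit 0) .nil) .nil))))) (.nd (nat_lit 8) (.nd (nat_lit 9) 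
(.lf (nat_lit 538866) (.g (nat_lit 3037) (.e (nat_lit 73755) (nat_lit 8) (.e (nat_lit 557104) (nat_lit 14) (.e (nat_lit 180250) (nat_lit 10) (.e (nat_lit 573473) (nat_lit 12) (.e (nat_lit 57504) (nat_lit 38) (.e (nat_lit 638996) (nat_lit 7) (.e (nat_lit 163977) (nat_lit 30) (.e (nat_lit 573489) (nat_lit 14) .nil)))))))) (.g (nat_lit 1) (.e (nat_lit 267023) (nat_lit 0) .nil) .nil))) 
(.lf (nat_lit 539378) (.g (nat_lit 2159) (.e (nat_lit 81664) (nat_lit 32) (.e (nat_lit 2668) (nat_lit 167) (.e (nat_lit 196666) (nat_lit 13) (.e (nat_lit 65583) (nat_lit 7) .nil)))) (.g (nat_lit 0) (.e (nat_lit 268260) (nat_lit 0) .nil) .nil)))) (.nd (nat_lit 9) 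
(.lf (nat_lit 539122) (.g (nat_lit 2399) (.e (nat_lit 73776) (nat_lit 26) (.e (nat_lit 778465) (nat_lit 11) (.e (nat_lit 24625) (nat_lit 9) (.e (nat_lit 336438) (nat_lit 31) (.e (nat_lit 466688) (nat_lit 5) .nil))))) (.g (nat_lit 1) (.e (nat_lit 267816) (nat_lit 0) .nil) .nil))) 
(.lf (nat_lit 539634) (.g (nat_lit 380) (.e (nat_lit 81939) (nat_lit 20) (.e (nat_lit 1842) (nat_lit 123) (.e (nat_lit 548889) (nat_lit 9) .nil))) (.g (nat_lit 0) (.e (nat_lit 269074) (nat_lit 0) .nil) .nil))))))))) (.nd (nat_lit 4) (.nd (nat_lit 5) (.nd (nat_lit 6) (.nd (nat_lit 7) (.nd (nat_lit 8) (.nd (nat_lit 9) 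
(.lf (nat_lit 538634) (.g (nat_lit 2794) (.e (nat_lit 73753) (nat_lit 8) (.e (nat_lit 557105) (nat_lit 14) (.e (nat_lit 180251) (nat_lit 10) (.e (nat_lit 573475) (nat_lit 12) (.e (nat_lit 57504) (nat_lit 38) .nil))))) (.g (nat_lit 0) (.e (nat_lit 266581) (nat_lit 0) .nil) .nil))) 
(.lf (nat_lit 539146) (.g (nat_lit 1481) (.e (nat_lit 73781) (nat_lit 32) (.e (nat_lit 2663) (nat_lit 167) (.e (nat_lit 196668) (nat_lit 14) (.e (nat_lit 73782) (nat_lit 32) .nil)))) (.g (nat_lit 0) (.e (nat_lit 267930) (nat_lit 0) .nil) .nil)))) (.nd (nat_lit 9) 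
(.lf (nat_lit 538890) (.g (nat_lit 3070) (.e (nat_lit 73755) (nat_lit 8) (.e (nat_lit 557104) (nat_lit 14) (.e (nat_lit 180252) (nat_lit 10) (.e (nat_lit 573475) (nat_lit 12) (.e (nat_lit 57502) (nat_lit 38) (.e (nat_lit 638994) (nat_lit 7) (.e (nat_lit 163979) (nat_lit 30) (.e (nat_lit 573489) (nat_lit 14) .nil)))))))) (.g (nat_lit 1) (.e (nat_lit 267052) (nat_lit 0) .nil) .nil))) 
(.lf (nat_lit 539402) (.g (nat_lit 1844) (.e (nat_lit 81664) (nat_lit 43) (.e (nat_lit 57464) (nat_lit 23) (.e (nat_lit 516139) (nat_lit 7) (.e (nat_lit 409647) (nat_lit 18) (.e (nat_lit 303117) (nat_lit 2) .nil))))) (.g (nat_lit 0) (.e (nat_lit 268402) (nat_lit 0) .nil) .nil))))) (.nd (nat_lit 8) (.nd (nat_lit 9) 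
(.lf (nat_lit 538762) (.g (nat_lit 3163) (.e (nat_lit 73754) (nat_lit 8) (.e (nat_lit 557105) (nat_lit 14) (.e (nat_lit 180252) (nat_lit 10) (.e (nat_lit 573475) (nat_lit 12) (.e (nat_lit 57503) (nat_lit 38) (.e (nat_lit 638994) (nat_lit 7) (.e (nat_lit 163975) (nat_lit 30) (.e (nat_lit 573487) (nat_lit 14) .nil)))))))) (.g (nat_lit 1) (.e (nat_lit 266746) (nat_lit 0) .nil) .nil))) 
(.lf (nat_lit 539274) (.g (nat_lit 1953) (.e (nat_lit 73781) (nat_lit 32) (.e (nat_lit 3090) (nat_lit 191) (.e (nat_lit 483403) (nat_lit 26) (.e (nat_lit 392960) (nat_lit 49) .nil)))) (.g (nat_lit 0) (.e (nat_lit 268090) (nat_lit 0) .nil) .nil)))) (.nd (nat_lit 9) 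
(.lf (nat_lit 539018) (.g (nat_lit 1835) (.e (nat_lit 73773) (nat_lit 25) (.e (nat_lit 770072) (nat_lit 8) (.e (nat_lit 65599) (nat_lit 9) (.e (nat_lit 336417) (nat_lit 27) (.e (nat_lit 426035) (nat_lit 0) (.e (nat_lit 7936) (nat_lit 407) .nil)))))) (.g (nat_lit 1) (.e (nat_lit 267653) (nat_lit 0) .nil) .nil))) 
(.lf (nat_lit 539530) (.g (nat_lit 411) (.e (nat_lit 81927) (nat_lit 11) (.e (nat_lit 426098) (nat_lit 1) (.e (nat_lit 164179) (nat_lit 154) .nil))) (.g (nat_lit 0) (.e (nat_lit 268856) (nat_lit 0) .nil) .nil)))))) (.nd (nat_lit 7) (.nd (nat_lit 8) (.nd (nat_lit 9) 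
(.lf (nat_lit 538698) (.g (nat_lit 1364) (.e (nat_lit 73753) (nat_lit 8) (.e (nat_lit 557119) (nat_lit 18) (.e (nat_lit 2798) (nat_lit 180) (.e (nat_lit 303144) (nat_lit 13) .nil)))) (.g (nat_lit 0) (.e (nat_lit 266658) (nat_lit 0) .nil) .nil))) 
(.lf (nat_lit 539210) (.g (nat_lit 1288) (.e (nat_lit 73781) (nat_lit 32) (.e (nat_lit 3089) (nat_lit 191) (.e (nat_lit 483391) (nat_lit 23) (.e (nat_lit 336331) (nat_lit 19) (.e (nat_lit 220928) (nat_lit 5) .nil))))) (.g (nat_lit 1) (.e (nat_lit 268026) (nat_lit 0) .nil) .nil)))) (.nd (nat_lit 9) 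
(.lf (nat_lit 538954) (.g (nat_lit 2704) (.e (nat_lit 73755) (nat_lit 8) (.e (nat_lit 557105) (nat_lit 14) (.e (nat_lit 180252) (nat_lit 10) (.e (nat_lit 573474) (nat_lit 12) (.e (nat_lit 57511) (nat_lit 39) (.e (nat_lit 647171) (nat_lit 0) (.e (nat_lit 2663) (nat_lit 167) (.e (nat_lit 196669) (nat_lit 14) .nil)))))))) (.g (nat_lit 1) (.e (nat_lit 267353) (nat_lit 0) .nil) .nil))) 
(.lf (nat_lit 539466) (.g (nat_lit 2069) (.e (nat_lit 81924) (nat_lit 0) (.e (nat_lit 3304) (nat_lit 202) (.e (nat_lit 573482) (nat_lit 13) (.e (nat_lit 65628) (nat_lit 14) (.e (nat_lit 401425) (nat_lit 2) .nil))))) (.g (nat_lit 0) (.e (nat_lit 268584) (nat_lit 0) .nil) .nil))))) (.nd (nat_lit 8) (.nd (nat_lit 9) 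
(.lf (nat_lit 538826) (.g (nat_lit 631) (.e (nat_lit 73755) (nat_lit 8) (.e (nat_lit 557098) (nat_lit 13) (.e (nat_lit 172045) (nat_lit 0) .nil))) (.g (nat_lit 0) (.e (nat_lit 266854) (nat_lit 0) .nil) .nil))) 
(.lf (nat_lit 539338) (.g (nat_lit 2090) (.e (nat_lit 73782) (nat_lit 32) (.e (nat_lit 3088) (nat_lit 191) (.e (nat_lit 483385) (nat_lit 23) (.e (nat_lit 336332) (nat_lit 19) (.e (nat_lit 220928) (nat_lit 5) .nil))))) (.g (nat_lit 1) (.e (nat_lit 268203) (nat_lit 0) .nil) .nil)))) (.nd (nat_lit 9) 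
(.lf (nat_lit 539082) (.g (nat_lit 2067) (.e (nat_lit 73775) (nat_lit 26) (.e (nat_lit 778466) (nat_lit 11) (.e (nat_lit 24625) (nat_lit 9) (.e (nat_lit 336438) (nat_lit 31) (.e (nat_lit 466688) (nat_lit 5) .nil))))) (.g (nat_lit 1) (.e (nat_lit 267765) (nat_lit 0) .nil) .nil))) 
(.lf (nat_lit 539594) (.g (nat_lit 1542) (.e (nat_lit 81938) (nat_lit 20) (.e (nat_lit 2390) (nat_lit 156) (.e (nat_lit 819204) (nat_lit 0) (.e (nat_lit 3022) (nat_lit 187) (.e (nat_lit 458496) (nat_lit 8) (.e (nat_lit 564992) (nat_lit 6) .nil)))))) (.g (nat_lit 1) (.e (nat_lit 269028) (nat_lit 0) .nil) .nil))))))) (.nd (nat_lit 6) (.nd (nat_lit 7) (.nd (nat_lit 8) (.nd (nat_lit 9) 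
(.lf (nat_lit 538666) (.g (nat_lit 3231) (.e (nat_lit 73753) (nat_lit 8) (.e (nat_lit 557105) (nat_lit 14) (.e (nat_lit 180252) (nat_lit 10) (.e (nat_lit 573474) (nat_lit 12) (.e (nat_lit 57513) (nat_lit 40) .nil))))) (.g (nat_lit 0) (.e (nat_lit 266620) (nat_lit 0) .nil) .nil))) 
(.lf (nat_lit 539178) (.g (nat_lit 1494) (.e (nat_lit 73781) (nat_lit 32) (.e (nat_lit 2857) (nat_lit 184) (.e (nat_lit 426540) (nat_lit 29) (.e (nat_lit 352258) (nat_lit 0) (.e (nat_lit 3716) (nat_lit 227) (.e (nat_lit 778322) (nat_lit 5) .nil)))))) (.g (nat_lit 1) (.e (nat_lit 267993) (nat_lit 0) .nil) .nil)))) (.nd (nat_lit 9) 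
(.lf (nat_lit 538922) (.g (nat_lit 5536) (.e (nat_lit 73755) (nat_lit 8) (.e (nat_lit 557105) (nat_lit 14) (.e (nat_lit 180252) (nat_lit 10) (.e (nat_lit 573473) (nat_lit 12) (.e (nat_lit 57504) (nat_lit 38) (.e (nat_lit 638995) (nat_lit 7) (.e (nat_lit 163978) (nat_lit 30) (.e (nat_lit 573489) (nat_lit 14) .nil)))))))) (.g (nat_lit 1) (.e (nat_lit 267261) (nat_lit 0) .nil) .nil))) 
(.lf (nat_lit 539434) (.g (nat_lit 416) (.e (nat_lit 81921) (nat_lit 0) (.e (nat_lit 3716) (nat_lit 227) (.e (nat_lit 778325) (nat_lit 6) (.e (nat_lit 81921) (nat_lit 0) (.e (nat_lit 3716) (nat_lit 227) (.e (nat_lit 778325) (nat_lit 6) .nil)))))) (.g (nat_lit 1) (.e (nat_lit 268455) (nat_lit 0) .nil) .nil))))) (.nd (nat_lit 8) (.nd (nat_lit 9) 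
(.lf (nat_lit 538794) (.g (nat_lit 2586) (.e (nat_lit 73754) (nat_lit 8) (.e (nat_lit 557119) (nat_lit 18) (.e (nat_lit 2798) (nat_lit 180) (.e (nat_lit 303145) (nat_lit 13) (.e (nat_lit 483335) (nat_lit 0) .nil))))) (.g (nat_lit 0) (.e (nat_lit 266778) (nat_lit 0) .nil) .nil))) 
(.lf (nat_lit 539306) (.g (nat_lit 1710) (.e (nat_lit 73782) (nat_lit 32) (.e (nat_lit 2856) (nat_lit 184) (.e (nat_lit 426542) (nat_lit 29) (.e (nat_lit 352302) (nat_lit 20) .nil)))) (.g (nat_lit 0) (.e (nat_lit 268171) (nat_lit 0) .nil) .nil)))) (.nd (nat_lit 9) 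
(.lf (nat_lit 539050) (.g (nat_lit 2210) (.e (nat_lit 73775) (nat_lit 26) (.e (nat_lit 778465) (nat_lit 11) (.e (nat_lit 24623) (nat_lit 9) (.e (nat_lit 336439) (nat_lit 31) (.e (nat_lit 466688) (nat_lit 5) .nil))))) (.g (nat_lit 1) (.e (nat_lit 267714) (nat_lit 0) .nil) .nil))) 
(.lf (nat_lit 539562) (.g (nat_lit 2196) (.e (nat_lit 81938) (nat_lit 20) (.e (nat_lit 1799) (nat_lit 119) (.e (nat_lit 516139) (nat_lit 7) (.e (nat_lit 409645) (nat_lit 18) (.e (nat_lit 303117) (nat_lit 2) .nil))))) (.g (nat_lit 0) (.e (nat_lit 268979) (nat_lit 0) .nil) .nil)))))) (.nd (nat_lit 7) (.nd (nat_lit 8) (.nd (nat_lit 9) 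
(.lf (nat_lit 538730) (.g (nat_lit 2391) (.e (nat_lit 73754) (nat_lit 8) (.e (nat_lit 557105) (nat_lit 14) (.e (nat_lit 180252) (nat_lit 10) (.e (nat_lit 573449) (nat_lit 9) (.e (nat_lit 1183) (nat_lit 87) .nil))))) (.g (nat_lit 0) (.e (nat_lit 266708) (nat_lit 0) .nil) .nil))) 
(.lf (nat_lit 539242) (.g (nat_lit 2007) (.e (nat_lit 73781) (nat_lit 32) (.e (nat_lit 3090) (nat_lit 191) (.e (nat_lit 483393) (nat_lit 23) (.e (nat_lit 335986) (nat_lit 1) (.e (nat_lit 57872) (nat_lit 264) (.e (nat_lit 1211) (nat_lit 89) .nil)))))) (.g (nat_lit 1) (.e (nat_lit 268058) (nat_lit 0) .nil) .nil)))) (.nd (nat_lit 9) 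
(.lf (nat_lit 538986) (.g (nat_lit 2638) (.e (nat_lit 73755) (nat_lit 8) (.e (nat_lit 557119) (nat_lit 18) (.e (nat_lit 2798) (nat_lit 180) (.e (nat_lit 303133) (nat_lit 9) (.e (nat_lit 426499) (nat_lit 27) (.e (nat_lit 336271) (nat_lit 15) (.e (nat_lit 7936) (nat_lit 407) .nil))))))) (.g (nat_lit 1) (.e (nat_lit 267399) (nat_lit 0) .nil) .nil))) 
(.lf (nat_lit 539498) (.g (nat_lit 1407) (.e (nat_lit 81924) (nat_lit 0) (.e (nat_lit 3748) (nat_lit 228) (.e (nat_lit 786483) (nat_lit 30) (.e (nat_lit 360454) (nat_lit 0) .nil)))) (.g (nat_lit 0) (.e (nat_lit 268659) (nat_lit 0) .nil) .nil))))) (.nd (nat_lit 8) (.nd (nat_lit 9) 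
(.lf (nat_lit 538858) (.g (nat_lit 2979) (.e (nat_lit 73755) (nat_lit 8) (.e (nat_lit 557104) (nat_lit 14) (.e (nat_lit 180244) (nat_lit 5) (.e (nat_lit 532499) (nat_lit 1) (.e (nat_lit 57661) (nat_lit 152) .nil))))) (.g (nat_lit 0) (.e (nat_lit 266940) (nat_lit 0) .nil) .nil))) 
(.lf (nat_lit 539370) (.g (nat_lit 2002) (.e (nat_lit 81664) (nat_lit 32) (.e (nat_lit 347) (nat_lit 28) (.e (nat_lit 393260) (nat_lit 21) (.e (nat_lit 409617) (nat_lit 10) (.e (nat_lit 632) (nat_lit 50) .nil))))) (.g (nat_lit 0) (.e (nat_lit 268235) (nat_lit 0) .nil) .nil)))) (.nd (nat_lit 9) 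
(.lf (nat_lit 539114) (.g (nat_lit 1524) (.e (nat_lit 73775) (nat_lit 26) (.e (nat_lit 778466) (nat_lit 11) (.e (nat_lit 24656) (nat_lit 13) (.e (nat_lit 393247) (nat_lit 17) (.e (nat_lit 7936) (nat_lit 407) .nil))))) (.g (nat_lit 1) (.e (nat_lit 267804) (nat_lit 0) .nil) .nil))) 
(.lf (nat_lit 539626) (.g (nat_lit 1525) (.e (nat_lit 81938) (nat_lit 20) (.e (nat_lit 2391) (nat_lit 156) (.e (nat_lit 819221) (nat_lit 6) (.e (nat_lit 188427) (nat_lit 20) (.e (nat_lit 3281) (nat_lit 200) (.e (nat_lit 564992) (nat_lit 6) .nil)))))) (.g (nat_lit 1) (.e (nat_lit 269062) (nat_lit 0) .nil) .nil)))))))) 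
(.nd (nat_lit 5) (.nd (nat_lit 6) (.nd (nat_lit 7) (.nd (nat_lit 8) (.nd (nat_lit 9) 
(.lf (nat_lit 538650) (.g (nat_lit 3202) (.e (nat_lit 73753) (nat_lit 8) (.e (nat_lit 557105) (nat_lit 14) (.e (nat_lit 180252) (nat_lit 10) (.e (nat_lit 573474) (nat_lit 12) (.e (nat_lit 57500) (nat_lit 37) .nil))))) (.g (nat_lit 0) (.e (nat_lit 266603) (nat_lit 0) .nil) .nil))) 
(.lf (nat_lit 539162) (.g (nat_lit 1525) (.e (nat_lit 73781) (nat_lit 32) (.e (nat_lit 2854) (nat_lit 184) (.e (nat_lit 426542) (nat_lit 29) (.e (nat_lit 352297) (nat_lit 20) (.e (nat_lit 2005) (nat_lit 138) (.e (nat_lit 671763) (nat_lit 5) .nil)))))) (.g (nat_lit 1) (.e (nat_lit 267977) (nat_lit 0) .nil) .nil)))) (.nd (nat_lit 9) 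
(.lf (nat_lit 538906) (.g (nat_lit 5516) (.e (nat_lit 73755) (nat_lit 8) (.e (nat_lit 557105) (nat_lit 14) (.e (nat_lit 180251) (nat_lit 10) (.e (nat_lit 573475) (nat_lit 12) (.e (nat_lit 57503) (nat_lit 38) (.e (nat_lit 638996) (nat_lit 7) (.e (nat_lit 163978) (nat_lit 30) (.e (nat_lit 573489) (nat_lit 14) .nil)))))))) (.g (nat_lit 1) (.e (nat_lit 267144) (nat_lit 0) .nil) .nil))) 
(.lf (nat_lit 539418) (.g (nat_lit 259) (.e (nat_lit 73791) (nat_lit 45) (.e (nat_lit 1162) (nat_lit 86) (.e (nat_lit 49157) (nat_lit 0) (.e (nat_lit 2997) (nat_lit 186) .nil)))) (.g (nat_lit 0) (.e (nat_lit 268434) (nat_lit 0) .nil) .nil))))) (.nd (nat_lit 8) (.nd (nat_lit 9) 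
(.lf (nat_lit 538778) (.g (nat_lit 2410) (.e (nat_lit 73754) (nat_lit 8) (.e (nat_lit 557105) (nat_lit 14) (.e (nat_lit 180252) (nat_lit 10) (.e (nat_lit 573475) (nat_lit 12) (.e (nat_lit 57508) (nat_lit 39) (.e (nat_lit 655104) (nat_lit 0) (.e (nat_lit 2667) (nat_lit 167) (.e (nat_lit 196668) (nat_lit 14) .nil)))))))) (.g (nat_lit 1) (.e (nat_lit 266762) (nat_lit 0) .nil) .nil))) 
(.lf (nat_lit 539290) (.g (nat_lit 3125) (.e (nat_lit 73782) (nat_lit 32) (.e (nat_lit 2854) (nat_lit 184) (.e (nat_lit 426542) (nat_lit 29) (.e (nat_lit 352267) (nat_lit 0) (.e (nat_lit 3632) (nat_lit 227) (.e (nat_lit 778323) (nat_lit 5) .nil)))))) (.g (nat_lit 1) (.e (nat_lit 268155) (nat_lit 0) .nil) .nil)))) (.nd (nat_lit 9) 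
(.lf (nat_lit 539034) (.g (nat_lit 3390) (.e (nat_lit 73775) (nat_lit 26) (.e (nat_lit 778465) (nat_lit 11) (.e (nat_lit 24623) (nat_lit 9) (.e (nat_lit 336369) (nat_lit 27) (.e (nat_lit 426025) (nat_lit 0) (.e (nat_lit 7936) (nat_lit 407) .nil)))))) (.g (nat_lit 1) (.e (nat_lit 267697) (nat_lit 0) .nil) .nil))) 
(.lf (nat_lit 539546) (.g (nat_lit 2182) (.e (nat_lit 81931) (nat_lit 20) (.e (nat_lit 1994) (nat_lit 137) (.e (nat_lit 663567) (nat_lit 4) (.e (nat_lit 65611) (nat_lit 10) (.e (nat_lit 344169) (nat_lit 40) (.e (nat_lit 671764) (nat_lit 6) .nil)))))) (.g (nat_lit 1) (.e (nat_lit 268920) (nat_lit 0) .nil) .nil)))))) (.nd (nat_lit 7) (.nd (nat_lit 8) (.nd (nat_lit 9) 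
(.lf (nat_lit 538714) (.g (nat_lit 843) (.e (nat_lit 73754) (nat_lit 8) (.e (nat_lit 557091) (nat_lit 12) (.e (nat_lit 164007) (nat_lit 41) .nil))) (.g (nat_lit 0) (.e (nat_lit 266678) (nat_lit 0) .nil) .nil))) 
(.lf (nat_lit 539226) (.g (nat_lit 2463) (.e (nat_lit 73781) (nat_lit 32) (.e (nat_lit 3090) (nat_lit 191) (.e (nat_lit 483380) (nat_lit 23) (.e (nat_lit 336262) (nat_lit 15) (.e (nat_lit 3632) (nat_lit 227) (.e (nat_lit 778324) (nat_lit 5) .nil)))))) (.g (nat_lit 1) (.e (nat_lit 268042) (nat_lit 0) .nil) .nil)))) (.nd (nat_lit 9) 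
(.lf (nat_lit 538970) (.g (nat_lit 2510) (.e (nat_lit 73755) (nat_lit 8) (.e (nat_lit 557105) (nat_lit 14) (.e (nat_lit 180252) (nat_lit 10) (.e (nat_lit 573478) (nat_lit 12) (.e (nat_lit 57502) (nat_lit 38) .nil))))) (.g (nat_lit 0) (.e (nat_lit 267373) (nat_lit 0) .nil) .nil))) 
(.lf (nat_lit 539482) (.g (nat_lit 687) (.e (nat_lit 81924) (nat_lit 0) (.e (nat_lit 3631) (nat_lit 227) (.e (nat_lit 778327) (nat_lit 6) (.e (nat_lit 81933) (nat_lit 20) .nil)))) (.g (nat_lit 0) (.e (nat_lit 268634) (nat_lit 0) .nil) .nil))))) (.nd (nat_lit 8) (.nd (nat_lit 9) 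
(.lf (nat_lit 538842) (.g (nat_lit 4070) (.e (nat_lit 73755) (nat_lit 8) (.e (nat_lit 557103) (nat_lit 14) (.e (nat_lit 180250) (nat_lit 10) (.e (nat_lit 573474) (nat_lit 12) (.e (nat_lit 57504) (nat_lit 38) (.e (nat_lit 638995) (nat_lit 7) (.e (nat_lit 163979) (nat_lit 30) (.e (nat_lit 573488) (nat_lit 14) .nil)))))))) (.g (nat_lit 1) (.e (nat_lit 266906) (nat_lit 0) .nil) .nil))) 
(.lf (nat_lit 539354) (.g (nat_lit 1799) (.e (nat_lit 73782) (nat_lit 32) (.e (nat_lit 3090) (nat_lit 191) (.e (nat_lit 483379) (nat_lit 23) (.e (nat_lit 336332) (nat_lit 19) (.e (nat_lit 220928) (nat_lit 5) .nil))))) (.g (nat_lit 1) (.e (nat_lit 268219) (nat_lit 0) .nil) .nil)))) (.nd (nat_lit 9) 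
(.lf (nat_lit 539098) (.g (nat_lit 1804) (.e (nat_lit 73775) (nat_lit 26) (.e (nat_lit 778466) (nat_lit 11) (.e (nat_lit 24632) (nat_lit 9) (.e (nat_lit 336388) (nat_lit 27) (.e (nat_lit 426024) (nat_lit 0) (.e (nat_lit 7936) (nat_lit 407) .nil)))))) (.g (nat_lit 1) (.e (nat_lit 267783) (nat_lit 0) .nil) .nil))) 
(.lf (nat_lit 539610) (.g (nat_lit 1384) (.e (nat_lit 81938) (nat_lit 20) (.e (nat_lit 2391) (nat_lit 156) (.e (nat_lit 819203) (nat_lit 0) (.e (nat_lit 3027) (nat_lit 187) (.e (nat_lit 458496) (nat_lit 8) (.e (nat_lit 564992) (nat_lit 6) .nil)))))) (.g (nat_lit 1) (.e (nat_lit 269045) (nat_lit 0) .nil) .nil))))))) (.nd (nat_lit 6) (.nd (nat_lit 7) (.nd (nat_lit 8) (.nd (nat_lit 9) 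
(.lf (nat_lit 538682) (.g (nat_lit 2934) (.e (nat_lit 73753) (nat_lit 8) (.e (nat_lit 557119) (nat_lit 18) (.e (nat_lit 2797) (nat_lit 180) (.e (nat_lit 303145) (nat_lit 13) (.e (nat_lit 483334) (nat_lit 0) (.e (nat_lit 7936) (nat_lit 407) .nil)))))) (.g (nat_lit 1) (.e (nat_lit 266640) (nat_lit 0) .nil) .nil))) 
(.lf (nat_lit 539194) (.g (nat_lit 1355) (.e (nat_lit 73781) (nat_lit 32) (.e (nat_lit 3088) (nat_lit 191) (.e (nat_lit 483391) (nat_lit 23) (.e (nat_lit 336331) (nat_lit 19) (.e (nat_lit 220928) (nat_lit 5) .nil))))) (.g (nat_lit 1) (.e (nat_lit 268010) (nat_lit 0) .nil) .nil)))) (.nd (nat_lit 9) 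
(.lf (nat_lit 538938) (.g (nat_lit 3489) (.e (nat_lit 73755) (nat_lit 8) (.e (nat_lit 557105) (nat_lit 14) (.e (nat_lit 180252) (nat_lit 10) (.e (nat_lit 573474) (nat_lit 12) (.e (nat_lit 57503) (nat_lit 38) (.e (nat_lit 638994) (nat_lit 7) (.e (nat_lit 163976) (nat_lit 30) (.e (nat_lit 573488) (nat_lit 14) .nil)))))))) (.g (nat_lit 1) (.e (nat_lit 267334) (nat_lit 0) .nil) .nil))) 
(.lf (nat_lit 539450) (.g (nat_lit 1508) (.e (nat_lit 81922) (nat_lit 0) (.e (nat_lit 3747) (nat_lit 228) (.e (nat_lit 786473) (nat_lit 27) (.e (nat_lit 336118) (nat_lit 9) (.e (nat_lit 336331) (nat_lit 19) (.e (nat_lit 220928) (nat_lit 6) .nil)))))) (.g (nat_lit 1) (.e (nat_lit 268531) (nat_lit 0) .nil) .nil))))) (.nd (nat_lit 8) (.nd (nat_lit 9) 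
(.lf (nat_lit 538810) (.g (nat_lit 2309) (.e (nat_lit 73755) (nat_lit 8) (.e (nat_lit 557087) (nat_lit 11) (.e (nat_lit 24646) (nat_lit 11) (.e (nat_lit 368676) (nat_lit 21) (.e (nat_lit 516098) (nat_lit 0) (.e (nat_lit 7591) (nat_lit 407) .nil)))))) (.g (nat_lit 1) (.e (nat_lit 266810) (nat_lit 0) .nil) .nil))) 
(.lf (nat_lit 539322) (.g (nat_lit 2578) (.e (nat_lit 73782) (nat_lit 32) (.e (nat_lit 2856) (nat_lit 184) (.e (nat_lit 426555) (nat_lit 32) (.e (nat_lit 376857) (nat_lit 21) (.e (nat_lit 57872) (nat_lit 264) (.e (nat_lit 1211) (nat_lit 89) .nil)))))) (.g (nat_lit 1) (.e (nat_lit 268187) (nat_lit 0) .nil) .nil)))) (.nd (nat_lit 9) 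
(.lf (nat_lit 539066) (.g (nat_lit 506) (.e (nat_lit 73775) (nat_lit 26) (.e (nat_lit 778465) (nat_lit 11) (.e (nat_lit 24638) (nat_lit 9) .nil))) (.g (nat_lit 0) (.e (nat_lit 267732) (nat_lit 0) .nil) .nil))) 
(.lf (nat_lit 539578) (.g (nat_lit 2107) (.e (nat_lit 81938) (nat_lit 20) (.e (nat_lit 1848) (nat_lit 124) (.e (nat_lit 557087) (nat_lit 11) (.e (nat_lit 24625) (nat_lit 9) .nil)))) (.g (nat_lit 0) (.e (nat_lit 269009) (nat_lit 0) .nil) .nil)))))) (.nd (nat_lit 7) (.nd (nat_lit 8) (.nd (nat_lit 9) 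
(.lf (nat_lit 538746) (.g (nat_lit 2520) (.e (nat_lit 73754) (nat_lit 8) (.e (nat_lit 557105) (nat_lit 14) (.e (nat_lit 180252) (nat_lit 10) (.e (nat_lit 573473) (nat_lit 12) (.e (nat_lit 57507) (nat_lit 39) (.e (nat_lit 655104) (nat_lit 0) (.e (nat_lit 2666) (nat_lit 167) (.e (nat_lit 196667) (nat_lit 14) .nil)))))))) (.g (nat_lit 1) (.e (nat_lit 266729) (nat_lit 0) .nil) .nil))) 
(.lf (nat_lit 539258) (.g (nat_lit 926) (.e (nat_lit 73781) (nat_lit 32) (.e (nat_lit 3090) (nat_lit 191) (.e (nat_lit 483396) (nat_lit 24) (.e (nat_lit 344167) (nat_lit 40) .nil)))) (.g (nat_lit 0) (.e (nat_lit 268074) (nat_lit 0) .nil) .nil)))) (.nd (nat_lit 9) 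
(.lf (nat_lit 539002) (.g (nat_lit 1683) (.e (nat_lit 73755) (nat_lit 8) (.e (nat_lit 557119) (nat_lit 18) (.e (nat_lit 2798) (nat_lit 180) (.e (nat_lit 303147) (nat_lit 15) .nil)))) (.g (nat_lit 0) (.e (nat_lit 267415) (nat_lit 0) .nil) .nil))) 
(.lf (nat_lit 539514) (.g (nat_lit 1686) (.e (nat_lit 89856) (nat_lit 0) (.e (nat_lit 3605) (nat_lit 225) (.e (nat_lit 761906) (nat_lit 16) (.e (nat_lit 172097) (nat_lit 9) (.e (nat_lit 426109) (nat_lit 1) .nil))))) (.g (nat_lit 0) (.e (nat_lit 268805) (nat_lit 0) .nil) .nil))))) (.nd (nat_lit 8) (.nd (nat_lit 9) 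
(.lf (nat_lit 538874) (.g (nat_lit 1820) (.e (nat_lit 73755) (nat_lit 8) (.e (nat_lit 557104) (nat_lit 14) (.e (nat_lit 180251) (nat_lit 10) (.e (nat_lit 573473) (nat_lit 12) .nil)))) (.g (nat_lit 0) (.e (nat_lit 267031) (nat_lit 0) .nil) .nil))) 
(.lf (nat_lit 539386) (.g (nat_lit 159) (.e (nat_lit 81664) (nat_lit 32) (.e (nat_lit 2685) (nat_lit 168) (.e (nat_lit 204869) (nat_lit 29) .nil))) (.g (nat_lit 0) (.e (nat_lit 268292) (nat_lit 0) .nil) .nil)))) (.nd (nat_lit 9) 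
(.lf (nat_lit 539130) (.g (nat_lit 1843) (.e (nat_lit 73776) (nat_lit 26) (.e (nat_lit 778466) (nat_lit 11) (.e (nat_lit 24624) (nat_lit 9) (.e (nat_lit 336438) (nat_lit 31) (.e (nat_lit 466688) (nat_lit 5) .nil))))) (.g (nat_lit 1) (.e (nat_lit 267831) (nat_lit 0) .nil) .nil))) 
(.lf (nat_lit 539642) (.g (nat_lit 563) (.e (nat_lit 81939) (nat_lit 20) (.e (nat_lit 1886) (nat_lit 127) (.e (nat_lit 581652) (nat_lit 5) (.e (nat_lit 180288) (nat_lit 45) (.e (nat_lit 2580) (nat_lit 161) (.e (nat_lit 48896) (nat_lit 6) .nil)))))) (.g (nat_lit 1) (.e (nat_lit 269084) (nat_lit 0) .nil) .nil)))))))))) 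
(.nd (nat_lit 3) (.nd (nat_lit 4) (.nd (nat_lit 5) (.nd (nat_lit 6) (.nd (nat_lit 7) 
(.nd (nat_lit 8) (.nd (nat_lit 9) 
(.lf (nat_lit 538630) (.g (nat_lit 842) (.e (nat_lit 73753) (nat_lit 8) (.e (nat_lit 557105) (nat_lit 14) (.e (nat_lit 180250) (nat_lit 10) .nil))) (.g (nat_lit 0) (.e (nat_lit 266577) (nat_lit 0) .nil) .nil))) 
(.lf (nat_lit 539142) (.g (nat_lit 2057) (.e (nat_lit 73780) (nat_lit 32) (.e (nat_lit 2940) (nat_lit 184) (.e (nat_lit 426541) (nat_lit 29) (.e (nat_lit 352267) (nat_lit 0) (.e (nat_lit 3632) (nat_lit 227) (.e (nat_lit 778323) (nat_lit 5) .nil)))))) (.g (nat_lit 1) (.e (nat_lit 267919) (nat_lit 0) .nil) .nil)))) (.nd (nat_lit 9) 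
(.lf (nat_lit 538886) (.g (nat_lit 3884) (.e (nat_lit 73755) (nat_lit 8) (.e (nat_lit 557104) (nat_lit 14) (.e (nat_lit 180252) (nat_lit 10) (.e (nat_lit 573474) (nat_lit 12) (.e (nat_lit 57503) (nat_lit 38) (.e (nat_lit 638996) (nat_lit 7) (.e (nat_lit 163979) (nat_lit 30) (.e (nat_lit 573489) (nat_lit 14) .nil)))))))) (.g (nat_lit 1) (.e (nat_lit 267048) (nat_lit 0) .nil) .nil))) 
(.lf (nat_lit 539398) (.g (nat_lit 1233) (.e (nat_lit 73784) (nat_lit 40) (.e (nat_lit 1253) (nat_lit 92) (.e (nat_lit 98350) (nat_lit 24) (.e (nat_lit 409643) (nat_lit 18) .nil)))) (.g (nat_lit 0) (.e (nat_lit 268372) (nat_lit 0) .nil) .nil))))) (.nd (nat_lit 8) (.nd (nat_lit 9) 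
(.lf (nat_lit 538758) (.g (nat_lit 3547) (.e (nat_lit 73754) (nat_lit 8) (.e (nat_lit 557105) (nat_lit 14) (.e (nat_lit 180252) (nat_lit 10) (.e (nat_lit 573474) (nat_lit 12) (.e (nat_lit 57507) (nat_lit 39) (.e (nat_lit 647176) (nat_lit 0) (.e (nat_lit 2663) (nat_lit 167) (.e (nat_lit 196667) (nat_lit 14) .nil)))))))) (.g (nat_lit 1) (.e (nat_lit 266741) (nat_lit 0) .nil) .nil))) 
(.lf (nat_lit 539270) (.g (nat_lit 2576) (.e (nat_lit 73781) (nat_lit 32) (.e (nat_lit 3090) (nat_lit 191) (.e (nat_lit 483403) (nat_lit 26) (.e (nat_lit 385098) (nat_lit 49) .nil)))) (.g (nat_lit 0) (.e (nat_lit 268086) (nat_lit 0) .nil) .nil)))) (.nd (nat_lit 9) 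
(.lf (nat_lit 539014) (.g (nat_lit 627) (.e (nat_lit 73773) (nat_lit 25) (.e (nat_lit 770072) (nat_lit 8) (.e (nat_lit 65571) (nat_lit 3) .nil))) (.g (nat_lit 0) (.e (nat_lit 267644) (nat_lit 0) .nil) .nil))) 
(.lf (nat_lit 539526) (.g (nat_lit 2796) (.e (nat_lit 81925) (nat_lit 11) (.e (nat_lit 426500) (nat_lit 27) (.e (nat_lit 335988) (nat_lit 1) (.e (nat_lit 57931) (nat_lit 282) (.e (nat_lit 163867) (nat_lit 2) (.e (nat_lit 196674) (nat_lit 15) .nil)))))) (.g (nat_lit 1) (.e (nat_lit 268842) (nat_lit 0) .nil) .nil)))))) (.nd (nat_lit 7) (.nd (nat_lit 8) (.nd (nat_lit 9) 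
(.lf (nat_lit 538694) (.g (nat_lit 3642) (.e (nat_lit 73753) (nat_lit 8) (.e (nat_lit 557119) (nat_lit 18) (.e (nat_lit 2798) (nat_lit 180) (.e (nat_lit 303133) (nat_lit 9) (.e (nat_lit 426499) (nat_lit 27) (.e (nat_lit 336288) (nat_lit 15) (.e (nat_lit 7936) (nat_lit 407) .nil))))))) (.g (nat_lit 1) (.e (nat_lit 266654) (nat_lit 0) .nil) .nil))) 
(.lf (nat_lit 539206) (.g (nat_lit 2134) (.e (nat_lit 73781) (nat_lit 32) (.e (nat_lit 3089) (nat_lit 191) (.e (nat_lit 483383) (nat_lit 23) (.e (nat_lit 336306) (nat_lit 15) (.e (nat_lit 3618) (nat_lit 227) .nil))))) (.g (nat_lit 0) (.e (nat_lit 268022) (nat_lit 0) .nil) .nil)))) (.nd (nat_lit 9) 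
(.lf (nat_lit 538950) (.g (nat_lit 2457) (.e (nat_lit 73755) (nat_lit 8) (.e (nat_lit 557105) (nat_lit 14) (.e (nat_lit 180252) (nat_lit 10) (.e (nat_lit 573474) (nat_lit 12) (.e (nat_lit 57509) (nat_lit 39) (.e (nat_lit 655104) (nat_lit 0) (.e (nat_lit 2667) (nat_lit 167) (.e (nat_lit 196667) (nat_lit 14) .nil)))))))) (.g (nat_lit 1) (.e (nat_lit 267346) (nat_lit 0) .nil) .nil))) 
(.lf (nat_lit 539462) (.g (nat_lit 329) (.e (nat_lit 81922) (nat_lit 0) (.e (nat_lit 3748) (nat_lit 228) (.e (nat_lit 786483) (nat_lit 30) .nil))) (.g (nat_lit 0) (.e (nat_lit 268548) (nat_lit 0) .nil) .nil))))) (.nd (nat_lit 8) (.nd (nat_lit 9) 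
(.lf (nat_lit 538822) (.g (nat_lit 1571) (.e (nat_lit 73755) (nat_lit 8) (.e (nat_lit 557097) (nat_lit 13) (.e (nat_lit 172067) (nat_lit 3) (.e (nat_lit 204815) (nat_lit 17) .nil)))) (.g (nat_lit 0) (.e (nat_lit 266837) (nat_lit 0) .nil) .nil))) 
(.lf (nat_lit 539334) (.g (nat_lit 1782) (.e (nat_lit 73782) (nat_lit 32) (.e (nat_lit 3087) (nat_lit 191) (.e (nat_lit 483383) (nat_lit 23) (.e (nat_lit 336332) (nat_lit 19) (.e (nat_lit 220928) (nat_lit 5) .nil))))) (.g (nat_lit 1) (.e (nat_lit 268199) (nat_lit 0) .nil) .nil)))) (.nd (nat_lit 9) 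
(.lf (nat_lit 539078) (.g (nat_lit 1785) (.e (nat_lit 73775) (nat_lit 26) (.e (nat_lit 778466) (nat_lit 11) (.e (nat_lit 24624) (nat_lit 9) (.e (nat_lit 336421) (nat_lit 28) (.e (nat_lit 442112) (nat_lit 5) .nil))))) (.g (nat_lit 1) (.e (nat_lit 267761) (nat_lit 0) .nil) .nil))) 
(.lf (nat_lit 539590) (.g (nat_lit 1415) (.e (nat_lit 81938) (nat_lit 20) (.e (nat_lit 2390) (nat_lit 156) (.e (nat_lit 819204) (nat_lit 0) (.e (nat_lit 3004) (nat_lit 186) (.e (nat_lit 450304) (nat_lit 2) (.e (nat_lit 98048) (nat_lit 6) .nil)))))) (.g (nat_lit 1) (.e (nat_lit 269024) (nat_lit 0) .nil) .nil))))))) (.nd (nat_lit 6) (.nd (nat_lit 7) (.nd (nat_lit 8) (.nd (nat_lit 9) 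
(.lf (nat_lit 538662) (.g (nat_lit 3108) (.e (nat_lit 73753) (nat_lit 8) (.e (nat_lit 557105) (nat_lit 14) (.e (nat_lit 180252) (nat_lit 10) (.e (nat_lit 573474) (nat_lit 12) (.e (nat_lit 57509) (nat_lit 39) .nil))))) (.g (nat_lit 0) (.e (nat_lit 266615) (nat_lit 0) .nil) .nil))) 
(.lf (nat_lit 539174) (.g (nat_lit 2587) (.e (nat_lit 73781) (nat_lit 32) (.e (nat_lit 2856) (nat_lit 184) (.e (nat_lit 426542) (nat_lit 29) (.e (nat_lit 352297) (nat_lit 20) (.e (nat_lit 2005) (nat_lit 138) (.e (nat_lit 671763) (nat_lit 5) .nil)))))) (.g (nat_lit 1) (.e (nat_lit 267989) (nat_lit 0) .nil) .nil)))) (.nd (nat_lit 9) 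
(.lf (nat_lit 538918) (.g (nat_lit 4205) (.e (nat_lit 73755) (nat_lit 8) (.e (nat_lit 557105) (nat_lit 14) (.e (nat_lit 180252) (nat_lit 10) (.e (nat_lit 573473) (nat_lit 12) (.e (nat_lit 57500) (nat_lit 37) (.e (nat_lit 630800) (nat_lit 7) (.e (nat_lit 163978) (nat_lit 30) (.e (nat_lit 573489) (nat_lit 14) .nil)))))))) (.g (nat_lit 1) (.e (nat_lit 267256) (nat_lit 0) .nil) .nil))) 
(.lf (nat_lit 539430) (.g (nat_lit 886) (.e (nat_lit 81921) (nat_lit 0) (.e (nat_lit 3715) (nat_lit 227) (.e (nat_lit 778325) (nat_lit 6) (.e (nat_lit 81921) (nat_lit 0) (.e (nat_lit 3715) (nat_lit 227) (.e (nat_lit 778325) (nat_lit 6) .nil)))))) (.g (nat_lit 1) (.e (nat_lit 268451) (nat_lit 0) .nil) .nil))))) (.nd (nat_lit 8) (.nd (nat_lit 9) 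
(.lf (nat_lit 538790) (.g (nat_lit 1976) (.e (nat_lit 73754) (nat_lit 8) (.e (nat_lit 557118) (nat_lit 18) (.e (nat_lit 2808) (nat_lit 180) (.e (nat_lit 303127) (nat_lit 9) (.e (nat_lit 426558) (nat_lit 33) (.e (nat_lit 392960) (nat_lit 5) .nil)))))) (.g (nat_lit 1) (.e (nat_lit 266774) (nat_lit 0) .nil) .nil))) 
(.lf (nat_lit 539302) (.g (nat_lit 1692) (.e (nat_lit 73782) (nat_lit 32) (.e (nat_lit 2856) (nat_lit 184) (.e (nat_lit 426542) (nat_lit 29) (.e (nat_lit 352266) (nat_lit 0) (.e (nat_lit 3629) (nat_lit 227) .nil))))) (.g (nat_lit 0) (.e (nat_lit 268167) (nat_lit 0) .nil) .nil)))) (.nd (nat_lit 9) 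
(.lf (nat_lit 539046) (.g (nat_lit 2269) (.e (nat_lit 73775) (nat_lit 26) (.e (nat_lit 778465) (nat_lit 11) (.e (nat_lit 24623) (nat_lit 9) (.e (nat_lit 336423) (nat_lit 28) (.e (nat_lit 442112) (nat_lit 5) .nil))))) (.g (nat_lit 1) (.e (nat_lit 267710) (nat_lit 0) .nil) .nil))) 
(.lf (nat_lit 539558) (.g (nat_lit 2259) (.e (nat_lit 81937) (nat_lit 20) (.e (nat_lit 1838) (nat_lit 123) (.e (nat_lit 548889) (nat_lit 9) (.e (nat_lit 65624) (nat_lit 12) .nil)))) (.g (nat_lit 0) (.e (nat_lit 268972) (nat_lit 0) .nil) .nil)))))) (.nd (nat_lit 7) (.nd (nat_lit 8) (.nd (nat_lit 9) 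
(.lf (nat_lit 538726) (.g (nat_lit 3203) (.e (nat_lit 73754) (nat_lit 8) (.e (nat_lit 557105) (nat_lit 14) (.e (nat_lit 180251) (nat_lit 10) (.e (nat_lit 573475) (nat_lit 12) (.e (nat_lit 57507) (nat_lit 39) (.e (nat_lit 647176) (nat_lit 0) (.e (nat_lit 2663) (nat_lit 167) (.e (nat_lit 196670) (nat_lit 14) .nil)))))))) (.g (nat_lit 1) (.e (nat_lit 266704) (nat_lit 0) .nil) .nil))) 
(.lf (nat_lit 539238) (.g (nat_lit 2972) (.e (nat_lit 73781) (nat_lit 32) (.e (nat_lit 3090) (nat_lit 191) (.e (nat_lit 483387) (nat_lit 23) (.e (nat_lit 335997) (nat_lit 1) (.e (nat_lit 57872) (nat_lit 264) (.e (nat_lit 1209) (nat_lit 89) .nil)))))) (.g (nat_lit 1) (.e (nat_lit 268054) (nat_lit 0) .nil) .nil)))) (.nd (nat_lit 9) 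
(.lf (nat_lit 538982) (.g (nat_lit 4235) (.e (nat_lit 73755) (nat_lit 8) (.e (nat_lit 557119) (nat_lit 18) (.e (nat_lit 2798) (nat_lit 180) (.e (nat_lit 303119) (nat_lit 3) (.e (nat_lit 204838) (nat_lit 20) (.e (nat_lit 114715) (nat_lit 22) (.e (nat_lit 98048) (nat_lit 5) .nil))))))) (.g (nat_lit 1) (.e (nat_lit 267394) (nat_lit 0) .nil) .nil))) 
(.lf (nat_lit 539494) (.g (nat_lit 312) (.e (nat_lit 81924) (nat_lit 0) (.e (nat_lit 3748) (nat_lit 228) (.e (nat_lit 786480) (nat_lit 29) .nil))) (.g (nat_lit 0) (.e (nat_lit 268654) (nat_lit 0) .nil) .nil))))) (.nd (nat_lit 8) (.nd (nat_lit 9) 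
(.lf (nat_lit 538854) (.g (nat_lit 2438) (.e (nat_lit 73755) (nat_lit 8) (.e (nat_lit 557104) (nat_lit 14) (.e (nat_lit 180244) (nat_lit 5) (.e (nat_lit 532490) (nat_lit 0) (.e (nat_lit 2270) (nat_lit 149) .nil))))) (.g (nat_lit 0) (.e (nat_lit 266922) (nat_lit 0) .nil) .nil))) 
(.lf (nat_lit 539366) (.g (nat_lit 2504) (.e (nat_lit 73782) (nat_lit 32) (.e (nat_lit 3090) (nat_lit 191) (.e (nat_lit 483402) (nat_lit 26) (.e (nat_lit 385094) (nat_lit 49) (.e (nat_lit 778323) (nat_lit 5) .nil))))) (.g (nat_lit 1) (.e (nat_lit 268231) (nat_lit 0) .nil) .nil)))) (.nd (nat_lit 9) 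
(.lf (nat_lit 539110) (.g (nat_lit 1827) (.e (nat_lit 73775) (nat_lit 26) (.e (nat_lit 778466) (nat_lit 11) (.e (nat_lit 24655) (nat_lit 13) (.e (nat_lit 393237) (nat_lit 17) (.e (nat_lit 7936) (nat_lit 407) .nil))))) (.g (nat_lit 1) (.e (nat_lit 267800) (nat_lit 0) .nil) .nil))) 
(.lf (nat_lit 539622) (.g (nat_lit 1933) (.e (nat_lit 81938) (nat_lit 20) (.e (nat_lit 2391) (nat_lit 156) (.e (nat_lit 819204) (nat_lit 0) (.e (nat_lit 3027) (nat_lit 187) (.e (nat_lit 450584) (nat_lit 9) (.e (nat_lit 573184) (nat_lit 6) .nil)))))) (.g (nat_lit 1) (.e (nat_lit 269057) (nat_lit 0) .nil) .nil)))))))) 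
(.nd (nat_lit 5) (.nd (nat_lit 6) (.nd (nat_lit 7) (.nd (nat_lit 8) (.nd (nat_lit 9) 
(.lf (nat_lit 538646) (.g (nat_lit 5038) (.e (nat_lit 73753) (nat_lit 8) (.e (nat_lit 557105) (nat_lit 14) (.e (nat_lit 180252) (nat_lit 10) (.e (nat_lit 573473) (nat_lit 12) (.e (nat_lit 57503) (nat_lit 38) (.e (nat_lit 638995) (nat_lit 7) (.e (nat_lit 163978) (nat_lit 30) (.e (nat_lit 573487) (nat_lit 14) .nil)))))))) (.g (nat_lit 1) (.e (nat_lit 266598) (nat_lit 0) .nil) .nil))) 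
(.lf (nat_lit 539158) (.g (nat_lit 1581) (.e (nat_lit 73781) (nat_lit 32) (.e (nat_lit 2682) (nat_lit 168) (.e (nat_lit 204863) (nat_lit 27) (.e (nat_lit 344065) (nat_lit 0) .nil)))) (.g (nat_lit 0) (.e (nat_lit 267968) (nat_lit 0) .nil) .nil)))) (.nd (nat_lit 9) 
(.lf (nat_lit 538902) (.g (nat_lit 2804) (.e (nat_lit 73755) (nat_lit 8) (.e (nat_lit 557105) (nat_lit 14) (.e (nat_lit 180251) (nat_lit 10) (.e (nat_lit 573475) (nat_lit 12) (.e (nat_lit 57500) (nat_lit 37) .nil))))) (.g (nat_lit 0) (.e (nat_lit 267140) (nat_lit 0) .nil) .nil))) 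
(.lf (nat_lit 539414) (.g (nat_lit 594) (.e (nat_lit 73791) (nat_lit 45) (.e (nat_lit 1160) (nat_lit 86) (.e (nat_lit 49157) (nat_lit 0) (.e (nat_lit 2984) (nat_lit 186) (.e (nat_lit 450304) (nat_lit 2) (.e (nat_lit 98048) (nat_lit 5) .nil)))))) (.g (nat_lit 1) (.e (nat_lit 268427) (nat_lit 0) .nil) .nil))))) (.nd (nat_lit 8) (.nd (nat_lit 9) 
(.lf (nat_lit 538774) (.g (nat_lit 2785) (.e (nat_lit 73754) (nat_lit 8) (.e (nat_lit 557105) (nat_lit 14) (.e (nat_lit 180252) (nat_lit 10) (.e (nat_lit 573475) (nat_lit 12) (.e (nat_lit 57507) (nat_lit 39) (.e (nat_lit 655104) (nat_lit 0) (.e (nat_lit 2667) (nat_lit 167) (.e (nat_lit 196669) (nat_lit 14) .nil)))))))) (.g (nat_lit 1) (.e (nat_lit 266758) (nat_lit 0) .nil) .nil))) 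
(.lf (nat_lit 539286) (.g (nat_lit 2247) (.e (nat_lit 73782) (nat_lit 32) (.e (nat_lit 2681) (nat_lit 168) (.e (nat_lit 204863) (nat_lit 27) (.e (nat_lit 344068) (nat_lit 0) (.e (nat_lit 2664) (nat_lit 167) (.e (nat_lit 196668) (nat_lit 14) .nil)))))) (.g (nat_lit 1) (.e (nat_lit 268143) (nat_lit 0) .nil) .nil)))) (.nd (nat_lit 9) 
(.lf (nat_lit 539030) (.g (nat_lit 1935) (.e (nat_lit 73775) (nat_lit 26) (.e (nat_lit 778464) (nat_lit 11) (.e (nat_lit 24625) (nat_lit 9) (.e (nat_lit 336438) (nat_lit 31) (.e (nat_lit 466688) (nat_lit 5) .nil))))) (.g (nat_lit 1) (.e (nat_lit 267687) (nat_lit 0) .nil) .nil))) 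
(.lf (nat_lit 539542) (.g (nat_lit 2020) (.e (nat_lit 81928) (nat_lit 20) (.e (nat_lit 1794) (nat_lit 119) (.e (nat_lit 516179) (nat_lit 15) (.e (nat_lit 475199) (nat_lit 40) .nil)))) (.g (nat_lit 0) (.e (nat_lit 268907) (nat_lit 0) .nil) .nil)))))) (.nd (nat_lit 7) (.nd (nat_lit 8) (.nd (nat_lit 9) 
(.lf (nat_lit 538710) (.g (nat_lit 3144) (.e (nat_lit 73754) (nat_lit 8) (.e (nat_lit 557085) (nat_lit 11) (.e (nat_lit 24627) (nat_lit 9) (.e (nat_lit 336019) (nat_lit 3) (.e (nat_lit 98320) (nat_lit 17) (.e (nat_lit 7593) (nat_lit 407) .nil)))))) (.g (nat_lit 1) (.e (nat_lit 266671) (nat_lit 0) .nil) .nil))) 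
(.lf (nat_lit 539222) (.g (nat_lit 1482) (.e (nat_lit 73781) (nat_lit 32) (.e (nat_lit 3090) (nat_lit 191) (.e (nat_lit 483380) (nat_lit 23) (.e (nat_lit 336238) (nat_lit 15) .nil)))) (.g (nat_lit 0) (.e (nat_lit 268038) (nat_lit 0) .nil) .nil)))) (.nd (nat_lit 9) 
(.lf (nat_lit 538966) (.g (nat_lit 2241) (.e (nat_lit 73755) (nat_lit 8) (.e (nat_lit 557105) (nat_lit 14) (.e (nat_lit 180252) (nat_lit 10) (.e (nat_lit 573476) (nat_lit 12) (.e (nat_lit 57502) (nat_lit 38) .nil))))) (.g (nat_lit 0) (.e (nat_lit 267369) (nat_lit 0) .nil) .nil))) 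
(.lf (nat_lit 539478) (.g (nat_lit 1576) (.e (nat_lit 81924) (nat_lit 0) (.e (nat_lit 3631) (nat_lit 227) (.e (nat_lit 778326) (nat_lit 6) (.e (nat_lit 81924) (nat_lit 0) (.e (nat_lit 3631) (nat_lit 227) (.e (nat_lit 778326) (nat_lit 6) .nil)))))) (.g (nat_lit 1) (.e (nat_lit 268630) (nat_lit 0) .nil) .nil))))) (.nd (nat_lit 8) (.nd (nat_lit 9) 
(.lf (nat_lit 538838) (.g (nat_lit 944) (.e (nat_lit 73755) (nat_lit 8) (.e (nat_lit 557103) (nat_lit 14) (.e (nat_lit 180244) (nat_lit 5) (.e (nat_lit 532499) (nat_lit 1) .nil)))) (.g (nat_lit 0) (.e (nat_lit 266876) (nat_lit 0) .nil) .nil))) 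
(.lf (nat_lit 539350) (.g (nat_lit 1855) (.e (nat_lit 73782) (nat_lit 32) (.e (nat_lit 3089) (nat_lit 191) (.e (nat_lit 483403) (nat_lit 26) (.e (nat_lit 385096) (nat_lit 49) (.e (nat_lit 786176) (nat_lit 5) .nil))))) (.g (nat_lit 1) (.e (nat_lit 268215) (nat_lit 0) .nil) .nil)))) (.nd (nat_lit 9) 
(.lf (nat_lit 539094) (.g (nat_lit 1790) (.e (nat_lit 73775) (nat_lit 26) (.e (nat_lit 778466) (nat_lit 11) (.e (nat_lit 24632) (nat_lit 9) (.e (nat_lit 336385) (nat_lit 27) (.e (nat_lit 426024) (nat_lit 0) (.e (nat_lit 7936) (nat_lit 407) .nil)))))) (.g (nat_lit 1) (.e (nat_lit 267779) (nat_lit 0) .nil) .nil))) 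
(.lf (nat_lit 539606) (.g (nat_lit 1413) (.e (nat_lit 81938) (nat_lit 20) (.e (nat_lit 2391) (nat_lit 156) (.e (nat_lit 819203) (nat_lit 0) (.e (nat_lit 3004) (nat_lit 186) (.e (nat_lit 450304) (nat_lit 2) (.e (nat_lit 98048) (nat_lit 6) .nil)))))) (.g (nat_lit 1) (.e (nat_lit 269041) (nat_lit 0) .nil) .nil))))))) (.nd (nat_lit 6) (.nd (nat_lit 7) (.nd (nat_lit 8) (.nd (nat_lit 9) 
(.lf (nat_lit 538678) (.g (nat_lit 2472) (.e (nat_lit 73753) (nat_lit 8) (.e (nat_lit 557119) (nat_lit 18) (.e (nat_lit 2797) (nat_lit 180) (.e (nat_lit 303145) (nat_lit 13) (.e (nat_lit 483330) (nat_lit 0) (.e (nat_lit 7936) (nat_lit 407) .nil)))))) (.g (nat_lit 1) (.e (nat_lit 266636) (nat_lit 0) .nil) .nil))) 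
(.lf (nat_lit 539190) (.g (nat_lit 2096) (.e (nat_lit 73781) (nat_lit 32) (.e (nat_lit 3087) (nat_lit 191) (.e (nat_lit 483395) (nat_lit 24) (.e (nat_lit 344169) (nat_lit 40) (.e (nat_lit 671763) (nat_lit 5) .nil))))) (.g (nat_lit 1) (.e (nat_lit 268006) (nat_lit 0) .nil) .nil)))) (.nd (nat_lit 9) 
(.lf (nat_lit 538934) (.g (nat_lit 1895) (.e (nat_lit 73755) (nat_lit 8) (.e (nat_lit 557105) (nat_lit 14) (.e (nat_lit 180252) (nat_lit 10) (.e (nat_lit 573474) (nat_lit 12) (.e (nat_lit 65280) (nat_lit 37) .nil))))) (.g (nat_lit 0) (.e (nat_lit 267330) (nat_lit 0) .nil) .nil))) 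
(.lf (nat_lit 539446) (.g (nat_lit 1131) (.e (nat_lit 81922) (nat_lit 0) (.e (nat_lit 3632) (nat_lit 227) (.e (nat_lit 778326) (nat_lit 6) (.e (nat_lit 81921) (nat_lit 0) (.e (nat_lit 3716) (nat_lit 227) (.e (nat_lit 778325) (nat_lit 6) .nil)))))) (.g (nat_lit 1) (.e (nat_lit 268513) (nat_lit 0) .nil) .nil))))) (.nd (nat_lit 8) (.nd (nat_lit 9) 
(.lf (nat_lit 538806) (.g (nat_lit 1004) (.e (nat_lit 73755) (nat_lit 8) (.e (nat_lit 557087) (nat_lit 11) (.e (nat_lit 24634) (nat_lit 9) (.e (nat_lit 336007) (nat_lit 2) .nil)))) (.g (nat_lit 0) (.e (nat_lit 266803) (nat_lit 0) .nil) .nil))) 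
(.lf (nat_lit 539318) (.g (nat_lit 3661) (.e (nat_lit 73782) (nat_lit 32) (.e (nat_lit 2856) (nat_lit 184) (.e (nat_lit 426542) (nat_lit 29) (.e (nat_lit 352318) (nat_lit 24) (.e (nat_lit 123183) (nat_lit 264) (.e (nat_lit 1212) (nat_lit 89) .nil)))))) (.g (nat_lit 1) (.e (nat_lit 268183) (nat_lit 0) .nil) .nil)))) (.nd (nat_lit 9) 
(.lf (nat_lit 539062) (.g (nat_lit 2322) (.e (nat_lit 73775) (nat_lit 26) (.e (nat_lit 778465) (nat_lit 11) (.e (nat_lit 24630) (nat_lit 9) (.e (nat_lit 336421) (nat_lit 28) (.e (nat_lit 442112) (nat_lit 5) .nil))))) (.g (nat_lit 1) (.e (nat_lit 267727) (nat_lit 0) .nil) .nil))) 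
(.lf (nat_lit 539574) (.g (nat_lit 944) (.e (nat_lit 81938) (nat_lit 20) (.e (nat_lit 1886) (nat_lit 127) (.e (nat_lit 581652) (nat_lit 5) (.e (nat_lit 180287) (nat_lit 45) (.e (nat_lit 2579) (nat_lit 161) (.e (nat_lit 48896) (nat_lit 6) .nil)))))) (.g (nat_lit 1) (.e (nat_lit 269005) (nat_lit 0) .nil) .nil)))))) (.nd (nat_lit 7) (.nd (nat_lit 8) (.nd (nat_lit 9) 
(.lf (nat_lit 538742) (.g (nat_lit 2171) (.e (nat_lit 73754) (nat_lit 8) (.e (nat_lit 557105) (nat_lit 14) (.e (nat_lit 180252) (nat_lit 10) (.e (nat_lit 573473) (nat_lit 12) (.e (nat_lit 57500) (nat_lit 37) .nil))))) (.g (nat_lit 0) (.e (nat_lit 266725) (nat_lit 0) .nil) .nil))) 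
(.lf (nat_lit 539254) (.g (nat_lit 3567) (.e (nat_lit 73781) (nat_lit 32) (.e (nat_lit 3090) (nat_lit 191) (.e (nat_lit 483395) (nat_lit 24) (.e (nat_lit 344097) (nat_lit 18) (.e (nat_lit 5907) (nat_lit 320) (.e (nat_lit 1209) (nat_lit 89) .nil)))))) (.g (nat_lit 1) (.e (nat_lit 268070) (nat_lit 0) .nil) .nil)))) (.nd (nat_lit 9) 
(.lf (nat_lit 538998) (.g (nat_lit 3075) (.e (nat_lit 73755) (nat_lit 8) (.e (nat_lit 557119) (nat_lit 18) (.e (nat_lit 2798) (nat_lit 180) (.e (nat_lit 303145) (nat_lit 13) (.e (nat_lit 483333) (nat_lit 0) (.e (nat_lit 7936) (nat_lit 407) .nil)))))) (.g (nat_lit 1) (.e (nat_lit 267411) (nat_lit 0) .nil) .nil))) 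
(.lf (nat_lit 539510) (.g (nat_lit 858) (.e (nat_lit 89856) (nat_lit 0) (.e (nat_lit 3604) (nat_lit 225) (.e (nat_lit 761914) (nat_lit 18) (.e (nat_lit 188455) (nat_lit 24) .nil)))) (.g (nat_lit 0) (.e (nat_lit 268791) (nat_lit 0) .nil) .nil))))) (.nd (nat_lit 8) (.nd (nat_lit 9) 
(.lf (nat_lit 538870) (.g (nat_lit 2265) (.e (nat_lit 73755) (nat_lit 8) (.e (nat_lit 557104) (nat_lit 14) (.e (nat_lit 180250) (nat_lit 10) (.e (nat_lit 573475) (nat_lit 12) (.e (nat_lit 57502) (nat_lit 38) .nil))))) (.g (nat_lit 0) (.e (nat_lit 267027) (nat_lit 0) .nil) .nil))) 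
(.lf (nat_lit 539382) (.g (nat_lit 2445) (.e (nat_lit 81664) (nat_lit 32) (.e (nat_lit 2668) (nat_lit 167) (.e (nat_lit 196666) (nat_lit 13) (.e (nat_lit 65630) (nat_lit 14) (.e (nat_lit 401425) (nat_lit 2) .nil))))) (.g (nat_lit 0) (.e (nat_lit 268270) (nat_lit 0) .nil) .nil)))) (.nd (nat_lit 9) 
(.lf (nat_lit 539126) (.g (nat_lit 2866) (.e (nat_lit 73776) (nat_lit 26) (.e (nat_lit 778465) (nat_lit 11) (.e (nat_lit 24631) (nat_lit 9) (.e (nat_lit 336412) (nat_lit 27) (.e (nat_lit 426011) (nat_lit 0) (.e (nat_lit 7591) (nat_lit 407) .nil)))))) (.g (nat_lit 1) (.e (nat_lit 267820) (nat_lit 0) .nil) .nil))) 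
(.lf (nat_lit 539638) (.g (nat_lit 641) (.e (nat_lit 81939) (nat_lit 20) (.e (nat_lit 1886) (nat_lit 127) (.e (nat_lit 581652) (nat_lit 5) (.e (nat_lit 180285) (nat_lit 45) (.e (nat_lit 2580) (nat_lit 161) (.e (nat_lit 48896) (nat_lit 6) .nil)))))) (.g (nat_lit 1) (.e (nat_lit 269080) (nat_lit 0) .nil) .nil))))))))) 
(.nd (nat_lit 4) (.nd (nat_lit 5) (.nd (nat_lit 6) (.nd (nat_lit 7) (.nd (nat_lit 8) 
(.nd (nat_lit 9) 
(.lf (nat_lit 538638) (.g (nat_lit 1817) (.e (nat_lit 73753) (nat_lit 8) (.e (nat_lit 557105) (nat_lit 14) (.e (nat_lit 180252) (nat_lit 10) (.e (nat_lit 573449) (nat_lit 9) .nil)))) (.g (nat_lit 0) (.e (nat_lit 266585) (nat_lit 0) .nil) .nil))) 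
(.lf (nat_lit 539150) (.g (nat_lit 2323) (.e (nat_lit 73781) (nat_lit 32) (.e (nat_lit 2664) (nat_lit 167) (.e (nat_lit 196666) (nat_lit 13) (.e (nat_lit 65586) (nat_lit 7) (.e (nat_lit 319519) (nat_lit 12) (.e (nat_lit 32788) (nat_lit 10) .nil)))))) (.g (nat_lit 1) (.e (nat_lit 267947) (nat_lit 0) .nil) .nil)))) (.nd (nat_lit 9) 
(.lf (nat_lit 538894) (.g (nat_lit 3116) (.e (nat_lit 73755) (nat_lit 8) (.e (nat_lit 557105) (nat_lit 14) (.e (nat_lit 180244) (nat_lit 5) (.e (nat_lit 532499) (nat_lit 1) (.e (nat_lit 57659) (nat_lit 152) .nil))))) (.g (nat_lit 0) (.e (nat_lit 267071) (nat_lit 0) .nil) .nil))) 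
(.lf (nat_lit 539406) (.g (nat_lit 897) (.e (nat_lit 73788) (nat_lit 45) (.e (nat_lit 1163) (nat_lit 86) (.e (nat_lit 49156) (nat_lit 0) (.e (nat_lit 3012) (nat_lit 187) (.e (nat_lit 450584) (nat_lit 9) (.e (nat_lit 565268) (nat_lit 5) .nil)))))) (.g (nat_lit 1) (.e (nat_lit 268410) (nat_lit 0) .nil) .nil))))) (.nd (nat_lit 8) (.nd (nat_lit 9) 
(.lf (nat_lit 538766) (.g (nat_lit 2598) (.e (nat_lit 73754) (nat_lit 8) (.e (nat_lit 557105) (nat_lit 14) (.e (nat_lit 180252) (nat_lit 10) (.e (nat_lit 573475) (nat_lit 12) (.e (nat_lit 57506) (nat_lit 39) (.e (nat_lit 655104) (nat_lit 0) (.e (nat_lit 2667) (nat_lit 167) (.e (nat_lit 196668) (nat_lit 14) .nil)))))))) (.g (nat_lit 1) (.e (nat_lit 266750) (nat_lit 0) .nil) .nil))) 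
(.lf (nat_lit 539278) (.g (nat_lit 986) (.e (nat_lit 73782) (nat_lit 32) (.e (nat_lit 2663) (nat_lit 167) (.e (nat_lit 196666) (nat_lit 13) (.e (nat_lit 65610) (nat_lit 10) .nil)))) (.g (nat_lit 0) (.e (nat_lit 268104) (nat_lit 0) .nil) .nil)))) (.nd (nat_lit 9) 
(.lf (nat_lit 539022) (.g (nat_lit 616) (.e (nat_lit 73775) (nat_lit 26) (.e (nat_lit 778361) (nat_lit 9) (.e (nat_lit 307) (nat_lit 22) .nil))) (.g (nat_lit 0) (.e (nat_lit 267661) (nat_lit 0) .nil) .nil))) 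
(.lf (nat_lit 539534) (.g (nat_lit 2603) (.e (nat_lit 81927) (nat_lit 11) (.e (nat_lit 426500) (nat_lit 27) (.e (nat_lit 335986) (nat_lit 1) (.e (nat_lit 57927) (nat_lit 282) (.e (nat_lit 163868) (nat_lit 2) (.e (nat_lit 196672) (nat_lit 15) .nil)))))) (.g (nat_lit 1) (.e (nat_lit 268866) (nat_lit 0) .nil) .nil)))))) (.nd (nat_lit 7) (.nd (nat_lit 8) (.nd (nat_lit 9) 
(.lf (nat_lit 538702) (.g (nat_lit 2616) (.e (nat_lit 73753) (nat_lit 8) (.e (nat_lit 557119) (nat_lit 18) (.e (nat_lit 2798) (nat_lit 180) (.e (nat_lit 303145) (nat_lit 13) (.e (nat_lit 483331) (nat_lit 0) (.e (nat_lit 7936) (nat_lit 407) .nil)))))) (.g (nat_lit 1) (.e (nat_lit 266662) (nat_lit 0) .nil) .nil))) 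
(.lf (nat_lit 539214) (.g (nat_lit 1827) (.e (nat_lit 73781) (nat_lit 32) (.e (nat_lit 3089) (nat_lit 191) (.e (nat_lit 483403) (nat_lit 26) (.e (nat_lit 385096) (nat_lit 49) (.e (nat_lit 786176) (nat_lit 5) .nil))))) (.g (nat_lit 1) (.e (nat_lit 268030) (nat_lit 0) .nil) .nil)))) (.nd (nat_lit 9) 
(.lf (nat_lit 538958) (.g (nat_lit 3785) (.e (nat_lit 73755) (nat_lit 8) (.e (nat_lit 557105) (nat_lit 14) (.e (nat_lit 180252) (nat_lit 10) (.e (nat_lit 573475) (nat_lit 12) (.e (nat_lit 57503) (nat_lit 38) (.e (nat_lit 638994) (nat_lit 7) (.e (nat_lit 163976) (nat_lit 30) (.e (nat_lit 573488) (nat_lit 14) .nil)))))))) (.g (nat_lit 1) (.e (nat_lit 267361) (nat_lit 0) .nil) .nil))) 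
(.lf (nat_lit 539470) (.g (nat_lit 1033) (.e (nat_lit 81924) (nat_lit 0) (.e (nat_lit 3305) (nat_lit 202) (.e (nat_lit 573484) (nat_lit 13) (.e (nat_lit 65624) (nat_lit 12) .nil)))) (.g (nat_lit 0) (.e (nat_lit 268609) (nat_lit 0) .nil) .nil))))) (.nd (nat_lit 8) (.nd (nat_lit 9) 
(.lf (nat_lit 538830) (.g (nat_lit 443) (.e (nat_lit 73755) (nat_lit 8) (.e (nat_lit 557098) (nat_lit 13) (.e (nat_lit 172066) (nat_lit 3) .nil))) (.g (nat_lit 0) (.e (nat_lit 266860) (nat_lit 0) .nil) .nil))) 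
(.lf (nat_lit 539342) (.g (nat_lit 1673) (.e (nat_lit 73782) (nat_lit 32) (.e (nat_lit 3089) (nat_lit 191) (.e (nat_lit 483379) (nat_lit 23) (.e (nat_lit 336332) (nat_lit 19) (.e (nat_lit 220928) (nat_lit 5) .nil))))) (.g (nat_lit 1) (.e (nat_lit 268207) (nat_lit 0) .nil) .nil)))) (.nd (nat_lit 9) 
(.lf (nat_lit 539086) (.g (nat_lit 2717) (.e (nat_lit 73775) (nat_lit 26) (.e (nat_lit 778466) (nat_lit 11) (.e (nat_lit 24628) (nat_lit 9) (.e (nat_lit 336414) (nat_lit 27) (.e (nat_lit 425984) (nat_lit 0) (.e (nat_lit 7590) (nat_lit 407) .nil)))))) (.g (nat_lit 1) (.e (nat_lit 267769) (nat_lit 0) .nil) .nil))) 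
(.lf (nat_lit 539598) (.g (nat_lit 1068) (.e (nat_lit 81938) (nat_lit 20) (.e (nat_lit 2390) (nat_lit 156) (.e (nat_lit 819221) (nat_lit 6) (.e (nat_lit 188427) (nat_lit 20) (.e (nat_lit 3277) (nat_lit 200) (.e (nat_lit 564992) (nat_lit 6) .nil)))))) (.g (nat_lit 1) (.e (nat_lit 269032) (nat_lit 0) .nil) .nil))))))) (.nd (nat_lit 6) (.nd (nat_lit 7) (.nd (nat_lit 8) (.nd (nat_lit 9) 
(.lf (nat_lit 538670) (.g (nat_lit 5176) (.e (nat_lit 73753) (nat_lit 8) (.e (nat_lit 557105) (nat_lit 14) (.e (nat_lit 180252) (nat_lit 10) (.e (nat_lit 573475) (nat_lit 12) (.e (nat_lit 57504) (nat_lit 38) (.e (nat_lit 638995) (nat_lit 7) (.e (nat_lit 163978) (nat_lit 30) (.e (nat_lit 573487) (nat_lit 14) .nil)))))))) (.g (nat_lit 1) (.e (nat_lit 266628) (nat_lit 0) .nil) .nil))) 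
(.lf (nat_lit 539182) (.g (nat_lit 1874) (.e (nat_lit 73781) (nat_lit 32) (.e (nat_lit 2857) (nat_lit 184) (.e (nat_lit 426542) (nat_lit 29) (.e (nat_lit 352267) (nat_lit 0) (.e (nat_lit 3629) (nat_lit 227) (.e (nat_lit 778324) (nat_lit 5) .nil)))))) (.g (nat_lit 1) (.e (nat_lit 267997) (nat_lit 0) .nil) .nil)))) (.nd (nat_lit 9) 
(.lf (nat_lit 538926) (.g (nat_lit 2185) (.e (nat_lit 73755) (nat_lit 8) (.e (nat_lit 557105) (nat_lit 14) (.e (nat_lit 180252) (nat_lit 10) (.e (nat_lit 573474) (nat_lit 12) (.e (nat_lit 57358) (nat_lit 0) .nil))))) (.g (nat_lit 0) (.e (nat_lit 267314) (nat_lit 0) .nil) .nil))) 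
(.lf (nat_lit 539438) (.g (nat_lit 1651) (.e (nat_lit 81922) (nat_lit 0) (.e (nat_lit 3305) (nat_lit 202) (.e (nat_lit 573487) (nat_lit 14) (.e (nat_lit 73779) (nat_lit 32) .nil)))) (.g (nat_lit 0) (.e (nat_lit 268491) (nat_lit 0) .nil) .nil))))) (.nd (nat_lit 8) (.nd (nat_lit 9) 
(.lf (nat_lit 538798) (.g (nat_lit 3774) (.e (nat_lit 73755) (nat_lit 8) (.e (nat_lit 557067) (nat_lit 9) (.e (nat_lit 2603) (nat_lit 163) (.e (nat_lit 164398) (nat_lit 256) (.e (nat_lit 57378) (nat_lit 3) (.e (nat_lit 98368) (nat_lit 27) (.e (nat_lit 434245) (nat_lit 28) (.e (nat_lit 573488) (nat_lit 14) .nil)))))))) (.g (nat_lit 1) (.e (nat_lit 266783) (nat_lit 0) .nil) .nil))) 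
(.lf (nat_lit 539310) (.g (nat_lit 3412) (.e (nat_lit 73782) (nat_lit 32) (.e (nat_lit 2856) (nat_lit 184) (.e (nat_lit 426542) (nat_lit 29) (.e (nat_lit 352309) (nat_lit 21) (.e (nat_lit 57871) (nat_lit 264) (.e (nat_lit 1210) (nat_lit 89) .nil)))))) (.g (nat_lit 1) (.e (nat_lit 268175) (nat_lit 0) .nil) .nil)))) (.nd (nat_lit 9) 
(.lf (nat_lit 539054) (.g (nat_lit 2412) (.e (nat_lit 73775) (nat_lit 26) (.e (nat_lit 778465) (nat_lit 11) (.e (nat_lit 24625) (nat_lit 9) (.e (nat_lit 336414) (nat_lit 27) (.e (nat_lit 425984) (nat_lit 0) .nil))))) (.g (nat_lit 0) (.e (nat_lit 267718) (nat_lit 0) .nil) .nil))) 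
(.lf (nat_lit 539566) (.g (nat_lit 228) (.e (nat_lit 81938) (nat_lit 20) (.e (nat_lit 1842) (nat_lit 123) (.e (nat_lit 548889) (nat_lit 9) .nil))) (.g (nat_lit 0) (.e (nat_lit 268991) (nat_lit 0) .nil) .nil)))))) (.nd (nat_lit 7) (.nd (nat_lit 8) (.nd (nat_lit 9) 
(.lf (nat_lit 538734) (.g (nat_lit 3218) (.e (nat_lit 73754) (nat_lit 8) (.e (nat_lit 557105) (nat_lit 14) (.e (nat_lit 180252) (nat_lit 10) (.e (nat_lit 573451) (nat_lit 9) (.e (nat_lit 1174) (nat_lit 87) .nil))))) (.g (nat_lit 0) (.e (nat_lit 266712) (nat_lit 0) .nil) .nil))) 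
(.lf (nat_lit 539246) (.g (nat_lit 3615) (.e (nat_lit 73781) (nat_lit 32) (.e (nat_lit 3090) (nat_lit 191) (.e (nat_lit 483394) (nat_lit 24) (.e (nat_lit 344097) (nat_lit 18) (.e (nat_lit 5905) (nat_lit 320) (.e (nat_lit 1209) (nat_lit 89) .nil)))))) (.g (nat_lit 1) (.e (nat_lit 268062) (nat_lit 0) .nil) .nil)))) (.nd (nat_lit 9) 
(.lf (nat_lit 538990) (.g (nat_lit 2633) (.e (nat_lit 73755) (nat_lit 8) (.e (nat_lit 557119) (nat_lit 18) (.e (nat_lit 2798) (nat_lit 180) (.e (nat_lit 303133) (nat_lit 9) (.e (nat_lit 426499) (nat_lit 27) (.e (nat_lit 336287) (nat_lit 15) (.e (nat_lit 7936) (nat_lit 407) .nil))))))) (.g (nat_lit 1) (.e (nat_lit 267403) (nat_lit 0) .nil) .nil))) 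
(.lf (nat_lit 539502) (.g (nat_lit 2149) (.e (nat_lit 89856) (nat_lit 0) (.e (nat_lit 3302) (nat_lit 202) (.e (nat_lit 573492) (nat_lit 15) (.e (nat_lit 81950) (nat_lit 21) .nil)))) (.g (nat_lit 0) (.e (nat_lit 268721) (nat_lit 0) .nil) .nil))))) (.nd (nat_lit 8) (.nd (nat_lit 9) 
(.lf (nat_lit 538862) (.g (nat_lit 2849) (.e (nat_lit 73755) (nat_lit 8) (.e (nat_lit 557104) (nat_lit 14) (.e (nat_lit 180250) (nat_lit 10) (.e (nat_lit 573473) (nat_lit 12) (.e (nat_lit 57501) (nat_lit 37) (.e (nat_lit 630799) (nat_lit 7) (.e (nat_lit 163979) (nat_lit 30) (.e (nat_lit 573489) (nat_lit 14) .nil)))))))) (.g (nat_lit 1) (.e (nat_lit 267019) (nat_lit 0) .nil) .nil))) 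
(.lf (nat_lit 539374) (.g (nat_lit 559) (.e (nat_lit 81664) (nat_lit 32) (.e (nat_lit 2668) (nat_lit 167) (.e (nat_lit 196630) (nat_lit 9) .nil))) (.g (nat_lit 0) (.e (nat_lit 268256) (nat_lit 0) .nil) .nil)))) (.nd (nat_lit 9) 
(.lf (nat_lit 539118) (.g (nat_lit 1415) (.e (nat_lit 73776) (nat_lit 26) (.e (nat_lit 778460) (nat_lit 11) (.e (nat_lit 24628) (nat_lit 9) (.e (nat_lit 336438) (nat_lit 31) (.e (nat_lit 466688) (nat_lit 5) .nil))))) (.g (nat_lit 1) (.e (nat_lit 267811) (nat_lit 0) .nil) .nil))) 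
(.lf (nat_lit 539630) (.g (nat_lit 580) (.e (nat_lit 81938) (nat_lit 20) (.e (nat_lit 2391) (nat_lit 156) (.e (nat_lit 819221) (nat_lit 6) (.e (nat_lit 188430) (nat_lit 20) .nil)))) (.g (nat_lit 0) (.e (nat_lit 269066) (nat_lit 0) .nil) .nil)))))))) (.nd (nat_lit 5) (.nd (nat_lit 6) (.nd (nat_lit 7) (.nd (nat_lit 8) (.nd (nat_lit 9) 
(.lf (nat_lit 538654) (.g (nat_lit 2966) (.e (nat_lit 73753) (nat_lit 8) (.e (nat_lit 557105) (nat_lit 14) (.e (nat_lit 180252) (nat_lit 10) (.e (nat_lit 573474) (nat_lit 12) (.e (nat_lit 57503) (nat_lit 38) (.e (nat_lit 638996) (nat_lit 7) (.e (nat_lit 163979) (nat_lit 30) (.e (nat_lit 573487) (nat_lit 14) .nil)))))))) (.g (nat_lit 1) (.e (nat_lit 266607) (nat_lit 0) .nil) .nil))) 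
(.lf (nat_lit 539166) (.g (nat_lit 3963) (.e (nat_lit 73781) (nat_lit 32) (.e (nat_lit 2856) (nat_lit 184) (.e (nat_lit 426509) (nat_lit 27) (.e (nat_lit 336193) (nat_lit 12) (.e (nat_lit 385094) (nat_lit 49) (.e (nat_lit 778323) (nat_lit 5) .nil)))))) (.g (nat_lit 1) (.e (nat_lit 267981) (nat_lit 0) .nil) .nil)))) (.nd (nat_lit 9) 
(.lf (nat_lit 538910) (.g (nat_lit 2196) (.e (nat_lit 73755) (nat_lit 8) (.e (nat_lit 557105) (nat_lit 14) (.e (nat_lit 180252) (nat_lit 10) (.e (nat_lit 573448) (nat_lit 9) .nil)))) (.g (nat_lit 0) (.e (nat_lit 267148) (nat_lit 0) .nil) .nil))) 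
(.lf (nat_lit 539422) (.g (nat_lit 698) (.e (nat_lit 73792) (nat_lit 45) (.e (nat_lit 1162) (nat_lit 86) (.e (nat_lit 49157) (nat_lit 0) (.e (nat_lit 2984) (nat_lit 186) (.e (nat_lit 450304) (nat_lit 2) (.e (nat_lit 98048) (nat_lit 5) .nil)))))) (.g (nat_lit 1) (.e (nat_lit 268441) (nat_lit 0) .nil) .nil))))) (.nd (nat_lit 8) (.nd (nat_lit 9) 
(.lf (nat_lit 538782) (.g (nat_lit 2466) (.e (nat_lit 73754) (nat_lit 8) (.e (nat_lit 557105) (nat_lit 14) (.e (nat_lit 180252) (nat_lit 10) (.e (nat_lit 573475) (nat_lit 12) (.e (nat_lit 57509) (nat_lit 39) (.e (nat_lit 655104) (nat_lit 0) (.e (nat_lit 2667) (nat_lit 167) (.e (nat_lit 196669) (nat_lit 14) .nil)))))))) (.g (nat_lit 1) (.e (nat_lit 266766) (nat_lit 0) .nil) .nil))) 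
(.lf (nat_lit 539294) (.g (nat_lit 3616) (.e (nat_lit 73782) (nat_lit 32) (.e (nat_lit 2856) (nat_lit 184) (.e (nat_lit 426509) (nat_lit 27) (.e (nat_lit 336205) (nat_lit 12) (.e (nat_lit 385094) (nat_lit 49) (.e (nat_lit 778323) (nat_lit 5) .nil)))))) (.g (nat_lit 1) (.e (nat_lit 268159) (nat_lit 0) .nil) .nil)))) (.nd (nat_lit 9) 
(.lf (nat_lit 539038) (.g (nat_lit 1569) (.e (nat_lit 73775) (nat_lit 26) (.e (nat_lit 778465) (nat_lit 11) (.e (nat_lit 24623) (nat_lit 9) (.e (nat_lit 336384) (nat_lit 27) .nil)))) (.g (nat_lit 0) (.e (nat_lit 267701) (nat_lit 0) .nil) .nil))) 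
(.lf (nat_lit 539550) (.g (nat_lit 1036) (.e (nat_lit 81934) (nat_lit 20) (.e (nat_lit 1994) (nat_lit 137) (.e (nat_lit 663567) (nat_lit 4) (.e (nat_lit 65609) (nat_lit 10) (.e (nat_lit 344169) (nat_lit 40) .nil))))) (.g (nat_lit 0) (.e (nat_lit 268943) (nat_lit 0) .nil) .nil)))))) (.nd (nat_lit 7) (.nd (nat_lit 8) (.nd (nat_lit 9) 
(.lf (nat_lit 538718) (.g (nat_lit 502) (.e (nat_lit 73754) (nat_lit 8) (.e (nat_lit 557100) (nat_lit 13) (.e (nat_lit 172067) (nat_lit 3) .nil))) (.g (nat_lit 0) (.e (nat_lit 266686) (nat_lit 0) .nil) .nil))) 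
(.lf (nat_lit 539230) (.g (nat_lit 2402) (.e (nat_lit 73781) (nat_lit 32) (.e (nat_lit 3090) (nat_lit 191) (.e (nat_lit 483380) (nat_lit 23) (.e (nat_lit 336332) (nat_lit 19) (.e (nat_lit 220928) (nat_lit 5) .nil))))) (.g (nat_lit 1) (.e (nat_lit 268046) (nat_lit 0) .nil) .nil)))) (.nd (nat_lit 9) 
(.lf (nat_lit 538974) (.g (nat_lit 2039) (.e (nat_lit 73755) (nat_lit 8) (.e (nat_lit 557119) (nat_lit 18) (.e (nat_lit 2797) (nat_lit 180) (.e (nat_lit 303145) (nat_lit 13) (.e (nat_lit 483331) (nat_lit 0) (.e (nat_lit 7936) (nat_lit 407) .nil)))))) (.g (nat_lit 1) (.e (nat_lit 267385) (nat_lit 0) .nil) .nil))) 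
(.lf (nat_lit 539486) (.g (nat_lit 1499) (.e (nat_lit 81924) (nat_lit 0) (.e (nat_lit 3747) (nat_lit 228) (.e (nat_lit 786473) (nat_lit 27) (.e (nat_lit 336116) (nat_lit 9) (.e (nat_lit 336331) (nat_lit 19) (.e (nat_lit 220928) (nat_lit 6) .nil)))))) (.g (nat_lit 1) (.e (nat_lit 268645) (nat_lit 0) .nil) .nil))))) (.nd (nat_lit 8) (.nd (nat_lit 9) 
(.lf (nat_lit 538846) (.g (nat_lit 2740) (.e (nat_lit 73755) (nat_lit 8) (.e (nat_lit 557103) (nat_lit 14) (.e (nat_lit 180251) (nat_lit 10) (.e (nat_lit 573475) (nat_lit 12) (.e (nat_lit 57504) (nat_lit 38) .nil))))) (.g (nat_lit 0) (.e (nat_lit 266910) (nat_lit 0) .nil) .nil))) 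
(.lf (nat_lit 539358) (.g (nat_lit 2272) (.e (nat_lit 73782) (nat_lit 32) (.e (nat_lit 3090) (nat_lit 191) (.e (nat_lit 483380) (nat_lit 23) (.e (nat_lit 336332) (nat_lit 19) (.e (nat_lit 220928) (nat_lit 5) .nil))))) (.g (nat_lit 1) (.e (nat_lit 268223) (nat_lit 0) .nil) .nil)))) (.nd (nat_lit 9) 
(.lf (nat_lit 539102) (.g (nat_lit 3666) (.e (nat_lit 73775) (nat_lit 26) (.e (nat_lit 778466) (nat_lit 11) (.e (nat_lit 24632) (nat_lit 9) (.e (nat_lit 336412) (nat_lit 27) (.e (nat_lit 426011) (nat_lit 0) (.e (nat_lit 7593) (nat_lit 407) .nil)))))) (.g (nat_lit 1) (.e (nat_lit 267788) (nat_lit 0) .nil) .nil))) 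
(.lf (nat_lit 539614) (.g (nat_lit 1711) (.e (nat_lit 81938) (nat_lit 20) (.e (nat_lit 2391) (nat_lit 156) (.e (nat_lit 819204) (nat_lit 0) (.e (nat_lit 2999) (nat_lit 186) (.e (nat_lit 450304) (nat_lit 2) (.e (nat_lit 98048) (nat_lit 6) .nil)))))) (.g (nat_lit 1) (.e (nat_lit 269049) (nat_lit 0) .nil) .nil))))))) (.nd (nat_lit 6) (.nd (nat_lit 7) (.nd (nat_lit 8) (.nd (nat_lit 9) 
(.lf (nat_lit 538686) (.g (nat_lit 3855) (.e (nat_lit 73753) (nat_lit 8) (.e (nat_lit 557119) (nat_lit 18) (.e (nat_lit 2798) (nat_lit 180) (.e (nat_lit 303119) (nat_lit 3) (.e (nat_lit 204838) (nat_lit 20) (.e (nat_lit 114715) (nat_lit 22) (.e (nat_lit 98048) (nat_lit 5) .nil))))))) (.g (nat_lit 1) (.e (nat_lit 266646) (nat_lit 0) .nil) .nil))) 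
(.lf (nat_lit 539198) (.g (nat_lit 2205) (.e (nat_lit 73781) (nat_lit 32) (.e (nat_lit 3088) (nat_lit 191) (.e (nat_lit 483402) (nat_lit 26) (.e (nat_lit 385094) (nat_lit 49) (.e (nat_lit 778324) (nat_lit 5) .nil))))) (.g (nat_lit 1) (.e (nat_lit 268014) (nat_lit 0) .nil) .nil)))) (.nd (nat_lit 9) 
(.lf (nat_lit 538942) (.g (nat_lit 2992) (.e (nat_lit 73755) (nat_lit 8) (.e (nat_lit 557105) (nat_lit 14) (.e (nat_lit 180252) (nat_lit 10) (.e (nat_lit 573474) (nat_lit 12) (.e (nat_lit 57506) (nat_lit 39) (.e (nat_lit 647175) (nat_lit 0) (.e (nat_lit 2667) (nat_lit 167) (.e (nat_lit 196670) (nat_lit 14) .nil)))))))) (.g (nat_lit 1) (.e (nat_lit 267338) (nat_lit 0) .nil) .nil))) 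
(.lf (nat_lit 539454) (.g (nat_lit 1320) (.e (nat_lit 81922) (nat_lit 0) (.e (nat_lit 3747) (nat_lit 228) (.e (nat_lit 786480) (nat_lit 29) (.e (nat_lit 352316) (nat_lit 24) .nil)))) (.g (nat_lit 0) (.e (nat_lit 268535) (nat_lit 0) .nil) .nil))))) (.nd (nat_lit 8) (.nd (nat_lit 9) 
(.lf (nat_lit 538814) (.g (nat_lit 4341) (.e (nat_lit 73755) (nat_lit 8) (.e (nat_lit 557090) (nat_lit 12) (.e (nat_lit 163844) (nat_lit 0) (.e (nat_lit 5942) (nat_lit 322) (.e (nat_lit 57373) (nat_lit 2) (.e (nat_lit 90173) (nat_lit 14) (.e (nat_lit 180252) (nat_lit 10) (.e (nat_lit 573489) (nat_lit 14) .nil)))))))) (.g (nat_lit 1) (.e (nat_lit 266814) (nat_lit 0) .nil) .nil))) 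
(.lf (nat_lit 539326) (.g (nat_lit 2521) (.e (nat_lit 73782) (nat_lit 32) (.e (nat_lit 2856) (nat_lit 184) (.e (nat_lit 426555) (nat_lit 32) (.e (nat_lit 376859) (nat_lit 21) (.e (nat_lit 57871) (nat_lit 264) (.e (nat_lit 1210) (nat_lit 89) .nil)))))) (.g (nat_lit 1) (.e (nat_lit 268191) (nat_lit 0) .nil) .nil)))) (.nd (nat_lit 9) 
(.lf (nat_lit 539070) (.g (nat_lit 2589) (.e (nat_lit 73775) (nat_lit 26) (.e (nat_lit 778466) (nat_lit 11) (.e (nat_lit 24623) (nat_lit 9) (.e (nat_lit 336389) (nat_lit 27) (.e (nat_lit 426012) (nat_lit 0) (.e (nat_lit 7591) (nat_lit 407) .nil)))))) (.g (nat_lit 1) (.e (nat_lit 267752) (nat_lit 0) .nil) .nil))) 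
(.lf (nat_lit 539582) (.g (nat_lit 961) (.e (nat_lit 81938) (nat_lit 20) (.e (nat_lit 2390) (nat_lit 156) (.e (nat_lit 819203) (nat_lit 0) (.e (nat_lit 2998) (nat_lit 186) (.e (nat_lit 450304) (nat_lit 2) (.e (nat_lit 98048) (nat_lit 6) .nil)))))) (.g (nat_lit 1) (.e (nat_lit 269015) (nat_lit 0) .nil) .nil)))))) (.nd (nat_lit 7) (.nd (nat_lit 8) (.nd (nat_lit 9) 
(.lf (nat_lit 538750) (.g (nat_lit 2660) (.e (nat_lit 73754) (nat_lit 8) (.e (nat_lit 557105) (nat_lit 14) (.e (nat_lit 180252) (nat_lit 10) (.e (nat_lit 573473) (nat_lit 12) (.e (nat_lit 57508) (nat_lit 39) (.e (nat_lit 655104) (nat_lit 0) (.e (nat_lit 2667) (nat_lit 167) (.e (nat_lit 196667) (nat_lit 14) .nil)))))))) (.g (nat_lit 1) (.e (nat_lit 266733) (nat_lit 0) .nil) .nil))) 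
(.lf (nat_lit 539262) (.g (nat_lit 2780) (.e (nat_lit 73781) (nat_lit 32) (.e (nat_lit 3090) (nat_lit 191) (.e (nat_lit 483402) (nat_lit 26) (.e (nat_lit 385093) (nat_lit 49) (.e (nat_lit 778324) (nat_lit 5) .nil))))) (.g (nat_lit 1) (.e (nat_lit 268078) (nat_lit 0) .nil) .nil)))) (.nd (nat_lit 9) 
(.lf (nat_lit 539006) (.g (nat_lit 489) (.e (nat_lit 73764) (nat_lit 18) (.e (nat_lit 638998) (nat_lit 8) (.e (nat_lit 172082) (nat_lit 7) .nil))) (.g (nat_lit 0) (.e (nat_lit 267493) (nat_lit 0) .nil) .nil))) 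
(.lf (nat_lit 539518) (.g (nat_lit 1570) (.e (nat_lit 89856) (nat_lit 0) (.e (nat_lit 3605) (nat_lit 225) (.e (nat_lit 761914) (nat_lit 18) (.e (nat_lit 188455) (nat_lit 24) (.e (nat_lit 229627) (nat_lit 226) .nil))))) (.g (nat_lit 0) (.e (nat_lit 268813) (nat_lit 0) .nil) .nil))))) (.nd (nat_lit 8) (.nd (nat_lit 9) 
(.lf (nat_lit 538878) (.g (nat_lit 450) (.e (nat_lit 73755) (nat_lit 8) (.e (nat_lit 557104) (nat_lit 14) (.e (nat_lit 180252) (nat_lit 10) .nil))) (.g (nat_lit 0) (.e (nat_lit 267035) (nat_lit 0) .nil) .nil))) 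
(.lf (nat_lit 539390) (.g (nat_lit 1664) (.e (nat_lit 81664) (nat_lit 34) (.e (nat_lit 24679) (nat_lit 27) (.e (nat_lit 426172) (nat_lit 7) (.e (nat_lit 409617) (nat_lit 10) (.e (nat_lit 632) (nat_lit 50) .nil))))) (.g (nat_lit 0) (.e (nat_lit 268334) (nat_lit 0) .nil) .nil)))) (.nd (nat_lit 9) 
(.lf (nat_lit 539134) (.g (nat_lit 3139) (.e (nat_lit 73776) (nat_lit 26) (.e (nat_lit 778466) (nat_lit 11) (.e (nat_lit 24632) (nat_lit 9) (.e (nat_lit 336412) (nat_lit 27) (.e (nat_lit 426011) (nat_lit 0) (.e (nat_lit 7591) (nat_lit 407) .nil)))))) (.g (nat_lit 1) (.e (nat_lit 267835) (nat_lit 0) .nil) .nil))) 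
(.lf (nat_lit 539646) (.g (nat_lit 591) (.e (nat_lit 81939) (nat_lit 20) (.e (nat_lit 2390) (nat_lit 156) (.e (nat_lit 819203) (nat_lit 0) (.e (nat_lit 3004) (nat_lit 186) (.e (nat_lit 450304) (nat_lit 2) (.e (nat_lit 98048) (nat_lit 6) .nil)))))) (.g (nat_lit 1) (.e (nat_lit 269092) (nat_lit 0) .nil) .nil)))))))))))) 
(.nd (nat_lit 1) (.nd (nat_lit 2) (.nd (nat_lit 3) (.nd (nat_lit 4) (.nd (nat_lit 5) 
(.nd (nat_lit 6) (.nd (nat_lit 7) (.nd (nat_lit 8) (.nd (nat_lit 9) 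
(.lf (nat_lit 538625) (.g (nat_lit 3196) (.e (nat_lit 73753) (nat_lit 8) (.e (nat_lit 557104) (nat_lit 14) (.e (nat_lit 180252) (nat_lit 10) (.e (nat_lit 573475) (nat_lit 12) (.e (nat_lit 57503) (nat_lit 38) (.e (nat_lit 638996) (nat_lit 7) (.e (nat_lit 163979) (nat_lit 30) (.e (nat_lit 573487) (nat_lit 14) .nil)))))))) (.g (nat_lit 1) (.e (nat_lit 266570) (nat_lit 0) .nil) .nil))) 
(.lf (nat_lit 539137) (.g (nat_lit 2350) (.e (nat_lit 81664) (nat_lit 27) (.e (nat_lit 786481) (nat_lit 30) (.e (nat_lit 360466) (nat_lit 3) (.e (nat_lit 516120) (nat_lit 1) (.e (nat_lit 164160) (nat_lit 152) .nil))))) (.g (nat_lit 0) (.e (nat_lit 267847) (nat_lit 0) .nil) .nil)))) (.nd (nat_lit 9) 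
(.lf (nat_lit 538881) (.g (nat_lit 2814) (.e (nat_lit 73755) (nat_lit 8) (.e (nat_lit 557104) (nat_lit 14) (.e (nat_lit 180252) (nat_lit 10) (.e (nat_lit 573474) (nat_lit 12) (.e (nat_lit 57500) (nat_lit 37) (.e (nat_lit 630799) (nat_lit 7) (.e (nat_lit 163979) (nat_lit 30) (.e (nat_lit 573489) (nat_lit 14) .nil)))))))) (.g (nat_lit 1) (.e (nat_lit 267043) (nat_lit 0) .nil) .nil))) 
(.lf (nat_lit 539393) (.g (nat_lit 243) (.e (nat_lit 81664) (nat_lit 35) (.e (nat_lit 163950) (nat_lit 21) (.e (nat_lit 507648) (nat_lit 19) .nil))) (.g (nat_lit 0) (.e (nat_lit 268338) (nat_lit 0) .nil) .nil))))) (.nd (nat_lit 8) (.nd (nat_lit 9) 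
(.lf (nat_lit 538753) (.g (nat_lit 2575) (.e (nat_lit 73754) (nat_lit 8) (.e (nat_lit 557105) (nat_lit 14) (.e (nat_lit 180252) (nat_lit 10) (.e (nat_lit 573473) (nat_lit 12) (.e (nat_lit 57511) (nat_lit 39) (.e (nat_lit 655104) (nat_lit 0) (.e (nat_lit 2667) (nat_lit 167) (.e (nat_lit 196667) (nat_lit 14) .nil)))))))) (.g (nat_lit 1) (.e (nat_lit 266736) (nat_lit 0) .nil) .nil))) 
(.lf (nat_lit 539265) (.g (nat_lit 1696) (.e (nat_lit 73781) (nat_lit 32) (.e (nat_lit 3090) (nat_lit 191) (.e (nat_lit 483403) (nat_lit 26) (.e (nat_lit 385091) (nat_lit 49) (.e (nat_lit 778323) (nat_lit 5) .nil))))) (.g (nat_lit 0) (.e (nat_lit 268081) (nat_lit 0) .nil) .nil)))) (.nd (nat_lit 9) 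
(.lf (nat_lit 539009) (.g (nat_lit 1461) (.e (nat_lit 73767) (nat_lit 19) (.e (nat_lit 647199) (nat_lit 11) (.e (nat_lit 16392) (nat_lit 0) (.e (nat_lit 7107) (nat_lit 380) (.e (nat_lit 164281) (nat_lit 222) .nil))))) (.g (nat_lit 0) (.e (nat_lit 267578) (nat_lit 0) .nil) .nil))) 
(.lf (nat_lit 539521) (.g (nat_lit 1468) (.e (nat_lit 89856) (nat_lit 3) (.e (nat_lit 204837) (nat_lit 20) (.e (nat_lit 114698) (nat_lit 11) (.e (nat_lit 426123) (nat_lit 2) .nil)))) (.g (nat_lit 0) (.e (nat_lit 268829) (nat_lit 0) .nil) .nil)))))) (.nd (nat_lit 7) (.nd (nat_lit 8) (.nd (nat_lit 9) 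
(.lf (nat_lit 538689) (.g (nat_lit 3665) (.e (nat_lit 73753) (nat_lit 8) (.e (nat_lit 557119) (nat_lit 18) (.e (nat_lit 2798) (nat_lit 180) (.e (nat_lit 303133) (nat_lit 9) (.e (nat_lit 426499) (nat_lit 27) (.e (nat_lit 336271) (nat_lit 15) (.e (nat_lit 7936) (nat_lit 407) .nil))))))) (.g (nat_lit 1) (.e (nat_lit 266649) (nat_lit 0) .nil) .nil))) 
(.lf (nat_lit 539201) (.g (nat_lit 1548) (.e (nat_lit 73781) (nat_lit 32) (.e (nat_lit 3089) (nat_lit 191) (.e (nat_lit 483379) (nat_lit 23) (.e (nat_lit 336330) (nat_lit 19) (.e (nat_lit 220928) (nat_lit 5) .nil))))) (.g (nat_lit 1) (.e (nat_lit 268017) (nat_lit 0) .nil) .nil)))) (.nd (nat_lit 9) 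
(.lf (nat_lit 538945) (.g (nat_lit 2243) (.e (nat_lit 73755) (nat_lit 8) (.e (nat_lit 557105) (nat_lit 14) (.e (nat_lit 180252) (nat_lit 10) (.e (nat_lit 573474) (nat_lit 12) (.e (nat_lit 57507) (nat_lit 39) (.e (nat_lit 655104) (nat_lit 0) (.e (nat_lit 2657) (nat_lit 167) (.e (nat_lit 196667) (nat_lit 14) .nil)))))))) (.g (nat_lit 1) (.e (nat_lit 267341) (nat_lit 0) .nil) .nil))) 
(.lf (nat_lit 539457) (.g (nat_lit 1719) (.e (nat_lit 81922) (nat_lit 0) (.e (nat_lit 3747) (nat_lit 228) (.e (nat_lit 786483) (nat_lit 30) (.e (nat_lit 360451) (nat_lit 0) (.e (nat_lit 7936) (nat_lit 320) .nil))))) (.g (nat_lit 0) (.e (nat_lit 268538) (nat_lit 0) .nil) .nil))))) (.nd (nat_lit 8) (.nd (nat_lit 9) 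
(.lf (nat_lit 538817) (.g (nat_lit 4776) (.e (nat_lit 73755) (nat_lit 8) (.e (nat_lit 557090) (nat_lit 12) (.e (nat_lit 163844) (nat_lit 0) (.e (nat_lit 5943) (nat_lit 322) (.e (nat_lit 57375) (nat_lit 2) (.e (nat_lit 90174) (nat_lit 14) (.e (nat_lit 180252) (nat_lit 10) (.e (nat_lit 573489) (nat_lit 14) .nil)))))))) (.g (nat_lit 1) (.e (nat_lit 266817) (nat_lit 0) .nil) .nil))) 
(.lf (nat_lit 539329) (.g (nat_lit 3574) (.e (nat_lit 73782) (nat_lit 32) (.e (nat_lit 2856) (nat_lit 184) (.e (nat_lit 426555) (nat_lit 32) (.e (nat_lit 376860) (nat_lit 21) (.e (nat_lit 57870) (nat_lit 264) (.e (nat_lit 1209) (nat_lit 89) .nil)))))) (.g (nat_lit 1) (.e (nat_lit 268194) (nat_lit 0) .nil) .nil)))) (.nd (nat_lit 9) 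
(.lf (nat_lit 539073) (.g (nat_lit 4100) (.e (nat_lit 73775) (nat_lit 26) (.e (nat_lit 778466) (nat_lit 11) (.e (nat_lit 24623) (nat_lit 9) (.e (nat_lit 336412) (nat_lit 27) (.e (nat_lit 426011) (nat_lit 0) (.e (nat_lit 7593) (nat_lit 407) .nil)))))) (.g (nat_lit 1) (.e (nat_lit 267755) (nat_lit 0) .nil) .nil))) 
(.lf (nat_lit 539585) (.g (nat_lit 1180) (.e (nat_lit 81938) (nat_lit 20) (.e (nat_lit 2390) (nat_lit 156) (.e (nat_lit 819203) (nat_lit 0) (.e (nat_lit 3016) (nat_lit 187) (.e (nat_lit 458496) (nat_lit 8) (.e (nat_lit 564992) (nat_lit 6) .nil)))))) (.g (nat_lit 1) (.e (nat_lit 269019) (nat_lit 0) .nil) .nil))))))) (.nd (nat_lit 6) (.nd (nat_lit 7) (.nd (nat_lit 8) (.nd (nat_lit 9) 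
(.lf (nat_lit 538657) (.g (nat_lit 3112) (.e (nat_lit 73753) (nat_lit 8) (.e (nat_lit 557105) (nat_lit 14) (.e (nat_lit 180252) (nat_lit 10) (.e (nat_lit 573474) (nat_lit 12) (.e (nat_lit 57504) (nat_lit 38) (.e (nat_lit 638996) (nat_lit 7) (.e (nat_lit 163977) (nat_lit 30) (.e (nat_lit 573487) (nat_lit 14) .nil)))))))) (.g (nat_lit 1) (.e (nat_lit 266610) (nat_lit 0) .nil) .nil))) 
(.lf (nat_lit 539169) (.g (nat_lit 1618) (.e (nat_lit 73781) (nat_lit 32) (.e (nat_lit 2856) (nat_lit 184) (.e (nat_lit 426540) (nat_lit 29) (.e (nat_lit 352265) (nat_lit 0) .nil)))) (.g (nat_lit 0) (.e (nat_lit 267984) (nat_lit 0) .nil) .nil)))) (.nd (nat_lit 9) 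
(.lf (nat_lit 538913) (.g (nat_lit 2642) (.e (nat_lit 73755) (nat_lit 8) (.e (nat_lit 557105) (nat_lit 14) (.e (nat_lit 180252) (nat_lit 10) (.e (nat_lit 573451) (nat_lit 9) (.e (nat_lit 1286) (nat_lit 95) .nil))))) (.g (nat_lit 0) (.e (nat_lit 267212) (nat_lit 0) .nil) .nil))) 
(.lf (nat_lit 539425) (.g (nat_lit 1503) (.e (nat_lit 81920) (nat_lit 0) (.e (nat_lit 3715) (nat_lit 227) (.e (nat_lit 778325) (nat_lit 6) (.e (nat_lit 81922) (nat_lit 0) (.e (nat_lit 3632) (nat_lit 227) (.e (nat_lit 778327) (nat_lit 6) .nil)))))) (.g (nat_lit 1) (.e (nat_lit 268445) (nat_lit 0) .nil) .nil))))) (.nd (nat_lit 8) (.nd (nat_lit 9) 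
(.lf (nat_lit 538785) (.g (nat_lit 2558) (.e (nat_lit 73754) (nat_lit 8) (.e (nat_lit 557105) (nat_lit 14) (.e (nat_lit 180252) (nat_lit 10) (.e (nat_lit 573478) (nat_lit 12) .nil)))) (.g (nat_lit 0) (.e (nat_lit 266769) (nat_lit 0) .nil) .nil))) 
(.lf (nat_lit 539297) (.g (nat_lit 1390) (.e (nat_lit 73782) (nat_lit 32) (.e (nat_lit 2856) (nat_lit 184) (.e (nat_lit 426538) (nat_lit 29) (.e (nat_lit 352309) (nat_lit 21) (.e (nat_lit 57871) (nat_lit 264) .nil))))) (.g (nat_lit 0) (.e (nat_lit 268162) (nat_lit 0) .nil) .nil)))) (.nd (nat_lit 9) 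
(.lf (nat_lit 539041) (.g (nat_lit 1569) (.e (nat_lit 73775) (nat_lit 26) (.e (nat_lit 778465) (nat_lit 11) (.e (nat_lit 24623) (nat_lit 9) (.e (nat_lit 336416) (nat_lit 27) .nil)))) (.g (nat_lit 0) (.e (nat_lit 267704) (nat_lit 0) .nil) .nil))) 
(.lf (nat_lit 539553) (.g (nat_lit 1151) (.e (nat_lit 81934) (nat_lit 20) (.e (nat_lit 1996) (nat_lit 137) (.e (nat_lit 663569) (nat_lit 6) (.e (nat_lit 81939) (nat_lit 20) (.e (nat_lit 2006) (nat_lit 138) (.e (nat_lit 671764) (nat_lit 6) .nil)))))) (.g (nat_lit 1) (.e (nat_lit 268946) (nat_lit 0) .nil) .nil)))))) (.nd (nat_lit 7) (.nd (nat_lit 8) (.nd (nat_lit 9) 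
(.lf (nat_lit 538721) (.g (nat_lit 2707) (.e (nat_lit 73754) (nat_lit 8) (.e (nat_lit 557101) (nat_lit 13) (.e (nat_lit 172067) (nat_lit 3) (.e (nat_lit 204816) (nat_lit 17) (.e (nat_lit 2273) (nat_lit 149) .nil))))) (.g (nat_lit 0) (.e (nat_lit 266694) (nat_lit 0) .nil) .nil))) 
(.lf (nat_lit 539233) (.g (nat_lit 2800) (.e (nat_lit 73781) (nat_lit 32) (.e (nat_lit 3090) (nat_lit 191) (.e (nat_lit 483383) (nat_lit 23) (.e (nat_lit 336240) (nat_lit 15) (.e (nat_lit 3623) (nat_lit 227) (.e (nat_lit 778324) (nat_lit 5) .nil)))))) (.g (nat_lit 1) (.e (nat_lit 268049) (nat_lit 0) .nil) .nil)))) (.nd (nat_lit 9) 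
(.lf (nat_lit 538977) (.g (nat_lit 2894) (.e (nat_lit 73755) (nat_lit 8) (.e (nat_lit 557119) (nat_lit 18) (.e (nat_lit 2797) (nat_lit 180) (.e (nat_lit 303145) (nat_lit 13) (.e (nat_lit 483334) (nat_lit 0) (.e (nat_lit 7936) (nat_lit 407) .nil)))))) (.g (nat_lit 1) (.e (nat_lit 267388) (nat_lit 0) .nil) .nil))) 
(.lf (nat_lit 539489) (.g (nat_lit 957) (.e (nat_lit 81924) (nat_lit 0) (.e (nat_lit 3747) (nat_lit 228) (.e (nat_lit 786478) (nat_lit 29) (.e (nat_lit 352262) (nat_lit 0) .nil)))) (.g (nat_lit 0) (.e (nat_lit 268648) (nat_lit 0) .nil) .nil))))) (.nd (nat_lit 8) (.nd (nat_lit 9) 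
(.lf (nat_lit 538849) (.g (nat_lit 3003) (.e (nat_lit 73755) (nat_lit 8) (.e (nat_lit 557104) (nat_lit 14) (.e (nat_lit 180244) (nat_lit 5) (.e (nat_lit 532481) (nat_lit 0) (.e (nat_lit 2266) (nat_lit 149) (.e (nat_lit 761894) (nat_lit 15) (.e (nat_lit 163979) (nat_lit 30) (.e (nat_lit 573489) (nat_lit 14) .nil)))))))) (.g (nat_lit 1) (.e (nat_lit 266915) (nat_lit 0) .nil) .nil))) 
(.lf (nat_lit 539361) (.g (nat_lit 1990) (.e (nat_lit 73782) (nat_lit 32) (.e (nat_lit 3090) (nat_lit 191) (.e (nat_lit 483383) (nat_lit 23) (.e (nat_lit 336332) (nat_lit 19) (.e (nat_lit 220928) (nat_lit 5) .nil))))) (.g (nat_lit 1) (.e (nat_lit 268226) (nat_lit 0) .nil) .nil)))) (.nd (nat_lit 9) 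
(.lf (nat_lit 539105) (.g (nat_lit 2010) (.e (nat_lit 73775) (nat_lit 26) (.e (nat_lit 778466) (nat_lit 11) (.e (nat_lit 24636) (nat_lit 9) (.e (nat_lit 336402) (nat_lit 27) (.e (nat_lit 425987) (nat_lit 0) (.e (nat_lit 7590) (nat_lit 407) .nil)))))) (.g (nat_lit 1) (.e (nat_lit 267793) (nat_lit 0) .nil) .nil))) 
(.lf (nat_lit 539617) (.g (nat_lit 1954) (.e (nat_lit 81938) (nat_lit 20) (.e (nat_lit 2391) (nat_lit 156) (.e (nat_lit 819204) (nat_lit 0) (.e (nat_lit 3016) (nat_lit 187) (.e (nat_lit 458496) (nat_lit 8) (.e (nat_lit 564992) (nat_lit 6) .nil)))))) (.g (nat_lit 1) (.e (nat_lit 269052) (nat_lit 0) .nil) .nil)))))))) 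
(.nd (nat_lit 5) (.nd (nat_lit 6) (.nd (nat_lit 7) (.nd (nat_lit 8) (.nd (nat_lit 9) 
(.lf (nat_lit 538641) (.g (nat_lit 3009) (.e (nat_lit 73753) (nat_lit 8) (.e (nat_lit 557105) (nat_lit 14) (.e (nat_lit 180252) (nat_lit 10) (.e (nat_lit 573451) (nat_lit 9) (.e (nat_lit 1173) (nat_lit 87) .nil))))) (.g (nat_lit 0) (.e (nat_lit 266592) (nat_lit 0) .nil) .nil))) 
(.lf (nat_lit 539153) (.g (nat_lit 1390) (.e (nat_lit 73781) (nat_lit 32) (.e (nat_lit 2664) (nat_lit 167) (.e (nat_lit 196668) (nat_lit 14) (.e (nat_lit 73782) (nat_lit 32) (.e (nat_lit 2663) (nat_lit 167) .nil))))) (.g (nat_lit 0) (.e (nat_lit 267952) (nat_lit 0) .nil) .nil)))) (.nd (nat_lit 9) 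
(.lf (nat_lit 538897) (.g (nat_lit 2077) (.e (nat_lit 73755) (nat_lit 8) (.e (nat_lit 557105) (nat_lit 14) (.e (nat_lit 180245) (nat_lit 5) (.e (nat_lit 532490) (nat_lit 0) (.e (nat_lit 2270) (nat_lit 149) .nil))))) (.g (nat_lit 0) (.e (nat_lit 267121) (nat_lit 0) .nil) .nil))) 
(.lf (nat_lit 539409) (.g (nat_lit 2570) (.e (nat_lit 73789) (nat_lit 45) (.e (nat_lit 1117) (nat_lit 82) (.e (nat_lit 8399) (nat_lit 120) (.e (nat_lit 2649) (nat_lit 166) (.e (nat_lit 188434) (nat_lit 20) (.e (nat_lit 3578) (nat_lit 223) (.e (nat_lit 745492) (nat_lit 5) .nil))))))) (.g (nat_lit 1) (.e (nat_lit 268413) (nat_lit 0) .nil) .nil))))) (.nd (nat_lit 8) (.nd (nat_lit 9) 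
(.lf (nat_lit 538769) (.g (nat_lit 2436) (.e (nat_lit 73754) (nat_lit 8) (.e (nat_lit 557105) (nat_lit 14) (.e (nat_lit 180252) (nat_lit 10) (.e (nat_lit 573475) (nat_lit 12) (.e (nat_lit 57507) (nat_lit 39) (.e (nat_lit 647176) (nat_lit 0) (.e (nat_lit 2663) (nat_lit 167) (.e (nat_lit 196669) (nat_lit 14) .nil)))))))) (.g (nat_lit 1) (.e (nat_lit 266753) (nat_lit 0) .nil) .nil))) 
(.lf (nat_lit 539281) (.g (nat_lit 3523) (.e (nat_lit 73782) (nat_lit 32) (.e (nat_lit 2663) (nat_lit 167) (.e (nat_lit 196674) (nat_lit 15) (.e (nat_lit 81922) (nat_lit 0) (.e (nat_lit 3305) (nat_lit 202) (.e (nat_lit 573489) (nat_lit 14) .nil)))))) (.g (nat_lit 1) (.e (nat_lit 268114) (nat_lit 0) .nil) .nil)))) (.nd (nat_lit 9) 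
(.lf (nat_lit 539025) (.g (nat_lit 1584) (.e (nat_lit 73775) (nat_lit 26) (.e (nat_lit 778463) (nat_lit 11) (.e (nat_lit 24630) (nat_lit 9) (.e (nat_lit 336421) (nat_lit 28) (.e (nat_lit 442112) (nat_lit 5) .nil))))) (.g (nat_lit 1) (.e (nat_lit 267682) (nat_lit 0) .nil) .nil))) 
(.lf (nat_lit 539537) (.g (nat_lit 2391) (.e (nat_lit 81927) (nat_lit 11) (.e (nat_lit 426500) (nat_lit 27) (.e (nat_lit 335988) (nat_lit 1) (.e (nat_lit 57928) (nat_lit 282) (.e (nat_lit 163871) (nat_lit 2) (.e (nat_lit 196672) (nat_lit 15) .nil)))))) (.g (nat_lit 1) (.e (nat_lit 268870) (nat_lit 0) .nil) .nil)))))) (.nd (nat_lit 7) (.nd (nat_lit 8) (.nd (nat_lit 9) 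
(.lf (nat_lit 538705) (.g (nat_lit 2729) (.e (nat_lit 73753) (nat_lit 8) (.e (nat_lit 557119) (nat_lit 18) (.e (nat_lit 2798) (nat_lit 180) (.e (nat_lit 303145) (nat_lit 13) (.e (nat_lit 483334) (nat_lit 0) (.e (nat_lit 7936) (nat_lit 407) .nil)))))) (.g (nat_lit 1) (.e (nat_lit 266665) (nat_lit 0) .nil) .nil))) 
(.lf (nat_lit 539217) (.g (nat_lit 1985) (.e (nat_lit 73781) (nat_lit 32) (.e (nat_lit 3089) (nat_lit 191) (.e (nat_lit 483406) (nat_lit 26) (.e (nat_lit 385096) (nat_lit 49) (.e (nat_lit 786176) (nat_lit 5) .nil))))) (.g (nat_lit 1) (.e (nat_lit 268033) (nat_lit 0) .nil) .nil)))) (.nd (nat_lit 9) 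
(.lf (nat_lit 538961) (.g (nat_lit 2446) (.e (nat_lit 73755) (nat_lit 8) (.e (nat_lit 557105) (nat_lit 14) (.e (nat_lit 180252) (nat_lit 10) (.e (nat_lit 573475) (nat_lit 12) (.e (nat_lit 57503) (nat_lit 38) (.e (nat_lit 646912) (nat_lit 7) (.e (nat_lit 163978) (nat_lit 30) (.e (nat_lit 573489) (nat_lit 14) .nil)))))))) (.g (nat_lit 1) (.e (nat_lit 267364) (nat_lit 0) .nil) .nil))) 
(.lf (nat_lit 539473) (.g (nat_lit 3298) (.e (nat_lit 81924) (nat_lit 0) (.e (nat_lit 3305) (nat_lit 202) (.e (nat_lit 573487) (nat_lit 14) (.e (nat_lit 73782) (nat_lit 32) (.e (nat_lit 2663) (nat_lit 167) (.e (nat_lit 196672) (nat_lit 15) .nil)))))) (.g (nat_lit 1) (.e (nat_lit 268613) (nat_lit 0) .nil) .nil))))) (.nd (nat_lit 8) (.nd (nat_lit 9) 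
(.lf (nat_lit 538833) (.g (nat_lit 425) (.e (nat_lit 73755) (nat_lit 8) (.e (nat_lit 557098) (nat_lit 13) (.e (nat_lit 179968) (nat_lit 18) .nil))) (.g (nat_lit 0) (.e (nat_lit 266868) (nat_lit 0) .nil) .nil))) 
(.lf (nat_lit 539345) (.g (nat_lit 1360) (.e (nat_lit 73782) (nat_lit 32) (.e (nat_lit 3089) (nat_lit 191) (.e (nat_lit 483383) (nat_lit 23) (.e (nat_lit 336301) (nat_lit 15) .nil)))) (.g (nat_lit 0) (.e (nat_lit 268210) (nat_lit 0) .nil) .nil)))) (.nd (nat_lit 9) 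
(.lf (nat_lit 539089) (.g (nat_lit 2249) (.e (nat_lit 73775) (nat_lit 26) (.e (nat_lit 778466) (nat_lit 11) (.e (nat_lit 24628) (nat_lit 9) (.e (nat_lit 336422) (nat_lit 28) (.e (nat_lit 442112) (nat_lit 5) .nil))))) (.g (nat_lit 1) (.e (nat_lit 267774) (nat_lit 0) .nil) .nil))) 
(.lf (nat_lit 539601) (.g (nat_lit 1048) (.e (nat_lit 81938) (nat_lit 20) (.e (nat_lit 2390) (nat_lit 156) (.e (nat_lit 819221) (nat_lit 6) (.e (nat_lit 188427) (nat_lit 20) (.e (nat_lit 3282) (nat_lit 200) (.e (nat_lit 564992) (nat_lit 6) .nil)))))) (.g (nat_lit 1) (.e (nat_lit 269035) (nat_lit 0) .nil) .nil))))))) (.nd (nat_lit 6) (.nd (nat_lit 7) (.nd (nat_lit 8) (.nd (nat_lit 9) 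
(.lf (nat_lit 538673) (.g (nat_lit 2542) (.e (nat_lit 73753) (nat_lit 8) (.e (nat_lit 557105) (nat_lit 14) (.e (nat_lit 180252) (nat_lit 10) (.e (nat_lit 573478) (nat_lit 12) .nil)))) (.g (nat_lit 0) (.e (nat_lit 266631) (nat_lit 0) .nil) .nil))) 
(.lf (nat_lit 539185) (.g (nat_lit 2162) (.e (nat_lit 73781) (nat_lit 32) (.e (nat_lit 2857) (nat_lit 184) (.e (nat_lit 426542) (nat_lit 29) (.e (nat_lit 352297) (nat_lit 20) (.e (nat_lit 2005) (nat_lit 138) (.e (nat_lit 671763) (nat_lit 5) .nil)))))) (.g (nat_lit 1) (.e (nat_lit 268000) (nat_lit 0) .nil) .nil)))) (.nd (nat_lit 9) 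
(.lf (nat_lit 538929) (.g (nat_lit 2716) (.e (nat_lit 73755) (nat_lit 8) (.e (nat_lit 557105) (nat_lit 14) (.e (nat_lit 180252) (nat_lit 10) (.e (nat_lit 573474) (nat_lit 12) (.e (nat_lit 57500) (nat_lit 37) (.e (nat_lit 630799) (nat_lit 7) (.e (nat_lit 163975) (nat_lit 30) (.e (nat_lit 573488) (nat_lit 14) .nil)))))))) (.g (nat_lit 1) (.e (nat_lit 267325) (nat_lit 0) .nil) .nil))) 
(.lf (nat_lit 539441) (.g (nat_lit 1079) (.e (nat_lit 81922) (nat_lit 0) (.e (nat_lit 3631) (nat_lit 227) (.e (nat_lit 778326) (nat_lit 6) (.e (nat_lit 81921) (nat_lit 0) (.e (nat_lit 3716) (nat_lit 227) (.e (nat_lit 778325) (nat_lit 6) .nil)))))) (.g (nat_lit 1) (.e (nat_lit 268507) (nat_lit 0) .nil) .nil))))) (.nd (nat_lit 8) (.nd (nat_lit 9) 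
(.lf (nat_lit 538801) (.g (nat_lit 789) (.e (nat_lit 73755) (nat_lit 8) (.e (nat_lit 557067) (nat_lit 9) (.e (nat_lit 3055) (nat_lit 190) .nil))) (.g (nat_lit 0) (.e (nat_lit 266792) (nat_lit 0) .nil) .nil))) 
(.lf (nat_lit 539313) (.g (nat_lit 1497) (.e (nat_lit 73782) (nat_lit 32) (.e (nat_lit 2856) (nat_lit 184) (.e (nat_lit 426542) (nat_lit 29) (.e (nat_lit 352317) (nat_lit 24) .nil)))) (.g (nat_lit 0) (.e (nat_lit 268178) (nat_lit 0) .nil) .nil)))) (.nd (nat_lit 9) 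
(.lf (nat_lit 539057) (.g (nat_lit 1388) (.e (nat_lit 73775) (nat_lit 26) (.e (nat_lit 778465) (nat_lit 11) (.e (nat_lit 24626) (nat_lit 9) (.e (nat_lit 336414) (nat_lit 27) .nil)))) (.g (nat_lit 0) (.e (nat_lit 267721) (nat_lit 0) .nil) .nil))) 
(.lf (nat_lit 539569) (.g (nat_lit 868) (.e (nat_lit 81938) (nat_lit 20) (.e (nat_lit 1886) (nat_lit 127) (.e (nat_lit 581652) (nat_lit 5) (.e (nat_lit 180284) (nat_lit 45) (.e (nat_lit 2580) (nat_lit 161) (.e (nat_lit 48896) (nat_lit 6) .nil)))))) (.g (nat_lit 1) (.e (nat_lit 269000) (nat_lit 0) .nil) .nil)))))) (.nd (nat_lit 7) (.nd (nat_lit 8) (.nd (nat_lit 9) 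
(.lf (nat_lit 538737) (.g (nat_lit 2719) (.e (nat_lit 73754) (nat_lit 8) (.e (nat_lit 557105) (nat_lit 14) (.e (nat_lit 180252) (nat_lit 10) (.e (nat_lit 573454) (nat_lit 9) .nil)))) (.g (nat_lit 0) (.e (nat_lit 266719) (nat_lit 0) .nil) .nil))) 
(.lf (nat_lit 539249) (.g (nat_lit 3750) (.e (nat_lit 73781) (nat_lit 32) (.e (nat_lit 3090) (nat_lit 191) (.e (nat_lit 483394) (nat_lit 24) (.e (nat_lit 344097) (nat_lit 18) (.e (nat_lit 5907) (nat_lit 320) (.e (nat_lit 1209) (nat_lit 89) .nil)))))) (.g (nat_lit 1) (.e (nat_lit 268065) (nat_lit 0) .nil) .nil)))) (.nd (nat_lit 9) 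
(.lf (nat_lit 538993) (.g (nat_lit 2404) (.e (nat_lit 73755) (nat_lit 8) (.e (nat_lit 557119) (nat_lit 18) (.e (nat_lit 2798) (nat_lit 180) (.e (nat_lit 303133) (nat_lit 9) (.e (nat_lit 426499) (nat_lit 27) (.e (nat_lit 336293) (nat_lit 15) (.e (nat_lit 7936) (nat_lit 407) .nil))))))) (.g (nat_lit 1) (.e (nat_lit 267406) (nat_lit 0) .nil) .nil))) 
(.lf (nat_lit 539505) (.g (nat_lit 1222) (.e (nat_lit 89856) (nat_lit 0) (.e (nat_lit 3604) (nat_lit 225) (.e (nat_lit 761905) (nat_lit 16) (.e (nat_lit 172106) (nat_lit 10) .nil)))) (.g (nat_lit 0) (.e (nat_lit 268783) (nat_lit 0) .nil) .nil))))) (.nd (nat_lit 8) (.nd (nat_lit 9) 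
(.lf (nat_lit 538865) (.g (nat_lit 3046) (.e (nat_lit 73755) (nat_lit 8) (.e (nat_lit 557104) (nat_lit 14) (.e (nat_lit 180250) (nat_lit 10) (.e (nat_lit 573473) (nat_lit 12) (.e (nat_lit 57504) (nat_lit 38) (.e (nat_lit 638995) (nat_lit 7) (.e (nat_lit 163977) (nat_lit 30) (.e (nat_lit 573489) (nat_lit 14) .nil)))))))) (.g (nat_lit 1) (.e (nat_lit 267022) (nat_lit 0) .nil) .nil))) 
(.lf (nat_lit 539377) (.g (nat_lit 236) (.e (nat_lit 81664) (nat_lit 32) (.e (nat_lit 2668) (nat_lit 167) (.e (nat_lit 196666) (nat_lit 13) .nil))) (.g (nat_lit 0) (.e (nat_lit 268259) (nat_lit 0) .nil) .nil)))) (.nd (nat_lit 9) 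
(.lf (nat_lit 539121) (.g (nat_lit 1436) (.e (nat_lit 73776) (nat_lit 26) (.e (nat_lit 778465) (nat_lit 11) (.e (nat_lit 24624) (nat_lit 9) (.e (nat_lit 336438) (nat_lit 31) (.e (nat_lit 466688) (nat_lit 5) .nil))))) (.g (nat_lit 1) (.e (nat_lit 267815) (nat_lit 0) .nil) .nil))) 
(.lf (nat_lit 539633) (.g (nat_lit 1621) (.e (nat_lit 81938) (nat_lit 20) (.e (nat_lit 2391) (nat_lit 156) (.e (nat_lit 819221) (nat_lit 6) (.e (nat_lit 188431) (nat_lit 20) (.e (nat_lit 3282) (nat_lit 200) (.e (nat_lit 564992) (nat_lit 6) .nil)))))) (.g (nat_lit 1) (.e (nat_lit 269069) (nat_lit 0) .nil) .nil))))))))) 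
(.nd (nat_lit 4) (.nd (nat_lit 5) (.nd (nat_lit 6) (.nd (nat_lit 7) (.nd (nat_lit 8) 
(.nd (nat_lit 9) 
(.lf (nat_lit 538633) (.g (nat_lit 5622) (.e (nat_lit 73753) (nat_lit 8) (.e (nat_lit 557105) (nat_lit 14) (.e (nat_lit 180251) (nat_lit 10) (.e (nat_lit 573475) (nat_lit 12) (.e (nat_lit 57503) (nat_lit 38) (.e (nat_lit 638995) (nat_lit 7) (.e (nat_lit 163979) (nat_lit 30) (.e (nat_lit 573487) (nat_lit 14) .nil)))))))) (.g (nat_lit 1) (.e (nat_lit 266580) (nat_lit 0) .nil) .nil))) 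
(.lf (nat_lit 539145) (.g (nat_lit 3395) (.e (nat_lit 73781) (nat_lit 32) (.e (nat_lit 2663) (nat_lit 167) (.e (nat_lit 196666) (nat_lit 13) (.e (nat_lit 65622) (nat_lit 12) (.e (nat_lit 385074) (nat_lit 31) (.e (nat_lit 573489) (nat_lit 14) .nil)))))) (.g (nat_lit 1) (.e (nat_lit 267928) (nat_lit 0) .nil) .nil)))) (.nd (nat_lit 9) 
(.lf (nat_lit 538889) (.g (nat_lit 3363) (.e (nat_lit 73755) (nat_lit 8) (.e (nat_lit 557104) (nat_lit 14) (.e (nat_lit 180252) (nat_lit 10) (.e (nat_lit 573475) (nat_lit 12) (.e (nat_lit 57501) (nat_lit 37) (.e (nat_lit 630799) (nat_lit 7) (.e (nat_lit 163977) (nat_lit 30) (.e (nat_lit 573489) (nat_lit 14) .nil)))))))) (.g (nat_lit 1) (.e (nat_lit 267051) (nat_lit 0) .nil) .nil))) 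
(.lf (nat_lit 539401) (.g (nat_lit 2233) (.e (nat_lit 73785) (nat_lit 40) (.e (nat_lit 1252) (nat_lit 92) (.e (nat_lit 98350) (nat_lit 24) (.e (nat_lit 409646) (nat_lit 18) (.e (nat_lit 303117) (nat_lit 2) .nil))))) (.g (nat_lit 0) (.e (nat_lit 268375) (nat_lit 0) .nil) .nil))))) (.nd (nat_lit 8) (.nd (nat_lit 9) 
(.lf (nat_lit 538761) (.g (nat_lit 2007) (.e (nat_lit 73754) (nat_lit 8) (.e (nat_lit 557105) (nat_lit 14) (.e (nat_lit 180252) (nat_lit 10) (.e (nat_lit 573475) (nat_lit 12) (.e (nat_lit 57502) (nat_lit 38) .nil))))) (.g (nat_lit 0) (.e (nat_lit 266745) (nat_lit 0) .nil) .nil))) 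
(.lf (nat_lit 539273) (.g (nat_lit 2680) (.e (nat_lit 73781) (nat_lit 32) (.e (nat_lit 3090) (nat_lit 191) (.e (nat_lit 483403) (nat_lit 26) (.e (nat_lit 385101) (nat_lit 49) .nil)))) (.g (nat_lit 0) (.e (nat_lit 268089) (nat_lit 0) .nil) .nil)))) (.nd (nat_lit 9) 
(.lf (nat_lit 539017) (.g (nat_lit 615) (.e (nat_lit 73773) (nat_lit 25) (.e (nat_lit 770072) (nat_lit 8) (.e (nat_lit 65599) (nat_lit 9) .nil))) (.g (nat_lit 0) (.e (nat_lit 267652) (nat_lit 0) .nil) .nil))) 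
(.lf (nat_lit 539529) (.g (nat_lit 1723) (.e (nat_lit 81926) (nat_lit 11) (.e (nat_lit 426108) (nat_lit 1) (.e (nat_lit 164183) (nat_lit 154) (.e (nat_lit 57411) (nat_lit 12) .nil)))) (.g (nat_lit 0) (.e (nat_lit 268853) (nat_lit 0) .nil) .nil)))))) (.nd (nat_lit 7) (.nd (nat_lit 8) (.nd (nat_lit 9) 
(.lf (nat_lit 538697) (.g (nat_lit 1959) (.e (nat_lit 73753) (nat_lit 8) (.e (nat_lit 557119) (nat_lit 18) (.e (nat_lit 2798) (nat_lit 180) (.e (nat_lit 303133) (nat_lit 9) (.e (nat_lit 433920) (nat_lit 33) (.e (nat_lit 392960) (nat_lit 5) .nil)))))) (.g (nat_lit 1) (.e (nat_lit 266657) (nat_lit 0) .nil) .nil))) 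
(.lf (nat_lit 539209) (.g (nat_lit 2041) (.e (nat_lit 73781) (nat_lit 32) (.e (nat_lit 3089) (nat_lit 191) (.e (nat_lit 483383) (nat_lit 23) (.e (nat_lit 336332) (nat_lit 19) (.e (nat_lit 220928) (nat_lit 5) .nil))))) (.g (nat_lit 1) (.e (nat_lit 268025) (nat_lit 0) .nil) .nil)))) (.nd (nat_lit 9) 
(.lf (nat_lit 538953) (.g (nat_lit 2429) (.e (nat_lit 73755) (nat_lit 8) (.e (nat_lit 557105) (nat_lit 14) (.e (nat_lit 180252) (nat_lit 10) (.e (nat_lit 573474) (nat_lit 12) (.e (nat_lit 57510) (nat_lit 39) (.e (nat_lit 655104) (nat_lit 0) (.e (nat_lit 2667) (nat_lit 167) (.e (nat_lit 196669) (nat_lit 14) .nil)))))))) (.g (nat_lit 1) (.e (nat_lit 267352) (nat_lit 0) .nil) .nil))) 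
(.lf (nat_lit 539465) (.g (nat_lit 2041) (.e (nat_lit 81923) (nat_lit 0) (.e (nat_lit 3305) (nat_lit 202) (.e (nat_lit 573484) (nat_lit 13) (.e (nat_lit 65630) (nat_lit 14) (.e (nat_lit 401425) (nat_lit 2) .nil))))) (.g (nat_lit 0) (.e (nat_lit 268560) (nat_lit 0) .nil) .nil))))) (.nd (nat_lit 8) (.nd (nat_lit 9) 
(.lf (nat_lit 538825) (.g (nat_lit 1343) (.e (nat_lit 73755) (nat_lit 8) (.e (nat_lit 557097) (nat_lit 13) (.e (nat_lit 172067) (nat_lit 3) (.e (nat_lit 204821) (nat_lit 17) .nil)))) (.g (nat_lit 0) (.e (nat_lit 266841) (nat_lit 0) .nil) .nil))) 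
(.lf (nat_lit 539337) (.g (nat_lit 2210) (.e (nat_lit 73782) (nat_lit 32) (.e (nat_lit 3088) (nat_lit 191) (.e (nat_lit 483383) (nat_lit 23) (.e (nat_lit 336332) (nat_lit 19) (.e (nat_lit 220928) (nat_lit 5) .nil))))) (.g (nat_lit 1) (.e (nat_lit 268202) (nat_lit 0) .nil) .nil)))) (.nd (nat_lit 9) 
(.lf (nat_lit 539081) (.g (nat_lit 2142) (.e (nat_lit 73775) (nat_lit 26) (.e (nat_lit 778466) (nat_lit 11) (.e (nat_lit 24625) (nat_lit 9) (.e (nat_lit 336423) (nat_lit 28) (.e (nat_lit 442112) (nat_lit 5) .nil))))) (.g (nat_lit 1) (.e (nat_lit 267764) (nat_lit 0) .nil) .nil))) 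
(.lf (nat_lit 539593) (.g (nat_lit 1520) (.e (nat_lit 81938) (nat_lit 20) (.e (nat_lit 2390) (nat_lit 156) (.e (nat_lit 819204) (nat_lit 0) (.e (nat_lit 3016) (nat_lit 187) (.e (nat_lit 458496) (nat_lit 8) (.e (nat_lit 564992) (nat_lit 6) .nil)))))) (.g (nat_lit 1) (.e (nat_lit 269027) (nat_lit 0) .nil) .nil))))))) (.nd (nat_lit 6) (.nd (nat_lit 7) (.nd (nat_lit 8) (.nd (nat_lit 9) 
(.lf (nat_lit 538665) (.g (nat_lit 3044) (.e (nat_lit 73753) (nat_lit 8) (.e (nat_lit 557105) (nat_lit 14) (.e (nat_lit 180252) (nat_lit 10) (.e (nat_lit 573474) (nat_lit 12) (.e (nat_lit 57511) (nat_lit 39) .nil))))) (.g (nat_lit 0) (.e (nat_lit 266618) (nat_lit 0) .nil) .nil))) 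
(.lf (nat_lit 539177) (.g (nat_lit 2306) (.e (nat_lit 73781) (nat_lit 32) (.e (nat_lit 2857) (nat_lit 184) (.e (nat_lit 426530) (nat_lit 27) (.e (nat_lit 336206) (nat_lit 12) (.e (nat_lit 385094) (nat_lit 49) (.e (nat_lit 778324) (nat_lit 5) .nil)))))) (.g (nat_lit 1) (.e (nat_lit 267992) (nat_lit 0) .nil) .nil)))) (.nd (nat_lit 9) 
(.lf (nat_lit 538921) (.g (nat_lit 3032) (.e (nat_lit 73755) (nat_lit 8) (.e (nat_lit 557105) (nat_lit 14) (.e (nat_lit 180252) (nat_lit 10) (.e (nat_lit 573473) (nat_lit 12) (.e (nat_lit 57504) (nat_lit 38) (.e (nat_lit 638994) (nat_lit 7) (.e (nat_lit 163976) (nat_lit 30) (.e (nat_lit 573488) (nat_lit 14) .nil)))))))) (.g (nat_lit 1) (.e (nat_lit 267260) (nat_lit 0) .nil) .nil))) 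
(.lf (nat_lit 539433) (.g (nat_lit 1384) (.e (nat_lit 81921) (nat_lit 0) (.e (nat_lit 3715) (nat_lit 227) (.e (nat_lit 778325) (nat_lit 6) (.e (nat_lit 81922) (nat_lit 0) (.e (nat_lit 3632) (nat_lit 227) (.e (nat_lit 778326) (nat_lit 6) .nil)))))) (.g (nat_lit 1) (.e (nat_lit 268454) (nat_lit 0) .nil) .nil))))) (.nd (nat_lit 8) (.nd (nat_lit 9) 
(.lf (nat_lit 538793) (.g (nat_lit 2102) (.e (nat_lit 73754) (nat_lit 8) (.e (nat_lit 557119) (nat_lit 18) (.e (nat_lit 2798) (nat_lit 180) (.e (nat_lit 303119) (nat_lit 3) (.e (nat_lit 204838) (nat_lit 20) .nil))))) (.g (nat_lit 0) (.e (nat_lit 266777) (nat_lit 0) .nil) .nil))) 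
(.lf (nat_lit 539305) (.g (nat_lit 2617) (.e (nat_lit 73782) (nat_lit 32) (.e (nat_lit 2856) (nat_lit 184) (.e (nat_lit 426542) (nat_lit 29) (.e (nat_lit 352297) (nat_lit 20) (.e (nat_lit 2005) (nat_lit 138) (.e (nat_lit 671763) (nat_lit 5) .nil)))))) (.g (nat_lit 1) (.e (nat_lit 268170) (nat_lit 0) .nil) .nil)))) (.nd (nat_lit 9) 
(.lf (nat_lit 539049) (.g (nat_lit 2168) (.e (nat_lit 73775) (nat_lit 26) (.e (nat_lit 778465) (nat_lit 11) (.e (nat_lit 24623) (nat_lit 9) (.e (nat_lit 336438) (nat_lit 31) (.e (nat_lit 466688) (nat_lit 5) .nil))))) (.g (nat_lit 1) (.e (nat_lit 267713) (nat_lit 0) .nil) .nil))) 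
(.lf (nat_lit 539561) (.g (nat_lit 2008) (.e (nat_lit 81938) (nat_lit 20) (.e (nat_lit 1799) (nat_lit 119) (.e (nat_lit 516138) (nat_lit 7) (.e (nat_lit 409645) (nat_lit 18) (.e (nat_lit 303117) (nat_lit 2) .nil))))) (.g (nat_lit 0) (.e (nat_lit 268978) (nat_lit 0) .nil) .nil)))))) (.nd (nat_lit 7) (.nd (nat_lit 8) (.nd (nat_lit 9) 
(.lf (nat_lit 538729) (.g (nat_lit 1874) (.e (nat_lit 73754) (nat_lit 8) (.e (nat_lit 557105) (nat_lit 14) (.e (nat_lit 180252) (nat_lit 10) (.e (nat_lit 573449) (nat_lit 9) .nil)))) (.g (nat_lit 0) (.e (nat_lit 266707) (nat_lit 0) .nil) .nil))) 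
(.lf (nat_lit 539241) (.g (nat_lit 2289) (.e (nat_lit 73781) (nat_lit 32) (.e (nat_lit 3090) (nat_lit 191) (.e (nat_lit 483392) (nat_lit 23) (.e (nat_lit 335995) (nat_lit 1) (.e (nat_lit 57872) (nat_lit 264) (.e (nat_lit 1211) (nat_lit 89) .nil)))))) (.g (nat_lit 1) (.e (nat_lit 268057) (nat_lit 0) .nil) .nil)))) (.nd (nat_lit 9) 
(.lf (nat_lit 538985) (.g (nat_lit 1053) (.e (nat_lit 73755) (nat_lit 8) (.e (nat_lit 557119) (nat_lit 18) (.e (nat_lit 2798) (nat_lit 180) (.e (nat_lit 303133) (nat_lit 9) .nil)))) (.g (nat_lit 0) (.e (nat_lit 267398) (nat_lit 0) .nil) .nil))) 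
(.lf (nat_lit 539497) (.g (nat_lit 841) (.e (nat_lit 81924) (nat_lit 0) (.e (nat_lit 3748) (nat_lit 228) (.e (nat_lit 786483) (nat_lit 30) (.e (nat_lit 360451) (nat_lit 0) .nil)))) (.g (nat_lit 0) (.e (nat_lit 268658) (nat_lit 0) .nil) .nil))))) (.nd (nat_lit 8) (.nd (nat_lit 9) 
(.lf (nat_lit 538857) (.g (nat_lit 2831) (.e (nat_lit 73755) (nat_lit 8) (.e (nat_lit 557104) (nat_lit 14) (.e (nat_lit 180244) (nat_lit 5) (.e (nat_lit 532499) (nat_lit 1) (.e (nat_lit 57659) (nat_lit 152) .nil))))) (.g (nat_lit 0) (.e (nat_lit 266938) (nat_lit 0) .nil) .nil))) 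
(.lf (nat_lit 539369) (.g (nat_lit 2747) (.e (nat_lit 73782) (nat_lit 32) (.e (nat_lit 3090) (nat_lit 191) (.e (nat_lit 483406) (nat_lit 26) (.e (nat_lit 385094) (nat_lit 49) (.e (nat_lit 778323) (nat_lit 5) .nil))))) (.g (nat_lit 1) (.e (nat_lit 268234) (nat_lit 0) .nil) .nil)))) (.nd (nat_lit 9) 
(.lf (nat_lit 539113) (.g (nat_lit 1564) (.e (nat_lit 73775) (nat_lit 26) (.e (nat_lit 778466) (nat_lit 11) (.e (nat_lit 24656) (nat_lit 13) (.e (nat_lit 393242) (nat_lit 17) (.e (nat_lit 7936) (nat_lit 407) .nil))))) (.g (nat_lit 1) (.e (nat_lit 267803) (nat_lit 0) .nil) .nil))) 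
(.lf (nat_lit 539625) (.g (nat_lit 1668) (.e (nat_lit 81938) (nat_lit 20) (.e (nat_lit 2391) (nat_lit 156) (.e (nat_lit 819221) (nat_lit 6) (.e (nat_lit 188427) (nat_lit 20) (.e (nat_lit 3279) (nat_lit 200) (.e (nat_lit 564992) (nat_lit 6) .nil)))))) (.g (nat_lit 1) (.e (nat_lit 269061) (nat_lit 0) .nil) .nil)))))))) 
(.nd (nat_lit 5) (.nd (nat_lit 6) (.nd (nat_lit 7) (.nd (nat_lit 8) (.nd (nat_lit 9) 
(.lf (nat_lit 538649) (.g (nat_lit 3289) (.e (nat_lit 73753) (nat_lit 8) (.e (nat_lit 557105) (nat_lit 14) (.e (nat_lit 180252) (nat_lit 10) (.e (nat_lit 573474) (nat_lit 12) (.e (nat_lit 57355) (nat_lit 0) .nil))))) (.g (nat_lit 0) (.e (nat_lit 266602) (nat_lit 0) .nil) .nil))) 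
(.lf (nat_lit 539161) (.g (nat_lit 1504) (.e (nat_lit 73781) (nat_lit 32) (.e (nat_lit 2854) (nat_lit 184) (.e (nat_lit 426542) (nat_lit 29) (.e (nat_lit 352297) (nat_lit 20) (.e (nat_lit 2003) (nat_lit 138) (.e (nat_lit 671763) (nat_lit 5) .nil)))))) (.g (nat_lit 1) (.e (nat_lit 267976) (nat_lit 0) .nil) .nil)))) (.nd (nat_lit 9) 
(.lf (nat_lit 538905) (.g (nat_lit 5959) (.e (nat_lit 73755) (nat_lit 8) (.e (nat_lit 557105) (nat_lit 14) (.e (nat_lit 180251) (nat_lit 10) (.e (nat_lit 573475) (nat_lit 12) (.e (nat_lit 57503) (nat_lit 38) (.e (nat_lit 638995) (nat_lit 7) (.e (nat_lit 163978) (nat_lit 30) (.e (nat_lit 573489) (nat_lit 14) .nil)))))))) (.g (nat_lit 1) (.e (nat_lit 267143) (nat_lit 0) .nil) .nil))) 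
(.lf (nat_lit 539417) (.g (nat_lit 613) (.e (nat_lit 73791) (nat_lit 45) (.e (nat_lit 1162) (nat_lit 86) (.e (nat_lit 49157) (nat_lit 0) (.e (nat_lit 2984) (nat_lit 186) (.e (nat_lit 450304) (nat_lit 2) (.e (nat_lit 98048) (nat_lit 5) .nil)))))) (.g (nat_lit 1) (.e (nat_lit 268432) (nat_lit 0) .nil) .nil))))) (.nd (nat_lit 8) (.nd (nat_lit 9) 
(.lf (nat_lit 538777) (.g (nat_lit 2335) (.e (nat_lit 73754) (nat_lit 8) (.e (nat_lit 557105) (nat_lit 14) (.e (nat_lit 180252) (nat_lit 10) (.e (nat_lit 573475) (nat_lit 12) (.e (nat_lit 57508) (nat_lit 39) (.e (nat_lit 655104) (nat_lit 0) (.e (nat_lit 2667) (nat_lit 167) (.e (nat_lit 196667) (nat_lit 14) .nil)))))))) (.g (nat_lit 1) (.e (nat_lit 266761) (nat_lit 0) .nil) .nil))) 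
(.lf (nat_lit 539289) (.g (nat_lit 2121) (.e (nat_lit 73782) (nat_lit 32) (.e (nat_lit 2854) (nat_lit 184) (.e (nat_lit 426542) (nat_lit 29) (.e (nat_lit 352267) (nat_lit 0) (.e (nat_lit 3629) (nat_lit 227) (.e (nat_lit 778323) (nat_lit 5) .nil)))))) (.g (nat_lit 1) (.e (nat_lit 268154) (nat_lit 0) .nil) .nil)))) (.nd (nat_lit 9) 
(.lf (nat_lit 539033) (.g (nat_lit 2408) (.e (nat_lit 73775) (nat_lit 26) (.e (nat_lit 778464) (nat_lit 11) (.e (nat_lit 24657) (nat_lit 13) (.e (nat_lit 393232) (nat_lit 17) (.e (nat_lit 7593) (nat_lit 407) .nil))))) (.g (nat_lit 1) (.e (nat_lit 267691) (nat_lit 0) .nil) .nil))) 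
(.lf (nat_lit 539545) (.g (nat_lit 1344) (.e (nat_lit 81928) (nat_lit 20) (.e (nat_lit 2281) (nat_lit 150) (.e (nat_lit 770072) (nat_lit 8) (.e (nat_lit 65617) (nat_lit 10) .nil)))) (.g (nat_lit 0) (.e (nat_lit 268913) (nat_lit 0) .nil) .nil)))))) (.nd (nat_lit 7) (.nd (nat_lit 8) (.nd (nat_lit 9) 
(.lf (nat_lit 538713) (.g (nat_lit 750) (.e (nat_lit 73754) (nat_lit 8) (.e (nat_lit 557091) (nat_lit 12) (.e (nat_lit 164006) (nat_lit 41) .nil))) (.g (nat_lit 0) (.e (nat_lit 266677) (nat_lit 0) .nil) .nil))) 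
(.lf (nat_lit 539225) (.g (nat_lit 1348) (.e (nat_lit 73781) (nat_lit 32) (.e (nat_lit 3090) (nat_lit 191) (.e (nat_lit 483380) (nat_lit 23) (.e (nat_lit 336258) (nat_lit 15) (.e (nat_lit 7936) (nat_lit 227) .nil))))) (.g (nat_lit 0) (.e (nat_lit 268041) (nat_lit 0) .nil) .nil)))) (.nd (nat_lit 9) 
(.lf (nat_lit 538969) (.g (nat_lit 2047) (.e (nat_lit 73755) (nat_lit 8) (.e (nat_lit 557105) (nat_lit 14) (.e (nat_lit 180252) (nat_lit 10) (.e (nat_lit 573478) (nat_lit 12) .nil)))) (.g (nat_lit 0) (.e (nat_lit 267372) (nat_lit 0) .nil) .nil))) 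
(.lf (nat_lit 539481) (.g (nat_lit 1745) (.e (nat_lit 81924) (nat_lit 0) (.e (nat_lit 3631) (nat_lit 227) (.e (nat_lit 778327) (nat_lit 6) (.e (nat_lit 81922) (nat_lit 0) (.e (nat_lit 3631) (nat_lit 227) (.e (nat_lit 778326) (nat_lit 6) .nil)))))) (.g (nat_lit 1) (.e (nat_lit 268633) (nat_lit 0) .nil) .nil))))) (.nd (nat_lit 8) (.nd (nat_lit 9) 
(.lf (nat_lit 538841) (.g (nat_lit 3854) (.e (nat_lit 73755) (nat_lit 8) (.e (nat_lit 557103) (nat_lit 14) (.e (nat_lit 180250) (nat_lit 10) (.e (nat_lit 573474) (nat_lit 12) (.e (nat_lit 57503) (nat_lit 38) (.e (nat_lit 638994) (nat_lit 7) (.e (nat_lit 163975) (nat_lit 30) (.e (nat_lit 573488) (nat_lit 14) .nil)))))))) (.g (nat_lit 1) (.e (nat_lit 266905) (nat_lit 0) .nil) .nil))) 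
(.lf (nat_lit 539353) (.g (nat_lit 1693) (.e (nat_lit 73782) (nat_lit 32) (.e (nat_lit 3090) (nat_lit 191) (.e (nat_lit 483379) (nat_lit 23) (.e (nat_lit 336330) (nat_lit 19) (.e (nat_lit 220928) (nat_lit 5) .nil))))) (.g (nat_lit 1) (.e (nat_lit 268218) (nat_lit 0) .nil) .nil)))) (.nd (nat_lit 9) 
(.lf (nat_lit 539097) (.g (nat_lit 2042) (.e (nat_lit 73775) (nat_lit 26) (.e (nat_lit 778466) (nat_lit 11) (.e (nat_lit 24632) (nat_lit 9) (.e (nat_lit 336386) (nat_lit 27) (.e (nat_lit 426077) (nat_lit 0) (.e (nat_lit 7936) (nat_lit 407) .nil)))))) (.g (nat_lit 1) (.e (nat_lit 267782) (nat_lit 0) .nil) .nil))) 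
(.lf (nat_lit 539609) (.g (nat_lit 1599) (.e (nat_lit 81938) (nat_lit 20) (.e (nat_lit 2391) (nat_lit 156) (.e (nat_lit 819203) (nat_lit 0) (.e (nat_lit 3022) (nat_lit 187) (.e (nat_lit 458496) (nat_lit 8) (.e (nat_lit 564992) (nat_lit 6) .nil)))))) (.g (nat_lit 1) (.e (nat_lit 269044) (nat_lit 0) .nil) .nil))))))) (.nd (nat_lit 6) (.nd (nat_lit 7) (.nd (nat_lit 8) (.nd (nat_lit 9) 
(.lf (nat_lit 538681) (.g (nat_lit 3074) (.e (nat_lit 73753) (nat_lit 8) (.e (nat_lit 557119) (nat_lit 18) (.e (nat_lit 2797) (nat_lit 180) (.e (nat_lit 303145) (nat_lit 13) (.e (nat_lit 483333) (nat_lit 0) (.e (nat_lit 7936) (nat_lit 407) .nil)))))) (.g (nat_lit 1) (.e (nat_lit 266639) (nat_lit 0) .nil) .nil))) 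
(.lf (nat_lit 539193) (.g (nat_lit 1992) (.e (nat_lit 73781) (nat_lit 32) (.e (nat_lit 3088) (nat_lit 191) (.e (nat_lit 483385) (nat_lit 23) (.e (nat_lit 336332) (nat_lit 19) (.e (nat_lit 220928) (nat_lit 5) .nil))))) (.g (nat_lit 1) (.e (nat_lit 268009) (nat_lit 0) .nil) .nil)))) (.nd (nat_lit 9) 
(.lf (nat_lit 538937) (.g (nat_lit 2231) (.e (nat_lit 73755) (nat_lit 8) (.e (nat_lit 557105) (nat_lit 14) (.e (nat_lit 180252) (nat_lit 10) (.e (nat_lit 573474) (nat_lit 12) (.e (nat_lit 57502) (nat_lit 38) (.e (nat_lit 646912) (nat_lit 7) (.e (nat_lit 163978) (nat_lit 30) (.e (nat_lit 573489) (nat_lit 14) .nil)))))))) (.g (nat_lit 1) (.e (nat_lit 267333) (nat_lit 0) .nil) .nil))) 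
(.lf (nat_lit 539449) (.g (nat_lit 1501) (.e (nat_lit 81922) (nat_lit 0) (.e (nat_lit 3747) (nat_lit 228) (.e (nat_lit 786473) (nat_lit 27) (.e (nat_lit 336116) (nat_lit 9) (.e (nat_lit 336331) (nat_lit 19) (.e (nat_lit 220928) (nat_lit 6) .nil)))))) (.g (nat_lit 1) (.e (nat_lit 268530) (nat_lit 0) .nil) .nil))))) (.nd (nat_lit 8) (.nd (nat_lit 9) 
(.lf (nat_lit 538809) (.g (nat_lit 2056) (.e (nat_lit 73755) (nat_lit 8) (.e (nat_lit 557087) (nat_lit 11) (.e (nat_lit 24644) (nat_lit 11) (.e (nat_lit 368676) (nat_lit 21) (.e (nat_lit 516106) (nat_lit 0) (.e (nat_lit 7936) (nat_lit 407) .nil)))))) (.g (nat_lit 1) (.e (nat_lit 266808) (nat_lit 0) .nil) .nil))) 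
(.lf (nat_lit 539321) (.g (nat_lit 3661) (.e (nat_lit 73782) (nat_lit 32) (.e (nat_lit 2856) (nat_lit 184) (.e (nat_lit 426555) (nat_lit 32) (.e (nat_lit 376857) (nat_lit 21) (.e (nat_lit 57870) (nat_lit 264) (.e (nat_lit 1209) (nat_lit 89) .nil)))))) (.g (nat_lit 1) (.e (nat_lit 268186) (nat_lit 0) .nil) .nil)))) (.nd (nat_lit 9) 
(.lf (nat_lit 539065) (.g (nat_lit 2448) (.e (nat_lit 73775) (nat_lit 26) (.e (nat_lit 778465) (nat_lit 11) (.e (nat_lit 24636) (nat_lit 9) (.e (nat_lit 336390) (nat_lit 27) (.e (nat_lit 426012) (nat_lit 0) (.e (nat_lit 7593) (nat_lit 407) .nil)))))) (.g (nat_lit 1) (.e (nat_lit 267730) (nat_lit 0) .nil) .nil))) 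
(.lf (nat_lit 539577) (.g (nat_lit 997) (.e (nat_lit 81938) (nat_lit 20) (.e (nat_lit 1886) (nat_lit 127) (.e (nat_lit 581652) (nat_lit 5) (.e (nat_lit 180288) (nat_lit 45) (.e (nat_lit 2580) (nat_lit 161) (.e (nat_lit 48896) (nat_lit 6) .nil)))))) (.g (nat_lit 1) (.e (nat_lit 269008) (nat_lit 0) .nil) .nil)))))) (.nd (nat_lit 7) (.nd (nat_lit 8) (.nd (nat_lit 9) 
(.lf (nat_lit 538745) (.g (nat_lit 2971) (.e (nat_lit 73754) (nat_lit 8) (.e (nat_lit 557105) (nat_lit 14) (.e (nat_lit 180252) (nat_lit 10) (.e (nat_lit 573473) (nat_lit 12) (.e (nat_lit 57507) (nat_lit 39) (.e (nat_lit 655104) (nat_lit 0) (.e (nat_lit 2657) (nat_lit 167) (.e (nat_lit 196667) (nat_lit 14) .nil)))))))) (.g (nat_lit 1) (.e (nat_lit 266728) (nat_lit 0) .nil) .nil))) 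
(.lf (nat_lit 539257) (.g (nat_lit 3146) (.e (nat_lit 73781) (nat_lit 32) (.e (nat_lit 3090) (nat_lit 191) (.e (nat_lit 483396) (nat_lit 24) (.e (nat_lit 344100) (nat_lit 18) (.e (nat_lit 5907) (nat_lit 320) (.e (nat_lit 1209) (nat_lit 89) .nil)))))) (.g (nat_lit 1) (.e (nat_lit 268073) (nat_lit 0) .nil) .nil)))) (.nd (nat_lit 9) 
(.lf (nat_lit 539001) (.g (nat_lit 3166) (.e (nat_lit 73755) (nat_lit 8) (.e (nat_lit 557119) (nat_lit 18) (.e (nat_lit 2798) (nat_lit 180) (.e (nat_lit 303145) (nat_lit 13) (.e (nat_lit 483363) (nat_lit 18) (.e (nat_lit 57647) (nat_lit 146) (.e (nat_lit 1208) (nat_lit 89) .nil))))))) (.g (nat_lit 1) (.e (nat_lit 267414) (nat_lit 0) .nil) .nil))) 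
(.lf (nat_lit 539513) (.g (nat_lit 914) (.e (nat_lit 89856) (nat_lit 0) (.e (nat_lit 3605) (nat_lit 225) (.e (nat_lit 761905) (nat_lit 16) (.e (nat_lit 172113) (nat_lit 10) .nil)))) (.g (nat_lit 0) (.e (nat_lit 268802) (nat_lit 0) .nil) .nil))))) (.nd (nat_lit 8) (.nd (nat_lit 9) 
(.lf (nat_lit 538873) (.g (nat_lit 2899) (.e (nat_lit 73755) (nat_lit 8) (.e (nat_lit 557104) (nat_lit 14) (.e (nat_lit 180250) (nat_lit 10) (.e (nat_lit 573475) (nat_lit 12) (.e (nat_lit 57504) (nat_lit 38) (.e (nat_lit 638995) (nat_lit 7) (.e (nat_lit 163977) (nat_lit 30) (.e (nat_lit 573489) (nat_lit 14) .nil)))))))) (.g (nat_lit 1) (.e (nat_lit 267030) (nat_lit 0) .nil) .nil))) 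
(.lf (nat_lit 539385) (.g (nat_lit 179) (.e (nat_lit 81664) (nat_lit 32) (.e (nat_lit 2685) (nat_lit 168) (.e (nat_lit 204866) (nat_lit 28) .nil))) (.g (nat_lit 0) (.e (nat_lit 268288) (nat_lit 0) .nil) .nil)))) (.nd (nat_lit 9) 
(.lf (nat_lit 539129) (.g (nat_lit 388) (.e (nat_lit 73776) (nat_lit 26) (.e (nat_lit 778466) (nat_lit 11) (.e (nat_lit 24623) (nat_lit 9) .nil))) (.g (nat_lit 0) (.e (nat_lit 267830) (nat_lit 0) .nil) .nil))) 
(.lf (nat_lit 539641) (.g (nat_lit 619) (.e (nat_lit 81939) (nat_lit 20) (.e (nat_lit 1886) (nat_lit 127) (.e (nat_lit 581652) (nat_lit 5) (.e (nat_lit 180288) (nat_lit 45) (.e (nat_lit 2579) (nat_lit 161) (.e (nat_lit 48896) (nat_lit 6) .nil)))))) (.g (nat_lit 1) (.e (nat_lit 269083) (nat_lit 0) .nil) .nil)))))))))) 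
(.nd (nat_lit 3) (.nd (nat_lit 4) (.nd (nat_lit 5) (.nd (nat_lit 6) (.nd (nat_lit 7) 
(.nd (nat_lit 8) (.nd (nat_lit 9) 
(.lf (nat_lit 538629) (.g (nat_lit 471) (.e (nat_lit 73753) (nat_lit 8) (.e (nat_lit 557105) (nat_lit 14) (.e (nat_lit 188160) (nat_lit 3) .nil))) (.g (nat_lit 0) (.e (nat_lit 266576) (nat_lit 0) .nil) .nil))) 
(.lf (nat_lit 539141) (.g (nat_lit 2049) (.e (nat_lit 73780) (nat_lit 32) (.e (nat_lit 2939) (nat_lit 184) (.e (nat_lit 426541) (nat_lit 29) (.e (nat_lit 352267) (nat_lit 0) (.e (nat_lit 3632) (nat_lit 227) (.e (nat_lit 778323) (nat_lit 5) .nil)))))) (.g (nat_lit 1) (.e (nat_lit 267918) (nat_lit 0) .nil) .nil)))) (.nd (nat_lit 9) 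
(.lf (nat_lit 538885) (.g (nat_lit 4246) (.e (nat_lit 73755) (nat_lit 8) (.e (nat_lit 557104) (nat_lit 14) (.e (nat_lit 180252) (nat_lit 10) (.e (nat_lit 573474) (nat_lit 12) (.e (nat_lit 57503) (nat_lit 38) (.e (nat_lit 638995) (nat_lit 7) (.e (nat_lit 163979) (nat_lit 30) (.e (nat_lit 573488) (nat_lit 14) .nil)))))))) (.g (nat_lit 1) (.e (nat_lit 267047) (nat_lit 0) .nil) .nil))) 
(.lf (nat_lit 539397) (.g (nat_lit 1484) (.e (nat_lit 81664) (nat_lit 35) (.e (nat_lit 163975) (nat_lit 30) (.e (nat_lit 573451) (nat_lit 9) (.e (nat_lit 498) (nat_lit 40) .nil)))) (.g (nat_lit 0) (.e (nat_lit 268361) (nat_lit 0) .nil) .nil))))) (.nd (nat_lit 8) (.nd (nat_lit 9) 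
(.lf (nat_lit 538757) (.g (nat_lit 3312) (.e (nat_lit 73754) (nat_lit 8) (.e (nat_lit 557105) (nat_lit 14) (.e (nat_lit 180252) (nat_lit 10) (.e (nat_lit 573474) (nat_lit 12) (.e (nat_lit 57504) (nat_lit 38) .nil))))) (.g (nat_lit 0) (.e (nat_lit 266740) (nat_lit 0) .nil) .nil))) 
(.lf (nat_lit 539269) (.g (nat_lit 2340) (.e (nat_lit 73781) (nat_lit 32) (.e (nat_lit 3090) (nat_lit 191) (.e (nat_lit 483403) (nat_lit 26) (.e (nat_lit 385096) (nat_lit 49) (.e (nat_lit 786176) (nat_lit 5) .nil))))) (.g (nat_lit 1) (.e (nat_lit 268085) (nat_lit 0) .nil) .nil)))) (.nd (nat_lit 9) 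
(.lf (nat_lit 539013) (.g (nat_lit 2155) (.e (nat_lit 73773) (nat_lit 25) (.e (nat_lit 770071) (nat_lit 8) (.e (nat_lit 65626) (nat_lit 13) (.e (nat_lit 393234) (nat_lit 17) (.e (nat_lit 7593) (nat_lit 407) .nil))))) (.g (nat_lit 1) (.e (nat_lit 267643) (nat_lit 0) .nil) .nil))) 
(.lf (nat_lit 539525) (.g (nat_lit 1953) (.e (nat_lit 81925) (nat_lit 11) (.e (nat_lit 426500) (nat_lit 27) (.e (nat_lit 335988) (nat_lit 1) (.e (nat_lit 57926) (nat_lit 282) (.e (nat_lit 163871) (nat_lit 2) (.e (nat_lit 196672) (nat_lit 15) .nil)))))) (.g (nat_lit 1) (.e (nat_lit 268841) (nat_lit 0) .nil) .nil)))))) (.nd (nat_lit 7) (.nd (nat_lit 8) (.nd (nat_lit 9) 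
(.lf (nat_lit 538693) (.g (nat_lit 3647) (.e (nat_lit 73753) (nat_lit 8) (.e (nat_lit 557119) (nat_lit 18) (.e (nat_lit 2798) (nat_lit 180) (.e (nat_lit 303133) (nat_lit 9) (.e (nat_lit 426499) (nat_lit 27) (.e (nat_lit 336287) (nat_lit 15) (.e (nat_lit 7936) (nat_lit 407) .nil))))))) (.g (nat_lit 1) (.e (nat_lit 266653) (nat_lit 0) .nil) .nil))) 
(.lf (nat_lit 539205) (.g (nat_lit 1678) (.e (nat_lit 73781) (nat_lit 32) (.e (nat_lit 3089) (nat_lit 191) (.e (nat_lit 483383) (nat_lit 23) (.e (nat_lit 336270) (nat_lit 15) (.e (nat_lit 3632) (nat_lit 227) .nil))))) (.g (nat_lit 0) (.e (nat_lit 268021) (nat_lit 0) .nil) .nil)))) (.nd (nat_lit 9) 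
(.lf (nat_lit 538949) (.g (nat_lit 2037) (.e (nat_lit 73755) (nat_lit 8) (.e (nat_lit 557105) (nat_lit 14) (.e (nat_lit 180252) (nat_lit 10) (.e (nat_lit 573474) (nat_lit 12) (.e (nat_lit 57509) (nat_lit 39) .nil))))) (.g (nat_lit 0) (.e (nat_lit 267345) (nat_lit 0) .nil) .nil))) 
(.lf (nat_lit 539461) (.g (nat_lit 1264) (.e (nat_lit 81922) (nat_lit 0) (.e (nat_lit 3748) (nat_lit 228) (.e (nat_lit 786480) (nat_lit 29) (.e (nat_lit 352270) (nat_lit 8) (.e (nat_lit 270080) (nat_lit 6) .nil))))) (.g (nat_lit 1) (.e (nat_lit 268547) (nat_lit 0) .nil) .nil))))) (.nd (nat_lit 8) (.nd (nat_lit 9) 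
(.lf (nat_lit 538821) (.g (nat_lit 533) (.e (nat_lit 73755) (nat_lit 8) (.e (nat_lit 557097) (nat_lit 13) (.e (nat_lit 172066) (nat_lit 3) .nil))) (.g (nat_lit 0) (.e (nat_lit 266829) (nat_lit 0) .nil) .nil))) 
(.lf (nat_lit 539333) (.g (nat_lit 1779) (.e (nat_lit 73782) (nat_lit 32) (.e (nat_lit 2857) (nat_lit 184) (.e (nat_lit 426542) (nat_lit 29) (.e (nat_lit 352264) (nat_lit 0) (.e (nat_lit 3714) (nat_lit 227) (.e (nat_lit 786176) (nat_lit 5) .nil)))))) (.g (nat_lit 1) (.e (nat_lit 268198) (nat_lit 0) .nil) .nil)))) (.nd (nat_lit 9) 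
(.lf (nat_lit 539077) (.g (nat_lit 1921) (.e (nat_lit 73775) (nat_lit 26) (.e (nat_lit 778466) (nat_lit 11) (.e (nat_lit 24624) (nat_lit 9) (.e (nat_lit 336414) (nat_lit 27) (.e (nat_lit 425984) (nat_lit 0) (.e (nat_lit 7590) (nat_lit 407) .nil)))))) (.g (nat_lit 1) (.e (nat_lit 267759) (nat_lit 0) .nil) .nil))) 
(.lf (nat_lit 539589) (.g (nat_lit 1278) (.e (nat_lit 81938) (nat_lit 20) (.e (nat_lit 2390) (nat_lit 156) (.e (nat_lit 819204) (nat_lit 0) (.e (nat_lit 2998) (nat_lit 186) (.e (nat_lit 450304) (nat_lit 2) (.e (nat_lit 98048) (nat_lit 6) .nil)))))) (.g (nat_lit 1) (.e (nat_lit 269023) (nat_lit 0) .nil) .nil))))))) (.nd (nat_lit 6) (.nd (nat_lit 7) (.nd (nat_lit 8) (.nd (nat_lit 9) 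
(.lf (nat_lit 538661) (.g (nat_lit 3130) (.e (nat_lit 73753) (nat_lit 8) (.e (nat_lit 557105) (nat_lit 14) (.e (nat_lit 180252) (nat_lit 10) (.e (nat_lit 573474) (nat_lit 12) (.e (nat_lit 57507) (nat_lit 39) (.e (nat_lit 647175) (nat_lit 0) (.e (nat_lit 2667) (nat_lit 167) (.e (nat_lit 196670) (nat_lit 14) .nil)))))))) (.g (nat_lit 1) (.e (nat_lit 266614) (nat_lit 0) .nil) .nil))) 
(.lf (nat_lit 539173) (.g (nat_lit 2846) (.e (nat_lit 73781) (nat_lit 32) (.e (nat_lit 2856) (nat_lit 184) (.e (nat_lit 426542) (nat_lit 29) (.e (nat_lit 352267) (nat_lit 0) (.e (nat_lit 3631) (nat_lit 227) (.e (nat_lit 778324) (nat_lit 5) .nil)))))) (.g (nat_lit 1) (.e (nat_lit 267988) (nat_lit 0) .nil) .nil)))) (.nd (nat_lit 9) 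
(.lf (nat_lit 538917) (.g (nat_lit 4550) (.e (nat_lit 73755) (nat_lit 8) (.e (nat_lit 557105) (nat_lit 14) (.e (nat_lit 180252) (nat_lit 10) (.e (nat_lit 573473) (nat_lit 12) (.e (nat_lit 57500) (nat_lit 37) (.e (nat_lit 630799) (nat_lit 7) (.e (nat_lit 163978) (nat_lit 30) (.e (nat_lit 573489) (nat_lit 14) .nil)))))))) (.g (nat_lit 1) (.e (nat_lit 267255) (nat_lit 0) .nil) .nil))) 
(.lf (nat_lit 539429) (.g (nat_lit 1274) (.e (nat_lit 81921) (nat_lit 0) (.e (nat_lit 3714) (nat_lit 227) (.e (nat_lit 778325) (nat_lit 6) (.e (nat_lit 81922) (nat_lit 0) (.e (nat_lit 3632) (nat_lit 227) (.e (nat_lit 778326) (nat_lit 6) .nil)))))) (.g (nat_lit 1) (.e (nat_lit 268450) (nat_lit 0) .nil) .nil))))) (.nd (nat_lit 8) (.nd (nat_lit 9) 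
(.lf (nat_lit 538789) (.g (nat_lit 2704) (.e (nat_lit 73754) (nat_lit 8) (.e (nat_lit 557118) (nat_lit 18) (.e (nat_lit 2797) (nat_lit 180) (.e (nat_lit 303127) (nat_lit 9) (.e (nat_lit 426558) (nat_lit 33) (.e (nat_lit 392960) (nat_lit 5) .nil)))))) (.g (nat_lit 1) (.e (nat_lit 266773) (nat_lit 0) .nil) .nil))) 
(.lf (nat_lit 539301) (.g (nat_lit 1345) (.e (nat_lit 73782) (nat_lit 32) (.e (nat_lit 2856) (nat_lit 184) (.e (nat_lit 426542) (nat_lit 29) (.e (nat_lit 352265) (nat_lit 0) .nil)))) (.g (nat_lit 0) (.e (nat_lit 268166) (nat_lit 0) .nil) .nil)))) (.nd (nat_lit 9) 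
(.lf (nat_lit 539045) (.g (nat_lit 2110) (.e (nat_lit 73775) (nat_lit 26) (.e (nat_lit 778465) (nat_lit 11) (.e (nat_lit 24623) (nat_lit 9) (.e (nat_lit 336422) (nat_lit 28) (.e (nat_lit 442112) (nat_lit 5) .nil))))) (.g (nat_lit 1) (.e (nat_lit 267709) (nat_lit 0) .nil) .nil))) 
(.lf (nat_lit 539557) (.g (nat_lit 2145) (.e (nat_lit 81935) (nat_lit 20) (.e (nat_lit 1878) (nat_lit 126) (.e (nat_lit 573474) (nat_lit 12) (.e (nat_lit 57528) (nat_lit 46) .nil)))) (.g (nat_lit 0) (.e (nat_lit 268960) (nat_lit 0) .nil) .nil)))))) (.nd (nat_lit 7) (.nd (nat_lit 8) (.nd (nat_lit 9) 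
(.lf (nat_lit 538725) (.g (nat_lit 1646) (.e (nat_lit 73754) (nat_lit 8) (.e (nat_lit 557105) (nat_lit 14) (.e (nat_lit 180251) (nat_lit 10) (.e (nat_lit 573473) (nat_lit 12) .nil)))) (.g (nat_lit 0) (.e (nat_lit 266703) (nat_lit 0) .nil) .nil))) 
(.lf (nat_lit 539237) (.g (nat_lit 2796) (.e (nat_lit 73781) (nat_lit 32) (.e (nat_lit 3090) (nat_lit 191) (.e (nat_lit 483386) (nat_lit 23) (.e (nat_lit 335985) (nat_lit 1) (.e (nat_lit 57873) (nat_lit 264) (.e (nat_lit 1209) (nat_lit 89) .nil)))))) (.g (nat_lit 1) (.e (nat_lit 268053) (nat_lit 0) .nil) .nil)))) (.nd (nat_lit 9) 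
(.lf (nat_lit 538981) (.g (nat_lit 2794) (.e (nat_lit 73755) (nat_lit 8) (.e (nat_lit 557119) (nat_lit 18) (.e (nat_lit 2798) (nat_lit 180) (.e (nat_lit 303119) (nat_lit 3) (.e (nat_lit 204838) (nat_lit 20) (.e (nat_lit 114714) (nat_lit 22) (.e (nat_lit 98048) (nat_lit 5) .nil))))))) (.g (nat_lit 1) (.e (nat_lit 267393) (nat_lit 0) .nil) .nil))) 
(.lf (nat_lit 539493) (.g (nat_lit 796) (.e (nat_lit 81924) (nat_lit 0) (.e (nat_lit 3748) (nat_lit 228) (.e (nat_lit 786478) (nat_lit 29) (.e (nat_lit 352287) (nat_lit 20) .nil)))) (.g (nat_lit 0) (.e (nat_lit 268653) (nat_lit 0) .nil) .nil))))) (.nd (nat_lit 8) (.nd (nat_lit 9) 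
(.lf (nat_lit 538853) (.g (nat_lit 2731) (.e (nat_lit 73755) (nat_lit 8) (.e (nat_lit 557104) (nat_lit 14) (.e (nat_lit 180244) (nat_lit 5) (.e (nat_lit 532490) (nat_lit 0) (.e (nat_lit 2264) (nat_lit 149) (.e (nat_lit 761899) (nat_lit 15) (.e (nat_lit 163979) (nat_lit 30) (.e (nat_lit 573489) (nat_lit 14) .nil)))))))) (.g (nat_lit 1) (.e (nat_lit 266921) (nat_lit 0) .nil) .nil))) 
(.lf (nat_lit 539365) (.g (nat_lit 2513) (.e (nat_lit 73782) (nat_lit 32) (.e (nat_lit 3090) (nat_lit 191) (.e (nat_lit 483395) (nat_lit 24) (.e (nat_lit 344168) (nat_lit 40) (.e (nat_lit 671763) (nat_lit 5) .nil))))) (.g (nat_lit 1) (.e (nat_lit 268230) (nat_lit 0) .nil) .nil)))) (.nd (nat_lit 9) 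
(.lf (nat_lit 539109) (.g (nat_lit 3062) (.e (nat_lit 73775) (nat_lit 26) (.e (nat_lit 778466) (nat_lit 11) (.e (nat_lit 24655) (nat_lit 13) (.e (nat_lit 393232) (nat_lit 17) (.e (nat_lit 7593) (nat_lit 407) .nil))))) (.g (nat_lit 1) (.e (nat_lit 267799) (nat_lit 0) .nil) .nil))) 
(.lf (nat_lit 539621) (.g (nat_lit 1901) (.e (nat_lit 81938) (nat_lit 20) (.e (nat_lit 2391) (nat_lit 156) (.e (nat_lit 819204) (nat_lit 0) (.e (nat_lit 3027) (nat_lit 187) (.e (nat_lit 458496) (nat_lit 8) (.e (nat_lit 564992) (nat_lit 6) .nil)))))) (.g (nat_lit 1) (.e (nat_lit 269056) (nat_lit 0) .nil) .nil)))))))) 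
(.nd (nat_lit 5) (.nd (nat_lit 6) (.nd (nat_lit 7) (.nd (nat_lit 8) (.nd (nat_lit 9) 
(.lf (nat_lit 538645) (.g (nat_lit 1833) (.e (nat_lit 73753) (nat_lit 8) (.e (nat_lit 557105) (nat_lit 14) (.e (nat_lit 180252) (nat_lit 10) (.e (nat_lit 573458) (nat_lit 9) .nil)))) (.g (nat_lit 0) (.e (nat_lit 266597) (nat_lit 0) .nil) .nil))) 
(.lf (nat_lit 539157) (.g (nat_lit 803) (.e (nat_lit 73781) (nat_lit 32) (.e (nat_lit 2682) (nat_lit 168) (.e (nat_lit 204849) (nat_lit 25) (.e (nat_lit 327698) (nat_lit 8) .nil)))) (.g (nat_lit 0) (.e (nat_lit 267964) (nat_lit 0) .nil) .nil)))) (.nd (nat_lit 9) 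
(.lf (nat_lit 538901) (.g (nat_lit 2518) (.e (nat_lit 73755) (nat_lit 8) (.e (nat_lit 557105) (nat_lit 14) (.e (nat_lit 180251) (nat_lit 10) (.e (nat_lit 573473) (nat_lit 12) (.e (nat_lit 57504) (nat_lit 38) .nil))))) (.g (nat_lit 0) (.e (nat_lit 267139) (nat_lit 0) .nil) .nil))) 
(.lf (nat_lit 539413) (.g (nat_lit 720) (.e (nat_lit 73789) (nat_lit 45) (.e (nat_lit 1163) (nat_lit 86) (.e (nat_lit 49157) (nat_lit 0) (.e (nat_lit 2984) (nat_lit 186) (.e (nat_lit 450304) (nat_lit 2) (.e (nat_lit 98048) (nat_lit 5) .nil)))))) (.g (nat_lit 1) (.e (nat_lit 268426) (nat_lit 0) .nil) .nil))))) (.nd (nat_lit 8) (.nd (nat_lit 9) 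
(.lf (nat_lit 538773) (.g (nat_lit 2933) (.e (nat_lit 73754) (nat_lit 8) (.e (nat_lit 557105) (nat_lit 14) (.e (nat_lit 180252) (nat_lit 10) (.e (nat_lit 573475) (nat_lit 12) (.e (nat_lit 57507) (nat_lit 39) (.e (nat_lit 655104) (nat_lit 0) (.e (nat_lit 2667) (nat_lit 167) (.e (nat_lit 196667) (nat_lit 14) .nil)))))))) (.g (nat_lit 1) (.e (nat_lit 266757) (nat_lit 0) .nil) .nil))) 
(.lf (nat_lit 539285) (.g (nat_lit 4086) (.e (nat_lit 73782) (nat_lit 32) (.e (nat_lit 2681) (nat_lit 168) (.e (nat_lit 204863) (nat_lit 27) (.e (nat_lit 344068) (nat_lit 0) (.e (nat_lit 2663) (nat_lit 167) (.e (nat_lit 196668) (nat_lit 14) .nil)))))) (.g (nat_lit 1) (.e (nat_lit 268142) (nat_lit 0) .nil) .nil)))) (.nd (nat_lit 9) 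
(.lf (nat_lit 539029) (.g (nat_lit 1922) (.e (nat_lit 73775) (nat_lit 26) (.e (nat_lit 778464) (nat_lit 11) (.e (nat_lit 24625) (nat_lit 9) (.e (nat_lit 336423) (nat_lit 28) (.e (nat_lit 442112) (nat_lit 5) .nil))))) (.g (nat_lit 1) (.e (nat_lit 267686) (nat_lit 0) .nil) .nil))) 
(.lf (nat_lit 539541) (.g (nat_lit 2101) (.e (nat_lit 81928) (nat_lit 20) (.e (nat_lit 1787) (nat_lit 119) (.e (nat_lit 516179) (nat_lit 15) (.e (nat_lit 475199) (nat_lit 40) (.e (nat_lit 704589) (nat_lit 3) .nil))))) (.g (nat_lit 0) (.e (nat_lit 268898) (nat_lit 0) .nil) .nil)))))) (.nd (nat_lit 7) (.nd (nat_lit 8) (.nd (nat_lit 9) 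
(.lf (nat_lit 538709) (.g (nat_lit 2724) (.e (nat_lit 73753) (nat_lit 8) (.e (nat_lit 557119) (nat_lit 18) (.e (nat_lit 2798) (nat_lit 180) (.e (nat_lit 303147) (nat_lit 15) (.e (nat_lit 1788) (nat_lit 119) .nil))))) (.g (nat_lit 0) (.e (nat_lit 266669) (nat_lit 0) .nil) .nil))) 
(.lf (nat_lit 539221) (.g (nat_lit 1814) (.e (nat_lit 73781) (nat_lit 32) (.e (nat_lit 3090) (nat_lit 191) (.e (nat_lit 483380) (nat_lit 23) (.e (nat_lit 335999) (nat_lit 1) .nil)))) (.g (nat_lit 0) (.e (nat_lit 268037) (nat_lit 0) .nil) .nil)))) (.nd (nat_lit 9) 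
(.lf (nat_lit 538965) (.g (nat_lit 2671) (.e (nat_lit 73755) (nat_lit 8) (.e (nat_lit 557105) (nat_lit 14) (.e (nat_lit 180252) (nat_lit 10) (.e (nat_lit 573475) (nat_lit 12) (.e (nat_lit 57508) (nat_lit 39) .nil))))) (.g (nat_lit 0) (.e (nat_lit 267368) (nat_lit 0) .nil) .nil))) 
(.lf (nat_lit 539477) (.g (nat_lit 738) (.e (nat_lit 81924) (nat_lit 0) (.e (nat_lit 3631) (nat_lit 227) (.e (nat_lit 778326) (nat_lit 6) (.e (nat_lit 81922) (nat_lit 0) .nil)))) (.g (nat_lit 0) (.e (nat_lit 268629) (nat_lit 0) .nil) .nil))))) (.nd (nat_lit 8) (.nd (nat_lit 9) 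
(.lf (nat_lit 538837) (.g (nat_lit 2396) (.e (nat_lit 73755) (nat_lit 8) (.e (nat_lit 557103) (nat_lit 14) (.e (nat_lit 180244) (nat_lit 5) (.e (nat_lit 532490) (nat_lit 0) (.e (nat_lit 2264) (nat_lit 149) .nil))))) (.g (nat_lit 0) (.e (nat_lit 266875) (nat_lit 0) .nil) .nil))) 
(.lf (nat_lit 539349) (.g (nat_lit 2631) (.e (nat_lit 73782) (nat_lit 32) (.e (nat_lit 3089) (nat_lit 191) (.e (nat_lit 483403) (nat_lit 26) (.e (nat_lit 385094) (nat_lit 49) (.e (nat_lit 778323) (nat_lit 5) .nil))))) (.g (nat_lit 1) (.e (nat_lit 268214) (nat_lit 0) .nil) .nil)))) (.nd (nat_lit 9) 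
(.lf (nat_lit 539093) (.g (nat_lit 3616) (.e (nat_lit 73775) (nat_lit 26) (.e (nat_lit 778466) (nat_lit 11) (.e (nat_lit 24631) (nat_lit 9) (.e (nat_lit 336412) (nat_lit 27) (.e (nat_lit 426011) (nat_lit 0) (.e (nat_lit 7593) (nat_lit 407) .nil)))))) (.g (nat_lit 1) (.e (nat_lit 267778) (nat_lit 0) .nil) .nil))) 
(.lf (nat_lit 539605) (.g (nat_lit 1368) (.e (nat_lit 81938) (nat_lit 20) (.e (nat_lit 2391) (nat_lit 156) (.e (nat_lit 819203) (nat_lit 0) (.e (nat_lit 2998) (nat_lit 186) (.e (nat_lit 450304) (nat_lit 2) (.e (nat_lit 98048) (nat_lit 6) .nil)))))) (.g (nat_lit 1) (.e (nat_lit 269040) (nat_lit 0) .nil) .nil))))))) (.nd (nat_lit 6) (.nd (nat_lit 7) (.nd (nat_lit 8) (.nd (nat_lit 9) 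
(.lf (nat_lit 538677) (.g (nat_lit 1778) (.e (nat_lit 73753) (nat_lit 8) (.e (nat_lit 557119) (nat_lit 18) (.e (nat_lit 2796) (nat_lit 180) (.e (nat_lit 303127) (nat_lit 9) (.e (nat_lit 426558) (nat_lit 33) (.e (nat_lit 392960) (nat_lit 5) .nil)))))) (.g (nat_lit 1) (.e (nat_lit 266635) (nat_lit 0) .nil) .nil))) 
(.lf (nat_lit 539189) (.g (nat_lit 1900) (.e (nat_lit 73781) (nat_lit 32) (.e (nat_lit 3087) (nat_lit 191) (.e (nat_lit 483395) (nat_lit 24) (.e (nat_lit 344168) (nat_lit 40) (.e (nat_lit 671763) (nat_lit 5) .nil))))) (.g (nat_lit 1) (.e (nat_lit 268005) (nat_lit 0) .nil) .nil)))) (.nd (nat_lit 9) 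
(.lf (nat_lit 538933) (.g (nat_lit 4902) (.e (nat_lit 73755) (nat_lit 8) (.e (nat_lit 557105) (nat_lit 14) (.e (nat_lit 180252) (nat_lit 10) (.e (nat_lit 573474) (nat_lit 12) (.e (nat_lit 57501) (nat_lit 37) (.e (nat_lit 630799) (nat_lit 7) (.e (nat_lit 163978) (nat_lit 30) (.e (nat_lit 573489) (nat_lit 14) .nil)))))))) (.g (nat_lit 1) (.e (nat_lit 267329) (nat_lit 0) .nil) .nil))) 
(.lf (nat_lit 539445) (.g (nat_lit 2068) (.e (nat_lit 81922) (nat_lit 0) (.e (nat_lit 3631) (nat_lit 227) (.e (nat_lit 778327) (nat_lit 6) (.e (nat_lit 81946) (nat_lit 20) (.e (nat_lit 2006) (nat_lit 138) (.e (nat_lit 671764) (nat_lit 6) .nil)))))) (.g (nat_lit 1) (.e (nat_lit 268511) (nat_lit 0) .nil) .nil))))) (.nd (nat_lit 8) (.nd (nat_lit 9) 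
(.lf (nat_lit 538805) (.g (nat_lit 2737) (.e (nat_lit 73755) (nat_lit 8) (.e (nat_lit 557087) (nat_lit 11) (.e (nat_lit 24628) (nat_lit 9) (.e (nat_lit 336016) (nat_lit 2) (.e (nat_lit 90133) (nat_lit 9) (.e (nat_lit 2397) (nat_lit 157) (.e (nat_lit 7590) (nat_lit 407) .nil))))))) (.g (nat_lit 1) (.e (nat_lit 266802) (nat_lit 0) .nil) .nil))) 
(.lf (nat_lit 539317) (.g (nat_lit 3747) (.e (nat_lit 73782) (nat_lit 32) (.e (nat_lit 2856) (nat_lit 184) (.e (nat_lit 426542) (nat_lit 29) (.e (nat_lit 352318) (nat_lit 24) (.e (nat_lit 123182) (nat_lit 264) (.e (nat_lit 1212) (nat_lit 89) .nil)))))) (.g (nat_lit 1) (.e (nat_lit 268182) (nat_lit 0) .nil) .nil)))) (.nd (nat_lit 9) 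
(.lf (nat_lit 539061) (.g (nat_lit 2648) (.e (nat_lit 73775) (nat_lit 26) (.e (nat_lit 778465) (nat_lit 11) (.e (nat_lit 24628) (nat_lit 9) (.e (nat_lit 336421) (nat_lit 28) (.e (nat_lit 442112) (nat_lit 5) .nil))))) (.g (nat_lit 1) (.e (nat_lit 267725) (nat_lit 0) .nil) .nil))) 
(.lf (nat_lit 539573) (.g (nat_lit 836) (.e (nat_lit 81938) (nat_lit 20) (.e (nat_lit 1886) (nat_lit 127) (.e (nat_lit 581652) (nat_lit 5) (.e (nat_lit 180287) (nat_lit 45) (.e (nat_lit 2578) (nat_lit 161) (.e (nat_lit 48896) (nat_lit 6) .nil)))))) (.g (nat_lit 1) (.e (nat_lit 269004) (nat_lit 0) .nil) .nil)))))) (.nd (nat_lit 7) (.nd (nat_lit 8) (.nd (nat_lit 9) 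
(.lf (nat_lit 538741) (.g (nat_lit 1290) (.e (nat_lit 73754) (nat_lit 8) (.e (nat_lit 557105) (nat_lit 14) (.e (nat_lit 180252) (nat_lit 10) (.e (nat_lit 573473) (nat_lit 12) .nil)))) (.g (nat_lit 0) (.e (nat_lit 266724) (nat_lit 0) .nil) .nil))) 
(.lf (nat_lit 539253) (.g (nat_lit 2781) (.e (nat_lit 73781) (nat_lit 32) (.e (nat_lit 3090) (nat_lit 191) (.e (nat_lit 483395) (nat_lit 24) (.e (nat_lit 344097) (nat_lit 18) (.e (nat_lit 5906) (nat_lit 320) (.e (nat_lit 1211) (nat_lit 89) .nil)))))) (.g (nat_lit 1) (.e (nat_lit 268069) (nat_lit 0) .nil) .nil)))) (.nd (nat_lit 9) 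
(.lf (nat_lit 538997) (.g (nat_lit 2504) (.e (nat_lit 73755) (nat_lit 8) (.e (nat_lit 557119) (nat_lit 18) (.e (nat_lit 2798) (nat_lit 180) (.e (nat_lit 303145) (nat_lit 13) (.e (nat_lit 483331) (nat_lit 0) .nil))))) (.g (nat_lit 0) (.e (nat_lit 267410) (nat_lit 0) .nil) .nil))) 
(.lf (nat_lit 539509) (.g (nat_lit 866) (.e (nat_lit 89856) (nat_lit 0) (.e (nat_lit 3604) (nat_lit 225) (.e (nat_lit 761914) (nat_lit 18) (.e (nat_lit 188446) (nat_lit 21) .nil)))) (.g (nat_lit 0) (.e (nat_lit 268790) (nat_lit 0) .nil) .nil))))) (.nd (nat_lit 8) (.nd (nat_lit 9) 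
(.lf (nat_lit 538869) (.g (nat_lit 2454) (.e (nat_lit 73755) (nat_lit 8) (.e (nat_lit 557104) (nat_lit 14) (.e (nat_lit 180250) (nat_lit 10) (.e (nat_lit 573475) (nat_lit 12) (.e (nat_lit 57501) (nat_lit 37) .nil))))) (.g (nat_lit 0) (.e (nat_lit 267026) (nat_lit 0) .nil) .nil))) 
(.lf (nat_lit 539381) (.g (nat_lit 2423) (.e (nat_lit 81664) (nat_lit 32) (.e (nat_lit 2668) (nat_lit 167) (.e (nat_lit 196666) (nat_lit 13) (.e (nat_lit 65629) (nat_lit 14) .nil)))) (.g (nat_lit 0) (.e (nat_lit 268269) (nat_lit 0) .nil) .nil)))) (.nd (nat_lit 9) 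
(.lf (nat_lit 539125) (.g (nat_lit 1881) (.e (nat_lit 73776) (nat_lit 26) (.e (nat_lit 778465) (nat_lit 11) (.e (nat_lit 24630) (nat_lit 9) (.e (nat_lit 336438) (nat_lit 31) (.e (nat_lit 466688) (nat_lit 5) .nil))))) (.g (nat_lit 1) (.e (nat_lit 267819) (nat_lit 0) .nil) .nil))) 
(.lf (nat_lit 539637) (.g (nat_lit 681) (.e (nat_lit 81939) (nat_lit 20) (.e (nat_lit 1886) (nat_lit 127) (.e (nat_lit 581652) (nat_lit 5) (.e (nat_lit 180285) (nat_lit 45) (.e (nat_lit 2579) (nat_lit 161) (.e (nat_lit 48896) (nat_lit 6) .nil)))))) (.g (nat_lit 1) (.e (nat_lit 269079) (nat_lit 0) .nil) .nil))))))))) 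
(.nd (nat_lit 4) (.nd (nat_lit 5) (.nd (nat_lit 6) (.nd (nat_lit 7) (.nd (nat_lit 8) 
(.nd (nat_lit 9) 
(.lf (nat_lit 538637) (.g (nat_lit 381) (.e (nat_lit 73753) (nat_lit 8) (.e (nat_lit 557105) (nat_lit 14) (.e (nat_lit 180252) (nat_lit 10) .nil))) (.g (nat_lit 0) (.e (nat_lit 266584) (nat_lit 0) .nil) .nil))) 
(.lf (nat_lit 539149) (.g (nat_lit 2888) (.e (nat_lit 73781) (nat_lit 32) (.e (nat_lit 2664) (nat_lit 167) (.e (nat_lit 196666) (nat_lit 13) (.e (nat_lit 65583) (nat_lit 7) (.e (nat_lit 319519) (nat_lit 12) (.e (nat_lit 32788) (nat_lit 10) .nil)))))) (.g (nat_lit 1) (.e (nat_lit 267946) (nat_lit 0) .nil) .nil)))) (.nd (nat_lit 9) 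
(.lf (nat_lit 538893) (.g (nat_lit 3172) (.e (nat_lit 73755) (nat_lit 8) (.e (nat_lit 557105) (nat_lit 14) (.e (nat_lit 180244) (nat_lit 5) (.e (nat_lit 532499) (nat_lit 1) (.e (nat_lit 57652) (nat_lit 152) (.e (nat_lit 2612) (nat_lit 163) (.e (nat_lit 163978) (nat_lit 30) (.e (nat_lit 573489) (nat_lit 14) .nil)))))))) (.g (nat_lit 1) (.e (nat_lit 267069) (nat_lit 0) .nil) .nil))) 
(.lf (nat_lit 539405) (.g (nat_lit 380) (.e (nat_lit 73788) (nat_lit 45) (.e (nat_lit 1163) (nat_lit 86) (.e (nat_lit 49156) (nat_lit 0) (.e (nat_lit 2984) (nat_lit 186) (.e (nat_lit 450304) (nat_lit 2) (.e (nat_lit 98048) (nat_lit 5) .nil)))))) (.g (nat_lit 1) (.e (nat_lit 268409) (nat_lit 0) .nil) .nil))))) (.nd (nat_lit 8) (.nd (nat_lit 9) 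
(.lf (nat_lit 538765) (.g (nat_lit 2523) (.e (nat_lit 73754) (nat_lit 8) (.e (nat_lit 557105) (nat_lit 14) (.e (nat_lit 180252) (nat_lit 10) (.e (nat_lit 573475) (nat_lit 12) (.e (nat_lit 57506) (nat_lit 39) (.e (nat_lit 655104) (nat_lit 0) (.e (nat_lit 2667) (nat_lit 167) (.e (nat_lit 196667) (nat_lit 14) .nil)))))))) (.g (nat_lit 1) (.e (nat_lit 266749) (nat_lit 0) .nil) .nil))) 
(.lf (nat_lit 539277) (.g (nat_lit 2636) (.e (nat_lit 73781) (nat_lit 32) (.e (nat_lit 3090) (nat_lit 191) (.e (nat_lit 483406) (nat_lit 26) (.e (nat_lit 385094) (nat_lit 49) (.e (nat_lit 778324) (nat_lit 5) .nil))))) (.g (nat_lit 1) (.e (nat_lit 268093) (nat_lit 0) .nil) .nil)))) (.nd (nat_lit 9) 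
(.lf (nat_lit 539021) (.g (nat_lit 1128) (.e (nat_lit 73774) (nat_lit 26) (.e (nat_lit 778469) (nat_lit 11) (.e (nat_lit 24660) (nat_lit 13) (.e (nat_lit 393242) (nat_lit 17) (.e (nat_lit 7936) (nat_lit 407) .nil))))) (.g (nat_lit 1) (.e (nat_lit 267660) (nat_lit 0) .nil) .nil))) 
(.lf (nat_lit 539533) (.g (nat_lit 850) (.e (nat_lit 81927) (nat_lit 11) (.e (nat_lit 426108) (nat_lit 1) (.e (nat_lit 164183) (nat_lit 154) .nil))) (.g (nat_lit 0) (.e (nat_lit 268863) (nat_lit 0) .nil) .nil)))))) (.nd (nat_lit 7) (.nd (nat_lit 8) (.nd (nat_lit 9) 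
(.lf (nat_lit 538701) (.g (nat_lit 3261) (.e (nat_lit 73753) (nat_lit 8) (.e (nat_lit 557119) (nat_lit 18) (.e (nat_lit 2798) (nat_lit 180) (.e (nat_lit 303145) (nat_lit 13) (.e (nat_lit 483330) (nat_lit 0) (.e (nat_lit 7936) (nat_lit 407) .nil)))))) (.g (nat_lit 1) (.e (nat_lit 266661) (nat_lit 0) .nil) .nil))) 
(.lf (nat_lit 539213) (.g (nat_lit 2480) (.e (nat_lit 73781) (nat_lit 32) (.e (nat_lit 3089) (nat_lit 191) (.e (nat_lit 483403) (nat_lit 26) (.e (nat_lit 385094) (nat_lit 49) (.e (nat_lit 778324) (nat_lit 5) .nil))))) (.g (nat_lit 1) (.e (nat_lit 268029) (nat_lit 0) .nil) .nil)))) (.nd (nat_lit 9) 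
(.lf (nat_lit 538957) (.g (nat_lit 4908) (.e (nat_lit 73755) (nat_lit 8) (.e (nat_lit 557105) (nat_lit 14) (.e (nat_lit 180252) (nat_lit 10) (.e (nat_lit 573475) (nat_lit 12) (.e (nat_lit 57500) (nat_lit 37) (.e (nat_lit 630799) (nat_lit 7) (.e (nat_lit 163978) (nat_lit 30) (.e (nat_lit 573489) (nat_lit 14) .nil)))))))) (.g (nat_lit 1) (.e (nat_lit 267360) (nat_lit 0) .nil) .nil))) 
(.lf (nat_lit 539469) (.g (nat_lit 451) (.e (nat_lit 81924) (nat_lit 0) (.e (nat_lit 3305) (nat_lit 202) (.e (nat_lit 573482) (nat_lit 13) .nil))) (.g (nat_lit 0) (.e (nat_lit 268605) (nat_lit 0) .nil) .nil))))) (.nd (nat_lit 8) (.nd (nat_lit 9) 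
(.lf (nat_lit 538829) (.g (nat_lit 570) (.e (nat_lit 73755) (nat_lit 8) (.e (nat_lit 557098) (nat_lit 13) (.e (nat_lit 172065) (nat_lit 3) .nil))) (.g (nat_lit 0) (.e (nat_lit 266858) (nat_lit 0) .nil) .nil))) 
(.lf (nat_lit 539341) (.g (nat_lit 1572) (.e (nat_lit 73782) (nat_lit 32) (.e (nat_lit 3089) (nat_lit 191) (.e (nat_lit 483379) (nat_lit 23) (.e (nat_lit 336330) (nat_lit 19) (.e (nat_lit 220928) (nat_lit 5) .nil))))) (.g (nat_lit 1) (.e (nat_lit 268206) (nat_lit 0) .nil) .nil)))) (.nd (nat_lit 9) 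
(.lf (nat_lit 539085) (.g (nat_lit 1817) (.e (nat_lit 73775) (nat_lit 26) (.e (nat_lit 778466) (nat_lit 11) (.e (nat_lit 24626) (nat_lit 9) (.e (nat_lit 336438) (nat_lit 31) (.e (nat_lit 466688) (nat_lit 5) .nil))))) (.g (nat_lit 1) (.e (nat_lit 267768) (nat_lit 0) .nil) .nil))) 
(.lf (nat_lit 539597) (.g (nat_lit 148) (.e (nat_lit 81938) (nat_lit 20) (.e (nat_lit 2390) (nat_lit 156) (.e (nat_lit 819220) (nat_lit 5) .nil))) (.g (nat_lit 0) (.e (nat_lit 269031) (nat_lit 0) .nil) .nil))))))) (.nd (nat_lit 6) (.nd (nat_lit 7) (.nd (nat_lit 8) (.nd (nat_lit 9) 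
(.lf (nat_lit 538669) (.g (nat_lit 5583) (.e (nat_lit 73753) (nat_lit 8) (.e (nat_lit 557105) (nat_lit 14) (.e (nat_lit 180252) (nat_lit 10) (.e (nat_lit 573475) (nat_lit 12) (.e (nat_lit 57503) (nat_lit 38) (.e (nat_lit 638995) (nat_lit 7) (.e (nat_lit 163979) (nat_lit 30) (.e (nat_lit 573488) (nat_lit 14) .nil)))))))) (.g (nat_lit 1) (.e (nat_lit 266627) (nat_lit 0) .nil) .nil))) 
(.lf (nat_lit 539181) (.g (nat_lit 1630) (.e (nat_lit 73781) (nat_lit 32) (.e (nat_lit 2857) (nat_lit 184) (.e (nat_lit 426542) (nat_lit 29) (.e (nat_lit 352264) (nat_lit 0) (.e (nat_lit 3716) (nat_lit 227) (.e (nat_lit 778322) (nat_lit 5) .nil)))))) (.g (nat_lit 1) (.e (nat_lit 267996) (nat_lit 0) .nil) .nil)))) (.nd (nat_lit 9) 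
(.lf (nat_lit 538925) (.g (nat_lit 2218) (.e (nat_lit 73755) (nat_lit 8) (.e (nat_lit 557105) (nat_lit 14) (.e (nat_lit 180252) (nat_lit 10) (.e (nat_lit 573474) (nat_lit 12) (.e (nat_lit 57355) (nat_lit 0) .nil))))) (.g (nat_lit 0) (.e (nat_lit 267305) (nat_lit 0) .nil) .nil))) 
(.lf (nat_lit 539437) (.g (nat_lit 3835) (.e (nat_lit 81922) (nat_lit 0) (.e (nat_lit 3305) (nat_lit 202) (.e (nat_lit 573484) (nat_lit 13) (.e (nat_lit 65624) (nat_lit 12) (.e (nat_lit 385074) (nat_lit 31) (.e (nat_lit 573491) (nat_lit 15) .nil)))))) (.g (nat_lit 1) (.e (nat_lit 268488) (nat_lit 0) .nil) .nil))))) (.nd (nat_lit 8) (.nd (nat_lit 9) 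
(.lf (nat_lit 538797) (.g (nat_lit 3854) (.e (nat_lit 73755) (nat_lit 8) (.e (nat_lit 557067) (nat_lit 9) (.e (nat_lit 2598) (nat_lit 163) (.e (nat_lit 164403) (nat_lit 256) (.e (nat_lit 57378) (nat_lit 3) (.e (nat_lit 98368) (nat_lit 27) (.e (nat_lit 434245) (nat_lit 28) (.e (nat_lit 573488) (nat_lit 14) .nil)))))))) (.g (nat_lit 1) (.e (nat_lit 266782) (nat_lit 0) .nil) .nil))) 
(.lf (nat_lit 539309) (.g (nat_lit 3323) (.e (nat_lit 73782) (nat_lit 32) (.e (nat_lit 2856) (nat_lit 184) (.e (nat_lit 426542) (nat_lit 29) (.e (nat_lit 352307) (nat_lit 21) (.e (nat_lit 57873) (nat_lit 264) (.e (nat_lit 1210) (nat_lit 89) .nil)))))) (.g (nat_lit 1) (.e (nat_lit 268174) (nat_lit 0) .nil) .nil)))) (.nd (nat_lit 9) 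
(.lf (nat_lit 539053) (.g (nat_lit 1866) (.e (nat_lit 73775) (nat_lit 26) (.e (nat_lit 778465) (nat_lit 11) (.e (nat_lit 24625) (nat_lit 9) (.e (nat_lit 336414) (nat_lit 27) .nil)))) (.g (nat_lit 0) (.e (nat_lit 267717) (nat_lit 0) .nil) .nil))) 
(.lf (nat_lit 539565) (.g (nat_lit 419) (.e (nat_lit 81938) (nat_lit 20) (.e (nat_lit 1842) (nat_lit 123) (.e (nat_lit 548874) (nat_lit 5) .nil))) (.g (nat_lit 0) (.e (nat_lit 268986) (nat_lit 0) .nil) .nil)))))) (.nd (nat_lit 7) (.nd (nat_lit 8) (.nd (nat_lit 9) 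
(.lf (nat_lit 538733) (.g (nat_lit 3131) (.e (nat_lit 73754) (nat_lit 8) (.e (nat_lit 557105) (nat_lit 14) (.e (nat_lit 180252) (nat_lit 10) (.e (nat_lit 573451) (nat_lit 9) (.e (nat_lit 1169) (nat_lit 87) .nil))))) (.g (nat_lit 0) (.e (nat_lit 266711) (nat_lit 0) .nil) .nil))) 
(.lf (nat_lit 539245) (.g (nat_lit 2122) (.e (nat_lit 73781) (nat_lit 32) (.e (nat_lit 3090) (nat_lit 191) (.e (nat_lit 491264) (nat_lit 23) (.e (nat_lit 335995) (nat_lit 1) (.e (nat_lit 57872) (nat_lit 264) (.e (nat_lit 1211) (nat_lit 89) .nil)))))) (.g (nat_lit 1) (.e (nat_lit 268061) (nat_lit 0) .nil) .nil)))) (.nd (nat_lit 9) 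
(.lf (nat_lit 538989) (.g (nat_lit 2567) (.e (nat_lit 73755) (nat_lit 8) (.e (nat_lit 557119) (nat_lit 18) (.e (nat_lit 2798) (nat_lit 180) (.e (nat_lit 303133) (nat_lit 9) (.e (nat_lit 426499) (nat_lit 27) (.e (nat_lit 336278) (nat_lit 15) (.e (nat_lit 7936) (nat_lit 407) .nil))))))) (.g (nat_lit 1) (.e (nat_lit 267402) (nat_lit 0) .nil) .nil))) 
(.lf (nat_lit 539501) (.g (nat_lit 1756) (.e (nat_lit 89856) (nat_lit 0) (.e (nat_lit 3302) (nat_lit 202) (.e (nat_lit 573481) (nat_lit 13) (.e (nat_lit 65628) (nat_lit 14) (.e (nat_lit 401425) (nat_lit 2) .nil))))) (.g (nat_lit 0) (.e (nat_lit 268708) (nat_lit 0) .nil) .nil))))) (.nd (nat_lit 8) (.nd (nat_lit 9) 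
(.lf (nat_lit 538861) (.g (nat_lit 514) (.e (nat_lit 73755) (nat_lit 8) (.e (nat_lit 557104) (nat_lit 14) (.e (nat_lit 188160) (nat_lit 3) .nil))) (.g (nat_lit 0) (.e (nat_lit 267017) (nat_lit 0) .nil) .nil))) 
(.lf (nat_lit 539373) (.g (nat_lit 1291) (.e (nat_lit 81664) (nat_lit 32) (.e (nat_lit 2663) (nat_lit 167) (.e (nat_lit 196672) (nat_lit 15) (.e (nat_lit 81922) (nat_lit 0) .nil)))) (.g (nat_lit 0) (.e (nat_lit 268247) (nat_lit 0) .nil) .nil)))) (.nd (nat_lit 9) 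
(.lf (nat_lit 539117) (.g (nat_lit 1738) (.e (nat_lit 73775) (nat_lit 26) (.e (nat_lit 778466) (nat_lit 11) (.e (nat_lit 24658) (nat_lit 13) (.e (nat_lit 393241) (nat_lit 17) (.e (nat_lit 7936) (nat_lit 407) .nil))))) (.g (nat_lit 1) (.e (nat_lit 267807) (nat_lit 0) .nil) .nil))) 
(.lf (nat_lit 539629) (.g (nat_lit 1256) (.e (nat_lit 81938) (nat_lit 20) (.e (nat_lit 2391) (nat_lit 156) (.e (nat_lit 819221) (nat_lit 6) (.e (nat_lit 188428) (nat_lit 20) (.e (nat_lit 3282) (nat_lit 200) (.e (nat_lit 564992) (nat_lit 6) .nil)))))) (.g (nat_lit 1) (.e (nat_lit 269065) (nat_lit 0) .nil) .nil)))))))) 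
(.nd (nat_lit 5) (.nd (nat_lit 6) (.nd (nat_lit 7) (.nd (nat_lit 8) (.nd (nat_lit 9) 
(.lf (nat_lit 538653) (.g (nat_lit 4202) (.e (nat_lit 73753) (nat_lit 8) (.e (nat_lit 557105) (nat_lit 14) (.e (nat_lit 180252) (nat_lit 10) (.e (nat_lit 573474) (nat_lit 12) (.e (nat_lit 57503) (nat_lit 38) (.e (nat_lit 638995) (nat_lit 7) (.e (nat_lit 163978) (nat_lit 30) (.e (nat_lit 573487) (nat_lit 14) .nil)))))))) (.g (nat_lit 1) (.e (nat_lit 266606) (nat_lit 0) .nil) .nil))) 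
(.lf (nat_lit 539165) (.g (nat_lit 4075) (.e (nat_lit 73781) (nat_lit 32) (.e (nat_lit 2856) (nat_lit 184) (.e (nat_lit 426509) (nat_lit 27) (.e (nat_lit 336193) (nat_lit 12) (.e (nat_lit 385093) (nat_lit 49) (.e (nat_lit 778323) (nat_lit 5) .nil)))))) (.g (nat_lit 1) (.e (nat_lit 267980) (nat_lit 0) .nil) .nil)))) (.nd (nat_lit 9) 
(.lf (nat_lit 538909) (.g (nat_lit 3939) (.e (nat_lit 73755) (nat_lit 8) (.e (nat_lit 557105) (nat_lit 14) (.e (nat_lit 180251) (nat_lit 10) (.e (nat_lit 573478) (nat_lit 12) (.e (nat_lit 57500) (nat_lit 37) (.e (nat_lit 630799) (nat_lit 7) (.e (nat_lit 163978) (nat_lit 30) (.e (nat_lit 573489) (nat_lit 14) .nil)))))))) (.g (nat_lit 1) (.e (nat_lit 267147) (nat_lit 0) .nil) .nil))) 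
(.lf (nat_lit 539421) (.g (nat_lit 574) (.e (nat_lit 73792) (nat_lit 45) (.e (nat_lit 1162) (nat_lit 86) (.e (nat_lit 49156) (nat_lit 0) (.e (nat_lit 2984) (nat_lit 186) (.e (nat_lit 450304) (nat_lit 2) (.e (nat_lit 98048) (nat_lit 5) .nil)))))) (.g (nat_lit 1) (.e (nat_lit 268439) (nat_lit 0) .nil) .nil))))) (.nd (nat_lit 8) (.nd (nat_lit 9) 
(.lf (nat_lit 538781) (.g (nat_lit 2689) (.e (nat_lit 73754) (nat_lit 8) (.e (nat_lit 557105) (nat_lit 14) (.e (nat_lit 180252) (nat_lit 10) (.e (nat_lit 573475) (nat_lit 12) (.e (nat_lit 57509) (nat_lit 39) (.e (nat_lit 655104) (nat_lit 0) (.e (nat_lit 2667) (nat_lit 167) (.e (nat_lit 196668) (nat_lit 14) .nil)))))))) (.g (nat_lit 1) (.e (nat_lit 266765) (nat_lit 0) .nil) .nil))) 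
(.lf (nat_lit 539293) (.g (nat_lit 2208) (.e (nat_lit 73782) (nat_lit 32) (.e (nat_lit 2856) (nat_lit 184) (.e (nat_lit 426509) (nat_lit 27) (.e (nat_lit 336193) (nat_lit 12) (.e (nat_lit 385092) (nat_lit 49) (.e (nat_lit 778323) (nat_lit 5) .nil)))))) (.g (nat_lit 1) (.e (nat_lit 268158) (nat_lit 0) .nil) .nil)))) (.nd (nat_lit 9) 
(.lf (nat_lit 539037) (.g (nat_lit 2226) (.e (nat_lit 73775) (nat_lit 26) (.e (nat_lit 778465) (nat_lit 11) (.e (nat_lit 24623) (nat_lit 9) (.e (nat_lit 336379) (nat_lit 27) (.e (nat_lit 426078) (nat_lit 0) (.e (nat_lit 7936) (nat_lit 407) .nil)))))) (.g (nat_lit 1) (.e (nat_lit 267700) (nat_lit 0) .nil) .nil))) 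
(.lf (nat_lit 539549) (.g (nat_lit 2805) (.e (nat_lit 81931) (nat_lit 20) (.e (nat_lit 2295) (nat_lit 151) (.e (nat_lit 778561) (nat_lit 14) (.e (nat_lit 2797) (nat_lit 180) (.e (nat_lit 303127) (nat_lit 9) (.e (nat_lit 426428) (nat_lit 17) (.e (nat_lit 98048) (nat_lit 6) .nil))))))) (.g (nat_lit 1) (.e (nat_lit 268923) (nat_lit 0) .nil) .nil)))))) 
(.nd (nat_lit 7) (.nd (nat_lit 8) (.nd (nat_lit 9) 
(.lf (nat_lit 538717) (.g (nat_lit 1514) (.e (nat_lit 73754) (nat_lit 8) (.e (nat_lit 557100) (nat_lit 13) (.e (nat_lit 172065) (nat_lit 3) (.e (nat_lit 204821) (nat_lit 17) .nil)))) (.g (nat_lit 0) (.e (nat_lit 266684) (nat_lit 0) .nil) .nil))) 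
(.lf (nat_lit 539229) (.g (nat_lit 2112) (.e (nat_lit 73781) (nat_lit 32) (.e (nat_lit 3090) (nat_lit 191) (.e (nat_lit 483380) (nat_lit 23) (.e (nat_lit 336328) (nat_lit 19) (.e (nat_lit 220928) (nat_lit 5) .nil))))) (.g (nat_lit 1) (.e (nat_lit 268045) (nat_lit 0) .nil) .nil)))) (.nd (nat_lit 9) 
(.lf (nat_lit 538973) (.g (nat_lit 2308) (.e (nat_lit 73755) (nat_lit 8) (.e (nat_lit 557119) (nat_lit 18) (.e (nat_lit 2797) (nat_lit 180) (.e (nat_lit 303145) (nat_lit 13) (.e (nat_lit 483330) (nat_lit 0) (.e (nat_lit 7936) (nat_lit 407) .nil)))))) (.g (nat_lit 1) (.e (nat_lit 267384) (nat_lit 0) .nil) .nil))) 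
(.lf (nat_lit 539485) (.g (nat_lit 414) (.e (nat_lit 81924) (nat_lit 0) (.e (nat_lit 3632) (nat_lit 227) (.e (nat_lit 778326) (nat_lit 6) .nil))) (.g (nat_lit 0) (.e (nat_lit 268638) (nat_lit 0) .nil) .nil))))) (.nd (nat_lit 8) (.nd (nat_lit 9) 
(.lf (nat_lit 538845) (.g (nat_lit 2123) (.e (nat_lit 73755) (nat_lit 8) (.e (nat_lit 557103) (nat_lit 14) (.e (nat_lit 180251) (nat_lit 10) (.e (nat_lit 573475) (nat_lit 12) (.e (nat_lit 57503) (nat_lit 38) .nil))))) (.g (nat_lit 0) (.e (nat_lit 266909) (nat_lit 0) .nil) .nil))) 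
(.lf (nat_lit 539357) (.g (nat_lit 1972) (.e (nat_lit 73782) (nat_lit 32) (.e (nat_lit 3090) (nat_lit 191) (.e (nat_lit 483380) (nat_lit 23) (.e (nat_lit 336330) (nat_lit 19) (.e (nat_lit 220928) (nat_lit 5) .nil))))) (.g (nat_lit 1) (.e (nat_lit 268222) (nat_lit 0) .nil) .nil)))) (.nd (nat_lit 9) 
(.lf (nat_lit 539101) (.g (nat_lit 3396) (.e (nat_lit 73775) (nat_lit 26) (.e (nat_lit 778466) (nat_lit 11) (.e (nat_lit 24632) (nat_lit 9) (.e (nat_lit 336412) (nat_lit 27) (.e (nat_lit 426011) (nat_lit 0) (.e (nat_lit 7591) (nat_lit 407) .nil)))))) (.g (nat_lit 1) (.e (nat_lit 267787) (nat_lit 0) .nil) .nil))) 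
(.lf (nat_lit 539613) (.g (nat_lit 1711) (.e (nat_lit 81938) (nat_lit 20) (.e (nat_lit 2391) (nat_lit 156) (.e (nat_lit 819204) (nat_lit 0) (.e (nat_lit 2998) (nat_lit 186) (.e (nat_lit 450304) (nat_lit 2) (.e (nat_lit 98048) (nat_lit 6) .nil)))))) (.g (nat_lit 1) (.e (nat_lit 269048) (nat_lit 0) .nil) .nil))))))) (.nd (nat_lit 6) (.nd (nat_lit 7) (.nd (nat_lit 8) (.nd (nat_lit 9) 
(.lf (nat_lit 538685) (.g (nat_lit 413) (.e (nat_lit 73753) (nat_lit 8) (.e (nat_lit 557119) (nat_lit 18) (.e (nat_lit 2798) (nat_lit 180) .nil))) (.g (nat_lit 0) (.e (nat_lit 266643) (nat_lit 0) .nil) .nil))) 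
(.lf (nat_lit 539197) (.g (nat_lit 2589) (.e (nat_lit 73781) (nat_lit 32) (.e (nat_lit 3088) (nat_lit 191) (.e (nat_lit 483402) (nat_lit 26) (.e (nat_lit 385093) (nat_lit 49) (.e (nat_lit 778324) (nat_lit 5) .nil))))) (.g (nat_lit 1) (.e (nat_lit 268013) (nat_lit 0) .nil) .nil)))) (.nd (nat_lit 9) 
(.lf (nat_lit 538941) (.g (nat_lit 2243) (.e (nat_lit 73755) (nat_lit 8) (.e (nat_lit 557105) (nat_lit 14) (.e (nat_lit 180252) (nat_lit 10) (.e (nat_lit 573474) (nat_lit 12) (.e (nat_lit 57505) (nat_lit 39) (.e (nat_lit 655104) (nat_lit 0) (.e (nat_lit 2667) (nat_lit 167) (.e (nat_lit 196667) (nat_lit 14) .nil)))))))) (.g (nat_lit 1) (.e (nat_lit 267337) (nat_lit 0) .nil) .nil))) 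
(.lf (nat_lit 539453) (.g (nat_lit 2815) (.e (nat_lit 81922) (nat_lit 0) (.e (nat_lit 3747) (nat_lit 228) (.e (nat_lit 786480) (nat_lit 29) (.e (nat_lit 352262) (nat_lit 0) (.e (nat_lit 3632) (nat_lit 227) (.e (nat_lit 778327) (nat_lit 6) .nil)))))) (.g (nat_lit 1) (.e (nat_lit 268534) (nat_lit 0) .nil) .nil))))) (.nd (nat_lit 8) (.nd (nat_lit 9) 
(.lf (nat_lit 538813) (.g (nat_lit 3711) (.e (nat_lit 73755) (nat_lit 8) (.e (nat_lit 557090) (nat_lit 12) (.e (nat_lit 163843) (nat_lit 0) (.e (nat_lit 5943) (nat_lit 322) (.e (nat_lit 57375) (nat_lit 2) (.e (nat_lit 90173) (nat_lit 14) (.e (nat_lit 180252) (nat_lit 10) (.e (nat_lit 573489) (nat_lit 14) .nil)))))))) (.g (nat_lit 1) (.e (nat_lit 266813) (nat_lit 0) .nil) .nil))) 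
(.lf (nat_lit 539325) (.g (nat_lit 3509) (.e (nat_lit 73782) (nat_lit 32) (.e (nat_lit 2856) (nat_lit 184) (.e (nat_lit 426555) (nat_lit 32) (.e (nat_lit 376859) (nat_lit 21) (.e (nat_lit 57870) (nat_lit 264) (.e (nat_lit 1209) (nat_lit 89) .nil)))))) (.g (nat_lit 1) (.e (nat_lit 268190) (nat_lit 0) .nil) .nil)))) (.nd (nat_lit 9) 
(.lf (nat_lit 539069) (.g (nat_lit 2309) (.e (nat_lit 73775) (nat_lit 26) (.e (nat_lit 778466) (nat_lit 11) (.e (nat_lit 24623) (nat_lit 9) (.e (nat_lit 336389) (nat_lit 27) (.e (nat_lit 426011) (nat_lit 0) .nil))))) (.g (nat_lit 0) (.e (nat_lit 267751) (nat_lit 0) .nil) .nil))) 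
(.lf (nat_lit 539581) (.g (nat_lit 1038) (.e (nat_lit 81938) (nat_lit 20) (.e (nat_lit 2390) (nat_lit 156) (.e (nat_lit 819203) (nat_lit 0) (.e (nat_lit 2989) (nat_lit 186) (.e (nat_lit 450304) (nat_lit 2) (.e (nat_lit 98048) (nat_lit 6) .nil)))))) (.g (nat_lit 1) (.e (nat_lit 269014) (nat_lit 0) .nil) .nil)))))) (.nd (nat_lit 7) (.nd (nat_lit 8) (.nd (nat_lit 9) 
(.lf (nat_lit 538749) (.g (nat_lit 3065) (.e (nat_lit 73754) (nat_lit 8) (.e (nat_lit 557105) (nat_lit 14) (.e (nat_lit 180252) (nat_lit 10) (.e (nat_lit 573473) (nat_lit 12) (.e (nat_lit 57508) (nat_lit 39) (.e (nat_lit 647176) (nat_lit 0) (.e (nat_lit 2663) (nat_lit 167) (.e (nat_lit 196667) (nat_lit 14) .nil)))))))) (.g (nat_lit 1) (.e (nat_lit 266732) (nat_lit 0) .nil) .nil))) 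
(.lf (nat_lit 539261) (.g (nat_lit 1645) (.e (nat_lit 73781) (nat_lit 32) (.e (nat_lit 3090) (nat_lit 191) (.e (nat_lit 483400) (nat_lit 25) (.e (nat_lit 368662) (nat_lit 18) (.e (nat_lit 5906) (nat_lit 320) (.e (nat_lit 1211) (nat_lit 89) .nil)))))) (.g (nat_lit 1) (.e (nat_lit 268077) (nat_lit 0) .nil) .nil)))) (.nd (nat_lit 9) 
(.lf (nat_lit 539005) (.g (nat_lit 805) (.e (nat_lit 73764) (nat_lit 18) (.e (nat_lit 638998) (nat_lit 8) (.e (nat_lit 172080) (nat_lit 7) (.e (nat_lit 409639) (nat_lit 15) .nil)))) (.g (nat_lit 0) (.e (nat_lit 267492) (nat_lit 0) .nil) .nil))) 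
(.lf (nat_lit 539517) (.g (nat_lit 998) (.e (nat_lit 89856) (nat_lit 0) (.e (nat_lit 3605) (nat_lit 225) (.e (nat_lit 761914) (nat_lit 18) (.e (nat_lit 188455) (nat_lit 24) .nil)))) (.g (nat_lit 0) (.e (nat_lit 268812) (nat_lit 0) .nil) .nil))))) (.nd (nat_lit 8) (.nd (nat_lit 9) 
(.lf (nat_lit 538877) (.g (nat_lit 2811) (.e (nat_lit 73755) (nat_lit 8) (.e (nat_lit 557104) (nat_lit 14) (.e (nat_lit 180251) (nat_lit 10) (.e (nat_lit 573475) (nat_lit 12) (.e (nat_lit 57504) (nat_lit 38) .nil))))) (.g (nat_lit 0) (.e (nat_lit 267034) (nat_lit 0) .nil) .nil))) 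
(.lf (nat_lit 539389) (.g (nat_lit 1565) (.e (nat_lit 81664) (nat_lit 33) (.e (nat_lit 8318) (nat_lit 64) (.e (nat_lit 516097) (nat_lit 0) (.e (nat_lit 3605) (nat_lit 225) (.e (nat_lit 761905) (nat_lit 16) .nil))))) (.g (nat_lit 0) (.e (nat_lit 268321) (nat_lit 0) .nil) .nil)))) (.nd (nat_lit 9) 
(.lf (nat_lit 539133) (.g (nat_lit 3103) (.e (nat_lit 73776) (nat_lit 26) (.e (nat_lit 778466) (nat_lit 11) (.e (nat_lit 24631) (nat_lit 9) (.e (nat_lit 336412) (nat_lit 27) (.e (nat_lit 426011) (nat_lit 0) (.e (nat_lit 7591) (nat_lit 407) .nil)))))) (.g (nat_lit 1) (.e (nat_lit 267834) (nat_lit 0) .nil) .nil))) 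
(.lf (nat_lit 539645) (.g (nat_lit 540) (.e (nat_lit 81939) (nat_lit 20) (.e (nat_lit 2390) (nat_lit 156) (.e (nat_lit 819203) (nat_lit 0) (.e (nat_lit 2998) (nat_lit 186) (.e (nat_lit 450304) (nat_lit 2) (.e (nat_lit 98048) (nat_lit 6) .nil)))))) (.g (nat_lit 1) (.e (nat_lit 269090) (nat_lit 0) .nil) .nil))))))))))) 
(.nd (nat_lit 2) (.nd (nat_lit 3) (.nd (nat_lit 4) (.nd (nat_lit 5) (.nd (nat_lit 6) 
(.nd (nat_lit 7) (.nd (nat_lit 8) (.nd (nat_lit 9) 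
(.lf (nat_lit 538627) (.g (nat_lit 3447) (.e (nat_lit 73753) (nat_lit 8) (.e (nat_lit 557104) (nat_lit 14) (.e (nat_lit 180252) (nat_lit 10) (.e (nat_lit 573475) (nat_lit 12) (.e (nat_lit 57504) (nat_lit 38) (.e (nat_lit 638995) (nat_lit 7) (.e (nat_lit 163979) (nat_lit 30) (.e (nat_lit 573487) (nat_lit 14) .nil)))))))) (.g (nat_lit 1) (.e (nat_lit 266572) (nat_lit 0) .nil) .nil))) 
(.lf (nat_lit 539139) (.g (nat_lit 2306) (.e (nat_lit 73777) (nat_lit 31) (.e (nat_lit 819203) (nat_lit 0) (.e (nat_lit 3015) (nat_lit 187) (.e (nat_lit 450562) (nat_lit 0) (.e (nat_lit 4275) (nat_lit 252) (.e (nat_lit 8288) (nat_lit 51) (.e (nat_lit 5410) (nat_lit 303) .nil))))))) (.g (nat_lit 1) (.e (nat_lit 267878) (nat_lit 0) .nil) .nil)))) (.nd (nat_lit 9) 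
(.lf (nat_lit 538883) (.g (nat_lit 2470) (.e (nat_lit 73755) (nat_lit 8) (.e (nat_lit 557104) (nat_lit 14) (.e (nat_lit 180252) (nat_lit 10) (.e (nat_lit 573474) (nat_lit 12) (.e (nat_lit 57501) (nat_lit 37) .nil))))) (.g (nat_lit 0) (.e (nat_lit 267045) (nat_lit 0) .nil) .nil))) 
(.lf (nat_lit 539395) (.g (nat_lit 964) (.e (nat_lit 81664) (nat_lit 35) (.e (nat_lit 163962) (nat_lit 25) (.e (nat_lit 532535) (nat_lit 9) (.e (nat_lit 336226) (nat_lit 14) .nil)))) (.g (nat_lit 0) (.e (nat_lit 268356) (nat_lit 0) .nil) .nil))))) (.nd (nat_lit 8) (.nd (nat_lit 9) 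
(.lf (nat_lit 538755) (.g (nat_lit 3617) (.e (nat_lit 73754) (nat_lit 8) (.e (nat_lit 557105) (nat_lit 14) (.e (nat_lit 180252) (nat_lit 10) (.e (nat_lit 573474) (nat_lit 12) (.e (nat_lit 57355) (nat_lit 0) .nil))))) (.g (nat_lit 0) (.e (nat_lit 266738) (nat_lit 0) .nil) .nil))) 
(.lf (nat_lit 539267) (.g (nat_lit 3232) (.e (nat_lit 73781) (nat_lit 32) (.e (nat_lit 3090) (nat_lit 191) (.e (nat_lit 483403) (nat_lit 26) (.e (nat_lit 385094) (nat_lit 49) (.e (nat_lit 778323) (nat_lit 5) .nil))))) (.g (nat_lit 1) (.e (nat_lit 268083) (nat_lit 0) .nil) .nil)))) (.nd (nat_lit 9) 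
(.lf (nat_lit 539011) (.g (nat_lit 2155) (.e (nat_lit 73773) (nat_lit 25) (.e (nat_lit 770071) (nat_lit 8) (.e (nat_lit 65625) (nat_lit 13) (.e (nat_lit 393232) (nat_lit 17) (.e (nat_lit 7591) (nat_lit 407) .nil))))) (.g (nat_lit 1) (.e (nat_lit 267641) (nat_lit 0) .nil) .nil))) 
(.lf (nat_lit 539523) (.g (nat_lit 1369) (.e (nat_lit 89856) (nat_lit 3) (.e (nat_lit 204838) (nat_lit 20) (.e (nat_lit 114698) (nat_lit 11) (.e (nat_lit 426123) (nat_lit 2) .nil)))) (.g (nat_lit 0) (.e (nat_lit 268832) (nat_lit 0) .nil) .nil)))))) (.nd (nat_lit 7) (.nd (nat_lit 8) (.nd (nat_lit 9) 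
(.lf (nat_lit 538691) (.g (nat_lit 3426) (.e (nat_lit 73753) (nat_lit 8) (.e (nat_lit 557119) (nat_lit 18) (.e (nat_lit 2798) (nat_lit 180) (.e (nat_lit 303133) (nat_lit 9) (.e (nat_lit 426499) (nat_lit 27) (.e (nat_lit 336275) (nat_lit 15) (.e (nat_lit 7936) (nat_lit 407) .nil))))))) (.g (nat_lit 1) (.e (nat_lit 266651) (nat_lit 0) .nil) .nil))) 
(.lf (nat_lit 539203) (.g (nat_lit 1763) (.e (nat_lit 73781) (nat_lit 32) (.e (nat_lit 3089) (nat_lit 191) (.e (nat_lit 483380) (nat_lit 23) (.e (nat_lit 336332) (nat_lit 19) (.e (nat_lit 220928) (nat_lit 5) .nil))))) (.g (nat_lit 1) (.e (nat_lit 268019) (nat_lit 0) .nil) .nil)))) (.nd (nat_lit 9) 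
(.lf (nat_lit 538947) (.g (nat_lit 2478) (.e (nat_lit 73755) (nat_lit 8) (.e (nat_lit 557105) (nat_lit 14) (.e (nat_lit 180252) (nat_lit 10) (.e (nat_lit 573474) (nat_lit 12) (.e (nat_lit 57507) (nat_lit 39) (.e (nat_lit 655104) (nat_lit 0) (.e (nat_lit 2667) (nat_lit 167) (.e (nat_lit 196667) (nat_lit 14) .nil)))))))) (.g (nat_lit 1) (.e (nat_lit 267343) (nat_lit 0) .nil) .nil))) 
(.lf (nat_lit 539459) (.g (nat_lit 790) (.e (nat_lit 81922) (nat_lit 0) (.e (nat_lit 3748) (nat_lit 228) (.e (nat_lit 786478) (nat_lit 29) (.e (nat_lit 352287) (nat_lit 20) .nil)))) (.g (nat_lit 0) (.e (nat_lit 268543) (nat_lit 0) .nil) .nil))))) (.nd (nat_lit 8) (.nd (nat_lit 9) 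
(.lf (nat_lit 538819) (.g (nat_lit 4269) (.e (nat_lit 73755) (nat_lit 8) (.e (nat_lit 557091) (nat_lit 12) (.e (nat_lit 163841) (nat_lit 0) (.e (nat_lit 5954) (nat_lit 322) (.e (nat_lit 57371) (nat_lit 2) (.e (nat_lit 90174) (nat_lit 14) (.e (nat_lit 180251) (nat_lit 10) (.e (nat_lit 573489) (nat_lit 14) .nil)))))))) (.g (nat_lit 1) (.e (nat_lit 266822) (nat_lit 0) .nil) .nil))) 
(.lf (nat_lit 539331) (.g (nat_lit 1654) (.e (nat_lit 73782) (nat_lit 32) (.e (nat_lit 2857) (nat_lit 184) (.e (nat_lit 426540) (nat_lit 29) (.e (nat_lit 352258) (nat_lit 0) (.e (nat_lit 3716) (nat_lit 227) (.e (nat_lit 778322) (nat_lit 5) .nil)))))) (.g (nat_lit 1) (.e (nat_lit 268196) (nat_lit 0) .nil) .nil)))) (.nd (nat_lit 9) 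
(.lf (nat_lit 539075) (.g (nat_lit 2206) (.e (nat_lit 73775) (nat_lit 26) (.e (nat_lit 778466) (nat_lit 11) (.e (nat_lit 24623) (nat_lit 9) (.e (nat_lit 336421) (nat_lit 28) (.e (nat_lit 442112) (nat_lit 5) .nil))))) (.g (nat_lit 1) (.e (nat_lit 267757) (nat_lit 0) .nil) .nil))) 
(.lf (nat_lit 539587) (.g (nat_lit 975) (.e (nat_lit 81938) (nat_lit 20) (.e (nat_lit 2390) (nat_lit 156) (.e (nat_lit 819203) (nat_lit 0) (.e (nat_lit 3027) (nat_lit 187) (.e (nat_lit 458496) (nat_lit 8) (.e (nat_lit 564992) (nat_lit 6) .nil)))))) (.g (nat_lit 1) (.e (nat_lit 269021) (nat_lit 0) .nil) .nil))))))) (.nd (nat_lit 6) (.nd (nat_lit 7) (.nd (nat_lit 8) (.nd (nat_lit 9) 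
(.lf (nat_lit 538659) (.g (nat_lit 3242) (.e (nat_lit 73753) (nat_lit 8) (.e (nat_lit 557105) (nat_lit 14) (.e (nat_lit 180252) (nat_lit 10) (.e (nat_lit 573474) (nat_lit 12) (.e (nat_lit 57506) (nat_lit 39) (.e (nat_lit 647173) (nat_lit 0) (.e (nat_lit 2663) (nat_lit 167) (.e (nat_lit 196670) (nat_lit 14) .nil)))))))) (.g (nat_lit 1) (.e (nat_lit 266612) (nat_lit 0) .nil) .nil))) 
(.lf (nat_lit 539171) (.g (nat_lit 1612) (.e (nat_lit 73781) (nat_lit 32) (.e (nat_lit 2856) (nat_lit 184) (.e (nat_lit 426540) (nat_lit 29) (.e (nat_lit 352316) (nat_lit 24) .nil)))) (.g (nat_lit 0) (.e (nat_lit 267986) (nat_lit 0) .nil) .nil)))) (.nd (nat_lit 9) 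
(.lf (nat_lit 538915) (.g (nat_lit 2187) (.e (nat_lit 73755) (nat_lit 8) (.e (nat_lit 557105) (nat_lit 14) (.e (nat_lit 180252) (nat_lit 10) (.e (nat_lit 573466) (nat_lit 10) .nil)))) (.g (nat_lit 0) (.e (nat_lit 267227) (nat_lit 0) .nil) .nil))) 
(.lf (nat_lit 539427) (.g (nat_lit 1378) (.e (nat_lit 81921) (nat_lit 0) (.e (nat_lit 3711) (nat_lit 227) (.e (nat_lit 778325) (nat_lit 6) (.e (nat_lit 81922) (nat_lit 0) (.e (nat_lit 3632) (nat_lit 227) (.e (nat_lit 778326) (nat_lit 6) .nil)))))) (.g (nat_lit 1) (.e (nat_lit 268448) (nat_lit 0) .nil) .nil))))) (.nd (nat_lit 8) (.nd (nat_lit 9) 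
(.lf (nat_lit 538787) (.g (nat_lit 2682) (.e (nat_lit 73754) (nat_lit 8) (.e (nat_lit 557105) (nat_lit 14) (.e (nat_lit 180252) (nat_lit 10) (.e (nat_lit 573505) (nat_lit 18) .nil)))) (.g (nat_lit 0) (.e (nat_lit 266771) (nat_lit 0) .nil) .nil))) 
(.lf (nat_lit 539299) (.g (nat_lit 2484) (.e (nat_lit 73782) (nat_lit 32) (.e (nat_lit 2856) (nat_lit 184) (.e (nat_lit 426540) (nat_lit 29) (.e (nat_lit 352262) (nat_lit 0) (.e (nat_lit 3630) (nat_lit 227) (.e (nat_lit 778323) (nat_lit 5) .nil)))))) (.g (nat_lit 1) (.e (nat_lit 268164) (nat_lit 0) .nil) .nil)))) (.nd (nat_lit 9) 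
(.lf (nat_lit 539043) (.g (nat_lit 4075) (.e (nat_lit 73775) (nat_lit 26) (.e (nat_lit 778465) (nat_lit 11) (.e (nat_lit 24623) (nat_lit 9) (.e (nat_lit 336412) (nat_lit 27) (.e (nat_lit 426011) (nat_lit 0) (.e (nat_lit 7591) (nat_lit 407) .nil)))))) (.g (nat_lit 1) (.e (nat_lit 267706) (nat_lit 0) .nil) .nil))) 
(.lf (nat_lit 539555) (.g (nat_lit 1468) (.e (nat_lit 81934) (nat_lit 20) (.e (nat_lit 1996) (nat_lit 137) (.e (nat_lit 663569) (nat_lit 6) (.e (nat_lit 81946) (nat_lit 20) (.e (nat_lit 2006) (nat_lit 138) (.e (nat_lit 671764) (nat_lit 6) .nil)))))) (.g (nat_lit 1) (.e (nat_lit 268948) (nat_lit 0) .nil) .nil)))))) (.nd (nat_lit 7) (.nd (nat_lit 8) (.nd (nat_lit 9) 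
(.lf (nat_lit 538723) (.g (nat_lit 690) (.e (nat_lit 73754) (nat_lit 8) (.e (nat_lit 557105) (nat_lit 14) (.e (nat_lit 188160) (nat_lit 3) .nil))) (.g (nat_lit 0) (.e (nat_lit 266701) (nat_lit 0) .nil) .nil))) 
(.lf (nat_lit 539235) (.g (nat_lit 2066) (.e (nat_lit 73781) (nat_lit 32) (.e (nat_lit 3090) (nat_lit 191) (.e (nat_lit 483383) (nat_lit 23) (.e (nat_lit 336332) (nat_lit 19) (.e (nat_lit 220928) (nat_lit 5) .nil))))) (.g (nat_lit 1) (.e (nat_lit 268051) (nat_lit 0) .nil) .nil)))) (.nd (nat_lit 9) 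
(.lf (nat_lit 538979) (.g (nat_lit 1547) (.e (nat_lit 73755) (nat_lit 8) (.e (nat_lit 557119) (nat_lit 18) (.e (nat_lit 2797) (nat_lit 180) (.e (nat_lit 303147) (nat_lit 15) .nil)))) (.g (nat_lit 0) (.e (nat_lit 267390) (nat_lit 0) .nil) .nil))) 
(.lf (nat_lit 539491) (.g (nat_lit 1107) (.e (nat_lit 81924) (nat_lit 0) (.e (nat_lit 3747) (nat_lit 228) (.e (nat_lit 786480) (nat_lit 29) (.e (nat_lit 352262) (nat_lit 0) .nil)))) (.g (nat_lit 0) (.e (nat_lit 268650) (nat_lit 0) .nil) .nil))))) (.nd (nat_lit 8) (.nd (nat_lit 9) 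
(.lf (nat_lit 538851) (.g (nat_lit 2327) (.e (nat_lit 73755) (nat_lit 8) (.e (nat_lit 557104) (nat_lit 14) (.e (nat_lit 180244) (nat_lit 5) (.e (nat_lit 532481) (nat_lit 0) (.e (nat_lit 2271) (nat_lit 149) .nil))))) (.g (nat_lit 0) (.e (nat_lit 266919) (nat_lit 0) .nil) .nil))) 
(.lf (nat_lit 539363) (.g (nat_lit 1533) (.e (nat_lit 73782) (nat_lit 32) (.e (nat_lit 3090) (nat_lit 191) (.e (nat_lit 483391) (nat_lit 23) (.e (nat_lit 336331) (nat_lit 19) (.e (nat_lit 220928) (nat_lit 5) .nil))))) (.g (nat_lit 1) (.e (nat_lit 268228) (nat_lit 0) .nil) .nil)))) (.nd (nat_lit 9) 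
(.lf (nat_lit 539107) (.g (nat_lit 2487) (.e (nat_lit 73775) (nat_lit 26) (.e (nat_lit 778466) (nat_lit 11) (.e (nat_lit 24638) (nat_lit 9) (.e (nat_lit 336387) (nat_lit 27) (.e (nat_lit 426009) (nat_lit 0) (.e (nat_lit 7593) (nat_lit 407) .nil)))))) (.g (nat_lit 1) (.e (nat_lit 267797) (nat_lit 0) .nil) .nil))) 
(.lf (nat_lit 539619) (.g (nat_lit 1981) (.e (nat_lit 81938) (nat_lit 20) (.e (nat_lit 2391) (nat_lit 156) (.e (nat_lit 819204) (nat_lit 0) (.e (nat_lit 3022) (nat_lit 187) (.e (nat_lit 458496) (nat_lit 8) (.e (nat_lit 564992) (nat_lit 6) .nil)))))) (.g (nat_lit 1) (.e (nat_lit 269054) (nat_lit 0) .nil) .nil)))))))) 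
(.nd (nat_lit 5) (.nd (nat_lit 6) (.nd (nat_lit 7) (.nd (nat_lit 8) (.nd (nat_lit 9) 
(.lf (nat_lit 538643) (.g (nat_lit 2902) (.e (nat_lit 73753) (nat_lit 8) (.e (nat_lit 557105) (nat_lit 14) (.e (nat_lit 180252) (nat_lit 10) (.e (nat_lit 573451) (nat_lit 9) (.e (nat_lit 1175) (nat_lit 87) .nil))))) (.g (nat_lit 0) (.e (nat_lit 266594) (nat_lit 0) .nil) .nil))) 
(.lf (nat_lit 539155) (.g (nat_lit 1075) (.e (nat_lit 73781) (nat_lit 32) (.e (nat_lit 2681) (nat_lit 168) (.e (nat_lit 204855) (nat_lit 26) (.e (nat_lit 336226) (nat_lit 14) .nil)))) (.g (nat_lit 0) (.e (nat_lit 267961) (nat_lit 0) .nil) .nil)))) (.nd (nat_lit 9) 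
(.lf (nat_lit 538899) (.g (nat_lit 3384) (.e (nat_lit 73755) (nat_lit 8) (.e (nat_lit 557105) (nat_lit 14) (.e (nat_lit 180250) (nat_lit 10) (.e (nat_lit 573475) (nat_lit 12) (.e (nat_lit 57503) (nat_lit 38) (.e (nat_lit 638996) (nat_lit 7) (.e (nat_lit 163977) (nat_lit 30) (.e (nat_lit 573489) (nat_lit 14) .nil)))))))) (.g (nat_lit 1) (.e (nat_lit 267136) (nat_lit 0) .nil) .nil))) 
(.lf (nat_lit 539411) (.g (nat_lit 766) (.e (nat_lit 73789) (nat_lit 45) (.e (nat_lit 1162) (nat_lit 86) (.e (nat_lit 49157) (nat_lit 0) (.e (nat_lit 2984) (nat_lit 186) (.e (nat_lit 450304) (nat_lit 2) (.e (nat_lit 98048) (nat_lit 5) .nil)))))) (.g (nat_lit 1) (.e (nat_lit 268423) (nat_lit 0) .nil) .nil))))) (.nd (nat_lit 8) (.nd (nat_lit 9) 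
(.lf (nat_lit 538771) (.g (nat_lit 2876) (.e (nat_lit 73754) (nat_lit 8) (.e (nat_lit 557105) (nat_lit 14) (.e (nat_lit 180252) (nat_lit 10) (.e (nat_lit 573475) (nat_lit 12) (.e (nat_lit 57507) (nat_lit 39) (.e (nat_lit 655104) (nat_lit 0) (.e (nat_lit 2657) (nat_lit 167) (.e (nat_lit 196667) (nat_lit 14) .nil)))))))) (.g (nat_lit 1) (.e (nat_lit 266755) (nat_lit 0) .nil) .nil))) 
(.lf (nat_lit 539283) (.g (nat_lit 3914) (.e (nat_lit 73782) (nat_lit 32) (.e (nat_lit 2664) (nat_lit 167) (.e (nat_lit 196666) (nat_lit 13) (.e (nat_lit 65624) (nat_lit 12) (.e (nat_lit 385074) (nat_lit 31) (.e (nat_lit 573489) (nat_lit 14) .nil)))))) (.g (nat_lit 1) (.e (nat_lit 268128) (nat_lit 0) .nil) .nil)))) (.nd (nat_lit 9) 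
(.lf (nat_lit 539027) (.g (nat_lit 1920) (.e (nat_lit 73775) (nat_lit 26) (.e (nat_lit 778464) (nat_lit 11) (.e (nat_lit 24623) (nat_lit 9) (.e (nat_lit 336412) (nat_lit 27) (.e (nat_lit 426011) (nat_lit 0) (.e (nat_lit 7591) (nat_lit 407) .nil)))))) (.g (nat_lit 1) (.e (nat_lit 267684) (nat_lit 0) .nil) .nil))) 
(.lf (nat_lit 539539) (.g (nat_lit 1751) (.e (nat_lit 81927) (nat_lit 11) (.e (nat_lit 426500) (nat_lit 27) (.e (nat_lit 335995) (nat_lit 1) (.e (nat_lit 57931) (nat_lit 282) (.e (nat_lit 163865) (nat_lit 2) (.e (nat_lit 196672) (nat_lit 15) .nil)))))) (.g (nat_lit 1) (.e (nat_lit 268874) (nat_lit 0) .nil) .nil)))))) (.nd (nat_lit 7) (.nd (nat_lit 8) (.nd (nat_lit 9) 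
(.lf (nat_lit 538707) (.g (nat_lit 2132) (.e (nat_lit 73753) (nat_lit 8) (.e (nat_lit 557119) (nat_lit 18) (.e (nat_lit 2798) (nat_lit 180) (.e (nat_lit 303145) (nat_lit 13) (.e (nat_lit 491264) (nat_lit 0) .nil))))) (.g (nat_lit 0) (.e (nat_lit 266667) (nat_lit 0) .nil) .nil))) 
(.lf (nat_lit 539219) (.g (nat_lit 1720) (.e (nat_lit 73781) (nat_lit 32) (.e (nat_lit 3090) (nat_lit 191) (.e (nat_lit 483379) (nat_lit 23) (.e (nat_lit 336330) (nat_lit 19) (.e (nat_lit 220928) (nat_lit 5) .nil))))) (.g (nat_lit 1) (.e (nat_lit 268035) (nat_lit 0) .nil) .nil)))) (.nd (nat_lit 9) 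
(.lf (nat_lit 538963) (.g (nat_lit 3638) (.e (nat_lit 73755) (nat_lit 8) (.e (nat_lit 557105) (nat_lit 14) (.e (nat_lit 180252) (nat_lit 10) (.e (nat_lit 573475) (nat_lit 12) (.e (nat_lit 57504) (nat_lit 38) (.e (nat_lit 646912) (nat_lit 7) (.e (nat_lit 163978) (nat_lit 30) (.e (nat_lit 573489) (nat_lit 14) .nil)))))))) (.g (nat_lit 1) (.e (nat_lit 267366) (nat_lit 0) .nil) .nil))) 
(.lf (nat_lit 539475) (.g (nat_lit 492) (.e (nat_lit 81924) (nat_lit 0) (.e (nat_lit 3629) (nat_lit 227) (.e (nat_lit 778326) (nat_lit 6) (.e (nat_lit 81921) (nat_lit 0) (.e (nat_lit 3716) (nat_lit 227) (.e (nat_lit 778325) (nat_lit 6) .nil)))))) (.g (nat_lit 1) (.e (nat_lit 268626) (nat_lit 0) .nil) .nil))))) (.nd (nat_lit 8) (.nd (nat_lit 9) 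
(.lf (nat_lit 538835) (.g (nat_lit 2691) (.e (nat_lit 73755) (nat_lit 8) (.e (nat_lit 557103) (nat_lit 14) (.e (nat_lit 180243) (nat_lit 5) (.e (nat_lit 532481) (nat_lit 0) (.e (nat_lit 2271) (nat_lit 149) .nil))))) (.g (nat_lit 0) (.e (nat_lit 266872) (nat_lit 0) .nil) .nil))) 
(.lf (nat_lit 539347) (.g (nat_lit 2069) (.e (nat_lit 73782) (nat_lit 32) (.e (nat_lit 3089) (nat_lit 191) (.e (nat_lit 483383) (nat_lit 23) (.e (nat_lit 336332) (nat_lit 19) (.e (nat_lit 220928) (nat_lit 5) .nil))))) (.g (nat_lit 1) (.e (nat_lit 268212) (nat_lit 0) .nil) .nil)))) (.nd (nat_lit 9) 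
(.lf (nat_lit 539091) (.g (nat_lit 2015) (.e (nat_lit 73775) (nat_lit 26) (.e (nat_lit 778466) (nat_lit 11) (.e (nat_lit 24628) (nat_lit 9) (.e (nat_lit 336438) (nat_lit 31) (.e (nat_lit 466688) (nat_lit 5) .nil))))) (.g (nat_lit 1) (.e (nat_lit 267776) (nat_lit 0) .nil) .nil))) 
(.lf (nat_lit 539603) (.g (nat_lit 1187) (.e (nat_lit 81938) (nat_lit 20) (.e (nat_lit 2390) (nat_lit 156) (.e (nat_lit 819221) (nat_lit 6) (.e (nat_lit 188431) (nat_lit 20) (.e (nat_lit 3282) (nat_lit 200) (.e (nat_lit 564992) (nat_lit 6) .nil)))))) (.g (nat_lit 1) (.e (nat_lit 269037) (nat_lit 0) .nil) .nil))))))) (.nd (nat_lit 6) (.nd (nat_lit 7) (.nd (nat_lit 8) (.nd (nat_lit 9) 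
(.lf (nat_lit 538675) (.g (nat_lit 2822) (.e (nat_lit 73753) (nat_lit 8) (.e (nat_lit 557118) (nat_lit 18) (.e (nat_lit 2797) (nat_lit 180) (.e (nat_lit 303127) (nat_lit 9) (.e (nat_lit 426558) (nat_lit 33) (.e (nat_lit 392960) (nat_lit 5) .nil)))))) (.g (nat_lit 1) (.e (nat_lit 266633) (nat_lit 0) .nil) .nil))) 
(.lf (nat_lit 539187) (.g (nat_lit 1488) (.e (nat_lit 73781) (nat_lit 32) (.e (nat_lit 3087) (nat_lit 191) (.e (nat_lit 483385) (nat_lit 23) (.e (nat_lit 336332) (nat_lit 19) (.e (nat_lit 220928) (nat_lit 5) .nil))))) (.g (nat_lit 1) (.e (nat_lit 268003) (nat_lit 0) .nil) .nil)))) (.nd (nat_lit 9) 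
(.lf (nat_lit 538931) (.g (nat_lit 4902) (.e (nat_lit 73755) (nat_lit 8) (.e (nat_lit 557105) (nat_lit 14) (.e (nat_lit 180252) (nat_lit 10) (.e (nat_lit 573474) (nat_lit 12) (.e (nat_lit 57500) (nat_lit 37) (.e (nat_lit 630800) (nat_lit 7) (.e (nat_lit 163978) (nat_lit 30) (.e (nat_lit 573489) (nat_lit 14) .nil)))))))) (.g (nat_lit 1) (.e (nat_lit 267327) (nat_lit 0) .nil) .nil))) 
(.lf (nat_lit 539443) (.g (nat_lit 1808) (.e (nat_lit 81922) (nat_lit 0) (.e (nat_lit 3631) (nat_lit 227) (.e (nat_lit 778326) (nat_lit 6) (.e (nat_lit 81943) (nat_lit 20) (.e (nat_lit 2006) (nat_lit 138) (.e (nat_lit 671764) (nat_lit 6) .nil)))))) (.g (nat_lit 1) (.e (nat_lit 268509) (nat_lit 0) .nil) .nil))))) (.nd (nat_lit 8) (.nd (nat_lit 9) 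
(.lf (nat_lit 538803) (.g (nat_lit 2106) (.e (nat_lit 73755) (nat_lit 8) (.e (nat_lit 557086) (nat_lit 11) (.e (nat_lit 24627) (nat_lit 9) (.e (nat_lit 336019) (nat_lit 3) (.e (nat_lit 98319) (nat_lit 17) (.e (nat_lit 7593) (nat_lit 407) .nil)))))) (.g (nat_lit 1) (.e (nat_lit 266796) (nat_lit 0) .nil) .nil))) 
(.lf (nat_lit 539315) (.g (nat_lit 3209) (.e (nat_lit 73782) (nat_lit 32) (.e (nat_lit 2856) (nat_lit 184) (.e (nat_lit 426542) (nat_lit 29) (.e (nat_lit 352317) (nat_lit 24) (.e (nat_lit 123183) (nat_lit 264) (.e (nat_lit 1212) (nat_lit 89) .nil)))))) (.g (nat_lit 1) (.e (nat_lit 268180) (nat_lit 0) .nil) .nil)))) (.nd (nat_lit 9) 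
(.lf (nat_lit 539059) (.g (nat_lit 2141) (.e (nat_lit 73775) (nat_lit 26) (.e (nat_lit 778465) (nat_lit 11) (.e (nat_lit 24627) (nat_lit 9) (.e (nat_lit 336421) (nat_lit 28) (.e (nat_lit 442112) (nat_lit 5) .nil))))) (.g (nat_lit 1) (.e (nat_lit 267723) (nat_lit 0) .nil) .nil))) 
(.lf (nat_lit 539571) (.g (nat_lit 1112) (.e (nat_lit 81938) (nat_lit 20) (.e (nat_lit 1886) (nat_lit 127) (.e (nat_lit 581652) (nat_lit 5) (.e (nat_lit 180285) (nat_lit 45) (.e (nat_lit 2579) (nat_lit 161) (.e (nat_lit 48896) (nat_lit 6) .nil)))))) (.g (nat_lit 1) (.e (nat_lit 269002) (nat_lit 0) .nil) .nil)))))) (.nd (nat_lit 7) (.nd (nat_lit 8) (.nd (nat_lit 9) 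
(.lf (nat_lit 538739) (.g (nat_lit 2203) (.e (nat_lit 73754) (nat_lit 8) (.e (nat_lit 557105) (nat_lit 14) (.e (nat_lit 180252) (nat_lit 10) (.e (nat_lit 573468) (nat_lit 10) .nil)))) (.g (nat_lit 0) (.e (nat_lit 266722) (nat_lit 0) .nil) .nil))) 
(.lf (nat_lit 539251) (.g (nat_lit 2721) (.e (nat_lit 73781) (nat_lit 32) (.e (nat_lit 3090) (nat_lit 191) (.e (nat_lit 483395) (nat_lit 24) (.e (nat_lit 344097) (nat_lit 18) (.e (nat_lit 5905) (nat_lit 320) (.e (nat_lit 1211) (nat_lit 89) .nil)))))) (.g (nat_lit 1) (.e (nat_lit 268067) (nat_lit 0) .nil) .nil)))) (.nd (nat_lit 9) 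
(.lf (nat_lit 538995) (.g (nat_lit 1215) (.e (nat_lit 73755) (nat_lit 8) (.e (nat_lit 557119) (nat_lit 18) (.e (nat_lit 2798) (nat_lit 180) (.e (nat_lit 303145) (nat_lit 13) .nil)))) (.g (nat_lit 0) (.e (nat_lit 267408) (nat_lit 0) .nil) .nil))) 
(.lf (nat_lit 539507) (.g (nat_lit 864) (.e (nat_lit 89856) (nat_lit 0) (.e (nat_lit 3604) (nat_lit 225) (.e (nat_lit 761906) (nat_lit 16) (.e (nat_lit 172115) (nat_lit 10) .nil)))) (.g (nat_lit 0) (.e (nat_lit 268787) (nat_lit 0) .nil) .nil))))) (.nd (nat_lit 8) (.nd (nat_lit 9) 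
(.lf (nat_lit 538867) (.g (nat_lit 4037) (.e (nat_lit 73755) (nat_lit 8) (.e (nat_lit 557104) (nat_lit 14) (.e (nat_lit 180250) (nat_lit 10) (.e (nat_lit 573474) (nat_lit 12) (.e (nat_lit 57503) (nat_lit 38) (.e (nat_lit 638995) (nat_lit 7) (.e (nat_lit 163979) (nat_lit 30) (.e (nat_lit 573489) (nat_lit 14) .nil)))))))) (.g (nat_lit 1) (.e (nat_lit 267024) (nat_lit 0) .nil) .nil))) 
(.lf (nat_lit 539379) (.g (nat_lit 1356) (.e (nat_lit 81664) (nat_lit 32) (.e (nat_lit 2668) (nat_lit 167) (.e (nat_lit 196666) (nat_lit 13) (.e (nat_lit 65610) (nat_lit 10) .nil)))) (.g (nat_lit 0) (.e (nat_lit 268265) (nat_lit 0) .nil) .nil)))) (.nd (nat_lit 9) 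
(.lf (nat_lit 539123) (.g (nat_lit 1976) (.e (nat_lit 73776) (nat_lit 26) (.e (nat_lit 778465) (nat_lit 11) (.e (nat_lit 24626) (nat_lit 9) (.e (nat_lit 336438) (nat_lit 31) (.e (nat_lit 466688) (nat_lit 5) .nil))))) (.g (nat_lit 1) (.e (nat_lit 267817) (nat_lit 0) .nil) .nil))) 
(.lf (nat_lit 539635) (.g (nat_lit 482) (.e (nat_lit 81939) (nat_lit 20) (.e (nat_lit 1886) (nat_lit 127) (.e (nat_lit 581652) (nat_lit 5) (.e (nat_lit 180284) (nat_lit 45) (.e (nat_lit 2579) (nat_lit 161) (.e (nat_lit 48896) (nat_lit 6) .nil)))))) (.g (nat_lit 1) (.e (nat_lit 269077) (nat_lit 0) .nil) .nil))))))))) 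
(.nd (nat_lit 4) (.nd (nat_lit 5) (.nd (nat_lit 6) (.nd (nat_lit 7) (.nd (nat_lit 8) 
(.nd (nat_lit 9) 
(.lf (nat_lit 538635) (.g (nat_lit 2909) (.e (nat_lit 73753) (nat_lit 8) (.e (nat_lit 557105) (nat_lit 14) (.e (nat_lit 180251) (nat_lit 10) (.e (nat_lit 573475) (nat_lit 12) (.e (nat_lit 57504) (nat_lit 38) (.e (nat_lit 638995) (nat_lit 7) (.e (nat_lit 163978) (nat_lit 30) (.e (nat_lit 573487) (nat_lit 14) .nil)))))))) (.g (nat_lit 1) (.e (nat_lit 266582) (nat_lit 0) .nil) .nil))) 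
(.lf (nat_lit 539147) (.g (nat_lit 1157) (.e (nat_lit 73781) (nat_lit 32) (.e (nat_lit 2664) (nat_lit 167) (.e (nat_lit 196630) (nat_lit 9) (.e (nat_lit 202) (nat_lit 17) .nil)))) (.g (nat_lit 0) (.e (nat_lit 267943) (nat_lit 0) .nil) .nil)))) (.nd (nat_lit 9) 
(.lf (nat_lit 538891) (.g (nat_lit 3037) (.e (nat_lit 73755) (nat_lit 8) (.e (nat_lit 557104) (nat_lit 14) (.e (nat_lit 180252) (nat_lit 10) (.e (nat_lit 573475) (nat_lit 12) (.e (nat_lit 57503) (nat_lit 38) (.e (nat_lit 638994) (nat_lit 7) (.e (nat_lit 163976) (nat_lit 30) (.e (nat_lit 573488) (nat_lit 14) .nil)))))))) (.g (nat_lit 1) (.e (nat_lit 267053) (nat_lit 0) .nil) .nil))) 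
(.lf (nat_lit 539403) (.g (nat_lit 455) (.e (nat_lit 73788) (nat_lit 45) (.e (nat_lit 1162) (nat_lit 86) (.e (nat_lit 49156) (nat_lit 0) (.e (nat_lit 2984) (nat_lit 186) (.e (nat_lit 450304) (nat_lit 2) (.e (nat_lit 98048) (nat_lit 5) .nil)))))) (.g (nat_lit 1) (.e (nat_lit 268404) (nat_lit 0) .nil) .nil))))) (.nd (nat_lit 8) (.nd (nat_lit 9) 
(.lf (nat_lit 538763) (.g (nat_lit 3110) (.e (nat_lit 73754) (nat_lit 8) (.e (nat_lit 557105) (nat_lit 14) (.e (nat_lit 180252) (nat_lit 10) (.e (nat_lit 573475) (nat_lit 12) (.e (nat_lit 57503) (nat_lit 38) (.e (nat_lit 638994) (nat_lit 7) (.e (nat_lit 163976) (nat_lit 30) (.e (nat_lit 573488) (nat_lit 14) .nil)))))))) (.g (nat_lit 1) (.e (nat_lit 266747) (nat_lit 0) .nil) .nil))) 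
(.lf (nat_lit 539275) (.g (nat_lit 886) (.e (nat_lit 73781) (nat_lit 32) (.e (nat_lit 3090) (nat_lit 191) (.e (nat_lit 483404) (nat_lit 26) (.e (nat_lit 385092) (nat_lit 49) .nil)))) (.g (nat_lit 0) (.e (nat_lit 268091) (nat_lit 0) .nil) .nil)))) (.nd (nat_lit 9) 
(.lf (nat_lit 539019) (.g (nat_lit 2246) (.e (nat_lit 73773) (nat_lit 25) (.e (nat_lit 770072) (nat_lit 8) (.e (nat_lit 65626) (nat_lit 13) (.e (nat_lit 393233) (nat_lit 17) (.e (nat_lit 7593) (nat_lit 407) .nil))))) (.g (nat_lit 1) (.e (nat_lit 267655) (nat_lit 0) .nil) .nil))) 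
(.lf (nat_lit 539531) (.g (nat_lit 595) (.e (nat_lit 81927) (nat_lit 11) (.e (nat_lit 426107) (nat_lit 1) (.e (nat_lit 164179) (nat_lit 154) .nil))) (.g (nat_lit 0) (.e (nat_lit 268860) (nat_lit 0) .nil) .nil)))))) (.nd (nat_lit 7) (.nd (nat_lit 8) (.nd (nat_lit 9) 
(.lf (nat_lit 538699) (.g (nat_lit 1033) (.e (nat_lit 73753) (nat_lit 8) (.e (nat_lit 557119) (nat_lit 18) (.e (nat_lit 2798) (nat_lit 180) (.e (nat_lit 303145) (nat_lit 13) .nil)))) (.g (nat_lit 0) (.e (nat_lit 266659) (nat_lit 0) .nil) .nil))) 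
(.lf (nat_lit 539211) (.g (nat_lit 2016) (.e (nat_lit 73781) (nat_lit 32) (.e (nat_lit 3089) (nat_lit 191) (.e (nat_lit 483402) (nat_lit 26) (.e (nat_lit 385094) (nat_lit 49) (.e (nat_lit 778324) (nat_lit 5) .nil))))) (.g (nat_lit 1) (.e (nat_lit 268027) (nat_lit 0) .nil) .nil)))) (.nd (nat_lit 9) 
(.lf (nat_lit 538955) (.g (nat_lit 2880) (.e (nat_lit 73755) (nat_lit 8) (.e (nat_lit 557105) (nat_lit 14) (.e (nat_lit 180252) (nat_lit 10) (.e (nat_lit 573474) (nat_lit 12) (.e (nat_lit 57513) (nat_lit 40) (.e (nat_lit 655362) (nat_lit 0) (.e (nat_lit 2662) (nat_lit 167) (.e (nat_lit 196669) (nat_lit 14) .nil)))))))) (.g (nat_lit 1) (.e (nat_lit 267354) (nat_lit 0) .nil) .nil))) 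
(.lf (nat_lit 539467) (.g (nat_lit 294) (.e (nat_lit 81924) (nat_lit 0) (.e (nat_lit 3305) (nat_lit 202) (.e (nat_lit 573456) (nat_lit 9) .nil))) (.g (nat_lit 0) (.e (nat_lit 268603) (nat_lit 0) .nil) .nil))))) (.nd (nat_lit 8) (.nd (nat_lit 9) 
(.lf (nat_lit 538827) (.g (nat_lit 520) (.e (nat_lit 73755) (nat_lit 8) (.e (nat_lit 557098) (nat_lit 13) (.e (nat_lit 172062) (nat_lit 2) .nil))) (.g (nat_lit 0) (.e (nat_lit 266855) (nat_lit 0) .nil) .nil))) 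
(.lf (nat_lit 539339) (.g (nat_lit 1420) (.e (nat_lit 73782) (nat_lit 32) (.e (nat_lit 3088) (nat_lit 191) (.e (nat_lit 483391) (nat_lit 23) (.e (nat_lit 336331) (nat_lit 19) (.e (nat_lit 220928) (nat_lit 5) .nil))))) (.g (nat_lit 1) (.e (nat_lit 268204) (nat_lit 0) .nil) .nil)))) (.nd (nat_lit 9) 
(.lf (nat_lit 539083) (.g (nat_lit 884) (.e (nat_lit 73775) (nat_lit 26) (.e (nat_lit 778466) (nat_lit 11) (.e (nat_lit 24626) (nat_lit 9) (.e (nat_lit 336377) (nat_lit 27) .nil)))) (.g (nat_lit 0) (.e (nat_lit 267766) (nat_lit 0) .nil) .nil))) 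
(.lf (nat_lit 539595) (.g (nat_lit 1837) (.e (nat_lit 81938) (nat_lit 20) (.e (nat_lit 2390) (nat_lit 156) (.e (nat_lit 819204) (nat_lit 0) (.e (nat_lit 3022) (nat_lit 187) (.e (nat_lit 450584) (nat_lit 9) (.e (nat_lit 573184) (nat_lit 6) .nil)))))) (.g (nat_lit 1) (.e (nat_lit 269029) (nat_lit 0) .nil) .nil))))))) (.nd (nat_lit 6) (.nd (nat_lit 7) (.nd (nat_lit 8) (.nd (nat_lit 9) 
(.lf (nat_lit 538667) (.g (nat_lit 2990) (.e (nat_lit 73753) (nat_lit 8) (.e (nat_lit 557105) (nat_lit 14) (.e (nat_lit 180252) (nat_lit 10) (.e (nat_lit 573475) (nat_lit 12) (.e (nat_lit 57502) (nat_lit 38) (.e (nat_lit 638996) (nat_lit 7) (.e (nat_lit 163978) (nat_lit 30) (.e (nat_lit 573487) (nat_lit 14) .nil)))))))) (.g (nat_lit 1) (.e (nat_lit 266625) (nat_lit 0) .nil) .nil))) 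
(.lf (nat_lit 539179) (.g (nat_lit 3268) (.e (nat_lit 73781) (nat_lit 32) (.e (nat_lit 2857) (nat_lit 184) (.e (nat_lit 426540) (nat_lit 29) (.e (nat_lit 352262) (nat_lit 0) (.e (nat_lit 3632) (nat_lit 227) (.e (nat_lit 778324) (nat_lit 5) .nil)))))) (.g (nat_lit 1) (.e (nat_lit 267994) (nat_lit 0) .nil) .nil)))) (.nd (nat_lit 9) 
(.lf (nat_lit 538923) (.g (nat_lit 780) (.e (nat_lit 73755) (nat_lit 8) (.e (nat_lit 557105) (nat_lit 14) (.e (nat_lit 180252) (nat_lit 10) (.e (nat_lit 573474) (nat_lit 12) .nil)))) (.g (nat_lit 0) (.e (nat_lit 267262) (nat_lit 0) .nil) .nil))) 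
(.lf (nat_lit 539435) (.g (nat_lit 2014) (.e (nat_lit 81922) (nat_lit 0) (.e (nat_lit 3304) (nat_lit 202) (.e (nat_lit 573484) (nat_lit 13) (.e (nat_lit 65624) (nat_lit 12) (.e (nat_lit 385074) (nat_lit 31) .nil))))) (.g (nat_lit 0) (.e (nat_lit 268465) (nat_lit 0) .nil) .nil))))) (.nd (nat_lit 8) (.nd (nat_lit 9) 
(.lf (nat_lit 538795) (.g (nat_lit 2563) (.e (nat_lit 73755) (nat_lit 8) (.e (nat_lit 557065) (nat_lit 9) (.e (nat_lit 3098) (nat_lit 192) (.e (nat_lit 491571) (nat_lit 13) (.e (nat_lit 393242) (nat_lit 17) (.e (nat_lit 3452) (nat_lit 216) (.e (nat_lit 688182) (nat_lit 17) .nil))))))) (.g (nat_lit 1) (.e (nat_lit 266780) (nat_lit 0) .nil) .nil))) 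
(.lf (nat_lit 539307) (.g (nat_lit 1710) (.e (nat_lit 73782) (nat_lit 32) (.e (nat_lit 2856) (nat_lit 184) (.e (nat_lit 426542) (nat_lit 29) (.e (nat_lit 352303) (nat_lit 20) .nil)))) (.g (nat_lit 0) (.e (nat_lit 268172) (nat_lit 0) .nil) .nil)))) (.nd (nat_lit 9) 
(.lf (nat_lit 539051) (.g (nat_lit 2332) (.e (nat_lit 73775) (nat_lit 26) (.e (nat_lit 778465) (nat_lit 11) (.e (nat_lit 24624) (nat_lit 9) (.e (nat_lit 336421) (nat_lit 28) (.e (nat_lit 442112) (nat_lit 5) .nil))))) (.g (nat_lit 1) (.e (nat_lit 267715) (nat_lit 0) .nil) .nil))) 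
(.lf (nat_lit 539563) (.g (nat_lit 2041) (.e (nat_lit 81938) (nat_lit 20) (.e (nat_lit 1799) (nat_lit 119) (.e (nat_lit 516139) (nat_lit 7) (.e (nat_lit 409649) (nat_lit 18) (.e (nat_lit 303117) (nat_lit 2) .nil))))) (.g (nat_lit 0) (.e (nat_lit 268980) (nat_lit 0) .nil) .nil)))))) (.nd (nat_lit 7) (.nd (nat_lit 8) (.nd (nat_lit 9) 
(.lf (nat_lit 538731) (.g (nat_lit 2441) (.e (nat_lit 73754) (nat_lit 8) (.e (nat_lit 557105) (nat_lit 14) (.e (nat_lit 180252) (nat_lit 10) (.e (nat_lit 573450) (nat_lit 9) .nil)))) (.g (nat_lit 0) (.e (nat_lit 266709) (nat_lit 0) .nil) .nil))) 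
(.lf (nat_lit 539243) (.g (nat_lit 3417) (.e (nat_lit 73781) (nat_lit 32) (.e (nat_lit 3090) (nat_lit 191) (.e (nat_lit 483393) (nat_lit 23) (.e (nat_lit 335986) (nat_lit 1) (.e (nat_lit 57873) (nat_lit 264) (.e (nat_lit 1209) (nat_lit 89) .nil)))))) (.g (nat_lit 1) (.e (nat_lit 268059) (nat_lit 0) .nil) .nil)))) (.nd (nat_lit 9) 
(.lf (nat_lit 538987) (.g (nat_lit 2638) (.e (nat_lit 73755) (nat_lit 8) (.e (nat_lit 557119) (nat_lit 18) (.e (nat_lit 2798) (nat_lit 180) (.e (nat_lit 303133) (nat_lit 9) (.e (nat_lit 426499) (nat_lit 27) (.e (nat_lit 336273) (nat_lit 15) (.e (nat_lit 7936) (nat_lit 407) .nil))))))) (.g (nat_lit 1) (.e (nat_lit 267400) (nat_lit 0) .nil) .nil))) 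
(.lf (nat_lit 539499) (.g (nat_lit 1149) (.e (nat_lit 81924) (nat_lit 0) (.e (nat_lit 3748) (nat_lit 228) (.e (nat_lit 786483) (nat_lit 30) (.e (nat_lit 368384) (nat_lit 0) .nil)))) (.g (nat_lit 0) (.e (nat_lit 268660) (nat_lit 0) .nil) .nil))))) (.nd (nat_lit 8) (.nd (nat_lit 9) 
(.lf (nat_lit 538859) (.g (nat_lit 2851) (.e (nat_lit 73755) (nat_lit 8) (.e (nat_lit 557104) (nat_lit 14) (.e (nat_lit 180244) (nat_lit 5) (.e (nat_lit 532499) (nat_lit 1) (.e (nat_lit 57664) (nat_lit 152) (.e (nat_lit 2606) (nat_lit 163) (.e (nat_lit 163979) (nat_lit 30) (.e (nat_lit 573489) (nat_lit 14) .nil)))))))) (.g (nat_lit 1) (.e (nat_lit 266943) (nat_lit 0) .nil) .nil))) 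
(.lf (nat_lit 539371) (.g (nat_lit 896) (.e (nat_lit 81664) (nat_lit 32) (.e (nat_lit 2661) (nat_lit 167) (.e (nat_lit 196666) (nat_lit 13) (.e (nat_lit 65622) (nat_lit 12) .nil)))) (.g (nat_lit 0) (.e (nat_lit 268240) (nat_lit 0) .nil) .nil)))) (.nd (nat_lit 9) 
(.lf (nat_lit 539115) (.g (nat_lit 1525) (.e (nat_lit 73775) (nat_lit 26) (.e (nat_lit 778466) (nat_lit 11) (.e (nat_lit 24656) (nat_lit 13) (.e (nat_lit 393248) (nat_lit 17) (.e (nat_lit 7936) (nat_lit 407) .nil))))) (.g (nat_lit 1) (.e (nat_lit 267805) (nat_lit 0) .nil) .nil))) 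
(.lf (nat_lit 539627) (.g (nat_lit 1479) (.e (nat_lit 81938) (nat_lit 20) (.e (nat_lit 2391) (nat_lit 156) (.e (nat_lit 819221) (nat_lit 6) (.e (nat_lit 188427) (nat_lit 20) (.e (nat_lit 3282) (nat_lit 200) (.e (nat_lit 564992) (nat_lit 6) .nil)))))) (.g (nat_lit 1) (.e (nat_lit 269063) (nat_lit 0) .nil) .nil)))))))) 
(.nd (nat_lit 5) (.nd (nat_lit 6) (.nd (nat_lit 7) (.nd (nat_lit 8) (.nd (nat_lit 9) 
(.lf (nat_lit 538651) (.g (nat_lit 2995) (.e (nat_lit 73753) (nat_lit 8) (.e (nat_lit 557105) (nat_lit 14) (.e (nat_lit 180252) (nat_lit 10) (.e (nat_lit 573474) (nat_lit 12) (.e (nat_lit 57501) (nat_lit 37) .nil))))) (.g (nat_lit 0) (.e (nat_lit 266604) (nat_lit 0) .nil) .nil))) 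
(.lf (nat_lit 539163) (.g (nat_lit 830) (.e (nat_lit 73781) (nat_lit 32) (.e (nat_lit 2854) (nat_lit 184) (.e (nat_lit 426542) (nat_lit 29) (.e (nat_lit 352317) (nat_lit 24) .nil)))) (.g (nat_lit 0) (.e (nat_lit 267978) (nat_lit 0) .nil) .nil)))) (.nd (nat_lit 9) 
(.lf (nat_lit 538907) (.g (nat_lit 2874) (.e (nat_lit 73755) (nat_lit 8) (.e (nat_lit 557105) (nat_lit 14) (.e (nat_lit 180251) (nat_lit 10) (.e (nat_lit 573475) (nat_lit 12) (.e (nat_lit 57504) (nat_lit 38) (.e (nat_lit 638995) (nat_lit 7) (.e (nat_lit 163978) (nat_lit 30) (.e (nat_lit 573489) (nat_lit 14) .nil)))))))) (.g (nat_lit 1) (.e (nat_lit 267145) (nat_lit 0) .nil) .nil))) 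
(.lf (nat_lit 539419) (.g (nat_lit 412) (.e (nat_lit 73791) (nat_lit 45) (.e (nat_lit 1163) (nat_lit 86) (.e (nat_lit 49156) (nat_lit 0) (.e (nat_lit 2984) (nat_lit 186) (.e (nat_lit 450304) (nat_lit 2) (.e (nat_lit 98048) (nat_lit 5) .nil)))))) (.g (nat_lit 1) (.e (nat_lit 268435) (nat_lit 0) .nil) .nil))))) (.nd (nat_lit 8) (.nd (nat_lit 9) 
(.lf (nat_lit 538779) (.g (nat_lit 2187) (.e (nat_lit 73754) (nat_lit 8) (.e (nat_lit 557105) (nat_lit 14) (.e (nat_lit 180252) (nat_lit 10) (.e (nat_lit 573475) (nat_lit 12) (.e (nat_lit 57508) (nat_lit 39) (.e (nat_lit 655104) (nat_lit 0) (.e (nat_lit 2667) (nat_lit 167) (.e (nat_lit 196669) (nat_lit 14) .nil)))))))) (.g (nat_lit 1) (.e (nat_lit 266763) (nat_lit 0) .nil) .nil))) 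
(.lf (nat_lit 539291) (.g (nat_lit 1261) (.e (nat_lit 73782) (nat_lit 32) (.e (nat_lit 2855) (nat_lit 184) (.e (nat_lit 426542) (nat_lit 29) (.e (nat_lit 352264) (nat_lit 0) (.e (nat_lit 3711) (nat_lit 227) (.e (nat_lit 786176) (nat_lit 5) .nil)))))) (.g (nat_lit 1) (.e (nat_lit 268156) (nat_lit 0) .nil) .nil)))) (.nd (nat_lit 9) 
(.lf (nat_lit 539035) (.g (nat_lit 1552) (.e (nat_lit 73775) (nat_lit 26) (.e (nat_lit 778465) (nat_lit 11) (.e (nat_lit 24623) (nat_lit 9) (.e (nat_lit 336379) (nat_lit 27) .nil)))) (.g (nat_lit 0) (.e (nat_lit 267698) (nat_lit 0) .nil) .nil))) 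
(.lf (nat_lit 539547) (.g (nat_lit 2407) (.e (nat_lit 81931) (nat_lit 20) (.e (nat_lit 1994) (nat_lit 137) (.e (nat_lit 663567) (nat_lit 4) (.e (nat_lit 65619) (nat_lit 10) (.e (nat_lit 344169) (nat_lit 40) (.e (nat_lit 671764) (nat_lit 6) .nil)))))) (.g (nat_lit 1) (.e (nat_lit 268921) (nat_lit 0) .nil) .nil)))))) (.nd (nat_lit 7) (.nd (nat_lit 8) (.nd (nat_lit 9) 
(.lf (nat_lit 538715) (.g (nat_lit 1175) (.e (nat_lit 73754) (nat_lit 8) (.e (nat_lit 557099) (nat_lit 13) (.e (nat_lit 172067) (nat_lit 3) (.e (nat_lit 204830) (nat_lit 18) .nil)))) (.g (nat_lit 0) (.e (nat_lit 266682) (nat_lit 0) .nil) .nil))) 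
(.lf (nat_lit 539227) (.g (nat_lit 1800) (.e (nat_lit 73781) (nat_lit 32) (.e (nat_lit 3090) (nat_lit 191) (.e (nat_lit 483380) (nat_lit 23) (.e (nat_lit 336285) (nat_lit 15) .nil)))) (.g (nat_lit 0) (.e (nat_lit 268043) (nat_lit 0) .nil) .nil)))) (.nd (nat_lit 9) 
(.lf (nat_lit 538971) (.g (nat_lit 2082) (.e (nat_lit 73755) (nat_lit 8) (.e (nat_lit 557105) (nat_lit 14) (.e (nat_lit 180252) (nat_lit 10) (.e (nat_lit 573505) (nat_lit 18) .nil)))) (.g (nat_lit 0) (.e (nat_lit 267380) (nat_lit 0) .nil) .nil))) 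
(.lf (nat_lit 539483) (.g (nat_lit 773) (.e (nat_lit 81924) (nat_lit 0) (.e (nat_lit 3631) (nat_lit 227) (.e (nat_lit 778327) (nat_lit 6) (.e (nat_lit 81934) (nat_lit 20) .nil)))) (.g (nat_lit 0) (.e (nat_lit 268635) (nat_lit 0) .nil) .nil))))) (.nd (nat_lit 8) (.nd (nat_lit 9) 
(.lf (nat_lit 538843) (.g (nat_lit 3832) (.e (nat_lit 73755) (nat_lit 8) (.e (nat_lit 557103) (nat_lit 14) (.e (nat_lit 180250) (nat_lit 10) (.e (nat_lit 573475) (nat_lit 12) (.e (nat_lit 57503) (nat_lit 38) (.e (nat_lit 638994) (nat_lit 7) (.e (nat_lit 163975) (nat_lit 30) (.e (nat_lit 573488) (nat_lit 14) .nil)))))))) (.g (nat_lit 1) (.e (nat_lit 266907) (nat_lit 0) .nil) .nil))) 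
(.lf (nat_lit 539355) (.g (nat_lit 1915) (.e (nat_lit 73782) (nat_lit 32) (.e (nat_lit 3090) (nat_lit 191) (.e (nat_lit 483380) (nat_lit 23) (.e (nat_lit 336327) (nat_lit 19) (.e (nat_lit 220928) (nat_lit 5) .nil))))) (.g (nat_lit 1) (.e (nat_lit 268220) (nat_lit 0) .nil) .nil)))) (.nd (nat_lit 9) 
(.lf (nat_lit 539099) (.g (nat_lit 1928) (.e (nat_lit 73775) (nat_lit 26) (.e (nat_lit 778466) (nat_lit 11) (.e (nat_lit 24632) (nat_lit 9) (.e (nat_lit 336388) (nat_lit 27) (.e (nat_lit 426077) (nat_lit 0) (.e (nat_lit 7936) (nat_lit 407) .nil)))))) (.g (nat_lit 1) (.e (nat_lit 267784) (nat_lit 0) .nil) .nil))) 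
(.lf (nat_lit 539611) (.g (nat_lit 1639) (.e (nat_lit 81938) (nat_lit 20) (.e (nat_lit 2391) (nat_lit 156) (.e (nat_lit 819204) (nat_lit 0) (.e (nat_lit 2988) (nat_lit 186) (.e (nat_lit 450304) (nat_lit 2) (.e (nat_lit 98048) (nat_lit 6) .nil)))))) (.g (nat_lit 1) (.e (nat_lit 269046) (nat_lit 0) .nil) .nil))))))) (.nd (nat_lit 6) (.nd (nat_lit 7) (.nd (nat_lit 8) (.nd (nat_lit 9) 
(.lf (nat_lit 538683) (.g (nat_lit 2907) (.e (nat_lit 73753) (nat_lit 8) (.e (nat_lit 557119) (nat_lit 18) (.e (nat_lit 2797) (nat_lit 180) (.e (nat_lit 303145) (nat_lit 13) (.e (nat_lit 483335) (nat_lit 0) (.e (nat_lit 7936) (nat_lit 407) .nil)))))) (.g (nat_lit 1) (.e (nat_lit 266641) (nat_lit 0) .nil) .nil))) 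
(.lf (nat_lit 539195) (.g (nat_lit 489) (.e (nat_lit 73781) (nat_lit 32) (.e (nat_lit 3088) (nat_lit 191) (.e (nat_lit 483396) (nat_lit 24) .nil))) (.g (nat_lit 0) (.e (nat_lit 268011) (nat_lit 0) .nil) .nil)))) (.nd (nat_lit 9) 
(.lf (nat_lit 538939) (.g (nat_lit 1913) (.e (nat_lit 73755) (nat_lit 8) (.e (nat_lit 557105) (nat_lit 14) (.e (nat_lit 180252) (nat_lit 10) (.e (nat_lit 573474) (nat_lit 12) (.e (nat_lit 57504) (nat_lit 38) .nil))))) (.g (nat_lit 0) (.e (nat_lit 267335) (nat_lit 0) .nil) .nil))) 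
(.lf (nat_lit 539451) (.g (nat_lit 1457) (.e (nat_lit 81922) (nat_lit 0) (.e (nat_lit 3747) (nat_lit 228) (.e (nat_lit 786473) (nat_lit 27) (.e (nat_lit 336119) (nat_lit 9) (.e (nat_lit 336331) (nat_lit 19) (.e (nat_lit 220928) (nat_lit 6) .nil)))))) (.g (nat_lit 1) (.e (nat_lit 268532) (nat_lit 0) .nil) .nil))))) (.nd (nat_lit 8) (.nd (nat_lit 9) 
(.lf (nat_lit 538811) (.g (nat_lit 2322) (.e (nat_lit 73755) (nat_lit 8) (.e (nat_lit 557087) (nat_lit 11) (.e (nat_lit 24646) (nat_lit 11) (.e (nat_lit 368676) (nat_lit 21) (.e (nat_lit 516098) (nat_lit 0) (.e (nat_lit 7593) (nat_lit 407) .nil)))))) (.g (nat_lit 1) (.e (nat_lit 266811) (nat_lit 0) .nil) .nil))) 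
(.lf (nat_lit 539323) (.g (nat_lit 2938) (.e (nat_lit 73782) (nat_lit 32) (.e (nat_lit 2856) (nat_lit 184) (.e (nat_lit 426555) (nat_lit 32) (.e (nat_lit 376857) (nat_lit 21) (.e (nat_lit 57873) (nat_lit 264) (.e (nat_lit 1210) (nat_lit 89) .nil)))))) (.g (nat_lit 1) (.e (nat_lit 268188) (nat_lit 0) .nil) .nil)))) (.nd (nat_lit 9) 
(.lf (nat_lit 539067) (.g (nat_lit 1585) (.e (nat_lit 73775) (nat_lit 26) (.e (nat_lit 778465) (nat_lit 11) (.e (nat_lit 24657) (nat_lit 13) (.e (nat_lit 393247) (nat_lit 17) .nil)))) (.g (nat_lit 0) (.e (nat_lit 267734) (nat_lit 0) .nil) .nil))) 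
(.lf (nat_lit 539579) (.g (nat_lit 2276) (.e (nat_lit 81938) (nat_lit 20) (.e (nat_lit 1855) (nat_lit 124) (.e (nat_lit 557070) (nat_lit 9) (.e (nat_lit 2744) (nat_lit 174) (.e (nat_lit 253992) (nat_lit 11) (.e (nat_lit 16411) (nat_lit 2) (.e (nat_lit 196673) (nat_lit 15) .nil))))))) (.g (nat_lit 1) (.e (nat_lit 269011) (nat_lit 0) .nil) .nil)))))) 
(.nd (nat_lit 7) (.nd (nat_lit 8) (.nd (nat_lit 9) 
(.lf (nat_lit 538747) (.g (nat_lit 3028) (.e (nat_lit 73754) (nat_lit 8) (.e (nat_lit 557105) (nat_lit 14) (.e (nat_lit 180252) (nat_lit 10) (.e (nat_lit 573473) (nat_lit 12) (.e (nat_lit 57507) (nat_lit 39) (.e (nat_lit 655104) (nat_lit 0) (.e (nat_lit 2667) (nat_lit 167) (.e (nat_lit 196667) (nat_lit 14) .nil)))))))) (.g (nat_lit 1) (.e (nat_lit 266730) (nat_lit 0) .nil) .nil))) 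
(.lf (nat_lit 539259) (.g (nat_lit 2652) (.e (nat_lit 73781) (nat_lit 32) (.e (nat_lit 3090) (nat_lit 191) (.e (nat_lit 483398) (nat_lit 25) (.e (nat_lit 368662) (nat_lit 18) (.e (nat_lit 5906) (nat_lit 320) (.e (nat_lit 1211) (nat_lit 89) .nil)))))) (.g (nat_lit 1) (.e (nat_lit 268075) (nat_lit 0) .nil) .nil)))) (.nd (nat_lit 9) 
(.lf (nat_lit 539003) (.g (nat_lit 2989) (.e (nat_lit 73755) (nat_lit 8) (.e (nat_lit 557119) (nat_lit 18) (.e (nat_lit 2798) (nat_lit 180) (.e (nat_lit 303147) (nat_lit 15) (.e (nat_lit 1788) (nat_lit 119) .nil))))) (.g (nat_lit 0) (.e (nat_lit 267428) (nat_lit 0) .nil) .nil))) 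
(.lf (nat_lit 539515) (.g (nat_lit 1611) (.e (nat_lit 89856) (nat_lit 0) (.e (nat_lit 3605) (nat_lit 225) (.e (nat_lit 761906) (nat_lit 16) (.e (nat_lit 172115) (nat_lit 10) (.e (nat_lit 434209) (nat_lit 18) .nil))))) (.g (nat_lit 0) (.e (nat_lit 268806) (nat_lit 0) .nil) .nil))))) (.nd (nat_lit 8) (.nd (nat_lit 9) 
(.lf (nat_lit 538875) (.g (nat_lit 2387) (.e (nat_lit 73755) (nat_lit 8) (.e (nat_lit 557104) (nat_lit 14) (.e (nat_lit 180251) (nat_lit 10) (.e (nat_lit 573473) (nat_lit 12) (.e (nat_lit 57503) (nat_lit 38) .nil))))) (.g (nat_lit 0) (.e (nat_lit 267032) (nat_lit 0) .nil) .nil))) 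
(.lf (nat_lit 539387) (.g (nat_lit 1775) (.e (nat_lit 81664) (nat_lit 32) (.e (nat_lit 2685) (nat_lit 168) (.e (nat_lit 204869) (nat_lit 29) (.e (nat_lit 360448) (nat_lit 0) .nil)))) (.g (nat_lit 0) (.e (nat_lit 268293) (nat_lit 0) .nil) .nil)))) (.nd (nat_lit 9) 
(.lf (nat_lit 539131) (.g (nat_lit 1996) (.e (nat_lit 73776) (nat_lit 26) (.e (nat_lit 778466) (nat_lit 11) (.e (nat_lit 24625) (nat_lit 9) (.e (nat_lit 336438) (nat_lit 31) (.e (nat_lit 466688) (nat_lit 5) .nil))))) (.g (nat_lit 1) (.e (nat_lit 267832) (nat_lit 0) .nil) .nil))) 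
(.lf (nat_lit 539643) (.g (nat_lit 1743) (.e (nat_lit 81939) (nat_lit 20) (.e (nat_lit 2281) (nat_lit 150) (.e (nat_lit 770072) (nat_lit 8) (.e (nat_lit 65610) (nat_lit 10) (.e (nat_lit 344090) (nat_lit 18) .nil))))) (.g (nat_lit 0) (.e (nat_lit 269087) (nat_lit 0) .nil) .nil)))))))))) 
(.nd (nat_lit 3) (.nd (nat_lit 4) (.nd (nat_lit 5) (.nd (nat_lit 6) (.nd (nat_lit 7) 
(.nd (nat_lit 8) (.nd (nat_lit 9) 
(.lf (nat_lit 538631) (.g (nat_lit 2725) (.e (nat_lit 73753) (nat_lit 8) (.e (nat_lit 557105) (nat_lit 14) (.e (nat_lit 180250) (nat_lit 10) (.e (nat_lit 573475) (nat_lit 12) (.e (nat_lit 57503) (nat_lit 38) .nil))))) (.g (nat_lit 0) (.e (nat_lit 266578) (nat_lit 0) .nil) .nil))) 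
(.lf (nat_lit 539143) (.g (nat_lit 1474) (.e (nat_lit 73781) (nat_lit 32) (.e (nat_lit 2663) (nat_lit 167) (.e (nat_lit 196666) (nat_lit 13) (.e (nat_lit 65617) (nat_lit 10) (.e (nat_lit 344091) (nat_lit 18) .nil))))) (.g (nat_lit 0) (.e (nat_lit 267924) (nat_lit 0) .nil) .nil)))) (.nd (nat_lit 9) 
(.lf (nat_lit 538887) (.g (nat_lit 3787) (.e (nat_lit 73755) (nat_lit 8) (.e (nat_lit 557104) (nat_lit 14) (.e (nat_lit 180252) (nat_lit 10) (.e (nat_lit 573474) (nat_lit 12) (.e (nat_lit 57504) (nat_lit 38) (.e (nat_lit 638995) (nat_lit 7) (.e (nat_lit 163979) (nat_lit 30) (.e (nat_lit 573489) (nat_lit 14) .nil)))))))) (.g (nat_lit 1) (.e (nat_lit 267049) (nat_lit 0) .nil) .nil))) 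
(.lf (nat_lit 539399) (.g (nat_lit 2785) (.e (nat_lit 73784) (nat_lit 40) (.e (nat_lit 1253) (nat_lit 92) (.e (nat_lit 98350) (nat_lit 24) (.e (nat_lit 409645) (nat_lit 18) (.e (nat_lit 303117) (nat_lit 2) .nil))))) (.g (nat_lit 0) (.e (nat_lit 268373) (nat_lit 0) .nil) .nil))))) (.nd (nat_lit 8) (.nd (nat_lit 9) 
(.lf (nat_lit 538759) (.g (nat_lit 4357) (.e (nat_lit 73754) (nat_lit 8) (.e (nat_lit 557105) (nat_lit 14) (.e (nat_lit 180252) (nat_lit 10) (.e (nat_lit 573474) (nat_lit 12) (.e (nat_lit 57510) (nat_lit 39) (.e (nat_lit 647173) (nat_lit 0) (.e (nat_lit 2663) (nat_lit 167) (.e (nat_lit 196670) (nat_lit 14) .nil)))))))) (.g (nat_lit 1) (.e (nat_lit 266742) (nat_lit 0) .nil) .nil))) 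
(.lf (nat_lit 539271) (.g (nat_lit 2381) (.e (nat_lit 73781) (nat_lit 32) (.e (nat_lit 3090) (nat_lit 191) (.e (nat_lit 483403) (nat_lit 26) (.e (nat_lit 385099) (nat_lit 49) .nil)))) (.g (nat_lit 0) (.e (nat_lit 268087) (nat_lit 0) .nil) .nil)))) (.nd (nat_lit 9) 
(.lf (nat_lit 539015) (.g (nat_lit 1764) (.e (nat_lit 73773) (nat_lit 25) (.e (nat_lit 770072) (nat_lit 8) (.e (nat_lit 65571) (nat_lit 3) (.e (nat_lit 98341) (nat_lit 20) .nil)))) (.g (nat_lit 0) (.e (nat_lit 267645) (nat_lit 0) .nil) .nil))) 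
(.lf (nat_lit 539527) (.g (nat_lit 1563) (.e (nat_lit 81926) (nat_lit 11) (.e (nat_lit 426100) (nat_lit 1) (.e (nat_lit 164183) (nat_lit 154) (.e (nat_lit 57411) (nat_lit 12) .nil)))) (.g (nat_lit 0) (.e (nat_lit 268848) (nat_lit 0) .nil) .nil)))))) (.nd (nat_lit 7) (.nd (nat_lit 8) (.nd (nat_lit 9) 
(.lf (nat_lit 538695) (.g (nat_lit 3701) (.e (nat_lit 73753) (nat_lit 8) (.e (nat_lit 557119) (nat_lit 18) (.e (nat_lit 2798) (nat_lit 180) (.e (nat_lit 303133) (nat_lit 9) (.e (nat_lit 426499) (nat_lit 27) (.e (nat_lit 336291) (nat_lit 15) (.e (nat_lit 7936) (nat_lit 407) .nil))))))) (.g (nat_lit 1) (.e (nat_lit 266655) (nat_lit 0) .nil) .nil))) 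
(.lf (nat_lit 539207) (.g (nat_lit 1361) (.e (nat_lit 73781) (nat_lit 32) (.e (nat_lit 3089) (nat_lit 191) (.e (nat_lit 483383) (nat_lit 23) (.e (nat_lit 336301) (nat_lit 15) .nil)))) (.g (nat_lit 0) (.e (nat_lit 268023) (nat_lit 0) .nil) .nil)))) (.nd (nat_lit 9) 
(.lf (nat_lit 538951) (.g (nat_lit 2255) (.e (nat_lit 73755) (nat_lit 8) (.e (nat_lit 557105) (nat_lit 14) (.e (nat_lit 180252) (nat_lit 10) (.e (nat_lit 573474) (nat_lit 12) (.e (nat_lit 57510) (nat_lit 39) .nil))))) (.g (nat_lit 0) (.e (nat_lit 267350) (nat_lit 0) .nil) .nil))) 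
(.lf (nat_lit 539463) (.g (nat_lit 1118) (.e (nat_lit 81922) (nat_lit 0) (.e (nat_lit 3748) (nat_lit 228) (.e (nat_lit 786483) (nat_lit 30) (.e (nat_lit 368384) (nat_lit 0) .nil)))) (.g (nat_lit 0) (.e (nat_lit 268549) (nat_lit 0) .nil) .nil))))) (.nd (nat_lit 8) (.nd (nat_lit 9) 
(.lf (nat_lit 538823) (.g (nat_lit 2384) (.e (nat_lit 73755) (nat_lit 8) (.e (nat_lit 557097) (nat_lit 13) (.e (nat_lit 172067) (nat_lit 3) (.e (nat_lit 204816) (nat_lit 17) (.e (nat_lit 7936) (nat_lit 149) .nil))))) (.g (nat_lit 0) (.e (nat_lit 266839) (nat_lit 0) .nil) .nil))) 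
(.lf (nat_lit 539335) (.g (nat_lit 1668) (.e (nat_lit 73782) (nat_lit 32) (.e (nat_lit 3087) (nat_lit 191) (.e (nat_lit 483385) (nat_lit 23) (.e (nat_lit 336332) (nat_lit 19) (.e (nat_lit 220928) (nat_lit 5) .nil))))) (.g (nat_lit 1) (.e (nat_lit 268200) (nat_lit 0) .nil) .nil)))) (.nd (nat_lit 9) 
(.lf (nat_lit 539079) (.g (nat_lit 1819) (.e (nat_lit 73775) (nat_lit 26) (.e (nat_lit 778466) (nat_lit 11) (.e (nat_lit 24624) (nat_lit 9) (.e (nat_lit 336438) (nat_lit 31) (.e (nat_lit 466688) (nat_lit 5) .nil))))) (.g (nat_lit 1) (.e (nat_lit 267762) (nat_lit 0) .nil) .nil))) 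
(.lf (nat_lit 539591) (.g (nat_lit 1287) (.e (nat_lit 81938) (nat_lit 20) (.e (nat_lit 2390) (nat_lit 156) (.e (nat_lit 819204) (nat_lit 0) (.e (nat_lit 3015) (nat_lit 187) (.e (nat_lit 458496) (nat_lit 0) .nil))))) (.g (nat_lit 0) (.e (nat_lit 269025) (nat_lit 0) .nil) .nil))))))) (.nd (nat_lit 6) (.nd (nat_lit 7) (.nd (nat_lit 8) (.nd (nat_lit 9) 
(.lf (nat_lit 538663) (.g (nat_lit 3680) (.e (nat_lit 73753) (nat_lit 8) (.e (nat_lit 557105) (nat_lit 14) (.e (nat_lit 180252) (nat_lit 10) (.e (nat_lit 573474) (nat_lit 12) (.e (nat_lit 57510) (nat_lit 39) (.e (nat_lit 647172) (nat_lit 0) (.e (nat_lit 2663) (nat_lit 167) (.e (nat_lit 196670) (nat_lit 14) .nil)))))))) (.g (nat_lit 1) (.e (nat_lit 266616) (nat_lit 0) .nil) .nil))) 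
(.lf (nat_lit 539175) (.g (nat_lit 4233) (.e (nat_lit 73781) (nat_lit 32) (.e (nat_lit 2857) (nat_lit 184) (.e (nat_lit 426482) (nat_lit 27) (.e (nat_lit 336193) (nat_lit 12) (.e (nat_lit 385093) (nat_lit 49) (.e (nat_lit 778323) (nat_lit 5) .nil)))))) (.g (nat_lit 1) (.e (nat_lit 267990) (nat_lit 0) .nil) .nil)))) (.nd (nat_lit 9) 
(.lf (nat_lit 538919) (.g (nat_lit 2709) (.e (nat_lit 73755) (nat_lit 8) (.e (nat_lit 557105) (nat_lit 14) (.e (nat_lit 180252) (nat_lit 10) (.e (nat_lit 573473) (nat_lit 12) (.e (nat_lit 57503) (nat_lit 38) (.e (nat_lit 638994) (nat_lit 7) (.e (nat_lit 163976) (nat_lit 30) (.e (nat_lit 573488) (nat_lit 14) .nil)))))))) (.g (nat_lit 1) (.e (nat_lit 267258) (nat_lit 0) .nil) .nil))) 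
(.lf (nat_lit 539431) (.g (nat_lit 653) (.e (nat_lit 81921) (nat_lit 0) (.e (nat_lit 3715) (nat_lit 227) (.e (nat_lit 778325) (nat_lit 6) (.e (nat_lit 81921) (nat_lit 0) (.e (nat_lit 3716) (nat_lit 227) (.e (nat_lit 778325) (nat_lit 6) .nil)))))) (.g (nat_lit 1) (.e (nat_lit 268452) (nat_lit 0) .nil) .nil))))) (.nd (nat_lit 8) (.nd (nat_lit 9) 
(.lf (nat_lit 538791) (.g (nat_lit 2073) (.e (nat_lit 73754) (nat_lit 8) (.e (nat_lit 557119) (nat_lit 18) (.e (nat_lit 2797) (nat_lit 180) (.e (nat_lit 303145) (nat_lit 13) (.e (nat_lit 483335) (nat_lit 0) (.e (nat_lit 7936) (nat_lit 407) .nil)))))) (.g (nat_lit 1) (.e (nat_lit 266775) (nat_lit 0) .nil) .nil))) 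
(.lf (nat_lit 539303) (.g (nat_lit 1281) (.e (nat_lit 73782) (nat_lit 32) (.e (nat_lit 2856) (nat_lit 184) (.e (nat_lit 426542) (nat_lit 29) (.e (nat_lit 352290) (nat_lit 20) (.e (nat_lit 1023) (nat_lit 81) .nil))))) (.g (nat_lit 0) (.e (nat_lit 268168) (nat_lit 0) .nil) .nil)))) (.nd (nat_lit 9) 
(.lf (nat_lit 539047) (.g (nat_lit 2177) (.e (nat_lit 73775) (nat_lit 26) (.e (nat_lit 778465) (nat_lit 11) (.e (nat_lit 24623) (nat_lit 9) (.e (nat_lit 336424) (nat_lit 28) (.e (nat_lit 442112) (nat_lit 5) .nil))))) (.g (nat_lit 1) (.e (nat_lit 267711) (nat_lit 0) .nil) .nil))) 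
(.lf (nat_lit 539559) (.g (nat_lit 1130) (.e (nat_lit 81938) (nat_lit 20) (.e (nat_lit 1781) (nat_lit 119) (.e (nat_lit 516138) (nat_lit 7) (.e (nat_lit 409646) (nat_lit 18) .nil)))) (.g (nat_lit 0) (.e (nat_lit 268973) (nat_lit 0) .nil) .nil)))))) (.nd (nat_lit 7) (.nd (nat_lit 8) (.nd (nat_lit 9) 
(.lf (nat_lit 538727) (.g (nat_lit 1700) (.e (nat_lit 73754) (nat_lit 8) (.e (nat_lit 557105) (nat_lit 14) (.e (nat_lit 180251) (nat_lit 10) (.e (nat_lit 573477) (nat_lit 12) (.e (nat_lit 57502) (nat_lit 38) .nil))))) (.g (nat_lit 0) (.e (nat_lit 266705) (nat_lit 0) .nil) .nil))) 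
(.lf (nat_lit 539239) (.g (nat_lit 3111) (.e (nat_lit 73781) (nat_lit 32) (.e (nat_lit 3090) (nat_lit 191) (.e (nat_lit 483391) (nat_lit 23) (.e (nat_lit 335998) (nat_lit 1) (.e (nat_lit 57873) (nat_lit 264) (.e (nat_lit 1209) (nat_lit 89) .nil)))))) (.g (nat_lit 1) (.e (nat_lit 268055) (nat_lit 0) .nil) .nil)))) (.nd (nat_lit 9) 
(.lf (nat_lit 538983) (.g (nat_lit 4429) (.e (nat_lit 73755) (nat_lit 8) (.e (nat_lit 557119) (nat_lit 18) (.e (nat_lit 2798) (nat_lit 180) (.e (nat_lit 303119) (nat_lit 3) (.e (nat_lit 204838) (nat_lit 20) (.e (nat_lit 114716) (nat_lit 22) (.e (nat_lit 98048) (nat_lit 5) .nil))))))) (.g (nat_lit 1) (.e (nat_lit 267395) (nat_lit 0) .nil) .nil))) 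
(.lf (nat_lit 539495) (.g (nat_lit 1141) (.e (nat_lit 81924) (nat_lit 0) (.e (nat_lit 3748) (nat_lit 228) (.e (nat_lit 786480) (nat_lit 29) (.e (nat_lit 352270) (nat_lit 8) (.e (nat_lit 270080) (nat_lit 6) .nil))))) (.g (nat_lit 1) (.e (nat_lit 268656) (nat_lit 0) .nil) .nil))))) (.nd (nat_lit 8) (.nd (nat_lit 9) 
(.lf (nat_lit 538855) (.g (nat_lit 1228) (.e (nat_lit 73755) (nat_lit 8) (.e (nat_lit 557104) (nat_lit 14) (.e (nat_lit 180244) (nat_lit 5) (.e (nat_lit 532499) (nat_lit 1) .nil)))) (.g (nat_lit 0) (.e (nat_lit 266923) (nat_lit 0) .nil) .nil))) 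
(.lf (nat_lit 539367) (.g (nat_lit 3103) (.e (nat_lit 73782) (nat_lit 32) (.e (nat_lit 3090) (nat_lit 191) (.e (nat_lit 483403) (nat_lit 26) (.e (nat_lit 385094) (nat_lit 49) (.e (nat_lit 778323) (nat_lit 5) .nil))))) (.g (nat_lit 1) (.e (nat_lit 268232) (nat_lit 0) .nil) .nil)))) (.nd (nat_lit 9) 
(.lf (nat_lit 539111) (.g (nat_lit 1808) (.e (nat_lit 73775) (nat_lit 26) (.e (nat_lit 778466) (nat_lit 11) (.e (nat_lit 24655) (nat_lit 13) (.e (nat_lit 393241) (nat_lit 17) (.e (nat_lit 7936) (nat_lit 407) .nil))))) (.g (nat_lit 1) (.e (nat_lit 267801) (nat_lit 0) .nil) .nil))) 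
(.lf (nat_lit 539623) (.g (nat_lit 447) (.e (nat_lit 81938) (nat_lit 20) (.e (nat_lit 2391) (nat_lit 156) (.e (nat_lit 819221) (nat_lit 6) .nil))) (.g (nat_lit 0) (.e (nat_lit 269059) (nat_lit 0) .nil) .nil)))))))) (.nd (nat_lit 5) (.nd (nat_lit 6) (.nd (nat_lit 7) (.nd (nat_lit 8) (.nd (nat_lit 9) 
(.lf (nat_lit 538647) (.g (nat_lit 1851) (.e (nat_lit 73753) (nat_lit 8) (.e (nat_lit 557105) (nat_lit 14) (.e (nat_lit 180252) (nat_lit 10) (.e (nat_lit 573474) (nat_lit 12) .nil)))) (.g (nat_lit 0) (.e (nat_lit 266599) (nat_lit 0) .nil) .nil))) 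
(.lf (nat_lit 539159) (.g (nat_lit 1197) (.e (nat_lit 73781) (nat_lit 32) (.e (nat_lit 2682) (nat_lit 168) (.e (nat_lit 204863) (nat_lit 27) (.e (nat_lit 352000) (nat_lit 0) .nil)))) (.g (nat_lit 0) (.e (nat_lit 267969) (nat_lit 0) .nil) .nil)))) (.nd (nat_lit 9) 
(.lf (nat_lit 538903) (.g (nat_lit 2386) (.e (nat_lit 73755) (nat_lit 8) (.e (nat_lit 557105) (nat_lit 14) (.e (nat_lit 180251) (nat_lit 10) (.e (nat_lit 573475) (nat_lit 12) (.e (nat_lit 57501) (nat_lit 37) .nil))))) (.g (nat_lit 0) (.e (nat_lit 267141) (nat_lit 0) .nil) .nil))) 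
(.lf (nat_lit 539415) (.g (nat_lit 957) (.e (nat_lit 73791) (nat_lit 45) (.e (nat_lit 1160) (nat_lit 86) (.e (nat_lit 49157) (nat_lit 0) (.e (nat_lit 3026) (nat_lit 187) (.e (nat_lit 458496) (nat_lit 9) (.e (nat_lit 565268) (nat_lit 5) .nil)))))) (.g (nat_lit 1) (.e (nat_lit 268428) (nat_lit 0) .nil) .nil))))) (.nd (nat_lit 8) (.nd (nat_lit 9) 
(.lf (nat_lit 538775) (.g (nat_lit 2547) (.e (nat_lit 73754) (nat_lit 8) (.e (nat_lit 557105) (nat_lit 14) (.e (nat_lit 180252) (nat_lit 10) (.e (nat_lit 573475) (nat_lit 12) (.e (nat_lit 57508) (nat_lit 39) (.e (nat_lit 647170) (nat_lit 0) (.e (nat_lit 2654) (nat_lit 167) (.e (nat_lit 196670) (nat_lit 14) .nil)))))))) (.g (nat_lit 1) (.e (nat_lit 266759) (nat_lit 0) .nil) .nil))) 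
(.lf (nat_lit 539287) (.g (nat_lit 4550) (.e (nat_lit 73782) (nat_lit 32) (.e (nat_lit 2682) (nat_lit 168) (.e (nat_lit 204846) (nat_lit 24) (.e (nat_lit 319490) (nat_lit 0) (.e (nat_lit 5664) (nat_lit 312) (.e (nat_lit 2661) (nat_lit 167) (.e (nat_lit 196668) (nat_lit 14) .nil))))))) (.g (nat_lit 1) (.e (nat_lit 268145) (nat_lit 0) .nil) .nil)))) (.nd (nat_lit 9) 
(.lf (nat_lit 539031) (.g (nat_lit 1813) (.e (nat_lit 73775) (nat_lit 26) (.e (nat_lit 778464) (nat_lit 11) (.e (nat_lit 24627) (nat_lit 9) (.e (nat_lit 336421) (nat_lit 28) (.e (nat_lit 442112) (nat_lit 5) .nil))))) (.g (nat_lit 1) (.e (nat_lit 267688) (nat_lit 0) .nil) .nil))) 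
(.lf (nat_lit 539543) (.g (nat_lit 2438) (.e (nat_lit 81928) (nat_lit 20) (.e (nat_lit 1803) (nat_lit 119) (.e (nat_lit 516179) (nat_lit 15) (.e (nat_lit 475199) (nat_lit 40) (.e (nat_lit 704589) (nat_lit 3) .nil))))) (.g (nat_lit 0) (.e (nat_lit 268909) (nat_lit 0) .nil) .nil)))))) (.nd (nat_lit 7) (.nd (nat_lit 8) (.nd (nat_lit 9) 
(.lf (nat_lit 538711) (.g (nat_lit 1438) (.e (nat_lit 73754) (nat_lit 8) (.e (nat_lit 557085) (nat_lit 11) (.e (nat_lit 24628) (nat_lit 9) (.e (nat_lit 336016) (nat_lit 2) .nil)))) (.g (nat_lit 0) (.e (nat_lit 266672) (nat_lit 0) .nil) .nil))) 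
(.lf (nat_lit 539223) (.g (nat_lit 1180) (.e (nat_lit 73781) (nat_lit 32) (.e (nat_lit 3090) (nat_lit 191) (.e (nat_lit 483380) (nat_lit 23) (.e (nat_lit 336240) (nat_lit 15) .nil)))) (.g (nat_lit 0) (.e (nat_lit 268039) (nat_lit 0) .nil) .nil)))) (.nd (nat_lit 9) 
(.lf (nat_lit 538967) (.g (nat_lit 2752) (.e (nat_lit 73755) (nat_lit 8) (.e (nat_lit 557105) (nat_lit 14) (.e (nat_lit 180252) (nat_lit 10) (.e (nat_lit 573477) (nat_lit 12) (.e (nat_lit 57502) (nat_lit 38) .nil))))) (.g (nat_lit 0) (.e (nat_lit 267370) (nat_lit 0) .nil) .nil))) 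
(.lf (nat_lit 539479) (.g (nat_lit 1697) (.e (nat_lit 81924) (nat_lit 0) (.e (nat_lit 3631) (nat_lit 227) (.e (nat_lit 778326) (nat_lit 6) (.e (nat_lit 81924) (nat_lit 0) (.e (nat_lit 3632) (nat_lit 227) (.e (nat_lit 778326) (nat_lit 6) .nil)))))) (.g (nat_lit 1) (.e (nat_lit 268631) (nat_lit 0) .nil) .nil))))) (.nd (nat_lit 8) (.nd (nat_lit 9) 
(.lf (nat_lit 538839) (.g (nat_lit 3316) (.e (nat_lit 73755) (nat_lit 8) (.e (nat_lit 557103) (nat_lit 14) (.e (nat_lit 180244) (nat_lit 5) (.e (nat_lit 532499) (nat_lit 1) (.e (nat_lit 65280) (nat_lit 168) (.e (nat_lit 163869) (nat_lit 2) (.e (nat_lit 196669) (nat_lit 14) .nil))))))) (.g (nat_lit 1) (.e (nat_lit 266893) (nat_lit 0) .nil) .nil))) 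
(.lf (nat_lit 539351) (.g (nat_lit 2210) (.e (nat_lit 73782) (nat_lit 32) (.e (nat_lit 3089) (nat_lit 191) (.e (nat_lit 483406) (nat_lit 26) (.e (nat_lit 385095) (nat_lit 49) (.e (nat_lit 786176) (nat_lit 5) .nil))))) (.g (nat_lit 1) (.e (nat_lit 268216) (nat_lit 0) .nil) .nil)))) (.nd (nat_lit 9) 
(.lf (nat_lit 539095) (.g (nat_lit 1796) (.e (nat_lit 73775) (nat_lit 26) (.e (nat_lit 778466) (nat_lit 11) (.e (nat_lit 24632) (nat_lit 9) (.e (nat_lit 336385) (nat_lit 27) (.e (nat_lit 426077) (nat_lit 0) (.e (nat_lit 7936) (nat_lit 407) .nil)))))) (.g (nat_lit 1) (.e (nat_lit 267780) (nat_lit 0) .nil) .nil))) 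
(.lf (nat_lit 539607) (.g (nat_lit 1578) (.e (nat_lit 81938) (nat_lit 20) (.e (nat_lit 2391) (nat_lit 156) (.e (nat_lit 819203) (nat_lit 0) (.e (nat_lit 3015) (nat_lit 187) (.e (nat_lit 458496) (nat_lit 8) (.e (nat_lit 564992) (nat_lit 6) .nil)))))) (.g (nat_lit 1) (.e (nat_lit 269042) (nat_lit 0) .nil) .nil))))))) (.nd (nat_lit 6) (.nd (nat_lit 7) (.nd (nat_lit 8) (.nd (nat_lit 9) 
(.lf (nat_lit 538679) (.g (nat_lit 2079) (.e (nat_lit 73753) (nat_lit 8) (.e (nat_lit 557119) (nat_lit 18) (.e (nat_lit 2797) (nat_lit 180) (.e (nat_lit 303145) (nat_lit 13) (.e (nat_lit 483331) (nat_lit 0) (.e (nat_lit 7936) (nat_lit 407) .nil)))))) (.g (nat_lit 1) (.e (nat_lit 266637) (nat_lit 0) .nil) .nil))) 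
(.lf (nat_lit 539191) (.g (nat_lit 1855) (.e (nat_lit 73781) (nat_lit 32) (.e (nat_lit 3088) (nat_lit 191) (.e (nat_lit 483382) (nat_lit 23) (.e (nat_lit 336332) (nat_lit 19) (.e (nat_lit 220928) (nat_lit 5) .nil))))) (.g (nat_lit 1) (.e (nat_lit 268007) (nat_lit 0) .nil) .nil)))) (.nd (nat_lit 9) 
(.lf (nat_lit 538935) (.g (nat_lit 2186) (.e (nat_lit 73755) (nat_lit 8) (.e (nat_lit 557105) (nat_lit 14) (.e (nat_lit 180252) (nat_lit 10) (.e (nat_lit 573474) (nat_lit 12) (.e (nat_lit 57502) (nat_lit 38) (.e (nat_lit 638986) (nat_lit 5) (.e (nat_lit 2472) (nat_lit 157) (.e (nat_lit 3307) (nat_lit 202) (.e (nat_lit 573489) (nat_lit 14) .nil))))))))) (.g (nat_lit 1) (.e (nat_lit 267331) (nat_lit 0) .nil) .nil))) 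
(.lf (nat_lit 539447) (.g (nat_lit 1792) (.e (nat_lit 81922) (nat_lit 0) (.e (nat_lit 3632) (nat_lit 227) (.e (nat_lit 778326) (nat_lit 6) (.e (nat_lit 81924) (nat_lit 0) (.e (nat_lit 3631) (nat_lit 227) (.e (nat_lit 778327) (nat_lit 6) .nil)))))) (.g (nat_lit 1) (.e (nat_lit 268514) (nat_lit 0) .nil) .nil))))) (.nd (nat_lit 8) (.nd (nat_lit 9) 
(.lf (nat_lit 538807) (.g (nat_lit 3558) (.e (nat_lit 73755) (nat_lit 8) (.e (nat_lit 557087) (nat_lit 11) (.e (nat_lit 24640) (nat_lit 10) (.e (nat_lit 344107) (nat_lit 19) (.e (nat_lit 499825) (nat_lit 5) (.e (nat_lit 2397) (nat_lit 157) (.e (nat_lit 7590) (nat_lit 407) .nil))))))) (.g (nat_lit 1) (.e (nat_lit 266804) (nat_lit 0) .nil) .nil))) 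
(.lf (nat_lit 539319) (.g (nat_lit 2448) (.e (nat_lit 73782) (nat_lit 32) (.e (nat_lit 2856) (nat_lit 184) (.e (nat_lit 426544) (nat_lit 30) (.e (nat_lit 360452) (nat_lit 0) (.e (nat_lit 5907) (nat_lit 320) (.e (nat_lit 1209) (nat_lit 89) .nil)))))) (.g (nat_lit 1) (.e (nat_lit 268184) (nat_lit 0) .nil) .nil)))) (.nd (nat_lit 9) 
(.lf (nat_lit 539063) (.g (nat_lit 3513) (.e (nat_lit 73775) (nat_lit 26) (.e (nat_lit 778465) (nat_lit 11) (.e (nat_lit 24631) (nat_lit 9) (.e (nat_lit 336412) (nat_lit 27) (.e (nat_lit 426011) (nat_lit 0) (.e (nat_lit 7591) (nat_lit 407) .nil)))))) (.g (nat_lit 1) (.e (nat_lit 267728) (nat_lit 0) .nil) .nil))) 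
(.lf (nat_lit 539575) (.g (nat_lit 885) (.e (nat_lit 81938) (nat_lit 20) (.e (nat_lit 1886) (nat_lit 127) (.e (nat_lit 581652) (nat_lit 5) (.e (nat_lit 180287) (nat_lit 45) (.e (nat_lit 2580) (nat_lit 161) (.e (nat_lit 48896) (nat_lit 6) .nil)))))) (.g (nat_lit 1) (.e (nat_lit 269006) (nat_lit 0) .nil) .nil)))))) (.nd (nat_lit 7) (.nd (nat_lit 8) (.nd (nat_lit 9) 
(.lf (nat_lit 538743) (.g (nat_lit 3413) (.e (nat_lit 73754) (nat_lit 8) (.e (nat_lit 557105) (nat_lit 14) (.e (nat_lit 180252) (nat_lit 10) (.e (nat_lit 573473) (nat_lit 12) (.e (nat_lit 57507) (nat_lit 39) (.e (nat_lit 647176) (nat_lit 0) (.e (nat_lit 2663) (nat_lit 167) (.e (nat_lit 196667) (nat_lit 14) .nil)))))))) (.g (nat_lit 1) (.e (nat_lit 266726) (nat_lit 0) .nil) .nil))) 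
(.lf (nat_lit 539255) (.g (nat_lit 2099) (.e (nat_lit 73781) (nat_lit 32) (.e (nat_lit 3090) (nat_lit 191) (.e (nat_lit 483396) (nat_lit 24) (.e (nat_lit 344097) (nat_lit 18) (.e (nat_lit 5906) (nat_lit 320) (.e (nat_lit 1211) (nat_lit 89) .nil)))))) (.g (nat_lit 1) (.e (nat_lit 268071) (nat_lit 0) .nil) .nil)))) (.nd (nat_lit 9) 
(.lf (nat_lit 538999) (.g (nat_lit 2770) (.e (nat_lit 73755) (nat_lit 8) (.e (nat_lit 557119) (nat_lit 18) (.e (nat_lit 2798) (nat_lit 180) (.e (nat_lit 303145) (nat_lit 13) (.e (nat_lit 483334) (nat_lit 0) .nil))))) (.g (nat_lit 0) (.e (nat_lit 267412) (nat_lit 0) .nil) .nil))) 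
(.lf (nat_lit 539511) (.g (nat_lit 443) (.e (nat_lit 89856) (nat_lit 0) (.e (nat_lit 3605) (nat_lit 225) (.e (nat_lit 761903) (nat_lit 16) .nil))) (.g (nat_lit 0) (.e (nat_lit 268796) (nat_lit 0) .nil) .nil))))) (.nd (nat_lit 8) (.nd (nat_lit 9) 
(.lf (nat_lit 538871) (.g (nat_lit 2954) (.e (nat_lit 73755) (nat_lit 8) (.e (nat_lit 557104) (nat_lit 14) (.e (nat_lit 180250) (nat_lit 10) (.e (nat_lit 573475) (nat_lit 12) (.e (nat_lit 57503) (nat_lit 38) (.e (nat_lit 638994) (nat_lit 7) (.e (nat_lit 163975) (nat_lit 30) (.e (nat_lit 573488) (nat_lit 14) .nil)))))))) (.g (nat_lit 1) (.e (nat_lit 267028) (nat_lit 0) .nil) .nil))) 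
(.lf (nat_lit 539383) (.g (nat_lit 557) (.e (nat_lit 81664) (nat_lit 32) (.e (nat_lit 2668) (nat_lit 167) (.e (nat_lit 196668) (nat_lit 14) .nil))) (.g (nat_lit 0) (.e (nat_lit 268273) (nat_lit 0) .nil) .nil)))) (.nd (nat_lit 9) 
(.lf (nat_lit 539127) (.g (nat_lit 2476) (.e (nat_lit 73776) (nat_lit 26) (.e (nat_lit 778465) (nat_lit 11) (.e (nat_lit 24636) (nat_lit 9) (.e (nat_lit 336390) (nat_lit 27) (.e (nat_lit 426011) (nat_lit 0) (.e (nat_lit 7591) (nat_lit 407) .nil)))))) (.g (nat_lit 1) (.e (nat_lit 267821) (nat_lit 0) .nil) .nil))) 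
(.lf (nat_lit 539639) (.g (nat_lit 507) (.e (nat_lit 81939) (nat_lit 20) (.e (nat_lit 1886) (nat_lit 127) (.e (nat_lit 581652) (nat_lit 5) (.e (nat_lit 180287) (nat_lit 45) (.e (nat_lit 2579) (nat_lit 161) (.e (nat_lit 48896) (nat_lit 6) .nil)))))) (.g (nat_lit 1) (.e (nat_lit 269081) (nat_lit 0) .nil) .nil))))))))) 
(.nd (nat_lit 4) (.nd (nat_lit 5) (.nd (nat_lit 6) (.nd (nat_lit 7) (.nd (nat_lit 8) 
(.nd (nat_lit 9) 
(.lf (nat_lit 538639) (.g (nat_lit 1594) (.e (nat_lit 73753) (nat_lit 8) (.e (nat_lit 557105) (nat_lit 14) (.e (nat_lit 180252) (nat_lit 10) (.e (nat_lit 573451) (nat_lit 9) .nil)))) (.g (nat_lit 0) (.e (nat_lit 266587) (nat_lit 0) .nil) .nil))) 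
(.lf (nat_lit 539151) (.g (nat_lit 3639) (.e (nat_lit 73781) (nat_lit 32) (.e (nat_lit 2664) (nat_lit 167) (.e (nat_lit 196666) (nat_lit 13) (.e (nat_lit 65628) (nat_lit 14) (.e (nat_lit 401425) (nat_lit 2) (.e (nat_lit 196670) (nat_lit 14) .nil)))))) (.g (nat_lit 1) (.e (nat_lit 267950) (nat_lit 0) .nil) .nil)))) (.nd (nat_lit 9) 
(.lf (nat_lit 538895) (.g (nat_lit 4144) (.e (nat_lit 73755) (nat_lit 8) (.e (nat_lit 557105) (nat_lit 14) (.e (nat_lit 180244) (nat_lit 5) (.e (nat_lit 532499) (nat_lit 1) (.e (nat_lit 57659) (nat_lit 152) (.e (nat_lit 2612) (nat_lit 163) (.e (nat_lit 163978) (nat_lit 30) (.e (nat_lit 573489) (nat_lit 14) .nil)))))))) (.g (nat_lit 1) (.e (nat_lit 267073) (nat_lit 0) .nil) .nil))) 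
(.lf (nat_lit 539407) (.g (nat_lit 1483) (.e (nat_lit 73788) (nat_lit 45) (.e (nat_lit 1163) (nat_lit 86) (.e (nat_lit 49156) (nat_lit 0) (.e (nat_lit 3026) (nat_lit 187) (.e (nat_lit 450584) (nat_lit 9) (.e (nat_lit 565268) (nat_lit 5) .nil)))))) (.g (nat_lit 1) (.e (nat_lit 268411) (nat_lit 0) .nil) .nil))))) (.nd (nat_lit 8) (.nd (nat_lit 9) 
(.lf (nat_lit 538767) (.g (nat_lit 2375) (.e (nat_lit 73754) (nat_lit 8) (.e (nat_lit 557105) (nat_lit 14) (.e (nat_lit 180252) (nat_lit 10) (.e (nat_lit 573475) (nat_lit 12) (.e (nat_lit 57506) (nat_lit 39) (.e (nat_lit 655104) (nat_lit 0) (.e (nat_lit 2667) (nat_lit 167) (.e (nat_lit 196669) (nat_lit 14) .nil)))))))) (.g (nat_lit 1) (.e (nat_lit 266751) (nat_lit 0) .nil) .nil))) 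
(.lf (nat_lit 539279) (.g (nat_lit 3649) (.e (nat_lit 73782) (nat_lit 32) (.e (nat_lit 2663) (nat_lit 167) (.e (nat_lit 196666) (nat_lit 13) (.e (nat_lit 65610) (nat_lit 10) (.e (nat_lit 344126) (nat_lit 25) (.e (nat_lit 548890) (nat_lit 10) .nil)))))) (.g (nat_lit 1) (.e (nat_lit 268105) (nat_lit 0) .nil) .nil)))) (.nd (nat_lit 9) 
(.lf (nat_lit 539023) (.g (nat_lit 1788) (.e (nat_lit 73775) (nat_lit 26) (.e (nat_lit 778460) (nat_lit 11) (.e (nat_lit 24658) (nat_lit 13) (.e (nat_lit 393234) (nat_lit 17) (.e (nat_lit 7593) (nat_lit 407) .nil))))) (.g (nat_lit 1) (.e (nat_lit 267679) (nat_lit 0) .nil) .nil))) 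
(.lf (nat_lit 539535) (.g (nat_lit 3262) (.e (nat_lit 81927) (nat_lit 11) (.e (nat_lit 426500) (nat_lit 27) (.e (nat_lit 335986) (nat_lit 1) (.e (nat_lit 57931) (nat_lit 282) (.e (nat_lit 163869) (nat_lit 2) (.e (nat_lit 196672) (nat_lit 15) .nil)))))) (.g (nat_lit 1) (.e (nat_lit 268867) (nat_lit 0) .nil) .nil)))))) (.nd (nat_lit 7) (.nd (nat_lit 8) (.nd (nat_lit 9) 
(.lf (nat_lit 538703) (.g (nat_lit 2588) (.e (nat_lit 73753) (nat_lit 8) (.e (nat_lit 557119) (nat_lit 18) (.e (nat_lit 2798) (nat_lit 180) (.e (nat_lit 303145) (nat_lit 13) (.e (nat_lit 483332) (nat_lit 0) .nil))))) (.g (nat_lit 0) (.e (nat_lit 266663) (nat_lit 0) .nil) .nil))) 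
(.lf (nat_lit 539215) (.g (nat_lit 2995) (.e (nat_lit 73781) (nat_lit 32) (.e (nat_lit 3089) (nat_lit 191) (.e (nat_lit 483406) (nat_lit 26) (.e (nat_lit 385093) (nat_lit 49) (.e (nat_lit 778323) (nat_lit 5) .nil))))) (.g (nat_lit 1) (.e (nat_lit 268031) (nat_lit 0) .nil) .nil)))) (.nd (nat_lit 9) 
(.lf (nat_lit 538959) (.g (nat_lit 6239) (.e (nat_lit 73755) (nat_lit 8) (.e (nat_lit 557105) (nat_lit 14) (.e (nat_lit 180252) (nat_lit 10) (.e (nat_lit 573475) (nat_lit 12) (.e (nat_lit 57503) (nat_lit 38) (.e (nat_lit 638995) (nat_lit 7) (.e (nat_lit 163978) (nat_lit 30) (.e (nat_lit 573489) (nat_lit 14) .nil)))))))) (.g (nat_lit 1) (.e (nat_lit 267362) (nat_lit 0) .nil) .nil))) 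
(.lf (nat_lit 539471) (.g (nat_lit 897) (.e (nat_lit 81924) (nat_lit 0) (.e (nat_lit 3305) (nat_lit 202) (.e (nat_lit 573484) (nat_lit 13) (.e (nat_lit 65628) (nat_lit 14) .nil)))) (.g (nat_lit 0) (.e (nat_lit 268610) (nat_lit 0) .nil) .nil))))) (.nd (nat_lit 8) (.nd (nat_lit 9) 
(.lf (nat_lit 538831) (.g (nat_lit 379) (.e (nat_lit 73755) (nat_lit 8) (.e (nat_lit 557098) (nat_lit 13) (.e (nat_lit 172067) (nat_lit 3) .nil))) (.g (nat_lit 0) (.e (nat_lit 266863) (nat_lit 0) .nil) .nil))) 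
(.lf (nat_lit 539343) (.g (nat_lit 1789) (.e (nat_lit 73782) (nat_lit 32) (.e (nat_lit 3089) (nat_lit 191) (.e (nat_lit 483380) (nat_lit 23) (.e (nat_lit 336332) (nat_lit 19) (.e (nat_lit 220928) (nat_lit 5) .nil))))) (.g (nat_lit 1) (.e (nat_lit 268208) (nat_lit 0) .nil) .nil)))) (.nd (nat_lit 9) 
(.lf (nat_lit 539087) (.g (nat_lit 2438) (.e (nat_lit 73775) (nat_lit 26) (.e (nat_lit 778466) (nat_lit 11) (.e (nat_lit 24628) (nat_lit 9) (.e (nat_lit 336414) (nat_lit 27) (.e (nat_lit 425987) (nat_lit 0) (.e (nat_lit 7590) (nat_lit 407) .nil)))))) (.g (nat_lit 1) (.e (nat_lit 267771) (nat_lit 0) .nil) .nil))) 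
(.lf (nat_lit 539599) (.g (nat_lit 1237) (.e (nat_lit 81938) (nat_lit 20) (.e (nat_lit 2390) (nat_lit 156) (.e (nat_lit 819221) (nat_lit 6) (.e (nat_lit 188427) (nat_lit 20) (.e (nat_lit 3279) (nat_lit 200) (.e (nat_lit 564992) (nat_lit 6) .nil)))))) (.g (nat_lit 1) (.e (nat_lit 269033) (nat_lit 0) .nil) .nil))))))) (.nd (nat_lit 6) (.nd (nat_lit 7) (.nd (nat_lit 8) (.nd (nat_lit 9) 
(.lf (nat_lit 538671) (.g (nat_lit 3377) (.e (nat_lit 73753) (nat_lit 8) (.e (nat_lit 557105) (nat_lit 14) (.e (nat_lit 180252) (nat_lit 10) (.e (nat_lit 573475) (nat_lit 12) (.e (nat_lit 57508) (nat_lit 39) (.e (nat_lit 647175) (nat_lit 0) (.e (nat_lit 2667) (nat_lit 167) (.e (nat_lit 196670) (nat_lit 14) .nil)))))))) (.g (nat_lit 1) (.e (nat_lit 266629) (nat_lit 0) .nil) .nil))) 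
(.lf (nat_lit 539183) (.g (nat_lit 3527) (.e (nat_lit 73781) (nat_lit 32) (.e (nat_lit 2857) (nat_lit 184) (.e (nat_lit 426542) (nat_lit 29) (.e (nat_lit 352267) (nat_lit 0) (.e (nat_lit 3632) (nat_lit 227) (.e (nat_lit 778323) (nat_lit 5) .nil)))))) (.g (nat_lit 1) (.e (nat_lit 267998) (nat_lit 0) .nil) .nil)))) (.nd (nat_lit 9) 
(.lf (nat_lit 538927) (.g (nat_lit 2069) (.e (nat_lit 73755) (nat_lit 8) (.e (nat_lit 557105) (nat_lit 14) (.e (nat_lit 180252) (nat_lit 10) (.e (nat_lit 573474) (nat_lit 12) (.e (nat_lit 57360) (nat_lit 0) .nil))))) (.g (nat_lit 0) (.e (nat_lit 267318) (nat_lit 0) .nil) .nil))) 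
(.lf (nat_lit 539439) (.g (nat_lit 1317) (.e (nat_lit 81922) (nat_lit 0) (.e (nat_lit 3305) (nat_lit 202) (.e (nat_lit 573488) (nat_lit 14) (.e (nat_lit 81664) (nat_lit 32) .nil)))) (.g (nat_lit 0) (.e (nat_lit 268492) (nat_lit 0) .nil) .nil))))) (.nd (nat_lit 8) (.nd (nat_lit 9) 
(.lf (nat_lit 538799) (.g (nat_lit 4134) (.e (nat_lit 73755) (nat_lit 8) (.e (nat_lit 557067) (nat_lit 9) (.e (nat_lit 2603) (nat_lit 163) (.e (nat_lit 164403) (nat_lit 256) (.e (nat_lit 57378) (nat_lit 3) (.e (nat_lit 98368) (nat_lit 27) (.e (nat_lit 434245) (nat_lit 28) (.e (nat_lit 573488) (nat_lit 14) .nil)))))))) (.g (nat_lit 1) (.e (nat_lit 266784) (nat_lit 0) .nil) .nil))) 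
(.lf (nat_lit 539311) (.g (nat_lit 3150) (.e (nat_lit 73782) (nat_lit 32) (.e (nat_lit 2856) (nat_lit 184) (.e (nat_lit 426542) (nat_lit 29) (.e (nat_lit 352309) (nat_lit 21) (.e (nat_lit 57873) (nat_lit 264) (.e (nat_lit 1210) (nat_lit 89) .nil)))))) (.g (nat_lit 1) (.e (nat_lit 268176) (nat_lit 0) .nil) .nil)))) (.nd (nat_lit 9) 
(.lf (nat_lit 539055) (.g (nat_lit 2256) (.e (nat_lit 73775) (nat_lit 26) (.e (nat_lit 778465) (nat_lit 11) (.e (nat_lit 24625) (nat_lit 9) (.e (nat_lit 336423) (nat_lit 28) (.e (nat_lit 442112) (nat_lit 5) .nil))))) (.g (nat_lit 1) (.e (nat_lit 267719) (nat_lit 0) .nil) .nil))) 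
(.lf (nat_lit 539567) (.g (nat_lit 1948) (.e (nat_lit 81938) (nat_lit 20) (.e (nat_lit 1842) (nat_lit 123) (.e (nat_lit 548889) (nat_lit 9) (.e (nat_lit 65629) (nat_lit 14) (.e (nat_lit 401412) (nat_lit 0) .nil))))) (.g (nat_lit 0) (.e (nat_lit 268998) (nat_lit 0) .nil) .nil)))))) (.nd (nat_lit 7) (.nd (nat_lit 8) (.nd (nat_lit 9) 
(.lf (nat_lit 538735) (.g (nat_lit 3119) (.e (nat_lit 73754) (nat_lit 8) (.e (nat_lit 557105) (nat_lit 14) (.e (nat_lit 180252) (nat_lit 10) (.e (nat_lit 573451) (nat_lit 9) (.e (nat_lit 1175) (nat_lit 87) .nil))))) (.g (nat_lit 0) (.e (nat_lit 266713) (nat_lit 0) .nil) .nil))) 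
(.lf (nat_lit 539247) (.g (nat_lit 2924) (.e (nat_lit 73781) (nat_lit 32) (.e (nat_lit 3090) (nat_lit 191) (.e (nat_lit 483394) (nat_lit 24) (.e (nat_lit 344097) (nat_lit 18) (.e (nat_lit 5905) (nat_lit 320) (.e (nat_lit 1211) (nat_lit 89) .nil)))))) (.g (nat_lit 1) (.e (nat_lit 268063) (nat_lit 0) .nil) .nil)))) (.nd (nat_lit 9) 
(.lf (nat_lit 538991) (.g (nat_lit 3603) (.e (nat_lit 73755) (nat_lit 8) (.e (nat_lit 557119) (nat_lit 18) (.e (nat_lit 2798) (nat_lit 180) (.e (nat_lit 303133) (nat_lit 9) (.e (nat_lit 426499) (nat_lit 27) (.e (nat_lit 336288) (nat_lit 15) (.e (nat_lit 7936) (nat_lit 407) .nil))))))) (.g (nat_lit 1) (.e (nat_lit 267404) (nat_lit 0) .nil) .nil))) 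
(.lf (nat_lit 539503) (.g (nat_lit 1163) (.e (nat_lit 89856) (nat_lit 0) (.e (nat_lit 3304) (nat_lit 202) (.e (nat_lit 573482) (nat_lit 13) (.e (nat_lit 65630) (nat_lit 14) .nil)))) (.g (nat_lit 0) (.e (nat_lit 268729) (nat_lit 0) .nil) .nil))))) (.nd (nat_lit 8) (.nd (nat_lit 9) 
(.lf (nat_lit 538863) (.g (nat_lit 2853) (.e (nat_lit 73755) (nat_lit 8) (.e (nat_lit 557104) (nat_lit 14) (.e (nat_lit 180250) (nat_lit 10) (.e (nat_lit 573473) (nat_lit 12) (.e (nat_lit 57501) (nat_lit 37) (.e (nat_lit 630800) (nat_lit 7) (.e (nat_lit 163979) (nat_lit 30) (.e (nat_lit 573489) (nat_lit 14) .nil)))))))) (.g (nat_lit 1) (.e (nat_lit 267020) (nat_lit 0) .nil) .nil))) 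
(.lf (nat_lit 539375) (.g (nat_lit 1321) (.e (nat_lit 81664) (nat_lit 32) (.e (nat_lit 2668) (nat_lit 167) (.e (nat_lit 196630) (nat_lit 9) (.e (nat_lit 202) (nat_lit 17) .nil)))) (.g (nat_lit 0) (.e (nat_lit 268257) (nat_lit 0) .nil) .nil)))) (.nd (nat_lit 9) 
(.lf (nat_lit 539119) (.g (nat_lit 1945) (.e (nat_lit 73776) (nat_lit 26) (.e (nat_lit 778464) (nat_lit 11) (.e (nat_lit 24625) (nat_lit 9) (.e (nat_lit 336438) (nat_lit 31) (.e (nat_lit 466688) (nat_lit 5) .nil))))) (.g (nat_lit 1) (.e (nat_lit 267812) (nat_lit 0) .nil) .nil))) 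
(.lf (nat_lit 539631) (.g (nat_lit 1252) (.e (nat_lit 81938) (nat_lit 20) (.e (nat_lit 2391) (nat_lit 156) (.e (nat_lit 819221) (nat_lit 6) (.e (nat_lit 188430) (nat_lit 20) (.e (nat_lit 3282) (nat_lit 200) (.e (nat_lit 564992) (nat_lit 6) .nil)))))) (.g (nat_lit 1) (.e (nat_lit 269067) (nat_lit 0) .nil) .nil)))))))) 
(.nd (nat_lit 5) (.nd (nat_lit 6) (.nd (nat_lit 7) (.nd (nat_lit 8) (.nd (nat_lit 9) 
(.lf (nat_lit 538655) (.g (nat_lit 2984) (.e (nat_lit 73753) (nat_lit 8) (.e (nat_lit 557105) (nat_lit 14) (.e (nat_lit 180252) (nat_lit 10) (.e (nat_lit 573474) (nat_lit 12) (.e (nat_lit 57504) (nat_lit 38) .nil))))) (.g (nat_lit 0) (.e (nat_lit 266608) (nat_lit 0) .nil) .nil))) 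
(.lf (nat_lit 539167) (.g (nat_lit 3103) (.e (nat_lit 73781) (nat_lit 32) (.e (nat_lit 2856) (nat_lit 184) (.e (nat_lit 426509) (nat_lit 27) (.e (nat_lit 336205) (nat_lit 12) (.e (nat_lit 385094) (nat_lit 49) (.e (nat_lit 778324) (nat_lit 5) .nil)))))) (.g (nat_lit 1) (.e (nat_lit 267982) (nat_lit 0) .nil) .nil)))) (.nd (nat_lit 9) 
(.lf (nat_lit 538911) (.g (nat_lit 2682) (.e (nat_lit 73755) (nat_lit 8) (.e (nat_lit 557105) (nat_lit 14) (.e (nat_lit 180252) (nat_lit 10) (.e (nat_lit 573451) (nat_lit 9) (.e (nat_lit 52) (nat_lit 0) .nil))))) (.g (nat_lit 0) (.e (nat_lit 267170) (nat_lit 0) .nil) .nil))) 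
(.lf (nat_lit 539423) (.g (nat_lit 498) (.e (nat_lit 73792) (nat_lit 45) (.e (nat_lit 1163) (nat_lit 86) (.e (nat_lit 49156) (nat_lit 0) (.e (nat_lit 2984) (nat_lit 186) (.e (nat_lit 450304) (nat_lit 2) (.e (nat_lit 98048) (nat_lit 5) .nil)))))) (.g (nat_lit 1) (.e (nat_lit 268442) (nat_lit 0) .nil) .nil))))) (.nd (nat_lit 8) (.nd (nat_lit 9) 
(.lf (nat_lit 538783) (.g (nat_lit 2148) (.e (nat_lit 73754) (nat_lit 8) (.e (nat_lit 557105) (nat_lit 14) (.e (nat_lit 180252) (nat_lit 10) (.e (nat_lit 573475) (nat_lit 12) (.e (nat_lit 57513) (nat_lit 40) .nil))))) (.g (nat_lit 0) (.e (nat_lit 266767) (nat_lit 0) .nil) .nil))) 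
(.lf (nat_lit 539295) (.g (nat_lit 1395) (.e (nat_lit 73782) (nat_lit 32) (.e (nat_lit 2856) (nat_lit 184) (.e (nat_lit 426530) (nat_lit 27) (.e (nat_lit 336206) (nat_lit 12) (.e (nat_lit 385092) (nat_lit 49) .nil))))) (.g (nat_lit 0) (.e (nat_lit 268160) (nat_lit 0) .nil) .nil)))) (.nd (nat_lit 9) 
(.lf (nat_lit 539039) (.g (nat_lit 3051) (.e (nat_lit 73775) (nat_lit 26) (.e (nat_lit 778465) (nat_lit 11) (.e (nat_lit 24623) (nat_lit 9) (.e (nat_lit 336389) (nat_lit 27) (.e (nat_lit 426011) (nat_lit 0) (.e (nat_lit 7591) (nat_lit 407) .nil)))))) (.g (nat_lit 1) (.e (nat_lit 267702) (nat_lit 0) .nil) .nil))) 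
(.lf (nat_lit 539551) (.g (nat_lit 1962) (.e (nat_lit 81934) (nat_lit 20) (.e (nat_lit 1996) (nat_lit 137) (.e (nat_lit 663567) (nat_lit 4) (.e (nat_lit 65610) (nat_lit 10) (.e (nat_lit 344169) (nat_lit 40) (.e (nat_lit 671764) (nat_lit 6) .nil)))))) (.g (nat_lit 1) (.e (nat_lit 268944) (nat_lit 0) .nil) .nil)))))) (.nd (nat_lit 7) (.nd (nat_lit 8) (.nd (nat_lit 9) 
(.lf (nat_lit 538719) (.g (nat_lit 1356) (.e (nat_lit 73754) (nat_lit 8) (.e (nat_lit 557100) (nat_lit 13) (.e (nat_lit 172067) (nat_lit 3) (.e (nat_lit 204817) (nat_lit 17) .nil)))) (.g (nat_lit 0) (.e (nat_lit 266687) (nat_lit 0) .nil) .nil))) 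
(.lf (nat_lit 539231) (.g (nat_lit 1703) (.e (nat_lit 73781) (nat_lit 32) (.e (nat_lit 3090) (nat_lit 191) (.e (nat_lit 483381) (nat_lit 23) (.e (nat_lit 336330) (nat_lit 19) (.e (nat_lit 220928) (nat_lit 5) .nil))))) (.g (nat_lit 1) (.e (nat_lit 268047) (nat_lit 0) .nil) .nil)))) (.nd (nat_lit 9) 
(.lf (nat_lit 538975) (.g (nat_lit 2713) (.e (nat_lit 73755) (nat_lit 8) (.e (nat_lit 557119) (nat_lit 18) (.e (nat_lit 2797) (nat_lit 180) (.e (nat_lit 303145) (nat_lit 13) (.e (nat_lit 483332) (nat_lit 0) (.e (nat_lit 7936) (nat_lit 407) .nil)))))) (.g (nat_lit 1) (.e (nat_lit 267386) (nat_lit 0) .nil) .nil))) 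
(.lf (nat_lit 539487) (.g (nat_lit 1478) (.e (nat_lit 81924) (nat_lit 0) (.e (nat_lit 3747) (nat_lit 228) (.e (nat_lit 786473) (nat_lit 27) (.e (nat_lit 336118) (nat_lit 9) (.e (nat_lit 336331) (nat_lit 19) (.e (nat_lit 220928) (nat_lit 6) .nil)))))) (.g (nat_lit 1) (.e (nat_lit 268646) (nat_lit 0) .nil) .nil))))) (.nd (nat_lit 8) (.nd (nat_lit 9) 
(.lf (nat_lit 538847) (.g (nat_lit 3127) (.e (nat_lit 73755) (nat_lit 8) (.e (nat_lit 557103) (nat_lit 14) (.e (nat_lit 180252) (nat_lit 10) (.e (nat_lit 573475) (nat_lit 12) (.e (nat_lit 57503) (nat_lit 38) (.e (nat_lit 638995) (nat_lit 7) (.e (nat_lit 163977) (nat_lit 30) (.e (nat_lit 573489) (nat_lit 14) .nil)))))))) (.g (nat_lit 1) (.e (nat_lit 266911) (nat_lit 0) .nil) .nil))) 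
(.lf (nat_lit 539359) (.g (nat_lit 1597) (.e (nat_lit 73782) (nat_lit 32) (.e (nat_lit 3090) (nat_lit 191) (.e (nat_lit 483381) (nat_lit 23) (.e (nat_lit 336330) (nat_lit 19) (.e (nat_lit 220928) (nat_lit 5) .nil))))) (.g (nat_lit 1) (.e (nat_lit 268224) (nat_lit 0) .nil) .nil)))) (.nd (nat_lit 9) 
(.lf (nat_lit 539103) (.g (nat_lit 2845) (.e (nat_lit 73775) (nat_lit 26) (.e (nat_lit 778466) (nat_lit 11) (.e (nat_lit 24636) (nat_lit 9) (.e (nat_lit 336390) (nat_lit 27) (.e (nat_lit 426011) (nat_lit 0) (.e (nat_lit 7591) (nat_lit 407) .nil)))))) (.g (nat_lit 1) (.e (nat_lit 267790) (nat_lit 0) .nil) .nil))) 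
(.lf (nat_lit 539615) (.g (nat_lit 1855) (.e (nat_lit 81938) (nat_lit 20) (.e (nat_lit 2391) (nat_lit 156) (.e (nat_lit 819204) (nat_lit 0) (.e (nat_lit 3004) (nat_lit 186) (.e (nat_lit 450304) (nat_lit 2) (.e (nat_lit 98048) (nat_lit 6) .nil)))))) (.g (nat_lit 1) (.e (nat_lit 269050) (nat_lit 0) .nil) .nil))))))) (.nd (nat_lit 6) (.nd (nat_lit 7) (.nd (nat_lit 8) (.nd (nat_lit 9) 
(.lf (nat_lit 538687) (.g (nat_lit 4033) (.e (nat_lit 73753) (nat_lit 8) (.e (nat_lit 557119) (nat_lit 18) (.e (nat_lit 2798) (nat_lit 180) (.e (nat_lit 303119) (nat_lit 3) (.e (nat_lit 204838) (nat_lit 20) (.e (nat_lit 114716) (nat_lit 22) (.e (nat_lit 98048) (nat_lit 5) .nil))))))) (.g (nat_lit 1) (.e (nat_lit 266647) (nat_lit 0) .nil) .nil))) 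
(.lf (nat_lit 539199) (.g (nat_lit 2242) (.e (nat_lit 73781) (nat_lit 32) (.e (nat_lit 3088) (nat_lit 191) (.e (nat_lit 483403) (nat_lit 26) (.e (nat_lit 385094) (nat_lit 49) (.e (nat_lit 778324) (nat_lit 5) .nil))))) (.g (nat_lit 1) (.e (nat_lit 268015) (nat_lit 0) .nil) .nil)))) (.nd (nat_lit 9) 
(.lf (nat_lit 538943) (.g (nat_lit 2248) (.e (nat_lit 73755) (nat_lit 8) (.e (nat_lit 557105) (nat_lit 14) (.e (nat_lit 180252) (nat_lit 10) (.e (nat_lit 573474) (nat_lit 12) (.e (nat_lit 57506) (nat_lit 39) (.e (nat_lit 655104) (nat_lit 0) (.e (nat_lit 2667) (nat_lit 167) (.e (nat_lit 196667) (nat_lit 14) .nil)))))))) (.g (nat_lit 1) (.e (nat_lit 267339) (nat_lit 0) .nil) .nil))) 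
(.lf (nat_lit 539455) (.g (nat_lit 839) (.e (nat_lit 81922) (nat_lit 0) (.e (nat_lit 3747) (nat_lit 228) (.e (nat_lit 786481) (nat_lit 30) (.e (nat_lit 368384) (nat_lit 0) .nil)))) (.g (nat_lit 0) (.e (nat_lit 268536) (nat_lit 0) .nil) .nil))))) (.nd (nat_lit 8) (.nd (nat_lit 9) 
(.lf (nat_lit 538815) (.g (nat_lit 3794) (.e (nat_lit 73755) (nat_lit 8) (.e (nat_lit 557090) (nat_lit 12) (.e (nat_lit 163844) (nat_lit 0) (.e (nat_lit 5943) (nat_lit 322) (.e (nat_lit 57374) (nat_lit 2) (.e (nat_lit 90171) (nat_lit 14) (.e (nat_lit 180252) (nat_lit 10) (.e (nat_lit 573489) (nat_lit 14) .nil)))))))) (.g (nat_lit 1) (.e (nat_lit 266815) (nat_lit 0) .nil) .nil))) 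
(.lf (nat_lit 539327) (.g (nat_lit 3845) (.e (nat_lit 73782) (nat_lit 32) (.e (nat_lit 2856) (nat_lit 184) (.e (nat_lit 426555) (nat_lit 32) (.e (nat_lit 376859) (nat_lit 21) (.e (nat_lit 57872) (nat_lit 264) (.e (nat_lit 1209) (nat_lit 89) .nil)))))) (.g (nat_lit 1) (.e (nat_lit 268192) (nat_lit 0) .nil) .nil)))) (.nd (nat_lit 9) 
(.lf (nat_lit 539071) (.g (nat_lit 2727) (.e (nat_lit 73775) (nat_lit 26) (.e (nat_lit 778466) (nat_lit 11) (.e (nat_lit 24623) (nat_lit 9) (.e (nat_lit 336389) (nat_lit 27) (.e (nat_lit 426012) (nat_lit 0) (.e (nat_lit 7593) (nat_lit 407) .nil)))))) (.g (nat_lit 1) (.e (nat_lit 267753) (nat_lit 0) .nil) .nil))) 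
(.lf (nat_lit 539583) (.g (nat_lit 1014) (.e (nat_lit 81938) (nat_lit 20) (.e (nat_lit 2390) (nat_lit 156) (.e (nat_lit 819203) (nat_lit 0) (.e (nat_lit 3004) (nat_lit 186) (.e (nat_lit 450304) (nat_lit 2) (.e (nat_lit 98048) (nat_lit 6) .nil)))))) (.g (nat_lit 1) (.e (nat_lit 269016) (nat_lit 0) .nil) .nil)))))) (.nd (nat_lit 7) (.nd (nat_lit 8) (.nd (nat_lit 9) 
(.lf (nat_lit 538751) (.g (nat_lit 2735) (.e (nat_lit 73754) (nat_lit 8) (.e (nat_lit 557105) (nat_lit 14) (.e (nat_lit 180252) (nat_lit 10) (.e (nat_lit 573473) (nat_lit 12) (.e (nat_lit 57508) (nat_lit 39) (.e (nat_lit 655104) (nat_lit 0) (.e (nat_lit 2667) (nat_lit 167) (.e (nat_lit 196668) (nat_lit 14) .nil)))))))) (.g (nat_lit 1) (.e (nat_lit 266734) (nat_lit 0) .nil) .nil))) 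
(.lf (nat_lit 539263) (.g (nat_lit 2655) (.e (nat_lit 73781) (nat_lit 32) (.e (nat_lit 3090) (nat_lit 191) (.e (nat_lit 483402) (nat_lit 26) (.e (nat_lit 385094) (nat_lit 49) (.e (nat_lit 778323) (nat_lit 5) .nil))))) (.g (nat_lit 1) (.e (nat_lit 268079) (nat_lit 0) .nil) .nil)))) (.nd (nat_lit 9) 
(.lf (nat_lit 539007) (.g (nat_lit 3712) (.e (nat_lit 73764) (nat_lit 18) (.e (nat_lit 638998) (nat_lit 8) (.e (nat_lit 172126) (nat_lit 14) (.e (nat_lit 491566) (nat_lit 12) (.e (nat_lit 385087) (nat_lit 46) (.e (nat_lit 753707) (nat_lit 18) .nil)))))) (.g (nat_lit 1) (.e (nat_lit 267494) (nat_lit 0) .nil) .nil))) 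
(.lf (nat_lit 539519) (.g (nat_lit 1564) (.e (nat_lit 89856) (nat_lit 3) (.e (nat_lit 204837) (nat_lit 20) (.e (nat_lit 114698) (nat_lit 11) (.e (nat_lit 426121) (nat_lit 2) .nil)))) (.g (nat_lit 0) (.e (nat_lit 268827) (nat_lit 0) .nil) .nil))))) (.nd (nat_lit 8) (.nd (nat_lit 9) 
(.lf (nat_lit 538879) (.g (nat_lit 1165) (.e (nat_lit 73755) (nat_lit 8) (.e (nat_lit 557104) (nat_lit 14) (.e (nat_lit 180252) (nat_lit 10) (.e (nat_lit 573474) (nat_lit 12) .nil)))) (.g (nat_lit 0) (.e (nat_lit 267041) (nat_lit 0) .nil) .nil))) 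
(.lf (nat_lit 539391) (.g (nat_lit 259) (.e (nat_lit 81664) (nat_lit 35) (.e (nat_lit 163950) (nat_lit 21) (.e (nat_lit 500071) (nat_lit 19) .nil))) (.g (nat_lit 0) (.e (nat_lit 268336) (nat_lit 0) .nil) .nil)))) (.nd (nat_lit 9) 
(.lf (nat_lit 539135) (.g (nat_lit 2943) (.e (nat_lit 73776) (nat_lit 26) (.e (nat_lit 778466) (nat_lit 11) (.e (nat_lit 24636) (nat_lit 9) (.e (nat_lit 336390) (nat_lit 27) (.e (nat_lit 426011) (nat_lit 0) (.e (nat_lit 7591) (nat_lit 407) .nil)))))) (.g (nat_lit 1) (.e (nat_lit 267838) (nat_lit 0) .nil) .nil))) 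
(.lf (nat_lit 539647) (.g (nat_lit 831) (.e (nat_lit 81939) (nat_lit 20) (.e (nat_lit 2390) (nat_lit 156) (.e (nat_lit 819203) (nat_lit 0) (.e (nat_lit 3015) (nat_lit 187) (.e (nat_lit 458496) (nat_lit 8) .nil))))) (.g (nat_lit 0) (.e (nat_lit 269095) (nat_lit 0) .nil) .nil)))))))))))))

noncomputable def tv5587 : DT := (.nd (nat_lit 0) (.nd (nat_lit 1) (.nd (nat_lit 2) (.nd (nat_lit 3) (.nd (nat_lit 4) (.nd (nat_lit 5) (.nd (nat_lit 6) (.nd (nat_lit 7) (.nd (nat_lit 8) (.nd (nat_lit 9) 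
(.lf (nat_lit 539648) (.g (nat_lit 852) (.e (nat_lit 81939) (nat_lit 20) (.e (nat_lit 2390) (nat_lit 156) (.e (nat_lit 819203) (nat_lit 0) (.e (nat_lit 3016) (nat_lit 187) (.e (nat_lit 458496) (nat_lit 8) (.e (nat_lit 564992) (nat_lit 6) .nil)))))) (.g (nat_lit 1) (.e (nat_lit 269097) (nat_lit 0) .nil) .nil))) 
(.lf (nat_lit 540160) (.g (nat_lit 345) (.e (nat_lit 90128) (nat_lit 9) (.e (nat_lit 314) (nat_lit 23) (.e (nat_lit 360192) (nat_lit 18) .nil))) (.g (nat_lit 0) (.e (nat_lit 270068) (nat_lit 0) .nil) .nil)))) (.nd (nat_lit 9) 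
(.lf (nat_lit 539904) (.g (nat_lit 1527) (.e (nat_lit 81946) (nat_lit 20) (.e (nat_lit 2391) (nat_lit 156) (.e (nat_lit 819204) (nat_lit 0) (.e (nat_lit 3028) (nat_lit 187) (.e (nat_lit 458496) (nat_lit 8) (.e (nat_lit 564992) (nat_lit 6) .nil)))))) (.g (nat_lit 1) (.e (nat_lit 269494) (nat_lit 0) .nil) .nil))) 
(.lf (nat_lit 540416) (.g (nat_lit 1851) (.e (nat_lit 90167) (nat_lit 13) (.e (nat_lit 172067) (nat_lit 3) (.e (nat_lit 204837) (nat_lit 20) (.e (nat_lit 114701) (nat_lit 20) .nil)))) (.g (nat_lit 0) (.e (nat_lit 270726) (nat_lit 0) .nil) .nil))))) (.nd (nat_lit 8) (.nd (nat_lit 9) 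
(.lf (nat_lit 539776) (.g (nat_lit 770) (.e (nat_lit 81943) (nat_lit 20) (.e (nat_lit 2390) (nat_lit 156) (.e (nat_lit 819203) (nat_lit 0) (.e (nat_lit 2989) (nat_lit 186) (.e (nat_lit 450304) (nat_lit 2) (.e (nat_lit 98048) (nat_lit 6) .nil)))))) (.g (nat_lit 1) (.e (nat_lit 269321) (nat_lit 0) .nil) .nil))) 
(.lf (nat_lit 540288) (.g (nat_lit 635) (.e (nat_lit 90158) (nat_lit 11) (.e (nat_lit 24608) (nat_lit 3) (.e (nat_lit 98334) (nat_lit 18) .nil))) (.g (nat_lit 0) (.e (nat_lit 270511) (nat_lit 0) .nil) .nil)))) (.nd (nat_lit 9) 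
(.lf (nat_lit 540032) (.g (nat_lit 352) (.e (nat_lit 81954) (nat_lit 23) (.e (nat_lit 98350) (nat_lit 24) (.e (nat_lit 409614) (nat_lit 10) .nil))) (.g (nat_lit 0) (.e (nat_lit 269755) (nat_lit 0) .nil) .nil))) 
(.lf (nat_lit 540544) (.g (nat_lit 1157) (.e (nat_lit 90169) (nat_lit 13) (.e (nat_lit 172119) (nat_lit 12) (.e (nat_lit 475179) (nat_lit 24) (.e (nat_lit 516131) (nat_lit 3) .nil)))) (.g (nat_lit 0) (.e (nat_lit 270889) (nat_lit 0) .nil) .nil)))))) (.nd (nat_lit 7) (.nd (nat_lit 8) (.nd (nat_lit 9) 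
(.lf (nat_lit 539712) (.g (nat_lit 1218) (.e (nat_lit 81942) (nat_lit 20) (.e (nat_lit 2281) (nat_lit 150) (.e (nat_lit 770072) (nat_lit 8) (.e (nat_lit 65616) (nat_lit 10) .nil)))) (.g (nat_lit 0) (.e (nat_lit 269186) (nat_lit 0) .nil) .nil))) 
(.lf (nat_lit 540224) (.g (nat_lit 944) (.e (nat_lit 90134) (nat_lit 9) (.e (nat_lit 290) (nat_lit 21) (.e (nat_lit 335986) (nat_lit 1) (.e (nat_lit 57927) (nat_lit 282) .nil)))) (.g (nat_lit 0) (.e (nat_lit 270312) (nat_lit 0) .nil) .nil)))) (.nd (nat_lit 9) 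
(.lf (nat_lit 539968) (.g (nat_lit 1482) (.e (nat_lit 81947) (nat_lit 20) (.e (nat_lit 2391) (nat_lit 156) (.e (nat_lit 819204) (nat_lit 0) (.e (nat_lit 2988) (nat_lit 186) (.e (nat_lit 450304) (nat_lit 2) (.e (nat_lit 98048) (nat_lit 6) .nil)))))) (.g (nat_lit 1) (.e (nat_lit 269587) (nat_lit 0) .nil) .nil))) 
(.lf (nat_lit 540480) (.g (nat_lit 886) (.e (nat_lit 90168) (nat_lit 13) (.e (nat_lit 172067) (nat_lit 3) (.e (nat_lit 204830) (nat_lit 18) .nil))) (.g (nat_lit 0) (.e (nat_lit 270811) (nat_lit 0) .nil) .nil))))) (.nd (nat_lit 8) (.nd (nat_lit 9) 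
(.lf (nat_lit 539840) (.g (nat_lit 4308) (.e (nat_lit 81946) (nat_lit 20) (.e (nat_lit 1842) (nat_lit 123) (.e (nat_lit 548889) (nat_lit 9) (.e (nat_lit 65630) (nat_lit 14) (.e (nat_lit 401412) (nat_lit 0) (.e (nat_lit 3114) (nat_lit 193) (.e (nat_lit 500075) (nat_lit 20) .nil))))))) (.g (nat_lit 1) (.e (nat_lit 269405) (nat_lit 0) .nil) .nil))) 
(.lf (nat_lit 540352) (.g (nat_lit 1737) (.e (nat_lit 90160) (nat_lit 11) (.e (nat_lit 24623) (nat_lit 9) (.e (nat_lit 336456) (nat_lit 34) (.e (nat_lit 483363) (nat_lit 18) .nil)))) (.g (nat_lit 0) (.e (nat_lit 270609) (nat_lit 0) .nil) .nil)))) (.nd (nat_lit 9) 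
(.lf (nat_lit 540096) (.g (nat_lit 542) (.e (nat_lit 81956) (nat_lit 23) (.e (nat_lit 98350) (nat_lit 24) (.e (nat_lit 409623) (nat_lit 10) .nil))) (.g (nat_lit 0) (.e (nat_lit 269873) (nat_lit 0) .nil) .nil))) 
(.lf (nat_lit 540608) (.g (nat_lit 3571) (.e (nat_lit 90170) (nat_lit 13) (.e (nat_lit 172106) (nat_lit 10) (.e (nat_lit 434231) (nat_lit 23) (.e (nat_lit 532523) (nat_lit 7) (.e (nat_lit 319509) (nat_lit 10) .nil))))) (.g (nat_lit 0) (.e (nat_lit 270965) (nat_lit 0) .nil) .nil))))))) (.nd (nat_lit 6) (.nd (nat_lit 7) (.nd (nat_lit 8) (.nd (nat_lit 9) 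
(.lf (nat_lit 539680) (.g (nat_lit 917) (.e (nat_lit 81939) (nat_lit 20) (.e (nat_lit 2391) (nat_lit 156) (.e (nat_lit 819203) (nat_lit 0) (.e (nat_lit 3027) (nat_lit 187) (.e (nat_lit 458496) (nat_lit 8) (.e (nat_lit 564992) (nat_lit 6) .nil)))))) (.g (nat_lit 1) (.e (nat_lit 269140) (nat_lit 0) .nil) .nil))) 
(.lf (nat_lit 540192) (.g (nat_lit 1755) (.e (nat_lit 90130) (nat_lit 9) (.e (nat_lit 2830) (nat_lit 182) (.e (nat_lit 409648) (nat_lit 18) (.e (nat_lit 303109) (nat_lit 0) .nil)))) (.g (nat_lit 0) (.e (nat_lit 270183) (nat_lit 0) .nil) .nil)))) (.nd (nat_lit 9) 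
(.lf (nat_lit 539936) (.g (nat_lit 1180) (.e (nat_lit 81947) (nat_lit 20) (.e (nat_lit 2390) (nat_lit 156) (.e (nat_lit 819203) (nat_lit 0) (.e (nat_lit 3015) (nat_lit 187) (.e (nat_lit 458496) (nat_lit 8) (.e (nat_lit 564992) (nat_lit 6) .nil)))))) (.g (nat_lit 1) (.e (nat_lit 269540) (nat_lit 0) .nil) .nil))) 
(.lf (nat_lit 540448) (.g (nat_lit 1830) (.e (nat_lit 90167) (nat_lit 13) (.e (nat_lit 172120) (nat_lit 12) (.e (nat_lit 475185) (nat_lit 29) (.e (nat_lit 557100) (nat_lit 13) .nil)))) (.g (nat_lit 0) (.e (nat_lit 270765) (nat_lit 0) .nil) .nil))))) (.nd (nat_lit 8) (.nd (nat_lit 9) 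
(.lf (nat_lit 539808) (.g (nat_lit 1091) (.e (nat_lit 81943) (nat_lit 20) (.e (nat_lit 2391) (nat_lit 156) (.e (nat_lit 819203) (nat_lit 0) (.e (nat_lit 3021) (nat_lit 187) (.e (nat_lit 458496) (nat_lit 8) (.e (nat_lit 564992) (nat_lit 6) .nil)))))) (.g (nat_lit 1) (.e (nat_lit 269361) (nat_lit 0) .nil) .nil))) 
(.lf (nat_lit 540320) (.g (nat_lit 1282) (.e (nat_lit 90158) (nat_lit 11) (.e (nat_lit 24630) (nat_lit 9) (.e (nat_lit 336456) (nat_lit 34) (.e (nat_lit 483363) (nat_lit 18) .nil)))) (.g (nat_lit 0) (.e (nat_lit 270549) (nat_lit 0) .nil) .nil)))) (.nd (nat_lit 9) 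
(.lf (nat_lit 540064) (.g (nat_lit 1812) (.e (nat_lit 81955) (nat_lit 23) (.e (nat_lit 98350) (nat_lit 24) (.e (nat_lit 409643) (nat_lit 18) (.e (nat_lit 303106) (nat_lit 0) (.e (nat_lit 3114) (nat_lit 193) (.e (nat_lit 500075) (nat_lit 20) .nil)))))) (.g (nat_lit 1) (.e (nat_lit 269829) (nat_lit 0) .nil) .nil))) 
(.lf (nat_lit 540576) (.g (nat_lit 4203) (.e (nat_lit 90170) (nat_lit 13) (.e (nat_lit 172067) (nat_lit 3) (.e (nat_lit 204830) (nat_lit 18) (.e (nat_lit 57692) (nat_lit 156) (.e (nat_lit 163875) (nat_lit 3) (.e (nat_lit 204837) (nat_lit 20) (.e (nat_lit 114715) (nat_lit 22) .nil))))))) (.g (nat_lit 1) (.e (nat_lit 270933) (nat_lit 0) .nil) .nil)))))) 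
(.nd (nat_lit 7) (.nd (nat_lit 8) (.nd (nat_lit 9) 
(.lf (nat_lit 539744) (.g (nat_lit 795) (.e (nat_lit 81942) (nat_lit 20) (.e (nat_lit 2391) (nat_lit 156) (.e (nat_lit 819221) (nat_lit 6) (.e (nat_lit 188427) (nat_lit 20) (.e (nat_lit 3279) (nat_lit 200) (.e (nat_lit 564992) (nat_lit 6) .nil)))))) (.g (nat_lit 1) (.e (nat_lit 269222) (nat_lit 0) .nil) .nil))) 
(.lf (nat_lit 540256) (.g (nat_lit 2366) (.e (nat_lit 90150) (nat_lit 9) (.e (nat_lit 3013) (nat_lit 187) (.e (nat_lit 450588) (nat_lit 10) (.e (nat_lit 573474) (nat_lit 12) (.e (nat_lit 57572) (nat_lit 54) .nil))))) (.g (nat_lit 0) (.e (nat_lit 270434) (nat_lit 0) .nil) .nil)))) (.nd (nat_lit 9) 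
(.lf (nat_lit 540000) (.g (nat_lit 472) (.e (nat_lit 81951) (nat_lit 22) (.e (nat_lit 90134) (nat_lit 9) (.e (nat_lit 2822) (nat_lit 182) .nil))) (.g (nat_lit 0) (.e (nat_lit 269688) (nat_lit 0) .nil) .nil))) 
(.lf (nat_lit 540512) (.g (nat_lit 2323) (.e (nat_lit 90168) (nat_lit 13) (.e (nat_lit 172120) (nat_lit 12) (.e (nat_lit 475185) (nat_lit 29) (.e (nat_lit 557098) (nat_lit 13) .nil)))) (.g (nat_lit 0) (.e (nat_lit 270849) (nat_lit 0) .nil) .nil))))) (.nd (nat_lit 8) (.nd (nat_lit 9) 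
(.lf (nat_lit 539872) (.g (nat_lit 1538) (.e (nat_lit 81946) (nat_lit 20) (.e (nat_lit 2390) (nat_lit 156) (.e (nat_lit 819204) (nat_lit 0) (.e (nat_lit 3016) (nat_lit 187) (.e (nat_lit 458496) (nat_lit 8) (.e (nat_lit 564992) (nat_lit 6) .nil)))))) (.g (nat_lit 1) (.e (nat_lit 269453) (nat_lit 0) .nil) .nil))) 
(.lf (nat_lit 540384) (.g (nat_lit 350) (.e (nat_lit 90166) (nat_lit 13) (.e (nat_lit 172106) (nat_lit 10) (.e (nat_lit 434231) (nat_lit 23) .nil))) (.g (nat_lit 0) (.e (nat_lit 270685) (nat_lit 0) .nil) .nil)))) (.nd (nat_lit 9) 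
(.lf (nat_lit 540128) (.g (nat_lit 1641) (.e (nat_lit 89856) (nat_lit 23) (.e (nat_lit 98386) (nat_lit 32) (.e (nat_lit 475197) (nat_lit 40) (.e (nat_lit 704589) (nat_lit 3) (.e (nat_lit 163976) (nat_lit 30) .nil))))) (.g (nat_lit 0) (.e (nat_lit 269923) (nat_lit 0) .nil) .nil))) 
(.lf (nat_lit 540640) (.g (nat_lit 2854) (.e (nat_lit 90170) (nat_lit 13) (.e (nat_lit 172106) (nat_lit 10) (.e (nat_lit 434231) (nat_lit 23) (.e (nat_lit 532535) (nat_lit 9) (.e (nat_lit 335985) (nat_lit 1) (.e (nat_lit 57924) (nat_lit 282) (.e (nat_lit 171776) (nat_lit 63) .nil))))))) (.g (nat_lit 1) (.e (nat_lit 270997) (nat_lit 0) .nil) .nil)))))))) 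
(.nd (nat_lit 5) (.nd (nat_lit 6) (.nd (nat_lit 7) (.nd (nat_lit 8) (.nd (nat_lit 9) 
(.lf (nat_lit 539664) (.g (nat_lit 753) (.e (nat_lit 81939) (nat_lit 20) (.e (nat_lit 2390) (nat_lit 156) (.e (nat_lit 819221) (nat_lit 6) (.e (nat_lit 188427) (nat_lit 20) (.e (nat_lit 3279) (nat_lit 200) (.e (nat_lit 564992) (nat_lit 6) .nil)))))) (.g (nat_lit 1) (.e (nat_lit 269118) (nat_lit 0) .nil) .nil))) 
(.lf (nat_lit 540176) (.g (nat_lit 1351) (.e (nat_lit 90130) (nat_lit 9) (.e (nat_lit 2830) (nat_lit 182) (.e (nat_lit 409645) (nat_lit 18) (.e (nat_lit 303119) (nat_lit 3) .nil)))) (.g (nat_lit 0) (.e (nat_lit 270160) (nat_lit 0) .nil) .nil)))) (.nd (nat_lit 9) 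
(.lf (nat_lit 539920) (.g (nat_lit 1568) (.e (nat_lit 81947) (nat_lit 20) (.e (nat_lit 1842) (nat_lit 123) (.e (nat_lit 548891) (nat_lit 11) (.e (nat_lit 81923) (nat_lit 0) (.e (nat_lit 3305) (nat_lit 202) .nil))))) (.g (nat_lit 0) (.e (nat_lit 269520) (nat_lit 0) .nil) .nil))) 
(.lf (nat_lit 540432) (.g (nat_lit 2198) (.e (nat_lit 90167) (nat_lit 13) (.e (nat_lit 172097) (nat_lit 9) (.e (nat_lit 426140) (nat_lit 3) (.e (nat_lit 204845) (nat_lit 24) (.e (nat_lit 319530) (nat_lit 16) .nil))))) (.g (nat_lit 0) (.e (nat_lit 270749) (nat_lit 0) .nil) .nil))))) (.nd (nat_lit 8) (.nd (nat_lit 9) 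
(.lf (nat_lit 539792) (.g (nat_lit 1348) (.e (nat_lit 81943) (nat_lit 20) (.e (nat_lit 2390) (nat_lit 156) (.e (nat_lit 819204) (nat_lit 0) (.e (nat_lit 3022) (nat_lit 187) (.e (nat_lit 458496) (nat_lit 8) (.e (nat_lit 564992) (nat_lit 6) .nil)))))) (.g (nat_lit 1) (.e (nat_lit 269342) (nat_lit 0) .nil) .nil))) 
(.lf (nat_lit 540304) (.g (nat_lit 1834) (.e (nat_lit 90158) (nat_lit 11) (.e (nat_lit 24628) (nat_lit 9) (.e (nat_lit 336454) (nat_lit 34) (.e (nat_lit 483366) (nat_lit 18) (.e (nat_lit 57848) (nat_lit 252) (.e (nat_lit 57369) (nat_lit 2) .nil)))))) (.g (nat_lit 1) (.e (nat_lit 270533) (nat_lit 0) .nil) .nil)))) (.nd (nat_lit 9) 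
(.lf (nat_lit 540048) (.g (nat_lit 4620) (.e (nat_lit 81954) (nat_lit 23) (.e (nat_lit 98383) (nat_lit 32) (.e (nat_lit 475199) (nat_lit 40) (.e (nat_lit 704589) (nat_lit 3) (.e (nat_lit 163979) (nat_lit 30) (.e (nat_lit 573493) (nat_lit 15) .nil)))))) (.g (nat_lit 1) (.e (nat_lit 269798) (nat_lit 0) .nil) .nil))) 
(.lf (nat_lit 540560) (.g (nat_lit 1862) (.e (nat_lit 90169) (nat_lit 13) (.e (nat_lit 172133) (nat_lit 15) (.e (nat_lit 2058) (nat_lit 142) (.e (nat_lit 704589) (nat_lit 3) (.e (nat_lit 163975) (nat_lit 30) .nil))))) (.g (nat_lit 0) (.e (nat_lit 270908) (nat_lit 0) .nil) .nil)))))) (.nd (nat_lit 7) (.nd (nat_lit 8) (.nd (nat_lit 9) 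
(.lf (nat_lit 539728) (.g (nat_lit 379) (.e (nat_lit 81942) (nat_lit 20) (.e (nat_lit 2390) (nat_lit 156) (.e (nat_lit 819221) (nat_lit 6) (.e (nat_lit 188428) (nat_lit 20) (.e (nat_lit 3282) (nat_lit 200) (.e (nat_lit 564992) (nat_lit 6) .nil)))))) (.g (nat_lit 1) (.e (nat_lit 269204) (nat_lit 0) .nil) .nil))) 
(.lf (nat_lit 540240) (.g (nat_lit 3511) (.e (nat_lit 90134) (nat_lit 9) (.e (nat_lit 3025) (nat_lit 187) (.e (nat_lit 450588) (nat_lit 10) (.e (nat_lit 573474) (nat_lit 12) (.e (nat_lit 57572) (nat_lit 54) .nil))))) (.g (nat_lit 0) (.e (nat_lit 270366) (nat_lit 0) .nil) .nil)))) (.nd (nat_lit 9) 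
(.lf (nat_lit 539984) (.g (nat_lit 1345) (.e (nat_lit 81947) (nat_lit 20) (.e (nat_lit 2391) (nat_lit 156) (.e (nat_lit 819221) (nat_lit 6) (.e (nat_lit 188427) (nat_lit 20) (.e (nat_lit 3279) (nat_lit 200) (.e (nat_lit 564992) (nat_lit 6) .nil)))))) (.g (nat_lit 1) (.e (nat_lit 269611) (nat_lit 0) .nil) .nil))) 
(.lf (nat_lit 540496) (.g (nat_lit 1984) (.e (nat_lit 90168) (nat_lit 13) (.e (nat_lit 172067) (nat_lit 3) (.e (nat_lit 204838) (nat_lit 20) (.e (nat_lit 114719) (nat_lit 23) (.e (nat_lit 98334) (nat_lit 18) .nil))))) (.g (nat_lit 0) (.e (nat_lit 270830) (nat_lit 0) .nil) .nil))))) (.nd (nat_lit 8) (.nd (nat_lit 9) 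
(.lf (nat_lit 539856) (.g (nat_lit 1176) (.e (nat_lit 81946) (nat_lit 20) (.e (nat_lit 2281) (nat_lit 150) (.e (nat_lit 770072) (nat_lit 8) (.e (nat_lit 65616) (nat_lit 10) .nil)))) (.g (nat_lit 0) (.e (nat_lit 269431) (nat_lit 0) .nil) .nil))) 
(.lf (nat_lit 540368) (.g (nat_lit 1778) (.e (nat_lit 90165) (nat_lit 12) (.e (nat_lit 164048) (nat_lit 55) (.e (nat_lit 778469) (nat_lit 11) (.e (nat_lit 24604) (nat_lit 2) (.e (nat_lit 90176) (nat_lit 15) (.e (nat_lit 196352) (nat_lit 2) .nil)))))) (.g (nat_lit 1) (.e (nat_lit 270651) (nat_lit 0) .nil) .nil)))) (.nd (nat_lit 9) 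
(.lf (nat_lit 540112) (.g (nat_lit 1108) (.e (nat_lit 81956) (nat_lit 23) (.e (nat_lit 98384) (nat_lit 32) (.e (nat_lit 475219) (nat_lit 44) .nil))) (.g (nat_lit 0) (.e (nat_lit 269906) (nat_lit 0) .nil) .nil))) 
(.lf (nat_lit 540624) (.g (nat_lit 3596) (.e (nat_lit 90170) (nat_lit 13) (.e (nat_lit 172106) (nat_lit 10) (.e (nat_lit 434231) (nat_lit 23) (.e (nat_lit 532529) (nat_lit 9) (.e (nat_lit 343808) (nat_lit 1) (.e (nat_lit 57926) (nat_lit 282) (.e (nat_lit 171776) (nat_lit 63) .nil))))))) (.g (nat_lit 1) (.e (nat_lit 270981) (nat_lit 0) .nil) .nil))))))) 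
(.nd (nat_lit 6) (.nd (nat_lit 7) (.nd (nat_lit 8) (.nd (nat_lit 9) 
(.lf (nat_lit 539696) (.g (nat_lit 539) (.e (nat_lit 81939) (nat_lit 20) (.e (nat_lit 2391) (nat_lit 156) (.e (nat_lit 819221) (nat_lit 6) (.e (nat_lit 188428) (nat_lit 20) .nil)))) (.g (nat_lit 0) (.e (nat_lit 269159) (nat_lit 0) .nil) .nil))) 
(.lf (nat_lit 540208) (.g (nat_lit 1241) (.e (nat_lit 90130) (nat_lit 9) (.e (nat_lit 2830) (nat_lit 182) (.e (nat_lit 409649) (nat_lit 18) (.e (nat_lit 303117) (nat_lit 2) .nil)))) (.g (nat_lit 0) (.e (nat_lit 270223) (nat_lit 0) .nil) .nil)))) (.nd (nat_lit 9) 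
(.lf (nat_lit 539952) (.g (nat_lit 1128) (.e (nat_lit 81947) (nat_lit 20) (.e (nat_lit 2390) (nat_lit 156) (.e (nat_lit 819204) (nat_lit 0) (.e (nat_lit 3028) (nat_lit 187) (.e (nat_lit 458496) (nat_lit 8) (.e (nat_lit 564992) (nat_lit 6) .nil)))))) (.g (nat_lit 1) (.e (nat_lit 269562) (nat_lit 0) .nil) .nil))) 
(.lf (nat_lit 540464) (.g (nat_lit 2326) (.e (nat_lit 90167) (nat_lit 13) (.e (nat_lit 172126) (nat_lit 14) (.e (nat_lit 491537) (nat_lit 2) (.e (nat_lit 90173) (nat_lit 14) .nil)))) (.g (nat_lit 0) (.e (nat_lit 270785) (nat_lit 0) .nil) .nil))))) (.nd (nat_lit 8) (.nd (nat_lit 9) 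
(.lf (nat_lit 539824) (.g (nat_lit 397) (.e (nat_lit 81943) (nat_lit 20) (.e (nat_lit 2391) (nat_lit 156) (.e (nat_lit 819221) (nat_lit 6) .nil))) (.g (nat_lit 0) (.e (nat_lit 269382) (nat_lit 0) .nil) .nil))) 
(.lf (nat_lit 540336) (.g (nat_lit 2485) (.e (nat_lit 90159) (nat_lit 11) (.e (nat_lit 24627) (nat_lit 9) (.e (nat_lit 336454) (nat_lit 34) (.e (nat_lit 483363) (nat_lit 18) (.e (nat_lit 57845) (nat_lit 252) .nil))))) (.g (nat_lit 0) (.e (nat_lit 270569) (nat_lit 0) .nil) .nil)))) (.nd (nat_lit 9) 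
(.lf (nat_lit 540080) (.g (nat_lit 2380) (.e (nat_lit 81955) (nat_lit 23) (.e (nat_lit 98384) (nat_lit 32) (.e (nat_lit 475198) (nat_lit 40) (.e (nat_lit 704589) (nat_lit 3) (.e (nat_lit 163975) (nat_lit 30) .nil))))) (.g (nat_lit 0) (.e (nat_lit 269849) (nat_lit 0) .nil) .nil))) 
(.lf (nat_lit 540592) (.g (nat_lit 2038) (.e (nat_lit 90170) (nat_lit 13) (.e (nat_lit 172106) (nat_lit 10) (.e (nat_lit 434231) (nat_lit 23) (.e (nat_lit 532490) (nat_lit 0) (.e (nat_lit 7936) (nat_lit 332) .nil))))) (.g (nat_lit 0) (.e (nat_lit 270949) (nat_lit 0) .nil) .nil)))))) (.nd (nat_lit 7) (.nd (nat_lit 8) (.nd (nat_lit 9) 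
(.lf (nat_lit 539760) (.g (nat_lit 1681) (.e (nat_lit 81943) (nat_lit 20) (.e (nat_lit 1842) (nat_lit 123) (.e (nat_lit 548889) (nat_lit 9) (.e (nat_lit 65539) (nat_lit 0) .nil)))) (.g (nat_lit 0) (.e (nat_lit 269277) (nat_lit 0) .nil) .nil))) 
(.lf (nat_lit 540272) (.g (nat_lit 2859) (.e (nat_lit 90156) (nat_lit 11) (.e (nat_lit 24630) (nat_lit 9) (.e (nat_lit 336454) (nat_lit 34) (.e (nat_lit 483366) (nat_lit 18) (.e (nat_lit 57854) (nat_lit 252) .nil))))) (.g (nat_lit 0) (.e (nat_lit 270472) (nat_lit 0) .nil) .nil)))) (.nd (nat_lit 9) 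
(.lf (nat_lit 540016) (.g (nat_lit 995) (.e (nat_lit 81952) (nat_lit 22) (.e (nat_lit 90185) (nat_lit 17) (.e (nat_lit 237585) (nat_lit 1) .nil))) (.g (nat_lit 0) (.e (nat_lit 269723) (nat_lit 0) .nil) .nil))) 
(.lf (nat_lit 540528) (.g (nat_lit 686) (.e (nat_lit 90168) (nat_lit 13) (.e (nat_lit 172126) (nat_lit 14) (.e (nat_lit 491540) (nat_lit 3) .nil))) (.g (nat_lit 0) (.e (nat_lit 270866) (nat_lit 0) .nil) .nil))))) (.nd (nat_lit 8) (.nd (nat_lit 9) 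
(.lf (nat_lit 539888) (.g (nat_lit 1558) (.e (nat_lit 81946) (nat_lit 20) (.e (nat_lit 2391) (nat_lit 156) (.e (nat_lit 819203) (nat_lit 0) (.e (nat_lit 3016) (nat_lit 187) (.e (nat_lit 458496) (nat_lit 8) (.e (nat_lit 564992) (nat_lit 6) .nil)))))) (.g (nat_lit 1) (.e (nat_lit 269475) (nat_lit 0) .nil) .nil))) 
(.lf (nat_lit 540400) (.g (nat_lit 875) (.e (nat_lit 90166) (nat_lit 13) (.e (nat_lit 172126) (nat_lit 14) (.e (nat_lit 491540) (nat_lit 3) .nil))) (.g (nat_lit 0) (.e (nat_lit 270709) (nat_lit 0) .nil) .nil)))) (.nd (nat_lit 9) 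
(.lf (nat_lit 540144) (.g (nat_lit 1328) (.e (nat_lit 98048) (nat_lit 0) (.e (nat_lit 371) (nat_lit 32) (.e (nat_lit 426438) (nat_lit 18) (.e (nat_lit 98367) (nat_lit 27) .nil)))) (.g (nat_lit 0) (.e (nat_lit 269959) (nat_lit 0) .nil) .nil))) 
(.lf (nat_lit 540656) (.g (nat_lit 2822) (.e (nat_lit 90170) (nat_lit 13) (.e (nat_lit 172106) (nat_lit 10) (.e (nat_lit 434231) (nat_lit 23) (.e (nat_lit 532535) (nat_lit 9) (.e (nat_lit 336248) (nat_lit 15) (.e (nat_lit 2398) (nat_lit 157) (.e (nat_lit 6848) (nat_lit 371) (.e (nat_lit 999) (nat_lit 81) (.e (nat_lit 1239) (nat_lit 91) .nil))))))))) (.g (nat_lit 1) (.e (nat_lit 271013) (nat_lit 0) .nil) .nil))))))))) 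
(.nd (nat_lit 4) (.nd (nat_lit 5) (.nd (nat_lit 6) (.nd (nat_lit 7) (.nd (nat_lit 8) 
(.nd (nat_lit 9) 
(.lf (nat_lit 539656) (.g (nat_lit 979) (.e (nat_lit 81939) (nat_lit 20) (.e (nat_lit 2390) (nat_lit 156) (.e (nat_lit 819204) (nat_lit 0) (.e (nat_lit 3004) (nat_lit 186) (.e (nat_lit 450304) (nat_lit 2) (.e (nat_lit 98048) (nat_lit 6) .nil)))))) (.g (nat_lit 1) (.e (nat_lit 269108) (nat_lit 0) .nil) .nil))) 
(.lf (nat_lit 540168) (.g (nat_lit 1890) (.e (nat_lit 90130) (nat_lit 9) (.e (nat_lit 2830) (nat_lit 182) (.e (nat_lit 409623) (nat_lit 10) (.e (nat_lit 5664) (nat_lit 312) (.e (nat_lit 2679) (nat_lit 168) (.e (nat_lit 204878) (nat_lit 31) (.e (nat_lit 376862) (nat_lit 22) .nil))))))) (.g (nat_lit 1) (.e (nat_lit 270151) (nat_lit 0) .nil) .nil)))) (.nd (nat_lit 9) 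
(.lf (nat_lit 539912) (.g (nat_lit 2372) (.e (nat_lit 81947) (nat_lit 20) (.e (nat_lit 1781) (nat_lit 119) (.e (nat_lit 516179) (nat_lit 15) (.e (nat_lit 475199) (nat_lit 40) (.e (nat_lit 704589) (nat_lit 3) .nil))))) (.g (nat_lit 0) (.e (nat_lit 269503) (nat_lit 0) .nil) .nil))) 
(.lf (nat_lit 540424) (.g (nat_lit 1866) (.e (nat_lit 90167) (nat_lit 13) (.e (nat_lit 172067) (nat_lit 3) (.e (nat_lit 204838) (nat_lit 20) (.e (nat_lit 114708) (nat_lit 20) (.e (nat_lit 1800) (nat_lit 119) .nil))))) (.g (nat_lit 0) (.e (nat_lit 270734) (nat_lit 0) .nil) .nil))))) (.nd (nat_lit 8) (.nd (nat_lit 9) 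
(.lf (nat_lit 539784) (.g (nat_lit 649) (.e (nat_lit 81943) (nat_lit 20) (.e (nat_lit 2390) (nat_lit 156) (.e (nat_lit 819203) (nat_lit 0) (.e (nat_lit 3028) (nat_lit 187) (.e (nat_lit 458496) (nat_lit 8) (.e (nat_lit 564992) (nat_lit 6) .nil)))))) (.g (nat_lit 1) (.e (nat_lit 269332) (nat_lit 0) .nil) .nil))) 
(.lf (nat_lit 540296) (.g (nat_lit 4091) (.e (nat_lit 90158) (nat_lit 11) (.e (nat_lit 24628) (nat_lit 9) (.e (nat_lit 336366) (nat_lit 27) (.e (nat_lit 426499) (nat_lit 27) (.e (nat_lit 335986) (nat_lit 1) (.e (nat_lit 57849) (nat_lit 252) (.e (nat_lit 57375) (nat_lit 2) .nil))))))) (.g (nat_lit 1) (.e (nat_lit 270525) (nat_lit 0) .nil) .nil)))) (.nd (nat_lit 9) 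
(.lf (nat_lit 540040) (.g (nat_lit 725) (.e (nat_lit 81954) (nat_lit 23) (.e (nat_lit 98365) (nat_lit 26) (.e (nat_lit 426098) (nat_lit 1) .nil))) (.g (nat_lit 0) (.e (nat_lit 269773) (nat_lit 0) .nil) .nil))) 
(.lf (nat_lit 540552) (.g (nat_lit 3223) (.e (nat_lit 90169) (nat_lit 13) (.e (nat_lit 172122) (nat_lit 13) (.e (nat_lit 483337) (nat_lit 9) (.e (nat_lit 426108) (nat_lit 1) (.e (nat_lit 164401) (nat_lit 256) (.e (nat_lit 57373) (nat_lit 2) .nil)))))) (.g (nat_lit 1) (.e (nat_lit 270897) (nat_lit 0) .nil) .nil)))))) (.nd (nat_lit 7) (.nd (nat_lit 8) (.nd (nat_lit 9) 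
(.lf (nat_lit 539720) (.g (nat_lit 1298) (.e (nat_lit 81942) (nat_lit 20) (.e (nat_lit 2390) (nat_lit 156) (.e (nat_lit 819204) (nat_lit 0) (.e (nat_lit 3015) (nat_lit 187) (.e (nat_lit 458496) (nat_lit 8) .nil))))) (.g (nat_lit 0) (.e (nat_lit 269194) (nat_lit 0) .nil) .nil))) 
(.lf (nat_lit 540232) (.g (nat_lit 3580) (.e (nat_lit 90134) (nat_lit 9) (.e (nat_lit 3015) (nat_lit 187) (.e (nat_lit 450588) (nat_lit 10) (.e (nat_lit 573474) (nat_lit 12) (.e (nat_lit 57572) (nat_lit 54) .nil))))) (.g (nat_lit 0) (.e (nat_lit 270350) (nat_lit 0) .nil) .nil)))) (.nd (nat_lit 9) 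
(.lf (nat_lit 539976) (.g (nat_lit 1930) (.e (nat_lit 81947) (nat_lit 20) (.e (nat_lit 2391) (nat_lit 156) (.e (nat_lit 819204) (nat_lit 0) (.e (nat_lit 3022) (nat_lit 187) (.e (nat_lit 458496) (nat_lit 8) (.e (nat_lit 564992) (nat_lit 6) .nil)))))) (.g (nat_lit 1) (.e (nat_lit 269599) (nat_lit 0) .nil) .nil))) 
(.lf (nat_lit 540488) (.g (nat_lit 2090) (.e (nat_lit 90168) (nat_lit 13) (.e (nat_lit 172067) (nat_lit 3) (.e (nat_lit 204837) (nat_lit 20) (.e (nat_lit 114719) (nat_lit 23) (.e (nat_lit 98334) (nat_lit 18) .nil))))) (.g (nat_lit 0) (.e (nat_lit 270822) (nat_lit 0) .nil) .nil))))) (.nd (nat_lit 8) (.nd (nat_lit 9) 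
(.lf (nat_lit 539848) (.g (nat_lit 969) (.e (nat_lit 81946) (nat_lit 20) (.e (nat_lit 1886) (nat_lit 127) (.e (nat_lit 581652) (nat_lit 5) (.e (nat_lit 180288) (nat_lit 45) (.e (nat_lit 2579) (nat_lit 161) (.e (nat_lit 48896) (nat_lit 6) .nil)))))) (.g (nat_lit 1) (.e (nat_lit 269414) (nat_lit 0) .nil) .nil))) 
(.lf (nat_lit 540360) (.g (nat_lit 2924) (.e (nat_lit 90160) (nat_lit 11) (.e (nat_lit 24630) (nat_lit 9) (.e (nat_lit 336454) (nat_lit 34) (.e (nat_lit 483366) (nat_lit 18) (.e (nat_lit 57854) (nat_lit 252) .nil))))) (.g (nat_lit 0) (.e (nat_lit 270618) (nat_lit 0) .nil) .nil)))) (.nd (nat_lit 9) 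
(.lf (nat_lit 540104) (.g (nat_lit 4159) (.e (nat_lit 81956) (nat_lit 23) (.e (nat_lit 98350) (nat_lit 24) (.e (nat_lit 409649) (nat_lit 18) (.e (nat_lit 303117) (nat_lit 2) (.e (nat_lit 196673) (nat_lit 15) .nil))))) (.g (nat_lit 1) (.e (nat_lit 269882) (nat_lit 0) .nil) .nil))) 
(.lf (nat_lit 540616) (.g (nat_lit 1999) (.e (nat_lit 90170) (nat_lit 13) (.e (nat_lit 172106) (nat_lit 10) (.e (nat_lit 434231) (nat_lit 23) (.e (nat_lit 532523) (nat_lit 7) (.e (nat_lit 327424) (nat_lit 17) .nil))))) (.g (nat_lit 0) (.e (nat_lit 270973) (nat_lit 0) .nil) .nil))))))) (.nd (nat_lit 6) (.nd (nat_lit 7) (.nd (nat_lit 8) (.nd (nat_lit 9) 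
(.lf (nat_lit 539688) (.g (nat_lit 1100) (.e (nat_lit 81939) (nat_lit 20) (.e (nat_lit 2391) (nat_lit 156) (.e (nat_lit 819204) (nat_lit 0) (.e (nat_lit 3021) (nat_lit 187) (.e (nat_lit 458496) (nat_lit 8) (.e (nat_lit 564992) (nat_lit 6) .nil)))))) (.g (nat_lit 1) (.e (nat_lit 269151) (nat_lit 0) .nil) .nil))) 
(.lf (nat_lit 540200) (.g (nat_lit 3155) (.e (nat_lit 90130) (nat_lit 9) (.e (nat_lit 2830) (nat_lit 182) (.e (nat_lit 409648) (nat_lit 18) (.e (nat_lit 303119) (nat_lit 3) (.e (nat_lit 212736) (nat_lit 26) (.e (nat_lit 336158) (nat_lit 9) (.e (nat_lit 336012) (nat_lit 2) .nil))))))) (.g (nat_lit 1) (.e (nat_lit 270208) (nat_lit 0) .nil) .nil)))) (.nd (nat_lit 9) 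
(.lf (nat_lit 539944) (.g (nat_lit 1194) (.e (nat_lit 81947) (nat_lit 20) (.e (nat_lit 2390) (nat_lit 156) (.e (nat_lit 819204) (nat_lit 0) (.e (nat_lit 2998) (nat_lit 186) (.e (nat_lit 450304) (nat_lit 2) (.e (nat_lit 98048) (nat_lit 6) .nil)))))) (.g (nat_lit 1) (.e (nat_lit 269552) (nat_lit 0) .nil) .nil))) 
(.lf (nat_lit 540456) (.g (nat_lit 3644) (.e (nat_lit 90167) (nat_lit 13) (.e (nat_lit 172123) (nat_lit 13) (.e (nat_lit 483337) (nat_lit 9) (.e (nat_lit 426100) (nat_lit 1) (.e (nat_lit 164398) (nat_lit 256) (.e (nat_lit 57372) (nat_lit 2) .nil)))))) (.g (nat_lit 1) (.e (nat_lit 270773) (nat_lit 0) .nil) .nil))))) (.nd (nat_lit 8) (.nd (nat_lit 9) 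
(.lf (nat_lit 539816) (.g (nat_lit 1656) (.e (nat_lit 81943) (nat_lit 20) (.e (nat_lit 2391) (nat_lit 156) (.e (nat_lit 819204) (nat_lit 0) (.e (nat_lit 3004) (nat_lit 186) (.e (nat_lit 450304) (nat_lit 2) (.e (nat_lit 98048) (nat_lit 6) .nil)))))) (.g (nat_lit 1) (.e (nat_lit 269371) (nat_lit 0) .nil) .nil))) 
(.lf (nat_lit 540328) (.g (nat_lit 3909) (.e (nat_lit 90158) (nat_lit 11) (.e (nat_lit 24630) (nat_lit 9) (.e (nat_lit 336456) (nat_lit 34) (.e (nat_lit 483365) (nat_lit 18) (.e (nat_lit 57849) (nat_lit 252) (.e (nat_lit 57375) (nat_lit 2) .nil)))))) (.g (nat_lit 1) (.e (nat_lit 270557) (nat_lit 0) .nil) .nil)))) (.nd (nat_lit 9) 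
(.lf (nat_lit 540072) (.g (nat_lit 2410) (.e (nat_lit 81955) (nat_lit 23) (.e (nat_lit 98350) (nat_lit 24) (.e (nat_lit 409649) (nat_lit 18) (.e (nat_lit 303104) (nat_lit 0) (.e (nat_lit 3114) (nat_lit 193) (.e (nat_lit 500075) (nat_lit 20) .nil)))))) (.g (nat_lit 1) (.e (nat_lit 269837) (nat_lit 0) .nil) .nil))) 
(.lf (nat_lit 540584) (.g (nat_lit 4656) (.e (nat_lit 90170) (nat_lit 13) (.e (nat_lit 172105) (nat_lit 10) (.e (nat_lit 434247) (nat_lit 28) (.e (nat_lit 573477) (nat_lit 12) (.e (nat_lit 57574) (nat_lit 55) (.e (nat_lit 778466) (nat_lit 11) (.e (nat_lit 24604) (nat_lit 2) .nil))))))) (.g (nat_lit 1) (.e (nat_lit 270941) (nat_lit 0) .nil) .nil)))))) 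
(.nd (nat_lit 7) (.nd (nat_lit 8) (.nd (nat_lit 9) 
(.lf (nat_lit 539752) (.g (nat_lit 1993) (.e (nat_lit 81943) (nat_lit 20) (.e (nat_lit 1781) (nat_lit 119) (.e (nat_lit 516138) (nat_lit 7) (.e (nat_lit 409645) (nat_lit 18) (.e (nat_lit 303117) (nat_lit 2) .nil))))) (.g (nat_lit 0) (.e (nat_lit 269230) (nat_lit 0) .nil) .nil))) 
(.lf (nat_lit 540264) (.g (nat_lit 457) (.e (nat_lit 90156) (nat_lit 11) (.e (nat_lit 24627) (nat_lit 9) (.e (nat_lit 336454) (nat_lit 34) .nil))) (.g (nat_lit 0) (.e (nat_lit 270463) (nat_lit 0) .nil) .nil)))) (.nd (nat_lit 9) 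
(.lf (nat_lit 540008) (.g (nat_lit 960) (.e (nat_lit 81951) (nat_lit 22) (.e (nat_lit 90170) (nat_lit 13) (.e (nat_lit 172048) (nat_lit 0) .nil))) (.g (nat_lit 0) (.e (nat_lit 269698) (nat_lit 0) .nil) .nil))) 
(.lf (nat_lit 540520) (.g (nat_lit 3189) (.e (nat_lit 90168) (nat_lit 13) (.e (nat_lit 172123) (nat_lit 13) (.e (nat_lit 483337) (nat_lit 9) (.e (nat_lit 426100) (nat_lit 1) (.e (nat_lit 164398) (nat_lit 256) (.e (nat_lit 57373) (nat_lit 2) .nil)))))) (.g (nat_lit 1) (.e (nat_lit 270857) (nat_lit 0) .nil) .nil))))) (.nd (nat_lit 8) (.nd (nat_lit 9) 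
(.lf (nat_lit 539880) (.g (nat_lit 790) (.e (nat_lit 81946) (nat_lit 20) (.e (nat_lit 2390) (nat_lit 156) (.e (nat_lit 819221) (nat_lit 6) (.e (nat_lit 188428) (nat_lit 20) (.e (nat_lit 3282) (nat_lit 200) (.e (nat_lit 564992) (nat_lit 6) .nil)))))) (.g (nat_lit 1) (.e (nat_lit 269463) (nat_lit 0) .nil) .nil))) 
(.lf (nat_lit 540392) (.g (nat_lit 2233) (.e (nat_lit 90166) (nat_lit 13) (.e (nat_lit 172114) (nat_lit 10) (.e (nat_lit 434231) (nat_lit 23) (.e (nat_lit 532523) (nat_lit 7) (.e (nat_lit 319530) (nat_lit 16) .nil))))) (.g (nat_lit 0) (.e (nat_lit 270699) (nat_lit 0) .nil) .nil)))) (.nd (nat_lit 9) 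
(.lf (nat_lit 540136) (.g (nat_lit 2620) (.e (nat_lit 81959) (nat_lit 24) (.e (nat_lit 123195) (nat_lit 266) (.e (nat_lit 57350) (nat_lit 0) (.e (nat_lit 7936) (nat_lit 347) (.e (nat_lit 65637) (nat_lit 15) (.e (nat_lit 3632) (nat_lit 227) (.e (nat_lit 778327) (nat_lit 6) .nil))))))) (.g (nat_lit 1) (.e (nat_lit 269935) (nat_lit 0) .nil) .nil))) 
(.lf (nat_lit 540648) (.g (nat_lit 2570) (.e (nat_lit 90170) (nat_lit 13) (.e (nat_lit 172106) (nat_lit 10) (.e (nat_lit 434231) (nat_lit 23) (.e (nat_lit 532535) (nat_lit 9) (.e (nat_lit 335989) (nat_lit 1) (.e (nat_lit 57929) (nat_lit 282) (.e (nat_lit 171776) (nat_lit 63) .nil))))))) (.g (nat_lit 1) (.e (nat_lit 271005) (nat_lit 0) .nil) .nil)))))))) 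
(.nd (nat_lit 5) (.nd (nat_lit 6) (.nd (nat_lit 7) (.nd (nat_lit 8) (.nd (nat_lit 9) 
(.lf (nat_lit 539672) (.g (nat_lit 1029) (.e (nat_lit 81939) (nat_lit 20) (.e (nat_lit 2390) (nat_lit 156) (.e (nat_lit 819221) (nat_lit 6) (.e (nat_lit 188438) (nat_lit 20) (.e (nat_lit 3289) (nat_lit 201) (.e (nat_lit 565269) (nat_lit 6) .nil)))))) (.g (nat_lit 1) (.e (nat_lit 269126) (nat_lit 0) .nil) .nil))) 
(.lf (nat_lit 540184) (.g (nat_lit 998) (.e (nat_lit 90130) (nat_lit 9) (.e (nat_lit 2830) (nat_lit 182) (.e (nat_lit 409647) (nat_lit 18) (.e (nat_lit 303117) (nat_lit 2) .nil)))) (.g (nat_lit 0) (.e (nat_lit 270172) (nat_lit 0) .nil) .nil)))) (.nd (nat_lit 9) 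
(.lf (nat_lit 539928) (.g (nat_lit 955) (.e (nat_lit 81947) (nat_lit 20) (.e (nat_lit 1886) (nat_lit 127) (.e (nat_lit 581652) (nat_lit 5) (.e (nat_lit 180288) (nat_lit 45) (.e (nat_lit 2579) (nat_lit 161) (.e (nat_lit 48896) (nat_lit 6) .nil)))))) (.g (nat_lit 1) (.e (nat_lit 269528) (nat_lit 0) .nil) .nil))) 
(.lf (nat_lit 540440) (.g (nat_lit 2251) (.e (nat_lit 90167) (nat_lit 13) (.e (nat_lit 172113) (nat_lit 10) (.e (nat_lit 434248) (nat_lit 28) (.e (nat_lit 573475) (nat_lit 12) (.e (nat_lit 57574) (nat_lit 55) .nil))))) (.g (nat_lit 0) (.e (nat_lit 270757) (nat_lit 0) .nil) .nil))))) (.nd (nat_lit 8) (.nd (nat_lit 9) 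
(.lf (nat_lit 539800) (.g (nat_lit 570) (.e (nat_lit 81943) (nat_lit 20) (.e (nat_lit 2390) (nat_lit 156) (.e (nat_lit 819221) (nat_lit 6) (.e (nat_lit 188430) (nat_lit 20) (.e (nat_lit 3282) (nat_lit 200) (.e (nat_lit 564992) (nat_lit 6) .nil)))))) (.g (nat_lit 1) (.e (nat_lit 269351) (nat_lit 0) .nil) .nil))) 
(.lf (nat_lit 540312) (.g (nat_lit 2942) (.e (nat_lit 90158) (nat_lit 11) (.e (nat_lit 24628) (nat_lit 9) (.e (nat_lit 336456) (nat_lit 34) (.e (nat_lit 483365) (nat_lit 18) (.e (nat_lit 57849) (nat_lit 252) (.e (nat_lit 57370) (nat_lit 2) .nil)))))) (.g (nat_lit 1) (.e (nat_lit 270541) (nat_lit 0) .nil) .nil)))) (.nd (nat_lit 9) 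
(.lf (nat_lit 540056) (.g (nat_lit 2616) (.e (nat_lit 81954) (nat_lit 23) (.e (nat_lit 98386) (nat_lit 32) (.e (nat_lit 475199) (nat_lit 40) (.e (nat_lit 704589) (nat_lit 3) (.e (nat_lit 163975) (nat_lit 30) (.e (nat_lit 573492) (nat_lit 15) .nil)))))) (.g (nat_lit 1) (.e (nat_lit 269819) (nat_lit 0) .nil) .nil))) 
(.lf (nat_lit 540568) (.g (nat_lit 2145) (.e (nat_lit 90170) (nat_lit 13) (.e (nat_lit 172065) (nat_lit 3) (.e (nat_lit 204837) (nat_lit 20) (.e (nat_lit 114719) (nat_lit 23) (.e (nat_lit 98332) (nat_lit 18) .nil))))) (.g (nat_lit 0) (.e (nat_lit 270921) (nat_lit 0) .nil) .nil)))))) (.nd (nat_lit 7) (.nd (nat_lit 8) (.nd (nat_lit 9) 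
(.lf (nat_lit 539736) (.g (nat_lit 932) (.e (nat_lit 81942) (nat_lit 20) (.e (nat_lit 2391) (nat_lit 156) (.e (nat_lit 819203) (nat_lit 0) (.e (nat_lit 3027) (nat_lit 187) (.e (nat_lit 458496) (nat_lit 8) (.e (nat_lit 564992) (nat_lit 6) .nil)))))) (.g (nat_lit 1) (.e (nat_lit 269213) (nat_lit 0) .nil) .nil))) 
(.lf (nat_lit 540248) (.g (nat_lit 2672) (.e (nat_lit 90134) (nat_lit 9) (.e (nat_lit 3098) (nat_lit 192) (.e (nat_lit 491569) (nat_lit 13) (.e (nat_lit 393234) (nat_lit 17) (.e (nat_lit 3555) (nat_lit 220) (.e (nat_lit 720956) (nat_lit 25) (.e (nat_lit 114715) (nat_lit 22) .nil))))))) (.g (nat_lit 1) (.e (nat_lit 270383) (nat_lit 0) .nil) .nil)))) (.nd (nat_lit 9) 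
(.lf (nat_lit 539992) (.g (nat_lit 2064) (.e (nat_lit 81947) (nat_lit 20) (.e (nat_lit 2391) (nat_lit 156) (.e (nat_lit 819221) (nat_lit 6) (.e (nat_lit 188441) (nat_lit 20) (.e (nat_lit 3289) (nat_lit 201) (.e (nat_lit 565269) (nat_lit 6) .nil)))))) (.g (nat_lit 1) (.e (nat_lit 269619) (nat_lit 0) .nil) .nil))) 
(.lf (nat_lit 540504) (.g (nat_lit 2607) (.e (nat_lit 90168) (nat_lit 13) (.e (nat_lit 172115) (nat_lit 10) (.e (nat_lit 434231) (nat_lit 23) (.e (nat_lit 532490) (nat_lit 0) (.e (nat_lit 6149) (nat_lit 332) .nil))))) (.g (nat_lit 0) (.e (nat_lit 270841) (nat_lit 0) .nil) .nil))))) (.nd (nat_lit 8) (.nd (nat_lit 9) 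
(.lf (nat_lit 539864) (.g (nat_lit 1011) (.e (nat_lit 81946) (nat_lit 20) (.e (nat_lit 2390) (nat_lit 156) (.e (nat_lit 819203) (nat_lit 0) (.e (nat_lit 3027) (nat_lit 187) (.e (nat_lit 458496) (nat_lit 8) (.e (nat_lit 564992) (nat_lit 6) .nil)))))) (.g (nat_lit 1) (.e (nat_lit 269443) (nat_lit 0) .nil) .nil))) 
(.lf (nat_lit 540376) (.g (nat_lit 1856) (.e (nat_lit 90165) (nat_lit 12) (.e (nat_lit 164214) (nat_lit 176) (.e (nat_lit 2797) (nat_lit 180) (.e (nat_lit 303117) (nat_lit 2) (.e (nat_lit 196674) (nat_lit 15) .nil))))) (.g (nat_lit 0) (.e (nat_lit 270673) (nat_lit 0) .nil) .nil)))) (.nd (nat_lit 9) 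
(.lf (nat_lit 540120) (.g (nat_lit 403) (.e (nat_lit 89856) (nat_lit 23) (.e (nat_lit 98358) (nat_lit 26) (.e (nat_lit 426444) (nat_lit 19) .nil))) (.g (nat_lit 0) (.e (nat_lit 269915) (nat_lit 0) .nil) .nil))) 
(.lf (nat_lit 540632) (.g (nat_lit 3181) (.e (nat_lit 90170) (nat_lit 13) (.e (nat_lit 172106) (nat_lit 10) (.e (nat_lit 434231) (nat_lit 23) (.e (nat_lit 532535) (nat_lit 9) (.e (nat_lit 335919) (nat_lit 0) .nil))))) (.g (nat_lit 0) (.e (nat_lit 270989) (nat_lit 0) .nil) .nil))))))) (.nd (nat_lit 6) (.nd (nat_lit 7) (.nd (nat_lit 8) (.nd (nat_lit 9) 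
(.lf (nat_lit 539704) (.g (nat_lit 1520) (.e (nat_lit 81941) (nat_lit 20) (.e (nat_lit 1788) (nat_lit 119) (.e (nat_lit 516139) (nat_lit 7) (.e (nat_lit 409616) (nat_lit 10) (.e (nat_lit 7936) (nat_lit 312) .nil))))) (.g (nat_lit 0) (.e (nat_lit 269167) (nat_lit 0) .nil) .nil))) 
(.lf (nat_lit 540216) (.g (nat_lit 2941) (.e (nat_lit 90130) (nat_lit 9) (.e (nat_lit 3071) (nat_lit 190) (.e (nat_lit 475199) (nat_lit 40) (.e (nat_lit 704589) (nat_lit 3) (.e (nat_lit 163978) (nat_lit 30) .nil))))) (.g (nat_lit 0) (.e (nat_lit 270265) (nat_lit 0) .nil) .nil)))) (.nd (nat_lit 9) 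
(.lf (nat_lit 539960) (.g (nat_lit 1217) (.e (nat_lit 81947) (nat_lit 20) (.e (nat_lit 2391) (nat_lit 156) (.e (nat_lit 819203) (nat_lit 0) (.e (nat_lit 2998) (nat_lit 186) (.e (nat_lit 450304) (nat_lit 2) (.e (nat_lit 98048) (nat_lit 6) .nil)))))) (.g (nat_lit 1) (.e (nat_lit 269572) (nat_lit 0) .nil) .nil))) 
(.lf (nat_lit 540472) (.g (nat_lit 1311) (.e (nat_lit 90167) (nat_lit 13) (.e (nat_lit 172126) (nat_lit 14) (.e (nat_lit 491540) (nat_lit 3) (.e (nat_lit 98352) (nat_lit 25) .nil)))) (.g (nat_lit 0) (.e (nat_lit 270797) (nat_lit 0) .nil) .nil))))) (.nd (nat_lit 8) (.nd (nat_lit 9) 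
(.lf (nat_lit 539832) (.g (nat_lit 1458) (.e (nat_lit 81943) (nat_lit 20) (.e (nat_lit 2391) (nat_lit 156) (.e (nat_lit 819221) (nat_lit 6) (.e (nat_lit 188431) (nat_lit 20) (.e (nat_lit 3282) (nat_lit 200) (.e (nat_lit 564992) (nat_lit 6) .nil)))))) (.g (nat_lit 1) (.e (nat_lit 269390) (nat_lit 0) .nil) .nil))) 
(.lf (nat_lit 540344) (.g (nat_lit 2799) (.e (nat_lit 90159) (nat_lit 11) (.e (nat_lit 24657) (nat_lit 13) (.e (nat_lit 393229) (nat_lit 9) (.e (nat_lit 335993) (nat_lit 1) (.e (nat_lit 57848) (nat_lit 252) (.e (nat_lit 57372) (nat_lit 2) .nil)))))) (.g (nat_lit 1) (.e (nat_lit 270582) (nat_lit 0) .nil) .nil)))) (.nd (nat_lit 9) 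
(.lf (nat_lit 540088) (.g (nat_lit 4763) (.e (nat_lit 81956) (nat_lit 23) (.e (nat_lit 98320) (nat_lit 17) (.e (nat_lit 7110) (nat_lit 380) (.e (nat_lit 164359) (nat_lit 246) (.e (nat_lit 2661) (nat_lit 167) (.e (nat_lit 196673) (nat_lit 15) .nil)))))) (.g (nat_lit 1) (.e (nat_lit 269857) (nat_lit 0) .nil) .nil))) 
(.lf (nat_lit 540600) (.g (nat_lit 3829) (.e (nat_lit 90170) (nat_lit 13) (.e (nat_lit 172106) (nat_lit 10) (.e (nat_lit 434231) (nat_lit 23) (.e (nat_lit 532500) (nat_lit 1) (.e (nat_lit 65280) (nat_lit 233) (.e (nat_lit 2553) (nat_lit 159) (.e (nat_lit 24604) (nat_lit 2) .nil))))))) (.g (nat_lit 1) (.e (nat_lit 270957) (nat_lit 0) .nil) .nil)))))) 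
(.nd (nat_lit 7) (.nd (nat_lit 8) (.nd (nat_lit 9) 
(.lf (nat_lit 539768) (.g (nat_lit 816) (.e (nat_lit 81943) (nat_lit 20) (.e (nat_lit 1886) (nat_lit 127) (.e (nat_lit 581652) (nat_lit 5) (.e (nat_lit 180285) (nat_lit 45) (.e (nat_lit 2579) (nat_lit 161) (.e (nat_lit 48896) (nat_lit 6) .nil)))))) (.g (nat_lit 1) (.e (nat_lit 269308) (nat_lit 0) .nil) .nil))) 
(.lf (nat_lit 540280) (.g (nat_lit 3508) (.e (nat_lit 90157) (nat_lit 11) (.e (nat_lit 24665) (nat_lit 14) (.e (nat_lit 401427) (nat_lit 3) (.e (nat_lit 204882) (nat_lit 32) (.e (nat_lit 392960) (nat_lit 42) .nil))))) (.g (nat_lit 0) (.e (nat_lit 270483) (nat_lit 0) .nil) .nil)))) (.nd (nat_lit 9) 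
(.lf (nat_lit 540024) (.g (nat_lit 395) (.e (nat_lit 81953) (nat_lit 22) (.e (nat_lit 90170) (nat_lit 13) (.e (nat_lit 172070) (nat_lit 4) .nil))) (.g (nat_lit 0) (.e (nat_lit 269735) (nat_lit 0) .nil) .nil))) 
(.lf (nat_lit 540536) (.g (nat_lit 1713) (.e (nat_lit 90169) (nat_lit 13) (.e (nat_lit 172111) (nat_lit 10) (.e (nat_lit 434248) (nat_lit 28) (.e (nat_lit 573475) (nat_lit 12) (.e (nat_lit 57574) (nat_lit 55) .nil))))) (.g (nat_lit 0) (.e (nat_lit 270881) (nat_lit 0) .nil) .nil))))) (.nd (nat_lit 8) (.nd (nat_lit 9) 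
(.lf (nat_lit 539896) (.g (nat_lit 1593) (.e (nat_lit 81946) (nat_lit 20) (.e (nat_lit 2391) (nat_lit 156) (.e (nat_lit 819204) (nat_lit 0) (.e (nat_lit 2999) (nat_lit 186) (.e (nat_lit 450304) (nat_lit 2) (.e (nat_lit 98048) (nat_lit 6) .nil)))))) (.g (nat_lit 1) (.e (nat_lit 269484) (nat_lit 0) .nil) .nil))) 
(.lf (nat_lit 540408) (.g (nat_lit 1488) (.e (nat_lit 90167) (nat_lit 13) (.e (nat_lit 172065) (nat_lit 3) (.e (nat_lit 204838) (nat_lit 20) (.e (nat_lit 114708) (nat_lit 20) .nil)))) (.g (nat_lit 0) (.e (nat_lit 270718) (nat_lit 0) .nil) .nil)))) (.nd (nat_lit 9) 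
(.lf (nat_lit 540152) (.g (nat_lit 2861) (.e (nat_lit 90121) (nat_lit 9) (.e (nat_lit 3015) (nat_lit 187) (.e (nat_lit 450588) (nat_lit 10) (.e (nat_lit 573474) (nat_lit 12) .nil)))) (.g (nat_lit 0) (.e (nat_lit 270017) (nat_lit 0) .nil) .nil))) 
(.lf (nat_lit 540664) (.g (nat_lit 1946) (.e (nat_lit 90170) (nat_lit 13) (.e (nat_lit 172106) (nat_lit 10) (.e (nat_lit 434244) (nat_lit 28) (.e (nat_lit 573451) (nat_lit 9) (.e (nat_lit 396) (nat_lit 32) .nil))))) (.g (nat_lit 0) (.e (nat_lit 271021) (nat_lit 0) .nil) .nil)))))))))) 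
(.nd (nat_lit 3) (.nd (nat_lit 4) (.nd (nat_lit 5) (.nd (nat_lit 6) (.nd (nat_lit 7) 
(.nd (nat_lit 8) (.nd (nat_lit 9) 
(.lf (nat_lit 539652) (.g (nat_lit 492) (.e (nat_lit 81939) (nat_lit 20) (.e (nat_lit 2390) (nat_lit 156) (.e (nat_lit 819203) (nat_lit 0) (.e (nat_lit 3028) (nat_lit 187) (.e (nat_lit 458496) (nat_lit 8) (.e (nat_lit 564992) (nat_lit 6) .nil)))))) (.g (nat_lit 1) (.e (nat_lit 269104) (nat_lit 0) .nil) .nil))) 
(.lf (nat_lit 540164) (.g (nat_lit 1781) (.e (nat_lit 90130) (nat_lit 9) (.e (nat_lit 2612) (nat_lit 163) (.e (nat_lit 164329) (nat_lit 230) (.e (nat_lit 163902) (nat_lit 12) (.e (nat_lit 426568) (nat_lit 34) .nil))))) (.g (nat_lit 0) (.e (nat_lit 270144) (nat_lit 0) .nil) .nil)))) (.nd (nat_lit 9) 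
(.lf (nat_lit 539908) (.g (nat_lit 1173) (.e (nat_lit 81946) (nat_lit 20) (.e (nat_lit 2391) (nat_lit 156) (.e (nat_lit 819221) (nat_lit 6) (.e (nat_lit 188428) (nat_lit 20) (.e (nat_lit 3282) (nat_lit 200) (.e (nat_lit 564992) (nat_lit 6) .nil)))))) (.g (nat_lit 1) (.e (nat_lit 269499) (nat_lit 0) .nil) .nil))) 
(.lf (nat_lit 540420) (.g (nat_lit 2260) (.e (nat_lit 90167) (nat_lit 13) (.e (nat_lit 172067) (nat_lit 3) (.e (nat_lit 204837) (nat_lit 20) (.e (nat_lit 114718) (nat_lit 23) (.e (nat_lit 98333) (nat_lit 18) .nil))))) (.g (nat_lit 0) (.e (nat_lit 270730) (nat_lit 0) .nil) .nil))))) (.nd (nat_lit 8) (.nd (nat_lit 9) 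
(.lf (nat_lit 539780) (.g (nat_lit 1002) (.e (nat_lit 81943) (nat_lit 20) (.e (nat_lit 2390) (nat_lit 156) (.e (nat_lit 819203) (nat_lit 0) (.e (nat_lit 3016) (nat_lit 187) (.e (nat_lit 458496) (nat_lit 8) (.e (nat_lit 564992) (nat_lit 6) .nil)))))) (.g (nat_lit 1) (.e (nat_lit 269328) (nat_lit 0) .nil) .nil))) 
(.lf (nat_lit 540292) (.g (nat_lit 5287) (.e (nat_lit 90158) (nat_lit 11) (.e (nat_lit 24608) (nat_lit 3) (.e (nat_lit 98342) (nat_lit 20) (.e (nat_lit 221215) (nat_lit 23) (.e (nat_lit 204829) (nat_lit 18) (.e (nat_lit 57847) (nat_lit 252) (.e (nat_lit 57370) (nat_lit 2) .nil))))))) (.g (nat_lit 1) (.e (nat_lit 270519) (nat_lit 0) .nil) .nil)))) (.nd (nat_lit 9) 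
(.lf (nat_lit 540036) (.g (nat_lit 1081) (.e (nat_lit 81954) (nat_lit 23) (.e (nat_lit 98358) (nat_lit 26) (.e (nat_lit 426354) (nat_lit 15) .nil))) (.g (nat_lit 0) (.e (nat_lit 269763) (nat_lit 0) .nil) .nil))) 
(.lf (nat_lit 540548) (.g (nat_lit 1555) (.e (nat_lit 90169) (nat_lit 13) (.e (nat_lit 172121) (nat_lit 13) (.e (nat_lit 483337) (nat_lit 9) (.e (nat_lit 426108) (nat_lit 1) (.e (nat_lit 164401) (nat_lit 256) .nil))))) (.g (nat_lit 0) (.e (nat_lit 270893) (nat_lit 0) .nil) .nil)))))) (.nd (nat_lit 7) (.nd (nat_lit 8) (.nd (nat_lit 9) 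
(.lf (nat_lit 539716) (.g (nat_lit 830) (.e (nat_lit 81942) (nat_lit 20) (.e (nat_lit 2390) (nat_lit 156) (.e (nat_lit 819203) (nat_lit 0) (.e (nat_lit 3022) (nat_lit 187) (.e (nat_lit 458496) (nat_lit 8) (.e (nat_lit 564992) (nat_lit 6) .nil)))))) (.g (nat_lit 1) (.e (nat_lit 269190) (nat_lit 0) .nil) .nil))) 
(.lf (nat_lit 540228) (.g (nat_lit 407) (.e (nat_lit 90134) (nat_lit 9) (.e (nat_lit 2828) (nat_lit 182) (.e (nat_lit 409646) (nat_lit 18) .nil))) (.g (nat_lit 0) (.e (nat_lit 270319) (nat_lit 0) .nil) .nil)))) (.nd (nat_lit 9) 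
(.lf (nat_lit 539972) (.g (nat_lit 1707) (.e (nat_lit 81947) (nat_lit 20) (.e (nat_lit 2391) (nat_lit 156) (.e (nat_lit 819204) (nat_lit 0) (.e (nat_lit 3004) (nat_lit 186) (.e (nat_lit 450304) (nat_lit 2) (.e (nat_lit 98048) (nat_lit 6) .nil)))))) (.g (nat_lit 1) (.e (nat_lit 269592) (nat_lit 0) .nil) .nil))) 
(.lf (nat_lit 540484) (.g (nat_lit 1850) (.e (nat_lit 90168) (nat_lit 13) (.e (nat_lit 172067) (nat_lit 3) (.e (nat_lit 204837) (nat_lit 20) (.e (nat_lit 114717) (nat_lit 23) .nil)))) (.g (nat_lit 0) (.e (nat_lit 270818) (nat_lit 0) .nil) .nil))))) (.nd (nat_lit 8) (.nd (nat_lit 9) 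
(.lf (nat_lit 539844) (.g (nat_lit 1029) (.e (nat_lit 81946) (nat_lit 20) (.e (nat_lit 1886) (nat_lit 127) (.e (nat_lit 581652) (nat_lit 5) (.e (nat_lit 180285) (nat_lit 45) (.e (nat_lit 2579) (nat_lit 161) (.e (nat_lit 48896) (nat_lit 6) .nil)))))) (.g (nat_lit 1) (.e (nat_lit 269410) (nat_lit 0) .nil) .nil))) 
(.lf (nat_lit 540356) (.g (nat_lit 1916) (.e (nat_lit 90160) (nat_lit 11) (.e (nat_lit 24630) (nat_lit 9) (.e (nat_lit 336454) (nat_lit 34) (.e (nat_lit 483364) (nat_lit 18) (.e (nat_lit 57851) (nat_lit 252) .nil))))) (.g (nat_lit 0) (.e (nat_lit 270614) (nat_lit 0) .nil) .nil)))) (.nd (nat_lit 9) 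
(.lf (nat_lit 540100) (.g (nat_lit 3834) (.e (nat_lit 81956) (nat_lit 23) (.e (nat_lit 98350) (nat_lit 24) (.e (nat_lit 409646) (nat_lit 18) (.e (nat_lit 303117) (nat_lit 2) (.e (nat_lit 196672) (nat_lit 15) .nil))))) (.g (nat_lit 1) (.e (nat_lit 269878) (nat_lit 0) .nil) .nil))) 
(.lf (nat_lit 540612) (.g (nat_lit 3181) (.e (nat_lit 90170) (nat_lit 13) (.e (nat_lit 172106) (nat_lit 10) (.e (nat_lit 434231) (nat_lit 23) (.e (nat_lit 532523) (nat_lit 7) (.e (nat_lit 319530) (nat_lit 16) (.e (nat_lit 294656) (nat_lit 2) .nil)))))) (.g (nat_lit 1) (.e (nat_lit 270969) (nat_lit 0) .nil) .nil))))))) (.nd (nat_lit 6) (.nd (nat_lit 7) (.nd (nat_lit 8) (.nd (nat_lit 9) 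
(.lf (nat_lit 539684) (.g (nat_lit 1157) (.e (nat_lit 81939) (nat_lit 20) (.e (nat_lit 2391) (nat_lit 156) (.e (nat_lit 819204) (nat_lit 0) (.e (nat_lit 2998) (nat_lit 186) (.e (nat_lit 450304) (nat_lit 2) (.e (nat_lit 98048) (nat_lit 6) .nil)))))) (.g (nat_lit 1) (.e (nat_lit 269144) (nat_lit 0) .nil) .nil))) 
(.lf (nat_lit 540196) (.g (nat_lit 2429) (.e (nat_lit 90130) (nat_lit 9) (.e (nat_lit 2830) (nat_lit 182) (.e (nat_lit 409648) (nat_lit 18) (.e (nat_lit 303117) (nat_lit 2) (.e (nat_lit 196674) (nat_lit 15) .nil))))) (.g (nat_lit 0) (.e (nat_lit 270192) (nat_lit 0) .nil) .nil)))) (.nd (nat_lit 9) 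
(.lf (nat_lit 539940) (.g (nat_lit 1002) (.e (nat_lit 81947) (nat_lit 20) (.e (nat_lit 2390) (nat_lit 156) (.e (nat_lit 819203) (nat_lit 0) (.e (nat_lit 3027) (nat_lit 187) (.e (nat_lit 458496) (nat_lit 8) (.e (nat_lit 564992) (nat_lit 6) .nil)))))) (.g (nat_lit 1) (.e (nat_lit 269547) (nat_lit 0) .nil) .nil))) 
(.lf (nat_lit 540452) (.g (nat_lit 367) (.e (nat_lit 90167) (nat_lit 13) (.e (nat_lit 172121) (nat_lit 13) (.e (nat_lit 483337) (nat_lit 9) .nil))) (.g (nat_lit 0) (.e (nat_lit 270769) (nat_lit 0) .nil) .nil))))) (.nd (nat_lit 8) (.nd (nat_lit 9) 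
(.lf (nat_lit 539812) (.g (nat_lit 1429) (.e (nat_lit 81943) (nat_lit 20) (.e (nat_lit 2391) (nat_lit 156) (.e (nat_lit 819204) (nat_lit 0) (.e (nat_lit 2988) (nat_lit 186) (.e (nat_lit 450304) (nat_lit 2) (.e (nat_lit 98048) (nat_lit 6) .nil)))))) (.g (nat_lit 1) (.e (nat_lit 269366) (nat_lit 0) .nil) .nil))) 
(.lf (nat_lit 540324) (.g (nat_lit 3179) (.e (nat_lit 90158) (nat_lit 11) (.e (nat_lit 24630) (nat_lit 9) (.e (nat_lit 336456) (nat_lit 34) (.e (nat_lit 483364) (nat_lit 18) (.e (nat_lit 57852) (nat_lit 252) (.e (nat_lit 57370) (nat_lit 2) .nil)))))) (.g (nat_lit 1) (.e (nat_lit 270553) (nat_lit 0) .nil) .nil)))) (.nd (nat_lit 9) 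
(.lf (nat_lit 540068) (.g (nat_lit 2018) (.e (nat_lit 81955) (nat_lit 23) (.e (nat_lit 98350) (nat_lit 24) (.e (nat_lit 409647) (nat_lit 18) (.e (nat_lit 303106) (nat_lit 0) (.e (nat_lit 3114) (nat_lit 193) (.e (nat_lit 500075) (nat_lit 20) .nil)))))) (.g (nat_lit 1) (.e (nat_lit 269833) (nat_lit 0) .nil) .nil))) 
(.lf (nat_lit 540580) (.g (nat_lit 3371) (.e (nat_lit 90170) (nat_lit 13) (.e (nat_lit 172067) (nat_lit 3) (.e (nat_lit 204831) (nat_lit 18) (.e (nat_lit 57692) (nat_lit 156) (.e (nat_lit 163875) (nat_lit 3) (.e (nat_lit 204838) (nat_lit 20) (.e (nat_lit 114715) (nat_lit 22) .nil))))))) (.g (nat_lit 1) (.e (nat_lit 270937) (nat_lit 0) .nil) .nil)))))) 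
(.nd (nat_lit 7) (.nd (nat_lit 8) (.nd (nat_lit 9) 
(.lf (nat_lit 539748) (.g (nat_lit 748) (.e (nat_lit 81942) (nat_lit 20) (.e (nat_lit 2391) (nat_lit 156) (.e (nat_lit 819221) (nat_lit 6) (.e (nat_lit 188428) (nat_lit 20) (.e (nat_lit 3282) (nat_lit 200) (.e (nat_lit 564992) (nat_lit 6) .nil)))))) (.g (nat_lit 1) (.e (nat_lit 269226) (nat_lit 0) .nil) .nil))) 
(.lf (nat_lit 540260) (.g (nat_lit 1008) (.e (nat_lit 98048) (nat_lit 9) (.e (nat_lit 3062) (nat_lit 190) (.e (nat_lit 475199) (nat_lit 40) (.e (nat_lit 704589) (nat_lit 3) .nil)))) (.g (nat_lit 0) (.e (nat_lit 270455) (nat_lit 0) .nil) .nil)))) (.nd (nat_lit 9) 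
(.lf (nat_lit 540004) (.g (nat_lit 4182) (.e (nat_lit 81951) (nat_lit 22) (.e (nat_lit 90134) (nat_lit 9) (.e (nat_lit 3098) (nat_lit 192) (.e (nat_lit 491566) (nat_lit 12) (.e (nat_lit 385074) (nat_lit 31) (.e (nat_lit 573491) (nat_lit 15) .nil)))))) (.g (nat_lit 1) (.e (nat_lit 269694) (nat_lit 0) .nil) .nil))) 
(.lf (nat_lit 540516) (.g (nat_lit 1393) (.e (nat_lit 90168) (nat_lit 13) (.e (nat_lit 172123) (nat_lit 13) (.e (nat_lit 483337) (nat_lit 9) (.e (nat_lit 426098) (nat_lit 1) (.e (nat_lit 164398) (nat_lit 256) .nil))))) (.g (nat_lit 0) (.e (nat_lit 270853) (nat_lit 0) .nil) .nil))))) (.nd (nat_lit 8) (.nd (nat_lit 9) 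
(.lf (nat_lit 539876) (.g (nat_lit 1134) (.e (nat_lit 81946) (nat_lit 20) (.e (nat_lit 2390) (nat_lit 156) (.e (nat_lit 819204) (nat_lit 0) (.e (nat_lit 3028) (nat_lit 187) (.e (nat_lit 458496) (nat_lit 8) (.e (nat_lit 564992) (nat_lit 6) .nil)))))) (.g (nat_lit 1) (.e (nat_lit 269457) (nat_lit 0) .nil) .nil))) 
(.lf (nat_lit 540388) (.g (nat_lit 2085) (.e (nat_lit 90166) (nat_lit 13) (.e (nat_lit 172113) (nat_lit 10) (.e (nat_lit 434247) (nat_lit 28) (.e (nat_lit 573477) (nat_lit 12) (.e (nat_lit 57575) (nat_lit 55) .nil))))) (.g (nat_lit 0) (.e (nat_lit 270695) (nat_lit 0) .nil) .nil)))) (.nd (nat_lit 9) 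
(.lf (nat_lit 540132) (.g (nat_lit 2936) (.e (nat_lit 81957) (nat_lit 24) (.e (nat_lit 123197) (nat_lit 266) (.e (nat_lit 57436) (nat_lit 17) (.e (nat_lit 376835) (nat_lit 0) (.e (nat_lit 3632) (nat_lit 227) (.e (nat_lit 778326) (nat_lit 6) .nil)))))) (.g (nat_lit 1) (.e (nat_lit 269928) (nat_lit 0) .nil) .nil))) 
(.lf (nat_lit 540644) (.g (nat_lit 3015) (.e (nat_lit 90170) (nat_lit 13) (.e (nat_lit 172106) (nat_lit 10) (.e (nat_lit 434231) (nat_lit 23) (.e (nat_lit 532535) (nat_lit 9) (.e (nat_lit 335985) (nat_lit 1) (.e (nat_lit 57929) (nat_lit 282) (.e (nat_lit 171776) (nat_lit 63) .nil))))))) (.g (nat_lit 1) (.e (nat_lit 271001) (nat_lit 0) .nil) .nil)))))))) 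
(.nd (nat_lit 5) (.nd (nat_lit 6) (.nd (nat_lit 7) (.nd (nat_lit 8) (.nd (nat_lit 9) 
(.lf (nat_lit 539668) (.g (nat_lit 423) (.e (nat_lit 81939) (nat_lit 20) (.e (nat_lit 2390) (nat_lit 156) (.e (nat_lit 819221) (nat_lit 6) (.e (nat_lit 188430) (nat_lit 20) (.e (nat_lit 3282) (nat_lit 200) (.e (nat_lit 564992) (nat_lit 6) .nil)))))) (.g (nat_lit 1) (.e (nat_lit 269122) (nat_lit 0) .nil) .nil))) 
(.lf (nat_lit 540180) (.g (nat_lit 1623) (.e (nat_lit 90130) (nat_lit 9) (.e (nat_lit 2830) (nat_lit 182) (.e (nat_lit 409646) (nat_lit 18) (.e (nat_lit 303118) (nat_lit 3) .nil)))) (.g (nat_lit 0) (.e (nat_lit 270166) (nat_lit 0) .nil) .nil)))) (.nd (nat_lit 9) 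
(.lf (nat_lit 539924) (.g (nat_lit 1016) (.e (nat_lit 81947) (nat_lit 20) (.e (nat_lit 1886) (nat_lit 127) (.e (nat_lit 581652) (nat_lit 5) (.e (nat_lit 180285) (nat_lit 45) (.e (nat_lit 2579) (nat_lit 161) (.e (nat_lit 48896) (nat_lit 6) .nil)))))) (.g (nat_lit 1) (.e (nat_lit 269524) (nat_lit 0) .nil) .nil))) 
(.lf (nat_lit 540436) (.g (nat_lit 1860) (.e (nat_lit 90167) (nat_lit 13) (.e (nat_lit 172112) (nat_lit 10) (.e (nat_lit 434248) (nat_lit 28) (.e (nat_lit 573475) (nat_lit 12) (.e (nat_lit 57574) (nat_lit 55) .nil))))) (.g (nat_lit 0) (.e (nat_lit 270753) (nat_lit 0) .nil) .nil))))) (.nd (nat_lit 8) (.nd (nat_lit 9) 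
(.lf (nat_lit 539796) (.g (nat_lit 814) (.e (nat_lit 81943) (nat_lit 20) (.e (nat_lit 2390) (nat_lit 156) (.e (nat_lit 819221) (nat_lit 6) (.e (nat_lit 188427) (nat_lit 20) (.e (nat_lit 3281) (nat_lit 200) (.e (nat_lit 564992) (nat_lit 6) .nil)))))) (.g (nat_lit 1) (.e (nat_lit 269347) (nat_lit 0) .nil) .nil))) 
(.lf (nat_lit 540308) (.g (nat_lit 2892) (.e (nat_lit 90158) (nat_lit 11) (.e (nat_lit 24628) (nat_lit 9) (.e (nat_lit 336456) (nat_lit 34) (.e (nat_lit 483363) (nat_lit 18) (.e (nat_lit 57854) (nat_lit 252) (.e (nat_lit 57370) (nat_lit 2) .nil)))))) (.g (nat_lit 1) (.e (nat_lit 270537) (nat_lit 0) .nil) .nil)))) (.nd (nat_lit 9) 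
(.lf (nat_lit 540052) (.g (nat_lit 1612) (.e (nat_lit 81954) (nat_lit 23) (.e (nat_lit 98384) (nat_lit 32) (.e (nat_lit 475210) (nat_lit 41) (.e (nat_lit 712716) (nat_lit 15) .nil)))) (.g (nat_lit 0) (.e (nat_lit 269813) (nat_lit 0) .nil) .nil))) 
(.lf (nat_lit 540564) (.g (nat_lit 4180) (.e (nat_lit 90170) (nat_lit 13) (.e (nat_lit 172049) (nat_lit 0) (.e (nat_lit 3409) (nat_lit 212) (.e (nat_lit 655375) (nat_lit 3) (.e (nat_lit 163977) (nat_lit 30) (.e (nat_lit 573493) (nat_lit 15) (.e (nat_lit 81953) (nat_lit 22) .nil))))))) (.g (nat_lit 1) (.e (nat_lit 270913) (nat_lit 0) .nil) .nil)))))) 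
(.nd (nat_lit 7) (.nd (nat_lit 8) (.nd (nat_lit 9) 
(.lf (nat_lit 539732) (.g (nat_lit 418) (.e (nat_lit 81942) (nat_lit 20) (.e (nat_lit 2391) (nat_lit 156) (.e (nat_lit 819203) (nat_lit 0) .nil))) (.g (nat_lit 0) (.e (nat_lit 269208) (nat_lit 0) .nil) .nil))) 
(.lf (nat_lit 540244) (.g (nat_lit 1819) (.e (nat_lit 90134) (nat_lit 9) (.e (nat_lit 3098) (nat_lit 192) (.e (nat_lit 491549) (nat_lit 9) (.e (nat_lit 336260) (nat_lit 15) .nil)))) (.g (nat_lit 0) (.e (nat_lit 270373) (nat_lit 0) .nil) .nil)))) (.nd (nat_lit 9) 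
(.lf (nat_lit 539988) (.g (nat_lit 1141) (.e (nat_lit 81947) (nat_lit 20) (.e (nat_lit 2391) (nat_lit 156) (.e (nat_lit 819221) (nat_lit 6) (.e (nat_lit 188430) (nat_lit 20) (.e (nat_lit 3282) (nat_lit 200) (.e (nat_lit 564992) (nat_lit 6) .nil)))))) (.g (nat_lit 1) (.e (nat_lit 269615) (nat_lit 0) .nil) .nil))) 
(.lf (nat_lit 540500) (.g (nat_lit 1175) (.e (nat_lit 90168) (nat_lit 13) (.e (nat_lit 172097) (nat_lit 9) (.e (nat_lit 426140) (nat_lit 3) (.e (nat_lit 204821) (nat_lit 17) .nil)))) (.g (nat_lit 0) (.e (nat_lit 270836) (nat_lit 0) .nil) .nil))))) (.nd (nat_lit 8) (.nd (nat_lit 9) 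
(.lf (nat_lit 539860) (.g (nat_lit 1187) (.e (nat_lit 81946) (nat_lit 20) (.e (nat_lit 2390) (nat_lit 156) (.e (nat_lit 819203) (nat_lit 0) (.e (nat_lit 3015) (nat_lit 187) (.e (nat_lit 458496) (nat_lit 8) (.e (nat_lit 564992) (nat_lit 6) .nil)))))) (.g (nat_lit 1) (.e (nat_lit 269439) (nat_lit 0) .nil) .nil))) 
(.lf (nat_lit 540372) (.g (nat_lit 1645) (.e (nat_lit 90165) (nat_lit 12) (.e (nat_lit 164207) (nat_lit 176) (.e (nat_lit 2797) (nat_lit 180) (.e (nat_lit 303117) (nat_lit 2) (.e (nat_lit 196665) (nat_lit 13) .nil))))) (.g (nat_lit 0) (.e (nat_lit 270661) (nat_lit 0) .nil) .nil)))) (.nd (nat_lit 9) 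
(.lf (nat_lit 540116) (.g (nat_lit 3729) (.e (nat_lit 81956) (nat_lit 23) (.e (nat_lit 98387) (nat_lit 33) (.e (nat_lit 491566) (nat_lit 12) (.e (nat_lit 385073) (nat_lit 31) (.e (nat_lit 573493) (nat_lit 15) .nil))))) (.g (nat_lit 1) (.e (nat_lit 269910) (nat_lit 0) .nil) .nil))) 
(.lf (nat_lit 540628) (.g (nat_lit 3207) (.e (nat_lit 90170) (nat_lit 13) (.e (nat_lit 172106) (nat_lit 10) (.e (nat_lit 434231) (nat_lit 23) (.e (nat_lit 532535) (nat_lit 9) (.e (nat_lit 335900) (nat_lit 0) .nil))))) (.g (nat_lit 0) (.e (nat_lit 270985) (nat_lit 0) .nil) .nil))))))) (.nd (nat_lit 6) (.nd (nat_lit 7) (.nd (nat_lit 8) (.nd (nat_lit 9) 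
(.lf (nat_lit 539700) (.g (nat_lit 1107) (.e (nat_lit 81939) (nat_lit 20) (.e (nat_lit 2391) (nat_lit 156) (.e (nat_lit 819221) (nat_lit 6) (.e (nat_lit 188431) (nat_lit 20) (.e (nat_lit 3282) (nat_lit 200) (.e (nat_lit 564992) (nat_lit 6) .nil)))))) (.g (nat_lit 1) (.e (nat_lit 269163) (nat_lit 0) .nil) .nil))) 
(.lf (nat_lit 540212) (.g (nat_lit 961) (.e (nat_lit 90130) (nat_lit 9) (.e (nat_lit 2830) (nat_lit 182) (.e (nat_lit 409649) (nat_lit 18) (.e (nat_lit 303119) (nat_lit 3) .nil)))) (.g (nat_lit 0) (.e (nat_lit 270235) (nat_lit 0) .nil) .nil)))) (.nd (nat_lit 9) 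
(.lf (nat_lit 539956) (.g (nat_lit 778) (.e (nat_lit 81947) (nat_lit 20) (.e (nat_lit 2390) (nat_lit 156) (.e (nat_lit 819221) (nat_lit 6) (.e (nat_lit 188430) (nat_lit 20) (.e (nat_lit 3282) (nat_lit 200) (.e (nat_lit 564992) (nat_lit 6) .nil)))))) (.g (nat_lit 1) (.e (nat_lit 269566) (nat_lit 0) .nil) .nil))) 
(.lf (nat_lit 540468) (.g (nat_lit 3605) (.e (nat_lit 90167) (nat_lit 13) (.e (nat_lit 172126) (nat_lit 14) (.e (nat_lit 491537) (nat_lit 2) (.e (nat_lit 90185) (nat_lit 17) (.e (nat_lit 237572) (nat_lit 0) .nil))))) (.g (nat_lit 0) (.e (nat_lit 270789) (nat_lit 0) .nil) .nil))))) (.nd (nat_lit 8) (.nd (nat_lit 9) 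
(.lf (nat_lit 539828) (.g (nat_lit 1057) (.e (nat_lit 81943) (nat_lit 20) (.e (nat_lit 2391) (nat_lit 156) (.e (nat_lit 819221) (nat_lit 6) (.e (nat_lit 188428) (nat_lit 20) (.e (nat_lit 3281) (nat_lit 200) (.e (nat_lit 564992) (nat_lit 6) .nil)))))) (.g (nat_lit 1) (.e (nat_lit 269386) (nat_lit 0) .nil) .nil))) 
(.lf (nat_lit 540340) (.g (nat_lit 3532) (.e (nat_lit 90159) (nat_lit 11) (.e (nat_lit 24627) (nat_lit 9) (.e (nat_lit 336454) (nat_lit 34) (.e (nat_lit 483365) (nat_lit 18) (.e (nat_lit 57848) (nat_lit 252) (.e (nat_lit 57372) (nat_lit 2) .nil)))))) (.g (nat_lit 1) (.e (nat_lit 270573) (nat_lit 0) .nil) .nil)))) (.nd (nat_lit 9) 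
(.lf (nat_lit 540084) (.g (nat_lit 2471) (.e (nat_lit 81955) (nat_lit 23) (.e (nat_lit 98386) (nat_lit 32) (.e (nat_lit 475198) (nat_lit 40) (.e (nat_lit 704589) (nat_lit 3) (.e (nat_lit 163975) (nat_lit 30) (.e (nat_lit 573491) (nat_lit 15) .nil)))))) (.g (nat_lit 1) (.e (nat_lit 269853) (nat_lit 0) .nil) .nil))) 
(.lf (nat_lit 540596) (.g (nat_lit 3615) (.e (nat_lit 90170) (nat_lit 13) (.e (nat_lit 172106) (nat_lit 10) (.e (nat_lit 434231) (nat_lit 23) (.e (nat_lit 532499) (nat_lit 1) (.e (nat_lit 65280) (nat_lit 233) (.e (nat_lit 2554) (nat_lit 159) (.e (nat_lit 24605) (nat_lit 2) .nil))))))) (.g (nat_lit 1) (.e (nat_lit 270953) (nat_lit 0) .nil) .nil)))))) 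
(.nd (nat_lit 7) (.nd (nat_lit 8) (.nd (nat_lit 9) 
(.lf (nat_lit 539764) (.g (nat_lit 3544) (.e (nat_lit 81943) (nat_lit 20) (.e (nat_lit 1842) (nat_lit 123) (.e (nat_lit 548889) (nat_lit 9) (.e (nat_lit 65630) (nat_lit 14) (.e (nat_lit 401412) (nat_lit 0) (.e (nat_lit 3114) (nat_lit 193) (.e (nat_lit 500074) (nat_lit 20) .nil))))))) (.g (nat_lit 1) (.e (nat_lit 269301) (nat_lit 0) .nil) .nil))) 
(.lf (nat_lit 540276) (.g (nat_lit 615) (.e (nat_lit 90157) (nat_lit 11) (.e (nat_lit 24630) (nat_lit 9) (.e (nat_lit 336456) (nat_lit 34) .nil))) (.g (nat_lit 0) (.e (nat_lit 270479) (nat_lit 0) .nil) .nil)))) (.nd (nat_lit 9) 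
(.lf (nat_lit 540020) (.g (nat_lit 389) (.e (nat_lit 81953) (nat_lit 22) (.e (nat_lit 90170) (nat_lit 13) (.e (nat_lit 172042) (nat_lit 0) .nil))) (.g (nat_lit 0) (.e (nat_lit 269731) (nat_lit 0) .nil) .nil))) 
(.lf (nat_lit 540532) (.g (nat_lit 2441) (.e (nat_lit 90169) (nat_lit 13) (.e (nat_lit 172094) (nat_lit 9) (.e (nat_lit 426140) (nat_lit 3) (.e (nat_lit 204846) (nat_lit 24) (.e (nat_lit 319529) (nat_lit 16) .nil))))) (.g (nat_lit 0) (.e (nat_lit 270877) (nat_lit 0) .nil) .nil))))) (.nd (nat_lit 8) (.nd (nat_lit 9) 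
(.lf (nat_lit 539892) (.g (nat_lit 1203) (.e (nat_lit 81946) (nat_lit 20) (.e (nat_lit 2391) (nat_lit 156) (.e (nat_lit 819203) (nat_lit 0) (.e (nat_lit 3028) (nat_lit 187) (.e (nat_lit 458496) (nat_lit 8) (.e (nat_lit 564992) (nat_lit 6) .nil)))))) (.g (nat_lit 1) (.e (nat_lit 269479) (nat_lit 0) .nil) .nil))) 
(.lf (nat_lit 540404) (.g (nat_lit 428) (.e (nat_lit 90167) (nat_lit 13) (.e (nat_lit 172065) (nat_lit 3) (.e (nat_lit 204830) (nat_lit 18) .nil))) (.g (nat_lit 0) (.e (nat_lit 270714) (nat_lit 0) .nil) .nil)))) (.nd (nat_lit 9) 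
(.lf (nat_lit 540148) (.g (nat_lit 1623) (.e (nat_lit 98048) (nat_lit 0) (.e (nat_lit 375) (nat_lit 32) (.e (nat_lit 426173) (nat_lit 7) (.e (nat_lit 409617) (nat_lit 10) (.e (nat_lit 934) (nat_lit 76) .nil))))) (.g (nat_lit 0) (.e (nat_lit 269965) (nat_lit 0) .nil) .nil))) 
(.lf (nat_lit 540660) (.g (nat_lit 3379) (.e (nat_lit 90170) (nat_lit 13) (.e (nat_lit 172106) (nat_lit 10) (.e (nat_lit 434243) (nat_lit 28) (.e (nat_lit 573474) (nat_lit 12) (.e (nat_lit 57574) (nat_lit 55) (.e (nat_lit 778466) (nat_lit 11) (.e (nat_lit 24604) (nat_lit 2) .nil))))))) (.g (nat_lit 1) (.e (nat_lit 271017) (nat_lit 0) .nil) .nil))))))))) 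
(.nd (nat_lit 4) (.nd (nat_lit 5) (.nd (nat_lit 6) (.nd (nat_lit 7) (.nd (nat_lit 8) 
(.nd (nat_lit 9) 
(.lf (nat_lit 539660) (.g (nat_lit 1203) (.e (nat_lit 81939) (nat_lit 20) (.e (nat_lit 2390) (nat_lit 156) (.e (nat_lit 819204) (nat_lit 0) (.e (nat_lit 3022) (nat_lit 187) (.e (nat_lit 458496) (nat_lit 8) (.e (nat_lit 564992) (nat_lit 6) .nil)))))) (.g (nat_lit 1) (.e (nat_lit 269114) (nat_lit 0) .nil) .nil))) 
(.lf (nat_lit 540172) (.g (nat_lit 1085) (.e (nat_lit 90130) (nat_lit 9) (.e (nat_lit 2830) (nat_lit 182) (.e (nat_lit 409644) (nat_lit 18) (.e (nat_lit 303119) (nat_lit 3) .nil)))) (.g (nat_lit 0) (.e (nat_lit 270156) (nat_lit 0) .nil) .nil)))) (.nd (nat_lit 9) 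
(.lf (nat_lit 539916) (.g (nat_lit 1733) (.e (nat_lit 81947) (nat_lit 20) (.e (nat_lit 1802) (nat_lit 119) (.e (nat_lit 516139) (nat_lit 7) (.e (nat_lit 409646) (nat_lit 18) (.e (nat_lit 303117) (nat_lit 2) .nil))))) (.g (nat_lit 0) (.e (nat_lit 269507) (nat_lit 0) .nil) .nil))) 
(.lf (nat_lit 540428) (.g (nat_lit 2223) (.e (nat_lit 90167) (nat_lit 13) (.e (nat_lit 172067) (nat_lit 3) (.e (nat_lit 204838) (nat_lit 20) (.e (nat_lit 114719) (nat_lit 23) (.e (nat_lit 98332) (nat_lit 18) .nil))))) (.g (nat_lit 0) (.e (nat_lit 270738) (nat_lit 0) .nil) .nil))))) (.nd (nat_lit 8) (.nd (nat_lit 9) 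
(.lf (nat_lit 539788) (.g (nat_lit 1125) (.e (nat_lit 81943) (nat_lit 20) (.e (nat_lit 2390) (nat_lit 156) (.e (nat_lit 819204) (nat_lit 0) (.e (nat_lit 3004) (nat_lit 186) (.e (nat_lit 450304) (nat_lit 2) (.e (nat_lit 98048) (nat_lit 6) .nil)))))) (.g (nat_lit 1) (.e (nat_lit 269336) (nat_lit 0) .nil) .nil))) 
(.lf (nat_lit 540300) (.g (nat_lit 3207) (.e (nat_lit 90158) (nat_lit 11) (.e (nat_lit 24628) (nat_lit 9) (.e (nat_lit 336454) (nat_lit 34) (.e (nat_lit 483363) (nat_lit 18) (.e (nat_lit 57853) (nat_lit 252) (.e (nat_lit 57370) (nat_lit 2) .nil)))))) (.g (nat_lit 1) (.e (nat_lit 270529) (nat_lit 0) .nil) .nil)))) (.nd (nat_lit 9) 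
(.lf (nat_lit 540044) (.g (nat_lit 3961) (.e (nat_lit 81954) (nat_lit 23) (.e (nat_lit 98366) (nat_lit 27) (.e (nat_lit 434272) (nat_lit 38) (.e (nat_lit 655375) (nat_lit 3) (.e (nat_lit 163979) (nat_lit 30) (.e (nat_lit 573491) (nat_lit 15) .nil)))))) (.g (nat_lit 1) (.e (nat_lit 269787) (nat_lit 0) .nil) .nil))) 
(.lf (nat_lit 540556) (.g (nat_lit 2465) (.e (nat_lit 90169) (nat_lit 13) (.e (nat_lit 172122) (nat_lit 13) (.e (nat_lit 483341) (nat_lit 9) (.e (nat_lit 426108) (nat_lit 1) (.e (nat_lit 164403) (nat_lit 256) (.e (nat_lit 57373) (nat_lit 2) .nil)))))) (.g (nat_lit 1) (.e (nat_lit 270901) (nat_lit 0) .nil) .nil)))))) (.nd (nat_lit 7) (.nd (nat_lit 8) (.nd (nat_lit 9) 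
(.lf (nat_lit 539724) (.g (nat_lit 737) (.e (nat_lit 81942) (nat_lit 20) (.e (nat_lit 2390) (nat_lit 156) (.e (nat_lit 819204) (nat_lit 0) (.e (nat_lit 3028) (nat_lit 187) (.e (nat_lit 458496) (nat_lit 8) (.e (nat_lit 564992) (nat_lit 6) .nil)))))) (.g (nat_lit 1) (.e (nat_lit 269200) (nat_lit 0) .nil) .nil))) 
(.lf (nat_lit 540236) (.g (nat_lit 3773) (.e (nat_lit 90134) (nat_lit 9) (.e (nat_lit 3021) (nat_lit 187) (.e (nat_lit 450586) (nat_lit 10) (.e (nat_lit 573474) (nat_lit 12) (.e (nat_lit 57572) (nat_lit 54) .nil))))) (.g (nat_lit 0) (.e (nat_lit 270359) (nat_lit 0) .nil) .nil)))) (.nd (nat_lit 9) 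
(.lf (nat_lit 539980) (.g (nat_lit 3499) (.e (nat_lit 81947) (nat_lit 20) (.e (nat_lit 2391) (nat_lit 156) (.e (nat_lit 819219) (nat_lit 4) (.e (nat_lit 172079) (nat_lit 7) (.e (nat_lit 409611) (nat_lit 10) (.e (nat_lit 632) (nat_lit 50) (.e (nat_lit 573491) (nat_lit 15) .nil))))))) (.g (nat_lit 1) (.e (nat_lit 269606) (nat_lit 0) .nil) .nil))) 
(.lf (nat_lit 540492) (.g (nat_lit 2263) (.e (nat_lit 90168) (nat_lit 13) (.e (nat_lit 172067) (nat_lit 3) (.e (nat_lit 204838) (nat_lit 20) (.e (nat_lit 114718) (nat_lit 23) (.e (nat_lit 98333) (nat_lit 18) .nil))))) (.g (nat_lit 0) (.e (nat_lit 270826) (nat_lit 0) .nil) .nil))))) (.nd (nat_lit 8) (.nd (nat_lit 9) 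
(.lf (nat_lit 539852) (.g (nat_lit 371) (.e (nat_lit 81946) (nat_lit 20) (.e (nat_lit 1858) (nat_lit 124) (.e (nat_lit 557071) (nat_lit 9) .nil))) (.g (nat_lit 0) (.e (nat_lit 269418) (nat_lit 0) .nil) .nil))) 
(.lf (nat_lit 540364) (.g (nat_lit 2974) (.e (nat_lit 90160) (nat_lit 11) (.e (nat_lit 24665) (nat_lit 14) (.e (nat_lit 401414) (nat_lit 0) (.e (nat_lit 3272) (nat_lit 199) (.e (nat_lit 548898) (nat_lit 14) .nil))))) (.g (nat_lit 0) (.e (nat_lit 270622) (nat_lit 0) .nil) .nil)))) (.nd (nat_lit 9) 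
(.lf (nat_lit 540108) (.g (nat_lit 4791) (.e (nat_lit 81956) (nat_lit 23) (.e (nat_lit 98367) (nat_lit 27) (.e (nat_lit 434271) (nat_lit 38) (.e (nat_lit 655375) (nat_lit 3) (.e (nat_lit 163979) (nat_lit 30) (.e (nat_lit 573493) (nat_lit 15) .nil)))))) (.g (nat_lit 1) (.e (nat_lit 269894) (nat_lit 0) .nil) .nil))) 
(.lf (nat_lit 540620) (.g (nat_lit 1952) (.e (nat_lit 90170) (nat_lit 13) (.e (nat_lit 172106) (nat_lit 10) (.e (nat_lit 434231) (nat_lit 23) (.e (nat_lit 532526) (nat_lit 8) (.e (nat_lit 335616) (nat_lit 10) .nil))))) (.g (nat_lit 0) (.e (nat_lit 270977) (nat_lit 0) .nil) .nil))))))) (.nd (nat_lit 6) (.nd (nat_lit 7) (.nd (nat_lit 8) (.nd (nat_lit 9) 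
(.lf (nat_lit 539692) (.g (nat_lit 549) (.e (nat_lit 81939) (nat_lit 20) (.e (nat_lit 2391) (nat_lit 156) (.e (nat_lit 819221) (nat_lit 6) (.e (nat_lit 188427) (nat_lit 20) .nil)))) (.g (nat_lit 0) (.e (nat_lit 269155) (nat_lit 0) .nil) .nil))) 
(.lf (nat_lit 540204) (.g (nat_lit 2447) (.e (nat_lit 90130) (nat_lit 9) (.e (nat_lit 2830) (nat_lit 182) (.e (nat_lit 409649) (nat_lit 18) (.e (nat_lit 303112) (nat_lit 0) (.e (nat_lit 3252) (nat_lit 197) .nil))))) (.g (nat_lit 0) (.e (nat_lit 270213) (nat_lit 0) .nil) .nil)))) (.nd (nat_lit 9) 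
(.lf (nat_lit 539948) (.g (nat_lit 1530) (.e (nat_lit 81947) (nat_lit 20) (.e (nat_lit 2390) (nat_lit 156) (.e (nat_lit 819204) (nat_lit 0) (.e (nat_lit 3016) (nat_lit 187) (.e (nat_lit 458496) (nat_lit 8) (.e (nat_lit 564992) (nat_lit 6) .nil)))))) (.g (nat_lit 1) (.e (nat_lit 269558) (nat_lit 0) .nil) .nil))) 
(.lf (nat_lit 540460) (.g (nat_lit 2004) (.e (nat_lit 90167) (nat_lit 13) (.e (nat_lit 172126) (nat_lit 14) (.e (nat_lit 491537) (nat_lit 2) (.e (nat_lit 90133) (nat_lit 9) (.e (nat_lit 2400) (nat_lit 157) .nil))))) (.g (nat_lit 0) (.e (nat_lit 270777) (nat_lit 0) .nil) .nil))))) (.nd (nat_lit 8) (.nd (nat_lit 9) 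
(.lf (nat_lit 539820) (.g (nat_lit 1879) (.e (nat_lit 81943) (nat_lit 20) (.e (nat_lit 2391) (nat_lit 156) (.e (nat_lit 819204) (nat_lit 0) (.e (nat_lit 3022) (nat_lit 187) (.e (nat_lit 458496) (nat_lit 8) (.e (nat_lit 564992) (nat_lit 6) .nil)))))) (.g (nat_lit 1) (.e (nat_lit 269377) (nat_lit 0) .nil) .nil))) 
(.lf (nat_lit 540332) (.g (nat_lit 3923) (.e (nat_lit 90158) (nat_lit 11) (.e (nat_lit 24665) (nat_lit 14) (.e (nat_lit 401427) (nat_lit 3) (.e (nat_lit 204882) (nat_lit 32) (.e (nat_lit 392960) (nat_lit 42) (.e (nat_lit 720941) (nat_lit 22) .nil)))))) (.g (nat_lit 1) (.e (nat_lit 270561) (nat_lit 0) .nil) .nil)))) (.nd (nat_lit 9) 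
(.lf (nat_lit 540076) (.g (nat_lit 1213) (.e (nat_lit 81955) (nat_lit 23) (.e (nat_lit 98356) (nat_lit 26) (.e (nat_lit 426444) (nat_lit 19) (.e (nat_lit 114432) (nat_lit 3) .nil)))) (.g (nat_lit 0) (.e (nat_lit 269842) (nat_lit 0) .nil) .nil))) 
(.lf (nat_lit 540588) (.g (nat_lit 3326) (.e (nat_lit 90170) (nat_lit 13) (.e (nat_lit 172106) (nat_lit 10) (.e (nat_lit 434231) (nat_lit 23) (.e (nat_lit 532481) (nat_lit 0) (.e (nat_lit 6192) (nat_lit 332) .nil))))) (.g (nat_lit 0) (.e (nat_lit 270945) (nat_lit 0) .nil) .nil)))))) (.nd (nat_lit 7) (.nd (nat_lit 8) (.nd (nat_lit 9) 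
(.lf (nat_lit 539756) (.g (nat_lit 400) (.e (nat_lit 81943) (nat_lit 20) (.e (nat_lit 1842) (nat_lit 123) (.e (nat_lit 548874) (nat_lit 5) .nil))) (.g (nat_lit 0) (.e (nat_lit 269256) (nat_lit 0) .nil) .nil))) 
(.lf (nat_lit 540268) (.g (nat_lit 1809) (.e (nat_lit 90156) (nat_lit 11) (.e (nat_lit 24630) (nat_lit 9) (.e (nat_lit 336454) (nat_lit 34) (.e (nat_lit 483365) (nat_lit 18) (.e (nat_lit 57849) (nat_lit 252) .nil))))) (.g (nat_lit 0) (.e (nat_lit 270468) (nat_lit 0) .nil) .nil)))) (.nd (nat_lit 9) 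
(.lf (nat_lit 540012) (.g (nat_lit 642) (.e (nat_lit 81952) (nat_lit 22) (.e (nat_lit 90174) (nat_lit 14) (.e (nat_lit 180228) (nat_lit 0) .nil))) (.g (nat_lit 0) (.e (nat_lit 269718) (nat_lit 0) .nil) .nil))) 
(.lf (nat_lit 540524) (.g (nat_lit 1574) (.e (nat_lit 90168) (nat_lit 13) (.e (nat_lit 172123) (nat_lit 13) (.e (nat_lit 483337) (nat_lit 9) (.e (nat_lit 426108) (nat_lit 1) (.e (nat_lit 164401) (nat_lit 256) (.e (nat_lit 57370) (nat_lit 2) .nil)))))) (.g (nat_lit 1) (.e (nat_lit 270861) (nat_lit 0) .nil) .nil))))) (.nd (nat_lit 8) (.nd (nat_lit 9) 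
(.lf (nat_lit 539884) (.g (nat_lit 1317) (.e (nat_lit 81946) (nat_lit 20) (.e (nat_lit 2391) (nat_lit 156) (.e (nat_lit 819203) (nat_lit 0) (.e (nat_lit 2989) (nat_lit 186) (.e (nat_lit 450304) (nat_lit 2) (.e (nat_lit 98048) (nat_lit 6) .nil)))))) (.g (nat_lit 1) (.e (nat_lit 269469) (nat_lit 0) .nil) .nil))) 
(.lf (nat_lit 540396) (.g (nat_lit 1831) (.e (nat_lit 90166) (nat_lit 13) (.e (nat_lit 172120) (nat_lit 12) (.e (nat_lit 475185) (nat_lit 29) (.e (nat_lit 557100) (nat_lit 13) .nil)))) (.g (nat_lit 0) (.e (nat_lit 270705) (nat_lit 0) .nil) .nil)))) (.nd (nat_lit 9) 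
(.lf (nat_lit 540140) (.g (nat_lit 2701) (.e (nat_lit 81965) (nat_lit 26) (.e (nat_lit 147511) (nat_lit 14) (.e (nat_lit 2797) (nat_lit 180) (.e (nat_lit 303127) (nat_lit 9) (.e (nat_lit 426428) (nat_lit 17) (.e (nat_lit 98048) (nat_lit 6) .nil)))))) (.g (nat_lit 1) (.e (nat_lit 269946) (nat_lit 0) .nil) .nil))) 
(.lf (nat_lit 540652) (.g (nat_lit 3192) (.e (nat_lit 90170) (nat_lit 13) (.e (nat_lit 172106) (nat_lit 10) (.e (nat_lit 434231) (nat_lit 23) (.e (nat_lit 532535) (nat_lit 9) (.e (nat_lit 335992) (nat_lit 1) (.e (nat_lit 57929) (nat_lit 282) (.e (nat_lit 171776) (nat_lit 63) .nil))))))) (.g (nat_lit 1) (.e (nat_lit 271009) (nat_lit 0) .nil) .nil)))))))) 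
(.nd (nat_lit 5) (.nd (nat_lit 6) (.nd (nat_lit 7) (.nd (nat_lit 8) (.nd (nat_lit 9) 
(.lf (nat_lit 539676) (.g (nat_lit 1171) (.e (nat_lit 81939) (nat_lit 20) (.e (nat_lit 2391) (nat_lit 156) (.e (nat_lit 819203) (nat_lit 0) (.e (nat_lit 3015) (nat_lit 187) (.e (nat_lit 458496) (nat_lit 8) .nil))))) (.g (nat_lit 0) (.e (nat_lit 269134) (nat_lit 0) .nil) .nil))) 
(.lf (nat_lit 540188) (.g (nat_lit 404) (.e (nat_lit 90130) (nat_lit 9) (.e (nat_lit 2830) (nat_lit 182) (.e (nat_lit 409648) (nat_lit 18) .nil))) (.g (nat_lit 0) (.e (nat_lit 270179) (nat_lit 0) .nil) .nil)))) (.nd (nat_lit 9) 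
(.lf (nat_lit 539932) (.g (nat_lit 1191) (.e (nat_lit 81947) (nat_lit 20) (.e (nat_lit 2281) (nat_lit 150) (.e (nat_lit 770072) (nat_lit 8) (.e (nat_lit 65616) (nat_lit 10) .nil)))) (.g (nat_lit 0) (.e (nat_lit 269532) (nat_lit 0) .nil) .nil))) 
(.lf (nat_lit 540444) (.g (nat_lit 1564) (.e (nat_lit 90167) (nat_lit 13) (.e (nat_lit 172120) (nat_lit 12) (.e (nat_lit 475179) (nat_lit 24) (.e (nat_lit 516126) (nat_lit 2) .nil)))) (.g (nat_lit 0) (.e (nat_lit 270761) (nat_lit 0) .nil) .nil))))) (.nd (nat_lit 8) (.nd (nat_lit 9) 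
(.lf (nat_lit 539804) (.g (nat_lit 1167) (.e (nat_lit 81943) (nat_lit 20) (.e (nat_lit 2391) (nat_lit 156) (.e (nat_lit 819203) (nat_lit 0) (.e (nat_lit 2998) (nat_lit 186) (.e (nat_lit 450304) (nat_lit 2) (.e (nat_lit 98048) (nat_lit 6) .nil)))))) (.g (nat_lit 1) (.e (nat_lit 269356) (nat_lit 0) .nil) .nil))) 
(.lf (nat_lit 540316) (.g (nat_lit 2698) (.e (nat_lit 90158) (nat_lit 11) (.e (nat_lit 24630) (nat_lit 9) (.e (nat_lit 336454) (nat_lit 34) (.e (nat_lit 483365) (nat_lit 18) (.e (nat_lit 57844) (nat_lit 252) .nil))))) (.g (nat_lit 0) (.e (nat_lit 270545) (nat_lit 0) .nil) .nil)))) (.nd (nat_lit 9) 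
(.lf (nat_lit 540060) (.g (nat_lit 3042) (.e (nat_lit 81954) (nat_lit 23) (.e (nat_lit 98387) (nat_lit 33) (.e (nat_lit 491566) (nat_lit 12) (.e (nat_lit 385074) (nat_lit 31) (.e (nat_lit 573491) (nat_lit 15) .nil))))) (.g (nat_lit 1) (.e (nat_lit 269823) (nat_lit 0) .nil) .nil))) 
(.lf (nat_lit 540572) (.g (nat_lit 4009) (.e (nat_lit 90170) (nat_lit 13) (.e (nat_lit 172067) (nat_lit 3) (.e (nat_lit 204829) (nat_lit 18) (.e (nat_lit 57691) (nat_lit 156) (.e (nat_lit 163874) (nat_lit 3) (.e (nat_lit 204838) (nat_lit 20) (.e (nat_lit 114715) (nat_lit 22) .nil))))))) (.g (nat_lit 1) (.e (nat_lit 270929) (nat_lit 0) .nil) .nil)))))) 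
(.nd (nat_lit 7) (.nd (nat_lit 8) (.nd (nat_lit 9) 
(.lf (nat_lit 539740) (.g (nat_lit 1118) (.e (nat_lit 81942) (nat_lit 20) (.e (nat_lit 2391) (nat_lit 156) (.e (nat_lit 819204) (nat_lit 0) (.e (nat_lit 3021) (nat_lit 187) (.e (nat_lit 458496) (nat_lit 8) (.e (nat_lit 564992) (nat_lit 6) .nil)))))) (.g (nat_lit 1) (.e (nat_lit 269218) (nat_lit 0) .nil) .nil))) 
(.lf (nat_lit 540252) (.g (nat_lit 1380) (.e (nat_lit 90134) (nat_lit 9) (.e (nat_lit 3098) (nat_lit 192) (.e (nat_lit 491571) (nat_lit 13) (.e (nat_lit 393242) (nat_lit 17) .nil)))) (.g (nat_lit 0) (.e (nat_lit 270400) (nat_lit 0) .nil) .nil)))) (.nd (nat_lit 9) 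
(.lf (nat_lit 539996) (.g (nat_lit 2781) (.e (nat_lit 89856) (nat_lit 20) (.e (nat_lit 1800) (nat_lit 119) (.e (nat_lit 516139) (nat_lit 7) (.e (nat_lit 409645) (nat_lit 18) (.e (nat_lit 303117) (nat_lit 2) .nil))))) (.g (nat_lit 0) (.e (nat_lit 269631) (nat_lit 0) .nil) .nil))) 
(.lf (nat_lit 540508) (.g (nat_lit 1874) (.e (nat_lit 90168) (nat_lit 13) (.e (nat_lit 172120) (nat_lit 12) (.e (nat_lit 475179) (nat_lit 24) (.e (nat_lit 516129) (nat_lit 3) .nil)))) (.g (nat_lit 0) (.e (nat_lit 270845) (nat_lit 0) .nil) .nil))))) (.nd (nat_lit 8) (.nd (nat_lit 9) 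
(.lf (nat_lit 539868) (.g (nat_lit 1200) (.e (nat_lit 81946) (nat_lit 20) (.e (nat_lit 2390) (nat_lit 156) (.e (nat_lit 819204) (nat_lit 0) (.e (nat_lit 2998) (nat_lit 186) (.e (nat_lit 450304) (nat_lit 2) (.e (nat_lit 98048) (nat_lit 6) .nil)))))) (.g (nat_lit 1) (.e (nat_lit 269447) (nat_lit 0) .nil) .nil))) 
(.lf (nat_lit 540380) (.g (nat_lit 1774) (.e (nat_lit 90165) (nat_lit 12) (.e (nat_lit 164239) (nat_lit 187) (.e (nat_lit 1638) (nat_lit 114) (.e (nat_lit 385074) (nat_lit 31) (.e (nat_lit 573482) (nat_lit 13) .nil))))) (.g (nat_lit 0) (.e (nat_lit 270679) (nat_lit 0) .nil) .nil)))) (.nd (nat_lit 9) 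
(.lf (nat_lit 540124) (.g (nat_lit 1447) (.e (nat_lit 89856) (nat_lit 23) (.e (nat_lit 98367) (nat_lit 27) (.e (nat_lit 434271) (nat_lit 38) (.e (nat_lit 655375) (nat_lit 3) .nil)))) (.g (nat_lit 0) (.e (nat_lit 269919) (nat_lit 0) .nil) .nil))) 
(.lf (nat_lit 540636) (.g (nat_lit 3148) (.e (nat_lit 90170) (nat_lit 13) (.e (nat_lit 172106) (nat_lit 10) (.e (nat_lit 434231) (nat_lit 23) (.e (nat_lit 532535) (nat_lit 9) (.e (nat_lit 335927) (nat_lit 0) .nil))))) (.g (nat_lit 0) (.e (nat_lit 270993) (nat_lit 0) .nil) .nil))))))) (.nd (nat_lit 6) (.nd (nat_lit 7) (.nd (nat_lit 8) (.nd (nat_lit 9) 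
(.lf (nat_lit 539708) (.g (nat_lit 414) (.e (nat_lit 81942) (nat_lit 20) (.e (nat_lit 1842) (nat_lit 123) (.e (nat_lit 548874) (nat_lit 5) .nil))) (.g (nat_lit 0) (.e (nat_lit 269178) (nat_lit 0) .nil) .nil))) 
(.lf (nat_lit 540220) (.g (nat_lit 3023) (.e (nat_lit 90133) (nat_lit 9) (.e (nat_lit 2400) (nat_lit 157) (.e (nat_lit 7588) (nat_lit 406) (.e (nat_lit 65637) (nat_lit 15) (.e (nat_lit 3305) (nat_lit 202) (.e (nat_lit 573493) (nat_lit 15) (.e (nat_lit 81953) (nat_lit 22) .nil))))))) (.g (nat_lit 1) (.e (nat_lit 270297) (nat_lit 0) .nil) .nil)))) (.nd (nat_lit 9) 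
(.lf (nat_lit 539964) (.g (nat_lit 1148) (.e (nat_lit 81947) (nat_lit 20) (.e (nat_lit 2391) (nat_lit 156) (.e (nat_lit 819203) (nat_lit 0) (.e (nat_lit 3021) (nat_lit 187) (.e (nat_lit 458496) (nat_lit 8) (.e (nat_lit 564992) (nat_lit 6) .nil)))))) (.g (nat_lit 1) (.e (nat_lit 269580) (nat_lit 0) .nil) .nil))) 
(.lf (nat_lit 540476) (.g (nat_lit 1975) (.e (nat_lit 90167) (nat_lit 13) (.e (nat_lit 172126) (nat_lit 14) (.e (nat_lit 491540) (nat_lit 3) (.e (nat_lit 98367) (nat_lit 27) (.e (nat_lit 442112) (nat_lit 0) .nil))))) (.g (nat_lit 0) (.e (nat_lit 270802) (nat_lit 0) .nil) .nil))))) (.nd (nat_lit 8) (.nd (nat_lit 9) 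
(.lf (nat_lit 539836) (.g (nat_lit 4074) (.e (nat_lit 81946) (nat_lit 20) (.e (nat_lit 1841) (nat_lit 123) (.e (nat_lit 548889) (nat_lit 9) (.e (nat_lit 65630) (nat_lit 14) (.e (nat_lit 401412) (nat_lit 0) (.e (nat_lit 3114) (nat_lit 193) (.e (nat_lit 500075) (nat_lit 20) .nil))))))) (.g (nat_lit 1) (.e (nat_lit 269399) (nat_lit 0) .nil) .nil))) 
(.lf (nat_lit 540348) (.g (nat_lit 1779) (.e (nat_lit 90160) (nat_lit 11) (.e (nat_lit 24604) (nat_lit 2) (.e (nat_lit 90160) (nat_lit 11) (.e (nat_lit 24601) (nat_lit 2) .nil)))) (.g (nat_lit 0) (.e (nat_lit 270600) (nat_lit 0) .nil) .nil)))) (.nd (nat_lit 9) 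
(.lf (nat_lit 540092) (.g (nat_lit 930) (.e (nat_lit 81956) (nat_lit 23) (.e (nat_lit 98349) (nat_lit 24) (.e (nat_lit 409642) (nat_lit 17) (.e (nat_lit 294966) (nat_lit 15) .nil)))) (.g (nat_lit 0) (.e (nat_lit 269867) (nat_lit 0) .nil) .nil))) 
(.lf (nat_lit 540604) (.g (nat_lit 3193) (.e (nat_lit 90170) (nat_lit 13) (.e (nat_lit 172106) (nat_lit 10) (.e (nat_lit 434231) (nat_lit 23) (.e (nat_lit 532523) (nat_lit 7) (.e (nat_lit 319500) (nat_lit 10) .nil))))) (.g (nat_lit 0) (.e (nat_lit 270961) (nat_lit 0) .nil) .nil)))))) (.nd (nat_lit 7) (.nd (nat_lit 8) (.nd (nat_lit 9) 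
(.lf (nat_lit 539772) (.g (nat_lit 756) (.e (nat_lit 81943) (nat_lit 20) (.e (nat_lit 1886) (nat_lit 127) (.e (nat_lit 581652) (nat_lit 5) (.e (nat_lit 180288) (nat_lit 45) (.e (nat_lit 2579) (nat_lit 161) (.e (nat_lit 48896) (nat_lit 6) .nil)))))) (.g (nat_lit 1) (.e (nat_lit 269312) (nat_lit 0) .nil) .nil))) 
(.lf (nat_lit 540284) (.g (nat_lit 1997) (.e (nat_lit 90158) (nat_lit 11) (.e (nat_lit 24608) (nat_lit 3) (.e (nat_lit 98313) (nat_lit 9) (.e (nat_lit 336002) (nat_lit 2) (.e (nat_lit 90158) (nat_lit 11) (.e (nat_lit 24602) (nat_lit 2) .nil)))))) (.g (nat_lit 1) (.e (nat_lit 270503) (nat_lit 0) .nil) .nil)))) (.nd (nat_lit 9) 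
(.lf (nat_lit 540028) (.g (nat_lit 377) (.e (nat_lit 81954) (nat_lit 23) (.e (nat_lit 98320) (nat_lit 17) (.e (nat_lit 7936) (nat_lit 377) .nil))) (.g (nat_lit 0) (.e (nat_lit 269743) (nat_lit 0) .nil) .nil))) 
(.lf (nat_lit 540540) (.g (nat_lit 1711) (.e (nat_lit 90169) (nat_lit 13) (.e (nat_lit 172113) (nat_lit 10) (.e (nat_lit 434247) (nat_lit 28) (.e (nat_lit 573477) (nat_lit 12) (.e (nat_lit 57574) (nat_lit 55) .nil))))) (.g (nat_lit 0) (.e (nat_lit 270885) (nat_lit 0) .nil) .nil))))) (.nd (nat_lit 8) (.nd (nat_lit 9) 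
(.lf (nat_lit 539900) (.g (nat_lit 1533) (.e (nat_lit 81946) (nat_lit 20) (.e (nat_lit 2391) (nat_lit 156) (.e (nat_lit 819204) (nat_lit 0) (.e (nat_lit 3021) (nat_lit 187) (.e (nat_lit 458496) (nat_lit 8) (.e (nat_lit 564992) (nat_lit 6) .nil)))))) (.g (nat_lit 1) (.e (nat_lit 269490) (nat_lit 0) .nil) .nil))) 
(.lf (nat_lit 540412) (.g (nat_lit 1579) (.e (nat_lit 90167) (nat_lit 13) (.e (nat_lit 172065) (nat_lit 3) (.e (nat_lit 204838) (nat_lit 20) (.e (nat_lit 114719) (nat_lit 23) (.e (nat_lit 98334) (nat_lit 18) .nil))))) (.g (nat_lit 0) (.e (nat_lit 270722) (nat_lit 0) .nil) .nil)))) (.nd (nat_lit 9) 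
(.lf (nat_lit 540156) (.g (nat_lit 320) (.e (nat_lit 90122) (nat_lit 9) (.e (nat_lit 312) (nat_lit 23) (.e (nat_lit 360192) (nat_lit 18) .nil))) (.g (nat_lit 0) (.e (nat_lit 270026) (nat_lit 0) .nil) .nil))) 
(.lf (nat_lit 540668) (.g (nat_lit 2710) (.e (nat_lit 90170) (nat_lit 13) (.e (nat_lit 172106) (nat_lit 10) (.e (nat_lit 434244) (nat_lit 28) (.e (nat_lit 573451) (nat_lit 9) (.e (nat_lit 396) (nat_lit 32) (.e (nat_lit 426012) (nat_lit 0) (.e (nat_lit 7545) (nat_lit 402) (.e (nat_lit 1237) (nat_lit 91) .nil)))))))) (.g (nat_lit 1) (.e (nat_lit 271025) (nat_lit 0) .nil) .nil))))))))))) 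
(.nd (nat_lit 2) (.nd (nat_lit 3) (.nd (nat_lit 4) (.nd (nat_lit 5) (.nd (nat_lit 6) 
(.nd (nat_lit 7) (.nd (nat_lit 8) (.nd (nat_lit 9) 
(.lf (nat_lit 539650) (.g (nat_lit 858) (.e (nat_lit 81939) (nat_lit 20) (.e (nat_lit 2390) (nat_lit 156) (.e (nat_lit 819203) (nat_lit 0) (.e (nat_lit 3022) (nat_lit 187) (.e (nat_lit 458496) (nat_lit 8) (.e (nat_lit 564992) (nat_lit 6) .nil)))))) (.g (nat_lit 1) (.e (nat_lit 269100) (nat_lit 0) .nil) .nil))) 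
(.lf (nat_lit 540162) (.g (nat_lit 417) (.e (nat_lit 90130) (nat_lit 9) (.e (nat_lit 2612) (nat_lit 163) (.e (nat_lit 164326) (nat_lit 230) .nil))) (.g (nat_lit 0) (.e (nat_lit 270126) (nat_lit 0) .nil) .nil)))) (.nd (nat_lit 9) 
(.lf (nat_lit 539906) (.g (nat_lit 1332) (.e (nat_lit 81946) (nat_lit 20) (.e (nat_lit 2391) (nat_lit 156) (.e (nat_lit 819221) (nat_lit 6) (.e (nat_lit 188427) (nat_lit 20) (.e (nat_lit 3281) (nat_lit 200) (.e (nat_lit 564992) (nat_lit 6) .nil)))))) (.g (nat_lit 1) (.e (nat_lit 269497) (nat_lit 0) .nil) .nil))) 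
(.lf (nat_lit 540418) (.g (nat_lit 1796) (.e (nat_lit 90167) (nat_lit 13) (.e (nat_lit 172067) (nat_lit 3) (.e (nat_lit 204837) (nat_lit 20) (.e (nat_lit 114708) (nat_lit 20) (.e (nat_lit 1800) (nat_lit 119) .nil))))) (.g (nat_lit 0) (.e (nat_lit 270728) (nat_lit 0) .nil) .nil))))) (.nd (nat_lit 8) (.nd (nat_lit 9) 
(.lf (nat_lit 539778) (.g (nat_lit 744) (.e (nat_lit 81943) (nat_lit 20) (.e (nat_lit 2390) (nat_lit 156) (.e (nat_lit 819203) (nat_lit 0) (.e (nat_lit 3004) (nat_lit 186) (.e (nat_lit 450304) (nat_lit 2) (.e (nat_lit 98048) (nat_lit 6) .nil)))))) (.g (nat_lit 1) (.e (nat_lit 269324) (nat_lit 0) .nil) .nil))) 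
(.lf (nat_lit 540290) (.g (nat_lit 2039) (.e (nat_lit 90158) (nat_lit 11) (.e (nat_lit 24608) (nat_lit 3) (.e (nat_lit 98335) (nat_lit 18) (.e (nat_lit 164179) (nat_lit 154) .nil)))) (.g (nat_lit 0) (.e (nat_lit 270514) (nat_lit 0) .nil) .nil)))) (.nd (nat_lit 9) 
(.lf (nat_lit 540034) (.g (nat_lit 3428) (.e (nat_lit 81954) (nat_lit 23) (.e (nat_lit 98356) (nat_lit 26) (.e (nat_lit 426420) (nat_lit 15) (.e (nat_lit 2058) (nat_lit 142) (.e (nat_lit 704589) (nat_lit 3) (.e (nat_lit 163975) (nat_lit 30) (.e (nat_lit 573491) (nat_lit 15) .nil))))))) (.g (nat_lit 1) (.e (nat_lit 269760) (nat_lit 0) .nil) .nil))) 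
(.lf (nat_lit 540546) (.g (nat_lit 1812) (.e (nat_lit 90169) (nat_lit 13) (.e (nat_lit 172121) (nat_lit 13) (.e (nat_lit 483337) (nat_lit 9) (.e (nat_lit 426107) (nat_lit 1) (.e (nat_lit 164401) (nat_lit 256) .nil))))) (.g (nat_lit 0) (.e (nat_lit 270891) (nat_lit 0) .nil) .nil)))))) (.nd (nat_lit 7) (.nd (nat_lit 8) (.nd (nat_lit 9) 
(.lf (nat_lit 539714) (.g (nat_lit 846) (.e (nat_lit 81942) (nat_lit 20) (.e (nat_lit 2390) (nat_lit 156) (.e (nat_lit 819203) (nat_lit 0) (.e (nat_lit 3015) (nat_lit 187) (.e (nat_lit 458496) (nat_lit 8) .nil))))) (.g (nat_lit 0) (.e (nat_lit 269188) (nat_lit 0) .nil) .nil))) 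
(.lf (nat_lit 540226) (.g (nat_lit 1754) (.e (nat_lit 90134) (nat_lit 9) (.e (nat_lit 2828) (nat_lit 182) (.e (nat_lit 409645) (nat_lit 18) (.e (nat_lit 303117) (nat_lit 2) .nil)))) (.g (nat_lit 0) (.e (nat_lit 270317) (nat_lit 0) .nil) .nil)))) (.nd (nat_lit 9) 
(.lf (nat_lit 539970) (.g (nat_lit 1562) (.e (nat_lit 81947) (nat_lit 20) (.e (nat_lit 2391) (nat_lit 156) (.e (nat_lit 819204) (nat_lit 0) (.e (nat_lit 2998) (nat_lit 186) (.e (nat_lit 450304) (nat_lit 2) (.e (nat_lit 98048) (nat_lit 6) .nil)))))) (.g (nat_lit 1) (.e (nat_lit 269590) (nat_lit 0) .nil) .nil))) 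
(.lf (nat_lit 540482) (.g (nat_lit 1899) (.e (nat_lit 90168) (nat_lit 13) (.e (nat_lit 172067) (nat_lit 3) (.e (nat_lit 204837) (nat_lit 20) (.e (nat_lit 114706) (nat_lit 20) .nil)))) (.g (nat_lit 0) (.e (nat_lit 270816) (nat_lit 0) .nil) .nil))))) (.nd (nat_lit 8) (.nd (nat_lit 9) 
(.lf (nat_lit 539842) (.g (nat_lit 780) (.e (nat_lit 81946) (nat_lit 20) (.e (nat_lit 1886) (nat_lit 127) (.e (nat_lit 581652) (nat_lit 5) (.e (nat_lit 180284) (nat_lit 45) (.e (nat_lit 2580) (nat_lit 161) (.e (nat_lit 48896) (nat_lit 6) .nil)))))) (.g (nat_lit 1) (.e (nat_lit 269408) (nat_lit 0) .nil) .nil))) 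
(.lf (nat_lit 540354) (.g (nat_lit 521) (.e (nat_lit 90160) (nat_lit 11) (.e (nat_lit 24627) (nat_lit 9) (.e (nat_lit 336456) (nat_lit 34) .nil))) (.g (nat_lit 0) (.e (nat_lit 270612) (nat_lit 0) .nil) .nil)))) (.nd (nat_lit 9) 
(.lf (nat_lit 540098) (.g (nat_lit 3365) (.e (nat_lit 81956) (nat_lit 23) (.e (nat_lit 98350) (nat_lit 24) (.e (nat_lit 409643) (nat_lit 18) (.e (nat_lit 303117) (nat_lit 2) (.e (nat_lit 196672) (nat_lit 15) .nil))))) (.g (nat_lit 1) (.e (nat_lit 269876) (nat_lit 0) .nil) .nil))) 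
(.lf (nat_lit 540610) (.g (nat_lit 3289) (.e (nat_lit 90170) (nat_lit 13) (.e (nat_lit 172106) (nat_lit 10) (.e (nat_lit 434231) (nat_lit 23) (.e (nat_lit 532523) (nat_lit 7) (.e (nat_lit 319512) (nat_lit 10) .nil))))) (.g (nat_lit 0) (.e (nat_lit 270967) (nat_lit 0) .nil) .nil))))))) (.nd (nat_lit 6) (.nd (nat_lit 7) (.nd (nat_lit 8) (.nd (nat_lit 9) 
(.lf (nat_lit 539682) (.g (nat_lit 1080) (.e (nat_lit 81939) (nat_lit 20) (.e (nat_lit 2391) (nat_lit 156) (.e (nat_lit 819204) (nat_lit 0) (.e (nat_lit 2988) (nat_lit 186) (.e (nat_lit 450304) (nat_lit 2) (.e (nat_lit 98048) (nat_lit 6) .nil)))))) (.g (nat_lit 1) (.e (nat_lit 269142) (nat_lit 0) .nil) .nil))) 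
(.lf (nat_lit 540194) (.g (nat_lit 1905) (.e (nat_lit 90130) (nat_lit 9) (.e (nat_lit 2830) (nat_lit 182) (.e (nat_lit 409648) (nat_lit 18) (.e (nat_lit 303116) (nat_lit 2) .nil)))) (.g (nat_lit 0) (.e (nat_lit 270185) (nat_lit 0) .nil) .nil)))) (.nd (nat_lit 9) 
(.lf (nat_lit 539938) (.g (nat_lit 824) (.e (nat_lit 81947) (nat_lit 20) (.e (nat_lit 2390) (nat_lit 156) (.e (nat_lit 819203) (nat_lit 0) (.e (nat_lit 3021) (nat_lit 187) (.e (nat_lit 458496) (nat_lit 8) (.e (nat_lit 564992) (nat_lit 6) .nil)))))) (.g (nat_lit 1) (.e (nat_lit 269543) (nat_lit 0) .nil) .nil))) 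
(.lf (nat_lit 540450) (.g (nat_lit 2320) (.e (nat_lit 90167) (nat_lit 13) (.e (nat_lit 172120) (nat_lit 12) (.e (nat_lit 475185) (nat_lit 29) (.e (nat_lit 557103) (nat_lit 14) .nil)))) (.g (nat_lit 0) (.e (nat_lit 270767) (nat_lit 0) .nil) .nil))))) (.nd (nat_lit 8) (.nd (nat_lit 9) 
(.lf (nat_lit 539810) (.g (nat_lit 1268) (.e (nat_lit 81943) (nat_lit 20) (.e (nat_lit 2391) (nat_lit 156) (.e (nat_lit 819203) (nat_lit 0) (.e (nat_lit 3027) (nat_lit 187) (.e (nat_lit 458496) (nat_lit 8) (.e (nat_lit 564992) (nat_lit 6) .nil)))))) (.g (nat_lit 1) (.e (nat_lit 269363) (nat_lit 0) .nil) .nil))) 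
(.lf (nat_lit 540322) (.g (nat_lit 3500) (.e (nat_lit 90158) (nat_lit 11) (.e (nat_lit 24630) (nat_lit 9) (.e (nat_lit 336456) (nat_lit 34) (.e (nat_lit 483363) (nat_lit 18) (.e (nat_lit 57853) (nat_lit 252) (.e (nat_lit 57371) (nat_lit 2) .nil)))))) (.g (nat_lit 1) (.e (nat_lit 270551) (nat_lit 0) .nil) .nil)))) (.nd (nat_lit 9) 
(.lf (nat_lit 540066) (.g (nat_lit 2140) (.e (nat_lit 81955) (nat_lit 23) (.e (nat_lit 98350) (nat_lit 24) (.e (nat_lit 409645) (nat_lit 18) (.e (nat_lit 303106) (nat_lit 0) (.e (nat_lit 3114) (nat_lit 193) (.e (nat_lit 500075) (nat_lit 20) .nil)))))) (.g (nat_lit 1) (.e (nat_lit 269831) (nat_lit 0) .nil) .nil))) 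
(.lf (nat_lit 540578) (.g (nat_lit 3299) (.e (nat_lit 90170) (nat_lit 13) (.e (nat_lit 172067) (nat_lit 3) (.e (nat_lit 204831) (nat_lit 18) (.e (nat_lit 57688) (nat_lit 156) (.e (nat_lit 163873) (nat_lit 3) (.e (nat_lit 204838) (nat_lit 20) (.e (nat_lit 114715) (nat_lit 22) .nil))))))) (.g (nat_lit 1) (.e (nat_lit 270935) (nat_lit 0) .nil) .nil)))))) 
(.nd (nat_lit 7) (.nd (nat_lit 8) (.nd (nat_lit 9) 
(.lf (nat_lit 539746) (.g (nat_lit 974) (.e (nat_lit 81942) (nat_lit 20) (.e (nat_lit 2391) (nat_lit 156) (.e (nat_lit 819221) (nat_lit 6) (.e (nat_lit 188427) (nat_lit 20) (.e (nat_lit 3282) (nat_lit 200) (.e (nat_lit 564992) (nat_lit 6) .nil)))))) (.g (nat_lit 1) (.e (nat_lit 269224) (nat_lit 0) .nil) .nil))) 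
(.lf (nat_lit 540258) (.g (nat_lit 2067) (.e (nat_lit 98048) (nat_lit 9) (.e (nat_lit 3013) (nat_lit 187) (.e (nat_lit 450588) (nat_lit 10) (.e (nat_lit 573474) (nat_lit 12) (.e (nat_lit 57572) (nat_lit 54) .nil))))) (.g (nat_lit 0) (.e (nat_lit 270444) (nat_lit 0) .nil) .nil)))) (.nd (nat_lit 9) 
(.lf (nat_lit 540002) (.g (nat_lit 1572) (.e (nat_lit 81951) (nat_lit 22) (.e (nat_lit 90134) (nat_lit 9) (.e (nat_lit 3096) (nat_lit 192) (.e (nat_lit 491550) (nat_lit 9) (.e (nat_lit 336306) (nat_lit 15) .nil))))) (.g (nat_lit 0) (.e (nat_lit 269692) (nat_lit 0) .nil) .nil))) 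
(.lf (nat_lit 540514) (.g (nat_lit 2013) (.e (nat_lit 90168) (nat_lit 13) (.e (nat_lit 172120) (nat_lit 12) (.e (nat_lit 475185) (nat_lit 29) (.e (nat_lit 557103) (nat_lit 14) .nil)))) (.g (nat_lit 0) (.e (nat_lit 270851) (nat_lit 0) .nil) .nil))))) (.nd (nat_lit 8) (.nd (nat_lit 9) 
(.lf (nat_lit 539874) (.g (nat_lit 1564) (.e (nat_lit 81946) (nat_lit 20) (.e (nat_lit 2390) (nat_lit 156) (.e (nat_lit 819204) (nat_lit 0) (.e (nat_lit 3022) (nat_lit 187) (.e (nat_lit 458496) (nat_lit 8) (.e (nat_lit 564992) (nat_lit 6) .nil)))))) (.g (nat_lit 1) (.e (nat_lit 269455) (nat_lit 0) .nil) .nil))) 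
(.lf (nat_lit 540386) (.g (nat_lit 3410) (.e (nat_lit 90166) (nat_lit 13) (.e (nat_lit 172113) (nat_lit 10) (.e (nat_lit 434245) (nat_lit 28) (.e (nat_lit 573474) (nat_lit 12) (.e (nat_lit 57574) (nat_lit 55) (.e (nat_lit 778466) (nat_lit 11) (.e (nat_lit 24603) (nat_lit 2) .nil))))))) (.g (nat_lit 1) (.e (nat_lit 270693) (nat_lit 0) .nil) .nil)))) (.nd (nat_lit 9) 
(.lf (nat_lit 540130) (.g (nat_lit 2391) (.e (nat_lit 81957) (nat_lit 24) (.e (nat_lit 123025) (nat_lit 127) (.e (nat_lit 229415) (nat_lit 15) (.e (nat_lit 450563) (nat_lit 0) (.e (nat_lit 6808) (nat_lit 365) (.e (nat_lit 7936) (nat_lit 90) .nil)))))) (.g (nat_lit 1) (.e (nat_lit 269926) (nat_lit 0) .nil) .nil))) 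
(.lf (nat_lit 540642) (.g (nat_lit 3427) (.e (nat_lit 90170) (nat_lit 13) (.e (nat_lit 172106) (nat_lit 10) (.e (nat_lit 434231) (nat_lit 23) (.e (nat_lit 532535) (nat_lit 9) (.e (nat_lit 335985) (nat_lit 1) (.e (nat_lit 57926) (nat_lit 282) (.e (nat_lit 171776) (nat_lit 63) .nil))))))) (.g (nat_lit 1) (.e (nat_lit 270999) (nat_lit 0) .nil) .nil)))))))) 
(.nd (nat_lit 5) (.nd (nat_lit 6) (.nd (nat_lit 7) (.nd (nat_lit 8) (.nd (nat_lit 9) 
(.lf (nat_lit 539666) (.g (nat_lit 648) (.e (nat_lit 81939) (nat_lit 20) (.e (nat_lit 2390) (nat_lit 156) (.e (nat_lit 819221) (nat_lit 6) (.e (nat_lit 188427) (nat_lit 20) (.e (nat_lit 3282) (nat_lit 200) (.e (nat_lit 564992) (nat_lit 6) .nil)))))) (.g (nat_lit 1) (.e (nat_lit 269120) (nat_lit 0) .nil) .nil))) 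
(.lf (nat_lit 540178) (.g (nat_lit 3854) (.e (nat_lit 90130) (nat_lit 9) (.e (nat_lit 2830) (nat_lit 182) (.e (nat_lit 409646) (nat_lit 18) (.e (nat_lit 303116) (nat_lit 2) (.e (nat_lit 196674) (nat_lit 15) .nil))))) (.g (nat_lit 0) (.e (nat_lit 270164) (nat_lit 0) .nil) .nil)))) (.nd (nat_lit 9) 
(.lf (nat_lit 539922) (.g (nat_lit 766) (.e (nat_lit 81947) (nat_lit 20) (.e (nat_lit 1886) (nat_lit 127) (.e (nat_lit 581652) (nat_lit 5) (.e (nat_lit 180284) (nat_lit 45) (.e (nat_lit 2580) (nat_lit 161) (.e (nat_lit 48896) (nat_lit 6) .nil)))))) (.g (nat_lit 1) (.e (nat_lit 269522) (nat_lit 0) .nil) .nil))) 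
(.lf (nat_lit 540434) (.g (nat_lit 2252) (.e (nat_lit 90167) (nat_lit 13) (.e (nat_lit 172105) (nat_lit 10) (.e (nat_lit 434247) (nat_lit 28) (.e (nat_lit 573477) (nat_lit 12) (.e (nat_lit 57574) (nat_lit 55) (.e (nat_lit 778466) (nat_lit 11) (.e (nat_lit 24603) (nat_lit 2) .nil))))))) (.g (nat_lit 1) (.e (nat_lit 270751) (nat_lit 0) .nil) .nil))))) (.nd (nat_lit 8) (.nd (nat_lit 9) 
(.lf (nat_lit 539794) (.g (nat_lit 917) (.e (nat_lit 81943) (nat_lit 20) (.e (nat_lit 2390) (nat_lit 156) (.e (nat_lit 819204) (nat_lit 0) (.e (nat_lit 3028) (nat_lit 187) (.e (nat_lit 458496) (nat_lit 8) (.e (nat_lit 564992) (nat_lit 6) .nil)))))) (.g (nat_lit 1) (.e (nat_lit 269344) (nat_lit 0) .nil) .nil))) 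
(.lf (nat_lit 540306) (.g (nat_lit 3017) (.e (nat_lit 90158) (nat_lit 11) (.e (nat_lit 24628) (nat_lit 9) (.e (nat_lit 336454) (nat_lit 34) (.e (nat_lit 483366) (nat_lit 18) (.e (nat_lit 57854) (nat_lit 252) (.e (nat_lit 57370) (nat_lit 2) .nil)))))) (.g (nat_lit 1) (.e (nat_lit 270535) (nat_lit 0) .nil) .nil)))) (.nd (nat_lit 9) 
(.lf (nat_lit 540050) (.g (nat_lit 3883) (.e (nat_lit 81954) (nat_lit 23) (.e (nat_lit 98384) (nat_lit 32) (.e (nat_lit 475196) (nat_lit 40) (.e (nat_lit 704590) (nat_lit 3) (.e (nat_lit 163975) (nat_lit 30) (.e (nat_lit 573491) (nat_lit 15) .nil)))))) (.g (nat_lit 1) (.e (nat_lit 269811) (nat_lit 0) .nil) .nil))) 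
(.lf (nat_lit 540562) (.g (nat_lit 4254) (.e (nat_lit 90170) (nat_lit 13) (.e (nat_lit 172042) (nat_lit 0) (.e (nat_lit 3409) (nat_lit 212) (.e (nat_lit 655375) (nat_lit 3) (.e (nat_lit 163977) (nat_lit 30) (.e (nat_lit 573493) (nat_lit 15) (.e (nat_lit 81953) (nat_lit 22) .nil))))))) (.g (nat_lit 1) (.e (nat_lit 270910) (nat_lit 0) .nil) .nil)))))) 
(.nd (nat_lit 7) (.nd (nat_lit 8) (.nd (nat_lit 9) 
(.lf (nat_lit 539730) (.g (nat_lit 741) (.e (nat_lit 81942) (nat_lit 20) (.e (nat_lit 2390) (nat_lit 156) (.e (nat_lit 819221) (nat_lit 6) (.e (nat_lit 188431) (nat_lit 20) (.e (nat_lit 3281) (nat_lit 200) (.e (nat_lit 564992) (nat_lit 6) .nil)))))) (.g (nat_lit 1) (.e (nat_lit 269206) (nat_lit 0) .nil) .nil))) 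
(.lf (nat_lit 540242) (.g (nat_lit 1344) (.e (nat_lit 90134) (nat_lit 9) (.e (nat_lit 3071) (nat_lit 190) (.e (nat_lit 475179) (nat_lit 24) (.e (nat_lit 516150) (nat_lit 9) .nil)))) (.g (nat_lit 0) (.e (nat_lit 270369) (nat_lit 0) .nil) .nil)))) (.nd (nat_lit 9) 
(.lf (nat_lit 539986) (.g (nat_lit 1373) (.e (nat_lit 81947) (nat_lit 20) (.e (nat_lit 2391) (nat_lit 156) (.e (nat_lit 819221) (nat_lit 6) (.e (nat_lit 188427) (nat_lit 20) (.e (nat_lit 3282) (nat_lit 200) (.e (nat_lit 564992) (nat_lit 6) .nil)))))) (.g (nat_lit 1) (.e (nat_lit 269613) (nat_lit 0) .nil) .nil))) 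
(.lf (nat_lit 540498) (.g (nat_lit 1490) (.e (nat_lit 90168) (nat_lit 13) (.e (nat_lit 172097) (nat_lit 9) (.e (nat_lit 426125) (nat_lit 2) (.e (nat_lit 196661) (nat_lit 12) .nil)))) (.g (nat_lit 0) (.e (nat_lit 270832) (nat_lit 0) .nil) .nil))))) (.nd (nat_lit 8) (.nd (nat_lit 9) 
(.lf (nat_lit 539858) (.g (nat_lit 902) (.e (nat_lit 81946) (nat_lit 20) (.e (nat_lit 2390) (nat_lit 156) (.e (nat_lit 819203) (nat_lit 0) (.e (nat_lit 2998) (nat_lit 186) (.e (nat_lit 450304) (nat_lit 2) (.e (nat_lit 98048) (nat_lit 6) .nil)))))) (.g (nat_lit 1) (.e (nat_lit 269434) (nat_lit 0) .nil) .nil))) 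
(.lf (nat_lit 540370) (.g (nat_lit 612) (.e (nat_lit 90165) (nat_lit 12) (.e (nat_lit 164022) (nat_lit 46) (.e (nat_lit 704744) (nat_lit 12) .nil))) (.g (nat_lit 0) (.e (nat_lit 270655) (nat_lit 0) .nil) .nil)))) (.nd (nat_lit 9) 
(.lf (nat_lit 540114) (.g (nat_lit 640) (.e (nat_lit 81956) (nat_lit 23) (.e (nat_lit 98386) (nat_lit 32) (.e (nat_lit 483072) (nat_lit 40) .nil))) (.g (nat_lit 0) (.e (nat_lit 269908) (nat_lit 0) .nil) .nil))) 
(.lf (nat_lit 540626) (.g (nat_lit 2701) (.e (nat_lit 90170) (nat_lit 13) (.e (nat_lit 172106) (nat_lit 10) (.e (nat_lit 434231) (nat_lit 23) (.e (nat_lit 532529) (nat_lit 9) (.e (nat_lit 343808) (nat_lit 1) (.e (nat_lit 57929) (nat_lit 282) (.e (nat_lit 171776) (nat_lit 63) .nil))))))) (.g (nat_lit 1) (.e (nat_lit 270983) (nat_lit 0) .nil) .nil))))))) 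
(.nd (nat_lit 6) (.nd (nat_lit 7) (.nd (nat_lit 8) (.nd (nat_lit 9) 
(.lf (nat_lit 539698) (.g (nat_lit 737) (.e (nat_lit 81939) (nat_lit 20) (.e (nat_lit 2391) (nat_lit 156) (.e (nat_lit 819221) (nat_lit 6) (.e (nat_lit 188430) (nat_lit 20) (.e (nat_lit 3282) (nat_lit 200) (.e (nat_lit 564992) (nat_lit 6) .nil)))))) (.g (nat_lit 1) (.e (nat_lit 269161) (nat_lit 0) .nil) .nil))) 
(.lf (nat_lit 540210) (.g (nat_lit 2619) (.e (nat_lit 90130) (nat_lit 9) (.e (nat_lit 2830) (nat_lit 182) (.e (nat_lit 409649) (nat_lit 18) (.e (nat_lit 303118) (nat_lit 3) (.e (nat_lit 212736) (nat_lit 26) (.e (nat_lit 336158) (nat_lit 9) (.e (nat_lit 336004) (nat_lit 2) .nil))))))) (.g (nat_lit 1) (.e (nat_lit 270230) (nat_lit 0) .nil) .nil)))) (.nd (nat_lit 9) 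
(.lf (nat_lit 539954) (.g (nat_lit 1003) (.e (nat_lit 81947) (nat_lit 20) (.e (nat_lit 2390) (nat_lit 156) (.e (nat_lit 819221) (nat_lit 6) (.e (nat_lit 188427) (nat_lit 20) (.e (nat_lit 3282) (nat_lit 200) (.e (nat_lit 564992) (nat_lit 6) .nil)))))) (.g (nat_lit 1) (.e (nat_lit 269564) (nat_lit 0) .nil) .nil))) 
(.lf (nat_lit 540466) (.g (nat_lit 1924) (.e (nat_lit 90167) (nat_lit 13) (.e (nat_lit 172126) (nat_lit 14) (.e (nat_lit 491537) (nat_lit 2) (.e (nat_lit 90185) (nat_lit 17) .nil)))) (.g (nat_lit 0) (.e (nat_lit 270787) (nat_lit 0) .nil) .nil))))) (.nd (nat_lit 8) (.nd (nat_lit 9) 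
(.lf (nat_lit 539826) (.g (nat_lit 1339) (.e (nat_lit 81943) (nat_lit 20) (.e (nat_lit 2391) (nat_lit 156) (.e (nat_lit 819221) (nat_lit 6) (.e (nat_lit 188427) (nat_lit 20) (.e (nat_lit 3281) (nat_lit 200) (.e (nat_lit 564992) (nat_lit 6) .nil)))))) (.g (nat_lit 1) (.e (nat_lit 269384) (nat_lit 0) .nil) .nil))) 
(.lf (nat_lit 540338) (.g (nat_lit 1133) (.e (nat_lit 90159) (nat_lit 11) (.e (nat_lit 24627) (nat_lit 9) (.e (nat_lit 336454) (nat_lit 34) (.e (nat_lit 483365) (nat_lit 18) .nil)))) (.g (nat_lit 0) (.e (nat_lit 270571) (nat_lit 0) .nil) .nil)))) (.nd (nat_lit 9) 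
(.lf (nat_lit 540082) (.g (nat_lit 3138) (.e (nat_lit 81955) (nat_lit 23) (.e (nat_lit 98384) (nat_lit 32) (.e (nat_lit 475198) (nat_lit 40) (.e (nat_lit 704590) (nat_lit 3) (.e (nat_lit 163975) (nat_lit 30) (.e (nat_lit 573491) (nat_lit 15) .nil)))))) (.g (nat_lit 1) (.e (nat_lit 269851) (nat_lit 0) .nil) .nil))) 
(.lf (nat_lit 540594) (.g (nat_lit 3494) (.e (nat_lit 90170) (nat_lit 13) (.e (nat_lit 172106) (nat_lit 10) (.e (nat_lit 434231) (nat_lit 23) (.e (nat_lit 532499) (nat_lit 1) (.e (nat_lit 65280) (nat_lit 233) (.e (nat_lit 2553) (nat_lit 159) (.e (nat_lit 24604) (nat_lit 2) .nil))))))) (.g (nat_lit 1) (.e (nat_lit 270951) (nat_lit 0) .nil) .nil)))))) 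
(.nd (nat_lit 7) (.nd (nat_lit 8) (.nd (nat_lit 9) 
(.lf (nat_lit 539762) (.g (nat_lit 1915) (.e (nat_lit 81943) (nat_lit 20) (.e (nat_lit 1842) (nat_lit 123) (.e (nat_lit 548889) (nat_lit 9) (.e (nat_lit 65546) (nat_lit 0) (.e (nat_lit 6676) (nat_lit 357) .nil))))) (.g (nat_lit 0) (.e (nat_lit 269282) (nat_lit 0) .nil) .nil))) 
(.lf (nat_lit 540274) (.g (nat_lit 3476) (.e (nat_lit 90156) (nat_lit 11) (.e (nat_lit 24630) (nat_lit 9) (.e (nat_lit 336456) (nat_lit 34) (.e (nat_lit 483365) (nat_lit 18) (.e (nat_lit 57851) (nat_lit 252) (.e (nat_lit 57371) (nat_lit 2) .nil)))))) (.g (nat_lit 1) (.e (nat_lit 270475) (nat_lit 0) .nil) .nil)))) (.nd (nat_lit 9) 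
(.lf (nat_lit 540018) (.g (nat_lit 3933) (.e (nat_lit 81953) (nat_lit 22) (.e (nat_lit 90133) (nat_lit 9) (.e (nat_lit 3105) (nat_lit 192) (.e (nat_lit 491566) (nat_lit 12) (.e (nat_lit 385074) (nat_lit 31) (.e (nat_lit 573493) (nat_lit 15) .nil)))))) (.g (nat_lit 1) (.e (nat_lit 269725) (nat_lit 0) .nil) .nil))) 
(.lf (nat_lit 540530) (.g (nat_lit 3265) (.e (nat_lit 90168) (nat_lit 13) (.e (nat_lit 172133) (nat_lit 15) (.e (nat_lit 2059) (nat_lit 142) (.e (nat_lit 704589) (nat_lit 3) (.e (nat_lit 163979) (nat_lit 30) .nil))))) (.g (nat_lit 0) (.e (nat_lit 270875) (nat_lit 0) .nil) .nil))))) (.nd (nat_lit 8) (.nd (nat_lit 9) 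
(.lf (nat_lit 539890) (.g (nat_lit 1564) (.e (nat_lit 81946) (nat_lit 20) (.e (nat_lit 2391) (nat_lit 156) (.e (nat_lit 819203) (nat_lit 0) (.e (nat_lit 3022) (nat_lit 187) (.e (nat_lit 458496) (nat_lit 8) (.e (nat_lit 564992) (nat_lit 6) .nil)))))) (.g (nat_lit 1) (.e (nat_lit 269477) (nat_lit 0) .nil) .nil))) 
(.lf (nat_lit 540402) (.g (nat_lit 3426) (.e (nat_lit 90166) (nat_lit 13) (.e (nat_lit 172133) (nat_lit 15) (.e (nat_lit 2059) (nat_lit 142) (.e (nat_lit 704589) (nat_lit 3) (.e (nat_lit 163976) (nat_lit 30) .nil))))) (.g (nat_lit 0) (.e (nat_lit 270712) (nat_lit 0) .nil) .nil)))) (.nd (nat_lit 9) 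
(.lf (nat_lit 540146) (.g (nat_lit 1750) (.e (nat_lit 98048) (nat_lit 0) (.e (nat_lit 375) (nat_lit 32) (.e (nat_lit 426173) (nat_lit 7) (.e (nat_lit 409611) (nat_lit 10) .nil)))) (.g (nat_lit 0) (.e (nat_lit 269963) (nat_lit 0) .nil) .nil))) 
(.lf (nat_lit 540658) (.g (nat_lit 2713) (.e (nat_lit 90170) (nat_lit 13) (.e (nat_lit 172106) (nat_lit 10) (.e (nat_lit 434231) (nat_lit 23) (.e (nat_lit 532568) (nat_lit 16) (.e (nat_lit 409344) (nat_lit 14) .nil))))) (.g (nat_lit 0) (.e (nat_lit 271015) (nat_lit 0) .nil) .nil))))))))) (.nd (nat_lit 4) (.nd (nat_lit 5) (.nd (nat_lit 6) (.nd (nat_lit 7) (.nd (nat_lit 8) (.nd (nat_lit 9) 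
(.lf (nat_lit 539658) (.g (nat_lit 1176) (.e (nat_lit 81939) (nat_lit 20) (.e (nat_lit 2390) (nat_lit 156) (.e (nat_lit 819204) (nat_lit 0) (.e (nat_lit 3016) (nat_lit 187) (.e (nat_lit 458496) (nat_lit 8) (.e (nat_lit 564992) (nat_lit 6) .nil)))))) (.g (nat_lit 1) (.e (nat_lit 269112) (nat_lit 0) .nil) .nil))) 
(.lf (nat_lit 540170) (.g (nat_lit 361) (.e (nat_lit 90130) (nat_lit 9) (.e (nat_lit 2830) (nat_lit 182) (.e (nat_lit 409643) (nat_lit 18) .nil))) (.g (nat_lit 0) (.e (nat_lit 270154) (nat_lit 0) .nil) .nil)))) (.nd (nat_lit 9) 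
(.lf (nat_lit 539914) (.g (nat_lit 1916) (.e (nat_lit 81947) (nat_lit 20) (.e (nat_lit 1799) (nat_lit 119) (.e (nat_lit 516139) (nat_lit 7) (.e (nat_lit 409649) (nat_lit 18) (.e (nat_lit 303116) (nat_lit 2) .nil))))) (.g (nat_lit 0) (.e (nat_lit 269505) (nat_lit 0) .nil) .nil))) 
(.lf (nat_lit 540426) (.g (nat_lit 2235) (.e (nat_lit 90167) (nat_lit 13) (.e (nat_lit 172067) (nat_lit 3) (.e (nat_lit 204838) (nat_lit 20) (.e (nat_lit 114718) (nat_lit 23) (.e (nat_lit 98333) (nat_lit 18) .nil))))) (.g (nat_lit 0) (.e (nat_lit 270736) (nat_lit 0) .nil) .nil))))) (.nd (nat_lit 8) (.nd (nat_lit 9) 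
(.lf (nat_lit 539786) (.g (nat_lit 1031) (.e (nat_lit 81943) (nat_lit 20) (.e (nat_lit 2390) (nat_lit 156) (.e (nat_lit 819204) (nat_lit 0) (.e (nat_lit 2989) (nat_lit 186) (.e (nat_lit 450304) (nat_lit 2) (.e (nat_lit 98048) (nat_lit 6) .nil)))))) (.g (nat_lit 1) (.e (nat_lit 269334) (nat_lit 0) .nil) .nil))) 
(.lf (nat_lit 540298) (.g (nat_lit 3877) (.e (nat_lit 90158) (nat_lit 11) (.e (nat_lit 24628) (nat_lit 9) (.e (nat_lit 336370) (nat_lit 27) (.e (nat_lit 426499) (nat_lit 27) (.e (nat_lit 335986) (nat_lit 1) (.e (nat_lit 57849) (nat_lit 252) (.e (nat_lit 57375) (nat_lit 2) .nil))))))) (.g (nat_lit 1) (.e (nat_lit 270527) (nat_lit 0) .nil) .nil)))) (.nd (nat_lit 9) 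
(.lf (nat_lit 540042) (.g (nat_lit 1641) (.e (nat_lit 81954) (nat_lit 23) (.e (nat_lit 98365) (nat_lit 26) (.e (nat_lit 426107) (nat_lit 1) (.e (nat_lit 164348) (nat_lit 240) .nil)))) (.g (nat_lit 0) (.e (nat_lit 269778) (nat_lit 0) .nil) .nil))) 
(.lf (nat_lit 540554) (.g (nat_lit 1859) (.e (nat_lit 90169) (nat_lit 13) (.e (nat_lit 172122) (nat_lit 13) (.e (nat_lit 483341) (nat_lit 9) (.e (nat_lit 426100) (nat_lit 1) (.e (nat_lit 164399) (nat_lit 256) .nil))))) (.g (nat_lit 0) (.e (nat_lit 270899) (nat_lit 0) .nil) .nil)))))) (.nd (nat_lit 7) (.nd (nat_lit 8) (.nd (nat_lit 9) 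
(.lf (nat_lit 539722) (.g (nat_lit 1171) (.e (nat_lit 81942) (nat_lit 20) (.e (nat_lit 2390) (nat_lit 156) (.e (nat_lit 819204) (nat_lit 0) (.e (nat_lit 3022) (nat_lit 187) (.e (nat_lit 458496) (nat_lit 8) (.e (nat_lit 564992) (nat_lit 6) .nil)))))) (.g (nat_lit 1) (.e (nat_lit 269196) (nat_lit 0) .nil) .nil))) 
(.lf (nat_lit 540234) (.g (nat_lit 3654) (.e (nat_lit 90134) (nat_lit 9) (.e (nat_lit 3016) (nat_lit 187) (.e (nat_lit 450588) (nat_lit 10) (.e (nat_lit 573474) (nat_lit 12) .nil)))) (.g (nat_lit 0) (.e (nat_lit 270357) (nat_lit 0) .nil) .nil)))) (.nd (nat_lit 9) 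
(.lf (nat_lit 539978) (.g (nat_lit 1851) (.e (nat_lit 81947) (nat_lit 20) (.e (nat_lit 2391) (nat_lit 156) (.e (nat_lit 819204) (nat_lit 0) (.e (nat_lit 3027) (nat_lit 187) (.e (nat_lit 458496) (nat_lit 8) (.e (nat_lit 564992) (nat_lit 6) .nil)))))) (.g (nat_lit 1) (.e (nat_lit 269602) (nat_lit 0) .nil) .nil))) 
(.lf (nat_lit 540490) (.g (nat_lit 1894) (.e (nat_lit 90168) (nat_lit 13) (.e (nat_lit 172067) (nat_lit 3) (.e (nat_lit 204838) (nat_lit 20) (.e (nat_lit 114708) (nat_lit 20) (.e (nat_lit 1800) (nat_lit 119) .nil))))) (.g (nat_lit 0) (.e (nat_lit 270824) (nat_lit 0) .nil) .nil))))) (.nd (nat_lit 8) (.nd (nat_lit 9) 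
(.lf (nat_lit 539850) (.g (nat_lit 3063) (.e (nat_lit 81946) (nat_lit 20) (.e (nat_lit 1858) (nat_lit 124) (.e (nat_lit 557070) (nat_lit 9) (.e (nat_lit 2744) (nat_lit 174) (.e (nat_lit 253991) (nat_lit 11) (.e (nat_lit 16413) (nat_lit 2) (.e (nat_lit 196674) (nat_lit 15) .nil))))))) (.g (nat_lit 1) (.e (nat_lit 269416) (nat_lit 0) .nil) .nil))) 
(.lf (nat_lit 540362) (.g (nat_lit 2069) (.e (nat_lit 90160) (nat_lit 11) (.e (nat_lit 24630) (nat_lit 9) (.e (nat_lit 336456) (nat_lit 34) (.e (nat_lit 483364) (nat_lit 18) (.e (nat_lit 57853) (nat_lit 252) .nil))))) (.g (nat_lit 0) (.e (nat_lit 270620) (nat_lit 0) .nil) .nil)))) (.nd (nat_lit 9) 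
(.lf (nat_lit 540106) (.g (nat_lit 4521) (.e (nat_lit 81956) (nat_lit 23) (.e (nat_lit 98353) (nat_lit 25) (.e (nat_lit 417820) (nat_lit 10) (.e (nat_lit 5626) (nat_lit 312) (.e (nat_lit 2668) (nat_lit 167) (.e (nat_lit 196671) (nat_lit 15) .nil)))))) (.g (nat_lit 1) (.e (nat_lit 269885) (nat_lit 0) .nil) .nil))) 
(.lf (nat_lit 540618) (.g (nat_lit 1489) (.e (nat_lit 90170) (nat_lit 13) (.e (nat_lit 172106) (nat_lit 10) (.e (nat_lit 434231) (nat_lit 23) (.e (nat_lit 532524) (nat_lit 8) .nil)))) (.g (nat_lit 0) (.e (nat_lit 270975) (nat_lit 0) .nil) .nil))))))) (.nd (nat_lit 6) (.nd (nat_lit 7) (.nd (nat_lit 8) (.nd (nat_lit 9) 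
(.lf (nat_lit 539690) (.g (nat_lit 1446) (.e (nat_lit 81939) (nat_lit 20) (.e (nat_lit 2391) (nat_lit 156) (.e (nat_lit 819204) (nat_lit 0) (.e (nat_lit 3027) (nat_lit 187) (.e (nat_lit 458496) (nat_lit 8) (.e (nat_lit 564992) (nat_lit 6) .nil)))))) (.g (nat_lit 1) (.e (nat_lit 269153) (nat_lit 0) .nil) .nil))) 
(.lf (nat_lit 540202) (.g (nat_lit 1898) (.e (nat_lit 90130) (nat_lit 9) (.e (nat_lit 2830) (nat_lit 182) (.e (nat_lit 409649) (nat_lit 18) (.e (nat_lit 303104) (nat_lit 0) .nil)))) (.g (nat_lit 0) (.e (nat_lit 270211) (nat_lit 0) .nil) .nil)))) (.nd (nat_lit 9) 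
(.lf (nat_lit 539946) (.g (nat_lit 1333) (.e (nat_lit 81947) (nat_lit 20) (.e (nat_lit 2390) (nat_lit 156) (.e (nat_lit 819204) (nat_lit 0) (.e (nat_lit 3004) (nat_lit 186) (.e (nat_lit 450304) (nat_lit 2) (.e (nat_lit 98048) (nat_lit 6) .nil)))))) (.g (nat_lit 1) (.e (nat_lit 269554) (nat_lit 0) .nil) .nil))) 
(.lf (nat_lit 540458) (.g (nat_lit 2421) (.e (nat_lit 90167) (nat_lit 13) (.e (nat_lit 172126) (nat_lit 14) (.e (nat_lit 491537) (nat_lit 2) (.e (nat_lit 90125) (nat_lit 9) .nil)))) (.g (nat_lit 0) (.e (nat_lit 270775) (nat_lit 0) .nil) .nil))))) (.nd (nat_lit 8) (.nd (nat_lit 9) 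
(.lf (nat_lit 539818) (.g (nat_lit 1851) (.e (nat_lit 81943) (nat_lit 20) (.e (nat_lit 2391) (nat_lit 156) (.e (nat_lit 819204) (nat_lit 0) (.e (nat_lit 3016) (nat_lit 187) (.e (nat_lit 458496) (nat_lit 8) (.e (nat_lit 564992) (nat_lit 6) .nil)))))) (.g (nat_lit 1) (.e (nat_lit 269375) (nat_lit 0) .nil) .nil))) 
(.lf (nat_lit 540330) (.g (nat_lit 3201) (.e (nat_lit 90158) (nat_lit 11) (.e (nat_lit 24630) (nat_lit 9) (.e (nat_lit 336456) (nat_lit 34) (.e (nat_lit 483365) (nat_lit 18) (.e (nat_lit 57854) (nat_lit 252) (.e (nat_lit 57370) (nat_lit 2) .nil)))))) (.g (nat_lit 1) (.e (nat_lit 270559) (nat_lit 0) .nil) .nil)))) (.nd (nat_lit 9) 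
(.lf (nat_lit 540074) (.g (nat_lit 3307) (.e (nat_lit 81955) (nat_lit 23) (.e (nat_lit 98350) (nat_lit 24) (.e (nat_lit 409649) (nat_lit 18) (.e (nat_lit 303116) (nat_lit 2) (.e (nat_lit 196674) (nat_lit 15) .nil))))) (.g (nat_lit 1) (.e (nat_lit 269839) (nat_lit 0) .nil) .nil))) 
(.lf (nat_lit 540586) (.g (nat_lit 3371) (.e (nat_lit 90170) (nat_lit 13) (.e (nat_lit 172106) (nat_lit 10) (.e (nat_lit 434231) (nat_lit 23) (.e (nat_lit 532481) (nat_lit 0) (.e (nat_lit 6198) (nat_lit 332) .nil))))) (.g (nat_lit 0) (.e (nat_lit 270943) (nat_lit 0) .nil) .nil)))))) (.nd (nat_lit 7) (.nd (nat_lit 8) (.nd (nat_lit 9) 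
(.lf (nat_lit 539754) (.g (nat_lit 634) (.e (nat_lit 81943) (nat_lit 20) (.e (nat_lit 1801) (nat_lit 119) (.e (nat_lit 516139) (nat_lit 7) (.e (nat_lit 409647) (nat_lit 18) .nil)))) (.g (nat_lit 0) (.e (nat_lit 269232) (nat_lit 0) .nil) .nil))) 
(.lf (nat_lit 540266) (.g (nat_lit 1460) (.e (nat_lit 90156) (nat_lit 11) (.e (nat_lit 24628) (nat_lit 9) (.e (nat_lit 336456) (nat_lit 34) (.e (nat_lit 483365) (nat_lit 18) .nil)))) (.g (nat_lit 0) (.e (nat_lit 270465) (nat_lit 0) .nil) .nil)))) (.nd (nat_lit 9) 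
(.lf (nat_lit 540010) (.g (nat_lit 991) (.e (nat_lit 81951) (nat_lit 22) (.e (nat_lit 90170) (nat_lit 13) (.e (nat_lit 172052) (nat_lit 0) .nil))) (.g (nat_lit 0) (.e (nat_lit 269700) (nat_lit 0) .nil) .nil))) 
(.lf (nat_lit 540522) (.g (nat_lit 2872) (.e (nat_lit 90168) (nat_lit 13) (.e (nat_lit 172123) (nat_lit 13) (.e (nat_lit 483337) (nat_lit 9) (.e (nat_lit 426107) (nat_lit 1) (.e (nat_lit 164401) (nat_lit 256) (.e (nat_lit 57373) (nat_lit 2) .nil)))))) (.g (nat_lit 1) (.e (nat_lit 270859) (nat_lit 0) .nil) .nil))))) (.nd (nat_lit 8) (.nd (nat_lit 9) 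
(.lf (nat_lit 539882) (.g (nat_lit 1062) (.e (nat_lit 81946) (nat_lit 20) (.e (nat_lit 2390) (nat_lit 156) (.e (nat_lit 819221) (nat_lit 6) (.e (nat_lit 188431) (nat_lit 20) (.e (nat_lit 3281) (nat_lit 200) (.e (nat_lit 564992) (nat_lit 6) .nil)))))) (.g (nat_lit 1) (.e (nat_lit 269465) (nat_lit 0) .nil) .nil))) 
(.lf (nat_lit 540394) (.g (nat_lit 3191) (.e (nat_lit 90166) (nat_lit 13) (.e (nat_lit 172115) (nat_lit 10) (.e (nat_lit 434231) (nat_lit 23) (.e (nat_lit 532523) (nat_lit 7) (.e (nat_lit 319534) (nat_lit 16) .nil))))) (.g (nat_lit 0) (.e (nat_lit 270703) (nat_lit 0) .nil) .nil)))) (.nd (nat_lit 9) 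
(.lf (nat_lit 540138) (.g (nat_lit 1462) (.e (nat_lit 81959) (nat_lit 24) (.e (nat_lit 123198) (nat_lit 266) (.e (nat_lit 57436) (nat_lit 17) (.e (nat_lit 376835) (nat_lit 0) (.e (nat_lit 3631) (nat_lit 227) (.e (nat_lit 778326) (nat_lit 6) .nil)))))) (.g (nat_lit 1) (.e (nat_lit 269937) (nat_lit 0) .nil) .nil))) 
(.lf (nat_lit 540650) (.g (nat_lit 5094) (.e (nat_lit 90170) (nat_lit 13) (.e (nat_lit 172106) (nat_lit 10) (.e (nat_lit 434231) (nat_lit 23) (.e (nat_lit 532535) (nat_lit 9) (.e (nat_lit 335990) (nat_lit 1) (.e (nat_lit 57926) (nat_lit 282) (.e (nat_lit 171776) (nat_lit 63) .nil))))))) (.g (nat_lit 1) (.e (nat_lit 271007) (nat_lit 0) .nil) .nil)))))))) 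
(.nd (nat_lit 5) (.nd (nat_lit 6) (.nd (nat_lit 7) (.nd (nat_lit 8) (.nd (nat_lit 9) 
(.lf (nat_lit 539674) (.g (nat_lit 810) (.e (nat_lit 81939) (nat_lit 20) (.e (nat_lit 2391) (nat_lit 156) (.e (nat_lit 819203) (nat_lit 0) (.e (nat_lit 2998) (nat_lit 186) (.e (nat_lit 450304) (nat_lit 2) (.e (nat_lit 98048) (nat_lit 6) .nil)))))) (.g (nat_lit 1) (.e (nat_lit 269130) (nat_lit 0) .nil) .nil))) 
(.lf (nat_lit 540186) (.g (nat_lit 2367) (.e (nat_lit 90130) (nat_lit 9) (.e (nat_lit 2830) (nat_lit 182) (.e (nat_lit 409647) (nat_lit 18) (.e (nat_lit 303118) (nat_lit 3) (.e (nat_lit 204877) (nat_lit 31) (.e (nat_lit 376863) (nat_lit 22) .nil)))))) (.g (nat_lit 1) (.e (nat_lit 270174) (nat_lit 0) .nil) .nil)))) (.nd (nat_lit 9) 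
(.lf (nat_lit 539930) (.g (nat_lit 1587) (.e (nat_lit 81947) (nat_lit 20) (.e (nat_lit 1858) (nat_lit 124) (.e (nat_lit 557093) (nat_lit 12) (.e (nat_lit 171776) (nat_lit 48) .nil)))) (.g (nat_lit 0) (.e (nat_lit 269530) (nat_lit 0) .nil) .nil))) 
(.lf (nat_lit 540442) (.g (nat_lit 3492) (.e (nat_lit 90167) (nat_lit 13) (.e (nat_lit 172115) (nat_lit 10) (.e (nat_lit 434231) (nat_lit 23) (.e (nat_lit 532523) (nat_lit 7) (.e (nat_lit 319530) (nat_lit 16) .nil))))) (.g (nat_lit 0) (.e (nat_lit 270759) (nat_lit 0) .nil) .nil))))) (.nd (nat_lit 8) (.nd (nat_lit 9) 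
(.lf (nat_lit 539802) (.g (nat_lit 938) (.e (nat_lit 81943) (nat_lit 20) (.e (nat_lit 2390) (nat_lit 156) (.e (nat_lit 819221) (nat_lit 6) (.e (nat_lit 188431) (nat_lit 20) (.e (nat_lit 3282) (nat_lit 200) (.e (nat_lit 564992) (nat_lit 6) .nil)))))) (.g (nat_lit 1) (.e (nat_lit 269353) (nat_lit 0) .nil) .nil))) 
(.lf (nat_lit 540314) (.g (nat_lit 3049) (.e (nat_lit 90158) (nat_lit 11) (.e (nat_lit 24628) (nat_lit 9) (.e (nat_lit 336456) (nat_lit 34) (.e (nat_lit 483365) (nat_lit 18) (.e (nat_lit 57853) (nat_lit 252) (.e (nat_lit 57370) (nat_lit 2) .nil)))))) (.g (nat_lit 1) (.e (nat_lit 270543) (nat_lit 0) .nil) .nil)))) (.nd (nat_lit 9) 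
(.lf (nat_lit 540058) (.g (nat_lit 2765) (.e (nat_lit 81954) (nat_lit 23) (.e (nat_lit 98386) (nat_lit 32) (.e (nat_lit 475199) (nat_lit 40) (.e (nat_lit 704590) (nat_lit 3) (.e (nat_lit 163975) (nat_lit 30) (.e (nat_lit 573491) (nat_lit 15) .nil)))))) (.g (nat_lit 1) (.e (nat_lit 269821) (nat_lit 0) .nil) .nil))) 
(.lf (nat_lit 540570) (.g (nat_lit 3979) (.e (nat_lit 90170) (nat_lit 13) (.e (nat_lit 172067) (nat_lit 3) (.e (nat_lit 204829) (nat_lit 18) (.e (nat_lit 57688) (nat_lit 156) (.e (nat_lit 163874) (nat_lit 3) (.e (nat_lit 204836) (nat_lit 20) (.e (nat_lit 114715) (nat_lit 22) .nil))))))) (.g (nat_lit 1) (.e (nat_lit 270927) (nat_lit 0) .nil) .nil)))))) 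
(.nd (nat_lit 7) (.nd (nat_lit 8) (.nd (nat_lit 9) 
(.lf (nat_lit 539738) (.g (nat_lit 1593) (.e (nat_lit 81942) (nat_lit 20) (.e (nat_lit 2391) (nat_lit 156) (.e (nat_lit 819204) (nat_lit 0) (.e (nat_lit 3015) (nat_lit 187) (.e (nat_lit 458496) (nat_lit 8) .nil))))) (.g (nat_lit 0) (.e (nat_lit 269215) (nat_lit 0) .nil) .nil))) 
(.lf (nat_lit 540250) (.g (nat_lit 1193) (.e (nat_lit 90134) (nat_lit 9) (.e (nat_lit 3098) (nat_lit 192) (.e (nat_lit 491571) (nat_lit 13) (.e (nat_lit 393232) (nat_lit 17) .nil)))) (.g (nat_lit 0) (.e (nat_lit 270387) (nat_lit 0) .nil) .nil)))) (.nd (nat_lit 9) 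
(.lf (nat_lit 539994) (.g (nat_lit 4371) (.e (nat_lit 81944) (nat_lit 20) (.e (nat_lit 1855) (nat_lit 124) (.e (nat_lit 557070) (nat_lit 9) (.e (nat_lit 2744) (nat_lit 174) (.e (nat_lit 253992) (nat_lit 11) (.e (nat_lit 16412) (nat_lit 2) (.e (nat_lit 196674) (nat_lit 15) .nil))))))) (.g (nat_lit 1) (.e (nat_lit 269621) (nat_lit 0) .nil) .nil))) 
(.lf (nat_lit 540506) (.g (nat_lit 3427) (.e (nat_lit 90168) (nat_lit 13) (.e (nat_lit 172116) (nat_lit 10) (.e (nat_lit 434231) (nat_lit 23) (.e (nat_lit 532523) (nat_lit 7) (.e (nat_lit 319530) (nat_lit 16) .nil))))) (.g (nat_lit 0) (.e (nat_lit 270843) (nat_lit 0) .nil) .nil))))) (.nd (nat_lit 8) (.nd (nat_lit 9) 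
(.lf (nat_lit 539866) (.g (nat_lit 1126) (.e (nat_lit 81946) (nat_lit 20) (.e (nat_lit 2390) (nat_lit 156) (.e (nat_lit 819204) (nat_lit 0) (.e (nat_lit 2988) (nat_lit 186) (.e (nat_lit 450304) (nat_lit 2) (.e (nat_lit 98048) (nat_lit 6) .nil)))))) (.g (nat_lit 1) (.e (nat_lit 269445) (nat_lit 0) .nil) .nil))) 
(.lf (nat_lit 540378) (.g (nat_lit 2295) (.e (nat_lit 90165) (nat_lit 12) (.e (nat_lit 164238) (nat_lit 187) (.e (nat_lit 1427) (nat_lit 108) (.e (nat_lit 336284) (nat_lit 15) (.e (nat_lit 3302) (nat_lit 202) .nil))))) (.g (nat_lit 0) (.e (nat_lit 270677) (nat_lit 0) .nil) .nil)))) (.nd (nat_lit 9) 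
(.lf (nat_lit 540122) (.g (nat_lit 956) (.e (nat_lit 89856) (nat_lit 23) (.e (nat_lit 98359) (nat_lit 26) (.e (nat_lit 426043) (nat_lit 0) (.e (nat_lit 3408) (nat_lit 212) (.e (nat_lit 655375) (nat_lit 3) .nil))))) (.g (nat_lit 0) (.e (nat_lit 269917) (nat_lit 0) .nil) .nil))) 
(.lf (nat_lit 540634) (.g (nat_lit 3164) (.e (nat_lit 90170) (nat_lit 13) (.e (nat_lit 172106) (nat_lit 10) (.e (nat_lit 434231) (nat_lit 23) (.e (nat_lit 532535) (nat_lit 9) (.e (nat_lit 335922) (nat_lit 0) .nil))))) (.g (nat_lit 0) (.e (nat_lit 270991) (nat_lit 0) .nil) .nil))))))) (.nd (nat_lit 6) (.nd (nat_lit 7) (.nd (nat_lit 8) (.nd (nat_lit 9) 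
(.lf (nat_lit 539706) (.g (nat_lit 1029) (.e (nat_lit 81941) (nat_lit 20) (.e (nat_lit 1788) (nat_lit 119) (.e (nat_lit 516139) (nat_lit 7) (.e (nat_lit 409650) (nat_lit 19) .nil)))) (.g (nat_lit 0) (.e (nat_lit 269170) (nat_lit 0) .nil) .nil))) 
(.lf (nat_lit 540218) (.g (nat_lit 4518) (.e (nat_lit 90133) (nat_lit 9) (.e (nat_lit 2397) (nat_lit 157) (.e (nat_lit 7590) (nat_lit 407) (.e (nat_lit 73747) (nat_lit 3) (.e (nat_lit 516139) (nat_lit 7) (.e (nat_lit 409617) (nat_lit 10) (.e (nat_lit 5355) (nat_lit 298) (.e (nat_lit 1235) (nat_lit 91) .nil)))))))) (.g (nat_lit 1) (.e (nat_lit 270292) (nat_lit 0) .nil) .nil)))) (.nd (nat_lit 9) 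
(.lf (nat_lit 539962) (.g (nat_lit 1520) (.e (nat_lit 81947) (nat_lit 20) (.e (nat_lit 2391) (nat_lit 156) (.e (nat_lit 819203) (nat_lit 0) (.e (nat_lit 3015) (nat_lit 187) (.e (nat_lit 458496) (nat_lit 8) (.e (nat_lit 564992) (nat_lit 6) .nil)))))) (.g (nat_lit 1) (.e (nat_lit 269576) (nat_lit 0) .nil) .nil))) 
(.lf (nat_lit 540474) (.g (nat_lit 1322) (.e (nat_lit 90167) (nat_lit 13) (.e (nat_lit 172126) (nat_lit 14) (.e (nat_lit 491540) (nat_lit 3) (.e (nat_lit 98365) (nat_lit 26) .nil)))) (.g (nat_lit 0) (.e (nat_lit 270800) (nat_lit 0) .nil) .nil))))) (.nd (nat_lit 8) (.nd (nat_lit 9) 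
(.lf (nat_lit 539834) (.g (nat_lit 1735) (.e (nat_lit 81946) (nat_lit 20) (.e (nat_lit 1841) (nat_lit 123) (.e (nat_lit 548889) (nat_lit 9) (.e (nat_lit 65628) (nat_lit 14) (.e (nat_lit 401412) (nat_lit 0) .nil))))) (.g (nat_lit 0) (.e (nat_lit 269397) (nat_lit 0) .nil) .nil))) 
(.lf (nat_lit 540346) (.g (nat_lit 3284) (.e (nat_lit 90159) (nat_lit 11) (.e (nat_lit 24665) (nat_lit 14) (.e (nat_lit 401414) (nat_lit 0) (.e (nat_lit 3272) (nat_lit 199) (.e (nat_lit 548898) (nat_lit 14) .nil))))) (.g (nat_lit 0) (.e (nat_lit 270584) (nat_lit 0) .nil) .nil)))) (.nd (nat_lit 9) 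
(.lf (nat_lit 540090) (.g (nat_lit 1516) (.e (nat_lit 81956) (nat_lit 23) (.e (nat_lit 98349) (nat_lit 24) (.e (nat_lit 409648) (nat_lit 18) (.e (nat_lit 303117) (nat_lit 2) .nil)))) (.g (nat_lit 0) (.e (nat_lit 269865) (nat_lit 0) .nil) .nil))) 
(.lf (nat_lit 540602) (.g (nat_lit 2019) (.e (nat_lit 90170) (nat_lit 13) (.e (nat_lit 172106) (nat_lit 10) (.e (nat_lit 434231) (nat_lit 23) (.e (nat_lit 532522) (nat_lit 7) (.e (nat_lit 319496) (nat_lit 10) .nil))))) (.g (nat_lit 0) (.e (nat_lit 270959) (nat_lit 0) .nil) .nil)))))) (.nd (nat_lit 7) (.nd (nat_lit 8) (.nd (nat_lit 9) 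
(.lf (nat_lit 539770) (.g (nat_lit 646) (.e (nat_lit 81943) (nat_lit 20) (.e (nat_lit 1886) (nat_lit 127) (.e (nat_lit 581652) (nat_lit 5) (.e (nat_lit 180287) (nat_lit 45) (.e (nat_lit 2579) (nat_lit 161) (.e (nat_lit 48896) (nat_lit 6) .nil)))))) (.g (nat_lit 1) (.e (nat_lit 269310) (nat_lit 0) .nil) .nil))) 
(.lf (nat_lit 540282) (.g (nat_lit 3056) (.e (nat_lit 90158) (nat_lit 11) (.e (nat_lit 24599) (nat_lit 1) (.e (nat_lit 57929) (nat_lit 282) (.e (nat_lit 163905) (nat_lit 12) (.e (nat_lit 426555) (nat_lit 32) (.e (nat_lit 376865) (nat_lit 22) .nil)))))) (.g (nat_lit 1) (.e (nat_lit 270487) (nat_lit 0) .nil) .nil)))) (.nd (nat_lit 9) 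
(.lf (nat_lit 540026) (.g (nat_lit 691) (.e (nat_lit 89856) (nat_lit 22) (.e (nat_lit 90170) (nat_lit 13) (.e (nat_lit 172042) (nat_lit 0) .nil))) (.g (nat_lit 0) (.e (nat_lit 269739) (nat_lit 0) .nil) .nil))) 
(.lf (nat_lit 540538) (.g (nat_lit 2071) (.e (nat_lit 90169) (nat_lit 13) (.e (nat_lit 172113) (nat_lit 10) (.e (nat_lit 434245) (nat_lit 28) (.e (nat_lit 573474) (nat_lit 12) (.e (nat_lit 57574) (nat_lit 55) .nil))))) (.g (nat_lit 0) (.e (nat_lit 270883) (nat_lit 0) .nil) .nil))))) (.nd (nat_lit 8) (.nd (nat_lit 9) 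
(.lf (nat_lit 539898) (.g (nat_lit 1981) (.e (nat_lit 81946) (nat_lit 20) (.e (nat_lit 2391) (nat_lit 156) (.e (nat_lit 819204) (nat_lit 0) (.e (nat_lit 3015) (nat_lit 187) (.e (nat_lit 458496) (nat_lit 8) (.e (nat_lit 564992) (nat_lit 6) .nil)))))) (.g (nat_lit 1) (.e (nat_lit 269488) (nat_lit 0) .nil) .nil))) 
(.lf (nat_lit 540410) (.g (nat_lit 1971) (.e (nat_lit 90167) (nat_lit 13) (.e (nat_lit 172065) (nat_lit 3) (.e (nat_lit 204838) (nat_lit 20) (.e (nat_lit 114718) (nat_lit 23) (.e (nat_lit 98334) (nat_lit 18) .nil))))) (.g (nat_lit 0) (.e (nat_lit 270720) (nat_lit 0) .nil) .nil)))) (.nd (nat_lit 9) 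
(.lf (nat_lit 540154) (.g (nat_lit 4080) (.e (nat_lit 90121) (nat_lit 9) (.e (nat_lit 3027) (nat_lit 187) (.e (nat_lit 450586) (nat_lit 10) (.e (nat_lit 573474) (nat_lit 12) (.e (nat_lit 57572) (nat_lit 54) .nil))))) (.g (nat_lit 0) (.e (nat_lit 270022) (nat_lit 0) .nil) .nil))) 
(.lf (nat_lit 540666) (.g (nat_lit 2375) (.e (nat_lit 90170) (nat_lit 13) (.e (nat_lit 172106) (nat_lit 10) (.e (nat_lit 434244) (nat_lit 28) (.e (nat_lit 573451) (nat_lit 9) (.e (nat_lit 396) (nat_lit 32) (.e (nat_lit 426011) (nat_lit 0) (.e (nat_lit 7545) (nat_lit 402) (.e (nat_lit 1237) (nat_lit 91) .nil)))))))) (.g (nat_lit 1) (.e (nat_lit 271023) (nat_lit 0) .nil) .nil)))))))))) 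
(.nd (nat_lit 3) (.nd (nat_lit 4) (.nd (nat_lit 5) (.nd (nat_lit 6) (.nd (nat_lit 7) 
(.nd (nat_lit 8) (.nd (nat_lit 9) 
(.lf (nat_lit 539654) (.g (nat_lit 885) (.e (nat_lit 81939) (nat_lit 20) (.e (nat_lit 2390) (nat_lit 156) (.e (nat_lit 819204) (nat_lit 0) (.e (nat_lit 2989) (nat_lit 186) (.e (nat_lit 450304) (nat_lit 2) (.e (nat_lit 98048) (nat_lit 6) .nil)))))) (.g (nat_lit 1) (.e (nat_lit 269106) (nat_lit 0) .nil) .nil))) 
(.lf (nat_lit 540166) (.g (nat_lit 744) (.e (nat_lit 90130) (nat_lit 9) (.e (nat_lit 2830) (nat_lit 182) (.e (nat_lit 409617) (nat_lit 10) (.e (nat_lit 5355) (nat_lit 298) .nil)))) (.g (nat_lit 0) (.e (nat_lit 270149) (nat_lit 0) .nil) .nil)))) (.nd (nat_lit 9) 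
(.lf (nat_lit 539910) (.g (nat_lit 1444) (.e (nat_lit 81946) (nat_lit 20) (.e (nat_lit 2391) (nat_lit 156) (.e (nat_lit 819221) (nat_lit 6) (.e (nat_lit 188431) (nat_lit 20) (.e (nat_lit 3281) (nat_lit 200) (.e (nat_lit 564992) (nat_lit 6) .nil)))))) (.g (nat_lit 1) (.e (nat_lit 269501) (nat_lit 0) .nil) .nil))) 
(.lf (nat_lit 540422) (.g (nat_lit 2639) (.e (nat_lit 90167) (nat_lit 13) (.e (nat_lit 172067) (nat_lit 3) (.e (nat_lit 204837) (nat_lit 20) (.e (nat_lit 114719) (nat_lit 23) (.e (nat_lit 98332) (nat_lit 18) .nil))))) (.g (nat_lit 0) (.e (nat_lit 270732) (nat_lit 0) .nil) .nil))))) (.nd (nat_lit 8) (.nd (nat_lit 9) 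
(.lf (nat_lit 539782) (.g (nat_lit 1011) (.e (nat_lit 81943) (nat_lit 20) (.e (nat_lit 2390) (nat_lit 156) (.e (nat_lit 819203) (nat_lit 0) (.e (nat_lit 3022) (nat_lit 187) (.e (nat_lit 458496) (nat_lit 8) (.e (nat_lit 564992) (nat_lit 6) .nil)))))) (.g (nat_lit 1) (.e (nat_lit 269330) (nat_lit 0) .nil) .nil))) 
(.lf (nat_lit 540294) (.g (nat_lit 2134) (.e (nat_lit 90158) (nat_lit 11) (.e (nat_lit 24609) (nat_lit 3) (.e (nat_lit 98335) (nat_lit 18) (.e (nat_lit 164183) (nat_lit 154) (.e (nat_lit 65280) (nat_lit 64) .nil))))) (.g (nat_lit 0) (.e (nat_lit 270522) (nat_lit 0) .nil) .nil)))) (.nd (nat_lit 9) 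
(.lf (nat_lit 540038) (.g (nat_lit 579) (.e (nat_lit 81954) (nat_lit 23) (.e (nat_lit 98359) (nat_lit 26) (.e (nat_lit 426042) (nat_lit 0) .nil))) (.g (nat_lit 0) (.e (nat_lit 269767) (nat_lit 0) .nil) .nil))) 
(.lf (nat_lit 540550) (.g (nat_lit 1147) (.e (nat_lit 90169) (nat_lit 13) (.e (nat_lit 172122) (nat_lit 13) (.e (nat_lit 483337) (nat_lit 9) (.e (nat_lit 426100) (nat_lit 1) .nil)))) (.g (nat_lit 0) (.e (nat_lit 270895) (nat_lit 0) .nil) .nil)))))) (.nd (nat_lit 7) (.nd (nat_lit 8) (.nd (nat_lit 9) 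
(.lf (nat_lit 539718) (.g (nat_lit 468) (.e (nat_lit 81942) (nat_lit 20) (.e (nat_lit 2390) (nat_lit 156) (.e (nat_lit 819203) (nat_lit 0) (.e (nat_lit 3028) (nat_lit 187) (.e (nat_lit 458496) (nat_lit 8) (.e (nat_lit 564992) (nat_lit 6) .nil)))))) (.g (nat_lit 1) (.e (nat_lit 269192) (nat_lit 0) .nil) .nil))) 
(.lf (nat_lit 540230) (.g (nat_lit 2082) (.e (nat_lit 90134) (nat_lit 9) (.e (nat_lit 2828) (nat_lit 182) (.e (nat_lit 409646) (nat_lit 18) (.e (nat_lit 303117) (nat_lit 2) (.e (nat_lit 196630) (nat_lit 9) .nil))))) (.g (nat_lit 0) (.e (nat_lit 270325) (nat_lit 0) .nil) .nil)))) (.nd (nat_lit 9) 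
(.lf (nat_lit 539974) (.g (nat_lit 1901) (.e (nat_lit 81947) (nat_lit 20) (.e (nat_lit 2391) (nat_lit 156) (.e (nat_lit 819204) (nat_lit 0) (.e (nat_lit 3016) (nat_lit 187) (.e (nat_lit 458496) (nat_lit 8) (.e (nat_lit 564992) (nat_lit 6) .nil)))))) (.g (nat_lit 1) (.e (nat_lit 269596) (nat_lit 0) .nil) .nil))) 
(.lf (nat_lit 540486) (.g (nat_lit 2286) (.e (nat_lit 90168) (nat_lit 13) (.e (nat_lit 172067) (nat_lit 3) (.e (nat_lit 204837) (nat_lit 20) (.e (nat_lit 114718) (nat_lit 23) (.e (nat_lit 98334) (nat_lit 18) .nil))))) (.g (nat_lit 0) (.e (nat_lit 270820) (nat_lit 0) .nil) .nil))))) (.nd (nat_lit 8) (.nd (nat_lit 9) 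
(.lf (nat_lit 539846) (.g (nat_lit 856) (.e (nat_lit 81946) (nat_lit 20) (.e (nat_lit 1886) (nat_lit 127) (.e (nat_lit 581652) (nat_lit 5) (.e (nat_lit 180287) (nat_lit 45) (.e (nat_lit 2579) (nat_lit 161) (.e (nat_lit 48896) (nat_lit 6) .nil)))))) (.g (nat_lit 1) (.e (nat_lit 269412) (nat_lit 0) .nil) .nil))) 
(.lf (nat_lit 540358) (.g (nat_lit 2020) (.e (nat_lit 90160) (nat_lit 11) (.e (nat_lit 24630) (nat_lit 9) (.e (nat_lit 336454) (nat_lit 34) (.e (nat_lit 483366) (nat_lit 18) .nil)))) (.g (nat_lit 0) (.e (nat_lit 270616) (nat_lit 0) .nil) .nil)))) (.nd (nat_lit 9) 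
(.lf (nat_lit 540102) (.g (nat_lit 4213) (.e (nat_lit 81956) (nat_lit 23) (.e (nat_lit 98350) (nat_lit 24) (.e (nat_lit 409648) (nat_lit 18) (.e (nat_lit 303117) (nat_lit 2) (.e (nat_lit 196673) (nat_lit 15) .nil))))) (.g (nat_lit 1) (.e (nat_lit 269880) (nat_lit 0) .nil) .nil))) 
(.lf (nat_lit 540614) (.g (nat_lit 3185) (.e (nat_lit 90170) (nat_lit 13) (.e (nat_lit 172106) (nat_lit 10) (.e (nat_lit 434231) (nat_lit 23) (.e (nat_lit 532523) (nat_lit 7) (.e (nat_lit 319533) (nat_lit 16) (.e (nat_lit 294656) (nat_lit 2) .nil)))))) (.g (nat_lit 1) (.e (nat_lit 270971) (nat_lit 0) .nil) .nil))))))) (.nd (nat_lit 6) (.nd (nat_lit 7) (.nd (nat_lit 8) (.nd (nat_lit 9) 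
(.lf (nat_lit 539686) (.g (nat_lit 1570) (.e (nat_lit 81939) (nat_lit 20) (.e (nat_lit 2391) (nat_lit 156) (.e (nat_lit 819204) (nat_lit 0) (.e (nat_lit 3015) (nat_lit 187) (.e (nat_lit 458496) (nat_lit 8) .nil))))) (.g (nat_lit 0) (.e (nat_lit 269147) (nat_lit 0) .nil) .nil))) 
(.lf (nat_lit 540198) (.g (nat_lit 2931) (.e (nat_lit 90130) (nat_lit 9) (.e (nat_lit 2830) (nat_lit 182) (.e (nat_lit 409648) (nat_lit 18) (.e (nat_lit 303118) (nat_lit 3) (.e (nat_lit 212736) (nat_lit 26) (.e (nat_lit 336158) (nat_lit 9) (.e (nat_lit 336004) (nat_lit 2) .nil))))))) (.g (nat_lit 1) (.e (nat_lit 270197) (nat_lit 0) .nil) .nil)))) (.nd (nat_lit 9) 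
(.lf (nat_lit 539942) (.g (nat_lit 1121) (.e (nat_lit 81947) (nat_lit 20) (.e (nat_lit 2390) (nat_lit 156) (.e (nat_lit 819204) (nat_lit 0) (.e (nat_lit 2988) (nat_lit 186) (.e (nat_lit 450304) (nat_lit 2) (.e (nat_lit 98048) (nat_lit 6) .nil)))))) (.g (nat_lit 1) (.e (nat_lit 269550) (nat_lit 0) .nil) .nil))) 
(.lf (nat_lit 540454) (.g (nat_lit 894) (.e (nat_lit 90167) (nat_lit 13) (.e (nat_lit 172123) (nat_lit 13) (.e (nat_lit 483337) (nat_lit 9) (.e (nat_lit 426098) (nat_lit 1) .nil)))) (.g (nat_lit 0) (.e (nat_lit 270771) (nat_lit 0) .nil) .nil))))) (.nd (nat_lit 8) (.nd (nat_lit 9) 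
(.lf (nat_lit 539814) (.g (nat_lit 1509) (.e (nat_lit 81943) (nat_lit 20) (.e (nat_lit 2391) (nat_lit 156) (.e (nat_lit 819204) (nat_lit 0) (.e (nat_lit 2998) (nat_lit 186) (.e (nat_lit 450304) (nat_lit 2) (.e (nat_lit 98048) (nat_lit 6) .nil)))))) (.g (nat_lit 1) (.e (nat_lit 269369) (nat_lit 0) .nil) .nil))) 
(.lf (nat_lit 540326) (.g (nat_lit 1248) (.e (nat_lit 90158) (nat_lit 11) (.e (nat_lit 24630) (nat_lit 9) (.e (nat_lit 336456) (nat_lit 34) (.e (nat_lit 483365) (nat_lit 18) .nil)))) (.g (nat_lit 0) (.e (nat_lit 270555) (nat_lit 0) .nil) .nil)))) (.nd (nat_lit 9) 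
(.lf (nat_lit 540070) (.g (nat_lit 3461) (.e (nat_lit 81955) (nat_lit 23) (.e (nat_lit 98350) (nat_lit 24) (.e (nat_lit 409648) (nat_lit 18) (.e (nat_lit 303116) (nat_lit 2) (.e (nat_lit 196674) (nat_lit 15) .nil))))) (.g (nat_lit 1) (.e (nat_lit 269835) (nat_lit 0) .nil) .nil))) 
(.lf (nat_lit 540582) (.g (nat_lit 2640) (.e (nat_lit 90170) (nat_lit 13) (.e (nat_lit 172070) (nat_lit 4) (.e (nat_lit 229663) (nat_lit 240) (.e (nat_lit 2612) (nat_lit 163) (.e (nat_lit 163977) (nat_lit 30) (.e (nat_lit 573481) (nat_lit 13) (.e (nat_lit 65604) (nat_lit 9) (.e (nat_lit 336013) (nat_lit 2) .nil)))))))) (.g (nat_lit 1) (.e (nat_lit 270939) (nat_lit 0) .nil) .nil)))))) 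
(.nd (nat_lit 7) (.nd (nat_lit 8) (.nd (nat_lit 9) 
(.lf (nat_lit 539750) (.g (nat_lit 1110) (.e (nat_lit 81942) (nat_lit 20) (.e (nat_lit 2391) (nat_lit 156) (.e (nat_lit 819221) (nat_lit 6) (.e (nat_lit 188431) (nat_lit 20) (.e (nat_lit 3281) (nat_lit 200) (.e (nat_lit 564992) (nat_lit 6) .nil)))))) (.g (nat_lit 1) (.e (nat_lit 269228) (nat_lit 0) .nil) .nil))) 
(.lf (nat_lit 540262) (.g (nat_lit 1903) (.e (nat_lit 98048) (nat_lit 9) (.e (nat_lit 3062) (nat_lit 190) (.e (nat_lit 475199) (nat_lit 40) (.e (nat_lit 704589) (nat_lit 3) (.e (nat_lit 163979) (nat_lit 30) .nil))))) (.g (nat_lit 0) (.e (nat_lit 270457) (nat_lit 0) .nil) .nil)))) (.nd (nat_lit 9) 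
(.lf (nat_lit 540006) (.g (nat_lit 2798) (.e (nat_lit 81951) (nat_lit 22) (.e (nat_lit 90165) (nat_lit 12) (.e (nat_lit 164208) (nat_lit 176) (.e (nat_lit 2819) (nat_lit 181) (.e (nat_lit 311310) (nat_lit 2) (.e (nat_lit 196672) (nat_lit 15) .nil)))))) (.g (nat_lit 1) (.e (nat_lit 269696) (nat_lit 0) .nil) .nil))) 
(.lf (nat_lit 540518) (.g (nat_lit 1459) (.e (nat_lit 90168) (nat_lit 13) (.e (nat_lit 172123) (nat_lit 13) (.e (nat_lit 483337) (nat_lit 9) (.e (nat_lit 426098) (nat_lit 1) (.e (nat_lit 164399) (nat_lit 256) (.e (nat_lit 57370) (nat_lit 2) .nil)))))) (.g (nat_lit 1) (.e (nat_lit 270855) (nat_lit 0) .nil) .nil))))) (.nd (nat_lit 8) (.nd (nat_lit 9) 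
(.lf (nat_lit 539878) (.g (nat_lit 943) (.e (nat_lit 81946) (nat_lit 20) (.e (nat_lit 2390) (nat_lit 156) (.e (nat_lit 819221) (nat_lit 6) (.e (nat_lit 188427) (nat_lit 20) (.e (nat_lit 3281) (nat_lit 200) (.e (nat_lit 564992) (nat_lit 6) .nil)))))) (.g (nat_lit 1) (.e (nat_lit 269461) (nat_lit 0) .nil) .nil))) 
(.lf (nat_lit 540390) (.g (nat_lit 2243) (.e (nat_lit 90166) (nat_lit 13) (.e (nat_lit 172113) (nat_lit 10) (.e (nat_lit 434248) (nat_lit 28) (.e (nat_lit 573475) (nat_lit 12) (.e (nat_lit 57574) (nat_lit 55) .nil))))) (.g (nat_lit 0) (.e (nat_lit 270697) (nat_lit 0) .nil) .nil)))) (.nd (nat_lit 9) 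
(.lf (nat_lit 540134) (.g (nat_lit 2296) (.e (nat_lit 81959) (nat_lit 24) (.e (nat_lit 123025) (nat_lit 127) (.e (nat_lit 229415) (nat_lit 15) (.e (nat_lit 450563) (nat_lit 0) (.e (nat_lit 6808) (nat_lit 365) (.e (nat_lit 7936) (nat_lit 90) .nil)))))) (.g (nat_lit 1) (.e (nat_lit 269930) (nat_lit 0) .nil) .nil))) 
(.lf (nat_lit 540646) (.g (nat_lit 4445) (.e (nat_lit 90170) (nat_lit 13) (.e (nat_lit 172106) (nat_lit 10) (.e (nat_lit 434231) (nat_lit 23) (.e (nat_lit 532535) (nat_lit 9) (.e (nat_lit 335989) (nat_lit 1) (.e (nat_lit 57926) (nat_lit 282) (.e (nat_lit 171776) (nat_lit 63) .nil))))))) (.g (nat_lit 1) (.e (nat_lit 271003) (nat_lit 0) .nil) .nil)))))))) 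
(.nd (nat_lit 5) (.nd (nat_lit 6) (.nd (nat_lit 7) (.nd (nat_lit 8) (.nd (nat_lit 9) 
(.lf (nat_lit 539670) (.g (nat_lit 792) (.e (nat_lit 81939) (nat_lit 20) (.e (nat_lit 2390) (nat_lit 156) (.e (nat_lit 819221) (nat_lit 6) (.e (nat_lit 188431) (nat_lit 20) (.e (nat_lit 3282) (nat_lit 200) (.e (nat_lit 564992) (nat_lit 6) .nil)))))) (.g (nat_lit 1) (.e (nat_lit 269124) (nat_lit 0) .nil) .nil))) 
(.lf (nat_lit 540182) (.g (nat_lit 440) (.e (nat_lit 90130) (nat_lit 9) (.e (nat_lit 2830) (nat_lit 182) (.e (nat_lit 409647) (nat_lit 18) .nil))) (.g (nat_lit 0) (.e (nat_lit 270170) (nat_lit 0) .nil) .nil)))) (.nd (nat_lit 9) 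
(.lf (nat_lit 539926) (.g (nat_lit 843) (.e (nat_lit 81947) (nat_lit 20) (.e (nat_lit 1886) (nat_lit 127) (.e (nat_lit 581652) (nat_lit 5) (.e (nat_lit 180287) (nat_lit 45) (.e (nat_lit 2579) (nat_lit 161) (.e (nat_lit 48896) (nat_lit 6) .nil)))))) (.g (nat_lit 1) (.e (nat_lit 269526) (nat_lit 0) .nil) .nil))) 
(.lf (nat_lit 540438) (.g (nat_lit 2388) (.e (nat_lit 90167) (nat_lit 13) (.e (nat_lit 172113) (nat_lit 10) (.e (nat_lit 434245) (nat_lit 28) (.e (nat_lit 573474) (nat_lit 12) (.e (nat_lit 57574) (nat_lit 55) (.e (nat_lit 778466) (nat_lit 11) (.e (nat_lit 24603) (nat_lit 2) .nil))))))) (.g (nat_lit 1) (.e (nat_lit 270755) (nat_lit 0) .nil) .nil))))) (.nd (nat_lit 8) (.nd (nat_lit 9) 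
(.lf (nat_lit 539798) (.g (nat_lit 537) (.e (nat_lit 81943) (nat_lit 20) (.e (nat_lit 2390) (nat_lit 156) (.e (nat_lit 819221) (nat_lit 6) (.e (nat_lit 188428) (nat_lit 20) (.e (nat_lit 3281) (nat_lit 200) (.e (nat_lit 564992) (nat_lit 6) .nil)))))) (.g (nat_lit 1) (.e (nat_lit 269349) (nat_lit 0) .nil) .nil))) 
(.lf (nat_lit 540310) (.g (nat_lit 957) (.e (nat_lit 90158) (nat_lit 11) (.e (nat_lit 24628) (nat_lit 9) (.e (nat_lit 336456) (nat_lit 34) (.e (nat_lit 483365) (nat_lit 18) .nil)))) (.g (nat_lit 0) (.e (nat_lit 270539) (nat_lit 0) .nil) .nil)))) (.nd (nat_lit 9) 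
(.lf (nat_lit 540054) (.g (nat_lit 1509) (.e (nat_lit 81954) (nat_lit 23) (.e (nat_lit 98384) (nat_lit 32) (.e (nat_lit 475220) (nat_lit 44) .nil))) (.g (nat_lit 0) (.e (nat_lit 269816) (nat_lit 0) .nil) .nil))) 
(.lf (nat_lit 540566) (.g (nat_lit 1502) (.e (nat_lit 90170) (nat_lit 13) (.e (nat_lit 172065) (nat_lit 3) (.e (nat_lit 204829) (nat_lit 18) (.e (nat_lit 57665) (nat_lit 152) .nil)))) (.g (nat_lit 0) (.e (nat_lit 270917) (nat_lit 0) .nil) .nil)))))) (.nd (nat_lit 7) (.nd (nat_lit 8) (.nd (nat_lit 9) 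
(.lf (nat_lit 539734) (.g (nat_lit 1140) (.e (nat_lit 81942) (nat_lit 20) (.e (nat_lit 2391) (nat_lit 156) (.e (nat_lit 819203) (nat_lit 0) (.e (nat_lit 3016) (nat_lit 187) (.e (nat_lit 458496) (nat_lit 8) (.e (nat_lit 564992) (nat_lit 6) .nil)))))) (.g (nat_lit 1) (.e (nat_lit 269210) (nat_lit 0) .nil) .nil))) 
(.lf (nat_lit 540246) (.g (nat_lit 1446) (.e (nat_lit 90134) (nat_lit 9) (.e (nat_lit 3098) (nat_lit 192) (.e (nat_lit 491566) (nat_lit 12) (.e (nat_lit 385074) (nat_lit 31) .nil)))) (.g (nat_lit 0) (.e (nat_lit 270379) (nat_lit 0) .nil) .nil)))) (.nd (nat_lit 9) 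
(.lf (nat_lit 539990) (.g (nat_lit 1510) (.e (nat_lit 81947) (nat_lit 20) (.e (nat_lit 2391) (nat_lit 156) (.e (nat_lit 819221) (nat_lit 6) (.e (nat_lit 188431) (nat_lit 20) (.e (nat_lit 3282) (nat_lit 200) (.e (nat_lit 564992) (nat_lit 6) .nil)))))) (.g (nat_lit 1) (.e (nat_lit 269617) (nat_lit 0) .nil) .nil))) 
(.lf (nat_lit 540502) (.g (nat_lit 1396) (.e (nat_lit 90168) (nat_lit 13) (.e (nat_lit 172097) (nat_lit 9) (.e (nat_lit 426140) (nat_lit 3) (.e (nat_lit 204846) (nat_lit 24) .nil)))) (.g (nat_lit 0) (.e (nat_lit 270839) (nat_lit 0) .nil) .nil))))) (.nd (nat_lit 8) (.nd (nat_lit 9) 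
(.lf (nat_lit 539862) (.g (nat_lit 830) (.e (nat_lit 81946) (nat_lit 20) (.e (nat_lit 2390) (nat_lit 156) (.e (nat_lit 819203) (nat_lit 0) (.e (nat_lit 3021) (nat_lit 187) (.e (nat_lit 458496) (nat_lit 8) (.e (nat_lit 564992) (nat_lit 6) .nil)))))) (.g (nat_lit 1) (.e (nat_lit 269441) (nat_lit 0) .nil) .nil))) 
(.lf (nat_lit 540374) (.g (nat_lit 3445) (.e (nat_lit 90165) (nat_lit 12) (.e (nat_lit 164208) (nat_lit 176) (.e (nat_lit 2819) (nat_lit 181) (.e (nat_lit 311315) (nat_lit 3) (.e (nat_lit 204866) (nat_lit 28) (.e (nat_lit 352312) (nat_lit 22) .nil)))))) (.g (nat_lit 1) (.e (nat_lit 270669) (nat_lit 0) .nil) .nil)))) (.nd (nat_lit 9) 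
(.lf (nat_lit 540118) (.g (nat_lit 4156) (.e (nat_lit 81956) (nat_lit 23) (.e (nat_lit 98387) (nat_lit 33) (.e (nat_lit 491566) (nat_lit 12) (.e (nat_lit 385074) (nat_lit 31) (.e (nat_lit 573493) (nat_lit 15) .nil))))) (.g (nat_lit 1) (.e (nat_lit 269912) (nat_lit 0) .nil) .nil))) 
(.lf (nat_lit 540630) (.g (nat_lit 3203) (.e (nat_lit 90170) (nat_lit 13) (.e (nat_lit 172106) (nat_lit 10) (.e (nat_lit 434231) (nat_lit 23) (.e (nat_lit 532535) (nat_lit 9) (.e (nat_lit 335903) (nat_lit 0) .nil))))) (.g (nat_lit 0) (.e (nat_lit 270987) (nat_lit 0) .nil) .nil))))))) (.nd (nat_lit 6) (.nd (nat_lit 7) (.nd (nat_lit 8) (.nd (nat_lit 9) 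
(.lf (nat_lit 539702) (.g (nat_lit 468) (.e (nat_lit 81941) (nat_lit 20) (.e (nat_lit 1788) (nat_lit 119) (.e (nat_lit 516138) (nat_lit 7) .nil))) (.g (nat_lit 0) (.e (nat_lit 269165) (nat_lit 0) .nil) .nil))) 
(.lf (nat_lit 540214) (.g (nat_lit 919) (.e (nat_lit 90130) (nat_lit 9) (.e (nat_lit 2830) (nat_lit 182) (.e (nat_lit 417536) (nat_lit 18) (.e (nat_lit 303112) (nat_lit 0) (.e (nat_lit 3252) (nat_lit 197) .nil))))) (.g (nat_lit 0) (.e (nat_lit 270245) (nat_lit 0) .nil) .nil)))) (.nd (nat_lit 9) 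
(.lf (nat_lit 539958) (.g (nat_lit 1148) (.e (nat_lit 81947) (nat_lit 20) (.e (nat_lit 2390) (nat_lit 156) (.e (nat_lit 819221) (nat_lit 6) (.e (nat_lit 188431) (nat_lit 20) (.e (nat_lit 3282) (nat_lit 200) (.e (nat_lit 564992) (nat_lit 6) .nil)))))) (.g (nat_lit 1) (.e (nat_lit 269568) (nat_lit 0) .nil) .nil))) 
(.lf (nat_lit 540470) (.g (nat_lit 3007) (.e (nat_lit 90167) (nat_lit 13) (.e (nat_lit 172126) (nat_lit 14) (.e (nat_lit 491539) (nat_lit 3) (.e (nat_lit 98365) (nat_lit 26) (.e (nat_lit 426342) (nat_lit 14) (.e (nat_lit 491536) (nat_lit 2) .nil)))))) (.g (nat_lit 1) (.e (nat_lit 270792) (nat_lit 0) .nil) .nil))))) (.nd (nat_lit 8) (.nd (nat_lit 9) 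
(.lf (nat_lit 539830) (.g (nat_lit 1088) (.e (nat_lit 81943) (nat_lit 20) (.e (nat_lit 2391) (nat_lit 156) (.e (nat_lit 819221) (nat_lit 6) (.e (nat_lit 188430) (nat_lit 20) (.e (nat_lit 3282) (nat_lit 200) (.e (nat_lit 564992) (nat_lit 6) .nil)))))) (.g (nat_lit 1) (.e (nat_lit 269388) (nat_lit 0) .nil) .nil))) 
(.lf (nat_lit 540342) (.g (nat_lit 3587) (.e (nat_lit 90159) (nat_lit 11) (.e (nat_lit 24627) (nat_lit 9) (.e (nat_lit 336454) (nat_lit 34) (.e (nat_lit 483365) (nat_lit 18) (.e (nat_lit 57849) (nat_lit 252) (.e (nat_lit 57375) (nat_lit 2) .nil)))))) (.g (nat_lit 1) (.e (nat_lit 270575) (nat_lit 0) .nil) .nil)))) (.nd (nat_lit 9) 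
(.lf (nat_lit 540086) (.g (nat_lit 4685) (.e (nat_lit 81956) (nat_lit 23) (.e (nat_lit 98320) (nat_lit 17) (.e (nat_lit 7109) (nat_lit 380) (.e (nat_lit 164359) (nat_lit 246) (.e (nat_lit 2661) (nat_lit 167) (.e (nat_lit 196673) (nat_lit 15) .nil)))))) (.g (nat_lit 1) (.e (nat_lit 269855) (nat_lit 0) .nil) .nil))) 
(.lf (nat_lit 540598) (.g (nat_lit 3639) (.e (nat_lit 90170) (nat_lit 13) (.e (nat_lit 172106) (nat_lit 10) (.e (nat_lit 434231) (nat_lit 23) (.e (nat_lit 532499) (nat_lit 1) (.e (nat_lit 65280) (nat_lit 233) (.e (nat_lit 2560) (nat_lit 159) (.e (nat_lit 24605) (nat_lit 2) .nil))))))) (.g (nat_lit 1) (.e (nat_lit 270955) (nat_lit 0) .nil) .nil)))))) 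
(.nd (nat_lit 7) (.nd (nat_lit 8) (.nd (nat_lit 9) 
(.lf (nat_lit 539766) (.g (nat_lit 567) (.e (nat_lit 81943) (nat_lit 20) (.e (nat_lit 1886) (nat_lit 127) (.e (nat_lit 581652) (nat_lit 5) (.e (nat_lit 180284) (nat_lit 45) (.e (nat_lit 2580) (nat_lit 161) (.e (nat_lit 48896) (nat_lit 6) .nil)))))) (.g (nat_lit 1) (.e (nat_lit 269306) (nat_lit 0) .nil) .nil))) 
(.lf (nat_lit 540278) (.g (nat_lit 937) (.e (nat_lit 90157) (nat_lit 11) (.e (nat_lit 24655) (nat_lit 13) (.e (nat_lit 393227) (nat_lit 9) .nil))) (.g (nat_lit 0) (.e (nat_lit 270481) (nat_lit 0) .nil) .nil)))) (.nd (nat_lit 9) 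
(.lf (nat_lit 540022) (.g (nat_lit 711) (.e (nat_lit 81953) (nat_lit 22) (.e (nat_lit 90170) (nat_lit 13) (.e (nat_lit 172046) (nat_lit 0) .nil))) (.g (nat_lit 0) (.e (nat_lit 269733) (nat_lit 0) .nil) .nil))) 
(.lf (nat_lit 540534) (.g (nat_lit 696) (.e (nat_lit 90169) (nat_lit 13) (.e (nat_lit 172111) (nat_lit 10) (.e (nat_lit 434231) (nat_lit 23) (.e (nat_lit 532523) (nat_lit 7) .nil)))) (.g (nat_lit 0) (.e (nat_lit 270879) (nat_lit 0) .nil) .nil))))) (.nd (nat_lit 8) (.nd (nat_lit 9) 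
(.lf (nat_lit 539894) (.g (nat_lit 1643) (.e (nat_lit 81946) (nat_lit 20) (.e (nat_lit 2391) (nat_lit 156) (.e (nat_lit 819204) (nat_lit 0) (.e (nat_lit 2989) (nat_lit 186) (.e (nat_lit 450304) (nat_lit 2) (.e (nat_lit 98048) (nat_lit 6) .nil)))))) (.g (nat_lit 1) (.e (nat_lit 269482) (nat_lit 0) .nil) .nil))) 
(.lf (nat_lit 540406) (.g (nat_lit 1331) (.e (nat_lit 90167) (nat_lit 13) (.e (nat_lit 172065) (nat_lit 3) (.e (nat_lit 204837) (nat_lit 20) (.e (nat_lit 114718) (nat_lit 23) .nil)))) (.g (nat_lit 0) (.e (nat_lit 270716) (nat_lit 0) .nil) .nil)))) (.nd (nat_lit 9) 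
(.lf (nat_lit 540150) (.g (nat_lit 327) (.e (nat_lit 98048) (nat_lit 5) (.e (nat_lit 73789) (nat_lit 45) (.e (nat_lit 1160) (nat_lit 86) (.e (nat_lit 49157) (nat_lit 0) .nil)))) (.g (nat_lit 0) (.e (nat_lit 270001) (nat_lit 0) .nil) .nil))) 
(.lf (nat_lit 540662) (.g (nat_lit 1856) (.e (nat_lit 90170) (nat_lit 13) (.e (nat_lit 172106) (nat_lit 10) (.e (nat_lit 434244) (nat_lit 28) (.e (nat_lit 573449) (nat_lit 9) (.e (nat_lit 430) (nat_lit 32) .nil))))) (.g (nat_lit 0) (.e (nat_lit 271019) (nat_lit 0) .nil) .nil))))))))) (.nd (nat_lit 4) (.nd (nat_lit 5) (.nd (nat_lit 6) (.nd (nat_lit 7) (.nd (nat_lit 8) (.nd (nat_lit 9) 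
(.lf (nat_lit 539662) (.g (nat_lit 773) (.e (nat_lit 81939) (nat_lit 20) (.e (nat_lit 2390) (nat_lit 156) (.e (nat_lit 819204) (nat_lit 0) (.e (nat_lit 3028) (nat_lit 187) (.e (nat_lit 458496) (nat_lit 8) (.e (nat_lit 564992) (nat_lit 6) .nil)))))) (.g (nat_lit 1) (.e (nat_lit 269116) (nat_lit 0) .nil) .nil))) 
(.lf (nat_lit 540174) (.g (nat_lit 2951) (.e (nat_lit 90130) (nat_lit 9) (.e (nat_lit 2830) (nat_lit 182) (.e (nat_lit 409645) (nat_lit 18) (.e (nat_lit 303112) (nat_lit 0) (.e (nat_lit 3252) (nat_lit 197) .nil))))) (.g (nat_lit 0) (.e (nat_lit 270158) (nat_lit 0) .nil) .nil)))) (.nd (nat_lit 9) 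
(.lf (nat_lit 539918) (.g (nat_lit 1018) (.e (nat_lit 81947) (nat_lit 20) (.e (nat_lit 1841) (nat_lit 123) (.e (nat_lit 548891) (nat_lit 11) (.e (nat_lit 81923) (nat_lit 0) .nil)))) (.g (nat_lit 0) (.e (nat_lit 269510) (nat_lit 0) .nil) .nil))) 
(.lf (nat_lit 540430) (.g (nat_lit 1956) (.e (nat_lit 90167) (nat_lit 13) (.e (nat_lit 172067) (nat_lit 3) (.e (nat_lit 204838) (nat_lit 20) (.e (nat_lit 114719) (nat_lit 23) (.e (nat_lit 98334) (nat_lit 18) .nil))))) (.g (nat_lit 0) (.e (nat_lit 270740) (nat_lit 0) .nil) .nil))))) (.nd (nat_lit 8) (.nd (nat_lit 9) 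
(.lf (nat_lit 539790) (.g (nat_lit 1322) (.e (nat_lit 81943) (nat_lit 20) (.e (nat_lit 2390) (nat_lit 156) (.e (nat_lit 819204) (nat_lit 0) (.e (nat_lit 3016) (nat_lit 187) (.e (nat_lit 458496) (nat_lit 8) (.e (nat_lit 564992) (nat_lit 6) .nil)))))) (.g (nat_lit 1) (.e (nat_lit 269340) (nat_lit 0) .nil) .nil))) 
(.lf (nat_lit 540302) (.g (nat_lit 3597) (.e (nat_lit 90158) (nat_lit 11) (.e (nat_lit 24628) (nat_lit 9) (.e (nat_lit 336454) (nat_lit 34) (.e (nat_lit 483365) (nat_lit 18) (.e (nat_lit 57846) (nat_lit 252) (.e (nat_lit 57370) (nat_lit 2) .nil)))))) (.g (nat_lit 1) (.e (nat_lit 270531) (nat_lit 0) .nil) .nil)))) (.nd (nat_lit 9) 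
(.lf (nat_lit 540046) (.g (nat_lit 2032) (.e (nat_lit 81954) (nat_lit 23) (.e (nat_lit 98367) (nat_lit 27) (.e (nat_lit 434272) (nat_lit 38) (.e (nat_lit 655364) (nat_lit 0) .nil)))) (.g (nat_lit 0) (.e (nat_lit 269792) (nat_lit 0) .nil) .nil))) 
(.lf (nat_lit 540558) (.g (nat_lit 2205) (.e (nat_lit 90169) (nat_lit 13) (.e (nat_lit 172122) (nat_lit 13) (.e (nat_lit 483363) (nat_lit 18) (.e (nat_lit 57691) (nat_lit 156) (.e (nat_lit 163907) (nat_lit 12) .nil))))) (.g (nat_lit 0) (.e (nat_lit 270903) (nat_lit 0) .nil) .nil)))))) (.nd (nat_lit 7) (.nd (nat_lit 8) (.nd (nat_lit 9) 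
(.lf (nat_lit 539726) (.g (nat_lit 628) (.e (nat_lit 81942) (nat_lit 20) (.e (nat_lit 2390) (nat_lit 156) (.e (nat_lit 819221) (nat_lit 6) (.e (nat_lit 188427) (nat_lit 20) (.e (nat_lit 3281) (nat_lit 200) (.e (nat_lit 564992) (nat_lit 6) .nil)))))) (.g (nat_lit 1) (.e (nat_lit 269202) (nat_lit 0) .nil) .nil))) 
(.lf (nat_lit 540238) (.g (nat_lit 3655) (.e (nat_lit 90134) (nat_lit 9) (.e (nat_lit 3025) (nat_lit 187) (.e (nat_lit 450586) (nat_lit 10) (.e (nat_lit 573474) (nat_lit 12) (.e (nat_lit 57572) (nat_lit 54) .nil))))) (.g (nat_lit 0) (.e (nat_lit 270363) (nat_lit 0) .nil) .nil)))) (.nd (nat_lit 9) 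
(.lf (nat_lit 539982) (.g (nat_lit 3784) (.e (nat_lit 81947) (nat_lit 20) (.e (nat_lit 2391) (nat_lit 156) (.e (nat_lit 819219) (nat_lit 4) (.e (nat_lit 172082) (nat_lit 7) (.e (nat_lit 409617) (nat_lit 10) (.e (nat_lit 632) (nat_lit 50) (.e (nat_lit 573491) (nat_lit 15) .nil))))))) (.g (nat_lit 1) (.e (nat_lit 269608) (nat_lit 0) .nil) .nil))) 
(.lf (nat_lit 540494) (.g (nat_lit 2251) (.e (nat_lit 90168) (nat_lit 13) (.e (nat_lit 172067) (nat_lit 3) (.e (nat_lit 204838) (nat_lit 20) (.e (nat_lit 114719) (nat_lit 23) (.e (nat_lit 98332) (nat_lit 18) .nil))))) (.g (nat_lit 0) (.e (nat_lit 270828) (nat_lit 0) .nil) .nil))))) (.nd (nat_lit 8) (.nd (nat_lit 9) 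
(.lf (nat_lit 539854) (.g (nat_lit 785) (.e (nat_lit 81946) (nat_lit 20) (.e (nat_lit 1858) (nat_lit 124) (.e (nat_lit 557093) (nat_lit 12) .nil))) (.g (nat_lit 0) (.e (nat_lit 269428) (nat_lit 0) .nil) .nil))) 
(.lf (nat_lit 540366) (.g (nat_lit 1599) (.e (nat_lit 90165) (nat_lit 12) (.e (nat_lit 164035) (nat_lit 55) (.e (nat_lit 778462) (nat_lit 11) (.e (nat_lit 24604) (nat_lit 2) (.e (nat_lit 90176) (nat_lit 15) (.e (nat_lit 196352) (nat_lit 2) .nil)))))) (.g (nat_lit 1) (.e (nat_lit 270649) (nat_lit 0) .nil) .nil)))) (.nd (nat_lit 9) 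
(.lf (nat_lit 540110) (.g (nat_lit 889) (.e (nat_lit 81956) (nat_lit 23) (.e (nat_lit 98384) (nat_lit 32) (.e (nat_lit 475208) (nat_lit 41) .nil))) (.g (nat_lit 0) (.e (nat_lit 269902) (nat_lit 0) .nil) .nil))) 
(.lf (nat_lit 540622) (.g (nat_lit 3953) (.e (nat_lit 90170) (nat_lit 13) (.e (nat_lit 172106) (nat_lit 10) (.e (nat_lit 434231) (nat_lit 23) (.e (nat_lit 532529) (nat_lit 9) (.e (nat_lit 335999) (nat_lit 1) (.e (nat_lit 57926) (nat_lit 282) (.e (nat_lit 171776) (nat_lit 63) .nil))))))) (.g (nat_lit 1) (.e (nat_lit 270979) (nat_lit 0) .nil) .nil))))))) 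
(.nd (nat_lit 6) (.nd (nat_lit 7) (.nd (nat_lit 8) (.nd (nat_lit 9) 
(.lf (nat_lit 539694) (.g (nat_lit 783) (.e (nat_lit 81939) (nat_lit 20) (.e (nat_lit 2391) (nat_lit 156) (.e (nat_lit 819221) (nat_lit 6) (.e (nat_lit 188427) (nat_lit 20) (.e (nat_lit 3281) (nat_lit 200) .nil))))) (.g (nat_lit 0) (.e (nat_lit 269157) (nat_lit 0) .nil) .nil))) 
(.lf (nat_lit 540206) (.g (nat_lit 1653) (.e (nat_lit 90130) (nat_lit 9) (.e (nat_lit 2830) (nat_lit 182) (.e (nat_lit 409649) (nat_lit 18) (.e (nat_lit 303111) (nat_lit 0) (.e (nat_lit 3238) (nat_lit 197) .nil))))) (.g (nat_lit 0) (.e (nat_lit 270216) (nat_lit 0) .nil) .nil)))) (.nd (nat_lit 9) 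
(.lf (nat_lit 539950) (.g (nat_lit 1558) (.e (nat_lit 81947) (nat_lit 20) (.e (nat_lit 2390) (nat_lit 156) (.e (nat_lit 819204) (nat_lit 0) (.e (nat_lit 3022) (nat_lit 187) (.e (nat_lit 458496) (nat_lit 8) (.e (nat_lit 564992) (nat_lit 6) .nil)))))) (.g (nat_lit 1) (.e (nat_lit 269560) (nat_lit 0) .nil) .nil))) 
(.lf (nat_lit 540462) (.g (nat_lit 2142) (.e (nat_lit 90167) (nat_lit 13) (.e (nat_lit 172126) (nat_lit 14) (.e (nat_lit 491537) (nat_lit 2) (.e (nat_lit 90171) (nat_lit 14) .nil)))) (.g (nat_lit 0) (.e (nat_lit 270783) (nat_lit 0) .nil) .nil))))) (.nd (nat_lit 8) (.nd (nat_lit 9) 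
(.lf (nat_lit 539822) (.g (nat_lit 1801) (.e (nat_lit 81943) (nat_lit 20) (.e (nat_lit 2391) (nat_lit 156) (.e (nat_lit 819204) (nat_lit 0) (.e (nat_lit 3027) (nat_lit 187) (.e (nat_lit 458496) (nat_lit 8) (.e (nat_lit 564992) (nat_lit 6) .nil)))))) (.g (nat_lit 1) (.e (nat_lit 269379) (nat_lit 0) .nil) .nil))) 
(.lf (nat_lit 540334) (.g (nat_lit 2475) (.e (nat_lit 90159) (nat_lit 11) (.e (nat_lit 24627) (nat_lit 9) (.e (nat_lit 336384) (nat_lit 27) (.e (nat_lit 426500) (nat_lit 27) (.e (nat_lit 335995) (nat_lit 1) (.e (nat_lit 57848) (nat_lit 252) (.e (nat_lit 57372) (nat_lit 2) .nil))))))) (.g (nat_lit 1) (.e (nat_lit 270566) (nat_lit 0) .nil) .nil)))) (.nd (nat_lit 9) 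
(.lf (nat_lit 540078) (.g (nat_lit 4037) (.e (nat_lit 81955) (nat_lit 23) (.e (nat_lit 98367) (nat_lit 27) (.e (nat_lit 434271) (nat_lit 38) (.e (nat_lit 655375) (nat_lit 3) (.e (nat_lit 163978) (nat_lit 30) (.e (nat_lit 573490) (nat_lit 15) .nil)))))) (.g (nat_lit 1) (.e (nat_lit 269847) (nat_lit 0) .nil) .nil))) 
(.lf (nat_lit 540590) (.g (nat_lit 2048) (.e (nat_lit 90170) (nat_lit 13) (.e (nat_lit 172106) (nat_lit 10) (.e (nat_lit 434231) (nat_lit 23) (.e (nat_lit 532482) (nat_lit 0) (.e (nat_lit 6619) (nat_lit 357) .nil))))) (.g (nat_lit 0) (.e (nat_lit 270947) (nat_lit 0) .nil) .nil)))))) (.nd (nat_lit 7) (.nd (nat_lit 8) (.nd (nat_lit 9) 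
(.lf (nat_lit 539758) (.g (nat_lit 221) (.e (nat_lit 81943) (nat_lit 20) (.e (nat_lit 1842) (nat_lit 123) (.e (nat_lit 548889) (nat_lit 9) .nil))) (.g (nat_lit 0) (.e (nat_lit 269271) (nat_lit 0) .nil) .nil))) 
(.lf (nat_lit 540270) (.g (nat_lit 2701) (.e (nat_lit 90156) (nat_lit 11) (.e (nat_lit 24630) (nat_lit 9) (.e (nat_lit 336454) (nat_lit 34) (.e (nat_lit 483366) (nat_lit 18) (.e (nat_lit 57848) (nat_lit 252) .nil))))) (.g (nat_lit 0) (.e (nat_lit 270470) (nat_lit 0) .nil) .nil)))) (.nd (nat_lit 9) 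
(.lf (nat_lit 540014) (.g (nat_lit 1345) (.e (nat_lit 81952) (nat_lit 22) (.e (nat_lit 90185) (nat_lit 17) (.e (nat_lit 237582) (nat_lit 1) (.e (nat_lit 164348) (nat_lit 240) .nil)))) (.g (nat_lit 0) (.e (nat_lit 269721) (nat_lit 0) .nil) .nil))) 
(.lf (nat_lit 540526) (.g (nat_lit 865) (.e (nat_lit 90168) (nat_lit 13) (.e (nat_lit 172123) (nat_lit 13) (.e (nat_lit 483363) (nat_lit 18) (.e (nat_lit 57688) (nat_lit 156) .nil)))) (.g (nat_lit 0) (.e (nat_lit 270863) (nat_lit 0) .nil) .nil))))) (.nd (nat_lit 8) (.nd (nat_lit 9) 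
(.lf (nat_lit 539886) (.g (nat_lit 1283) (.e (nat_lit 81946) (nat_lit 20) (.e (nat_lit 2391) (nat_lit 156) (.e (nat_lit 819203) (nat_lit 0) (.e (nat_lit 3004) (nat_lit 186) (.e (nat_lit 450304) (nat_lit 2) (.e (nat_lit 98048) (nat_lit 6) .nil)))))) (.g (nat_lit 1) (.e (nat_lit 269472) (nat_lit 0) .nil) .nil))) 
(.lf (nat_lit 540398) (.g (nat_lit 1714) (.e (nat_lit 90166) (nat_lit 13) (.e (nat_lit 172124) (nat_lit 14) (.e (nat_lit 491537) (nat_lit 2) (.e (nat_lit 90170) (nat_lit 13) .nil)))) (.g (nat_lit 0) (.e (nat_lit 270707) (nat_lit 0) .nil) .nil)))) (.nd (nat_lit 9) 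
(.lf (nat_lit 540142) (.g (nat_lit 1296) (.e (nat_lit 98048) (nat_lit 0) (.e (nat_lit 371) (nat_lit 32) (.e (nat_lit 426428) (nat_lit 17) (.e (nat_lit 90174) (nat_lit 14) .nil)))) (.g (nat_lit 0) (.e (nat_lit 269952) (nat_lit 0) .nil) .nil))) 
(.lf (nat_lit 540654) (.g (nat_lit 2668) (.e (nat_lit 90170) (nat_lit 13) (.e (nat_lit 172106) (nat_lit 10) (.e (nat_lit 434231) (nat_lit 23) (.e (nat_lit 532535) (nat_lit 9) (.e (nat_lit 343808) (nat_lit 1) (.e (nat_lit 57927) (nat_lit 282) (.e (nat_lit 171776) (nat_lit 63) .nil))))))) (.g (nat_lit 1) (.e (nat_lit 271011) (nat_lit 0) .nil) .nil)))))))) 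
(.nd (nat_lit 5) (.nd (nat_lit 6) (.nd (nat_lit 7) (.nd (nat_lit 8) (.nd (nat_lit 9) 
(.lf (nat_lit 539678) (.g (nat_lit 737) (.e (nat_lit 81939) (nat_lit 20) (.e (nat_lit 2391) (nat_lit 156) (.e (nat_lit 819203) (nat_lit 0) (.e (nat_lit 3021) (nat_lit 187) (.e (nat_lit 458496) (nat_lit 8) (.e (nat_lit 564992) (nat_lit 6) .nil)))))) (.g (nat_lit 1) (.e (nat_lit 269137) (nat_lit 0) .nil) .nil))) 
(.lf (nat_lit 540190) (.g (nat_lit 1767) (.e (nat_lit 90130) (nat_lit 9) (.e (nat_lit 2830) (nat_lit 182) (.e (nat_lit 409648) (nat_lit 18) (.e (nat_lit 303107) (nat_lit 0) .nil)))) (.g (nat_lit 0) (.e (nat_lit 270181) (nat_lit 0) .nil) .nil)))) (.nd (nat_lit 9) 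
(.lf (nat_lit 539934) (.g (nat_lit 896) (.e (nat_lit 81947) (nat_lit 20) (.e (nat_lit 2390) (nat_lit 156) (.e (nat_lit 819203) (nat_lit 0) (.e (nat_lit 2998) (nat_lit 186) (.e (nat_lit 450304) (nat_lit 2) (.e (nat_lit 98048) (nat_lit 6) .nil)))))) (.g (nat_lit 1) (.e (nat_lit 269535) (nat_lit 0) .nil) .nil))) 
(.lf (nat_lit 540446) (.g (nat_lit 1813) (.e (nat_lit 90167) (nat_lit 13) (.e (nat_lit 172120) (nat_lit 12) (.e (nat_lit 475179) (nat_lit 24) (.e (nat_lit 516129) (nat_lit 3) .nil)))) (.g (nat_lit 0) (.e (nat_lit 270763) (nat_lit 0) .nil) .nil))))) (.nd (nat_lit 8) (.nd (nat_lit 9) 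
(.lf (nat_lit 539806) (.g (nat_lit 1458) (.e (nat_lit 81943) (nat_lit 20) (.e (nat_lit 2391) (nat_lit 156) (.e (nat_lit 819203) (nat_lit 0) (.e (nat_lit 3015) (nat_lit 187) (.e (nat_lit 458496) (nat_lit 8) (.e (nat_lit 564992) (nat_lit 6) .nil)))))) (.g (nat_lit 1) (.e (nat_lit 269359) (nat_lit 0) .nil) .nil))) 
(.lf (nat_lit 540318) (.g (nat_lit 2738) (.e (nat_lit 90158) (nat_lit 11) (.e (nat_lit 24630) (nat_lit 9) (.e (nat_lit 336454) (nat_lit 34) (.e (nat_lit 483366) (nat_lit 18) (.e (nat_lit 57848) (nat_lit 252) .nil))))) (.g (nat_lit 0) (.e (nat_lit 270547) (nat_lit 0) .nil) .nil)))) (.nd (nat_lit 9) 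
(.lf (nat_lit 540062) (.g (nat_lit 3535) (.e (nat_lit 81955) (nat_lit 23) (.e (nat_lit 98349) (nat_lit 24) (.e (nat_lit 409645) (nat_lit 18) (.e (nat_lit 303117) (nat_lit 2) (.e (nat_lit 196674) (nat_lit 15) .nil))))) (.g (nat_lit 1) (.e (nat_lit 269827) (nat_lit 0) .nil) .nil))) 
(.lf (nat_lit 540574) (.g (nat_lit 3442) (.e (nat_lit 90170) (nat_lit 13) (.e (nat_lit 172067) (nat_lit 3) (.e (nat_lit 204830) (nat_lit 18) (.e (nat_lit 57692) (nat_lit 156) (.e (nat_lit 163874) (nat_lit 3) (.e (nat_lit 204836) (nat_lit 20) (.e (nat_lit 114715) (nat_lit 22) .nil))))))) (.g (nat_lit 1) (.e (nat_lit 270931) (nat_lit 0) .nil) .nil)))))) 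
(.nd (nat_lit 7) (.nd (nat_lit 8) (.nd (nat_lit 9) 
(.lf (nat_lit 539742) (.g (nat_lit 1452) (.e (nat_lit 81942) (nat_lit 20) (.e (nat_lit 2391) (nat_lit 156) (.e (nat_lit 819204) (nat_lit 0) (.e (nat_lit 3027) (nat_lit 187) (.e (nat_lit 458496) (nat_lit 8) (.e (nat_lit 564992) (nat_lit 6) .nil)))))) (.g (nat_lit 1) (.e (nat_lit 269220) (nat_lit 0) .nil) .nil))) 
(.lf (nat_lit 540254) (.g (nat_lit 526) (.e (nat_lit 90140) (nat_lit 9) (.e (nat_lit 2610) (nat_lit 163) (.e (nat_lit 164182) (nat_lit 154) .nil))) (.g (nat_lit 0) (.e (nat_lit 270410) (nat_lit 0) .nil) .nil)))) (.nd (nat_lit 9) 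
(.lf (nat_lit 539998) (.g (nat_lit 2175) (.e (nat_lit 89856) (nat_lit 20) (.e (nat_lit 1800) (nat_lit 119) (.e (nat_lit 516139) (nat_lit 7) (.e (nat_lit 409647) (nat_lit 18) (.e (nat_lit 303117) (nat_lit 2) .nil))))) (.g (nat_lit 0) (.e (nat_lit 269633) (nat_lit 0) .nil) .nil))) 
(.lf (nat_lit 540510) (.g (nat_lit 544) (.e (nat_lit 90168) (nat_lit 13) (.e (nat_lit 172120) (nat_lit 12) (.e (nat_lit 475185) (nat_lit 29) .nil))) (.g (nat_lit 0) (.e (nat_lit 270847) (nat_lit 0) .nil) .nil))))) (.nd (nat_lit 8) (.nd (nat_lit 9) 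
(.lf (nat_lit 539870) (.g (nat_lit 1340) (.e (nat_lit 81946) (nat_lit 20) (.e (nat_lit 2390) (nat_lit 156) (.e (nat_lit 819204) (nat_lit 0) (.e (nat_lit 3004) (nat_lit 186) (.e (nat_lit 450304) (nat_lit 2) (.e (nat_lit 98048) (nat_lit 6) .nil)))))) (.g (nat_lit 1) (.e (nat_lit 269449) (nat_lit 0) .nil) .nil))) 
(.lf (nat_lit 540382) (.g (nat_lit 3912) (.e (nat_lit 90166) (nat_lit 13) (.e (nat_lit 172094) (nat_lit 9) (.e (nat_lit 426125) (nat_lit 2) (.e (nat_lit 196630) (nat_lit 9) (.e (nat_lit 1401) (nat_lit 106) .nil))))) (.g (nat_lit 0) (.e (nat_lit 270681) (nat_lit 0) .nil) .nil)))) (.nd (nat_lit 9) 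
(.lf (nat_lit 540126) (.g (nat_lit 604) (.e (nat_lit 89856) (nat_lit 23) (.e (nat_lit 98386) (nat_lit 32) (.e (nat_lit 475196) (nat_lit 40) .nil))) (.g (nat_lit 0) (.e (nat_lit 269921) (nat_lit 0) .nil) .nil))) 
(.lf (nat_lit 540638) (.g (nat_lit 3167) (.e (nat_lit 90170) (nat_lit 13) (.e (nat_lit 172106) (nat_lit 10) (.e (nat_lit 434231) (nat_lit 23) (.e (nat_lit 532535) (nat_lit 9) (.e (nat_lit 335929) (nat_lit 0) .nil))))) (.g (nat_lit 0) (.e (nat_lit 270995) (nat_lit 0) .nil) .nil))))))) (.nd (nat_lit 6) (.nd (nat_lit 7) (.nd (nat_lit 8) (.nd (nat_lit 9) 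
(.lf (nat_lit 539710) (.g (nat_lit 1302) (.e (nat_lit 81942) (nat_lit 20) (.e (nat_lit 2281) (nat_lit 150) (.e (nat_lit 770072) (nat_lit 8) (.e (nat_lit 65610) (nat_lit 10) .nil)))) (.g (nat_lit 0) (.e (nat_lit 269184) (nat_lit 0) .nil) .nil))) 
(.lf (nat_lit 540222) (.g (nat_lit 3259) (.e (nat_lit 90133) (nat_lit 9) (.e (nat_lit 3105) (nat_lit 192) (.e (nat_lit 491566) (nat_lit 12) (.e (nat_lit 385073) (nat_lit 31) (.e (nat_lit 573491) (nat_lit 15) (.e (nat_lit 81951) (nat_lit 22) .nil)))))) (.g (nat_lit 1) (.e (nat_lit 270305) (nat_lit 0) .nil) .nil)))) (.nd (nat_lit 9) 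
(.lf (nat_lit 539966) (.g (nat_lit 1322) (.e (nat_lit 81947) (nat_lit 20) (.e (nat_lit 2391) (nat_lit 156) (.e (nat_lit 819203) (nat_lit 0) (.e (nat_lit 3027) (nat_lit 187) (.e (nat_lit 458496) (nat_lit 8) (.e (nat_lit 564992) (nat_lit 6) .nil)))))) (.g (nat_lit 1) (.e (nat_lit 269584) (nat_lit 0) .nil) .nil))) 
(.lf (nat_lit 540478) (.g (nat_lit 2711) (.e (nat_lit 90168) (nat_lit 13) (.e (nat_lit 172067) (nat_lit 3) (.e (nat_lit 204829) (nat_lit 18) (.e (nat_lit 57688) (nat_lit 156) (.e (nat_lit 163873) (nat_lit 3) (.e (nat_lit 204838) (nat_lit 20) (.e (nat_lit 114716) (nat_lit 22) .nil))))))) (.g (nat_lit 1) (.e (nat_lit 270809) (nat_lit 0) .nil) .nil))))) (.nd (nat_lit 8) (.nd (nat_lit 9) 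
(.lf (nat_lit 539838) (.g (nat_lit 1687) (.e (nat_lit 81946) (nat_lit 20) (.e (nat_lit 1842) (nat_lit 123) (.e (nat_lit 548889) (nat_lit 9) (.e (nat_lit 65586) (nat_lit 7) (.e (nat_lit 319500) (nat_lit 10) (.e (nat_lit 559) (nat_lit 41) (.e (nat_lit 500076) (nat_lit 20) .nil))))))) (.g (nat_lit 1) (.e (nat_lit 269403) (nat_lit 0) .nil) .nil))) 
(.lf (nat_lit 540350) (.g (nat_lit 795) (.e (nat_lit 90160) (nat_lit 11) (.e (nat_lit 24604) (nat_lit 2) (.e (nat_lit 90165) (nat_lit 12) .nil))) (.g (nat_lit 0) (.e (nat_lit 270602) (nat_lit 0) .nil) .nil)))) (.nd (nat_lit 9) 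
(.lf (nat_lit 540094) (.g (nat_lit 972) (.e (nat_lit 81956) (nat_lit 23) (.e (nat_lit 98350) (nat_lit 24) (.e (nat_lit 409610) (nat_lit 10) .nil))) (.g (nat_lit 0) (.e (nat_lit 269869) (nat_lit 0) .nil) .nil))) 
(.lf (nat_lit 540606) (.g (nat_lit 3586) (.e (nat_lit 90170) (nat_lit 13) (.e (nat_lit 172106) (nat_lit 10) (.e (nat_lit 434231) (nat_lit 23) (.e (nat_lit 532523) (nat_lit 7) (.e (nat_lit 319507) (nat_lit 10) .nil))))) (.g (nat_lit 0) (.e (nat_lit 270963) (nat_lit 0) .nil) .nil)))))) (.nd (nat_lit 7) (.nd (nat_lit 8) (.nd (nat_lit 9) 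
(.lf (nat_lit 539774) (.g (nat_lit 1188) (.e (nat_lit 81943) (nat_lit 20) (.e (nat_lit 2281) (nat_lit 150) (.e (nat_lit 770072) (nat_lit 8) (.e (nat_lit 65610) (nat_lit 10) .nil)))) (.g (nat_lit 0) (.e (nat_lit 269318) (nat_lit 0) .nil) .nil))) 
(.lf (nat_lit 540286) (.g (nat_lit 1050) (.e (nat_lit 90158) (nat_lit 11) (.e (nat_lit 24608) (nat_lit 3) (.e (nat_lit 98325) (nat_lit 17) .nil))) (.g (nat_lit 0) (.e (nat_lit 270507) (nat_lit 0) .nil) .nil)))) (.nd (nat_lit 9) 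
(.lf (nat_lit 540030) (.g (nat_lit 378) (.e (nat_lit 81954) (nat_lit 23) (.e (nat_lit 98349) (nat_lit 24) (.e (nat_lit 409648) (nat_lit 18) .nil))) (.g (nat_lit 0) (.e (nat_lit 269752) (nat_lit 0) .nil) .nil))) 
(.lf (nat_lit 540542) (.g (nat_lit 2496) (.e (nat_lit 90169) (nat_lit 13) (.e (nat_lit 172113) (nat_lit 10) (.e (nat_lit 434247) (nat_lit 28) (.e (nat_lit 573477) (nat_lit 12) (.e (nat_lit 57575) (nat_lit 55) (.e (nat_lit 778465) (nat_lit 11) (.e (nat_lit 24603) (nat_lit 2) .nil))))))) (.g (nat_lit 1) (.e (nat_lit 270887) (nat_lit 0) .nil) .nil))))) (.nd (nat_lit 8) (.nd (nat_lit 9) 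
(.lf (nat_lit 539902) (.g (nat_lit 1700) (.e (nat_lit 81946) (nat_lit 20) (.e (nat_lit 2391) (nat_lit 156) (.e (nat_lit 819204) (nat_lit 0) (.e (nat_lit 3022) (nat_lit 187) (.e (nat_lit 450584) (nat_lit 9) (.e (nat_lit 573184) (nat_lit 6) .nil)))))) (.g (nat_lit 1) (.e (nat_lit 269492) (nat_lit 0) .nil) .nil))) 
(.lf (nat_lit 540414) (.g (nat_lit 1855) (.e (nat_lit 90167) (nat_lit 13) (.e (nat_lit 172067) (nat_lit 3) (.e (nat_lit 204830) (nat_lit 18) (.e (nat_lit 57663) (nat_lit 152) .nil)))) (.g (nat_lit 0) (.e (nat_lit 270724) (nat_lit 0) .nil) .nil)))) (.nd (nat_lit 9) 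
(.lf (nat_lit 540158) (.g (nat_lit 1662) (.e (nat_lit 90127) (nat_lit 9) (.e (nat_lit 3098) (nat_lit 192) (.e (nat_lit 491569) (nat_lit 13) (.e (nat_lit 393234) (nat_lit 17) .nil)))) (.g (nat_lit 0) (.e (nat_lit 270050) (nat_lit 0) .nil) .nil))) 
(.lf (nat_lit 540670) (.g (nat_lit 3096) (.e (nat_lit 90170) (nat_lit 13) (.e (nat_lit 172106) (nat_lit 10) (.e (nat_lit 434244) (nat_lit 28) (.e (nat_lit 573451) (nat_lit 9) (.e (nat_lit 437) (nat_lit 32) (.e (nat_lit 426341) (nat_lit 14) (.e (nat_lit 491537) (nat_lit 2) .nil))))))) (.g (nat_lit 1) (.e (nat_lit 271027) (nat_lit 0) .nil) .nil)))))))))))) 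
(.nd (nat_lit 1) (.nd (nat_lit 2) (.nd (nat_lit 3) (.nd (nat_lit 4) (.nd (nat_lit 5) 
(.nd (nat_lit 6) (.nd (nat_lit 7) (.nd (nat_lit 8) (.nd (nat_lit 9) 
(.lf (nat_lit 539649) (.g (nat_lit 468) (.e (nat_lit 81939) (nat_lit 20) (.e (nat_lit 2390) (nat_lit 156) (.e (nat_lit 819203) (nat_lit 0) (.e (nat_lit 3021) (nat_lit 187) (.e (nat_lit 458496) (nat_lit 8) (.e (nat_lit 564992) (nat_lit 6) .nil)))))) (.g (nat_lit 1) (.e (nat_lit 269098) (nat_lit 0) .nil) .nil))) 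
(.lf (nat_lit 540161) (.g (nat_lit 285) (.e (nat_lit 90128) (nat_lit 9) (.e (nat_lit 334) (nat_lit 26) (.e (nat_lit 384768) (nat_lit 18) .nil))) (.g (nat_lit 0) (.e (nat_lit 270069) (nat_lit 0) .nil) .nil)))) (.nd (nat_lit 9) 
(.lf (nat_lit 539905) (.g (nat_lit 1496) (.e (nat_lit 81946) (nat_lit 20) (.e (nat_lit 2391) (nat_lit 156) (.e (nat_lit 819221) (nat_lit 6) (.e (nat_lit 188427) (nat_lit 20) (.e (nat_lit 3279) (nat_lit 200) (.e (nat_lit 564992) (nat_lit 6) .nil)))))) (.g (nat_lit 1) (.e (nat_lit 269496) (nat_lit 0) .nil) .nil))) 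
(.lf (nat_lit 540417) (.g (nat_lit 1851) (.e (nat_lit 90167) (nat_lit 13) (.e (nat_lit 172067) (nat_lit 3) (.e (nat_lit 204837) (nat_lit 20) (.e (nat_lit 114707) (nat_lit 20) .nil)))) (.g (nat_lit 0) (.e (nat_lit 270727) (nat_lit 0) .nil) .nil))))) (.nd (nat_lit 8) (.nd (nat_lit 9) 
(.lf (nat_lit 539777) (.g (nat_lit 693) (.e (nat_lit 81943) (nat_lit 20) (.e (nat_lit 2390) (nat_lit 156) (.e (nat_lit 819203) (nat_lit 0) (.e (nat_lit 2998) (nat_lit 186) (.e (nat_lit 450304) (nat_lit 2) (.e (nat_lit 98048) (nat_lit 6) .nil)))))) (.g (nat_lit 1) (.e (nat_lit 269322) (nat_lit 0) .nil) .nil))) 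
(.lf (nat_lit 540289) (.g (nat_lit 1090) (.e (nat_lit 90158) (nat_lit 11) (.e (nat_lit 24608) (nat_lit 3) (.e (nat_lit 98335) (nat_lit 18) .nil))) (.g (nat_lit 0) (.e (nat_lit 270513) (nat_lit 0) .nil) .nil)))) (.nd (nat_lit 9) 
(.lf (nat_lit 540033) (.g (nat_lit 557) (.e (nat_lit 81954) (nat_lit 23) (.e (nat_lit 98356) (nat_lit 26) (.e (nat_lit 426360) (nat_lit 15) .nil))) (.g (nat_lit 0) (.e (nat_lit 269758) (nat_lit 0) .nil) .nil))) 
(.lf (nat_lit 540545) (.g (nat_lit 367) (.e (nat_lit 90169) (nat_lit 13) (.e (nat_lit 172121) (nat_lit 13) (.e (nat_lit 483337) (nat_lit 9) .nil))) (.g (nat_lit 0) (.e (nat_lit 270890) (nat_lit 0) .nil) .nil)))))) (.nd (nat_lit 7) (.nd (nat_lit 8) (.nd (nat_lit 9) 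
(.lf (nat_lit 539713) (.g (nat_lit 1781) (.e (nat_lit 81942) (nat_lit 20) (.e (nat_lit 2281) (nat_lit 150) (.e (nat_lit 770072) (nat_lit 8) (.e (nat_lit 65617) (nat_lit 10) (.e (nat_lit 344095) (nat_lit 18) .nil))))) (.g (nat_lit 0) (.e (nat_lit 269187) (nat_lit 0) .nil) .nil))) 
(.lf (nat_lit 540225) (.g (nat_lit 898) (.e (nat_lit 90134) (nat_lit 9) (.e (nat_lit 2612) (nat_lit 163) (.e (nat_lit 164326) (nat_lit 230) (.e (nat_lit 163903) (nat_lit 12) .nil)))) (.g (nat_lit 0) (.e (nat_lit 270313) (nat_lit 0) .nil) .nil)))) (.nd (nat_lit 9) 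
(.lf (nat_lit 539969) (.g (nat_lit 1613) (.e (nat_lit 81947) (nat_lit 20) (.e (nat_lit 2391) (nat_lit 156) (.e (nat_lit 819204) (nat_lit 0) (.e (nat_lit 2989) (nat_lit 186) (.e (nat_lit 450304) (nat_lit 2) (.e (nat_lit 98048) (nat_lit 6) .nil)))))) (.g (nat_lit 1) (.e (nat_lit 269589) (nat_lit 0) .nil) .nil))) 
(.lf (nat_lit 540481) (.g (nat_lit 1810) (.e (nat_lit 90168) (nat_lit 13) (.e (nat_lit 172067) (nat_lit 3) (.e (nat_lit 204830) (nat_lit 18) (.e (nat_lit 57663) (nat_lit 152) .nil)))) (.g (nat_lit 0) (.e (nat_lit 270812) (nat_lit 0) .nil) .nil))))) (.nd (nat_lit 8) (.nd (nat_lit 9) 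
(.lf (nat_lit 539841) (.g (nat_lit 832) (.e (nat_lit 81946) (nat_lit 20) (.e (nat_lit 1886) (nat_lit 127) (.e (nat_lit 581652) (nat_lit 5) (.e (nat_lit 180284) (nat_lit 45) (.e (nat_lit 2579) (nat_lit 161) (.e (nat_lit 48896) (nat_lit 6) .nil)))))) (.g (nat_lit 1) (.e (nat_lit 269407) (nat_lit 0) .nil) .nil))) 
(.lf (nat_lit 540353) (.g (nat_lit 2715) (.e (nat_lit 90160) (nat_lit 11) (.e (nat_lit 24627) (nat_lit 9) (.e (nat_lit 336454) (nat_lit 34) (.e (nat_lit 483363) (nat_lit 18) (.e (nat_lit 57845) (nat_lit 252) .nil))))) (.g (nat_lit 0) (.e (nat_lit 270611) (nat_lit 0) .nil) .nil)))) (.nd (nat_lit 9) 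
(.lf (nat_lit 540097) (.g (nat_lit 997) (.e (nat_lit 81956) (nat_lit 23) (.e (nat_lit 98350) (nat_lit 24) (.e (nat_lit 409623) (nat_lit 10) (.e (nat_lit 5259) (nat_lit 298) .nil)))) (.g (nat_lit 0) (.e (nat_lit 269874) (nat_lit 0) .nil) .nil))) 
(.lf (nat_lit 540609) (.g (nat_lit 3351) (.e (nat_lit 90170) (nat_lit 13) (.e (nat_lit 172106) (nat_lit 10) (.e (nat_lit 434231) (nat_lit 23) (.e (nat_lit 532523) (nat_lit 7) (.e (nat_lit 319510) (nat_lit 10) .nil))))) (.g (nat_lit 0) (.e (nat_lit 270966) (nat_lit 0) .nil) .nil))))))) (.nd (nat_lit 6) (.nd (nat_lit 7) (.nd (nat_lit 8) (.nd (nat_lit 9) 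
(.lf (nat_lit 539681) (.g (nat_lit 773) (.e (nat_lit 81939) (nat_lit 20) (.e (nat_lit 2391) (nat_lit 156) (.e (nat_lit 819203) (nat_lit 0) (.e (nat_lit 3028) (nat_lit 187) (.e (nat_lit 458496) (nat_lit 8) (.e (nat_lit 564992) (nat_lit 6) .nil)))))) (.g (nat_lit 1) (.e (nat_lit 269141) (nat_lit 0) .nil) .nil))) 
(.lf (nat_lit 540193) (.g (nat_lit 2951) (.e (nat_lit 90130) (nat_lit 9) (.e (nat_lit 2830) (nat_lit 182) (.e (nat_lit 409648) (nat_lit 18) (.e (nat_lit 303112) (nat_lit 0) (.e (nat_lit 3252) (nat_lit 197) .nil))))) (.g (nat_lit 0) (.e (nat_lit 270184) (nat_lit 0) .nil) .nil)))) (.nd (nat_lit 9) 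
(.lf (nat_lit 539937) (.g (nat_lit 1207) (.e (nat_lit 81947) (nat_lit 20) (.e (nat_lit 2390) (nat_lit 156) (.e (nat_lit 819203) (nat_lit 0) (.e (nat_lit 3016) (nat_lit 187) (.e (nat_lit 458496) (nat_lit 8) (.e (nat_lit 564992) (nat_lit 6) .nil)))))) (.g (nat_lit 1) (.e (nat_lit 269542) (nat_lit 0) .nil) .nil))) 
(.lf (nat_lit 540449) (.g (nat_lit 2129) (.e (nat_lit 90167) (nat_lit 13) (.e (nat_lit 172120) (nat_lit 12) (.e (nat_lit 475185) (nat_lit 29) (.e (nat_lit 557101) (nat_lit 13) .nil)))) (.g (nat_lit 0) (.e (nat_lit 270766) (nat_lit 0) .nil) .nil))))) (.nd (nat_lit 8) (.nd (nat_lit 9) 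
(.lf (nat_lit 539809) (.g (nat_lit 1485) (.e (nat_lit 81943) (nat_lit 20) (.e (nat_lit 2391) (nat_lit 156) (.e (nat_lit 819203) (nat_lit 0) (.e (nat_lit 3022) (nat_lit 187) (.e (nat_lit 458496) (nat_lit 8) (.e (nat_lit 564992) (nat_lit 6) .nil)))))) (.g (nat_lit 1) (.e (nat_lit 269362) (nat_lit 0) .nil) .nil))) 
(.lf (nat_lit 540321) (.g (nat_lit 3213) (.e (nat_lit 90158) (nat_lit 11) (.e (nat_lit 24630) (nat_lit 9) (.e (nat_lit 336456) (nat_lit 34) (.e (nat_lit 483363) (nat_lit 18) (.e (nat_lit 57847) (nat_lit 252) (.e (nat_lit 57370) (nat_lit 2) .nil)))))) (.g (nat_lit 1) (.e (nat_lit 270550) (nat_lit 0) .nil) .nil)))) (.nd (nat_lit 9) 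
(.lf (nat_lit 540065) (.g (nat_lit 2874) (.e (nat_lit 81955) (nat_lit 23) (.e (nat_lit 98350) (nat_lit 24) (.e (nat_lit 409643) (nat_lit 18) (.e (nat_lit 303117) (nat_lit 2) (.e (nat_lit 196674) (nat_lit 15) .nil))))) (.g (nat_lit 1) (.e (nat_lit 269830) (nat_lit 0) .nil) .nil))) 
(.lf (nat_lit 540577) (.g (nat_lit 3927) (.e (nat_lit 90170) (nat_lit 13) (.e (nat_lit 172067) (nat_lit 3) (.e (nat_lit 204830) (nat_lit 18) (.e (nat_lit 57692) (nat_lit 156) (.e (nat_lit 163875) (nat_lit 3) (.e (nat_lit 204838) (nat_lit 20) (.e (nat_lit 114715) (nat_lit 22) .nil))))))) (.g (nat_lit 1) (.e (nat_lit 270934) (nat_lit 0) .nil) .nil)))))) 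
(.nd (nat_lit 7) (.nd (nat_lit 8) (.nd (nat_lit 9) 
(.lf (nat_lit 539745) (.g (nat_lit 995) (.e (nat_lit 81942) (nat_lit 20) (.e (nat_lit 2391) (nat_lit 156) (.e (nat_lit 819221) (nat_lit 6) (.e (nat_lit 188427) (nat_lit 20) (.e (nat_lit 3281) (nat_lit 200) (.e (nat_lit 564992) (nat_lit 6) .nil)))))) (.g (nat_lit 1) (.e (nat_lit 269223) (nat_lit 0) .nil) .nil))) 
(.lf (nat_lit 540257) (.g (nat_lit 2217) (.e (nat_lit 98048) (nat_lit 9) (.e (nat_lit 3013) (nat_lit 187) (.e (nat_lit 450586) (nat_lit 10) (.e (nat_lit 573474) (nat_lit 12) .nil)))) (.g (nat_lit 0) (.e (nat_lit 270442) (nat_lit 0) .nil) .nil)))) (.nd (nat_lit 9) 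
(.lf (nat_lit 540001) (.g (nat_lit 2171) (.e (nat_lit 81951) (nat_lit 22) (.e (nat_lit 90134) (nat_lit 9) (.e (nat_lit 2828) (nat_lit 182) (.e (nat_lit 409646) (nat_lit 18) (.e (nat_lit 303117) (nat_lit 2) (.e (nat_lit 204544) (nat_lit 15) .nil)))))) (.g (nat_lit 1) (.e (nat_lit 269689) (nat_lit 0) .nil) .nil))) 
(.lf (nat_lit 540513) (.g (nat_lit 1894) (.e (nat_lit 90168) (nat_lit 13) (.e (nat_lit 172120) (nat_lit 12) (.e (nat_lit 475185) (nat_lit 29) (.e (nat_lit 557101) (nat_lit 13) .nil)))) (.g (nat_lit 0) (.e (nat_lit 270850) (nat_lit 0) .nil) .nil))))) (.nd (nat_lit 8) (.nd (nat_lit 9) 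
(.lf (nat_lit 539873) (.g (nat_lit 1146) (.e (nat_lit 81946) (nat_lit 20) (.e (nat_lit 2390) (nat_lit 156) (.e (nat_lit 819204) (nat_lit 0) (.e (nat_lit 3021) (nat_lit 187) (.e (nat_lit 458496) (nat_lit 8) (.e (nat_lit 564992) (nat_lit 6) .nil)))))) (.g (nat_lit 1) (.e (nat_lit 269454) (nat_lit 0) .nil) .nil))) 
(.lf (nat_lit 540385) (.g (nat_lit 2034) (.e (nat_lit 90166) (nat_lit 13) (.e (nat_lit 172113) (nat_lit 10) (.e (nat_lit 434245) (nat_lit 28) (.e (nat_lit 573474) (nat_lit 12) (.e (nat_lit 57574) (nat_lit 55) .nil))))) (.g (nat_lit 0) (.e (nat_lit 270692) (nat_lit 0) .nil) .nil)))) (.nd (nat_lit 9) 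
(.lf (nat_lit 540129) (.g (nat_lit 2130) (.e (nat_lit 81957) (nat_lit 24) (.e (nat_lit 123025) (nat_lit 127) (.e (nat_lit 229415) (nat_lit 15) (.e (nat_lit 450563) (nat_lit 0) (.e (nat_lit 6740) (nat_lit 365) (.e (nat_lit 7936) (nat_lit 90) .nil)))))) (.g (nat_lit 1) (.e (nat_lit 269925) (nat_lit 0) .nil) .nil))) 
(.lf (nat_lit 540641) (.g (nat_lit 2694) (.e (nat_lit 90170) (nat_lit 13) (.e (nat_lit 172106) (nat_lit 10) (.e (nat_lit 434231) (nat_lit 23) (.e (nat_lit 532535) (nat_lit 9) (.e (nat_lit 335985) (nat_lit 1) (.e (nat_lit 57925) (nat_lit 282) (.e (nat_lit 171776) (nat_lit 63) .nil))))))) (.g (nat_lit 1) (.e (nat_lit 270998) (nat_lit 0) .nil) .nil)))))))) 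
(.nd (nat_lit 5) (.nd (nat_lit 6) (.nd (nat_lit 7) (.nd (nat_lit 8) (.nd (nat_lit 9) 
(.lf (nat_lit 539665) (.g (nat_lit 483) (.e (nat_lit 81939) (nat_lit 20) (.e (nat_lit 2390) (nat_lit 156) (.e (nat_lit 819221) (nat_lit 6) (.e (nat_lit 188427) (nat_lit 20) (.e (nat_lit 3281) (nat_lit 200) .nil))))) (.g (nat_lit 0) (.e (nat_lit 269119) (nat_lit 0) .nil) .nil))) 
(.lf (nat_lit 540177) (.g (nat_lit 2447) (.e (nat_lit 90130) (nat_lit 9) (.e (nat_lit 2830) (nat_lit 182) (.e (nat_lit 409646) (nat_lit 18) (.e (nat_lit 303112) (nat_lit 0) (.e (nat_lit 3252) (nat_lit 197) .nil))))) (.g (nat_lit 0) (.e (nat_lit 270163) (nat_lit 0) .nil) .nil)))) (.nd (nat_lit 9) 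
(.lf (nat_lit 539921) (.g (nat_lit 818) (.e (nat_lit 81947) (nat_lit 20) (.e (nat_lit 1886) (nat_lit 127) (.e (nat_lit 581652) (nat_lit 5) (.e (nat_lit 180284) (nat_lit 45) (.e (nat_lit 2579) (nat_lit 161) (.e (nat_lit 48896) (nat_lit 6) .nil)))))) (.g (nat_lit 1) (.e (nat_lit 269521) (nat_lit 0) .nil) .nil))) 
(.lf (nat_lit 540433) (.g (nat_lit 1979) (.e (nat_lit 90167) (nat_lit 13) (.e (nat_lit 172097) (nat_lit 9) (.e (nat_lit 426140) (nat_lit 3) (.e (nat_lit 204845) (nat_lit 24) (.e (nat_lit 319531) (nat_lit 16) .nil))))) (.g (nat_lit 0) (.e (nat_lit 270750) (nat_lit 0) .nil) .nil))))) (.nd (nat_lit 8) (.nd (nat_lit 9) 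
(.lf (nat_lit 539793) (.g (nat_lit 1268) (.e (nat_lit 81943) (nat_lit 20) (.e (nat_lit 2390) (nat_lit 156) (.e (nat_lit 819204) (nat_lit 0) (.e (nat_lit 3027) (nat_lit 187) (.e (nat_lit 458496) (nat_lit 8) (.e (nat_lit 564992) (nat_lit 6) .nil)))))) (.g (nat_lit 1) (.e (nat_lit 269343) (nat_lit 0) .nil) .nil))) 
(.lf (nat_lit 540305) (.g (nat_lit 3014) (.e (nat_lit 90158) (nat_lit 11) (.e (nat_lit 24628) (nat_lit 9) (.e (nat_lit 336454) (nat_lit 34) (.e (nat_lit 483366) (nat_lit 18) (.e (nat_lit 57853) (nat_lit 252) (.e (nat_lit 57370) (nat_lit 2) .nil)))))) (.g (nat_lit 1) (.e (nat_lit 270534) (nat_lit 0) .nil) .nil)))) (.nd (nat_lit 9) 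
(.lf (nat_lit 540049) (.g (nat_lit 1496) (.e (nat_lit 81954) (nat_lit 23) (.e (nat_lit 98384) (nat_lit 32) (.e (nat_lit 475163) (nat_lit 21) .nil))) (.g (nat_lit 0) (.e (nat_lit 269806) (nat_lit 0) .nil) .nil))) 
(.lf (nat_lit 540561) (.g (nat_lit 2971) (.e (nat_lit 90169) (nat_lit 13) (.e (nat_lit 172133) (nat_lit 15) (.e (nat_lit 2059) (nat_lit 142) (.e (nat_lit 704589) (nat_lit 3) (.e (nat_lit 163979) (nat_lit 30) .nil))))) (.g (nat_lit 0) (.e (nat_lit 270909) (nat_lit 0) .nil) .nil)))))) (.nd (nat_lit 7) (.nd (nat_lit 8) (.nd (nat_lit 9) 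
(.lf (nat_lit 539729) (.g (nat_lit 375) (.e (nat_lit 81942) (nat_lit 20) (.e (nat_lit 2390) (nat_lit 156) (.e (nat_lit 819221) (nat_lit 6) (.e (nat_lit 188430) (nat_lit 20) (.e (nat_lit 3282) (nat_lit 200) (.e (nat_lit 564992) (nat_lit 6) .nil)))))) (.g (nat_lit 1) (.e (nat_lit 269205) (nat_lit 0) .nil) .nil))) 
(.lf (nat_lit 540241) (.g (nat_lit 4082) (.e (nat_lit 90134) (nat_lit 9) (.e (nat_lit 3027) (nat_lit 187) (.e (nat_lit 450586) (nat_lit 10) (.e (nat_lit 573474) (nat_lit 12) (.e (nat_lit 57572) (nat_lit 54) .nil))))) (.g (nat_lit 0) (.e (nat_lit 270367) (nat_lit 0) .nil) .nil)))) (.nd (nat_lit 9) 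
(.lf (nat_lit 539985) (.g (nat_lit 1063) (.e (nat_lit 81947) (nat_lit 20) (.e (nat_lit 2391) (nat_lit 156) (.e (nat_lit 819221) (nat_lit 6) (.e (nat_lit 188427) (nat_lit 20) (.e (nat_lit 3281) (nat_lit 200) (.e (nat_lit 564992) (nat_lit 6) .nil)))))) (.g (nat_lit 1) (.e (nat_lit 269612) (nat_lit 0) .nil) .nil))) 
(.lf (nat_lit 540497) (.g (nat_lit 1217) (.e (nat_lit 90168) (nat_lit 13) (.e (nat_lit 172094) (nat_lit 9) (.e (nat_lit 426140) (nat_lit 3) (.e (nat_lit 204845) (nat_lit 24) .nil)))) (.g (nat_lit 0) (.e (nat_lit 270831) (nat_lit 0) .nil) .nil))))) (.nd (nat_lit 8) (.nd (nat_lit 9) 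
(.lf (nat_lit 539857) (.g (nat_lit 979) (.e (nat_lit 81946) (nat_lit 20) (.e (nat_lit 2390) (nat_lit 156) (.e (nat_lit 819203) (nat_lit 0) (.e (nat_lit 2989) (nat_lit 186) (.e (nat_lit 450304) (nat_lit 2) (.e (nat_lit 98048) (nat_lit 6) .nil)))))) (.g (nat_lit 1) (.e (nat_lit 269433) (nat_lit 0) .nil) .nil))) 
(.lf (nat_lit 540369) (.g (nat_lit 3603) (.e (nat_lit 90165) (nat_lit 12) (.e (nat_lit 164048) (nat_lit 55) (.e (nat_lit 778469) (nat_lit 11) (.e (nat_lit 24608) (nat_lit 3) (.e (nat_lit 98365) (nat_lit 26) (.e (nat_lit 426188) (nat_lit 9) (.e (nat_lit 426428) (nat_lit 17) .nil))))))) (.g (nat_lit 1) (.e (nat_lit 270652) (nat_lit 0) .nil) .nil)))) (.nd (nat_lit 9) 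
(.lf (nat_lit 540113) (.g (nat_lit 3193) (.e (nat_lit 81956) (nat_lit 23) (.e (nat_lit 98385) (nat_lit 32) (.e (nat_lit 475205) (nat_lit 40) (.e (nat_lit 704588) (nat_lit 3) (.e (nat_lit 163979) (nat_lit 30) (.e (nat_lit 573492) (nat_lit 15) .nil)))))) (.g (nat_lit 1) (.e (nat_lit 269907) (nat_lit 0) .nil) .nil))) 
(.lf (nat_lit 540625) (.g (nat_lit 3662) (.e (nat_lit 90170) (nat_lit 13) (.e (nat_lit 172106) (nat_lit 10) (.e (nat_lit 434231) (nat_lit 23) (.e (nat_lit 532529) (nat_lit 9) (.e (nat_lit 343808) (nat_lit 1) (.e (nat_lit 57927) (nat_lit 282) (.e (nat_lit 171776) (nat_lit 63) .nil))))))) (.g (nat_lit 1) (.e (nat_lit 270982) (nat_lit 0) .nil) .nil))))))) 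
(.nd (nat_lit 6) (.nd (nat_lit 7) (.nd (nat_lit 8) (.nd (nat_lit 9) 
(.lf (nat_lit 539697) (.g (nat_lit 741) (.e (nat_lit 81939) (nat_lit 20) (.e (nat_lit 2391) (nat_lit 156) (.e (nat_lit 819221) (nat_lit 6) (.e (nat_lit 188428) (nat_lit 20) (.e (nat_lit 3282) (nat_lit 200) (.e (nat_lit 564992) (nat_lit 6) .nil)))))) (.g (nat_lit 1) (.e (nat_lit 269160) (nat_lit 0) .nil) .nil))) 
(.lf (nat_lit 540209) (.g (nat_lit 1294) (.e (nat_lit 90130) (nat_lit 9) (.e (nat_lit 2830) (nat_lit 182) (.e (nat_lit 409649) (nat_lit 18) (.e (nat_lit 303118) (nat_lit 3) .nil)))) (.g (nat_lit 0) (.e (nat_lit 270227) (nat_lit 0) .nil) .nil)))) (.nd (nat_lit 9) 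
(.lf (nat_lit 539953) (.g (nat_lit 975) (.e (nat_lit 81947) (nat_lit 20) (.e (nat_lit 2390) (nat_lit 156) (.e (nat_lit 819221) (nat_lit 6) (.e (nat_lit 188427) (nat_lit 20) (.e (nat_lit 3279) (nat_lit 200) (.e (nat_lit 564992) (nat_lit 6) .nil)))))) (.g (nat_lit 1) (.e (nat_lit 269563) (nat_lit 0) .nil) .nil))) 
(.lf (nat_lit 540465) (.g (nat_lit 2370) (.e (nat_lit 90167) (nat_lit 13) (.e (nat_lit 172126) (nat_lit 14) (.e (nat_lit 491537) (nat_lit 2) (.e (nat_lit 90174) (nat_lit 14) (.e (nat_lit 188160) (nat_lit 32) .nil))))) (.g (nat_lit 0) (.e (nat_lit 270786) (nat_lit 0) .nil) .nil))))) (.nd (nat_lit 8) (.nd (nat_lit 9) 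
(.lf (nat_lit 539825) (.g (nat_lit 1413) (.e (nat_lit 81943) (nat_lit 20) (.e (nat_lit 2391) (nat_lit 156) (.e (nat_lit 819221) (nat_lit 6) (.e (nat_lit 188427) (nat_lit 20) (.e (nat_lit 3279) (nat_lit 200) (.e (nat_lit 564992) (nat_lit 6) .nil)))))) (.g (nat_lit 1) (.e (nat_lit 269383) (nat_lit 0) .nil) .nil))) 
(.lf (nat_lit 540337) (.g (nat_lit 3415) (.e (nat_lit 90159) (nat_lit 11) (.e (nat_lit 24627) (nat_lit 9) (.e (nat_lit 336454) (nat_lit 34) (.e (nat_lit 483363) (nat_lit 18) (.e (nat_lit 57848) (nat_lit 252) (.e (nat_lit 57372) (nat_lit 2) .nil)))))) (.g (nat_lit 1) (.e (nat_lit 270570) (nat_lit 0) .nil) .nil)))) (.nd (nat_lit 9) 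
(.lf (nat_lit 540081) (.g (nat_lit 2397) (.e (nat_lit 81955) (nat_lit 23) (.e (nat_lit 98384) (nat_lit 32) (.e (nat_lit 475198) (nat_lit 40) (.e (nat_lit 704589) (nat_lit 3) (.e (nat_lit 163976) (nat_lit 30) .nil))))) (.g (nat_lit 0) (.e (nat_lit 269850) (nat_lit 0) .nil) .nil))) 
(.lf (nat_lit 540593) (.g (nat_lit 3259) (.e (nat_lit 90170) (nat_lit 13) (.e (nat_lit 172106) (nat_lit 10) (.e (nat_lit 434231) (nat_lit 23) (.e (nat_lit 532499) (nat_lit 1) (.e (nat_lit 57778) (nat_lit 233) (.e (nat_lit 2551) (nat_lit 159) (.e (nat_lit 24605) (nat_lit 2) .nil))))))) (.g (nat_lit 1) (.e (nat_lit 270950) (nat_lit 0) .nil) .nil)))))) 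
(.nd (nat_lit 7) (.nd (nat_lit 8) (.nd (nat_lit 9) 
(.lf (nat_lit 539761) (.g (nat_lit 1335) (.e (nat_lit 81943) (nat_lit 20) (.e (nat_lit 1842) (nat_lit 123) (.e (nat_lit 548889) (nat_lit 9) (.e (nat_lit 65541) (nat_lit 0) .nil)))) (.g (nat_lit 0) (.e (nat_lit 269280) (nat_lit 0) .nil) .nil))) 
(.lf (nat_lit 540273) (.g (nat_lit 1407) (.e (nat_lit 90156) (nat_lit 11) (.e (nat_lit 24630) (nat_lit 9) (.e (nat_lit 336456) (nat_lit 34) (.e (nat_lit 483363) (nat_lit 18) .nil)))) (.g (nat_lit 0) (.e (nat_lit 270473) (nat_lit 0) .nil) .nil)))) (.nd (nat_lit 9) 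
(.lf (nat_lit 540017) (.g (nat_lit 2318) (.e (nat_lit 81953) (nat_lit 22) (.e (nat_lit 98048) (nat_lit 2) (.e (nat_lit 16425) (nat_lit 7) (.e (nat_lit 409617) (nat_lit 10) (.e (nat_lit 858) (nat_lit 75) (.e (nat_lit 778326) (nat_lit 6) .nil)))))) (.g (nat_lit 1) (.e (nat_lit 269724) (nat_lit 0) .nil) .nil))) 
(.lf (nat_lit 540529) (.g (nat_lit 8258) (.e (nat_lit 90168) (nat_lit 13) (.e (nat_lit 172133) (nat_lit 15) (.e (nat_lit 2059) (nat_lit 142) (.e (nat_lit 704589) (nat_lit 3) (.e (nat_lit 163976) (nat_lit 30) (.e (nat_lit 573492) (nat_lit 15) (.e (nat_lit 81953) (nat_lit 22) .nil))))))) (.g (nat_lit 1) (.e (nat_lit 270874) (nat_lit 0) .nil) .nil))))) (.nd (nat_lit 8) (.nd (nat_lit 9) 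
(.lf (nat_lit 539889) (.g (nat_lit 1171) (.e (nat_lit 81946) (nat_lit 20) (.e (nat_lit 2391) (nat_lit 156) (.e (nat_lit 819203) (nat_lit 0) (.e (nat_lit 3021) (nat_lit 187) (.e (nat_lit 458496) (nat_lit 8) (.e (nat_lit 564992) (nat_lit 6) .nil)))))) (.g (nat_lit 1) (.e (nat_lit 269476) (nat_lit 0) .nil) .nil))) 
(.lf (nat_lit 540401) (.g (nat_lit 3493) (.e (nat_lit 90166) (nat_lit 13) (.e (nat_lit 172133) (nat_lit 15) (.e (nat_lit 2059) (nat_lit 142) (.e (nat_lit 704589) (nat_lit 3) (.e (nat_lit 163975) (nat_lit 30) .nil))))) (.g (nat_lit 0) (.e (nat_lit 270711) (nat_lit 0) .nil) .nil)))) (.nd (nat_lit 9) 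
(.lf (nat_lit 540145) (.g (nat_lit 2488) (.e (nat_lit 98048) (nat_lit 0) (.e (nat_lit 371) (nat_lit 32) (.e (nat_lit 426438) (nat_lit 18) (.e (nat_lit 98367) (nat_lit 27) (.e (nat_lit 434246) (nat_lit 28) .nil))))) (.g (nat_lit 0) (.e (nat_lit 269960) (nat_lit 0) .nil) .nil))) 
(.lf (nat_lit 540657) (.g (nat_lit 2713) (.e (nat_lit 90170) (nat_lit 13) (.e (nat_lit 172106) (nat_lit 10) (.e (nat_lit 434231) (nat_lit 23) (.e (nat_lit 532568) (nat_lit 16) (.e (nat_lit 401418) (nat_lit 0) .nil))))) (.g (nat_lit 0) (.e (nat_lit 271014) (nat_lit 0) .nil) .nil))))))))) (.nd (nat_lit 4) (.nd (nat_lit 5) (.nd (nat_lit 6) (.nd (nat_lit 7) (.nd (nat_lit 8) (.nd (nat_lit 9) 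
(.lf (nat_lit 539657) (.g (nat_lit 1275) (.e (nat_lit 81939) (nat_lit 20) (.e (nat_lit 2390) (nat_lit 156) (.e (nat_lit 819204) (nat_lit 0) (.e (nat_lit 3015) (nat_lit 187) (.e (nat_lit 458496) (nat_lit 8) .nil))))) (.g (nat_lit 0) (.e (nat_lit 269110) (nat_lit 0) .nil) .nil))) 
(.lf (nat_lit 540169) (.g (nat_lit 1839) (.e (nat_lit 90130) (nat_lit 9) (.e (nat_lit 2830) (nat_lit 182) (.e (nat_lit 409623) (nat_lit 10) (.e (nat_lit 5664) (nat_lit 312) (.e (nat_lit 2679) (nat_lit 168) (.e (nat_lit 204878) (nat_lit 31) (.e (nat_lit 376865) (nat_lit 22) .nil))))))) (.g (nat_lit 1) (.e (nat_lit 270152) (nat_lit 0) .nil) .nil)))) (.nd (nat_lit 9) 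
(.lf (nat_lit 539913) (.g (nat_lit 2017) (.e (nat_lit 81947) (nat_lit 20) (.e (nat_lit 1798) (nat_lit 119) (.e (nat_lit 516138) (nat_lit 7) (.e (nat_lit 409645) (nat_lit 18) (.e (nat_lit 303117) (nat_lit 2) .nil))))) (.g (nat_lit 0) (.e (nat_lit 269504) (nat_lit 0) .nil) .nil))) 
(.lf (nat_lit 540425) (.g (nat_lit 1640) (.e (nat_lit 90167) (nat_lit 13) (.e (nat_lit 172067) (nat_lit 3) (.e (nat_lit 204838) (nat_lit 20) (.e (nat_lit 114717) (nat_lit 23) .nil)))) (.g (nat_lit 0) (.e (nat_lit 270735) (nat_lit 0) .nil) .nil))))) (.nd (nat_lit 8) (.nd (nat_lit 9) 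
(.lf (nat_lit 539785) (.g (nat_lit 911) (.e (nat_lit 81943) (nat_lit 20) (.e (nat_lit 2390) (nat_lit 156) (.e (nat_lit 819204) (nat_lit 0) (.e (nat_lit 2988) (nat_lit 186) (.e (nat_lit 450304) (nat_lit 2) (.e (nat_lit 98048) (nat_lit 6) .nil)))))) (.g (nat_lit 1) (.e (nat_lit 269333) (nat_lit 0) .nil) .nil))) 
(.lf (nat_lit 540297) (.g (nat_lit 3844) (.e (nat_lit 90158) (nat_lit 11) (.e (nat_lit 24628) (nat_lit 9) (.e (nat_lit 336370) (nat_lit 27) (.e (nat_lit 426499) (nat_lit 27) (.e (nat_lit 335986) (nat_lit 1) (.e (nat_lit 57849) (nat_lit 252) (.e (nat_lit 57372) (nat_lit 2) .nil))))))) (.g (nat_lit 1) (.e (nat_lit 270526) (nat_lit 0) .nil) .nil)))) (.nd (nat_lit 9) 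
(.lf (nat_lit 540041) (.g (nat_lit 1558) (.e (nat_lit 81954) (nat_lit 23) (.e (nat_lit 98365) (nat_lit 26) (.e (nat_lit 426107) (nat_lit 1) (.e (nat_lit 164347) (nat_lit 240) .nil)))) (.g (nat_lit 0) (.e (nat_lit 269777) (nat_lit 0) .nil) .nil))) 
(.lf (nat_lit 540553) (.g (nat_lit 1796) (.e (nat_lit 90169) (nat_lit 13) (.e (nat_lit 172122) (nat_lit 13) (.e (nat_lit 483341) (nat_lit 9) (.e (nat_lit 426098) (nat_lit 1) (.e (nat_lit 164399) (nat_lit 256) .nil))))) (.g (nat_lit 0) (.e (nat_lit 270898) (nat_lit 0) .nil) .nil)))))) (.nd (nat_lit 7) (.nd (nat_lit 8) (.nd (nat_lit 9) 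
(.lf (nat_lit 539721) (.g (nat_lit 1148) (.e (nat_lit 81942) (nat_lit 20) (.e (nat_lit 2390) (nat_lit 156) (.e (nat_lit 819204) (nat_lit 0) (.e (nat_lit 3016) (nat_lit 187) (.e (nat_lit 458496) (nat_lit 8) (.e (nat_lit 564992) (nat_lit 6) .nil)))))) (.g (nat_lit 1) (.e (nat_lit 269195) (nat_lit 0) .nil) .nil))) 
(.lf (nat_lit 540233) (.g (nat_lit 4177) (.e (nat_lit 90134) (nat_lit 9) (.e (nat_lit 3016) (nat_lit 187) (.e (nat_lit 450586) (nat_lit 10) (.e (nat_lit 573474) (nat_lit 12) (.e (nat_lit 57572) (nat_lit 54) .nil))))) (.g (nat_lit 0) (.e (nat_lit 270356) (nat_lit 0) .nil) .nil)))) (.nd (nat_lit 9) 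
(.lf (nat_lit 539977) (.g (nat_lit 1735) (.e (nat_lit 81947) (nat_lit 20) (.e (nat_lit 2391) (nat_lit 156) (.e (nat_lit 819204) (nat_lit 0) (.e (nat_lit 3022) (nat_lit 187) (.e (nat_lit 450584) (nat_lit 9) (.e (nat_lit 573184) (nat_lit 6) .nil)))))) (.g (nat_lit 1) (.e (nat_lit 269601) (nat_lit 0) .nil) .nil))) 
(.lf (nat_lit 540489) (.g (nat_lit 2678) (.e (nat_lit 90168) (nat_lit 13) (.e (nat_lit 172067) (nat_lit 3) (.e (nat_lit 204837) (nat_lit 20) (.e (nat_lit 114719) (nat_lit 23) (.e (nat_lit 98335) (nat_lit 18) .nil))))) (.g (nat_lit 0) (.e (nat_lit 270823) (nat_lit 0) .nil) .nil))))) (.nd (nat_lit 8) (.nd (nat_lit 9) 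
(.lf (nat_lit 539849) (.g (nat_lit 913) (.e (nat_lit 81946) (nat_lit 20) (.e (nat_lit 1886) (nat_lit 127) (.e (nat_lit 581652) (nat_lit 5) (.e (nat_lit 180288) (nat_lit 45) (.e (nat_lit 2580) (nat_lit 161) (.e (nat_lit 48896) (nat_lit 6) .nil)))))) (.g (nat_lit 1) (.e (nat_lit 269415) (nat_lit 0) .nil) .nil))) 
(.lf (nat_lit 540361) (.g (nat_lit 2291) (.e (nat_lit 90160) (nat_lit 11) (.e (nat_lit 24630) (nat_lit 9) (.e (nat_lit 336456) (nat_lit 34) (.e (nat_lit 483363) (nat_lit 18) (.e (nat_lit 57845) (nat_lit 252) .nil))))) (.g (nat_lit 0) (.e (nat_lit 270619) (nat_lit 0) .nil) .nil)))) (.nd (nat_lit 9) 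
(.lf (nat_lit 540105) (.g (nat_lit 296) (.e (nat_lit 81956) (nat_lit 23) (.e (nat_lit 98353) (nat_lit 25) (.e (nat_lit 417817) (nat_lit 10) .nil))) (.g (nat_lit 0) (.e (nat_lit 269884) (nat_lit 0) .nil) .nil))) 
(.lf (nat_lit 540617) (.g (nat_lit 1908) (.e (nat_lit 90170) (nat_lit 13) (.e (nat_lit 172106) (nat_lit 10) (.e (nat_lit 434231) (nat_lit 23) (.e (nat_lit 540416) (nat_lit 7) .nil)))) (.g (nat_lit 0) (.e (nat_lit 270974) (nat_lit 0) .nil) .nil))))))) (.nd (nat_lit 6) (.nd (nat_lit 7) (.nd (nat_lit 8) (.nd (nat_lit 9) 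
(.lf (nat_lit 539689) (.g (nat_lit 1527) (.e (nat_lit 81939) (nat_lit 20) (.e (nat_lit 2391) (nat_lit 156) (.e (nat_lit 819204) (nat_lit 0) (.e (nat_lit 3022) (nat_lit 187) (.e (nat_lit 458496) (nat_lit 8) (.e (nat_lit 564992) (nat_lit 6) .nil)))))) (.g (nat_lit 1) (.e (nat_lit 269152) (nat_lit 0) .nil) .nil))) 
(.lf (nat_lit 540201) (.g (nat_lit 236) (.e (nat_lit 90130) (nat_lit 9) (.e (nat_lit 2830) (nat_lit 182) (.e (nat_lit 409649) (nat_lit 18) .nil))) (.g (nat_lit 0) (.e (nat_lit 270210) (nat_lit 0) .nil) .nil)))) (.nd (nat_lit 9) 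
(.lf (nat_lit 539945) (.g (nat_lit 1183) (.e (nat_lit 81947) (nat_lit 20) (.e (nat_lit 2390) (nat_lit 156) (.e (nat_lit 819204) (nat_lit 0) (.e (nat_lit 2999) (nat_lit 186) (.e (nat_lit 450304) (nat_lit 2) (.e (nat_lit 98048) (nat_lit 6) .nil)))))) (.g (nat_lit 1) (.e (nat_lit 269553) (nat_lit 0) .nil) .nil))) 
(.lf (nat_lit 540457) (.g (nat_lit 306) (.e (nat_lit 90167) (nat_lit 13) (.e (nat_lit 172126) (nat_lit 14) (.e (nat_lit 491537) (nat_lit 2) .nil))) (.g (nat_lit 0) (.e (nat_lit 270774) (nat_lit 0) .nil) .nil))))) (.nd (nat_lit 8) (.nd (nat_lit 9) 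
(.lf (nat_lit 539817) (.g (nat_lit 1901) (.e (nat_lit 81943) (nat_lit 20) (.e (nat_lit 2391) (nat_lit 156) (.e (nat_lit 819204) (nat_lit 0) (.e (nat_lit 3015) (nat_lit 187) (.e (nat_lit 458496) (nat_lit 8) (.e (nat_lit 564992) (nat_lit 6) .nil)))))) (.g (nat_lit 1) (.e (nat_lit 269374) (nat_lit 0) .nil) .nil))) 
(.lf (nat_lit 540329) (.g (nat_lit 3174) (.e (nat_lit 90158) (nat_lit 11) (.e (nat_lit 24630) (nat_lit 9) (.e (nat_lit 336456) (nat_lit 34) (.e (nat_lit 483365) (nat_lit 18) (.e (nat_lit 57853) (nat_lit 252) (.e (nat_lit 57370) (nat_lit 2) .nil)))))) (.g (nat_lit 1) (.e (nat_lit 270558) (nat_lit 0) .nil) .nil)))) (.nd (nat_lit 9) 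
(.lf (nat_lit 540073) (.g (nat_lit 2396) (.e (nat_lit 81955) (nat_lit 23) (.e (nat_lit 98350) (nat_lit 24) (.e (nat_lit 409649) (nat_lit 18) (.e (nat_lit 303106) (nat_lit 0) (.e (nat_lit 3114) (nat_lit 193) (.e (nat_lit 500075) (nat_lit 20) .nil)))))) (.g (nat_lit 1) (.e (nat_lit 269838) (nat_lit 0) .nil) .nil))) 
(.lf (nat_lit 540585) (.g (nat_lit 3370) (.e (nat_lit 90170) (nat_lit 13) (.e (nat_lit 172106) (nat_lit 10) (.e (nat_lit 434231) (nat_lit 23) (.e (nat_lit 532481) (nat_lit 0) (.e (nat_lit 6157) (nat_lit 332) .nil))))) (.g (nat_lit 0) (.e (nat_lit 270942) (nat_lit 0) .nil) .nil)))))) (.nd (nat_lit 7) (.nd (nat_lit 8) (.nd (nat_lit 9) 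
(.lf (nat_lit 539753) (.g (nat_lit 2857) (.e (nat_lit 81943) (nat_lit 20) (.e (nat_lit 1788) (nat_lit 119) (.e (nat_lit 516179) (nat_lit 15) (.e (nat_lit 475199) (nat_lit 40) (.e (nat_lit 704589) (nat_lit 3) .nil))))) (.g (nat_lit 0) (.e (nat_lit 269231) (nat_lit 0) .nil) .nil))) 
(.lf (nat_lit 540265) (.g (nat_lit 733) (.e (nat_lit 90156) (nat_lit 11) (.e (nat_lit 24628) (nat_lit 9) (.e (nat_lit 336456) (nat_lit 34) .nil))) (.g (nat_lit 0) (.e (nat_lit 270464) (nat_lit 0) .nil) .nil)))) (.nd (nat_lit 9) 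
(.lf (nat_lit 540009) (.g (nat_lit 473) (.e (nat_lit 81951) (nat_lit 22) (.e (nat_lit 90170) (nat_lit 13) (.e (nat_lit 172049) (nat_lit 0) .nil))) (.g (nat_lit 0) (.e (nat_lit 269699) (nat_lit 0) .nil) .nil))) 
(.lf (nat_lit 540521) (.g (nat_lit 1679) (.e (nat_lit 90168) (nat_lit 13) (.e (nat_lit 172123) (nat_lit 13) (.e (nat_lit 483337) (nat_lit 9) (.e (nat_lit 426107) (nat_lit 1) (.e (nat_lit 164401) (nat_lit 256) .nil))))) (.g (nat_lit 0) (.e (nat_lit 270858) (nat_lit 0) .nil) .nil))))) (.nd (nat_lit 8) (.nd (nat_lit 9) 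
(.lf (nat_lit 539881) (.g (nat_lit 785) (.e (nat_lit 81946) (nat_lit 20) (.e (nat_lit 2390) (nat_lit 156) (.e (nat_lit 819221) (nat_lit 6) (.e (nat_lit 188430) (nat_lit 20) (.e (nat_lit 3282) (nat_lit 200) (.e (nat_lit 564992) (nat_lit 6) .nil)))))) (.g (nat_lit 1) (.e (nat_lit 269464) (nat_lit 0) .nil) .nil))) 
(.lf (nat_lit 540393) (.g (nat_lit 3314) (.e (nat_lit 90166) (nat_lit 13) (.e (nat_lit 172115) (nat_lit 10) (.e (nat_lit 434231) (nat_lit 23) (.e (nat_lit 532523) (nat_lit 7) (.e (nat_lit 319533) (nat_lit 16) .nil))))) (.g (nat_lit 0) (.e (nat_lit 270702) (nat_lit 0) .nil) .nil)))) (.nd (nat_lit 9) 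
(.lf (nat_lit 540137) (.g (nat_lit 1615) (.e (nat_lit 81959) (nat_lit 24) (.e (nat_lit 123197) (nat_lit 266) (.e (nat_lit 57436) (nat_lit 17) (.e (nat_lit 376835) (nat_lit 0) (.e (nat_lit 3631) (nat_lit 227) (.e (nat_lit 778326) (nat_lit 6) .nil)))))) (.g (nat_lit 1) (.e (nat_lit 269936) (nat_lit 0) .nil) .nil))) 
(.lf (nat_lit 540649) (.g (nat_lit 3560) (.e (nat_lit 90170) (nat_lit 13) (.e (nat_lit 172106) (nat_lit 10) (.e (nat_lit 434231) (nat_lit 23) (.e (nat_lit 532535) (nat_lit 9) (.e (nat_lit 335989) (nat_lit 1) (.e (nat_lit 57931) (nat_lit 282) (.e (nat_lit 171776) (nat_lit 63) .nil))))))) (.g (nat_lit 1) (.e (nat_lit 271006) (nat_lit 0) .nil) .nil)))))))) 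
(.nd (nat_lit 5) (.nd (nat_lit 6) (.nd (nat_lit 7) (.nd (nat_lit 8) (.nd (nat_lit 9) 
(.lf (nat_lit 539673) (.g (nat_lit 887) (.e (nat_lit 81939) (nat_lit 20) (.e (nat_lit 2391) (nat_lit 156) (.e (nat_lit 819203) (nat_lit 0) (.e (nat_lit 2989) (nat_lit 186) (.e (nat_lit 450304) (nat_lit 2) (.e (nat_lit 98048) (nat_lit 6) .nil)))))) (.g (nat_lit 1) (.e (nat_lit 269129) (nat_lit 0) .nil) .nil))) 
(.lf (nat_lit 540185) (.g (nat_lit 950) (.e (nat_lit 90130) (nat_lit 9) (.e (nat_lit 2830) (nat_lit 182) (.e (nat_lit 409647) (nat_lit 18) (.e (nat_lit 303118) (nat_lit 3) .nil)))) (.g (nat_lit 0) (.e (nat_lit 270173) (nat_lit 0) .nil) .nil)))) (.nd (nat_lit 9) 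
(.lf (nat_lit 539929) (.g (nat_lit 899) (.e (nat_lit 81947) (nat_lit 20) (.e (nat_lit 1886) (nat_lit 127) (.e (nat_lit 581652) (nat_lit 5) (.e (nat_lit 180288) (nat_lit 45) (.e (nat_lit 2580) (nat_lit 161) (.e (nat_lit 48896) (nat_lit 6) .nil)))))) (.g (nat_lit 1) (.e (nat_lit 269529) (nat_lit 0) .nil) .nil))) 
(.lf (nat_lit 540441) (.g (nat_lit 2495) (.e (nat_lit 90167) (nat_lit 13) (.e (nat_lit 172113) (nat_lit 10) (.e (nat_lit 434248) (nat_lit 28) (.e (nat_lit 573475) (nat_lit 12) (.e (nat_lit 57574) (nat_lit 55) (.e (nat_lit 778466) (nat_lit 11) (.e (nat_lit 24603) (nat_lit 2) .nil))))))) (.g (nat_lit 1) (.e (nat_lit 270758) (nat_lit 0) .nil) .nil))))) (.nd (nat_lit 8) (.nd (nat_lit 9) 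
(.lf (nat_lit 539801) (.g (nat_lit 932) (.e (nat_lit 81943) (nat_lit 20) (.e (nat_lit 2390) (nat_lit 156) (.e (nat_lit 819221) (nat_lit 6) (.e (nat_lit 188431) (nat_lit 20) (.e (nat_lit 3281) (nat_lit 200) (.e (nat_lit 564992) (nat_lit 6) .nil)))))) (.g (nat_lit 1) (.e (nat_lit 269352) (nat_lit 0) .nil) .nil))) 
(.lf (nat_lit 540313) (.g (nat_lit 2669) (.e (nat_lit 90158) (nat_lit 11) (.e (nat_lit 24628) (nat_lit 9) (.e (nat_lit 336456) (nat_lit 34) (.e (nat_lit 483365) (nat_lit 18) (.e (nat_lit 57852) (nat_lit 252) (.e (nat_lit 57370) (nat_lit 2) .nil)))))) (.g (nat_lit 1) (.e (nat_lit 270542) (nat_lit 0) .nil) .nil)))) (.nd (nat_lit 9) 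
(.lf (nat_lit 540057) (.g (nat_lit 5204) (.e (nat_lit 81954) (nat_lit 23) (.e (nat_lit 98386) (nat_lit 32) (.e (nat_lit 475199) (nat_lit 40) (.e (nat_lit 704589) (nat_lit 3) (.e (nat_lit 163979) (nat_lit 30) (.e (nat_lit 573493) (nat_lit 15) .nil)))))) (.g (nat_lit 1) (.e (nat_lit 269820) (nat_lit 0) .nil) .nil))) 
(.lf (nat_lit 540569) (.g (nat_lit 2099) (.e (nat_lit 90170) (nat_lit 13) (.e (nat_lit 172065) (nat_lit 3) (.e (nat_lit 204838) (nat_lit 20) (.e (nat_lit 114718) (nat_lit 23) (.e (nat_lit 98332) (nat_lit 18) .nil))))) (.g (nat_lit 0) (.e (nat_lit 270922) (nat_lit 0) .nil) .nil)))))) (.nd (nat_lit 7) (.nd (nat_lit 8) (.nd (nat_lit 9) 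
(.lf (nat_lit 539737) (.g (nat_lit 785) (.e (nat_lit 81942) (nat_lit 20) (.e (nat_lit 2391) (nat_lit 156) (.e (nat_lit 819203) (nat_lit 0) (.e (nat_lit 3028) (nat_lit 187) (.e (nat_lit 458496) (nat_lit 8) (.e (nat_lit 564992) (nat_lit 6) .nil)))))) (.g (nat_lit 1) (.e (nat_lit 269214) (nat_lit 0) .nil) .nil))) 
(.lf (nat_lit 540249) (.g (nat_lit 1259) (.e (nat_lit 90134) (nat_lit 9) (.e (nat_lit 3098) (nat_lit 192) (.e (nat_lit 491571) (nat_lit 13) (.e (nat_lit 393231) (nat_lit 17) .nil)))) (.g (nat_lit 0) (.e (nat_lit 270386) (nat_lit 0) .nil) .nil)))) (.nd (nat_lit 9) 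
(.lf (nat_lit 539993) (.g (nat_lit 1890) (.e (nat_lit 81944) (nat_lit 20) (.e (nat_lit 1781) (nat_lit 119) (.e (nat_lit 516139) (nat_lit 7) (.e (nat_lit 409646) (nat_lit 18) (.e (nat_lit 303117) (nat_lit 2) .nil))))) (.g (nat_lit 0) (.e (nat_lit 269620) (nat_lit 0) .nil) .nil))) 
(.lf (nat_lit 540505) (.g (nat_lit 3211) (.e (nat_lit 90168) (nat_lit 13) (.e (nat_lit 172115) (nat_lit 10) (.e (nat_lit 434231) (nat_lit 23) (.e (nat_lit 532523) (nat_lit 7) (.e (nat_lit 319529) (nat_lit 16) .nil))))) (.g (nat_lit 0) (.e (nat_lit 270842) (nat_lit 0) .nil) .nil))))) (.nd (nat_lit 8) (.nd (nat_lit 9) 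
(.lf (nat_lit 539865) (.g (nat_lit 858) (.e (nat_lit 81946) (nat_lit 20) (.e (nat_lit 2390) (nat_lit 156) (.e (nat_lit 819203) (nat_lit 0) (.e (nat_lit 3028) (nat_lit 187) (.e (nat_lit 458496) (nat_lit 8) (.e (nat_lit 564992) (nat_lit 6) .nil)))))) (.g (nat_lit 1) (.e (nat_lit 269444) (nat_lit 0) .nil) .nil))) 
(.lf (nat_lit 540377) (.g (nat_lit 4437) (.e (nat_lit 90165) (nat_lit 12) (.e (nat_lit 164217) (nat_lit 178) (.e (nat_lit 123162) (nat_lit 256) (.e (nat_lit 2685) (nat_lit 168) (.e (nat_lit 204846) (nat_lit 24) (.e (nat_lit 319533) (nat_lit 16) (.e (nat_lit 286732) (nat_lit 2) .nil))))))) (.g (nat_lit 1) (.e (nat_lit 270676) (nat_lit 0) .nil) .nil)))) (.nd (nat_lit 9) 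
(.lf (nat_lit 540121) (.g (nat_lit 817) (.e (nat_lit 89856) (nat_lit 23) (.e (nat_lit 98359) (nat_lit 26) (.e (nat_lit 426043) (nat_lit 0) (.e (nat_lit 3407) (nat_lit 212) .nil)))) (.g (nat_lit 0) (.e (nat_lit 269916) (nat_lit 0) .nil) .nil))) 
(.lf (nat_lit 540633) (.g (nat_lit 3167) (.e (nat_lit 90170) (nat_lit 13) (.e (nat_lit 172106) (nat_lit 10) (.e (nat_lit 434231) (nat_lit 23) (.e (nat_lit 532535) (nat_lit 9) (.e (nat_lit 335920) (nat_lit 0) .nil))))) (.g (nat_lit 0) (.e (nat_lit 270990) (nat_lit 0) .nil) .nil))))))) (.nd (nat_lit 6) (.nd (nat_lit 7) (.nd (nat_lit 8) (.nd (nat_lit 9) 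
(.lf (nat_lit 539705) (.g (nat_lit 2190) (.e (nat_lit 81941) (nat_lit 20) (.e (nat_lit 1788) (nat_lit 119) (.e (nat_lit 516139) (nat_lit 7) (.e (nat_lit 409623) (nat_lit 10) (.e (nat_lit 5664) (nat_lit 312) (.e (nat_lit 2661) (nat_lit 167) (.e (nat_lit 196673) (nat_lit 15) .nil))))))) (.g (nat_lit 1) (.e (nat_lit 269169) (nat_lit 0) .nil) .nil))) 
(.lf (nat_lit 540217) (.g (nat_lit 1576) (.e (nat_lit 90130) (nat_lit 9) (.e (nat_lit 3098) (nat_lit 192) (.e (nat_lit 491569) (nat_lit 13) (.e (nat_lit 393234) (nat_lit 17) .nil)))) (.g (nat_lit 0) (.e (nat_lit 270268) (nat_lit 0) .nil) .nil)))) (.nd (nat_lit 9) 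
(.lf (nat_lit 539961) (.g (nat_lit 1256) (.e (nat_lit 81947) (nat_lit 20) (.e (nat_lit 2391) (nat_lit 156) (.e (nat_lit 819203) (nat_lit 0) (.e (nat_lit 3004) (nat_lit 186) (.e (nat_lit 450304) (nat_lit 2) (.e (nat_lit 98048) (nat_lit 6) .nil)))))) (.g (nat_lit 1) (.e (nat_lit 269574) (nat_lit 0) .nil) .nil))) 
(.lf (nat_lit 540473) (.g (nat_lit 1286) (.e (nat_lit 90167) (nat_lit 13) (.e (nat_lit 172126) (nat_lit 14) (.e (nat_lit 491540) (nat_lit 3) (.e (nat_lit 98363) (nat_lit 26) .nil)))) (.g (nat_lit 0) (.e (nat_lit 270799) (nat_lit 0) .nil) .nil))))) (.nd (nat_lit 8) (.nd (nat_lit 9) 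
(.lf (nat_lit 539833) (.g (nat_lit 2136) (.e (nat_lit 81946) (nat_lit 20) (.e (nat_lit 1788) (nat_lit 119) (.e (nat_lit 516179) (nat_lit 15) (.e (nat_lit 475199) (nat_lit 40) .nil)))) (.g (nat_lit 0) (.e (nat_lit 269392) (nat_lit 0) .nil) .nil))) 
(.lf (nat_lit 540345) (.g (nat_lit 2747) (.e (nat_lit 90159) (nat_lit 11) (.e (nat_lit 24657) (nat_lit 13) (.e (nat_lit 393229) (nat_lit 9) (.e (nat_lit 335993) (nat_lit 1) (.e (nat_lit 57848) (nat_lit 252) (.e (nat_lit 57375) (nat_lit 2) .nil)))))) (.g (nat_lit 1) (.e (nat_lit 270583) (nat_lit 0) .nil) .nil)))) (.nd (nat_lit 9) 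
(.lf (nat_lit 540089) (.g (nat_lit 3932) (.e (nat_lit 81956) (nat_lit 23) (.e (nat_lit 98349) (nat_lit 24) (.e (nat_lit 409646) (nat_lit 18) (.e (nat_lit 303117) (nat_lit 2) (.e (nat_lit 196672) (nat_lit 15) .nil))))) (.g (nat_lit 1) (.e (nat_lit 269864) (nat_lit 0) .nil) .nil))) 
(.lf (nat_lit 540601) (.g (nat_lit 3624) (.e (nat_lit 90170) (nat_lit 13) (.e (nat_lit 172106) (nat_lit 10) (.e (nat_lit 434231) (nat_lit 23) (.e (nat_lit 532500) (nat_lit 1) (.e (nat_lit 65280) (nat_lit 233) (.e (nat_lit 2556) (nat_lit 159) (.e (nat_lit 24605) (nat_lit 2) .nil))))))) (.g (nat_lit 1) (.e (nat_lit 270958) (nat_lit 0) .nil) .nil)))))) 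
(.nd (nat_lit 7) (.nd (nat_lit 8) (.nd (nat_lit 9) 
(.lf (nat_lit 539769) (.g (nat_lit 776) (.e (nat_lit 81943) (nat_lit 20) (.e (nat_lit 1886) (nat_lit 127) (.e (nat_lit 581652) (nat_lit 5) (.e (nat_lit 180285) (nat_lit 45) (.e (nat_lit 2580) (nat_lit 161) (.e (nat_lit 48896) (nat_lit 6) .nil)))))) (.g (nat_lit 1) (.e (nat_lit 269309) (nat_lit 0) .nil) .nil))) 
(.lf (nat_lit 540281) (.g (nat_lit 2996) (.e (nat_lit 90158) (nat_lit 11) (.e (nat_lit 24599) (nat_lit 1) (.e (nat_lit 57929) (nat_lit 282) (.e (nat_lit 163905) (nat_lit 12) (.e (nat_lit 426555) (nat_lit 32) (.e (nat_lit 376862) (nat_lit 22) .nil)))))) (.g (nat_lit 1) (.e (nat_lit 270486) (nat_lit 0) .nil) .nil)))) (.nd (nat_lit 9) 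
(.lf (nat_lit 540025) (.g (nat_lit 3075) (.e (nat_lit 81953) (nat_lit 22) (.e (nat_lit 90170) (nat_lit 13) (.e (nat_lit 172138) (nat_lit 15) (.e (nat_lit 2174) (nat_lit 143) (.e (nat_lit 712722) (nat_lit 15) (.e (nat_lit 3302) (nat_lit 202) (.e (nat_lit 573492) (nat_lit 15) .nil))))))) (.g (nat_lit 1) (.e (nat_lit 269736) (nat_lit 0) .nil) .nil))) 
(.lf (nat_lit 540537) (.g (nat_lit 2005) (.e (nat_lit 90169) (nat_lit 13) (.e (nat_lit 172111) (nat_lit 10) (.e (nat_lit 434248) (nat_lit 28) (.e (nat_lit 573475) (nat_lit 12) (.e (nat_lit 57574) (nat_lit 55) (.e (nat_lit 778466) (nat_lit 11) (.e (nat_lit 24603) (nat_lit 2) .nil))))))) (.g (nat_lit 1) (.e (nat_lit 270882) (nat_lit 0) .nil) .nil))))) (.nd (nat_lit 8) (.nd (nat_lit 9) 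
(.lf (nat_lit 539897) (.g (nat_lit 1736) (.e (nat_lit 81946) (nat_lit 20) (.e (nat_lit 2391) (nat_lit 156) (.e (nat_lit 819204) (nat_lit 0) (.e (nat_lit 3004) (nat_lit 186) (.e (nat_lit 450304) (nat_lit 2) (.e (nat_lit 98048) (nat_lit 6) .nil)))))) (.g (nat_lit 1) (.e (nat_lit 269485) (nat_lit 0) .nil) .nil))) 
(.lf (nat_lit 540409) (.g (nat_lit 1496) (.e (nat_lit 90167) (nat_lit 13) (.e (nat_lit 172065) (nat_lit 3) (.e (nat_lit 204838) (nat_lit 20) (.e (nat_lit 114717) (nat_lit 23) .nil)))) (.g (nat_lit 0) (.e (nat_lit 270719) (nat_lit 0) .nil) .nil)))) (.nd (nat_lit 9) 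
(.lf (nat_lit 540153) (.g (nat_lit 4717) (.e (nat_lit 90121) (nat_lit 9) (.e (nat_lit 3016) (nat_lit 187) (.e (nat_lit 450588) (nat_lit 10) (.e (nat_lit 573474) (nat_lit 12) (.e (nat_lit 57572) (nat_lit 54) .nil))))) (.g (nat_lit 0) (.e (nat_lit 270020) (nat_lit 0) .nil) .nil))) 
(.lf (nat_lit 540665) (.g (nat_lit 4211) (.e (nat_lit 90170) (nat_lit 13) (.e (nat_lit 172106) (nat_lit 10) (.e (nat_lit 434244) (nat_lit 28) (.e (nat_lit 573451) (nat_lit 9) (.e (nat_lit 396) (nat_lit 32) (.e (nat_lit 426011) (nat_lit 0) (.e (nat_lit 7490) (nat_lit 402) (.e (nat_lit 1239) (nat_lit 91) .nil)))))))) (.g (nat_lit 1) (.e (nat_lit 271022) (nat_lit 0) .nil) .nil)))))))))) 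
(.nd (nat_lit 3) (.nd (nat_lit 4) (.nd (nat_lit 5) (.nd (nat_lit 6) (.nd (nat_lit 7) 
(.nd (nat_lit 8) (.nd (nat_lit 9) 
(.lf (nat_lit 539653) (.g (nat_lit 764) (.e (nat_lit 81939) (nat_lit 20) (.e (nat_lit 2390) (nat_lit 156) (.e (nat_lit 819204) (nat_lit 0) (.e (nat_lit 2988) (nat_lit 186) (.e (nat_lit 450304) (nat_lit 2) (.e (nat_lit 98048) (nat_lit 6) .nil)))))) (.g (nat_lit 1) (.e (nat_lit 269105) (nat_lit 0) .nil) .nil))) 
(.lf (nat_lit 540165) (.g (nat_lit 4337) (.e (nat_lit 90130) (nat_lit 9) (.e (nat_lit 2612) (nat_lit 163) (.e (nat_lit 164396) (nat_lit 256) (.e (nat_lit 57371) (nat_lit 2) (.e (nat_lit 90174) (nat_lit 14) (.e (nat_lit 180243) (nat_lit 5) (.e (nat_lit 532515) (nat_lit 3) (.e (nat_lit 114716) (nat_lit 22) .nil)))))))) (.g (nat_lit 1) (.e (nat_lit 270145) (nat_lit 0) .nil) .nil)))) (.nd (nat_lit 9) 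
(.lf (nat_lit 539909) (.g (nat_lit 1169) (.e (nat_lit 81946) (nat_lit 20) (.e (nat_lit 2391) (nat_lit 156) (.e (nat_lit 819221) (nat_lit 6) (.e (nat_lit 188430) (nat_lit 20) (.e (nat_lit 3282) (nat_lit 200) (.e (nat_lit 564992) (nat_lit 6) .nil)))))) (.g (nat_lit 1) (.e (nat_lit 269500) (nat_lit 0) .nil) .nil))) 
(.lf (nat_lit 540421) (.g (nat_lit 2206) (.e (nat_lit 90167) (nat_lit 13) (.e (nat_lit 172067) (nat_lit 3) (.e (nat_lit 204837) (nat_lit 20) (.e (nat_lit 114718) (nat_lit 23) (.e (nat_lit 98334) (nat_lit 18) .nil))))) (.g (nat_lit 0) (.e (nat_lit 270731) (nat_lit 0) .nil) .nil))))) (.nd (nat_lit 8) (.nd (nat_lit 9) 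
(.lf (nat_lit 539781) (.g (nat_lit 621) (.e (nat_lit 81943) (nat_lit 20) (.e (nat_lit 2390) (nat_lit 156) (.e (nat_lit 819203) (nat_lit 0) (.e (nat_lit 3021) (nat_lit 187) (.e (nat_lit 458496) (nat_lit 8) (.e (nat_lit 564992) (nat_lit 6) .nil)))))) (.g (nat_lit 1) (.e (nat_lit 269329) (nat_lit 0) .nil) .nil))) 
(.lf (nat_lit 540293) (.g (nat_lit 1215) (.e (nat_lit 90158) (nat_lit 11) (.e (nat_lit 24608) (nat_lit 3) (.e (nat_lit 98348) (nat_lit 23) .nil))) (.g (nat_lit 0) (.e (nat_lit 270521) (nat_lit 0) .nil) .nil)))) (.nd (nat_lit 9) 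
(.lf (nat_lit 540037) (.g (nat_lit 1106) (.e (nat_lit 81954) (nat_lit 23) (.e (nat_lit 98358) (nat_lit 26) (.e (nat_lit 426364) (nat_lit 15) .nil))) (.g (nat_lit 0) (.e (nat_lit 269765) (nat_lit 0) .nil) .nil))) 
(.lf (nat_lit 540549) (.g (nat_lit 1447) (.e (nat_lit 90169) (nat_lit 13) (.e (nat_lit 172122) (nat_lit 13) (.e (nat_lit 483337) (nat_lit 9) (.e (nat_lit 426099) (nat_lit 1) .nil)))) (.g (nat_lit 0) (.e (nat_lit 270894) (nat_lit 0) .nil) .nil)))))) (.nd (nat_lit 7) (.nd (nat_lit 8) (.nd (nat_lit 9) 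
(.lf (nat_lit 539717) (.g (nat_lit 621) (.e (nat_lit 81942) (nat_lit 20) (.e (nat_lit 2390) (nat_lit 156) (.e (nat_lit 819203) (nat_lit 0) (.e (nat_lit 3027) (nat_lit 187) (.e (nat_lit 458496) (nat_lit 8) (.e (nat_lit 564992) (nat_lit 6) .nil)))))) (.g (nat_lit 1) (.e (nat_lit 269191) (nat_lit 0) .nil) .nil))) 
(.lf (nat_lit 540229) (.g (nat_lit 1430) (.e (nat_lit 90134) (nat_lit 9) (.e (nat_lit 2828) (nat_lit 182) (.e (nat_lit 409646) (nat_lit 18) (.e (nat_lit 303116) (nat_lit 2) .nil)))) (.g (nat_lit 0) (.e (nat_lit 270323) (nat_lit 0) .nil) .nil)))) (.nd (nat_lit 9) 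
(.lf (nat_lit 539973) (.g (nat_lit 1954) (.e (nat_lit 81947) (nat_lit 20) (.e (nat_lit 2391) (nat_lit 156) (.e (nat_lit 819204) (nat_lit 0) (.e (nat_lit 3015) (nat_lit 187) (.e (nat_lit 458496) (nat_lit 8) (.e (nat_lit 564992) (nat_lit 6) .nil)))))) (.g (nat_lit 1) (.e (nat_lit 269595) (nat_lit 0) .nil) .nil))) 
(.lf (nat_lit 540485) (.g (nat_lit 2340) (.e (nat_lit 90168) (nat_lit 13) (.e (nat_lit 172067) (nat_lit 3) (.e (nat_lit 204837) (nat_lit 20) (.e (nat_lit 114718) (nat_lit 23) (.e (nat_lit 98333) (nat_lit 18) .nil))))) (.g (nat_lit 0) (.e (nat_lit 270819) (nat_lit 0) .nil) .nil))))) (.nd (nat_lit 8) (.nd (nat_lit 9) 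
(.lf (nat_lit 539845) (.g (nat_lit 989) (.e (nat_lit 81946) (nat_lit 20) (.e (nat_lit 1886) (nat_lit 127) (.e (nat_lit 581652) (nat_lit 5) (.e (nat_lit 180285) (nat_lit 45) (.e (nat_lit 2580) (nat_lit 161) (.e (nat_lit 48896) (nat_lit 6) .nil)))))) (.g (nat_lit 1) (.e (nat_lit 269411) (nat_lit 0) .nil) .nil))) 
(.lf (nat_lit 540357) (.g (nat_lit 2799) (.e (nat_lit 90160) (nat_lit 11) (.e (nat_lit 24630) (nat_lit 9) (.e (nat_lit 336454) (nat_lit 34) (.e (nat_lit 483365) (nat_lit 18) (.e (nat_lit 57844) (nat_lit 252) .nil))))) (.g (nat_lit 0) (.e (nat_lit 270615) (nat_lit 0) .nil) .nil)))) (.nd (nat_lit 9) 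
(.lf (nat_lit 540101) (.g (nat_lit 3660) (.e (nat_lit 81956) (nat_lit 23) (.e (nat_lit 98350) (nat_lit 24) (.e (nat_lit 409648) (nat_lit 18) (.e (nat_lit 303117) (nat_lit 2) (.e (nat_lit 196672) (nat_lit 15) .nil))))) (.g (nat_lit 1) (.e (nat_lit 269879) (nat_lit 0) .nil) .nil))) 
(.lf (nat_lit 540613) (.g (nat_lit 3625) (.e (nat_lit 90170) (nat_lit 13) (.e (nat_lit 172106) (nat_lit 10) (.e (nat_lit 434231) (nat_lit 23) (.e (nat_lit 532523) (nat_lit 7) (.e (nat_lit 319531) (nat_lit 16) (.e (nat_lit 294656) (nat_lit 2) .nil)))))) (.g (nat_lit 1) (.e (nat_lit 270970) (nat_lit 0) .nil) .nil))))))) (.nd (nat_lit 6) (.nd (nat_lit 7) (.nd (nat_lit 8) (.nd (nat_lit 9) 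
(.lf (nat_lit 539685) (.g (nat_lit 1302) (.e (nat_lit 81939) (nat_lit 20) (.e (nat_lit 2391) (nat_lit 156) (.e (nat_lit 819204) (nat_lit 0) (.e (nat_lit 3004) (nat_lit 186) (.e (nat_lit 450304) (nat_lit 2) (.e (nat_lit 98048) (nat_lit 6) .nil)))))) (.g (nat_lit 1) (.e (nat_lit 269145) (nat_lit 0) .nil) .nil))) 
(.lf (nat_lit 540197) (.g (nat_lit 1411) (.e (nat_lit 90130) (nat_lit 9) (.e (nat_lit 2830) (nat_lit 182) (.e (nat_lit 409648) (nat_lit 18) (.e (nat_lit 303118) (nat_lit 3) .nil)))) (.g (nat_lit 0) (.e (nat_lit 270194) (nat_lit 0) .nil) .nil)))) (.nd (nat_lit 9) 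
(.lf (nat_lit 539941) (.g (nat_lit 852) (.e (nat_lit 81947) (nat_lit 20) (.e (nat_lit 2390) (nat_lit 156) (.e (nat_lit 819203) (nat_lit 0) (.e (nat_lit 3028) (nat_lit 187) (.e (nat_lit 458496) (nat_lit 8) (.e (nat_lit 564992) (nat_lit 6) .nil)))))) (.g (nat_lit 1) (.e (nat_lit 269549) (nat_lit 0) .nil) .nil))) 
(.lf (nat_lit 540453) (.g (nat_lit 342) (.e (nat_lit 90167) (nat_lit 13) (.e (nat_lit 172123) (nat_lit 13) (.e (nat_lit 483337) (nat_lit 9) .nil))) (.g (nat_lit 0) (.e (nat_lit 270770) (nat_lit 0) .nil) .nil))))) (.nd (nat_lit 8) (.nd (nat_lit 9) 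
(.lf (nat_lit 539813) (.g (nat_lit 1564) (.e (nat_lit 81943) (nat_lit 20) (.e (nat_lit 2391) (nat_lit 156) (.e (nat_lit 819204) (nat_lit 0) (.e (nat_lit 2989) (nat_lit 186) (.e (nat_lit 450304) (nat_lit 2) (.e (nat_lit 98048) (nat_lit 6) .nil)))))) (.g (nat_lit 1) (.e (nat_lit 269368) (nat_lit 0) .nil) .nil))) 
(.lf (nat_lit 540325) (.g (nat_lit 3045) (.e (nat_lit 90158) (nat_lit 11) (.e (nat_lit 24630) (nat_lit 9) (.e (nat_lit 336456) (nat_lit 34) (.e (nat_lit 483364) (nat_lit 18) (.e (nat_lit 57854) (nat_lit 252) (.e (nat_lit 57370) (nat_lit 2) .nil)))))) (.g (nat_lit 1) (.e (nat_lit 270554) (nat_lit 0) .nil) .nil)))) (.nd (nat_lit 9) 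
(.lf (nat_lit 540069) (.g (nat_lit 2510) (.e (nat_lit 81955) (nat_lit 23) (.e (nat_lit 98350) (nat_lit 24) (.e (nat_lit 409648) (nat_lit 18) (.e (nat_lit 303106) (nat_lit 0) (.e (nat_lit 3114) (nat_lit 193) (.e (nat_lit 500075) (nat_lit 20) .nil)))))) (.g (nat_lit 1) (.e (nat_lit 269834) (nat_lit 0) .nil) .nil))) 
(.lf (nat_lit 540581) (.g (nat_lit 765) (.e (nat_lit 90170) (nat_lit 13) (.e (nat_lit 172067) (nat_lit 3) (.e (nat_lit 204836) (nat_lit 20) .nil))) (.g (nat_lit 0) (.e (nat_lit 270938) (nat_lit 0) .nil) .nil)))))) (.nd (nat_lit 7) (.nd (nat_lit 8) (.nd (nat_lit 9) 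
(.lf (nat_lit 539749) (.g (nat_lit 746) (.e (nat_lit 81942) (nat_lit 20) (.e (nat_lit 2391) (nat_lit 156) (.e (nat_lit 819221) (nat_lit 6) (.e (nat_lit 188430) (nat_lit 20) (.e (nat_lit 3282) (nat_lit 200) (.e (nat_lit 564992) (nat_lit 6) .nil)))))) (.g (nat_lit 1) (.e (nat_lit 269227) (nat_lit 0) .nil) .nil))) 
(.lf (nat_lit 540261) (.g (nat_lit 1983) (.e (nat_lit 98048) (nat_lit 9) (.e (nat_lit 3062) (nat_lit 190) (.e (nat_lit 475199) (nat_lit 40) (.e (nat_lit 704589) (nat_lit 3) (.e (nat_lit 163975) (nat_lit 30) .nil))))) (.g (nat_lit 0) (.e (nat_lit 270456) (nat_lit 0) .nil) .nil)))) (.nd (nat_lit 9) 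
(.lf (nat_lit 540005) (.g (nat_lit 2698) (.e (nat_lit 81951) (nat_lit 22) (.e (nat_lit 90165) (nat_lit 12) (.e (nat_lit 164208) (nat_lit 176) (.e (nat_lit 2810) (nat_lit 180) (.e (nat_lit 303117) (nat_lit 2) (.e (nat_lit 196673) (nat_lit 15) .nil)))))) (.g (nat_lit 1) (.e (nat_lit 269695) (nat_lit 0) .nil) .nil))) 
(.lf (nat_lit 540517) (.g (nat_lit 3123) (.e (nat_lit 90168) (nat_lit 13) (.e (nat_lit 172123) (nat_lit 13) (.e (nat_lit 483337) (nat_lit 9) (.e (nat_lit 426098) (nat_lit 1) (.e (nat_lit 164398) (nat_lit 256) (.e (nat_lit 57373) (nat_lit 2) .nil)))))) (.g (nat_lit 1) (.e (nat_lit 270854) (nat_lit 0) .nil) .nil))))) (.nd (nat_lit 8) (.nd (nat_lit 9) 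
(.lf (nat_lit 539877) (.g (nat_lit 1105) (.e (nat_lit 81946) (nat_lit 20) (.e (nat_lit 2390) (nat_lit 156) (.e (nat_lit 819221) (nat_lit 6) (.e (nat_lit 188427) (nat_lit 20) (.e (nat_lit 3279) (nat_lit 200) (.e (nat_lit 564992) (nat_lit 6) .nil)))))) (.g (nat_lit 1) (.e (nat_lit 269460) (nat_lit 0) .nil) .nil))) 
(.lf (nat_lit 540389) (.g (nat_lit 2824) (.e (nat_lit 90166) (nat_lit 13) (.e (nat_lit 172113) (nat_lit 10) (.e (nat_lit 434247) (nat_lit 28) (.e (nat_lit 573478) (nat_lit 12) (.e (nat_lit 57574) (nat_lit 55) (.e (nat_lit 778466) (nat_lit 11) (.e (nat_lit 24603) (nat_lit 2) .nil))))))) (.g (nat_lit 1) (.e (nat_lit 270696) (nat_lit 0) .nil) .nil)))) (.nd (nat_lit 9) 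
(.lf (nat_lit 540133) (.g (nat_lit 2035) (.e (nat_lit 81959) (nat_lit 24) (.e (nat_lit 123025) (nat_lit 127) (.e (nat_lit 229415) (nat_lit 15) (.e (nat_lit 450563) (nat_lit 0) (.e (nat_lit 6740) (nat_lit 365) (.e (nat_lit 7936) (nat_lit 90) .nil)))))) (.g (nat_lit 1) (.e (nat_lit 269929) (nat_lit 0) .nil) .nil))) 
(.lf (nat_lit 540645) (.g (nat_lit 3513) (.e (nat_lit 90170) (nat_lit 13) (.e (nat_lit 172106) (nat_lit 10) (.e (nat_lit 434231) (nat_lit 23) (.e (nat_lit 532535) (nat_lit 9) (.e (nat_lit 335985) (nat_lit 1) (.e (nat_lit 57931) (nat_lit 282) (.e (nat_lit 171776) (nat_lit 63) .nil))))))) (.g (nat_lit 1) (.e (nat_lit 271002) (nat_lit 0) .nil) .nil)))))))) 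
(.nd (nat_lit 5) (.nd (nat_lit 6) (.nd (nat_lit 7) (.nd (nat_lit 8) (.nd (nat_lit 9) 
(.lf (nat_lit 539669) (.g (nat_lit 632) (.e (nat_lit 81939) (nat_lit 20) (.e (nat_lit 2390) (nat_lit 156) (.e (nat_lit 819221) (nat_lit 6) (.e (nat_lit 188431) (nat_lit 20) (.e (nat_lit 3281) (nat_lit 200) .nil))))) (.g (nat_lit 0) (.e (nat_lit 269123) (nat_lit 0) .nil) .nil))) 
(.lf (nat_lit 540181) (.g (nat_lit 1174) (.e (nat_lit 90130) (nat_lit 9) (.e (nat_lit 2830) (nat_lit 182) (.e (nat_lit 409646) (nat_lit 18) (.e (nat_lit 303119) (nat_lit 3) .nil)))) (.g (nat_lit 0) (.e (nat_lit 270167) (nat_lit 0) .nil) .nil)))) (.nd (nat_lit 9) 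
(.lf (nat_lit 539925) (.g (nat_lit 976) (.e (nat_lit 81947) (nat_lit 20) (.e (nat_lit 1886) (nat_lit 127) (.e (nat_lit 581652) (nat_lit 5) (.e (nat_lit 180285) (nat_lit 45) (.e (nat_lit 2580) (nat_lit 161) (.e (nat_lit 48896) (nat_lit 6) .nil)))))) (.g (nat_lit 1) (.e (nat_lit 269525) (nat_lit 0) .nil) .nil))) 
(.lf (nat_lit 540437) (.g (nat_lit 2052) (.e (nat_lit 90167) (nat_lit 13) (.e (nat_lit 172113) (nat_lit 10) (.e (nat_lit 434245) (nat_lit 28) (.e (nat_lit 573474) (nat_lit 12) (.e (nat_lit 57574) (nat_lit 55) .nil))))) (.g (nat_lit 0) (.e (nat_lit 270754) (nat_lit 0) .nil) .nil))))) (.nd (nat_lit 8) (.nd (nat_lit 9) 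
(.lf (nat_lit 539797) (.g (nat_lit 794) (.e (nat_lit 81943) (nat_lit 20) (.e (nat_lit 2390) (nat_lit 156) (.e (nat_lit 819221) (nat_lit 6) (.e (nat_lit 188427) (nat_lit 20) (.e (nat_lit 3282) (nat_lit 200) (.e (nat_lit 564992) (nat_lit 6) .nil)))))) (.g (nat_lit 1) (.e (nat_lit 269348) (nat_lit 0) .nil) .nil))) 
(.lf (nat_lit 540309) (.g (nat_lit 3039) (.e (nat_lit 90158) (nat_lit 11) (.e (nat_lit 24628) (nat_lit 9) (.e (nat_lit 336456) (nat_lit 34) (.e (nat_lit 483364) (nat_lit 18) (.e (nat_lit 57852) (nat_lit 252) (.e (nat_lit 57370) (nat_lit 2) .nil)))))) (.g (nat_lit 1) (.e (nat_lit 270538) (nat_lit 0) .nil) .nil)))) (.nd (nat_lit 9) 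
(.lf (nat_lit 540053) (.g (nat_lit 1494) (.e (nat_lit 81954) (nat_lit 23) (.e (nat_lit 98384) (nat_lit 32) (.e (nat_lit 475219) (nat_lit 44) .nil))) (.g (nat_lit 0) (.e (nat_lit 269815) (nat_lit 0) .nil) .nil))) 
(.lf (nat_lit 540565) (.g (nat_lit 1506) (.e (nat_lit 90170) (nat_lit 13) (.e (nat_lit 172065) (nat_lit 3) (.e (nat_lit 204829) (nat_lit 18) (.e (nat_lit 57654) (nat_lit 152) .nil)))) (.g (nat_lit 0) (.e (nat_lit 270916) (nat_lit 0) .nil) .nil)))))) (.nd (nat_lit 7) (.nd (nat_lit 8) (.nd (nat_lit 9) 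
(.lf (nat_lit 539733) (.g (nat_lit 1203) (.e (nat_lit 81942) (nat_lit 20) (.e (nat_lit 2391) (nat_lit 156) (.e (nat_lit 819203) (nat_lit 0) (.e (nat_lit 3015) (nat_lit 187) (.e (nat_lit 458496) (nat_lit 8) .nil))))) (.g (nat_lit 0) (.e (nat_lit 269209) (nat_lit 0) .nil) .nil))) 
(.lf (nat_lit 540245) (.g (nat_lit 2290) (.e (nat_lit 90134) (nat_lit 9) (.e (nat_lit 3098) (nat_lit 192) (.e (nat_lit 491564) (nat_lit 12) (.e (nat_lit 385072) (nat_lit 31) (.e (nat_lit 573491) (nat_lit 15) .nil))))) (.g (nat_lit 0) (.e (nat_lit 270374) (nat_lit 0) .nil) .nil)))) (.nd (nat_lit 9) 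
(.lf (nat_lit 539989) (.g (nat_lit 1174) (.e (nat_lit 81947) (nat_lit 20) (.e (nat_lit 2391) (nat_lit 156) (.e (nat_lit 819221) (nat_lit 6) (.e (nat_lit 188431) (nat_lit 20) (.e (nat_lit 3281) (nat_lit 200) (.e (nat_lit 564992) (nat_lit 6) .nil)))))) (.g (nat_lit 1) (.e (nat_lit 269616) (nat_lit 0) .nil) .nil))) 
(.lf (nat_lit 540501) (.g (nat_lit 1953) (.e (nat_lit 90168) (nat_lit 13) (.e (nat_lit 172097) (nat_lit 9) (.e (nat_lit 426140) (nat_lit 3) (.e (nat_lit 204845) (nat_lit 24) (.e (nat_lit 319534) (nat_lit 16) .nil))))) (.g (nat_lit 0) (.e (nat_lit 270838) (nat_lit 0) .nil) .nil))))) (.nd (nat_lit 8) (.nd (nat_lit 9) 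
(.lf (nat_lit 539861) (.g (nat_lit 1214) (.e (nat_lit 81946) (nat_lit 20) (.e (nat_lit 2390) (nat_lit 156) (.e (nat_lit 819203) (nat_lit 0) (.e (nat_lit 3016) (nat_lit 187) (.e (nat_lit 458496) (nat_lit 8) (.e (nat_lit 564992) (nat_lit 6) .nil)))))) (.g (nat_lit 1) (.e (nat_lit 269440) (nat_lit 0) .nil) .nil))) 
(.lf (nat_lit 540373) (.g (nat_lit 1253) (.e (nat_lit 90165) (nat_lit 12) (.e (nat_lit 164208) (nat_lit 176) (.e (nat_lit 2819) (nat_lit 181) (.e (nat_lit 311300) (nat_lit 0) .nil)))) (.g (nat_lit 0) (.e (nat_lit 270667) (nat_lit 0) .nil) .nil)))) (.nd (nat_lit 9) 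
(.lf (nat_lit 540117) (.g (nat_lit 2337) (.e (nat_lit 81956) (nat_lit 23) (.e (nat_lit 98387) (nat_lit 33) (.e (nat_lit 491566) (nat_lit 12) (.e (nat_lit 385074) (nat_lit 31) (.e (nat_lit 573491) (nat_lit 15) .nil))))) (.g (nat_lit 1) (.e (nat_lit 269911) (nat_lit 0) .nil) .nil))) 
(.lf (nat_lit 540629) (.g (nat_lit 3193) (.e (nat_lit 90170) (nat_lit 13) (.e (nat_lit 172106) (nat_lit 10) (.e (nat_lit 434231) (nat_lit 23) (.e (nat_lit 532535) (nat_lit 9) (.e (nat_lit 335902) (nat_lit 0) .nil))))) (.g (nat_lit 0) (.e (nat_lit 270986) (nat_lit 0) .nil) .nil))))))) (.nd (nat_lit 6) (.nd (nat_lit 7) (.nd (nat_lit 8) (.nd (nat_lit 9) 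
(.lf (nat_lit 539701) (.g (nat_lit 1338) (.e (nat_lit 81940) (nat_lit 20) (.e (nat_lit 1788) (nat_lit 119) (.e (nat_lit 516106) (nat_lit 0) (.e (nat_lit 7936) (nat_lit 377) .nil)))) (.g (nat_lit 0) (.e (nat_lit 269164) (nat_lit 0) .nil) .nil))) 
(.lf (nat_lit 540213) (.g (nat_lit 459) (.e (nat_lit 90130) (nat_lit 9) (.e (nat_lit 2830) (nat_lit 182) (.e (nat_lit 417536) (nat_lit 18) .nil))) (.g (nat_lit 0) (.e (nat_lit 270244) (nat_lit 0) .nil) .nil)))) (.nd (nat_lit 9) 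
(.lf (nat_lit 539957) (.g (nat_lit 814) (.e (nat_lit 81947) (nat_lit 20) (.e (nat_lit 2390) (nat_lit 156) (.e (nat_lit 819221) (nat_lit 6) (.e (nat_lit 188431) (nat_lit 20) (.e (nat_lit 3281) (nat_lit 200) (.e (nat_lit 564992) (nat_lit 6) .nil)))))) (.g (nat_lit 1) (.e (nat_lit 269567) (nat_lit 0) .nil) .nil))) 
(.lf (nat_lit 540469) (.g (nat_lit 824) (.e (nat_lit 90167) (nat_lit 13) (.e (nat_lit 172126) (nat_lit 14) (.e (nat_lit 491539) (nat_lit 3) .nil))) (.g (nat_lit 0) (.e (nat_lit 270791) (nat_lit 0) .nil) .nil))))) (.nd (nat_lit 8) (.nd (nat_lit 9) 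
(.lf (nat_lit 539829) (.g (nat_lit 1093) (.e (nat_lit 81943) (nat_lit 20) (.e (nat_lit 2391) (nat_lit 156) (.e (nat_lit 819221) (nat_lit 6) (.e (nat_lit 188428) (nat_lit 20) (.e (nat_lit 3282) (nat_lit 200) (.e (nat_lit 564992) (nat_lit 6) .nil)))))) (.g (nat_lit 1) (.e (nat_lit 269387) (nat_lit 0) .nil) .nil))) 
(.lf (nat_lit 540341) (.g (nat_lit 3460) (.e (nat_lit 90159) (nat_lit 11) (.e (nat_lit 24627) (nat_lit 9) (.e (nat_lit 336454) (nat_lit 34) (.e (nat_lit 483365) (nat_lit 18) (.e (nat_lit 57848) (nat_lit 252) (.e (nat_lit 57375) (nat_lit 2) .nil)))))) (.g (nat_lit 1) (.e (nat_lit 270574) (nat_lit 0) .nil) .nil)))) (.nd (nat_lit 9) 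
(.lf (nat_lit 540085) (.g (nat_lit 4423) (.e (nat_lit 81956) (nat_lit 23) (.e (nat_lit 98320) (nat_lit 17) (.e (nat_lit 7073) (nat_lit 377) (.e (nat_lit 2797) (nat_lit 180) (.e (nat_lit 303117) (nat_lit 2) (.e (nat_lit 196673) (nat_lit 15) .nil)))))) (.g (nat_lit 1) (.e (nat_lit 269854) (nat_lit 0) .nil) .nil))) 
(.lf (nat_lit 540597) (.g (nat_lit 3293) (.e (nat_lit 90170) (nat_lit 13) (.e (nat_lit 172106) (nat_lit 10) (.e (nat_lit 434231) (nat_lit 23) (.e (nat_lit 532499) (nat_lit 1) (.e (nat_lit 65280) (nat_lit 233) (.e (nat_lit 2556) (nat_lit 159) (.e (nat_lit 24605) (nat_lit 2) .nil))))))) (.g (nat_lit 1) (.e (nat_lit 270954) (nat_lit 0) .nil) .nil)))))) 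
(.nd (nat_lit 7) (.nd (nat_lit 8) (.nd (nat_lit 9) 
(.lf (nat_lit 539765) (.g (nat_lit 619) (.e (nat_lit 81943) (nat_lit 20) (.e (nat_lit 1886) (nat_lit 127) (.e (nat_lit 581652) (nat_lit 5) (.e (nat_lit 180284) (nat_lit 45) (.e (nat_lit 2579) (nat_lit 161) (.e (nat_lit 48896) (nat_lit 6) .nil)))))) (.g (nat_lit 1) (.e (nat_lit 269305) (nat_lit 0) .nil) .nil))) 
(.lf (nat_lit 540277) (.g (nat_lit 1394) (.e (nat_lit 90157) (nat_lit 11) (.e (nat_lit 24630) (nat_lit 9) (.e (nat_lit 336456) (nat_lit 34) (.e (nat_lit 483365) (nat_lit 18) .nil)))) (.g (nat_lit 0) (.e (nat_lit 270480) (nat_lit 0) .nil) .nil)))) (.nd (nat_lit 9) 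
(.lf (nat_lit 540021) (.g (nat_lit 954) (.e (nat_lit 81953) (nat_lit 22) (.e (nat_lit 90170) (nat_lit 13) (.e (nat_lit 172043) (nat_lit 0) .nil))) (.g (nat_lit 0) (.e (nat_lit 269732) (nat_lit 0) .nil) .nil))) 
(.lf (nat_lit 540533) (.g (nat_lit 1385) (.e (nat_lit 90169) (nat_lit 13) (.e (nat_lit 172097) (nat_lit 9) (.e (nat_lit 426140) (nat_lit 3) (.e (nat_lit 204845) (nat_lit 24) .nil)))) (.g (nat_lit 0) (.e (nat_lit 270878) (nat_lit 0) .nil) .nil))))) (.nd (nat_lit 8) (.nd (nat_lit 9) 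
(.lf (nat_lit 539893) (.g (nat_lit 1510) (.e (nat_lit 81946) (nat_lit 20) (.e (nat_lit 2391) (nat_lit 156) (.e (nat_lit 819204) (nat_lit 0) (.e (nat_lit 2988) (nat_lit 186) (.e (nat_lit 450304) (nat_lit 2) (.e (nat_lit 98048) (nat_lit 6) .nil)))))) (.g (nat_lit 1) (.e (nat_lit 269480) (nat_lit 0) .nil) .nil))) 
(.lf (nat_lit 540405) (.g (nat_lit 1342) (.e (nat_lit 90167) (nat_lit 13) (.e (nat_lit 172065) (nat_lit 3) (.e (nat_lit 204830) (nat_lit 18) (.e (nat_lit 57663) (nat_lit 152) .nil)))) (.g (nat_lit 0) (.e (nat_lit 270715) (nat_lit 0) .nil) .nil)))) (.nd (nat_lit 9) 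
(.lf (nat_lit 540149) (.g (nat_lit 402) (.e (nat_lit 98048) (nat_lit 2) (.e (nat_lit 16473) (nat_lit 14) (.e (nat_lit 491581) (nat_lit 27) .nil))) (.g (nat_lit 0) (.e (nat_lit 269996) (nat_lit 0) .nil) .nil))) 
(.lf (nat_lit 540661) (.g (nat_lit 5019) (.e (nat_lit 90170) (nat_lit 13) (.e (nat_lit 172106) (nat_lit 10) (.e (nat_lit 434243) (nat_lit 28) (.e (nat_lit 573475) (nat_lit 12) (.e (nat_lit 57574) (nat_lit 55) (.e (nat_lit 778466) (nat_lit 11) (.e (nat_lit 24604) (nat_lit 2) .nil))))))) (.g (nat_lit 1) (.e (nat_lit 271018) (nat_lit 0) .nil) .nil))))))))) 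
(.nd (nat_lit 4) (.nd (nat_lit 5) (.nd (nat_lit 6) (.nd (nat_lit 7) (.nd (nat_lit 8) 
(.nd (nat_lit 9) 
(.lf (nat_lit 539661) (.g (nat_lit 1124) (.e (nat_lit 81939) (nat_lit 20) (.e (nat_lit 2390) (nat_lit 156) (.e (nat_lit 819204) (nat_lit 0) (.e (nat_lit 3027) (nat_lit 187) (.e (nat_lit 458496) (nat_lit 8) (.e (nat_lit 564992) (nat_lit 6) .nil)))))) (.g (nat_lit 1) (.e (nat_lit 269115) (nat_lit 0) .nil) .nil))) 
(.lf (nat_lit 540173) (.g (nat_lit 1914) (.e (nat_lit 90130) (nat_lit 9) (.e (nat_lit 2830) (nat_lit 182) (.e (nat_lit 409644) (nat_lit 18) (.e (nat_lit 303119) (nat_lit 3) (.e (nat_lit 204878) (nat_lit 31) .nil))))) (.g (nat_lit 0) (.e (nat_lit 270157) (nat_lit 0) .nil) .nil)))) (.nd (nat_lit 9) 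
(.lf (nat_lit 539917) (.g (nat_lit 1953) (.e (nat_lit 81947) (nat_lit 20) (.e (nat_lit 1802) (nat_lit 119) (.e (nat_lit 516179) (nat_lit 15) (.e (nat_lit 475199) (nat_lit 40) (.e (nat_lit 704589) (nat_lit 3) .nil))))) (.g (nat_lit 0) (.e (nat_lit 269508) (nat_lit 0) .nil) .nil))) 
(.lf (nat_lit 540429) (.g (nat_lit 2045) (.e (nat_lit 90167) (nat_lit 13) (.e (nat_lit 172067) (nat_lit 3) (.e (nat_lit 204838) (nat_lit 20) (.e (nat_lit 114719) (nat_lit 23) (.e (nat_lit 98333) (nat_lit 18) .nil))))) (.g (nat_lit 0) (.e (nat_lit 270739) (nat_lit 0) .nil) .nil))))) (.nd (nat_lit 8) (.nd (nat_lit 9) 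
(.lf (nat_lit 539789) (.g (nat_lit 1384) (.e (nat_lit 81943) (nat_lit 20) (.e (nat_lit 2390) (nat_lit 156) (.e (nat_lit 819204) (nat_lit 0) (.e (nat_lit 3015) (nat_lit 187) (.e (nat_lit 458496) (nat_lit 8) (.e (nat_lit 564992) (nat_lit 6) .nil)))))) (.g (nat_lit 1) (.e (nat_lit 269339) (nat_lit 0) .nil) .nil))) 
(.lf (nat_lit 540301) (.g (nat_lit 3152) (.e (nat_lit 90158) (nat_lit 11) (.e (nat_lit 24628) (nat_lit 9) (.e (nat_lit 336454) (nat_lit 34) (.e (nat_lit 483363) (nat_lit 18) (.e (nat_lit 57854) (nat_lit 252) (.e (nat_lit 57370) (nat_lit 2) .nil)))))) (.g (nat_lit 1) (.e (nat_lit 270530) (nat_lit 0) .nil) .nil)))) (.nd (nat_lit 9) 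
(.lf (nat_lit 540045) (.g (nat_lit 4751) (.e (nat_lit 81954) (nat_lit 23) (.e (nat_lit 98367) (nat_lit 27) (.e (nat_lit 434271) (nat_lit 38) (.e (nat_lit 655375) (nat_lit 3) (.e (nat_lit 163978) (nat_lit 30) (.e (nat_lit 573490) (nat_lit 15) .nil)))))) (.g (nat_lit 1) (.e (nat_lit 269791) (nat_lit 0) .nil) .nil))) 
(.lf (nat_lit 540557) (.g (nat_lit 1419) (.e (nat_lit 90169) (nat_lit 13) (.e (nat_lit 172122) (nat_lit 13) (.e (nat_lit 483363) (nat_lit 18) (.e (nat_lit 57686) (nat_lit 156) .nil)))) (.g (nat_lit 0) (.e (nat_lit 270902) (nat_lit 0) .nil) .nil)))))) (.nd (nat_lit 7) (.nd (nat_lit 8) (.nd (nat_lit 9) 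
(.lf (nat_lit 539725) (.g (nat_lit 462) (.e (nat_lit 81942) (nat_lit 20) (.e (nat_lit 2390) (nat_lit 156) (.e (nat_lit 819221) (nat_lit 6) (.e (nat_lit 188427) (nat_lit 20) (.e (nat_lit 3279) (nat_lit 200) .nil))))) (.g (nat_lit 0) (.e (nat_lit 269201) (nat_lit 0) .nil) .nil))) 
(.lf (nat_lit 540237) (.g (nat_lit 2473) (.e (nat_lit 90134) (nat_lit 9) (.e (nat_lit 3022) (nat_lit 187) (.e (nat_lit 450586) (nat_lit 10) (.e (nat_lit 573474) (nat_lit 12) (.e (nat_lit 57572) (nat_lit 54) .nil))))) (.g (nat_lit 0) (.e (nat_lit 270362) (nat_lit 0) .nil) .nil)))) (.nd (nat_lit 9) 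
(.lf (nat_lit 539981) (.g (nat_lit 3862) (.e (nat_lit 81947) (nat_lit 20) (.e (nat_lit 2391) (nat_lit 156) (.e (nat_lit 819219) (nat_lit 4) (.e (nat_lit 172082) (nat_lit 7) (.e (nat_lit 409612) (nat_lit 10) (.e (nat_lit 632) (nat_lit 50) (.e (nat_lit 573491) (nat_lit 15) .nil))))))) (.g (nat_lit 1) (.e (nat_lit 269607) (nat_lit 0) .nil) .nil))) 
(.lf (nat_lit 540493) (.g (nat_lit 2203) (.e (nat_lit 90168) (nat_lit 13) (.e (nat_lit 172067) (nat_lit 3) (.e (nat_lit 204838) (nat_lit 20) (.e (nat_lit 114718) (nat_lit 23) (.e (nat_lit 98334) (nat_lit 18) .nil))))) (.g (nat_lit 0) (.e (nat_lit 270827) (nat_lit 0) .nil) .nil))))) (.nd (nat_lit 8) (.nd (nat_lit 9) 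
(.lf (nat_lit 539853) (.g (nat_lit 1830) (.e (nat_lit 81946) (nat_lit 20) (.e (nat_lit 1858) (nat_lit 124) (.e (nat_lit 557091) (nat_lit 12) (.e (nat_lit 164022) (nat_lit 46) .nil)))) (.g (nat_lit 0) (.e (nat_lit 269427) (nat_lit 0) .nil) .nil))) 
(.lf (nat_lit 540365) (.g (nat_lit 3102) (.e (nat_lit 90160) (nat_lit 11) (.e (nat_lit 24665) (nat_lit 14) (.e (nat_lit 401427) (nat_lit 3) (.e (nat_lit 204880) (nat_lit 32) (.e (nat_lit 392960) (nat_lit 42) .nil))))) (.g (nat_lit 0) (.e (nat_lit 270623) (nat_lit 0) .nil) .nil)))) (.nd (nat_lit 9) 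
(.lf (nat_lit 540109) (.g (nat_lit 3594) (.e (nat_lit 81956) (nat_lit 23) (.e (nat_lit 98384) (nat_lit 32) (.e (nat_lit 475205) (nat_lit 40) (.e (nat_lit 704588) (nat_lit 3) (.e (nat_lit 163979) (nat_lit 30) (.e (nat_lit 573492) (nat_lit 15) .nil)))))) (.g (nat_lit 1) (.e (nat_lit 269901) (nat_lit 0) .nil) .nil))) 
(.lf (nat_lit 540621) (.g (nat_lit 2334) (.e (nat_lit 90170) (nat_lit 13) (.e (nat_lit 172106) (nat_lit 10) (.e (nat_lit 434231) (nat_lit 23) (.e (nat_lit 532529) (nat_lit 9) (.e (nat_lit 335971) (nat_lit 0) .nil))))) (.g (nat_lit 0) (.e (nat_lit 270978) (nat_lit 0) .nil) .nil))))))) (.nd (nat_lit 6) (.nd (nat_lit 7) (.nd (nat_lit 8) (.nd (nat_lit 9) 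
(.lf (nat_lit 539693) (.g (nat_lit 1074) (.e (nat_lit 81939) (nat_lit 20) (.e (nat_lit 2391) (nat_lit 156) (.e (nat_lit 819221) (nat_lit 6) (.e (nat_lit 188427) (nat_lit 20) (.e (nat_lit 3279) (nat_lit 200) (.e (nat_lit 564992) (nat_lit 6) .nil)))))) (.g (nat_lit 1) (.e (nat_lit 269156) (nat_lit 0) .nil) .nil))) 
(.lf (nat_lit 540205) (.g (nat_lit 941) (.e (nat_lit 90130) (nat_lit 9) (.e (nat_lit 2830) (nat_lit 182) (.e (nat_lit 409649) (nat_lit 18) (.e (nat_lit 303111) (nat_lit 0) .nil)))) (.g (nat_lit 0) (.e (nat_lit 270214) (nat_lit 0) .nil) .nil)))) (.nd (nat_lit 9) 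
(.lf (nat_lit 539949) (.g (nat_lit 1140) (.e (nat_lit 81947) (nat_lit 20) (.e (nat_lit 2390) (nat_lit 156) (.e (nat_lit 819204) (nat_lit 0) (.e (nat_lit 3021) (nat_lit 187) (.e (nat_lit 458496) (nat_lit 8) (.e (nat_lit 564992) (nat_lit 6) .nil)))))) (.g (nat_lit 1) (.e (nat_lit 269559) (nat_lit 0) .nil) .nil))) 
(.lf (nat_lit 540461) (.g (nat_lit 2113) (.e (nat_lit 90167) (nat_lit 13) (.e (nat_lit 172126) (nat_lit 14) (.e (nat_lit 491537) (nat_lit 2) (.e (nat_lit 90153) (nat_lit 10) .nil)))) (.g (nat_lit 0) (.e (nat_lit 270780) (nat_lit 0) .nil) .nil))))) (.nd (nat_lit 8) (.nd (nat_lit 9) 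
(.lf (nat_lit 539821) (.g (nat_lit 1624) (.e (nat_lit 81943) (nat_lit 20) (.e (nat_lit 2391) (nat_lit 156) (.e (nat_lit 819204) (nat_lit 0) (.e (nat_lit 3022) (nat_lit 187) (.e (nat_lit 450584) (nat_lit 9) (.e (nat_lit 573184) (nat_lit 6) .nil)))))) (.g (nat_lit 1) (.e (nat_lit 269378) (nat_lit 0) .nil) .nil))) 
(.lf (nat_lit 540333) (.g (nat_lit 2460) (.e (nat_lit 90159) (nat_lit 11) (.e (nat_lit 24626) (nat_lit 9) (.e (nat_lit 336454) (nat_lit 34) (.e (nat_lit 483366) (nat_lit 18) (.e (nat_lit 57848) (nat_lit 252) (.e (nat_lit 57375) (nat_lit 2) .nil)))))) (.g (nat_lit 1) (.e (nat_lit 270565) (nat_lit 0) .nil) .nil)))) (.nd (nat_lit 9) 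
(.lf (nat_lit 540077) (.g (nat_lit 993) (.e (nat_lit 81955) (nat_lit 23) (.e (nat_lit 98359) (nat_lit 26) (.e (nat_lit 426025) (nat_lit 0) .nil))) (.g (nat_lit 0) (.e (nat_lit 269843) (nat_lit 0) .nil) .nil))) 
(.lf (nat_lit 540589) (.g (nat_lit 3371) (.e (nat_lit 90170) (nat_lit 13) (.e (nat_lit 172106) (nat_lit 10) (.e (nat_lit 434231) (nat_lit 23) (.e (nat_lit 532481) (nat_lit 0) (.e (nat_lit 6220) (nat_lit 333) .nil))))) (.g (nat_lit 0) (.e (nat_lit 270946) (nat_lit 0) .nil) .nil)))))) (.nd (nat_lit 7) (.nd (nat_lit 8) (.nd (nat_lit 9) 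
(.lf (nat_lit 539757) (.g (nat_lit 489) (.e (nat_lit 81943) (nat_lit 20) (.e (nat_lit 1842) (nat_lit 123) (.e (nat_lit 556800) (nat_lit 5) .nil))) (.g (nat_lit 0) (.e (nat_lit 269269) (nat_lit 0) .nil) .nil))) 
(.lf (nat_lit 540269) (.g (nat_lit 1908) (.e (nat_lit 90156) (nat_lit 11) (.e (nat_lit 24630) (nat_lit 9) (.e (nat_lit 336454) (nat_lit 34) (.e (nat_lit 483366) (nat_lit 18) .nil)))) (.g (nat_lit 0) (.e (nat_lit 270469) (nat_lit 0) .nil) .nil)))) (.nd (nat_lit 9) 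
(.lf (nat_lit 540013) (.g (nat_lit 1121) (.e (nat_lit 81952) (nat_lit 22) (.e (nat_lit 90185) (nat_lit 17) (.e (nat_lit 237582) (nat_lit 1) .nil))) (.g (nat_lit 0) (.e (nat_lit 269720) (nat_lit 0) .nil) .nil))) 
(.lf (nat_lit 540525) (.g (nat_lit 3073) (.e (nat_lit 90168) (nat_lit 13) (.e (nat_lit 172123) (nat_lit 13) (.e (nat_lit 483337) (nat_lit 9) (.e (nat_lit 426108) (nat_lit 1) (.e (nat_lit 164401) (nat_lit 256) (.e (nat_lit 57373) (nat_lit 2) .nil)))))) (.g (nat_lit 1) (.e (nat_lit 270862) (nat_lit 0) .nil) .nil))))) (.nd (nat_lit 8) (.nd (nat_lit 9) 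
(.lf (nat_lit 539885) (.g (nat_lit 1241) (.e (nat_lit 81946) (nat_lit 20) (.e (nat_lit 2391) (nat_lit 156) (.e (nat_lit 819203) (nat_lit 0) (.e (nat_lit 2998) (nat_lit 186) (.e (nat_lit 450304) (nat_lit 2) (.e (nat_lit 98048) (nat_lit 6) .nil)))))) (.g (nat_lit 1) (.e (nat_lit 269470) (nat_lit 0) .nil) .nil))) 
(.lf (nat_lit 540397) (.g (nat_lit 2132) (.e (nat_lit 90166) (nat_lit 13) (.e (nat_lit 172120) (nat_lit 12) (.e (nat_lit 475185) (nat_lit 29) (.e (nat_lit 557101) (nat_lit 13) .nil)))) (.g (nat_lit 0) (.e (nat_lit 270706) (nat_lit 0) .nil) .nil)))) (.nd (nat_lit 9) 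
(.lf (nat_lit 540141) (.g (nat_lit 2944) (.e (nat_lit 81965) (nat_lit 26) (.e (nat_lit 147512) (nat_lit 14) (.e (nat_lit 2797) (nat_lit 180) (.e (nat_lit 303127) (nat_lit 9) (.e (nat_lit 426428) (nat_lit 17) (.e (nat_lit 98048) (nat_lit 6) .nil)))))) (.g (nat_lit 1) (.e (nat_lit 269948) (nat_lit 0) .nil) .nil))) 
(.lf (nat_lit 540653) (.g (nat_lit 3943) (.e (nat_lit 90170) (nat_lit 13) (.e (nat_lit 172106) (nat_lit 10) (.e (nat_lit 434231) (nat_lit 23) (.e (nat_lit 532535) (nat_lit 9) (.e (nat_lit 335992) (nat_lit 1) (.e (nat_lit 57931) (nat_lit 282) (.e (nat_lit 171776) (nat_lit 63) .nil))))))) (.g (nat_lit 1) (.e (nat_lit 271010) (nat_lit 0) .nil) .nil)))))))) 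
(.nd (nat_lit 5) (.nd (nat_lit 6) (.nd (nat_lit 7) (.nd (nat_lit 8) (.nd (nat_lit 9) 
(.lf (nat_lit 539677) (.g (nat_lit 1128) (.e (nat_lit 81939) (nat_lit 20) (.e (nat_lit 2391) (nat_lit 156) (.e (nat_lit 819203) (nat_lit 0) (.e (nat_lit 3016) (nat_lit 187) (.e (nat_lit 458496) (nat_lit 8) (.e (nat_lit 564992) (nat_lit 6) .nil)))))) (.g (nat_lit 1) (.e (nat_lit 269136) (nat_lit 0) .nil) .nil))) 
(.lf (nat_lit 540189) (.g (nat_lit 1912) (.e (nat_lit 90130) (nat_lit 9) (.e (nat_lit 2830) (nat_lit 182) (.e (nat_lit 409648) (nat_lit 18) (.e (nat_lit 303104) (nat_lit 0) .nil)))) (.g (nat_lit 0) (.e (nat_lit 270180) (nat_lit 0) .nil) .nil)))) (.nd (nat_lit 9) 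
(.lf (nat_lit 539933) (.g (nat_lit 973) (.e (nat_lit 81947) (nat_lit 20) (.e (nat_lit 2390) (nat_lit 156) (.e (nat_lit 819203) (nat_lit 0) (.e (nat_lit 2989) (nat_lit 186) (.e (nat_lit 450304) (nat_lit 2) (.e (nat_lit 98048) (nat_lit 6) .nil)))))) (.g (nat_lit 1) (.e (nat_lit 269534) (nat_lit 0) .nil) .nil))) 
(.lf (nat_lit 540445) (.g (nat_lit 1499) (.e (nat_lit 90167) (nat_lit 13) (.e (nat_lit 172120) (nat_lit 12) (.e (nat_lit 475179) (nat_lit 24) (.e (nat_lit 516127) (nat_lit 2) .nil)))) (.g (nat_lit 0) (.e (nat_lit 270762) (nat_lit 0) .nil) .nil))))) (.nd (nat_lit 8) (.nd (nat_lit 9) 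
(.lf (nat_lit 539805) (.g (nat_lit 1206) (.e (nat_lit 81943) (nat_lit 20) (.e (nat_lit 2391) (nat_lit 156) (.e (nat_lit 819203) (nat_lit 0) (.e (nat_lit 3004) (nat_lit 186) (.e (nat_lit 450304) (nat_lit 2) (.e (nat_lit 98048) (nat_lit 6) .nil)))))) (.g (nat_lit 1) (.e (nat_lit 269357) (nat_lit 0) .nil) .nil))) 
(.lf (nat_lit 540317) (.g (nat_lit 1951) (.e (nat_lit 90158) (nat_lit 11) (.e (nat_lit 24630) (nat_lit 9) (.e (nat_lit 336454) (nat_lit 34) (.e (nat_lit 483366) (nat_lit 18) .nil)))) (.g (nat_lit 0) (.e (nat_lit 270546) (nat_lit 0) .nil) .nil)))) (.nd (nat_lit 9) 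
(.lf (nat_lit 540061) (.g (nat_lit 3661) (.e (nat_lit 81954) (nat_lit 23) (.e (nat_lit 98387) (nat_lit 33) (.e (nat_lit 491566) (nat_lit 12) (.e (nat_lit 385074) (nat_lit 31) (.e (nat_lit 573493) (nat_lit 15) .nil))))) (.g (nat_lit 1) (.e (nat_lit 269824) (nat_lit 0) .nil) .nil))) 
(.lf (nat_lit 540573) (.g (nat_lit 3707) (.e (nat_lit 90170) (nat_lit 13) (.e (nat_lit 172067) (nat_lit 3) (.e (nat_lit 204829) (nat_lit 18) (.e (nat_lit 57692) (nat_lit 156) (.e (nat_lit 163875) (nat_lit 3) (.e (nat_lit 204836) (nat_lit 20) (.e (nat_lit 114715) (nat_lit 22) .nil))))))) (.g (nat_lit 1) (.e (nat_lit 270930) (nat_lit 0) .nil) .nil)))))) 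
(.nd (nat_lit 7) (.nd (nat_lit 8) (.nd (nat_lit 9) 
(.lf (nat_lit 539741) (.g (nat_lit 1533) (.e (nat_lit 81942) (nat_lit 20) (.e (nat_lit 2391) (nat_lit 156) (.e (nat_lit 819204) (nat_lit 0) (.e (nat_lit 3022) (nat_lit 187) (.e (nat_lit 458496) (nat_lit 8) (.e (nat_lit 564992) (nat_lit 6) .nil)))))) (.g (nat_lit 1) (.e (nat_lit 269219) (nat_lit 0) .nil) .nil))) 
(.lf (nat_lit 540253) (.g (nat_lit 1799) (.e (nat_lit 90134) (nat_lit 9) (.e (nat_lit 3098) (nat_lit 192) (.e (nat_lit 491571) (nat_lit 13) (.e (nat_lit 393258) (nat_lit 20) .nil)))) (.g (nat_lit 0) (.e (nat_lit 270401) (nat_lit 0) .nil) .nil)))) (.nd (nat_lit 9) 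
(.lf (nat_lit 539997) (.g (nat_lit 3019) (.e (nat_lit 89856) (nat_lit 20) (.e (nat_lit 1800) (nat_lit 119) (.e (nat_lit 516139) (nat_lit 7) (.e (nat_lit 409646) (nat_lit 18) (.e (nat_lit 303117) (nat_lit 2) .nil))))) (.g (nat_lit 0) (.e (nat_lit 269632) (nat_lit 0) .nil) .nil))) 
(.lf (nat_lit 540509) (.g (nat_lit 1848) (.e (nat_lit 90168) (nat_lit 13) (.e (nat_lit 172120) (nat_lit 12) (.e (nat_lit 475179) (nat_lit 24) (.e (nat_lit 516131) (nat_lit 3) .nil)))) (.g (nat_lit 0) (.e (nat_lit 270846) (nat_lit 0) .nil) .nil))))) (.nd (nat_lit 8) (.nd (nat_lit 9) 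
(.lf (nat_lit 539869) (.g (nat_lit 1190) (.e (nat_lit 81946) (nat_lit 20) (.e (nat_lit 2390) (nat_lit 156) (.e (nat_lit 819204) (nat_lit 0) (.e (nat_lit 2999) (nat_lit 186) (.e (nat_lit 450304) (nat_lit 2) (.e (nat_lit 98048) (nat_lit 6) .nil)))))) (.g (nat_lit 1) (.e (nat_lit 269448) (nat_lit 0) .nil) .nil))) 
(.lf (nat_lit 540381) (.g (nat_lit 1666) (.e (nat_lit 90166) (nat_lit 13) (.e (nat_lit 172067) (nat_lit 3) (.e (nat_lit 204838) (nat_lit 20) (.e (nat_lit 114718) (nat_lit 23) .nil)))) (.g (nat_lit 0) (.e (nat_lit 270680) (nat_lit 0) .nil) .nil)))) (.nd (nat_lit 9) 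
(.lf (nat_lit 540125) (.g (nat_lit 3076) (.e (nat_lit 89856) (nat_lit 23) (.e (nat_lit 98367) (nat_lit 27) (.e (nat_lit 434272) (nat_lit 38) (.e (nat_lit 655375) (nat_lit 3) (.e (nat_lit 163978) (nat_lit 30) .nil))))) (.g (nat_lit 0) (.e (nat_lit 269920) (nat_lit 0) .nil) .nil))) 
(.lf (nat_lit 540637) (.g (nat_lit 3144) (.e (nat_lit 90170) (nat_lit 13) (.e (nat_lit 172106) (nat_lit 10) (.e (nat_lit 434231) (nat_lit 23) (.e (nat_lit 532535) (nat_lit 9) (.e (nat_lit 335937) (nat_lit 0) .nil))))) (.g (nat_lit 0) (.e (nat_lit 270994) (nat_lit 0) .nil) .nil))))))) (.nd (nat_lit 6) (.nd (nat_lit 7) (.nd (nat_lit 8) (.nd (nat_lit 9) 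
(.lf (nat_lit 539709) (.g (nat_lit 1779) (.e (nat_lit 81942) (nat_lit 20) (.e (nat_lit 1858) (nat_lit 124) (.e (nat_lit 557070) (nat_lit 9) (.e (nat_lit 2744) (nat_lit 174) (.e (nat_lit 253992) (nat_lit 11) .nil))))) (.g (nat_lit 0) (.e (nat_lit 269179) (nat_lit 0) .nil) .nil))) 
(.lf (nat_lit 540221) (.g (nat_lit 5576) (.e (nat_lit 90133) (nat_lit 9) (.e (nat_lit 3105) (nat_lit 192) (.e (nat_lit 491566) (nat_lit 12) (.e (nat_lit 385072) (nat_lit 31) (.e (nat_lit 573493) (nat_lit 15) (.e (nat_lit 81953) (nat_lit 22) .nil)))))) (.g (nat_lit 1) (.e (nat_lit 270304) (nat_lit 0) .nil) .nil)))) (.nd (nat_lit 9) 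
(.lf (nat_lit 539965) (.g (nat_lit 1538) (.e (nat_lit 81947) (nat_lit 20) (.e (nat_lit 2391) (nat_lit 156) (.e (nat_lit 819203) (nat_lit 0) (.e (nat_lit 3022) (nat_lit 187) (.e (nat_lit 458496) (nat_lit 8) (.e (nat_lit 564992) (nat_lit 6) .nil)))))) (.g (nat_lit 1) (.e (nat_lit 269582) (nat_lit 0) .nil) .nil))) 
(.lf (nat_lit 540477) (.g (nat_lit 3538) (.e (nat_lit 90167) (nat_lit 13) (.e (nat_lit 172133) (nat_lit 15) (.e (nat_lit 2059) (nat_lit 142) (.e (nat_lit 704589) (nat_lit 3) (.e (nat_lit 163976) (nat_lit 30) .nil))))) (.g (nat_lit 0) (.e (nat_lit 270805) (nat_lit 0) .nil) .nil))))) (.nd (nat_lit 8) (.nd (nat_lit 9) 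
(.lf (nat_lit 539837) (.g (nat_lit 274) (.e (nat_lit 81946) (nat_lit 20) (.e (nat_lit 1842) (nat_lit 123) (.e (nat_lit 548889) (nat_lit 9) .nil))) (.g (nat_lit 0) (.e (nat_lit 269400) (nat_lit 0) .nil) .nil))) 
(.lf (nat_lit 540349) (.g (nat_lit 3006) (.e (nat_lit 90160) (nat_lit 11) (.e (nat_lit 24604) (nat_lit 2) (.e (nat_lit 90160) (nat_lit 11) (.e (nat_lit 24604) (nat_lit 2) (.e (nat_lit 90160) (nat_lit 11) (.e (nat_lit 24603) (nat_lit 2) .nil)))))) (.g (nat_lit 1) (.e (nat_lit 270601) (nat_lit 0) .nil) .nil)))) (.nd (nat_lit 9) 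
(.lf (nat_lit 540093) (.g (nat_lit 788) (.e (nat_lit 81956) (nat_lit 23) (.e (nat_lit 98350) (nat_lit 24) (.e (nat_lit 409608) (nat_lit 10) .nil))) (.g (nat_lit 0) (.e (nat_lit 269868) (nat_lit 0) .nil) .nil))) 
(.lf (nat_lit 540605) (.g (nat_lit 2620) (.e (nat_lit 90170) (nat_lit 13) (.e (nat_lit 172106) (nat_lit 10) (.e (nat_lit 434231) (nat_lit 23) (.e (nat_lit 532523) (nat_lit 7) (.e (nat_lit 319504) (nat_lit 10) .nil))))) (.g (nat_lit 0) (.e (nat_lit 270962) (nat_lit 0) .nil) .nil)))))) (.nd (nat_lit 7) (.nd (nat_lit 8) (.nd (nat_lit 9) 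
(.lf (nat_lit 539773) (.g (nat_lit 700) (.e (nat_lit 81943) (nat_lit 20) (.e (nat_lit 1886) (nat_lit 127) (.e (nat_lit 581652) (nat_lit 5) (.e (nat_lit 180288) (nat_lit 45) (.e (nat_lit 2580) (nat_lit 161) (.e (nat_lit 48896) (nat_lit 6) .nil)))))) (.g (nat_lit 1) (.e (nat_lit 269313) (nat_lit 0) .nil) .nil))) 
(.lf (nat_lit 540285) (.g (nat_lit 1095) (.e (nat_lit 90158) (nat_lit 11) (.e (nat_lit 24608) (nat_lit 3) (.e (nat_lit 98319) (nat_lit 17) .nil))) (.g (nat_lit 0) (.e (nat_lit 270504) (nat_lit 0) .nil) .nil)))) (.nd (nat_lit 9) 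
(.lf (nat_lit 540029) (.g (nat_lit 3426) (.e (nat_lit 81954) (nat_lit 23) (.e (nat_lit 98349) (nat_lit 24) (.e (nat_lit 409646) (nat_lit 18) (.e (nat_lit 303117) (nat_lit 2) (.e (nat_lit 196673) (nat_lit 15) .nil))))) (.g (nat_lit 1) (.e (nat_lit 269751) (nat_lit 0) .nil) .nil))) 
(.lf (nat_lit 540541) (.g (nat_lit 2745) (.e (nat_lit 90169) (nat_lit 13) (.e (nat_lit 172113) (nat_lit 10) (.e (nat_lit 434247) (nat_lit 28) (.e (nat_lit 573477) (nat_lit 12) (.e (nat_lit 57574) (nat_lit 55) (.e (nat_lit 778465) (nat_lit 11) (.e (nat_lit 24603) (nat_lit 2) .nil))))))) (.g (nat_lit 1) (.e (nat_lit 270886) (nat_lit 0) .nil) .nil))))) (.nd (nat_lit 8) (.nd (nat_lit 9) 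
(.lf (nat_lit 539901) (.g (nat_lit 1960) (.e (nat_lit 81946) (nat_lit 20) (.e (nat_lit 2391) (nat_lit 156) (.e (nat_lit 819204) (nat_lit 0) (.e (nat_lit 3022) (nat_lit 187) (.e (nat_lit 458496) (nat_lit 8) (.e (nat_lit 564992) (nat_lit 6) .nil)))))) (.g (nat_lit 1) (.e (nat_lit 269491) (nat_lit 0) .nil) .nil))) 
(.lf (nat_lit 540413) (.g (nat_lit 831) (.e (nat_lit 90167) (nat_lit 13) (.e (nat_lit 172067) (nat_lit 3) (.e (nat_lit 204817) (nat_lit 17) .nil))) (.g (nat_lit 0) (.e (nat_lit 270723) (nat_lit 0) .nil) .nil)))) (.nd (nat_lit 9) 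
(.lf (nat_lit 540157) (.g (nat_lit 318) (.e (nat_lit 90123) (nat_lit 9) (.e (nat_lit 312) (nat_lit 23) (.e (nat_lit 360192) (nat_lit 18) .nil))) (.g (nat_lit 0) (.e (nat_lit 270033) (nat_lit 0) .nil) .nil))) 
(.lf (nat_lit 540669) (.g (nat_lit 3006) (.e (nat_lit 90170) (nat_lit 13) (.e (nat_lit 172106) (nat_lit 10) (.e (nat_lit 434244) (nat_lit 28) (.e (nat_lit 573451) (nat_lit 9) (.e (nat_lit 396) (nat_lit 32) (.e (nat_lit 426344) (nat_lit 14) (.e (nat_lit 491535) (nat_lit 2) .nil))))))) (.g (nat_lit 1) (.e (nat_lit 271026) (nat_lit 0) .nil) .nil))))))))))) 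
(.nd (nat_lit 2) (.nd (nat_lit 3) (.nd (nat_lit 4) (.nd (nat_lit 5) (.nd (nat_lit 6) 
(.nd (nat_lit 7) (.nd (nat_lit 8) (.nd (nat_lit 9) 
(.lf (nat_lit 539651) (.g (nat_lit 649) (.e (nat_lit 81939) (nat_lit 20) (.e (nat_lit 2390) (nat_lit 156) (.e (nat_lit 819203) (nat_lit 0) (.e (nat_lit 3027) (nat_lit 187) (.e (nat_lit 458496) (nat_lit 8) (.e (nat_lit 564992) (nat_lit 6) .nil)))))) (.g (nat_lit 1) (.e (nat_lit 269102) (nat_lit 0) .nil) .nil))) 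
(.lf (nat_lit 540163) (.g (nat_lit 1418) (.e (nat_lit 90130) (nat_lit 9) (.e (nat_lit 2612) (nat_lit 163) (.e (nat_lit 164326) (nat_lit 230) (.e (nat_lit 163903) (nat_lit 12) (.e (nat_lit 426568) (nat_lit 34) .nil))))) (.g (nat_lit 0) (.e (nat_lit 270139) (nat_lit 0) .nil) .nil)))) (.nd (nat_lit 9) 
(.lf (nat_lit 539907) (.g (nat_lit 1401) (.e (nat_lit 81946) (nat_lit 20) (.e (nat_lit 2391) (nat_lit 156) (.e (nat_lit 819221) (nat_lit 6) (.e (nat_lit 188427) (nat_lit 20) (.e (nat_lit 3282) (nat_lit 200) (.e (nat_lit 564992) (nat_lit 6) .nil)))))) (.g (nat_lit 1) (.e (nat_lit 269498) (nat_lit 0) .nil) .nil))) 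
(.lf (nat_lit 540419) (.g (nat_lit 1802) (.e (nat_lit 90167) (nat_lit 13) (.e (nat_lit 172067) (nat_lit 3) (.e (nat_lit 204837) (nat_lit 20) (.e (nat_lit 114717) (nat_lit 23) .nil)))) (.g (nat_lit 0) (.e (nat_lit 270729) (nat_lit 0) .nil) .nil))))) (.nd (nat_lit 8) (.nd (nat_lit 9) 
(.lf (nat_lit 539779) (.g (nat_lit 975) (.e (nat_lit 81943) (nat_lit 20) (.e (nat_lit 2390) (nat_lit 156) (.e (nat_lit 819203) (nat_lit 0) (.e (nat_lit 3015) (nat_lit 187) (.e (nat_lit 458496) (nat_lit 8) (.e (nat_lit 564992) (nat_lit 6) .nil)))))) (.g (nat_lit 1) (.e (nat_lit 269327) (nat_lit 0) .nil) .nil))) 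
(.lf (nat_lit 540291) (.g (nat_lit 2325) (.e (nat_lit 90158) (nat_lit 11) (.e (nat_lit 24608) (nat_lit 3) (.e (nat_lit 98341) (nat_lit 20) (.e (nat_lit 221214) (nat_lit 23) (.e (nat_lit 204830) (nat_lit 18) (.e (nat_lit 57854) (nat_lit 252) (.e (nat_lit 57370) (nat_lit 2) .nil))))))) (.g (nat_lit 1) (.e (nat_lit 270518) (nat_lit 0) .nil) .nil)))) (.nd (nat_lit 9) 
(.lf (nat_lit 540035) (.g (nat_lit 2136) (.e (nat_lit 81954) (nat_lit 23) (.e (nat_lit 98358) (nat_lit 26) (.e (nat_lit 426112) (nat_lit 1) (.e (nat_lit 164348) (nat_lit 240) (.e (nat_lit 2610) (nat_lit 163) .nil))))) (.g (nat_lit 0) (.e (nat_lit 269762) (nat_lit 0) .nil) .nil))) 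
(.lf (nat_lit 540547) (.g (nat_lit 2056) (.e (nat_lit 90169) (nat_lit 13) (.e (nat_lit 172121) (nat_lit 13) (.e (nat_lit 483337) (nat_lit 9) (.e (nat_lit 426107) (nat_lit 1) (.e (nat_lit 164402) (nat_lit 256) (.e (nat_lit 57371) (nat_lit 2) .nil)))))) (.g (nat_lit 1) (.e (nat_lit 270892) (nat_lit 0) .nil) .nil)))))) (.nd (nat_lit 7) (.nd (nat_lit 8) (.nd (nat_lit 9) 
(.lf (nat_lit 539715) (.g (nat_lit 824) (.e (nat_lit 81942) (nat_lit 20) (.e (nat_lit 2390) (nat_lit 156) (.e (nat_lit 819203) (nat_lit 0) (.e (nat_lit 3016) (nat_lit 187) (.e (nat_lit 458496) (nat_lit 8) (.e (nat_lit 564992) (nat_lit 6) .nil)))))) (.g (nat_lit 1) (.e (nat_lit 269189) (nat_lit 0) .nil) .nil))) 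
(.lf (nat_lit 540227) (.g (nat_lit 1746) (.e (nat_lit 90134) (nat_lit 9) (.e (nat_lit 2828) (nat_lit 182) (.e (nat_lit 409645) (nat_lit 18) (.e (nat_lit 303119) (nat_lit 3) .nil)))) (.g (nat_lit 0) (.e (nat_lit 270318) (nat_lit 0) .nil) .nil)))) (.nd (nat_lit 9) 
(.lf (nat_lit 539971) (.g (nat_lit 1567) (.e (nat_lit 81947) (nat_lit 20) (.e (nat_lit 2391) (nat_lit 156) (.e (nat_lit 819204) (nat_lit 0) (.e (nat_lit 2999) (nat_lit 186) (.e (nat_lit 450304) (nat_lit 2) (.e (nat_lit 98048) (nat_lit 6) .nil)))))) (.g (nat_lit 1) (.e (nat_lit 269591) (nat_lit 0) .nil) .nil))) 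
(.lf (nat_lit 540483) (.g (nat_lit 1703) (.e (nat_lit 90168) (nat_lit 13) (.e (nat_lit 172067) (nat_lit 3) (.e (nat_lit 204837) (nat_lit 20) (.e (nat_lit 114708) (nat_lit 20) .nil)))) (.g (nat_lit 0) (.e (nat_lit 270817) (nat_lit 0) .nil) .nil))))) (.nd (nat_lit 8) (.nd (nat_lit 9) 
(.lf (nat_lit 539843) (.g (nat_lit 795) (.e (nat_lit 81946) (nat_lit 20) (.e (nat_lit 1886) (nat_lit 127) (.e (nat_lit 581652) (nat_lit 5) (.e (nat_lit 180285) (nat_lit 45) (.e (nat_lit 2578) (nat_lit 161) (.e (nat_lit 48896) (nat_lit 6) .nil)))))) (.g (nat_lit 1) (.e (nat_lit 269409) (nat_lit 0) .nil) .nil))) 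
(.lf (nat_lit 540355) (.g (nat_lit 2159) (.e (nat_lit 90160) (nat_lit 11) (.e (nat_lit 24628) (nat_lit 9) (.e (nat_lit 336019) (nat_lit 3) (.e (nat_lit 98384) (nat_lit 32) (.e (nat_lit 475214) (nat_lit 42) (.e (nat_lit 728832) (nat_lit 22) .nil)))))) (.g (nat_lit 1) (.e (nat_lit 270613) (nat_lit 0) .nil) .nil)))) (.nd (nat_lit 9) 
(.lf (nat_lit 540099) (.g (nat_lit 3249) (.e (nat_lit 81956) (nat_lit 23) (.e (nat_lit 98350) (nat_lit 24) (.e (nat_lit 409643) (nat_lit 18) (.e (nat_lit 303117) (nat_lit 2) (.e (nat_lit 196673) (nat_lit 15) .nil))))) (.g (nat_lit 1) (.e (nat_lit 269877) (nat_lit 0) .nil) .nil))) 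
(.lf (nat_lit 540611) (.g (nat_lit 2954) (.e (nat_lit 90170) (nat_lit 13) (.e (nat_lit 172106) (nat_lit 10) (.e (nat_lit 434231) (nat_lit 23) (.e (nat_lit 532523) (nat_lit 7) (.e (nat_lit 319513) (nat_lit 10) .nil))))) (.g (nat_lit 0) (.e (nat_lit 270968) (nat_lit 0) .nil) .nil))))))) (.nd (nat_lit 6) (.nd (nat_lit 7) (.nd (nat_lit 8) (.nd (nat_lit 9) 
(.lf (nat_lit 539683) (.g (nat_lit 1209) (.e (nat_lit 81939) (nat_lit 20) (.e (nat_lit 2391) (nat_lit 156) (.e (nat_lit 819204) (nat_lit 0) (.e (nat_lit 2989) (nat_lit 186) (.e (nat_lit 450304) (nat_lit 2) (.e (nat_lit 98048) (nat_lit 6) .nil)))))) (.g (nat_lit 1) (.e (nat_lit 269143) (nat_lit 0) .nil) .nil))) 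
(.lf (nat_lit 540195) (.g (nat_lit 1593) (.e (nat_lit 90130) (nat_lit 9) (.e (nat_lit 2830) (nat_lit 182) (.e (nat_lit 409648) (nat_lit 18) (.e (nat_lit 303117) (nat_lit 2) .nil)))) (.g (nat_lit 0) (.e (nat_lit 270189) (nat_lit 0) .nil) .nil)))) (.nd (nat_lit 9) 
(.lf (nat_lit 539939) (.g (nat_lit 1214) (.e (nat_lit 81947) (nat_lit 20) (.e (nat_lit 2390) (nat_lit 156) (.e (nat_lit 819203) (nat_lit 0) (.e (nat_lit 3022) (nat_lit 187) (.e (nat_lit 458496) (nat_lit 8) (.e (nat_lit 564992) (nat_lit 6) .nil)))))) (.g (nat_lit 1) (.e (nat_lit 269545) (nat_lit 0) .nil) .nil))) 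
(.lf (nat_lit 540451) (.g (nat_lit 2281) (.e (nat_lit 90167) (nat_lit 13) (.e (nat_lit 172120) (nat_lit 12) (.e (nat_lit 475185) (nat_lit 29) (.e (nat_lit 557105) (nat_lit 14) .nil)))) (.g (nat_lit 0) (.e (nat_lit 270768) (nat_lit 0) .nil) .nil))))) (.nd (nat_lit 8) (.nd (nat_lit 9) 
(.lf (nat_lit 539811) (.g (nat_lit 1124) (.e (nat_lit 81943) (nat_lit 20) (.e (nat_lit 2391) (nat_lit 156) (.e (nat_lit 819203) (nat_lit 0) (.e (nat_lit 3028) (nat_lit 187) (.e (nat_lit 458496) (nat_lit 8) (.e (nat_lit 564992) (nat_lit 6) .nil)))))) (.g (nat_lit 1) (.e (nat_lit 269364) (nat_lit 0) .nil) .nil))) 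
(.lf (nat_lit 540323) (.g (nat_lit 3430) (.e (nat_lit 90158) (nat_lit 11) (.e (nat_lit 24630) (nat_lit 9) (.e (nat_lit 336456) (nat_lit 34) (.e (nat_lit 483363) (nat_lit 18) (.e (nat_lit 57854) (nat_lit 252) (.e (nat_lit 57371) (nat_lit 2) .nil)))))) (.g (nat_lit 1) (.e (nat_lit 270552) (nat_lit 0) .nil) .nil)))) (.nd (nat_lit 9) 
(.lf (nat_lit 540067) (.g (nat_lit 2225) (.e (nat_lit 81955) (nat_lit 23) (.e (nat_lit 98350) (nat_lit 24) (.e (nat_lit 409646) (nat_lit 18) (.e (nat_lit 303106) (nat_lit 0) (.e (nat_lit 3114) (nat_lit 193) (.e (nat_lit 500075) (nat_lit 20) .nil)))))) (.g (nat_lit 1) (.e (nat_lit 269832) (nat_lit 0) .nil) .nil))) 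
(.lf (nat_lit 540579) (.g (nat_lit 3612) (.e (nat_lit 90170) (nat_lit 13) (.e (nat_lit 172067) (nat_lit 3) (.e (nat_lit 204831) (nat_lit 18) (.e (nat_lit 57692) (nat_lit 156) (.e (nat_lit 163875) (nat_lit 3) (.e (nat_lit 204837) (nat_lit 20) (.e (nat_lit 114715) (nat_lit 22) .nil))))))) (.g (nat_lit 1) (.e (nat_lit 270936) (nat_lit 0) .nil) .nil)))))) 
(.nd (nat_lit 7) (.nd (nat_lit 8) (.nd (nat_lit 9) 
(.lf (nat_lit 539747) (.g (nat_lit 715) (.e (nat_lit 81942) (nat_lit 20) (.e (nat_lit 2391) (nat_lit 156) (.e (nat_lit 819221) (nat_lit 6) (.e (nat_lit 188428) (nat_lit 20) (.e (nat_lit 3281) (nat_lit 200) (.e (nat_lit 564992) (nat_lit 6) .nil)))))) (.g (nat_lit 1) (.e (nat_lit 269225) (nat_lit 0) .nil) .nil))) 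
(.lf (nat_lit 540259) (.g (nat_lit 1356) (.e (nat_lit 98048) (nat_lit 9) (.e (nat_lit 3062) (nat_lit 190) (.e (nat_lit 475198) (nat_lit 40) (.e (nat_lit 704589) (nat_lit 3) .nil)))) (.g (nat_lit 0) (.e (nat_lit 270454) (nat_lit 0) .nil) .nil)))) (.nd (nat_lit 9) 
(.lf (nat_lit 540003) (.g (nat_lit 2040) (.e (nat_lit 81951) (nat_lit 22) (.e (nat_lit 90134) (nat_lit 9) (.e (nat_lit 3098) (nat_lit 192) (.e (nat_lit 491564) (nat_lit 12) (.e (nat_lit 385073) (nat_lit 31) .nil))))) (.g (nat_lit 0) (.e (nat_lit 269693) (nat_lit 0) .nil) .nil))) 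
(.lf (nat_lit 540515) (.g (nat_lit 1963) (.e (nat_lit 90168) (nat_lit 13) (.e (nat_lit 172120) (nat_lit 12) (.e (nat_lit 475185) (nat_lit 29) (.e (nat_lit 557105) (nat_lit 14) .nil)))) (.g (nat_lit 0) (.e (nat_lit 270852) (nat_lit 0) .nil) .nil))))) (.nd (nat_lit 8) (.nd (nat_lit 9) 
(.lf (nat_lit 539875) (.g (nat_lit 1485) (.e (nat_lit 81946) (nat_lit 20) (.e (nat_lit 2390) (nat_lit 156) (.e (nat_lit 819204) (nat_lit 0) (.e (nat_lit 3027) (nat_lit 187) (.e (nat_lit 458496) (nat_lit 8) (.e (nat_lit 564992) (nat_lit 6) .nil)))))) (.g (nat_lit 1) (.e (nat_lit 269456) (nat_lit 0) .nil) .nil))) 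
(.lf (nat_lit 540387) (.g (nat_lit 1737) (.e (nat_lit 90166) (nat_lit 13) (.e (nat_lit 172113) (nat_lit 10) (.e (nat_lit 434247) (nat_lit 28) (.e (nat_lit 573477) (nat_lit 12) (.e (nat_lit 57574) (nat_lit 55) .nil))))) (.g (nat_lit 0) (.e (nat_lit 270694) (nat_lit 0) .nil) .nil)))) (.nd (nat_lit 9) 
(.lf (nat_lit 540131) (.g (nat_lit 2908) (.e (nat_lit 81957) (nat_lit 24) (.e (nat_lit 123197) (nat_lit 266) (.e (nat_lit 57435) (nat_lit 17) (.e (nat_lit 376835) (nat_lit 0) (.e (nat_lit 3632) (nat_lit 227) (.e (nat_lit 778326) (nat_lit 6) .nil)))))) (.g (nat_lit 1) (.e (nat_lit 269927) (nat_lit 0) .nil) .nil))) 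
(.lf (nat_lit 540643) (.g (nat_lit 3208) (.e (nat_lit 90170) (nat_lit 13) (.e (nat_lit 172106) (nat_lit 10) (.e (nat_lit 434231) (nat_lit 23) (.e (nat_lit 532535) (nat_lit 9) (.e (nat_lit 335985) (nat_lit 1) (.e (nat_lit 57927) (nat_lit 282) (.e (nat_lit 171776) (nat_lit 63) .nil))))))) (.g (nat_lit 1) (.e (nat_lit 271000) (nat_lit 0) .nil) .nil)))))))) 
(.nd (nat_lit 5) (.nd (nat_lit 6) (.nd (nat_lit 7) (.nd (nat_lit 8) (.nd (nat_lit 9) 
(.lf (nat_lit 539667) (.g (nat_lit 427) (.e (nat_lit 81939) (nat_lit 20) (.e (nat_lit 2390) (nat_lit 156) (.e (nat_lit 819221) (nat_lit 6) (.e (nat_lit 188428) (nat_lit 20) (.e (nat_lit 3282) (nat_lit 200) (.e (nat_lit 564992) (nat_lit 6) .nil)))))) (.g (nat_lit 1) (.e (nat_lit 269121) (nat_lit 0) .nil) .nil))) 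
(.lf (nat_lit 540179) (.g (nat_lit 1335) (.e (nat_lit 90130) (nat_lit 9) (.e (nat_lit 2830) (nat_lit 182) (.e (nat_lit 409646) (nat_lit 18) (.e (nat_lit 303117) (nat_lit 2) .nil)))) (.g (nat_lit 0) (.e (nat_lit 270165) (nat_lit 0) .nil) .nil)))) (.nd (nat_lit 9) 
(.lf (nat_lit 539923) (.g (nat_lit 847) (.e (nat_lit 81947) (nat_lit 20) (.e (nat_lit 1886) (nat_lit 127) (.e (nat_lit 581652) (nat_lit 5) (.e (nat_lit 180285) (nat_lit 45) (.e (nat_lit 2578) (nat_lit 161) (.e (nat_lit 48896) (nat_lit 6) .nil)))))) (.g (nat_lit 1) (.e (nat_lit 269523) (nat_lit 0) .nil) .nil))) 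
(.lf (nat_lit 540435) (.g (nat_lit 2254) (.e (nat_lit 90167) (nat_lit 13) (.e (nat_lit 172111) (nat_lit 10) (.e (nat_lit 434247) (nat_lit 28) (.e (nat_lit 573477) (nat_lit 12) (.e (nat_lit 57574) (nat_lit 55) (.e (nat_lit 778466) (nat_lit 11) (.e (nat_lit 24603) (nat_lit 2) .nil))))))) (.g (nat_lit 1) (.e (nat_lit 270752) (nat_lit 0) .nil) .nil))))) (.nd (nat_lit 8) (.nd (nat_lit 9) 
(.lf (nat_lit 539795) (.g (nat_lit 886) (.e (nat_lit 81943) (nat_lit 20) (.e (nat_lit 2390) (nat_lit 156) (.e (nat_lit 819221) (nat_lit 6) (.e (nat_lit 188427) (nat_lit 20) (.e (nat_lit 3279) (nat_lit 200) (.e (nat_lit 564992) (nat_lit 6) .nil)))))) (.g (nat_lit 1) (.e (nat_lit 269346) (nat_lit 0) .nil) .nil))) 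
(.lf (nat_lit 540307) (.g (nat_lit 2916) (.e (nat_lit 90158) (nat_lit 11) (.e (nat_lit 24628) (nat_lit 9) (.e (nat_lit 336456) (nat_lit 34) (.e (nat_lit 483363) (nat_lit 18) (.e (nat_lit 57853) (nat_lit 252) (.e (nat_lit 57370) (nat_lit 2) .nil)))))) (.g (nat_lit 1) (.e (nat_lit 270536) (nat_lit 0) .nil) .nil)))) (.nd (nat_lit 9) 
(.lf (nat_lit 540051) (.g (nat_lit 1163) (.e (nat_lit 81954) (nat_lit 23) (.e (nat_lit 98384) (nat_lit 32) (.e (nat_lit 475209) (nat_lit 41) .nil))) (.g (nat_lit 0) (.e (nat_lit 269812) (nat_lit 0) .nil) .nil))) 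
(.lf (nat_lit 540563) (.g (nat_lit 4296) (.e (nat_lit 90170) (nat_lit 13) (.e (nat_lit 172049) (nat_lit 0) (.e (nat_lit 3406) (nat_lit 212) (.e (nat_lit 655375) (nat_lit 3) (.e (nat_lit 163979) (nat_lit 30) (.e (nat_lit 573493) (nat_lit 15) (.e (nat_lit 81953) (nat_lit 22) .nil))))))) (.g (nat_lit 1) (.e (nat_lit 270911) (nat_lit 0) .nil) .nil)))))) 
(.nd (nat_lit 7) (.nd (nat_lit 8) (.nd (nat_lit 9) 
(.lf (nat_lit 539731) (.g (nat_lit 744) (.e (nat_lit 81942) (nat_lit 20) (.e (nat_lit 2390) (nat_lit 156) (.e (nat_lit 819221) (nat_lit 6) (.e (nat_lit 188431) (nat_lit 20) (.e (nat_lit 3282) (nat_lit 200) (.e (nat_lit 564992) (nat_lit 6) .nil)))))) (.g (nat_lit 1) (.e (nat_lit 269207) (nat_lit 0) .nil) .nil))) 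
(.lf (nat_lit 540243) (.g (nat_lit 1665) (.e (nat_lit 90134) (nat_lit 9) (.e (nat_lit 3097) (nat_lit 192) (.e (nat_lit 491566) (nat_lit 12) (.e (nat_lit 385073) (nat_lit 31) (.e (nat_lit 573491) (nat_lit 15) .nil))))) (.g (nat_lit 0) (.e (nat_lit 270372) (nat_lit 0) .nil) .nil)))) (.nd (nat_lit 9) 
(.lf (nat_lit 539987) (.g (nat_lit 1145) (.e (nat_lit 81947) (nat_lit 20) (.e (nat_lit 2391) (nat_lit 156) (.e (nat_lit 819221) (nat_lit 6) (.e (nat_lit 188428) (nat_lit 20) (.e (nat_lit 3282) (nat_lit 200) (.e (nat_lit 564992) (nat_lit 6) .nil)))))) (.g (nat_lit 1) (.e (nat_lit 269614) (nat_lit 0) .nil) .nil))) 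
(.lf (nat_lit 540499) (.g (nat_lit 2072) (.e (nat_lit 90168) (nat_lit 13) (.e (nat_lit 172097) (nat_lit 9) (.e (nat_lit 426125) (nat_lit 2) (.e (nat_lit 196661) (nat_lit 12) (.e (nat_lit 57714) (nat_lit 176) .nil))))) (.g (nat_lit 0) (.e (nat_lit 270835) (nat_lit 0) .nil) .nil))))) (.nd (nat_lit 8) (.nd (nat_lit 9) 
(.lf (nat_lit 539859) (.g (nat_lit 954) (.e (nat_lit 81946) (nat_lit 20) (.e (nat_lit 2390) (nat_lit 156) (.e (nat_lit 819203) (nat_lit 0) (.e (nat_lit 3004) (nat_lit 186) (.e (nat_lit 450304) (nat_lit 2) (.e (nat_lit 98048) (nat_lit 6) .nil)))))) (.g (nat_lit 1) (.e (nat_lit 269436) (nat_lit 0) .nil) .nil))) 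
(.lf (nat_lit 540371) (.g (nat_lit 557) (.e (nat_lit 90165) (nat_lit 12) (.e (nat_lit 164023) (nat_lit 46) (.e (nat_lit 704744) (nat_lit 12) .nil))) (.g (nat_lit 0) (.e (nat_lit 270657) (nat_lit 0) .nil) .nil)))) (.nd (nat_lit 9) 
(.lf (nat_lit 540115) (.g (nat_lit 1906) (.e (nat_lit 81956) (nat_lit 23) (.e (nat_lit 98387) (nat_lit 33) (.e (nat_lit 491566) (nat_lit 12) (.e (nat_lit 385073) (nat_lit 31) (.e (nat_lit 573491) (nat_lit 15) .nil))))) (.g (nat_lit 1) (.e (nat_lit 269909) (nat_lit 0) .nil) .nil))) 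
(.lf (nat_lit 540627) (.g (nat_lit 3763) (.e (nat_lit 90170) (nat_lit 13) (.e (nat_lit 172106) (nat_lit 10) (.e (nat_lit 434231) (nat_lit 23) (.e (nat_lit 532529) (nat_lit 9) (.e (nat_lit 343808) (nat_lit 1) (.e (nat_lit 57931) (nat_lit 282) (.e (nat_lit 171776) (nat_lit 63) .nil))))))) (.g (nat_lit 1) (.e (nat_lit 270984) (nat_lit 0) .nil) .nil))))))) 
(.nd (nat_lit 6) (.nd (nat_lit 7) (.nd (nat_lit 8) (.nd (nat_lit 9) 
(.lf (nat_lit 539699) (.g (nat_lit 937) (.e (nat_lit 81939) (nat_lit 20) (.e (nat_lit 2391) (nat_lit 156) (.e (nat_lit 819221) (nat_lit 6) (.e (nat_lit 188431) (nat_lit 20) (.e (nat_lit 3281) (nat_lit 200) .nil))))) (.g (nat_lit 0) (.e (nat_lit 269162) (nat_lit 0) .nil) .nil))) 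
(.lf (nat_lit 540211) (.g (nat_lit 2530) (.e (nat_lit 90130) (nat_lit 9) (.e (nat_lit 2830) (nat_lit 182) (.e (nat_lit 409649) (nat_lit 18) (.e (nat_lit 303118) (nat_lit 3) (.e (nat_lit 212736) (nat_lit 26) (.e (nat_lit 336158) (nat_lit 9) (.e (nat_lit 336012) (nat_lit 2) .nil))))))) (.g (nat_lit 1) (.e (nat_lit 270231) (nat_lit 0) .nil) .nil)))) (.nd (nat_lit 9) 
(.lf (nat_lit 539955) (.g (nat_lit 782) (.e (nat_lit 81947) (nat_lit 20) (.e (nat_lit 2390) (nat_lit 156) (.e (nat_lit 819221) (nat_lit 6) (.e (nat_lit 188428) (nat_lit 20) (.e (nat_lit 3282) (nat_lit 200) (.e (nat_lit 564992) (nat_lit 6) .nil)))))) (.g (nat_lit 1) (.e (nat_lit 269565) (nat_lit 0) .nil) .nil))) 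
(.lf (nat_lit 540467) (.g (nat_lit 3605) (.e (nat_lit 90167) (nat_lit 13) (.e (nat_lit 172126) (nat_lit 14) (.e (nat_lit 491537) (nat_lit 2) (.e (nat_lit 90185) (nat_lit 17) (.e (nat_lit 237569) (nat_lit 0) .nil))))) (.g (nat_lit 0) (.e (nat_lit 270788) (nat_lit 0) .nil) .nil))))) (.nd (nat_lit 8) (.nd (nat_lit 9) 
(.lf (nat_lit 539827) (.g (nat_lit 1321) (.e (nat_lit 81943) (nat_lit 20) (.e (nat_lit 2391) (nat_lit 156) (.e (nat_lit 819221) (nat_lit 6) (.e (nat_lit 188427) (nat_lit 20) (.e (nat_lit 3282) (nat_lit 200) (.e (nat_lit 564992) (nat_lit 6) .nil)))))) (.g (nat_lit 1) (.e (nat_lit 269385) (nat_lit 0) .nil) .nil))) 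
(.lf (nat_lit 540339) (.g (nat_lit 3676) (.e (nat_lit 90159) (nat_lit 11) (.e (nat_lit 24627) (nat_lit 9) (.e (nat_lit 336454) (nat_lit 34) (.e (nat_lit 483365) (nat_lit 18) (.e (nat_lit 57844) (nat_lit 252) (.e (nat_lit 57371) (nat_lit 2) .nil)))))) (.g (nat_lit 1) (.e (nat_lit 270572) (nat_lit 0) .nil) .nil)))) (.nd (nat_lit 9) 
(.lf (nat_lit 540083) (.g (nat_lit 2147) (.e (nat_lit 81955) (nat_lit 23) (.e (nat_lit 98386) (nat_lit 32) (.e (nat_lit 475197) (nat_lit 40) (.e (nat_lit 704589) (nat_lit 3) (.e (nat_lit 163976) (nat_lit 30) .nil))))) (.g (nat_lit 0) (.e (nat_lit 269852) (nat_lit 0) .nil) .nil))) 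
(.lf (nat_lit 540595) (.g (nat_lit 3954) (.e (nat_lit 90170) (nat_lit 13) (.e (nat_lit 172106) (nat_lit 10) (.e (nat_lit 434231) (nat_lit 23) (.e (nat_lit 532499) (nat_lit 1) (.e (nat_lit 65280) (nat_lit 233) (.e (nat_lit 2553) (nat_lit 159) (.e (nat_lit 24605) (nat_lit 2) .nil))))))) (.g (nat_lit 1) (.e (nat_lit 270952) (nat_lit 0) .nil) .nil)))))) 
(.nd (nat_lit 7) (.nd (nat_lit 8) (.nd (nat_lit 9) 
(.lf (nat_lit 539763) (.g (nat_lit 1347) (.e (nat_lit 81943) (nat_lit 20) (.e (nat_lit 1842) (nat_lit 123) (.e (nat_lit 548889) (nat_lit 9) (.e (nat_lit 65552) (nat_lit 0) .nil)))) (.g (nat_lit 0) (.e (nat_lit 269285) (nat_lit 0) .nil) .nil))) 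
(.lf (nat_lit 540275) (.g (nat_lit 1383) (.e (nat_lit 90157) (nat_lit 11) (.e (nat_lit 24625) (nat_lit 9) (.e (nat_lit 336456) (nat_lit 34) (.e (nat_lit 483365) (nat_lit 18) .nil)))) (.g (nat_lit 0) (.e (nat_lit 270478) (nat_lit 0) .nil) .nil)))) (.nd (nat_lit 9) 
(.lf (nat_lit 540019) (.g (nat_lit 457) (.e (nat_lit 81953) (nat_lit 22) (.e (nat_lit 90134) (nat_lit 9) (.e (nat_lit 3096) (nat_lit 192) .nil))) (.g (nat_lit 0) (.e (nat_lit 269727) (nat_lit 0) .nil) .nil))) 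
(.lf (nat_lit 540531) (.g (nat_lit 4461) (.e (nat_lit 90169) (nat_lit 13) (.e (nat_lit 172094) (nat_lit 9) (.e (nat_lit 426140) (nat_lit 3) (.e (nat_lit 204845) (nat_lit 24) (.e (nat_lit 319530) (nat_lit 16) (.e (nat_lit 286733) (nat_lit 2) .nil)))))) (.g (nat_lit 1) (.e (nat_lit 270876) (nat_lit 0) .nil) .nil))))) (.nd (nat_lit 8) (.nd (nat_lit 9) 
(.lf (nat_lit 539891) (.g (nat_lit 1348) (.e (nat_lit 81946) (nat_lit 20) (.e (nat_lit 2391) (nat_lit 156) (.e (nat_lit 819203) (nat_lit 0) (.e (nat_lit 3027) (nat_lit 187) (.e (nat_lit 458496) (nat_lit 8) (.e (nat_lit 564992) (nat_lit 6) .nil)))))) (.g (nat_lit 1) (.e (nat_lit 269478) (nat_lit 0) .nil) .nil))) 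
(.lf (nat_lit 540403) (.g (nat_lit 3377) (.e (nat_lit 90166) (nat_lit 13) (.e (nat_lit 172133) (nat_lit 15) (.e (nat_lit 2059) (nat_lit 142) (.e (nat_lit 704589) (nat_lit 3) (.e (nat_lit 163979) (nat_lit 30) .nil))))) (.g (nat_lit 0) (.e (nat_lit 270713) (nat_lit 0) .nil) .nil)))) (.nd (nat_lit 9) 
(.lf (nat_lit 540147) (.g (nat_lit 1750) (.e (nat_lit 98048) (nat_lit 0) (.e (nat_lit 375) (nat_lit 32) (.e (nat_lit 426173) (nat_lit 7) (.e (nat_lit 409615) (nat_lit 10) .nil)))) (.g (nat_lit 0) (.e (nat_lit 269964) (nat_lit 0) .nil) .nil))) 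
(.lf (nat_lit 540659) (.g (nat_lit 3197) (.e (nat_lit 90170) (nat_lit 13) (.e (nat_lit 172106) (nat_lit 10) (.e (nat_lit 434231) (nat_lit 23) (.e (nat_lit 532569) (nat_lit 16) (.e (nat_lit 401408) (nat_lit 0) .nil))))) (.g (nat_lit 0) (.e (nat_lit 271016) (nat_lit 0) .nil) .nil))))))))) (.nd (nat_lit 4) (.nd (nat_lit 5) (.nd (nat_lit 6) (.nd (nat_lit 7) (.nd (nat_lit 8) (.nd (nat_lit 9) 
(.lf (nat_lit 539659) (.g (nat_lit 785) (.e (nat_lit 81939) (nat_lit 20) (.e (nat_lit 2390) (nat_lit 156) (.e (nat_lit 819204) (nat_lit 0) (.e (nat_lit 3021) (nat_lit 187) (.e (nat_lit 458496) (nat_lit 8) (.e (nat_lit 564992) (nat_lit 6) .nil)))))) (.g (nat_lit 1) (.e (nat_lit 269113) (nat_lit 0) .nil) .nil))) 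
(.lf (nat_lit 540171) (.g (nat_lit 754) (.e (nat_lit 90130) (nat_lit 9) (.e (nat_lit 2830) (nat_lit 182) (.e (nat_lit 409643) (nat_lit 18) (.e (nat_lit 303112) (nat_lit 0) .nil)))) (.g (nat_lit 0) (.e (nat_lit 270155) (nat_lit 0) .nil) .nil)))) (.nd (nat_lit 9) 
(.lf (nat_lit 539915) (.g (nat_lit 2151) (.e (nat_lit 81947) (nat_lit 20) (.e (nat_lit 1801) (nat_lit 119) (.e (nat_lit 516179) (nat_lit 15) (.e (nat_lit 475199) (nat_lit 40) (.e (nat_lit 704589) (nat_lit 3) .nil))))) (.g (nat_lit 0) (.e (nat_lit 269506) (nat_lit 0) .nil) .nil))) 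
(.lf (nat_lit 540427) (.g (nat_lit 2175) (.e (nat_lit 90167) (nat_lit 13) (.e (nat_lit 172067) (nat_lit 3) (.e (nat_lit 204838) (nat_lit 20) (.e (nat_lit 114718) (nat_lit 23) (.e (nat_lit 98334) (nat_lit 18) .nil))))) (.g (nat_lit 0) (.e (nat_lit 270737) (nat_lit 0) .nil) .nil))))) (.nd (nat_lit 8) (.nd (nat_lit 9) 
(.lf (nat_lit 539787) (.g (nat_lit 985) (.e (nat_lit 81943) (nat_lit 20) (.e (nat_lit 2390) (nat_lit 156) (.e (nat_lit 819204) (nat_lit 0) (.e (nat_lit 2998) (nat_lit 186) (.e (nat_lit 450304) (nat_lit 2) (.e (nat_lit 98048) (nat_lit 6) .nil)))))) (.g (nat_lit 1) (.e (nat_lit 269335) (nat_lit 0) .nil) .nil))) 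
(.lf (nat_lit 540299) (.g (nat_lit 2252) (.e (nat_lit 90158) (nat_lit 11) (.e (nat_lit 24628) (nat_lit 9) (.e (nat_lit 336414) (nat_lit 27) (.e (nat_lit 426503) (nat_lit 27) (.e (nat_lit 335986) (nat_lit 1) .nil))))) (.g (nat_lit 0) (.e (nat_lit 270528) (nat_lit 0) .nil) .nil)))) (.nd (nat_lit 9) 
(.lf (nat_lit 540043) (.g (nat_lit 866) (.e (nat_lit 81954) (nat_lit 23) (.e (nat_lit 98365) (nat_lit 26) (.e (nat_lit 426145) (nat_lit 4) .nil))) (.g (nat_lit 0) (.e (nat_lit 269780) (nat_lit 0) .nil) .nil))) 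
(.lf (nat_lit 540555) (.g (nat_lit 3281) (.e (nat_lit 90169) (nat_lit 13) (.e (nat_lit 172122) (nat_lit 13) (.e (nat_lit 483341) (nat_lit 9) (.e (nat_lit 426107) (nat_lit 1) (.e (nat_lit 164403) (nat_lit 256) (.e (nat_lit 57373) (nat_lit 2) .nil)))))) (.g (nat_lit 1) (.e (nat_lit 270900) (nat_lit 0) .nil) .nil)))))) (.nd (nat_lit 7) (.nd (nat_lit 8) (.nd (nat_lit 9) 
(.lf (nat_lit 539723) (.g (nat_lit 1091) (.e (nat_lit 81942) (nat_lit 20) (.e (nat_lit 2390) (nat_lit 156) (.e (nat_lit 819204) (nat_lit 0) (.e (nat_lit 3027) (nat_lit 187) (.e (nat_lit 458496) (nat_lit 8) (.e (nat_lit 564992) (nat_lit 6) .nil)))))) (.g (nat_lit 1) (.e (nat_lit 269198) (nat_lit 0) .nil) .nil))) 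
(.lf (nat_lit 540235) (.g (nat_lit 3705) (.e (nat_lit 90134) (nat_lit 9) (.e (nat_lit 3019) (nat_lit 187) (.e (nat_lit 450586) (nat_lit 10) (.e (nat_lit 573474) (nat_lit 12) (.e (nat_lit 57572) (nat_lit 54) .nil))))) (.g (nat_lit 0) (.e (nat_lit 270358) (nat_lit 0) .nil) .nil)))) (.nd (nat_lit 9) 
(.lf (nat_lit 539979) (.g (nat_lit 1497) (.e (nat_lit 81947) (nat_lit 20) (.e (nat_lit 2391) (nat_lit 156) (.e (nat_lit 819204) (nat_lit 0) (.e (nat_lit 3028) (nat_lit 187) (.e (nat_lit 458496) (nat_lit 8) (.e (nat_lit 564992) (nat_lit 6) .nil)))))) (.g (nat_lit 1) (.e (nat_lit 269604) (nat_lit 0) .nil) .nil))) 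
(.lf (nat_lit 540491) (.g (nat_lit 1668) (.e (nat_lit 90168) (nat_lit 13) (.e (nat_lit 172067) (nat_lit 3) (.e (nat_lit 204838) (nat_lit 20) (.e (nat_lit 114717) (nat_lit 23) .nil)))) (.g (nat_lit 0) (.e (nat_lit 270825) (nat_lit 0) .nil) .nil))))) (.nd (nat_lit 8) (.nd (nat_lit 9) 
(.lf (nat_lit 539851) (.g (nat_lit 2778) (.e (nat_lit 81946) (nat_lit 20) (.e (nat_lit 1858) (nat_lit 124) (.e (nat_lit 557070) (nat_lit 9) (.e (nat_lit 2744) (nat_lit 174) (.e (nat_lit 253992) (nat_lit 11) (.e (nat_lit 16411) (nat_lit 2) (.e (nat_lit 196671) (nat_lit 15) .nil))))))) (.g (nat_lit 1) (.e (nat_lit 269417) (nat_lit 0) .nil) .nil))) 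
(.lf (nat_lit 540363) (.g (nat_lit 1244) (.e (nat_lit 90160) (nat_lit 11) (.e (nat_lit 24630) (nat_lit 9) (.e (nat_lit 336456) (nat_lit 34) (.e (nat_lit 483365) (nat_lit 18) .nil)))) (.g (nat_lit 0) (.e (nat_lit 270621) (nat_lit 0) .nil) .nil)))) (.nd (nat_lit 9) 
(.lf (nat_lit 540107) (.g (nat_lit 744) (.e (nat_lit 81956) (nat_lit 23) (.e (nat_lit 98359) (nat_lit 26) (.e (nat_lit 426394) (nat_lit 15) .nil))) (.g (nat_lit 0) (.e (nat_lit 269891) (nat_lit 0) .nil) .nil))) 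
(.lf (nat_lit 540619) (.g (nat_lit 4238) (.e (nat_lit 90170) (nat_lit 13) (.e (nat_lit 172106) (nat_lit 10) (.e (nat_lit 434231) (nat_lit 23) (.e (nat_lit 532525) (nat_lit 8) (.e (nat_lit 327717) (nat_lit 17) (.e (nat_lit 294928) (nat_lit 2) .nil)))))) (.g (nat_lit 1) (.e (nat_lit 270976) (nat_lit 0) .nil) .nil))))))) (.nd (nat_lit 6) (.nd (nat_lit 7) (.nd (nat_lit 8) (.nd (nat_lit 9) 
(.lf (nat_lit 539691) (.g (nat_lit 1094) (.e (nat_lit 81939) (nat_lit 20) (.e (nat_lit 2391) (nat_lit 156) (.e (nat_lit 819204) (nat_lit 0) (.e (nat_lit 3028) (nat_lit 187) (.e (nat_lit 458496) (nat_lit 8) (.e (nat_lit 564992) (nat_lit 6) .nil)))))) (.g (nat_lit 1) (.e (nat_lit 269154) (nat_lit 0) .nil) .nil))) 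
(.lf (nat_lit 540203) (.g (nat_lit 1733) (.e (nat_lit 90130) (nat_lit 9) (.e (nat_lit 2830) (nat_lit 182) (.e (nat_lit 409649) (nat_lit 18) (.e (nat_lit 303107) (nat_lit 0) .nil)))) (.g (nat_lit 0) (.e (nat_lit 270212) (nat_lit 0) .nil) .nil)))) (.nd (nat_lit 9) 
(.lf (nat_lit 539947) (.g (nat_lit 1593) (.e (nat_lit 81947) (nat_lit 20) (.e (nat_lit 2390) (nat_lit 156) (.e (nat_lit 819204) (nat_lit 0) (.e (nat_lit 3015) (nat_lit 187) (.e (nat_lit 458496) (nat_lit 8) (.e (nat_lit 564992) (nat_lit 6) .nil)))))) (.g (nat_lit 1) (.e (nat_lit 269557) (nat_lit 0) .nil) .nil))) 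
(.lf (nat_lit 540459) (.g (nat_lit 1576) (.e (nat_lit 90167) (nat_lit 13) (.e (nat_lit 172126) (nat_lit 14) (.e (nat_lit 491537) (nat_lit 2) (.e (nat_lit 90133) (nat_lit 9) .nil)))) (.g (nat_lit 0) (.e (nat_lit 270776) (nat_lit 0) .nil) .nil))))) (.nd (nat_lit 8) (.nd (nat_lit 9) 
(.lf (nat_lit 539819) (.g (nat_lit 1452) (.e (nat_lit 81943) (nat_lit 20) (.e (nat_lit 2391) (nat_lit 156) (.e (nat_lit 819204) (nat_lit 0) (.e (nat_lit 3021) (nat_lit 187) (.e (nat_lit 458496) (nat_lit 8) (.e (nat_lit 564992) (nat_lit 6) .nil)))))) (.g (nat_lit 1) (.e (nat_lit 269376) (nat_lit 0) .nil) .nil))) 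
(.lf (nat_lit 540331) (.g (nat_lit 3701) (.e (nat_lit 90158) (nat_lit 11) (.e (nat_lit 24665) (nat_lit 14) (.e (nat_lit 401414) (nat_lit 0) (.e (nat_lit 3272) (nat_lit 199) (.e (nat_lit 548898) (nat_lit 14) .nil))))) (.g (nat_lit 0) (.e (nat_lit 270560) (nat_lit 0) .nil) .nil)))) (.nd (nat_lit 9) 
(.lf (nat_lit 540075) (.g (nat_lit 3492) (.e (nat_lit 81955) (nat_lit 23) (.e (nat_lit 98350) (nat_lit 24) (.e (nat_lit 409649) (nat_lit 18) (.e (nat_lit 303117) (nat_lit 2) (.e (nat_lit 196672) (nat_lit 15) .nil))))) (.g (nat_lit 1) (.e (nat_lit 269840) (nat_lit 0) .nil) .nil))) 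
(.lf (nat_lit 540587) (.g (nat_lit 3371) (.e (nat_lit 90170) (nat_lit 13) (.e (nat_lit 172106) (nat_lit 10) (.e (nat_lit 434231) (nat_lit 23) (.e (nat_lit 532481) (nat_lit 0) (.e (nat_lit 6203) (nat_lit 332) .nil))))) (.g (nat_lit 0) (.e (nat_lit 270944) (nat_lit 0) .nil) .nil)))))) (.nd (nat_lit 7) (.nd (nat_lit 8) (.nd (nat_lit 9) 
(.lf (nat_lit 539755) (.g (nat_lit 950) (.e (nat_lit 81943) (nat_lit 20) (.e (nat_lit 1842) (nat_lit 123) (.e (nat_lit 548873) (nat_lit 5) (.e (nat_lit 1562) (nat_lit 110) (.e (nat_lit 360192) (nat_lit 0) .nil))))) (.g (nat_lit 0) (.e (nat_lit 269255) (nat_lit 0) .nil) .nil))) 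
(.lf (nat_lit 540267) (.g (nat_lit 2225) (.e (nat_lit 90156) (nat_lit 11) (.e (nat_lit 24630) (nat_lit 9) (.e (nat_lit 336454) (nat_lit 34) (.e (nat_lit 483363) (nat_lit 18) (.e (nat_lit 57854) (nat_lit 252) .nil))))) (.g (nat_lit 0) (.e (nat_lit 270466) (nat_lit 0) .nil) .nil)))) (.nd (nat_lit 9) 
(.lf (nat_lit 540011) (.g (nat_lit 724) (.e (nat_lit 81951) (nat_lit 22) (.e (nat_lit 90185) (nat_lit 17) (.e (nat_lit 237584) (nat_lit 1) .nil))) (.g (nat_lit 0) (.e (nat_lit 269706) (nat_lit 0) .nil) .nil))) 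
(.lf (nat_lit 540523) (.g (nat_lit 1815) (.e (nat_lit 90168) (nat_lit 13) (.e (nat_lit 172123) (nat_lit 13) (.e (nat_lit 483337) (nat_lit 9) (.e (nat_lit 426107) (nat_lit 1) (.e (nat_lit 164402) (nat_lit 256) .nil))))) (.g (nat_lit 0) (.e (nat_lit 270860) (nat_lit 0) .nil) .nil))))) (.nd (nat_lit 8) (.nd (nat_lit 9) 
(.lf (nat_lit 539883) (.g (nat_lit 1155) (.e (nat_lit 81946) (nat_lit 20) (.e (nat_lit 2390) (nat_lit 156) (.e (nat_lit 819221) (nat_lit 6) (.e (nat_lit 188431) (nat_lit 20) (.e (nat_lit 3282) (nat_lit 200) (.e (nat_lit 564992) (nat_lit 6) .nil)))))) (.g (nat_lit 1) (.e (nat_lit 269466) (nat_lit 0) .nil) .nil))) 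
(.lf (nat_lit 540395) (.g (nat_lit 757) (.e (nat_lit 90166) (nat_lit 13) (.e (nat_lit 172120) (nat_lit 12) (.e (nat_lit 475185) (nat_lit 29) .nil))) (.g (nat_lit 0) (.e (nat_lit 270704) (nat_lit 0) .nil) .nil)))) (.nd (nat_lit 9) 
(.lf (nat_lit 540139) (.g (nat_lit 658) (.e (nat_lit 81960) (nat_lit 25) (.e (nat_lit 139264) (nat_lit 0) (.e (nat_lit 473) (nat_lit 36) (.e (nat_lit 458769) (nat_lit 16) (.e (nat_lit 164108) (nat_lit 116) (.e (nat_lit 786176) (nat_lit 6) .nil)))))) (.g (nat_lit 1) (.e (nat_lit 269938) (nat_lit 0) .nil) .nil))) 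
(.lf (nat_lit 540651) (.g (nat_lit 4217) (.e (nat_lit 90170) (nat_lit 13) (.e (nat_lit 172106) (nat_lit 10) (.e (nat_lit 434231) (nat_lit 23) (.e (nat_lit 532535) (nat_lit 9) (.e (nat_lit 335991) (nat_lit 1) (.e (nat_lit 57926) (nat_lit 282) (.e (nat_lit 171776) (nat_lit 63) .nil))))))) (.g (nat_lit 1) (.e (nat_lit 271008) (nat_lit 0) .nil) .nil)))))))) 
(.nd (nat_lit 5) (.nd (nat_lit 6) (.nd (nat_lit 7) (.nd (nat_lit 8) (.nd (nat_lit 9) 
(.lf (nat_lit 539675) (.g (nat_lit 853) (.e (nat_lit 81939) (nat_lit 20) (.e (nat_lit 2391) (nat_lit 156) (.e (nat_lit 819203) (nat_lit 0) (.e (nat_lit 3004) (nat_lit 186) (.e (nat_lit 450304) (nat_lit 2) (.e (nat_lit 98048) (nat_lit 6) .nil)))))) (.g (nat_lit 1) (.e (nat_lit 269132) (nat_lit 0) .nil) .nil))) 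
(.lf (nat_lit 540187) (.g (nat_lit 973) (.e (nat_lit 90130) (nat_lit 9) (.e (nat_lit 2830) (nat_lit 182) (.e (nat_lit 409647) (nat_lit 18) (.e (nat_lit 303119) (nat_lit 3) .nil)))) (.g (nat_lit 0) (.e (nat_lit 270175) (nat_lit 0) .nil) .nil)))) (.nd (nat_lit 9) 
(.lf (nat_lit 539931) (.g (nat_lit 1424) (.e (nat_lit 81947) (nat_lit 20) (.e (nat_lit 2281) (nat_lit 150) (.e (nat_lit 770072) (nat_lit 8) (.e (nat_lit 65609) (nat_lit 10) .nil)))) (.g (nat_lit 0) (.e (nat_lit 269531) (nat_lit 0) .nil) .nil))) 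
(.lf (nat_lit 540443) (.g (nat_lit 693) (.e (nat_lit 90167) (nat_lit 13) (.e (nat_lit 172120) (nat_lit 12) (.e (nat_lit 475179) (nat_lit 24) .nil))) (.g (nat_lit 0) (.e (nat_lit 270760) (nat_lit 0) .nil) .nil))))) (.nd (nat_lit 8) (.nd (nat_lit 9) 
(.lf (nat_lit 539803) (.g (nat_lit 1238) (.e (nat_lit 81943) (nat_lit 20) (.e (nat_lit 2391) (nat_lit 156) (.e (nat_lit 819203) (nat_lit 0) (.e (nat_lit 2989) (nat_lit 186) (.e (nat_lit 450304) (nat_lit 2) (.e (nat_lit 98048) (nat_lit 6) .nil)))))) (.g (nat_lit 1) (.e (nat_lit 269355) (nat_lit 0) .nil) .nil))) 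
(.lf (nat_lit 540315) (.g (nat_lit 789) (.e (nat_lit 90158) (nat_lit 11) (.e (nat_lit 24630) (nat_lit 9) (.e (nat_lit 336368) (nat_lit 27) (.e (nat_lit 426501) (nat_lit 27) .nil)))) (.g (nat_lit 0) (.e (nat_lit 270544) (nat_lit 0) .nil) .nil)))) (.nd (nat_lit 9) 
(.lf (nat_lit 540059) (.g (nat_lit 613) (.e (nat_lit 81954) (nat_lit 23) (.e (nat_lit 98386) (nat_lit 32) (.e (nat_lit 475207) (nat_lit 41) .nil))) (.g (nat_lit 0) (.e (nat_lit 269822) (nat_lit 0) .nil) .nil))) 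
(.lf (nat_lit 540571) (.g (nat_lit 4641) (.e (nat_lit 90170) (nat_lit 13) (.e (nat_lit 172067) (nat_lit 3) (.e (nat_lit 204829) (nat_lit 18) (.e (nat_lit 57688) (nat_lit 156) (.e (nat_lit 163874) (nat_lit 3) (.e (nat_lit 204837) (nat_lit 20) (.e (nat_lit 114715) (nat_lit 22) .nil))))))) (.g (nat_lit 1) (.e (nat_lit 270928) (nat_lit 0) .nil) .nil)))))) 
(.nd (nat_lit 7) (.nd (nat_lit 8) (.nd (nat_lit 9) 
(.lf (nat_lit 539739) (.g (nat_lit 1505) (.e (nat_lit 81942) (nat_lit 20) (.e (nat_lit 2391) (nat_lit 156) (.e (nat_lit 819204) (nat_lit 0) (.e (nat_lit 3016) (nat_lit 187) (.e (nat_lit 458496) (nat_lit 8) (.e (nat_lit 564992) (nat_lit 6) .nil)))))) (.g (nat_lit 1) (.e (nat_lit 269217) (nat_lit 0) .nil) .nil))) 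
(.lf (nat_lit 540251) (.g (nat_lit 1366) (.e (nat_lit 90134) (nat_lit 9) (.e (nat_lit 3098) (nat_lit 192) (.e (nat_lit 491571) (nat_lit 13) (.e (nat_lit 393238) (nat_lit 17) .nil)))) (.g (nat_lit 0) (.e (nat_lit 270397) (nat_lit 0) .nil) .nil)))) (.nd (nat_lit 9) 
(.lf (nat_lit 539995) (.g (nat_lit 655) (.e (nat_lit 89856) (nat_lit 20) (.e (nat_lit 1800) (nat_lit 119) (.e (nat_lit 516139) (nat_lit 7) .nil))) (.g (nat_lit 0) (.e (nat_lit 269630) (nat_lit 0) .nil) .nil))) 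
(.lf (nat_lit 540507) (.g (nat_lit 749) (.e (nat_lit 90168) (nat_lit 13) (.e (nat_lit 172120) (nat_lit 12) (.e (nat_lit 475179) (nat_lit 24) .nil))) (.g (nat_lit 0) (.e (nat_lit 270844) (nat_lit 0) .nil) .nil))))) (.nd (nat_lit 8) (.nd (nat_lit 9) 
(.lf (nat_lit 539867) (.g (nat_lit 1248) (.e (nat_lit 81946) (nat_lit 20) (.e (nat_lit 2390) (nat_lit 156) (.e (nat_lit 819204) (nat_lit 0) (.e (nat_lit 2989) (nat_lit 186) (.e (nat_lit 450304) (nat_lit 2) (.e (nat_lit 98048) (nat_lit 6) .nil)))))) (.g (nat_lit 1) (.e (nat_lit 269446) (nat_lit 0) .nil) .nil))) 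
(.lf (nat_lit 540379) (.g (nat_lit 2086) (.e (nat_lit 90165) (nat_lit 12) (.e (nat_lit 164238) (nat_lit 187) (.e (nat_lit 1638) (nat_lit 114) (.e (nat_lit 385074) (nat_lit 31) (.e (nat_lit 573482) (nat_lit 13) .nil))))) (.g (nat_lit 0) (.e (nat_lit 270678) (nat_lit 0) .nil) .nil)))) (.nd (nat_lit 9) 
(.lf (nat_lit 540123) (.g (nat_lit 1623) (.e (nat_lit 89856) (nat_lit 23) (.e (nat_lit 98366) (nat_lit 27) (.e (nat_lit 434272) (nat_lit 38) (.e (nat_lit 655375) (nat_lit 3) (.e (nat_lit 163978) (nat_lit 30) .nil))))) (.g (nat_lit 0) (.e (nat_lit 269918) (nat_lit 0) .nil) .nil))) 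
(.lf (nat_lit 540635) (.g (nat_lit 2885) (.e (nat_lit 90170) (nat_lit 13) (.e (nat_lit 172106) (nat_lit 10) (.e (nat_lit 434231) (nat_lit 23) (.e (nat_lit 532535) (nat_lit 9) (.e (nat_lit 335924) (nat_lit 0) .nil))))) (.g (nat_lit 0) (.e (nat_lit 270992) (nat_lit 0) .nil) .nil))))))) (.nd (nat_lit 6) (.nd (nat_lit 7) (.nd (nat_lit 8) (.nd (nat_lit 9) 
(.lf (nat_lit 539707) (.g (nat_lit 2830) (.e (nat_lit 81942) (nat_lit 20) (.e (nat_lit 1788) (nat_lit 119) (.e (nat_lit 516179) (nat_lit 15) (.e (nat_lit 475199) (nat_lit 40) (.e (nat_lit 704589) (nat_lit 3) .nil))))) (.g (nat_lit 0) (.e (nat_lit 269177) (nat_lit 0) .nil) .nil))) 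
(.lf (nat_lit 540219) (.g (nat_lit 3200) (.e (nat_lit 90133) (nat_lit 9) (.e (nat_lit 2400) (nat_lit 157) (.e (nat_lit 7586) (nat_lit 406) (.e (nat_lit 65637) (nat_lit 15) (.e (nat_lit 3305) (nat_lit 202) (.e (nat_lit 573493) (nat_lit 15) (.e (nat_lit 81953) (nat_lit 22) .nil))))))) (.g (nat_lit 1) (.e (nat_lit 270296) (nat_lit 0) .nil) .nil)))) (.nd (nat_lit 9) 
(.lf (nat_lit 539963) (.g (nat_lit 1530) (.e (nat_lit 81947) (nat_lit 20) (.e (nat_lit 2391) (nat_lit 156) (.e (nat_lit 819203) (nat_lit 0) (.e (nat_lit 3016) (nat_lit 187) (.e (nat_lit 458496) (nat_lit 8) (.e (nat_lit 564992) (nat_lit 6) .nil)))))) (.g (nat_lit 1) (.e (nat_lit 269578) (nat_lit 0) .nil) .nil))) 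
(.lf (nat_lit 540475) (.g (nat_lit 1087) (.e (nat_lit 90167) (nat_lit 13) (.e (nat_lit 172126) (nat_lit 14) (.e (nat_lit 491540) (nat_lit 3) (.e (nat_lit 98366) (nat_lit 27) .nil)))) (.g (nat_lit 0) (.e (nat_lit 270801) (nat_lit 0) .nil) .nil))))) (.nd (nat_lit 8) (.nd (nat_lit 9) 
(.lf (nat_lit 539835) (.g (nat_lit 2483) (.e (nat_lit 81946) (nat_lit 20) (.e (nat_lit 1841) (nat_lit 123) (.e (nat_lit 548889) (nat_lit 9) (.e (nat_lit 65629) (nat_lit 14) (.e (nat_lit 401412) (nat_lit 0) (.e (nat_lit 3114) (nat_lit 193) (.e (nat_lit 500075) (nat_lit 20) .nil))))))) (.g (nat_lit 1) (.e (nat_lit 269398) (nat_lit 0) .nil) .nil))) 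
(.lf (nat_lit 540347) (.g (nat_lit 2041) (.e (nat_lit 90160) (nat_lit 11) (.e (nat_lit 24604) (nat_lit 2) (.e (nat_lit 90157) (nat_lit 11) (.e (nat_lit 24608) (nat_lit 3) (.e (nat_lit 98317) (nat_lit 9) .nil))))) (.g (nat_lit 0) (.e (nat_lit 270599) (nat_lit 0) .nil) .nil)))) (.nd (nat_lit 9) 
(.lf (nat_lit 540091) (.g (nat_lit 2848) (.e (nat_lit 81956) (nat_lit 23) (.e (nat_lit 98349) (nat_lit 24) (.e (nat_lit 409649) (nat_lit 18) (.e (nat_lit 303117) (nat_lit 2) (.e (nat_lit 196672) (nat_lit 15) .nil))))) (.g (nat_lit 1) (.e (nat_lit 269866) (nat_lit 0) .nil) .nil))) 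
(.lf (nat_lit 540603) (.g (nat_lit 3434) (.e (nat_lit 90170) (nat_lit 13) (.e (nat_lit 172106) (nat_lit 10) (.e (nat_lit 434231) (nat_lit 23) (.e (nat_lit 532522) (nat_lit 7) (.e (nat_lit 319531) (nat_lit 16) (.e (nat_lit 294656) (nat_lit 2) .nil)))))) (.g (nat_lit 1) (.e (nat_lit 270960) (nat_lit 0) .nil) .nil)))))) (.nd (nat_lit 7) (.nd (nat_lit 8) (.nd (nat_lit 9) 
(.lf (nat_lit 539771) (.g (nat_lit 587) (.e (nat_lit 81943) (nat_lit 20) (.e (nat_lit 1886) (nat_lit 127) (.e (nat_lit 581652) (nat_lit 5) (.e (nat_lit 180287) (nat_lit 45) (.e (nat_lit 2580) (nat_lit 161) (.e (nat_lit 48896) (nat_lit 6) .nil)))))) (.g (nat_lit 1) (.e (nat_lit 269311) (nat_lit 0) .nil) .nil))) 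
(.lf (nat_lit 540283) (.g (nat_lit 1022) (.e (nat_lit 90158) (nat_lit 11) (.e (nat_lit 24604) (nat_lit 2) (.e (nat_lit 90153) (nat_lit 10) .nil))) (.g (nat_lit 0) (.e (nat_lit 270494) (nat_lit 0) .nil) .nil)))) (.nd (nat_lit 9) 
(.lf (nat_lit 540027) (.g (nat_lit 1012) (.e (nat_lit 89856) (nat_lit 22) (.e (nat_lit 90170) (nat_lit 13) (.e (nat_lit 172049) (nat_lit 0) .nil))) (.g (nat_lit 0) (.e (nat_lit 269740) (nat_lit 0) .nil) .nil))) 
(.lf (nat_lit 540539) (.g (nat_lit 3079) (.e (nat_lit 90169) (nat_lit 13) (.e (nat_lit 172113) (nat_lit 10) (.e (nat_lit 434245) (nat_lit 28) (.e (nat_lit 573474) (nat_lit 12) (.e (nat_lit 57574) (nat_lit 55) (.e (nat_lit 778466) (nat_lit 11) (.e (nat_lit 24603) (nat_lit 2) .nil))))))) (.g (nat_lit 1) (.e (nat_lit 270884) (nat_lit 0) .nil) .nil))))) (.nd (nat_lit 8) (.nd (nat_lit 9) 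
(.lf (nat_lit 539899) (.g (nat_lit 1930) (.e (nat_lit 81946) (nat_lit 20) (.e (nat_lit 2391) (nat_lit 156) (.e (nat_lit 819204) (nat_lit 0) (.e (nat_lit 3016) (nat_lit 187) (.e (nat_lit 458496) (nat_lit 8) (.e (nat_lit 564992) (nat_lit 6) .nil)))))) (.g (nat_lit 1) (.e (nat_lit 269489) (nat_lit 0) .nil) .nil))) 
(.lf (nat_lit 540411) (.g (nat_lit 1870) (.e (nat_lit 90167) (nat_lit 13) (.e (nat_lit 172065) (nat_lit 3) (.e (nat_lit 204838) (nat_lit 20) (.e (nat_lit 114719) (nat_lit 23) (.e (nat_lit 98332) (nat_lit 18) .nil))))) (.g (nat_lit 0) (.e (nat_lit 270721) (nat_lit 0) .nil) .nil)))) (.nd (nat_lit 9) 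
(.lf (nat_lit 540155) (.g (nat_lit 1285) (.e (nat_lit 90121) (nat_lit 9) (.e (nat_lit 3071) (nat_lit 190) (.e (nat_lit 475199) (nat_lit 40) (.e (nat_lit 704589) (nat_lit 3) .nil)))) (.g (nat_lit 0) (.e (nat_lit 270025) (nat_lit 0) .nil) .nil))) 
(.lf (nat_lit 540667) (.g (nat_lit 3739) (.e (nat_lit 90170) (nat_lit 13) (.e (nat_lit 172106) (nat_lit 10) (.e (nat_lit 434244) (nat_lit 28) (.e (nat_lit 573451) (nat_lit 9) (.e (nat_lit 396) (nat_lit 32) (.e (nat_lit 426012) (nat_lit 0) (.e (nat_lit 7490) (nat_lit 402) (.e (nat_lit 1239) (nat_lit 91) .nil)))))))) (.g (nat_lit 1) (.e (nat_lit 271024) (nat_lit 0) .nil) .nil)))))))))) 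
(.nd (nat_lit 3) (.nd (nat_lit 4) (.nd (nat_lit 5) (.nd (nat_lit 6) (.nd (nat_lit 7) 
(.nd (nat_lit 8) (.nd (nat_lit 9) 
(.lf (nat_lit 539655) (.g (nat_lit 839) (.e (nat_lit 81939) (nat_lit 20) (.e (nat_lit 2390) (nat_lit 156) (.e (nat_lit 819204) (nat_lit 0) (.e (nat_lit 2998) (nat_lit 186) (.e (nat_lit 450304) (nat_lit 2) (.e (nat_lit 98048) (nat_lit 6) .nil)))))) (.g (nat_lit 1) (.e (nat_lit 269107) (nat_lit 0) .nil) .nil))) 
(.lf (nat_lit 540167) (.g (nat_lit 1587) (.e (nat_lit 90130) (nat_lit 9) (.e (nat_lit 2830) (nat_lit 182) (.e (nat_lit 409623) (nat_lit 10) (.e (nat_lit 5664) (nat_lit 312) (.e (nat_lit 2679) (nat_lit 168) .nil))))) (.g (nat_lit 0) (.e (nat_lit 270150) (nat_lit 0) .nil) .nil)))) (.nd (nat_lit 9) 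
(.lf (nat_lit 539911) (.g (nat_lit 1539) (.e (nat_lit 81946) (nat_lit 20) (.e (nat_lit 2391) (nat_lit 156) (.e (nat_lit 819221) (nat_lit 6) (.e (nat_lit 188431) (nat_lit 20) (.e (nat_lit 3282) (nat_lit 200) (.e (nat_lit 564992) (nat_lit 6) .nil)))))) (.g (nat_lit 1) (.e (nat_lit 269502) (nat_lit 0) .nil) .nil))) 
(.lf (nat_lit 540423) (.g (nat_lit 1510) (.e (nat_lit 90167) (nat_lit 13) (.e (nat_lit 172067) (nat_lit 3) (.e (nat_lit 204838) (nat_lit 20) (.e (nat_lit 114702) (nat_lit 20) .nil)))) (.g (nat_lit 0) (.e (nat_lit 270733) (nat_lit 0) .nil) .nil))))) (.nd (nat_lit 8) (.nd (nat_lit 9) 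
(.lf (nat_lit 539783) (.g (nat_lit 799) (.e (nat_lit 81943) (nat_lit 20) (.e (nat_lit 2390) (nat_lit 156) (.e (nat_lit 819203) (nat_lit 0) (.e (nat_lit 3027) (nat_lit 187) (.e (nat_lit 458496) (nat_lit 8) (.e (nat_lit 564992) (nat_lit 6) .nil)))))) (.g (nat_lit 1) (.e (nat_lit 269331) (nat_lit 0) .nil) .nil))) 
(.lf (nat_lit 540295) (.g (nat_lit 1002) (.e (nat_lit 90158) (nat_lit 11) (.e (nat_lit 24628) (nat_lit 9) (.e (nat_lit 336019) (nat_lit 3) (.e (nat_lit 98384) (nat_lit 32) .nil)))) (.g (nat_lit 0) (.e (nat_lit 270524) (nat_lit 0) .nil) .nil)))) (.nd (nat_lit 9) 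
(.lf (nat_lit 540039) (.g (nat_lit 2365) (.e (nat_lit 81954) (nat_lit 23) (.e (nat_lit 98361) (nat_lit 26) (.e (nat_lit 426412) (nat_lit 15) (.e (nat_lit 2059) (nat_lit 142) (.e (nat_lit 704589) (nat_lit 3) .nil))))) (.g (nat_lit 0) (.e (nat_lit 269768) (nat_lit 0) .nil) .nil))) 
(.lf (nat_lit 540551) (.g (nat_lit 3281) (.e (nat_lit 90169) (nat_lit 13) (.e (nat_lit 172122) (nat_lit 13) (.e (nat_lit 483337) (nat_lit 9) (.e (nat_lit 426107) (nat_lit 1) (.e (nat_lit 164401) (nat_lit 256) (.e (nat_lit 57373) (nat_lit 2) .nil)))))) (.g (nat_lit 1) (.e (nat_lit 270896) (nat_lit 0) .nil) .nil)))))) (.nd (nat_lit 7) (.nd (nat_lit 8) (.nd (nat_lit 9) 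
(.lf (nat_lit 539719) (.g (nat_lit 147) (.e (nat_lit 81942) (nat_lit 20) (.e (nat_lit 2390) (nat_lit 156) (.e (nat_lit 819204) (nat_lit 0) .nil))) (.g (nat_lit 0) (.e (nat_lit 269193) (nat_lit 0) .nil) .nil))) 
(.lf (nat_lit 540231) (.g (nat_lit 1649) (.e (nat_lit 90134) (nat_lit 9) (.e (nat_lit 2928) (nat_lit 184) (.e (nat_lit 426316) (nat_lit 12) (.e (nat_lit 475185) (nat_lit 29) (.e (nat_lit 557105) (nat_lit 14) .nil))))) (.g (nat_lit 0) (.e (nat_lit 270334) (nat_lit 0) .nil) .nil)))) (.nd (nat_lit 9) 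
(.lf (nat_lit 539975) (.g (nat_lit 1505) (.e (nat_lit 81947) (nat_lit 20) (.e (nat_lit 2391) (nat_lit 156) (.e (nat_lit 819204) (nat_lit 0) (.e (nat_lit 3021) (nat_lit 187) (.e (nat_lit 458496) (nat_lit 8) (.e (nat_lit 564992) (nat_lit 6) .nil)))))) (.g (nat_lit 1) (.e (nat_lit 269598) (nat_lit 0) .nil) .nil))) 
(.lf (nat_lit 540487) (.g (nat_lit 2134) (.e (nat_lit 90168) (nat_lit 13) (.e (nat_lit 172067) (nat_lit 3) (.e (nat_lit 204837) (nat_lit 20) (.e (nat_lit 114719) (nat_lit 23) (.e (nat_lit 98333) (nat_lit 18) .nil))))) (.g (nat_lit 0) (.e (nat_lit 270821) (nat_lit 0) .nil) .nil))))) (.nd (nat_lit 8) (.nd (nat_lit 9) 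
(.lf (nat_lit 539847) (.g (nat_lit 797) (.e (nat_lit 81946) (nat_lit 20) (.e (nat_lit 1886) (nat_lit 127) (.e (nat_lit 581652) (nat_lit 5) (.e (nat_lit 180287) (nat_lit 45) (.e (nat_lit 2580) (nat_lit 161) (.e (nat_lit 48896) (nat_lit 6) .nil)))))) (.g (nat_lit 1) (.e (nat_lit 269413) (nat_lit 0) .nil) .nil))) 
(.lf (nat_lit 540359) (.g (nat_lit 2923) (.e (nat_lit 90160) (nat_lit 11) (.e (nat_lit 24630) (nat_lit 9) (.e (nat_lit 336454) (nat_lit 34) (.e (nat_lit 483366) (nat_lit 18) (.e (nat_lit 57847) (nat_lit 252) .nil))))) (.g (nat_lit 0) (.e (nat_lit 270617) (nat_lit 0) .nil) .nil)))) (.nd (nat_lit 9) 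
(.lf (nat_lit 540103) (.g (nat_lit 4517) (.e (nat_lit 81956) (nat_lit 23) (.e (nat_lit 98350) (nat_lit 24) (.e (nat_lit 409648) (nat_lit 18) (.e (nat_lit 303117) (nat_lit 2) (.e (nat_lit 196674) (nat_lit 15) .nil))))) (.g (nat_lit 1) (.e (nat_lit 269881) (nat_lit 0) .nil) .nil))) 
(.lf (nat_lit 540615) (.g (nat_lit 4170) (.e (nat_lit 90170) (nat_lit 13) (.e (nat_lit 172106) (nat_lit 10) (.e (nat_lit 434231) (nat_lit 23) (.e (nat_lit 532523) (nat_lit 7) (.e (nat_lit 319535) (nat_lit 17) (.e (nat_lit 294927) (nat_lit 2) .nil)))))) (.g (nat_lit 1) (.e (nat_lit 270972) (nat_lit 0) .nil) .nil))))))) (.nd (nat_lit 6) (.nd (nat_lit 7) (.nd (nat_lit 8) (.nd (nat_lit 9) 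
(.lf (nat_lit 539687) (.g (nat_lit 1497) (.e (nat_lit 81939) (nat_lit 20) (.e (nat_lit 2391) (nat_lit 156) (.e (nat_lit 819204) (nat_lit 0) (.e (nat_lit 3016) (nat_lit 187) (.e (nat_lit 458496) (nat_lit 8) (.e (nat_lit 564992) (nat_lit 6) .nil)))))) (.g (nat_lit 1) (.e (nat_lit 269149) (nat_lit 0) .nil) .nil))) 
(.lf (nat_lit 540199) (.g (nat_lit 2843) (.e (nat_lit 90130) (nat_lit 9) (.e (nat_lit 2830) (nat_lit 182) (.e (nat_lit 409648) (nat_lit 18) (.e (nat_lit 303118) (nat_lit 3) (.e (nat_lit 212736) (nat_lit 26) (.e (nat_lit 336158) (nat_lit 9) (.e (nat_lit 336012) (nat_lit 2) .nil))))))) (.g (nat_lit 1) (.e (nat_lit 270198) (nat_lit 0) .nil) .nil)))) (.nd (nat_lit 9) 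
(.lf (nat_lit 539943) (.g (nat_lit 1240) (.e (nat_lit 81947) (nat_lit 20) (.e (nat_lit 2390) (nat_lit 156) (.e (nat_lit 819204) (nat_lit 0) (.e (nat_lit 2989) (nat_lit 186) (.e (nat_lit 450304) (nat_lit 2) (.e (nat_lit 98048) (nat_lit 6) .nil)))))) (.g (nat_lit 1) (.e (nat_lit 269551) (nat_lit 0) .nil) .nil))) 
(.lf (nat_lit 540455) (.g (nat_lit 3047) (.e (nat_lit 90167) (nat_lit 13) (.e (nat_lit 172123) (nat_lit 13) (.e (nat_lit 483337) (nat_lit 9) (.e (nat_lit 426098) (nat_lit 1) (.e (nat_lit 164399) (nat_lit 256) (.e (nat_lit 57372) (nat_lit 2) .nil)))))) (.g (nat_lit 1) (.e (nat_lit 270772) (nat_lit 0) .nil) .nil))))) (.nd (nat_lit 8) (.nd (nat_lit 9) 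
(.lf (nat_lit 539815) (.g (nat_lit 1510) (.e (nat_lit 81943) (nat_lit 20) (.e (nat_lit 2391) (nat_lit 156) (.e (nat_lit 819204) (nat_lit 0) (.e (nat_lit 2999) (nat_lit 186) (.e (nat_lit 450304) (nat_lit 2) (.e (nat_lit 98048) (nat_lit 6) .nil)))))) (.g (nat_lit 1) (.e (nat_lit 269370) (nat_lit 0) .nil) .nil))) 
(.lf (nat_lit 540327) (.g (nat_lit 3146) (.e (nat_lit 90158) (nat_lit 11) (.e (nat_lit 24630) (nat_lit 9) (.e (nat_lit 336456) (nat_lit 34) (.e (nat_lit 483365) (nat_lit 18) (.e (nat_lit 57847) (nat_lit 252) (.e (nat_lit 57370) (nat_lit 2) .nil)))))) (.g (nat_lit 1) (.e (nat_lit 270556) (nat_lit 0) .nil) .nil)))) (.nd (nat_lit 9) 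
(.lf (nat_lit 540071) (.g (nat_lit 3461) (.e (nat_lit 81955) (nat_lit 23) (.e (nat_lit 98350) (nat_lit 24) (.e (nat_lit 409648) (nat_lit 18) (.e (nat_lit 303117) (nat_lit 2) (.e (nat_lit 196674) (nat_lit 15) .nil))))) (.g (nat_lit 1) (.e (nat_lit 269836) (nat_lit 0) .nil) .nil))) 
(.lf (nat_lit 540583) (.g (nat_lit 1196) (.e (nat_lit 90170) (nat_lit 13) (.e (nat_lit 172094) (nat_lit 9) (.e (nat_lit 426140) (nat_lit 3) (.e (nat_lit 204845) (nat_lit 24) .nil)))) (.g (nat_lit 0) (.e (nat_lit 270940) (nat_lit 0) .nil) .nil)))))) (.nd (nat_lit 7) (.nd (nat_lit 8) (.nd (nat_lit 9) 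
(.lf (nat_lit 539751) (.g (nat_lit 1115) (.e (nat_lit 81942) (nat_lit 20) (.e (nat_lit 2391) (nat_lit 156) (.e (nat_lit 819221) (nat_lit 6) (.e (nat_lit 188431) (nat_lit 20) (.e (nat_lit 3282) (nat_lit 200) (.e (nat_lit 564992) (nat_lit 6) .nil)))))) (.g (nat_lit 1) (.e (nat_lit 269229) (nat_lit 0) .nil) .nil))) 
(.lf (nat_lit 540263) (.g (nat_lit 1261) (.e (nat_lit 98048) (nat_lit 9) (.e (nat_lit 3098) (nat_lit 192) (.e (nat_lit 491564) (nat_lit 12) (.e (nat_lit 385073) (nat_lit 31) .nil)))) (.g (nat_lit 0) (.e (nat_lit 270461) (nat_lit 0) .nil) .nil)))) (.nd (nat_lit 9) 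
(.lf (nat_lit 540007) (.g (nat_lit 409) (.e (nat_lit 81951) (nat_lit 22) (.e (nat_lit 90170) (nat_lit 13) (.e (nat_lit 172042) (nat_lit 0) .nil))) (.g (nat_lit 0) (.e (nat_lit 269697) (nat_lit 0) .nil) .nil))) 
(.lf (nat_lit 540519) (.g (nat_lit 978) (.e (nat_lit 90168) (nat_lit 13) (.e (nat_lit 172123) (nat_lit 13) (.e (nat_lit 483337) (nat_lit 9) (.e (nat_lit 426099) (nat_lit 1) .nil)))) (.g (nat_lit 0) (.e (nat_lit 270856) (nat_lit 0) .nil) .nil))))) (.nd (nat_lit 8) (.nd (nat_lit 9) 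
(.lf (nat_lit 539879) (.g (nat_lit 1010) (.e (nat_lit 81946) (nat_lit 20) (.e (nat_lit 2390) (nat_lit 156) (.e (nat_lit 819221) (nat_lit 6) (.e (nat_lit 188427) (nat_lit 20) (.e (nat_lit 3282) (nat_lit 200) (.e (nat_lit 564992) (nat_lit 6) .nil)))))) (.g (nat_lit 1) (.e (nat_lit 269462) (nat_lit 0) .nil) .nil))) 
(.lf (nat_lit 540391) (.g (nat_lit 3548) (.e (nat_lit 90166) (nat_lit 13) (.e (nat_lit 172113) (nat_lit 10) (.e (nat_lit 434248) (nat_lit 28) (.e (nat_lit 573475) (nat_lit 12) (.e (nat_lit 57574) (nat_lit 55) (.e (nat_lit 778466) (nat_lit 11) (.e (nat_lit 24603) (nat_lit 2) .nil))))))) (.g (nat_lit 1) (.e (nat_lit 270698) (nat_lit 0) .nil) .nil)))) (.nd (nat_lit 9) 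
(.lf (nat_lit 540135) (.g (nat_lit 2568) (.e (nat_lit 81959) (nat_lit 24) (.e (nat_lit 123153) (nat_lit 250) (.e (nat_lit 2650) (nat_lit 166) (.e (nat_lit 188434) (nat_lit 20) (.e (nat_lit 3391) (nat_lit 210) (.e (nat_lit 639023) (nat_lit 18) .nil)))))) (.g (nat_lit 1) (.e (nat_lit 269932) (nat_lit 0) .nil) .nil))) 
(.lf (nat_lit 540647) (.g (nat_lit 4015) (.e (nat_lit 90170) (nat_lit 13) (.e (nat_lit 172106) (nat_lit 10) (.e (nat_lit 434231) (nat_lit 23) (.e (nat_lit 532535) (nat_lit 9) (.e (nat_lit 335989) (nat_lit 1) (.e (nat_lit 57927) (nat_lit 282) (.e (nat_lit 171776) (nat_lit 63) .nil))))))) (.g (nat_lit 1) (.e (nat_lit 271004) (nat_lit 0) .nil) .nil)))))))) 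
(.nd (nat_lit 5) (.nd (nat_lit 6) (.nd (nat_lit 7) (.nd (nat_lit 8) (.nd (nat_lit 9) 
(.lf (nat_lit 539671) (.g (nat_lit 1387) (.e (nat_lit 81939) (nat_lit 20) (.e (nat_lit 2390) (nat_lit 156) (.e (nat_lit 819221) (nat_lit 6) (.e (nat_lit 188434) (nat_lit 20) (.e (nat_lit 3289) (nat_lit 201) (.e (nat_lit 565269) (nat_lit 6) .nil)))))) (.g (nat_lit 1) (.e (nat_lit 269125) (nat_lit 0) .nil) .nil))) 
(.lf (nat_lit 540183) (.g (nat_lit 1844) (.e (nat_lit 90130) (nat_lit 9) (.e (nat_lit 2830) (nat_lit 182) (.e (nat_lit 409647) (nat_lit 18) (.e (nat_lit 303116) (nat_lit 2) (.e (nat_lit 196674) (nat_lit 15) .nil))))) (.g (nat_lit 0) (.e (nat_lit 270171) (nat_lit 0) .nil) .nil)))) (.nd (nat_lit 9) 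
(.lf (nat_lit 539927) (.g (nat_lit 784) (.e (nat_lit 81947) (nat_lit 20) (.e (nat_lit 1886) (nat_lit 127) (.e (nat_lit 581652) (nat_lit 5) (.e (nat_lit 180287) (nat_lit 45) (.e (nat_lit 2580) (nat_lit 161) (.e (nat_lit 48896) (nat_lit 6) .nil)))))) (.g (nat_lit 1) (.e (nat_lit 269527) (nat_lit 0) .nil) .nil))) 
(.lf (nat_lit 540439) (.g (nat_lit 1341) (.e (nat_lit 90167) (nat_lit 13) (.e (nat_lit 172113) (nat_lit 10) (.e (nat_lit 434247) (nat_lit 28) (.e (nat_lit 573478) (nat_lit 12) .nil)))) (.g (nat_lit 0) (.e (nat_lit 270756) (nat_lit 0) .nil) .nil))))) (.nd (nat_lit 8) (.nd (nat_lit 9) 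
(.lf (nat_lit 539799) (.g (nat_lit 573) (.e (nat_lit 81943) (nat_lit 20) (.e (nat_lit 2390) (nat_lit 156) (.e (nat_lit 819221) (nat_lit 6) (.e (nat_lit 188428) (nat_lit 20) (.e (nat_lit 3282) (nat_lit 200) (.e (nat_lit 564992) (nat_lit 6) .nil)))))) (.g (nat_lit 1) (.e (nat_lit 269350) (nat_lit 0) .nil) .nil))) 
(.lf (nat_lit 540311) (.g (nat_lit 1807) (.e (nat_lit 90158) (nat_lit 11) (.e (nat_lit 24628) (nat_lit 9) (.e (nat_lit 336456) (nat_lit 34) (.e (nat_lit 483365) (nat_lit 18) (.e (nat_lit 57848) (nat_lit 252) .nil))))) (.g (nat_lit 0) (.e (nat_lit 270540) (nat_lit 0) .nil) .nil)))) (.nd (nat_lit 9) 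
(.lf (nat_lit 540055) (.g (nat_lit 2646) (.e (nat_lit 81954) (nat_lit 23) (.e (nat_lit 98386) (nat_lit 32) (.e (nat_lit 475198) (nat_lit 40) (.e (nat_lit 704589) (nat_lit 3) (.e (nat_lit 163975) (nat_lit 30) (.e (nat_lit 573492) (nat_lit 15) .nil)))))) (.g (nat_lit 1) (.e (nat_lit 269818) (nat_lit 0) .nil) .nil))) 
(.lf (nat_lit 540567) (.g (nat_lit 2954) (.e (nat_lit 90170) (nat_lit 13) (.e (nat_lit 172065) (nat_lit 3) (.e (nat_lit 204831) (nat_lit 18) (.e (nat_lit 57691) (nat_lit 156) (.e (nat_lit 163875) (nat_lit 3) (.e (nat_lit 204838) (nat_lit 20) (.e (nat_lit 114715) (nat_lit 22) .nil))))))) (.g (nat_lit 1) (.e (nat_lit 270920) (nat_lit 0) .nil) .nil)))))) 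
(.nd (nat_lit 7) (.nd (nat_lit 8) (.nd (nat_lit 9) 
(.lf (nat_lit 539735) (.g (nat_lit 1146) (.e (nat_lit 81942) (nat_lit 20) (.e (nat_lit 2391) (nat_lit 156) (.e (nat_lit 819203) (nat_lit 0) (.e (nat_lit 3022) (nat_lit 187) (.e (nat_lit 458496) (nat_lit 8) (.e (nat_lit 564992) (nat_lit 6) .nil)))))) (.g (nat_lit 1) (.e (nat_lit 269212) (nat_lit 0) .nil) .nil))) 
(.lf (nat_lit 540247) (.g (nat_lit 2427) (.e (nat_lit 90134) (nat_lit 9) (.e (nat_lit 3098) (nat_lit 192) (.e (nat_lit 491566) (nat_lit 12) (.e (nat_lit 385074) (nat_lit 31) (.e (nat_lit 573482) (nat_lit 13) .nil))))) (.g (nat_lit 0) (.e (nat_lit 270380) (nat_lit 0) .nil) .nil)))) (.nd (nat_lit 9) 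
(.lf (nat_lit 539991) (.g (nat_lit 1844) (.e (nat_lit 81947) (nat_lit 20) (.e (nat_lit 2391) (nat_lit 156) (.e (nat_lit 819221) (nat_lit 6) (.e (nat_lit 188439) (nat_lit 20) (.e (nat_lit 3289) (nat_lit 201) (.e (nat_lit 565269) (nat_lit 6) .nil)))))) (.g (nat_lit 1) (.e (nat_lit 269618) (nat_lit 0) .nil) .nil))) 
(.lf (nat_lit 540503) (.g (nat_lit 3730) (.e (nat_lit 90168) (nat_lit 13) (.e (nat_lit 172105) (nat_lit 10) (.e (nat_lit 434247) (nat_lit 28) (.e (nat_lit 573477) (nat_lit 12) (.e (nat_lit 57574) (nat_lit 55) (.e (nat_lit 778466) (nat_lit 11) (.e (nat_lit 24604) (nat_lit 2) .nil))))))) (.g (nat_lit 1) (.e (nat_lit 270840) (nat_lit 0) .nil) .nil))))) (.nd (nat_lit 8) (.nd (nat_lit 9) 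
(.lf (nat_lit 539863) (.g (nat_lit 1219) (.e (nat_lit 81946) (nat_lit 20) (.e (nat_lit 2390) (nat_lit 156) (.e (nat_lit 819203) (nat_lit 0) (.e (nat_lit 3022) (nat_lit 187) (.e (nat_lit 458496) (nat_lit 8) (.e (nat_lit 564992) (nat_lit 6) .nil)))))) (.g (nat_lit 1) (.e (nat_lit 269442) (nat_lit 0) .nil) .nil))) 
(.lf (nat_lit 540375) (.g (nat_lit 1525) (.e (nat_lit 90165) (nat_lit 12) (.e (nat_lit 164210) (nat_lit 176) (.e (nat_lit 2797) (nat_lit 180) (.e (nat_lit 303117) (nat_lit 2) (.e (nat_lit 196665) (nat_lit 13) .nil))))) (.g (nat_lit 0) (.e (nat_lit 270670) (nat_lit 0) .nil) .nil)))) (.nd (nat_lit 9) 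
(.lf (nat_lit 540119) (.g (nat_lit 3010) (.e (nat_lit 81956) (nat_lit 23) (.e (nat_lit 98388) (nat_lit 33) (.e (nat_lit 491550) (nat_lit 9) (.e (nat_lit 336306) (nat_lit 15) (.e (nat_lit 3308) (nat_lit 202) (.e (nat_lit 573492) (nat_lit 15) .nil)))))) (.g (nat_lit 1) (.e (nat_lit 269913) (nat_lit 0) .nil) .nil))) 
(.lf (nat_lit 540631) (.g (nat_lit 3221) (.e (nat_lit 90170) (nat_lit 13) (.e (nat_lit 172106) (nat_lit 10) (.e (nat_lit 434231) (nat_lit 23) (.e (nat_lit 532535) (nat_lit 9) (.e (nat_lit 335904) (nat_lit 0) .nil))))) (.g (nat_lit 0) (.e (nat_lit 270988) (nat_lit 0) .nil) .nil))))))) (.nd (nat_lit 6) (.nd (nat_lit 7) (.nd (nat_lit 8) (.nd (nat_lit 9) 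
(.lf (nat_lit 539703) (.g (nat_lit 1121) (.e (nat_lit 81941) (nat_lit 20) (.e (nat_lit 1788) (nat_lit 119) (.e (nat_lit 516139) (nat_lit 7) (.e (nat_lit 409616) (nat_lit 10) .nil)))) (.g (nat_lit 0) (.e (nat_lit 269166) (nat_lit 0) .nil) .nil))) 
(.lf (nat_lit 540215) (.g (nat_lit 976) (.e (nat_lit 90130) (nat_lit 9) (.e (nat_lit 2830) (nat_lit 182) (.e (nat_lit 417536) (nat_lit 18) (.e (nat_lit 303118) (nat_lit 3) (.e (nat_lit 204878) (nat_lit 31) .nil))))) (.g (nat_lit 0) (.e (nat_lit 270246) (nat_lit 0) .nil) .nil)))) (.nd (nat_lit 9) 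
(.lf (nat_lit 539959) (.g (nat_lit 1290) (.e (nat_lit 81947) (nat_lit 20) (.e (nat_lit 2391) (nat_lit 156) (.e (nat_lit 819203) (nat_lit 0) (.e (nat_lit 2989) (nat_lit 186) (.e (nat_lit 450304) (nat_lit 2) (.e (nat_lit 98048) (nat_lit 6) .nil)))))) (.g (nat_lit 1) (.e (nat_lit 269571) (nat_lit 0) .nil) .nil))) 
(.lf (nat_lit 540471) (.g (nat_lit 1615) (.e (nat_lit 90167) (nat_lit 13) (.e (nat_lit 172126) (nat_lit 14) (.e (nat_lit 491540) (nat_lit 3) (.e (nat_lit 98319) (nat_lit 17) (.e (nat_lit 7065) (nat_lit 377) .nil))))) (.g (nat_lit 0) (.e (nat_lit 270796) (nat_lit 0) .nil) .nil))))) (.nd (nat_lit 8) (.nd (nat_lit 9) 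
(.lf (nat_lit 539831) (.g (nat_lit 1450) (.e (nat_lit 81943) (nat_lit 20) (.e (nat_lit 2391) (nat_lit 156) (.e (nat_lit 819221) (nat_lit 6) (.e (nat_lit 188431) (nat_lit 20) (.e (nat_lit 3281) (nat_lit 200) (.e (nat_lit 564992) (nat_lit 6) .nil)))))) (.g (nat_lit 1) (.e (nat_lit 269389) (nat_lit 0) .nil) .nil))) 
(.lf (nat_lit 540343) (.g (nat_lit 326) (.e (nat_lit 90159) (nat_lit 11) (.e (nat_lit 24657) (nat_lit 13) (.e (nat_lit 393229) (nat_lit 9) .nil))) (.g (nat_lit 0) (.e (nat_lit 270581) (nat_lit 0) .nil) .nil)))) (.nd (nat_lit 9) 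
(.lf (nat_lit 540087) (.g (nat_lit 900) (.e (nat_lit 81956) (nat_lit 23) (.e (nat_lit 98320) (nat_lit 17) (.e (nat_lit 7110) (nat_lit 380) (.e (nat_lit 164351) (nat_lit 246) .nil)))) (.g (nat_lit 0) (.e (nat_lit 269856) (nat_lit 0) .nil) .nil))) 
(.lf (nat_lit 540599) (.g (nat_lit 2217) (.e (nat_lit 90170) (nat_lit 13) (.e (nat_lit 172106) (nat_lit 10) (.e (nat_lit 434231) (nat_lit 23) (.e (nat_lit 532500) (nat_lit 1) (.e (nat_lit 65280) (nat_lit 223) .nil))))) (.g (nat_lit 0) (.e (nat_lit 270956) (nat_lit 0) .nil) .nil)))))) (.nd (nat_lit 7) (.nd (nat_lit 8) (.nd (nat_lit 9) 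
(.lf (nat_lit 539767) (.g (nat_lit 587) (.e (nat_lit 81943) (nat_lit 20) (.e (nat_lit 1886) (nat_lit 127) (.e (nat_lit 581652) (nat_lit 5) (.e (nat_lit 180285) (nat_lit 45) (.e (nat_lit 2578) (nat_lit 161) (.e (nat_lit 48896) (nat_lit 6) .nil)))))) (.g (nat_lit 1) (.e (nat_lit 269307) (nat_lit 0) .nil) .nil))) 
(.lf (nat_lit 540279) (.g (nat_lit 517) (.e (nat_lit 90157) (nat_lit 11) (.e (nat_lit 24660) (nat_lit 13) (.e (nat_lit 393229) (nat_lit 9) .nil))) (.g (nat_lit 0) (.e (nat_lit 270482) (nat_lit 0) .nil) .nil)))) (.nd (nat_lit 9) 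
(.lf (nat_lit 540023) (.g (nat_lit 308) (.e (nat_lit 81953) (nat_lit 22) (.e (nat_lit 90170) (nat_lit 13) (.e (nat_lit 172068) (nat_lit 4) .nil))) (.g (nat_lit 0) (.e (nat_lit 269734) (nat_lit 0) .nil) .nil))) 
(.lf (nat_lit 540535) (.g (nat_lit 2257) (.e (nat_lit 90169) (nat_lit 13) (.e (nat_lit 172111) (nat_lit 10) (.e (nat_lit 434247) (nat_lit 28) (.e (nat_lit 573478) (nat_lit 12) (.e (nat_lit 57574) (nat_lit 55) (.e (nat_lit 778466) (nat_lit 11) (.e (nat_lit 24603) (nat_lit 2) .nil))))))) (.g (nat_lit 1) (.e (nat_lit 270880) (nat_lit 0) .nil) .nil))))) (.nd (nat_lit 8) (.nd (nat_lit 9) 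
(.lf (nat_lit 539895) (.g (nat_lit 1590) (.e (nat_lit 81946) (nat_lit 20) (.e (nat_lit 2391) (nat_lit 156) (.e (nat_lit 819204) (nat_lit 0) (.e (nat_lit 2998) (nat_lit 186) (.e (nat_lit 450304) (nat_lit 2) (.e (nat_lit 98048) (nat_lit 6) .nil)))))) (.g (nat_lit 1) (.e (nat_lit 269483) (nat_lit 0) .nil) .nil))) 
(.lf (nat_lit 540407) (.g (nat_lit 1430) (.e (nat_lit 90167) (nat_lit 13) (.e (nat_lit 172065) (nat_lit 3) (.e (nat_lit 204838) (nat_lit 20) (.e (nat_lit 114702) (nat_lit 20) .nil)))) (.g (nat_lit 0) (.e (nat_lit 270717) (nat_lit 0) .nil) .nil)))) (.nd (nat_lit 9) 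
(.lf (nat_lit 540151) (.g (nat_lit 554) (.e (nat_lit 98048) (nat_lit 6) (.e (nat_lit 81942) (nat_lit 20) (.e (nat_lit 2391) (nat_lit 156) (.e (nat_lit 819204) (nat_lit 0) .nil)))) (.g (nat_lit 0) (.e (nat_lit 270005) (nat_lit 0) .nil) .nil))) 
(.lf (nat_lit 540663) (.g (nat_lit 2946) (.e (nat_lit 90170) (nat_lit 13) (.e (nat_lit 172106) (nat_lit 10) (.e (nat_lit 434244) (nat_lit 28) (.e (nat_lit 573450) (nat_lit 9) (.e (nat_lit 449) (nat_lit 33) (.e (nat_lit 442112) (nat_lit 0) (.e (nat_lit 1237) (nat_lit 91) .nil))))))) (.g (nat_lit 1) (.e (nat_lit 271020) (nat_lit 0) .nil) .nil))))))))) 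
(.nd (nat_lit 4) (.nd (nat_lit 5) (.nd (nat_lit 6) (.nd (nat_lit 7) (.nd (nat_lit 8) 
(.nd (nat_lit 9) 
(.lf (nat_lit 539663) (.g (nat_lit 143) (.e (nat_lit 81939) (nat_lit 20) (.e (nat_lit 2390) (nat_lit 156) (.e (nat_lit 819221) (nat_lit 6) .nil))) (.g (nat_lit 0) (.e (nat_lit 269117) (nat_lit 0) .nil) .nil))) 
(.lf (nat_lit 540175) (.g (nat_lit 1425) (.e (nat_lit 90130) (nat_lit 9) (.e (nat_lit 2830) (nat_lit 182) (.e (nat_lit 409645) (nat_lit 18) (.e (nat_lit 303117) (nat_lit 2) .nil)))) (.g (nat_lit 0) (.e (nat_lit 270159) (nat_lit 0) .nil) .nil)))) (.nd (nat_lit 9) 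
(.lf (nat_lit 539919) (.g (nat_lit 2719) (.e (nat_lit 81947) (nat_lit 20) (.e (nat_lit 1842) (nat_lit 123) (.e (nat_lit 548889) (nat_lit 9) (.e (nat_lit 65630) (nat_lit 14) (.e (nat_lit 401412) (nat_lit 0) (.e (nat_lit 3114) (nat_lit 193) (.e (nat_lit 500075) (nat_lit 20) .nil))))))) (.g (nat_lit 1) (.e (nat_lit 269518) (nat_lit 0) .nil) .nil))) 
(.lf (nat_lit 540431) (.g (nat_lit 2252) (.e (nat_lit 90167) (nat_lit 13) (.e (nat_lit 172067) (nat_lit 3) (.e (nat_lit 204838) (nat_lit 20) (.e (nat_lit 114719) (nat_lit 23) (.e (nat_lit 98335) (nat_lit 18) .nil))))) (.g (nat_lit 0) (.e (nat_lit 270741) (nat_lit 0) .nil) .nil))))) (.nd (nat_lit 8) (.nd (nat_lit 9) 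
(.lf (nat_lit 539791) (.g (nat_lit 932) (.e (nat_lit 81943) (nat_lit 20) (.e (nat_lit 2390) (nat_lit 156) (.e (nat_lit 819204) (nat_lit 0) (.e (nat_lit 3021) (nat_lit 187) (.e (nat_lit 458496) (nat_lit 8) (.e (nat_lit 564992) (nat_lit 6) .nil)))))) (.g (nat_lit 1) (.e (nat_lit 269341) (nat_lit 0) .nil) .nil))) 
(.lf (nat_lit 540303) (.g (nat_lit 3080) (.e (nat_lit 90158) (nat_lit 11) (.e (nat_lit 24628) (nat_lit 9) (.e (nat_lit 336454) (nat_lit 34) (.e (nat_lit 483366) (nat_lit 18) (.e (nat_lit 57847) (nat_lit 252) (.e (nat_lit 57370) (nat_lit 2) .nil)))))) (.g (nat_lit 1) (.e (nat_lit 270532) (nat_lit 0) .nil) .nil)))) (.nd (nat_lit 9) 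
(.lf (nat_lit 540047) (.g (nat_lit 5112) (.e (nat_lit 81954) (nat_lit 23) (.e (nat_lit 98367) (nat_lit 27) (.e (nat_lit 434272) (nat_lit 38) (.e (nat_lit 655375) (nat_lit 3) (.e (nat_lit 163978) (nat_lit 30) (.e (nat_lit 573490) (nat_lit 15) .nil)))))) (.g (nat_lit 1) (.e (nat_lit 269793) (nat_lit 0) .nil) .nil))) 
(.lf (nat_lit 540559) (.g (nat_lit 1086) (.e (nat_lit 90169) (nat_lit 13) (.e (nat_lit 172133) (nat_lit 15) (.e (nat_lit 2058) (nat_lit 142) (.e (nat_lit 704589) (nat_lit 3) .nil)))) (.g (nat_lit 0) (.e (nat_lit 270907) (nat_lit 0) .nil) .nil)))))) (.nd (nat_lit 7) (.nd (nat_lit 8) (.nd (nat_lit 9) 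
(.lf (nat_lit 539727) (.g (nat_lit 605) (.e (nat_lit 81942) (nat_lit 20) (.e (nat_lit 2390) (nat_lit 156) (.e (nat_lit 819221) (nat_lit 6) (.e (nat_lit 188427) (nat_lit 20) (.e (nat_lit 3282) (nat_lit 200) (.e (nat_lit 564992) (nat_lit 6) .nil)))))) (.g (nat_lit 1) (.e (nat_lit 269203) (nat_lit 0) .nil) .nil))) 
(.lf (nat_lit 540239) (.g (nat_lit 1846) (.e (nat_lit 90134) (nat_lit 9) (.e (nat_lit 3025) (nat_lit 187) (.e (nat_lit 450587) (nat_lit 10) (.e (nat_lit 573475) (nat_lit 12) .nil)))) (.g (nat_lit 0) (.e (nat_lit 270364) (nat_lit 0) .nil) .nil)))) (.nd (nat_lit 9) 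
(.lf (nat_lit 539983) (.g (nat_lit 419) (.e (nat_lit 81947) (nat_lit 20) (.e (nat_lit 2391) (nat_lit 156) (.e (nat_lit 819221) (nat_lit 6) .nil))) (.g (nat_lit 0) (.e (nat_lit 269610) (nat_lit 0) .nil) .nil))) 
(.lf (nat_lit 540495) (.g (nat_lit 2072) (.e (nat_lit 90168) (nat_lit 13) (.e (nat_lit 172067) (nat_lit 3) (.e (nat_lit 204838) (nat_lit 20) (.e (nat_lit 114719) (nat_lit 23) (.e (nat_lit 98333) (nat_lit 18) .nil))))) (.g (nat_lit 0) (.e (nat_lit 270829) (nat_lit 0) .nil) .nil))))) (.nd (nat_lit 8) (.nd (nat_lit 9) 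
(.lf (nat_lit 539855) (.g (nat_lit 1632) (.e (nat_lit 81946) (nat_lit 20) (.e (nat_lit 1858) (nat_lit 124) (.e (nat_lit 557093) (nat_lit 12) (.e (nat_lit 164023) (nat_lit 46) .nil)))) (.g (nat_lit 0) (.e (nat_lit 269429) (nat_lit 0) .nil) .nil))) 
(.lf (nat_lit 540367) (.g (nat_lit 1526) (.e (nat_lit 90165) (nat_lit 12) (.e (nat_lit 164046) (nat_lit 55) (.e (nat_lit 778462) (nat_lit 11) (.e (nat_lit 24604) (nat_lit 2) (.e (nat_lit 90176) (nat_lit 15) (.e (nat_lit 196352) (nat_lit 2) .nil)))))) (.g (nat_lit 1) (.e (nat_lit 270650) (nat_lit 0) .nil) .nil)))) (.nd (nat_lit 9) 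
(.lf (nat_lit 540111) (.g (nat_lit 1317) (.e (nat_lit 81956) (nat_lit 23) (.e (nat_lit 98384) (nat_lit 32) (.e (nat_lit 475216) (nat_lit 44) .nil))) (.g (nat_lit 0) (.e (nat_lit 269904) (nat_lit 0) .nil) .nil))) 
(.lf (nat_lit 540623) (.g (nat_lit 3020) (.e (nat_lit 90170) (nat_lit 13) (.e (nat_lit 172106) (nat_lit 10) (.e (nat_lit 434231) (nat_lit 23) (.e (nat_lit 532529) (nat_lit 9) (.e (nat_lit 335999) (nat_lit 1) (.e (nat_lit 57927) (nat_lit 282) (.e (nat_lit 171776) (nat_lit 63) .nil))))))) (.g (nat_lit 1) (.e (nat_lit 270980) (nat_lit 0) .nil) .nil))))))) 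
(.nd (nat_lit 6) (.nd (nat_lit 7) (.nd (nat_lit 8) (.nd (nat_lit 9) 
(.lf (nat_lit 539695) (.g (nat_lit 969) (.e (nat_lit 81939) (nat_lit 20) (.e (nat_lit 2391) (nat_lit 156) (.e (nat_lit 819221) (nat_lit 6) (.e (nat_lit 188427) (nat_lit 20) (.e (nat_lit 3282) (nat_lit 200) (.e (nat_lit 564992) (nat_lit 6) .nil)))))) (.g (nat_lit 1) (.e (nat_lit 269158) (nat_lit 0) .nil) .nil))) 
(.lf (nat_lit 540207) (.g (nat_lit 1312) (.e (nat_lit 90130) (nat_lit 9) (.e (nat_lit 2830) (nat_lit 182) (.e (nat_lit 409649) (nat_lit 18) (.e (nat_lit 303116) (nat_lit 2) .nil)))) (.g (nat_lit 0) (.e (nat_lit 270220) (nat_lit 0) .nil) .nil)))) (.nd (nat_lit 9) 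
(.lf (nat_lit 539951) (.g (nat_lit 1478) (.e (nat_lit 81947) (nat_lit 20) (.e (nat_lit 2390) (nat_lit 156) (.e (nat_lit 819204) (nat_lit 0) (.e (nat_lit 3027) (nat_lit 187) (.e (nat_lit 458496) (nat_lit 8) (.e (nat_lit 564992) (nat_lit 6) .nil)))))) (.g (nat_lit 1) (.e (nat_lit 269561) (nat_lit 0) .nil) .nil))) 
(.lf (nat_lit 540463) (.g (nat_lit 2305) (.e (nat_lit 90167) (nat_lit 13) (.e (nat_lit 172126) (nat_lit 14) (.e (nat_lit 491537) (nat_lit 2) (.e (nat_lit 90172) (nat_lit 14) (.e (nat_lit 188160) (nat_lit 32) .nil))))) (.g (nat_lit 0) (.e (nat_lit 270784) (nat_lit 0) .nil) .nil))))) (.nd (nat_lit 8) (.nd (nat_lit 9) 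
(.lf (nat_lit 539823) (.g (nat_lit 1446) (.e (nat_lit 81943) (nat_lit 20) (.e (nat_lit 2391) (nat_lit 156) (.e (nat_lit 819204) (nat_lit 0) (.e (nat_lit 3028) (nat_lit 187) (.e (nat_lit 458496) (nat_lit 8) (.e (nat_lit 564992) (nat_lit 6) .nil)))))) (.g (nat_lit 1) (.e (nat_lit 269380) (nat_lit 0) .nil) .nil))) 
(.lf (nat_lit 540335) (.g (nat_lit 1786) (.e (nat_lit 90159) (nat_lit 11) (.e (nat_lit 24627) (nat_lit 9) (.e (nat_lit 336454) (nat_lit 34) (.e (nat_lit 483362) (nat_lit 18) .nil)))) (.g (nat_lit 0) (.e (nat_lit 270568) (nat_lit 0) .nil) .nil)))) (.nd (nat_lit 9) 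
(.lf (nat_lit 540079) (.g (nat_lit 2110) (.e (nat_lit 81955) (nat_lit 23) (.e (nat_lit 98367) (nat_lit 27) (.e (nat_lit 434272) (nat_lit 38) (.e (nat_lit 655374) (nat_lit 3) .nil)))) (.g (nat_lit 0) (.e (nat_lit 269848) (nat_lit 0) .nil) .nil))) 
(.lf (nat_lit 540591) (.g (nat_lit 2342) (.e (nat_lit 90170) (nat_lit 13) (.e (nat_lit 172106) (nat_lit 10) (.e (nat_lit 434231) (nat_lit 23) (.e (nat_lit 532490) (nat_lit 0) (.e (nat_lit 6147) (nat_lit 332) .nil))))) (.g (nat_lit 0) (.e (nat_lit 270948) (nat_lit 0) .nil) .nil)))))) (.nd (nat_lit 7) (.nd (nat_lit 8) (.nd (nat_lit 9) 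
(.lf (nat_lit 539759) (.g (nat_lit 1250) (.e (nat_lit 81943) (nat_lit 20) (.e (nat_lit 1842) (nat_lit 123) (.e (nat_lit 548889) (nat_lit 9) (.e (nat_lit 65537) (nat_lit 0) .nil)))) (.g (nat_lit 0) (.e (nat_lit 269274) (nat_lit 0) .nil) .nil))) 
(.lf (nat_lit 540271) (.g (nat_lit 2728) (.e (nat_lit 90156) (nat_lit 11) (.e (nat_lit 24630) (nat_lit 9) (.e (nat_lit 336454) (nat_lit 34) (.e (nat_lit 483366) (nat_lit 18) (.e (nat_lit 57851) (nat_lit 252) .nil))))) (.g (nat_lit 0) (.e (nat_lit 270471) (nat_lit 0) .nil) .nil)))) (.nd (nat_lit 9) 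
(.lf (nat_lit 540015) (.g (nat_lit 1085) (.e (nat_lit 81952) (nat_lit 22) (.e (nat_lit 90185) (nat_lit 17) (.e (nat_lit 237584) (nat_lit 1) .nil))) (.g (nat_lit 0) (.e (nat_lit 269722) (nat_lit 0) .nil) .nil))) 
(.lf (nat_lit 540527) (.g (nat_lit 2467) (.e (nat_lit 90168) (nat_lit 13) (.e (nat_lit 172126) (nat_lit 14) (.e (nat_lit 491537) (nat_lit 2) (.e (nat_lit 90133) (nat_lit 9) (.e (nat_lit 2397) (nat_lit 157) .nil))))) (.g (nat_lit 0) (.e (nat_lit 270864) (nat_lit 0) .nil) .nil))))) (.nd (nat_lit 8) (.nd (nat_lit 9) 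
(.lf (nat_lit 539887) (.g (nat_lit 1542) (.e (nat_lit 81946) (nat_lit 20) (.e (nat_lit 2391) (nat_lit 156) (.e (nat_lit 819203) (nat_lit 0) (.e (nat_lit 3015) (nat_lit 187) (.e (nat_lit 458496) (nat_lit 8) (.e (nat_lit 564992) (nat_lit 6) .nil)))))) (.g (nat_lit 1) (.e (nat_lit 269474) (nat_lit 0) .nil) .nil))) 
(.lf (nat_lit 540399) (.g (nat_lit 625) (.e (nat_lit 90166) (nat_lit 13) (.e (nat_lit 172126) (nat_lit 14) (.e (nat_lit 491537) (nat_lit 2) .nil))) (.g (nat_lit 0) (.e (nat_lit 270708) (nat_lit 0) .nil) .nil)))) (.nd (nat_lit 9) 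
(.lf (nat_lit 540143) (.g (nat_lit 1495) (.e (nat_lit 98048) (nat_lit 0) (.e (nat_lit 371) (nat_lit 32) (.e (nat_lit 426432) (nat_lit 17) (.e (nat_lit 90174) (nat_lit 14) .nil)))) (.g (nat_lit 0) (.e (nat_lit 269953) (nat_lit 0) .nil) .nil))) 
(.lf (nat_lit 540655) (.g (nat_lit 2878) (.e (nat_lit 90170) (nat_lit 13) (.e (nat_lit 172106) (nat_lit 10) (.e (nat_lit 434231) (nat_lit 23) (.e (nat_lit 532535) (nat_lit 9) (.e (nat_lit 336030) (nat_lit 4) (.e (nat_lit 123229) (nat_lit 282) (.e (nat_lit 171776) (nat_lit 63) .nil))))))) (.g (nat_lit 1) (.e (nat_lit 271012) (nat_lit 0) .nil) .nil)))))))) 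
(.nd (nat_lit 5) (.nd (nat_lit 6) (.nd (nat_lit 7) (.nd (nat_lit 8) (.nd (nat_lit 9) 
(.lf (nat_lit 539679) (.g (nat_lit 1134) (.e (nat_lit 81939) (nat_lit 20) (.e (nat_lit 2391) (nat_lit 156) (.e (nat_lit 819203) (nat_lit 0) (.e (nat_lit 3022) (nat_lit 187) (.e (nat_lit 458496) (nat_lit 8) (.e (nat_lit 564992) (nat_lit 6) .nil)))))) (.g (nat_lit 1) (.e (nat_lit 269139) (nat_lit 0) .nil) .nil))) 
(.lf (nat_lit 540191) (.g (nat_lit 1199) (.e (nat_lit 90130) (nat_lit 9) (.e (nat_lit 2830) (nat_lit 182) (.e (nat_lit 409648) (nat_lit 18) (.e (nat_lit 303108) (nat_lit 0) .nil)))) (.g (nat_lit 0) (.e (nat_lit 270182) (nat_lit 0) .nil) .nil)))) (.nd (nat_lit 9) 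
(.lf (nat_lit 539935) (.g (nat_lit 947) (.e (nat_lit 81947) (nat_lit 20) (.e (nat_lit 2390) (nat_lit 156) (.e (nat_lit 819203) (nat_lit 0) (.e (nat_lit 3004) (nat_lit 186) (.e (nat_lit 450304) (nat_lit 2) (.e (nat_lit 98048) (nat_lit 6) .nil)))))) (.g (nat_lit 1) (.e (nat_lit 269537) (nat_lit 0) .nil) .nil))) 
(.lf (nat_lit 540447) (.g (nat_lit 755) (.e (nat_lit 90167) (nat_lit 13) (.e (nat_lit 172120) (nat_lit 12) (.e (nat_lit 475185) (nat_lit 29) .nil))) (.g (nat_lit 0) (.e (nat_lit 270764) (nat_lit 0) .nil) .nil))))) (.nd (nat_lit 8) (.nd (nat_lit 9) 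
(.lf (nat_lit 539807) (.g (nat_lit 1478) (.e (nat_lit 81943) (nat_lit 20) (.e (nat_lit 2391) (nat_lit 156) (.e (nat_lit 819203) (nat_lit 0) (.e (nat_lit 3016) (nat_lit 187) (.e (nat_lit 458496) (nat_lit 8) (.e (nat_lit 564992) (nat_lit 6) .nil)))))) (.g (nat_lit 1) (.e (nat_lit 269360) (nat_lit 0) .nil) .nil))) 
(.lf (nat_lit 540319) (.g (nat_lit 2765) (.e (nat_lit 90158) (nat_lit 11) (.e (nat_lit 24630) (nat_lit 9) (.e (nat_lit 336454) (nat_lit 34) (.e (nat_lit 483366) (nat_lit 18) (.e (nat_lit 57851) (nat_lit 252) .nil))))) (.g (nat_lit 0) (.e (nat_lit 270548) (nat_lit 0) .nil) .nil)))) (.nd (nat_lit 9) 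
(.lf (nat_lit 540063) (.g (nat_lit 3527) (.e (nat_lit 81955) (nat_lit 23) (.e (nat_lit 98349) (nat_lit 24) (.e (nat_lit 409646) (nat_lit 18) (.e (nat_lit 303117) (nat_lit 2) (.e (nat_lit 196674) (nat_lit 15) .nil))))) (.g (nat_lit 1) (.e (nat_lit 269828) (nat_lit 0) .nil) .nil))) 
(.lf (nat_lit 540575) (.g (nat_lit 4037) (.e (nat_lit 90170) (nat_lit 13) (.e (nat_lit 172067) (nat_lit 3) (.e (nat_lit 204830) (nat_lit 18) (.e (nat_lit 57692) (nat_lit 156) (.e (nat_lit 163874) (nat_lit 3) (.e (nat_lit 204837) (nat_lit 20) (.e (nat_lit 114715) (nat_lit 22) .nil))))))) (.g (nat_lit 1) (.e (nat_lit 270932) (nat_lit 0) .nil) .nil)))))) 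
(.nd (nat_lit 7) (.nd (nat_lit 8) (.nd (nat_lit 9) 
(.lf (nat_lit 539743) (.g (nat_lit 1100) (.e (nat_lit 81942) (nat_lit 20) (.e (nat_lit 2391) (nat_lit 156) (.e (nat_lit 819204) (nat_lit 0) (.e (nat_lit 3028) (nat_lit 187) (.e (nat_lit 458496) (nat_lit 8) (.e (nat_lit 564992) (nat_lit 6) .nil)))))) (.g (nat_lit 1) (.e (nat_lit 269221) (nat_lit 0) .nil) .nil))) 
(.lf (nat_lit 540255) (.g (nat_lit 903) (.e (nat_lit 90140) (nat_lit 9) (.e (nat_lit 2611) (nat_lit 163) (.e (nat_lit 164182) (nat_lit 154) (.e (nat_lit 57411) (nat_lit 12) .nil)))) (.g (nat_lit 0) (.e (nat_lit 270414) (nat_lit 0) .nil) .nil)))) (.nd (nat_lit 9) 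
(.lf (nat_lit 539999) (.g (nat_lit 1493) (.e (nat_lit 81948) (nat_lit 21) (.e (nat_lit 57847) (nat_lit 252) (.e (nat_lit 57365) (nat_lit 1) (.e (nat_lit 57783) (nat_lit 239) .nil)))) (.g (nat_lit 0) (.e (nat_lit 269662) (nat_lit 0) .nil) .nil))) 
(.lf (nat_lit 540511) (.g (nat_lit 2008) (.e (nat_lit 90168) (nat_lit 13) (.e (nat_lit 172120) (nat_lit 12) (.e (nat_lit 475185) (nat_lit 29) (.e (nat_lit 557096) (nat_lit 13) .nil)))) (.g (nat_lit 0) (.e (nat_lit 270848) (nat_lit 0) .nil) .nil))))) (.nd (nat_lit 8) (.nd (nat_lit 9) 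
(.lf (nat_lit 539871) (.g (nat_lit 1599) (.e (nat_lit 81946) (nat_lit 20) (.e (nat_lit 2390) (nat_lit 156) (.e (nat_lit 819204) (nat_lit 0) (.e (nat_lit 3015) (nat_lit 187) (.e (nat_lit 458496) (nat_lit 8) (.e (nat_lit 564992) (nat_lit 6) .nil)))))) (.g (nat_lit 1) (.e (nat_lit 269452) (nat_lit 0) .nil) .nil))) 
(.lf (nat_lit 540383) (.g (nat_lit 1187) (.e (nat_lit 90166) (nat_lit 13) (.e (nat_lit 172094) (nat_lit 9) (.e (nat_lit 426140) (nat_lit 3) (.e (nat_lit 204846) (nat_lit 24) .nil)))) (.g (nat_lit 0) (.e (nat_lit 270683) (nat_lit 0) .nil) .nil)))) (.nd (nat_lit 9) 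
(.lf (nat_lit 540127) (.g (nat_lit 1318) (.e (nat_lit 89856) (nat_lit 23) (.e (nat_lit 98386) (nat_lit 32) (.e (nat_lit 475196) (nat_lit 40) (.e (nat_lit 704589) (nat_lit 3) (.e (nat_lit 163975) (nat_lit 30) .nil))))) (.g (nat_lit 0) (.e (nat_lit 269922) (nat_lit 0) .nil) .nil))) 
(.lf (nat_lit 540639) (.g (nat_lit 3170) (.e (nat_lit 90170) (nat_lit 13) (.e (nat_lit 172106) (nat_lit 10) (.e (nat_lit 434231) (nat_lit 23) (.e (nat_lit 532535) (nat_lit 9) (.e (nat_lit 335930) (nat_lit 0) .nil))))) (.g (nat_lit 0) (.e (nat_lit 270996) (nat_lit 0) .nil) .nil))))))) (.nd (nat_lit 6) (.nd (nat_lit 7) (.nd (nat_lit 8) (.nd (nat_lit 9) 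
(.lf (nat_lit 539711) (.g (nat_lit 1862) (.e (nat_lit 81942) (nat_lit 20) (.e (nat_lit 2281) (nat_lit 150) (.e (nat_lit 770072) (nat_lit 8) (.e (nat_lit 65610) (nat_lit 10) (.e (nat_lit 344090) (nat_lit 18) .nil))))) (.g (nat_lit 0) (.e (nat_lit 269185) (nat_lit 0) .nil) .nil))) 
(.lf (nat_lit 540223) (.g (nat_lit 4122) (.e (nat_lit 90133) (nat_lit 9) (.e (nat_lit 3105) (nat_lit 192) (.e (nat_lit 491566) (nat_lit 12) (.e (nat_lit 385073) (nat_lit 31) (.e (nat_lit 573493) (nat_lit 15) (.e (nat_lit 81953) (nat_lit 22) .nil)))))) (.g (nat_lit 1) (.e (nat_lit 270306) (nat_lit 0) .nil) .nil)))) (.nd (nat_lit 9) 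
(.lf (nat_lit 539967) (.g (nat_lit 1176) (.e (nat_lit 81947) (nat_lit 20) (.e (nat_lit 2391) (nat_lit 156) (.e (nat_lit 819203) (nat_lit 0) (.e (nat_lit 3028) (nat_lit 187) (.e (nat_lit 458496) (nat_lit 8) (.e (nat_lit 564992) (nat_lit 6) .nil)))))) (.g (nat_lit 1) (.e (nat_lit 269585) (nat_lit 0) .nil) .nil))) 
(.lf (nat_lit 540479) (.g (nat_lit 2700) (.e (nat_lit 90168) (nat_lit 13) (.e (nat_lit 172067) (nat_lit 3) (.e (nat_lit 204829) (nat_lit 18) (.e (nat_lit 57692) (nat_lit 156) (.e (nat_lit 163872) (nat_lit 3) .nil))))) (.g (nat_lit 0) (.e (nat_lit 270810) (nat_lit 0) .nil) .nil))))) (.nd (nat_lit 8) (.nd (nat_lit 9) 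
(.lf (nat_lit 539839) (.g (nat_lit 2801) (.e (nat_lit 81946) (nat_lit 20) (.e (nat_lit 1842) (nat_lit 123) (.e (nat_lit 548889) (nat_lit 9) (.e (nat_lit 65630) (nat_lit 14) (.e (nat_lit 401411) (nat_lit 0) (.e (nat_lit 3114) (nat_lit 193) (.e (nat_lit 500075) (nat_lit 20) .nil))))))) (.g (nat_lit 1) (.e (nat_lit 269404) (nat_lit 0) .nil) .nil))) 
(.lf (nat_lit 540351) (.g (nat_lit 1643) (.e (nat_lit 90160) (nat_lit 11) (.e (nat_lit 24608) (nat_lit 3) (.e (nat_lit 98341) (nat_lit 20) (.e (nat_lit 221204) (nat_lit 20) .nil)))) (.g (nat_lit 0) (.e (nat_lit 270608) (nat_lit 0) .nil) .nil)))) (.nd (nat_lit 9) 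
(.lf (nat_lit 540095) (.g (nat_lit 603) (.e (nat_lit 81956) (nat_lit 23) (.e (nat_lit 98350) (nat_lit 24) (.e (nat_lit 409614) (nat_lit 10) .nil))) (.g (nat_lit 0) (.e (nat_lit 269870) (nat_lit 0) .nil) .nil))) 
(.lf (nat_lit 540607) (.g (nat_lit 3652) (.e (nat_lit 90170) (nat_lit 13) (.e (nat_lit 172106) (nat_lit 10) (.e (nat_lit 434231) (nat_lit 23) (.e (nat_lit 532523) (nat_lit 7) (.e (nat_lit 319508) (nat_lit 10) .nil))))) (.g (nat_lit 0) (.e (nat_lit 270964) (nat_lit 0) .nil) .nil)))))) (.nd (nat_lit 7) (.nd (nat_lit 8) (.nd (nat_lit 9) 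
(.lf (nat_lit 539775) (.g (nat_lit 1188) (.e (nat_lit 81943) (nat_lit 20) (.e (nat_lit 2281) (nat_lit 150) (.e (nat_lit 770072) (nat_lit 8) (.e (nat_lit 65616) (nat_lit 10) .nil)))) (.g (nat_lit 0) (.e (nat_lit 269319) (nat_lit 0) .nil) .nil))) 
(.lf (nat_lit 540287) (.g (nat_lit 605) (.e (nat_lit 90158) (nat_lit 11) (.e (nat_lit 24608) (nat_lit 3) (.e (nat_lit 98333) (nat_lit 18) .nil))) (.g (nat_lit 0) (.e (nat_lit 270508) (nat_lit 0) .nil) .nil)))) (.nd (nat_lit 9) 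
(.lf (nat_lit 540031) (.g (nat_lit 942) (.e (nat_lit 81954) (nat_lit 23) (.e (nat_lit 98349) (nat_lit 24) (.e (nat_lit 409641) (nat_lit 17) (.e (nat_lit 294966) (nat_lit 15) .nil)))) (.g (nat_lit 0) (.e (nat_lit 269753) (nat_lit 0) .nil) .nil))) 
(.lf (nat_lit 540543) (.g (nat_lit 2210) (.e (nat_lit 90169) (nat_lit 13) (.e (nat_lit 172113) (nat_lit 10) (.e (nat_lit 434248) (nat_lit 28) (.e (nat_lit 573475) (nat_lit 12) (.e (nat_lit 57574) (nat_lit 55) .nil))))) (.g (nat_lit 0) (.e (nat_lit 270888) (nat_lit 0) .nil) .nil))))) (.nd (nat_lit 8) (.nd (nat_lit 9) 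
(.lf (nat_lit 539903) (.g (nat_lit 1879) (.e (nat_lit 81946) (nat_lit 20) (.e (nat_lit 2391) (nat_lit 156) (.e (nat_lit 819204) (nat_lit 0) (.e (nat_lit 3027) (nat_lit 187) (.e (nat_lit 458496) (nat_lit 8) (.e (nat_lit 564992) (nat_lit 6) .nil)))))) (.g (nat_lit 1) (.e (nat_lit 269493) (nat_lit 0) .nil) .nil))) 
(.lf (nat_lit 540415) (.g (nat_lit 1859) (.e (nat_lit 90167) (nat_lit 13) (.e (nat_lit 172067) (nat_lit 3) (.e (nat_lit 204837) (nat_lit 20) (.e (nat_lit 114700) (nat_lit 20) .nil)))) (.g (nat_lit 0) (.e (nat_lit 270725) (nat_lit 0) .nil) .nil)))) (.nd (nat_lit 9) 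
(.lf (nat_lit 540159) (.g (nat_lit 314) (.e (nat_lit 90128) (nat_lit 9) (.e (nat_lit 312) (nat_lit 23) (.e (nat_lit 360192) (nat_lit 18) .nil))) (.g (nat_lit 0) (.e (nat_lit 270067) (nat_lit 0) .nil) .nil))) 
(.lf (nat_lit 540671) (.g (nat_lit 2466) (.e (nat_lit 90170) (nat_lit 13) (.e (nat_lit 172106) (nat_lit 10) (.e (nat_lit 434244) (nat_lit 28) (.e (nat_lit 573451) (nat_lit 9) (.e (nat_lit 430) (nat_lit 32) (.e (nat_lit 426010) (nat_lit 0) (.e (nat_lit 7545) (nat_lit 402) (.e (nat_lit 1237) (nat_lit 91) .nil)))))))) (.g (nat_lit 1) (.e (nat_lit 271028) (nat_lit 0) .nil) .nil)))))))))))))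

noncomputable def tv5588 : DT := (.nd (nat_lit 0) (.nd (nat_lit 1) (.nd (nat_lit 2) (.nd (nat_lit 3) (.nd (nat_lit 4) (.nd (nat_lit 5) (.nd (nat_lit 6) (.nd (nat_lit 7) (.nd (nat_lit 8) (.nd (nat_lit 9) 
(.lf (nat_lit 540672) (.g (nat_lit 4041) (.e (nat_lit 90170) (nat_lit 13) (.e (nat_lit 172106) (nat_lit 10) (.e (nat_lit 434244) (nat_lit 28) (.e (nat_lit 573451) (nat_lit 9) (.e (nat_lit 430) (nat_lit 32) (.e (nat_lit 426012) (nat_lit 0) (.e (nat_lit 7545) (nat_lit 402) (.e (nat_lit 1237) (nat_lit 91) .nil)))))))) (.g (nat_lit 1) (.e (nat_lit 271029) (nat_lit 0) .nil) .nil))) 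
(.lf (nat_lit 541184) (.g (nat_lit 3215) (.e (nat_lit 90174) (nat_lit 14) (.e (nat_lit 180250) (nat_lit 10) (.e (nat_lit 573489) (nat_lit 14) (.e (nat_lit 73755) (nat_lit 8) (.e (nat_lit 557090) (nat_lit 12) (.e (nat_lit 163845) (nat_lit 0) (.e (nat_lit 5934) (nat_lit 322) (.e (nat_lit 57375) (nat_lit 2) .nil)))))))) (.g (nat_lit 1) (.e (nat_lit 271689) (nat_lit 0) .nil) .nil)))) (.nd (nat_lit 9) 
(.lf (nat_lit 540928) (.g (nat_lit 1697) (.e (nat_lit 90172) (nat_lit 14) (.e (nat_lit 180243) (nat_lit 5) (.e (nat_lit 532504) (nat_lit 1) (.e (nat_lit 57663) (nat_lit 152) .nil)))) (.g (nat_lit 0) (.e (nat_lit 271319) (nat_lit 0) .nil) .nil))) 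
(.lf (nat_lit 541440) (.g (nat_lit 2678) (.e (nat_lit 90185) (nat_lit 17) (.e (nat_lit 237616) (nat_lit 12) (.e (nat_lit 475179) (nat_lit 24) (.e (nat_lit 516124) (nat_lit 2) (.e (nat_lit 213030) (nat_lit 11) (.e (nat_lit 24604) (nat_lit 2) .nil)))))) (.g (nat_lit 1) (.e (nat_lit 272043) (nat_lit 0) .nil) .nil))))) (.nd (nat_lit 8) (.nd (nat_lit 9) 
(.lf (nat_lit 540800) (.g (nat_lit 1628) (.e (nat_lit 90170) (nat_lit 13) (.e (nat_lit 172113) (nat_lit 10) (.e (nat_lit 434247) (nat_lit 28) (.e (nat_lit 573450) (nat_lit 9) .nil)))) (.g (nat_lit 0) (.e (nat_lit 271159) (nat_lit 0) .nil) .nil))) 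
(.lf (nat_lit 541312) (.g (nat_lit 3285) (.e (nat_lit 90176) (nat_lit 15) (.e (nat_lit 188423) (nat_lit 11) (.e (nat_lit 335996) (nat_lit 1) (.e (nat_lit 57691) (nat_lit 156) (.e (nat_lit 163907) (nat_lit 12) (.e (nat_lit 426428) (nat_lit 17) .nil)))))) (.g (nat_lit 1) (.e (nat_lit 271838) (nat_lit 0) .nil) .nil)))) (.nd (nat_lit 9) 
(.lf (nat_lit 541056) (.g (nat_lit 2233) (.e (nat_lit 90173) (nat_lit 14) (.e (nat_lit 180252) (nat_lit 10) (.e (nat_lit 573489) (nat_lit 14) (.e (nat_lit 73755) (nat_lit 8) (.e (nat_lit 557089) (nat_lit 12) .nil))))) (.g (nat_lit 0) (.e (nat_lit 271504) (nat_lit 0) .nil) .nil))) 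
(.lf (nat_lit 541568) (.g (nat_lit 2472) (.e (nat_lit 98317) (nat_lit 9) (.e (nat_lit 335986) (nat_lit 1) (.e (nat_lit 57927) (nat_lit 282) (.e (nat_lit 163903) (nat_lit 12) (.e (nat_lit 426538) (nat_lit 29) (.e (nat_lit 352314) (nat_lit 23) .nil)))))) (.g (nat_lit 1) (.e (nat_lit 272466) (nat_lit 0) .nil) .nil)))))) (.nd (nat_lit 7) (.nd (nat_lit 8) (.nd (nat_lit 9) 
(.lf (nat_lit 540736) (.g (nat_lit 3247) (.e (nat_lit 90170) (nat_lit 13) (.e (nat_lit 172113) (nat_lit 10) (.e (nat_lit 434242) (nat_lit 28) (.e (nat_lit 573474) (nat_lit 12) (.e (nat_lit 57348) (nat_lit 0) (.e (nat_lit 7265) (nat_lit 384) (.e (nat_lit 57412) (nat_lit 12) (.e (nat_lit 336008) (nat_lit 2) .nil)))))))) (.g (nat_lit 1) (.e (nat_lit 271093) (nat_lit 0) .nil) .nil))) 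
(.lf (nat_lit 541248) (.g (nat_lit 3654) (.e (nat_lit 90174) (nat_lit 14) (.e (nat_lit 180251) (nat_lit 10) (.e (nat_lit 573489) (nat_lit 14) (.e (nat_lit 73755) (nat_lit 8) (.e (nat_lit 557090) (nat_lit 12) (.e (nat_lit 163841) (nat_lit 0) (.e (nat_lit 5943) (nat_lit 322) (.e (nat_lit 57373) (nat_lit 2) .nil)))))))) (.g (nat_lit 1) (.e (nat_lit 271753) (nat_lit 0) .nil) .nil)))) (.nd (nat_lit 9) 
(.lf (nat_lit 540992) (.g (nat_lit 3464) (.e (nat_lit 90172) (nat_lit 14) (.e (nat_lit 180250) (nat_lit 10) (.e (nat_lit 573488) (nat_lit 14) (.e (nat_lit 73755) (nat_lit 8) (.e (nat_lit 557091) (nat_lit 12) (.e (nat_lit 163841) (nat_lit 0) (.e (nat_lit 5943) (nat_lit 322) (.e (nat_lit 57375) (nat_lit 2) .nil)))))))) (.g (nat_lit 1) (.e (nat_lit 271422) (nat_lit 0) .nil) .nil))) 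
(.lf (nat_lit 541504) (.g (nat_lit 589) (.e (nat_lit 98312) (nat_lit 9) (.e (nat_lit 335986) (nat_lit 1) (.e (nat_lit 57926) (nat_lit 282) .nil))) (.g (nat_lit 0) (.e (nat_lit 272288) (nat_lit 0) .nil) .nil))))) (.nd (nat_lit 8) (.nd (nat_lit 9) 
(.lf (nat_lit 540864) (.g (nat_lit 2840) (.e (nat_lit 90170) (nat_lit 13) (.e (nat_lit 172116) (nat_lit 10) (.e (nat_lit 434238) (nat_lit 25) (.e (nat_lit 548913) (nat_lit 18) (.e (nat_lit 172126) (nat_lit 14) .nil))))) (.g (nat_lit 0) (.e (nat_lit 271228) (nat_lit 0) .nil) .nil))) 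
(.lf (nat_lit 541376) (.g (nat_lit 3418) (.e (nat_lit 90178) (nat_lit 15) (.e (nat_lit 188421) (nat_lit 11) (.e (nat_lit 335986) (nat_lit 1) (.e (nat_lit 57692) (nat_lit 156) (.e (nat_lit 163907) (nat_lit 12) (.e (nat_lit 426428) (nat_lit 17) .nil)))))) (.g (nat_lit 1) (.e (nat_lit 271921) (nat_lit 0) .nil) .nil)))) (.nd (nat_lit 9) 
(.lf (nat_lit 541120) (.g (nat_lit 3320) (.e (nat_lit 90174) (nat_lit 14) (.e (nat_lit 180243) (nat_lit 5) (.e (nat_lit 532503) (nat_lit 1) (.e (nat_lit 57692) (nat_lit 156) (.e (nat_lit 163874) (nat_lit 3) (.e (nat_lit 204838) (nat_lit 20) (.e (nat_lit 114716) (nat_lit 22) .nil))))))) (.g (nat_lit 1) (.e (nat_lit 271613) (nat_lit 0) .nil) .nil))) 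
(.lf (nat_lit 541632) (.g (nat_lit 853) (.e (nat_lit 98323) (nat_lit 17) (.e (nat_lit 6989) (nat_lit 377) (.e (nat_lit 1374) (nat_lit 104) (.e (nat_lit 303119) (nat_lit 3) .nil)))) (.g (nat_lit 0) (.e (nat_lit 272647) (nat_lit 0) .nil) .nil))))))) (.nd (nat_lit 6) (.nd (nat_lit 7) (.nd (nat_lit 8) (.nd (nat_lit 9) 
(.lf (nat_lit 540704) (.g (nat_lit 2340) (.e (nat_lit 90170) (nat_lit 13) (.e (nat_lit 172106) (nat_lit 10) (.e (nat_lit 434244) (nat_lit 28) (.e (nat_lit 573474) (nat_lit 12) (.e (nat_lit 57354) (nat_lit 0) (.e (nat_lit 7273) (nat_lit 385) (.e (nat_lit 122903) (nat_lit 12) (.e (nat_lit 336001) (nat_lit 2) .nil)))))))) (.g (nat_lit 1) (.e (nat_lit 271061) (nat_lit 0) .nil) .nil))) 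
(.lf (nat_lit 541216) (.g (nat_lit 1715) (.e (nat_lit 90174) (nat_lit 14) (.e (nat_lit 180251) (nat_lit 10) (.e (nat_lit 573489) (nat_lit 14) (.e (nat_lit 73754) (nat_lit 8) (.e (nat_lit 557094) (nat_lit 12) .nil))))) (.g (nat_lit 0) (.e (nat_lit 271721) (nat_lit 0) .nil) .nil)))) (.nd (nat_lit 9) 
(.lf (nat_lit 540960) (.g (nat_lit 2334) (.e (nat_lit 90172) (nat_lit 14) (.e (nat_lit 180244) (nat_lit 5) (.e (nat_lit 532513) (nat_lit 3) (.e (nat_lit 114719) (nat_lit 23) (.e (nat_lit 98332) (nat_lit 18) .nil))))) (.g (nat_lit 0) (.e (nat_lit 271386) (nat_lit 0) .nil) .nil))) 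
(.lf (nat_lit 541472) (.g (nat_lit 3416) (.e (nat_lit 90185) (nat_lit 17) (.e (nat_lit 237619) (nat_lit 12) (.e (nat_lit 475179) (nat_lit 24) (.e (nat_lit 516124) (nat_lit 2) (.e (nat_lit 213032) (nat_lit 11) (.e (nat_lit 24604) (nat_lit 2) .nil)))))) (.g (nat_lit 1) (.e (nat_lit 272075) (nat_lit 0) .nil) .nil))))) (.nd (nat_lit 8) (.nd (nat_lit 9) 
(.lf (nat_lit 540832) (.g (nat_lit 3701) (.e (nat_lit 90170) (nat_lit 13) (.e (nat_lit 172113) (nat_lit 10) (.e (nat_lit 434248) (nat_lit 28) (.e (nat_lit 573470) (nat_lit 11) (.e (nat_lit 16473) (nat_lit 14) (.e (nat_lit 491535) (nat_lit 2) .nil)))))) (.g (nat_lit 1) (.e (nat_lit 271194) (nat_lit 0) .nil) .nil))) 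
(.lf (nat_lit 541344) (.g (nat_lit 2425) (.e (nat_lit 90176) (nat_lit 15) (.e (nat_lit 188450) (nat_lit 23) (.e (nat_lit 204846) (nat_lit 24) (.e (nat_lit 319498) (nat_lit 10) (.e (nat_lit 5346) (nat_lit 298) .nil))))) (.g (nat_lit 0) (.e (nat_lit 271874) (nat_lit 0) .nil) .nil)))) (.nd (nat_lit 9) 
(.lf (nat_lit 541088) (.g (nat_lit 2678) (.e (nat_lit 90174) (nat_lit 14) (.e (nat_lit 180243) (nat_lit 5) (.e (nat_lit 532499) (nat_lit 1) (.e (nat_lit 57688) (nat_lit 156) (.e (nat_lit 163854) (nat_lit 0) .nil))))) (.g (nat_lit 0) (.e (nat_lit 271550) (nat_lit 0) .nil) .nil))) 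
(.lf (nat_lit 541600) (.g (nat_lit 2266) (.e (nat_lit 98317) (nat_lit 9) (.e (nat_lit 335996) (nat_lit 1) (.e (nat_lit 57931) (nat_lit 282) (.e (nat_lit 163905) (nat_lit 12) (.e (nat_lit 426555) (nat_lit 32) (.e (nat_lit 376866) (nat_lit 23) .nil)))))) (.g (nat_lit 1) (.e (nat_lit 272527) (nat_lit 0) .nil) .nil)))))) (.nd (nat_lit 7) (.nd (nat_lit 8) (.nd (nat_lit 9) 
(.lf (nat_lit 540768) (.g (nat_lit 1732) (.e (nat_lit 90170) (nat_lit 13) (.e (nat_lit 172113) (nat_lit 10) (.e (nat_lit 434245) (nat_lit 28) (.e (nat_lit 573471) (nat_lit 11) (.e (nat_lit 16388) (nat_lit 0) .nil))))) (.g (nat_lit 0) (.e (nat_lit 271125) (nat_lit 0) .nil) .nil))) 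
(.lf (nat_lit 541280) (.g (nat_lit 4104) (.e (nat_lit 90174) (nat_lit 14) (.e (nat_lit 180251) (nat_lit 10) (.e (nat_lit 573489) (nat_lit 14) (.e (nat_lit 73755) (nat_lit 8) (.e (nat_lit 557119) (nat_lit 18) (.e (nat_lit 2797) (nat_lit 180) (.e (nat_lit 311040) (nat_lit 17) .nil))))))) (.g (nat_lit 1) (.e (nat_lit 271785) (nat_lit 0) .nil) .nil)))) (.nd (nat_lit 9) 
(.lf (nat_lit 541024) (.g (nat_lit 3308) (.e (nat_lit 90172) (nat_lit 14) (.e (nat_lit 180251) (nat_lit 10) (.e (nat_lit 573489) (nat_lit 14) (.e (nat_lit 73755) (nat_lit 8) (.e (nat_lit 557090) (nat_lit 12) (.e (nat_lit 163841) (nat_lit 0) (.e (nat_lit 5943) (nat_lit 322) (.e (nat_lit 57372) (nat_lit 2) .nil)))))))) (.g (nat_lit 1) (.e (nat_lit 271454) (nat_lit 0) .nil) .nil))) 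
(.lf (nat_lit 541536) (.g (nat_lit 991) (.e (nat_lit 98313) (nat_lit 9) (.e (nat_lit 335995) (nat_lit 1) (.e (nat_lit 57857) (nat_lit 254) (.e (nat_lit 163850) (nat_lit 0) .nil)))) (.g (nat_lit 0) (.e (nat_lit 272364) (nat_lit 0) .nil) .nil))))) (.nd (nat_lit 8) (.nd (nat_lit 9) 
(.lf (nat_lit 540896) (.g (nat_lit 1149) (.e (nat_lit 90170) (nat_lit 13) (.e (nat_lit 172124) (nat_lit 14) (.e (nat_lit 491540) (nat_lit 3) (.e (nat_lit 98368) (nat_lit 27) .nil)))) (.g (nat_lit 0) (.e (nat_lit 271260) (nat_lit 0) .nil) .nil))) 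
(.lf (nat_lit 541408) (.g (nat_lit 2112) (.e (nat_lit 90185) (nat_lit 17) (.e (nat_lit 237601) (nat_lit 9) (.e (nat_lit 426436) (nat_lit 18) (.e (nat_lit 98339) (nat_lit 19) (.e (nat_lit 213030) (nat_lit 11) (.e (nat_lit 24603) (nat_lit 2) .nil)))))) (.g (nat_lit 1) (.e (nat_lit 272011) (nat_lit 0) .nil) .nil)))) (.nd (nat_lit 9) 
(.lf (nat_lit 541152) (.g (nat_lit 3517) (.e (nat_lit 90174) (nat_lit 14) (.e (nat_lit 180250) (nat_lit 10) (.e (nat_lit 573487) (nat_lit 14) (.e (nat_lit 73753) (nat_lit 8) (.e (nat_lit 557090) (nat_lit 12) (.e (nat_lit 163850) (nat_lit 0) (.e (nat_lit 5951) (nat_lit 322) (.e (nat_lit 57371) (nat_lit 2) .nil)))))))) (.g (nat_lit 1) (.e (nat_lit 271657) (nat_lit 0) .nil) .nil))) 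
(.lf (nat_lit 541664) (.g (nat_lit 3259) (.e (nat_lit 98332) (nat_lit 18) (.e (nat_lit 164398) (nat_lit 256) (.e (nat_lit 57374) (nat_lit 2) (.e (nat_lit 90170) (nat_lit 13) (.e (nat_lit 172065) (nat_lit 3) .nil))))) (.g (nat_lit 0) (.e (nat_lit 272747) (nat_lit 0) .nil) .nil)))))))) (.nd (nat_lit 5) (.nd (nat_lit 6) (.nd (nat_lit 7) (.nd (nat_lit 8) (.nd (nat_lit 9) 
(.lf (nat_lit 540688) (.g (nat_lit 2534) (.e (nat_lit 90170) (nat_lit 13) (.e (nat_lit 172106) (nat_lit 10) (.e (nat_lit 434244) (nat_lit 28) (.e (nat_lit 573468) (nat_lit 10) (.e (nat_lit 8192) (nat_lit 0) (.e (nat_lit 4620) (nat_lit 269) (.e (nat_lit 2555) (nat_lit 159) (.e (nat_lit 24605) (nat_lit 2) .nil)))))))) (.g (nat_lit 1) (.e (nat_lit 271045) (nat_lit 0) .nil) .nil))) 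
(.lf (nat_lit 541200) (.g (nat_lit 2849) (.e (nat_lit 90174) (nat_lit 14) (.e (nat_lit 180250) (nat_lit 10) (.e (nat_lit 573489) (nat_lit 14) (.e (nat_lit 73755) (nat_lit 8) (.e (nat_lit 557091) (nat_lit 12) (.e (nat_lit 163843) (nat_lit 0) (.e (nat_lit 5934) (nat_lit 322) (.e (nat_lit 57371) (nat_lit 2) .nil)))))))) (.g (nat_lit 1) (.e (nat_lit 271705) (nat_lit 0) .nil) .nil)))) (.nd (nat_lit 9) 
(.lf (nat_lit 540944) (.g (nat_lit 2575) (.e (nat_lit 90172) (nat_lit 14) (.e (nat_lit 180244) (nat_lit 5) (.e (nat_lit 532499) (nat_lit 1) (.e (nat_lit 57688) (nat_lit 156) (.e (nat_lit 163843) (nat_lit 0) (.e (nat_lit 3230) (nat_lit 197) (.e (nat_lit 532514) (nat_lit 3) (.e (nat_lit 114716) (nat_lit 22) .nil)))))))) (.g (nat_lit 1) (.e (nat_lit 271343) (nat_lit 0) .nil) .nil))) 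
(.lf (nat_lit 541456) (.g (nat_lit 2395) (.e (nat_lit 90185) (nat_lit 17) (.e (nat_lit 237619) (nat_lit 12) (.e (nat_lit 475177) (nat_lit 24) (.e (nat_lit 516124) (nat_lit 2) (.e (nat_lit 213032) (nat_lit 11) (.e (nat_lit 24602) (nat_lit 2) .nil)))))) (.g (nat_lit 1) (.e (nat_lit 272059) (nat_lit 0) .nil) .nil))))) (.nd (nat_lit 8) (.nd (nat_lit 9) 
(.lf (nat_lit 540816) (.g (nat_lit 3260) (.e (nat_lit 90170) (nat_lit 13) (.e (nat_lit 172113) (nat_lit 10) (.e (nat_lit 434247) (nat_lit 28) (.e (nat_lit 573477) (nat_lit 12) (.e (nat_lit 57575) (nat_lit 55) (.e (nat_lit 778464) (nat_lit 11) (.e (nat_lit 24605) (nat_lit 2) .nil))))))) (.g (nat_lit 1) (.e (nat_lit 271176) (nat_lit 0) .nil) .nil))) 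
(.lf (nat_lit 541328) (.g (nat_lit 4743) (.e (nat_lit 90176) (nat_lit 15) (.e (nat_lit 188440) (nat_lit 20) (.e (nat_lit 3307) (nat_lit 202) (.e (nat_lit 573475) (nat_lit 12) (.e (nat_lit 57574) (nat_lit 55) (.e (nat_lit 778466) (nat_lit 11) (.e (nat_lit 24603) (nat_lit 2) .nil))))))) (.g (nat_lit 1) (.e (nat_lit 271856) (nat_lit 0) .nil) .nil)))) (.nd (nat_lit 9) 
(.lf (nat_lit 541072) (.g (nat_lit 2883) (.e (nat_lit 90173) (nat_lit 14) (.e (nat_lit 180252) (nat_lit 10) (.e (nat_lit 573489) (nat_lit 14) (.e (nat_lit 73755) (nat_lit 8) (.e (nat_lit 557119) (nat_lit 18) (.e (nat_lit 2808) (nat_lit 180) (.e (nat_lit 311040) (nat_lit 17) .nil))))))) (.g (nat_lit 1) (.e (nat_lit 271520) (nat_lit 0) .nil) .nil))) 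
(.lf (nat_lit 541584) (.g (nat_lit 2850) (.e (nat_lit 98317) (nat_lit 9) (.e (nat_lit 335988) (nat_lit 1) (.e (nat_lit 57931) (nat_lit 282) (.e (nat_lit 163905) (nat_lit 12) (.e (nat_lit 426555) (nat_lit 32) (.e (nat_lit 376866) (nat_lit 23) .nil)))))) (.g (nat_lit 1) (.e (nat_lit 272495) (nat_lit 0) .nil) .nil)))))) (.nd (nat_lit 7) (.nd (nat_lit 8) (.nd (nat_lit 9) 
(.lf (nat_lit 540752) (.g (nat_lit 3065) (.e (nat_lit 90170) (nat_lit 13) (.e (nat_lit 172113) (nat_lit 10) (.e (nat_lit 434245) (nat_lit 28) (.e (nat_lit 573450) (nat_lit 9) (.e (nat_lit 375) (nat_lit 32) (.e (nat_lit 426025) (nat_lit 0) (.e (nat_lit 7936) (nat_lit 402) (.e (nat_lit 1235) (nat_lit 91) .nil)))))))) (.g (nat_lit 1) (.e (nat_lit 271109) (nat_lit 0) .nil) .nil))) 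
(.lf (nat_lit 541264) (.g (nat_lit 3770) (.e (nat_lit 90174) (nat_lit 14) (.e (nat_lit 180251) (nat_lit 10) (.e (nat_lit 573489) (nat_lit 14) (.e (nat_lit 73755) (nat_lit 8) (.e (nat_lit 557090) (nat_lit 12) (.e (nat_lit 163845) (nat_lit 0) (.e (nat_lit 5945) (nat_lit 322) (.e (nat_lit 57373) (nat_lit 2) .nil)))))))) (.g (nat_lit 1) (.e (nat_lit 271769) (nat_lit 0) .nil) .nil)))) (.nd (nat_lit 9) 
(.lf (nat_lit 541008) (.g (nat_lit 4344) (.e (nat_lit 90172) (nat_lit 14) (.e (nat_lit 180250) (nat_lit 10) (.e (nat_lit 573489) (nat_lit 14) (.e (nat_lit 73755) (nat_lit 8) (.e (nat_lit 557090) (nat_lit 12) (.e (nat_lit 163843) (nat_lit 0) (.e (nat_lit 5941) (nat_lit 322) (.e (nat_lit 57372) (nat_lit 2) .nil)))))))) (.g (nat_lit 1) (.e (nat_lit 271438) (nat_lit 0) .nil) .nil))) 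
(.lf (nat_lit 541520) (.g (nat_lit 3314) (.e (nat_lit 98313) (nat_lit 9) (.e (nat_lit 335986) (nat_lit 1) (.e (nat_lit 57926) (nat_lit 282) (.e (nat_lit 163944) (nat_lit 19) (.e (nat_lit 483393) (nat_lit 23) (.e (nat_lit 336021) (nat_lit 3) .nil)))))) (.g (nat_lit 1) (.e (nat_lit 272321) (nat_lit 0) .nil) .nil))))) (.nd (nat_lit 8) (.nd (nat_lit 9) 
(.lf (nat_lit 540880) (.g (nat_lit 2913) (.e (nat_lit 90170) (nat_lit 13) (.e (nat_lit 172121) (nat_lit 13) (.e (nat_lit 483365) (nat_lit 18) (.e (nat_lit 57692) (nat_lit 156) (.e (nat_lit 163907) (nat_lit 12) (.e (nat_lit 426428) (nat_lit 17) .nil)))))) (.g (nat_lit 1) (.e (nat_lit 271244) (nat_lit 0) .nil) .nil))) 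
(.lf (nat_lit 541392) (.g (nat_lit 1760) (.e (nat_lit 90178) (nat_lit 15) (.e (nat_lit 188452) (nat_lit 23) (.e (nat_lit 204846) (nat_lit 24) (.e (nat_lit 319505) (nat_lit 10) .nil)))) (.g (nat_lit 0) (.e (nat_lit 271937) (nat_lit 0) .nil) .nil)))) (.nd (nat_lit 9) 
(.lf (nat_lit 541136) (.g (nat_lit 1478) (.e (nat_lit 90174) (nat_lit 14) (.e (nat_lit 180243) (nat_lit 5) (.e (nat_lit 532515) (nat_lit 3) (.e (nat_lit 114718) (nat_lit 23) (.e (nat_lit 98334) (nat_lit 18) .nil))))) (.g (nat_lit 0) (.e (nat_lit 271640) (nat_lit 0) .nil) .nil))) 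
(.lf (nat_lit 541648) (.g (nat_lit 2104) (.e (nat_lit 98332) (nat_lit 18) (.e (nat_lit 164182) (nat_lit 154) (.e (nat_lit 57379) (nat_lit 3) (.e (nat_lit 98338) (nat_lit 19) .nil)))) (.g (nat_lit 0) (.e (nat_lit 272698) (nat_lit 0) .nil) .nil))))))) (.nd (nat_lit 6) (.nd (nat_lit 7) (.nd (nat_lit 8) (.nd (nat_lit 9) 
(.lf (nat_lit 540720) (.g (nat_lit 1679) (.e (nat_lit 90170) (nat_lit 13) (.e (nat_lit 172113) (nat_lit 10) (.e (nat_lit 434231) (nat_lit 23) (.e (nat_lit 532486) (nat_lit 0) (.e (nat_lit 6113) (nat_lit 332) .nil))))) (.g (nat_lit 0) (.e (nat_lit 271077) (nat_lit 0) .nil) .nil))) 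
(.lf (nat_lit 541232) (.g (nat_lit 3343) (.e (nat_lit 90174) (nat_lit 14) (.e (nat_lit 180251) (nat_lit 10) (.e (nat_lit 573489) (nat_lit 14) (.e (nat_lit 73755) (nat_lit 8) (.e (nat_lit 557075) (nat_lit 9) (.e (nat_lit 2601) (nat_lit 163) (.e (nat_lit 164399) (nat_lit 256) (.e (nat_lit 57373) (nat_lit 2) .nil)))))))) (.g (nat_lit 1) (.e (nat_lit 271737) (nat_lit 0) .nil) .nil)))) 
(.nd (nat_lit 9) 
(.lf (nat_lit 540976) (.g (nat_lit 3228) (.e (nat_lit 90172) (nat_lit 14) (.e (nat_lit 180250) (nat_lit 10) (.e (nat_lit 573487) (nat_lit 14) (.e (nat_lit 73753) (nat_lit 8) (.e (nat_lit 557091) (nat_lit 12) (.e (nat_lit 163840) (nat_lit 0) (.e (nat_lit 5943) (nat_lit 322) (.e (nat_lit 57372) (nat_lit 2) .nil)))))))) (.g (nat_lit 1) (.e (nat_lit 271406) (nat_lit 0) .nil) .nil))) 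
(.lf (nat_lit 541488) (.g (nat_lit 1792) (.e (nat_lit 90187) (nat_lit 18) (.e (nat_lit 2797) (nat_lit 180) (.e (nat_lit 303127) (nat_lit 9) (.e (nat_lit 426568) (nat_lit 34) .nil)))) (.g (nat_lit 0) (.e (nat_lit 272094) (nat_lit 0) .nil) .nil))))) (.nd (nat_lit 8) (.nd (nat_lit 9) 
(.lf (nat_lit 540848) (.g (nat_lit 2376) (.e (nat_lit 90170) (nat_lit 13) (.e (nat_lit 172113) (nat_lit 10) (.e (nat_lit 434248) (nat_lit 28) (.e (nat_lit 573475) (nat_lit 12) (.e (nat_lit 57348) (nat_lit 0) (.e (nat_lit 7265) (nat_lit 384) (.e (nat_lit 57406) (nat_lit 12) (.e (nat_lit 343808) (nat_lit 2) .nil)))))))) (.g (nat_lit 1) (.e (nat_lit 271210) (nat_lit 0) .nil) .nil))) 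
(.lf (nat_lit 541360) (.g (nat_lit 2433) (.e (nat_lit 90176) (nat_lit 15) (.e (nat_lit 188452) (nat_lit 23) (.e (nat_lit 204846) (nat_lit 24) (.e (nat_lit 319505) (nat_lit 10) (.e (nat_lit 7936) (nat_lit 298) .nil))))) (.g (nat_lit 0) (.e (nat_lit 271892) (nat_lit 0) .nil) .nil)))) (.nd (nat_lit 9) 
(.lf (nat_lit 541104) (.g (nat_lit 4294) (.e (nat_lit 90174) (nat_lit 14) (.e (nat_lit 180243) (nat_lit 5) (.e (nat_lit 532501) (nat_lit 1) (.e (nat_lit 57692) (nat_lit 156) (.e (nat_lit 163874) (nat_lit 3) (.e (nat_lit 204838) (nat_lit 20) (.e (nat_lit 114716) (nat_lit 22) .nil))))))) (.g (nat_lit 1) (.e (nat_lit 271582) (nat_lit 0) .nil) .nil))) 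
(.lf (nat_lit 541616) (.g (nat_lit 1731) (.e (nat_lit 98320) (nat_lit 17) (.e (nat_lit 7593) (nat_lit 407) (.e (nat_lit 73746) (nat_lit 3) (.e (nat_lit 516117) (nat_lit 1) (.e (nat_lit 164427) (nat_lit 278) .nil))))) (.g (nat_lit 0) (.e (nat_lit 272626) (nat_lit 0) .nil) .nil)))))) (.nd (nat_lit 7) (.nd (nat_lit 8) (.nd (nat_lit 9) 
(.lf (nat_lit 540784) (.g (nat_lit 3621) (.e (nat_lit 90170) (nat_lit 13) (.e (nat_lit 172113) (nat_lit 10) (.e (nat_lit 434245) (nat_lit 28) (.e (nat_lit 573474) (nat_lit 12) (.e (nat_lit 57347) (nat_lit 0) (.e (nat_lit 7265) (nat_lit 384) (.e (nat_lit 57412) (nat_lit 12) (.e (nat_lit 336008) (nat_lit 2) .nil)))))))) (.g (nat_lit 1) (.e (nat_lit 271141) (nat_lit 0) .nil) .nil))) 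
(.lf (nat_lit 541296) (.g (nat_lit 1682) (.e (nat_lit 90175) (nat_lit 15) (.e (nat_lit 188452) (nat_lit 23) (.e (nat_lit 204846) (nat_lit 24) (.e (nat_lit 319505) (nat_lit 10) .nil)))) (.g (nat_lit 0) (.e (nat_lit 271815) (nat_lit 0) .nil) .nil)))) (.nd (nat_lit 9) 
(.lf (nat_lit 541040) (.g (nat_lit 3210) (.e (nat_lit 90173) (nat_lit 14) (.e (nat_lit 180251) (nat_lit 10) (.e (nat_lit 573489) (nat_lit 14) (.e (nat_lit 73755) (nat_lit 8) (.e (nat_lit 557090) (nat_lit 12) (.e (nat_lit 163843) (nat_lit 0) (.e (nat_lit 5942) (nat_lit 322) (.e (nat_lit 57373) (nat_lit 2) .nil)))))))) (.g (nat_lit 1) (.e (nat_lit 271481) (nat_lit 0) .nil) .nil))) 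
(.lf (nat_lit 541552) (.g (nat_lit 1622) (.e (nat_lit 98313) (nat_lit 9) (.e (nat_lit 336088) (nat_lit 9) (.e (nat_lit 336452) (nat_lit 34) (.e (nat_lit 483363) (nat_lit 18) (.e (nat_lit 57847) (nat_lit 252) .nil))))) (.g (nat_lit 0) (.e (nat_lit 272422) (nat_lit 0) .nil) .nil))))) (.nd (nat_lit 8) (.nd (nat_lit 9) 
(.lf (nat_lit 540912) (.g (nat_lit 2297) (.e (nat_lit 90172) (nat_lit 14) (.e (nat_lit 180243) (nat_lit 5) (.e (nat_lit 532499) (nat_lit 1) (.e (nat_lit 57653) (nat_lit 152) .nil)))) (.g (nat_lit 0) (.e (nat_lit 271280) (nat_lit 0) .nil) .nil))) 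
(.lf (nat_lit 541424) (.g (nat_lit 1909) (.e (nat_lit 90185) (nat_lit 17) (.e (nat_lit 237616) (nat_lit 12) (.e (nat_lit 475177) (nat_lit 24) (.e (nat_lit 516097) (nat_lit 0) (.e (nat_lit 3650) (nat_lit 227) (.e (nat_lit 778462) (nat_lit 11) (.e (nat_lit 24604) (nat_lit 2) .nil))))))) (.g (nat_lit 1) (.e (nat_lit 272027) (nat_lit 0) .nil) .nil)))) (.nd (nat_lit 9) 
(.lf (nat_lit 541168) (.g (nat_lit 4078) (.e (nat_lit 90174) (nat_lit 14) (.e (nat_lit 180250) (nat_lit 10) (.e (nat_lit 573489) (nat_lit 14) (.e (nat_lit 73755) (nat_lit 8) (.e (nat_lit 557067) (nat_lit 9) (.e (nat_lit 2603) (nat_lit 163) (.e (nat_lit 164397) (nat_lit 256) (.e (nat_lit 57371) (nat_lit 2) .nil)))))))) (.g (nat_lit 1) (.e (nat_lit 271673) (nat_lit 0) .nil) .nil))) 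
(.lf (nat_lit 541680) (.g (nat_lit 3463) (.e (nat_lit 98333) (nat_lit 18) (.e (nat_lit 164179) (nat_lit 154) (.e (nat_lit 57379) (nat_lit 3) (.e (nat_lit 98341) (nat_lit 20) (.e (nat_lit 221215) (nat_lit 23) (.e (nat_lit 204861) (nat_lit 26) (.e (nat_lit 336025) (nat_lit 3) .nil))))))) (.g (nat_lit 1) (.e (nat_lit 272781) (nat_lit 0) .nil) .nil))))))))) 
(.nd (nat_lit 4) (.nd (nat_lit 5) (.nd (nat_lit 6) (.nd (nat_lit 7) (.nd (nat_lit 8) 
(.nd (nat_lit 9) 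
(.lf (nat_lit 540680) (.g (nat_lit 3026) (.e (nat_lit 90170) (nat_lit 13) (.e (nat_lit 172106) (nat_lit 10) (.e (nat_lit 434244) (nat_lit 28) (.e (nat_lit 573458) (nat_lit 9) (.e (nat_lit 426) (nat_lit 32) (.e (nat_lit 426012) (nat_lit 0) (.e (nat_lit 7490) (nat_lit 402) (.e (nat_lit 1239) (nat_lit 91) .nil)))))))) (.g (nat_lit 1) (.e (nat_lit 271037) (nat_lit 0) .nil) .nil))) 
(.lf (nat_lit 541192) (.g (nat_lit 3230) (.e (nat_lit 90174) (nat_lit 14) (.e (nat_lit 180250) (nat_lit 10) (.e (nat_lit 573489) (nat_lit 14) (.e (nat_lit 73755) (nat_lit 8) (.e (nat_lit 557091) (nat_lit 12) (.e (nat_lit 163840) (nat_lit 0) (.e (nat_lit 5939) (nat_lit 322) (.e (nat_lit 57372) (nat_lit 2) .nil)))))))) (.g (nat_lit 1) (.e (nat_lit 271697) (nat_lit 0) .nil) .nil)))) (.nd (nat_lit 9) 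
(.lf (nat_lit 540936) (.g (nat_lit 1455) (.e (nat_lit 90172) (nat_lit 14) (.e (nat_lit 180244) (nat_lit 5) (.e (nat_lit 532499) (nat_lit 1) (.e (nat_lit 57654) (nat_lit 152) .nil)))) (.g (nat_lit 0) (.e (nat_lit 271331) (nat_lit 0) .nil) .nil))) 
(.lf (nat_lit 541448) (.g (nat_lit 1908) (.e (nat_lit 90185) (nat_lit 17) (.e (nat_lit 237619) (nat_lit 12) (.e (nat_lit 475177) (nat_lit 24) (.e (nat_lit 516097) (nat_lit 0) (.e (nat_lit 3661) (nat_lit 227) (.e (nat_lit 778462) (nat_lit 11) (.e (nat_lit 24604) (nat_lit 2) .nil))))))) (.g (nat_lit 1) (.e (nat_lit 272051) (nat_lit 0) .nil) .nil))))) (.nd (nat_lit 8) (.nd (nat_lit 9) 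
(.lf (nat_lit 540808) (.g (nat_lit 1575) (.e (nat_lit 90170) (nat_lit 13) (.e (nat_lit 172113) (nat_lit 10) (.e (nat_lit 434247) (nat_lit 28) (.e (nat_lit 573470) (nat_lit 11) .nil)))) (.g (nat_lit 0) (.e (nat_lit 271167) (nat_lit 0) .nil) .nil))) 
(.lf (nat_lit 541320) (.g (nat_lit 2044) (.e (nat_lit 90176) (nat_lit 15) (.e (nat_lit 188438) (nat_lit 20) (.e (nat_lit 3307) (nat_lit 202) (.e (nat_lit 573477) (nat_lit 12) (.e (nat_lit 57575) (nat_lit 55) .nil))))) (.g (nat_lit 0) (.e (nat_lit 271846) (nat_lit 0) .nil) .nil)))) (.nd (nat_lit 9) 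
(.lf (nat_lit 541064) (.g (nat_lit 3500) (.e (nat_lit 90173) (nat_lit 14) (.e (nat_lit 180252) (nat_lit 10) (.e (nat_lit 573489) (nat_lit 14) (.e (nat_lit 73755) (nat_lit 8) (.e (nat_lit 557090) (nat_lit 12) (.e (nat_lit 163851) (nat_lit 0) (.e (nat_lit 5935) (nat_lit 322) (.e (nat_lit 57371) (nat_lit 2) .nil)))))))) (.g (nat_lit 1) (.e (nat_lit 271512) (nat_lit 0) .nil) .nil))) 
(.lf (nat_lit 541576) (.g (nat_lit 2766) (.e (nat_lit 98317) (nat_lit 9) (.e (nat_lit 335988) (nat_lit 1) (.e (nat_lit 57926) (nat_lit 282) (.e (nat_lit 163905) (nat_lit 12) (.e (nat_lit 426555) (nat_lit 32) (.e (nat_lit 376867) (nat_lit 23) .nil)))))) (.g (nat_lit 1) (.e (nat_lit 272476) (nat_lit 0) .nil) .nil)))))) (.nd (nat_lit 7) (.nd (nat_lit 8) (.nd (nat_lit 9) 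
(.lf (nat_lit 540744) (.g (nat_lit 2837) (.e (nat_lit 90170) (nat_lit 13) (.e (nat_lit 172113) (nat_lit 10) (.e (nat_lit 434245) (nat_lit 28) (.e (nat_lit 573449) (nat_lit 9) (.e (nat_lit 359) (nat_lit 30) (.e (nat_lit 409602) (nat_lit 0) (.e (nat_lit 5293) (nat_lit 298) (.e (nat_lit 1232) (nat_lit 91) .nil)))))))) (.g (nat_lit 1) (.e (nat_lit 271101) (nat_lit 0) .nil) .nil))) 
(.lf (nat_lit 541256) (.g (nat_lit 4463) (.e (nat_lit 90174) (nat_lit 14) (.e (nat_lit 180251) (nat_lit 10) (.e (nat_lit 573489) (nat_lit 14) (.e (nat_lit 73755) (nat_lit 8) (.e (nat_lit 557090) (nat_lit 12) (.e (nat_lit 163845) (nat_lit 0) (.e (nat_lit 5934) (nat_lit 322) (.e (nat_lit 57371) (nat_lit 2) .nil)))))))) (.g (nat_lit 1) (.e (nat_lit 271761) (nat_lit 0) .nil) .nil)))) (.nd (nat_lit 9) 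
(.lf (nat_lit 541000) (.g (nat_lit 3903) (.e (nat_lit 90172) (nat_lit 14) (.e (nat_lit 180250) (nat_lit 10) (.e (nat_lit 573489) (nat_lit 14) (.e (nat_lit 73755) (nat_lit 8) (.e (nat_lit 557090) (nat_lit 12) (.e (nat_lit 163841) (nat_lit 0) (.e (nat_lit 5933) (nat_lit 322) (.e (nat_lit 57375) (nat_lit 2) .nil)))))))) (.g (nat_lit 1) (.e (nat_lit 271430) (nat_lit 0) .nil) .nil))) 
(.lf (nat_lit 541512) (.g (nat_lit 2821) (.e (nat_lit 98312) (nat_lit 9) (.e (nat_lit 335988) (nat_lit 1) (.e (nat_lit 57931) (nat_lit 282) (.e (nat_lit 163905) (nat_lit 12) (.e (nat_lit 426542) (nat_lit 29) (.e (nat_lit 352313) (nat_lit 23) .nil)))))) (.g (nat_lit 1) (.e (nat_lit 272302) (nat_lit 0) .nil) .nil))))) (.nd (nat_lit 8) (.nd (nat_lit 9) 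
(.lf (nat_lit 540872) (.g (nat_lit 2924) (.e (nat_lit 90170) (nat_lit 13) (.e (nat_lit 172120) (nat_lit 12) (.e (nat_lit 475179) (nat_lit 24) (.e (nat_lit 516131) (nat_lit 3) (.e (nat_lit 221193) (nat_lit 11) (.e (nat_lit 336010) (nat_lit 2) .nil)))))) (.g (nat_lit 1) (.e (nat_lit 271236) (nat_lit 0) .nil) .nil))) 
(.lf (nat_lit 541384) (.g (nat_lit 2892) (.e (nat_lit 90178) (nat_lit 15) (.e (nat_lit 188440) (nat_lit 20) (.e (nat_lit 3307) (nat_lit 202) (.e (nat_lit 573477) (nat_lit 12) (.e (nat_lit 57574) (nat_lit 55) (.e (nat_lit 778466) (nat_lit 11) (.e (nat_lit 24602) (nat_lit 2) .nil))))))) (.g (nat_lit 1) (.e (nat_lit 271929) (nat_lit 0) .nil) .nil)))) (.nd (nat_lit 9) 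
(.lf (nat_lit 541128) (.g (nat_lit 2212) (.e (nat_lit 90174) (nat_lit 14) (.e (nat_lit 180243) (nat_lit 5) (.e (nat_lit 532513) (nat_lit 3) (.e (nat_lit 114718) (nat_lit 23) (.e (nat_lit 98332) (nat_lit 18) .nil))))) (.g (nat_lit 0) (.e (nat_lit 271632) (nat_lit 0) .nil) .nil))) 
(.lf (nat_lit 541640) (.g (nat_lit 1576) (.e (nat_lit 98325) (nat_lit 17) (.e (nat_lit 3711) (nat_lit 227) (.e (nat_lit 778469) (nat_lit 11) (.e (nat_lit 24608) (nat_lit 3) (.e (nat_lit 98381) (nat_lit 31) (.e (nat_lit 474880) (nat_lit 3) .nil)))))) (.g (nat_lit 1) (.e (nat_lit 272672) (nat_lit 0) .nil) .nil))))))) (.nd (nat_lit 6) (.nd (nat_lit 7) (.nd (nat_lit 8) (.nd (nat_lit 9) 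
(.lf (nat_lit 540712) (.g (nat_lit 3837) (.e (nat_lit 90170) (nat_lit 13) (.e (nat_lit 172106) (nat_lit 10) (.e (nat_lit 434244) (nat_lit 28) (.e (nat_lit 573477) (nat_lit 12) (.e (nat_lit 57575) (nat_lit 55) (.e (nat_lit 778465) (nat_lit 11) (.e (nat_lit 24604) (nat_lit 2) .nil))))))) (.g (nat_lit 1) (.e (nat_lit 271069) (nat_lit 0) .nil) .nil))) 
(.lf (nat_lit 541224) (.g (nat_lit 3235) (.e (nat_lit 90174) (nat_lit 14) (.e (nat_lit 180251) (nat_lit 10) (.e (nat_lit 573489) (nat_lit 14) (.e (nat_lit 73755) (nat_lit 8) (.e (nat_lit 557067) (nat_lit 9) (.e (nat_lit 2604) (nat_lit 163) (.e (nat_lit 164398) (nat_lit 256) (.e (nat_lit 57372) (nat_lit 2) .nil)))))))) (.g (nat_lit 1) (.e (nat_lit 271729) (nat_lit 0) .nil) .nil)))) 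
(.nd (nat_lit 9) 
(.lf (nat_lit 540968) (.g (nat_lit 658) (.e (nat_lit 90172) (nat_lit 14) (.e (nat_lit 180250) (nat_lit 10) (.e (nat_lit 573478) (nat_lit 12) .nil))) (.g (nat_lit 0) (.e (nat_lit 271397) (nat_lit 0) .nil) .nil))) 
(.lf (nat_lit 541480) (.g (nat_lit 2039) (.e (nat_lit 90185) (nat_lit 17) (.e (nat_lit 237621) (nat_lit 13) (.e (nat_lit 483337) (nat_lit 9) (.e (nat_lit 426099) (nat_lit 1) (.e (nat_lit 164399) (nat_lit 256) (.e (nat_lit 57372) (nat_lit 2) .nil)))))) (.g (nat_lit 1) (.e (nat_lit 272083) (nat_lit 0) .nil) .nil))))) (.nd (nat_lit 8) (.nd (nat_lit 9) 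
(.lf (nat_lit 540840) (.g (nat_lit 2182) (.e (nat_lit 90170) (nat_lit 13) (.e (nat_lit 172113) (nat_lit 10) (.e (nat_lit 434248) (nat_lit 28) (.e (nat_lit 573473) (nat_lit 12) (.e (nat_lit 57348) (nat_lit 0) (.e (nat_lit 7265) (nat_lit 384) (.e (nat_lit 57406) (nat_lit 12) (.e (nat_lit 343808) (nat_lit 2) .nil)))))))) (.g (nat_lit 1) (.e (nat_lit 271202) (nat_lit 0) .nil) .nil))) 
(.lf (nat_lit 541352) (.g (nat_lit 3708) (.e (nat_lit 90176) (nat_lit 15) (.e (nat_lit 188450) (nat_lit 23) (.e (nat_lit 204846) (nat_lit 24) (.e (nat_lit 319536) (nat_lit 17) (.e (nat_lit 294928) (nat_lit 2) .nil))))) (.g (nat_lit 1) (.e (nat_lit 271883) (nat_lit 0) .nil) .nil)))) (.nd (nat_lit 9) 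
(.lf (nat_lit 541096) (.g (nat_lit 2467) (.e (nat_lit 90174) (nat_lit 14) (.e (nat_lit 180243) (nat_lit 5) (.e (nat_lit 532499) (nat_lit 1) (.e (nat_lit 57691) (nat_lit 156) (.e (nat_lit 163874) (nat_lit 3) (.e (nat_lit 204838) (nat_lit 20) (.e (nat_lit 114715) (nat_lit 22) .nil))))))) (.g (nat_lit 1) (.e (nat_lit 271559) (nat_lit 0) .nil) .nil))) 
(.lf (nat_lit 541608) (.g (nat_lit 3655) (.e (nat_lit 98319) (nat_lit 17) (.e (nat_lit 7589) (nat_lit 406) (.e (nat_lit 65637) (nat_lit 15) (.e (nat_lit 3305) (nat_lit 202) (.e (nat_lit 573493) (nat_lit 15) (.e (nat_lit 81956) (nat_lit 23) .nil)))))) (.g (nat_lit 1) (.e (nat_lit 272608) (nat_lit 0) .nil) .nil)))))) (.nd (nat_lit 7) (.nd (nat_lit 8) (.nd (nat_lit 9) 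
(.lf (nat_lit 540776) (.g (nat_lit 1919) (.e (nat_lit 90170) (nat_lit 13) (.e (nat_lit 172113) (nat_lit 10) (.e (nat_lit 434245) (nat_lit 28) (.e (nat_lit 573473) (nat_lit 12) (.e (nat_lit 57348) (nat_lit 0) (.e (nat_lit 7265) (nat_lit 384) (.e (nat_lit 57406) (nat_lit 12) (.e (nat_lit 343808) (nat_lit 2) .nil)))))))) (.g (nat_lit 1) (.e (nat_lit 271133) (nat_lit 0) .nil) .nil))) 
(.lf (nat_lit 541288) (.g (nat_lit 3125) (.e (nat_lit 90175) (nat_lit 15) (.e (nat_lit 188440) (nat_lit 20) (.e (nat_lit 3307) (nat_lit 202) (.e (nat_lit 573477) (nat_lit 12) (.e (nat_lit 57575) (nat_lit 55) .nil))))) (.g (nat_lit 0) (.e (nat_lit 271795) (nat_lit 0) .nil) .nil)))) (.nd (nat_lit 9) 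
(.lf (nat_lit 541032) (.g (nat_lit 2394) (.e (nat_lit 90172) (nat_lit 14) (.e (nat_lit 180251) (nat_lit 10) (.e (nat_lit 573489) (nat_lit 14) (.e (nat_lit 73755) (nat_lit 8) (.e (nat_lit 557119) (nat_lit 18) (.e (nat_lit 2798) (nat_lit 180) (.e (nat_lit 311040) (nat_lit 17) .nil))))))) (.g (nat_lit 1) (.e (nat_lit 271462) (nat_lit 0) .nil) .nil))) 
(.lf (nat_lit 541544) (.g (nat_lit 887) (.e (nat_lit 98313) (nat_lit 9) (.e (nat_lit 336027) (nat_lit 3) (.e (nat_lit 98319) (nat_lit 17) .nil))) (.g (nat_lit 0) (.e (nat_lit 272404) (nat_lit 0) .nil) .nil))))) (.nd (nat_lit 8) (.nd (nat_lit 9) 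
(.lf (nat_lit 540904) (.g (nat_lit 2403) (.e (nat_lit 90171) (nat_lit 14) (.e (nat_lit 180251) (nat_lit 10) (.e (nat_lit 573489) (nat_lit 14) (.e (nat_lit 73755) (nat_lit 8) (.e (nat_lit 557089) (nat_lit 12) .nil))))) (.g (nat_lit 0) (.e (nat_lit 271268) (nat_lit 0) .nil) .nil))) 
(.lf (nat_lit 541416) (.g (nat_lit 2047) (.e (nat_lit 90185) (nat_lit 17) (.e (nat_lit 237605) (nat_lit 9) (.e (nat_lit 426436) (nat_lit 18) (.e (nat_lit 98338) (nat_lit 19) (.e (nat_lit 213032) (nat_lit 11) (.e (nat_lit 24603) (nat_lit 2) .nil)))))) (.g (nat_lit 1) (.e (nat_lit 272019) (nat_lit 0) .nil) .nil)))) (.nd (nat_lit 9) 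
(.lf (nat_lit 541160) (.g (nat_lit 2619) (.e (nat_lit 90174) (nat_lit 14) (.e (nat_lit 180250) (nat_lit 10) (.e (nat_lit 573489) (nat_lit 14) (.e (nat_lit 73755) (nat_lit 8) (.e (nat_lit 557065) (nat_lit 9) (.e (nat_lit 2604) (nat_lit 163) (.e (nat_lit 164396) (nat_lit 256) (.e (nat_lit 57371) (nat_lit 2) .nil)))))))) (.g (nat_lit 1) (.e (nat_lit 271665) (nat_lit 0) .nil) .nil))) 
(.lf (nat_lit 541672) (.g (nat_lit 2016) (.e (nat_lit 98332) (nat_lit 18) (.e (nat_lit 164403) (nat_lit 256) (.e (nat_lit 57378) (nat_lit 3) (.e (nat_lit 98366) (nat_lit 27) .nil)))) (.g (nat_lit 0) (.e (nat_lit 272756) (nat_lit 0) .nil) .nil)))))))) (.nd (nat_lit 5) (.nd (nat_lit 6) (.nd (nat_lit 7) (.nd (nat_lit 8) (.nd (nat_lit 9) 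
(.lf (nat_lit 540696) (.g (nat_lit 1833) (.e (nat_lit 90170) (nat_lit 13) (.e (nat_lit 172106) (nat_lit 10) (.e (nat_lit 434244) (nat_lit 28) (.e (nat_lit 573474) (nat_lit 12) (.e (nat_lit 57345) (nat_lit 0) (.e (nat_lit 7263) (nat_lit 384) (.e (nat_lit 57412) (nat_lit 12) (.e (nat_lit 336001) (nat_lit 2) .nil)))))))) (.g (nat_lit 1) (.e (nat_lit 271053) (nat_lit 0) .nil) .nil))) 
(.lf (nat_lit 541208) (.g (nat_lit 3546) (.e (nat_lit 90174) (nat_lit 14) (.e (nat_lit 180250) (nat_lit 10) (.e (nat_lit 573489) (nat_lit 14) (.e (nat_lit 73755) (nat_lit 8) (.e (nat_lit 557119) (nat_lit 18) (.e (nat_lit 2796) (nat_lit 180) (.e (nat_lit 311040) (nat_lit 17) .nil))))))) (.g (nat_lit 1) (.e (nat_lit 271713) (nat_lit 0) .nil) .nil)))) (.nd (nat_lit 9) 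
(.lf (nat_lit 540952) (.g (nat_lit 2477) (.e (nat_lit 90172) (nat_lit 14) (.e (nat_lit 180244) (nat_lit 5) (.e (nat_lit 532503) (nat_lit 1) (.e (nat_lit 57688) (nat_lit 156) (.e (nat_lit 163844) (nat_lit 0) (.e (nat_lit 3230) (nat_lit 197) (.e (nat_lit 532514) (nat_lit 3) (.e (nat_lit 114716) (nat_lit 22) .nil)))))))) (.g (nat_lit 1) (.e (nat_lit 271369) (nat_lit 0) .nil) .nil))) 
(.lf (nat_lit 541464) (.g (nat_lit 1718) (.e (nat_lit 90185) (nat_lit 17) (.e (nat_lit 237619) (nat_lit 12) (.e (nat_lit 475177) (nat_lit 24) (.e (nat_lit 516127) (nat_lit 2) (.e (nat_lit 213030) (nat_lit 11) (.e (nat_lit 24603) (nat_lit 2) .nil)))))) (.g (nat_lit 1) (.e (nat_lit 272067) (nat_lit 0) .nil) .nil))))) (.nd (nat_lit 8) (.nd (nat_lit 9) 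
(.lf (nat_lit 540824) (.g (nat_lit 1823) (.e (nat_lit 90170) (nat_lit 13) (.e (nat_lit 172113) (nat_lit 10) (.e (nat_lit 434248) (nat_lit 28) (.e (nat_lit 573449) (nat_lit 9) (.e (nat_lit 7936) (nat_lit 33) .nil))))) (.g (nat_lit 0) (.e (nat_lit 271186) (nat_lit 0) .nil) .nil))) 
(.lf (nat_lit 541336) (.g (nat_lit 1104) (.e (nat_lit 90176) (nat_lit 15) (.e (nat_lit 188450) (nat_lit 23) (.e (nat_lit 204829) (nat_lit 18) (.e (nat_lit 65280) (nat_lit 233) .nil)))) (.g (nat_lit 0) (.e (nat_lit 271865) (nat_lit 0) .nil) .nil)))) (.nd (nat_lit 9) 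
(.lf (nat_lit 541080) (.g (nat_lit 2576) (.e (nat_lit 90174) (nat_lit 14) (.e (nat_lit 180243) (nat_lit 5) (.e (nat_lit 532499) (nat_lit 1) (.e (nat_lit 57688) (nat_lit 156) (.e (nat_lit 163843) (nat_lit 0) .nil))))) (.g (nat_lit 0) (.e (nat_lit 271539) (nat_lit 0) .nil) .nil))) 
(.lf (nat_lit 541592) (.g (nat_lit 2251) (.e (nat_lit 98317) (nat_lit 9) (.e (nat_lit 335995) (nat_lit 1) (.e (nat_lit 57931) (nat_lit 282) (.e (nat_lit 163902) (nat_lit 12) (.e (nat_lit 426556) (nat_lit 32) (.e (nat_lit 376868) (nat_lit 23) .nil)))))) (.g (nat_lit 1) (.e (nat_lit 272513) (nat_lit 0) .nil) .nil)))))) (.nd (nat_lit 7) (.nd (nat_lit 8) (.nd (nat_lit 9) 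
(.lf (nat_lit 540760) (.g (nat_lit 2527) (.e (nat_lit 90170) (nat_lit 13) (.e (nat_lit 172113) (nat_lit 10) (.e (nat_lit 434245) (nat_lit 28) (.e (nat_lit 573458) (nat_lit 9) (.e (nat_lit 7936) (nat_lit 33) (.e (nat_lit 442112) (nat_lit 0) (.e (nat_lit 1239) (nat_lit 91) .nil))))))) (.g (nat_lit 1) (.e (nat_lit 271117) (nat_lit 0) .nil) .nil))) 
(.lf (nat_lit 541272) (.g (nat_lit 3351) (.e (nat_lit 90174) (nat_lit 14) (.e (nat_lit 180251) (nat_lit 10) (.e (nat_lit 573489) (nat_lit 14) (.e (nat_lit 73755) (nat_lit 8) (.e (nat_lit 557090) (nat_lit 12) (.e (nat_lit 171776) (nat_lit 0) (.e (nat_lit 5937) (nat_lit 322) (.e (nat_lit 57372) (nat_lit 2) .nil)))))))) (.g (nat_lit 1) (.e (nat_lit 271777) (nat_lit 0) .nil) .nil)))) (.nd (nat_lit 9) 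
(.lf (nat_lit 541016) (.g (nat_lit 3485) (.e (nat_lit 90172) (nat_lit 14) (.e (nat_lit 180250) (nat_lit 10) (.e (nat_lit 573489) (nat_lit 14) (.e (nat_lit 73755) (nat_lit 8) (.e (nat_lit 557090) (nat_lit 12) (.e (nat_lit 163845) (nat_lit 0) (.e (nat_lit 5943) (nat_lit 322) (.e (nat_lit 57375) (nat_lit 2) .nil)))))))) (.g (nat_lit 1) (.e (nat_lit 271446) (nat_lit 0) .nil) .nil))) 
(.lf (nat_lit 541528) (.g (nat_lit 3101) (.e (nat_lit 98313) (nat_lit 9) (.e (nat_lit 335988) (nat_lit 1) (.e (nat_lit 57926) (nat_lit 282) (.e (nat_lit 163905) (nat_lit 12) (.e (nat_lit 426555) (nat_lit 32) (.e (nat_lit 376869) (nat_lit 23) .nil)))))) (.g (nat_lit 1) (.e (nat_lit 272339) (nat_lit 0) .nil) .nil))))) (.nd (nat_lit 8) (.nd (nat_lit 9) 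
(.lf (nat_lit 540888) (.g (nat_lit 1929) (.e (nat_lit 90170) (nat_lit 13) (.e (nat_lit 172123) (nat_lit 13) (.e (nat_lit 483341) (nat_lit 9) (.e (nat_lit 426100) (nat_lit 1) (.e (nat_lit 164399) (nat_lit 256) .nil))))) (.g (nat_lit 0) (.e (nat_lit 271252) (nat_lit 0) .nil) .nil))) 
(.lf (nat_lit 541400) (.g (nat_lit 1144) (.e (nat_lit 90185) (nat_lit 17) (.e (nat_lit 237582) (nat_lit 1) (.e (nat_lit 164403) (nat_lit 256) (.e (nat_lit 57579) (nat_lit 61) .nil)))) (.g (nat_lit 0) (.e (nat_lit 271984) (nat_lit 0) .nil) .nil)))) (.nd (nat_lit 9) 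
(.lf (nat_lit 541144) (.g (nat_lit 1505) (.e (nat_lit 90174) (nat_lit 14) (.e (nat_lit 180245) (nat_lit 5) (.e (nat_lit 532515) (nat_lit 3) (.e (nat_lit 114716) (nat_lit 22) (.e (nat_lit 90140) (nat_lit 9) .nil))))) (.g (nat_lit 0) (.e (nat_lit 271648) (nat_lit 0) .nil) .nil))) 
(.lf (nat_lit 541656) (.g (nat_lit 2495) (.e (nat_lit 98332) (nat_lit 18) (.e (nat_lit 164327) (nat_lit 230) (.e (nat_lit 163875) (nat_lit 3) (.e (nat_lit 204809) (nat_lit 9) (.e (nat_lit 426139) (nat_lit 3) (.e (nat_lit 204817) (nat_lit 17) (.e (nat_lit 2198) (nat_lit 144) (.e (nat_lit 720945) (nat_lit 23) .nil)))))))) (.g (nat_lit 1) (.e (nat_lit 272726) (nat_lit 0) .nil) .nil))))))) 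
(.nd (nat_lit 6) (.nd (nat_lit 7) (.nd (nat_lit 8) (.nd (nat_lit 9) 
(.lf (nat_lit 540728) (.g (nat_lit 1160) (.e (nat_lit 90170) (nat_lit 13) (.e (nat_lit 172113) (nat_lit 10) (.e (nat_lit 434242) (nat_lit 28) (.e (nat_lit 573456) (nat_lit 9) (.e (nat_lit 7936) (nat_lit 33) .nil))))) (.g (nat_lit 0) (.e (nat_lit 271085) (nat_lit 0) .nil) .nil))) 
(.lf (nat_lit 541240) (.g (nat_lit 3638) (.e (nat_lit 90174) (nat_lit 14) (.e (nat_lit 180251) (nat_lit 10) (.e (nat_lit 573489) (nat_lit 14) (.e (nat_lit 73755) (nat_lit 8) (.e (nat_lit 557090) (nat_lit 12) (.e (nat_lit 163840) (nat_lit 0) (.e (nat_lit 5942) (nat_lit 322) (.e (nat_lit 57373) (nat_lit 2) .nil)))))))) (.g (nat_lit 1) (.e (nat_lit 271745) (nat_lit 0) .nil) .nil)))) (.nd (nat_lit 9) 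
(.lf (nat_lit 540984) (.g (nat_lit 3485) (.e (nat_lit 90172) (nat_lit 14) (.e (nat_lit 180250) (nat_lit 10) (.e (nat_lit 573487) (nat_lit 14) (.e (nat_lit 73753) (nat_lit 8) (.e (nat_lit 557119) (nat_lit 18) (.e (nat_lit 2798) (nat_lit 180) (.e (nat_lit 311040) (nat_lit 17) .nil))))))) (.g (nat_lit 1) (.e (nat_lit 271414) (nat_lit 0) .nil) .nil))) 
(.lf (nat_lit 541496) (.g (nat_lit 892) (.e (nat_lit 90196) (nat_lit 18) (.e (nat_lit 2798) (nat_lit 180) (.e (nat_lit 303127) (nat_lit 9) (.e (nat_lit 426568) (nat_lit 34) .nil)))) (.g (nat_lit 0) (.e (nat_lit 272154) (nat_lit 0) .nil) .nil))))) (.nd (nat_lit 8) (.nd (nat_lit 9) 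
(.lf (nat_lit 540856) (.g (nat_lit 1196) (.e (nat_lit 90170) (nat_lit 13) (.e (nat_lit 172115) (nat_lit 10) (.e (nat_lit 434231) (nat_lit 23) (.e (nat_lit 532523) (nat_lit 7) .nil)))) (.g (nat_lit 0) (.e (nat_lit 271220) (nat_lit 0) .nil) .nil))) 
(.lf (nat_lit 541368) (.g (nat_lit 451) (.e (nat_lit 90177) (nat_lit 15) (.e (nat_lit 188452) (nat_lit 23) (.e (nat_lit 204845) (nat_lit 24) .nil))) (.g (nat_lit 0) (.e (nat_lit 271905) (nat_lit 0) .nil) .nil)))) (.nd (nat_lit 9) 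
(.lf (nat_lit 541112) (.g (nat_lit 2273) (.e (nat_lit 90174) (nat_lit 14) (.e (nat_lit 180243) (nat_lit 5) (.e (nat_lit 532503) (nat_lit 1) (.e (nat_lit 57688) (nat_lit 156) (.e (nat_lit 163844) (nat_lit 0) (.e (nat_lit 3230) (nat_lit 197) (.e (nat_lit 532514) (nat_lit 3) (.e (nat_lit 114716) (nat_lit 22) .nil)))))))) (.g (nat_lit 1) (.e (nat_lit 271599) (nat_lit 0) .nil) .nil))) 
(.lf (nat_lit 541624) (.g (nat_lit 2182) (.e (nat_lit 98323) (nat_lit 17) (.e (nat_lit 6989) (nat_lit 377) (.e (nat_lit 2810) (nat_lit 180) (.e (nat_lit 303117) (nat_lit 2) (.e (nat_lit 196681) (nat_lit 17) (.e (nat_lit 131109) (nat_lit 9) (.e (nat_lit 336019) (nat_lit 3) .nil))))))) (.g (nat_lit 1) (.e (nat_lit 272638) (nat_lit 0) .nil) .nil)))))) 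
(.nd (nat_lit 7) (.nd (nat_lit 8) (.nd (nat_lit 9) 
(.lf (nat_lit 540792) (.g (nat_lit 3374) (.e (nat_lit 90170) (nat_lit 13) (.e (nat_lit 172113) (nat_lit 10) (.e (nat_lit 434245) (nat_lit 28) (.e (nat_lit 573474) (nat_lit 12) (.e (nat_lit 57352) (nat_lit 0) (.e (nat_lit 7261) (nat_lit 384) (.e (nat_lit 57412) (nat_lit 12) (.e (nat_lit 336001) (nat_lit 2) .nil)))))))) (.g (nat_lit 1) (.e (nat_lit 271149) (nat_lit 0) .nil) .nil))) 
(.lf (nat_lit 541304) (.g (nat_lit 2518) (.e (nat_lit 90176) (nat_lit 15) (.e (nat_lit 188423) (nat_lit 11) (.e (nat_lit 335986) (nat_lit 1) (.e (nat_lit 57691) (nat_lit 156) (.e (nat_lit 163907) (nat_lit 12) (.e (nat_lit 426427) (nat_lit 17) .nil)))))) (.g (nat_lit 1) (.e (nat_lit 271830) (nat_lit 0) .nil) .nil)))) (.nd (nat_lit 9) 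
(.lf (nat_lit 541048) (.g (nat_lit 2420) (.e (nat_lit 90173) (nat_lit 14) (.e (nat_lit 180252) (nat_lit 10) (.e (nat_lit 573488) (nat_lit 14) (.e (nat_lit 73755) (nat_lit 8) (.e (nat_lit 557067) (nat_lit 9) .nil))))) (.g (nat_lit 0) (.e (nat_lit 271496) (nat_lit 0) .nil) .nil))) 
(.lf (nat_lit 541560) (.g (nat_lit 812) (.e (nat_lit 98316) (nat_lit 9) (.e (nat_lit 335995) (nat_lit 1) (.e (nat_lit 57931) (nat_lit 282) .nil))) (.g (nat_lit 0) (.e (nat_lit 272452) (nat_lit 0) .nil) .nil))))) (.nd (nat_lit 8) (.nd (nat_lit 9) 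
(.lf (nat_lit 540920) (.g (nat_lit 1369) (.e (nat_lit 90172) (nat_lit 14) (.e (nat_lit 180243) (nat_lit 5) (.e (nat_lit 532501) (nat_lit 1) (.e (nat_lit 57663) (nat_lit 152) .nil)))) (.g (nat_lit 0) (.e (nat_lit 271300) (nat_lit 0) .nil) .nil))) 
(.lf (nat_lit 541432) (.g (nat_lit 1790) (.e (nat_lit 90185) (nat_lit 17) (.e (nat_lit 237616) (nat_lit 12) (.e (nat_lit 475177) (nat_lit 24) (.e (nat_lit 516124) (nat_lit 2) (.e (nat_lit 213030) (nat_lit 11) (.e (nat_lit 24603) (nat_lit 2) .nil)))))) (.g (nat_lit 1) (.e (nat_lit 272035) (nat_lit 0) .nil) .nil)))) (.nd (nat_lit 9) 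
(.lf (nat_lit 541176) (.g (nat_lit 3438) (.e (nat_lit 90174) (nat_lit 14) (.e (nat_lit 180250) (nat_lit 10) (.e (nat_lit 573489) (nat_lit 14) (.e (nat_lit 73755) (nat_lit 8) (.e (nat_lit 557090) (nat_lit 12) (.e (nat_lit 163840) (nat_lit 0) (.e (nat_lit 5938) (nat_lit 322) (.e (nat_lit 57372) (nat_lit 2) .nil)))))))) (.g (nat_lit 1) (.e (nat_lit 271681) (nat_lit 0) .nil) .nil))) 
(.lf (nat_lit 541688) (.g (nat_lit 1519) (.e (nat_lit 98333) (nat_lit 18) (.e (nat_lit 164179) (nat_lit 154) (.e (nat_lit 57411) (nat_lit 12) (.e (nat_lit 336456) (nat_lit 34) .nil)))) (.g (nat_lit 0) (.e (nat_lit 272792) (nat_lit 0) .nil) .nil)))))))))) (.nd (nat_lit 3) (.nd (nat_lit 4) (.nd (nat_lit 5) (.nd (nat_lit 6) (.nd (nat_lit 7) (.nd (nat_lit 8) (.nd (nat_lit 9) 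
(.lf (nat_lit 540676) (.g (nat_lit 2343) (.e (nat_lit 90170) (nat_lit 13) (.e (nat_lit 172106) (nat_lit 10) (.e (nat_lit 434244) (nat_lit 28) (.e (nat_lit 573454) (nat_lit 9) (.e (nat_lit 397) (nat_lit 32) (.e (nat_lit 426011) (nat_lit 0) (.e (nat_lit 7490) (nat_lit 402) (.e (nat_lit 1239) (nat_lit 91) .nil)))))))) (.g (nat_lit 1) (.e (nat_lit 271033) (nat_lit 0) .nil) .nil))) 
(.lf (nat_lit 541188) (.g (nat_lit 2987) (.e (nat_lit 90174) (nat_lit 14) (.e (nat_lit 180250) (nat_lit 10) (.e (nat_lit 573489) (nat_lit 14) (.e (nat_lit 73755) (nat_lit 8) (.e (nat_lit 557090) (nat_lit 12) (.e (nat_lit 163850) (nat_lit 0) (.e (nat_lit 5935) (nat_lit 322) (.e (nat_lit 57371) (nat_lit 2) .nil)))))))) (.g (nat_lit 1) (.e (nat_lit 271693) (nat_lit 0) .nil) .nil)))) (.nd (nat_lit 9) 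
(.lf (nat_lit 540932) (.g (nat_lit 2686) (.e (nat_lit 90172) (nat_lit 14) (.e (nat_lit 180243) (nat_lit 5) (.e (nat_lit 532513) (nat_lit 3) (.e (nat_lit 114719) (nat_lit 23) (.e (nat_lit 98332) (nat_lit 18) .nil))))) (.g (nat_lit 0) (.e (nat_lit 271326) (nat_lit 0) .nil) .nil))) 
(.lf (nat_lit 541444) (.g (nat_lit 2118) (.e (nat_lit 90185) (nat_lit 17) (.e (nat_lit 237619) (nat_lit 12) (.e (nat_lit 475177) (nat_lit 24) (.e (nat_lit 516097) (nat_lit 0) (.e (nat_lit 3647) (nat_lit 227) (.e (nat_lit 778462) (nat_lit 11) (.e (nat_lit 24604) (nat_lit 2) .nil))))))) (.g (nat_lit 1) (.e (nat_lit 272047) (nat_lit 0) .nil) .nil))))) (.nd (nat_lit 8) (.nd (nat_lit 9) 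
(.lf (nat_lit 540804) (.g (nat_lit 1218) (.e (nat_lit 90170) (nat_lit 13) (.e (nat_lit 172113) (nat_lit 10) (.e (nat_lit 434247) (nat_lit 28) (.e (nat_lit 573469) (nat_lit 11) .nil)))) (.g (nat_lit 0) (.e (nat_lit 271163) (nat_lit 0) .nil) .nil))) 
(.lf (nat_lit 541316) (.g (nat_lit 2446) (.e (nat_lit 90176) (nat_lit 15) (.e (nat_lit 188423) (nat_lit 11) (.e (nat_lit 335996) (nat_lit 1) (.e (nat_lit 57692) (nat_lit 156) (.e (nat_lit 171776) (nat_lit 12) (.e (nat_lit 426427) (nat_lit 17) .nil)))))) (.g (nat_lit 1) (.e (nat_lit 271842) (nat_lit 0) .nil) .nil)))) (.nd (nat_lit 9) 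
(.lf (nat_lit 541060) (.g (nat_lit 3438) (.e (nat_lit 90173) (nat_lit 14) (.e (nat_lit 180252) (nat_lit 10) (.e (nat_lit 573489) (nat_lit 14) (.e (nat_lit 73755) (nat_lit 8) (.e (nat_lit 557090) (nat_lit 12) (.e (nat_lit 163845) (nat_lit 0) (.e (nat_lit 5934) (nat_lit 322) (.e (nat_lit 57371) (nat_lit 2) .nil)))))))) (.g (nat_lit 1) (.e (nat_lit 271508) (nat_lit 0) .nil) .nil))) 
(.lf (nat_lit 541572) (.g (nat_lit 456) (.e (nat_lit 98317) (nat_lit 9) (.e (nat_lit 335988) (nat_lit 1) (.e (nat_lit 57926) (nat_lit 282) .nil))) (.g (nat_lit 0) (.e (nat_lit 272472) (nat_lit 0) .nil) .nil)))))) (.nd (nat_lit 7) (.nd (nat_lit 8) (.nd (nat_lit 9) 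
(.lf (nat_lit 540740) (.g (nat_lit 3165) (.e (nat_lit 90170) (nat_lit 13) (.e (nat_lit 172113) (nat_lit 10) (.e (nat_lit 434242) (nat_lit 28) (.e (nat_lit 573474) (nat_lit 12) (.e (nat_lit 57574) (nat_lit 55) (.e (nat_lit 778465) (nat_lit 11) (.e (nat_lit 24604) (nat_lit 2) .nil))))))) (.g (nat_lit 1) (.e (nat_lit 271097) (nat_lit 0) .nil) .nil))) 
(.lf (nat_lit 541252) (.g (nat_lit 3441) (.e (nat_lit 90174) (nat_lit 14) (.e (nat_lit 180251) (nat_lit 10) (.e (nat_lit 573489) (nat_lit 14) (.e (nat_lit 73755) (nat_lit 8) (.e (nat_lit 557090) (nat_lit 12) (.e (nat_lit 163843) (nat_lit 0) (.e (nat_lit 7936) (nat_lit 322) (.e (nat_lit 57373) (nat_lit 2) .nil)))))))) (.g (nat_lit 1) (.e (nat_lit 271757) (nat_lit 0) .nil) .nil)))) (.nd (nat_lit 9) 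
(.lf (nat_lit 540996) (.g (nat_lit 2497) (.e (nat_lit 90172) (nat_lit 14) (.e (nat_lit 180250) (nat_lit 10) (.e (nat_lit 573489) (nat_lit 14) (.e (nat_lit 73754) (nat_lit 8) (.e (nat_lit 557093) (nat_lit 12) .nil))))) (.g (nat_lit 0) (.e (nat_lit 271426) (nat_lit 0) .nil) .nil))) 
(.lf (nat_lit 541508) (.g (nat_lit 2576) (.e (nat_lit 98312) (nat_lit 9) (.e (nat_lit 335988) (nat_lit 1) (.e (nat_lit 57926) (nat_lit 282) (.e (nat_lit 163905) (nat_lit 12) (.e (nat_lit 426542) (nat_lit 29) (.e (nat_lit 352313) (nat_lit 23) .nil)))))) (.g (nat_lit 1) (.e (nat_lit 272294) (nat_lit 0) .nil) .nil))))) (.nd (nat_lit 8) (.nd (nat_lit 9) 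
(.lf (nat_lit 540868) (.g (nat_lit 1756) (.e (nat_lit 90170) (nat_lit 13) (.e (nat_lit 172118) (nat_lit 12) (.e (nat_lit 475185) (nat_lit 29) (.e (nat_lit 557095) (nat_lit 13) .nil)))) (.g (nat_lit 0) (.e (nat_lit 271232) (nat_lit 0) .nil) .nil))) 
(.lf (nat_lit 541380) (.g (nat_lit 530) (.e (nat_lit 90178) (nat_lit 15) (.e (nat_lit 188440) (nat_lit 20) (.e (nat_lit 3270) (nat_lit 199) .nil))) (.g (nat_lit 0) (.e (nat_lit 271925) (nat_lit 0) .nil) .nil)))) (.nd (nat_lit 9) 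
(.lf (nat_lit 541124) (.g (nat_lit 2652) (.e (nat_lit 90174) (nat_lit 14) (.e (nat_lit 180243) (nat_lit 5) (.e (nat_lit 532504) (nat_lit 1) (.e (nat_lit 57691) (nat_lit 156) (.e (nat_lit 163874) (nat_lit 3) (.e (nat_lit 204838) (nat_lit 20) (.e (nat_lit 114715) (nat_lit 22) .nil))))))) (.g (nat_lit 1) (.e (nat_lit 271624) (nat_lit 0) .nil) .nil))) 
(.lf (nat_lit 541636) (.g (nat_lit 2916) (.e (nat_lit 98325) (nat_lit 17) (.e (nat_lit 2478) (nat_lit 157) (.e (nat_lit 5224) (nat_lit 296) (.e (nat_lit 163903) (nat_lit 12) (.e (nat_lit 426479) (nat_lit 27) (.e (nat_lit 336428) (nat_lit 29) (.e (nat_lit 450304) (nat_lit 3) .nil))))))) (.g (nat_lit 1) (.e (nat_lit 272657) (nat_lit 0) .nil) .nil))))))) 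
(.nd (nat_lit 6) (.nd (nat_lit 7) (.nd (nat_lit 8) (.nd (nat_lit 9) 
(.lf (nat_lit 540708) (.g (nat_lit 2401) (.e (nat_lit 90170) (nat_lit 13) (.e (nat_lit 172106) (nat_lit 10) (.e (nat_lit 434244) (nat_lit 28) (.e (nat_lit 573475) (nat_lit 12) .nil)))) (.g (nat_lit 0) (.e (nat_lit 271065) (nat_lit 0) .nil) .nil))) 
(.lf (nat_lit 541220) (.g (nat_lit 4064) (.e (nat_lit 90174) (nat_lit 14) (.e (nat_lit 180251) (nat_lit 10) (.e (nat_lit 573489) (nat_lit 14) (.e (nat_lit 73755) (nat_lit 8) (.e (nat_lit 557067) (nat_lit 9) (.e (nat_lit 2603) (nat_lit 163) (.e (nat_lit 164396) (nat_lit 256) (.e (nat_lit 57371) (nat_lit 2) .nil)))))))) (.g (nat_lit 1) (.e (nat_lit 271725) (nat_lit 0) .nil) .nil)))) 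
(.nd (nat_lit 9) 
(.lf (nat_lit 540964) (.g (nat_lit 983) (.e (nat_lit 90172) (nat_lit 14) (.e (nat_lit 180245) (nat_lit 5) (.e (nat_lit 532515) (nat_lit 3) (.e (nat_lit 114718) (nat_lit 23) .nil)))) (.g (nat_lit 0) (.e (nat_lit 271390) (nat_lit 0) .nil) .nil))) 
(.lf (nat_lit 541476) (.g (nat_lit 1668) (.e (nat_lit 90185) (nat_lit 17) (.e (nat_lit 237619) (nat_lit 12) (.e (nat_lit 475179) (nat_lit 24) (.e (nat_lit 516127) (nat_lit 2) (.e (nat_lit 213030) (nat_lit 11) (.e (nat_lit 24603) (nat_lit 2) .nil)))))) (.g (nat_lit 1) (.e (nat_lit 272079) (nat_lit 0) .nil) .nil))))) (.nd (nat_lit 8) (.nd (nat_lit 9) 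
(.lf (nat_lit 540836) (.g (nat_lit 2999) (.e (nat_lit 90170) (nat_lit 13) (.e (nat_lit 172113) (nat_lit 10) (.e (nat_lit 434248) (nat_lit 28) (.e (nat_lit 573471) (nat_lit 11) (.e (nat_lit 16473) (nat_lit 14) (.e (nat_lit 499456) (nat_lit 2) .nil)))))) (.g (nat_lit 1) (.e (nat_lit 271198) (nat_lit 0) .nil) .nil))) 
(.lf (nat_lit 541348) (.g (nat_lit 3339) (.e (nat_lit 90176) (nat_lit 15) (.e (nat_lit 188450) (nat_lit 23) (.e (nat_lit 204846) (nat_lit 24) (.e (nat_lit 319533) (nat_lit 16) (.e (nat_lit 294656) (nat_lit 2) .nil))))) (.g (nat_lit 1) (.e (nat_lit 271879) (nat_lit 0) .nil) .nil)))) (.nd (nat_lit 9) 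
(.lf (nat_lit 541092) (.g (nat_lit 3468) (.e (nat_lit 90174) (nat_lit 14) (.e (nat_lit 180243) (nat_lit 5) (.e (nat_lit 532499) (nat_lit 1) (.e (nat_lit 57688) (nat_lit 156) (.e (nat_lit 163874) (nat_lit 3) (.e (nat_lit 204837) (nat_lit 20) (.e (nat_lit 114715) (nat_lit 22) .nil))))))) (.g (nat_lit 1) (.e (nat_lit 271554) (nat_lit 0) .nil) .nil))) 
(.lf (nat_lit 541604) (.g (nat_lit 428) (.e (nat_lit 98318) (nat_lit 17) (.e (nat_lit 6989) (nat_lit 377) (.e (nat_lit 2810) (nat_lit 180) .nil))) (.g (nat_lit 0) (.e (nat_lit 272570) (nat_lit 0) .nil) .nil)))))) (.nd (nat_lit 7) (.nd (nat_lit 8) (.nd (nat_lit 9) 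
(.lf (nat_lit 540772) (.g (nat_lit 3473) (.e (nat_lit 90170) (nat_lit 13) (.e (nat_lit 172113) (nat_lit 10) (.e (nat_lit 434245) (nat_lit 28) (.e (nat_lit 573471) (nat_lit 11) (.e (nat_lit 16473) (nat_lit 14) (.e (nat_lit 499456) (nat_lit 2) .nil)))))) (.g (nat_lit 1) (.e (nat_lit 271129) (nat_lit 0) .nil) .nil))) 
(.lf (nat_lit 541284) (.g (nat_lit 1738) (.e (nat_lit 90174) (nat_lit 14) (.e (nat_lit 180252) (nat_lit 10) (.e (nat_lit 573488) (nat_lit 14) (.e (nat_lit 73755) (nat_lit 8) .nil)))) (.g (nat_lit 0) (.e (nat_lit 271790) (nat_lit 0) .nil) .nil)))) (.nd (nat_lit 9) 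
(.lf (nat_lit 541028) (.g (nat_lit 3710) (.e (nat_lit 90172) (nat_lit 14) (.e (nat_lit 180251) (nat_lit 10) (.e (nat_lit 573489) (nat_lit 14) (.e (nat_lit 73755) (nat_lit 8) (.e (nat_lit 557090) (nat_lit 12) (.e (nat_lit 163844) (nat_lit 0) (.e (nat_lit 5940) (nat_lit 322) (.e (nat_lit 57375) (nat_lit 2) .nil)))))))) (.g (nat_lit 1) (.e (nat_lit 271458) (nat_lit 0) .nil) .nil))) 
(.lf (nat_lit 541540) (.g (nat_lit 3499) (.e (nat_lit 98313) (nat_lit 9) (.e (nat_lit 335995) (nat_lit 1) (.e (nat_lit 57931) (nat_lit 282) (.e (nat_lit 163943) (nat_lit 19) (.e (nat_lit 483393) (nat_lit 23) (.e (nat_lit 336021) (nat_lit 3) .nil)))))) (.g (nat_lit 1) (.e (nat_lit 272379) (nat_lit 0) .nil) .nil))))) (.nd (nat_lit 8) (.nd (nat_lit 9) 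
(.lf (nat_lit 540900) (.g (nat_lit 4166) (.e (nat_lit 90170) (nat_lit 13) (.e (nat_lit 172138) (nat_lit 15) (.e (nat_lit 1800) (nat_lit 119) (.e (nat_lit 516115) (nat_lit 1) (.e (nat_lit 164325) (nat_lit 230) (.e (nat_lit 163875) (nat_lit 3) (.e (nat_lit 204838) (nat_lit 20) (.e (nat_lit 114715) (nat_lit 22) .nil)))))))) (.g (nat_lit 1) (.e (nat_lit 271264) (nat_lit 0) .nil) .nil))) 
(.lf (nat_lit 541412) (.g (nat_lit 2056) (.e (nat_lit 90185) (nat_lit 17) (.e (nat_lit 237605) (nat_lit 9) (.e (nat_lit 426436) (nat_lit 18) (.e (nat_lit 98338) (nat_lit 19) (.e (nat_lit 213030) (nat_lit 11) (.e (nat_lit 24602) (nat_lit 2) .nil)))))) (.g (nat_lit 1) (.e (nat_lit 272015) (nat_lit 0) .nil) .nil)))) (.nd (nat_lit 9) 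
(.lf (nat_lit 541156) (.g (nat_lit 2453) (.e (nat_lit 90174) (nat_lit 14) (.e (nat_lit 180250) (nat_lit 10) (.e (nat_lit 573489) (nat_lit 14) (.e (nat_lit 73754) (nat_lit 8) (.e (nat_lit 557091) (nat_lit 12) .nil))))) (.g (nat_lit 0) (.e (nat_lit 271661) (nat_lit 0) .nil) .nil))) 
(.lf (nat_lit 541668) (.g (nat_lit 1436) (.e (nat_lit 98332) (nat_lit 18) (.e (nat_lit 164399) (nat_lit 256) (.e (nat_lit 57378) (nat_lit 3) (.e (nat_lit 98377) (nat_lit 30) .nil)))) (.g (nat_lit 0) (.e (nat_lit 272751) (nat_lit 0) .nil) .nil)))))))) (.nd (nat_lit 5) (.nd (nat_lit 6) (.nd (nat_lit 7) (.nd (nat_lit 8) (.nd (nat_lit 9) 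
(.lf (nat_lit 540692) (.g (nat_lit 3478) (.e (nat_lit 90170) (nat_lit 13) (.e (nat_lit 172106) (nat_lit 10) (.e (nat_lit 434244) (nat_lit 28) (.e (nat_lit 573473) (nat_lit 12) (.e (nat_lit 57347) (nat_lit 0) (.e (nat_lit 7265) (nat_lit 384) (.e (nat_lit 57412) (nat_lit 12) (.e (nat_lit 336001) (nat_lit 2) .nil)))))))) (.g (nat_lit 1) (.e (nat_lit 271049) (nat_lit 0) .nil) .nil))) 
(.lf (nat_lit 541204) (.g (nat_lit 3113) (.e (nat_lit 90174) (nat_lit 14) (.e (nat_lit 180250) (nat_lit 10) (.e (nat_lit 573489) (nat_lit 14) (.e (nat_lit 73755) (nat_lit 8) (.e (nat_lit 557091) (nat_lit 12) (.e (nat_lit 163856) (nat_lit 0) (.e (nat_lit 5948) (nat_lit 322) (.e (nat_lit 57371) (nat_lit 2) .nil)))))))) (.g (nat_lit 1) (.e (nat_lit 271709) (nat_lit 0) .nil) .nil)))) (.nd (nat_lit 9) 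
(.lf (nat_lit 540948) (.g (nat_lit 2633) (.e (nat_lit 90172) (nat_lit 14) (.e (nat_lit 180244) (nat_lit 5) (.e (nat_lit 532499) (nat_lit 1) (.e (nat_lit 57688) (nat_lit 156) (.e (nat_lit 163872) (nat_lit 3) (.e (nat_lit 204837) (nat_lit 20) (.e (nat_lit 114716) (nat_lit 22) .nil))))))) (.g (nat_lit 1) (.e (nat_lit 271351) (nat_lit 0) .nil) .nil))) 
(.lf (nat_lit 541460) (.g (nat_lit 2033) (.e (nat_lit 90185) (nat_lit 17) (.e (nat_lit 237619) (nat_lit 12) (.e (nat_lit 475177) (nat_lit 24) (.e (nat_lit 516125) (nat_lit 2) (.e (nat_lit 213032) (nat_lit 11) (.e (nat_lit 24605) (nat_lit 2) .nil)))))) (.g (nat_lit 1) (.e (nat_lit 272063) (nat_lit 0) .nil) .nil))))) (.nd (nat_lit 8) (.nd (nat_lit 9) 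
(.lf (nat_lit 540820) (.g (nat_lit 3220) (.e (nat_lit 90170) (nat_lit 13) (.e (nat_lit 172113) (nat_lit 10) (.e (nat_lit 434247) (nat_lit 28) (.e (nat_lit 573478) (nat_lit 12) (.e (nat_lit 57574) (nat_lit 55) (.e (nat_lit 778465) (nat_lit 11) (.e (nat_lit 24602) (nat_lit 2) .nil))))))) (.g (nat_lit 1) (.e (nat_lit 271181) (nat_lit 0) .nil) .nil))) 
(.lf (nat_lit 541332) (.g (nat_lit 3656) (.e (nat_lit 90176) (nat_lit 15) (.e (nat_lit 188440) (nat_lit 20) (.e (nat_lit 3307) (nat_lit 202) (.e (nat_lit 573477) (nat_lit 12) (.e (nat_lit 57575) (nat_lit 55) (.e (nat_lit 778465) (nat_lit 11) (.e (nat_lit 24601) (nat_lit 2) .nil))))))) (.g (nat_lit 1) (.e (nat_lit 271860) (nat_lit 0) .nil) .nil)))) (.nd (nat_lit 9) 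
(.lf (nat_lit 541076) (.g (nat_lit 1379) (.e (nat_lit 90174) (nat_lit 14) (.e (nat_lit 180243) (nat_lit 5) (.e (nat_lit 532499) (nat_lit 1) (.e (nat_lit 57657) (nat_lit 152) .nil)))) (.g (nat_lit 0) (.e (nat_lit 271525) (nat_lit 0) .nil) .nil))) 
(.lf (nat_lit 541588) (.g (nat_lit 2739) (.e (nat_lit 98317) (nat_lit 9) (.e (nat_lit 335988) (nat_lit 1) (.e (nat_lit 57931) (nat_lit 282) (.e (nat_lit 163943) (nat_lit 19) (.e (nat_lit 483392) (nat_lit 23) .nil))))) (.g (nat_lit 0) (.e (nat_lit 272504) (nat_lit 0) .nil) .nil)))))) (.nd (nat_lit 7) (.nd (nat_lit 8) (.nd (nat_lit 9) 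
(.lf (nat_lit 540756) (.g (nat_lit 2352) (.e (nat_lit 90170) (nat_lit 13) (.e (nat_lit 172113) (nat_lit 10) (.e (nat_lit 434245) (nat_lit 28) (.e (nat_lit 573458) (nat_lit 9) (.e (nat_lit 7936) (nat_lit 32) (.e (nat_lit 425984) (nat_lit 0) (.e (nat_lit 7489) (nat_lit 402) (.e (nat_lit 1239) (nat_lit 91) .nil)))))))) (.g (nat_lit 1) (.e (nat_lit 271113) (nat_lit 0) .nil) .nil))) 
(.lf (nat_lit 541268) (.g (nat_lit 4692) (.e (nat_lit 90174) (nat_lit 14) (.e (nat_lit 180251) (nat_lit 10) (.e (nat_lit 573489) (nat_lit 14) (.e (nat_lit 73755) (nat_lit 8) (.e (nat_lit 557090) (nat_lit 12) (.e (nat_lit 163854) (nat_lit 0) (.e (nat_lit 5950) (nat_lit 322) (.e (nat_lit 57371) (nat_lit 2) .nil)))))))) (.g (nat_lit 1) (.e (nat_lit 271773) (nat_lit 0) .nil) .nil)))) (.nd (nat_lit 9) 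
(.lf (nat_lit 541012) (.g (nat_lit 4283) (.e (nat_lit 90172) (nat_lit 14) (.e (nat_lit 180250) (nat_lit 10) (.e (nat_lit 573489) (nat_lit 14) (.e (nat_lit 73755) (nat_lit 8) (.e (nat_lit 557090) (nat_lit 12) (.e (nat_lit 163844) (nat_lit 0) (.e (nat_lit 5941) (nat_lit 322) (.e (nat_lit 57372) (nat_lit 2) .nil)))))))) (.g (nat_lit 1) (.e (nat_lit 271442) (nat_lit 0) .nil) .nil))) 
(.lf (nat_lit 541524) (.g (nat_lit 2461) (.e (nat_lit 98313) (nat_lit 9) (.e (nat_lit 335986) (nat_lit 1) (.e (nat_lit 57931) (nat_lit 282) (.e (nat_lit 163904) (nat_lit 12) (.e (nat_lit 426555) (nat_lit 32) (.e (nat_lit 376867) (nat_lit 23) .nil)))))) (.g (nat_lit 1) (.e (nat_lit 272330) (nat_lit 0) .nil) .nil))))) (.nd (nat_lit 8) (.nd (nat_lit 9) 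
(.lf (nat_lit 540884) (.g (nat_lit 2333) (.e (nat_lit 90170) (nat_lit 13) (.e (nat_lit 172123) (nat_lit 13) (.e (nat_lit 483337) (nat_lit 9) (.e (nat_lit 426098) (nat_lit 1) (.e (nat_lit 164403) (nat_lit 256) (.e (nat_lit 57370) (nat_lit 2) .nil)))))) (.g (nat_lit 1) (.e (nat_lit 271248) (nat_lit 0) .nil) .nil))) 
(.lf (nat_lit 541396) (.g (nat_lit 671) (.e (nat_lit 90181) (nat_lit 16) (.e (nat_lit 229577) (nat_lit 179) (.e (nat_lit 164366) (nat_lit 246) (.e (nat_lit 2682) (nat_lit 168) .nil)))) (.g (nat_lit 0) (.e (nat_lit 271980) (nat_lit 0) .nil) .nil)))) (.nd (nat_lit 9) 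
(.lf (nat_lit 541140) (.g (nat_lit 2579) (.e (nat_lit 90174) (nat_lit 14) (.e (nat_lit 180243) (nat_lit 5) (.e (nat_lit 532515) (nat_lit 3) (.e (nat_lit 114719) (nat_lit 23) (.e (nat_lit 98329) (nat_lit 17) .nil))))) (.g (nat_lit 0) (.e (nat_lit 271644) (nat_lit 0) .nil) .nil))) 
(.lf (nat_lit 541652) (.g (nat_lit 716) (.e (nat_lit 98332) (nat_lit 18) (.e (nat_lit 164325) (nat_lit 230) (.e (nat_lit 163907) (nat_lit 12) .nil))) (.g (nat_lit 0) (.e (nat_lit 272703) (nat_lit 0) .nil) .nil))))))) (.nd (nat_lit 6) (.nd (nat_lit 7) (.nd (nat_lit 8) (.nd (nat_lit 9) 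
(.lf (nat_lit 540724) (.g (nat_lit 3195) (.e (nat_lit 90170) (nat_lit 13) (.e (nat_lit 172113) (nat_lit 10) (.e (nat_lit 434231) (nat_lit 23) (.e (nat_lit 532526) (nat_lit 8) (.e (nat_lit 327717) (nat_lit 17) (.e (nat_lit 294927) (nat_lit 2) .nil)))))) (.g (nat_lit 1) (.e (nat_lit 271081) (nat_lit 0) .nil) .nil))) 
(.lf (nat_lit 541236) (.g (nat_lit 3813) (.e (nat_lit 90174) (nat_lit 14) (.e (nat_lit 180251) (nat_lit 10) (.e (nat_lit 573489) (nat_lit 14) (.e (nat_lit 73755) (nat_lit 8) (.e (nat_lit 557090) (nat_lit 12) (.e (nat_lit 163840) (nat_lit 0) (.e (nat_lit 5936) (nat_lit 322) (.e (nat_lit 57373) (nat_lit 2) .nil)))))))) (.g (nat_lit 1) (.e (nat_lit 271741) (nat_lit 0) .nil) .nil)))) (.nd (nat_lit 9) 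
(.lf (nat_lit 540980) (.g (nat_lit 2996) (.e (nat_lit 90172) (nat_lit 14) (.e (nat_lit 180250) (nat_lit 10) (.e (nat_lit 573487) (nat_lit 14) (.e (nat_lit 73753) (nat_lit 8) (.e (nat_lit 557091) (nat_lit 12) (.e (nat_lit 163843) (nat_lit 0) (.e (nat_lit 5943) (nat_lit 322) (.e (nat_lit 57375) (nat_lit 2) .nil)))))))) (.g (nat_lit 1) (.e (nat_lit 271410) (nat_lit 0) .nil) .nil))) 
(.lf (nat_lit 541492) (.g (nat_lit 779) (.e (nat_lit 90194) (nat_lit 18) (.e (nat_lit 2797) (nat_lit 180) (.e (nat_lit 303127) (nat_lit 9) .nil))) (.g (nat_lit 0) (.e (nat_lit 272126) (nat_lit 0) .nil) .nil))))) (.nd (nat_lit 8) (.nd (nat_lit 9) 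
(.lf (nat_lit 540852) (.g (nat_lit 3105) (.e (nat_lit 90170) (nat_lit 13) (.e (nat_lit 172113) (nat_lit 10) (.e (nat_lit 434248) (nat_lit 28) (.e (nat_lit 573475) (nat_lit 12) (.e (nat_lit 57351) (nat_lit 0) (.e (nat_lit 7265) (nat_lit 384) (.e (nat_lit 57412) (nat_lit 12) (.e (nat_lit 336008) (nat_lit 2) .nil)))))))) (.g (nat_lit 1) (.e (nat_lit 271214) (nat_lit 0) .nil) .nil))) 
(.lf (nat_lit 541364) (.g (nat_lit 1330) (.e (nat_lit 90176) (nat_lit 15) (.e (nat_lit 188452) (nat_lit 23) (.e (nat_lit 204885) (nat_lit 33) (.e (nat_lit 409344) (nat_lit 14) .nil)))) (.g (nat_lit 0) (.e (nat_lit 271900) (nat_lit 0) .nil) .nil)))) (.nd (nat_lit 9) 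
(.lf (nat_lit 541108) (.g (nat_lit 3675) (.e (nat_lit 90174) (nat_lit 14) (.e (nat_lit 180243) (nat_lit 5) (.e (nat_lit 532502) (nat_lit 1) (.e (nat_lit 57692) (nat_lit 156) (.e (nat_lit 163874) (nat_lit 3) (.e (nat_lit 204837) (nat_lit 20) (.e (nat_lit 114716) (nat_lit 22) .nil))))))) (.g (nat_lit 1) (.e (nat_lit 271590) (nat_lit 0) .nil) .nil))) 
(.lf (nat_lit 541620) (.g (nat_lit 2642) (.e (nat_lit 98321) (nat_lit 17) (.e (nat_lit 3771) (nat_lit 229) (.e (nat_lit 794668) (nat_lit 22) (.e (nat_lit 196666) (nat_lit 13) (.e (nat_lit 65569) (nat_lit 3) (.e (nat_lit 98334) (nat_lit 18) (.e (nat_lit 164157) (nat_lit 152) (.e (nat_lit 1027) (nat_lit 81) (.e (nat_lit 1255) (nat_lit 92) .nil))))))))) (.g (nat_lit 1) (.e (nat_lit 272631) (nat_lit 0) .nil) .nil)))))) 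
(.nd (nat_lit 7) (.nd (nat_lit 8) (.nd (nat_lit 9) 
(.lf (nat_lit 540788) (.g (nat_lit 2970) (.e (nat_lit 90170) (nat_lit 13) (.e (nat_lit 172113) (nat_lit 10) (.e (nat_lit 434245) (nat_lit 28) (.e (nat_lit 573474) (nat_lit 12) (.e (nat_lit 57351) (nat_lit 0) (.e (nat_lit 7261) (nat_lit 384) (.e (nat_lit 57412) (nat_lit 12) (.e (nat_lit 336008) (nat_lit 2) .nil)))))))) (.g (nat_lit 1) (.e (nat_lit 271145) (nat_lit 0) .nil) .nil))) 
(.lf (nat_lit 541300) (.g (nat_lit 3064) (.e (nat_lit 90176) (nat_lit 15) (.e (nat_lit 188423) (nat_lit 11) (.e (nat_lit 335986) (nat_lit 1) (.e (nat_lit 57688) (nat_lit 156) (.e (nat_lit 163902) (nat_lit 12) (.e (nat_lit 426428) (nat_lit 17) .nil)))))) (.g (nat_lit 1) (.e (nat_lit 271826) (nat_lit 0) .nil) .nil)))) (.nd (nat_lit 9) 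
(.lf (nat_lit 541044) (.g (nat_lit 3099) (.e (nat_lit 90173) (nat_lit 14) (.e (nat_lit 180251) (nat_lit 10) (.e (nat_lit 573489) (nat_lit 14) (.e (nat_lit 73755) (nat_lit 8) (.e (nat_lit 557119) (nat_lit 18) (.e (nat_lit 2798) (nat_lit 180) (.e (nat_lit 311040) (nat_lit 17) .nil))))))) (.g (nat_lit 1) (.e (nat_lit 271485) (nat_lit 0) .nil) .nil))) 
(.lf (nat_lit 541556) (.g (nat_lit 2712) (.e (nat_lit 98316) (nat_lit 9) (.e (nat_lit 335988) (nat_lit 1) (.e (nat_lit 57926) (nat_lit 282) (.e (nat_lit 163903) (nat_lit 12) (.e (nat_lit 426555) (nat_lit 32) (.e (nat_lit 376869) (nat_lit 23) .nil)))))) (.g (nat_lit 1) (.e (nat_lit 272444) (nat_lit 0) .nil) .nil))))) (.nd (nat_lit 8) (.nd (nat_lit 9) 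
(.lf (nat_lit 540916) (.g (nat_lit 2298) (.e (nat_lit 90172) (nat_lit 14) (.e (nat_lit 180243) (nat_lit 5) (.e (nat_lit 532499) (nat_lit 1) (.e (nat_lit 57665) (nat_lit 152) .nil)))) (.g (nat_lit 0) (.e (nat_lit 271285) (nat_lit 0) .nil) .nil))) 
(.lf (nat_lit 541428) (.g (nat_lit 1836) (.e (nat_lit 90185) (nat_lit 17) (.e (nat_lit 237616) (nat_lit 12) (.e (nat_lit 475177) (nat_lit 24) (.e (nat_lit 516097) (nat_lit 0) (.e (nat_lit 3663) (nat_lit 227) (.e (nat_lit 778462) (nat_lit 11) (.e (nat_lit 24604) (nat_lit 2) .nil))))))) (.g (nat_lit 1) (.e (nat_lit 272031) (nat_lit 0) .nil) .nil)))) (.nd (nat_lit 9) 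
(.lf (nat_lit 541172) (.g (nat_lit 3193) (.e (nat_lit 90174) (nat_lit 14) (.e (nat_lit 180250) (nat_lit 10) (.e (nat_lit 573489) (nat_lit 14) (.e (nat_lit 73755) (nat_lit 8) (.e (nat_lit 557074) (nat_lit 9) (.e (nat_lit 2607) (nat_lit 163) (.e (nat_lit 164402) (nat_lit 256) (.e (nat_lit 57371) (nat_lit 2) .nil)))))))) (.g (nat_lit 1) (.e (nat_lit 271677) (nat_lit 0) .nil) .nil))) 
(.lf (nat_lit 541684) (.g (nat_lit 1485) (.e (nat_lit 98333) (nat_lit 18) (.e (nat_lit 164179) (nat_lit 154) (.e (nat_lit 57407) (nat_lit 12) (.e (nat_lit 336454) (nat_lit 34) (.e (nat_lit 483384) (nat_lit 23) .nil))))) (.g (nat_lit 0) (.e (nat_lit 272785) (nat_lit 0) .nil) .nil))))))))) (.nd (nat_lit 4) (.nd (nat_lit 5) (.nd (nat_lit 6) (.nd (nat_lit 7) (.nd (nat_lit 8) (.nd (nat_lit 9) 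
(.lf (nat_lit 540684) (.g (nat_lit 2160) (.e (nat_lit 90170) (nat_lit 13) (.e (nat_lit 172106) (nat_lit 10) (.e (nat_lit 434244) (nat_lit 28) (.e (nat_lit 573458) (nat_lit 9) (.e (nat_lit 426) (nat_lit 32) (.e (nat_lit 426342) (nat_lit 14) (.e (nat_lit 491535) (nat_lit 2) .nil))))))) (.g (nat_lit 1) (.e (nat_lit 271041) (nat_lit 0) .nil) .nil))) 
(.lf (nat_lit 541196) (.g (nat_lit 3085) (.e (nat_lit 90174) (nat_lit 14) (.e (nat_lit 180250) (nat_lit 10) (.e (nat_lit 573489) (nat_lit 14) (.e (nat_lit 73755) (nat_lit 8) (.e (nat_lit 557091) (nat_lit 12) (.e (nat_lit 163841) (nat_lit 0) (.e (nat_lit 5934) (nat_lit 322) (.e (nat_lit 57371) (nat_lit 2) .nil)))))))) (.g (nat_lit 1) (.e (nat_lit 271701) (nat_lit 0) .nil) .nil)))) (.nd (nat_lit 9) 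
(.lf (nat_lit 540940) (.g (nat_lit 1422) (.e (nat_lit 90172) (nat_lit 14) (.e (nat_lit 180244) (nat_lit 5) (.e (nat_lit 532499) (nat_lit 1) (.e (nat_lit 57660) (nat_lit 152) .nil)))) (.g (nat_lit 0) (.e (nat_lit 271335) (nat_lit 0) .nil) .nil))) 
(.lf (nat_lit 541452) (.g (nat_lit 1527) (.e (nat_lit 90185) (nat_lit 17) (.e (nat_lit 237619) (nat_lit 12) (.e (nat_lit 475177) (nat_lit 24) (.e (nat_lit 516122) (nat_lit 2) (.e (nat_lit 213032) (nat_lit 11) (.e (nat_lit 24603) (nat_lit 2) .nil)))))) (.g (nat_lit 1) (.e (nat_lit 272055) (nat_lit 0) .nil) .nil))))) (.nd (nat_lit 8) (.nd (nat_lit 9) 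
(.lf (nat_lit 540812) (.g (nat_lit 2887) (.e (nat_lit 90170) (nat_lit 13) (.e (nat_lit 172113) (nat_lit 10) (.e (nat_lit 434247) (nat_lit 28) (.e (nat_lit 573477) (nat_lit 12) (.e (nat_lit 57351) (nat_lit 0) (.e (nat_lit 7263) (nat_lit 384) (.e (nat_lit 57412) (nat_lit 12) (.e (nat_lit 336001) (nat_lit 2) .nil)))))))) (.g (nat_lit 1) (.e (nat_lit 271171) (nat_lit 0) .nil) .nil))) 
(.lf (nat_lit 541324) (.g (nat_lit 3376) (.e (nat_lit 90176) (nat_lit 15) (.e (nat_lit 188439) (nat_lit 20) (.e (nat_lit 3307) (nat_lit 202) (.e (nat_lit 573477) (nat_lit 12) (.e (nat_lit 57574) (nat_lit 55) (.e (nat_lit 778466) (nat_lit 11) (.e (nat_lit 24603) (nat_lit 2) .nil))))))) (.g (nat_lit 1) (.e (nat_lit 271850) (nat_lit 0) .nil) .nil)))) (.nd (nat_lit 9) 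
(.lf (nat_lit 541068) (.g (nat_lit 3081) (.e (nat_lit 90173) (nat_lit 14) (.e (nat_lit 180252) (nat_lit 10) (.e (nat_lit 573489) (nat_lit 14) (.e (nat_lit 73755) (nat_lit 8) (.e (nat_lit 557090) (nat_lit 12) (.e (nat_lit 171776) (nat_lit 0) (.e (nat_lit 5937) (nat_lit 322) (.e (nat_lit 57370) (nat_lit 2) .nil)))))))) (.g (nat_lit 1) (.e (nat_lit 271516) (nat_lit 0) .nil) .nil))) 
(.lf (nat_lit 541580) (.g (nat_lit 403) (.e (nat_lit 98317) (nat_lit 9) (.e (nat_lit 335988) (nat_lit 1) (.e (nat_lit 57927) (nat_lit 282) .nil))) (.g (nat_lit 0) (.e (nat_lit 272490) (nat_lit 0) .nil) .nil)))))) (.nd (nat_lit 7) (.nd (nat_lit 8) (.nd (nat_lit 9) 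
(.lf (nat_lit 540748) (.g (nat_lit 2409) (.e (nat_lit 90170) (nat_lit 13) (.e (nat_lit 172113) (nat_lit 10) (.e (nat_lit 434245) (nat_lit 28) (.e (nat_lit 573449) (nat_lit 9) (.e (nat_lit 475) (nat_lit 36) (.e (nat_lit 466688) (nat_lit 0) (.e (nat_lit 1239) (nat_lit 91) .nil))))))) (.g (nat_lit 1) (.e (nat_lit 271105) (nat_lit 0) .nil) .nil))) 
(.lf (nat_lit 541260) (.g (nat_lit 3618) (.e (nat_lit 90174) (nat_lit 14) (.e (nat_lit 180251) (nat_lit 10) (.e (nat_lit 573489) (nat_lit 14) (.e (nat_lit 73755) (nat_lit 8) (.e (nat_lit 557090) (nat_lit 12) (.e (nat_lit 163845) (nat_lit 0) (.e (nat_lit 5941) (nat_lit 322) (.e (nat_lit 57372) (nat_lit 2) .nil)))))))) (.g (nat_lit 1) (.e (nat_lit 271765) (nat_lit 0) .nil) .nil)))) (.nd (nat_lit 9) 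
(.lf (nat_lit 541004) (.g (nat_lit 3841) (.e (nat_lit 90172) (nat_lit 14) (.e (nat_lit 180250) (nat_lit 10) (.e (nat_lit 573489) (nat_lit 14) (.e (nat_lit 73755) (nat_lit 8) (.e (nat_lit 557090) (nat_lit 12) (.e (nat_lit 163842) (nat_lit 0) (.e (nat_lit 5933) (nat_lit 322) (.e (nat_lit 57375) (nat_lit 2) .nil)))))))) (.g (nat_lit 1) (.e (nat_lit 271434) (nat_lit 0) .nil) .nil))) 
(.lf (nat_lit 541516) (.g (nat_lit 2999) (.e (nat_lit 98313) (nat_lit 9) (.e (nat_lit 335986) (nat_lit 1) (.e (nat_lit 57926) (nat_lit 282) (.e (nat_lit 163905) (nat_lit 12) (.e (nat_lit 426555) (nat_lit 32) (.e (nat_lit 376869) (nat_lit 23) .nil)))))) (.g (nat_lit 1) (.e (nat_lit 272313) (nat_lit 0) .nil) .nil))))) (.nd (nat_lit 8) (.nd (nat_lit 9) 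
(.lf (nat_lit 540876) (.g (nat_lit 3263) (.e (nat_lit 90170) (nat_lit 13) (.e (nat_lit 172121) (nat_lit 13) (.e (nat_lit 483363) (nat_lit 18) (.e (nat_lit 57692) (nat_lit 156) (.e (nat_lit 163905) (nat_lit 12) (.e (nat_lit 426428) (nat_lit 17) .nil)))))) (.g (nat_lit 1) (.e (nat_lit 271240) (nat_lit 0) .nil) .nil))) 
(.lf (nat_lit 541388) (.g (nat_lit 3234) (.e (nat_lit 90178) (nat_lit 15) (.e (nat_lit 188451) (nat_lit 23) (.e (nat_lit 204846) (nat_lit 24) (.e (nat_lit 319529) (nat_lit 16) (.e (nat_lit 286733) (nat_lit 2) .nil))))) (.g (nat_lit 1) (.e (nat_lit 271933) (nat_lit 0) .nil) .nil)))) (.nd (nat_lit 9) 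
(.lf (nat_lit 541132) (.g (nat_lit 2035) (.e (nat_lit 90174) (nat_lit 14) (.e (nat_lit 180243) (nat_lit 5) (.e (nat_lit 532515) (nat_lit 3) (.e (nat_lit 114716) (nat_lit 22) (.e (nat_lit 90165) (nat_lit 12) .nil))))) (.g (nat_lit 0) (.e (nat_lit 271636) (nat_lit 0) .nil) .nil))) 
(.lf (nat_lit 541644) (.g (nat_lit 1042) (.e (nat_lit 98325) (nat_lit 17) (.e (nat_lit 3579) (nat_lit 223) (.e (nat_lit 745476) (nat_lit 0) (.e (nat_lit 1256) (nat_lit 92) .nil)))) (.g (nat_lit 0) (.e (nat_lit 272680) (nat_lit 0) .nil) .nil))))))) (.nd (nat_lit 6) (.nd (nat_lit 7) (.nd (nat_lit 8) (.nd (nat_lit 9) 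
(.lf (nat_lit 540716) (.g (nat_lit 5692) (.e (nat_lit 90170) (nat_lit 13) (.e (nat_lit 172106) (nat_lit 10) (.e (nat_lit 434248) (nat_lit 28) (.e (nat_lit 573475) (nat_lit 12) (.e (nat_lit 57574) (nat_lit 55) (.e (nat_lit 778466) (nat_lit 11) (.e (nat_lit 24604) (nat_lit 2) .nil))))))) (.g (nat_lit 1) (.e (nat_lit 271073) (nat_lit 0) .nil) .nil))) 
(.lf (nat_lit 541228) (.g (nat_lit 2539) (.e (nat_lit 90174) (nat_lit 14) (.e (nat_lit 180251) (nat_lit 10) (.e (nat_lit 573489) (nat_lit 14) (.e (nat_lit 73755) (nat_lit 8) (.e (nat_lit 557074) (nat_lit 9) .nil))))) (.g (nat_lit 0) (.e (nat_lit 271733) (nat_lit 0) .nil) .nil)))) (.nd (nat_lit 9) 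
(.lf (nat_lit 540972) (.g (nat_lit 3761) (.e (nat_lit 90172) (nat_lit 14) (.e (nat_lit 180250) (nat_lit 10) (.e (nat_lit 573487) (nat_lit 14) (.e (nat_lit 73753) (nat_lit 8) (.e (nat_lit 557090) (nat_lit 12) (.e (nat_lit 163841) (nat_lit 0) (.e (nat_lit 5943) (nat_lit 322) (.e (nat_lit 57375) (nat_lit 2) .nil)))))))) (.g (nat_lit 1) (.e (nat_lit 271402) (nat_lit 0) .nil) .nil))) 
(.lf (nat_lit 541484) (.g (nat_lit 3540) (.e (nat_lit 90185) (nat_lit 17) (.e (nat_lit 237624) (nat_lit 13) (.e (nat_lit 483337) (nat_lit 9) (.e (nat_lit 426098) (nat_lit 1) (.e (nat_lit 164398) (nat_lit 256) (.e (nat_lit 57372) (nat_lit 2) .nil)))))) (.g (nat_lit 1) (.e (nat_lit 272087) (nat_lit 0) .nil) .nil))))) (.nd (nat_lit 8) (.nd (nat_lit 9) 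
(.lf (nat_lit 540844) (.g (nat_lit 2247) (.e (nat_lit 90170) (nat_lit 13) (.e (nat_lit 172113) (nat_lit 10) (.e (nat_lit 434248) (nat_lit 28) (.e (nat_lit 573475) (nat_lit 12) (.e (nat_lit 57347) (nat_lit 0) (.e (nat_lit 7261) (nat_lit 384) (.e (nat_lit 57406) (nat_lit 12) (.e (nat_lit 343808) (nat_lit 2) .nil)))))))) (.g (nat_lit 1) (.e (nat_lit 271206) (nat_lit 0) .nil) .nil))) 
(.lf (nat_lit 541356) (.g (nat_lit 2610) (.e (nat_lit 90176) (nat_lit 15) (.e (nat_lit 188450) (nat_lit 23) (.e (nat_lit 204861) (nat_lit 26) (.e (nat_lit 335988) (nat_lit 1) (.e (nat_lit 57927) (nat_lit 282) (.e (nat_lit 171776) (nat_lit 63) .nil)))))) (.g (nat_lit 1) (.e (nat_lit 271887) (nat_lit 0) .nil) .nil)))) (.nd (nat_lit 9) 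
(.lf (nat_lit 541100) (.g (nat_lit 1969) (.e (nat_lit 90174) (nat_lit 14) (.e (nat_lit 180243) (nat_lit 5) (.e (nat_lit 532500) (nat_lit 1) (.e (nat_lit 57692) (nat_lit 156) (.e (nat_lit 163874) (nat_lit 3) .nil))))) (.g (nat_lit 0) (.e (nat_lit 271567) (nat_lit 0) .nil) .nil))) 
(.lf (nat_lit 541612) (.g (nat_lit 1650) (.e (nat_lit 98320) (nat_lit 17) (.e (nat_lit 7073) (nat_lit 377) (.e (nat_lit 2797) (nat_lit 180) (.e (nat_lit 303119) (nat_lit 3) (.e (nat_lit 212736) (nat_lit 26) (.e (nat_lit 336158) (nat_lit 9) (.e (nat_lit 336021) (nat_lit 3) .nil))))))) (.g (nat_lit 1) (.e (nat_lit 272616) (nat_lit 0) .nil) .nil)))))) 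
(.nd (nat_lit 7) (.nd (nat_lit 8) (.nd (nat_lit 9) 
(.lf (nat_lit 540780) (.g (nat_lit 3065) (.e (nat_lit 90170) (nat_lit 13) (.e (nat_lit 172113) (nat_lit 10) (.e (nat_lit 434245) (nat_lit 28) (.e (nat_lit 573474) (nat_lit 12) (.e (nat_lit 57347) (nat_lit 0) (.e (nat_lit 7261) (nat_lit 384) (.e (nat_lit 57412) (nat_lit 12) (.e (nat_lit 336005) (nat_lit 2) .nil)))))))) (.g (nat_lit 1) (.e (nat_lit 271137) (nat_lit 0) .nil) .nil))) 
(.lf (nat_lit 541292) (.g (nat_lit 1756) (.e (nat_lit 90175) (nat_lit 15) (.e (nat_lit 188449) (nat_lit 22) (.e (nat_lit 196630) (nat_lit 9) (.e (nat_lit 1393) (nat_lit 106) .nil)))) (.g (nat_lit 0) (.e (nat_lit 271799) (nat_lit 0) .nil) .nil)))) (.nd (nat_lit 9) 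
(.lf (nat_lit 541036) (.g (nat_lit 3002) (.e (nat_lit 90173) (nat_lit 14) (.e (nat_lit 180251) (nat_lit 10) (.e (nat_lit 573489) (nat_lit 14) (.e (nat_lit 73755) (nat_lit 8) (.e (nat_lit 557067) (nat_lit 9) (.e (nat_lit 2606) (nat_lit 163) (.e (nat_lit 164403) (nat_lit 256) (.e (nat_lit 57371) (nat_lit 2) .nil)))))))) (.g (nat_lit 1) (.e (nat_lit 271477) (nat_lit 0) .nil) .nil))) 
(.lf (nat_lit 541548) (.g (nat_lit 1886) (.e (nat_lit 98313) (nat_lit 9) (.e (nat_lit 336027) (nat_lit 3) (.e (nat_lit 98333) (nat_lit 18) (.e (nat_lit 164183) (nat_lit 154) .nil)))) (.g (nat_lit 0) (.e (nat_lit 272411) (nat_lit 0) .nil) .nil))))) (.nd (nat_lit 8) (.nd (nat_lit 9) 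
(.lf (nat_lit 540908) (.g (nat_lit 449) (.e (nat_lit 90172) (nat_lit 14) (.e (nat_lit 180229) (nat_lit 0) (.e (nat_lit 5547) (nat_lit 306) .nil))) (.g (nat_lit 0) (.e (nat_lit 271275) (nat_lit 0) .nil) .nil))) 
(.lf (nat_lit 541420) (.g (nat_lit 2264) (.e (nat_lit 90185) (nat_lit 17) (.e (nat_lit 237605) (nat_lit 9) (.e (nat_lit 426436) (nat_lit 18) (.e (nat_lit 98339) (nat_lit 19) (.e (nat_lit 213030) (nat_lit 11) (.e (nat_lit 24603) (nat_lit 2) .nil)))))) (.g (nat_lit 1) (.e (nat_lit 272023) (nat_lit 0) .nil) .nil)))) (.nd (nat_lit 9) 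
(.lf (nat_lit 541164) (.g (nat_lit 4106) (.e (nat_lit 90174) (nat_lit 14) (.e (nat_lit 180250) (nat_lit 10) (.e (nat_lit 573489) (nat_lit 14) (.e (nat_lit 73755) (nat_lit 8) (.e (nat_lit 557067) (nat_lit 9) (.e (nat_lit 2598) (nat_lit 163) (.e (nat_lit 164403) (nat_lit 256) (.e (nat_lit 57371) (nat_lit 2) .nil)))))))) (.g (nat_lit 1) (.e (nat_lit 271669) (nat_lit 0) .nil) .nil))) 
(.lf (nat_lit 541676) (.g (nat_lit 4009) (.e (nat_lit 98333) (nat_lit 18) (.e (nat_lit 164179) (nat_lit 154) (.e (nat_lit 57378) (nat_lit 3) (.e (nat_lit 98341) (nat_lit 20) (.e (nat_lit 221214) (nat_lit 23) (.e (nat_lit 204861) (nat_lit 26) (.e (nat_lit 336021) (nat_lit 3) .nil))))))) (.g (nat_lit 1) (.e (nat_lit 272777) (nat_lit 0) .nil) .nil)))))))) 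
(.nd (nat_lit 5) (.nd (nat_lit 6) (.nd (nat_lit 7) (.nd (nat_lit 8) (.nd (nat_lit 9) 
(.lf (nat_lit 540700) (.g (nat_lit 3631) (.e (nat_lit 90170) (nat_lit 13) (.e (nat_lit 172106) (nat_lit 10) (.e (nat_lit 434244) (nat_lit 28) (.e (nat_lit 573474) (nat_lit 12) (.e (nat_lit 57354) (nat_lit 0) (.e (nat_lit 7270) (nat_lit 385) (.e (nat_lit 122906) (nat_lit 12) (.e (nat_lit 336005) (nat_lit 2) .nil)))))))) (.g (nat_lit 1) (.e (nat_lit 271057) (nat_lit 0) .nil) .nil))) 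
(.lf (nat_lit 541212) (.g (nat_lit 3400) (.e (nat_lit 90174) (nat_lit 14) (.e (nat_lit 180250) (nat_lit 10) (.e (nat_lit 573489) (nat_lit 14) (.e (nat_lit 73755) (nat_lit 8) (.e (nat_lit 557119) (nat_lit 18) (.e (nat_lit 2808) (nat_lit 180) (.e (nat_lit 311040) (nat_lit 17) .nil))))))) (.g (nat_lit 1) (.e (nat_lit 271717) (nat_lit 0) .nil) .nil)))) (.nd (nat_lit 9) 
(.lf (nat_lit 540956) (.g (nat_lit 1683) (.e (nat_lit 90172) (nat_lit 14) (.e (nat_lit 180244) (nat_lit 5) (.e (nat_lit 532504) (nat_lit 1) (.e (nat_lit 57665) (nat_lit 152) .nil)))) (.g (nat_lit 0) (.e (nat_lit 271376) (nat_lit 0) .nil) .nil))) 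
(.lf (nat_lit 541468) (.g (nat_lit 2010) (.e (nat_lit 90185) (nat_lit 17) (.e (nat_lit 237619) (nat_lit 12) (.e (nat_lit 475179) (nat_lit 24) (.e (nat_lit 516124) (nat_lit 2) (.e (nat_lit 213030) (nat_lit 11) (.e (nat_lit 24603) (nat_lit 2) .nil)))))) (.g (nat_lit 1) (.e (nat_lit 272071) (nat_lit 0) .nil) .nil))))) (.nd (nat_lit 8) (.nd (nat_lit 9) 
(.lf (nat_lit 540828) (.g (nat_lit 2599) (.e (nat_lit 90170) (nat_lit 13) (.e (nat_lit 172113) (nat_lit 10) (.e (nat_lit 434248) (nat_lit 28) (.e (nat_lit 573454) (nat_lit 9) (.e (nat_lit 441) (nat_lit 33) .nil))))) (.g (nat_lit 0) (.e (nat_lit 271190) (nat_lit 0) .nil) .nil))) 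
(.lf (nat_lit 541340) (.g (nat_lit 1409) (.e (nat_lit 90176) (nat_lit 15) (.e (nat_lit 188450) (nat_lit 23) (.e (nat_lit 204845) (nat_lit 24) (.e (nat_lit 319506) (nat_lit 10) .nil)))) (.g (nat_lit 0) (.e (nat_lit 271869) (nat_lit 0) .nil) .nil)))) (.nd (nat_lit 9) 
(.lf (nat_lit 541084) (.g (nat_lit 2706) (.e (nat_lit 90174) (nat_lit 14) (.e (nat_lit 180243) (nat_lit 5) (.e (nat_lit 532499) (nat_lit 1) (.e (nat_lit 57688) (nat_lit 156) (.e (nat_lit 163844) (nat_lit 0) (.e (nat_lit 3230) (nat_lit 197) (.e (nat_lit 532513) (nat_lit 3) (.e (nat_lit 114714) (nat_lit 22) .nil)))))))) (.g (nat_lit 1) (.e (nat_lit 271544) (nat_lit 0) .nil) .nil))) 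
(.lf (nat_lit 541596) (.g (nat_lit 2942) (.e (nat_lit 98317) (nat_lit 9) (.e (nat_lit 335996) (nat_lit 1) (.e (nat_lit 57930) (nat_lit 282) (.e (nat_lit 163902) (nat_lit 12) (.e (nat_lit 426555) (nat_lit 32) (.e (nat_lit 376867) (nat_lit 23) .nil)))))) (.g (nat_lit 1) (.e (nat_lit 272523) (nat_lit 0) .nil) .nil)))))) (.nd (nat_lit 7) (.nd (nat_lit 8) (.nd (nat_lit 9) 
(.lf (nat_lit 540764) (.g (nat_lit 2373) (.e (nat_lit 90170) (nat_lit 13) (.e (nat_lit 172113) (nat_lit 10) (.e (nat_lit 434245) (nat_lit 28) (.e (nat_lit 573470) (nat_lit 11) (.e (nat_lit 16473) (nat_lit 14) (.e (nat_lit 499456) (nat_lit 2) .nil)))))) (.g (nat_lit 1) (.e (nat_lit 271121) (nat_lit 0) .nil) .nil))) 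
(.lf (nat_lit 541276) (.g (nat_lit 2871) (.e (nat_lit 90174) (nat_lit 14) (.e (nat_lit 180251) (nat_lit 10) (.e (nat_lit 573489) (nat_lit 14) (.e (nat_lit 73755) (nat_lit 8) (.e (nat_lit 557091) (nat_lit 12) (.e (nat_lit 163849) (nat_lit 0) (.e (nat_lit 5934) (nat_lit 322) (.e (nat_lit 57371) (nat_lit 2) .nil)))))))) (.g (nat_lit 1) (.e (nat_lit 271781) (nat_lit 0) .nil) .nil)))) (.nd (nat_lit 9) 
(.lf (nat_lit 541020) (.g (nat_lit 3349) (.e (nat_lit 90172) (nat_lit 14) (.e (nat_lit 180250) (nat_lit 10) (.e (nat_lit 573489) (nat_lit 14) (.e (nat_lit 73755) (nat_lit 8) (.e (nat_lit 557119) (nat_lit 18) (.e (nat_lit 2797) (nat_lit 180) (.e (nat_lit 311040) (nat_lit 17) .nil))))))) (.g (nat_lit 1) (.e (nat_lit 271450) (nat_lit 0) .nil) .nil))) 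
(.lf (nat_lit 541532) (.g (nat_lit 3286) (.e (nat_lit 98313) (nat_lit 9) (.e (nat_lit 335988) (nat_lit 1) (.e (nat_lit 57927) (nat_lit 282) (.e (nat_lit 163943) (nat_lit 19) (.e (nat_lit 483393) (nat_lit 23) (.e (nat_lit 336021) (nat_lit 3) .nil)))))) (.g (nat_lit 1) (.e (nat_lit 272350) (nat_lit 0) .nil) .nil))))) (.nd (nat_lit 8) (.nd (nat_lit 9) 
(.lf (nat_lit 540892) (.g (nat_lit 3292) (.e (nat_lit 90170) (nat_lit 13) (.e (nat_lit 172123) (nat_lit 13) (.e (nat_lit 483365) (nat_lit 18) (.e (nat_lit 57691) (nat_lit 156) (.e (nat_lit 163907) (nat_lit 12) (.e (nat_lit 426428) (nat_lit 17) .nil)))))) (.g (nat_lit 1) (.e (nat_lit 271256) (nat_lit 0) .nil) .nil))) 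
(.lf (nat_lit 541404) (.g (nat_lit 2112) (.e (nat_lit 90185) (nat_lit 17) (.e (nat_lit 237601) (nat_lit 9) (.e (nat_lit 426436) (nat_lit 18) (.e (nat_lit 98338) (nat_lit 19) (.e (nat_lit 213030) (nat_lit 11) (.e (nat_lit 24603) (nat_lit 2) .nil)))))) (.g (nat_lit 1) (.e (nat_lit 272007) (nat_lit 0) .nil) .nil)))) (.nd (nat_lit 9) 
(.lf (nat_lit 541148) (.g (nat_lit 2352) (.e (nat_lit 90174) (nat_lit 14) (.e (nat_lit 180250) (nat_lit 10) (.e (nat_lit 573475) (nat_lit 12) (.e (nat_lit 57504) (nat_lit 38) (.e (nat_lit 639002) (nat_lit 11) .nil))))) (.g (nat_lit 0) (.e (nat_lit 271653) (nat_lit 0) .nil) .nil))) 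
(.lf (nat_lit 541660) (.g (nat_lit 1671) (.e (nat_lit 98332) (nat_lit 18) (.e (nat_lit 164330) (nat_lit 230) (.e (nat_lit 163902) (nat_lit 12) (.e (nat_lit 426479) (nat_lit 27) .nil)))) (.g (nat_lit 0) (.e (nat_lit 272736) (nat_lit 0) .nil) .nil))))))) (.nd (nat_lit 6) (.nd (nat_lit 7) (.nd (nat_lit 8) (.nd (nat_lit 9) 
(.lf (nat_lit 540732) (.g (nat_lit 2739) (.e (nat_lit 90170) (nat_lit 13) (.e (nat_lit 172113) (nat_lit 10) (.e (nat_lit 434242) (nat_lit 28) (.e (nat_lit 573474) (nat_lit 12) (.e (nat_lit 57347) (nat_lit 0) (.e (nat_lit 7261) (nat_lit 384) (.e (nat_lit 57412) (nat_lit 12) (.e (nat_lit 336005) (nat_lit 2) .nil)))))))) (.g (nat_lit 1) (.e (nat_lit 271089) (nat_lit 0) .nil) .nil))) 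
(.lf (nat_lit 541244) (.g (nat_lit 3820) (.e (nat_lit 90174) (nat_lit 14) (.e (nat_lit 180251) (nat_lit 10) (.e (nat_lit 573489) (nat_lit 14) (.e (nat_lit 73755) (nat_lit 8) (.e (nat_lit 557090) (nat_lit 12) (.e (nat_lit 163840) (nat_lit 0) (.e (nat_lit 5954) (nat_lit 322) (.e (nat_lit 57373) (nat_lit 2) .nil)))))))) (.g (nat_lit 1) (.e (nat_lit 271749) (nat_lit 0) .nil) .nil)))) (.nd (nat_lit 9) 
(.lf (nat_lit 540988) (.g (nat_lit 4611) (.e (nat_lit 90172) (nat_lit 14) (.e (nat_lit 180250) (nat_lit 10) (.e (nat_lit 573488) (nat_lit 14) (.e (nat_lit 73755) (nat_lit 8) (.e (nat_lit 557090) (nat_lit 12) (.e (nat_lit 163843) (nat_lit 0) (.e (nat_lit 5940) (nat_lit 322) (.e (nat_lit 57375) (nat_lit 2) .nil)))))))) (.g (nat_lit 1) (.e (nat_lit 271418) (nat_lit 0) .nil) .nil))) 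
(.lf (nat_lit 541500) (.g (nat_lit 1980) (.e (nat_lit 106240) (nat_lit 1) (.e (nat_lit 57931) (nat_lit 282) (.e (nat_lit 163885) (nat_lit 5) (.e (nat_lit 221215) (nat_lit 23) (.e (nat_lit 204813) (nat_lit 9) .nil))))) (.g (nat_lit 0) (.e (nat_lit 272274) (nat_lit 0) .nil) .nil))))) (.nd (nat_lit 8) (.nd (nat_lit 9) 
(.lf (nat_lit 540860) (.g (nat_lit 2725) (.e (nat_lit 90170) (nat_lit 13) (.e (nat_lit 172115) (nat_lit 10) (.e (nat_lit 434244) (nat_lit 28) (.e (nat_lit 573450) (nat_lit 9) (.e (nat_lit 411) (nat_lit 32) .nil))))) (.g (nat_lit 0) (.e (nat_lit 271224) (nat_lit 0) .nil) .nil))) 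
(.lf (nat_lit 541372) (.g (nat_lit 1015) (.e (nat_lit 90177) (nat_lit 15) (.e (nat_lit 188452) (nat_lit 23) (.e (nat_lit 204849) (nat_lit 25) (.e (nat_lit 327705) (nat_lit 10) .nil)))) (.g (nat_lit 0) (.e (nat_lit 271915) (nat_lit 0) .nil) .nil)))) (.nd (nat_lit 9) 
(.lf (nat_lit 541116) (.g (nat_lit 4303) (.e (nat_lit 90174) (nat_lit 14) (.e (nat_lit 180243) (nat_lit 5) (.e (nat_lit 532503) (nat_lit 1) (.e (nat_lit 57688) (nat_lit 156) (.e (nat_lit 163874) (nat_lit 3) (.e (nat_lit 204837) (nat_lit 20) (.e (nat_lit 114716) (nat_lit 22) .nil))))))) (.g (nat_lit 1) (.e (nat_lit 271609) (nat_lit 0) .nil) .nil))) 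
(.lf (nat_lit 541628) (.g (nat_lit 2714) (.e (nat_lit 98323) (nat_lit 17) (.e (nat_lit 6989) (nat_lit 377) (.e (nat_lit 2777) (nat_lit 178) (.e (nat_lit 286735) (nat_lit 3) (.e (nat_lit 98325) (nat_lit 17) (.e (nat_lit 6966) (nat_lit 377) (.e (nat_lit 2777) (nat_lit 178) (.e (nat_lit 286735) (nat_lit 3) .nil)))))))) (.g (nat_lit 1) (.e (nat_lit 272642) (nat_lit 0) .nil) .nil)))))) 
(.nd (nat_lit 7) (.nd (nat_lit 8) (.nd (nat_lit 9) 
(.lf (nat_lit 540796) (.g (nat_lit 3244) (.e (nat_lit 90170) (nat_lit 13) (.e (nat_lit 172113) (nat_lit 10) (.e (nat_lit 434245) (nat_lit 28) (.e (nat_lit 573474) (nat_lit 12) (.e (nat_lit 57574) (nat_lit 55) (.e (nat_lit 778460) (nat_lit 11) (.e (nat_lit 24605) (nat_lit 2) .nil))))))) (.g (nat_lit 1) (.e (nat_lit 271153) (nat_lit 0) .nil) .nil))) 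
(.lf (nat_lit 541308) (.g (nat_lit 2925) (.e (nat_lit 90176) (nat_lit 15) (.e (nat_lit 188423) (nat_lit 11) (.e (nat_lit 335986) (nat_lit 1) (.e (nat_lit 57692) (nat_lit 156) (.e (nat_lit 163907) (nat_lit 12) (.e (nat_lit 426428) (nat_lit 17) .nil)))))) (.g (nat_lit 1) (.e (nat_lit 271834) (nat_lit 0) .nil) .nil)))) (.nd (nat_lit 9) 
(.lf (nat_lit 541052) (.g (nat_lit 2674) (.e (nat_lit 90173) (nat_lit 14) (.e (nat_lit 180252) (nat_lit 10) (.e (nat_lit 573489) (nat_lit 14) (.e (nat_lit 73755) (nat_lit 8) (.e (nat_lit 557067) (nat_lit 9) (.e (nat_lit 2603) (nat_lit 163) (.e (nat_lit 164402) (nat_lit 256) (.e (nat_lit 57371) (nat_lit 2) .nil)))))))) (.g (nat_lit 1) (.e (nat_lit 271500) (nat_lit 0) .nil) .nil))) 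
(.lf (nat_lit 541564) (.g (nat_lit 1205) (.e (nat_lit 98316) (nat_lit 9) (.e (nat_lit 336088) (nat_lit 9) (.e (nat_lit 336454) (nat_lit 34) (.e (nat_lit 483365) (nat_lit 18) .nil)))) (.g (nat_lit 0) (.e (nat_lit 272459) (nat_lit 0) .nil) .nil))))) (.nd (nat_lit 8) (.nd (nat_lit 9) 
(.lf (nat_lit 540924) (.g (nat_lit 1559) (.e (nat_lit 90172) (nat_lit 14) (.e (nat_lit 180243) (nat_lit 5) (.e (nat_lit 532503) (nat_lit 1) (.e (nat_lit 57658) (nat_lit 152) .nil)))) (.g (nat_lit 0) (.e (nat_lit 271308) (nat_lit 0) .nil) .nil))) 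
(.lf (nat_lit 541436) (.g (nat_lit 2824) (.e (nat_lit 90185) (nat_lit 17) (.e (nat_lit 237616) (nat_lit 12) (.e (nat_lit 475177) (nat_lit 24) (.e (nat_lit 516125) (nat_lit 2) (.e (nat_lit 213032) (nat_lit 11) (.e (nat_lit 24604) (nat_lit 2) .nil)))))) (.g (nat_lit 1) (.e (nat_lit 272039) (nat_lit 0) .nil) .nil)))) (.nd (nat_lit 9) 
(.lf (nat_lit 541180) (.g (nat_lit 3194) (.e (nat_lit 90174) (nat_lit 14) (.e (nat_lit 180250) (nat_lit 10) (.e (nat_lit 573489) (nat_lit 14) (.e (nat_lit 73755) (nat_lit 8) (.e (nat_lit 557090) (nat_lit 12) (.e (nat_lit 163841) (nat_lit 0) (.e (nat_lit 5943) (nat_lit 322) (.e (nat_lit 57374) (nat_lit 2) .nil)))))))) (.g (nat_lit 1) (.e (nat_lit 271685) (nat_lit 0) .nil) .nil))) 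
(.lf (nat_lit 541692) (.g (nat_lit 3153) (.e (nat_lit 98333) (nat_lit 18) (.e (nat_lit 164182) (nat_lit 154) (.e (nat_lit 57378) (nat_lit 3) (.e (nat_lit 98342) (nat_lit 20) (.e (nat_lit 221215) (nat_lit 23) (.e (nat_lit 204861) (nat_lit 26) (.e (nat_lit 336025) (nat_lit 3) .nil))))))) (.g (nat_lit 1) (.e (nat_lit 272800) (nat_lit 0) .nil) .nil))))))))))) 
(.nd (nat_lit 2) (.nd (nat_lit 3) (.nd (nat_lit 4) (.nd (nat_lit 5) (.nd (nat_lit 6) 
(.nd (nat_lit 7) (.nd (nat_lit 8) (.nd (nat_lit 9) 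
(.lf (nat_lit 540674) (.g (nat_lit 3403) (.e (nat_lit 90170) (nat_lit 13) (.e (nat_lit 172106) (nat_lit 10) (.e (nat_lit 434244) (nat_lit 28) (.e (nat_lit 573451) (nat_lit 9) (.e (nat_lit 430) (nat_lit 32) (.e (nat_lit 426342) (nat_lit 14) (.e (nat_lit 491537) (nat_lit 2) .nil))))))) (.g (nat_lit 1) (.e (nat_lit 271031) (nat_lit 0) .nil) .nil))) 
(.lf (nat_lit 541186) (.g (nat_lit 3311) (.e (nat_lit 90174) (nat_lit 14) (.e (nat_lit 180250) (nat_lit 10) (.e (nat_lit 573489) (nat_lit 14) (.e (nat_lit 73755) (nat_lit 8) (.e (nat_lit 557090) (nat_lit 12) (.e (nat_lit 163845) (nat_lit 0) (.e (nat_lit 5941) (nat_lit 322) (.e (nat_lit 57372) (nat_lit 2) .nil)))))))) (.g (nat_lit 1) (.e (nat_lit 271691) (nat_lit 0) .nil) .nil)))) (.nd (nat_lit 9) 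
(.lf (nat_lit 540930) (.g (nat_lit 2464) (.e (nat_lit 90172) (nat_lit 14) (.e (nat_lit 180243) (nat_lit 5) (.e (nat_lit 532513) (nat_lit 3) (.e (nat_lit 114718) (nat_lit 23) (.e (nat_lit 98332) (nat_lit 18) .nil))))) (.g (nat_lit 0) (.e (nat_lit 271324) (nat_lit 0) .nil) .nil))) 
(.lf (nat_lit 541442) (.g (nat_lit 2053) (.e (nat_lit 90185) (nat_lit 17) (.e (nat_lit 237616) (nat_lit 12) (.e (nat_lit 475179) (nat_lit 24) (.e (nat_lit 516124) (nat_lit 2) (.e (nat_lit 213032) (nat_lit 11) (.e (nat_lit 24603) (nat_lit 2) .nil)))))) (.g (nat_lit 1) (.e (nat_lit 272045) (nat_lit 0) .nil) .nil))))) (.nd (nat_lit 8) (.nd (nat_lit 9) 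
(.lf (nat_lit 540802) (.g (nat_lit 1584) (.e (nat_lit 90170) (nat_lit 13) (.e (nat_lit 172113) (nat_lit 10) (.e (nat_lit 434247) (nat_lit 28) (.e (nat_lit 573454) (nat_lit 9) (.e (nat_lit 7936) (nat_lit 33) .nil))))) (.g (nat_lit 0) (.e (nat_lit 271161) (nat_lit 0) .nil) .nil))) 
(.lf (nat_lit 541314) (.g (nat_lit 3065) (.e (nat_lit 90176) (nat_lit 15) (.e (nat_lit 188423) (nat_lit 11) (.e (nat_lit 335996) (nat_lit 1) (.e (nat_lit 57692) (nat_lit 156) (.e (nat_lit 163907) (nat_lit 12) (.e (nat_lit 426427) (nat_lit 17) .nil)))))) (.g (nat_lit 1) (.e (nat_lit 271840) (nat_lit 0) .nil) .nil)))) (.nd (nat_lit 9) 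
(.lf (nat_lit 541058) (.g (nat_lit 3071) (.e (nat_lit 90173) (nat_lit 14) (.e (nat_lit 180252) (nat_lit 10) (.e (nat_lit 573489) (nat_lit 14) (.e (nat_lit 73755) (nat_lit 8) (.e (nat_lit 557090) (nat_lit 12) (.e (nat_lit 163840) (nat_lit 0) (.e (nat_lit 5939) (nat_lit 322) (.e (nat_lit 57372) (nat_lit 2) .nil)))))))) (.g (nat_lit 1) (.e (nat_lit 271506) (nat_lit 0) .nil) .nil))) 
(.lf (nat_lit 541570) (.g (nat_lit 1472) (.e (nat_lit 98317) (nat_lit 9) (.e (nat_lit 335986) (nat_lit 1) (.e (nat_lit 57931) (nat_lit 282) (.e (nat_lit 163902) (nat_lit 12) .nil)))) (.g (nat_lit 0) (.e (nat_lit 272469) (nat_lit 0) .nil) .nil)))))) (.nd (nat_lit 7) (.nd (nat_lit 8) (.nd (nat_lit 9) 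
(.lf (nat_lit 540738) (.g (nat_lit 2593) (.e (nat_lit 90170) (nat_lit 13) (.e (nat_lit 172113) (nat_lit 10) (.e (nat_lit 434242) (nat_lit 28) (.e (nat_lit 573474) (nat_lit 12) (.e (nat_lit 57351) (nat_lit 0) (.e (nat_lit 7263) (nat_lit 384) (.e (nat_lit 57412) (nat_lit 12) (.e (nat_lit 336001) (nat_lit 2) .nil)))))))) (.g (nat_lit 1) (.e (nat_lit 271095) (nat_lit 0) .nil) .nil))) 
(.lf (nat_lit 541250) (.g (nat_lit 3771) (.e (nat_lit 90174) (nat_lit 14) (.e (nat_lit 180251) (nat_lit 10) (.e (nat_lit 573489) (nat_lit 14) (.e (nat_lit 73755) (nat_lit 8) (.e (nat_lit 557090) (nat_lit 12) (.e (nat_lit 163842) (nat_lit 0) (.e (nat_lit 5932) (nat_lit 322) (.e (nat_lit 57373) (nat_lit 2) .nil)))))))) (.g (nat_lit 1) (.e (nat_lit 271755) (nat_lit 0) .nil) .nil)))) (.nd (nat_lit 9) 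
(.lf (nat_lit 540994) (.g (nat_lit 3078) (.e (nat_lit 90172) (nat_lit 14) (.e (nat_lit 180250) (nat_lit 10) (.e (nat_lit 573488) (nat_lit 14) (.e (nat_lit 73755) (nat_lit 8) (.e (nat_lit 557119) (nat_lit 18) (.e (nat_lit 2798) (nat_lit 180) (.e (nat_lit 311040) (nat_lit 17) .nil))))))) (.g (nat_lit 1) (.e (nat_lit 271424) (nat_lit 0) .nil) .nil))) 
(.lf (nat_lit 541506) (.g (nat_lit 660) (.e (nat_lit 98312) (nat_lit 9) (.e (nat_lit 335988) (nat_lit 1) (.e (nat_lit 57926) (nat_lit 282) .nil))) (.g (nat_lit 0) (.e (nat_lit 272292) (nat_lit 0) .nil) .nil))))) (.nd (nat_lit 8) (.nd (nat_lit 9) 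
(.lf (nat_lit 540866) (.g (nat_lit 2654) (.e (nat_lit 90170) (nat_lit 13) (.e (nat_lit 172118) (nat_lit 12) (.e (nat_lit 475177) (nat_lit 24) (.e (nat_lit 516126) (nat_lit 2) (.e (nat_lit 213032) (nat_lit 11) (.e (nat_lit 24605) (nat_lit 2) .nil)))))) (.g (nat_lit 1) (.e (nat_lit 271230) (nat_lit 0) .nil) .nil))) 
(.lf (nat_lit 541378) (.g (nat_lit 3962) (.e (nat_lit 90178) (nat_lit 15) (.e (nat_lit 188421) (nat_lit 11) (.e (nat_lit 335995) (nat_lit 1) (.e (nat_lit 57688) (nat_lit 156) (.e (nat_lit 163905) (nat_lit 12) (.e (nat_lit 426428) (nat_lit 17) .nil)))))) (.g (nat_lit 1) (.e (nat_lit 271923) (nat_lit 0) .nil) .nil)))) (.nd (nat_lit 9) 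
(.lf (nat_lit 541122) (.g (nat_lit 3431) (.e (nat_lit 90174) (nat_lit 14) (.e (nat_lit 180243) (nat_lit 5) (.e (nat_lit 532504) (nat_lit 1) (.e (nat_lit 57691) (nat_lit 156) (.e (nat_lit 163874) (nat_lit 3) (.e (nat_lit 204836) (nat_lit 20) (.e (nat_lit 114716) (nat_lit 22) .nil))))))) (.g (nat_lit 1) (.e (nat_lit 271622) (nat_lit 0) .nil) .nil))) 
(.lf (nat_lit 541634) (.g (nat_lit 344) (.e (nat_lit 98323) (nat_lit 17) (.e (nat_lit 7101) (nat_lit 380) (.e (nat_lit 164371) (nat_lit 249) .nil))) (.g (nat_lit 0) (.e (nat_lit 272649) (nat_lit 0) .nil) .nil))))))) (.nd (nat_lit 6) (.nd (nat_lit 7) (.nd (nat_lit 8) (.nd (nat_lit 9) 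
(.lf (nat_lit 540706) (.g (nat_lit 1898) (.e (nat_lit 90170) (nat_lit 13) (.e (nat_lit 172106) (nat_lit 10) (.e (nat_lit 434244) (nat_lit 28) (.e (nat_lit 573474) (nat_lit 12) (.e (nat_lit 57571) (nat_lit 54) .nil))))) (.g (nat_lit 0) (.e (nat_lit 271063) (nat_lit 0) .nil) .nil))) 
(.lf (nat_lit 541218) (.g (nat_lit 3273) (.e (nat_lit 90174) (nat_lit 14) (.e (nat_lit 180251) (nat_lit 10) (.e (nat_lit 573489) (nat_lit 14) (.e (nat_lit 73755) (nat_lit 8) (.e (nat_lit 557067) (nat_lit 9) (.e (nat_lit 2598) (nat_lit 163) (.e (nat_lit 164398) (nat_lit 256) (.e (nat_lit 57372) (nat_lit 2) .nil)))))))) (.g (nat_lit 1) (.e (nat_lit 271723) (nat_lit 0) .nil) .nil)))) 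
(.nd (nat_lit 9) 
(.lf (nat_lit 540962) (.g (nat_lit 1772) (.e (nat_lit 90172) (nat_lit 14) (.e (nat_lit 180244) (nat_lit 5) (.e (nat_lit 532514) (nat_lit 3) (.e (nat_lit 114719) (nat_lit 23) (.e (nat_lit 98335) (nat_lit 18) .nil))))) (.g (nat_lit 0) (.e (nat_lit 271388) (nat_lit 0) .nil) .nil))) 
(.lf (nat_lit 541474) (.g (nat_lit 2832) (.e (nat_lit 90185) (nat_lit 17) (.e (nat_lit 237619) (nat_lit 12) (.e (nat_lit 475179) (nat_lit 24) (.e (nat_lit 516126) (nat_lit 2) (.e (nat_lit 213032) (nat_lit 11) (.e (nat_lit 24604) (nat_lit 2) .nil)))))) (.g (nat_lit 1) (.e (nat_lit 272077) (nat_lit 0) .nil) .nil))))) (.nd (nat_lit 8) (.nd (nat_lit 9) 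
(.lf (nat_lit 540834) (.g (nat_lit 2086) (.e (nat_lit 90170) (nat_lit 13) (.e (nat_lit 172113) (nat_lit 10) (.e (nat_lit 434248) (nat_lit 28) (.e (nat_lit 573471) (nat_lit 11) (.e (nat_lit 16471) (nat_lit 14) .nil))))) (.g (nat_lit 0) (.e (nat_lit 271196) (nat_lit 0) .nil) .nil))) 
(.lf (nat_lit 541346) (.g (nat_lit 1850) (.e (nat_lit 90176) (nat_lit 15) (.e (nat_lit 188450) (nat_lit 23) (.e (nat_lit 204846) (nat_lit 24) (.e (nat_lit 319531) (nat_lit 16) (.e (nat_lit 294656) (nat_lit 2) .nil))))) (.g (nat_lit 1) (.e (nat_lit 271877) (nat_lit 0) .nil) .nil)))) (.nd (nat_lit 9) 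
(.lf (nat_lit 541090) (.g (nat_lit 2948) (.e (nat_lit 90174) (nat_lit 14) (.e (nat_lit 180243) (nat_lit 5) (.e (nat_lit 532499) (nat_lit 1) (.e (nat_lit 57688) (nat_lit 156) (.e (nat_lit 163873) (nat_lit 3) (.e (nat_lit 204838) (nat_lit 20) (.e (nat_lit 114715) (nat_lit 22) .nil))))))) (.g (nat_lit 1) (.e (nat_lit 271552) (nat_lit 0) .nil) .nil))) 
(.lf (nat_lit 541602) (.g (nat_lit 1342) (.e (nat_lit 98317) (nat_lit 9) (.e (nat_lit 336196) (nat_lit 12) (.e (nat_lit 385066) (nat_lit 26) (.e (nat_lit 540416) (nat_lit 18) .nil)))) (.g (nat_lit 0) (.e (nat_lit 272535) (nat_lit 0) .nil) .nil)))))) (.nd (nat_lit 7) (.nd (nat_lit 8) (.nd (nat_lit 9) 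
(.lf (nat_lit 540770) (.g (nat_lit 2989) (.e (nat_lit 90170) (nat_lit 13) (.e (nat_lit 172113) (nat_lit 10) (.e (nat_lit 434245) (nat_lit 28) (.e (nat_lit 573471) (nat_lit 11) (.e (nat_lit 16391) (nat_lit 0) .nil))))) (.g (nat_lit 0) (.e (nat_lit 271127) (nat_lit 0) .nil) .nil))) 
(.lf (nat_lit 541282) (.g (nat_lit 2783) (.e (nat_lit 90174) (nat_lit 14) (.e (nat_lit 180251) (nat_lit 10) (.e (nat_lit 573489) (nat_lit 14) (.e (nat_lit 73755) (nat_lit 8) (.e (nat_lit 557119) (nat_lit 18) (.e (nat_lit 2807) (nat_lit 180) (.e (nat_lit 311040) (nat_lit 17) .nil))))))) (.g (nat_lit 1) (.e (nat_lit 271787) (nat_lit 0) .nil) .nil)))) (.nd (nat_lit 9) 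
(.lf (nat_lit 541026) (.g (nat_lit 3340) (.e (nat_lit 90172) (nat_lit 14) (.e (nat_lit 180251) (nat_lit 10) (.e (nat_lit 573489) (nat_lit 14) (.e (nat_lit 73755) (nat_lit 8) (.e (nat_lit 557090) (nat_lit 12) (.e (nat_lit 163843) (nat_lit 0) (.e (nat_lit 5941) (nat_lit 322) (.e (nat_lit 57372) (nat_lit 2) .nil)))))))) (.g (nat_lit 1) (.e (nat_lit 271456) (nat_lit 0) .nil) .nil))) 
(.lf (nat_lit 541538) (.g (nat_lit 2575) (.e (nat_lit 98313) (nat_lit 9) (.e (nat_lit 335995) (nat_lit 1) (.e (nat_lit 57930) (nat_lit 282) (.e (nat_lit 163905) (nat_lit 12) (.e (nat_lit 426555) (nat_lit 32) (.e (nat_lit 376867) (nat_lit 23) .nil)))))) (.g (nat_lit 1) (.e (nat_lit 272374) (nat_lit 0) .nil) .nil))))) (.nd (nat_lit 8) (.nd (nat_lit 9) 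
(.lf (nat_lit 540898) (.g (nat_lit 2052) (.e (nat_lit 90170) (nat_lit 13) (.e (nat_lit 172126) (nat_lit 14) (.e (nat_lit 491537) (nat_lit 2) (.e (nat_lit 90171) (nat_lit 14) .nil)))) (.g (nat_lit 0) (.e (nat_lit 271262) (nat_lit 0) .nil) .nil))) 
(.lf (nat_lit 541410) (.g (nat_lit 4802) (.e (nat_lit 90185) (nat_lit 17) (.e (nat_lit 237605) (nat_lit 9) (.e (nat_lit 425986) (nat_lit 0) (.e (nat_lit 3309) (nat_lit 202) (.e (nat_lit 573477) (nat_lit 12) (.e (nat_lit 57575) (nat_lit 55) (.e (nat_lit 778466) (nat_lit 11) (.e (nat_lit 24604) (nat_lit 2) .nil)))))))) (.g (nat_lit 1) (.e (nat_lit 272013) (nat_lit 0) .nil) .nil)))) (.nd (nat_lit 9) 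
(.lf (nat_lit 541154) (.g (nat_lit 3169) (.e (nat_lit 90174) (nat_lit 14) (.e (nat_lit 180250) (nat_lit 10) (.e (nat_lit 573488) (nat_lit 14) (.e (nat_lit 73755) (nat_lit 8) (.e (nat_lit 557091) (nat_lit 12) .nil))))) (.g (nat_lit 0) (.e (nat_lit 271659) (nat_lit 0) .nil) .nil))) 
(.lf (nat_lit 541666) (.g (nat_lit 2026) (.e (nat_lit 98332) (nat_lit 18) (.e (nat_lit 164399) (nat_lit 256) (.e (nat_lit 57372) (nat_lit 2) (.e (nat_lit 90172) (nat_lit 14) (.e (nat_lit 180244) (nat_lit 5) .nil))))) (.g (nat_lit 0) (.e (nat_lit 272749) (nat_lit 0) .nil) .nil)))))))) (.nd (nat_lit 5) (.nd (nat_lit 6) (.nd (nat_lit 7) (.nd (nat_lit 8) (.nd (nat_lit 9) 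
(.lf (nat_lit 540690) (.g (nat_lit 3421) (.e (nat_lit 90170) (nat_lit 13) (.e (nat_lit 172106) (nat_lit 10) (.e (nat_lit 434244) (nat_lit 28) (.e (nat_lit 573473) (nat_lit 12) (.e (nat_lit 57347) (nat_lit 0) (.e (nat_lit 7261) (nat_lit 384) (.e (nat_lit 57412) (nat_lit 12) (.e (nat_lit 336001) (nat_lit 2) .nil)))))))) (.g (nat_lit 1) (.e (nat_lit 271047) (nat_lit 0) .nil) .nil))) 
(.lf (nat_lit 541202) (.g (nat_lit 2982) (.e (nat_lit 90174) (nat_lit 14) (.e (nat_lit 180250) (nat_lit 10) (.e (nat_lit 573489) (nat_lit 14) (.e (nat_lit 73755) (nat_lit 8) (.e (nat_lit 557091) (nat_lit 12) (.e (nat_lit 163852) (nat_lit 0) (.e (nat_lit 5951) (nat_lit 322) (.e (nat_lit 57371) (nat_lit 2) .nil)))))))) (.g (nat_lit 1) (.e (nat_lit 271707) (nat_lit 0) .nil) .nil)))) (.nd (nat_lit 9) 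
(.lf (nat_lit 540946) (.g (nat_lit 2466) (.e (nat_lit 90172) (nat_lit 14) (.e (nat_lit 180244) (nat_lit 5) (.e (nat_lit 532499) (nat_lit 1) (.e (nat_lit 57688) (nat_lit 156) (.e (nat_lit 163850) (nat_lit 0) .nil))))) (.g (nat_lit 0) (.e (nat_lit 271346) (nat_lit 0) .nil) .nil))) 
(.lf (nat_lit 541458) (.g (nat_lit 3192) (.e (nat_lit 90185) (nat_lit 17) (.e (nat_lit 237619) (nat_lit 12) (.e (nat_lit 475177) (nat_lit 24) (.e (nat_lit 516124) (nat_lit 2) (.e (nat_lit 213032) (nat_lit 11) (.e (nat_lit 24604) (nat_lit 2) .nil)))))) (.g (nat_lit 1) (.e (nat_lit 272061) (nat_lit 0) .nil) .nil))))) (.nd (nat_lit 8) (.nd (nat_lit 9) 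
(.lf (nat_lit 540818) (.g (nat_lit 3580) (.e (nat_lit 90170) (nat_lit 13) (.e (nat_lit 172113) (nat_lit 10) (.e (nat_lit 434247) (nat_lit 28) (.e (nat_lit 573477) (nat_lit 12) (.e (nat_lit 57575) (nat_lit 55) (.e (nat_lit 778465) (nat_lit 11) (.e (nat_lit 24602) (nat_lit 2) .nil))))))) (.g (nat_lit 1) (.e (nat_lit 271178) (nat_lit 0) .nil) .nil))) 
(.lf (nat_lit 541330) (.g (nat_lit 3169) (.e (nat_lit 90176) (nat_lit 15) (.e (nat_lit 188440) (nat_lit 20) (.e (nat_lit 3307) (nat_lit 202) (.e (nat_lit 573477) (nat_lit 12) (.e (nat_lit 57575) (nat_lit 55) .nil))))) (.g (nat_lit 0) (.e (nat_lit 271858) (nat_lit 0) .nil) .nil)))) (.nd (nat_lit 9) 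
(.lf (nat_lit 541074) (.g (nat_lit 1588) (.e (nat_lit 90174) (nat_lit 14) (.e (nat_lit 180243) (nat_lit 5) (.e (nat_lit 532499) (nat_lit 1) (.e (nat_lit 57655) (nat_lit 152) .nil)))) (.g (nat_lit 0) (.e (nat_lit 271523) (nat_lit 0) .nil) .nil))) 
(.lf (nat_lit 541586) (.g (nat_lit 1890) (.e (nat_lit 98317) (nat_lit 9) (.e (nat_lit 335988) (nat_lit 1) (.e (nat_lit 57931) (nat_lit 282) (.e (nat_lit 163941) (nat_lit 19) .nil)))) (.g (nat_lit 0) (.e (nat_lit 272497) (nat_lit 0) .nil) .nil)))))) (.nd (nat_lit 7) (.nd (nat_lit 8) (.nd (nat_lit 9) 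
(.lf (nat_lit 540754) (.g (nat_lit 2384) (.e (nat_lit 90170) (nat_lit 13) (.e (nat_lit 172113) (nat_lit 10) (.e (nat_lit 434245) (nat_lit 28) (.e (nat_lit 573450) (nat_lit 9) (.e (nat_lit 450) (nat_lit 33) (.e (nat_lit 442112) (nat_lit 0) (.e (nat_lit 1239) (nat_lit 91) .nil))))))) (.g (nat_lit 1) (.e (nat_lit 271111) (nat_lit 0) .nil) .nil))) 
(.lf (nat_lit 541266) (.g (nat_lit 3854) (.e (nat_lit 90174) (nat_lit 14) (.e (nat_lit 180251) (nat_lit 10) (.e (nat_lit 573489) (nat_lit 14) (.e (nat_lit 73755) (nat_lit 8) (.e (nat_lit 557090) (nat_lit 12) (.e (nat_lit 163851) (nat_lit 0) (.e (nat_lit 5938) (nat_lit 322) (.e (nat_lit 57372) (nat_lit 2) .nil)))))))) (.g (nat_lit 1) (.e (nat_lit 271771) (nat_lit 0) .nil) .nil)))) (.nd (nat_lit 9) 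
(.lf (nat_lit 541010) (.g (nat_lit 5139) (.e (nat_lit 90172) (nat_lit 14) (.e (nat_lit 180250) (nat_lit 10) (.e (nat_lit 573489) (nat_lit 14) (.e (nat_lit 73755) (nat_lit 8) (.e (nat_lit 557090) (nat_lit 12) (.e (nat_lit 163843) (nat_lit 0) (.e (nat_lit 5943) (nat_lit 322) (.e (nat_lit 57375) (nat_lit 2) .nil)))))))) (.g (nat_lit 1) (.e (nat_lit 271440) (nat_lit 0) .nil) .nil))) 
(.lf (nat_lit 541522) (.g (nat_lit 3136) (.e (nat_lit 98313) (nat_lit 9) (.e (nat_lit 335986) (nat_lit 1) (.e (nat_lit 57927) (nat_lit 282) (.e (nat_lit 163943) (nat_lit 19) (.e (nat_lit 483393) (nat_lit 23) (.e (nat_lit 336021) (nat_lit 3) .nil)))))) (.g (nat_lit 1) (.e (nat_lit 272324) (nat_lit 0) .nil) .nil))))) (.nd (nat_lit 8) (.nd (nat_lit 9) 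
(.lf (nat_lit 540882) (.g (nat_lit 2109) (.e (nat_lit 90170) (nat_lit 13) (.e (nat_lit 172123) (nat_lit 13) (.e (nat_lit 483337) (nat_lit 9) (.e (nat_lit 426098) (nat_lit 1) (.e (nat_lit 164398) (nat_lit 256) (.e (nat_lit 57370) (nat_lit 2) .nil)))))) (.g (nat_lit 1) (.e (nat_lit 271246) (nat_lit 0) .nil) .nil))) 
(.lf (nat_lit 541394) (.g (nat_lit 998) (.e (nat_lit 98048) (nat_lit 15) (.e (nat_lit 188449) (nat_lit 22) (.e (nat_lit 196626) (nat_lit 9) .nil))) (.g (nat_lit 0) (.e (nat_lit 271940) (nat_lit 0) .nil) .nil)))) (.nd (nat_lit 9) 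
(.lf (nat_lit 541138) (.g (nat_lit 2606) (.e (nat_lit 90174) (nat_lit 14) (.e (nat_lit 180243) (nat_lit 5) (.e (nat_lit 532515) (nat_lit 3) (.e (nat_lit 114719) (nat_lit 23) (.e (nat_lit 98321) (nat_lit 17) (.e (nat_lit 2464) (nat_lit 157) (.e (nat_lit 5946) (nat_lit 322) (.e (nat_lit 57373) (nat_lit 2) .nil)))))))) (.g (nat_lit 1) (.e (nat_lit 271642) (nat_lit 0) .nil) .nil))) 
(.lf (nat_lit 541650) (.g (nat_lit 1686) (.e (nat_lit 98332) (nat_lit 18) (.e (nat_lit 164182) (nat_lit 154) (.e (nat_lit 57379) (nat_lit 3) (.e (nat_lit 98342) (nat_lit 20) .nil)))) (.g (nat_lit 0) (.e (nat_lit 272700) (nat_lit 0) .nil) .nil))))))) (.nd (nat_lit 6) (.nd (nat_lit 7) (.nd (nat_lit 8) (.nd (nat_lit 9) 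
(.lf (nat_lit 540722) (.g (nat_lit 3258) (.e (nat_lit 90170) (nat_lit 13) (.e (nat_lit 172113) (nat_lit 10) (.e (nat_lit 434231) (nat_lit 23) (.e (nat_lit 532523) (nat_lit 7) (.e (nat_lit 327424) (nat_lit 10) .nil))))) (.g (nat_lit 0) (.e (nat_lit 271079) (nat_lit 0) .nil) .nil))) 
(.lf (nat_lit 541234) (.g (nat_lit 4002) (.e (nat_lit 90174) (nat_lit 14) (.e (nat_lit 180251) (nat_lit 10) (.e (nat_lit 573489) (nat_lit 14) (.e (nat_lit 73755) (nat_lit 8) (.e (nat_lit 557075) (nat_lit 9) (.e (nat_lit 2610) (nat_lit 163) (.e (nat_lit 164403) (nat_lit 256) (.e (nat_lit 57373) (nat_lit 2) .nil)))))))) (.g (nat_lit 1) (.e (nat_lit 271739) (nat_lit 0) .nil) .nil)))) 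
(.nd (nat_lit 9) 
(.lf (nat_lit 540978) (.g (nat_lit 4313) (.e (nat_lit 90172) (nat_lit 14) (.e (nat_lit 180250) (nat_lit 10) (.e (nat_lit 573487) (nat_lit 14) (.e (nat_lit 73753) (nat_lit 8) (.e (nat_lit 557091) (nat_lit 12) (.e (nat_lit 163841) (nat_lit 0) (.e (nat_lit 5943) (nat_lit 322) (.e (nat_lit 57372) (nat_lit 2) .nil)))))))) (.g (nat_lit 1) (.e (nat_lit 271408) (nat_lit 0) .nil) .nil))) 
(.lf (nat_lit 541490) (.g (nat_lit 1494) (.e (nat_lit 90189) (nat_lit 18) (.e (nat_lit 2797) (nat_lit 180) (.e (nat_lit 303127) (nat_lit 9) (.e (nat_lit 426568) (nat_lit 34) .nil)))) (.g (nat_lit 0) (.e (nat_lit 272116) (nat_lit 0) .nil) .nil))))) (.nd (nat_lit 8) (.nd (nat_lit 9) 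
(.lf (nat_lit 540850) (.g (nat_lit 2974) (.e (nat_lit 90170) (nat_lit 13) (.e (nat_lit 172113) (nat_lit 10) (.e (nat_lit 434248) (nat_lit 28) (.e (nat_lit 573475) (nat_lit 12) (.e (nat_lit 57351) (nat_lit 0) (.e (nat_lit 7263) (nat_lit 384) (.e (nat_lit 57412) (nat_lit 12) (.e (nat_lit 336008) (nat_lit 2) .nil)))))))) (.g (nat_lit 1) (.e (nat_lit 271212) (nat_lit 0) .nil) .nil))) 
(.lf (nat_lit 541362) (.g (nat_lit 5002) (.e (nat_lit 90176) (nat_lit 15) (.e (nat_lit 188452) (nat_lit 23) (.e (nat_lit 204846) (nat_lit 24) (.e (nat_lit 319535) (nat_lit 17) (.e (nat_lit 294927) (nat_lit 2) .nil))))) (.g (nat_lit 1) (.e (nat_lit 271895) (nat_lit 0) .nil) .nil)))) (.nd (nat_lit 9) 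
(.lf (nat_lit 541106) (.g (nat_lit 2375) (.e (nat_lit 90174) (nat_lit 14) (.e (nat_lit 180243) (nat_lit 5) (.e (nat_lit 532502) (nat_lit 1) (.e (nat_lit 57688) (nat_lit 156) (.e (nat_lit 163872) (nat_lit 3) (.e (nat_lit 204838) (nat_lit 20) (.e (nat_lit 114716) (nat_lit 22) .nil))))))) (.g (nat_lit 1) (.e (nat_lit 271587) (nat_lit 0) .nil) .nil))) 
(.lf (nat_lit 541618) (.g (nat_lit 2184) (.e (nat_lit 98320) (nat_lit 17) (.e (nat_lit 7593) (nat_lit 407) (.e (nat_lit 73746) (nat_lit 3) (.e (nat_lit 516139) (nat_lit 7) (.e (nat_lit 409641) (nat_lit 17) .nil))))) (.g (nat_lit 0) (.e (nat_lit 272628) (nat_lit 0) .nil) .nil)))))) (.nd (nat_lit 7) (.nd (nat_lit 8) (.nd (nat_lit 9) 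
(.lf (nat_lit 540786) (.g (nat_lit 2957) (.e (nat_lit 90170) (nat_lit 13) (.e (nat_lit 172113) (nat_lit 10) (.e (nat_lit 434245) (nat_lit 28) (.e (nat_lit 573474) (nat_lit 12) (.e (nat_lit 57348) (nat_lit 0) (.e (nat_lit 7263) (nat_lit 384) (.e (nat_lit 57412) (nat_lit 12) (.e (nat_lit 336008) (nat_lit 2) .nil)))))))) (.g (nat_lit 1) (.e (nat_lit 271143) (nat_lit 0) .nil) .nil))) 
(.lf (nat_lit 541298) (.g (nat_lit 3401) (.e (nat_lit 90175) (nat_lit 15) (.e (nat_lit 188452) (nat_lit 23) (.e (nat_lit 204846) (nat_lit 24) (.e (nat_lit 319535) (nat_lit 17) (.e (nat_lit 294927) (nat_lit 2) .nil))))) (.g (nat_lit 1) (.e (nat_lit 271823) (nat_lit 0) .nil) .nil)))) (.nd (nat_lit 9) 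
(.lf (nat_lit 541042) (.g (nat_lit 3240) (.e (nat_lit 90173) (nat_lit 14) (.e (nat_lit 180251) (nat_lit 10) (.e (nat_lit 573489) (nat_lit 14) (.e (nat_lit 73755) (nat_lit 8) (.e (nat_lit 557090) (nat_lit 12) (.e (nat_lit 163850) (nat_lit 0) (.e (nat_lit 5951) (nat_lit 322) (.e (nat_lit 57373) (nat_lit 2) .nil)))))))) (.g (nat_lit 1) (.e (nat_lit 271483) (nat_lit 0) .nil) .nil))) 
(.lf (nat_lit 541554) (.g (nat_lit 814) (.e (nat_lit 98315) (nat_lit 9) (.e (nat_lit 335998) (nat_lit 1) (.e (nat_lit 57931) (nat_lit 282) .nil))) (.g (nat_lit 0) (.e (nat_lit 272436) (nat_lit 0) .nil) .nil))))) (.nd (nat_lit 8) (.nd (nat_lit 9) 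
(.lf (nat_lit 540914) (.g (nat_lit 1865) (.e (nat_lit 90172) (nat_lit 14) (.e (nat_lit 180243) (nat_lit 5) (.e (nat_lit 532499) (nat_lit 1) (.e (nat_lit 57657) (nat_lit 152) .nil)))) (.g (nat_lit 0) (.e (nat_lit 271282) (nat_lit 0) .nil) .nil))) 
(.lf (nat_lit 541426) (.g (nat_lit 1930) (.e (nat_lit 90185) (nat_lit 17) (.e (nat_lit 237616) (nat_lit 12) (.e (nat_lit 475177) (nat_lit 24) (.e (nat_lit 516097) (nat_lit 0) (.e (nat_lit 3653) (nat_lit 227) (.e (nat_lit 778462) (nat_lit 11) (.e (nat_lit 24604) (nat_lit 2) .nil))))))) (.g (nat_lit 1) (.e (nat_lit 272029) (nat_lit 0) .nil) .nil)))) (.nd (nat_lit 9) 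
(.lf (nat_lit 541170) (.g (nat_lit 4075) (.e (nat_lit 90174) (nat_lit 14) (.e (nat_lit 180250) (nat_lit 10) (.e (nat_lit 573489) (nat_lit 14) (.e (nat_lit 73755) (nat_lit 8) (.e (nat_lit 557067) (nat_lit 9) (.e (nat_lit 2603) (nat_lit 163) (.e (nat_lit 164402) (nat_lit 256) (.e (nat_lit 57371) (nat_lit 2) .nil)))))))) (.g (nat_lit 1) (.e (nat_lit 271675) (nat_lit 0) .nil) .nil))) 
(.lf (nat_lit 541682) (.g (nat_lit 503) (.e (nat_lit 98333) (nat_lit 18) (.e (nat_lit 164179) (nat_lit 154) (.e (nat_lit 57405) (nat_lit 12) .nil))) (.g (nat_lit 0) (.e (nat_lit 272783) (nat_lit 0) .nil) .nil))))))))) (.nd (nat_lit 4) (.nd (nat_lit 5) (.nd (nat_lit 6) (.nd (nat_lit 7) (.nd (nat_lit 8) (.nd (nat_lit 9) 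
(.lf (nat_lit 540682) (.g (nat_lit 3585) (.e (nat_lit 90170) (nat_lit 13) (.e (nat_lit 172106) (nat_lit 10) (.e (nat_lit 434244) (nat_lit 28) (.e (nat_lit 573458) (nat_lit 9) (.e (nat_lit 426) (nat_lit 32) (.e (nat_lit 426031) (nat_lit 0) (.e (nat_lit 7562) (nat_lit 402) (.e (nat_lit 1235) (nat_lit 91) .nil)))))))) (.g (nat_lit 1) (.e (nat_lit 271039) (nat_lit 0) .nil) .nil))) 
(.lf (nat_lit 541194) (.g (nat_lit 2995) (.e (nat_lit 90174) (nat_lit 14) (.e (nat_lit 180250) (nat_lit 10) (.e (nat_lit 573489) (nat_lit 14) (.e (nat_lit 73755) (nat_lit 8) (.e (nat_lit 557091) (nat_lit 12) (.e (nat_lit 163840) (nat_lit 0) (.e (nat_lit 5953) (nat_lit 322) (.e (nat_lit 57371) (nat_lit 2) .nil)))))))) (.g (nat_lit 1) (.e (nat_lit 271699) (nat_lit 0) .nil) .nil)))) (.nd (nat_lit 9) 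
(.lf (nat_lit 540938) (.g (nat_lit 1083) (.e (nat_lit 90172) (nat_lit 14) (.e (nat_lit 180244) (nat_lit 5) (.e (nat_lit 532499) (nat_lit 1) (.e (nat_lit 57657) (nat_lit 152) .nil)))) (.g (nat_lit 0) (.e (nat_lit 271333) (nat_lit 0) .nil) .nil))) 
(.lf (nat_lit 541450) (.g (nat_lit 2038) (.e (nat_lit 90185) (nat_lit 17) (.e (nat_lit 237619) (nat_lit 12) (.e (nat_lit 475177) (nat_lit 24) (.e (nat_lit 516097) (nat_lit 0) (.e (nat_lit 3669) (nat_lit 227) (.e (nat_lit 778462) (nat_lit 11) (.e (nat_lit 24604) (nat_lit 2) .nil))))))) (.g (nat_lit 1) (.e (nat_lit 272053) (nat_lit 0) .nil) .nil))))) (.nd (nat_lit 8) (.nd (nat_lit 9) 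
(.lf (nat_lit 540810) (.g (nat_lit 3865) (.e (nat_lit 90170) (nat_lit 13) (.e (nat_lit 172113) (nat_lit 10) (.e (nat_lit 434247) (nat_lit 28) (.e (nat_lit 573474) (nat_lit 12) (.e (nat_lit 57572) (nat_lit 54) (.e (nat_lit 770071) (nat_lit 8) (.e (nat_lit 65568) (nat_lit 2) .nil))))))) (.g (nat_lit 1) (.e (nat_lit 271169) (nat_lit 0) .nil) .nil))) 
(.lf (nat_lit 541322) (.g (nat_lit 3277) (.e (nat_lit 90176) (nat_lit 15) (.e (nat_lit 188439) (nat_lit 20) (.e (nat_lit 3271) (nat_lit 199) (.e (nat_lit 548913) (nat_lit 18) (.e (nat_lit 172126) (nat_lit 14) (.e (nat_lit 491537) (nat_lit 2) .nil)))))) (.g (nat_lit 1) (.e (nat_lit 271848) (nat_lit 0) .nil) .nil)))) (.nd (nat_lit 9) 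
(.lf (nat_lit 541066) (.g (nat_lit 3405) (.e (nat_lit 90173) (nat_lit 14) (.e (nat_lit 180252) (nat_lit 10) (.e (nat_lit 573489) (nat_lit 14) (.e (nat_lit 73755) (nat_lit 8) (.e (nat_lit 557090) (nat_lit 12) (.e (nat_lit 163854) (nat_lit 0) (.e (nat_lit 5946) (nat_lit 322) (.e (nat_lit 57373) (nat_lit 2) .nil)))))))) (.g (nat_lit 1) (.e (nat_lit 271514) (nat_lit 0) .nil) .nil))) 
(.lf (nat_lit 541578) (.g (nat_lit 2847) (.e (nat_lit 98317) (nat_lit 9) (.e (nat_lit 335988) (nat_lit 1) (.e (nat_lit 57926) (nat_lit 282) (.e (nat_lit 163907) (nat_lit 12) (.e (nat_lit 426555) (nat_lit 32) (.e (nat_lit 376867) (nat_lit 23) .nil)))))) (.g (nat_lit 1) (.e (nat_lit 272478) (nat_lit 0) .nil) .nil)))))) (.nd (nat_lit 7) (.nd (nat_lit 8) (.nd (nat_lit 9) 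
(.lf (nat_lit 540746) (.g (nat_lit 1825) (.e (nat_lit 90170) (nat_lit 13) (.e (nat_lit 172113) (nat_lit 10) (.e (nat_lit 434245) (nat_lit 28) (.e (nat_lit 573449) (nat_lit 9) (.e (nat_lit 442) (nat_lit 33) .nil))))) (.g (nat_lit 0) (.e (nat_lit 271103) (nat_lit 0) .nil) .nil))) 
(.lf (nat_lit 541258) (.g (nat_lit 3644) (.e (nat_lit 90174) (nat_lit 14) (.e (nat_lit 180251) (nat_lit 10) (.e (nat_lit 573489) (nat_lit 14) (.e (nat_lit 73755) (nat_lit 8) (.e (nat_lit 557090) (nat_lit 12) (.e (nat_lit 163845) (nat_lit 0) (.e (nat_lit 5934) (nat_lit 322) (.e (nat_lit 57375) (nat_lit 2) .nil)))))))) (.g (nat_lit 1) (.e (nat_lit 271763) (nat_lit 0) .nil) .nil)))) (.nd (nat_lit 9) 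
(.lf (nat_lit 541002) (.g (nat_lit 4218) (.e (nat_lit 90172) (nat_lit 14) (.e (nat_lit 180250) (nat_lit 10) (.e (nat_lit 573489) (nat_lit 14) (.e (nat_lit 73755) (nat_lit 8) (.e (nat_lit 557090) (nat_lit 12) (.e (nat_lit 163841) (nat_lit 0) (.e (nat_lit 5943) (nat_lit 322) (.e (nat_lit 57372) (nat_lit 2) .nil)))))))) (.g (nat_lit 1) (.e (nat_lit 271432) (nat_lit 0) .nil) .nil))) 
(.lf (nat_lit 541514) (.g (nat_lit 305) (.e (nat_lit 98313) (nat_lit 9) (.e (nat_lit 335986) (nat_lit 1) (.e (nat_lit 57926) (nat_lit 282) .nil))) (.g (nat_lit 0) (.e (nat_lit 272311) (nat_lit 0) .nil) .nil))))) (.nd (nat_lit 8) (.nd (nat_lit 9) 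
(.lf (nat_lit 540874) (.g (nat_lit 3587) (.e (nat_lit 90170) (nat_lit 13) (.e (nat_lit 172121) (nat_lit 13) (.e (nat_lit 483363) (nat_lit 18) (.e (nat_lit 57686) (nat_lit 156) (.e (nat_lit 163903) (nat_lit 12) (.e (nat_lit 426428) (nat_lit 17) .nil)))))) (.g (nat_lit 1) (.e (nat_lit 271238) (nat_lit 0) .nil) .nil))) 
(.lf (nat_lit 541386) (.g (nat_lit 3579) (.e (nat_lit 90178) (nat_lit 15) (.e (nat_lit 188440) (nat_lit 20) (.e (nat_lit 3307) (nat_lit 202) (.e (nat_lit 573477) (nat_lit 12) (.e (nat_lit 57575) (nat_lit 55) (.e (nat_lit 778465) (nat_lit 11) (.e (nat_lit 24601) (nat_lit 2) .nil))))))) (.g (nat_lit 1) (.e (nat_lit 271931) (nat_lit 0) .nil) .nil)))) (.nd (nat_lit 9) 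
(.lf (nat_lit 541130) (.g (nat_lit 2461) (.e (nat_lit 90174) (nat_lit 14) (.e (nat_lit 180243) (nat_lit 5) (.e (nat_lit 532513) (nat_lit 3) (.e (nat_lit 114719) (nat_lit 23) (.e (nat_lit 98332) (nat_lit 18) .nil))))) (.g (nat_lit 0) (.e (nat_lit 271634) (nat_lit 0) .nil) .nil))) 
(.lf (nat_lit 541642) (.g (nat_lit 1543) (.e (nat_lit 98325) (nat_lit 17) (.e (nat_lit 3721) (nat_lit 227) (.e (nat_lit 778464) (nat_lit 11) (.e (nat_lit 24603) (nat_lit 2) (.e (nat_lit 90176) (nat_lit 15) (.e (nat_lit 196352) (nat_lit 3) .nil)))))) (.g (nat_lit 1) (.e (nat_lit 272674) (nat_lit 0) .nil) .nil))))))) (.nd (nat_lit 6) (.nd (nat_lit 7) (.nd (nat_lit 8) (.nd (nat_lit 9) 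
(.lf (nat_lit 540714) (.g (nat_lit 5101) (.e (nat_lit 90170) (nat_lit 13) (.e (nat_lit 172106) (nat_lit 10) (.e (nat_lit 434247) (nat_lit 28) (.e (nat_lit 573477) (nat_lit 12) (.e (nat_lit 57574) (nat_lit 55) (.e (nat_lit 778466) (nat_lit 11) (.e (nat_lit 24604) (nat_lit 2) .nil))))))) (.g (nat_lit 1) (.e (nat_lit 271071) (nat_lit 0) .nil) .nil))) 
(.lf (nat_lit 541226) (.g (nat_lit 2578) (.e (nat_lit 90174) (nat_lit 14) (.e (nat_lit 180251) (nat_lit 10) (.e (nat_lit 573489) (nat_lit 14) (.e (nat_lit 73755) (nat_lit 8) (.e (nat_lit 557068) (nat_lit 9) (.e (nat_lit 2604) (nat_lit 163) (.e (nat_lit 164396) (nat_lit 256) (.e (nat_lit 57371) (nat_lit 2) .nil)))))))) (.g (nat_lit 1) (.e (nat_lit 271731) (nat_lit 0) .nil) .nil)))) 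
(.nd (nat_lit 9) 
(.lf (nat_lit 540970) (.g (nat_lit 3932) (.e (nat_lit 90172) (nat_lit 14) (.e (nat_lit 180250) (nat_lit 10) (.e (nat_lit 573487) (nat_lit 14) (.e (nat_lit 73753) (nat_lit 8) (.e (nat_lit 557089) (nat_lit 12) (.e (nat_lit 163844) (nat_lit 0) (.e (nat_lit 5943) (nat_lit 322) (.e (nat_lit 57375) (nat_lit 2) .nil)))))))) (.g (nat_lit 1) (.e (nat_lit 271400) (nat_lit 0) .nil) .nil))) 
(.lf (nat_lit 541482) (.g (nat_lit 2173) (.e (nat_lit 90185) (nat_lit 17) (.e (nat_lit 237623) (nat_lit 13) (.e (nat_lit 483363) (nat_lit 18) (.e (nat_lit 57688) (nat_lit 156) (.e (nat_lit 163902) (nat_lit 12) (.e (nat_lit 426428) (nat_lit 17) .nil)))))) (.g (nat_lit 1) (.e (nat_lit 272085) (nat_lit 0) .nil) .nil))))) (.nd (nat_lit 8) (.nd (nat_lit 9) 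
(.lf (nat_lit 540842) (.g (nat_lit 2498) (.e (nat_lit 90170) (nat_lit 13) (.e (nat_lit 172113) (nat_lit 10) (.e (nat_lit 434248) (nat_lit 28) (.e (nat_lit 573473) (nat_lit 12) (.e (nat_lit 65280) (nat_lit 55) (.e (nat_lit 778462) (nat_lit 11) (.e (nat_lit 24605) (nat_lit 2) .nil))))))) (.g (nat_lit 1) (.e (nat_lit 271204) (nat_lit 0) .nil) .nil))) 
(.lf (nat_lit 541354) (.g (nat_lit 2164) (.e (nat_lit 90176) (nat_lit 15) (.e (nat_lit 188450) (nat_lit 23) (.e (nat_lit 204861) (nat_lit 26) (.e (nat_lit 335987) (nat_lit 1) (.e (nat_lit 57926) (nat_lit 282) (.e (nat_lit 171776) (nat_lit 63) .nil)))))) (.g (nat_lit 1) (.e (nat_lit 271885) (nat_lit 0) .nil) .nil)))) (.nd (nat_lit 9) 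
(.lf (nat_lit 541098) (.g (nat_lit 2673) (.e (nat_lit 90174) (nat_lit 14) (.e (nat_lit 180243) (nat_lit 5) (.e (nat_lit 532499) (nat_lit 1) (.e (nat_lit 57692) (nat_lit 156) (.e (nat_lit 163875) (nat_lit 3) (.e (nat_lit 204838) (nat_lit 20) (.e (nat_lit 114715) (nat_lit 22) .nil))))))) (.g (nat_lit 1) (.e (nat_lit 271565) (nat_lit 0) .nil) .nil))) 
(.lf (nat_lit 541610) (.g (nat_lit 907) (.e (nat_lit 98319) (nat_lit 17) (.e (nat_lit 7593) (nat_lit 407) (.e (nat_lit 73755) (nat_lit 8) (.e (nat_lit 557087) (nat_lit 11) .nil)))) (.g (nat_lit 0) (.e (nat_lit 272614) (nat_lit 0) .nil) .nil)))))) (.nd (nat_lit 7) (.nd (nat_lit 8) (.nd (nat_lit 9) 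
(.lf (nat_lit 540778) (.g (nat_lit 2378) (.e (nat_lit 90170) (nat_lit 13) (.e (nat_lit 172113) (nat_lit 10) (.e (nat_lit 434245) (nat_lit 28) (.e (nat_lit 573473) (nat_lit 12) (.e (nat_lit 65280) (nat_lit 55) (.e (nat_lit 778462) (nat_lit 11) (.e (nat_lit 24605) (nat_lit 2) .nil))))))) (.g (nat_lit 1) (.e (nat_lit 271135) (nat_lit 0) .nil) .nil))) 
(.lf (nat_lit 541290) (.g (nat_lit 1576) (.e (nat_lit 90175) (nat_lit 15) (.e (nat_lit 188440) (nat_lit 20) (.e (nat_lit 3307) (nat_lit 202) (.e (nat_lit 573478) (nat_lit 12) .nil)))) (.g (nat_lit 0) (.e (nat_lit 271797) (nat_lit 0) .nil) .nil)))) (.nd (nat_lit 9) 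
(.lf (nat_lit 541034) (.g (nat_lit 1846) (.e (nat_lit 90173) (nat_lit 14) (.e (nat_lit 180251) (nat_lit 10) (.e (nat_lit 573489) (nat_lit 14) (.e (nat_lit 73754) (nat_lit 8) (.e (nat_lit 557094) (nat_lit 12) .nil))))) (.g (nat_lit 0) (.e (nat_lit 271475) (nat_lit 0) .nil) .nil))) 
(.lf (nat_lit 541546) (.g (nat_lit 980) (.e (nat_lit 98313) (nat_lit 9) (.e (nat_lit 336027) (nat_lit 3) (.e (nat_lit 98326) (nat_lit 17) .nil))) (.g (nat_lit 0) (.e (nat_lit 272407) (nat_lit 0) .nil) .nil))))) (.nd (nat_lit 8) (.nd (nat_lit 9) 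
(.lf (nat_lit 540906) (.g (nat_lit 2080) (.e (nat_lit 90171) (nat_lit 14) (.e (nat_lit 180252) (nat_lit 10) (.e (nat_lit 573489) (nat_lit 14) (.e (nat_lit 73755) (nat_lit 8) (.e (nat_lit 557090) (nat_lit 12) .nil))))) (.g (nat_lit 0) (.e (nat_lit 271270) (nat_lit 0) .nil) .nil))) 
(.lf (nat_lit 541418) (.g (nat_lit 1999) (.e (nat_lit 90185) (nat_lit 17) (.e (nat_lit 237605) (nat_lit 9) (.e (nat_lit 426436) (nat_lit 18) (.e (nat_lit 98338) (nat_lit 19) (.e (nat_lit 213032) (nat_lit 11) (.e (nat_lit 24605) (nat_lit 2) .nil)))))) (.g (nat_lit 1) (.e (nat_lit 272021) (nat_lit 0) .nil) .nil)))) (.nd (nat_lit 9) 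
(.lf (nat_lit 541162) (.g (nat_lit 2724) (.e (nat_lit 90174) (nat_lit 14) (.e (nat_lit 180250) (nat_lit 10) (.e (nat_lit 573489) (nat_lit 14) (.e (nat_lit 73755) (nat_lit 8) (.e (nat_lit 557065) (nat_lit 9) (.e (nat_lit 2612) (nat_lit 163) (.e (nat_lit 164396) (nat_lit 256) (.e (nat_lit 57371) (nat_lit 2) .nil)))))))) (.g (nat_lit 1) (.e (nat_lit 271667) (nat_lit 0) .nil) .nil))) 
(.lf (nat_lit 541674) (.g (nat_lit 3741) (.e (nat_lit 98333) (nat_lit 18) (.e (nat_lit 164177) (nat_lit 154) (.e (nat_lit 57379) (nat_lit 3) (.e (nat_lit 98342) (nat_lit 20) (.e (nat_lit 221212) (nat_lit 22) (.e (nat_lit 196681) (nat_lit 17) (.e (nat_lit 131096) (nat_lit 3) .nil))))))) (.g (nat_lit 1) (.e (nat_lit 272761) (nat_lit 0) .nil) .nil)))))))) 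
(.nd (nat_lit 5) (.nd (nat_lit 6) (.nd (nat_lit 7) (.nd (nat_lit 8) (.nd (nat_lit 9) 
(.lf (nat_lit 540698) (.g (nat_lit 2373) (.e (nat_lit 90170) (nat_lit 13) (.e (nat_lit 172106) (nat_lit 10) (.e (nat_lit 434244) (nat_lit 28) (.e (nat_lit 573474) (nat_lit 12) (.e (nat_lit 57353) (nat_lit 0) (.e (nat_lit 7263) (nat_lit 384) (.e (nat_lit 57412) (nat_lit 12) (.e (nat_lit 336001) (nat_lit 2) .nil)))))))) (.g (nat_lit 1) (.e (nat_lit 271055) (nat_lit 0) .nil) .nil))) 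
(.lf (nat_lit 541210) (.g (nat_lit 4271) (.e (nat_lit 90174) (nat_lit 14) (.e (nat_lit 180250) (nat_lit 10) (.e (nat_lit 573489) (nat_lit 14) (.e (nat_lit 73755) (nat_lit 8) (.e (nat_lit 557119) (nat_lit 18) (.e (nat_lit 2798) (nat_lit 180) (.e (nat_lit 311040) (nat_lit 17) .nil))))))) (.g (nat_lit 1) (.e (nat_lit 271715) (nat_lit 0) .nil) .nil)))) (.nd (nat_lit 9) 
(.lf (nat_lit 540954) (.g (nat_lit 1607) (.e (nat_lit 90172) (nat_lit 14) (.e (nat_lit 180244) (nat_lit 5) (.e (nat_lit 532504) (nat_lit 1) (.e (nat_lit 57662) (nat_lit 152) .nil)))) (.g (nat_lit 0) (.e (nat_lit 271374) (nat_lit 0) .nil) .nil))) 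
(.lf (nat_lit 541466) (.g (nat_lit 2883) (.e (nat_lit 90185) (nat_lit 17) (.e (nat_lit 237619) (nat_lit 12) (.e (nat_lit 475177) (nat_lit 24) (.e (nat_lit 516127) (nat_lit 2) (.e (nat_lit 213032) (nat_lit 11) (.e (nat_lit 24604) (nat_lit 2) .nil)))))) (.g (nat_lit 1) (.e (nat_lit 272069) (nat_lit 0) .nil) .nil))))) (.nd (nat_lit 8) (.nd (nat_lit 9) 
(.lf (nat_lit 540826) (.g (nat_lit 3299) (.e (nat_lit 90170) (nat_lit 13) (.e (nat_lit 172113) (nat_lit 10) (.e (nat_lit 434248) (nat_lit 28) (.e (nat_lit 573452) (nat_lit 9) (.e (nat_lit 428) (nat_lit 32) (.e (nat_lit 425990) (nat_lit 0) (.e (nat_lit 7489) (nat_lit 402) (.e (nat_lit 1239) (nat_lit 91) .nil)))))))) (.g (nat_lit 1) (.e (nat_lit 271188) (nat_lit 0) .nil) .nil))) 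
(.lf (nat_lit 541338) (.g (nat_lit 1770) (.e (nat_lit 90176) (nat_lit 15) (.e (nat_lit 188450) (nat_lit 23) (.e (nat_lit 204845) (nat_lit 24) (.e (nat_lit 319498) (nat_lit 10) (.e (nat_lit 5349) (nat_lit 298) .nil))))) (.g (nat_lit 0) (.e (nat_lit 271867) (nat_lit 0) .nil) .nil)))) (.nd (nat_lit 9) 
(.lf (nat_lit 541082) (.g (nat_lit 2934) (.e (nat_lit 90174) (nat_lit 14) (.e (nat_lit 180243) (nat_lit 5) (.e (nat_lit 532499) (nat_lit 1) (.e (nat_lit 57688) (nat_lit 156) (.e (nat_lit 163843) (nat_lit 0) (.e (nat_lit 3248) (nat_lit 197) (.e (nat_lit 532513) (nat_lit 3) (.e (nat_lit 114714) (nat_lit 22) .nil)))))))) (.g (nat_lit 1) (.e (nat_lit 271542) (nat_lit 0) .nil) .nil))) 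
(.lf (nat_lit 541594) (.g (nat_lit 748) (.e (nat_lit 98317) (nat_lit 9) (.e (nat_lit 335996) (nat_lit 1) (.e (nat_lit 57929) (nat_lit 282) .nil))) (.g (nat_lit 0) (.e (nat_lit 272517) (nat_lit 0) .nil) .nil)))))) (.nd (nat_lit 7) (.nd (nat_lit 8) (.nd (nat_lit 9) 
(.lf (nat_lit 540762) (.g (nat_lit 3515) (.e (nat_lit 90170) (nat_lit 13) (.e (nat_lit 172113) (nat_lit 10) (.e (nat_lit 434245) (nat_lit 28) (.e (nat_lit 573470) (nat_lit 11) (.e (nat_lit 16472) (nat_lit 14) (.e (nat_lit 491535) (nat_lit 2) .nil)))))) (.g (nat_lit 1) (.e (nat_lit 271119) (nat_lit 0) .nil) .nil))) 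
(.lf (nat_lit 541274) (.g (nat_lit 2940) (.e (nat_lit 90174) (nat_lit 14) (.e (nat_lit 180251) (nat_lit 10) (.e (nat_lit 573489) (nat_lit 14) (.e (nat_lit 73755) (nat_lit 8) (.e (nat_lit 557091) (nat_lit 12) (.e (nat_lit 163844) (nat_lit 0) (.e (nat_lit 5940) (nat_lit 322) (.e (nat_lit 57371) (nat_lit 2) .nil)))))))) (.g (nat_lit 1) (.e (nat_lit 271779) (nat_lit 0) .nil) .nil)))) (.nd (nat_lit 9) 
(.lf (nat_lit 541018) (.g (nat_lit 4033) (.e (nat_lit 90172) (nat_lit 14) (.e (nat_lit 180250) (nat_lit 10) (.e (nat_lit 573489) (nat_lit 14) (.e (nat_lit 73755) (nat_lit 8) (.e (nat_lit 557090) (nat_lit 12) (.e (nat_lit 163850) (nat_lit 0) (.e (nat_lit 5939) (nat_lit 322) (.e (nat_lit 57375) (nat_lit 2) .nil)))))))) (.g (nat_lit 1) (.e (nat_lit 271448) (nat_lit 0) .nil) .nil))) 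
(.lf (nat_lit 541530) (.g (nat_lit 3544) (.e (nat_lit 98313) (nat_lit 9) (.e (nat_lit 335988) (nat_lit 1) (.e (nat_lit 57926) (nat_lit 282) (.e (nat_lit 163943) (nat_lit 19) (.e (nat_lit 483393) (nat_lit 23) (.e (nat_lit 336021) (nat_lit 3) .nil)))))) (.g (nat_lit 1) (.e (nat_lit 272346) (nat_lit 0) .nil) .nil))))) (.nd (nat_lit 8) (.nd (nat_lit 9) 
(.lf (nat_lit 540890) (.g (nat_lit 1525) (.e (nat_lit 90170) (nat_lit 13) (.e (nat_lit 172123) (nat_lit 13) (.e (nat_lit 483363) (nat_lit 18) (.e (nat_lit 57692) (nat_lit 156) (.e (nat_lit 171776) (nat_lit 12) .nil))))) (.g (nat_lit 0) (.e (nat_lit 271254) (nat_lit 0) .nil) .nil))) 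
(.lf (nat_lit 541402) (.g (nat_lit 2271) (.e (nat_lit 90185) (nat_lit 17) (.e (nat_lit 237592) (nat_lit 3) (.e (nat_lit 204831) (nat_lit 18) (.e (nat_lit 57692) (nat_lit 156) (.e (nat_lit 163872) (nat_lit 3) (.e (nat_lit 204838) (nat_lit 20) (.e (nat_lit 114716) (nat_lit 22) .nil))))))) (.g (nat_lit 1) (.e (nat_lit 271993) (nat_lit 0) .nil) .nil)))) (.nd (nat_lit 9) 
(.lf (nat_lit 541146) (.g (nat_lit 1558) (.e (nat_lit 90174) (nat_lit 14) (.e (nat_lit 180250) (nat_lit 10) (.e (nat_lit 573475) (nat_lit 12) (.e (nat_lit 57503) (nat_lit 38) .nil)))) (.g (nat_lit 0) (.e (nat_lit 271650) (nat_lit 0) .nil) .nil))) 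
(.lf (nat_lit 541658) (.g (nat_lit 2139) (.e (nat_lit 98332) (nat_lit 18) (.e (nat_lit 164327) (nat_lit 230) (.e (nat_lit 163903) (nat_lit 12) (.e (nat_lit 426479) (nat_lit 27) .nil)))) (.g (nat_lit 0) (.e (nat_lit 272731) (nat_lit 0) .nil) .nil))))))) (.nd (nat_lit 6) (.nd (nat_lit 7) (.nd (nat_lit 8) (.nd (nat_lit 9) 
(.lf (nat_lit 540730) (.g (nat_lit 3637) (.e (nat_lit 90170) (nat_lit 13) (.e (nat_lit 172113) (nat_lit 10) (.e (nat_lit 434242) (nat_lit 28) (.e (nat_lit 573471) (nat_lit 11) (.e (nat_lit 16473) (nat_lit 14) (.e (nat_lit 491536) (nat_lit 2) .nil)))))) (.g (nat_lit 1) (.e (nat_lit 271087) (nat_lit 0) .nil) .nil))) 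
(.lf (nat_lit 541242) (.g (nat_lit 3726) (.e (nat_lit 90174) (nat_lit 14) (.e (nat_lit 180251) (nat_lit 10) (.e (nat_lit 573489) (nat_lit 14) (.e (nat_lit 73755) (nat_lit 8) (.e (nat_lit 557090) (nat_lit 12) (.e (nat_lit 163840) (nat_lit 0) (.e (nat_lit 5943) (nat_lit 322) (.e (nat_lit 57375) (nat_lit 2) .nil)))))))) (.g (nat_lit 1) (.e (nat_lit 271747) (nat_lit 0) .nil) .nil)))) (.nd (nat_lit 9) 
(.lf (nat_lit 540986) (.g (nat_lit 2924) (.e (nat_lit 90172) (nat_lit 14) (.e (nat_lit 180250) (nat_lit 10) (.e (nat_lit 573488) (nat_lit 14) (.e (nat_lit 73755) (nat_lit 8) (.e (nat_lit 557089) (nat_lit 12) .nil))))) (.g (nat_lit 0) (.e (nat_lit 271416) (nat_lit 0) .nil) .nil))) 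
(.lf (nat_lit 541498) (.g (nat_lit 1738) (.e (nat_lit 98307) (nat_lit 0) (.e (nat_lit 2059) (nat_lit 142) (.e (nat_lit 704589) (nat_lit 3) (.e (nat_lit 163962) (nat_lit 25) .nil)))) (.g (nat_lit 0) (.e (nat_lit 272229) (nat_lit 0) .nil) .nil))))) (.nd (nat_lit 8) (.nd (nat_lit 9) 
(.lf (nat_lit 540858) (.g (nat_lit 4240) (.e (nat_lit 90170) (nat_lit 13) (.e (nat_lit 172115) (nat_lit 10) (.e (nat_lit 434231) (nat_lit 23) (.e (nat_lit 532523) (nat_lit 7) (.e (nat_lit 319535) (nat_lit 17) (.e (nat_lit 294928) (nat_lit 2) .nil)))))) (.g (nat_lit 1) (.e (nat_lit 271222) (nat_lit 0) .nil) .nil))) 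
(.lf (nat_lit 541370) (.g (nat_lit 1475) (.e (nat_lit 90177) (nat_lit 15) (.e (nat_lit 188452) (nat_lit 23) (.e (nat_lit 204846) (nat_lit 24) (.e (nat_lit 319505) (nat_lit 10) .nil)))) (.g (nat_lit 0) (.e (nat_lit 271910) (nat_lit 0) .nil) .nil)))) (.nd (nat_lit 9) 
(.lf (nat_lit 541114) (.g (nat_lit 3779) (.e (nat_lit 90174) (nat_lit 14) (.e (nat_lit 180243) (nat_lit 5) (.e (nat_lit 532503) (nat_lit 1) (.e (nat_lit 57688) (nat_lit 156) (.e (nat_lit 163874) (nat_lit 3) (.e (nat_lit 204836) (nat_lit 20) (.e (nat_lit 114716) (nat_lit 22) .nil))))))) (.g (nat_lit 1) (.e (nat_lit 271607) (nat_lit 0) .nil) .nil))) 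
(.lf (nat_lit 541626) (.g (nat_lit 1806) (.e (nat_lit 98323) (nat_lit 17) (.e (nat_lit 6989) (nat_lit 377) (.e (nat_lit 2810) (nat_lit 180) (.e (nat_lit 303119) (nat_lit 3) (.e (nat_lit 204859) (nat_lit 26) .nil))))) (.g (nat_lit 0) (.e (nat_lit 272640) (nat_lit 0) .nil) .nil)))))) (.nd (nat_lit 7) (.nd (nat_lit 8) (.nd (nat_lit 9) 
(.lf (nat_lit 540794) (.g (nat_lit 3313) (.e (nat_lit 90170) (nat_lit 13) (.e (nat_lit 172113) (nat_lit 10) (.e (nat_lit 434245) (nat_lit 28) (.e (nat_lit 573474) (nat_lit 12) (.e (nat_lit 57353) (nat_lit 0) (.e (nat_lit 7261) (nat_lit 384) (.e (nat_lit 57412) (nat_lit 12) (.e (nat_lit 336001) (nat_lit 2) .nil)))))))) (.g (nat_lit 1) (.e (nat_lit 271151) (nat_lit 0) .nil) .nil))) 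
(.lf (nat_lit 541306) (.g (nat_lit 2799) (.e (nat_lit 90176) (nat_lit 15) (.e (nat_lit 188423) (nat_lit 11) (.e (nat_lit 335986) (nat_lit 1) (.e (nat_lit 57692) (nat_lit 156) (.e (nat_lit 163905) (nat_lit 12) (.e (nat_lit 426428) (nat_lit 17) .nil)))))) (.g (nat_lit 1) (.e (nat_lit 271832) (nat_lit 0) .nil) .nil)))) (.nd (nat_lit 9) 
(.lf (nat_lit 541050) (.g (nat_lit 2400) (.e (nat_lit 90173) (nat_lit 14) (.e (nat_lit 180252) (nat_lit 10) (.e (nat_lit 573488) (nat_lit 14) (.e (nat_lit 73755) (nat_lit 8) (.e (nat_lit 557119) (nat_lit 18) .nil))))) (.g (nat_lit 0) (.e (nat_lit 271498) (nat_lit 0) .nil) .nil))) 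
(.lf (nat_lit 541562) (.g (nat_lit 1706) (.e (nat_lit 98316) (nat_lit 9) (.e (nat_lit 336086) (nat_lit 9) (.e (nat_lit 336456) (nat_lit 34) (.e (nat_lit 483365) (nat_lit 18) .nil)))) (.g (nat_lit 0) (.e (nat_lit 272457) (nat_lit 0) .nil) .nil))))) (.nd (nat_lit 8) (.nd (nat_lit 9) 
(.lf (nat_lit 540922) (.g (nat_lit 1568) (.e (nat_lit 90172) (nat_lit 14) (.e (nat_lit 180243) (nat_lit 5) (.e (nat_lit 532503) (nat_lit 1) (.e (nat_lit 57651) (nat_lit 152) .nil)))) (.g (nat_lit 0) (.e (nat_lit 271306) (nat_lit 0) .nil) .nil))) 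
(.lf (nat_lit 541434) (.g (nat_lit 1828) (.e (nat_lit 90185) (nat_lit 17) (.e (nat_lit 237616) (nat_lit 12) (.e (nat_lit 475177) (nat_lit 24) (.e (nat_lit 516124) (nat_lit 2) (.e (nat_lit 213032) (nat_lit 11) (.e (nat_lit 24603) (nat_lit 2) .nil)))))) (.g (nat_lit 1) (.e (nat_lit 272037) (nat_lit 0) .nil) .nil)))) (.nd (nat_lit 9) 
(.lf (nat_lit 541178) (.g (nat_lit 3236) (.e (nat_lit 90174) (nat_lit 14) (.e (nat_lit 180250) (nat_lit 10) (.e (nat_lit 573489) (nat_lit 14) (.e (nat_lit 73755) (nat_lit 8) (.e (nat_lit 557090) (nat_lit 12) (.e (nat_lit 163840) (nat_lit 0) (.e (nat_lit 5952) (nat_lit 322) (.e (nat_lit 57371) (nat_lit 2) .nil)))))))) (.g (nat_lit 1) (.e (nat_lit 271683) (nat_lit 0) .nil) .nil))) 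
(.lf (nat_lit 541690) (.g (nat_lit 3077) (.e (nat_lit 98333) (nat_lit 18) (.e (nat_lit 164182) (nat_lit 154) (.e (nat_lit 57378) (nat_lit 3) (.e (nat_lit 98342) (nat_lit 20) (.e (nat_lit 221210) (nat_lit 22) (.e (nat_lit 196666) (nat_lit 13) (.e (nat_lit 65569) (nat_lit 3) .nil))))))) (.g (nat_lit 1) (.e (nat_lit 272798) (nat_lit 0) .nil) .nil)))))))))) 
(.nd (nat_lit 3) (.nd (nat_lit 4) (.nd (nat_lit 5) (.nd (nat_lit 6) (.nd (nat_lit 7) 
(.nd (nat_lit 8) (.nd (nat_lit 9) 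
(.lf (nat_lit 540678) (.g (nat_lit 3096) (.e (nat_lit 90170) (nat_lit 13) (.e (nat_lit 172106) (nat_lit 10) (.e (nat_lit 434244) (nat_lit 28) (.e (nat_lit 573458) (nat_lit 9) (.e (nat_lit 426) (nat_lit 32) (.e (nat_lit 426009) (nat_lit 0) (.e (nat_lit 7490) (nat_lit 402) (.e (nat_lit 1239) (nat_lit 91) .nil)))))))) (.g (nat_lit 1) (.e (nat_lit 271035) (nat_lit 0) .nil) .nil))) 
(.lf (nat_lit 541190) (.g (nat_lit 2989) (.e (nat_lit 90174) (nat_lit 14) (.e (nat_lit 180250) (nat_lit 10) (.e (nat_lit 573489) (nat_lit 14) (.e (nat_lit 73755) (nat_lit 8) (.e (nat_lit 557090) (nat_lit 12) (.e (nat_lit 163852) (nat_lit 0) (.e (nat_lit 5946) (nat_lit 322) (.e (nat_lit 57371) (nat_lit 2) .nil)))))))) (.g (nat_lit 1) (.e (nat_lit 271695) (nat_lit 0) .nil) .nil)))) (.nd (nat_lit 9) 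
(.lf (nat_lit 540934) (.g (nat_lit 1605) (.e (nat_lit 90172) (nat_lit 14) (.e (nat_lit 180244) (nat_lit 5) (.e (nat_lit 532499) (nat_lit 1) (.e (nat_lit 57652) (nat_lit 152) .nil)))) (.g (nat_lit 0) (.e (nat_lit 271329) (nat_lit 0) .nil) .nil))) 
(.lf (nat_lit 541446) (.g (nat_lit 2067) (.e (nat_lit 90185) (nat_lit 17) (.e (nat_lit 237619) (nat_lit 12) (.e (nat_lit 475177) (nat_lit 24) (.e (nat_lit 516097) (nat_lit 0) (.e (nat_lit 3649) (nat_lit 227) (.e (nat_lit 778462) (nat_lit 11) (.e (nat_lit 24604) (nat_lit 2) .nil))))))) (.g (nat_lit 1) (.e (nat_lit 272049) (nat_lit 0) .nil) .nil))))) (.nd (nat_lit 8) (.nd (nat_lit 9) 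
(.lf (nat_lit 540806) (.g (nat_lit 3688) (.e (nat_lit 90170) (nat_lit 13) (.e (nat_lit 172113) (nat_lit 10) (.e (nat_lit 434247) (nat_lit 28) (.e (nat_lit 573469) (nat_lit 11) (.e (nat_lit 16472) (nat_lit 14) (.e (nat_lit 491536) (nat_lit 2) .nil)))))) (.g (nat_lit 1) (.e (nat_lit 271165) (nat_lit 0) .nil) .nil))) 
(.lf (nat_lit 541318) (.g (nat_lit 1823) (.e (nat_lit 90176) (nat_lit 15) (.e (nat_lit 188437) (nat_lit 20) (.e (nat_lit 3238) (nat_lit 197) (.e (nat_lit 532523) (nat_lit 7) (.e (nat_lit 319533) (nat_lit 16) (.e (nat_lit 294656) (nat_lit 2) .nil)))))) (.g (nat_lit 1) (.e (nat_lit 271844) (nat_lit 0) .nil) .nil)))) (.nd (nat_lit 9) 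
(.lf (nat_lit 541062) (.g (nat_lit 3399) (.e (nat_lit 90173) (nat_lit 14) (.e (nat_lit 180252) (nat_lit 10) (.e (nat_lit 573489) (nat_lit 14) (.e (nat_lit 73755) (nat_lit 8) (.e (nat_lit 557090) (nat_lit 12) (.e (nat_lit 163845) (nat_lit 0) (.e (nat_lit 5954) (nat_lit 322) (.e (nat_lit 57373) (nat_lit 2) .nil)))))))) (.g (nat_lit 1) (.e (nat_lit 271510) (nat_lit 0) .nil) .nil))) 
(.lf (nat_lit 541574) (.g (nat_lit 2767) (.e (nat_lit 98317) (nat_lit 9) (.e (nat_lit 335988) (nat_lit 1) (.e (nat_lit 57926) (nat_lit 282) (.e (nat_lit 163905) (nat_lit 12) (.e (nat_lit 426542) (nat_lit 29) (.e (nat_lit 352313) (nat_lit 23) .nil)))))) (.g (nat_lit 1) (.e (nat_lit 272474) (nat_lit 0) .nil) .nil)))))) (.nd (nat_lit 7) (.nd (nat_lit 8) (.nd (nat_lit 9) 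
(.lf (nat_lit 540742) (.g (nat_lit 1430) (.e (nat_lit 90170) (nat_lit 13) (.e (nat_lit 172113) (nat_lit 10) (.e (nat_lit 434242) (nat_lit 28) (.e (nat_lit 573477) (nat_lit 12) (.e (nat_lit 57574) (nat_lit 55) .nil))))) (.g (nat_lit 0) (.e (nat_lit 271099) (nat_lit 0) .nil) .nil))) 
(.lf (nat_lit 541254) (.g (nat_lit 3179) (.e (nat_lit 90174) (nat_lit 14) (.e (nat_lit 180251) (nat_lit 10) (.e (nat_lit 573489) (nat_lit 14) (.e (nat_lit 73755) (nat_lit 8) (.e (nat_lit 557090) (nat_lit 12) (.e (nat_lit 163844) (nat_lit 0) (.e (nat_lit 5942) (nat_lit 322) (.e (nat_lit 57374) (nat_lit 2) .nil)))))))) (.g (nat_lit 1) (.e (nat_lit 271759) (nat_lit 0) .nil) .nil)))) (.nd (nat_lit 9) 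
(.lf (nat_lit 540998) (.g (nat_lit 2088) (.e (nat_lit 90172) (nat_lit 14) (.e (nat_lit 180250) (nat_lit 10) (.e (nat_lit 573489) (nat_lit 14) (.e (nat_lit 73755) (nat_lit 8) (.e (nat_lit 557089) (nat_lit 12) .nil))))) (.g (nat_lit 0) (.e (nat_lit 271428) (nat_lit 0) .nil) .nil))) 
(.lf (nat_lit 541510) (.g (nat_lit 572) (.e (nat_lit 98312) (nat_lit 9) (.e (nat_lit 335988) (nat_lit 1) (.e (nat_lit 57927) (nat_lit 282) .nil))) (.g (nat_lit 0) (.e (nat_lit 272299) (nat_lit 0) .nil) .nil))))) (.nd (nat_lit 8) (.nd (nat_lit 9) 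
(.lf (nat_lit 540870) (.g (nat_lit 2659) (.e (nat_lit 90170) (nat_lit 13) (.e (nat_lit 172120) (nat_lit 12) (.e (nat_lit 475179) (nat_lit 24) (.e (nat_lit 516129) (nat_lit 3) (.e (nat_lit 221193) (nat_lit 11) (.e (nat_lit 336009) (nat_lit 2) .nil)))))) (.g (nat_lit 1) (.e (nat_lit 271234) (nat_lit 0) .nil) .nil))) 
(.lf (nat_lit 541382) (.g (nat_lit 2323) (.e (nat_lit 90178) (nat_lit 15) (.e (nat_lit 188440) (nat_lit 20) (.e (nat_lit 3307) (nat_lit 202) (.e (nat_lit 573456) (nat_lit 9) (.e (nat_lit 1312) (nat_lit 98) (.e (nat_lit 147496) (nat_lit 11) (.e (nat_lit 24603) (nat_lit 2) .nil))))))) (.g (nat_lit 1) (.e (nat_lit 271927) (nat_lit 0) .nil) .nil)))) (.nd (nat_lit 9) 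
(.lf (nat_lit 541126) (.g (nat_lit 536) (.e (nat_lit 90174) (nat_lit 14) (.e (nat_lit 180243) (nat_lit 5) (.e (nat_lit 532512) (nat_lit 3) .nil))) (.g (nat_lit 0) (.e (nat_lit 271630) (nat_lit 0) .nil) .nil))) 
(.lf (nat_lit 541638) (.g (nat_lit 1753) (.e (nat_lit 98325) (nat_lit 17) (.e (nat_lit 3665) (nat_lit 227) (.e (nat_lit 778462) (nat_lit 11) (.e (nat_lit 24604) (nat_lit 2) (.e (nat_lit 90178) (nat_lit 15) (.e (nat_lit 196352) (nat_lit 3) .nil)))))) (.g (nat_lit 1) (.e (nat_lit 272668) (nat_lit 0) .nil) .nil))))))) (.nd (nat_lit 6) (.nd (nat_lit 7) (.nd (nat_lit 8) (.nd (nat_lit 9) 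
(.lf (nat_lit 540710) (.g (nat_lit 5294) (.e (nat_lit 90170) (nat_lit 13) (.e (nat_lit 172106) (nat_lit 10) (.e (nat_lit 434244) (nat_lit 28) (.e (nat_lit 573476) (nat_lit 12) (.e (nat_lit 57575) (nat_lit 55) (.e (nat_lit 778466) (nat_lit 11) (.e (nat_lit 24604) (nat_lit 2) .nil))))))) (.g (nat_lit 1) (.e (nat_lit 271067) (nat_lit 0) .nil) .nil))) 
(.lf (nat_lit 541222) (.g (nat_lit 4686) (.e (nat_lit 90174) (nat_lit 14) (.e (nat_lit 180251) (nat_lit 10) (.e (nat_lit 573489) (nat_lit 14) (.e (nat_lit 73755) (nat_lit 8) (.e (nat_lit 557067) (nat_lit 9) (.e (nat_lit 2603) (nat_lit 163) (.e (nat_lit 164398) (nat_lit 256) (.e (nat_lit 57373) (nat_lit 2) .nil)))))))) (.g (nat_lit 1) (.e (nat_lit 271727) (nat_lit 0) .nil) .nil)))) 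
(.nd (nat_lit 9) 
(.lf (nat_lit 540966) (.g (nat_lit 2030) (.e (nat_lit 90172) (nat_lit 14) (.e (nat_lit 180250) (nat_lit 10) (.e (nat_lit 573474) (nat_lit 12) (.e (nat_lit 57507) (nat_lit 39) .nil)))) (.g (nat_lit 0) (.e (nat_lit 271393) (nat_lit 0) .nil) .nil))) 
(.lf (nat_lit 541478) (.g (nat_lit 2874) (.e (nat_lit 90185) (nat_lit 17) (.e (nat_lit 237619) (nat_lit 12) (.e (nat_lit 475179) (nat_lit 24) (.e (nat_lit 516127) (nat_lit 2) (.e (nat_lit 213032) (nat_lit 11) (.e (nat_lit 24604) (nat_lit 2) .nil)))))) (.g (nat_lit 1) (.e (nat_lit 272081) (nat_lit 0) .nil) .nil))))) (.nd (nat_lit 8) (.nd (nat_lit 9) 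
(.lf (nat_lit 540838) (.g (nat_lit 2683) (.e (nat_lit 90170) (nat_lit 13) (.e (nat_lit 172113) (nat_lit 10) (.e (nat_lit 434248) (nat_lit 28) (.e (nat_lit 573473) (nat_lit 12) (.e (nat_lit 57347) (nat_lit 0) (.e (nat_lit 7263) (nat_lit 384) (.e (nat_lit 57412) (nat_lit 12) (.e (nat_lit 336001) (nat_lit 2) .nil)))))))) (.g (nat_lit 1) (.e (nat_lit 271200) (nat_lit 0) .nil) .nil))) 
(.lf (nat_lit 541350) (.g (nat_lit 2798) (.e (nat_lit 90176) (nat_lit 15) (.e (nat_lit 188450) (nat_lit 23) (.e (nat_lit 204846) (nat_lit 24) (.e (nat_lit 319534) (nat_lit 16) (.e (nat_lit 294656) (nat_lit 2) .nil))))) (.g (nat_lit 1) (.e (nat_lit 271881) (nat_lit 0) .nil) .nil)))) (.nd (nat_lit 9) 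
(.lf (nat_lit 541094) (.g (nat_lit 3298) (.e (nat_lit 90174) (nat_lit 14) (.e (nat_lit 180243) (nat_lit 5) (.e (nat_lit 532499) (nat_lit 1) (.e (nat_lit 57688) (nat_lit 156) (.e (nat_lit 163875) (nat_lit 3) (.e (nat_lit 204838) (nat_lit 20) (.e (nat_lit 114715) (nat_lit 22) .nil))))))) (.g (nat_lit 1) (.e (nat_lit 271556) (nat_lit 0) .nil) .nil))) 
(.lf (nat_lit 541606) (.g (nat_lit 1417) (.e (nat_lit 98318) (nat_lit 17) (.e (nat_lit 6989) (nat_lit 377) (.e (nat_lit 1374) (nat_lit 104) (.e (nat_lit 303119) (nat_lit 3) .nil)))) (.g (nat_lit 0) (.e (nat_lit 272572) (nat_lit 0) .nil) .nil)))))) (.nd (nat_lit 7) (.nd (nat_lit 8) (.nd (nat_lit 9) 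
(.lf (nat_lit 540774) (.g (nat_lit 2627) (.e (nat_lit 90170) (nat_lit 13) (.e (nat_lit 172113) (nat_lit 10) (.e (nat_lit 434245) (nat_lit 28) (.e (nat_lit 573473) (nat_lit 12) (.e (nat_lit 57347) (nat_lit 0) (.e (nat_lit 7263) (nat_lit 384) (.e (nat_lit 57412) (nat_lit 12) (.e (nat_lit 336001) (nat_lit 2) .nil)))))))) (.g (nat_lit 1) (.e (nat_lit 271131) (nat_lit 0) .nil) .nil))) 
(.lf (nat_lit 541286) (.g (nat_lit 2758) (.e (nat_lit 90174) (nat_lit 14) (.e (nat_lit 180252) (nat_lit 10) (.e (nat_lit 573489) (nat_lit 14) (.e (nat_lit 73755) (nat_lit 8) (.e (nat_lit 557119) (nat_lit 18) (.e (nat_lit 2798) (nat_lit 180) (.e (nat_lit 311040) (nat_lit 17) .nil))))))) (.g (nat_lit 1) (.e (nat_lit 271792) (nat_lit 0) .nil) .nil)))) (.nd (nat_lit 9) 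
(.lf (nat_lit 541030) (.g (nat_lit 3316) (.e (nat_lit 90172) (nat_lit 14) (.e (nat_lit 180251) (nat_lit 10) (.e (nat_lit 573489) (nat_lit 14) (.e (nat_lit 73755) (nat_lit 8) (.e (nat_lit 557090) (nat_lit 12) (.e (nat_lit 163844) (nat_lit 0) (.e (nat_lit 5942) (nat_lit 322) (.e (nat_lit 57375) (nat_lit 2) .nil)))))))) (.g (nat_lit 1) (.e (nat_lit 271460) (nat_lit 0) .nil) .nil))) 
(.lf (nat_lit 541542) (.g (nat_lit 3451) (.e (nat_lit 98313) (nat_lit 9) (.e (nat_lit 335996) (nat_lit 1) (.e (nat_lit 57931) (nat_lit 282) (.e (nat_lit 163943) (nat_lit 19) (.e (nat_lit 483393) (nat_lit 23) (.e (nat_lit 336021) (nat_lit 3) .nil)))))) (.g (nat_lit 1) (.e (nat_lit 272392) (nat_lit 0) .nil) .nil))))) (.nd (nat_lit 8) (.nd (nat_lit 9) 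
(.lf (nat_lit 540902) (.g (nat_lit 3328) (.e (nat_lit 90171) (nat_lit 14) (.e (nat_lit 180250) (nat_lit 10) (.e (nat_lit 573489) (nat_lit 14) (.e (nat_lit 73755) (nat_lit 8) (.e (nat_lit 557090) (nat_lit 12) (.e (nat_lit 163843) (nat_lit 0) (.e (nat_lit 5940) (nat_lit 322) (.e (nat_lit 57374) (nat_lit 2) .nil)))))))) (.g (nat_lit 1) (.e (nat_lit 271266) (nat_lit 0) .nil) .nil))) 
(.lf (nat_lit 541414) (.g (nat_lit 2726) (.e (nat_lit 90185) (nat_lit 17) (.e (nat_lit 237605) (nat_lit 9) (.e (nat_lit 426436) (nat_lit 18) (.e (nat_lit 98338) (nat_lit 19) (.e (nat_lit 213030) (nat_lit 11) (.e (nat_lit 24604) (nat_lit 2) .nil)))))) (.g (nat_lit 1) (.e (nat_lit 272017) (nat_lit 0) .nil) .nil)))) (.nd (nat_lit 9) 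
(.lf (nat_lit 541158) (.g (nat_lit 2170) (.e (nat_lit 90174) (nat_lit 14) (.e (nat_lit 180250) (nat_lit 10) (.e (nat_lit 573489) (nat_lit 14) (.e (nat_lit 73754) (nat_lit 8) (.e (nat_lit 557094) (nat_lit 12) .nil))))) (.g (nat_lit 0) (.e (nat_lit 271663) (nat_lit 0) .nil) .nil))) 
(.lf (nat_lit 541670) (.g (nat_lit 2455) (.e (nat_lit 98332) (nat_lit 18) (.e (nat_lit 164403) (nat_lit 256) (.e (nat_lit 57373) (nat_lit 2) (.e (nat_lit 90167) (nat_lit 13) (.e (nat_lit 172067) (nat_lit 3) .nil))))) (.g (nat_lit 0) (.e (nat_lit 272753) (nat_lit 0) .nil) .nil)))))))) (.nd (nat_lit 5) (.nd (nat_lit 6) (.nd (nat_lit 7) (.nd (nat_lit 8) (.nd (nat_lit 9) 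
(.lf (nat_lit 540694) (.g (nat_lit 2797) (.e (nat_lit 90170) (nat_lit 13) (.e (nat_lit 172106) (nat_lit 10) (.e (nat_lit 434244) (nat_lit 28) (.e (nat_lit 573473) (nat_lit 12) (.e (nat_lit 57354) (nat_lit 0) (.e (nat_lit 7270) (nat_lit 385) (.e (nat_lit 122905) (nat_lit 12) (.e (nat_lit 336001) (nat_lit 2) .nil)))))))) (.g (nat_lit 1) (.e (nat_lit 271051) (nat_lit 0) .nil) .nil))) 
(.lf (nat_lit 541206) (.g (nat_lit 3577) (.e (nat_lit 90174) (nat_lit 14) (.e (nat_lit 180250) (nat_lit 10) (.e (nat_lit 573489) (nat_lit 14) (.e (nat_lit 73755) (nat_lit 8) (.e (nat_lit 557111) (nat_lit 16) (.e (nat_lit 229379) (nat_lit 0) (.e (nat_lit 5939) (nat_lit 322) (.e (nat_lit 57372) (nat_lit 2) .nil)))))))) (.g (nat_lit 1) (.e (nat_lit 271711) (nat_lit 0) .nil) .nil)))) (.nd (nat_lit 9) 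
(.lf (nat_lit 540950) (.g (nat_lit 1510) (.e (nat_lit 90172) (nat_lit 14) (.e (nat_lit 180244) (nat_lit 5) (.e (nat_lit 532503) (nat_lit 1) (.e (nat_lit 57654) (nat_lit 152) .nil)))) (.g (nat_lit 0) (.e (nat_lit 271365) (nat_lit 0) .nil) .nil))) 
(.lf (nat_lit 541462) (.g (nat_lit 2651) (.e (nat_lit 90185) (nat_lit 17) (.e (nat_lit 237619) (nat_lit 12) (.e (nat_lit 475177) (nat_lit 24) (.e (nat_lit 516126) (nat_lit 2) (.e (nat_lit 213030) (nat_lit 11) (.e (nat_lit 24604) (nat_lit 2) .nil)))))) (.g (nat_lit 1) (.e (nat_lit 272065) (nat_lit 0) .nil) .nil))))) (.nd (nat_lit 8) (.nd (nat_lit 9) 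
(.lf (nat_lit 540822) (.g (nat_lit 2001) (.e (nat_lit 90170) (nat_lit 13) (.e (nat_lit 172113) (nat_lit 10) (.e (nat_lit 434248) (nat_lit 28) (.e (nat_lit 573449) (nat_lit 9) (.e (nat_lit 442) (nat_lit 33) .nil))))) (.g (nat_lit 0) (.e (nat_lit 271184) (nat_lit 0) .nil) .nil))) 
(.lf (nat_lit 541334) (.g (nat_lit 1536) (.e (nat_lit 90176) (nat_lit 15) (.e (nat_lit 188440) (nat_lit 20) (.e (nat_lit 3307) (nat_lit 202) (.e (nat_lit 573478) (nat_lit 12) .nil)))) (.g (nat_lit 0) (.e (nat_lit 271862) (nat_lit 0) .nil) .nil)))) (.nd (nat_lit 9) 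
(.lf (nat_lit 541078) (.g (nat_lit 1890) (.e (nat_lit 90174) (nat_lit 14) (.e (nat_lit 180243) (nat_lit 5) (.e (nat_lit 532499) (nat_lit 1) (.e (nat_lit 57664) (nat_lit 152) .nil)))) (.g (nat_lit 0) (.e (nat_lit 271528) (nat_lit 0) .nil) .nil))) 
(.lf (nat_lit 541590) (.g (nat_lit 741) (.e (nat_lit 98317) (nat_lit 9) (.e (nat_lit 335995) (nat_lit 1) (.e (nat_lit 57929) (nat_lit 282) .nil))) (.g (nat_lit 0) (.e (nat_lit 272507) (nat_lit 0) .nil) .nil)))))) (.nd (nat_lit 7) (.nd (nat_lit 8) (.nd (nat_lit 9) 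
(.lf (nat_lit 540758) (.g (nat_lit 2279) (.e (nat_lit 90170) (nat_lit 13) (.e (nat_lit 172113) (nat_lit 10) (.e (nat_lit 434245) (nat_lit 28) (.e (nat_lit 573458) (nat_lit 9) (.e (nat_lit 7936) (nat_lit 32) (.e (nat_lit 425990) (nat_lit 0) (.e (nat_lit 7489) (nat_lit 402) (.e (nat_lit 1239) (nat_lit 91) .nil)))))))) (.g (nat_lit 1) (.e (nat_lit 271115) (nat_lit 0) .nil) .nil))) 
(.lf (nat_lit 541270) (.g (nat_lit 3627) (.e (nat_lit 90174) (nat_lit 14) (.e (nat_lit 180251) (nat_lit 10) (.e (nat_lit 573489) (nat_lit 14) (.e (nat_lit 73755) (nat_lit 8) (.e (nat_lit 557090) (nat_lit 12) (.e (nat_lit 163856) (nat_lit 0) (.e (nat_lit 5948) (nat_lit 322) (.e (nat_lit 57373) (nat_lit 2) .nil)))))))) (.g (nat_lit 1) (.e (nat_lit 271775) (nat_lit 0) .nil) .nil)))) (.nd (nat_lit 9) 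
(.lf (nat_lit 541014) (.g (nat_lit 3521) (.e (nat_lit 90172) (nat_lit 14) (.e (nat_lit 180250) (nat_lit 10) (.e (nat_lit 573489) (nat_lit 14) (.e (nat_lit 73755) (nat_lit 8) (.e (nat_lit 557090) (nat_lit 12) (.e (nat_lit 163845) (nat_lit 0) (.e (nat_lit 5940) (nat_lit 322) (.e (nat_lit 57375) (nat_lit 2) .nil)))))))) (.g (nat_lit 1) (.e (nat_lit 271444) (nat_lit 0) .nil) .nil))) 
(.lf (nat_lit 541526) (.g (nat_lit 3275) (.e (nat_lit 98313) (nat_lit 9) (.e (nat_lit 335988) (nat_lit 1) (.e (nat_lit 57926) (nat_lit 282) (.e (nat_lit 163903) (nat_lit 12) (.e (nat_lit 426555) (nat_lit 32) (.e (nat_lit 376869) (nat_lit 23) .nil)))))) (.g (nat_lit 1) (.e (nat_lit 272337) (nat_lit 0) .nil) .nil))))) (.nd (nat_lit 8) (.nd (nat_lit 9) 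
(.lf (nat_lit 540886) (.g (nat_lit 2236) (.e (nat_lit 90170) (nat_lit 13) (.e (nat_lit 172123) (nat_lit 13) (.e (nat_lit 483337) (nat_lit 9) (.e (nat_lit 426107) (nat_lit 1) (.e (nat_lit 164401) (nat_lit 256) (.e (nat_lit 57370) (nat_lit 2) .nil)))))) (.g (nat_lit 1) (.e (nat_lit 271250) (nat_lit 0) .nil) .nil))) 
(.lf (nat_lit 541398) (.g (nat_lit 4016) (.e (nat_lit 90185) (nat_lit 17) (.e (nat_lit 237582) (nat_lit 1) (.e (nat_lit 164332) (nat_lit 230) (.e (nat_lit 163885) (nat_lit 5) (.e (nat_lit 221207) (nat_lit 21) (.e (nat_lit 164325) (nat_lit 230) (.e (nat_lit 171776) (nat_lit 66) (.e (nat_lit 114716) (nat_lit 22) .nil)))))))) (.g (nat_lit 1) (.e (nat_lit 271982) (nat_lit 0) .nil) .nil)))) 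
(.nd (nat_lit 9) 
(.lf (nat_lit 541142) (.g (nat_lit 1615) (.e (nat_lit 90174) (nat_lit 14) (.e (nat_lit 180243) (nat_lit 5) (.e (nat_lit 532515) (nat_lit 3) (.e (nat_lit 114719) (nat_lit 23) (.e (nat_lit 98332) (nat_lit 18) .nil))))) (.g (nat_lit 0) (.e (nat_lit 271646) (nat_lit 0) .nil) .nil))) 
(.lf (nat_lit 541654) (.g (nat_lit 3936) (.e (nat_lit 98332) (nat_lit 18) (.e (nat_lit 164327) (nat_lit 230) (.e (nat_lit 163868) (nat_lit 2) (.e (nat_lit 196656) (nat_lit 11) (.e (nat_lit 16416) (nat_lit 3) (.e (nat_lit 204837) (nat_lit 20) (.e (nat_lit 114718) (nat_lit 23) .nil))))))) (.g (nat_lit 1) (.e (nat_lit 272712) (nat_lit 0) .nil) .nil))))))) 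
(.nd (nat_lit 6) (.nd (nat_lit 7) (.nd (nat_lit 8) (.nd (nat_lit 9) 
(.lf (nat_lit 540726) (.g (nat_lit 1270) (.e (nat_lit 90170) (nat_lit 13) (.e (nat_lit 172113) (nat_lit 10) (.e (nat_lit 434238) (nat_lit 25) (.e (nat_lit 548912) (nat_lit 18) .nil)))) (.g (nat_lit 0) (.e (nat_lit 271083) (nat_lit 0) .nil) .nil))) 
(.lf (nat_lit 541238) (.g (nat_lit 3745) (.e (nat_lit 90174) (nat_lit 14) (.e (nat_lit 180251) (nat_lit 10) (.e (nat_lit 573489) (nat_lit 14) (.e (nat_lit 73755) (nat_lit 8) (.e (nat_lit 557090) (nat_lit 12) (.e (nat_lit 163840) (nat_lit 0) (.e (nat_lit 5938) (nat_lit 322) (.e (nat_lit 57372) (nat_lit 2) .nil)))))))) (.g (nat_lit 1) (.e (nat_lit 271743) (nat_lit 0) .nil) .nil)))) (.nd (nat_lit 9) 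
(.lf (nat_lit 540982) (.g (nat_lit 3152) (.e (nat_lit 90172) (nat_lit 14) (.e (nat_lit 180250) (nat_lit 10) (.e (nat_lit 573487) (nat_lit 14) (.e (nat_lit 73753) (nat_lit 8) (.e (nat_lit 557094) (nat_lit 12) (.e (nat_lit 163840) (nat_lit 0) (.e (nat_lit 5943) (nat_lit 322) (.e (nat_lit 57372) (nat_lit 2) .nil)))))))) (.g (nat_lit 1) (.e (nat_lit 271412) (nat_lit 0) .nil) .nil))) 
(.lf (nat_lit 541494) (.g (nat_lit 822) (.e (nat_lit 90196) (nat_lit 18) (.e (nat_lit 2797) (nat_lit 180) (.e (nat_lit 303133) (nat_lit 9) .nil))) (.g (nat_lit 0) (.e (nat_lit 272134) (nat_lit 0) .nil) .nil))))) (.nd (nat_lit 8) (.nd (nat_lit 9) 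
(.lf (nat_lit 540854) (.g (nat_lit 3917) (.e (nat_lit 90170) (nat_lit 13) (.e (nat_lit 172113) (nat_lit 10) (.e (nat_lit 434248) (nat_lit 28) (.e (nat_lit 573475) (nat_lit 12) (.e (nat_lit 57574) (nat_lit 55) (.e (nat_lit 778464) (nat_lit 11) (.e (nat_lit 24601) (nat_lit 2) .nil))))))) (.g (nat_lit 1) (.e (nat_lit 271216) (nat_lit 0) .nil) .nil))) 
(.lf (nat_lit 541366) (.g (nat_lit 1655) (.e (nat_lit 90177) (nat_lit 15) (.e (nat_lit 188435) (nat_lit 20) (.e (nat_lit 3238) (nat_lit 197) (.e (nat_lit 532523) (nat_lit 7) (.e (nat_lit 327424) (nat_lit 16) .nil))))) (.g (nat_lit 0) (.e (nat_lit 271903) (nat_lit 0) .nil) .nil)))) (.nd (nat_lit 9) 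
(.lf (nat_lit 541110) (.g (nat_lit 1917) (.e (nat_lit 90174) (nat_lit 14) (.e (nat_lit 180243) (nat_lit 5) (.e (nat_lit 532503) (nat_lit 1) (.e (nat_lit 57687) (nat_lit 156) (.e (nat_lit 163843) (nat_lit 0) .nil))))) (.g (nat_lit 0) (.e (nat_lit 271596) (nat_lit 0) .nil) .nil))) 
(.lf (nat_lit 541622) (.g (nat_lit 916) (.e (nat_lit 98323) (nat_lit 17) (.e (nat_lit 6989) (nat_lit 377) (.e (nat_lit 2404) (nat_lit 157) (.e (nat_lit 5761) (nat_lit 315) .nil)))) (.g (nat_lit 0) (.e (nat_lit 272635) (nat_lit 0) .nil) .nil)))))) (.nd (nat_lit 7) (.nd (nat_lit 8) (.nd (nat_lit 9) 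
(.lf (nat_lit 540790) (.g (nat_lit 2177) (.e (nat_lit 90170) (nat_lit 13) (.e (nat_lit 172113) (nat_lit 10) (.e (nat_lit 434245) (nat_lit 28) (.e (nat_lit 573474) (nat_lit 12) (.e (nat_lit 57351) (nat_lit 0) (.e (nat_lit 7265) (nat_lit 384) (.e (nat_lit 57406) (nat_lit 12) (.e (nat_lit 343808) (nat_lit 2) .nil)))))))) (.g (nat_lit 1) (.e (nat_lit 271147) (nat_lit 0) .nil) .nil))) 
(.lf (nat_lit 541302) (.g (nat_lit 3366) (.e (nat_lit 90176) (nat_lit 15) (.e (nat_lit 188423) (nat_lit 11) (.e (nat_lit 335986) (nat_lit 1) (.e (nat_lit 57688) (nat_lit 156) (.e (nat_lit 163905) (nat_lit 12) (.e (nat_lit 426428) (nat_lit 17) .nil)))))) (.g (nat_lit 1) (.e (nat_lit 271828) (nat_lit 0) .nil) .nil)))) (.nd (nat_lit 9) 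
(.lf (nat_lit 541046) (.g (nat_lit 2423) (.e (nat_lit 90173) (nat_lit 14) (.e (nat_lit 180252) (nat_lit 10) (.e (nat_lit 573475) (nat_lit 12) (.e (nat_lit 57504) (nat_lit 38) (.e (nat_lit 639002) (nat_lit 11) .nil))))) (.g (nat_lit 0) (.e (nat_lit 271493) (nat_lit 0) .nil) .nil))) 
(.lf (nat_lit 541558) (.g (nat_lit 2500) (.e (nat_lit 98316) (nat_lit 9) (.e (nat_lit 335988) (nat_lit 1) (.e (nat_lit 57931) (nat_lit 282) (.e (nat_lit 163905) (nat_lit 12) (.e (nat_lit 426555) (nat_lit 32) (.e (nat_lit 376869) (nat_lit 23) .nil)))))) (.g (nat_lit 1) (.e (nat_lit 272449) (nat_lit 0) .nil) .nil))))) (.nd (nat_lit 8) (.nd (nat_lit 9) 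
(.lf (nat_lit 540918) (.g (nat_lit 3081) (.e (nat_lit 90172) (nat_lit 14) (.e (nat_lit 180243) (nat_lit 5) (.e (nat_lit 532499) (nat_lit 1) (.e (nat_lit 57688) (nat_lit 156) (.e (nat_lit 163844) (nat_lit 0) .nil))))) (.g (nat_lit 0) (.e (nat_lit 271289) (nat_lit 0) .nil) .nil))) 
(.lf (nat_lit 541430) (.g (nat_lit 1938) (.e (nat_lit 90185) (nat_lit 17) (.e (nat_lit 237616) (nat_lit 12) (.e (nat_lit 475177) (nat_lit 24) (.e (nat_lit 516097) (nat_lit 0) (.e (nat_lit 3657) (nat_lit 227) (.e (nat_lit 778462) (nat_lit 11) (.e (nat_lit 24604) (nat_lit 2) .nil))))))) (.g (nat_lit 1) (.e (nat_lit 272033) (nat_lit 0) .nil) .nil)))) (.nd (nat_lit 9) 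
(.lf (nat_lit 541174) (.g (nat_lit 3150) (.e (nat_lit 90174) (nat_lit 14) (.e (nat_lit 180250) (nat_lit 10) (.e (nat_lit 573489) (nat_lit 14) (.e (nat_lit 73755) (nat_lit 8) (.e (nat_lit 557090) (nat_lit 12) (.e (nat_lit 163840) (nat_lit 0) (.e (nat_lit 5931) (nat_lit 322) (.e (nat_lit 57371) (nat_lit 2) .nil)))))))) (.g (nat_lit 1) (.e (nat_lit 271679) (nat_lit 0) .nil) .nil))) 
(.lf (nat_lit 541686) (.g (nat_lit 2165) (.e (nat_lit 98333) (nat_lit 18) (.e (nat_lit 164179) (nat_lit 154) (.e (nat_lit 57411) (nat_lit 12) (.e (nat_lit 336454) (nat_lit 34) (.e (nat_lit 483385) (nat_lit 23) .nil))))) (.g (nat_lit 0) (.e (nat_lit 272789) (nat_lit 0) .nil) .nil))))))))) (.nd (nat_lit 4) (.nd (nat_lit 5) (.nd (nat_lit 6) (.nd (nat_lit 7) (.nd (nat_lit 8) (.nd (nat_lit 9) 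
(.lf (nat_lit 540686) (.g (nat_lit 2456) (.e (nat_lit 90170) (nat_lit 13) (.e (nat_lit 172106) (nat_lit 10) (.e (nat_lit 434244) (nat_lit 28) (.e (nat_lit 573458) (nat_lit 9) (.e (nat_lit 7936) (nat_lit 33) (.e (nat_lit 442112) (nat_lit 0) (.e (nat_lit 1237) (nat_lit 91) .nil))))))) (.g (nat_lit 1) (.e (nat_lit 271043) (nat_lit 0) .nil) .nil))) 
(.lf (nat_lit 541198) (.g (nat_lit 3116) (.e (nat_lit 90174) (nat_lit 14) (.e (nat_lit 180250) (nat_lit 10) (.e (nat_lit 573489) (nat_lit 14) (.e (nat_lit 73755) (nat_lit 8) (.e (nat_lit 557091) (nat_lit 12) (.e (nat_lit 163841) (nat_lit 0) (.e (nat_lit 5945) (nat_lit 322) (.e (nat_lit 57371) (nat_lit 2) .nil)))))))) (.g (nat_lit 1) (.e (nat_lit 271703) (nat_lit 0) .nil) .nil)))) (.nd (nat_lit 9) 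
(.lf (nat_lit 540942) (.g (nat_lit 2358) (.e (nat_lit 90172) (nat_lit 14) (.e (nat_lit 180244) (nat_lit 5) (.e (nat_lit 532499) (nat_lit 1) (.e (nat_lit 57688) (nat_lit 156) (.e (nat_lit 163841) (nat_lit 0) .nil))))) (.g (nat_lit 0) (.e (nat_lit 271341) (nat_lit 0) .nil) .nil))) 
(.lf (nat_lit 541454) (.g (nat_lit 1911) (.e (nat_lit 90185) (nat_lit 17) (.e (nat_lit 237619) (nat_lit 12) (.e (nat_lit 475177) (nat_lit 24) (.e (nat_lit 516124) (nat_lit 2) (.e (nat_lit 213030) (nat_lit 11) (.e (nat_lit 24603) (nat_lit 2) .nil)))))) (.g (nat_lit 1) (.e (nat_lit 272057) (nat_lit 0) .nil) .nil))))) (.nd (nat_lit 8) (.nd (nat_lit 9) 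
(.lf (nat_lit 540814) (.g (nat_lit 3689) (.e (nat_lit 90170) (nat_lit 13) (.e (nat_lit 172113) (nat_lit 10) (.e (nat_lit 434247) (nat_lit 28) (.e (nat_lit 573477) (nat_lit 12) (.e (nat_lit 57574) (nat_lit 55) (.e (nat_lit 778465) (nat_lit 11) (.e (nat_lit 24602) (nat_lit 2) .nil))))))) (.g (nat_lit 1) (.e (nat_lit 271173) (nat_lit 0) .nil) .nil))) 
(.lf (nat_lit 541326) (.g (nat_lit 2867) (.e (nat_lit 90176) (nat_lit 15) (.e (nat_lit 188440) (nat_lit 20) (.e (nat_lit 3307) (nat_lit 202) (.e (nat_lit 573475) (nat_lit 12) (.e (nat_lit 57574) (nat_lit 55) .nil))))) (.g (nat_lit 0) (.e (nat_lit 271854) (nat_lit 0) .nil) .nil)))) (.nd (nat_lit 9) 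
(.lf (nat_lit 541070) (.g (nat_lit 2475) (.e (nat_lit 90173) (nat_lit 14) (.e (nat_lit 180252) (nat_lit 10) (.e (nat_lit 573489) (nat_lit 14) (.e (nat_lit 73755) (nat_lit 8) (.e (nat_lit 557119) (nat_lit 18) .nil))))) (.g (nat_lit 0) (.e (nat_lit 271518) (nat_lit 0) .nil) .nil))) 
(.lf (nat_lit 541582) (.g (nat_lit 1847) (.e (nat_lit 98317) (nat_lit 9) (.e (nat_lit 335988) (nat_lit 1) (.e (nat_lit 57927) (nat_lit 282) (.e (nat_lit 163903) (nat_lit 12) (.e (nat_lit 426556) (nat_lit 32) (.e (nat_lit 376868) (nat_lit 23) .nil)))))) (.g (nat_lit 1) (.e (nat_lit 272492) (nat_lit 0) .nil) .nil)))))) (.nd (nat_lit 7) (.nd (nat_lit 8) (.nd (nat_lit 9) 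
(.lf (nat_lit 540750) (.g (nat_lit 3177) (.e (nat_lit 90170) (nat_lit 13) (.e (nat_lit 172113) (nat_lit 10) (.e (nat_lit 434245) (nat_lit 28) (.e (nat_lit 573450) (nat_lit 9) (.e (nat_lit 375) (nat_lit 32) (.e (nat_lit 426025) (nat_lit 0) (.e (nat_lit 7554) (nat_lit 402) (.e (nat_lit 1235) (nat_lit 91) .nil)))))))) (.g (nat_lit 1) (.e (nat_lit 271107) (nat_lit 0) .nil) .nil))) 
(.lf (nat_lit 541262) (.g (nat_lit 3572) (.e (nat_lit 90174) (nat_lit 14) (.e (nat_lit 180251) (nat_lit 10) (.e (nat_lit 573489) (nat_lit 14) (.e (nat_lit 73755) (nat_lit 8) (.e (nat_lit 557090) (nat_lit 12) (.e (nat_lit 163845) (nat_lit 0) (.e (nat_lit 5943) (nat_lit 322) (.e (nat_lit 57372) (nat_lit 2) .nil)))))))) (.g (nat_lit 1) (.e (nat_lit 271767) (nat_lit 0) .nil) .nil)))) (.nd (nat_lit 9) 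
(.lf (nat_lit 541006) (.g (nat_lit 3651) (.e (nat_lit 90172) (nat_lit 14) (.e (nat_lit 180250) (nat_lit 10) (.e (nat_lit 573489) (nat_lit 14) (.e (nat_lit 73755) (nat_lit 8) (.e (nat_lit 557090) (nat_lit 12) (.e (nat_lit 163843) (nat_lit 0) (.e (nat_lit 5934) (nat_lit 322) (.e (nat_lit 57372) (nat_lit 2) .nil)))))))) (.g (nat_lit 1) (.e (nat_lit 271436) (nat_lit 0) .nil) .nil))) 
(.lf (nat_lit 541518) (.g (nat_lit 3503) (.e (nat_lit 98313) (nat_lit 9) (.e (nat_lit 335986) (nat_lit 1) (.e (nat_lit 57926) (nat_lit 282) (.e (nat_lit 163941) (nat_lit 19) (.e (nat_lit 483393) (nat_lit 23) (.e (nat_lit 336021) (nat_lit 3) .nil)))))) (.g (nat_lit 1) (.e (nat_lit 272318) (nat_lit 0) .nil) .nil))))) (.nd (nat_lit 8) (.nd (nat_lit 9) 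
(.lf (nat_lit 540878) (.g (nat_lit 1127) (.e (nat_lit 90170) (nat_lit 13) (.e (nat_lit 172121) (nat_lit 13) (.e (nat_lit 483364) (nat_lit 18) (.e (nat_lit 57692) (nat_lit 156) .nil)))) (.g (nat_lit 0) (.e (nat_lit 271242) (nat_lit 0) .nil) .nil))) 
(.lf (nat_lit 541390) (.g (nat_lit 2279) (.e (nat_lit 90178) (nat_lit 15) (.e (nat_lit 188451) (nat_lit 23) (.e (nat_lit 204846) (nat_lit 24) (.e (nat_lit 319533) (nat_lit 16) (.e (nat_lit 294656) (nat_lit 2) .nil))))) (.g (nat_lit 1) (.e (nat_lit 271935) (nat_lit 0) .nil) .nil)))) (.nd (nat_lit 9) 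
(.lf (nat_lit 541134) (.g (nat_lit 1899) (.e (nat_lit 90174) (nat_lit 14) (.e (nat_lit 180243) (nat_lit 5) (.e (nat_lit 532515) (nat_lit 3) (.e (nat_lit 114718) (nat_lit 23) (.e (nat_lit 98325) (nat_lit 17) .nil))))) (.g (nat_lit 0) (.e (nat_lit 271638) (nat_lit 0) .nil) .nil))) 
(.lf (nat_lit 541646) (.g (nat_lit 986) (.e (nat_lit 98325) (nat_lit 17) (.e (nat_lit 6986) (nat_lit 377) (.e (nat_lit 2777) (nat_lit 178) (.e (nat_lit 286735) (nat_lit 3) .nil)))) (.g (nat_lit 0) (.e (nat_lit 272687) (nat_lit 0) .nil) .nil))))))) (.nd (nat_lit 6) (.nd (nat_lit 7) (.nd (nat_lit 8) (.nd (nat_lit 9) 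
(.lf (nat_lit 540718) (.g (nat_lit 1154) (.e (nat_lit 90170) (nat_lit 13) (.e (nat_lit 172113) (nat_lit 10) (.e (nat_lit 434203) (nat_lit 18) (.e (nat_lit 3970) (nat_lit 239) .nil)))) (.g (nat_lit 0) (.e (nat_lit 271075) (nat_lit 0) .nil) .nil))) 
(.lf (nat_lit 541230) (.g (nat_lit 3293) (.e (nat_lit 90174) (nat_lit 14) (.e (nat_lit 180251) (nat_lit 10) (.e (nat_lit 573489) (nat_lit 14) (.e (nat_lit 73755) (nat_lit 8) (.e (nat_lit 557075) (nat_lit 9) .nil))))) (.g (nat_lit 0) (.e (nat_lit 271735) (nat_lit 0) .nil) .nil)))) (.nd (nat_lit 9) 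
(.lf (nat_lit 540974) (.g (nat_lit 4134) (.e (nat_lit 90172) (nat_lit 14) (.e (nat_lit 180250) (nat_lit 10) (.e (nat_lit 573487) (nat_lit 14) (.e (nat_lit 73753) (nat_lit 8) (.e (nat_lit 557090) (nat_lit 12) (.e (nat_lit 163850) (nat_lit 0) (.e (nat_lit 5939) (nat_lit 322) (.e (nat_lit 57372) (nat_lit 2) .nil)))))))) (.g (nat_lit 1) (.e (nat_lit 271404) (nat_lit 0) .nil) .nil))) 
(.lf (nat_lit 541486) (.g (nat_lit 4061) (.e (nat_lit 90185) (nat_lit 17) (.e (nat_lit 237625) (nat_lit 14) (.e (nat_lit 491536) (nat_lit 2) (.e (nat_lit 90167) (nat_lit 13) (.e (nat_lit 172126) (nat_lit 14) (.e (nat_lit 491537) (nat_lit 2) .nil)))))) (.g (nat_lit 1) (.e (nat_lit 272089) (nat_lit 0) .nil) .nil))))) (.nd (nat_lit 8) (.nd (nat_lit 9) 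
(.lf (nat_lit 540846) (.g (nat_lit 3006) (.e (nat_lit 90170) (nat_lit 13) (.e (nat_lit 172113) (nat_lit 10) (.e (nat_lit 434248) (nat_lit 28) (.e (nat_lit 573475) (nat_lit 12) (.e (nat_lit 57347) (nat_lit 0) (.e (nat_lit 7265) (nat_lit 384) (.e (nat_lit 57406) (nat_lit 12) (.e (nat_lit 343808) (nat_lit 2) .nil)))))))) (.g (nat_lit 1) (.e (nat_lit 271208) (nat_lit 0) .nil) .nil))) 
(.lf (nat_lit 541358) (.g (nat_lit 1929) (.e (nat_lit 90176) (nat_lit 15) (.e (nat_lit 188451) (nat_lit 23) (.e (nat_lit 204846) (nat_lit 24) (.e (nat_lit 319533) (nat_lit 16) (.e (nat_lit 294656) (nat_lit 2) .nil))))) (.g (nat_lit 1) (.e (nat_lit 271889) (nat_lit 0) .nil) .nil)))) (.nd (nat_lit 9) 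
(.lf (nat_lit 541102) (.g (nat_lit 2481) (.e (nat_lit 90174) (nat_lit 14) (.e (nat_lit 180243) (nat_lit 5) (.e (nat_lit 532501) (nat_lit 1) (.e (nat_lit 57692) (nat_lit 156) (.e (nat_lit 163874) (nat_lit 3) (.e (nat_lit 204837) (nat_lit 20) (.e (nat_lit 114715) (nat_lit 22) .nil))))))) (.g (nat_lit 1) (.e (nat_lit 271580) (nat_lit 0) .nil) .nil))) 
(.lf (nat_lit 541614) (.g (nat_lit 3852) (.e (nat_lit 98320) (nat_lit 17) (.e (nat_lit 7591) (nat_lit 407) (.e (nat_lit 73747) (nat_lit 3) (.e (nat_lit 516102) (nat_lit 0) (.e (nat_lit 6989) (nat_lit 377) (.e (nat_lit 2777) (nat_lit 178) (.e (nat_lit 286735) (nat_lit 3) .nil))))))) (.g (nat_lit 1) (.e (nat_lit 272623) (nat_lit 0) .nil) .nil)))))) (.nd (nat_lit 7) (.nd (nat_lit 8) (.nd (nat_lit 9) 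
(.lf (nat_lit 540782) (.g (nat_lit 2781) (.e (nat_lit 90170) (nat_lit 13) (.e (nat_lit 172113) (nat_lit 10) (.e (nat_lit 434245) (nat_lit 28) (.e (nat_lit 573474) (nat_lit 12) (.e (nat_lit 57347) (nat_lit 0) (.e (nat_lit 7265) (nat_lit 384) (.e (nat_lit 57406) (nat_lit 12) (.e (nat_lit 343808) (nat_lit 2) .nil)))))))) (.g (nat_lit 1) (.e (nat_lit 271139) (nat_lit 0) .nil) .nil))) 
(.lf (nat_lit 541294) (.g (nat_lit 705) (.e (nat_lit 90175) (nat_lit 15) (.e (nat_lit 188452) (nat_lit 23) (.e (nat_lit 204816) (nat_lit 17) .nil))) (.g (nat_lit 0) (.e (nat_lit 271810) (nat_lit 0) .nil) .nil)))) (.nd (nat_lit 9) 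
(.lf (nat_lit 541038) (.g (nat_lit 3545) (.e (nat_lit 90173) (nat_lit 14) (.e (nat_lit 180251) (nat_lit 10) (.e (nat_lit 573489) (nat_lit 14) (.e (nat_lit 73755) (nat_lit 8) (.e (nat_lit 557090) (nat_lit 12) (.e (nat_lit 163843) (nat_lit 0) (.e (nat_lit 5934) (nat_lit 322) (.e (nat_lit 57371) (nat_lit 2) .nil)))))))) (.g (nat_lit 1) (.e (nat_lit 271479) (nat_lit 0) .nil) .nil))) 
(.lf (nat_lit 541550) (.g (nat_lit 1585) (.e (nat_lit 98313) (nat_lit 9) (.e (nat_lit 336027) (nat_lit 3) (.e (nat_lit 98334) (nat_lit 18) (.e (nat_lit 164183) (nat_lit 154) .nil)))) (.g (nat_lit 0) (.e (nat_lit 272416) (nat_lit 0) .nil) .nil))))) (.nd (nat_lit 8) (.nd (nat_lit 9) 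
(.lf (nat_lit 540910) (.g (nat_lit 1541) (.e (nat_lit 90172) (nat_lit 14) (.e (nat_lit 180229) (nat_lit 0) (.e (nat_lit 5548) (nat_lit 306) (.e (nat_lit 2610) (nat_lit 163) (.e (nat_lit 163979) (nat_lit 30) .nil))))) (.g (nat_lit 0) (.e (nat_lit 271278) (nat_lit 0) .nil) .nil))) 
(.lf (nat_lit 541422) (.g (nat_lit 2165) (.e (nat_lit 90185) (nat_lit 17) (.e (nat_lit 237605) (nat_lit 9) (.e (nat_lit 426436) (nat_lit 18) (.e (nat_lit 98339) (nat_lit 19) (.e (nat_lit 213032) (nat_lit 11) (.e (nat_lit 24601) (nat_lit 2) .nil)))))) (.g (nat_lit 1) (.e (nat_lit 272025) (nat_lit 0) .nil) .nil)))) (.nd (nat_lit 9) 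
(.lf (nat_lit 541166) (.g (nat_lit 4053) (.e (nat_lit 90174) (nat_lit 14) (.e (nat_lit 180250) (nat_lit 10) (.e (nat_lit 573489) (nat_lit 14) (.e (nat_lit 73755) (nat_lit 8) (.e (nat_lit 557067) (nat_lit 9) (.e (nat_lit 2602) (nat_lit 163) (.e (nat_lit 164403) (nat_lit 256) (.e (nat_lit 57373) (nat_lit 2) .nil)))))))) (.g (nat_lit 1) (.e (nat_lit 271671) (nat_lit 0) .nil) .nil))) 
(.lf (nat_lit 541678) (.g (nat_lit 4209) (.e (nat_lit 98333) (nat_lit 18) (.e (nat_lit 164179) (nat_lit 154) (.e (nat_lit 57378) (nat_lit 3) (.e (nat_lit 98342) (nat_lit 20) (.e (nat_lit 221212) (nat_lit 22) (.e (nat_lit 196681) (nat_lit 17) (.e (nat_lit 131096) (nat_lit 3) .nil))))))) (.g (nat_lit 1) (.e (nat_lit 272779) (nat_lit 0) .nil) .nil)))))))) 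
(.nd (nat_lit 5) (.nd (nat_lit 6) (.nd (nat_lit 7) (.nd (nat_lit 8) (.nd (nat_lit 9) 
(.lf (nat_lit 540702) (.g (nat_lit 3710) (.e (nat_lit 90170) (nat_lit 13) (.e (nat_lit 172106) (nat_lit 10) (.e (nat_lit 434244) (nat_lit 28) (.e (nat_lit 573474) (nat_lit 12) (.e (nat_lit 57354) (nat_lit 0) (.e (nat_lit 7270) (nat_lit 385) (.e (nat_lit 122906) (nat_lit 12) (.e (nat_lit 336008) (nat_lit 2) .nil)))))))) (.g (nat_lit 1) (.e (nat_lit 271059) (nat_lit 0) .nil) .nil))) 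
(.lf (nat_lit 541214) (.g (nat_lit 1997) (.e (nat_lit 90174) (nat_lit 14) (.e (nat_lit 180251) (nat_lit 10) (.e (nat_lit 573487) (nat_lit 14) (.e (nat_lit 73753) (nat_lit 8) (.e (nat_lit 557093) (nat_lit 12) (.e (nat_lit 163857) (nat_lit 0) (.e (nat_lit 5947) (nat_lit 322) (.e (nat_lit 57371) (nat_lit 2) .nil)))))))) (.g (nat_lit 1) (.e (nat_lit 271719) (nat_lit 0) .nil) .nil)))) (.nd (nat_lit 9) 
(.lf (nat_lit 540958) (.g (nat_lit 2168) (.e (nat_lit 90172) (nat_lit 14) (.e (nat_lit 180244) (nat_lit 5) (.e (nat_lit 532513) (nat_lit 3) (.e (nat_lit 114718) (nat_lit 23) (.e (nat_lit 98332) (nat_lit 18) .nil))))) (.g (nat_lit 0) (.e (nat_lit 271384) (nat_lit 0) .nil) .nil))) 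
(.lf (nat_lit 541470) (.g (nat_lit 2633) (.e (nat_lit 90185) (nat_lit 17) (.e (nat_lit 237619) (nat_lit 12) (.e (nat_lit 475179) (nat_lit 24) (.e (nat_lit 516124) (nat_lit 2) (.e (nat_lit 213032) (nat_lit 11) (.e (nat_lit 24602) (nat_lit 2) .nil)))))) (.g (nat_lit 1) (.e (nat_lit 272073) (nat_lit 0) .nil) .nil))))) (.nd (nat_lit 8) (.nd (nat_lit 9) 
(.lf (nat_lit 540830) (.g (nat_lit 2712) (.e (nat_lit 90170) (nat_lit 13) (.e (nat_lit 172113) (nat_lit 10) (.e (nat_lit 434248) (nat_lit 28) (.e (nat_lit 573468) (nat_lit 10) (.e (nat_lit 16128) (nat_lit 205) .nil))))) (.g (nat_lit 0) (.e (nat_lit 271192) (nat_lit 0) .nil) .nil))) 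
(.lf (nat_lit 541342) (.g (nat_lit 3789) (.e (nat_lit 90176) (nat_lit 15) (.e (nat_lit 188450) (nat_lit 23) (.e (nat_lit 204845) (nat_lit 24) (.e (nat_lit 319535) (nat_lit 17) (.e (nat_lit 294928) (nat_lit 2) .nil))))) (.g (nat_lit 1) (.e (nat_lit 271872) (nat_lit 0) .nil) .nil)))) (.nd (nat_lit 9) 
(.lf (nat_lit 541086) (.g (nat_lit 2655) (.e (nat_lit 90174) (nat_lit 14) (.e (nat_lit 180243) (nat_lit 5) (.e (nat_lit 532499) (nat_lit 1) (.e (nat_lit 57688) (nat_lit 156) (.e (nat_lit 163845) (nat_lit 0) .nil))))) (.g (nat_lit 0) (.e (nat_lit 271546) (nat_lit 0) .nil) .nil))) 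
(.lf (nat_lit 541598) (.g (nat_lit 349) (.e (nat_lit 98317) (nat_lit 9) (.e (nat_lit 335996) (nat_lit 1) (.e (nat_lit 57931) (nat_lit 282) .nil))) (.g (nat_lit 0) (.e (nat_lit 272525) (nat_lit 0) .nil) .nil)))))) (.nd (nat_lit 7) (.nd (nat_lit 8) (.nd (nat_lit 9) 
(.lf (nat_lit 540766) (.g (nat_lit 1782) (.e (nat_lit 90170) (nat_lit 13) (.e (nat_lit 172113) (nat_lit 10) (.e (nat_lit 434245) (nat_lit 28) (.e (nat_lit 573471) (nat_lit 11) (.e (nat_lit 16385) (nat_lit 0) .nil))))) (.g (nat_lit 0) (.e (nat_lit 271123) (nat_lit 0) .nil) .nil))) 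
(.lf (nat_lit 541278) (.g (nat_lit 3206) (.e (nat_lit 90174) (nat_lit 14) (.e (nat_lit 180251) (nat_lit 10) (.e (nat_lit 573489) (nat_lit 14) (.e (nat_lit 73755) (nat_lit 8) (.e (nat_lit 557094) (nat_lit 12) .nil))))) (.g (nat_lit 0) (.e (nat_lit 271783) (nat_lit 0) .nil) .nil)))) (.nd (nat_lit 9) 
(.lf (nat_lit 541022) (.g (nat_lit 2412) (.e (nat_lit 90172) (nat_lit 14) (.e (nat_lit 180251) (nat_lit 10) (.e (nat_lit 573489) (nat_lit 14) (.e (nat_lit 73755) (nat_lit 8) (.e (nat_lit 557089) (nat_lit 12) (.e (nat_lit 163844) (nat_lit 0) (.e (nat_lit 5943) (nat_lit 322) (.e (nat_lit 57372) (nat_lit 2) .nil)))))))) (.g (nat_lit 1) (.e (nat_lit 271452) (nat_lit 0) .nil) .nil))) 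
(.lf (nat_lit 541534) (.g (nat_lit 3434) (.e (nat_lit 98313) (nat_lit 9) (.e (nat_lit 335988) (nat_lit 1) (.e (nat_lit 57931) (nat_lit 282) (.e (nat_lit 163905) (nat_lit 12) (.e (nat_lit 426555) (nat_lit 32) (.e (nat_lit 376869) (nat_lit 23) .nil)))))) (.g (nat_lit 1) (.e (nat_lit 272357) (nat_lit 0) .nil) .nil))))) (.nd (nat_lit 8) (.nd (nat_lit 9) 
(.lf (nat_lit 540894) (.g (nat_lit 5099) (.e (nat_lit 90170) (nat_lit 13) (.e (nat_lit 172124) (nat_lit 14) (.e (nat_lit 491537) (nat_lit 2) (.e (nat_lit 90170) (nat_lit 13) (.e (nat_lit 172126) (nat_lit 14) (.e (nat_lit 491537) (nat_lit 2) .nil)))))) (.g (nat_lit 1) (.e (nat_lit 271258) (nat_lit 0) .nil) .nil))) 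
(.lf (nat_lit 541406) (.g (nat_lit 3025) (.e (nat_lit 90185) (nat_lit 17) (.e (nat_lit 237601) (nat_lit 9) (.e (nat_lit 426436) (nat_lit 18) (.e (nat_lit 98338) (nat_lit 19) (.e (nat_lit 213032) (nat_lit 11) (.e (nat_lit 24604) (nat_lit 2) .nil)))))) (.g (nat_lit 1) (.e (nat_lit 272009) (nat_lit 0) .nil) .nil)))) (.nd (nat_lit 9) 
(.lf (nat_lit 541150) (.g (nat_lit 2509) (.e (nat_lit 90174) (nat_lit 14) (.e (nat_lit 180250) (nat_lit 10) (.e (nat_lit 573484) (nat_lit 13) (.e (nat_lit 65566) (nat_lit 2) (.e (nat_lit 98048) (nat_lit 0) .nil))))) (.g (nat_lit 0) (.e (nat_lit 271655) (nat_lit 0) .nil) .nil))) 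
(.lf (nat_lit 541662) (.g (nat_lit 1183) (.e (nat_lit 98332) (nat_lit 18) (.e (nat_lit 164332) (nat_lit 230) (.e (nat_lit 163902) (nat_lit 12) (.e (nat_lit 426479) (nat_lit 27) .nil)))) (.g (nat_lit 0) (.e (nat_lit 272745) (nat_lit 0) .nil) .nil))))))) (.nd (nat_lit 6) (.nd (nat_lit 7) (.nd (nat_lit 8) (.nd (nat_lit 9) 
(.lf (nat_lit 540734) (.g (nat_lit 3178) (.e (nat_lit 90170) (nat_lit 13) (.e (nat_lit 172113) (nat_lit 10) (.e (nat_lit 434242) (nat_lit 28) (.e (nat_lit 573474) (nat_lit 12) (.e (nat_lit 57348) (nat_lit 0) (.e (nat_lit 7261) (nat_lit 384) (.e (nat_lit 57412) (nat_lit 12) (.e (nat_lit 336008) (nat_lit 2) .nil)))))))) (.g (nat_lit 1) (.e (nat_lit 271091) (nat_lit 0) .nil) .nil))) 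
(.lf (nat_lit 541246) (.g (nat_lit 3441) (.e (nat_lit 90174) (nat_lit 14) (.e (nat_lit 180251) (nat_lit 10) (.e (nat_lit 573489) (nat_lit 14) (.e (nat_lit 73755) (nat_lit 8) (.e (nat_lit 557090) (nat_lit 12) (.e (nat_lit 163841) (nat_lit 0) (.e (nat_lit 5940) (nat_lit 322) (.e (nat_lit 57374) (nat_lit 2) .nil)))))))) (.g (nat_lit 1) (.e (nat_lit 271751) (nat_lit 0) .nil) .nil)))) (.nd (nat_lit 9) 
(.lf (nat_lit 540990) (.g (nat_lit 3562) (.e (nat_lit 90172) (nat_lit 14) (.e (nat_lit 180250) (nat_lit 10) (.e (nat_lit 573488) (nat_lit 14) (.e (nat_lit 73755) (nat_lit 8) (.e (nat_lit 557090) (nat_lit 12) (.e (nat_lit 163850) (nat_lit 0) (.e (nat_lit 5939) (nat_lit 322) (.e (nat_lit 57375) (nat_lit 2) .nil)))))))) (.g (nat_lit 1) (.e (nat_lit 271420) (nat_lit 0) .nil) .nil))) 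
(.lf (nat_lit 541502) (.g (nat_lit 1501) (.e (nat_lit 106240) (nat_lit 5) (.e (nat_lit 147496) (nat_lit 11) (.e (nat_lit 24604) (nat_lit 2) (.e (nat_lit 90174) (nat_lit 14) .nil)))) (.g (nat_lit 0) (.e (nat_lit 272280) (nat_lit 0) .nil) .nil))))) (.nd (nat_lit 8) (.nd (nat_lit 9) 
(.lf (nat_lit 540862) (.g (nat_lit 3706) (.e (nat_lit 90170) (nat_lit 13) (.e (nat_lit 172115) (nat_lit 10) (.e (nat_lit 434244) (nat_lit 28) (.e (nat_lit 573471) (nat_lit 11) (.e (nat_lit 16469) (nat_lit 14) (.e (nat_lit 491537) (nat_lit 2) .nil)))))) (.g (nat_lit 1) (.e (nat_lit 271226) (nat_lit 0) .nil) .nil))) 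
(.lf (nat_lit 541374) (.g (nat_lit 3577) (.e (nat_lit 90178) (nat_lit 15) (.e (nat_lit 188421) (nat_lit 11) (.e (nat_lit 335986) (nat_lit 1) (.e (nat_lit 57688) (nat_lit 156) (.e (nat_lit 163903) (nat_lit 12) (.e (nat_lit 426428) (nat_lit 17) .nil)))))) (.g (nat_lit 1) (.e (nat_lit 271919) (nat_lit 0) .nil) .nil)))) (.nd (nat_lit 9) 
(.lf (nat_lit 541118) (.g (nat_lit 2761) (.e (nat_lit 90174) (nat_lit 14) (.e (nat_lit 180243) (nat_lit 5) (.e (nat_lit 532503) (nat_lit 1) (.e (nat_lit 57691) (nat_lit 156) (.e (nat_lit 163874) (nat_lit 3) (.e (nat_lit 204837) (nat_lit 20) (.e (nat_lit 114716) (nat_lit 22) .nil))))))) (.g (nat_lit 1) (.e (nat_lit 271611) (nat_lit 0) .nil) .nil))) 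
(.lf (nat_lit 541630) (.g (nat_lit 3205) (.e (nat_lit 98323) (nat_lit 17) (.e (nat_lit 6989) (nat_lit 377) (.e (nat_lit 2779) (nat_lit 178) (.e (nat_lit 286765) (nat_lit 15) (.e (nat_lit 3308) (nat_lit 202) (.e (nat_lit 573491) (nat_lit 15) (.e (nat_lit 81954) (nat_lit 23) .nil))))))) (.g (nat_lit 1) (.e (nat_lit 272645) (nat_lit 0) .nil) .nil)))))) 
(.nd (nat_lit 7) (.nd (nat_lit 8) (.nd (nat_lit 9) 
(.lf (nat_lit 540798) (.g (nat_lit 4627) (.e (nat_lit 90170) (nat_lit 13) (.e (nat_lit 172113) (nat_lit 10) (.e (nat_lit 434245) (nat_lit 28) (.e (nat_lit 573475) (nat_lit 12) (.e (nat_lit 57572) (nat_lit 54) (.e (nat_lit 770072) (nat_lit 8) (.e (nat_lit 65568) (nat_lit 2) .nil))))))) (.g (nat_lit 1) (.e (nat_lit 271157) (nat_lit 0) .nil) .nil))) 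
(.lf (nat_lit 541310) (.g (nat_lit 2898) (.e (nat_lit 90176) (nat_lit 15) (.e (nat_lit 188423) (nat_lit 11) (.e (nat_lit 335995) (nat_lit 1) (.e (nat_lit 57691) (nat_lit 156) (.e (nat_lit 163905) (nat_lit 12) (.e (nat_lit 426428) (nat_lit 17) .nil)))))) (.g (nat_lit 1) (.e (nat_lit 271836) (nat_lit 0) .nil) .nil)))) (.nd (nat_lit 9) 
(.lf (nat_lit 541054) (.g (nat_lit 2370) (.e (nat_lit 90173) (nat_lit 14) (.e (nat_lit 180252) (nat_lit 10) (.e (nat_lit 573489) (nat_lit 14) (.e (nat_lit 73755) (nat_lit 8) (.e (nat_lit 557074) (nat_lit 9) .nil))))) (.g (nat_lit 0) (.e (nat_lit 271502) (nat_lit 0) .nil) .nil))) 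
(.lf (nat_lit 541566) (.g (nat_lit 1415) (.e (nat_lit 98317) (nat_lit 9) (.e (nat_lit 335986) (nat_lit 1) (.e (nat_lit 57926) (nat_lit 282) (.e (nat_lit 163943) (nat_lit 19) .nil)))) (.g (nat_lit 0) (.e (nat_lit 272462) (nat_lit 0) .nil) .nil))))) (.nd (nat_lit 8) (.nd (nat_lit 9) 
(.lf (nat_lit 540926) (.g (nat_lit 2596) (.e (nat_lit 90172) (nat_lit 14) (.e (nat_lit 180243) (nat_lit 5) (.e (nat_lit 532503) (nat_lit 1) (.e (nat_lit 57688) (nat_lit 156) (.e (nat_lit 163843) (nat_lit 0) .nil))))) (.g (nat_lit 0) (.e (nat_lit 271312) (nat_lit 0) .nil) .nil))) 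
(.lf (nat_lit 541438) (.g (nat_lit 2081) (.e (nat_lit 90185) (nat_lit 17) (.e (nat_lit 237616) (nat_lit 12) (.e (nat_lit 475179) (nat_lit 24) (.e (nat_lit 516124) (nat_lit 2) (.e (nat_lit 213030) (nat_lit 11) (.e (nat_lit 24602) (nat_lit 2) .nil)))))) (.g (nat_lit 1) (.e (nat_lit 272041) (nat_lit 0) .nil) .nil)))) (.nd (nat_lit 9) 
(.lf (nat_lit 541182) (.g (nat_lit 3065) (.e (nat_lit 90174) (nat_lit 14) (.e (nat_lit 180250) (nat_lit 10) (.e (nat_lit 573489) (nat_lit 14) (.e (nat_lit 73755) (nat_lit 8) (.e (nat_lit 557090) (nat_lit 12) (.e (nat_lit 163844) (nat_lit 0) (.e (nat_lit 5942) (nat_lit 322) (.e (nat_lit 57374) (nat_lit 2) .nil)))))))) (.g (nat_lit 1) (.e (nat_lit 271687) (nat_lit 0) .nil) .nil))) 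
(.lf (nat_lit 541694) (.g (nat_lit 3924) (.e (nat_lit 98333) (nat_lit 18) (.e (nat_lit 164182) (nat_lit 154) (.e (nat_lit 57379) (nat_lit 3) (.e (nat_lit 98342) (nat_lit 20) (.e (nat_lit 221212) (nat_lit 22) (.e (nat_lit 196681) (nat_lit 17) (.e (nat_lit 131096) (nat_lit 3) .nil))))))) (.g (nat_lit 1) (.e (nat_lit 272808) (nat_lit 0) .nil) .nil)))))))))))) 
(.nd (nat_lit 1) (.nd (nat_lit 2) (.nd (nat_lit 3) (.nd (nat_lit 4) (.nd (nat_lit 5) 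
(.nd (nat_lit 6) (.nd (nat_lit 7) (.nd (nat_lit 8) (.nd (nat_lit 9) 
(.lf (nat_lit 540673) (.g (nat_lit 2440) (.e (nat_lit 90170) (nat_lit 13) (.e (nat_lit 172106) (nat_lit 10) (.e (nat_lit 434244) (nat_lit 28) (.e (nat_lit 573451) (nat_lit 9) (.e (nat_lit 430) (nat_lit 32) (.e (nat_lit 426341) (nat_lit 14) (.e (nat_lit 491535) (nat_lit 2) .nil))))))) (.g (nat_lit 1) (.e (nat_lit 271030) (nat_lit 0) .nil) .nil))) 
(.lf (nat_lit 541185) (.g (nat_lit 3196) (.e (nat_lit 90174) (nat_lit 14) (.e (nat_lit 180250) (nat_lit 10) (.e (nat_lit 573489) (nat_lit 14) (.e (nat_lit 73755) (nat_lit 8) (.e (nat_lit 557090) (nat_lit 12) (.e (nat_lit 163845) (nat_lit 0) (.e (nat_lit 5940) (nat_lit 322) (.e (nat_lit 57374) (nat_lit 2) .nil)))))))) (.g (nat_lit 1) (.e (nat_lit 271690) (nat_lit 0) .nil) .nil)))) (.nd (nat_lit 9) 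
(.lf (nat_lit 540929) (.g (nat_lit 1996) (.e (nat_lit 90172) (nat_lit 14) (.e (nat_lit 180243) (nat_lit 5) (.e (nat_lit 532504) (nat_lit 1) (.e (nat_lit 57664) (nat_lit 152) .nil)))) (.g (nat_lit 0) (.e (nat_lit 271320) (nat_lit 0) .nil) .nil))) 
(.lf (nat_lit 541441) (.g (nat_lit 2501) (.e (nat_lit 90185) (nat_lit 17) (.e (nat_lit 237616) (nat_lit 12) (.e (nat_lit 475179) (nat_lit 24) (.e (nat_lit 516124) (nat_lit 2) (.e (nat_lit 213032) (nat_lit 11) (.e (nat_lit 24602) (nat_lit 2) .nil)))))) (.g (nat_lit 1) (.e (nat_lit 272044) (nat_lit 0) .nil) .nil))))) (.nd (nat_lit 8) (.nd (nat_lit 9) 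
(.lf (nat_lit 540801) (.g (nat_lit 2438) (.e (nat_lit 90170) (nat_lit 13) (.e (nat_lit 172113) (nat_lit 10) (.e (nat_lit 434247) (nat_lit 28) (.e (nat_lit 573454) (nat_lit 9) (.e (nat_lit 441) (nat_lit 33) (.e (nat_lit 442112) (nat_lit 0) (.e (nat_lit 1239) (nat_lit 91) .nil))))))) (.g (nat_lit 1) (.e (nat_lit 271160) (nat_lit 0) .nil) .nil))) 
(.lf (nat_lit 541313) (.g (nat_lit 2652) (.e (nat_lit 90176) (nat_lit 15) (.e (nat_lit 188423) (nat_lit 11) (.e (nat_lit 335996) (nat_lit 1) (.e (nat_lit 57692) (nat_lit 156) (.e (nat_lit 163905) (nat_lit 12) (.e (nat_lit 426427) (nat_lit 17) .nil)))))) (.g (nat_lit 1) (.e (nat_lit 271839) (nat_lit 0) .nil) .nil)))) (.nd (nat_lit 9) 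
(.lf (nat_lit 541057) (.g (nat_lit 1881) (.e (nat_lit 90173) (nat_lit 14) (.e (nat_lit 180252) (nat_lit 10) (.e (nat_lit 573489) (nat_lit 14) (.e (nat_lit 73755) (nat_lit 8) (.e (nat_lit 557090) (nat_lit 12) .nil))))) (.g (nat_lit 0) (.e (nat_lit 271505) (nat_lit 0) .nil) .nil))) 
(.lf (nat_lit 541569) (.g (nat_lit 707) (.e (nat_lit 98317) (nat_lit 9) (.e (nat_lit 335986) (nat_lit 1) (.e (nat_lit 57931) (nat_lit 282) .nil))) (.g (nat_lit 0) (.e (nat_lit 272468) (nat_lit 0) .nil) .nil)))))) (.nd (nat_lit 7) (.nd (nat_lit 8) (.nd (nat_lit 9) 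
(.lf (nat_lit 540737) (.g (nat_lit 2575) (.e (nat_lit 90170) (nat_lit 13) (.e (nat_lit 172113) (nat_lit 10) (.e (nat_lit 434242) (nat_lit 28) (.e (nat_lit 573474) (nat_lit 12) (.e (nat_lit 57351) (nat_lit 0) (.e (nat_lit 7261) (nat_lit 384) (.e (nat_lit 57412) (nat_lit 12) (.e (nat_lit 336001) (nat_lit 2) .nil)))))))) (.g (nat_lit 1) (.e (nat_lit 271094) (nat_lit 0) .nil) .nil))) 
(.lf (nat_lit 541249) (.g (nat_lit 3389) (.e (nat_lit 90174) (nat_lit 14) (.e (nat_lit 180251) (nat_lit 10) (.e (nat_lit 573489) (nat_lit 14) (.e (nat_lit 73755) (nat_lit 8) (.e (nat_lit 557090) (nat_lit 12) (.e (nat_lit 163841) (nat_lit 0) (.e (nat_lit 5943) (nat_lit 322) (.e (nat_lit 57374) (nat_lit 2) .nil)))))))) (.g (nat_lit 1) (.e (nat_lit 271754) (nat_lit 0) .nil) .nil)))) (.nd (nat_lit 9) 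
(.lf (nat_lit 540993) (.g (nat_lit 2983) (.e (nat_lit 90172) (nat_lit 14) (.e (nat_lit 180250) (nat_lit 10) (.e (nat_lit 573488) (nat_lit 14) (.e (nat_lit 73755) (nat_lit 8) (.e (nat_lit 557119) (nat_lit 18) (.e (nat_lit 2797) (nat_lit 180) (.e (nat_lit 311040) (nat_lit 17) .nil))))))) (.g (nat_lit 1) (.e (nat_lit 271423) (nat_lit 0) .nil) .nil))) 
(.lf (nat_lit 541505) (.g (nat_lit 701) (.e (nat_lit 98312) (nat_lit 9) (.e (nat_lit 335986) (nat_lit 1) (.e (nat_lit 57931) (nat_lit 282) .nil))) (.g (nat_lit 0) (.e (nat_lit 272291) (nat_lit 0) .nil) .nil))))) (.nd (nat_lit 8) (.nd (nat_lit 9) 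
(.lf (nat_lit 540865) (.g (nat_lit 2648) (.e (nat_lit 90170) (nat_lit 13) (.e (nat_lit 172118) (nat_lit 12) (.e (nat_lit 475177) (nat_lit 24) (.e (nat_lit 516126) (nat_lit 2) (.e (nat_lit 213030) (nat_lit 11) (.e (nat_lit 24605) (nat_lit 2) .nil)))))) (.g (nat_lit 1) (.e (nat_lit 271229) (nat_lit 0) .nil) .nil))) 
(.lf (nat_lit 541377) (.g (nat_lit 3614) (.e (nat_lit 90178) (nat_lit 15) (.e (nat_lit 188421) (nat_lit 11) (.e (nat_lit 335988) (nat_lit 1) (.e (nat_lit 57692) (nat_lit 156) (.e (nat_lit 163905) (nat_lit 12) (.e (nat_lit 426428) (nat_lit 17) .nil)))))) (.g (nat_lit 1) (.e (nat_lit 271922) (nat_lit 0) .nil) .nil)))) (.nd (nat_lit 9) 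
(.lf (nat_lit 541121) (.g (nat_lit 1502) (.e (nat_lit 90174) (nat_lit 14) (.e (nat_lit 180243) (nat_lit 5) (.e (nat_lit 532504) (nat_lit 1) (.e (nat_lit 57663) (nat_lit 152) .nil)))) (.g (nat_lit 0) (.e (nat_lit 271614) (nat_lit 0) .nil) .nil))) 
(.lf (nat_lit 541633) (.g (nat_lit 1868) (.e (nat_lit 98323) (nat_lit 17) (.e (nat_lit 6989) (nat_lit 377) (.e (nat_lit 1361) (nat_lit 102) (.e (nat_lit 286733) (nat_lit 2) (.e (nat_lit 90133) (nat_lit 9) .nil))))) (.g (nat_lit 0) (.e (nat_lit 272648) (nat_lit 0) .nil) .nil))))))) (.nd (nat_lit 6) (.nd (nat_lit 7) (.nd (nat_lit 8) (.nd (nat_lit 9) 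
(.lf (nat_lit 540705) (.g (nat_lit 2667) (.e (nat_lit 90170) (nat_lit 13) (.e (nat_lit 172106) (nat_lit 10) (.e (nat_lit 434244) (nat_lit 28) (.e (nat_lit 573474) (nat_lit 12) (.e (nat_lit 57354) (nat_lit 0) (.e (nat_lit 7273) (nat_lit 385) (.e (nat_lit 122906) (nat_lit 12) (.e (nat_lit 336001) (nat_lit 2) .nil)))))))) (.g (nat_lit 1) (.e (nat_lit 271062) (nat_lit 0) .nil) .nil))) 
(.lf (nat_lit 541217) (.g (nat_lit 3298) (.e (nat_lit 90174) (nat_lit 14) (.e (nat_lit 180251) (nat_lit 10) (.e (nat_lit 573489) (nat_lit 14) (.e (nat_lit 73755) (nat_lit 8) (.e (nat_lit 557065) (nat_lit 9) (.e (nat_lit 2604) (nat_lit 163) (.e (nat_lit 164398) (nat_lit 256) (.e (nat_lit 57373) (nat_lit 2) .nil)))))))) (.g (nat_lit 1) (.e (nat_lit 271722) (nat_lit 0) .nil) .nil)))) 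
(.nd (nat_lit 9) 
(.lf (nat_lit 540961) (.g (nat_lit 1896) (.e (nat_lit 90172) (nat_lit 14) (.e (nat_lit 180244) (nat_lit 5) (.e (nat_lit 532514) (nat_lit 3) (.e (nat_lit 114719) (nat_lit 23) (.e (nat_lit 98332) (nat_lit 18) .nil))))) (.g (nat_lit 0) (.e (nat_lit 271387) (nat_lit 0) .nil) .nil))) 
(.lf (nat_lit 541473) (.g (nat_lit 2074) (.e (nat_lit 90185) (nat_lit 17) (.e (nat_lit 237619) (nat_lit 12) (.e (nat_lit 475179) (nat_lit 24) (.e (nat_lit 516126) (nat_lit 2) (.e (nat_lit 213030) (nat_lit 11) (.e (nat_lit 24602) (nat_lit 2) .nil)))))) (.g (nat_lit 1) (.e (nat_lit 272076) (nat_lit 0) .nil) .nil))))) (.nd (nat_lit 8) (.nd (nat_lit 9) 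
(.lf (nat_lit 540833) (.g (nat_lit 2679) (.e (nat_lit 90170) (nat_lit 13) (.e (nat_lit 172113) (nat_lit 10) (.e (nat_lit 434248) (nat_lit 28) (.e (nat_lit 573470) (nat_lit 11) (.e (nat_lit 16473) (nat_lit 14) (.e (nat_lit 499456) (nat_lit 2) .nil)))))) (.g (nat_lit 1) (.e (nat_lit 271195) (nat_lit 0) .nil) .nil))) 
(.lf (nat_lit 541345) (.g (nat_lit 2259) (.e (nat_lit 90176) (nat_lit 15) (.e (nat_lit 188450) (nat_lit 23) (.e (nat_lit 204846) (nat_lit 24) (.e (nat_lit 319505) (nat_lit 10) (.e (nat_lit 7936) (nat_lit 298) .nil))))) (.g (nat_lit 0) (.e (nat_lit 271876) (nat_lit 0) .nil) .nil)))) (.nd (nat_lit 9) 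
(.lf (nat_lit 541089) (.g (nat_lit 3039) (.e (nat_lit 90174) (nat_lit 14) (.e (nat_lit 180243) (nat_lit 5) (.e (nat_lit 532499) (nat_lit 1) (.e (nat_lit 57688) (nat_lit 156) (.e (nat_lit 163873) (nat_lit 3) (.e (nat_lit 204837) (nat_lit 20) (.e (nat_lit 114715) (nat_lit 22) .nil))))))) (.g (nat_lit 1) (.e (nat_lit 271551) (nat_lit 0) .nil) .nil))) 
(.lf (nat_lit 541601) (.g (nat_lit 1775) (.e (nat_lit 98317) (nat_lit 9) (.e (nat_lit 336074) (nat_lit 9) (.e (nat_lit 336454) (nat_lit 34) (.e (nat_lit 483366) (nat_lit 18) .nil)))) (.g (nat_lit 0) (.e (nat_lit 272534) (nat_lit 0) .nil) .nil)))))) (.nd (nat_lit 7) (.nd (nat_lit 8) (.nd (nat_lit 9) 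
(.lf (nat_lit 540769) (.g (nat_lit 2136) (.e (nat_lit 90170) (nat_lit 13) (.e (nat_lit 172113) (nat_lit 10) (.e (nat_lit 434245) (nat_lit 28) (.e (nat_lit 573471) (nat_lit 11) (.e (nat_lit 16389) (nat_lit 0) .nil))))) (.g (nat_lit 0) (.e (nat_lit 271126) (nat_lit 0) .nil) .nil))) 
(.lf (nat_lit 541281) (.g (nat_lit 4502) (.e (nat_lit 90174) (nat_lit 14) (.e (nat_lit 180251) (nat_lit 10) (.e (nat_lit 573489) (nat_lit 14) (.e (nat_lit 73755) (nat_lit 8) (.e (nat_lit 557119) (nat_lit 18) (.e (nat_lit 2798) (nat_lit 180) (.e (nat_lit 311040) (nat_lit 17) .nil))))))) (.g (nat_lit 1) (.e (nat_lit 271786) (nat_lit 0) .nil) .nil)))) (.nd (nat_lit 9) 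
(.lf (nat_lit 541025) (.g (nat_lit 3327) (.e (nat_lit 90172) (nat_lit 14) (.e (nat_lit 180251) (nat_lit 10) (.e (nat_lit 573489) (nat_lit 14) (.e (nat_lit 73755) (nat_lit 8) (.e (nat_lit 557090) (nat_lit 12) (.e (nat_lit 163841) (nat_lit 0) (.e (nat_lit 5943) (nat_lit 322) (.e (nat_lit 57375) (nat_lit 2) .nil)))))))) (.g (nat_lit 1) (.e (nat_lit 271455) (nat_lit 0) .nil) .nil))) 
(.lf (nat_lit 541537) (.g (nat_lit 2862) (.e (nat_lit 98313) (nat_lit 9) (.e (nat_lit 335995) (nat_lit 1) (.e (nat_lit 57929) (nat_lit 282) (.e (nat_lit 163905) (nat_lit 12) (.e (nat_lit 426542) (nat_lit 29) (.e (nat_lit 352315) (nat_lit 23) .nil)))))) (.g (nat_lit 1) (.e (nat_lit 272370) (nat_lit 0) .nil) .nil))))) (.nd (nat_lit 8) (.nd (nat_lit 9) 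
(.lf (nat_lit 540897) (.g (nat_lit 2871) (.e (nat_lit 90170) (nat_lit 13) (.e (nat_lit 172125) (nat_lit 14) (.e (nat_lit 491537) (nat_lit 2) (.e (nat_lit 90167) (nat_lit 13) (.e (nat_lit 172126) (nat_lit 14) .nil))))) (.g (nat_lit 0) (.e (nat_lit 271261) (nat_lit 0) .nil) .nil))) 
(.lf (nat_lit 541409) (.g (nat_lit 1946) (.e (nat_lit 90185) (nat_lit 17) (.e (nat_lit 237601) (nat_lit 9) (.e (nat_lit 426436) (nat_lit 18) (.e (nat_lit 98339) (nat_lit 19) (.e (nat_lit 213031) (nat_lit 11) .nil))))) (.g (nat_lit 0) (.e (nat_lit 272012) (nat_lit 0) .nil) .nil)))) (.nd (nat_lit 9) 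
(.lf (nat_lit 541153) (.g (nat_lit 2654) (.e (nat_lit 90174) (nat_lit 14) (.e (nat_lit 180250) (nat_lit 10) (.e (nat_lit 573487) (nat_lit 14) (.e (nat_lit 73753) (nat_lit 8) (.e (nat_lit 557119) (nat_lit 18) (.e (nat_lit 2798) (nat_lit 180) (.e (nat_lit 311040) (nat_lit 17) .nil))))))) (.g (nat_lit 1) (.e (nat_lit 271658) (nat_lit 0) .nil) .nil))) 
(.lf (nat_lit 541665) (.g (nat_lit 2933) (.e (nat_lit 98332) (nat_lit 18) (.e (nat_lit 164398) (nat_lit 256) (.e (nat_lit 57374) (nat_lit 2) (.e (nat_lit 90170) (nat_lit 13) (.e (nat_lit 172067) (nat_lit 3) .nil))))) (.g (nat_lit 0) (.e (nat_lit 272748) (nat_lit 0) .nil) .nil)))))))) (.nd (nat_lit 5) (.nd (nat_lit 6) (.nd (nat_lit 7) (.nd (nat_lit 8) (.nd (nat_lit 9) 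
(.lf (nat_lit 540689) (.g (nat_lit 1826) (.e (nat_lit 90170) (nat_lit 13) (.e (nat_lit 172106) (nat_lit 10) (.e (nat_lit 434244) (nat_lit 28) (.e (nat_lit 573472) (nat_lit 12) .nil)))) (.g (nat_lit 0) (.e (nat_lit 271046) (nat_lit 0) .nil) .nil))) 
(.lf (nat_lit 541201) (.g (nat_lit 2763) (.e (nat_lit 90174) (nat_lit 14) (.e (nat_lit 180250) (nat_lit 10) (.e (nat_lit 573489) (nat_lit 14) (.e (nat_lit 73755) (nat_lit 8) (.e (nat_lit 557091) (nat_lit 12) (.e (nat_lit 163851) (nat_lit 0) (.e (nat_lit 5953) (nat_lit 322) (.e (nat_lit 57373) (nat_lit 2) .nil)))))))) (.g (nat_lit 1) (.e (nat_lit 271706) (nat_lit 0) .nil) .nil)))) (.nd (nat_lit 9) 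
(.lf (nat_lit 540945) (.g (nat_lit 2345) (.e (nat_lit 90172) (nat_lit 14) (.e (nat_lit 180244) (nat_lit 5) (.e (nat_lit 532499) (nat_lit 1) (.e (nat_lit 57688) (nat_lit 156) (.e (nat_lit 163844) (nat_lit 0) .nil))))) (.g (nat_lit 0) (.e (nat_lit 271345) (nat_lit 0) .nil) .nil))) 
(.lf (nat_lit 541457) (.g (nat_lit 1955) (.e (nat_lit 90185) (nat_lit 17) (.e (nat_lit 237619) (nat_lit 12) (.e (nat_lit 475177) (nat_lit 24) (.e (nat_lit 516124) (nat_lit 2) (.e (nat_lit 213032) (nat_lit 11) (.e (nat_lit 24603) (nat_lit 2) .nil)))))) (.g (nat_lit 1) (.e (nat_lit 272060) (nat_lit 0) .nil) .nil))))) (.nd (nat_lit 8) (.nd (nat_lit 9) 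
(.lf (nat_lit 540817) (.g (nat_lit 4757) (.e (nat_lit 90170) (nat_lit 13) (.e (nat_lit 172113) (nat_lit 10) (.e (nat_lit 434247) (nat_lit 28) (.e (nat_lit 573477) (nat_lit 12) (.e (nat_lit 57575) (nat_lit 55) (.e (nat_lit 778465) (nat_lit 11) (.e (nat_lit 24601) (nat_lit 2) .nil))))))) (.g (nat_lit 1) (.e (nat_lit 271177) (nat_lit 0) .nil) .nil))) 
(.lf (nat_lit 541329) (.g (nat_lit 2782) (.e (nat_lit 90176) (nat_lit 15) (.e (nat_lit 188440) (nat_lit 20) (.e (nat_lit 3307) (nat_lit 202) (.e (nat_lit 573477) (nat_lit 12) (.e (nat_lit 57574) (nat_lit 55) .nil))))) (.g (nat_lit 0) (.e (nat_lit 271857) (nat_lit 0) .nil) .nil)))) (.nd (nat_lit 9) 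
(.lf (nat_lit 541073) (.g (nat_lit 1687) (.e (nat_lit 90174) (nat_lit 14) (.e (nat_lit 180243) (nat_lit 5) (.e (nat_lit 532499) (nat_lit 1) (.e (nat_lit 57654) (nat_lit 152) .nil)))) (.g (nat_lit 0) (.e (nat_lit 271522) (nat_lit 0) .nil) .nil))) 
(.lf (nat_lit 541585) (.g (nat_lit 3252) (.e (nat_lit 98317) (nat_lit 9) (.e (nat_lit 335988) (nat_lit 1) (.e (nat_lit 57931) (nat_lit 282) (.e (nat_lit 163905) (nat_lit 12) (.e (nat_lit 426555) (nat_lit 32) (.e (nat_lit 376867) (nat_lit 23) .nil)))))) (.g (nat_lit 1) (.e (nat_lit 272496) (nat_lit 0) .nil) .nil)))))) (.nd (nat_lit 7) (.nd (nat_lit 8) (.nd (nat_lit 9) 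
(.lf (nat_lit 540753) (.g (nat_lit 3151) (.e (nat_lit 90170) (nat_lit 13) (.e (nat_lit 172113) (nat_lit 10) (.e (nat_lit 434245) (nat_lit 28) (.e (nat_lit 573450) (nat_lit 9) (.e (nat_lit 375) (nat_lit 32) (.e (nat_lit 426025) (nat_lit 0) (.e (nat_lit 7936) (nat_lit 402) (.e (nat_lit 1239) (nat_lit 91) .nil)))))))) (.g (nat_lit 1) (.e (nat_lit 271110) (nat_lit 0) .nil) .nil))) 
(.lf (nat_lit 541265) (.g (nat_lit 3472) (.e (nat_lit 90174) (nat_lit 14) (.e (nat_lit 180251) (nat_lit 10) (.e (nat_lit 573489) (nat_lit 14) (.e (nat_lit 73755) (nat_lit 8) (.e (nat_lit 557090) (nat_lit 12) (.e (nat_lit 163850) (nat_lit 0) (.e (nat_lit 7936) (nat_lit 322) (.e (nat_lit 57373) (nat_lit 2) .nil)))))))) (.g (nat_lit 1) (.e (nat_lit 271770) (nat_lit 0) .nil) .nil)))) (.nd (nat_lit 9) 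
(.lf (nat_lit 541009) (.g (nat_lit 4394) (.e (nat_lit 90172) (nat_lit 14) (.e (nat_lit 180250) (nat_lit 10) (.e (nat_lit 573489) (nat_lit 14) (.e (nat_lit 73755) (nat_lit 8) (.e (nat_lit 557090) (nat_lit 12) (.e (nat_lit 163843) (nat_lit 0) (.e (nat_lit 5942) (nat_lit 322) (.e (nat_lit 57375) (nat_lit 2) .nil)))))))) (.g (nat_lit 1) (.e (nat_lit 271439) (nat_lit 0) .nil) .nil))) 
(.lf (nat_lit 541521) (.g (nat_lit 2644) (.e (nat_lit 98313) (nat_lit 9) (.e (nat_lit 335986) (nat_lit 1) (.e (nat_lit 57927) (nat_lit 282) (.e (nat_lit 163905) (nat_lit 12) (.e (nat_lit 426555) (nat_lit 32) (.e (nat_lit 376869) (nat_lit 23) .nil)))))) (.g (nat_lit 1) (.e (nat_lit 272322) (nat_lit 0) .nil) .nil))))) (.nd (nat_lit 8) (.nd (nat_lit 9) 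
(.lf (nat_lit 540881) (.g (nat_lit 3691) (.e (nat_lit 90170) (nat_lit 13) (.e (nat_lit 172122) (nat_lit 13) (.e (nat_lit 483363) (nat_lit 18) (.e (nat_lit 57688) (nat_lit 156) (.e (nat_lit 163907) (nat_lit 12) (.e (nat_lit 426428) (nat_lit 17) .nil)))))) (.g (nat_lit 1) (.e (nat_lit 271245) (nat_lit 0) .nil) .nil))) 
(.lf (nat_lit 541393) (.g (nat_lit 3892) (.e (nat_lit 90178) (nat_lit 15) (.e (nat_lit 188452) (nat_lit 23) (.e (nat_lit 204846) (nat_lit 24) (.e (nat_lit 319533) (nat_lit 16) (.e (nat_lit 294656) (nat_lit 2) .nil))))) (.g (nat_lit 1) (.e (nat_lit 271938) (nat_lit 0) .nil) .nil)))) (.nd (nat_lit 9) 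
(.lf (nat_lit 541137) (.g (nat_lit 2579) (.e (nat_lit 90174) (nat_lit 14) (.e (nat_lit 180243) (nat_lit 5) (.e (nat_lit 532515) (nat_lit 3) (.e (nat_lit 114719) (nat_lit 23) (.e (nat_lit 98320) (nat_lit 17) .nil))))) (.g (nat_lit 0) (.e (nat_lit 271641) (nat_lit 0) .nil) .nil))) 
(.lf (nat_lit 541649) (.g (nat_lit 1630) (.e (nat_lit 98332) (nat_lit 18) (.e (nat_lit 164182) (nat_lit 154) (.e (nat_lit 57379) (nat_lit 3) (.e (nat_lit 98341) (nat_lit 20) .nil)))) (.g (nat_lit 0) (.e (nat_lit 272699) (nat_lit 0) .nil) .nil))))))) (.nd (nat_lit 6) (.nd (nat_lit 7) (.nd (nat_lit 8) (.nd (nat_lit 9) 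
(.lf (nat_lit 540721) (.g (nat_lit 2747) (.e (nat_lit 90170) (nat_lit 13) (.e (nat_lit 172113) (nat_lit 10) (.e (nat_lit 434231) (nat_lit 23) (.e (nat_lit 532490) (nat_lit 0) (.e (nat_lit 6114) (nat_lit 332) .nil))))) (.g (nat_lit 0) (.e (nat_lit 271078) (nat_lit 0) .nil) .nil))) 
(.lf (nat_lit 541233) (.g (nat_lit 3949) (.e (nat_lit 90174) (nat_lit 14) (.e (nat_lit 180251) (nat_lit 10) (.e (nat_lit 573489) (nat_lit 14) (.e (nat_lit 73755) (nat_lit 8) (.e (nat_lit 557075) (nat_lit 9) (.e (nat_lit 2601) (nat_lit 163) (.e (nat_lit 164403) (nat_lit 256) (.e (nat_lit 57373) (nat_lit 2) .nil)))))))) (.g (nat_lit 1) (.e (nat_lit 271738) (nat_lit 0) .nil) .nil)))) 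
(.nd (nat_lit 9) 
(.lf (nat_lit 540977) (.g (nat_lit 3248) (.e (nat_lit 90172) (nat_lit 14) (.e (nat_lit 180250) (nat_lit 10) (.e (nat_lit 573487) (nat_lit 14) (.e (nat_lit 73753) (nat_lit 8) (.e (nat_lit 557091) (nat_lit 12) (.e (nat_lit 163840) (nat_lit 0) (.e (nat_lit 5943) (nat_lit 322) (.e (nat_lit 57375) (nat_lit 2) .nil)))))))) (.g (nat_lit 1) (.e (nat_lit 271407) (nat_lit 0) .nil) .nil))) 
(.lf (nat_lit 541489) (.g (nat_lit 1093) (.e (nat_lit 90187) (nat_lit 18) (.e (nat_lit 2777) (nat_lit 178) (.e (nat_lit 286743) (nat_lit 9) .nil))) (.g (nat_lit 0) (.e (nat_lit 272107) (nat_lit 0) .nil) .nil))))) (.nd (nat_lit 8) (.nd (nat_lit 9) 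
(.lf (nat_lit 540849) (.g (nat_lit 3082) (.e (nat_lit 90170) (nat_lit 13) (.e (nat_lit 172113) (nat_lit 10) (.e (nat_lit 434248) (nat_lit 28) (.e (nat_lit 573475) (nat_lit 12) (.e (nat_lit 57351) (nat_lit 0) (.e (nat_lit 7261) (nat_lit 384) (.e (nat_lit 57412) (nat_lit 12) (.e (nat_lit 336008) (nat_lit 2) .nil)))))))) (.g (nat_lit 1) (.e (nat_lit 271211) (nat_lit 0) .nil) .nil))) 
(.lf (nat_lit 541361) (.g (nat_lit 3107) (.e (nat_lit 90176) (nat_lit 15) (.e (nat_lit 188452) (nat_lit 23) (.e (nat_lit 204846) (nat_lit 24) (.e (nat_lit 319533) (nat_lit 16) (.e (nat_lit 294656) (nat_lit 2) .nil))))) (.g (nat_lit 1) (.e (nat_lit 271894) (nat_lit 0) .nil) .nil)))) (.nd (nat_lit 9) 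
(.lf (nat_lit 541105) (.g (nat_lit 2462) (.e (nat_lit 90174) (nat_lit 14) (.e (nat_lit 180243) (nat_lit 5) (.e (nat_lit 532501) (nat_lit 1) (.e (nat_lit 57692) (nat_lit 156) (.e (nat_lit 163875) (nat_lit 3) (.e (nat_lit 204837) (nat_lit 20) (.e (nat_lit 114715) (nat_lit 22) .nil))))))) (.g (nat_lit 1) (.e (nat_lit 271583) (nat_lit 0) .nil) .nil))) 
(.lf (nat_lit 541617) (.g (nat_lit 1704) (.e (nat_lit 98320) (nat_lit 17) (.e (nat_lit 7593) (nat_lit 407) (.e (nat_lit 73746) (nat_lit 3) (.e (nat_lit 516120) (nat_lit 1) (.e (nat_lit 164427) (nat_lit 278) .nil))))) (.g (nat_lit 0) (.e (nat_lit 272627) (nat_lit 0) .nil) .nil)))))) (.nd (nat_lit 7) (.nd (nat_lit 8) (.nd (nat_lit 9) 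
(.lf (nat_lit 540785) (.g (nat_lit 2499) (.e (nat_lit 90170) (nat_lit 13) (.e (nat_lit 172113) (nat_lit 10) (.e (nat_lit 434245) (nat_lit 28) (.e (nat_lit 573474) (nat_lit 12) (.e (nat_lit 57347) (nat_lit 0) (.e (nat_lit 7266) (nat_lit 384) (.e (nat_lit 57412) (nat_lit 12) (.e (nat_lit 336001) (nat_lit 2) .nil)))))))) (.g (nat_lit 1) (.e (nat_lit 271142) (nat_lit 0) .nil) .nil))) 
(.lf (nat_lit 541297) (.g (nat_lit 2947) (.e (nat_lit 90175) (nat_lit 15) (.e (nat_lit 188452) (nat_lit 23) (.e (nat_lit 204846) (nat_lit 24) (.e (nat_lit 319511) (nat_lit 10) .nil)))) (.g (nat_lit 0) (.e (nat_lit 271816) (nat_lit 0) .nil) .nil)))) (.nd (nat_lit 9) 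
(.lf (nat_lit 541041) (.g (nat_lit 3259) (.e (nat_lit 90173) (nat_lit 14) (.e (nat_lit 180251) (nat_lit 10) (.e (nat_lit 573489) (nat_lit 14) (.e (nat_lit 73755) (nat_lit 8) (.e (nat_lit 557090) (nat_lit 12) (.e (nat_lit 163844) (nat_lit 0) (.e (nat_lit 5943) (nat_lit 322) (.e (nat_lit 57375) (nat_lit 2) .nil)))))))) (.g (nat_lit 1) (.e (nat_lit 271482) (nat_lit 0) .nil) .nil))) 
(.lf (nat_lit 541553) (.g (nat_lit 814) (.e (nat_lit 98315) (nat_lit 9) (.e (nat_lit 335998) (nat_lit 1) (.e (nat_lit 57926) (nat_lit 282) .nil))) (.g (nat_lit 0) (.e (nat_lit 272434) (nat_lit 0) .nil) .nil))))) (.nd (nat_lit 8) (.nd (nat_lit 9) 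
(.lf (nat_lit 540913) (.g (nat_lit 2224) (.e (nat_lit 90172) (nat_lit 14) (.e (nat_lit 180243) (nat_lit 5) (.e (nat_lit 532499) (nat_lit 1) (.e (nat_lit 57654) (nat_lit 152) .nil)))) (.g (nat_lit 0) (.e (nat_lit 271281) (nat_lit 0) .nil) .nil))) 
(.lf (nat_lit 541425) (.g (nat_lit 1918) (.e (nat_lit 90185) (nat_lit 17) (.e (nat_lit 237616) (nat_lit 12) (.e (nat_lit 475177) (nat_lit 24) (.e (nat_lit 516097) (nat_lit 0) (.e (nat_lit 3649) (nat_lit 227) (.e (nat_lit 778462) (nat_lit 11) (.e (nat_lit 24604) (nat_lit 2) .nil))))))) (.g (nat_lit 1) (.e (nat_lit 272028) (nat_lit 0) .nil) .nil)))) (.nd (nat_lit 9) 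
(.lf (nat_lit 541169) (.g (nat_lit 3727) (.e (nat_lit 90174) (nat_lit 14) (.e (nat_lit 180250) (nat_lit 10) (.e (nat_lit 573489) (nat_lit 14) (.e (nat_lit 73755) (nat_lit 8) (.e (nat_lit 557067) (nat_lit 9) (.e (nat_lit 2603) (nat_lit 163) (.e (nat_lit 164399) (nat_lit 256) (.e (nat_lit 57373) (nat_lit 2) .nil)))))))) (.g (nat_lit 1) (.e (nat_lit 271674) (nat_lit 0) .nil) .nil))) 
(.lf (nat_lit 541681) (.g (nat_lit 3432) (.e (nat_lit 98333) (nat_lit 18) (.e (nat_lit 164179) (nat_lit 154) (.e (nat_lit 57379) (nat_lit 3) (.e (nat_lit 98342) (nat_lit 20) (.e (nat_lit 221215) (nat_lit 23) (.e (nat_lit 204861) (nat_lit 26) (.e (nat_lit 336025) (nat_lit 3) .nil))))))) (.g (nat_lit 1) (.e (nat_lit 272782) (nat_lit 0) .nil) .nil))))))))) 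
(.nd (nat_lit 4) (.nd (nat_lit 5) (.nd (nat_lit 6) (.nd (nat_lit 7) (.nd (nat_lit 8) 
(.nd (nat_lit 9) 
(.lf (nat_lit 540681) (.g (nat_lit 2519) (.e (nat_lit 90170) (nat_lit 13) (.e (nat_lit 172106) (nat_lit 10) (.e (nat_lit 434244) (nat_lit 28) (.e (nat_lit 573458) (nat_lit 9) (.e (nat_lit 426) (nat_lit 32) (.e (nat_lit 426024) (nat_lit 0) (.e (nat_lit 7936) (nat_lit 402) (.e (nat_lit 1237) (nat_lit 91) .nil)))))))) (.g (nat_lit 1) (.e (nat_lit 271038) (nat_lit 0) .nil) .nil))) 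
(.lf (nat_lit 541193) (.g (nat_lit 2889) (.e (nat_lit 90174) (nat_lit 14) (.e (nat_lit 180250) (nat_lit 10) (.e (nat_lit 573489) (nat_lit 14) (.e (nat_lit 73755) (nat_lit 8) (.e (nat_lit 557091) (nat_lit 12) (.e (nat_lit 163840) (nat_lit 0) (.e (nat_lit 5951) (nat_lit 322) (.e (nat_lit 57371) (nat_lit 2) .nil)))))))) (.g (nat_lit 1) (.e (nat_lit 271698) (nat_lit 0) .nil) .nil)))) (.nd (nat_lit 9) 
(.lf (nat_lit 540937) (.g (nat_lit 2638) (.e (nat_lit 90172) (nat_lit 14) (.e (nat_lit 180244) (nat_lit 5) (.e (nat_lit 532499) (nat_lit 1) (.e (nat_lit 57655) (nat_lit 152) (.e (nat_lit 7936) (nat_lit 163) (.e (nat_lit 163962) (nat_lit 25) (.e (nat_lit 532513) (nat_lit 3) (.e (nat_lit 114714) (nat_lit 22) .nil)))))))) (.g (nat_lit 1) (.e (nat_lit 271332) (nat_lit 0) .nil) .nil))) 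
(.lf (nat_lit 541449) (.g (nat_lit 1985) (.e (nat_lit 90185) (nat_lit 17) (.e (nat_lit 237619) (nat_lit 12) (.e (nat_lit 475177) (nat_lit 24) (.e (nat_lit 516097) (nat_lit 0) (.e (nat_lit 3663) (nat_lit 227) (.e (nat_lit 778462) (nat_lit 11) (.e (nat_lit 24604) (nat_lit 2) .nil))))))) (.g (nat_lit 1) (.e (nat_lit 272052) (nat_lit 0) .nil) .nil))))) (.nd (nat_lit 8) (.nd (nat_lit 9) 
(.lf (nat_lit 540809) (.g (nat_lit 2093) (.e (nat_lit 90170) (nat_lit 13) (.e (nat_lit 172113) (nat_lit 10) (.e (nat_lit 434247) (nat_lit 28) (.e (nat_lit 573474) (nat_lit 12) (.e (nat_lit 57572) (nat_lit 54) .nil))))) (.g (nat_lit 0) (.e (nat_lit 271168) (nat_lit 0) .nil) .nil))) 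
(.lf (nat_lit 541321) (.g (nat_lit 3212) (.e (nat_lit 90176) (nat_lit 15) (.e (nat_lit 188439) (nat_lit 20) (.e (nat_lit 3271) (nat_lit 199) (.e (nat_lit 548913) (nat_lit 18) (.e (nat_lit 172124) (nat_lit 14) (.e (nat_lit 491537) (nat_lit 2) .nil)))))) (.g (nat_lit 1) (.e (nat_lit 271847) (nat_lit 0) .nil) .nil)))) (.nd (nat_lit 9) 
(.lf (nat_lit 541065) (.g (nat_lit 3101) (.e (nat_lit 90173) (nat_lit 14) (.e (nat_lit 180252) (nat_lit 10) (.e (nat_lit 573489) (nat_lit 14) (.e (nat_lit 73755) (nat_lit 8) (.e (nat_lit 557090) (nat_lit 12) (.e (nat_lit 163852) (nat_lit 0) (.e (nat_lit 5951) (nat_lit 322) (.e (nat_lit 57371) (nat_lit 2) .nil)))))))) (.g (nat_lit 1) (.e (nat_lit 271513) (nat_lit 0) .nil) .nil))) 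
(.lf (nat_lit 541577) (.g (nat_lit 2867) (.e (nat_lit 98317) (nat_lit 9) (.e (nat_lit 335988) (nat_lit 1) (.e (nat_lit 57926) (nat_lit 282) (.e (nat_lit 163905) (nat_lit 12) (.e (nat_lit 426555) (nat_lit 32) (.e (nat_lit 376869) (nat_lit 23) .nil)))))) (.g (nat_lit 1) (.e (nat_lit 272477) (nat_lit 0) .nil) .nil)))))) (.nd (nat_lit 7) (.nd (nat_lit 8) (.nd (nat_lit 9) 
(.lf (nat_lit 540745) (.g (nat_lit 1853) (.e (nat_lit 90170) (nat_lit 13) (.e (nat_lit 172113) (nat_lit 10) (.e (nat_lit 434245) (nat_lit 28) (.e (nat_lit 573449) (nat_lit 9) (.e (nat_lit 433) (nat_lit 32) .nil))))) (.g (nat_lit 0) (.e (nat_lit 271102) (nat_lit 0) .nil) .nil))) 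
(.lf (nat_lit 541257) (.g (nat_lit 3489) (.e (nat_lit 90174) (nat_lit 14) (.e (nat_lit 180251) (nat_lit 10) (.e (nat_lit 573489) (nat_lit 14) (.e (nat_lit 73755) (nat_lit 8) (.e (nat_lit 557090) (nat_lit 12) (.e (nat_lit 163845) (nat_lit 0) (.e (nat_lit 5934) (nat_lit 322) (.e (nat_lit 57372) (nat_lit 2) .nil)))))))) (.g (nat_lit 1) (.e (nat_lit 271762) (nat_lit 0) .nil) .nil)))) (.nd (nat_lit 9) 
(.lf (nat_lit 541001) (.g (nat_lit 3661) (.e (nat_lit 90172) (nat_lit 14) (.e (nat_lit 180250) (nat_lit 10) (.e (nat_lit 573489) (nat_lit 14) (.e (nat_lit 73755) (nat_lit 8) (.e (nat_lit 557090) (nat_lit 12) (.e (nat_lit 163841) (nat_lit 0) (.e (nat_lit 5940) (nat_lit 322) (.e (nat_lit 57375) (nat_lit 2) .nil)))))))) (.g (nat_lit 1) (.e (nat_lit 271431) (nat_lit 0) .nil) .nil))) 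
(.lf (nat_lit 541513) (.g (nat_lit 544) (.e (nat_lit 98312) (nat_lit 9) (.e (nat_lit 336076) (nat_lit 9) (.e (nat_lit 336454) (nat_lit 34) .nil))) (.g (nat_lit 0) (.e (nat_lit 272310) (nat_lit 0) .nil) .nil))))) (.nd (nat_lit 8) (.nd (nat_lit 9) 
(.lf (nat_lit 540873) (.g (nat_lit 3161) (.e (nat_lit 90170) (nat_lit 13) (.e (nat_lit 172121) (nat_lit 13) (.e (nat_lit 483363) (nat_lit 18) (.e (nat_lit 57686) (nat_lit 156) (.e (nat_lit 163902) (nat_lit 12) (.e (nat_lit 426428) (nat_lit 17) .nil)))))) (.g (nat_lit 1) (.e (nat_lit 271237) (nat_lit 0) .nil) .nil))) 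
(.lf (nat_lit 541385) (.g (nat_lit 3144) (.e (nat_lit 90178) (nat_lit 15) (.e (nat_lit 188440) (nat_lit 20) (.e (nat_lit 3307) (nat_lit 202) (.e (nat_lit 573477) (nat_lit 12) (.e (nat_lit 57575) (nat_lit 55) (.e (nat_lit 778463) (nat_lit 11) (.e (nat_lit 24603) (nat_lit 2) .nil))))))) (.g (nat_lit 1) (.e (nat_lit 271930) (nat_lit 0) .nil) .nil)))) (.nd (nat_lit 9) 
(.lf (nat_lit 541129) (.g (nat_lit 2174) (.e (nat_lit 90174) (nat_lit 14) (.e (nat_lit 180243) (nat_lit 5) (.e (nat_lit 532513) (nat_lit 3) (.e (nat_lit 114719) (nat_lit 23) (.e (nat_lit 98331) (nat_lit 17) .nil))))) (.g (nat_lit 0) (.e (nat_lit 271633) (nat_lit 0) .nil) .nil))) 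
(.lf (nat_lit 541641) (.g (nat_lit 3069) (.e (nat_lit 98325) (nat_lit 17) (.e (nat_lit 3719) (nat_lit 227) (.e (nat_lit 778466) (nat_lit 11) (.e (nat_lit 24604) (nat_lit 2) (.e (nat_lit 90185) (nat_lit 17) (.e (nat_lit 237605) (nat_lit 9) (.e (nat_lit 433920) (nat_lit 18) .nil))))))) (.g (nat_lit 1) (.e (nat_lit 272673) (nat_lit 0) .nil) .nil))))))) 
(.nd (nat_lit 6) (.nd (nat_lit 7) (.nd (nat_lit 8) (.nd (nat_lit 9) 
(.lf (nat_lit 540713) (.g (nat_lit 4496) (.e (nat_lit 90170) (nat_lit 13) (.e (nat_lit 172106) (nat_lit 10) (.e (nat_lit 434246) (nat_lit 28) (.e (nat_lit 573477) (nat_lit 12) (.e (nat_lit 57574) (nat_lit 55) (.e (nat_lit 778466) (nat_lit 11) (.e (nat_lit 24604) (nat_lit 2) .nil))))))) (.g (nat_lit 1) (.e (nat_lit 271070) (nat_lit 0) .nil) .nil))) 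
(.lf (nat_lit 541225) (.g (nat_lit 3096) (.e (nat_lit 90174) (nat_lit 14) (.e (nat_lit 180251) (nat_lit 10) (.e (nat_lit 573489) (nat_lit 14) (.e (nat_lit 73755) (nat_lit 8) (.e (nat_lit 557067) (nat_lit 9) (.e (nat_lit 2606) (nat_lit 163) (.e (nat_lit 164401) (nat_lit 256) (.e (nat_lit 57373) (nat_lit 2) .nil)))))))) (.g (nat_lit 1) (.e (nat_lit 271730) (nat_lit 0) .nil) .nil)))) 
(.nd (nat_lit 9) 
(.lf (nat_lit 540969) (.g (nat_lit 1953) (.e (nat_lit 90172) (nat_lit 14) (.e (nat_lit 180250) (nat_lit 10) (.e (nat_lit 573487) (nat_lit 14) (.e (nat_lit 73748) (nat_lit 3) .nil)))) (.g (nat_lit 0) (.e (nat_lit 271399) (nat_lit 0) .nil) .nil))) 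
(.lf (nat_lit 541481) (.g (nat_lit 2419) (.e (nat_lit 90185) (nat_lit 17) (.e (nat_lit 237621) (nat_lit 13) (.e (nat_lit 483341) (nat_lit 9) (.e (nat_lit 426099) (nat_lit 1) (.e (nat_lit 164399) (nat_lit 256) (.e (nat_lit 57372) (nat_lit 2) .nil)))))) (.g (nat_lit 1) (.e (nat_lit 272084) (nat_lit 0) .nil) .nil))))) (.nd (nat_lit 8) (.nd (nat_lit 9) 
(.lf (nat_lit 540841) (.g (nat_lit 2150) (.e (nat_lit 90170) (nat_lit 13) (.e (nat_lit 172113) (nat_lit 10) (.e (nat_lit 434248) (nat_lit 28) (.e (nat_lit 573473) (nat_lit 12) (.e (nat_lit 57353) (nat_lit 0) (.e (nat_lit 7265) (nat_lit 384) (.e (nat_lit 57406) (nat_lit 12) (.e (nat_lit 343808) (nat_lit 2) .nil)))))))) (.g (nat_lit 1) (.e (nat_lit 271203) (nat_lit 0) .nil) .nil))) 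
(.lf (nat_lit 541353) (.g (nat_lit 3443) (.e (nat_lit 90176) (nat_lit 15) (.e (nat_lit 188450) (nat_lit 23) (.e (nat_lit 204848) (nat_lit 25) (.e (nat_lit 327717) (nat_lit 17) (.e (nat_lit 294928) (nat_lit 2) .nil))))) (.g (nat_lit 1) (.e (nat_lit 271884) (nat_lit 0) .nil) .nil)))) (.nd (nat_lit 9) 
(.lf (nat_lit 541097) (.g (nat_lit 2669) (.e (nat_lit 90174) (nat_lit 14) (.e (nat_lit 180243) (nat_lit 5) (.e (nat_lit 532499) (nat_lit 1) (.e (nat_lit 57692) (nat_lit 156) (.e (nat_lit 163874) (nat_lit 3) (.e (nat_lit 204837) (nat_lit 20) (.e (nat_lit 114715) (nat_lit 22) .nil))))))) (.g (nat_lit 1) (.e (nat_lit 271564) (nat_lit 0) .nil) .nil))) 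
(.lf (nat_lit 541609) (.g (nat_lit 1662) (.e (nat_lit 98319) (nat_lit 17) (.e (nat_lit 7593) (nat_lit 407) (.e (nat_lit 73748) (nat_lit 3) (.e (nat_lit 516139) (nat_lit 7) (.e (nat_lit 409640) (nat_lit 17) .nil))))) (.g (nat_lit 0) (.e (nat_lit 272613) (nat_lit 0) .nil) .nil)))))) (.nd (nat_lit 7) (.nd (nat_lit 8) (.nd (nat_lit 9) 
(.lf (nat_lit 540777) (.g (nat_lit 1901) (.e (nat_lit 90170) (nat_lit 13) (.e (nat_lit 172113) (nat_lit 10) (.e (nat_lit 434245) (nat_lit 28) (.e (nat_lit 573473) (nat_lit 12) (.e (nat_lit 57353) (nat_lit 0) (.e (nat_lit 7265) (nat_lit 384) (.e (nat_lit 57406) (nat_lit 12) (.e (nat_lit 343808) (nat_lit 2) .nil)))))))) (.g (nat_lit 1) (.e (nat_lit 271134) (nat_lit 0) .nil) .nil))) 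
(.lf (nat_lit 541289) (.g (nat_lit 3624) (.e (nat_lit 90175) (nat_lit 15) (.e (nat_lit 188440) (nat_lit 20) (.e (nat_lit 3307) (nat_lit 202) (.e (nat_lit 573477) (nat_lit 12) (.e (nat_lit 57575) (nat_lit 55) (.e (nat_lit 778466) (nat_lit 11) (.e (nat_lit 24603) (nat_lit 2) .nil))))))) (.g (nat_lit 1) (.e (nat_lit 271796) (nat_lit 0) .nil) .nil)))) (.nd (nat_lit 9) 
(.lf (nat_lit 541033) (.g (nat_lit 2449) (.e (nat_lit 90172) (nat_lit 14) (.e (nat_lit 180252) (nat_lit 10) (.e (nat_lit 573488) (nat_lit 14) (.e (nat_lit 73755) (nat_lit 8) (.e (nat_lit 557090) (nat_lit 12) .nil))))) (.g (nat_lit 0) (.e (nat_lit 271463) (nat_lit 0) .nil) .nil))) 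
(.lf (nat_lit 541545) (.g (nat_lit 651) (.e (nat_lit 98313) (nat_lit 9) (.e (nat_lit 336027) (nat_lit 3) (.e (nat_lit 98325) (nat_lit 17) .nil))) (.g (nat_lit 0) (.e (nat_lit 272406) (nat_lit 0) .nil) .nil))))) (.nd (nat_lit 8) (.nd (nat_lit 9) 
(.lf (nat_lit 540905) (.g (nat_lit 3443) (.e (nat_lit 90171) (nat_lit 14) (.e (nat_lit 180251) (nat_lit 10) (.e (nat_lit 573489) (nat_lit 14) (.e (nat_lit 73755) (nat_lit 8) (.e (nat_lit 557090) (nat_lit 12) (.e (nat_lit 163844) (nat_lit 0) (.e (nat_lit 5941) (nat_lit 322) (.e (nat_lit 57374) (nat_lit 2) .nil)))))))) (.g (nat_lit 1) (.e (nat_lit 271269) (nat_lit 0) .nil) .nil))) 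
(.lf (nat_lit 541417) (.g (nat_lit 3207) (.e (nat_lit 90185) (nat_lit 17) (.e (nat_lit 237605) (nat_lit 9) (.e (nat_lit 426436) (nat_lit 18) (.e (nat_lit 98338) (nat_lit 19) (.e (nat_lit 213032) (nat_lit 11) (.e (nat_lit 24604) (nat_lit 2) .nil)))))) (.g (nat_lit 1) (.e (nat_lit 272020) (nat_lit 0) .nil) .nil)))) (.nd (nat_lit 9) 
(.lf (nat_lit 541161) (.g (nat_lit 2758) (.e (nat_lit 90174) (nat_lit 14) (.e (nat_lit 180250) (nat_lit 10) (.e (nat_lit 573489) (nat_lit 14) (.e (nat_lit 73755) (nat_lit 8) (.e (nat_lit 557065) (nat_lit 9) (.e (nat_lit 2604) (nat_lit 163) (.e (nat_lit 164398) (nat_lit 256) (.e (nat_lit 57373) (nat_lit 2) .nil)))))))) (.g (nat_lit 1) (.e (nat_lit 271666) (nat_lit 0) .nil) .nil))) 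
(.lf (nat_lit 541673) (.g (nat_lit 3458) (.e (nat_lit 98333) (nat_lit 18) (.e (nat_lit 164177) (nat_lit 154) (.e (nat_lit 57379) (nat_lit 3) (.e (nat_lit 98341) (nat_lit 20) (.e (nat_lit 221215) (nat_lit 23) (.e (nat_lit 204861) (nat_lit 26) (.e (nat_lit 336026) (nat_lit 3) .nil))))))) (.g (nat_lit 1) (.e (nat_lit 272760) (nat_lit 0) .nil) .nil)))))))) 
(.nd (nat_lit 5) (.nd (nat_lit 6) (.nd (nat_lit 7) (.nd (nat_lit 8) (.nd (nat_lit 9) 
(.lf (nat_lit 540697) (.g (nat_lit 2701) (.e (nat_lit 90170) (nat_lit 13) (.e (nat_lit 172106) (nat_lit 10) (.e (nat_lit 434244) (nat_lit 28) (.e (nat_lit 573474) (nat_lit 12) (.e (nat_lit 57347) (nat_lit 0) (.e (nat_lit 7266) (nat_lit 384) (.e (nat_lit 57412) (nat_lit 12) (.e (nat_lit 336001) (nat_lit 2) .nil)))))))) (.g (nat_lit 1) (.e (nat_lit 271054) (nat_lit 0) .nil) .nil))) 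
(.lf (nat_lit 541209) (.g (nat_lit 3873) (.e (nat_lit 90174) (nat_lit 14) (.e (nat_lit 180250) (nat_lit 10) (.e (nat_lit 573489) (nat_lit 14) (.e (nat_lit 73755) (nat_lit 8) (.e (nat_lit 557119) (nat_lit 18) (.e (nat_lit 2797) (nat_lit 180) (.e (nat_lit 311040) (nat_lit 17) .nil))))))) (.g (nat_lit 1) (.e (nat_lit 271714) (nat_lit 0) .nil) .nil)))) (.nd (nat_lit 9) 
(.lf (nat_lit 540953) (.g (nat_lit 1835) (.e (nat_lit 90172) (nat_lit 14) (.e (nat_lit 180244) (nat_lit 5) (.e (nat_lit 532504) (nat_lit 1) (.e (nat_lit 57651) (nat_lit 152) .nil)))) (.g (nat_lit 0) (.e (nat_lit 271373) (nat_lit 0) .nil) .nil))) 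
(.lf (nat_lit 541465) (.g (nat_lit 2618) (.e (nat_lit 90185) (nat_lit 17) (.e (nat_lit 237619) (nat_lit 12) (.e (nat_lit 475177) (nat_lit 24) (.e (nat_lit 516127) (nat_lit 2) (.e (nat_lit 213030) (nat_lit 11) (.e (nat_lit 24604) (nat_lit 2) .nil)))))) (.g (nat_lit 1) (.e (nat_lit 272068) (nat_lit 0) .nil) .nil))))) (.nd (nat_lit 8) (.nd (nat_lit 9) 
(.lf (nat_lit 540825) (.g (nat_lit 1957) (.e (nat_lit 90170) (nat_lit 13) (.e (nat_lit 172113) (nat_lit 10) (.e (nat_lit 434248) (nat_lit 28) (.e (nat_lit 573451) (nat_lit 9) .nil)))) (.g (nat_lit 0) (.e (nat_lit 271187) (nat_lit 0) .nil) .nil))) 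
(.lf (nat_lit 541337) (.g (nat_lit 866) (.e (nat_lit 90176) (nat_lit 15) (.e (nat_lit 188450) (nat_lit 23) (.e (nat_lit 204830) (nat_lit 18) (.e (nat_lit 65280) (nat_lit 233) .nil)))) (.g (nat_lit 0) (.e (nat_lit 271866) (nat_lit 0) .nil) .nil)))) (.nd (nat_lit 9) 
(.lf (nat_lit 541081) (.g (nat_lit 2830) (.e (nat_lit 90174) (nat_lit 14) (.e (nat_lit 180243) (nat_lit 5) (.e (nat_lit 532499) (nat_lit 1) (.e (nat_lit 57688) (nat_lit 156) (.e (nat_lit 163843) (nat_lit 0) (.e (nat_lit 3230) (nat_lit 197) (.e (nat_lit 532514) (nat_lit 3) (.e (nat_lit 114716) (nat_lit 22) .nil)))))))) (.g (nat_lit 1) (.e (nat_lit 271540) (nat_lit 0) .nil) .nil))) 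
(.lf (nat_lit 541593) (.g (nat_lit 2205) (.e (nat_lit 98317) (nat_lit 9) (.e (nat_lit 335995) (nat_lit 1) (.e (nat_lit 57931) (nat_lit 282) (.e (nat_lit 163905) (nat_lit 12) (.e (nat_lit 426555) (nat_lit 32) (.e (nat_lit 376866) (nat_lit 23) .nil)))))) (.g (nat_lit 1) (.e (nat_lit 272514) (nat_lit 0) .nil) .nil)))))) (.nd (nat_lit 7) (.nd (nat_lit 8) (.nd (nat_lit 9) 
(.lf (nat_lit 540761) (.g (nat_lit 2438) (.e (nat_lit 90170) (nat_lit 13) (.e (nat_lit 172113) (nat_lit 10) (.e (nat_lit 434245) (nat_lit 28) (.e (nat_lit 573469) (nat_lit 11) (.e (nat_lit 16473) (nat_lit 14) (.e (nat_lit 499456) (nat_lit 2) .nil)))))) (.g (nat_lit 1) (.e (nat_lit 271118) (nat_lit 0) .nil) .nil))) 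
(.lf (nat_lit 541273) (.g (nat_lit 3515) (.e (nat_lit 90174) (nat_lit 14) (.e (nat_lit 180251) (nat_lit 10) (.e (nat_lit 573489) (nat_lit 14) (.e (nat_lit 73755) (nat_lit 8) (.e (nat_lit 557090) (nat_lit 12) (.e (nat_lit 171776) (nat_lit 0) (.e (nat_lit 5953) (nat_lit 322) (.e (nat_lit 57373) (nat_lit 2) .nil)))))))) (.g (nat_lit 1) (.e (nat_lit 271778) (nat_lit 0) .nil) .nil)))) (.nd (nat_lit 9) 
(.lf (nat_lit 541017) (.g (nat_lit 4002) (.e (nat_lit 90172) (nat_lit 14) (.e (nat_lit 180250) (nat_lit 10) (.e (nat_lit 573489) (nat_lit 14) (.e (nat_lit 73755) (nat_lit 8) (.e (nat_lit 557090) (nat_lit 12) (.e (nat_lit 163850) (nat_lit 0) (.e (nat_lit 5939) (nat_lit 322) (.e (nat_lit 57372) (nat_lit 2) .nil)))))))) (.g (nat_lit 1) (.e (nat_lit 271447) (nat_lit 0) .nil) .nil))) 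
(.lf (nat_lit 541529) (.g (nat_lit 3128) (.e (nat_lit 98313) (nat_lit 9) (.e (nat_lit 335988) (nat_lit 1) (.e (nat_lit 57926) (nat_lit 282) (.e (nat_lit 163907) (nat_lit 12) (.e (nat_lit 426555) (nat_lit 32) (.e (nat_lit 376869) (nat_lit 23) .nil)))))) (.g (nat_lit 1) (.e (nat_lit 272340) (nat_lit 0) .nil) .nil))))) (.nd (nat_lit 8) (.nd (nat_lit 9) 
(.lf (nat_lit 540889) (.g (nat_lit 3010) (.e (nat_lit 90170) (nat_lit 13) (.e (nat_lit 172123) (nat_lit 13) (.e (nat_lit 483341) (nat_lit 9) (.e (nat_lit 426107) (nat_lit 1) (.e (nat_lit 164403) (nat_lit 256) .nil))))) (.g (nat_lit 0) (.e (nat_lit 271253) (nat_lit 0) .nil) .nil))) 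
(.lf (nat_lit 541401) (.g (nat_lit 3316) (.e (nat_lit 90185) (nat_lit 17) (.e (nat_lit 237585) (nat_lit 1) (.e (nat_lit 164332) (nat_lit 230) (.e (nat_lit 163874) (nat_lit 3) (.e (nat_lit 204830) (nat_lit 18) (.e (nat_lit 57908) (nat_lit 278) (.e (nat_lit 2553) (nat_lit 159) (.e (nat_lit 24604) (nat_lit 2) .nil)))))))) (.g (nat_lit 1) (.e (nat_lit 271985) (nat_lit 0) .nil) .nil)))) 
(.nd (nat_lit 9) 
(.lf (nat_lit 541145) (.g (nat_lit 2174) (.e (nat_lit 90174) (nat_lit 14) (.e (nat_lit 180250) (nat_lit 10) (.e (nat_lit 573473) (nat_lit 12) (.e (nat_lit 57504) (nat_lit 38) (.e (nat_lit 639002) (nat_lit 11) .nil))))) (.g (nat_lit 0) (.e (nat_lit 271649) (nat_lit 0) .nil) .nil))) 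
(.lf (nat_lit 541657) (.g (nat_lit 788) (.e (nat_lit 98332) (nat_lit 18) (.e (nat_lit 164327) (nat_lit 230) (.e (nat_lit 163903) (nat_lit 12) .nil))) (.g (nat_lit 0) (.e (nat_lit 272729) (nat_lit 0) .nil) .nil))))))) (.nd (nat_lit 6) (.nd (nat_lit 7) (.nd (nat_lit 8) (.nd (nat_lit 9) 
(.lf (nat_lit 540729) (.g (nat_lit 2099) (.e (nat_lit 90170) (nat_lit 13) (.e (nat_lit 172113) (nat_lit 10) (.e (nat_lit 434242) (nat_lit 28) (.e (nat_lit 573469) (nat_lit 11) (.e (nat_lit 16473) (nat_lit 14) (.e (nat_lit 491536) (nat_lit 2) .nil)))))) (.g (nat_lit 1) (.e (nat_lit 271086) (nat_lit 0) .nil) .nil))) 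
(.lf (nat_lit 541241) (.g (nat_lit 3436) (.e (nat_lit 90174) (nat_lit 14) (.e (nat_lit 180251) (nat_lit 10) (.e (nat_lit 573489) (nat_lit 14) (.e (nat_lit 73755) (nat_lit 8) (.e (nat_lit 557090) (nat_lit 12) (.e (nat_lit 163840) (nat_lit 0) (.e (nat_lit 5943) (nat_lit 322) (.e (nat_lit 57372) (nat_lit 2) .nil)))))))) (.g (nat_lit 1) (.e (nat_lit 271746) (nat_lit 0) .nil) .nil)))) (.nd (nat_lit 9) 
(.lf (nat_lit 540985) (.g (nat_lit 1953) (.e (nat_lit 90172) (nat_lit 14) (.e (nat_lit 180250) (nat_lit 10) (.e (nat_lit 573487) (nat_lit 14) (.e (nat_lit 73754) (nat_lit 8) .nil)))) (.g (nat_lit 0) (.e (nat_lit 271415) (nat_lit 0) .nil) .nil))) 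
(.lf (nat_lit 541497) (.g (nat_lit 1601) (.e (nat_lit 98048) (nat_lit 18) (.e (nat_lit 1351) (nat_lit 102) (.e (nat_lit 286759) (nat_lit 12) (.e (nat_lit 385074) (nat_lit 31) (.e (nat_lit 573484) (nat_lit 13) .nil))))) (.g (nat_lit 0) (.e (nat_lit 272208) (nat_lit 0) .nil) .nil))))) (.nd (nat_lit 8) (.nd (nat_lit 9) 
(.lf (nat_lit 540857) (.g (nat_lit 3746) (.e (nat_lit 90170) (nat_lit 13) (.e (nat_lit 172115) (nat_lit 10) (.e (nat_lit 434231) (nat_lit 23) (.e (nat_lit 532523) (nat_lit 7) (.e (nat_lit 319506) (nat_lit 10) .nil))))) (.g (nat_lit 0) (.e (nat_lit 271221) (nat_lit 0) .nil) .nil))) 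
(.lf (nat_lit 541369) (.g (nat_lit 913) (.e (nat_lit 90177) (nat_lit 15) (.e (nat_lit 188452) (nat_lit 23) (.e (nat_lit 204846) (nat_lit 24) (.e (nat_lit 319504) (nat_lit 10) .nil)))) (.g (nat_lit 0) (.e (nat_lit 271906) (nat_lit 0) .nil) .nil)))) (.nd (nat_lit 9) 
(.lf (nat_lit 541113) (.g (nat_lit 2632) (.e (nat_lit 90174) (nat_lit 14) (.e (nat_lit 180243) (nat_lit 5) (.e (nat_lit 532503) (nat_lit 1) (.e (nat_lit 57688) (nat_lit 156) (.e (nat_lit 163873) (nat_lit 3) (.e (nat_lit 204838) (nat_lit 20) (.e (nat_lit 114715) (nat_lit 22) .nil))))))) (.g (nat_lit 1) (.e (nat_lit 271606) (nat_lit 0) .nil) .nil))) 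
(.lf (nat_lit 541625) (.g (nat_lit 2380) (.e (nat_lit 98323) (nat_lit 17) (.e (nat_lit 6989) (nat_lit 377) (.e (nat_lit 2810) (nat_lit 180) (.e (nat_lit 303119) (nat_lit 3) (.e (nat_lit 204821) (nat_lit 17) (.e (nat_lit 7936) (nat_lit 347) (.e (nat_lit 65570) (nat_lit 3) .nil))))))) (.g (nat_lit 1) (.e (nat_lit 272639) (nat_lit 0) .nil) .nil)))))) 
(.nd (nat_lit 7) (.nd (nat_lit 8) (.nd (nat_lit 9) 
(.lf (nat_lit 540793) (.g (nat_lit 3262) (.e (nat_lit 90170) (nat_lit 13) (.e (nat_lit 172113) (nat_lit 10) (.e (nat_lit 434245) (nat_lit 28) (.e (nat_lit 573474) (nat_lit 12) (.e (nat_lit 57352) (nat_lit 0) (.e (nat_lit 7263) (nat_lit 384) (.e (nat_lit 57412) (nat_lit 12) (.e (nat_lit 336001) (nat_lit 2) .nil)))))))) (.g (nat_lit 1) (.e (nat_lit 271150) (nat_lit 0) .nil) .nil))) 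
(.lf (nat_lit 541305) (.g (nat_lit 1928) (.e (nat_lit 90176) (nat_lit 15) (.e (nat_lit 188423) (nat_lit 11) (.e (nat_lit 335986) (nat_lit 1) (.e (nat_lit 57692) (nat_lit 156) (.e (nat_lit 163905) (nat_lit 12) (.e (nat_lit 426427) (nat_lit 17) .nil)))))) (.g (nat_lit 1) (.e (nat_lit 271831) (nat_lit 0) .nil) .nil)))) (.nd (nat_lit 9) 
(.lf (nat_lit 541049) (.g (nat_lit 2322) (.e (nat_lit 90173) (nat_lit 14) (.e (nat_lit 180252) (nat_lit 10) (.e (nat_lit 573488) (nat_lit 14) (.e (nat_lit 73755) (nat_lit 8) (.e (nat_lit 557090) (nat_lit 12) .nil))))) (.g (nat_lit 0) (.e (nat_lit 271497) (nat_lit 0) .nil) .nil))) 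
(.lf (nat_lit 541561) (.g (nat_lit 1950) (.e (nat_lit 98316) (nat_lit 9) (.e (nat_lit 336021) (nat_lit 3) (.e (nat_lit 98317) (nat_lit 9) (.e (nat_lit 335892) (nat_lit 0) .nil)))) (.g (nat_lit 0) (.e (nat_lit 272456) (nat_lit 0) .nil) .nil))))) (.nd (nat_lit 8) (.nd (nat_lit 9) 
(.lf (nat_lit 540921) (.g (nat_lit 1793) (.e (nat_lit 90172) (nat_lit 14) (.e (nat_lit 180243) (nat_lit 5) (.e (nat_lit 532501) (nat_lit 1) (.e (nat_lit 57665) (nat_lit 152) .nil)))) (.g (nat_lit 0) (.e (nat_lit 271302) (nat_lit 0) .nil) .nil))) 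
(.lf (nat_lit 541433) (.g (nat_lit 2629) (.e (nat_lit 90185) (nat_lit 17) (.e (nat_lit 237616) (nat_lit 12) (.e (nat_lit 475177) (nat_lit 24) (.e (nat_lit 516124) (nat_lit 2) (.e (nat_lit 213030) (nat_lit 11) (.e (nat_lit 24604) (nat_lit 2) .nil)))))) (.g (nat_lit 1) (.e (nat_lit 272036) (nat_lit 0) .nil) .nil)))) (.nd (nat_lit 9) 
(.lf (nat_lit 541177) (.g (nat_lit 2947) (.e (nat_lit 90174) (nat_lit 14) (.e (nat_lit 180250) (nat_lit 10) (.e (nat_lit 573489) (nat_lit 14) (.e (nat_lit 73755) (nat_lit 8) (.e (nat_lit 557090) (nat_lit 12) (.e (nat_lit 163840) (nat_lit 0) (.e (nat_lit 5940) (nat_lit 322) (.e (nat_lit 57371) (nat_lit 2) .nil)))))))) (.g (nat_lit 1) (.e (nat_lit 271682) (nat_lit 0) .nil) .nil))) 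
(.lf (nat_lit 541689) (.g (nat_lit 3245) (.e (nat_lit 98333) (nat_lit 18) (.e (nat_lit 164182) (nat_lit 154) (.e (nat_lit 57378) (nat_lit 3) (.e (nat_lit 98341) (nat_lit 20) (.e (nat_lit 221215) (nat_lit 23) (.e (nat_lit 204861) (nat_lit 26) (.e (nat_lit 336025) (nat_lit 3) .nil))))))) (.g (nat_lit 1) (.e (nat_lit 272797) (nat_lit 0) .nil) .nil)))))))))) 
(.nd (nat_lit 3) (.nd (nat_lit 4) (.nd (nat_lit 5) (.nd (nat_lit 6) (.nd (nat_lit 7) 
(.nd (nat_lit 8) (.nd (nat_lit 9) 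
(.lf (nat_lit 540677) (.g (nat_lit 3209) (.e (nat_lit 90170) (nat_lit 13) (.e (nat_lit 172106) (nat_lit 10) (.e (nat_lit 434244) (nat_lit 28) (.e (nat_lit 573458) (nat_lit 9) (.e (nat_lit 426) (nat_lit 32) (.e (nat_lit 426003) (nat_lit 0) (.e (nat_lit 7490) (nat_lit 402) (.e (nat_lit 1239) (nat_lit 91) .nil)))))))) (.g (nat_lit 1) (.e (nat_lit 271034) (nat_lit 0) .nil) .nil))) 
(.lf (nat_lit 541189) (.g (nat_lit 2854) (.e (nat_lit 90174) (nat_lit 14) (.e (nat_lit 180250) (nat_lit 10) (.e (nat_lit 573489) (nat_lit 14) (.e (nat_lit 73755) (nat_lit 8) (.e (nat_lit 557090) (nat_lit 12) (.e (nat_lit 163850) (nat_lit 0) (.e (nat_lit 5939) (nat_lit 322) (.e (nat_lit 57374) (nat_lit 2) .nil)))))))) (.g (nat_lit 1) (.e (nat_lit 271694) (nat_lit 0) .nil) .nil)))) (.nd (nat_lit 9) 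
(.lf (nat_lit 540933) (.g (nat_lit 2565) (.e (nat_lit 90172) (nat_lit 14) (.e (nat_lit 180243) (nat_lit 5) (.e (nat_lit 532513) (nat_lit 3) (.e (nat_lit 114719) (nat_lit 23) (.e (nat_lit 98335) (nat_lit 18) .nil))))) (.g (nat_lit 0) (.e (nat_lit 271327) (nat_lit 0) .nil) .nil))) 
(.lf (nat_lit 541445) (.g (nat_lit 2058) (.e (nat_lit 90185) (nat_lit 17) (.e (nat_lit 237619) (nat_lit 12) (.e (nat_lit 475177) (nat_lit 24) (.e (nat_lit 516097) (nat_lit 0) (.e (nat_lit 3650) (nat_lit 227) (.e (nat_lit 778462) (nat_lit 11) (.e (nat_lit 24604) (nat_lit 2) .nil))))))) (.g (nat_lit 1) (.e (nat_lit 272048) (nat_lit 0) .nil) .nil))))) (.nd (nat_lit 8) (.nd (nat_lit 9) 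
(.lf (nat_lit 540805) (.g (nat_lit 2385) (.e (nat_lit 90170) (nat_lit 13) (.e (nat_lit 172113) (nat_lit 10) (.e (nat_lit 434247) (nat_lit 28) (.e (nat_lit 573469) (nat_lit 11) (.e (nat_lit 16471) (nat_lit 14) .nil))))) (.g (nat_lit 0) (.e (nat_lit 271164) (nat_lit 0) .nil) .nil))) 
(.lf (nat_lit 541317) (.g (nat_lit 2897) (.e (nat_lit 90176) (nat_lit 15) (.e (nat_lit 188431) (nat_lit 20) (.e (nat_lit 3281) (nat_lit 200) (.e (nat_lit 557090) (nat_lit 12) (.e (nat_lit 164038) (nat_lit 55) (.e (nat_lit 786176) (nat_lit 11) (.e (nat_lit 24604) (nat_lit 2) .nil))))))) (.g (nat_lit 1) (.e (nat_lit 271843) (nat_lit 0) .nil) .nil)))) (.nd (nat_lit 9) 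
(.lf (nat_lit 541061) (.g (nat_lit 3375) (.e (nat_lit 90173) (nat_lit 14) (.e (nat_lit 180252) (nat_lit 10) (.e (nat_lit 573489) (nat_lit 14) (.e (nat_lit 73755) (nat_lit 8) (.e (nat_lit 557090) (nat_lit 12) (.e (nat_lit 163845) (nat_lit 0) (.e (nat_lit 5954) (nat_lit 322) (.e (nat_lit 57371) (nat_lit 2) .nil)))))))) (.g (nat_lit 1) (.e (nat_lit 271509) (nat_lit 0) .nil) .nil))) 
(.lf (nat_lit 541573) (.g (nat_lit 3026) (.e (nat_lit 98317) (nat_lit 9) (.e (nat_lit 335988) (nat_lit 1) (.e (nat_lit 57926) (nat_lit 282) (.e (nat_lit 163903) (nat_lit 12) (.e (nat_lit 426555) (nat_lit 32) (.e (nat_lit 376867) (nat_lit 23) .nil)))))) (.g (nat_lit 1) (.e (nat_lit 272473) (nat_lit 0) .nil) .nil)))))) (.nd (nat_lit 7) (.nd (nat_lit 8) (.nd (nat_lit 9) 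
(.lf (nat_lit 540741) (.g (nat_lit 3445) (.e (nat_lit 90170) (nat_lit 13) (.e (nat_lit 172113) (nat_lit 10) (.e (nat_lit 434242) (nat_lit 28) (.e (nat_lit 573474) (nat_lit 12) (.e (nat_lit 57574) (nat_lit 55) (.e (nat_lit 778466) (nat_lit 11) (.e (nat_lit 24604) (nat_lit 2) .nil))))))) (.g (nat_lit 1) (.e (nat_lit 271098) (nat_lit 0) .nil) .nil))) 
(.lf (nat_lit 541253) (.g (nat_lit 3830) (.e (nat_lit 90174) (nat_lit 14) (.e (nat_lit 180251) (nat_lit 10) (.e (nat_lit 573489) (nat_lit 14) (.e (nat_lit 73755) (nat_lit 8) (.e (nat_lit 557090) (nat_lit 12) (.e (nat_lit 163844) (nat_lit 0) (.e (nat_lit 5934) (nat_lit 322) (.e (nat_lit 57373) (nat_lit 2) .nil)))))))) (.g (nat_lit 1) (.e (nat_lit 271758) (nat_lit 0) .nil) .nil)))) (.nd (nat_lit 9) 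
(.lf (nat_lit 540997) (.g (nat_lit 2273) (.e (nat_lit 90172) (nat_lit 14) (.e (nat_lit 180250) (nat_lit 10) (.e (nat_lit 573489) (nat_lit 14) (.e (nat_lit 73754) (nat_lit 8) (.e (nat_lit 557094) (nat_lit 12) .nil))))) (.g (nat_lit 0) (.e (nat_lit 271427) (nat_lit 0) .nil) .nil))) 
(.lf (nat_lit 541509) (.g (nat_lit 2337) (.e (nat_lit 98312) (nat_lit 9) (.e (nat_lit 335988) (nat_lit 1) (.e (nat_lit 57926) (nat_lit 282) (.e (nat_lit 163905) (nat_lit 12) (.e (nat_lit 426555) (nat_lit 32) (.e (nat_lit 376869) (nat_lit 23) .nil)))))) (.g (nat_lit 1) (.e (nat_lit 272295) (nat_lit 0) .nil) .nil))))) (.nd (nat_lit 8) (.nd (nat_lit 9) 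
(.lf (nat_lit 540869) (.g (nat_lit 2365) (.e (nat_lit 90170) (nat_lit 13) (.e (nat_lit 172120) (nat_lit 12) (.e (nat_lit 475179) (nat_lit 24) (.e (nat_lit 516124) (nat_lit 2) (.e (nat_lit 213030) (nat_lit 11) (.e (nat_lit 24605) (nat_lit 2) .nil)))))) (.g (nat_lit 1) (.e (nat_lit 271233) (nat_lit 0) .nil) .nil))) 
(.lf (nat_lit 541381) (.g (nat_lit 4724) (.e (nat_lit 90178) (nat_lit 15) (.e (nat_lit 188440) (nat_lit 20) (.e (nat_lit 3272) (nat_lit 199) (.e (nat_lit 548913) (nat_lit 18) (.e (nat_lit 172126) (nat_lit 14) (.e (nat_lit 491537) (nat_lit 2) .nil)))))) (.g (nat_lit 1) (.e (nat_lit 271926) (nat_lit 0) .nil) .nil)))) (.nd (nat_lit 9) 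
(.lf (nat_lit 541125) (.g (nat_lit 1564) (.e (nat_lit 90174) (nat_lit 14) (.e (nat_lit 180243) (nat_lit 5) (.e (nat_lit 532504) (nat_lit 1) (.e (nat_lit 57693) (nat_lit 157) .nil)))) (.g (nat_lit 0) (.e (nat_lit 271629) (nat_lit 0) .nil) .nil))) 
(.lf (nat_lit 541637) (.g (nat_lit 1788) (.e (nat_lit 98325) (nat_lit 17) (.e (nat_lit 3617) (nat_lit 227) (.e (nat_lit 778462) (nat_lit 11) (.e (nat_lit 24604) (nat_lit 2) (.e (nat_lit 90178) (nat_lit 15) (.e (nat_lit 196352) (nat_lit 3) .nil)))))) (.g (nat_lit 1) (.e (nat_lit 272663) (nat_lit 0) .nil) .nil))))))) (.nd (nat_lit 6) (.nd (nat_lit 7) (.nd (nat_lit 8) (.nd (nat_lit 9) 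
(.lf (nat_lit 540709) (.g (nat_lit 6797) (.e (nat_lit 90170) (nat_lit 13) (.e (nat_lit 172106) (nat_lit 10) (.e (nat_lit 434244) (nat_lit 28) (.e (nat_lit 573476) (nat_lit 12) (.e (nat_lit 57574) (nat_lit 55) (.e (nat_lit 778466) (nat_lit 11) (.e (nat_lit 24604) (nat_lit 2) .nil))))))) (.g (nat_lit 1) (.e (nat_lit 271066) (nat_lit 0) .nil) .nil))) 
(.lf (nat_lit 541221) (.g (nat_lit 4195) (.e (nat_lit 90174) (nat_lit 14) (.e (nat_lit 180251) (nat_lit 10) (.e (nat_lit 573489) (nat_lit 14) (.e (nat_lit 73755) (nat_lit 8) (.e (nat_lit 557067) (nat_lit 9) (.e (nat_lit 2603) (nat_lit 163) (.e (nat_lit 164397) (nat_lit 256) (.e (nat_lit 57371) (nat_lit 2) .nil)))))))) (.g (nat_lit 1) (.e (nat_lit 271726) (nat_lit 0) .nil) .nil)))) 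
(.nd (nat_lit 9) 
(.lf (nat_lit 540965) (.g (nat_lit 2059) (.e (nat_lit 90172) (nat_lit 14) (.e (nat_lit 180249) (nat_lit 10) (.e (nat_lit 573488) (nat_lit 14) (.e (nat_lit 73755) (nat_lit 8) (.e (nat_lit 557090) (nat_lit 12) (.e (nat_lit 163844) (nat_lit 0) (.e (nat_lit 5943) (nat_lit 322) (.e (nat_lit 57372) (nat_lit 2) .nil)))))))) (.g (nat_lit 1) (.e (nat_lit 271392) (nat_lit 0) .nil) .nil))) 
(.lf (nat_lit 541477) (.g (nat_lit 2616) (.e (nat_lit 90185) (nat_lit 17) (.e (nat_lit 237619) (nat_lit 12) (.e (nat_lit 475179) (nat_lit 24) (.e (nat_lit 516127) (nat_lit 2) (.e (nat_lit 213030) (nat_lit 11) (.e (nat_lit 24604) (nat_lit 2) .nil)))))) (.g (nat_lit 1) (.e (nat_lit 272080) (nat_lit 0) .nil) .nil))))) (.nd (nat_lit 8) (.nd (nat_lit 9) 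
(.lf (nat_lit 540837) (.g (nat_lit 3431) (.e (nat_lit 90170) (nat_lit 13) (.e (nat_lit 172113) (nat_lit 10) (.e (nat_lit 434248) (nat_lit 28) (.e (nat_lit 573473) (nat_lit 12) (.e (nat_lit 57347) (nat_lit 0) (.e (nat_lit 7261) (nat_lit 384) (.e (nat_lit 57412) (nat_lit 12) (.e (nat_lit 336001) (nat_lit 2) .nil)))))))) (.g (nat_lit 1) (.e (nat_lit 271199) (nat_lit 0) .nil) .nil))) 
(.lf (nat_lit 541349) (.g (nat_lit 4328) (.e (nat_lit 90176) (nat_lit 15) (.e (nat_lit 188450) (nat_lit 23) (.e (nat_lit 204846) (nat_lit 24) (.e (nat_lit 319534) (nat_lit 16) (.e (nat_lit 286732) (nat_lit 2) .nil))))) (.g (nat_lit 1) (.e (nat_lit 271880) (nat_lit 0) .nil) .nil)))) (.nd (nat_lit 9) 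
(.lf (nat_lit 541093) (.g (nat_lit 3389) (.e (nat_lit 90174) (nat_lit 14) (.e (nat_lit 180243) (nat_lit 5) (.e (nat_lit 532499) (nat_lit 1) (.e (nat_lit 57688) (nat_lit 156) (.e (nat_lit 163875) (nat_lit 3) (.e (nat_lit 204837) (nat_lit 20) (.e (nat_lit 114715) (nat_lit 22) .nil))))))) (.g (nat_lit 1) (.e (nat_lit 271555) (nat_lit 0) .nil) .nil))) 
(.lf (nat_lit 541605) (.g (nat_lit 1214) (.e (nat_lit 98318) (nat_lit 17) (.e (nat_lit 6989) (nat_lit 377) (.e (nat_lit 2810) (nat_lit 180) (.e (nat_lit 303119) (nat_lit 3) .nil)))) (.g (nat_lit 0) (.e (nat_lit 272571) (nat_lit 0) .nil) .nil)))))) (.nd (nat_lit 7) (.nd (nat_lit 8) (.nd (nat_lit 9) 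
(.lf (nat_lit 540773) (.g (nat_lit 3375) (.e (nat_lit 90170) (nat_lit 13) (.e (nat_lit 172113) (nat_lit 10) (.e (nat_lit 434245) (nat_lit 28) (.e (nat_lit 573473) (nat_lit 12) (.e (nat_lit 57347) (nat_lit 0) (.e (nat_lit 7261) (nat_lit 384) (.e (nat_lit 57412) (nat_lit 12) (.e (nat_lit 336001) (nat_lit 2) .nil)))))))) (.g (nat_lit 1) (.e (nat_lit 271130) (nat_lit 0) .nil) .nil))) 
(.lf (nat_lit 541285) (.g (nat_lit 3477) (.e (nat_lit 90174) (nat_lit 14) (.e (nat_lit 180252) (nat_lit 10) (.e (nat_lit 573489) (nat_lit 14) (.e (nat_lit 73755) (nat_lit 8) (.e (nat_lit 557067) (nat_lit 9) (.e (nat_lit 2606) (nat_lit 163) (.e (nat_lit 164402) (nat_lit 256) (.e (nat_lit 57371) (nat_lit 2) .nil)))))))) (.g (nat_lit 1) (.e (nat_lit 271791) (nat_lit 0) .nil) .nil)))) 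
(.nd (nat_lit 9) 
(.lf (nat_lit 541029) (.g (nat_lit 3279) (.e (nat_lit 90172) (nat_lit 14) (.e (nat_lit 180251) (nat_lit 10) (.e (nat_lit 573489) (nat_lit 14) (.e (nat_lit 73755) (nat_lit 8) (.e (nat_lit 557090) (nat_lit 12) (.e (nat_lit 163844) (nat_lit 0) (.e (nat_lit 5941) (nat_lit 322) (.e (nat_lit 57372) (nat_lit 2) .nil)))))))) (.g (nat_lit 1) (.e (nat_lit 271459) (nat_lit 0) .nil) .nil))) 
(.lf (nat_lit 541541) (.g (nat_lit 658) (.e (nat_lit 98313) (nat_lit 9) (.e (nat_lit 335996) (nat_lit 1) (.e (nat_lit 57930) (nat_lit 282) .nil))) (.g (nat_lit 0) (.e (nat_lit 272388) (nat_lit 0) .nil) .nil))))) (.nd (nat_lit 8) (.nd (nat_lit 9) 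
(.lf (nat_lit 540901) (.g (nat_lit 1584) (.e (nat_lit 90171) (nat_lit 14) (.e (nat_lit 180243) (nat_lit 5) (.e (nat_lit 532504) (nat_lit 1) (.e (nat_lit 57692) (nat_lit 156) .nil)))) (.g (nat_lit 0) (.e (nat_lit 271265) (nat_lit 0) .nil) .nil))) 
(.lf (nat_lit 541413) (.g (nat_lit 2255) (.e (nat_lit 90185) (nat_lit 17) (.e (nat_lit 237605) (nat_lit 9) (.e (nat_lit 426436) (nat_lit 18) (.e (nat_lit 98338) (nat_lit 19) (.e (nat_lit 213030) (nat_lit 11) (.e (nat_lit 24603) (nat_lit 2) .nil)))))) (.g (nat_lit 1) (.e (nat_lit 272016) (nat_lit 0) .nil) .nil)))) (.nd (nat_lit 9) 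
(.lf (nat_lit 541157) (.g (nat_lit 2394) (.e (nat_lit 90174) (nat_lit 14) (.e (nat_lit 180250) (nat_lit 10) (.e (nat_lit 573489) (nat_lit 14) (.e (nat_lit 73754) (nat_lit 8) (.e (nat_lit 557093) (nat_lit 12) .nil))))) (.g (nat_lit 0) (.e (nat_lit 271662) (nat_lit 0) .nil) .nil))) 
(.lf (nat_lit 541669) (.g (nat_lit 1589) (.e (nat_lit 98332) (nat_lit 18) (.e (nat_lit 164403) (nat_lit 256) (.e (nat_lit 57371) (nat_lit 2) (.e (nat_lit 90171) (nat_lit 14) .nil)))) (.g (nat_lit 0) (.e (nat_lit 272752) (nat_lit 0) .nil) .nil)))))))) (.nd (nat_lit 5) (.nd (nat_lit 6) (.nd (nat_lit 7) (.nd (nat_lit 8) (.nd (nat_lit 9) 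
(.lf (nat_lit 540693) (.g (nat_lit 2318) (.e (nat_lit 90170) (nat_lit 13) (.e (nat_lit 172106) (nat_lit 10) (.e (nat_lit 434244) (nat_lit 28) (.e (nat_lit 573473) (nat_lit 12) (.e (nat_lit 57352) (nat_lit 0) (.e (nat_lit 7265) (nat_lit 384) (.e (nat_lit 57412) (nat_lit 12) (.e (nat_lit 336001) (nat_lit 2) .nil)))))))) (.g (nat_lit 1) (.e (nat_lit 271050) (nat_lit 0) .nil) .nil))) 
(.lf (nat_lit 541205) (.g (nat_lit 3002) (.e (nat_lit 90174) (nat_lit 14) (.e (nat_lit 180250) (nat_lit 10) (.e (nat_lit 573489) (nat_lit 14) (.e (nat_lit 73755) (nat_lit 8) (.e (nat_lit 557091) (nat_lit 12) (.e (nat_lit 171776) (nat_lit 0) (.e (nat_lit 5937) (nat_lit 322) (.e (nat_lit 57371) (nat_lit 2) .nil)))))))) (.g (nat_lit 1) (.e (nat_lit 271710) (nat_lit 0) .nil) .nil)))) (.nd (nat_lit 9) 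
(.lf (nat_lit 540949) (.g (nat_lit 1832) (.e (nat_lit 90172) (nat_lit 14) (.e (nat_lit 180244) (nat_lit 5) (.e (nat_lit 532499) (nat_lit 1) (.e (nat_lit 57694) (nat_lit 157) .nil)))) (.g (nat_lit 0) (.e (nat_lit 271357) (nat_lit 0) .nil) .nil))) 
(.lf (nat_lit 541461) (.g (nat_lit 2048) (.e (nat_lit 90185) (nat_lit 17) (.e (nat_lit 237619) (nat_lit 12) (.e (nat_lit 475177) (nat_lit 24) (.e (nat_lit 516126) (nat_lit 2) (.e (nat_lit 213030) (nat_lit 11) (.e (nat_lit 24602) (nat_lit 2) .nil)))))) (.g (nat_lit 1) (.e (nat_lit 272064) (nat_lit 0) .nil) .nil))))) (.nd (nat_lit 8) (.nd (nat_lit 9) 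
(.lf (nat_lit 540821) (.g (nat_lit 2574) (.e (nat_lit 90170) (nat_lit 13) (.e (nat_lit 172113) (nat_lit 10) (.e (nat_lit 434248) (nat_lit 28) (.e (nat_lit 573449) (nat_lit 9) (.e (nat_lit 370) (nat_lit 32) (.e (nat_lit 426340) (nat_lit 14) (.e (nat_lit 491537) (nat_lit 2) .nil))))))) (.g (nat_lit 1) (.e (nat_lit 271183) (nat_lit 0) .nil) .nil))) 
(.lf (nat_lit 541333) (.g (nat_lit 5271) (.e (nat_lit 90176) (nat_lit 15) (.e (nat_lit 188440) (nat_lit 20) (.e (nat_lit 3307) (nat_lit 202) (.e (nat_lit 573477) (nat_lit 12) (.e (nat_lit 57575) (nat_lit 55) (.e (nat_lit 778465) (nat_lit 11) (.e (nat_lit 24603) (nat_lit 2) .nil))))))) (.g (nat_lit 1) (.e (nat_lit 271861) (nat_lit 0) .nil) .nil)))) (.nd (nat_lit 9) 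
(.lf (nat_lit 541077) (.g (nat_lit 1660) (.e (nat_lit 90174) (nat_lit 14) (.e (nat_lit 180243) (nat_lit 5) (.e (nat_lit 532499) (nat_lit 1) (.e (nat_lit 57659) (nat_lit 152) .nil)))) (.g (nat_lit 0) (.e (nat_lit 271527) (nat_lit 0) .nil) .nil))) 
(.lf (nat_lit 541589) (.g (nat_lit 2556) (.e (nat_lit 98317) (nat_lit 9) (.e (nat_lit 335988) (nat_lit 1) (.e (nat_lit 57931) (nat_lit 282) (.e (nat_lit 163943) (nat_lit 19) (.e (nat_lit 483393) (nat_lit 23) .nil))))) (.g (nat_lit 0) (.e (nat_lit 272505) (nat_lit 0) .nil) .nil)))))) (.nd (nat_lit 7) (.nd (nat_lit 8) (.nd (nat_lit 9) 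
(.lf (nat_lit 540757) (.g (nat_lit 2260) (.e (nat_lit 90170) (nat_lit 13) (.e (nat_lit 172113) (nat_lit 10) (.e (nat_lit 434245) (nat_lit 28) (.e (nat_lit 573458) (nat_lit 9) (.e (nat_lit 7936) (nat_lit 32) (.e (nat_lit 425989) (nat_lit 0) (.e (nat_lit 7489) (nat_lit 402) (.e (nat_lit 1239) (nat_lit 91) .nil)))))))) (.g (nat_lit 1) (.e (nat_lit 271114) (nat_lit 0) .nil) .nil))) 
(.lf (nat_lit 541269) (.g (nat_lit 3862) (.e (nat_lit 90174) (nat_lit 14) (.e (nat_lit 180251) (nat_lit 10) (.e (nat_lit 573489) (nat_lit 14) (.e (nat_lit 73755) (nat_lit 8) (.e (nat_lit 557090) (nat_lit 12) (.e (nat_lit 163854) (nat_lit 0) (.e (nat_lit 5952) (nat_lit 322) (.e (nat_lit 57373) (nat_lit 2) .nil)))))))) (.g (nat_lit 1) (.e (nat_lit 271774) (nat_lit 0) .nil) .nil)))) (.nd (nat_lit 9) 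
(.lf (nat_lit 541013) (.g (nat_lit 4322) (.e (nat_lit 90172) (nat_lit 14) (.e (nat_lit 180250) (nat_lit 10) (.e (nat_lit 573489) (nat_lit 14) (.e (nat_lit 73755) (nat_lit 8) (.e (nat_lit 557090) (nat_lit 12) (.e (nat_lit 163844) (nat_lit 0) (.e (nat_lit 5942) (nat_lit 322) (.e (nat_lit 57375) (nat_lit 2) .nil)))))))) (.g (nat_lit 1) (.e (nat_lit 271443) (nat_lit 0) .nil) .nil))) 
(.lf (nat_lit 541525) (.g (nat_lit 2493) (.e (nat_lit 98313) (nat_lit 9) (.e (nat_lit 335986) (nat_lit 1) (.e (nat_lit 57931) (nat_lit 282) (.e (nat_lit 163904) (nat_lit 12) (.e (nat_lit 426555) (nat_lit 32) (.e (nat_lit 376869) (nat_lit 23) .nil)))))) (.g (nat_lit 1) (.e (nat_lit 272331) (nat_lit 0) .nil) .nil))))) (.nd (nat_lit 8) (.nd (nat_lit 9) 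
(.lf (nat_lit 540885) (.g (nat_lit 4266) (.e (nat_lit 90170) (nat_lit 13) (.e (nat_lit 172123) (nat_lit 13) (.e (nat_lit 483337) (nat_lit 9) (.e (nat_lit 426100) (nat_lit 1) (.e (nat_lit 164398) (nat_lit 256) (.e (nat_lit 57374) (nat_lit 2) .nil)))))) (.g (nat_lit 1) (.e (nat_lit 271249) (nat_lit 0) .nil) .nil))) 
(.lf (nat_lit 541397) (.g (nat_lit 769) (.e (nat_lit 90184) (nat_lit 17) (.e (nat_lit 237623) (nat_lit 13) (.e (nat_lit 483365) (nat_lit 18) (.e (nat_lit 57688) (nat_lit 156) .nil)))) (.g (nat_lit 0) (.e (nat_lit 271981) (nat_lit 0) .nil) .nil)))) (.nd (nat_lit 9) 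
(.lf (nat_lit 541141) (.g (nat_lit 2893) (.e (nat_lit 90174) (nat_lit 14) (.e (nat_lit 180243) (nat_lit 5) (.e (nat_lit 532515) (nat_lit 3) (.e (nat_lit 114719) (nat_lit 23) (.e (nat_lit 98331) (nat_lit 17) (.e (nat_lit 2479) (nat_lit 157) (.e (nat_lit 5953) (nat_lit 322) (.e (nat_lit 57371) (nat_lit 2) .nil)))))))) (.g (nat_lit 1) (.e (nat_lit 271645) (nat_lit 0) .nil) .nil))) 
(.lf (nat_lit 541653) (.g (nat_lit 2888) (.e (nat_lit 98332) (nat_lit 18) (.e (nat_lit 164327) (nat_lit 230) (.e (nat_lit 163868) (nat_lit 2) (.e (nat_lit 196656) (nat_lit 11) (.e (nat_lit 16416) (nat_lit 3) (.e (nat_lit 204834) (nat_lit 19) (.e (nat_lit 106517) (nat_lit 9) (.e (nat_lit 1255) (nat_lit 92) .nil)))))))) (.g (nat_lit 1) (.e (nat_lit 272711) (nat_lit 0) .nil) .nil))))))) 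
(.nd (nat_lit 6) (.nd (nat_lit 7) (.nd (nat_lit 8) (.nd (nat_lit 9) 
(.lf (nat_lit 540725) (.g (nat_lit 2381) (.e (nat_lit 90170) (nat_lit 13) (.e (nat_lit 172113) (nat_lit 10) (.e (nat_lit 434231) (nat_lit 23) (.e (nat_lit 532526) (nat_lit 8) (.e (nat_lit 335616) (nat_lit 17) (.e (nat_lit 294927) (nat_lit 2) .nil)))))) (.g (nat_lit 1) (.e (nat_lit 271082) (nat_lit 0) .nil) .nil))) 
(.lf (nat_lit 541237) (.g (nat_lit 3717) (.e (nat_lit 90174) (nat_lit 14) (.e (nat_lit 180251) (nat_lit 10) (.e (nat_lit 573489) (nat_lit 14) (.e (nat_lit 73755) (nat_lit 8) (.e (nat_lit 557090) (nat_lit 12) (.e (nat_lit 163840) (nat_lit 0) (.e (nat_lit 5937) (nat_lit 322) (.e (nat_lit 57375) (nat_lit 2) .nil)))))))) (.g (nat_lit 1) (.e (nat_lit 271742) (nat_lit 0) .nil) .nil)))) (.nd (nat_lit 9) 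
(.lf (nat_lit 540981) (.g (nat_lit 3211) (.e (nat_lit 90172) (nat_lit 14) (.e (nat_lit 180250) (nat_lit 10) (.e (nat_lit 573487) (nat_lit 14) (.e (nat_lit 73753) (nat_lit 8) (.e (nat_lit 557094) (nat_lit 12) (.e (nat_lit 163840) (nat_lit 0) (.e (nat_lit 5939) (nat_lit 322) (.e (nat_lit 57375) (nat_lit 2) .nil)))))))) (.g (nat_lit 1) (.e (nat_lit 271411) (nat_lit 0) .nil) .nil))) 
(.lf (nat_lit 541493) (.g (nat_lit 897) (.e (nat_lit 90196) (nat_lit 18) (.e (nat_lit 2797) (nat_lit 180) (.e (nat_lit 303126) (nat_lit 9) .nil))) (.g (nat_lit 0) (.e (nat_lit 272131) (nat_lit 0) .nil) .nil))))) (.nd (nat_lit 8) (.nd (nat_lit 9) 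
(.lf (nat_lit 540853) (.g (nat_lit 3980) (.e (nat_lit 90170) (nat_lit 13) (.e (nat_lit 172113) (nat_lit 10) (.e (nat_lit 434248) (nat_lit 28) (.e (nat_lit 573475) (nat_lit 12) (.e (nat_lit 57354) (nat_lit 0) (.e (nat_lit 7270) (nat_lit 385) (.e (nat_lit 122906) (nat_lit 12) (.e (nat_lit 336008) (nat_lit 2) .nil)))))))) (.g (nat_lit 1) (.e (nat_lit 271215) (nat_lit 0) .nil) .nil))) 
(.lf (nat_lit 541365) (.g (nat_lit 4456) (.e (nat_lit 90177) (nat_lit 15) (.e (nat_lit 188434) (nat_lit 20) (.e (nat_lit 3272) (nat_lit 199) (.e (nat_lit 548913) (nat_lit 18) (.e (nat_lit 172126) (nat_lit 14) (.e (nat_lit 491537) (nat_lit 2) .nil)))))) (.g (nat_lit 1) (.e (nat_lit 271902) (nat_lit 0) .nil) .nil)))) (.nd (nat_lit 9) 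
(.lf (nat_lit 541109) (.g (nat_lit 1511) (.e (nat_lit 90174) (nat_lit 14) (.e (nat_lit 180243) (nat_lit 5) (.e (nat_lit 532503) (nat_lit 1) (.e (nat_lit 57654) (nat_lit 152) .nil)))) (.g (nat_lit 0) (.e (nat_lit 271591) (nat_lit 0) .nil) .nil))) 
(.lf (nat_lit 541621) (.g (nat_lit 3622) (.e (nat_lit 98321) (nat_lit 17) (.e (nat_lit 3771) (nat_lit 229) (.e (nat_lit 794669) (nat_lit 22) (.e (nat_lit 196668) (nat_lit 14) (.e (nat_lit 73747) (nat_lit 3) (.e (nat_lit 516119) (nat_lit 1) (.e (nat_lit 164150) (nat_lit 152) (.e (nat_lit 974) (nat_lit 81) (.e (nat_lit 1256) (nat_lit 92) .nil))))))))) (.g (nat_lit 1) (.e (nat_lit 272632) (nat_lit 0) .nil) .nil)))))) 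
(.nd (nat_lit 7) (.nd (nat_lit 8) (.nd (nat_lit 9) 
(.lf (nat_lit 540789) (.g (nat_lit 2868) (.e (nat_lit 90170) (nat_lit 13) (.e (nat_lit 172113) (nat_lit 10) (.e (nat_lit 434245) (nat_lit 28) (.e (nat_lit 573474) (nat_lit 12) (.e (nat_lit 57351) (nat_lit 0) (.e (nat_lit 7263) (nat_lit 384) (.e (nat_lit 57412) (nat_lit 12) (.e (nat_lit 336008) (nat_lit 2) .nil)))))))) (.g (nat_lit 1) (.e (nat_lit 271146) (nat_lit 0) .nil) .nil))) 
(.lf (nat_lit 541301) (.g (nat_lit 2345) (.e (nat_lit 90176) (nat_lit 15) (.e (nat_lit 188423) (nat_lit 11) (.e (nat_lit 335986) (nat_lit 1) (.e (nat_lit 57688) (nat_lit 156) (.e (nat_lit 163903) (nat_lit 12) (.e (nat_lit 426427) (nat_lit 17) .nil)))))) (.g (nat_lit 1) (.e (nat_lit 271827) (nat_lit 0) .nil) .nil)))) (.nd (nat_lit 9) 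
(.lf (nat_lit 541045) (.g (nat_lit 2371) (.e (nat_lit 90173) (nat_lit 14) (.e (nat_lit 180252) (nat_lit 10) (.e (nat_lit 573475) (nat_lit 12) (.e (nat_lit 57503) (nat_lit 38) (.e (nat_lit 639002) (nat_lit 11) .nil))))) (.g (nat_lit 0) (.e (nat_lit 271491) (nat_lit 0) .nil) .nil))) 
(.lf (nat_lit 541557) (.g (nat_lit 628) (.e (nat_lit 98316) (nat_lit 9) (.e (nat_lit 335988) (nat_lit 1) (.e (nat_lit 57927) (nat_lit 282) .nil))) (.g (nat_lit 0) (.e (nat_lit 272447) (nat_lit 0) .nil) .nil))))) (.nd (nat_lit 8) (.nd (nat_lit 9) 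
(.lf (nat_lit 540917) (.g (nat_lit 3148) (.e (nat_lit 90172) (nat_lit 14) (.e (nat_lit 180243) (nat_lit 5) (.e (nat_lit 532499) (nat_lit 1) (.e (nat_lit 57688) (nat_lit 156) (.e (nat_lit 163843) (nat_lit 0) .nil))))) (.g (nat_lit 0) (.e (nat_lit 271288) (nat_lit 0) .nil) .nil))) 
(.lf (nat_lit 541429) (.g (nat_lit 1889) (.e (nat_lit 90185) (nat_lit 17) (.e (nat_lit 237616) (nat_lit 12) (.e (nat_lit 475177) (nat_lit 24) (.e (nat_lit 516097) (nat_lit 0) (.e (nat_lit 3669) (nat_lit 227) (.e (nat_lit 778462) (nat_lit 11) (.e (nat_lit 24604) (nat_lit 2) .nil))))))) (.g (nat_lit 1) (.e (nat_lit 272032) (nat_lit 0) .nil) .nil)))) (.nd (nat_lit 9) 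
(.lf (nat_lit 541173) (.g (nat_lit 3178) (.e (nat_lit 90174) (nat_lit 14) (.e (nat_lit 180250) (nat_lit 10) (.e (nat_lit 573489) (nat_lit 14) (.e (nat_lit 73755) (nat_lit 8) (.e (nat_lit 557075) (nat_lit 9) .nil))))) (.g (nat_lit 0) (.e (nat_lit 271678) (nat_lit 0) .nil) .nil))) 
(.lf (nat_lit 541685) (.g (nat_lit 1631) (.e (nat_lit 98333) (nat_lit 18) (.e (nat_lit 164179) (nat_lit 154) (.e (nat_lit 57409) (nat_lit 12) (.e (nat_lit 336454) (nat_lit 34) .nil)))) (.g (nat_lit 0) (.e (nat_lit 272786) (nat_lit 0) .nil) .nil))))))))) (.nd (nat_lit 4) (.nd (nat_lit 5) (.nd (nat_lit 6) (.nd (nat_lit 7) (.nd (nat_lit 8) (.nd (nat_lit 9) 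
(.lf (nat_lit 540685) (.g (nat_lit 2845) (.e (nat_lit 90170) (nat_lit 13) (.e (nat_lit 172106) (nat_lit 10) (.e (nat_lit 434244) (nat_lit 28) (.e (nat_lit 573458) (nat_lit 9) (.e (nat_lit 7936) (nat_lit 33) (.e (nat_lit 434180) (nat_lit 0) (.e (nat_lit 1235) (nat_lit 91) .nil))))))) (.g (nat_lit 1) (.e (nat_lit 271042) (nat_lit 0) .nil) .nil))) 
(.lf (nat_lit 541197) (.g (nat_lit 3151) (.e (nat_lit 90174) (nat_lit 14) (.e (nat_lit 180250) (nat_lit 10) (.e (nat_lit 573489) (nat_lit 14) (.e (nat_lit 73755) (nat_lit 8) (.e (nat_lit 557091) (nat_lit 12) (.e (nat_lit 163841) (nat_lit 0) (.e (nat_lit 5940) (nat_lit 322) (.e (nat_lit 57371) (nat_lit 2) .nil)))))))) (.g (nat_lit 1) (.e (nat_lit 271702) (nat_lit 0) .nil) .nil)))) (.nd (nat_lit 9) 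
(.lf (nat_lit 540941) (.g (nat_lit 1603) (.e (nat_lit 90172) (nat_lit 14) (.e (nat_lit 180244) (nat_lit 5) (.e (nat_lit 532499) (nat_lit 1) (.e (nat_lit 57665) (nat_lit 152) .nil)))) (.g (nat_lit 0) (.e (nat_lit 271336) (nat_lit 0) .nil) .nil))) 
(.lf (nat_lit 541453) (.g (nat_lit 2101) (.e (nat_lit 90185) (nat_lit 17) (.e (nat_lit 237619) (nat_lit 12) (.e (nat_lit 475177) (nat_lit 24) (.e (nat_lit 516124) (nat_lit 2) (.e (nat_lit 213030) (nat_lit 11) (.e (nat_lit 24602) (nat_lit 2) .nil)))))) (.g (nat_lit 1) (.e (nat_lit 272056) (nat_lit 0) .nil) .nil))))) (.nd (nat_lit 8) (.nd (nat_lit 9) 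
(.lf (nat_lit 540813) (.g (nat_lit 3643) (.e (nat_lit 90170) (nat_lit 13) (.e (nat_lit 172113) (nat_lit 10) (.e (nat_lit 434247) (nat_lit 28) (.e (nat_lit 573477) (nat_lit 12) (.e (nat_lit 57574) (nat_lit 55) (.e (nat_lit 778464) (nat_lit 11) (.e (nat_lit 24601) (nat_lit 2) .nil))))))) (.g (nat_lit 1) (.e (nat_lit 271172) (nat_lit 0) .nil) .nil))) 
(.lf (nat_lit 541325) (.g (nat_lit 1541) (.e (nat_lit 90176) (nat_lit 15) (.e (nat_lit 188440) (nat_lit 20) (.e (nat_lit 3307) (nat_lit 202) (.e (nat_lit 573472) (nat_lit 12) .nil)))) (.g (nat_lit 0) (.e (nat_lit 271853) (nat_lit 0) .nil) .nil)))) (.nd (nat_lit 9) 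
(.lf (nat_lit 541069) (.g (nat_lit 2605) (.e (nat_lit 90173) (nat_lit 14) (.e (nat_lit 180252) (nat_lit 10) (.e (nat_lit 573489) (nat_lit 14) (.e (nat_lit 73755) (nat_lit 8) (.e (nat_lit 557091) (nat_lit 12) .nil))))) (.g (nat_lit 0) (.e (nat_lit 271517) (nat_lit 0) .nil) .nil))) 
(.lf (nat_lit 541581) (.g (nat_lit 2459) (.e (nat_lit 98317) (nat_lit 9) (.e (nat_lit 335988) (nat_lit 1) (.e (nat_lit 57927) (nat_lit 282) (.e (nat_lit 163903) (nat_lit 12) (.e (nat_lit 426538) (nat_lit 29) (.e (nat_lit 352314) (nat_lit 23) .nil)))))) (.g (nat_lit 1) (.e (nat_lit 272491) (nat_lit 0) .nil) .nil)))))) (.nd (nat_lit 7) (.nd (nat_lit 8) (.nd (nat_lit 9) 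
(.lf (nat_lit 540749) (.g (nat_lit 3543) (.e (nat_lit 90170) (nat_lit 13) (.e (nat_lit 172113) (nat_lit 10) (.e (nat_lit 434245) (nat_lit 28) (.e (nat_lit 573450) (nat_lit 9) (.e (nat_lit 375) (nat_lit 32) (.e (nat_lit 426025) (nat_lit 0) (.e (nat_lit 7554) (nat_lit 402) (.e (nat_lit 1234) (nat_lit 91) .nil)))))))) (.g (nat_lit 1) (.e (nat_lit 271106) (nat_lit 0) .nil) .nil))) 
(.lf (nat_lit 541261) (.g (nat_lit 3862) (.e (nat_lit 90174) (nat_lit 14) (.e (nat_lit 180251) (nat_lit 10) (.e (nat_lit 573489) (nat_lit 14) (.e (nat_lit 73755) (nat_lit 8) (.e (nat_lit 557090) (nat_lit 12) (.e (nat_lit 163845) (nat_lit 0) (.e (nat_lit 5941) (nat_lit 322) (.e (nat_lit 57373) (nat_lit 2) .nil)))))))) (.g (nat_lit 1) (.e (nat_lit 271766) (nat_lit 0) .nil) .nil)))) (.nd (nat_lit 9) 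
(.lf (nat_lit 541005) (.g (nat_lit 4085) (.e (nat_lit 90172) (nat_lit 14) (.e (nat_lit 180250) (nat_lit 10) (.e (nat_lit 573489) (nat_lit 14) (.e (nat_lit 73755) (nat_lit 8) (.e (nat_lit 557090) (nat_lit 12) (.e (nat_lit 163843) (nat_lit 0) (.e (nat_lit 5934) (nat_lit 322) (.e (nat_lit 57371) (nat_lit 2) .nil)))))))) (.g (nat_lit 1) (.e (nat_lit 271435) (nat_lit 0) .nil) .nil))) 
(.lf (nat_lit 541517) (.g (nat_lit 3017) (.e (nat_lit 98313) (nat_lit 9) (.e (nat_lit 335986) (nat_lit 1) (.e (nat_lit 57926) (nat_lit 282) (.e (nat_lit 163907) (nat_lit 12) (.e (nat_lit 426555) (nat_lit 32) (.e (nat_lit 376869) (nat_lit 23) .nil)))))) (.g (nat_lit 1) (.e (nat_lit 272314) (nat_lit 0) .nil) .nil))))) (.nd (nat_lit 8) (.nd (nat_lit 9) 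
(.lf (nat_lit 540877) (.g (nat_lit 3384) (.e (nat_lit 90170) (nat_lit 13) (.e (nat_lit 172121) (nat_lit 13) (.e (nat_lit 483363) (nat_lit 18) (.e (nat_lit 57692) (nat_lit 156) (.e (nat_lit 163907) (nat_lit 12) (.e (nat_lit 426428) (nat_lit 17) .nil)))))) (.g (nat_lit 1) (.e (nat_lit 271241) (nat_lit 0) .nil) .nil))) 
(.lf (nat_lit 541389) (.g (nat_lit 3515) (.e (nat_lit 90178) (nat_lit 15) (.e (nat_lit 188451) (nat_lit 23) (.e (nat_lit 204846) (nat_lit 24) (.e (nat_lit 319532) (nat_lit 16) (.e (nat_lit 286733) (nat_lit 2) .nil))))) (.g (nat_lit 1) (.e (nat_lit 271934) (nat_lit 0) .nil) .nil)))) (.nd (nat_lit 9) 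
(.lf (nat_lit 541133) (.g (nat_lit 2178) (.e (nat_lit 90174) (nat_lit 14) (.e (nat_lit 180243) (nat_lit 5) (.e (nat_lit 532515) (nat_lit 3) (.e (nat_lit 114716) (nat_lit 22) (.e (nat_lit 90165) (nat_lit 12) (.e (nat_lit 163853) (nat_lit 0) (.e (nat_lit 5953) (nat_lit 322) (.e (nat_lit 57373) (nat_lit 2) .nil)))))))) (.g (nat_lit 1) (.e (nat_lit 271637) (nat_lit 0) .nil) .nil))) 
(.lf (nat_lit 541645) (.g (nat_lit 393) (.e (nat_lit 98325) (nat_lit 17) (.e (nat_lit 6986) (nat_lit 377) (.e (nat_lit 2819) (nat_lit 181) .nil))) (.g (nat_lit 0) (.e (nat_lit 272681) (nat_lit 0) .nil) .nil))))))) (.nd (nat_lit 6) (.nd (nat_lit 7) (.nd (nat_lit 8) (.nd (nat_lit 9) 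
(.lf (nat_lit 540717) (.g (nat_lit 2036) (.e (nat_lit 90170) (nat_lit 13) (.e (nat_lit 172113) (nat_lit 10) (.e (nat_lit 434203) (nat_lit 18) (.e (nat_lit 3953) (nat_lit 239) (.e (nat_lit 2637) (nat_lit 165) (.e (nat_lit 180278) (nat_lit 32) (.e (nat_lit 1234) (nat_lit 91) .nil))))))) (.g (nat_lit 1) (.e (nat_lit 271074) (nat_lit 0) .nil) .nil))) 
(.lf (nat_lit 541229) (.g (nat_lit 3406) (.e (nat_lit 90174) (nat_lit 14) (.e (nat_lit 180251) (nat_lit 10) (.e (nat_lit 573489) (nat_lit 14) (.e (nat_lit 73755) (nat_lit 8) (.e (nat_lit 557074) (nat_lit 9) (.e (nat_lit 2607) (nat_lit 163) (.e (nat_lit 164396) (nat_lit 256) (.e (nat_lit 57371) (nat_lit 2) .nil)))))))) (.g (nat_lit 1) (.e (nat_lit 271734) (nat_lit 0) .nil) .nil)))) 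
(.nd (nat_lit 9) 
(.lf (nat_lit 540973) (.g (nat_lit 3917) (.e (nat_lit 90172) (nat_lit 14) (.e (nat_lit 180250) (nat_lit 10) (.e (nat_lit 573487) (nat_lit 14) (.e (nat_lit 73753) (nat_lit 8) (.e (nat_lit 557090) (nat_lit 12) (.e (nat_lit 163844) (nat_lit 0) (.e (nat_lit 5942) (nat_lit 322) (.e (nat_lit 57375) (nat_lit 2) .nil)))))))) (.g (nat_lit 1) (.e (nat_lit 271403) (nat_lit 0) .nil) .nil))) 
(.lf (nat_lit 541485) (.g (nat_lit 2402) (.e (nat_lit 90185) (nat_lit 17) (.e (nat_lit 237624) (nat_lit 13) (.e (nat_lit 483341) (nat_lit 9) (.e (nat_lit 426099) (nat_lit 1) (.e (nat_lit 164399) (nat_lit 256) (.e (nat_lit 57372) (nat_lit 2) .nil)))))) (.g (nat_lit 1) (.e (nat_lit 272088) (nat_lit 0) .nil) .nil))))) (.nd (nat_lit 8) (.nd (nat_lit 9) 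
(.lf (nat_lit 540845) (.g (nat_lit 3778) (.e (nat_lit 90170) (nat_lit 13) (.e (nat_lit 172113) (nat_lit 10) (.e (nat_lit 434248) (nat_lit 28) (.e (nat_lit 573475) (nat_lit 12) (.e (nat_lit 57347) (nat_lit 0) (.e (nat_lit 7261) (nat_lit 384) (.e (nat_lit 57412) (nat_lit 12) (.e (nat_lit 336008) (nat_lit 2) .nil)))))))) (.g (nat_lit 1) (.e (nat_lit 271207) (nat_lit 0) .nil) .nil))) 
(.lf (nat_lit 541357) (.g (nat_lit 2757) (.e (nat_lit 90176) (nat_lit 15) (.e (nat_lit 188450) (nat_lit 23) (.e (nat_lit 204861) (nat_lit 26) (.e (nat_lit 335988) (nat_lit 1) (.e (nat_lit 57931) (nat_lit 282) (.e (nat_lit 171776) (nat_lit 63) .nil)))))) (.g (nat_lit 1) (.e (nat_lit 271888) (nat_lit 0) .nil) .nil)))) (.nd (nat_lit 9) 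
(.lf (nat_lit 541101) (.g (nat_lit 3857) (.e (nat_lit 90174) (nat_lit 14) (.e (nat_lit 180243) (nat_lit 5) (.e (nat_lit 532501) (nat_lit 1) (.e (nat_lit 57691) (nat_lit 156) (.e (nat_lit 163874) (nat_lit 3) (.e (nat_lit 204838) (nat_lit 20) (.e (nat_lit 114716) (nat_lit 22) .nil))))))) (.g (nat_lit 1) (.e (nat_lit 271573) (nat_lit 0) .nil) .nil))) 
(.lf (nat_lit 541613) (.g (nat_lit 511) (.e (nat_lit 98320) (nat_lit 17) (.e (nat_lit 7591) (nat_lit 407) (.e (nat_lit 73740) (nat_lit 1) .nil))) (.g (nat_lit 0) (.e (nat_lit 272622) (nat_lit 0) .nil) .nil)))))) (.nd (nat_lit 7) (.nd (nat_lit 8) (.nd (nat_lit 9) 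
(.lf (nat_lit 540781) (.g (nat_lit 3622) (.e (nat_lit 90170) (nat_lit 13) (.e (nat_lit 172113) (nat_lit 10) (.e (nat_lit 434245) (nat_lit 28) (.e (nat_lit 573474) (nat_lit 12) (.e (nat_lit 57347) (nat_lit 0) (.e (nat_lit 7261) (nat_lit 384) (.e (nat_lit 57412) (nat_lit 12) (.e (nat_lit 336008) (nat_lit 2) .nil)))))))) (.g (nat_lit 1) (.e (nat_lit 271138) (nat_lit 0) .nil) .nil))) 
(.lf (nat_lit 541293) (.g (nat_lit 486) (.e (nat_lit 90175) (nat_lit 15) (.e (nat_lit 188449) (nat_lit 22) (.e (nat_lit 196661) (nat_lit 12) .nil))) (.g (nat_lit 0) (.e (nat_lit 271800) (nat_lit 0) .nil) .nil)))) (.nd (nat_lit 9) 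
(.lf (nat_lit 541037) (.g (nat_lit 2148) (.e (nat_lit 90173) (nat_lit 14) (.e (nat_lit 180251) (nat_lit 10) (.e (nat_lit 573489) (nat_lit 14) (.e (nat_lit 73755) (nat_lit 8) (.e (nat_lit 557089) (nat_lit 12) .nil))))) (.g (nat_lit 0) (.e (nat_lit 271478) (nat_lit 0) .nil) .nil))) 
(.lf (nat_lit 541549) (.g (nat_lit 926) (.e (nat_lit 98313) (nat_lit 9) (.e (nat_lit 336027) (nat_lit 3) (.e (nat_lit 98334) (nat_lit 18) .nil))) (.g (nat_lit 0) (.e (nat_lit 272415) (nat_lit 0) .nil) .nil))))) (.nd (nat_lit 8) (.nd (nat_lit 9) 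
(.lf (nat_lit 540909) (.g (nat_lit 458) (.e (nat_lit 90172) (nat_lit 14) (.e (nat_lit 180229) (nat_lit 0) (.e (nat_lit 5548) (nat_lit 306) .nil))) (.g (nat_lit 0) (.e (nat_lit 271276) (nat_lit 0) .nil) .nil))) 
(.lf (nat_lit 541421) (.g (nat_lit 2068) (.e (nat_lit 90185) (nat_lit 17) (.e (nat_lit 237605) (nat_lit 9) (.e (nat_lit 426436) (nat_lit 18) (.e (nat_lit 98339) (nat_lit 19) (.e (nat_lit 213031) (nat_lit 11) .nil))))) (.g (nat_lit 0) (.e (nat_lit 272024) (nat_lit 0) .nil) .nil)))) (.nd (nat_lit 9) 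
(.lf (nat_lit 541165) (.g (nat_lit 3721) (.e (nat_lit 90174) (nat_lit 14) (.e (nat_lit 180250) (nat_lit 10) (.e (nat_lit 573489) (nat_lit 14) (.e (nat_lit 73755) (nat_lit 8) (.e (nat_lit 557067) (nat_lit 9) (.e (nat_lit 2602) (nat_lit 163) (.e (nat_lit 164399) (nat_lit 256) (.e (nat_lit 57373) (nat_lit 2) .nil)))))))) (.g (nat_lit 1) (.e (nat_lit 271670) (nat_lit 0) .nil) .nil))) 
(.lf (nat_lit 541677) (.g (nat_lit 3482) (.e (nat_lit 98333) (nat_lit 18) (.e (nat_lit 164179) (nat_lit 154) (.e (nat_lit 57378) (nat_lit 3) (.e (nat_lit 98341) (nat_lit 20) (.e (nat_lit 221215) (nat_lit 23) (.e (nat_lit 204861) (nat_lit 26) (.e (nat_lit 336026) (nat_lit 3) .nil))))))) (.g (nat_lit 1) (.e (nat_lit 272778) (nat_lit 0) .nil) .nil)))))))) 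
(.nd (nat_lit 5) (.nd (nat_lit 6) (.nd (nat_lit 7) (.nd (nat_lit 8) (.nd (nat_lit 9) 
(.lf (nat_lit 540701) (.g (nat_lit 3726) (.e (nat_lit 90170) (nat_lit 13) (.e (nat_lit 172106) (nat_lit 10) (.e (nat_lit 434244) (nat_lit 28) (.e (nat_lit 573474) (nat_lit 12) (.e (nat_lit 57354) (nat_lit 0) (.e (nat_lit 7270) (nat_lit 385) (.e (nat_lit 122906) (nat_lit 12) (.e (nat_lit 336006) (nat_lit 2) .nil)))))))) (.g (nat_lit 1) (.e (nat_lit 271058) (nat_lit 0) .nil) .nil))) 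
(.lf (nat_lit 541213) (.g (nat_lit 1097) (.e (nat_lit 90174) (nat_lit 14) (.e (nat_lit 180251) (nat_lit 10) (.e (nat_lit 573475) (nat_lit 12) (.e (nat_lit 57503) (nat_lit 38) .nil)))) (.g (nat_lit 0) (.e (nat_lit 271718) (nat_lit 0) .nil) .nil)))) (.nd (nat_lit 9) 
(.lf (nat_lit 540957) (.g (nat_lit 1836) (.e (nat_lit 90172) (nat_lit 14) (.e (nat_lit 180244) (nat_lit 5) (.e (nat_lit 532504) (nat_lit 1) (.e (nat_lit 57693) (nat_lit 157) .nil)))) (.g (nat_lit 0) (.e (nat_lit 271383) (nat_lit 0) .nil) .nil))) 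
(.lf (nat_lit 541469) (.g (nat_lit 2791) (.e (nat_lit 90185) (nat_lit 17) (.e (nat_lit 237619) (nat_lit 12) (.e (nat_lit 475179) (nat_lit 24) (.e (nat_lit 516124) (nat_lit 2) (.e (nat_lit 213030) (nat_lit 11) (.e (nat_lit 24604) (nat_lit 2) .nil)))))) (.g (nat_lit 1) (.e (nat_lit 272072) (nat_lit 0) .nil) .nil))))) (.nd (nat_lit 8) (.nd (nat_lit 9) 
(.lf (nat_lit 540829) (.g (nat_lit 1621) (.e (nat_lit 90170) (nat_lit 13) (.e (nat_lit 172113) (nat_lit 10) (.e (nat_lit 434248) (nat_lit 28) (.e (nat_lit 573457) (nat_lit 9) (.e (nat_lit 7936) (nat_lit 33) .nil))))) (.g (nat_lit 0) (.e (nat_lit 271191) (nat_lit 0) .nil) .nil))) 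
(.lf (nat_lit 541341) (.g (nat_lit 1395) (.e (nat_lit 90176) (nat_lit 15) (.e (nat_lit 188450) (nat_lit 23) (.e (nat_lit 204845) (nat_lit 24) (.e (nat_lit 327424) (nat_lit 10) .nil)))) (.g (nat_lit 0) (.e (nat_lit 271870) (nat_lit 0) .nil) .nil)))) (.nd (nat_lit 9) 
(.lf (nat_lit 541085) (.g (nat_lit 2893) (.e (nat_lit 90174) (nat_lit 14) (.e (nat_lit 180243) (nat_lit 5) (.e (nat_lit 532499) (nat_lit 1) (.e (nat_lit 57688) (nat_lit 156) (.e (nat_lit 163844) (nat_lit 0) (.e (nat_lit 3248) (nat_lit 197) (.e (nat_lit 532513) (nat_lit 3) (.e (nat_lit 114714) (nat_lit 22) .nil)))))))) (.g (nat_lit 1) (.e (nat_lit 271545) (nat_lit 0) .nil) .nil))) 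
(.lf (nat_lit 541597) (.g (nat_lit 3013) (.e (nat_lit 98317) (nat_lit 9) (.e (nat_lit 335996) (nat_lit 1) (.e (nat_lit 57930) (nat_lit 282) (.e (nat_lit 163902) (nat_lit 12) (.e (nat_lit 426555) (nat_lit 32) (.e (nat_lit 376869) (nat_lit 23) .nil)))))) (.g (nat_lit 1) (.e (nat_lit 272524) (nat_lit 0) .nil) .nil)))))) (.nd (nat_lit 7) (.nd (nat_lit 8) (.nd (nat_lit 9) 
(.lf (nat_lit 540765) (.g (nat_lit 2092) (.e (nat_lit 90170) (nat_lit 13) (.e (nat_lit 172113) (nat_lit 10) (.e (nat_lit 434245) (nat_lit 28) (.e (nat_lit 573471) (nat_lit 11) (.e (nat_lit 16384) (nat_lit 0) .nil))))) (.g (nat_lit 0) (.e (nat_lit 271122) (nat_lit 0) .nil) .nil))) 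
(.lf (nat_lit 541277) (.g (nat_lit 2368) (.e (nat_lit 90174) (nat_lit 14) (.e (nat_lit 180251) (nat_lit 10) (.e (nat_lit 573489) (nat_lit 14) (.e (nat_lit 73755) (nat_lit 8) (.e (nat_lit 557091) (nat_lit 12) (.e (nat_lit 171776) (nat_lit 0) (.e (nat_lit 5937) (nat_lit 322) (.e (nat_lit 57370) (nat_lit 2) .nil)))))))) (.g (nat_lit 1) (.e (nat_lit 271782) (nat_lit 0) .nil) .nil)))) (.nd (nat_lit 9) 
(.lf (nat_lit 541021) (.g (nat_lit 3377) (.e (nat_lit 90172) (nat_lit 14) (.e (nat_lit 180250) (nat_lit 10) (.e (nat_lit 573489) (nat_lit 14) (.e (nat_lit 73755) (nat_lit 8) (.e (nat_lit 557119) (nat_lit 18) (.e (nat_lit 2798) (nat_lit 180) (.e (nat_lit 311040) (nat_lit 17) .nil))))))) (.g (nat_lit 1) (.e (nat_lit 271451) (nat_lit 0) .nil) .nil))) 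
(.lf (nat_lit 541533) (.g (nat_lit 1110) (.e (nat_lit 98313) (nat_lit 9) (.e (nat_lit 335988) (nat_lit 1) (.e (nat_lit 57929) (nat_lit 282) .nil))) (.g (nat_lit 0) (.e (nat_lit 272354) (nat_lit 0) .nil) .nil))))) (.nd (nat_lit 8) (.nd (nat_lit 9) 
(.lf (nat_lit 540893) (.g (nat_lit 4724) (.e (nat_lit 90170) (nat_lit 13) (.e (nat_lit 172124) (nat_lit 14) (.e (nat_lit 491537) (nat_lit 2) (.e (nat_lit 90170) (nat_lit 13) (.e (nat_lit 172124) (nat_lit 14) (.e (nat_lit 491537) (nat_lit 2) .nil)))))) (.g (nat_lit 1) (.e (nat_lit 271257) (nat_lit 0) .nil) .nil))) 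
(.lf (nat_lit 541405) (.g (nat_lit 2231) (.e (nat_lit 90185) (nat_lit 17) (.e (nat_lit 237601) (nat_lit 9) (.e (nat_lit 426436) (nat_lit 18) (.e (nat_lit 98338) (nat_lit 19) (.e (nat_lit 213032) (nat_lit 11) (.e (nat_lit 24602) (nat_lit 2) .nil)))))) (.g (nat_lit 1) (.e (nat_lit 272008) (nat_lit 0) .nil) .nil)))) (.nd (nat_lit 9) 
(.lf (nat_lit 541149) (.g (nat_lit 1593) (.e (nat_lit 90174) (nat_lit 14) (.e (nat_lit 180250) (nat_lit 10) (.e (nat_lit 573475) (nat_lit 12) (.e (nat_lit 57507) (nat_lit 39) .nil)))) (.g (nat_lit 0) (.e (nat_lit 271654) (nat_lit 0) .nil) .nil))) 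
(.lf (nat_lit 541661) (.g (nat_lit 2100) (.e (nat_lit 98332) (nat_lit 18) (.e (nat_lit 164331) (nat_lit 230) (.e (nat_lit 163902) (nat_lit 12) (.e (nat_lit 426479) (nat_lit 27) (.e (nat_lit 336428) (nat_lit 29) .nil))))) (.g (nat_lit 0) (.e (nat_lit 272739) (nat_lit 0) .nil) .nil))))))) (.nd (nat_lit 6) (.nd (nat_lit 7) (.nd (nat_lit 8) (.nd (nat_lit 9) 
(.lf (nat_lit 540733) (.g (nat_lit 2802) (.e (nat_lit 90170) (nat_lit 13) (.e (nat_lit 172113) (nat_lit 10) (.e (nat_lit 434242) (nat_lit 28) (.e (nat_lit 573474) (nat_lit 12) (.e (nat_lit 57347) (nat_lit 0) (.e (nat_lit 7265) (nat_lit 384) (.e (nat_lit 57412) (nat_lit 12) (.e (nat_lit 336005) (nat_lit 2) .nil)))))))) (.g (nat_lit 1) (.e (nat_lit 271090) (nat_lit 0) .nil) .nil))) 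
(.lf (nat_lit 541245) (.g (nat_lit 3516) (.e (nat_lit 90174) (nat_lit 14) (.e (nat_lit 180251) (nat_lit 10) (.e (nat_lit 573489) (nat_lit 14) (.e (nat_lit 73755) (nat_lit 8) (.e (nat_lit 557090) (nat_lit 12) (.e (nat_lit 163841) (nat_lit 0) (.e (nat_lit 5934) (nat_lit 322) (.e (nat_lit 57375) (nat_lit 2) .nil)))))))) (.g (nat_lit 1) (.e (nat_lit 271750) (nat_lit 0) .nil) .nil)))) (.nd (nat_lit 9) 
(.lf (nat_lit 540989) (.g (nat_lit 4637) (.e (nat_lit 90172) (nat_lit 14) (.e (nat_lit 180250) (nat_lit 10) (.e (nat_lit 573488) (nat_lit 14) (.e (nat_lit 73755) (nat_lit 8) (.e (nat_lit 557090) (nat_lit 12) (.e (nat_lit 163843) (nat_lit 0) (.e (nat_lit 5943) (nat_lit 322) (.e (nat_lit 57372) (nat_lit 2) .nil)))))))) (.g (nat_lit 1) (.e (nat_lit 271419) (nat_lit 0) .nil) .nil))) 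
(.lf (nat_lit 541501) (.g (nat_lit 1262) (.e (nat_lit 106240) (nat_lit 5) (.e (nat_lit 147496) (nat_lit 11) (.e (nat_lit 24604) (nat_lit 2) (.e (nat_lit 90170) (nat_lit 13) .nil)))) (.g (nat_lit 0) (.e (nat_lit 272279) (nat_lit 0) .nil) .nil))))) (.nd (nat_lit 8) (.nd (nat_lit 9) 
(.lf (nat_lit 540861) (.g (nat_lit 1183) (.e (nat_lit 90170) (nat_lit 13) (.e (nat_lit 172115) (nat_lit 10) (.e (nat_lit 434244) (nat_lit 28) (.e (nat_lit 573471) (nat_lit 11) .nil)))) (.g (nat_lit 0) (.e (nat_lit 271225) (nat_lit 0) .nil) .nil))) 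
(.lf (nat_lit 541373) (.g (nat_lit 3543) (.e (nat_lit 90178) (nat_lit 15) (.e (nat_lit 188421) (nat_lit 11) (.e (nat_lit 335986) (nat_lit 1) (.e (nat_lit 57688) (nat_lit 156) (.e (nat_lit 163902) (nat_lit 12) (.e (nat_lit 426428) (nat_lit 17) .nil)))))) (.g (nat_lit 1) (.e (nat_lit 271918) (nat_lit 0) .nil) .nil)))) (.nd (nat_lit 9) 
(.lf (nat_lit 541117) (.g (nat_lit 2740) (.e (nat_lit 90174) (nat_lit 14) (.e (nat_lit 180243) (nat_lit 5) (.e (nat_lit 532503) (nat_lit 1) (.e (nat_lit 57688) (nat_lit 156) (.e (nat_lit 163874) (nat_lit 3) (.e (nat_lit 204838) (nat_lit 20) (.e (nat_lit 114715) (nat_lit 22) .nil))))))) (.g (nat_lit 1) (.e (nat_lit 271610) (nat_lit 0) .nil) .nil))) 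
(.lf (nat_lit 541629) (.g (nat_lit 3971) (.e (nat_lit 98323) (nat_lit 17) (.e (nat_lit 6989) (nat_lit 377) (.e (nat_lit 2777) (nat_lit 178) (.e (nat_lit 286765) (nat_lit 15) (.e (nat_lit 3308) (nat_lit 202) (.e (nat_lit 573491) (nat_lit 15) (.e (nat_lit 81954) (nat_lit 23) .nil))))))) (.g (nat_lit 1) (.e (nat_lit 272644) (nat_lit 0) .nil) .nil)))))) 
(.nd (nat_lit 7) (.nd (nat_lit 8) (.nd (nat_lit 9) 
(.lf (nat_lit 540797) (.g (nat_lit 3865) (.e (nat_lit 90170) (nat_lit 13) (.e (nat_lit 172113) (nat_lit 10) (.e (nat_lit 434245) (nat_lit 28) (.e (nat_lit 573474) (nat_lit 12) (.e (nat_lit 57574) (nat_lit 55) (.e (nat_lit 778465) (nat_lit 11) (.e (nat_lit 24602) (nat_lit 2) .nil))))))) (.g (nat_lit 1) (.e (nat_lit 271155) (nat_lit 0) .nil) .nil))) 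
(.lf (nat_lit 541309) (.g (nat_lit 2651) (.e (nat_lit 90176) (nat_lit 15) (.e (nat_lit 188423) (nat_lit 11) (.e (nat_lit 335995) (nat_lit 1) (.e (nat_lit 57688) (nat_lit 156) (.e (nat_lit 163903) (nat_lit 12) (.e (nat_lit 426427) (nat_lit 17) .nil)))))) (.g (nat_lit 1) (.e (nat_lit 271835) (nat_lit 0) .nil) .nil)))) (.nd (nat_lit 9) 
(.lf (nat_lit 541053) (.g (nat_lit 3923) (.e (nat_lit 90173) (nat_lit 14) (.e (nat_lit 180252) (nat_lit 10) (.e (nat_lit 573489) (nat_lit 14) (.e (nat_lit 73755) (nat_lit 8) (.e (nat_lit 557067) (nat_lit 9) (.e (nat_lit 2603) (nat_lit 163) (.e (nat_lit 164403) (nat_lit 256) (.e (nat_lit 57371) (nat_lit 2) .nil)))))))) (.g (nat_lit 1) (.e (nat_lit 271501) (nat_lit 0) .nil) .nil))) 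
(.lf (nat_lit 541565) (.g (nat_lit 596) (.e (nat_lit 98317) (nat_lit 9) (.e (nat_lit 335986) (nat_lit 1) (.e (nat_lit 57926) (nat_lit 282) .nil))) (.g (nat_lit 0) (.e (nat_lit 272461) (nat_lit 0) .nil) .nil))))) (.nd (nat_lit 8) (.nd (nat_lit 9) 
(.lf (nat_lit 540925) (.g (nat_lit 2099) (.e (nat_lit 90172) (nat_lit 14) (.e (nat_lit 180243) (nat_lit 5) (.e (nat_lit 532503) (nat_lit 1) (.e (nat_lit 57687) (nat_lit 156) (.e (nat_lit 163844) (nat_lit 0) .nil))))) (.g (nat_lit 0) (.e (nat_lit 271311) (nat_lit 0) .nil) .nil))) 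
(.lf (nat_lit 541437) (.g (nat_lit 1929) (.e (nat_lit 90185) (nat_lit 17) (.e (nat_lit 237616) (nat_lit 12) (.e (nat_lit 475177) (nat_lit 24) (.e (nat_lit 516125) (nat_lit 2) (.e (nat_lit 213032) (nat_lit 11) (.e (nat_lit 24605) (nat_lit 2) .nil)))))) (.g (nat_lit 1) (.e (nat_lit 272040) (nat_lit 0) .nil) .nil)))) (.nd (nat_lit 9) 
(.lf (nat_lit 541181) (.g (nat_lit 3137) (.e (nat_lit 90174) (nat_lit 14) (.e (nat_lit 180250) (nat_lit 10) (.e (nat_lit 573489) (nat_lit 14) (.e (nat_lit 73755) (nat_lit 8) (.e (nat_lit 557090) (nat_lit 12) (.e (nat_lit 163843) (nat_lit 0) (.e (nat_lit 5942) (nat_lit 322) (.e (nat_lit 57374) (nat_lit 2) .nil)))))))) (.g (nat_lit 1) (.e (nat_lit 271686) (nat_lit 0) .nil) .nil))) 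
(.lf (nat_lit 541693) (.g (nat_lit 3235) (.e (nat_lit 98333) (nat_lit 18) (.e (nat_lit 164182) (nat_lit 154) (.e (nat_lit 57379) (nat_lit 3) (.e (nat_lit 98341) (nat_lit 20) (.e (nat_lit 221215) (nat_lit 23) (.e (nat_lit 204861) (nat_lit 26) (.e (nat_lit 336026) (nat_lit 3) .nil))))))) (.g (nat_lit 1) (.e (nat_lit 272807) (nat_lit 0) .nil) .nil))))))))))) 
(.nd (nat_lit 2) (.nd (nat_lit 3) (.nd (nat_lit 4) (.nd (nat_lit 5) (.nd (nat_lit 6) 
(.nd (nat_lit 7) (.nd (nat_lit 8) (.nd (nat_lit 9) 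
(.lf (nat_lit 540675) (.g (nat_lit 2233) (.e (nat_lit 90170) (nat_lit 13) (.e (nat_lit 172106) (nat_lit 10) (.e (nat_lit 434244) (nat_lit 28) (.e (nat_lit 573454) (nat_lit 9) (.e (nat_lit 397) (nat_lit 32) .nil))))) (.g (nat_lit 0) (.e (nat_lit 271032) (nat_lit 0) .nil) .nil))) 
(.lf (nat_lit 541187) (.g (nat_lit 3339) (.e (nat_lit 90174) (nat_lit 14) (.e (nat_lit 180250) (nat_lit 10) (.e (nat_lit 573489) (nat_lit 14) (.e (nat_lit 73755) (nat_lit 8) (.e (nat_lit 557090) (nat_lit 12) (.e (nat_lit 163845) (nat_lit 0) (.e (nat_lit 5943) (nat_lit 322) (.e (nat_lit 57375) (nat_lit 2) .nil)))))))) (.g (nat_lit 1) (.e (nat_lit 271692) (nat_lit 0) .nil) .nil)))) (.nd (nat_lit 9) 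
(.lf (nat_lit 540931) (.g (nat_lit 2359) (.e (nat_lit 90172) (nat_lit 14) (.e (nat_lit 180243) (nat_lit 5) (.e (nat_lit 532513) (nat_lit 3) (.e (nat_lit 114718) (nat_lit 23) (.e (nat_lit 98334) (nat_lit 18) .nil))))) (.g (nat_lit 0) (.e (nat_lit 271325) (nat_lit 0) .nil) .nil))) 
(.lf (nat_lit 541443) (.g (nat_lit 3304) (.e (nat_lit 90185) (nat_lit 17) (.e (nat_lit 237616) (nat_lit 12) (.e (nat_lit 475179) (nat_lit 24) (.e (nat_lit 516124) (nat_lit 2) (.e (nat_lit 213032) (nat_lit 11) (.e (nat_lit 24604) (nat_lit 2) .nil)))))) (.g (nat_lit 1) (.e (nat_lit 272046) (nat_lit 0) .nil) .nil))))) (.nd (nat_lit 8) (.nd (nat_lit 9) 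
(.lf (nat_lit 540803) (.g (nat_lit 2986) (.e (nat_lit 90170) (nat_lit 13) (.e (nat_lit 172113) (nat_lit 10) (.e (nat_lit 434247) (nat_lit 28) (.e (nat_lit 573457) (nat_lit 9) (.e (nat_lit 428) (nat_lit 32) (.e (nat_lit 425990) (nat_lit 0) (.e (nat_lit 7489) (nat_lit 402) (.e (nat_lit 1239) (nat_lit 91) .nil)))))))) (.g (nat_lit 1) (.e (nat_lit 271162) (nat_lit 0) .nil) .nil))) 
(.lf (nat_lit 541315) (.g (nat_lit 3502) (.e (nat_lit 90176) (nat_lit 15) (.e (nat_lit 188423) (nat_lit 11) (.e (nat_lit 335996) (nat_lit 1) (.e (nat_lit 57692) (nat_lit 156) (.e (nat_lit 163907) (nat_lit 12) (.e (nat_lit 426428) (nat_lit 17) .nil)))))) (.g (nat_lit 1) (.e (nat_lit 271841) (nat_lit 0) .nil) .nil)))) (.nd (nat_lit 9) 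
(.lf (nat_lit 541059) (.g (nat_lit 3996) (.e (nat_lit 90173) (nat_lit 14) (.e (nat_lit 180252) (nat_lit 10) (.e (nat_lit 573489) (nat_lit 14) (.e (nat_lit 73755) (nat_lit 8) (.e (nat_lit 557090) (nat_lit 12) (.e (nat_lit 163843) (nat_lit 0) (.e (nat_lit 5941) (nat_lit 322) (.e (nat_lit 57371) (nat_lit 2) .nil)))))))) (.g (nat_lit 1) (.e (nat_lit 271507) (nat_lit 0) .nil) .nil))) 
(.lf (nat_lit 541571) (.g (nat_lit 1445) (.e (nat_lit 98317) (nat_lit 9) (.e (nat_lit 335986) (nat_lit 1) (.e (nat_lit 57931) (nat_lit 282) (.e (nat_lit 163943) (nat_lit 19) .nil)))) (.g (nat_lit 0) (.e (nat_lit 272470) (nat_lit 0) .nil) .nil)))))) (.nd (nat_lit 7) (.nd (nat_lit 8) (.nd (nat_lit 9) 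
(.lf (nat_lit 540739) (.g (nat_lit 2721) (.e (nat_lit 90170) (nat_lit 13) (.e (nat_lit 172113) (nat_lit 10) (.e (nat_lit 434242) (nat_lit 28) (.e (nat_lit 573474) (nat_lit 12) (.e (nat_lit 57351) (nat_lit 0) (.e (nat_lit 7265) (nat_lit 384) (.e (nat_lit 57412) (nat_lit 12) (.e (nat_lit 336001) (nat_lit 2) .nil)))))))) (.g (nat_lit 1) (.e (nat_lit 271096) (nat_lit 0) .nil) .nil))) 
(.lf (nat_lit 541251) (.g (nat_lit 3251) (.e (nat_lit 90174) (nat_lit 14) (.e (nat_lit 180251) (nat_lit 10) (.e (nat_lit 573489) (nat_lit 14) (.e (nat_lit 73755) (nat_lit 8) (.e (nat_lit 557090) (nat_lit 12) (.e (nat_lit 163843) (nat_lit 0) (.e (nat_lit 5942) (nat_lit 322) (.e (nat_lit 57374) (nat_lit 2) .nil)))))))) (.g (nat_lit 1) (.e (nat_lit 271756) (nat_lit 0) .nil) .nil)))) (.nd (nat_lit 9) 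
(.lf (nat_lit 540995) (.g (nat_lit 1932) (.e (nat_lit 90172) (nat_lit 14) (.e (nat_lit 180250) (nat_lit 10) (.e (nat_lit 573489) (nat_lit 14) (.e (nat_lit 73748) (nat_lit 3) .nil)))) (.g (nat_lit 0) (.e (nat_lit 271425) (nat_lit 0) .nil) .nil))) 
(.lf (nat_lit 541507) (.g (nat_lit 2376) (.e (nat_lit 98312) (nat_lit 9) (.e (nat_lit 335988) (nat_lit 1) (.e (nat_lit 57926) (nat_lit 282) (.e (nat_lit 163903) (nat_lit 12) (.e (nat_lit 426555) (nat_lit 32) (.e (nat_lit 376869) (nat_lit 23) .nil)))))) (.g (nat_lit 1) (.e (nat_lit 272293) (nat_lit 0) .nil) .nil))))) (.nd (nat_lit 8) (.nd (nat_lit 9) 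
(.lf (nat_lit 540867) (.g (nat_lit 2633) (.e (nat_lit 90170) (nat_lit 13) (.e (nat_lit 172118) (nat_lit 12) (.e (nat_lit 475177) (nat_lit 24) (.e (nat_lit 516127) (nat_lit 2) (.e (nat_lit 213030) (nat_lit 11) (.e (nat_lit 24605) (nat_lit 2) .nil)))))) (.g (nat_lit 1) (.e (nat_lit 271231) (nat_lit 0) .nil) .nil))) 
(.lf (nat_lit 541379) (.g (nat_lit 4444) (.e (nat_lit 90178) (nat_lit 15) (.e (nat_lit 188421) (nat_lit 11) (.e (nat_lit 335995) (nat_lit 1) (.e (nat_lit 57688) (nat_lit 156) (.e (nat_lit 163907) (nat_lit 12) (.e (nat_lit 426428) (nat_lit 17) .nil)))))) (.g (nat_lit 1) (.e (nat_lit 271924) (nat_lit 0) .nil) .nil)))) (.nd (nat_lit 9) 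
(.lf (nat_lit 541123) (.g (nat_lit 2480) (.e (nat_lit 90174) (nat_lit 14) (.e (nat_lit 180243) (nat_lit 5) (.e (nat_lit 532504) (nat_lit 1) (.e (nat_lit 57691) (nat_lit 156) (.e (nat_lit 163874) (nat_lit 3) (.e (nat_lit 204837) (nat_lit 20) (.e (nat_lit 114715) (nat_lit 22) .nil))))))) (.g (nat_lit 1) (.e (nat_lit 271623) (nat_lit 0) .nil) .nil))) 
(.lf (nat_lit 541635) (.g (nat_lit 448) (.e (nat_lit 98323) (nat_lit 17) (.e (nat_lit 7107) (nat_lit 380) (.e (nat_lit 164281) (nat_lit 222) .nil))) (.g (nat_lit 0) (.e (nat_lit 272650) (nat_lit 0) .nil) .nil))))))) (.nd (nat_lit 6) (.nd (nat_lit 7) (.nd (nat_lit 8) (.nd (nat_lit 9) 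
(.lf (nat_lit 540707) (.g (nat_lit 3912) (.e (nat_lit 90170) (nat_lit 13) (.e (nat_lit 172106) (nat_lit 10) (.e (nat_lit 434244) (nat_lit 28) (.e (nat_lit 573474) (nat_lit 12) (.e (nat_lit 57573) (nat_lit 55) (.e (nat_lit 778469) (nat_lit 11) (.e (nat_lit 24604) (nat_lit 2) .nil))))))) (.g (nat_lit 1) (.e (nat_lit 271064) (nat_lit 0) .nil) .nil))) 
(.lf (nat_lit 541219) (.g (nat_lit 3291) (.e (nat_lit 90174) (nat_lit 14) (.e (nat_lit 180251) (nat_lit 10) (.e (nat_lit 573489) (nat_lit 14) (.e (nat_lit 73755) (nat_lit 8) (.e (nat_lit 557067) (nat_lit 9) (.e (nat_lit 2598) (nat_lit 163) (.e (nat_lit 164399) (nat_lit 256) (.e (nat_lit 57372) (nat_lit 2) .nil)))))))) (.g (nat_lit 1) (.e (nat_lit 271724) (nat_lit 0) .nil) .nil)))) 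
(.nd (nat_lit 9) 
(.lf (nat_lit 540963) (.g (nat_lit 1757) (.e (nat_lit 90172) (nat_lit 14) (.e (nat_lit 180244) (nat_lit 5) (.e (nat_lit 532515) (nat_lit 3) (.e (nat_lit 114718) (nat_lit 23) (.e (nat_lit 98332) (nat_lit 18) .nil))))) (.g (nat_lit 0) (.e (nat_lit 271389) (nat_lit 0) .nil) .nil))) 
(.lf (nat_lit 541475) (.g (nat_lit 1964) (.e (nat_lit 90185) (nat_lit 17) (.e (nat_lit 237619) (nat_lit 12) (.e (nat_lit 475179) (nat_lit 24) (.e (nat_lit 516127) (nat_lit 2) (.e (nat_lit 213030) (nat_lit 11) (.e (nat_lit 24602) (nat_lit 2) .nil)))))) (.g (nat_lit 1) (.e (nat_lit 272078) (nat_lit 0) .nil) .nil))))) (.nd (nat_lit 8) (.nd (nat_lit 9) 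
(.lf (nat_lit 540835) (.g (nat_lit 2825) (.e (nat_lit 90170) (nat_lit 13) (.e (nat_lit 172113) (nat_lit 10) (.e (nat_lit 434248) (nat_lit 28) (.e (nat_lit 573471) (nat_lit 11) (.e (nat_lit 16472) (nat_lit 14) (.e (nat_lit 491535) (nat_lit 2) .nil)))))) (.g (nat_lit 1) (.e (nat_lit 271197) (nat_lit 0) .nil) .nil))) 
(.lf (nat_lit 541347) (.g (nat_lit 4597) (.e (nat_lit 90176) (nat_lit 15) (.e (nat_lit 188450) (nat_lit 23) (.e (nat_lit 204846) (nat_lit 24) (.e (nat_lit 319533) (nat_lit 16) (.e (nat_lit 286732) (nat_lit 2) .nil))))) (.g (nat_lit 1) (.e (nat_lit 271878) (nat_lit 0) .nil) .nil)))) (.nd (nat_lit 9) 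
(.lf (nat_lit 541091) (.g (nat_lit 4629) (.e (nat_lit 90174) (nat_lit 14) (.e (nat_lit 180243) (nat_lit 5) (.e (nat_lit 532499) (nat_lit 1) (.e (nat_lit 57688) (nat_lit 156) (.e (nat_lit 163874) (nat_lit 3) (.e (nat_lit 204836) (nat_lit 20) (.e (nat_lit 114714) (nat_lit 22) .nil))))))) (.g (nat_lit 1) (.e (nat_lit 271553) (nat_lit 0) .nil) .nil))) 
(.lf (nat_lit 541603) (.g (nat_lit 1003) (.e (nat_lit 106240) (nat_lit 9) (.e (nat_lit 335986) (nat_lit 1) (.e (nat_lit 57927) (nat_lit 282) .nil))) (.g (nat_lit 0) (.e (nat_lit 272538) (nat_lit 0) .nil) .nil)))))) (.nd (nat_lit 7) (.nd (nat_lit 8) (.nd (nat_lit 9) 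
(.lf (nat_lit 540771) (.g (nat_lit 2959) (.e (nat_lit 90170) (nat_lit 13) (.e (nat_lit 172113) (nat_lit 10) (.e (nat_lit 434245) (nat_lit 28) (.e (nat_lit 573471) (nat_lit 11) (.e (nat_lit 16394) (nat_lit 0) .nil))))) (.g (nat_lit 0) (.e (nat_lit 271128) (nat_lit 0) .nil) .nil))) 
(.lf (nat_lit 541283) (.g (nat_lit 3631) (.e (nat_lit 90174) (nat_lit 14) (.e (nat_lit 180251) (nat_lit 10) (.e (nat_lit 573489) (nat_lit 14) (.e (nat_lit 73755) (nat_lit 8) (.e (nat_lit 557119) (nat_lit 18) (.e (nat_lit 2808) (nat_lit 180) (.e (nat_lit 311040) (nat_lit 17) .nil))))))) (.g (nat_lit 1) (.e (nat_lit 271788) (nat_lit 0) .nil) .nil)))) (.nd (nat_lit 9) 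
(.lf (nat_lit 541027) (.g (nat_lit 3388) (.e (nat_lit 90172) (nat_lit 14) (.e (nat_lit 180251) (nat_lit 10) (.e (nat_lit 573489) (nat_lit 14) (.e (nat_lit 73755) (nat_lit 8) (.e (nat_lit 557090) (nat_lit 12) (.e (nat_lit 163843) (nat_lit 0) (.e (nat_lit 5942) (nat_lit 322) (.e (nat_lit 57375) (nat_lit 2) .nil)))))))) (.g (nat_lit 1) (.e (nat_lit 271457) (nat_lit 0) .nil) .nil))) 
(.lf (nat_lit 541539) (.g (nat_lit 2676) (.e (nat_lit 98313) (nat_lit 9) (.e (nat_lit 335995) (nat_lit 1) (.e (nat_lit 57930) (nat_lit 282) (.e (nat_lit 163905) (nat_lit 12) (.e (nat_lit 426555) (nat_lit 32) (.e (nat_lit 376869) (nat_lit 23) .nil)))))) (.g (nat_lit 1) (.e (nat_lit 272375) (nat_lit 0) .nil) .nil))))) (.nd (nat_lit 8) (.nd (nat_lit 9) 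
(.lf (nat_lit 540899) (.g (nat_lit 4085) (.e (nat_lit 90170) (nat_lit 13) (.e (nat_lit 172138) (nat_lit 15) (.e (nat_lit 1800) (nat_lit 119) (.e (nat_lit 516115) (nat_lit 1) (.e (nat_lit 164325) (nat_lit 230) (.e (nat_lit 163875) (nat_lit 3) (.e (nat_lit 204837) (nat_lit 20) (.e (nat_lit 114715) (nat_lit 22) .nil)))))))) (.g (nat_lit 1) (.e (nat_lit 271263) (nat_lit 0) .nil) .nil))) 
(.lf (nat_lit 541411) (.g (nat_lit 1257) (.e (nat_lit 90185) (nat_lit 17) (.e (nat_lit 237605) (nat_lit 9) (.e (nat_lit 426436) (nat_lit 18) (.e (nat_lit 98320) (nat_lit 17) (.e (nat_lit 3672) (nat_lit 227) .nil))))) (.g (nat_lit 0) (.e (nat_lit 272014) (nat_lit 0) .nil) .nil)))) (.nd (nat_lit 9) 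
(.lf (nat_lit 541155) (.g (nat_lit 2875) (.e (nat_lit 90174) (nat_lit 14) (.e (nat_lit 180250) (nat_lit 10) (.e (nat_lit 573489) (nat_lit 14) (.e (nat_lit 73754) (nat_lit 8) (.e (nat_lit 557089) (nat_lit 12) .nil))))) (.g (nat_lit 0) (.e (nat_lit 271660) (nat_lit 0) .nil) .nil))) 
(.lf (nat_lit 541667) (.g (nat_lit 2700) (.e (nat_lit 98332) (nat_lit 18) (.e (nat_lit 164399) (nat_lit 256) (.e (nat_lit 57378) (nat_lit 3) (.e (nat_lit 98367) (nat_lit 27) (.e (nat_lit 434234) (nat_lit 23) .nil))))) (.g (nat_lit 0) (.e (nat_lit 272750) (nat_lit 0) .nil) .nil)))))))) (.nd (nat_lit 5) (.nd (nat_lit 6) (.nd (nat_lit 7) (.nd (nat_lit 8) (.nd (nat_lit 9) 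
(.lf (nat_lit 540691) (.g (nat_lit 2673) (.e (nat_lit 90170) (nat_lit 13) (.e (nat_lit 172106) (nat_lit 10) (.e (nat_lit 434244) (nat_lit 28) (.e (nat_lit 573473) (nat_lit 12) (.e (nat_lit 57347) (nat_lit 0) (.e (nat_lit 7263) (nat_lit 384) (.e (nat_lit 57412) (nat_lit 12) (.e (nat_lit 336001) (nat_lit 2) .nil)))))))) (.g (nat_lit 1) (.e (nat_lit 271048) (nat_lit 0) .nil) .nil))) 
(.lf (nat_lit 541203) (.g (nat_lit 3077) (.e (nat_lit 90174) (nat_lit 14) (.e (nat_lit 180250) (nat_lit 10) (.e (nat_lit 573489) (nat_lit 14) (.e (nat_lit 73755) (nat_lit 8) (.e (nat_lit 557091) (nat_lit 12) (.e (nat_lit 163852) (nat_lit 0) (.e (nat_lit 5953) (nat_lit 322) (.e (nat_lit 57371) (nat_lit 2) .nil)))))))) (.g (nat_lit 1) (.e (nat_lit 271708) (nat_lit 0) .nil) .nil)))) (.nd (nat_lit 9) 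
(.lf (nat_lit 540947) (.g (nat_lit 2603) (.e (nat_lit 90172) (nat_lit 14) (.e (nat_lit 180244) (nat_lit 5) (.e (nat_lit 532499) (nat_lit 1) (.e (nat_lit 57688) (nat_lit 156) (.e (nat_lit 163855) (nat_lit 0) .nil))))) (.g (nat_lit 0) (.e (nat_lit 271350) (nat_lit 0) .nil) .nil))) 
(.lf (nat_lit 541459) (.g (nat_lit 2919) (.e (nat_lit 90185) (nat_lit 17) (.e (nat_lit 237619) (nat_lit 12) (.e (nat_lit 475177) (nat_lit 24) (.e (nat_lit 516125) (nat_lit 2) (.e (nat_lit 213032) (nat_lit 11) (.e (nat_lit 24604) (nat_lit 2) .nil)))))) (.g (nat_lit 1) (.e (nat_lit 272062) (nat_lit 0) .nil) .nil))))) (.nd (nat_lit 8) (.nd (nat_lit 9) 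
(.lf (nat_lit 540819) (.g (nat_lit 3335) (.e (nat_lit 90170) (nat_lit 13) (.e (nat_lit 172113) (nat_lit 10) (.e (nat_lit 434247) (nat_lit 28) (.e (nat_lit 573478) (nat_lit 12) (.e (nat_lit 57574) (nat_lit 55) (.e (nat_lit 778464) (nat_lit 11) (.e (nat_lit 24601) (nat_lit 2) .nil))))))) (.g (nat_lit 1) (.e (nat_lit 271180) (nat_lit 0) .nil) .nil))) 
(.lf (nat_lit 541331) (.g (nat_lit 3553) (.e (nat_lit 90176) (nat_lit 15) (.e (nat_lit 188440) (nat_lit 20) (.e (nat_lit 3307) (nat_lit 202) (.e (nat_lit 573477) (nat_lit 12) (.e (nat_lit 57575) (nat_lit 55) (.e (nat_lit 778464) (nat_lit 11) (.e (nat_lit 24603) (nat_lit 2) .nil))))))) (.g (nat_lit 1) (.e (nat_lit 271859) (nat_lit 0) .nil) .nil)))) (.nd (nat_lit 9) 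
(.lf (nat_lit 541075) (.g (nat_lit 2755) (.e (nat_lit 90174) (nat_lit 14) (.e (nat_lit 180243) (nat_lit 5) (.e (nat_lit 532499) (nat_lit 1) (.e (nat_lit 57655) (nat_lit 152) (.e (nat_lit 2399) (nat_lit 157) (.e (nat_lit 2685) (nat_lit 168) (.e (nat_lit 204837) (nat_lit 20) (.e (nat_lit 114716) (nat_lit 22) .nil)))))))) (.g (nat_lit 1) (.e (nat_lit 271524) (nat_lit 0) .nil) .nil))) 
(.lf (nat_lit 541587) (.g (nat_lit 1815) (.e (nat_lit 98317) (nat_lit 9) (.e (nat_lit 335988) (nat_lit 1) (.e (nat_lit 57931) (nat_lit 282) (.e (nat_lit 163943) (nat_lit 19) .nil)))) (.g (nat_lit 0) (.e (nat_lit 272499) (nat_lit 0) .nil) .nil)))))) (.nd (nat_lit 7) (.nd (nat_lit 8) (.nd (nat_lit 9) 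
(.lf (nat_lit 540755) (.g (nat_lit 2500) (.e (nat_lit 90170) (nat_lit 13) (.e (nat_lit 172113) (nat_lit 10) (.e (nat_lit 434245) (nat_lit 28) (.e (nat_lit 573458) (nat_lit 9) (.e (nat_lit 420) (nat_lit 32) (.e (nat_lit 425989) (nat_lit 0) (.e (nat_lit 7489) (nat_lit 402) (.e (nat_lit 1239) (nat_lit 91) .nil)))))))) (.g (nat_lit 1) (.e (nat_lit 271112) (nat_lit 0) .nil) .nil))) 
(.lf (nat_lit 541267) (.g (nat_lit 3831) (.e (nat_lit 90174) (nat_lit 14) (.e (nat_lit 180251) (nat_lit 10) (.e (nat_lit 573489) (nat_lit 14) (.e (nat_lit 73755) (nat_lit 8) (.e (nat_lit 557090) (nat_lit 12) (.e (nat_lit 163852) (nat_lit 0) (.e (nat_lit 5946) (nat_lit 322) (.e (nat_lit 57373) (nat_lit 2) .nil)))))))) (.g (nat_lit 1) (.e (nat_lit 271772) (nat_lit 0) .nil) .nil)))) (.nd (nat_lit 9) 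
(.lf (nat_lit 541011) (.g (nat_lit 3489) (.e (nat_lit 90172) (nat_lit 14) (.e (nat_lit 180250) (nat_lit 10) (.e (nat_lit 573489) (nat_lit 14) (.e (nat_lit 73755) (nat_lit 8) (.e (nat_lit 557090) (nat_lit 12) (.e (nat_lit 163844) (nat_lit 0) (.e (nat_lit 5934) (nat_lit 322) (.e (nat_lit 57375) (nat_lit 2) .nil)))))))) (.g (nat_lit 1) (.e (nat_lit 271441) (nat_lit 0) .nil) .nil))) 
(.lf (nat_lit 541523) (.g (nat_lit 2941) (.e (nat_lit 98313) (nat_lit 9) (.e (nat_lit 335986) (nat_lit 1) (.e (nat_lit 57931) (nat_lit 282) (.e (nat_lit 163902) (nat_lit 12) (.e (nat_lit 426555) (nat_lit 32) (.e (nat_lit 376867) (nat_lit 23) .nil)))))) (.g (nat_lit 1) (.e (nat_lit 272329) (nat_lit 0) .nil) .nil))))) (.nd (nat_lit 8) (.nd (nat_lit 9) 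
(.lf (nat_lit 540883) (.g (nat_lit 3505) (.e (nat_lit 90170) (nat_lit 13) (.e (nat_lit 172123) (nat_lit 13) (.e (nat_lit 483337) (nat_lit 9) (.e (nat_lit 426098) (nat_lit 1) (.e (nat_lit 164399) (nat_lit 256) (.e (nat_lit 57374) (nat_lit 2) .nil)))))) (.g (nat_lit 1) (.e (nat_lit 271247) (nat_lit 0) .nil) .nil))) 
(.lf (nat_lit 541395) (.g (nat_lit 3623) (.e (nat_lit 90181) (nat_lit 16) (.e (nat_lit 229462) (nat_lit 55) (.e (nat_lit 778462) (nat_lit 11) (.e (nat_lit 24608) (nat_lit 3) (.e (nat_lit 98365) (nat_lit 26) (.e (nat_lit 426188) (nat_lit 9) (.e (nat_lit 426428) (nat_lit 17) .nil))))))) (.g (nat_lit 1) (.e (nat_lit 271975) (nat_lit 0) .nil) .nil)))) (.nd (nat_lit 9) 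
(.lf (nat_lit 541139) (.g (nat_lit 2941) (.e (nat_lit 90174) (nat_lit 14) (.e (nat_lit 180243) (nat_lit 5) (.e (nat_lit 532515) (nat_lit 3) (.e (nat_lit 114719) (nat_lit 23) (.e (nat_lit 98321) (nat_lit 17) (.e (nat_lit 2464) (nat_lit 157) (.e (nat_lit 5953) (nat_lit 322) (.e (nat_lit 57373) (nat_lit 2) .nil)))))))) (.g (nat_lit 1) (.e (nat_lit 271643) (nat_lit 0) .nil) .nil))) 
(.lf (nat_lit 541651) (.g (nat_lit 1220) (.e (nat_lit 98332) (nat_lit 18) (.e (nat_lit 164325) (nat_lit 230) (.e (nat_lit 163903) (nat_lit 12) (.e (nat_lit 426479) (nat_lit 27) .nil)))) (.g (nat_lit 0) (.e (nat_lit 272702) (nat_lit 0) .nil) .nil))))))) (.nd (nat_lit 6) (.nd (nat_lit 7) (.nd (nat_lit 8) (.nd (nat_lit 9) 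
(.lf (nat_lit 540723) (.g (nat_lit 4190) (.e (nat_lit 90170) (nat_lit 13) (.e (nat_lit 172113) (nat_lit 10) (.e (nat_lit 434231) (nat_lit 23) (.e (nat_lit 532523) (nat_lit 7) (.e (nat_lit 319536) (nat_lit 17) (.e (nat_lit 294928) (nat_lit 2) .nil)))))) (.g (nat_lit 1) (.e (nat_lit 271080) (nat_lit 0) .nil) .nil))) 
(.lf (nat_lit 541235) (.g (nat_lit 3282) (.e (nat_lit 90174) (nat_lit 14) (.e (nat_lit 180251) (nat_lit 10) (.e (nat_lit 573489) (nat_lit 14) (.e (nat_lit 73755) (nat_lit 8) (.e (nat_lit 557090) (nat_lit 12) (.e (nat_lit 163840) (nat_lit 0) (.e (nat_lit 5931) (nat_lit 322) (.e (nat_lit 57371) (nat_lit 2) .nil)))))))) (.g (nat_lit 1) (.e (nat_lit 271740) (nat_lit 0) .nil) .nil)))) (.nd (nat_lit 9) 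
(.lf (nat_lit 540979) (.g (nat_lit 4314) (.e (nat_lit 90172) (nat_lit 14) (.e (nat_lit 180250) (nat_lit 10) (.e (nat_lit 573487) (nat_lit 14) (.e (nat_lit 73753) (nat_lit 8) (.e (nat_lit 557091) (nat_lit 12) (.e (nat_lit 163841) (nat_lit 0) (.e (nat_lit 5943) (nat_lit 322) (.e (nat_lit 57375) (nat_lit 2) .nil)))))))) (.g (nat_lit 1) (.e (nat_lit 271409) (nat_lit 0) .nil) .nil))) 
(.lf (nat_lit 541491) (.g (nat_lit 303) (.e (nat_lit 90189) (nat_lit 18) (.e (nat_lit 2788) (nat_lit 179) (.e (nat_lit 294959) (nat_lit 13) .nil))) (.g (nat_lit 0) (.e (nat_lit 272123) (nat_lit 0) .nil) .nil))))) (.nd (nat_lit 8) (.nd (nat_lit 9) 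
(.lf (nat_lit 540851) (.g (nat_lit 2340) (.e (nat_lit 90170) (nat_lit 13) (.e (nat_lit 172113) (nat_lit 10) (.e (nat_lit 434248) (nat_lit 28) (.e (nat_lit 573475) (nat_lit 12) (.e (nat_lit 57351) (nat_lit 0) (.e (nat_lit 7265) (nat_lit 384) (.e (nat_lit 57406) (nat_lit 12) (.e (nat_lit 343808) (nat_lit 2) .nil)))))))) (.g (nat_lit 1) (.e (nat_lit 271213) (nat_lit 0) .nil) .nil))) 
(.lf (nat_lit 541363) (.g (nat_lit 723) (.e (nat_lit 90176) (nat_lit 15) (.e (nat_lit 188452) (nat_lit 23) (.e (nat_lit 204848) (nat_lit 25) .nil))) (.g (nat_lit 0) (.e (nat_lit 271896) (nat_lit 0) .nil) .nil)))) (.nd (nat_lit 9) 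
(.lf (nat_lit 541107) (.g (nat_lit 3089) (.e (nat_lit 90174) (nat_lit 14) (.e (nat_lit 180243) (nat_lit 5) (.e (nat_lit 532502) (nat_lit 1) (.e (nat_lit 57692) (nat_lit 156) (.e (nat_lit 163874) (nat_lit 3) (.e (nat_lit 204836) (nat_lit 20) (.e (nat_lit 114714) (nat_lit 22) .nil))))))) (.g (nat_lit 1) (.e (nat_lit 271589) (nat_lit 0) .nil) .nil))) 
(.lf (nat_lit 541619) (.g (nat_lit 3368) (.e (nat_lit 98320) (nat_lit 17) (.e (nat_lit 7593) (nat_lit 407) (.e (nat_lit 73748) (nat_lit 3) (.e (nat_lit 516102) (nat_lit 0) (.e (nat_lit 6989) (nat_lit 377) (.e (nat_lit 2777) (nat_lit 178) (.e (nat_lit 286735) (nat_lit 3) .nil))))))) (.g (nat_lit 1) (.e (nat_lit 272629) (nat_lit 0) .nil) .nil)))))) (.nd (nat_lit 7) (.nd (nat_lit 8) (.nd (nat_lit 9) 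
(.lf (nat_lit 540787) (.g (nat_lit 2544) (.e (nat_lit 90170) (nat_lit 13) (.e (nat_lit 172113) (nat_lit 10) (.e (nat_lit 434245) (nat_lit 28) (.e (nat_lit 573474) (nat_lit 12) (.e (nat_lit 57348) (nat_lit 0) (.e (nat_lit 7265) (nat_lit 384) (.e (nat_lit 57406) (nat_lit 12) (.e (nat_lit 343808) (nat_lit 2) .nil)))))))) (.g (nat_lit 1) (.e (nat_lit 271144) (nat_lit 0) .nil) .nil))) 
(.lf (nat_lit 541299) (.g (nat_lit 836) (.e (nat_lit 90175) (nat_lit 15) (.e (nat_lit 188452) (nat_lit 23) (.e (nat_lit 204848) (nat_lit 25) .nil))) (.g (nat_lit 0) (.e (nat_lit 271824) (nat_lit 0) .nil) .nil)))) (.nd (nat_lit 9) 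
(.lf (nat_lit 541043) (.g (nat_lit 3198) (.e (nat_lit 90173) (nat_lit 14) (.e (nat_lit 180251) (nat_lit 10) (.e (nat_lit 573489) (nat_lit 14) (.e (nat_lit 73755) (nat_lit 8) (.e (nat_lit 557119) (nat_lit 18) (.e (nat_lit 2797) (nat_lit 180) (.e (nat_lit 311040) (nat_lit 17) .nil))))))) (.g (nat_lit 1) (.e (nat_lit 271484) (nat_lit 0) .nil) .nil))) 
(.lf (nat_lit 541555) (.g (nat_lit 868) (.e (nat_lit 98316) (nat_lit 9) (.e (nat_lit 335986) (nat_lit 1) (.e (nat_lit 57927) (nat_lit 282) .nil))) (.g (nat_lit 0) (.e (nat_lit 272440) (nat_lit 0) .nil) .nil))))) (.nd (nat_lit 8) (.nd (nat_lit 9) 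
(.lf (nat_lit 540915) (.g (nat_lit 2297) (.e (nat_lit 90172) (nat_lit 14) (.e (nat_lit 180243) (nat_lit 5) (.e (nat_lit 532499) (nat_lit 1) (.e (nat_lit 57664) (nat_lit 152) .nil)))) (.g (nat_lit 0) (.e (nat_lit 271284) (nat_lit 0) .nil) .nil))) 
(.lf (nat_lit 541427) (.g (nat_lit 1759) (.e (nat_lit 90185) (nat_lit 17) (.e (nat_lit 237616) (nat_lit 12) (.e (nat_lit 475177) (nat_lit 24) (.e (nat_lit 516097) (nat_lit 0) (.e (nat_lit 3661) (nat_lit 227) (.e (nat_lit 778462) (nat_lit 11) (.e (nat_lit 24604) (nat_lit 2) .nil))))))) (.g (nat_lit 1) (.e (nat_lit 272030) (nat_lit 0) .nil) .nil)))) (.nd (nat_lit 9) 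
(.lf (nat_lit 541171) (.g (nat_lit 2775) (.e (nat_lit 90174) (nat_lit 14) (.e (nat_lit 180250) (nat_lit 10) (.e (nat_lit 573489) (nat_lit 14) (.e (nat_lit 73755) (nat_lit 8) (.e (nat_lit 557074) (nat_lit 9) (.e (nat_lit 2607) (nat_lit 163) (.e (nat_lit 164396) (nat_lit 256) (.e (nat_lit 57371) (nat_lit 2) .nil)))))))) (.g (nat_lit 1) (.e (nat_lit 271676) (nat_lit 0) .nil) .nil))) 
(.lf (nat_lit 541683) (.g (nat_lit 1480) (.e (nat_lit 98333) (nat_lit 18) (.e (nat_lit 164179) (nat_lit 154) (.e (nat_lit 57406) (nat_lit 12) (.e (nat_lit 336454) (nat_lit 34) (.e (nat_lit 483384) (nat_lit 23) .nil))))) (.g (nat_lit 0) (.e (nat_lit 272784) (nat_lit 0) .nil) .nil))))))))) (.nd (nat_lit 4) (.nd (nat_lit 5) (.nd (nat_lit 6) (.nd (nat_lit 7) (.nd (nat_lit 8) (.nd (nat_lit 9) 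
(.lf (nat_lit 540683) (.g (nat_lit 2316) (.e (nat_lit 90170) (nat_lit 13) (.e (nat_lit 172106) (nat_lit 10) (.e (nat_lit 434244) (nat_lit 28) (.e (nat_lit 573458) (nat_lit 9) (.e (nat_lit 426) (nat_lit 32) (.e (nat_lit 426341) (nat_lit 14) (.e (nat_lit 491535) (nat_lit 2) .nil))))))) (.g (nat_lit 1) (.e (nat_lit 271040) (nat_lit 0) .nil) .nil))) 
(.lf (nat_lit 541195) (.g (nat_lit 3294) (.e (nat_lit 90174) (nat_lit 14) (.e (nat_lit 180250) (nat_lit 10) (.e (nat_lit 573489) (nat_lit 14) (.e (nat_lit 73755) (nat_lit 8) (.e (nat_lit 557091) (nat_lit 12) (.e (nat_lit 163841) (nat_lit 0) (.e (nat_lit 5933) (nat_lit 322) (.e (nat_lit 57375) (nat_lit 2) .nil)))))))) (.g (nat_lit 1) (.e (nat_lit 271700) (nat_lit 0) .nil) .nil)))) (.nd (nat_lit 9) 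
(.lf (nat_lit 540939) (.g (nat_lit 1832) (.e (nat_lit 90172) (nat_lit 14) (.e (nat_lit 180244) (nat_lit 5) (.e (nat_lit 532499) (nat_lit 1) (.e (nat_lit 57658) (nat_lit 152) .nil)))) (.g (nat_lit 0) (.e (nat_lit 271334) (nat_lit 0) .nil) .nil))) 
(.lf (nat_lit 541451) (.g (nat_lit 2087) (.e (nat_lit 90185) (nat_lit 17) (.e (nat_lit 237619) (nat_lit 12) (.e (nat_lit 475177) (nat_lit 24) (.e (nat_lit 516097) (nat_lit 0) (.e (nat_lit 3657) (nat_lit 227) (.e (nat_lit 778462) (nat_lit 11) (.e (nat_lit 24604) (nat_lit 2) .nil))))))) (.g (nat_lit 1) (.e (nat_lit 272054) (nat_lit 0) .nil) .nil))))) (.nd (nat_lit 8) (.nd (nat_lit 9) 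
(.lf (nat_lit 540811) (.g (nat_lit 2884) (.e (nat_lit 90170) (nat_lit 13) (.e (nat_lit 172113) (nat_lit 10) (.e (nat_lit 434247) (nat_lit 28) (.e (nat_lit 573477) (nat_lit 12) (.e (nat_lit 57351) (nat_lit 0) (.e (nat_lit 7261) (nat_lit 384) (.e (nat_lit 57412) (nat_lit 12) (.e (nat_lit 336001) (nat_lit 2) .nil)))))))) (.g (nat_lit 1) (.e (nat_lit 271170) (nat_lit 0) .nil) .nil))) 
(.lf (nat_lit 541323) (.g (nat_lit 3403) (.e (nat_lit 90176) (nat_lit 15) (.e (nat_lit 188439) (nat_lit 20) (.e (nat_lit 3304) (nat_lit 202) (.e (nat_lit 573477) (nat_lit 12) (.e (nat_lit 57575) (nat_lit 55) (.e (nat_lit 778465) (nat_lit 11) (.e (nat_lit 24603) (nat_lit 2) .nil))))))) (.g (nat_lit 1) (.e (nat_lit 271849) (nat_lit 0) .nil) .nil)))) (.nd (nat_lit 9) 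
(.lf (nat_lit 541067) (.g (nat_lit 3405) (.e (nat_lit 90173) (nat_lit 14) (.e (nat_lit 180252) (nat_lit 10) (.e (nat_lit 573489) (nat_lit 14) (.e (nat_lit 73755) (nat_lit 8) (.e (nat_lit 557090) (nat_lit 12) (.e (nat_lit 163854) (nat_lit 0) (.e (nat_lit 5950) (nat_lit 322) (.e (nat_lit 57371) (nat_lit 2) .nil)))))))) (.g (nat_lit 1) (.e (nat_lit 271515) (nat_lit 0) .nil) .nil))) 
(.lf (nat_lit 541579) (.g (nat_lit 1227) (.e (nat_lit 98317) (nat_lit 9) (.e (nat_lit 335988) (nat_lit 1) (.e (nat_lit 57926) (nat_lit 282) (.e (nat_lit 163941) (nat_lit 19) .nil)))) (.g (nat_lit 0) (.e (nat_lit 272480) (nat_lit 0) .nil) .nil)))))) (.nd (nat_lit 7) (.nd (nat_lit 8) (.nd (nat_lit 9) 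
(.lf (nat_lit 540747) (.g (nat_lit 2366) (.e (nat_lit 90170) (nat_lit 13) (.e (nat_lit 172113) (nat_lit 10) (.e (nat_lit 434245) (nat_lit 28) (.e (nat_lit 573449) (nat_lit 9) (.e (nat_lit 452) (nat_lit 33) (.e (nat_lit 442112) (nat_lit 0) (.e (nat_lit 1239) (nat_lit 91) .nil))))))) (.g (nat_lit 1) (.e (nat_lit 271104) (nat_lit 0) .nil) .nil))) 
(.lf (nat_lit 541259) (.g (nat_lit 3875) (.e (nat_lit 90174) (nat_lit 14) (.e (nat_lit 180251) (nat_lit 10) (.e (nat_lit 573489) (nat_lit 14) (.e (nat_lit 73755) (nat_lit 8) (.e (nat_lit 557090) (nat_lit 12) (.e (nat_lit 163845) (nat_lit 0) (.e (nat_lit 5940) (nat_lit 322) (.e (nat_lit 57373) (nat_lit 2) .nil)))))))) (.g (nat_lit 1) (.e (nat_lit 271764) (nat_lit 0) .nil) .nil)))) (.nd (nat_lit 9) 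
(.lf (nat_lit 541003) (.g (nat_lit 4220) (.e (nat_lit 90172) (nat_lit 14) (.e (nat_lit 180250) (nat_lit 10) (.e (nat_lit 573489) (nat_lit 14) (.e (nat_lit 73755) (nat_lit 8) (.e (nat_lit 557090) (nat_lit 12) (.e (nat_lit 163841) (nat_lit 0) (.e (nat_lit 5943) (nat_lit 322) (.e (nat_lit 57375) (nat_lit 2) .nil)))))))) (.g (nat_lit 1) (.e (nat_lit 271433) (nat_lit 0) .nil) .nil))) 
(.lf (nat_lit 541515) (.g (nat_lit 2945) (.e (nat_lit 98313) (nat_lit 9) (.e (nat_lit 335986) (nat_lit 1) (.e (nat_lit 57926) (nat_lit 282) (.e (nat_lit 163905) (nat_lit 12) (.e (nat_lit 426555) (nat_lit 32) (.e (nat_lit 376867) (nat_lit 23) .nil)))))) (.g (nat_lit 1) (.e (nat_lit 272312) (nat_lit 0) .nil) .nil))))) (.nd (nat_lit 8) (.nd (nat_lit 9) 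
(.lf (nat_lit 540875) (.g (nat_lit 3505) (.e (nat_lit 90170) (nat_lit 13) (.e (nat_lit 172121) (nat_lit 13) (.e (nat_lit 483363) (nat_lit 18) (.e (nat_lit 57688) (nat_lit 156) (.e (nat_lit 163903) (nat_lit 12) (.e (nat_lit 426428) (nat_lit 17) .nil)))))) (.g (nat_lit 1) (.e (nat_lit 271239) (nat_lit 0) .nil) .nil))) 
(.lf (nat_lit 541387) (.g (nat_lit 4743) (.e (nat_lit 90178) (nat_lit 15) (.e (nat_lit 188440) (nat_lit 20) (.e (nat_lit 3307) (nat_lit 202) (.e (nat_lit 573477) (nat_lit 12) (.e (nat_lit 57575) (nat_lit 55) (.e (nat_lit 778466) (nat_lit 11) (.e (nat_lit 24603) (nat_lit 2) .nil))))))) (.g (nat_lit 1) (.e (nat_lit 271932) (nat_lit 0) .nil) .nil)))) (.nd (nat_lit 9) 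
(.lf (nat_lit 541131) (.g (nat_lit 3937) (.e (nat_lit 90174) (nat_lit 14) (.e (nat_lit 180243) (nat_lit 5) (.e (nat_lit 532515) (nat_lit 3) (.e (nat_lit 114715) (nat_lit 22) (.e (nat_lit 90165) (nat_lit 12) (.e (nat_lit 163857) (nat_lit 0) (.e (nat_lit 5949) (nat_lit 322) (.e (nat_lit 57373) (nat_lit 2) .nil)))))))) (.g (nat_lit 1) (.e (nat_lit 271635) (nat_lit 0) .nil) .nil))) 
(.lf (nat_lit 541643) (.g (nat_lit 1064) (.e (nat_lit 98325) (nat_lit 17) (.e (nat_lit 3579) (nat_lit 223) (.e (nat_lit 745476) (nat_lit 0) (.e (nat_lit 1239) (nat_lit 91) .nil)))) (.g (nat_lit 0) (.e (nat_lit 272679) (nat_lit 0) .nil) .nil))))))) (.nd (nat_lit 6) (.nd (nat_lit 7) (.nd (nat_lit 8) (.nd (nat_lit 9) 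
(.lf (nat_lit 540715) (.g (nat_lit 1756) (.e (nat_lit 90170) (nat_lit 13) (.e (nat_lit 172106) (nat_lit 10) (.e (nat_lit 434248) (nat_lit 28) (.e (nat_lit 573471) (nat_lit 11) .nil)))) (.g (nat_lit 0) (.e (nat_lit 271072) (nat_lit 0) .nil) .nil))) 
(.lf (nat_lit 541227) (.g (nat_lit 2342) (.e (nat_lit 90174) (nat_lit 14) (.e (nat_lit 180251) (nat_lit 10) (.e (nat_lit 573489) (nat_lit 14) (.e (nat_lit 73755) (nat_lit 8) (.e (nat_lit 557068) (nat_lit 9) (.e (nat_lit 2604) (nat_lit 163) (.e (nat_lit 164397) (nat_lit 256) (.e (nat_lit 57371) (nat_lit 2) .nil)))))))) (.g (nat_lit 1) (.e (nat_lit 271732) (nat_lit 0) .nil) .nil)))) 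
(.nd (nat_lit 9) 
(.lf (nat_lit 540971) (.g (nat_lit 3757) (.e (nat_lit 90172) (nat_lit 14) (.e (nat_lit 180250) (nat_lit 10) (.e (nat_lit 573487) (nat_lit 14) (.e (nat_lit 73753) (nat_lit 8) (.e (nat_lit 557090) (nat_lit 12) (.e (nat_lit 163841) (nat_lit 0) (.e (nat_lit 5943) (nat_lit 322) (.e (nat_lit 57372) (nat_lit 2) .nil)))))))) (.g (nat_lit 1) (.e (nat_lit 271401) (nat_lit 0) .nil) .nil))) 
(.lf (nat_lit 541483) (.g (nat_lit 2321) (.e (nat_lit 90185) (nat_lit 17) (.e (nat_lit 237623) (nat_lit 13) (.e (nat_lit 483363) (nat_lit 18) (.e (nat_lit 57688) (nat_lit 156) (.e (nat_lit 163903) (nat_lit 12) (.e (nat_lit 426428) (nat_lit 17) .nil)))))) (.g (nat_lit 1) (.e (nat_lit 272086) (nat_lit 0) .nil) .nil))))) (.nd (nat_lit 8) (.nd (nat_lit 9) 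
(.lf (nat_lit 540843) (.g (nat_lit 4506) (.e (nat_lit 90170) (nat_lit 13) (.e (nat_lit 172113) (nat_lit 10) (.e (nat_lit 434248) (nat_lit 28) (.e (nat_lit 573474) (nat_lit 12) (.e (nat_lit 57572) (nat_lit 54) (.e (nat_lit 770071) (nat_lit 8) (.e (nat_lit 65568) (nat_lit 2) .nil))))))) (.g (nat_lit 1) (.e (nat_lit 271205) (nat_lit 0) .nil) .nil))) 
(.lf (nat_lit 541355) (.g (nat_lit 2995) (.e (nat_lit 90176) (nat_lit 15) (.e (nat_lit 188450) (nat_lit 23) (.e (nat_lit 204861) (nat_lit 26) (.e (nat_lit 335988) (nat_lit 1) (.e (nat_lit 57926) (nat_lit 282) (.e (nat_lit 171776) (nat_lit 63) .nil)))))) (.g (nat_lit 1) (.e (nat_lit 271886) (nat_lit 0) .nil) .nil)))) (.nd (nat_lit 9) 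
(.lf (nat_lit 541099) (.g (nat_lit 1890) (.e (nat_lit 90174) (nat_lit 14) (.e (nat_lit 180243) (nat_lit 5) (.e (nat_lit 532499) (nat_lit 1) (.e (nat_lit 57694) (nat_lit 157) .nil)))) (.g (nat_lit 0) (.e (nat_lit 271566) (nat_lit 0) .nil) .nil))) 
(.lf (nat_lit 541611) (.g (nat_lit 2902) (.e (nat_lit 98320) (nat_lit 17) (.e (nat_lit 6949) (nat_lit 377) (.e (nat_lit 2816) (nat_lit 181) (.e (nat_lit 311312) (nat_lit 2) (.e (nat_lit 196672) (nat_lit 15) (.e (nat_lit 81954) (nat_lit 23) .nil)))))) (.g (nat_lit 1) (.e (nat_lit 272615) (nat_lit 0) .nil) .nil)))))) (.nd (nat_lit 7) (.nd (nat_lit 8) (.nd (nat_lit 9) 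
(.lf (nat_lit 540779) (.g (nat_lit 2011) (.e (nat_lit 90170) (nat_lit 13) (.e (nat_lit 172113) (nat_lit 10) (.e (nat_lit 434245) (nat_lit 28) (.e (nat_lit 573474) (nat_lit 12) (.e (nat_lit 57347) (nat_lit 0) (.e (nat_lit 7261) (nat_lit 384) (.e (nat_lit 57406) (nat_lit 12) (.e (nat_lit 343808) (nat_lit 2) .nil)))))))) (.g (nat_lit 1) (.e (nat_lit 271136) (nat_lit 0) .nil) .nil))) 
(.lf (nat_lit 541291) (.g (nat_lit 1339) (.e (nat_lit 90175) (nat_lit 15) (.e (nat_lit 188441) (nat_lit 20) (.e (nat_lit 3272) (nat_lit 199) (.e (nat_lit 548911) (nat_lit 18) .nil)))) (.g (nat_lit 0) (.e (nat_lit 271798) (nat_lit 0) .nil) .nil)))) (.nd (nat_lit 9) 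
(.lf (nat_lit 541035) (.g (nat_lit 2668) (.e (nat_lit 90173) (nat_lit 14) (.e (nat_lit 180251) (nat_lit 10) (.e (nat_lit 573489) (nat_lit 14) (.e (nat_lit 73755) (nat_lit 8) (.e (nat_lit 557067) (nat_lit 9) .nil))))) (.g (nat_lit 0) (.e (nat_lit 271476) (nat_lit 0) .nil) .nil))) 
(.lf (nat_lit 541547) (.g (nat_lit 980) (.e (nat_lit 98313) (nat_lit 9) (.e (nat_lit 336027) (nat_lit 3) (.e (nat_lit 98328) (nat_lit 17) .nil))) (.g (nat_lit 0) (.e (nat_lit 272408) (nat_lit 0) .nil) .nil))))) (.nd (nat_lit 8) (.nd (nat_lit 9) 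
(.lf (nat_lit 540907) (.g (nat_lit 3834) (.e (nat_lit 90171) (nat_lit 14) (.e (nat_lit 180252) (nat_lit 10) (.e (nat_lit 573489) (nat_lit 14) (.e (nat_lit 73755) (nat_lit 8) (.e (nat_lit 557090) (nat_lit 12) (.e (nat_lit 163843) (nat_lit 0) (.e (nat_lit 5940) (nat_lit 322) (.e (nat_lit 57374) (nat_lit 2) .nil)))))))) (.g (nat_lit 1) (.e (nat_lit 271271) (nat_lit 0) .nil) .nil))) 
(.lf (nat_lit 541419) (.g (nat_lit 2347) (.e (nat_lit 90185) (nat_lit 17) (.e (nat_lit 237605) (nat_lit 9) (.e (nat_lit 426436) (nat_lit 18) (.e (nat_lit 98339) (nat_lit 19) (.e (nat_lit 213030) (nat_lit 11) (.e (nat_lit 24602) (nat_lit 2) .nil)))))) (.g (nat_lit 1) (.e (nat_lit 272022) (nat_lit 0) .nil) .nil)))) (.nd (nat_lit 9) 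
(.lf (nat_lit 541163) (.g (nat_lit 4161) (.e (nat_lit 90174) (nat_lit 14) (.e (nat_lit 180250) (nat_lit 10) (.e (nat_lit 573489) (nat_lit 14) (.e (nat_lit 73755) (nat_lit 8) (.e (nat_lit 557067) (nat_lit 9) (.e (nat_lit 2598) (nat_lit 163) (.e (nat_lit 164396) (nat_lit 256) (.e (nat_lit 57371) (nat_lit 2) .nil)))))))) (.g (nat_lit 1) (.e (nat_lit 271668) (nat_lit 0) .nil) .nil))) 
(.lf (nat_lit 541675) (.g (nat_lit 3817) (.e (nat_lit 98333) (nat_lit 18) (.e (nat_lit 164177) (nat_lit 154) (.e (nat_lit 57379) (nat_lit 3) (.e (nat_lit 98342) (nat_lit 20) (.e (nat_lit 221212) (nat_lit 22) (.e (nat_lit 196681) (nat_lit 17) (.e (nat_lit 131098) (nat_lit 3) .nil))))))) (.g (nat_lit 1) (.e (nat_lit 272762) (nat_lit 0) .nil) .nil)))))))) 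
(.nd (nat_lit 5) (.nd (nat_lit 6) (.nd (nat_lit 7) (.nd (nat_lit 8) (.nd (nat_lit 9) 
(.lf (nat_lit 540699) (.g (nat_lit 5095) (.e (nat_lit 90170) (nat_lit 13) (.e (nat_lit 172106) (nat_lit 10) (.e (nat_lit 434244) (nat_lit 28) (.e (nat_lit 573474) (nat_lit 12) (.e (nat_lit 57354) (nat_lit 0) (.e (nat_lit 7270) (nat_lit 385) (.e (nat_lit 122906) (nat_lit 12) (.e (nat_lit 336001) (nat_lit 2) .nil)))))))) (.g (nat_lit 1) (.e (nat_lit 271056) (nat_lit 0) .nil) .nil))) 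
(.lf (nat_lit 541211) (.g (nat_lit 2552) (.e (nat_lit 90174) (nat_lit 14) (.e (nat_lit 180250) (nat_lit 10) (.e (nat_lit 573489) (nat_lit 14) (.e (nat_lit 73755) (nat_lit 8) (.e (nat_lit 557119) (nat_lit 18) (.e (nat_lit 2807) (nat_lit 180) (.e (nat_lit 311040) (nat_lit 17) .nil))))))) (.g (nat_lit 1) (.e (nat_lit 271716) (nat_lit 0) .nil) .nil)))) (.nd (nat_lit 9) 
(.lf (nat_lit 540955) (.g (nat_lit 2135) (.e (nat_lit 90172) (nat_lit 14) (.e (nat_lit 180244) (nat_lit 5) (.e (nat_lit 532504) (nat_lit 1) (.e (nat_lit 57664) (nat_lit 152) (.e (nat_lit 2715) (nat_lit 171) .nil))))) (.g (nat_lit 0) (.e (nat_lit 271375) (nat_lit 0) .nil) .nil))) 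
(.lf (nat_lit 541467) (.g (nat_lit 2203) (.e (nat_lit 90185) (nat_lit 17) (.e (nat_lit 237619) (nat_lit 12) (.e (nat_lit 475179) (nat_lit 24) (.e (nat_lit 516124) (nat_lit 2) (.e (nat_lit 213030) (nat_lit 11) (.e (nat_lit 24602) (nat_lit 2) .nil)))))) (.g (nat_lit 1) (.e (nat_lit 272070) (nat_lit 0) .nil) .nil))))) (.nd (nat_lit 8) (.nd (nat_lit 9) 
(.lf (nat_lit 540827) (.g (nat_lit 3987) (.e (nat_lit 90170) (nat_lit 13) (.e (nat_lit 172113) (nat_lit 10) (.e (nat_lit 434248) (nat_lit 28) (.e (nat_lit 573452) (nat_lit 9) (.e (nat_lit 430) (nat_lit 32) (.e (nat_lit 426343) (nat_lit 14) (.e (nat_lit 491535) (nat_lit 2) .nil))))))) (.g (nat_lit 1) (.e (nat_lit 271189) (nat_lit 0) .nil) .nil))) 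
(.lf (nat_lit 541339) (.g (nat_lit 1613) (.e (nat_lit 90176) (nat_lit 15) (.e (nat_lit 188450) (nat_lit 23) (.e (nat_lit 204845) (nat_lit 24) (.e (nat_lit 319504) (nat_lit 10) .nil)))) (.g (nat_lit 0) (.e (nat_lit 271868) (nat_lit 0) .nil) .nil)))) (.nd (nat_lit 9) 
(.lf (nat_lit 541083) (.g (nat_lit 2509) (.e (nat_lit 90174) (nat_lit 14) (.e (nat_lit 180243) (nat_lit 5) (.e (nat_lit 532499) (nat_lit 1) (.e (nat_lit 57688) (nat_lit 156) (.e (nat_lit 163844) (nat_lit 0) .nil))))) (.g (nat_lit 0) (.e (nat_lit 271543) (nat_lit 0) .nil) .nil))) 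
(.lf (nat_lit 541595) (.g (nat_lit 501) (.e (nat_lit 98317) (nat_lit 9) (.e (nat_lit 335996) (nat_lit 1) (.e (nat_lit 57930) (nat_lit 282) .nil))) (.g (nat_lit 0) (.e (nat_lit 272522) (nat_lit 0) .nil) .nil)))))) (.nd (nat_lit 7) (.nd (nat_lit 8) (.nd (nat_lit 9) 
(.lf (nat_lit 540763) (.g (nat_lit 3521) (.e (nat_lit 90170) (nat_lit 13) (.e (nat_lit 172113) (nat_lit 10) (.e (nat_lit 434245) (nat_lit 28) (.e (nat_lit 573470) (nat_lit 11) (.e (nat_lit 16473) (nat_lit 14) (.e (nat_lit 491535) (nat_lit 2) .nil)))))) (.g (nat_lit 1) (.e (nat_lit 271120) (nat_lit 0) .nil) .nil))) 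
(.lf (nat_lit 541275) (.g (nat_lit 3717) (.e (nat_lit 90174) (nat_lit 14) (.e (nat_lit 180251) (nat_lit 10) (.e (nat_lit 573489) (nat_lit 14) (.e (nat_lit 73755) (nat_lit 8) (.e (nat_lit 557091) (nat_lit 12) (.e (nat_lit 163844) (nat_lit 0) (.e (nat_lit 5943) (nat_lit 322) (.e (nat_lit 57372) (nat_lit 2) .nil)))))))) (.g (nat_lit 1) (.e (nat_lit 271780) (nat_lit 0) .nil) .nil)))) (.nd (nat_lit 9) 
(.lf (nat_lit 541019) (.g (nat_lit 3259) (.e (nat_lit 90172) (nat_lit 14) (.e (nat_lit 180250) (nat_lit 10) (.e (nat_lit 573489) (nat_lit 14) (.e (nat_lit 73755) (nat_lit 8) (.e (nat_lit 557091) (nat_lit 12) (.e (nat_lit 163841) (nat_lit 0) (.e (nat_lit 5943) (nat_lit 322) (.e (nat_lit 57375) (nat_lit 2) .nil)))))))) (.g (nat_lit 1) (.e (nat_lit 271449) (nat_lit 0) .nil) .nil))) 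
(.lf (nat_lit 541531) (.g (nat_lit 2805) (.e (nat_lit 98313) (nat_lit 9) (.e (nat_lit 335988) (nat_lit 1) (.e (nat_lit 57927) (nat_lit 282) (.e (nat_lit 163905) (nat_lit 12) (.e (nat_lit 426555) (nat_lit 32) (.e (nat_lit 376869) (nat_lit 23) .nil)))))) (.g (nat_lit 1) (.e (nat_lit 272347) (nat_lit 0) .nil) .nil))))) (.nd (nat_lit 8) (.nd (nat_lit 9) 
(.lf (nat_lit 540891) (.g (nat_lit 3421) (.e (nat_lit 90170) (nat_lit 13) (.e (nat_lit 172123) (nat_lit 13) (.e (nat_lit 483365) (nat_lit 18) (.e (nat_lit 57688) (nat_lit 156) (.e (nat_lit 163902) (nat_lit 12) (.e (nat_lit 426428) (nat_lit 17) .nil)))))) (.g (nat_lit 1) (.e (nat_lit 271255) (nat_lit 0) .nil) .nil))) 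
(.lf (nat_lit 541403) (.g (nat_lit 3283) (.e (nat_lit 90185) (nat_lit 17) (.e (nat_lit 237600) (nat_lit 9) (.e (nat_lit 426125) (nat_lit 2) (.e (nat_lit 196661) (nat_lit 12) (.e (nat_lit 65280) (nat_lit 201) (.e (nat_lit 3098) (nat_lit 192) (.e (nat_lit 491537) (nat_lit 2) .nil))))))) (.g (nat_lit 1) (.e (nat_lit 272006) (nat_lit 0) .nil) .nil)))) (.nd (nat_lit 9) 
(.lf (nat_lit 541147) (.g (nat_lit 2649) (.e (nat_lit 90174) (nat_lit 14) (.e (nat_lit 180250) (nat_lit 10) (.e (nat_lit 573475) (nat_lit 12) (.e (nat_lit 57503) (nat_lit 38) (.e (nat_lit 639002) (nat_lit 11) .nil))))) (.g (nat_lit 0) (.e (nat_lit 271651) (nat_lit 0) .nil) .nil))) 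
(.lf (nat_lit 541659) (.g (nat_lit 1063) (.e (nat_lit 98332) (nat_lit 18) (.e (nat_lit 164329) (nat_lit 230) (.e (nat_lit 163902) (nat_lit 12) (.e (nat_lit 426479) (nat_lit 27) .nil)))) (.g (nat_lit 0) (.e (nat_lit 272735) (nat_lit 0) .nil) .nil))))))) (.nd (nat_lit 6) (.nd (nat_lit 7) (.nd (nat_lit 8) (.nd (nat_lit 9) 
(.lf (nat_lit 540731) (.g (nat_lit 2676) (.e (nat_lit 90170) (nat_lit 13) (.e (nat_lit 172113) (nat_lit 10) (.e (nat_lit 434242) (nat_lit 28) (.e (nat_lit 573471) (nat_lit 11) (.e (nat_lit 16473) (nat_lit 14) (.e (nat_lit 499456) (nat_lit 2) .nil)))))) (.g (nat_lit 1) (.e (nat_lit 271088) (nat_lit 0) .nil) .nil))) 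
(.lf (nat_lit 541243) (.g (nat_lit 3884) (.e (nat_lit 90174) (nat_lit 14) (.e (nat_lit 180251) (nat_lit 10) (.e (nat_lit 573489) (nat_lit 14) (.e (nat_lit 73755) (nat_lit 8) (.e (nat_lit 557090) (nat_lit 12) (.e (nat_lit 163840) (nat_lit 0) (.e (nat_lit 5952) (nat_lit 322) (.e (nat_lit 57373) (nat_lit 2) .nil)))))))) (.g (nat_lit 1) (.e (nat_lit 271748) (nat_lit 0) .nil) .nil)))) (.nd (nat_lit 9) 
(.lf (nat_lit 540987) (.g (nat_lit 3818) (.e (nat_lit 90172) (nat_lit 14) (.e (nat_lit 180250) (nat_lit 10) (.e (nat_lit 573488) (nat_lit 14) (.e (nat_lit 73755) (nat_lit 8) (.e (nat_lit 557090) (nat_lit 12) (.e (nat_lit 163841) (nat_lit 0) (.e (nat_lit 5943) (nat_lit 322) (.e (nat_lit 57372) (nat_lit 2) .nil)))))))) (.g (nat_lit 1) (.e (nat_lit 271417) (nat_lit 0) .nil) .nil))) 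
(.lf (nat_lit 541499) (.g (nat_lit 2239) (.e (nat_lit 98309) (nat_lit 0) (.e (nat_lit 6209) (nat_lit 333) (.e (nat_lit 57883) (nat_lit 270) (.e (nat_lit 371) (nat_lit 32) (.e (nat_lit 426542) (nat_lit 29) (.e (nat_lit 352313) (nat_lit 23) .nil)))))) (.g (nat_lit 1) (.e (nat_lit 272249) (nat_lit 0) .nil) .nil))))) (.nd (nat_lit 8) (.nd (nat_lit 9) 
(.lf (nat_lit 540859) (.g (nat_lit 1170) (.e (nat_lit 90170) (nat_lit 13) (.e (nat_lit 172115) (nat_lit 10) (.e (nat_lit 434244) (nat_lit 28) (.e (nat_lit 573450) (nat_lit 9) .nil)))) (.g (nat_lit 0) (.e (nat_lit 271223) (nat_lit 0) .nil) .nil))) 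
(.lf (nat_lit 541371) (.g (nat_lit 4840) (.e (nat_lit 90177) (nat_lit 15) (.e (nat_lit 188452) (nat_lit 23) (.e (nat_lit 204846) (nat_lit 24) (.e (nat_lit 319535) (nat_lit 17) (.e (nat_lit 294927) (nat_lit 2) .nil))))) (.g (nat_lit 1) (.e (nat_lit 271914) (nat_lit 0) .nil) .nil)))) (.nd (nat_lit 9) 
(.lf (nat_lit 541115) (.g (nat_lit 2627) (.e (nat_lit 90174) (nat_lit 14) (.e (nat_lit 180243) (nat_lit 5) (.e (nat_lit 532503) (nat_lit 1) (.e (nat_lit 57688) (nat_lit 156) (.e (nat_lit 163874) (nat_lit 3) (.e (nat_lit 204837) (nat_lit 20) (.e (nat_lit 114715) (nat_lit 22) .nil))))))) (.g (nat_lit 1) (.e (nat_lit 271608) (nat_lit 0) .nil) .nil))) 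
(.lf (nat_lit 541627) (.g (nat_lit 1548) (.e (nat_lit 98323) (nat_lit 17) (.e (nat_lit 6989) (nat_lit 377) (.e (nat_lit 2810) (nat_lit 180) (.e (nat_lit 303119) (nat_lit 3) (.e (nat_lit 204876) (nat_lit 31) .nil))))) (.g (nat_lit 0) (.e (nat_lit 272641) (nat_lit 0) .nil) .nil)))))) (.nd (nat_lit 7) (.nd (nat_lit 8) (.nd (nat_lit 9) 
(.lf (nat_lit 540795) (.g (nat_lit 3916) (.e (nat_lit 90170) (nat_lit 13) (.e (nat_lit 172113) (nat_lit 10) (.e (nat_lit 434245) (nat_lit 28) (.e (nat_lit 573474) (nat_lit 12) (.e (nat_lit 57354) (nat_lit 0) (.e (nat_lit 7270) (nat_lit 385) (.e (nat_lit 122906) (nat_lit 12) (.e (nat_lit 336008) (nat_lit 2) .nil)))))))) (.g (nat_lit 1) (.e (nat_lit 271152) (nat_lit 0) .nil) .nil))) 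
(.lf (nat_lit 541307) (.g (nat_lit 2249) (.e (nat_lit 90176) (nat_lit 15) (.e (nat_lit 188423) (nat_lit 11) (.e (nat_lit 335986) (nat_lit 1) (.e (nat_lit 57692) (nat_lit 156) (.e (nat_lit 163907) (nat_lit 12) (.e (nat_lit 426427) (nat_lit 17) .nil)))))) (.g (nat_lit 1) (.e (nat_lit 271833) (nat_lit 0) .nil) .nil)))) (.nd (nat_lit 9) 
(.lf (nat_lit 541051) (.g (nat_lit 1710) (.e (nat_lit 90173) (nat_lit 14) (.e (nat_lit 180252) (nat_lit 10) (.e (nat_lit 573489) (nat_lit 14) (.e (nat_lit 73754) (nat_lit 8) .nil)))) (.g (nat_lit 0) (.e (nat_lit 271499) (nat_lit 0) .nil) .nil))) 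
(.lf (nat_lit 541563) (.g (nat_lit 1249) (.e (nat_lit 98316) (nat_lit 9) (.e (nat_lit 336088) (nat_lit 9) (.e (nat_lit 336454) (nat_lit 34) (.e (nat_lit 483363) (nat_lit 18) .nil)))) (.g (nat_lit 0) (.e (nat_lit 272458) (nat_lit 0) .nil) .nil))))) (.nd (nat_lit 8) (.nd (nat_lit 9) 
(.lf (nat_lit 540923) (.g (nat_lit 1762) (.e (nat_lit 90172) (nat_lit 14) (.e (nat_lit 180243) (nat_lit 5) (.e (nat_lit 532503) (nat_lit 1) (.e (nat_lit 57655) (nat_lit 152) .nil)))) (.g (nat_lit 0) (.e (nat_lit 271307) (nat_lit 0) .nil) .nil))) 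
(.lf (nat_lit 541435) (.g (nat_lit 3092) (.e (nat_lit 90185) (nat_lit 17) (.e (nat_lit 237616) (nat_lit 12) (.e (nat_lit 475177) (nat_lit 24) (.e (nat_lit 516124) (nat_lit 2) (.e (nat_lit 213032) (nat_lit 11) (.e (nat_lit 24604) (nat_lit 2) .nil)))))) (.g (nat_lit 1) (.e (nat_lit 272038) (nat_lit 0) .nil) .nil)))) (.nd (nat_lit 9) 
(.lf (nat_lit 541179) (.g (nat_lit 3087) (.e (nat_lit 90174) (nat_lit 14) (.e (nat_lit 180250) (nat_lit 10) (.e (nat_lit 573489) (nat_lit 14) (.e (nat_lit 73755) (nat_lit 8) (.e (nat_lit 557090) (nat_lit 12) (.e (nat_lit 163841) (nat_lit 0) (.e (nat_lit 5934) (nat_lit 322) (.e (nat_lit 57375) (nat_lit 2) .nil)))))))) (.g (nat_lit 1) (.e (nat_lit 271684) (nat_lit 0) .nil) .nil))) 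
(.lf (nat_lit 541691) (.g (nat_lit 3488) (.e (nat_lit 98333) (nat_lit 18) (.e (nat_lit 164182) (nat_lit 154) (.e (nat_lit 57378) (nat_lit 3) (.e (nat_lit 98342) (nat_lit 20) (.e (nat_lit 221212) (nat_lit 22) (.e (nat_lit 196681) (nat_lit 17) (.e (nat_lit 131096) (nat_lit 3) .nil))))))) (.g (nat_lit 1) (.e (nat_lit 272799) (nat_lit 0) .nil) .nil)))))))))) 
(.nd (nat_lit 3) (.nd (nat_lit 4) (.nd (nat_lit 5) (.nd (nat_lit 6) (.nd (nat_lit 7) 
(.nd (nat_lit 8) (.nd (nat_lit 9) 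
(.lf (nat_lit 540679) (.g (nat_lit 3084) (.e (nat_lit 90170) (nat_lit 13) (.e (nat_lit 172106) (nat_lit 10) (.e (nat_lit 434244) (nat_lit 28) (.e (nat_lit 573458) (nat_lit 9) (.e (nat_lit 426) (nat_lit 32) (.e (nat_lit 426011) (nat_lit 0) (.e (nat_lit 7545) (nat_lit 402) (.e (nat_lit 1237) (nat_lit 91) .nil)))))))) (.g (nat_lit 1) (.e (nat_lit 271036) (nat_lit 0) .nil) .nil))) 
(.lf (nat_lit 541191) (.g (nat_lit 4553) (.e (nat_lit 90174) (nat_lit 14) (.e (nat_lit 180250) (nat_lit 10) (.e (nat_lit 573489) (nat_lit 14) (.e (nat_lit 73755) (nat_lit 8) (.e (nat_lit 557090) (nat_lit 12) (.e (nat_lit 163854) (nat_lit 0) (.e (nat_lit 5950) (nat_lit 322) (.e (nat_lit 57371) (nat_lit 2) .nil)))))))) (.g (nat_lit 1) (.e (nat_lit 271696) (nat_lit 0) .nil) .nil)))) (.nd (nat_lit 9) 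
(.lf (nat_lit 540935) (.g (nat_lit 1832) (.e (nat_lit 90172) (nat_lit 14) (.e (nat_lit 180244) (nat_lit 5) (.e (nat_lit 532499) (nat_lit 1) (.e (nat_lit 57653) (nat_lit 152) .nil)))) (.g (nat_lit 0) (.e (nat_lit 271330) (nat_lit 0) .nil) .nil))) 
(.lf (nat_lit 541447) (.g (nat_lit 2079) (.e (nat_lit 90185) (nat_lit 17) (.e (nat_lit 237619) (nat_lit 12) (.e (nat_lit 475177) (nat_lit 24) (.e (nat_lit 516097) (nat_lit 0) (.e (nat_lit 3653) (nat_lit 227) (.e (nat_lit 778462) (nat_lit 11) (.e (nat_lit 24604) (nat_lit 2) .nil))))))) (.g (nat_lit 1) (.e (nat_lit 272050) (nat_lit 0) .nil) .nil))))) (.nd (nat_lit 8) (.nd (nat_lit 9) 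
(.lf (nat_lit 540807) (.g (nat_lit 2829) (.e (nat_lit 90170) (nat_lit 13) (.e (nat_lit 172113) (nat_lit 10) (.e (nat_lit 434247) (nat_lit 28) (.e (nat_lit 573469) (nat_lit 11) (.e (nat_lit 16473) (nat_lit 14) (.e (nat_lit 499456) (nat_lit 2) .nil)))))) (.g (nat_lit 1) (.e (nat_lit 271166) (nat_lit 0) .nil) .nil))) 
(.lf (nat_lit 541319) (.g (nat_lit 2597) (.e (nat_lit 90176) (nat_lit 15) (.e (nat_lit 188438) (nat_lit 20) (.e (nat_lit 3307) (nat_lit 202) (.e (nat_lit 573475) (nat_lit 12) (.e (nat_lit 57574) (nat_lit 55) .nil))))) (.g (nat_lit 0) (.e (nat_lit 271845) (nat_lit 0) .nil) .nil)))) (.nd (nat_lit 9) 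
(.lf (nat_lit 541063) (.g (nat_lit 2274) (.e (nat_lit 90173) (nat_lit 14) (.e (nat_lit 180252) (nat_lit 10) (.e (nat_lit 573489) (nat_lit 14) (.e (nat_lit 73755) (nat_lit 8) (.e (nat_lit 557090) (nat_lit 12) (.e (nat_lit 163850) (nat_lit 0) (.e (nat_lit 5951) (nat_lit 322) (.e (nat_lit 57370) (nat_lit 2) .nil)))))))) (.g (nat_lit 1) (.e (nat_lit 271511) (nat_lit 0) .nil) .nil))) 
(.lf (nat_lit 541575) (.g (nat_lit 2747) (.e (nat_lit 98317) (nat_lit 9) (.e (nat_lit 335988) (nat_lit 1) (.e (nat_lit 57926) (nat_lit 282) (.e (nat_lit 163905) (nat_lit 12) (.e (nat_lit 426555) (nat_lit 32) (.e (nat_lit 376866) (nat_lit 23) .nil)))))) (.g (nat_lit 1) (.e (nat_lit 272475) (nat_lit 0) .nil) .nil)))))) (.nd (nat_lit 7) (.nd (nat_lit 8) (.nd (nat_lit 9) 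
(.lf (nat_lit 540743) (.g (nat_lit 1409) (.e (nat_lit 90170) (nat_lit 13) (.e (nat_lit 172113) (nat_lit 10) (.e (nat_lit 434244) (nat_lit 28) (.e (nat_lit 573471) (nat_lit 11) .nil)))) (.g (nat_lit 0) (.e (nat_lit 271100) (nat_lit 0) .nil) .nil))) 
(.lf (nat_lit 541255) (.g (nat_lit 3718) (.e (nat_lit 90174) (nat_lit 14) (.e (nat_lit 180251) (nat_lit 10) (.e (nat_lit 573489) (nat_lit 14) (.e (nat_lit 73755) (nat_lit 8) (.e (nat_lit 557090) (nat_lit 12) (.e (nat_lit 163844) (nat_lit 0) (.e (nat_lit 7936) (nat_lit 322) (.e (nat_lit 57373) (nat_lit 2) .nil)))))))) (.g (nat_lit 1) (.e (nat_lit 271760) (nat_lit 0) .nil) .nil)))) (.nd (nat_lit 9) 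
(.lf (nat_lit 540999) (.g (nat_lit 3352) (.e (nat_lit 90172) (nat_lit 14) (.e (nat_lit 180250) (nat_lit 10) (.e (nat_lit 573489) (nat_lit 14) (.e (nat_lit 73755) (nat_lit 8) (.e (nat_lit 557090) (nat_lit 12) (.e (nat_lit 163840) (nat_lit 0) (.e (nat_lit 5943) (nat_lit 322) (.e (nat_lit 57375) (nat_lit 2) .nil)))))))) (.g (nat_lit 1) (.e (nat_lit 271429) (nat_lit 0) .nil) .nil))) 
(.lf (nat_lit 541511) (.g (nat_lit 859) (.e (nat_lit 98312) (nat_lit 9) (.e (nat_lit 335988) (nat_lit 1) (.e (nat_lit 57931) (nat_lit 282) .nil))) (.g (nat_lit 0) (.e (nat_lit 272301) (nat_lit 0) .nil) .nil))))) (.nd (nat_lit 8) (.nd (nat_lit 9) 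
(.lf (nat_lit 540871) (.g (nat_lit 2481) (.e (nat_lit 90170) (nat_lit 13) (.e (nat_lit 172120) (nat_lit 12) (.e (nat_lit 475179) (nat_lit 24) (.e (nat_lit 516131) (nat_lit 3) (.e (nat_lit 221193) (nat_lit 11) (.e (nat_lit 336009) (nat_lit 2) .nil)))))) (.g (nat_lit 1) (.e (nat_lit 271235) (nat_lit 0) .nil) .nil))) 
(.lf (nat_lit 541383) (.g (nat_lit 4017) (.e (nat_lit 90178) (nat_lit 15) (.e (nat_lit 188440) (nat_lit 20) (.e (nat_lit 3307) (nat_lit 202) (.e (nat_lit 573477) (nat_lit 12) (.e (nat_lit 57574) (nat_lit 55) (.e (nat_lit 778464) (nat_lit 11) (.e (nat_lit 24603) (nat_lit 2) .nil))))))) (.g (nat_lit 1) (.e (nat_lit 271928) (nat_lit 0) .nil) .nil)))) (.nd (nat_lit 9) 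
(.lf (nat_lit 541127) (.g (nat_lit 2620) (.e (nat_lit 90174) (nat_lit 14) (.e (nat_lit 180243) (nat_lit 5) (.e (nat_lit 532513) (nat_lit 3) (.e (nat_lit 114714) (nat_lit 22) (.e (nat_lit 90121) (nat_lit 9) (.e (nat_lit 2611) (nat_lit 163) (.e (nat_lit 164396) (nat_lit 256) (.e (nat_lit 57371) (nat_lit 2) .nil)))))))) (.g (nat_lit 1) (.e (nat_lit 271631) (nat_lit 0) .nil) .nil))) 
(.lf (nat_lit 541639) (.g (nat_lit 1403) (.e (nat_lit 98325) (nat_lit 17) (.e (nat_lit 3711) (nat_lit 227) (.e (nat_lit 778469) (nat_lit 11) (.e (nat_lit 24608) (nat_lit 3) (.e (nat_lit 98380) (nat_lit 31) (.e (nat_lit 474880) (nat_lit 3) .nil)))))) (.g (nat_lit 1) (.e (nat_lit 272671) (nat_lit 0) .nil) .nil))))))) (.nd (nat_lit 6) (.nd (nat_lit 7) (.nd (nat_lit 8) (.nd (nat_lit 9) 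
(.lf (nat_lit 540711) (.g (nat_lit 4617) (.e (nat_lit 90170) (nat_lit 13) (.e (nat_lit 172106) (nat_lit 10) (.e (nat_lit 434244) (nat_lit 28) (.e (nat_lit 573477) (nat_lit 12) (.e (nat_lit 57574) (nat_lit 55) (.e (nat_lit 778466) (nat_lit 11) (.e (nat_lit 24604) (nat_lit 2) .nil))))))) (.g (nat_lit 1) (.e (nat_lit 271068) (nat_lit 0) .nil) .nil))) 
(.lf (nat_lit 541223) (.g (nat_lit 4192) (.e (nat_lit 90174) (nat_lit 14) (.e (nat_lit 180251) (nat_lit 10) (.e (nat_lit 573489) (nat_lit 14) (.e (nat_lit 73755) (nat_lit 8) (.e (nat_lit 557067) (nat_lit 9) (.e (nat_lit 2603) (nat_lit 163) (.e (nat_lit 164402) (nat_lit 256) (.e (nat_lit 57371) (nat_lit 2) .nil)))))))) (.g (nat_lit 1) (.e (nat_lit 271728) (nat_lit 0) .nil) .nil)))) 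
(.nd (nat_lit 9) 
(.lf (nat_lit 540967) (.g (nat_lit 2678) (.e (nat_lit 90172) (nat_lit 14) (.e (nat_lit 180250) (nat_lit 10) (.e (nat_lit 573475) (nat_lit 12) (.e (nat_lit 57503) (nat_lit 38) (.e (nat_lit 638985) (nat_lit 5) .nil))))) (.g (nat_lit 0) (.e (nat_lit 271394) (nat_lit 0) .nil) .nil))) 
(.lf (nat_lit 541479) (.g (nat_lit 3592) (.e (nat_lit 90185) (nat_lit 17) (.e (nat_lit 237621) (nat_lit 13) (.e (nat_lit 483337) (nat_lit 9) (.e (nat_lit 426098) (nat_lit 1) (.e (nat_lit 164398) (nat_lit 256) (.e (nat_lit 57372) (nat_lit 2) .nil)))))) (.g (nat_lit 1) (.e (nat_lit 272082) (nat_lit 0) .nil) .nil))))) (.nd (nat_lit 8) (.nd (nat_lit 9) 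
(.lf (nat_lit 540839) (.g (nat_lit 3488) (.e (nat_lit 90170) (nat_lit 13) (.e (nat_lit 172113) (nat_lit 10) (.e (nat_lit 434248) (nat_lit 28) (.e (nat_lit 573473) (nat_lit 12) (.e (nat_lit 57347) (nat_lit 0) (.e (nat_lit 7265) (nat_lit 384) (.e (nat_lit 57412) (nat_lit 12) (.e (nat_lit 336001) (nat_lit 2) .nil)))))))) (.g (nat_lit 1) (.e (nat_lit 271201) (nat_lit 0) .nil) .nil))) 
(.lf (nat_lit 541351) (.g (nat_lit 4477) (.e (nat_lit 90176) (nat_lit 15) (.e (nat_lit 188450) (nat_lit 23) (.e (nat_lit 204846) (nat_lit 24) (.e (nat_lit 319535) (nat_lit 17) (.e (nat_lit 294928) (nat_lit 2) .nil))))) (.g (nat_lit 1) (.e (nat_lit 271882) (nat_lit 0) .nil) .nil)))) (.nd (nat_lit 9) 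
(.lf (nat_lit 541095) (.g (nat_lit 3345) (.e (nat_lit 90174) (nat_lit 14) (.e (nat_lit 180243) (nat_lit 5) (.e (nat_lit 532499) (nat_lit 1) (.e (nat_lit 57691) (nat_lit 156) (.e (nat_lit 163874) (nat_lit 3) (.e (nat_lit 204836) (nat_lit 20) (.e (nat_lit 114716) (nat_lit 22) .nil))))))) (.g (nat_lit 1) (.e (nat_lit 271558) (nat_lit 0) .nil) .nil))) 
(.lf (nat_lit 541607) (.g (nat_lit 3675) (.e (nat_lit 98319) (nat_lit 17) (.e (nat_lit 7587) (nat_lit 406) (.e (nat_lit 65637) (nat_lit 15) (.e (nat_lit 3305) (nat_lit 202) (.e (nat_lit 573493) (nat_lit 15) (.e (nat_lit 81956) (nat_lit 23) .nil)))))) (.g (nat_lit 1) (.e (nat_lit 272607) (nat_lit 0) .nil) .nil)))))) (.nd (nat_lit 7) (.nd (nat_lit 8) (.nd (nat_lit 9) 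
(.lf (nat_lit 540775) (.g (nat_lit 3432) (.e (nat_lit 90170) (nat_lit 13) (.e (nat_lit 172113) (nat_lit 10) (.e (nat_lit 434245) (nat_lit 28) (.e (nat_lit 573473) (nat_lit 12) (.e (nat_lit 57347) (nat_lit 0) (.e (nat_lit 7265) (nat_lit 384) (.e (nat_lit 57412) (nat_lit 12) (.e (nat_lit 336001) (nat_lit 2) .nil)))))))) (.g (nat_lit 1) (.e (nat_lit 271132) (nat_lit 0) .nil) .nil))) 
(.lf (nat_lit 541287) (.g (nat_lit 4229) (.e (nat_lit 90175) (nat_lit 15) (.e (nat_lit 188440) (nat_lit 20) (.e (nat_lit 3307) (nat_lit 202) (.e (nat_lit 573477) (nat_lit 12) (.e (nat_lit 57574) (nat_lit 55) (.e (nat_lit 778466) (nat_lit 11) (.e (nat_lit 24603) (nat_lit 2) .nil))))))) (.g (nat_lit 1) (.e (nat_lit 271794) (nat_lit 0) .nil) .nil)))) (.nd (nat_lit 9) 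
(.lf (nat_lit 541031) (.g (nat_lit 2366) (.e (nat_lit 90172) (nat_lit 14) (.e (nat_lit 180251) (nat_lit 10) (.e (nat_lit 573489) (nat_lit 14) (.e (nat_lit 73755) (nat_lit 8) (.e (nat_lit 557119) (nat_lit 18) (.e (nat_lit 2797) (nat_lit 180) (.e (nat_lit 311040) (nat_lit 17) .nil))))))) (.g (nat_lit 1) (.e (nat_lit 271461) (nat_lit 0) .nil) .nil))) 
(.lf (nat_lit 541543) (.g (nat_lit 453) (.e (nat_lit 98313) (nat_lit 9) (.e (nat_lit 336012) (nat_lit 2) (.e (nat_lit 90162) (nat_lit 12) .nil))) (.g (nat_lit 0) (.e (nat_lit 272399) (nat_lit 0) .nil) .nil))))) (.nd (nat_lit 8) (.nd (nat_lit 9) 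
(.lf (nat_lit 540903) (.g (nat_lit 1801) (.e (nat_lit 90171) (nat_lit 14) (.e (nat_lit 180251) (nat_lit 10) (.e (nat_lit 573489) (nat_lit 14) (.e (nat_lit 73748) (nat_lit 3) .nil)))) (.g (nat_lit 0) (.e (nat_lit 271267) (nat_lit 0) .nil) .nil))) 
(.lf (nat_lit 541415) (.g (nat_lit 2396) (.e (nat_lit 90185) (nat_lit 17) (.e (nat_lit 237605) (nat_lit 9) (.e (nat_lit 426436) (nat_lit 18) (.e (nat_lit 98338) (nat_lit 19) (.e (nat_lit 213032) (nat_lit 11) (.e (nat_lit 24602) (nat_lit 2) .nil)))))) (.g (nat_lit 1) (.e (nat_lit 272018) (nat_lit 0) .nil) .nil)))) (.nd (nat_lit 9) 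
(.lf (nat_lit 541159) (.g (nat_lit 2440) (.e (nat_lit 90174) (nat_lit 14) (.e (nat_lit 180250) (nat_lit 10) (.e (nat_lit 573489) (nat_lit 14) (.e (nat_lit 73754) (nat_lit 8) (.e (nat_lit 564992) (nat_lit 21) .nil))))) (.g (nat_lit 0) (.e (nat_lit 271664) (nat_lit 0) .nil) .nil))) 
(.lf (nat_lit 541671) (.g (nat_lit 2545) (.e (nat_lit 98332) (nat_lit 18) (.e (nat_lit 164403) (nat_lit 256) (.e (nat_lit 57373) (nat_lit 2) (.e (nat_lit 90174) (nat_lit 14) (.e (nat_lit 180243) (nat_lit 5) .nil))))) (.g (nat_lit 0) (.e (nat_lit 272754) (nat_lit 0) .nil) .nil)))))))) (.nd (nat_lit 5) (.nd (nat_lit 6) (.nd (nat_lit 7) (.nd (nat_lit 8) (.nd (nat_lit 9) 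
(.lf (nat_lit 540695) (.g (nat_lit 2615) (.e (nat_lit 90170) (nat_lit 13) (.e (nat_lit 172106) (nat_lit 10) (.e (nat_lit 434244) (nat_lit 28) (.e (nat_lit 573474) (nat_lit 12) (.e (nat_lit 57344) (nat_lit 0) (.e (nat_lit 7265) (nat_lit 384) (.e (nat_lit 57412) (nat_lit 12) (.e (nat_lit 336001) (nat_lit 2) .nil)))))))) (.g (nat_lit 1) (.e (nat_lit 271052) (nat_lit 0) .nil) .nil))) 
(.lf (nat_lit 541207) (.g (nat_lit 3321) (.e (nat_lit 90174) (nat_lit 14) (.e (nat_lit 180250) (nat_lit 10) (.e (nat_lit 573489) (nat_lit 14) (.e (nat_lit 73755) (nat_lit 8) (.e (nat_lit 557111) (nat_lit 16) (.e (nat_lit 229379) (nat_lit 0) (.e (nat_lit 5939) (nat_lit 322) (.e (nat_lit 57375) (nat_lit 2) .nil)))))))) (.g (nat_lit 1) (.e (nat_lit 271712) (nat_lit 0) .nil) .nil)))) (.nd (nat_lit 9) 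
(.lf (nat_lit 540951) (.g (nat_lit 2746) (.e (nat_lit 90172) (nat_lit 14) (.e (nat_lit 180244) (nat_lit 5) (.e (nat_lit 532503) (nat_lit 1) (.e (nat_lit 57688) (nat_lit 156) (.e (nat_lit 163844) (nat_lit 0) (.e (nat_lit 3230) (nat_lit 197) (.e (nat_lit 532513) (nat_lit 3) (.e (nat_lit 114714) (nat_lit 22) .nil)))))))) (.g (nat_lit 1) (.e (nat_lit 271368) (nat_lit 0) .nil) .nil))) 
(.lf (nat_lit 541463) (.g (nat_lit 2014) (.e (nat_lit 90185) (nat_lit 17) (.e (nat_lit 237619) (nat_lit 12) (.e (nat_lit 475177) (nat_lit 24) (.e (nat_lit 516127) (nat_lit 2) (.e (nat_lit 213030) (nat_lit 11) (.e (nat_lit 24602) (nat_lit 2) .nil)))))) (.g (nat_lit 1) (.e (nat_lit 272066) (nat_lit 0) .nil) .nil))))) (.nd (nat_lit 8) (.nd (nat_lit 9) 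
(.lf (nat_lit 540823) (.g (nat_lit 2034) (.e (nat_lit 90170) (nat_lit 13) (.e (nat_lit 172113) (nat_lit 10) (.e (nat_lit 434248) (nat_lit 28) (.e (nat_lit 573449) (nat_lit 9) (.e (nat_lit 452) (nat_lit 33) .nil))))) (.g (nat_lit 0) (.e (nat_lit 271185) (nat_lit 0) .nil) .nil))) 
(.lf (nat_lit 541335) (.g (nat_lit 504) (.e (nat_lit 90176) (nat_lit 15) (.e (nat_lit 188449) (nat_lit 22) (.e (nat_lit 196661) (nat_lit 12) .nil))) (.g (nat_lit 0) (.e (nat_lit 271863) (nat_lit 0) .nil) .nil)))) (.nd (nat_lit 9) 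
(.lf (nat_lit 541079) (.g (nat_lit 2438) (.e (nat_lit 90174) (nat_lit 14) (.e (nat_lit 180243) (nat_lit 5) (.e (nat_lit 532499) (nat_lit 1) (.e (nat_lit 57686) (nat_lit 156) (.e (nat_lit 163875) (nat_lit 3) (.e (nat_lit 204838) (nat_lit 20) (.e (nat_lit 114715) (nat_lit 22) .nil))))))) (.g (nat_lit 1) (.e (nat_lit 271537) (nat_lit 0) .nil) .nil))) 
(.lf (nat_lit 541591) (.g (nat_lit 927) (.e (nat_lit 98317) (nat_lit 9) (.e (nat_lit 335995) (nat_lit 1) (.e (nat_lit 57931) (nat_lit 282) (.e (nat_lit 163902) (nat_lit 12) .nil)))) (.g (nat_lit 0) (.e (nat_lit 272512) (nat_lit 0) .nil) .nil)))))) (.nd (nat_lit 7) (.nd (nat_lit 8) (.nd (nat_lit 9) 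
(.lf (nat_lit 540759) (.g (nat_lit 2309) (.e (nat_lit 90170) (nat_lit 13) (.e (nat_lit 172113) (nat_lit 10) (.e (nat_lit 434245) (nat_lit 28) (.e (nat_lit 573458) (nat_lit 9) (.e (nat_lit 7936) (nat_lit 33) (.e (nat_lit 434180) (nat_lit 0) (.e (nat_lit 1235) (nat_lit 91) .nil))))))) (.g (nat_lit 1) (.e (nat_lit 271116) (nat_lit 0) .nil) .nil))) 
(.lf (nat_lit 541271) (.g (nat_lit 4403) (.e (nat_lit 90174) (nat_lit 14) (.e (nat_lit 180251) (nat_lit 10) (.e (nat_lit 573489) (nat_lit 14) (.e (nat_lit 73755) (nat_lit 8) (.e (nat_lit 557090) (nat_lit 12) (.e (nat_lit 171776) (nat_lit 0) (.e (nat_lit 5937) (nat_lit 322) (.e (nat_lit 57371) (nat_lit 2) .nil)))))))) (.g (nat_lit 1) (.e (nat_lit 271776) (nat_lit 0) .nil) .nil)))) (.nd (nat_lit 9) 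
(.lf (nat_lit 541015) (.g (nat_lit 3479) (.e (nat_lit 90172) (nat_lit 14) (.e (nat_lit 180250) (nat_lit 10) (.e (nat_lit 573489) (nat_lit 14) (.e (nat_lit 73755) (nat_lit 8) (.e (nat_lit 557090) (nat_lit 12) (.e (nat_lit 163845) (nat_lit 0) (.e (nat_lit 5943) (nat_lit 322) (.e (nat_lit 57372) (nat_lit 2) .nil)))))))) (.g (nat_lit 1) (.e (nat_lit 271445) (nat_lit 0) .nil) .nil))) 
(.lf (nat_lit 541527) (.g (nat_lit 3047) (.e (nat_lit 98313) (nat_lit 9) (.e (nat_lit 335988) (nat_lit 1) (.e (nat_lit 57926) (nat_lit 282) (.e (nat_lit 163905) (nat_lit 12) (.e (nat_lit 426555) (nat_lit 32) (.e (nat_lit 376867) (nat_lit 23) .nil)))))) (.g (nat_lit 1) (.e (nat_lit 272338) (nat_lit 0) .nil) .nil))))) (.nd (nat_lit 8) (.nd (nat_lit 9) 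
(.lf (nat_lit 540887) (.g (nat_lit 1785) (.e (nat_lit 90170) (nat_lit 13) (.e (nat_lit 172123) (nat_lit 13) (.e (nat_lit 483341) (nat_lit 9) (.e (nat_lit 426098) (nat_lit 1) (.e (nat_lit 164399) (nat_lit 256) .nil))))) (.g (nat_lit 0) (.e (nat_lit 271251) (nat_lit 0) .nil) .nil))) 
(.lf (nat_lit 541399) (.g (nat_lit 1669) (.e (nat_lit 90185) (nat_lit 17) (.e (nat_lit 237582) (nat_lit 1) (.e (nat_lit 164332) (nat_lit 230) (.e (nat_lit 163885) (nat_lit 5) (.e (nat_lit 221208) (nat_lit 21) (.e (nat_lit 164329) (nat_lit 230) (.e (nat_lit 171776) (nat_lit 66) (.e (nat_lit 114716) (nat_lit 22) .nil)))))))) (.g (nat_lit 1) (.e (nat_lit 271983) (nat_lit 0) .nil) .nil)))) 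
(.nd (nat_lit 9) 
(.lf (nat_lit 541143) (.g (nat_lit 1666) (.e (nat_lit 90174) (nat_lit 14) (.e (nat_lit 180243) (nat_lit 5) (.e (nat_lit 532515) (nat_lit 3) (.e (nat_lit 114719) (nat_lit 23) (.e (nat_lit 98334) (nat_lit 18) .nil))))) (.g (nat_lit 0) (.e (nat_lit 271647) (nat_lit 0) .nil) .nil))) 
(.lf (nat_lit 541655) (.g (nat_lit 797) (.e (nat_lit 98332) (nat_lit 18) (.e (nat_lit 164327) (nat_lit 230) (.e (nat_lit 163875) (nat_lit 3) .nil))) (.g (nat_lit 0) (.e (nat_lit 272724) (nat_lit 0) .nil) .nil))))))) (.nd (nat_lit 6) (.nd (nat_lit 7) (.nd (nat_lit 8) (.nd (nat_lit 9) 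
(.lf (nat_lit 540727) (.g (nat_lit 2012) (.e (nat_lit 90170) (nat_lit 13) (.e (nat_lit 172113) (nat_lit 10) (.e (nat_lit 434242) (nat_lit 28) (.e (nat_lit 573451) (nat_lit 9) (.e (nat_lit 365) (nat_lit 31) (.e (nat_lit 417796) (nat_lit 0) (.e (nat_lit 5271) (nat_lit 298) (.e (nat_lit 1239) (nat_lit 91) .nil)))))))) (.g (nat_lit 1) (.e (nat_lit 271084) (nat_lit 0) .nil) .nil))) 
(.lf (nat_lit 541239) (.g (nat_lit 3886) (.e (nat_lit 90174) (nat_lit 14) (.e (nat_lit 180251) (nat_lit 10) (.e (nat_lit 573489) (nat_lit 14) (.e (nat_lit 73755) (nat_lit 8) (.e (nat_lit 557090) (nat_lit 12) (.e (nat_lit 163840) (nat_lit 0) (.e (nat_lit 5938) (nat_lit 322) (.e (nat_lit 57375) (nat_lit 2) .nil)))))))) (.g (nat_lit 1) (.e (nat_lit 271744) (nat_lit 0) .nil) .nil)))) (.nd (nat_lit 9) 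
(.lf (nat_lit 540983) (.g (nat_lit 3172) (.e (nat_lit 90172) (nat_lit 14) (.e (nat_lit 180250) (nat_lit 10) (.e (nat_lit 573487) (nat_lit 14) (.e (nat_lit 73753) (nat_lit 8) (.e (nat_lit 557094) (nat_lit 12) (.e (nat_lit 163840) (nat_lit 0) (.e (nat_lit 5943) (nat_lit 322) (.e (nat_lit 57375) (nat_lit 2) .nil)))))))) (.g (nat_lit 1) (.e (nat_lit 271413) (nat_lit 0) .nil) .nil))) 
(.lf (nat_lit 541495) (.g (nat_lit 1837) (.e (nat_lit 90196) (nat_lit 18) (.e (nat_lit 2798) (nat_lit 180) (.e (nat_lit 303126) (nat_lit 9) (.e (nat_lit 426568) (nat_lit 34) (.e (nat_lit 401152) (nat_lit 3) (.e (nat_lit 114716) (nat_lit 22) .nil)))))) (.g (nat_lit 1) (.e (nat_lit 272153) (nat_lit 0) .nil) .nil))))) (.nd (nat_lit 8) (.nd (nat_lit 9) 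
(.lf (nat_lit 540855) (.g (nat_lit 3840) (.e (nat_lit 90170) (nat_lit 13) (.e (nat_lit 172113) (nat_lit 10) (.e (nat_lit 434248) (nat_lit 28) (.e (nat_lit 573475) (nat_lit 12) (.e (nat_lit 57574) (nat_lit 55) (.e (nat_lit 778465) (nat_lit 11) (.e (nat_lit 24602) (nat_lit 2) .nil))))))) (.g (nat_lit 1) (.e (nat_lit 271218) (nat_lit 0) .nil) .nil))) 
(.lf (nat_lit 541367) (.g (nat_lit 947) (.e (nat_lit 90177) (nat_lit 15) (.e (nat_lit 188452) (nat_lit 23) (.e (nat_lit 204816) (nat_lit 17) (.e (nat_lit 6220) (nat_lit 333) .nil)))) (.g (nat_lit 0) (.e (nat_lit 271904) (nat_lit 0) .nil) .nil)))) (.nd (nat_lit 9) 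
(.lf (nat_lit 541111) (.g (nat_lit 2462) (.e (nat_lit 90174) (nat_lit 14) (.e (nat_lit 180243) (nat_lit 5) (.e (nat_lit 532503) (nat_lit 1) (.e (nat_lit 57687) (nat_lit 156) (.e (nat_lit 163844) (nat_lit 0) (.e (nat_lit 3230) (nat_lit 197) (.e (nat_lit 532514) (nat_lit 3) (.e (nat_lit 114716) (nat_lit 22) .nil)))))))) (.g (nat_lit 1) (.e (nat_lit 271597) (nat_lit 0) .nil) .nil))) 
(.lf (nat_lit 541623) (.g (nat_lit 1587) (.e (nat_lit 98323) (nat_lit 17) (.e (nat_lit 6989) (nat_lit 377) (.e (nat_lit 2810) (nat_lit 180) (.e (nat_lit 303112) (nat_lit 0) (.e (nat_lit 3252) (nat_lit 197) .nil))))) (.g (nat_lit 0) (.e (nat_lit 272636) (nat_lit 0) .nil) .nil)))))) (.nd (nat_lit 7) (.nd (nat_lit 8) (.nd (nat_lit 9) 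
(.lf (nat_lit 540791) (.g (nat_lit 3000) (.e (nat_lit 90170) (nat_lit 13) (.e (nat_lit 172113) (nat_lit 10) (.e (nat_lit 434245) (nat_lit 28) (.e (nat_lit 573474) (nat_lit 12) (.e (nat_lit 57351) (nat_lit 0) (.e (nat_lit 7265) (nat_lit 384) (.e (nat_lit 57412) (nat_lit 12) (.e (nat_lit 336008) (nat_lit 2) .nil)))))))) (.g (nat_lit 1) (.e (nat_lit 271148) (nat_lit 0) .nil) .nil))) 
(.lf (nat_lit 541303) (.g (nat_lit 3900) (.e (nat_lit 90176) (nat_lit 15) (.e (nat_lit 188423) (nat_lit 11) (.e (nat_lit 335986) (nat_lit 1) (.e (nat_lit 57688) (nat_lit 156) (.e (nat_lit 163907) (nat_lit 12) (.e (nat_lit 426428) (nat_lit 17) .nil)))))) (.g (nat_lit 1) (.e (nat_lit 271829) (nat_lit 0) .nil) .nil)))) (.nd (nat_lit 9) 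
(.lf (nat_lit 541047) (.g (nat_lit 1588) (.e (nat_lit 90173) (nat_lit 14) (.e (nat_lit 180252) (nat_lit 10) (.e (nat_lit 573488) (nat_lit 14) (.e (nat_lit 73748) (nat_lit 3) .nil)))) (.g (nat_lit 0) (.e (nat_lit 271495) (nat_lit 0) .nil) .nil))) 
(.lf (nat_lit 541559) (.g (nat_lit 730) (.e (nat_lit 98316) (nat_lit 9) (.e (nat_lit 335995) (nat_lit 1) (.e (nat_lit 57929) (nat_lit 282) .nil))) (.g (nat_lit 0) (.e (nat_lit 272451) (nat_lit 0) .nil) .nil))))) (.nd (nat_lit 8) (.nd (nat_lit 9) 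
(.lf (nat_lit 540919) (.g (nat_lit 3390) (.e (nat_lit 90172) (nat_lit 14) (.e (nat_lit 180243) (nat_lit 5) (.e (nat_lit 532499) (nat_lit 1) (.e (nat_lit 57688) (nat_lit 156) (.e (nat_lit 163872) (nat_lit 3) (.e (nat_lit 204838) (nat_lit 20) (.e (nat_lit 114716) (nat_lit 22) .nil))))))) (.g (nat_lit 1) (.e (nat_lit 271295) (nat_lit 0) .nil) .nil))) 
(.lf (nat_lit 541431) (.g (nat_lit 1995) (.e (nat_lit 90185) (nat_lit 17) (.e (nat_lit 237616) (nat_lit 12) (.e (nat_lit 475177) (nat_lit 24) (.e (nat_lit 516124) (nat_lit 2) (.e (nat_lit 213030) (nat_lit 11) (.e (nat_lit 24602) (nat_lit 2) .nil)))))) (.g (nat_lit 1) (.e (nat_lit 272034) (nat_lit 0) .nil) .nil)))) (.nd (nat_lit 9) 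
(.lf (nat_lit 541175) (.g (nat_lit 3402) (.e (nat_lit 90174) (nat_lit 14) (.e (nat_lit 180250) (nat_lit 10) (.e (nat_lit 573489) (nat_lit 14) (.e (nat_lit 73755) (nat_lit 8) (.e (nat_lit 557090) (nat_lit 12) (.e (nat_lit 163840) (nat_lit 0) (.e (nat_lit 5937) (nat_lit 322) (.e (nat_lit 57375) (nat_lit 2) .nil)))))))) (.g (nat_lit 1) (.e (nat_lit 271680) (nat_lit 0) .nil) .nil))) 
(.lf (nat_lit 541687) (.g (nat_lit 2280) (.e (nat_lit 98333) (nat_lit 18) (.e (nat_lit 164179) (nat_lit 154) (.e (nat_lit 57411) (nat_lit 12) (.e (nat_lit 336454) (nat_lit 34) (.e (nat_lit 483390) (nat_lit 23) .nil))))) (.g (nat_lit 0) (.e (nat_lit 272790) (nat_lit 0) .nil) .nil))))))))) (.nd (nat_lit 4) (.nd (nat_lit 5) (.nd (nat_lit 6) (.nd (nat_lit 7) (.nd (nat_lit 8) (.nd (nat_lit 9) 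
(.lf (nat_lit 540687) (.g (nat_lit 2827) (.e (nat_lit 90170) (nat_lit 13) (.e (nat_lit 172106) (nat_lit 10) (.e (nat_lit 434244) (nat_lit 28) (.e (nat_lit 573468) (nat_lit 10) (.e (nat_lit 8192) (nat_lit 0) (.e (nat_lit 4620) (nat_lit 269) (.e (nat_lit 2554) (nat_lit 159) (.e (nat_lit 24605) (nat_lit 2) .nil)))))))) (.g (nat_lit 1) (.e (nat_lit 271044) (nat_lit 0) .nil) .nil))) 
(.lf (nat_lit 541199) (.g (nat_lit 3098) (.e (nat_lit 90174) (nat_lit 14) (.e (nat_lit 180250) (nat_lit 10) (.e (nat_lit 573489) (nat_lit 14) (.e (nat_lit 73755) (nat_lit 8) (.e (nat_lit 557091) (nat_lit 12) (.e (nat_lit 163842) (nat_lit 0) (.e (nat_lit 5932) (nat_lit 322) (.e (nat_lit 57371) (nat_lit 2) .nil)))))))) (.g (nat_lit 1) (.e (nat_lit 271704) (nat_lit 0) .nil) .nil)))) (.nd (nat_lit 9) 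
(.lf (nat_lit 540943) (.g (nat_lit 2862) (.e (nat_lit 90172) (nat_lit 14) (.e (nat_lit 180244) (nat_lit 5) (.e (nat_lit 532499) (nat_lit 1) (.e (nat_lit 57688) (nat_lit 156) (.e (nat_lit 163843) (nat_lit 0) (.e (nat_lit 3230) (nat_lit 197) (.e (nat_lit 532513) (nat_lit 3) (.e (nat_lit 114714) (nat_lit 22) .nil)))))))) (.g (nat_lit 1) (.e (nat_lit 271342) (nat_lit 0) .nil) .nil))) 
(.lf (nat_lit 541455) (.g (nat_lit 2725) (.e (nat_lit 90185) (nat_lit 17) (.e (nat_lit 237619) (nat_lit 12) (.e (nat_lit 475177) (nat_lit 24) (.e (nat_lit 516124) (nat_lit 2) (.e (nat_lit 213030) (nat_lit 11) (.e (nat_lit 24604) (nat_lit 2) .nil)))))) (.g (nat_lit 1) (.e (nat_lit 272058) (nat_lit 0) .nil) .nil))))) (.nd (nat_lit 8) (.nd (nat_lit 9) 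
(.lf (nat_lit 540815) (.g (nat_lit 2773) (.e (nat_lit 90170) (nat_lit 13) (.e (nat_lit 172113) (nat_lit 10) (.e (nat_lit 434247) (nat_lit 28) (.e (nat_lit 573477) (nat_lit 12) (.e (nat_lit 57575) (nat_lit 55) (.e (nat_lit 778464) (nat_lit 11) (.e (nat_lit 24602) (nat_lit 2) .nil))))))) (.g (nat_lit 1) (.e (nat_lit 271175) (nat_lit 0) .nil) .nil))) 
(.lf (nat_lit 541327) (.g (nat_lit 3225) (.e (nat_lit 90176) (nat_lit 15) (.e (nat_lit 188440) (nat_lit 20) (.e (nat_lit 3307) (nat_lit 202) (.e (nat_lit 573475) (nat_lit 12) (.e (nat_lit 57574) (nat_lit 55) (.e (nat_lit 778464) (nat_lit 11) (.e (nat_lit 24603) (nat_lit 2) .nil))))))) (.g (nat_lit 1) (.e (nat_lit 271855) (nat_lit 0) .nil) .nil)))) (.nd (nat_lit 9) 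
(.lf (nat_lit 541071) (.g (nat_lit 3972) (.e (nat_lit 90173) (nat_lit 14) (.e (nat_lit 180252) (nat_lit 10) (.e (nat_lit 573489) (nat_lit 14) (.e (nat_lit 73755) (nat_lit 8) (.e (nat_lit 557119) (nat_lit 18) (.e (nat_lit 2797) (nat_lit 180) (.e (nat_lit 311040) (nat_lit 17) .nil))))))) (.g (nat_lit 1) (.e (nat_lit 271519) (nat_lit 0) .nil) .nil))) 
(.lf (nat_lit 541583) (.g (nat_lit 1870) (.e (nat_lit 98317) (nat_lit 9) (.e (nat_lit 335988) (nat_lit 1) (.e (nat_lit 57931) (nat_lit 282) (.e (nat_lit 163902) (nat_lit 12) .nil)))) (.g (nat_lit 0) (.e (nat_lit 272494) (nat_lit 0) .nil) .nil)))))) (.nd (nat_lit 7) (.nd (nat_lit 8) (.nd (nat_lit 9) 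
(.lf (nat_lit 540751) (.g (nat_lit 3147) (.e (nat_lit 90170) (nat_lit 13) (.e (nat_lit 172113) (nat_lit 10) (.e (nat_lit 434245) (nat_lit 28) (.e (nat_lit 573450) (nat_lit 9) (.e (nat_lit 375) (nat_lit 32) (.e (nat_lit 426025) (nat_lit 0) (.e (nat_lit 7559) (nat_lit 402) (.e (nat_lit 1235) (nat_lit 91) .nil)))))))) (.g (nat_lit 1) (.e (nat_lit 271108) (nat_lit 0) .nil) .nil))) 
(.lf (nat_lit 541263) (.g (nat_lit 3859) (.e (nat_lit 90174) (nat_lit 14) (.e (nat_lit 180251) (nat_lit 10) (.e (nat_lit 573489) (nat_lit 14) (.e (nat_lit 73755) (nat_lit 8) (.e (nat_lit 557090) (nat_lit 12) (.e (nat_lit 163845) (nat_lit 0) (.e (nat_lit 5943) (nat_lit 322) (.e (nat_lit 57375) (nat_lit 2) .nil)))))))) (.g (nat_lit 1) (.e (nat_lit 271768) (nat_lit 0) .nil) .nil)))) (.nd (nat_lit 9) 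
(.lf (nat_lit 541007) (.g (nat_lit 3780) (.e (nat_lit 90172) (nat_lit 14) (.e (nat_lit 180250) (nat_lit 10) (.e (nat_lit 573489) (nat_lit 14) (.e (nat_lit 73755) (nat_lit 8) (.e (nat_lit 557090) (nat_lit 12) (.e (nat_lit 163843) (nat_lit 0) (.e (nat_lit 5934) (nat_lit 322) (.e (nat_lit 57375) (nat_lit 2) .nil)))))))) (.g (nat_lit 1) (.e (nat_lit 271437) (nat_lit 0) .nil) .nil))) 
(.lf (nat_lit 541519) (.g (nat_lit 3456) (.e (nat_lit 98313) (nat_lit 9) (.e (nat_lit 335986) (nat_lit 1) (.e (nat_lit 57926) (nat_lit 282) (.e (nat_lit 163943) (nat_lit 19) (.e (nat_lit 483393) (nat_lit 23) (.e (nat_lit 336021) (nat_lit 3) .nil)))))) (.g (nat_lit 1) (.e (nat_lit 272320) (nat_lit 0) .nil) .nil))))) (.nd (nat_lit 8) (.nd (nat_lit 9) 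
(.lf (nat_lit 540879) (.g (nat_lit 2518) (.e (nat_lit 90170) (nat_lit 13) (.e (nat_lit 172121) (nat_lit 13) (.e (nat_lit 483365) (nat_lit 18) (.e (nat_lit 57688) (nat_lit 156) (.e (nat_lit 163905) (nat_lit 12) (.e (nat_lit 426428) (nat_lit 17) .nil)))))) (.g (nat_lit 1) (.e (nat_lit 271243) (nat_lit 0) .nil) .nil))) 
(.lf (nat_lit 541391) (.g (nat_lit 814) (.e (nat_lit 90178) (nat_lit 15) (.e (nat_lit 188452) (nat_lit 23) (.e (nat_lit 204815) (nat_lit 17) .nil))) (.g (nat_lit 0) (.e (nat_lit 271936) (nat_lit 0) .nil) .nil)))) (.nd (nat_lit 9) 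
(.lf (nat_lit 541135) (.g (nat_lit 1978) (.e (nat_lit 90174) (nat_lit 14) (.e (nat_lit 180243) (nat_lit 5) (.e (nat_lit 532515) (nat_lit 3) (.e (nat_lit 114718) (nat_lit 23) (.e (nat_lit 98332) (nat_lit 18) .nil))))) (.g (nat_lit 0) (.e (nat_lit 271639) (nat_lit 0) .nil) .nil))) 
(.lf (nat_lit 541647) (.g (nat_lit 2208) (.e (nat_lit 98325) (nat_lit 17) (.e (nat_lit 6986) (nat_lit 377) (.e (nat_lit 2777) (nat_lit 178) (.e (nat_lit 286735) (nat_lit 3) (.e (nat_lit 98387) (nat_lit 33) .nil))))) (.g (nat_lit 0) (.e (nat_lit 272688) (nat_lit 0) .nil) .nil))))))) (.nd (nat_lit 6) (.nd (nat_lit 7) (.nd (nat_lit 8) (.nd (nat_lit 9) 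
(.lf (nat_lit 540719) (.g (nat_lit 1115) (.e (nat_lit 90170) (nat_lit 13) (.e (nat_lit 172113) (nat_lit 10) (.e (nat_lit 434231) (nat_lit 23) (.e (nat_lit 532482) (nat_lit 0) .nil)))) (.g (nat_lit 0) (.e (nat_lit 271076) (nat_lit 0) .nil) .nil))) 
(.lf (nat_lit 541231) (.g (nat_lit 3571) (.e (nat_lit 90174) (nat_lit 14) (.e (nat_lit 180251) (nat_lit 10) (.e (nat_lit 573489) (nat_lit 14) (.e (nat_lit 73755) (nat_lit 8) (.e (nat_lit 557075) (nat_lit 9) (.e (nat_lit 2601) (nat_lit 163) (.e (nat_lit 164398) (nat_lit 256) (.e (nat_lit 57373) (nat_lit 2) .nil)))))))) (.g (nat_lit 1) (.e (nat_lit 271736) (nat_lit 0) .nil) .nil)))) 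
(.nd (nat_lit 9) 
(.lf (nat_lit 540975) (.g (nat_lit 4167) (.e (nat_lit 90172) (nat_lit 14) (.e (nat_lit 180250) (nat_lit 10) (.e (nat_lit 573487) (nat_lit 14) (.e (nat_lit 73753) (nat_lit 8) (.e (nat_lit 557090) (nat_lit 12) (.e (nat_lit 163850) (nat_lit 0) (.e (nat_lit 5939) (nat_lit 322) (.e (nat_lit 57375) (nat_lit 2) .nil)))))))) (.g (nat_lit 1) (.e (nat_lit 271405) (nat_lit 0) .nil) .nil))) 
(.lf (nat_lit 541487) (.g (nat_lit 2959) (.e (nat_lit 90185) (nat_lit 17) (.e (nat_lit 237625) (nat_lit 14) (.e (nat_lit 491536) (nat_lit 2) (.e (nat_lit 90170) (nat_lit 13) (.e (nat_lit 172126) (nat_lit 14) (.e (nat_lit 491537) (nat_lit 2) .nil)))))) (.g (nat_lit 1) (.e (nat_lit 272090) (nat_lit 0) .nil) .nil))))) (.nd (nat_lit 8) (.nd (nat_lit 9) 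
(.lf (nat_lit 540847) (.g (nat_lit 3772) (.e (nat_lit 90170) (nat_lit 13) (.e (nat_lit 172113) (nat_lit 10) (.e (nat_lit 434248) (nat_lit 28) (.e (nat_lit 573475) (nat_lit 12) (.e (nat_lit 57347) (nat_lit 0) (.e (nat_lit 7265) (nat_lit 384) (.e (nat_lit 57412) (nat_lit 12) (.e (nat_lit 336008) (nat_lit 2) .nil)))))))) (.g (nat_lit 1) (.e (nat_lit 271209) (nat_lit 0) .nil) .nil))) 
(.lf (nat_lit 541359) (.g (nat_lit 663) (.e (nat_lit 90176) (nat_lit 15) (.e (nat_lit 188452) (nat_lit 23) (.e (nat_lit 204815) (nat_lit 17) .nil))) (.g (nat_lit 0) (.e (nat_lit 271890) (nat_lit 0) .nil) .nil)))) (.nd (nat_lit 9) 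
(.lf (nat_lit 541103) (.g (nat_lit 2622) (.e (nat_lit 90174) (nat_lit 14) (.e (nat_lit 180243) (nat_lit 5) (.e (nat_lit 532501) (nat_lit 1) (.e (nat_lit 57692) (nat_lit 156) (.e (nat_lit 163874) (nat_lit 3) (.e (nat_lit 204838) (nat_lit 20) (.e (nat_lit 114715) (nat_lit 22) .nil))))))) (.g (nat_lit 1) (.e (nat_lit 271581) (nat_lit 0) .nil) .nil))) 
(.lf (nat_lit 541615) (.g (nat_lit 521) (.e (nat_lit 98320) (nat_lit 17) (.e (nat_lit 7593) (nat_lit 407) (.e (nat_lit 73739) (nat_lit 1) .nil))) (.g (nat_lit 0) (.e (nat_lit 272625) (nat_lit 0) .nil) .nil)))))) (.nd (nat_lit 7) (.nd (nat_lit 8) (.nd (nat_lit 9) 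
(.lf (nat_lit 540783) (.g (nat_lit 3120) (.e (nat_lit 90170) (nat_lit 13) (.e (nat_lit 172113) (nat_lit 10) (.e (nat_lit 434245) (nat_lit 28) (.e (nat_lit 573474) (nat_lit 12) (.e (nat_lit 57347) (nat_lit 0) (.e (nat_lit 7265) (nat_lit 384) (.e (nat_lit 57412) (nat_lit 12) (.e (nat_lit 336005) (nat_lit 2) .nil)))))))) (.g (nat_lit 1) (.e (nat_lit 271140) (nat_lit 0) .nil) .nil))) 
(.lf (nat_lit 541295) (.g (nat_lit 1651) (.e (nat_lit 90175) (nat_lit 15) (.e (nat_lit 188452) (nat_lit 23) (.e (nat_lit 204846) (nat_lit 24) (.e (nat_lit 319504) (nat_lit 10) .nil)))) (.g (nat_lit 0) (.e (nat_lit 271813) (nat_lit 0) .nil) .nil)))) (.nd (nat_lit 9) 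
(.lf (nat_lit 541039) (.g (nat_lit 3558) (.e (nat_lit 90173) (nat_lit 14) (.e (nat_lit 180251) (nat_lit 10) (.e (nat_lit 573489) (nat_lit 14) (.e (nat_lit 73755) (nat_lit 8) (.e (nat_lit 557090) (nat_lit 12) (.e (nat_lit 163843) (nat_lit 0) (.e (nat_lit 5940) (nat_lit 322) (.e (nat_lit 57371) (nat_lit 2) .nil)))))))) (.g (nat_lit 1) (.e (nat_lit 271480) (nat_lit 0) .nil) .nil))) 
(.lf (nat_lit 541551) (.g (nat_lit 2900) (.e (nat_lit 98313) (nat_lit 9) (.e (nat_lit 336027) (nat_lit 3) (.e (nat_lit 98335) (nat_lit 18) (.e (nat_lit 164183) (nat_lit 154) (.e (nat_lit 65280) (nat_lit 64) .nil))))) (.g (nat_lit 0) (.e (nat_lit 272420) (nat_lit 0) .nil) .nil))))) (.nd (nat_lit 8) (.nd (nat_lit 9) 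
(.lf (nat_lit 540911) (.g (nat_lit 2141) (.e (nat_lit 90172) (nat_lit 14) (.e (nat_lit 180243) (nat_lit 5) (.e (nat_lit 532499) (nat_lit 1) (.e (nat_lit 57652) (nat_lit 152) .nil)))) (.g (nat_lit 0) (.e (nat_lit 271279) (nat_lit 0) .nil) .nil))) 
(.lf (nat_lit 541423) (.g (nat_lit 1969) (.e (nat_lit 90185) (nat_lit 17) (.e (nat_lit 237616) (nat_lit 12) (.e (nat_lit 475177) (nat_lit 24) (.e (nat_lit 516097) (nat_lit 0) (.e (nat_lit 3647) (nat_lit 227) (.e (nat_lit 778462) (nat_lit 11) (.e (nat_lit 24604) (nat_lit 2) .nil))))))) (.g (nat_lit 1) (.e (nat_lit 272026) (nat_lit 0) .nil) .nil)))) (.nd (nat_lit 9) 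
(.lf (nat_lit 541167) (.g (nat_lit 3947) (.e (nat_lit 90174) (nat_lit 14) (.e (nat_lit 180250) (nat_lit 10) (.e (nat_lit 573489) (nat_lit 14) (.e (nat_lit 73755) (nat_lit 8) (.e (nat_lit 557067) (nat_lit 9) (.e (nat_lit 2603) (nat_lit 163) (.e (nat_lit 164396) (nat_lit 256) (.e (nat_lit 57371) (nat_lit 2) .nil)))))))) (.g (nat_lit 1) (.e (nat_lit 271672) (nat_lit 0) .nil) .nil))) 
(.lf (nat_lit 541679) (.g (nat_lit 3361) (.e (nat_lit 98333) (nat_lit 18) (.e (nat_lit 164179) (nat_lit 154) (.e (nat_lit 57378) (nat_lit 3) (.e (nat_lit 98342) (nat_lit 20) (.e (nat_lit 221215) (nat_lit 23) (.e (nat_lit 204861) (nat_lit 26) (.e (nat_lit 336026) (nat_lit 3) .nil))))))) (.g (nat_lit 1) (.e (nat_lit 272780) (nat_lit 0) .nil) .nil)))))))) 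
(.nd (nat_lit 5) (.nd (nat_lit 6) (.nd (nat_lit 7) (.nd (nat_lit 8) (.nd (nat_lit 9) 
(.lf (nat_lit 540703) (.g (nat_lit 3607) (.e (nat_lit 90170) (nat_lit 13) (.e (nat_lit 172106) (nat_lit 10) (.e (nat_lit 434244) (nat_lit 28) (.e (nat_lit 573474) (nat_lit 12) (.e (nat_lit 57354) (nat_lit 0) (.e (nat_lit 7272) (nat_lit 385) (.e (nat_lit 122906) (nat_lit 12) (.e (nat_lit 336001) (nat_lit 2) .nil)))))))) (.g (nat_lit 1) (.e (nat_lit 271060) (nat_lit 0) .nil) .nil))) 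
(.lf (nat_lit 541215) (.g (nat_lit 1447) (.e (nat_lit 90174) (nat_lit 14) (.e (nat_lit 180251) (nat_lit 10) (.e (nat_lit 573489) (nat_lit 14) (.e (nat_lit 73748) (nat_lit 3) .nil)))) (.g (nat_lit 0) (.e (nat_lit 271720) (nat_lit 0) .nil) .nil)))) (.nd (nat_lit 9) 
(.lf (nat_lit 540959) (.g (nat_lit 1952) (.e (nat_lit 90172) (nat_lit 14) (.e (nat_lit 180244) (nat_lit 5) (.e (nat_lit 532513) (nat_lit 3) (.e (nat_lit 114718) (nat_lit 23) (.e (nat_lit 98334) (nat_lit 18) .nil))))) (.g (nat_lit 0) (.e (nat_lit 271385) (nat_lit 0) .nil) .nil))) 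
(.lf (nat_lit 541471) (.g (nat_lit 2191) (.e (nat_lit 90185) (nat_lit 17) (.e (nat_lit 237619) (nat_lit 12) (.e (nat_lit 475179) (nat_lit 24) (.e (nat_lit 516124) (nat_lit 2) (.e (nat_lit 213032) (nat_lit 11) (.e (nat_lit 24603) (nat_lit 2) .nil)))))) (.g (nat_lit 1) (.e (nat_lit 272074) (nat_lit 0) .nil) .nil))))) (.nd (nat_lit 8) (.nd (nat_lit 9) 
(.lf (nat_lit 540831) (.g (nat_lit 3640) (.e (nat_lit 90170) (nat_lit 13) (.e (nat_lit 172113) (nat_lit 10) (.e (nat_lit 434248) (nat_lit 28) (.e (nat_lit 573469) (nat_lit 11) (.e (nat_lit 16472) (nat_lit 14) (.e (nat_lit 491535) (nat_lit 2) .nil)))))) (.g (nat_lit 1) (.e (nat_lit 271193) (nat_lit 0) .nil) .nil))) 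
(.lf (nat_lit 541343) (.g (nat_lit 2180) (.e (nat_lit 90176) (nat_lit 15) (.e (nat_lit 188450) (nat_lit 23) (.e (nat_lit 204846) (nat_lit 24) (.e (nat_lit 319496) (nat_lit 10) (.e (nat_lit 5309) (nat_lit 298) .nil))))) (.g (nat_lit 0) (.e (nat_lit 271873) (nat_lit 0) .nil) .nil)))) (.nd (nat_lit 9) 
(.lf (nat_lit 541087) (.g (nat_lit 2538) (.e (nat_lit 90174) (nat_lit 14) (.e (nat_lit 180243) (nat_lit 5) (.e (nat_lit 532499) (nat_lit 1) (.e (nat_lit 57688) (nat_lit 156) (.e (nat_lit 163850) (nat_lit 0) .nil))))) (.g (nat_lit 0) (.e (nat_lit 271548) (nat_lit 0) .nil) .nil))) 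
(.lf (nat_lit 541599) (.g (nat_lit 2307) (.e (nat_lit 98317) (nat_lit 9) (.e (nat_lit 335996) (nat_lit 1) (.e (nat_lit 57931) (nat_lit 282) (.e (nat_lit 163902) (nat_lit 12) (.e (nat_lit 426556) (nat_lit 32) (.e (nat_lit 376868) (nat_lit 23) .nil)))))) (.g (nat_lit 1) (.e (nat_lit 272526) (nat_lit 0) .nil) .nil)))))) (.nd (nat_lit 7) (.nd (nat_lit 8) (.nd (nat_lit 9) 
(.lf (nat_lit 540767) (.g (nat_lit 1643) (.e (nat_lit 90170) (nat_lit 13) (.e (nat_lit 172113) (nat_lit 10) (.e (nat_lit 434245) (nat_lit 28) (.e (nat_lit 573471) (nat_lit 11) (.e (nat_lit 16386) (nat_lit 0) .nil))))) (.g (nat_lit 0) (.e (nat_lit 271124) (nat_lit 0) .nil) .nil))) 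
(.lf (nat_lit 541279) (.g (nat_lit 3777) (.e (nat_lit 90174) (nat_lit 14) (.e (nat_lit 180251) (nat_lit 10) (.e (nat_lit 573489) (nat_lit 14) (.e (nat_lit 73755) (nat_lit 8) (.e (nat_lit 557119) (nat_lit 18) (.e (nat_lit 2796) (nat_lit 180) (.e (nat_lit 311040) (nat_lit 17) .nil))))))) (.g (nat_lit 1) (.e (nat_lit 271784) (nat_lit 0) .nil) .nil)))) (.nd (nat_lit 9) 
(.lf (nat_lit 541023) (.g (nat_lit 2455) (.e (nat_lit 90172) (nat_lit 14) (.e (nat_lit 180251) (nat_lit 10) (.e (nat_lit 573489) (nat_lit 14) (.e (nat_lit 73755) (nat_lit 8) (.e (nat_lit 557089) (nat_lit 12) (.e (nat_lit 163844) (nat_lit 0) (.e (nat_lit 5943) (nat_lit 322) (.e (nat_lit 57375) (nat_lit 2) .nil)))))))) (.g (nat_lit 1) (.e (nat_lit 271453) (nat_lit 0) .nil) .nil))) 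
(.lf (nat_lit 541535) (.g (nat_lit 1657) (.e (nat_lit 98313) (nat_lit 9) (.e (nat_lit 335993) (nat_lit 1) (.e (nat_lit 57931) (nat_lit 282) (.e (nat_lit 163905) (nat_lit 12) (.e (nat_lit 426542) (nat_lit 29) (.e (nat_lit 352313) (nat_lit 23) .nil)))))) (.g (nat_lit 1) (.e (nat_lit 272362) (nat_lit 0) .nil) .nil))))) (.nd (nat_lit 8) (.nd (nat_lit 9) 
(.lf (nat_lit 540895) (.g (nat_lit 2141) (.e (nat_lit 90170) (nat_lit 13) (.e (nat_lit 172124) (nat_lit 14) (.e (nat_lit 491537) (nat_lit 2) (.e (nat_lit 90171) (nat_lit 14) .nil)))) (.g (nat_lit 0) (.e (nat_lit 271259) (nat_lit 0) .nil) .nil))) 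
(.lf (nat_lit 541407) (.g (nat_lit 2237) (.e (nat_lit 90185) (nat_lit 17) (.e (nat_lit 237601) (nat_lit 9) (.e (nat_lit 426436) (nat_lit 18) (.e (nat_lit 98339) (nat_lit 19) (.e (nat_lit 213030) (nat_lit 11) (.e (nat_lit 24602) (nat_lit 2) .nil)))))) (.g (nat_lit 1) (.e (nat_lit 272010) (nat_lit 0) .nil) .nil)))) (.nd (nat_lit 9) 
(.lf (nat_lit 541151) (.g (nat_lit 2930) (.e (nat_lit 90174) (nat_lit 14) (.e (nat_lit 180250) (nat_lit 10) (.e (nat_lit 573484) (nat_lit 13) (.e (nat_lit 65568) (nat_lit 2) (.e (nat_lit 98048) (nat_lit 0) (.e (nat_lit 370) (nat_lit 32) (.e (nat_lit 426428) (nat_lit 17) .nil))))))) (.g (nat_lit 1) (.e (nat_lit 271656) (nat_lit 0) .nil) .nil))) 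
(.lf (nat_lit 541663) (.g (nat_lit 1368) (.e (nat_lit 98332) (nat_lit 18) (.e (nat_lit 164332) (nat_lit 230) (.e (nat_lit 163905) (nat_lit 12) (.e (nat_lit 426479) (nat_lit 27) (.e (nat_lit 336428) (nat_lit 29) .nil))))) (.g (nat_lit 0) (.e (nat_lit 272746) (nat_lit 0) .nil) .nil))))))) (.nd (nat_lit 6) (.nd (nat_lit 7) (.nd (nat_lit 8) (.nd (nat_lit 9) 
(.lf (nat_lit 540735) (.g (nat_lit 2798) (.e (nat_lit 90170) (nat_lit 13) (.e (nat_lit 172113) (nat_lit 10) (.e (nat_lit 434242) (nat_lit 28) (.e (nat_lit 573474) (nat_lit 12) (.e (nat_lit 57348) (nat_lit 0) (.e (nat_lit 7263) (nat_lit 384) (.e (nat_lit 57412) (nat_lit 12) (.e (nat_lit 336008) (nat_lit 2) .nil)))))))) (.g (nat_lit 1) (.e (nat_lit 271092) (nat_lit 0) .nil) .nil))) 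
(.lf (nat_lit 541247) (.g (nat_lit 3341) (.e (nat_lit 90174) (nat_lit 14) (.e (nat_lit 180251) (nat_lit 10) (.e (nat_lit 573489) (nat_lit 14) (.e (nat_lit 73755) (nat_lit 8) (.e (nat_lit 557090) (nat_lit 12) (.e (nat_lit 163841) (nat_lit 0) (.e (nat_lit 5941) (nat_lit 322) (.e (nat_lit 57375) (nat_lit 2) .nil)))))))) (.g (nat_lit 1) (.e (nat_lit 271752) (nat_lit 0) .nil) .nil)))) (.nd (nat_lit 9) 
(.lf (nat_lit 540991) (.g (nat_lit 3461) (.e (nat_lit 90172) (nat_lit 14) (.e (nat_lit 180250) (nat_lit 10) (.e (nat_lit 573488) (nat_lit 14) (.e (nat_lit 73755) (nat_lit 8) (.e (nat_lit 557091) (nat_lit 12) (.e (nat_lit 163841) (nat_lit 0) (.e (nat_lit 5943) (nat_lit 322) (.e (nat_lit 57372) (nat_lit 2) .nil)))))))) (.g (nat_lit 1) (.e (nat_lit 271421) (nat_lit 0) .nil) .nil))) 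
(.lf (nat_lit 541503) (.g (nat_lit 802) (.e (nat_lit 106240) (nat_lit 7) (.e (nat_lit 319534) (nat_lit 16) (.e (nat_lit 286721) (nat_lit 0) .nil))) (.g (nat_lit 0) (.e (nat_lit 272285) (nat_lit 0) .nil) .nil))))) (.nd (nat_lit 8) (.nd (nat_lit 9) 
(.lf (nat_lit 540863) (.g (nat_lit 2831) (.e (nat_lit 90170) (nat_lit 13) (.e (nat_lit 172115) (nat_lit 10) (.e (nat_lit 434244) (nat_lit 28) (.e (nat_lit 573471) (nat_lit 11) (.e (nat_lit 16473) (nat_lit 14) .nil))))) (.g (nat_lit 0) (.e (nat_lit 271227) (nat_lit 0) .nil) .nil))) 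
(.lf (nat_lit 541375) (.g (nat_lit 3290) (.e (nat_lit 90178) (nat_lit 15) (.e (nat_lit 188421) (nat_lit 11) (.e (nat_lit 335986) (nat_lit 1) (.e (nat_lit 57692) (nat_lit 156) (.e (nat_lit 163905) (nat_lit 12) (.e (nat_lit 426428) (nat_lit 17) .nil)))))) (.g (nat_lit 1) (.e (nat_lit 271920) (nat_lit 0) .nil) .nil)))) (.nd (nat_lit 9) 
(.lf (nat_lit 541119) (.g (nat_lit 3777) (.e (nat_lit 90174) (nat_lit 14) (.e (nat_lit 180243) (nat_lit 5) (.e (nat_lit 532503) (nat_lit 1) (.e (nat_lit 57692) (nat_lit 156) (.e (nat_lit 163874) (nat_lit 3) (.e (nat_lit 204837) (nat_lit 20) (.e (nat_lit 114714) (nat_lit 22) .nil))))))) (.g (nat_lit 1) (.e (nat_lit 271612) (nat_lit 0) .nil) .nil))) 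
(.lf (nat_lit 541631) (.g (nat_lit 483) (.e (nat_lit 98323) (nat_lit 17) (.e (nat_lit 6989) (nat_lit 377) (.e (nat_lit 1076) (nat_lit 81) .nil))) (.g (nat_lit 0) (.e (nat_lit 272646) (nat_lit 0) .nil) .nil)))))) (.nd (nat_lit 7) (.nd (nat_lit 8) (.nd (nat_lit 9) 
(.lf (nat_lit 540799) (.g (nat_lit 1628) (.e (nat_lit 90170) (nat_lit 13) (.e (nat_lit 172113) (nat_lit 10) (.e (nat_lit 434247) (nat_lit 28) (.e (nat_lit 573448) (nat_lit 9) .nil)))) (.g (nat_lit 0) (.e (nat_lit 271158) (nat_lit 0) .nil) .nil))) 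
(.lf (nat_lit 541311) (.g (nat_lit 2906) (.e (nat_lit 90176) (nat_lit 15) (.e (nat_lit 188423) (nat_lit 11) (.e (nat_lit 335995) (nat_lit 1) (.e (nat_lit 57691) (nat_lit 156) (.e (nat_lit 163907) (nat_lit 12) (.e (nat_lit 426428) (nat_lit 17) .nil)))))) (.g (nat_lit 1) (.e (nat_lit 271837) (nat_lit 0) .nil) .nil)))) (.nd (nat_lit 9) 
(.lf (nat_lit 541055) (.g (nat_lit 3260) (.e (nat_lit 90173) (nat_lit 14) (.e (nat_lit 180252) (nat_lit 10) (.e (nat_lit 573489) (nat_lit 14) (.e (nat_lit 73755) (nat_lit 8) (.e (nat_lit 557075) (nat_lit 9) .nil))))) (.g (nat_lit 0) (.e (nat_lit 271503) (nat_lit 0) .nil) .nil))) 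
(.lf (nat_lit 541567) (.g (nat_lit 313) (.e (nat_lit 98317) (nat_lit 9) (.e (nat_lit 335986) (nat_lit 1) (.e (nat_lit 57927) (nat_lit 282) .nil))) (.g (nat_lit 0) (.e (nat_lit 272465) (nat_lit 0) .nil) .nil))))) (.nd (nat_lit 8) (.nd (nat_lit 9) 
(.lf (nat_lit 540927) (.g (nat_lit 2588) (.e (nat_lit 90172) (nat_lit 14) (.e (nat_lit 180243) (nat_lit 5) (.e (nat_lit 532503) (nat_lit 1) (.e (nat_lit 57688) (nat_lit 156) (.e (nat_lit 163844) (nat_lit 0) .nil))))) (.g (nat_lit 0) (.e (nat_lit 271313) (nat_lit 0) .nil) .nil))) 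
(.lf (nat_lit 541439) (.g (nat_lit 1873) (.e (nat_lit 90185) (nat_lit 17) (.e (nat_lit 237616) (nat_lit 12) (.e (nat_lit 475179) (nat_lit 24) (.e (nat_lit 516124) (nat_lit 2) (.e (nat_lit 213030) (nat_lit 11) (.e (nat_lit 24603) (nat_lit 2) .nil)))))) (.g (nat_lit 1) (.e (nat_lit 272042) (nat_lit 0) .nil) .nil)))) (.nd (nat_lit 9) 
(.lf (nat_lit 541183) (.g (nat_lit 4285) (.e (nat_lit 90174) (nat_lit 14) (.e (nat_lit 180250) (nat_lit 10) (.e (nat_lit 573489) (nat_lit 14) (.e (nat_lit 73755) (nat_lit 8) (.e (nat_lit 557090) (nat_lit 12) (.e (nat_lit 163845) (nat_lit 0) (.e (nat_lit 5934) (nat_lit 322) (.e (nat_lit 57371) (nat_lit 2) .nil)))))))) (.g (nat_lit 1) (.e (nat_lit 271688) (nat_lit 0) .nil) .nil))) 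
(.lf (nat_lit 541695) (.g (nat_lit 4055) (.e (nat_lit 98333) (nat_lit 18) (.e (nat_lit 164182) (nat_lit 154) (.e (nat_lit 57379) (nat_lit 3) (.e (nat_lit 98342) (nat_lit 20) (.e (nat_lit 221212) (nat_lit 22) (.e (nat_lit 196681) (nat_lit 17) (.e (nat_lit 131098) (nat_lit 3) .nil))))))) (.g (nat_lit 1) (.e (nat_lit 272809) (nat_lit 0) .nil) .nil)))))))))))))

noncomputable def tv5589 : DT := (.nd (nat_lit 0) (.nd (nat_lit 1) (.nd (nat_lit 2) (.nd (nat_lit 3) (.nd (nat_lit 4) (.nd (nat_lit 5) (.nd (nat_lit 6) (.nd (nat_lit 7) (.nd (nat_lit 8) (.nd (nat_lit 9) 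
(.lf (nat_lit 541696) (.g (nat_lit 2117) (.e (nat_lit 98333) (nat_lit 18) (.e (nat_lit 164182) (nat_lit 154) (.e (nat_lit 57379) (nat_lit 3) (.e (nat_lit 98342) (nat_lit 20) (.e (nat_lit 221215) (nat_lit 23) .nil))))) (.g (nat_lit 0) (.e (nat_lit 272810) (nat_lit 0) .nil) .nil))) 
(.lf (nat_lit 542208) (.g (nat_lit 2602) (.e (nat_lit 98335) (nat_lit 18) (.e (nat_lit 164327) (nat_lit 230) (.e (nat_lit 163941) (nat_lit 19) (.e (nat_lit 483341) (nat_lit 9) (.e (nat_lit 433920) (nat_lit 9) (.e (nat_lit 426435) (nat_lit 18) .nil)))))) (.g (nat_lit 1) (.e (nat_lit 273642) (nat_lit 0) .nil) .nil)))) (.nd (nat_lit 9) 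
(.lf (nat_lit 541952) (.g (nat_lit 2420) (.e (nat_lit 98334) (nat_lit 18) (.e (nat_lit 164329) (nat_lit 230) (.e (nat_lit 163867) (nat_lit 2) (.e (nat_lit 196656) (nat_lit 11) (.e (nat_lit 16416) (nat_lit 3) .nil))))) (.g (nat_lit 0) (.e (nat_lit 273234) (nat_lit 0) .nil) .nil))) 
(.lf (nat_lit 542464) (.g (nat_lit 1179) (.e (nat_lit 106240) (nat_lit 19) (.e (nat_lit 213032) (nat_lit 11) (.e (nat_lit 24604) (nat_lit 2) (.e (nat_lit 90178) (nat_lit 15) (.e (nat_lit 196352) (nat_lit 3) .nil))))) (.g (nat_lit 0) (.e (nat_lit 273985) (nat_lit 0) .nil) .nil))))) (.nd (nat_lit 8) (.nd (nat_lit 9) 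
(.lf (nat_lit 541824) (.g (nat_lit 2701) (.e (nat_lit 98333) (nat_lit 18) (.e (nat_lit 164327) (nat_lit 230) (.e (nat_lit 163875) (nat_lit 3) (.e (nat_lit 204838) (nat_lit 20) (.e (nat_lit 114717) (nat_lit 23) .nil))))) (.g (nat_lit 0) (.e (nat_lit 273021) (nat_lit 0) .nil) .nil))) 
(.lf (nat_lit 542336) (.g (nat_lit 2355) (.e (nat_lit 98335) (nat_lit 18) (.e (nat_lit 164332) (nat_lit 230) (.e (nat_lit 163905) (nat_lit 12) (.e (nat_lit 426493) (nat_lit 27) .nil)))) (.g (nat_lit 0) (.e (nat_lit 273815) (nat_lit 0) .nil) .nil)))) (.nd (nat_lit 9) 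
(.lf (nat_lit 542080) (.g (nat_lit 3650) (.e (nat_lit 98335) (nat_lit 18) (.e (nat_lit 164182) (nat_lit 154) (.e (nat_lit 57379) (nat_lit 3) (.e (nat_lit 98341) (nat_lit 20) (.e (nat_lit 221215) (nat_lit 23) (.e (nat_lit 204861) (nat_lit 26) (.e (nat_lit 336026) (nat_lit 3) .nil))))))) (.g (nat_lit 1) (.e (nat_lit 273473) (nat_lit 0) .nil) .nil))) 
(.lf (nat_lit 542592) (.g (nat_lit 3433) (.e (nat_lit 98342) (nat_lit 20) (.e (nat_lit 221210) (nat_lit 22) (.e (nat_lit 196668) (nat_lit 14) (.e (nat_lit 73746) (nat_lit 3) (.e (nat_lit 516117) (nat_lit 1) (.e (nat_lit 164181) (nat_lit 154) (.e (nat_lit 57379) (nat_lit 3) .nil))))))) (.g (nat_lit 1) (.e (nat_lit 274133) (nat_lit 0) .nil) .nil)))))) 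
(.nd (nat_lit 7) (.nd (nat_lit 8) (.nd (nat_lit 9) 
(.lf (nat_lit 541760) (.g (nat_lit 1973) (.e (nat_lit 98333) (nat_lit 18) (.e (nat_lit 164325) (nat_lit 230) (.e (nat_lit 163907) (nat_lit 12) (.e (nat_lit 426566) (nat_lit 34) (.e (nat_lit 393270) (nat_lit 23) (.e (nat_lit 426434) (nat_lit 18) .nil)))))) (.g (nat_lit 1) (.e (nat_lit 272915) (nat_lit 0) .nil) .nil))) 
(.lf (nat_lit 542272) (.g (nat_lit 2501) (.e (nat_lit 98335) (nat_lit 18) (.e (nat_lit 164330) (nat_lit 230) (.e (nat_lit 163905) (nat_lit 12) (.e (nat_lit 426566) (nat_lit 34) (.e (nat_lit 393270) (nat_lit 23) (.e (nat_lit 426438) (nat_lit 18) .nil)))))) (.g (nat_lit 1) (.e (nat_lit 273726) (nat_lit 0) .nil) .nil)))) (.nd (nat_lit 9) 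
(.lf (nat_lit 542016) (.g (nat_lit 2205) (.e (nat_lit 98334) (nat_lit 18) (.e (nat_lit 164332) (nat_lit 230) (.e (nat_lit 163902) (nat_lit 12) (.e (nat_lit 426479) (nat_lit 27) (.e (nat_lit 336430) (nat_lit 29) (.e (nat_lit 450304) (nat_lit 3) .nil)))))) (.g (nat_lit 1) (.e (nat_lit 273379) (nat_lit 0) .nil) .nil))) 
(.lf (nat_lit 542528) (.g (nat_lit 2957) (.e (nat_lit 98341) (nat_lit 20) (.e (nat_lit 221211) (nat_lit 22) (.e (nat_lit 196666) (nat_lit 13) (.e (nat_lit 65642) (nat_lit 15) (.e (nat_lit 3253) (nat_lit 197) (.e (nat_lit 532504) (nat_lit 1) (.e (nat_lit 57854) (nat_lit 252) (.e (nat_lit 57378) (nat_lit 3) .nil)))))))) (.g (nat_lit 1) (.e (nat_lit 274057) (nat_lit 0) .nil) .nil))))) 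
(.nd (nat_lit 8) (.nd (nat_lit 9) 
(.lf (nat_lit 541888) (.g (nat_lit 2090) (.e (nat_lit 98333) (nat_lit 18) (.e (nat_lit 164332) (nat_lit 230) (.e (nat_lit 163905) (nat_lit 12) (.e (nat_lit 426478) (nat_lit 27) (.e (nat_lit 336426) (nat_lit 29) (.e (nat_lit 450304) (nat_lit 3) .nil)))))) (.g (nat_lit 1) (.e (nat_lit 273111) (nat_lit 0) .nil) .nil))) 
(.lf (nat_lit 542400) (.g (nat_lit 1715) (.e (nat_lit 98337) (nat_lit 19) (.e (nat_lit 213032) (nat_lit 11) (.e (nat_lit 24608) (nat_lit 3) (.e (nat_lit 98381) (nat_lit 31) (.e (nat_lit 474880) (nat_lit 3) .nil))))) (.g (nat_lit 1) (.e (nat_lit 273895) (nat_lit 0) .nil) .nil)))) (.nd (nat_lit 9) 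
(.lf (nat_lit 542144) (.g (nat_lit 3954) (.e (nat_lit 98335) (nat_lit 18) (.e (nat_lit 164325) (nat_lit 230) (.e (nat_lit 163902) (nat_lit 12) (.e (nat_lit 426566) (nat_lit 34) (.e (nat_lit 393271) (nat_lit 23) (.e (nat_lit 426436) (nat_lit 18) .nil)))))) (.g (nat_lit 1) (.e (nat_lit 273568) (nat_lit 0) .nil) .nil))) 
(.lf (nat_lit 542656) (.g (nat_lit 4970) (.e (nat_lit 98342) (nat_lit 20) (.e (nat_lit 221214) (nat_lit 23) (.e (nat_lit 204830) (nat_lit 18) (.e (nat_lit 57927) (nat_lit 282) (.e (nat_lit 163870) (nat_lit 2) (.e (nat_lit 196666) (nat_lit 13) (.e (nat_lit 65569) (nat_lit 3) .nil))))))) (.g (nat_lit 1) (.e (nat_lit 274199) (nat_lit 0) .nil) .nil))))))) 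
(.nd (nat_lit 6) (.nd (nat_lit 7) (.nd (nat_lit 8) (.nd (nat_lit 9) 
(.lf (nat_lit 541728) (.g (nat_lit 3702) (.e (nat_lit 98333) (nat_lit 18) (.e (nat_lit 164325) (nat_lit 230) (.e (nat_lit 163902) (nat_lit 12) (.e (nat_lit 426566) (nat_lit 34) (.e (nat_lit 393268) (nat_lit 23) (.e (nat_lit 426438) (nat_lit 18) .nil)))))) (.g (nat_lit 1) (.e (nat_lit 272882) (nat_lit 0) .nil) .nil))) 
(.lf (nat_lit 542240) (.g (nat_lit 4729) (.e (nat_lit 98335) (nat_lit 18) (.e (nat_lit 164330) (nat_lit 230) (.e (nat_lit 163850) (nat_lit 0) (.e (nat_lit 3304) (nat_lit 202) (.e (nat_lit 573489) (nat_lit 14) (.e (nat_lit 73755) (nat_lit 8) (.e (nat_lit 557097) (nat_lit 13) (.e (nat_lit 179968) (nat_lit 18) .nil)))))))) (.g (nat_lit 1) (.e (nat_lit 273687) (nat_lit 0) .nil) .nil)))) 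
(.nd (nat_lit 9) 
(.lf (nat_lit 541984) (.g (nat_lit 2092) (.e (nat_lit 98334) (nat_lit 18) (.e (nat_lit 164330) (nat_lit 230) (.e (nat_lit 163902) (nat_lit 12) (.e (nat_lit 426502) (nat_lit 27) (.e (nat_lit 336408) (nat_lit 27) .nil))))) (.g (nat_lit 0) (.e (nat_lit 273298) (nat_lit 0) .nil) .nil))) 
(.lf (nat_lit 542496) (.g (nat_lit 2292) (.e (nat_lit 98340) (nat_lit 20) (.e (nat_lit 221215) (nat_lit 23) (.e (nat_lit 204861) (nat_lit 26) (.e (nat_lit 336027) (nat_lit 3) (.e (nat_lit 98333) (nat_lit 18) .nil))))) (.g (nat_lit 0) (.e (nat_lit 274017) (nat_lit 0) .nil) .nil))))) (.nd (nat_lit 8) (.nd (nat_lit 9) 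
(.lf (nat_lit 541856) (.g (nat_lit 2494) (.e (nat_lit 98333) (nat_lit 18) (.e (nat_lit 164327) (nat_lit 230) (.e (nat_lit 163941) (nat_lit 19) (.e (nat_lit 483341) (nat_lit 9) (.e (nat_lit 433920) (nat_lit 9) .nil))))) (.g (nat_lit 0) (.e (nat_lit 273059) (nat_lit 0) .nil) .nil))) 
(.lf (nat_lit 542368) (.g (nat_lit 1791) (.e (nat_lit 98335) (nat_lit 18) (.e (nat_lit 164403) (nat_lit 256) (.e (nat_lit 57377) (nat_lit 3) (.e (nat_lit 98376) (nat_lit 30) (.e (nat_lit 458789) (nat_lit 23) .nil))))) (.g (nat_lit 0) (.e (nat_lit 273860) (nat_lit 0) .nil) .nil)))) (.nd (nat_lit 9) 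
(.lf (nat_lit 542112) (.g (nat_lit 2027) (.e (nat_lit 98335) (nat_lit 18) (.e (nat_lit 164322) (nat_lit 230) (.e (nat_lit 163902) (nat_lit 12) (.e (nat_lit 426479) (nat_lit 27) (.e (nat_lit 336430) (nat_lit 29) (.e (nat_lit 450304) (nat_lit 3) .nil)))))) (.g (nat_lit 1) (.e (nat_lit 273525) (nat_lit 0) .nil) .nil))) 
(.lf (nat_lit 542624) (.g (nat_lit 2935) (.e (nat_lit 98342) (nat_lit 20) (.e (nat_lit 221212) (nat_lit 22) (.e (nat_lit 196668) (nat_lit 14) (.e (nat_lit 73747) (nat_lit 3) (.e (nat_lit 516117) (nat_lit 1) (.e (nat_lit 164180) (nat_lit 154) (.e (nat_lit 57378) (nat_lit 3) .nil))))))) (.g (nat_lit 1) (.e (nat_lit 274165) (nat_lit 0) .nil) .nil)))))) 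
(.nd (nat_lit 7) (.nd (nat_lit 8) (.nd (nat_lit 9) 
(.lf (nat_lit 541792) (.g (nat_lit 3533) (.e (nat_lit 98333) (nat_lit 18) (.e (nat_lit 164327) (nat_lit 230) (.e (nat_lit 163868) (nat_lit 2) (.e (nat_lit 196654) (nat_lit 11) (.e (nat_lit 16416) (nat_lit 3) (.e (nat_lit 204837) (nat_lit 20) (.e (nat_lit 114719) (nat_lit 23) .nil))))))) (.g (nat_lit 1) (.e (nat_lit 272977) (nat_lit 0) .nil) .nil))) 
(.lf (nat_lit 542304) (.g (nat_lit 2245) (.e (nat_lit 98335) (nat_lit 18) (.e (nat_lit 164332) (nat_lit 230) (.e (nat_lit 163874) (nat_lit 3) (.e (nat_lit 204837) (nat_lit 20) (.e (nat_lit 114717) (nat_lit 23) (.e (nat_lit 98356) (nat_lit 26) (.e (nat_lit 426438) (nat_lit 18) .nil))))))) (.g (nat_lit 1) (.e (nat_lit 273781) (nat_lit 0) .nil) .nil)))) (.nd (nat_lit 9) 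
(.lf (nat_lit 542048) (.g (nat_lit 2351) (.e (nat_lit 98334) (nat_lit 18) (.e (nat_lit 164398) (nat_lit 256) (.e (nat_lit 57378) (nat_lit 3) (.e (nat_lit 98367) (nat_lit 27) (.e (nat_lit 434232) (nat_lit 23) .nil))))) (.g (nat_lit 0) (.e (nat_lit 273432) (nat_lit 0) .nil) .nil))) 
(.lf (nat_lit 542560) (.g (nat_lit 329) (.e (nat_lit 98341) (nat_lit 20) (.e (nat_lit 221215) (nat_lit 23) (.e (nat_lit 204830) (nat_lit 18) .nil))) (.g (nat_lit 0) (.e (nat_lit 274092) (nat_lit 0) .nil) .nil))))) (.nd (nat_lit 8) (.nd (nat_lit 9) 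
(.lf (nat_lit 541920) (.g (nat_lit 2200) (.e (nat_lit 98333) (nat_lit 18) (.e (nat_lit 164403) (nat_lit 256) (.e (nat_lit 57378) (nat_lit 3) (.e (nat_lit 98368) (nat_lit 27) .nil)))) (.g (nat_lit 0) (.e (nat_lit 273157) (nat_lit 0) .nil) .nil))) 
(.lf (nat_lit 542432) (.g (nat_lit 1541) (.e (nat_lit 98339) (nat_lit 19) (.e (nat_lit 213030) (nat_lit 11) (.e (nat_lit 24604) (nat_lit 2) (.e (nat_lit 90176) (nat_lit 15) (.e (nat_lit 196352) (nat_lit 3) .nil))))) (.g (nat_lit 1) (.e (nat_lit 273946) (nat_lit 0) .nil) .nil)))) (.nd (nat_lit 9) 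
(.lf (nat_lit 542176) (.g (nat_lit 3501) (.e (nat_lit 98335) (nat_lit 18) (.e (nat_lit 164327) (nat_lit 230) (.e (nat_lit 163871) (nat_lit 2) (.e (nat_lit 196656) (nat_lit 11) (.e (nat_lit 16416) (nat_lit 3) .nil))))) (.g (nat_lit 0) (.e (nat_lit 273607) (nat_lit 0) .nil) .nil))) 
(.lf (nat_lit 542688) (.g (nat_lit 3725) (.e (nat_lit 98342) (nat_lit 20) (.e (nat_lit 221215) (nat_lit 23) (.e (nat_lit 204830) (nat_lit 18) (.e (nat_lit 57931) (nat_lit 282) (.e (nat_lit 163869) (nat_lit 2) (.e (nat_lit 196663) (nat_lit 13) (.e (nat_lit 65571) (nat_lit 3) .nil))))))) (.g (nat_lit 1) (.e (nat_lit 274234) (nat_lit 0) .nil) .nil)))))))) 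
(.nd (nat_lit 5) (.nd (nat_lit 6) (.nd (nat_lit 7) (.nd (nat_lit 8) (.nd (nat_lit 9) 
(.lf (nat_lit 541712) (.g (nat_lit 3189) (.e (nat_lit 98333) (nat_lit 18) (.e (nat_lit 164325) (nat_lit 230) (.e (nat_lit 163868) (nat_lit 2) (.e (nat_lit 196654) (nat_lit 11) (.e (nat_lit 16416) (nat_lit 3) (.e (nat_lit 204837) (nat_lit 20) (.e (nat_lit 114719) (nat_lit 23) .nil))))))) (.g (nat_lit 1) (.e (nat_lit 272856) (nat_lit 0) .nil) .nil))) 
(.lf (nat_lit 542224) (.g (nat_lit 2139) (.e (nat_lit 98335) (nat_lit 18) (.e (nat_lit 164329) (nat_lit 230) (.e (nat_lit 163902) (nat_lit 12) (.e (nat_lit 426479) (nat_lit 27) (.e (nat_lit 336430) (nat_lit 29) (.e (nat_lit 450304) (nat_lit 3) .nil)))))) (.g (nat_lit 1) (.e (nat_lit 273662) (nat_lit 0) .nil) .nil)))) (.nd (nat_lit 9) 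
(.lf (nat_lit 541968) (.g (nat_lit 4227) (.e (nat_lit 98334) (nat_lit 18) (.e (nat_lit 164330) (nat_lit 230) (.e (nat_lit 163853) (nat_lit 0) (.e (nat_lit 3307) (nat_lit 202) (.e (nat_lit 573489) (nat_lit 14) (.e (nat_lit 73755) (nat_lit 8) (.e (nat_lit 557097) (nat_lit 13) (.e (nat_lit 179968) (nat_lit 18) .nil)))))))) (.g (nat_lit 1) (.e (nat_lit 273259) (nat_lit 0) .nil) .nil))) 
(.lf (nat_lit 542480) (.g (nat_lit 2042) (.e (nat_lit 98340) (nat_lit 20) (.e (nat_lit 221212) (nat_lit 22) (.e (nat_lit 196668) (nat_lit 14) (.e (nat_lit 73746) (nat_lit 3) (.e (nat_lit 516118) (nat_lit 1) .nil))))) (.g (nat_lit 0) (.e (nat_lit 274001) (nat_lit 0) .nil) .nil))))) (.nd (nat_lit 8) (.nd (nat_lit 9) 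
(.lf (nat_lit 541840) (.g (nat_lit 3332) (.e (nat_lit 98333) (nat_lit 18) (.e (nat_lit 164327) (nat_lit 230) (.e (nat_lit 163903) (nat_lit 12) (.e (nat_lit 426566) (nat_lit 34) (.e (nat_lit 393273) (nat_lit 23) (.e (nat_lit 426434) (nat_lit 18) .nil)))))) (.g (nat_lit 1) (.e (nat_lit 273038) (nat_lit 0) .nil) .nil))) 
(.lf (nat_lit 542352) (.g (nat_lit 4056) (.e (nat_lit 98335) (nat_lit 18) (.e (nat_lit 164332) (nat_lit 230) (.e (nat_lit 163905) (nat_lit 12) (.e (nat_lit 426568) (nat_lit 34) (.e (nat_lit 393271) (nat_lit 23) (.e (nat_lit 426436) (nat_lit 18) .nil)))))) (.g (nat_lit 1) (.e (nat_lit 273831) (nat_lit 0) .nil) .nil)))) (.nd (nat_lit 9) 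
(.lf (nat_lit 542096) (.g (nat_lit 1447) (.e (nat_lit 98335) (nat_lit 18) (.e (nat_lit 164183) (nat_lit 154) (.e (nat_lit 57411) (nat_lit 12) (.e (nat_lit 336377) (nat_lit 27) .nil)))) (.g (nat_lit 0) (.e (nat_lit 273494) (nat_lit 0) .nil) .nil))) 
(.lf (nat_lit 542608) (.g (nat_lit 4254) (.e (nat_lit 98342) (nat_lit 20) (.e (nat_lit 221210) (nat_lit 22) (.e (nat_lit 196670) (nat_lit 14) (.e (nat_lit 73746) (nat_lit 3) (.e (nat_lit 516119) (nat_lit 1) (.e (nat_lit 164179) (nat_lit 154) (.e (nat_lit 57379) (nat_lit 3) .nil))))))) (.g (nat_lit 1) (.e (nat_lit 274149) (nat_lit 0) .nil) .nil)))))) 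
(.nd (nat_lit 7) (.nd (nat_lit 8) (.nd (nat_lit 9) 
(.lf (nat_lit 541776) (.g (nat_lit 1659) (.e (nat_lit 98333) (nat_lit 18) (.e (nat_lit 164325) (nat_lit 230) (.e (nat_lit 163941) (nat_lit 19) (.e (nat_lit 483338) (nat_lit 9) .nil)))) (.g (nat_lit 0) (.e (nat_lit 272934) (nat_lit 0) .nil) .nil))) 
(.lf (nat_lit 542288) (.g (nat_lit 996) (.e (nat_lit 98335) (nat_lit 18) (.e (nat_lit 164330) (nat_lit 230) (.e (nat_lit 163943) (nat_lit 19) (.e (nat_lit 483341) (nat_lit 9) .nil)))) (.g (nat_lit 0) (.e (nat_lit 273752) (nat_lit 0) .nil) .nil)))) (.nd (nat_lit 9) 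
(.lf (nat_lit 542032) (.g (nat_lit 1641) (.e (nat_lit 98334) (nat_lit 18) (.e (nat_lit 164332) (nat_lit 230) (.e (nat_lit 163905) (nat_lit 12) (.e (nat_lit 426566) (nat_lit 34) (.e (nat_lit 393270) (nat_lit 23) (.e (nat_lit 426434) (nat_lit 18) .nil)))))) (.g (nat_lit 1) (.e (nat_lit 273396) (nat_lit 0) .nil) .nil))) 
(.lf (nat_lit 542544) (.g (nat_lit 3069) (.e (nat_lit 98341) (nat_lit 20) (.e (nat_lit 221212) (nat_lit 22) (.e (nat_lit 196670) (nat_lit 14) (.e (nat_lit 73746) (nat_lit 3) (.e (nat_lit 516120) (nat_lit 1) (.e (nat_lit 164180) (nat_lit 154) (.e (nat_lit 57378) (nat_lit 3) .nil))))))) (.g (nat_lit 1) (.e (nat_lit 274073) (nat_lit 0) .nil) .nil))))) (.nd (nat_lit 8) (.nd (nat_lit 9) 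
(.lf (nat_lit 541904) (.g (nat_lit 3091) (.e (nat_lit 98333) (nat_lit 18) (.e (nat_lit 164398) (nat_lit 256) (.e (nat_lit 57378) (nat_lit 3) (.e (nat_lit 98366) (nat_lit 27) (.e (nat_lit 434231) (nat_lit 23) (.e (nat_lit 532514) (nat_lit 3) (.e (nat_lit 114717) (nat_lit 23) .nil))))))) (.g (nat_lit 1) (.e (nat_lit 273136) (nat_lit 0) .nil) .nil))) 
(.lf (nat_lit 542416) (.g (nat_lit 1919) (.e (nat_lit 98338) (nat_lit 19) (.e (nat_lit 213032) (nat_lit 11) (.e (nat_lit 24604) (nat_lit 2) (.e (nat_lit 90176) (nat_lit 15) (.e (nat_lit 196352) (nat_lit 3) .nil))))) (.g (nat_lit 1) (.e (nat_lit 273915) (nat_lit 0) .nil) .nil)))) (.nd (nat_lit 9) 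
(.lf (nat_lit 542160) (.g (nat_lit 1824) (.e (nat_lit 98335) (nat_lit 18) (.e (nat_lit 164325) (nat_lit 230) (.e (nat_lit 163944) (nat_lit 19) (.e (nat_lit 483339) (nat_lit 9) (.e (nat_lit 426230) (nat_lit 9) (.e (nat_lit 426435) (nat_lit 18) .nil)))))) (.g (nat_lit 1) (.e (nat_lit 273588) (nat_lit 0) .nil) .nil))) 
(.lf (nat_lit 542672) (.g (nat_lit 1241) (.e (nat_lit 98342) (nat_lit 20) (.e (nat_lit 221215) (nat_lit 23) (.e (nat_lit 204819) (nat_lit 17) (.e (nat_lit 1996) (nat_lit 137) .nil)))) (.g (nat_lit 0) (.e (nat_lit 274215) (nat_lit 0) .nil) .nil))))))) (.nd (nat_lit 6) (.nd (nat_lit 7) (.nd (nat_lit 8) (.nd (nat_lit 9) 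
(.lf (nat_lit 541744) (.g (nat_lit 2991) (.e (nat_lit 98333) (nat_lit 18) (.e (nat_lit 164325) (nat_lit 230) (.e (nat_lit 163903) (nat_lit 12) (.e (nat_lit 426568) (nat_lit 34) (.e (nat_lit 393267) (nat_lit 23) (.e (nat_lit 426434) (nat_lit 18) .nil)))))) (.g (nat_lit 1) (.e (nat_lit 272898) (nat_lit 0) .nil) .nil))) 
(.lf (nat_lit 542256) (.g (nat_lit 1755) (.e (nat_lit 98335) (nat_lit 18) (.e (nat_lit 164330) (nat_lit 230) (.e (nat_lit 163902) (nat_lit 12) (.e (nat_lit 426478) (nat_lit 27) .nil)))) (.g (nat_lit 0) (.e (nat_lit 273710) (nat_lit 0) .nil) .nil)))) (.nd (nat_lit 9) 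
(.lf (nat_lit 542000) (.g (nat_lit 1000) (.e (nat_lit 98334) (nat_lit 18) (.e (nat_lit 164330) (nat_lit 230) (.e (nat_lit 163942) (nat_lit 19) (.e (nat_lit 491264) (nat_lit 11) .nil)))) (.g (nat_lit 0) (.e (nat_lit 273333) (nat_lit 0) .nil) .nil))) 
(.lf (nat_lit 542512) (.g (nat_lit 5871) (.e (nat_lit 98341) (nat_lit 20) (.e (nat_lit 221210) (nat_lit 22) (.e (nat_lit 196668) (nat_lit 14) (.e (nat_lit 73747) (nat_lit 3) (.e (nat_lit 516115) (nat_lit 1) (.e (nat_lit 164179) (nat_lit 154) (.e (nat_lit 57377) (nat_lit 3) .nil))))))) (.g (nat_lit 1) (.e (nat_lit 274041) (nat_lit 0) .nil) .nil))))) (.nd (nat_lit 8) (.nd (nat_lit 9) 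
(.lf (nat_lit 541872) (.g (nat_lit 2309) (.e (nat_lit 98333) (nat_lit 18) (.e (nat_lit 164332) (nat_lit 230) (.e (nat_lit 163869) (nat_lit 2) (.e (nat_lit 196656) (nat_lit 11) .nil)))) (.g (nat_lit 0) (.e (nat_lit 273095) (nat_lit 0) .nil) .nil))) 
(.lf (nat_lit 542384) (.g (nat_lit 1481) (.e (nat_lit 98336) (nat_lit 19) (.e (nat_lit 213032) (nat_lit 11) (.e (nat_lit 24608) (nat_lit 3) (.e (nat_lit 98370) (nat_lit 28) .nil)))) (.g (nat_lit 0) (.e (nat_lit 273879) (nat_lit 0) .nil) .nil)))) (.nd (nat_lit 9) 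
(.lf (nat_lit 542128) (.g (nat_lit 2296) (.e (nat_lit 98335) (nat_lit 18) (.e (nat_lit 164324) (nat_lit 230) (.e (nat_lit 163903) (nat_lit 12) (.e (nat_lit 426479) (nat_lit 27) (.e (nat_lit 336443) (nat_lit 32) (.e (nat_lit 474880) (nat_lit 3) .nil)))))) (.g (nat_lit 1) (.e (nat_lit 273542) (nat_lit 0) .nil) .nil))) 
(.lf (nat_lit 542640) (.g (nat_lit 4693) (.e (nat_lit 98342) (nat_lit 20) (.e (nat_lit 221213) (nat_lit 23) (.e (nat_lit 204829) (nat_lit 18) (.e (nat_lit 57931) (nat_lit 282) (.e (nat_lit 163869) (nat_lit 2) (.e (nat_lit 196666) (nat_lit 13) (.e (nat_lit 65571) (nat_lit 3) .nil))))))) (.g (nat_lit 1) (.e (nat_lit 274181) (nat_lit 0) .nil) .nil)))))) 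
(.nd (nat_lit 7) (.nd (nat_lit 8) (.nd (nat_lit 9) 
(.lf (nat_lit 541808) (.g (nat_lit 4508) (.e (nat_lit 98333) (nat_lit 18) (.e (nat_lit 164327) (nat_lit 230) (.e (nat_lit 163871) (nat_lit 2) (.e (nat_lit 196656) (nat_lit 11) (.e (nat_lit 16416) (nat_lit 3) (.e (nat_lit 204838) (nat_lit 20) (.e (nat_lit 114719) (nat_lit 23) .nil))))))) (.g (nat_lit 1) (.e (nat_lit 272998) (nat_lit 0) .nil) .nil))) 
(.lf (nat_lit 542320) (.g (nat_lit 2189) (.e (nat_lit 98335) (nat_lit 18) (.e (nat_lit 164332) (nat_lit 230) (.e (nat_lit 163902) (nat_lit 12) (.e (nat_lit 426568) (nat_lit 34) (.e (nat_lit 393279) (nat_lit 23) (.e (nat_lit 426433) (nat_lit 18) .nil)))))) (.g (nat_lit 1) (.e (nat_lit 273799) (nat_lit 0) .nil) .nil)))) (.nd (nat_lit 9) 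
(.lf (nat_lit 542064) (.g (nat_lit 2052) (.e (nat_lit 98334) (nat_lit 18) (.e (nat_lit 164403) (nat_lit 256) (.e (nat_lit 57373) (nat_lit 2) (.e (nat_lit 90169) (nat_lit 13) .nil)))) (.g (nat_lit 0) (.e (nat_lit 273449) (nat_lit 0) .nil) .nil))) 
(.lf (nat_lit 542576) (.g (nat_lit 3738) (.e (nat_lit 98341) (nat_lit 20) (.e (nat_lit 221215) (nat_lit 23) (.e (nat_lit 204862) (nat_lit 27) (.e (nat_lit 344117) (nat_lit 21) (.e (nat_lit 516099) (nat_lit 0) (.e (nat_lit 2474) (nat_lit 157) (.e (nat_lit 6398) (nat_lit 339) (.e (nat_lit 57379) (nat_lit 3) .nil)))))))) (.g (nat_lit 1) (.e (nat_lit 274108) (nat_lit 0) .nil) .nil))))) 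
(.nd (nat_lit 8) (.nd (nat_lit 9) 
(.lf (nat_lit 541936) (.g (nat_lit 3679) (.e (nat_lit 98334) (nat_lit 18) (.e (nat_lit 164305) (nat_lit 226) (.e (nat_lit 2612) (nat_lit 163) (.e (nat_lit 163977) (nat_lit 30) (.e (nat_lit 573487) (nat_lit 14) (.e (nat_lit 73753) (nat_lit 8) (.e (nat_lit 557098) (nat_lit 13) (.e (nat_lit 179968) (nat_lit 18) .nil)))))))) (.g (nat_lit 1) (.e (nat_lit 273213) (nat_lit 0) .nil) .nil))) 
(.lf (nat_lit 542448) (.g (nat_lit 1853) (.e (nat_lit 98339) (nat_lit 19) (.e (nat_lit 213032) (nat_lit 11) (.e (nat_lit 24605) (nat_lit 2) (.e (nat_lit 90170) (nat_lit 13) (.e (nat_lit 172095) (nat_lit 9) (.e (nat_lit 433920) (nat_lit 18) .nil)))))) (.g (nat_lit 1) (.e (nat_lit 273969) (nat_lit 0) .nil) .nil)))) (.nd (nat_lit 9) 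
(.lf (nat_lit 542192) (.g (nat_lit 1790) (.e (nat_lit 98335) (nat_lit 18) (.e (nat_lit 164327) (nat_lit 230) (.e (nat_lit 163903) (nat_lit 12) (.e (nat_lit 426479) (nat_lit 27) (.e (nat_lit 336427) (nat_lit 29) .nil))))) (.g (nat_lit 0) (.e (nat_lit 273625) (nat_lit 0) .nil) .nil))) 
(.lf (nat_lit 542704) (.g (nat_lit 4660) (.e (nat_lit 98342) (nat_lit 20) (.e (nat_lit 221215) (nat_lit 23) (.e (nat_lit 204861) (nat_lit 26) (.e (nat_lit 336027) (nat_lit 3) (.e (nat_lit 98334) (nat_lit 18) (.e (nat_lit 164182) (nat_lit 154) (.e (nat_lit 57379) (nat_lit 3) .nil))))))) (.g (nat_lit 1) (.e (nat_lit 274250) (nat_lit 0) .nil) .nil))))))))) 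
(.nd (nat_lit 4) (.nd (nat_lit 5) (.nd (nat_lit 6) (.nd (nat_lit 7) (.nd (nat_lit 8) 
(.nd (nat_lit 9) 
(.lf (nat_lit 541704) (.g (nat_lit 3900) (.e (nat_lit 98333) (nat_lit 18) (.e (nat_lit 164183) (nat_lit 154) (.e (nat_lit 57378) (nat_lit 3) (.e (nat_lit 98342) (nat_lit 20) (.e (nat_lit 221212) (nat_lit 22) (.e (nat_lit 196681) (nat_lit 17) (.e (nat_lit 131096) (nat_lit 3) .nil))))))) (.g (nat_lit 1) (.e (nat_lit 272836) (nat_lit 0) .nil) .nil))) 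
(.lf (nat_lit 542216) (.g (nat_lit 2199) (.e (nat_lit 98335) (nat_lit 18) (.e (nat_lit 164327) (nat_lit 230) (.e (nat_lit 163944) (nat_lit 19) (.e (nat_lit 483341) (nat_lit 9) (.e (nat_lit 426198) (nat_lit 9) (.e (nat_lit 433920) (nat_lit 18) .nil)))))) (.g (nat_lit 1) (.e (nat_lit 273653) (nat_lit 0) .nil) .nil)))) (.nd (nat_lit 9) 
(.lf (nat_lit 541960) (.g (nat_lit 1591) (.e (nat_lit 98334) (nat_lit 18) (.e (nat_lit 164329) (nat_lit 230) (.e (nat_lit 163902) (nat_lit 12) (.e (nat_lit 426568) (nat_lit 34) (.e (nat_lit 401152) (nat_lit 23) .nil))))) (.g (nat_lit 0) (.e (nat_lit 273245) (nat_lit 0) .nil) .nil))) 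
(.lf (nat_lit 542472) (.g (nat_lit 2544) (.e (nat_lit 98340) (nat_lit 20) (.e (nat_lit 221210) (nat_lit 22) (.e (nat_lit 196666) (nat_lit 13) (.e (nat_lit 65569) (nat_lit 3) (.e (nat_lit 98333) (nat_lit 18) (.e (nat_lit 164183) (nat_lit 154) (.e (nat_lit 57378) (nat_lit 3) .nil))))))) (.g (nat_lit 1) (.e (nat_lit 273993) (nat_lit 0) .nil) .nil))))) (.nd (nat_lit 8) (.nd (nat_lit 9) 
(.lf (nat_lit 541832) (.g (nat_lit 2437) (.e (nat_lit 98333) (nat_lit 18) (.e (nat_lit 164327) (nat_lit 230) (.e (nat_lit 163903) (nat_lit 12) (.e (nat_lit 426479) (nat_lit 27) (.e (nat_lit 336430) (nat_lit 29) (.e (nat_lit 450304) (nat_lit 3) .nil)))))) (.g (nat_lit 1) (.e (nat_lit 273029) (nat_lit 0) .nil) .nil))) 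
(.lf (nat_lit 542344) (.g (nat_lit 2744) (.e (nat_lit 98335) (nat_lit 18) (.e (nat_lit 164332) (nat_lit 230) (.e (nat_lit 163905) (nat_lit 12) (.e (nat_lit 426511) (nat_lit 27) (.e (nat_lit 336408) (nat_lit 27) .nil))))) (.g (nat_lit 0) (.e (nat_lit 273823) (nat_lit 0) .nil) .nil)))) (.nd (nat_lit 9) 
(.lf (nat_lit 542088) (.g (nat_lit 4297) (.e (nat_lit 98335) (nat_lit 18) (.e (nat_lit 164183) (nat_lit 154) (.e (nat_lit 57378) (nat_lit 3) (.e (nat_lit 98342) (nat_lit 20) (.e (nat_lit 221215) (nat_lit 23) (.e (nat_lit 204861) (nat_lit 26) (.e (nat_lit 336026) (nat_lit 3) .nil))))))) (.g (nat_lit 1) (.e (nat_lit 273485) (nat_lit 0) .nil) .nil))) 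
(.lf (nat_lit 542600) (.g (nat_lit 3254) (.e (nat_lit 98342) (nat_lit 20) (.e (nat_lit 221210) (nat_lit 22) (.e (nat_lit 196668) (nat_lit 14) (.e (nat_lit 73747) (nat_lit 3) (.e (nat_lit 516117) (nat_lit 1) (.e (nat_lit 164176) (nat_lit 154) (.e (nat_lit 57379) (nat_lit 3) .nil))))))) (.g (nat_lit 1) (.e (nat_lit 274141) (nat_lit 0) .nil) .nil)))))) 
(.nd (nat_lit 7) (.nd (nat_lit 8) (.nd (nat_lit 9) 
(.lf (nat_lit 541768) (.g (nat_lit 2602) (.e (nat_lit 98333) (nat_lit 18) (.e (nat_lit 164325) (nat_lit 230) (.e (nat_lit 163907) (nat_lit 12) (.e (nat_lit 426568) (nat_lit 34) (.e (nat_lit 393279) (nat_lit 23) (.e (nat_lit 426433) (nat_lit 18) .nil)))))) (.g (nat_lit 1) (.e (nat_lit 272923) (nat_lit 0) .nil) .nil))) 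
(.lf (nat_lit 542280) (.g (nat_lit 2168) (.e (nat_lit 98335) (nat_lit 18) (.e (nat_lit 164330) (nat_lit 230) (.e (nat_lit 163941) (nat_lit 19) (.e (nat_lit 483339) (nat_lit 9) (.e (nat_lit 426259) (nat_lit 9) (.e (nat_lit 433920) (nat_lit 18) .nil)))))) (.g (nat_lit 1) (.e (nat_lit 273740) (nat_lit 0) .nil) .nil)))) (.nd (nat_lit 9) 
(.lf (nat_lit 542024) (.g (nat_lit 2016) (.e (nat_lit 98334) (nat_lit 18) (.e (nat_lit 164332) (nat_lit 230) (.e (nat_lit 163905) (nat_lit 12) (.e (nat_lit 426479) (nat_lit 27) (.e (nat_lit 336414) (nat_lit 27) (.e (nat_lit 426228) (nat_lit 9) (.e (nat_lit 426435) (nat_lit 18) .nil))))))) (.g (nat_lit 1) (.e (nat_lit 273387) (nat_lit 0) .nil) .nil))) 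
(.lf (nat_lit 542536) (.g (nat_lit 1823) (.e (nat_lit 98341) (nat_lit 20) (.e (nat_lit 221212) (nat_lit 22) (.e (nat_lit 196668) (nat_lit 14) (.e (nat_lit 73747) (nat_lit 3) (.e (nat_lit 516118) (nat_lit 1) .nil))))) (.g (nat_lit 0) (.e (nat_lit 274065) (nat_lit 0) .nil) .nil))))) (.nd (nat_lit 8) (.nd (nat_lit 9) 
(.lf (nat_lit 541896) (.g (nat_lit 3398) (.e (nat_lit 98333) (nat_lit 18) (.e (nat_lit 164332) (nat_lit 230) (.e (nat_lit 163905) (nat_lit 12) (.e (nat_lit 426566) (nat_lit 34) (.e (nat_lit 393271) (nat_lit 23) (.e (nat_lit 426436) (nat_lit 18) .nil)))))) (.g (nat_lit 1) (.e (nat_lit 273119) (nat_lit 0) .nil) .nil))) 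
(.lf (nat_lit 542408) (.g (nat_lit 1389) (.e (nat_lit 98338) (nat_lit 19) (.e (nat_lit 213030) (nat_lit 11) (.e (nat_lit 24605) (nat_lit 2) (.e (nat_lit 90178) (nat_lit 15) (.e (nat_lit 196352) (nat_lit 3) .nil))))) (.g (nat_lit 1) (.e (nat_lit 273907) (nat_lit 0) .nil) .nil)))) (.nd (nat_lit 9) 
(.lf (nat_lit 542152) (.g (nat_lit 1544) (.e (nat_lit 98335) (nat_lit 18) (.e (nat_lit 164325) (nat_lit 230) (.e (nat_lit 163907) (nat_lit 12) (.e (nat_lit 426494) (nat_lit 27) .nil)))) (.g (nat_lit 0) (.e (nat_lit 273576) (nat_lit 0) .nil) .nil))) 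
(.lf (nat_lit 542664) (.g (nat_lit 3957) (.e (nat_lit 98342) (nat_lit 20) (.e (nat_lit 221214) (nat_lit 23) (.e (nat_lit 204852) (nat_lit 26) (.e (nat_lit 336326) (nat_lit 18) (.e (nat_lit 204830) (nat_lit 18) (.e (nat_lit 57854) (nat_lit 252) (.e (nat_lit 57378) (nat_lit 3) .nil))))))) (.g (nat_lit 1) (.e (nat_lit 274207) (nat_lit 0) .nil) .nil))))))) 
(.nd (nat_lit 6) (.nd (nat_lit 7) (.nd (nat_lit 8) (.nd (nat_lit 9) 
(.lf (nat_lit 541736) (.g (nat_lit 2596) (.e (nat_lit 98333) (nat_lit 18) (.e (nat_lit 164325) (nat_lit 230) (.e (nat_lit 163903) (nat_lit 12) (.e (nat_lit 426479) (nat_lit 27) (.e (nat_lit 336428) (nat_lit 29) (.e (nat_lit 450304) (nat_lit 3) .nil)))))) (.g (nat_lit 1) (.e (nat_lit 272890) (nat_lit 0) .nil) .nil))) 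
(.lf (nat_lit 542248) (.g (nat_lit 4203) (.e (nat_lit 98335) (nat_lit 18) (.e (nat_lit 164330) (nat_lit 230) (.e (nat_lit 163853) (nat_lit 0) (.e (nat_lit 3307) (nat_lit 202) (.e (nat_lit 573489) (nat_lit 14) (.e (nat_lit 73755) (nat_lit 8) (.e (nat_lit 557096) (nat_lit 13) (.e (nat_lit 179968) (nat_lit 18) .nil)))))))) (.g (nat_lit 1) (.e (nat_lit 273695) (nat_lit 0) .nil) .nil)))) 
(.nd (nat_lit 9) 
(.lf (nat_lit 541992) (.g (nat_lit 1220) (.e (nat_lit 98334) (nat_lit 18) (.e (nat_lit 164330) (nat_lit 230) (.e (nat_lit 163905) (nat_lit 12) (.e (nat_lit 426478) (nat_lit 27) .nil)))) (.g (nat_lit 0) (.e (nat_lit 273306) (nat_lit 0) .nil) .nil))) 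
(.lf (nat_lit 542504) (.g (nat_lit 2287) (.e (nat_lit 98341) (nat_lit 20) (.e (nat_lit 221210) (nat_lit 22) (.e (nat_lit 196666) (nat_lit 13) (.e (nat_lit 65569) (nat_lit 3) (.e (nat_lit 98335) (nat_lit 18) .nil))))) (.g (nat_lit 0) (.e (nat_lit 274033) (nat_lit 0) .nil) .nil))))) (.nd (nat_lit 8) (.nd (nat_lit 9) 
(.lf (nat_lit 541864) (.g (nat_lit 700) (.e (nat_lit 98333) (nat_lit 18) (.e (nat_lit 164330) (nat_lit 230) (.e (nat_lit 163902) (nat_lit 12) .nil))) (.g (nat_lit 0) (.e (nat_lit 273076) (nat_lit 0) .nil) .nil))) 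
(.lf (nat_lit 542376) (.g (nat_lit 1343) (.e (nat_lit 98335) (nat_lit 18) (.e (nat_lit 164403) (nat_lit 256) (.e (nat_lit 57378) (nat_lit 3) (.e (nat_lit 98376) (nat_lit 30) .nil)))) (.g (nat_lit 0) (.e (nat_lit 273868) (nat_lit 0) .nil) .nil)))) (.nd (nat_lit 9) 
(.lf (nat_lit 542120) (.g (nat_lit 1595) (.e (nat_lit 98335) (nat_lit 18) (.e (nat_lit 164324) (nat_lit 230) (.e (nat_lit 163902) (nat_lit 12) (.e (nat_lit 426479) (nat_lit 27) .nil)))) (.g (nat_lit 0) (.e (nat_lit 273533) (nat_lit 0) .nil) .nil))) 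
(.lf (nat_lit 542632) (.g (nat_lit 3256) (.e (nat_lit 98342) (nat_lit 20) (.e (nat_lit 221212) (nat_lit 22) (.e (nat_lit 196670) (nat_lit 14) (.e (nat_lit 73746) (nat_lit 3) (.e (nat_lit 516120) (nat_lit 1) (.e (nat_lit 164176) (nat_lit 154) (.e (nat_lit 57379) (nat_lit 3) .nil))))))) (.g (nat_lit 1) (.e (nat_lit 274173) (nat_lit 0) .nil) .nil)))))) 
(.nd (nat_lit 7) (.nd (nat_lit 8) (.nd (nat_lit 9) 
(.lf (nat_lit 541800) (.g (nat_lit 3211) (.e (nat_lit 98333) (nat_lit 18) (.e (nat_lit 164327) (nat_lit 230) (.e (nat_lit 163868) (nat_lit 2) (.e (nat_lit 196656) (nat_lit 11) (.e (nat_lit 16417) (nat_lit 3) .nil))))) (.g (nat_lit 0) (.e (nat_lit 272988) (nat_lit 0) .nil) .nil))) 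
(.lf (nat_lit 542312) (.g (nat_lit 2160) (.e (nat_lit 98335) (nat_lit 18) (.e (nat_lit 164332) (nat_lit 230) (.e (nat_lit 163902) (nat_lit 12) (.e (nat_lit 426479) (nat_lit 27) (.e (nat_lit 336428) (nat_lit 29) (.e (nat_lit 450304) (nat_lit 3) .nil)))))) (.g (nat_lit 1) (.e (nat_lit 273791) (nat_lit 0) .nil) .nil)))) (.nd (nat_lit 9) 
(.lf (nat_lit 542056) (.g (nat_lit 3602) (.e (nat_lit 98334) (nat_lit 18) (.e (nat_lit 164399) (nat_lit 256) (.e (nat_lit 57378) (nat_lit 3) (.e (nat_lit 98366) (nat_lit 27) (.e (nat_lit 434231) (nat_lit 23) (.e (nat_lit 532514) (nat_lit 3) (.e (nat_lit 114717) (nat_lit 23) .nil))))))) (.g (nat_lit 1) (.e (nat_lit 273441) (nat_lit 0) .nil) .nil))) 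
(.lf (nat_lit 542568) (.g (nat_lit 4641) (.e (nat_lit 98341) (nat_lit 20) (.e (nat_lit 221215) (nat_lit 23) (.e (nat_lit 204861) (nat_lit 26) (.e (nat_lit 336021) (nat_lit 3) (.e (nat_lit 98333) (nat_lit 18) (.e (nat_lit 164183) (nat_lit 154) (.e (nat_lit 57378) (nat_lit 3) .nil))))))) (.g (nat_lit 1) (.e (nat_lit 274100) (nat_lit 0) .nil) .nil))))) (.nd (nat_lit 8) (.nd (nat_lit 9) 
(.lf (nat_lit 541928) (.g (nat_lit 3217) (.e (nat_lit 98334) (nat_lit 18) (.e (nat_lit 164182) (nat_lit 154) (.e (nat_lit 57379) (nat_lit 3) (.e (nat_lit 98341) (nat_lit 20) (.e (nat_lit 221215) (nat_lit 23) (.e (nat_lit 204855) (nat_lit 26) (.e (nat_lit 336020) (nat_lit 3) .nil))))))) (.g (nat_lit 1) (.e (nat_lit 273178) (nat_lit 0) .nil) .nil))) 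
(.lf (nat_lit 542440) (.g (nat_lit 1127) (.e (nat_lit 98339) (nat_lit 19) (.e (nat_lit 213030) (nat_lit 11) (.e (nat_lit 24609) (nat_lit 3) (.e (nat_lit 98369) (nat_lit 28) (.e (nat_lit 450304) (nat_lit 3) .nil))))) (.g (nat_lit 1) (.e (nat_lit 273958) (nat_lit 0) .nil) .nil)))) (.nd (nat_lit 9) 
(.lf (nat_lit 542184) (.g (nat_lit 2047) (.e (nat_lit 98335) (nat_lit 18) (.e (nat_lit 164327) (nat_lit 230) (.e (nat_lit 163875) (nat_lit 3) (.e (nat_lit 204838) (nat_lit 20) (.e (nat_lit 114716) (nat_lit 22) .nil))))) (.g (nat_lit 0) (.e (nat_lit 273617) (nat_lit 0) .nil) .nil))) 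
(.lf (nat_lit 542696) (.g (nat_lit 1526) (.e (nat_lit 98342) (nat_lit 20) (.e (nat_lit 221215) (nat_lit 23) (.e (nat_lit 204861) (nat_lit 26) (.e (nat_lit 336020) (nat_lit 3) .nil)))) (.g (nat_lit 0) (.e (nat_lit 274242) (nat_lit 0) .nil) .nil)))))))) (.nd (nat_lit 5) (.nd (nat_lit 6) (.nd (nat_lit 7) (.nd (nat_lit 8) (.nd (nat_lit 9) 
(.lf (nat_lit 541720) (.g (nat_lit 3227) (.e (nat_lit 98333) (nat_lit 18) (.e (nat_lit 164325) (nat_lit 230) (.e (nat_lit 163871) (nat_lit 2) (.e (nat_lit 196654) (nat_lit 11) (.e (nat_lit 16416) (nat_lit 3) (.e (nat_lit 204837) (nat_lit 20) (.e (nat_lit 114718) (nat_lit 23) .nil))))))) (.g (nat_lit 1) (.e (nat_lit 272865) (nat_lit 0) .nil) .nil))) 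
(.lf (nat_lit 542232) (.g (nat_lit 2960) (.e (nat_lit 98335) (nat_lit 18) (.e (nat_lit 164329) (nat_lit 230) (.e (nat_lit 163942) (nat_lit 19) (.e (nat_lit 483341) (nat_lit 9) (.e (nat_lit 426198) (nat_lit 9) (.e (nat_lit 426436) (nat_lit 18) .nil)))))) (.g (nat_lit 1) (.e (nat_lit 273675) (nat_lit 0) .nil) .nil)))) (.nd (nat_lit 9) 
(.lf (nat_lit 541976) (.g (nat_lit 3980) (.e (nat_lit 98334) (nat_lit 18) (.e (nat_lit 164330) (nat_lit 230) (.e (nat_lit 163869) (nat_lit 2) (.e (nat_lit 196656) (nat_lit 11) (.e (nat_lit 16416) (nat_lit 3) (.e (nat_lit 204838) (nat_lit 20) (.e (nat_lit 114717) (nat_lit 23) .nil))))))) (.g (nat_lit 1) (.e (nat_lit 273281) (nat_lit 0) .nil) .nil))) 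
(.lf (nat_lit 542488) (.g (nat_lit 1652) (.e (nat_lit 98340) (nat_lit 20) (.e (nat_lit 221214) (nat_lit 23) (.e (nat_lit 204861) (nat_lit 26) (.e (nat_lit 336021) (nat_lit 3) (.e (nat_lit 98333) (nat_lit 18) .nil))))) (.g (nat_lit 0) (.e (nat_lit 274009) (nat_lit 0) .nil) .nil))))) (.nd (nat_lit 8) (.nd (nat_lit 9) 
(.lf (nat_lit 541848) (.g (nat_lit 1817) (.e (nat_lit 98333) (nat_lit 18) (.e (nat_lit 164327) (nat_lit 230) (.e (nat_lit 163907) (nat_lit 12) (.e (nat_lit 426566) (nat_lit 34) (.e (nat_lit 393270) (nat_lit 23) (.e (nat_lit 426434) (nat_lit 18) .nil)))))) (.g (nat_lit 1) (.e (nat_lit 273046) (nat_lit 0) .nil) .nil))) 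
(.lf (nat_lit 542360) (.g (nat_lit 2501) (.e (nat_lit 98335) (nat_lit 18) (.e (nat_lit 164332) (nat_lit 230) (.e (nat_lit 163941) (nat_lit 19) (.e (nat_lit 483341) (nat_lit 9) (.e (nat_lit 433920) (nat_lit 9) .nil))))) (.g (nat_lit 0) (.e (nat_lit 273845) (nat_lit 0) .nil) .nil)))) (.nd (nat_lit 9) 
(.lf (nat_lit 542104) (.g (nat_lit 5779) (.e (nat_lit 98335) (nat_lit 18) (.e (nat_lit 164305) (nat_lit 226) (.e (nat_lit 2612) (nat_lit 163) (.e (nat_lit 163978) (nat_lit 30) (.e (nat_lit 573489) (nat_lit 14) (.e (nat_lit 73755) (nat_lit 8) (.e (nat_lit 557097) (nat_lit 13) (.e (nat_lit 179968) (nat_lit 18) .nil)))))))) (.g (nat_lit 1) (.e (nat_lit 273514) (nat_lit 0) .nil) .nil))) 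
(.lf (nat_lit 542616) (.g (nat_lit 2285) (.e (nat_lit 98342) (nat_lit 20) (.e (nat_lit 221212) (nat_lit 22) (.e (nat_lit 196664) (nat_lit 13) (.e (nat_lit 65571) (nat_lit 3) (.e (nat_lit 98333) (nat_lit 18) (.e (nat_lit 164182) (nat_lit 154) (.e (nat_lit 57379) (nat_lit 3) .nil))))))) (.g (nat_lit 1) (.e (nat_lit 274157) (nat_lit 0) .nil) .nil)))))) 
(.nd (nat_lit 7) (.nd (nat_lit 8) (.nd (nat_lit 9) 
(.lf (nat_lit 541784) (.g (nat_lit 3155) (.e (nat_lit 98333) (nat_lit 18) (.e (nat_lit 164325) (nat_lit 230) (.e (nat_lit 163944) (nat_lit 19) (.e (nat_lit 483333) (nat_lit 0) (.e (nat_lit 6988) (nat_lit 377) (.e (nat_lit 977) (nat_lit 81) (.e (nat_lit 5629) (nat_lit 312) (.e (nat_lit 112) (nat_lit 3) .nil)))))))) (.g (nat_lit 1) (.e (nat_lit 272962) (nat_lit 0) .nil) .nil))) 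
(.lf (nat_lit 542296) (.g (nat_lit 2018) (.e (nat_lit 98335) (nat_lit 18) (.e (nat_lit 164332) (nat_lit 230) (.e (nat_lit 163867) (nat_lit 2) (.e (nat_lit 196654) (nat_lit 11) .nil)))) (.g (nat_lit 0) (.e (nat_lit 273772) (nat_lit 0) .nil) .nil)))) (.nd (nat_lit 9) 
(.lf (nat_lit 542040) (.g (nat_lit 2470) (.e (nat_lit 98334) (nat_lit 18) (.e (nat_lit 164332) (nat_lit 230) (.e (nat_lit 163941) (nat_lit 19) (.e (nat_lit 483341) (nat_lit 9) (.e (nat_lit 433920) (nat_lit 9) .nil))))) (.g (nat_lit 0) (.e (nat_lit 273412) (nat_lit 0) .nil) .nil))) 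
(.lf (nat_lit 542552) (.g (nat_lit 414) (.e (nat_lit 98341) (nat_lit 20) (.e (nat_lit 221214) (nat_lit 23) (.e (nat_lit 204830) (nat_lit 18) .nil))) (.g (nat_lit 0) (.e (nat_lit 274082) (nat_lit 0) .nil) .nil))))) (.nd (nat_lit 8) (.nd (nat_lit 9) 
(.lf (nat_lit 541912) (.g (nat_lit 2574) (.e (nat_lit 98333) (nat_lit 18) (.e (nat_lit 164399) (nat_lit 256) (.e (nat_lit 57378) (nat_lit 3) (.e (nat_lit 98367) (nat_lit 27) (.e (nat_lit 434232) (nat_lit 23) .nil))))) (.g (nat_lit 0) (.e (nat_lit 273145) (nat_lit 0) .nil) .nil))) 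
(.lf (nat_lit 542424) (.g (nat_lit 1886) (.e (nat_lit 98338) (nat_lit 19) (.e (nat_lit 213032) (nat_lit 11) (.e (nat_lit 24608) (nat_lit 3) (.e (nat_lit 98371) (nat_lit 28) .nil)))) (.g (nat_lit 0) (.e (nat_lit 273924) (nat_lit 0) .nil) .nil)))) (.nd (nat_lit 9) 
(.lf (nat_lit 542168) (.g (nat_lit 2269) (.e (nat_lit 98335) (nat_lit 18) (.e (nat_lit 164326) (nat_lit 230) (.e (nat_lit 163903) (nat_lit 12) (.e (nat_lit 426479) (nat_lit 27) (.e (nat_lit 336430) (nat_lit 29) (.e (nat_lit 450304) (nat_lit 3) .nil)))))) (.g (nat_lit 1) (.e (nat_lit 273597) (nat_lit 0) .nil) .nil))) 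
(.lf (nat_lit 542680) (.g (nat_lit 3791) (.e (nat_lit 98342) (nat_lit 20) (.e (nat_lit 221215) (nat_lit 23) (.e (nat_lit 204829) (nat_lit 18) (.e (nat_lit 57931) (nat_lit 282) (.e (nat_lit 163874) (nat_lit 3) (.e (nat_lit 204851) (nat_lit 26) (.e (nat_lit 336019) (nat_lit 3) .nil))))))) (.g (nat_lit 1) (.e (nat_lit 274223) (nat_lit 0) .nil) .nil))))))) 
(.nd (nat_lit 6) (.nd (nat_lit 7) (.nd (nat_lit 8) (.nd (nat_lit 9) 
(.lf (nat_lit 541752) (.g (nat_lit 1944) (.e (nat_lit 98333) (nat_lit 18) (.e (nat_lit 164325) (nat_lit 230) (.e (nat_lit 163907) (nat_lit 12) (.e (nat_lit 426479) (nat_lit 27) (.e (nat_lit 336427) (nat_lit 29) (.e (nat_lit 450304) (nat_lit 3) .nil)))))) (.g (nat_lit 1) (.e (nat_lit 272907) (nat_lit 0) .nil) .nil))) 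
(.lf (nat_lit 542264) (.g (nat_lit 2830) (.e (nat_lit 98335) (nat_lit 18) (.e (nat_lit 164330) (nat_lit 230) (.e (nat_lit 163902) (nat_lit 12) (.e (nat_lit 426568) (nat_lit 34) (.e (nat_lit 393270) (nat_lit 23) (.e (nat_lit 426436) (nat_lit 18) .nil)))))) (.g (nat_lit 1) (.e (nat_lit 273718) (nat_lit 0) .nil) .nil)))) (.nd (nat_lit 9) 
(.lf (nat_lit 542008) (.g (nat_lit 4244) (.e (nat_lit 98334) (nat_lit 18) (.e (nat_lit 164332) (nat_lit 230) (.e (nat_lit 163874) (nat_lit 3) (.e (nat_lit 204837) (nat_lit 20) (.e (nat_lit 114719) (nat_lit 23) (.e (nat_lit 98356) (nat_lit 26) (.e (nat_lit 426438) (nat_lit 18) .nil))))))) (.g (nat_lit 1) (.e (nat_lit 273371) (nat_lit 0) .nil) .nil))) 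
(.lf (nat_lit 542520) (.g (nat_lit 5712) (.e (nat_lit 98341) (nat_lit 20) (.e (nat_lit 221210) (nat_lit 22) (.e (nat_lit 196670) (nat_lit 14) (.e (nat_lit 73746) (nat_lit 3) (.e (nat_lit 516115) (nat_lit 1) (.e (nat_lit 164179) (nat_lit 154) (.e (nat_lit 57377) (nat_lit 3) .nil))))))) (.g (nat_lit 1) (.e (nat_lit 274049) (nat_lit 0) .nil) .nil))))) (.nd (nat_lit 8) (.nd (nat_lit 9) 
(.lf (nat_lit 541880) (.g (nat_lit 1216) (.e (nat_lit 98333) (nat_lit 18) (.e (nat_lit 164332) (nat_lit 230) (.e (nat_lit 163902) (nat_lit 12) (.e (nat_lit 426481) (nat_lit 27) .nil)))) (.g (nat_lit 0) (.e (nat_lit 273103) (nat_lit 0) .nil) .nil))) 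
(.lf (nat_lit 542392) (.g (nat_lit 2738) (.e (nat_lit 98337) (nat_lit 19) (.e (nat_lit 213032) (nat_lit 11) (.e (nat_lit 24607) (nat_lit 3) (.e (nat_lit 98365) (nat_lit 26) (.e (nat_lit 426187) (nat_lit 9) (.e (nat_lit 426438) (nat_lit 18) .nil)))))) (.g (nat_lit 1) (.e (nat_lit 273887) (nat_lit 0) .nil) .nil)))) (.nd (nat_lit 9) 
(.lf (nat_lit 542136) (.g (nat_lit 931) (.e (nat_lit 98335) (nat_lit 18) (.e (nat_lit 164324) (nat_lit 230) (.e (nat_lit 163941) (nat_lit 19) (.e (nat_lit 483341) (nat_lit 9) .nil)))) (.g (nat_lit 0) (.e (nat_lit 273552) (nat_lit 0) .nil) .nil))) 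
(.lf (nat_lit 542648) (.g (nat_lit 3923) (.e (nat_lit 98342) (nat_lit 20) (.e (nat_lit 221214) (nat_lit 23) (.e (nat_lit 204829) (nat_lit 18) (.e (nat_lit 57931) (nat_lit 282) (.e (nat_lit 163869) (nat_lit 2) (.e (nat_lit 196664) (nat_lit 13) (.e (nat_lit 65571) (nat_lit 3) .nil))))))) (.g (nat_lit 1) (.e (nat_lit 274189) (nat_lit 0) .nil) .nil)))))) 
(.nd (nat_lit 7) (.nd (nat_lit 8) (.nd (nat_lit 9) 
(.lf (nat_lit 541816) (.g (nat_lit 1535) (.e (nat_lit 98333) (nat_lit 18) (.e (nat_lit 164327) (nat_lit 230) (.e (nat_lit 163875) (nat_lit 3) (.e (nat_lit 204809) (nat_lit 9) .nil)))) (.g (nat_lit 0) (.e (nat_lit 273010) (nat_lit 0) .nil) .nil))) 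
(.lf (nat_lit 542328) (.g (nat_lit 2895) (.e (nat_lit 98335) (nat_lit 18) (.e (nat_lit 164332) (nat_lit 230) (.e (nat_lit 163905) (nat_lit 12) (.e (nat_lit 426482) (nat_lit 27) (.e (nat_lit 336385) (nat_lit 27) .nil))))) (.g (nat_lit 0) (.e (nat_lit 273807) (nat_lit 0) .nil) .nil)))) (.nd (nat_lit 9) 
(.lf (nat_lit 542072) (.g (nat_lit 2980) (.e (nat_lit 98335) (nat_lit 18) (.e (nat_lit 164179) (nat_lit 154) (.e (nat_lit 57377) (nat_lit 3) (.e (nat_lit 98342) (nat_lit 20) (.e (nat_lit 221212) (nat_lit 22) (.e (nat_lit 196681) (nat_lit 17) (.e (nat_lit 131098) (nat_lit 3) .nil))))))) (.g (nat_lit 1) (.e (nat_lit 273464) (nat_lit 0) .nil) .nil))) 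
(.lf (nat_lit 542584) (.g (nat_lit 3488) (.e (nat_lit 98342) (nat_lit 20) (.e (nat_lit 221210) (nat_lit 22) (.e (nat_lit 196666) (nat_lit 13) (.e (nat_lit 65569) (nat_lit 3) (.e (nat_lit 98333) (nat_lit 18) (.e (nat_lit 164183) (nat_lit 154) (.e (nat_lit 57378) (nat_lit 3) .nil))))))) (.g (nat_lit 1) (.e (nat_lit 274125) (nat_lit 0) .nil) .nil))))) (.nd (nat_lit 8) (.nd (nat_lit 9) 
(.lf (nat_lit 541944) (.g (nat_lit 4161) (.e (nat_lit 98334) (nat_lit 18) (.e (nat_lit 164305) (nat_lit 226) (.e (nat_lit 2612) (nat_lit 163) (.e (nat_lit 163979) (nat_lit 30) (.e (nat_lit 573487) (nat_lit 14) (.e (nat_lit 73753) (nat_lit 8) (.e (nat_lit 557096) (nat_lit 13) (.e (nat_lit 179968) (nat_lit 18) .nil)))))))) (.g (nat_lit 1) (.e (nat_lit 273221) (nat_lit 0) .nil) .nil))) 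
(.lf (nat_lit 542456) (.g (nat_lit 1655) (.e (nat_lit 98339) (nat_lit 19) (.e (nat_lit 213032) (nat_lit 11) (.e (nat_lit 24608) (nat_lit 3) (.e (nat_lit 98371) (nat_lit 28) .nil)))) (.g (nat_lit 0) (.e (nat_lit 273977) (nat_lit 0) .nil) .nil)))) (.nd (nat_lit 9) 
(.lf (nat_lit 542200) (.g (nat_lit 1905) (.e (nat_lit 98335) (nat_lit 18) (.e (nat_lit 164327) (nat_lit 230) (.e (nat_lit 163903) (nat_lit 12) (.e (nat_lit 426507) (nat_lit 27) (.e (nat_lit 336408) (nat_lit 27) .nil))))) (.g (nat_lit 0) (.e (nat_lit 273633) (nat_lit 0) .nil) .nil))) 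
(.lf (nat_lit 542712) (.g (nat_lit 2129) (.e (nat_lit 98349) (nat_lit 24) (.e (nat_lit 409602) (nat_lit 0) (.e (nat_lit 5626) (nat_lit 312) (.e (nat_lit 2685) (nat_lit 168) .nil)))) (.g (nat_lit 0) (.e (nat_lit 274342) (nat_lit 0) .nil) .nil)))))))))) (.nd (nat_lit 3) (.nd (nat_lit 4) (.nd (nat_lit 5) (.nd (nat_lit 6) (.nd (nat_lit 7) (.nd (nat_lit 8) (.nd (nat_lit 9) 
(.lf (nat_lit 541700) (.g (nat_lit 1884) (.e (nat_lit 98333) (nat_lit 18) (.e (nat_lit 164182) (nat_lit 154) (.e (nat_lit 57411) (nat_lit 12) (.e (nat_lit 336454) (nat_lit 34) (.e (nat_lit 483390) (nat_lit 23) .nil))))) (.g (nat_lit 0) (.e (nat_lit 272817) (nat_lit 0) .nil) .nil))) 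
(.lf (nat_lit 542212) (.g (nat_lit 1440) (.e (nat_lit 98335) (nat_lit 18) (.e (nat_lit 164327) (nat_lit 230) (.e (nat_lit 163944) (nat_lit 19) (.e (nat_lit 483338) (nat_lit 9) .nil)))) (.g (nat_lit 0) (.e (nat_lit 273649) (nat_lit 0) .nil) .nil)))) (.nd (nat_lit 9) 
(.lf (nat_lit 541956) (.g (nat_lit 2081) (.e (nat_lit 98334) (nat_lit 18) (.e (nat_lit 164329) (nat_lit 230) (.e (nat_lit 163902) (nat_lit 12) (.e (nat_lit 426479) (nat_lit 27) (.e (nat_lit 336443) (nat_lit 32) (.e (nat_lit 474880) (nat_lit 3) .nil)))))) (.g (nat_lit 1) (.e (nat_lit 273241) (nat_lit 0) .nil) .nil))) 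
(.lf (nat_lit 542468) (.g (nat_lit 1756) (.e (nat_lit 106240) (nat_lit 19) (.e (nat_lit 213032) (nat_lit 11) (.e (nat_lit 24608) (nat_lit 3) (.e (nat_lit 98370) (nat_lit 28) (.e (nat_lit 450304) (nat_lit 3) .nil))))) (.g (nat_lit 0) (.e (nat_lit 273989) (nat_lit 0) .nil) .nil))))) (.nd (nat_lit 8) (.nd (nat_lit 9) 
(.lf (nat_lit 541828) (.g (nat_lit 3120) (.e (nat_lit 98333) (nat_lit 18) (.e (nat_lit 164327) (nat_lit 230) (.e (nat_lit 163903) (nat_lit 12) (.e (nat_lit 426478) (nat_lit 27) (.e (nat_lit 336426) (nat_lit 29) (.e (nat_lit 450304) (nat_lit 3) .nil)))))) (.g (nat_lit 1) (.e (nat_lit 273025) (nat_lit 0) .nil) .nil))) 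
(.lf (nat_lit 542340) (.g (nat_lit 2699) (.e (nat_lit 98335) (nat_lit 18) (.e (nat_lit 164332) (nat_lit 230) (.e (nat_lit 163905) (nat_lit 12) (.e (nat_lit 426504) (nat_lit 27) (.e (nat_lit 336408) (nat_lit 27) .nil))))) (.g (nat_lit 0) (.e (nat_lit 273819) (nat_lit 0) .nil) .nil)))) (.nd (nat_lit 9) 
(.lf (nat_lit 542084) (.g (nat_lit 2816) (.e (nat_lit 98335) (nat_lit 18) (.e (nat_lit 164183) (nat_lit 154) (.e (nat_lit 57378) (nat_lit 3) (.e (nat_lit 98341) (nat_lit 20) (.e (nat_lit 221212) (nat_lit 22) (.e (nat_lit 196681) (nat_lit 17) (.e (nat_lit 131098) (nat_lit 3) .nil))))))) (.g (nat_lit 1) (.e (nat_lit 273481) (nat_lit 0) .nil) .nil))) 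
(.lf (nat_lit 542596) (.g (nat_lit 4897) (.e (nat_lit 98342) (nat_lit 20) (.e (nat_lit 221210) (nat_lit 22) (.e (nat_lit 196668) (nat_lit 14) (.e (nat_lit 73747) (nat_lit 3) (.e (nat_lit 516115) (nat_lit 1) (.e (nat_lit 164177) (nat_lit 154) (.e (nat_lit 57379) (nat_lit 3) .nil))))))) (.g (nat_lit 1) (.e (nat_lit 274137) (nat_lit 0) .nil) .nil)))))) 
(.nd (nat_lit 7) (.nd (nat_lit 8) (.nd (nat_lit 9) 
(.lf (nat_lit 541764) (.g (nat_lit 2963) (.e (nat_lit 98333) (nat_lit 18) (.e (nat_lit 164325) (nat_lit 230) (.e (nat_lit 163907) (nat_lit 12) (.e (nat_lit 426568) (nat_lit 34) (.e (nat_lit 393234) (nat_lit 17) (.e (nat_lit 7310) (nat_lit 388) (.e (nat_lit 112) (nat_lit 3) .nil))))))) (.g (nat_lit 1) (.e (nat_lit 272919) (nat_lit 0) .nil) .nil))) 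
(.lf (nat_lit 542276) (.g (nat_lit 2059) (.e (nat_lit 98335) (nat_lit 18) (.e (nat_lit 164330) (nat_lit 230) (.e (nat_lit 163941) (nat_lit 19) (.e (nat_lit 483333) (nat_lit 0) .nil)))) (.g (nat_lit 0) (.e (nat_lit 273736) (nat_lit 0) .nil) .nil)))) (.nd (nat_lit 9) 
(.lf (nat_lit 542020) (.g (nat_lit 3340) (.e (nat_lit 98334) (nat_lit 18) (.e (nat_lit 164332) (nat_lit 230) (.e (nat_lit 163902) (nat_lit 12) (.e (nat_lit 426566) (nat_lit 34) (.e (nat_lit 393271) (nat_lit 23) (.e (nat_lit 426438) (nat_lit 18) .nil)))))) (.g (nat_lit 1) (.e (nat_lit 273383) (nat_lit 0) .nil) .nil))) 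
(.lf (nat_lit 542532) (.g (nat_lit 3761) (.e (nat_lit 98341) (nat_lit 20) (.e (nat_lit 221212) (nat_lit 22) (.e (nat_lit 196668) (nat_lit 14) (.e (nat_lit 73746) (nat_lit 3) (.e (nat_lit 516119) (nat_lit 1) (.e (nat_lit 164179) (nat_lit 154) (.e (nat_lit 57377) (nat_lit 3) .nil))))))) (.g (nat_lit 1) (.e (nat_lit 274061) (nat_lit 0) .nil) .nil))))) (.nd (nat_lit 8) (.nd (nat_lit 9) 
(.lf (nat_lit 541892) (.g (nat_lit 2150) (.e (nat_lit 98333) (nat_lit 18) (.e (nat_lit 164332) (nat_lit 230) (.e (nat_lit 163905) (nat_lit 12) (.e (nat_lit 426479) (nat_lit 27) (.e (nat_lit 336430) (nat_lit 29) (.e (nat_lit 450304) (nat_lit 3) .nil)))))) (.g (nat_lit 1) (.e (nat_lit 273115) (nat_lit 0) .nil) .nil))) 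
(.lf (nat_lit 542404) (.g (nat_lit 1791) (.e (nat_lit 98337) (nat_lit 19) (.e (nat_lit 213032) (nat_lit 11) (.e (nat_lit 24609) (nat_lit 3) (.e (nat_lit 98365) (nat_lit 26) (.e (nat_lit 426188) (nat_lit 9) .nil))))) (.g (nat_lit 0) (.e (nat_lit 273900) (nat_lit 0) .nil) .nil)))) (.nd (nat_lit 9) 
(.lf (nat_lit 542148) (.g (nat_lit 3862) (.e (nat_lit 98335) (nat_lit 18) (.e (nat_lit 164325) (nat_lit 230) (.e (nat_lit 163903) (nat_lit 12) (.e (nat_lit 426566) (nat_lit 34) (.e (nat_lit 393273) (nat_lit 23) (.e (nat_lit 426438) (nat_lit 18) .nil)))))) (.g (nat_lit 1) (.e (nat_lit 273572) (nat_lit 0) .nil) .nil))) 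
(.lf (nat_lit 542660) (.g (nat_lit 4040) (.e (nat_lit 98342) (nat_lit 20) (.e (nat_lit 221214) (nat_lit 23) (.e (nat_lit 204830) (nat_lit 18) (.e (nat_lit 57931) (nat_lit 282) (.e (nat_lit 163869) (nat_lit 2) (.e (nat_lit 196663) (nat_lit 13) (.e (nat_lit 65571) (nat_lit 3) .nil))))))) (.g (nat_lit 1) (.e (nat_lit 274203) (nat_lit 0) .nil) .nil))))))) 
(.nd (nat_lit 6) (.nd (nat_lit 7) (.nd (nat_lit 8) (.nd (nat_lit 9) 
(.lf (nat_lit 541732) (.g (nat_lit 2678) (.e (nat_lit 98333) (nat_lit 18) (.e (nat_lit 164325) (nat_lit 230) (.e (nat_lit 163903) (nat_lit 12) (.e (nat_lit 426479) (nat_lit 27) (.e (nat_lit 336414) (nat_lit 27) (.e (nat_lit 426228) (nat_lit 9) (.e (nat_lit 426435) (nat_lit 18) .nil))))))) (.g (nat_lit 1) (.e (nat_lit 272886) (nat_lit 0) .nil) .nil))) 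
(.lf (nat_lit 542244) (.g (nat_lit 4629) (.e (nat_lit 98335) (nat_lit 18) (.e (nat_lit 164330) (nat_lit 230) (.e (nat_lit 163851) (nat_lit 0) (.e (nat_lit 3307) (nat_lit 202) (.e (nat_lit 573489) (nat_lit 14) (.e (nat_lit 73755) (nat_lit 8) (.e (nat_lit 557097) (nat_lit 13) (.e (nat_lit 179968) (nat_lit 18) .nil)))))))) (.g (nat_lit 1) (.e (nat_lit 273691) (nat_lit 0) .nil) .nil)))) 
(.nd (nat_lit 9) 
(.lf (nat_lit 541988) (.g (nat_lit 3551) (.e (nat_lit 98334) (nat_lit 18) (.e (nat_lit 164330) (nat_lit 230) (.e (nat_lit 163902) (nat_lit 12) (.e (nat_lit 426568) (nat_lit 34) (.e (nat_lit 393268) (nat_lit 23) (.e (nat_lit 426438) (nat_lit 18) .nil)))))) (.g (nat_lit 1) (.e (nat_lit 273302) (nat_lit 0) .nil) .nil))) 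
(.lf (nat_lit 542500) (.g (nat_lit 1023) (.e (nat_lit 98341) (nat_lit 20) (.e (nat_lit 229120) (nat_lit 12) (.e (nat_lit 344107) (nat_lit 19) (.e (nat_lit 499811) (nat_lit 5) (.e (nat_lit 2988) (nat_lit 186) (.e (nat_lit 450304) (nat_lit 3) .nil)))))) (.g (nat_lit 1) (.e (nat_lit 274027) (nat_lit 0) .nil) .nil))))) (.nd (nat_lit 8) (.nd (nat_lit 9) 
(.lf (nat_lit 541860) (.g (nat_lit 1665) (.e (nat_lit 98333) (nat_lit 18) (.e (nat_lit 164327) (nat_lit 230) (.e (nat_lit 163944) (nat_lit 19) (.e (nat_lit 483339) (nat_lit 9) (.e (nat_lit 426259) (nat_lit 9) (.e (nat_lit 433920) (nat_lit 18) .nil)))))) (.g (nat_lit 1) (.e (nat_lit 273067) (nat_lit 0) .nil) .nil))) 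
(.lf (nat_lit 542372) (.g (nat_lit 2816) (.e (nat_lit 98335) (nat_lit 18) (.e (nat_lit 164403) (nat_lit 256) (.e (nat_lit 57378) (nat_lit 3) (.e (nat_lit 98367) (nat_lit 27) (.e (nat_lit 434232) (nat_lit 23) .nil))))) (.g (nat_lit 0) (.e (nat_lit 273864) (nat_lit 0) .nil) .nil)))) (.nd (nat_lit 9) 
(.lf (nat_lit 542116) (.g (nat_lit 3140) (.e (nat_lit 98335) (nat_lit 18) (.e (nat_lit 164322) (nat_lit 230) (.e (nat_lit 163902) (nat_lit 12) (.e (nat_lit 426568) (nat_lit 34) (.e (nat_lit 393271) (nat_lit 23) (.e (nat_lit 426438) (nat_lit 18) .nil)))))) (.g (nat_lit 1) (.e (nat_lit 273529) (nat_lit 0) .nil) .nil))) 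
(.lf (nat_lit 542628) (.g (nat_lit 3418) (.e (nat_lit 98342) (nat_lit 20) (.e (nat_lit 221212) (nat_lit 22) (.e (nat_lit 196668) (nat_lit 14) (.e (nat_lit 73747) (nat_lit 3) (.e (nat_lit 516119) (nat_lit 1) (.e (nat_lit 164183) (nat_lit 154) (.e (nat_lit 57378) (nat_lit 3) .nil))))))) (.g (nat_lit 1) (.e (nat_lit 274169) (nat_lit 0) .nil) .nil)))))) 
(.nd (nat_lit 7) (.nd (nat_lit 8) (.nd (nat_lit 9) 
(.lf (nat_lit 541796) (.g (nat_lit 2869) (.e (nat_lit 98333) (nat_lit 18) (.e (nat_lit 164327) (nat_lit 230) (.e (nat_lit 163868) (nat_lit 2) (.e (nat_lit 196656) (nat_lit 11) (.e (nat_lit 16416) (nat_lit 3) (.e (nat_lit 204833) (nat_lit 19) (.e (nat_lit 106523) (nat_lit 9) (.e (nat_lit 1254) (nat_lit 92) .nil)))))))) (.g (nat_lit 1) (.e (nat_lit 272984) (nat_lit 0) .nil) .nil))) 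
(.lf (nat_lit 542308) (.g (nat_lit 833) (.e (nat_lit 98335) (nat_lit 18) (.e (nat_lit 164332) (nat_lit 230) (.e (nat_lit 163902) (nat_lit 12) (.e (nat_lit 426479) (nat_lit 27) .nil)))) (.g (nat_lit 0) (.e (nat_lit 273787) (nat_lit 0) .nil) .nil)))) (.nd (nat_lit 9) 
(.lf (nat_lit 542052) (.g (nat_lit 3073) (.e (nat_lit 98334) (nat_lit 18) (.e (nat_lit 164399) (nat_lit 256) (.e (nat_lit 57372) (nat_lit 2) (.e (nat_lit 90170) (nat_lit 13) (.e (nat_lit 172065) (nat_lit 3) .nil))))) (.g (nat_lit 0) (.e (nat_lit 273437) (nat_lit 0) .nil) .nil))) 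
(.lf (nat_lit 542564) (.g (nat_lit 4297) (.e (nat_lit 98341) (nat_lit 20) (.e (nat_lit 221215) (nat_lit 23) (.e (nat_lit 204852) (nat_lit 26) (.e (nat_lit 336324) (nat_lit 18) (.e (nat_lit 204831) (nat_lit 18) (.e (nat_lit 57847) (nat_lit 252) (.e (nat_lit 57379) (nat_lit 3) .nil))))))) (.g (nat_lit 1) (.e (nat_lit 274096) (nat_lit 0) .nil) .nil))))) (.nd (nat_lit 8) (.nd (nat_lit 9) 
(.lf (nat_lit 541924) (.g (nat_lit 3701) (.e (nat_lit 98334) (nat_lit 18) (.e (nat_lit 164182) (nat_lit 154) (.e (nat_lit 57378) (nat_lit 3) (.e (nat_lit 98342) (nat_lit 20) (.e (nat_lit 221212) (nat_lit 22) (.e (nat_lit 196681) (nat_lit 17) (.e (nat_lit 131096) (nat_lit 3) .nil))))))) (.g (nat_lit 1) (.e (nat_lit 273169) (nat_lit 0) .nil) .nil))) 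
(.lf (nat_lit 542436) (.g (nat_lit 1535) (.e (nat_lit 98339) (nat_lit 19) (.e (nat_lit 213030) (nat_lit 11) (.e (nat_lit 24608) (nat_lit 3) (.e (nat_lit 98369) (nat_lit 28) (.e (nat_lit 450304) (nat_lit 3) .nil))))) (.g (nat_lit 1) (.e (nat_lit 273954) (nat_lit 0) .nil) .nil)))) (.nd (nat_lit 9) 
(.lf (nat_lit 542180) (.g (nat_lit 2695) (.e (nat_lit 98335) (nat_lit 18) (.e (nat_lit 164327) (nat_lit 230) (.e (nat_lit 163873) (nat_lit 3) (.e (nat_lit 204838) (nat_lit 20) (.e (nat_lit 114718) (nat_lit 23) .nil))))) (.g (nat_lit 0) (.e (nat_lit 273612) (nat_lit 0) .nil) .nil))) 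
(.lf (nat_lit 542692) (.g (nat_lit 3007) (.e (nat_lit 98342) (nat_lit 20) (.e (nat_lit 221215) (nat_lit 23) (.e (nat_lit 204831) (nat_lit 18) (.e (nat_lit 57931) (nat_lit 282) (.e (nat_lit 163874) (nat_lit 3) (.e (nat_lit 204859) (nat_lit 26) (.e (nat_lit 336017) (nat_lit 3) .nil))))))) (.g (nat_lit 1) (.e (nat_lit 274238) (nat_lit 0) .nil) .nil)))))))) 
(.nd (nat_lit 5) (.nd (nat_lit 6) (.nd (nat_lit 7) (.nd (nat_lit 8) (.nd (nat_lit 9) 
(.lf (nat_lit 541716) (.g (nat_lit 2899) (.e (nat_lit 98333) (nat_lit 18) (.e (nat_lit 164325) (nat_lit 230) (.e (nat_lit 163869) (nat_lit 2) (.e (nat_lit 196656) (nat_lit 11) (.e (nat_lit 16416) (nat_lit 3) (.e (nat_lit 204837) (nat_lit 20) (.e (nat_lit 114719) (nat_lit 23) .nil))))))) (.g (nat_lit 1) (.e (nat_lit 272861) (nat_lit 0) .nil) .nil))) 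
(.lf (nat_lit 542228) (.g (nat_lit 2157) (.e (nat_lit 98335) (nat_lit 18) (.e (nat_lit 164329) (nat_lit 230) (.e (nat_lit 163902) (nat_lit 12) (.e (nat_lit 426568) (nat_lit 34) (.e (nat_lit 393279) (nat_lit 23) (.e (nat_lit 433920) (nat_lit 18) .nil)))))) (.g (nat_lit 1) (.e (nat_lit 273667) (nat_lit 0) .nil) .nil)))) (.nd (nat_lit 9) 
(.lf (nat_lit 541972) (.g (nat_lit 3737) (.e (nat_lit 98334) (nat_lit 18) (.e (nat_lit 164330) (nat_lit 230) (.e (nat_lit 163869) (nat_lit 2) (.e (nat_lit 196654) (nat_lit 11) (.e (nat_lit 16416) (nat_lit 3) (.e (nat_lit 204837) (nat_lit 20) (.e (nat_lit 114717) (nat_lit 23) .nil))))))) (.g (nat_lit 1) (.e (nat_lit 273273) (nat_lit 0) .nil) .nil))) 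
(.lf (nat_lit 542484) (.g (nat_lit 2179) (.e (nat_lit 98340) (nat_lit 20) (.e (nat_lit 221212) (nat_lit 22) (.e (nat_lit 196681) (nat_lit 17) (.e (nat_lit 131097) (nat_lit 3) .nil)))) (.g (nat_lit 0) (.e (nat_lit 274005) (nat_lit 0) .nil) .nil))))) (.nd (nat_lit 8) (.nd (nat_lit 9) 
(.lf (nat_lit 541844) (.g (nat_lit 2922) (.e (nat_lit 98333) (nat_lit 18) (.e (nat_lit 164327) (nat_lit 230) (.e (nat_lit 163903) (nat_lit 12) (.e (nat_lit 426568) (nat_lit 34) (.e (nat_lit 393268) (nat_lit 23) (.e (nat_lit 426438) (nat_lit 18) .nil)))))) (.g (nat_lit 1) (.e (nat_lit 273042) (nat_lit 0) .nil) .nil))) 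
(.lf (nat_lit 542356) (.g (nat_lit 2181) (.e (nat_lit 98335) (nat_lit 18) (.e (nat_lit 164332) (nat_lit 230) (.e (nat_lit 163941) (nat_lit 19) (.e (nat_lit 483336) (nat_lit 9) .nil)))) (.g (nat_lit 0) (.e (nat_lit 273838) (nat_lit 0) .nil) .nil)))) (.nd (nat_lit 9) 
(.lf (nat_lit 542100) (.g (nat_lit 5138) (.e (nat_lit 98335) (nat_lit 18) (.e (nat_lit 164305) (nat_lit 226) (.e (nat_lit 2612) (nat_lit 163) (.e (nat_lit 163978) (nat_lit 30) (.e (nat_lit 573487) (nat_lit 14) (.e (nat_lit 73753) (nat_lit 8) (.e (nat_lit 557096) (nat_lit 13) (.e (nat_lit 179968) (nat_lit 18) .nil)))))))) (.g (nat_lit 1) (.e (nat_lit 273510) (nat_lit 0) .nil) .nil))) 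
(.lf (nat_lit 542612) (.g (nat_lit 1341) (.e (nat_lit 98342) (nat_lit 20) (.e (nat_lit 221210) (nat_lit 22) (.e (nat_lit 196681) (nat_lit 17) (.e (nat_lit 131098) (nat_lit 3) .nil)))) (.g (nat_lit 0) (.e (nat_lit 274153) (nat_lit 0) .nil) .nil)))))) (.nd (nat_lit 7) (.nd (nat_lit 8) (.nd (nat_lit 9) 
(.lf (nat_lit 541780) (.g (nat_lit 1162) (.e (nat_lit 98333) (nat_lit 18) (.e (nat_lit 164325) (nat_lit 230) (.e (nat_lit 163943) (nat_lit 19) (.e (nat_lit 483337) (nat_lit 9) .nil)))) (.g (nat_lit 0) (.e (nat_lit 272949) (nat_lit 0) .nil) .nil))) 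
(.lf (nat_lit 542292) (.g (nat_lit 2212) (.e (nat_lit 98335) (nat_lit 18) (.e (nat_lit 164331) (nat_lit 230) (.e (nat_lit 163904) (nat_lit 12) (.e (nat_lit 426566) (nat_lit 34) (.e (nat_lit 393270) (nat_lit 23) .nil))))) (.g (nat_lit 0) (.e (nat_lit 273756) (nat_lit 0) .nil) .nil)))) (.nd (nat_lit 9) 
(.lf (nat_lit 542036) (.g (nat_lit 749) (.e (nat_lit 98334) (nat_lit 18) (.e (nat_lit 164332) (nat_lit 230) (.e (nat_lit 163927) (nat_lit 16) .nil))) (.g (nat_lit 0) (.e (nat_lit 273400) (nat_lit 0) .nil) .nil))) 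
(.lf (nat_lit 542548) (.g (nat_lit 2308) (.e (nat_lit 98341) (nat_lit 20) (.e (nat_lit 221212) (nat_lit 22) (.e (nat_lit 196681) (nat_lit 17) (.e (nat_lit 131097) (nat_lit 3) (.e (nat_lit 98333) (nat_lit 18) .nil))))) (.g (nat_lit 0) (.e (nat_lit 274077) (nat_lit 0) .nil) .nil))))) (.nd (nat_lit 8) (.nd (nat_lit 9) 
(.lf (nat_lit 541908) (.g (nat_lit 1538) (.e (nat_lit 98333) (nat_lit 18) (.e (nat_lit 164399) (nat_lit 256) (.e (nat_lit 57372) (nat_lit 2) (.e (nat_lit 90174) (nat_lit 14) (.e (nat_lit 180243) (nat_lit 5) .nil))))) (.g (nat_lit 0) (.e (nat_lit 273141) (nat_lit 0) .nil) .nil))) 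
(.lf (nat_lit 542420) (.g (nat_lit 1254) (.e (nat_lit 98338) (nat_lit 19) (.e (nat_lit 213032) (nat_lit 11) (.e (nat_lit 24608) (nat_lit 3) (.e (nat_lit 98365) (nat_lit 26) .nil)))) (.g (nat_lit 0) (.e (nat_lit 273920) (nat_lit 0) .nil) .nil)))) (.nd (nat_lit 9) 
(.lf (nat_lit 542164) (.g (nat_lit 2198) (.e (nat_lit 98335) (nat_lit 18) (.e (nat_lit 164326) (nat_lit 230) (.e (nat_lit 163903) (nat_lit 12) (.e (nat_lit 426479) (nat_lit 27) (.e (nat_lit 336414) (nat_lit 27) (.e (nat_lit 426228) (nat_lit 9) (.e (nat_lit 426435) (nat_lit 18) .nil))))))) (.g (nat_lit 1) (.e (nat_lit 273593) (nat_lit 0) .nil) .nil))) 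
(.lf (nat_lit 542676) (.g (nat_lit 2776) (.e (nat_lit 98342) (nat_lit 20) (.e (nat_lit 221215) (nat_lit 23) (.e (nat_lit 204829) (nat_lit 18) (.e (nat_lit 57927) (nat_lit 282) (.e (nat_lit 163874) (nat_lit 3) (.e (nat_lit 204859) (nat_lit 26) (.e (nat_lit 336017) (nat_lit 3) .nil))))))) (.g (nat_lit 1) (.e (nat_lit 274219) (nat_lit 0) .nil) .nil))))))) 
(.nd (nat_lit 6) (.nd (nat_lit 7) (.nd (nat_lit 8) (.nd (nat_lit 9) 
(.lf (nat_lit 541748) (.g (nat_lit 5880) (.e (nat_lit 98333) (nat_lit 18) (.e (nat_lit 164325) (nat_lit 230) (.e (nat_lit 163907) (nat_lit 12) (.e (nat_lit 426131) (nat_lit 3) (.e (nat_lit 204852) (nat_lit 26) (.e (nat_lit 336310) (nat_lit 16) (.e (nat_lit 164183) (nat_lit 154) (.e (nat_lit 57378) (nat_lit 3) .nil)))))))) (.g (nat_lit 1) (.e (nat_lit 272903) (nat_lit 0) .nil) .nil))) 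
(.lf (nat_lit 542260) (.g (nat_lit 1755) (.e (nat_lit 98335) (nat_lit 18) (.e (nat_lit 164330) (nat_lit 230) (.e (nat_lit 163902) (nat_lit 12) (.e (nat_lit 426481) (nat_lit 27) .nil)))) (.g (nat_lit 0) (.e (nat_lit 273714) (nat_lit 0) .nil) .nil)))) (.nd (nat_lit 9) 
(.lf (nat_lit 542004) (.g (nat_lit 1519) (.e (nat_lit 98334) (nat_lit 18) (.e (nat_lit 164331) (nat_lit 230) (.e (nat_lit 163902) (nat_lit 12) (.e (nat_lit 426568) (nat_lit 34) .nil)))) (.g (nat_lit 0) (.e (nat_lit 273344) (nat_lit 0) .nil) .nil))) 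
(.lf (nat_lit 542516) (.g (nat_lit 5432) (.e (nat_lit 98341) (nat_lit 20) (.e (nat_lit 221210) (nat_lit 22) (.e (nat_lit 196668) (nat_lit 14) (.e (nat_lit 73747) (nat_lit 3) (.e (nat_lit 516119) (nat_lit 1) (.e (nat_lit 164179) (nat_lit 154) (.e (nat_lit 57377) (nat_lit 3) .nil))))))) (.g (nat_lit 1) (.e (nat_lit 274045) (nat_lit 0) .nil) .nil))))) (.nd (nat_lit 8) (.nd (nat_lit 9) 
(.lf (nat_lit 541876) (.g (nat_lit 2008) (.e (nat_lit 98333) (nat_lit 18) (.e (nat_lit 164332) (nat_lit 230) (.e (nat_lit 163902) (nat_lit 12) (.e (nat_lit 426479) (nat_lit 27) (.e (nat_lit 336427) (nat_lit 29) (.e (nat_lit 450304) (nat_lit 3) .nil)))))) (.g (nat_lit 1) (.e (nat_lit 273099) (nat_lit 0) .nil) .nil))) 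
(.lf (nat_lit 542388) (.g (nat_lit 803) (.e (nat_lit 98337) (nat_lit 19) (.e (nat_lit 213030) (nat_lit 11) (.e (nat_lit 24609) (nat_lit 3) (.e (nat_lit 98365) (nat_lit 26) .nil)))) (.g (nat_lit 0) (.e (nat_lit 273883) (nat_lit 0) .nil) .nil)))) (.nd (nat_lit 9) 
(.lf (nat_lit 542132) (.g (nat_lit 1026) (.e (nat_lit 98335) (nat_lit 18) (.e (nat_lit 164324) (nat_lit 230) (.e (nat_lit 163941) (nat_lit 19) (.e (nat_lit 483337) (nat_lit 9) .nil)))) (.g (nat_lit 0) (.e (nat_lit 273548) (nat_lit 0) .nil) .nil))) 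
(.lf (nat_lit 542644) (.g (nat_lit 4907) (.e (nat_lit 98342) (nat_lit 20) (.e (nat_lit 221214) (nat_lit 23) (.e (nat_lit 204829) (nat_lit 18) (.e (nat_lit 57927) (nat_lit 282) (.e (nat_lit 163870) (nat_lit 2) (.e (nat_lit 196666) (nat_lit 13) (.e (nat_lit 65569) (nat_lit 3) .nil))))))) (.g (nat_lit 1) (.e (nat_lit 274185) (nat_lit 0) .nil) .nil)))))) 
(.nd (nat_lit 7) (.nd (nat_lit 8) (.nd (nat_lit 9) 
(.lf (nat_lit 541812) (.g (nat_lit 3743) (.e (nat_lit 98333) (nat_lit 18) (.e (nat_lit 164327) (nat_lit 230) (.e (nat_lit 163873) (nat_lit 3) (.e (nat_lit 204809) (nat_lit 9) (.e (nat_lit 426139) (nat_lit 3) (.e (nat_lit 204834) (nat_lit 19) (.e (nat_lit 106517) (nat_lit 9) (.e (nat_lit 1252) (nat_lit 92) .nil)))))))) (.g (nat_lit 1) (.e (nat_lit 273002) (nat_lit 0) .nil) .nil))) 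
(.lf (nat_lit 542324) (.g (nat_lit 1962) (.e (nat_lit 98335) (nat_lit 18) (.e (nat_lit 164332) (nat_lit 230) (.e (nat_lit 163905) (nat_lit 12) (.e (nat_lit 426479) (nat_lit 27) (.e (nat_lit 336428) (nat_lit 29) (.e (nat_lit 450304) (nat_lit 3) .nil)))))) (.g (nat_lit 1) (.e (nat_lit 273803) (nat_lit 0) .nil) .nil)))) (.nd (nat_lit 9) 
(.lf (nat_lit 542068) (.g (nat_lit 1774) (.e (nat_lit 98335) (nat_lit 18) (.e (nat_lit 164177) (nat_lit 154) (.e (nat_lit 57379) (nat_lit 3) (.e (nat_lit 98341) (nat_lit 20) (.e (nat_lit 221212) (nat_lit 22) .nil))))) (.g (nat_lit 0) (.e (nat_lit 273456) (nat_lit 0) .nil) .nil))) 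
(.lf (nat_lit 542580) (.g (nat_lit 1536) (.e (nat_lit 98342) (nat_lit 20) (.e (nat_lit 221193) (nat_lit 11) (.e (nat_lit 336012) (nat_lit 2) (.e (nat_lit 90176) (nat_lit 15) (.e (nat_lit 196352) (nat_lit 3) .nil))))) (.g (nat_lit 1) (.e (nat_lit 274114) (nat_lit 0) .nil) .nil))))) (.nd (nat_lit 8) (.nd (nat_lit 9) 
(.lf (nat_lit 541940) (.g (nat_lit 5528) (.e (nat_lit 98334) (nat_lit 18) (.e (nat_lit 164305) (nat_lit 226) (.e (nat_lit 2612) (nat_lit 163) (.e (nat_lit 163978) (nat_lit 30) (.e (nat_lit 573487) (nat_lit 14) (.e (nat_lit 73753) (nat_lit 8) (.e (nat_lit 557098) (nat_lit 13) (.e (nat_lit 179968) (nat_lit 18) .nil)))))))) (.g (nat_lit 1) (.e (nat_lit 273217) (nat_lit 0) .nil) .nil))) 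
(.lf (nat_lit 542452) (.g (nat_lit 2123) (.e (nat_lit 98339) (nat_lit 19) (.e (nat_lit 213032) (nat_lit 11) (.e (nat_lit 24608) (nat_lit 3) (.e (nat_lit 98356) (nat_lit 26) .nil)))) (.g (nat_lit 0) (.e (nat_lit 273973) (nat_lit 0) .nil) .nil)))) (.nd (nat_lit 9) 
(.lf (nat_lit 542196) (.g (nat_lit 2414) (.e (nat_lit 98335) (nat_lit 18) (.e (nat_lit 164327) (nat_lit 230) (.e (nat_lit 163903) (nat_lit 12) (.e (nat_lit 426482) (nat_lit 27) (.e (nat_lit 336385) (nat_lit 27) .nil))))) (.g (nat_lit 0) (.e (nat_lit 273629) (nat_lit 0) .nil) .nil))) 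
(.lf (nat_lit 542708) (.g (nat_lit 3065) (.e (nat_lit 98342) (nat_lit 20) (.e (nat_lit 221215) (nat_lit 23) (.e (nat_lit 204863) (nat_lit 27) (.e (nat_lit 344117) (nat_lit 21) (.e (nat_lit 516099) (nat_lit 0) (.e (nat_lit 2474) (nat_lit 157) (.e (nat_lit 6401) (nat_lit 339) (.e (nat_lit 57378) (nat_lit 3) .nil)))))))) (.g (nat_lit 1) (.e (nat_lit 274254) (nat_lit 0) .nil) .nil))))))))) 
(.nd (nat_lit 4) (.nd (nat_lit 5) (.nd (nat_lit 6) (.nd (nat_lit 7) (.nd (nat_lit 8) 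
(.nd (nat_lit 9) 
(.lf (nat_lit 541708) (.g (nat_lit 333) (.e (nat_lit 98333) (nat_lit 18) (.e (nat_lit 164183) (nat_lit 154) (.e (nat_lit 65280) (nat_lit 12) .nil))) (.g (nat_lit 0) (.e (nat_lit 272845) (nat_lit 0) .nil) .nil))) 
(.lf (nat_lit 542220) (.g (nat_lit 1254) (.e (nat_lit 98335) (nat_lit 18) (.e (nat_lit 164329) (nat_lit 230) (.e (nat_lit 163902) (nat_lit 12) (.e (nat_lit 426478) (nat_lit 27) .nil)))) (.g (nat_lit 0) (.e (nat_lit 273658) (nat_lit 0) .nil) .nil)))) (.nd (nat_lit 9) 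
(.lf (nat_lit 541964) (.g (nat_lit 3520) (.e (nat_lit 98334) (nat_lit 18) (.e (nat_lit 164330) (nat_lit 230) (.e (nat_lit 163850) (nat_lit 0) (.e (nat_lit 3304) (nat_lit 202) (.e (nat_lit 573489) (nat_lit 14) (.e (nat_lit 73755) (nat_lit 8) (.e (nat_lit 557096) (nat_lit 13) (.e (nat_lit 179968) (nat_lit 18) .nil)))))))) (.g (nat_lit 1) (.e (nat_lit 273255) (nat_lit 0) .nil) .nil))) 
(.lf (nat_lit 542476) (.g (nat_lit 4251) (.e (nat_lit 98340) (nat_lit 20) (.e (nat_lit 221210) (nat_lit 22) (.e (nat_lit 196668) (nat_lit 14) (.e (nat_lit 73747) (nat_lit 3) (.e (nat_lit 516115) (nat_lit 1) (.e (nat_lit 164183) (nat_lit 154) (.e (nat_lit 57378) (nat_lit 3) .nil))))))) (.g (nat_lit 1) (.e (nat_lit 273997) (nat_lit 0) .nil) .nil))))) (.nd (nat_lit 8) (.nd (nat_lit 9) 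
(.lf (nat_lit 541836) (.g (nat_lit 2090) (.e (nat_lit 98333) (nat_lit 18) (.e (nat_lit 164327) (nat_lit 230) (.e (nat_lit 163903) (nat_lit 12) (.e (nat_lit 426491) (nat_lit 27) .nil)))) (.g (nat_lit 0) (.e (nat_lit 273034) (nat_lit 0) .nil) .nil))) 
(.lf (nat_lit 542348) (.g (nat_lit 2010) (.e (nat_lit 98335) (nat_lit 18) (.e (nat_lit 164332) (nat_lit 230) (.e (nat_lit 163905) (nat_lit 12) (.e (nat_lit 426530) (nat_lit 27) .nil)))) (.g (nat_lit 0) (.e (nat_lit 273827) (nat_lit 0) .nil) .nil)))) (.nd (nat_lit 9) 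
(.lf (nat_lit 542092) (.g (nat_lit 4317) (.e (nat_lit 98335) (nat_lit 18) (.e (nat_lit 164183) (nat_lit 154) (.e (nat_lit 57379) (nat_lit 3) (.e (nat_lit 98341) (nat_lit 20) (.e (nat_lit 221215) (nat_lit 23) (.e (nat_lit 204861) (nat_lit 26) (.e (nat_lit 336026) (nat_lit 3) .nil))))))) (.g (nat_lit 1) (.e (nat_lit 273489) (nat_lit 0) .nil) .nil))) 
(.lf (nat_lit 542604) (.g (nat_lit 4360) (.e (nat_lit 98342) (nat_lit 20) (.e (nat_lit 221210) (nat_lit 22) (.e (nat_lit 196668) (nat_lit 14) (.e (nat_lit 73747) (nat_lit 3) (.e (nat_lit 516119) (nat_lit 1) (.e (nat_lit 164179) (nat_lit 154) (.e (nat_lit 57379) (nat_lit 3) .nil))))))) (.g (nat_lit 1) (.e (nat_lit 274145) (nat_lit 0) .nil) .nil)))))) 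
(.nd (nat_lit 7) (.nd (nat_lit 8) (.nd (nat_lit 9) 
(.lf (nat_lit 541772) (.g (nat_lit 1616) (.e (nat_lit 98333) (nat_lit 18) (.e (nat_lit 164325) (nat_lit 230) (.e (nat_lit 163941) (nat_lit 19) (.e (nat_lit 483333) (nat_lit 0) .nil)))) (.g (nat_lit 0) (.e (nat_lit 272928) (nat_lit 0) .nil) .nil))) 
(.lf (nat_lit 542284) (.g (nat_lit 2771) (.e (nat_lit 98335) (nat_lit 18) (.e (nat_lit 164330) (nat_lit 230) (.e (nat_lit 163941) (nat_lit 19) (.e (nat_lit 483341) (nat_lit 9) (.e (nat_lit 426198) (nat_lit 9) (.e (nat_lit 433920) (nat_lit 18) .nil)))))) (.g (nat_lit 1) (.e (nat_lit 273747) (nat_lit 0) .nil) .nil)))) (.nd (nat_lit 9) 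
(.lf (nat_lit 542028) (.g (nat_lit 1921) (.e (nat_lit 98334) (nat_lit 18) (.e (nat_lit 164332) (nat_lit 230) (.e (nat_lit 163905) (nat_lit 12) (.e (nat_lit 426479) (nat_lit 27) (.e (nat_lit 336430) (nat_lit 29) (.e (nat_lit 450304) (nat_lit 3) .nil)))))) (.g (nat_lit 1) (.e (nat_lit 273391) (nat_lit 0) .nil) .nil))) 
(.lf (nat_lit 542540) (.g (nat_lit 983) (.e (nat_lit 98341) (nat_lit 20) (.e (nat_lit 221212) (nat_lit 22) (.e (nat_lit 196669) (nat_lit 14) (.e (nat_lit 73746) (nat_lit 3) .nil)))) (.g (nat_lit 0) (.e (nat_lit 274069) (nat_lit 0) .nil) .nil))))) (.nd (nat_lit 8) (.nd (nat_lit 9) 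
(.lf (nat_lit 541900) (.g (nat_lit 1432) (.e (nat_lit 98333) (nat_lit 18) (.e (nat_lit 164398) (nat_lit 256) (.e (nat_lit 57372) (nat_lit 2) (.e (nat_lit 90172) (nat_lit 14) .nil)))) (.g (nat_lit 0) (.e (nat_lit 273132) (nat_lit 0) .nil) .nil))) 
(.lf (nat_lit 542412) (.g (nat_lit 1011) (.e (nat_lit 98338) (nat_lit 19) (.e (nat_lit 213030) (nat_lit 11) (.e (nat_lit 24609) (nat_lit 3) (.e (nat_lit 98369) (nat_lit 28) (.e (nat_lit 450304) (nat_lit 3) .nil))))) (.g (nat_lit 0) (.e (nat_lit 273911) (nat_lit 0) .nil) .nil)))) (.nd (nat_lit 9) 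
(.lf (nat_lit 542156) (.g (nat_lit 1245) (.e (nat_lit 98335) (nat_lit 18) (.e (nat_lit 164325) (nat_lit 230) (.e (nat_lit 163941) (nat_lit 19) (.e (nat_lit 483337) (nat_lit 9) .nil)))) (.g (nat_lit 0) (.e (nat_lit 273580) (nat_lit 0) .nil) .nil))) 
(.lf (nat_lit 542668) (.g (nat_lit 3214) (.e (nat_lit 98342) (nat_lit 20) (.e (nat_lit 221214) (nat_lit 23) (.e (nat_lit 204863) (nat_lit 27) (.e (nat_lit 344117) (nat_lit 21) (.e (nat_lit 516099) (nat_lit 0) (.e (nat_lit 2464) (nat_lit 157) (.e (nat_lit 6400) (nat_lit 339) (.e (nat_lit 57379) (nat_lit 3) .nil)))))))) (.g (nat_lit 1) (.e (nat_lit 274211) (nat_lit 0) .nil) .nil))))))) 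
(.nd (nat_lit 6) (.nd (nat_lit 7) (.nd (nat_lit 8) (.nd (nat_lit 9) 
(.lf (nat_lit 541740) (.g (nat_lit 2469) (.e (nat_lit 98333) (nat_lit 18) (.e (nat_lit 164325) (nat_lit 230) (.e (nat_lit 163903) (nat_lit 12) (.e (nat_lit 426566) (nat_lit 34) (.e (nat_lit 393270) (nat_lit 23) (.e (nat_lit 426434) (nat_lit 18) .nil)))))) (.g (nat_lit 1) (.e (nat_lit 272894) (nat_lit 0) .nil) .nil))) 
(.lf (nat_lit 542252) (.g (nat_lit 2653) (.e (nat_lit 98335) (nat_lit 18) (.e (nat_lit 164330) (nat_lit 230) (.e (nat_lit 163867) (nat_lit 2) (.e (nat_lit 196656) (nat_lit 11) (.e (nat_lit 16416) (nat_lit 3) .nil))))) (.g (nat_lit 0) (.e (nat_lit 273702) (nat_lit 0) .nil) .nil)))) (.nd (nat_lit 9) 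
(.lf (nat_lit 541996) (.g (nat_lit 1101) (.e (nat_lit 98334) (nat_lit 18) (.e (nat_lit 164330) (nat_lit 230) (.e (nat_lit 163905) (nat_lit 12) (.e (nat_lit 426530) (nat_lit 27) .nil)))) (.g (nat_lit 0) (.e (nat_lit 273310) (nat_lit 0) .nil) .nil))) 
(.lf (nat_lit 542508) (.g (nat_lit 3927) (.e (nat_lit 98341) (nat_lit 20) (.e (nat_lit 221210) (nat_lit 22) (.e (nat_lit 196668) (nat_lit 14) (.e (nat_lit 73746) (nat_lit 3) (.e (nat_lit 516115) (nat_lit 1) (.e (nat_lit 164182) (nat_lit 154) (.e (nat_lit 57379) (nat_lit 3) .nil))))))) (.g (nat_lit 1) (.e (nat_lit 274037) (nat_lit 0) .nil) .nil))))) (.nd (nat_lit 8) (.nd (nat_lit 9) 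
(.lf (nat_lit 541868) (.g (nat_lit 1326) (.e (nat_lit 98333) (nat_lit 18) (.e (nat_lit 164330) (nat_lit 230) (.e (nat_lit 163941) (nat_lit 19) (.e (nat_lit 491264) (nat_lit 14) .nil)))) (.g (nat_lit 0) (.e (nat_lit 273082) (nat_lit 0) .nil) .nil))) 
(.lf (nat_lit 542380) (.g (nat_lit 2062) (.e (nat_lit 98336) (nat_lit 19) (.e (nat_lit 213032) (nat_lit 11) (.e (nat_lit 24604) (nat_lit 2) (.e (nat_lit 90185) (nat_lit 17) (.e (nat_lit 237605) (nat_lit 9) .nil))))) (.g (nat_lit 0) (.e (nat_lit 273875) (nat_lit 0) .nil) .nil)))) (.nd (nat_lit 9) 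
(.lf (nat_lit 542124) (.g (nat_lit 2403) (.e (nat_lit 98335) (nat_lit 18) (.e (nat_lit 164324) (nat_lit 230) (.e (nat_lit 163903) (nat_lit 12) (.e (nat_lit 426479) (nat_lit 27) (.e (nat_lit 336414) (nat_lit 27) (.e (nat_lit 426228) (nat_lit 9) (.e (nat_lit 426435) (nat_lit 18) .nil))))))) (.g (nat_lit 1) (.e (nat_lit 273537) (nat_lit 0) .nil) .nil))) 
(.lf (nat_lit 542636) (.g (nat_lit 4288) (.e (nat_lit 98342) (nat_lit 20) (.e (nat_lit 221212) (nat_lit 22) (.e (nat_lit 196681) (nat_lit 17) (.e (nat_lit 131096) (nat_lit 3) (.e (nat_lit 98333) (nat_lit 18) (.e (nat_lit 164179) (nat_lit 154) (.e (nat_lit 57377) (nat_lit 3) .nil))))))) (.g (nat_lit 1) (.e (nat_lit 274177) (nat_lit 0) .nil) .nil)))))) 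
(.nd (nat_lit 7) (.nd (nat_lit 8) (.nd (nat_lit 9) 
(.lf (nat_lit 541804) (.g (nat_lit 3525) (.e (nat_lit 98333) (nat_lit 18) (.e (nat_lit 164327) (nat_lit 230) (.e (nat_lit 163871) (nat_lit 2) (.e (nat_lit 196656) (nat_lit 11) (.e (nat_lit 16416) (nat_lit 3) (.e (nat_lit 204837) (nat_lit 20) (.e (nat_lit 114717) (nat_lit 23) .nil))))))) (.g (nat_lit 1) (.e (nat_lit 272994) (nat_lit 0) .nil) .nil))) 
(.lf (nat_lit 542316) (.g (nat_lit 1766) (.e (nat_lit 98335) (nat_lit 18) (.e (nat_lit 164332) (nat_lit 230) (.e (nat_lit 163902) (nat_lit 12) (.e (nat_lit 426481) (nat_lit 27) .nil)))) (.g (nat_lit 0) (.e (nat_lit 273795) (nat_lit 0) .nil) .nil)))) (.nd (nat_lit 9) 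
(.lf (nat_lit 542060) (.g (nat_lit 2404) (.e (nat_lit 98334) (nat_lit 18) (.e (nat_lit 164401) (nat_lit 256) (.e (nat_lit 57378) (nat_lit 3) (.e (nat_lit 98367) (nat_lit 27) (.e (nat_lit 434232) (nat_lit 23) .nil))))) (.g (nat_lit 0) (.e (nat_lit 273445) (nat_lit 0) .nil) .nil))) 
(.lf (nat_lit 542572) (.g (nat_lit 1618) (.e (nat_lit 98341) (nat_lit 20) (.e (nat_lit 221215) (nat_lit 23) (.e (nat_lit 204861) (nat_lit 26) (.e (nat_lit 336026) (nat_lit 3) .nil)))) (.g (nat_lit 0) (.e (nat_lit 274104) (nat_lit 0) .nil) .nil))))) (.nd (nat_lit 8) (.nd (nat_lit 9) 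
(.lf (nat_lit 541932) (.g (nat_lit 3448) (.e (nat_lit 98334) (nat_lit 18) (.e (nat_lit 164183) (nat_lit 154) (.e (nat_lit 57378) (nat_lit 3) (.e (nat_lit 98341) (nat_lit 20) (.e (nat_lit 221212) (nat_lit 22) (.e (nat_lit 196681) (nat_lit 17) (.e (nat_lit 131096) (nat_lit 3) .nil))))))) (.g (nat_lit 1) (.e (nat_lit 273197) (nat_lit 0) .nil) .nil))) 
(.lf (nat_lit 542444) (.g (nat_lit 1100) (.e (nat_lit 98339) (nat_lit 19) (.e (nat_lit 213032) (nat_lit 11) (.e (nat_lit 24604) (nat_lit 2) (.e (nat_lit 90170) (nat_lit 13) .nil)))) (.g (nat_lit 0) (.e (nat_lit 273962) (nat_lit 0) .nil) .nil)))) (.nd (nat_lit 9) 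
(.lf (nat_lit 542188) (.g (nat_lit 1764) (.e (nat_lit 98335) (nat_lit 18) (.e (nat_lit 164327) (nat_lit 230) (.e (nat_lit 163903) (nat_lit 12) (.e (nat_lit 426478) (nat_lit 27) (.e (nat_lit 336427) (nat_lit 29) .nil))))) (.g (nat_lit 0) (.e (nat_lit 273621) (nat_lit 0) .nil) .nil))) 
(.lf (nat_lit 542700) (.g (nat_lit 3240) (.e (nat_lit 98342) (nat_lit 20) (.e (nat_lit 221215) (nat_lit 23) (.e (nat_lit 204861) (nat_lit 26) (.e (nat_lit 336025) (nat_lit 3) (.e (nat_lit 98335) (nat_lit 18) (.e (nat_lit 164183) (nat_lit 154) (.e (nat_lit 57378) (nat_lit 3) .nil))))))) (.g (nat_lit 1) (.e (nat_lit 274246) (nat_lit 0) .nil) .nil)))))))) 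
(.nd (nat_lit 5) (.nd (nat_lit 6) (.nd (nat_lit 7) (.nd (nat_lit 8) (.nd (nat_lit 9) 
(.lf (nat_lit 541724) (.g (nat_lit 2066) (.e (nat_lit 98333) (nat_lit 18) (.e (nat_lit 164325) (nat_lit 230) (.e (nat_lit 163874) (nat_lit 3) (.e (nat_lit 204809) (nat_lit 9) .nil)))) (.g (nat_lit 0) (.e (nat_lit 272874) (nat_lit 0) .nil) .nil))) 
(.lf (nat_lit 542236) (.g (nat_lit 4428) (.e (nat_lit 98335) (nat_lit 18) (.e (nat_lit 164330) (nat_lit 230) (.e (nat_lit 163840) (nat_lit 0) (.e (nat_lit 3307) (nat_lit 202) (.e (nat_lit 573489) (nat_lit 14) (.e (nat_lit 73755) (nat_lit 8) (.e (nat_lit 557097) (nat_lit 13) (.e (nat_lit 179968) (nat_lit 18) .nil)))))))) (.g (nat_lit 1) (.e (nat_lit 273679) (nat_lit 0) .nil) .nil)))) 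
(.nd (nat_lit 9) 
(.lf (nat_lit 541980) (.g (nat_lit 648) (.e (nat_lit 98334) (nat_lit 18) (.e (nat_lit 164330) (nat_lit 230) (.e (nat_lit 163901) (nat_lit 12) (.e (nat_lit 426484) (nat_lit 27) .nil)))) (.g (nat_lit 0) (.e (nat_lit 273294) (nat_lit 0) .nil) .nil))) 
(.lf (nat_lit 542492) (.g (nat_lit 3265) (.e (nat_lit 98340) (nat_lit 20) (.e (nat_lit 221215) (nat_lit 23) (.e (nat_lit 204861) (nat_lit 26) (.e (nat_lit 336021) (nat_lit 3) (.e (nat_lit 98335) (nat_lit 18) .nil))))) (.g (nat_lit 0) (.e (nat_lit 274013) (nat_lit 0) .nil) .nil))))) (.nd (nat_lit 8) (.nd (nat_lit 9) 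
(.lf (nat_lit 541852) (.g (nat_lit 1901) (.e (nat_lit 98333) (nat_lit 18) (.e (nat_lit 164327) (nat_lit 230) (.e (nat_lit 163941) (nat_lit 19) (.e (nat_lit 483339) (nat_lit 9) (.e (nat_lit 426260) (nat_lit 9) (.e (nat_lit 426435) (nat_lit 18) .nil)))))) (.g (nat_lit 1) (.e (nat_lit 273051) (nat_lit 0) .nil) .nil))) 
(.lf (nat_lit 542364) (.g (nat_lit 1002) (.e (nat_lit 98335) (nat_lit 18) (.e (nat_lit 164332) (nat_lit 230) (.e (nat_lit 163943) (nat_lit 19) (.e (nat_lit 483339) (nat_lit 9) .nil)))) (.g (nat_lit 0) (.e (nat_lit 273853) (nat_lit 0) .nil) .nil)))) (.nd (nat_lit 9) 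
(.lf (nat_lit 542108) (.g (nat_lit 4288) (.e (nat_lit 98335) (nat_lit 18) (.e (nat_lit 164305) (nat_lit 226) (.e (nat_lit 2612) (nat_lit 163) (.e (nat_lit 163979) (nat_lit 30) (.e (nat_lit 573489) (nat_lit 14) (.e (nat_lit 73755) (nat_lit 8) (.e (nat_lit 557096) (nat_lit 13) (.e (nat_lit 179968) (nat_lit 18) .nil)))))))) (.g (nat_lit 1) (.e (nat_lit 273518) (nat_lit 0) .nil) .nil))) 
(.lf (nat_lit 542620) (.g (nat_lit 3546) (.e (nat_lit 98342) (nat_lit 20) (.e (nat_lit 221212) (nat_lit 22) (.e (nat_lit 196668) (nat_lit 14) (.e (nat_lit 73746) (nat_lit 3) (.e (nat_lit 516119) (nat_lit 1) (.e (nat_lit 164179) (nat_lit 154) (.e (nat_lit 57379) (nat_lit 3) .nil))))))) (.g (nat_lit 1) (.e (nat_lit 274161) (nat_lit 0) .nil) .nil)))))) 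
(.nd (nat_lit 7) (.nd (nat_lit 8) (.nd (nat_lit 9) 
(.lf (nat_lit 541788) (.g (nat_lit 1204) (.e (nat_lit 98333) (nat_lit 18) (.e (nat_lit 164325) (nat_lit 230) (.e (nat_lit 163944) (nat_lit 19) (.e (nat_lit 483346) (nat_lit 17) .nil)))) (.g (nat_lit 0) (.e (nat_lit 272969) (nat_lit 0) .nil) .nil))) 
(.lf (nat_lit 542300) (.g (nat_lit 4040) (.e (nat_lit 98335) (nat_lit 18) (.e (nat_lit 164332) (nat_lit 230) (.e (nat_lit 163869) (nat_lit 2) (.e (nat_lit 196656) (nat_lit 11) (.e (nat_lit 16416) (nat_lit 3) .nil))))) (.g (nat_lit 0) (.e (nat_lit 273777) (nat_lit 0) .nil) .nil)))) (.nd (nat_lit 9) 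
(.lf (nat_lit 542044) (.g (nat_lit 2483) (.e (nat_lit 98334) (nat_lit 18) (.e (nat_lit 164398) (nat_lit 256) (.e (nat_lit 57372) (nat_lit 2) (.e (nat_lit 90172) (nat_lit 14) (.e (nat_lit 180245) (nat_lit 5) .nil))))) (.g (nat_lit 0) (.e (nat_lit 273427) (nat_lit 0) .nil) .nil))) 
(.lf (nat_lit 542556) (.g (nat_lit 4660) (.e (nat_lit 98341) (nat_lit 20) (.e (nat_lit 221214) (nat_lit 23) (.e (nat_lit 204852) (nat_lit 26) (.e (nat_lit 336324) (nat_lit 18) (.e (nat_lit 204831) (nat_lit 18) (.e (nat_lit 57854) (nat_lit 252) (.e (nat_lit 57378) (nat_lit 3) .nil))))))) (.g (nat_lit 1) (.e (nat_lit 274087) (nat_lit 0) .nil) .nil))))) (.nd (nat_lit 8) (.nd (nat_lit 9) 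
(.lf (nat_lit 541916) (.g (nat_lit 4176) (.e (nat_lit 98333) (nat_lit 18) (.e (nat_lit 164403) (nat_lit 256) (.e (nat_lit 57378) (nat_lit 3) (.e (nat_lit 98366) (nat_lit 27) (.e (nat_lit 434231) (nat_lit 23) (.e (nat_lit 532514) (nat_lit 3) (.e (nat_lit 114717) (nat_lit 23) .nil))))))) (.g (nat_lit 1) (.e (nat_lit 273153) (nat_lit 0) .nil) .nil))) 
(.lf (nat_lit 542428) (.g (nat_lit 1232) (.e (nat_lit 98338) (nat_lit 19) (.e (nat_lit 213032) (nat_lit 11) (.e (nat_lit 24609) (nat_lit 3) (.e (nat_lit 98365) (nat_lit 26) .nil)))) (.g (nat_lit 0) (.e (nat_lit 273929) (nat_lit 0) .nil) .nil)))) (.nd (nat_lit 9) 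
(.lf (nat_lit 542172) (.g (nat_lit 1099) (.e (nat_lit 98335) (nat_lit 18) (.e (nat_lit 164326) (nat_lit 230) (.e (nat_lit 163942) (nat_lit 19) (.e (nat_lit 483339) (nat_lit 9) (.e (nat_lit 426259) (nat_lit 9) (.e (nat_lit 433920) (nat_lit 18) .nil)))))) (.g (nat_lit 1) (.e (nat_lit 273601) (nat_lit 0) .nil) .nil))) 
(.lf (nat_lit 542684) (.g (nat_lit 4523) (.e (nat_lit 98342) (nat_lit 20) (.e (nat_lit 221215) (nat_lit 23) (.e (nat_lit 204830) (nat_lit 18) (.e (nat_lit 57927) (nat_lit 282) (.e (nat_lit 163870) (nat_lit 2) (.e (nat_lit 196666) (nat_lit 13) (.e (nat_lit 65569) (nat_lit 3) .nil))))))) (.g (nat_lit 1) (.e (nat_lit 274230) (nat_lit 0) .nil) .nil))))))) 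
(.nd (nat_lit 6) (.nd (nat_lit 7) (.nd (nat_lit 8) (.nd (nat_lit 9) 
(.lf (nat_lit 541756) (.g (nat_lit 1315) (.e (nat_lit 98333) (nat_lit 18) (.e (nat_lit 164325) (nat_lit 230) (.e (nat_lit 163907) (nat_lit 12) (.e (nat_lit 426481) (nat_lit 27) .nil)))) (.g (nat_lit 0) (.e (nat_lit 272911) (nat_lit 0) .nil) .nil))) 
(.lf (nat_lit 542268) (.g (nat_lit 2081) (.e (nat_lit 98335) (nat_lit 18) (.e (nat_lit 164330) (nat_lit 230) (.e (nat_lit 163905) (nat_lit 12) (.e (nat_lit 426486) (nat_lit 27) (.e (nat_lit 336426) (nat_lit 29) (.e (nat_lit 450304) (nat_lit 3) .nil)))))) (.g (nat_lit 1) (.e (nat_lit 273722) (nat_lit 0) .nil) .nil)))) (.nd (nat_lit 9) 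
(.lf (nat_lit 542012) (.g (nat_lit 2356) (.e (nat_lit 98334) (nat_lit 18) (.e (nat_lit 164332) (nat_lit 230) (.e (nat_lit 163902) (nat_lit 12) (.e (nat_lit 426479) (nat_lit 27) (.e (nat_lit 336414) (nat_lit 27) (.e (nat_lit 426228) (nat_lit 9) (.e (nat_lit 426435) (nat_lit 18) .nil))))))) (.g (nat_lit 1) (.e (nat_lit 273375) (nat_lit 0) .nil) .nil))) 
(.lf (nat_lit 542524) (.g (nat_lit 3751) (.e (nat_lit 98341) (nat_lit 20) (.e (nat_lit 221210) (nat_lit 22) (.e (nat_lit 196670) (nat_lit 14) (.e (nat_lit 73746) (nat_lit 3) (.e (nat_lit 516120) (nat_lit 1) (.e (nat_lit 164176) (nat_lit 154) (.e (nat_lit 57379) (nat_lit 3) .nil))))))) (.g (nat_lit 1) (.e (nat_lit 274053) (nat_lit 0) .nil) .nil))))) (.nd (nat_lit 8) (.nd (nat_lit 9) 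
(.lf (nat_lit 541884) (.g (nat_lit 2631) (.e (nat_lit 98333) (nat_lit 18) (.e (nat_lit 164332) (nat_lit 230) (.e (nat_lit 163902) (nat_lit 12) (.e (nat_lit 426568) (nat_lit 34) (.e (nat_lit 393267) (nat_lit 23) (.e (nat_lit 426434) (nat_lit 18) .nil)))))) (.g (nat_lit 1) (.e (nat_lit 273107) (nat_lit 0) .nil) .nil))) 
(.lf (nat_lit 542396) (.g (nat_lit 1528) (.e (nat_lit 98337) (nat_lit 19) (.e (nat_lit 213032) (nat_lit 11) (.e (nat_lit 24608) (nat_lit 3) (.e (nat_lit 98369) (nat_lit 28) (.e (nat_lit 450304) (nat_lit 3) .nil))))) (.g (nat_lit 0) (.e (nat_lit 273891) (nat_lit 0) .nil) .nil)))) (.nd (nat_lit 9) 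
(.lf (nat_lit 542140) (.g (nat_lit 1451) (.e (nat_lit 98335) (nat_lit 18) (.e (nat_lit 164324) (nat_lit 230) (.e (nat_lit 163944) (nat_lit 19) (.e (nat_lit 483341) (nat_lit 9) .nil)))) (.g (nat_lit 0) (.e (nat_lit 273564) (nat_lit 0) .nil) .nil))) 
(.lf (nat_lit 542652) (.g (nat_lit 1876) (.e (nat_lit 98342) (nat_lit 20) (.e (nat_lit 221214) (nat_lit 23) (.e (nat_lit 204830) (nat_lit 18) (.e (nat_lit 57908) (nat_lit 278) .nil)))) (.g (nat_lit 0) (.e (nat_lit 274195) (nat_lit 0) .nil) .nil)))))) (.nd (nat_lit 7) (.nd (nat_lit 8) (.nd (nat_lit 9) 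
(.lf (nat_lit 541820) (.g (nat_lit 2229) (.e (nat_lit 98333) (nat_lit 18) (.e (nat_lit 164327) (nat_lit 230) (.e (nat_lit 163875) (nat_lit 3) (.e (nat_lit 204813) (nat_lit 9) (.e (nat_lit 426139) (nat_lit 3) (.e (nat_lit 204817) (nat_lit 17) (.e (nat_lit 2198) (nat_lit 144) (.e (nat_lit 720945) (nat_lit 23) .nil)))))))) (.g (nat_lit 1) (.e (nat_lit 273016) (nat_lit 0) .nil) .nil))) 
(.lf (nat_lit 542332) (.g (nat_lit 1982) (.e (nat_lit 98335) (nat_lit 18) (.e (nat_lit 164332) (nat_lit 230) (.e (nat_lit 163905) (nat_lit 12) (.e (nat_lit 426481) (nat_lit 27) (.e (nat_lit 336386) (nat_lit 27) .nil))))) (.g (nat_lit 0) (.e (nat_lit 273811) (nat_lit 0) .nil) .nil)))) (.nd (nat_lit 9) 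
(.lf (nat_lit 542076) (.g (nat_lit 3261) (.e (nat_lit 98335) (nat_lit 18) (.e (nat_lit 164179) (nat_lit 154) (.e (nat_lit 57379) (nat_lit 3) (.e (nat_lit 98341) (nat_lit 20) (.e (nat_lit 221215) (nat_lit 23) (.e (nat_lit 204861) (nat_lit 26) (.e (nat_lit 336026) (nat_lit 3) .nil))))))) (.g (nat_lit 1) (.e (nat_lit 273468) (nat_lit 0) .nil) .nil))) 
(.lf (nat_lit 542588) (.g (nat_lit 2920) (.e (nat_lit 98342) (nat_lit 20) (.e (nat_lit 221210) (nat_lit 22) (.e (nat_lit 196666) (nat_lit 13) (.e (nat_lit 65571) (nat_lit 3) (.e (nat_lit 98335) (nat_lit 18) .nil))))) (.g (nat_lit 0) (.e (nat_lit 274129) (nat_lit 0) .nil) .nil))))) (.nd (nat_lit 8) (.nd (nat_lit 9) 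
(.lf (nat_lit 541948) (.g (nat_lit 1425) (.e (nat_lit 98334) (nat_lit 18) (.e (nat_lit 164322) (nat_lit 230) (.e (nat_lit 163902) (nat_lit 12) (.e (nat_lit 426479) (nat_lit 27) .nil)))) (.g (nat_lit 0) (.e (nat_lit 273228) (nat_lit 0) .nil) .nil))) 
(.lf (nat_lit 542460) (.g (nat_lit 1273) (.e (nat_lit 98339) (nat_lit 19) (.e (nat_lit 213032) (nat_lit 11) (.e (nat_lit 24609) (nat_lit 3) (.e (nat_lit 98369) (nat_lit 28) (.e (nat_lit 450304) (nat_lit 3) .nil))))) (.g (nat_lit 1) (.e (nat_lit 273981) (nat_lit 0) .nil) .nil)))) (.nd (nat_lit 9) 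
(.lf (nat_lit 542204) (.g (nat_lit 1572) (.e (nat_lit 98335) (nat_lit 18) (.e (nat_lit 164327) (nat_lit 230) (.e (nat_lit 163941) (nat_lit 19) (.e (nat_lit 483339) (nat_lit 9) (.e (nat_lit 426259) (nat_lit 9) (.e (nat_lit 433920) (nat_lit 18) .nil)))))) (.g (nat_lit 1) (.e (nat_lit 273637) (nat_lit 0) .nil) .nil))) 
(.lf (nat_lit 542716) (.g (nat_lit 1772) (.e (nat_lit 98349) (nat_lit 24) (.e (nat_lit 409644) (nat_lit 18) (.e (nat_lit 303112) (nat_lit 0) (.e (nat_lit 3252) (nat_lit 197) (.e (nat_lit 532534) (nat_lit 9) (.e (nat_lit 336115) (nat_lit 9) (.e (nat_lit 343808) (nat_lit 3) .nil))))))) (.g (nat_lit 1) (.e (nat_lit 274348) (nat_lit 0) .nil) .nil))))))))))) 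
(.nd (nat_lit 2) (.nd (nat_lit 3) (.nd (nat_lit 4) (.nd (nat_lit 5) (.nd (nat_lit 6) 
(.nd (nat_lit 7) (.nd (nat_lit 8) (.nd (nat_lit 9) 
(.lf (nat_lit 541698) (.g (nat_lit 3320) (.e (nat_lit 98333) (nat_lit 18) (.e (nat_lit 164182) (nat_lit 154) (.e (nat_lit 57379) (nat_lit 3) (.e (nat_lit 98342) (nat_lit 20) (.e (nat_lit 221215) (nat_lit 23) (.e (nat_lit 204861) (nat_lit 26) (.e (nat_lit 336026) (nat_lit 3) .nil))))))) (.g (nat_lit 1) (.e (nat_lit 272812) (nat_lit 0) .nil) .nil))) 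
(.lf (nat_lit 542210) (.g (nat_lit 2082) (.e (nat_lit 98335) (nat_lit 18) (.e (nat_lit 164327) (nat_lit 230) (.e (nat_lit 163943) (nat_lit 19) (.e (nat_lit 483341) (nat_lit 9) .nil)))) (.g (nat_lit 0) (.e (nat_lit 273647) (nat_lit 0) .nil) .nil)))) (.nd (nat_lit 9) 
(.lf (nat_lit 541954) (.g (nat_lit 1945) (.e (nat_lit 98334) (nat_lit 18) (.e (nat_lit 164329) (nat_lit 230) (.e (nat_lit 163902) (nat_lit 12) (.e (nat_lit 426479) (nat_lit 27) (.e (nat_lit 336428) (nat_lit 29) (.e (nat_lit 450304) (nat_lit 3) .nil)))))) (.g (nat_lit 1) (.e (nat_lit 273239) (nat_lit 0) .nil) .nil))) 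
(.lf (nat_lit 542466) (.g (nat_lit 966) (.e (nat_lit 106240) (nat_lit 19) (.e (nat_lit 213032) (nat_lit 11) (.e (nat_lit 24608) (nat_lit 3) (.e (nat_lit 98363) (nat_lit 26) (.e (nat_lit 426230) (nat_lit 9) .nil))))) (.g (nat_lit 0) (.e (nat_lit 273987) (nat_lit 0) .nil) .nil))))) (.nd (nat_lit 8) (.nd (nat_lit 9) 
(.lf (nat_lit 541826) (.g (nat_lit 2149) (.e (nat_lit 98333) (nat_lit 18) (.e (nat_lit 164327) (nat_lit 230) (.e (nat_lit 163875) (nat_lit 3) (.e (nat_lit 204838) (nat_lit 20) (.e (nat_lit 114719) (nat_lit 23) .nil))))) (.g (nat_lit 0) (.e (nat_lit 273023) (nat_lit 0) .nil) .nil))) 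
(.lf (nat_lit 542338) (.g (nat_lit 2846) (.e (nat_lit 98335) (nat_lit 18) (.e (nat_lit 164332) (nat_lit 230) (.e (nat_lit 163905) (nat_lit 12) (.e (nat_lit 426494) (nat_lit 27) (.e (nat_lit 336408) (nat_lit 27) .nil))))) (.g (nat_lit 0) (.e (nat_lit 273817) (nat_lit 0) .nil) .nil)))) (.nd (nat_lit 9) 
(.lf (nat_lit 542082) (.g (nat_lit 3340) (.e (nat_lit 98335) (nat_lit 18) (.e (nat_lit 164182) (nat_lit 154) (.e (nat_lit 57409) (nat_lit 12) (.e (nat_lit 336454) (nat_lit 34) (.e (nat_lit 483385) (nat_lit 23) .nil))))) (.g (nat_lit 0) (.e (nat_lit 273475) (nat_lit 0) .nil) .nil))) 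
(.lf (nat_lit 542594) (.g (nat_lit 2923) (.e (nat_lit 98342) (nat_lit 20) (.e (nat_lit 221210) (nat_lit 22) (.e (nat_lit 196668) (nat_lit 14) (.e (nat_lit 73746) (nat_lit 3) (.e (nat_lit 516118) (nat_lit 1) (.e (nat_lit 164183) (nat_lit 154) (.e (nat_lit 57378) (nat_lit 3) .nil))))))) (.g (nat_lit 1) (.e (nat_lit 274135) (nat_lit 0) .nil) .nil)))))) 
(.nd (nat_lit 7) (.nd (nat_lit 8) (.nd (nat_lit 9) 
(.lf (nat_lit 541762) (.g (nat_lit 3256) (.e (nat_lit 98333) (nat_lit 18) (.e (nat_lit 164325) (nat_lit 230) (.e (nat_lit 163907) (nat_lit 12) (.e (nat_lit 426566) (nat_lit 34) (.e (nat_lit 393273) (nat_lit 23) (.e (nat_lit 426437) (nat_lit 18) .nil)))))) (.g (nat_lit 1) (.e (nat_lit 272917) (nat_lit 0) .nil) .nil))) 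
(.lf (nat_lit 542274) (.g (nat_lit 544) (.e (nat_lit 98335) (nat_lit 18) (.e (nat_lit 164330) (nat_lit 230) (.e (nat_lit 163908) (nat_lit 12) .nil))) (.g (nat_lit 0) (.e (nat_lit 273728) (nat_lit 0) .nil) .nil)))) (.nd (nat_lit 9) 
(.lf (nat_lit 542018) (.g (nat_lit 3471) (.e (nat_lit 98334) (nat_lit 18) (.e (nat_lit 164332) (nat_lit 230) (.e (nat_lit 163902) (nat_lit 12) (.e (nat_lit 426566) (nat_lit 34) (.e (nat_lit 393268) (nat_lit 23) (.e (nat_lit 426438) (nat_lit 18) .nil)))))) (.g (nat_lit 1) (.e (nat_lit 273381) (nat_lit 0) .nil) .nil))) 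
(.lf (nat_lit 542530) (.g (nat_lit 2383) (.e (nat_lit 98341) (nat_lit 20) (.e (nat_lit 221212) (nat_lit 22) (.e (nat_lit 196666) (nat_lit 13) (.e (nat_lit 65569) (nat_lit 3) (.e (nat_lit 98334) (nat_lit 18) .nil))))) (.g (nat_lit 0) (.e (nat_lit 274059) (nat_lit 0) .nil) .nil))))) (.nd (nat_lit 8) (.nd (nat_lit 9) 
(.lf (nat_lit 541890) (.g (nat_lit 1723) (.e (nat_lit 98333) (nat_lit 18) (.e (nat_lit 164332) (nat_lit 230) (.e (nat_lit 163905) (nat_lit 12) (.e (nat_lit 426479) (nat_lit 27) (.e (nat_lit 336427) (nat_lit 29) (.e (nat_lit 450304) (nat_lit 3) .nil)))))) (.g (nat_lit 1) (.e (nat_lit 273113) (nat_lit 0) .nil) .nil))) 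
(.lf (nat_lit 542402) (.g (nat_lit 1979) (.e (nat_lit 98337) (nat_lit 19) (.e (nat_lit 213032) (nat_lit 11) (.e (nat_lit 24609) (nat_lit 3) (.e (nat_lit 98358) (nat_lit 26) (.e (nat_lit 426227) (nat_lit 9) .nil))))) (.g (nat_lit 0) (.e (nat_lit 273897) (nat_lit 0) .nil) .nil)))) (.nd (nat_lit 9) 
(.lf (nat_lit 542146) (.g (nat_lit 1001) (.e (nat_lit 98335) (nat_lit 18) (.e (nat_lit 164325) (nat_lit 230) (.e (nat_lit 163903) (nat_lit 12) (.e (nat_lit 426479) (nat_lit 27) .nil)))) (.g (nat_lit 0) (.e (nat_lit 273570) (nat_lit 0) .nil) .nil))) 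
(.lf (nat_lit 542658) (.g (nat_lit 3752) (.e (nat_lit 98342) (nat_lit 20) (.e (nat_lit 221214) (nat_lit 23) (.e (nat_lit 204830) (nat_lit 18) (.e (nat_lit 57928) (nat_lit 282) (.e (nat_lit 163868) (nat_lit 2) (.e (nat_lit 196663) (nat_lit 13) (.e (nat_lit 65571) (nat_lit 3) .nil))))))) (.g (nat_lit 1) (.e (nat_lit 274201) (nat_lit 0) .nil) .nil))))))) 
(.nd (nat_lit 6) (.nd (nat_lit 7) (.nd (nat_lit 8) (.nd (nat_lit 9) 
(.lf (nat_lit 541730) (.g (nat_lit 4129) (.e (nat_lit 98333) (nat_lit 18) (.e (nat_lit 164325) (nat_lit 230) (.e (nat_lit 163902) (nat_lit 12) (.e (nat_lit 426566) (nat_lit 34) (.e (nat_lit 393271) (nat_lit 23) (.e (nat_lit 426436) (nat_lit 18) .nil)))))) (.g (nat_lit 1) (.e (nat_lit 272884) (nat_lit 0) .nil) .nil))) 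
(.lf (nat_lit 542242) (.g (nat_lit 3270) (.e (nat_lit 98335) (nat_lit 18) (.e (nat_lit 164330) (nat_lit 230) (.e (nat_lit 163851) (nat_lit 0) (.e (nat_lit 3307) (nat_lit 202) (.e (nat_lit 573489) (nat_lit 14) (.e (nat_lit 73754) (nat_lit 8) (.e (nat_lit 557095) (nat_lit 13) (.e (nat_lit 179968) (nat_lit 18) .nil)))))))) (.g (nat_lit 1) (.e (nat_lit 273689) (nat_lit 0) .nil) .nil)))) 
(.nd (nat_lit 9) 
(.lf (nat_lit 541986) (.g (nat_lit 4155) (.e (nat_lit 98334) (nat_lit 18) (.e (nat_lit 164330) (nat_lit 230) (.e (nat_lit 163902) (nat_lit 12) (.e (nat_lit 426566) (nat_lit 34) (.e (nat_lit 393271) (nat_lit 23) (.e (nat_lit 426436) (nat_lit 18) .nil)))))) (.g (nat_lit 1) (.e (nat_lit 273300) (nat_lit 0) .nil) .nil))) 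
(.lf (nat_lit 542498) (.g (nat_lit 1726) (.e (nat_lit 98341) (nat_lit 20) (.e (nat_lit 221193) (nat_lit 11) (.e (nat_lit 336012) (nat_lit 2) (.e (nat_lit 90178) (nat_lit 15) (.e (nat_lit 196352) (nat_lit 3) .nil))))) (.g (nat_lit 1) (.e (nat_lit 274021) (nat_lit 0) .nil) .nil))))) (.nd (nat_lit 8) (.nd (nat_lit 9) 
(.lf (nat_lit 541858) (.g (nat_lit 1740) (.e (nat_lit 98333) (nat_lit 18) (.e (nat_lit 164327) (nat_lit 230) (.e (nat_lit 163944) (nat_lit 19) (.e (nat_lit 483333) (nat_lit 0) (.e (nat_lit 6988) (nat_lit 377) .nil))))) (.g (nat_lit 0) (.e (nat_lit 273065) (nat_lit 0) .nil) .nil))) 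
(.lf (nat_lit 542370) (.g (nat_lit 2443) (.e (nat_lit 98335) (nat_lit 18) (.e (nat_lit 164403) (nat_lit 256) (.e (nat_lit 57378) (nat_lit 3) (.e (nat_lit 98366) (nat_lit 27) (.e (nat_lit 434231) (nat_lit 23) .nil))))) (.g (nat_lit 0) (.e (nat_lit 273862) (nat_lit 0) .nil) .nil)))) (.nd (nat_lit 9) 
(.lf (nat_lit 542114) (.g (nat_lit 1285) (.e (nat_lit 98335) (nat_lit 18) (.e (nat_lit 164322) (nat_lit 230) (.e (nat_lit 163902) (nat_lit 12) (.e (nat_lit 426568) (nat_lit 34) .nil)))) (.g (nat_lit 0) (.e (nat_lit 273527) (nat_lit 0) .nil) .nil))) 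
(.lf (nat_lit 542626) (.g (nat_lit 1654) (.e (nat_lit 98342) (nat_lit 20) (.e (nat_lit 221212) (nat_lit 22) (.e (nat_lit 196668) (nat_lit 14) (.e (nat_lit 73747) (nat_lit 3) (.e (nat_lit 516118) (nat_lit 1) .nil))))) (.g (nat_lit 0) (.e (nat_lit 274167) (nat_lit 0) .nil) .nil)))))) (.nd (nat_lit 7) (.nd (nat_lit 8) (.nd (nat_lit 9) 
(.lf (nat_lit 541794) (.g (nat_lit 3161) (.e (nat_lit 98333) (nat_lit 18) (.e (nat_lit 164327) (nat_lit 230) (.e (nat_lit 163868) (nat_lit 2) (.e (nat_lit 196656) (nat_lit 11) (.e (nat_lit 16415) (nat_lit 3) .nil))))) (.g (nat_lit 0) (.e (nat_lit 272980) (nat_lit 0) .nil) .nil))) 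
(.lf (nat_lit 542306) (.g (nat_lit 3576) (.e (nat_lit 98335) (nat_lit 18) (.e (nat_lit 164332) (nat_lit 230) (.e (nat_lit 163874) (nat_lit 3) (.e (nat_lit 204838) (nat_lit 20) (.e (nat_lit 114719) (nat_lit 23) (.e (nat_lit 98356) (nat_lit 26) (.e (nat_lit 426438) (nat_lit 18) .nil))))))) (.g (nat_lit 1) (.e (nat_lit 273783) (nat_lit 0) .nil) .nil)))) (.nd (nat_lit 9) 
(.lf (nat_lit 542050) (.g (nat_lit 2467) (.e (nat_lit 98334) (nat_lit 18) (.e (nat_lit 164398) (nat_lit 256) (.e (nat_lit 57379) (nat_lit 3) (.e (nat_lit 98367) (nat_lit 27) (.e (nat_lit 434232) (nat_lit 23) .nil))))) (.g (nat_lit 0) (.e (nat_lit 273434) (nat_lit 0) .nil) .nil))) 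
(.lf (nat_lit 542562) (.g (nat_lit 2150) (.e (nat_lit 98341) (nat_lit 20) (.e (nat_lit 221215) (nat_lit 23) (.e (nat_lit 204830) (nat_lit 18) (.e (nat_lit 57926) (nat_lit 282) (.e (nat_lit 163875) (nat_lit 3) .nil))))) (.g (nat_lit 0) (.e (nat_lit 274094) (nat_lit 0) .nil) .nil))))) (.nd (nat_lit 8) (.nd (nat_lit 9) 
(.lf (nat_lit 541922) (.g (nat_lit 766) (.e (nat_lit 98333) (nat_lit 18) (.e (nat_lit 164403) (nat_lit 256) (.e (nat_lit 57588) (nat_lit 73) .nil))) (.g (nat_lit 0) (.e (nat_lit 273159) (nat_lit 0) .nil) .nil))) 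
(.lf (nat_lit 542434) (.g (nat_lit 1120) (.e (nat_lit 98339) (nat_lit 19) (.e (nat_lit 213030) (nat_lit 11) (.e (nat_lit 24605) (nat_lit 2) (.e (nat_lit 90176) (nat_lit 15) (.e (nat_lit 196352) (nat_lit 3) .nil))))) (.g (nat_lit 1) (.e (nat_lit 273952) (nat_lit 0) .nil) .nil)))) (.nd (nat_lit 9) 
(.lf (nat_lit 542178) (.g (nat_lit 1824) (.e (nat_lit 98335) (nat_lit 18) (.e (nat_lit 164327) (nat_lit 230) (.e (nat_lit 163873) (nat_lit 3) (.e (nat_lit 204809) (nat_lit 9) .nil)))) (.g (nat_lit 0) (.e (nat_lit 273609) (nat_lit 0) .nil) .nil))) 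
(.lf (nat_lit 542690) (.g (nat_lit 3551) (.e (nat_lit 98342) (nat_lit 20) (.e (nat_lit 221215) (nat_lit 23) (.e (nat_lit 204831) (nat_lit 18) (.e (nat_lit 57931) (nat_lit 282) (.e (nat_lit 163869) (nat_lit 2) (.e (nat_lit 196664) (nat_lit 13) (.e (nat_lit 65571) (nat_lit 3) .nil))))))) (.g (nat_lit 1) (.e (nat_lit 274236) (nat_lit 0) .nil) .nil)))))))) 
(.nd (nat_lit 5) (.nd (nat_lit 6) (.nd (nat_lit 7) (.nd (nat_lit 8) (.nd (nat_lit 9) 
(.lf (nat_lit 541714) (.g (nat_lit 1567) (.e (nat_lit 98333) (nat_lit 18) (.e (nat_lit 164325) (nat_lit 230) (.e (nat_lit 163869) (nat_lit 2) (.e (nat_lit 196656) (nat_lit 11) .nil)))) (.g (nat_lit 0) (.e (nat_lit 272859) (nat_lit 0) .nil) .nil))) 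
(.lf (nat_lit 542226) (.g (nat_lit 2014) (.e (nat_lit 98335) (nat_lit 18) (.e (nat_lit 164329) (nat_lit 230) (.e (nat_lit 163902) (nat_lit 12) (.e (nat_lit 426568) (nat_lit 34) (.e (nat_lit 393275) (nat_lit 23) (.e (nat_lit 433920) (nat_lit 18) .nil)))))) (.g (nat_lit 1) (.e (nat_lit 273665) (nat_lit 0) .nil) .nil)))) (.nd (nat_lit 9) 
(.lf (nat_lit 541970) (.g (nat_lit 4401) (.e (nat_lit 98334) (nat_lit 18) (.e (nat_lit 164330) (nat_lit 230) (.e (nat_lit 163867) (nat_lit 2) (.e (nat_lit 196656) (nat_lit 11) (.e (nat_lit 16416) (nat_lit 3) (.e (nat_lit 204837) (nat_lit 20) (.e (nat_lit 114719) (nat_lit 23) .nil))))))) (.g (nat_lit 1) (.e (nat_lit 273270) (nat_lit 0) .nil) .nil))) 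
(.lf (nat_lit 542482) (.g (nat_lit 2950) (.e (nat_lit 98340) (nat_lit 20) (.e (nat_lit 221212) (nat_lit 22) (.e (nat_lit 196670) (nat_lit 14) (.e (nat_lit 73746) (nat_lit 3) (.e (nat_lit 516120) (nat_lit 1) (.e (nat_lit 164180) (nat_lit 154) (.e (nat_lit 57379) (nat_lit 3) .nil))))))) (.g (nat_lit 1) (.e (nat_lit 274003) (nat_lit 0) .nil) .nil))))) (.nd (nat_lit 8) (.nd (nat_lit 9) 
(.lf (nat_lit 541842) (.g (nat_lit 2630) (.e (nat_lit 98333) (nat_lit 18) (.e (nat_lit 164327) (nat_lit 230) (.e (nat_lit 163903) (nat_lit 12) (.e (nat_lit 426568) (nat_lit 34) (.e (nat_lit 393267) (nat_lit 23) (.e (nat_lit 426434) (nat_lit 18) .nil)))))) (.g (nat_lit 1) (.e (nat_lit 273040) (nat_lit 0) .nil) .nil))) 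
(.lf (nat_lit 542354) (.g (nat_lit 565) (.e (nat_lit 98335) (nat_lit 18) (.e (nat_lit 164332) (nat_lit 230) (.e (nat_lit 171776) (nat_lit 12) .nil))) (.g (nat_lit 0) (.e (nat_lit 273834) (nat_lit 0) .nil) .nil)))) (.nd (nat_lit 9) 
(.lf (nat_lit 542098) (.g (nat_lit 3826) (.e (nat_lit 98335) (nat_lit 18) (.e (nat_lit 164305) (nat_lit 226) (.e (nat_lit 2612) (nat_lit 163) (.e (nat_lit 163977) (nat_lit 30) (.e (nat_lit 573489) (nat_lit 14) (.e (nat_lit 73755) (nat_lit 8) (.e (nat_lit 557096) (nat_lit 13) (.e (nat_lit 179968) (nat_lit 18) .nil)))))))) (.g (nat_lit 1) (.e (nat_lit 273508) (nat_lit 0) .nil) .nil))) 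
(.lf (nat_lit 542610) (.g (nat_lit 3687) (.e (nat_lit 98342) (nat_lit 20) (.e (nat_lit 221210) (nat_lit 22) (.e (nat_lit 196670) (nat_lit 14) (.e (nat_lit 73746) (nat_lit 3) (.e (nat_lit 516120) (nat_lit 1) (.e (nat_lit 164180) (nat_lit 154) (.e (nat_lit 57378) (nat_lit 3) .nil))))))) (.g (nat_lit 1) (.e (nat_lit 274151) (nat_lit 0) .nil) .nil)))))) 
(.nd (nat_lit 7) (.nd (nat_lit 8) (.nd (nat_lit 9) 
(.lf (nat_lit 541778) (.g (nat_lit 1017) (.e (nat_lit 98333) (nat_lit 18) (.e (nat_lit 164325) (nat_lit 230) (.e (nat_lit 163941) (nat_lit 19) (.e (nat_lit 483341) (nat_lit 9) .nil)))) (.g (nat_lit 0) (.e (nat_lit 272937) (nat_lit 0) .nil) .nil))) 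
(.lf (nat_lit 542290) (.g (nat_lit 2325) (.e (nat_lit 98335) (nat_lit 18) (.e (nat_lit 164330) (nat_lit 230) (.e (nat_lit 163943) (nat_lit 19) (.e (nat_lit 483341) (nat_lit 9) (.e (nat_lit 426198) (nat_lit 9) (.e (nat_lit 433920) (nat_lit 18) .nil)))))) (.g (nat_lit 1) (.e (nat_lit 273754) (nat_lit 0) .nil) .nil)))) (.nd (nat_lit 9) 
(.lf (nat_lit 542034) (.g (nat_lit 2791) (.e (nat_lit 98334) (nat_lit 18) (.e (nat_lit 164332) (nat_lit 230) (.e (nat_lit 163905) (nat_lit 12) (.e (nat_lit 426566) (nat_lit 34) (.e (nat_lit 393273) (nat_lit 23) (.e (nat_lit 426434) (nat_lit 18) .nil)))))) (.g (nat_lit 1) (.e (nat_lit 273398) (nat_lit 0) .nil) .nil))) 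
(.lf (nat_lit 542546) (.g (nat_lit 2030) (.e (nat_lit 98341) (nat_lit 20) (.e (nat_lit 221212) (nat_lit 22) (.e (nat_lit 196681) (nat_lit 17) (.e (nat_lit 131095) (nat_lit 3) .nil)))) (.g (nat_lit 0) (.e (nat_lit 274075) (nat_lit 0) .nil) .nil))))) (.nd (nat_lit 8) (.nd (nat_lit 9) 
(.lf (nat_lit 541906) (.g (nat_lit 1391) (.e (nat_lit 98333) (nat_lit 18) (.e (nat_lit 164399) (nat_lit 256) (.e (nat_lit 57347) (nat_lit 0) (.e (nat_lit 1691) (nat_lit 117) .nil)))) (.g (nat_lit 0) (.e (nat_lit 273138) (nat_lit 0) .nil) .nil))) 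
(.lf (nat_lit 542418) (.g (nat_lit 2044) (.e (nat_lit 98338) (nat_lit 19) (.e (nat_lit 213032) (nat_lit 11) (.e (nat_lit 24608) (nat_lit 3) (.e (nat_lit 98363) (nat_lit 26) (.e (nat_lit 426228) (nat_lit 9) (.e (nat_lit 426435) (nat_lit 18) .nil)))))) (.g (nat_lit 1) (.e (nat_lit 273918) (nat_lit 0) .nil) .nil)))) (.nd (nat_lit 9) 
(.lf (nat_lit 542162) (.g (nat_lit 627) (.e (nat_lit 98335) (nat_lit 18) (.e (nat_lit 164325) (nat_lit 230) (.e (nat_lit 163947) (nat_lit 20) .nil))) (.g (nat_lit 0) (.e (nat_lit 273590) (nat_lit 0) .nil) .nil))) 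
(.lf (nat_lit 542674) (.g (nat_lit 4484) (.e (nat_lit 98342) (nat_lit 20) (.e (nat_lit 221215) (nat_lit 23) (.e (nat_lit 204829) (nat_lit 18) (.e (nat_lit 57927) (nat_lit 282) (.e (nat_lit 163870) (nat_lit 2) (.e (nat_lit 196666) (nat_lit 13) (.e (nat_lit 65569) (nat_lit 3) .nil))))))) (.g (nat_lit 1) (.e (nat_lit 274217) (nat_lit 0) .nil) .nil))))))) 
(.nd (nat_lit 6) (.nd (nat_lit 7) (.nd (nat_lit 8) (.nd (nat_lit 9) 
(.lf (nat_lit 541746) (.g (nat_lit 2953) (.e (nat_lit 98333) (nat_lit 18) (.e (nat_lit 164325) (nat_lit 230) (.e (nat_lit 163903) (nat_lit 12) (.e (nat_lit 426568) (nat_lit 34) (.e (nat_lit 393279) (nat_lit 23) (.e (nat_lit 426433) (nat_lit 18) .nil)))))) (.g (nat_lit 1) (.e (nat_lit 272900) (nat_lit 0) .nil) .nil))) 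
(.lf (nat_lit 542258) (.g (nat_lit 2724) (.e (nat_lit 98335) (nat_lit 18) (.e (nat_lit 164330) (nat_lit 230) (.e (nat_lit 163902) (nat_lit 12) (.e (nat_lit 426479) (nat_lit 27) (.e (nat_lit 336430) (nat_lit 29) (.e (nat_lit 450304) (nat_lit 3) .nil)))))) (.g (nat_lit 1) (.e (nat_lit 273712) (nat_lit 0) .nil) .nil)))) (.nd (nat_lit 9) 
(.lf (nat_lit 542002) (.g (nat_lit 2864) (.e (nat_lit 98334) (nat_lit 18) (.e (nat_lit 164331) (nat_lit 230) (.e (nat_lit 163902) (nat_lit 12) (.e (nat_lit 426566) (nat_lit 34) (.e (nat_lit 393270) (nat_lit 23) (.e (nat_lit 426436) (nat_lit 18) .nil)))))) (.g (nat_lit 1) (.e (nat_lit 273342) (nat_lit 0) .nil) .nil))) 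
(.lf (nat_lit 542514) (.g (nat_lit 3575) (.e (nat_lit 98341) (nat_lit 20) (.e (nat_lit 221210) (nat_lit 22) (.e (nat_lit 196668) (nat_lit 14) (.e (nat_lit 73747) (nat_lit 3) (.e (nat_lit 516117) (nat_lit 1) (.e (nat_lit 164180) (nat_lit 154) (.e (nat_lit 57378) (nat_lit 3) .nil))))))) (.g (nat_lit 1) (.e (nat_lit 274043) (nat_lit 0) .nil) .nil))))) (.nd (nat_lit 8) (.nd (nat_lit 9) 
(.lf (nat_lit 541874) (.g (nat_lit 2227) (.e (nat_lit 98333) (nat_lit 18) (.e (nat_lit 164332) (nat_lit 230) (.e (nat_lit 163902) (nat_lit 12) (.e (nat_lit 426479) (nat_lit 27) (.e (nat_lit 336414) (nat_lit 27) (.e (nat_lit 426228) (nat_lit 9) (.e (nat_lit 426435) (nat_lit 18) .nil))))))) (.g (nat_lit 1) (.e (nat_lit 273097) (nat_lit 0) .nil) .nil))) 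
(.lf (nat_lit 542386) (.g (nat_lit 1853) (.e (nat_lit 98336) (nat_lit 19) (.e (nat_lit 213032) (nat_lit 11) (.e (nat_lit 24608) (nat_lit 3) (.e (nat_lit 98381) (nat_lit 31) (.e (nat_lit 474880) (nat_lit 3) .nil))))) (.g (nat_lit 0) (.e (nat_lit 273881) (nat_lit 0) .nil) .nil)))) (.nd (nat_lit 9) 
(.lf (nat_lit 542130) (.g (nat_lit 3553) (.e (nat_lit 98335) (nat_lit 18) (.e (nat_lit 164324) (nat_lit 230) (.e (nat_lit 163903) (nat_lit 12) (.e (nat_lit 426566) (nat_lit 34) (.e (nat_lit 393268) (nat_lit 23) (.e (nat_lit 426438) (nat_lit 18) .nil)))))) (.g (nat_lit 1) (.e (nat_lit 273544) (nat_lit 0) .nil) .nil))) 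
(.lf (nat_lit 542642) (.g (nat_lit 3607) (.e (nat_lit 98342) (nat_lit 20) (.e (nat_lit 221214) (nat_lit 23) (.e (nat_lit 204829) (nat_lit 18) (.e (nat_lit 57926) (nat_lit 282) (.e (nat_lit 163869) (nat_lit 2) (.e (nat_lit 196666) (nat_lit 13) (.e (nat_lit 65569) (nat_lit 3) .nil))))))) (.g (nat_lit 1) (.e (nat_lit 274183) (nat_lit 0) .nil) .nil)))))) 
(.nd (nat_lit 7) (.nd (nat_lit 8) (.nd (nat_lit 9) 
(.lf (nat_lit 541810) (.g (nat_lit 1536) (.e (nat_lit 98333) (nat_lit 18) (.e (nat_lit 164327) (nat_lit 230) (.e (nat_lit 163873) (nat_lit 3) (.e (nat_lit 204809) (nat_lit 9) .nil)))) (.g (nat_lit 0) (.e (nat_lit 273000) (nat_lit 0) .nil) .nil))) 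
(.lf (nat_lit 542322) (.g (nat_lit 2024) (.e (nat_lit 98335) (nat_lit 18) (.e (nat_lit 164332) (nat_lit 230) (.e (nat_lit 163905) (nat_lit 12) (.e (nat_lit 426478) (nat_lit 27) .nil)))) (.g (nat_lit 0) (.e (nat_lit 273801) (nat_lit 0) .nil) .nil)))) (.nd (nat_lit 9) 
(.lf (nat_lit 542066) (.g (nat_lit 2607) (.e (nat_lit 98334) (nat_lit 18) (.e (nat_lit 164403) (nat_lit 256) (.e (nat_lit 57378) (nat_lit 3) (.e (nat_lit 98366) (nat_lit 27) (.e (nat_lit 434231) (nat_lit 23) .nil))))) (.g (nat_lit 0) (.e (nat_lit 273452) (nat_lit 0) .nil) .nil))) 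
(.lf (nat_lit 542578) (.g (nat_lit 3330) (.e (nat_lit 98341) (nat_lit 20) (.e (nat_lit 221215) (nat_lit 23) (.e (nat_lit 204863) (nat_lit 27) (.e (nat_lit 344117) (nat_lit 21) (.e (nat_lit 516099) (nat_lit 0) (.e (nat_lit 2474) (nat_lit 157) (.e (nat_lit 6401) (nat_lit 339) (.e (nat_lit 57378) (nat_lit 3) .nil)))))))) (.g (nat_lit 1) (.e (nat_lit 274110) (nat_lit 0) .nil) .nil))))) 
(.nd (nat_lit 8) (.nd (nat_lit 9) 
(.lf (nat_lit 541938) (.g (nat_lit 4339) (.e (nat_lit 98334) (nat_lit 18) (.e (nat_lit 164305) (nat_lit 226) (.e (nat_lit 2612) (nat_lit 163) (.e (nat_lit 163977) (nat_lit 30) (.e (nat_lit 573489) (nat_lit 14) (.e (nat_lit 73755) (nat_lit 8) (.e (nat_lit 557097) (nat_lit 13) (.e (nat_lit 179968) (nat_lit 18) .nil)))))))) (.g (nat_lit 1) (.e (nat_lit 273215) (nat_lit 0) .nil) .nil))) 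
(.lf (nat_lit 542450) (.g (nat_lit 1474) (.e (nat_lit 98339) (nat_lit 19) (.e (nat_lit 213032) (nat_lit 11) (.e (nat_lit 24605) (nat_lit 2) (.e (nat_lit 90178) (nat_lit 15) (.e (nat_lit 196352) (nat_lit 3) .nil))))) (.g (nat_lit 1) (.e (nat_lit 273971) (nat_lit 0) .nil) .nil)))) (.nd (nat_lit 9) 
(.lf (nat_lit 542194) (.g (nat_lit 2481) (.e (nat_lit 98335) (nat_lit 18) (.e (nat_lit 164327) (nat_lit 230) (.e (nat_lit 163903) (nat_lit 12) (.e (nat_lit 426479) (nat_lit 27) (.e (nat_lit 336430) (nat_lit 29) (.e (nat_lit 450304) (nat_lit 3) .nil)))))) (.g (nat_lit 1) (.e (nat_lit 273627) (nat_lit 0) .nil) .nil))) 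
(.lf (nat_lit 542706) (.g (nat_lit 3407) (.e (nat_lit 98342) (nat_lit 20) (.e (nat_lit 221215) (nat_lit 23) (.e (nat_lit 204863) (nat_lit 27) (.e (nat_lit 344117) (nat_lit 21) (.e (nat_lit 516099) (nat_lit 0) (.e (nat_lit 2464) (nat_lit 157) (.e (nat_lit 6398) (nat_lit 339) (.e (nat_lit 57379) (nat_lit 3) .nil)))))))) (.g (nat_lit 1) (.e (nat_lit 274252) (nat_lit 0) .nil) .nil))))))))) 
(.nd (nat_lit 4) (.nd (nat_lit 5) (.nd (nat_lit 6) (.nd (nat_lit 7) (.nd (nat_lit 8) 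
(.nd (nat_lit 9) 
(.lf (nat_lit 541706) (.g (nat_lit 3761) (.e (nat_lit 98333) (nat_lit 18) (.e (nat_lit 164183) (nat_lit 154) (.e (nat_lit 57379) (nat_lit 3) (.e (nat_lit 98342) (nat_lit 20) (.e (nat_lit 221212) (nat_lit 22) (.e (nat_lit 196681) (nat_lit 17) (.e (nat_lit 131096) (nat_lit 3) .nil))))))) (.g (nat_lit 1) (.e (nat_lit 272838) (nat_lit 0) .nil) .nil))) 
(.lf (nat_lit 542218) (.g (nat_lit 1121) (.e (nat_lit 98335) (nat_lit 18) (.e (nat_lit 164327) (nat_lit 230) (.e (nat_lit 163944) (nat_lit 19) (.e (nat_lit 491264) (nat_lit 11) .nil)))) (.g (nat_lit 0) (.e (nat_lit 273655) (nat_lit 0) .nil) .nil)))) (.nd (nat_lit 9) 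
(.lf (nat_lit 541962) (.g (nat_lit 3983) (.e (nat_lit 98334) (nat_lit 18) (.e (nat_lit 164330) (nat_lit 230) (.e (nat_lit 163840) (nat_lit 0) (.e (nat_lit 3307) (nat_lit 202) (.e (nat_lit 573489) (nat_lit 14) (.e (nat_lit 73755) (nat_lit 8) (.e (nat_lit 557097) (nat_lit 13) (.e (nat_lit 179968) (nat_lit 18) .nil)))))))) (.g (nat_lit 1) (.e (nat_lit 273249) (nat_lit 0) .nil) .nil))) 
(.lf (nat_lit 542474) (.g (nat_lit 2534) (.e (nat_lit 98340) (nat_lit 20) (.e (nat_lit 221210) (nat_lit 22) (.e (nat_lit 196666) (nat_lit 13) (.e (nat_lit 65571) (nat_lit 3) (.e (nat_lit 98333) (nat_lit 18) .nil))))) (.g (nat_lit 0) (.e (nat_lit 273995) (nat_lit 0) .nil) .nil))))) (.nd (nat_lit 8) (.nd (nat_lit 9) 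
(.lf (nat_lit 541834) (.g (nat_lit 2090) (.e (nat_lit 98333) (nat_lit 18) (.e (nat_lit 164327) (nat_lit 230) (.e (nat_lit 163903) (nat_lit 12) (.e (nat_lit 426480) (nat_lit 27) .nil)))) (.g (nat_lit 0) (.e (nat_lit 273031) (nat_lit 0) .nil) .nil))) 
(.lf (nat_lit 542346) (.g (nat_lit 2317) (.e (nat_lit 98335) (nat_lit 18) (.e (nat_lit 164332) (nat_lit 230) (.e (nat_lit 163905) (nat_lit 12) (.e (nat_lit 426507) (nat_lit 27) .nil)))) (.g (nat_lit 0) (.e (nat_lit 273825) (nat_lit 0) .nil) .nil)))) (.nd (nat_lit 9) 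
(.lf (nat_lit 542090) (.g (nat_lit 2841) (.e (nat_lit 98335) (nat_lit 18) (.e (nat_lit 164183) (nat_lit 154) (.e (nat_lit 57379) (nat_lit 3) (.e (nat_lit 98341) (nat_lit 20) (.e (nat_lit 221212) (nat_lit 22) (.e (nat_lit 196681) (nat_lit 17) (.e (nat_lit 131098) (nat_lit 3) .nil))))))) (.g (nat_lit 1) (.e (nat_lit 273487) (nat_lit 0) .nil) .nil))) 
(.lf (nat_lit 542602) (.g (nat_lit 4331) (.e (nat_lit 98342) (nat_lit 20) (.e (nat_lit 221210) (nat_lit 22) (.e (nat_lit 196668) (nat_lit 14) (.e (nat_lit 73747) (nat_lit 3) (.e (nat_lit 516117) (nat_lit 1) (.e (nat_lit 164182) (nat_lit 154) (.e (nat_lit 57379) (nat_lit 3) .nil))))))) (.g (nat_lit 1) (.e (nat_lit 274143) (nat_lit 0) .nil) .nil)))))) 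
(.nd (nat_lit 7) (.nd (nat_lit 8) (.nd (nat_lit 9) 
(.lf (nat_lit 541770) (.g (nat_lit 5041) (.e (nat_lit 98333) (nat_lit 18) (.e (nat_lit 164325) (nat_lit 230) (.e (nat_lit 163928) (nat_lit 16) (.e (nat_lit 458789) (nat_lit 23) (.e (nat_lit 532530) (nat_lit 9) (.e (nat_lit 336310) (nat_lit 16) (.e (nat_lit 164183) (nat_lit 154) (.e (nat_lit 57378) (nat_lit 3) .nil)))))))) (.g (nat_lit 1) (.e (nat_lit 272925) (nat_lit 0) .nil) .nil))) 
(.lf (nat_lit 542282) (.g (nat_lit 1302) (.e (nat_lit 98335) (nat_lit 18) (.e (nat_lit 164330) (nat_lit 230) (.e (nat_lit 163941) (nat_lit 19) (.e (nat_lit 483339) (nat_lit 9) (.e (nat_lit 426262) (nat_lit 9) .nil))))) (.g (nat_lit 0) (.e (nat_lit 273742) (nat_lit 0) .nil) .nil)))) (.nd (nat_lit 9) 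
(.lf (nat_lit 542026) (.g (nat_lit 1418) (.e (nat_lit 98334) (nat_lit 18) (.e (nat_lit 164332) (nat_lit 230) (.e (nat_lit 163905) (nat_lit 12) (.e (nat_lit 426479) (nat_lit 27) (.e (nat_lit 336427) (nat_lit 29) (.e (nat_lit 450304) (nat_lit 3) .nil)))))) (.g (nat_lit 1) (.e (nat_lit 273389) (nat_lit 0) .nil) .nil))) 
(.lf (nat_lit 542538) (.g (nat_lit 3196) (.e (nat_lit 98341) (nat_lit 20) (.e (nat_lit 221212) (nat_lit 22) (.e (nat_lit 196668) (nat_lit 14) (.e (nat_lit 73747) (nat_lit 3) (.e (nat_lit 516119) (nat_lit 1) (.e (nat_lit 164183) (nat_lit 154) (.e (nat_lit 57378) (nat_lit 3) .nil))))))) (.g (nat_lit 1) (.e (nat_lit 274067) (nat_lit 0) .nil) .nil))))) (.nd (nat_lit 8) (.nd (nat_lit 9) 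
(.lf (nat_lit 541898) (.g (nat_lit 2107) (.e (nat_lit 98333) (nat_lit 18) (.e (nat_lit 164332) (nat_lit 230) (.e (nat_lit 163943) (nat_lit 19) (.e (nat_lit 483341) (nat_lit 9) (.e (nat_lit 426198) (nat_lit 9) (.e (nat_lit 433920) (nat_lit 18) .nil)))))) (.g (nat_lit 1) (.e (nat_lit 273130) (nat_lit 0) .nil) .nil))) 
(.lf (nat_lit 542410) (.g (nat_lit 1925) (.e (nat_lit 98338) (nat_lit 19) (.e (nat_lit 213030) (nat_lit 11) (.e (nat_lit 24608) (nat_lit 3) (.e (nat_lit 98363) (nat_lit 26) (.e (nat_lit 426230) (nat_lit 9) (.e (nat_lit 426435) (nat_lit 18) .nil)))))) (.g (nat_lit 1) (.e (nat_lit 273909) (nat_lit 0) .nil) .nil)))) (.nd (nat_lit 9) 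
(.lf (nat_lit 542154) (.g (nat_lit 1405) (.e (nat_lit 98335) (nat_lit 18) (.e (nat_lit 164325) (nat_lit 230) (.e (nat_lit 163907) (nat_lit 12) (.e (nat_lit 426558) (nat_lit 33) .nil)))) (.g (nat_lit 0) (.e (nat_lit 273578) (nat_lit 0) .nil) .nil))) 
(.lf (nat_lit 542666) (.g (nat_lit 1488) (.e (nat_lit 98342) (nat_lit 20) (.e (nat_lit 221214) (nat_lit 23) (.e (nat_lit 204861) (nat_lit 26) (.e (nat_lit 336026) (nat_lit 3) .nil)))) (.g (nat_lit 0) (.e (nat_lit 274209) (nat_lit 0) .nil) .nil))))))) (.nd (nat_lit 6) (.nd (nat_lit 7) (.nd (nat_lit 8) (.nd (nat_lit 9) 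
(.lf (nat_lit 541738) (.g (nat_lit 2732) (.e (nat_lit 98333) (nat_lit 18) (.e (nat_lit 164325) (nat_lit 230) (.e (nat_lit 163903) (nat_lit 12) (.e (nat_lit 426479) (nat_lit 27) (.e (nat_lit 336443) (nat_lit 32) (.e (nat_lit 474880) (nat_lit 3) .nil)))))) (.g (nat_lit 1) (.e (nat_lit 272892) (nat_lit 0) .nil) .nil))) 
(.lf (nat_lit 542250) (.g (nat_lit 4819) (.e (nat_lit 98335) (nat_lit 18) (.e (nat_lit 164330) (nat_lit 230) (.e (nat_lit 163853) (nat_lit 0) (.e (nat_lit 3307) (nat_lit 202) (.e (nat_lit 573489) (nat_lit 14) (.e (nat_lit 73755) (nat_lit 8) (.e (nat_lit 557098) (nat_lit 13) (.e (nat_lit 179968) (nat_lit 18) .nil)))))))) (.g (nat_lit 1) (.e (nat_lit 273697) (nat_lit 0) .nil) .nil)))) 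
(.nd (nat_lit 9) 
(.lf (nat_lit 541994) (.g (nat_lit 2338) (.e (nat_lit 98334) (nat_lit 18) (.e (nat_lit 164330) (nat_lit 230) (.e (nat_lit 163905) (nat_lit 12) (.e (nat_lit 426486) (nat_lit 27) (.e (nat_lit 336426) (nat_lit 29) (.e (nat_lit 450304) (nat_lit 3) .nil)))))) (.g (nat_lit 1) (.e (nat_lit 273308) (nat_lit 0) .nil) .nil))) 
(.lf (nat_lit 542506) (.g (nat_lit 3176) (.e (nat_lit 98341) (nat_lit 20) (.e (nat_lit 221210) (nat_lit 22) (.e (nat_lit 196666) (nat_lit 13) (.e (nat_lit 65571) (nat_lit 3) (.e (nat_lit 98333) (nat_lit 18) (.e (nat_lit 164182) (nat_lit 154) (.e (nat_lit 57378) (nat_lit 3) .nil))))))) (.g (nat_lit 1) (.e (nat_lit 274035) (nat_lit 0) .nil) .nil))))) (.nd (nat_lit 8) (.nd (nat_lit 9) 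
(.lf (nat_lit 541866) (.g (nat_lit 2069) (.e (nat_lit 98333) (nat_lit 18) (.e (nat_lit 164330) (nat_lit 230) (.e (nat_lit 163941) (nat_lit 19) (.e (nat_lit 483341) (nat_lit 9) (.e (nat_lit 426198) (nat_lit 9) .nil))))) (.g (nat_lit 0) (.e (nat_lit 273080) (nat_lit 0) .nil) .nil))) 
(.lf (nat_lit 542378) (.g (nat_lit 1369) (.e (nat_lit 98336) (nat_lit 19) (.e (nat_lit 213032) (nat_lit 11) (.e (nat_lit 24604) (nat_lit 2) (.e (nat_lit 90178) (nat_lit 15) .nil)))) (.g (nat_lit 0) (.e (nat_lit 273873) (nat_lit 0) .nil) .nil)))) (.nd (nat_lit 9) 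
(.lf (nat_lit 542122) (.g (nat_lit 1231) (.e (nat_lit 98335) (nat_lit 18) (.e (nat_lit 164324) (nat_lit 230) (.e (nat_lit 163903) (nat_lit 12) (.e (nat_lit 426478) (nat_lit 27) .nil)))) (.g (nat_lit 0) (.e (nat_lit 273535) (nat_lit 0) .nil) .nil))) 
(.lf (nat_lit 542634) (.g (nat_lit 4821) (.e (nat_lit 98342) (nat_lit 20) (.e (nat_lit 221212) (nat_lit 22) (.e (nat_lit 196670) (nat_lit 14) (.e (nat_lit 73746) (nat_lit 3) (.e (nat_lit 516120) (nat_lit 1) (.e (nat_lit 164182) (nat_lit 154) (.e (nat_lit 57379) (nat_lit 3) .nil))))))) (.g (nat_lit 1) (.e (nat_lit 274175) (nat_lit 0) .nil) .nil)))))) 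
(.nd (nat_lit 7) (.nd (nat_lit 8) (.nd (nat_lit 9) 
(.lf (nat_lit 541802) (.g (nat_lit 2873) (.e (nat_lit 98333) (nat_lit 18) (.e (nat_lit 164327) (nat_lit 230) (.e (nat_lit 163871) (nat_lit 2) (.e (nat_lit 196654) (nat_lit 11) (.e (nat_lit 16416) (nat_lit 3) (.e (nat_lit 204837) (nat_lit 20) (.e (nat_lit 114717) (nat_lit 23) .nil))))))) (.g (nat_lit 1) (.e (nat_lit 272991) (nat_lit 0) .nil) .nil))) 
(.lf (nat_lit 542314) (.g (nat_lit 2317) (.e (nat_lit 98335) (nat_lit 18) (.e (nat_lit 164332) (nat_lit 230) (.e (nat_lit 163902) (nat_lit 12) (.e (nat_lit 426479) (nat_lit 27) (.e (nat_lit 336443) (nat_lit 32) (.e (nat_lit 474880) (nat_lit 3) .nil)))))) (.g (nat_lit 1) (.e (nat_lit 273793) (nat_lit 0) .nil) .nil)))) (.nd (nat_lit 9) 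
(.lf (nat_lit 542058) (.g (nat_lit 2653) (.e (nat_lit 98334) (nat_lit 18) (.e (nat_lit 164399) (nat_lit 256) (.e (nat_lit 57378) (nat_lit 3) (.e (nat_lit 98367) (nat_lit 27) (.e (nat_lit 434232) (nat_lit 23) .nil))))) (.g (nat_lit 0) (.e (nat_lit 273443) (nat_lit 0) .nil) .nil))) 
(.lf (nat_lit 542570) (.g (nat_lit 3592) (.e (nat_lit 98341) (nat_lit 20) (.e (nat_lit 221215) (nat_lit 23) (.e (nat_lit 204861) (nat_lit 26) (.e (nat_lit 336021) (nat_lit 3) (.e (nat_lit 98335) (nat_lit 18) (.e (nat_lit 164183) (nat_lit 154) (.e (nat_lit 57379) (nat_lit 3) .nil))))))) (.g (nat_lit 1) (.e (nat_lit 274102) (nat_lit 0) .nil) .nil))))) (.nd (nat_lit 8) (.nd (nat_lit 9) 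
(.lf (nat_lit 541930) (.g (nat_lit 2982) (.e (nat_lit 98334) (nat_lit 18) (.e (nat_lit 164182) (nat_lit 154) (.e (nat_lit 57379) (nat_lit 3) (.e (nat_lit 98342) (nat_lit 20) (.e (nat_lit 221215) (nat_lit 23) (.e (nat_lit 204861) (nat_lit 26) (.e (nat_lit 336020) (nat_lit 3) .nil))))))) (.g (nat_lit 1) (.e (nat_lit 273180) (nat_lit 0) .nil) .nil))) 
(.lf (nat_lit 542442) (.g (nat_lit 1113) (.e (nat_lit 98339) (nat_lit 19) (.e (nat_lit 213030) (nat_lit 11) (.e (nat_lit 24609) (nat_lit 3) (.e (nat_lit 98380) (nat_lit 31) (.e (nat_lit 474880) (nat_lit 3) .nil))))) (.g (nat_lit 1) (.e (nat_lit 273960) (nat_lit 0) .nil) .nil)))) (.nd (nat_lit 9) 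
(.lf (nat_lit 542186) (.g (nat_lit 1477) (.e (nat_lit 98335) (nat_lit 18) (.e (nat_lit 164327) (nat_lit 230) (.e (nat_lit 163903) (nat_lit 12) (.e (nat_lit 426478) (nat_lit 27) .nil)))) (.g (nat_lit 0) (.e (nat_lit 273619) (nat_lit 0) .nil) .nil))) 
(.lf (nat_lit 542698) (.g (nat_lit 3584) (.e (nat_lit 98342) (nat_lit 20) (.e (nat_lit 221215) (nat_lit 23) (.e (nat_lit 204861) (nat_lit 26) (.e (nat_lit 336021) (nat_lit 3) (.e (nat_lit 98335) (nat_lit 18) (.e (nat_lit 164183) (nat_lit 154) (.e (nat_lit 57378) (nat_lit 3) .nil))))))) (.g (nat_lit 1) (.e (nat_lit 274244) (nat_lit 0) .nil) .nil)))))))) 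
(.nd (nat_lit 5) (.nd (nat_lit 6) (.nd (nat_lit 7) (.nd (nat_lit 8) (.nd (nat_lit 9) 
(.lf (nat_lit 541722) (.g (nat_lit 4232) (.e (nat_lit 98333) (nat_lit 18) (.e (nat_lit 164325) (nat_lit 230) (.e (nat_lit 163871) (nat_lit 2) (.e (nat_lit 196656) (nat_lit 11) (.e (nat_lit 16416) (nat_lit 3) (.e (nat_lit 204838) (nat_lit 20) (.e (nat_lit 114719) (nat_lit 23) .nil))))))) (.g (nat_lit 1) (.e (nat_lit 272869) (nat_lit 0) .nil) .nil))) 
(.lf (nat_lit 542234) (.g (nat_lit 3065) (.e (nat_lit 98335) (nat_lit 18) (.e (nat_lit 164330) (nat_lit 230) (.e (nat_lit 163840) (nat_lit 0) (.e (nat_lit 3307) (nat_lit 202) (.e (nat_lit 573489) (nat_lit 14) (.e (nat_lit 73754) (nat_lit 8) (.e (nat_lit 557095) (nat_lit 13) (.e (nat_lit 179968) (nat_lit 18) .nil)))))))) (.g (nat_lit 1) (.e (nat_lit 273677) (nat_lit 0) .nil) .nil)))) 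
(.nd (nat_lit 9) 
(.lf (nat_lit 541978) (.g (nat_lit 1516) (.e (nat_lit 98334) (nat_lit 18) (.e (nat_lit 164330) (nat_lit 230) (.e (nat_lit 163873) (nat_lit 3) (.e (nat_lit 204809) (nat_lit 9) (.e (nat_lit 426139) (nat_lit 3) .nil))))) (.g (nat_lit 0) (.e (nat_lit 273286) (nat_lit 0) .nil) .nil))) 
(.lf (nat_lit 542490) (.g (nat_lit 2212) (.e (nat_lit 98340) (nat_lit 20) (.e (nat_lit 221214) (nat_lit 23) (.e (nat_lit 204861) (nat_lit 26) (.e (nat_lit 336027) (nat_lit 3) (.e (nat_lit 98333) (nat_lit 18) .nil))))) (.g (nat_lit 0) (.e (nat_lit 274011) (nat_lit 0) .nil) .nil))))) (.nd (nat_lit 8) (.nd (nat_lit 9) 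
(.lf (nat_lit 541850) (.g (nat_lit 2826) (.e (nat_lit 98333) (nat_lit 18) (.e (nat_lit 164327) (nat_lit 230) (.e (nat_lit 163907) (nat_lit 12) (.e (nat_lit 426566) (nat_lit 34) (.e (nat_lit 393273) (nat_lit 23) (.e (nat_lit 426434) (nat_lit 18) .nil)))))) (.g (nat_lit 1) (.e (nat_lit 273048) (nat_lit 0) .nil) .nil))) 
(.lf (nat_lit 542362) (.g (nat_lit 2118) (.e (nat_lit 98335) (nat_lit 18) (.e (nat_lit 164332) (nat_lit 230) (.e (nat_lit 163943) (nat_lit 19) (.e (nat_lit 483333) (nat_lit 0) .nil)))) (.g (nat_lit 0) (.e (nat_lit 273850) (nat_lit 0) .nil) .nil)))) (.nd (nat_lit 9) 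
(.lf (nat_lit 542106) (.g (nat_lit 4265) (.e (nat_lit 98335) (nat_lit 18) (.e (nat_lit 164305) (nat_lit 226) (.e (nat_lit 2612) (nat_lit 163) (.e (nat_lit 163979) (nat_lit 30) (.e (nat_lit 573487) (nat_lit 14) (.e (nat_lit 73753) (nat_lit 8) (.e (nat_lit 557096) (nat_lit 13) (.e (nat_lit 179968) (nat_lit 18) .nil)))))))) (.g (nat_lit 1) (.e (nat_lit 273516) (nat_lit 0) .nil) .nil))) 
(.lf (nat_lit 542618) (.g (nat_lit 3477) (.e (nat_lit 98342) (nat_lit 20) (.e (nat_lit 221212) (nat_lit 22) (.e (nat_lit 196668) (nat_lit 14) (.e (nat_lit 73746) (nat_lit 3) (.e (nat_lit 516115) (nat_lit 1) (.e (nat_lit 164183) (nat_lit 154) (.e (nat_lit 57378) (nat_lit 3) .nil))))))) (.g (nat_lit 1) (.e (nat_lit 274159) (nat_lit 0) .nil) .nil)))))) 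
(.nd (nat_lit 7) (.nd (nat_lit 8) (.nd (nat_lit 9) 
(.lf (nat_lit 541786) (.g (nat_lit 2120) (.e (nat_lit 98333) (nat_lit 18) (.e (nat_lit 164325) (nat_lit 230) (.e (nat_lit 163944) (nat_lit 19) (.e (nat_lit 483339) (nat_lit 9) (.e (nat_lit 426230) (nat_lit 9) (.e (nat_lit 426435) (nat_lit 18) .nil)))))) (.g (nat_lit 1) (.e (nat_lit 272965) (nat_lit 0) .nil) .nil))) 
(.lf (nat_lit 542298) (.g (nat_lit 2989) (.e (nat_lit 98335) (nat_lit 18) (.e (nat_lit 164332) (nat_lit 230) (.e (nat_lit 163869) (nat_lit 2) (.e (nat_lit 196624) (nat_lit 9) .nil)))) (.g (nat_lit 0) (.e (nat_lit 273774) (nat_lit 0) .nil) .nil)))) (.nd (nat_lit 9) 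
(.lf (nat_lit 542042) (.g (nat_lit 1404) (.e (nat_lit 98334) (nat_lit 18) (.e (nat_lit 164332) (nat_lit 230) (.e (nat_lit 163943) (nat_lit 19) (.e (nat_lit 483333) (nat_lit 0) .nil)))) (.g (nat_lit 0) (.e (nat_lit 273416) (nat_lit 0) .nil) .nil))) 
(.lf (nat_lit 542554) (.g (nat_lit 1421) (.e (nat_lit 98341) (nat_lit 20) (.e (nat_lit 221214) (nat_lit 23) (.e (nat_lit 204830) (nat_lit 18) (.e (nat_lit 57927) (nat_lit 282) .nil)))) (.g (nat_lit 0) (.e (nat_lit 274084) (nat_lit 0) .nil) .nil))))) (.nd (nat_lit 8) (.nd (nat_lit 9) 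
(.lf (nat_lit 541914) (.g (nat_lit 864) (.e (nat_lit 98333) (nat_lit 18) (.e (nat_lit 164399) (nat_lit 256) (.e (nat_lit 57379) (nat_lit 3) (.e (nat_lit 98376) (nat_lit 30) .nil)))) (.g (nat_lit 0) (.e (nat_lit 273147) (nat_lit 0) .nil) .nil))) 
(.lf (nat_lit 542426) (.g (nat_lit 1871) (.e (nat_lit 98338) (nat_lit 19) (.e (nat_lit 213032) (nat_lit 11) (.e (nat_lit 24608) (nat_lit 3) (.e (nat_lit 98381) (nat_lit 31) (.e (nat_lit 474880) (nat_lit 3) .nil))))) (.g (nat_lit 1) (.e (nat_lit 273926) (nat_lit 0) .nil) .nil)))) (.nd (nat_lit 9) 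
(.lf (nat_lit 542170) (.g (nat_lit 1375) (.e (nat_lit 98335) (nat_lit 18) (.e (nat_lit 164326) (nat_lit 230) (.e (nat_lit 163941) (nat_lit 19) (.e (nat_lit 483339) (nat_lit 9) (.e (nat_lit 426259) (nat_lit 9) (.e (nat_lit 433920) (nat_lit 18) .nil)))))) (.g (nat_lit 1) (.e (nat_lit 273599) (nat_lit 0) .nil) .nil))) 
(.lf (nat_lit 542682) (.g (nat_lit 1788) (.e (nat_lit 98342) (nat_lit 20) (.e (nat_lit 221215) (nat_lit 23) (.e (nat_lit 204830) (nat_lit 18) (.e (nat_lit 57908) (nat_lit 278) .nil)))) (.g (nat_lit 0) (.e (nat_lit 274228) (nat_lit 0) .nil) .nil))))))) (.nd (nat_lit 6) (.nd (nat_lit 7) (.nd (nat_lit 8) (.nd (nat_lit 9) 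
(.lf (nat_lit 541754) (.g (nat_lit 2291) (.e (nat_lit 98333) (nat_lit 18) (.e (nat_lit 164325) (nat_lit 230) (.e (nat_lit 163907) (nat_lit 12) (.e (nat_lit 426479) (nat_lit 27) (.e (nat_lit 336430) (nat_lit 29) (.e (nat_lit 450304) (nat_lit 3) .nil)))))) (.g (nat_lit 1) (.e (nat_lit 272909) (nat_lit 0) .nil) .nil))) 
(.lf (nat_lit 542266) (.g (nat_lit 2082) (.e (nat_lit 98335) (nat_lit 18) (.e (nat_lit 164330) (nat_lit 230) (.e (nat_lit 163904) (nat_lit 12) (.e (nat_lit 426566) (nat_lit 34) (.e (nat_lit 393270) (nat_lit 23) .nil))))) (.g (nat_lit 0) (.e (nat_lit 273720) (nat_lit 0) .nil) .nil)))) (.nd (nat_lit 9) 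
(.lf (nat_lit 542010) (.g (nat_lit 1345) (.e (nat_lit 98334) (nat_lit 18) (.e (nat_lit 164332) (nat_lit 230) (.e (nat_lit 163902) (nat_lit 12) (.e (nat_lit 426478) (nat_lit 27) .nil)))) (.g (nat_lit 0) (.e (nat_lit 273373) (nat_lit 0) .nil) .nil))) 
(.lf (nat_lit 542522) (.g (nat_lit 4952) (.e (nat_lit 98341) (nat_lit 20) (.e (nat_lit 221210) (nat_lit 22) (.e (nat_lit 196670) (nat_lit 14) (.e (nat_lit 73746) (nat_lit 3) (.e (nat_lit 516117) (nat_lit 1) (.e (nat_lit 164182) (nat_lit 154) (.e (nat_lit 57379) (nat_lit 3) .nil))))))) (.g (nat_lit 1) (.e (nat_lit 274051) (nat_lit 0) .nil) .nil))))) (.nd (nat_lit 8) (.nd (nat_lit 9) 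
(.lf (nat_lit 541882) (.g (nat_lit 2520) (.e (nat_lit 98333) (nat_lit 18) (.e (nat_lit 164332) (nat_lit 230) (.e (nat_lit 163902) (nat_lit 12) (.e (nat_lit 426566) (nat_lit 34) (.e (nat_lit 393272) (nat_lit 23) (.e (nat_lit 426434) (nat_lit 18) .nil)))))) (.g (nat_lit 1) (.e (nat_lit 273105) (nat_lit 0) .nil) .nil))) 
(.lf (nat_lit 542394) (.g (nat_lit 2275) (.e (nat_lit 98337) (nat_lit 19) (.e (nat_lit 213032) (nat_lit 11) (.e (nat_lit 24608) (nat_lit 3) (.e (nat_lit 98363) (nat_lit 26) (.e (nat_lit 426230) (nat_lit 9) (.e (nat_lit 426435) (nat_lit 18) .nil)))))) (.g (nat_lit 1) (.e (nat_lit 273889) (nat_lit 0) .nil) .nil)))) (.nd (nat_lit 9) 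
(.lf (nat_lit 542138) (.g (nat_lit 2087) (.e (nat_lit 98335) (nat_lit 18) (.e (nat_lit 164324) (nat_lit 230) (.e (nat_lit 163943) (nat_lit 19) (.e (nat_lit 483338) (nat_lit 9) .nil)))) (.g (nat_lit 0) (.e (nat_lit 273557) (nat_lit 0) .nil) .nil))) 
(.lf (nat_lit 542650) (.g (nat_lit 3912) (.e (nat_lit 98342) (nat_lit 20) (.e (nat_lit 221214) (nat_lit 23) (.e (nat_lit 204829) (nat_lit 18) (.e (nat_lit 57931) (nat_lit 282) (.e (nat_lit 163874) (nat_lit 3) (.e (nat_lit 204851) (nat_lit 26) (.e (nat_lit 336019) (nat_lit 3) .nil))))))) (.g (nat_lit 1) (.e (nat_lit 274191) (nat_lit 0) .nil) .nil)))))) 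
(.nd (nat_lit 7) (.nd (nat_lit 8) (.nd (nat_lit 9) 
(.lf (nat_lit 541818) (.g (nat_lit 2641) (.e (nat_lit 98333) (nat_lit 18) (.e (nat_lit 164327) (nat_lit 230) (.e (nat_lit 163875) (nat_lit 3) (.e (nat_lit 204809) (nat_lit 9) (.e (nat_lit 426139) (nat_lit 3) (.e (nat_lit 204833) (nat_lit 19) (.e (nat_lit 106513) (nat_lit 9) (.e (nat_lit 1251) (nat_lit 92) .nil)))))))) (.g (nat_lit 1) (.e (nat_lit 273012) (nat_lit 0) .nil) .nil))) 
(.lf (nat_lit 542330) (.g (nat_lit 2936) (.e (nat_lit 98335) (nat_lit 18) (.e (nat_lit 164332) (nat_lit 230) (.e (nat_lit 163905) (nat_lit 12) (.e (nat_lit 426482) (nat_lit 27) (.e (nat_lit 336412) (nat_lit 27) .nil))))) (.g (nat_lit 0) (.e (nat_lit 273809) (nat_lit 0) .nil) .nil)))) (.nd (nat_lit 9) 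
(.lf (nat_lit 542074) (.g (nat_lit 3760) (.e (nat_lit 98335) (nat_lit 18) (.e (nat_lit 164179) (nat_lit 154) (.e (nat_lit 57378) (nat_lit 3) (.e (nat_lit 98341) (nat_lit 20) (.e (nat_lit 221215) (nat_lit 23) (.e (nat_lit 204861) (nat_lit 26) (.e (nat_lit 336026) (nat_lit 3) .nil))))))) (.g (nat_lit 1) (.e (nat_lit 273466) (nat_lit 0) .nil) .nil))) 
(.lf (nat_lit 542586) (.g (nat_lit 3018) (.e (nat_lit 98342) (nat_lit 20) (.e (nat_lit 221210) (nat_lit 22) (.e (nat_lit 196666) (nat_lit 13) (.e (nat_lit 65571) (nat_lit 3) (.e (nat_lit 98333) (nat_lit 18) (.e (nat_lit 164182) (nat_lit 154) (.e (nat_lit 57378) (nat_lit 3) .nil))))))) (.g (nat_lit 1) (.e (nat_lit 274127) (nat_lit 0) .nil) .nil))))) (.nd (nat_lit 8) (.nd (nat_lit 9) 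
(.lf (nat_lit 541946) (.g (nat_lit 4660) (.e (nat_lit 98334) (nat_lit 18) (.e (nat_lit 164305) (nat_lit 226) (.e (nat_lit 2612) (nat_lit 163) (.e (nat_lit 163979) (nat_lit 30) (.e (nat_lit 573489) (nat_lit 14) (.e (nat_lit 73755) (nat_lit 8) (.e (nat_lit 557097) (nat_lit 13) (.e (nat_lit 179968) (nat_lit 18) .nil)))))))) (.g (nat_lit 1) (.e (nat_lit 273223) (nat_lit 0) .nil) .nil))) 
(.lf (nat_lit 542458) (.g (nat_lit 1877) (.e (nat_lit 98339) (nat_lit 19) (.e (nat_lit 213032) (nat_lit 11) (.e (nat_lit 24608) (nat_lit 3) (.e (nat_lit 98381) (nat_lit 31) (.e (nat_lit 474880) (nat_lit 3) .nil))))) (.g (nat_lit 1) (.e (nat_lit 273979) (nat_lit 0) .nil) .nil)))) (.nd (nat_lit 9) 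
(.lf (nat_lit 542202) (.g (nat_lit 2412) (.e (nat_lit 98335) (nat_lit 18) (.e (nat_lit 164327) (nat_lit 230) (.e (nat_lit 163903) (nat_lit 12) (.e (nat_lit 426568) (nat_lit 34) (.e (nat_lit 393279) (nat_lit 23) (.e (nat_lit 426433) (nat_lit 18) .nil)))))) (.g (nat_lit 1) (.e (nat_lit 273635) (nat_lit 0) .nil) .nil))) 
(.lf (nat_lit 542714) (.g (nat_lit 2336) (.e (nat_lit 98349) (nat_lit 24) (.e (nat_lit 409643) (nat_lit 18) (.e (nat_lit 303119) (nat_lit 3) (.e (nat_lit 204855) (nat_lit 26) (.e (nat_lit 336102) (nat_lit 9) .nil))))) (.g (nat_lit 0) (.e (nat_lit 274345) (nat_lit 0) .nil) .nil)))))))))) 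
(.nd (nat_lit 3) (.nd (nat_lit 4) (.nd (nat_lit 5) (.nd (nat_lit 6) (.nd (nat_lit 7) 
(.nd (nat_lit 8) (.nd (nat_lit 9) 
(.lf (nat_lit 541702) (.g (nat_lit 3400) (.e (nat_lit 98333) (nat_lit 18) (.e (nat_lit 164183) (nat_lit 154) (.e (nat_lit 57378) (nat_lit 3) (.e (nat_lit 98341) (nat_lit 20) (.e (nat_lit 221214) (nat_lit 23) (.e (nat_lit 204861) (nat_lit 26) (.e (nat_lit 336025) (nat_lit 3) .nil))))))) (.g (nat_lit 1) (.e (nat_lit 272834) (nat_lit 0) .nil) .nil))) 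
(.lf (nat_lit 542214) (.g (nat_lit 1543) (.e (nat_lit 98335) (nat_lit 18) (.e (nat_lit 164327) (nat_lit 230) (.e (nat_lit 163944) (nat_lit 19) (.e (nat_lit 483339) (nat_lit 9) (.e (nat_lit 426259) (nat_lit 9) (.e (nat_lit 433920) (nat_lit 18) .nil)))))) (.g (nat_lit 1) (.e (nat_lit 273651) (nat_lit 0) .nil) .nil)))) (.nd (nat_lit 9) 
(.lf (nat_lit 541958) (.g (nat_lit 1972) (.e (nat_lit 98334) (nat_lit 18) (.e (nat_lit 164329) (nat_lit 230) (.e (nat_lit 163902) (nat_lit 12) (.e (nat_lit 426568) (nat_lit 34) (.e (nat_lit 393275) (nat_lit 23) (.e (nat_lit 433920) (nat_lit 18) .nil)))))) (.g (nat_lit 1) (.e (nat_lit 273243) (nat_lit 0) .nil) .nil))) 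
(.lf (nat_lit 542470) (.g (nat_lit 995) (.e (nat_lit 106240) (nat_lit 19) (.e (nat_lit 213032) (nat_lit 11) (.e (nat_lit 24608) (nat_lit 3) (.e (nat_lit 98381) (nat_lit 31) (.e (nat_lit 474880) (nat_lit 3) .nil))))) (.g (nat_lit 0) (.e (nat_lit 273991) (nat_lit 0) .nil) .nil))))) (.nd (nat_lit 8) (.nd (nat_lit 9) 
(.lf (nat_lit 541830) (.g (nat_lit 2426) (.e (nat_lit 98333) (nat_lit 18) (.e (nat_lit 164327) (nat_lit 230) (.e (nat_lit 163903) (nat_lit 12) (.e (nat_lit 426479) (nat_lit 27) (.e (nat_lit 336426) (nat_lit 29) (.e (nat_lit 450304) (nat_lit 3) .nil)))))) (.g (nat_lit 1) (.e (nat_lit 273027) (nat_lit 0) .nil) .nil))) 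
(.lf (nat_lit 542342) (.g (nat_lit 2942) (.e (nat_lit 98335) (nat_lit 18) (.e (nat_lit 164332) (nat_lit 230) (.e (nat_lit 163905) (nat_lit 12) (.e (nat_lit 426502) (nat_lit 27) (.e (nat_lit 336408) (nat_lit 27) .nil))))) (.g (nat_lit 0) (.e (nat_lit 273821) (nat_lit 0) .nil) .nil)))) (.nd (nat_lit 9) 
(.lf (nat_lit 542086) (.g (nat_lit 4392) (.e (nat_lit 98335) (nat_lit 18) (.e (nat_lit 164183) (nat_lit 154) (.e (nat_lit 57378) (nat_lit 3) (.e (nat_lit 98341) (nat_lit 20) (.e (nat_lit 221215) (nat_lit 23) (.e (nat_lit 204861) (nat_lit 26) (.e (nat_lit 336026) (nat_lit 3) .nil))))))) (.g (nat_lit 1) (.e (nat_lit 273483) (nat_lit 0) .nil) .nil))) 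
(.lf (nat_lit 542598) (.g (nat_lit 5032) (.e (nat_lit 98342) (nat_lit 20) (.e (nat_lit 221210) (nat_lit 22) (.e (nat_lit 196668) (nat_lit 14) (.e (nat_lit 73747) (nat_lit 3) (.e (nat_lit 516115) (nat_lit 1) (.e (nat_lit 164183) (nat_lit 154) (.e (nat_lit 57378) (nat_lit 3) .nil))))))) (.g (nat_lit 1) (.e (nat_lit 274139) (nat_lit 0) .nil) .nil)))))) 
(.nd (nat_lit 7) (.nd (nat_lit 8) (.nd (nat_lit 9) 
(.lf (nat_lit 541766) (.g (nat_lit 1977) (.e (nat_lit 98333) (nat_lit 18) (.e (nat_lit 164325) (nat_lit 230) (.e (nat_lit 163907) (nat_lit 12) (.e (nat_lit 426568) (nat_lit 34) (.e (nat_lit 393272) (nat_lit 23) .nil))))) (.g (nat_lit 0) (.e (nat_lit 272921) (nat_lit 0) .nil) .nil))) 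
(.lf (nat_lit 542278) (.g (nat_lit 1342) (.e (nat_lit 98335) (nat_lit 18) (.e (nat_lit 164330) (nat_lit 230) (.e (nat_lit 163941) (nat_lit 19) (.e (nat_lit 483337) (nat_lit 9) .nil)))) (.g (nat_lit 0) (.e (nat_lit 273738) (nat_lit 0) .nil) .nil)))) (.nd (nat_lit 9) 
(.lf (nat_lit 542022) (.g (nat_lit 2702) (.e (nat_lit 98334) (nat_lit 18) (.e (nat_lit 164332) (nat_lit 230) (.e (nat_lit 163902) (nat_lit 12) (.e (nat_lit 426568) (nat_lit 34) (.e (nat_lit 393279) (nat_lit 23) (.e (nat_lit 426433) (nat_lit 18) .nil)))))) (.g (nat_lit 1) (.e (nat_lit 273385) (nat_lit 0) .nil) .nil))) 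
(.lf (nat_lit 542534) (.g (nat_lit 2751) (.e (nat_lit 98341) (nat_lit 20) (.e (nat_lit 221212) (nat_lit 22) (.e (nat_lit 196668) (nat_lit 14) (.e (nat_lit 73747) (nat_lit 3) (.e (nat_lit 516117) (nat_lit 1) (.e (nat_lit 164176) (nat_lit 154) (.e (nat_lit 57379) (nat_lit 3) .nil))))))) (.g (nat_lit 1) (.e (nat_lit 274063) (nat_lit 0) .nil) .nil))))) (.nd (nat_lit 8) (.nd (nat_lit 9) 
(.lf (nat_lit 541894) (.g (nat_lit 1679) (.e (nat_lit 98333) (nat_lit 18) (.e (nat_lit 164332) (nat_lit 230) (.e (nat_lit 163905) (nat_lit 12) (.e (nat_lit 426509) (nat_lit 27) .nil)))) (.g (nat_lit 0) (.e (nat_lit 273117) (nat_lit 0) .nil) .nil))) 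
(.lf (nat_lit 542406) (.g (nat_lit 1504) (.e (nat_lit 98338) (nat_lit 19) (.e (nat_lit 213030) (nat_lit 11) (.e (nat_lit 24604) (nat_lit 2) (.e (nat_lit 90178) (nat_lit 15) (.e (nat_lit 196352) (nat_lit 3) .nil))))) (.g (nat_lit 1) (.e (nat_lit 273902) (nat_lit 0) .nil) .nil)))) (.nd (nat_lit 9) 
(.lf (nat_lit 542150) (.g (nat_lit 301) (.e (nat_lit 98335) (nat_lit 18) (.e (nat_lit 164325) (nat_lit 230) (.e (nat_lit 163907) (nat_lit 12) .nil))) (.g (nat_lit 0) (.e (nat_lit 273574) (nat_lit 0) .nil) .nil))) 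
(.lf (nat_lit 542662) (.g (nat_lit 3877) (.e (nat_lit 98342) (nat_lit 20) (.e (nat_lit 221214) (nat_lit 23) (.e (nat_lit 204831) (nat_lit 18) (.e (nat_lit 57931) (nat_lit 282) (.e (nat_lit 163874) (nat_lit 3) (.e (nat_lit 204851) (nat_lit 26) (.e (nat_lit 336019) (nat_lit 3) .nil))))))) (.g (nat_lit 1) (.e (nat_lit 274205) (nat_lit 0) .nil) .nil))))))) 
(.nd (nat_lit 6) (.nd (nat_lit 7) (.nd (nat_lit 8) (.nd (nat_lit 9) 
(.lf (nat_lit 541734) (.g (nat_lit 2486) (.e (nat_lit 98333) (nat_lit 18) (.e (nat_lit 164325) (nat_lit 230) (.e (nat_lit 163903) (nat_lit 12) (.e (nat_lit 426479) (nat_lit 27) (.e (nat_lit 336426) (nat_lit 29) (.e (nat_lit 450304) (nat_lit 3) .nil)))))) (.g (nat_lit 1) (.e (nat_lit 272888) (nat_lit 0) .nil) .nil))) 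
(.lf (nat_lit 542246) (.g (nat_lit 3079) (.e (nat_lit 98335) (nat_lit 18) (.e (nat_lit 164330) (nat_lit 230) (.e (nat_lit 163853) (nat_lit 0) (.e (nat_lit 3304) (nat_lit 202) (.e (nat_lit 573489) (nat_lit 14) (.e (nat_lit 73755) (nat_lit 8) (.e (nat_lit 557097) (nat_lit 13) (.e (nat_lit 179968) (nat_lit 18) .nil)))))))) (.g (nat_lit 1) (.e (nat_lit 273693) (nat_lit 0) .nil) .nil)))) 
(.nd (nat_lit 9) 
(.lf (nat_lit 541990) (.g (nat_lit 3645) (.e (nat_lit 98334) (nat_lit 18) (.e (nat_lit 164330) (nat_lit 230) (.e (nat_lit 163902) (nat_lit 12) (.e (nat_lit 426568) (nat_lit 34) (.e (nat_lit 393271) (nat_lit 23) (.e (nat_lit 426438) (nat_lit 18) .nil)))))) (.g (nat_lit 1) (.e (nat_lit 273304) (nat_lit 0) .nil) .nil))) 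
(.lf (nat_lit 542502) (.g (nat_lit 2120) (.e (nat_lit 98341) (nat_lit 20) (.e (nat_lit 221210) (nat_lit 22) (.e (nat_lit 196663) (nat_lit 13) (.e (nat_lit 65571) (nat_lit 3) (.e (nat_lit 98334) (nat_lit 18) .nil))))) (.g (nat_lit 0) (.e (nat_lit 274031) (nat_lit 0) .nil) .nil))))) (.nd (nat_lit 8) (.nd (nat_lit 9) 
(.lf (nat_lit 541862) (.g (nat_lit 2258) (.e (nat_lit 98333) (nat_lit 18) (.e (nat_lit 164327) (nat_lit 230) (.e (nat_lit 163944) (nat_lit 19) (.e (nat_lit 483341) (nat_lit 9) (.e (nat_lit 426198) (nat_lit 9) (.e (nat_lit 433920) (nat_lit 18) .nil)))))) (.g (nat_lit 1) (.e (nat_lit 273071) (nat_lit 0) .nil) .nil))) 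
(.lf (nat_lit 542374) (.g (nat_lit 2111) (.e (nat_lit 98335) (nat_lit 18) (.e (nat_lit 164403) (nat_lit 256) (.e (nat_lit 57378) (nat_lit 3) (.e (nat_lit 98368) (nat_lit 27) .nil)))) (.g (nat_lit 0) (.e (nat_lit 273866) (nat_lit 0) .nil) .nil)))) (.nd (nat_lit 9) 
(.lf (nat_lit 542118) (.g (nat_lit 2021) (.e (nat_lit 98335) (nat_lit 18) (.e (nat_lit 164322) (nat_lit 230) (.e (nat_lit 163941) (nat_lit 19) (.e (nat_lit 483337) (nat_lit 9) (.e (nat_lit 426188) (nat_lit 9) .nil))))) (.g (nat_lit 0) (.e (nat_lit 273531) (nat_lit 0) .nil) .nil))) 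
(.lf (nat_lit 542630) (.g (nat_lit 4511) (.e (nat_lit 98342) (nat_lit 20) (.e (nat_lit 221212) (nat_lit 22) (.e (nat_lit 196670) (nat_lit 14) (.e (nat_lit 73746) (nat_lit 3) (.e (nat_lit 516117) (nat_lit 1) (.e (nat_lit 164182) (nat_lit 154) (.e (nat_lit 57379) (nat_lit 3) .nil))))))) (.g (nat_lit 1) (.e (nat_lit 274171) (nat_lit 0) .nil) .nil)))))) 
(.nd (nat_lit 7) (.nd (nat_lit 8) (.nd (nat_lit 9) 
(.lf (nat_lit 541798) (.g (nat_lit 3853) (.e (nat_lit 98333) (nat_lit 18) (.e (nat_lit 164327) (nat_lit 230) (.e (nat_lit 163868) (nat_lit 2) (.e (nat_lit 196656) (nat_lit 11) (.e (nat_lit 16416) (nat_lit 3) (.e (nat_lit 204837) (nat_lit 20) (.e (nat_lit 114717) (nat_lit 23) .nil))))))) (.g (nat_lit 1) (.e (nat_lit 272986) (nat_lit 0) .nil) .nil))) 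
(.lf (nat_lit 542310) (.g (nat_lit 1267) (.e (nat_lit 98335) (nat_lit 18) (.e (nat_lit 164332) (nat_lit 230) (.e (nat_lit 163902) (nat_lit 12) (.e (nat_lit 426479) (nat_lit 27) (.e (nat_lit 336426) (nat_lit 29) .nil))))) (.g (nat_lit 0) (.e (nat_lit 273789) (nat_lit 0) .nil) .nil)))) (.nd (nat_lit 9) 
(.lf (nat_lit 542054) (.g (nat_lit 1957) (.e (nat_lit 98334) (nat_lit 18) (.e (nat_lit 164399) (nat_lit 256) (.e (nat_lit 57377) (nat_lit 3) (.e (nat_lit 98363) (nat_lit 26) (.e (nat_lit 426129) (nat_lit 3) .nil))))) (.g (nat_lit 0) (.e (nat_lit 273439) (nat_lit 0) .nil) .nil))) 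
(.lf (nat_lit 542566) (.g (nat_lit 2061) (.e (nat_lit 98341) (nat_lit 20) (.e (nat_lit 221215) (nat_lit 23) (.e (nat_lit 204861) (nat_lit 26) (.e (nat_lit 336012) (nat_lit 2) (.e (nat_lit 90181) (nat_lit 16) .nil))))) (.g (nat_lit 0) (.e (nat_lit 274098) (nat_lit 0) .nil) .nil))))) (.nd (nat_lit 8) (.nd (nat_lit 9) 
(.lf (nat_lit 541926) (.g (nat_lit 1653) (.e (nat_lit 98334) (nat_lit 18) (.e (nat_lit 164182) (nat_lit 154) (.e (nat_lit 57379) (nat_lit 3) (.e (nat_lit 98340) (nat_lit 20) .nil)))) (.g (nat_lit 0) (.e (nat_lit 273176) (nat_lit 0) .nil) .nil))) 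
(.lf (nat_lit 542438) (.g (nat_lit 1602) (.e (nat_lit 98339) (nat_lit 19) (.e (nat_lit 213030) (nat_lit 11) (.e (nat_lit 24608) (nat_lit 3) (.e (nat_lit 98380) (nat_lit 31) (.e (nat_lit 474880) (nat_lit 3) .nil))))) (.g (nat_lit 1) (.e (nat_lit 273956) (nat_lit 0) .nil) .nil)))) (.nd (nat_lit 9) 
(.lf (nat_lit 542182) (.g (nat_lit 1430) (.e (nat_lit 98335) (nat_lit 18) (.e (nat_lit 164327) (nat_lit 230) (.e (nat_lit 163875) (nat_lit 3) (.e (nat_lit 204837) (nat_lit 20) .nil)))) (.g (nat_lit 0) (.e (nat_lit 273615) (nat_lit 0) .nil) .nil))) 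
(.lf (nat_lit 542694) (.g (nat_lit 1615) (.e (nat_lit 98342) (nat_lit 20) (.e (nat_lit 221215) (nat_lit 23) (.e (nat_lit 204855) (nat_lit 26) (.e (nat_lit 336020) (nat_lit 3) .nil)))) (.g (nat_lit 0) (.e (nat_lit 274240) (nat_lit 0) .nil) .nil)))))))) (.nd (nat_lit 5) (.nd (nat_lit 6) (.nd (nat_lit 7) (.nd (nat_lit 8) (.nd (nat_lit 9) 
(.lf (nat_lit 541718) (.g (nat_lit 3159) (.e (nat_lit 98333) (nat_lit 18) (.e (nat_lit 164325) (nat_lit 230) (.e (nat_lit 163869) (nat_lit 2) (.e (nat_lit 196656) (nat_lit 11) (.e (nat_lit 16416) (nat_lit 3) (.e (nat_lit 204838) (nat_lit 20) (.e (nat_lit 114719) (nat_lit 23) .nil))))))) (.g (nat_lit 1) (.e (nat_lit 272863) (nat_lit 0) .nil) .nil))) 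
(.lf (nat_lit 542230) (.g (nat_lit 3178) (.e (nat_lit 98335) (nat_lit 18) (.e (nat_lit 164329) (nat_lit 230) (.e (nat_lit 163941) (nat_lit 19) (.e (nat_lit 483337) (nat_lit 9) (.e (nat_lit 426198) (nat_lit 9) (.e (nat_lit 426436) (nat_lit 18) .nil)))))) (.g (nat_lit 1) (.e (nat_lit 273669) (nat_lit 0) .nil) .nil)))) (.nd (nat_lit 9) 
(.lf (nat_lit 541974) (.g (nat_lit 2484) (.e (nat_lit 98334) (nat_lit 18) (.e (nat_lit 164330) (nat_lit 230) (.e (nat_lit 163869) (nat_lit 2) (.e (nat_lit 196656) (nat_lit 11) (.e (nat_lit 16416) (nat_lit 3) .nil))))) (.g (nat_lit 0) (.e (nat_lit 273279) (nat_lit 0) .nil) .nil))) 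
(.lf (nat_lit 542486) (.g (nat_lit 3267) (.e (nat_lit 98340) (nat_lit 20) (.e (nat_lit 221214) (nat_lit 23) (.e (nat_lit 204829) (nat_lit 18) (.e (nat_lit 57847) (nat_lit 252) (.e (nat_lit 57370) (nat_lit 2) (.e (nat_lit 90158) (nat_lit 11) (.e (nat_lit 24608) (nat_lit 3) .nil))))))) (.g (nat_lit 1) (.e (nat_lit 274007) (nat_lit 0) .nil) .nil))))) (.nd (nat_lit 8) (.nd (nat_lit 9) 
(.lf (nat_lit 541846) (.g (nat_lit 1029) (.e (nat_lit 98333) (nat_lit 18) (.e (nat_lit 164327) (nat_lit 230) (.e (nat_lit 163905) (nat_lit 12) .nil))) (.g (nat_lit 0) (.e (nat_lit 273044) (nat_lit 0) .nil) .nil))) 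
(.lf (nat_lit 542358) (.g (nat_lit 2027) (.e (nat_lit 98335) (nat_lit 18) (.e (nat_lit 164332) (nat_lit 230) (.e (nat_lit 163941) (nat_lit 19) (.e (nat_lit 483339) (nat_lit 9) (.e (nat_lit 426228) (nat_lit 9) (.e (nat_lit 426435) (nat_lit 18) .nil)))))) (.g (nat_lit 1) (.e (nat_lit 273840) (nat_lit 0) .nil) .nil)))) (.nd (nat_lit 9) 
(.lf (nat_lit 542102) (.g (nat_lit 4462) (.e (nat_lit 98335) (nat_lit 18) (.e (nat_lit 164305) (nat_lit 226) (.e (nat_lit 2612) (nat_lit 163) (.e (nat_lit 163978) (nat_lit 30) (.e (nat_lit 573489) (nat_lit 14) (.e (nat_lit 73754) (nat_lit 8) (.e (nat_lit 557095) (nat_lit 13) (.e (nat_lit 179968) (nat_lit 18) .nil)))))))) (.g (nat_lit 1) (.e (nat_lit 273512) (nat_lit 0) .nil) .nil))) 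
(.lf (nat_lit 542614) (.g (nat_lit 3128) (.e (nat_lit 98342) (nat_lit 20) (.e (nat_lit 221211) (nat_lit 22) (.e (nat_lit 196666) (nat_lit 13) (.e (nat_lit 65642) (nat_lit 15) (.e (nat_lit 3253) (nat_lit 197) (.e (nat_lit 532501) (nat_lit 1) (.e (nat_lit 57852) (nat_lit 252) (.e (nat_lit 57376) (nat_lit 3) .nil)))))))) (.g (nat_lit 1) (.e (nat_lit 274155) (nat_lit 0) .nil) .nil)))))) 
(.nd (nat_lit 7) (.nd (nat_lit 8) (.nd (nat_lit 9) 
(.lf (nat_lit 541782) (.g (nat_lit 377) (.e (nat_lit 98333) (nat_lit 18) (.e (nat_lit 164325) (nat_lit 230) (.e (nat_lit 163944) (nat_lit 19) .nil))) (.g (nat_lit 0) (.e (nat_lit 272960) (nat_lit 0) .nil) .nil))) 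
(.lf (nat_lit 542294) (.g (nat_lit 549) (.e (nat_lit 98335) (nat_lit 18) (.e (nat_lit 164332) (nat_lit 230) (.e (nat_lit 163847) (nat_lit 0) .nil))) (.g (nat_lit 0) (.e (nat_lit 273768) (nat_lit 0) .nil) .nil)))) (.nd (nat_lit 9) 
(.lf (nat_lit 542038) (.g (nat_lit 1859) (.e (nat_lit 98334) (nat_lit 18) (.e (nat_lit 164332) (nat_lit 230) (.e (nat_lit 163941) (nat_lit 19) (.e (nat_lit 483339) (nat_lit 9) (.e (nat_lit 426228) (nat_lit 9) (.e (nat_lit 426435) (nat_lit 18) .nil)))))) (.g (nat_lit 1) (.e (nat_lit 273406) (nat_lit 0) .nil) .nil))) 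
(.lf (nat_lit 542550) (.g (nat_lit 3612) (.e (nat_lit 98341) (nat_lit 20) (.e (nat_lit 221214) (nat_lit 23) (.e (nat_lit 204829) (nat_lit 18) (.e (nat_lit 57927) (nat_lit 282) (.e (nat_lit 163873) (nat_lit 3) (.e (nat_lit 204853) (nat_lit 26) (.e (nat_lit 336019) (nat_lit 3) .nil))))))) (.g (nat_lit 1) (.e (nat_lit 274080) (nat_lit 0) .nil) .nil))))) (.nd (nat_lit 8) (.nd (nat_lit 9) 
(.lf (nat_lit 541910) (.g (nat_lit 2025) (.e (nat_lit 98333) (nat_lit 18) (.e (nat_lit 164399) (nat_lit 256) (.e (nat_lit 57378) (nat_lit 3) (.e (nat_lit 98366) (nat_lit 27) (.e (nat_lit 434231) (nat_lit 23) .nil))))) (.g (nat_lit 0) (.e (nat_lit 273143) (nat_lit 0) .nil) .nil))) 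
(.lf (nat_lit 542422) (.g (nat_lit 1549) (.e (nat_lit 98338) (nat_lit 19) (.e (nat_lit 213032) (nat_lit 11) (.e (nat_lit 24608) (nat_lit 3) (.e (nat_lit 98369) (nat_lit 28) (.e (nat_lit 450304) (nat_lit 3) .nil))))) (.g (nat_lit 0) (.e (nat_lit 273922) (nat_lit 0) .nil) .nil)))) (.nd (nat_lit 9) 
(.lf (nat_lit 542166) (.g (nat_lit 1431) (.e (nat_lit 98335) (nat_lit 18) (.e (nat_lit 164326) (nat_lit 230) (.e (nat_lit 163903) (nat_lit 12) (.e (nat_lit 426479) (nat_lit 27) (.e (nat_lit 336427) (nat_lit 29) (.e (nat_lit 450304) (nat_lit 3) .nil)))))) (.g (nat_lit 1) (.e (nat_lit 273595) (nat_lit 0) .nil) .nil))) 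
(.lf (nat_lit 542678) (.g (nat_lit 3538) (.e (nat_lit 98342) (nat_lit 20) (.e (nat_lit 221215) (nat_lit 23) (.e (nat_lit 204829) (nat_lit 18) (.e (nat_lit 57931) (nat_lit 282) (.e (nat_lit 163869) (nat_lit 2) (.e (nat_lit 196664) (nat_lit 13) (.e (nat_lit 65571) (nat_lit 3) .nil))))))) (.g (nat_lit 1) (.e (nat_lit 274221) (nat_lit 0) .nil) .nil))))))) 
(.nd (nat_lit 6) (.nd (nat_lit 7) (.nd (nat_lit 8) (.nd (nat_lit 9) 
(.lf (nat_lit 541750) (.g (nat_lit 2228) (.e (nat_lit 98333) (nat_lit 18) (.e (nat_lit 164325) (nat_lit 230) (.e (nat_lit 163907) (nat_lit 12) (.e (nat_lit 426479) (nat_lit 27) (.e (nat_lit 336414) (nat_lit 27) (.e (nat_lit 426228) (nat_lit 9) (.e (nat_lit 426435) (nat_lit 18) .nil))))))) (.g (nat_lit 1) (.e (nat_lit 272905) (nat_lit 0) .nil) .nil))) 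
(.lf (nat_lit 542262) (.g (nat_lit 1759) (.e (nat_lit 98335) (nat_lit 18) (.e (nat_lit 164330) (nat_lit 230) (.e (nat_lit 163902) (nat_lit 12) (.e (nat_lit 426489) (nat_lit 27) .nil)))) (.g (nat_lit 0) (.e (nat_lit 273716) (nat_lit 0) .nil) .nil)))) (.nd (nat_lit 9) 
(.lf (nat_lit 542006) (.g (nat_lit 1607) (.e (nat_lit 98334) (nat_lit 18) (.e (nat_lit 164332) (nat_lit 230) (.e (nat_lit 163869) (nat_lit 2) (.e (nat_lit 196656) (nat_lit 11) .nil)))) (.g (nat_lit 0) (.e (nat_lit 273362) (nat_lit 0) .nil) .nil))) 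
(.lf (nat_lit 542518) (.g (nat_lit 3812) (.e (nat_lit 98341) (nat_lit 20) (.e (nat_lit 221210) (nat_lit 22) (.e (nat_lit 196668) (nat_lit 14) (.e (nat_lit 73747) (nat_lit 3) (.e (nat_lit 516120) (nat_lit 1) (.e (nat_lit 164181) (nat_lit 154) (.e (nat_lit 57379) (nat_lit 3) .nil))))))) (.g (nat_lit 1) (.e (nat_lit 274047) (nat_lit 0) .nil) .nil))))) (.nd (nat_lit 8) (.nd (nat_lit 9) 
(.lf (nat_lit 541878) (.g (nat_lit 2396) (.e (nat_lit 98333) (nat_lit 18) (.e (nat_lit 164332) (nat_lit 230) (.e (nat_lit 163902) (nat_lit 12) (.e (nat_lit 426479) (nat_lit 27) (.e (nat_lit 336430) (nat_lit 29) (.e (nat_lit 450304) (nat_lit 3) .nil)))))) (.g (nat_lit 1) (.e (nat_lit 273101) (nat_lit 0) .nil) .nil))) 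
(.lf (nat_lit 542390) (.g (nat_lit 1618) (.e (nat_lit 98337) (nat_lit 19) (.e (nat_lit 213032) (nat_lit 11) (.e (nat_lit 24604) (nat_lit 2) (.e (nat_lit 90178) (nat_lit 15) (.e (nat_lit 196352) (nat_lit 3) .nil))))) (.g (nat_lit 0) (.e (nat_lit 273885) (nat_lit 0) .nil) .nil)))) (.nd (nat_lit 9) 
(.lf (nat_lit 542134) (.g (nat_lit 2040) (.e (nat_lit 98335) (nat_lit 18) (.e (nat_lit 164324) (nat_lit 230) (.e (nat_lit 163941) (nat_lit 19) (.e (nat_lit 483339) (nat_lit 9) (.e (nat_lit 426228) (nat_lit 9) (.e (nat_lit 426435) (nat_lit 18) .nil)))))) (.g (nat_lit 1) (.e (nat_lit 273550) (nat_lit 0) .nil) .nil))) 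
(.lf (nat_lit 542646) (.g (nat_lit 2866) (.e (nat_lit 98342) (nat_lit 20) (.e (nat_lit 221214) (nat_lit 23) (.e (nat_lit 204829) (nat_lit 18) (.e (nat_lit 57927) (nat_lit 282) (.e (nat_lit 163874) (nat_lit 3) (.e (nat_lit 204859) (nat_lit 26) (.e (nat_lit 336017) (nat_lit 3) .nil))))))) (.g (nat_lit 1) (.e (nat_lit 274187) (nat_lit 0) .nil) .nil)))))) 
(.nd (nat_lit 7) (.nd (nat_lit 8) (.nd (nat_lit 9) 
(.lf (nat_lit 541814) (.g (nat_lit 4479) (.e (nat_lit 98333) (nat_lit 18) (.e (nat_lit 164327) (nat_lit 230) (.e (nat_lit 163873) (nat_lit 3) (.e (nat_lit 204813) (nat_lit 9) (.e (nat_lit 426138) (nat_lit 3) .nil))))) (.g (nat_lit 0) (.e (nat_lit 273005) (nat_lit 0) .nil) .nil))) 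
(.lf (nat_lit 542326) (.g (nat_lit 2097) (.e (nat_lit 98335) (nat_lit 18) (.e (nat_lit 164332) (nat_lit 230) (.e (nat_lit 163905) (nat_lit 12) (.e (nat_lit 426479) (nat_lit 27) (.e (nat_lit 336443) (nat_lit 32) (.e (nat_lit 474880) (nat_lit 3) .nil)))))) (.g (nat_lit 1) (.e (nat_lit 273805) (nat_lit 0) .nil) .nil)))) (.nd (nat_lit 9) 
(.lf (nat_lit 542070) (.g (nat_lit 2232) (.e (nat_lit 98335) (nat_lit 18) (.e (nat_lit 164178) (nat_lit 154) (.e (nat_lit 57407) (nat_lit 12) (.e (nat_lit 336456) (nat_lit 34) (.e (nat_lit 483393) (nat_lit 23) .nil))))) (.g (nat_lit 0) (.e (nat_lit 273460) (nat_lit 0) .nil) .nil))) 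
(.lf (nat_lit 542582) (.g (nat_lit 1119) (.e (nat_lit 98342) (nat_lit 20) (.e (nat_lit 221193) (nat_lit 11) (.e (nat_lit 336027) (nat_lit 3) (.e (nat_lit 98354) (nat_lit 26) .nil)))) (.g (nat_lit 0) (.e (nat_lit 274116) (nat_lit 0) .nil) .nil))))) (.nd (nat_lit 8) (.nd (nat_lit 9) 
(.lf (nat_lit 541942) (.g (nat_lit 5641) (.e (nat_lit 98334) (nat_lit 18) (.e (nat_lit 164305) (nat_lit 226) (.e (nat_lit 2612) (nat_lit 163) (.e (nat_lit 163978) (nat_lit 30) (.e (nat_lit 573489) (nat_lit 14) (.e (nat_lit 73755) (nat_lit 8) (.e (nat_lit 557097) (nat_lit 13) (.e (nat_lit 179968) (nat_lit 18) .nil)))))))) (.g (nat_lit 1) (.e (nat_lit 273219) (nat_lit 0) .nil) .nil))) 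
(.lf (nat_lit 542454) (.g (nat_lit 1685) (.e (nat_lit 98339) (nat_lit 19) (.e (nat_lit 213032) (nat_lit 11) (.e (nat_lit 24608) (nat_lit 3) (.e (nat_lit 98369) (nat_lit 28) (.e (nat_lit 450304) (nat_lit 3) .nil))))) (.g (nat_lit 1) (.e (nat_lit 273975) (nat_lit 0) .nil) .nil)))) (.nd (nat_lit 9) 
(.lf (nat_lit 542198) (.g (nat_lit 1378) (.e (nat_lit 98335) (nat_lit 18) (.e (nat_lit 164327) (nat_lit 230) (.e (nat_lit 163903) (nat_lit 12) (.e (nat_lit 426481) (nat_lit 27) .nil)))) (.g (nat_lit 0) (.e (nat_lit 273631) (nat_lit 0) .nil) .nil))) 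
(.lf (nat_lit 542710) (.g (nat_lit 597) (.e (nat_lit 98344) (nat_lit 21) (.e (nat_lit 229678) (nat_lit 244) (.e (nat_lit 163867) (nat_lit 2) .nil))) (.g (nat_lit 0) (.e (nat_lit 274271) (nat_lit 0) .nil) .nil))))))))) (.nd (nat_lit 4) (.nd (nat_lit 5) (.nd (nat_lit 6) (.nd (nat_lit 7) (.nd (nat_lit 8) (.nd (nat_lit 9) 
(.lf (nat_lit 541710) (.g (nat_lit 4213) (.e (nat_lit 98333) (nat_lit 18) (.e (nat_lit 164325) (nat_lit 230) (.e (nat_lit 163851) (nat_lit 0) (.e (nat_lit 3307) (nat_lit 202) (.e (nat_lit 573489) (nat_lit 14) (.e (nat_lit 73755) (nat_lit 8) (.e (nat_lit 557097) (nat_lit 13) (.e (nat_lit 179968) (nat_lit 18) .nil)))))))) (.g (nat_lit 1) (.e (nat_lit 272850) (nat_lit 0) .nil) .nil))) 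
(.lf (nat_lit 542222) (.g (nat_lit 1958) (.e (nat_lit 98335) (nat_lit 18) (.e (nat_lit 164329) (nat_lit 230) (.e (nat_lit 163902) (nat_lit 12) (.e (nat_lit 426479) (nat_lit 27) (.e (nat_lit 336414) (nat_lit 27) (.e (nat_lit 426228) (nat_lit 9) (.e (nat_lit 426435) (nat_lit 18) .nil))))))) (.g (nat_lit 1) (.e (nat_lit 273660) (nat_lit 0) .nil) .nil)))) (.nd (nat_lit 9) 
(.lf (nat_lit 541966) (.g (nat_lit 4180) (.e (nat_lit 98334) (nat_lit 18) (.e (nat_lit 164330) (nat_lit 230) (.e (nat_lit 163851) (nat_lit 0) (.e (nat_lit 3307) (nat_lit 202) (.e (nat_lit 573489) (nat_lit 14) (.e (nat_lit 73755) (nat_lit 8) (.e (nat_lit 557097) (nat_lit 13) (.e (nat_lit 179968) (nat_lit 18) .nil)))))))) (.g (nat_lit 1) (.e (nat_lit 273257) (nat_lit 0) .nil) .nil))) 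
(.lf (nat_lit 542478) (.g (nat_lit 1423) (.e (nat_lit 98340) (nat_lit 20) (.e (nat_lit 221210) (nat_lit 22) (.e (nat_lit 196681) (nat_lit 17) (.e (nat_lit 131096) (nat_lit 3) .nil)))) (.g (nat_lit 0) (.e (nat_lit 273999) (nat_lit 0) .nil) .nil))))) (.nd (nat_lit 8) (.nd (nat_lit 9) 
(.lf (nat_lit 541838) (.g (nat_lit 2287) (.e (nat_lit 98333) (nat_lit 18) (.e (nat_lit 164327) (nat_lit 230) (.e (nat_lit 163903) (nat_lit 12) (.e (nat_lit 426566) (nat_lit 34) (.e (nat_lit 393270) (nat_lit 23) (.e (nat_lit 426434) (nat_lit 18) .nil)))))) (.g (nat_lit 1) (.e (nat_lit 273036) (nat_lit 0) .nil) .nil))) 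
(.lf (nat_lit 542350) (.g (nat_lit 2735) (.e (nat_lit 98335) (nat_lit 18) (.e (nat_lit 164332) (nat_lit 230) (.e (nat_lit 163905) (nat_lit 12) (.e (nat_lit 426512) (nat_lit 27) (.e (nat_lit 336408) (nat_lit 27) .nil))))) (.g (nat_lit 0) (.e (nat_lit 273829) (nat_lit 0) .nil) .nil)))) (.nd (nat_lit 9) 
(.lf (nat_lit 542094) (.g (nat_lit 4287) (.e (nat_lit 98335) (nat_lit 18) (.e (nat_lit 164183) (nat_lit 154) (.e (nat_lit 57379) (nat_lit 3) (.e (nat_lit 98342) (nat_lit 20) (.e (nat_lit 221215) (nat_lit 23) (.e (nat_lit 204861) (nat_lit 26) (.e (nat_lit 336026) (nat_lit 3) .nil))))))) (.g (nat_lit 1) (.e (nat_lit 273491) (nat_lit 0) .nil) .nil))) 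
(.lf (nat_lit 542606) (.g (nat_lit 4830) (.e (nat_lit 98342) (nat_lit 20) (.e (nat_lit 221210) (nat_lit 22) (.e (nat_lit 196670) (nat_lit 14) (.e (nat_lit 73746) (nat_lit 3) (.e (nat_lit 516117) (nat_lit 1) (.e (nat_lit 164182) (nat_lit 154) (.e (nat_lit 57379) (nat_lit 3) .nil))))))) (.g (nat_lit 1) (.e (nat_lit 274147) (nat_lit 0) .nil) .nil)))))) 
(.nd (nat_lit 7) (.nd (nat_lit 8) (.nd (nat_lit 9) 
(.lf (nat_lit 541774) (.g (nat_lit 3301) (.e (nat_lit 98333) (nat_lit 18) (.e (nat_lit 164325) (nat_lit 230) (.e (nat_lit 163941) (nat_lit 19) (.e (nat_lit 483333) (nat_lit 0) (.e (nat_lit 6988) (nat_lit 377) (.e (nat_lit 1076) (nat_lit 81) (.e (nat_lit 5629) (nat_lit 312) (.e (nat_lit 112) (nat_lit 3) .nil)))))))) (.g (nat_lit 1) (.e (nat_lit 272930) (nat_lit 0) .nil) .nil))) 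
(.lf (nat_lit 542286) (.g (nat_lit 1518) (.e (nat_lit 98335) (nat_lit 18) (.e (nat_lit 164330) (nat_lit 230) (.e (nat_lit 163942) (nat_lit 19) (.e (nat_lit 483339) (nat_lit 9) (.e (nat_lit 426259) (nat_lit 9) (.e (nat_lit 433920) (nat_lit 18) .nil)))))) (.g (nat_lit 1) (.e (nat_lit 273750) (nat_lit 0) .nil) .nil)))) (.nd (nat_lit 9) 
(.lf (nat_lit 542030) (.g (nat_lit 1756) (.e (nat_lit 98334) (nat_lit 18) (.e (nat_lit 164332) (nat_lit 230) (.e (nat_lit 163905) (nat_lit 12) (.e (nat_lit 426507) (nat_lit 27) .nil)))) (.g (nat_lit 0) (.e (nat_lit 273394) (nat_lit 0) .nil) .nil))) 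
(.lf (nat_lit 542542) (.g (nat_lit 4439) (.e (nat_lit 98341) (nat_lit 20) (.e (nat_lit 221212) (nat_lit 22) (.e (nat_lit 196670) (nat_lit 14) (.e (nat_lit 73746) (nat_lit 3) (.e (nat_lit 516117) (nat_lit 1) (.e (nat_lit 164182) (nat_lit 154) (.e (nat_lit 57379) (nat_lit 3) .nil))))))) (.g (nat_lit 1) (.e (nat_lit 274071) (nat_lit 0) .nil) .nil))))) (.nd (nat_lit 8) (.nd (nat_lit 9) 
(.lf (nat_lit 541902) (.g (nat_lit 2087) (.e (nat_lit 98333) (nat_lit 18) (.e (nat_lit 164398) (nat_lit 256) (.e (nat_lit 57374) (nat_lit 2) (.e (nat_lit 90174) (nat_lit 14) (.e (nat_lit 180243) (nat_lit 5) .nil))))) (.g (nat_lit 0) (.e (nat_lit 273134) (nat_lit 0) .nil) .nil))) 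
(.lf (nat_lit 542414) (.g (nat_lit 979) (.e (nat_lit 98338) (nat_lit 19) (.e (nat_lit 213030) (nat_lit 11) (.e (nat_lit 24609) (nat_lit 3) (.e (nat_lit 98380) (nat_lit 31) (.e (nat_lit 474880) (nat_lit 3) .nil))))) (.g (nat_lit 0) (.e (nat_lit 273913) (nat_lit 0) .nil) .nil)))) (.nd (nat_lit 9) 
(.lf (nat_lit 542158) (.g (nat_lit 1997) (.e (nat_lit 98335) (nat_lit 18) (.e (nat_lit 164325) (nat_lit 230) (.e (nat_lit 163941) (nat_lit 19) (.e (nat_lit 483339) (nat_lit 9) (.e (nat_lit 426228) (nat_lit 9) (.e (nat_lit 426435) (nat_lit 18) .nil)))))) (.g (nat_lit 1) (.e (nat_lit 273582) (nat_lit 0) .nil) .nil))) 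
(.lf (nat_lit 542670) (.g (nat_lit 3460) (.e (nat_lit 98342) (nat_lit 20) (.e (nat_lit 221214) (nat_lit 23) (.e (nat_lit 204863) (nat_lit 27) (.e (nat_lit 344117) (nat_lit 21) (.e (nat_lit 516099) (nat_lit 0) (.e (nat_lit 2474) (nat_lit 157) (.e (nat_lit 6400) (nat_lit 339) (.e (nat_lit 57379) (nat_lit 3) .nil)))))))) (.g (nat_lit 1) (.e (nat_lit 274213) (nat_lit 0) .nil) .nil))))))) 
(.nd (nat_lit 6) (.nd (nat_lit 7) (.nd (nat_lit 8) (.nd (nat_lit 9) 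
(.lf (nat_lit 541742) (.g (nat_lit 3749) (.e (nat_lit 98333) (nat_lit 18) (.e (nat_lit 164325) (nat_lit 230) (.e (nat_lit 163903) (nat_lit 12) (.e (nat_lit 426566) (nat_lit 34) (.e (nat_lit 393273) (nat_lit 23) (.e (nat_lit 426437) (nat_lit 18) .nil)))))) (.g (nat_lit 1) (.e (nat_lit 272896) (nat_lit 0) .nil) .nil))) 
(.lf (nat_lit 542254) (.g (nat_lit 2937) (.e (nat_lit 98335) (nat_lit 18) (.e (nat_lit 164330) (nat_lit 230) (.e (nat_lit 163873) (nat_lit 3) (.e (nat_lit 204813) (nat_lit 9) (.e (nat_lit 426139) (nat_lit 3) .nil))))) (.g (nat_lit 0) (.e (nat_lit 273707) (nat_lit 0) .nil) .nil)))) (.nd (nat_lit 9) 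
(.lf (nat_lit 541998) (.g (nat_lit 2466) (.e (nat_lit 98334) (nat_lit 18) (.e (nat_lit 164330) (nat_lit 230) (.e (nat_lit 163905) (nat_lit 12) (.e (nat_lit 426566) (nat_lit 34) (.e (nat_lit 393272) (nat_lit 23) (.e (nat_lit 426434) (nat_lit 18) .nil)))))) (.g (nat_lit 1) (.e (nat_lit 273312) (nat_lit 0) .nil) .nil))) 
(.lf (nat_lit 542510) (.g (nat_lit 3154) (.e (nat_lit 98341) (nat_lit 20) (.e (nat_lit 221210) (nat_lit 22) (.e (nat_lit 196668) (nat_lit 14) (.e (nat_lit 73746) (nat_lit 3) (.e (nat_lit 516118) (nat_lit 1) (.e (nat_lit 164183) (nat_lit 154) (.e (nat_lit 57378) (nat_lit 3) .nil))))))) (.g (nat_lit 1) (.e (nat_lit 274039) (nat_lit 0) .nil) .nil))))) (.nd (nat_lit 8) (.nd (nat_lit 9) 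
(.lf (nat_lit 541870) (.g (nat_lit 2869) (.e (nat_lit 98333) (nat_lit 18) (.e (nat_lit 164331) (nat_lit 230) (.e (nat_lit 163902) (nat_lit 12) (.e (nat_lit 426566) (nat_lit 34) (.e (nat_lit 393272) (nat_lit 23) .nil))))) (.g (nat_lit 0) (.e (nat_lit 273084) (nat_lit 0) .nil) .nil))) 
(.lf (nat_lit 542382) (.g (nat_lit 1503) (.e (nat_lit 98336) (nat_lit 19) (.e (nat_lit 213032) (nat_lit 11) (.e (nat_lit 24608) (nat_lit 3) (.e (nat_lit 98365) (nat_lit 26) .nil)))) (.g (nat_lit 0) (.e (nat_lit 273877) (nat_lit 0) .nil) .nil)))) (.nd (nat_lit 9) 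
(.lf (nat_lit 542126) (.g (nat_lit 2142) (.e (nat_lit 98335) (nat_lit 18) (.e (nat_lit 164324) (nat_lit 230) (.e (nat_lit 163903) (nat_lit 12) (.e (nat_lit 426479) (nat_lit 27) (.e (nat_lit 336428) (nat_lit 29) (.e (nat_lit 450304) (nat_lit 3) .nil)))))) (.g (nat_lit 1) (.e (nat_lit 273540) (nat_lit 0) .nil) .nil))) 
(.lf (nat_lit 542638) (.g (nat_lit 4332) (.e (nat_lit 98342) (nat_lit 20) (.e (nat_lit 221213) (nat_lit 23) (.e (nat_lit 204829) (nat_lit 18) (.e (nat_lit 57927) (nat_lit 282) (.e (nat_lit 163870) (nat_lit 2) (.e (nat_lit 196666) (nat_lit 13) (.e (nat_lit 65569) (nat_lit 3) .nil))))))) (.g (nat_lit 1) (.e (nat_lit 274179) (nat_lit 0) .nil) .nil)))))) 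
(.nd (nat_lit 7) (.nd (nat_lit 8) (.nd (nat_lit 9) 
(.lf (nat_lit 541806) (.g (nat_lit 3418) (.e (nat_lit 98333) (nat_lit 18) (.e (nat_lit 164327) (nat_lit 230) (.e (nat_lit 163871) (nat_lit 2) (.e (nat_lit 196656) (nat_lit 11) (.e (nat_lit 16416) (nat_lit 3) (.e (nat_lit 204838) (nat_lit 20) (.e (nat_lit 114717) (nat_lit 23) .nil))))))) (.g (nat_lit 1) (.e (nat_lit 272996) (nat_lit 0) .nil) .nil))) 
(.lf (nat_lit 542318) (.g (nat_lit 2098) (.e (nat_lit 98335) (nat_lit 18) (.e (nat_lit 164332) (nat_lit 230) (.e (nat_lit 163902) (nat_lit 12) (.e (nat_lit 426502) (nat_lit 27) .nil)))) (.g (nat_lit 0) (.e (nat_lit 273797) (nat_lit 0) .nil) .nil)))) (.nd (nat_lit 9) 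
(.lf (nat_lit 542062) (.g (nat_lit 2657) (.e (nat_lit 98334) (nat_lit 18) (.e (nat_lit 164403) (nat_lit 256) (.e (nat_lit 57370) (nat_lit 2) (.e (nat_lit 90170) (nat_lit 13) (.e (nat_lit 172065) (nat_lit 3) .nil))))) (.g (nat_lit 0) (.e (nat_lit 273447) (nat_lit 0) .nil) .nil))) 
(.lf (nat_lit 542574) (.g (nat_lit 2913) (.e (nat_lit 98341) (nat_lit 20) (.e (nat_lit 221215) (nat_lit 23) (.e (nat_lit 204861) (nat_lit 26) (.e (nat_lit 336027) (nat_lit 3) (.e (nat_lit 98335) (nat_lit 18) (.e (nat_lit 164183) (nat_lit 154) (.e (nat_lit 57378) (nat_lit 3) .nil))))))) (.g (nat_lit 1) (.e (nat_lit 274106) (nat_lit 0) .nil) .nil))))) (.nd (nat_lit 8) (.nd (nat_lit 9) 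
(.lf (nat_lit 541934) (.g (nat_lit 3632) (.e (nat_lit 98334) (nat_lit 18) (.e (nat_lit 164183) (nat_lit 154) (.e (nat_lit 57379) (nat_lit 3) (.e (nat_lit 98341) (nat_lit 20) (.e (nat_lit 221212) (nat_lit 22) (.e (nat_lit 196681) (nat_lit 17) (.e (nat_lit 131098) (nat_lit 3) .nil))))))) (.g (nat_lit 1) (.e (nat_lit 273200) (nat_lit 0) .nil) .nil))) 
(.lf (nat_lit 542446) (.g (nat_lit 1813) (.e (nat_lit 98339) (nat_lit 19) (.e (nat_lit 213032) (nat_lit 11) (.e (nat_lit 24604) (nat_lit 2) (.e (nat_lit 90178) (nat_lit 15) (.e (nat_lit 196352) (nat_lit 3) .nil))))) (.g (nat_lit 1) (.e (nat_lit 273964) (nat_lit 0) .nil) .nil)))) (.nd (nat_lit 9) 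
(.lf (nat_lit 542190) (.g (nat_lit 2384) (.e (nat_lit 98335) (nat_lit 18) (.e (nat_lit 164327) (nat_lit 230) (.e (nat_lit 163903) (nat_lit 12) (.e (nat_lit 426479) (nat_lit 27) (.e (nat_lit 336414) (nat_lit 27) (.e (nat_lit 426228) (nat_lit 9) (.e (nat_lit 426435) (nat_lit 18) .nil))))))) (.g (nat_lit 1) (.e (nat_lit 273623) (nat_lit 0) .nil) .nil))) 
(.lf (nat_lit 542702) (.g (nat_lit 3973) (.e (nat_lit 98342) (nat_lit 20) (.e (nat_lit 221215) (nat_lit 23) (.e (nat_lit 204861) (nat_lit 26) (.e (nat_lit 336027) (nat_lit 3) (.e (nat_lit 98333) (nat_lit 18) (.e (nat_lit 164182) (nat_lit 154) (.e (nat_lit 57378) (nat_lit 3) .nil))))))) (.g (nat_lit 1) (.e (nat_lit 274248) (nat_lit 0) .nil) .nil)))))))) 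
(.nd (nat_lit 5) (.nd (nat_lit 6) (.nd (nat_lit 7) (.nd (nat_lit 8) (.nd (nat_lit 9) 
(.lf (nat_lit 541726) (.g (nat_lit 1264) (.e (nat_lit 98333) (nat_lit 18) (.e (nat_lit 164325) (nat_lit 230) (.e (nat_lit 163902) (nat_lit 12) (.e (nat_lit 426566) (nat_lit 34) .nil)))) (.g (nat_lit 0) (.e (nat_lit 272880) (nat_lit 0) .nil) .nil))) 
(.lf (nat_lit 542238) (.g (nat_lit 2928) (.e (nat_lit 98335) (nat_lit 18) (.e (nat_lit 164330) (nat_lit 230) (.e (nat_lit 163845) (nat_lit 0) (.e (nat_lit 3309) (nat_lit 202) (.e (nat_lit 573489) (nat_lit 14) (.e (nat_lit 73755) (nat_lit 8) (.e (nat_lit 557097) (nat_lit 13) (.e (nat_lit 179968) (nat_lit 18) .nil)))))))) (.g (nat_lit 1) (.e (nat_lit 273681) (nat_lit 0) .nil) .nil)))) 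
(.nd (nat_lit 9) 
(.lf (nat_lit 541982) (.g (nat_lit 2962) (.e (nat_lit 98334) (nat_lit 18) (.e (nat_lit 164330) (nat_lit 230) (.e (nat_lit 163902) (nat_lit 12) (.e (nat_lit 426479) (nat_lit 27) (.e (nat_lit 336414) (nat_lit 27) (.e (nat_lit 426228) (nat_lit 9) (.e (nat_lit 426435) (nat_lit 18) .nil))))))) (.g (nat_lit 1) (.e (nat_lit 273296) (nat_lit 0) .nil) .nil))) 
(.lf (nat_lit 542494) (.g (nat_lit 1578) (.e (nat_lit 98340) (nat_lit 20) (.e (nat_lit 221215) (nat_lit 23) (.e (nat_lit 204861) (nat_lit 26) (.e (nat_lit 336026) (nat_lit 3) .nil)))) (.g (nat_lit 0) (.e (nat_lit 274015) (nat_lit 0) .nil) .nil))))) (.nd (nat_lit 8) (.nd (nat_lit 9) 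
(.lf (nat_lit 541854) (.g (nat_lit 747) (.e (nat_lit 98333) (nat_lit 18) (.e (nat_lit 164327) (nat_lit 230) (.e (nat_lit 163941) (nat_lit 19) (.e (nat_lit 483341) (nat_lit 9) .nil)))) (.g (nat_lit 0) (.e (nat_lit 273053) (nat_lit 0) .nil) .nil))) 
(.lf (nat_lit 542366) (.g (nat_lit 3915) (.e (nat_lit 98335) (nat_lit 18) (.e (nat_lit 164332) (nat_lit 230) (.e (nat_lit 163943) (nat_lit 19) (.e (nat_lit 483341) (nat_lit 9) (.e (nat_lit 426188) (nat_lit 9) (.e (nat_lit 426436) (nat_lit 18) .nil)))))) (.g (nat_lit 1) (.e (nat_lit 273855) (nat_lit 0) .nil) .nil)))) (.nd (nat_lit 9) 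
(.lf (nat_lit 542110) (.g (nat_lit 4916) (.e (nat_lit 98335) (nat_lit 18) (.e (nat_lit 164305) (nat_lit 226) (.e (nat_lit 2612) (nat_lit 163) (.e (nat_lit 163979) (nat_lit 30) (.e (nat_lit 573489) (nat_lit 14) (.e (nat_lit 73755) (nat_lit 8) (.e (nat_lit 557098) (nat_lit 13) (.e (nat_lit 179968) (nat_lit 18) .nil)))))))) (.g (nat_lit 1) (.e (nat_lit 273520) (nat_lit 0) .nil) .nil))) 
(.lf (nat_lit 542622) (.g (nat_lit 4699) (.e (nat_lit 98342) (nat_lit 20) (.e (nat_lit 221212) (nat_lit 22) (.e (nat_lit 196668) (nat_lit 14) (.e (nat_lit 73747) (nat_lit 3) (.e (nat_lit 516115) (nat_lit 1) (.e (nat_lit 164183) (nat_lit 154) (.e (nat_lit 57378) (nat_lit 3) .nil))))))) (.g (nat_lit 1) (.e (nat_lit 274163) (nat_lit 0) .nil) .nil)))))) 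
(.nd (nat_lit 7) (.nd (nat_lit 8) (.nd (nat_lit 9) 
(.lf (nat_lit 541790) (.g (nat_lit 3099) (.e (nat_lit 98333) (nat_lit 18) (.e (nat_lit 164327) (nat_lit 230) (.e (nat_lit 163868) (nat_lit 2) (.e (nat_lit 196654) (nat_lit 11) (.e (nat_lit 16416) (nat_lit 3) (.e (nat_lit 204834) (nat_lit 19) (.e (nat_lit 106517) (nat_lit 9) (.e (nat_lit 1255) (nat_lit 92) .nil)))))))) (.g (nat_lit 1) (.e (nat_lit 272975) (nat_lit 0) .nil) .nil))) 
(.lf (nat_lit 542302) (.g (nat_lit 2488) (.e (nat_lit 98335) (nat_lit 18) (.e (nat_lit 164332) (nat_lit 230) (.e (nat_lit 163873) (nat_lit 3) (.e (nat_lit 204809) (nat_lit 9) (.e (nat_lit 426139) (nat_lit 3) .nil))))) (.g (nat_lit 0) (.e (nat_lit 273779) (nat_lit 0) .nil) .nil)))) (.nd (nat_lit 9) 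
(.lf (nat_lit 542046) (.g (nat_lit 1274) (.e (nat_lit 98334) (nat_lit 18) (.e (nat_lit 164398) (nat_lit 256) (.e (nat_lit 57375) (nat_lit 2) (.e (nat_lit 90174) (nat_lit 14) (.e (nat_lit 180243) (nat_lit 5) .nil))))) (.g (nat_lit 0) (.e (nat_lit 273429) (nat_lit 0) .nil) .nil))) 
(.lf (nat_lit 542558) (.g (nat_lit 3267) (.e (nat_lit 98341) (nat_lit 20) (.e (nat_lit 221214) (nat_lit 23) (.e (nat_lit 204863) (nat_lit 27) (.e (nat_lit 344117) (nat_lit 21) (.e (nat_lit 516099) (nat_lit 0) (.e (nat_lit 2464) (nat_lit 157) (.e (nat_lit 6398) (nat_lit 339) (.e (nat_lit 57379) (nat_lit 3) .nil)))))))) (.g (nat_lit 1) (.e (nat_lit 274089) (nat_lit 0) .nil) .nil))))) 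
(.nd (nat_lit 8) (.nd (nat_lit 9) 
(.lf (nat_lit 541918) (.g (nat_lit 2966) (.e (nat_lit 98333) (nat_lit 18) (.e (nat_lit 164403) (nat_lit 256) (.e (nat_lit 57378) (nat_lit 3) (.e (nat_lit 98367) (nat_lit 27) (.e (nat_lit 434232) (nat_lit 23) .nil))))) (.g (nat_lit 0) (.e (nat_lit 273155) (nat_lit 0) .nil) .nil))) 
(.lf (nat_lit 542430) (.g (nat_lit 1672) (.e (nat_lit 98338) (nat_lit 19) (.e (nat_lit 213032) (nat_lit 11) (.e (nat_lit 24609) (nat_lit 3) (.e (nat_lit 98370) (nat_lit 28) (.e (nat_lit 450304) (nat_lit 3) .nil))))) (.g (nat_lit 0) (.e (nat_lit 273931) (nat_lit 0) .nil) .nil)))) (.nd (nat_lit 9) 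
(.lf (nat_lit 542174) (.g (nat_lit 1911) (.e (nat_lit 98335) (nat_lit 18) (.e (nat_lit 164327) (nat_lit 230) (.e (nat_lit 163868) (nat_lit 2) (.e (nat_lit 196656) (nat_lit 11) .nil)))) (.g (nat_lit 0) (.e (nat_lit 273605) (nat_lit 0) .nil) .nil))) 
(.lf (nat_lit 542686) (.g (nat_lit 1442) (.e (nat_lit 98342) (nat_lit 20) (.e (nat_lit 221215) (nat_lit 23) (.e (nat_lit 204830) (nat_lit 18) (.e (nat_lit 57929) (nat_lit 282) .nil)))) (.g (nat_lit 0) (.e (nat_lit 274232) (nat_lit 0) .nil) .nil))))))) (.nd (nat_lit 6) (.nd (nat_lit 7) (.nd (nat_lit 8) (.nd (nat_lit 9) 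
(.lf (nat_lit 541758) (.g (nat_lit 1932) (.e (nat_lit 98333) (nat_lit 18) (.e (nat_lit 164325) (nat_lit 230) (.e (nat_lit 163907) (nat_lit 12) (.e (nat_lit 426507) (nat_lit 27) (.e (nat_lit 336408) (nat_lit 27) .nil))))) (.g (nat_lit 0) (.e (nat_lit 272913) (nat_lit 0) .nil) .nil))) 
(.lf (nat_lit 542270) (.g (nat_lit 1751) (.e (nat_lit 98335) (nat_lit 18) (.e (nat_lit 164330) (nat_lit 230) (.e (nat_lit 163905) (nat_lit 12) (.e (nat_lit 426530) (nat_lit 27) (.e (nat_lit 336402) (nat_lit 27) .nil))))) (.g (nat_lit 0) (.e (nat_lit 273724) (nat_lit 0) .nil) .nil)))) (.nd (nat_lit 9) 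
(.lf (nat_lit 542014) (.g (nat_lit 1741) (.e (nat_lit 98334) (nat_lit 18) (.e (nat_lit 164332) (nat_lit 230) (.e (nat_lit 163902) (nat_lit 12) (.e (nat_lit 426479) (nat_lit 27) (.e (nat_lit 336427) (nat_lit 29) (.e (nat_lit 450304) (nat_lit 3) .nil)))))) (.g (nat_lit 1) (.e (nat_lit 273377) (nat_lit 0) .nil) .nil))) 
(.lf (nat_lit 542526) (.g (nat_lit 2293) (.e (nat_lit 98341) (nat_lit 20) (.e (nat_lit 221210) (nat_lit 22) (.e (nat_lit 196681) (nat_lit 17) (.e (nat_lit 131097) (nat_lit 3) .nil)))) (.g (nat_lit 0) (.e (nat_lit 274055) (nat_lit 0) .nil) .nil))))) (.nd (nat_lit 8) (.nd (nat_lit 9) 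
(.lf (nat_lit 541886) (.g (nat_lit 3152) (.e (nat_lit 98333) (nat_lit 18) (.e (nat_lit 164332) (nat_lit 230) (.e (nat_lit 163902) (nat_lit 12) (.e (nat_lit 426568) (nat_lit 34) (.e (nat_lit 393271) (nat_lit 23) (.e (nat_lit 426438) (nat_lit 18) .nil)))))) (.g (nat_lit 1) (.e (nat_lit 273109) (nat_lit 0) .nil) .nil))) 
(.lf (nat_lit 542398) (.g (nat_lit 1865) (.e (nat_lit 98337) (nat_lit 19) (.e (nat_lit 213032) (nat_lit 11) (.e (nat_lit 24608) (nat_lit 3) (.e (nat_lit 98371) (nat_lit 28) .nil)))) (.g (nat_lit 0) (.e (nat_lit 273893) (nat_lit 0) .nil) .nil)))) (.nd (nat_lit 9) 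
(.lf (nat_lit 542142) (.g (nat_lit 1600) (.e (nat_lit 98335) (nat_lit 18) (.e (nat_lit 164325) (nat_lit 230) (.e (nat_lit 163875) (nat_lit 3) (.e (nat_lit 204838) (nat_lit 20) (.e (nat_lit 114716) (nat_lit 22) .nil))))) (.g (nat_lit 0) (.e (nat_lit 273566) (nat_lit 0) .nil) .nil))) 
(.lf (nat_lit 542654) (.g (nat_lit 5009) (.e (nat_lit 98342) (nat_lit 20) (.e (nat_lit 221214) (nat_lit 23) (.e (nat_lit 204830) (nat_lit 18) (.e (nat_lit 57926) (nat_lit 282) (.e (nat_lit 163870) (nat_lit 2) (.e (nat_lit 196666) (nat_lit 13) (.e (nat_lit 65571) (nat_lit 3) .nil))))))) (.g (nat_lit 1) (.e (nat_lit 274197) (nat_lit 0) .nil) .nil)))))) 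
(.nd (nat_lit 7) (.nd (nat_lit 8) (.nd (nat_lit 9) 
(.lf (nat_lit 541822) (.g (nat_lit 2529) (.e (nat_lit 98333) (nat_lit 18) (.e (nat_lit 164327) (nat_lit 230) (.e (nat_lit 163875) (nat_lit 3) (.e (nat_lit 204837) (nat_lit 20) (.e (nat_lit 114716) (nat_lit 22) (.e (nat_lit 90168) (nat_lit 13) (.e (nat_lit 179968) (nat_lit 18) .nil))))))) (.g (nat_lit 1) (.e (nat_lit 273019) (nat_lit 0) .nil) .nil))) 
(.lf (nat_lit 542334) (.g (nat_lit 2426) (.e (nat_lit 98335) (nat_lit 18) (.e (nat_lit 164332) (nat_lit 230) (.e (nat_lit 163905) (nat_lit 12) (.e (nat_lit 426487) (nat_lit 27) (.e (nat_lit 336405) (nat_lit 27) .nil))))) (.g (nat_lit 0) (.e (nat_lit 273813) (nat_lit 0) .nil) .nil)))) (.nd (nat_lit 9) 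
(.lf (nat_lit 542078) (.g (nat_lit 1653) (.e (nat_lit 98335) (nat_lit 18) (.e (nat_lit 164179) (nat_lit 154) (.e (nat_lit 57411) (nat_lit 12) (.e (nat_lit 336454) (nat_lit 34) .nil)))) (.g (nat_lit 0) (.e (nat_lit 273470) (nat_lit 0) .nil) .nil))) 
(.lf (nat_lit 542590) (.g (nat_lit 4293) (.e (nat_lit 98342) (nat_lit 20) (.e (nat_lit 221210) (nat_lit 22) (.e (nat_lit 196668) (nat_lit 14) (.e (nat_lit 73746) (nat_lit 3) (.e (nat_lit 516115) (nat_lit 1) (.e (nat_lit 164179) (nat_lit 154) (.e (nat_lit 57377) (nat_lit 3) .nil))))))) (.g (nat_lit 1) (.e (nat_lit 274131) (nat_lit 0) .nil) .nil))))) (.nd (nat_lit 8) (.nd (nat_lit 9) 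
(.lf (nat_lit 541950) (.g (nat_lit 1485) (.e (nat_lit 98334) (nat_lit 18) (.e (nat_lit 164322) (nat_lit 230) (.e (nat_lit 163902) (nat_lit 12) (.e (nat_lit 426568) (nat_lit 34) .nil)))) (.g (nat_lit 0) (.e (nat_lit 273230) (nat_lit 0) .nil) .nil))) 
(.lf (nat_lit 542462) (.g (nat_lit 1267) (.e (nat_lit 98339) (nat_lit 19) (.e (nat_lit 213032) (nat_lit 11) (.e (nat_lit 24609) (nat_lit 3) (.e (nat_lit 98380) (nat_lit 31) (.e (nat_lit 474880) (nat_lit 3) .nil))))) (.g (nat_lit 1) (.e (nat_lit 273983) (nat_lit 0) .nil) .nil)))) (.nd (nat_lit 9) 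
(.lf (nat_lit 542206) (.g (nat_lit 676) (.e (nat_lit 98335) (nat_lit 18) (.e (nat_lit 164327) (nat_lit 230) (.e (nat_lit 163941) (nat_lit 19) (.e (nat_lit 483341) (nat_lit 9) .nil)))) (.g (nat_lit 0) (.e (nat_lit 273639) (nat_lit 0) .nil) .nil))) 
(.lf (nat_lit 542718) (.g (nat_lit 2723) (.e (nat_lit 98349) (nat_lit 24) (.e (nat_lit 409644) (nat_lit 18) (.e (nat_lit 303119) (nat_lit 3) (.e (nat_lit 204846) (nat_lit 24) (.e (nat_lit 319490) (nat_lit 0) (.e (nat_lit 5293) (nat_lit 298) (.e (nat_lit 1250) (nat_lit 92) .nil))))))) (.g (nat_lit 1) (.e (nat_lit 274350) (nat_lit 0) .nil) .nil)))))))))))) 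
(.nd (nat_lit 1) (.nd (nat_lit 2) (.nd (nat_lit 3) (.nd (nat_lit 4) (.nd (nat_lit 5) 
(.nd (nat_lit 6) (.nd (nat_lit 7) (.nd (nat_lit 8) (.nd (nat_lit 9) 
(.lf (nat_lit 541697) (.g (nat_lit 4202) (.e (nat_lit 98333) (nat_lit 18) (.e (nat_lit 164182) (nat_lit 154) (.e (nat_lit 57379) (nat_lit 3) (.e (nat_lit 98342) (nat_lit 20) (.e (nat_lit 221215) (nat_lit 23) (.e (nat_lit 204861) (nat_lit 26) (.e (nat_lit 336021) (nat_lit 3) .nil))))))) (.g (nat_lit 1) (.e (nat_lit 272811) (nat_lit 0) .nil) .nil))) 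
(.lf (nat_lit 542209) (.g (nat_lit 1044) (.e (nat_lit 98335) (nat_lit 18) (.e (nat_lit 164327) (nat_lit 230) (.e (nat_lit 163941) (nat_lit 19) (.e (nat_lit 491264) (nat_lit 9) .nil)))) (.g (nat_lit 0) (.e (nat_lit 273644) (nat_lit 0) .nil) .nil)))) (.nd (nat_lit 9) 
(.lf (nat_lit 541953) (.g (nat_lit 1062) (.e (nat_lit 98334) (nat_lit 18) (.e (nat_lit 164329) (nat_lit 230) (.e (nat_lit 163902) (nat_lit 12) (.e (nat_lit 426479) (nat_lit 27) (.e (nat_lit 336395) (nat_lit 27) .nil))))) (.g (nat_lit 0) (.e (nat_lit 273236) (nat_lit 0) .nil) .nil))) 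
(.lf (nat_lit 542465) (.g (nat_lit 982) (.e (nat_lit 106240) (nat_lit 19) (.e (nat_lit 213032) (nat_lit 11) (.e (nat_lit 24608) (nat_lit 3) (.e (nat_lit 98363) (nat_lit 26) (.e (nat_lit 426228) (nat_lit 9) .nil))))) (.g (nat_lit 0) (.e (nat_lit 273986) (nat_lit 0) .nil) .nil))))) (.nd (nat_lit 8) (.nd (nat_lit 9) 
(.lf (nat_lit 541825) (.g (nat_lit 2756) (.e (nat_lit 98333) (nat_lit 18) (.e (nat_lit 164327) (nat_lit 230) (.e (nat_lit 163875) (nat_lit 3) (.e (nat_lit 204838) (nat_lit 20) (.e (nat_lit 114718) (nat_lit 23) (.e (nat_lit 98356) (nat_lit 26) (.e (nat_lit 426436) (nat_lit 18) .nil))))))) (.g (nat_lit 1) (.e (nat_lit 273022) (nat_lit 0) .nil) .nil))) 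
(.lf (nat_lit 542337) (.g (nat_lit 2711) (.e (nat_lit 98335) (nat_lit 18) (.e (nat_lit 164332) (nat_lit 230) (.e (nat_lit 163905) (nat_lit 12) (.e (nat_lit 426495) (nat_lit 27) (.e (nat_lit 336408) (nat_lit 27) .nil))))) (.g (nat_lit 0) (.e (nat_lit 273816) (nat_lit 0) .nil) .nil)))) (.nd (nat_lit 9) 
(.lf (nat_lit 542081) (.g (nat_lit 2390) (.e (nat_lit 98335) (nat_lit 18) (.e (nat_lit 164182) (nat_lit 154) (.e (nat_lit 57379) (nat_lit 3) (.e (nat_lit 98342) (nat_lit 20) (.e (nat_lit 221215) (nat_lit 23) .nil))))) (.g (nat_lit 0) (.e (nat_lit 273474) (nat_lit 0) .nil) .nil))) 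
(.lf (nat_lit 542593) (.g (nat_lit 2272) (.e (nat_lit 98342) (nat_lit 20) (.e (nat_lit 221210) (nat_lit 22) (.e (nat_lit 196668) (nat_lit 14) (.e (nat_lit 73746) (nat_lit 3) (.e (nat_lit 516118) (nat_lit 1) .nil))))) (.g (nat_lit 0) (.e (nat_lit 274134) (nat_lit 0) .nil) .nil)))))) (.nd (nat_lit 7) (.nd (nat_lit 8) (.nd (nat_lit 9) 
(.lf (nat_lit 541761) (.g (nat_lit 2996) (.e (nat_lit 98333) (nat_lit 18) (.e (nat_lit 164325) (nat_lit 230) (.e (nat_lit 163907) (nat_lit 12) (.e (nat_lit 426566) (nat_lit 34) (.e (nat_lit 393273) (nat_lit 23) (.e (nat_lit 426434) (nat_lit 18) .nil)))))) (.g (nat_lit 1) (.e (nat_lit 272916) (nat_lit 0) .nil) .nil))) 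
(.lf (nat_lit 542273) (.g (nat_lit 3929) (.e (nat_lit 98335) (nat_lit 18) (.e (nat_lit 164330) (nat_lit 230) (.e (nat_lit 163905) (nat_lit 12) (.e (nat_lit 426566) (nat_lit 34) (.e (nat_lit 393271) (nat_lit 23) (.e (nat_lit 426436) (nat_lit 18) .nil)))))) (.g (nat_lit 1) (.e (nat_lit 273727) (nat_lit 0) .nil) .nil)))) (.nd (nat_lit 9) 
(.lf (nat_lit 542017) (.g (nat_lit 2159) (.e (nat_lit 98334) (nat_lit 18) (.e (nat_lit 164332) (nat_lit 230) (.e (nat_lit 163902) (nat_lit 12) (.e (nat_lit 426479) (nat_lit 27) (.e (nat_lit 336443) (nat_lit 32) (.e (nat_lit 474880) (nat_lit 3) .nil)))))) (.g (nat_lit 1) (.e (nat_lit 273380) (nat_lit 0) .nil) .nil))) 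
(.lf (nat_lit 542529) (.g (nat_lit 1898) (.e (nat_lit 98341) (nat_lit 20) (.e (nat_lit 221212) (nat_lit 22) (.e (nat_lit 196666) (nat_lit 13) (.e (nat_lit 65569) (nat_lit 3) .nil)))) (.g (nat_lit 0) (.e (nat_lit 274058) (nat_lit 0) .nil) .nil))))) (.nd (nat_lit 8) (.nd (nat_lit 9) 
(.lf (nat_lit 541889) (.g (nat_lit 1888) (.e (nat_lit 98333) (nat_lit 18) (.e (nat_lit 164332) (nat_lit 230) (.e (nat_lit 163905) (nat_lit 12) (.e (nat_lit 426479) (nat_lit 27) (.e (nat_lit 336426) (nat_lit 29) (.e (nat_lit 450304) (nat_lit 3) .nil)))))) (.g (nat_lit 1) (.e (nat_lit 273112) (nat_lit 0) .nil) .nil))) 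
(.lf (nat_lit 542401) (.g (nat_lit 937) (.e (nat_lit 98337) (nat_lit 19) (.e (nat_lit 213032) (nat_lit 11) (.e (nat_lit 24609) (nat_lit 3) .nil))) (.g (nat_lit 0) (.e (nat_lit 273896) (nat_lit 0) .nil) .nil)))) (.nd (nat_lit 9) 
(.lf (nat_lit 542145) (.g (nat_lit 1695) (.e (nat_lit 98335) (nat_lit 18) (.e (nat_lit 164325) (nat_lit 230) (.e (nat_lit 163903) (nat_lit 12) (.e (nat_lit 426478) (nat_lit 27) .nil)))) (.g (nat_lit 0) (.e (nat_lit 273569) (nat_lit 0) .nil) .nil))) 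
(.lf (nat_lit 542657) (.g (nat_lit 3549) (.e (nat_lit 98342) (nat_lit 20) (.e (nat_lit 221214) (nat_lit 23) (.e (nat_lit 204830) (nat_lit 18) (.e (nat_lit 57927) (nat_lit 282) (.e (nat_lit 163874) (nat_lit 3) (.e (nat_lit 204853) (nat_lit 26) (.e (nat_lit 336019) (nat_lit 3) .nil))))))) (.g (nat_lit 1) (.e (nat_lit 274200) (nat_lit 0) .nil) .nil))))))) 
(.nd (nat_lit 6) (.nd (nat_lit 7) (.nd (nat_lit 8) (.nd (nat_lit 9) 
(.lf (nat_lit 541729) (.g (nat_lit 3760) (.e (nat_lit 98333) (nat_lit 18) (.e (nat_lit 164325) (nat_lit 230) (.e (nat_lit 163902) (nat_lit 12) (.e (nat_lit 426566) (nat_lit 34) (.e (nat_lit 393270) (nat_lit 23) .nil))))) (.g (nat_lit 0) (.e (nat_lit 272883) (nat_lit 0) .nil) .nil))) 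
(.lf (nat_lit 542241) (.g (nat_lit 4893) (.e (nat_lit 98335) (nat_lit 18) (.e (nat_lit 164330) (nat_lit 230) (.e (nat_lit 163850) (nat_lit 0) (.e (nat_lit 3304) (nat_lit 202) (.e (nat_lit 573489) (nat_lit 14) (.e (nat_lit 73755) (nat_lit 8) (.e (nat_lit 557098) (nat_lit 13) (.e (nat_lit 179968) (nat_lit 18) .nil)))))))) (.g (nat_lit 1) (.e (nat_lit 273688) (nat_lit 0) .nil) .nil)))) 
(.nd (nat_lit 9) 
(.lf (nat_lit 541985) (.g (nat_lit 2330) (.e (nat_lit 98334) (nat_lit 18) (.e (nat_lit 164330) (nat_lit 230) (.e (nat_lit 163902) (nat_lit 12) (.e (nat_lit 426530) (nat_lit 27) (.e (nat_lit 336390) (nat_lit 27) .nil))))) (.g (nat_lit 0) (.e (nat_lit 273299) (nat_lit 0) .nil) .nil))) 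
(.lf (nat_lit 542497) (.g (nat_lit 1577) (.e (nat_lit 98341) (nat_lit 20) (.e (nat_lit 221193) (nat_lit 11) (.e (nat_lit 336012) (nat_lit 2) (.e (nat_lit 90176) (nat_lit 15) (.e (nat_lit 196352) (nat_lit 3) .nil))))) (.g (nat_lit 1) (.e (nat_lit 274020) (nat_lit 0) .nil) .nil))))) (.nd (nat_lit 8) (.nd (nat_lit 9) 
(.lf (nat_lit 541857) (.g (nat_lit 1024) (.e (nat_lit 98333) (nat_lit 18) (.e (nat_lit 164327) (nat_lit 230) (.e (nat_lit 163941) (nat_lit 19) (.e (nat_lit 491264) (nat_lit 9) .nil)))) (.g (nat_lit 0) (.e (nat_lit 273061) (nat_lit 0) .nil) .nil))) 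
(.lf (nat_lit 542369) (.g (nat_lit 1828) (.e (nat_lit 98335) (nat_lit 18) (.e (nat_lit 164403) (nat_lit 256) (.e (nat_lit 57378) (nat_lit 3) (.e (nat_lit 98366) (nat_lit 27) .nil)))) (.g (nat_lit 0) (.e (nat_lit 273861) (nat_lit 0) .nil) .nil)))) (.nd (nat_lit 9) 
(.lf (nat_lit 542113) (.g (nat_lit 1995) (.e (nat_lit 98335) (nat_lit 18) (.e (nat_lit 164322) (nat_lit 230) (.e (nat_lit 163902) (nat_lit 12) (.e (nat_lit 426479) (nat_lit 27) (.e (nat_lit 336443) (nat_lit 32) (.e (nat_lit 474880) (nat_lit 3) .nil)))))) (.g (nat_lit 1) (.e (nat_lit 273526) (nat_lit 0) .nil) .nil))) 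
(.lf (nat_lit 542625) (.g (nat_lit 3992) (.e (nat_lit 98342) (nat_lit 20) (.e (nat_lit 221212) (nat_lit 22) (.e (nat_lit 196668) (nat_lit 14) (.e (nat_lit 73747) (nat_lit 3) (.e (nat_lit 516117) (nat_lit 1) (.e (nat_lit 164182) (nat_lit 154) (.e (nat_lit 57379) (nat_lit 3) .nil))))))) (.g (nat_lit 1) (.e (nat_lit 274166) (nat_lit 0) .nil) .nil)))))) 
(.nd (nat_lit 7) (.nd (nat_lit 8) (.nd (nat_lit 9) 
(.lf (nat_lit 541793) (.g (nat_lit 1701) (.e (nat_lit 98333) (nat_lit 18) (.e (nat_lit 164327) (nat_lit 230) (.e (nat_lit 163868) (nat_lit 2) (.e (nat_lit 196656) (nat_lit 11) .nil)))) (.g (nat_lit 0) (.e (nat_lit 272978) (nat_lit 0) .nil) .nil))) 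
(.lf (nat_lit 542305) (.g (nat_lit 4201) (.e (nat_lit 98335) (nat_lit 18) (.e (nat_lit 164332) (nat_lit 230) (.e (nat_lit 163874) (nat_lit 3) (.e (nat_lit 204837) (nat_lit 20) (.e (nat_lit 114719) (nat_lit 23) (.e (nat_lit 98356) (nat_lit 26) (.e (nat_lit 426438) (nat_lit 18) .nil))))))) (.g (nat_lit 1) (.e (nat_lit 273782) (nat_lit 0) .nil) .nil)))) (.nd (nat_lit 9) 
(.lf (nat_lit 542049) (.g (nat_lit 2706) (.e (nat_lit 98334) (nat_lit 18) (.e (nat_lit 164398) (nat_lit 256) (.e (nat_lit 57379) (nat_lit 3) (.e (nat_lit 98358) (nat_lit 26) (.e (nat_lit 426131) (nat_lit 3) .nil))))) (.g (nat_lit 0) (.e (nat_lit 273433) (nat_lit 0) .nil) .nil))) 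
(.lf (nat_lit 542561) (.g (nat_lit 1968) (.e (nat_lit 98341) (nat_lit 20) (.e (nat_lit 221215) (nat_lit 23) (.e (nat_lit 204830) (nat_lit 18) (.e (nat_lit 57854) (nat_lit 252) (.e (nat_lit 57370) (nat_lit 2) (.e (nat_lit 90158) (nat_lit 11) (.e (nat_lit 24608) (nat_lit 3) .nil))))))) (.g (nat_lit 1) (.e (nat_lit 274093) (nat_lit 0) .nil) .nil))))) (.nd (nat_lit 8) (.nd (nat_lit 9) 
(.lf (nat_lit 541921) (.g (nat_lit 1551) (.e (nat_lit 98333) (nat_lit 18) (.e (nat_lit 164403) (nat_lit 256) (.e (nat_lit 57378) (nat_lit 3) (.e (nat_lit 98376) (nat_lit 30) .nil)))) (.g (nat_lit 0) (.e (nat_lit 273158) (nat_lit 0) .nil) .nil))) 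
(.lf (nat_lit 542433) (.g (nat_lit 1521) (.e (nat_lit 98339) (nat_lit 19) (.e (nat_lit 213030) (nat_lit 11) (.e (nat_lit 24604) (nat_lit 2) (.e (nat_lit 90178) (nat_lit 15) (.e (nat_lit 196352) (nat_lit 3) .nil))))) (.g (nat_lit 1) (.e (nat_lit 273947) (nat_lit 0) .nil) .nil)))) (.nd (nat_lit 9) 
(.lf (nat_lit 542177) (.g (nat_lit 3750) (.e (nat_lit 98335) (nat_lit 18) (.e (nat_lit 164327) (nat_lit 230) (.e (nat_lit 163871) (nat_lit 2) (.e (nat_lit 196656) (nat_lit 11) (.e (nat_lit 16416) (nat_lit 3) (.e (nat_lit 204838) (nat_lit 20) (.e (nat_lit 114719) (nat_lit 23) .nil))))))) (.g (nat_lit 1) (.e (nat_lit 273608) (nat_lit 0) .nil) .nil))) 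
(.lf (nat_lit 542689) (.g (nat_lit 3947) (.e (nat_lit 98342) (nat_lit 20) (.e (nat_lit 221215) (nat_lit 23) (.e (nat_lit 204831) (nat_lit 18) (.e (nat_lit 57931) (nat_lit 282) (.e (nat_lit 163869) (nat_lit 2) (.e (nat_lit 196663) (nat_lit 13) (.e (nat_lit 65571) (nat_lit 3) .nil))))))) (.g (nat_lit 1) (.e (nat_lit 274235) (nat_lit 0) .nil) .nil)))))))) 
(.nd (nat_lit 5) (.nd (nat_lit 6) (.nd (nat_lit 7) (.nd (nat_lit 8) (.nd (nat_lit 9) 
(.lf (nat_lit 541713) (.g (nat_lit 3257) (.e (nat_lit 98333) (nat_lit 18) (.e (nat_lit 164325) (nat_lit 230) (.e (nat_lit 163868) (nat_lit 2) (.e (nat_lit 196654) (nat_lit 11) (.e (nat_lit 16416) (nat_lit 3) (.e (nat_lit 204838) (nat_lit 20) (.e (nat_lit 114718) (nat_lit 23) .nil))))))) (.g (nat_lit 1) (.e (nat_lit 272857) (nat_lit 0) .nil) .nil))) 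
(.lf (nat_lit 542225) (.g (nat_lit 2104) (.e (nat_lit 98335) (nat_lit 18) (.e (nat_lit 164329) (nat_lit 230) (.e (nat_lit 163902) (nat_lit 12) (.e (nat_lit 426479) (nat_lit 27) (.e (nat_lit 336443) (nat_lit 32) (.e (nat_lit 474880) (nat_lit 3) .nil)))))) (.g (nat_lit 1) (.e (nat_lit 273663) (nat_lit 0) .nil) .nil)))) (.nd (nat_lit 9) 
(.lf (nat_lit 541969) (.g (nat_lit 2902) (.e (nat_lit 98334) (nat_lit 18) (.e (nat_lit 164330) (nat_lit 230) (.e (nat_lit 163857) (nat_lit 0) (.e (nat_lit 3304) (nat_lit 202) (.e (nat_lit 573489) (nat_lit 14) (.e (nat_lit 73755) (nat_lit 8) (.e (nat_lit 557097) (nat_lit 13) (.e (nat_lit 179968) (nat_lit 18) .nil)))))))) (.g (nat_lit 1) (.e (nat_lit 273262) (nat_lit 0) .nil) .nil))) 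
(.lf (nat_lit 542481) (.g (nat_lit 4360) (.e (nat_lit 98340) (nat_lit 20) (.e (nat_lit 221212) (nat_lit 22) (.e (nat_lit 196668) (nat_lit 14) (.e (nat_lit 73747) (nat_lit 3) (.e (nat_lit 516115) (nat_lit 1) (.e (nat_lit 164182) (nat_lit 154) (.e (nat_lit 57379) (nat_lit 3) .nil))))))) (.g (nat_lit 1) (.e (nat_lit 274002) (nat_lit 0) .nil) .nil))))) (.nd (nat_lit 8) (.nd (nat_lit 9) 
(.lf (nat_lit 541841) (.g (nat_lit 1829) (.e (nat_lit 98333) (nat_lit 18) (.e (nat_lit 164327) (nat_lit 230) (.e (nat_lit 163903) (nat_lit 12) (.e (nat_lit 426567) (nat_lit 34) .nil)))) (.g (nat_lit 0) (.e (nat_lit 273039) (nat_lit 0) .nil) .nil))) 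
(.lf (nat_lit 542353) (.g (nat_lit 1507) (.e (nat_lit 98335) (nat_lit 18) (.e (nat_lit 164332) (nat_lit 230) (.e (nat_lit 163905) (nat_lit 12) (.e (nat_lit 426568) (nat_lit 34) (.e (nat_lit 393279) (nat_lit 23) (.e (nat_lit 433920) (nat_lit 18) .nil)))))) (.g (nat_lit 1) (.e (nat_lit 273832) (nat_lit 0) .nil) .nil)))) (.nd (nat_lit 9) 
(.lf (nat_lit 542097) (.g (nat_lit 3849) (.e (nat_lit 98335) (nat_lit 18) (.e (nat_lit 164305) (nat_lit 226) (.e (nat_lit 2612) (nat_lit 163) (.e (nat_lit 163977) (nat_lit 30) (.e (nat_lit 573487) (nat_lit 14) (.e (nat_lit 73753) (nat_lit 8) (.e (nat_lit 557098) (nat_lit 13) (.e (nat_lit 179968) (nat_lit 18) .nil)))))))) (.g (nat_lit 1) (.e (nat_lit 273507) (nat_lit 0) .nil) .nil))) 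
(.lf (nat_lit 542609) (.g (nat_lit 3538) (.e (nat_lit 98342) (nat_lit 20) (.e (nat_lit 221210) (nat_lit 22) (.e (nat_lit 196670) (nat_lit 14) (.e (nat_lit 73746) (nat_lit 3) (.e (nat_lit 516120) (nat_lit 1) (.e (nat_lit 164176) (nat_lit 154) (.e (nat_lit 57379) (nat_lit 3) .nil))))))) (.g (nat_lit 1) (.e (nat_lit 274150) (nat_lit 0) .nil) .nil)))))) 
(.nd (nat_lit 7) (.nd (nat_lit 8) (.nd (nat_lit 9) 
(.lf (nat_lit 541777) (.g (nat_lit 2243) (.e (nat_lit 98333) (nat_lit 18) (.e (nat_lit 164325) (nat_lit 230) (.e (nat_lit 163941) (nat_lit 19) (.e (nat_lit 483339) (nat_lit 9) (.e (nat_lit 426228) (nat_lit 9) (.e (nat_lit 426435) (nat_lit 18) .nil)))))) (.g (nat_lit 1) (.e (nat_lit 272935) (nat_lit 0) .nil) .nil))) 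
(.lf (nat_lit 542289) (.g (nat_lit 4018) (.e (nat_lit 98335) (nat_lit 18) (.e (nat_lit 164330) (nat_lit 230) (.e (nat_lit 163943) (nat_lit 19) (.e (nat_lit 483341) (nat_lit 9) (.e (nat_lit 426188) (nat_lit 9) (.e (nat_lit 426436) (nat_lit 18) .nil)))))) (.g (nat_lit 1) (.e (nat_lit 273753) (nat_lit 0) .nil) .nil)))) (.nd (nat_lit 9) 
(.lf (nat_lit 542033) (.g (nat_lit 3020) (.e (nat_lit 98334) (nat_lit 18) (.e (nat_lit 164332) (nat_lit 230) (.e (nat_lit 163905) (nat_lit 12) (.e (nat_lit 426566) (nat_lit 34) (.e (nat_lit 393271) (nat_lit 23) (.e (nat_lit 426438) (nat_lit 18) .nil)))))) (.g (nat_lit 1) (.e (nat_lit 273397) (nat_lit 0) .nil) .nil))) 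
(.lf (nat_lit 542545) (.g (nat_lit 4743) (.e (nat_lit 98341) (nat_lit 20) (.e (nat_lit 221212) (nat_lit 22) (.e (nat_lit 196670) (nat_lit 14) (.e (nat_lit 73746) (nat_lit 3) (.e (nat_lit 516120) (nat_lit 1) (.e (nat_lit 164182) (nat_lit 154) (.e (nat_lit 57379) (nat_lit 3) .nil))))))) (.g (nat_lit 1) (.e (nat_lit 274074) (nat_lit 0) .nil) .nil))))) (.nd (nat_lit 8) (.nd (nat_lit 9) 
(.lf (nat_lit 541905) (.g (nat_lit 2370) (.e (nat_lit 98333) (nat_lit 18) (.e (nat_lit 164398) (nat_lit 256) (.e (nat_lit 57378) (nat_lit 3) (.e (nat_lit 98367) (nat_lit 27) (.e (nat_lit 434234) (nat_lit 23) .nil))))) (.g (nat_lit 0) (.e (nat_lit 273137) (nat_lit 0) .nil) .nil))) 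
(.lf (nat_lit 542417) (.g (nat_lit 1828) (.e (nat_lit 98338) (nat_lit 19) (.e (nat_lit 213032) (nat_lit 11) (.e (nat_lit 24604) (nat_lit 2) (.e (nat_lit 90178) (nat_lit 15) (.e (nat_lit 196352) (nat_lit 3) .nil))))) (.g (nat_lit 1) (.e (nat_lit 273916) (nat_lit 0) .nil) .nil)))) (.nd (nat_lit 9) 
(.lf (nat_lit 542161) (.g (nat_lit 880) (.e (nat_lit 98335) (nat_lit 18) (.e (nat_lit 164325) (nat_lit 230) (.e (nat_lit 163944) (nat_lit 19) (.e (nat_lit 483341) (nat_lit 9) .nil)))) (.g (nat_lit 0) (.e (nat_lit 273589) (nat_lit 0) .nil) .nil))) 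
(.lf (nat_lit 542673) (.g (nat_lit 610) (.e (nat_lit 98342) (nat_lit 20) (.e (nat_lit 221215) (nat_lit 23) (.e (nat_lit 204821) (nat_lit 17) .nil))) (.g (nat_lit 0) (.e (nat_lit 274216) (nat_lit 0) .nil) .nil))))))) (.nd (nat_lit 6) (.nd (nat_lit 7) (.nd (nat_lit 8) (.nd (nat_lit 9) 
(.lf (nat_lit 541745) (.g (nat_lit 2500) (.e (nat_lit 98333) (nat_lit 18) (.e (nat_lit 164325) (nat_lit 230) (.e (nat_lit 163903) (nat_lit 12) (.e (nat_lit 426568) (nat_lit 34) (.e (nat_lit 393271) (nat_lit 23) (.e (nat_lit 426434) (nat_lit 18) .nil)))))) (.g (nat_lit 1) (.e (nat_lit 272899) (nat_lit 0) .nil) .nil))) 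
(.lf (nat_lit 542257) (.g (nat_lit 2626) (.e (nat_lit 98335) (nat_lit 18) (.e (nat_lit 164330) (nat_lit 230) (.e (nat_lit 163902) (nat_lit 12) (.e (nat_lit 426479) (nat_lit 27) (.e (nat_lit 336428) (nat_lit 29) (.e (nat_lit 450304) (nat_lit 3) .nil)))))) (.g (nat_lit 1) (.e (nat_lit 273711) (nat_lit 0) .nil) .nil)))) (.nd (nat_lit 9) 
(.lf (nat_lit 542001) (.g (nat_lit 2852) (.e (nat_lit 98334) (nat_lit 18) (.e (nat_lit 164331) (nat_lit 230) (.e (nat_lit 163902) (nat_lit 12) (.e (nat_lit 426566) (nat_lit 34) (.e (nat_lit 393268) (nat_lit 23) (.e (nat_lit 426438) (nat_lit 18) .nil)))))) (.g (nat_lit 1) (.e (nat_lit 273341) (nat_lit 0) .nil) .nil))) 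
(.lf (nat_lit 542513) (.g (nat_lit 3543) (.e (nat_lit 98341) (nat_lit 20) (.e (nat_lit 221210) (nat_lit 22) (.e (nat_lit 196668) (nat_lit 14) (.e (nat_lit 73747) (nat_lit 3) (.e (nat_lit 516117) (nat_lit 1) (.e (nat_lit 164176) (nat_lit 154) (.e (nat_lit 57379) (nat_lit 3) .nil))))))) (.g (nat_lit 1) (.e (nat_lit 274042) (nat_lit 0) .nil) .nil))))) (.nd (nat_lit 8) (.nd (nat_lit 9) 
(.lf (nat_lit 541873) (.g (nat_lit 1379) (.e (nat_lit 98333) (nat_lit 18) (.e (nat_lit 164332) (nat_lit 230) (.e (nat_lit 163902) (nat_lit 12) (.e (nat_lit 426478) (nat_lit 27) .nil)))) (.g (nat_lit 0) (.e (nat_lit 273096) (nat_lit 0) .nil) .nil))) 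
(.lf (nat_lit 542385) (.g (nat_lit 1775) (.e (nat_lit 98336) (nat_lit 19) (.e (nat_lit 213032) (nat_lit 11) (.e (nat_lit 24608) (nat_lit 3) (.e (nat_lit 98380) (nat_lit 31) (.e (nat_lit 474880) (nat_lit 3) .nil))))) (.g (nat_lit 0) (.e (nat_lit 273880) (nat_lit 0) .nil) .nil)))) (.nd (nat_lit 9) 
(.lf (nat_lit 542129) (.g (nat_lit 1237) (.e (nat_lit 98335) (nat_lit 18) (.e (nat_lit 164324) (nat_lit 230) (.e (nat_lit 163903) (nat_lit 12) (.e (nat_lit 426558) (nat_lit 33) .nil)))) (.g (nat_lit 0) (.e (nat_lit 273543) (nat_lit 0) .nil) .nil))) 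
(.lf (nat_lit 542641) (.g (nat_lit 2527) (.e (nat_lit 98342) (nat_lit 20) (.e (nat_lit 221213) (nat_lit 23) (.e (nat_lit 204830) (nat_lit 18) (.e (nat_lit 57852) (nat_lit 252) (.e (nat_lit 57370) (nat_lit 2) (.e (nat_lit 90158) (nat_lit 11) (.e (nat_lit 24608) (nat_lit 3) .nil))))))) (.g (nat_lit 1) (.e (nat_lit 274182) (nat_lit 0) .nil) .nil)))))) 
(.nd (nat_lit 7) (.nd (nat_lit 8) (.nd (nat_lit 9) 
(.lf (nat_lit 541809) (.g (nat_lit 539) (.e (nat_lit 98333) (nat_lit 18) (.e (nat_lit 164327) (nat_lit 230) (.e (nat_lit 163873) (nat_lit 3) .nil))) (.g (nat_lit 0) (.e (nat_lit 272999) (nat_lit 0) .nil) .nil))) 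
(.lf (nat_lit 542321) (.g (nat_lit 369) (.e (nat_lit 98335) (nat_lit 18) (.e (nat_lit 164332) (nat_lit 230) (.e (nat_lit 163905) (nat_lit 12) .nil))) (.g (nat_lit 0) (.e (nat_lit 273800) (nat_lit 0) .nil) .nil)))) (.nd (nat_lit 9) 
(.lf (nat_lit 542065) (.g (nat_lit 1902) (.e (nat_lit 98334) (nat_lit 18) (.e (nat_lit 164403) (nat_lit 256) (.e (nat_lit 57377) (nat_lit 3) (.e (nat_lit 98376) (nat_lit 30) .nil)))) (.g (nat_lit 0) (.e (nat_lit 273451) (nat_lit 0) .nil) .nil))) 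
(.lf (nat_lit 542577) (.g (nat_lit 3536) (.e (nat_lit 98341) (nat_lit 20) (.e (nat_lit 221215) (nat_lit 23) (.e (nat_lit 204863) (nat_lit 27) (.e (nat_lit 344117) (nat_lit 21) (.e (nat_lit 516099) (nat_lit 0) (.e (nat_lit 2464) (nat_lit 157) (.e (nat_lit 6398) (nat_lit 339) (.e (nat_lit 57379) (nat_lit 3) .nil)))))))) (.g (nat_lit 1) (.e (nat_lit 274109) (nat_lit 0) .nil) .nil))))) 
(.nd (nat_lit 8) (.nd (nat_lit 9) 
(.lf (nat_lit 541937) (.g (nat_lit 3753) (.e (nat_lit 98334) (nat_lit 18) (.e (nat_lit 164305) (nat_lit 226) (.e (nat_lit 2612) (nat_lit 163) (.e (nat_lit 163977) (nat_lit 30) (.e (nat_lit 573489) (nat_lit 14) (.e (nat_lit 73755) (nat_lit 8) (.e (nat_lit 557096) (nat_lit 13) (.e (nat_lit 179968) (nat_lit 18) .nil)))))))) (.g (nat_lit 1) (.e (nat_lit 273214) (nat_lit 0) .nil) .nil))) 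
(.lf (nat_lit 542449) (.g (nat_lit 1240) (.e (nat_lit 98339) (nat_lit 19) (.e (nat_lit 213032) (nat_lit 11) (.e (nat_lit 24605) (nat_lit 2) (.e (nat_lit 90176) (nat_lit 15) (.e (nat_lit 196352) (nat_lit 3) .nil))))) (.g (nat_lit 1) (.e (nat_lit 273970) (nat_lit 0) .nil) .nil)))) (.nd (nat_lit 9) 
(.lf (nat_lit 542193) (.g (nat_lit 2283) (.e (nat_lit 98335) (nat_lit 18) (.e (nat_lit 164327) (nat_lit 230) (.e (nat_lit 163903) (nat_lit 12) (.e (nat_lit 426479) (nat_lit 27) (.e (nat_lit 336428) (nat_lit 29) (.e (nat_lit 450304) (nat_lit 3) .nil)))))) (.g (nat_lit 1) (.e (nat_lit 273626) (nat_lit 0) .nil) .nil))) 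
(.lf (nat_lit 542705) (.g (nat_lit 2818) (.e (nat_lit 98342) (nat_lit 20) (.e (nat_lit 221215) (nat_lit 23) (.e (nat_lit 204861) (nat_lit 26) (.e (nat_lit 336027) (nat_lit 3) (.e (nat_lit 98335) (nat_lit 18) (.e (nat_lit 164183) (nat_lit 154) (.e (nat_lit 57378) (nat_lit 3) .nil))))))) (.g (nat_lit 1) (.e (nat_lit 274251) (nat_lit 0) .nil) .nil))))))))) 
(.nd (nat_lit 4) (.nd (nat_lit 5) (.nd (nat_lit 6) (.nd (nat_lit 7) (.nd (nat_lit 8) 
(.nd (nat_lit 9) 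
(.lf (nat_lit 541705) (.g (nat_lit 3380) (.e (nat_lit 98333) (nat_lit 18) (.e (nat_lit 164183) (nat_lit 154) (.e (nat_lit 57378) (nat_lit 3) (.e (nat_lit 98342) (nat_lit 20) (.e (nat_lit 221214) (nat_lit 23) (.e (nat_lit 204861) (nat_lit 26) (.e (nat_lit 336021) (nat_lit 3) .nil))))))) (.g (nat_lit 1) (.e (nat_lit 272837) (nat_lit 0) .nil) .nil))) 
(.lf (nat_lit 542217) (.g (nat_lit 1121) (.e (nat_lit 98335) (nat_lit 18) (.e (nat_lit 164327) (nat_lit 230) (.e (nat_lit 163944) (nat_lit 19) (.e (nat_lit 491264) (nat_lit 9) .nil)))) (.g (nat_lit 0) (.e (nat_lit 273654) (nat_lit 0) .nil) .nil)))) (.nd (nat_lit 9) 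
(.lf (nat_lit 541961) (.g (nat_lit 3568) (.e (nat_lit 98334) (nat_lit 18) (.e (nat_lit 164330) (nat_lit 230) (.e (nat_lit 163840) (nat_lit 0) (.e (nat_lit 3307) (nat_lit 202) (.e (nat_lit 573489) (nat_lit 14) (.e (nat_lit 73755) (nat_lit 8) (.e (nat_lit 557096) (nat_lit 13) (.e (nat_lit 179968) (nat_lit 18) .nil)))))))) (.g (nat_lit 1) (.e (nat_lit 273248) (nat_lit 0) .nil) .nil))) 
(.lf (nat_lit 542473) (.g (nat_lit 2303) (.e (nat_lit 98340) (nat_lit 20) (.e (nat_lit 221210) (nat_lit 22) (.e (nat_lit 196666) (nat_lit 13) (.e (nat_lit 65569) (nat_lit 3) (.e (nat_lit 98334) (nat_lit 18) .nil))))) (.g (nat_lit 0) (.e (nat_lit 273994) (nat_lit 0) .nil) .nil))))) (.nd (nat_lit 8) (.nd (nat_lit 9) 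
(.lf (nat_lit 541833) (.g (nat_lit 2373) (.e (nat_lit 98333) (nat_lit 18) (.e (nat_lit 164327) (nat_lit 230) (.e (nat_lit 163903) (nat_lit 12) (.e (nat_lit 426479) (nat_lit 27) (.e (nat_lit 336443) (nat_lit 32) (.e (nat_lit 474880) (nat_lit 3) .nil)))))) (.g (nat_lit 1) (.e (nat_lit 273030) (nat_lit 0) .nil) .nil))) 
(.lf (nat_lit 542345) (.g (nat_lit 2355) (.e (nat_lit 98335) (nat_lit 18) (.e (nat_lit 164332) (nat_lit 230) (.e (nat_lit 163905) (nat_lit 12) (.e (nat_lit 426506) (nat_lit 27) .nil)))) (.g (nat_lit 0) (.e (nat_lit 273824) (nat_lit 0) .nil) .nil)))) (.nd (nat_lit 9) 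
(.lf (nat_lit 542089) (.g (nat_lit 2898) (.e (nat_lit 98335) (nat_lit 18) (.e (nat_lit 164183) (nat_lit 154) (.e (nat_lit 57379) (nat_lit 3) (.e (nat_lit 98341) (nat_lit 20) (.e (nat_lit 221212) (nat_lit 22) (.e (nat_lit 196681) (nat_lit 17) (.e (nat_lit 131096) (nat_lit 3) .nil))))))) (.g (nat_lit 1) (.e (nat_lit 273486) (nat_lit 0) .nil) .nil))) 
(.lf (nat_lit 542601) (.g (nat_lit 3438) (.e (nat_lit 98342) (nat_lit 20) (.e (nat_lit 221210) (nat_lit 22) (.e (nat_lit 196668) (nat_lit 14) (.e (nat_lit 73747) (nat_lit 3) (.e (nat_lit 516117) (nat_lit 1) (.e (nat_lit 164180) (nat_lit 154) (.e (nat_lit 57378) (nat_lit 3) .nil))))))) (.g (nat_lit 1) (.e (nat_lit 274142) (nat_lit 0) .nil) .nil)))))) 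
(.nd (nat_lit 7) (.nd (nat_lit 8) (.nd (nat_lit 9) 
(.lf (nat_lit 541769) (.g (nat_lit 1767) (.e (nat_lit 98333) (nat_lit 18) (.e (nat_lit 164325) (nat_lit 230) (.e (nat_lit 163907) (nat_lit 12) (.e (nat_lit 426568) (nat_lit 34) (.e (nat_lit 393279) (nat_lit 23) (.e (nat_lit 433920) (nat_lit 18) .nil)))))) (.g (nat_lit 1) (.e (nat_lit 272924) (nat_lit 0) .nil) .nil))) 
(.lf (nat_lit 542281) (.g (nat_lit 2156) (.e (nat_lit 98335) (nat_lit 18) (.e (nat_lit 164330) (nat_lit 230) (.e (nat_lit 163941) (nat_lit 19) (.e (nat_lit 483339) (nat_lit 9) (.e (nat_lit 426260) (nat_lit 9) (.e (nat_lit 433920) (nat_lit 18) .nil)))))) (.g (nat_lit 1) (.e (nat_lit 273741) (nat_lit 0) .nil) .nil)))) (.nd (nat_lit 9) 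
(.lf (nat_lit 542025) (.g (nat_lit 1583) (.e (nat_lit 98334) (nat_lit 18) (.e (nat_lit 164332) (nat_lit 230) (.e (nat_lit 163905) (nat_lit 12) (.e (nat_lit 426479) (nat_lit 27) (.e (nat_lit 336426) (nat_lit 29) (.e (nat_lit 450304) (nat_lit 3) .nil)))))) (.g (nat_lit 1) (.e (nat_lit 273388) (nat_lit 0) .nil) .nil))) 
(.lf (nat_lit 542537) (.g (nat_lit 2727) (.e (nat_lit 98341) (nat_lit 20) (.e (nat_lit 221212) (nat_lit 22) (.e (nat_lit 196668) (nat_lit 14) (.e (nat_lit 73747) (nat_lit 3) (.e (nat_lit 516118) (nat_lit 1) (.e (nat_lit 164179) (nat_lit 154) (.e (nat_lit 57377) (nat_lit 3) .nil))))))) (.g (nat_lit 1) (.e (nat_lit 274066) (nat_lit 0) .nil) .nil))))) (.nd (nat_lit 8) (.nd (nat_lit 9) 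
(.lf (nat_lit 541897) (.g (nat_lit 2518) (.e (nat_lit 98333) (nat_lit 18) (.e (nat_lit 164332) (nat_lit 230) (.e (nat_lit 163941) (nat_lit 19) (.e (nat_lit 483341) (nat_lit 9) (.e (nat_lit 433920) (nat_lit 9) .nil))))) (.g (nat_lit 0) (.e (nat_lit 273124) (nat_lit 0) .nil) .nil))) 
(.lf (nat_lit 542409) (.g (nat_lit 1857) (.e (nat_lit 98338) (nat_lit 19) (.e (nat_lit 213030) (nat_lit 11) (.e (nat_lit 24608) (nat_lit 3) (.e (nat_lit 98363) (nat_lit 26) (.e (nat_lit 426228) (nat_lit 9) (.e (nat_lit 426435) (nat_lit 18) .nil)))))) (.g (nat_lit 1) (.e (nat_lit 273908) (nat_lit 0) .nil) .nil)))) (.nd (nat_lit 9) 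
(.lf (nat_lit 542153) (.g (nat_lit 1923) (.e (nat_lit 98335) (nat_lit 18) (.e (nat_lit 164325) (nat_lit 230) (.e (nat_lit 163907) (nat_lit 12) (.e (nat_lit 426507) (nat_lit 27) (.e (nat_lit 336408) (nat_lit 27) .nil))))) (.g (nat_lit 0) (.e (nat_lit 273577) (nat_lit 0) .nil) .nil))) 
(.lf (nat_lit 542665) (.g (nat_lit 1488) (.e (nat_lit 98342) (nat_lit 20) (.e (nat_lit 221214) (nat_lit 23) (.e (nat_lit 204861) (nat_lit 26) (.e (nat_lit 336025) (nat_lit 3) .nil)))) (.g (nat_lit 0) (.e (nat_lit 274208) (nat_lit 0) .nil) .nil))))))) (.nd (nat_lit 6) (.nd (nat_lit 7) (.nd (nat_lit 8) (.nd (nat_lit 9) 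
(.lf (nat_lit 541737) (.g (nat_lit 2784) (.e (nat_lit 98333) (nat_lit 18) (.e (nat_lit 164325) (nat_lit 230) (.e (nat_lit 163903) (nat_lit 12) (.e (nat_lit 426479) (nat_lit 27) (.e (nat_lit 336430) (nat_lit 29) (.e (nat_lit 450304) (nat_lit 3) .nil)))))) (.g (nat_lit 1) (.e (nat_lit 272891) (nat_lit 0) .nil) .nil))) 
(.lf (nat_lit 542249) (.g (nat_lit 4668) (.e (nat_lit 98335) (nat_lit 18) (.e (nat_lit 164330) (nat_lit 230) (.e (nat_lit 163853) (nat_lit 0) (.e (nat_lit 3307) (nat_lit 202) (.e (nat_lit 573489) (nat_lit 14) (.e (nat_lit 73755) (nat_lit 8) (.e (nat_lit 557097) (nat_lit 13) (.e (nat_lit 179968) (nat_lit 18) .nil)))))))) (.g (nat_lit 1) (.e (nat_lit 273696) (nat_lit 0) .nil) .nil)))) 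
(.nd (nat_lit 9) 
(.lf (nat_lit 541993) (.g (nat_lit 2412) (.e (nat_lit 98334) (nat_lit 18) (.e (nat_lit 164330) (nat_lit 230) (.e (nat_lit 163905) (nat_lit 12) (.e (nat_lit 426478) (nat_lit 27) (.e (nat_lit 336426) (nat_lit 29) (.e (nat_lit 450304) (nat_lit 3) .nil)))))) (.g (nat_lit 1) (.e (nat_lit 273307) (nat_lit 0) .nil) .nil))) 
(.lf (nat_lit 542505) (.g (nat_lit 2010) (.e (nat_lit 98341) (nat_lit 20) (.e (nat_lit 221210) (nat_lit 22) (.e (nat_lit 196666) (nat_lit 13) (.e (nat_lit 65570) (nat_lit 3) .nil)))) (.g (nat_lit 0) (.e (nat_lit 274034) (nat_lit 0) .nil) .nil))))) (.nd (nat_lit 8) (.nd (nat_lit 9) 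
(.lf (nat_lit 541865) (.g (nat_lit 3095) (.e (nat_lit 98333) (nat_lit 18) (.e (nat_lit 164330) (nat_lit 230) (.e (nat_lit 163902) (nat_lit 12) (.e (nat_lit 426566) (nat_lit 34) (.e (nat_lit 393271) (nat_lit 23) (.e (nat_lit 426436) (nat_lit 18) .nil)))))) (.g (nat_lit 1) (.e (nat_lit 273077) (nat_lit 0) .nil) .nil))) 
(.lf (nat_lit 542377) (.g (nat_lit 2046) (.e (nat_lit 98336) (nat_lit 19) (.e (nat_lit 213032) (nat_lit 11) (.e (nat_lit 24604) (nat_lit 2) (.e (nat_lit 90176) (nat_lit 15) (.e (nat_lit 196352) (nat_lit 3) .nil))))) (.g (nat_lit 0) (.e (nat_lit 273872) (nat_lit 0) .nil) .nil)))) (.nd (nat_lit 9) 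
(.lf (nat_lit 542121) (.g (nat_lit 3334) (.e (nat_lit 98335) (nat_lit 18) (.e (nat_lit 164324) (nat_lit 230) (.e (nat_lit 163902) (nat_lit 12) (.e (nat_lit 426566) (nat_lit 34) (.e (nat_lit 393271) (nat_lit 23) (.e (nat_lit 426438) (nat_lit 18) .nil)))))) (.g (nat_lit 1) (.e (nat_lit 273534) (nat_lit 0) .nil) .nil))) 
(.lf (nat_lit 542633) (.g (nat_lit 3242) (.e (nat_lit 98342) (nat_lit 20) (.e (nat_lit 221212) (nat_lit 22) (.e (nat_lit 196670) (nat_lit 14) (.e (nat_lit 73746) (nat_lit 3) (.e (nat_lit 516120) (nat_lit 1) (.e (nat_lit 164180) (nat_lit 154) (.e (nat_lit 57378) (nat_lit 3) .nil))))))) (.g (nat_lit 1) (.e (nat_lit 274174) (nat_lit 0) .nil) .nil)))))) 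
(.nd (nat_lit 7) (.nd (nat_lit 8) (.nd (nat_lit 9) 
(.lf (nat_lit 541801) (.g (nat_lit 604) (.e (nat_lit 98333) (nat_lit 18) (.e (nat_lit 164327) (nat_lit 230) (.e (nat_lit 163871) (nat_lit 2) .nil))) (.g (nat_lit 0) (.e (nat_lit 272989) (nat_lit 0) .nil) .nil))) 
(.lf (nat_lit 542313) (.g (nat_lit 2346) (.e (nat_lit 98335) (nat_lit 18) (.e (nat_lit 164332) (nat_lit 230) (.e (nat_lit 163902) (nat_lit 12) (.e (nat_lit 426479) (nat_lit 27) (.e (nat_lit 336430) (nat_lit 29) (.e (nat_lit 450304) (nat_lit 3) .nil)))))) (.g (nat_lit 1) (.e (nat_lit 273792) (nat_lit 0) .nil) .nil)))) (.nd (nat_lit 9) 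
(.lf (nat_lit 542057) (.g (nat_lit 3707) (.e (nat_lit 98334) (nat_lit 18) (.e (nat_lit 164399) (nat_lit 256) (.e (nat_lit 57378) (nat_lit 3) (.e (nat_lit 98367) (nat_lit 27) (.e (nat_lit 434231) (nat_lit 23) (.e (nat_lit 532514) (nat_lit 3) (.e (nat_lit 114717) (nat_lit 23) .nil))))))) (.g (nat_lit 1) (.e (nat_lit 273442) (nat_lit 0) .nil) .nil))) 
(.lf (nat_lit 542569) (.g (nat_lit 3667) (.e (nat_lit 98341) (nat_lit 20) (.e (nat_lit 221215) (nat_lit 23) (.e (nat_lit 204861) (nat_lit 26) (.e (nat_lit 336021) (nat_lit 3) (.e (nat_lit 98335) (nat_lit 18) (.e (nat_lit 164183) (nat_lit 154) (.e (nat_lit 57378) (nat_lit 3) .nil))))))) (.g (nat_lit 1) (.e (nat_lit 274101) (nat_lit 0) .nil) .nil))))) (.nd (nat_lit 8) (.nd (nat_lit 9) 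
(.lf (nat_lit 541929) (.g (nat_lit 2921) (.e (nat_lit 98334) (nat_lit 18) (.e (nat_lit 164182) (nat_lit 154) (.e (nat_lit 57379) (nat_lit 3) (.e (nat_lit 98341) (nat_lit 20) (.e (nat_lit 221215) (nat_lit 23) (.e (nat_lit 204861) (nat_lit 26) (.e (nat_lit 336020) (nat_lit 3) .nil))))))) (.g (nat_lit 1) (.e (nat_lit 273179) (nat_lit 0) .nil) .nil))) 
(.lf (nat_lit 542441) (.g (nat_lit 1415) (.e (nat_lit 98339) (nat_lit 19) (.e (nat_lit 213030) (nat_lit 11) (.e (nat_lit 24609) (nat_lit 3) (.e (nat_lit 98370) (nat_lit 28) (.e (nat_lit 450304) (nat_lit 3) .nil))))) (.g (nat_lit 1) (.e (nat_lit 273959) (nat_lit 0) .nil) .nil)))) (.nd (nat_lit 9) 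
(.lf (nat_lit 542185) (.g (nat_lit 787) (.e (nat_lit 98335) (nat_lit 18) (.e (nat_lit 164327) (nat_lit 230) (.e (nat_lit 163901) (nat_lit 12) .nil))) (.g (nat_lit 0) (.e (nat_lit 273618) (nat_lit 0) .nil) .nil))) 
(.lf (nat_lit 542697) (.g (nat_lit 4551) (.e (nat_lit 98342) (nat_lit 20) (.e (nat_lit 221215) (nat_lit 23) (.e (nat_lit 204861) (nat_lit 26) (.e (nat_lit 336021) (nat_lit 3) (.e (nat_lit 98333) (nat_lit 18) (.e (nat_lit 164183) (nat_lit 154) (.e (nat_lit 57378) (nat_lit 3) .nil))))))) (.g (nat_lit 1) (.e (nat_lit 274243) (nat_lit 0) .nil) .nil)))))))) 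
(.nd (nat_lit 5) (.nd (nat_lit 6) (.nd (nat_lit 7) (.nd (nat_lit 8) (.nd (nat_lit 9) 
(.lf (nat_lit 541721) (.g (nat_lit 3966) (.e (nat_lit 98333) (nat_lit 18) (.e (nat_lit 164325) (nat_lit 230) (.e (nat_lit 163871) (nat_lit 2) (.e (nat_lit 196656) (nat_lit 11) (.e (nat_lit 16416) (nat_lit 3) (.e (nat_lit 204837) (nat_lit 20) (.e (nat_lit 114719) (nat_lit 23) .nil))))))) (.g (nat_lit 1) (.e (nat_lit 272868) (nat_lit 0) .nil) .nil))) 
(.lf (nat_lit 542233) (.g (nat_lit 3302) (.e (nat_lit 98335) (nat_lit 18) (.e (nat_lit 164329) (nat_lit 230) (.e (nat_lit 163943) (nat_lit 19) (.e (nat_lit 483341) (nat_lit 9) (.e (nat_lit 426198) (nat_lit 9) (.e (nat_lit 426436) (nat_lit 18) .nil)))))) (.g (nat_lit 1) (.e (nat_lit 273676) (nat_lit 0) .nil) .nil)))) (.nd (nat_lit 9) 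
(.lf (nat_lit 541977) (.g (nat_lit 415) (.e (nat_lit 98334) (nat_lit 18) (.e (nat_lit 164330) (nat_lit 230) (.e (nat_lit 163873) (nat_lit 3) .nil))) (.g (nat_lit 0) (.e (nat_lit 273285) (nat_lit 0) .nil) .nil))) 
(.lf (nat_lit 542489) (.g (nat_lit 1480) (.e (nat_lit 98340) (nat_lit 20) (.e (nat_lit 221214) (nat_lit 23) (.e (nat_lit 204861) (nat_lit 26) (.e (nat_lit 336025) (nat_lit 3) .nil)))) (.g (nat_lit 0) (.e (nat_lit 274010) (nat_lit 0) .nil) .nil))))) (.nd (nat_lit 8) (.nd (nat_lit 9) 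
(.lf (nat_lit 541849) (.g (nat_lit 2660) (.e (nat_lit 98333) (nat_lit 18) (.e (nat_lit 164327) (nat_lit 230) (.e (nat_lit 163907) (nat_lit 12) (.e (nat_lit 426566) (nat_lit 34) (.e (nat_lit 393271) (nat_lit 23) (.e (nat_lit 426438) (nat_lit 18) .nil)))))) (.g (nat_lit 1) (.e (nat_lit 273047) (nat_lit 0) .nil) .nil))) 
(.lf (nat_lit 542361) (.g (nat_lit 389) (.e (nat_lit 98335) (nat_lit 18) (.e (nat_lit 164332) (nat_lit 230) (.e (nat_lit 163943) (nat_lit 19) .nil))) (.g (nat_lit 0) (.e (nat_lit 273849) (nat_lit 0) .nil) .nil)))) (.nd (nat_lit 9) 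
(.lf (nat_lit 542105) (.g (nat_lit 6104) (.e (nat_lit 98335) (nat_lit 18) (.e (nat_lit 164305) (nat_lit 226) (.e (nat_lit 2612) (nat_lit 163) (.e (nat_lit 163978) (nat_lit 30) (.e (nat_lit 573489) (nat_lit 14) (.e (nat_lit 73755) (nat_lit 8) (.e (nat_lit 557098) (nat_lit 13) (.e (nat_lit 179968) (nat_lit 18) .nil)))))))) (.g (nat_lit 1) (.e (nat_lit 273515) (nat_lit 0) .nil) .nil))) 
(.lf (nat_lit 542617) (.g (nat_lit 4168) (.e (nat_lit 98342) (nat_lit 20) (.e (nat_lit 221212) (nat_lit 22) (.e (nat_lit 196665) (nat_lit 13) (.e (nat_lit 65637) (nat_lit 15) (.e (nat_lit 3253) (nat_lit 197) (.e (nat_lit 532504) (nat_lit 1) (.e (nat_lit 57852) (nat_lit 252) (.e (nat_lit 57376) (nat_lit 3) .nil)))))))) (.g (nat_lit 1) (.e (nat_lit 274158) (nat_lit 0) .nil) .nil)))))) 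
(.nd (nat_lit 7) (.nd (nat_lit 8) (.nd (nat_lit 9) 
(.lf (nat_lit 541785) (.g (nat_lit 3136) (.e (nat_lit 98333) (nat_lit 18) (.e (nat_lit 164325) (nat_lit 230) (.e (nat_lit 163944) (nat_lit 19) (.e (nat_lit 483333) (nat_lit 0) (.e (nat_lit 6988) (nat_lit 377) (.e (nat_lit 1076) (nat_lit 81) (.e (nat_lit 5629) (nat_lit 312) (.e (nat_lit 112) (nat_lit 3) .nil)))))))) (.g (nat_lit 1) (.e (nat_lit 272963) (nat_lit 0) .nil) .nil))) 
(.lf (nat_lit 542297) (.g (nat_lit 2774) (.e (nat_lit 98335) (nat_lit 18) (.e (nat_lit 164332) (nat_lit 230) (.e (nat_lit 163867) (nat_lit 2) (.e (nat_lit 196656) (nat_lit 11) (.e (nat_lit 16416) (nat_lit 3) .nil))))) (.g (nat_lit 0) (.e (nat_lit 273773) (nat_lit 0) .nil) .nil)))) (.nd (nat_lit 9) 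
(.lf (nat_lit 542041) (.g (nat_lit 679) (.e (nat_lit 98334) (nat_lit 18) (.e (nat_lit 164332) (nat_lit 230) (.e (nat_lit 163942) (nat_lit 19) (.e (nat_lit 483339) (nat_lit 9) .nil)))) (.g (nat_lit 0) (.e (nat_lit 273414) (nat_lit 0) .nil) .nil))) 
(.lf (nat_lit 542553) (.g (nat_lit 1246) (.e (nat_lit 98341) (nat_lit 20) (.e (nat_lit 221214) (nat_lit 23) (.e (nat_lit 204830) (nat_lit 18) (.e (nat_lit 57926) (nat_lit 282) .nil)))) (.g (nat_lit 0) (.e (nat_lit 274083) (nat_lit 0) .nil) .nil))))) (.nd (nat_lit 8) (.nd (nat_lit 9) 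
(.lf (nat_lit 541913) (.g (nat_lit 1211) (.e (nat_lit 98333) (nat_lit 18) (.e (nat_lit 164399) (nat_lit 256) (.e (nat_lit 57378) (nat_lit 3) (.e (nat_lit 98376) (nat_lit 30) .nil)))) (.g (nat_lit 0) (.e (nat_lit 273146) (nat_lit 0) .nil) .nil))) 
(.lf (nat_lit 542425) (.g (nat_lit 1795) (.e (nat_lit 98338) (nat_lit 19) (.e (nat_lit 213032) (nat_lit 11) (.e (nat_lit 24608) (nat_lit 3) (.e (nat_lit 98380) (nat_lit 31) (.e (nat_lit 474880) (nat_lit 3) .nil))))) (.g (nat_lit 1) (.e (nat_lit 273925) (nat_lit 0) .nil) .nil)))) (.nd (nat_lit 9) 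
(.lf (nat_lit 542169) (.g (nat_lit 2227) (.e (nat_lit 98335) (nat_lit 18) (.e (nat_lit 164326) (nat_lit 230) (.e (nat_lit 163903) (nat_lit 12) (.e (nat_lit 426479) (nat_lit 27) (.e (nat_lit 336443) (nat_lit 32) (.e (nat_lit 474880) (nat_lit 3) .nil)))))) (.g (nat_lit 1) (.e (nat_lit 273598) (nat_lit 0) .nil) .nil))) 
(.lf (nat_lit 542681) (.g (nat_lit 402) (.e (nat_lit 98342) (nat_lit 20) (.e (nat_lit 221215) (nat_lit 23) (.e (nat_lit 204830) (nat_lit 18) .nil))) (.g (nat_lit 0) (.e (nat_lit 274224) (nat_lit 0) .nil) .nil))))))) (.nd (nat_lit 6) (.nd (nat_lit 7) (.nd (nat_lit 8) (.nd (nat_lit 9) 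
(.lf (nat_lit 541753) (.g (nat_lit 2133) (.e (nat_lit 98333) (nat_lit 18) (.e (nat_lit 164325) (nat_lit 230) (.e (nat_lit 163907) (nat_lit 12) (.e (nat_lit 426479) (nat_lit 27) (.e (nat_lit 336428) (nat_lit 29) (.e (nat_lit 450304) (nat_lit 3) .nil)))))) (.g (nat_lit 1) (.e (nat_lit 272908) (nat_lit 0) .nil) .nil))) 
(.lf (nat_lit 542265) (.g (nat_lit 3489) (.e (nat_lit 98335) (nat_lit 18) (.e (nat_lit 164330) (nat_lit 230) (.e (nat_lit 163902) (nat_lit 12) (.e (nat_lit 426568) (nat_lit 34) (.e (nat_lit 393271) (nat_lit 23) (.e (nat_lit 426438) (nat_lit 18) .nil)))))) (.g (nat_lit 1) (.e (nat_lit 273719) (nat_lit 0) .nil) .nil)))) (.nd (nat_lit 9) 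
(.lf (nat_lit 542009) (.g (nat_lit 3639) (.e (nat_lit 98334) (nat_lit 18) (.e (nat_lit 164332) (nat_lit 230) (.e (nat_lit 163874) (nat_lit 3) (.e (nat_lit 204838) (nat_lit 20) (.e (nat_lit 114719) (nat_lit 23) (.e (nat_lit 98356) (nat_lit 26) (.e (nat_lit 426438) (nat_lit 18) .nil))))))) (.g (nat_lit 1) (.e (nat_lit 273372) (nat_lit 0) .nil) .nil))) 
(.lf (nat_lit 542521) (.g (nat_lit 4904) (.e (nat_lit 98341) (nat_lit 20) (.e (nat_lit 221210) (nat_lit 22) (.e (nat_lit 196670) (nat_lit 14) (.e (nat_lit 73746) (nat_lit 3) (.e (nat_lit 516115) (nat_lit 1) (.e (nat_lit 164182) (nat_lit 154) (.e (nat_lit 57379) (nat_lit 3) .nil))))))) (.g (nat_lit 1) (.e (nat_lit 274050) (nat_lit 0) .nil) .nil))))) (.nd (nat_lit 8) (.nd (nat_lit 9) 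
(.lf (nat_lit 541881) (.g (nat_lit 3675) (.e (nat_lit 98333) (nat_lit 18) (.e (nat_lit 164332) (nat_lit 230) (.e (nat_lit 163902) (nat_lit 12) (.e (nat_lit 426566) (nat_lit 34) (.e (nat_lit 393271) (nat_lit 23) (.e (nat_lit 426436) (nat_lit 18) .nil)))))) (.g (nat_lit 1) (.e (nat_lit 273104) (nat_lit 0) .nil) .nil))) 
(.lf (nat_lit 542393) (.g (nat_lit 2205) (.e (nat_lit 98337) (nat_lit 19) (.e (nat_lit 213032) (nat_lit 11) (.e (nat_lit 24608) (nat_lit 3) (.e (nat_lit 98363) (nat_lit 26) (.e (nat_lit 426228) (nat_lit 9) (.e (nat_lit 426435) (nat_lit 18) .nil)))))) (.g (nat_lit 1) (.e (nat_lit 273888) (nat_lit 0) .nil) .nil)))) (.nd (nat_lit 9) 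
(.lf (nat_lit 542137) (.g (nat_lit 2650) (.e (nat_lit 98335) (nat_lit 18) (.e (nat_lit 164324) (nat_lit 230) (.e (nat_lit 163941) (nat_lit 19) (.e (nat_lit 483341) (nat_lit 9) (.e (nat_lit 433920) (nat_lit 9) (.e (nat_lit 426435) (nat_lit 18) .nil)))))) (.g (nat_lit 1) (.e (nat_lit 273554) (nat_lit 0) .nil) .nil))) 
(.lf (nat_lit 542649) (.g (nat_lit 5560) (.e (nat_lit 98342) (nat_lit 20) (.e (nat_lit 221214) (nat_lit 23) (.e (nat_lit 204829) (nat_lit 18) (.e (nat_lit 57931) (nat_lit 282) (.e (nat_lit 163869) (nat_lit 2) (.e (nat_lit 196666) (nat_lit 13) (.e (nat_lit 65571) (nat_lit 3) .nil))))))) (.g (nat_lit 1) (.e (nat_lit 274190) (nat_lit 0) .nil) .nil)))))) 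
(.nd (nat_lit 7) (.nd (nat_lit 8) (.nd (nat_lit 9) 
(.lf (nat_lit 541817) (.g (nat_lit 2000) (.e (nat_lit 98333) (nat_lit 18) (.e (nat_lit 164327) (nat_lit 230) (.e (nat_lit 163875) (nat_lit 3) (.e (nat_lit 204809) (nat_lit 9) (.e (nat_lit 426139) (nat_lit 3) .nil))))) (.g (nat_lit 0) (.e (nat_lit 273011) (nat_lit 0) .nil) .nil))) 
(.lf (nat_lit 542329) (.g (nat_lit 2874) (.e (nat_lit 98335) (nat_lit 18) (.e (nat_lit 164332) (nat_lit 230) (.e (nat_lit 163905) (nat_lit 12) (.e (nat_lit 426482) (nat_lit 27) (.e (nat_lit 336388) (nat_lit 27) .nil))))) (.g (nat_lit 0) (.e (nat_lit 273808) (nat_lit 0) .nil) .nil)))) (.nd (nat_lit 9) 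
(.lf (nat_lit 542073) (.g (nat_lit 1890) (.e (nat_lit 98335) (nat_lit 18) (.e (nat_lit 164179) (nat_lit 154) (.e (nat_lit 57378) (nat_lit 3) (.e (nat_lit 98340) (nat_lit 20) .nil)))) (.g (nat_lit 0) (.e (nat_lit 273465) (nat_lit 0) .nil) .nil))) 
(.lf (nat_lit 542585) (.g (nat_lit 2873) (.e (nat_lit 98342) (nat_lit 20) (.e (nat_lit 221210) (nat_lit 22) (.e (nat_lit 196666) (nat_lit 13) (.e (nat_lit 65569) (nat_lit 3) (.e (nat_lit 98335) (nat_lit 18) (.e (nat_lit 164183) (nat_lit 154) (.e (nat_lit 57378) (nat_lit 3) .nil))))))) (.g (nat_lit 1) (.e (nat_lit 274126) (nat_lit 0) .nil) .nil))))) (.nd (nat_lit 8) (.nd (nat_lit 9) 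
(.lf (nat_lit 541945) (.g (nat_lit 4639) (.e (nat_lit 98334) (nat_lit 18) (.e (nat_lit 164305) (nat_lit 226) (.e (nat_lit 2612) (nat_lit 163) (.e (nat_lit 163979) (nat_lit 30) (.e (nat_lit 573487) (nat_lit 14) (.e (nat_lit 73753) (nat_lit 8) (.e (nat_lit 557098) (nat_lit 13) (.e (nat_lit 179968) (nat_lit 18) .nil)))))))) (.g (nat_lit 1) (.e (nat_lit 273222) (nat_lit 0) .nil) .nil))) 
(.lf (nat_lit 542457) (.g (nat_lit 1781) (.e (nat_lit 98339) (nat_lit 19) (.e (nat_lit 213032) (nat_lit 11) (.e (nat_lit 24608) (nat_lit 3) (.e (nat_lit 98380) (nat_lit 31) (.e (nat_lit 474880) (nat_lit 3) .nil))))) (.g (nat_lit 1) (.e (nat_lit 273978) (nat_lit 0) .nil) .nil)))) (.nd (nat_lit 9) 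
(.lf (nat_lit 542201) (.g (nat_lit 2267) (.e (nat_lit 98335) (nat_lit 18) (.e (nat_lit 164327) (nat_lit 230) (.e (nat_lit 163903) (nat_lit 12) (.e (nat_lit 426566) (nat_lit 34) (.e (nat_lit 393273) (nat_lit 23) (.e (nat_lit 426434) (nat_lit 18) .nil)))))) (.g (nat_lit 1) (.e (nat_lit 273634) (nat_lit 0) .nil) .nil))) 
(.lf (nat_lit 542713) (.g (nat_lit 2765) (.e (nat_lit 98349) (nat_lit 24) (.e (nat_lit 409643) (nat_lit 18) (.e (nat_lit 303119) (nat_lit 3) (.e (nat_lit 204855) (nat_lit 26) (.e (nat_lit 336099) (nat_lit 9) (.e (nat_lit 336028) (nat_lit 3) .nil)))))) (.g (nat_lit 1) (.e (nat_lit 274344) (nat_lit 0) .nil) .nil)))))))))) 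
(.nd (nat_lit 3) (.nd (nat_lit 4) (.nd (nat_lit 5) (.nd (nat_lit 6) (.nd (nat_lit 7) 
(.nd (nat_lit 8) (.nd (nat_lit 9) 
(.lf (nat_lit 541701) (.g (nat_lit 3874) (.e (nat_lit 98333) (nat_lit 18) (.e (nat_lit 164183) (nat_lit 154) (.e (nat_lit 57378) (nat_lit 3) (.e (nat_lit 98341) (nat_lit 20) (.e (nat_lit 221214) (nat_lit 23) (.e (nat_lit 204861) (nat_lit 26) (.e (nat_lit 336021) (nat_lit 3) .nil))))))) (.g (nat_lit 1) (.e (nat_lit 272833) (nat_lit 0) .nil) .nil))) 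
(.lf (nat_lit 542213) (.g (nat_lit 1123) (.e (nat_lit 98335) (nat_lit 18) (.e (nat_lit 164327) (nat_lit 230) (.e (nat_lit 163944) (nat_lit 19) (.e (nat_lit 483339) (nat_lit 9) (.e (nat_lit 426225) (nat_lit 9) .nil))))) (.g (nat_lit 0) (.e (nat_lit 273650) (nat_lit 0) .nil) .nil)))) (.nd (nat_lit 9) 
(.lf (nat_lit 541957) (.g (nat_lit 1180) (.e (nat_lit 98334) (nat_lit 18) (.e (nat_lit 164329) (nat_lit 230) (.e (nat_lit 163902) (nat_lit 12) (.e (nat_lit 426481) (nat_lit 27) .nil)))) (.g (nat_lit 0) (.e (nat_lit 273242) (nat_lit 0) .nil) .nil))) 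
(.lf (nat_lit 542469) (.g (nat_lit 898) (.e (nat_lit 106240) (nat_lit 19) (.e (nat_lit 213032) (nat_lit 11) (.e (nat_lit 24608) (nat_lit 3) (.e (nat_lit 98380) (nat_lit 31) (.e (nat_lit 474880) (nat_lit 3) .nil))))) (.g (nat_lit 0) (.e (nat_lit 273990) (nat_lit 0) .nil) .nil))))) (.nd (nat_lit 8) (.nd (nat_lit 9) 
(.lf (nat_lit 541829) (.g (nat_lit 1761) (.e (nat_lit 98333) (nat_lit 18) (.e (nat_lit 164327) (nat_lit 230) (.e (nat_lit 163903) (nat_lit 12) (.e (nat_lit 426479) (nat_lit 27) .nil)))) (.g (nat_lit 0) (.e (nat_lit 273026) (nat_lit 0) .nil) .nil))) 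
(.lf (nat_lit 542341) (.g (nat_lit 2349) (.e (nat_lit 98335) (nat_lit 18) (.e (nat_lit 164332) (nat_lit 230) (.e (nat_lit 163905) (nat_lit 12) (.e (nat_lit 426502) (nat_lit 27) .nil)))) (.g (nat_lit 0) (.e (nat_lit 273820) (nat_lit 0) .nil) .nil)))) (.nd (nat_lit 9) 
(.lf (nat_lit 542085) (.g (nat_lit 3612) (.e (nat_lit 98335) (nat_lit 18) (.e (nat_lit 164183) (nat_lit 154) (.e (nat_lit 57378) (nat_lit 3) (.e (nat_lit 98341) (nat_lit 20) (.e (nat_lit 221214) (nat_lit 23) (.e (nat_lit 204861) (nat_lit 26) (.e (nat_lit 336026) (nat_lit 3) .nil))))))) (.g (nat_lit 1) (.e (nat_lit 273482) (nat_lit 0) .nil) .nil))) 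
(.lf (nat_lit 542597) (.g (nat_lit 5694) (.e (nat_lit 98342) (nat_lit 20) (.e (nat_lit 221210) (nat_lit 22) (.e (nat_lit 196668) (nat_lit 14) (.e (nat_lit 73747) (nat_lit 3) (.e (nat_lit 516115) (nat_lit 1) (.e (nat_lit 164179) (nat_lit 154) (.e (nat_lit 57378) (nat_lit 3) .nil))))))) (.g (nat_lit 1) (.e (nat_lit 274138) (nat_lit 0) .nil) .nil)))))) 
(.nd (nat_lit 7) (.nd (nat_lit 8) (.nd (nat_lit 9) 
(.lf (nat_lit 541765) (.g (nat_lit 2526) (.e (nat_lit 98333) (nat_lit 18) (.e (nat_lit 164325) (nat_lit 230) (.e (nat_lit 163907) (nat_lit 12) (.e (nat_lit 426568) (nat_lit 34) (.e (nat_lit 393267) (nat_lit 23) (.e (nat_lit 426434) (nat_lit 18) .nil)))))) (.g (nat_lit 1) (.e (nat_lit 272920) (nat_lit 0) .nil) .nil))) 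
(.lf (nat_lit 542277) (.g (nat_lit 2089) (.e (nat_lit 98335) (nat_lit 18) (.e (nat_lit 164330) (nat_lit 230) (.e (nat_lit 163941) (nat_lit 19) (.e (nat_lit 483336) (nat_lit 9) .nil)))) (.g (nat_lit 0) (.e (nat_lit 273737) (nat_lit 0) .nil) .nil)))) (.nd (nat_lit 9) 
(.lf (nat_lit 542021) (.g (nat_lit 2910) (.e (nat_lit 98334) (nat_lit 18) (.e (nat_lit 164332) (nat_lit 230) (.e (nat_lit 163902) (nat_lit 12) (.e (nat_lit 426566) (nat_lit 34) (.e (nat_lit 393273) (nat_lit 23) (.e (nat_lit 426434) (nat_lit 18) .nil)))))) (.g (nat_lit 1) (.e (nat_lit 273384) (nat_lit 0) .nil) .nil))) 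
(.lf (nat_lit 542533) (.g (nat_lit 4406) (.e (nat_lit 98341) (nat_lit 20) (.e (nat_lit 221212) (nat_lit 22) (.e (nat_lit 196668) (nat_lit 14) (.e (nat_lit 73747) (nat_lit 3) (.e (nat_lit 516115) (nat_lit 1) (.e (nat_lit 164177) (nat_lit 154) (.e (nat_lit 57379) (nat_lit 3) .nil))))))) (.g (nat_lit 1) (.e (nat_lit 274062) (nat_lit 0) .nil) .nil))))) (.nd (nat_lit 8) (.nd (nat_lit 9) 
(.lf (nat_lit 541893) (.g (nat_lit 1775) (.e (nat_lit 98333) (nat_lit 18) (.e (nat_lit 164332) (nat_lit 230) (.e (nat_lit 163905) (nat_lit 12) (.e (nat_lit 426487) (nat_lit 27) .nil)))) (.g (nat_lit 0) (.e (nat_lit 273116) (nat_lit 0) .nil) .nil))) 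
(.lf (nat_lit 542405) (.g (nat_lit 1536) (.e (nat_lit 98338) (nat_lit 19) (.e (nat_lit 213030) (nat_lit 11) (.e (nat_lit 24604) (nat_lit 2) (.e (nat_lit 90176) (nat_lit 15) (.e (nat_lit 196352) (nat_lit 3) .nil))))) (.g (nat_lit 1) (.e (nat_lit 273901) (nat_lit 0) .nil) .nil)))) (.nd (nat_lit 9) 
(.lf (nat_lit 542149) (.g (nat_lit 1491) (.e (nat_lit 98335) (nat_lit 18) (.e (nat_lit 164325) (nat_lit 230) (.e (nat_lit 163905) (nat_lit 12) (.e (nat_lit 426482) (nat_lit 27) .nil)))) (.g (nat_lit 0) (.e (nat_lit 273573) (nat_lit 0) .nil) .nil))) 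
(.lf (nat_lit 542661) (.g (nat_lit 4135) (.e (nat_lit 98342) (nat_lit 20) (.e (nat_lit 221214) (nat_lit 23) (.e (nat_lit 204831) (nat_lit 18) (.e (nat_lit 57931) (nat_lit 282) (.e (nat_lit 163869) (nat_lit 2) (.e (nat_lit 196663) (nat_lit 13) (.e (nat_lit 65571) (nat_lit 3) .nil))))))) (.g (nat_lit 1) (.e (nat_lit 274204) (nat_lit 0) .nil) .nil))))))) 
(.nd (nat_lit 6) (.nd (nat_lit 7) (.nd (nat_lit 8) (.nd (nat_lit 9) 
(.lf (nat_lit 541733) (.g (nat_lit 2459) (.e (nat_lit 98333) (nat_lit 18) (.e (nat_lit 164325) (nat_lit 230) (.e (nat_lit 163903) (nat_lit 12) (.e (nat_lit 426479) (nat_lit 27) (.e (nat_lit 336414) (nat_lit 27) (.e (nat_lit 426232) (nat_lit 9) (.e (nat_lit 426435) (nat_lit 18) .nil))))))) (.g (nat_lit 1) (.e (nat_lit 272887) (nat_lit 0) .nil) .nil))) 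
(.lf (nat_lit 542245) (.g (nat_lit 4780) (.e (nat_lit 98335) (nat_lit 18) (.e (nat_lit 164330) (nat_lit 230) (.e (nat_lit 163851) (nat_lit 0) (.e (nat_lit 3307) (nat_lit 202) (.e (nat_lit 573489) (nat_lit 14) (.e (nat_lit 73755) (nat_lit 8) (.e (nat_lit 557098) (nat_lit 13) (.e (nat_lit 179968) (nat_lit 18) .nil)))))))) (.g (nat_lit 1) (.e (nat_lit 273692) (nat_lit 0) .nil) .nil)))) 
(.nd (nat_lit 9) 
(.lf (nat_lit 541989) (.g (nat_lit 2934) (.e (nat_lit 98334) (nat_lit 18) (.e (nat_lit 164330) (nat_lit 230) (.e (nat_lit 163902) (nat_lit 12) (.e (nat_lit 426568) (nat_lit 34) (.e (nat_lit 393270) (nat_lit 23) (.e (nat_lit 426436) (nat_lit 18) .nil)))))) (.g (nat_lit 1) (.e (nat_lit 273303) (nat_lit 0) .nil) .nil))) 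
(.lf (nat_lit 542501) (.g (nat_lit 2945) (.e (nat_lit 98341) (nat_lit 20) (.e (nat_lit 221210) (nat_lit 22) (.e (nat_lit 196663) (nat_lit 13) (.e (nat_lit 65571) (nat_lit 3) (.e (nat_lit 98333) (nat_lit 18) (.e (nat_lit 164179) (nat_lit 154) (.e (nat_lit 57377) (nat_lit 3) .nil))))))) (.g (nat_lit 1) (.e (nat_lit 274030) (nat_lit 0) .nil) .nil))))) (.nd (nat_lit 8) (.nd (nat_lit 9) 
(.lf (nat_lit 541861) (.g (nat_lit 1747) (.e (nat_lit 98333) (nat_lit 18) (.e (nat_lit 164327) (nat_lit 230) (.e (nat_lit 163944) (nat_lit 19) (.e (nat_lit 483339) (nat_lit 9) (.e (nat_lit 426260) (nat_lit 9) (.e (nat_lit 433920) (nat_lit 18) .nil)))))) (.g (nat_lit 1) (.e (nat_lit 273068) (nat_lit 0) .nil) .nil))) 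
(.lf (nat_lit 542373) (.g (nat_lit 2697) (.e (nat_lit 98335) (nat_lit 18) (.e (nat_lit 164403) (nat_lit 256) (.e (nat_lit 57378) (nat_lit 3) (.e (nat_lit 98367) (nat_lit 27) (.e (nat_lit 434234) (nat_lit 23) .nil))))) (.g (nat_lit 0) (.e (nat_lit 273865) (nat_lit 0) .nil) .nil)))) (.nd (nat_lit 9) 
(.lf (nat_lit 542117) (.g (nat_lit 2953) (.e (nat_lit 98335) (nat_lit 18) (.e (nat_lit 164322) (nat_lit 230) (.e (nat_lit 163902) (nat_lit 12) (.e (nat_lit 426568) (nat_lit 34) (.e (nat_lit 393279) (nat_lit 23) (.e (nat_lit 426435) (nat_lit 18) .nil)))))) (.g (nat_lit 1) (.e (nat_lit 273530) (nat_lit 0) .nil) .nil))) 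
(.lf (nat_lit 542629) (.g (nat_lit 2769) (.e (nat_lit 98342) (nat_lit 20) (.e (nat_lit 221212) (nat_lit 22) (.e (nat_lit 196669) (nat_lit 14) (.e (nat_lit 73745) (nat_lit 3) (.e (nat_lit 516119) (nat_lit 1) (.e (nat_lit 164179) (nat_lit 154) (.e (nat_lit 57377) (nat_lit 3) .nil))))))) (.g (nat_lit 1) (.e (nat_lit 274170) (nat_lit 0) .nil) .nil)))))) 
(.nd (nat_lit 7) (.nd (nat_lit 8) (.nd (nat_lit 9) 
(.lf (nat_lit 541797) (.g (nat_lit 2863) (.e (nat_lit 98333) (nat_lit 18) (.e (nat_lit 164327) (nat_lit 230) (.e (nat_lit 163868) (nat_lit 2) (.e (nat_lit 196656) (nat_lit 11) (.e (nat_lit 16416) (nat_lit 3) (.e (nat_lit 204836) (nat_lit 20) (.e (nat_lit 114717) (nat_lit 23) .nil))))))) (.g (nat_lit 1) (.e (nat_lit 272985) (nat_lit 0) .nil) .nil))) 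
(.lf (nat_lit 542309) (.g (nat_lit 2460) (.e (nat_lit 98335) (nat_lit 18) (.e (nat_lit 164332) (nat_lit 230) (.e (nat_lit 163902) (nat_lit 12) (.e (nat_lit 426479) (nat_lit 27) (.e (nat_lit 336414) (nat_lit 27) (.e (nat_lit 426228) (nat_lit 9) (.e (nat_lit 426435) (nat_lit 18) .nil))))))) (.g (nat_lit 1) (.e (nat_lit 273788) (nat_lit 0) .nil) .nil)))) (.nd (nat_lit 9) 
(.lf (nat_lit 542053) (.g (nat_lit 2065) (.e (nat_lit 98334) (nat_lit 18) (.e (nat_lit 164399) (nat_lit 256) (.e (nat_lit 57374) (nat_lit 2) (.e (nat_lit 90172) (nat_lit 14) (.e (nat_lit 180244) (nat_lit 5) .nil))))) (.g (nat_lit 0) (.e (nat_lit 273438) (nat_lit 0) .nil) .nil))) 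
(.lf (nat_lit 542565) (.g (nat_lit 1682) (.e (nat_lit 98341) (nat_lit 20) (.e (nat_lit 221215) (nat_lit 23) (.e (nat_lit 204855) (nat_lit 26) (.e (nat_lit 336024) (nat_lit 3) .nil)))) (.g (nat_lit 0) (.e (nat_lit 274097) (nat_lit 0) .nil) .nil))))) (.nd (nat_lit 8) (.nd (nat_lit 9) 
(.lf (nat_lit 541925) (.g (nat_lit 3900) (.e (nat_lit 98334) (nat_lit 18) (.e (nat_lit 164182) (nat_lit 154) (.e (nat_lit 57378) (nat_lit 3) (.e (nat_lit 98342) (nat_lit 20) (.e (nat_lit 221212) (nat_lit 22) (.e (nat_lit 196681) (nat_lit 17) (.e (nat_lit 131098) (nat_lit 3) .nil))))))) (.g (nat_lit 1) (.e (nat_lit 273170) (nat_lit 0) .nil) .nil))) 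
(.lf (nat_lit 542437) (.g (nat_lit 1782) (.e (nat_lit 98339) (nat_lit 19) (.e (nat_lit 213030) (nat_lit 11) (.e (nat_lit 24608) (nat_lit 3) (.e (nat_lit 98370) (nat_lit 28) (.e (nat_lit 450304) (nat_lit 3) .nil))))) (.g (nat_lit 1) (.e (nat_lit 273955) (nat_lit 0) .nil) .nil)))) (.nd (nat_lit 9) 
(.lf (nat_lit 542181) (.g (nat_lit 1434) (.e (nat_lit 98335) (nat_lit 18) (.e (nat_lit 164327) (nat_lit 230) (.e (nat_lit 163875) (nat_lit 3) (.e (nat_lit 204836) (nat_lit 20) .nil)))) (.g (nat_lit 0) (.e (nat_lit 273614) (nat_lit 0) .nil) .nil))) 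
(.lf (nat_lit 542693) (.g (nat_lit 4206) (.e (nat_lit 98342) (nat_lit 20) (.e (nat_lit 221215) (nat_lit 23) (.e (nat_lit 204852) (nat_lit 26) (.e (nat_lit 336324) (nat_lit 18) (.e (nat_lit 204831) (nat_lit 18) (.e (nat_lit 57852) (nat_lit 252) (.e (nat_lit 57378) (nat_lit 3) .nil))))))) (.g (nat_lit 1) (.e (nat_lit 274239) (nat_lit 0) .nil) .nil)))))))) 
(.nd (nat_lit 5) (.nd (nat_lit 6) (.nd (nat_lit 7) (.nd (nat_lit 8) (.nd (nat_lit 9) 
(.lf (nat_lit 541717) (.g (nat_lit 3233) (.e (nat_lit 98333) (nat_lit 18) (.e (nat_lit 164325) (nat_lit 230) (.e (nat_lit 163869) (nat_lit 2) (.e (nat_lit 196656) (nat_lit 11) (.e (nat_lit 16416) (nat_lit 3) (.e (nat_lit 204838) (nat_lit 20) (.e (nat_lit 114718) (nat_lit 23) .nil))))))) (.g (nat_lit 1) (.e (nat_lit 272862) (nat_lit 0) .nil) .nil))) 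
(.lf (nat_lit 542229) (.g (nat_lit 3353) (.e (nat_lit 98335) (nat_lit 18) (.e (nat_lit 164329) (nat_lit 230) (.e (nat_lit 163904) (nat_lit 12) (.e (nat_lit 426566) (nat_lit 34) (.e (nat_lit 393273) (nat_lit 23) (.e (nat_lit 426436) (nat_lit 18) .nil)))))) (.g (nat_lit 1) (.e (nat_lit 273668) (nat_lit 0) .nil) .nil)))) (.nd (nat_lit 9) 
(.lf (nat_lit 541973) (.g (nat_lit 2949) (.e (nat_lit 98334) (nat_lit 18) (.e (nat_lit 164330) (nat_lit 230) (.e (nat_lit 163869) (nat_lit 2) (.e (nat_lit 196656) (nat_lit 11) (.e (nat_lit 16415) (nat_lit 3) .nil))))) (.g (nat_lit 0) (.e (nat_lit 273275) (nat_lit 0) .nil) .nil))) 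
(.lf (nat_lit 542485) (.g (nat_lit 3801) (.e (nat_lit 98340) (nat_lit 20) (.e (nat_lit 221212) (nat_lit 22) (.e (nat_lit 196681) (nat_lit 17) (.e (nat_lit 131098) (nat_lit 3) (.e (nat_lit 98334) (nat_lit 18) (.e (nat_lit 164182) (nat_lit 154) (.e (nat_lit 57379) (nat_lit 3) .nil))))))) (.g (nat_lit 1) (.e (nat_lit 274006) (nat_lit 0) .nil) .nil))))) (.nd (nat_lit 8) (.nd (nat_lit 9) 
(.lf (nat_lit 541845) (.g (nat_lit 2700) (.e (nat_lit 98333) (nat_lit 18) (.e (nat_lit 164327) (nat_lit 230) (.e (nat_lit 163903) (nat_lit 12) (.e (nat_lit 426568) (nat_lit 34) (.e (nat_lit 393279) (nat_lit 23) (.e (nat_lit 426433) (nat_lit 18) .nil)))))) (.g (nat_lit 1) (.e (nat_lit 273043) (nat_lit 0) .nil) .nil))) 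
(.lf (nat_lit 542357) (.g (nat_lit 1035) (.e (nat_lit 98335) (nat_lit 18) (.e (nat_lit 164332) (nat_lit 230) (.e (nat_lit 163941) (nat_lit 19) (.e (nat_lit 483337) (nat_lit 9) .nil)))) (.g (nat_lit 0) (.e (nat_lit 273839) (nat_lit 0) .nil) .nil)))) (.nd (nat_lit 9) 
(.lf (nat_lit 542101) (.g (nat_lit 5713) (.e (nat_lit 98335) (nat_lit 18) (.e (nat_lit 164305) (nat_lit 226) (.e (nat_lit 2612) (nat_lit 163) (.e (nat_lit 163978) (nat_lit 30) (.e (nat_lit 573487) (nat_lit 14) (.e (nat_lit 73753) (nat_lit 8) (.e (nat_lit 557098) (nat_lit 13) (.e (nat_lit 179968) (nat_lit 18) .nil)))))))) (.g (nat_lit 1) (.e (nat_lit 273511) (nat_lit 0) .nil) .nil))) 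
(.lf (nat_lit 542613) (.g (nat_lit 2413) (.e (nat_lit 98342) (nat_lit 20) (.e (nat_lit 221211) (nat_lit 22) (.e (nat_lit 196666) (nat_lit 13) (.e (nat_lit 65642) (nat_lit 15) (.e (nat_lit 3253) (nat_lit 197) .nil))))) (.g (nat_lit 0) (.e (nat_lit 274154) (nat_lit 0) .nil) .nil)))))) (.nd (nat_lit 7) (.nd (nat_lit 8) (.nd (nat_lit 9) 
(.lf (nat_lit 541781) (.g (nat_lit 2106) (.e (nat_lit 98333) (nat_lit 18) (.e (nat_lit 164325) (nat_lit 230) (.e (nat_lit 163943) (nat_lit 19) (.e (nat_lit 483339) (nat_lit 9) (.e (nat_lit 426261) (nat_lit 9) (.e (nat_lit 426435) (nat_lit 18) .nil)))))) (.g (nat_lit 1) (.e (nat_lit 272952) (nat_lit 0) .nil) .nil))) 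
(.lf (nat_lit 542293) (.g (nat_lit 2767) (.e (nat_lit 98335) (nat_lit 18) (.e (nat_lit 164331) (nat_lit 230) (.e (nat_lit 163943) (nat_lit 19) (.e (nat_lit 483341) (nat_lit 9) (.e (nat_lit 426188) (nat_lit 9) .nil))))) (.g (nat_lit 0) (.e (nat_lit 273766) (nat_lit 0) .nil) .nil)))) (.nd (nat_lit 9) 
(.lf (nat_lit 542037) (.g (nat_lit 375) (.e (nat_lit 98334) (nat_lit 18) (.e (nat_lit 164332) (nat_lit 230) (.e (nat_lit 163941) (nat_lit 19) .nil))) (.g (nat_lit 0) (.e (nat_lit 273402) (nat_lit 0) .nil) .nil))) 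
(.lf (nat_lit 542549) (.g (nat_lit 3949) (.e (nat_lit 98341) (nat_lit 20) (.e (nat_lit 221214) (nat_lit 23) (.e (nat_lit 204829) (nat_lit 18) (.e (nat_lit 57926) (nat_lit 282) (.e (nat_lit 163870) (nat_lit 2) (.e (nat_lit 196666) (nat_lit 13) (.e (nat_lit 65571) (nat_lit 3) .nil))))))) (.g (nat_lit 1) (.e (nat_lit 274079) (nat_lit 0) .nil) .nil))))) (.nd (nat_lit 8) (.nd (nat_lit 9) 
(.lf (nat_lit 541909) (.g (nat_lit 1352) (.e (nat_lit 98333) (nat_lit 18) (.e (nat_lit 164399) (nat_lit 256) (.e (nat_lit 57375) (nat_lit 2) (.e (nat_lit 90174) (nat_lit 14) (.e (nat_lit 180243) (nat_lit 5) .nil))))) (.g (nat_lit 0) (.e (nat_lit 273142) (nat_lit 0) .nil) .nil))) 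
(.lf (nat_lit 542421) (.g (nat_lit 1903) (.e (nat_lit 98338) (nat_lit 19) (.e (nat_lit 213032) (nat_lit 11) (.e (nat_lit 24608) (nat_lit 3) (.e (nat_lit 98365) (nat_lit 26) (.e (nat_lit 426188) (nat_lit 9) .nil))))) (.g (nat_lit 0) (.e (nat_lit 273921) (nat_lit 0) .nil) .nil)))) (.nd (nat_lit 9) 
(.lf (nat_lit 542165) (.g (nat_lit 1367) (.e (nat_lit 98335) (nat_lit 18) (.e (nat_lit 164326) (nat_lit 230) (.e (nat_lit 163903) (nat_lit 12) (.e (nat_lit 426479) (nat_lit 27) (.e (nat_lit 336426) (nat_lit 29) .nil))))) (.g (nat_lit 0) (.e (nat_lit 273594) (nat_lit 0) .nil) .nil))) 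
(.lf (nat_lit 542677) (.g (nat_lit 3934) (.e (nat_lit 98342) (nat_lit 20) (.e (nat_lit 221215) (nat_lit 23) (.e (nat_lit 204829) (nat_lit 18) (.e (nat_lit 57931) (nat_lit 282) (.e (nat_lit 163869) (nat_lit 2) (.e (nat_lit 196663) (nat_lit 13) (.e (nat_lit 65571) (nat_lit 3) .nil))))))) (.g (nat_lit 1) (.e (nat_lit 274220) (nat_lit 0) .nil) .nil))))))) 
(.nd (nat_lit 6) (.nd (nat_lit 7) (.nd (nat_lit 8) (.nd (nat_lit 9) 
(.lf (nat_lit 541749) (.g (nat_lit 2200) (.e (nat_lit 98333) (nat_lit 18) (.e (nat_lit 164325) (nat_lit 230) (.e (nat_lit 163907) (nat_lit 12) (.e (nat_lit 426478) (nat_lit 27) (.e (nat_lit 336426) (nat_lit 29) (.e (nat_lit 450304) (nat_lit 3) .nil)))))) (.g (nat_lit 1) (.e (nat_lit 272904) (nat_lit 0) .nil) .nil))) 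
(.lf (nat_lit 542261) (.g (nat_lit 1755) (.e (nat_lit 98335) (nat_lit 18) (.e (nat_lit 164330) (nat_lit 230) (.e (nat_lit 163902) (nat_lit 12) (.e (nat_lit 426486) (nat_lit 27) .nil)))) (.g (nat_lit 0) (.e (nat_lit 273715) (nat_lit 0) .nil) .nil)))) (.nd (nat_lit 9) 
(.lf (nat_lit 542005) (.g (nat_lit 2890) (.e (nat_lit 98334) (nat_lit 18) (.e (nat_lit 164332) (nat_lit 230) (.e (nat_lit 163867) (nat_lit 2) (.e (nat_lit 196654) (nat_lit 11) (.e (nat_lit 16416) (nat_lit 3) (.e (nat_lit 204837) (nat_lit 20) (.e (nat_lit 114719) (nat_lit 23) .nil))))))) (.g (nat_lit 1) (.e (nat_lit 273355) (nat_lit 0) .nil) .nil))) 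
(.lf (nat_lit 542517) (.g (nat_lit 4676) (.e (nat_lit 98341) (nat_lit 20) (.e (nat_lit 221210) (nat_lit 22) (.e (nat_lit 196668) (nat_lit 14) (.e (nat_lit 73747) (nat_lit 3) (.e (nat_lit 516119) (nat_lit 1) (.e (nat_lit 164179) (nat_lit 154) (.e (nat_lit 57379) (nat_lit 3) .nil))))))) (.g (nat_lit 1) (.e (nat_lit 274046) (nat_lit 0) .nil) .nil))))) (.nd (nat_lit 8) (.nd (nat_lit 9) 
(.lf (nat_lit 541877) (.g (nat_lit 2210) (.e (nat_lit 98333) (nat_lit 18) (.e (nat_lit 164332) (nat_lit 230) (.e (nat_lit 163902) (nat_lit 12) (.e (nat_lit 426479) (nat_lit 27) (.e (nat_lit 336428) (nat_lit 29) (.e (nat_lit 450304) (nat_lit 3) .nil)))))) (.g (nat_lit 1) (.e (nat_lit 273100) (nat_lit 0) .nil) .nil))) 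
(.lf (nat_lit 542389) (.g (nat_lit 1976) (.e (nat_lit 98337) (nat_lit 19) (.e (nat_lit 213032) (nat_lit 11) (.e (nat_lit 24604) (nat_lit 2) (.e (nat_lit 90176) (nat_lit 15) (.e (nat_lit 196352) (nat_lit 3) .nil))))) (.g (nat_lit 1) (.e (nat_lit 273884) (nat_lit 0) .nil) .nil)))) (.nd (nat_lit 9) 
(.lf (nat_lit 542133) (.g (nat_lit 1474) (.e (nat_lit 98335) (nat_lit 18) (.e (nat_lit 164324) (nat_lit 230) (.e (nat_lit 163941) (nat_lit 19) (.e (nat_lit 483338) (nat_lit 9) .nil)))) (.g (nat_lit 0) (.e (nat_lit 273549) (nat_lit 0) .nil) .nil))) 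
(.lf (nat_lit 542645) (.g (nat_lit 3677) (.e (nat_lit 98342) (nat_lit 20) (.e (nat_lit 221214) (nat_lit 23) (.e (nat_lit 204829) (nat_lit 18) (.e (nat_lit 57927) (nat_lit 282) (.e (nat_lit 163874) (nat_lit 3) (.e (nat_lit 204853) (nat_lit 26) (.e (nat_lit 336019) (nat_lit 3) .nil))))))) (.g (nat_lit 1) (.e (nat_lit 274186) (nat_lit 0) .nil) .nil)))))) 
(.nd (nat_lit 7) (.nd (nat_lit 8) (.nd (nat_lit 9) 
(.lf (nat_lit 541813) (.g (nat_lit 2531) (.e (nat_lit 98333) (nat_lit 18) (.e (nat_lit 164327) (nat_lit 230) (.e (nat_lit 163873) (nat_lit 3) (.e (nat_lit 204809) (nat_lit 9) (.e (nat_lit 426139) (nat_lit 3) (.e (nat_lit 204834) (nat_lit 19) (.e (nat_lit 106523) (nat_lit 9) (.e (nat_lit 1254) (nat_lit 92) .nil)))))))) (.g (nat_lit 1) (.e (nat_lit 273003) (nat_lit 0) .nil) .nil))) 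
(.lf (nat_lit 542325) (.g (nat_lit 2134) (.e (nat_lit 98335) (nat_lit 18) (.e (nat_lit 164332) (nat_lit 230) (.e (nat_lit 163905) (nat_lit 12) (.e (nat_lit 426479) (nat_lit 27) (.e (nat_lit 336430) (nat_lit 29) (.e (nat_lit 450304) (nat_lit 3) .nil)))))) (.g (nat_lit 1) (.e (nat_lit 273804) (nat_lit 0) .nil) .nil)))) (.nd (nat_lit 9) 
(.lf (nat_lit 542069) (.g (nat_lit 3498) (.e (nat_lit 98335) (nat_lit 18) (.e (nat_lit 164177) (nat_lit 154) (.e (nat_lit 57379) (nat_lit 3) (.e (nat_lit 98342) (nat_lit 20) (.e (nat_lit 221215) (nat_lit 23) (.e (nat_lit 204861) (nat_lit 26) (.e (nat_lit 336026) (nat_lit 3) .nil))))))) (.g (nat_lit 1) (.e (nat_lit 273457) (nat_lit 0) .nil) .nil))) 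
(.lf (nat_lit 542581) (.g (nat_lit 1693) (.e (nat_lit 98342) (nat_lit 20) (.e (nat_lit 221193) (nat_lit 11) (.e (nat_lit 336012) (nat_lit 2) (.e (nat_lit 90178) (nat_lit 15) (.e (nat_lit 196352) (nat_lit 3) .nil))))) (.g (nat_lit 1) (.e (nat_lit 274115) (nat_lit 0) .nil) .nil))))) (.nd (nat_lit 8) (.nd (nat_lit 9) 
(.lf (nat_lit 541941) (.g (nat_lit 5363) (.e (nat_lit 98334) (nat_lit 18) (.e (nat_lit 164305) (nat_lit 226) (.e (nat_lit 2612) (nat_lit 163) (.e (nat_lit 163978) (nat_lit 30) (.e (nat_lit 573489) (nat_lit 14) (.e (nat_lit 73755) (nat_lit 8) (.e (nat_lit 557096) (nat_lit 13) (.e (nat_lit 179968) (nat_lit 18) .nil)))))))) (.g (nat_lit 1) (.e (nat_lit 273218) (nat_lit 0) .nil) .nil))) 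
(.lf (nat_lit 542453) (.g (nat_lit 3261) (.e (nat_lit 98339) (nat_lit 19) (.e (nat_lit 213032) (nat_lit 11) (.e (nat_lit 24608) (nat_lit 3) (.e (nat_lit 98365) (nat_lit 26) (.e (nat_lit 426188) (nat_lit 9) (.e (nat_lit 426438) (nat_lit 18) .nil)))))) (.g (nat_lit 1) (.e (nat_lit 273974) (nat_lit 0) .nil) .nil)))) (.nd (nat_lit 9) 
(.lf (nat_lit 542197) (.g (nat_lit 2414) (.e (nat_lit 98335) (nat_lit 18) (.e (nat_lit 164327) (nat_lit 230) (.e (nat_lit 163903) (nat_lit 12) (.e (nat_lit 426482) (nat_lit 27) (.e (nat_lit 336388) (nat_lit 27) .nil))))) (.g (nat_lit 0) (.e (nat_lit 273630) (nat_lit 0) .nil) .nil))) 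
(.lf (nat_lit 542709) (.g (nat_lit 4207) (.e (nat_lit 98344) (nat_lit 21) (.e (nat_lit 229677) (nat_lit 244) (.e (nat_lit 163875) (nat_lit 3) (.e (nat_lit 204862) (nat_lit 27) (.e (nat_lit 344129) (nat_lit 26) (.e (nat_lit 557097) (nat_lit 13) (.e (nat_lit 179968) (nat_lit 18) .nil))))))) (.g (nat_lit 1) (.e (nat_lit 274270) (nat_lit 0) .nil) .nil))))))))) 
(.nd (nat_lit 4) (.nd (nat_lit 5) (.nd (nat_lit 6) (.nd (nat_lit 7) (.nd (nat_lit 8) 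
(.nd (nat_lit 9) 
(.lf (nat_lit 541709) (.g (nat_lit 3390) (.e (nat_lit 98333) (nat_lit 18) (.e (nat_lit 164325) (nat_lit 230) (.e (nat_lit 163851) (nat_lit 0) (.e (nat_lit 3307) (nat_lit 202) (.e (nat_lit 573489) (nat_lit 14) (.e (nat_lit 73755) (nat_lit 8) (.e (nat_lit 557096) (nat_lit 13) (.e (nat_lit 179968) (nat_lit 18) .nil)))))))) (.g (nat_lit 1) (.e (nat_lit 272849) (nat_lit 0) .nil) .nil))) 
(.lf (nat_lit 542221) (.g (nat_lit 687) (.e (nat_lit 98335) (nat_lit 18) (.e (nat_lit 164329) (nat_lit 230) (.e (nat_lit 163902) (nat_lit 12) (.e (nat_lit 426479) (nat_lit 27) .nil)))) (.g (nat_lit 0) (.e (nat_lit 273659) (nat_lit 0) .nil) .nil)))) (.nd (nat_lit 9) 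
(.lf (nat_lit 541965) (.g (nat_lit 4338) (.e (nat_lit 98334) (nat_lit 18) (.e (nat_lit 164330) (nat_lit 230) (.e (nat_lit 163850) (nat_lit 0) (.e (nat_lit 3304) (nat_lit 202) (.e (nat_lit 573489) (nat_lit 14) (.e (nat_lit 73755) (nat_lit 8) (.e (nat_lit 557097) (nat_lit 13) (.e (nat_lit 179968) (nat_lit 18) .nil)))))))) (.g (nat_lit 1) (.e (nat_lit 273256) (nat_lit 0) .nil) .nil))) 
(.lf (nat_lit 542477) (.g (nat_lit 1935) (.e (nat_lit 98340) (nat_lit 20) (.e (nat_lit 221210) (nat_lit 22) (.e (nat_lit 196670) (nat_lit 14) (.e (nat_lit 73746) (nat_lit 3) (.e (nat_lit 516119) (nat_lit 1) .nil))))) (.g (nat_lit 0) (.e (nat_lit 273998) (nat_lit 0) .nil) .nil))))) (.nd (nat_lit 8) (.nd (nat_lit 9) 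
(.lf (nat_lit 541837) (.g (nat_lit 2090) (.e (nat_lit 98333) (nat_lit 18) (.e (nat_lit 164327) (nat_lit 230) (.e (nat_lit 163903) (nat_lit 12) (.e (nat_lit 426507) (nat_lit 27) .nil)))) (.g (nat_lit 0) (.e (nat_lit 273035) (nat_lit 0) .nil) .nil))) 
(.lf (nat_lit 542349) (.g (nat_lit 2836) (.e (nat_lit 98335) (nat_lit 18) (.e (nat_lit 164332) (nat_lit 230) (.e (nat_lit 163905) (nat_lit 12) (.e (nat_lit 426530) (nat_lit 27) (.e (nat_lit 336390) (nat_lit 27) .nil))))) (.g (nat_lit 0) (.e (nat_lit 273828) (nat_lit 0) .nil) .nil)))) (.nd (nat_lit 9) 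
(.lf (nat_lit 542093) (.g (nat_lit 3210) (.e (nat_lit 98335) (nat_lit 18) (.e (nat_lit 164183) (nat_lit 154) (.e (nat_lit 57379) (nat_lit 3) (.e (nat_lit 98342) (nat_lit 20) (.e (nat_lit 221212) (nat_lit 22) (.e (nat_lit 196681) (nat_lit 17) (.e (nat_lit 131098) (nat_lit 3) .nil))))))) (.g (nat_lit 1) (.e (nat_lit 273490) (nat_lit 0) .nil) .nil))) 
(.lf (nat_lit 542605) (.g (nat_lit 3733) (.e (nat_lit 98342) (nat_lit 20) (.e (nat_lit 221210) (nat_lit 22) (.e (nat_lit 196668) (nat_lit 14) (.e (nat_lit 73747) (nat_lit 3) (.e (nat_lit 516119) (nat_lit 1) (.e (nat_lit 164183) (nat_lit 154) (.e (nat_lit 57378) (nat_lit 3) .nil))))))) (.g (nat_lit 1) (.e (nat_lit 274146) (nat_lit 0) .nil) .nil)))))) 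
(.nd (nat_lit 7) (.nd (nat_lit 8) (.nd (nat_lit 9) 
(.lf (nat_lit 541773) (.g (nat_lit 3319) (.e (nat_lit 98333) (nat_lit 18) (.e (nat_lit 164325) (nat_lit 230) (.e (nat_lit 163941) (nat_lit 19) (.e (nat_lit 483333) (nat_lit 0) (.e (nat_lit 6988) (nat_lit 377) (.e (nat_lit 977) (nat_lit 81) (.e (nat_lit 5629) (nat_lit 312) (.e (nat_lit 112) (nat_lit 3) .nil)))))))) (.g (nat_lit 1) (.e (nat_lit 272929) (nat_lit 0) .nil) .nil))) 
(.lf (nat_lit 542285) (.g (nat_lit 2653) (.e (nat_lit 98335) (nat_lit 18) (.e (nat_lit 164330) (nat_lit 230) (.e (nat_lit 163941) (nat_lit 19) (.e (nat_lit 483341) (nat_lit 9) (.e (nat_lit 433920) (nat_lit 9) (.e (nat_lit 426435) (nat_lit 18) .nil)))))) (.g (nat_lit 1) (.e (nat_lit 273748) (nat_lit 0) .nil) .nil)))) (.nd (nat_lit 9) 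
(.lf (nat_lit 542029) (.g (nat_lit 1867) (.e (nat_lit 98334) (nat_lit 18) (.e (nat_lit 164332) (nat_lit 230) (.e (nat_lit 163905) (nat_lit 12) (.e (nat_lit 426479) (nat_lit 27) (.e (nat_lit 336443) (nat_lit 32) (.e (nat_lit 474880) (nat_lit 3) .nil)))))) (.g (nat_lit 1) (.e (nat_lit 273392) (nat_lit 0) .nil) .nil))) 
(.lf (nat_lit 542541) (.g (nat_lit 983) (.e (nat_lit 98341) (nat_lit 20) (.e (nat_lit 221212) (nat_lit 22) (.e (nat_lit 196669) (nat_lit 14) (.e (nat_lit 73748) (nat_lit 3) .nil)))) (.g (nat_lit 0) (.e (nat_lit 274070) (nat_lit 0) .nil) .nil))))) (.nd (nat_lit 8) (.nd (nat_lit 9) 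
(.lf (nat_lit 541901) (.g (nat_lit 2475) (.e (nat_lit 98333) (nat_lit 18) (.e (nat_lit 164398) (nat_lit 256) (.e (nat_lit 57372) (nat_lit 2) (.e (nat_lit 90172) (nat_lit 14) (.e (nat_lit 180243) (nat_lit 5) .nil))))) (.g (nat_lit 0) (.e (nat_lit 273133) (nat_lit 0) .nil) .nil))) 
(.lf (nat_lit 542413) (.g (nat_lit 1288) (.e (nat_lit 98338) (nat_lit 19) (.e (nat_lit 213030) (nat_lit 11) (.e (nat_lit 24609) (nat_lit 3) (.e (nat_lit 98370) (nat_lit 28) (.e (nat_lit 450304) (nat_lit 3) .nil))))) (.g (nat_lit 0) (.e (nat_lit 273912) (nat_lit 0) .nil) .nil)))) (.nd (nat_lit 9) 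
(.lf (nat_lit 542157) (.g (nat_lit 1677) (.e (nat_lit 98335) (nat_lit 18) (.e (nat_lit 164325) (nat_lit 230) (.e (nat_lit 163941) (nat_lit 19) (.e (nat_lit 483338) (nat_lit 9) .nil)))) (.g (nat_lit 0) (.e (nat_lit 273581) (nat_lit 0) .nil) .nil))) 
(.lf (nat_lit 542669) (.g (nat_lit 3290) (.e (nat_lit 98342) (nat_lit 20) (.e (nat_lit 221214) (nat_lit 23) (.e (nat_lit 204863) (nat_lit 27) (.e (nat_lit 344117) (nat_lit 21) (.e (nat_lit 516099) (nat_lit 0) (.e (nat_lit 2474) (nat_lit 157) (.e (nat_lit 6398) (nat_lit 339) (.e (nat_lit 57379) (nat_lit 3) .nil)))))))) (.g (nat_lit 1) (.e (nat_lit 274212) (nat_lit 0) .nil) .nil))))))) 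
(.nd (nat_lit 6) (.nd (nat_lit 7) (.nd (nat_lit 8) (.nd (nat_lit 9) 
(.lf (nat_lit 541741) (.g (nat_lit 3818) (.e (nat_lit 98333) (nat_lit 18) (.e (nat_lit 164325) (nat_lit 230) (.e (nat_lit 163903) (nat_lit 12) (.e (nat_lit 426566) (nat_lit 34) (.e (nat_lit 393271) (nat_lit 23) (.e (nat_lit 426438) (nat_lit 18) .nil)))))) (.g (nat_lit 1) (.e (nat_lit 272895) (nat_lit 0) .nil) .nil))) 
(.lf (nat_lit 542253) (.g (nat_lit 2675) (.e (nat_lit 98335) (nat_lit 18) (.e (nat_lit 164330) (nat_lit 230) (.e (nat_lit 163869) (nat_lit 2) (.e (nat_lit 196656) (nat_lit 11) (.e (nat_lit 16416) (nat_lit 3) .nil))))) (.g (nat_lit 0) (.e (nat_lit 273703) (nat_lit 0) .nil) .nil)))) (.nd (nat_lit 9) 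
(.lf (nat_lit 541997) (.g (nat_lit 3737) (.e (nat_lit 98334) (nat_lit 18) (.e (nat_lit 164330) (nat_lit 230) (.e (nat_lit 163905) (nat_lit 12) (.e (nat_lit 426566) (nat_lit 34) (.e (nat_lit 393271) (nat_lit 23) (.e (nat_lit 426436) (nat_lit 18) .nil)))))) (.g (nat_lit 1) (.e (nat_lit 273311) (nat_lit 0) .nil) .nil))) 
(.lf (nat_lit 542509) (.g (nat_lit 3801) (.e (nat_lit 98341) (nat_lit 20) (.e (nat_lit 221210) (nat_lit 22) (.e (nat_lit 196668) (nat_lit 14) (.e (nat_lit 73746) (nat_lit 3) (.e (nat_lit 516117) (nat_lit 1) (.e (nat_lit 164181) (nat_lit 154) (.e (nat_lit 57379) (nat_lit 3) .nil))))))) (.g (nat_lit 1) (.e (nat_lit 274038) (nat_lit 0) .nil) .nil))))) (.nd (nat_lit 8) (.nd (nat_lit 9) 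
(.lf (nat_lit 541869) (.g (nat_lit 3069) (.e (nat_lit 98333) (nat_lit 18) (.e (nat_lit 164331) (nat_lit 230) (.e (nat_lit 163902) (nat_lit 12) (.e (nat_lit 426566) (nat_lit 34) (.e (nat_lit 393270) (nat_lit 23) (.e (nat_lit 426436) (nat_lit 18) .nil)))))) (.g (nat_lit 1) (.e (nat_lit 273083) (nat_lit 0) .nil) .nil))) 
(.lf (nat_lit 542381) (.g (nat_lit 1740) (.e (nat_lit 98336) (nat_lit 19) (.e (nat_lit 213032) (nat_lit 11) (.e (nat_lit 24608) (nat_lit 3) (.e (nat_lit 98363) (nat_lit 26) .nil)))) (.g (nat_lit 0) (.e (nat_lit 273876) (nat_lit 0) .nil) .nil)))) (.nd (nat_lit 9) 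
(.lf (nat_lit 542125) (.g (nat_lit 2115) (.e (nat_lit 98335) (nat_lit 18) (.e (nat_lit 164324) (nat_lit 230) (.e (nat_lit 163903) (nat_lit 12) (.e (nat_lit 426479) (nat_lit 27) (.e (nat_lit 336414) (nat_lit 27) (.e (nat_lit 426232) (nat_lit 9) (.e (nat_lit 426435) (nat_lit 18) .nil))))))) (.g (nat_lit 1) (.e (nat_lit 273538) (nat_lit 0) .nil) .nil))) 
(.lf (nat_lit 542637) (.g (nat_lit 1984) (.e (nat_lit 98342) (nat_lit 20) (.e (nat_lit 221212) (nat_lit 22) (.e (nat_lit 196681) (nat_lit 17) (.e (nat_lit 131097) (nat_lit 3) .nil)))) (.g (nat_lit 0) (.e (nat_lit 274178) (nat_lit 0) .nil) .nil)))))) (.nd (nat_lit 7) (.nd (nat_lit 8) (.nd (nat_lit 9) 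
(.lf (nat_lit 541805) (.g (nat_lit 4245) (.e (nat_lit 98333) (nat_lit 18) (.e (nat_lit 164327) (nat_lit 230) (.e (nat_lit 163871) (nat_lit 2) (.e (nat_lit 196656) (nat_lit 11) (.e (nat_lit 16416) (nat_lit 3) (.e (nat_lit 204837) (nat_lit 20) (.e (nat_lit 114719) (nat_lit 23) .nil))))))) (.g (nat_lit 1) (.e (nat_lit 272995) (nat_lit 0) .nil) .nil))) 
(.lf (nat_lit 542317) (.g (nat_lit 2107) (.e (nat_lit 98335) (nat_lit 18) (.e (nat_lit 164332) (nat_lit 230) (.e (nat_lit 163902) (nat_lit 12) (.e (nat_lit 426484) (nat_lit 27) .nil)))) (.g (nat_lit 0) (.e (nat_lit 273796) (nat_lit 0) .nil) .nil)))) (.nd (nat_lit 9) 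
(.lf (nat_lit 542061) (.g (nat_lit 1763) (.e (nat_lit 98334) (nat_lit 18) (.e (nat_lit 164401) (nat_lit 256) (.e (nat_lit 57378) (nat_lit 3) (.e (nat_lit 98368) (nat_lit 27) .nil)))) (.g (nat_lit 0) (.e (nat_lit 273446) (nat_lit 0) .nil) .nil))) 
(.lf (nat_lit 542573) (.g (nat_lit 4638) (.e (nat_lit 98341) (nat_lit 20) (.e (nat_lit 221215) (nat_lit 23) (.e (nat_lit 204861) (nat_lit 26) (.e (nat_lit 336027) (nat_lit 3) (.e (nat_lit 98333) (nat_lit 18) (.e (nat_lit 164183) (nat_lit 154) (.e (nat_lit 57378) (nat_lit 3) .nil))))))) (.g (nat_lit 1) (.e (nat_lit 274105) (nat_lit 0) .nil) .nil))))) (.nd (nat_lit 8) (.nd (nat_lit 9) 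
(.lf (nat_lit 541933) (.g (nat_lit 3402) (.e (nat_lit 98334) (nat_lit 18) (.e (nat_lit 164183) (nat_lit 154) (.e (nat_lit 57379) (nat_lit 3) (.e (nat_lit 98341) (nat_lit 20) (.e (nat_lit 221212) (nat_lit 22) (.e (nat_lit 196681) (nat_lit 17) (.e (nat_lit 131096) (nat_lit 3) .nil))))))) (.g (nat_lit 1) (.e (nat_lit 273199) (nat_lit 0) .nil) .nil))) 
(.lf (nat_lit 542445) (.g (nat_lit 1836) (.e (nat_lit 98339) (nat_lit 19) (.e (nat_lit 213032) (nat_lit 11) (.e (nat_lit 24604) (nat_lit 2) (.e (nat_lit 90176) (nat_lit 15) (.e (nat_lit 196352) (nat_lit 3) .nil))))) (.g (nat_lit 1) (.e (nat_lit 273963) (nat_lit 0) .nil) .nil)))) (.nd (nat_lit 9) 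
(.lf (nat_lit 542189) (.g (nat_lit 1181) (.e (nat_lit 98335) (nat_lit 18) (.e (nat_lit 164327) (nat_lit 230) (.e (nat_lit 163903) (nat_lit 12) (.e (nat_lit 426479) (nat_lit 27) .nil)))) (.g (nat_lit 0) (.e (nat_lit 273622) (nat_lit 0) .nil) .nil))) 
(.lf (nat_lit 542701) (.g (nat_lit 3230) (.e (nat_lit 98342) (nat_lit 20) (.e (nat_lit 221215) (nat_lit 23) (.e (nat_lit 204861) (nat_lit 26) (.e (nat_lit 336025) (nat_lit 3) (.e (nat_lit 98335) (nat_lit 18) (.e (nat_lit 164183) (nat_lit 154) (.e (nat_lit 57379) (nat_lit 3) .nil))))))) (.g (nat_lit 1) (.e (nat_lit 274247) (nat_lit 0) .nil) .nil)))))))) 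
(.nd (nat_lit 5) (.nd (nat_lit 6) (.nd (nat_lit 7) (.nd (nat_lit 8) (.nd (nat_lit 9) 
(.lf (nat_lit 541725) (.g (nat_lit 4180) (.e (nat_lit 98333) (nat_lit 18) (.e (nat_lit 164325) (nat_lit 230) (.e (nat_lit 163875) (nat_lit 3) (.e (nat_lit 204837) (nat_lit 20) (.e (nat_lit 114719) (nat_lit 23) (.e (nat_lit 98356) (nat_lit 26) (.e (nat_lit 426438) (nat_lit 18) .nil))))))) (.g (nat_lit 1) (.e (nat_lit 272879) (nat_lit 0) .nil) .nil))) 
(.lf (nat_lit 542237) (.g (nat_lit 795) (.e (nat_lit 98335) (nat_lit 18) (.e (nat_lit 164330) (nat_lit 230) (.e (nat_lit 163843) (nat_lit 0) .nil))) (.g (nat_lit 0) (.e (nat_lit 273680) (nat_lit 0) .nil) .nil)))) (.nd (nat_lit 9) 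
(.lf (nat_lit 541981) (.g (nat_lit 1857) (.e (nat_lit 98334) (nat_lit 18) (.e (nat_lit 164330) (nat_lit 230) (.e (nat_lit 163902) (nat_lit 12) (.e (nat_lit 426479) (nat_lit 27) (.e (nat_lit 336395) (nat_lit 27) .nil))))) (.g (nat_lit 0) (.e (nat_lit 273295) (nat_lit 0) .nil) .nil))) 
(.lf (nat_lit 542493) (.g (nat_lit 1578) (.e (nat_lit 98340) (nat_lit 20) (.e (nat_lit 221215) (nat_lit 23) (.e (nat_lit 204861) (nat_lit 26) (.e (nat_lit 336025) (nat_lit 3) .nil)))) (.g (nat_lit 0) (.e (nat_lit 274014) (nat_lit 0) .nil) .nil))))) (.nd (nat_lit 8) (.nd (nat_lit 9) 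
(.lf (nat_lit 541853) (.g (nat_lit 1751) (.e (nat_lit 98333) (nat_lit 18) (.e (nat_lit 164327) (nat_lit 230) (.e (nat_lit 163941) (nat_lit 19) (.e (nat_lit 483339) (nat_lit 9) (.e (nat_lit 426260) (nat_lit 9) (.e (nat_lit 433920) (nat_lit 18) .nil)))))) (.g (nat_lit 1) (.e (nat_lit 273052) (nat_lit 0) .nil) .nil))) 
(.lf (nat_lit 542365) (.g (nat_lit 2092) (.e (nat_lit 98335) (nat_lit 18) (.e (nat_lit 164332) (nat_lit 230) (.e (nat_lit 163943) (nat_lit 19) (.e (nat_lit 483339) (nat_lit 9) (.e (nat_lit 426230) (nat_lit 9) (.e (nat_lit 426435) (nat_lit 18) .nil)))))) (.g (nat_lit 1) (.e (nat_lit 273854) (nat_lit 0) .nil) .nil)))) (.nd (nat_lit 9) 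
(.lf (nat_lit 542109) (.g (nat_lit 4814) (.e (nat_lit 98335) (nat_lit 18) (.e (nat_lit 164305) (nat_lit 226) (.e (nat_lit 2612) (nat_lit 163) (.e (nat_lit 163979) (nat_lit 30) (.e (nat_lit 573489) (nat_lit 14) (.e (nat_lit 73755) (nat_lit 8) (.e (nat_lit 557097) (nat_lit 13) (.e (nat_lit 179968) (nat_lit 18) .nil)))))))) (.g (nat_lit 1) (.e (nat_lit 273519) (nat_lit 0) .nil) .nil))) 
(.lf (nat_lit 542621) (.g (nat_lit 2955) (.e (nat_lit 98342) (nat_lit 20) (.e (nat_lit 221212) (nat_lit 22) (.e (nat_lit 196668) (nat_lit 14) (.e (nat_lit 73747) (nat_lit 3) (.e (nat_lit 516115) (nat_lit 1) (.e (nat_lit 164177) (nat_lit 154) (.e (nat_lit 57377) (nat_lit 3) .nil))))))) (.g (nat_lit 1) (.e (nat_lit 274162) (nat_lit 0) .nil) .nil)))))) 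
(.nd (nat_lit 7) (.nd (nat_lit 8) (.nd (nat_lit 9) 
(.lf (nat_lit 541789) (.g (nat_lit 1612) (.e (nat_lit 98333) (nat_lit 18) (.e (nat_lit 164327) (nat_lit 230) (.e (nat_lit 163868) (nat_lit 2) (.e (nat_lit 196624) (nat_lit 9) .nil)))) (.g (nat_lit 0) (.e (nat_lit 272971) (nat_lit 0) .nil) .nil))) 
(.lf (nat_lit 542301) (.g (nat_lit 3110) (.e (nat_lit 98335) (nat_lit 18) (.e (nat_lit 164332) (nat_lit 230) (.e (nat_lit 163872) (nat_lit 3) (.e (nat_lit 204838) (nat_lit 20) (.e (nat_lit 114719) (nat_lit 23) (.e (nat_lit 98356) (nat_lit 26) (.e (nat_lit 426438) (nat_lit 18) .nil))))))) (.g (nat_lit 1) (.e (nat_lit 273778) (nat_lit 0) .nil) .nil)))) (.nd (nat_lit 9) 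
(.lf (nat_lit 542045) (.g (nat_lit 1569) (.e (nat_lit 98334) (nat_lit 18) (.e (nat_lit 164398) (nat_lit 256) (.e (nat_lit 57374) (nat_lit 2) (.e (nat_lit 90172) (nat_lit 14) .nil)))) (.g (nat_lit 0) (.e (nat_lit 273428) (nat_lit 0) .nil) .nil))) 
(.lf (nat_lit 542557) (.g (nat_lit 1734) (.e (nat_lit 98341) (nat_lit 20) (.e (nat_lit 221214) (nat_lit 23) (.e (nat_lit 204861) (nat_lit 26) (.e (nat_lit 336020) (nat_lit 3) (.e (nat_lit 98334) (nat_lit 18) .nil))))) (.g (nat_lit 0) (.e (nat_lit 274088) (nat_lit 0) .nil) .nil))))) (.nd (nat_lit 8) (.nd (nat_lit 9) 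
(.lf (nat_lit 541917) (.g (nat_lit 3979) (.e (nat_lit 98333) (nat_lit 18) (.e (nat_lit 164403) (nat_lit 256) (.e (nat_lit 57378) (nat_lit 3) (.e (nat_lit 98367) (nat_lit 27) (.e (nat_lit 434231) (nat_lit 23) (.e (nat_lit 532514) (nat_lit 3) (.e (nat_lit 114717) (nat_lit 23) .nil))))))) (.g (nat_lit 1) (.e (nat_lit 273154) (nat_lit 0) .nil) .nil))) 
(.lf (nat_lit 542429) (.g (nat_lit 1151) (.e (nat_lit 98338) (nat_lit 19) (.e (nat_lit 213032) (nat_lit 11) (.e (nat_lit 24609) (nat_lit 3) (.e (nat_lit 98369) (nat_lit 28) .nil)))) (.g (nat_lit 0) (.e (nat_lit 273930) (nat_lit 0) .nil) .nil)))) (.nd (nat_lit 9) 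
(.lf (nat_lit 542173) (.g (nat_lit 1192) (.e (nat_lit 98335) (nat_lit 18) (.e (nat_lit 164326) (nat_lit 230) (.e (nat_lit 163942) (nat_lit 19) (.e (nat_lit 483339) (nat_lit 9) (.e (nat_lit 426260) (nat_lit 9) (.e (nat_lit 433920) (nat_lit 18) .nil)))))) (.g (nat_lit 1) (.e (nat_lit 273602) (nat_lit 0) .nil) .nil))) 
(.lf (nat_lit 542685) (.g (nat_lit 3478) (.e (nat_lit 98342) (nat_lit 20) (.e (nat_lit 221215) (nat_lit 23) (.e (nat_lit 204830) (nat_lit 18) (.e (nat_lit 57927) (nat_lit 282) (.e (nat_lit 163874) (nat_lit 3) (.e (nat_lit 204853) (nat_lit 26) (.e (nat_lit 336019) (nat_lit 3) .nil))))))) (.g (nat_lit 1) (.e (nat_lit 274231) (nat_lit 0) .nil) .nil))))))) 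
(.nd (nat_lit 6) (.nd (nat_lit 7) (.nd (nat_lit 8) (.nd (nat_lit 9) 
(.lf (nat_lit 541757) (.g (nat_lit 1927) (.e (nat_lit 98333) (nat_lit 18) (.e (nat_lit 164325) (nat_lit 230) (.e (nat_lit 163907) (nat_lit 12) (.e (nat_lit 426509) (nat_lit 27) (.e (nat_lit 336412) (nat_lit 27) .nil))))) (.g (nat_lit 0) (.e (nat_lit 272912) (nat_lit 0) .nil) .nil))) 
(.lf (nat_lit 542269) (.g (nat_lit 1920) (.e (nat_lit 98335) (nat_lit 18) (.e (nat_lit 164330) (nat_lit 230) (.e (nat_lit 163905) (nat_lit 12) (.e (nat_lit 426502) (nat_lit 27) (.e (nat_lit 336387) (nat_lit 27) .nil))))) (.g (nat_lit 0) (.e (nat_lit 273723) (nat_lit 0) .nil) .nil)))) (.nd (nat_lit 9) 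
(.lf (nat_lit 542013) (.g (nat_lit 1906) (.e (nat_lit 98334) (nat_lit 18) (.e (nat_lit 164332) (nat_lit 230) (.e (nat_lit 163902) (nat_lit 12) (.e (nat_lit 426479) (nat_lit 27) (.e (nat_lit 336426) (nat_lit 29) (.e (nat_lit 450304) (nat_lit 3) .nil)))))) (.g (nat_lit 1) (.e (nat_lit 273376) (nat_lit 0) .nil) .nil))) 
(.lf (nat_lit 542525) (.g (nat_lit 5220) (.e (nat_lit 98341) (nat_lit 20) (.e (nat_lit 221210) (nat_lit 22) (.e (nat_lit 196670) (nat_lit 14) (.e (nat_lit 73746) (nat_lit 3) (.e (nat_lit 516120) (nat_lit 1) (.e (nat_lit 164182) (nat_lit 154) (.e (nat_lit 57379) (nat_lit 3) .nil))))))) (.g (nat_lit 1) (.e (nat_lit 274054) (nat_lit 0) .nil) .nil))))) (.nd (nat_lit 8) (.nd (nat_lit 9) 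
(.lf (nat_lit 541885) (.g (nat_lit 2353) (.e (nat_lit 98333) (nat_lit 18) (.e (nat_lit 164332) (nat_lit 230) (.e (nat_lit 163902) (nat_lit 12) (.e (nat_lit 426568) (nat_lit 34) (.e (nat_lit 393269) (nat_lit 23) (.e (nat_lit 426436) (nat_lit 18) .nil)))))) (.g (nat_lit 1) (.e (nat_lit 273108) (nat_lit 0) .nil) .nil))) 
(.lf (nat_lit 542397) (.g (nat_lit 1759) (.e (nat_lit 98337) (nat_lit 19) (.e (nat_lit 213032) (nat_lit 11) (.e (nat_lit 24608) (nat_lit 3) (.e (nat_lit 98370) (nat_lit 28) (.e (nat_lit 450304) (nat_lit 3) .nil))))) (.g (nat_lit 0) (.e (nat_lit 273892) (nat_lit 0) .nil) .nil)))) (.nd (nat_lit 9) 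
(.lf (nat_lit 542141) (.g (nat_lit 3706) (.e (nat_lit 98335) (nat_lit 18) (.e (nat_lit 164325) (nat_lit 230) (.e (nat_lit 163875) (nat_lit 3) (.e (nat_lit 204837) (nat_lit 20) (.e (nat_lit 114719) (nat_lit 23) (.e (nat_lit 98356) (nat_lit 26) (.e (nat_lit 426438) (nat_lit 18) .nil))))))) (.g (nat_lit 1) (.e (nat_lit 273565) (nat_lit 0) .nil) .nil))) 
(.lf (nat_lit 542653) (.g (nat_lit 3164) (.e (nat_lit 98342) (nat_lit 20) (.e (nat_lit 221214) (nat_lit 23) (.e (nat_lit 204830) (nat_lit 18) (.e (nat_lit 57926) (nat_lit 282) (.e (nat_lit 163868) (nat_lit 2) (.e (nat_lit 196663) (nat_lit 13) (.e (nat_lit 65569) (nat_lit 3) .nil))))))) (.g (nat_lit 1) (.e (nat_lit 274196) (nat_lit 0) .nil) .nil)))))) 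
(.nd (nat_lit 7) (.nd (nat_lit 8) (.nd (nat_lit 9) 
(.lf (nat_lit 541821) (.g (nat_lit 1524) (.e (nat_lit 98333) (nat_lit 18) (.e (nat_lit 164327) (nat_lit 230) (.e (nat_lit 163875) (nat_lit 3) (.e (nat_lit 204837) (nat_lit 20) .nil)))) (.g (nat_lit 0) (.e (nat_lit 273018) (nat_lit 0) .nil) .nil))) 
(.lf (nat_lit 542333) (.g (nat_lit 1982) (.e (nat_lit 98335) (nat_lit 18) (.e (nat_lit 164332) (nat_lit 230) (.e (nat_lit 163905) (nat_lit 12) (.e (nat_lit 426481) (nat_lit 27) (.e (nat_lit 336388) (nat_lit 27) .nil))))) (.g (nat_lit 0) (.e (nat_lit 273812) (nat_lit 0) .nil) .nil)))) (.nd (nat_lit 9) 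
(.lf (nat_lit 542077) (.g (nat_lit 1686) (.e (nat_lit 98335) (nat_lit 18) (.e (nat_lit 164179) (nat_lit 154) (.e (nat_lit 57409) (nat_lit 12) (.e (nat_lit 336454) (nat_lit 34) .nil)))) (.g (nat_lit 0) (.e (nat_lit 273469) (nat_lit 0) .nil) .nil))) 
(.lf (nat_lit 542589) (.g (nat_lit 2631) (.e (nat_lit 98342) (nat_lit 20) (.e (nat_lit 221210) (nat_lit 22) (.e (nat_lit 196666) (nat_lit 13) (.e (nat_lit 65642) (nat_lit 15) (.e (nat_lit 3253) (nat_lit 197) .nil))))) (.g (nat_lit 0) (.e (nat_lit 274130) (nat_lit 0) .nil) .nil))))) (.nd (nat_lit 8) (.nd (nat_lit 9) 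
(.lf (nat_lit 541949) (.g (nat_lit 2681) (.e (nat_lit 98334) (nat_lit 18) (.e (nat_lit 164322) (nat_lit 230) (.e (nat_lit 163902) (nat_lit 12) (.e (nat_lit 426566) (nat_lit 34) (.e (nat_lit 393268) (nat_lit 23) .nil))))) (.g (nat_lit 0) (.e (nat_lit 273229) (nat_lit 0) .nil) .nil))) 
(.lf (nat_lit 542461) (.g (nat_lit 1572) (.e (nat_lit 98339) (nat_lit 19) (.e (nat_lit 213032) (nat_lit 11) (.e (nat_lit 24609) (nat_lit 3) (.e (nat_lit 98370) (nat_lit 28) (.e (nat_lit 450304) (nat_lit 3) .nil))))) (.g (nat_lit 1) (.e (nat_lit 273982) (nat_lit 0) .nil) .nil)))) (.nd (nat_lit 9) 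
(.lf (nat_lit 542205) (.g (nat_lit 1655) (.e (nat_lit 98335) (nat_lit 18) (.e (nat_lit 164327) (nat_lit 230) (.e (nat_lit 163941) (nat_lit 19) (.e (nat_lit 483339) (nat_lit 9) (.e (nat_lit 426260) (nat_lit 9) (.e (nat_lit 433920) (nat_lit 18) .nil)))))) (.g (nat_lit 1) (.e (nat_lit 273638) (nat_lit 0) .nil) .nil))) 
(.lf (nat_lit 542717) (.g (nat_lit 1943) (.e (nat_lit 98349) (nat_lit 24) (.e (nat_lit 409644) (nat_lit 18) (.e (nat_lit 303119) (nat_lit 3) (.e (nat_lit 204821) (nat_lit 17) (.e (nat_lit 7936) (nat_lit 347) .nil))))) (.g (nat_lit 0) (.e (nat_lit 274349) (nat_lit 0) .nil) .nil))))))))))) 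
(.nd (nat_lit 2) (.nd (nat_lit 3) (.nd (nat_lit 4) (.nd (nat_lit 5) (.nd (nat_lit 6) 
(.nd (nat_lit 7) (.nd (nat_lit 8) (.nd (nat_lit 9) 
(.lf (nat_lit 541699) (.g (nat_lit 1829) (.e (nat_lit 98333) (nat_lit 18) (.e (nat_lit 164182) (nat_lit 154) (.e (nat_lit 57409) (nat_lit 12) (.e (nat_lit 336454) (nat_lit 34) .nil)))) (.g (nat_lit 0) (.e (nat_lit 272813) (nat_lit 0) .nil) .nil))) 
(.lf (nat_lit 542211) (.g (nat_lit 400) (.e (nat_lit 98335) (nat_lit 18) (.e (nat_lit 164327) (nat_lit 230) (.e (nat_lit 163944) (nat_lit 19) .nil))) (.g (nat_lit 0) (.e (nat_lit 273648) (nat_lit 0) .nil) .nil)))) (.nd (nat_lit 9) 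
(.lf (nat_lit 541955) (.g (nat_lit 2133) (.e (nat_lit 98334) (nat_lit 18) (.e (nat_lit 164329) (nat_lit 230) (.e (nat_lit 163902) (nat_lit 12) (.e (nat_lit 426479) (nat_lit 27) (.e (nat_lit 336430) (nat_lit 29) (.e (nat_lit 450304) (nat_lit 3) .nil)))))) (.g (nat_lit 1) (.e (nat_lit 273240) (nat_lit 0) .nil) .nil))) 
(.lf (nat_lit 542467) (.g (nat_lit 1512) (.e (nat_lit 106240) (nat_lit 19) (.e (nat_lit 213032) (nat_lit 11) (.e (nat_lit 24608) (nat_lit 3) (.e (nat_lit 98369) (nat_lit 28) (.e (nat_lit 450304) (nat_lit 3) .nil))))) (.g (nat_lit 0) (.e (nat_lit 273988) (nat_lit 0) .nil) .nil))))) (.nd (nat_lit 8) (.nd (nat_lit 9) 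
(.lf (nat_lit 541827) (.g (nat_lit 2037) (.e (nat_lit 98333) (nat_lit 18) (.e (nat_lit 164327) (nat_lit 230) (.e (nat_lit 163903) (nat_lit 12) (.e (nat_lit 426478) (nat_lit 27) .nil)))) (.g (nat_lit 0) (.e (nat_lit 273024) (nat_lit 0) .nil) .nil))) 
(.lf (nat_lit 542339) (.g (nat_lit 2662) (.e (nat_lit 98335) (nat_lit 18) (.e (nat_lit 164332) (nat_lit 230) (.e (nat_lit 163905) (nat_lit 12) (.e (nat_lit 426496) (nat_lit 27) (.e (nat_lit 336408) (nat_lit 27) .nil))))) (.g (nat_lit 0) (.e (nat_lit 273818) (nat_lit 0) .nil) .nil)))) (.nd (nat_lit 9) 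
(.lf (nat_lit 542083) (.g (nat_lit 2873) (.e (nat_lit 98335) (nat_lit 18) (.e (nat_lit 164183) (nat_lit 154) (.e (nat_lit 57378) (nat_lit 3) (.e (nat_lit 98341) (nat_lit 20) (.e (nat_lit 221212) (nat_lit 22) (.e (nat_lit 196681) (nat_lit 17) (.e (nat_lit 131096) (nat_lit 3) .nil))))))) (.g (nat_lit 1) (.e (nat_lit 273480) (nat_lit 0) .nil) .nil))) 
(.lf (nat_lit 542595) (.g (nat_lit 3627) (.e (nat_lit 98342) (nat_lit 20) (.e (nat_lit 221210) (nat_lit 22) (.e (nat_lit 196668) (nat_lit 14) (.e (nat_lit 73746) (nat_lit 3) (.e (nat_lit 516120) (nat_lit 1) (.e (nat_lit 164181) (nat_lit 154) (.e (nat_lit 57378) (nat_lit 3) .nil))))))) (.g (nat_lit 1) (.e (nat_lit 274136) (nat_lit 0) .nil) .nil)))))) 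
(.nd (nat_lit 7) (.nd (nat_lit 8) (.nd (nat_lit 9) 
(.lf (nat_lit 541763) (.g (nat_lit 3080) (.e (nat_lit 98333) (nat_lit 18) (.e (nat_lit 164325) (nat_lit 230) (.e (nat_lit 163907) (nat_lit 12) (.e (nat_lit 426568) (nat_lit 34) (.e (nat_lit 393234) (nat_lit 17) (.e (nat_lit 7309) (nat_lit 388) (.e (nat_lit 112) (nat_lit 3) .nil))))))) (.g (nat_lit 1) (.e (nat_lit 272918) (nat_lit 0) .nil) .nil))) 
(.lf (nat_lit 542275) (.g (nat_lit 3025) (.e (nat_lit 98335) (nat_lit 18) (.e (nat_lit 164330) (nat_lit 230) (.e (nat_lit 163915) (nat_lit 12) (.e (nat_lit 426133) (nat_lit 3) (.e (nat_lit 204852) (nat_lit 26) (.e (nat_lit 336310) (nat_lit 16) (.e (nat_lit 164183) (nat_lit 154) (.e (nat_lit 57378) (nat_lit 3) .nil)))))))) (.g (nat_lit 1) (.e (nat_lit 273734) (nat_lit 0) .nil) .nil)))) 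
(.nd (nat_lit 9) 
(.lf (nat_lit 542019) (.g (nat_lit 1973) (.e (nat_lit 98334) (nat_lit 18) (.e (nat_lit 164332) (nat_lit 230) (.e (nat_lit 163902) (nat_lit 12) (.e (nat_lit 426566) (nat_lit 34) (.e (nat_lit 393270) (nat_lit 23) (.e (nat_lit 426434) (nat_lit 18) .nil)))))) (.g (nat_lit 1) (.e (nat_lit 273382) (nat_lit 0) .nil) .nil))) 
(.lf (nat_lit 542531) (.g (nat_lit 2993) (.e (nat_lit 98341) (nat_lit 20) (.e (nat_lit 221212) (nat_lit 22) (.e (nat_lit 196668) (nat_lit 14) (.e (nat_lit 73746) (nat_lit 3) (.e (nat_lit 516117) (nat_lit 1) (.e (nat_lit 164183) (nat_lit 154) (.e (nat_lit 57378) (nat_lit 3) .nil))))))) (.g (nat_lit 1) (.e (nat_lit 274060) (nat_lit 0) .nil) .nil))))) (.nd (nat_lit 8) (.nd (nat_lit 9) 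
(.lf (nat_lit 541891) (.g (nat_lit 1978) (.e (nat_lit 98333) (nat_lit 18) (.e (nat_lit 164332) (nat_lit 230) (.e (nat_lit 163905) (nat_lit 12) (.e (nat_lit 426479) (nat_lit 27) (.e (nat_lit 336428) (nat_lit 29) (.e (nat_lit 450304) (nat_lit 3) .nil)))))) (.g (nat_lit 1) (.e (nat_lit 273114) (nat_lit 0) .nil) .nil))) 
(.lf (nat_lit 542403) (.g (nat_lit 1375) (.e (nat_lit 98337) (nat_lit 19) (.e (nat_lit 213032) (nat_lit 11) (.e (nat_lit 24609) (nat_lit 3) (.e (nat_lit 98365) (nat_lit 26) .nil)))) (.g (nat_lit 0) (.e (nat_lit 273899) (nat_lit 0) .nil) .nil)))) (.nd (nat_lit 9) 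
(.lf (nat_lit 542147) (.g (nat_lit 2414) (.e (nat_lit 98335) (nat_lit 18) (.e (nat_lit 164325) (nat_lit 230) (.e (nat_lit 163903) (nat_lit 12) (.e (nat_lit 426479) (nat_lit 27) (.e (nat_lit 336414) (nat_lit 27) (.e (nat_lit 426228) (nat_lit 9) (.e (nat_lit 426435) (nat_lit 18) .nil))))))) (.g (nat_lit 1) (.e (nat_lit 273571) (nat_lit 0) .nil) .nil))) 
(.lf (nat_lit 542659) (.g (nat_lit 1433) (.e (nat_lit 98342) (nat_lit 20) (.e (nat_lit 221214) (nat_lit 23) (.e (nat_lit 204830) (nat_lit 18) (.e (nat_lit 57929) (nat_lit 282) .nil)))) (.g (nat_lit 0) (.e (nat_lit 274202) (nat_lit 0) .nil) .nil))))))) (.nd (nat_lit 6) (.nd (nat_lit 7) (.nd (nat_lit 8) (.nd (nat_lit 9) 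
(.lf (nat_lit 541731) (.g (nat_lit 1707) (.e (nat_lit 98333) (nat_lit 18) (.e (nat_lit 164325) (nat_lit 230) (.e (nat_lit 163903) (nat_lit 12) (.e (nat_lit 426478) (nat_lit 27) .nil)))) (.g (nat_lit 0) (.e (nat_lit 272885) (nat_lit 0) .nil) .nil))) 
(.lf (nat_lit 542243) (.g (nat_lit 4164) (.e (nat_lit 98335) (nat_lit 18) (.e (nat_lit 164330) (nat_lit 230) (.e (nat_lit 163851) (nat_lit 0) (.e (nat_lit 3307) (nat_lit 202) (.e (nat_lit 573489) (nat_lit 14) (.e (nat_lit 73755) (nat_lit 8) (.e (nat_lit 557096) (nat_lit 13) (.e (nat_lit 179968) (nat_lit 18) .nil)))))))) (.g (nat_lit 1) (.e (nat_lit 273690) (nat_lit 0) .nil) .nil)))) 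
(.nd (nat_lit 9) 
(.lf (nat_lit 541987) (.g (nat_lit 2889) (.e (nat_lit 98334) (nat_lit 18) (.e (nat_lit 164330) (nat_lit 230) (.e (nat_lit 163902) (nat_lit 12) (.e (nat_lit 426566) (nat_lit 34) (.e (nat_lit 393272) (nat_lit 23) (.e (nat_lit 426434) (nat_lit 18) .nil)))))) (.g (nat_lit 1) (.e (nat_lit 273301) (nat_lit 0) .nil) .nil))) 
(.lf (nat_lit 542499) (.g (nat_lit 660) (.e (nat_lit 98341) (nat_lit 20) (.e (nat_lit 221194) (nat_lit 11) (.e (nat_lit 336025) (nat_lit 3) .nil))) (.g (nat_lit 0) (.e (nat_lit 274025) (nat_lit 0) .nil) .nil))))) (.nd (nat_lit 8) (.nd (nat_lit 9) 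
(.lf (nat_lit 541859) (.g (nat_lit 1713) (.e (nat_lit 98333) (nat_lit 18) (.e (nat_lit 164327) (nat_lit 230) (.e (nat_lit 163944) (nat_lit 19) (.e (nat_lit 483339) (nat_lit 9) (.e (nat_lit 426232) (nat_lit 9) (.e (nat_lit 426435) (nat_lit 18) .nil)))))) (.g (nat_lit 1) (.e (nat_lit 273066) (nat_lit 0) .nil) .nil))) 
(.lf (nat_lit 542371) (.g (nat_lit 4123) (.e (nat_lit 98335) (nat_lit 18) (.e (nat_lit 164403) (nat_lit 256) (.e (nat_lit 57378) (nat_lit 3) (.e (nat_lit 98367) (nat_lit 27) (.e (nat_lit 434231) (nat_lit 23) (.e (nat_lit 532513) (nat_lit 3) (.e (nat_lit 114718) (nat_lit 23) .nil))))))) (.g (nat_lit 1) (.e (nat_lit 273863) (nat_lit 0) .nil) .nil)))) (.nd (nat_lit 9) 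
(.lf (nat_lit 542115) (.g (nat_lit 2976) (.e (nat_lit 98335) (nat_lit 18) (.e (nat_lit 164322) (nat_lit 230) (.e (nat_lit 163902) (nat_lit 12) (.e (nat_lit 426568) (nat_lit 34) (.e (nat_lit 393268) (nat_lit 23) (.e (nat_lit 426438) (nat_lit 18) .nil)))))) (.g (nat_lit 1) (.e (nat_lit 273528) (nat_lit 0) .nil) .nil))) 
(.lf (nat_lit 542627) (.g (nat_lit 4751) (.e (nat_lit 98342) (nat_lit 20) (.e (nat_lit 221212) (nat_lit 22) (.e (nat_lit 196668) (nat_lit 14) (.e (nat_lit 73747) (nat_lit 3) (.e (nat_lit 516119) (nat_lit 1) (.e (nat_lit 164179) (nat_lit 154) (.e (nat_lit 57377) (nat_lit 3) .nil))))))) (.g (nat_lit 1) (.e (nat_lit 274168) (nat_lit 0) .nil) .nil)))))) 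
(.nd (nat_lit 7) (.nd (nat_lit 8) (.nd (nat_lit 9) 
(.lf (nat_lit 541795) (.g (nat_lit 2677) (.e (nat_lit 98333) (nat_lit 18) (.e (nat_lit 164327) (nat_lit 230) (.e (nat_lit 163868) (nat_lit 2) (.e (nat_lit 196656) (nat_lit 11) (.e (nat_lit 16416) (nat_lit 3) .nil))))) (.g (nat_lit 0) (.e (nat_lit 272983) (nat_lit 0) .nil) .nil))) 
(.lf (nat_lit 542307) (.g (nat_lit 2056) (.e (nat_lit 98335) (nat_lit 18) (.e (nat_lit 164332) (nat_lit 230) (.e (nat_lit 163902) (nat_lit 12) (.e (nat_lit 426478) (nat_lit 27) .nil)))) (.g (nat_lit 0) (.e (nat_lit 273786) (nat_lit 0) .nil) .nil)))) (.nd (nat_lit 9) 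
(.lf (nat_lit 542051) (.g (nat_lit 3697) (.e (nat_lit 98334) (nat_lit 18) (.e (nat_lit 164398) (nat_lit 256) (.e (nat_lit 57588) (nat_lit 73) (.e (nat_lit 426124) (nat_lit 2) (.e (nat_lit 196681) (nat_lit 17) (.e (nat_lit 131086) (nat_lit 1) (.e (nat_lit 57854) (nat_lit 252) (.e (nat_lit 57378) (nat_lit 3) .nil)))))))) (.g (nat_lit 1) (.e (nat_lit 273435) (nat_lit 0) .nil) .nil))) 
(.lf (nat_lit 542563) (.g (nat_lit 1546) (.e (nat_lit 98341) (nat_lit 20) (.e (nat_lit 221215) (nat_lit 23) (.e (nat_lit 204831) (nat_lit 18) (.e (nat_lit 57931) (nat_lit 282) .nil)))) (.g (nat_lit 0) (.e (nat_lit 274095) (nat_lit 0) .nil) .nil))))) (.nd (nat_lit 8) (.nd (nat_lit 9) 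
(.lf (nat_lit 541923) (.g (nat_lit 4248) (.e (nat_lit 98333) (nat_lit 18) (.e (nat_lit 164403) (nat_lit 256) (.e (nat_lit 57588) (nat_lit 73) (.e (nat_lit 426124) (nat_lit 2) (.e (nat_lit 196681) (nat_lit 17) (.e (nat_lit 131086) (nat_lit 1) (.e (nat_lit 57854) (nat_lit 252) (.e (nat_lit 57378) (nat_lit 3) .nil)))))))) (.g (nat_lit 1) (.e (nat_lit 273160) (nat_lit 0) .nil) .nil))) 
(.lf (nat_lit 542435) (.g (nat_lit 1353) (.e (nat_lit 98339) (nat_lit 19) (.e (nat_lit 213030) (nat_lit 11) (.e (nat_lit 24605) (nat_lit 2) (.e (nat_lit 90178) (nat_lit 15) (.e (nat_lit 196352) (nat_lit 3) .nil))))) (.g (nat_lit 1) (.e (nat_lit 273953) (nat_lit 0) .nil) .nil)))) (.nd (nat_lit 9) 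
(.lf (nat_lit 542179) (.g (nat_lit 3321) (.e (nat_lit 98335) (nat_lit 18) (.e (nat_lit 164327) (nat_lit 230) (.e (nat_lit 163873) (nat_lit 3) (.e (nat_lit 204813) (nat_lit 9) (.e (nat_lit 426139) (nat_lit 3) .nil))))) (.g (nat_lit 0) (.e (nat_lit 273611) (nat_lit 0) .nil) .nil))) 
(.lf (nat_lit 542691) (.g (nat_lit 4089) (.e (nat_lit 98342) (nat_lit 20) (.e (nat_lit 221215) (nat_lit 23) (.e (nat_lit 204831) (nat_lit 18) (.e (nat_lit 57931) (nat_lit 282) (.e (nat_lit 163874) (nat_lit 3) (.e (nat_lit 204851) (nat_lit 26) (.e (nat_lit 336019) (nat_lit 3) .nil))))))) (.g (nat_lit 1) (.e (nat_lit 274237) (nat_lit 0) .nil) .nil)))))))) 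
(.nd (nat_lit 5) (.nd (nat_lit 6) (.nd (nat_lit 7) (.nd (nat_lit 8) (.nd (nat_lit 9) 
(.lf (nat_lit 541715) (.g (nat_lit 3380) (.e (nat_lit 98333) (nat_lit 18) (.e (nat_lit 164325) (nat_lit 230) (.e (nat_lit 163869) (nat_lit 2) (.e (nat_lit 196656) (nat_lit 11) (.e (nat_lit 16416) (nat_lit 3) (.e (nat_lit 204837) (nat_lit 20) (.e (nat_lit 114718) (nat_lit 23) .nil))))))) (.g (nat_lit 1) (.e (nat_lit 272860) (nat_lit 0) .nil) .nil))) 
(.lf (nat_lit 542227) (.g (nat_lit 2463) (.e (nat_lit 98335) (nat_lit 18) (.e (nat_lit 164329) (nat_lit 230) (.e (nat_lit 163902) (nat_lit 12) (.e (nat_lit 426568) (nat_lit 34) (.e (nat_lit 393279) (nat_lit 23) (.e (nat_lit 426433) (nat_lit 18) .nil)))))) (.g (nat_lit 1) (.e (nat_lit 273666) (nat_lit 0) .nil) .nil)))) (.nd (nat_lit 9) 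
(.lf (nat_lit 541971) (.g (nat_lit 4507) (.e (nat_lit 98334) (nat_lit 18) (.e (nat_lit 164330) (nat_lit 230) (.e (nat_lit 163867) (nat_lit 2) (.e (nat_lit 196656) (nat_lit 11) (.e (nat_lit 16416) (nat_lit 3) (.e (nat_lit 204838) (nat_lit 20) (.e (nat_lit 114719) (nat_lit 23) .nil))))))) (.g (nat_lit 1) (.e (nat_lit 273271) (nat_lit 0) .nil) .nil))) 
(.lf (nat_lit 542483) (.g (nat_lit 3581) (.e (nat_lit 98340) (nat_lit 20) (.e (nat_lit 221212) (nat_lit 22) (.e (nat_lit 196681) (nat_lit 17) (.e (nat_lit 131096) (nat_lit 3) (.e (nat_lit 98334) (nat_lit 18) (.e (nat_lit 164182) (nat_lit 154) (.e (nat_lit 57379) (nat_lit 3) .nil))))))) (.g (nat_lit 1) (.e (nat_lit 274004) (nat_lit 0) .nil) .nil))))) (.nd (nat_lit 8) (.nd (nat_lit 9) 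
(.lf (nat_lit 541843) (.g (nat_lit 2986) (.e (nat_lit 98333) (nat_lit 18) (.e (nat_lit 164327) (nat_lit 230) (.e (nat_lit 163903) (nat_lit 12) (.e (nat_lit 426568) (nat_lit 34) (.e (nat_lit 393267) (nat_lit 23) (.e (nat_lit 426436) (nat_lit 18) .nil)))))) (.g (nat_lit 1) (.e (nat_lit 273041) (nat_lit 0) .nil) .nil))) 
(.lf (nat_lit 542355) (.g (nat_lit 2187) (.e (nat_lit 98335) (nat_lit 18) (.e (nat_lit 164332) (nat_lit 230) (.e (nat_lit 163941) (nat_lit 19) (.e (nat_lit 483333) (nat_lit 0) .nil)))) (.g (nat_lit 0) (.e (nat_lit 273837) (nat_lit 0) .nil) .nil)))) (.nd (nat_lit 9) 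
(.lf (nat_lit 542099) (.g (nat_lit 4462) (.e (nat_lit 98335) (nat_lit 18) (.e (nat_lit 164305) (nat_lit 226) (.e (nat_lit 2612) (nat_lit 163) (.e (nat_lit 163977) (nat_lit 30) (.e (nat_lit 573489) (nat_lit 14) (.e (nat_lit 73755) (nat_lit 8) (.e (nat_lit 557097) (nat_lit 13) (.e (nat_lit 179968) (nat_lit 18) .nil)))))))) (.g (nat_lit 1) (.e (nat_lit 273509) (nat_lit 0) .nil) .nil))) 
(.lf (nat_lit 542611) (.g (nat_lit 5104) (.e (nat_lit 98342) (nat_lit 20) (.e (nat_lit 221210) (nat_lit 22) (.e (nat_lit 196670) (nat_lit 14) (.e (nat_lit 73746) (nat_lit 3) (.e (nat_lit 516120) (nat_lit 1) (.e (nat_lit 164182) (nat_lit 154) (.e (nat_lit 57379) (nat_lit 3) .nil))))))) (.g (nat_lit 1) (.e (nat_lit 274152) (nat_lit 0) .nil) .nil)))))) 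
(.nd (nat_lit 7) (.nd (nat_lit 8) (.nd (nat_lit 9) 
(.lf (nat_lit 541779) (.g (nat_lit 2700) (.e (nat_lit 98333) (nat_lit 18) (.e (nat_lit 164325) (nat_lit 230) (.e (nat_lit 163941) (nat_lit 19) (.e (nat_lit 483341) (nat_lit 9) (.e (nat_lit 433920) (nat_lit 9) (.e (nat_lit 426435) (nat_lit 18) .nil)))))) (.g (nat_lit 1) (.e (nat_lit 272945) (nat_lit 0) .nil) .nil))) 
(.lf (nat_lit 542291) (.g (nat_lit 1397) (.e (nat_lit 98335) (nat_lit 18) (.e (nat_lit 164331) (nat_lit 230) (.e (nat_lit 163902) (nat_lit 12) (.e (nat_lit 426479) (nat_lit 27) .nil)))) (.g (nat_lit 0) (.e (nat_lit 273755) (nat_lit 0) .nil) .nil)))) (.nd (nat_lit 9) 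
(.lf (nat_lit 542035) (.g (nat_lit 2398) (.e (nat_lit 98334) (nat_lit 18) (.e (nat_lit 164332) (nat_lit 230) (.e (nat_lit 163905) (nat_lit 12) (.e (nat_lit 426568) (nat_lit 34) (.e (nat_lit 393267) (nat_lit 23) (.e (nat_lit 426434) (nat_lit 18) .nil)))))) (.g (nat_lit 1) (.e (nat_lit 273399) (nat_lit 0) .nil) .nil))) 
(.lf (nat_lit 542547) (.g (nat_lit 2170) (.e (nat_lit 98341) (nat_lit 20) (.e (nat_lit 221212) (nat_lit 22) (.e (nat_lit 196681) (nat_lit 17) (.e (nat_lit 131097) (nat_lit 3) .nil)))) (.g (nat_lit 0) (.e (nat_lit 274076) (nat_lit 0) .nil) .nil))))) (.nd (nat_lit 8) (.nd (nat_lit 9) 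
(.lf (nat_lit 541907) (.g (nat_lit 548) (.e (nat_lit 98333) (nat_lit 18) (.e (nat_lit 164399) (nat_lit 256) (.e (nat_lit 57369) (nat_lit 2) .nil))) (.g (nat_lit 0) (.e (nat_lit 273139) (nat_lit 0) .nil) .nil))) 
(.lf (nat_lit 542419) (.g (nat_lit 2109) (.e (nat_lit 98338) (nat_lit 19) (.e (nat_lit 213032) (nat_lit 11) (.e (nat_lit 24608) (nat_lit 3) (.e (nat_lit 98363) (nat_lit 26) (.e (nat_lit 426230) (nat_lit 9) (.e (nat_lit 426435) (nat_lit 18) .nil)))))) (.g (nat_lit 1) (.e (nat_lit 273919) (nat_lit 0) .nil) .nil)))) (.nd (nat_lit 9) 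
(.lf (nat_lit 542163) (.g (nat_lit 823) (.e (nat_lit 98335) (nat_lit 18) (.e (nat_lit 164326) (nat_lit 230) (.e (nat_lit 163903) (nat_lit 12) (.e (nat_lit 426479) (nat_lit 27) .nil)))) (.g (nat_lit 0) (.e (nat_lit 273592) (nat_lit 0) .nil) .nil))) 
(.lf (nat_lit 542675) (.g (nat_lit 3575) (.e (nat_lit 98342) (nat_lit 20) (.e (nat_lit 221215) (nat_lit 23) (.e (nat_lit 204829) (nat_lit 18) (.e (nat_lit 57927) (nat_lit 282) (.e (nat_lit 163874) (nat_lit 3) (.e (nat_lit 204853) (nat_lit 26) (.e (nat_lit 336019) (nat_lit 3) .nil))))))) (.g (nat_lit 1) (.e (nat_lit 274218) (nat_lit 0) .nil) .nil))))))) 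
(.nd (nat_lit 6) (.nd (nat_lit 7) (.nd (nat_lit 8) (.nd (nat_lit 9) 
(.lf (nat_lit 541747) (.g (nat_lit 2589) (.e (nat_lit 98333) (nat_lit 18) (.e (nat_lit 164325) (nat_lit 230) (.e (nat_lit 163905) (nat_lit 12) (.e (nat_lit 426566) (nat_lit 34) (.e (nat_lit 393272) (nat_lit 23) (.e (nat_lit 426434) (nat_lit 18) .nil)))))) (.g (nat_lit 1) (.e (nat_lit 272901) (nat_lit 0) .nil) .nil))) 
(.lf (nat_lit 542259) (.g (nat_lit 2714) (.e (nat_lit 98335) (nat_lit 18) (.e (nat_lit 164330) (nat_lit 230) (.e (nat_lit 163902) (nat_lit 12) (.e (nat_lit 426479) (nat_lit 27) (.e (nat_lit 336443) (nat_lit 32) (.e (nat_lit 474880) (nat_lit 3) .nil)))))) (.g (nat_lit 1) (.e (nat_lit 273713) (nat_lit 0) .nil) .nil)))) (.nd (nat_lit 9) 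
(.lf (nat_lit 542003) (.g (nat_lit 2479) (.e (nat_lit 98334) (nat_lit 18) (.e (nat_lit 164331) (nat_lit 230) (.e (nat_lit 163902) (nat_lit 12) (.e (nat_lit 426566) (nat_lit 34) (.e (nat_lit 393273) (nat_lit 23) .nil))))) (.g (nat_lit 0) (.e (nat_lit 273343) (nat_lit 0) .nil) .nil))) 
(.lf (nat_lit 542515) (.g (nat_lit 4529) (.e (nat_lit 98341) (nat_lit 20) (.e (nat_lit 221210) (nat_lit 22) (.e (nat_lit 196668) (nat_lit 14) (.e (nat_lit 73747) (nat_lit 3) (.e (nat_lit 516117) (nat_lit 1) (.e (nat_lit 164182) (nat_lit 154) (.e (nat_lit 57379) (nat_lit 3) .nil))))))) (.g (nat_lit 1) (.e (nat_lit 274044) (nat_lit 0) .nil) .nil))))) (.nd (nat_lit 8) (.nd (nat_lit 9) 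
(.lf (nat_lit 541875) (.g (nat_lit 2173) (.e (nat_lit 98333) (nat_lit 18) (.e (nat_lit 164332) (nat_lit 230) (.e (nat_lit 163902) (nat_lit 12) (.e (nat_lit 426479) (nat_lit 27) (.e (nat_lit 336426) (nat_lit 29) (.e (nat_lit 450304) (nat_lit 3) .nil)))))) (.g (nat_lit 1) (.e (nat_lit 273098) (nat_lit 0) .nil) .nil))) 
(.lf (nat_lit 542387) (.g (nat_lit 564) (.e (nat_lit 98337) (nat_lit 19) (.e (nat_lit 213030) (nat_lit 11) (.e (nat_lit 24608) (nat_lit 3) .nil))) (.g (nat_lit 0) (.e (nat_lit 273882) (nat_lit 0) .nil) .nil)))) (.nd (nat_lit 9) 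
(.lf (nat_lit 542131) (.g (nat_lit 2526) (.e (nat_lit 98335) (nat_lit 18) (.e (nat_lit 164324) (nat_lit 230) (.e (nat_lit 163905) (nat_lit 12) (.e (nat_lit 426566) (nat_lit 34) (.e (nat_lit 393270) (nat_lit 23) (.e (nat_lit 426438) (nat_lit 18) .nil)))))) (.g (nat_lit 1) (.e (nat_lit 273545) (nat_lit 0) .nil) .nil))) 
(.lf (nat_lit 542643) (.g (nat_lit 1137) (.e (nat_lit 98342) (nat_lit 20) (.e (nat_lit 221214) (nat_lit 23) (.e (nat_lit 204829) (nat_lit 18) (.e (nat_lit 57927) (nat_lit 282) .nil)))) (.g (nat_lit 0) (.e (nat_lit 274184) (nat_lit 0) .nil) .nil)))))) (.nd (nat_lit 7) (.nd (nat_lit 8) (.nd (nat_lit 9) 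
(.lf (nat_lit 541811) (.g (nat_lit 1968) (.e (nat_lit 98333) (nat_lit 18) (.e (nat_lit 164327) (nat_lit 230) (.e (nat_lit 163873) (nat_lit 3) (.e (nat_lit 204809) (nat_lit 9) (.e (nat_lit 426139) (nat_lit 3) .nil))))) (.g (nat_lit 0) (.e (nat_lit 273001) (nat_lit 0) .nil) .nil))) 
(.lf (nat_lit 542323) (.g (nat_lit 2210) (.e (nat_lit 98335) (nat_lit 18) (.e (nat_lit 164332) (nat_lit 230) (.e (nat_lit 163905) (nat_lit 12) (.e (nat_lit 426479) (nat_lit 27) (.e (nat_lit 336414) (nat_lit 27) (.e (nat_lit 426228) (nat_lit 9) (.e (nat_lit 426435) (nat_lit 18) .nil))))))) (.g (nat_lit 1) (.e (nat_lit 273802) (nat_lit 0) .nil) .nil)))) (.nd (nat_lit 9) 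
(.lf (nat_lit 542067) (.g (nat_lit 2981) (.e (nat_lit 98334) (nat_lit 18) (.e (nat_lit 164403) (nat_lit 256) (.e (nat_lit 57378) (nat_lit 3) (.e (nat_lit 98367) (nat_lit 27) (.e (nat_lit 434232) (nat_lit 23) .nil))))) (.g (nat_lit 0) (.e (nat_lit 273453) (nat_lit 0) .nil) .nil))) 
(.lf (nat_lit 542579) (.g (nat_lit 1876) (.e (nat_lit 98341) (nat_lit 20) (.e (nat_lit 221215) (nat_lit 23) (.e (nat_lit 204880) (nat_lit 32) (.e (nat_lit 385066) (nat_lit 26) (.e (nat_lit 532502) (nat_lit 1) .nil))))) (.g (nat_lit 0) (.e (nat_lit 274111) (nat_lit 0) .nil) .nil))))) (.nd (nat_lit 8) (.nd (nat_lit 9) 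
(.lf (nat_lit 541939) (.g (nat_lit 5050) (.e (nat_lit 98334) (nat_lit 18) (.e (nat_lit 164305) (nat_lit 226) (.e (nat_lit 2612) (nat_lit 163) (.e (nat_lit 163978) (nat_lit 30) (.e (nat_lit 573487) (nat_lit 14) (.e (nat_lit 73753) (nat_lit 8) (.e (nat_lit 557096) (nat_lit 13) (.e (nat_lit 179968) (nat_lit 18) .nil)))))))) (.g (nat_lit 1) (.e (nat_lit 273216) (nat_lit 0) .nil) .nil))) 
(.lf (nat_lit 542451) (.g (nat_lit 1727) (.e (nat_lit 98339) (nat_lit 19) (.e (nat_lit 213032) (nat_lit 11) (.e (nat_lit 24608) (nat_lit 3) (.e (nat_lit 98354) (nat_lit 26) (.e (nat_lit 426201) (nat_lit 9) .nil))))) (.g (nat_lit 0) (.e (nat_lit 273972) (nat_lit 0) .nil) .nil)))) (.nd (nat_lit 9) 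
(.lf (nat_lit 542195) (.g (nat_lit 2436) (.e (nat_lit 98335) (nat_lit 18) (.e (nat_lit 164327) (nat_lit 230) (.e (nat_lit 163903) (nat_lit 12) (.e (nat_lit 426479) (nat_lit 27) (.e (nat_lit 336443) (nat_lit 32) (.e (nat_lit 474880) (nat_lit 3) .nil)))))) (.g (nat_lit 1) (.e (nat_lit 273628) (nat_lit 0) .nil) .nil))) 
(.lf (nat_lit 542707) (.g (nat_lit 3199) (.e (nat_lit 98342) (nat_lit 20) (.e (nat_lit 221215) (nat_lit 23) (.e (nat_lit 204863) (nat_lit 27) (.e (nat_lit 344117) (nat_lit 21) (.e (nat_lit 516099) (nat_lit 0) (.e (nat_lit 2474) (nat_lit 157) (.e (nat_lit 6399) (nat_lit 339) (.e (nat_lit 57379) (nat_lit 3) .nil)))))))) (.g (nat_lit 1) (.e (nat_lit 274253) (nat_lit 0) .nil) .nil))))))))) 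
(.nd (nat_lit 4) (.nd (nat_lit 5) (.nd (nat_lit 6) (.nd (nat_lit 7) (.nd (nat_lit 8) 
(.nd (nat_lit 9) 
(.lf (nat_lit 541707) (.g (nat_lit 4021) (.e (nat_lit 98333) (nat_lit 18) (.e (nat_lit 164183) (nat_lit 154) (.e (nat_lit 57379) (nat_lit 3) (.e (nat_lit 98342) (nat_lit 20) (.e (nat_lit 221212) (nat_lit 22) (.e (nat_lit 196681) (nat_lit 17) (.e (nat_lit 131098) (nat_lit 3) .nil))))))) (.g (nat_lit 1) (.e (nat_lit 272839) (nat_lit 0) .nil) .nil))) 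
(.lf (nat_lit 542219) (.g (nat_lit 1188) (.e (nat_lit 98335) (nat_lit 18) (.e (nat_lit 164327) (nat_lit 230) (.e (nat_lit 163944) (nat_lit 19) (.e (nat_lit 483346) (nat_lit 17) .nil)))) (.g (nat_lit 0) (.e (nat_lit 273657) (nat_lit 0) .nil) .nil)))) (.nd (nat_lit 9) 
(.lf (nat_lit 541963) (.g (nat_lit 2926) (.e (nat_lit 98334) (nat_lit 18) (.e (nat_lit 164330) (nat_lit 230) (.e (nat_lit 163841) (nat_lit 0) (.e (nat_lit 3309) (nat_lit 202) (.e (nat_lit 573489) (nat_lit 14) (.e (nat_lit 73755) (nat_lit 8) (.e (nat_lit 557097) (nat_lit 13) (.e (nat_lit 179968) (nat_lit 18) .nil)))))))) (.g (nat_lit 1) (.e (nat_lit 273251) (nat_lit 0) .nil) .nil))) 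
(.lf (nat_lit 542475) (.g (nat_lit 2536) (.e (nat_lit 98340) (nat_lit 20) (.e (nat_lit 221210) (nat_lit 22) (.e (nat_lit 196666) (nat_lit 13) (.e (nat_lit 65571) (nat_lit 3) (.e (nat_lit 98333) (nat_lit 18) (.e (nat_lit 164183) (nat_lit 154) (.e (nat_lit 57378) (nat_lit 3) .nil))))))) (.g (nat_lit 1) (.e (nat_lit 273996) (nat_lit 0) .nil) .nil))))) (.nd (nat_lit 8) (.nd (nat_lit 9) 
(.lf (nat_lit 541835) (.g (nat_lit 1949) (.e (nat_lit 98333) (nat_lit 18) (.e (nat_lit 164327) (nat_lit 230) (.e (nat_lit 163903) (nat_lit 12) (.e (nat_lit 426481) (nat_lit 27) .nil)))) (.g (nat_lit 0) (.e (nat_lit 273033) (nat_lit 0) .nil) .nil))) 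
(.lf (nat_lit 542347) (.g (nat_lit 2787) (.e (nat_lit 98335) (nat_lit 18) (.e (nat_lit 164332) (nat_lit 230) (.e (nat_lit 163905) (nat_lit 12) (.e (nat_lit 426507) (nat_lit 27) (.e (nat_lit 336408) (nat_lit 27) .nil))))) (.g (nat_lit 0) (.e (nat_lit 273826) (nat_lit 0) .nil) .nil)))) (.nd (nat_lit 9) 
(.lf (nat_lit 542091) (.g (nat_lit 3260) (.e (nat_lit 98335) (nat_lit 18) (.e (nat_lit 164183) (nat_lit 154) (.e (nat_lit 57379) (nat_lit 3) (.e (nat_lit 98341) (nat_lit 20) (.e (nat_lit 221215) (nat_lit 23) (.e (nat_lit 204861) (nat_lit 26) (.e (nat_lit 336025) (nat_lit 3) .nil))))))) (.g (nat_lit 1) (.e (nat_lit 273488) (nat_lit 0) .nil) .nil))) 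
(.lf (nat_lit 542603) (.g (nat_lit 2075) (.e (nat_lit 98342) (nat_lit 20) (.e (nat_lit 221210) (nat_lit 22) (.e (nat_lit 196668) (nat_lit 14) (.e (nat_lit 73747) (nat_lit 3) (.e (nat_lit 516118) (nat_lit 1) .nil))))) (.g (nat_lit 0) (.e (nat_lit 274144) (nat_lit 0) .nil) .nil)))))) (.nd (nat_lit 7) (.nd (nat_lit 8) (.nd (nat_lit 9) 
(.lf (nat_lit 541771) (.g (nat_lit 374) (.e (nat_lit 98333) (nat_lit 18) (.e (nat_lit 164325) (nat_lit 230) (.e (nat_lit 163941) (nat_lit 19) .nil))) (.g (nat_lit 0) (.e (nat_lit 272927) (nat_lit 0) .nil) .nil))) 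
(.lf (nat_lit 542283) (.g (nat_lit 2333) (.e (nat_lit 98335) (nat_lit 18) (.e (nat_lit 164330) (nat_lit 230) (.e (nat_lit 163941) (nat_lit 19) (.e (nat_lit 483340) (nat_lit 9) (.e (nat_lit 426188) (nat_lit 9) .nil))))) (.g (nat_lit 0) (.e (nat_lit 273744) (nat_lit 0) .nil) .nil)))) (.nd (nat_lit 9) 
(.lf (nat_lit 542027) (.g (nat_lit 1749) (.e (nat_lit 98334) (nat_lit 18) (.e (nat_lit 164332) (nat_lit 230) (.e (nat_lit 163905) (nat_lit 12) (.e (nat_lit 426479) (nat_lit 27) (.e (nat_lit 336428) (nat_lit 29) (.e (nat_lit 450304) (nat_lit 3) .nil)))))) (.g (nat_lit 1) (.e (nat_lit 273390) (nat_lit 0) .nil) .nil))) 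
(.lf (nat_lit 542539) (.g (nat_lit 598) (.e (nat_lit 98341) (nat_lit 20) (.e (nat_lit 221212) (nat_lit 22) (.e (nat_lit 196669) (nat_lit 14) .nil))) (.g (nat_lit 0) (.e (nat_lit 274068) (nat_lit 0) .nil) .nil))))) (.nd (nat_lit 8) (.nd (nat_lit 9) 
(.lf (nat_lit 541899) (.g (nat_lit 1460) (.e (nat_lit 98333) (nat_lit 18) (.e (nat_lit 164398) (nat_lit 256) (.e (nat_lit 57372) (nat_lit 2) (.e (nat_lit 90167) (nat_lit 13) .nil)))) (.g (nat_lit 0) (.e (nat_lit 273131) (nat_lit 0) .nil) .nil))) 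
(.lf (nat_lit 542411) (.g (nat_lit 1018) (.e (nat_lit 98338) (nat_lit 19) (.e (nat_lit 213030) (nat_lit 11) (.e (nat_lit 24609) (nat_lit 3) (.e (nat_lit 98365) (nat_lit 26) (.e (nat_lit 426187) (nat_lit 9) .nil))))) (.g (nat_lit 0) (.e (nat_lit 273910) (nat_lit 0) .nil) .nil)))) (.nd (nat_lit 9) 
(.lf (nat_lit 542155) (.g (nat_lit 368) (.e (nat_lit 98335) (nat_lit 18) (.e (nat_lit 164325) (nat_lit 230) (.e (nat_lit 163941) (nat_lit 19) .nil))) (.g (nat_lit 0) (.e (nat_lit 273579) (nat_lit 0) .nil) .nil))) 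
(.lf (nat_lit 542667) (.g (nat_lit 3364) (.e (nat_lit 98342) (nat_lit 20) (.e (nat_lit 221214) (nat_lit 23) (.e (nat_lit 204861) (nat_lit 26) (.e (nat_lit 336027) (nat_lit 3) (.e (nat_lit 98333) (nat_lit 18) (.e (nat_lit 164183) (nat_lit 154) (.e (nat_lit 57378) (nat_lit 3) .nil))))))) (.g (nat_lit 1) (.e (nat_lit 274210) (nat_lit 0) .nil) .nil))))))) 
(.nd (nat_lit 6) (.nd (nat_lit 7) (.nd (nat_lit 8) (.nd (nat_lit 9) 
(.lf (nat_lit 541739) (.g (nat_lit 3921) (.e (nat_lit 98333) (nat_lit 18) (.e (nat_lit 164325) (nat_lit 230) (.e (nat_lit 163903) (nat_lit 12) (.e (nat_lit 426566) (nat_lit 34) (.e (nat_lit 393268) (nat_lit 23) (.e (nat_lit 426438) (nat_lit 18) .nil)))))) (.g (nat_lit 1) (.e (nat_lit 272893) (nat_lit 0) .nil) .nil))) 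
(.lf (nat_lit 542251) (.g (nat_lit 1607) (.e (nat_lit 98335) (nat_lit 18) (.e (nat_lit 164330) (nat_lit 230) (.e (nat_lit 163867) (nat_lit 2) (.e (nat_lit 196624) (nat_lit 9) .nil)))) (.g (nat_lit 0) (.e (nat_lit 273701) (nat_lit 0) .nil) .nil)))) (.nd (nat_lit 9) 
(.lf (nat_lit 541995) (.g (nat_lit 1785) (.e (nat_lit 98334) (nat_lit 18) (.e (nat_lit 164330) (nat_lit 230) (.e (nat_lit 163905) (nat_lit 12) (.e (nat_lit 426505) (nat_lit 27) (.e (nat_lit 336408) (nat_lit 27) .nil))))) (.g (nat_lit 0) (.e (nat_lit 273309) (nat_lit 0) .nil) .nil))) 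
(.lf (nat_lit 542507) (.g (nat_lit 2916) (.e (nat_lit 98341) (nat_lit 20) (.e (nat_lit 221210) (nat_lit 22) (.e (nat_lit 196666) (nat_lit 13) (.e (nat_lit 65571) (nat_lit 3) (.e (nat_lit 98335) (nat_lit 18) .nil))))) (.g (nat_lit 0) (.e (nat_lit 274036) (nat_lit 0) .nil) .nil))))) (.nd (nat_lit 8) (.nd (nat_lit 9) 
(.lf (nat_lit 541867) (.g (nat_lit 1326) (.e (nat_lit 98333) (nat_lit 18) (.e (nat_lit 164330) (nat_lit 230) (.e (nat_lit 163941) (nat_lit 19) (.e (nat_lit 491264) (nat_lit 11) .nil)))) (.g (nat_lit 0) (.e (nat_lit 273081) (nat_lit 0) .nil) .nil))) 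
(.lf (nat_lit 542379) (.g (nat_lit 2143) (.e (nat_lit 98336) (nat_lit 19) (.e (nat_lit 213032) (nat_lit 11) (.e (nat_lit 24604) (nat_lit 2) (.e (nat_lit 90185) (nat_lit 17) (.e (nat_lit 237601) (nat_lit 9) .nil))))) (.g (nat_lit 0) (.e (nat_lit 273874) (nat_lit 0) .nil) .nil)))) (.nd (nat_lit 9) 
(.lf (nat_lit 542123) (.g (nat_lit 797) (.e (nat_lit 98335) (nat_lit 18) (.e (nat_lit 164324) (nat_lit 230) (.e (nat_lit 163903) (nat_lit 12) (.e (nat_lit 426479) (nat_lit 27) .nil)))) (.g (nat_lit 0) (.e (nat_lit 273536) (nat_lit 0) .nil) .nil))) 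
(.lf (nat_lit 542635) (.g (nat_lit 1863) (.e (nat_lit 98342) (nat_lit 20) (.e (nat_lit 221212) (nat_lit 22) (.e (nat_lit 196681) (nat_lit 17) (.e (nat_lit 131095) (nat_lit 3) .nil)))) (.g (nat_lit 0) (.e (nat_lit 274176) (nat_lit 0) .nil) .nil)))))) (.nd (nat_lit 7) (.nd (nat_lit 8) (.nd (nat_lit 9) 
(.lf (nat_lit 541803) (.g (nat_lit 3159) (.e (nat_lit 98333) (nat_lit 18) (.e (nat_lit 164327) (nat_lit 230) (.e (nat_lit 163871) (nat_lit 2) (.e (nat_lit 196656) (nat_lit 11) (.e (nat_lit 16416) (nat_lit 3) .nil))))) (.g (nat_lit 0) (.e (nat_lit 272993) (nat_lit 0) .nil) .nil))) 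
(.lf (nat_lit 542315) (.g (nat_lit 2098) (.e (nat_lit 98335) (nat_lit 18) (.e (nat_lit 164332) (nat_lit 230) (.e (nat_lit 163902) (nat_lit 12) (.e (nat_lit 426482) (nat_lit 27) .nil)))) (.g (nat_lit 0) (.e (nat_lit 273794) (nat_lit 0) .nil) .nil)))) (.nd (nat_lit 9) 
(.lf (nat_lit 542059) (.g (nat_lit 3563) (.e (nat_lit 98334) (nat_lit 18) (.e (nat_lit 164401) (nat_lit 256) (.e (nat_lit 57378) (nat_lit 3) (.e (nat_lit 98366) (nat_lit 27) (.e (nat_lit 434231) (nat_lit 23) (.e (nat_lit 532514) (nat_lit 3) (.e (nat_lit 114717) (nat_lit 23) .nil))))))) (.g (nat_lit 1) (.e (nat_lit 273444) (nat_lit 0) .nil) .nil))) 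
(.lf (nat_lit 542571) (.g (nat_lit 3335) (.e (nat_lit 98341) (nat_lit 20) (.e (nat_lit 221215) (nat_lit 23) (.e (nat_lit 204861) (nat_lit 26) (.e (nat_lit 336025) (nat_lit 3) (.e (nat_lit 98335) (nat_lit 18) (.e (nat_lit 164183) (nat_lit 154) (.e (nat_lit 57378) (nat_lit 3) .nil))))))) (.g (nat_lit 1) (.e (nat_lit 274103) (nat_lit 0) .nil) .nil))))) (.nd (nat_lit 8) (.nd (nat_lit 9) 
(.lf (nat_lit 541931) (.g (nat_lit 1835) (.e (nat_lit 98334) (nat_lit 18) (.e (nat_lit 164182) (nat_lit 154) (.e (nat_lit 57409) (nat_lit 12) (.e (nat_lit 336454) (nat_lit 34) .nil)))) (.g (nat_lit 0) (.e (nat_lit 273181) (nat_lit 0) .nil) .nil))) 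
(.lf (nat_lit 542443) (.g (nat_lit 1187) (.e (nat_lit 98339) (nat_lit 19) (.e (nat_lit 213030) (nat_lit 11) (.e (nat_lit 24609) (nat_lit 3) (.e (nat_lit 98381) (nat_lit 31) (.e (nat_lit 474880) (nat_lit 3) .nil))))) (.g (nat_lit 1) (.e (nat_lit 273961) (nat_lit 0) .nil) .nil)))) (.nd (nat_lit 9) 
(.lf (nat_lit 542187) (.g (nat_lit 2359) (.e (nat_lit 98335) (nat_lit 18) (.e (nat_lit 164327) (nat_lit 230) (.e (nat_lit 163903) (nat_lit 12) (.e (nat_lit 426478) (nat_lit 27) (.e (nat_lit 336426) (nat_lit 29) (.e (nat_lit 450304) (nat_lit 3) .nil)))))) (.g (nat_lit 1) (.e (nat_lit 273620) (nat_lit 0) .nil) .nil))) 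
(.lf (nat_lit 542699) (.g (nat_lit 3574) (.e (nat_lit 98342) (nat_lit 20) (.e (nat_lit 221215) (nat_lit 23) (.e (nat_lit 204861) (nat_lit 26) (.e (nat_lit 336021) (nat_lit 3) (.e (nat_lit 98335) (nat_lit 18) (.e (nat_lit 164183) (nat_lit 154) (.e (nat_lit 57379) (nat_lit 3) .nil))))))) (.g (nat_lit 1) (.e (nat_lit 274245) (nat_lit 0) .nil) .nil)))))))) 
(.nd (nat_lit 5) (.nd (nat_lit 6) (.nd (nat_lit 7) (.nd (nat_lit 8) (.nd (nat_lit 9) 
(.lf (nat_lit 541723) (.g (nat_lit 4453) (.e (nat_lit 98333) (nat_lit 18) (.e (nat_lit 164325) (nat_lit 230) (.e (nat_lit 163873) (nat_lit 3) (.e (nat_lit 204813) (nat_lit 9) (.e (nat_lit 426138) (nat_lit 3) .nil))))) (.g (nat_lit 0) (.e (nat_lit 272871) (nat_lit 0) .nil) .nil))) 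
(.lf (nat_lit 542235) (.g (nat_lit 3963) (.e (nat_lit 98335) (nat_lit 18) (.e (nat_lit 164330) (nat_lit 230) (.e (nat_lit 163840) (nat_lit 0) (.e (nat_lit 3307) (nat_lit 202) (.e (nat_lit 573489) (nat_lit 14) (.e (nat_lit 73755) (nat_lit 8) (.e (nat_lit 557096) (nat_lit 13) (.e (nat_lit 179968) (nat_lit 18) .nil)))))))) (.g (nat_lit 1) (.e (nat_lit 273678) (nat_lit 0) .nil) .nil)))) 
(.nd (nat_lit 9) 
(.lf (nat_lit 541979) (.g (nat_lit 2905) (.e (nat_lit 98334) (nat_lit 18) (.e (nat_lit 164330) (nat_lit 230) (.e (nat_lit 163873) (nat_lit 3) (.e (nat_lit 204809) (nat_lit 9) (.e (nat_lit 426139) (nat_lit 3) (.e (nat_lit 204834) (nat_lit 19) (.e (nat_lit 106517) (nat_lit 9) (.e (nat_lit 1252) (nat_lit 92) .nil)))))))) (.g (nat_lit 1) (.e (nat_lit 273287) (nat_lit 0) .nil) .nil))) 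
(.lf (nat_lit 542491) (.g (nat_lit 2191) (.e (nat_lit 98340) (nat_lit 20) (.e (nat_lit 221214) (nat_lit 23) (.e (nat_lit 204861) (nat_lit 26) (.e (nat_lit 336027) (nat_lit 3) (.e (nat_lit 98334) (nat_lit 18) .nil))))) (.g (nat_lit 0) (.e (nat_lit 274012) (nat_lit 0) .nil) .nil))))) (.nd (nat_lit 8) (.nd (nat_lit 9) 
(.lf (nat_lit 541851) (.g (nat_lit 1668) (.e (nat_lit 98333) (nat_lit 18) (.e (nat_lit 164327) (nat_lit 230) (.e (nat_lit 163941) (nat_lit 19) (.e (nat_lit 483339) (nat_lit 9) (.e (nat_lit 426259) (nat_lit 9) (.e (nat_lit 433920) (nat_lit 18) .nil)))))) (.g (nat_lit 1) (.e (nat_lit 273050) (nat_lit 0) .nil) .nil))) 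
(.lf (nat_lit 542363) (.g (nat_lit 2348) (.e (nat_lit 98335) (nat_lit 18) (.e (nat_lit 164332) (nat_lit 230) (.e (nat_lit 163943) (nat_lit 19) (.e (nat_lit 483338) (nat_lit 9) (.e (nat_lit 426228) (nat_lit 9) (.e (nat_lit 426435) (nat_lit 18) .nil)))))) (.g (nat_lit 1) (.e (nat_lit 273852) (nat_lit 0) .nil) .nil)))) (.nd (nat_lit 9) 
(.lf (nat_lit 542107) (.g (nat_lit 4840) (.e (nat_lit 98335) (nat_lit 18) (.e (nat_lit 164305) (nat_lit 226) (.e (nat_lit 2612) (nat_lit 163) (.e (nat_lit 163979) (nat_lit 30) (.e (nat_lit 573487) (nat_lit 14) (.e (nat_lit 73753) (nat_lit 8) (.e (nat_lit 557098) (nat_lit 13) (.e (nat_lit 179968) (nat_lit 18) .nil)))))))) (.g (nat_lit 1) (.e (nat_lit 273517) (nat_lit 0) .nil) .nil))) 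
(.lf (nat_lit 542619) (.g (nat_lit 3316) (.e (nat_lit 98342) (nat_lit 20) (.e (nat_lit 221212) (nat_lit 22) (.e (nat_lit 196668) (nat_lit 14) (.e (nat_lit 73746) (nat_lit 3) (.e (nat_lit 516117) (nat_lit 1) (.e (nat_lit 164183) (nat_lit 154) (.e (nat_lit 57378) (nat_lit 3) .nil))))))) (.g (nat_lit 1) (.e (nat_lit 274160) (nat_lit 0) .nil) .nil)))))) 
(.nd (nat_lit 7) (.nd (nat_lit 8) (.nd (nat_lit 9) 
(.lf (nat_lit 541787) (.g (nat_lit 1925) (.e (nat_lit 98333) (nat_lit 18) (.e (nat_lit 164325) (nat_lit 230) (.e (nat_lit 163944) (nat_lit 19) (.e (nat_lit 483341) (nat_lit 9) (.e (nat_lit 426198) (nat_lit 9) (.e (nat_lit 433920) (nat_lit 18) .nil)))))) (.g (nat_lit 1) (.e (nat_lit 272967) (nat_lit 0) .nil) .nil))) 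
(.lf (nat_lit 542299) (.g (nat_lit 3272) (.e (nat_lit 98335) (nat_lit 18) (.e (nat_lit 164332) (nat_lit 230) (.e (nat_lit 163869) (nat_lit 2) (.e (nat_lit 196656) (nat_lit 11) .nil)))) (.g (nat_lit 0) (.e (nat_lit 273776) (nat_lit 0) .nil) .nil)))) (.nd (nat_lit 9) 
(.lf (nat_lit 542043) (.g (nat_lit 2004) (.e (nat_lit 98334) (nat_lit 18) (.e (nat_lit 164332) (nat_lit 230) (.e (nat_lit 163943) (nat_lit 19) (.e (nat_lit 483339) (nat_lit 9) (.e (nat_lit 426230) (nat_lit 9) (.e (nat_lit 426435) (nat_lit 18) .nil)))))) (.g (nat_lit 1) (.e (nat_lit 273419) (nat_lit 0) .nil) .nil))) 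
(.lf (nat_lit 542555) (.g (nat_lit 3446) (.e (nat_lit 98341) (nat_lit 20) (.e (nat_lit 221214) (nat_lit 23) (.e (nat_lit 204831) (nat_lit 18) (.e (nat_lit 57931) (nat_lit 282) (.e (nat_lit 163869) (nat_lit 2) (.e (nat_lit 196666) (nat_lit 13) (.e (nat_lit 65569) (nat_lit 3) .nil))))))) (.g (nat_lit 1) (.e (nat_lit 274086) (nat_lit 0) .nil) .nil))))) (.nd (nat_lit 8) (.nd (nat_lit 9) 
(.lf (nat_lit 541915) (.g (nat_lit 5041) (.e (nat_lit 98333) (nat_lit 18) (.e (nat_lit 164399) (nat_lit 256) (.e (nat_lit 57588) (nat_lit 73) (.e (nat_lit 426124) (nat_lit 2) (.e (nat_lit 196681) (nat_lit 17) (.e (nat_lit 131089) (nat_lit 1) (.e (nat_lit 57854) (nat_lit 252) (.e (nat_lit 57378) (nat_lit 3) .nil)))))))) (.g (nat_lit 1) (.e (nat_lit 273149) (nat_lit 0) .nil) .nil))) 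
(.lf (nat_lit 542427) (.g (nat_lit 825) (.e (nat_lit 98338) (nat_lit 19) (.e (nat_lit 213032) (nat_lit 11) (.e (nat_lit 24609) (nat_lit 3) .nil))) (.g (nat_lit 0) (.e (nat_lit 273927) (nat_lit 0) .nil) .nil)))) (.nd (nat_lit 9) 
(.lf (nat_lit 542171) (.g (nat_lit 1456) (.e (nat_lit 98335) (nat_lit 18) (.e (nat_lit 164326) (nat_lit 230) (.e (nat_lit 163941) (nat_lit 19) (.e (nat_lit 483339) (nat_lit 9) (.e (nat_lit 426260) (nat_lit 9) (.e (nat_lit 433920) (nat_lit 18) .nil)))))) (.g (nat_lit 1) (.e (nat_lit 273600) (nat_lit 0) .nil) .nil))) 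
(.lf (nat_lit 542683) (.g (nat_lit 2715) (.e (nat_lit 98342) (nat_lit 20) (.e (nat_lit 221215) (nat_lit 23) (.e (nat_lit 204830) (nat_lit 18) (.e (nat_lit 57926) (nat_lit 282) (.e (nat_lit 163867) (nat_lit 2) (.e (nat_lit 196663) (nat_lit 13) (.e (nat_lit 65571) (nat_lit 3) .nil))))))) (.g (nat_lit 1) (.e (nat_lit 274229) (nat_lit 0) .nil) .nil))))))) 
(.nd (nat_lit 6) (.nd (nat_lit 7) (.nd (nat_lit 8) (.nd (nat_lit 9) 
(.lf (nat_lit 541755) (.g (nat_lit 2240) (.e (nat_lit 98333) (nat_lit 18) (.e (nat_lit 164325) (nat_lit 230) (.e (nat_lit 163907) (nat_lit 12) (.e (nat_lit 426479) (nat_lit 27) (.e (nat_lit 336443) (nat_lit 32) (.e (nat_lit 474880) (nat_lit 3) .nil)))))) (.g (nat_lit 1) (.e (nat_lit 272910) (nat_lit 0) .nil) .nil))) 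
(.lf (nat_lit 542267) (.g (nat_lit 2188) (.e (nat_lit 98335) (nat_lit 18) (.e (nat_lit 164330) (nat_lit 230) (.e (nat_lit 163905) (nat_lit 12) (.e (nat_lit 426478) (nat_lit 27) (.e (nat_lit 336426) (nat_lit 29) (.e (nat_lit 450304) (nat_lit 3) .nil)))))) (.g (nat_lit 1) (.e (nat_lit 273721) (nat_lit 0) .nil) .nil)))) (.nd (nat_lit 9) 
(.lf (nat_lit 542011) (.g (nat_lit 834) (.e (nat_lit 98334) (nat_lit 18) (.e (nat_lit 164332) (nat_lit 230) (.e (nat_lit 163902) (nat_lit 12) (.e (nat_lit 426479) (nat_lit 27) .nil)))) (.g (nat_lit 0) (.e (nat_lit 273374) (nat_lit 0) .nil) .nil))) 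
(.lf (nat_lit 542523) (.g (nat_lit 5192) (.e (nat_lit 98341) (nat_lit 20) (.e (nat_lit 221210) (nat_lit 22) (.e (nat_lit 196670) (nat_lit 14) (.e (nat_lit 73746) (nat_lit 3) (.e (nat_lit 516119) (nat_lit 1) (.e (nat_lit 164179) (nat_lit 154) (.e (nat_lit 57377) (nat_lit 3) .nil))))))) (.g (nat_lit 1) (.e (nat_lit 274052) (nat_lit 0) .nil) .nil))))) (.nd (nat_lit 8) (.nd (nat_lit 9) 
(.lf (nat_lit 541883) (.g (nat_lit 1426) (.e (nat_lit 98333) (nat_lit 18) (.e (nat_lit 164332) (nat_lit 230) (.e (nat_lit 163902) (nat_lit 12) (.e (nat_lit 426567) (nat_lit 34) (.e (nat_lit 393270) (nat_lit 23) .nil))))) (.g (nat_lit 0) (.e (nat_lit 273106) (nat_lit 0) .nil) .nil))) 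
(.lf (nat_lit 542395) (.g (nat_lit 1727) (.e (nat_lit 98337) (nat_lit 19) (.e (nat_lit 213032) (nat_lit 11) (.e (nat_lit 24608) (nat_lit 3) (.e (nat_lit 98365) (nat_lit 26) (.e (nat_lit 426187) (nat_lit 9) .nil))))) (.g (nat_lit 0) (.e (nat_lit 273890) (nat_lit 0) .nil) .nil)))) (.nd (nat_lit 9) 
(.lf (nat_lit 542139) (.g (nat_lit 2958) (.e (nat_lit 98335) (nat_lit 18) (.e (nat_lit 164324) (nat_lit 230) (.e (nat_lit 163943) (nat_lit 19) (.e (nat_lit 483341) (nat_lit 9) (.e (nat_lit 426197) (nat_lit 9) (.e (nat_lit 426436) (nat_lit 18) .nil)))))) (.g (nat_lit 1) (.e (nat_lit 273561) (nat_lit 0) .nil) .nil))) 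
(.lf (nat_lit 542651) (.g (nat_lit 423) (.e (nat_lit 98342) (nat_lit 20) (.e (nat_lit 221214) (nat_lit 23) (.e (nat_lit 204830) (nat_lit 18) .nil))) (.g (nat_lit 0) (.e (nat_lit 274192) (nat_lit 0) .nil) .nil)))))) (.nd (nat_lit 7) (.nd (nat_lit 8) (.nd (nat_lit 9) 
(.lf (nat_lit 541819) (.g (nat_lit 3676) (.e (nat_lit 98333) (nat_lit 18) (.e (nat_lit 164327) (nat_lit 230) (.e (nat_lit 163875) (nat_lit 3) (.e (nat_lit 204809) (nat_lit 9) (.e (nat_lit 426139) (nat_lit 3) (.e (nat_lit 204834) (nat_lit 19) (.e (nat_lit 106517) (nat_lit 9) (.e (nat_lit 1252) (nat_lit 92) .nil)))))))) (.g (nat_lit 1) (.e (nat_lit 273013) (nat_lit 0) .nil) .nil))) 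
(.lf (nat_lit 542331) (.g (nat_lit 1768) (.e (nat_lit 98335) (nat_lit 18) (.e (nat_lit 164332) (nat_lit 230) (.e (nat_lit 163905) (nat_lit 12) (.e (nat_lit 426481) (nat_lit 27) .nil)))) (.g (nat_lit 0) (.e (nat_lit 273810) (nat_lit 0) .nil) .nil)))) (.nd (nat_lit 9) 
(.lf (nat_lit 542075) (.g (nat_lit 3653) (.e (nat_lit 98335) (nat_lit 18) (.e (nat_lit 164179) (nat_lit 154) (.e (nat_lit 57378) (nat_lit 3) (.e (nat_lit 98342) (nat_lit 20) (.e (nat_lit 221215) (nat_lit 23) (.e (nat_lit 204861) (nat_lit 26) (.e (nat_lit 336026) (nat_lit 3) .nil))))))) (.g (nat_lit 1) (.e (nat_lit 273467) (nat_lit 0) .nil) .nil))) 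
(.lf (nat_lit 542587) (.g (nat_lit 2381) (.e (nat_lit 98342) (nat_lit 20) (.e (nat_lit 221210) (nat_lit 22) (.e (nat_lit 196666) (nat_lit 13) (.e (nat_lit 65571) (nat_lit 3) (.e (nat_lit 98334) (nat_lit 18) .nil))))) (.g (nat_lit 0) (.e (nat_lit 274128) (nat_lit 0) .nil) .nil))))) (.nd (nat_lit 8) (.nd (nat_lit 9) 
(.lf (nat_lit 541947) (.g (nat_lit 2728) (.e (nat_lit 98334) (nat_lit 18) (.e (nat_lit 164322) (nat_lit 230) (.e (nat_lit 163867) (nat_lit 2) (.e (nat_lit 196656) (nat_lit 11) (.e (nat_lit 16416) (nat_lit 3) .nil))))) (.g (nat_lit 0) (.e (nat_lit 273227) (nat_lit 0) .nil) .nil))) 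
(.lf (nat_lit 542459) (.g (nat_lit 413) (.e (nat_lit 98339) (nat_lit 19) (.e (nat_lit 213032) (nat_lit 11) (.e (nat_lit 24609) (nat_lit 3) .nil))) (.g (nat_lit 0) (.e (nat_lit 273980) (nat_lit 0) .nil) .nil)))) (.nd (nat_lit 9) 
(.lf (nat_lit 542203) (.g (nat_lit 780) (.e (nat_lit 98335) (nat_lit 18) (.e (nat_lit 164327) (nat_lit 230) (.e (nat_lit 163906) (nat_lit 12) .nil))) (.g (nat_lit 0) (.e (nat_lit 273636) (nat_lit 0) .nil) .nil))) 
(.lf (nat_lit 542715) (.g (nat_lit 2463) (.e (nat_lit 98349) (nat_lit 24) (.e (nat_lit 409643) (nat_lit 18) (.e (nat_lit 303119) (nat_lit 3) (.e (nat_lit 204866) (nat_lit 28) (.e (nat_lit 352315) (nat_lit 23) .nil))))) (.g (nat_lit 1) (.e (nat_lit 274346) (nat_lit 0) .nil) .nil)))))))))) 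
(.nd (nat_lit 3) (.nd (nat_lit 4) (.nd (nat_lit 5) (.nd (nat_lit 6) (.nd (nat_lit 7) 
(.nd (nat_lit 8) (.nd (nat_lit 9) 
(.lf (nat_lit 541703) (.g (nat_lit 2595) (.e (nat_lit 98333) (nat_lit 18) (.e (nat_lit 164183) (nat_lit 154) (.e (nat_lit 57378) (nat_lit 3) (.e (nat_lit 98342) (nat_lit 20) (.e (nat_lit 221210) (nat_lit 22) (.e (nat_lit 196681) (nat_lit 17) (.e (nat_lit 131098) (nat_lit 3) .nil))))))) (.g (nat_lit 1) (.e (nat_lit 272835) (nat_lit 0) .nil) .nil))) 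
(.lf (nat_lit 542215) (.g (nat_lit 1625) (.e (nat_lit 98335) (nat_lit 18) (.e (nat_lit 164327) (nat_lit 230) (.e (nat_lit 163944) (nat_lit 19) (.e (nat_lit 483339) (nat_lit 9) (.e (nat_lit 426260) (nat_lit 9) (.e (nat_lit 433920) (nat_lit 18) .nil)))))) (.g (nat_lit 1) (.e (nat_lit 273652) (nat_lit 0) .nil) .nil)))) (.nd (nat_lit 9) 
(.lf (nat_lit 541959) (.g (nat_lit 2074) (.e (nat_lit 98334) (nat_lit 18) (.e (nat_lit 164329) (nat_lit 230) (.e (nat_lit 163902) (nat_lit 12) (.e (nat_lit 426568) (nat_lit 34) (.e (nat_lit 393279) (nat_lit 23) (.e (nat_lit 433920) (nat_lit 18) .nil)))))) (.g (nat_lit 1) (.e (nat_lit 273244) (nat_lit 0) .nil) .nil))) 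
(.lf (nat_lit 542471) (.g (nat_lit 2490) (.e (nat_lit 98340) (nat_lit 20) (.e (nat_lit 221210) (nat_lit 22) (.e (nat_lit 196666) (nat_lit 13) (.e (nat_lit 65569) (nat_lit 3) (.e (nat_lit 98333) (nat_lit 18) .nil))))) (.g (nat_lit 0) (.e (nat_lit 273992) (nat_lit 0) .nil) .nil))))) (.nd (nat_lit 8) (.nd (nat_lit 9) 
(.lf (nat_lit 541831) (.g (nat_lit 2370) (.e (nat_lit 98333) (nat_lit 18) (.e (nat_lit 164327) (nat_lit 230) (.e (nat_lit 163903) (nat_lit 12) (.e (nat_lit 426479) (nat_lit 27) (.e (nat_lit 336427) (nat_lit 29) .nil))))) (.g (nat_lit 0) (.e (nat_lit 273028) (nat_lit 0) .nil) .nil))) 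
(.lf (nat_lit 542343) (.g (nat_lit 3044) (.e (nat_lit 98335) (nat_lit 18) (.e (nat_lit 164332) (nat_lit 230) (.e (nat_lit 163905) (nat_lit 12) (.e (nat_lit 426505) (nat_lit 27) (.e (nat_lit 336408) (nat_lit 27) .nil))))) (.g (nat_lit 0) (.e (nat_lit 273822) (nat_lit 0) .nil) .nil)))) (.nd (nat_lit 9) 
(.lf (nat_lit 542087) (.g (nat_lit 3268) (.e (nat_lit 98335) (nat_lit 18) (.e (nat_lit 164183) (nat_lit 154) (.e (nat_lit 57378) (nat_lit 3) (.e (nat_lit 98342) (nat_lit 20) (.e (nat_lit 221212) (nat_lit 22) (.e (nat_lit 196681) (nat_lit 17) (.e (nat_lit 131096) (nat_lit 3) .nil))))))) (.g (nat_lit 1) (.e (nat_lit 273484) (nat_lit 0) .nil) .nil))) 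
(.lf (nat_lit 542599) (.g (nat_lit 2829) (.e (nat_lit 98342) (nat_lit 20) (.e (nat_lit 221210) (nat_lit 22) (.e (nat_lit 196668) (nat_lit 14) (.e (nat_lit 73747) (nat_lit 3) (.e (nat_lit 516116) (nat_lit 1) (.e (nat_lit 164183) (nat_lit 154) (.e (nat_lit 57379) (nat_lit 3) .nil))))))) (.g (nat_lit 1) (.e (nat_lit 274140) (nat_lit 0) .nil) .nil)))))) 
(.nd (nat_lit 7) (.nd (nat_lit 8) (.nd (nat_lit 9) 
(.lf (nat_lit 541767) (.g (nat_lit 1916) (.e (nat_lit 98333) (nat_lit 18) (.e (nat_lit 164325) (nat_lit 230) (.e (nat_lit 163907) (nat_lit 12) (.e (nat_lit 426568) (nat_lit 34) (.e (nat_lit 393275) (nat_lit 23) (.e (nat_lit 433920) (nat_lit 18) .nil)))))) (.g (nat_lit 1) (.e (nat_lit 272922) (nat_lit 0) .nil) .nil))) 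
(.lf (nat_lit 542279) (.g (nat_lit 1188) (.e (nat_lit 98335) (nat_lit 18) (.e (nat_lit 164330) (nat_lit 230) (.e (nat_lit 163941) (nat_lit 19) (.e (nat_lit 483339) (nat_lit 9) .nil)))) (.g (nat_lit 0) (.e (nat_lit 273739) (nat_lit 0) .nil) .nil)))) (.nd (nat_lit 9) 
(.lf (nat_lit 542023) (.g (nat_lit 393) (.e (nat_lit 98334) (nat_lit 18) (.e (nat_lit 164332) (nat_lit 230) (.e (nat_lit 163905) (nat_lit 12) .nil))) (.g (nat_lit 0) (.e (nat_lit 273386) (nat_lit 0) .nil) .nil))) 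
(.lf (nat_lit 542535) (.g (nat_lit 2735) (.e (nat_lit 98341) (nat_lit 20) (.e (nat_lit 221212) (nat_lit 22) (.e (nat_lit 196668) (nat_lit 14) (.e (nat_lit 73747) (nat_lit 3) (.e (nat_lit 516117) (nat_lit 1) (.e (nat_lit 164180) (nat_lit 154) (.e (nat_lit 57378) (nat_lit 3) .nil))))))) (.g (nat_lit 1) (.e (nat_lit 274064) (nat_lit 0) .nil) .nil))))) (.nd (nat_lit 8) (.nd (nat_lit 9) 
(.lf (nat_lit 541895) (.g (nat_lit 1816) (.e (nat_lit 98333) (nat_lit 18) (.e (nat_lit 164332) (nat_lit 230) (.e (nat_lit 163905) (nat_lit 12) (.e (nat_lit 426507) (nat_lit 27) .nil)))) (.g (nat_lit 0) (.e (nat_lit 273118) (nat_lit 0) .nil) .nil))) 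
(.lf (nat_lit 542407) (.g (nat_lit 1191) (.e (nat_lit 98338) (nat_lit 19) (.e (nat_lit 213030) (nat_lit 11) (.e (nat_lit 24605) (nat_lit 2) (.e (nat_lit 90176) (nat_lit 15) (.e (nat_lit 196352) (nat_lit 3) .nil))))) (.g (nat_lit 1) (.e (nat_lit 273906) (nat_lit 0) .nil) .nil)))) (.nd (nat_lit 9) 
(.lf (nat_lit 542151) (.g (nat_lit 947) (.e (nat_lit 98335) (nat_lit 18) (.e (nat_lit 164325) (nat_lit 230) (.e (nat_lit 163907) (nat_lit 12) (.e (nat_lit 426479) (nat_lit 27) (.e (nat_lit 336427) (nat_lit 29) (.e (nat_lit 450304) (nat_lit 3) .nil)))))) (.g (nat_lit 1) (.e (nat_lit 273575) (nat_lit 0) .nil) .nil))) 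
(.lf (nat_lit 542663) (.g (nat_lit 4710) (.e (nat_lit 98342) (nat_lit 20) (.e (nat_lit 221214) (nat_lit 23) (.e (nat_lit 204852) (nat_lit 26) (.e (nat_lit 336324) (nat_lit 18) (.e (nat_lit 204831) (nat_lit 18) (.e (nat_lit 57852) (nat_lit 252) (.e (nat_lit 57378) (nat_lit 3) .nil))))))) (.g (nat_lit 1) (.e (nat_lit 274206) (nat_lit 0) .nil) .nil))))))) 
(.nd (nat_lit 6) (.nd (nat_lit 7) (.nd (nat_lit 8) (.nd (nat_lit 9) 
(.lf (nat_lit 541735) (.g (nat_lit 2343) (.e (nat_lit 98333) (nat_lit 18) (.e (nat_lit 164325) (nat_lit 230) (.e (nat_lit 163903) (nat_lit 12) (.e (nat_lit 426479) (nat_lit 27) (.e (nat_lit 336427) (nat_lit 29) (.e (nat_lit 450304) (nat_lit 3) .nil)))))) (.g (nat_lit 1) (.e (nat_lit 272889) (nat_lit 0) .nil) .nil))) 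
(.lf (nat_lit 542247) (.g (nat_lit 3305) (.e (nat_lit 98335) (nat_lit 18) (.e (nat_lit 164330) (nat_lit 230) (.e (nat_lit 163853) (nat_lit 0) (.e (nat_lit 3307) (nat_lit 202) (.e (nat_lit 573489) (nat_lit 14) (.e (nat_lit 73754) (nat_lit 8) (.e (nat_lit 557095) (nat_lit 13) (.e (nat_lit 179968) (nat_lit 18) .nil)))))))) (.g (nat_lit 1) (.e (nat_lit 273694) (nat_lit 0) .nil) .nil)))) 
(.nd (nat_lit 9) 
(.lf (nat_lit 541991) (.g (nat_lit 3446) (.e (nat_lit 98334) (nat_lit 18) (.e (nat_lit 164330) (nat_lit 230) (.e (nat_lit 163902) (nat_lit 12) (.e (nat_lit 426568) (nat_lit 34) (.e (nat_lit 393279) (nat_lit 23) (.e (nat_lit 426433) (nat_lit 18) .nil)))))) (.g (nat_lit 1) (.e (nat_lit 273305) (nat_lit 0) .nil) .nil))) 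
(.lf (nat_lit 542503) (.g (nat_lit 4420) (.e (nat_lit 98341) (nat_lit 20) (.e (nat_lit 221210) (nat_lit 22) (.e (nat_lit 196666) (nat_lit 13) (.e (nat_lit 65569) (nat_lit 3) (.e (nat_lit 98334) (nat_lit 18) (.e (nat_lit 164182) (nat_lit 154) (.e (nat_lit 57379) (nat_lit 3) .nil))))))) (.g (nat_lit 1) (.e (nat_lit 274032) (nat_lit 0) .nil) .nil))))) (.nd (nat_lit 8) (.nd (nat_lit 9) 
(.lf (nat_lit 541863) (.g (nat_lit 1121) (.e (nat_lit 98333) (nat_lit 18) (.e (nat_lit 164327) (nat_lit 230) (.e (nat_lit 163944) (nat_lit 19) (.e (nat_lit 491264) (nat_lit 11) .nil)))) (.g (nat_lit 0) (.e (nat_lit 273072) (nat_lit 0) .nil) .nil))) 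
(.lf (nat_lit 542375) (.g (nat_lit 2266) (.e (nat_lit 98335) (nat_lit 18) (.e (nat_lit 164403) (nat_lit 256) (.e (nat_lit 57378) (nat_lit 3) (.e (nat_lit 98375) (nat_lit 30) .nil)))) (.g (nat_lit 0) (.e (nat_lit 273867) (nat_lit 0) .nil) .nil)))) (.nd (nat_lit 9) 
(.lf (nat_lit 542119) (.g (nat_lit 1940) (.e (nat_lit 98335) (nat_lit 18) (.e (nat_lit 164322) (nat_lit 230) (.e (nat_lit 163941) (nat_lit 19) (.e (nat_lit 483337) (nat_lit 9) (.e (nat_lit 426200) (nat_lit 9) .nil))))) (.g (nat_lit 0) (.e (nat_lit 273532) (nat_lit 0) .nil) .nil))) 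
(.lf (nat_lit 542631) (.g (nat_lit 3103) (.e (nat_lit 98342) (nat_lit 20) (.e (nat_lit 221212) (nat_lit 22) (.e (nat_lit 196670) (nat_lit 14) (.e (nat_lit 73746) (nat_lit 3) (.e (nat_lit 516119) (nat_lit 1) (.e (nat_lit 164177) (nat_lit 154) (.e (nat_lit 57379) (nat_lit 3) .nil))))))) (.g (nat_lit 1) (.e (nat_lit 274172) (nat_lit 0) .nil) .nil)))))) 
(.nd (nat_lit 7) (.nd (nat_lit 8) (.nd (nat_lit 9) 
(.lf (nat_lit 541799) (.g (nat_lit 3745) (.e (nat_lit 98333) (nat_lit 18) (.e (nat_lit 164327) (nat_lit 230) (.e (nat_lit 163868) (nat_lit 2) (.e (nat_lit 196656) (nat_lit 11) (.e (nat_lit 16416) (nat_lit 3) (.e (nat_lit 204838) (nat_lit 20) (.e (nat_lit 114717) (nat_lit 23) .nil))))))) (.g (nat_lit 1) (.e (nat_lit 272987) (nat_lit 0) .nil) .nil))) 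
(.lf (nat_lit 542311) (.g (nat_lit 1390) (.e (nat_lit 98335) (nat_lit 18) (.e (nat_lit 164332) (nat_lit 230) (.e (nat_lit 163902) (nat_lit 12) (.e (nat_lit 426479) (nat_lit 27) (.e (nat_lit 336427) (nat_lit 29) (.e (nat_lit 450304) (nat_lit 3) .nil)))))) (.g (nat_lit 1) (.e (nat_lit 273790) (nat_lit 0) .nil) .nil)))) (.nd (nat_lit 9) 
(.lf (nat_lit 542055) (.g (nat_lit 1878) (.e (nat_lit 98334) (nat_lit 18) (.e (nat_lit 164399) (nat_lit 256) (.e (nat_lit 57377) (nat_lit 3) (.e (nat_lit 98376) (nat_lit 30) (.e (nat_lit 458789) (nat_lit 23) .nil))))) (.g (nat_lit 0) (.e (nat_lit 273440) (nat_lit 0) .nil) .nil))) 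
(.lf (nat_lit 542567) (.g (nat_lit 1618) (.e (nat_lit 98341) (nat_lit 20) (.e (nat_lit 221215) (nat_lit 23) (.e (nat_lit 204861) (nat_lit 26) (.e (nat_lit 336020) (nat_lit 3) .nil)))) (.g (nat_lit 0) (.e (nat_lit 274099) (nat_lit 0) .nil) .nil))))) (.nd (nat_lit 8) (.nd (nat_lit 9) 
(.lf (nat_lit 541927) (.g (nat_lit 2207) (.e (nat_lit 98334) (nat_lit 18) (.e (nat_lit 164182) (nat_lit 154) (.e (nat_lit 57379) (nat_lit 3) (.e (nat_lit 98341) (nat_lit 20) (.e (nat_lit 221215) (nat_lit 23) .nil))))) (.g (nat_lit 0) (.e (nat_lit 273177) (nat_lit 0) .nil) .nil))) 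
(.lf (nat_lit 542439) (.g (nat_lit 1687) (.e (nat_lit 98339) (nat_lit 19) (.e (nat_lit 213030) (nat_lit 11) (.e (nat_lit 24608) (nat_lit 3) (.e (nat_lit 98381) (nat_lit 31) (.e (nat_lit 474880) (nat_lit 3) .nil))))) (.g (nat_lit 1) (.e (nat_lit 273957) (nat_lit 0) .nil) .nil)))) (.nd (nat_lit 9) 
(.lf (nat_lit 542183) (.g (nat_lit 2563) (.e (nat_lit 98335) (nat_lit 18) (.e (nat_lit 164327) (nat_lit 230) (.e (nat_lit 163875) (nat_lit 3) (.e (nat_lit 204837) (nat_lit 20) (.e (nat_lit 114717) (nat_lit 23) (.e (nat_lit 98356) (nat_lit 26) (.e (nat_lit 426438) (nat_lit 18) .nil))))))) (.g (nat_lit 1) (.e (nat_lit 273616) (nat_lit 0) .nil) .nil))) 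
(.lf (nat_lit 542695) (.g (nat_lit 1677) (.e (nat_lit 98342) (nat_lit 20) (.e (nat_lit 221215) (nat_lit 23) (.e (nat_lit 204855) (nat_lit 26) (.e (nat_lit 336024) (nat_lit 3) .nil)))) (.g (nat_lit 0) (.e (nat_lit 274241) (nat_lit 0) .nil) .nil)))))))) (.nd (nat_lit 5) (.nd (nat_lit 6) (.nd (nat_lit 7) (.nd (nat_lit 8) (.nd (nat_lit 9) 
(.lf (nat_lit 541719) (.g (nat_lit 554) (.e (nat_lit 98333) (nat_lit 18) (.e (nat_lit 164325) (nat_lit 230) (.e (nat_lit 163871) (nat_lit 2) .nil))) (.g (nat_lit 0) (.e (nat_lit 272864) (nat_lit 0) .nil) .nil))) 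
(.lf (nat_lit 542231) (.g (nat_lit 3130) (.e (nat_lit 98335) (nat_lit 18) (.e (nat_lit 164329) (nat_lit 230) (.e (nat_lit 163941) (nat_lit 19) (.e (nat_lit 483340) (nat_lit 9) (.e (nat_lit 426198) (nat_lit 9) (.e (nat_lit 426436) (nat_lit 18) .nil)))))) (.g (nat_lit 1) (.e (nat_lit 273672) (nat_lit 0) .nil) .nil)))) (.nd (nat_lit 9) 
(.lf (nat_lit 541975) (.g (nat_lit 4042) (.e (nat_lit 98334) (nat_lit 18) (.e (nat_lit 164330) (nat_lit 230) (.e (nat_lit 163869) (nat_lit 2) (.e (nat_lit 196656) (nat_lit 11) (.e (nat_lit 16416) (nat_lit 3) (.e (nat_lit 204837) (nat_lit 20) (.e (nat_lit 114717) (nat_lit 23) .nil))))))) (.g (nat_lit 1) (.e (nat_lit 273280) (nat_lit 0) .nil) .nil))) 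
(.lf (nat_lit 542487) (.g (nat_lit 3450) (.e (nat_lit 98340) (nat_lit 20) (.e (nat_lit 221214) (nat_lit 23) (.e (nat_lit 204852) (nat_lit 26) (.e (nat_lit 336326) (nat_lit 18) (.e (nat_lit 204831) (nat_lit 18) (.e (nat_lit 57852) (nat_lit 252) (.e (nat_lit 57378) (nat_lit 3) .nil))))))) (.g (nat_lit 1) (.e (nat_lit 274008) (nat_lit 0) .nil) .nil))))) (.nd (nat_lit 8) (.nd (nat_lit 9) 
(.lf (nat_lit 541847) (.g (nat_lit 3068) (.e (nat_lit 98333) (nat_lit 18) (.e (nat_lit 164327) (nat_lit 230) (.e (nat_lit 163907) (nat_lit 12) (.e (nat_lit 426131) (nat_lit 3) (.e (nat_lit 204852) (nat_lit 26) (.e (nat_lit 336310) (nat_lit 16) (.e (nat_lit 164183) (nat_lit 154) (.e (nat_lit 57378) (nat_lit 3) .nil)))))))) (.g (nat_lit 1) (.e (nat_lit 273045) (nat_lit 0) .nil) .nil))) 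
(.lf (nat_lit 542359) (.g (nat_lit 2037) (.e (nat_lit 98335) (nat_lit 18) (.e (nat_lit 164332) (nat_lit 230) (.e (nat_lit 163941) (nat_lit 19) (.e (nat_lit 483339) (nat_lit 9) (.e (nat_lit 426259) (nat_lit 9) (.e (nat_lit 426435) (nat_lit 18) .nil)))))) (.g (nat_lit 1) (.e (nat_lit 273841) (nat_lit 0) .nil) .nil)))) (.nd (nat_lit 9) 
(.lf (nat_lit 542103) (.g (nat_lit 5451) (.e (nat_lit 98335) (nat_lit 18) (.e (nat_lit 164305) (nat_lit 226) (.e (nat_lit 2612) (nat_lit 163) (.e (nat_lit 163978) (nat_lit 30) (.e (nat_lit 573489) (nat_lit 14) (.e (nat_lit 73755) (nat_lit 8) (.e (nat_lit 557096) (nat_lit 13) (.e (nat_lit 179968) (nat_lit 18) .nil)))))))) (.g (nat_lit 1) (.e (nat_lit 273513) (nat_lit 0) .nil) .nil))) 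
(.lf (nat_lit 542615) (.g (nat_lit 4039) (.e (nat_lit 98342) (nat_lit 20) (.e (nat_lit 221211) (nat_lit 22) (.e (nat_lit 196666) (nat_lit 13) (.e (nat_lit 65642) (nat_lit 15) (.e (nat_lit 3253) (nat_lit 197) (.e (nat_lit 532504) (nat_lit 1) (.e (nat_lit 57852) (nat_lit 252) (.e (nat_lit 57376) (nat_lit 3) .nil)))))))) (.g (nat_lit 1) (.e (nat_lit 274156) (nat_lit 0) .nil) .nil)))))) 
(.nd (nat_lit 7) (.nd (nat_lit 8) (.nd (nat_lit 9) 
(.lf (nat_lit 541783) (.g (nat_lit 1199) (.e (nat_lit 98333) (nat_lit 18) (.e (nat_lit 164325) (nat_lit 230) (.e (nat_lit 163944) (nat_lit 19) (.e (nat_lit 483333) (nat_lit 0) .nil)))) (.g (nat_lit 0) (.e (nat_lit 272961) (nat_lit 0) .nil) .nil))) 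
(.lf (nat_lit 542295) (.g (nat_lit 2014) (.e (nat_lit 98335) (nat_lit 18) (.e (nat_lit 164332) (nat_lit 230) (.e (nat_lit 163867) (nat_lit 2) (.e (nat_lit 196624) (nat_lit 9) .nil)))) (.g (nat_lit 0) (.e (nat_lit 273771) (nat_lit 0) .nil) .nil)))) (.nd (nat_lit 9) 
(.lf (nat_lit 542039) (.g (nat_lit 1869) (.e (nat_lit 98334) (nat_lit 18) (.e (nat_lit 164332) (nat_lit 230) (.e (nat_lit 163941) (nat_lit 19) (.e (nat_lit 483339) (nat_lit 9) (.e (nat_lit 426259) (nat_lit 9) (.e (nat_lit 426435) (nat_lit 18) .nil)))))) (.g (nat_lit 1) (.e (nat_lit 273407) (nat_lit 0) .nil) .nil))) 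
(.lf (nat_lit 542551) (.g (nat_lit 3833) (.e (nat_lit 98341) (nat_lit 20) (.e (nat_lit 221214) (nat_lit 23) (.e (nat_lit 204829) (nat_lit 18) (.e (nat_lit 57931) (nat_lit 282) (.e (nat_lit 163869) (nat_lit 2) (.e (nat_lit 196663) (nat_lit 13) (.e (nat_lit 65571) (nat_lit 3) .nil))))))) (.g (nat_lit 1) (.e (nat_lit 274081) (nat_lit 0) .nil) .nil))))) (.nd (nat_lit 8) (.nd (nat_lit 9) 
(.lf (nat_lit 541911) (.g (nat_lit 3990) (.e (nat_lit 98333) (nat_lit 18) (.e (nat_lit 164399) (nat_lit 256) (.e (nat_lit 57378) (nat_lit 3) (.e (nat_lit 98367) (nat_lit 27) (.e (nat_lit 434231) (nat_lit 23) (.e (nat_lit 532514) (nat_lit 3) (.e (nat_lit 114717) (nat_lit 23) .nil))))))) (.g (nat_lit 1) (.e (nat_lit 273144) (nat_lit 0) .nil) .nil))) 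
(.lf (nat_lit 542423) (.g (nat_lit 1778) (.e (nat_lit 98338) (nat_lit 19) (.e (nat_lit 213032) (nat_lit 11) (.e (nat_lit 24608) (nat_lit 3) (.e (nat_lit 98370) (nat_lit 28) (.e (nat_lit 450304) (nat_lit 3) .nil))))) (.g (nat_lit 0) (.e (nat_lit 273923) (nat_lit 0) .nil) .nil)))) (.nd (nat_lit 9) 
(.lf (nat_lit 542167) (.g (nat_lit 2072) (.e (nat_lit 98335) (nat_lit 18) (.e (nat_lit 164326) (nat_lit 230) (.e (nat_lit 163903) (nat_lit 12) (.e (nat_lit 426479) (nat_lit 27) (.e (nat_lit 336428) (nat_lit 29) (.e (nat_lit 450304) (nat_lit 3) .nil)))))) (.g (nat_lit 1) (.e (nat_lit 273596) (nat_lit 0) .nil) .nil))) 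
(.lf (nat_lit 542679) (.g (nat_lit 5182) (.e (nat_lit 98342) (nat_lit 20) (.e (nat_lit 221215) (nat_lit 23) (.e (nat_lit 204829) (nat_lit 18) (.e (nat_lit 57931) (nat_lit 282) (.e (nat_lit 163869) (nat_lit 2) (.e (nat_lit 196666) (nat_lit 13) (.e (nat_lit 65571) (nat_lit 3) .nil))))))) (.g (nat_lit 1) (.e (nat_lit 274222) (nat_lit 0) .nil) .nil))))))) 
(.nd (nat_lit 6) (.nd (nat_lit 7) (.nd (nat_lit 8) (.nd (nat_lit 9) 
(.lf (nat_lit 541751) (.g (nat_lit 2082) (.e (nat_lit 98333) (nat_lit 18) (.e (nat_lit 164325) (nat_lit 230) (.e (nat_lit 163907) (nat_lit 12) (.e (nat_lit 426479) (nat_lit 27) (.e (nat_lit 336426) (nat_lit 29) (.e (nat_lit 450304) (nat_lit 3) .nil)))))) (.g (nat_lit 1) (.e (nat_lit 272906) (nat_lit 0) .nil) .nil))) 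
(.lf (nat_lit 542263) (.g (nat_lit 3361) (.e (nat_lit 98335) (nat_lit 18) (.e (nat_lit 164330) (nat_lit 230) (.e (nat_lit 163902) (nat_lit 12) (.e (nat_lit 426568) (nat_lit 34) (.e (nat_lit 393268) (nat_lit 23) (.e (nat_lit 426438) (nat_lit 18) .nil)))))) (.g (nat_lit 1) (.e (nat_lit 273717) (nat_lit 0) .nil) .nil)))) (.nd (nat_lit 9) 
(.lf (nat_lit 542007) (.g (nat_lit 2315) (.e (nat_lit 98334) (nat_lit 18) (.e (nat_lit 164332) (nat_lit 230) (.e (nat_lit 163874) (nat_lit 3) (.e (nat_lit 204837) (nat_lit 20) (.e (nat_lit 114717) (nat_lit 23) (.e (nat_lit 98356) (nat_lit 26) (.e (nat_lit 426438) (nat_lit 18) .nil))))))) (.g (nat_lit 1) (.e (nat_lit 273370) (nat_lit 0) .nil) .nil))) 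
(.lf (nat_lit 542519) (.g (nat_lit 568) (.e (nat_lit 98341) (nat_lit 20) (.e (nat_lit 221210) (nat_lit 22) (.e (nat_lit 196669) (nat_lit 14) .nil))) (.g (nat_lit 0) (.e (nat_lit 274048) (nat_lit 0) .nil) .nil))))) (.nd (nat_lit 8) (.nd (nat_lit 9) 
(.lf (nat_lit 541879) (.g (nat_lit 2348) (.e (nat_lit 98333) (nat_lit 18) (.e (nat_lit 164332) (nat_lit 230) (.e (nat_lit 163902) (nat_lit 12) (.e (nat_lit 426479) (nat_lit 27) (.e (nat_lit 336443) (nat_lit 32) (.e (nat_lit 474880) (nat_lit 3) .nil)))))) (.g (nat_lit 1) (.e (nat_lit 273102) (nat_lit 0) .nil) .nil))) 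
(.lf (nat_lit 542391) (.g (nat_lit 1904) (.e (nat_lit 98337) (nat_lit 19) (.e (nat_lit 213032) (nat_lit 11) (.e (nat_lit 24607) (nat_lit 3) (.e (nat_lit 98365) (nat_lit 26) (.e (nat_lit 426187) (nat_lit 9) (.e (nat_lit 426434) (nat_lit 18) .nil)))))) (.g (nat_lit 1) (.e (nat_lit 273886) (nat_lit 0) .nil) .nil)))) (.nd (nat_lit 9) 
(.lf (nat_lit 542135) (.g (nat_lit 1994) (.e (nat_lit 98335) (nat_lit 18) (.e (nat_lit 164324) (nat_lit 230) (.e (nat_lit 163941) (nat_lit 19) (.e (nat_lit 483339) (nat_lit 9) (.e (nat_lit 426259) (nat_lit 9) (.e (nat_lit 426435) (nat_lit 18) .nil)))))) (.g (nat_lit 1) (.e (nat_lit 273551) (nat_lit 0) .nil) .nil))) 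
(.lf (nat_lit 542647) (.g (nat_lit 4319) (.e (nat_lit 98342) (nat_lit 20) (.e (nat_lit 221214) (nat_lit 23) (.e (nat_lit 204829) (nat_lit 18) (.e (nat_lit 57931) (nat_lit 282) (.e (nat_lit 163869) (nat_lit 2) (.e (nat_lit 196663) (nat_lit 13) (.e (nat_lit 65571) (nat_lit 3) .nil))))))) (.g (nat_lit 1) (.e (nat_lit 274188) (nat_lit 0) .nil) .nil)))))) 
(.nd (nat_lit 7) (.nd (nat_lit 8) (.nd (nat_lit 9) 
(.lf (nat_lit 541815) (.g (nat_lit 3109) (.e (nat_lit 98333) (nat_lit 18) (.e (nat_lit 164327) (nat_lit 230) (.e (nat_lit 163873) (nat_lit 3) (.e (nat_lit 204813) (nat_lit 9) (.e (nat_lit 426139) (nat_lit 3) .nil))))) (.g (nat_lit 0) (.e (nat_lit 273006) (nat_lit 0) .nil) .nil))) 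
(.lf (nat_lit 542327) (.g (nat_lit 1908) (.e (nat_lit 98335) (nat_lit 18) (.e (nat_lit 164332) (nat_lit 230) (.e (nat_lit 163905) (nat_lit 12) (.e (nat_lit 426482) (nat_lit 27) .nil)))) (.g (nat_lit 0) (.e (nat_lit 273806) (nat_lit 0) .nil) .nil)))) (.nd (nat_lit 9) 
(.lf (nat_lit 542071) (.g (nat_lit 2103) (.e (nat_lit 98335) (nat_lit 18) (.e (nat_lit 164179) (nat_lit 154) (.e (nat_lit 57377) (nat_lit 3) (.e (nat_lit 98341) (nat_lit 20) (.e (nat_lit 221212) (nat_lit 22) .nil))))) (.g (nat_lit 0) (.e (nat_lit 273463) (nat_lit 0) .nil) .nil))) 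
(.lf (nat_lit 542583) (.g (nat_lit 1201) (.e (nat_lit 98342) (nat_lit 20) (.e (nat_lit 229120) (nat_lit 12) (.e (nat_lit 344107) (nat_lit 19) (.e (nat_lit 499811) (nat_lit 5) (.e (nat_lit 2988) (nat_lit 186) (.e (nat_lit 450304) (nat_lit 3) .nil)))))) (.g (nat_lit 1) (.e (nat_lit 274121) (nat_lit 0) .nil) .nil))))) (.nd (nat_lit 8) (.nd (nat_lit 9) 
(.lf (nat_lit 541943) (.g (nat_lit 5919) (.e (nat_lit 98334) (nat_lit 18) (.e (nat_lit 164305) (nat_lit 226) (.e (nat_lit 2612) (nat_lit 163) (.e (nat_lit 163978) (nat_lit 30) (.e (nat_lit 573489) (nat_lit 14) (.e (nat_lit 73755) (nat_lit 8) (.e (nat_lit 557098) (nat_lit 13) (.e (nat_lit 179968) (nat_lit 18) .nil)))))))) (.g (nat_lit 1) (.e (nat_lit 273220) (nat_lit 0) .nil) .nil))) 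
(.lf (nat_lit 542455) (.g (nat_lit 1939) (.e (nat_lit 98339) (nat_lit 19) (.e (nat_lit 213032) (nat_lit 11) (.e (nat_lit 24608) (nat_lit 3) (.e (nat_lit 98370) (nat_lit 28) (.e (nat_lit 450304) (nat_lit 3) .nil))))) (.g (nat_lit 1) (.e (nat_lit 273976) (nat_lit 0) .nil) .nil)))) (.nd (nat_lit 9) 
(.lf (nat_lit 542199) (.g (nat_lit 1990) (.e (nat_lit 98335) (nat_lit 18) (.e (nat_lit 164327) (nat_lit 230) (.e (nat_lit 163903) (nat_lit 12) (.e (nat_lit 426502) (nat_lit 27) (.e (nat_lit 336408) (nat_lit 27) .nil))))) (.g (nat_lit 0) (.e (nat_lit 273632) (nat_lit 0) .nil) .nil))) 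
(.lf (nat_lit 542711) (.g (nat_lit 3092) (.e (nat_lit 98346) (nat_lit 22) (.e (nat_lit 253955) (nat_lit 0) (.e (nat_lit 2679) (nat_lit 168) (.e (nat_lit 204862) (nat_lit 27) (.e (nat_lit 344117) (nat_lit 21) (.e (nat_lit 516129) (nat_lit 3) (.e (nat_lit 229120) (nat_lit 3) .nil))))))) (.g (nat_lit 1) (.e (nat_lit 274287) (nat_lit 0) .nil) .nil))))))))) 
(.nd (nat_lit 4) (.nd (nat_lit 5) (.nd (nat_lit 6) (.nd (nat_lit 7) (.nd (nat_lit 8) 
(.nd (nat_lit 9) 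
(.lf (nat_lit 541711) (.g (nat_lit 2564) (.e (nat_lit 98333) (nat_lit 18) (.e (nat_lit 164325) (nat_lit 230) (.e (nat_lit 163867) (nat_lit 2) (.e (nat_lit 196656) (nat_lit 11) (.e (nat_lit 16416) (nat_lit 3) .nil))))) (.g (nat_lit 0) (.e (nat_lit 272854) (nat_lit 0) .nil) .nil))) 
(.lf (nat_lit 542223) (.g (nat_lit 1951) (.e (nat_lit 98335) (nat_lit 18) (.e (nat_lit 164329) (nat_lit 230) (.e (nat_lit 163902) (nat_lit 12) (.e (nat_lit 426479) (nat_lit 27) (.e (nat_lit 336428) (nat_lit 29) (.e (nat_lit 450304) (nat_lit 3) .nil)))))) (.g (nat_lit 1) (.e (nat_lit 273661) (nat_lit 0) .nil) .nil)))) (.nd (nat_lit 9) 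
(.lf (nat_lit 541967) (.g (nat_lit 3812) (.e (nat_lit 98334) (nat_lit 18) (.e (nat_lit 164330) (nat_lit 230) (.e (nat_lit 163853) (nat_lit 0) (.e (nat_lit 3307) (nat_lit 202) (.e (nat_lit 573489) (nat_lit 14) (.e (nat_lit 73755) (nat_lit 8) (.e (nat_lit 557096) (nat_lit 13) (.e (nat_lit 179968) (nat_lit 18) .nil)))))))) (.g (nat_lit 1) (.e (nat_lit 273258) (nat_lit 0) .nil) .nil))) 
(.lf (nat_lit 542479) (.g (nat_lit 1474) (.e (nat_lit 98340) (nat_lit 20) (.e (nat_lit 221210) (nat_lit 22) (.e (nat_lit 196681) (nat_lit 17) (.e (nat_lit 131098) (nat_lit 3) .nil)))) (.g (nat_lit 0) (.e (nat_lit 274000) (nat_lit 0) .nil) .nil))))) (.nd (nat_lit 8) (.nd (nat_lit 9) 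
(.lf (nat_lit 541839) (.g (nat_lit 3205) (.e (nat_lit 98333) (nat_lit 18) (.e (nat_lit 164327) (nat_lit 230) (.e (nat_lit 163903) (nat_lit 12) (.e (nat_lit 426566) (nat_lit 34) (.e (nat_lit 393271) (nat_lit 23) (.e (nat_lit 426438) (nat_lit 18) .nil)))))) (.g (nat_lit 1) (.e (nat_lit 273037) (nat_lit 0) .nil) .nil))) 
(.lf (nat_lit 542351) (.g (nat_lit 2355) (.e (nat_lit 98335) (nat_lit 18) (.e (nat_lit 164332) (nat_lit 230) (.e (nat_lit 163905) (nat_lit 12) (.e (nat_lit 426515) (nat_lit 27) .nil)))) (.g (nat_lit 0) (.e (nat_lit 273830) (nat_lit 0) .nil) .nil)))) (.nd (nat_lit 9) 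
(.lf (nat_lit 542095) (.g (nat_lit 503) (.e (nat_lit 98335) (nat_lit 18) (.e (nat_lit 164183) (nat_lit 154) (.e (nat_lit 57410) (nat_lit 12) .nil))) (.g (nat_lit 0) (.e (nat_lit 273492) (nat_lit 0) .nil) .nil))) 
(.lf (nat_lit 542607) (.g (nat_lit 3438) (.e (nat_lit 98342) (nat_lit 20) (.e (nat_lit 221210) (nat_lit 22) (.e (nat_lit 196670) (nat_lit 14) (.e (nat_lit 73746) (nat_lit 3) (.e (nat_lit 516119) (nat_lit 1) (.e (nat_lit 164177) (nat_lit 154) (.e (nat_lit 57379) (nat_lit 3) .nil))))))) (.g (nat_lit 1) (.e (nat_lit 274148) (nat_lit 0) .nil) .nil)))))) 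
(.nd (nat_lit 7) (.nd (nat_lit 8) (.nd (nat_lit 9) 
(.lf (nat_lit 541775) (.g (nat_lit 1208) (.e (nat_lit 98333) (nat_lit 18) (.e (nat_lit 164325) (nat_lit 230) (.e (nat_lit 163941) (nat_lit 19) (.e (nat_lit 483337) (nat_lit 9) .nil)))) (.g (nat_lit 0) (.e (nat_lit 272931) (nat_lit 0) .nil) .nil))) 
(.lf (nat_lit 542287) (.g (nat_lit 1612) (.e (nat_lit 98335) (nat_lit 18) (.e (nat_lit 164330) (nat_lit 230) (.e (nat_lit 163942) (nat_lit 19) (.e (nat_lit 483339) (nat_lit 9) (.e (nat_lit 426260) (nat_lit 9) (.e (nat_lit 433920) (nat_lit 18) .nil)))))) (.g (nat_lit 1) (.e (nat_lit 273751) (nat_lit 0) .nil) .nil)))) (.nd (nat_lit 9) 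
(.lf (nat_lit 542031) (.g (nat_lit 3126) (.e (nat_lit 98334) (nat_lit 18) (.e (nat_lit 164332) (nat_lit 230) (.e (nat_lit 163905) (nat_lit 12) (.e (nat_lit 426566) (nat_lit 34) (.e (nat_lit 393268) (nat_lit 23) (.e (nat_lit 426438) (nat_lit 18) .nil)))))) (.g (nat_lit 1) (.e (nat_lit 273395) (nat_lit 0) .nil) .nil))) 
(.lf (nat_lit 542543) (.g (nat_lit 3135) (.e (nat_lit 98341) (nat_lit 20) (.e (nat_lit 221212) (nat_lit 22) (.e (nat_lit 196670) (nat_lit 14) (.e (nat_lit 73746) (nat_lit 3) (.e (nat_lit 516120) (nat_lit 1) (.e (nat_lit 164176) (nat_lit 154) (.e (nat_lit 57379) (nat_lit 3) .nil))))))) (.g (nat_lit 1) (.e (nat_lit 274072) (nat_lit 0) .nil) .nil))))) (.nd (nat_lit 8) (.nd (nat_lit 9) 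
(.lf (nat_lit 541903) (.g (nat_lit 2159) (.e (nat_lit 98333) (nat_lit 18) (.e (nat_lit 164398) (nat_lit 256) (.e (nat_lit 57375) (nat_lit 2) (.e (nat_lit 90172) (nat_lit 14) (.e (nat_lit 180243) (nat_lit 5) .nil))))) (.g (nat_lit 0) (.e (nat_lit 273135) (nat_lit 0) .nil) .nil))) 
(.lf (nat_lit 542415) (.g (nat_lit 1054) (.e (nat_lit 98338) (nat_lit 19) (.e (nat_lit 213030) (nat_lit 11) (.e (nat_lit 24609) (nat_lit 3) (.e (nat_lit 98381) (nat_lit 31) (.e (nat_lit 474880) (nat_lit 3) .nil))))) (.g (nat_lit 0) (.e (nat_lit 273914) (nat_lit 0) .nil) .nil)))) (.nd (nat_lit 9) 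
(.lf (nat_lit 542159) (.g (nat_lit 1320) (.e (nat_lit 98335) (nat_lit 18) (.e (nat_lit 164325) (nat_lit 230) (.e (nat_lit 163944) (nat_lit 19) (.e (nat_lit 483338) (nat_lit 9) .nil)))) (.g (nat_lit 0) (.e (nat_lit 273587) (nat_lit 0) .nil) .nil))) 
(.lf (nat_lit 542671) (.g (nat_lit 805) (.e (nat_lit 98342) (nat_lit 20) (.e (nat_lit 221215) (nat_lit 23) (.e (nat_lit 204814) (nat_lit 17) .nil))) (.g (nat_lit 0) (.e (nat_lit 274214) (nat_lit 0) .nil) .nil))))))) (.nd (nat_lit 6) (.nd (nat_lit 7) (.nd (nat_lit 8) (.nd (nat_lit 9) 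
(.lf (nat_lit 541743) (.g (nat_lit 4207) (.e (nat_lit 98333) (nat_lit 18) (.e (nat_lit 164325) (nat_lit 230) (.e (nat_lit 163903) (nat_lit 12) (.e (nat_lit 426566) (nat_lit 34) (.e (nat_lit 393273) (nat_lit 23) (.e (nat_lit 426438) (nat_lit 18) .nil)))))) (.g (nat_lit 1) (.e (nat_lit 272897) (nat_lit 0) .nil) .nil))) 
(.lf (nat_lit 542255) (.g (nat_lit 552) (.e (nat_lit 98335) (nat_lit 18) (.e (nat_lit 164330) (nat_lit 230) (.e (nat_lit 163901) (nat_lit 12) .nil))) (.g (nat_lit 0) (.e (nat_lit 273709) (nat_lit 0) .nil) .nil)))) (.nd (nat_lit 9) 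
(.lf (nat_lit 541999) (.g (nat_lit 2664) (.e (nat_lit 98334) (nat_lit 18) (.e (nat_lit 164330) (nat_lit 230) (.e (nat_lit 163941) (nat_lit 19) (.e (nat_lit 483341) (nat_lit 9) (.e (nat_lit 433920) (nat_lit 9) .nil))))) (.g (nat_lit 0) (.e (nat_lit 273330) (nat_lit 0) .nil) .nil))) 
(.lf (nat_lit 542511) (.g (nat_lit 5200) (.e (nat_lit 98341) (nat_lit 20) (.e (nat_lit 221210) (nat_lit 22) (.e (nat_lit 196668) (nat_lit 14) (.e (nat_lit 73747) (nat_lit 3) (.e (nat_lit 516115) (nat_lit 1) (.e (nat_lit 164177) (nat_lit 154) (.e (nat_lit 57379) (nat_lit 3) .nil))))))) (.g (nat_lit 1) (.e (nat_lit 274040) (nat_lit 0) .nil) .nil))))) (.nd (nat_lit 8) (.nd (nat_lit 9) 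
(.lf (nat_lit 541871) (.g (nat_lit 2526) (.e (nat_lit 98333) (nat_lit 18) (.e (nat_lit 164332) (nat_lit 230) (.e (nat_lit 163869) (nat_lit 2) (.e (nat_lit 196654) (nat_lit 11) .nil)))) (.g (nat_lit 0) (.e (nat_lit 273094) (nat_lit 0) .nil) .nil))) 
(.lf (nat_lit 542383) (.g (nat_lit 1456) (.e (nat_lit 98336) (nat_lit 19) (.e (nat_lit 213032) (nat_lit 11) (.e (nat_lit 24608) (nat_lit 3) (.e (nat_lit 98369) (nat_lit 28) .nil)))) (.g (nat_lit 0) (.e (nat_lit 273878) (nat_lit 0) .nil) .nil)))) (.nd (nat_lit 9) 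
(.lf (nat_lit 542127) (.g (nat_lit 2332) (.e (nat_lit 98335) (nat_lit 18) (.e (nat_lit 164324) (nat_lit 230) (.e (nat_lit 163903) (nat_lit 12) (.e (nat_lit 426479) (nat_lit 27) (.e (nat_lit 336430) (nat_lit 29) (.e (nat_lit 450304) (nat_lit 3) .nil)))))) (.g (nat_lit 1) (.e (nat_lit 273541) (nat_lit 0) .nil) .nil))) 
(.lf (nat_lit 542639) (.g (nat_lit 4630) (.e (nat_lit 98342) (nat_lit 20) (.e (nat_lit 221213) (nat_lit 23) (.e (nat_lit 204829) (nat_lit 18) (.e (nat_lit 57931) (nat_lit 282) (.e (nat_lit 163869) (nat_lit 2) (.e (nat_lit 196666) (nat_lit 13) (.e (nat_lit 65569) (nat_lit 3) .nil))))))) (.g (nat_lit 1) (.e (nat_lit 274180) (nat_lit 0) .nil) .nil)))))) 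
(.nd (nat_lit 7) (.nd (nat_lit 8) (.nd (nat_lit 9) 
(.lf (nat_lit 541807) (.g (nat_lit 4526) (.e (nat_lit 98333) (nat_lit 18) (.e (nat_lit 164327) (nat_lit 230) (.e (nat_lit 163871) (nat_lit 2) (.e (nat_lit 196656) (nat_lit 11) (.e (nat_lit 16416) (nat_lit 3) (.e (nat_lit 204838) (nat_lit 20) (.e (nat_lit 114718) (nat_lit 23) .nil))))))) (.g (nat_lit 1) (.e (nat_lit 272997) (nat_lit 0) .nil) .nil))) 
(.lf (nat_lit 542319) (.g (nat_lit 3558) (.e (nat_lit 98335) (nat_lit 18) (.e (nat_lit 164332) (nat_lit 230) (.e (nat_lit 163902) (nat_lit 12) (.e (nat_lit 426566) (nat_lit 34) (.e (nat_lit 393273) (nat_lit 23) (.e (nat_lit 426438) (nat_lit 18) .nil)))))) (.g (nat_lit 1) (.e (nat_lit 273798) (nat_lit 0) .nil) .nil)))) (.nd (nat_lit 9) 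
(.lf (nat_lit 542063) (.g (nat_lit 1647) (.e (nat_lit 98334) (nat_lit 18) (.e (nat_lit 164403) (nat_lit 256) (.e (nat_lit 57371) (nat_lit 2) (.e (nat_lit 90171) (nat_lit 14) .nil)))) (.g (nat_lit 0) (.e (nat_lit 273448) (nat_lit 0) .nil) .nil))) 
(.lf (nat_lit 542575) (.g (nat_lit 3761) (.e (nat_lit 98341) (nat_lit 20) (.e (nat_lit 221215) (nat_lit 23) (.e (nat_lit 204862) (nat_lit 27) (.e (nat_lit 344117) (nat_lit 21) (.e (nat_lit 516099) (nat_lit 0) (.e (nat_lit 2464) (nat_lit 157) (.e (nat_lit 6400) (nat_lit 339) (.e (nat_lit 57379) (nat_lit 3) .nil)))))))) (.g (nat_lit 1) (.e (nat_lit 274107) (nat_lit 0) .nil) .nil))))) 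
(.nd (nat_lit 8) (.nd (nat_lit 9) 
(.lf (nat_lit 541935) (.g (nat_lit 3738) (.e (nat_lit 98334) (nat_lit 18) (.e (nat_lit 164183) (nat_lit 154) (.e (nat_lit 57379) (nat_lit 3) (.e (nat_lit 98342) (nat_lit 20) (.e (nat_lit 221212) (nat_lit 22) (.e (nat_lit 196681) (nat_lit 17) (.e (nat_lit 131096) (nat_lit 3) .nil))))))) (.g (nat_lit 1) (.e (nat_lit 273201) (nat_lit 0) .nil) .nil))) 
(.lf (nat_lit 542447) (.g (nat_lit 2816) (.e (nat_lit 98339) (nat_lit 19) (.e (nat_lit 213032) (nat_lit 11) (.e (nat_lit 24604) (nat_lit 2) (.e (nat_lit 90185) (nat_lit 17) (.e (nat_lit 237605) (nat_lit 9) (.e (nat_lit 426438) (nat_lit 18) .nil)))))) (.g (nat_lit 1) (.e (nat_lit 273965) (nat_lit 0) .nil) .nil)))) (.nd (nat_lit 9) 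
(.lf (nat_lit 542191) (.g (nat_lit 1803) (.e (nat_lit 98335) (nat_lit 18) (.e (nat_lit 164327) (nat_lit 230) (.e (nat_lit 163903) (nat_lit 12) (.e (nat_lit 426479) (nat_lit 27) (.e (nat_lit 336426) (nat_lit 29) .nil))))) (.g (nat_lit 0) (.e (nat_lit 273624) (nat_lit 0) .nil) .nil))) 
(.lf (nat_lit 542703) (.g (nat_lit 4536) (.e (nat_lit 98342) (nat_lit 20) (.e (nat_lit 221215) (nat_lit 23) (.e (nat_lit 204861) (nat_lit 26) (.e (nat_lit 336027) (nat_lit 3) (.e (nat_lit 98333) (nat_lit 18) (.e (nat_lit 164183) (nat_lit 154) (.e (nat_lit 57378) (nat_lit 3) .nil))))))) (.g (nat_lit 1) (.e (nat_lit 274249) (nat_lit 0) .nil) .nil)))))))) 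
(.nd (nat_lit 5) (.nd (nat_lit 6) (.nd (nat_lit 7) (.nd (nat_lit 8) (.nd (nat_lit 9) 
(.lf (nat_lit 541727) (.g (nat_lit 3873) (.e (nat_lit 98333) (nat_lit 18) (.e (nat_lit 164325) (nat_lit 230) (.e (nat_lit 163902) (nat_lit 12) (.e (nat_lit 426566) (nat_lit 34) (.e (nat_lit 393268) (nat_lit 23) (.e (nat_lit 426436) (nat_lit 18) .nil)))))) (.g (nat_lit 1) (.e (nat_lit 272881) (nat_lit 0) .nil) .nil))) 
(.lf (nat_lit 542239) (.g (nat_lit 3118) (.e (nat_lit 98335) (nat_lit 18) (.e (nat_lit 164330) (nat_lit 230) (.e (nat_lit 163850) (nat_lit 0) (.e (nat_lit 3304) (nat_lit 202) (.e (nat_lit 573489) (nat_lit 14) (.e (nat_lit 73754) (nat_lit 8) (.e (nat_lit 557095) (nat_lit 13) (.e (nat_lit 179968) (nat_lit 18) .nil)))))))) (.g (nat_lit 1) (.e (nat_lit 273686) (nat_lit 0) .nil) .nil)))) 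
(.nd (nat_lit 9) 
(.lf (nat_lit 541983) (.g (nat_lit 1790) (.e (nat_lit 98334) (nat_lit 18) (.e (nat_lit 164330) (nat_lit 230) (.e (nat_lit 163902) (nat_lit 12) (.e (nat_lit 426481) (nat_lit 27) .nil)))) (.g (nat_lit 0) (.e (nat_lit 273297) (nat_lit 0) .nil) .nil))) 
(.lf (nat_lit 542495) (.g (nat_lit 1811) (.e (nat_lit 98340) (nat_lit 20) (.e (nat_lit 221215) (nat_lit 23) (.e (nat_lit 204861) (nat_lit 26) (.e (nat_lit 336026) (nat_lit 3) (.e (nat_lit 98335) (nat_lit 18) .nil))))) (.g (nat_lit 0) (.e (nat_lit 274016) (nat_lit 0) .nil) .nil))))) (.nd (nat_lit 8) (.nd (nat_lit 9) 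
(.lf (nat_lit 541855) (.g (nat_lit 2607) (.e (nat_lit 98333) (nat_lit 18) (.e (nat_lit 164327) (nat_lit 230) (.e (nat_lit 163941) (nat_lit 19) (.e (nat_lit 483341) (nat_lit 9) (.e (nat_lit 426198) (nat_lit 9) (.e (nat_lit 433920) (nat_lit 18) .nil)))))) (.g (nat_lit 1) (.e (nat_lit 273058) (nat_lit 0) .nil) .nil))) 
(.lf (nat_lit 542367) (.g (nat_lit 2288) (.e (nat_lit 98335) (nat_lit 18) (.e (nat_lit 164403) (nat_lit 256) (.e (nat_lit 57373) (nat_lit 2) (.e (nat_lit 90174) (nat_lit 14) (.e (nat_lit 180243) (nat_lit 5) .nil))))) (.g (nat_lit 0) (.e (nat_lit 273859) (nat_lit 0) .nil) .nil)))) (.nd (nat_lit 9) 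
(.lf (nat_lit 542111) (.g (nat_lit 1225) (.e (nat_lit 98335) (nat_lit 18) (.e (nat_lit 164322) (nat_lit 230) (.e (nat_lit 163902) (nat_lit 12) (.e (nat_lit 426479) (nat_lit 27) .nil)))) (.g (nat_lit 0) (.e (nat_lit 273524) (nat_lit 0) .nil) .nil))) 
(.lf (nat_lit 542623) (.g (nat_lit 2916) (.e (nat_lit 98342) (nat_lit 20) (.e (nat_lit 221212) (nat_lit 22) (.e (nat_lit 196668) (nat_lit 14) (.e (nat_lit 73747) (nat_lit 3) (.e (nat_lit 516117) (nat_lit 1) (.e (nat_lit 164176) (nat_lit 154) (.e (nat_lit 57379) (nat_lit 3) .nil))))))) (.g (nat_lit 1) (.e (nat_lit 274164) (nat_lit 0) .nil) .nil)))))) 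
(.nd (nat_lit 7) (.nd (nat_lit 8) (.nd (nat_lit 9) 
(.lf (nat_lit 541791) (.g (nat_lit 2817) (.e (nat_lit 98333) (nat_lit 18) (.e (nat_lit 164327) (nat_lit 230) (.e (nat_lit 163868) (nat_lit 2) (.e (nat_lit 196654) (nat_lit 11) (.e (nat_lit 16416) (nat_lit 3) (.e (nat_lit 204837) (nat_lit 20) (.e (nat_lit 114717) (nat_lit 23) .nil))))))) (.g (nat_lit 1) (.e (nat_lit 272976) (nat_lit 0) .nil) .nil))) 
(.lf (nat_lit 542303) (.g (nat_lit 4497) (.e (nat_lit 98335) (nat_lit 18) (.e (nat_lit 164332) (nat_lit 230) (.e (nat_lit 163873) (nat_lit 3) (.e (nat_lit 204813) (nat_lit 9) (.e (nat_lit 426139) (nat_lit 3) .nil))))) (.g (nat_lit 0) (.e (nat_lit 273780) (nat_lit 0) .nil) .nil)))) (.nd (nat_lit 9) 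
(.lf (nat_lit 542047) (.g (nat_lit 2831) (.e (nat_lit 98334) (nat_lit 18) (.e (nat_lit 164398) (nat_lit 256) (.e (nat_lit 57377) (nat_lit 3) (.e (nat_lit 98358) (nat_lit 26) (.e (nat_lit 426131) (nat_lit 3) .nil))))) (.g (nat_lit 0) (.e (nat_lit 273430) (nat_lit 0) .nil) .nil))) 
(.lf (nat_lit 542559) (.g (nat_lit 5288) (.e (nat_lit 98341) (nat_lit 20) (.e (nat_lit 221215) (nat_lit 23) (.e (nat_lit 204829) (nat_lit 18) (.e (nat_lit 57847) (nat_lit 252) (.e (nat_lit 57370) (nat_lit 2) (.e (nat_lit 90158) (nat_lit 11) (.e (nat_lit 24608) (nat_lit 3) .nil))))))) (.g (nat_lit 1) (.e (nat_lit 274091) (nat_lit 0) .nil) .nil))))) (.nd (nat_lit 8) (.nd (nat_lit 9) 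
(.lf (nat_lit 541919) (.g (nat_lit 2847) (.e (nat_lit 98333) (nat_lit 18) (.e (nat_lit 164403) (nat_lit 256) (.e (nat_lit 57378) (nat_lit 3) (.e (nat_lit 98367) (nat_lit 27) (.e (nat_lit 434234) (nat_lit 23) .nil))))) (.g (nat_lit 0) (.e (nat_lit 273156) (nat_lit 0) .nil) .nil))) 
(.lf (nat_lit 542431) (.g (nat_lit 1157) (.e (nat_lit 98338) (nat_lit 19) (.e (nat_lit 213032) (nat_lit 11) (.e (nat_lit 24609) (nat_lit 3) (.e (nat_lit 98381) (nat_lit 31) .nil)))) (.g (nat_lit 0) (.e (nat_lit 273932) (nat_lit 0) .nil) .nil)))) (.nd (nat_lit 9) 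
(.lf (nat_lit 542175) (.g (nat_lit 3504) (.e (nat_lit 98335) (nat_lit 18) (.e (nat_lit 164327) (nat_lit 230) (.e (nat_lit 163868) (nat_lit 2) (.e (nat_lit 196656) (nat_lit 11) (.e (nat_lit 16416) (nat_lit 3) (.e (nat_lit 204838) (nat_lit 20) (.e (nat_lit 114719) (nat_lit 23) .nil))))))) (.g (nat_lit 1) (.e (nat_lit 273606) (nat_lit 0) .nil) .nil))) 
(.lf (nat_lit 542687) (.g (nat_lit 3581) (.e (nat_lit 98342) (nat_lit 20) (.e (nat_lit 221215) (nat_lit 23) (.e (nat_lit 204830) (nat_lit 18) (.e (nat_lit 57929) (nat_lit 282) (.e (nat_lit 163874) (nat_lit 3) (.e (nat_lit 204853) (nat_lit 26) (.e (nat_lit 336019) (nat_lit 3) .nil))))))) (.g (nat_lit 1) (.e (nat_lit 274233) (nat_lit 0) .nil) .nil))))))) 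
(.nd (nat_lit 6) (.nd (nat_lit 7) (.nd (nat_lit 8) (.nd (nat_lit 9) 
(.lf (nat_lit 541759) (.g (nat_lit 3427) (.e (nat_lit 98333) (nat_lit 18) (.e (nat_lit 164325) (nat_lit 230) (.e (nat_lit 163907) (nat_lit 12) (.e (nat_lit 426566) (nat_lit 34) (.e (nat_lit 393268) (nat_lit 23) (.e (nat_lit 426438) (nat_lit 18) .nil)))))) (.g (nat_lit 1) (.e (nat_lit 272914) (nat_lit 0) .nil) .nil))) 
(.lf (nat_lit 542271) (.g (nat_lit 1019) (.e (nat_lit 98335) (nat_lit 18) (.e (nat_lit 164330) (nat_lit 230) (.e (nat_lit 163905) (nat_lit 12) (.e (nat_lit 426566) (nat_lit 34) .nil)))) (.g (nat_lit 0) (.e (nat_lit 273725) (nat_lit 0) .nil) .nil)))) (.nd (nat_lit 9) 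
(.lf (nat_lit 542015) (.g (nat_lit 2019) (.e (nat_lit 98334) (nat_lit 18) (.e (nat_lit 164332) (nat_lit 230) (.e (nat_lit 163902) (nat_lit 12) (.e (nat_lit 426479) (nat_lit 27) (.e (nat_lit 336428) (nat_lit 29) (.e (nat_lit 450304) (nat_lit 3) .nil)))))) (.g (nat_lit 1) (.e (nat_lit 273378) (nat_lit 0) .nil) .nil))) 
(.lf (nat_lit 542527) (.g (nat_lit 2649) (.e (nat_lit 98341) (nat_lit 20) (.e (nat_lit 221211) (nat_lit 22) (.e (nat_lit 196666) (nat_lit 13) (.e (nat_lit 65642) (nat_lit 15) (.e (nat_lit 3253) (nat_lit 197) .nil))))) (.g (nat_lit 0) (.e (nat_lit 274056) (nat_lit 0) .nil) .nil))))) (.nd (nat_lit 8) (.nd (nat_lit 9) 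
(.lf (nat_lit 541887) (.g (nat_lit 1423) (.e (nat_lit 98333) (nat_lit 18) (.e (nat_lit 164332) (nat_lit 230) (.e (nat_lit 163905) (nat_lit 12) (.e (nat_lit 426478) (nat_lit 27) .nil)))) (.g (nat_lit 0) (.e (nat_lit 273110) (nat_lit 0) .nil) .nil))) 
(.lf (nat_lit 542399) (.g (nat_lit 1622) (.e (nat_lit 98337) (nat_lit 19) (.e (nat_lit 213032) (nat_lit 11) (.e (nat_lit 24608) (nat_lit 3) (.e (nat_lit 98380) (nat_lit 31) (.e (nat_lit 474880) (nat_lit 3) .nil))))) (.g (nat_lit 1) (.e (nat_lit 273894) (nat_lit 0) .nil) .nil)))) (.nd (nat_lit 9) 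
(.lf (nat_lit 542143) (.g (nat_lit 3358) (.e (nat_lit 98335) (nat_lit 18) (.e (nat_lit 164325) (nat_lit 230) (.e (nat_lit 163875) (nat_lit 3) (.e (nat_lit 204838) (nat_lit 20) (.e (nat_lit 114719) (nat_lit 23) (.e (nat_lit 98356) (nat_lit 26) (.e (nat_lit 426438) (nat_lit 18) .nil))))))) (.g (nat_lit 1) (.e (nat_lit 273567) (nat_lit 0) .nil) .nil))) 
(.lf (nat_lit 542655) (.g (nat_lit 3038) (.e (nat_lit 98342) (nat_lit 20) (.e (nat_lit 221214) (nat_lit 23) (.e (nat_lit 204830) (nat_lit 18) (.e (nat_lit 57926) (nat_lit 282) (.e (nat_lit 163871) (nat_lit 2) (.e (nat_lit 196663) (nat_lit 13) (.e (nat_lit 65571) (nat_lit 3) .nil))))))) (.g (nat_lit 1) (.e (nat_lit 274198) (nat_lit 0) .nil) .nil)))))) 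
(.nd (nat_lit 7) (.nd (nat_lit 8) (.nd (nat_lit 9) 
(.lf (nat_lit 541823) (.g (nat_lit 2750) (.e (nat_lit 98333) (nat_lit 18) (.e (nat_lit 164327) (nat_lit 230) (.e (nat_lit 163875) (nat_lit 3) (.e (nat_lit 204837) (nat_lit 20) (.e (nat_lit 114717) (nat_lit 23) (.e (nat_lit 98356) (nat_lit 26) (.e (nat_lit 426438) (nat_lit 18) .nil))))))) (.g (nat_lit 1) (.e (nat_lit 273020) (nat_lit 0) .nil) .nil))) 
(.lf (nat_lit 542335) (.g (nat_lit 2129) (.e (nat_lit 98335) (nat_lit 18) (.e (nat_lit 164332) (nat_lit 230) (.e (nat_lit 163905) (nat_lit 12) (.e (nat_lit 426489) (nat_lit 27) .nil)))) (.g (nat_lit 0) (.e (nat_lit 273814) (nat_lit 0) .nil) .nil)))) (.nd (nat_lit 9) 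
(.lf (nat_lit 542079) (.g (nat_lit 1791) (.e (nat_lit 98335) (nat_lit 18) (.e (nat_lit 164182) (nat_lit 154) (.e (nat_lit 57379) (nat_lit 3) (.e (nat_lit 98340) (nat_lit 20) .nil)))) (.g (nat_lit 0) (.e (nat_lit 273472) (nat_lit 0) .nil) .nil))) 
(.lf (nat_lit 542591) (.g (nat_lit 3765) (.e (nat_lit 98342) (nat_lit 20) (.e (nat_lit 221210) (nat_lit 22) (.e (nat_lit 196668) (nat_lit 14) (.e (nat_lit 73746) (nat_lit 3) (.e (nat_lit 516115) (nat_lit 1) (.e (nat_lit 164182) (nat_lit 154) (.e (nat_lit 57379) (nat_lit 3) .nil))))))) (.g (nat_lit 1) (.e (nat_lit 274132) (nat_lit 0) .nil) .nil))))) (.nd (nat_lit 8) (.nd (nat_lit 9) 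
(.lf (nat_lit 541951) (.g (nat_lit 2650) (.e (nat_lit 98334) (nat_lit 18) (.e (nat_lit 164322) (nat_lit 230) (.e (nat_lit 163902) (nat_lit 12) (.e (nat_lit 426568) (nat_lit 34) (.e (nat_lit 393270) (nat_lit 23) .nil))))) (.g (nat_lit 0) (.e (nat_lit 273231) (nat_lit 0) .nil) .nil))) 
(.lf (nat_lit 542463) (.g (nat_lit 1345) (.e (nat_lit 98339) (nat_lit 19) (.e (nat_lit 213032) (nat_lit 11) (.e (nat_lit 24609) (nat_lit 3) (.e (nat_lit 98381) (nat_lit 31) (.e (nat_lit 474880) (nat_lit 3) .nil))))) (.g (nat_lit 1) (.e (nat_lit 273984) (nat_lit 0) .nil) .nil)))) (.nd (nat_lit 9) 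
(.lf (nat_lit 542207) (.g (nat_lit 2522) (.e (nat_lit 98335) (nat_lit 18) (.e (nat_lit 164327) (nat_lit 230) (.e (nat_lit 163941) (nat_lit 19) (.e (nat_lit 483341) (nat_lit 9) (.e (nat_lit 426198) (nat_lit 9) (.e (nat_lit 433920) (nat_lit 18) .nil)))))) (.g (nat_lit 1) (.e (nat_lit 273641) (nat_lit 0) .nil) .nil))) 
(.lf (nat_lit 542719) (.g (nat_lit 1439) (.e (nat_lit 98349) (nat_lit 24) (.e (nat_lit 409644) (nat_lit 18) (.e (nat_lit 303119) (nat_lit 3) (.e (nat_lit 204852) (nat_lit 26) .nil)))) (.g (nat_lit 0) (.e (nat_lit 274351) (nat_lit 0) .nil) .nil)))))))))))))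


end

end Pool.Agent.Lib.MP_5854e1_co.Cz
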