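import Pool.Agent.Lib.MP_5854e1_co.DtD

/-!
# Windows and cells of the rings
-/

set_option autoImplicit false
set_option maxRecDepth 100000
set_option deprecated.oldSectionVars true

namespace Pool.Agent.Lib.MP_5854e1_co.Cz

open Pool.Agent.Lib.MP_5854e1_co

noncomputable section

noncomputable def tv5590 : DT := (.nd (nat_lit 0) (.nd (nat_lit 1) (.nd (nat_lit 2) (.nd (nat_lit 3) (.nd (nat_lit 4) (.nd (nat_lit 5) (.nd (nat_lit 6) (.nd (nat_lit 7) (.nd (nat_lit 8) (.nd (nat_lit 9) 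
(.lf (nat_lit 542720) (.g (nat_lit 2466) (.e (nat_lit 98349) (nat_lit 24) (.e (nat_lit 409644) (nat_lit 18) (.e (nat_lit 303119) (nat_lit 3) (.e (nat_lit 204852) (nat_lit 26) (.e (nat_lit 336130) (nat_lit 9) .nil))))) (.g (nat_lit 0) (.e (nat_lit 274352) (nat_lit 0) .nil) .nil))) 
(.lf (nat_lit 543232) (.g (nat_lit 3870) (.e (nat_lit 98364) (nat_lit 26) (.e (nat_lit 426316) (nat_lit 12) (.e (nat_lit 475185) (nat_lit 29) (.e (nat_lit 557098) (nat_lit 13) (.e (nat_lit 172124) (nat_lit 14) .nil))))) (.g (nat_lit 0) (.e (nat_lit 274969) (nat_lit 0) .nil) .nil)))) (.nd (nat_lit 9) 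
(.lf (nat_lit 542976) (.g (nat_lit 2696) (.e (nat_lit 98353) (nat_lit 25) (.e (nat_lit 417813) (nat_lit 9) (.e (nat_lit 311315) (nat_lit 3) (.e (nat_lit 204846) (nat_lit 24) (.e (nat_lit 319529) (nat_lit 16) (.e (nat_lit 286735) (nat_lit 3) .nil)))))) (.g (nat_lit 1) (.e (nat_lit 274662) (nat_lit 0) .nil) .nil))) 
(.lf (nat_lit 543488) (.g (nat_lit 1350) (.e (nat_lit 98366) (nat_lit 27) (.e (nat_lit 434231) (nat_lit 23) (.e (nat_lit 532514) (nat_lit 3) (.e (nat_lit 122624) (nat_lit 3) .nil)))) (.g (nat_lit 0) (.e (nat_lit 275266) (nat_lit 0) .nil) .nil))))) (.nd (nat_lit 8) (.nd (nat_lit 9) 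
(.lf (nat_lit 542848) (.g (nat_lit 3344) (.e (nat_lit 98350) (nat_lit 24) (.e (nat_lit 409646) (nat_lit 18) (.e (nat_lit 303117) (nat_lit 2) (.e (nat_lit 196668) (nat_lit 14) (.e (nat_lit 81664) (nat_lit 40) (.e (nat_lit 1256) (nat_lit 92) .nil)))))) (.g (nat_lit 1) (.e (nat_lit 274497) (nat_lit 0) .nil) .nil))) 
(.lf (nat_lit 543360) (.g (nat_lit 1724) (.e (nat_lit 98365) (nat_lit 26) (.e (nat_lit 426325) (nat_lit 13) (.e (nat_lit 483337) (nat_lit 9) (.e (nat_lit 426003) (nat_lit 0) .nil)))) (.g (nat_lit 0) (.e (nat_lit 275108) (nat_lit 0) .nil) .nil)))) (.nd (nat_lit 9) 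
(.lf (nat_lit 543104) (.g (nat_lit 4317) (.e (nat_lit 98358) (nat_lit 26) (.e (nat_lit 426436) (nat_lit 18) (.e (nat_lit 98335) (nat_lit 18) (.e (nat_lit 164305) (nat_lit 226) .nil)))) (.g (nat_lit 0) (.e (nat_lit 274821) (nat_lit 0) .nil) .nil))) 
(.lf (nat_lit 543616) (.g (nat_lit 4751) (.e (nat_lit 98367) (nat_lit 27) (.e (nat_lit 434231) (nat_lit 23) (.e (nat_lit 532500) (nat_lit 1) (.e (nat_lit 57691) (nat_lit 156) (.e (nat_lit 163875) (nat_lit 3) (.e (nat_lit 204838) (nat_lit 20) (.e (nat_lit 114719) (nat_lit 23) .nil))))))) (.g (nat_lit 1) (.e (nat_lit 275438) (nat_lit 0) .nil) .nil)))))) 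
(.nd (nat_lit 7) (.nd (nat_lit 8) (.nd (nat_lit 9) 
(.lf (nat_lit 542784) (.g (nat_lit 3866) (.e (nat_lit 98349) (nat_lit 24) (.e (nat_lit 409648) (nat_lit 18) (.e (nat_lit 303119) (nat_lit 3) (.e (nat_lit 204855) (nat_lit 26) (.e (nat_lit 336102) (nat_lit 9) .nil))))) (.g (nat_lit 0) (.e (nat_lit 274420) (nat_lit 0) .nil) .nil))) 
(.lf (nat_lit 543296) (.g (nat_lit 2936) (.e (nat_lit 98365) (nat_lit 26) (.e (nat_lit 426275) (nat_lit 10) (.e (nat_lit 434247) (nat_lit 28) (.e (nat_lit 573478) (nat_lit 12) (.e (nat_lit 57574) (nat_lit 55) (.e (nat_lit 778466) (nat_lit 11) (.e (nat_lit 24608) (nat_lit 3) .nil))))))) (.g (nat_lit 1) (.e (nat_lit 275041) (nat_lit 0) .nil) .nil)))) (.nd (nat_lit 9) 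
(.lf (nat_lit 543040) (.g (nat_lit 1989) (.e (nat_lit 98356) (nat_lit 26) (.e (nat_lit 426438) (nat_lit 18) (.e (nat_lit 98335) (nat_lit 18) (.e (nat_lit 164305) (nat_lit 226) (.e (nat_lit 2450) (nat_lit 157) (.e (nat_lit 2685) (nat_lit 168) (.e (nat_lit 204834) (nat_lit 19) (.e (nat_lit 106517) (nat_lit 9) (.e (nat_lit 1255) (nat_lit 92) .nil))))))))) (.g (nat_lit 1) (.e (nat_lit 274752) (nat_lit 0) .nil) .nil))) 
(.lf (nat_lit 543552) (.g (nat_lit 1012) (.e (nat_lit 98366) (nat_lit 27) (.e (nat_lit 434245) (nat_lit 28) (.e (nat_lit 573488) (nat_lit 14) (.e (nat_lit 81664) (nat_lit 5) .nil)))) (.g (nat_lit 0) (.e (nat_lit 275343) (nat_lit 0) .nil) .nil))))) (.nd (nat_lit 8) (.nd (nat_lit 9) 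
(.lf (nat_lit 542912) (.g (nat_lit 2485) (.e (nat_lit 98350) (nat_lit 24) (.e (nat_lit 409648) (nat_lit 18) (.e (nat_lit 303118) (nat_lit 3) (.e (nat_lit 204855) (nat_lit 26) (.e (nat_lit 336073) (nat_lit 9) .nil))))) (.g (nat_lit 0) (.e (nat_lit 274563) (nat_lit 0) .nil) .nil))) 
(.lf (nat_lit 543424) (.g (nat_lit 1433) (.e (nat_lit 106240) (nat_lit 26) (.e (nat_lit 426260) (nat_lit 9) (.e (nat_lit 426129) (nat_lit 3) (.e (nat_lit 204846) (nat_lit 24) (.e (nat_lit 319528) (nat_lit 16) .nil))))) (.g (nat_lit 0) (.e (nat_lit 275173) (nat_lit 0) .nil) .nil)))) (.nd (nat_lit 9) 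
(.lf (nat_lit 543168) (.g (nat_lit 4056) (.e (nat_lit 98359) (nat_lit 26) (.e (nat_lit 426286) (nat_lit 10) (.e (nat_lit 434248) (nat_lit 28) (.e (nat_lit 573475) (nat_lit 12) (.e (nat_lit 57574) (nat_lit 55) (.e (nat_lit 778466) (nat_lit 11) (.e (nat_lit 24608) (nat_lit 3) .nil))))))) (.g (nat_lit 1) (.e (nat_lit 274888) (nat_lit 0) .nil) .nil))) 
(.lf (nat_lit 543680) (.g (nat_lit 4041) (.e (nat_lit 98367) (nat_lit 27) (.e (nat_lit 434244) (nat_lit 28) (.e (nat_lit 573488) (nat_lit 14) (.e (nat_lit 73755) (nat_lit 8) (.e (nat_lit 557090) (nat_lit 12) (.e (nat_lit 163843) (nat_lit 0) (.e (nat_lit 5943) (nat_lit 322) (.e (nat_lit 57379) (nat_lit 3) .nil)))))))) (.g (nat_lit 1) (.e (nat_lit 275510) (nat_lit 0) .nil) .nil))))))) 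
(.nd (nat_lit 6) (.nd (nat_lit 7) (.nd (nat_lit 8) (.nd (nat_lit 9) 
(.lf (nat_lit 542752) (.g (nat_lit 6461) (.e (nat_lit 98349) (nat_lit 24) (.e (nat_lit 409646) (nat_lit 18) (.e (nat_lit 303112) (nat_lit 0) (.e (nat_lit 3252) (nat_lit 197) (.e (nat_lit 532535) (nat_lit 9) (.e (nat_lit 336099) (nat_lit 9) (.e (nat_lit 336028) (nat_lit 3) .nil))))))) (.g (nat_lit 1) (.e (nat_lit 274386) (nat_lit 0) .nil) .nil))) 
(.lf (nat_lit 543264) (.g (nat_lit 3254) (.e (nat_lit 98365) (nat_lit 26) (.e (nat_lit 426188) (nat_lit 9) (.e (nat_lit 426436) (nat_lit 18) (.e (nat_lit 98337) (nat_lit 19) (.e (nat_lit 213032) (nat_lit 11) (.e (nat_lit 24607) (nat_lit 3) .nil)))))) (.g (nat_lit 1) (.e (nat_lit 275009) (nat_lit 0) .nil) .nil)))) (.nd (nat_lit 9) 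
(.lf (nat_lit 543008) (.g (nat_lit 2871) (.e (nat_lit 98355) (nat_lit 26) (.e (nat_lit 426131) (nat_lit 3) (.e (nat_lit 204838) (nat_lit 20) (.e (nat_lit 114716) (nat_lit 22) (.e (nat_lit 90140) (nat_lit 9) .nil))))) (.g (nat_lit 0) (.e (nat_lit 274716) (nat_lit 0) .nil) .nil))) 
(.lf (nat_lit 543520) (.g (nat_lit 2298) (.e (nat_lit 98366) (nat_lit 27) (.e (nat_lit 434244) (nat_lit 28) (.e (nat_lit 573481) (nat_lit 13) (.e (nat_lit 65568) (nat_lit 2) (.e (nat_lit 90165) (nat_lit 12) .nil))))) (.g (nat_lit 0) (.e (nat_lit 275306) (nat_lit 0) .nil) .nil))))) (.nd (nat_lit 8) (.nd (nat_lit 9) 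
(.lf (nat_lit 542880) (.g (nat_lit 3258) (.e (nat_lit 98350) (nat_lit 24) (.e (nat_lit 409647) (nat_lit 18) (.e (nat_lit 303119) (nat_lit 3) (.e (nat_lit 204866) (nat_lit 28) (.e (nat_lit 352313) (nat_lit 23) .nil))))) (.g (nat_lit 1) (.e (nat_lit 274529) (nat_lit 0) .nil) .nil))) 
(.lf (nat_lit 543392) (.g (nat_lit 2519) (.e (nat_lit 98365) (nat_lit 26) (.e (nat_lit 426325) (nat_lit 13) (.e (nat_lit 483363) (nat_lit 18) (.e (nat_lit 57688) (nat_lit 156) (.e (nat_lit 163903) (nat_lit 12) (.e (nat_lit 426434) (nat_lit 18) .nil)))))) (.g (nat_lit 1) (.e (nat_lit 275140) (nat_lit 0) .nil) .nil)))) (.nd (nat_lit 9) 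
(.lf (nat_lit 543136) (.g (nat_lit 2988) (.e (nat_lit 98359) (nat_lit 26) (.e (nat_lit 426286) (nat_lit 10) (.e (nat_lit 434245) (nat_lit 28) (.e (nat_lit 573475) (nat_lit 12) (.e (nat_lit 57572) (nat_lit 54) (.e (nat_lit 770071) (nat_lit 8) (.e (nat_lit 65569) (nat_lit 3) .nil))))))) (.g (nat_lit 1) (.e (nat_lit 274856) (nat_lit 0) .nil) .nil))) 
(.lf (nat_lit 543648) (.g (nat_lit 4705) (.e (nat_lit 98367) (nat_lit 27) (.e (nat_lit 434231) (nat_lit 23) (.e (nat_lit 532514) (nat_lit 3) (.e (nat_lit 114719) (nat_lit 23) (.e (nat_lit 98335) (nat_lit 18) (.e (nat_lit 164403) (nat_lit 256) (.e (nat_lit 57378) (nat_lit 3) .nil))))))) (.g (nat_lit 1) (.e (nat_lit 275475) (nat_lit 0) .nil) .nil)))))) 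
(.nd (nat_lit 7) (.nd (nat_lit 8) (.nd (nat_lit 9) 
(.lf (nat_lit 542816) (.g (nat_lit 1717) (.e (nat_lit 98350) (nat_lit 24) (.e (nat_lit 409623) (nat_lit 10) (.e (nat_lit 5664) (nat_lit 312) (.e (nat_lit 2679) (nat_lit 168) (.e (nat_lit 204865) (nat_lit 28) (.e (nat_lit 360192) (nat_lit 23) .nil)))))) (.g (nat_lit 1) (.e (nat_lit 274463) (nat_lit 0) .nil) .nil))) 
(.lf (nat_lit 543328) (.g (nat_lit 2510) (.e (nat_lit 98365) (nat_lit 26) (.e (nat_lit 426306) (nat_lit 12) (.e (nat_lit 475177) (nat_lit 24) (.e (nat_lit 516131) (nat_lit 3) (.e (nat_lit 221194) (nat_lit 11) (.e (nat_lit 336025) (nat_lit 3) .nil)))))) (.g (nat_lit 1) (.e (nat_lit 275076) (nat_lit 0) .nil) .nil)))) (.nd (nat_lit 9) 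
(.lf (nat_lit 543072) (.g (nat_lit 2753) (.e (nat_lit 98357) (nat_lit 26) (.e (nat_lit 426436) (nat_lit 18) (.e (nat_lit 98385) (nat_lit 32) (.e (nat_lit 475177) (nat_lit 24) (.e (nat_lit 516150) (nat_lit 9) (.e (nat_lit 426436) (nat_lit 18) .nil)))))) (.g (nat_lit 1) (.e (nat_lit 274789) (nat_lit 0) .nil) .nil))) 
(.lf (nat_lit 543584) (.g (nat_lit 2426) (.e (nat_lit 98366) (nat_lit 27) (.e (nat_lit 434248) (nat_lit 28) (.e (nat_lit 573487) (nat_lit 14) (.e (nat_lit 73753) (nat_lit 8) (.e (nat_lit 557119) (nat_lit 18) (.e (nat_lit 2798) (nat_lit 180) (.e (nat_lit 311040) (nat_lit 18) .nil))))))) (.g (nat_lit 1) (.e (nat_lit 275380) (nat_lit 0) .nil) .nil))))) (.nd (nat_lit 8) (.nd (nat_lit 9) 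
(.lf (nat_lit 542944) (.g (nat_lit 1449) (.e (nat_lit 98350) (nat_lit 24) (.e (nat_lit 409649) (nat_lit 18) (.e (nat_lit 303118) (nat_lit 3) (.e (nat_lit 204852) (nat_lit 26) .nil)))) (.g (nat_lit 0) (.e (nat_lit 274597) (nat_lit 0) .nil) .nil))) 
(.lf (nat_lit 543456) (.g (nat_lit 2024) (.e (nat_lit 98366) (nat_lit 27) (.e (nat_lit 434231) (nat_lit 23) (.e (nat_lit 532500) (nat_lit 1) (.e (nat_lit 57670) (nat_lit 152) .nil)))) (.g (nat_lit 0) (.e (nat_lit 275231) (nat_lit 0) .nil) .nil)))) (.nd (nat_lit 9) 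
(.lf (nat_lit 543200) (.g (nat_lit 2685) (.e (nat_lit 98363) (nat_lit 26) (.e (nat_lit 426318) (nat_lit 12) (.e (nat_lit 475177) (nat_lit 24) (.e (nat_lit 516129) (nat_lit 3) (.e (nat_lit 221194) (nat_lit 11) (.e (nat_lit 336026) (nat_lit 3) .nil)))))) (.g (nat_lit 1) (.e (nat_lit 274931) (nat_lit 0) .nil) .nil))) 
(.lf (nat_lit 543712) (.g (nat_lit 2160) (.e (nat_lit 98367) (nat_lit 27) (.e (nat_lit 434247) (nat_lit 28) (.e (nat_lit 573484) (nat_lit 13) (.e (nat_lit 65575) (nat_lit 5) .nil)))) (.g (nat_lit 0) (.e (nat_lit 275544) (nat_lit 0) .nil) .nil)))))))) (.nd (nat_lit 5) (.nd (nat_lit 6) (.nd (nat_lit 7) (.nd (nat_lit 8) (.nd (nat_lit 9) 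
(.lf (nat_lit 542736) (.g (nat_lit 3497) (.e (nat_lit 98349) (nat_lit 24) (.e (nat_lit 409645) (nat_lit 18) (.e (nat_lit 303117) (nat_lit 2) (.e (nat_lit 196673) (nat_lit 15) (.e (nat_lit 81954) (nat_lit 23) .nil))))) (.g (nat_lit 1) (.e (nat_lit 274369) (nat_lit 0) .nil) .nil))) 
(.lf (nat_lit 543248) (.g (nat_lit 1378) (.e (nat_lit 98365) (nat_lit 26) (.e (nat_lit 426187) (nat_lit 9) (.e (nat_lit 426428) (nat_lit 17) (.e (nat_lit 90133) (nat_lit 9) (.e (nat_lit 7936) (nat_lit 169) .nil))))) (.g (nat_lit 0) (.e (nat_lit 274993) (nat_lit 0) .nil) .nil)))) (.nd (nat_lit 9) 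
(.lf (nat_lit 542992) (.g (nat_lit 2352) (.e (nat_lit 98354) (nat_lit 26) (.e (nat_lit 426140) (nat_lit 3) (.e (nat_lit 204838) (nat_lit 20) (.e (nat_lit 114719) (nat_lit 23) (.e (nat_lit 98333) (nat_lit 18) .nil))))) (.g (nat_lit 0) (.e (nat_lit 274696) (nat_lit 0) .nil) .nil))) 
(.lf (nat_lit 543504) (.g (nat_lit 2681) (.e (nat_lit 98366) (nat_lit 27) (.e (nat_lit 434231) (nat_lit 23) (.e (nat_lit 532515) (nat_lit 3) (.e (nat_lit 114719) (nat_lit 23) (.e (nat_lit 98333) (nat_lit 18) .nil))))) (.g (nat_lit 0) (.e (nat_lit 275283) (nat_lit 0) .nil) .nil))))) (.nd (nat_lit 8) (.nd (nat_lit 9) 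
(.lf (nat_lit 542864) (.g (nat_lit 2971) (.e (nat_lit 98350) (nat_lit 24) (.e (nat_lit 409646) (nat_lit 18) (.e (nat_lit 303119) (nat_lit 3) (.e (nat_lit 204855) (nat_lit 26) (.e (nat_lit 336097) (nat_lit 9) (.e (nat_lit 336024) (nat_lit 3) .nil)))))) (.g (nat_lit 1) (.e (nat_lit 274513) (nat_lit 0) .nil) .nil))) 
(.lf (nat_lit 543376) (.g (nat_lit 964) (.e (nat_lit 98365) (nat_lit 26) (.e (nat_lit 426325) (nat_lit 13) (.e (nat_lit 483337) (nat_lit 9) (.e (nat_lit 433920) (nat_lit 1) .nil)))) (.g (nat_lit 0) (.e (nat_lit 275124) (nat_lit 0) .nil) .nil)))) (.nd (nat_lit 9) 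
(.lf (nat_lit 543120) (.g (nat_lit 3726) (.e (nat_lit 98359) (nat_lit 26) (.e (nat_lit 426286) (nat_lit 10) (.e (nat_lit 434245) (nat_lit 28) (.e (nat_lit 573469) (nat_lit 11) (.e (nat_lit 16472) (nat_lit 14) (.e (nat_lit 491538) (nat_lit 3) .nil)))))) (.g (nat_lit 1) (.e (nat_lit 274840) (nat_lit 0) .nil) .nil))) 
(.lf (nat_lit 543632) (.g (nat_lit 498) (.e (nat_lit 98367) (nat_lit 27) (.e (nat_lit 434231) (nat_lit 23) (.e (nat_lit 532514) (nat_lit 3) .nil))) (.g (nat_lit 0) (.e (nat_lit 275457) (nat_lit 0) .nil) .nil)))))) (.nd (nat_lit 7) (.nd (nat_lit 8) (.nd (nat_lit 9) 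
(.lf (nat_lit 542800) (.g (nat_lit 451) (.e (nat_lit 98350) (nat_lit 24) (.e (nat_lit 409616) (nat_lit 10) (.e (nat_lit 5628) (nat_lit 312) .nil))) (.g (nat_lit 0) (.e (nat_lit 274439) (nat_lit 0) .nil) .nil))) 
(.lf (nat_lit 543312) (.g (nat_lit 3444) (.e (nat_lit 98365) (nat_lit 26) (.e (nat_lit 426306) (nat_lit 12) (.e (nat_lit 475177) (nat_lit 24) (.e (nat_lit 516124) (nat_lit 2) (.e (nat_lit 213032) (nat_lit 11) (.e (nat_lit 24608) (nat_lit 3) .nil)))))) (.g (nat_lit 1) (.e (nat_lit 275060) (nat_lit 0) .nil) .nil)))) (.nd (nat_lit 9) 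
(.lf (nat_lit 543056) (.g (nat_lit 3491) (.e (nat_lit 98357) (nat_lit 26) (.e (nat_lit 426436) (nat_lit 18) (.e (nat_lit 98335) (nat_lit 18) (.e (nat_lit 164305) (nat_lit 226) .nil)))) (.g (nat_lit 0) (.e (nat_lit 274770) (nat_lit 0) .nil) .nil))) 
(.lf (nat_lit 543568) (.g (nat_lit 3362) (.e (nat_lit 98366) (nat_lit 27) (.e (nat_lit 434247) (nat_lit 28) (.e (nat_lit 573489) (nat_lit 14) (.e (nat_lit 73755) (nat_lit 8) (.e (nat_lit 557119) (nat_lit 18) (.e (nat_lit 2797) (nat_lit 180) (.e (nat_lit 311040) (nat_lit 18) .nil))))))) (.g (nat_lit 1) (.e (nat_lit 275361) (nat_lit 0) .nil) .nil))))) (.nd (nat_lit 8) (.nd (nat_lit 9) 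
(.lf (nat_lit 542928) (.g (nat_lit 928) (.e (nat_lit 98350) (nat_lit 24) (.e (nat_lit 409649) (nat_lit 18) (.e (nat_lit 303111) (nat_lit 0) (.e (nat_lit 3238) (nat_lit 197) .nil)))) (.g (nat_lit 0) (.e (nat_lit 274581) (nat_lit 0) .nil) .nil))) 
(.lf (nat_lit 543440) (.g (nat_lit 2370) (.e (nat_lit 98366) (nat_lit 27) (.e (nat_lit 434231) (nat_lit 23) (.e (nat_lit 532499) (nat_lit 1) (.e (nat_lit 57654) (nat_lit 152) .nil)))) (.g (nat_lit 0) (.e (nat_lit 275208) (nat_lit 0) .nil) .nil)))) (.nd (nat_lit 9) 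
(.lf (nat_lit 543184) (.g (nat_lit 2434) (.e (nat_lit 98362) (nat_lit 26) (.e (nat_lit 426329) (nat_lit 13) (.e (nat_lit 483363) (nat_lit 18) (.e (nat_lit 57686) (nat_lit 156) (.e (nat_lit 163903) (nat_lit 12) (.e (nat_lit 426438) (nat_lit 18) .nil)))))) (.g (nat_lit 1) (.e (nat_lit 274909) (nat_lit 0) .nil) .nil))) 
(.lf (nat_lit 543696) (.g (nat_lit 2024) (.e (nat_lit 98367) (nat_lit 27) (.e (nat_lit 434246) (nat_lit 28) (.e (nat_lit 573482) (nat_lit 13) (.e (nat_lit 65568) (nat_lit 2) (.e (nat_lit 98048) (nat_lit 0) .nil))))) (.g (nat_lit 0) (.e (nat_lit 275527) (nat_lit 0) .nil) .nil))))))) (.nd (nat_lit 6) (.nd (nat_lit 7) (.nd (nat_lit 8) (.nd (nat_lit 9) 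
(.lf (nat_lit 542768) (.g (nat_lit 4402) (.e (nat_lit 98349) (nat_lit 24) (.e (nat_lit 409646) (nat_lit 18) (.e (nat_lit 303119) (nat_lit 3) (.e (nat_lit 204855) (nat_lit 26) (.e (nat_lit 336099) (nat_lit 9) (.e (nat_lit 336028) (nat_lit 3) .nil)))))) (.g (nat_lit 1) (.e (nat_lit 274404) (nat_lit 0) .nil) .nil))) 
(.lf (nat_lit 543280) (.g (nat_lit 2113) (.e (nat_lit 98365) (nat_lit 26) (.e (nat_lit 426188) (nat_lit 9) (.e (nat_lit 426566) (nat_lit 34) (.e (nat_lit 393251) (nat_lit 18) (.e (nat_lit 164396) (nat_lit 256) (.e (nat_lit 57377) (nat_lit 3) .nil)))))) (.g (nat_lit 1) (.e (nat_lit 275025) (nat_lit 0) .nil) .nil)))) (.nd (nat_lit 9) 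
(.lf (nat_lit 543024) (.g (nat_lit 4098) (.e (nat_lit 98356) (nat_lit 26) (.e (nat_lit 426436) (nat_lit 18) (.e (nat_lit 98335) (nat_lit 18) (.e (nat_lit 164330) (nat_lit 230) (.e (nat_lit 163872) (nat_lit 3) (.e (nat_lit 204837) (nat_lit 20) (.e (nat_lit 114719) (nat_lit 23) .nil))))))) (.g (nat_lit 1) (.e (nat_lit 274735) (nat_lit 0) .nil) .nil))) 
(.lf (nat_lit 543536) (.g (nat_lit 4017) (.e (nat_lit 98366) (nat_lit 27) (.e (nat_lit 434244) (nat_lit 28) (.e (nat_lit 573487) (nat_lit 14) (.e (nat_lit 73753) (nat_lit 8) (.e (nat_lit 557090) (nat_lit 12) (.e (nat_lit 163844) (nat_lit 0) (.e (nat_lit 5940) (nat_lit 322) (.e (nat_lit 57379) (nat_lit 3) .nil)))))))) (.g (nat_lit 1) (.e (nat_lit 275325) (nat_lit 0) .nil) .nil))))) 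
(.nd (nat_lit 8) (.nd (nat_lit 9) 
(.lf (nat_lit 542896) (.g (nat_lit 2412) (.e (nat_lit 98350) (nat_lit 24) (.e (nat_lit 409648) (nat_lit 18) (.e (nat_lit 303117) (nat_lit 2) (.e (nat_lit 196666) (nat_lit 13) (.e (nat_lit 65599) (nat_lit 9) (.e (nat_lit 336020) (nat_lit 3) .nil)))))) (.g (nat_lit 1) (.e (nat_lit 274547) (nat_lit 0) .nil) .nil))) 
(.lf (nat_lit 543408) (.g (nat_lit 2911) (.e (nat_lit 98365) (nat_lit 26) (.e (nat_lit 426327) (nat_lit 13) (.e (nat_lit 483341) (nat_lit 9) (.e (nat_lit 426098) (nat_lit 1) (.e (nat_lit 164403) (nat_lit 256) (.e (nat_lit 57377) (nat_lit 3) .nil)))))) (.g (nat_lit 1) (.e (nat_lit 275156) (nat_lit 0) .nil) .nil)))) (.nd (nat_lit 9) 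
(.lf (nat_lit 543152) (.g (nat_lit 3891) (.e (nat_lit 98359) (nat_lit 26) (.e (nat_lit 426286) (nat_lit 10) (.e (nat_lit 434247) (nat_lit 28) (.e (nat_lit 573478) (nat_lit 12) (.e (nat_lit 57574) (nat_lit 55) (.e (nat_lit 778466) (nat_lit 11) (.e (nat_lit 24607) (nat_lit 3) .nil))))))) (.g (nat_lit 1) (.e (nat_lit 274872) (nat_lit 0) .nil) .nil))) 
(.lf (nat_lit 543664) (.g (nat_lit 468) (.e (nat_lit 98367) (nat_lit 27) (.e (nat_lit 434244) (nat_lit 28) (.e (nat_lit 573481) (nat_lit 13) .nil))) (.g (nat_lit 0) (.e (nat_lit 275494) (nat_lit 0) .nil) .nil)))))) (.nd (nat_lit 7) (.nd (nat_lit 8) (.nd (nat_lit 9) 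
(.lf (nat_lit 542832) (.g (nat_lit 1480) (.e (nat_lit 98350) (nat_lit 24) (.e (nat_lit 409645) (nat_lit 18) (.e (nat_lit 303117) (nat_lit 2) (.e (nat_lit 196668) (nat_lit 14) .nil)))) (.g (nat_lit 0) (.e (nat_lit 274481) (nat_lit 0) .nil) .nil))) 
(.lf (nat_lit 543344) (.g (nat_lit 2118) (.e (nat_lit 98365) (nat_lit 26) (.e (nat_lit 426306) (nat_lit 12) (.e (nat_lit 475179) (nat_lit 24) (.e (nat_lit 516129) (nat_lit 3) (.e (nat_lit 221192) (nat_lit 11) (.e (nat_lit 336017) (nat_lit 3) .nil)))))) (.g (nat_lit 1) (.e (nat_lit 275092) (nat_lit 0) .nil) .nil)))) (.nd (nat_lit 9) 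
(.lf (nat_lit 543088) (.g (nat_lit 2351) (.e (nat_lit 98358) (nat_lit 26) (.e (nat_lit 426320) (nat_lit 12) (.e (nat_lit 475178) (nat_lit 24) (.e (nat_lit 516127) (nat_lit 2) (.e (nat_lit 213032) (nat_lit 11) (.e (nat_lit 24609) (nat_lit 3) .nil)))))) (.g (nat_lit 1) (.e (nat_lit 274805) (nat_lit 0) .nil) .nil))) 
(.lf (nat_lit 543600) (.g (nat_lit 794) (.e (nat_lit 98367) (nat_lit 27) (.e (nat_lit 434231) (nat_lit 23) (.e (nat_lit 532490) (nat_lit 0) .nil))) (.g (nat_lit 0) (.e (nat_lit 275408) (nat_lit 0) .nil) .nil))))) (.nd (nat_lit 8) (.nd (nat_lit 9) 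
(.lf (nat_lit 542960) (.g (nat_lit 2417) (.e (nat_lit 98350) (nat_lit 24) (.e (nat_lit 409649) (nat_lit 18) (.e (nat_lit 303119) (nat_lit 3) (.e (nat_lit 204855) (nat_lit 26) (.e (nat_lit 336073) (nat_lit 9) (.e (nat_lit 336019) (nat_lit 3) .nil)))))) (.g (nat_lit 1) (.e (nat_lit 274614) (nat_lit 0) .nil) .nil))) 
(.lf (nat_lit 543472) (.g (nat_lit 3073) (.e (nat_lit 98366) (nat_lit 27) (.e (nat_lit 434231) (nat_lit 23) (.e (nat_lit 532504) (nat_lit 1) (.e (nat_lit 57692) (nat_lit 156) (.e (nat_lit 163875) (nat_lit 3) .nil))))) (.g (nat_lit 0) (.e (nat_lit 275250) (nat_lit 0) .nil) .nil)))) (.nd (nat_lit 9) 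
(.lf (nat_lit 543216) (.g (nat_lit 1730) (.e (nat_lit 98363) (nat_lit 26) (.e (nat_lit 426321) (nat_lit 13) (.e (nat_lit 483337) (nat_lit 9) (.e (nat_lit 426107) (nat_lit 1) (.e (nat_lit 164402) (nat_lit 256) .nil))))) (.g (nat_lit 0) (.e (nat_lit 274948) (nat_lit 0) .nil) .nil))) 
(.lf (nat_lit 543728) (.g (nat_lit 3461) (.e (nat_lit 98367) (nat_lit 27) (.e (nat_lit 434247) (nat_lit 28) (.e (nat_lit 573489) (nat_lit 14) (.e (nat_lit 73755) (nat_lit 8) (.e (nat_lit 557090) (nat_lit 12) (.e (nat_lit 163843) (nat_lit 0) (.e (nat_lit 5941) (nat_lit 322) (.e (nat_lit 57378) (nat_lit 3) .nil)))))))) (.g (nat_lit 1) (.e (nat_lit 275562) (nat_lit 0) .nil) .nil))))))))) 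
(.nd (nat_lit 4) (.nd (nat_lit 5) (.nd (nat_lit 6) (.nd (nat_lit 7) (.nd (nat_lit 8) 
(.nd (nat_lit 9) 
(.lf (nat_lit 542728) (.g (nat_lit 4259) (.e (nat_lit 98349) (nat_lit 24) (.e (nat_lit 409645) (nat_lit 18) (.e (nat_lit 303112) (nat_lit 0) (.e (nat_lit 3252) (nat_lit 197) (.e (nat_lit 532560) (nat_lit 14) (.e (nat_lit 376869) (nat_lit 23) .nil)))))) (.g (nat_lit 1) (.e (nat_lit 274361) (nat_lit 0) .nil) .nil))) 
(.lf (nat_lit 543240) (.g (nat_lit 831) (.e (nat_lit 98365) (nat_lit 26) (.e (nat_lit 426108) (nat_lit 1) (.e (nat_lit 164345) (nat_lit 240) .nil))) (.g (nat_lit 0) (.e (nat_lit 274984) (nat_lit 0) .nil) .nil)))) (.nd (nat_lit 9) 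
(.lf (nat_lit 542984) (.g (nat_lit 4122) (.e (nat_lit 98353) (nat_lit 25) (.e (nat_lit 417820) (nat_lit 10) (.e (nat_lit 5626) (nat_lit 312) (.e (nat_lit 2659) (nat_lit 167) .nil)))) (.g (nat_lit 0) (.e (nat_lit 274673) (nat_lit 0) .nil) .nil))) 
(.lf (nat_lit 543496) (.g (nat_lit 2308) (.e (nat_lit 98366) (nat_lit 27) (.e (nat_lit 434231) (nat_lit 23) (.e (nat_lit 532514) (nat_lit 3) (.e (nat_lit 114718) (nat_lit 23) (.e (nat_lit 98332) (nat_lit 18) .nil))))) (.g (nat_lit 0) (.e (nat_lit 275274) (nat_lit 0) .nil) .nil))))) (.nd (nat_lit 8) (.nd (nat_lit 9) 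
(.lf (nat_lit 542856) (.g (nat_lit 3303) (.e (nat_lit 98350) (nat_lit 24) (.e (nat_lit 409646) (nat_lit 18) (.e (nat_lit 303118) (nat_lit 3) (.e (nat_lit 204866) (nat_lit 28) (.e (nat_lit 352315) (nat_lit 23) .nil))))) (.g (nat_lit 1) (.e (nat_lit 274505) (nat_lit 0) .nil) .nil))) 
(.lf (nat_lit 543368) (.g (nat_lit 1419) (.e (nat_lit 98365) (nat_lit 26) (.e (nat_lit 426325) (nat_lit 13) (.e (nat_lit 483337) (nat_lit 9) (.e (nat_lit 426099) (nat_lit 1) .nil)))) (.g (nat_lit 0) (.e (nat_lit 275116) (nat_lit 0) .nil) .nil)))) (.nd (nat_lit 9) 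
(.lf (nat_lit 543112) (.g (nat_lit 4372) (.e (nat_lit 98359) (nat_lit 26) (.e (nat_lit 426043) (nat_lit 0) (.e (nat_lit 3406) (nat_lit 212) (.e (nat_lit 655375) (nat_lit 3) (.e (nat_lit 163979) (nat_lit 30) (.e (nat_lit 573493) (nat_lit 15) (.e (nat_lit 81956) (nat_lit 23) .nil))))))) (.g (nat_lit 1) (.e (nat_lit 274829) (nat_lit 0) .nil) .nil))) 
(.lf (nat_lit 543624) (.g (nat_lit 2214) (.e (nat_lit 98367) (nat_lit 27) (.e (nat_lit 434231) (nat_lit 23) (.e (nat_lit 532503) (nat_lit 1) (.e (nat_lit 57688) (nat_lit 156) .nil)))) (.g (nat_lit 0) (.e (nat_lit 275446) (nat_lit 0) .nil) .nil)))))) (.nd (nat_lit 7) (.nd (nat_lit 8) (.nd (nat_lit 9) 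
(.lf (nat_lit 542792) (.g (nat_lit 1423) (.e (nat_lit 98349) (nat_lit 24) (.e (nat_lit 409649) (nat_lit 18) (.e (nat_lit 303119) (nat_lit 3) (.e (nat_lit 204875) (nat_lit 31) .nil)))) (.g (nat_lit 0) (.e (nat_lit 274428) (nat_lit 0) .nil) .nil))) 
(.lf (nat_lit 543304) (.g (nat_lit 4029) (.e (nat_lit 98365) (nat_lit 26) (.e (nat_lit 426298) (nat_lit 11) (.e (nat_lit 458789) (nat_lit 23) (.e (nat_lit 532523) (nat_lit 7) (.e (nat_lit 319531) (nat_lit 16) (.e (nat_lit 286735) (nat_lit 3) .nil)))))) (.g (nat_lit 1) (.e (nat_lit 275052) (nat_lit 0) .nil) .nil)))) (.nd (nat_lit 9) 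
(.lf (nat_lit 543048) (.g (nat_lit 1988) (.e (nat_lit 98356) (nat_lit 26) (.e (nat_lit 426438) (nat_lit 18) (.e (nat_lit 98385) (nat_lit 32) (.e (nat_lit 475177) (nat_lit 24) (.e (nat_lit 516147) (nat_lit 9) (.e (nat_lit 426436) (nat_lit 18) .nil)))))) (.g (nat_lit 1) (.e (nat_lit 274760) (nat_lit 0) .nil) .nil))) 
(.lf (nat_lit 543560) (.g (nat_lit 1690) (.e (nat_lit 98366) (nat_lit 27) (.e (nat_lit 434247) (nat_lit 28) (.e (nat_lit 573484) (nat_lit 13) (.e (nat_lit 73472) (nat_lit 22) .nil)))) (.g (nat_lit 0) (.e (nat_lit 275353) (nat_lit 0) .nil) .nil))))) (.nd (nat_lit 8) (.nd (nat_lit 9) 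
(.lf (nat_lit 542920) (.g (nat_lit 3183) (.e (nat_lit 98350) (nat_lit 24) (.e (nat_lit 409648) (nat_lit 18) (.e (nat_lit 303119) (nat_lit 3) (.e (nat_lit 204852) (nat_lit 26) (.e (nat_lit 336130) (nat_lit 9) .nil))))) (.g (nat_lit 0) (.e (nat_lit 274571) (nat_lit 0) .nil) .nil))) 
(.lf (nat_lit 543432) (.g (nat_lit 3176) (.e (nat_lit 106240) (nat_lit 26) (.e (nat_lit 426316) (nat_lit 12) (.e (nat_lit 475185) (nat_lit 29) (.e (nat_lit 557098) (nat_lit 13) (.e (nat_lit 172124) (nat_lit 14) .nil))))) (.g (nat_lit 0) (.e (nat_lit 275181) (nat_lit 0) .nil) .nil)))) (.nd (nat_lit 9) 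
(.lf (nat_lit 543176) (.g (nat_lit 2755) (.e (nat_lit 98361) (nat_lit 26) (.e (nat_lit 426276) (nat_lit 10) (.e (nat_lit 434231) (nat_lit 23) (.e (nat_lit 532523) (nat_lit 7) (.e (nat_lit 319530) (nat_lit 16) .nil))))) (.g (nat_lit 0) (.e (nat_lit 274898) (nat_lit 0) .nil) .nil))) 
(.lf (nat_lit 543688) (.g (nat_lit 1209) (.e (nat_lit 98367) (nat_lit 27) (.e (nat_lit 434245) (nat_lit 28) (.e (nat_lit 573487) (nat_lit 14) (.e (nat_lit 81664) (nat_lit 5) .nil)))) (.g (nat_lit 0) (.e (nat_lit 275518) (nat_lit 0) .nil) .nil))))))) (.nd (nat_lit 6) (.nd (nat_lit 7) (.nd (nat_lit 8) (.nd (nat_lit 9) 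
(.lf (nat_lit 542760) (.g (nat_lit 2117) (.e (nat_lit 98349) (nat_lit 24) (.e (nat_lit 409646) (nat_lit 18) (.e (nat_lit 303117) (nat_lit 2) (.e (nat_lit 196681) (nat_lit 17) (.e (nat_lit 131105) (nat_lit 9) .nil))))) (.g (nat_lit 0) (.e (nat_lit 274396) (nat_lit 0) .nil) .nil))) 
(.lf (nat_lit 543272) (.g (nat_lit 3278) (.e (nat_lit 98365) (nat_lit 26) (.e (nat_lit 426188) (nat_lit 9) (.e (nat_lit 426438) (nat_lit 18) (.e (nat_lit 98337) (nat_lit 19) (.e (nat_lit 213032) (nat_lit 11) (.e (nat_lit 24608) (nat_lit 3) .nil)))))) (.g (nat_lit 1) (.e (nat_lit 275017) (nat_lit 0) .nil) .nil)))) (.nd (nat_lit 9) 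
(.lf (nat_lit 543016) (.g (nat_lit 1074) (.e (nat_lit 98356) (nat_lit 26) (.e (nat_lit 426436) (nat_lit 18) (.e (nat_lit 98334) (nat_lit 18) (.e (nat_lit 164305) (nat_lit 226) .nil)))) (.g (nat_lit 0) (.e (nat_lit 274726) (nat_lit 0) .nil) .nil))) 
(.lf (nat_lit 543528) (.g (nat_lit 1857) (.e (nat_lit 98366) (nat_lit 27) (.e (nat_lit 434244) (nat_lit 28) (.e (nat_lit 573487) (nat_lit 14) (.e (nat_lit 73750) (nat_lit 6) .nil)))) (.g (nat_lit 0) (.e (nat_lit 275315) (nat_lit 0) .nil) .nil))))) (.nd (nat_lit 8) (.nd (nat_lit 9) 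
(.lf (nat_lit 542888) (.g (nat_lit 3242) (.e (nat_lit 98350) (nat_lit 24) (.e (nat_lit 409648) (nat_lit 18) (.e (nat_lit 303117) (nat_lit 2) (.e (nat_lit 196661) (nat_lit 12) (.e (nat_lit 57711) (nat_lit 176) (.e (nat_lit 2777) (nat_lit 178) (.e (nat_lit 286735) (nat_lit 3) .nil))))))) (.g (nat_lit 1) (.e (nat_lit 274539) (nat_lit 0) .nil) .nil))) 
(.lf (nat_lit 543400) (.g (nat_lit 2651) (.e (nat_lit 98365) (nat_lit 26) (.e (nat_lit 426325) (nat_lit 13) (.e (nat_lit 483363) (nat_lit 18) (.e (nat_lit 57692) (nat_lit 156) (.e (nat_lit 163907) (nat_lit 12) (.e (nat_lit 433920) (nat_lit 18) .nil)))))) (.g (nat_lit 1) (.e (nat_lit 275148) (nat_lit 0) .nil) .nil)))) (.nd (nat_lit 9) 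
(.lf (nat_lit 543144) (.g (nat_lit 3591) (.e (nat_lit 98359) (nat_lit 26) (.e (nat_lit 426286) (nat_lit 10) (.e (nat_lit 434247) (nat_lit 28) (.e (nat_lit 573477) (nat_lit 12) (.e (nat_lit 57574) (nat_lit 55) (.e (nat_lit 778466) (nat_lit 11) (.e (nat_lit 32512) (nat_lit 3) .nil))))))) (.g (nat_lit 1) (.e (nat_lit 274864) (nat_lit 0) .nil) .nil))) 
(.lf (nat_lit 543656) (.g (nat_lit 3934) (.e (nat_lit 98367) (nat_lit 27) (.e (nat_lit 434232) (nat_lit 23) (.e (nat_lit 532499) (nat_lit 1) (.e (nat_lit 57688) (nat_lit 156) (.e (nat_lit 163874) (nat_lit 3) (.e (nat_lit 204838) (nat_lit 20) (.e (nat_lit 114719) (nat_lit 23) .nil))))))) (.g (nat_lit 1) (.e (nat_lit 275484) (nat_lit 0) .nil) .nil)))))) 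
(.nd (nat_lit 7) (.nd (nat_lit 8) (.nd (nat_lit 9) 
(.lf (nat_lit 542824) (.g (nat_lit 2663) (.e (nat_lit 98350) (nat_lit 24) (.e (nat_lit 409643) (nat_lit 18) (.e (nat_lit 303119) (nat_lit 3) (.e (nat_lit 204866) (nat_lit 28) (.e (nat_lit 352314) (nat_lit 23) .nil))))) (.g (nat_lit 1) (.e (nat_lit 274472) (nat_lit 0) .nil) .nil))) 
(.lf (nat_lit 543336) (.g (nat_lit 3213) (.e (nat_lit 98365) (nat_lit 26) (.e (nat_lit 426306) (nat_lit 12) (.e (nat_lit 475179) (nat_lit 24) (.e (nat_lit 516122) (nat_lit 2) (.e (nat_lit 213032) (nat_lit 11) (.e (nat_lit 24608) (nat_lit 3) .nil)))))) (.g (nat_lit 1) (.e (nat_lit 275084) (nat_lit 0) .nil) .nil)))) (.nd (nat_lit 9) 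
(.lf (nat_lit 543080) (.g (nat_lit 3261) (.e (nat_lit 98358) (nat_lit 26) (.e (nat_lit 426131) (nat_lit 3) (.e (nat_lit 204838) (nat_lit 20) (.e (nat_lit 114716) (nat_lit 22) (.e (nat_lit 90140) (nat_lit 9) (.e (nat_lit 2610) (nat_lit 163) (.e (nat_lit 164403) (nat_lit 256) (.e (nat_lit 57378) (nat_lit 3) .nil)))))))) (.g (nat_lit 1) (.e (nat_lit 274797) (nat_lit 0) .nil) .nil))) 
(.lf (nat_lit 543592) (.g (nat_lit 3687) (.e (nat_lit 98366) (nat_lit 27) (.e (nat_lit 434248) (nat_lit 28) (.e (nat_lit 573489) (nat_lit 14) (.e (nat_lit 73755) (nat_lit 8) (.e (nat_lit 557091) (nat_lit 12) (.e (nat_lit 163840) (nat_lit 0) (.e (nat_lit 5939) (nat_lit 322) (.e (nat_lit 57379) (nat_lit 3) .nil)))))))) (.g (nat_lit 1) (.e (nat_lit 275389) (nat_lit 0) .nil) .nil))))) 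
(.nd (nat_lit 8) (.nd (nat_lit 9) 
(.lf (nat_lit 542952) (.g (nat_lit 2632) (.e (nat_lit 98350) (nat_lit 24) (.e (nat_lit 409649) (nat_lit 18) (.e (nat_lit 303118) (nat_lit 3) (.e (nat_lit 204855) (nat_lit 26) (.e (nat_lit 336102) (nat_lit 9) (.e (nat_lit 336022) (nat_lit 3) .nil)))))) (.g (nat_lit 1) (.e (nat_lit 274606) (nat_lit 0) .nil) .nil))) 
(.lf (nat_lit 543464) (.g (nat_lit 3724) (.e (nat_lit 98366) (nat_lit 27) (.e (nat_lit 434231) (nat_lit 23) (.e (nat_lit 532502) (nat_lit 1) (.e (nat_lit 57688) (nat_lit 156) (.e (nat_lit 163873) (nat_lit 3) (.e (nat_lit 204838) (nat_lit 20) (.e (nat_lit 114719) (nat_lit 23) .nil))))))) (.g (nat_lit 1) (.e (nat_lit 275242) (nat_lit 0) .nil) .nil)))) (.nd (nat_lit 9) 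
(.lf (nat_lit 543208) (.g (nat_lit 2752) (.e (nat_lit 98363) (nat_lit 26) (.e (nat_lit 426318) (nat_lit 12) (.e (nat_lit 475179) (nat_lit 24) (.e (nat_lit 516131) (nat_lit 3) (.e (nat_lit 221193) (nat_lit 11) (.e (nat_lit 336027) (nat_lit 3) .nil)))))) (.g (nat_lit 1) (.e (nat_lit 274940) (nat_lit 0) .nil) .nil))) 
(.lf (nat_lit 543720) (.g (nat_lit 2345) (.e (nat_lit 98367) (nat_lit 27) (.e (nat_lit 434247) (nat_lit 28) (.e (nat_lit 573489) (nat_lit 14) (.e (nat_lit 73757) (nat_lit 11) (.e (nat_lit 581649) (nat_lit 4) (.e (nat_lit 179968) (nat_lit 18) .nil)))))) (.g (nat_lit 1) (.e (nat_lit 275552) (nat_lit 0) .nil) .nil)))))))) 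
(.nd (nat_lit 5) (.nd (nat_lit 6) (.nd (nat_lit 7) (.nd (nat_lit 8) (.nd (nat_lit 9) 
(.lf (nat_lit 542744) (.g (nat_lit 2833) (.e (nat_lit 98349) (nat_lit 24) (.e (nat_lit 409645) (nat_lit 18) (.e (nat_lit 303119) (nat_lit 3) (.e (nat_lit 204855) (nat_lit 26) (.e (nat_lit 336097) (nat_lit 9) (.e (nat_lit 336020) (nat_lit 3) .nil)))))) (.g (nat_lit 1) (.e (nat_lit 274377) (nat_lit 0) .nil) .nil))) 
(.lf (nat_lit 543256) (.g (nat_lit 1455) (.e (nat_lit 98365) (nat_lit 26) (.e (nat_lit 426187) (nat_lit 9) (.e (nat_lit 426568) (nat_lit 34) (.e (nat_lit 393250) (nat_lit 18) .nil)))) (.g (nat_lit 0) (.e (nat_lit 275001) (nat_lit 0) .nil) .nil)))) (.nd (nat_lit 9) 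
(.lf (nat_lit 543000) (.g (nat_lit 1515) (.e (nat_lit 98354) (nat_lit 26) (.e (nat_lit 426317) (nat_lit 12) (.e (nat_lit 475185) (nat_lit 29) (.e (nat_lit 557103) (nat_lit 14) (.e (nat_lit 188160) (nat_lit 32) .nil))))) (.g (nat_lit 0) (.e (nat_lit 274705) (nat_lit 0) .nil) .nil))) 
(.lf (nat_lit 543512) (.g (nat_lit 601) (.e (nat_lit 98366) (nat_lit 27) (.e (nat_lit 434244) (nat_lit 28) (.e (nat_lit 573480) (nat_lit 13) .nil))) (.g (nat_lit 0) (.e (nat_lit 275296) (nat_lit 0) .nil) .nil))))) (.nd (nat_lit 8) (.nd (nat_lit 9) 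
(.lf (nat_lit 542872) (.g (nat_lit 4106) (.e (nat_lit 98350) (nat_lit 24) (.e (nat_lit 409647) (nat_lit 18) (.e (nat_lit 303118) (nat_lit 3) (.e (nat_lit 204855) (nat_lit 26) (.e (nat_lit 336099) (nat_lit 9) (.e (nat_lit 336028) (nat_lit 3) .nil)))))) (.g (nat_lit 1) (.e (nat_lit 274521) (nat_lit 0) .nil) .nil))) 
(.lf (nat_lit 543384) (.g (nat_lit 2963) (.e (nat_lit 98365) (nat_lit 26) (.e (nat_lit 426325) (nat_lit 13) (.e (nat_lit 483341) (nat_lit 9) (.e (nat_lit 426098) (nat_lit 1) (.e (nat_lit 164403) (nat_lit 256) (.e (nat_lit 57377) (nat_lit 3) .nil)))))) (.g (nat_lit 1) (.e (nat_lit 275132) (nat_lit 0) .nil) .nil)))) (.nd (nat_lit 9) 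
(.lf (nat_lit 543128) (.g (nat_lit 2732) (.e (nat_lit 98359) (nat_lit 26) (.e (nat_lit 426286) (nat_lit 10) (.e (nat_lit 434245) (nat_lit 28) (.e (nat_lit 573474) (nat_lit 12) (.e (nat_lit 57347) (nat_lit 0) (.e (nat_lit 7265) (nat_lit 384) (.e (nat_lit 57406) (nat_lit 12) (.e (nat_lit 336018) (nat_lit 3) .nil)))))))) (.g (nat_lit 1) (.e (nat_lit 274848) (nat_lit 0) .nil) .nil))) 
(.lf (nat_lit 543640) (.g (nat_lit 2275) (.e (nat_lit 98367) (nat_lit 27) (.e (nat_lit 434231) (nat_lit 23) (.e (nat_lit 532514) (nat_lit 3) (.e (nat_lit 114719) (nat_lit 23) (.e (nat_lit 98325) (nat_lit 17) (.e (nat_lit 2458) (nat_lit 157) (.e (nat_lit 5935) (nat_lit 322) (.e (nat_lit 57379) (nat_lit 3) .nil)))))))) (.g (nat_lit 1) (.e (nat_lit 275467) (nat_lit 0) .nil) .nil)))))) 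
(.nd (nat_lit 7) (.nd (nat_lit 8) (.nd (nat_lit 9) 
(.lf (nat_lit 542808) (.g (nat_lit 351) (.e (nat_lit 98350) (nat_lit 24) (.e (nat_lit 409616) (nat_lit 10) (.e (nat_lit 7936) (nat_lit 315) .nil))) (.g (nat_lit 0) (.e (nat_lit 274450) (nat_lit 0) .nil) .nil))) 
(.lf (nat_lit 543320) (.g (nat_lit 2605) (.e (nat_lit 98365) (nat_lit 26) (.e (nat_lit 426306) (nat_lit 12) (.e (nat_lit 475177) (nat_lit 24) (.e (nat_lit 516127) (nat_lit 2) (.e (nat_lit 213030) (nat_lit 11) (.e (nat_lit 24609) (nat_lit 3) .nil)))))) (.g (nat_lit 1) (.e (nat_lit 275068) (nat_lit 0) .nil) .nil)))) (.nd (nat_lit 9) 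
(.lf (nat_lit 543064) (.g (nat_lit 2034) (.e (nat_lit 98357) (nat_lit 26) (.e (nat_lit 426436) (nat_lit 18) (.e (nat_lit 98357) (nat_lit 26) (.e (nat_lit 426436) (nat_lit 18) (.e (nat_lit 98358) (nat_lit 26) (.e (nat_lit 426438) (nat_lit 18) .nil)))))) (.g (nat_lit 1) (.e (nat_lit 274779) (nat_lit 0) .nil) .nil))) 
(.lf (nat_lit 543576) (.g (nat_lit 2707) (.e (nat_lit 98366) (nat_lit 27) (.e (nat_lit 434248) (nat_lit 28) (.e (nat_lit 573482) (nat_lit 13) (.e (nat_lit 65644) (nat_lit 22) (.e (nat_lit 245775) (nat_lit 4) (.e (nat_lit 179968) (nat_lit 18) .nil)))))) (.g (nat_lit 1) (.e (nat_lit 275371) (nat_lit 0) .nil) .nil))))) (.nd (nat_lit 8) (.nd (nat_lit 9) 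
(.lf (nat_lit 542936) (.g (nat_lit 3214) (.e (nat_lit 98350) (nat_lit 24) (.e (nat_lit 409649) (nat_lit 18) (.e (nat_lit 303117) (nat_lit 2) (.e (nat_lit 196666) (nat_lit 13) (.e (nat_lit 65592) (nat_lit 9) .nil))))) (.g (nat_lit 0) (.e (nat_lit 274589) (nat_lit 0) .nil) .nil))) 
(.lf (nat_lit 543448) (.g (nat_lit 3191) (.e (nat_lit 98366) (nat_lit 27) (.e (nat_lit 434231) (nat_lit 23) (.e (nat_lit 532499) (nat_lit 1) (.e (nat_lit 57691) (nat_lit 156) (.e (nat_lit 163874) (nat_lit 3) (.e (nat_lit 204838) (nat_lit 20) (.e (nat_lit 114719) (nat_lit 23) .nil))))))) (.g (nat_lit 1) (.e (nat_lit 275220) (nat_lit 0) .nil) .nil)))) (.nd (nat_lit 9) 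
(.lf (nat_lit 543192) (.g (nat_lit 3575) (.e (nat_lit 98363) (nat_lit 26) (.e (nat_lit 426230) (nat_lit 9) (.e (nat_lit 426129) (nat_lit 3) (.e (nat_lit 204846) (nat_lit 24) (.e (nat_lit 319534) (nat_lit 16) (.e (nat_lit 286735) (nat_lit 3) .nil)))))) (.g (nat_lit 1) (.e (nat_lit 274921) (nat_lit 0) .nil) .nil))) 
(.lf (nat_lit 543704) (.g (nat_lit 3043) (.e (nat_lit 98367) (nat_lit 27) (.e (nat_lit 434246) (nat_lit 28) (.e (nat_lit 573489) (nat_lit 14) (.e (nat_lit 73755) (nat_lit 8) (.e (nat_lit 557090) (nat_lit 12) (.e (nat_lit 163841) (nat_lit 0) (.e (nat_lit 5943) (nat_lit 322) (.e (nat_lit 57379) (nat_lit 3) .nil)))))))) (.g (nat_lit 1) (.e (nat_lit 275535) (nat_lit 0) .nil) .nil))))))) 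
(.nd (nat_lit 6) (.nd (nat_lit 7) (.nd (nat_lit 8) (.nd (nat_lit 9) 
(.lf (nat_lit 542776) (.g (nat_lit 2645) (.e (nat_lit 98349) (nat_lit 24) (.e (nat_lit 409648) (nat_lit 18) (.e (nat_lit 303117) (nat_lit 2) (.e (nat_lit 196666) (nat_lit 13) (.e (nat_lit 65596) (nat_lit 9) .nil))))) (.g (nat_lit 0) (.e (nat_lit 274412) (nat_lit 0) .nil) .nil))) 
(.lf (nat_lit 543288) (.g (nat_lit 2652) (.e (nat_lit 98365) (nat_lit 26) (.e (nat_lit 426188) (nat_lit 9) (.e (nat_lit 426568) (nat_lit 34) (.e (nat_lit 393251) (nat_lit 18) (.e (nat_lit 164403) (nat_lit 256) (.e (nat_lit 57378) (nat_lit 3) .nil)))))) (.g (nat_lit 1) (.e (nat_lit 275033) (nat_lit 0) .nil) .nil)))) (.nd (nat_lit 9) 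
(.lf (nat_lit 543032) (.g (nat_lit 3913) (.e (nat_lit 98356) (nat_lit 26) (.e (nat_lit 426438) (nat_lit 18) (.e (nat_lit 98333) (nat_lit 18) (.e (nat_lit 164327) (nat_lit 230) (.e (nat_lit 163875) (nat_lit 3) (.e (nat_lit 204838) (nat_lit 20) (.e (nat_lit 114719) (nat_lit 23) .nil))))))) (.g (nat_lit 1) (.e (nat_lit 274744) (nat_lit 0) .nil) .nil))) 
(.lf (nat_lit 543544) (.g (nat_lit 3560) (.e (nat_lit 98366) (nat_lit 27) (.e (nat_lit 434244) (nat_lit 28) (.e (nat_lit 573488) (nat_lit 14) (.e (nat_lit 73755) (nat_lit 8) (.e (nat_lit 557119) (nat_lit 18) (.e (nat_lit 2797) (nat_lit 180) (.e (nat_lit 311040) (nat_lit 18) .nil))))))) (.g (nat_lit 1) (.e (nat_lit 275334) (nat_lit 0) .nil) .nil))))) (.nd (nat_lit 8) (.nd (nat_lit 9) 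
(.lf (nat_lit 542904) (.g (nat_lit 2885) (.e (nat_lit 98350) (nat_lit 24) (.e (nat_lit 409648) (nat_lit 18) (.e (nat_lit 303117) (nat_lit 2) (.e (nat_lit 196670) (nat_lit 14) (.e (nat_lit 73784) (nat_lit 40) .nil))))) (.g (nat_lit 0) (.e (nat_lit 274555) (nat_lit 0) .nil) .nil))) 
(.lf (nat_lit 543416) (.g (nat_lit 2955) (.e (nat_lit 98365) (nat_lit 26) (.e (nat_lit 426342) (nat_lit 14) (.e (nat_lit 491535) (nat_lit 2) (.e (nat_lit 90170) (nat_lit 13) (.e (nat_lit 172126) (nat_lit 14) (.e (nat_lit 491540) (nat_lit 3) .nil)))))) (.g (nat_lit 1) (.e (nat_lit 275164) (nat_lit 0) .nil) .nil)))) (.nd (nat_lit 9) 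
(.lf (nat_lit 543160) (.g (nat_lit 3974) (.e (nat_lit 98359) (nat_lit 26) (.e (nat_lit 426286) (nat_lit 10) (.e (nat_lit 434248) (nat_lit 28) (.e (nat_lit 573474) (nat_lit 12) (.e (nat_lit 57572) (nat_lit 54) (.e (nat_lit 770071) (nat_lit 8) (.e (nat_lit 65569) (nat_lit 3) .nil))))))) (.g (nat_lit 1) (.e (nat_lit 274880) (nat_lit 0) .nil) .nil))) 
(.lf (nat_lit 543672) (.g (nat_lit 3787) (.e (nat_lit 98367) (nat_lit 27) (.e (nat_lit 434244) (nat_lit 28) (.e (nat_lit 573487) (nat_lit 14) (.e (nat_lit 73753) (nat_lit 8) (.e (nat_lit 557090) (nat_lit 12) (.e (nat_lit 163844) (nat_lit 0) (.e (nat_lit 5943) (nat_lit 322) (.e (nat_lit 57379) (nat_lit 3) .nil)))))))) (.g (nat_lit 1) (.e (nat_lit 275502) (nat_lit 0) .nil) .nil)))))) 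
(.nd (nat_lit 7) (.nd (nat_lit 8) (.nd (nat_lit 9) 
(.lf (nat_lit 542840) (.g (nat_lit 3763) (.e (nat_lit 98350) (nat_lit 24) (.e (nat_lit 409645) (nat_lit 18) (.e (nat_lit 303119) (nat_lit 3) (.e (nat_lit 204866) (nat_lit 28) (.e (nat_lit 352314) (nat_lit 23) .nil))))) (.g (nat_lit 1) (.e (nat_lit 274489) (nat_lit 0) .nil) .nil))) 
(.lf (nat_lit 543352) (.g (nat_lit 1835) (.e (nat_lit 98365) (nat_lit 26) (.e (nat_lit 426307) (nat_lit 12) (.e (nat_lit 475177) (nat_lit 24) (.e (nat_lit 516127) (nat_lit 2) (.e (nat_lit 213030) (nat_lit 11) (.e (nat_lit 24609) (nat_lit 3) .nil)))))) (.g (nat_lit 1) (.e (nat_lit 275100) (nat_lit 0) .nil) .nil)))) (.nd (nat_lit 9) 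
(.lf (nat_lit 543096) (.g (nat_lit 3451) (.e (nat_lit 98358) (nat_lit 26) (.e (nat_lit 426323) (nat_lit 13) (.e (nat_lit 483363) (nat_lit 18) (.e (nat_lit 57688) (nat_lit 156) (.e (nat_lit 163903) (nat_lit 12) (.e (nat_lit 426438) (nat_lit 18) .nil)))))) (.g (nat_lit 1) (.e (nat_lit 274813) (nat_lit 0) .nil) .nil))) 
(.lf (nat_lit 543608) (.g (nat_lit 1946) (.e (nat_lit 98367) (nat_lit 27) (.e (nat_lit 434231) (nat_lit 23) (.e (nat_lit 532499) (nat_lit 1) (.e (nat_lit 57689) (nat_lit 156) .nil)))) (.g (nat_lit 0) (.e (nat_lit 275425) (nat_lit 0) .nil) .nil))))) (.nd (nat_lit 8) (.nd (nat_lit 9) 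
(.lf (nat_lit 542968) (.g (nat_lit 515) (.e (nat_lit 106240) (nat_lit 24) (.e (nat_lit 409649) (nat_lit 18) (.e (nat_lit 303117) (nat_lit 2) .nil))) (.g (nat_lit 0) (.e (nat_lit 274636) (nat_lit 0) .nil) .nil))) 
(.lf (nat_lit 543480) (.g (nat_lit 2403) (.e (nat_lit 98366) (nat_lit 27) (.e (nat_lit 434231) (nat_lit 23) (.e (nat_lit 532513) (nat_lit 3) (.e (nat_lit 114714) (nat_lit 22) (.e (nat_lit 90181) (nat_lit 16) .nil))))) (.g (nat_lit 0) (.e (nat_lit 275258) (nat_lit 0) .nil) .nil)))) (.nd (nat_lit 9) 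
(.lf (nat_lit 543224) (.g (nat_lit 1485) (.e (nat_lit 98363) (nat_lit 26) (.e (nat_lit 426321) (nat_lit 13) (.e (nat_lit 483365) (nat_lit 18) (.e (nat_lit 57692) (nat_lit 156) (.e (nat_lit 163905) (nat_lit 12) .nil))))) (.g (nat_lit 0) (.e (nat_lit 274956) (nat_lit 0) .nil) .nil))) 
(.lf (nat_lit 543736) (.g (nat_lit 4176) (.e (nat_lit 98367) (nat_lit 27) (.e (nat_lit 434247) (nat_lit 28) (.e (nat_lit 573489) (nat_lit 14) (.e (nat_lit 73755) (nat_lit 8) (.e (nat_lit 557119) (nat_lit 18) (.e (nat_lit 2798) (nat_lit 180) (.e (nat_lit 311040) (nat_lit 18) .nil))))))) (.g (nat_lit 1) (.e (nat_lit 275571) (nat_lit 0) .nil) .nil)))))))))) 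
(.nd (nat_lit 3) (.nd (nat_lit 4) (.nd (nat_lit 5) (.nd (nat_lit 6) (.nd (nat_lit 7) 
(.nd (nat_lit 8) (.nd (nat_lit 9) 
(.lf (nat_lit 542724) (.g (nat_lit 3918) (.e (nat_lit 98349) (nat_lit 24) (.e (nat_lit 409644) (nat_lit 18) (.e (nat_lit 303119) (nat_lit 3) (.e (nat_lit 204866) (nat_lit 28) (.e (nat_lit 352313) (nat_lit 23) .nil))))) (.g (nat_lit 1) (.e (nat_lit 274356) (nat_lit 0) .nil) .nil))) 
(.lf (nat_lit 543236) (.g (nat_lit 3085) (.e (nat_lit 98365) (nat_lit 26) (.e (nat_lit 426100) (nat_lit 1) (.e (nat_lit 164332) (nat_lit 230) (.e (nat_lit 163874) (nat_lit 3) (.e (nat_lit 204831) (nat_lit 18) (.e (nat_lit 57908) (nat_lit 278) (.e (nat_lit 2553) (nat_lit 159) (.e (nat_lit 24608) (nat_lit 3) .nil)))))))) (.g (nat_lit 1) (.e (nat_lit 274976) (nat_lit 0) .nil) .nil)))) 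
(.nd (nat_lit 9) 
(.lf (nat_lit 542980) (.g (nat_lit 2923) (.e (nat_lit 98353) (nat_lit 25) (.e (nat_lit 417813) (nat_lit 9) (.e (nat_lit 311315) (nat_lit 3) (.e (nat_lit 204846) (nat_lit 24) (.e (nat_lit 319533) (nat_lit 16) (.e (nat_lit 286735) (nat_lit 3) .nil)))))) (.g (nat_lit 1) (.e (nat_lit 274666) (nat_lit 0) .nil) .nil))) 
(.lf (nat_lit 543492) (.g (nat_lit 2017) (.e (nat_lit 98366) (nat_lit 27) (.e (nat_lit 434231) (nat_lit 23) (.e (nat_lit 532514) (nat_lit 3) (.e (nat_lit 114716) (nat_lit 22) (.e (nat_lit 90140) (nat_lit 9) .nil))))) (.g (nat_lit 0) (.e (nat_lit 275270) (nat_lit 0) .nil) .nil))))) (.nd (nat_lit 8) (.nd (nat_lit 9) 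
(.lf (nat_lit 542852) (.g (nat_lit 1307) (.e (nat_lit 98350) (nat_lit 24) (.e (nat_lit 409646) (nat_lit 18) (.e (nat_lit 303118) (nat_lit 3) (.e (nat_lit 204855) (nat_lit 26) .nil)))) (.g (nat_lit 0) (.e (nat_lit 274501) (nat_lit 0) .nil) .nil))) 
(.lf (nat_lit 543364) (.g (nat_lit 1653) (.e (nat_lit 98365) (nat_lit 26) (.e (nat_lit 426325) (nat_lit 13) (.e (nat_lit 483337) (nat_lit 9) (.e (nat_lit 426016) (nat_lit 0) .nil)))) (.g (nat_lit 0) (.e (nat_lit 275112) (nat_lit 0) .nil) .nil)))) (.nd (nat_lit 9) 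
(.lf (nat_lit 543108) (.g (nat_lit 1777) (.e (nat_lit 98358) (nat_lit 26) (.e (nat_lit 426438) (nat_lit 18) (.e (nat_lit 98356) (nat_lit 26) (.e (nat_lit 426428) (nat_lit 17) (.e (nat_lit 90133) (nat_lit 9) (.e (nat_lit 2902) (nat_lit 184) (.e (nat_lit 426435) (nat_lit 18) .nil))))))) (.g (nat_lit 1) (.e (nat_lit 274825) (nat_lit 0) .nil) .nil))) 
(.lf (nat_lit 543620) (.g (nat_lit 4489) (.e (nat_lit 98367) (nat_lit 27) (.e (nat_lit 434231) (nat_lit 23) (.e (nat_lit 532500) (nat_lit 1) (.e (nat_lit 57692) (nat_lit 156) (.e (nat_lit 163875) (nat_lit 3) (.e (nat_lit 204838) (nat_lit 20) (.e (nat_lit 114718) (nat_lit 23) .nil))))))) (.g (nat_lit 1) (.e (nat_lit 275442) (nat_lit 0) .nil) .nil)))))) 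
(.nd (nat_lit 7) (.nd (nat_lit 8) (.nd (nat_lit 9) 
(.lf (nat_lit 542788) (.g (nat_lit 1241) (.e (nat_lit 98349) (nat_lit 24) (.e (nat_lit 409649) (nat_lit 18) (.e (nat_lit 303117) (nat_lit 2) (.e (nat_lit 196674) (nat_lit 15) .nil)))) (.g (nat_lit 0) (.e (nat_lit 274424) (nat_lit 0) .nil) .nil))) 
(.lf (nat_lit 543300) (.g (nat_lit 2928) (.e (nat_lit 98365) (nat_lit 26) (.e (nat_lit 426287) (nat_lit 10) (.e (nat_lit 434245) (nat_lit 28) (.e (nat_lit 573474) (nat_lit 12) (.e (nat_lit 57574) (nat_lit 55) (.e (nat_lit 778466) (nat_lit 11) (.e (nat_lit 24608) (nat_lit 3) .nil))))))) (.g (nat_lit 1) (.e (nat_lit 275045) (nat_lit 0) .nil) .nil)))) (.nd (nat_lit 9) 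
(.lf (nat_lit 543044) (.g (nat_lit 2327) (.e (nat_lit 98356) (nat_lit 26) (.e (nat_lit 426438) (nat_lit 18) (.e (nat_lit 98356) (nat_lit 26) (.e (nat_lit 426428) (nat_lit 17) (.e (nat_lit 90133) (nat_lit 9) (.e (nat_lit 2902) (nat_lit 184) (.e (nat_lit 426435) (nat_lit 18) .nil))))))) (.g (nat_lit 1) (.e (nat_lit 274756) (nat_lit 0) .nil) .nil))) 
(.lf (nat_lit 543556) (.g (nat_lit 1708) (.e (nat_lit 98366) (nat_lit 27) (.e (nat_lit 434247) (nat_lit 28) (.e (nat_lit 573484) (nat_lit 13) (.e (nat_lit 65566) (nat_lit 2) .nil)))) (.g (nat_lit 0) (.e (nat_lit 275349) (nat_lit 0) .nil) .nil))))) (.nd (nat_lit 8) (.nd (nat_lit 9) 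
(.lf (nat_lit 542916) (.g (nat_lit 3945) (.e (nat_lit 98350) (nat_lit 24) (.e (nat_lit 409648) (nat_lit 18) (.e (nat_lit 303118) (nat_lit 3) (.e (nat_lit 204855) (nat_lit 26) (.e (nat_lit 336099) (nat_lit 9) (.e (nat_lit 336028) (nat_lit 3) .nil)))))) (.g (nat_lit 1) (.e (nat_lit 274567) (nat_lit 0) .nil) .nil))) 
(.lf (nat_lit 543428) (.g (nat_lit 1996) (.e (nat_lit 106240) (nat_lit 26) (.e (nat_lit 426286) (nat_lit 10) (.e (nat_lit 434248) (nat_lit 28) (.e (nat_lit 573475) (nat_lit 12) (.e (nat_lit 57574) (nat_lit 55) .nil))))) (.g (nat_lit 0) (.e (nat_lit 275177) (nat_lit 0) .nil) .nil)))) (.nd (nat_lit 9) 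
(.lf (nat_lit 543172) (.g (nat_lit 940) (.e (nat_lit 98360) (nat_lit 26) (.e (nat_lit 426284) (nat_lit 10) (.e (nat_lit 434231) (nat_lit 23) (.e (nat_lit 532523) (nat_lit 7) .nil)))) (.g (nat_lit 0) (.e (nat_lit 274893) (nat_lit 0) .nil) .nil))) 
(.lf (nat_lit 543684) (.g (nat_lit 2882) (.e (nat_lit 98367) (nat_lit 27) (.e (nat_lit 434244) (nat_lit 28) (.e (nat_lit 573488) (nat_lit 14) (.e (nat_lit 73755) (nat_lit 8) (.e (nat_lit 557119) (nat_lit 18) (.e (nat_lit 2797) (nat_lit 180) (.e (nat_lit 311040) (nat_lit 18) .nil))))))) (.g (nat_lit 1) (.e (nat_lit 275514) (nat_lit 0) .nil) .nil))))))) 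
(.nd (nat_lit 6) (.nd (nat_lit 7) (.nd (nat_lit 8) (.nd (nat_lit 9) 
(.lf (nat_lit 542756) (.g (nat_lit 4257) (.e (nat_lit 98349) (nat_lit 24) (.e (nat_lit 409646) (nat_lit 18) (.e (nat_lit 303117) (nat_lit 2) (.e (nat_lit 196672) (nat_lit 15) (.e (nat_lit 81954) (nat_lit 23) .nil))))) (.g (nat_lit 1) (.e (nat_lit 274392) (nat_lit 0) .nil) .nil))) 
(.lf (nat_lit 543268) (.g (nat_lit 3344) (.e (nat_lit 98365) (nat_lit 26) (.e (nat_lit 426188) (nat_lit 9) (.e (nat_lit 426436) (nat_lit 18) (.e (nat_lit 98339) (nat_lit 19) (.e (nat_lit 213030) (nat_lit 11) (.e (nat_lit 24608) (nat_lit 3) .nil)))))) (.g (nat_lit 1) (.e (nat_lit 275013) (nat_lit 0) .nil) .nil)))) (.nd (nat_lit 9) 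
(.lf (nat_lit 543012) (.g (nat_lit 1324) (.e (nat_lit 98355) (nat_lit 26) (.e (nat_lit 426323) (nat_lit 13) (.e (nat_lit 483337) (nat_lit 9) (.e (nat_lit 426099) (nat_lit 1) .nil)))) (.g (nat_lit 0) (.e (nat_lit 274720) (nat_lit 0) .nil) .nil))) 
(.lf (nat_lit 543524) (.g (nat_lit 1641) (.e (nat_lit 98366) (nat_lit 27) (.e (nat_lit 434244) (nat_lit 28) (.e (nat_lit 573481) (nat_lit 13) (.e (nat_lit 65577) (nat_lit 5) .nil)))) (.g (nat_lit 0) (.e (nat_lit 275310) (nat_lit 0) .nil) .nil))))) (.nd (nat_lit 8) (.nd (nat_lit 9) 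
(.lf (nat_lit 542884) (.g (nat_lit 2614) (.e (nat_lit 98350) (nat_lit 24) (.e (nat_lit 409648) (nat_lit 18) (.e (nat_lit 303116) (nat_lit 2) (.e (nat_lit 196670) (nat_lit 14) (.e (nat_lit 81664) (nat_lit 40) (.e (nat_lit 1256) (nat_lit 92) .nil)))))) (.g (nat_lit 1) (.e (nat_lit 274534) (nat_lit 0) .nil) .nil))) 
(.lf (nat_lit 543396) (.g (nat_lit 1694) (.e (nat_lit 98365) (nat_lit 26) (.e (nat_lit 426325) (nat_lit 13) (.e (nat_lit 483363) (nat_lit 18) (.e (nat_lit 57691) (nat_lit 156) (.e (nat_lit 163906) (nat_lit 12) .nil))))) (.g (nat_lit 0) (.e (nat_lit 275144) (nat_lit 0) .nil) .nil)))) (.nd (nat_lit 9) 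
(.lf (nat_lit 543140) (.g (nat_lit 3740) (.e (nat_lit 98359) (nat_lit 26) (.e (nat_lit 426286) (nat_lit 10) (.e (nat_lit 434247) (nat_lit 28) (.e (nat_lit 573474) (nat_lit 12) (.e (nat_lit 57572) (nat_lit 54) (.e (nat_lit 770071) (nat_lit 8) (.e (nat_lit 65571) (nat_lit 3) .nil))))))) (.g (nat_lit 1) (.e (nat_lit 274860) (nat_lit 0) .nil) .nil))) 
(.lf (nat_lit 543652) (.g (nat_lit 3365) (.e (nat_lit 98367) (nat_lit 27) (.e (nat_lit 434232) (nat_lit 23) (.e (nat_lit 532499) (nat_lit 1) (.e (nat_lit 57688) (nat_lit 156) (.e (nat_lit 163873) (nat_lit 3) (.e (nat_lit 204837) (nat_lit 20) (.e (nat_lit 114718) (nat_lit 23) .nil))))))) (.g (nat_lit 1) (.e (nat_lit 275480) (nat_lit 0) .nil) .nil)))))) 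
(.nd (nat_lit 7) (.nd (nat_lit 8) (.nd (nat_lit 9) 
(.lf (nat_lit 542820) (.g (nat_lit 2179) (.e (nat_lit 98350) (nat_lit 24) (.e (nat_lit 409643) (nat_lit 18) (.e (nat_lit 303117) (nat_lit 2) (.e (nat_lit 196681) (nat_lit 17) (.e (nat_lit 131108) (nat_lit 9) .nil))))) (.g (nat_lit 0) (.e (nat_lit 274468) (nat_lit 0) .nil) .nil))) 
(.lf (nat_lit 543332) (.g (nat_lit 2144) (.e (nat_lit 98365) (nat_lit 26) (.e (nat_lit 426306) (nat_lit 12) (.e (nat_lit 475178) (nat_lit 24) (.e (nat_lit 516127) (nat_lit 2) (.e (nat_lit 213032) (nat_lit 11) (.e (nat_lit 24609) (nat_lit 3) .nil)))))) (.g (nat_lit 1) (.e (nat_lit 275080) (nat_lit 0) .nil) .nil)))) (.nd (nat_lit 9) 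
(.lf (nat_lit 543076) (.g (nat_lit 2172) (.e (nat_lit 98357) (nat_lit 26) (.e (nat_lit 426436) (nat_lit 18) (.e (nat_lit 98386) (nat_lit 32) (.e (nat_lit 475177) (nat_lit 24) (.e (nat_lit 516145) (nat_lit 9) .nil))))) (.g (nat_lit 0) (.e (nat_lit 274793) (nat_lit 0) .nil) .nil))) 
(.lf (nat_lit 543588) (.g (nat_lit 2890) (.e (nat_lit 98366) (nat_lit 27) (.e (nat_lit 434248) (nat_lit 28) (.e (nat_lit 573489) (nat_lit 14) (.e (nat_lit 73755) (nat_lit 8) (.e (nat_lit 557090) (nat_lit 12) .nil))))) (.g (nat_lit 0) (.e (nat_lit 275385) (nat_lit 0) .nil) .nil))))) (.nd (nat_lit 8) (.nd (nat_lit 9) 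
(.lf (nat_lit 542948) (.g (nat_lit 2765) (.e (nat_lit 98350) (nat_lit 24) (.e (nat_lit 409649) (nat_lit 18) (.e (nat_lit 303118) (nat_lit 3) (.e (nat_lit 204855) (nat_lit 26) (.e (nat_lit 336097) (nat_lit 9) (.e (nat_lit 336020) (nat_lit 3) .nil)))))) (.g (nat_lit 1) (.e (nat_lit 274601) (nat_lit 0) .nil) .nil))) 
(.lf (nat_lit 543460) (.g (nat_lit 4484) (.e (nat_lit 98366) (nat_lit 27) (.e (nat_lit 434231) (nat_lit 23) (.e (nat_lit 532500) (nat_lit 1) (.e (nat_lit 57692) (nat_lit 156) (.e (nat_lit 163874) (nat_lit 3) (.e (nat_lit 204838) (nat_lit 20) (.e (nat_lit 114719) (nat_lit 23) .nil))))))) (.g (nat_lit 1) (.e (nat_lit 275238) (nat_lit 0) .nil) .nil)))) (.nd (nat_lit 9) 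
(.lf (nat_lit 543204) (.g (nat_lit 2769) (.e (nat_lit 98363) (nat_lit 26) (.e (nat_lit 426318) (nat_lit 12) (.e (nat_lit 475179) (nat_lit 24) (.e (nat_lit 516122) (nat_lit 2) (.e (nat_lit 213032) (nat_lit 11) (.e (nat_lit 24608) (nat_lit 3) .nil)))))) (.g (nat_lit 1) (.e (nat_lit 274935) (nat_lit 0) .nil) .nil))) 
(.lf (nat_lit 543716) (.g (nat_lit 521) (.e (nat_lit 98367) (nat_lit 27) (.e (nat_lit 434247) (nat_lit 28) (.e (nat_lit 573485) (nat_lit 13) .nil))) (.g (nat_lit 0) (.e (nat_lit 275548) (nat_lit 0) .nil) .nil)))))))) (.nd (nat_lit 5) (.nd (nat_lit 6) (.nd (nat_lit 7) (.nd (nat_lit 8) (.nd (nat_lit 9) 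
(.lf (nat_lit 542740) (.g (nat_lit 310) (.e (nat_lit 98349) (nat_lit 24) (.e (nat_lit 409645) (nat_lit 18) (.e (nat_lit 303119) (nat_lit 3) .nil))) (.g (nat_lit 0) (.e (nat_lit 274373) (nat_lit 0) .nil) .nil))) 
(.lf (nat_lit 543252) (.g (nat_lit 2914) (.e (nat_lit 98365) (nat_lit 26) (.e (nat_lit 426187) (nat_lit 9) (.e (nat_lit 426436) (nat_lit 18) (.e (nat_lit 98338) (nat_lit 19) (.e (nat_lit 213032) (nat_lit 11) (.e (nat_lit 24608) (nat_lit 3) .nil)))))) (.g (nat_lit 1) (.e (nat_lit 274997) (nat_lit 0) .nil) .nil)))) (.nd (nat_lit 9) 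
(.lf (nat_lit 542996) (.g (nat_lit 1643) (.e (nat_lit 98354) (nat_lit 26) (.e (nat_lit 426317) (nat_lit 12) (.e (nat_lit 475185) (nat_lit 29) (.e (nat_lit 557098) (nat_lit 13) .nil)))) (.g (nat_lit 0) (.e (nat_lit 274701) (nat_lit 0) .nil) .nil))) 
(.lf (nat_lit 543508) (.g (nat_lit 4739) (.e (nat_lit 98366) (nat_lit 27) (.e (nat_lit 434244) (nat_lit 28) (.e (nat_lit 573451) (nat_lit 9) (.e (nat_lit 1449) (nat_lit 108) (.e (nat_lit 336013) (nat_lit 2) (.e (nat_lit 90189) (nat_lit 18) (.e (nat_lit 2579) (nat_lit 161) (.e (nat_lit 48896) (nat_lit 0) (.e (nat_lit 1256) (nat_lit 92) .nil))))))))) (.g (nat_lit 1) (.e (nat_lit 275290) (nat_lit 0) .nil) .nil))))) 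
(.nd (nat_lit 8) (.nd (nat_lit 9) 
(.lf (nat_lit 542868) (.g (nat_lit 1366) (.e (nat_lit 98350) (nat_lit 24) (.e (nat_lit 409647) (nat_lit 18) (.e (nat_lit 303117) (nat_lit 2) (.e (nat_lit 196665) (nat_lit 13) .nil)))) (.g (nat_lit 0) (.e (nat_lit 274517) (nat_lit 0) .nil) .nil))) 
(.lf (nat_lit 543380) (.g (nat_lit 2030) (.e (nat_lit 98365) (nat_lit 26) (.e (nat_lit 426325) (nat_lit 13) (.e (nat_lit 483341) (nat_lit 9) (.e (nat_lit 426030) (nat_lit 0) .nil)))) (.g (nat_lit 0) (.e (nat_lit 275128) (nat_lit 0) .nil) .nil)))) (.nd (nat_lit 9) 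
(.lf (nat_lit 543124) (.g (nat_lit 3647) (.e (nat_lit 98359) (nat_lit 26) (.e (nat_lit 426286) (nat_lit 10) (.e (nat_lit 434245) (nat_lit 28) (.e (nat_lit 573471) (nat_lit 11) (.e (nat_lit 16470) (nat_lit 14) (.e (nat_lit 491538) (nat_lit 3) .nil)))))) (.g (nat_lit 1) (.e (nat_lit 274844) (nat_lit 0) .nil) .nil))) 
(.lf (nat_lit 543636) (.g (nat_lit 2584) (.e (nat_lit 98367) (nat_lit 27) (.e (nat_lit 434231) (nat_lit 23) (.e (nat_lit 532514) (nat_lit 3) (.e (nat_lit 114718) (nat_lit 23) (.e (nat_lit 98325) (nat_lit 17) (.e (nat_lit 2458) (nat_lit 157) (.e (nat_lit 5939) (nat_lit 322) (.e (nat_lit 57379) (nat_lit 3) .nil)))))))) (.g (nat_lit 1) (.e (nat_lit 275463) (nat_lit 0) .nil) .nil)))))) 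
(.nd (nat_lit 7) (.nd (nat_lit 8) (.nd (nat_lit 9) 
(.lf (nat_lit 542804) (.g (nat_lit 514) (.e (nat_lit 98350) (nat_lit 24) (.e (nat_lit 409616) (nat_lit 10) (.e (nat_lit 5756) (nat_lit 315) .nil))) (.g (nat_lit 0) (.e (nat_lit 274446) (nat_lit 0) .nil) .nil))) 
(.lf (nat_lit 543316) (.g (nat_lit 2469) (.e (nat_lit 98365) (nat_lit 26) (.e (nat_lit 426306) (nat_lit 12) (.e (nat_lit 475177) (nat_lit 24) (.e (nat_lit 516125) (nat_lit 2) (.e (nat_lit 213032) (nat_lit 11) (.e (nat_lit 24609) (nat_lit 3) .nil)))))) (.g (nat_lit 1) (.e (nat_lit 275064) (nat_lit 0) .nil) .nil)))) (.nd (nat_lit 9) 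
(.lf (nat_lit 543060) (.g (nat_lit 4339) (.e (nat_lit 98357) (nat_lit 26) (.e (nat_lit 426436) (nat_lit 18) (.e (nat_lit 98335) (nat_lit 18) (.e (nat_lit 164327) (nat_lit 230) (.e (nat_lit 163875) (nat_lit 3) .nil))))) (.g (nat_lit 0) (.e (nat_lit 274774) (nat_lit 0) .nil) .nil))) 
(.lf (nat_lit 543572) (.g (nat_lit 455) (.e (nat_lit 98366) (nat_lit 27) (.e (nat_lit 434248) (nat_lit 28) (.e (nat_lit 573482) (nat_lit 13) .nil))) (.g (nat_lit 0) (.e (nat_lit 275366) (nat_lit 0) .nil) .nil))))) (.nd (nat_lit 8) (.nd (nat_lit 9) 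
(.lf (nat_lit 542932) (.g (nat_lit 2633) (.e (nat_lit 98350) (nat_lit 24) (.e (nat_lit 409649) (nat_lit 18) (.e (nat_lit 303116) (nat_lit 2) (.e (nat_lit 196681) (nat_lit 17) (.e (nat_lit 131104) (nat_lit 9) .nil))))) (.g (nat_lit 0) (.e (nat_lit 274585) (nat_lit 0) .nil) .nil))) 
(.lf (nat_lit 543444) (.g (nat_lit 2165) (.e (nat_lit 98366) (nat_lit 27) (.e (nat_lit 434231) (nat_lit 23) (.e (nat_lit 532499) (nat_lit 1) (.e (nat_lit 57665) (nat_lit 152) .nil)))) (.g (nat_lit 0) (.e (nat_lit 275214) (nat_lit 0) .nil) .nil)))) (.nd (nat_lit 9) 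
(.lf (nat_lit 543188) (.g (nat_lit 1447) (.e (nat_lit 98363) (nat_lit 26) (.e (nat_lit 426129) (nat_lit 3) (.e (nat_lit 204837) (nat_lit 20) (.e (nat_lit 114708) (nat_lit 20) (.e (nat_lit 1800) (nat_lit 119) .nil))))) (.g (nat_lit 0) (.e (nat_lit 274917) (nat_lit 0) .nil) .nil))) 
(.lf (nat_lit 543700) (.g (nat_lit 1172) (.e (nat_lit 98367) (nat_lit 27) (.e (nat_lit 434246) (nat_lit 28) (.e (nat_lit 573487) (nat_lit 14) (.e (nat_lit 73753) (nat_lit 8) .nil)))) (.g (nat_lit 0) (.e (nat_lit 275531) (nat_lit 0) .nil) .nil))))))) (.nd (nat_lit 6) (.nd (nat_lit 7) (.nd (nat_lit 8) (.nd (nat_lit 9) 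
(.lf (nat_lit 542772) (.g (nat_lit 3773) (.e (nat_lit 98349) (nat_lit 24) (.e (nat_lit 409646) (nat_lit 18) (.e (nat_lit 303119) (nat_lit 3) (.e (nat_lit 204866) (nat_lit 28) (.e (nat_lit 352313) (nat_lit 23) .nil))))) (.g (nat_lit 1) (.e (nat_lit 274408) (nat_lit 0) .nil) .nil))) 
(.lf (nat_lit 543284) (.g (nat_lit 3728) (.e (nat_lit 98365) (nat_lit 26) (.e (nat_lit 426188) (nat_lit 9) (.e (nat_lit 426566) (nat_lit 34) (.e (nat_lit 393252) (nat_lit 18) (.e (nat_lit 164398) (nat_lit 256) (.e (nat_lit 57378) (nat_lit 3) .nil)))))) (.g (nat_lit 1) (.e (nat_lit 275029) (nat_lit 0) .nil) .nil)))) (.nd (nat_lit 9) 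
(.lf (nat_lit 543028) (.g (nat_lit 2042) (.e (nat_lit 98356) (nat_lit 26) (.e (nat_lit 426436) (nat_lit 18) (.e (nat_lit 98384) (nat_lit 32) (.e (nat_lit 475169) (nat_lit 22) (.e (nat_lit 499836) (nat_lit 5) .nil))))) (.g (nat_lit 0) (.e (nat_lit 274740) (nat_lit 0) .nil) .nil))) 
(.lf (nat_lit 543540) (.g (nat_lit 2644) (.e (nat_lit 98366) (nat_lit 27) (.e (nat_lit 434244) (nat_lit 28) (.e (nat_lit 573488) (nat_lit 14) (.e (nat_lit 73755) (nat_lit 8) (.e (nat_lit 557090) (nat_lit 12) .nil))))) (.g (nat_lit 0) (.e (nat_lit 275330) (nat_lit 0) .nil) .nil))))) (.nd (nat_lit 8) (.nd (nat_lit 9) 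
(.lf (nat_lit 542900) (.g (nat_lit 1590) (.e (nat_lit 98350) (nat_lit 24) (.e (nat_lit 409648) (nat_lit 18) (.e (nat_lit 303117) (nat_lit 2) (.e (nat_lit 196668) (nat_lit 14) .nil)))) (.g (nat_lit 0) (.e (nat_lit 274551) (nat_lit 0) .nil) .nil))) 
(.lf (nat_lit 543412) (.g (nat_lit 2704) (.e (nat_lit 98365) (nat_lit 26) (.e (nat_lit 426335) (nat_lit 13) (.e (nat_lit 483341) (nat_lit 9) (.e (nat_lit 426107) (nat_lit 1) (.e (nat_lit 164403) (nat_lit 256) .nil))))) (.g (nat_lit 0) (.e (nat_lit 275160) (nat_lit 0) .nil) .nil)))) (.nd (nat_lit 9) 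
(.lf (nat_lit 543156) (.g (nat_lit 2653) (.e (nat_lit 98359) (nat_lit 26) (.e (nat_lit 426286) (nat_lit 10) (.e (nat_lit 434248) (nat_lit 28) (.e (nat_lit 573469) (nat_lit 11) (.e (nat_lit 16473) (nat_lit 14) (.e (nat_lit 499456) (nat_lit 3) .nil)))))) (.g (nat_lit 1) (.e (nat_lit 274876) (nat_lit 0) .nil) .nil))) 
(.lf (nat_lit 543668) (.g (nat_lit 455) (.e (nat_lit 98367) (nat_lit 27) (.e (nat_lit 434244) (nat_lit 28) (.e (nat_lit 573487) (nat_lit 14) .nil))) (.g (nat_lit 0) (.e (nat_lit 275498) (nat_lit 0) .nil) .nil)))))) (.nd (nat_lit 7) (.nd (nat_lit 8) (.nd (nat_lit 9) 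
(.lf (nat_lit 542836) (.g (nat_lit 1099) (.e (nat_lit 98350) (nat_lit 24) (.e (nat_lit 409645) (nat_lit 18) (.e (nat_lit 303119) (nat_lit 3) (.e (nat_lit 204846) (nat_lit 24) .nil)))) (.g (nat_lit 0) (.e (nat_lit 274485) (nat_lit 0) .nil) .nil))) 
(.lf (nat_lit 543348) (.g (nat_lit 3188) (.e (nat_lit 98365) (nat_lit 26) (.e (nat_lit 426306) (nat_lit 12) (.e (nat_lit 475179) (nat_lit 24) (.e (nat_lit 516131) (nat_lit 3) (.e (nat_lit 221193) (nat_lit 11) (.e (nat_lit 336027) (nat_lit 3) .nil)))))) (.g (nat_lit 1) (.e (nat_lit 275096) (nat_lit 0) .nil) .nil)))) (.nd (nat_lit 9) 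
(.lf (nat_lit 543092) (.g (nat_lit 3550) (.e (nat_lit 98358) (nat_lit 26) (.e (nat_lit 426323) (nat_lit 13) (.e (nat_lit 483337) (nat_lit 9) (.e (nat_lit 426098) (nat_lit 1) (.e (nat_lit 164403) (nat_lit 256) (.e (nat_lit 57378) (nat_lit 3) .nil)))))) (.g (nat_lit 1) (.e (nat_lit 274809) (nat_lit 0) .nil) .nil))) 
(.lf (nat_lit 543604) (.g (nat_lit 4446) (.e (nat_lit 98367) (nat_lit 27) (.e (nat_lit 434231) (nat_lit 23) (.e (nat_lit 532499) (nat_lit 1) (.e (nat_lit 57688) (nat_lit 156) (.e (nat_lit 163874) (nat_lit 3) (.e (nat_lit 204836) (nat_lit 20) (.e (nat_lit 114718) (nat_lit 23) .nil))))))) (.g (nat_lit 1) (.e (nat_lit 275421) (nat_lit 0) .nil) .nil))))) (.nd (nat_lit 8) (.nd (nat_lit 9) 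
(.lf (nat_lit 542964) (.g (nat_lit 2647) (.e (nat_lit 98350) (nat_lit 24) (.e (nat_lit 409649) (nat_lit 18) (.e (nat_lit 303119) (nat_lit 3) (.e (nat_lit 204855) (nat_lit 26) (.e (nat_lit 336102) (nat_lit 9) (.e (nat_lit 336028) (nat_lit 3) .nil)))))) (.g (nat_lit 1) (.e (nat_lit 274618) (nat_lit 0) .nil) .nil))) 
(.lf (nat_lit 543476) (.g (nat_lit 1085) (.e (nat_lit 98366) (nat_lit 27) (.e (nat_lit 434231) (nat_lit 23) (.e (nat_lit 532507) (nat_lit 2) (.e (nat_lit 106517) (nat_lit 9) .nil)))) (.g (nat_lit 0) (.e (nat_lit 275254) (nat_lit 0) .nil) .nil)))) (.nd (nat_lit 9) 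
(.lf (nat_lit 543220) (.g (nat_lit 2150) (.e (nat_lit 98363) (nat_lit 26) (.e (nat_lit 426321) (nat_lit 13) (.e (nat_lit 483341) (nat_lit 9) (.e (nat_lit 426107) (nat_lit 1) (.e (nat_lit 164403) (nat_lit 256) (.e (nat_lit 57377) (nat_lit 3) .nil)))))) (.g (nat_lit 1) (.e (nat_lit 274952) (nat_lit 0) .nil) .nil))) 
(.lf (nat_lit 543732) (.g (nat_lit 3579) (.e (nat_lit 98367) (nat_lit 27) (.e (nat_lit 434247) (nat_lit 28) (.e (nat_lit 573489) (nat_lit 14) (.e (nat_lit 73755) (nat_lit 8) (.e (nat_lit 557090) (nat_lit 12) (.e (nat_lit 171776) (nat_lit 0) (.e (nat_lit 5937) (nat_lit 322) (.e (nat_lit 57378) (nat_lit 3) .nil)))))))) (.g (nat_lit 1) (.e (nat_lit 275566) (nat_lit 0) .nil) .nil))))))))) 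
(.nd (nat_lit 4) (.nd (nat_lit 5) (.nd (nat_lit 6) (.nd (nat_lit 7) (.nd (nat_lit 8) 
(.nd (nat_lit 9) 
(.lf (nat_lit 542732) (.g (nat_lit 1831) (.e (nat_lit 98349) (nat_lit 24) (.e (nat_lit 409645) (nat_lit 18) (.e (nat_lit 303117) (nat_lit 2) (.e (nat_lit 196669) (nat_lit 14) (.e (nat_lit 81664) (nat_lit 40) .nil))))) (.g (nat_lit 0) (.e (nat_lit 274365) (nat_lit 0) .nil) .nil))) 
(.lf (nat_lit 543244) (.g (nat_lit 2638) (.e (nat_lit 98365) (nat_lit 26) (.e (nat_lit 426137) (nat_lit 3) (.e (nat_lit 204829) (nat_lit 18) (.e (nat_lit 57688) (nat_lit 156) (.e (nat_lit 163872) (nat_lit 3) .nil))))) (.g (nat_lit 0) (.e (nat_lit 274989) (nat_lit 0) .nil) .nil)))) (.nd (nat_lit 9) 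
(.lf (nat_lit 542988) (.g (nat_lit 824) (.e (nat_lit 98353) (nat_lit 25) (.e (nat_lit 417820) (nat_lit 10) (.e (nat_lit 5761) (nat_lit 315) (.e (nat_lit 163962) (nat_lit 25) .nil)))) (.g (nat_lit 0) (.e (nat_lit 274680) (nat_lit 0) .nil) .nil))) 
(.lf (nat_lit 543500) (.g (nat_lit 866) (.e (nat_lit 98366) (nat_lit 27) (.e (nat_lit 434231) (nat_lit 23) (.e (nat_lit 532515) (nat_lit 3) .nil))) (.g (nat_lit 0) (.e (nat_lit 275279) (nat_lit 0) .nil) .nil))))) (.nd (nat_lit 8) (.nd (nat_lit 9) 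
(.lf (nat_lit 542860) (.g (nat_lit 3871) (.e (nat_lit 98350) (nat_lit 24) (.e (nat_lit 409646) (nat_lit 18) (.e (nat_lit 303119) (nat_lit 3) (.e (nat_lit 204852) (nat_lit 26) (.e (nat_lit 336130) (nat_lit 9) (.e (nat_lit 336025) (nat_lit 3) .nil)))))) (.g (nat_lit 1) (.e (nat_lit 274509) (nat_lit 0) .nil) .nil))) 
(.lf (nat_lit 543372) (.g (nat_lit 2534) (.e (nat_lit 98365) (nat_lit 26) (.e (nat_lit 426325) (nat_lit 13) (.e (nat_lit 483337) (nat_lit 9) (.e (nat_lit 426100) (nat_lit 1) (.e (nat_lit 164401) (nat_lit 256) .nil))))) (.g (nat_lit 0) (.e (nat_lit 275120) (nat_lit 0) .nil) .nil)))) (.nd (nat_lit 9) 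
(.lf (nat_lit 543116) (.g (nat_lit 2992) (.e (nat_lit 98359) (nat_lit 26) (.e (nat_lit 426286) (nat_lit 10) (.e (nat_lit 434238) (nat_lit 25) (.e (nat_lit 548913) (nat_lit 18) (.e (nat_lit 172124) (nat_lit 14) (.e (nat_lit 491540) (nat_lit 3) .nil)))))) (.g (nat_lit 1) (.e (nat_lit 274836) (nat_lit 0) .nil) .nil))) 
(.lf (nat_lit 543628) (.g (nat_lit 3176) (.e (nat_lit 98367) (nat_lit 27) (.e (nat_lit 434231) (nat_lit 23) (.e (nat_lit 532513) (nat_lit 3) (.e (nat_lit 114718) (nat_lit 23) (.e (nat_lit 98333) (nat_lit 18) (.e (nat_lit 164398) (nat_lit 256) (.e (nat_lit 57378) (nat_lit 3) .nil))))))) (.g (nat_lit 1) (.e (nat_lit 275453) (nat_lit 0) .nil) .nil)))))) 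
(.nd (nat_lit 7) (.nd (nat_lit 8) (.nd (nat_lit 9) 
(.lf (nat_lit 542796) (.g (nat_lit 812) (.e (nat_lit 98350) (nat_lit 24) (.e (nat_lit 409616) (nat_lit 10) (.e (nat_lit 5613) (nat_lit 312) .nil))) (.g (nat_lit 0) (.e (nat_lit 274435) (nat_lit 0) .nil) .nil))) 
(.lf (nat_lit 543308) (.g (nat_lit 1724) (.e (nat_lit 98365) (nat_lit 26) (.e (nat_lit 426306) (nat_lit 12) (.e (nat_lit 475175) (nat_lit 24) (.e (nat_lit 516124) (nat_lit 2) (.e (nat_lit 213030) (nat_lit 11) (.e (nat_lit 24609) (nat_lit 3) .nil)))))) (.g (nat_lit 1) (.e (nat_lit 275056) (nat_lit 0) .nil) .nil)))) (.nd (nat_lit 9) 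
(.lf (nat_lit 543052) (.g (nat_lit 2346) (.e (nat_lit 98357) (nat_lit 26) (.e (nat_lit 426131) (nat_lit 3) (.e (nat_lit 204838) (nat_lit 20) (.e (nat_lit 114719) (nat_lit 23) (.e (nat_lit 98332) (nat_lit 18) .nil))))) (.g (nat_lit 0) (.e (nat_lit 274764) (nat_lit 0) .nil) .nil))) 
(.lf (nat_lit 543564) (.g (nat_lit 3365) (.e (nat_lit 98366) (nat_lit 27) (.e (nat_lit 434247) (nat_lit 28) (.e (nat_lit 573489) (nat_lit 14) (.e (nat_lit 73755) (nat_lit 8) (.e (nat_lit 557090) (nat_lit 12) (.e (nat_lit 163841) (nat_lit 0) (.e (nat_lit 5940) (nat_lit 322) (.e (nat_lit 57379) (nat_lit 3) .nil)))))))) (.g (nat_lit 1) (.e (nat_lit 275357) (nat_lit 0) .nil) .nil))))) 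
(.nd (nat_lit 8) (.nd (nat_lit 9) 
(.lf (nat_lit 542924) (.g (nat_lit 3629) (.e (nat_lit 98350) (nat_lit 24) (.e (nat_lit 409648) (nat_lit 18) (.e (nat_lit 303119) (nat_lit 3) (.e (nat_lit 204855) (nat_lit 26) (.e (nat_lit 336097) (nat_lit 9) (.e (nat_lit 336028) (nat_lit 3) .nil)))))) (.g (nat_lit 1) (.e (nat_lit 274575) (nat_lit 0) .nil) .nil))) 
(.lf (nat_lit 543436) (.g (nat_lit 493) (.e (nat_lit 98366) (nat_lit 27) (.e (nat_lit 434231) (nat_lit 23) (.e (nat_lit 532483) (nat_lit 0) .nil))) (.g (nat_lit 0) (.e (nat_lit 275200) (nat_lit 0) .nil) .nil)))) (.nd (nat_lit 9) 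
(.lf (nat_lit 543180) (.g (nat_lit 2699) (.e (nat_lit 98361) (nat_lit 26) (.e (nat_lit 426412) (nat_lit 15) (.e (nat_lit 2059) (nat_lit 142) (.e (nat_lit 704589) (nat_lit 3) (.e (nat_lit 163979) (nat_lit 30) .nil))))) (.g (nat_lit 0) (.e (nat_lit 274904) (nat_lit 0) .nil) .nil))) 
(.lf (nat_lit 543692) (.g (nat_lit 2031) (.e (nat_lit 98367) (nat_lit 27) (.e (nat_lit 434245) (nat_lit 28) (.e (nat_lit 573488) (nat_lit 14) (.e (nat_lit 73755) (nat_lit 8) (.e (nat_lit 557119) (nat_lit 18) (.e (nat_lit 2796) (nat_lit 180) (.e (nat_lit 311040) (nat_lit 18) .nil))))))) (.g (nat_lit 1) (.e (nat_lit 275522) (nat_lit 0) .nil) .nil))))))) 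
(.nd (nat_lit 6) (.nd (nat_lit 7) (.nd (nat_lit 8) (.nd (nat_lit 9) 
(.lf (nat_lit 542764) (.g (nat_lit 2872) (.e (nat_lit 98349) (nat_lit 24) (.e (nat_lit 409646) (nat_lit 18) (.e (nat_lit 303119) (nat_lit 3) (.e (nat_lit 204852) (nat_lit 26) (.e (nat_lit 336130) (nat_lit 9) (.e (nat_lit 336025) (nat_lit 3) .nil)))))) (.g (nat_lit 1) (.e (nat_lit 274400) (nat_lit 0) .nil) .nil))) 
(.lf (nat_lit 543276) (.g (nat_lit 2346) (.e (nat_lit 98365) (nat_lit 26) (.e (nat_lit 426188) (nat_lit 9) (.e (nat_lit 426564) (nat_lit 34) (.e (nat_lit 393251) (nat_lit 18) (.e (nat_lit 164399) (nat_lit 256) (.e (nat_lit 57377) (nat_lit 3) .nil)))))) (.g (nat_lit 1) (.e (nat_lit 275021) (nat_lit 0) .nil) .nil)))) (.nd (nat_lit 9) 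
(.lf (nat_lit 543020) (.g (nat_lit 4216) (.e (nat_lit 98356) (nat_lit 26) (.e (nat_lit 426436) (nat_lit 18) (.e (nat_lit 98335) (nat_lit 18) (.e (nat_lit 164327) (nat_lit 230) (.e (nat_lit 163875) (nat_lit 3) (.e (nat_lit 204837) (nat_lit 20) (.e (nat_lit 114719) (nat_lit 23) .nil))))))) (.g (nat_lit 1) (.e (nat_lit 274730) (nat_lit 0) .nil) .nil))) 
(.lf (nat_lit 543532) (.g (nat_lit 3070) (.e (nat_lit 98366) (nat_lit 27) (.e (nat_lit 434244) (nat_lit 28) (.e (nat_lit 573487) (nat_lit 14) (.e (nat_lit 73757) (nat_lit 11) (.e (nat_lit 581649) (nat_lit 4) (.e (nat_lit 179968) (nat_lit 18) .nil)))))) (.g (nat_lit 1) (.e (nat_lit 275321) (nat_lit 0) .nil) .nil))))) (.nd (nat_lit 8) (.nd (nat_lit 9) 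
(.lf (nat_lit 542892) (.g (nat_lit 3810) (.e (nat_lit 98350) (nat_lit 24) (.e (nat_lit 409648) (nat_lit 18) (.e (nat_lit 303117) (nat_lit 2) (.e (nat_lit 196666) (nat_lit 13) (.e (nat_lit 65592) (nat_lit 9) (.e (nat_lit 336023) (nat_lit 3) .nil)))))) (.g (nat_lit 1) (.e (nat_lit 274543) (nat_lit 0) .nil) .nil))) 
(.lf (nat_lit 543404) (.g (nat_lit 1257) (.e (nat_lit 98365) (nat_lit 26) (.e (nat_lit 426325) (nat_lit 13) (.e (nat_lit 483365) (nat_lit 18) .nil))) (.g (nat_lit 0) (.e (nat_lit 275152) (nat_lit 0) .nil) .nil)))) (.nd (nat_lit 9) 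
(.lf (nat_lit 543148) (.g (nat_lit 3562) (.e (nat_lit 98359) (nat_lit 26) (.e (nat_lit 426286) (nat_lit 10) (.e (nat_lit 434247) (nat_lit 28) (.e (nat_lit 573477) (nat_lit 12) (.e (nat_lit 57575) (nat_lit 55) (.e (nat_lit 778465) (nat_lit 11) (.e (nat_lit 32512) (nat_lit 3) .nil))))))) (.g (nat_lit 1) (.e (nat_lit 274868) (nat_lit 0) .nil) .nil))) 
(.lf (nat_lit 543660) (.g (nat_lit 3551) (.e (nat_lit 98367) (nat_lit 27) (.e (nat_lit 434234) (nat_lit 23) (.e (nat_lit 532499) (nat_lit 1) (.e (nat_lit 57688) (nat_lit 156) (.e (nat_lit 163873) (nat_lit 3) (.e (nat_lit 204838) (nat_lit 20) (.e (nat_lit 114719) (nat_lit 23) .nil))))))) (.g (nat_lit 1) (.e (nat_lit 275489) (nat_lit 0) .nil) .nil)))))) 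
(.nd (nat_lit 7) (.nd (nat_lit 8) (.nd (nat_lit 9) 
(.lf (nat_lit 542828) (.g (nat_lit 2678) (.e (nat_lit 98350) (nat_lit 24) (.e (nat_lit 409644) (nat_lit 18) (.e (nat_lit 303119) (nat_lit 3) (.e (nat_lit 204866) (nat_lit 28) (.e (nat_lit 352314) (nat_lit 23) .nil))))) (.g (nat_lit 1) (.e (nat_lit 274476) (nat_lit 0) .nil) .nil))) 
(.lf (nat_lit 543340) (.g (nat_lit 1581) (.e (nat_lit 98365) (nat_lit 26) (.e (nat_lit 426306) (nat_lit 12) (.e (nat_lit 475179) (nat_lit 24) (.e (nat_lit 516125) (nat_lit 2) .nil)))) (.g (nat_lit 0) (.e (nat_lit 275088) (nat_lit 0) .nil) .nil)))) (.nd (nat_lit 9) 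
(.lf (nat_lit 543084) (.g (nat_lit 2257) (.e (nat_lit 98358) (nat_lit 26) (.e (nat_lit 426131) (nat_lit 3) (.e (nat_lit 204838) (nat_lit 20) (.e (nat_lit 114719) (nat_lit 23) (.e (nat_lit 98332) (nat_lit 18) .nil))))) (.g (nat_lit 0) (.e (nat_lit 274801) (nat_lit 0) .nil) .nil))) 
(.lf (nat_lit 543596) (.g (nat_lit 2427) (.e (nat_lit 98366) (nat_lit 27) (.e (nat_lit 434275) (nat_lit 39) (.e (nat_lit 663580) (nat_lit 9) (.e (nat_lit 2663) (nat_lit 167) (.e (nat_lit 204544) (nat_lit 2) .nil))))) (.g (nat_lit 0) (.e (nat_lit 275397) (nat_lit 0) .nil) .nil))))) (.nd (nat_lit 8) (.nd (nat_lit 9) 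
(.lf (nat_lit 542956) (.g (nat_lit 3416) (.e (nat_lit 98350) (nat_lit 24) (.e (nat_lit 409649) (nat_lit 18) (.e (nat_lit 303119) (nat_lit 3) (.e (nat_lit 204846) (nat_lit 24) (.e (nat_lit 319490) (nat_lit 0) (.e (nat_lit 5293) (nat_lit 298) (.e (nat_lit 1250) (nat_lit 92) .nil))))))) (.g (nat_lit 1) (.e (nat_lit 274610) (nat_lit 0) .nil) .nil))) 
(.lf (nat_lit 543468) (.g (nat_lit 2416) (.e (nat_lit 98366) (nat_lit 27) (.e (nat_lit 434231) (nat_lit 23) (.e (nat_lit 532502) (nat_lit 1) (.e (nat_lit 57691) (nat_lit 156) (.e (nat_lit 163875) (nat_lit 3) .nil))))) (.g (nat_lit 0) (.e (nat_lit 275246) (nat_lit 0) .nil) .nil)))) (.nd (nat_lit 9) 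
(.lf (nat_lit 543212) (.g (nat_lit 3011) (.e (nat_lit 98363) (nat_lit 26) (.e (nat_lit 426321) (nat_lit 13) (.e (nat_lit 483337) (nat_lit 9) (.e (nat_lit 426098) (nat_lit 1) (.e (nat_lit 164403) (nat_lit 256) (.e (nat_lit 57378) (nat_lit 3) .nil)))))) (.g (nat_lit 1) (.e (nat_lit 274944) (nat_lit 0) .nil) .nil))) 
(.lf (nat_lit 543724) (.g (nat_lit 2680) (.e (nat_lit 98367) (nat_lit 27) (.e (nat_lit 434247) (nat_lit 28) (.e (nat_lit 573489) (nat_lit 14) (.e (nat_lit 73755) (nat_lit 8) (.e (nat_lit 557090) (nat_lit 12) .nil))))) (.g (nat_lit 0) (.e (nat_lit 275558) (nat_lit 0) .nil) .nil)))))))) (.nd (nat_lit 5) (.nd (nat_lit 6) (.nd (nat_lit 7) (.nd (nat_lit 8) (.nd (nat_lit 9) 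
(.lf (nat_lit 542748) (.g (nat_lit 2525) (.e (nat_lit 98349) (nat_lit 24) (.e (nat_lit 409645) (nat_lit 18) (.e (nat_lit 303119) (nat_lit 3) (.e (nat_lit 204866) (nat_lit 28) (.e (nat_lit 360192) (nat_lit 23) .nil))))) (.g (nat_lit 1) (.e (nat_lit 274381) (nat_lit 0) .nil) .nil))) 
(.lf (nat_lit 543260) (.g (nat_lit 2129) (.e (nat_lit 98365) (nat_lit 26) (.e (nat_lit 426187) (nat_lit 9) (.e (nat_lit 426568) (nat_lit 34) (.e (nat_lit 393252) (nat_lit 18) (.e (nat_lit 164401) (nat_lit 256) (.e (nat_lit 57377) (nat_lit 3) .nil)))))) (.g (nat_lit 1) (.e (nat_lit 275005) (nat_lit 0) .nil) .nil)))) (.nd (nat_lit 9) 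
(.lf (nat_lit 543004) (.g (nat_lit 1942) (.e (nat_lit 98354) (nat_lit 26) (.e (nat_lit 426412) (nat_lit 15) (.e (nat_lit 2059) (nat_lit 142) (.e (nat_lit 704589) (nat_lit 3) .nil)))) (.g (nat_lit 0) (.e (nat_lit 274710) (nat_lit 0) .nil) .nil))) 
(.lf (nat_lit 543516) (.g (nat_lit 1548) (.e (nat_lit 98366) (nat_lit 27) (.e (nat_lit 434244) (nat_lit 28) (.e (nat_lit 573480) (nat_lit 13) (.e (nat_lit 65577) (nat_lit 5) .nil)))) (.g (nat_lit 0) (.e (nat_lit 275300) (nat_lit 0) .nil) .nil))))) (.nd (nat_lit 8) (.nd (nat_lit 9) 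
(.lf (nat_lit 542876) (.g (nat_lit 2126) (.e (nat_lit 98350) (nat_lit 24) (.e (nat_lit 409647) (nat_lit 18) (.e (nat_lit 303119) (nat_lit 3) (.e (nat_lit 204852) (nat_lit 26) (.e (nat_lit 336130) (nat_lit 9) .nil))))) (.g (nat_lit 0) (.e (nat_lit 274525) (nat_lit 0) .nil) .nil))) 
(.lf (nat_lit 543388) (.g (nat_lit 3008) (.e (nat_lit 98365) (nat_lit 26) (.e (nat_lit 426325) (nat_lit 13) (.e (nat_lit 483341) (nat_lit 9) (.e (nat_lit 426106) (nat_lit 1) (.e (nat_lit 164403) (nat_lit 256) (.e (nat_lit 57377) (nat_lit 3) .nil)))))) (.g (nat_lit 1) (.e (nat_lit 275136) (nat_lit 0) .nil) .nil)))) (.nd (nat_lit 9) 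
(.lf (nat_lit 543132) (.g (nat_lit 2294) (.e (nat_lit 98359) (nat_lit 26) (.e (nat_lit 426286) (nat_lit 10) (.e (nat_lit 434245) (nat_lit 28) (.e (nat_lit 573474) (nat_lit 12) (.e (nat_lit 57574) (nat_lit 55) (.e (nat_lit 778464) (nat_lit 11) (.e (nat_lit 32512) (nat_lit 3) .nil))))))) (.g (nat_lit 1) (.e (nat_lit 274852) (nat_lit 0) .nil) .nil))) 
(.lf (nat_lit 543644) (.g (nat_lit 4718) (.e (nat_lit 98367) (nat_lit 27) (.e (nat_lit 434231) (nat_lit 23) (.e (nat_lit 532514) (nat_lit 3) (.e (nat_lit 114719) (nat_lit 23) (.e (nat_lit 98333) (nat_lit 18) (.e (nat_lit 164403) (nat_lit 256) (.e (nat_lit 57378) (nat_lit 3) .nil))))))) (.g (nat_lit 1) (.e (nat_lit 275471) (nat_lit 0) .nil) .nil)))))) 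
(.nd (nat_lit 7) (.nd (nat_lit 8) (.nd (nat_lit 9) 
(.lf (nat_lit 542812) (.g (nat_lit 552) (.e (nat_lit 98350) (nat_lit 24) (.e (nat_lit 409618) (nat_lit 10) (.e (nat_lit 5756) (nat_lit 315) .nil))) (.g (nat_lit 0) (.e (nat_lit 274459) (nat_lit 0) .nil) .nil))) 
(.lf (nat_lit 543324) (.g (nat_lit 2655) (.e (nat_lit 98365) (nat_lit 26) (.e (nat_lit 426306) (nat_lit 12) (.e (nat_lit 475177) (nat_lit 24) (.e (nat_lit 516129) (nat_lit 3) (.e (nat_lit 221194) (nat_lit 11) (.e (nat_lit 336020) (nat_lit 3) .nil)))))) (.g (nat_lit 1) (.e (nat_lit 275072) (nat_lit 0) .nil) .nil)))) (.nd (nat_lit 9) 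
(.lf (nat_lit 543068) (.g (nat_lit 1927) (.e (nat_lit 98357) (nat_lit 26) (.e (nat_lit 426436) (nat_lit 18) (.e (nat_lit 98384) (nat_lit 32) (.e (nat_lit 475177) (nat_lit 24) (.e (nat_lit 516144) (nat_lit 9) .nil))))) (.g (nat_lit 0) (.e (nat_lit 274784) (nat_lit 0) .nil) .nil))) 
(.lf (nat_lit 543580) (.g (nat_lit 2432) (.e (nat_lit 98366) (nat_lit 27) (.e (nat_lit 434248) (nat_lit 28) (.e (nat_lit 573487) (nat_lit 14) (.e (nat_lit 73757) (nat_lit 11) (.e (nat_lit 581649) (nat_lit 4) (.e (nat_lit 179968) (nat_lit 18) .nil)))))) (.g (nat_lit 1) (.e (nat_lit 275376) (nat_lit 0) .nil) .nil))))) (.nd (nat_lit 8) (.nd (nat_lit 9) 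
(.lf (nat_lit 542940) (.g (nat_lit 2246) (.e (nat_lit 98350) (nat_lit 24) (.e (nat_lit 409649) (nat_lit 18) (.e (nat_lit 303117) (nat_lit 2) (.e (nat_lit 196666) (nat_lit 13) (.e (nat_lit 73472) (nat_lit 9) .nil))))) (.g (nat_lit 0) (.e (nat_lit 274593) (nat_lit 0) .nil) .nil))) 
(.lf (nat_lit 543452) (.g (nat_lit 2235) (.e (nat_lit 98366) (nat_lit 27) (.e (nat_lit 434231) (nat_lit 23) (.e (nat_lit 532500) (nat_lit 1) (.e (nat_lit 57661) (nat_lit 152) .nil)))) (.g (nat_lit 0) (.e (nat_lit 275224) (nat_lit 0) .nil) .nil)))) (.nd (nat_lit 9) 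
(.lf (nat_lit 543196) (.g (nat_lit 3590) (.e (nat_lit 98363) (nat_lit 26) (.e (nat_lit 426260) (nat_lit 9) (.e (nat_lit 426129) (nat_lit 3) (.e (nat_lit 204846) (nat_lit 24) (.e (nat_lit 319534) (nat_lit 16) (.e (nat_lit 286735) (nat_lit 3) .nil)))))) (.g (nat_lit 1) (.e (nat_lit 274925) (nat_lit 0) .nil) .nil))) 
(.lf (nat_lit 543708) (.g (nat_lit 2703) (.e (nat_lit 98367) (nat_lit 27) (.e (nat_lit 434246) (nat_lit 28) (.e (nat_lit 573489) (nat_lit 14) (.e (nat_lit 73755) (nat_lit 8) (.e (nat_lit 557119) (nat_lit 18) (.e (nat_lit 2808) (nat_lit 180) (.e (nat_lit 311040) (nat_lit 18) .nil))))))) (.g (nat_lit 1) (.e (nat_lit 275539) (nat_lit 0) .nil) .nil))))))) 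
(.nd (nat_lit 6) (.nd (nat_lit 7) (.nd (nat_lit 8) (.nd (nat_lit 9) 
(.lf (nat_lit 542780) (.g (nat_lit 2867) (.e (nat_lit 98349) (nat_lit 24) (.e (nat_lit 409648) (nat_lit 18) (.e (nat_lit 303118) (nat_lit 3) (.e (nat_lit 204855) (nat_lit 26) (.e (nat_lit 336111) (nat_lit 9) .nil))))) (.g (nat_lit 0) (.e (nat_lit 274416) (nat_lit 0) .nil) .nil))) 
(.lf (nat_lit 543292) (.g (nat_lit 3878) (.e (nat_lit 98365) (nat_lit 26) (.e (nat_lit 426188) (nat_lit 9) (.e (nat_lit 426568) (nat_lit 34) (.e (nat_lit 393253) (nat_lit 18) (.e (nat_lit 164403) (nat_lit 256) (.e (nat_lit 57378) (nat_lit 3) .nil)))))) (.g (nat_lit 1) (.e (nat_lit 275037) (nat_lit 0) .nil) .nil)))) (.nd (nat_lit 9) 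
(.lf (nat_lit 543036) (.g (nat_lit 2322) (.e (nat_lit 98356) (nat_lit 26) (.e (nat_lit 426438) (nat_lit 18) (.e (nat_lit 98334) (nat_lit 18) (.e (nat_lit 164305) (nat_lit 226) (.e (nat_lit 2450) (nat_lit 157) (.e (nat_lit 2685) (nat_lit 168) (.e (nat_lit 204834) (nat_lit 19) (.e (nat_lit 106517) (nat_lit 9) (.e (nat_lit 1255) (nat_lit 92) .nil))))))))) (.g (nat_lit 1) (.e (nat_lit 274748) (nat_lit 0) .nil) .nil))) 
(.lf (nat_lit 543548) (.g (nat_lit 4067) (.e (nat_lit 98366) (nat_lit 27) (.e (nat_lit 434244) (nat_lit 28) (.e (nat_lit 573489) (nat_lit 14) (.e (nat_lit 73755) (nat_lit 8) (.e (nat_lit 557090) (nat_lit 12) (.e (nat_lit 163844) (nat_lit 0) (.e (nat_lit 5940) (nat_lit 322) (.e (nat_lit 57379) (nat_lit 3) .nil)))))))) (.g (nat_lit 1) (.e (nat_lit 275338) (nat_lit 0) .nil) .nil))))) 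
(.nd (nat_lit 8) (.nd (nat_lit 9) 
(.lf (nat_lit 542908) (.g (nat_lit 1354) (.e (nat_lit 98350) (nat_lit 24) (.e (nat_lit 409648) (nat_lit 18) (.e (nat_lit 303118) (nat_lit 3) (.e (nat_lit 204852) (nat_lit 26) .nil)))) (.g (nat_lit 0) (.e (nat_lit 274559) (nat_lit 0) .nil) .nil))) 
(.lf (nat_lit 543420) (.g (nat_lit 2160) (.e (nat_lit 106240) (nat_lit 26) (.e (nat_lit 426200) (nat_lit 9) (.e (nat_lit 426131) (nat_lit 3) (.e (nat_lit 204846) (nat_lit 24) (.e (nat_lit 319533) (nat_lit 16) .nil))))) (.g (nat_lit 0) (.e (nat_lit 275168) (nat_lit 0) .nil) .nil)))) (.nd (nat_lit 9) 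
(.lf (nat_lit 543164) (.g (nat_lit 1997) (.e (nat_lit 98359) (nat_lit 26) (.e (nat_lit 426286) (nat_lit 10) (.e (nat_lit 434248) (nat_lit 28) (.e (nat_lit 573475) (nat_lit 12) (.e (nat_lit 57574) (nat_lit 55) (.e (nat_lit 778463) (nat_lit 11) (.e (nat_lit 32512) (nat_lit 3) .nil))))))) (.g (nat_lit 1) (.e (nat_lit 274884) (nat_lit 0) .nil) .nil))) 
(.lf (nat_lit 543676) (.g (nat_lit 1554) (.e (nat_lit 98367) (nat_lit 27) (.e (nat_lit 434244) (nat_lit 28) (.e (nat_lit 573488) (nat_lit 14) (.e (nat_lit 73755) (nat_lit 8) .nil)))) (.g (nat_lit 0) (.e (nat_lit 275506) (nat_lit 0) .nil) .nil)))))) (.nd (nat_lit 7) (.nd (nat_lit 8) (.nd (nat_lit 9) 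
(.lf (nat_lit 542844) (.g (nat_lit 1389) (.e (nat_lit 98350) (nat_lit 24) (.e (nat_lit 409646) (nat_lit 18) (.e (nat_lit 303117) (nat_lit 2) (.e (nat_lit 196665) (nat_lit 13) .nil)))) (.g (nat_lit 0) (.e (nat_lit 274493) (nat_lit 0) .nil) .nil))) 
(.lf (nat_lit 543356) (.g (nat_lit 3984) (.e (nat_lit 98365) (nat_lit 26) (.e (nat_lit 426316) (nat_lit 12) (.e (nat_lit 475185) (nat_lit 29) (.e (nat_lit 557104) (nat_lit 14) .nil)))) (.g (nat_lit 0) (.e (nat_lit 275104) (nat_lit 0) .nil) .nil)))) (.nd (nat_lit 9) 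
(.lf (nat_lit 543100) (.g (nat_lit 3109) (.e (nat_lit 98358) (nat_lit 26) (.e (nat_lit 426323) (nat_lit 13) (.e (nat_lit 483366) (nat_lit 18) (.e (nat_lit 57688) (nat_lit 156) (.e (nat_lit 163902) (nat_lit 12) (.e (nat_lit 426438) (nat_lit 18) .nil)))))) (.g (nat_lit 1) (.e (nat_lit 274817) (nat_lit 0) .nil) .nil))) 
(.lf (nat_lit 543612) (.g (nat_lit 3681) (.e (nat_lit 98367) (nat_lit 27) (.e (nat_lit 434231) (nat_lit 23) (.e (nat_lit 532499) (nat_lit 1) (.e (nat_lit 57692) (nat_lit 156) (.e (nat_lit 163875) (nat_lit 3) (.e (nat_lit 204836) (nat_lit 20) (.e (nat_lit 114718) (nat_lit 23) .nil))))))) (.g (nat_lit 1) (.e (nat_lit 275429) (nat_lit 0) .nil) .nil))))) (.nd (nat_lit 8) (.nd (nat_lit 9) 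
(.lf (nat_lit 542972) (.g (nat_lit 1836) (.e (nat_lit 98352) (nat_lit 25) (.e (nat_lit 417820) (nat_lit 10) (.e (nat_lit 5761) (nat_lit 315) (.e (nat_lit 163962) (nat_lit 25) .nil)))) (.g (nat_lit 0) (.e (nat_lit 274655) (nat_lit 0) .nil) .nil))) 
(.lf (nat_lit 543484) (.g (nat_lit 1487) (.e (nat_lit 98366) (nat_lit 27) (.e (nat_lit 434231) (nat_lit 23) (.e (nat_lit 532513) (nat_lit 3) (.e (nat_lit 114719) (nat_lit 23) .nil)))) (.g (nat_lit 0) (.e (nat_lit 275262) (nat_lit 0) .nil) .nil)))) (.nd (nat_lit 9) 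
(.lf (nat_lit 543228) (.g (nat_lit 1292) (.e (nat_lit 98364) (nat_lit 26) (.e (nat_lit 426306) (nat_lit 12) (.e (nat_lit 475177) (nat_lit 24) (.e (nat_lit 516129) (nat_lit 3) .nil)))) (.g (nat_lit 0) (.e (nat_lit 274965) (nat_lit 0) .nil) .nil))) 
(.lf (nat_lit 543740) (.g (nat_lit 681) (.e (nat_lit 98367) (nat_lit 27) (.e (nat_lit 434248) (nat_lit 28) (.e (nat_lit 573480) (nat_lit 13) .nil))) (.g (nat_lit 0) (.e (nat_lit 275578) (nat_lit 0) .nil) .nil))))))))))) (.nd (nat_lit 2) (.nd (nat_lit 3) (.nd (nat_lit 4) (.nd (nat_lit 5) (.nd (nat_lit 6) (.nd (nat_lit 7) (.nd (nat_lit 8) (.nd (nat_lit 9) 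
(.lf (nat_lit 542722) (.g (nat_lit 2684) (.e (nat_lit 98349) (nat_lit 24) (.e (nat_lit 409644) (nat_lit 18) (.e (nat_lit 303119) (nat_lit 3) (.e (nat_lit 204855) (nat_lit 26) (.e (nat_lit 336097) (nat_lit 9) .nil))))) (.g (nat_lit 0) (.e (nat_lit 274354) (nat_lit 0) .nil) .nil))) 
(.lf (nat_lit 543234) (.g (nat_lit 526) (.e (nat_lit 98364) (nat_lit 26) (.e (nat_lit 426325) (nat_lit 13) (.e (nat_lit 491264) (nat_lit 7) .nil))) (.g (nat_lit 0) (.e (nat_lit 274971) (nat_lit 0) .nil) .nil)))) (.nd (nat_lit 9) 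
(.lf (nat_lit 542978) (.g (nat_lit 3006) (.e (nat_lit 98353) (nat_lit 25) (.e (nat_lit 417813) (nat_lit 9) (.e (nat_lit 311315) (nat_lit 3) (.e (nat_lit 204846) (nat_lit 24) (.e (nat_lit 319531) (nat_lit 16) (.e (nat_lit 286735) (nat_lit 3) .nil)))))) (.g (nat_lit 1) (.e (nat_lit 274664) (nat_lit 0) .nil) .nil))) 
(.lf (nat_lit 543490) (.g (nat_lit 1648) (.e (nat_lit 98366) (nat_lit 27) (.e (nat_lit 434231) (nat_lit 23) (.e (nat_lit 532514) (nat_lit 3) (.e (nat_lit 114715) (nat_lit 22) (.e (nat_lit 90165) (nat_lit 12) .nil))))) (.g (nat_lit 0) (.e (nat_lit 275268) (nat_lit 0) .nil) .nil))))) (.nd (nat_lit 8) (.nd (nat_lit 9) 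
(.lf (nat_lit 542850) (.g (nat_lit 3040) (.e (nat_lit 98350) (nat_lit 24) (.e (nat_lit 409646) (nat_lit 18) (.e (nat_lit 303117) (nat_lit 2) (.e (nat_lit 196681) (nat_lit 17) (.e (nat_lit 131104) (nat_lit 9) .nil))))) (.g (nat_lit 0) (.e (nat_lit 274499) (nat_lit 0) .nil) .nil))) 
(.lf (nat_lit 543362) (.g (nat_lit 1724) (.e (nat_lit 98365) (nat_lit 26) (.e (nat_lit 426325) (nat_lit 13) (.e (nat_lit 483337) (nat_lit 9) (.e (nat_lit 426011) (nat_lit 0) .nil)))) (.g (nat_lit 0) (.e (nat_lit 275110) (nat_lit 0) .nil) .nil)))) (.nd (nat_lit 9) 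
(.lf (nat_lit 543106) (.g (nat_lit 2306) (.e (nat_lit 98358) (nat_lit 26) (.e (nat_lit 426436) (nat_lit 18) (.e (nat_lit 98356) (nat_lit 26) (.e (nat_lit 426428) (nat_lit 17) (.e (nat_lit 90133) (nat_lit 9) (.e (nat_lit 2900) (nat_lit 184) (.e (nat_lit 426435) (nat_lit 18) .nil))))))) (.g (nat_lit 1) (.e (nat_lit 274823) (nat_lit 0) .nil) .nil))) 
(.lf (nat_lit 543618) (.g (nat_lit 4650) (.e (nat_lit 98367) (nat_lit 27) (.e (nat_lit 434231) (nat_lit 23) (.e (nat_lit 532500) (nat_lit 1) (.e (nat_lit 57692) (nat_lit 156) (.e (nat_lit 163874) (nat_lit 3) (.e (nat_lit 204837) (nat_lit 20) (.e (nat_lit 114718) (nat_lit 23) .nil))))))) (.g (nat_lit 1) (.e (nat_lit 275440) (nat_lit 0) .nil) .nil)))))) 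
(.nd (nat_lit 7) (.nd (nat_lit 8) (.nd (nat_lit 9) 
(.lf (nat_lit 542786) (.g (nat_lit 836) (.e (nat_lit 98349) (nat_lit 24) (.e (nat_lit 409649) (nat_lit 18) (.e (nat_lit 303104) (nat_lit 0) .nil))) (.g (nat_lit 0) (.e (nat_lit 274422) (nat_lit 0) .nil) .nil))) 
(.lf (nat_lit 543298) (.g (nat_lit 2404) (.e (nat_lit 98365) (nat_lit 26) (.e (nat_lit 426278) (nat_lit 10) (.e (nat_lit 434247) (nat_lit 28) (.e (nat_lit 573478) (nat_lit 12) (.e (nat_lit 57574) (nat_lit 55) (.e (nat_lit 778466) (nat_lit 11) (.e (nat_lit 24608) (nat_lit 3) .nil))))))) (.g (nat_lit 1) (.e (nat_lit 275043) (nat_lit 0) .nil) .nil)))) (.nd (nat_lit 9) 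
(.lf (nat_lit 543042) (.g (nat_lit 2821) (.e (nat_lit 98356) (nat_lit 26) (.e (nat_lit 426438) (nat_lit 18) (.e (nat_lit 98335) (nat_lit 18) (.e (nat_lit 164330) (nat_lit 230) (.e (nat_lit 163873) (nat_lit 3) (.e (nat_lit 204838) (nat_lit 20) (.e (nat_lit 114719) (nat_lit 23) .nil))))))) (.g (nat_lit 1) (.e (nat_lit 274754) (nat_lit 0) .nil) .nil))) 
(.lf (nat_lit 543554) (.g (nat_lit 2853) (.e (nat_lit 98366) (nat_lit 27) (.e (nat_lit 434245) (nat_lit 28) (.e (nat_lit 573488) (nat_lit 14) (.e (nat_lit 73755) (nat_lit 8) (.e (nat_lit 557119) (nat_lit 18) (.e (nat_lit 2797) (nat_lit 180) (.e (nat_lit 311040) (nat_lit 18) .nil))))))) (.g (nat_lit 1) (.e (nat_lit 275346) (nat_lit 0) .nil) .nil))))) (.nd (nat_lit 8) (.nd (nat_lit 9) 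
(.lf (nat_lit 542914) (.g (nat_lit 2566) (.e (nat_lit 98350) (nat_lit 24) (.e (nat_lit 409648) (nat_lit 18) (.e (nat_lit 303118) (nat_lit 3) (.e (nat_lit 204855) (nat_lit 26) (.e (nat_lit 336083) (nat_lit 9) .nil))))) (.g (nat_lit 0) (.e (nat_lit 274565) (nat_lit 0) .nil) .nil))) 
(.lf (nat_lit 543426) (.g (nat_lit 2341) (.e (nat_lit 106240) (nat_lit 26) (.e (nat_lit 426265) (nat_lit 9) (.e (nat_lit 426139) (nat_lit 3) (.e (nat_lit 204846) (nat_lit 24) (.e (nat_lit 319528) (nat_lit 16) .nil))))) (.g (nat_lit 0) (.e (nat_lit 275175) (nat_lit 0) .nil) .nil)))) (.nd (nat_lit 9) 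
(.lf (nat_lit 543170) (.g (nat_lit 3290) (.e (nat_lit 98359) (nat_lit 26) (.e (nat_lit 426324) (nat_lit 13) (.e (nat_lit 483363) (nat_lit 18) (.e (nat_lit 57691) (nat_lit 156) (.e (nat_lit 163907) (nat_lit 12) (.e (nat_lit 426437) (nat_lit 18) .nil)))))) (.g (nat_lit 1) (.e (nat_lit 274890) (nat_lit 0) .nil) .nil))) 
(.lf (nat_lit 543682) (.g (nat_lit 2565) (.e (nat_lit 98367) (nat_lit 27) (.e (nat_lit 434244) (nat_lit 28) (.e (nat_lit 573488) (nat_lit 14) (.e (nat_lit 73755) (nat_lit 8) (.e (nat_lit 557091) (nat_lit 12) .nil))))) (.g (nat_lit 0) (.e (nat_lit 275512) (nat_lit 0) .nil) .nil))))))) (.nd (nat_lit 6) (.nd (nat_lit 7) (.nd (nat_lit 8) (.nd (nat_lit 9) 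
(.lf (nat_lit 542754) (.g (nat_lit 1408) (.e (nat_lit 98349) (nat_lit 24) (.e (nat_lit 409646) (nat_lit 18) (.e (nat_lit 303117) (nat_lit 2) (.e (nat_lit 196665) (nat_lit 13) .nil)))) (.g (nat_lit 0) (.e (nat_lit 274390) (nat_lit 0) .nil) .nil))) 
(.lf (nat_lit 543266) (.g (nat_lit 2943) (.e (nat_lit 98365) (nat_lit 26) (.e (nat_lit 426188) (nat_lit 9) (.e (nat_lit 426436) (nat_lit 18) (.e (nat_lit 98338) (nat_lit 19) (.e (nat_lit 213030) (nat_lit 11) (.e (nat_lit 24608) (nat_lit 3) .nil)))))) (.g (nat_lit 1) (.e (nat_lit 275011) (nat_lit 0) .nil) .nil)))) (.nd (nat_lit 9) 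
(.lf (nat_lit 543010) (.g (nat_lit 2346) (.e (nat_lit 98355) (nat_lit 26) (.e (nat_lit 426131) (nat_lit 3) (.e (nat_lit 204838) (nat_lit 20) (.e (nat_lit 114719) (nat_lit 23) (.e (nat_lit 98332) (nat_lit 18) .nil))))) (.g (nat_lit 0) (.e (nat_lit 274718) (nat_lit 0) .nil) .nil))) 
(.lf (nat_lit 543522) (.g (nat_lit 1616) (.e (nat_lit 98366) (nat_lit 27) (.e (nat_lit 434244) (nat_lit 28) (.e (nat_lit 573481) (nat_lit 13) (.e (nat_lit 65571) (nat_lit 3) .nil)))) (.g (nat_lit 0) (.e (nat_lit 275308) (nat_lit 0) .nil) .nil))))) (.nd (nat_lit 8) (.nd (nat_lit 9) 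
(.lf (nat_lit 542882) (.g (nat_lit 1750) (.e (nat_lit 98350) (nat_lit 24) (.e (nat_lit 409648) (nat_lit 18) (.e (nat_lit 303116) (nat_lit 2) (.e (nat_lit 196666) (nat_lit 13) (.e (nat_lit 65599) (nat_lit 9) .nil))))) (.g (nat_lit 0) (.e (nat_lit 274532) (nat_lit 0) .nil) .nil))) 
(.lf (nat_lit 543394) (.g (nat_lit 4139) (.e (nat_lit 98365) (nat_lit 26) (.e (nat_lit 426325) (nat_lit 13) (.e (nat_lit 483363) (nat_lit 18) (.e (nat_lit 57688) (nat_lit 156) (.e (nat_lit 163907) (nat_lit 12) (.e (nat_lit 426437) (nat_lit 18) .nil)))))) (.g (nat_lit 1) (.e (nat_lit 275142) (nat_lit 0) .nil) .nil)))) (.nd (nat_lit 9) 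
(.lf (nat_lit 543138) (.g (nat_lit 4066) (.e (nat_lit 98359) (nat_lit 26) (.e (nat_lit 426286) (nat_lit 10) (.e (nat_lit 434245) (nat_lit 28) (.e (nat_lit 573475) (nat_lit 12) (.e (nat_lit 57572) (nat_lit 54) (.e (nat_lit 770072) (nat_lit 8) (.e (nat_lit 65571) (nat_lit 3) .nil))))))) (.g (nat_lit 1) (.e (nat_lit 274858) (nat_lit 0) .nil) .nil))) 
(.lf (nat_lit 543650) (.g (nat_lit 2336) (.e (nat_lit 98367) (nat_lit 27) (.e (nat_lit 434231) (nat_lit 23) (.e (nat_lit 532579) (nat_lit 26) (.e (nat_lit 426123) (nat_lit 2) (.e (nat_lit 196661) (nat_lit 12) .nil))))) (.g (nat_lit 0) (.e (nat_lit 275477) (nat_lit 0) .nil) .nil)))))) (.nd (nat_lit 7) (.nd (nat_lit 8) (.nd (nat_lit 9) 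
(.lf (nat_lit 542818) (.g (nat_lit 2491) (.e (nat_lit 98350) (nat_lit 24) (.e (nat_lit 409643) (nat_lit 18) (.e (nat_lit 303117) (nat_lit 2) (.e (nat_lit 196668) (nat_lit 14) (.e (nat_lit 81664) (nat_lit 40) (.e (nat_lit 1256) (nat_lit 92) .nil)))))) (.g (nat_lit 1) (.e (nat_lit 274466) (nat_lit 0) .nil) .nil))) 
(.lf (nat_lit 543330) (.g (nat_lit 1994) (.e (nat_lit 98365) (nat_lit 26) (.e (nat_lit 426306) (nat_lit 12) (.e (nat_lit 475178) (nat_lit 24) (.e (nat_lit 516126) (nat_lit 2) (.e (nat_lit 213030) (nat_lit 11) (.e (nat_lit 24609) (nat_lit 3) .nil)))))) (.g (nat_lit 1) (.e (nat_lit 275078) (nat_lit 0) .nil) .nil)))) (.nd (nat_lit 9) 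
(.lf (nat_lit 543074) (.g (nat_lit 408) (.e (nat_lit 98357) (nat_lit 26) (.e (nat_lit 426436) (nat_lit 18) (.e (nat_lit 98386) (nat_lit 32) .nil))) (.g (nat_lit 0) (.e (nat_lit 274791) (nat_lit 0) .nil) .nil))) 
(.lf (nat_lit 543586) (.g (nat_lit 1633) (.e (nat_lit 98366) (nat_lit 27) (.e (nat_lit 434248) (nat_lit 28) (.e (nat_lit 573489) (nat_lit 14) (.e (nat_lit 81664) (nat_lit 5) .nil)))) (.g (nat_lit 0) (.e (nat_lit 275382) (nat_lit 0) .nil) .nil))))) (.nd (nat_lit 8) (.nd (nat_lit 9) 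
(.lf (nat_lit 542946) (.g (nat_lit 2587) (.e (nat_lit 98350) (nat_lit 24) (.e (nat_lit 409649) (nat_lit 18) (.e (nat_lit 303118) (nat_lit 3) (.e (nat_lit 204855) (nat_lit 26) (.e (nat_lit 336073) (nat_lit 9) (.e (nat_lit 336019) (nat_lit 3) .nil)))))) (.g (nat_lit 1) (.e (nat_lit 274599) (nat_lit 0) .nil) .nil))) 
(.lf (nat_lit 543458) (.g (nat_lit 3261) (.e (nat_lit 98366) (nat_lit 27) (.e (nat_lit 434231) (nat_lit 23) (.e (nat_lit 532500) (nat_lit 1) (.e (nat_lit 57691) (nat_lit 156) (.e (nat_lit 163874) (nat_lit 3) .nil))))) (.g (nat_lit 0) (.e (nat_lit 275235) (nat_lit 0) .nil) .nil)))) (.nd (nat_lit 9) 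
(.lf (nat_lit 543202) (.g (nat_lit 2441) (.e (nat_lit 98363) (nat_lit 26) (.e (nat_lit 426318) (nat_lit 12) (.e (nat_lit 475177) (nat_lit 24) (.e (nat_lit 516131) (nat_lit 3) (.e (nat_lit 221193) (nat_lit 11) (.e (nat_lit 336027) (nat_lit 3) .nil)))))) (.g (nat_lit 1) (.e (nat_lit 274933) (nat_lit 0) .nil) .nil))) 
(.lf (nat_lit 543714) (.g (nat_lit 1786) (.e (nat_lit 98367) (nat_lit 27) (.e (nat_lit 434247) (nat_lit 28) (.e (nat_lit 573484) (nat_lit 13) (.e (nat_lit 73472) (nat_lit 17) .nil)))) (.g (nat_lit 0) (.e (nat_lit 275546) (nat_lit 0) .nil) .nil)))))))) (.nd (nat_lit 5) (.nd (nat_lit 6) (.nd (nat_lit 7) (.nd (nat_lit 8) (.nd (nat_lit 9) 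
(.lf (nat_lit 542738) (.g (nat_lit 2078) (.e (nat_lit 98349) (nat_lit 24) (.e (nat_lit 409645) (nat_lit 18) (.e (nat_lit 303117) (nat_lit 2) (.e (nat_lit 196681) (nat_lit 17) (.e (nat_lit 131105) (nat_lit 9) .nil))))) (.g (nat_lit 0) (.e (nat_lit 274371) (nat_lit 0) .nil) .nil))) 
(.lf (nat_lit 543250) (.g (nat_lit 3006) (.e (nat_lit 98365) (nat_lit 26) (.e (nat_lit 426187) (nat_lit 9) (.e (nat_lit 426436) (nat_lit 18) (.e (nat_lit 98337) (nat_lit 19) (.e (nat_lit 213032) (nat_lit 11) (.e (nat_lit 24607) (nat_lit 3) .nil)))))) (.g (nat_lit 1) (.e (nat_lit 274995) (nat_lit 0) .nil) .nil)))) (.nd (nat_lit 9) 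
(.lf (nat_lit 542994) (.g (nat_lit 905) (.e (nat_lit 98354) (nat_lit 26) (.e (nat_lit 426317) (nat_lit 12) (.e (nat_lit 475177) (nat_lit 24) (.e (nat_lit 516131) (nat_lit 3) .nil)))) (.g (nat_lit 0) (.e (nat_lit 274698) (nat_lit 0) .nil) .nil))) 
(.lf (nat_lit 543506) (.g (nat_lit 2674) (.e (nat_lit 98366) (nat_lit 27) (.e (nat_lit 434231) (nat_lit 23) (.e (nat_lit 532515) (nat_lit 3) (.e (nat_lit 114719) (nat_lit 23) (.e (nat_lit 98335) (nat_lit 18) .nil))))) (.g (nat_lit 0) (.e (nat_lit 275285) (nat_lit 0) .nil) .nil))))) (.nd (nat_lit 8) (.nd (nat_lit 9) 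
(.lf (nat_lit 542866) (.g (nat_lit 2647) (.e (nat_lit 98350) (nat_lit 24) (.e (nat_lit 409646) (nat_lit 18) (.e (nat_lit 303119) (nat_lit 3) (.e (nat_lit 204855) (nat_lit 26) (.e (nat_lit 336111) (nat_lit 9) (.e (nat_lit 336028) (nat_lit 3) .nil)))))) (.g (nat_lit 1) (.e (nat_lit 274515) (nat_lit 0) .nil) .nil))) 
(.lf (nat_lit 543378) (.g (nat_lit 2030) (.e (nat_lit 98365) (nat_lit 26) (.e (nat_lit 426325) (nat_lit 13) (.e (nat_lit 483341) (nat_lit 9) (.e (nat_lit 426014) (nat_lit 0) .nil)))) (.g (nat_lit 0) (.e (nat_lit 275126) (nat_lit 0) .nil) .nil)))) (.nd (nat_lit 9) 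
(.lf (nat_lit 543122) (.g (nat_lit 2304) (.e (nat_lit 98359) (nat_lit 26) (.e (nat_lit 426286) (nat_lit 10) (.e (nat_lit 434245) (nat_lit 28) (.e (nat_lit 573470) (nat_lit 11) (.e (nat_lit 16473) (nat_lit 14) (.e (nat_lit 499456) (nat_lit 3) .nil)))))) (.g (nat_lit 1) (.e (nat_lit 274842) (nat_lit 0) .nil) .nil))) 
(.lf (nat_lit 543634) (.g (nat_lit 1090) (.e (nat_lit 98367) (nat_lit 27) (.e (nat_lit 434231) (nat_lit 23) (.e (nat_lit 532514) (nat_lit 3) (.e (nat_lit 114716) (nat_lit 22) .nil)))) (.g (nat_lit 0) (.e (nat_lit 275461) (nat_lit 0) .nil) .nil)))))) (.nd (nat_lit 7) (.nd (nat_lit 8) (.nd (nat_lit 9) 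
(.lf (nat_lit 542802) (.g (nat_lit 475) (.e (nat_lit 98350) (nat_lit 24) (.e (nat_lit 409616) (nat_lit 10) (.e (nat_lit 5710) (nat_lit 312) .nil))) (.g (nat_lit 0) (.e (nat_lit 274443) (nat_lit 0) .nil) .nil))) 
(.lf (nat_lit 543314) (.g (nat_lit 2135) (.e (nat_lit 98365) (nat_lit 26) (.e (nat_lit 426306) (nat_lit 12) (.e (nat_lit 475177) (nat_lit 24) (.e (nat_lit 516125) (nat_lit 2) (.e (nat_lit 213030) (nat_lit 11) (.e (nat_lit 24609) (nat_lit 3) .nil)))))) (.g (nat_lit 1) (.e (nat_lit 275062) (nat_lit 0) .nil) .nil)))) (.nd (nat_lit 9) 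
(.lf (nat_lit 543058) (.g (nat_lit 4529) (.e (nat_lit 98357) (nat_lit 26) (.e (nat_lit 426436) (nat_lit 18) (.e (nat_lit 98335) (nat_lit 18) (.e (nat_lit 164322) (nat_lit 230) .nil)))) (.g (nat_lit 0) (.e (nat_lit 274772) (nat_lit 0) .nil) .nil))) 
(.lf (nat_lit 543570) (.g (nat_lit 478) (.e (nat_lit 98366) (nat_lit 27) (.e (nat_lit 434248) (nat_lit 28) (.e (nat_lit 573480) (nat_lit 13) .nil))) (.g (nat_lit 0) (.e (nat_lit 275364) (nat_lit 0) .nil) .nil))))) (.nd (nat_lit 8) (.nd (nat_lit 9) 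
(.lf (nat_lit 542930) (.g (nat_lit 1945) (.e (nat_lit 98350) (nat_lit 24) (.e (nat_lit 409649) (nat_lit 18) (.e (nat_lit 303116) (nat_lit 2) (.e (nat_lit 196666) (nat_lit 13) (.e (nat_lit 65596) (nat_lit 9) .nil))))) (.g (nat_lit 0) (.e (nat_lit 274583) (nat_lit 0) .nil) .nil))) 
(.lf (nat_lit 543442) (.g (nat_lit 2433) (.e (nat_lit 98366) (nat_lit 27) (.e (nat_lit 434231) (nat_lit 23) (.e (nat_lit 532499) (nat_lit 1) (.e (nat_lit 57657) (nat_lit 152) .nil)))) (.g (nat_lit 0) (.e (nat_lit 275210) (nat_lit 0) .nil) .nil)))) (.nd (nat_lit 9) 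
(.lf (nat_lit 543186) (.g (nat_lit 2032) (.e (nat_lit 98362) (nat_lit 26) (.e (nat_lit 426412) (nat_lit 15) (.e (nat_lit 2058) (nat_lit 142) (.e (nat_lit 704589) (nat_lit 3) (.e (nat_lit 163975) (nat_lit 30) .nil))))) (.g (nat_lit 0) (.e (nat_lit 274913) (nat_lit 0) .nil) .nil))) 
(.lf (nat_lit 543698) (.g (nat_lit 1107) (.e (nat_lit 98367) (nat_lit 27) (.e (nat_lit 434246) (nat_lit 28) (.e (nat_lit 573482) (nat_lit 13) (.e (nat_lit 73472) (nat_lit 18) .nil)))) (.g (nat_lit 0) (.e (nat_lit 275529) (nat_lit 0) .nil) .nil))))))) (.nd (nat_lit 6) (.nd (nat_lit 7) (.nd (nat_lit 8) (.nd (nat_lit 9) 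
(.lf (nat_lit 542770) (.g (nat_lit 4252) (.e (nat_lit 98349) (nat_lit 24) (.e (nat_lit 409646) (nat_lit 18) (.e (nat_lit 303119) (nat_lit 3) (.e (nat_lit 204855) (nat_lit 26) (.e (nat_lit 336111) (nat_lit 9) (.e (nat_lit 336028) (nat_lit 3) .nil)))))) (.g (nat_lit 1) (.e (nat_lit 274406) (nat_lit 0) .nil) .nil))) 
(.lf (nat_lit 543282) (.g (nat_lit 4137) (.e (nat_lit 98365) (nat_lit 26) (.e (nat_lit 426188) (nat_lit 9) (.e (nat_lit 426566) (nat_lit 34) (.e (nat_lit 393251) (nat_lit 18) (.e (nat_lit 164398) (nat_lit 256) (.e (nat_lit 57378) (nat_lit 3) .nil)))))) (.g (nat_lit 1) (.e (nat_lit 275027) (nat_lit 0) .nil) .nil)))) (.nd (nat_lit 9) 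
(.lf (nat_lit 543026) (.g (nat_lit 2254) (.e (nat_lit 98356) (nat_lit 26) (.e (nat_lit 426436) (nat_lit 18) (.e (nat_lit 98356) (nat_lit 26) (.e (nat_lit 426428) (nat_lit 17) (.e (nat_lit 90133) (nat_lit 9) (.e (nat_lit 2898) (nat_lit 184) (.e (nat_lit 426435) (nat_lit 18) .nil))))))) (.g (nat_lit 1) (.e (nat_lit 274738) (nat_lit 0) .nil) .nil))) 
(.lf (nat_lit 543538) (.g (nat_lit 451) (.e (nat_lit 98366) (nat_lit 27) (.e (nat_lit 434244) (nat_lit 28) (.e (nat_lit 573488) (nat_lit 14) .nil))) (.g (nat_lit 0) (.e (nat_lit 275327) (nat_lit 0) .nil) .nil))))) (.nd (nat_lit 8) (.nd (nat_lit 9) 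
(.lf (nat_lit 542898) (.g (nat_lit 3824) (.e (nat_lit 98350) (nat_lit 24) (.e (nat_lit 409648) (nat_lit 18) (.e (nat_lit 303117) (nat_lit 2) (.e (nat_lit 196666) (nat_lit 13) (.e (nat_lit 65605) (nat_lit 9) (.e (nat_lit 336028) (nat_lit 3) .nil)))))) (.g (nat_lit 1) (.e (nat_lit 274549) (nat_lit 0) .nil) .nil))) 
(.lf (nat_lit 543410) (.g (nat_lit 3130) (.e (nat_lit 98365) (nat_lit 26) (.e (nat_lit 426327) (nat_lit 13) (.e (nat_lit 483341) (nat_lit 9) (.e (nat_lit 426108) (nat_lit 1) (.e (nat_lit 164403) (nat_lit 256) (.e (nat_lit 57377) (nat_lit 3) .nil)))))) (.g (nat_lit 1) (.e (nat_lit 275158) (nat_lit 0) .nil) .nil)))) (.nd (nat_lit 9) 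
(.lf (nat_lit 543154) (.g (nat_lit 2219) (.e (nat_lit 98359) (nat_lit 26) (.e (nat_lit 426286) (nat_lit 10) (.e (nat_lit 434248) (nat_lit 28) (.e (nat_lit 573449) (nat_lit 9) (.e (nat_lit 974) (nat_lit 81) .nil))))) (.g (nat_lit 0) (.e (nat_lit 274874) (nat_lit 0) .nil) .nil))) 
(.lf (nat_lit 543666) (.g (nat_lit 1560) (.e (nat_lit 98367) (nat_lit 27) (.e (nat_lit 434244) (nat_lit 28) (.e (nat_lit 573481) (nat_lit 13) (.e (nat_lit 65577) (nat_lit 5) .nil)))) (.g (nat_lit 0) (.e (nat_lit 275496) (nat_lit 0) .nil) .nil)))))) (.nd (nat_lit 7) (.nd (nat_lit 8) (.nd (nat_lit 9) 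
(.lf (nat_lit 542834) (.g (nat_lit 1307) (.e (nat_lit 98350) (nat_lit 24) (.e (nat_lit 409645) (nat_lit 18) (.e (nat_lit 303118) (nat_lit 3) (.e (nat_lit 204855) (nat_lit 26) .nil)))) (.g (nat_lit 0) (.e (nat_lit 274483) (nat_lit 0) .nil) .nil))) 
(.lf (nat_lit 543346) (.g (nat_lit 2203) (.e (nat_lit 98365) (nat_lit 26) (.e (nat_lit 426306) (nat_lit 12) (.e (nat_lit 475179) (nat_lit 24) (.e (nat_lit 516129) (nat_lit 3) (.e (nat_lit 229120) (nat_lit 11) (.e (nat_lit 336020) (nat_lit 3) .nil)))))) (.g (nat_lit 1) (.e (nat_lit 275094) (nat_lit 0) .nil) .nil)))) (.nd (nat_lit 9) 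
(.lf (nat_lit 543090) (.g (nat_lit 377) (.e (nat_lit 98358) (nat_lit 26) (.e (nat_lit 426323) (nat_lit 13) (.e (nat_lit 483336) (nat_lit 9) .nil))) (.g (nat_lit 0) (.e (nat_lit 274807) (nat_lit 0) .nil) .nil))) 
(.lf (nat_lit 543602) (.g (nat_lit 1777) (.e (nat_lit 98367) (nat_lit 27) (.e (nat_lit 434231) (nat_lit 23) (.e (nat_lit 532499) (nat_lit 1) (.e (nat_lit 57655) (nat_lit 152) .nil)))) (.g (nat_lit 0) (.e (nat_lit 275416) (nat_lit 0) .nil) .nil))))) (.nd (nat_lit 8) (.nd (nat_lit 9) 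
(.lf (nat_lit 542962) (.g (nat_lit 2988) (.e (nat_lit 98350) (nat_lit 24) (.e (nat_lit 409649) (nat_lit 18) (.e (nat_lit 303119) (nat_lit 3) (.e (nat_lit 204855) (nat_lit 26) (.e (nat_lit 336097) (nat_lit 9) (.e (nat_lit 336024) (nat_lit 3) .nil)))))) (.g (nat_lit 1) (.e (nat_lit 274616) (nat_lit 0) .nil) .nil))) 
(.lf (nat_lit 543474) (.g (nat_lit 1457) (.e (nat_lit 98366) (nat_lit 27) (.e (nat_lit 434231) (nat_lit 23) (.e (nat_lit 532506) (nat_lit 2) (.e (nat_lit 106539) (nat_lit 12) .nil)))) (.g (nat_lit 0) (.e (nat_lit 275252) (nat_lit 0) .nil) .nil)))) (.nd (nat_lit 9) 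
(.lf (nat_lit 543218) (.g (nat_lit 2480) (.e (nat_lit 98363) (nat_lit 26) (.e (nat_lit 426321) (nat_lit 13) (.e (nat_lit 483341) (nat_lit 9) (.e (nat_lit 426098) (nat_lit 1) (.e (nat_lit 164399) (nat_lit 256) (.e (nat_lit 57379) (nat_lit 3) .nil)))))) (.g (nat_lit 1) (.e (nat_lit 274950) (nat_lit 0) .nil) .nil))) 
(.lf (nat_lit 543730) (.g (nat_lit 4556) (.e (nat_lit 98367) (nat_lit 27) (.e (nat_lit 434247) (nat_lit 28) (.e (nat_lit 573489) (nat_lit 14) (.e (nat_lit 73755) (nat_lit 8) (.e (nat_lit 557090) (nat_lit 12) (.e (nat_lit 163850) (nat_lit 0) (.e (nat_lit 5939) (nat_lit 322) (.e (nat_lit 57379) (nat_lit 3) .nil)))))))) (.g (nat_lit 1) (.e (nat_lit 275564) (nat_lit 0) .nil) .nil))))))))) 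
(.nd (nat_lit 4) (.nd (nat_lit 5) (.nd (nat_lit 6) (.nd (nat_lit 7) (.nd (nat_lit 8) 
(.nd (nat_lit 9) 
(.lf (nat_lit 542730) (.g (nat_lit 2551) (.e (nat_lit 98349) (nat_lit 24) (.e (nat_lit 409645) (nat_lit 18) (.e (nat_lit 303117) (nat_lit 2) (.e (nat_lit 196666) (nat_lit 13) (.e (nat_lit 65596) (nat_lit 9) .nil))))) (.g (nat_lit 0) (.e (nat_lit 274363) (nat_lit 0) .nil) .nil))) 
(.lf (nat_lit 543242) (.g (nat_lit 4271) (.e (nat_lit 98365) (nat_lit 26) (.e (nat_lit 426133) (nat_lit 3) (.e (nat_lit 204809) (nat_lit 9) (.e (nat_lit 426139) (nat_lit 3) (.e (nat_lit 204829) (nat_lit 18) (.e (nat_lit 57692) (nat_lit 156) (.e (nat_lit 171776) (nat_lit 64) .nil))))))) (.g (nat_lit 1) (.e (nat_lit 274987) (nat_lit 0) .nil) .nil)))) (.nd (nat_lit 9) 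
(.lf (nat_lit 542986) (.g (nat_lit 5377) (.e (nat_lit 98353) (nat_lit 25) (.e (nat_lit 417820) (nat_lit 10) (.e (nat_lit 5626) (nat_lit 312) (.e (nat_lit 2668) (nat_lit 167) (.e (nat_lit 196672) (nat_lit 15) (.e (nat_lit 81954) (nat_lit 23) .nil)))))) (.g (nat_lit 1) (.e (nat_lit 274675) (nat_lit 0) .nil) .nil))) 
(.lf (nat_lit 543498) (.g (nat_lit 1145) (.e (nat_lit 98366) (nat_lit 27) (.e (nat_lit 434231) (nat_lit 23) (.e (nat_lit 532514) (nat_lit 3) (.e (nat_lit 114719) (nat_lit 23) .nil)))) (.g (nat_lit 0) (.e (nat_lit 275276) (nat_lit 0) .nil) .nil))))) (.nd (nat_lit 8) (.nd (nat_lit 9) 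
(.lf (nat_lit 542858) (.g (nat_lit 1420) (.e (nat_lit 98350) (nat_lit 24) (.e (nat_lit 409646) (nat_lit 18) (.e (nat_lit 303119) (nat_lit 3) (.e (nat_lit 204852) (nat_lit 26) .nil)))) (.g (nat_lit 0) (.e (nat_lit 274507) (nat_lit 0) .nil) .nil))) 
(.lf (nat_lit 543370) (.g (nat_lit 2244) (.e (nat_lit 98365) (nat_lit 26) (.e (nat_lit 426325) (nat_lit 13) (.e (nat_lit 483337) (nat_lit 9) (.e (nat_lit 426100) (nat_lit 1) (.e (nat_lit 164396) (nat_lit 256) (.e (nat_lit 57377) (nat_lit 3) .nil)))))) (.g (nat_lit 1) (.e (nat_lit 275118) (nat_lit 0) .nil) .nil)))) (.nd (nat_lit 9) 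
(.lf (nat_lit 543114) (.g (nat_lit 2171) (.e (nat_lit 98359) (nat_lit 26) (.e (nat_lit 426132) (nat_lit 3) (.e (nat_lit 204829) (nat_lit 18) (.e (nat_lit 57688) (nat_lit 156) (.e (nat_lit 163873) (nat_lit 3) .nil))))) (.g (nat_lit 0) (.e (nat_lit 274833) (nat_lit 0) .nil) .nil))) 
(.lf (nat_lit 543626) (.g (nat_lit 514) (.e (nat_lit 98367) (nat_lit 27) (.e (nat_lit 434231) (nat_lit 23) (.e (nat_lit 532513) (nat_lit 3) .nil))) (.g (nat_lit 0) (.e (nat_lit 275451) (nat_lit 0) .nil) .nil)))))) (.nd (nat_lit 7) (.nd (nat_lit 8) (.nd (nat_lit 9) 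
(.lf (nat_lit 542794) (.g (nat_lit 2609) (.e (nat_lit 98350) (nat_lit 24) (.e (nat_lit 409602) (nat_lit 0) (.e (nat_lit 5259) (nat_lit 298) (.e (nat_lit 496) (nat_lit 39) (.e (nat_lit 483413) (nat_lit 27) (.e (nat_lit 409344) (nat_lit 18) .nil)))))) (.g (nat_lit 1) (.e (nat_lit 274431) (nat_lit 0) .nil) .nil))) 
(.lf (nat_lit 543306) (.g (nat_lit 1325) (.e (nat_lit 98365) (nat_lit 26) (.e (nat_lit 426298) (nat_lit 11) (.e (nat_lit 458789) (nat_lit 23) (.e (nat_lit 532524) (nat_lit 8) .nil)))) (.g (nat_lit 0) (.e (nat_lit 275054) (nat_lit 0) .nil) .nil)))) (.nd (nat_lit 9) 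
(.lf (nat_lit 543050) (.g (nat_lit 2658) (.e (nat_lit 98357) (nat_lit 26) (.e (nat_lit 426131) (nat_lit 3) (.e (nat_lit 204838) (nat_lit 20) (.e (nat_lit 114716) (nat_lit 22) (.e (nat_lit 90181) (nat_lit 16) .nil))))) (.g (nat_lit 0) (.e (nat_lit 274762) (nat_lit 0) .nil) .nil))) 
(.lf (nat_lit 543562) (.g (nat_lit 1752) (.e (nat_lit 98366) (nat_lit 27) (.e (nat_lit 434247) (nat_lit 28) (.e (nat_lit 573485) (nat_lit 13) (.e (nat_lit 65569) (nat_lit 3) (.e (nat_lit 98325) (nat_lit 17) .nil))))) (.g (nat_lit 0) (.e (nat_lit 275355) (nat_lit 0) .nil) .nil))))) (.nd (nat_lit 8) (.nd (nat_lit 9) 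
(.lf (nat_lit 542922) (.g (nat_lit 3982) (.e (nat_lit 98350) (nat_lit 24) (.e (nat_lit 409648) (nat_lit 18) (.e (nat_lit 303119) (nat_lit 3) (.e (nat_lit 204855) (nat_lit 26) (.e (nat_lit 336073) (nat_lit 9) (.e (nat_lit 336028) (nat_lit 3) .nil)))))) (.g (nat_lit 1) (.e (nat_lit 274573) (nat_lit 0) .nil) .nil))) 
(.lf (nat_lit 543434) (.g (nat_lit 542) (.e (nat_lit 98366) (nat_lit 27) (.e (nat_lit 434231) (nat_lit 23) (.e (nat_lit 532481) (nat_lit 0) .nil))) (.g (nat_lit 0) (.e (nat_lit 275196) (nat_lit 0) .nil) .nil)))) (.nd (nat_lit 9) 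
(.lf (nat_lit 543178) (.g (nat_lit 4048) (.e (nat_lit 98361) (nat_lit 26) (.e (nat_lit 426340) (nat_lit 14) (.e (nat_lit 491537) (nat_lit 2) (.e (nat_lit 90170) (nat_lit 13) (.e (nat_lit 172126) (nat_lit 14) (.e (nat_lit 491540) (nat_lit 3) .nil)))))) (.g (nat_lit 1) (.e (nat_lit 274902) (nat_lit 0) .nil) .nil))) 
(.lf (nat_lit 543690) (.g (nat_lit 2128) (.e (nat_lit 98367) (nat_lit 27) (.e (nat_lit 434245) (nat_lit 28) (.e (nat_lit 573487) (nat_lit 14) (.e (nat_lit 73753) (nat_lit 8) (.e (nat_lit 557119) (nat_lit 18) (.e (nat_lit 2798) (nat_lit 180) (.e (nat_lit 311040) (nat_lit 18) .nil))))))) (.g (nat_lit 1) (.e (nat_lit 275520) (nat_lit 0) .nil) .nil))))))) 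
(.nd (nat_lit 6) (.nd (nat_lit 7) (.nd (nat_lit 8) (.nd (nat_lit 9) 
(.lf (nat_lit 542762) (.g (nat_lit 1489) (.e (nat_lit 98349) (nat_lit 24) (.e (nat_lit 409646) (nat_lit 18) (.e (nat_lit 303119) (nat_lit 3) (.e (nat_lit 204852) (nat_lit 26) .nil)))) (.g (nat_lit 0) (.e (nat_lit 274398) (nat_lit 0) .nil) .nil))) 
(.lf (nat_lit 543274) (.g (nat_lit 2772) (.e (nat_lit 98365) (nat_lit 26) (.e (nat_lit 426188) (nat_lit 9) (.e (nat_lit 426438) (nat_lit 18) (.e (nat_lit 98339) (nat_lit 19) (.e (nat_lit 213032) (nat_lit 11) (.e (nat_lit 24609) (nat_lit 3) .nil)))))) (.g (nat_lit 1) (.e (nat_lit 275019) (nat_lit 0) .nil) .nil)))) (.nd (nat_lit 9) 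
(.lf (nat_lit 543018) (.g (nat_lit 3961) (.e (nat_lit 98356) (nat_lit 26) (.e (nat_lit 426436) (nat_lit 18) (.e (nat_lit 98335) (nat_lit 18) (.e (nat_lit 164304) (nat_lit 226) .nil)))) (.g (nat_lit 0) (.e (nat_lit 274728) (nat_lit 0) .nil) .nil))) 
(.lf (nat_lit 543530) (.g (nat_lit 2457) (.e (nat_lit 98366) (nat_lit 27) (.e (nat_lit 434244) (nat_lit 28) (.e (nat_lit 573487) (nat_lit 14) (.e (nat_lit 73746) (nat_lit 3) (.e (nat_lit 516117) (nat_lit 1) .nil))))) (.g (nat_lit 0) (.e (nat_lit 275317) (nat_lit 0) .nil) .nil))))) (.nd (nat_lit 8) (.nd (nat_lit 9) 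
(.lf (nat_lit 542890) (.g (nat_lit 719) (.e (nat_lit 98350) (nat_lit 24) (.e (nat_lit 409648) (nat_lit 18) (.e (nat_lit 303117) (nat_lit 2) (.e (nat_lit 196666) (nat_lit 13) .nil)))) (.g (nat_lit 0) (.e (nat_lit 274541) (nat_lit 0) .nil) .nil))) 
(.lf (nat_lit 543402) (.g (nat_lit 1257) (.e (nat_lit 98365) (nat_lit 26) (.e (nat_lit 426325) (nat_lit 13) (.e (nat_lit 483364) (nat_lit 18) .nil))) (.g (nat_lit 0) (.e (nat_lit 275150) (nat_lit 0) .nil) .nil)))) (.nd (nat_lit 9) 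
(.lf (nat_lit 543146) (.g (nat_lit 2594) (.e (nat_lit 98359) (nat_lit 26) (.e (nat_lit 426286) (nat_lit 10) (.e (nat_lit 434247) (nat_lit 28) (.e (nat_lit 573477) (nat_lit 12) (.e (nat_lit 57575) (nat_lit 55) (.e (nat_lit 778463) (nat_lit 11) (.e (nat_lit 32512) (nat_lit 3) .nil))))))) (.g (nat_lit 1) (.e (nat_lit 274866) (nat_lit 0) .nil) .nil))) 
(.lf (nat_lit 543658) (.g (nat_lit 3588) (.e (nat_lit 98367) (nat_lit 27) (.e (nat_lit 434232) (nat_lit 23) (.e (nat_lit 532504) (nat_lit 1) (.e (nat_lit 57691) (nat_lit 156) (.e (nat_lit 163875) (nat_lit 3) (.e (nat_lit 204836) (nat_lit 20) (.e (nat_lit 114719) (nat_lit 23) .nil))))))) (.g (nat_lit 1) (.e (nat_lit 275487) (nat_lit 0) .nil) .nil)))))) 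
(.nd (nat_lit 7) (.nd (nat_lit 8) (.nd (nat_lit 9) 
(.lf (nat_lit 542826) (.g (nat_lit 1454) (.e (nat_lit 98350) (nat_lit 24) (.e (nat_lit 409644) (nat_lit 18) (.e (nat_lit 303119) (nat_lit 3) (.e (nat_lit 204855) (nat_lit 26) .nil)))) (.g (nat_lit 0) (.e (nat_lit 274474) (nat_lit 0) .nil) .nil))) 
(.lf (nat_lit 543338) (.g (nat_lit 2610) (.e (nat_lit 98365) (nat_lit 26) (.e (nat_lit 426306) (nat_lit 12) (.e (nat_lit 475179) (nat_lit 24) (.e (nat_lit 516124) (nat_lit 2) (.e (nat_lit 213030) (nat_lit 11) (.e (nat_lit 24609) (nat_lit 3) .nil)))))) (.g (nat_lit 1) (.e (nat_lit 275086) (nat_lit 0) .nil) .nil)))) (.nd (nat_lit 9) 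
(.lf (nat_lit 543082) (.g (nat_lit 3013) (.e (nat_lit 98358) (nat_lit 26) (.e (nat_lit 426131) (nat_lit 3) (.e (nat_lit 204838) (nat_lit 20) (.e (nat_lit 114716) (nat_lit 22) (.e (nat_lit 90196) (nat_lit 18) (.e (nat_lit 2798) (nat_lit 180) (.e (nat_lit 311040) (nat_lit 18) .nil))))))) (.g (nat_lit 1) (.e (nat_lit 274799) (nat_lit 0) .nil) .nil))) 
(.lf (nat_lit 543594) (.g (nat_lit 3983) (.e (nat_lit 98366) (nat_lit 27) (.e (nat_lit 434248) (nat_lit 28) (.e (nat_lit 573489) (nat_lit 14) (.e (nat_lit 73755) (nat_lit 8) (.e (nat_lit 557119) (nat_lit 18) (.e (nat_lit 2797) (nat_lit 180) (.e (nat_lit 311040) (nat_lit 18) .nil))))))) (.g (nat_lit 1) (.e (nat_lit 275391) (nat_lit 0) .nil) .nil))))) (.nd (nat_lit 8) (.nd (nat_lit 9) 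
(.lf (nat_lit 542954) (.g (nat_lit 2636) (.e (nat_lit 98350) (nat_lit 24) (.e (nat_lit 409649) (nat_lit 18) (.e (nat_lit 303118) (nat_lit 3) (.e (nat_lit 204865) (nat_lit 28) (.e (nat_lit 352313) (nat_lit 23) .nil))))) (.g (nat_lit 1) (.e (nat_lit 274608) (nat_lit 0) .nil) .nil))) 
(.lf (nat_lit 543466) (.g (nat_lit 3087) (.e (nat_lit 98366) (nat_lit 27) (.e (nat_lit 434231) (nat_lit 23) (.e (nat_lit 532502) (nat_lit 1) (.e (nat_lit 57688) (nat_lit 156) (.e (nat_lit 163874) (nat_lit 3) (.e (nat_lit 204838) (nat_lit 20) (.e (nat_lit 114719) (nat_lit 23) .nil))))))) (.g (nat_lit 1) (.e (nat_lit 275244) (nat_lit 0) .nil) .nil)))) (.nd (nat_lit 9) 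
(.lf (nat_lit 543210) (.g (nat_lit 3521) (.e (nat_lit 98363) (nat_lit 26) (.e (nat_lit 426318) (nat_lit 12) (.e (nat_lit 475185) (nat_lit 29) (.e (nat_lit 557098) (nat_lit 13) (.e (nat_lit 172126) (nat_lit 14) (.e (nat_lit 491540) (nat_lit 3) .nil)))))) (.g (nat_lit 1) (.e (nat_lit 274942) (nat_lit 0) .nil) .nil))) 
(.lf (nat_lit 543722) (.g (nat_lit 1780) (.e (nat_lit 98367) (nat_lit 27) (.e (nat_lit 434247) (nat_lit 28) (.e (nat_lit 573489) (nat_lit 14) (.e (nat_lit 73754) (nat_lit 8) (.e (nat_lit 557093) (nat_lit 12) .nil))))) (.g (nat_lit 0) (.e (nat_lit 275554) (nat_lit 0) .nil) .nil)))))))) (.nd (nat_lit 5) (.nd (nat_lit 6) (.nd (nat_lit 7) (.nd (nat_lit 8) (.nd (nat_lit 9) 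
(.lf (nat_lit 542746) (.g (nat_lit 3741) (.e (nat_lit 98349) (nat_lit 24) (.e (nat_lit 409645) (nat_lit 18) (.e (nat_lit 303119) (nat_lit 3) (.e (nat_lit 204866) (nat_lit 28) (.e (nat_lit 352313) (nat_lit 23) .nil))))) (.g (nat_lit 1) (.e (nat_lit 274379) (nat_lit 0) .nil) .nil))) 
(.lf (nat_lit 543258) (.g (nat_lit 2308) (.e (nat_lit 98365) (nat_lit 26) (.e (nat_lit 426187) (nat_lit 9) (.e (nat_lit 426568) (nat_lit 34) (.e (nat_lit 393251) (nat_lit 18) (.e (nat_lit 164403) (nat_lit 256) (.e (nat_lit 57378) (nat_lit 3) .nil)))))) (.g (nat_lit 1) (.e (nat_lit 275003) (nat_lit 0) .nil) .nil)))) (.nd (nat_lit 9) 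
(.lf (nat_lit 543002) (.g (nat_lit 2160) (.e (nat_lit 98354) (nat_lit 26) (.e (nat_lit 426396) (nat_lit 15) (.e (nat_lit 2059) (nat_lit 142) (.e (nat_lit 704589) (nat_lit 3) (.e (nat_lit 163978) (nat_lit 30) .nil))))) (.g (nat_lit 0) (.e (nat_lit 274708) (nat_lit 0) .nil) .nil))) 
(.lf (nat_lit 543514) (.g (nat_lit 2147) (.e (nat_lit 98366) (nat_lit 27) (.e (nat_lit 434244) (nat_lit 28) (.e (nat_lit 573480) (nat_lit 13) (.e (nat_lit 65568) (nat_lit 2) (.e (nat_lit 98048) (nat_lit 0) .nil))))) (.g (nat_lit 0) (.e (nat_lit 275298) (nat_lit 0) .nil) .nil))))) (.nd (nat_lit 8) (.nd (nat_lit 9) 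
(.lf (nat_lit 542874) (.g (nat_lit 2137) (.e (nat_lit 98350) (nat_lit 24) (.e (nat_lit 409647) (nat_lit 18) (.e (nat_lit 303118) (nat_lit 3) (.e (nat_lit 204855) (nat_lit 26) (.e (nat_lit 336104) (nat_lit 9) .nil))))) (.g (nat_lit 0) (.e (nat_lit 274523) (nat_lit 0) .nil) .nil))) 
(.lf (nat_lit 543386) (.g (nat_lit 2984) (.e (nat_lit 98365) (nat_lit 26) (.e (nat_lit 426325) (nat_lit 13) (.e (nat_lit 483341) (nat_lit 9) (.e (nat_lit 426100) (nat_lit 1) (.e (nat_lit 164403) (nat_lit 256) (.e (nat_lit 57377) (nat_lit 3) .nil)))))) (.g (nat_lit 1) (.e (nat_lit 275134) (nat_lit 0) .nil) .nil)))) (.nd (nat_lit 9) 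
(.lf (nat_lit 543130) (.g (nat_lit 5054) (.e (nat_lit 98359) (nat_lit 26) (.e (nat_lit 426286) (nat_lit 10) (.e (nat_lit 434245) (nat_lit 28) (.e (nat_lit 573474) (nat_lit 12) (.e (nat_lit 57572) (nat_lit 54) (.e (nat_lit 770072) (nat_lit 8) (.e (nat_lit 65571) (nat_lit 3) .nil))))))) (.g (nat_lit 1) (.e (nat_lit 274850) (nat_lit 0) .nil) .nil))) 
(.lf (nat_lit 543642) (.g (nat_lit 2359) (.e (nat_lit 98367) (nat_lit 27) (.e (nat_lit 434231) (nat_lit 23) (.e (nat_lit 532514) (nat_lit 3) (.e (nat_lit 114719) (nat_lit 23) (.e (nat_lit 98332) (nat_lit 18) (.e (nat_lit 164401) (nat_lit 256) (.e (nat_lit 57378) (nat_lit 3) .nil))))))) (.g (nat_lit 1) (.e (nat_lit 275469) (nat_lit 0) .nil) .nil)))))) 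
(.nd (nat_lit 7) (.nd (nat_lit 8) (.nd (nat_lit 9) 
(.lf (nat_lit 542810) (.g (nat_lit 293) (.e (nat_lit 98350) (nat_lit 24) (.e (nat_lit 409617) (nat_lit 10) (.e (nat_lit 7936) (nat_lit 312) .nil))) (.g (nat_lit 0) (.e (nat_lit 274455) (nat_lit 0) .nil) .nil))) 
(.lf (nat_lit 543322) (.g (nat_lit 3257) (.e (nat_lit 98365) (nat_lit 26) (.e (nat_lit 426306) (nat_lit 12) (.e (nat_lit 475177) (nat_lit 24) (.e (nat_lit 516127) (nat_lit 2) (.e (nat_lit 213032) (nat_lit 11) (.e (nat_lit 24608) (nat_lit 3) .nil)))))) (.g (nat_lit 1) (.e (nat_lit 275070) (nat_lit 0) .nil) .nil)))) (.nd (nat_lit 9) 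
(.lf (nat_lit 543066) (.g (nat_lit 1225) (.e (nat_lit 98357) (nat_lit 26) (.e (nat_lit 426436) (nat_lit 18) (.e (nat_lit 98358) (nat_lit 26) (.e (nat_lit 426428) (nat_lit 17) .nil)))) (.g (nat_lit 0) (.e (nat_lit 274781) (nat_lit 0) .nil) .nil))) 
(.lf (nat_lit 543578) (.g (nat_lit 257) (.e (nat_lit 98366) (nat_lit 27) (.e (nat_lit 434248) (nat_lit 28) (.e (nat_lit 573487) (nat_lit 14) .nil))) (.g (nat_lit 0) (.e (nat_lit 275373) (nat_lit 0) .nil) .nil))))) (.nd (nat_lit 8) (.nd (nat_lit 9) 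
(.lf (nat_lit 542938) (.g (nat_lit 3884) (.e (nat_lit 98350) (nat_lit 24) (.e (nat_lit 409649) (nat_lit 18) (.e (nat_lit 303117) (nat_lit 2) (.e (nat_lit 196666) (nat_lit 13) (.e (nat_lit 65605) (nat_lit 9) .nil))))) (.g (nat_lit 0) (.e (nat_lit 274591) (nat_lit 0) .nil) .nil))) 
(.lf (nat_lit 543450) (.g (nat_lit 2479) (.e (nat_lit 98366) (nat_lit 27) (.e (nat_lit 434231) (nat_lit 23) (.e (nat_lit 532499) (nat_lit 1) (.e (nat_lit 57694) (nat_lit 157) .nil)))) (.g (nat_lit 0) (.e (nat_lit 275222) (nat_lit 0) .nil) .nil)))) (.nd (nat_lit 9) 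
(.lf (nat_lit 543194) (.g (nat_lit 2489) (.e (nat_lit 98363) (nat_lit 26) (.e (nat_lit 426230) (nat_lit 9) (.e (nat_lit 426565) (nat_lit 34) (.e (nat_lit 393252) (nat_lit 18) (.e (nat_lit 164398) (nat_lit 256) (.e (nat_lit 57378) (nat_lit 3) .nil)))))) (.g (nat_lit 1) (.e (nat_lit 274923) (nat_lit 0) .nil) .nil))) 
(.lf (nat_lit 543706) (.g (nat_lit 3205) (.e (nat_lit 98367) (nat_lit 27) (.e (nat_lit 434246) (nat_lit 28) (.e (nat_lit 573489) (nat_lit 14) (.e (nat_lit 73755) (nat_lit 8) (.e (nat_lit 557119) (nat_lit 18) (.e (nat_lit 2797) (nat_lit 180) (.e (nat_lit 311040) (nat_lit 18) .nil))))))) (.g (nat_lit 1) (.e (nat_lit 275537) (nat_lit 0) .nil) .nil))))))) 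
(.nd (nat_lit 6) (.nd (nat_lit 7) (.nd (nat_lit 8) (.nd (nat_lit 9) 
(.lf (nat_lit 542778) (.g (nat_lit 4452) (.e (nat_lit 98349) (nat_lit 24) (.e (nat_lit 409648) (nat_lit 18) (.e (nat_lit 303118) (nat_lit 3) (.e (nat_lit 204855) (nat_lit 26) (.e (nat_lit 336099) (nat_lit 9) (.e (nat_lit 336028) (nat_lit 3) .nil)))))) (.g (nat_lit 1) (.e (nat_lit 274414) (nat_lit 0) .nil) .nil))) 
(.lf (nat_lit 543290) (.g (nat_lit 1787) (.e (nat_lit 98365) (nat_lit 26) (.e (nat_lit 426188) (nat_lit 9) (.e (nat_lit 426568) (nat_lit 34) (.e (nat_lit 393252) (nat_lit 18) (.e (nat_lit 164402) (nat_lit 256) .nil))))) (.g (nat_lit 0) (.e (nat_lit 275035) (nat_lit 0) .nil) .nil)))) (.nd (nat_lit 9) 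
(.lf (nat_lit 543034) (.g (nat_lit 3299) (.e (nat_lit 98356) (nat_lit 26) (.e (nat_lit 426438) (nat_lit 18) (.e (nat_lit 98333) (nat_lit 18) (.e (nat_lit 164332) (nat_lit 230) (.e (nat_lit 163874) (nat_lit 3) (.e (nat_lit 204838) (nat_lit 20) (.e (nat_lit 114719) (nat_lit 23) .nil))))))) (.g (nat_lit 1) (.e (nat_lit 274746) (nat_lit 0) .nil) .nil))) 
(.lf (nat_lit 543546) (.g (nat_lit 1518) (.e (nat_lit 98366) (nat_lit 27) (.e (nat_lit 434244) (nat_lit 28) (.e (nat_lit 573489) (nat_lit 14) (.e (nat_lit 73755) (nat_lit 8) .nil)))) (.g (nat_lit 0) (.e (nat_lit 275336) (nat_lit 0) .nil) .nil))))) (.nd (nat_lit 8) (.nd (nat_lit 9) 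
(.lf (nat_lit 542906) (.g (nat_lit 3222) (.e (nat_lit 98350) (nat_lit 24) (.e (nat_lit 409648) (nat_lit 18) (.e (nat_lit 303117) (nat_lit 2) (.e (nat_lit 196681) (nat_lit 17) (.e (nat_lit 131105) (nat_lit 9) (.e (nat_lit 336019) (nat_lit 3) .nil)))))) (.g (nat_lit 1) (.e (nat_lit 274557) (nat_lit 0) .nil) .nil))) 
(.lf (nat_lit 543418) (.g (nat_lit 1935) (.e (nat_lit 106240) (nat_lit 26) (.e (nat_lit 426199) (nat_lit 9) (.e (nat_lit 426131) (nat_lit 3) (.e (nat_lit 204846) (nat_lit 24) (.e (nat_lit 319528) (nat_lit 16) .nil))))) (.g (nat_lit 0) (.e (nat_lit 275166) (nat_lit 0) .nil) .nil)))) (.nd (nat_lit 9) 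
(.lf (nat_lit 543162) (.g (nat_lit 2774) (.e (nat_lit 98359) (nat_lit 26) (.e (nat_lit 426286) (nat_lit 10) (.e (nat_lit 434248) (nat_lit 28) (.e (nat_lit 573475) (nat_lit 12) (.e (nat_lit 57347) (nat_lit 0) (.e (nat_lit 7265) (nat_lit 384) (.e (nat_lit 57406) (nat_lit 12) (.e (nat_lit 336018) (nat_lit 3) .nil)))))))) (.g (nat_lit 1) (.e (nat_lit 274882) (nat_lit 0) .nil) .nil))) 
(.lf (nat_lit 543674) (.g (nat_lit 2353) (.e (nat_lit 98367) (nat_lit 27) (.e (nat_lit 434244) (nat_lit 28) (.e (nat_lit 573487) (nat_lit 14) (.e (nat_lit 73753) (nat_lit 8) (.e (nat_lit 557091) (nat_lit 12) .nil))))) (.g (nat_lit 0) (.e (nat_lit 275504) (nat_lit 0) .nil) .nil)))))) (.nd (nat_lit 7) (.nd (nat_lit 8) (.nd (nat_lit 9) 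
(.lf (nat_lit 542842) (.g (nat_lit 2226) (.e (nat_lit 98350) (nat_lit 24) (.e (nat_lit 409646) (nat_lit 18) (.e (nat_lit 303116) (nat_lit 2) (.e (nat_lit 196674) (nat_lit 15) .nil)))) (.g (nat_lit 0) (.e (nat_lit 274491) (nat_lit 0) .nil) .nil))) 
(.lf (nat_lit 543354) (.g (nat_lit 3587) (.e (nat_lit 98365) (nat_lit 26) (.e (nat_lit 426316) (nat_lit 12) (.e (nat_lit 475185) (nat_lit 29) (.e (nat_lit 557099) (nat_lit 13) .nil)))) (.g (nat_lit 0) (.e (nat_lit 275102) (nat_lit 0) .nil) .nil)))) (.nd (nat_lit 9) 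
(.lf (nat_lit 543098) (.g (nat_lit 2998) (.e (nat_lit 98358) (nat_lit 26) (.e (nat_lit 426323) (nat_lit 13) (.e (nat_lit 483364) (nat_lit 18) (.e (nat_lit 57692) (nat_lit 156) (.e (nat_lit 163905) (nat_lit 12) (.e (nat_lit 426438) (nat_lit 18) .nil)))))) (.g (nat_lit 1) (.e (nat_lit 274815) (nat_lit 0) .nil) .nil))) 
(.lf (nat_lit 543610) (.g (nat_lit 3574) (.e (nat_lit 98367) (nat_lit 27) (.e (nat_lit 434231) (nat_lit 23) (.e (nat_lit 532499) (nat_lit 1) (.e (nat_lit 57691) (nat_lit 156) (.e (nat_lit 163874) (nat_lit 3) (.e (nat_lit 204838) (nat_lit 20) (.e (nat_lit 114719) (nat_lit 23) .nil))))))) (.g (nat_lit 1) (.e (nat_lit 275427) (nat_lit 0) .nil) .nil))))) (.nd (nat_lit 8) (.nd (nat_lit 9) 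
(.lf (nat_lit 542970) (.g (nat_lit 255) (.e (nat_lit 98352) (nat_lit 25) (.e (nat_lit 417817) (nat_lit 10) (.e (nat_lit 5787) (nat_lit 318) .nil))) (.g (nat_lit 0) (.e (nat_lit 274651) (nat_lit 0) .nil) .nil))) 
(.lf (nat_lit 543482) (.g (nat_lit 1554) (.e (nat_lit 98366) (nat_lit 27) (.e (nat_lit 434231) (nat_lit 23) (.e (nat_lit 532513) (nat_lit 3) (.e (nat_lit 114718) (nat_lit 23) .nil)))) (.g (nat_lit 0) (.e (nat_lit 275260) (nat_lit 0) .nil) .nil)))) (.nd (nat_lit 9) 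
(.lf (nat_lit 543226) (.g (nat_lit 2635) (.e (nat_lit 98364) (nat_lit 26) (.e (nat_lit 426200) (nat_lit 9) (.e (nat_lit 426131) (nat_lit 3) (.e (nat_lit 204846) (nat_lit 24) (.e (nat_lit 319528) (nat_lit 16) .nil))))) (.g (nat_lit 0) (.e (nat_lit 274961) (nat_lit 0) .nil) .nil))) 
(.lf (nat_lit 543738) (.g (nat_lit 3484) (.e (nat_lit 98367) (nat_lit 27) (.e (nat_lit 434247) (nat_lit 28) (.e (nat_lit 573489) (nat_lit 14) (.e (nat_lit 73755) (nat_lit 8) (.e (nat_lit 557119) (nat_lit 18) (.e (nat_lit 2808) (nat_lit 180) (.e (nat_lit 311040) (nat_lit 18) .nil))))))) (.g (nat_lit 1) (.e (nat_lit 275573) (nat_lit 0) .nil) .nil)))))))))) 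
(.nd (nat_lit 3) (.nd (nat_lit 4) (.nd (nat_lit 5) (.nd (nat_lit 6) (.nd (nat_lit 7) 
(.nd (nat_lit 8) (.nd (nat_lit 9) 
(.lf (nat_lit 542726) (.g (nat_lit 2221) (.e (nat_lit 98349) (nat_lit 24) (.e (nat_lit 409645) (nat_lit 18) (.e (nat_lit 303106) (nat_lit 0) (.e (nat_lit 3114) (nat_lit 193) (.e (nat_lit 500075) (nat_lit 20) (.e (nat_lit 81955) (nat_lit 23) .nil)))))) (.g (nat_lit 1) (.e (nat_lit 274358) (nat_lit 0) .nil) .nil))) 
(.lf (nat_lit 543238) (.g (nat_lit 518) (.e (nat_lit 98365) (nat_lit 26) (.e (nat_lit 426100) (nat_lit 1) (.e (nat_lit 164399) (nat_lit 256) .nil))) (.g (nat_lit 0) (.e (nat_lit 274979) (nat_lit 0) .nil) .nil)))) (.nd (nat_lit 9) 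
(.lf (nat_lit 542982) (.g (nat_lit 2730) (.e (nat_lit 98353) (nat_lit 25) (.e (nat_lit 417811) (nat_lit 6) (.e (nat_lit 286733) (nat_lit 2) (.e (nat_lit 90174) (nat_lit 14) (.e (nat_lit 180277) (nat_lit 32) .nil))))) (.g (nat_lit 0) (.e (nat_lit 274671) (nat_lit 0) .nil) .nil))) 
(.lf (nat_lit 543494) (.g (nat_lit 1369) (.e (nat_lit 98366) (nat_lit 27) (.e (nat_lit 434231) (nat_lit 23) (.e (nat_lit 532514) (nat_lit 3) (.e (nat_lit 114718) (nat_lit 23) .nil)))) (.g (nat_lit 0) (.e (nat_lit 275272) (nat_lit 0) .nil) .nil))))) (.nd (nat_lit 8) (.nd (nat_lit 9) 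
(.lf (nat_lit 542854) (.g (nat_lit 2629) (.e (nat_lit 98350) (nat_lit 24) (.e (nat_lit 409646) (nat_lit 18) (.e (nat_lit 303118) (nat_lit 3) (.e (nat_lit 204855) (nat_lit 26) (.e (nat_lit 336111) (nat_lit 9) (.e (nat_lit 336028) (nat_lit 3) .nil)))))) (.g (nat_lit 1) (.e (nat_lit 274503) (nat_lit 0) .nil) .nil))) 
(.lf (nat_lit 543366) (.g (nat_lit 1636) (.e (nat_lit 98365) (nat_lit 26) (.e (nat_lit 426325) (nat_lit 13) (.e (nat_lit 483337) (nat_lit 9) (.e (nat_lit 426097) (nat_lit 1) .nil)))) (.g (nat_lit 0) (.e (nat_lit 275114) (nat_lit 0) .nil) .nil)))) (.nd (nat_lit 9) 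
(.lf (nat_lit 543110) (.g (nat_lit 2251) (.e (nat_lit 98358) (nat_lit 26) (.e (nat_lit 426438) (nat_lit 18) (.e (nat_lit 98358) (nat_lit 26) (.e (nat_lit 426432) (nat_lit 17) (.e (nat_lit 90133) (nat_lit 9) (.e (nat_lit 2902) (nat_lit 184) (.e (nat_lit 426435) (nat_lit 18) .nil))))))) (.g (nat_lit 1) (.e (nat_lit 274827) (nat_lit 0) .nil) .nil))) 
(.lf (nat_lit 543622) (.g (nat_lit 2921) (.e (nat_lit 98367) (nat_lit 27) (.e (nat_lit 434231) (nat_lit 23) (.e (nat_lit 532502) (nat_lit 1) (.e (nat_lit 57692) (nat_lit 156) (.e (nat_lit 163875) (nat_lit 3) (.e (nat_lit 204838) (nat_lit 20) (.e (nat_lit 114718) (nat_lit 23) .nil))))))) (.g (nat_lit 1) (.e (nat_lit 275444) (nat_lit 0) .nil) .nil)))))) 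
(.nd (nat_lit 7) (.nd (nat_lit 8) (.nd (nat_lit 9) 
(.lf (nat_lit 542790) (.g (nat_lit 2629) (.e (nat_lit 98349) (nat_lit 24) (.e (nat_lit 409649) (nat_lit 18) (.e (nat_lit 303119) (nat_lit 3) (.e (nat_lit 204855) (nat_lit 26) (.e (nat_lit 336102) (nat_lit 9) (.e (nat_lit 336028) (nat_lit 3) .nil)))))) (.g (nat_lit 1) (.e (nat_lit 274426) (nat_lit 0) .nil) .nil))) 
(.lf (nat_lit 543302) (.g (nat_lit 1770) (.e (nat_lit 98365) (nat_lit 26) (.e (nat_lit 426298) (nat_lit 11) (.e (nat_lit 458789) (nat_lit 23) (.e (nat_lit 532499) (nat_lit 1) (.e (nat_lit 65280) (nat_lit 233) .nil))))) (.g (nat_lit 0) (.e (nat_lit 275050) (nat_lit 0) .nil) .nil)))) (.nd (nat_lit 9) 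
(.lf (nat_lit 543046) (.g (nat_lit 2297) (.e (nat_lit 98356) (nat_lit 26) (.e (nat_lit 426438) (nat_lit 18) (.e (nat_lit 98358) (nat_lit 26) (.e (nat_lit 426428) (nat_lit 17) (.e (nat_lit 90125) (nat_lit 9) (.e (nat_lit 2900) (nat_lit 184) (.e (nat_lit 426435) (nat_lit 18) .nil))))))) (.g (nat_lit 1) (.e (nat_lit 274758) (nat_lit 0) .nil) .nil))) 
(.lf (nat_lit 543558) (.g (nat_lit 1868) (.e (nat_lit 98366) (nat_lit 27) (.e (nat_lit 434247) (nat_lit 28) (.e (nat_lit 573484) (nat_lit 13) (.e (nat_lit 65575) (nat_lit 5) .nil)))) (.g (nat_lit 0) (.e (nat_lit 275351) (nat_lit 0) .nil) .nil))))) (.nd (nat_lit 8) (.nd (nat_lit 9) 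
(.lf (nat_lit 542918) (.g (nat_lit 2488) (.e (nat_lit 98350) (nat_lit 24) (.e (nat_lit 409648) (nat_lit 18) (.e (nat_lit 303118) (nat_lit 3) (.e (nat_lit 204855) (nat_lit 26) (.e (nat_lit 336102) (nat_lit 9) .nil))))) (.g (nat_lit 0) (.e (nat_lit 274569) (nat_lit 0) .nil) .nil))) 
(.lf (nat_lit 543430) (.g (nat_lit 488) (.e (nat_lit 106240) (nat_lit 26) (.e (nat_lit 426306) (nat_lit 12) (.e (nat_lit 475177) (nat_lit 24) .nil))) (.g (nat_lit 0) (.e (nat_lit 275179) (nat_lit 0) .nil) .nil)))) (.nd (nat_lit 9) 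
(.lf (nat_lit 543174) (.g (nat_lit 2130) (.e (nat_lit 98360) (nat_lit 26) (.e (nat_lit 426396) (nat_lit 15) (.e (nat_lit 2059) (nat_lit 142) (.e (nat_lit 704589) (nat_lit 3) (.e (nat_lit 163976) (nat_lit 30) .nil))))) (.g (nat_lit 0) (.e (nat_lit 274895) (nat_lit 0) .nil) .nil))) 
(.lf (nat_lit 543686) (.g (nat_lit 2450) (.e (nat_lit 98367) (nat_lit 27) (.e (nat_lit 434244) (nat_lit 28) (.e (nat_lit 573488) (nat_lit 14) (.e (nat_lit 73755) (nat_lit 8) (.e (nat_lit 557119) (nat_lit 18) (.e (nat_lit 2808) (nat_lit 180) (.e (nat_lit 311040) (nat_lit 18) .nil))))))) (.g (nat_lit 1) (.e (nat_lit 275516) (nat_lit 0) .nil) .nil))))))) 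
(.nd (nat_lit 6) (.nd (nat_lit 7) (.nd (nat_lit 8) (.nd (nat_lit 9) 
(.lf (nat_lit 542758) (.g (nat_lit 4602) (.e (nat_lit 98349) (nat_lit 24) (.e (nat_lit 409646) (nat_lit 18) (.e (nat_lit 303117) (nat_lit 2) (.e (nat_lit 196674) (nat_lit 15) (.e (nat_lit 81956) (nat_lit 23) .nil))))) (.g (nat_lit 1) (.e (nat_lit 274394) (nat_lit 0) .nil) .nil))) 
(.lf (nat_lit 543270) (.g (nat_lit 2866) (.e (nat_lit 98365) (nat_lit 26) (.e (nat_lit 426188) (nat_lit 9) (.e (nat_lit 426436) (nat_lit 18) (.e (nat_lit 98339) (nat_lit 19) (.e (nat_lit 220928) (nat_lit 11) .nil))))) (.g (nat_lit 0) (.e (nat_lit 275015) (nat_lit 0) .nil) .nil)))) (.nd (nat_lit 9) 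
(.lf (nat_lit 543014) (.g (nat_lit 1400) (.e (nat_lit 98356) (nat_lit 26) (.e (nat_lit 426323) (nat_lit 13) (.e (nat_lit 483363) (nat_lit 18) (.e (nat_lit 57688) (nat_lit 156) .nil)))) (.g (nat_lit 0) (.e (nat_lit 274724) (nat_lit 0) .nil) .nil))) 
(.lf (nat_lit 543526) (.g (nat_lit 2109) (.e (nat_lit 98366) (nat_lit 27) (.e (nat_lit 434244) (nat_lit 28) (.e (nat_lit 573487) (nat_lit 14) (.e (nat_lit 73729) (nat_lit 0) .nil)))) (.g (nat_lit 0) (.e (nat_lit 275313) (nat_lit 0) .nil) .nil))))) (.nd (nat_lit 8) (.nd (nat_lit 9) 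
(.lf (nat_lit 542886) (.g (nat_lit 2706) (.e (nat_lit 98350) (nat_lit 24) (.e (nat_lit 409648) (nat_lit 18) (.e (nat_lit 303116) (nat_lit 2) (.e (nat_lit 196681) (nat_lit 17) (.e (nat_lit 131104) (nat_lit 9) .nil))))) (.g (nat_lit 0) (.e (nat_lit 274536) (nat_lit 0) .nil) .nil))) 
(.lf (nat_lit 543398) (.g (nat_lit 3778) (.e (nat_lit 98365) (nat_lit 26) (.e (nat_lit 426325) (nat_lit 13) (.e (nat_lit 483363) (nat_lit 18) (.e (nat_lit 57691) (nat_lit 156) (.e (nat_lit 163907) (nat_lit 12) (.e (nat_lit 426437) (nat_lit 18) .nil)))))) (.g (nat_lit 1) (.e (nat_lit 275146) (nat_lit 0) .nil) .nil)))) (.nd (nat_lit 9) 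
(.lf (nat_lit 543142) (.g (nat_lit 3465) (.e (nat_lit 98359) (nat_lit 26) (.e (nat_lit 426286) (nat_lit 10) (.e (nat_lit 434247) (nat_lit 28) (.e (nat_lit 573477) (nat_lit 12) (.e (nat_lit 57574) (nat_lit 55) (.e (nat_lit 778465) (nat_lit 11) (.e (nat_lit 32512) (nat_lit 3) .nil))))))) (.g (nat_lit 1) (.e (nat_lit 274862) (nat_lit 0) .nil) .nil))) 
(.lf (nat_lit 543654) (.g (nat_lit 3947) (.e (nat_lit 98367) (nat_lit 27) (.e (nat_lit 434232) (nat_lit 23) (.e (nat_lit 532499) (nat_lit 1) (.e (nat_lit 57688) (nat_lit 156) (.e (nat_lit 163873) (nat_lit 3) (.e (nat_lit 204838) (nat_lit 20) (.e (nat_lit 114719) (nat_lit 23) .nil))))))) (.g (nat_lit 1) (.e (nat_lit 275482) (nat_lit 0) .nil) .nil)))))) 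
(.nd (nat_lit 7) (.nd (nat_lit 8) (.nd (nat_lit 9) 
(.lf (nat_lit 542822) (.g (nat_lit 2365) (.e (nat_lit 98350) (nat_lit 24) (.e (nat_lit 409643) (nat_lit 18) (.e (nat_lit 303118) (nat_lit 3) (.e (nat_lit 204866) (nat_lit 28) (.e (nat_lit 352313) (nat_lit 23) .nil))))) (.g (nat_lit 1) (.e (nat_lit 274470) (nat_lit 0) .nil) .nil))) 
(.lf (nat_lit 543334) (.g (nat_lit 2431) (.e (nat_lit 98365) (nat_lit 26) (.e (nat_lit 426306) (nat_lit 12) (.e (nat_lit 475179) (nat_lit 24) (.e (nat_lit 516097) (nat_lit 0) (.e (nat_lit 3656) (nat_lit 227) .nil))))) (.g (nat_lit 0) (.e (nat_lit 275082) (nat_lit 0) .nil) .nil)))) (.nd (nat_lit 9) 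
(.lf (nat_lit 543078) (.g (nat_lit 2381) (.e (nat_lit 98357) (nat_lit 26) (.e (nat_lit 426436) (nat_lit 18) (.e (nat_lit 98386) (nat_lit 32) (.e (nat_lit 475179) (nat_lit 24) (.e (nat_lit 516144) (nat_lit 9) .nil))))) (.g (nat_lit 0) (.e (nat_lit 274795) (nat_lit 0) .nil) .nil))) 
(.lf (nat_lit 543590) (.g (nat_lit 3658) (.e (nat_lit 98366) (nat_lit 27) (.e (nat_lit 434248) (nat_lit 28) (.e (nat_lit 573489) (nat_lit 14) (.e (nat_lit 73755) (nat_lit 8) (.e (nat_lit 557090) (nat_lit 12) (.e (nat_lit 163845) (nat_lit 0) (.e (nat_lit 5940) (nat_lit 322) (.e (nat_lit 57379) (nat_lit 3) .nil)))))))) (.g (nat_lit 1) (.e (nat_lit 275387) (nat_lit 0) .nil) .nil))))) 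
(.nd (nat_lit 8) (.nd (nat_lit 9) 
(.lf (nat_lit 542950) (.g (nat_lit 2563) (.e (nat_lit 98350) (nat_lit 24) (.e (nat_lit 409649) (nat_lit 18) (.e (nat_lit 303118) (nat_lit 3) (.e (nat_lit 204855) (nat_lit 26) (.e (nat_lit 336099) (nat_lit 9) (.e (nat_lit 343808) (nat_lit 3) .nil)))))) (.g (nat_lit 1) (.e (nat_lit 274604) (nat_lit 0) .nil) .nil))) 
(.lf (nat_lit 543462) (.g (nat_lit 2327) (.e (nat_lit 98366) (nat_lit 27) (.e (nat_lit 434231) (nat_lit 23) (.e (nat_lit 532500) (nat_lit 1) (.e (nat_lit 57693) (nat_lit 157) .nil)))) (.g (nat_lit 0) (.e (nat_lit 275240) (nat_lit 0) .nil) .nil)))) (.nd (nat_lit 9) 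
(.lf (nat_lit 543206) (.g (nat_lit 2906) (.e (nat_lit 98363) (nat_lit 26) (.e (nat_lit 426318) (nat_lit 12) (.e (nat_lit 475179) (nat_lit 24) (.e (nat_lit 516124) (nat_lit 2) (.e (nat_lit 213032) (nat_lit 11) (.e (nat_lit 24608) (nat_lit 3) .nil)))))) (.g (nat_lit 1) (.e (nat_lit 274938) (nat_lit 0) .nil) .nil))) 
(.lf (nat_lit 543718) (.g (nat_lit 863) (.e (nat_lit 98367) (nat_lit 27) (.e (nat_lit 434247) (nat_lit 28) (.e (nat_lit 573487) (nat_lit 14) (.e (nat_lit 73753) (nat_lit 8) .nil)))) (.g (nat_lit 0) (.e (nat_lit 275550) (nat_lit 0) .nil) .nil)))))))) (.nd (nat_lit 5) (.nd (nat_lit 6) (.nd (nat_lit 7) (.nd (nat_lit 8) (.nd (nat_lit 9) 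
(.lf (nat_lit 542742) (.g (nat_lit 2978) (.e (nat_lit 98349) (nat_lit 24) (.e (nat_lit 409645) (nat_lit 18) (.e (nat_lit 303119) (nat_lit 3) (.e (nat_lit 204852) (nat_lit 26) (.e (nat_lit 336130) (nat_lit 9) (.e (nat_lit 336020) (nat_lit 3) .nil)))))) (.g (nat_lit 1) (.e (nat_lit 274375) (nat_lit 0) .nil) .nil))) 
(.lf (nat_lit 543254) (.g (nat_lit 1959) (.e (nat_lit 98365) (nat_lit 26) (.e (nat_lit 426187) (nat_lit 9) (.e (nat_lit 426566) (nat_lit 34) (.e (nat_lit 393251) (nat_lit 18) (.e (nat_lit 164396) (nat_lit 256) (.e (nat_lit 57377) (nat_lit 3) .nil)))))) (.g (nat_lit 1) (.e (nat_lit 274999) (nat_lit 0) .nil) .nil)))) (.nd (nat_lit 9) 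
(.lf (nat_lit 542998) (.g (nat_lit 3904) (.e (nat_lit 98354) (nat_lit 26) (.e (nat_lit 426317) (nat_lit 12) (.e (nat_lit 475185) (nat_lit 29) (.e (nat_lit 557098) (nat_lit 13) (.e (nat_lit 172126) (nat_lit 14) (.e (nat_lit 491540) (nat_lit 3) .nil)))))) (.g (nat_lit 1) (.e (nat_lit 274703) (nat_lit 0) .nil) .nil))) 
(.lf (nat_lit 543510) (.g (nat_lit 4554) (.e (nat_lit 98366) (nat_lit 27) (.e (nat_lit 434244) (nat_lit 28) (.e (nat_lit 573451) (nat_lit 9) (.e (nat_lit 1449) (nat_lit 108) (.e (nat_lit 336013) (nat_lit 2) (.e (nat_lit 90189) (nat_lit 18) (.e (nat_lit 2580) (nat_lit 161) (.e (nat_lit 48896) (nat_lit 0) (.e (nat_lit 1256) (nat_lit 92) .nil))))))))) (.g (nat_lit 1) (.e (nat_lit 275292) (nat_lit 0) .nil) .nil))))) 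
(.nd (nat_lit 8) (.nd (nat_lit 9) 
(.lf (nat_lit 542870) (.g (nat_lit 2604) (.e (nat_lit 98350) (nat_lit 24) (.e (nat_lit 409647) (nat_lit 18) (.e (nat_lit 303118) (nat_lit 3) (.e (nat_lit 204855) (nat_lit 26) (.e (nat_lit 336097) (nat_lit 9) (.e (nat_lit 336024) (nat_lit 3) .nil)))))) (.g (nat_lit 1) (.e (nat_lit 274519) (nat_lit 0) .nil) .nil))) 
(.lf (nat_lit 543382) (.g (nat_lit 2527) (.e (nat_lit 98365) (nat_lit 26) (.e (nat_lit 426325) (nat_lit 13) (.e (nat_lit 483341) (nat_lit 9) (.e (nat_lit 426098) (nat_lit 1) (.e (nat_lit 164397) (nat_lit 256) (.e (nat_lit 57379) (nat_lit 3) .nil)))))) (.g (nat_lit 1) (.e (nat_lit 275130) (nat_lit 0) .nil) .nil)))) (.nd (nat_lit 9) 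
(.lf (nat_lit 543126) (.g (nat_lit 3386) (.e (nat_lit 98359) (nat_lit 26) (.e (nat_lit 426286) (nat_lit 10) (.e (nat_lit 434245) (nat_lit 28) (.e (nat_lit 573471) (nat_lit 11) (.e (nat_lit 16473) (nat_lit 14) (.e (nat_lit 499456) (nat_lit 3) .nil)))))) (.g (nat_lit 1) (.e (nat_lit 274846) (nat_lit 0) .nil) .nil))) 
(.lf (nat_lit 543638) (.g (nat_lit 4601) (.e (nat_lit 98367) (nat_lit 27) (.e (nat_lit 434231) (nat_lit 23) (.e (nat_lit 532514) (nat_lit 3) (.e (nat_lit 114718) (nat_lit 23) (.e (nat_lit 98334) (nat_lit 18) (.e (nat_lit 164399) (nat_lit 256) (.e (nat_lit 57378) (nat_lit 3) .nil))))))) (.g (nat_lit 1) (.e (nat_lit 275465) (nat_lit 0) .nil) .nil)))))) 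
(.nd (nat_lit 7) (.nd (nat_lit 8) (.nd (nat_lit 9) 
(.lf (nat_lit 542806) (.g (nat_lit 782) (.e (nat_lit 98350) (nat_lit 24) (.e (nat_lit 409616) (nat_lit 10) (.e (nat_lit 5758) (nat_lit 315) .nil))) (.g (nat_lit 0) (.e (nat_lit 274448) (nat_lit 0) .nil) .nil))) 
(.lf (nat_lit 543318) (.g (nat_lit 2631) (.e (nat_lit 98365) (nat_lit 26) (.e (nat_lit 426306) (nat_lit 12) (.e (nat_lit 475177) (nat_lit 24) (.e (nat_lit 516126) (nat_lit 2) (.e (nat_lit 213030) (nat_lit 11) (.e (nat_lit 24609) (nat_lit 3) .nil)))))) (.g (nat_lit 1) (.e (nat_lit 275066) (nat_lit 0) .nil) .nil)))) (.nd (nat_lit 9) 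
(.lf (nat_lit 543062) (.g (nat_lit 4916) (.e (nat_lit 98357) (nat_lit 26) (.e (nat_lit 426436) (nat_lit 18) (.e (nat_lit 98335) (nat_lit 18) (.e (nat_lit 164330) (nat_lit 230) (.e (nat_lit 163872) (nat_lit 3) (.e (nat_lit 204838) (nat_lit 20) (.e (nat_lit 114719) (nat_lit 23) .nil))))))) (.g (nat_lit 1) (.e (nat_lit 274777) (nat_lit 0) .nil) .nil))) 
(.lf (nat_lit 543574) (.g (nat_lit 1542) (.e (nat_lit 98366) (nat_lit 27) (.e (nat_lit 434248) (nat_lit 28) (.e (nat_lit 573482) (nat_lit 13) (.e (nat_lit 65568) (nat_lit 2) .nil)))) (.g (nat_lit 0) (.e (nat_lit 275368) (nat_lit 0) .nil) .nil))))) (.nd (nat_lit 8) (.nd (nat_lit 9) 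
(.lf (nat_lit 542934) (.g (nat_lit 1293) (.e (nat_lit 98350) (nat_lit 24) (.e (nat_lit 409649) (nat_lit 18) (.e (nat_lit 303117) (nat_lit 2) (.e (nat_lit 196665) (nat_lit 13) .nil)))) (.g (nat_lit 0) (.e (nat_lit 274587) (nat_lit 0) .nil) .nil))) 
(.lf (nat_lit 543446) (.g (nat_lit 2479) (.e (nat_lit 98366) (nat_lit 27) (.e (nat_lit 434231) (nat_lit 23) (.e (nat_lit 532499) (nat_lit 1) (.e (nat_lit 57689) (nat_lit 156) .nil)))) (.g (nat_lit 0) (.e (nat_lit 275217) (nat_lit 0) .nil) .nil)))) (.nd (nat_lit 9) 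
(.lf (nat_lit 543190) (.g (nat_lit 2131) (.e (nat_lit 98363) (nat_lit 26) (.e (nat_lit 426129) (nat_lit 3) (.e (nat_lit 204838) (nat_lit 20) (.e (nat_lit 114719) (nat_lit 23) (.e (nat_lit 98333) (nat_lit 18) .nil))))) (.g (nat_lit 0) (.e (nat_lit 274919) (nat_lit 0) .nil) .nil))) 
(.lf (nat_lit 543702) (.g (nat_lit 2086) (.e (nat_lit 98367) (nat_lit 27) (.e (nat_lit 434246) (nat_lit 28) (.e (nat_lit 573489) (nat_lit 14) (.e (nat_lit 73755) (nat_lit 8) (.e (nat_lit 557090) (nat_lit 12) .nil))))) (.g (nat_lit 0) (.e (nat_lit 275533) (nat_lit 0) .nil) .nil))))))) (.nd (nat_lit 6) (.nd (nat_lit 7) (.nd (nat_lit 8) (.nd (nat_lit 9) 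
(.lf (nat_lit 542774) (.g (nat_lit 4107) (.e (nat_lit 98349) (nat_lit 24) (.e (nat_lit 409647) (nat_lit 18) (.e (nat_lit 303118) (nat_lit 3) (.e (nat_lit 204855) (nat_lit 26) (.e (nat_lit 336099) (nat_lit 9) (.e (nat_lit 336028) (nat_lit 3) .nil)))))) (.g (nat_lit 1) (.e (nat_lit 274410) (nat_lit 0) .nil) .nil))) 
(.lf (nat_lit 543286) (.g (nat_lit 1457) (.e (nat_lit 98365) (nat_lit 26) (.e (nat_lit 426188) (nat_lit 9) (.e (nat_lit 426568) (nat_lit 34) (.e (nat_lit 393250) (nat_lit 18) .nil)))) (.g (nat_lit 0) (.e (nat_lit 275031) (nat_lit 0) .nil) .nil)))) (.nd (nat_lit 9) 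
(.lf (nat_lit 543030) (.g (nat_lit 2474) (.e (nat_lit 98356) (nat_lit 26) (.e (nat_lit 426436) (nat_lit 18) (.e (nat_lit 98385) (nat_lit 32) (.e (nat_lit 475177) (nat_lit 24) (.e (nat_lit 516148) (nat_lit 9) (.e (nat_lit 426436) (nat_lit 18) .nil)))))) (.g (nat_lit 1) (.e (nat_lit 274742) (nat_lit 0) .nil) .nil))) 
(.lf (nat_lit 543542) (.g (nat_lit 3571) (.e (nat_lit 98366) (nat_lit 27) (.e (nat_lit 434244) (nat_lit 28) (.e (nat_lit 573488) (nat_lit 14) (.e (nat_lit 73755) (nat_lit 8) (.e (nat_lit 557091) (nat_lit 12) (.e (nat_lit 163840) (nat_lit 0) (.e (nat_lit 5939) (nat_lit 322) (.e (nat_lit 57379) (nat_lit 3) .nil)))))))) (.g (nat_lit 1) (.e (nat_lit 275332) (nat_lit 0) .nil) .nil))))) 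
(.nd (nat_lit 8) (.nd (nat_lit 9) 
(.lf (nat_lit 542902) (.g (nat_lit 3379) (.e (nat_lit 98350) (nat_lit 24) (.e (nat_lit 409648) (nat_lit 18) (.e (nat_lit 303117) (nat_lit 2) (.e (nat_lit 196668) (nat_lit 14) (.e (nat_lit 81664) (nat_lit 40) (.e (nat_lit 1256) (nat_lit 92) .nil)))))) (.g (nat_lit 1) (.e (nat_lit 274553) (nat_lit 0) .nil) .nil))) 
(.lf (nat_lit 543414) (.g (nat_lit 881) (.e (nat_lit 98365) (nat_lit 26) (.e (nat_lit 426341) (nat_lit 14) (.e (nat_lit 491584) (nat_lit 28) (.e (nat_lit 434206) (nat_lit 18) .nil)))) (.g (nat_lit 0) (.e (nat_lit 275162) (nat_lit 0) .nil) .nil)))) (.nd (nat_lit 9) 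
(.lf (nat_lit 543158) (.g (nat_lit 4263) (.e (nat_lit 98359) (nat_lit 26) (.e (nat_lit 426286) (nat_lit 10) (.e (nat_lit 434248) (nat_lit 28) (.e (nat_lit 573471) (nat_lit 11) (.e (nat_lit 16473) (nat_lit 14) (.e (nat_lit 499456) (nat_lit 3) .nil)))))) (.g (nat_lit 1) (.e (nat_lit 274878) (nat_lit 0) .nil) .nil))) 
(.lf (nat_lit 543670) (.g (nat_lit 1629) (.e (nat_lit 98367) (nat_lit 27) (.e (nat_lit 434244) (nat_lit 28) (.e (nat_lit 573487) (nat_lit 14) (.e (nat_lit 73753) (nat_lit 8) .nil)))) (.g (nat_lit 0) (.e (nat_lit 275500) (nat_lit 0) .nil) .nil)))))) (.nd (nat_lit 7) (.nd (nat_lit 8) (.nd (nat_lit 9) 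
(.lf (nat_lit 542838) (.g (nat_lit 3325) (.e (nat_lit 98350) (nat_lit 24) (.e (nat_lit 409645) (nat_lit 18) (.e (nat_lit 303119) (nat_lit 3) (.e (nat_lit 204852) (nat_lit 26) (.e (nat_lit 336130) (nat_lit 9) (.e (nat_lit 336025) (nat_lit 3) .nil)))))) (.g (nat_lit 1) (.e (nat_lit 274487) (nat_lit 0) .nil) .nil))) 
(.lf (nat_lit 543350) (.g (nat_lit 2016) (.e (nat_lit 98365) (nat_lit 26) (.e (nat_lit 426306) (nat_lit 12) (.e (nat_lit 475179) (nat_lit 24) (.e (nat_lit 516131) (nat_lit 3) (.e (nat_lit 229120) (nat_lit 11) (.e (nat_lit 336020) (nat_lit 3) .nil)))))) (.g (nat_lit 1) (.e (nat_lit 275098) (nat_lit 0) .nil) .nil)))) (.nd (nat_lit 9) 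
(.lf (nat_lit 543094) (.g (nat_lit 1588) (.e (nat_lit 98358) (nat_lit 26) (.e (nat_lit 426323) (nat_lit 13) (.e (nat_lit 483363) (nat_lit 18) (.e (nat_lit 57685) (nat_lit 156) .nil)))) (.g (nat_lit 0) (.e (nat_lit 274811) (nat_lit 0) .nil) .nil))) 
(.lf (nat_lit 543606) (.g (nat_lit 3148) (.e (nat_lit 98367) (nat_lit 27) (.e (nat_lit 434231) (nat_lit 23) (.e (nat_lit 532499) (nat_lit 1) (.e (nat_lit 57688) (nat_lit 156) (.e (nat_lit 163875) (nat_lit 3) (.e (nat_lit 204836) (nat_lit 20) (.e (nat_lit 114719) (nat_lit 23) .nil))))))) (.g (nat_lit 1) (.e (nat_lit 275423) (nat_lit 0) .nil) .nil))))) (.nd (nat_lit 8) (.nd (nat_lit 9) 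
(.lf (nat_lit 542966) (.g (nat_lit 1753) (.e (nat_lit 98350) (nat_lit 24) (.e (nat_lit 409650) (nat_lit 19) (.e (nat_lit 311315) (nat_lit 3) (.e (nat_lit 204863) (nat_lit 27) (.e (nat_lit 352000) (nat_lit 8) .nil))))) (.g (nat_lit 0) (.e (nat_lit 274629) (nat_lit 0) .nil) .nil))) 
(.lf (nat_lit 543478) (.g (nat_lit 1402) (.e (nat_lit 98366) (nat_lit 27) (.e (nat_lit 434231) (nat_lit 23) (.e (nat_lit 532513) (nat_lit 3) (.e (nat_lit 114714) (nat_lit 22) .nil)))) (.g (nat_lit 0) (.e (nat_lit 275256) (nat_lit 0) .nil) .nil)))) (.nd (nat_lit 9) 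
(.lf (nat_lit 543222) (.g (nat_lit 3275) (.e (nat_lit 98363) (nat_lit 26) (.e (nat_lit 426321) (nat_lit 13) (.e (nat_lit 483363) (nat_lit 18) (.e (nat_lit 57688) (nat_lit 156) (.e (nat_lit 163907) (nat_lit 12) (.e (nat_lit 426438) (nat_lit 18) .nil)))))) (.g (nat_lit 1) (.e (nat_lit 274954) (nat_lit 0) .nil) .nil))) 
(.lf (nat_lit 543734) (.g (nat_lit 3630) (.e (nat_lit 98367) (nat_lit 27) (.e (nat_lit 434247) (nat_lit 28) (.e (nat_lit 573489) (nat_lit 14) (.e (nat_lit 73755) (nat_lit 8) (.e (nat_lit 557119) (nat_lit 18) (.e (nat_lit 2796) (nat_lit 180) (.e (nat_lit 311040) (nat_lit 18) .nil))))))) (.g (nat_lit 1) (.e (nat_lit 275569) (nat_lit 0) .nil) .nil))))))))) 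
(.nd (nat_lit 4) (.nd (nat_lit 5) (.nd (nat_lit 6) (.nd (nat_lit 7) (.nd (nat_lit 8) 
(.nd (nat_lit 9) 
(.lf (nat_lit 542734) (.g (nat_lit 2630) (.e (nat_lit 98349) (nat_lit 24) (.e (nat_lit 409645) (nat_lit 18) (.e (nat_lit 303117) (nat_lit 2) (.e (nat_lit 196670) (nat_lit 14) (.e (nat_lit 81664) (nat_lit 40) (.e (nat_lit 1250) (nat_lit 92) .nil)))))) (.g (nat_lit 1) (.e (nat_lit 274367) (nat_lit 0) .nil) .nil))) 
(.lf (nat_lit 543246) (.g (nat_lit 2429) (.e (nat_lit 98365) (nat_lit 26) (.e (nat_lit 426139) (nat_lit 3) (.e (nat_lit 204830) (nat_lit 18) (.e (nat_lit 57685) (nat_lit 156) (.e (nat_lit 163875) (nat_lit 3) .nil))))) (.g (nat_lit 0) (.e (nat_lit 274991) (nat_lit 0) .nil) .nil)))) (.nd (nat_lit 9) 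
(.lf (nat_lit 542990) (.g (nat_lit 2110) (.e (nat_lit 98354) (nat_lit 26) (.e (nat_lit 426125) (nat_lit 2) (.e (nat_lit 196661) (nat_lit 12) (.e (nat_lit 65280) (nat_lit 0) .nil)))) (.g (nat_lit 0) (.e (nat_lit 274689) (nat_lit 0) .nil) .nil))) 
(.lf (nat_lit 543502) (.g (nat_lit 1898) (.e (nat_lit 98366) (nat_lit 27) (.e (nat_lit 434231) (nat_lit 23) (.e (nat_lit 532515) (nat_lit 3) (.e (nat_lit 114718) (nat_lit 23) .nil)))) (.g (nat_lit 0) (.e (nat_lit 275281) (nat_lit 0) .nil) .nil))))) (.nd (nat_lit 8) (.nd (nat_lit 9) 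
(.lf (nat_lit 542862) (.g (nat_lit 1266) (.e (nat_lit 98350) (nat_lit 24) (.e (nat_lit 409646) (nat_lit 18) (.e (nat_lit 303119) (nat_lit 3) (.e (nat_lit 204855) (nat_lit 26) .nil)))) (.g (nat_lit 0) (.e (nat_lit 274511) (nat_lit 0) .nil) .nil))) 
(.lf (nat_lit 543374) (.g (nat_lit 1686) (.e (nat_lit 98365) (nat_lit 26) (.e (nat_lit 426325) (nat_lit 13) (.e (nat_lit 483337) (nat_lit 9) (.e (nat_lit 426106) (nat_lit 1) .nil)))) (.g (nat_lit 0) (.e (nat_lit 275122) (nat_lit 0) .nil) .nil)))) (.nd (nat_lit 9) 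
(.lf (nat_lit 543118) (.g (nat_lit 4643) (.e (nat_lit 98359) (nat_lit 26) (.e (nat_lit 426286) (nat_lit 10) (.e (nat_lit 434242) (nat_lit 28) (.e (nat_lit 573474) (nat_lit 12) (.e (nat_lit 57572) (nat_lit 54) (.e (nat_lit 770071) (nat_lit 8) (.e (nat_lit 65569) (nat_lit 3) .nil))))))) (.g (nat_lit 1) (.e (nat_lit 274838) (nat_lit 0) .nil) .nil))) 
(.lf (nat_lit 543630) (.g (nat_lit 3936) (.e (nat_lit 98367) (nat_lit 27) (.e (nat_lit 434231) (nat_lit 23) (.e (nat_lit 532513) (nat_lit 3) (.e (nat_lit 114718) (nat_lit 23) (.e (nat_lit 98333) (nat_lit 18) (.e (nat_lit 164403) (nat_lit 256) (.e (nat_lit 57378) (nat_lit 3) .nil))))))) (.g (nat_lit 1) (.e (nat_lit 275455) (nat_lit 0) .nil) .nil)))))) 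
(.nd (nat_lit 7) (.nd (nat_lit 8) (.nd (nat_lit 9) 
(.lf (nat_lit 542798) (.g (nat_lit 812) (.e (nat_lit 98350) (nat_lit 24) (.e (nat_lit 409616) (nat_lit 10) (.e (nat_lit 5616) (nat_lit 312) .nil))) (.g (nat_lit 0) (.e (nat_lit 274437) (nat_lit 0) .nil) .nil))) 
(.lf (nat_lit 543310) (.g (nat_lit 2772) (.e (nat_lit 98365) (nat_lit 26) (.e (nat_lit 426306) (nat_lit 12) (.e (nat_lit 475177) (nat_lit 24) (.e (nat_lit 516122) (nat_lit 2) (.e (nat_lit 213032) (nat_lit 11) (.e (nat_lit 24607) (nat_lit 3) .nil)))))) (.g (nat_lit 1) (.e (nat_lit 275058) (nat_lit 0) .nil) .nil)))) (.nd (nat_lit 9) 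
(.lf (nat_lit 543054) (.g (nat_lit 1652) (.e (nat_lit 98357) (nat_lit 26) (.e (nat_lit 426323) (nat_lit 13) (.e (nat_lit 483336) (nat_lit 9) (.e (nat_lit 426100) (nat_lit 1) (.e (nat_lit 164398) (nat_lit 256) .nil))))) (.g (nat_lit 0) (.e (nat_lit 274766) (nat_lit 0) .nil) .nil))) 
(.lf (nat_lit 543566) (.g (nat_lit 1646) (.e (nat_lit 98366) (nat_lit 27) (.e (nat_lit 434247) (nat_lit 28) (.e (nat_lit 573489) (nat_lit 14) (.e (nat_lit 73755) (nat_lit 8) (.e (nat_lit 557091) (nat_lit 12) .nil))))) (.g (nat_lit 0) (.e (nat_lit 275359) (nat_lit 0) .nil) .nil))))) (.nd (nat_lit 8) (.nd (nat_lit 9) 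
(.lf (nat_lit 542926) (.g (nat_lit 4154) (.e (nat_lit 98350) (nat_lit 24) (.e (nat_lit 409648) (nat_lit 18) (.e (nat_lit 303119) (nat_lit 3) (.e (nat_lit 204866) (nat_lit 28) (.e (nat_lit 352313) (nat_lit 23) .nil))))) (.g (nat_lit 1) (.e (nat_lit 274577) (nat_lit 0) .nil) .nil))) 
(.lf (nat_lit 543438) (.g (nat_lit 1999) (.e (nat_lit 98366) (nat_lit 27) (.e (nat_lit 434231) (nat_lit 23) (.e (nat_lit 532490) (nat_lit 0) (.e (nat_lit 2155) (nat_lit 142) .nil)))) (.g (nat_lit 0) (.e (nat_lit 275204) (nat_lit 0) .nil) .nil)))) (.nd (nat_lit 9) 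
(.lf (nat_lit 543182) (.g (nat_lit 2575) (.e (nat_lit 98362) (nat_lit 26) (.e (nat_lit 426285) (nat_lit 10) (.e (nat_lit 434238) (nat_lit 25) (.e (nat_lit 548913) (nat_lit 18) (.e (nat_lit 172124) (nat_lit 14) .nil))))) (.g (nat_lit 0) (.e (nat_lit 274906) (nat_lit 0) .nil) .nil))) 
(.lf (nat_lit 543694) (.g (nat_lit 1945) (.e (nat_lit 98367) (nat_lit 27) (.e (nat_lit 434245) (nat_lit 28) (.e (nat_lit 573488) (nat_lit 14) (.e (nat_lit 73755) (nat_lit 8) (.e (nat_lit 557119) (nat_lit 18) (.e (nat_lit 2808) (nat_lit 180) (.e (nat_lit 311040) (nat_lit 18) .nil))))))) (.g (nat_lit 1) (.e (nat_lit 275524) (nat_lit 0) .nil) .nil))))))) 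
(.nd (nat_lit 6) (.nd (nat_lit 7) (.nd (nat_lit 8) (.nd (nat_lit 9) 
(.lf (nat_lit 542766) (.g (nat_lit 1212) (.e (nat_lit 98349) (nat_lit 24) (.e (nat_lit 409646) (nat_lit 18) (.e (nat_lit 303119) (nat_lit 3) (.e (nat_lit 204855) (nat_lit 26) .nil)))) (.g (nat_lit 0) (.e (nat_lit 274402) (nat_lit 0) .nil) .nil))) 
(.lf (nat_lit 543278) (.g (nat_lit 2164) (.e (nat_lit 98365) (nat_lit 26) (.e (nat_lit 426188) (nat_lit 9) (.e (nat_lit 426564) (nat_lit 34) (.e (nat_lit 393252) (nat_lit 18) (.e (nat_lit 164399) (nat_lit 256) (.e (nat_lit 57377) (nat_lit 3) .nil)))))) (.g (nat_lit 1) (.e (nat_lit 275023) (nat_lit 0) .nil) .nil)))) (.nd (nat_lit 9) 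
(.lf (nat_lit 543022) (.g (nat_lit 3659) (.e (nat_lit 98356) (nat_lit 26) (.e (nat_lit 426436) (nat_lit 18) (.e (nat_lit 98335) (nat_lit 18) (.e (nat_lit 164329) (nat_lit 230) .nil)))) (.g (nat_lit 0) (.e (nat_lit 274732) (nat_lit 0) .nil) .nil))) 
(.lf (nat_lit 543534) (.g (nat_lit 2676) (.e (nat_lit 98366) (nat_lit 27) (.e (nat_lit 434244) (nat_lit 28) (.e (nat_lit 573487) (nat_lit 14) (.e (nat_lit 73753) (nat_lit 8) (.e (nat_lit 557089) (nat_lit 12) .nil))))) (.g (nat_lit 0) (.e (nat_lit 275323) (nat_lit 0) .nil) .nil))))) (.nd (nat_lit 8) (.nd (nat_lit 9) 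
(.lf (nat_lit 542894) (.g (nat_lit 4152) (.e (nat_lit 98350) (nat_lit 24) (.e (nat_lit 409648) (nat_lit 18) (.e (nat_lit 303117) (nat_lit 2) (.e (nat_lit 196666) (nat_lit 13) (.e (nat_lit 65595) (nat_lit 9) (.e (nat_lit 336028) (nat_lit 3) .nil)))))) (.g (nat_lit 1) (.e (nat_lit 274545) (nat_lit 0) .nil) .nil))) 
(.lf (nat_lit 543406) (.g (nat_lit 1187) (.e (nat_lit 98365) (nat_lit 26) (.e (nat_lit 426325) (nat_lit 13) (.e (nat_lit 483370) (nat_lit 20) (.e (nat_lit 147500) (nat_lit 12) (.e (nat_lit 164056) (nat_lit 56) (.e (nat_lit 786457) (nat_lit 18) .nil)))))) (.g (nat_lit 1) (.e (nat_lit 275154) (nat_lit 0) .nil) .nil)))) (.nd (nat_lit 9) 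
(.lf (nat_lit 543150) (.g (nat_lit 3105) (.e (nat_lit 98359) (nat_lit 26) (.e (nat_lit 426286) (nat_lit 10) (.e (nat_lit 434247) (nat_lit 28) (.e (nat_lit 573478) (nat_lit 12) (.e (nat_lit 57574) (nat_lit 55) (.e (nat_lit 778464) (nat_lit 11) (.e (nat_lit 24606) (nat_lit 3) .nil))))))) (.g (nat_lit 1) (.e (nat_lit 274870) (nat_lit 0) .nil) .nil))) 
(.lf (nat_lit 543662) (.g (nat_lit 520) (.e (nat_lit 98367) (nat_lit 27) (.e (nat_lit 434244) (nat_lit 28) (.e (nat_lit 573480) (nat_lit 13) .nil))) (.g (nat_lit 0) (.e (nat_lit 275492) (nat_lit 0) .nil) .nil)))))) (.nd (nat_lit 7) (.nd (nat_lit 8) (.nd (nat_lit 9) 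
(.lf (nat_lit 542830) (.g (nat_lit 1127) (.e (nat_lit 98350) (nat_lit 24) (.e (nat_lit 409645) (nat_lit 18) (.e (nat_lit 303117) (nat_lit 2) (.e (nat_lit 196665) (nat_lit 13) .nil)))) (.g (nat_lit 0) (.e (nat_lit 274479) (nat_lit 0) .nil) .nil))) 
(.lf (nat_lit 543342) (.g (nat_lit 2740) (.e (nat_lit 98365) (nat_lit 26) (.e (nat_lit 426306) (nat_lit 12) (.e (nat_lit 475179) (nat_lit 24) (.e (nat_lit 516127) (nat_lit 2) (.e (nat_lit 213031) (nat_lit 11) (.e (nat_lit 24607) (nat_lit 3) .nil)))))) (.g (nat_lit 1) (.e (nat_lit 275090) (nat_lit 0) .nil) .nil)))) (.nd (nat_lit 9) 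
(.lf (nat_lit 543086) (.g (nat_lit 2254) (.e (nat_lit 98358) (nat_lit 26) (.e (nat_lit 426320) (nat_lit 12) (.e (nat_lit 475178) (nat_lit 24) (.e (nat_lit 516126) (nat_lit 2) (.e (nat_lit 213030) (nat_lit 11) (.e (nat_lit 24609) (nat_lit 3) .nil)))))) (.g (nat_lit 1) (.e (nat_lit 274803) (nat_lit 0) .nil) .nil))) 
(.lf (nat_lit 543598) (.g (nat_lit 2067) (.e (nat_lit 98367) (nat_lit 27) (.e (nat_lit 434231) (nat_lit 23) (.e (nat_lit 532481) (nat_lit 0) (.e (nat_lit 2198) (nat_lit 144) .nil)))) (.g (nat_lit 0) (.e (nat_lit 275406) (nat_lit 0) .nil) .nil))))) (.nd (nat_lit 8) (.nd (nat_lit 9) 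
(.lf (nat_lit 542958) (.g (nat_lit 2814) (.e (nat_lit 98350) (nat_lit 24) (.e (nat_lit 409649) (nat_lit 18) (.e (nat_lit 303119) (nat_lit 3) (.e (nat_lit 204852) (nat_lit 26) (.e (nat_lit 336130) (nat_lit 9) (.e (nat_lit 336026) (nat_lit 3) .nil)))))) (.g (nat_lit 1) (.e (nat_lit 274612) (nat_lit 0) .nil) .nil))) 
(.lf (nat_lit 543470) (.g (nat_lit 866) (.e (nat_lit 98366) (nat_lit 27) (.e (nat_lit 434231) (nat_lit 23) (.e (nat_lit 532503) (nat_lit 1) .nil))) (.g (nat_lit 0) (.e (nat_lit 275248) (nat_lit 0) .nil) .nil)))) (.nd (nat_lit 9) 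
(.lf (nat_lit 543214) (.g (nat_lit 3633) (.e (nat_lit 98363) (nat_lit 26) (.e (nat_lit 426321) (nat_lit 13) (.e (nat_lit 483337) (nat_lit 9) (.e (nat_lit 426100) (nat_lit 1) (.e (nat_lit 164403) (nat_lit 256) (.e (nat_lit 57378) (nat_lit 3) .nil)))))) (.g (nat_lit 1) (.e (nat_lit 274946) (nat_lit 0) .nil) .nil))) 
(.lf (nat_lit 543726) (.g (nat_lit 3520) (.e (nat_lit 98367) (nat_lit 27) (.e (nat_lit 434247) (nat_lit 28) (.e (nat_lit 573489) (nat_lit 14) (.e (nat_lit 73755) (nat_lit 8) (.e (nat_lit 557090) (nat_lit 12) (.e (nat_lit 163840) (nat_lit 0) (.e (nat_lit 5939) (nat_lit 322) (.e (nat_lit 57379) (nat_lit 3) .nil)))))))) (.g (nat_lit 1) (.e (nat_lit 275560) (nat_lit 0) .nil) .nil)))))))) 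
(.nd (nat_lit 5) (.nd (nat_lit 6) (.nd (nat_lit 7) (.nd (nat_lit 8) (.nd (nat_lit 9) 
(.lf (nat_lit 542750) (.g (nat_lit 6585) (.e (nat_lit 98349) (nat_lit 24) (.e (nat_lit 409646) (nat_lit 18) (.e (nat_lit 303104) (nat_lit 0) (.e (nat_lit 3238) (nat_lit 197) (.e (nat_lit 532535) (nat_lit 9) (.e (nat_lit 336099) (nat_lit 9) (.e (nat_lit 336028) (nat_lit 3) .nil))))))) (.g (nat_lit 1) (.e (nat_lit 274383) (nat_lit 0) .nil) .nil))) 
(.lf (nat_lit 543262) (.g (nat_lit 3320) (.e (nat_lit 98365) (nat_lit 26) (.e (nat_lit 426188) (nat_lit 9) (.e (nat_lit 426130) (nat_lit 3) (.e (nat_lit 204846) (nat_lit 24) (.e (nat_lit 319530) (nat_lit 16) (.e (nat_lit 286735) (nat_lit 3) .nil)))))) (.g (nat_lit 1) (.e (nat_lit 275007) (nat_lit 0) .nil) .nil)))) (.nd (nat_lit 9) 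
(.lf (nat_lit 543006) (.g (nat_lit 4036) (.e (nat_lit 98354) (nat_lit 26) (.e (nat_lit 426436) (nat_lit 18) (.e (nat_lit 98335) (nat_lit 18) (.e (nat_lit 164329) (nat_lit 230) .nil)))) (.g (nat_lit 0) (.e (nat_lit 274712) (nat_lit 0) .nil) .nil))) 
(.lf (nat_lit 543518) (.g (nat_lit 1741) (.e (nat_lit 98366) (nat_lit 27) (.e (nat_lit 434244) (nat_lit 28) (.e (nat_lit 573481) (nat_lit 13) (.e (nat_lit 65566) (nat_lit 2) .nil)))) (.g (nat_lit 0) (.e (nat_lit 275303) (nat_lit 0) .nil) .nil))))) (.nd (nat_lit 8) (.nd (nat_lit 9) 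
(.lf (nat_lit 542878) (.g (nat_lit 3226) (.e (nat_lit 98350) (nat_lit 24) (.e (nat_lit 409647) (nat_lit 18) (.e (nat_lit 303119) (nat_lit 3) (.e (nat_lit 204855) (nat_lit 26) (.e (nat_lit 336073) (nat_lit 9) (.e (nat_lit 336028) (nat_lit 3) .nil)))))) (.g (nat_lit 1) (.e (nat_lit 274527) (nat_lit 0) .nil) .nil))) 
(.lf (nat_lit 543390) (.g (nat_lit 1257) (.e (nat_lit 98365) (nat_lit 26) (.e (nat_lit 426325) (nat_lit 13) (.e (nat_lit 483362) (nat_lit 18) .nil))) (.g (nat_lit 0) (.e (nat_lit 275138) (nat_lit 0) .nil) .nil)))) (.nd (nat_lit 9) 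
(.lf (nat_lit 543134) (.g (nat_lit 4706) (.e (nat_lit 98359) (nat_lit 26) (.e (nat_lit 426286) (nat_lit 10) (.e (nat_lit 434245) (nat_lit 28) (.e (nat_lit 573474) (nat_lit 12) (.e (nat_lit 57574) (nat_lit 55) (.e (nat_lit 778466) (nat_lit 11) (.e (nat_lit 24607) (nat_lit 3) .nil))))))) (.g (nat_lit 1) (.e (nat_lit 274854) (nat_lit 0) .nil) .nil))) 
(.lf (nat_lit 543646) (.g (nat_lit 4088) (.e (nat_lit 98367) (nat_lit 27) (.e (nat_lit 434231) (nat_lit 23) (.e (nat_lit 532514) (nat_lit 3) (.e (nat_lit 114719) (nat_lit 23) (.e (nat_lit 98334) (nat_lit 18) (.e (nat_lit 164401) (nat_lit 256) (.e (nat_lit 57378) (nat_lit 3) .nil))))))) (.g (nat_lit 1) (.e (nat_lit 275473) (nat_lit 0) .nil) .nil)))))) 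
(.nd (nat_lit 7) (.nd (nat_lit 8) (.nd (nat_lit 9) 
(.lf (nat_lit 542814) (.g (nat_lit 679) (.e (nat_lit 98350) (nat_lit 24) (.e (nat_lit 409623) (nat_lit 10) (.e (nat_lit 5664) (nat_lit 312) (.e (nat_lit 2679) (nat_lit 168) .nil)))) (.g (nat_lit 0) (.e (nat_lit 274461) (nat_lit 0) .nil) .nil))) 
(.lf (nat_lit 543326) (.g (nat_lit 1456) (.e (nat_lit 98365) (nat_lit 26) (.e (nat_lit 426306) (nat_lit 12) (.e (nat_lit 475177) (nat_lit 24) (.e (nat_lit 516130) (nat_lit 3) .nil)))) (.g (nat_lit 0) (.e (nat_lit 275074) (nat_lit 0) .nil) .nil)))) (.nd (nat_lit 9) 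
(.lf (nat_lit 543070) (.g (nat_lit 2898) (.e (nat_lit 98357) (nat_lit 26) (.e (nat_lit 426436) (nat_lit 18) (.e (nat_lit 98385) (nat_lit 32) (.e (nat_lit 475177) (nat_lit 24) (.e (nat_lit 516146) (nat_lit 9) (.e (nat_lit 426436) (nat_lit 18) .nil)))))) (.g (nat_lit 1) (.e (nat_lit 274786) (nat_lit 0) .nil) .nil))) 
(.lf (nat_lit 543582) (.g (nat_lit 3126) (.e (nat_lit 98366) (nat_lit 27) (.e (nat_lit 434248) (nat_lit 28) (.e (nat_lit 573487) (nat_lit 14) (.e (nat_lit 73753) (nat_lit 8) (.e (nat_lit 557090) (nat_lit 12) (.e (nat_lit 163843) (nat_lit 0) (.e (nat_lit 5940) (nat_lit 322) (.e (nat_lit 57379) (nat_lit 3) .nil)))))))) (.g (nat_lit 1) (.e (nat_lit 275378) (nat_lit 0) .nil) .nil))))) 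
(.nd (nat_lit 8) (.nd (nat_lit 9) 
(.lf (nat_lit 542942) (.g (nat_lit 3471) (.e (nat_lit 98350) (nat_lit 24) (.e (nat_lit 409649) (nat_lit 18) (.e (nat_lit 303117) (nat_lit 2) (.e (nat_lit 196674) (nat_lit 15) (.e (nat_lit 81955) (nat_lit 23) .nil))))) (.g (nat_lit 1) (.e (nat_lit 274595) (nat_lit 0) .nil) .nil))) 
(.lf (nat_lit 543454) (.g (nat_lit 2421) (.e (nat_lit 98366) (nat_lit 27) (.e (nat_lit 434231) (nat_lit 23) (.e (nat_lit 532500) (nat_lit 1) (.e (nat_lit 57664) (nat_lit 152) .nil)))) (.g (nat_lit 0) (.e (nat_lit 275227) (nat_lit 0) .nil) .nil)))) (.nd (nat_lit 9) 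
(.lf (nat_lit 543198) (.g (nat_lit 2619) (.e (nat_lit 98363) (nat_lit 26) (.e (nat_lit 426318) (nat_lit 12) (.e (nat_lit 475177) (nat_lit 24) (.e (nat_lit 516127) (nat_lit 2) (.e (nat_lit 213032) (nat_lit 11) (.e (nat_lit 24608) (nat_lit 3) .nil)))))) (.g (nat_lit 1) (.e (nat_lit 274929) (nat_lit 0) .nil) .nil))) 
(.lf (nat_lit 543710) (.g (nat_lit 1806) (.e (nat_lit 98367) (nat_lit 27) (.e (nat_lit 434247) (nat_lit 28) (.e (nat_lit 573484) (nat_lit 13) (.e (nat_lit 65566) (nat_lit 2) .nil)))) (.g (nat_lit 0) (.e (nat_lit 275542) (nat_lit 0) .nil) .nil))))))) (.nd (nat_lit 6) (.nd (nat_lit 7) (.nd (nat_lit 8) (.nd (nat_lit 9) 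
(.lf (nat_lit 542782) (.g (nat_lit 3861) (.e (nat_lit 98349) (nat_lit 24) (.e (nat_lit 409648) (nat_lit 18) (.e (nat_lit 303119) (nat_lit 3) (.e (nat_lit 204855) (nat_lit 26) (.e (nat_lit 336097) (nat_lit 9) .nil))))) (.g (nat_lit 0) (.e (nat_lit 274418) (nat_lit 0) .nil) .nil))) 
(.lf (nat_lit 543294) (.g (nat_lit 1945) (.e (nat_lit 98365) (nat_lit 26) (.e (nat_lit 426190) (nat_lit 9) (.e (nat_lit 426566) (nat_lit 34) (.e (nat_lit 393251) (nat_lit 18) (.e (nat_lit 164399) (nat_lit 256) .nil))))) (.g (nat_lit 0) (.e (nat_lit 275039) (nat_lit 0) .nil) .nil)))) (.nd (nat_lit 9) 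
(.lf (nat_lit 543038) (.g (nat_lit 3361) (.e (nat_lit 98356) (nat_lit 26) (.e (nat_lit 426438) (nat_lit 18) (.e (nat_lit 98334) (nat_lit 18) (.e (nat_lit 164330) (nat_lit 230) (.e (nat_lit 163874) (nat_lit 3) (.e (nat_lit 204836) (nat_lit 20) (.e (nat_lit 114717) (nat_lit 23) .nil))))))) (.g (nat_lit 1) (.e (nat_lit 274750) (nat_lit 0) .nil) .nil))) 
(.lf (nat_lit 543550) (.g (nat_lit 1266) (.e (nat_lit 98366) (nat_lit 27) (.e (nat_lit 434245) (nat_lit 28) (.e (nat_lit 573487) (nat_lit 14) (.e (nat_lit 73753) (nat_lit 8) .nil)))) (.g (nat_lit 0) (.e (nat_lit 275341) (nat_lit 0) .nil) .nil))))) (.nd (nat_lit 8) (.nd (nat_lit 9) 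
(.lf (nat_lit 542910) (.g (nat_lit 2973) (.e (nat_lit 98350) (nat_lit 24) (.e (nat_lit 409648) (nat_lit 18) (.e (nat_lit 303118) (nat_lit 3) (.e (nat_lit 204852) (nat_lit 26) (.e (nat_lit 336130) (nat_lit 9) (.e (nat_lit 336025) (nat_lit 3) .nil)))))) (.g (nat_lit 1) (.e (nat_lit 274561) (nat_lit 0) .nil) .nil))) 
(.lf (nat_lit 543422) (.g (nat_lit 4327) (.e (nat_lit 106240) (nat_lit 26) (.e (nat_lit 426211) (nat_lit 9) (.e (nat_lit 426125) (nat_lit 2) (.e (nat_lit 196630) (nat_lit 9) (.e (nat_lit 1393) (nat_lit 106) .nil))))) (.g (nat_lit 0) (.e (nat_lit 275170) (nat_lit 0) .nil) .nil)))) (.nd (nat_lit 9) 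
(.lf (nat_lit 543166) (.g (nat_lit 3942) (.e (nat_lit 98359) (nat_lit 26) (.e (nat_lit 426286) (nat_lit 10) (.e (nat_lit 434248) (nat_lit 28) (.e (nat_lit 573475) (nat_lit 12) (.e (nat_lit 57574) (nat_lit 55) (.e (nat_lit 778465) (nat_lit 11) (.e (nat_lit 32512) (nat_lit 3) .nil))))))) (.g (nat_lit 1) (.e (nat_lit 274886) (nat_lit 0) .nil) .nil))) 
(.lf (nat_lit 543678) (.g (nat_lit 2424) (.e (nat_lit 98367) (nat_lit 27) (.e (nat_lit 434244) (nat_lit 28) (.e (nat_lit 573488) (nat_lit 14) (.e (nat_lit 73755) (nat_lit 8) (.e (nat_lit 557090) (nat_lit 12) .nil))))) (.g (nat_lit 0) (.e (nat_lit 275508) (nat_lit 0) .nil) .nil)))))) (.nd (nat_lit 7) (.nd (nat_lit 8) (.nd (nat_lit 9) 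
(.lf (nat_lit 542846) (.g (nat_lit 3055) (.e (nat_lit 98350) (nat_lit 24) (.e (nat_lit 409646) (nat_lit 18) (.e (nat_lit 303117) (nat_lit 2) (.e (nat_lit 196666) (nat_lit 13) (.e (nat_lit 65596) (nat_lit 9) .nil))))) (.g (nat_lit 0) (.e (nat_lit 274495) (nat_lit 0) .nil) .nil))) 
(.lf (nat_lit 543358) (.g (nat_lit 3209) (.e (nat_lit 98365) (nat_lit 26) (.e (nat_lit 426325) (nat_lit 13) (.e (nat_lit 483336) (nat_lit 9) (.e (nat_lit 426100) (nat_lit 1) (.e (nat_lit 164399) (nat_lit 256) (.e (nat_lit 57377) (nat_lit 3) .nil)))))) (.g (nat_lit 1) (.e (nat_lit 275106) (nat_lit 0) .nil) .nil)))) (.nd (nat_lit 9) 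
(.lf (nat_lit 543102) (.g (nat_lit 961) (.e (nat_lit 98358) (nat_lit 26) (.e (nat_lit 426436) (nat_lit 18) (.e (nat_lit 98333) (nat_lit 18) .nil))) (.g (nat_lit 0) (.e (nat_lit 274819) (nat_lit 0) .nil) .nil))) 
(.lf (nat_lit 543614) (.g (nat_lit 3646) (.e (nat_lit 98367) (nat_lit 27) (.e (nat_lit 434231) (nat_lit 23) (.e (nat_lit 532500) (nat_lit 1) (.e (nat_lit 57691) (nat_lit 156) (.e (nat_lit 163874) (nat_lit 3) (.e (nat_lit 204838) (nat_lit 20) (.e (nat_lit 114718) (nat_lit 23) .nil))))))) (.g (nat_lit 1) (.e (nat_lit 275436) (nat_lit 0) .nil) .nil))))) (.nd (nat_lit 8) (.nd (nat_lit 9) 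
(.lf (nat_lit 542974) (.g (nat_lit 967) (.e (nat_lit 98353) (nat_lit 25) (.e (nat_lit 417813) (nat_lit 9) (.e (nat_lit 311314) (nat_lit 3) (.e (nat_lit 204846) (nat_lit 24) (.e (nat_lit 319534) (nat_lit 16) .nil))))) (.g (nat_lit 0) (.e (nat_lit 274660) (nat_lit 0) .nil) .nil))) 
(.lf (nat_lit 543486) (.g (nat_lit 2737) (.e (nat_lit 98366) (nat_lit 27) (.e (nat_lit 434231) (nat_lit 23) (.e (nat_lit 532513) (nat_lit 3) (.e (nat_lit 114719) (nat_lit 23) (.e (nat_lit 98332) (nat_lit 18) .nil))))) (.g (nat_lit 0) (.e (nat_lit 275264) (nat_lit 0) .nil) .nil)))) (.nd (nat_lit 9) 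
(.lf (nat_lit 543230) (.g (nat_lit 564) (.e (nat_lit 98364) (nat_lit 26) (.e (nat_lit 426316) (nat_lit 12) (.e (nat_lit 475185) (nat_lit 29) .nil))) (.g (nat_lit 0) (.e (nat_lit 274967) (nat_lit 0) .nil) .nil))) 
(.lf (nat_lit 543742) (.g (nat_lit 358) (.e (nat_lit 98367) (nat_lit 27) (.e (nat_lit 434248) (nat_lit 28) (.e (nat_lit 573482) (nat_lit 13) .nil))) (.g (nat_lit 0) (.e (nat_lit 275580) (nat_lit 0) .nil) .nil)))))))))))) (.nd (nat_lit 1) (.nd (nat_lit 2) (.nd (nat_lit 3) (.nd (nat_lit 4) (.nd (nat_lit 5) (.nd (nat_lit 6) (.nd (nat_lit 7) (.nd (nat_lit 8) (.nd (nat_lit 9) 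
(.lf (nat_lit 542721) (.g (nat_lit 1300) (.e (nat_lit 98349) (nat_lit 24) (.e (nat_lit 409644) (nat_lit 18) (.e (nat_lit 303119) (nat_lit 3) (.e (nat_lit 204855) (nat_lit 26) .nil)))) (.g (nat_lit 0) (.e (nat_lit 274353) (nat_lit 0) .nil) .nil))) 
(.lf (nat_lit 543233) (.g (nat_lit 3259) (.e (nat_lit 98364) (nat_lit 26) (.e (nat_lit 426316) (nat_lit 12) (.e (nat_lit 475185) (nat_lit 29) (.e (nat_lit 557101) (nat_lit 13) .nil)))) (.g (nat_lit 0) (.e (nat_lit 274970) (nat_lit 0) .nil) .nil)))) (.nd (nat_lit 9) 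
(.lf (nat_lit 542977) (.g (nat_lit 2923) (.e (nat_lit 98353) (nat_lit 25) (.e (nat_lit 417813) (nat_lit 9) (.e (nat_lit 311315) (nat_lit 3) (.e (nat_lit 204846) (nat_lit 24) (.e (nat_lit 319530) (nat_lit 16) (.e (nat_lit 286735) (nat_lit 3) .nil)))))) (.g (nat_lit 1) (.e (nat_lit 274663) (nat_lit 0) .nil) .nil))) 
(.lf (nat_lit 543489) (.g (nat_lit 1390) (.e (nat_lit 98366) (nat_lit 27) (.e (nat_lit 434231) (nat_lit 23) (.e (nat_lit 532514) (nat_lit 3) (.e (nat_lit 114715) (nat_lit 22) .nil)))) (.g (nat_lit 0) (.e (nat_lit 275267) (nat_lit 0) .nil) .nil))))) (.nd (nat_lit 8) (.nd (nat_lit 9) 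
(.lf (nat_lit 542849) (.g (nat_lit 1383) (.e (nat_lit 98350) (nat_lit 24) (.e (nat_lit 409646) (nat_lit 18) (.e (nat_lit 303117) (nat_lit 2) (.e (nat_lit 196670) (nat_lit 14) .nil)))) (.g (nat_lit 0) (.e (nat_lit 274498) (nat_lit 0) .nil) .nil))) 
(.lf (nat_lit 543361) (.g (nat_lit 1724) (.e (nat_lit 98365) (nat_lit 26) (.e (nat_lit 426325) (nat_lit 13) (.e (nat_lit 483337) (nat_lit 9) (.e (nat_lit 426009) (nat_lit 0) .nil)))) (.g (nat_lit 0) (.e (nat_lit 275109) (nat_lit 0) .nil) .nil)))) (.nd (nat_lit 9) 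
(.lf (nat_lit 543105) (.g (nat_lit 1524) (.e (nat_lit 98358) (nat_lit 26) (.e (nat_lit 426436) (nat_lit 18) (.e (nat_lit 98356) (nat_lit 26) (.e (nat_lit 426428) (nat_lit 17) (.e (nat_lit 90125) (nat_lit 9) (.e (nat_lit 2900) (nat_lit 184) (.e (nat_lit 426435) (nat_lit 18) .nil))))))) (.g (nat_lit 1) (.e (nat_lit 274822) (nat_lit 0) .nil) .nil))) 
(.lf (nat_lit 543617) (.g (nat_lit 4054) (.e (nat_lit 98367) (nat_lit 27) (.e (nat_lit 434231) (nat_lit 23) (.e (nat_lit 532500) (nat_lit 1) (.e (nat_lit 57692) (nat_lit 156) (.e (nat_lit 163874) (nat_lit 3) (.e (nat_lit 204836) (nat_lit 20) (.e (nat_lit 114718) (nat_lit 23) .nil))))))) (.g (nat_lit 1) (.e (nat_lit 275439) (nat_lit 0) .nil) .nil)))))) 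
(.nd (nat_lit 7) (.nd (nat_lit 8) (.nd (nat_lit 9) 
(.lf (nat_lit 542785) (.g (nat_lit 3800) (.e (nat_lit 98349) (nat_lit 24) (.e (nat_lit 409648) (nat_lit 18) (.e (nat_lit 303119) (nat_lit 3) (.e (nat_lit 204866) (nat_lit 28) (.e (nat_lit 352313) (nat_lit 23) .nil))))) (.g (nat_lit 1) (.e (nat_lit 274421) (nat_lit 0) .nil) .nil))) 
(.lf (nat_lit 543297) (.g (nat_lit 1925) (.e (nat_lit 98365) (nat_lit 26) (.e (nat_lit 426278) (nat_lit 10) (.e (nat_lit 434247) (nat_lit 28) (.e (nat_lit 573477) (nat_lit 12) (.e (nat_lit 57575) (nat_lit 55) (.e (nat_lit 778466) (nat_lit 11) (.e (nat_lit 24608) (nat_lit 3) .nil))))))) (.g (nat_lit 1) (.e (nat_lit 275042) (nat_lit 0) .nil) .nil)))) (.nd (nat_lit 9) 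
(.lf (nat_lit 543041) (.g (nat_lit 2924) (.e (nat_lit 98356) (nat_lit 26) (.e (nat_lit 426438) (nat_lit 18) (.e (nat_lit 98335) (nat_lit 18) (.e (nat_lit 164330) (nat_lit 230) (.e (nat_lit 163873) (nat_lit 3) (.e (nat_lit 204838) (nat_lit 20) (.e (nat_lit 114718) (nat_lit 23) .nil))))))) (.g (nat_lit 1) (.e (nat_lit 274753) (nat_lit 0) .nil) .nil))) 
(.lf (nat_lit 543553) (.g (nat_lit 1692) (.e (nat_lit 98366) (nat_lit 27) (.e (nat_lit 434245) (nat_lit 28) (.e (nat_lit 573488) (nat_lit 14) (.e (nat_lit 73755) (nat_lit 8) (.e (nat_lit 557090) (nat_lit 12) .nil))))) (.g (nat_lit 0) (.e (nat_lit 275345) (nat_lit 0) .nil) .nil))))) (.nd (nat_lit 8) (.nd (nat_lit 9) 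
(.lf (nat_lit 542913) (.g (nat_lit 3450) (.e (nat_lit 98350) (nat_lit 24) (.e (nat_lit 409648) (nat_lit 18) (.e (nat_lit 303118) (nat_lit 3) (.e (nat_lit 204855) (nat_lit 26) (.e (nat_lit 336073) (nat_lit 9) (.e (nat_lit 336028) (nat_lit 3) .nil)))))) (.g (nat_lit 1) (.e (nat_lit 274564) (nat_lit 0) .nil) .nil))) 
(.lf (nat_lit 543425) (.g (nat_lit 3008) (.e (nat_lit 106240) (nat_lit 26) (.e (nat_lit 426265) (nat_lit 9) (.e (nat_lit 426133) (nat_lit 3) (.e (nat_lit 204846) (nat_lit 24) (.e (nat_lit 319530) (nat_lit 16) .nil))))) (.g (nat_lit 0) (.e (nat_lit 275174) (nat_lit 0) .nil) .nil)))) (.nd (nat_lit 9) 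
(.lf (nat_lit 543169) (.g (nat_lit 4115) (.e (nat_lit 98359) (nat_lit 26) (.e (nat_lit 426286) (nat_lit 10) (.e (nat_lit 434248) (nat_lit 28) (.e (nat_lit 573475) (nat_lit 12) (.e (nat_lit 57574) (nat_lit 55) (.e (nat_lit 778466) (nat_lit 11) (.e (nat_lit 32512) (nat_lit 3) .nil))))))) (.g (nat_lit 1) (.e (nat_lit 274889) (nat_lit 0) .nil) .nil))) 
(.lf (nat_lit 543681) (.g (nat_lit 4219) (.e (nat_lit 98367) (nat_lit 27) (.e (nat_lit 434244) (nat_lit 28) (.e (nat_lit 573488) (nat_lit 14) (.e (nat_lit 73755) (nat_lit 8) (.e (nat_lit 557090) (nat_lit 12) (.e (nat_lit 163850) (nat_lit 0) (.e (nat_lit 5939) (nat_lit 322) (.e (nat_lit 57379) (nat_lit 3) .nil)))))))) (.g (nat_lit 1) (.e (nat_lit 275511) (nat_lit 0) .nil) .nil))))))) 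
(.nd (nat_lit 6) (.nd (nat_lit 7) (.nd (nat_lit 8) (.nd (nat_lit 9) 
(.lf (nat_lit 542753) (.g (nat_lit 3861) (.e (nat_lit 98349) (nat_lit 24) (.e (nat_lit 409646) (nat_lit 18) (.e (nat_lit 303112) (nat_lit 0) (.e (nat_lit 3252) (nat_lit 197) (.e (nat_lit 532560) (nat_lit 14) (.e (nat_lit 376869) (nat_lit 23) .nil)))))) (.g (nat_lit 1) (.e (nat_lit 274387) (nat_lit 0) .nil) .nil))) 
(.lf (nat_lit 543265) (.g (nat_lit 3150) (.e (nat_lit 98365) (nat_lit 26) (.e (nat_lit 426188) (nat_lit 9) (.e (nat_lit 426436) (nat_lit 18) (.e (nat_lit 98337) (nat_lit 19) (.e (nat_lit 213032) (nat_lit 11) (.e (nat_lit 24608) (nat_lit 3) .nil)))))) (.g (nat_lit 1) (.e (nat_lit 275010) (nat_lit 0) .nil) .nil)))) (.nd (nat_lit 9) 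
(.lf (nat_lit 543009) (.g (nat_lit 1618) (.e (nat_lit 98355) (nat_lit 26) (.e (nat_lit 426131) (nat_lit 3) (.e (nat_lit 204838) (nat_lit 20) (.e (nat_lit 114718) (nat_lit 23) .nil)))) (.g (nat_lit 0) (.e (nat_lit 274717) (nat_lit 0) .nil) .nil))) 
(.lf (nat_lit 543521) (.g (nat_lit 1560) (.e (nat_lit 98366) (nat_lit 27) (.e (nat_lit 434244) (nat_lit 28) (.e (nat_lit 573481) (nat_lit 13) (.e (nat_lit 65569) (nat_lit 3) .nil)))) (.g (nat_lit 0) (.e (nat_lit 275307) (nat_lit 0) .nil) .nil))))) (.nd (nat_lit 8) (.nd (nat_lit 9) 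
(.lf (nat_lit 542881) (.g (nat_lit 3135) (.e (nat_lit 98350) (nat_lit 24) (.e (nat_lit 409647) (nat_lit 18) (.e (nat_lit 303119) (nat_lit 3) (.e (nat_lit 204866) (nat_lit 28) (.e (nat_lit 352314) (nat_lit 23) .nil))))) (.g (nat_lit 1) (.e (nat_lit 274530) (nat_lit 0) .nil) .nil))) 
(.lf (nat_lit 543393) (.g (nat_lit 3386) (.e (nat_lit 98365) (nat_lit 26) (.e (nat_lit 426325) (nat_lit 13) (.e (nat_lit 483363) (nat_lit 18) (.e (nat_lit 57688) (nat_lit 156) (.e (nat_lit 163907) (nat_lit 12) (.e (nat_lit 426434) (nat_lit 18) .nil)))))) (.g (nat_lit 1) (.e (nat_lit 275141) (nat_lit 0) .nil) .nil)))) (.nd (nat_lit 9) 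
(.lf (nat_lit 543137) (.g (nat_lit 3965) (.e (nat_lit 98359) (nat_lit 26) (.e (nat_lit 426286) (nat_lit 10) (.e (nat_lit 434245) (nat_lit 28) (.e (nat_lit 573475) (nat_lit 12) (.e (nat_lit 57572) (nat_lit 54) (.e (nat_lit 770072) (nat_lit 8) (.e (nat_lit 65569) (nat_lit 3) .nil))))))) (.g (nat_lit 1) (.e (nat_lit 274857) (nat_lit 0) .nil) .nil))) 
(.lf (nat_lit 543649) (.g (nat_lit 976) (.e (nat_lit 98367) (nat_lit 27) (.e (nat_lit 434231) (nat_lit 23) (.e (nat_lit 532515) (nat_lit 3) .nil))) (.g (nat_lit 0) (.e (nat_lit 275476) (nat_lit 0) .nil) .nil)))))) (.nd (nat_lit 7) (.nd (nat_lit 8) (.nd (nat_lit 9) 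
(.lf (nat_lit 542817) (.g (nat_lit 2422) (.e (nat_lit 98350) (nat_lit 24) (.e (nat_lit 409643) (nat_lit 18) (.e (nat_lit 303117) (nat_lit 2) (.e (nat_lit 196668) (nat_lit 14) (.e (nat_lit 81664) (nat_lit 40) (.e (nat_lit 1250) (nat_lit 92) .nil)))))) (.g (nat_lit 1) (.e (nat_lit 274465) (nat_lit 0) .nil) .nil))) 
(.lf (nat_lit 543329) (.g (nat_lit 2362) (.e (nat_lit 98365) (nat_lit 26) (.e (nat_lit 426306) (nat_lit 12) (.e (nat_lit 475178) (nat_lit 24) (.e (nat_lit 516124) (nat_lit 2) (.e (nat_lit 213030) (nat_lit 11) (.e (nat_lit 24609) (nat_lit 3) .nil)))))) (.g (nat_lit 1) (.e (nat_lit 275077) (nat_lit 0) .nil) .nil)))) (.nd (nat_lit 9) 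
(.lf (nat_lit 543073) (.g (nat_lit 2142) (.e (nat_lit 98357) (nat_lit 26) (.e (nat_lit 426436) (nat_lit 18) (.e (nat_lit 98385) (nat_lit 32) (.e (nat_lit 475177) (nat_lit 24) (.e (nat_lit 516150) (nat_lit 9) (.e (nat_lit 426438) (nat_lit 18) .nil)))))) (.g (nat_lit 1) (.e (nat_lit 274790) (nat_lit 0) .nil) .nil))) 
(.lf (nat_lit 543585) (.g (nat_lit 570) (.e (nat_lit 98366) (nat_lit 27) (.e (nat_lit 434248) (nat_lit 28) (.e (nat_lit 573489) (nat_lit 14) .nil))) (.g (nat_lit 0) (.e (nat_lit 275381) (nat_lit 0) .nil) .nil))))) (.nd (nat_lit 8) (.nd (nat_lit 9) 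
(.lf (nat_lit 542945) (.g (nat_lit 2309) (.e (nat_lit 98350) (nat_lit 24) (.e (nat_lit 409649) (nat_lit 18) (.e (nat_lit 303118) (nat_lit 3) (.e (nat_lit 204852) (nat_lit 26) (.e (nat_lit 336130) (nat_lit 9) .nil))))) (.g (nat_lit 0) (.e (nat_lit 274598) (nat_lit 0) .nil) .nil))) 
(.lf (nat_lit 543457) (.g (nat_lit 2421) (.e (nat_lit 98366) (nat_lit 27) (.e (nat_lit 434231) (nat_lit 23) (.e (nat_lit 532500) (nat_lit 1) (.e (nat_lit 57671) (nat_lit 152) .nil)))) (.g (nat_lit 0) (.e (nat_lit 275232) (nat_lit 0) .nil) .nil)))) (.nd (nat_lit 9) 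
(.lf (nat_lit 543201) (.g (nat_lit 1842) (.e (nat_lit 98363) (nat_lit 26) (.e (nat_lit 426318) (nat_lit 12) (.e (nat_lit 475177) (nat_lit 24) (.e (nat_lit 516131) (nat_lit 3) (.e (nat_lit 221193) (nat_lit 11) (.e (nat_lit 336026) (nat_lit 3) .nil)))))) (.g (nat_lit 1) (.e (nat_lit 274932) (nat_lit 0) .nil) .nil))) 
(.lf (nat_lit 543713) (.g (nat_lit 1700) (.e (nat_lit 98367) (nat_lit 27) (.e (nat_lit 434247) (nat_lit 28) (.e (nat_lit 573484) (nat_lit 13) (.e (nat_lit 65577) (nat_lit 5) .nil)))) (.g (nat_lit 0) (.e (nat_lit 275545) (nat_lit 0) .nil) .nil)))))))) (.nd (nat_lit 5) (.nd (nat_lit 6) (.nd (nat_lit 7) (.nd (nat_lit 8) (.nd (nat_lit 9) 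
(.lf (nat_lit 542737) (.g (nat_lit 2881) (.e (nat_lit 98349) (nat_lit 24) (.e (nat_lit 409645) (nat_lit 18) (.e (nat_lit 303117) (nat_lit 2) (.e (nat_lit 196681) (nat_lit 17) (.e (nat_lit 131104) (nat_lit 9) .nil))))) (.g (nat_lit 0) (.e (nat_lit 274370) (nat_lit 0) .nil) .nil))) 
(.lf (nat_lit 543249) (.g (nat_lit 3255) (.e (nat_lit 98365) (nat_lit 26) (.e (nat_lit 426187) (nat_lit 9) (.e (nat_lit 426428) (nat_lit 17) (.e (nat_lit 90165) (nat_lit 12) (.e (nat_lit 164048) (nat_lit 55) (.e (nat_lit 778469) (nat_lit 11) (.e (nat_lit 24608) (nat_lit 3) .nil))))))) (.g (nat_lit 1) (.e (nat_lit 274994) (nat_lit 0) .nil) .nil)))) (.nd (nat_lit 9) 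
(.lf (nat_lit 542993) (.g (nat_lit 2279) (.e (nat_lit 98354) (nat_lit 26) (.e (nat_lit 426140) (nat_lit 3) (.e (nat_lit 204838) (nat_lit 20) (.e (nat_lit 114719) (nat_lit 23) (.e (nat_lit 98334) (nat_lit 18) .nil))))) (.g (nat_lit 0) (.e (nat_lit 274697) (nat_lit 0) .nil) .nil))) 
(.lf (nat_lit 543505) (.g (nat_lit 2686) (.e (nat_lit 98366) (nat_lit 27) (.e (nat_lit 434231) (nat_lit 23) (.e (nat_lit 532515) (nat_lit 3) (.e (nat_lit 114719) (nat_lit 23) (.e (nat_lit 98334) (nat_lit 18) .nil))))) (.g (nat_lit 0) (.e (nat_lit 275284) (nat_lit 0) .nil) .nil))))) (.nd (nat_lit 8) (.nd (nat_lit 9) 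
(.lf (nat_lit 542865) (.g (nat_lit 2631) (.e (nat_lit 98350) (nat_lit 24) (.e (nat_lit 409646) (nat_lit 18) (.e (nat_lit 303119) (nat_lit 3) (.e (nat_lit 204855) (nat_lit 26) (.e (nat_lit 336102) (nat_lit 9) (.e (nat_lit 336028) (nat_lit 3) .nil)))))) (.g (nat_lit 1) (.e (nat_lit 274514) (nat_lit 0) .nil) .nil))) 
(.lf (nat_lit 543377) (.g (nat_lit 755) (.e (nat_lit 98365) (nat_lit 26) (.e (nat_lit 426325) (nat_lit 13) (.e (nat_lit 483339) (nat_lit 9) .nil))) (.g (nat_lit 0) (.e (nat_lit 275125) (nat_lit 0) .nil) .nil)))) (.nd (nat_lit 9) 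
(.lf (nat_lit 543121) (.g (nat_lit 2392) (.e (nat_lit 98359) (nat_lit 26) (.e (nat_lit 426286) (nat_lit 10) (.e (nat_lit 434245) (nat_lit 28) (.e (nat_lit 573469) (nat_lit 11) (.e (nat_lit 16473) (nat_lit 14) (.e (nat_lit 499456) (nat_lit 3) .nil)))))) (.g (nat_lit 1) (.e (nat_lit 274841) (nat_lit 0) .nil) .nil))) 
(.lf (nat_lit 543633) (.g (nat_lit 1133) (.e (nat_lit 98367) (nat_lit 27) (.e (nat_lit 434231) (nat_lit 23) (.e (nat_lit 532514) (nat_lit 3) (.e (nat_lit 114715) (nat_lit 22) .nil)))) (.g (nat_lit 0) (.e (nat_lit 275460) (nat_lit 0) .nil) .nil)))))) (.nd (nat_lit 7) (.nd (nat_lit 8) (.nd (nat_lit 9) 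
(.lf (nat_lit 542801) (.g (nat_lit 810) (.e (nat_lit 98350) (nat_lit 24) (.e (nat_lit 409616) (nat_lit 10) (.e (nat_lit 5665) (nat_lit 312) .nil))) (.g (nat_lit 0) (.e (nat_lit 274441) (nat_lit 0) .nil) .nil))) 
(.lf (nat_lit 543313) (.g (nat_lit 2567) (.e (nat_lit 98365) (nat_lit 26) (.e (nat_lit 426306) (nat_lit 12) (.e (nat_lit 475177) (nat_lit 24) (.e (nat_lit 516125) (nat_lit 2) (.e (nat_lit 213030) (nat_lit 11) (.e (nat_lit 24607) (nat_lit 3) .nil)))))) (.g (nat_lit 1) (.e (nat_lit 275061) (nat_lit 0) .nil) .nil)))) (.nd (nat_lit 9) 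
(.lf (nat_lit 543057) (.g (nat_lit 3803) (.e (nat_lit 98357) (nat_lit 26) (.e (nat_lit 426436) (nat_lit 18) (.e (nat_lit 98335) (nat_lit 18) (.e (nat_lit 164305) (nat_lit 226) (.e (nat_lit 2604) (nat_lit 163) .nil))))) (.g (nat_lit 0) (.e (nat_lit 274771) (nat_lit 0) .nil) .nil))) 
(.lf (nat_lit 543569) (.g (nat_lit 2981) (.e (nat_lit 98366) (nat_lit 27) (.e (nat_lit 434247) (nat_lit 28) (.e (nat_lit 573489) (nat_lit 14) (.e (nat_lit 73755) (nat_lit 8) (.e (nat_lit 557119) (nat_lit 18) (.e (nat_lit 2798) (nat_lit 180) (.e (nat_lit 311040) (nat_lit 18) .nil))))))) (.g (nat_lit 1) (.e (nat_lit 275362) (nat_lit 0) .nil) .nil))))) (.nd (nat_lit 8) (.nd (nat_lit 9) 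
(.lf (nat_lit 542929) (.g (nat_lit 2398) (.e (nat_lit 98350) (nat_lit 24) (.e (nat_lit 409649) (nat_lit 18) (.e (nat_lit 303111) (nat_lit 0) (.e (nat_lit 3255) (nat_lit 197) (.e (nat_lit 532534) (nat_lit 9) (.e (nat_lit 336115) (nat_lit 9) (.e (nat_lit 343808) (nat_lit 3) .nil))))))) (.g (nat_lit 1) (.e (nat_lit 274582) (nat_lit 0) .nil) .nil))) 
(.lf (nat_lit 543441) (.g (nat_lit 2147) (.e (nat_lit 98366) (nat_lit 27) (.e (nat_lit 434231) (nat_lit 23) (.e (nat_lit 532499) (nat_lit 1) (.e (nat_lit 57655) (nat_lit 152) .nil)))) (.g (nat_lit 0) (.e (nat_lit 275209) (nat_lit 0) .nil) .nil)))) (.nd (nat_lit 9) 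
(.lf (nat_lit 543185) (.g (nat_lit 2693) (.e (nat_lit 98362) (nat_lit 26) (.e (nat_lit 426330) (nat_lit 13) (.e (nat_lit 483341) (nat_lit 9) (.e (nat_lit 426107) (nat_lit 1) (.e (nat_lit 164403) (nat_lit 256) (.e (nat_lit 57378) (nat_lit 3) .nil)))))) (.g (nat_lit 1) (.e (nat_lit 274911) (nat_lit 0) .nil) .nil))) 
(.lf (nat_lit 543697) (.g (nat_lit 1107) (.e (nat_lit 98367) (nat_lit 27) (.e (nat_lit 434246) (nat_lit 28) (.e (nat_lit 573482) (nat_lit 13) (.e (nat_lit 73472) (nat_lit 17) .nil)))) (.g (nat_lit 0) (.e (nat_lit 275528) (nat_lit 0) .nil) .nil))))))) (.nd (nat_lit 6) (.nd (nat_lit 7) (.nd (nat_lit 8) (.nd (nat_lit 9) 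
(.lf (nat_lit 542769) (.g (nat_lit 4059) (.e (nat_lit 98349) (nat_lit 24) (.e (nat_lit 409646) (nat_lit 18) (.e (nat_lit 303119) (nat_lit 3) (.e (nat_lit 204855) (nat_lit 26) (.e (nat_lit 336102) (nat_lit 9) (.e (nat_lit 336028) (nat_lit 3) .nil)))))) (.g (nat_lit 1) (.e (nat_lit 274405) (nat_lit 0) .nil) .nil))) 
(.lf (nat_lit 543281) (.g (nat_lit 3705) (.e (nat_lit 98365) (nat_lit 26) (.e (nat_lit 426188) (nat_lit 9) (.e (nat_lit 426566) (nat_lit 34) (.e (nat_lit 393251) (nat_lit 18) (.e (nat_lit 164398) (nat_lit 256) (.e (nat_lit 57377) (nat_lit 3) .nil)))))) (.g (nat_lit 1) (.e (nat_lit 275026) (nat_lit 0) .nil) .nil)))) (.nd (nat_lit 9) 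
(.lf (nat_lit 543025) (.g (nat_lit 1651) (.e (nat_lit 98356) (nat_lit 26) (.e (nat_lit 426436) (nat_lit 18) (.e (nat_lit 98356) (nat_lit 26) (.e (nat_lit 426428) (nat_lit 17) (.e (nat_lit 90125) (nat_lit 9) (.e (nat_lit 2900) (nat_lit 184) (.e (nat_lit 426435) (nat_lit 18) .nil))))))) (.g (nat_lit 1) (.e (nat_lit 274737) (nat_lit 0) .nil) .nil))) 
(.lf (nat_lit 543537) (.g (nat_lit 2842) (.e (nat_lit 98366) (nat_lit 27) (.e (nat_lit 434244) (nat_lit 28) (.e (nat_lit 573487) (nat_lit 14) (.e (nat_lit 73753) (nat_lit 8) (.e (nat_lit 557119) (nat_lit 18) (.e (nat_lit 2798) (nat_lit 180) (.e (nat_lit 311040) (nat_lit 18) .nil))))))) (.g (nat_lit 1) (.e (nat_lit 275326) (nat_lit 0) .nil) .nil))))) (.nd (nat_lit 8) (.nd (nat_lit 9) 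
(.lf (nat_lit 542897) (.g (nat_lit 2971) (.e (nat_lit 98350) (nat_lit 24) (.e (nat_lit 409648) (nat_lit 18) (.e (nat_lit 303117) (nat_lit 2) (.e (nat_lit 196666) (nat_lit 13) (.e (nat_lit 65599) (nat_lit 9) (.e (nat_lit 343808) (nat_lit 3) .nil)))))) (.g (nat_lit 1) (.e (nat_lit 274548) (nat_lit 0) .nil) .nil))) 
(.lf (nat_lit 543409) (.g (nat_lit 1691) (.e (nat_lit 98365) (nat_lit 26) (.e (nat_lit 426327) (nat_lit 13) (.e (nat_lit 483341) (nat_lit 9) (.e (nat_lit 426099) (nat_lit 1) .nil)))) (.g (nat_lit 0) (.e (nat_lit 275157) (nat_lit 0) .nil) .nil)))) (.nd (nat_lit 9) 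
(.lf (nat_lit 543153) (.g (nat_lit 3313) (.e (nat_lit 98359) (nat_lit 26) (.e (nat_lit 426286) (nat_lit 10) (.e (nat_lit 434247) (nat_lit 28) (.e (nat_lit 573478) (nat_lit 12) (.e (nat_lit 57574) (nat_lit 55) (.e (nat_lit 778466) (nat_lit 11) (.e (nat_lit 32512) (nat_lit 3) .nil))))))) (.g (nat_lit 1) (.e (nat_lit 274873) (nat_lit 0) .nil) .nil))) 
(.lf (nat_lit 543665) (.g (nat_lit 1524) (.e (nat_lit 98367) (nat_lit 27) (.e (nat_lit 434244) (nat_lit 28) (.e (nat_lit 573481) (nat_lit 13) (.e (nat_lit 65568) (nat_lit 2) .nil)))) (.g (nat_lit 0) (.e (nat_lit 275495) (nat_lit 0) .nil) .nil)))))) (.nd (nat_lit 7) (.nd (nat_lit 8) (.nd (nat_lit 9) 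
(.lf (nat_lit 542833) (.g (nat_lit 1896) (.e (nat_lit 98350) (nat_lit 24) (.e (nat_lit 409645) (nat_lit 18) (.e (nat_lit 303118) (nat_lit 3) (.e (nat_lit 204852) (nat_lit 26) .nil)))) (.g (nat_lit 0) (.e (nat_lit 274482) (nat_lit 0) .nil) .nil))) 
(.lf (nat_lit 543345) (.g (nat_lit 2583) (.e (nat_lit 98365) (nat_lit 26) (.e (nat_lit 426306) (nat_lit 12) (.e (nat_lit 475179) (nat_lit 24) (.e (nat_lit 516129) (nat_lit 3) (.e (nat_lit 221194) (nat_lit 11) (.e (nat_lit 336025) (nat_lit 3) .nil)))))) (.g (nat_lit 1) (.e (nat_lit 275093) (nat_lit 0) .nil) .nil)))) (.nd (nat_lit 9) 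
(.lf (nat_lit 543089) (.g (nat_lit 1481) (.e (nat_lit 98358) (nat_lit 26) (.e (nat_lit 426320) (nat_lit 12) (.e (nat_lit 475179) (nat_lit 24) (.e (nat_lit 516129) (nat_lit 3) (.e (nat_lit 221193) (nat_lit 11) .nil))))) (.g (nat_lit 0) (.e (nat_lit 274806) (nat_lit 0) .nil) .nil))) 
(.lf (nat_lit 543601) (.g (nat_lit 2009) (.e (nat_lit 98367) (nat_lit 27) (.e (nat_lit 434231) (nat_lit 23) (.e (nat_lit 532490) (nat_lit 0) (.e (nat_lit 1040) (nat_lit 81) .nil)))) (.g (nat_lit 0) (.e (nat_lit 275409) (nat_lit 0) .nil) .nil))))) (.nd (nat_lit 8) (.nd (nat_lit 9) 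
(.lf (nat_lit 542961) (.g (nat_lit 2904) (.e (nat_lit 98350) (nat_lit 24) (.e (nat_lit 409649) (nat_lit 18) (.e (nat_lit 303119) (nat_lit 3) (.e (nat_lit 204855) (nat_lit 26) (.e (nat_lit 336083) (nat_lit 9) .nil))))) (.g (nat_lit 0) (.e (nat_lit 274615) (nat_lit 0) .nil) .nil))) 
(.lf (nat_lit 543473) (.g (nat_lit 867) (.e (nat_lit 98366) (nat_lit 27) (.e (nat_lit 434231) (nat_lit 23) (.e (nat_lit 532506) (nat_lit 2) .nil))) (.g (nat_lit 0) (.e (nat_lit 275251) (nat_lit 0) .nil) .nil)))) (.nd (nat_lit 9) 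
(.lf (nat_lit 543217) (.g (nat_lit 2251) (.e (nat_lit 98363) (nat_lit 26) (.e (nat_lit 426321) (nat_lit 13) (.e (nat_lit 483341) (nat_lit 9) (.e (nat_lit 426098) (nat_lit 1) (.e (nat_lit 164398) (nat_lit 256) .nil))))) (.g (nat_lit 0) (.e (nat_lit 274949) (nat_lit 0) .nil) .nil))) 
(.lf (nat_lit 543729) (.g (nat_lit 3399) (.e (nat_lit 98367) (nat_lit 27) (.e (nat_lit 434247) (nat_lit 28) (.e (nat_lit 573489) (nat_lit 14) (.e (nat_lit 73755) (nat_lit 8) (.e (nat_lit 557090) (nat_lit 12) (.e (nat_lit 163844) (nat_lit 0) (.e (nat_lit 5941) (nat_lit 322) (.e (nat_lit 57378) (nat_lit 3) .nil)))))))) (.g (nat_lit 1) (.e (nat_lit 275563) (nat_lit 0) .nil) .nil))))))))) 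
(.nd (nat_lit 4) (.nd (nat_lit 5) (.nd (nat_lit 6) (.nd (nat_lit 7) (.nd (nat_lit 8) 
(.nd (nat_lit 9) 
(.lf (nat_lit 542729) (.g (nat_lit 1160) (.e (nat_lit 98349) (nat_lit 24) (.e (nat_lit 409645) (nat_lit 18) (.e (nat_lit 303117) (nat_lit 2) (.e (nat_lit 196665) (nat_lit 13) .nil)))) (.g (nat_lit 0) (.e (nat_lit 274362) (nat_lit 0) .nil) .nil))) 
(.lf (nat_lit 543241) (.g (nat_lit 2413) (.e (nat_lit 98365) (nat_lit 26) (.e (nat_lit 426133) (nat_lit 3) (.e (nat_lit 204809) (nat_lit 9) (.e (nat_lit 426139) (nat_lit 3) (.e (nat_lit 204829) (nat_lit 18) (.e (nat_lit 57688) (nat_lit 156) (.e (nat_lit 171776) (nat_lit 64) .nil))))))) (.g (nat_lit 1) (.e (nat_lit 274986) (nat_lit 0) .nil) .nil)))) (.nd (nat_lit 9) 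
(.lf (nat_lit 542985) (.g (nat_lit 1886) (.e (nat_lit 98353) (nat_lit 25) (.e (nat_lit 417820) (nat_lit 10) (.e (nat_lit 5626) (nat_lit 312) (.e (nat_lit 2668) (nat_lit 167) .nil)))) (.g (nat_lit 0) (.e (nat_lit 274674) (nat_lit 0) .nil) .nil))) 
(.lf (nat_lit 543497) (.g (nat_lit 2363) (.e (nat_lit 98366) (nat_lit 27) (.e (nat_lit 434231) (nat_lit 23) (.e (nat_lit 532514) (nat_lit 3) (.e (nat_lit 114718) (nat_lit 23) (.e (nat_lit 98335) (nat_lit 18) .nil))))) (.g (nat_lit 0) (.e (nat_lit 275275) (nat_lit 0) .nil) .nil))))) (.nd (nat_lit 8) (.nd (nat_lit 9) 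
(.lf (nat_lit 542857) (.g (nat_lit 2284) (.e (nat_lit 98350) (nat_lit 24) (.e (nat_lit 409646) (nat_lit 18) (.e (nat_lit 303119) (nat_lit 3) (.e (nat_lit 204846) (nat_lit 24) (.e (nat_lit 319491) (nat_lit 0) .nil))))) (.g (nat_lit 0) (.e (nat_lit 274506) (nat_lit 0) .nil) .nil))) 
(.lf (nat_lit 543369) (.g (nat_lit 3657) (.e (nat_lit 98365) (nat_lit 26) (.e (nat_lit 426325) (nat_lit 13) (.e (nat_lit 483337) (nat_lit 9) (.e (nat_lit 426099) (nat_lit 1) (.e (nat_lit 164399) (nat_lit 256) (.e (nat_lit 57377) (nat_lit 3) .nil)))))) (.g (nat_lit 1) (.e (nat_lit 275117) (nat_lit 0) .nil) .nil)))) (.nd (nat_lit 9) 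
(.lf (nat_lit 543113) (.g (nat_lit 4255) (.e (nat_lit 98359) (nat_lit 26) (.e (nat_lit 426043) (nat_lit 0) (.e (nat_lit 3409) (nat_lit 212) (.e (nat_lit 655375) (nat_lit 3) (.e (nat_lit 163977) (nat_lit 30) (.e (nat_lit 573493) (nat_lit 15) (.e (nat_lit 81956) (nat_lit 23) .nil))))))) (.g (nat_lit 1) (.e (nat_lit 274831) (nat_lit 0) .nil) .nil))) 
(.lf (nat_lit 543625) (.g (nat_lit 522) (.e (nat_lit 98367) (nat_lit 27) (.e (nat_lit 434231) (nat_lit 23) (.e (nat_lit 532507) (nat_lit 2) .nil))) (.g (nat_lit 0) (.e (nat_lit 275448) (nat_lit 0) .nil) .nil)))))) (.nd (nat_lit 7) (.nd (nat_lit 8) (.nd (nat_lit 9) 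
(.lf (nat_lit 542793) (.g (nat_lit 2813) (.e (nat_lit 98350) (nat_lit 24) (.e (nat_lit 409602) (nat_lit 0) (.e (nat_lit 5626) (nat_lit 312) (.e (nat_lit 2685) (nat_lit 168) (.e (nat_lit 204846) (nat_lit 24) (.e (nat_lit 319528) (nat_lit 16) (.e (nat_lit 286735) (nat_lit 3) .nil))))))) (.g (nat_lit 1) (.e (nat_lit 274430) (nat_lit 0) .nil) .nil))) 
(.lf (nat_lit 543305) (.g (nat_lit 4085) (.e (nat_lit 98365) (nat_lit 26) (.e (nat_lit 426298) (nat_lit 11) (.e (nat_lit 458789) (nat_lit 23) (.e (nat_lit 532523) (nat_lit 7) (.e (nat_lit 319534) (nat_lit 16) (.e (nat_lit 286734) (nat_lit 3) .nil)))))) (.g (nat_lit 1) (.e (nat_lit 275053) (nat_lit 0) .nil) .nil)))) (.nd (nat_lit 9) 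
(.lf (nat_lit 543049) (.g (nat_lit 2871) (.e (nat_lit 98357) (nat_lit 26) (.e (nat_lit 426131) (nat_lit 3) (.e (nat_lit 204838) (nat_lit 20) (.e (nat_lit 114716) (nat_lit 22) (.e (nat_lit 90140) (nat_lit 9) .nil))))) (.g (nat_lit 0) (.e (nat_lit 274761) (nat_lit 0) .nil) .nil))) 
(.lf (nat_lit 543561) (.g (nat_lit 379) (.e (nat_lit 98366) (nat_lit 27) (.e (nat_lit 434247) (nat_lit 28) (.e (nat_lit 573485) (nat_lit 13) .nil))) (.g (nat_lit 0) (.e (nat_lit 275354) (nat_lit 0) .nil) .nil))))) (.nd (nat_lit 8) (.nd (nat_lit 9) 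
(.lf (nat_lit 542921) (.g (nat_lit 3736) (.e (nat_lit 98350) (nat_lit 24) (.e (nat_lit 409648) (nat_lit 18) (.e (nat_lit 303119) (nat_lit 3) (.e (nat_lit 204852) (nat_lit 26) (.e (nat_lit 336130) (nat_lit 9) (.e (nat_lit 336025) (nat_lit 3) .nil)))))) (.g (nat_lit 1) (.e (nat_lit 274572) (nat_lit 0) .nil) .nil))) 
(.lf (nat_lit 543433) (.g (nat_lit 2047) (.e (nat_lit 98366) (nat_lit 27) (.e (nat_lit 434230) (nat_lit 23) (.e (nat_lit 532503) (nat_lit 1) (.e (nat_lit 57688) (nat_lit 156) (.e (nat_lit 163875) (nat_lit 3) .nil))))) (.g (nat_lit 0) (.e (nat_lit 275195) (nat_lit 0) .nil) .nil)))) (.nd (nat_lit 9) 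
(.lf (nat_lit 543177) (.g (nat_lit 3969) (.e (nat_lit 98361) (nat_lit 26) (.e (nat_lit 426340) (nat_lit 14) (.e (nat_lit 491537) (nat_lit 2) (.e (nat_lit 90170) (nat_lit 13) (.e (nat_lit 172124) (nat_lit 14) (.e (nat_lit 491540) (nat_lit 3) .nil)))))) (.g (nat_lit 1) (.e (nat_lit 274901) (nat_lit 0) .nil) .nil))) 
(.lf (nat_lit 543689) (.g (nat_lit 1221) (.e (nat_lit 98367) (nat_lit 27) (.e (nat_lit 434245) (nat_lit 28) (.e (nat_lit 573487) (nat_lit 14) (.e (nat_lit 73753) (nat_lit 8) .nil)))) (.g (nat_lit 0) (.e (nat_lit 275519) (nat_lit 0) .nil) .nil))))))) (.nd (nat_lit 6) (.nd (nat_lit 7) (.nd (nat_lit 8) (.nd (nat_lit 9) 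
(.lf (nat_lit 542761) (.g (nat_lit 4112) (.e (nat_lit 98349) (nat_lit 24) (.e (nat_lit 409646) (nat_lit 18) (.e (nat_lit 303119) (nat_lit 3) (.e (nat_lit 204846) (nat_lit 24) (.e (nat_lit 319490) (nat_lit 0) (.e (nat_lit 5293) (nat_lit 298) (.e (nat_lit 1250) (nat_lit 92) .nil))))))) (.g (nat_lit 1) (.e (nat_lit 274397) (nat_lit 0) .nil) .nil))) 
(.lf (nat_lit 543273) (.g (nat_lit 2009) (.e (nat_lit 98365) (nat_lit 26) (.e (nat_lit 426188) (nat_lit 9) (.e (nat_lit 426438) (nat_lit 18) (.e (nat_lit 98338) (nat_lit 19) (.e (nat_lit 213030) (nat_lit 11) (.e (nat_lit 24609) (nat_lit 3) .nil)))))) (.g (nat_lit 1) (.e (nat_lit 275018) (nat_lit 0) .nil) .nil)))) (.nd (nat_lit 9) 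
(.lf (nat_lit 543017) (.g (nat_lit 2753) (.e (nat_lit 98356) (nat_lit 26) (.e (nat_lit 426436) (nat_lit 18) (.e (nat_lit 98334) (nat_lit 18) (.e (nat_lit 164330) (nat_lit 230) (.e (nat_lit 163872) (nat_lit 3) (.e (nat_lit 204837) (nat_lit 20) (.e (nat_lit 114718) (nat_lit 23) .nil))))))) (.g (nat_lit 1) (.e (nat_lit 274727) (nat_lit 0) .nil) .nil))) 
(.lf (nat_lit 543529) (.g (nat_lit 1371) (.e (nat_lit 98366) (nat_lit 27) (.e (nat_lit 434244) (nat_lit 28) (.e (nat_lit 573487) (nat_lit 14) (.e (nat_lit 73746) (nat_lit 3) .nil)))) (.g (nat_lit 0) (.e (nat_lit 275316) (nat_lit 0) .nil) .nil))))) (.nd (nat_lit 8) (.nd (nat_lit 9) 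
(.lf (nat_lit 542889) (.g (nat_lit 1811) (.e (nat_lit 98350) (nat_lit 24) (.e (nat_lit 409648) (nat_lit 18) (.e (nat_lit 303117) (nat_lit 2) (.e (nat_lit 196665) (nat_lit 13) .nil)))) (.g (nat_lit 0) (.e (nat_lit 274540) (nat_lit 0) .nil) .nil))) 
(.lf (nat_lit 543401) (.g (nat_lit 1530) (.e (nat_lit 98365) (nat_lit 26) (.e (nat_lit 426325) (nat_lit 13) (.e (nat_lit 483363) (nat_lit 18) (.e (nat_lit 57692) (nat_lit 156) (.e (nat_lit 171776) (nat_lit 12) .nil))))) (.g (nat_lit 0) (.e (nat_lit 275149) (nat_lit 0) .nil) .nil)))) (.nd (nat_lit 9) 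
(.lf (nat_lit 543145) (.g (nat_lit 2390) (.e (nat_lit 98359) (nat_lit 26) (.e (nat_lit 426286) (nat_lit 10) (.e (nat_lit 434247) (nat_lit 28) (.e (nat_lit 573477) (nat_lit 12) (.e (nat_lit 57575) (nat_lit 55) (.e (nat_lit 778463) (nat_lit 11) (.e (nat_lit 24606) (nat_lit 3) .nil))))))) (.g (nat_lit 1) (.e (nat_lit 274865) (nat_lit 0) .nil) .nil))) 
(.lf (nat_lit 543657) (.g (nat_lit 3168) (.e (nat_lit 98367) (nat_lit 27) (.e (nat_lit 434232) (nat_lit 23) (.e (nat_lit 532499) (nat_lit 1) (.e (nat_lit 57688) (nat_lit 156) (.e (nat_lit 163875) (nat_lit 3) (.e (nat_lit 204838) (nat_lit 20) (.e (nat_lit 114718) (nat_lit 23) .nil))))))) (.g (nat_lit 1) (.e (nat_lit 275485) (nat_lit 0) .nil) .nil)))))) 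
(.nd (nat_lit 7) (.nd (nat_lit 8) (.nd (nat_lit 9) 
(.lf (nat_lit 542825) (.g (nat_lit 1494) (.e (nat_lit 98350) (nat_lit 24) (.e (nat_lit 409644) (nat_lit 18) (.e (nat_lit 303119) (nat_lit 3) (.e (nat_lit 204852) (nat_lit 26) .nil)))) (.g (nat_lit 0) (.e (nat_lit 274473) (nat_lit 0) .nil) .nil))) 
(.lf (nat_lit 543337) (.g (nat_lit 3164) (.e (nat_lit 98365) (nat_lit 26) (.e (nat_lit 426306) (nat_lit 12) (.e (nat_lit 475179) (nat_lit 24) (.e (nat_lit 516124) (nat_lit 2) (.e (nat_lit 213030) (nat_lit 11) (.e (nat_lit 24608) (nat_lit 3) .nil)))))) (.g (nat_lit 1) (.e (nat_lit 275085) (nat_lit 0) .nil) .nil)))) (.nd (nat_lit 9) 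
(.lf (nat_lit 543081) (.g (nat_lit 3509) (.e (nat_lit 98358) (nat_lit 26) (.e (nat_lit 426131) (nat_lit 3) (.e (nat_lit 204838) (nat_lit 20) (.e (nat_lit 114716) (nat_lit 22) (.e (nat_lit 90196) (nat_lit 18) (.e (nat_lit 2797) (nat_lit 180) (.e (nat_lit 311040) (nat_lit 18) .nil))))))) (.g (nat_lit 1) (.e (nat_lit 274798) (nat_lit 0) .nil) .nil))) 
(.lf (nat_lit 543593) (.g (nat_lit 3769) (.e (nat_lit 98366) (nat_lit 27) (.e (nat_lit 434248) (nat_lit 28) (.e (nat_lit 573489) (nat_lit 14) (.e (nat_lit 73755) (nat_lit 8) (.e (nat_lit 557111) (nat_lit 16) (.e (nat_lit 229379) (nat_lit 0) (.e (nat_lit 5939) (nat_lit 322) (.e (nat_lit 57379) (nat_lit 3) .nil)))))))) (.g (nat_lit 1) (.e (nat_lit 275390) (nat_lit 0) .nil) .nil))))) 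
(.nd (nat_lit 8) (.nd (nat_lit 9) 
(.lf (nat_lit 542953) (.g (nat_lit 2166) (.e (nat_lit 98350) (nat_lit 24) (.e (nat_lit 409649) (nat_lit 18) (.e (nat_lit 303118) (nat_lit 3) (.e (nat_lit 204855) (nat_lit 26) (.e (nat_lit 336102) (nat_lit 9) (.e (nat_lit 343808) (nat_lit 3) .nil)))))) (.g (nat_lit 1) (.e (nat_lit 274607) (nat_lit 0) .nil) .nil))) 
(.lf (nat_lit 543465) (.g (nat_lit 2629) (.e (nat_lit 98366) (nat_lit 27) (.e (nat_lit 434231) (nat_lit 23) (.e (nat_lit 532502) (nat_lit 1) (.e (nat_lit 57688) (nat_lit 156) (.e (nat_lit 163874) (nat_lit 3) .nil))))) (.g (nat_lit 0) (.e (nat_lit 275243) (nat_lit 0) .nil) .nil)))) (.nd (nat_lit 9) 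
(.lf (nat_lit 543209) (.g (nat_lit 4144) (.e (nat_lit 98363) (nat_lit 26) (.e (nat_lit 426318) (nat_lit 12) (.e (nat_lit 475185) (nat_lit 29) (.e (nat_lit 557098) (nat_lit 13) (.e (nat_lit 172124) (nat_lit 14) (.e (nat_lit 491540) (nat_lit 3) .nil)))))) (.g (nat_lit 1) (.e (nat_lit 274941) (nat_lit 0) .nil) .nil))) 
(.lf (nat_lit 543721) (.g (nat_lit 912) (.e (nat_lit 98367) (nat_lit 27) (.e (nat_lit 434247) (nat_lit 28) (.e (nat_lit 573489) (nat_lit 14) (.e (nat_lit 73754) (nat_lit 8) .nil)))) (.g (nat_lit 0) (.e (nat_lit 275553) (nat_lit 0) .nil) .nil)))))))) (.nd (nat_lit 5) (.nd (nat_lit 6) (.nd (nat_lit 7) (.nd (nat_lit 8) (.nd (nat_lit 9) 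
(.lf (nat_lit 542745) (.g (nat_lit 3945) (.e (nat_lit 98349) (nat_lit 24) (.e (nat_lit 409645) (nat_lit 18) (.e (nat_lit 303119) (nat_lit 3) (.e (nat_lit 204855) (nat_lit 26) (.e (nat_lit 336099) (nat_lit 9) (.e (nat_lit 336028) (nat_lit 3) .nil)))))) (.g (nat_lit 1) (.e (nat_lit 274378) (nat_lit 0) .nil) .nil))) 
(.lf (nat_lit 543257) (.g (nat_lit 1584) (.e (nat_lit 98365) (nat_lit 26) (.e (nat_lit 426187) (nat_lit 9) (.e (nat_lit 426568) (nat_lit 34) (.e (nat_lit 393250) (nat_lit 18) (.e (nat_lit 164399) (nat_lit 256) .nil))))) (.g (nat_lit 0) (.e (nat_lit 275002) (nat_lit 0) .nil) .nil)))) (.nd (nat_lit 9) 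
(.lf (nat_lit 543001) (.g (nat_lit 1548) (.e (nat_lit 98354) (nat_lit 26) (.e (nat_lit 426317) (nat_lit 12) (.e (nat_lit 475185) (nat_lit 29) (.e (nat_lit 557105) (nat_lit 14) (.e (nat_lit 188160) (nat_lit 32) .nil))))) (.g (nat_lit 0) (.e (nat_lit 274706) (nat_lit 0) .nil) .nil))) 
(.lf (nat_lit 543513) (.g (nat_lit 1548) (.e (nat_lit 98366) (nat_lit 27) (.e (nat_lit 434244) (nat_lit 28) (.e (nat_lit 573480) (nat_lit 13) (.e (nat_lit 65568) (nat_lit 2) .nil)))) (.g (nat_lit 0) (.e (nat_lit 275297) (nat_lit 0) .nil) .nil))))) (.nd (nat_lit 8) (.nd (nat_lit 9) 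
(.lf (nat_lit 542873) (.g (nat_lit 2148) (.e (nat_lit 98350) (nat_lit 24) (.e (nat_lit 409647) (nat_lit 18) (.e (nat_lit 303118) (nat_lit 3) (.e (nat_lit 204855) (nat_lit 26) (.e (nat_lit 336102) (nat_lit 9) (.e (nat_lit 336020) (nat_lit 3) .nil)))))) (.g (nat_lit 1) (.e (nat_lit 274522) (nat_lit 0) .nil) .nil))) 
(.lf (nat_lit 543385) (.g (nat_lit 1805) (.e (nat_lit 98365) (nat_lit 26) (.e (nat_lit 426325) (nat_lit 13) (.e (nat_lit 483341) (nat_lit 9) (.e (nat_lit 426099) (nat_lit 1) .nil)))) (.g (nat_lit 0) (.e (nat_lit 275133) (nat_lit 0) .nil) .nil)))) (.nd (nat_lit 9) 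
(.lf (nat_lit 543129) (.g (nat_lit 4649) (.e (nat_lit 98359) (nat_lit 26) (.e (nat_lit 426286) (nat_lit 10) (.e (nat_lit 434245) (nat_lit 28) (.e (nat_lit 573474) (nat_lit 12) (.e (nat_lit 57572) (nat_lit 54) (.e (nat_lit 770071) (nat_lit 8) (.e (nat_lit 65569) (nat_lit 3) .nil))))))) (.g (nat_lit 1) (.e (nat_lit 274849) (nat_lit 0) .nil) .nil))) 
(.lf (nat_lit 543641) (.g (nat_lit 2760) (.e (nat_lit 98367) (nat_lit 27) (.e (nat_lit 434231) (nat_lit 23) (.e (nat_lit 532514) (nat_lit 3) (.e (nat_lit 114719) (nat_lit 23) (.e (nat_lit 98325) (nat_lit 17) (.e (nat_lit 2478) (nat_lit 157) (.e (nat_lit 5953) (nat_lit 322) (.e (nat_lit 57378) (nat_lit 3) .nil)))))))) (.g (nat_lit 1) (.e (nat_lit 275468) (nat_lit 0) .nil) .nil)))))) 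
(.nd (nat_lit 7) (.nd (nat_lit 8) (.nd (nat_lit 9) 
(.lf (nat_lit 542809) (.g (nat_lit 351) (.e (nat_lit 98350) (nat_lit 24) (.e (nat_lit 409616) (nat_lit 10) (.e (nat_lit 7936) (nat_lit 318) .nil))) (.g (nat_lit 0) (.e (nat_lit 274451) (nat_lit 0) .nil) .nil))) 
(.lf (nat_lit 543321) (.g (nat_lit 2995) (.e (nat_lit 98365) (nat_lit 26) (.e (nat_lit 426306) (nat_lit 12) (.e (nat_lit 475177) (nat_lit 24) (.e (nat_lit 516127) (nat_lit 2) (.e (nat_lit 213031) (nat_lit 11) (.e (nat_lit 24607) (nat_lit 3) .nil)))))) (.g (nat_lit 1) (.e (nat_lit 275069) (nat_lit 0) .nil) .nil)))) (.nd (nat_lit 9) 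
(.lf (nat_lit 543065) (.g (nat_lit 1599) (.e (nat_lit 98357) (nat_lit 26) (.e (nat_lit 426436) (nat_lit 18) (.e (nat_lit 98358) (nat_lit 26) (.e (nat_lit 426402) (nat_lit 15) .nil)))) (.g (nat_lit 0) (.e (nat_lit 274780) (nat_lit 0) .nil) .nil))) 
(.lf (nat_lit 543577) (.g (nat_lit 1411) (.e (nat_lit 98366) (nat_lit 27) (.e (nat_lit 434248) (nat_lit 28) (.e (nat_lit 573482) (nat_lit 13) (.e (nat_lit 73472) (nat_lit 22) .nil)))) (.g (nat_lit 0) (.e (nat_lit 275372) (nat_lit 0) .nil) .nil))))) (.nd (nat_lit 8) (.nd (nat_lit 9) 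
(.lf (nat_lit 542937) (.g (nat_lit 3123) (.e (nat_lit 98350) (nat_lit 24) (.e (nat_lit 409649) (nat_lit 18) (.e (nat_lit 303117) (nat_lit 2) (.e (nat_lit 196666) (nat_lit 13) (.e (nat_lit 65596) (nat_lit 9) (.e (nat_lit 336024) (nat_lit 3) .nil)))))) (.g (nat_lit 1) (.e (nat_lit 274590) (nat_lit 0) .nil) .nil))) 
(.lf (nat_lit 543449) (.g (nat_lit 3068) (.e (nat_lit 98366) (nat_lit 27) (.e (nat_lit 434231) (nat_lit 23) (.e (nat_lit 532499) (nat_lit 1) (.e (nat_lit 57692) (nat_lit 156) (.e (nat_lit 163874) (nat_lit 3) (.e (nat_lit 204836) (nat_lit 20) (.e (nat_lit 114718) (nat_lit 23) .nil))))))) (.g (nat_lit 1) (.e (nat_lit 275221) (nat_lit 0) .nil) .nil)))) (.nd (nat_lit 9) 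
(.lf (nat_lit 543193) (.g (nat_lit 2683) (.e (nat_lit 98363) (nat_lit 26) (.e (nat_lit 426230) (nat_lit 9) (.e (nat_lit 426565) (nat_lit 34) (.e (nat_lit 393251) (nat_lit 18) (.e (nat_lit 164403) (nat_lit 256) (.e (nat_lit 57378) (nat_lit 3) .nil)))))) (.g (nat_lit 1) (.e (nat_lit 274922) (nat_lit 0) .nil) .nil))) 
(.lf (nat_lit 543705) (.g (nat_lit 2076) (.e (nat_lit 98367) (nat_lit 27) (.e (nat_lit 434246) (nat_lit 28) (.e (nat_lit 573489) (nat_lit 14) (.e (nat_lit 73755) (nat_lit 8) (.e (nat_lit 557091) (nat_lit 12) .nil))))) (.g (nat_lit 0) (.e (nat_lit 275536) (nat_lit 0) .nil) .nil))))))) (.nd (nat_lit 6) (.nd (nat_lit 7) (.nd (nat_lit 8) (.nd (nat_lit 9) 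
(.lf (nat_lit 542777) (.g (nat_lit 2581) (.e (nat_lit 98349) (nat_lit 24) (.e (nat_lit 409648) (nat_lit 18) (.e (nat_lit 303117) (nat_lit 2) (.e (nat_lit 196681) (nat_lit 17) (.e (nat_lit 131109) (nat_lit 9) .nil))))) (.g (nat_lit 0) (.e (nat_lit 274413) (nat_lit 0) .nil) .nil))) 
(.lf (nat_lit 543289) (.g (nat_lit 2493) (.e (nat_lit 98365) (nat_lit 26) (.e (nat_lit 426188) (nat_lit 9) (.e (nat_lit 426568) (nat_lit 34) (.e (nat_lit 393252) (nat_lit 18) (.e (nat_lit 164401) (nat_lit 256) (.e (nat_lit 57377) (nat_lit 3) .nil)))))) (.g (nat_lit 1) (.e (nat_lit 275034) (nat_lit 0) .nil) .nil)))) (.nd (nat_lit 9) 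
(.lf (nat_lit 543033) (.g (nat_lit 3904) (.e (nat_lit 98356) (nat_lit 26) (.e (nat_lit 426438) (nat_lit 18) (.e (nat_lit 98333) (nat_lit 18) (.e (nat_lit 164332) (nat_lit 230) (.e (nat_lit 163874) (nat_lit 3) (.e (nat_lit 204837) (nat_lit 20) (.e (nat_lit 114719) (nat_lit 23) .nil))))))) (.g (nat_lit 1) (.e (nat_lit 274745) (nat_lit 0) .nil) .nil))) 
(.lf (nat_lit 543545) (.g (nat_lit 3246) (.e (nat_lit 98366) (nat_lit 27) (.e (nat_lit 434244) (nat_lit 28) (.e (nat_lit 573488) (nat_lit 14) (.e (nat_lit 73755) (nat_lit 8) (.e (nat_lit 557119) (nat_lit 18) (.e (nat_lit 2798) (nat_lit 180) (.e (nat_lit 311040) (nat_lit 18) .nil))))))) (.g (nat_lit 1) (.e (nat_lit 275335) (nat_lit 0) .nil) .nil))))) (.nd (nat_lit 8) (.nd (nat_lit 9) 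
(.lf (nat_lit 542905) (.g (nat_lit 3402) (.e (nat_lit 98350) (nat_lit 24) (.e (nat_lit 409648) (nat_lit 18) (.e (nat_lit 303117) (nat_lit 2) (.e (nat_lit 196670) (nat_lit 14) (.e (nat_lit 81664) (nat_lit 40) (.e (nat_lit 1256) (nat_lit 92) .nil)))))) (.g (nat_lit 1) (.e (nat_lit 274556) (nat_lit 0) .nil) .nil))) 
(.lf (nat_lit 543417) (.g (nat_lit 665) (.e (nat_lit 106240) (nat_lit 26) (.e (nat_lit 426190) (nat_lit 9) (.e (nat_lit 426566) (nat_lit 34) .nil))) (.g (nat_lit 0) (.e (nat_lit 275165) (nat_lit 0) .nil) .nil)))) (.nd (nat_lit 9) 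
(.lf (nat_lit 543161) (.g (nat_lit 4310) (.e (nat_lit 98359) (nat_lit 26) (.e (nat_lit 426286) (nat_lit 10) (.e (nat_lit 434248) (nat_lit 28) (.e (nat_lit 573474) (nat_lit 12) (.e (nat_lit 57572) (nat_lit 54) (.e (nat_lit 770071) (nat_lit 8) (.e (nat_lit 65571) (nat_lit 3) .nil))))))) (.g (nat_lit 1) (.e (nat_lit 274881) (nat_lit 0) .nil) .nil))) 
(.lf (nat_lit 543673) (.g (nat_lit 3621) (.e (nat_lit 98367) (nat_lit 27) (.e (nat_lit 434244) (nat_lit 28) (.e (nat_lit 573487) (nat_lit 14) (.e (nat_lit 73753) (nat_lit 8) (.e (nat_lit 557090) (nat_lit 12) (.e (nat_lit 163850) (nat_lit 0) (.e (nat_lit 5939) (nat_lit 322) (.e (nat_lit 57379) (nat_lit 3) .nil)))))))) (.g (nat_lit 1) (.e (nat_lit 275503) (nat_lit 0) .nil) .nil)))))) 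
(.nd (nat_lit 7) (.nd (nat_lit 8) (.nd (nat_lit 9) 
(.lf (nat_lit 542841) (.g (nat_lit 2666) (.e (nat_lit 98350) (nat_lit 24) (.e (nat_lit 409646) (nat_lit 18) (.e (nat_lit 303112) (nat_lit 0) (.e (nat_lit 3252) (nat_lit 197) (.e (nat_lit 532534) (nat_lit 9) (.e (nat_lit 336115) (nat_lit 9) (.e (nat_lit 343808) (nat_lit 3) .nil))))))) (.g (nat_lit 1) (.e (nat_lit 274490) (nat_lit 0) .nil) .nil))) 
(.lf (nat_lit 543353) (.g (nat_lit 3704) (.e (nat_lit 98365) (nat_lit 26) (.e (nat_lit 426316) (nat_lit 12) (.e (nat_lit 475185) (nat_lit 29) (.e (nat_lit 557098) (nat_lit 13) (.e (nat_lit 172126) (nat_lit 14) (.e (nat_lit 491540) (nat_lit 3) .nil)))))) (.g (nat_lit 1) (.e (nat_lit 275101) (nat_lit 0) .nil) .nil)))) (.nd (nat_lit 9) 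
(.lf (nat_lit 543097) (.g (nat_lit 3286) (.e (nat_lit 98358) (nat_lit 26) (.e (nat_lit 426323) (nat_lit 13) (.e (nat_lit 483363) (nat_lit 18) (.e (nat_lit 57692) (nat_lit 156) (.e (nat_lit 163907) (nat_lit 12) (.e (nat_lit 426438) (nat_lit 18) .nil)))))) (.g (nat_lit 1) (.e (nat_lit 274814) (nat_lit 0) .nil) .nil))) 
(.lf (nat_lit 543609) (.g (nat_lit 1946) (.e (nat_lit 98367) (nat_lit 27) (.e (nat_lit 434231) (nat_lit 23) (.e (nat_lit 532499) (nat_lit 1) (.e (nat_lit 57690) (nat_lit 156) .nil)))) (.g (nat_lit 0) (.e (nat_lit 275426) (nat_lit 0) .nil) .nil))))) (.nd (nat_lit 8) (.nd (nat_lit 9) 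
(.lf (nat_lit 542969) (.g (nat_lit 1779) (.e (nat_lit 98352) (nat_lit 25) (.e (nat_lit 417810) (nat_lit 6) (.e (nat_lit 286733) (nat_lit 2) (.e (nat_lit 90133) (nat_lit 9) .nil)))) (.g (nat_lit 0) (.e (nat_lit 274645) (nat_lit 0) .nil) .nil))) 
(.lf (nat_lit 543481) (.g (nat_lit 1802) (.e (nat_lit 98366) (nat_lit 27) (.e (nat_lit 434231) (nat_lit 23) (.e (nat_lit 532513) (nat_lit 3) (.e (nat_lit 114717) (nat_lit 23) .nil)))) (.g (nat_lit 0) (.e (nat_lit 275259) (nat_lit 0) .nil) .nil)))) (.nd (nat_lit 9) 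
(.lf (nat_lit 543225) (.g (nat_lit 1602) (.e (nat_lit 98364) (nat_lit 26) (.e (nat_lit 426200) (nat_lit 9) (.e (nat_lit 426131) (nat_lit 3) (.e (nat_lit 204846) (nat_lit 24) .nil)))) (.g (nat_lit 0) (.e (nat_lit 274960) (nat_lit 0) .nil) .nil))) 
(.lf (nat_lit 543737) (.g (nat_lit 2636) (.e (nat_lit 98367) (nat_lit 27) (.e (nat_lit 434247) (nat_lit 28) (.e (nat_lit 573489) (nat_lit 14) (.e (nat_lit 73755) (nat_lit 8) (.e (nat_lit 557119) (nat_lit 18) (.e (nat_lit 2807) (nat_lit 180) (.e (nat_lit 311040) (nat_lit 18) .nil))))))) (.g (nat_lit 1) (.e (nat_lit 275572) (nat_lit 0) .nil) .nil)))))))))) 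
(.nd (nat_lit 3) (.nd (nat_lit 4) (.nd (nat_lit 5) (.nd (nat_lit 6) (.nd (nat_lit 7) 
(.nd (nat_lit 8) (.nd (nat_lit 9) 
(.lf (nat_lit 542725) (.g (nat_lit 2930) (.e (nat_lit 98349) (nat_lit 24) (.e (nat_lit 409644) (nat_lit 18) (.e (nat_lit 303119) (nat_lit 3) (.e (nat_lit 204866) (nat_lit 28) (.e (nat_lit 352314) (nat_lit 23) .nil))))) (.g (nat_lit 1) (.e (nat_lit 274357) (nat_lit 0) .nil) .nil))) 
(.lf (nat_lit 543237) (.g (nat_lit 1379) (.e (nat_lit 98365) (nat_lit 26) (.e (nat_lit 426100) (nat_lit 1) (.e (nat_lit 164398) (nat_lit 256) (.e (nat_lit 65280) (nat_lit 64) .nil)))) (.g (nat_lit 0) (.e (nat_lit 274978) (nat_lit 0) .nil) .nil)))) (.nd (nat_lit 9) 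
(.lf (nat_lit 542981) (.g (nat_lit 3111) (.e (nat_lit 98353) (nat_lit 25) (.e (nat_lit 417810) (nat_lit 6) (.e (nat_lit 286733) (nat_lit 2) (.e (nat_lit 90168) (nat_lit 13) (.e (nat_lit 172126) (nat_lit 14) (.e (nat_lit 491540) (nat_lit 3) .nil)))))) (.g (nat_lit 1) (.e (nat_lit 274669) (nat_lit 0) .nil) .nil))) 
(.lf (nat_lit 543493) (.g (nat_lit 3897) (.e (nat_lit 98366) (nat_lit 27) (.e (nat_lit 434231) (nat_lit 23) (.e (nat_lit 532514) (nat_lit 3) (.e (nat_lit 114717) (nat_lit 23) (.e (nat_lit 98334) (nat_lit 18) (.e (nat_lit 164398) (nat_lit 256) (.e (nat_lit 57378) (nat_lit 3) .nil))))))) (.g (nat_lit 1) (.e (nat_lit 275271) (nat_lit 0) .nil) .nil))))) (.nd (nat_lit 8) (.nd (nat_lit 9) 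
(.lf (nat_lit 542853) (.g (nat_lit 2822) (.e (nat_lit 98350) (nat_lit 24) (.e (nat_lit 409646) (nat_lit 18) (.e (nat_lit 303118) (nat_lit 3) (.e (nat_lit 204855) (nat_lit 26) (.e (nat_lit 336102) (nat_lit 9) (.e (nat_lit 336028) (nat_lit 3) .nil)))))) (.g (nat_lit 1) (.e (nat_lit 274502) (nat_lit 0) .nil) .nil))) 
(.lf (nat_lit 543365) (.g (nat_lit 1475) (.e (nat_lit 98365) (nat_lit 26) (.e (nat_lit 426325) (nat_lit 13) (.e (nat_lit 483337) (nat_lit 9) (.e (nat_lit 426031) (nat_lit 0) .nil)))) (.g (nat_lit 0) (.e (nat_lit 275113) (nat_lit 0) .nil) .nil)))) (.nd (nat_lit 9) 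
(.lf (nat_lit 543109) (.g (nat_lit 2084) (.e (nat_lit 98358) (nat_lit 26) (.e (nat_lit 426438) (nat_lit 18) (.e (nat_lit 98358) (nat_lit 26) (.e (nat_lit 426428) (nat_lit 17) (.e (nat_lit 90133) (nat_lit 9) (.e (nat_lit 2898) (nat_lit 184) (.e (nat_lit 426435) (nat_lit 18) .nil))))))) (.g (nat_lit 1) (.e (nat_lit 274826) (nat_lit 0) .nil) .nil))) 
(.lf (nat_lit 543621) (.g (nat_lit 2235) (.e (nat_lit 98367) (nat_lit 27) (.e (nat_lit 434231) (nat_lit 23) (.e (nat_lit 532500) (nat_lit 1) (.e (nat_lit 57693) (nat_lit 157) (.e (nat_lit 229389) (nat_lit 3) .nil))))) (.g (nat_lit 0) (.e (nat_lit 275443) (nat_lit 0) .nil) .nil)))))) (.nd (nat_lit 7) (.nd (nat_lit 8) (.nd (nat_lit 9) 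
(.lf (nat_lit 542789) (.g (nat_lit 1574) (.e (nat_lit 98349) (nat_lit 24) (.e (nat_lit 409649) (nat_lit 18) (.e (nat_lit 303118) (nat_lit 3) (.e (nat_lit 204865) (nat_lit 28) .nil)))) (.g (nat_lit 0) (.e (nat_lit 274425) (nat_lit 0) .nil) .nil))) 
(.lf (nat_lit 543301) (.g (nat_lit 1648) (.e (nat_lit 98365) (nat_lit 26) (.e (nat_lit 426298) (nat_lit 11) (.e (nat_lit 458789) (nat_lit 23) (.e (nat_lit 532481) (nat_lit 0) (.e (nat_lit 997) (nat_lit 81) .nil))))) (.g (nat_lit 0) (.e (nat_lit 275049) (nat_lit 0) .nil) .nil)))) (.nd (nat_lit 9) 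
(.lf (nat_lit 543045) (.g (nat_lit 1969) (.e (nat_lit 98356) (nat_lit 26) (.e (nat_lit 426438) (nat_lit 18) (.e (nat_lit 98357) (nat_lit 26) (.e (nat_lit 426436) (nat_lit 18) (.e (nat_lit 98357) (nat_lit 26) (.e (nat_lit 426436) (nat_lit 18) .nil)))))) (.g (nat_lit 1) (.e (nat_lit 274757) (nat_lit 0) .nil) .nil))) 
(.lf (nat_lit 543557) (.g (nat_lit 2214) (.e (nat_lit 98366) (nat_lit 27) (.e (nat_lit 434247) (nat_lit 28) (.e (nat_lit 573484) (nat_lit 13) (.e (nat_lit 65571) (nat_lit 3) (.e (nat_lit 98325) (nat_lit 17) .nil))))) (.g (nat_lit 0) (.e (nat_lit 275350) (nat_lit 0) .nil) .nil))))) (.nd (nat_lit 8) (.nd (nat_lit 9) 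
(.lf (nat_lit 542917) (.g (nat_lit 2434) (.e (nat_lit 98350) (nat_lit 24) (.e (nat_lit 409648) (nat_lit 18) (.e (nat_lit 303118) (nat_lit 3) (.e (nat_lit 204855) (nat_lit 26) (.e (nat_lit 336099) (nat_lit 9) (.e (nat_lit 343808) (nat_lit 3) .nil)))))) (.g (nat_lit 1) (.e (nat_lit 274568) (nat_lit 0) .nil) .nil))) 
(.lf (nat_lit 543429) (.g (nat_lit 687) (.e (nat_lit 106240) (nat_lit 26) (.e (nat_lit 426290) (nat_lit 10) (.e (nat_lit 434231) (nat_lit 23) (.e (nat_lit 532523) (nat_lit 7) .nil)))) (.g (nat_lit 0) (.e (nat_lit 275178) (nat_lit 0) .nil) .nil)))) (.nd (nat_lit 9) 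
(.lf (nat_lit 543173) (.g (nat_lit 1961) (.e (nat_lit 98360) (nat_lit 26) (.e (nat_lit 426340) (nat_lit 14) (.e (nat_lit 491537) (nat_lit 2) (.e (nat_lit 90172) (nat_lit 14) (.e (nat_lit 180278) (nat_lit 32) .nil))))) (.g (nat_lit 0) (.e (nat_lit 274894) (nat_lit 0) .nil) .nil))) 
(.lf (nat_lit 543685) (.g (nat_lit 3139) (.e (nat_lit 98367) (nat_lit 27) (.e (nat_lit 434244) (nat_lit 28) (.e (nat_lit 573488) (nat_lit 14) (.e (nat_lit 73755) (nat_lit 8) (.e (nat_lit 557119) (nat_lit 18) (.e (nat_lit 2798) (nat_lit 180) (.e (nat_lit 311040) (nat_lit 18) .nil))))))) (.g (nat_lit 1) (.e (nat_lit 275515) (nat_lit 0) .nil) .nil))))))) 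
(.nd (nat_lit 6) (.nd (nat_lit 7) (.nd (nat_lit 8) (.nd (nat_lit 9) 
(.lf (nat_lit 542757) (.g (nat_lit 3840) (.e (nat_lit 98349) (nat_lit 24) (.e (nat_lit 409646) (nat_lit 18) (.e (nat_lit 303117) (nat_lit 2) (.e (nat_lit 196674) (nat_lit 15) (.e (nat_lit 81954) (nat_lit 23) .nil))))) (.g (nat_lit 1) (.e (nat_lit 274393) (nat_lit 0) .nil) .nil))) 
(.lf (nat_lit 543269) (.g (nat_lit 3012) (.e (nat_lit 98365) (nat_lit 26) (.e (nat_lit 426188) (nat_lit 9) (.e (nat_lit 426436) (nat_lit 18) (.e (nat_lit 98339) (nat_lit 19) (.e (nat_lit 213032) (nat_lit 11) (.e (nat_lit 24609) (nat_lit 3) .nil)))))) (.g (nat_lit 1) (.e (nat_lit 275014) (nat_lit 0) .nil) .nil)))) (.nd (nat_lit 9) 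
(.lf (nat_lit 543013) (.g (nat_lit 3749) (.e (nat_lit 98355) (nat_lit 26) (.e (nat_lit 426436) (nat_lit 18) (.e (nat_lit 98335) (nat_lit 18) (.e (nat_lit 164305) (nat_lit 226) .nil)))) (.g (nat_lit 0) (.e (nat_lit 274722) (nat_lit 0) .nil) .nil))) 
(.lf (nat_lit 543525) (.g (nat_lit 409) (.e (nat_lit 98366) (nat_lit 27) (.e (nat_lit 434244) (nat_lit 28) (.e (nat_lit 573487) (nat_lit 14) .nil))) (.g (nat_lit 0) (.e (nat_lit 275312) (nat_lit 0) .nil) .nil))))) (.nd (nat_lit 8) (.nd (nat_lit 9) 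
(.lf (nat_lit 542885) (.g (nat_lit 1177) (.e (nat_lit 98350) (nat_lit 24) (.e (nat_lit 409648) (nat_lit 18) (.e (nat_lit 303116) (nat_lit 2) (.e (nat_lit 196680) (nat_lit 17) .nil)))) (.g (nat_lit 0) (.e (nat_lit 274535) (nat_lit 0) .nil) .nil))) 
(.lf (nat_lit 543397) (.g (nat_lit 3354) (.e (nat_lit 98365) (nat_lit 26) (.e (nat_lit 426325) (nat_lit 13) (.e (nat_lit 483363) (nat_lit 18) (.e (nat_lit 57691) (nat_lit 156) (.e (nat_lit 163907) (nat_lit 12) (.e (nat_lit 426434) (nat_lit 18) .nil)))))) (.g (nat_lit 1) (.e (nat_lit 275145) (nat_lit 0) .nil) .nil)))) (.nd (nat_lit 9) 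
(.lf (nat_lit 543141) (.g (nat_lit 3432) (.e (nat_lit 98359) (nat_lit 26) (.e (nat_lit 426286) (nat_lit 10) (.e (nat_lit 434247) (nat_lit 28) (.e (nat_lit 573477) (nat_lit 12) (.e (nat_lit 57574) (nat_lit 55) (.e (nat_lit 778464) (nat_lit 11) (.e (nat_lit 24606) (nat_lit 3) .nil))))))) (.g (nat_lit 1) (.e (nat_lit 274861) (nat_lit 0) .nil) .nil))) 
(.lf (nat_lit 543653) (.g (nat_lit 4135) (.e (nat_lit 98367) (nat_lit 27) (.e (nat_lit 434232) (nat_lit 23) (.e (nat_lit 532499) (nat_lit 1) (.e (nat_lit 57688) (nat_lit 156) (.e (nat_lit 163873) (nat_lit 3) (.e (nat_lit 204837) (nat_lit 20) (.e (nat_lit 114719) (nat_lit 23) .nil))))))) (.g (nat_lit 1) (.e (nat_lit 275481) (nat_lit 0) .nil) .nil)))))) 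
(.nd (nat_lit 7) (.nd (nat_lit 8) (.nd (nat_lit 9) 
(.lf (nat_lit 542821) (.g (nat_lit 2765) (.e (nat_lit 98350) (nat_lit 24) (.e (nat_lit 409643) (nat_lit 18) (.e (nat_lit 303118) (nat_lit 3) (.e (nat_lit 204855) (nat_lit 26) (.e (nat_lit 336099) (nat_lit 9) (.e (nat_lit 336028) (nat_lit 3) .nil)))))) (.g (nat_lit 1) (.e (nat_lit 274469) (nat_lit 0) .nil) .nil))) 
(.lf (nat_lit 543333) (.g (nat_lit 2431) (.e (nat_lit 98365) (nat_lit 26) (.e (nat_lit 426306) (nat_lit 12) (.e (nat_lit 475179) (nat_lit 24) (.e (nat_lit 516097) (nat_lit 0) (.e (nat_lit 3648) (nat_lit 227) .nil))))) (.g (nat_lit 0) (.e (nat_lit 275081) (nat_lit 0) .nil) .nil)))) (.nd (nat_lit 9) 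
(.lf (nat_lit 543077) (.g (nat_lit 2733) (.e (nat_lit 98357) (nat_lit 26) (.e (nat_lit 426436) (nat_lit 18) (.e (nat_lit 98386) (nat_lit 32) (.e (nat_lit 475177) (nat_lit 24) (.e (nat_lit 516147) (nat_lit 9) (.e (nat_lit 426436) (nat_lit 18) .nil)))))) (.g (nat_lit 1) (.e (nat_lit 274794) (nat_lit 0) .nil) .nil))) 
(.lf (nat_lit 543589) (.g (nat_lit 5232) (.e (nat_lit 98366) (nat_lit 27) (.e (nat_lit 434248) (nat_lit 28) (.e (nat_lit 573489) (nat_lit 14) (.e (nat_lit 73755) (nat_lit 8) (.e (nat_lit 557090) (nat_lit 12) (.e (nat_lit 163843) (nat_lit 0) (.e (nat_lit 5940) (nat_lit 322) (.e (nat_lit 57379) (nat_lit 3) .nil)))))))) (.g (nat_lit 1) (.e (nat_lit 275386) (nat_lit 0) .nil) .nil))))) 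
(.nd (nat_lit 8) (.nd (nat_lit 9) 
(.lf (nat_lit 542949) (.g (nat_lit 3232) (.e (nat_lit 98350) (nat_lit 24) (.e (nat_lit 409649) (nat_lit 18) (.e (nat_lit 303118) (nat_lit 3) (.e (nat_lit 204855) (nat_lit 26) (.e (nat_lit 336097) (nat_lit 9) (.e (nat_lit 336024) (nat_lit 3) .nil)))))) (.g (nat_lit 1) (.e (nat_lit 274602) (nat_lit 0) .nil) .nil))) 
(.lf (nat_lit 543461) (.g (nat_lit 4523) (.e (nat_lit 98366) (nat_lit 27) (.e (nat_lit 434231) (nat_lit 23) (.e (nat_lit 532500) (nat_lit 1) (.e (nat_lit 57692) (nat_lit 156) (.e (nat_lit 163875) (nat_lit 3) (.e (nat_lit 204838) (nat_lit 20) (.e (nat_lit 114719) (nat_lit 23) .nil))))))) (.g (nat_lit 1) (.e (nat_lit 275239) (nat_lit 0) .nil) .nil)))) (.nd (nat_lit 9) 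
(.lf (nat_lit 543205) (.g (nat_lit 2582) (.e (nat_lit 98363) (nat_lit 26) (.e (nat_lit 426318) (nat_lit 12) (.e (nat_lit 475179) (nat_lit 24) (.e (nat_lit 516124) (nat_lit 2) (.e (nat_lit 213030) (nat_lit 11) (.e (nat_lit 24608) (nat_lit 3) .nil)))))) (.g (nat_lit 1) (.e (nat_lit 274936) (nat_lit 0) .nil) .nil))) 
(.lf (nat_lit 543717) (.g (nat_lit 520) (.e (nat_lit 98367) (nat_lit 27) (.e (nat_lit 434247) (nat_lit 28) (.e (nat_lit 573487) (nat_lit 14) .nil))) (.g (nat_lit 0) (.e (nat_lit 275549) (nat_lit 0) .nil) .nil)))))))) (.nd (nat_lit 5) (.nd (nat_lit 6) (.nd (nat_lit 7) (.nd (nat_lit 8) (.nd (nat_lit 9) 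
(.lf (nat_lit 542741) (.g (nat_lit 2348) (.e (nat_lit 98349) (nat_lit 24) (.e (nat_lit 409645) (nat_lit 18) (.e (nat_lit 303119) (nat_lit 3) (.e (nat_lit 204845) (nat_lit 24) (.e (nat_lit 327424) (nat_lit 6) .nil))))) (.g (nat_lit 0) (.e (nat_lit 274374) (nat_lit 0) .nil) .nil))) 
(.lf (nat_lit 543253) (.g (nat_lit 2675) (.e (nat_lit 98365) (nat_lit 26) (.e (nat_lit 426187) (nat_lit 9) (.e (nat_lit 426438) (nat_lit 18) (.e (nat_lit 98337) (nat_lit 19) (.e (nat_lit 213032) (nat_lit 11) (.e (nat_lit 24608) (nat_lit 3) .nil)))))) (.g (nat_lit 1) (.e (nat_lit 274998) (nat_lit 0) .nil) .nil)))) (.nd (nat_lit 9) 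
(.lf (nat_lit 542997) (.g (nat_lit 4253) (.e (nat_lit 98354) (nat_lit 26) (.e (nat_lit 426317) (nat_lit 12) (.e (nat_lit 475185) (nat_lit 29) (.e (nat_lit 557098) (nat_lit 13) (.e (nat_lit 172124) (nat_lit 14) (.e (nat_lit 491540) (nat_lit 3) .nil)))))) (.g (nat_lit 1) (.e (nat_lit 274702) (nat_lit 0) .nil) .nil))) 
(.lf (nat_lit 543509) (.g (nat_lit 4407) (.e (nat_lit 98366) (nat_lit 27) (.e (nat_lit 434244) (nat_lit 28) (.e (nat_lit 573451) (nat_lit 9) (.e (nat_lit 1449) (nat_lit 108) (.e (nat_lit 336013) (nat_lit 2) (.e (nat_lit 90189) (nat_lit 18) (.e (nat_lit 2580) (nat_lit 161) (.e (nat_lit 40963) (nat_lit 0) (.e (nat_lit 1250) (nat_lit 92) .nil))))))))) (.g (nat_lit 1) (.e (nat_lit 275291) (nat_lit 0) .nil) .nil))))) 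
(.nd (nat_lit 8) (.nd (nat_lit 9) 
(.lf (nat_lit 542869) (.g (nat_lit 2641) (.e (nat_lit 98350) (nat_lit 24) (.e (nat_lit 409647) (nat_lit 18) (.e (nat_lit 303118) (nat_lit 3) (.e (nat_lit 204855) (nat_lit 26) (.e (nat_lit 336097) (nat_lit 9) (.e (nat_lit 336020) (nat_lit 3) .nil)))))) (.g (nat_lit 1) (.e (nat_lit 274518) (nat_lit 0) .nil) .nil))) 
(.lf (nat_lit 543381) (.g (nat_lit 1758) (.e (nat_lit 98365) (nat_lit 26) (.e (nat_lit 426325) (nat_lit 13) (.e (nat_lit 483341) (nat_lit 9) (.e (nat_lit 426031) (nat_lit 0) .nil)))) (.g (nat_lit 0) (.e (nat_lit 275129) (nat_lit 0) .nil) .nil)))) (.nd (nat_lit 9) 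
(.lf (nat_lit 543125) (.g (nat_lit 4042) (.e (nat_lit 98359) (nat_lit 26) (.e (nat_lit 426286) (nat_lit 10) (.e (nat_lit 434245) (nat_lit 28) (.e (nat_lit 573471) (nat_lit 11) (.e (nat_lit 16472) (nat_lit 14) (.e (nat_lit 491538) (nat_lit 3) .nil)))))) (.g (nat_lit 1) (.e (nat_lit 274845) (nat_lit 0) .nil) .nil))) 
(.lf (nat_lit 543637) (.g (nat_lit 4578) (.e (nat_lit 98367) (nat_lit 27) (.e (nat_lit 434231) (nat_lit 23) (.e (nat_lit 532514) (nat_lit 3) (.e (nat_lit 114718) (nat_lit 23) (.e (nat_lit 98333) (nat_lit 18) (.e (nat_lit 164399) (nat_lit 256) (.e (nat_lit 57378) (nat_lit 3) .nil))))))) (.g (nat_lit 1) (.e (nat_lit 275464) (nat_lit 0) .nil) .nil)))))) 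
(.nd (nat_lit 7) (.nd (nat_lit 8) (.nd (nat_lit 9) 
(.lf (nat_lit 542805) (.g (nat_lit 812) (.e (nat_lit 98350) (nat_lit 24) (.e (nat_lit 409616) (nat_lit 10) (.e (nat_lit 5757) (nat_lit 315) .nil))) (.g (nat_lit 0) (.e (nat_lit 274447) (nat_lit 0) .nil) .nil))) 
(.lf (nat_lit 543317) (.g (nat_lit 3134) (.e (nat_lit 98365) (nat_lit 26) (.e (nat_lit 426306) (nat_lit 12) (.e (nat_lit 475177) (nat_lit 24) (.e (nat_lit 516126) (nat_lit 2) (.e (nat_lit 213030) (nat_lit 11) (.e (nat_lit 24608) (nat_lit 3) .nil)))))) (.g (nat_lit 1) (.e (nat_lit 275065) (nat_lit 0) .nil) .nil)))) (.nd (nat_lit 9) 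
(.lf (nat_lit 543061) (.g (nat_lit 3918) (.e (nat_lit 98357) (nat_lit 26) (.e (nat_lit 426436) (nat_lit 18) (.e (nat_lit 98335) (nat_lit 18) (.e (nat_lit 164329) (nat_lit 230) .nil)))) (.g (nat_lit 0) (.e (nat_lit 274775) (nat_lit 0) .nil) .nil))) 
(.lf (nat_lit 543573) (.g (nat_lit 1703) (.e (nat_lit 98366) (nat_lit 27) (.e (nat_lit 434248) (nat_lit 28) (.e (nat_lit 573482) (nat_lit 13) (.e (nat_lit 65566) (nat_lit 2) .nil)))) (.g (nat_lit 0) (.e (nat_lit 275367) (nat_lit 0) .nil) .nil))))) (.nd (nat_lit 8) (.nd (nat_lit 9) 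
(.lf (nat_lit 542933) (.g (nat_lit 1530) (.e (nat_lit 98350) (nat_lit 24) (.e (nat_lit 409649) (nat_lit 18) (.e (nat_lit 303117) (nat_lit 2) (.e (nat_lit 196661) (nat_lit 12) .nil)))) (.g (nat_lit 0) (.e (nat_lit 274586) (nat_lit 0) .nil) .nil))) 
(.lf (nat_lit 543445) (.g (nat_lit 3446) (.e (nat_lit 98366) (nat_lit 27) (.e (nat_lit 434231) (nat_lit 23) (.e (nat_lit 532499) (nat_lit 1) (.e (nat_lit 57688) (nat_lit 156) (.e (nat_lit 163873) (nat_lit 3) (.e (nat_lit 204837) (nat_lit 20) (.e (nat_lit 114718) (nat_lit 23) .nil))))))) (.g (nat_lit 1) (.e (nat_lit 275216) (nat_lit 0) .nil) .nil)))) (.nd (nat_lit 9) 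
(.lf (nat_lit 543189) (.g (nat_lit 2068) (.e (nat_lit 98363) (nat_lit 26) (.e (nat_lit 426129) (nat_lit 3) (.e (nat_lit 204838) (nat_lit 20) (.e (nat_lit 114718) (nat_lit 23) (.e (nat_lit 98333) (nat_lit 18) .nil))))) (.g (nat_lit 0) (.e (nat_lit 274918) (nat_lit 0) .nil) .nil))) 
(.lf (nat_lit 543701) (.g (nat_lit 2061) (.e (nat_lit 98367) (nat_lit 27) (.e (nat_lit 434246) (nat_lit 28) (.e (nat_lit 573487) (nat_lit 14) (.e (nat_lit 73753) (nat_lit 8) (.e (nat_lit 557119) (nat_lit 18) (.e (nat_lit 2798) (nat_lit 180) (.e (nat_lit 311040) (nat_lit 18) .nil))))))) (.g (nat_lit 1) (.e (nat_lit 275532) (nat_lit 0) .nil) .nil))))))) 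
(.nd (nat_lit 6) (.nd (nat_lit 7) (.nd (nat_lit 8) (.nd (nat_lit 9) 
(.lf (nat_lit 542773) (.g (nat_lit 3363) (.e (nat_lit 98349) (nat_lit 24) (.e (nat_lit 409646) (nat_lit 18) (.e (nat_lit 303119) (nat_lit 3) (.e (nat_lit 204866) (nat_lit 28) (.e (nat_lit 352314) (nat_lit 23) .nil))))) (.g (nat_lit 1) (.e (nat_lit 274409) (nat_lit 0) .nil) .nil))) 
(.lf (nat_lit 543285) (.g (nat_lit 3660) (.e (nat_lit 98365) (nat_lit 26) (.e (nat_lit 426188) (nat_lit 9) (.e (nat_lit 426566) (nat_lit 34) (.e (nat_lit 393253) (nat_lit 18) (.e (nat_lit 171776) (nat_lit 256) .nil))))) (.g (nat_lit 0) (.e (nat_lit 275030) (nat_lit 0) .nil) .nil)))) (.nd (nat_lit 9) 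
(.lf (nat_lit 543029) (.g (nat_lit 2527) (.e (nat_lit 98356) (nat_lit 26) (.e (nat_lit 426436) (nat_lit 18) (.e (nat_lit 98385) (nat_lit 32) (.e (nat_lit 475177) (nat_lit 24) (.e (nat_lit 516147) (nat_lit 9) (.e (nat_lit 426436) (nat_lit 18) .nil)))))) (.g (nat_lit 1) (.e (nat_lit 274741) (nat_lit 0) .nil) .nil))) 
(.lf (nat_lit 543541) (.g (nat_lit 2785) (.e (nat_lit 98366) (nat_lit 27) (.e (nat_lit 434244) (nat_lit 28) (.e (nat_lit 573488) (nat_lit 14) (.e (nat_lit 73755) (nat_lit 8) (.e (nat_lit 557091) (nat_lit 12) .nil))))) (.g (nat_lit 0) (.e (nat_lit 275331) (nat_lit 0) .nil) .nil))))) (.nd (nat_lit 8) (.nd (nat_lit 9) 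
(.lf (nat_lit 542901) (.g (nat_lit 3342) (.e (nat_lit 98350) (nat_lit 24) (.e (nat_lit 409648) (nat_lit 18) (.e (nat_lit 303117) (nat_lit 2) (.e (nat_lit 196668) (nat_lit 14) (.e (nat_lit 81664) (nat_lit 40) (.e (nat_lit 1250) (nat_lit 92) .nil)))))) (.g (nat_lit 1) (.e (nat_lit 274552) (nat_lit 0) .nil) .nil))) 
(.lf (nat_lit 543413) (.g (nat_lit 966) (.e (nat_lit 98365) (nat_lit 26) (.e (nat_lit 426335) (nat_lit 13) (.e (nat_lit 491264) (nat_lit 10) .nil))) (.g (nat_lit 0) (.e (nat_lit 275161) (nat_lit 0) .nil) .nil)))) (.nd (nat_lit 9) 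
(.lf (nat_lit 543157) (.g (nat_lit 2507) (.e (nat_lit 98359) (nat_lit 26) (.e (nat_lit 426286) (nat_lit 10) (.e (nat_lit 434248) (nat_lit 28) (.e (nat_lit 573470) (nat_lit 11) (.e (nat_lit 16473) (nat_lit 14) (.e (nat_lit 499456) (nat_lit 3) .nil)))))) (.g (nat_lit 1) (.e (nat_lit 274877) (nat_lit 0) .nil) .nil))) 
(.lf (nat_lit 543669) (.g (nat_lit 1447) (.e (nat_lit 98367) (nat_lit 27) (.e (nat_lit 434244) (nat_lit 28) (.e (nat_lit 573487) (nat_lit 14) (.e (nat_lit 81664) (nat_lit 5) .nil)))) (.g (nat_lit 0) (.e (nat_lit 275499) (nat_lit 0) .nil) .nil)))))) (.nd (nat_lit 7) (.nd (nat_lit 8) (.nd (nat_lit 9) 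
(.lf (nat_lit 542837) (.g (nat_lit 2458) (.e (nat_lit 98350) (nat_lit 24) (.e (nat_lit 409645) (nat_lit 18) (.e (nat_lit 303119) (nat_lit 3) (.e (nat_lit 204846) (nat_lit 24) (.e (nat_lit 319491) (nat_lit 0) .nil))))) (.g (nat_lit 0) (.e (nat_lit 274486) (nat_lit 0) .nil) .nil))) 
(.lf (nat_lit 543349) (.g (nat_lit 2204) (.e (nat_lit 98365) (nat_lit 26) (.e (nat_lit 426306) (nat_lit 12) (.e (nat_lit 475179) (nat_lit 24) (.e (nat_lit 516131) (nat_lit 3) (.e (nat_lit 221194) (nat_lit 11) (.e (nat_lit 336025) (nat_lit 3) .nil)))))) (.g (nat_lit 1) (.e (nat_lit 275097) (nat_lit 0) .nil) .nil)))) (.nd (nat_lit 9) 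
(.lf (nat_lit 543093) (.g (nat_lit 4088) (.e (nat_lit 98358) (nat_lit 26) (.e (nat_lit 426323) (nat_lit 13) (.e (nat_lit 483337) (nat_lit 9) (.e (nat_lit 426100) (nat_lit 1) (.e (nat_lit 164403) (nat_lit 256) (.e (nat_lit 57378) (nat_lit 3) .nil)))))) (.g (nat_lit 1) (.e (nat_lit 274810) (nat_lit 0) .nil) .nil))) 
(.lf (nat_lit 543605) (.g (nat_lit 2850) (.e (nat_lit 98367) (nat_lit 27) (.e (nat_lit 434231) (nat_lit 23) (.e (nat_lit 532499) (nat_lit 1) (.e (nat_lit 57688) (nat_lit 156) (.e (nat_lit 163875) (nat_lit 3) (.e (nat_lit 204836) (nat_lit 20) (.e (nat_lit 114718) (nat_lit 23) .nil))))))) (.g (nat_lit 1) (.e (nat_lit 275422) (nat_lit 0) .nil) .nil))))) (.nd (nat_lit 8) (.nd (nat_lit 9) 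
(.lf (nat_lit 542965) (.g (nat_lit 4139) (.e (nat_lit 98350) (nat_lit 24) (.e (nat_lit 409649) (nat_lit 18) (.e (nat_lit 303119) (nat_lit 3) (.e (nat_lit 204866) (nat_lit 28) (.e (nat_lit 352315) (nat_lit 23) .nil))))) (.g (nat_lit 1) (.e (nat_lit 274619) (nat_lit 0) .nil) .nil))) 
(.lf (nat_lit 543477) (.g (nat_lit 517) (.e (nat_lit 98366) (nat_lit 27) (.e (nat_lit 434231) (nat_lit 23) (.e (nat_lit 532513) (nat_lit 3) .nil))) (.g (nat_lit 0) (.e (nat_lit 275255) (nat_lit 0) .nil) .nil)))) (.nd (nat_lit 9) 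
(.lf (nat_lit 543221) (.g (nat_lit 1791) (.e (nat_lit 98363) (nat_lit 26) (.e (nat_lit 426321) (nat_lit 13) (.e (nat_lit 483363) (nat_lit 18) (.e (nat_lit 57688) (nat_lit 156) (.e (nat_lit 163901) (nat_lit 12) (.e (nat_lit 426438) (nat_lit 18) .nil)))))) (.g (nat_lit 1) (.e (nat_lit 274953) (nat_lit 0) .nil) .nil))) 
(.lf (nat_lit 543733) (.g (nat_lit 3445) (.e (nat_lit 98367) (nat_lit 27) (.e (nat_lit 434247) (nat_lit 28) (.e (nat_lit 573489) (nat_lit 14) (.e (nat_lit 73755) (nat_lit 8) (.e (nat_lit 557111) (nat_lit 16) (.e (nat_lit 229379) (nat_lit 0) (.e (nat_lit 5939) (nat_lit 322) (.e (nat_lit 57379) (nat_lit 3) .nil)))))))) (.g (nat_lit 1) (.e (nat_lit 275568) (nat_lit 0) .nil) .nil))))))))) 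
(.nd (nat_lit 4) (.nd (nat_lit 5) (.nd (nat_lit 6) (.nd (nat_lit 7) (.nd (nat_lit 8) 
(.nd (nat_lit 9) 
(.lf (nat_lit 542733) (.g (nat_lit 826) (.e (nat_lit 98349) (nat_lit 24) (.e (nat_lit 409645) (nat_lit 18) (.e (nat_lit 303117) (nat_lit 2) (.e (nat_lit 196670) (nat_lit 14) .nil)))) (.g (nat_lit 0) (.e (nat_lit 274366) (nat_lit 0) .nil) .nil))) 
(.lf (nat_lit 543245) (.g (nat_lit 3316) (.e (nat_lit 98365) (nat_lit 26) (.e (nat_lit 426139) (nat_lit 3) (.e (nat_lit 204829) (nat_lit 18) (.e (nat_lit 57692) (nat_lit 156) (.e (nat_lit 163872) (nat_lit 3) (.e (nat_lit 204838) (nat_lit 20) (.e (nat_lit 114719) (nat_lit 23) .nil))))))) (.g (nat_lit 1) (.e (nat_lit 274990) (nat_lit 0) .nil) .nil)))) (.nd (nat_lit 9) 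
(.lf (nat_lit 542989) (.g (nat_lit 2102) (.e (nat_lit 98354) (nat_lit 26) (.e (nat_lit 426125) (nat_lit 2) (.e (nat_lit 196661) (nat_lit 12) (.e (nat_lit 57357) (nat_lit 0) .nil)))) (.g (nat_lit 0) (.e (nat_lit 274688) (nat_lit 0) .nil) .nil))) 
(.lf (nat_lit 543501) (.g (nat_lit 1740) (.e (nat_lit 98366) (nat_lit 27) (.e (nat_lit 434231) (nat_lit 23) (.e (nat_lit 532515) (nat_lit 3) (.e (nat_lit 114716) (nat_lit 22) .nil)))) (.g (nat_lit 0) (.e (nat_lit 275280) (nat_lit 0) .nil) .nil))))) (.nd (nat_lit 8) (.nd (nat_lit 9) 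
(.lf (nat_lit 542861) (.g (nat_lit 2881) (.e (nat_lit 98350) (nat_lit 24) (.e (nat_lit 409646) (nat_lit 18) (.e (nat_lit 303119) (nat_lit 3) (.e (nat_lit 204852) (nat_lit 26) (.e (nat_lit 336130) (nat_lit 9) (.e (nat_lit 336026) (nat_lit 3) .nil)))))) (.g (nat_lit 1) (.e (nat_lit 274510) (nat_lit 0) .nil) .nil))) 
(.lf (nat_lit 543373) (.g (nat_lit 2468) (.e (nat_lit 98365) (nat_lit 26) (.e (nat_lit 426325) (nat_lit 13) (.e (nat_lit 483337) (nat_lit 9) (.e (nat_lit 426100) (nat_lit 1) (.e (nat_lit 164402) (nat_lit 256) .nil))))) (.g (nat_lit 0) (.e (nat_lit 275121) (nat_lit 0) .nil) .nil)))) (.nd (nat_lit 9) 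
(.lf (nat_lit 543117) (.g (nat_lit 3812) (.e (nat_lit 98359) (nat_lit 26) (.e (nat_lit 426286) (nat_lit 10) (.e (nat_lit 434238) (nat_lit 25) (.e (nat_lit 548913) (nat_lit 18) (.e (nat_lit 172126) (nat_lit 14) (.e (nat_lit 491540) (nat_lit 3) .nil)))))) (.g (nat_lit 1) (.e (nat_lit 274837) (nat_lit 0) .nil) .nil))) 
(.lf (nat_lit 543629) (.g (nat_lit 3831) (.e (nat_lit 98367) (nat_lit 27) (.e (nat_lit 434231) (nat_lit 23) (.e (nat_lit 532513) (nat_lit 3) (.e (nat_lit 114718) (nat_lit 23) (.e (nat_lit 98333) (nat_lit 18) (.e (nat_lit 164399) (nat_lit 256) (.e (nat_lit 57378) (nat_lit 3) .nil))))))) (.g (nat_lit 1) (.e (nat_lit 275454) (nat_lit 0) .nil) .nil)))))) 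
(.nd (nat_lit 7) (.nd (nat_lit 8) (.nd (nat_lit 9) 
(.lf (nat_lit 542797) (.g (nat_lit 812) (.e (nat_lit 98350) (nat_lit 24) (.e (nat_lit 409616) (nat_lit 10) (.e (nat_lit 5614) (nat_lit 312) .nil))) (.g (nat_lit 0) (.e (nat_lit 274436) (nat_lit 0) .nil) .nil))) 
(.lf (nat_lit 543309) (.g (nat_lit 2684) (.e (nat_lit 98365) (nat_lit 26) (.e (nat_lit 426306) (nat_lit 12) (.e (nat_lit 475177) (nat_lit 24) (.e (nat_lit 516097) (nat_lit 0) (.e (nat_lit 3703) (nat_lit 227) (.e (nat_lit 778465) (nat_lit 11) (.e (nat_lit 24608) (nat_lit 3) .nil))))))) (.g (nat_lit 1) (.e (nat_lit 275057) (nat_lit 0) .nil) .nil)))) (.nd (nat_lit 9) 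
(.lf (nat_lit 543053) (.g (nat_lit 2375) (.e (nat_lit 98357) (nat_lit 26) (.e (nat_lit 426131) (nat_lit 3) (.e (nat_lit 204838) (nat_lit 20) (.e (nat_lit 114719) (nat_lit 23) (.e (nat_lit 98335) (nat_lit 18) .nil))))) (.g (nat_lit 0) (.e (nat_lit 274765) (nat_lit 0) .nil) .nil))) 
(.lf (nat_lit 543565) (.g (nat_lit 3441) (.e (nat_lit 98366) (nat_lit 27) (.e (nat_lit 434247) (nat_lit 28) (.e (nat_lit 573489) (nat_lit 14) (.e (nat_lit 73755) (nat_lit 8) (.e (nat_lit 557090) (nat_lit 12) (.e (nat_lit 163841) (nat_lit 0) (.e (nat_lit 5943) (nat_lit 322) (.e (nat_lit 57379) (nat_lit 3) .nil)))))))) (.g (nat_lit 1) (.e (nat_lit 275358) (nat_lit 0) .nil) .nil))))) 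
(.nd (nat_lit 8) (.nd (nat_lit 9) 
(.lf (nat_lit 542925) (.g (nat_lit 3312) (.e (nat_lit 98350) (nat_lit 24) (.e (nat_lit 409648) (nat_lit 18) (.e (nat_lit 303119) (nat_lit 3) (.e (nat_lit 204855) (nat_lit 26) (.e (nat_lit 336102) (nat_lit 9) .nil))))) (.g (nat_lit 0) (.e (nat_lit 274576) (nat_lit 0) .nil) .nil))) 
(.lf (nat_lit 543437) (.g (nat_lit 1772) (.e (nat_lit 98366) (nat_lit 27) (.e (nat_lit 434231) (nat_lit 23) (.e (nat_lit 532490) (nat_lit 0) (.e (nat_lit 1040) (nat_lit 81) .nil)))) (.g (nat_lit 0) (.e (nat_lit 275201) (nat_lit 0) .nil) .nil)))) (.nd (nat_lit 9) 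
(.lf (nat_lit 543181) (.g (nat_lit 4292) (.e (nat_lit 98362) (nat_lit 26) (.e (nat_lit 426211) (nat_lit 9) (.e (nat_lit 426125) (nat_lit 2) (.e (nat_lit 196630) (nat_lit 9) (.e (nat_lit 1393) (nat_lit 106) .nil))))) (.g (nat_lit 0) (.e (nat_lit 274905) (nat_lit 0) .nil) .nil))) 
(.lf (nat_lit 543693) (.g (nat_lit 2377) (.e (nat_lit 98367) (nat_lit 27) (.e (nat_lit 434245) (nat_lit 28) (.e (nat_lit 573488) (nat_lit 14) (.e (nat_lit 73755) (nat_lit 8) (.e (nat_lit 557119) (nat_lit 18) (.e (nat_lit 2797) (nat_lit 180) (.e (nat_lit 311040) (nat_lit 18) .nil))))))) (.g (nat_lit 1) (.e (nat_lit 275523) (nat_lit 0) .nil) .nil))))))) 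
(.nd (nat_lit 6) (.nd (nat_lit 7) (.nd (nat_lit 8) (.nd (nat_lit 9) 
(.lf (nat_lit 542765) (.g (nat_lit 2840) (.e (nat_lit 98349) (nat_lit 24) (.e (nat_lit 409646) (nat_lit 18) (.e (nat_lit 303119) (nat_lit 3) (.e (nat_lit 204852) (nat_lit 26) (.e (nat_lit 336136) (nat_lit 9) .nil))))) (.g (nat_lit 0) (.e (nat_lit 274401) (nat_lit 0) .nil) .nil))) 
(.lf (nat_lit 543277) (.g (nat_lit 2608) (.e (nat_lit 98365) (nat_lit 26) (.e (nat_lit 426188) (nat_lit 9) (.e (nat_lit 426564) (nat_lit 34) (.e (nat_lit 393251) (nat_lit 18) (.e (nat_lit 164403) (nat_lit 256) (.e (nat_lit 57378) (nat_lit 3) .nil)))))) (.g (nat_lit 1) (.e (nat_lit 275022) (nat_lit 0) .nil) .nil)))) (.nd (nat_lit 9) 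
(.lf (nat_lit 543021) (.g (nat_lit 4182) (.e (nat_lit 98356) (nat_lit 26) (.e (nat_lit 426436) (nat_lit 18) (.e (nat_lit 98335) (nat_lit 18) (.e (nat_lit 164327) (nat_lit 230) (.e (nat_lit 163875) (nat_lit 3) (.e (nat_lit 204838) (nat_lit 20) (.e (nat_lit 114718) (nat_lit 23) .nil))))))) (.g (nat_lit 1) (.e (nat_lit 274731) (nat_lit 0) .nil) .nil))) 
(.lf (nat_lit 543533) (.g (nat_lit 1770) (.e (nat_lit 98366) (nat_lit 27) (.e (nat_lit 434244) (nat_lit 28) (.e (nat_lit 573487) (nat_lit 14) (.e (nat_lit 73753) (nat_lit 8) .nil)))) (.g (nat_lit 0) (.e (nat_lit 275322) (nat_lit 0) .nil) .nil))))) (.nd (nat_lit 8) (.nd (nat_lit 9) 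
(.lf (nat_lit 542893) (.g (nat_lit 3059) (.e (nat_lit 98350) (nat_lit 24) (.e (nat_lit 409648) (nat_lit 18) (.e (nat_lit 303117) (nat_lit 2) (.e (nat_lit 196666) (nat_lit 13) (.e (nat_lit 65592) (nat_lit 9) (.e (nat_lit 336024) (nat_lit 3) .nil)))))) (.g (nat_lit 1) (.e (nat_lit 274544) (nat_lit 0) .nil) .nil))) 
(.lf (nat_lit 543405) (.g (nat_lit 1257) (.e (nat_lit 98365) (nat_lit 26) (.e (nat_lit 426325) (nat_lit 13) (.e (nat_lit 483366) (nat_lit 18) .nil))) (.g (nat_lit 0) (.e (nat_lit 275153) (nat_lit 0) .nil) .nil)))) (.nd (nat_lit 9) 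
(.lf (nat_lit 543149) (.g (nat_lit 4268) (.e (nat_lit 98359) (nat_lit 26) (.e (nat_lit 426286) (nat_lit 10) (.e (nat_lit 434247) (nat_lit 28) (.e (nat_lit 573477) (nat_lit 12) (.e (nat_lit 57575) (nat_lit 55) (.e (nat_lit 778466) (nat_lit 11) (.e (nat_lit 24606) (nat_lit 3) .nil))))))) (.g (nat_lit 1) (.e (nat_lit 274869) (nat_lit 0) .nil) .nil))) 
(.lf (nat_lit 543661) (.g (nat_lit 3044) (.e (nat_lit 98367) (nat_lit 27) (.e (nat_lit 434234) (nat_lit 23) (.e (nat_lit 532499) (nat_lit 1) (.e (nat_lit 57688) (nat_lit 156) (.e (nat_lit 163874) (nat_lit 3) (.e (nat_lit 204838) (nat_lit 20) (.e (nat_lit 114718) (nat_lit 23) .nil))))))) (.g (nat_lit 1) (.e (nat_lit 275490) (nat_lit 0) .nil) .nil)))))) 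
(.nd (nat_lit 7) (.nd (nat_lit 8) (.nd (nat_lit 9) 
(.lf (nat_lit 542829) (.g (nat_lit 3243) (.e (nat_lit 98350) (nat_lit 24) (.e (nat_lit 409645) (nat_lit 18) (.e (nat_lit 303112) (nat_lit 0) (.e (nat_lit 3252) (nat_lit 197) (.e (nat_lit 532534) (nat_lit 9) (.e (nat_lit 336115) (nat_lit 9) (.e (nat_lit 343808) (nat_lit 3) .nil))))))) (.g (nat_lit 1) (.e (nat_lit 274478) (nat_lit 0) .nil) .nil))) 
(.lf (nat_lit 543341) (.g (nat_lit 1740) (.e (nat_lit 98365) (nat_lit 26) (.e (nat_lit 426306) (nat_lit 12) (.e (nat_lit 475179) (nat_lit 24) (.e (nat_lit 516125) (nat_lit 2) (.e (nat_lit 213032) (nat_lit 11) .nil))))) (.g (nat_lit 0) (.e (nat_lit 275089) (nat_lit 0) .nil) .nil)))) (.nd (nat_lit 9) 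
(.lf (nat_lit 543085) (.g (nat_lit 2285) (.e (nat_lit 98358) (nat_lit 26) (.e (nat_lit 426131) (nat_lit 3) (.e (nat_lit 204838) (nat_lit 20) (.e (nat_lit 114719) (nat_lit 23) (.e (nat_lit 98335) (nat_lit 18) .nil))))) (.g (nat_lit 0) (.e (nat_lit 274802) (nat_lit 0) .nil) .nil))) 
(.lf (nat_lit 543597) (.g (nat_lit 2048) (.e (nat_lit 98367) (nat_lit 27) (.e (nat_lit 434231) (nat_lit 23) (.e (nat_lit 532481) (nat_lit 0) (.e (nat_lit 2266) (nat_lit 149) .nil)))) (.g (nat_lit 0) (.e (nat_lit 275402) (nat_lit 0) .nil) .nil))))) (.nd (nat_lit 8) (.nd (nat_lit 9) 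
(.lf (nat_lit 542957) (.g (nat_lit 3603) (.e (nat_lit 98350) (nat_lit 24) (.e (nat_lit 409649) (nat_lit 18) (.e (nat_lit 303119) (nat_lit 3) (.e (nat_lit 204852) (nat_lit 26) (.e (nat_lit 336130) (nat_lit 9) (.e (nat_lit 336025) (nat_lit 3) .nil)))))) (.g (nat_lit 1) (.e (nat_lit 274611) (nat_lit 0) .nil) .nil))) 
(.lf (nat_lit 543469) (.g (nat_lit 3579) (.e (nat_lit 98366) (nat_lit 27) (.e (nat_lit 434231) (nat_lit 23) (.e (nat_lit 532502) (nat_lit 1) (.e (nat_lit 57692) (nat_lit 156) (.e (nat_lit 163875) (nat_lit 3) (.e (nat_lit 204838) (nat_lit 20) (.e (nat_lit 114719) (nat_lit 23) .nil))))))) (.g (nat_lit 1) (.e (nat_lit 275247) (nat_lit 0) .nil) .nil)))) (.nd (nat_lit 9) 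
(.lf (nat_lit 543213) (.g (nat_lit 1192) (.e (nat_lit 98363) (nat_lit 26) (.e (nat_lit 426321) (nat_lit 13) (.e (nat_lit 483337) (nat_lit 9) (.e (nat_lit 426099) (nat_lit 1) (.e (nat_lit 164398) (nat_lit 256) .nil))))) (.g (nat_lit 0) (.e (nat_lit 274945) (nat_lit 0) .nil) .nil))) 
(.lf (nat_lit 543725) (.g (nat_lit 3278) (.e (nat_lit 98367) (nat_lit 27) (.e (nat_lit 434247) (nat_lit 28) (.e (nat_lit 573489) (nat_lit 14) (.e (nat_lit 73755) (nat_lit 8) (.e (nat_lit 557090) (nat_lit 12) (.e (nat_lit 163840) (nat_lit 0) (.e (nat_lit 5937) (nat_lit 322) (.e (nat_lit 57378) (nat_lit 3) .nil)))))))) (.g (nat_lit 1) (.e (nat_lit 275559) (nat_lit 0) .nil) .nil)))))))) 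
(.nd (nat_lit 5) (.nd (nat_lit 6) (.nd (nat_lit 7) (.nd (nat_lit 8) (.nd (nat_lit 9) 
(.lf (nat_lit 542749) (.g (nat_lit 900) (.e (nat_lit 98349) (nat_lit 24) (.e (nat_lit 409646) (nat_lit 18) (.e (nat_lit 303104) (nat_lit 0) .nil))) (.g (nat_lit 0) (.e (nat_lit 274382) (nat_lit 0) .nil) .nil))) 
(.lf (nat_lit 543261) (.g (nat_lit 2811) (.e (nat_lit 98365) (nat_lit 26) (.e (nat_lit 426187) (nat_lit 9) (.e (nat_lit 426568) (nat_lit 34) (.e (nat_lit 393252) (nat_lit 18) (.e (nat_lit 164403) (nat_lit 256) (.e (nat_lit 57377) (nat_lit 3) .nil)))))) (.g (nat_lit 1) (.e (nat_lit 275006) (nat_lit 0) .nil) .nil)))) (.nd (nat_lit 9) 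
(.lf (nat_lit 543005) (.g (nat_lit 3795) (.e (nat_lit 98354) (nat_lit 26) (.e (nat_lit 426436) (nat_lit 18) (.e (nat_lit 98335) (nat_lit 18) (.e (nat_lit 164305) (nat_lit 226) .nil)))) (.g (nat_lit 0) (.e (nat_lit 274711) (nat_lit 0) .nil) .nil))) 
(.lf (nat_lit 543517) (.g (nat_lit 415) (.e (nat_lit 98366) (nat_lit 27) (.e (nat_lit 434244) (nat_lit 28) (.e (nat_lit 573481) (nat_lit 13) .nil))) (.g (nat_lit 0) (.e (nat_lit 275302) (nat_lit 0) .nil) .nil))))) (.nd (nat_lit 8) (.nd (nat_lit 9) 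
(.lf (nat_lit 542877) (.g (nat_lit 2587) (.e (nat_lit 98350) (nat_lit 24) (.e (nat_lit 409647) (nat_lit 18) (.e (nat_lit 303119) (nat_lit 3) (.e (nat_lit 204852) (nat_lit 26) (.e (nat_lit 336130) (nat_lit 9) (.e (nat_lit 336025) (nat_lit 3) .nil)))))) (.g (nat_lit 1) (.e (nat_lit 274526) (nat_lit 0) .nil) .nil))) 
(.lf (nat_lit 543389) (.g (nat_lit 3452) (.e (nat_lit 98365) (nat_lit 26) (.e (nat_lit 426325) (nat_lit 13) (.e (nat_lit 483341) (nat_lit 9) (.e (nat_lit 426106) (nat_lit 1) (.e (nat_lit 164403) (nat_lit 256) (.e (nat_lit 57378) (nat_lit 3) .nil)))))) (.g (nat_lit 1) (.e (nat_lit 275137) (nat_lit 0) .nil) .nil)))) (.nd (nat_lit 9) 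
(.lf (nat_lit 543133) (.g (nat_lit 3999) (.e (nat_lit 98359) (nat_lit 26) (.e (nat_lit 426286) (nat_lit 10) (.e (nat_lit 434245) (nat_lit 28) (.e (nat_lit 573474) (nat_lit 12) (.e (nat_lit 57574) (nat_lit 55) (.e (nat_lit 778465) (nat_lit 11) (.e (nat_lit 32512) (nat_lit 3) .nil))))))) (.g (nat_lit 1) (.e (nat_lit 274853) (nat_lit 0) .nil) .nil))) 
(.lf (nat_lit 543645) (.g (nat_lit 4319) (.e (nat_lit 98367) (nat_lit 27) (.e (nat_lit 434231) (nat_lit 23) (.e (nat_lit 532514) (nat_lit 3) (.e (nat_lit 114719) (nat_lit 23) (.e (nat_lit 98334) (nat_lit 18) (.e (nat_lit 164399) (nat_lit 256) (.e (nat_lit 57378) (nat_lit 3) .nil))))))) (.g (nat_lit 1) (.e (nat_lit 275472) (nat_lit 0) .nil) .nil)))))) 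
(.nd (nat_lit 7) (.nd (nat_lit 8) (.nd (nat_lit 9) 
(.lf (nat_lit 542813) (.g (nat_lit 1214) (.e (nat_lit 98350) (nat_lit 24) (.e (nat_lit 409623) (nat_lit 10) (.e (nat_lit 5664) (nat_lit 312) (.e (nat_lit 2675) (nat_lit 168) .nil)))) (.g (nat_lit 0) (.e (nat_lit 274460) (nat_lit 0) .nil) .nil))) 
(.lf (nat_lit 543325) (.g (nat_lit 2829) (.e (nat_lit 98365) (nat_lit 26) (.e (nat_lit 426306) (nat_lit 12) (.e (nat_lit 475177) (nat_lit 24) (.e (nat_lit 516129) (nat_lit 3) (.e (nat_lit 221194) (nat_lit 11) (.e (nat_lit 336025) (nat_lit 3) .nil)))))) (.g (nat_lit 1) (.e (nat_lit 275073) (nat_lit 0) .nil) .nil)))) (.nd (nat_lit 9) 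
(.lf (nat_lit 543069) (.g (nat_lit 2571) (.e (nat_lit 98357) (nat_lit 26) (.e (nat_lit 426436) (nat_lit 18) (.e (nat_lit 98384) (nat_lit 32) (.e (nat_lit 475177) (nat_lit 24) (.e (nat_lit 516147) (nat_lit 9) (.e (nat_lit 426436) (nat_lit 18) .nil)))))) (.g (nat_lit 1) (.e (nat_lit 274785) (nat_lit 0) .nil) .nil))) 
(.lf (nat_lit 543581) (.g (nat_lit 1117) (.e (nat_lit 98366) (nat_lit 27) (.e (nat_lit 434248) (nat_lit 28) (.e (nat_lit 573487) (nat_lit 14) (.e (nat_lit 73753) (nat_lit 8) .nil)))) (.g (nat_lit 0) (.e (nat_lit 275377) (nat_lit 0) .nil) .nil))))) (.nd (nat_lit 8) (.nd (nat_lit 9) 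
(.lf (nat_lit 542941) (.g (nat_lit 2906) (.e (nat_lit 98350) (nat_lit 24) (.e (nat_lit 409649) (nat_lit 18) (.e (nat_lit 303117) (nat_lit 2) (.e (nat_lit 196670) (nat_lit 14) (.e (nat_lit 73784) (nat_lit 40) (.e (nat_lit 1253) (nat_lit 92) .nil)))))) (.g (nat_lit 1) (.e (nat_lit 274594) (nat_lit 0) .nil) .nil))) 
(.lf (nat_lit 543453) (.g (nat_lit 2142) (.e (nat_lit 98366) (nat_lit 27) (.e (nat_lit 434231) (nat_lit 23) (.e (nat_lit 532500) (nat_lit 1) (.e (nat_lit 57663) (nat_lit 152) .nil)))) (.g (nat_lit 0) (.e (nat_lit 275226) (nat_lit 0) .nil) .nil)))) (.nd (nat_lit 9) 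
(.lf (nat_lit 543197) (.g (nat_lit 2624) (.e (nat_lit 98363) (nat_lit 26) (.e (nat_lit 426318) (nat_lit 12) (.e (nat_lit 475177) (nat_lit 24) (.e (nat_lit 516126) (nat_lit 2) (.e (nat_lit 213032) (nat_lit 11) (.e (nat_lit 24608) (nat_lit 3) .nil)))))) (.g (nat_lit 1) (.e (nat_lit 274927) (nat_lit 0) .nil) .nil))) 
(.lf (nat_lit 543709) (.g (nat_lit 500) (.e (nat_lit 98367) (nat_lit 27) (.e (nat_lit 434247) (nat_lit 28) (.e (nat_lit 573484) (nat_lit 13) .nil))) (.g (nat_lit 0) (.e (nat_lit 275540) (nat_lit 0) .nil) .nil))))))) (.nd (nat_lit 6) (.nd (nat_lit 7) (.nd (nat_lit 8) (.nd (nat_lit 9) 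
(.lf (nat_lit 542781) (.g (nat_lit 3898) (.e (nat_lit 98349) (nat_lit 24) (.e (nat_lit 409648) (nat_lit 18) (.e (nat_lit 303119) (nat_lit 3) (.e (nat_lit 204855) (nat_lit 26) (.e (nat_lit 336073) (nat_lit 9) .nil))))) (.g (nat_lit 0) (.e (nat_lit 274417) (nat_lit 0) .nil) .nil))) 
(.lf (nat_lit 543293) (.g (nat_lit 3117) (.e (nat_lit 98365) (nat_lit 26) (.e (nat_lit 426190) (nat_lit 9) (.e (nat_lit 426436) (nat_lit 18) (.e (nat_lit 98339) (nat_lit 19) (.e (nat_lit 213032) (nat_lit 11) .nil))))) (.g (nat_lit 0) (.e (nat_lit 275038) (nat_lit 0) .nil) .nil)))) (.nd (nat_lit 9) 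
(.lf (nat_lit 543037) (.g (nat_lit 2252) (.e (nat_lit 98356) (nat_lit 26) (.e (nat_lit 426438) (nat_lit 18) (.e (nat_lit 98334) (nat_lit 18) (.e (nat_lit 164330) (nat_lit 230) (.e (nat_lit 163850) (nat_lit 0) .nil))))) (.g (nat_lit 0) (.e (nat_lit 274749) (nat_lit 0) .nil) .nil))) 
(.lf (nat_lit 543549) (.g (nat_lit 1138) (.e (nat_lit 98366) (nat_lit 27) (.e (nat_lit 434245) (nat_lit 28) (.e (nat_lit 573487) (nat_lit 14) (.e (nat_lit 81664) (nat_lit 5) .nil)))) (.g (nat_lit 0) (.e (nat_lit 275340) (nat_lit 0) .nil) .nil))))) (.nd (nat_lit 8) (.nd (nat_lit 9) 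
(.lf (nat_lit 542909) (.g (nat_lit 2278) (.e (nat_lit 98350) (nat_lit 24) (.e (nat_lit 409648) (nat_lit 18) (.e (nat_lit 303118) (nat_lit 3) (.e (nat_lit 204852) (nat_lit 26) (.e (nat_lit 336130) (nat_lit 9) .nil))))) (.g (nat_lit 0) (.e (nat_lit 274560) (nat_lit 0) .nil) .nil))) 
(.lf (nat_lit 543421) (.g (nat_lit 3141) (.e (nat_lit 106240) (nat_lit 26) (.e (nat_lit 426211) (nat_lit 9) (.e (nat_lit 426125) (nat_lit 2) (.e (nat_lit 196625) (nat_lit 9) .nil)))) (.g (nat_lit 0) (.e (nat_lit 275169) (nat_lit 0) .nil) .nil)))) (.nd (nat_lit 9) 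
(.lf (nat_lit 543165) (.g (nat_lit 2258) (.e (nat_lit 98359) (nat_lit 26) (.e (nat_lit 426286) (nat_lit 10) (.e (nat_lit 434248) (nat_lit 28) (.e (nat_lit 573475) (nat_lit 12) (.e (nat_lit 57574) (nat_lit 55) (.e (nat_lit 778464) (nat_lit 11) (.e (nat_lit 32512) (nat_lit 3) .nil))))))) (.g (nat_lit 1) (.e (nat_lit 274885) (nat_lit 0) .nil) .nil))) 
(.lf (nat_lit 543677) (.g (nat_lit 2586) (.e (nat_lit 98367) (nat_lit 27) (.e (nat_lit 434244) (nat_lit 28) (.e (nat_lit 573488) (nat_lit 14) (.e (nat_lit 73755) (nat_lit 8) (.e (nat_lit 557089) (nat_lit 12) .nil))))) (.g (nat_lit 0) (.e (nat_lit 275507) (nat_lit 0) .nil) .nil)))))) (.nd (nat_lit 7) (.nd (nat_lit 8) (.nd (nat_lit 9) 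
(.lf (nat_lit 542845) (.g (nat_lit 1648) (.e (nat_lit 98350) (nat_lit 24) (.e (nat_lit 409646) (nat_lit 18) (.e (nat_lit 303117) (nat_lit 2) (.e (nat_lit 196666) (nat_lit 13) .nil)))) (.g (nat_lit 0) (.e (nat_lit 274494) (nat_lit 0) .nil) .nil))) 
(.lf (nat_lit 543357) (.g (nat_lit 3195) (.e (nat_lit 98365) (nat_lit 26) (.e (nat_lit 426325) (nat_lit 13) (.e (nat_lit 483336) (nat_lit 9) (.e (nat_lit 426100) (nat_lit 1) (.e (nat_lit 164398) (nat_lit 256) (.e (nat_lit 57377) (nat_lit 3) .nil)))))) (.g (nat_lit 1) (.e (nat_lit 275105) (nat_lit 0) .nil) .nil)))) (.nd (nat_lit 9) 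
(.lf (nat_lit 543101) (.g (nat_lit 2731) (.e (nat_lit 98358) (nat_lit 26) (.e (nat_lit 426402) (nat_lit 15) (.e (nat_lit 1788) (nat_lit 119) (.e (nat_lit 516145) (nat_lit 9) (.e (nat_lit 426428) (nat_lit 17) (.e (nat_lit 90133) (nat_lit 9) (.e (nat_lit 2902) (nat_lit 184) (.e (nat_lit 426435) (nat_lit 18) .nil)))))))) (.g (nat_lit 1) (.e (nat_lit 274818) (nat_lit 0) .nil) .nil))) 
(.lf (nat_lit 543613) (.g (nat_lit 2933) (.e (nat_lit 98367) (nat_lit 27) (.e (nat_lit 434231) (nat_lit 23) (.e (nat_lit 532500) (nat_lit 1) (.e (nat_lit 57691) (nat_lit 156) (.e (nat_lit 163872) (nat_lit 3) .nil))))) (.g (nat_lit 0) (.e (nat_lit 275435) (nat_lit 0) .nil) .nil))))) (.nd (nat_lit 8) (.nd (nat_lit 9) 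
(.lf (nat_lit 542973) (.g (nat_lit 3825) (.e (nat_lit 98352) (nat_lit 25) (.e (nat_lit 417828) (nat_lit 18) (.e (nat_lit 303119) (nat_lit 3) (.e (nat_lit 204866) (nat_lit 28) (.e (nat_lit 352315) (nat_lit 23) .nil))))) (.g (nat_lit 1) (.e (nat_lit 274657) (nat_lit 0) .nil) .nil))) 
(.lf (nat_lit 543485) (.g (nat_lit 2954) (.e (nat_lit 98366) (nat_lit 27) (.e (nat_lit 434231) (nat_lit 23) (.e (nat_lit 532513) (nat_lit 3) (.e (nat_lit 114719) (nat_lit 23) (.e (nat_lit 98325) (nat_lit 17) (.e (nat_lit 2458) (nat_lit 157) (.e (nat_lit 5939) (nat_lit 322) (.e (nat_lit 57379) (nat_lit 3) .nil)))))))) (.g (nat_lit 1) (.e (nat_lit 275263) (nat_lit 0) .nil) .nil)))) (.nd (nat_lit 9) 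
(.lf (nat_lit 543229) (.g (nat_lit 1217) (.e (nat_lit 98364) (nat_lit 26) (.e (nat_lit 426306) (nat_lit 12) (.e (nat_lit 475177) (nat_lit 24) (.e (nat_lit 516131) (nat_lit 3) .nil)))) (.g (nat_lit 0) (.e (nat_lit 274966) (nat_lit 0) .nil) .nil))) 
(.lf (nat_lit 543741) (.g (nat_lit 1276) (.e (nat_lit 98367) (nat_lit 27) (.e (nat_lit 434248) (nat_lit 28) (.e (nat_lit 573480) (nat_lit 13) (.e (nat_lit 65568) (nat_lit 2) .nil)))) (.g (nat_lit 0) (.e (nat_lit 275579) (nat_lit 0) .nil) .nil))))))))))) (.nd (nat_lit 2) (.nd (nat_lit 3) (.nd (nat_lit 4) (.nd (nat_lit 5) (.nd (nat_lit 6) (.nd (nat_lit 7) (.nd (nat_lit 8) (.nd (nat_lit 9) 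
(.lf (nat_lit 542723) (.g (nat_lit 4106) (.e (nat_lit 98349) (nat_lit 24) (.e (nat_lit 409644) (nat_lit 18) (.e (nat_lit 303119) (nat_lit 3) (.e (nat_lit 204855) (nat_lit 26) (.e (nat_lit 336099) (nat_lit 9) (.e (nat_lit 336028) (nat_lit 3) .nil)))))) (.g (nat_lit 1) (.e (nat_lit 274355) (nat_lit 0) .nil) .nil))) 
(.lf (nat_lit 543235) (.g (nat_lit 946) (.e (nat_lit 98365) (nat_lit 26) (.e (nat_lit 426100) (nat_lit 1) (.e (nat_lit 164258) (nat_lit 215) .nil))) (.g (nat_lit 0) (.e (nat_lit 274975) (nat_lit 0) .nil) .nil)))) (.nd (nat_lit 9) 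
(.lf (nat_lit 542979) (.g (nat_lit 2696) (.e (nat_lit 98353) (nat_lit 25) (.e (nat_lit 417813) (nat_lit 9) (.e (nat_lit 311315) (nat_lit 3) (.e (nat_lit 204846) (nat_lit 24) (.e (nat_lit 319532) (nat_lit 16) (.e (nat_lit 286735) (nat_lit 3) .nil)))))) (.g (nat_lit 1) (.e (nat_lit 274665) (nat_lit 0) .nil) .nil))) 
(.lf (nat_lit 543491) (.g (nat_lit 1301) (.e (nat_lit 98366) (nat_lit 27) (.e (nat_lit 434231) (nat_lit 23) (.e (nat_lit 532514) (nat_lit 3) (.e (nat_lit 114716) (nat_lit 22) .nil)))) (.g (nat_lit 0) (.e (nat_lit 275269) (nat_lit 0) .nil) .nil))))) (.nd (nat_lit 8) (.nd (nat_lit 9) 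
(.lf (nat_lit 542851) (.g (nat_lit 445) (.e (nat_lit 98350) (nat_lit 24) (.e (nat_lit 409646) (nat_lit 18) (.e (nat_lit 303118) (nat_lit 3) .nil))) (.g (nat_lit 0) (.e (nat_lit 274500) (nat_lit 0) .nil) .nil))) 
(.lf (nat_lit 543363) (.g (nat_lit 1724) (.e (nat_lit 98365) (nat_lit 26) (.e (nat_lit 426325) (nat_lit 13) (.e (nat_lit 483337) (nat_lit 9) (.e (nat_lit 426014) (nat_lit 0) .nil)))) (.g (nat_lit 0) (.e (nat_lit 275111) (nat_lit 0) .nil) .nil)))) (.nd (nat_lit 9) 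
(.lf (nat_lit 543107) (.g (nat_lit 2614) (.e (nat_lit 98358) (nat_lit 26) (.e (nat_lit 426436) (nat_lit 18) (.e (nat_lit 98358) (nat_lit 26) (.e (nat_lit 426428) (nat_lit 17) (.e (nat_lit 90133) (nat_lit 9) (.e (nat_lit 2900) (nat_lit 184) (.e (nat_lit 426435) (nat_lit 18) .nil))))))) (.g (nat_lit 1) (.e (nat_lit 274824) (nat_lit 0) .nil) .nil))) 
(.lf (nat_lit 543619) (.g (nat_lit 4113) (.e (nat_lit 98367) (nat_lit 27) (.e (nat_lit 434231) (nat_lit 23) (.e (nat_lit 532500) (nat_lit 1) (.e (nat_lit 57692) (nat_lit 156) (.e (nat_lit 163875) (nat_lit 3) (.e (nat_lit 204836) (nat_lit 20) (.e (nat_lit 114719) (nat_lit 23) .nil))))))) (.g (nat_lit 1) (.e (nat_lit 275441) (nat_lit 0) .nil) .nil)))))) 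
(.nd (nat_lit 7) (.nd (nat_lit 8) (.nd (nat_lit 9) 
(.lf (nat_lit 542787) (.g (nat_lit 1357) (.e (nat_lit 98349) (nat_lit 24) (.e (nat_lit 409649) (nat_lit 18) (.e (nat_lit 303117) (nat_lit 2) (.e (nat_lit 196665) (nat_lit 13) .nil)))) (.g (nat_lit 0) (.e (nat_lit 274423) (nat_lit 0) .nil) .nil))) 
(.lf (nat_lit 543299) (.g (nat_lit 3045) (.e (nat_lit 98365) (nat_lit 26) (.e (nat_lit 426278) (nat_lit 10) (.e (nat_lit 434248) (nat_lit 28) (.e (nat_lit 573475) (nat_lit 12) (.e (nat_lit 57574) (nat_lit 55) (.e (nat_lit 778466) (nat_lit 11) (.e (nat_lit 24608) (nat_lit 3) .nil))))))) (.g (nat_lit 1) (.e (nat_lit 275044) (nat_lit 0) .nil) .nil)))) (.nd (nat_lit 9) 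
(.lf (nat_lit 543043) (.g (nat_lit 2393) (.e (nat_lit 98356) (nat_lit 26) (.e (nat_lit 426438) (nat_lit 18) (.e (nat_lit 98335) (nat_lit 18) (.e (nat_lit 164330) (nat_lit 230) (.e (nat_lit 163874) (nat_lit 3) (.e (nat_lit 204837) (nat_lit 20) (.e (nat_lit 114717) (nat_lit 23) .nil))))))) (.g (nat_lit 1) (.e (nat_lit 274755) (nat_lit 0) .nil) .nil))) 
(.lf (nat_lit 543555) (.g (nat_lit 1768) (.e (nat_lit 98366) (nat_lit 27) (.e (nat_lit 434247) (nat_lit 28) (.e (nat_lit 573484) (nat_lit 13) (.e (nat_lit 65553) (nat_lit 0) .nil)))) (.g (nat_lit 0) (.e (nat_lit 275348) (nat_lit 0) .nil) .nil))))) (.nd (nat_lit 8) (.nd (nat_lit 9) 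
(.lf (nat_lit 542915) (.g (nat_lit 3106) (.e (nat_lit 98350) (nat_lit 24) (.e (nat_lit 409648) (nat_lit 18) (.e (nat_lit 303118) (nat_lit 3) (.e (nat_lit 204855) (nat_lit 26) (.e (nat_lit 336097) (nat_lit 9) (.e (nat_lit 336024) (nat_lit 3) .nil)))))) (.g (nat_lit 1) (.e (nat_lit 274566) (nat_lit 0) .nil) .nil))) 
(.lf (nat_lit 543427) (.g (nat_lit 1943) (.e (nat_lit 106240) (nat_lit 26) (.e (nat_lit 426286) (nat_lit 10) (.e (nat_lit 434245) (nat_lit 28) (.e (nat_lit 573474) (nat_lit 12) (.e (nat_lit 57574) (nat_lit 55) .nil))))) (.g (nat_lit 0) (.e (nat_lit 275176) (nat_lit 0) .nil) .nil)))) (.nd (nat_lit 9) 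
(.lf (nat_lit 543171) (.g (nat_lit 1682) (.e (nat_lit 98360) (nat_lit 26) (.e (nat_lit 426140) (nat_lit 3) (.e (nat_lit 204838) (nat_lit 20) (.e (nat_lit 114718) (nat_lit 23) .nil)))) (.g (nat_lit 0) (.e (nat_lit 274892) (nat_lit 0) .nil) .nil))) 
(.lf (nat_lit 543683) (.g (nat_lit 2536) (.e (nat_lit 98367) (nat_lit 27) (.e (nat_lit 434244) (nat_lit 28) (.e (nat_lit 573488) (nat_lit 14) (.e (nat_lit 73755) (nat_lit 8) (.e (nat_lit 557119) (nat_lit 18) (.e (nat_lit 2796) (nat_lit 180) (.e (nat_lit 311040) (nat_lit 18) .nil))))))) (.g (nat_lit 1) (.e (nat_lit 275513) (nat_lit 0) .nil) .nil))))))) 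
(.nd (nat_lit 6) (.nd (nat_lit 7) (.nd (nat_lit 8) (.nd (nat_lit 9) 
(.lf (nat_lit 542755) (.g (nat_lit 2681) (.e (nat_lit 98349) (nat_lit 24) (.e (nat_lit 409646) (nat_lit 18) (.e (nat_lit 303117) (nat_lit 2) (.e (nat_lit 196666) (nat_lit 13) (.e (nat_lit 65596) (nat_lit 9) .nil))))) (.g (nat_lit 0) (.e (nat_lit 274391) (nat_lit 0) .nil) .nil))) 
(.lf (nat_lit 543267) (.g (nat_lit 3142) (.e (nat_lit 98365) (nat_lit 26) (.e (nat_lit 426188) (nat_lit 9) (.e (nat_lit 426436) (nat_lit 18) (.e (nat_lit 98338) (nat_lit 19) (.e (nat_lit 213032) (nat_lit 11) (.e (nat_lit 24608) (nat_lit 3) .nil)))))) (.g (nat_lit 1) (.e (nat_lit 275012) (nat_lit 0) .nil) .nil)))) (.nd (nat_lit 9) 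
(.lf (nat_lit 543011) (.g (nat_lit 1887) (.e (nat_lit 98355) (nat_lit 26) (.e (nat_lit 426270) (nat_lit 9) (.e (nat_lit 426139) (nat_lit 3) (.e (nat_lit 204846) (nat_lit 24) (.e (nat_lit 319511) (nat_lit 10) .nil))))) (.g (nat_lit 0) (.e (nat_lit 274719) (nat_lit 0) .nil) .nil))) 
(.lf (nat_lit 543523) (.g (nat_lit 1802) (.e (nat_lit 98366) (nat_lit 27) (.e (nat_lit 434244) (nat_lit 28) (.e (nat_lit 573481) (nat_lit 13) (.e (nat_lit 65575) (nat_lit 5) .nil)))) (.g (nat_lit 0) (.e (nat_lit 275309) (nat_lit 0) .nil) .nil))))) (.nd (nat_lit 8) (.nd (nat_lit 9) 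
(.lf (nat_lit 542883) (.g (nat_lit 2141) (.e (nat_lit 98350) (nat_lit 24) (.e (nat_lit 409648) (nat_lit 18) (.e (nat_lit 303116) (nat_lit 2) (.e (nat_lit 196666) (nat_lit 13) (.e (nat_lit 65599) (nat_lit 9) (.e (nat_lit 343808) (nat_lit 3) .nil)))))) (.g (nat_lit 1) (.e (nat_lit 274533) (nat_lit 0) .nil) .nil))) 
(.lf (nat_lit 543395) (.g (nat_lit 3177) (.e (nat_lit 98365) (nat_lit 26) (.e (nat_lit 426325) (nat_lit 13) (.e (nat_lit 483363) (nat_lit 18) (.e (nat_lit 57688) (nat_lit 156) (.e (nat_lit 163907) (nat_lit 12) (.e (nat_lit 433920) (nat_lit 18) .nil)))))) (.g (nat_lit 1) (.e (nat_lit 275143) (nat_lit 0) .nil) .nil)))) (.nd (nat_lit 9) 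
(.lf (nat_lit 543139) (.g (nat_lit 3647) (.e (nat_lit 98359) (nat_lit 26) (.e (nat_lit 426286) (nat_lit 10) (.e (nat_lit 434247) (nat_lit 28) (.e (nat_lit 573469) (nat_lit 11) (.e (nat_lit 16472) (nat_lit 14) (.e (nat_lit 491538) (nat_lit 3) .nil)))))) (.g (nat_lit 1) (.e (nat_lit 274859) (nat_lit 0) .nil) .nil))) 
(.lf (nat_lit 543651) (.g (nat_lit 3239) (.e (nat_lit 98367) (nat_lit 27) (.e (nat_lit 434231) (nat_lit 23) (.e (nat_lit 532579) (nat_lit 26) (.e (nat_lit 426139) (nat_lit 3) (.e (nat_lit 204829) (nat_lit 18) (.e (nat_lit 57692) (nat_lit 156) (.e (nat_lit 171776) (nat_lit 64) .nil))))))) (.g (nat_lit 1) (.e (nat_lit 275478) (nat_lit 0) .nil) .nil)))))) 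
(.nd (nat_lit 7) (.nd (nat_lit 8) (.nd (nat_lit 9) 
(.lf (nat_lit 542819) (.g (nat_lit 1993) (.e (nat_lit 98350) (nat_lit 24) (.e (nat_lit 409643) (nat_lit 18) (.e (nat_lit 303117) (nat_lit 2) (.e (nat_lit 196670) (nat_lit 14) (.e (nat_lit 73784) (nat_lit 40) .nil))))) (.g (nat_lit 0) (.e (nat_lit 274467) (nat_lit 0) .nil) .nil))) 
(.lf (nat_lit 543331) (.g (nat_lit 2434) (.e (nat_lit 98365) (nat_lit 26) (.e (nat_lit 426306) (nat_lit 12) (.e (nat_lit 475178) (nat_lit 24) (.e (nat_lit 516127) (nat_lit 2) (.e (nat_lit 213030) (nat_lit 11) (.e (nat_lit 24609) (nat_lit 3) .nil)))))) (.g (nat_lit 1) (.e (nat_lit 275079) (nat_lit 0) .nil) .nil)))) (.nd (nat_lit 9) 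
(.lf (nat_lit 543075) (.g (nat_lit 806) (.e (nat_lit 98357) (nat_lit 26) (.e (nat_lit 426436) (nat_lit 18) (.e (nat_lit 98386) (nat_lit 32) (.e (nat_lit 475177) (nat_lit 24) .nil)))) (.g (nat_lit 0) (.e (nat_lit 274792) (nat_lit 0) .nil) .nil))) 
(.lf (nat_lit 543587) (.g (nat_lit 1651) (.e (nat_lit 98366) (nat_lit 27) (.e (nat_lit 434248) (nat_lit 28) (.e (nat_lit 573489) (nat_lit 14) (.e (nat_lit 73755) (nat_lit 8) .nil)))) (.g (nat_lit 0) (.e (nat_lit 275384) (nat_lit 0) .nil) .nil))))) (.nd (nat_lit 8) (.nd (nat_lit 9) 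
(.lf (nat_lit 542947) (.g (nat_lit 2513) (.e (nat_lit 98350) (nat_lit 24) (.e (nat_lit 409649) (nat_lit 18) (.e (nat_lit 303118) (nat_lit 3) (.e (nat_lit 204855) (nat_lit 26) (.e (nat_lit 336083) (nat_lit 9) (.e (nat_lit 336019) (nat_lit 3) .nil)))))) (.g (nat_lit 1) (.e (nat_lit 274600) (nat_lit 0) .nil) .nil))) 
(.lf (nat_lit 543459) (.g (nat_lit 4531) (.e (nat_lit 98366) (nat_lit 27) (.e (nat_lit 434231) (nat_lit 23) (.e (nat_lit 532500) (nat_lit 1) (.e (nat_lit 57691) (nat_lit 156) (.e (nat_lit 163875) (nat_lit 3) (.e (nat_lit 204838) (nat_lit 20) (.e (nat_lit 114719) (nat_lit 23) .nil))))))) (.g (nat_lit 1) (.e (nat_lit 275236) (nat_lit 0) .nil) .nil)))) (.nd (nat_lit 9) 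
(.lf (nat_lit 543203) (.g (nat_lit 2272) (.e (nat_lit 98363) (nat_lit 26) (.e (nat_lit 426318) (nat_lit 12) (.e (nat_lit 475177) (nat_lit 24) (.e (nat_lit 516131) (nat_lit 3) (.e (nat_lit 221194) (nat_lit 11) (.e (nat_lit 336026) (nat_lit 3) .nil)))))) (.g (nat_lit 1) (.e (nat_lit 274934) (nat_lit 0) .nil) .nil))) 
(.lf (nat_lit 543715) (.g (nat_lit 1786) (.e (nat_lit 98367) (nat_lit 27) (.e (nat_lit 434247) (nat_lit 28) (.e (nat_lit 573484) (nat_lit 13) (.e (nat_lit 73472) (nat_lit 22) .nil)))) (.g (nat_lit 0) (.e (nat_lit 275547) (nat_lit 0) .nil) .nil)))))))) (.nd (nat_lit 5) (.nd (nat_lit 6) (.nd (nat_lit 7) (.nd (nat_lit 8) (.nd (nat_lit 9) 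
(.lf (nat_lit 542739) (.g (nat_lit 429) (.e (nat_lit 98349) (nat_lit 24) (.e (nat_lit 409645) (nat_lit 18) (.e (nat_lit 303118) (nat_lit 3) .nil))) (.g (nat_lit 0) (.e (nat_lit 274372) (nat_lit 0) .nil) .nil))) 
(.lf (nat_lit 543251) (.g (nat_lit 2726) (.e (nat_lit 98365) (nat_lit 26) (.e (nat_lit 426187) (nat_lit 9) (.e (nat_lit 426436) (nat_lit 18) (.e (nat_lit 98338) (nat_lit 19) (.e (nat_lit 213030) (nat_lit 11) (.e (nat_lit 24608) (nat_lit 3) .nil)))))) (.g (nat_lit 1) (.e (nat_lit 274996) (nat_lit 0) .nil) .nil)))) (.nd (nat_lit 9) 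
(.lf (nat_lit 542995) (.g (nat_lit 1150) (.e (nat_lit 98354) (nat_lit 26) (.e (nat_lit 426317) (nat_lit 12) (.e (nat_lit 475179) (nat_lit 24) (.e (nat_lit 516129) (nat_lit 3) .nil)))) (.g (nat_lit 0) (.e (nat_lit 274700) (nat_lit 0) .nil) .nil))) 
(.lf (nat_lit 543507) (.g (nat_lit 4841) (.e (nat_lit 98366) (nat_lit 27) (.e (nat_lit 434244) (nat_lit 28) (.e (nat_lit 573451) (nat_lit 9) (.e (nat_lit 1449) (nat_lit 108) (.e (nat_lit 336013) (nat_lit 2) (.e (nat_lit 90189) (nat_lit 18) (.e (nat_lit 2578) (nat_lit 161) (.e (nat_lit 48896) (nat_lit 0) (.e (nat_lit 1256) (nat_lit 92) .nil))))))))) (.g (nat_lit 1) (.e (nat_lit 275289) (nat_lit 0) .nil) .nil))))) 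
(.nd (nat_lit 8) (.nd (nat_lit 9) 
(.lf (nat_lit 542867) (.g (nat_lit 3368) (.e (nat_lit 98350) (nat_lit 24) (.e (nat_lit 409646) (nat_lit 18) (.e (nat_lit 303119) (nat_lit 3) (.e (nat_lit 204866) (nat_lit 28) (.e (nat_lit 352314) (nat_lit 23) .nil))))) (.g (nat_lit 1) (.e (nat_lit 274516) (nat_lit 0) .nil) .nil))) 
(.lf (nat_lit 543379) (.g (nat_lit 2030) (.e (nat_lit 98365) (nat_lit 26) (.e (nat_lit 426325) (nat_lit 13) (.e (nat_lit 483341) (nat_lit 9) (.e (nat_lit 426016) (nat_lit 0) .nil)))) (.g (nat_lit 0) (.e (nat_lit 275127) (nat_lit 0) .nil) .nil)))) (.nd (nat_lit 9) 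
(.lf (nat_lit 543123) (.g (nat_lit 3401) (.e (nat_lit 98359) (nat_lit 26) (.e (nat_lit 426286) (nat_lit 10) (.e (nat_lit 434245) (nat_lit 28) (.e (nat_lit 573471) (nat_lit 11) (.e (nat_lit 16469) (nat_lit 14) (.e (nat_lit 491538) (nat_lit 3) .nil)))))) (.g (nat_lit 1) (.e (nat_lit 274843) (nat_lit 0) .nil) .nil))) 
(.lf (nat_lit 543635) (.g (nat_lit 3035) (.e (nat_lit 98367) (nat_lit 27) (.e (nat_lit 434231) (nat_lit 23) (.e (nat_lit 532514) (nat_lit 3) (.e (nat_lit 114717) (nat_lit 23) (.e (nat_lit 98333) (nat_lit 18) (.e (nat_lit 164398) (nat_lit 256) (.e (nat_lit 57378) (nat_lit 3) .nil))))))) (.g (nat_lit 1) (.e (nat_lit 275462) (nat_lit 0) .nil) .nil)))))) 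
(.nd (nat_lit 7) (.nd (nat_lit 8) (.nd (nat_lit 9) 
(.lf (nat_lit 542803) (.g (nat_lit 351) (.e (nat_lit 98350) (nat_lit 24) (.e (nat_lit 409616) (nat_lit 10) (.e (nat_lit 7936) (nat_lit 312) .nil))) (.g (nat_lit 0) (.e (nat_lit 274445) (nat_lit 0) .nil) .nil))) 
(.lf (nat_lit 543315) (.g (nat_lit 3284) (.e (nat_lit 98365) (nat_lit 26) (.e (nat_lit 426306) (nat_lit 12) (.e (nat_lit 475177) (nat_lit 24) (.e (nat_lit 516125) (nat_lit 2) (.e (nat_lit 213032) (nat_lit 11) (.e (nat_lit 24608) (nat_lit 3) .nil)))))) (.g (nat_lit 1) (.e (nat_lit 275063) (nat_lit 0) .nil) .nil)))) (.nd (nat_lit 9) 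
(.lf (nat_lit 543059) (.g (nat_lit 3937) (.e (nat_lit 98357) (nat_lit 26) (.e (nat_lit 426436) (nat_lit 18) (.e (nat_lit 98335) (nat_lit 18) (.e (nat_lit 164324) (nat_lit 230) .nil)))) (.g (nat_lit 0) (.e (nat_lit 274773) (nat_lit 0) .nil) .nil))) 
(.lf (nat_lit 543571) (.g (nat_lit 1137) (.e (nat_lit 98366) (nat_lit 27) (.e (nat_lit 434248) (nat_lit 28) (.e (nat_lit 573480) (nat_lit 13) (.e (nat_lit 65568) (nat_lit 2) .nil)))) (.g (nat_lit 0) (.e (nat_lit 275365) (nat_lit 0) .nil) .nil))))) (.nd (nat_lit 8) (.nd (nat_lit 9) 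
(.lf (nat_lit 542931) (.g (nat_lit 1225) (.e (nat_lit 98350) (nat_lit 24) (.e (nat_lit 409649) (nat_lit 18) (.e (nat_lit 303116) (nat_lit 2) (.e (nat_lit 196680) (nat_lit 17) .nil)))) (.g (nat_lit 0) (.e (nat_lit 274584) (nat_lit 0) .nil) .nil))) 
(.lf (nat_lit 543443) (.g (nat_lit 2480) (.e (nat_lit 98366) (nat_lit 27) (.e (nat_lit 434231) (nat_lit 23) (.e (nat_lit 532499) (nat_lit 1) (.e (nat_lit 57659) (nat_lit 152) .nil)))) (.g (nat_lit 0) (.e (nat_lit 275211) (nat_lit 0) .nil) .nil)))) (.nd (nat_lit 9) 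
(.lf (nat_lit 543187) (.g (nat_lit 6004) (.e (nat_lit 98363) (nat_lit 26) (.e (nat_lit 426110) (nat_lit 1) (.e (nat_lit 164348) (nat_lit 240) (.e (nat_lit 2610) (nat_lit 163) (.e (nat_lit 163979) (nat_lit 30) (.e (nat_lit 573493) (nat_lit 15) (.e (nat_lit 81956) (nat_lit 23) .nil))))))) (.g (nat_lit 1) (.e (nat_lit 274916) (nat_lit 0) .nil) .nil))) 
(.lf (nat_lit 543699) (.g (nat_lit 1744) (.e (nat_lit 98367) (nat_lit 27) (.e (nat_lit 434246) (nat_lit 28) (.e (nat_lit 573484) (nat_lit 13) (.e (nat_lit 65553) (nat_lit 0) .nil)))) (.g (nat_lit 0) (.e (nat_lit 275530) (nat_lit 0) .nil) .nil))))))) (.nd (nat_lit 6) (.nd (nat_lit 7) (.nd (nat_lit 8) (.nd (nat_lit 9) 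
(.lf (nat_lit 542771) (.g (nat_lit 2522) (.e (nat_lit 98349) (nat_lit 24) (.e (nat_lit 409646) (nat_lit 18) (.e (nat_lit 303119) (nat_lit 3) (.e (nat_lit 204855) (nat_lit 26) (.e (nat_lit 336104) (nat_lit 9) .nil))))) (.g (nat_lit 0) (.e (nat_lit 274407) (nat_lit 0) .nil) .nil))) 
(.lf (nat_lit 543283) (.g (nat_lit 3411) (.e (nat_lit 98365) (nat_lit 26) (.e (nat_lit 426188) (nat_lit 9) (.e (nat_lit 426566) (nat_lit 34) (.e (nat_lit 393252) (nat_lit 18) (.e (nat_lit 164397) (nat_lit 256) (.e (nat_lit 57379) (nat_lit 3) .nil)))))) (.g (nat_lit 1) (.e (nat_lit 275028) (nat_lit 0) .nil) .nil)))) (.nd (nat_lit 9) 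
(.lf (nat_lit 543027) (.g (nat_lit 2729) (.e (nat_lit 98356) (nat_lit 26) (.e (nat_lit 426436) (nat_lit 18) (.e (nat_lit 98358) (nat_lit 26) (.e (nat_lit 426428) (nat_lit 17) (.e (nat_lit 90133) (nat_lit 9) (.e (nat_lit 2900) (nat_lit 184) (.e (nat_lit 426435) (nat_lit 18) .nil))))))) (.g (nat_lit 1) (.e (nat_lit 274739) (nat_lit 0) .nil) .nil))) 
(.lf (nat_lit 543539) (.g (nat_lit 1807) (.e (nat_lit 98366) (nat_lit 27) (.e (nat_lit 434244) (nat_lit 28) (.e (nat_lit 573488) (nat_lit 14) (.e (nat_lit 81664) (nat_lit 5) .nil)))) (.g (nat_lit 0) (.e (nat_lit 275328) (nat_lit 0) .nil) .nil))))) (.nd (nat_lit 8) (.nd (nat_lit 9) 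
(.lf (nat_lit 542899) (.g (nat_lit 3892) (.e (nat_lit 98350) (nat_lit 24) (.e (nat_lit 409648) (nat_lit 18) (.e (nat_lit 303117) (nat_lit 2) (.e (nat_lit 196666) (nat_lit 13) (.e (nat_lit 65601) (nat_lit 9) (.e (nat_lit 336028) (nat_lit 3) .nil)))))) (.g (nat_lit 1) (.e (nat_lit 274550) (nat_lit 0) .nil) .nil))) 
(.lf (nat_lit 543411) (.g (nat_lit 662) (.e (nat_lit 98365) (nat_lit 26) (.e (nat_lit 426327) (nat_lit 13) (.e (nat_lit 483365) (nat_lit 18) .nil))) (.g (nat_lit 0) (.e (nat_lit 275159) (nat_lit 0) .nil) .nil)))) (.nd (nat_lit 9) 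
(.lf (nat_lit 543155) (.g (nat_lit 4044) (.e (nat_lit 98359) (nat_lit 26) (.e (nat_lit 426286) (nat_lit 10) (.e (nat_lit 434248) (nat_lit 28) (.e (nat_lit 573469) (nat_lit 11) (.e (nat_lit 16473) (nat_lit 14) (.e (nat_lit 491538) (nat_lit 3) .nil)))))) (.g (nat_lit 1) (.e (nat_lit 274875) (nat_lit 0) .nil) .nil))) 
(.lf (nat_lit 543667) (.g (nat_lit 1465) (.e (nat_lit 98367) (nat_lit 27) (.e (nat_lit 434244) (nat_lit 28) (.e (nat_lit 573481) (nat_lit 13) (.e (nat_lit 73472) (nat_lit 18) .nil)))) (.g (nat_lit 0) (.e (nat_lit 275497) (nat_lit 0) .nil) .nil)))))) (.nd (nat_lit 7) (.nd (nat_lit 8) (.nd (nat_lit 9) 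
(.lf (nat_lit 542835) (.g (nat_lit 2559) (.e (nat_lit 98350) (nat_lit 24) (.e (nat_lit 409645) (nat_lit 18) (.e (nat_lit 303118) (nat_lit 3) (.e (nat_lit 204855) (nat_lit 26) (.e (nat_lit 336097) (nat_lit 9) .nil))))) (.g (nat_lit 0) (.e (nat_lit 274484) (nat_lit 0) .nil) .nil))) 
(.lf (nat_lit 543347) (.g (nat_lit 1883) (.e (nat_lit 98365) (nat_lit 26) (.e (nat_lit 426306) (nat_lit 12) (.e (nat_lit 475179) (nat_lit 24) (.e (nat_lit 516131) (nat_lit 3) (.e (nat_lit 221191) (nat_lit 11) (.e (nat_lit 336017) (nat_lit 3) .nil)))))) (.g (nat_lit 1) (.e (nat_lit 275095) (nat_lit 0) .nil) .nil)))) (.nd (nat_lit 9) 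
(.lf (nat_lit 543091) (.g (nat_lit 2653) (.e (nat_lit 98358) (nat_lit 26) (.e (nat_lit 426323) (nat_lit 13) (.e (nat_lit 483336) (nat_lit 9) (.e (nat_lit 426108) (nat_lit 1) (.e (nat_lit 164403) (nat_lit 256) (.e (nat_lit 57378) (nat_lit 3) .nil)))))) (.g (nat_lit 1) (.e (nat_lit 274808) (nat_lit 0) .nil) .nil))) 
(.lf (nat_lit 543603) (.g (nat_lit 1900) (.e (nat_lit 98367) (nat_lit 27) (.e (nat_lit 434231) (nat_lit 23) (.e (nat_lit 532499) (nat_lit 1) (.e (nat_lit 57657) (nat_lit 152) .nil)))) (.g (nat_lit 0) (.e (nat_lit 275417) (nat_lit 0) .nil) .nil))))) (.nd (nat_lit 8) (.nd (nat_lit 9) 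
(.lf (nat_lit 542963) (.g (nat_lit 3106) (.e (nat_lit 98350) (nat_lit 24) (.e (nat_lit 409649) (nat_lit 18) (.e (nat_lit 303119) (nat_lit 3) (.e (nat_lit 204855) (nat_lit 26) (.e (nat_lit 336097) (nat_lit 9) (.e (nat_lit 336028) (nat_lit 3) .nil)))))) (.g (nat_lit 1) (.e (nat_lit 274617) (nat_lit 0) .nil) .nil))) 
(.lf (nat_lit 543475) (.g (nat_lit 526) (.e (nat_lit 98366) (nat_lit 27) (.e (nat_lit 434231) (nat_lit 23) (.e (nat_lit 532507) (nat_lit 2) .nil))) (.g (nat_lit 0) (.e (nat_lit 275253) (nat_lit 0) .nil) .nil)))) (.nd (nat_lit 9) 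
(.lf (nat_lit 543219) (.g (nat_lit 2683) (.e (nat_lit 98363) (nat_lit 26) (.e (nat_lit 426321) (nat_lit 13) (.e (nat_lit 483341) (nat_lit 9) (.e (nat_lit 426100) (nat_lit 1) (.e (nat_lit 164399) (nat_lit 256) (.e (nat_lit 57379) (nat_lit 3) .nil)))))) (.g (nat_lit 1) (.e (nat_lit 274951) (nat_lit 0) .nil) .nil))) 
(.lf (nat_lit 543731) (.g (nat_lit 3519) (.e (nat_lit 98367) (nat_lit 27) (.e (nat_lit 434247) (nat_lit 28) (.e (nat_lit 573489) (nat_lit 14) (.e (nat_lit 73755) (nat_lit 8) (.e (nat_lit 557090) (nat_lit 12) (.e (nat_lit 163850) (nat_lit 0) (.e (nat_lit 5951) (nat_lit 322) (.e (nat_lit 57378) (nat_lit 3) .nil)))))))) (.g (nat_lit 1) (.e (nat_lit 275565) (nat_lit 0) .nil) .nil))))))))) 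
(.nd (nat_lit 4) (.nd (nat_lit 5) (.nd (nat_lit 6) (.nd (nat_lit 7) (.nd (nat_lit 8) 
(.nd (nat_lit 9) 
(.lf (nat_lit 542731) (.g (nat_lit 1434) (.e (nat_lit 98349) (nat_lit 24) (.e (nat_lit 409645) (nat_lit 18) (.e (nat_lit 303117) (nat_lit 2) (.e (nat_lit 196668) (nat_lit 14) .nil)))) (.g (nat_lit 0) (.e (nat_lit 274364) (nat_lit 0) .nil) .nil))) 
(.lf (nat_lit 543243) (.g (nat_lit 3898) (.e (nat_lit 98365) (nat_lit 26) (.e (nat_lit 426133) (nat_lit 3) (.e (nat_lit 204809) (nat_lit 9) (.e (nat_lit 426139) (nat_lit 3) (.e (nat_lit 204830) (nat_lit 18) (.e (nat_lit 57692) (nat_lit 156) (.e (nat_lit 171776) (nat_lit 64) .nil))))))) (.g (nat_lit 1) (.e (nat_lit 274988) (nat_lit 0) .nil) .nil)))) (.nd (nat_lit 9) 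
(.lf (nat_lit 542987) (.g (nat_lit 4300) (.e (nat_lit 98353) (nat_lit 25) (.e (nat_lit 417820) (nat_lit 10) (.e (nat_lit 5664) (nat_lit 312) (.e (nat_lit 2661) (nat_lit 167) (.e (nat_lit 196673) (nat_lit 15) (.e (nat_lit 81956) (nat_lit 23) .nil)))))) (.g (nat_lit 1) (.e (nat_lit 274677) (nat_lit 0) .nil) .nil))) 
(.lf (nat_lit 543499) (.g (nat_lit 2262) (.e (nat_lit 98366) (nat_lit 27) (.e (nat_lit 434231) (nat_lit 23) (.e (nat_lit 532514) (nat_lit 3) (.e (nat_lit 114719) (nat_lit 23) (.e (nat_lit 98325) (nat_lit 17) .nil))))) (.g (nat_lit 0) (.e (nat_lit 275277) (nat_lit 0) .nil) .nil))))) (.nd (nat_lit 8) (.nd (nat_lit 9) 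
(.lf (nat_lit 542859) (.g (nat_lit 3255) (.e (nat_lit 98350) (nat_lit 24) (.e (nat_lit 409646) (nat_lit 18) (.e (nat_lit 303119) (nat_lit 3) (.e (nat_lit 204852) (nat_lit 26) (.e (nat_lit 336130) (nat_lit 9) (.e (nat_lit 336020) (nat_lit 3) .nil)))))) (.g (nat_lit 1) (.e (nat_lit 274508) (nat_lit 0) .nil) .nil))) 
(.lf (nat_lit 543371) (.g (nat_lit 3571) (.e (nat_lit 98365) (nat_lit 26) (.e (nat_lit 426325) (nat_lit 13) (.e (nat_lit 483337) (nat_lit 9) (.e (nat_lit 426100) (nat_lit 1) (.e (nat_lit 164398) (nat_lit 256) (.e (nat_lit 57377) (nat_lit 3) .nil)))))) (.g (nat_lit 1) (.e (nat_lit 275119) (nat_lit 0) .nil) .nil)))) (.nd (nat_lit 9) 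
(.lf (nat_lit 543115) (.g (nat_lit 3441) (.e (nat_lit 98359) (nat_lit 26) (.e (nat_lit 426171) (nat_lit 7) (.e (nat_lit 409631) (nat_lit 12) (.e (nat_lit 32807) (nat_lit 18) (.e (nat_lit 172124) (nat_lit 14) (.e (nat_lit 491540) (nat_lit 3) .nil)))))) (.g (nat_lit 1) (.e (nat_lit 274834) (nat_lit 0) .nil) .nil))) 
(.lf (nat_lit 543627) (.g (nat_lit 1306) (.e (nat_lit 98367) (nat_lit 27) (.e (nat_lit 434231) (nat_lit 23) (.e (nat_lit 532513) (nat_lit 3) (.e (nat_lit 114714) (nat_lit 22) .nil)))) (.g (nat_lit 0) (.e (nat_lit 275452) (nat_lit 0) .nil) .nil)))))) (.nd (nat_lit 7) (.nd (nat_lit 8) (.nd (nat_lit 9) 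
(.lf (nat_lit 542795) (.g (nat_lit 523) (.e (nat_lit 98350) (nat_lit 24) (.e (nat_lit 409616) (nat_lit 10) (.e (nat_lit 5612) (nat_lit 312) .nil))) (.g (nat_lit 0) (.e (nat_lit 274434) (nat_lit 0) .nil) .nil))) 
(.lf (nat_lit 543307) (.g (nat_lit 2455) (.e (nat_lit 98365) (nat_lit 26) (.e (nat_lit 426298) (nat_lit 11) (.e (nat_lit 458795) (nat_lit 28) (.e (nat_lit 573478) (nat_lit 12) (.e (nat_lit 57574) (nat_lit 55) (.e (nat_lit 778466) (nat_lit 11) (.e (nat_lit 24608) (nat_lit 3) .nil))))))) (.g (nat_lit 1) (.e (nat_lit 275055) (nat_lit 0) .nil) .nil)))) (.nd (nat_lit 9) 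
(.lf (nat_lit 543051) (.g (nat_lit 1618) (.e (nat_lit 98357) (nat_lit 26) (.e (nat_lit 426131) (nat_lit 3) (.e (nat_lit 204838) (nat_lit 20) (.e (nat_lit 114718) (nat_lit 23) .nil)))) (.g (nat_lit 0) (.e (nat_lit 274763) (nat_lit 0) .nil) .nil))) 
(.lf (nat_lit 543563) (.g (nat_lit 2957) (.e (nat_lit 98366) (nat_lit 27) (.e (nat_lit 434247) (nat_lit 28) (.e (nat_lit 573489) (nat_lit 14) (.e (nat_lit 73755) (nat_lit 8) (.e (nat_lit 557090) (nat_lit 12) .nil))))) (.g (nat_lit 0) (.e (nat_lit 275356) (nat_lit 0) .nil) .nil))))) (.nd (nat_lit 8) (.nd (nat_lit 9) 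
(.lf (nat_lit 542923) (.g (nat_lit 3391) (.e (nat_lit 98350) (nat_lit 24) (.e (nat_lit 409648) (nat_lit 18) (.e (nat_lit 303119) (nat_lit 3) (.e (nat_lit 204855) (nat_lit 26) (.e (nat_lit 336097) (nat_lit 9) .nil))))) (.g (nat_lit 0) (.e (nat_lit 274574) (nat_lit 0) .nil) .nil))) 
(.lf (nat_lit 543435) (.g (nat_lit 1721) (.e (nat_lit 98366) (nat_lit 27) (.e (nat_lit 434231) (nat_lit 23) (.e (nat_lit 532481) (nat_lit 0) (.e (nat_lit 2267) (nat_lit 149) .nil)))) (.g (nat_lit 0) (.e (nat_lit 275198) (nat_lit 0) .nil) .nil)))) (.nd (nat_lit 9) 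
(.lf (nat_lit 543179) (.g (nat_lit 2788) (.e (nat_lit 98361) (nat_lit 26) (.e (nat_lit 426412) (nat_lit 15) (.e (nat_lit 2059) (nat_lit 142) (.e (nat_lit 704589) (nat_lit 3) (.e (nat_lit 163975) (nat_lit 30) .nil))))) (.g (nat_lit 0) (.e (nat_lit 274903) (nat_lit 0) .nil) .nil))) 
(.lf (nat_lit 543691) (.g (nat_lit 1666) (.e (nat_lit 98367) (nat_lit 27) (.e (nat_lit 434245) (nat_lit 28) (.e (nat_lit 573488) (nat_lit 14) (.e (nat_lit 73755) (nat_lit 8) (.e (nat_lit 557090) (nat_lit 12) .nil))))) (.g (nat_lit 0) (.e (nat_lit 275521) (nat_lit 0) .nil) .nil))))))) (.nd (nat_lit 6) (.nd (nat_lit 7) (.nd (nat_lit 8) (.nd (nat_lit 9) 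
(.lf (nat_lit 542763) (.g (nat_lit 2981) (.e (nat_lit 98349) (nat_lit 24) (.e (nat_lit 409646) (nat_lit 18) (.e (nat_lit 303119) (nat_lit 3) (.e (nat_lit 204852) (nat_lit 26) (.e (nat_lit 336130) (nat_lit 9) (.e (nat_lit 336020) (nat_lit 3) .nil)))))) (.g (nat_lit 1) (.e (nat_lit 274399) (nat_lit 0) .nil) .nil))) 
(.lf (nat_lit 543275) (.g (nat_lit 2478) (.e (nat_lit 98365) (nat_lit 26) (.e (nat_lit 426188) (nat_lit 9) (.e (nat_lit 426564) (nat_lit 34) (.e (nat_lit 393251) (nat_lit 18) (.e (nat_lit 164398) (nat_lit 256) (.e (nat_lit 57377) (nat_lit 3) .nil)))))) (.g (nat_lit 1) (.e (nat_lit 275020) (nat_lit 0) .nil) .nil)))) (.nd (nat_lit 9) 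
(.lf (nat_lit 543019) (.g (nat_lit 2200) (.e (nat_lit 98356) (nat_lit 26) (.e (nat_lit 426436) (nat_lit 18) (.e (nat_lit 98335) (nat_lit 18) (.e (nat_lit 164305) (nat_lit 226) .nil)))) (.g (nat_lit 0) (.e (nat_lit 274729) (nat_lit 0) .nil) .nil))) 
(.lf (nat_lit 543531) (.g (nat_lit 1918) (.e (nat_lit 98366) (nat_lit 27) (.e (nat_lit 434244) (nat_lit 28) (.e (nat_lit 573487) (nat_lit 14) (.e (nat_lit 73747) (nat_lit 3) .nil)))) (.g (nat_lit 0) (.e (nat_lit 275318) (nat_lit 0) .nil) .nil))))) (.nd (nat_lit 8) (.nd (nat_lit 9) 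
(.lf (nat_lit 542891) (.g (nat_lit 3498) (.e (nat_lit 98350) (nat_lit 24) (.e (nat_lit 409648) (nat_lit 18) (.e (nat_lit 303117) (nat_lit 2) (.e (nat_lit 196666) (nat_lit 13) (.e (nat_lit 65592) (nat_lit 9) (.e (nat_lit 336020) (nat_lit 3) .nil)))))) (.g (nat_lit 1) (.e (nat_lit 274542) (nat_lit 0) .nil) .nil))) 
(.lf (nat_lit 543403) (.g (nat_lit 2058) (.e (nat_lit 98365) (nat_lit 26) (.e (nat_lit 426325) (nat_lit 13) (.e (nat_lit 483364) (nat_lit 18) (.e (nat_lit 57692) (nat_lit 156) .nil)))) (.g (nat_lit 0) (.e (nat_lit 275151) (nat_lit 0) .nil) .nil)))) (.nd (nat_lit 9) 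
(.lf (nat_lit 543147) (.g (nat_lit 4174) (.e (nat_lit 98359) (nat_lit 26) (.e (nat_lit 426286) (nat_lit 10) (.e (nat_lit 434247) (nat_lit 28) (.e (nat_lit 573477) (nat_lit 12) (.e (nat_lit 57575) (nat_lit 55) (.e (nat_lit 778465) (nat_lit 11) (.e (nat_lit 24606) (nat_lit 3) .nil))))))) (.g (nat_lit 1) (.e (nat_lit 274867) (nat_lit 0) .nil) .nil))) 
(.lf (nat_lit 543659) (.g (nat_lit 3363) (.e (nat_lit 98367) (nat_lit 27) (.e (nat_lit 434232) (nat_lit 23) (.e (nat_lit 532504) (nat_lit 1) (.e (nat_lit 57692) (nat_lit 156) (.e (nat_lit 163875) (nat_lit 3) (.e (nat_lit 204836) (nat_lit 20) (.e (nat_lit 114718) (nat_lit 23) .nil))))))) (.g (nat_lit 1) (.e (nat_lit 275488) (nat_lit 0) .nil) .nil)))))) 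
(.nd (nat_lit 7) (.nd (nat_lit 8) (.nd (nat_lit 9) 
(.lf (nat_lit 542827) (.g (nat_lit 3226) (.e (nat_lit 98350) (nat_lit 24) (.e (nat_lit 409644) (nat_lit 18) (.e (nat_lit 303119) (nat_lit 3) (.e (nat_lit 204855) (nat_lit 26) (.e (nat_lit 336073) (nat_lit 9) (.e (nat_lit 336028) (nat_lit 3) .nil)))))) (.g (nat_lit 1) (.e (nat_lit 274475) (nat_lit 0) .nil) .nil))) 
(.lf (nat_lit 543339) (.g (nat_lit 3537) (.e (nat_lit 98365) (nat_lit 26) (.e (nat_lit 426306) (nat_lit 12) (.e (nat_lit 475179) (nat_lit 24) (.e (nat_lit 516124) (nat_lit 2) (.e (nat_lit 213032) (nat_lit 11) (.e (nat_lit 24608) (nat_lit 3) .nil)))))) (.g (nat_lit 1) (.e (nat_lit 275087) (nat_lit 0) .nil) .nil)))) (.nd (nat_lit 9) 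
(.lf (nat_lit 543083) (.g (nat_lit 2222) (.e (nat_lit 98358) (nat_lit 26) (.e (nat_lit 426131) (nat_lit 3) (.e (nat_lit 204838) (nat_lit 20) (.e (nat_lit 114718) (nat_lit 23) (.e (nat_lit 98332) (nat_lit 18) .nil))))) (.g (nat_lit 0) (.e (nat_lit 274800) (nat_lit 0) .nil) .nil))) 
(.lf (nat_lit 543595) (.g (nat_lit 3602) (.e (nat_lit 98366) (nat_lit 27) (.e (nat_lit 434248) (nat_lit 28) (.e (nat_lit 573489) (nat_lit 14) (.e (nat_lit 73755) (nat_lit 8) (.e (nat_lit 557119) (nat_lit 18) (.e (nat_lit 2798) (nat_lit 180) (.e (nat_lit 311040) (nat_lit 18) .nil))))))) (.g (nat_lit 1) (.e (nat_lit 275392) (nat_lit 0) .nil) .nil))))) (.nd (nat_lit 8) (.nd (nat_lit 9) 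
(.lf (nat_lit 542955) (.g (nat_lit 2854) (.e (nat_lit 98350) (nat_lit 24) (.e (nat_lit 409649) (nat_lit 18) (.e (nat_lit 303118) (nat_lit 3) (.e (nat_lit 204866) (nat_lit 28) (.e (nat_lit 360192) (nat_lit 23) .nil))))) (.g (nat_lit 1) (.e (nat_lit 274609) (nat_lit 0) .nil) .nil))) 
(.lf (nat_lit 543467) (.g (nat_lit 2657) (.e (nat_lit 98366) (nat_lit 27) (.e (nat_lit 434231) (nat_lit 23) (.e (nat_lit 532502) (nat_lit 1) (.e (nat_lit 57688) (nat_lit 156) (.e (nat_lit 163875) (nat_lit 3) .nil))))) (.g (nat_lit 0) (.e (nat_lit 275245) (nat_lit 0) .nil) .nil)))) (.nd (nat_lit 9) 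
(.lf (nat_lit 543211) (.g (nat_lit 2703) (.e (nat_lit 98363) (nat_lit 26) (.e (nat_lit 426321) (nat_lit 13) (.e (nat_lit 483337) (nat_lit 9) (.e (nat_lit 426098) (nat_lit 1) (.e (nat_lit 164399) (nat_lit 256) (.e (nat_lit 57379) (nat_lit 3) .nil)))))) (.g (nat_lit 1) (.e (nat_lit 274943) (nat_lit 0) .nil) .nil))) 
(.lf (nat_lit 543723) (.g (nat_lit 1680) (.e (nat_lit 98367) (nat_lit 27) (.e (nat_lit 434247) (nat_lit 28) (.e (nat_lit 573489) (nat_lit 14) (.e (nat_lit 73755) (nat_lit 8) (.e (nat_lit 557089) (nat_lit 12) .nil))))) (.g (nat_lit 0) (.e (nat_lit 275555) (nat_lit 0) .nil) .nil)))))))) (.nd (nat_lit 5) (.nd (nat_lit 6) (.nd (nat_lit 7) (.nd (nat_lit 8) (.nd (nat_lit 9) 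
(.lf (nat_lit 542747) (.g (nat_lit 3642) (.e (nat_lit 98349) (nat_lit 24) (.e (nat_lit 409645) (nat_lit 18) (.e (nat_lit 303119) (nat_lit 3) (.e (nat_lit 204866) (nat_lit 28) (.e (nat_lit 352314) (nat_lit 23) .nil))))) (.g (nat_lit 1) (.e (nat_lit 274380) (nat_lit 0) .nil) .nil))) 
(.lf (nat_lit 543259) (.g (nat_lit 1645) (.e (nat_lit 98365) (nat_lit 26) (.e (nat_lit 426187) (nat_lit 9) (.e (nat_lit 426568) (nat_lit 34) (.e (nat_lit 393252) (nat_lit 18) (.e (nat_lit 164396) (nat_lit 256) .nil))))) (.g (nat_lit 0) (.e (nat_lit 275004) (nat_lit 0) .nil) .nil)))) (.nd (nat_lit 9) 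
(.lf (nat_lit 543003) (.g (nat_lit 2112) (.e (nat_lit 98354) (nat_lit 26) (.e (nat_lit 426396) (nat_lit 15) (.e (nat_lit 2059) (nat_lit 142) (.e (nat_lit 704589) (nat_lit 3) (.e (nat_lit 163979) (nat_lit 30) .nil))))) (.g (nat_lit 0) (.e (nat_lit 274709) (nat_lit 0) .nil) .nil))) 
(.lf (nat_lit 543515) (.g (nat_lit 1547) (.e (nat_lit 98366) (nat_lit 27) (.e (nat_lit 434244) (nat_lit 28) (.e (nat_lit 573480) (nat_lit 13) (.e (nat_lit 65569) (nat_lit 3) .nil)))) (.g (nat_lit 0) (.e (nat_lit 275299) (nat_lit 0) .nil) .nil))))) (.nd (nat_lit 8) (.nd (nat_lit 9) 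
(.lf (nat_lit 542875) (.g (nat_lit 2258) (.e (nat_lit 98350) (nat_lit 24) (.e (nat_lit 409647) (nat_lit 18) (.e (nat_lit 303118) (nat_lit 3) (.e (nat_lit 204866) (nat_lit 28) (.e (nat_lit 360192) (nat_lit 23) .nil))))) (.g (nat_lit 1) (.e (nat_lit 274524) (nat_lit 0) .nil) .nil))) 
(.lf (nat_lit 543387) (.g (nat_lit 2265) (.e (nat_lit 98365) (nat_lit 26) (.e (nat_lit 426325) (nat_lit 13) (.e (nat_lit 483341) (nat_lit 9) (.e (nat_lit 426106) (nat_lit 1) (.e (nat_lit 164402) (nat_lit 256) (.e (nat_lit 57377) (nat_lit 3) .nil)))))) (.g (nat_lit 1) (.e (nat_lit 275135) (nat_lit 0) .nil) .nil)))) (.nd (nat_lit 9) 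
(.lf (nat_lit 543131) (.g (nat_lit 2069) (.e (nat_lit 98359) (nat_lit 26) (.e (nat_lit 426286) (nat_lit 10) (.e (nat_lit 434245) (nat_lit 28) (.e (nat_lit 573474) (nat_lit 12) (.e (nat_lit 57574) (nat_lit 55) (.e (nat_lit 778463) (nat_lit 11) (.e (nat_lit 32512) (nat_lit 3) .nil))))))) (.g (nat_lit 1) (.e (nat_lit 274851) (nat_lit 0) .nil) .nil))) 
(.lf (nat_lit 543643) (.g (nat_lit 4677) (.e (nat_lit 98367) (nat_lit 27) (.e (nat_lit 434231) (nat_lit 23) (.e (nat_lit 532514) (nat_lit 3) (.e (nat_lit 114719) (nat_lit 23) (.e (nat_lit 98333) (nat_lit 18) (.e (nat_lit 164399) (nat_lit 256) (.e (nat_lit 57378) (nat_lit 3) .nil))))))) (.g (nat_lit 1) (.e (nat_lit 275470) (nat_lit 0) .nil) .nil)))))) 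
(.nd (nat_lit 7) (.nd (nat_lit 8) (.nd (nat_lit 9) 
(.lf (nat_lit 542811) (.g (nat_lit 431) (.e (nat_lit 98350) (nat_lit 24) (.e (nat_lit 409617) (nat_lit 10) (.e (nat_lit 5758) (nat_lit 315) .nil))) (.g (nat_lit 0) (.e (nat_lit 274456) (nat_lit 0) .nil) .nil))) 
(.lf (nat_lit 543323) (.g (nat_lit 3319) (.e (nat_lit 98365) (nat_lit 26) (.e (nat_lit 426306) (nat_lit 12) (.e (nat_lit 475177) (nat_lit 24) (.e (nat_lit 516129) (nat_lit 3) (.e (nat_lit 221193) (nat_lit 11) (.e (nat_lit 336027) (nat_lit 3) .nil)))))) (.g (nat_lit 1) (.e (nat_lit 275071) (nat_lit 0) .nil) .nil)))) (.nd (nat_lit 9) 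
(.lf (nat_lit 543067) (.g (nat_lit 1461) (.e (nat_lit 98357) (nat_lit 26) (.e (nat_lit 426436) (nat_lit 18) (.e (nat_lit 98384) (nat_lit 32) (.e (nat_lit 475169) (nat_lit 22) .nil)))) (.g (nat_lit 0) (.e (nat_lit 274782) (nat_lit 0) .nil) .nil))) 
(.lf (nat_lit 543579) (.g (nat_lit 1074) (.e (nat_lit 98366) (nat_lit 27) (.e (nat_lit 434248) (nat_lit 28) (.e (nat_lit 573487) (nat_lit 14) (.e (nat_lit 81664) (nat_lit 5) .nil)))) (.g (nat_lit 0) (.e (nat_lit 275374) (nat_lit 0) .nil) .nil))))) (.nd (nat_lit 8) (.nd (nat_lit 9) 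
(.lf (nat_lit 542939) (.g (nat_lit 3918) (.e (nat_lit 98350) (nat_lit 24) (.e (nat_lit 409649) (nat_lit 18) (.e (nat_lit 303117) (nat_lit 2) (.e (nat_lit 196666) (nat_lit 13) (.e (nat_lit 65601) (nat_lit 9) .nil))))) (.g (nat_lit 0) (.e (nat_lit 274592) (nat_lit 0) .nil) .nil))) 
(.lf (nat_lit 543451) (.g (nat_lit 2112) (.e (nat_lit 98366) (nat_lit 27) (.e (nat_lit 434231) (nat_lit 23) (.e (nat_lit 532500) (nat_lit 1) (.e (nat_lit 57651) (nat_lit 152) .nil)))) (.g (nat_lit 0) (.e (nat_lit 275223) (nat_lit 0) .nil) .nil)))) (.nd (nat_lit 9) 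
(.lf (nat_lit 543195) (.g (nat_lit 2060) (.e (nat_lit 98363) (nat_lit 26) (.e (nat_lit 426230) (nat_lit 9) (.e (nat_lit 426565) (nat_lit 34) (.e (nat_lit 393252) (nat_lit 18) (.e (nat_lit 164401) (nat_lit 256) (.e (nat_lit 57378) (nat_lit 3) .nil)))))) (.g (nat_lit 1) (.e (nat_lit 274924) (nat_lit 0) .nil) .nil))) 
(.lf (nat_lit 543707) (.g (nat_lit 3395) (.e (nat_lit 98367) (nat_lit 27) (.e (nat_lit 434246) (nat_lit 28) (.e (nat_lit 573489) (nat_lit 14) (.e (nat_lit 73755) (nat_lit 8) (.e (nat_lit 557119) (nat_lit 18) (.e (nat_lit 2798) (nat_lit 180) (.e (nat_lit 311040) (nat_lit 18) .nil))))))) (.g (nat_lit 1) (.e (nat_lit 275538) (nat_lit 0) .nil) .nil))))))) 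
(.nd (nat_lit 6) (.nd (nat_lit 7) (.nd (nat_lit 8) (.nd (nat_lit 9) 
(.lf (nat_lit 542779) (.g (nat_lit 2830) (.e (nat_lit 98349) (nat_lit 24) (.e (nat_lit 409648) (nat_lit 18) (.e (nat_lit 303118) (nat_lit 3) (.e (nat_lit 204855) (nat_lit 26) (.e (nat_lit 336102) (nat_lit 9) .nil))))) (.g (nat_lit 0) (.e (nat_lit 274415) (nat_lit 0) .nil) .nil))) 
(.lf (nat_lit 543291) (.g (nat_lit 3168) (.e (nat_lit 98365) (nat_lit 26) (.e (nat_lit 426188) (nat_lit 9) (.e (nat_lit 426568) (nat_lit 34) (.e (nat_lit 393252) (nat_lit 18) (.e (nat_lit 164403) (nat_lit 256) (.e (nat_lit 57377) (nat_lit 3) .nil)))))) (.g (nat_lit 1) (.e (nat_lit 275036) (nat_lit 0) .nil) .nil)))) (.nd (nat_lit 9) 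
(.lf (nat_lit 543035) (.g (nat_lit 1031) (.e (nat_lit 98356) (nat_lit 26) (.e (nat_lit 426438) (nat_lit 18) (.e (nat_lit 98334) (nat_lit 18) (.e (nat_lit 164305) (nat_lit 226) .nil)))) (.g (nat_lit 0) (.e (nat_lit 274747) (nat_lit 0) .nil) .nil))) 
(.lf (nat_lit 543547) (.g (nat_lit 4011) (.e (nat_lit 98366) (nat_lit 27) (.e (nat_lit 434244) (nat_lit 28) (.e (nat_lit 573489) (nat_lit 14) (.e (nat_lit 73755) (nat_lit 8) (.e (nat_lit 557090) (nat_lit 12) (.e (nat_lit 163843) (nat_lit 0) (.e (nat_lit 5943) (nat_lit 322) (.e (nat_lit 57379) (nat_lit 3) .nil)))))))) (.g (nat_lit 1) (.e (nat_lit 275337) (nat_lit 0) .nil) .nil))))) 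
(.nd (nat_lit 8) (.nd (nat_lit 9) 
(.lf (nat_lit 542907) (.g (nat_lit 2777) (.e (nat_lit 98350) (nat_lit 24) (.e (nat_lit 409648) (nat_lit 18) (.e (nat_lit 303117) (nat_lit 2) (.e (nat_lit 196681) (nat_lit 17) (.e (nat_lit 131108) (nat_lit 9) .nil))))) (.g (nat_lit 0) (.e (nat_lit 274558) (nat_lit 0) .nil) .nil))) 
(.lf (nat_lit 543419) (.g (nat_lit 1579) (.e (nat_lit 106240) (nat_lit 26) (.e (nat_lit 426200) (nat_lit 9) (.e (nat_lit 426131) (nat_lit 3) (.e (nat_lit 204846) (nat_lit 24) .nil)))) (.g (nat_lit 0) (.e (nat_lit 275167) (nat_lit 0) .nil) .nil)))) (.nd (nat_lit 9) 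
(.lf (nat_lit 543163) (.g (nat_lit 4998) (.e (nat_lit 98359) (nat_lit 26) (.e (nat_lit 426286) (nat_lit 10) (.e (nat_lit 434248) (nat_lit 28) (.e (nat_lit 573475) (nat_lit 12) (.e (nat_lit 57572) (nat_lit 54) (.e (nat_lit 770072) (nat_lit 8) (.e (nat_lit 65571) (nat_lit 3) .nil))))))) (.g (nat_lit 1) (.e (nat_lit 274883) (nat_lit 0) .nil) .nil))) 
(.lf (nat_lit 543675) (.g (nat_lit 1564) (.e (nat_lit 98367) (nat_lit 27) (.e (nat_lit 434244) (nat_lit 28) (.e (nat_lit 573488) (nat_lit 14) (.e (nat_lit 81664) (nat_lit 5) .nil)))) (.g (nat_lit 0) (.e (nat_lit 275505) (nat_lit 0) .nil) .nil)))))) (.nd (nat_lit 7) (.nd (nat_lit 8) (.nd (nat_lit 9) 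
(.lf (nat_lit 542843) (.g (nat_lit 1890) (.e (nat_lit 98350) (nat_lit 24) (.e (nat_lit 409646) (nat_lit 18) (.e (nat_lit 303116) (nat_lit 2) (.e (nat_lit 196681) (nat_lit 17) .nil)))) (.g (nat_lit 0) (.e (nat_lit 274492) (nat_lit 0) .nil) .nil))) 
(.lf (nat_lit 543355) (.g (nat_lit 3963) (.e (nat_lit 98365) (nat_lit 26) (.e (nat_lit 426316) (nat_lit 12) (.e (nat_lit 475185) (nat_lit 29) (.e (nat_lit 557101) (nat_lit 13) (.e (nat_lit 172124) (nat_lit 14) .nil))))) (.g (nat_lit 0) (.e (nat_lit 275103) (nat_lit 0) .nil) .nil)))) (.nd (nat_lit 9) 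
(.lf (nat_lit 543099) (.g (nat_lit 3398) (.e (nat_lit 98358) (nat_lit 26) (.e (nat_lit 426323) (nat_lit 13) (.e (nat_lit 483365) (nat_lit 18) (.e (nat_lit 57688) (nat_lit 156) (.e (nat_lit 163902) (nat_lit 12) (.e (nat_lit 426438) (nat_lit 18) .nil)))))) (.g (nat_lit 1) (.e (nat_lit 274816) (nat_lit 0) .nil) .nil))) 
(.lf (nat_lit 543611) (.g (nat_lit 3674) (.e (nat_lit 98367) (nat_lit 27) (.e (nat_lit 434231) (nat_lit 23) (.e (nat_lit 532499) (nat_lit 1) (.e (nat_lit 57691) (nat_lit 156) (.e (nat_lit 163875) (nat_lit 3) (.e (nat_lit 204838) (nat_lit 20) (.e (nat_lit 114718) (nat_lit 23) .nil))))))) (.g (nat_lit 1) (.e (nat_lit 275428) (nat_lit 0) .nil) .nil))))) (.nd (nat_lit 8) (.nd (nat_lit 9) 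
(.lf (nat_lit 542971) (.g (nat_lit 2658) (.e (nat_lit 98352) (nat_lit 25) (.e (nat_lit 417820) (nat_lit 10) (.e (nat_lit 5626) (nat_lit 312) (.e (nat_lit 2668) (nat_lit 167) .nil)))) (.g (nat_lit 0) (.e (nat_lit 274653) (nat_lit 0) .nil) .nil))) 
(.lf (nat_lit 543483) (.g (nat_lit 3128) (.e (nat_lit 98366) (nat_lit 27) (.e (nat_lit 434231) (nat_lit 23) (.e (nat_lit 532513) (nat_lit 3) (.e (nat_lit 114718) (nat_lit 23) (.e (nat_lit 98325) (nat_lit 17) (.e (nat_lit 2458) (nat_lit 157) (.e (nat_lit 5939) (nat_lit 322) (.e (nat_lit 57379) (nat_lit 3) .nil)))))))) (.g (nat_lit 1) (.e (nat_lit 275261) (nat_lit 0) .nil) .nil)))) (.nd (nat_lit 9) 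
(.lf (nat_lit 543227) (.g (nat_lit 3348) (.e (nat_lit 98364) (nat_lit 26) (.e (nat_lit 426200) (nat_lit 9) (.e (nat_lit 426131) (nat_lit 3) (.e (nat_lit 204846) (nat_lit 24) (.e (nat_lit 319530) (nat_lit 16) .nil))))) (.g (nat_lit 0) (.e (nat_lit 274962) (nat_lit 0) .nil) .nil))) 
(.lf (nat_lit 543739) (.g (nat_lit 3678) (.e (nat_lit 98367) (nat_lit 27) (.e (nat_lit 434247) (nat_lit 28) (.e (nat_lit 573489) (nat_lit 14) (.e (nat_lit 73755) (nat_lit 8) (.e (nat_lit 557119) (nat_lit 18) (.e (nat_lit 2817) (nat_lit 181) (.e (nat_lit 319232) (nat_lit 18) .nil))))))) (.g (nat_lit 1) (.e (nat_lit 275574) (nat_lit 0) .nil) .nil)))))))))) 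
(.nd (nat_lit 3) (.nd (nat_lit 4) (.nd (nat_lit 5) (.nd (nat_lit 6) (.nd (nat_lit 7) 
(.nd (nat_lit 8) (.nd (nat_lit 9) 
(.lf (nat_lit 542727) (.g (nat_lit 2931) (.e (nat_lit 98349) (nat_lit 24) (.e (nat_lit 409645) (nat_lit 18) (.e (nat_lit 303112) (nat_lit 0) (.e (nat_lit 3252) (nat_lit 197) (.e (nat_lit 532534) (nat_lit 9) (.e (nat_lit 336115) (nat_lit 9) (.e (nat_lit 343808) (nat_lit 3) .nil))))))) (.g (nat_lit 1) (.e (nat_lit 274360) (nat_lit 0) .nil) .nil))) 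
(.lf (nat_lit 543239) (.g (nat_lit 724) (.e (nat_lit 98365) (nat_lit 26) (.e (nat_lit 426107) (nat_lit 1) (.e (nat_lit 164347) (nat_lit 240) .nil))) (.g (nat_lit 0) (.e (nat_lit 274982) (nat_lit 0) .nil) .nil)))) (.nd (nat_lit 9) 
(.lf (nat_lit 542983) (.g (nat_lit 4129) (.e (nat_lit 98353) (nat_lit 25) (.e (nat_lit 417820) (nat_lit 10) (.e (nat_lit 5626) (nat_lit 312) (.e (nat_lit 2654) (nat_lit 167) .nil)))) (.g (nat_lit 0) (.e (nat_lit 274672) (nat_lit 0) .nil) .nil))) 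
(.lf (nat_lit 543495) (.g (nat_lit 2287) (.e (nat_lit 98366) (nat_lit 27) (.e (nat_lit 434231) (nat_lit 23) (.e (nat_lit 532514) (nat_lit 3) (.e (nat_lit 114718) (nat_lit 23) (.e (nat_lit 98325) (nat_lit 17) .nil))))) (.g (nat_lit 0) (.e (nat_lit 275273) (nat_lit 0) .nil) .nil))))) (.nd (nat_lit 8) (.nd (nat_lit 9) 
(.lf (nat_lit 542855) (.g (nat_lit 2662) (.e (nat_lit 98350) (nat_lit 24) (.e (nat_lit 409646) (nat_lit 18) (.e (nat_lit 303118) (nat_lit 3) (.e (nat_lit 204866) (nat_lit 28) (.e (nat_lit 352313) (nat_lit 23) .nil))))) (.g (nat_lit 1) (.e (nat_lit 274504) (nat_lit 0) .nil) .nil))) 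
(.lf (nat_lit 543367) (.g (nat_lit 2721) (.e (nat_lit 98365) (nat_lit 26) (.e (nat_lit 426325) (nat_lit 13) (.e (nat_lit 483337) (nat_lit 9) (.e (nat_lit 426098) (nat_lit 1) (.e (nat_lit 164402) (nat_lit 256) (.e (nat_lit 57377) (nat_lit 3) .nil)))))) (.g (nat_lit 1) (.e (nat_lit 275115) (nat_lit 0) .nil) .nil)))) (.nd (nat_lit 9) 
(.lf (nat_lit 543111) (.g (nat_lit 2065) (.e (nat_lit 98358) (nat_lit 26) (.e (nat_lit 426438) (nat_lit 18) (.e (nat_lit 98385) (nat_lit 32) (.e (nat_lit 475177) (nat_lit 24) (.e (nat_lit 516147) (nat_lit 9) (.e (nat_lit 426436) (nat_lit 18) .nil)))))) (.g (nat_lit 1) (.e (nat_lit 274828) (nat_lit 0) .nil) .nil))) 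
(.lf (nat_lit 543623) (.g (nat_lit 976) (.e (nat_lit 98367) (nat_lit 27) (.e (nat_lit 434231) (nat_lit 23) (.e (nat_lit 532503) (nat_lit 1) .nil))) (.g (nat_lit 0) (.e (nat_lit 275445) (nat_lit 0) .nil) .nil)))))) (.nd (nat_lit 7) (.nd (nat_lit 8) (.nd (nat_lit 9) 
(.lf (nat_lit 542791) (.g (nat_lit 2477) (.e (nat_lit 98349) (nat_lit 24) (.e (nat_lit 409649) (nat_lit 18) (.e (nat_lit 303119) (nat_lit 3) (.e (nat_lit 204866) (nat_lit 28) (.e (nat_lit 352313) (nat_lit 23) .nil))))) (.g (nat_lit 1) (.e (nat_lit 274427) (nat_lit 0) .nil) .nil))) 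
(.lf (nat_lit 543303) (.g (nat_lit 3658) (.e (nat_lit 98365) (nat_lit 26) (.e (nat_lit 426298) (nat_lit 11) (.e (nat_lit 458789) (nat_lit 23) (.e (nat_lit 532523) (nat_lit 7) (.e (nat_lit 319530) (nat_lit 16) (.e (nat_lit 286735) (nat_lit 3) .nil)))))) (.g (nat_lit 1) (.e (nat_lit 275051) (nat_lit 0) .nil) .nil)))) (.nd (nat_lit 9) 
(.lf (nat_lit 543047) (.g (nat_lit 2717) (.e (nat_lit 98356) (nat_lit 26) (.e (nat_lit 426438) (nat_lit 18) (.e (nat_lit 98358) (nat_lit 26) (.e (nat_lit 426432) (nat_lit 17) (.e (nat_lit 90133) (nat_lit 9) (.e (nat_lit 2900) (nat_lit 184) (.e (nat_lit 426435) (nat_lit 18) .nil))))))) (.g (nat_lit 1) (.e (nat_lit 274759) (nat_lit 0) .nil) .nil))) 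
(.lf (nat_lit 543559) (.g (nat_lit 1341) (.e (nat_lit 98366) (nat_lit 27) (.e (nat_lit 434247) (nat_lit 28) (.e (nat_lit 573484) (nat_lit 13) (.e (nat_lit 65577) (nat_lit 5) .nil)))) (.g (nat_lit 0) (.e (nat_lit 275352) (nat_lit 0) .nil) .nil))))) (.nd (nat_lit 8) (.nd (nat_lit 9) 
(.lf (nat_lit 542919) (.g (nat_lit 3004) (.e (nat_lit 98350) (nat_lit 24) (.e (nat_lit 409648) (nat_lit 18) (.e (nat_lit 303118) (nat_lit 3) (.e (nat_lit 204866) (nat_lit 28) (.e (nat_lit 360192) (nat_lit 23) .nil))))) (.g (nat_lit 1) (.e (nat_lit 274570) (nat_lit 0) .nil) .nil))) 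
(.lf (nat_lit 543431) (.g (nat_lit 2167) (.e (nat_lit 106240) (nat_lit 26) (.e (nat_lit 426316) (nat_lit 12) (.e (nat_lit 475185) (nat_lit 29) (.e (nat_lit 557098) (nat_lit 13) .nil)))) (.g (nat_lit 0) (.e (nat_lit 275180) (nat_lit 0) .nil) .nil)))) (.nd (nat_lit 9) 
(.lf (nat_lit 543175) (.g (nat_lit 1637) (.e (nat_lit 98360) (nat_lit 26) (.e (nat_lit 426411) (nat_lit 15) (.e (nat_lit 2058) (nat_lit 142) (.e (nat_lit 704589) (nat_lit 3) (.e (nat_lit 163976) (nat_lit 30) .nil))))) (.g (nat_lit 0) (.e (nat_lit 274896) (nat_lit 0) .nil) .nil))) 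
(.lf (nat_lit 543687) (.g (nat_lit 2590) (.e (nat_lit 98367) (nat_lit 27) (.e (nat_lit 434244) (nat_lit 28) (.e (nat_lit 573488) (nat_lit 14) (.e (nat_lit 73755) (nat_lit 8) (.e (nat_lit 557119) (nat_lit 18) (.e (nat_lit 2817) (nat_lit 181) (.e (nat_lit 319232) (nat_lit 18) .nil))))))) (.g (nat_lit 1) (.e (nat_lit 275517) (nat_lit 0) .nil) .nil))))))) 
(.nd (nat_lit 6) (.nd (nat_lit 7) (.nd (nat_lit 8) (.nd (nat_lit 9) 
(.lf (nat_lit 542759) (.g (nat_lit 2907) (.e (nat_lit 98349) (nat_lit 24) (.e (nat_lit 409646) (nat_lit 18) (.e (nat_lit 303117) (nat_lit 2) (.e (nat_lit 196681) (nat_lit 17) (.e (nat_lit 131104) (nat_lit 9) .nil))))) (.g (nat_lit 0) (.e (nat_lit 274395) (nat_lit 0) .nil) .nil))) 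
(.lf (nat_lit 543271) (.g (nat_lit 805) (.e (nat_lit 98365) (nat_lit 26) (.e (nat_lit 426188) (nat_lit 9) (.e (nat_lit 426437) (nat_lit 18) (.e (nat_lit 98338) (nat_lit 19) .nil)))) (.g (nat_lit 0) (.e (nat_lit 275016) (nat_lit 0) .nil) .nil)))) (.nd (nat_lit 9) 
(.lf (nat_lit 543015) (.g (nat_lit 467) (.e (nat_lit 98356) (nat_lit 26) (.e (nat_lit 426432) (nat_lit 17) (.e (nat_lit 98048) (nat_lit 5) .nil))) (.g (nat_lit 0) (.e (nat_lit 274725) (nat_lit 0) .nil) .nil))) 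
(.lf (nat_lit 543527) (.g (nat_lit 1730) (.e (nat_lit 98366) (nat_lit 27) (.e (nat_lit 434244) (nat_lit 28) (.e (nat_lit 573487) (nat_lit 14) (.e (nat_lit 81664) (nat_lit 5) .nil)))) (.g (nat_lit 0) (.e (nat_lit 275314) (nat_lit 0) .nil) .nil))))) (.nd (nat_lit 8) (.nd (nat_lit 9) 
(.lf (nat_lit 542887) (.g (nat_lit 1907) (.e (nat_lit 98350) (nat_lit 24) (.e (nat_lit 409648) (nat_lit 18) (.e (nat_lit 303117) (nat_lit 2) (.e (nat_lit 196661) (nat_lit 12) .nil)))) (.g (nat_lit 0) (.e (nat_lit 274538) (nat_lit 0) .nil) .nil))) 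
(.lf (nat_lit 543399) (.g (nat_lit 2349) (.e (nat_lit 98365) (nat_lit 26) (.e (nat_lit 426325) (nat_lit 13) (.e (nat_lit 483363) (nat_lit 18) (.e (nat_lit 57692) (nat_lit 156) (.e (nat_lit 163906) (nat_lit 12) (.e (nat_lit 433920) (nat_lit 18) .nil)))))) (.g (nat_lit 1) (.e (nat_lit 275147) (nat_lit 0) .nil) .nil)))) (.nd (nat_lit 9) 
(.lf (nat_lit 543143) (.g (nat_lit 4180) (.e (nat_lit 98359) (nat_lit 26) (.e (nat_lit 426286) (nat_lit 10) (.e (nat_lit 434247) (nat_lit 28) (.e (nat_lit 573477) (nat_lit 12) (.e (nat_lit 57574) (nat_lit 55) (.e (nat_lit 778466) (nat_lit 11) (.e (nat_lit 24607) (nat_lit 3) .nil))))))) (.g (nat_lit 1) (.e (nat_lit 274863) (nat_lit 0) .nil) .nil))) 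
(.lf (nat_lit 543655) (.g (nat_lit 3345) (.e (nat_lit 98367) (nat_lit 27) (.e (nat_lit 434232) (nat_lit 23) (.e (nat_lit 532499) (nat_lit 1) (.e (nat_lit 57688) (nat_lit 156) (.e (nat_lit 163874) (nat_lit 3) (.e (nat_lit 204838) (nat_lit 20) (.e (nat_lit 114718) (nat_lit 23) .nil))))))) (.g (nat_lit 1) (.e (nat_lit 275483) (nat_lit 0) .nil) .nil)))))) 
(.nd (nat_lit 7) (.nd (nat_lit 8) (.nd (nat_lit 9) 
(.lf (nat_lit 542823) (.g (nat_lit 2200) (.e (nat_lit 98350) (nat_lit 24) (.e (nat_lit 409643) (nat_lit 18) (.e (nat_lit 303119) (nat_lit 3) (.e (nat_lit 204855) (nat_lit 26) (.e (nat_lit 336097) (nat_lit 9) .nil))))) (.g (nat_lit 0) (.e (nat_lit 274471) (nat_lit 0) .nil) .nil))) 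
(.lf (nat_lit 543335) (.g (nat_lit 2704) (.e (nat_lit 98365) (nat_lit 26) (.e (nat_lit 426306) (nat_lit 12) (.e (nat_lit 475179) (nat_lit 24) (.e (nat_lit 516106) (nat_lit 0) (.e (nat_lit 3711) (nat_lit 227) .nil))))) (.g (nat_lit 0) (.e (nat_lit 275083) (nat_lit 0) .nil) .nil)))) (.nd (nat_lit 9) 
(.lf (nat_lit 543079) (.g (nat_lit 2787) (.e (nat_lit 98358) (nat_lit 26) (.e (nat_lit 426131) (nat_lit 3) (.e (nat_lit 204838) (nat_lit 20) (.e (nat_lit 114716) (nat_lit 22) (.e (nat_lit 90130) (nat_lit 9) (.e (nat_lit 2612) (nat_lit 163) (.e (nat_lit 164403) (nat_lit 256) (.e (nat_lit 57378) (nat_lit 3) .nil)))))))) (.g (nat_lit 1) (.e (nat_lit 274796) (nat_lit 0) .nil) .nil))) 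
(.lf (nat_lit 543591) (.g (nat_lit 3092) (.e (nat_lit 98366) (nat_lit 27) (.e (nat_lit 434248) (nat_lit 28) (.e (nat_lit 573489) (nat_lit 14) (.e (nat_lit 73755) (nat_lit 8) (.e (nat_lit 557091) (nat_lit 12) .nil))))) (.g (nat_lit 0) (.e (nat_lit 275388) (nat_lit 0) .nil) .nil))))) (.nd (nat_lit 8) (.nd (nat_lit 9) 
(.lf (nat_lit 542951) (.g (nat_lit 2254) (.e (nat_lit 98350) (nat_lit 24) (.e (nat_lit 409649) (nat_lit 18) (.e (nat_lit 303118) (nat_lit 3) (.e (nat_lit 204855) (nat_lit 26) (.e (nat_lit 336102) (nat_lit 9) (.e (nat_lit 336020) (nat_lit 3) .nil)))))) (.g (nat_lit 1) (.e (nat_lit 274605) (nat_lit 0) .nil) .nil))) 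
(.lf (nat_lit 543463) (.g (nat_lit 859) (.e (nat_lit 98366) (nat_lit 27) (.e (nat_lit 434231) (nat_lit 23) (.e (nat_lit 532501) (nat_lit 1) .nil))) (.g (nat_lit 0) (.e (nat_lit 275241) (nat_lit 0) .nil) .nil)))) (.nd (nat_lit 9) 
(.lf (nat_lit 543207) (.g (nat_lit 1343) (.e (nat_lit 98363) (nat_lit 26) (.e (nat_lit 426318) (nat_lit 12) (.e (nat_lit 475179) (nat_lit 24) (.e (nat_lit 516125) (nat_lit 2) .nil)))) (.g (nat_lit 0) (.e (nat_lit 274939) (nat_lit 0) .nil) .nil))) 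
(.lf (nat_lit 543719) (.g (nat_lit 1280) (.e (nat_lit 98367) (nat_lit 27) (.e (nat_lit 434247) (nat_lit 28) (.e (nat_lit 573489) (nat_lit 14) (.e (nat_lit 81664) (nat_lit 5) .nil)))) (.g (nat_lit 0) (.e (nat_lit 275551) (nat_lit 0) .nil) .nil)))))))) (.nd (nat_lit 5) (.nd (nat_lit 6) (.nd (nat_lit 7) (.nd (nat_lit 8) (.nd (nat_lit 9) 
(.lf (nat_lit 542743) (.g (nat_lit 2958) (.e (nat_lit 98349) (nat_lit 24) (.e (nat_lit 409645) (nat_lit 18) (.e (nat_lit 303119) (nat_lit 3) (.e (nat_lit 204852) (nat_lit 26) (.e (nat_lit 336130) (nat_lit 9) (.e (nat_lit 336025) (nat_lit 3) .nil)))))) (.g (nat_lit 1) (.e (nat_lit 274376) (nat_lit 0) .nil) .nil))) 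
(.lf (nat_lit 543255) (.g (nat_lit 3506) (.e (nat_lit 98365) (nat_lit 26) (.e (nat_lit 426187) (nat_lit 9) (.e (nat_lit 426566) (nat_lit 34) (.e (nat_lit 393251) (nat_lit 18) (.e (nat_lit 164398) (nat_lit 256) (.e (nat_lit 57377) (nat_lit 3) .nil)))))) (.g (nat_lit 1) (.e (nat_lit 275000) (nat_lit 0) .nil) .nil)))) (.nd (nat_lit 9) 
(.lf (nat_lit 542999) (.g (nat_lit 3259) (.e (nat_lit 98354) (nat_lit 26) (.e (nat_lit 426317) (nat_lit 12) (.e (nat_lit 475185) (nat_lit 29) (.e (nat_lit 557101) (nat_lit 13) (.e (nat_lit 172124) (nat_lit 14) (.e (nat_lit 491540) (nat_lit 3) .nil)))))) (.g (nat_lit 1) (.e (nat_lit 274704) (nat_lit 0) .nil) .nil))) 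
(.lf (nat_lit 543511) (.g (nat_lit 473) (.e (nat_lit 98366) (nat_lit 27) (.e (nat_lit 434244) (nat_lit 28) (.e (nat_lit 573474) (nat_lit 12) .nil))) (.g (nat_lit 0) (.e (nat_lit 275294) (nat_lit 0) .nil) .nil))))) (.nd (nat_lit 8) (.nd (nat_lit 9) 
(.lf (nat_lit 542871) (.g (nat_lit 3153) (.e (nat_lit 98350) (nat_lit 24) (.e (nat_lit 409647) (nat_lit 18) (.e (nat_lit 303118) (nat_lit 3) (.e (nat_lit 204855) (nat_lit 26) (.e (nat_lit 336097) (nat_lit 9) (.e (nat_lit 336028) (nat_lit 3) .nil)))))) (.g (nat_lit 1) (.e (nat_lit 274520) (nat_lit 0) .nil) .nil))) 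
(.lf (nat_lit 543383) (.g (nat_lit 2854) (.e (nat_lit 98365) (nat_lit 26) (.e (nat_lit 426325) (nat_lit 13) (.e (nat_lit 483341) (nat_lit 9) (.e (nat_lit 426098) (nat_lit 1) (.e (nat_lit 164398) (nat_lit 256) (.e (nat_lit 57378) (nat_lit 3) .nil)))))) (.g (nat_lit 1) (.e (nat_lit 275131) (nat_lit 0) .nil) .nil)))) (.nd (nat_lit 9) 
(.lf (nat_lit 543127) (.g (nat_lit 3996) (.e (nat_lit 98359) (nat_lit 26) (.e (nat_lit 426286) (nat_lit 10) (.e (nat_lit 434245) (nat_lit 28) (.e (nat_lit 573473) (nat_lit 12) (.e (nat_lit 57572) (nat_lit 54) (.e (nat_lit 770071) (nat_lit 8) (.e (nat_lit 65569) (nat_lit 3) .nil))))))) (.g (nat_lit 1) (.e (nat_lit 274847) (nat_lit 0) .nil) .nil))) 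
(.lf (nat_lit 543639) (.g (nat_lit 1902) (.e (nat_lit 98367) (nat_lit 27) (.e (nat_lit 434231) (nat_lit 23) (.e (nat_lit 532514) (nat_lit 3) (.e (nat_lit 114719) (nat_lit 23) (.e (nat_lit 98325) (nat_lit 17) .nil))))) (.g (nat_lit 0) (.e (nat_lit 275466) (nat_lit 0) .nil) .nil)))))) (.nd (nat_lit 7) (.nd (nat_lit 8) (.nd (nat_lit 9) 
(.lf (nat_lit 542807) (.g (nat_lit 812) (.e (nat_lit 98350) (nat_lit 24) (.e (nat_lit 409616) (nat_lit 10) (.e (nat_lit 5760) (nat_lit 315) .nil))) (.g (nat_lit 0) (.e (nat_lit 274449) (nat_lit 0) .nil) .nil))) 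
(.lf (nat_lit 543319) (.g (nat_lit 3102) (.e (nat_lit 98365) (nat_lit 26) (.e (nat_lit 426306) (nat_lit 12) (.e (nat_lit 475177) (nat_lit 24) (.e (nat_lit 516127) (nat_lit 2) (.e (nat_lit 213030) (nat_lit 11) (.e (nat_lit 24608) (nat_lit 3) .nil)))))) (.g (nat_lit 1) (.e (nat_lit 275067) (nat_lit 0) .nil) .nil)))) (.nd (nat_lit 9) 
(.lf (nat_lit 543063) (.g (nat_lit 2688) (.e (nat_lit 98357) (nat_lit 26) (.e (nat_lit 426436) (nat_lit 18) (.e (nat_lit 98357) (nat_lit 26) (.e (nat_lit 426436) (nat_lit 18) (.e (nat_lit 98358) (nat_lit 26) (.e (nat_lit 426436) (nat_lit 18) .nil)))))) (.g (nat_lit 1) (.e (nat_lit 274778) (nat_lit 0) .nil) .nil))) 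
(.lf (nat_lit 543575) (.g (nat_lit 2892) (.e (nat_lit 98366) (nat_lit 27) (.e (nat_lit 434248) (nat_lit 28) (.e (nat_lit 573482) (nat_lit 13) (.e (nat_lit 65637) (nat_lit 15) (.e (nat_lit 7936) (nat_lit 195) (.e (nat_lit 516145) (nat_lit 9) (.e (nat_lit 426438) (nat_lit 18) .nil))))))) (.g (nat_lit 1) (.e (nat_lit 275370) (nat_lit 0) .nil) .nil))))) (.nd (nat_lit 8) (.nd (nat_lit 9) 
(.lf (nat_lit 542935) (.g (nat_lit 1231) (.e (nat_lit 98350) (nat_lit 24) (.e (nat_lit 409649) (nat_lit 18) (.e (nat_lit 303117) (nat_lit 2) (.e (nat_lit 196666) (nat_lit 13) .nil)))) (.g (nat_lit 0) (.e (nat_lit 274588) (nat_lit 0) .nil) .nil))) 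
(.lf (nat_lit 543447) (.g (nat_lit 2479) (.e (nat_lit 98366) (nat_lit 27) (.e (nat_lit 434231) (nat_lit 23) (.e (nat_lit 532499) (nat_lit 1) (.e (nat_lit 57690) (nat_lit 156) .nil)))) (.g (nat_lit 0) (.e (nat_lit 275218) (nat_lit 0) .nil) .nil)))) (.nd (nat_lit 9) 
(.lf (nat_lit 543191) (.g (nat_lit 1992) (.e (nat_lit 98363) (nat_lit 26) (.e (nat_lit 426228) (nat_lit 9) (.e (nat_lit 426565) (nat_lit 34) (.e (nat_lit 393252) (nat_lit 18) (.e (nat_lit 164401) (nat_lit 256) (.e (nat_lit 57378) (nat_lit 3) .nil)))))) (.g (nat_lit 1) (.e (nat_lit 274920) (nat_lit 0) .nil) .nil))) 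
(.lf (nat_lit 543703) (.g (nat_lit 3090) (.e (nat_lit 98367) (nat_lit 27) (.e (nat_lit 434246) (nat_lit 28) (.e (nat_lit 573489) (nat_lit 14) (.e (nat_lit 73755) (nat_lit 8) (.e (nat_lit 557090) (nat_lit 12) (.e (nat_lit 163840) (nat_lit 0) (.e (nat_lit 5939) (nat_lit 322) (.e (nat_lit 57379) (nat_lit 3) .nil)))))))) (.g (nat_lit 1) (.e (nat_lit 275534) (nat_lit 0) .nil) .nil))))))) 
(.nd (nat_lit 6) (.nd (nat_lit 7) (.nd (nat_lit 8) (.nd (nat_lit 9) 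
(.lf (nat_lit 542775) (.g (nat_lit 838) (.e (nat_lit 98349) (nat_lit 24) (.e (nat_lit 409648) (nat_lit 18) (.e (nat_lit 303104) (nat_lit 0) .nil))) (.g (nat_lit 0) (.e (nat_lit 274411) (nat_lit 0) .nil) .nil))) 
(.lf (nat_lit 543287) (.g (nat_lit 2204) (.e (nat_lit 98365) (nat_lit 26) (.e (nat_lit 426188) (nat_lit 9) (.e (nat_lit 426568) (nat_lit 34) (.e (nat_lit 393251) (nat_lit 18) (.e (nat_lit 164403) (nat_lit 256) (.e (nat_lit 57377) (nat_lit 3) .nil)))))) (.g (nat_lit 1) (.e (nat_lit 275032) (nat_lit 0) .nil) .nil)))) (.nd (nat_lit 9) 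
(.lf (nat_lit 543031) (.g (nat_lit 2129) (.e (nat_lit 98356) (nat_lit 26) (.e (nat_lit 426438) (nat_lit 18) (.e (nat_lit 98333) (nat_lit 18) (.e (nat_lit 164325) (nat_lit 230) (.e (nat_lit 163875) (nat_lit 3) (.e (nat_lit 204837) (nat_lit 20) (.e (nat_lit 114717) (nat_lit 23) .nil))))))) (.g (nat_lit 1) (.e (nat_lit 274743) (nat_lit 0) .nil) .nil))) 
(.lf (nat_lit 543543) (.g (nat_lit 3720) (.e (nat_lit 98366) (nat_lit 27) (.e (nat_lit 434244) (nat_lit 28) (.e (nat_lit 573488) (nat_lit 14) (.e (nat_lit 73755) (nat_lit 8) (.e (nat_lit 557111) (nat_lit 16) (.e (nat_lit 229379) (nat_lit 0) (.e (nat_lit 5939) (nat_lit 322) (.e (nat_lit 57379) (nat_lit 3) .nil)))))))) (.g (nat_lit 1) (.e (nat_lit 275333) (nat_lit 0) .nil) .nil))))) 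
(.nd (nat_lit 8) (.nd (nat_lit 9) 
(.lf (nat_lit 542903) (.g (nat_lit 2104) (.e (nat_lit 98350) (nat_lit 24) (.e (nat_lit 409648) (nat_lit 18) (.e (nat_lit 303117) (nat_lit 2) (.e (nat_lit 196669) (nat_lit 14) (.e (nat_lit 73784) (nat_lit 40) .nil))))) (.g (nat_lit 0) (.e (nat_lit 274554) (nat_lit 0) .nil) .nil))) 
(.lf (nat_lit 543415) (.g (nat_lit 1021) (.e (nat_lit 98365) (nat_lit 26) (.e (nat_lit 426342) (nat_lit 14) (.e (nat_lit 491526) (nat_lit 0) (.e (nat_lit 1698) (nat_lit 117) .nil)))) (.g (nat_lit 0) (.e (nat_lit 275163) (nat_lit 0) .nil) .nil)))) (.nd (nat_lit 9) 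
(.lf (nat_lit 543159) (.g (nat_lit 4091) (.e (nat_lit 98359) (nat_lit 26) (.e (nat_lit 426286) (nat_lit 10) (.e (nat_lit 434248) (nat_lit 28) (.e (nat_lit 573473) (nat_lit 12) (.e (nat_lit 57572) (nat_lit 54) (.e (nat_lit 770071) (nat_lit 8) (.e (nat_lit 65569) (nat_lit 3) .nil))))))) (.g (nat_lit 1) (.e (nat_lit 274879) (nat_lit 0) .nil) .nil))) 
(.lf (nat_lit 543671) (.g (nat_lit 2453) (.e (nat_lit 98367) (nat_lit 27) (.e (nat_lit 434244) (nat_lit 28) (.e (nat_lit 573487) (nat_lit 14) (.e (nat_lit 73753) (nat_lit 8) (.e (nat_lit 557089) (nat_lit 12) .nil))))) (.g (nat_lit 0) (.e (nat_lit 275501) (nat_lit 0) .nil) .nil)))))) (.nd (nat_lit 7) (.nd (nat_lit 8) (.nd (nat_lit 9) 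
(.lf (nat_lit 542839) (.g (nat_lit 3994) (.e (nat_lit 98350) (nat_lit 24) (.e (nat_lit 409645) (nat_lit 18) (.e (nat_lit 303119) (nat_lit 3) (.e (nat_lit 204866) (nat_lit 28) (.e (nat_lit 352313) (nat_lit 23) .nil))))) (.g (nat_lit 1) (.e (nat_lit 274488) (nat_lit 0) .nil) .nil))) 
(.lf (nat_lit 543351) (.g (nat_lit 1851) (.e (nat_lit 98365) (nat_lit 26) (.e (nat_lit 426307) (nat_lit 12) (.e (nat_lit 475177) (nat_lit 24) (.e (nat_lit 516126) (nat_lit 2) (.e (nat_lit 213030) (nat_lit 11) (.e (nat_lit 24609) (nat_lit 3) .nil)))))) (.g (nat_lit 1) (.e (nat_lit 275099) (nat_lit 0) .nil) .nil)))) (.nd (nat_lit 9) 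
(.lf (nat_lit 543095) (.g (nat_lit 3499) (.e (nat_lit 98358) (nat_lit 26) (.e (nat_lit 426323) (nat_lit 13) (.e (nat_lit 483363) (nat_lit 18) (.e (nat_lit 57688) (nat_lit 156) (.e (nat_lit 163902) (nat_lit 12) (.e (nat_lit 426438) (nat_lit 18) .nil)))))) (.g (nat_lit 1) (.e (nat_lit 274812) (nat_lit 0) .nil) .nil))) 
(.lf (nat_lit 543607) (.g (nat_lit 4958) (.e (nat_lit 98367) (nat_lit 27) (.e (nat_lit 434231) (nat_lit 23) (.e (nat_lit 532499) (nat_lit 1) (.e (nat_lit 57688) (nat_lit 156) (.e (nat_lit 163875) (nat_lit 3) (.e (nat_lit 204837) (nat_lit 20) (.e (nat_lit 114718) (nat_lit 23) .nil))))))) (.g (nat_lit 1) (.e (nat_lit 275424) (nat_lit 0) .nil) .nil))))) (.nd (nat_lit 8) (.nd (nat_lit 9) 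
(.lf (nat_lit 542967) (.g (nat_lit 1374) (.e (nat_lit 106240) (nat_lit 24) (.e (nat_lit 409646) (nat_lit 18) (.e (nat_lit 303117) (nat_lit 2) (.e (nat_lit 196672) (nat_lit 15) .nil)))) (.g (nat_lit 0) (.e (nat_lit 274635) (nat_lit 0) .nil) .nil))) 
(.lf (nat_lit 543479) (.g (nat_lit 2852) (.e (nat_lit 98366) (nat_lit 27) (.e (nat_lit 434231) (nat_lit 23) (.e (nat_lit 532513) (nat_lit 3) (.e (nat_lit 114714) (nat_lit 22) (.e (nat_lit 90163) (nat_lit 12) (.e (nat_lit 163850) (nat_lit 0) (.e (nat_lit 5939) (nat_lit 322) (.e (nat_lit 57379) (nat_lit 3) .nil)))))))) (.g (nat_lit 1) (.e (nat_lit 275257) (nat_lit 0) .nil) .nil)))) (.nd (nat_lit 9) 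
(.lf (nat_lit 543223) (.g (nat_lit 1391) (.e (nat_lit 98363) (nat_lit 26) (.e (nat_lit 426321) (nat_lit 13) (.e (nat_lit 483363) (nat_lit 18) (.e (nat_lit 57688) (nat_lit 156) (.e (nat_lit 171776) (nat_lit 12) .nil))))) (.g (nat_lit 0) (.e (nat_lit 274955) (nat_lit 0) .nil) .nil))) 
(.lf (nat_lit 543735) (.g (nat_lit 3986) (.e (nat_lit 98367) (nat_lit 27) (.e (nat_lit 434247) (nat_lit 28) (.e (nat_lit 573489) (nat_lit 14) (.e (nat_lit 73755) (nat_lit 8) (.e (nat_lit 557119) (nat_lit 18) (.e (nat_lit 2797) (nat_lit 180) (.e (nat_lit 311040) (nat_lit 18) .nil))))))) (.g (nat_lit 1) (.e (nat_lit 275570) (nat_lit 0) .nil) .nil))))))))) 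
(.nd (nat_lit 4) (.nd (nat_lit 5) (.nd (nat_lit 6) (.nd (nat_lit 7) (.nd (nat_lit 8) 
(.nd (nat_lit 9) 
(.lf (nat_lit 542735) (.g (nat_lit 4042) (.e (nat_lit 98349) (nat_lit 24) (.e (nat_lit 409645) (nat_lit 18) (.e (nat_lit 303117) (nat_lit 2) (.e (nat_lit 196672) (nat_lit 15) (.e (nat_lit 81956) (nat_lit 23) .nil))))) (.g (nat_lit 1) (.e (nat_lit 274368) (nat_lit 0) .nil) .nil))) 
(.lf (nat_lit 543247) (.g (nat_lit 2265) (.e (nat_lit 98365) (nat_lit 26) (.e (nat_lit 426139) (nat_lit 3) (.e (nat_lit 204830) (nat_lit 18) (.e (nat_lit 57689) (nat_lit 156) (.e (nat_lit 163875) (nat_lit 3) .nil))))) (.g (nat_lit 0) (.e (nat_lit 274992) (nat_lit 0) .nil) .nil)))) (.nd (nat_lit 9) 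
(.lf (nat_lit 542991) (.g (nat_lit 2191) (.e (nat_lit 98354) (nat_lit 26) (.e (nat_lit 426140) (nat_lit 3) (.e (nat_lit 204838) (nat_lit 20) (.e (nat_lit 114718) (nat_lit 23) (.e (nat_lit 98334) (nat_lit 18) .nil))))) (.g (nat_lit 0) (.e (nat_lit 274695) (nat_lit 0) .nil) .nil))) 
(.lf (nat_lit 543503) (.g (nat_lit 1628) (.e (nat_lit 98366) (nat_lit 27) (.e (nat_lit 434231) (nat_lit 23) (.e (nat_lit 532515) (nat_lit 3) (.e (nat_lit 114719) (nat_lit 23) .nil)))) (.g (nat_lit 0) (.e (nat_lit 275282) (nat_lit 0) .nil) .nil))))) (.nd (nat_lit 8) (.nd (nat_lit 9) 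
(.lf (nat_lit 542863) (.g (nat_lit 3244) (.e (nat_lit 98350) (nat_lit 24) (.e (nat_lit 409646) (nat_lit 18) (.e (nat_lit 303119) (nat_lit 3) (.e (nat_lit 204855) (nat_lit 26) (.e (nat_lit 336097) (nat_lit 9) (.e (nat_lit 336020) (nat_lit 3) .nil)))))) (.g (nat_lit 1) (.e (nat_lit 274512) (nat_lit 0) .nil) .nil))) 
(.lf (nat_lit 543375) (.g (nat_lit 3602) (.e (nat_lit 98365) (nat_lit 26) (.e (nat_lit 426325) (nat_lit 13) (.e (nat_lit 483337) (nat_lit 9) (.e (nat_lit 426108) (nat_lit 1) (.e (nat_lit 164401) (nat_lit 256) (.e (nat_lit 57377) (nat_lit 3) .nil)))))) (.g (nat_lit 1) (.e (nat_lit 275123) (nat_lit 0) .nil) .nil)))) (.nd (nat_lit 9) 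
(.lf (nat_lit 543119) (.g (nat_lit 5271) (.e (nat_lit 98359) (nat_lit 26) (.e (nat_lit 426286) (nat_lit 10) (.e (nat_lit 434242) (nat_lit 28) (.e (nat_lit 573474) (nat_lit 12) (.e (nat_lit 57572) (nat_lit 54) (.e (nat_lit 770072) (nat_lit 8) (.e (nat_lit 65569) (nat_lit 3) .nil))))))) (.g (nat_lit 1) (.e (nat_lit 274839) (nat_lit 0) .nil) .nil))) 
(.lf (nat_lit 543631) (.g (nat_lit 3018) (.e (nat_lit 98367) (nat_lit 27) (.e (nat_lit 434231) (nat_lit 23) (.e (nat_lit 532513) (nat_lit 3) (.e (nat_lit 114719) (nat_lit 23) (.e (nat_lit 98333) (nat_lit 18) (.e (nat_lit 164398) (nat_lit 256) (.e (nat_lit 57378) (nat_lit 3) .nil))))))) (.g (nat_lit 1) (.e (nat_lit 275456) (nat_lit 0) .nil) .nil)))))) 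
(.nd (nat_lit 7) (.nd (nat_lit 8) (.nd (nat_lit 9) 
(.lf (nat_lit 542799) (.g (nat_lit 462) (.e (nat_lit 98350) (nat_lit 24) (.e (nat_lit 409616) (nat_lit 10) (.e (nat_lit 5627) (nat_lit 312) .nil))) (.g (nat_lit 0) (.e (nat_lit 274438) (nat_lit 0) .nil) .nil))) 
(.lf (nat_lit 543311) (.g (nat_lit 3230) (.e (nat_lit 98365) (nat_lit 26) (.e (nat_lit 426306) (nat_lit 12) (.e (nat_lit 475177) (nat_lit 24) (.e (nat_lit 516124) (nat_lit 2) (.e (nat_lit 213030) (nat_lit 11) (.e (nat_lit 24608) (nat_lit 3) .nil)))))) (.g (nat_lit 1) (.e (nat_lit 275059) (nat_lit 0) .nil) .nil)))) (.nd (nat_lit 9) 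
(.lf (nat_lit 543055) (.g (nat_lit 1544) (.e (nat_lit 98357) (nat_lit 26) (.e (nat_lit 426434) (nat_lit 18) (.e (nat_lit 98384) (nat_lit 32) (.e (nat_lit 475177) (nat_lit 24) (.e (nat_lit 516148) (nat_lit 9) (.e (nat_lit 426436) (nat_lit 18) .nil)))))) (.g (nat_lit 1) (.e (nat_lit 274769) (nat_lit 0) .nil) .nil))) 
(.lf (nat_lit 543567) (.g (nat_lit 3581) (.e (nat_lit 98366) (nat_lit 27) (.e (nat_lit 434247) (nat_lit 28) (.e (nat_lit 573489) (nat_lit 14) (.e (nat_lit 73755) (nat_lit 8) (.e (nat_lit 557111) (nat_lit 16) (.e (nat_lit 229379) (nat_lit 0) (.e (nat_lit 5939) (nat_lit 322) (.e (nat_lit 57379) (nat_lit 3) .nil)))))))) (.g (nat_lit 1) (.e (nat_lit 275360) (nat_lit 0) .nil) .nil))))) 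
(.nd (nat_lit 8) (.nd (nat_lit 9) 
(.lf (nat_lit 542927) (.g (nat_lit 1174) (.e (nat_lit 98350) (nat_lit 24) (.e (nat_lit 409649) (nat_lit 18) (.e (nat_lit 303112) (nat_lit 0) (.e (nat_lit 3252) (nat_lit 197) .nil)))) (.g (nat_lit 0) (.e (nat_lit 274580) (nat_lit 0) .nil) .nil))) 
(.lf (nat_lit 543439) (.g (nat_lit 2483) (.e (nat_lit 98366) (nat_lit 27) (.e (nat_lit 434231) (nat_lit 23) (.e (nat_lit 532499) (nat_lit 1) (.e (nat_lit 57652) (nat_lit 152) .nil)))) (.g (nat_lit 0) (.e (nat_lit 275206) (nat_lit 0) .nil) .nil)))) (.nd (nat_lit 9) 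
(.lf (nat_lit 543183) (.g (nat_lit 3062) (.e (nat_lit 98362) (nat_lit 26) (.e (nat_lit 426285) (nat_lit 10) (.e (nat_lit 434238) (nat_lit 25) (.e (nat_lit 548913) (nat_lit 18) (.e (nat_lit 172126) (nat_lit 14) .nil))))) (.g (nat_lit 0) (.e (nat_lit 274907) (nat_lit 0) .nil) .nil))) 
(.lf (nat_lit 543695) (.g (nat_lit 2085) (.e (nat_lit 98367) (nat_lit 27) (.e (nat_lit 434245) (nat_lit 28) (.e (nat_lit 573488) (nat_lit 14) (.e (nat_lit 73755) (nat_lit 8) (.e (nat_lit 557119) (nat_lit 18) (.e (nat_lit 2817) (nat_lit 181) (.e (nat_lit 319232) (nat_lit 18) .nil))))))) (.g (nat_lit 1) (.e (nat_lit 275525) (nat_lit 0) .nil) .nil))))))) 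
(.nd (nat_lit 6) (.nd (nat_lit 7) (.nd (nat_lit 8) (.nd (nat_lit 9) 
(.lf (nat_lit 542767) (.g (nat_lit 2784) (.e (nat_lit 98349) (nat_lit 24) (.e (nat_lit 409646) (nat_lit 18) (.e (nat_lit 303119) (nat_lit 3) (.e (nat_lit 204855) (nat_lit 26) (.e (nat_lit 336097) (nat_lit 9) (.e (nat_lit 336020) (nat_lit 3) .nil)))))) (.g (nat_lit 1) (.e (nat_lit 274403) (nat_lit 0) .nil) .nil))) 
(.lf (nat_lit 543279) (.g (nat_lit 2508) (.e (nat_lit 98365) (nat_lit 26) (.e (nat_lit 426188) (nat_lit 9) (.e (nat_lit 426564) (nat_lit 34) (.e (nat_lit 393252) (nat_lit 18) (.e (nat_lit 164399) (nat_lit 256) (.e (nat_lit 57378) (nat_lit 3) .nil)))))) (.g (nat_lit 1) (.e (nat_lit 275024) (nat_lit 0) .nil) .nil)))) (.nd (nat_lit 9) 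
(.lf (nat_lit 543023) (.g (nat_lit 3741) (.e (nat_lit 98356) (nat_lit 26) (.e (nat_lit 426436) (nat_lit 18) (.e (nat_lit 98335) (nat_lit 18) (.e (nat_lit 164330) (nat_lit 230) (.e (nat_lit 163857) (nat_lit 0) (.e (nat_lit 3253) (nat_lit 197) (.e (nat_lit 532515) (nat_lit 3) (.e (nat_lit 114719) (nat_lit 23) .nil)))))))) (.g (nat_lit 1) (.e (nat_lit 274734) (nat_lit 0) .nil) .nil))) 
(.lf (nat_lit 543535) (.g (nat_lit 3854) (.e (nat_lit 98366) (nat_lit 27) (.e (nat_lit 434244) (nat_lit 28) (.e (nat_lit 573487) (nat_lit 14) (.e (nat_lit 73753) (nat_lit 8) (.e (nat_lit 557090) (nat_lit 12) (.e (nat_lit 163843) (nat_lit 0) (.e (nat_lit 5940) (nat_lit 322) (.e (nat_lit 57379) (nat_lit 3) .nil)))))))) (.g (nat_lit 1) (.e (nat_lit 275324) (nat_lit 0) .nil) .nil))))) 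
(.nd (nat_lit 8) (.nd (nat_lit 9) 
(.lf (nat_lit 542895) (.g (nat_lit 2377) (.e (nat_lit 98350) (nat_lit 24) (.e (nat_lit 409648) (nat_lit 18) (.e (nat_lit 303117) (nat_lit 2) (.e (nat_lit 196666) (nat_lit 13) (.e (nat_lit 65596) (nat_lit 9) (.e (nat_lit 343808) (nat_lit 3) .nil)))))) (.g (nat_lit 1) (.e (nat_lit 274546) (nat_lit 0) .nil) .nil))) 
(.lf (nat_lit 543407) (.g (nat_lit 3012) (.e (nat_lit 98365) (nat_lit 26) (.e (nat_lit 426326) (nat_lit 13) (.e (nat_lit 483341) (nat_lit 9) (.e (nat_lit 426107) (nat_lit 1) (.e (nat_lit 164403) (nat_lit 256) (.e (nat_lit 57377) (nat_lit 3) .nil)))))) (.g (nat_lit 1) (.e (nat_lit 275155) (nat_lit 0) .nil) .nil)))) (.nd (nat_lit 9) 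
(.lf (nat_lit 543151) (.g (nat_lit 3124) (.e (nat_lit 98359) (nat_lit 26) (.e (nat_lit 426286) (nat_lit 10) (.e (nat_lit 434247) (nat_lit 28) (.e (nat_lit 573478) (nat_lit 12) (.e (nat_lit 57574) (nat_lit 55) (.e (nat_lit 778465) (nat_lit 11) (.e (nat_lit 32512) (nat_lit 3) .nil))))))) (.g (nat_lit 1) (.e (nat_lit 274871) (nat_lit 0) .nil) .nil))) 
(.lf (nat_lit 543663) (.g (nat_lit 1274) (.e (nat_lit 98367) (nat_lit 27) (.e (nat_lit 434244) (nat_lit 28) (.e (nat_lit 573480) (nat_lit 13) (.e (nat_lit 65568) (nat_lit 2) .nil)))) (.g (nat_lit 0) (.e (nat_lit 275493) (nat_lit 0) .nil) .nil)))))) (.nd (nat_lit 7) (.nd (nat_lit 8) (.nd (nat_lit 9) 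
(.lf (nat_lit 542831) (.g (nat_lit 1793) (.e (nat_lit 98350) (nat_lit 24) (.e (nat_lit 409645) (nat_lit 18) (.e (nat_lit 303117) (nat_lit 2) (.e (nat_lit 196666) (nat_lit 13) .nil)))) (.g (nat_lit 0) (.e (nat_lit 274480) (nat_lit 0) .nil) .nil))) 
(.lf (nat_lit 543343) (.g (nat_lit 3133) (.e (nat_lit 98365) (nat_lit 26) (.e (nat_lit 426306) (nat_lit 12) (.e (nat_lit 475179) (nat_lit 24) (.e (nat_lit 516127) (nat_lit 2) (.e (nat_lit 213032) (nat_lit 11) (.e (nat_lit 24608) (nat_lit 3) .nil)))))) (.g (nat_lit 1) (.e (nat_lit 275091) (nat_lit 0) .nil) .nil)))) (.nd (nat_lit 9) 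
(.lf (nat_lit 543087) (.g (nat_lit 2430) (.e (nat_lit 98358) (nat_lit 26) (.e (nat_lit 426320) (nat_lit 12) (.e (nat_lit 475178) (nat_lit 24) (.e (nat_lit 516126) (nat_lit 2) (.e (nat_lit 213032) (nat_lit 11) (.e (nat_lit 24609) (nat_lit 3) .nil)))))) (.g (nat_lit 1) (.e (nat_lit 274804) (nat_lit 0) .nil) .nil))) 
(.lf (nat_lit 543599) (.g (nat_lit 447) (.e (nat_lit 98367) (nat_lit 27) (.e (nat_lit 434231) (nat_lit 23) (.e (nat_lit 532483) (nat_lit 0) .nil))) (.g (nat_lit 0) (.e (nat_lit 275407) (nat_lit 0) .nil) .nil))))) (.nd (nat_lit 8) (.nd (nat_lit 9) 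
(.lf (nat_lit 542959) (.g (nat_lit 1231) (.e (nat_lit 98350) (nat_lit 24) (.e (nat_lit 409649) (nat_lit 18) (.e (nat_lit 303119) (nat_lit 3) (.e (nat_lit 204855) (nat_lit 26) .nil)))) (.g (nat_lit 0) (.e (nat_lit 274613) (nat_lit 0) .nil) .nil))) 
(.lf (nat_lit 543471) (.g (nat_lit 2217) (.e (nat_lit 98366) (nat_lit 27) (.e (nat_lit 434231) (nat_lit 23) (.e (nat_lit 532503) (nat_lit 1) (.e (nat_lit 57688) (nat_lit 156) .nil)))) (.g (nat_lit 0) (.e (nat_lit 275249) (nat_lit 0) .nil) .nil)))) (.nd (nat_lit 9) 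
(.lf (nat_lit 543215) (.g (nat_lit 2051) (.e (nat_lit 98363) (nat_lit 26) (.e (nat_lit 426321) (nat_lit 13) (.e (nat_lit 483337) (nat_lit 9) (.e (nat_lit 426107) (nat_lit 1) (.e (nat_lit 164401) (nat_lit 256) (.e (nat_lit 57377) (nat_lit 3) .nil)))))) (.g (nat_lit 1) (.e (nat_lit 274947) (nat_lit 0) .nil) .nil))) 
(.lf (nat_lit 543727) (.g (nat_lit 3473) (.e (nat_lit 98367) (nat_lit 27) (.e (nat_lit 434247) (nat_lit 28) (.e (nat_lit 573489) (nat_lit 14) (.e (nat_lit 73755) (nat_lit 8) (.e (nat_lit 557090) (nat_lit 12) (.e (nat_lit 163841) (nat_lit 0) (.e (nat_lit 5943) (nat_lit 322) (.e (nat_lit 57379) (nat_lit 3) .nil)))))))) (.g (nat_lit 1) (.e (nat_lit 275561) (nat_lit 0) .nil) .nil)))))))) 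
(.nd (nat_lit 5) (.nd (nat_lit 6) (.nd (nat_lit 7) (.nd (nat_lit 8) (.nd (nat_lit 9) 
(.lf (nat_lit 542751) (.g (nat_lit 2619) (.e (nat_lit 98349) (nat_lit 24) (.e (nat_lit 409646) (nat_lit 18) (.e (nat_lit 303112) (nat_lit 0) (.e (nat_lit 3252) (nat_lit 197) (.e (nat_lit 532534) (nat_lit 9) (.e (nat_lit 336115) (nat_lit 9) (.e (nat_lit 343808) (nat_lit 3) .nil))))))) (.g (nat_lit 1) (.e (nat_lit 274385) (nat_lit 0) .nil) .nil))) 
(.lf (nat_lit 543263) (.g (nat_lit 346) (.e (nat_lit 98365) (nat_lit 26) (.e (nat_lit 426188) (nat_lit 9) (.e (nat_lit 426426) (nat_lit 16) .nil))) (.g (nat_lit 0) (.e (nat_lit 275008) (nat_lit 0) .nil) .nil)))) (.nd (nat_lit 9) 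
(.lf (nat_lit 543007) (.g (nat_lit 1522) (.e (nat_lit 98355) (nat_lit 26) (.e (nat_lit 426131) (nat_lit 3) (.e (nat_lit 204837) (nat_lit 20) (.e (nat_lit 114718) (nat_lit 23) .nil)))) (.g (nat_lit 0) (.e (nat_lit 274715) (nat_lit 0) .nil) .nil))) 
(.lf (nat_lit 543519) (.g (nat_lit 1602) (.e (nat_lit 98366) (nat_lit 27) (.e (nat_lit 434244) (nat_lit 28) (.e (nat_lit 573481) (nat_lit 13) (.e (nat_lit 65568) (nat_lit 2) .nil)))) (.g (nat_lit 0) (.e (nat_lit 275304) (nat_lit 0) .nil) .nil))))) (.nd (nat_lit 8) (.nd (nat_lit 9) 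
(.lf (nat_lit 542879) (.g (nat_lit 2247) (.e (nat_lit 98350) (nat_lit 24) (.e (nat_lit 409647) (nat_lit 18) (.e (nat_lit 303119) (nat_lit 3) (.e (nat_lit 204855) (nat_lit 26) (.e (nat_lit 336097) (nat_lit 9) .nil))))) (.g (nat_lit 0) (.e (nat_lit 274528) (nat_lit 0) .nil) .nil))) 
(.lf (nat_lit 543391) (.g (nat_lit 3466) (.e (nat_lit 98365) (nat_lit 26) (.e (nat_lit 426325) (nat_lit 13) (.e (nat_lit 483363) (nat_lit 18) (.e (nat_lit 57686) (nat_lit 156) (.e (nat_lit 163903) (nat_lit 12) (.e (nat_lit 426438) (nat_lit 18) .nil)))))) (.g (nat_lit 1) (.e (nat_lit 275139) (nat_lit 0) .nil) .nil)))) (.nd (nat_lit 9) 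
(.lf (nat_lit 543135) (.g (nat_lit 4230) (.e (nat_lit 98359) (nat_lit 26) (.e (nat_lit 426286) (nat_lit 10) (.e (nat_lit 434245) (nat_lit 28) (.e (nat_lit 573474) (nat_lit 12) (.e (nat_lit 57574) (nat_lit 55) (.e (nat_lit 778466) (nat_lit 11) (.e (nat_lit 32512) (nat_lit 3) .nil))))))) (.g (nat_lit 1) (.e (nat_lit 274855) (nat_lit 0) .nil) .nil))) 
(.lf (nat_lit 543647) (.g (nat_lit 2477) (.e (nat_lit 98367) (nat_lit 27) (.e (nat_lit 434231) (nat_lit 23) (.e (nat_lit 532514) (nat_lit 3) (.e (nat_lit 114719) (nat_lit 23) (.e (nat_lit 98335) (nat_lit 18) (.e (nat_lit 164401) (nat_lit 256) (.e (nat_lit 57378) (nat_lit 3) .nil))))))) (.g (nat_lit 1) (.e (nat_lit 275474) (nat_lit 0) .nil) .nil)))))) 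
(.nd (nat_lit 7) (.nd (nat_lit 8) (.nd (nat_lit 9) 
(.lf (nat_lit 542815) (.g (nat_lit 1459) (.e (nat_lit 98350) (nat_lit 24) (.e (nat_lit 409623) (nat_lit 10) (.e (nat_lit 5664) (nat_lit 312) (.e (nat_lit 2679) (nat_lit 168) (.e (nat_lit 204852) (nat_lit 26) .nil))))) (.g (nat_lit 0) (.e (nat_lit 274462) (nat_lit 0) .nil) .nil))) 
(.lf (nat_lit 543327) (.g (nat_lit 3077) (.e (nat_lit 98365) (nat_lit 26) (.e (nat_lit 426306) (nat_lit 12) (.e (nat_lit 475177) (nat_lit 24) (.e (nat_lit 516131) (nat_lit 3) (.e (nat_lit 221193) (nat_lit 11) (.e (nat_lit 336027) (nat_lit 3) .nil)))))) (.g (nat_lit 1) (.e (nat_lit 275075) (nat_lit 0) .nil) .nil)))) (.nd (nat_lit 9) 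
(.lf (nat_lit 543071) (.g (nat_lit 2181) (.e (nat_lit 98357) (nat_lit 26) (.e (nat_lit 426436) (nat_lit 18) (.e (nat_lit 98385) (nat_lit 32) (.e (nat_lit 475177) (nat_lit 24) (.e (nat_lit 516146) (nat_lit 9) (.e (nat_lit 426438) (nat_lit 18) .nil)))))) (.g (nat_lit 1) (.e (nat_lit 274787) (nat_lit 0) .nil) .nil))) 
(.lf (nat_lit 543583) (.g (nat_lit 3289) (.e (nat_lit 98366) (nat_lit 27) (.e (nat_lit 434248) (nat_lit 28) (.e (nat_lit 573487) (nat_lit 14) (.e (nat_lit 73753) (nat_lit 8) (.e (nat_lit 557090) (nat_lit 12) (.e (nat_lit 163844) (nat_lit 0) (.e (nat_lit 5940) (nat_lit 322) (.e (nat_lit 57379) (nat_lit 3) .nil)))))))) (.g (nat_lit 1) (.e (nat_lit 275379) (nat_lit 0) .nil) .nil))))) 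
(.nd (nat_lit 8) (.nd (nat_lit 9) 
(.lf (nat_lit 542943) (.g (nat_lit 3224) (.e (nat_lit 98350) (nat_lit 24) (.e (nat_lit 409649) (nat_lit 18) (.e (nat_lit 303117) (nat_lit 2) (.e (nat_lit 196681) (nat_lit 17) (.e (nat_lit 131108) (nat_lit 9) (.e (nat_lit 336019) (nat_lit 3) .nil)))))) (.g (nat_lit 1) (.e (nat_lit 274596) (nat_lit 0) .nil) .nil))) 
(.lf (nat_lit 543455) (.g (nat_lit 2421) (.e (nat_lit 98366) (nat_lit 27) (.e (nat_lit 434231) (nat_lit 23) (.e (nat_lit 532500) (nat_lit 1) (.e (nat_lit 57669) (nat_lit 152) .nil)))) (.g (nat_lit 0) (.e (nat_lit 275230) (nat_lit 0) .nil) .nil)))) (.nd (nat_lit 9) 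
(.lf (nat_lit 543199) (.g (nat_lit 2075) (.e (nat_lit 98363) (nat_lit 26) (.e (nat_lit 426318) (nat_lit 12) (.e (nat_lit 475177) (nat_lit 24) (.e (nat_lit 516129) (nat_lit 3) (.e (nat_lit 221193) (nat_lit 11) (.e (nat_lit 336026) (nat_lit 3) .nil)))))) (.g (nat_lit 1) (.e (nat_lit 274930) (nat_lit 0) .nil) .nil))) 
(.lf (nat_lit 543711) (.g (nat_lit 2174) (.e (nat_lit 98367) (nat_lit 27) (.e (nat_lit 434247) (nat_lit 28) (.e (nat_lit 573484) (nat_lit 13) (.e (nat_lit 65568) (nat_lit 2) (.e (nat_lit 98048) (nat_lit 0) .nil))))) (.g (nat_lit 0) (.e (nat_lit 275543) (nat_lit 0) .nil) .nil))))))) (.nd (nat_lit 6) (.nd (nat_lit 7) (.nd (nat_lit 8) (.nd (nat_lit 9) 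
(.lf (nat_lit 542783) (.g (nat_lit 3838) (.e (nat_lit 98349) (nat_lit 24) (.e (nat_lit 409648) (nat_lit 18) (.e (nat_lit 303119) (nat_lit 3) (.e (nat_lit 204855) (nat_lit 26) (.e (nat_lit 336099) (nat_lit 9) (.e (nat_lit 336028) (nat_lit 3) .nil)))))) (.g (nat_lit 1) (.e (nat_lit 274419) (nat_lit 0) .nil) .nil))) 
(.lf (nat_lit 543295) (.g (nat_lit 2779) (.e (nat_lit 98365) (nat_lit 26) (.e (nat_lit 426200) (nat_lit 9) (.e (nat_lit 426131) (nat_lit 3) (.e (nat_lit 204845) (nat_lit 24) (.e (nat_lit 319530) (nat_lit 16) (.e (nat_lit 286735) (nat_lit 3) .nil)))))) (.g (nat_lit 1) (.e (nat_lit 275040) (nat_lit 0) .nil) .nil)))) (.nd (nat_lit 9) 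
(.lf (nat_lit 543039) (.g (nat_lit 2349) (.e (nat_lit 98356) (nat_lit 26) (.e (nat_lit 426438) (nat_lit 18) (.e (nat_lit 98334) (nat_lit 18) (.e (nat_lit 164330) (nat_lit 230) (.e (nat_lit 163874) (nat_lit 3) (.e (nat_lit 204837) (nat_lit 20) (.e (nat_lit 114717) (nat_lit 23) .nil))))))) (.g (nat_lit 1) (.e (nat_lit 274751) (nat_lit 0) .nil) .nil))) 
(.lf (nat_lit 543551) (.g (nat_lit 2081) (.e (nat_lit 98366) (nat_lit 27) (.e (nat_lit 434245) (nat_lit 28) (.e (nat_lit 573487) (nat_lit 14) (.e (nat_lit 73753) (nat_lit 8) (.e (nat_lit 557119) (nat_lit 18) (.e (nat_lit 2798) (nat_lit 180) (.e (nat_lit 311040) (nat_lit 18) .nil))))))) (.g (nat_lit 1) (.e (nat_lit 275342) (nat_lit 0) .nil) .nil))))) (.nd (nat_lit 8) (.nd (nat_lit 9) 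
(.lf (nat_lit 542911) (.g (nat_lit 1302) (.e (nat_lit 98350) (nat_lit 24) (.e (nat_lit 409648) (nat_lit 18) (.e (nat_lit 303118) (nat_lit 3) (.e (nat_lit 204855) (nat_lit 26) .nil)))) (.g (nat_lit 0) (.e (nat_lit 274562) (nat_lit 0) .nil) .nil))) 
(.lf (nat_lit 543423) (.g (nat_lit 3289) (.e (nat_lit 106240) (nat_lit 26) (.e (nat_lit 426211) (nat_lit 9) (.e (nat_lit 426125) (nat_lit 2) (.e (nat_lit 196661) (nat_lit 12) (.e (nat_lit 57711) (nat_lit 176) .nil))))) (.g (nat_lit 0) (.e (nat_lit 275171) (nat_lit 0) .nil) .nil)))) (.nd (nat_lit 9) 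
(.lf (nat_lit 543167) (.g (nat_lit 4721) (.e (nat_lit 98359) (nat_lit 26) (.e (nat_lit 426286) (nat_lit 10) (.e (nat_lit 434248) (nat_lit 28) (.e (nat_lit 573475) (nat_lit 12) (.e (nat_lit 57574) (nat_lit 55) (.e (nat_lit 778466) (nat_lit 11) (.e (nat_lit 24607) (nat_lit 3) .nil))))))) (.g (nat_lit 1) (.e (nat_lit 274887) (nat_lit 0) .nil) .nil))) 
(.lf (nat_lit 543679) (.g (nat_lit 3211) (.e (nat_lit 98367) (nat_lit 27) (.e (nat_lit 434244) (nat_lit 28) (.e (nat_lit 573488) (nat_lit 14) (.e (nat_lit 73755) (nat_lit 8) (.e (nat_lit 557090) (nat_lit 12) (.e (nat_lit 163841) (nat_lit 0) (.e (nat_lit 5943) (nat_lit 322) (.e (nat_lit 57379) (nat_lit 3) .nil)))))))) (.g (nat_lit 1) (.e (nat_lit 275509) (nat_lit 0) .nil) .nil)))))) 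
(.nd (nat_lit 7) (.nd (nat_lit 8) (.nd (nat_lit 9) 
(.lf (nat_lit 542847) (.g (nat_lit 1486) (.e (nat_lit 98350) (nat_lit 24) (.e (nat_lit 409646) (nat_lit 18) (.e (nat_lit 303117) (nat_lit 2) (.e (nat_lit 196668) (nat_lit 14) .nil)))) (.g (nat_lit 0) (.e (nat_lit 274496) (nat_lit 0) .nil) .nil))) 
(.lf (nat_lit 543359) (.g (nat_lit 2968) (.e (nat_lit 98365) (nat_lit 26) (.e (nat_lit 426325) (nat_lit 13) (.e (nat_lit 483336) (nat_lit 9) (.e (nat_lit 426100) (nat_lit 1) (.e (nat_lit 164403) (nat_lit 256) (.e (nat_lit 57377) (nat_lit 3) .nil)))))) (.g (nat_lit 1) (.e (nat_lit 275107) (nat_lit 0) .nil) .nil)))) (.nd (nat_lit 9) 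
(.lf (nat_lit 543103) (.g (nat_lit 948) (.e (nat_lit 98358) (nat_lit 26) (.e (nat_lit 426436) (nat_lit 18) (.e (nat_lit 98334) (nat_lit 18) .nil))) (.g (nat_lit 0) (.e (nat_lit 274820) (nat_lit 0) .nil) .nil))) 
(.lf (nat_lit 543615) (.g (nat_lit 4422) (.e (nat_lit 98367) (nat_lit 27) (.e (nat_lit 434231) (nat_lit 23) (.e (nat_lit 532500) (nat_lit 1) (.e (nat_lit 57691) (nat_lit 156) (.e (nat_lit 163875) (nat_lit 3) (.e (nat_lit 204838) (nat_lit 20) (.e (nat_lit 114718) (nat_lit 23) .nil))))))) (.g (nat_lit 1) (.e (nat_lit 275437) (nat_lit 0) .nil) .nil))))) (.nd (nat_lit 8) (.nd (nat_lit 9) 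
(.lf (nat_lit 542975) (.g (nat_lit 3271) (.e (nat_lit 98353) (nat_lit 25) (.e (nat_lit 417813) (nat_lit 9) (.e (nat_lit 311315) (nat_lit 3) (.e (nat_lit 204845) (nat_lit 24) (.e (nat_lit 319531) (nat_lit 16) (.e (nat_lit 286735) (nat_lit 3) .nil)))))) (.g (nat_lit 1) (.e (nat_lit 274661) (nat_lit 0) .nil) .nil))) 
(.lf (nat_lit 543487) (.g (nat_lit 454) (.e (nat_lit 98366) (nat_lit 27) (.e (nat_lit 434231) (nat_lit 23) (.e (nat_lit 532514) (nat_lit 3) .nil))) (.g (nat_lit 0) (.e (nat_lit 275265) (nat_lit 0) .nil) .nil)))) (.nd (nat_lit 9) 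
(.lf (nat_lit 543231) (.g (nat_lit 2860) (.e (nat_lit 98364) (nat_lit 26) (.e (nat_lit 426316) (nat_lit 12) (.e (nat_lit 475185) (nat_lit 29) (.e (nat_lit 557098) (nat_lit 13) .nil)))) (.g (nat_lit 0) (.e (nat_lit 274968) (nat_lit 0) .nil) .nil))) 
(.lf (nat_lit 543743) (.g (nat_lit 1692) (.e (nat_lit 98367) (nat_lit 27) (.e (nat_lit 434248) (nat_lit 28) (.e (nat_lit 573482) (nat_lit 13) (.e (nat_lit 65541) (nat_lit 0) .nil)))) (.g (nat_lit 0) (.e (nat_lit 275581) (nat_lit 0) .nil) .nil)))))))))))))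

noncomputable def tv5591 : DT := (.nd (nat_lit 0) (.nd (nat_lit 1) (.nd (nat_lit 2) (.nd (nat_lit 3) (.nd (nat_lit 4) (.nd (nat_lit 5) (.nd (nat_lit 6) (.nd (nat_lit 7) (.nd (nat_lit 8) (.nd (nat_lit 9) 
(.lf (nat_lit 543744) (.g (nat_lit 1574) (.e (nat_lit 98367) (nat_lit 27) (.e (nat_lit 434248) (nat_lit 28) (.e (nat_lit 573482) (nat_lit 13) (.e (nat_lit 65566) (nat_lit 2) .nil)))) (.g (nat_lit 0) (.e (nat_lit 275582) (nat_lit 0) .nil) .nil))) 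
(.lf (nat_lit 544256) (.g (nat_lit 2420) (.e (nat_lit 98384) (nat_lit 32) (.e (nat_lit 475179) (nat_lit 24) (.e (nat_lit 516119) (nat_lit 1) (.e (nat_lit 164326) (nat_lit 230) (.e (nat_lit 163875) (nat_lit 3) .nil))))) (.g (nat_lit 0) (.e (nat_lit 276295) (nat_lit 0) .nil) .nil)))) (.nd (nat_lit 9) 
(.lf (nat_lit 544000) (.g (nat_lit 2910) (.e (nat_lit 98373) (nat_lit 29) (.e (nat_lit 450588) (nat_lit 10) (.e (nat_lit 573457) (nat_lit 9) (.e (nat_lit 359) (nat_lit 30) (.e (nat_lit 409603) (nat_lit 0) (.e (nat_lit 5245) (nat_lit 298) (.e (nat_lit 1256) (nat_lit 92) .nil))))))) (.g (nat_lit 1) (.e (nat_lit 275979) (nat_lit 0) .nil) .nil))) 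
(.lf (nat_lit 544512) (.g (nat_lit 1849) (.e (nat_lit 114432) (nat_lit 6) (.e (nat_lit 188453) (nat_lit 24) (.e (nat_lit 229680) (nat_lit 244) (.e (nat_lit 163919) (nat_lit 14) (.e (nat_lit 450304) (nat_lit 4) .nil))))) (.g (nat_lit 0) (.e (nat_lit 276966) (nat_lit 0) .nil) .nil))))) (.nd (nat_lit 8) (.nd (nat_lit 9) 
(.lf (nat_lit 543872) (.g (nat_lit 2094) (.e (nat_lit 98370) (nat_lit 28) (.e (nat_lit 442374) (nat_lit 0) (.e (nat_lit 1800) (nat_lit 119) (.e (nat_lit 516124) (nat_lit 2) (.e (nat_lit 213030) (nat_lit 11) (.e (nat_lit 24609) (nat_lit 3) .nil)))))) (.g (nat_lit 1) (.e (nat_lit 275827) (nat_lit 0) .nil) .nil))) 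
(.lf (nat_lit 544384) (.g (nat_lit 3641) (.e (nat_lit 98386) (nat_lit 32) (.e (nat_lit 475198) (nat_lit 40) (.e (nat_lit 704589) (nat_lit 3) (.e (nat_lit 163978) (nat_lit 30) (.e (nat_lit 573491) (nat_lit 15) (.e (nat_lit 89856) (nat_lit 23) .nil)))))) (.g (nat_lit 1) (.e (nat_lit 276432) (nat_lit 0) .nil) .nil)))) (.nd (nat_lit 9) 
(.lf (nat_lit 544128) (.g (nat_lit 2176) (.e (nat_lit 98381) (nat_lit 31) (.e (nat_lit 466954) (nat_lit 11) (.e (nat_lit 335994) (nat_lit 1) (.e (nat_lit 57692) (nat_lit 156) (.e (nat_lit 163907) (nat_lit 12) (.e (nat_lit 426434) (nat_lit 18) .nil)))))) (.g (nat_lit 1) (.e (nat_lit 276150) (nat_lit 0) .nil) .nil))) 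
(.lf (nat_lit 544640) (.g (nat_lit 1059) (.e (nat_lit 122624) (nat_lit 4) (.e (nat_lit 213030) (nat_lit 11) (.e (nat_lit 24629) (nat_lit 9) (.e (nat_lit 336428) (nat_lit 29) (.e (nat_lit 450304) (nat_lit 5) .nil))))) (.g (nat_lit 0) (.e (nat_lit 277443) (nat_lit 0) .nil) .nil)))))) (.nd (nat_lit 7) (.nd (nat_lit 8) (.nd (nat_lit 9) 
(.lf (nat_lit 543808) (.g (nat_lit 533) (.e (nat_lit 98368) (nat_lit 27) (.e (nat_lit 434247) (nat_lit 28) (.e (nat_lit 573489) (nat_lit 14) .nil))) (.g (nat_lit 0) (.e (nat_lit 275699) (nat_lit 0) .nil) .nil))) 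
(.lf (nat_lit 544320) (.g (nat_lit 1804) (.e (nat_lit 98386) (nat_lit 32) (.e (nat_lit 475177) (nat_lit 24) (.e (nat_lit 516146) (nat_lit 9) (.e (nat_lit 426428) (nat_lit 17) (.e (nat_lit 90125) (nat_lit 9) (.e (nat_lit 2900) (nat_lit 184) (.e (nat_lit 426435) (nat_lit 18) .nil))))))) (.g (nat_lit 1) (.e (nat_lit 276365) (nat_lit 0) .nil) .nil)))) (.nd (nat_lit 9) 
(.lf (nat_lit 544064) (.g (nat_lit 2893) (.e (nat_lit 98379) (nat_lit 31) (.e (nat_lit 466980) (nat_lit 23) (.e (nat_lit 204846) (nat_lit 24) (.e (nat_lit 319534) (nat_lit 16) (.e (nat_lit 286734) (nat_lit 3) .nil))))) (.g (nat_lit 1) (.e (nat_lit 276076) (nat_lit 0) .nil) .nil))) 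
(.lf (nat_lit 544576) (.g (nat_lit 2339) (.e (nat_lit 106517) (nat_lit 9) (.e (nat_lit 1255) (nat_lit 92) (.e (nat_lit 98384) (nat_lit 32) (.e (nat_lit 475177) (nat_lit 24) (.e (nat_lit 516120) (nat_lit 1) .nil))))) (.g (nat_lit 0) (.e (nat_lit 277104) (nat_lit 0) .nil) .nil))))) (.nd (nat_lit 8) (.nd (nat_lit 9) 
(.lf (nat_lit 543936) (.g (nat_lit 2819) (.e (nat_lit 98372) (nat_lit 29) (.e (nat_lit 450586) (nat_lit 10) (.e (nat_lit 573478) (nat_lit 12) (.e (nat_lit 57574) (nat_lit 55) (.e (nat_lit 778466) (nat_lit 11) (.e (nat_lit 32512) (nat_lit 3) .nil)))))) (.g (nat_lit 1) (.e (nat_lit 275912) (nat_lit 0) .nil) .nil))) 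
(.lf (nat_lit 544448) (.g (nat_lit 2482) (.e (nat_lit 114432) (nat_lit 3) (.e (nat_lit 163978) (nat_lit 30) (.e (nat_lit 573493) (nat_lit 15) (.e (nat_lit 81956) (nat_lit 23) .nil)))) (.g (nat_lit 0) (.e (nat_lit 276736) (nat_lit 0) .nil) .nil)))) (.nd (nat_lit 9) 
(.lf (nat_lit 544192) (.g (nat_lit 3431) (.e (nat_lit 98384) (nat_lit 32) (.e (nat_lit 475177) (nat_lit 24) (.e (nat_lit 516115) (nat_lit 1) (.e (nat_lit 164327) (nat_lit 230) (.e (nat_lit 163875) (nat_lit 3) (.e (nat_lit 204836) (nat_lit 20) (.e (nat_lit 114717) (nat_lit 23) .nil))))))) (.g (nat_lit 1) (.e (nat_lit 276231) (nat_lit 0) .nil) .nil))) 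
(.lf (nat_lit 544704) (.g (nat_lit 588) (.e (nat_lit 114694) (nat_lit 11) (.e (nat_lit 426139) (nat_lit 3) (.e (nat_lit 204850) (nat_lit 26) .nil))) (.g (nat_lit 0) (.e (nat_lit 277575) (nat_lit 0) .nil) .nil))))))) (.nd (nat_lit 6) (.nd (nat_lit 7) (.nd (nat_lit 8) (.nd (nat_lit 9) 
(.lf (nat_lit 543776) (.g (nat_lit 4238) (.e (nat_lit 98367) (nat_lit 27) (.e (nat_lit 434248) (nat_lit 28) (.e (nat_lit 573489) (nat_lit 14) (.e (nat_lit 73755) (nat_lit 8) (.e (nat_lit 557119) (nat_lit 18) (.e (nat_lit 2798) (nat_lit 180) (.e (nat_lit 311040) (nat_lit 18) .nil))))))) (.g (nat_lit 1) (.e (nat_lit 275615) (nat_lit 0) .nil) .nil))) 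
(.lf (nat_lit 544288) (.g (nat_lit 1536) (.e (nat_lit 98385) (nat_lit 32) (.e (nat_lit 475177) (nat_lit 24) (.e (nat_lit 516150) (nat_lit 9) (.e (nat_lit 426438) (nat_lit 18) (.e (nat_lit 98363) (nat_lit 26) .nil))))) (.g (nat_lit 0) (.e (nat_lit 276328) (nat_lit 0) .nil) .nil)))) (.nd (nat_lit 9) 
(.lf (nat_lit 544032) (.g (nat_lit 2030) (.e (nat_lit 98375) (nat_lit 30) (.e (nat_lit 458789) (nat_lit 23) (.e (nat_lit 532515) (nat_lit 3) (.e (nat_lit 114718) (nat_lit 23) .nil)))) (.g (nat_lit 0) (.e (nat_lit 276026) (nat_lit 0) .nil) .nil))) 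
(.lf (nat_lit 544544) (.g (nat_lit 1572) (.e (nat_lit 114432) (nat_lit 6) (.e (nat_lit 188455) (nat_lit 24) (.e (nat_lit 229678) (nat_lit 244) (.e (nat_lit 163920) (nat_lit 14) .nil)))) (.g (nat_lit 0) (.e (nat_lit 277006) (nat_lit 0) .nil) .nil))))) (.nd (nat_lit 8) (.nd (nat_lit 9) 
(.lf (nat_lit 543904) (.g (nat_lit 4227) (.e (nat_lit 98372) (nat_lit 29) (.e (nat_lit 450579) (nat_lit 5) (.e (nat_lit 532542) (nat_lit 9) (.e (nat_lit 335988) (nat_lit 1) (.e (nat_lit 57931) (nat_lit 282) (.e (nat_lit 171776) (nat_lit 64) .nil)))))) (.g (nat_lit 1) (.e (nat_lit 275877) (nat_lit 0) .nil) .nil))) 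
(.lf (nat_lit 544416) (.g (nat_lit 3197) (.e (nat_lit 98389) (nat_lit 33) (.e (nat_lit 491546) (nat_lit 9) (.e (nat_lit 336013) (nat_lit 2) (.e (nat_lit 90134) (nat_lit 9) (.e (nat_lit 3098) (nat_lit 192) (.e (nat_lit 491550) (nat_lit 9) (.e (nat_lit 336019) (nat_lit 3) .nil))))))) (.g (nat_lit 1) (.e (nat_lit 276473) (nat_lit 0) .nil) .nil)))) (.nd (nat_lit 9) 
(.lf (nat_lit 544160) (.g (nat_lit 3007) (.e (nat_lit 98381) (nat_lit 31) (.e (nat_lit 466981) (nat_lit 23) (.e (nat_lit 204846) (nat_lit 24) (.e (nat_lit 319535) (nat_lit 17) (.e (nat_lit 294930) (nat_lit 3) .nil))))) (.g (nat_lit 1) (.e (nat_lit 276184) (nat_lit 0) .nil) .nil))) 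
(.lf (nat_lit 544672) (.g (nat_lit 979) (.e (nat_lit 122624) (nat_lit 4) (.e (nat_lit 213032) (nat_lit 11) (.e (nat_lit 24660) (nat_lit 13) (.e (nat_lit 393279) (nat_lit 23) (.e (nat_lit 426445) (nat_lit 20) .nil))))) (.g (nat_lit 0) (.e (nat_lit 277510) (nat_lit 0) .nil) .nil)))))) (.nd (nat_lit 7) (.nd (nat_lit 8) (.nd (nat_lit 9) 
(.lf (nat_lit 543840) (.g (nat_lit 2338) (.e (nat_lit 98368) (nat_lit 27) (.e (nat_lit 434248) (nat_lit 28) (.e (nat_lit 573487) (nat_lit 14) (.e (nat_lit 73753) (nat_lit 8) (.e (nat_lit 557093) (nat_lit 12) .nil))))) (.g (nat_lit 0) (.e (nat_lit 275768) (nat_lit 0) .nil) .nil))) 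
(.lf (nat_lit 544352) (.g (nat_lit 2877) (.e (nat_lit 98386) (nat_lit 32) (.e (nat_lit 475179) (nat_lit 24) (.e (nat_lit 516115) (nat_lit 1) (.e (nat_lit 164325) (nat_lit 230) (.e (nat_lit 163875) (nat_lit 3) .nil))))) (.g (nat_lit 0) (.e (nat_lit 276397) (nat_lit 0) .nil) .nil)))) (.nd (nat_lit 9) 
(.lf (nat_lit 544096) (.g (nat_lit 2186) (.e (nat_lit 98380) (nat_lit 31) (.e (nat_lit 466977) (nat_lit 22) (.e (nat_lit 196681) (nat_lit 17) (.e (nat_lit 131089) (nat_lit 1) (.e (nat_lit 57930) (nat_lit 282) (.e (nat_lit 171776) (nat_lit 64) .nil)))))) (.g (nat_lit 1) (.e (nat_lit 276114) (nat_lit 0) .nil) .nil))) 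
(.lf (nat_lit 544608) (.g (nat_lit 796) (.e (nat_lit 106535) (nat_lit 11) (.e (nat_lit 16392) (nat_lit 0) (.e (nat_lit 6989) (nat_lit 377) .nil))) (.g (nat_lit 0) (.e (nat_lit 277225) (nat_lit 0) .nil) .nil))))) (.nd (nat_lit 8) (.nd (nat_lit 9) 
(.lf (nat_lit 543968) (.g (nat_lit 3193) (.e (nat_lit 98373) (nat_lit 29) (.e (nat_lit 450587) (nat_lit 10) (.e (nat_lit 573475) (nat_lit 12) (.e (nat_lit 57573) (nat_lit 55) (.e (nat_lit 778469) (nat_lit 11) (.e (nat_lit 24609) (nat_lit 3) .nil)))))) (.g (nat_lit 1) (.e (nat_lit 275947) (nat_lit 0) .nil) .nil))) 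
(.lf (nat_lit 544480) (.g (nat_lit 1292) (.e (nat_lit 114432) (nat_lit 6) (.e (nat_lit 188434) (nat_lit 20) (.e (nat_lit 3408) (nat_lit 212) (.e (nat_lit 655364) (nat_lit 0) (.e (nat_lit 3004) (nat_lit 186) .nil))))) (.g (nat_lit 0) (.e (nat_lit 276926) (nat_lit 0) .nil) .nil)))) (.nd (nat_lit 9) 
(.lf (nat_lit 544224) (.g (nat_lit 921) (.e (nat_lit 98384) (nat_lit 32) (.e (nat_lit 475177) (nat_lit 24) (.e (nat_lit 516179) (nat_lit 15) (.e (nat_lit 475177) (nat_lit 24) .nil)))) (.g (nat_lit 0) (.e (nat_lit 276263) (nat_lit 0) .nil) .nil))) 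
(.lf (nat_lit 544736) (.g (nat_lit 2062) (.e (nat_lit 114695) (nat_lit 11) (.e (nat_lit 426230) (nat_lit 9) (.e (nat_lit 426554) (nat_lit 32) (.e (nat_lit 376860) (nat_lit 21) (.e (nat_lit 57852) (nat_lit 252) (.e (nat_lit 57389) (nat_lit 5) .nil)))))) (.g (nat_lit 1) (.e (nat_lit 277690) (nat_lit 0) .nil) .nil)))))))) 
(.nd (nat_lit 5) (.nd (nat_lit 6) (.nd (nat_lit 7) (.nd (nat_lit 8) (.nd (nat_lit 9) 
(.lf (nat_lit 543760) (.g (nat_lit 1460) (.e (nat_lit 98367) (nat_lit 27) (.e (nat_lit 434248) (nat_lit 28) (.e (nat_lit 573489) (nat_lit 14) (.e (nat_lit 81664) (nat_lit 5) .nil)))) (.g (nat_lit 0) (.e (nat_lit 275599) (nat_lit 0) .nil) .nil))) 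
(.lf (nat_lit 544272) (.g (nat_lit 2399) (.e (nat_lit 98384) (nat_lit 32) (.e (nat_lit 475179) (nat_lit 24) (.e (nat_lit 516182) (nat_lit 15) (.e (nat_lit 475177) (nat_lit 24) (.e (nat_lit 516147) (nat_lit 9) (.e (nat_lit 426436) (nat_lit 18) .nil)))))) (.g (nat_lit 1) (.e (nat_lit 276311) (nat_lit 0) .nil) .nil)))) (.nd (nat_lit 9) 
(.lf (nat_lit 544016) (.g (nat_lit 4458) (.e (nat_lit 98373) (nat_lit 29) (.e (nat_lit 450588) (nat_lit 10) (.e (nat_lit 573475) (nat_lit 12) (.e (nat_lit 57348) (nat_lit 0) (.e (nat_lit 7261) (nat_lit 384) (.e (nat_lit 57412) (nat_lit 12) (.e (nat_lit 336022) (nat_lit 3) .nil))))))) (.g (nat_lit 1) (.e (nat_lit 275995) (nat_lit 0) .nil) .nil))) 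
(.lf (nat_lit 544528) (.g (nat_lit 2482) (.e (nat_lit 114432) (nat_lit 6) (.e (nat_lit 188455) (nat_lit 24) (.e (nat_lit 229663) (nat_lit 240) (.e (nat_lit 2653) (nat_lit 166) (.e (nat_lit 196352) (nat_lit 4) .nil))))) (.g (nat_lit 0) (.e (nat_lit 276990) (nat_lit 0) .nil) .nil))))) (.nd (nat_lit 8) (.nd (nat_lit 9) 
(.lf (nat_lit 543888) (.g (nat_lit 2523) (.e (nat_lit 98372) (nat_lit 29) (.e (nat_lit 450579) (nat_lit 5) (.e (nat_lit 532530) (nat_lit 9) (.e (nat_lit 335999) (nat_lit 1) (.e (nat_lit 57927) (nat_lit 282) (.e (nat_lit 171776) (nat_lit 64) .nil)))))) (.g (nat_lit 1) (.e (nat_lit 275861) (nat_lit 0) .nil) .nil))) 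
(.lf (nat_lit 544400) (.g (nat_lit 4263) (.e (nat_lit 98387) (nat_lit 33) (.e (nat_lit 491566) (nat_lit 12) (.e (nat_lit 385072) (nat_lit 31) (.e (nat_lit 573493) (nat_lit 15) (.e (nat_lit 81956) (nat_lit 23) .nil))))) (.g (nat_lit 1) (.e (nat_lit 276454) (nat_lit 0) .nil) .nil)))) (.nd (nat_lit 9) 
(.lf (nat_lit 544144) (.g (nat_lit 1250) (.e (nat_lit 98381) (nat_lit 31) (.e (nat_lit 466972) (nat_lit 21) (.e (nat_lit 164183) (nat_lit 154) (.e (nat_lit 65280) (nat_lit 62) .nil)))) (.g (nat_lit 0) (.e (nat_lit 276168) (nat_lit 0) .nil) .nil))) 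
(.lf (nat_lit 544656) (.g (nat_lit 1629) (.e (nat_lit 122624) (nat_lit 4) (.e (nat_lit 213032) (nat_lit 11) (.e (nat_lit 24628) (nat_lit 9) (.e (nat_lit 336426) (nat_lit 29) (.e (nat_lit 450304) (nat_lit 5) .nil))))) (.g (nat_lit 0) (.e (nat_lit 277473) (nat_lit 0) .nil) .nil)))))) (.nd (nat_lit 7) (.nd (nat_lit 8) (.nd (nat_lit 9) 
(.lf (nat_lit 543824) (.g (nat_lit 607) (.e (nat_lit 98368) (nat_lit 27) (.e (nat_lit 434248) (nat_lit 28) (.e (nat_lit 573480) (nat_lit 13) .nil))) (.g (nat_lit 0) (.e (nat_lit 275735) (nat_lit 0) .nil) .nil))) 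
(.lf (nat_lit 544336) (.g (nat_lit 3325) (.e (nat_lit 98386) (nat_lit 32) (.e (nat_lit 475177) (nat_lit 24) (.e (nat_lit 516150) (nat_lit 9) (.e (nat_lit 426428) (nat_lit 17) (.e (nat_lit 90170) (nat_lit 13) (.e (nat_lit 179968) (nat_lit 18) .nil)))))) (.g (nat_lit 1) (.e (nat_lit 276381) (nat_lit 0) .nil) .nil)))) (.nd (nat_lit 9) 
(.lf (nat_lit 544080) (.g (nat_lit 410) (.e (nat_lit 98380) (nat_lit 31) (.e (nat_lit 466954) (nat_lit 11) (.e (nat_lit 335994) (nat_lit 1) .nil))) (.g (nat_lit 0) (.e (nat_lit 276098) (nat_lit 0) .nil) .nil))) 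
(.lf (nat_lit 544592) (.g (nat_lit 1219) (.e (nat_lit 106534) (nat_lit 11) (.e (nat_lit 16412) (nat_lit 2) (.e (nat_lit 196681) (nat_lit 17) (.e (nat_lit 131109) (nat_lit 9) (.e (nat_lit 336238) (nat_lit 15) .nil))))) (.g (nat_lit 0) (.e (nat_lit 277190) (nat_lit 0) .nil) .nil))))) (.nd (nat_lit 8) (.nd (nat_lit 9) 
(.lf (nat_lit 543952) (.g (nat_lit 3562) (.e (nat_lit 98373) (nat_lit 29) (.e (nat_lit 450587) (nat_lit 10) (.e (nat_lit 573449) (nat_lit 9) (.e (nat_lit 375) (nat_lit 32) (.e (nat_lit 426338) (nat_lit 14) (.e (nat_lit 491540) (nat_lit 3) .nil)))))) (.g (nat_lit 1) (.e (nat_lit 275931) (nat_lit 0) .nil) .nil))) 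
(.lf (nat_lit 544464) (.g (nat_lit 2386) (.e (nat_lit 114432) (nat_lit 4) (.e (nat_lit 172124) (nat_lit 14) (.e (nat_lit 491571) (nat_lit 13) (.e (nat_lit 393268) (nat_lit 23) (.e (nat_lit 426440) (nat_lit 19) .nil))))) (.g (nat_lit 0) (.e (nat_lit 276795) (nat_lit 0) .nil) .nil)))) (.nd (nat_lit 9) 
(.lf (nat_lit 544208) (.g (nat_lit 1587) (.e (nat_lit 98384) (nat_lit 32) (.e (nat_lit 475177) (nat_lit 24) (.e (nat_lit 516146) (nat_lit 9) (.e (nat_lit 426428) (nat_lit 17) (.e (nat_lit 90134) (nat_lit 9) (.e (nat_lit 2862) (nat_lit 184) (.e (nat_lit 426434) (nat_lit 18) .nil))))))) (.g (nat_lit 1) (.e (nat_lit 276247) (nat_lit 0) .nil) .nil))) 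
(.lf (nat_lit 544720) (.g (nat_lit 3072) (.e (nat_lit 114694) (nat_lit 11) (.e (nat_lit 426200) (nat_lit 9) (.e (nat_lit 426555) (nat_lit 32) (.e (nat_lit 376857) (nat_lit 21) (.e (nat_lit 57849) (nat_lit 252) (.e (nat_lit 57390) (nat_lit 5) .nil)))))) (.g (nat_lit 1) (.e (nat_lit 277653) (nat_lit 0) .nil) .nil))))))) (.nd (nat_lit 6) (.nd (nat_lit 7) (.nd (nat_lit 8) (.nd (nat_lit 9) 
(.lf (nat_lit 543792) (.g (nat_lit 2239) (.e (nat_lit 98368) (nat_lit 27) (.e (nat_lit 434245) (nat_lit 28) (.e (nat_lit 573487) (nat_lit 14) (.e (nat_lit 73753) (nat_lit 8) (.e (nat_lit 557093) (nat_lit 12) .nil))))) (.g (nat_lit 0) (.e (nat_lit 275652) (nat_lit 0) .nil) .nil))) 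
(.lf (nat_lit 544304) (.g (nat_lit 2975) (.e (nat_lit 98385) (nat_lit 32) (.e (nat_lit 475179) (nat_lit 24) (.e (nat_lit 516115) (nat_lit 1) (.e (nat_lit 164325) (nat_lit 230) (.e (nat_lit 163875) (nat_lit 3) .nil))))) (.g (nat_lit 0) (.e (nat_lit 276348) (nat_lit 0) .nil) .nil)))) (.nd (nat_lit 9) 
(.lf (nat_lit 544048) (.g (nat_lit 2179) (.e (nat_lit 98378) (nat_lit 30) (.e (nat_lit 458789) (nat_lit 23) (.e (nat_lit 532515) (nat_lit 3) (.e (nat_lit 114717) (nat_lit 23) .nil)))) (.g (nat_lit 0) (.e (nat_lit 276060) (nat_lit 0) .nil) .nil))) 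
(.lf (nat_lit 544560) (.g (nat_lit 1848) (.e (nat_lit 106504) (nat_lit 9) (.e (nat_lit 1238) (nat_lit 91) (.e (nat_lit 90158) (nat_lit 11) (.e (nat_lit 24628) (nat_lit 9) (.e (nat_lit 336019) (nat_lit 3) .nil))))) (.g (nat_lit 0) (.e (nat_lit 277043) (nat_lit 0) .nil) .nil))))) (.nd (nat_lit 8) (.nd (nat_lit 9) 
(.lf (nat_lit 543920) (.g (nat_lit 4080) (.e (nat_lit 98372) (nat_lit 29) (.e (nat_lit 450586) (nat_lit 10) (.e (nat_lit 573475) (nat_lit 12) (.e (nat_lit 57574) (nat_lit 55) (.e (nat_lit 778464) (nat_lit 11) (.e (nat_lit 24608) (nat_lit 3) .nil)))))) (.g (nat_lit 1) (.e (nat_lit 275893) (nat_lit 0) .nil) .nil))) 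
(.lf (nat_lit 544432) (.g (nat_lit 541) (.e (nat_lit 106501) (nat_lit 0) (.e (nat_lit 2857) (nat_lit 184) (.e (nat_lit 426337) (nat_lit 14) .nil))) (.g (nat_lit 0) (.e (nat_lit 276599) (nat_lit 0) .nil) .nil)))) (.nd (nat_lit 9) 
(.lf (nat_lit 544176) (.g (nat_lit 484) (.e (nat_lit 98383) (nat_lit 32) (.e (nat_lit 475177) (nat_lit 24) (.e (nat_lit 516148) (nat_lit 9) .nil))) (.g (nat_lit 0) (.e (nat_lit 276210) (nat_lit 0) .nil) .nil))) 
(.lf (nat_lit 544688) (.g (nat_lit 1712) (.e (nat_lit 122624) (nat_lit 5) (.e (nat_lit 221194) (nat_lit 11) (.e (nat_lit 336088) (nat_lit 9) (.e (nat_lit 336427) (nat_lit 29) (.e (nat_lit 450304) (nat_lit 5) .nil))))) (.g (nat_lit 0) (.e (nat_lit 277526) (nat_lit 0) .nil) .nil)))))) (.nd (nat_lit 7) (.nd (nat_lit 8) (.nd (nat_lit 9) 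
(.lf (nat_lit 543856) (.g (nat_lit 3145) (.e (nat_lit 98368) (nat_lit 27) (.e (nat_lit 434248) (nat_lit 28) (.e (nat_lit 573489) (nat_lit 14) (.e (nat_lit 73755) (nat_lit 8) (.e (nat_lit 557090) (nat_lit 12) (.e (nat_lit 171776) (nat_lit 0) (.e (nat_lit 5937) (nat_lit 322) (.e (nat_lit 57379) (nat_lit 3) .nil)))))))) (.g (nat_lit 1) (.e (nat_lit 275794) (nat_lit 0) .nil) .nil))) 
(.lf (nat_lit 544368) (.g (nat_lit 2279) (.e (nat_lit 98386) (nat_lit 32) (.e (nat_lit 475179) (nat_lit 24) (.e (nat_lit 516120) (nat_lit 1) (.e (nat_lit 164332) (nat_lit 230) (.e (nat_lit 163874) (nat_lit 3) .nil))))) (.g (nat_lit 0) (.e (nat_lit 276414) (nat_lit 0) .nil) .nil)))) (.nd (nat_lit 9) 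
(.lf (nat_lit 544112) (.g (nat_lit 2616) (.e (nat_lit 98381) (nat_lit 31) (.e (nat_lit 466954) (nat_lit 11) (.e (nat_lit 335987) (nat_lit 1) (.e (nat_lit 57691) (nat_lit 156) (.e (nat_lit 163905) (nat_lit 12) (.e (nat_lit 426438) (nat_lit 18) .nil)))))) (.g (nat_lit 1) (.e (nat_lit 276134) (nat_lit 0) .nil) .nil))) 
(.lf (nat_lit 544624) (.g (nat_lit 1751) (.e (nat_lit 106536) (nat_lit 11) (.e (nat_lit 16435) (nat_lit 9) (.e (nat_lit 426555) (nat_lit 32) (.e (nat_lit 376856) (nat_lit 21) .nil)))) (.g (nat_lit 0) (.e (nat_lit 277258) (nat_lit 0) .nil) .nil))))) (.nd (nat_lit 8) (.nd (nat_lit 9) 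
(.lf (nat_lit 543984) (.g (nat_lit 4058) (.e (nat_lit 98373) (nat_lit 29) (.e (nat_lit 450587) (nat_lit 10) (.e (nat_lit 573477) (nat_lit 12) (.e (nat_lit 57575) (nat_lit 55) (.e (nat_lit 778466) (nat_lit 11) (.e (nat_lit 24606) (nat_lit 3) .nil)))))) (.g (nat_lit 1) (.e (nat_lit 275963) (nat_lit 0) .nil) .nil))) 
(.lf (nat_lit 544496) (.g (nat_lit 2136) (.e (nat_lit 114432) (nat_lit 6) (.e (nat_lit 188453) (nat_lit 24) (.e (nat_lit 229663) (nat_lit 240) (.e (nat_lit 2653) (nat_lit 166) (.e (nat_lit 196352) (nat_lit 4) .nil))))) (.g (nat_lit 0) (.e (nat_lit 276950) (nat_lit 0) .nil) .nil)))) (.nd (nat_lit 9) 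
(.lf (nat_lit 544240) (.g (nat_lit 2041) (.e (nat_lit 98384) (nat_lit 32) (.e (nat_lit 475177) (nat_lit 24) (.e (nat_lit 516181) (nat_lit 15) (.e (nat_lit 475177) (nat_lit 24) (.e (nat_lit 516148) (nat_lit 9) (.e (nat_lit 426437) (nat_lit 18) .nil)))))) (.g (nat_lit 1) (.e (nat_lit 276279) (nat_lit 0) .nil) .nil))) 
(.lf (nat_lit 544752) (.g (nat_lit 1955) (.e (nat_lit 114695) (nat_lit 11) (.e (nat_lit 426262) (nat_lit 9) (.e (nat_lit 426554) (nat_lit 32) (.e (nat_lit 376859) (nat_lit 21) (.e (nat_lit 57849) (nat_lit 252) (.e (nat_lit 57390) (nat_lit 5) .nil)))))) (.g (nat_lit 1) (.e (nat_lit 277706) (nat_lit 0) .nil) .nil))))))))) 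
(.nd (nat_lit 4) (.nd (nat_lit 5) (.nd (nat_lit 6) (.nd (nat_lit 7) (.nd (nat_lit 8) 
(.nd (nat_lit 9) 
(.lf (nat_lit 543752) (.g (nat_lit 1490) (.e (nat_lit 98367) (nat_lit 27) (.e (nat_lit 434248) (nat_lit 28) (.e (nat_lit 573487) (nat_lit 14) (.e (nat_lit 81664) (nat_lit 5) .nil)))) (.g (nat_lit 0) (.e (nat_lit 275591) (nat_lit 0) .nil) .nil))) 
(.lf (nat_lit 544264) (.g (nat_lit 2335) (.e (nat_lit 98384) (nat_lit 32) (.e (nat_lit 475179) (nat_lit 24) (.e (nat_lit 516146) (nat_lit 9) (.e (nat_lit 426432) (nat_lit 17) .nil)))) (.g (nat_lit 0) (.e (nat_lit 276303) (nat_lit 0) .nil) .nil)))) (.nd (nat_lit 9) 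
(.lf (nat_lit 544008) (.g (nat_lit 3577) (.e (nat_lit 98373) (nat_lit 29) (.e (nat_lit 450588) (nat_lit 10) (.e (nat_lit 573473) (nat_lit 12) (.e (nat_lit 57353) (nat_lit 0) (.e (nat_lit 7261) (nat_lit 384) (.e (nat_lit 57406) (nat_lit 12) (.e (nat_lit 343808) (nat_lit 3) .nil))))))) (.g (nat_lit 1) (.e (nat_lit 275987) (nat_lit 0) .nil) .nil))) 
(.lf (nat_lit 544520) (.g (nat_lit 1525) (.e (nat_lit 114432) (nat_lit 6) (.e (nat_lit 188453) (nat_lit 24) (.e (nat_lit 229681) (nat_lit 244) (.e (nat_lit 163920) (nat_lit 14) (.e (nat_lit 450304) (nat_lit 4) .nil))))) (.g (nat_lit 0) (.e (nat_lit 276974) (nat_lit 0) .nil) .nil))))) (.nd (nat_lit 8) (.nd (nat_lit 9) 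
(.lf (nat_lit 543880) (.g (nat_lit 4102) (.e (nat_lit 98371) (nat_lit 28) (.e (nat_lit 442406) (nat_lit 20) (.e (nat_lit 3238) (nat_lit 197) (.e (nat_lit 532523) (nat_lit 7) (.e (nat_lit 319534) (nat_lit 16) (.e (nat_lit 286734) (nat_lit 3) .nil)))))) (.g (nat_lit 1) (.e (nat_lit 275838) (nat_lit 0) .nil) .nil))) 
(.lf (nat_lit 544392) (.g (nat_lit 5153) (.e (nat_lit 98386) (nat_lit 32) (.e (nat_lit 475199) (nat_lit 40) (.e (nat_lit 704589) (nat_lit 3) (.e (nat_lit 163979) (nat_lit 30) (.e (nat_lit 573493) (nat_lit 15) (.e (nat_lit 81956) (nat_lit 23) .nil)))))) (.g (nat_lit 1) (.e (nat_lit 276443) (nat_lit 0) .nil) .nil)))) (.nd (nat_lit 9) 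
(.lf (nat_lit 544136) (.g (nat_lit 3748) (.e (nat_lit 98381) (nat_lit 31) (.e (nat_lit 466954) (nat_lit 11) (.e (nat_lit 335995) (nat_lit 1) (.e (nat_lit 57688) (nat_lit 156) (.e (nat_lit 163907) (nat_lit 12) (.e (nat_lit 426438) (nat_lit 18) .nil)))))) (.g (nat_lit 1) (.e (nat_lit 276158) (nat_lit 0) .nil) .nil))) 
(.lf (nat_lit 544648) (.g (nat_lit 851) (.e (nat_lit 122624) (nat_lit 4) (.e (nat_lit 213030) (nat_lit 11) (.e (nat_lit 24659) (nat_lit 13) (.e (nat_lit 393279) (nat_lit 23) .nil)))) (.g (nat_lit 0) (.e (nat_lit 277454) (nat_lit 0) .nil) .nil)))))) (.nd (nat_lit 7) (.nd (nat_lit 8) (.nd (nat_lit 9) 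
(.lf (nat_lit 543816) (.g (nat_lit 2972) (.e (nat_lit 98368) (nat_lit 27) (.e (nat_lit 434247) (nat_lit 28) (.e (nat_lit 573489) (nat_lit 14) (.e (nat_lit 73755) (nat_lit 8) (.e (nat_lit 557090) (nat_lit 12) .nil))))) (.g (nat_lit 0) (.e (nat_lit 275714) (nat_lit 0) .nil) .nil))) 
(.lf (nat_lit 544328) (.g (nat_lit 1565) (.e (nat_lit 98386) (nat_lit 32) (.e (nat_lit 475177) (nat_lit 24) (.e (nat_lit 516148) (nat_lit 9) (.e (nat_lit 426432) (nat_lit 17) (.e (nat_lit 90168) (nat_lit 13) (.e (nat_lit 179968) (nat_lit 18) .nil)))))) (.g (nat_lit 1) (.e (nat_lit 276373) (nat_lit 0) .nil) .nil)))) (.nd (nat_lit 9) 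
(.lf (nat_lit 544072) (.g (nat_lit 799) (.e (nat_lit 98380) (nat_lit 31) (.e (nat_lit 466954) (nat_lit 11) (.e (nat_lit 335985) (nat_lit 1) .nil))) (.g (nat_lit 0) (.e (nat_lit 276090) (nat_lit 0) .nil) .nil))) 
(.lf (nat_lit 544584) (.g (nat_lit 2645) (.e (nat_lit 106534) (nat_lit 11) (.e (nat_lit 16412) (nat_lit 2) (.e (nat_lit 196666) (nat_lit 13) (.e (nat_lit 65624) (nat_lit 12) (.e (nat_lit 385067) (nat_lit 26) .nil))))) (.g (nat_lit 0) (.e (nat_lit 277180) (nat_lit 0) .nil) .nil))))) (.nd (nat_lit 8) (.nd (nat_lit 9) 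
(.lf (nat_lit 543944) (.g (nat_lit 1117) (.e (nat_lit 98372) (nat_lit 29) (.e (nat_lit 450588) (nat_lit 10) (.e (nat_lit 573477) (nat_lit 12) .nil))) (.g (nat_lit 0) (.e (nat_lit 275923) (nat_lit 0) .nil) .nil))) 
(.lf (nat_lit 544456) (.g (nat_lit 3331) (.e (nat_lit 114432) (nat_lit 3) (.e (nat_lit 163979) (nat_lit 30) (.e (nat_lit 573493) (nat_lit 15) (.e (nat_lit 81954) (nat_lit 23) (.e (nat_lit 98357) (nat_lit 26) .nil))))) (.g (nat_lit 0) (.e (nat_lit 276754) (nat_lit 0) .nil) .nil)))) (.nd (nat_lit 9) 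
(.lf (nat_lit 544200) (.g (nat_lit 3267) (.e (nat_lit 98384) (nat_lit 32) (.e (nat_lit 475177) (nat_lit 24) (.e (nat_lit 516118) (nat_lit 1) (.e (nat_lit 164332) (nat_lit 230) (.e (nat_lit 163874) (nat_lit 3) (.e (nat_lit 204837) (nat_lit 20) (.e (nat_lit 114717) (nat_lit 23) .nil))))))) (.g (nat_lit 1) (.e (nat_lit 276239) (nat_lit 0) .nil) .nil))) 
(.lf (nat_lit 544712) (.g (nat_lit 2215) (.e (nat_lit 114694) (nat_lit 11) (.e (nat_lit 426139) (nat_lit 3) (.e (nat_lit 204861) (nat_lit 26) (.e (nat_lit 336086) (nat_lit 9) (.e (nat_lit 336324) (nat_lit 18) .nil))))) (.g (nat_lit 0) (.e (nat_lit 277583) (nat_lit 0) .nil) .nil))))))) (.nd (nat_lit 6) (.nd (nat_lit 7) (.nd (nat_lit 8) (.nd (nat_lit 9) 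
(.lf (nat_lit 543784) (.g (nat_lit 2761) (.e (nat_lit 98367) (nat_lit 27) (.e (nat_lit 434272) (nat_lit 38) (.e (nat_lit 655375) (nat_lit 3) (.e (nat_lit 163979) (nat_lit 30) (.e (nat_lit 573491) (nat_lit 15) (.e (nat_lit 81955) (nat_lit 23) .nil)))))) (.g (nat_lit 1) (.e (nat_lit 275631) (nat_lit 0) .nil) .nil))) 
(.lf (nat_lit 544296) (.g (nat_lit 3028) (.e (nat_lit 98385) (nat_lit 32) (.e (nat_lit 475177) (nat_lit 24) (.e (nat_lit 516180) (nat_lit 15) (.e (nat_lit 475177) (nat_lit 24) (.e (nat_lit 516146) (nat_lit 9) (.e (nat_lit 426436) (nat_lit 18) .nil)))))) (.g (nat_lit 1) (.e (nat_lit 276338) (nat_lit 0) .nil) .nil)))) (.nd (nat_lit 9) 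
(.lf (nat_lit 544040) (.g (nat_lit 4891) (.e (nat_lit 98377) (nat_lit 30) (.e (nat_lit 458774) (nat_lit 18) (.e (nat_lit 5548) (nat_lit 306) (.e (nat_lit 2610) (nat_lit 163) (.e (nat_lit 163977) (nat_lit 30) (.e (nat_lit 573492) (nat_lit 15) (.e (nat_lit 81956) (nat_lit 23) .nil))))))) (.g (nat_lit 1) (.e (nat_lit 276041) (nat_lit 0) .nil) .nil))) 
(.lf (nat_lit 544552) (.g (nat_lit 1415) (.e (nat_lit 114432) (nat_lit 6) (.e (nat_lit 188455) (nat_lit 24) (.e (nat_lit 229680) (nat_lit 244) (.e (nat_lit 163931) (nat_lit 17) (.e (nat_lit 474880) (nat_lit 4) .nil))))) (.g (nat_lit 0) (.e (nat_lit 277014) (nat_lit 0) .nil) .nil))))) (.nd (nat_lit 8) (.nd (nat_lit 9) 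
(.lf (nat_lit 543912) (.g (nat_lit 2313) (.e (nat_lit 98372) (nat_lit 29) (.e (nat_lit 450586) (nat_lit 10) (.e (nat_lit 573457) (nat_lit 9) (.e (nat_lit 428) (nat_lit 32) (.e (nat_lit 426347) (nat_lit 14) (.e (nat_lit 491540) (nat_lit 3) .nil)))))) (.g (nat_lit 1) (.e (nat_lit 275885) (nat_lit 0) .nil) .nil))) 
(.lf (nat_lit 544424) (.g (nat_lit 2394) (.e (nat_lit 98389) (nat_lit 33) (.e (nat_lit 491556) (nat_lit 9) (.e (nat_lit 336305) (nat_lit 15) (.e (nat_lit 3308) (nat_lit 202) (.e (nat_lit 573491) (nat_lit 15) (.e (nat_lit 81954) (nat_lit 23) .nil)))))) (.g (nat_lit 1) (.e (nat_lit 276481) (nat_lit 0) .nil) .nil)))) (.nd (nat_lit 9) 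
(.lf (nat_lit 544168) (.g (nat_lit 2627) (.e (nat_lit 98382) (nat_lit 31) (.e (nat_lit 466974) (nat_lit 22) (.e (nat_lit 196681) (nat_lit 17) (.e (nat_lit 131089) (nat_lit 1) (.e (nat_lit 57931) (nat_lit 282) (.e (nat_lit 171776) (nat_lit 64) .nil)))))) (.g (nat_lit 1) (.e (nat_lit 276193) (nat_lit 0) .nil) .nil))) 
(.lf (nat_lit 544680) (.g (nat_lit 938) (.e (nat_lit 122624) (nat_lit 5) (.e (nat_lit 221194) (nat_lit 11) (.e (nat_lit 336087) (nat_lit 9) (.e (nat_lit 336370) (nat_lit 27) .nil)))) (.g (nat_lit 0) (.e (nat_lit 277518) (nat_lit 0) .nil) .nil)))))) (.nd (nat_lit 7) (.nd (nat_lit 8) (.nd (nat_lit 9) 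
(.lf (nat_lit 543848) (.g (nat_lit 1493) (.e (nat_lit 98368) (nat_lit 27) (.e (nat_lit 434248) (nat_lit 28) (.e (nat_lit 573489) (nat_lit 14) (.e (nat_lit 73755) (nat_lit 8) .nil)))) (.g (nat_lit 0) (.e (nat_lit 275782) (nat_lit 0) .nil) .nil))) 
(.lf (nat_lit 544360) (.g (nat_lit 2268) (.e (nat_lit 98386) (nat_lit 32) (.e (nat_lit 475179) (nat_lit 24) (.e (nat_lit 516117) (nat_lit 1) (.e (nat_lit 164330) (nat_lit 230) .nil)))) (.g (nat_lit 0) (.e (nat_lit 276405) (nat_lit 0) .nil) .nil)))) (.nd (nat_lit 9) 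
(.lf (nat_lit 544104) (.g (nat_lit 805) (.e (nat_lit 98381) (nat_lit 31) (.e (nat_lit 466954) (nat_lit 11) (.e (nat_lit 335985) (nat_lit 1) .nil))) (.g (nat_lit 0) (.e (nat_lit 276126) (nat_lit 0) .nil) .nil))) 
(.lf (nat_lit 544616) (.g (nat_lit 1528) (.e (nat_lit 106536) (nat_lit 11) (.e (nat_lit 16410) (nat_lit 2) (.e (nat_lit 196681) (nat_lit 17) (.e (nat_lit 131122) (nat_lit 12) .nil)))) (.g (nat_lit 0) (.e (nat_lit 277241) (nat_lit 0) .nil) .nil))))) (.nd (nat_lit 8) (.nd (nat_lit 9) 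
(.lf (nat_lit 543976) (.g (nat_lit 3006) (.e (nat_lit 98373) (nat_lit 29) (.e (nat_lit 450587) (nat_lit 10) (.e (nat_lit 573475) (nat_lit 12) (.e (nat_lit 57574) (nat_lit 55) (.e (nat_lit 786176) (nat_lit 11) (.e (nat_lit 24609) (nat_lit 3) .nil)))))) (.g (nat_lit 1) (.e (nat_lit 275955) (nat_lit 0) .nil) .nil))) 
(.lf (nat_lit 544488) (.g (nat_lit 1370) (.e (nat_lit 114432) (nat_lit 6) (.e (nat_lit 188446) (nat_lit 21) (.e (nat_lit 164347) (nat_lit 240) (.e (nat_lit 2650) (nat_lit 166) (.e (nat_lit 196352) (nat_lit 4) .nil))))) (.g (nat_lit 0) (.e (nat_lit 276941) (nat_lit 0) .nil) .nil)))) (.nd (nat_lit 9) 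
(.lf (nat_lit 544232) (.g (nat_lit 2079) (.e (nat_lit 98384) (nat_lit 32) (.e (nat_lit 475177) (nat_lit 24) (.e (nat_lit 516180) (nat_lit 15) (.e (nat_lit 475177) (nat_lit 24) (.e (nat_lit 516148) (nat_lit 9) (.e (nat_lit 426434) (nat_lit 18) .nil)))))) (.g (nat_lit 1) (.e (nat_lit 276271) (nat_lit 0) .nil) .nil))) 
(.lf (nat_lit 544744) (.g (nat_lit 2081) (.e (nat_lit 114695) (nat_lit 11) (.e (nat_lit 426262) (nat_lit 9) (.e (nat_lit 426541) (nat_lit 29) (.e (nat_lit 352307) (nat_lit 21) (.e (nat_lit 57849) (nat_lit 252) (.e (nat_lit 57390) (nat_lit 5) .nil)))))) (.g (nat_lit 1) (.e (nat_lit 277698) (nat_lit 0) .nil) .nil)))))))) 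
(.nd (nat_lit 5) (.nd (nat_lit 6) (.nd (nat_lit 7) (.nd (nat_lit 8) (.nd (nat_lit 9) 
(.lf (nat_lit 543768) (.g (nat_lit 2849) (.e (nat_lit 98367) (nat_lit 27) (.e (nat_lit 434248) (nat_lit 28) (.e (nat_lit 573489) (nat_lit 14) (.e (nat_lit 73755) (nat_lit 8) (.e (nat_lit 557089) (nat_lit 12) .nil))))) (.g (nat_lit 0) (.e (nat_lit 275607) (nat_lit 0) .nil) .nil))) 
(.lf (nat_lit 544280) (.g (nat_lit 2008) (.e (nat_lit 98385) (nat_lit 32) (.e (nat_lit 475177) (nat_lit 24) (.e (nat_lit 516146) (nat_lit 9) (.e (nat_lit 426428) (nat_lit 17) (.e (nat_lit 90170) (nat_lit 13) (.e (nat_lit 179968) (nat_lit 18) .nil)))))) (.g (nat_lit 1) (.e (nat_lit 276319) (nat_lit 0) .nil) .nil)))) (.nd (nat_lit 9) 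
(.lf (nat_lit 544024) (.g (nat_lit 2595) (.e (nat_lit 98373) (nat_lit 29) (.e (nat_lit 450588) (nat_lit 10) (.e (nat_lit 573477) (nat_lit 12) (.e (nat_lit 57574) (nat_lit 55) (.e (nat_lit 778362) (nat_lit 9) .nil))))) (.g (nat_lit 0) (.e (nat_lit 276003) (nat_lit 0) .nil) .nil))) 
(.lf (nat_lit 544536) (.g (nat_lit 1099) (.e (nat_lit 114432) (nat_lit 6) (.e (nat_lit 188455) (nat_lit 24) (.e (nat_lit 229666) (nat_lit 240) (.e (nat_lit 2651) (nat_lit 166) (.e (nat_lit 196352) (nat_lit 4) .nil))))) (.g (nat_lit 0) (.e (nat_lit 276998) (nat_lit 0) .nil) .nil))))) (.nd (nat_lit 8) (.nd (nat_lit 9) 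
(.lf (nat_lit 543896) (.g (nat_lit 2897) (.e (nat_lit 98372) (nat_lit 29) (.e (nat_lit 450579) (nat_lit 5) (.e (nat_lit 532534) (nat_lit 9) (.e (nat_lit 335999) (nat_lit 1) (.e (nat_lit 57926) (nat_lit 282) (.e (nat_lit 171776) (nat_lit 64) .nil)))))) (.g (nat_lit 1) (.e (nat_lit 275869) (nat_lit 0) .nil) .nil))) 
(.lf (nat_lit 544408) (.g (nat_lit 1874) (.e (nat_lit 98387) (nat_lit 33) (.e (nat_lit 491571) (nat_lit 13) (.e (nat_lit 393238) (nat_lit 17) (.e (nat_lit 3560) (nat_lit 221) .nil)))) (.g (nat_lit 0) (.e (nat_lit 276462) (nat_lit 0) .nil) .nil)))) (.nd (nat_lit 9) 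
(.lf (nat_lit 544152) (.g (nat_lit 2950) (.e (nat_lit 98381) (nat_lit 31) (.e (nat_lit 466978) (nat_lit 23) (.e (nat_lit 204846) (nat_lit 24) (.e (nat_lit 319533) (nat_lit 16) (.e (nat_lit 286734) (nat_lit 3) .nil))))) (.g (nat_lit 1) (.e (nat_lit 276176) (nat_lit 0) .nil) .nil))) 
(.lf (nat_lit 544664) (.g (nat_lit 1373) (.e (nat_lit 122624) (nat_lit 4) (.e (nat_lit 213032) (nat_lit 11) (.e (nat_lit 24655) (nat_lit 13) (.e (nat_lit 393267) (nat_lit 23) .nil)))) (.g (nat_lit 0) (.e (nat_lit 277492) (nat_lit 0) .nil) .nil)))))) (.nd (nat_lit 7) (.nd (nat_lit 8) (.nd (nat_lit 9) 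
(.lf (nat_lit 543832) (.g (nat_lit 1524) (.e (nat_lit 98368) (nat_lit 27) (.e (nat_lit 434248) (nat_lit 28) (.e (nat_lit 573482) (nat_lit 13) (.e (nat_lit 73472) (nat_lit 15) .nil)))) (.g (nat_lit 0) (.e (nat_lit 275747) (nat_lit 0) .nil) .nil))) 
(.lf (nat_lit 544344) (.g (nat_lit 2918) (.e (nat_lit 98386) (nat_lit 32) (.e (nat_lit 475177) (nat_lit 24) (.e (nat_lit 516180) (nat_lit 15) (.e (nat_lit 475177) (nat_lit 24) (.e (nat_lit 516147) (nat_lit 9) (.e (nat_lit 426436) (nat_lit 18) .nil)))))) (.g (nat_lit 1) (.e (nat_lit 276389) (nat_lit 0) .nil) .nil)))) (.nd (nat_lit 9) 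
(.lf (nat_lit 544088) (.g (nat_lit 1977) (.e (nat_lit 98380) (nat_lit 31) (.e (nat_lit 466954) (nat_lit 11) (.e (nat_lit 335995) (nat_lit 1) (.e (nat_lit 57688) (nat_lit 156) (.e (nat_lit 163904) (nat_lit 12) .nil))))) (.g (nat_lit 0) (.e (nat_lit 276106) (nat_lit 0) .nil) .nil))) 
(.lf (nat_lit 544600) (.g (nat_lit 1741) (.e (nat_lit 106534) (nat_lit 11) (.e (nat_lit 16416) (nat_lit 3) (.e (nat_lit 204852) (nat_lit 26) (.e (nat_lit 336208) (nat_lit 12) .nil)))) (.g (nat_lit 0) (.e (nat_lit 277202) (nat_lit 0) .nil) .nil))))) (.nd (nat_lit 8) (.nd (nat_lit 9) 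
(.lf (nat_lit 543960) (.g (nat_lit 2899) (.e (nat_lit 98373) (nat_lit 29) (.e (nat_lit 450587) (nat_lit 10) (.e (nat_lit 573473) (nat_lit 12) (.e (nat_lit 57352) (nat_lit 0) (.e (nat_lit 7261) (nat_lit 384) (.e (nat_lit 57406) (nat_lit 12) (.e (nat_lit 343808) (nat_lit 3) .nil))))))) (.g (nat_lit 1) (.e (nat_lit 275939) (nat_lit 0) .nil) .nil))) 
(.lf (nat_lit 544472) (.g (nat_lit 441) (.e (nat_lit 114432) (nat_lit 6) (.e (nat_lit 188417) (nat_lit 0) (.e (nat_lit 2143) (nat_lit 142) (.e (nat_lit 704597) (nat_lit 6) (.e (nat_lit 196352) (nat_lit 4) .nil))))) (.g (nat_lit 0) (.e (nat_lit 276911) (nat_lit 0) .nil) .nil)))) (.nd (nat_lit 9) 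
(.lf (nat_lit 544216) (.g (nat_lit 2062) (.e (nat_lit 98384) (nat_lit 32) (.e (nat_lit 475177) (nat_lit 24) (.e (nat_lit 516150) (nat_lit 9) (.e (nat_lit 426428) (nat_lit 17) (.e (nat_lit 90134) (nat_lit 9) (.e (nat_lit 2853) (nat_lit 184) (.e (nat_lit 426434) (nat_lit 18) .nil))))))) (.g (nat_lit 1) (.e (nat_lit 276255) (nat_lit 0) .nil) .nil))) 
(.lf (nat_lit 544728) (.g (nat_lit 2369) (.e (nat_lit 114694) (nat_lit 11) (.e (nat_lit 426200) (nat_lit 9) (.e (nat_lit 426555) (nat_lit 32) (.e (nat_lit 376860) (nat_lit 21) (.e (nat_lit 57852) (nat_lit 252) .nil))))) (.g (nat_lit 0) (.e (nat_lit 277661) (nat_lit 0) .nil) .nil))))))) (.nd (nat_lit 6) (.nd (nat_lit 7) (.nd (nat_lit 8) (.nd (nat_lit 9) 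
(.lf (nat_lit 543800) (.g (nat_lit 1826) (.e (nat_lit 98368) (nat_lit 27) (.e (nat_lit 434247) (nat_lit 28) (.e (nat_lit 573484) (nat_lit 13) (.e (nat_lit 65566) (nat_lit 2) .nil)))) (.g (nat_lit 0) (.e (nat_lit 275675) (nat_lit 0) .nil) .nil))) 
(.lf (nat_lit 544312) (.g (nat_lit 1809) (.e (nat_lit 98385) (nat_lit 32) (.e (nat_lit 475179) (nat_lit 24) (.e (nat_lit 516179) (nat_lit 15) (.e (nat_lit 475177) (nat_lit 24) .nil)))) (.g (nat_lit 0) (.e (nat_lit 276356) (nat_lit 0) .nil) .nil)))) (.nd (nat_lit 9) 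
(.lf (nat_lit 544056) (.g (nat_lit 2247) (.e (nat_lit 98379) (nat_lit 31) (.e (nat_lit 466954) (nat_lit 11) (.e (nat_lit 335996) (nat_lit 1) (.e (nat_lit 57692) (nat_lit 156) (.e (nat_lit 163907) (nat_lit 12) .nil))))) (.g (nat_lit 0) (.e (nat_lit 276068) (nat_lit 0) .nil) .nil))) 
(.lf (nat_lit 544568) (.g (nat_lit 2673) (.e (nat_lit 106517) (nat_lit 9) (.e (nat_lit 1255) (nat_lit 92) (.e (nat_lit 98333) (nat_lit 18) (.e (nat_lit 164325) (nat_lit 230) (.e (nat_lit 163868) (nat_lit 2) .nil))))) (.g (nat_lit 0) (.e (nat_lit 277096) (nat_lit 0) .nil) .nil))))) (.nd (nat_lit 8) (.nd (nat_lit 9) 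
(.lf (nat_lit 543928) (.g (nat_lit 4163) (.e (nat_lit 98372) (nat_lit 29) (.e (nat_lit 450586) (nat_lit 10) (.e (nat_lit 573477) (nat_lit 12) (.e (nat_lit 57575) (nat_lit 55) (.e (nat_lit 778465) (nat_lit 11) (.e (nat_lit 24607) (nat_lit 3) .nil)))))) (.g (nat_lit 1) (.e (nat_lit 275904) (nat_lit 0) .nil) .nil))) 
(.lf (nat_lit 544440) (.g (nat_lit 3235) (.e (nat_lit 114432) (nat_lit 3) (.e (nat_lit 163977) (nat_lit 30) (.e (nat_lit 573493) (nat_lit 15) (.e (nat_lit 81954) (nat_lit 23) (.e (nat_lit 98358) (nat_lit 26) .nil))))) (.g (nat_lit 0) (.e (nat_lit 276726) (nat_lit 0) .nil) .nil)))) (.nd (nat_lit 9) 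
(.lf (nat_lit 544184) (.g (nat_lit 2806) (.e (nat_lit 98383) (nat_lit 32) (.e (nat_lit 475179) (nat_lit 24) (.e (nat_lit 516119) (nat_lit 1) (.e (nat_lit 164327) (nat_lit 230) (.e (nat_lit 163875) (nat_lit 3) .nil))))) (.g (nat_lit 0) (.e (nat_lit 276220) (nat_lit 0) .nil) .nil))) 
(.lf (nat_lit 544696) (.g (nat_lit 645) (.e (nat_lit 114694) (nat_lit 11) (.e (nat_lit 426123) (nat_lit 2) (.e (nat_lit 196681) (nat_lit 17) .nil))) (.g (nat_lit 0) (.e (nat_lit 277551) (nat_lit 0) .nil) .nil)))))) (.nd (nat_lit 7) (.nd (nat_lit 8) (.nd (nat_lit 9) 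
(.lf (nat_lit 543864) (.g (nat_lit 2850) (.e (nat_lit 98369) (nat_lit 28) (.e (nat_lit 442390) (nat_lit 11) (.e (nat_lit 335986) (nat_lit 1) (.e (nat_lit 57686) (nat_lit 156) (.e (nat_lit 163903) (nat_lit 12) (.e (nat_lit 426438) (nat_lit 18) .nil)))))) (.g (nat_lit 1) (.e (nat_lit 275817) (nat_lit 0) .nil) .nil))) 
(.lf (nat_lit 544376) (.g (nat_lit 2327) (.e (nat_lit 98386) (nat_lit 32) (.e (nat_lit 475179) (nat_lit 24) (.e (nat_lit 516150) (nat_lit 9) (.e (nat_lit 426428) (nat_lit 17) (.e (nat_lit 90133) (nat_lit 9) .nil))))) (.g (nat_lit 0) (.e (nat_lit 276422) (nat_lit 0) .nil) .nil)))) (.nd (nat_lit 9) 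
(.lf (nat_lit 544120) (.g (nat_lit 2207) (.e (nat_lit 98381) (nat_lit 31) (.e (nat_lit 466954) (nat_lit 11) (.e (nat_lit 335993) (nat_lit 1) (.e (nat_lit 57691) (nat_lit 156) (.e (nat_lit 163905) (nat_lit 12) (.e (nat_lit 426438) (nat_lit 18) .nil)))))) (.g (nat_lit 1) (.e (nat_lit 276142) (nat_lit 0) .nil) .nil))) 
(.lf (nat_lit 544632) (.g (nat_lit 562) (.e (nat_lit 122624) (nat_lit 3) (.e (nat_lit 204811) (nat_lit 9) (.e (nat_lit 426234) (nat_lit 9) (.e (nat_lit 426565) (nat_lit 34) (.e (nat_lit 401152) (nat_lit 3) .nil))))) (.g (nat_lit 0) (.e (nat_lit 277411) (nat_lit 0) .nil) .nil))))) (.nd (nat_lit 8) (.nd (nat_lit 9) 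
(.lf (nat_lit 543992) (.g (nat_lit 3106) (.e (nat_lit 98373) (nat_lit 29) (.e (nat_lit 450588) (nat_lit 10) (.e (nat_lit 573450) (nat_lit 9) (.e (nat_lit 375) (nat_lit 32) (.e (nat_lit 426025) (nat_lit 0) (.e (nat_lit 7936) (nat_lit 402) (.e (nat_lit 1256) (nat_lit 92) .nil))))))) (.g (nat_lit 1) (.e (nat_lit 275971) (nat_lit 0) .nil) .nil))) 
(.lf (nat_lit 544504) (.g (nat_lit 1060) (.e (nat_lit 114432) (nat_lit 6) (.e (nat_lit 188453) (nat_lit 24) (.e (nat_lit 229666) (nat_lit 240) (.e (nat_lit 2653) (nat_lit 166) (.e (nat_lit 196352) (nat_lit 4) .nil))))) (.g (nat_lit 0) (.e (nat_lit 276958) (nat_lit 0) .nil) .nil)))) (.nd (nat_lit 9) 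
(.lf (nat_lit 544248) (.g (nat_lit 1759) (.e (nat_lit 98384) (nat_lit 32) (.e (nat_lit 475179) (nat_lit 24) (.e (nat_lit 516117) (nat_lit 1) (.e (nat_lit 164304) (nat_lit 226) .nil)))) (.g (nat_lit 0) (.e (nat_lit 276287) (nat_lit 0) .nil) .nil))) 
(.lf (nat_lit 544760) (.g (nat_lit 2411) (.e (nat_lit 114696) (nat_lit 11) (.e (nat_lit 426225) (nat_lit 9) (.e (nat_lit 426555) (nat_lit 32) (.e (nat_lit 376857) (nat_lit 21) (.e (nat_lit 57849) (nat_lit 252) (.e (nat_lit 57390) (nat_lit 5) .nil)))))) (.g (nat_lit 1) (.e (nat_lit 277732) (nat_lit 0) .nil) .nil)))))))))) 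
(.nd (nat_lit 3) (.nd (nat_lit 4) (.nd (nat_lit 5) (.nd (nat_lit 6) (.nd (nat_lit 7) 
(.nd (nat_lit 8) (.nd (nat_lit 9) 
(.lf (nat_lit 543748) (.g (nat_lit 2715) (.e (nat_lit 98367) (nat_lit 27) (.e (nat_lit 434248) (nat_lit 28) (.e (nat_lit 573482) (nat_lit 13) (.e (nat_lit 65644) (nat_lit 22) (.e (nat_lit 245775) (nat_lit 4) (.e (nat_lit 179968) (nat_lit 18) .nil)))))) (.g (nat_lit 1) (.e (nat_lit 275587) (nat_lit 0) .nil) .nil))) 
(.lf (nat_lit 544260) (.g (nat_lit 3709) (.e (nat_lit 98384) (nat_lit 32) (.e (nat_lit 475179) (nat_lit 24) (.e (nat_lit 516120) (nat_lit 1) (.e (nat_lit 164330) (nat_lit 230) (.e (nat_lit 163857) (nat_lit 0) (.e (nat_lit 3253) (nat_lit 197) (.e (nat_lit 532515) (nat_lit 3) (.e (nat_lit 114719) (nat_lit 23) .nil)))))))) (.g (nat_lit 1) (.e (nat_lit 276299) (nat_lit 0) .nil) .nil)))) 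
(.nd (nat_lit 9) 
(.lf (nat_lit 544004) (.g (nat_lit 3704) (.e (nat_lit 98373) (nat_lit 29) (.e (nat_lit 450588) (nat_lit 10) (.e (nat_lit 573473) (nat_lit 12) (.e (nat_lit 57347) (nat_lit 0) (.e (nat_lit 7265) (nat_lit 384) (.e (nat_lit 57406) (nat_lit 12) (.e (nat_lit 343808) (nat_lit 3) .nil))))))) (.g (nat_lit 1) (.e (nat_lit 275983) (nat_lit 0) .nil) .nil))) 
(.lf (nat_lit 544516) (.g (nat_lit 1705) (.e (nat_lit 114432) (nat_lit 6) (.e (nat_lit 188453) (nat_lit 24) (.e (nat_lit 229680) (nat_lit 244) (.e (nat_lit 163932) (nat_lit 17) (.e (nat_lit 474880) (nat_lit 4) .nil))))) (.g (nat_lit 0) (.e (nat_lit 276970) (nat_lit 0) .nil) .nil))))) (.nd (nat_lit 8) (.nd (nat_lit 9) 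
(.lf (nat_lit 543876) (.g (nat_lit 3073) (.e (nat_lit 98370) (nat_lit 28) (.e (nat_lit 442390) (nat_lit 11) (.e (nat_lit 335986) (nat_lit 1) (.e (nat_lit 57688) (nat_lit 156) (.e (nat_lit 163902) (nat_lit 12) (.e (nat_lit 426434) (nat_lit 18) .nil)))))) (.g (nat_lit 1) (.e (nat_lit 275831) (nat_lit 0) .nil) .nil))) 
(.lf (nat_lit 544388) (.g (nat_lit 2051) (.e (nat_lit 98386) (nat_lit 32) (.e (nat_lit 475199) (nat_lit 40) (.e (nat_lit 704589) (nat_lit 3) (.e (nat_lit 163978) (nat_lit 30) (.e (nat_lit 573485) (nat_lit 13) (.e (nat_lit 65604) (nat_lit 9) (.e (nat_lit 343808) (nat_lit 3) .nil))))))) (.g (nat_lit 1) (.e (nat_lit 276439) (nat_lit 0) .nil) .nil)))) (.nd (nat_lit 9) 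
(.lf (nat_lit 544132) (.g (nat_lit 2839) (.e (nat_lit 98381) (nat_lit 31) (.e (nat_lit 466954) (nat_lit 11) (.e (nat_lit 335995) (nat_lit 1) (.e (nat_lit 57688) (nat_lit 156) (.e (nat_lit 163902) (nat_lit 12) (.e (nat_lit 426434) (nat_lit 18) .nil)))))) (.g (nat_lit 1) (.e (nat_lit 276154) (nat_lit 0) .nil) .nil))) 
(.lf (nat_lit 544644) (.g (nat_lit 1739) (.e (nat_lit 122624) (nat_lit 4) (.e (nat_lit 213030) (nat_lit 11) (.e (nat_lit 24656) (nat_lit 13) (.e (nat_lit 393271) (nat_lit 23) (.e (nat_lit 426448) (nat_lit 20) .nil))))) (.g (nat_lit 0) (.e (nat_lit 277450) (nat_lit 0) .nil) .nil)))))) (.nd (nat_lit 7) (.nd (nat_lit 8) (.nd (nat_lit 9) 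
(.lf (nat_lit 543812) (.g (nat_lit 4112) (.e (nat_lit 98368) (nat_lit 27) (.e (nat_lit 434247) (nat_lit 28) (.e (nat_lit 573489) (nat_lit 14) (.e (nat_lit 73755) (nat_lit 8) (.e (nat_lit 557067) (nat_lit 9) (.e (nat_lit 2602) (nat_lit 163) (.e (nat_lit 164403) (nat_lit 256) (.e (nat_lit 57378) (nat_lit 3) .nil)))))))) (.g (nat_lit 1) (.e (nat_lit 275704) (nat_lit 0) .nil) .nil))) 
(.lf (nat_lit 544324) (.g (nat_lit 3198) (.e (nat_lit 98386) (nat_lit 32) (.e (nat_lit 475177) (nat_lit 24) (.e (nat_lit 516146) (nat_lit 9) (.e (nat_lit 426428) (nat_lit 17) (.e (nat_lit 90169) (nat_lit 13) (.e (nat_lit 179968) (nat_lit 18) .nil)))))) (.g (nat_lit 1) (.e (nat_lit 276369) (nat_lit 0) .nil) .nil)))) (.nd (nat_lit 9) 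
(.lf (nat_lit 544068) (.g (nat_lit 2549) (.e (nat_lit 98380) (nat_lit 31) (.e (nat_lit 466947) (nat_lit 0) (.e (nat_lit 1800) (nat_lit 119) (.e (nat_lit 516126) (nat_lit 2) (.e (nat_lit 213032) (nat_lit 11) (.e (nat_lit 24608) (nat_lit 3) .nil)))))) (.g (nat_lit 1) (.e (nat_lit 276085) (nat_lit 0) .nil) .nil))) 
(.lf (nat_lit 544580) (.g (nat_lit 2191) (.e (nat_lit 106527) (nat_lit 9) (.e (nat_lit 1234) (nat_lit 91) (.e (nat_lit 90158) (nat_lit 11) (.e (nat_lit 24628) (nat_lit 9) (.e (nat_lit 336019) (nat_lit 3) .nil))))) (.g (nat_lit 0) (.e (nat_lit 277143) (nat_lit 0) .nil) .nil))))) (.nd (nat_lit 8) (.nd (nat_lit 9) 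
(.lf (nat_lit 543940) (.g (nat_lit 1870) (.e (nat_lit 98372) (nat_lit 29) (.e (nat_lit 450588) (nat_lit 10) (.e (nat_lit 573471) (nat_lit 11) (.e (nat_lit 16389) (nat_lit 0) (.e (nat_lit 7936) (nat_lit 402) .nil))))) (.g (nat_lit 0) (.e (nat_lit 275919) (nat_lit 0) .nil) .nil))) 
(.lf (nat_lit 544452) (.g (nat_lit 1310) (.e (nat_lit 114432) (nat_lit 3) (.e (nat_lit 163979) (nat_lit 30) (.e (nat_lit 573491) (nat_lit 15) (.e (nat_lit 81956) (nat_lit 23) .nil)))) (.g (nat_lit 0) (.e (nat_lit 276742) (nat_lit 0) .nil) .nil)))) (.nd (nat_lit 9) 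
(.lf (nat_lit 544196) (.g (nat_lit 4214) (.e (nat_lit 98384) (nat_lit 32) (.e (nat_lit 475177) (nat_lit 24) (.e (nat_lit 516118) (nat_lit 1) (.e (nat_lit 164327) (nat_lit 230) (.e (nat_lit 163875) (nat_lit 3) (.e (nat_lit 204834) (nat_lit 19) (.e (nat_lit 106517) (nat_lit 9) (.e (nat_lit 1255) (nat_lit 92) .nil)))))))) (.g (nat_lit 1) (.e (nat_lit 276235) (nat_lit 0) .nil) .nil))) 
(.lf (nat_lit 544708) (.g (nat_lit 1396) (.e (nat_lit 114694) (nat_lit 11) (.e (nat_lit 426139) (nat_lit 3) (.e (nat_lit 204861) (nat_lit 26) (.e (nat_lit 336074) (nat_lit 9) .nil)))) (.g (nat_lit 0) (.e (nat_lit 277579) (nat_lit 0) .nil) .nil))))))) (.nd (nat_lit 6) (.nd (nat_lit 7) (.nd (nat_lit 8) (.nd (nat_lit 9) 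
(.lf (nat_lit 543780) (.g (nat_lit 2467) (.e (nat_lit 98367) (nat_lit 27) (.e (nat_lit 434275) (nat_lit 39) (.e (nat_lit 663574) (nat_lit 9) (.e (nat_lit 2668) (nat_lit 167) (.e (nat_lit 204544) (nat_lit 2) .nil))))) (.g (nat_lit 0) (.e (nat_lit 275619) (nat_lit 0) .nil) .nil))) 
(.lf (nat_lit 544292) (.g (nat_lit 3315) (.e (nat_lit 98385) (nat_lit 32) (.e (nat_lit 475177) (nat_lit 24) (.e (nat_lit 516179) (nat_lit 15) (.e (nat_lit 475177) (nat_lit 24) (.e (nat_lit 516150) (nat_lit 9) (.e (nat_lit 426436) (nat_lit 18) .nil)))))) (.g (nat_lit 1) (.e (nat_lit 276334) (nat_lit 0) .nil) .nil)))) (.nd (nat_lit 9) 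
(.lf (nat_lit 544036) (.g (nat_lit 1904) (.e (nat_lit 98376) (nat_lit 30) (.e (nat_lit 458789) (nat_lit 23) (.e (nat_lit 532499) (nat_lit 1) (.e (nat_lit 57692) (nat_lit 156) (.e (nat_lit 163875) (nat_lit 3) .nil))))) (.g (nat_lit 0) (.e (nat_lit 276036) (nat_lit 0) .nil) .nil))) 
(.lf (nat_lit 544548) (.g (nat_lit 369) (.e (nat_lit 114432) (nat_lit 6) (.e (nat_lit 188455) (nat_lit 24) (.e (nat_lit 229679) (nat_lit 244) .nil))) (.g (nat_lit 0) (.e (nat_lit 277010) (nat_lit 0) .nil) .nil))))) (.nd (nat_lit 8) (.nd (nat_lit 9) 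
(.lf (nat_lit 543908) (.g (nat_lit 3669) (.e (nat_lit 98372) (nat_lit 29) (.e (nat_lit 450583) (nat_lit 7) (.e (nat_lit 548913) (nat_lit 18) (.e (nat_lit 172124) (nat_lit 14) (.e (nat_lit 491540) (nat_lit 3) .nil))))) (.g (nat_lit 1) (.e (nat_lit 275881) (nat_lit 0) .nil) .nil))) 
(.lf (nat_lit 544420) (.g (nat_lit 4127) (.e (nat_lit 98389) (nat_lit 33) (.e (nat_lit 491552) (nat_lit 9) (.e (nat_lit 336282) (nat_lit 15) (.e (nat_lit 3305) (nat_lit 202) (.e (nat_lit 573493) (nat_lit 15) (.e (nat_lit 81956) (nat_lit 23) .nil)))))) (.g (nat_lit 1) (.e (nat_lit 276477) (nat_lit 0) .nil) .nil)))) (.nd (nat_lit 9) 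
(.lf (nat_lit 544164) (.g (nat_lit 1856) (.e (nat_lit 98382) (nat_lit 31) (.e (nat_lit 466954) (nat_lit 11) (.e (nat_lit 335995) (nat_lit 1) (.e (nat_lit 57688) (nat_lit 156) .nil)))) (.g (nat_lit 0) (.e (nat_lit 276189) (nat_lit 0) .nil) .nil))) 
(.lf (nat_lit 544676) (.g (nat_lit 1535) (.e (nat_lit 122624) (nat_lit 5) (.e (nat_lit 221194) (nat_lit 11) (.e (nat_lit 336074) (nat_lit 9) (.e (nat_lit 336430) (nat_lit 29) (.e (nat_lit 450304) (nat_lit 5) .nil))))) (.g (nat_lit 0) (.e (nat_lit 277514) (nat_lit 0) .nil) .nil)))))) (.nd (nat_lit 7) (.nd (nat_lit 8) (.nd (nat_lit 9) 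
(.lf (nat_lit 543844) (.g (nat_lit 2723) (.e (nat_lit 98368) (nat_lit 27) (.e (nat_lit 434248) (nat_lit 28) (.e (nat_lit 573489) (nat_lit 14) (.e (nat_lit 73754) (nat_lit 8) (.e (nat_lit 557093) (nat_lit 12) .nil))))) (.g (nat_lit 0) (.e (nat_lit 275777) (nat_lit 0) .nil) .nil))) 
(.lf (nat_lit 544356) (.g (nat_lit 2133) (.e (nat_lit 98386) (nat_lit 32) (.e (nat_lit 475179) (nat_lit 24) (.e (nat_lit 516115) (nat_lit 1) (.e (nat_lit 164332) (nat_lit 230) .nil)))) (.g (nat_lit 0) (.e (nat_lit 276401) (nat_lit 0) .nil) .nil)))) (.nd (nat_lit 9) 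
(.lf (nat_lit 544100) (.g (nat_lit 2609) (.e (nat_lit 98381) (nat_lit 31) (.e (nat_lit 466947) (nat_lit 0) (.e (nat_lit 1800) (nat_lit 119) (.e (nat_lit 516126) (nat_lit 2) (.e (nat_lit 213032) (nat_lit 11) (.e (nat_lit 24608) (nat_lit 3) .nil)))))) (.g (nat_lit 1) (.e (nat_lit 276122) (nat_lit 0) .nil) .nil))) 
(.lf (nat_lit 544612) (.g (nat_lit 468) (.e (nat_lit 106535) (nat_lit 11) (.e (nat_lit 16425) (nat_lit 7) (.e (nat_lit 409648) (nat_lit 18) .nil))) (.g (nat_lit 0) (.e (nat_lit 277234) (nat_lit 0) .nil) .nil))))) (.nd (nat_lit 8) (.nd (nat_lit 9) 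
(.lf (nat_lit 543972) (.g (nat_lit 4690) (.e (nat_lit 98373) (nat_lit 29) (.e (nat_lit 450587) (nat_lit 10) (.e (nat_lit 573475) (nat_lit 12) (.e (nat_lit 57574) (nat_lit 55) (.e (nat_lit 778465) (nat_lit 11) (.e (nat_lit 24608) (nat_lit 3) .nil)))))) (.g (nat_lit 1) (.e (nat_lit 275951) (nat_lit 0) .nil) .nil))) 
(.lf (nat_lit 544484) (.g (nat_lit 1625) (.e (nat_lit 114432) (nat_lit 6) (.e (nat_lit 188444) (nat_lit 21) (.e (nat_lit 164347) (nat_lit 240) (.e (nat_lit 2650) (nat_lit 166) (.e (nat_lit 196352) (nat_lit 4) .nil))))) (.g (nat_lit 0) (.e (nat_lit 276936) (nat_lit 0) .nil) .nil)))) (.nd (nat_lit 9) 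
(.lf (nat_lit 544228) (.g (nat_lit 2680) (.e (nat_lit 98384) (nat_lit 32) (.e (nat_lit 475177) (nat_lit 24) (.e (nat_lit 516179) (nat_lit 15) (.e (nat_lit 475177) (nat_lit 24) (.e (nat_lit 516148) (nat_lit 9) (.e (nat_lit 426437) (nat_lit 18) .nil)))))) (.g (nat_lit 1) (.e (nat_lit 276267) (nat_lit 0) .nil) .nil))) 
(.lf (nat_lit 544740) (.g (nat_lit 2300) (.e (nat_lit 114695) (nat_lit 11) (.e (nat_lit 426234) (nat_lit 9) (.e (nat_lit 426554) (nat_lit 32) (.e (nat_lit 376857) (nat_lit 21) (.e (nat_lit 57853) (nat_lit 252) (.e (nat_lit 57389) (nat_lit 5) .nil)))))) (.g (nat_lit 1) (.e (nat_lit 277694) (nat_lit 0) .nil) .nil)))))))) 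
(.nd (nat_lit 5) (.nd (nat_lit 6) (.nd (nat_lit 7) (.nd (nat_lit 8) (.nd (nat_lit 9) 
(.lf (nat_lit 543764) (.g (nat_lit 2813) (.e (nat_lit 98367) (nat_lit 27) (.e (nat_lit 434248) (nat_lit 28) (.e (nat_lit 573489) (nat_lit 14) (.e (nat_lit 73754) (nat_lit 8) (.e (nat_lit 557091) (nat_lit 12) .nil))))) (.g (nat_lit 0) (.e (nat_lit 275603) (nat_lit 0) .nil) .nil))) 
(.lf (nat_lit 544276) (.g (nat_lit 1167) (.e (nat_lit 98384) (nat_lit 32) (.e (nat_lit 475199) (nat_lit 40) (.e (nat_lit 704589) (nat_lit 3) (.e (nat_lit 163979) (nat_lit 30) .nil)))) (.g (nat_lit 0) (.e (nat_lit 276315) (nat_lit 0) .nil) .nil)))) (.nd (nat_lit 9) 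
(.lf (nat_lit 544020) (.g (nat_lit 5138) (.e (nat_lit 98373) (nat_lit 29) (.e (nat_lit 450588) (nat_lit 10) (.e (nat_lit 573475) (nat_lit 12) (.e (nat_lit 57574) (nat_lit 55) (.e (nat_lit 778464) (nat_lit 11) (.e (nat_lit 24608) (nat_lit 3) .nil)))))) (.g (nat_lit 1) (.e (nat_lit 275999) (nat_lit 0) .nil) .nil))) 
(.lf (nat_lit 544532) (.g (nat_lit 1120) (.e (nat_lit 114432) (nat_lit 6) (.e (nat_lit 188455) (nat_lit 24) (.e (nat_lit 229664) (nat_lit 240) (.e (nat_lit 7936) (nat_lit 166) .nil)))) (.g (nat_lit 0) (.e (nat_lit 276994) (nat_lit 0) .nil) .nil))))) (.nd (nat_lit 8) (.nd (nat_lit 9) 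
(.lf (nat_lit 543892) (.g (nat_lit 2083) (.e (nat_lit 98372) (nat_lit 29) (.e (nat_lit 450579) (nat_lit 5) (.e (nat_lit 532530) (nat_lit 9) (.e (nat_lit 343808) (nat_lit 1) (.e (nat_lit 57927) (nat_lit 282) (.e (nat_lit 171776) (nat_lit 64) .nil)))))) (.g (nat_lit 1) (.e (nat_lit 275865) (nat_lit 0) .nil) .nil))) 
(.lf (nat_lit 544404) (.g (nat_lit 2019) (.e (nat_lit 98387) (nat_lit 33) (.e (nat_lit 491569) (nat_lit 13) (.e (nat_lit 393229) (nat_lit 9) (.e (nat_lit 336033) (nat_lit 4) .nil)))) (.g (nat_lit 0) (.e (nat_lit 276458) (nat_lit 0) .nil) .nil)))) (.nd (nat_lit 9) 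
(.lf (nat_lit 544148) (.g (nat_lit 2575) (.e (nat_lit 98381) (nat_lit 31) (.e (nat_lit 466977) (nat_lit 22) (.e (nat_lit 196681) (nat_lit 17) (.e (nat_lit 131086) (nat_lit 1) (.e (nat_lit 57929) (nat_lit 282) (.e (nat_lit 171776) (nat_lit 64) .nil)))))) (.g (nat_lit 1) (.e (nat_lit 276172) (nat_lit 0) .nil) .nil))) 
(.lf (nat_lit 544660) (.g (nat_lit 1413) (.e (nat_lit 122624) (nat_lit 4) (.e (nat_lit 213032) (nat_lit 11) (.e (nat_lit 24630) (nat_lit 9) (.e (nat_lit 336428) (nat_lit 29) (.e (nat_lit 450304) (nat_lit 5) .nil))))) (.g (nat_lit 0) (.e (nat_lit 277482) (nat_lit 0) .nil) .nil)))))) (.nd (nat_lit 7) (.nd (nat_lit 8) (.nd (nat_lit 9) 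
(.lf (nat_lit 543828) (.g (nat_lit 1862) (.e (nat_lit 98368) (nat_lit 27) (.e (nat_lit 434248) (nat_lit 28) (.e (nat_lit 573482) (nat_lit 13) (.e (nat_lit 65570) (nat_lit 3) .nil)))) (.g (nat_lit 0) (.e (nat_lit 275741) (nat_lit 0) .nil) .nil))) 
(.lf (nat_lit 544340) (.g (nat_lit 1904) (.e (nat_lit 98386) (nat_lit 32) (.e (nat_lit 475177) (nat_lit 24) (.e (nat_lit 516179) (nat_lit 15) (.e (nat_lit 475177) (nat_lit 24) (.e (nat_lit 516145) (nat_lit 9) (.e (nat_lit 426436) (nat_lit 18) .nil)))))) (.g (nat_lit 1) (.e (nat_lit 276385) (nat_lit 0) .nil) .nil)))) (.nd (nat_lit 9) 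
(.lf (nat_lit 544084) (.g (nat_lit 401) (.e (nat_lit 98380) (nat_lit 31) (.e (nat_lit 466954) (nat_lit 11) (.e (nat_lit 335995) (nat_lit 1) .nil))) (.g (nat_lit 0) (.e (nat_lit 276102) (nat_lit 0) .nil) .nil))) 
(.lf (nat_lit 544596) (.g (nat_lit 1223) (.e (nat_lit 106534) (nat_lit 11) (.e (nat_lit 16413) (nat_lit 2) (.e (nat_lit 196674) (nat_lit 15) (.e (nat_lit 81922) (nat_lit 0) (.e (nat_lit 3231) (nat_lit 197) .nil))))) (.g (nat_lit 0) (.e (nat_lit 277196) (nat_lit 0) .nil) .nil))))) (.nd (nat_lit 8) (.nd (nat_lit 9) 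
(.lf (nat_lit 543956) (.g (nat_lit 5097) (.e (nat_lit 98373) (nat_lit 29) (.e (nat_lit 450587) (nat_lit 10) (.e (nat_lit 573458) (nat_lit 9) (.e (nat_lit 426) (nat_lit 32) (.e (nat_lit 426338) (nat_lit 14) (.e (nat_lit 491540) (nat_lit 3) .nil)))))) (.g (nat_lit 1) (.e (nat_lit 275935) (nat_lit 0) .nil) .nil))) 
(.lf (nat_lit 544468) (.g (nat_lit 2655) (.e (nat_lit 114432) (nat_lit 4) (.e (nat_lit 172125) (nat_lit 14) (.e (nat_lit 491571) (nat_lit 13) (.e (nat_lit 393271) (nat_lit 23) .nil)))) (.g (nat_lit 0) (.e (nat_lit 276808) (nat_lit 0) .nil) .nil)))) (.nd (nat_lit 9) 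
(.lf (nat_lit 544212) (.g (nat_lit 2383) (.e (nat_lit 98384) (nat_lit 32) (.e (nat_lit 475177) (nat_lit 24) (.e (nat_lit 516146) (nat_lit 9) (.e (nat_lit 426428) (nat_lit 17) (.e (nat_lit 90170) (nat_lit 13) (.e (nat_lit 179968) (nat_lit 18) .nil)))))) (.g (nat_lit 1) (.e (nat_lit 276251) (nat_lit 0) .nil) .nil))) 
(.lf (nat_lit 544724) (.g (nat_lit 1971) (.e (nat_lit 114694) (nat_lit 11) (.e (nat_lit 426200) (nat_lit 9) (.e (nat_lit 426555) (nat_lit 32) (.e (nat_lit 376859) (nat_lit 21) (.e (nat_lit 57848) (nat_lit 252) .nil))))) (.g (nat_lit 0) (.e (nat_lit 277657) (nat_lit 0) .nil) .nil))))))) (.nd (nat_lit 6) (.nd (nat_lit 7) (.nd (nat_lit 8) (.nd (nat_lit 9) 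
(.lf (nat_lit 543796) (.g (nat_lit 1683) (.e (nat_lit 98368) (nat_lit 27) (.e (nat_lit 434245) (nat_lit 28) (.e (nat_lit 573488) (nat_lit 14) (.e (nat_lit 73755) (nat_lit 8) (.e (nat_lit 557090) (nat_lit 12) .nil))))) (.g (nat_lit 0) (.e (nat_lit 275664) (nat_lit 0) .nil) .nil))) 
(.lf (nat_lit 544308) (.g (nat_lit 2332) (.e (nat_lit 98385) (nat_lit 32) (.e (nat_lit 475179) (nat_lit 24) (.e (nat_lit 516119) (nat_lit 1) (.e (nat_lit 164327) (nat_lit 230) .nil)))) (.g (nat_lit 0) (.e (nat_lit 276352) (nat_lit 0) .nil) .nil)))) (.nd (nat_lit 9) 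
(.lf (nat_lit 544052) (.g (nat_lit 515) (.e (nat_lit 98379) (nat_lit 31) (.e (nat_lit 466954) (nat_lit 11) (.e (nat_lit 335986) (nat_lit 1) .nil))) (.g (nat_lit 0) (.e (nat_lit 276064) (nat_lit 0) .nil) .nil))) 
(.lf (nat_lit 544564) (.g (nat_lit 524) (.e (nat_lit 106514) (nat_lit 9) (.e (nat_lit 1234) (nat_lit 91) (.e (nat_lit 90133) (nat_lit 9) .nil))) (.g (nat_lit 0) (.e (nat_lit 277067) (nat_lit 0) .nil) .nil))))) (.nd (nat_lit 8) (.nd (nat_lit 9) 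
(.lf (nat_lit 543924) (.g (nat_lit 2379) (.e (nat_lit 98372) (nat_lit 29) (.e (nat_lit 450586) (nat_lit 10) (.e (nat_lit 573477) (nat_lit 12) (.e (nat_lit 57574) (nat_lit 55) (.e (nat_lit 778464) (nat_lit 11) (.e (nat_lit 24609) (nat_lit 3) .nil)))))) (.g (nat_lit 1) (.e (nat_lit 275897) (nat_lit 0) .nil) .nil))) 
(.lf (nat_lit 544436) (.g (nat_lit 1779) (.e (nat_lit 114432) (nat_lit 3) (.e (nat_lit 163975) (nat_lit 30) (.e (nat_lit 573491) (nat_lit 15) (.e (nat_lit 81954) (nat_lit 23) (.e (nat_lit 98363) (nat_lit 26) .nil))))) (.g (nat_lit 0) (.e (nat_lit 276712) (nat_lit 0) .nil) .nil)))) (.nd (nat_lit 9) 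
(.lf (nat_lit 544180) (.g (nat_lit 3004) (.e (nat_lit 98383) (nat_lit 32) (.e (nat_lit 475179) (nat_lit 24) (.e (nat_lit 516115) (nat_lit 1) (.e (nat_lit 164325) (nat_lit 230) (.e (nat_lit 163875) (nat_lit 3) (.e (nat_lit 204838) (nat_lit 20) (.e (nat_lit 114719) (nat_lit 23) .nil))))))) (.g (nat_lit 1) (.e (nat_lit 276214) (nat_lit 0) .nil) .nil))) 
(.lf (nat_lit 544692) (.g (nat_lit 1716) (.e (nat_lit 122624) (nat_lit 5) (.e (nat_lit 221194) (nat_lit 11) (.e (nat_lit 336088) (nat_lit 9) (.e (nat_lit 336444) (nat_lit 32) (.e (nat_lit 474880) (nat_lit 5) .nil))))) (.g (nat_lit 0) (.e (nat_lit 277530) (nat_lit 0) .nil) .nil)))))) (.nd (nat_lit 7) (.nd (nat_lit 8) (.nd (nat_lit 9) 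
(.lf (nat_lit 543860) (.g (nat_lit 2906) (.e (nat_lit 98368) (nat_lit 27) (.e (nat_lit 434248) (nat_lit 28) (.e (nat_lit 573489) (nat_lit 14) (.e (nat_lit 73755) (nat_lit 8) (.e (nat_lit 557119) (nat_lit 18) .nil))))) (.g (nat_lit 0) (.e (nat_lit 275809) (nat_lit 0) .nil) .nil))) 
(.lf (nat_lit 544372) (.g (nat_lit 2327) (.e (nat_lit 98386) (nat_lit 32) (.e (nat_lit 475179) (nat_lit 24) (.e (nat_lit 516146) (nat_lit 9) (.e (nat_lit 426428) (nat_lit 17) (.e (nat_lit 90133) (nat_lit 9) .nil))))) (.g (nat_lit 0) (.e (nat_lit 276418) (nat_lit 0) .nil) .nil)))) (.nd (nat_lit 9) 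
(.lf (nat_lit 544116) (.g (nat_lit 2777) (.e (nat_lit 98381) (nat_lit 31) (.e (nat_lit 466954) (nat_lit 11) (.e (nat_lit 335988) (nat_lit 1) (.e (nat_lit 57692) (nat_lit 156) (.e (nat_lit 163905) (nat_lit 12) (.e (nat_lit 426438) (nat_lit 18) .nil)))))) (.g (nat_lit 1) (.e (nat_lit 276138) (nat_lit 0) .nil) .nil))) 
(.lf (nat_lit 544628) (.g (nat_lit 2074) (.e (nat_lit 122624) (nat_lit 3) (.e (nat_lit 204809) (nat_lit 9) (.e (nat_lit 426200) (nat_lit 9) (.e (nat_lit 426568) (nat_lit 34) (.e (nat_lit 401152) (nat_lit 3) .nil))))) (.g (nat_lit 0) (.e (nat_lit 277392) (nat_lit 0) .nil) .nil))))) (.nd (nat_lit 8) (.nd (nat_lit 9) 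
(.lf (nat_lit 543988) (.g (nat_lit 2939) (.e (nat_lit 98373) (nat_lit 29) (.e (nat_lit 450587) (nat_lit 10) (.e (nat_lit 573478) (nat_lit 12) (.e (nat_lit 57574) (nat_lit 55) (.e (nat_lit 786176) (nat_lit 11) (.e (nat_lit 24609) (nat_lit 3) .nil)))))) (.g (nat_lit 1) (.e (nat_lit 275967) (nat_lit 0) .nil) .nil))) 
(.lf (nat_lit 544500) (.g (nat_lit 1851) (.e (nat_lit 114432) (nat_lit 6) (.e (nat_lit 188453) (nat_lit 24) (.e (nat_lit 229665) (nat_lit 240) (.e (nat_lit 2651) (nat_lit 166) (.e (nat_lit 196352) (nat_lit 4) .nil))))) (.g (nat_lit 0) (.e (nat_lit 276954) (nat_lit 0) .nil) .nil)))) (.nd (nat_lit 9) 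
(.lf (nat_lit 544244) (.g (nat_lit 4644) (.e (nat_lit 98384) (nat_lit 32) (.e (nat_lit 475179) (nat_lit 24) (.e (nat_lit 516115) (nat_lit 1) (.e (nat_lit 164325) (nat_lit 230) (.e (nat_lit 163873) (nat_lit 3) (.e (nat_lit 204838) (nat_lit 20) (.e (nat_lit 114719) (nat_lit 23) .nil))))))) (.g (nat_lit 1) (.e (nat_lit 276283) (nat_lit 0) .nil) .nil))) 
(.lf (nat_lit 544756) (.g (nat_lit 2021) (.e (nat_lit 114696) (nat_lit 11) (.e (nat_lit 426129) (nat_lit 3) (.e (nat_lit 204876) (nat_lit 31) (.e (nat_lit 376835) (nat_lit 0) (.e (nat_lit 3253) (nat_lit 197) (.e (nat_lit 532515) (nat_lit 3) .nil)))))) (.g (nat_lit 1) (.e (nat_lit 277724) (nat_lit 0) .nil) .nil))))))))) 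
(.nd (nat_lit 4) (.nd (nat_lit 5) (.nd (nat_lit 6) (.nd (nat_lit 7) (.nd (nat_lit 8) 
(.nd (nat_lit 9) 
(.lf (nat_lit 543756) (.g (nat_lit 2359) (.e (nat_lit 98367) (nat_lit 27) (.e (nat_lit 434248) (nat_lit 28) (.e (nat_lit 573487) (nat_lit 14) (.e (nat_lit 73753) (nat_lit 8) (.e (nat_lit 557093) (nat_lit 12) .nil))))) (.g (nat_lit 0) (.e (nat_lit 275595) (nat_lit 0) .nil) .nil))) 
(.lf (nat_lit 544268) (.g (nat_lit 1900) (.e (nat_lit 98384) (nat_lit 32) (.e (nat_lit 475179) (nat_lit 24) (.e (nat_lit 516179) (nat_lit 15) (.e (nat_lit 475177) (nat_lit 24) (.e (nat_lit 516148) (nat_lit 9) (.e (nat_lit 426434) (nat_lit 18) .nil)))))) (.g (nat_lit 1) (.e (nat_lit 276307) (nat_lit 0) .nil) .nil)))) (.nd (nat_lit 9) 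
(.lf (nat_lit 544012) (.g (nat_lit 5155) (.e (nat_lit 98373) (nat_lit 29) (.e (nat_lit 450588) (nat_lit 10) (.e (nat_lit 573475) (nat_lit 12) (.e (nat_lit 57347) (nat_lit 0) (.e (nat_lit 7261) (nat_lit 384) (.e (nat_lit 57412) (nat_lit 12) (.e (nat_lit 336023) (nat_lit 3) .nil))))))) (.g (nat_lit 1) (.e (nat_lit 275991) (nat_lit 0) .nil) .nil))) 
(.lf (nat_lit 544524) (.g (nat_lit 2078) (.e (nat_lit 114432) (nat_lit 6) (.e (nat_lit 188455) (nat_lit 24) (.e (nat_lit 229663) (nat_lit 240) (.e (nat_lit 2450) (nat_lit 157) .nil)))) (.g (nat_lit 0) (.e (nat_lit 276984) (nat_lit 0) .nil) .nil))))) (.nd (nat_lit 8) (.nd (nat_lit 9) 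
(.lf (nat_lit 543884) (.g (nat_lit 921) (.e (nat_lit 98372) (nat_lit 29) (.e (nat_lit 450579) (nat_lit 5) (.e (nat_lit 532522) (nat_lit 7) (.e (nat_lit 319500) (nat_lit 10) .nil)))) (.g (nat_lit 0) (.e (nat_lit 275857) (nat_lit 0) .nil) .nil))) 
(.lf (nat_lit 544396) (.g (nat_lit 3621) (.e (nat_lit 98387) (nat_lit 33) (.e (nat_lit 491549) (nat_lit 9) (.e (nat_lit 336306) (nat_lit 15) (.e (nat_lit 3308) (nat_lit 202) (.e (nat_lit 573482) (nat_lit 13) (.e (nat_lit 65604) (nat_lit 9) (.e (nat_lit 336028) (nat_lit 3) .nil))))))) (.g (nat_lit 1) (.e (nat_lit 276448) (nat_lit 0) .nil) .nil)))) (.nd (nat_lit 9) 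
(.lf (nat_lit 544140) (.g (nat_lit 2770) (.e (nat_lit 98381) (nat_lit 31) (.e (nat_lit 466954) (nat_lit 11) (.e (nat_lit 335996) (nat_lit 1) (.e (nat_lit 57692) (nat_lit 156) (.e (nat_lit 163905) (nat_lit 12) (.e (nat_lit 426438) (nat_lit 18) .nil)))))) (.g (nat_lit 1) (.e (nat_lit 276162) (nat_lit 0) .nil) .nil))) 
(.lf (nat_lit 544652) (.g (nat_lit 855) (.e (nat_lit 122624) (nat_lit 4) (.e (nat_lit 213032) (nat_lit 11) (.e (nat_lit 24624) (nat_lit 9) .nil))) (.g (nat_lit 0) (.e (nat_lit 277460) (nat_lit 0) .nil) .nil)))))) (.nd (nat_lit 7) (.nd (nat_lit 8) (.nd (nat_lit 9) 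
(.lf (nat_lit 543820) (.g (nat_lit 3220) (.e (nat_lit 98368) (nat_lit 27) (.e (nat_lit 434247) (nat_lit 28) (.e (nat_lit 573489) (nat_lit 14) (.e (nat_lit 73755) (nat_lit 8) (.e (nat_lit 557090) (nat_lit 12) (.e (nat_lit 163844) (nat_lit 0) (.e (nat_lit 5942) (nat_lit 322) (.e (nat_lit 57378) (nat_lit 3) .nil)))))))) (.g (nat_lit 1) (.e (nat_lit 275718) (nat_lit 0) .nil) .nil))) 
(.lf (nat_lit 544332) (.g (nat_lit 2783) (.e (nat_lit 98386) (nat_lit 32) (.e (nat_lit 475177) (nat_lit 24) (.e (nat_lit 516150) (nat_lit 9) (.e (nat_lit 426428) (nat_lit 17) (.e (nat_lit 90133) (nat_lit 9) (.e (nat_lit 2900) (nat_lit 184) (.e (nat_lit 426435) (nat_lit 18) .nil))))))) (.g (nat_lit 1) (.e (nat_lit 276377) (nat_lit 0) .nil) .nil)))) (.nd (nat_lit 9) 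
(.lf (nat_lit 544076) (.g (nat_lit 2918) (.e (nat_lit 98380) (nat_lit 31) (.e (nat_lit 466954) (nat_lit 11) (.e (nat_lit 335986) (nat_lit 1) (.e (nat_lit 57688) (nat_lit 156) (.e (nat_lit 163903) (nat_lit 12) (.e (nat_lit 426436) (nat_lit 18) .nil)))))) (.g (nat_lit 1) (.e (nat_lit 276094) (nat_lit 0) .nil) .nil))) 
(.lf (nat_lit 544588) (.g (nat_lit 643) (.e (nat_lit 106534) (nat_lit 11) (.e (nat_lit 16412) (nat_lit 2) (.e (nat_lit 196674) (nat_lit 15) (.e (nat_lit 81922) (nat_lit 0) .nil)))) (.g (nat_lit 0) (.e (nat_lit 277184) (nat_lit 0) .nil) .nil))))) (.nd (nat_lit 8) (.nd (nat_lit 9) 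
(.lf (nat_lit 543948) (.g (nat_lit 2085) (.e (nat_lit 98373) (nat_lit 29) (.e (nat_lit 450585) (nat_lit 10) (.e (nat_lit 573474) (nat_lit 12) (.e (nat_lit 57569) (nat_lit 53) .nil)))) (.g (nat_lit 0) (.e (nat_lit 275927) (nat_lit 0) .nil) .nil))) 
(.lf (nat_lit 544460) (.g (nat_lit 2999) (.e (nat_lit 114432) (nat_lit 3) (.e (nat_lit 163979) (nat_lit 30) (.e (nat_lit 573493) (nat_lit 15) (.e (nat_lit 81956) (nat_lit 23) (.e (nat_lit 106240) (nat_lit 26) .nil))))) (.g (nat_lit 0) (.e (nat_lit 276760) (nat_lit 0) .nil) .nil)))) (.nd (nat_lit 9) 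
(.lf (nat_lit 544204) (.g (nat_lit 1490) (.e (nat_lit 98384) (nat_lit 32) (.e (nat_lit 475177) (nat_lit 24) (.e (nat_lit 516146) (nat_lit 9) (.e (nat_lit 426428) (nat_lit 17) (.e (nat_lit 90125) (nat_lit 9) (.e (nat_lit 2900) (nat_lit 184) (.e (nat_lit 426435) (nat_lit 18) .nil))))))) (.g (nat_lit 1) (.e (nat_lit 276243) (nat_lit 0) .nil) .nil))) 
(.lf (nat_lit 544716) (.g (nat_lit 2233) (.e (nat_lit 114694) (nat_lit 11) (.e (nat_lit 426200) (nat_lit 9) (.e (nat_lit 426555) (nat_lit 32) (.e (nat_lit 376856) (nat_lit 21) .nil)))) (.g (nat_lit 0) (.e (nat_lit 277649) (nat_lit 0) .nil) .nil))))))) (.nd (nat_lit 6) (.nd (nat_lit 7) (.nd (nat_lit 8) (.nd (nat_lit 9) 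
(.lf (nat_lit 543788) (.g (nat_lit 1173) (.e (nat_lit 98368) (nat_lit 27) (.e (nat_lit 434245) (nat_lit 28) (.e (nat_lit 573481) (nat_lit 13) (.e (nat_lit 73472) (nat_lit 18) .nil)))) (.g (nat_lit 0) (.e (nat_lit 275640) (nat_lit 0) .nil) .nil))) 
(.lf (nat_lit 544300) (.g (nat_lit 445) (.e (nat_lit 98385) (nat_lit 32) (.e (nat_lit 475177) (nat_lit 24) (.e (nat_lit 516181) (nat_lit 15) .nil))) (.g (nat_lit 0) (.e (nat_lit 276343) (nat_lit 0) .nil) .nil)))) (.nd (nat_lit 9) 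
(.lf (nat_lit 544044) (.g (nat_lit 2163) (.e (nat_lit 98377) (nat_lit 30) (.e (nat_lit 458789) (nat_lit 23) (.e (nat_lit 532499) (nat_lit 1) (.e (nat_lit 57692) (nat_lit 156) (.e (nat_lit 163874) (nat_lit 3) .nil))))) (.g (nat_lit 0) (.e (nat_lit 276048) (nat_lit 0) .nil) .nil))) 
(.lf (nat_lit 544556) (.g (nat_lit 1191) (.e (nat_lit 114432) (nat_lit 6) (.e (nat_lit 188455) (nat_lit 24) (.e (nat_lit 229681) (nat_lit 244) (.e (nat_lit 163919) (nat_lit 14) (.e (nat_lit 450304) (nat_lit 4) .nil))))) (.g (nat_lit 0) (.e (nat_lit 277018) (nat_lit 0) .nil) .nil))))) (.nd (nat_lit 8) (.nd (nat_lit 9) 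
(.lf (nat_lit 543916) (.g (nat_lit 2614) (.e (nat_lit 98372) (nat_lit 29) (.e (nat_lit 450586) (nat_lit 10) (.e (nat_lit 573471) (nat_lit 11) (.e (nat_lit 16391) (nat_lit 0) (.e (nat_lit 7936) (nat_lit 402) .nil))))) (.g (nat_lit 0) (.e (nat_lit 275889) (nat_lit 0) .nil) .nil))) 
(.lf (nat_lit 544428) (.g (nat_lit 3235) (.e (nat_lit 98389) (nat_lit 33) (.e (nat_lit 491560) (nat_lit 10) (.e (nat_lit 344117) (nat_lit 21) (.e (nat_lit 516106) (nat_lit 0) (.e (nat_lit 6986) (nat_lit 377) (.e (nat_lit 2781) (nat_lit 178) (.e (nat_lit 286734) (nat_lit 3) .nil))))))) (.g (nat_lit 1) (.e (nat_lit 276485) (nat_lit 0) .nil) .nil)))) (.nd (nat_lit 9) 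
(.lf (nat_lit 544172) (.g (nat_lit 2085) (.e (nat_lit 98382) (nat_lit 31) (.e (nat_lit 466977) (nat_lit 22) (.e (nat_lit 196681) (nat_lit 17) (.e (nat_lit 131089) (nat_lit 1) (.e (nat_lit 57930) (nat_lit 282) (.e (nat_lit 171776) (nat_lit 64) .nil)))))) (.g (nat_lit 1) (.e (nat_lit 276197) (nat_lit 0) .nil) .nil))) 
(.lf (nat_lit 544684) (.g (nat_lit 1471) (.e (nat_lit 122624) (nat_lit 5) (.e (nat_lit 221194) (nat_lit 11) (.e (nat_lit 336087) (nat_lit 9) (.e (nat_lit 336430) (nat_lit 29) (.e (nat_lit 450304) (nat_lit 5) .nil))))) (.g (nat_lit 0) (.e (nat_lit 277522) (nat_lit 0) .nil) .nil)))))) (.nd (nat_lit 7) (.nd (nat_lit 8) (.nd (nat_lit 9) 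
(.lf (nat_lit 543852) (.g (nat_lit 3447) (.e (nat_lit 98368) (nat_lit 27) (.e (nat_lit 434248) (nat_lit 28) (.e (nat_lit 573489) (nat_lit 14) (.e (nat_lit 73755) (nat_lit 8) (.e (nat_lit 557074) (nat_lit 9) (.e (nat_lit 2609) (nat_lit 163) (.e (nat_lit 164403) (nat_lit 256) (.e (nat_lit 57378) (nat_lit 3) .nil)))))))) (.g (nat_lit 1) (.e (nat_lit 275786) (nat_lit 0) .nil) .nil))) 
(.lf (nat_lit 544364) (.g (nat_lit 3685) (.e (nat_lit 98386) (nat_lit 32) (.e (nat_lit 475179) (nat_lit 24) (.e (nat_lit 516120) (nat_lit 1) (.e (nat_lit 164330) (nat_lit 230) (.e (nat_lit 163857) (nat_lit 0) (.e (nat_lit 3253) (nat_lit 197) (.e (nat_lit 532515) (nat_lit 3) (.e (nat_lit 114719) (nat_lit 23) .nil)))))))) (.g (nat_lit 1) (.e (nat_lit 276410) (nat_lit 0) .nil) .nil)))) 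
(.nd (nat_lit 9) 
(.lf (nat_lit 544108) (.g (nat_lit 2661) (.e (nat_lit 98381) (nat_lit 31) (.e (nat_lit 466954) (nat_lit 11) (.e (nat_lit 335986) (nat_lit 1) (.e (nat_lit 57688) (nat_lit 156) (.e (nat_lit 163902) (nat_lit 12) (.e (nat_lit 426434) (nat_lit 18) .nil)))))) (.g (nat_lit 1) (.e (nat_lit 276130) (nat_lit 0) .nil) .nil))) 
(.lf (nat_lit 544620) (.g (nat_lit 1271) (.e (nat_lit 106536) (nat_lit 11) (.e (nat_lit 16413) (nat_lit 2) (.e (nat_lit 196665) (nat_lit 13) (.e (nat_lit 65623) (nat_lit 12) (.e (nat_lit 385067) (nat_lit 26) .nil))))) (.g (nat_lit 0) (.e (nat_lit 277249) (nat_lit 0) .nil) .nil))))) (.nd (nat_lit 8) (.nd (nat_lit 9) 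
(.lf (nat_lit 543980) (.g (nat_lit 3245) (.e (nat_lit 98373) (nat_lit 29) (.e (nat_lit 450587) (nat_lit 10) (.e (nat_lit 573477) (nat_lit 12) (.e (nat_lit 57574) (nat_lit 55) (.e (nat_lit 786176) (nat_lit 11) (.e (nat_lit 24609) (nat_lit 3) .nil)))))) (.g (nat_lit 1) (.e (nat_lit 275959) (nat_lit 0) .nil) .nil))) 
(.lf (nat_lit 544492) (.g (nat_lit 1565) (.e (nat_lit 114432) (nat_lit 6) (.e (nat_lit 188452) (nat_lit 23) (.e (nat_lit 204809) (nat_lit 9) (.e (nat_lit 426108) (nat_lit 1) .nil)))) (.g (nat_lit 0) (.e (nat_lit 276945) (nat_lit 0) .nil) .nil)))) (.nd (nat_lit 9) 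
(.lf (nat_lit 544236) (.g (nat_lit 2915) (.e (nat_lit 98384) (nat_lit 32) (.e (nat_lit 475177) (nat_lit 24) (.e (nat_lit 516180) (nat_lit 15) (.e (nat_lit 475177) (nat_lit 24) (.e (nat_lit 516150) (nat_lit 9) (.e (nat_lit 426434) (nat_lit 18) .nil)))))) (.g (nat_lit 1) (.e (nat_lit 276275) (nat_lit 0) .nil) .nil))) 
(.lf (nat_lit 544748) (.g (nat_lit 1201) (.e (nat_lit 114695) (nat_lit 11) (.e (nat_lit 426262) (nat_lit 9) (.e (nat_lit 426554) (nat_lit 32) (.e (nat_lit 376857) (nat_lit 21) (.e (nat_lit 57848) (nat_lit 252) (.e (nat_lit 57390) (nat_lit 5) .nil)))))) (.g (nat_lit 1) (.e (nat_lit 277702) (nat_lit 0) .nil) .nil)))))))) 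
(.nd (nat_lit 5) (.nd (nat_lit 6) (.nd (nat_lit 7) (.nd (nat_lit 8) (.nd (nat_lit 9) 
(.lf (nat_lit 543772) (.g (nat_lit 3935) (.e (nat_lit 98367) (nat_lit 27) (.e (nat_lit 434248) (nat_lit 28) (.e (nat_lit 573489) (nat_lit 14) (.e (nat_lit 73755) (nat_lit 8) (.e (nat_lit 557090) (nat_lit 12) (.e (nat_lit 171776) (nat_lit 0) (.e (nat_lit 5937) (nat_lit 322) (.e (nat_lit 57378) (nat_lit 3) .nil)))))))) (.g (nat_lit 1) (.e (nat_lit 275611) (nat_lit 0) .nil) .nil))) 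
(.lf (nat_lit 544284) (.g (nat_lit 1706) (.e (nat_lit 98385) (nat_lit 32) (.e (nat_lit 475177) (nat_lit 24) (.e (nat_lit 516150) (nat_lit 9) (.e (nat_lit 426428) (nat_lit 17) (.e (nat_lit 90133) (nat_lit 9) .nil))))) (.g (nat_lit 0) (.e (nat_lit 276323) (nat_lit 0) .nil) .nil)))) (.nd (nat_lit 9) 
(.lf (nat_lit 544028) (.g (nat_lit 3232) (.e (nat_lit 98374) (nat_lit 29) (.e (nat_lit 450586) (nat_lit 10) (.e (nat_lit 573477) (nat_lit 12) (.e (nat_lit 57575) (nat_lit 55) (.e (nat_lit 778465) (nat_lit 11) (.e (nat_lit 24607) (nat_lit 3) .nil)))))) (.g (nat_lit 1) (.e (nat_lit 276008) (nat_lit 0) .nil) .nil))) 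
(.lf (nat_lit 544540) (.g (nat_lit 1062) (.e (nat_lit 114432) (nat_lit 6) (.e (nat_lit 188455) (nat_lit 24) (.e (nat_lit 229677) (nat_lit 244) (.e (nat_lit 163931) (nat_lit 17) .nil)))) (.g (nat_lit 0) (.e (nat_lit 277002) (nat_lit 0) .nil) .nil))))) (.nd (nat_lit 8) (.nd (nat_lit 9) 
(.lf (nat_lit 543900) (.g (nat_lit 2636) (.e (nat_lit 98372) (nat_lit 29) (.e (nat_lit 450579) (nat_lit 5) (.e (nat_lit 532534) (nat_lit 9) (.e (nat_lit 336000) (nat_lit 1) (.e (nat_lit 57929) (nat_lit 282) (.e (nat_lit 171776) (nat_lit 64) .nil)))))) (.g (nat_lit 1) (.e (nat_lit 275873) (nat_lit 0) .nil) .nil))) 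
(.lf (nat_lit 544412) (.g (nat_lit 2769) (.e (nat_lit 98389) (nat_lit 33) (.e (nat_lit 491526) (nat_lit 0) (.e (nat_lit 6680) (nat_lit 357) (.e (nat_lit 2664) (nat_lit 167) (.e (nat_lit 196672) (nat_lit 15) (.e (nat_lit 81954) (nat_lit 23) .nil)))))) (.g (nat_lit 1) (.e (nat_lit 276468) (nat_lit 0) .nil) .nil)))) (.nd (nat_lit 9) 
(.lf (nat_lit 544156) (.g (nat_lit 2964) (.e (nat_lit 98381) (nat_lit 31) (.e (nat_lit 466981) (nat_lit 23) (.e (nat_lit 204846) (nat_lit 24) (.e (nat_lit 319504) (nat_lit 10) (.e (nat_lit 7936) (nat_lit 298) .nil))))) (.g (nat_lit 0) (.e (nat_lit 276180) (nat_lit 0) .nil) .nil))) 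
(.lf (nat_lit 544668) (.g (nat_lit 1136) (.e (nat_lit 122624) (nat_lit 4) (.e (nat_lit 213032) (nat_lit 11) (.e (nat_lit 24655) (nat_lit 13) (.e (nat_lit 393279) (nat_lit 23) .nil)))) (.g (nat_lit 0) (.e (nat_lit 277496) (nat_lit 0) .nil) .nil)))))) (.nd (nat_lit 7) (.nd (nat_lit 8) (.nd (nat_lit 9) 
(.lf (nat_lit 543836) (.g (nat_lit 2669) (.e (nat_lit 98368) (nat_lit 27) (.e (nat_lit 434248) (nat_lit 28) (.e (nat_lit 573487) (nat_lit 14) (.e (nat_lit 73746) (nat_lit 3) (.e (nat_lit 516120) (nat_lit 1) .nil))))) (.g (nat_lit 0) (.e (nat_lit 275757) (nat_lit 0) .nil) .nil))) 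
(.lf (nat_lit 544348) (.g (nat_lit 3013) (.e (nat_lit 98386) (nat_lit 32) (.e (nat_lit 475177) (nat_lit 24) (.e (nat_lit 516181) (nat_lit 15) (.e (nat_lit 475177) (nat_lit 24) (.e (nat_lit 516148) (nat_lit 9) (.e (nat_lit 426436) (nat_lit 18) .nil)))))) (.g (nat_lit 1) (.e (nat_lit 276393) (nat_lit 0) .nil) .nil)))) (.nd (nat_lit 9) 
(.lf (nat_lit 544092) (.g (nat_lit 1370) (.e (nat_lit 98380) (nat_lit 31) (.e (nat_lit 466954) (nat_lit 11) (.e (nat_lit 335996) (nat_lit 1) (.e (nat_lit 57685) (nat_lit 156) .nil)))) (.g (nat_lit 0) (.e (nat_lit 276110) (nat_lit 0) .nil) .nil))) 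
(.lf (nat_lit 544604) (.g (nat_lit 2624) (.e (nat_lit 106534) (nat_lit 11) (.e (nat_lit 16416) (nat_lit 3) (.e (nat_lit 204866) (nat_lit 28) (.e (nat_lit 352262) (nat_lit 0) (.e (nat_lit 3253) (nat_lit 197) (.e (nat_lit 532510) (nat_lit 2) .nil)))))) (.g (nat_lit 1) (.e (nat_lit 277206) (nat_lit 0) .nil) .nil))))) (.nd (nat_lit 8) (.nd (nat_lit 9) 
(.lf (nat_lit 543964) (.g (nat_lit 3712) (.e (nat_lit 98373) (nat_lit 29) (.e (nat_lit 450587) (nat_lit 10) (.e (nat_lit 573475) (nat_lit 12) (.e (nat_lit 57347) (nat_lit 0) (.e (nat_lit 7265) (nat_lit 384) (.e (nat_lit 57406) (nat_lit 12) (.e (nat_lit 343808) (nat_lit 3) .nil))))))) (.g (nat_lit 1) (.e (nat_lit 275943) (nat_lit 0) .nil) .nil))) 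
(.lf (nat_lit 544476) (.g (nat_lit 361) (.e (nat_lit 114432) (nat_lit 6) (.e (nat_lit 188431) (nat_lit 20) (.e (nat_lit 3399) (nat_lit 211) .nil))) (.g (nat_lit 0) (.e (nat_lit 276919) (nat_lit 0) .nil) .nil)))) (.nd (nat_lit 9) 
(.lf (nat_lit 544220) (.g (nat_lit 2591) (.e (nat_lit 98384) (nat_lit 32) (.e (nat_lit 475177) (nat_lit 24) (.e (nat_lit 516150) (nat_lit 9) (.e (nat_lit 426428) (nat_lit 17) (.e (nat_lit 90169) (nat_lit 13) (.e (nat_lit 179968) (nat_lit 18) .nil)))))) (.g (nat_lit 1) (.e (nat_lit 276259) (nat_lit 0) .nil) .nil))) 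
(.lf (nat_lit 544732) (.g (nat_lit 1778) (.e (nat_lit 114695) (nat_lit 11) (.e (nat_lit 426230) (nat_lit 9) (.e (nat_lit 426554) (nat_lit 32) (.e (nat_lit 376857) (nat_lit 21) (.e (nat_lit 57849) (nat_lit 252) (.e (nat_lit 57390) (nat_lit 5) .nil)))))) (.g (nat_lit 1) (.e (nat_lit 277686) (nat_lit 0) .nil) .nil))))))) (.nd (nat_lit 6) (.nd (nat_lit 7) (.nd (nat_lit 8) (.nd (nat_lit 9) 
(.lf (nat_lit 543804) (.g (nat_lit 459) (.e (nat_lit 98368) (nat_lit 27) (.e (nat_lit 434247) (nat_lit 28) (.e (nat_lit 573485) (nat_lit 13) .nil))) (.g (nat_lit 0) (.e (nat_lit 275687) (nat_lit 0) .nil) .nil))) 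
(.lf (nat_lit 544316) (.g (nat_lit 1588) (.e (nat_lit 98386) (nat_lit 32) (.e (nat_lit 475176) (nat_lit 24) (.e (nat_lit 516146) (nat_lit 9) (.e (nat_lit 426428) (nat_lit 17) (.e (nat_lit 90125) (nat_lit 9) (.e (nat_lit 2900) (nat_lit 184) (.e (nat_lit 426435) (nat_lit 18) .nil))))))) (.g (nat_lit 1) (.e (nat_lit 276361) (nat_lit 0) .nil) .nil)))) (.nd (nat_lit 9) 
(.lf (nat_lit 544060) (.g (nat_lit 1587) (.e (nat_lit 98379) (nat_lit 31) (.e (nat_lit 466977) (nat_lit 22) (.e (nat_lit 196681) (nat_lit 17) (.e (nat_lit 131086) (nat_lit 1) (.e (nat_lit 57929) (nat_lit 282) (.e (nat_lit 171776) (nat_lit 64) .nil)))))) (.g (nat_lit 1) (.e (nat_lit 276072) (nat_lit 0) .nil) .nil))) 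
(.lf (nat_lit 544572) (.g (nat_lit 4472) (.e (nat_lit 106517) (nat_lit 9) (.e (nat_lit 1255) (nat_lit 92) (.e (nat_lit 98356) (nat_lit 26) (.e (nat_lit 426438) (nat_lit 18) (.e (nat_lit 98335) (nat_lit 18) (.e (nat_lit 164327) (nat_lit 230) (.e (nat_lit 163875) (nat_lit 3) (.e (nat_lit 204834) (nat_lit 19) .nil)))))))) (.g (nat_lit 1) (.e (nat_lit 277100) (nat_lit 0) .nil) .nil))))) 
(.nd (nat_lit 8) (.nd (nat_lit 9) 
(.lf (nat_lit 543932) (.g (nat_lit 2741) (.e (nat_lit 98372) (nat_lit 29) (.e (nat_lit 450586) (nat_lit 10) (.e (nat_lit 573478) (nat_lit 12) (.e (nat_lit 57573) (nat_lit 55) (.e (nat_lit 778469) (nat_lit 11) (.e (nat_lit 24608) (nat_lit 3) .nil)))))) (.g (nat_lit 1) (.e (nat_lit 275908) (nat_lit 0) .nil) .nil))) 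
(.lf (nat_lit 544444) (.g (nat_lit 3378) (.e (nat_lit 114432) (nat_lit 3) (.e (nat_lit 163977) (nat_lit 30) (.e (nat_lit 573493) (nat_lit 15) (.e (nat_lit 81956) (nat_lit 23) (.e (nat_lit 106240) (nat_lit 26) .nil))))) (.g (nat_lit 0) (.e (nat_lit 276730) (nat_lit 0) .nil) .nil)))) (.nd (nat_lit 9) 
(.lf (nat_lit 544188) (.g (nat_lit 1104) (.e (nat_lit 98383) (nat_lit 32) (.e (nat_lit 475199) (nat_lit 40) (.e (nat_lit 704589) (nat_lit 3) (.e (nat_lit 163975) (nat_lit 30) .nil)))) (.g (nat_lit 0) (.e (nat_lit 276225) (nat_lit 0) .nil) .nil))) 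
(.lf (nat_lit 544700) (.g (nat_lit 2246) (.e (nat_lit 114694) (nat_lit 11) (.e (nat_lit 426133) (nat_lit 3) (.e (nat_lit 204861) (nat_lit 26) (.e (nat_lit 336086) (nat_lit 9) (.e (nat_lit 336324) (nat_lit 18) (.e (nat_lit 204838) (nat_lit 20) .nil)))))) (.g (nat_lit 1) (.e (nat_lit 277569) (nat_lit 0) .nil) .nil)))))) (.nd (nat_lit 7) (.nd (nat_lit 8) (.nd (nat_lit 9) 
(.lf (nat_lit 543868) (.g (nat_lit 1588) (.e (nat_lit 98369) (nat_lit 28) (.e (nat_lit 442390) (nat_lit 11) (.e (nat_lit 335986) (nat_lit 1) (.e (nat_lit 57692) (nat_lit 156) (.e (nat_lit 163906) (nat_lit 12) (.e (nat_lit 426437) (nat_lit 18) .nil)))))) (.g (nat_lit 1) (.e (nat_lit 275821) (nat_lit 0) .nil) .nil))) 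
(.lf (nat_lit 544380) (.g (nat_lit 2006) (.e (nat_lit 98386) (nat_lit 32) (.e (nat_lit 475196) (nat_lit 40) (.e (nat_lit 704590) (nat_lit 3) (.e (nat_lit 163975) (nat_lit 30) (.e (nat_lit 573491) (nat_lit 15) (.e (nat_lit 89856) (nat_lit 23) .nil)))))) (.g (nat_lit 1) (.e (nat_lit 276427) (nat_lit 0) .nil) .nil)))) (.nd (nat_lit 9) 
(.lf (nat_lit 544124) (.g (nat_lit 2675) (.e (nat_lit 98381) (nat_lit 31) (.e (nat_lit 466954) (nat_lit 11) (.e (nat_lit 335994) (nat_lit 1) (.e (nat_lit 57688) (nat_lit 156) (.e (nat_lit 163903) (nat_lit 12) (.e (nat_lit 426438) (nat_lit 18) .nil)))))) (.g (nat_lit 1) (.e (nat_lit 276146) (nat_lit 0) .nil) .nil))) 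
(.lf (nat_lit 544636) (.g (nat_lit 1756) (.e (nat_lit 122624) (nat_lit 3) (.e (nat_lit 204813) (nat_lit 9) (.e (nat_lit 426188) (nat_lit 9) (.e (nat_lit 426568) (nat_lit 34) (.e (nat_lit 401152) (nat_lit 3) .nil))))) (.g (nat_lit 0) (.e (nat_lit 277420) (nat_lit 0) .nil) .nil))))) (.nd (nat_lit 8) (.nd (nat_lit 9) 
(.lf (nat_lit 543996) (.g (nat_lit 1699) (.e (nat_lit 98373) (nat_lit 29) (.e (nat_lit 450588) (nat_lit 10) (.e (nat_lit 573451) (nat_lit 9) (.e (nat_lit 392) (nat_lit 32) .nil)))) (.g (nat_lit 0) (.e (nat_lit 275975) (nat_lit 0) .nil) .nil))) 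
(.lf (nat_lit 544508) (.g (nat_lit 1549) (.e (nat_lit 114432) (nat_lit 6) (.e (nat_lit 188453) (nat_lit 24) (.e (nat_lit 229678) (nat_lit 244) (.e (nat_lit 163921) (nat_lit 14) (.e (nat_lit 450304) (nat_lit 4) .nil))))) (.g (nat_lit 0) (.e (nat_lit 276962) (nat_lit 0) .nil) .nil)))) (.nd (nat_lit 9) 
(.lf (nat_lit 544252) (.g (nat_lit 3850) (.e (nat_lit 98384) (nat_lit 32) (.e (nat_lit 475179) (nat_lit 24) (.e (nat_lit 516117) (nat_lit 1) (.e (nat_lit 164330) (nat_lit 230) (.e (nat_lit 163872) (nat_lit 3) (.e (nat_lit 204837) (nat_lit 20) (.e (nat_lit 114719) (nat_lit 23) .nil))))))) (.g (nat_lit 1) (.e (nat_lit 276291) (nat_lit 0) .nil) .nil))) 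
(.lf (nat_lit 544764) (.g (nat_lit 1793) (.e (nat_lit 114696) (nat_lit 11) (.e (nat_lit 426225) (nat_lit 9) (.e (nat_lit 426555) (nat_lit 32) (.e (nat_lit 376859) (nat_lit 21) (.e (nat_lit 57854) (nat_lit 252) .nil))))) (.g (nat_lit 0) (.e (nat_lit 277736) (nat_lit 0) .nil) .nil))))))))))) 
(.nd (nat_lit 2) (.nd (nat_lit 3) (.nd (nat_lit 4) (.nd (nat_lit 5) (.nd (nat_lit 6) 
(.nd (nat_lit 7) (.nd (nat_lit 8) (.nd (nat_lit 9) 
(.lf (nat_lit 543746) (.g (nat_lit 1285) (.e (nat_lit 98367) (nat_lit 27) (.e (nat_lit 434248) (nat_lit 28) (.e (nat_lit 573482) (nat_lit 13) (.e (nat_lit 73472) (nat_lit 18) .nil)))) (.g (nat_lit 0) (.e (nat_lit 275585) (nat_lit 0) .nil) .nil))) 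
(.lf (nat_lit 544258) (.g (nat_lit 4507) (.e (nat_lit 98384) (nat_lit 32) (.e (nat_lit 475179) (nat_lit 24) (.e (nat_lit 516119) (nat_lit 1) (.e (nat_lit 164327) (nat_lit 230) (.e (nat_lit 163875) (nat_lit 3) (.e (nat_lit 204838) (nat_lit 20) (.e (nat_lit 114719) (nat_lit 23) .nil))))))) (.g (nat_lit 1) (.e (nat_lit 276297) (nat_lit 0) .nil) .nil)))) (.nd (nat_lit 9) 
(.lf (nat_lit 544002) (.g (nat_lit 1873) (.e (nat_lit 98373) (nat_lit 29) (.e (nat_lit 450588) (nat_lit 10) (.e (nat_lit 573471) (nat_lit 11) (.e (nat_lit 16394) (nat_lit 0) .nil)))) (.g (nat_lit 0) (.e (nat_lit 275981) (nat_lit 0) .nil) .nil))) 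
(.lf (nat_lit 544514) (.g (nat_lit 926) (.e (nat_lit 114432) (nat_lit 6) (.e (nat_lit 188453) (nat_lit 24) (.e (nat_lit 229680) (nat_lit 244) (.e (nat_lit 163921) (nat_lit 14) .nil)))) (.g (nat_lit 0) (.e (nat_lit 276968) (nat_lit 0) .nil) .nil))))) (.nd (nat_lit 8) (.nd (nat_lit 9) 
(.lf (nat_lit 543874) (.g (nat_lit 2862) (.e (nat_lit 98370) (nat_lit 28) (.e (nat_lit 442390) (nat_lit 11) (.e (nat_lit 335986) (nat_lit 1) (.e (nat_lit 57686) (nat_lit 156) (.e (nat_lit 163902) (nat_lit 12) (.e (nat_lit 426438) (nat_lit 18) .nil)))))) (.g (nat_lit 1) (.e (nat_lit 275829) (nat_lit 0) .nil) .nil))) 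
(.lf (nat_lit 544386) (.g (nat_lit 2895) (.e (nat_lit 98386) (nat_lit 32) (.e (nat_lit 475198) (nat_lit 40) (.e (nat_lit 704590) (nat_lit 3) (.e (nat_lit 163975) (nat_lit 30) (.e (nat_lit 573491) (nat_lit 15) (.e (nat_lit 89856) (nat_lit 23) .nil)))))) (.g (nat_lit 1) (.e (nat_lit 276436) (nat_lit 0) .nil) .nil)))) (.nd (nat_lit 9) 
(.lf (nat_lit 544130) (.g (nat_lit 390) (.e (nat_lit 98381) (nat_lit 31) (.e (nat_lit 466954) (nat_lit 11) (.e (nat_lit 335995) (nat_lit 1) .nil))) (.g (nat_lit 0) (.e (nat_lit 276152) (nat_lit 0) .nil) .nil))) 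
(.lf (nat_lit 544642) (.g (nat_lit 1470) (.e (nat_lit 122624) (nat_lit 4) (.e (nat_lit 213030) (nat_lit 11) (.e (nat_lit 24630) (nat_lit 9) (.e (nat_lit 336443) (nat_lit 32) (.e (nat_lit 474880) (nat_lit 5) .nil))))) (.g (nat_lit 0) (.e (nat_lit 277446) (nat_lit 0) .nil) .nil)))))) (.nd (nat_lit 7) (.nd (nat_lit 8) (.nd (nat_lit 9) 
(.lf (nat_lit 543810) (.g (nat_lit 1654) (.e (nat_lit 98368) (nat_lit 27) (.e (nat_lit 434247) (nat_lit 28) (.e (nat_lit 573489) (nat_lit 14) (.e (nat_lit 73754) (nat_lit 8) (.e (nat_lit 557094) (nat_lit 12) .nil))))) (.g (nat_lit 0) (.e (nat_lit 275702) (nat_lit 0) .nil) .nil))) 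
(.lf (nat_lit 544322) (.g (nat_lit 2228) (.e (nat_lit 98386) (nat_lit 32) (.e (nat_lit 475177) (nat_lit 24) (.e (nat_lit 516146) (nat_lit 9) (.e (nat_lit 426428) (nat_lit 17) (.e (nat_lit 90167) (nat_lit 13) (.e (nat_lit 179968) (nat_lit 18) .nil)))))) (.g (nat_lit 1) (.e (nat_lit 276367) (nat_lit 0) .nil) .nil)))) (.nd (nat_lit 9) 
(.lf (nat_lit 544066) (.g (nat_lit 1763) (.e (nat_lit 98379) (nat_lit 31) (.e (nat_lit 466981) (nat_lit 23) (.e (nat_lit 204861) (nat_lit 26) (.e (nat_lit 335988) (nat_lit 1) (.e (nat_lit 57927) (nat_lit 282) (.e (nat_lit 171776) (nat_lit 64) .nil)))))) (.g (nat_lit 1) (.e (nat_lit 276080) (nat_lit 0) .nil) .nil))) 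
(.lf (nat_lit 544578) (.g (nat_lit 2547) (.e (nat_lit 106517) (nat_lit 9) (.e (nat_lit 1255) (nat_lit 92) (.e (nat_lit 98384) (nat_lit 32) (.e (nat_lit 475179) (nat_lit 24) (.e (nat_lit 516120) (nat_lit 1) .nil))))) (.g (nat_lit 0) (.e (nat_lit 277106) (nat_lit 0) .nil) .nil))))) (.nd (nat_lit 8) (.nd (nat_lit 9) 
(.lf (nat_lit 543938) (.g (nat_lit 901) (.e (nat_lit 98372) (nat_lit 29) (.e (nat_lit 450587) (nat_lit 10) (.e (nat_lit 573457) (nat_lit 9) (.e (nat_lit 359) (nat_lit 30) .nil)))) (.g (nat_lit 0) (.e (nat_lit 275914) (nat_lit 0) .nil) .nil))) 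
(.lf (nat_lit 544450) (.g (nat_lit 1111) (.e (nat_lit 114432) (nat_lit 3) (.e (nat_lit 163979) (nat_lit 30) (.e (nat_lit 573491) (nat_lit 15) (.e (nat_lit 81954) (nat_lit 23) .nil)))) (.g (nat_lit 0) (.e (nat_lit 276740) (nat_lit 0) .nil) .nil)))) (.nd (nat_lit 9) 
(.lf (nat_lit 544194) (.g (nat_lit 2802) (.e (nat_lit 98384) (nat_lit 32) (.e (nat_lit 475177) (nat_lit 24) (.e (nat_lit 516117) (nat_lit 1) (.e (nat_lit 164332) (nat_lit 230) (.e (nat_lit 163874) (nat_lit 3) (.e (nat_lit 204837) (nat_lit 20) (.e (nat_lit 114719) (nat_lit 23) .nil))))))) (.g (nat_lit 1) (.e (nat_lit 276233) (nat_lit 0) .nil) .nil))) 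
(.lf (nat_lit 544706) (.g (nat_lit 1519) (.e (nat_lit 114694) (nat_lit 11) (.e (nat_lit 426139) (nat_lit 3) (.e (nat_lit 204852) (nat_lit 26) (.e (nat_lit 343808) (nat_lit 9) .nil)))) (.g (nat_lit 0) (.e (nat_lit 277577) (nat_lit 0) .nil) .nil))))))) (.nd (nat_lit 6) (.nd (nat_lit 7) (.nd (nat_lit 8) (.nd (nat_lit 9) 
(.lf (nat_lit 543778) (.g (nat_lit 3740) (.e (nat_lit 98367) (nat_lit 27) (.e (nat_lit 434248) (nat_lit 28) (.e (nat_lit 573489) (nat_lit 14) (.e (nat_lit 73755) (nat_lit 8) (.e (nat_lit 557119) (nat_lit 18) (.e (nat_lit 2817) (nat_lit 181) (.e (nat_lit 319232) (nat_lit 18) .nil))))))) (.g (nat_lit 1) (.e (nat_lit 275617) (nat_lit 0) .nil) .nil))) 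
(.lf (nat_lit 544290) (.g (nat_lit 2627) (.e (nat_lit 98385) (nat_lit 32) (.e (nat_lit 475177) (nat_lit 24) (.e (nat_lit 516179) (nat_lit 15) (.e (nat_lit 475177) (nat_lit 24) (.e (nat_lit 516146) (nat_lit 9) (.e (nat_lit 426438) (nat_lit 18) .nil)))))) (.g (nat_lit 1) (.e (nat_lit 276331) (nat_lit 0) .nil) .nil)))) (.nd (nat_lit 9) 
(.lf (nat_lit 544034) (.g (nat_lit 4738) (.e (nat_lit 98376) (nat_lit 30) (.e (nat_lit 458774) (nat_lit 18) (.e (nat_lit 5547) (nat_lit 306) (.e (nat_lit 2610) (nat_lit 163) (.e (nat_lit 163979) (nat_lit 30) (.e (nat_lit 573492) (nat_lit 15) (.e (nat_lit 81956) (nat_lit 23) .nil))))))) (.g (nat_lit 1) (.e (nat_lit 276032) (nat_lit 0) .nil) .nil))) 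
(.lf (nat_lit 544546) (.g (nat_lit 2365) (.e (nat_lit 114432) (nat_lit 6) (.e (nat_lit 188455) (nat_lit 24) (.e (nat_lit 229678) (nat_lit 244) (.e (nat_lit 163931) (nat_lit 17) (.e (nat_lit 474880) (nat_lit 4) .nil))))) (.g (nat_lit 0) (.e (nat_lit 277008) (nat_lit 0) .nil) .nil))))) (.nd (nat_lit 8) (.nd (nat_lit 9) 
(.lf (nat_lit 543906) (.g (nat_lit 1498) (.e (nat_lit 98372) (nat_lit 29) (.e (nat_lit 450581) (nat_lit 5) (.e (nat_lit 532523) (nat_lit 7) (.e (nat_lit 319505) (nat_lit 10) .nil)))) (.g (nat_lit 0) (.e (nat_lit 275879) (nat_lit 0) .nil) .nil))) 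
(.lf (nat_lit 544418) (.g (nat_lit 3823) (.e (nat_lit 98389) (nat_lit 33) (.e (nat_lit 491547) (nat_lit 9) (.e (nat_lit 336306) (nat_lit 15) (.e (nat_lit 3308) (nat_lit 202) (.e (nat_lit 573493) (nat_lit 15) (.e (nat_lit 81956) (nat_lit 23) .nil)))))) (.g (nat_lit 1) (.e (nat_lit 276475) (nat_lit 0) .nil) .nil)))) (.nd (nat_lit 9) 
(.lf (nat_lit 544162) (.g (nat_lit 2473) (.e (nat_lit 98381) (nat_lit 31) (.e (nat_lit 466981) (nat_lit 23) (.e (nat_lit 204861) (nat_lit 26) (.e (nat_lit 335988) (nat_lit 1) (.e (nat_lit 57927) (nat_lit 282) (.e (nat_lit 171776) (nat_lit 64) .nil)))))) (.g (nat_lit 1) (.e (nat_lit 276187) (nat_lit 0) .nil) .nil))) 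
(.lf (nat_lit 544674) (.g (nat_lit 682) (.e (nat_lit 122624) (nat_lit 5) (.e (nat_lit 221194) (nat_lit 11) (.e (nat_lit 336074) (nat_lit 9) .nil))) (.g (nat_lit 0) (.e (nat_lit 277512) (nat_lit 0) .nil) .nil)))))) (.nd (nat_lit 7) (.nd (nat_lit 8) (.nd (nat_lit 9) 
(.lf (nat_lit 543842) (.g (nat_lit 1555) (.e (nat_lit 98368) (nat_lit 27) (.e (nat_lit 434248) (nat_lit 28) (.e (nat_lit 573489) (nat_lit 14) (.e (nat_lit 81664) (nat_lit 5) .nil)))) (.g (nat_lit 0) (.e (nat_lit 275773) (nat_lit 0) .nil) .nil))) 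
(.lf (nat_lit 544354) (.g (nat_lit 1998) (.e (nat_lit 98386) (nat_lit 32) (.e (nat_lit 475179) (nat_lit 24) (.e (nat_lit 516115) (nat_lit 1) (.e (nat_lit 164327) (nat_lit 230) .nil)))) (.g (nat_lit 0) (.e (nat_lit 276399) (nat_lit 0) .nil) .nil)))) (.nd (nat_lit 9) 
(.lf (nat_lit 544098) (.g (nat_lit 3178) (.e (nat_lit 98380) (nat_lit 31) (.e (nat_lit 466979) (nat_lit 23) (.e (nat_lit 204846) (nat_lit 24) (.e (nat_lit 319533) (nat_lit 16) (.e (nat_lit 286734) (nat_lit 3) .nil))))) (.g (nat_lit 1) (.e (nat_lit 276116) (nat_lit 0) .nil) .nil))) 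
(.lf (nat_lit 544610) (.g (nat_lit 683) (.e (nat_lit 106535) (nat_lit 11) (.e (nat_lit 16416) (nat_lit 3) (.e (nat_lit 204861) (nat_lit 26) .nil))) (.g (nat_lit 0) (.e (nat_lit 277231) (nat_lit 0) .nil) .nil))))) (.nd (nat_lit 8) (.nd (nat_lit 9) 
(.lf (nat_lit 543970) (.g (nat_lit 3806) (.e (nat_lit 98373) (nat_lit 29) (.e (nat_lit 450587) (nat_lit 10) (.e (nat_lit 573475) (nat_lit 12) (.e (nat_lit 57574) (nat_lit 55) (.e (nat_lit 778463) (nat_lit 11) (.e (nat_lit 24607) (nat_lit 3) .nil)))))) (.g (nat_lit 1) (.e (nat_lit 275949) (nat_lit 0) .nil) .nil))) 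
(.lf (nat_lit 544482) (.g (nat_lit 939) (.e (nat_lit 114432) (nat_lit 6) (.e (nat_lit 188441) (nat_lit 20) (.e (nat_lit 3409) (nat_lit 212) (.e (nat_lit 655360) (nat_lit 0) .nil)))) (.g (nat_lit 0) (.e (nat_lit 276930) (nat_lit 0) .nil) .nil)))) (.nd (nat_lit 9) 
(.lf (nat_lit 544226) (.g (nat_lit 2377) (.e (nat_lit 98384) (nat_lit 32) (.e (nat_lit 475177) (nat_lit 24) (.e (nat_lit 516179) (nat_lit 15) (.e (nat_lit 475177) (nat_lit 24) (.e (nat_lit 516145) (nat_lit 9) (.e (nat_lit 426438) (nat_lit 18) .nil)))))) (.g (nat_lit 1) (.e (nat_lit 276265) (nat_lit 0) .nil) .nil))) 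
(.lf (nat_lit 544738) (.g (nat_lit 1853) (.e (nat_lit 114695) (nat_lit 11) (.e (nat_lit 426234) (nat_lit 9) (.e (nat_lit 426554) (nat_lit 32) (.e (nat_lit 376857) (nat_lit 21) (.e (nat_lit 57849) (nat_lit 252) (.e (nat_lit 57390) (nat_lit 5) .nil)))))) (.g (nat_lit 1) (.e (nat_lit 277692) (nat_lit 0) .nil) .nil)))))))) 
(.nd (nat_lit 5) (.nd (nat_lit 6) (.nd (nat_lit 7) (.nd (nat_lit 8) (.nd (nat_lit 9) 
(.lf (nat_lit 543762) (.g (nat_lit 3200) (.e (nat_lit 98367) (nat_lit 27) (.e (nat_lit 434248) (nat_lit 28) (.e (nat_lit 573489) (nat_lit 14) (.e (nat_lit 73757) (nat_lit 11) (.e (nat_lit 581649) (nat_lit 4) (.e (nat_lit 179968) (nat_lit 18) .nil)))))) (.g (nat_lit 1) (.e (nat_lit 275601) (nat_lit 0) .nil) .nil))) 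
(.lf (nat_lit 544274) (.g (nat_lit 2928) (.e (nat_lit 98384) (nat_lit 32) (.e (nat_lit 475199) (nat_lit 40) (.e (nat_lit 704589) (nat_lit 3) (.e (nat_lit 163978) (nat_lit 30) (.e (nat_lit 573485) (nat_lit 13) (.e (nat_lit 65590) (nat_lit 9) (.e (nat_lit 336019) (nat_lit 3) .nil))))))) (.g (nat_lit 1) (.e (nat_lit 276313) (nat_lit 0) .nil) .nil)))) (.nd (nat_lit 9) 
(.lf (nat_lit 544018) (.g (nat_lit 5810) (.e (nat_lit 98373) (nat_lit 29) (.e (nat_lit 450588) (nat_lit 10) (.e (nat_lit 573475) (nat_lit 12) (.e (nat_lit 57351) (nat_lit 0) (.e (nat_lit 7265) (nat_lit 384) (.e (nat_lit 57406) (nat_lit 12) (.e (nat_lit 336018) (nat_lit 3) .nil))))))) (.g (nat_lit 1) (.e (nat_lit 275997) (nat_lit 0) .nil) .nil))) 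
(.lf (nat_lit 544530) (.g (nat_lit 1102) (.e (nat_lit 114432) (nat_lit 6) (.e (nat_lit 188455) (nat_lit 24) (.e (nat_lit 229664) (nat_lit 240) (.e (nat_lit 2431) (nat_lit 157) .nil)))) (.g (nat_lit 0) (.e (nat_lit 276992) (nat_lit 0) .nil) .nil))))) (.nd (nat_lit 8) (.nd (nat_lit 9) 
(.lf (nat_lit 543890) (.g (nat_lit 2770) (.e (nat_lit 98372) (nat_lit 29) (.e (nat_lit 450579) (nat_lit 5) (.e (nat_lit 532530) (nat_lit 9) (.e (nat_lit 336000) (nat_lit 1) (.e (nat_lit 57926) (nat_lit 282) (.e (nat_lit 171776) (nat_lit 64) .nil)))))) (.g (nat_lit 1) (.e (nat_lit 275863) (nat_lit 0) .nil) .nil))) 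
(.lf (nat_lit 544402) (.g (nat_lit 1675) (.e (nat_lit 98387) (nat_lit 33) (.e (nat_lit 491566) (nat_lit 12) (.e (nat_lit 385073) (nat_lit 31) (.e (nat_lit 573493) (nat_lit 15) (.e (nat_lit 89856) (nat_lit 23) .nil))))) (.g (nat_lit 1) (.e (nat_lit 276456) (nat_lit 0) .nil) .nil)))) (.nd (nat_lit 9) 
(.lf (nat_lit 544146) (.g (nat_lit 2383) (.e (nat_lit 98381) (nat_lit 31) (.e (nat_lit 466974) (nat_lit 22) (.e (nat_lit 196681) (nat_lit 17) (.e (nat_lit 131089) (nat_lit 1) (.e (nat_lit 57931) (nat_lit 282) (.e (nat_lit 171776) (nat_lit 64) .nil)))))) (.g (nat_lit 1) (.e (nat_lit 276170) (nat_lit 0) .nil) .nil))) 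
(.lf (nat_lit 544658) (.g (nat_lit 1058) (.e (nat_lit 122624) (nat_lit 4) (.e (nat_lit 213032) (nat_lit 11) (.e (nat_lit 24629) (nat_lit 9) (.e (nat_lit 336428) (nat_lit 29) (.e (nat_lit 450304) (nat_lit 5) .nil))))) (.g (nat_lit 0) (.e (nat_lit 277480) (nat_lit 0) .nil) .nil)))))) (.nd (nat_lit 7) (.nd (nat_lit 8) (.nd (nat_lit 9) 
(.lf (nat_lit 543826) (.g (nat_lit 1817) (.e (nat_lit 98368) (nat_lit 27) (.e (nat_lit 434248) (nat_lit 28) (.e (nat_lit 573482) (nat_lit 13) (.e (nat_lit 65566) (nat_lit 2) .nil)))) (.g (nat_lit 0) (.e (nat_lit 275737) (nat_lit 0) .nil) .nil))) 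
(.lf (nat_lit 544338) (.g (nat_lit 2593) (.e (nat_lit 98386) (nat_lit 32) (.e (nat_lit 475177) (nat_lit 24) (.e (nat_lit 516150) (nat_lit 9) (.e (nat_lit 426432) (nat_lit 17) (.e (nat_lit 90133) (nat_lit 9) .nil))))) (.g (nat_lit 0) (.e (nat_lit 276383) (nat_lit 0) .nil) .nil)))) (.nd (nat_lit 9) 
(.lf (nat_lit 544082) (.g (nat_lit 2360) (.e (nat_lit 98380) (nat_lit 31) (.e (nat_lit 466954) (nat_lit 11) (.e (nat_lit 335994) (nat_lit 1) (.e (nat_lit 57691) (nat_lit 156) (.e (nat_lit 163907) (nat_lit 12) (.e (nat_lit 426436) (nat_lit 18) .nil)))))) (.g (nat_lit 1) (.e (nat_lit 276100) (nat_lit 0) .nil) .nil))) 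
(.lf (nat_lit 544594) (.g (nat_lit 1378) (.e (nat_lit 106534) (nat_lit 11) (.e (nat_lit 16413) (nat_lit 2) (.e (nat_lit 196666) (nat_lit 13) (.e (nat_lit 65596) (nat_lit 9) .nil)))) (.g (nat_lit 0) (.e (nat_lit 277194) (nat_lit 0) .nil) .nil))))) (.nd (nat_lit 8) (.nd (nat_lit 9) 
(.lf (nat_lit 543954) (.g (nat_lit 4126) (.e (nat_lit 98373) (nat_lit 29) (.e (nat_lit 450587) (nat_lit 10) (.e (nat_lit 573450) (nat_lit 9) (.e (nat_lit 375) (nat_lit 32) (.e (nat_lit 426338) (nat_lit 14) (.e (nat_lit 491540) (nat_lit 3) .nil)))))) (.g (nat_lit 1) (.e (nat_lit 275933) (nat_lit 0) .nil) .nil))) 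
(.lf (nat_lit 544466) (.g (nat_lit 3259) (.e (nat_lit 114432) (nat_lit 4) (.e (nat_lit 172125) (nat_lit 14) (.e (nat_lit 491571) (nat_lit 13) (.e (nat_lit 393268) (nat_lit 23) (.e (nat_lit 426444) (nat_lit 19) .nil))))) (.g (nat_lit 0) (.e (nat_lit 276806) (nat_lit 0) .nil) .nil)))) (.nd (nat_lit 9) 
(.lf (nat_lit 544210) (.g (nat_lit 1719) (.e (nat_lit 98384) (nat_lit 32) (.e (nat_lit 475177) (nat_lit 24) (.e (nat_lit 516146) (nat_lit 9) (.e (nat_lit 426428) (nat_lit 17) (.e (nat_lit 90168) (nat_lit 13) (.e (nat_lit 179968) (nat_lit 18) .nil)))))) (.g (nat_lit 1) (.e (nat_lit 276249) (nat_lit 0) .nil) .nil))) 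
(.lf (nat_lit 544722) (.g (nat_lit 2313) (.e (nat_lit 114694) (nat_lit 11) (.e (nat_lit 426200) (nat_lit 9) (.e (nat_lit 426555) (nat_lit 32) (.e (nat_lit 376857) (nat_lit 21) (.e (nat_lit 57852) (nat_lit 252) .nil))))) (.g (nat_lit 0) (.e (nat_lit 277655) (nat_lit 0) .nil) .nil))))))) (.nd (nat_lit 6) (.nd (nat_lit 7) (.nd (nat_lit 8) (.nd (nat_lit 9) 
(.lf (nat_lit 543794) (.g (nat_lit 1037) (.e (nat_lit 98368) (nat_lit 27) (.e (nat_lit 434245) (nat_lit 28) (.e (nat_lit 573488) (nat_lit 14) (.e (nat_lit 81664) (nat_lit 5) .nil)))) (.g (nat_lit 0) (.e (nat_lit 275657) (nat_lit 0) .nil) .nil))) 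
(.lf (nat_lit 544306) (.g (nat_lit 2313) (.e (nat_lit 98385) (nat_lit 32) (.e (nat_lit 475179) (nat_lit 24) (.e (nat_lit 516117) (nat_lit 1) (.e (nat_lit 164304) (nat_lit 226) .nil)))) (.g (nat_lit 0) (.e (nat_lit 276350) (nat_lit 0) .nil) .nil)))) (.nd (nat_lit 9) 
(.lf (nat_lit 544050) (.g (nat_lit 1984) (.e (nat_lit 98378) (nat_lit 30) (.e (nat_lit 458789) (nat_lit 23) (.e (nat_lit 532515) (nat_lit 3) (.e (nat_lit 114719) (nat_lit 23) .nil)))) (.g (nat_lit 0) (.e (nat_lit 276062) (nat_lit 0) .nil) .nil))) 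
(.lf (nat_lit 544562) (.g (nat_lit 3527) (.e (nat_lit 106506) (nat_lit 9) (.e (nat_lit 497) (nat_lit 39) (.e (nat_lit 483363) (nat_lit 18) (.e (nat_lit 57847) (nat_lit 252) (.e (nat_lit 57368) (nat_lit 1) (.e (nat_lit 57854) (nat_lit 252) (.e (nat_lit 57389) (nat_lit 5) (.e (nat_lit 114723) (nat_lit 24) .nil)))))))) (.g (nat_lit 1) (.e (nat_lit 277050) (nat_lit 0) .nil) .nil))))) 
(.nd (nat_lit 8) (.nd (nat_lit 9) 
(.lf (nat_lit 543922) (.g (nat_lit 2878) (.e (nat_lit 98372) (nat_lit 29) (.e (nat_lit 450586) (nat_lit 10) (.e (nat_lit 573475) (nat_lit 12) (.e (nat_lit 57574) (nat_lit 55) (.e (nat_lit 778465) (nat_lit 11) (.e (nat_lit 32512) (nat_lit 3) .nil)))))) (.g (nat_lit 1) (.e (nat_lit 275895) (nat_lit 0) .nil) .nil))) 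
(.lf (nat_lit 544434) (.g (nat_lit 1584) (.e (nat_lit 114432) (nat_lit 3) (.e (nat_lit 163975) (nat_lit 30) (.e (nat_lit 573491) (nat_lit 15) (.e (nat_lit 81954) (nat_lit 23) (.e (nat_lit 98355) (nat_lit 26) .nil))))) (.g (nat_lit 0) (.e (nat_lit 276710) (nat_lit 0) .nil) .nil)))) (.nd (nat_lit 9) 
(.lf (nat_lit 544178) (.g (nat_lit 1871) (.e (nat_lit 98383) (nat_lit 32) (.e (nat_lit 475177) (nat_lit 24) (.e (nat_lit 516179) (nat_lit 15) (.e (nat_lit 475177) (nat_lit 24) (.e (nat_lit 516146) (nat_lit 9) (.e (nat_lit 426438) (nat_lit 18) .nil)))))) (.g (nat_lit 1) (.e (nat_lit 276212) (nat_lit 0) .nil) .nil))) 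
(.lf (nat_lit 544690) (.g (nat_lit 2071) (.e (nat_lit 122624) (nat_lit 5) (.e (nat_lit 221194) (nat_lit 11) (.e (nat_lit 336088) (nat_lit 9) (.e (nat_lit 336430) (nat_lit 29) (.e (nat_lit 450304) (nat_lit 5) .nil))))) (.g (nat_lit 0) (.e (nat_lit 277528) (nat_lit 0) .nil) .nil)))))) (.nd (nat_lit 7) (.nd (nat_lit 8) (.nd (nat_lit 9) 
(.lf (nat_lit 543858) (.g (nat_lit 3414) (.e (nat_lit 98368) (nat_lit 27) (.e (nat_lit 434248) (nat_lit 28) (.e (nat_lit 573489) (nat_lit 14) (.e (nat_lit 73755) (nat_lit 8) (.e (nat_lit 557091) (nat_lit 12) (.e (nat_lit 163840) (nat_lit 0) (.e (nat_lit 5937) (nat_lit 322) (.e (nat_lit 57378) (nat_lit 3) .nil)))))))) (.g (nat_lit 1) (.e (nat_lit 275802) (nat_lit 0) .nil) .nil))) 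
(.lf (nat_lit 544370) (.g (nat_lit 2838) (.e (nat_lit 98386) (nat_lit 32) (.e (nat_lit 475179) (nat_lit 24) (.e (nat_lit 516145) (nat_lit 9) (.e (nat_lit 426428) (nat_lit 17) (.e (nat_lit 90170) (nat_lit 13) (.e (nat_lit 179968) (nat_lit 18) .nil)))))) (.g (nat_lit 1) (.e (nat_lit 276416) (nat_lit 0) .nil) .nil)))) (.nd (nat_lit 9) 
(.lf (nat_lit 544114) (.g (nat_lit 2565) (.e (nat_lit 98381) (nat_lit 31) (.e (nat_lit 466954) (nat_lit 11) (.e (nat_lit 335987) (nat_lit 1) (.e (nat_lit 57692) (nat_lit 156) (.e (nat_lit 163905) (nat_lit 12) (.e (nat_lit 426438) (nat_lit 18) .nil)))))) (.g (nat_lit 1) (.e (nat_lit 276136) (nat_lit 0) .nil) .nil))) 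
(.lf (nat_lit 544626) (.g (nat_lit 1224) (.e (nat_lit 122624) (nat_lit 2) (.e (nat_lit 196655) (nat_lit 11) (.e (nat_lit 16435) (nat_lit 9) (.e (nat_lit 426566) (nat_lit 34) (.e (nat_lit 401152) (nat_lit 3) .nil))))) (.g (nat_lit 0) (.e (nat_lit 277379) (nat_lit 0) .nil) .nil))))) (.nd (nat_lit 8) (.nd (nat_lit 9) 
(.lf (nat_lit 543986) (.g (nat_lit 3082) (.e (nat_lit 98373) (nat_lit 29) (.e (nat_lit 450587) (nat_lit 10) (.e (nat_lit 573478) (nat_lit 12) (.e (nat_lit 57574) (nat_lit 55) (.e (nat_lit 778465) (nat_lit 11) (.e (nat_lit 32512) (nat_lit 3) .nil)))))) (.g (nat_lit 1) (.e (nat_lit 275965) (nat_lit 0) .nil) .nil))) 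
(.lf (nat_lit 544498) (.g (nat_lit 675) (.e (nat_lit 114432) (nat_lit 6) (.e (nat_lit 188453) (nat_lit 24) (.e (nat_lit 229664) (nat_lit 240) (.e (nat_lit 2431) (nat_lit 157) .nil)))) (.g (nat_lit 0) (.e (nat_lit 276952) (nat_lit 0) .nil) .nil)))) (.nd (nat_lit 9) 
(.lf (nat_lit 544242) (.g (nat_lit 2592) (.e (nat_lit 98384) (nat_lit 32) (.e (nat_lit 475177) (nat_lit 24) (.e (nat_lit 516181) (nat_lit 15) (.e (nat_lit 475179) (nat_lit 24) (.e (nat_lit 516144) (nat_lit 9) (.e (nat_lit 426436) (nat_lit 18) .nil)))))) (.g (nat_lit 1) (.e (nat_lit 276281) (nat_lit 0) .nil) .nil))) 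
(.lf (nat_lit 544754) (.g (nat_lit 3438) (.e (nat_lit 114696) (nat_lit 11) (.e (nat_lit 426129) (nat_lit 3) (.e (nat_lit 204852) (nat_lit 26) (.e (nat_lit 336208) (nat_lit 12) (.e (nat_lit 385068) (nat_lit 26) (.e (nat_lit 532513) (nat_lit 3) .nil)))))) (.g (nat_lit 1) (.e (nat_lit 277719) (nat_lit 0) .nil) .nil))))))))) 
(.nd (nat_lit 4) (.nd (nat_lit 5) (.nd (nat_lit 6) (.nd (nat_lit 7) (.nd (nat_lit 8) 
(.nd (nat_lit 9) 
(.lf (nat_lit 543754) (.g (nat_lit 2913) (.e (nat_lit 98367) (nat_lit 27) (.e (nat_lit 434248) (nat_lit 28) (.e (nat_lit 573487) (nat_lit 14) (.e (nat_lit 73757) (nat_lit 11) (.e (nat_lit 581649) (nat_lit 4) (.e (nat_lit 179968) (nat_lit 18) .nil)))))) (.g (nat_lit 1) (.e (nat_lit 275593) (nat_lit 0) .nil) .nil))) 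
(.lf (nat_lit 544266) (.g (nat_lit 3428) (.e (nat_lit 98384) (nat_lit 32) (.e (nat_lit 475179) (nat_lit 24) (.e (nat_lit 516179) (nat_lit 15) (.e (nat_lit 475177) (nat_lit 24) (.e (nat_lit 516146) (nat_lit 9) (.e (nat_lit 426438) (nat_lit 18) .nil)))))) (.g (nat_lit 1) (.e (nat_lit 276305) (nat_lit 0) .nil) .nil)))) (.nd (nat_lit 9) 
(.lf (nat_lit 544010) (.g (nat_lit 5232) (.e (nat_lit 98373) (nat_lit 29) (.e (nat_lit 450588) (nat_lit 10) (.e (nat_lit 573475) (nat_lit 12) (.e (nat_lit 57347) (nat_lit 0) (.e (nat_lit 7261) (nat_lit 384) (.e (nat_lit 57406) (nat_lit 12) (.e (nat_lit 336018) (nat_lit 3) .nil))))))) (.g (nat_lit 1) (.e (nat_lit 275989) (nat_lit 0) .nil) .nil))) 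
(.lf (nat_lit 544522) (.g (nat_lit 1197) (.e (nat_lit 114432) (nat_lit 6) (.e (nat_lit 188453) (nat_lit 24) (.e (nat_lit 229681) (nat_lit 244) (.e (nat_lit 163932) (nat_lit 17) (.e (nat_lit 474880) (nat_lit 4) .nil))))) (.g (nat_lit 0) (.e (nat_lit 276976) (nat_lit 0) .nil) .nil))))) (.nd (nat_lit 8) (.nd (nat_lit 9) 
(.lf (nat_lit 543882) (.g (nat_lit 3696) (.e (nat_lit 98371) (nat_lit 28) (.e (nat_lit 442427) (nat_lit 23) (.e (nat_lit 204846) (nat_lit 24) (.e (nat_lit 319531) (nat_lit 16) (.e (nat_lit 286735) (nat_lit 3) .nil))))) (.g (nat_lit 1) (.e (nat_lit 275842) (nat_lit 0) .nil) .nil))) 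
(.lf (nat_lit 544394) (.g (nat_lit 1469) (.e (nat_lit 106240) (nat_lit 32) (.e (nat_lit 475197) (nat_lit 40) (.e (nat_lit 704589) (nat_lit 3) (.e (nat_lit 163979) (nat_lit 30) (.e (nat_lit 573491) (nat_lit 15) .nil))))) (.g (nat_lit 0) (.e (nat_lit 276446) (nat_lit 0) .nil) .nil)))) (.nd (nat_lit 9) 
(.lf (nat_lit 544138) (.g (nat_lit 2712) (.e (nat_lit 98381) (nat_lit 31) (.e (nat_lit 466954) (nat_lit 11) (.e (nat_lit 335996) (nat_lit 1) (.e (nat_lit 57691) (nat_lit 156) (.e (nat_lit 163907) (nat_lit 12) (.e (nat_lit 426434) (nat_lit 18) .nil)))))) (.g (nat_lit 1) (.e (nat_lit 276160) (nat_lit 0) .nil) .nil))) 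
(.lf (nat_lit 544650) (.g (nat_lit 999) (.e (nat_lit 122624) (nat_lit 4) (.e (nat_lit 213030) (nat_lit 11) (.e (nat_lit 24660) (nat_lit 13) (.e (nat_lit 393279) (nat_lit 23) (.e (nat_lit 433920) (nat_lit 20) .nil))))) (.g (nat_lit 0) (.e (nat_lit 277456) (nat_lit 0) .nil) .nil)))))) (.nd (nat_lit 7) (.nd (nat_lit 8) (.nd (nat_lit 9) 
(.lf (nat_lit 543818) (.g (nat_lit 3171) (.e (nat_lit 98368) (nat_lit 27) (.e (nat_lit 434247) (nat_lit 28) (.e (nat_lit 573489) (nat_lit 14) (.e (nat_lit 73755) (nat_lit 8) (.e (nat_lit 557090) (nat_lit 12) (.e (nat_lit 163841) (nat_lit 0) (.e (nat_lit 5943) (nat_lit 322) (.e (nat_lit 57379) (nat_lit 3) .nil)))))))) (.g (nat_lit 1) (.e (nat_lit 275716) (nat_lit 0) .nil) .nil))) 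
(.lf (nat_lit 544330) (.g (nat_lit 1096) (.e (nat_lit 98386) (nat_lit 32) (.e (nat_lit 475177) (nat_lit 24) (.e (nat_lit 516150) (nat_lit 9) (.e (nat_lit 426428) (nat_lit 17) .nil)))) (.g (nat_lit 0) (.e (nat_lit 276375) (nat_lit 0) .nil) .nil)))) (.nd (nat_lit 9) 
(.lf (nat_lit 544074) (.g (nat_lit 2404) (.e (nat_lit 98380) (nat_lit 31) (.e (nat_lit 466954) (nat_lit 11) (.e (nat_lit 335986) (nat_lit 1) (.e (nat_lit 57667) (nat_lit 152) (.e (nat_lit 2619) (nat_lit 164) (.e (nat_lit 179968) (nat_lit 18) .nil)))))) (.g (nat_lit 1) (.e (nat_lit 276092) (nat_lit 0) .nil) .nil))) 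
(.lf (nat_lit 544586) (.g (nat_lit 914) (.e (nat_lit 106534) (nat_lit 11) (.e (nat_lit 16412) (nat_lit 2) (.e (nat_lit 196672) (nat_lit 15) (.e (nat_lit 89856) (nat_lit 0) .nil)))) (.g (nat_lit 0) (.e (nat_lit 277182) (nat_lit 0) .nil) .nil))))) (.nd (nat_lit 8) (.nd (nat_lit 9) 
(.lf (nat_lit 543946) (.g (nat_lit 2371) (.e (nat_lit 98373) (nat_lit 29) (.e (nat_lit 458496) (nat_lit 7) (.e (nat_lit 548913) (nat_lit 18) (.e (nat_lit 172126) (nat_lit 14) (.e (nat_lit 491539) (nat_lit 3) .nil))))) (.g (nat_lit 1) (.e (nat_lit 275925) (nat_lit 0) .nil) .nil))) 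
(.lf (nat_lit 544458) (.g (nat_lit 3109) (.e (nat_lit 114432) (nat_lit 3) (.e (nat_lit 163979) (nat_lit 30) (.e (nat_lit 573493) (nat_lit 15) (.e (nat_lit 81954) (nat_lit 23) (.e (nat_lit 98359) (nat_lit 26) .nil))))) (.g (nat_lit 0) (.e (nat_lit 276756) (nat_lit 0) .nil) .nil)))) (.nd (nat_lit 9) 
(.lf (nat_lit 544202) (.g (nat_lit 2677) (.e (nat_lit 98384) (nat_lit 32) (.e (nat_lit 475177) (nat_lit 24) (.e (nat_lit 516119) (nat_lit 1) (.e (nat_lit 164327) (nat_lit 230) (.e (nat_lit 163875) (nat_lit 3) (.e (nat_lit 204836) (nat_lit 20) (.e (nat_lit 114717) (nat_lit 23) .nil))))))) (.g (nat_lit 1) (.e (nat_lit 276241) (nat_lit 0) .nil) .nil))) 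
(.lf (nat_lit 544714) (.g (nat_lit 1162) (.e (nat_lit 114694) (nat_lit 11) (.e (nat_lit 426139) (nat_lit 3) (.e (nat_lit 204861) (nat_lit 26) (.e (nat_lit 336194) (nat_lit 12) .nil)))) (.g (nat_lit 0) (.e (nat_lit 277585) (nat_lit 0) .nil) .nil))))))) (.nd (nat_lit 6) (.nd (nat_lit 7) (.nd (nat_lit 8) (.nd (nat_lit 9) 
(.lf (nat_lit 543786) (.g (nat_lit 1002) (.e (nat_lit 98368) (nat_lit 27) (.e (nat_lit 434231) (nat_lit 23) (.e (nat_lit 532514) (nat_lit 3) .nil))) (.g (nat_lit 0) (.e (nat_lit 275635) (nat_lit 0) .nil) .nil))) 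
(.lf (nat_lit 544298) (.g (nat_lit 2882) (.e (nat_lit 98385) (nat_lit 32) (.e (nat_lit 475177) (nat_lit 24) (.e (nat_lit 516180) (nat_lit 15) (.e (nat_lit 475177) (nat_lit 24) (.e (nat_lit 516150) (nat_lit 9) (.e (nat_lit 426436) (nat_lit 18) .nil)))))) (.g (nat_lit 1) (.e (nat_lit 276341) (nat_lit 0) .nil) .nil)))) (.nd (nat_lit 9) 
(.lf (nat_lit 544042) (.g (nat_lit 2813) (.e (nat_lit 98377) (nat_lit 30) (.e (nat_lit 458789) (nat_lit 23) (.e (nat_lit 532499) (nat_lit 1) (.e (nat_lit 57688) (nat_lit 156) (.e (nat_lit 163874) (nat_lit 3) .nil))))) (.g (nat_lit 0) (.e (nat_lit 276046) (nat_lit 0) .nil) .nil))) 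
(.lf (nat_lit 544554) (.g (nat_lit 712) (.e (nat_lit 114432) (nat_lit 6) (.e (nat_lit 188455) (nat_lit 24) (.e (nat_lit 229680) (nat_lit 244) (.e (nat_lit 163934) (nat_lit 17) .nil)))) (.g (nat_lit 0) (.e (nat_lit 277016) (nat_lit 0) .nil) .nil))))) (.nd (nat_lit 8) (.nd (nat_lit 9) 
(.lf (nat_lit 543914) (.g (nat_lit 2245) (.e (nat_lit 98372) (nat_lit 29) (.e (nat_lit 450586) (nat_lit 10) (.e (nat_lit 573457) (nat_lit 9) (.e (nat_lit 430) (nat_lit 32) (.e (nat_lit 426344) (nat_lit 14) (.e (nat_lit 491539) (nat_lit 3) .nil)))))) (.g (nat_lit 1) (.e (nat_lit 275887) (nat_lit 0) .nil) .nil))) 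
(.lf (nat_lit 544426) (.g (nat_lit 3785) (.e (nat_lit 98389) (nat_lit 33) (.e (nat_lit 491558) (nat_lit 10) (.e (nat_lit 344119) (nat_lit 21) (.e (nat_lit 516102) (nat_lit 0) (.e (nat_lit 6989) (nat_lit 377) (.e (nat_lit 2777) (nat_lit 178) (.e (nat_lit 286735) (nat_lit 3) .nil))))))) (.g (nat_lit 1) (.e (nat_lit 276483) (nat_lit 0) .nil) .nil)))) (.nd (nat_lit 9) 
(.lf (nat_lit 544170) (.g (nat_lit 1844) (.e (nat_lit 98382) (nat_lit 31) (.e (nat_lit 466977) (nat_lit 22) (.e (nat_lit 196681) (nat_lit 17) (.e (nat_lit 131086) (nat_lit 1) (.e (nat_lit 57929) (nat_lit 282) (.e (nat_lit 171776) (nat_lit 64) .nil)))))) (.g (nat_lit 1) (.e (nat_lit 276195) (nat_lit 0) .nil) .nil))) 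
(.lf (nat_lit 544682) (.g (nat_lit 1163) (.e (nat_lit 122624) (nat_lit 5) (.e (nat_lit 221194) (nat_lit 11) (.e (nat_lit 336087) (nat_lit 9) (.e (nat_lit 336427) (nat_lit 29) (.e (nat_lit 450304) (nat_lit 5) .nil))))) (.g (nat_lit 0) (.e (nat_lit 277520) (nat_lit 0) .nil) .nil)))))) (.nd (nat_lit 7) (.nd (nat_lit 8) (.nd (nat_lit 9) 
(.lf (nat_lit 543850) (.g (nat_lit 4503) (.e (nat_lit 98368) (nat_lit 27) (.e (nat_lit 434248) (nat_lit 28) (.e (nat_lit 573489) (nat_lit 14) (.e (nat_lit 73755) (nat_lit 8) (.e (nat_lit 557067) (nat_lit 9) (.e (nat_lit 2603) (nat_lit 163) (.e (nat_lit 164398) (nat_lit 256) (.e (nat_lit 57378) (nat_lit 3) .nil)))))))) (.g (nat_lit 1) (.e (nat_lit 275784) (nat_lit 0) .nil) .nil))) 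
(.lf (nat_lit 544362) (.g (nat_lit 2266) (.e (nat_lit 98386) (nat_lit 32) (.e (nat_lit 475179) (nat_lit 24) (.e (nat_lit 516119) (nat_lit 1) (.e (nat_lit 164325) (nat_lit 230) (.e (nat_lit 163875) (nat_lit 3) .nil))))) (.g (nat_lit 0) (.e (nat_lit 276407) (nat_lit 0) .nil) .nil)))) (.nd (nat_lit 9) 
(.lf (nat_lit 544106) (.g (nat_lit 1839) (.e (nat_lit 98381) (nat_lit 31) (.e (nat_lit 466954) (nat_lit 11) (.e (nat_lit 335986) (nat_lit 1) (.e (nat_lit 57665) (nat_lit 152) .nil)))) (.g (nat_lit 0) (.e (nat_lit 276128) (nat_lit 0) .nil) .nil))) 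
(.lf (nat_lit 544618) (.g (nat_lit 1313) (.e (nat_lit 106536) (nat_lit 11) (.e (nat_lit 16412) (nat_lit 2) (.e (nat_lit 196668) (nat_lit 14) (.e (nat_lit 81664) (nat_lit 40) .nil)))) (.g (nat_lit 0) (.e (nat_lit 277247) (nat_lit 0) .nil) .nil))))) (.nd (nat_lit 8) (.nd (nat_lit 9) 
(.lf (nat_lit 543978) (.g (nat_lit 3409) (.e (nat_lit 98373) (nat_lit 29) (.e (nat_lit 450587) (nat_lit 10) (.e (nat_lit 573477) (nat_lit 12) (.e (nat_lit 57574) (nat_lit 55) (.e (nat_lit 778465) (nat_lit 11) (.e (nat_lit 32512) (nat_lit 3) .nil)))))) (.g (nat_lit 1) (.e (nat_lit 275957) (nat_lit 0) .nil) .nil))) 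
(.lf (nat_lit 544490) (.g (nat_lit 1503) (.e (nat_lit 114432) (nat_lit 6) (.e (nat_lit 188446) (nat_lit 21) (.e (nat_lit 164348) (nat_lit 240) (.e (nat_lit 2650) (nat_lit 166) (.e (nat_lit 196352) (nat_lit 4) .nil))))) (.g (nat_lit 0) (.e (nat_lit 276943) (nat_lit 0) .nil) .nil)))) (.nd (nat_lit 9) 
(.lf (nat_lit 544234) (.g (nat_lit 2079) (.e (nat_lit 98384) (nat_lit 32) (.e (nat_lit 475177) (nat_lit 24) (.e (nat_lit 516180) (nat_lit 15) (.e (nat_lit 475177) (nat_lit 24) (.e (nat_lit 516148) (nat_lit 9) (.e (nat_lit 426437) (nat_lit 18) .nil)))))) (.g (nat_lit 1) (.e (nat_lit 276273) (nat_lit 0) .nil) .nil))) 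
(.lf (nat_lit 544746) (.g (nat_lit 2016) (.e (nat_lit 114695) (nat_lit 11) (.e (nat_lit 426262) (nat_lit 9) (.e (nat_lit 426541) (nat_lit 29) (.e (nat_lit 352309) (nat_lit 21) (.e (nat_lit 57849) (nat_lit 252) (.e (nat_lit 57390) (nat_lit 5) .nil)))))) (.g (nat_lit 1) (.e (nat_lit 277700) (nat_lit 0) .nil) .nil)))))))) 
(.nd (nat_lit 5) (.nd (nat_lit 6) (.nd (nat_lit 7) (.nd (nat_lit 8) (.nd (nat_lit 9) 
(.lf (nat_lit 543770) (.g (nat_lit 3658) (.e (nat_lit 98367) (nat_lit 27) (.e (nat_lit 434248) (nat_lit 28) (.e (nat_lit 573489) (nat_lit 14) (.e (nat_lit 73755) (nat_lit 8) (.e (nat_lit 557090) (nat_lit 12) (.e (nat_lit 163840) (nat_lit 0) (.e (nat_lit 5939) (nat_lit 322) (.e (nat_lit 57379) (nat_lit 3) .nil)))))))) (.g (nat_lit 1) (.e (nat_lit 275609) (nat_lit 0) .nil) .nil))) 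
(.lf (nat_lit 544282) (.g (nat_lit 449) (.e (nat_lit 98385) (nat_lit 32) (.e (nat_lit 475177) (nat_lit 24) (.e (nat_lit 516148) (nat_lit 9) .nil))) (.g (nat_lit 0) (.e (nat_lit 276321) (nat_lit 0) .nil) .nil)))) (.nd (nat_lit 9) 
(.lf (nat_lit 544026) (.g (nat_lit 2892) (.e (nat_lit 98374) (nat_lit 29) (.e (nat_lit 450586) (nat_lit 10) (.e (nat_lit 573475) (nat_lit 12) (.e (nat_lit 57347) (nat_lit 0) (.e (nat_lit 7265) (nat_lit 384) .nil))))) (.g (nat_lit 0) (.e (nat_lit 276006) (nat_lit 0) .nil) .nil))) 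
(.lf (nat_lit 544538) (.g (nat_lit 687) (.e (nat_lit 114432) (nat_lit 6) (.e (nat_lit 188455) (nat_lit 24) (.e (nat_lit 229666) (nat_lit 240) (.e (nat_lit 7936) (nat_lit 166) .nil)))) (.g (nat_lit 0) (.e (nat_lit 277000) (nat_lit 0) .nil) .nil))))) (.nd (nat_lit 8) (.nd (nat_lit 9) 
(.lf (nat_lit 543898) (.g (nat_lit 2985) (.e (nat_lit 98372) (nat_lit 29) (.e (nat_lit 450579) (nat_lit 5) (.e (nat_lit 532534) (nat_lit 9) (.e (nat_lit 335999) (nat_lit 1) (.e (nat_lit 57931) (nat_lit 282) (.e (nat_lit 171776) (nat_lit 64) .nil)))))) (.g (nat_lit 1) (.e (nat_lit 275871) (nat_lit 0) .nil) .nil))) 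
(.lf (nat_lit 544410) (.g (nat_lit 744) (.e (nat_lit 98388) (nat_lit 33) (.e (nat_lit 491549) (nat_lit 9) (.e (nat_lit 336260) (nat_lit 15) .nil))) (.g (nat_lit 0) (.e (nat_lit 276465) (nat_lit 0) .nil) .nil)))) (.nd (nat_lit 9) 
(.lf (nat_lit 544154) (.g (nat_lit 3034) (.e (nat_lit 98381) (nat_lit 31) (.e (nat_lit 466979) (nat_lit 23) (.e (nat_lit 204846) (nat_lit 24) (.e (nat_lit 319533) (nat_lit 16) (.e (nat_lit 286734) (nat_lit 3) .nil))))) (.g (nat_lit 1) (.e (nat_lit 276178) (nat_lit 0) .nil) .nil))) 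
(.lf (nat_lit 544666) (.g (nat_lit 1434) (.e (nat_lit 122624) (nat_lit 4) (.e (nat_lit 213032) (nat_lit 11) (.e (nat_lit 24655) (nat_lit 13) (.e (nat_lit 393274) (nat_lit 23) .nil)))) (.g (nat_lit 0) (.e (nat_lit 277494) (nat_lit 0) .nil) .nil)))))) (.nd (nat_lit 7) (.nd (nat_lit 8) (.nd (nat_lit 9) 
(.lf (nat_lit 543834) (.g (nat_lit 536) (.e (nat_lit 98368) (nat_lit 27) (.e (nat_lit 434248) (nat_lit 28) (.e (nat_lit 573487) (nat_lit 14) .nil))) (.g (nat_lit 0) (.e (nat_lit 275753) (nat_lit 0) .nil) .nil))) 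
(.lf (nat_lit 544346) (.g (nat_lit 3409) (.e (nat_lit 98386) (nat_lit 32) (.e (nat_lit 475177) (nat_lit 24) (.e (nat_lit 516181) (nat_lit 15) (.e (nat_lit 475177) (nat_lit 24) (.e (nat_lit 516146) (nat_lit 9) (.e (nat_lit 426438) (nat_lit 18) .nil)))))) (.g (nat_lit 1) (.e (nat_lit 276391) (nat_lit 0) .nil) .nil)))) (.nd (nat_lit 9) 
(.lf (nat_lit 544090) (.g (nat_lit 3698) (.e (nat_lit 98380) (nat_lit 31) (.e (nat_lit 466954) (nat_lit 11) (.e (nat_lit 335995) (nat_lit 1) (.e (nat_lit 57688) (nat_lit 156) (.e (nat_lit 163907) (nat_lit 12) (.e (nat_lit 426438) (nat_lit 18) .nil)))))) (.g (nat_lit 1) (.e (nat_lit 276108) (nat_lit 0) .nil) .nil))) 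
(.lf (nat_lit 544602) (.g (nat_lit 824) (.e (nat_lit 106534) (nat_lit 11) (.e (nat_lit 16416) (nat_lit 3) (.e (nat_lit 204861) (nat_lit 26) (.e (nat_lit 336194) (nat_lit 12) .nil)))) (.g (nat_lit 0) (.e (nat_lit 277204) (nat_lit 0) .nil) .nil))))) (.nd (nat_lit 8) (.nd (nat_lit 9) 
(.lf (nat_lit 543962) (.g (nat_lit 3433) (.e (nat_lit 98373) (nat_lit 29) (.e (nat_lit 450587) (nat_lit 10) (.e (nat_lit 573473) (nat_lit 12) (.e (nat_lit 57354) (nat_lit 0) (.e (nat_lit 7273) (nat_lit 385) (.e (nat_lit 122909) (nat_lit 12) (.e (nat_lit 343808) (nat_lit 3) .nil))))))) (.g (nat_lit 1) (.e (nat_lit 275941) (nat_lit 0) .nil) .nil))) 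
(.lf (nat_lit 544474) (.g (nat_lit 1367) (.e (nat_lit 114432) (nat_lit 6) (.e (nat_lit 188418) (nat_lit 0) (.e (nat_lit 2174) (nat_lit 143) (.e (nat_lit 712750) (nat_lit 29) (.e (nat_lit 450304) (nat_lit 4) .nil))))) (.g (nat_lit 0) (.e (nat_lit 276914) (nat_lit 0) .nil) .nil)))) (.nd (nat_lit 9) 
(.lf (nat_lit 544218) (.g (nat_lit 1758) (.e (nat_lit 98384) (nat_lit 32) (.e (nat_lit 475177) (nat_lit 24) (.e (nat_lit 516150) (nat_lit 9) (.e (nat_lit 426428) (nat_lit 17) (.e (nat_lit 90167) (nat_lit 13) (.e (nat_lit 179968) (nat_lit 18) .nil)))))) (.g (nat_lit 1) (.e (nat_lit 276257) (nat_lit 0) .nil) .nil))) 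
(.lf (nat_lit 544730) (.g (nat_lit 3251) (.e (nat_lit 114695) (nat_lit 11) (.e (nat_lit 426129) (nat_lit 3) (.e (nat_lit 204852) (nat_lit 26) (.e (nat_lit 336208) (nat_lit 12) (.e (nat_lit 385068) (nat_lit 26) (.e (nat_lit 532515) (nat_lit 3) .nil)))))) (.g (nat_lit 1) (.e (nat_lit 277681) (nat_lit 0) .nil) .nil))))))) (.nd (nat_lit 6) (.nd (nat_lit 7) (.nd (nat_lit 8) (.nd (nat_lit 9) 
(.lf (nat_lit 543802) (.g (nat_lit 1316) (.e (nat_lit 98368) (nat_lit 27) (.e (nat_lit 434247) (nat_lit 28) (.e (nat_lit 573484) (nat_lit 13) (.e (nat_lit 65571) (nat_lit 3) .nil)))) (.g (nat_lit 0) (.e (nat_lit 275680) (nat_lit 0) .nil) .nil))) 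
(.lf (nat_lit 544314) (.g (nat_lit 4492) (.e (nat_lit 98385) (nat_lit 32) (.e (nat_lit 475196) (nat_lit 40) (.e (nat_lit 704590) (nat_lit 3) (.e (nat_lit 163975) (nat_lit 30) (.e (nat_lit 573492) (nat_lit 15) (.e (nat_lit 81956) (nat_lit 23) .nil)))))) (.g (nat_lit 1) (.e (nat_lit 276358) (nat_lit 0) .nil) .nil)))) (.nd (nat_lit 9) 
(.lf (nat_lit 544058) (.g (nat_lit 1669) (.e (nat_lit 98379) (nat_lit 31) (.e (nat_lit 466974) (nat_lit 22) (.e (nat_lit 196681) (nat_lit 17) (.e (nat_lit 131089) (nat_lit 1) (.e (nat_lit 57930) (nat_lit 282) (.e (nat_lit 171776) (nat_lit 64) .nil)))))) (.g (nat_lit 1) (.e (nat_lit 276070) (nat_lit 0) .nil) .nil))) 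
(.lf (nat_lit 544570) (.g (nat_lit 4352) (.e (nat_lit 106517) (nat_lit 9) (.e (nat_lit 1255) (nat_lit 92) (.e (nat_lit 98356) (nat_lit 26) (.e (nat_lit 426438) (nat_lit 18) (.e (nat_lit 98333) (nat_lit 18) (.e (nat_lit 164327) (nat_lit 230) (.e (nat_lit 163875) (nat_lit 3) (.e (nat_lit 204834) (nat_lit 19) .nil)))))))) (.g (nat_lit 1) (.e (nat_lit 277098) (nat_lit 0) .nil) .nil))))) 
(.nd (nat_lit 8) (.nd (nat_lit 9) 
(.lf (nat_lit 543930) (.g (nat_lit 3493) (.e (nat_lit 98372) (nat_lit 29) (.e (nat_lit 450586) (nat_lit 10) (.e (nat_lit 573477) (nat_lit 12) (.e (nat_lit 57575) (nat_lit 55) (.e (nat_lit 778465) (nat_lit 11) (.e (nat_lit 24609) (nat_lit 3) .nil)))))) (.g (nat_lit 1) (.e (nat_lit 275906) (nat_lit 0) .nil) .nil))) 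
(.lf (nat_lit 544442) (.g (nat_lit 3390) (.e (nat_lit 114432) (nat_lit 3) (.e (nat_lit 163977) (nat_lit 30) (.e (nat_lit 573493) (nat_lit 15) (.e (nat_lit 81956) (nat_lit 23) (.e (nat_lit 98358) (nat_lit 26) .nil))))) (.g (nat_lit 0) (.e (nat_lit 276728) (nat_lit 0) .nil) .nil)))) (.nd (nat_lit 9) 
(.lf (nat_lit 544186) (.g (nat_lit 640) (.e (nat_lit 98383) (nat_lit 32) (.e (nat_lit 475179) (nat_lit 24) (.e (nat_lit 516146) (nat_lit 9) .nil))) (.g (nat_lit 0) (.e (nat_lit 276222) (nat_lit 0) .nil) .nil))) 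
(.lf (nat_lit 544698) (.g (nat_lit 1159) (.e (nat_lit 114694) (nat_lit 11) (.e (nat_lit 426133) (nat_lit 3) (.e (nat_lit 204859) (nat_lit 26) .nil))) (.g (nat_lit 0) (.e (nat_lit 277567) (nat_lit 0) .nil) .nil)))))) (.nd (nat_lit 7) (.nd (nat_lit 8) (.nd (nat_lit 9) 
(.lf (nat_lit 543866) (.g (nat_lit 2806) (.e (nat_lit 98369) (nat_lit 28) (.e (nat_lit 442390) (nat_lit 11) (.e (nat_lit 335986) (nat_lit 1) (.e (nat_lit 57688) (nat_lit 156) (.e (nat_lit 163903) (nat_lit 12) (.e (nat_lit 426436) (nat_lit 18) .nil)))))) (.g (nat_lit 1) (.e (nat_lit 275819) (nat_lit 0) .nil) .nil))) 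
(.lf (nat_lit 544378) (.g (nat_lit 3542) (.e (nat_lit 98386) (nat_lit 32) (.e (nat_lit 475179) (nat_lit 24) (.e (nat_lit 516179) (nat_lit 15) (.e (nat_lit 475177) (nat_lit 24) (.e (nat_lit 516146) (nat_lit 9) (.e (nat_lit 426438) (nat_lit 18) .nil)))))) (.g (nat_lit 1) (.e (nat_lit 276424) (nat_lit 0) .nil) .nil)))) (.nd (nat_lit 9) 
(.lf (nat_lit 544122) (.g (nat_lit 398) (.e (nat_lit 98381) (nat_lit 31) (.e (nat_lit 466954) (nat_lit 11) (.e (nat_lit 335994) (nat_lit 1) .nil))) (.g (nat_lit 0) (.e (nat_lit 276144) (nat_lit 0) .nil) .nil))) 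
(.lf (nat_lit 544634) (.g (nat_lit 491) (.e (nat_lit 122624) (nat_lit 3) (.e (nat_lit 204811) (nat_lit 9) (.e (nat_lit 426261) (nat_lit 9) (.e (nat_lit 426565) (nat_lit 34) (.e (nat_lit 401152) (nat_lit 3) .nil))))) (.g (nat_lit 0) (.e (nat_lit 277413) (nat_lit 0) .nil) .nil))))) (.nd (nat_lit 8) (.nd (nat_lit 9) 
(.lf (nat_lit 543994) (.g (nat_lit 3675) (.e (nat_lit 98373) (nat_lit 29) (.e (nat_lit 450588) (nat_lit 10) (.e (nat_lit 573450) (nat_lit 9) (.e (nat_lit 442) (nat_lit 33) (.e (nat_lit 434180) (nat_lit 0) (.e (nat_lit 1252) (nat_lit 92) .nil)))))) (.g (nat_lit 1) (.e (nat_lit 275973) (nat_lit 0) .nil) .nil))) 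
(.lf (nat_lit 544506) (.g (nat_lit 597) (.e (nat_lit 114432) (nat_lit 6) (.e (nat_lit 188453) (nat_lit 24) (.e (nat_lit 229677) (nat_lit 244) .nil))) (.g (nat_lit 0) (.e (nat_lit 276960) (nat_lit 0) .nil) .nil)))) (.nd (nat_lit 9) 
(.lf (nat_lit 544250) (.g (nat_lit 3740) (.e (nat_lit 98384) (nat_lit 32) (.e (nat_lit 475179) (nat_lit 24) (.e (nat_lit 516117) (nat_lit 1) (.e (nat_lit 164330) (nat_lit 230) (.e (nat_lit 163850) (nat_lit 0) (.e (nat_lit 3252) (nat_lit 197) (.e (nat_lit 532515) (nat_lit 3) (.e (nat_lit 114719) (nat_lit 23) .nil)))))))) (.g (nat_lit 1) (.e (nat_lit 276289) (nat_lit 0) .nil) .nil))) 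
(.lf (nat_lit 544762) (.g (nat_lit 2535) (.e (nat_lit 114696) (nat_lit 11) (.e (nat_lit 426225) (nat_lit 9) (.e (nat_lit 426555) (nat_lit 32) (.e (nat_lit 376859) (nat_lit 21) (.e (nat_lit 57849) (nat_lit 252) (.e (nat_lit 57388) (nat_lit 5) .nil)))))) (.g (nat_lit 1) (.e (nat_lit 277734) (nat_lit 0) .nil) .nil)))))))))) 
(.nd (nat_lit 3) (.nd (nat_lit 4) (.nd (nat_lit 5) (.nd (nat_lit 6) (.nd (nat_lit 7) 
(.nd (nat_lit 8) (.nd (nat_lit 9) 
(.lf (nat_lit 543750) (.g (nat_lit 486) (.e (nat_lit 98367) (nat_lit 27) (.e (nat_lit 434248) (nat_lit 28) (.e (nat_lit 573487) (nat_lit 14) .nil))) (.g (nat_lit 0) (.e (nat_lit 275589) (nat_lit 0) .nil) .nil))) 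
(.lf (nat_lit 544262) (.g (nat_lit 3504) (.e (nat_lit 98384) (nat_lit 32) (.e (nat_lit 475179) (nat_lit 24) (.e (nat_lit 516120) (nat_lit 1) (.e (nat_lit 164330) (nat_lit 230) (.e (nat_lit 163873) (nat_lit 3) (.e (nat_lit 204838) (nat_lit 20) (.e (nat_lit 114719) (nat_lit 23) .nil))))))) (.g (nat_lit 1) (.e (nat_lit 276301) (nat_lit 0) .nil) .nil)))) (.nd (nat_lit 9) 
(.lf (nat_lit 544006) (.g (nat_lit 4284) (.e (nat_lit 98373) (nat_lit 29) (.e (nat_lit 450588) (nat_lit 10) (.e (nat_lit 573473) (nat_lit 12) (.e (nat_lit 57348) (nat_lit 0) (.e (nat_lit 7263) (nat_lit 384) (.e (nat_lit 57412) (nat_lit 12) (.e (nat_lit 336022) (nat_lit 3) .nil))))))) (.g (nat_lit 1) (.e (nat_lit 275985) (nat_lit 0) .nil) .nil))) 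
(.lf (nat_lit 544518) (.g (nat_lit 435) (.e (nat_lit 114432) (nat_lit 6) (.e (nat_lit 188453) (nat_lit 24) (.e (nat_lit 229681) (nat_lit 244) .nil))) (.g (nat_lit 0) (.e (nat_lit 276972) (nat_lit 0) .nil) .nil))))) (.nd (nat_lit 8) (.nd (nat_lit 9) 
(.lf (nat_lit 543878) (.g (nat_lit 2974) (.e (nat_lit 98370) (nat_lit 28) (.e (nat_lit 442427) (nat_lit 23) (.e (nat_lit 204846) (nat_lit 24) (.e (nat_lit 319533) (nat_lit 16) (.e (nat_lit 294656) (nat_lit 3) .nil))))) (.g (nat_lit 1) (.e (nat_lit 275834) (nat_lit 0) .nil) .nil))) 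
(.lf (nat_lit 544390) (.g (nat_lit 3475) (.e (nat_lit 98386) (nat_lit 32) (.e (nat_lit 475199) (nat_lit 40) (.e (nat_lit 704589) (nat_lit 3) (.e (nat_lit 163979) (nat_lit 30) (.e (nat_lit 573491) (nat_lit 15) (.e (nat_lit 81955) (nat_lit 23) .nil)))))) (.g (nat_lit 1) (.e (nat_lit 276441) (nat_lit 0) .nil) .nil)))) (.nd (nat_lit 9) 
(.lf (nat_lit 544134) (.g (nat_lit 1981) (.e (nat_lit 98381) (nat_lit 31) (.e (nat_lit 466954) (nat_lit 11) (.e (nat_lit 335995) (nat_lit 1) (.e (nat_lit 57688) (nat_lit 156) (.e (nat_lit 163904) (nat_lit 12) .nil))))) (.g (nat_lit 0) (.e (nat_lit 276156) (nat_lit 0) .nil) .nil))) 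
(.lf (nat_lit 544646) (.g (nat_lit 851) (.e (nat_lit 122624) (nat_lit 4) (.e (nat_lit 213030) (nat_lit 11) (.e (nat_lit 24659) (nat_lit 13) (.e (nat_lit 393267) (nat_lit 23) .nil)))) (.g (nat_lit 0) (.e (nat_lit 277452) (nat_lit 0) .nil) .nil)))))) (.nd (nat_lit 7) (.nd (nat_lit 8) (.nd (nat_lit 9) 
(.lf (nat_lit 543814) (.g (nat_lit 3377) (.e (nat_lit 98368) (nat_lit 27) (.e (nat_lit 434247) (nat_lit 28) (.e (nat_lit 573489) (nat_lit 14) (.e (nat_lit 73755) (nat_lit 8) (.e (nat_lit 557075) (nat_lit 9) .nil))))) (.g (nat_lit 0) (.e (nat_lit 275706) (nat_lit 0) .nil) .nil))) 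
(.lf (nat_lit 544326) (.g (nat_lit 2231) (.e (nat_lit 98386) (nat_lit 32) (.e (nat_lit 475177) (nat_lit 24) (.e (nat_lit 516148) (nat_lit 9) (.e (nat_lit 426428) (nat_lit 17) (.e (nat_lit 90169) (nat_lit 13) (.e (nat_lit 179968) (nat_lit 18) .nil)))))) (.g (nat_lit 1) (.e (nat_lit 276371) (nat_lit 0) .nil) .nil)))) (.nd (nat_lit 9) 
(.lf (nat_lit 544070) (.g (nat_lit 1296) (.e (nat_lit 98380) (nat_lit 31) (.e (nat_lit 466947) (nat_lit 0) (.e (nat_lit 1800) (nat_lit 119) (.e (nat_lit 516127) (nat_lit 2) (.e (nat_lit 213031) (nat_lit 11) .nil))))) (.g (nat_lit 0) (.e (nat_lit 276087) (nat_lit 0) .nil) .nil))) 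
(.lf (nat_lit 544582) (.g (nat_lit 3302) (.e (nat_lit 106523) (nat_lit 9) (.e (nat_lit 1254) (nat_lit 92) (.e (nat_lit 98333) (nat_lit 18) (.e (nat_lit 164325) (nat_lit 230) (.e (nat_lit 163873) (nat_lit 3) .nil))))) (.g (nat_lit 0) (.e (nat_lit 277153) (nat_lit 0) .nil) .nil))))) (.nd (nat_lit 8) (.nd (nat_lit 9) 
(.lf (nat_lit 543942) (.g (nat_lit 5204) (.e (nat_lit 98372) (nat_lit 29) (.e (nat_lit 450588) (nat_lit 10) (.e (nat_lit 573475) (nat_lit 12) (.e (nat_lit 57574) (nat_lit 55) (.e (nat_lit 778466) (nat_lit 11) (.e (nat_lit 24607) (nat_lit 3) .nil)))))) (.g (nat_lit 1) (.e (nat_lit 275921) (nat_lit 0) .nil) .nil))) 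
(.lf (nat_lit 544454) (.g (nat_lit 3272) (.e (nat_lit 114432) (nat_lit 3) (.e (nat_lit 163979) (nat_lit 30) (.e (nat_lit 573493) (nat_lit 15) (.e (nat_lit 81954) (nat_lit 23) (.e (nat_lit 98355) (nat_lit 26) .nil))))) (.g (nat_lit 0) (.e (nat_lit 276752) (nat_lit 0) .nil) .nil)))) (.nd (nat_lit 9) 
(.lf (nat_lit 544198) (.g (nat_lit 3800) (.e (nat_lit 98384) (nat_lit 32) (.e (nat_lit 475177) (nat_lit 24) (.e (nat_lit 516118) (nat_lit 1) (.e (nat_lit 164327) (nat_lit 230) (.e (nat_lit 163875) (nat_lit 3) (.e (nat_lit 204837) (nat_lit 20) (.e (nat_lit 114719) (nat_lit 23) .nil))))))) (.g (nat_lit 1) (.e (nat_lit 276237) (nat_lit 0) .nil) .nil))) 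
(.lf (nat_lit 544710) (.g (nat_lit 1986) (.e (nat_lit 114694) (nat_lit 11) (.e (nat_lit 426139) (nat_lit 3) (.e (nat_lit 204861) (nat_lit 26) (.e (nat_lit 336076) (nat_lit 9) (.e (nat_lit 336326) (nat_lit 18) .nil))))) (.g (nat_lit 0) (.e (nat_lit 277581) (nat_lit 0) .nil) .nil))))))) (.nd (nat_lit 6) (.nd (nat_lit 7) (.nd (nat_lit 8) (.nd (nat_lit 9) 
(.lf (nat_lit 543782) (.g (nat_lit 3154) (.e (nat_lit 98367) (nat_lit 27) (.e (nat_lit 434271) (nat_lit 38) (.e (nat_lit 655375) (nat_lit 3) (.e (nat_lit 163979) (nat_lit 30) (.e (nat_lit 573491) (nat_lit 15) (.e (nat_lit 81955) (nat_lit 23) .nil)))))) (.g (nat_lit 1) (.e (nat_lit 275624) (nat_lit 0) .nil) .nil))) 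
(.lf (nat_lit 544294) (.g (nat_lit 3250) (.e (nat_lit 98385) (nat_lit 32) (.e (nat_lit 475177) (nat_lit 24) (.e (nat_lit 516179) (nat_lit 15) (.e (nat_lit 475179) (nat_lit 24) (.e (nat_lit 516146) (nat_lit 9) (.e (nat_lit 426436) (nat_lit 18) .nil)))))) (.g (nat_lit 1) (.e (nat_lit 276336) (nat_lit 0) .nil) .nil)))) (.nd (nat_lit 9) 
(.lf (nat_lit 544038) (.g (nat_lit 2011) (.e (nat_lit 98376) (nat_lit 30) (.e (nat_lit 458789) (nat_lit 23) (.e (nat_lit 532515) (nat_lit 3) (.e (nat_lit 114716) (nat_lit 22) (.e (nat_lit 90140) (nat_lit 9) (.e (nat_lit 2611) (nat_lit 163) (.e (nat_lit 164401) (nat_lit 256) (.e (nat_lit 57378) (nat_lit 3) .nil)))))))) (.g (nat_lit 1) (.e (nat_lit 276038) (nat_lit 0) .nil) .nil))) 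
(.lf (nat_lit 544550) (.g (nat_lit 1534) (.e (nat_lit 114432) (nat_lit 6) (.e (nat_lit 188455) (nat_lit 24) (.e (nat_lit 229680) (nat_lit 244) (.e (nat_lit 163919) (nat_lit 14) (.e (nat_lit 450304) (nat_lit 4) .nil))))) (.g (nat_lit 0) (.e (nat_lit 277012) (nat_lit 0) .nil) .nil))))) (.nd (nat_lit 8) (.nd (nat_lit 9) 
(.lf (nat_lit 543910) (.g (nat_lit 2394) (.e (nat_lit 98372) (nat_lit 29) (.e (nat_lit 450586) (nat_lit 10) (.e (nat_lit 573452) (nat_lit 9) (.e (nat_lit 428) (nat_lit 32) (.e (nat_lit 426347) (nat_lit 14) (.e (nat_lit 491540) (nat_lit 3) .nil)))))) (.g (nat_lit 1) (.e (nat_lit 275883) (nat_lit 0) .nil) .nil))) 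
(.lf (nat_lit 544422) (.g (nat_lit 3608) (.e (nat_lit 98389) (nat_lit 33) (.e (nat_lit 491556) (nat_lit 9) (.e (nat_lit 336305) (nat_lit 15) (.e (nat_lit 3298) (nat_lit 202) (.e (nat_lit 573492) (nat_lit 15) (.e (nat_lit 81956) (nat_lit 23) .nil)))))) (.g (nat_lit 1) (.e (nat_lit 276479) (nat_lit 0) .nil) .nil)))) (.nd (nat_lit 9) 
(.lf (nat_lit 544166) (.g (nat_lit 1783) (.e (nat_lit 98382) (nat_lit 31) (.e (nat_lit 466974) (nat_lit 22) (.e (nat_lit 196681) (nat_lit 17) (.e (nat_lit 131089) (nat_lit 1) (.e (nat_lit 57929) (nat_lit 282) (.e (nat_lit 171776) (nat_lit 64) .nil)))))) (.g (nat_lit 1) (.e (nat_lit 276191) (nat_lit 0) .nil) .nil))) 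
(.lf (nat_lit 544678) (.g (nat_lit 310) (.e (nat_lit 122624) (nat_lit 5) (.e (nat_lit 221194) (nat_lit 11) (.e (nat_lit 336076) (nat_lit 9) .nil))) (.g (nat_lit 0) (.e (nat_lit 277516) (nat_lit 0) .nil) .nil)))))) (.nd (nat_lit 7) (.nd (nat_lit 8) (.nd (nat_lit 9) 
(.lf (nat_lit 543846) (.g (nat_lit 3206) (.e (nat_lit 98368) (nat_lit 27) (.e (nat_lit 434248) (nat_lit 28) (.e (nat_lit 573489) (nat_lit 14) (.e (nat_lit 73754) (nat_lit 8) (.e (nat_lit 557093) (nat_lit 12) (.e (nat_lit 163857) (nat_lit 0) (.e (nat_lit 5949) (nat_lit 322) (.e (nat_lit 57378) (nat_lit 3) .nil)))))))) (.g (nat_lit 1) (.e (nat_lit 275779) (nat_lit 0) .nil) .nil))) 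
(.lf (nat_lit 544358) (.g (nat_lit 2555) (.e (nat_lit 98386) (nat_lit 32) (.e (nat_lit 475179) (nat_lit 24) (.e (nat_lit 516117) (nat_lit 1) (.e (nat_lit 164304) (nat_lit 226) (.e (nat_lit 2612) (nat_lit 163) .nil))))) (.g (nat_lit 0) (.e (nat_lit 276403) (nat_lit 0) .nil) .nil)))) (.nd (nat_lit 9) 
(.lf (nat_lit 544102) (.g (nat_lit 1274) (.e (nat_lit 98381) (nat_lit 31) (.e (nat_lit 466947) (nat_lit 0) (.e (nat_lit 1800) (nat_lit 119) (.e (nat_lit 516127) (nat_lit 2) (.e (nat_lit 213031) (nat_lit 11) .nil))))) (.g (nat_lit 0) (.e (nat_lit 276124) (nat_lit 0) .nil) .nil))) 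
(.lf (nat_lit 544614) (.g (nat_lit 1408) (.e (nat_lit 106535) (nat_lit 11) (.e (nat_lit 16436) (nat_lit 9) (.e (nat_lit 426555) (nat_lit 32) (.e (nat_lit 376857) (nat_lit 21) .nil)))) (.g (nat_lit 0) (.e (nat_lit 277236) (nat_lit 0) .nil) .nil))))) (.nd (nat_lit 8) (.nd (nat_lit 9) 
(.lf (nat_lit 543974) (.g (nat_lit 4802) (.e (nat_lit 98373) (nat_lit 29) (.e (nat_lit 450587) (nat_lit 10) (.e (nat_lit 573475) (nat_lit 12) (.e (nat_lit 57574) (nat_lit 55) (.e (nat_lit 778466) (nat_lit 11) (.e (nat_lit 24608) (nat_lit 3) .nil)))))) (.g (nat_lit 1) (.e (nat_lit 275953) (nat_lit 0) .nil) .nil))) 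
(.lf (nat_lit 544486) (.g (nat_lit 1439) (.e (nat_lit 114432) (nat_lit 6) (.e (nat_lit 188444) (nat_lit 21) (.e (nat_lit 164348) (nat_lit 240) (.e (nat_lit 2650) (nat_lit 166) (.e (nat_lit 196352) (nat_lit 4) .nil))))) (.g (nat_lit 0) (.e (nat_lit 276938) (nat_lit 0) .nil) .nil)))) (.nd (nat_lit 9) 
(.lf (nat_lit 544230) (.g (nat_lit 3504) (.e (nat_lit 98384) (nat_lit 32) (.e (nat_lit 475177) (nat_lit 24) (.e (nat_lit 516179) (nat_lit 15) (.e (nat_lit 475179) (nat_lit 24) (.e (nat_lit 516146) (nat_lit 9) (.e (nat_lit 426438) (nat_lit 18) .nil)))))) (.g (nat_lit 1) (.e (nat_lit 276269) (nat_lit 0) .nil) .nil))) 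
(.lf (nat_lit 544742) (.g (nat_lit 2141) (.e (nat_lit 114695) (nat_lit 11) (.e (nat_lit 426234) (nat_lit 9) (.e (nat_lit 426554) (nat_lit 32) (.e (nat_lit 376860) (nat_lit 21) (.e (nat_lit 57852) (nat_lit 252) (.e (nat_lit 57389) (nat_lit 5) .nil)))))) (.g (nat_lit 1) (.e (nat_lit 277696) (nat_lit 0) .nil) .nil)))))))) 
(.nd (nat_lit 5) (.nd (nat_lit 6) (.nd (nat_lit 7) (.nd (nat_lit 8) (.nd (nat_lit 9) 
(.lf (nat_lit 543766) (.g (nat_lit 2329) (.e (nat_lit 98367) (nat_lit 27) (.e (nat_lit 434248) (nat_lit 28) (.e (nat_lit 573489) (nat_lit 14) (.e (nat_lit 73754) (nat_lit 8) (.e (nat_lit 557094) (nat_lit 12) .nil))))) (.g (nat_lit 0) (.e (nat_lit 275605) (nat_lit 0) .nil) .nil))) 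
(.lf (nat_lit 544278) (.g (nat_lit 1354) (.e (nat_lit 98385) (nat_lit 32) (.e (nat_lit 475177) (nat_lit 24) (.e (nat_lit 516146) (nat_lit 9) (.e (nat_lit 426428) (nat_lit 17) (.e (nat_lit 90133) (nat_lit 9) .nil))))) (.g (nat_lit 0) (.e (nat_lit 276317) (nat_lit 0) .nil) .nil)))) (.nd (nat_lit 9) 
(.lf (nat_lit 544022) (.g (nat_lit 4301) (.e (nat_lit 98373) (nat_lit 29) (.e (nat_lit 450588) (nat_lit 10) (.e (nat_lit 573475) (nat_lit 12) (.e (nat_lit 57574) (nat_lit 55) (.e (nat_lit 778465) (nat_lit 11) (.e (nat_lit 32512) (nat_lit 3) .nil)))))) (.g (nat_lit 1) (.e (nat_lit 276001) (nat_lit 0) .nil) .nil))) 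
(.lf (nat_lit 544534) (.g (nat_lit 1424) (.e (nat_lit 114432) (nat_lit 6) (.e (nat_lit 188455) (nat_lit 24) (.e (nat_lit 229665) (nat_lit 240) (.e (nat_lit 2653) (nat_lit 166) (.e (nat_lit 196352) (nat_lit 4) .nil))))) (.g (nat_lit 0) (.e (nat_lit 276996) (nat_lit 0) .nil) .nil))))) (.nd (nat_lit 8) (.nd (nat_lit 9) 
(.lf (nat_lit 543894) (.g (nat_lit 2472) (.e (nat_lit 98372) (nat_lit 29) (.e (nat_lit 450579) (nat_lit 5) (.e (nat_lit 532533) (nat_lit 9) (.e (nat_lit 336000) (nat_lit 1) (.e (nat_lit 57926) (nat_lit 282) (.e (nat_lit 171776) (nat_lit 64) .nil)))))) (.g (nat_lit 1) (.e (nat_lit 275867) (nat_lit 0) .nil) .nil))) 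
(.lf (nat_lit 544406) (.g (nat_lit 2665) (.e (nat_lit 98387) (nat_lit 33) (.e (nat_lit 491571) (nat_lit 13) (.e (nat_lit 393224) (nat_lit 9) (.e (nat_lit 335894) (nat_lit 0) (.e (nat_lit 974) (nat_lit 81) .nil))))) (.g (nat_lit 0) (.e (nat_lit 276460) (nat_lit 0) .nil) .nil)))) (.nd (nat_lit 9) 
(.lf (nat_lit 544150) (.g (nat_lit 2702) (.e (nat_lit 98381) (nat_lit 31) (.e (nat_lit 466977) (nat_lit 22) (.e (nat_lit 196681) (nat_lit 17) (.e (nat_lit 131089) (nat_lit 1) (.e (nat_lit 57930) (nat_lit 282) (.e (nat_lit 171776) (nat_lit 64) .nil)))))) (.g (nat_lit 1) (.e (nat_lit 276174) (nat_lit 0) .nil) .nil))) 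
(.lf (nat_lit 544662) (.g (nat_lit 345) (.e (nat_lit 122624) (nat_lit 4) (.e (nat_lit 213032) (nat_lit 11) (.e (nat_lit 24655) (nat_lit 13) .nil))) (.g (nat_lit 0) (.e (nat_lit 277490) (nat_lit 0) .nil) .nil)))))) (.nd (nat_lit 7) (.nd (nat_lit 8) (.nd (nat_lit 9) 
(.lf (nat_lit 543830) (.g (nat_lit 1912) (.e (nat_lit 98368) (nat_lit 27) (.e (nat_lit 434248) (nat_lit 28) (.e (nat_lit 573482) (nat_lit 13) (.e (nat_lit 65635) (nat_lit 15) .nil)))) (.g (nat_lit 0) (.e (nat_lit 275745) (nat_lit 0) .nil) .nil))) 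
(.lf (nat_lit 544342) (.g (nat_lit 2696) (.e (nat_lit 98386) (nat_lit 32) (.e (nat_lit 475177) (nat_lit 24) (.e (nat_lit 516179) (nat_lit 15) (.e (nat_lit 475179) (nat_lit 24) (.e (nat_lit 516144) (nat_lit 9) (.e (nat_lit 426436) (nat_lit 18) .nil)))))) (.g (nat_lit 1) (.e (nat_lit 276387) (nat_lit 0) .nil) .nil)))) (.nd (nat_lit 9) 
(.lf (nat_lit 544086) (.g (nat_lit 2574) (.e (nat_lit 98380) (nat_lit 31) (.e (nat_lit 466954) (nat_lit 11) (.e (nat_lit 335995) (nat_lit 1) (.e (nat_lit 57667) (nat_lit 152) (.e (nat_lit 2619) (nat_lit 164) (.e (nat_lit 179968) (nat_lit 18) .nil)))))) (.g (nat_lit 1) (.e (nat_lit 276104) (nat_lit 0) .nil) .nil))) 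
(.lf (nat_lit 544598) (.g (nat_lit 2127) (.e (nat_lit 106534) (nat_lit 11) (.e (nat_lit 16415) (nat_lit 3) (.e (nat_lit 204861) (nat_lit 26) (.e (nat_lit 336194) (nat_lit 12) (.e (nat_lit 385067) (nat_lit 26) (.e (nat_lit 532510) (nat_lit 2) .nil)))))) (.g (nat_lit 1) (.e (nat_lit 277200) (nat_lit 0) .nil) .nil))))) (.nd (nat_lit 8) (.nd (nat_lit 9) 
(.lf (nat_lit 543958) (.g (nat_lit 3105) (.e (nat_lit 98373) (nat_lit 29) (.e (nat_lit 450587) (nat_lit 10) (.e (nat_lit 573473) (nat_lit 12) (.e (nat_lit 57347) (nat_lit 0) (.e (nat_lit 7265) (nat_lit 384) (.e (nat_lit 57406) (nat_lit 12) (.e (nat_lit 343808) (nat_lit 3) .nil))))))) (.g (nat_lit 1) (.e (nat_lit 275937) (nat_lit 0) .nil) .nil))) 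
(.lf (nat_lit 544470) (.g (nat_lit 1963) (.e (nat_lit 114432) (nat_lit 4) (.e (nat_lit 172126) (nat_lit 14) (.e (nat_lit 491571) (nat_lit 13) (.e (nat_lit 393266) (nat_lit 23) .nil)))) (.g (nat_lit 0) (.e (nat_lit 276838) (nat_lit 0) .nil) .nil)))) (.nd (nat_lit 9) 
(.lf (nat_lit 544214) (.g (nat_lit 1905) (.e (nat_lit 98384) (nat_lit 32) (.e (nat_lit 475177) (nat_lit 24) (.e (nat_lit 516150) (nat_lit 9) (.e (nat_lit 426428) (nat_lit 17) (.e (nat_lit 90125) (nat_lit 9) (.e (nat_lit 2900) (nat_lit 184) (.e (nat_lit 426435) (nat_lit 18) .nil))))))) (.g (nat_lit 1) (.e (nat_lit 276253) (nat_lit 0) .nil) .nil))) 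
(.lf (nat_lit 544726) (.g (nat_lit 2167) (.e (nat_lit 114694) (nat_lit 11) (.e (nat_lit 426200) (nat_lit 9) (.e (nat_lit 426555) (nat_lit 32) (.e (nat_lit 376859) (nat_lit 21) (.e (nat_lit 57853) (nat_lit 252) .nil))))) (.g (nat_lit 0) (.e (nat_lit 277659) (nat_lit 0) .nil) .nil))))))) (.nd (nat_lit 6) (.nd (nat_lit 7) (.nd (nat_lit 8) (.nd (nat_lit 9) 
(.lf (nat_lit 543798) (.g (nat_lit 1602) (.e (nat_lit 98368) (nat_lit 27) (.e (nat_lit 434245) (nat_lit 28) (.e (nat_lit 573488) (nat_lit 14) (.e (nat_lit 73755) (nat_lit 8) (.e (nat_lit 557119) (nat_lit 18) .nil))))) (.g (nat_lit 0) (.e (nat_lit 275670) (nat_lit 0) .nil) .nil))) 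
(.lf (nat_lit 544310) (.g (nat_lit 2091) (.e (nat_lit 98385) (nat_lit 32) (.e (nat_lit 475179) (nat_lit 24) (.e (nat_lit 516146) (nat_lit 9) (.e (nat_lit 426436) (nat_lit 18) .nil)))) (.g (nat_lit 0) (.e (nat_lit 276354) (nat_lit 0) .nil) .nil)))) (.nd (nat_lit 9) 
(.lf (nat_lit 544054) (.g (nat_lit 2340) (.e (nat_lit 98379) (nat_lit 31) (.e (nat_lit 466954) (nat_lit 11) (.e (nat_lit 335995) (nat_lit 1) (.e (nat_lit 57688) (nat_lit 156) (.e (nat_lit 163902) (nat_lit 12) .nil))))) (.g (nat_lit 0) (.e (nat_lit 276066) (nat_lit 0) .nil) .nil))) 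
(.lf (nat_lit 544566) (.g (nat_lit 2762) (.e (nat_lit 106517) (nat_lit 9) (.e (nat_lit 1252) (nat_lit 92) (.e (nat_lit 98333) (nat_lit 18) (.e (nat_lit 164325) (nat_lit 230) (.e (nat_lit 163875) (nat_lit 3) .nil))))) (.g (nat_lit 0) (.e (nat_lit 277092) (nat_lit 0) .nil) .nil))))) (.nd (nat_lit 8) (.nd (nat_lit 9) 
(.lf (nat_lit 543926) (.g (nat_lit 2995) (.e (nat_lit 98372) (nat_lit 29) (.e (nat_lit 450586) (nat_lit 10) (.e (nat_lit 573477) (nat_lit 12) (.e (nat_lit 57574) (nat_lit 55) (.e (nat_lit 778466) (nat_lit 11) (.e (nat_lit 32512) (nat_lit 3) .nil)))))) (.g (nat_lit 1) (.e (nat_lit 275899) (nat_lit 0) .nil) .nil))) 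
(.lf (nat_lit 544438) (.g (nat_lit 3265) (.e (nat_lit 114432) (nat_lit 3) (.e (nat_lit 163977) (nat_lit 30) (.e (nat_lit 573492) (nat_lit 15) (.e (nat_lit 81956) (nat_lit 23) (.e (nat_lit 98356) (nat_lit 26) .nil))))) (.g (nat_lit 0) (.e (nat_lit 276720) (nat_lit 0) .nil) .nil)))) (.nd (nat_lit 9) 
(.lf (nat_lit 544182) (.g (nat_lit 1952) (.e (nat_lit 98383) (nat_lit 32) (.e (nat_lit 475179) (nat_lit 24) (.e (nat_lit 516117) (nat_lit 1) (.e (nat_lit 164330) (nat_lit 230) .nil)))) (.g (nat_lit 0) (.e (nat_lit 276218) (nat_lit 0) .nil) .nil))) 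
(.lf (nat_lit 544694) (.g (nat_lit 1444) (.e (nat_lit 114694) (nat_lit 11) (.e (nat_lit 426116) (nat_lit 2) (.e (nat_lit 196672) (nat_lit 15) (.e (nat_lit 81924) (nat_lit 0) (.e (nat_lit 3253) (nat_lit 197) .nil))))) (.g (nat_lit 0) (.e (nat_lit 277537) (nat_lit 0) .nil) .nil)))))) (.nd (nat_lit 7) (.nd (nat_lit 8) (.nd (nat_lit 9) 
(.lf (nat_lit 543862) (.g (nat_lit 1286) (.e (nat_lit 98369) (nat_lit 28) (.e (nat_lit 442374) (nat_lit 0) (.e (nat_lit 1800) (nat_lit 119) (.e (nat_lit 516125) (nat_lit 2) .nil)))) (.g (nat_lit 0) (.e (nat_lit 275815) (nat_lit 0) .nil) .nil))) 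
(.lf (nat_lit 544374) (.g (nat_lit 2851) (.e (nat_lit 98386) (nat_lit 32) (.e (nat_lit 475179) (nat_lit 24) (.e (nat_lit 516146) (nat_lit 9) (.e (nat_lit 426432) (nat_lit 17) (.e (nat_lit 90168) (nat_lit 13) (.e (nat_lit 179968) (nat_lit 18) .nil)))))) (.g (nat_lit 1) (.e (nat_lit 276420) (nat_lit 0) .nil) .nil)))) (.nd (nat_lit 9) 
(.lf (nat_lit 544118) (.g (nat_lit 2606) (.e (nat_lit 98381) (nat_lit 31) (.e (nat_lit 466954) (nat_lit 11) (.e (nat_lit 335988) (nat_lit 1) (.e (nat_lit 57692) (nat_lit 156) (.e (nat_lit 163907) (nat_lit 12) (.e (nat_lit 426434) (nat_lit 18) .nil)))))) (.g (nat_lit 1) (.e (nat_lit 276140) (nat_lit 0) .nil) .nil))) 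
(.lf (nat_lit 544630) (.g (nat_lit 540) (.e (nat_lit 122624) (nat_lit 3) (.e (nat_lit 204810) (nat_lit 9) (.e (nat_lit 426234) (nat_lit 9) (.e (nat_lit 426565) (nat_lit 34) (.e (nat_lit 401152) (nat_lit 3) .nil))))) (.g (nat_lit 0) (.e (nat_lit 277409) (nat_lit 0) .nil) .nil))))) (.nd (nat_lit 8) (.nd (nat_lit 9) 
(.lf (nat_lit 543990) (.g (nat_lit 5095) (.e (nat_lit 98373) (nat_lit 29) (.e (nat_lit 450588) (nat_lit 10) (.e (nat_lit 573449) (nat_lit 9) (.e (nat_lit 411) (nat_lit 32) (.e (nat_lit 426340) (nat_lit 14) (.e (nat_lit 491540) (nat_lit 3) .nil)))))) (.g (nat_lit 1) (.e (nat_lit 275969) (nat_lit 0) .nil) .nil))) 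
(.lf (nat_lit 544502) (.g (nat_lit 1005) (.e (nat_lit 114432) (nat_lit 6) (.e (nat_lit 188453) (nat_lit 24) (.e (nat_lit 229665) (nat_lit 240) (.e (nat_lit 7936) (nat_lit 166) .nil)))) (.g (nat_lit 0) (.e (nat_lit 276956) (nat_lit 0) .nil) .nil)))) (.nd (nat_lit 9) 
(.lf (nat_lit 544246) (.g (nat_lit 4478) (.e (nat_lit 98384) (nat_lit 32) (.e (nat_lit 475179) (nat_lit 24) (.e (nat_lit 516115) (nat_lit 1) (.e (nat_lit 164327) (nat_lit 230) (.e (nat_lit 163875) (nat_lit 3) (.e (nat_lit 204834) (nat_lit 19) (.e (nat_lit 106517) (nat_lit 9) (.e (nat_lit 1255) (nat_lit 92) .nil)))))))) (.g (nat_lit 1) (.e (nat_lit 276285) (nat_lit 0) .nil) .nil))) 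
(.lf (nat_lit 544758) (.g (nat_lit 230) (.e (nat_lit 114696) (nat_lit 11) (.e (nat_lit 426225) (nat_lit 9) (.e (nat_lit 426554) (nat_lit 32) (.e (nat_lit 384768) (nat_lit 5) .nil)))) (.g (nat_lit 0) (.e (nat_lit 277730) (nat_lit 0) .nil) .nil))))))))) (.nd (nat_lit 4) (.nd (nat_lit 5) (.nd (nat_lit 6) (.nd (nat_lit 7) (.nd (nat_lit 8) (.nd (nat_lit 9) 
(.lf (nat_lit 543758) (.g (nat_lit 379) (.e (nat_lit 98367) (nat_lit 27) (.e (nat_lit 434248) (nat_lit 28) (.e (nat_lit 573489) (nat_lit 14) .nil))) (.g (nat_lit 0) (.e (nat_lit 275597) (nat_lit 0) .nil) .nil))) 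
(.lf (nat_lit 544270) (.g (nat_lit 2087) (.e (nat_lit 98384) (nat_lit 32) (.e (nat_lit 475179) (nat_lit 24) (.e (nat_lit 516179) (nat_lit 15) (.e (nat_lit 475177) (nat_lit 24) (.e (nat_lit 516148) (nat_lit 9) (.e (nat_lit 426438) (nat_lit 18) .nil)))))) (.g (nat_lit 1) (.e (nat_lit 276309) (nat_lit 0) .nil) .nil)))) (.nd (nat_lit 9) 
(.lf (nat_lit 544014) (.g (nat_lit 3870) (.e (nat_lit 98373) (nat_lit 29) (.e (nat_lit 450588) (nat_lit 10) (.e (nat_lit 573475) (nat_lit 12) (.e (nat_lit 57347) (nat_lit 0) (.e (nat_lit 7265) (nat_lit 384) (.e (nat_lit 57406) (nat_lit 12) (.e (nat_lit 343808) (nat_lit 3) .nil))))))) (.g (nat_lit 1) (.e (nat_lit 275993) (nat_lit 0) .nil) .nil))) 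
(.lf (nat_lit 544526) (.g (nat_lit 1891) (.e (nat_lit 114432) (nat_lit 6) (.e (nat_lit 188455) (nat_lit 24) (.e (nat_lit 229663) (nat_lit 240) (.e (nat_lit 2463) (nat_lit 157) (.e (nat_lit 3000) (nat_lit 186) .nil))))) (.g (nat_lit 0) (.e (nat_lit 276988) (nat_lit 0) .nil) .nil))))) (.nd (nat_lit 8) (.nd (nat_lit 9) 
(.lf (nat_lit 543886) (.g (nat_lit 1739) (.e (nat_lit 98372) (nat_lit 29) (.e (nat_lit 450579) (nat_lit 5) (.e (nat_lit 532527) (nat_lit 9) (.e (nat_lit 335997) (nat_lit 1) (.e (nat_lit 57931) (nat_lit 282) (.e (nat_lit 171776) (nat_lit 64) .nil)))))) (.g (nat_lit 1) (.e (nat_lit 275859) (nat_lit 0) .nil) .nil))) 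
(.lf (nat_lit 544398) (.g (nat_lit 1469) (.e (nat_lit 98387) (nat_lit 33) (.e (nat_lit 491566) (nat_lit 12) (.e (nat_lit 385065) (nat_lit 26) .nil))) (.g (nat_lit 0) (.e (nat_lit 276452) (nat_lit 0) .nil) .nil)))) (.nd (nat_lit 9) 
(.lf (nat_lit 544142) (.g (nat_lit 2918) (.e (nat_lit 98381) (nat_lit 31) (.e (nat_lit 466954) (nat_lit 11) (.e (nat_lit 335996) (nat_lit 1) (.e (nat_lit 57692) (nat_lit 156) (.e (nat_lit 163907) (nat_lit 12) (.e (nat_lit 426438) (nat_lit 18) .nil)))))) (.g (nat_lit 1) (.e (nat_lit 276164) (nat_lit 0) .nil) .nil))) 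
(.lf (nat_lit 544654) (.g (nat_lit 1594) (.e (nat_lit 122624) (nat_lit 4) (.e (nat_lit 213032) (nat_lit 11) (.e (nat_lit 24625) (nat_lit 9) (.e (nat_lit 336443) (nat_lit 32) (.e (nat_lit 474880) (nat_lit 5) .nil))))) (.g (nat_lit 0) (.e (nat_lit 277464) (nat_lit 0) .nil) .nil)))))) (.nd (nat_lit 7) (.nd (nat_lit 8) (.nd (nat_lit 9) 
(.lf (nat_lit 543822) (.g (nat_lit 3244) (.e (nat_lit 98368) (nat_lit 27) (.e (nat_lit 434247) (nat_lit 28) (.e (nat_lit 573489) (nat_lit 14) (.e (nat_lit 73755) (nat_lit 8) (.e (nat_lit 557111) (nat_lit 16) (.e (nat_lit 229379) (nat_lit 0) (.e (nat_lit 5939) (nat_lit 322) (.e (nat_lit 57379) (nat_lit 3) .nil)))))))) (.g (nat_lit 1) (.e (nat_lit 275732) (nat_lit 0) .nil) .nil))) 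
(.lf (nat_lit 544334) (.g (nat_lit 2781) (.e (nat_lit 98386) (nat_lit 32) (.e (nat_lit 475177) (nat_lit 24) (.e (nat_lit 516150) (nat_lit 9) (.e (nat_lit 426428) (nat_lit 17) (.e (nat_lit 90168) (nat_lit 13) (.e (nat_lit 179968) (nat_lit 18) .nil)))))) (.g (nat_lit 1) (.e (nat_lit 276379) (nat_lit 0) .nil) .nil)))) (.nd (nat_lit 9) 
(.lf (nat_lit 544078) (.g (nat_lit 2197) (.e (nat_lit 98380) (nat_lit 31) (.e (nat_lit 466954) (nat_lit 11) (.e (nat_lit 335993) (nat_lit 1) (.e (nat_lit 57691) (nat_lit 156) (.e (nat_lit 163905) (nat_lit 12) (.e (nat_lit 426438) (nat_lit 18) .nil)))))) (.g (nat_lit 1) (.e (nat_lit 276096) (nat_lit 0) .nil) .nil))) 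
(.lf (nat_lit 544590) (.g (nat_lit 924) (.e (nat_lit 106534) (nat_lit 11) (.e (nat_lit 16412) (nat_lit 2) (.e (nat_lit 196674) (nat_lit 15) (.e (nat_lit 89856) (nat_lit 0) .nil)))) (.g (nat_lit 0) (.e (nat_lit 277186) (nat_lit 0) .nil) .nil))))) (.nd (nat_lit 8) (.nd (nat_lit 9) 
(.lf (nat_lit 543950) (.g (nat_lit 1671) (.e (nat_lit 98373) (nat_lit 29) (.e (nat_lit 450586) (nat_lit 10) (.e (nat_lit 573471) (nat_lit 11) (.e (nat_lit 16396) (nat_lit 0) .nil)))) (.g (nat_lit 0) (.e (nat_lit 275929) (nat_lit 0) .nil) .nil))) 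
(.lf (nat_lit 544462) (.g (nat_lit 1365) (.e (nat_lit 114432) (nat_lit 4) (.e (nat_lit 172120) (nat_lit 12) (.e (nat_lit 475211) (nat_lit 41) (.e (nat_lit 712752) (nat_lit 29) .nil)))) (.g (nat_lit 0) (.e (nat_lit 276774) (nat_lit 0) .nil) .nil)))) (.nd (nat_lit 9) 
(.lf (nat_lit 544206) (.g (nat_lit 2145) (.e (nat_lit 98384) (nat_lit 32) (.e (nat_lit 475177) (nat_lit 24) (.e (nat_lit 516146) (nat_lit 9) (.e (nat_lit 426428) (nat_lit 17) (.e (nat_lit 90133) (nat_lit 9) (.e (nat_lit 2898) (nat_lit 184) (.e (nat_lit 426435) (nat_lit 18) .nil))))))) (.g (nat_lit 1) (.e (nat_lit 276245) (nat_lit 0) .nil) .nil))) 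
(.lf (nat_lit 544718) (.g (nat_lit 2138) (.e (nat_lit 114694) (nat_lit 11) (.e (nat_lit 426200) (nat_lit 9) (.e (nat_lit 426555) (nat_lit 32) (.e (nat_lit 376857) (nat_lit 21) (.e (nat_lit 57848) (nat_lit 252) .nil))))) (.g (nat_lit 0) (.e (nat_lit 277651) (nat_lit 0) .nil) .nil))))))) (.nd (nat_lit 6) (.nd (nat_lit 7) (.nd (nat_lit 8) (.nd (nat_lit 9) 
(.lf (nat_lit 543790) (.g (nat_lit 2190) (.e (nat_lit 98368) (nat_lit 27) (.e (nat_lit 434245) (nat_lit 28) (.e (nat_lit 573487) (nat_lit 14) (.e (nat_lit 73753) (nat_lit 8) (.e (nat_lit 557089) (nat_lit 12) .nil))))) (.g (nat_lit 0) (.e (nat_lit 275646) (nat_lit 0) .nil) .nil))) 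
(.lf (nat_lit 544302) (.g (nat_lit 2596) (.e (nat_lit 98385) (nat_lit 32) (.e (nat_lit 475177) (nat_lit 24) (.e (nat_lit 516181) (nat_lit 15) (.e (nat_lit 475179) (nat_lit 24) (.e (nat_lit 516146) (nat_lit 9) (.e (nat_lit 426436) (nat_lit 18) .nil)))))) (.g (nat_lit 1) (.e (nat_lit 276345) (nat_lit 0) .nil) .nil)))) (.nd (nat_lit 9) 
(.lf (nat_lit 544046) (.g (nat_lit 1474) (.e (nat_lit 98377) (nat_lit 30) (.e (nat_lit 458789) (nat_lit 23) (.e (nat_lit 532513) (nat_lit 3) (.e (nat_lit 114717) (nat_lit 23) .nil)))) (.g (nat_lit 0) (.e (nat_lit 276050) (nat_lit 0) .nil) .nil))) 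
(.lf (nat_lit 544558) (.g (nat_lit 1170) (.e (nat_lit 114432) (nat_lit 6) (.e (nat_lit 188455) (nat_lit 24) (.e (nat_lit 229681) (nat_lit 244) (.e (nat_lit 163931) (nat_lit 17) (.e (nat_lit 474880) (nat_lit 4) .nil))))) (.g (nat_lit 0) (.e (nat_lit 277020) (nat_lit 0) .nil) .nil))))) (.nd (nat_lit 8) (.nd (nat_lit 9) 
(.lf (nat_lit 543918) (.g (nat_lit 2359) (.e (nat_lit 98372) (nat_lit 29) (.e (nat_lit 450586) (nat_lit 10) (.e (nat_lit 573473) (nat_lit 12) (.e (nat_lit 57354) (nat_lit 0) (.e (nat_lit 7270) (nat_lit 385) (.e (nat_lit 122906) (nat_lit 12) (.e (nat_lit 336023) (nat_lit 3) .nil))))))) (.g (nat_lit 1) (.e (nat_lit 275891) (nat_lit 0) .nil) .nil))) 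
(.lf (nat_lit 544430) (.g (nat_lit 573) (.e (nat_lit 106240) (nat_lit 33) (.e (nat_lit 491566) (nat_lit 12) (.e (nat_lit 385073) (nat_lit 31) .nil))) (.g (nat_lit 0) (.e (nat_lit 276490) (nat_lit 0) .nil) .nil)))) (.nd (nat_lit 9) 
(.lf (nat_lit 544174) (.g (nat_lit 2871) (.e (nat_lit 98382) (nat_lit 31) (.e (nat_lit 466981) (nat_lit 23) (.e (nat_lit 204846) (nat_lit 24) (.e (nat_lit 319530) (nat_lit 16) (.e (nat_lit 286735) (nat_lit 3) .nil))))) (.g (nat_lit 1) (.e (nat_lit 276200) (nat_lit 0) .nil) .nil))) 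
(.lf (nat_lit 544686) (.g (nat_lit 1159) (.e (nat_lit 122624) (nat_lit 5) (.e (nat_lit 221194) (nat_lit 11) (.e (nat_lit 336087) (nat_lit 9) (.e (nat_lit 336444) (nat_lit 32) (.e (nat_lit 474880) (nat_lit 5) .nil))))) (.g (nat_lit 0) (.e (nat_lit 277524) (nat_lit 0) .nil) .nil)))))) (.nd (nat_lit 7) (.nd (nat_lit 8) (.nd (nat_lit 9) 
(.lf (nat_lit 543854) (.g (nat_lit 2992) (.e (nat_lit 98368) (nat_lit 27) (.e (nat_lit 434248) (nat_lit 28) (.e (nat_lit 573489) (nat_lit 14) (.e (nat_lit 73755) (nat_lit 8) (.e (nat_lit 557089) (nat_lit 12) .nil))))) (.g (nat_lit 0) (.e (nat_lit 275788) (nat_lit 0) .nil) .nil))) 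
(.lf (nat_lit 544366) (.g (nat_lit 3161) (.e (nat_lit 98386) (nat_lit 32) (.e (nat_lit 475179) (nat_lit 24) (.e (nat_lit 516120) (nat_lit 1) (.e (nat_lit 164330) (nat_lit 230) (.e (nat_lit 163874) (nat_lit 3) .nil))))) (.g (nat_lit 0) (.e (nat_lit 276412) (nat_lit 0) .nil) .nil)))) (.nd (nat_lit 9) 
(.lf (nat_lit 544110) (.g (nat_lit 2383) (.e (nat_lit 98381) (nat_lit 31) (.e (nat_lit 466954) (nat_lit 11) (.e (nat_lit 335986) (nat_lit 1) (.e (nat_lit 57692) (nat_lit 156) (.e (nat_lit 163907) (nat_lit 12) (.e (nat_lit 426434) (nat_lit 18) .nil)))))) (.g (nat_lit 1) (.e (nat_lit 276132) (nat_lit 0) .nil) .nil))) 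
(.lf (nat_lit 544622) (.g (nat_lit 578) (.e (nat_lit 106536) (nat_lit 11) (.e (nat_lit 16415) (nat_lit 3) (.e (nat_lit 204865) (nat_lit 28) .nil))) (.g (nat_lit 0) (.e (nat_lit 277252) (nat_lit 0) .nil) .nil))))) (.nd (nat_lit 8) (.nd (nat_lit 9) 
(.lf (nat_lit 543982) (.g (nat_lit 3948) (.e (nat_lit 98373) (nat_lit 29) (.e (nat_lit 450587) (nat_lit 10) (.e (nat_lit 573477) (nat_lit 12) (.e (nat_lit 57575) (nat_lit 55) (.e (nat_lit 778465) (nat_lit 11) (.e (nat_lit 24606) (nat_lit 3) .nil)))))) (.g (nat_lit 1) (.e (nat_lit 275961) (nat_lit 0) .nil) .nil))) 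
(.lf (nat_lit 544494) (.g (nat_lit 1293) (.e (nat_lit 114432) (nat_lit 6) (.e (nat_lit 188453) (nat_lit 24) (.e (nat_lit 229663) (nat_lit 240) (.e (nat_lit 2463) (nat_lit 157) .nil)))) (.g (nat_lit 0) (.e (nat_lit 276948) (nat_lit 0) .nil) .nil)))) (.nd (nat_lit 9) 
(.lf (nat_lit 544238) (.g (nat_lit 1870) (.e (nat_lit 98384) (nat_lit 32) (.e (nat_lit 475177) (nat_lit 24) (.e (nat_lit 516181) (nat_lit 15) (.e (nat_lit 475177) (nat_lit 24) (.e (nat_lit 516148) (nat_lit 9) (.e (nat_lit 426434) (nat_lit 18) .nil)))))) (.g (nat_lit 1) (.e (nat_lit 276277) (nat_lit 0) .nil) .nil))) 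
(.lf (nat_lit 544750) (.g (nat_lit 2333) (.e (nat_lit 114695) (nat_lit 11) (.e (nat_lit 426262) (nat_lit 9) (.e (nat_lit 426554) (nat_lit 32) (.e (nat_lit 376857) (nat_lit 21) (.e (nat_lit 57853) (nat_lit 252) (.e (nat_lit 57389) (nat_lit 5) .nil)))))) (.g (nat_lit 1) (.e (nat_lit 277704) (nat_lit 0) .nil) .nil)))))))) 
(.nd (nat_lit 5) (.nd (nat_lit 6) (.nd (nat_lit 7) (.nd (nat_lit 8) (.nd (nat_lit 9) 
(.lf (nat_lit 543774) (.g (nat_lit 3692) (.e (nat_lit 98367) (nat_lit 27) (.e (nat_lit 434248) (nat_lit 28) (.e (nat_lit 573489) (nat_lit 14) (.e (nat_lit 73755) (nat_lit 8) (.e (nat_lit 557119) (nat_lit 18) (.e (nat_lit 2796) (nat_lit 180) (.e (nat_lit 311040) (nat_lit 18) .nil))))))) (.g (nat_lit 1) (.e (nat_lit 275613) (nat_lit 0) .nil) .nil))) 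
(.lf (nat_lit 544286) (.g (nat_lit 2078) (.e (nat_lit 98385) (nat_lit 32) (.e (nat_lit 475177) (nat_lit 24) (.e (nat_lit 516150) (nat_lit 9) (.e (nat_lit 426428) (nat_lit 17) (.e (nat_lit 90169) (nat_lit 13) (.e (nat_lit 179968) (nat_lit 18) .nil)))))) (.g (nat_lit 1) (.e (nat_lit 276326) (nat_lit 0) .nil) .nil)))) (.nd (nat_lit 9) 
(.lf (nat_lit 544030) (.g (nat_lit 926) (.e (nat_lit 98374) (nat_lit 29) (.e (nat_lit 450584) (nat_lit 9) (.e (nat_lit 565275) (nat_lit 9) (.e (nat_lit 7936) (nat_lit 169) .nil)))) (.g (nat_lit 0) (.e (nat_lit 276010) (nat_lit 0) .nil) .nil))) 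
(.lf (nat_lit 544542) (.g (nat_lit 1338) (.e (nat_lit 114432) (nat_lit 6) (.e (nat_lit 188455) (nat_lit 24) (.e (nat_lit 229678) (nat_lit 244) (.e (nat_lit 163913) (nat_lit 12) .nil)))) (.g (nat_lit 0) (.e (nat_lit 277004) (nat_lit 0) .nil) .nil))))) (.nd (nat_lit 8) (.nd (nat_lit 9) 
(.lf (nat_lit 543902) (.g (nat_lit 3661) (.e (nat_lit 98372) (nat_lit 29) (.e (nat_lit 450579) (nat_lit 5) (.e (nat_lit 532542) (nat_lit 9) (.e (nat_lit 335988) (nat_lit 1) (.e (nat_lit 57926) (nat_lit 282) (.e (nat_lit 171776) (nat_lit 64) .nil)))))) (.g (nat_lit 1) (.e (nat_lit 275875) (nat_lit 0) .nil) .nil))) 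
(.lf (nat_lit 544414) (.g (nat_lit 3172) (.e (nat_lit 98389) (nat_lit 33) (.e (nat_lit 491546) (nat_lit 9) (.e (nat_lit 336013) (nat_lit 2) (.e (nat_lit 90134) (nat_lit 9) (.e (nat_lit 3098) (nat_lit 192) (.e (nat_lit 491547) (nat_lit 9) (.e (nat_lit 336019) (nat_lit 3) .nil))))))) (.g (nat_lit 1) (.e (nat_lit 276471) (nat_lit 0) .nil) .nil)))) (.nd (nat_lit 9) 
(.lf (nat_lit 544158) (.g (nat_lit 3276) (.e (nat_lit 98381) (nat_lit 31) (.e (nat_lit 466981) (nat_lit 23) (.e (nat_lit 204846) (nat_lit 24) (.e (nat_lit 319533) (nat_lit 16) (.e (nat_lit 286734) (nat_lit 3) .nil))))) (.g (nat_lit 1) (.e (nat_lit 276182) (nat_lit 0) .nil) .nil))) 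
(.lf (nat_lit 544670) (.g (nat_lit 1461) (.e (nat_lit 122624) (nat_lit 4) (.e (nat_lit 213032) (nat_lit 11) (.e (nat_lit 24660) (nat_lit 13) (.e (nat_lit 393269) (nat_lit 23) (.e (nat_lit 426448) (nat_lit 20) .nil))))) (.g (nat_lit 0) (.e (nat_lit 277508) (nat_lit 0) .nil) .nil)))))) (.nd (nat_lit 7) (.nd (nat_lit 8) (.nd (nat_lit 9) 
(.lf (nat_lit 543838) (.g (nat_lit 2354) (.e (nat_lit 98368) (nat_lit 27) (.e (nat_lit 434248) (nat_lit 28) (.e (nat_lit 573487) (nat_lit 14) (.e (nat_lit 73753) (nat_lit 8) (.e (nat_lit 557089) (nat_lit 12) .nil))))) (.g (nat_lit 0) (.e (nat_lit 275761) (nat_lit 0) .nil) .nil))) 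
(.lf (nat_lit 544350) (.g (nat_lit 2209) (.e (nat_lit 98386) (nat_lit 32) (.e (nat_lit 475177) (nat_lit 24) (.e (nat_lit 516181) (nat_lit 15) (.e (nat_lit 475179) (nat_lit 24) (.e (nat_lit 516145) (nat_lit 9) (.e (nat_lit 426436) (nat_lit 18) .nil)))))) (.g (nat_lit 1) (.e (nat_lit 276395) (nat_lit 0) .nil) .nil)))) (.nd (nat_lit 9) 
(.lf (nat_lit 544094) (.g (nat_lit 1840) (.e (nat_lit 98380) (nat_lit 31) (.e (nat_lit 466974) (nat_lit 22) (.e (nat_lit 196681) (nat_lit 17) (.e (nat_lit 131089) (nat_lit 1) (.e (nat_lit 57930) (nat_lit 282) (.e (nat_lit 171776) (nat_lit 64) .nil)))))) (.g (nat_lit 1) (.e (nat_lit 276112) (nat_lit 0) .nil) .nil))) 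
(.lf (nat_lit 544606) (.g (nat_lit 505) (.e (nat_lit 106534) (nat_lit 11) (.e (nat_lit 16416) (nat_lit 3) (.e (nat_lit 204877) (nat_lit 31) .nil))) (.g (nat_lit 0) (.e (nat_lit 277208) (nat_lit 0) .nil) .nil))))) (.nd (nat_lit 8) (.nd (nat_lit 9) 
(.lf (nat_lit 543966) (.g (nat_lit 4255) (.e (nat_lit 98373) (nat_lit 29) (.e (nat_lit 450587) (nat_lit 10) (.e (nat_lit 573475) (nat_lit 12) (.e (nat_lit 57354) (nat_lit 0) (.e (nat_lit 7273) (nat_lit 385) (.e (nat_lit 122909) (nat_lit 12) (.e (nat_lit 343808) (nat_lit 3) .nil))))))) (.g (nat_lit 1) (.e (nat_lit 275945) (nat_lit 0) .nil) .nil))) 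
(.lf (nat_lit 544478) (.g (nat_lit 638) (.e (nat_lit 114432) (nat_lit 6) (.e (nat_lit 188434) (nat_lit 20) (.e (nat_lit 3408) (nat_lit 212) (.e (nat_lit 655360) (nat_lit 0) .nil)))) (.g (nat_lit 0) (.e (nat_lit 276923) (nat_lit 0) .nil) .nil)))) (.nd (nat_lit 9) 
(.lf (nat_lit 544222) (.g (nat_lit 1488) (.e (nat_lit 98384) (nat_lit 32) (.e (nat_lit 475177) (nat_lit 24) (.e (nat_lit 516150) (nat_lit 9) (.e (nat_lit 426432) (nat_lit 17) .nil)))) (.g (nat_lit 0) (.e (nat_lit 276261) (nat_lit 0) .nil) .nil))) 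
(.lf (nat_lit 544734) (.g (nat_lit 2240) (.e (nat_lit 114695) (nat_lit 11) (.e (nat_lit 426230) (nat_lit 9) (.e (nat_lit 426554) (nat_lit 32) (.e (nat_lit 376857) (nat_lit 21) (.e (nat_lit 57853) (nat_lit 252) (.e (nat_lit 57389) (nat_lit 5) .nil)))))) (.g (nat_lit 1) (.e (nat_lit 277688) (nat_lit 0) .nil) .nil))))))) (.nd (nat_lit 6) (.nd (nat_lit 7) (.nd (nat_lit 8) (.nd (nat_lit 9) 
(.lf (nat_lit 543806) (.g (nat_lit 1105) (.e (nat_lit 98368) (nat_lit 27) (.e (nat_lit 434247) (nat_lit 28) (.e (nat_lit 573485) (nat_lit 13) (.e (nat_lit 65570) (nat_lit 3) .nil)))) (.g (nat_lit 0) (.e (nat_lit 275692) (nat_lit 0) .nil) .nil))) 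
(.lf (nat_lit 544318) (.g (nat_lit 2502) (.e (nat_lit 98386) (nat_lit 32) (.e (nat_lit 475177) (nat_lit 24) (.e (nat_lit 516145) (nat_lit 9) (.e (nat_lit 426428) (nat_lit 17) (.e (nat_lit 90169) (nat_lit 13) (.e (nat_lit 179968) (nat_lit 18) .nil)))))) (.g (nat_lit 1) (.e (nat_lit 276363) (nat_lit 0) .nil) .nil)))) (.nd (nat_lit 9) 
(.lf (nat_lit 544062) (.g (nat_lit 1894) (.e (nat_lit 98379) (nat_lit 31) (.e (nat_lit 466977) (nat_lit 22) (.e (nat_lit 196681) (nat_lit 17) (.e (nat_lit 131089) (nat_lit 1) (.e (nat_lit 57930) (nat_lit 282) (.e (nat_lit 171776) (nat_lit 64) .nil)))))) (.g (nat_lit 1) (.e (nat_lit 276074) (nat_lit 0) .nil) .nil))) 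
(.lf (nat_lit 544574) (.g (nat_lit 2479) (.e (nat_lit 106517) (nat_lit 9) (.e (nat_lit 1255) (nat_lit 92) (.e (nat_lit 98384) (nat_lit 32) (.e (nat_lit 475177) (nat_lit 24) (.e (nat_lit 516118) (nat_lit 1) .nil))))) (.g (nat_lit 0) (.e (nat_lit 277102) (nat_lit 0) .nil) .nil))))) (.nd (nat_lit 8) (.nd (nat_lit 9) 
(.lf (nat_lit 543934) (.g (nat_lit 3427) (.e (nat_lit 98372) (nat_lit 29) (.e (nat_lit 450586) (nat_lit 10) (.e (nat_lit 573478) (nat_lit 12) (.e (nat_lit 57574) (nat_lit 55) (.e (nat_lit 778465) (nat_lit 11) (.e (nat_lit 24608) (nat_lit 3) .nil)))))) (.g (nat_lit 1) (.e (nat_lit 275910) (nat_lit 0) .nil) .nil))) 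
(.lf (nat_lit 544446) (.g (nat_lit 2634) (.e (nat_lit 114432) (nat_lit 3) (.e (nat_lit 163978) (nat_lit 30) (.e (nat_lit 573484) (nat_lit 13) (.e (nat_lit 65617) (nat_lit 10) .nil)))) (.g (nat_lit 0) (.e (nat_lit 276733) (nat_lit 0) .nil) .nil)))) (.nd (nat_lit 9) 
(.lf (nat_lit 544190) (.g (nat_lit 1864) (.e (nat_lit 98383) (nat_lit 32) (.e (nat_lit 475210) (nat_lit 41) (.e (nat_lit 712745) (nat_lit 27) (.e (nat_lit 426532) (nat_lit 28) .nil)))) (.g (nat_lit 0) (.e (nat_lit 276229) (nat_lit 0) .nil) .nil))) 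
(.lf (nat_lit 544702) (.g (nat_lit 1271) (.e (nat_lit 114694) (nat_lit 11) (.e (nat_lit 426133) (nat_lit 3) (.e (nat_lit 204861) (nat_lit 26) (.e (nat_lit 336194) (nat_lit 12) .nil)))) (.g (nat_lit 0) (.e (nat_lit 277571) (nat_lit 0) .nil) .nil)))))) (.nd (nat_lit 7) (.nd (nat_lit 8) (.nd (nat_lit 9) 
(.lf (nat_lit 543870) (.g (nat_lit 4025) (.e (nat_lit 98369) (nat_lit 28) (.e (nat_lit 442427) (nat_lit 23) (.e (nat_lit 204846) (nat_lit 24) (.e (nat_lit 319531) (nat_lit 16) (.e (nat_lit 286735) (nat_lit 3) .nil))))) (.g (nat_lit 1) (.e (nat_lit 275825) (nat_lit 0) .nil) .nil))) 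
(.lf (nat_lit 544382) (.g (nat_lit 3030) (.e (nat_lit 98386) (nat_lit 32) (.e (nat_lit 475197) (nat_lit 40) (.e (nat_lit 704589) (nat_lit 3) (.e (nat_lit 163978) (nat_lit 30) (.e (nat_lit 573491) (nat_lit 15) (.e (nat_lit 89856) (nat_lit 23) .nil)))))) (.g (nat_lit 1) (.e (nat_lit 276429) (nat_lit 0) .nil) .nil)))) (.nd (nat_lit 9) 
(.lf (nat_lit 544126) (.g (nat_lit 2329) (.e (nat_lit 98381) (nat_lit 31) (.e (nat_lit 466954) (nat_lit 11) (.e (nat_lit 335994) (nat_lit 1) (.e (nat_lit 57692) (nat_lit 156) (.e (nat_lit 163905) (nat_lit 12) (.e (nat_lit 426438) (nat_lit 18) .nil)))))) (.g (nat_lit 1) (.e (nat_lit 276148) (nat_lit 0) .nil) .nil))) 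
(.lf (nat_lit 544638) (.g (nat_lit 1762) (.e (nat_lit 122624) (nat_lit 3) (.e (nat_lit 204813) (nat_lit 9) (.e (nat_lit 426200) (nat_lit 9) (.e (nat_lit 426568) (nat_lit 34) (.e (nat_lit 401152) (nat_lit 3) .nil))))) (.g (nat_lit 0) (.e (nat_lit 277431) (nat_lit 0) .nil) .nil))))) (.nd (nat_lit 8) (.nd (nat_lit 9) 
(.lf (nat_lit 543998) (.g (nat_lit 2421) (.e (nat_lit 98373) (nat_lit 29) (.e (nat_lit 450588) (nat_lit 10) (.e (nat_lit 573452) (nat_lit 9) (.e (nat_lit 359) (nat_lit 30) (.e (nat_lit 409601) (nat_lit 0) (.e (nat_lit 5245) (nat_lit 298) (.e (nat_lit 1256) (nat_lit 92) .nil))))))) (.g (nat_lit 1) (.e (nat_lit 275977) (nat_lit 0) .nil) .nil))) 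
(.lf (nat_lit 544510) (.g (nat_lit 1876) (.e (nat_lit 114432) (nat_lit 6) (.e (nat_lit 188453) (nat_lit 24) (.e (nat_lit 229678) (nat_lit 244) (.e (nat_lit 163934) (nat_lit 17) (.e (nat_lit 474880) (nat_lit 4) .nil))))) (.g (nat_lit 0) (.e (nat_lit 276964) (nat_lit 0) .nil) .nil)))) (.nd (nat_lit 9) 
(.lf (nat_lit 544254) (.g (nat_lit 3525) (.e (nat_lit 98384) (nat_lit 32) (.e (nat_lit 475179) (nat_lit 24) (.e (nat_lit 516117) (nat_lit 1) (.e (nat_lit 164330) (nat_lit 230) (.e (nat_lit 163874) (nat_lit 3) (.e (nat_lit 204836) (nat_lit 20) (.e (nat_lit 114718) (nat_lit 23) .nil))))))) (.g (nat_lit 1) (.e (nat_lit 276293) (nat_lit 0) .nil) .nil))) 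
(.lf (nat_lit 544766) (.g (nat_lit 1739) (.e (nat_lit 114696) (nat_lit 11) (.e (nat_lit 426230) (nat_lit 9) (.e (nat_lit 426554) (nat_lit 32) (.e (nat_lit 376859) (nat_lit 21) (.e (nat_lit 57847) (nat_lit 252) (.e (nat_lit 57388) (nat_lit 5) .nil)))))) (.g (nat_lit 1) (.e (nat_lit 277738) (nat_lit 0) .nil) .nil)))))))))))) 
(.nd (nat_lit 1) (.nd (nat_lit 2) (.nd (nat_lit 3) (.nd (nat_lit 4) (.nd (nat_lit 5) 
(.nd (nat_lit 6) (.nd (nat_lit 7) (.nd (nat_lit 8) (.nd (nat_lit 9) 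
(.lf (nat_lit 543745) (.g (nat_lit 1285) (.e (nat_lit 98367) (nat_lit 27) (.e (nat_lit 434248) (nat_lit 28) (.e (nat_lit 573482) (nat_lit 13) (.e (nat_lit 73472) (nat_lit 17) .nil)))) (.g (nat_lit 0) (.e (nat_lit 275584) (nat_lit 0) .nil) .nil))) 
(.lf (nat_lit 544257) (.g (nat_lit 4401) (.e (nat_lit 98384) (nat_lit 32) (.e (nat_lit 475179) (nat_lit 24) (.e (nat_lit 516119) (nat_lit 1) (.e (nat_lit 164327) (nat_lit 230) (.e (nat_lit 163875) (nat_lit 3) (.e (nat_lit 204838) (nat_lit 20) (.e (nat_lit 114718) (nat_lit 23) .nil))))))) (.g (nat_lit 1) (.e (nat_lit 276296) (nat_lit 0) .nil) .nil)))) (.nd (nat_lit 9) 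
(.lf (nat_lit 544001) (.g (nat_lit 1693) (.e (nat_lit 98373) (nat_lit 29) (.e (nat_lit 450588) (nat_lit 10) (.e (nat_lit 573471) (nat_lit 11) (.e (nat_lit 16384) (nat_lit 0) .nil)))) (.g (nat_lit 0) (.e (nat_lit 275980) (nat_lit 0) .nil) .nil))) 
(.lf (nat_lit 544513) (.g (nat_lit 1961) (.e (nat_lit 114432) (nat_lit 6) (.e (nat_lit 188453) (nat_lit 24) (.e (nat_lit 229680) (nat_lit 244) (.e (nat_lit 163920) (nat_lit 14) (.e (nat_lit 450304) (nat_lit 4) .nil))))) (.g (nat_lit 0) (.e (nat_lit 276967) (nat_lit 0) .nil) .nil))))) (.nd (nat_lit 8) (.nd (nat_lit 9) 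
(.lf (nat_lit 543873) (.g (nat_lit 2434) (.e (nat_lit 98370) (nat_lit 28) (.e (nat_lit 442385) (nat_lit 11) (.e (nat_lit 335995) (nat_lit 1) (.e (nat_lit 57688) (nat_lit 156) (.e (nat_lit 163905) (nat_lit 12) (.e (nat_lit 426438) (nat_lit 18) .nil)))))) (.g (nat_lit 1) (.e (nat_lit 275828) (nat_lit 0) .nil) .nil))) 
(.lf (nat_lit 544385) (.g (nat_lit 5194) (.e (nat_lit 98386) (nat_lit 32) (.e (nat_lit 475198) (nat_lit 40) (.e (nat_lit 704589) (nat_lit 3) (.e (nat_lit 163979) (nat_lit 30) (.e (nat_lit 573493) (nat_lit 15) (.e (nat_lit 81956) (nat_lit 23) .nil)))))) (.g (nat_lit 1) (.e (nat_lit 276433) (nat_lit 0) .nil) .nil)))) (.nd (nat_lit 9) 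
(.lf (nat_lit 544129) (.g (nat_lit 2483) (.e (nat_lit 98381) (nat_lit 31) (.e (nat_lit 466954) (nat_lit 11) (.e (nat_lit 335994) (nat_lit 1) (.e (nat_lit 57692) (nat_lit 156) (.e (nat_lit 163907) (nat_lit 12) (.e (nat_lit 426438) (nat_lit 18) .nil)))))) (.g (nat_lit 1) (.e (nat_lit 276151) (nat_lit 0) .nil) .nil))) 
(.lf (nat_lit 544641) (.g (nat_lit 1352) (.e (nat_lit 122624) (nat_lit 4) (.e (nat_lit 213030) (nat_lit 11) (.e (nat_lit 24630) (nat_lit 9) (.e (nat_lit 336428) (nat_lit 29) (.e (nat_lit 450304) (nat_lit 5) .nil))))) (.g (nat_lit 0) (.e (nat_lit 277444) (nat_lit 0) .nil) .nil)))))) (.nd (nat_lit 7) (.nd (nat_lit 8) (.nd (nat_lit 9) 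
(.lf (nat_lit 543809) (.g (nat_lit 2010) (.e (nat_lit 98368) (nat_lit 27) (.e (nat_lit 434247) (nat_lit 28) (.e (nat_lit 573489) (nat_lit 14) (.e (nat_lit 73754) (nat_lit 8) (.e (nat_lit 557093) (nat_lit 12) .nil))))) (.g (nat_lit 0) (.e (nat_lit 275700) (nat_lit 0) .nil) .nil))) 
(.lf (nat_lit 544321) (.g (nat_lit 2652) (.e (nat_lit 98386) (nat_lit 32) (.e (nat_lit 475177) (nat_lit 24) (.e (nat_lit 516146) (nat_lit 9) (.e (nat_lit 426428) (nat_lit 17) (.e (nat_lit 90133) (nat_lit 9) (.e (nat_lit 2900) (nat_lit 184) (.e (nat_lit 426435) (nat_lit 18) .nil))))))) (.g (nat_lit 1) (.e (nat_lit 276366) (nat_lit 0) .nil) .nil)))) (.nd (nat_lit 9) 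
(.lf (nat_lit 544065) (.g (nat_lit 2599) (.e (nat_lit 98379) (nat_lit 31) (.e (nat_lit 466981) (nat_lit 23) (.e (nat_lit 204861) (nat_lit 26) (.e (nat_lit 335988) (nat_lit 1) (.e (nat_lit 57926) (nat_lit 282) (.e (nat_lit 171776) (nat_lit 64) .nil)))))) (.g (nat_lit 1) (.e (nat_lit 276079) (nat_lit 0) .nil) .nil))) 
(.lf (nat_lit 544577) (.g (nat_lit 2431) (.e (nat_lit 106517) (nat_lit 9) (.e (nat_lit 1255) (nat_lit 92) (.e (nat_lit 98384) (nat_lit 32) (.e (nat_lit 475179) (nat_lit 24) (.e (nat_lit 516117) (nat_lit 1) .nil))))) (.g (nat_lit 0) (.e (nat_lit 277105) (nat_lit 0) .nil) .nil))))) (.nd (nat_lit 8) (.nd (nat_lit 9) 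
(.lf (nat_lit 543937) (.g (nat_lit 1481) (.e (nat_lit 98372) (nat_lit 29) (.e (nat_lit 450587) (nat_lit 10) (.e (nat_lit 573454) (nat_lit 9) (.e (nat_lit 1315) (nat_lit 98) .nil)))) (.g (nat_lit 0) (.e (nat_lit 275913) (nat_lit 0) .nil) .nil))) 
(.lf (nat_lit 544449) (.g (nat_lit 2221) (.e (nat_lit 114432) (nat_lit 3) (.e (nat_lit 163979) (nat_lit 30) (.e (nat_lit 573482) (nat_lit 13) (.e (nat_lit 65619) (nat_lit 10) (.e (nat_lit 344119) (nat_lit 21) .nil))))) (.g (nat_lit 0) (.e (nat_lit 276738) (nat_lit 0) .nil) .nil)))) (.nd (nat_lit 9) 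
(.lf (nat_lit 544193) (.g (nat_lit 2996) (.e (nat_lit 98384) (nat_lit 32) (.e (nat_lit 475177) (nat_lit 24) (.e (nat_lit 516117) (nat_lit 1) (.e (nat_lit 164330) (nat_lit 230) (.e (nat_lit 163872) (nat_lit 3) (.e (nat_lit 204837) (nat_lit 20) (.e (nat_lit 114719) (nat_lit 23) .nil))))))) (.g (nat_lit 1) (.e (nat_lit 276232) (nat_lit 0) .nil) .nil))) 
(.lf (nat_lit 544705) (.g (nat_lit 871) (.e (nat_lit 114694) (nat_lit 11) (.e (nat_lit 426139) (nat_lit 3) (.e (nat_lit 204850) (nat_lit 26) (.e (nat_lit 336089) (nat_lit 9) .nil)))) (.g (nat_lit 0) (.e (nat_lit 277576) (nat_lit 0) .nil) .nil))))))) (.nd (nat_lit 6) (.nd (nat_lit 7) (.nd (nat_lit 8) (.nd (nat_lit 9) 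
(.lf (nat_lit 543777) (.g (nat_lit 3546) (.e (nat_lit 98367) (nat_lit 27) (.e (nat_lit 434248) (nat_lit 28) (.e (nat_lit 573489) (nat_lit 14) (.e (nat_lit 73755) (nat_lit 8) (.e (nat_lit 557119) (nat_lit 18) (.e (nat_lit 2808) (nat_lit 180) (.e (nat_lit 311040) (nat_lit 18) .nil))))))) (.g (nat_lit 1) (.e (nat_lit 275616) (nat_lit 0) .nil) .nil))) 
(.lf (nat_lit 544289) (.g (nat_lit 3424) (.e (nat_lit 98385) (nat_lit 32) (.e (nat_lit 475177) (nat_lit 24) (.e (nat_lit 516179) (nat_lit 15) (.e (nat_lit 475177) (nat_lit 24) (.e (nat_lit 516146) (nat_lit 9) (.e (nat_lit 426436) (nat_lit 18) .nil)))))) (.g (nat_lit 1) (.e (nat_lit 276330) (nat_lit 0) .nil) .nil)))) (.nd (nat_lit 9) 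
(.lf (nat_lit 544033) (.g (nat_lit 1863) (.e (nat_lit 98375) (nat_lit 30) (.e (nat_lit 458789) (nat_lit 23) (.e (nat_lit 532515) (nat_lit 3) (.e (nat_lit 114719) (nat_lit 23) .nil)))) (.g (nat_lit 0) (.e (nat_lit 276027) (nat_lit 0) .nil) .nil))) 
(.lf (nat_lit 544545) (.g (nat_lit 1306) (.e (nat_lit 114432) (nat_lit 6) (.e (nat_lit 188455) (nat_lit 24) (.e (nat_lit 229678) (nat_lit 244) (.e (nat_lit 163921) (nat_lit 14) .nil)))) (.g (nat_lit 0) (.e (nat_lit 277007) (nat_lit 0) .nil) .nil))))) (.nd (nat_lit 8) (.nd (nat_lit 9) 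
(.lf (nat_lit 543905) (.g (nat_lit 2001) (.e (nat_lit 98372) (nat_lit 29) (.e (nat_lit 450580) (nat_lit 5) (.e (nat_lit 532523) (nat_lit 7) (.e (nat_lit 319502) (nat_lit 10) .nil)))) (.g (nat_lit 0) (.e (nat_lit 275878) (nat_lit 0) .nil) .nil))) 
(.lf (nat_lit 544417) (.g (nat_lit 4477) (.e (nat_lit 98389) (nat_lit 33) (.e (nat_lit 491546) (nat_lit 9) (.e (nat_lit 336303) (nat_lit 15) (.e (nat_lit 3304) (nat_lit 202) (.e (nat_lit 573492) (nat_lit 15) (.e (nat_lit 81956) (nat_lit 23) .nil)))))) (.g (nat_lit 1) (.e (nat_lit 276474) (nat_lit 0) .nil) .nil)))) (.nd (nat_lit 9) 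
(.lf (nat_lit 544161) (.g (nat_lit 3011) (.e (nat_lit 98381) (nat_lit 31) (.e (nat_lit 466981) (nat_lit 23) (.e (nat_lit 204861) (nat_lit 26) (.e (nat_lit 335988) (nat_lit 1) (.e (nat_lit 57926) (nat_lit 282) (.e (nat_lit 171776) (nat_lit 64) .nil)))))) (.g (nat_lit 1) (.e (nat_lit 276186) (nat_lit 0) .nil) .nil))) 
(.lf (nat_lit 544673) (.g (nat_lit 1050) (.e (nat_lit 122624) (nat_lit 4) (.e (nat_lit 213032) (nat_lit 11) (.e (nat_lit 24660) (nat_lit 13) (.e (nat_lit 393279) (nat_lit 23) (.e (nat_lit 433920) (nat_lit 20) .nil))))) (.g (nat_lit 0) (.e (nat_lit 277511) (nat_lit 0) .nil) .nil)))))) (.nd (nat_lit 7) (.nd (nat_lit 8) (.nd (nat_lit 9) 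
(.lf (nat_lit 543841) (.g (nat_lit 443) (.e (nat_lit 98368) (nat_lit 27) (.e (nat_lit 434248) (nat_lit 28) (.e (nat_lit 573489) (nat_lit 14) .nil))) (.g (nat_lit 0) (.e (nat_lit 275771) (nat_lit 0) .nil) .nil))) 
(.lf (nat_lit 544353) (.g (nat_lit 3505) (.e (nat_lit 98386) (nat_lit 32) (.e (nat_lit 475179) (nat_lit 24) (.e (nat_lit 516115) (nat_lit 1) (.e (nat_lit 164325) (nat_lit 230) (.e (nat_lit 163875) (nat_lit 3) (.e (nat_lit 204837) (nat_lit 20) (.e (nat_lit 114719) (nat_lit 23) .nil))))))) (.g (nat_lit 1) (.e (nat_lit 276398) (nat_lit 0) .nil) .nil)))) (.nd (nat_lit 9) 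
(.lf (nat_lit 544097) (.g (nat_lit 2703) (.e (nat_lit 98380) (nat_lit 31) (.e (nat_lit 466977) (nat_lit 22) (.e (nat_lit 196681) (nat_lit 17) (.e (nat_lit 131089) (nat_lit 1) (.e (nat_lit 57931) (nat_lit 282) (.e (nat_lit 171776) (nat_lit 64) .nil)))))) (.g (nat_lit 1) (.e (nat_lit 276115) (nat_lit 0) .nil) .nil))) 
(.lf (nat_lit 544609) (.g (nat_lit 1343) (.e (nat_lit 106535) (nat_lit 11) (.e (nat_lit 16415) (nat_lit 3) (.e (nat_lit 204861) (nat_lit 26) (.e (nat_lit 336074) (nat_lit 9) .nil)))) (.g (nat_lit 0) (.e (nat_lit 277229) (nat_lit 0) .nil) .nil))))) (.nd (nat_lit 8) (.nd (nat_lit 9) 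
(.lf (nat_lit 543969) (.g (nat_lit 3230) (.e (nat_lit 98373) (nat_lit 29) (.e (nat_lit 450587) (nat_lit 10) (.e (nat_lit 573475) (nat_lit 12) (.e (nat_lit 57574) (nat_lit 55) (.e (nat_lit 778460) (nat_lit 11) (.e (nat_lit 24609) (nat_lit 3) .nil)))))) (.g (nat_lit 1) (.e (nat_lit 275948) (nat_lit 0) .nil) .nil))) 
(.lf (nat_lit 544481) (.g (nat_lit 376) (.e (nat_lit 114432) (nat_lit 6) (.e (nat_lit 188440) (nat_lit 20) (.e (nat_lit 3409) (nat_lit 212) .nil))) (.g (nat_lit 0) (.e (nat_lit 276928) (nat_lit 0) .nil) .nil)))) (.nd (nat_lit 9) 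
(.lf (nat_lit 544225) (.g (nat_lit 2047) (.e (nat_lit 98384) (nat_lit 32) (.e (nat_lit 475177) (nat_lit 24) (.e (nat_lit 516179) (nat_lit 15) (.e (nat_lit 475177) (nat_lit 24) (.e (nat_lit 516144) (nat_lit 9) (.e (nat_lit 426436) (nat_lit 18) .nil)))))) (.g (nat_lit 1) (.e (nat_lit 276264) (nat_lit 0) .nil) .nil))) 
(.lf (nat_lit 544737) (.g (nat_lit 1771) (.e (nat_lit 114695) (nat_lit 11) (.e (nat_lit 426234) (nat_lit 9) (.e (nat_lit 426554) (nat_lit 32) (.e (nat_lit 376857) (nat_lit 21) (.e (nat_lit 57847) (nat_lit 252) (.e (nat_lit 57390) (nat_lit 5) .nil)))))) (.g (nat_lit 1) (.e (nat_lit 277691) (nat_lit 0) .nil) .nil)))))))) 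
(.nd (nat_lit 5) (.nd (nat_lit 6) (.nd (nat_lit 7) (.nd (nat_lit 8) (.nd (nat_lit 9) 
(.lf (nat_lit 543761) (.g (nat_lit 1741) (.e (nat_lit 98367) (nat_lit 27) (.e (nat_lit 434248) (nat_lit 28) (.e (nat_lit 573489) (nat_lit 14) (.e (nat_lit 73757) (nat_lit 11) .nil)))) (.g (nat_lit 0) (.e (nat_lit 275600) (nat_lit 0) .nil) .nil))) 
(.lf (nat_lit 544273) (.g (nat_lit 3811) (.e (nat_lit 98384) (nat_lit 32) (.e (nat_lit 475195) (nat_lit 40) (.e (nat_lit 704590) (nat_lit 3) (.e (nat_lit 163975) (nat_lit 30) (.e (nat_lit 573491) (nat_lit 15) (.e (nat_lit 81954) (nat_lit 23) .nil)))))) (.g (nat_lit 1) (.e (nat_lit 276312) (nat_lit 0) .nil) .nil)))) (.nd (nat_lit 9) 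
(.lf (nat_lit 544017) (.g (nat_lit 4358) (.e (nat_lit 98373) (nat_lit 29) (.e (nat_lit 450588) (nat_lit 10) (.e (nat_lit 573475) (nat_lit 12) (.e (nat_lit 57348) (nat_lit 0) (.e (nat_lit 7265) (nat_lit 384) (.e (nat_lit 57412) (nat_lit 12) (.e (nat_lit 336022) (nat_lit 3) .nil))))))) (.g (nat_lit 1) (.e (nat_lit 275996) (nat_lit 0) .nil) .nil))) 
(.lf (nat_lit 544529) (.g (nat_lit 1869) (.e (nat_lit 114432) (nat_lit 6) (.e (nat_lit 188455) (nat_lit 24) (.e (nat_lit 229663) (nat_lit 240) (.e (nat_lit 7936) (nat_lit 166) .nil)))) (.g (nat_lit 0) (.e (nat_lit 276991) (nat_lit 0) .nil) .nil))))) (.nd (nat_lit 8) (.nd (nat_lit 9) 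
(.lf (nat_lit 543889) (.g (nat_lit 2933) (.e (nat_lit 98372) (nat_lit 29) (.e (nat_lit 450579) (nat_lit 5) (.e (nat_lit 532530) (nat_lit 9) (.e (nat_lit 335999) (nat_lit 1) (.e (nat_lit 57931) (nat_lit 282) (.e (nat_lit 171776) (nat_lit 64) .nil)))))) (.g (nat_lit 1) (.e (nat_lit 275862) (nat_lit 0) .nil) .nil))) 
(.lf (nat_lit 544401) (.g (nat_lit 1112) (.e (nat_lit 98387) (nat_lit 33) (.e (nat_lit 491566) (nat_lit 12) (.e (nat_lit 385073) (nat_lit 31) (.e (nat_lit 573492) (nat_lit 15) .nil)))) (.g (nat_lit 0) (.e (nat_lit 276455) (nat_lit 0) .nil) .nil)))) (.nd (nat_lit 9) 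
(.lf (nat_lit 544145) (.g (nat_lit 1998) (.e (nat_lit 98381) (nat_lit 31) (.e (nat_lit 466974) (nat_lit 22) (.e (nat_lit 196681) (nat_lit 17) (.e (nat_lit 131089) (nat_lit 1) (.e (nat_lit 57930) (nat_lit 282) (.e (nat_lit 171776) (nat_lit 64) .nil)))))) (.g (nat_lit 1) (.e (nat_lit 276169) (nat_lit 0) .nil) .nil))) 
(.lf (nat_lit 544657) (.g (nat_lit 1535) (.e (nat_lit 122624) (nat_lit 4) (.e (nat_lit 213032) (nat_lit 11) (.e (nat_lit 24628) (nat_lit 9) (.e (nat_lit 336443) (nat_lit 32) (.e (nat_lit 474880) (nat_lit 5) .nil))))) (.g (nat_lit 0) (.e (nat_lit 277478) (nat_lit 0) .nil) .nil)))))) (.nd (nat_lit 7) (.nd (nat_lit 8) (.nd (nat_lit 9) 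
(.lf (nat_lit 543825) (.g (nat_lit 1352) (.e (nat_lit 98368) (nat_lit 27) (.e (nat_lit 434248) (nat_lit 28) (.e (nat_lit 573480) (nat_lit 13) (.e (nat_lit 65568) (nat_lit 2) .nil)))) (.g (nat_lit 0) (.e (nat_lit 275736) (nat_lit 0) .nil) .nil))) 
(.lf (nat_lit 544337) (.g (nat_lit 1843) (.e (nat_lit 98386) (nat_lit 32) (.e (nat_lit 475177) (nat_lit 24) (.e (nat_lit 516150) (nat_lit 9) (.e (nat_lit 426432) (nat_lit 17) .nil)))) (.g (nat_lit 0) (.e (nat_lit 276382) (nat_lit 0) .nil) .nil)))) (.nd (nat_lit 9) 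
(.lf (nat_lit 544081) (.g (nat_lit 2586) (.e (nat_lit 98380) (nat_lit 31) (.e (nat_lit 466954) (nat_lit 11) (.e (nat_lit 335994) (nat_lit 1) (.e (nat_lit 57688) (nat_lit 156) (.e (nat_lit 163903) (nat_lit 12) (.e (nat_lit 426436) (nat_lit 18) .nil)))))) (.g (nat_lit 1) (.e (nat_lit 276099) (nat_lit 0) .nil) .nil))) 
(.lf (nat_lit 544593) (.g (nat_lit 1902) (.e (nat_lit 106534) (nat_lit 11) (.e (nat_lit 16412) (nat_lit 2) (.e (nat_lit 196681) (nat_lit 17) (.e (nat_lit 131122) (nat_lit 12) .nil)))) (.g (nat_lit 0) (.e (nat_lit 277191) (nat_lit 0) .nil) .nil))))) (.nd (nat_lit 8) (.nd (nat_lit 9) 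
(.lf (nat_lit 543953) (.g (nat_lit 4477) (.e (nat_lit 98373) (nat_lit 29) (.e (nat_lit 450587) (nat_lit 10) (.e (nat_lit 573449) (nat_lit 9) (.e (nat_lit 437) (nat_lit 32) (.e (nat_lit 426338) (nat_lit 14) (.e (nat_lit 491540) (nat_lit 3) .nil)))))) (.g (nat_lit 1) (.e (nat_lit 275932) (nat_lit 0) .nil) .nil))) 
(.lf (nat_lit 544465) (.g (nat_lit 1412) (.e (nat_lit 114432) (nat_lit 4) (.e (nat_lit 172125) (nat_lit 14) (.e (nat_lit 491571) (nat_lit 13) (.e (nat_lit 393267) (nat_lit 23) .nil)))) (.g (nat_lit 0) (.e (nat_lit 276803) (nat_lit 0) .nil) .nil)))) (.nd (nat_lit 9) 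
(.lf (nat_lit 544209) (.g (nat_lit 1340) (.e (nat_lit 98384) (nat_lit 32) (.e (nat_lit 475177) (nat_lit 24) (.e (nat_lit 516146) (nat_lit 9) (.e (nat_lit 426428) (nat_lit 17) (.e (nat_lit 90167) (nat_lit 13) (.e (nat_lit 179968) (nat_lit 18) .nil)))))) (.g (nat_lit 1) (.e (nat_lit 276248) (nat_lit 0) .nil) .nil))) 
(.lf (nat_lit 544721) (.g (nat_lit 2212) (.e (nat_lit 114694) (nat_lit 11) (.e (nat_lit 426200) (nat_lit 9) (.e (nat_lit 426555) (nat_lit 32) (.e (nat_lit 376857) (nat_lit 21) (.e (nat_lit 57851) (nat_lit 252) .nil))))) (.g (nat_lit 0) (.e (nat_lit 277654) (nat_lit 0) .nil) .nil))))))) (.nd (nat_lit 6) (.nd (nat_lit 7) (.nd (nat_lit 8) (.nd (nat_lit 9) 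
(.lf (nat_lit 543793) (.g (nat_lit 2227) (.e (nat_lit 98368) (nat_lit 27) (.e (nat_lit 434245) (nat_lit 28) (.e (nat_lit 573487) (nat_lit 14) (.e (nat_lit 73753) (nat_lit 8) (.e (nat_lit 557094) (nat_lit 12) .nil))))) (.g (nat_lit 0) (.e (nat_lit 275654) (nat_lit 0) .nil) .nil))) 
(.lf (nat_lit 544305) (.g (nat_lit 2096) (.e (nat_lit 98385) (nat_lit 32) (.e (nat_lit 475179) (nat_lit 24) (.e (nat_lit 516115) (nat_lit 1) (.e (nat_lit 164327) (nat_lit 230) .nil)))) (.g (nat_lit 0) (.e (nat_lit 276349) (nat_lit 0) .nil) .nil)))) (.nd (nat_lit 9) 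
(.lf (nat_lit 544049) (.g (nat_lit 2170) (.e (nat_lit 98378) (nat_lit 30) (.e (nat_lit 458789) (nat_lit 23) (.e (nat_lit 532515) (nat_lit 3) (.e (nat_lit 114718) (nat_lit 23) .nil)))) (.g (nat_lit 0) (.e (nat_lit 276061) (nat_lit 0) .nil) .nil))) 
(.lf (nat_lit 544561) (.g (nat_lit 2375) (.e (nat_lit 106504) (nat_lit 9) (.e (nat_lit 1256) (nat_lit 92) (.e (nat_lit 98334) (nat_lit 18) (.e (nat_lit 164398) (nat_lit 256) (.e (nat_lit 57378) (nat_lit 3) .nil))))) (.g (nat_lit 0) (.e (nat_lit 277044) (nat_lit 0) .nil) .nil))))) (.nd (nat_lit 8) (.nd (nat_lit 9) 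
(.lf (nat_lit 543921) (.g (nat_lit 4006) (.e (nat_lit 98372) (nat_lit 29) (.e (nat_lit 450586) (nat_lit 10) (.e (nat_lit 573475) (nat_lit 12) (.e (nat_lit 57574) (nat_lit 55) (.e (nat_lit 778465) (nat_lit 11) (.e (nat_lit 24608) (nat_lit 3) .nil)))))) (.g (nat_lit 1) (.e (nat_lit 275894) (nat_lit 0) .nil) .nil))) 
(.lf (nat_lit 544433) (.g (nat_lit 3792) (.e (nat_lit 114432) (nat_lit 2) (.e (nat_lit 24608) (nat_lit 3) (.e (nat_lit 98387) (nat_lit 33) (.e (nat_lit 491566) (nat_lit 12) (.e (nat_lit 385065) (nat_lit 26) .nil))))) (.g (nat_lit 0) (.e (nat_lit 276700) (nat_lit 0) .nil) .nil)))) (.nd (nat_lit 9) 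
(.lf (nat_lit 544177) (.g (nat_lit 1451) (.e (nat_lit 98383) (nat_lit 32) (.e (nat_lit 475177) (nat_lit 24) (.e (nat_lit 516148) (nat_lit 9) (.e (nat_lit 426436) (nat_lit 18) (.e (nat_lit 98358) (nat_lit 26) .nil))))) (.g (nat_lit 0) (.e (nat_lit 276211) (nat_lit 0) .nil) .nil))) 
(.lf (nat_lit 544689) (.g (nat_lit 2022) (.e (nat_lit 122624) (nat_lit 5) (.e (nat_lit 221194) (nat_lit 11) (.e (nat_lit 336088) (nat_lit 9) (.e (nat_lit 336428) (nat_lit 29) (.e (nat_lit 450304) (nat_lit 5) .nil))))) (.g (nat_lit 0) (.e (nat_lit 277527) (nat_lit 0) .nil) .nil)))))) (.nd (nat_lit 7) (.nd (nat_lit 8) (.nd (nat_lit 9) 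
(.lf (nat_lit 543857) (.g (nat_lit 3008) (.e (nat_lit 98368) (nat_lit 27) (.e (nat_lit 434248) (nat_lit 28) (.e (nat_lit 573489) (nat_lit 14) (.e (nat_lit 73755) (nat_lit 8) (.e (nat_lit 557091) (nat_lit 12) .nil))))) (.g (nat_lit 0) (.e (nat_lit 275801) (nat_lit 0) .nil) .nil))) 
(.lf (nat_lit 544369) (.g (nat_lit 1635) (.e (nat_lit 98386) (nat_lit 32) (.e (nat_lit 475179) (nat_lit 24) (.e (nat_lit 516145) (nat_lit 9) (.e (nat_lit 426428) (nat_lit 17) .nil)))) (.g (nat_lit 0) (.e (nat_lit 276415) (nat_lit 0) .nil) .nil)))) (.nd (nat_lit 9) 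
(.lf (nat_lit 544113) (.g (nat_lit 2707) (.e (nat_lit 98381) (nat_lit 31) (.e (nat_lit 466954) (nat_lit 11) (.e (nat_lit 335987) (nat_lit 1) (.e (nat_lit 57691) (nat_lit 156) (.e (nat_lit 163907) (nat_lit 12) (.e (nat_lit 426438) (nat_lit 18) .nil)))))) (.g (nat_lit 1) (.e (nat_lit 276135) (nat_lit 0) .nil) .nil))) 
(.lf (nat_lit 544625) (.g (nat_lit 1560) (.e (nat_lit 106536) (nat_lit 11) (.e (nat_lit 16462) (nat_lit 13) (.e (nat_lit 483393) (nat_lit 23) (.e (nat_lit 335988) (nat_lit 1) (.e (nat_lit 57854) (nat_lit 252) .nil))))) (.g (nat_lit 0) (.e (nat_lit 277259) (nat_lit 0) .nil) .nil))))) (.nd (nat_lit 8) (.nd (nat_lit 9) 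
(.lf (nat_lit 543985) (.g (nat_lit 4408) (.e (nat_lit 98373) (nat_lit 29) (.e (nat_lit 450587) (nat_lit 10) (.e (nat_lit 573478) (nat_lit 12) (.e (nat_lit 57574) (nat_lit 55) (.e (nat_lit 778464) (nat_lit 11) (.e (nat_lit 24608) (nat_lit 3) .nil)))))) (.g (nat_lit 1) (.e (nat_lit 275964) (nat_lit 0) .nil) .nil))) 
(.lf (nat_lit 544497) (.g (nat_lit 1208) (.e (nat_lit 114432) (nat_lit 6) (.e (nat_lit 188453) (nat_lit 24) (.e (nat_lit 229663) (nat_lit 240) (.e (nat_lit 7936) (nat_lit 166) .nil)))) (.g (nat_lit 0) (.e (nat_lit 276951) (nat_lit 0) .nil) .nil)))) (.nd (nat_lit 9) 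
(.lf (nat_lit 544241) (.g (nat_lit 1997) (.e (nat_lit 98384) (nat_lit 32) (.e (nat_lit 475177) (nat_lit 24) (.e (nat_lit 516181) (nat_lit 15) (.e (nat_lit 475177) (nat_lit 24) (.e (nat_lit 516148) (nat_lit 9) (.e (nat_lit 426438) (nat_lit 18) .nil)))))) (.g (nat_lit 1) (.e (nat_lit 276280) (nat_lit 0) .nil) .nil))) 
(.lf (nat_lit 544753) (.g (nat_lit 1862) (.e (nat_lit 114695) (nat_lit 11) (.e (nat_lit 426262) (nat_lit 9) (.e (nat_lit 426554) (nat_lit 32) (.e (nat_lit 376860) (nat_lit 21) (.e (nat_lit 57851) (nat_lit 252) (.e (nat_lit 57389) (nat_lit 5) .nil)))))) (.g (nat_lit 1) (.e (nat_lit 277707) (nat_lit 0) .nil) .nil))))))))) 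
(.nd (nat_lit 4) (.nd (nat_lit 5) (.nd (nat_lit 6) (.nd (nat_lit 7) (.nd (nat_lit 8) 
(.nd (nat_lit 9) 
(.lf (nat_lit 543753) (.g (nat_lit 2382) (.e (nat_lit 98367) (nat_lit 27) (.e (nat_lit 434248) (nat_lit 28) (.e (nat_lit 573487) (nat_lit 14) (.e (nat_lit 73746) (nat_lit 3) (.e (nat_lit 516120) (nat_lit 1) .nil))))) (.g (nat_lit 0) (.e (nat_lit 275592) (nat_lit 0) .nil) .nil))) 
(.lf (nat_lit 544265) (.g (nat_lit 1910) (.e (nat_lit 98384) (nat_lit 32) (.e (nat_lit 475179) (nat_lit 24) (.e (nat_lit 516179) (nat_lit 15) (.e (nat_lit 475177) (nat_lit 24) (.e (nat_lit 516144) (nat_lit 9) .nil))))) (.g (nat_lit 0) (.e (nat_lit 276304) (nat_lit 0) .nil) .nil)))) (.nd (nat_lit 9) 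
(.lf (nat_lit 544009) (.g (nat_lit 5904) (.e (nat_lit 98373) (nat_lit 29) (.e (nat_lit 450588) (nat_lit 10) (.e (nat_lit 573473) (nat_lit 12) (.e (nat_lit 57353) (nat_lit 0) (.e (nat_lit 7265) (nat_lit 384) (.e (nat_lit 57406) (nat_lit 12) (.e (nat_lit 336018) (nat_lit 3) .nil))))))) (.g (nat_lit 1) (.e (nat_lit 275988) (nat_lit 0) .nil) .nil))) 
(.lf (nat_lit 544521) (.g (nat_lit 1197) (.e (nat_lit 114432) (nat_lit 6) (.e (nat_lit 188453) (nat_lit 24) (.e (nat_lit 229681) (nat_lit 244) (.e (nat_lit 163931) (nat_lit 17) (.e (nat_lit 474880) (nat_lit 4) .nil))))) (.g (nat_lit 0) (.e (nat_lit 276975) (nat_lit 0) .nil) .nil))))) (.nd (nat_lit 8) (.nd (nat_lit 9) 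
(.lf (nat_lit 543881) (.g (nat_lit 3938) (.e (nat_lit 98371) (nat_lit 28) (.e (nat_lit 442427) (nat_lit 23) (.e (nat_lit 204846) (nat_lit 24) (.e (nat_lit 319530) (nat_lit 16) (.e (nat_lit 286735) (nat_lit 3) .nil))))) (.g (nat_lit 1) (.e (nat_lit 275841) (nat_lit 0) .nil) .nil))) 
(.lf (nat_lit 544393) (.g (nat_lit 1663) (.e (nat_lit 98386) (nat_lit 32) (.e (nat_lit 475199) (nat_lit 40) (.e (nat_lit 704590) (nat_lit 3) (.e (nat_lit 163975) (nat_lit 30) .nil)))) (.g (nat_lit 0) (.e (nat_lit 276445) (nat_lit 0) .nil) .nil)))) (.nd (nat_lit 9) 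
(.lf (nat_lit 544137) (.g (nat_lit 3002) (.e (nat_lit 98381) (nat_lit 31) (.e (nat_lit 466954) (nat_lit 11) (.e (nat_lit 335995) (nat_lit 1) (.e (nat_lit 57691) (nat_lit 156) (.e (nat_lit 163907) (nat_lit 12) (.e (nat_lit 426436) (nat_lit 18) .nil)))))) (.g (nat_lit 1) (.e (nat_lit 276159) (nat_lit 0) .nil) .nil))) 
(.lf (nat_lit 544649) (.g (nat_lit 1340) (.e (nat_lit 122624) (nat_lit 4) (.e (nat_lit 213030) (nat_lit 11) (.e (nat_lit 24660) (nat_lit 13) (.e (nat_lit 393274) (nat_lit 23) (.e (nat_lit 433920) (nat_lit 20) .nil))))) (.g (nat_lit 0) (.e (nat_lit 277455) (nat_lit 0) .nil) .nil)))))) (.nd (nat_lit 7) (.nd (nat_lit 8) (.nd (nat_lit 9) 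
(.lf (nat_lit 543817) (.g (nat_lit 3319) (.e (nat_lit 98368) (nat_lit 27) (.e (nat_lit 434247) (nat_lit 28) (.e (nat_lit 573489) (nat_lit 14) (.e (nat_lit 73755) (nat_lit 8) (.e (nat_lit 557090) (nat_lit 12) (.e (nat_lit 163840) (nat_lit 0) (.e (nat_lit 5939) (nat_lit 322) (.e (nat_lit 57379) (nat_lit 3) .nil)))))))) (.g (nat_lit 1) (.e (nat_lit 275715) (nat_lit 0) .nil) .nil))) 
(.lf (nat_lit 544329) (.g (nat_lit 1843) (.e (nat_lit 98386) (nat_lit 32) (.e (nat_lit 475177) (nat_lit 24) (.e (nat_lit 516150) (nat_lit 9) (.e (nat_lit 426427) (nat_lit 17) .nil)))) (.g (nat_lit 0) (.e (nat_lit 276374) (nat_lit 0) .nil) .nil)))) (.nd (nat_lit 9) 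
(.lf (nat_lit 544073) (.g (nat_lit 391) (.e (nat_lit 98380) (nat_lit 31) (.e (nat_lit 466954) (nat_lit 11) (.e (nat_lit 335986) (nat_lit 1) .nil))) (.g (nat_lit 0) (.e (nat_lit 276091) (nat_lit 0) .nil) .nil))) 
(.lf (nat_lit 544585) (.g (nat_lit 406) (.e (nat_lit 106534) (nat_lit 11) (.e (nat_lit 16412) (nat_lit 2) (.e (nat_lit 196672) (nat_lit 15) .nil))) (.g (nat_lit 0) (.e (nat_lit 277181) (nat_lit 0) .nil) .nil))))) (.nd (nat_lit 8) (.nd (nat_lit 9) 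
(.lf (nat_lit 543945) (.g (nat_lit 907) (.e (nat_lit 98373) (nat_lit 29) (.e (nat_lit 450563) (nat_lit 0) (.e (nat_lit 3953) (nat_lit 239) (.e (nat_lit 7936) (nat_lit 165) .nil)))) (.g (nat_lit 0) (.e (nat_lit 275924) (nat_lit 0) .nil) .nil))) 
(.lf (nat_lit 544457) (.g (nat_lit 2981) (.e (nat_lit 114432) (nat_lit 3) (.e (nat_lit 163979) (nat_lit 30) (.e (nat_lit 573493) (nat_lit 15) (.e (nat_lit 81954) (nat_lit 23) (.e (nat_lit 98358) (nat_lit 26) .nil))))) (.g (nat_lit 0) (.e (nat_lit 276755) (nat_lit 0) .nil) .nil)))) (.nd (nat_lit 9) 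
(.lf (nat_lit 544201) (.g (nat_lit 2741) (.e (nat_lit 98384) (nat_lit 32) (.e (nat_lit 475177) (nat_lit 24) (.e (nat_lit 516119) (nat_lit 1) (.e (nat_lit 164325) (nat_lit 230) (.e (nat_lit 163875) (nat_lit 3) (.e (nat_lit 204837) (nat_lit 20) (.e (nat_lit 114719) (nat_lit 23) .nil))))))) (.g (nat_lit 1) (.e (nat_lit 276240) (nat_lit 0) .nil) .nil))) 
(.lf (nat_lit 544713) (.g (nat_lit 3758) (.e (nat_lit 114694) (nat_lit 11) (.e (nat_lit 426139) (nat_lit 3) (.e (nat_lit 204861) (nat_lit 26) (.e (nat_lit 336088) (nat_lit 9) (.e (nat_lit 336324) (nat_lit 18) (.e (nat_lit 204838) (nat_lit 20) .nil)))))) (.g (nat_lit 1) (.e (nat_lit 277584) (nat_lit 0) .nil) .nil))))))) (.nd (nat_lit 6) (.nd (nat_lit 7) (.nd (nat_lit 8) (.nd (nat_lit 9) 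
(.lf (nat_lit 543785) (.g (nat_lit 2010) (.e (nat_lit 98368) (nat_lit 27) (.e (nat_lit 434231) (nat_lit 23) (.e (nat_lit 532513) (nat_lit 3) (.e (nat_lit 114718) (nat_lit 23) .nil)))) (.g (nat_lit 0) (.e (nat_lit 275634) (nat_lit 0) .nil) .nil))) 
(.lf (nat_lit 544297) (.g (nat_lit 2168) (.e (nat_lit 98385) (nat_lit 32) (.e (nat_lit 475177) (nat_lit 24) (.e (nat_lit 516180) (nat_lit 15) (.e (nat_lit 475177) (nat_lit 24) (.e (nat_lit 516146) (nat_lit 9) (.e (nat_lit 426438) (nat_lit 18) .nil)))))) (.g (nat_lit 1) (.e (nat_lit 276339) (nat_lit 0) .nil) .nil)))) (.nd (nat_lit 9) 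
(.lf (nat_lit 544041) (.g (nat_lit 2638) (.e (nat_lit 98377) (nat_lit 30) (.e (nat_lit 458789) (nat_lit 23) (.e (nat_lit 532499) (nat_lit 1) (.e (nat_lit 57688) (nat_lit 156) (.e (nat_lit 163873) (nat_lit 3) .nil))))) (.g (nat_lit 0) (.e (nat_lit 276045) (nat_lit 0) .nil) .nil))) 
(.lf (nat_lit 544553) (.g (nat_lit 1391) (.e (nat_lit 114432) (nat_lit 6) (.e (nat_lit 188455) (nat_lit 24) (.e (nat_lit 229680) (nat_lit 244) (.e (nat_lit 163932) (nat_lit 17) (.e (nat_lit 474880) (nat_lit 4) .nil))))) (.g (nat_lit 0) (.e (nat_lit 277015) (nat_lit 0) .nil) .nil))))) (.nd (nat_lit 8) (.nd (nat_lit 9) 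
(.lf (nat_lit 543913) (.g (nat_lit 2354) (.e (nat_lit 98372) (nat_lit 29) (.e (nat_lit 450586) (nat_lit 10) (.e (nat_lit 573457) (nat_lit 9) (.e (nat_lit 430) (nat_lit 32) (.e (nat_lit 426343) (nat_lit 14) (.e (nat_lit 491538) (nat_lit 3) .nil)))))) (.g (nat_lit 1) (.e (nat_lit 275886) (nat_lit 0) .nil) .nil))) 
(.lf (nat_lit 544425) (.g (nat_lit 3750) (.e (nat_lit 98389) (nat_lit 33) (.e (nat_lit 491556) (nat_lit 9) (.e (nat_lit 336305) (nat_lit 15) (.e (nat_lit 3308) (nat_lit 202) (.e (nat_lit 573493) (nat_lit 15) (.e (nat_lit 81956) (nat_lit 23) .nil)))))) (.g (nat_lit 1) (.e (nat_lit 276482) (nat_lit 0) .nil) .nil)))) (.nd (nat_lit 9) 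
(.lf (nat_lit 544169) (.g (nat_lit 743) (.e (nat_lit 98382) (nat_lit 31) (.e (nat_lit 466977) (nat_lit 22) (.e (nat_lit 196623) (nat_lit 9) .nil))) (.g (nat_lit 0) (.e (nat_lit 276194) (nat_lit 0) .nil) .nil))) 
(.lf (nat_lit 544681) (.g (nat_lit 1203) (.e (nat_lit 122624) (nat_lit 5) (.e (nat_lit 221194) (nat_lit 11) (.e (nat_lit 336087) (nat_lit 9) (.e (nat_lit 336426) (nat_lit 29) (.e (nat_lit 450304) (nat_lit 5) .nil))))) (.g (nat_lit 0) (.e (nat_lit 277519) (nat_lit 0) .nil) .nil)))))) (.nd (nat_lit 7) (.nd (nat_lit 8) (.nd (nat_lit 9) 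
(.lf (nat_lit 543849) (.g (nat_lit 4484) (.e (nat_lit 98368) (nat_lit 27) (.e (nat_lit 434248) (nat_lit 28) (.e (nat_lit 573489) (nat_lit 14) (.e (nat_lit 73755) (nat_lit 8) (.e (nat_lit 557067) (nat_lit 9) (.e (nat_lit 2598) (nat_lit 163) (.e (nat_lit 164398) (nat_lit 256) (.e (nat_lit 57378) (nat_lit 3) .nil)))))))) (.g (nat_lit 1) (.e (nat_lit 275783) (nat_lit 0) .nil) .nil))) 
(.lf (nat_lit 544361) (.g (nat_lit 3684) (.e (nat_lit 98386) (nat_lit 32) (.e (nat_lit 475179) (nat_lit 24) (.e (nat_lit 516117) (nat_lit 1) (.e (nat_lit 164330) (nat_lit 230) (.e (nat_lit 163874) (nat_lit 3) .nil))))) (.g (nat_lit 0) (.e (nat_lit 276406) (nat_lit 0) .nil) .nil)))) (.nd (nat_lit 9) 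
(.lf (nat_lit 544105) (.g (nat_lit 389) (.e (nat_lit 98381) (nat_lit 31) (.e (nat_lit 466954) (nat_lit 11) (.e (nat_lit 335986) (nat_lit 1) .nil))) (.g (nat_lit 0) (.e (nat_lit 276127) (nat_lit 0) .nil) .nil))) 
(.lf (nat_lit 544617) (.g (nat_lit 1510) (.e (nat_lit 106536) (nat_lit 11) (.e (nat_lit 16411) (nat_lit 2) (.e (nat_lit 196681) (nat_lit 17) (.e (nat_lit 131122) (nat_lit 12) .nil)))) (.g (nat_lit 0) (.e (nat_lit 277245) (nat_lit 0) .nil) .nil))))) (.nd (nat_lit 8) (.nd (nat_lit 9) 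
(.lf (nat_lit 543977) (.g (nat_lit 4662) (.e (nat_lit 98373) (nat_lit 29) (.e (nat_lit 450587) (nat_lit 10) (.e (nat_lit 573477) (nat_lit 12) (.e (nat_lit 57574) (nat_lit 55) (.e (nat_lit 778464) (nat_lit 11) (.e (nat_lit 24608) (nat_lit 3) .nil)))))) (.g (nat_lit 1) (.e (nat_lit 275956) (nat_lit 0) .nil) .nil))) 
(.lf (nat_lit 544489) (.g (nat_lit 1391) (.e (nat_lit 114432) (nat_lit 6) (.e (nat_lit 188446) (nat_lit 21) (.e (nat_lit 164348) (nat_lit 240) (.e (nat_lit 2648) (nat_lit 166) (.e (nat_lit 196352) (nat_lit 4) .nil))))) (.g (nat_lit 0) (.e (nat_lit 276942) (nat_lit 0) .nil) .nil)))) (.nd (nat_lit 9) 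
(.lf (nat_lit 544233) (.g (nat_lit 2803) (.e (nat_lit 98384) (nat_lit 32) (.e (nat_lit 475177) (nat_lit 24) (.e (nat_lit 516180) (nat_lit 15) (.e (nat_lit 475177) (nat_lit 24) (.e (nat_lit 516148) (nat_lit 9) (.e (nat_lit 426436) (nat_lit 18) .nil)))))) (.g (nat_lit 1) (.e (nat_lit 276272) (nat_lit 0) .nil) .nil))) 
(.lf (nat_lit 544745) (.g (nat_lit 2202) (.e (nat_lit 114695) (nat_lit 11) (.e (nat_lit 426262) (nat_lit 9) (.e (nat_lit 426541) (nat_lit 29) (.e (nat_lit 352309) (nat_lit 21) (.e (nat_lit 57846) (nat_lit 252) (.e (nat_lit 57390) (nat_lit 5) .nil)))))) (.g (nat_lit 1) (.e (nat_lit 277699) (nat_lit 0) .nil) .nil)))))))) 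
(.nd (nat_lit 5) (.nd (nat_lit 6) (.nd (nat_lit 7) (.nd (nat_lit 8) (.nd (nat_lit 9) 
(.lf (nat_lit 543769) (.g (nat_lit 2670) (.e (nat_lit 98367) (nat_lit 27) (.e (nat_lit 434248) (nat_lit 28) (.e (nat_lit 573489) (nat_lit 14) (.e (nat_lit 73755) (nat_lit 8) (.e (nat_lit 557090) (nat_lit 12) .nil))))) (.g (nat_lit 0) (.e (nat_lit 275608) (nat_lit 0) .nil) .nil))) 
(.lf (nat_lit 544281) (.g (nat_lit 1245) (.e (nat_lit 98385) (nat_lit 32) (.e (nat_lit 475177) (nat_lit 24) (.e (nat_lit 516146) (nat_lit 9) (.e (nat_lit 426438) (nat_lit 18) .nil)))) (.g (nat_lit 0) (.e (nat_lit 276320) (nat_lit 0) .nil) .nil)))) (.nd (nat_lit 9) 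
(.lf (nat_lit 544025) (.g (nat_lit 558) (.e (nat_lit 98373) (nat_lit 29) (.e (nat_lit 450588) (nat_lit 10) (.e (nat_lit 581376) (nat_lit 21) .nil))) (.g (nat_lit 0) (.e (nat_lit 276004) (nat_lit 0) .nil) .nil))) 
(.lf (nat_lit 544537) (.g (nat_lit 1065) (.e (nat_lit 114432) (nat_lit 6) (.e (nat_lit 188455) (nat_lit 24) (.e (nat_lit 229666) (nat_lit 240) (.e (nat_lit 2653) (nat_lit 166) (.e (nat_lit 196352) (nat_lit 4) .nil))))) (.g (nat_lit 0) (.e (nat_lit 276999) (nat_lit 0) .nil) .nil))))) (.nd (nat_lit 8) (.nd (nat_lit 9) 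
(.lf (nat_lit 543897) (.g (nat_lit 2547) (.e (nat_lit 98372) (nat_lit 29) (.e (nat_lit 450579) (nat_lit 5) (.e (nat_lit 532534) (nat_lit 9) (.e (nat_lit 335999) (nat_lit 1) (.e (nat_lit 57927) (nat_lit 282) (.e (nat_lit 171776) (nat_lit 64) .nil)))))) (.g (nat_lit 1) (.e (nat_lit 275870) (nat_lit 0) .nil) .nil))) 
(.lf (nat_lit 544409) (.g (nat_lit 2108) (.e (nat_lit 98388) (nat_lit 33) (.e (nat_lit 491546) (nat_lit 9) (.e (nat_lit 336013) (nat_lit 2) (.e (nat_lit 90134) (nat_lit 9) .nil)))) (.g (nat_lit 0) (.e (nat_lit 276464) (nat_lit 0) .nil) .nil)))) (.nd (nat_lit 9) 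
(.lf (nat_lit 544153) (.g (nat_lit 2843) (.e (nat_lit 98381) (nat_lit 31) (.e (nat_lit 466978) (nat_lit 23) (.e (nat_lit 204846) (nat_lit 24) (.e (nat_lit 319534) (nat_lit 16) (.e (nat_lit 286734) (nat_lit 3) .nil))))) (.g (nat_lit 1) (.e (nat_lit 276177) (nat_lit 0) .nil) .nil))) 
(.lf (nat_lit 544665) (.g (nat_lit 1225) (.e (nat_lit 122624) (nat_lit 4) (.e (nat_lit 213032) (nat_lit 11) (.e (nat_lit 24655) (nat_lit 13) (.e (nat_lit 393269) (nat_lit 23) .nil)))) (.g (nat_lit 0) (.e (nat_lit 277493) (nat_lit 0) .nil) .nil)))))) (.nd (nat_lit 7) (.nd (nat_lit 8) (.nd (nat_lit 9) 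
(.lf (nat_lit 543833) (.g (nat_lit 1524) (.e (nat_lit 98368) (nat_lit 27) (.e (nat_lit 434248) (nat_lit 28) (.e (nat_lit 573482) (nat_lit 13) (.e (nat_lit 73472) (nat_lit 18) .nil)))) (.g (nat_lit 0) (.e (nat_lit 275749) (nat_lit 0) .nil) .nil))) 
(.lf (nat_lit 544345) (.g (nat_lit 2899) (.e (nat_lit 98386) (nat_lit 32) (.e (nat_lit 475177) (nat_lit 24) (.e (nat_lit 516180) (nat_lit 15) (.e (nat_lit 475177) (nat_lit 24) (.e (nat_lit 516148) (nat_lit 9) (.e (nat_lit 426436) (nat_lit 18) .nil)))))) (.g (nat_lit 1) (.e (nat_lit 276390) (nat_lit 0) .nil) .nil)))) (.nd (nat_lit 9) 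
(.lf (nat_lit 544089) (.g (nat_lit 3207) (.e (nat_lit 98380) (nat_lit 31) (.e (nat_lit 466954) (nat_lit 11) (.e (nat_lit 335995) (nat_lit 1) (.e (nat_lit 57688) (nat_lit 156) (.e (nat_lit 163907) (nat_lit 12) (.e (nat_lit 426436) (nat_lit 18) .nil)))))) (.g (nat_lit 1) (.e (nat_lit 276107) (nat_lit 0) .nil) .nil))) 
(.lf (nat_lit 544601) (.g (nat_lit 1052) (.e (nat_lit 106534) (nat_lit 11) (.e (nat_lit 16416) (nat_lit 3) (.e (nat_lit 204854) (nat_lit 26) .nil))) (.g (nat_lit 0) (.e (nat_lit 277203) (nat_lit 0) .nil) .nil))))) (.nd (nat_lit 8) (.nd (nat_lit 9) 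
(.lf (nat_lit 543961) (.g (nat_lit 3030) (.e (nat_lit 98373) (nat_lit 29) (.e (nat_lit 450587) (nat_lit 10) (.e (nat_lit 573473) (nat_lit 12) (.e (nat_lit 57354) (nat_lit 0) (.e (nat_lit 7270) (nat_lit 385) (.e (nat_lit 122906) (nat_lit 12) (.e (nat_lit 343808) (nat_lit 3) .nil))))))) (.g (nat_lit 1) (.e (nat_lit 275940) (nat_lit 0) .nil) .nil))) 
(.lf (nat_lit 544473) (.g (nat_lit 339) (.e (nat_lit 114432) (nat_lit 6) (.e (nat_lit 188417) (nat_lit 0) (.e (nat_lit 2146) (nat_lit 142) (.e (nat_lit 704597) (nat_lit 6) (.e (nat_lit 196352) (nat_lit 4) .nil))))) (.g (nat_lit 0) (.e (nat_lit 276912) (nat_lit 0) .nil) .nil)))) (.nd (nat_lit 9) 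
(.lf (nat_lit 544217) (.g (nat_lit 1991) (.e (nat_lit 98384) (nat_lit 32) (.e (nat_lit 475177) (nat_lit 24) (.e (nat_lit 516150) (nat_lit 9) (.e (nat_lit 426428) (nat_lit 17) (.e (nat_lit 90134) (nat_lit 9) (.e (nat_lit 2862) (nat_lit 184) (.e (nat_lit 426434) (nat_lit 18) .nil))))))) (.g (nat_lit 1) (.e (nat_lit 276256) (nat_lit 0) .nil) .nil))) 
(.lf (nat_lit 544729) (.g (nat_lit 2234) (.e (nat_lit 114694) (nat_lit 11) (.e (nat_lit 426200) (nat_lit 9) (.e (nat_lit 426555) (nat_lit 32) (.e (nat_lit 376860) (nat_lit 21) (.e (nat_lit 57854) (nat_lit 252) .nil))))) (.g (nat_lit 0) (.e (nat_lit 277662) (nat_lit 0) .nil) .nil))))))) (.nd (nat_lit 6) (.nd (nat_lit 7) (.nd (nat_lit 8) (.nd (nat_lit 9) 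
(.lf (nat_lit 543801) (.g (nat_lit 1678) (.e (nat_lit 98368) (nat_lit 27) (.e (nat_lit 434247) (nat_lit 28) (.e (nat_lit 573484) (nat_lit 13) (.e (nat_lit 65569) (nat_lit 3) .nil)))) (.g (nat_lit 0) (.e (nat_lit 275678) (nat_lit 0) .nil) .nil))) 
(.lf (nat_lit 544313) (.g (nat_lit 4482) (.e (nat_lit 98385) (nat_lit 32) (.e (nat_lit 475195) (nat_lit 40) (.e (nat_lit 704590) (nat_lit 3) (.e (nat_lit 163975) (nat_lit 30) (.e (nat_lit 573492) (nat_lit 15) (.e (nat_lit 81956) (nat_lit 23) .nil)))))) (.g (nat_lit 1) (.e (nat_lit 276357) (nat_lit 0) .nil) .nil)))) (.nd (nat_lit 9) 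
(.lf (nat_lit 544057) (.g (nat_lit 825) (.e (nat_lit 98379) (nat_lit 31) (.e (nat_lit 466954) (nat_lit 11) (.e (nat_lit 336387) (nat_lit 27) .nil))) (.g (nat_lit 0) (.e (nat_lit 276069) (nat_lit 0) .nil) .nil))) 
(.lf (nat_lit 544569) (.g (nat_lit 2670) (.e (nat_lit 106517) (nat_lit 9) (.e (nat_lit 1255) (nat_lit 92) (.e (nat_lit 98333) (nat_lit 18) (.e (nat_lit 164325) (nat_lit 230) (.e (nat_lit 163871) (nat_lit 2) .nil))))) (.g (nat_lit 0) (.e (nat_lit 277097) (nat_lit 0) .nil) .nil))))) (.nd (nat_lit 8) (.nd (nat_lit 9) 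
(.lf (nat_lit 543929) (.g (nat_lit 4503) (.e (nat_lit 98372) (nat_lit 29) (.e (nat_lit 450586) (nat_lit 10) (.e (nat_lit 573477) (nat_lit 12) (.e (nat_lit 57575) (nat_lit 55) (.e (nat_lit 778465) (nat_lit 11) (.e (nat_lit 24608) (nat_lit 3) .nil)))))) (.g (nat_lit 1) (.e (nat_lit 275905) (nat_lit 0) .nil) .nil))) 
(.lf (nat_lit 544441) (.g (nat_lit 3319) (.e (nat_lit 114432) (nat_lit 3) (.e (nat_lit 163977) (nat_lit 30) (.e (nat_lit 573493) (nat_lit 15) (.e (nat_lit 81954) (nat_lit 23) (.e (nat_lit 98359) (nat_lit 26) .nil))))) (.g (nat_lit 0) (.e (nat_lit 276727) (nat_lit 0) .nil) .nil)))) (.nd (nat_lit 9) 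
(.lf (nat_lit 544185) (.g (nat_lit 2930) (.e (nat_lit 98383) (nat_lit 32) (.e (nat_lit 475179) (nat_lit 24) (.e (nat_lit 516120) (nat_lit 1) (.e (nat_lit 164330) (nat_lit 230) (.e (nat_lit 163874) (nat_lit 3) .nil))))) (.g (nat_lit 0) (.e (nat_lit 276221) (nat_lit 0) .nil) .nil))) 
(.lf (nat_lit 544697) (.g (nat_lit 1879) (.e (nat_lit 114694) (nat_lit 11) (.e (nat_lit 426123) (nat_lit 2) (.e (nat_lit 196681) (nat_lit 17) (.e (nat_lit 131109) (nat_lit 9) (.e (nat_lit 336324) (nat_lit 18) .nil))))) (.g (nat_lit 0) (.e (nat_lit 277552) (nat_lit 0) .nil) .nil)))))) (.nd (nat_lit 7) (.nd (nat_lit 8) (.nd (nat_lit 9) 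
(.lf (nat_lit 543865) (.g (nat_lit 1657) (.e (nat_lit 98369) (nat_lit 28) (.e (nat_lit 442390) (nat_lit 11) (.e (nat_lit 335986) (nat_lit 1) (.e (nat_lit 57688) (nat_lit 156) (.e (nat_lit 163901) (nat_lit 12) (.e (nat_lit 426438) (nat_lit 18) .nil)))))) (.g (nat_lit 1) (.e (nat_lit 275818) (nat_lit 0) .nil) .nil))) 
(.lf (nat_lit 544377) (.g (nat_lit 1960) (.e (nat_lit 98386) (nat_lit 32) (.e (nat_lit 475179) (nat_lit 24) (.e (nat_lit 516179) (nat_lit 15) (.e (nat_lit 475177) (nat_lit 24) (.e (nat_lit 516144) (nat_lit 9) (.e (nat_lit 426436) (nat_lit 18) .nil)))))) (.g (nat_lit 1) (.e (nat_lit 276423) (nat_lit 0) .nil) .nil)))) (.nd (nat_lit 9) 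
(.lf (nat_lit 544121) (.g (nat_lit 2395) (.e (nat_lit 98381) (nat_lit 31) (.e (nat_lit 466954) (nat_lit 11) (.e (nat_lit 335993) (nat_lit 1) (.e (nat_lit 57691) (nat_lit 156) (.e (nat_lit 163907) (nat_lit 12) (.e (nat_lit 426438) (nat_lit 18) .nil)))))) (.g (nat_lit 1) (.e (nat_lit 276143) (nat_lit 0) .nil) .nil))) 
(.lf (nat_lit 544633) (.g (nat_lit 519) (.e (nat_lit 122624) (nat_lit 3) (.e (nat_lit 204811) (nat_lit 9) (.e (nat_lit 426260) (nat_lit 9) (.e (nat_lit 426565) (nat_lit 34) (.e (nat_lit 401152) (nat_lit 3) .nil))))) (.g (nat_lit 0) (.e (nat_lit 277412) (nat_lit 0) .nil) .nil))))) (.nd (nat_lit 8) (.nd (nat_lit 9) 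
(.lf (nat_lit 543993) (.g (nat_lit 3502) (.e (nat_lit 98373) (nat_lit 29) (.e (nat_lit 450588) (nat_lit 10) (.e (nat_lit 573450) (nat_lit 9) (.e (nat_lit 375) (nat_lit 32) (.e (nat_lit 426338) (nat_lit 14) (.e (nat_lit 491540) (nat_lit 3) .nil)))))) (.g (nat_lit 1) (.e (nat_lit 275972) (nat_lit 0) .nil) .nil))) 
(.lf (nat_lit 544505) (.g (nat_lit 746) (.e (nat_lit 114432) (nat_lit 6) (.e (nat_lit 188453) (nat_lit 24) (.e (nat_lit 229666) (nat_lit 240) (.e (nat_lit 7936) (nat_lit 166) .nil)))) (.g (nat_lit 0) (.e (nat_lit 276959) (nat_lit 0) .nil) .nil)))) (.nd (nat_lit 9) 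
(.lf (nat_lit 544249) (.g (nat_lit 3321) (.e (nat_lit 98384) (nat_lit 32) (.e (nat_lit 475179) (nat_lit 24) (.e (nat_lit 516117) (nat_lit 1) (.e (nat_lit 164330) (nat_lit 230) (.e (nat_lit 163850) (nat_lit 0) .nil))))) (.g (nat_lit 0) (.e (nat_lit 276288) (nat_lit 0) .nil) .nil))) 
(.lf (nat_lit 544761) (.g (nat_lit 1710) (.e (nat_lit 114696) (nat_lit 11) (.e (nat_lit 426225) (nat_lit 9) (.e (nat_lit 426555) (nat_lit 32) (.e (nat_lit 376857) (nat_lit 21) (.e (nat_lit 57851) (nat_lit 252) .nil))))) (.g (nat_lit 0) (.e (nat_lit 277733) (nat_lit 0) .nil) .nil)))))))))) 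
(.nd (nat_lit 3) (.nd (nat_lit 4) (.nd (nat_lit 5) (.nd (nat_lit 6) (.nd (nat_lit 7) 
(.nd (nat_lit 8) (.nd (nat_lit 9) 
(.lf (nat_lit 543749) (.g (nat_lit 2377) (.e (nat_lit 98367) (nat_lit 27) (.e (nat_lit 434248) (nat_lit 28) (.e (nat_lit 573482) (nat_lit 13) (.e (nat_lit 65644) (nat_lit 22) (.e (nat_lit 245776) (nat_lit 4) (.e (nat_lit 179968) (nat_lit 18) .nil)))))) (.g (nat_lit 1) (.e (nat_lit 275588) (nat_lit 0) .nil) .nil))) 
(.lf (nat_lit 544261) (.g (nat_lit 3080) (.e (nat_lit 98384) (nat_lit 32) (.e (nat_lit 475179) (nat_lit 24) (.e (nat_lit 516120) (nat_lit 1) (.e (nat_lit 164330) (nat_lit 230) (.e (nat_lit 163873) (nat_lit 3) (.e (nat_lit 204837) (nat_lit 20) (.e (nat_lit 114719) (nat_lit 23) .nil))))))) (.g (nat_lit 1) (.e (nat_lit 276300) (nat_lit 0) .nil) .nil)))) (.nd (nat_lit 9) 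
(.lf (nat_lit 544005) (.g (nat_lit 3727) (.e (nat_lit 98373) (nat_lit 29) (.e (nat_lit 450588) (nat_lit 10) (.e (nat_lit 573473) (nat_lit 12) (.e (nat_lit 57348) (nat_lit 0) (.e (nat_lit 7261) (nat_lit 384) (.e (nat_lit 57406) (nat_lit 12) (.e (nat_lit 343808) (nat_lit 3) .nil))))))) (.g (nat_lit 1) (.e (nat_lit 275984) (nat_lit 0) .nil) .nil))) 
(.lf (nat_lit 544517) (.g (nat_lit 1175) (.e (nat_lit 114432) (nat_lit 6) (.e (nat_lit 188453) (nat_lit 24) (.e (nat_lit 229680) (nat_lit 244) (.e (nat_lit 163934) (nat_lit 17) (.e (nat_lit 474880) (nat_lit 4) .nil))))) (.g (nat_lit 0) (.e (nat_lit 276971) (nat_lit 0) .nil) .nil))))) (.nd (nat_lit 8) (.nd (nat_lit 9) 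
(.lf (nat_lit 543877) (.g (nat_lit 3606) (.e (nat_lit 98370) (nat_lit 28) (.e (nat_lit 442390) (nat_lit 11) (.e (nat_lit 335986) (nat_lit 1) (.e (nat_lit 57688) (nat_lit 156) (.e (nat_lit 163907) (nat_lit 12) (.e (nat_lit 426438) (nat_lit 18) .nil)))))) (.g (nat_lit 1) (.e (nat_lit 275832) (nat_lit 0) .nil) .nil))) 
(.lf (nat_lit 544389) (.g (nat_lit 3899) (.e (nat_lit 98386) (nat_lit 32) (.e (nat_lit 475199) (nat_lit 40) (.e (nat_lit 704589) (nat_lit 3) (.e (nat_lit 163978) (nat_lit 30) (.e (nat_lit 573491) (nat_lit 15) (.e (nat_lit 89856) (nat_lit 23) .nil)))))) (.g (nat_lit 1) (.e (nat_lit 276440) (nat_lit 0) .nil) .nil)))) (.nd (nat_lit 9) 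
(.lf (nat_lit 544133) (.g (nat_lit 3090) (.e (nat_lit 98381) (nat_lit 31) (.e (nat_lit 466954) (nat_lit 11) (.e (nat_lit 335995) (nat_lit 1) (.e (nat_lit 57688) (nat_lit 156) (.e (nat_lit 163903) (nat_lit 12) (.e (nat_lit 426438) (nat_lit 18) .nil)))))) (.g (nat_lit 1) (.e (nat_lit 276155) (nat_lit 0) .nil) .nil))) 
(.lf (nat_lit 544645) (.g (nat_lit 432) (.e (nat_lit 122624) (nat_lit 4) (.e (nat_lit 213030) (nat_lit 11) (.e (nat_lit 24659) (nat_lit 13) .nil))) (.g (nat_lit 0) (.e (nat_lit 277451) (nat_lit 0) .nil) .nil)))))) (.nd (nat_lit 7) (.nd (nat_lit 8) (.nd (nat_lit 9) 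
(.lf (nat_lit 543813) (.g (nat_lit 2883) (.e (nat_lit 98368) (nat_lit 27) (.e (nat_lit 434247) (nat_lit 28) (.e (nat_lit 573489) (nat_lit 14) (.e (nat_lit 73755) (nat_lit 8) (.e (nat_lit 557068) (nat_lit 9) (.e (nat_lit 2604) (nat_lit 163) (.e (nat_lit 164398) (nat_lit 256) (.e (nat_lit 57378) (nat_lit 3) .nil)))))))) (.g (nat_lit 1) (.e (nat_lit 275705) (nat_lit 0) .nil) .nil))) 
(.lf (nat_lit 544325) (.g (nat_lit 3271) (.e (nat_lit 98386) (nat_lit 32) (.e (nat_lit 475177) (nat_lit 24) (.e (nat_lit 516146) (nat_lit 9) (.e (nat_lit 426428) (nat_lit 17) (.e (nat_lit 90170) (nat_lit 13) (.e (nat_lit 179968) (nat_lit 18) .nil)))))) (.g (nat_lit 1) (.e (nat_lit 276370) (nat_lit 0) .nil) .nil)))) (.nd (nat_lit 9) 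
(.lf (nat_lit 544069) (.g (nat_lit 2451) (.e (nat_lit 98380) (nat_lit 31) (.e (nat_lit 466947) (nat_lit 0) (.e (nat_lit 1800) (nat_lit 119) (.e (nat_lit 516127) (nat_lit 2) (.e (nat_lit 213030) (nat_lit 11) (.e (nat_lit 24608) (nat_lit 3) .nil)))))) (.g (nat_lit 1) (.e (nat_lit 276086) (nat_lit 0) .nil) .nil))) 
(.lf (nat_lit 544581) (.g (nat_lit 2384) (.e (nat_lit 106523) (nat_lit 9) (.e (nat_lit 1252) (nat_lit 92) (.e (nat_lit 98334) (nat_lit 18) (.e (nat_lit 164398) (nat_lit 256) (.e (nat_lit 57378) (nat_lit 3) .nil))))) (.g (nat_lit 0) (.e (nat_lit 277152) (nat_lit 0) .nil) .nil))))) (.nd (nat_lit 8) (.nd (nat_lit 9) 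
(.lf (nat_lit 543941) (.g (nat_lit 5186) (.e (nat_lit 98372) (nat_lit 29) (.e (nat_lit 450588) (nat_lit 10) (.e (nat_lit 573475) (nat_lit 12) (.e (nat_lit 57574) (nat_lit 55) (.e (nat_lit 778465) (nat_lit 11) (.e (nat_lit 24607) (nat_lit 3) .nil)))))) (.g (nat_lit 1) (.e (nat_lit 275920) (nat_lit 0) .nil) .nil))) 
(.lf (nat_lit 544453) (.g (nat_lit 3010) (.e (nat_lit 114432) (nat_lit 3) (.e (nat_lit 163979) (nat_lit 30) (.e (nat_lit 573492) (nat_lit 15) (.e (nat_lit 81956) (nat_lit 23) (.e (nat_lit 98356) (nat_lit 26) .nil))))) (.g (nat_lit 0) (.e (nat_lit 276745) (nat_lit 0) .nil) .nil)))) (.nd (nat_lit 9) 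
(.lf (nat_lit 544197) (.g (nat_lit 2566) (.e (nat_lit 98384) (nat_lit 32) (.e (nat_lit 475177) (nat_lit 24) (.e (nat_lit 516118) (nat_lit 1) (.e (nat_lit 164327) (nat_lit 230) (.e (nat_lit 163875) (nat_lit 3) (.e (nat_lit 204836) (nat_lit 20) (.e (nat_lit 114717) (nat_lit 23) .nil))))))) (.g (nat_lit 1) (.e (nat_lit 276236) (nat_lit 0) .nil) .nil))) 
(.lf (nat_lit 544709) (.g (nat_lit 1273) (.e (nat_lit 114694) (nat_lit 11) (.e (nat_lit 426139) (nat_lit 3) (.e (nat_lit 204861) (nat_lit 26) (.e (nat_lit 336075) (nat_lit 9) .nil)))) (.g (nat_lit 0) (.e (nat_lit 277580) (nat_lit 0) .nil) .nil))))))) (.nd (nat_lit 6) (.nd (nat_lit 7) (.nd (nat_lit 8) (.nd (nat_lit 9) 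
(.lf (nat_lit 543781) (.g (nat_lit 3822) (.e (nat_lit 98367) (nat_lit 27) (.e (nat_lit 434271) (nat_lit 38) (.e (nat_lit 655375) (nat_lit 3) (.e (nat_lit 163978) (nat_lit 30) (.e (nat_lit 573491) (nat_lit 15) (.e (nat_lit 81955) (nat_lit 23) .nil)))))) (.g (nat_lit 1) (.e (nat_lit 275622) (nat_lit 0) .nil) .nil))) 
(.lf (nat_lit 544293) (.g (nat_lit 2536) (.e (nat_lit 98385) (nat_lit 32) (.e (nat_lit 475177) (nat_lit 24) (.e (nat_lit 516179) (nat_lit 15) (.e (nat_lit 475177) (nat_lit 24) (.e (nat_lit 516150) (nat_lit 9) (.e (nat_lit 426438) (nat_lit 18) .nil)))))) (.g (nat_lit 1) (.e (nat_lit 276335) (nat_lit 0) .nil) .nil)))) (.nd (nat_lit 9) 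
(.lf (nat_lit 544037) (.g (nat_lit 1423) (.e (nat_lit 98376) (nat_lit 30) (.e (nat_lit 458789) (nat_lit 23) (.e (nat_lit 532513) (nat_lit 3) (.e (nat_lit 114717) (nat_lit 23) .nil)))) (.g (nat_lit 0) (.e (nat_lit 276037) (nat_lit 0) .nil) .nil))) 
(.lf (nat_lit 544549) (.g (nat_lit 1468) (.e (nat_lit 114432) (nat_lit 6) (.e (nat_lit 188455) (nat_lit 24) (.e (nat_lit 229679) (nat_lit 244) (.e (nat_lit 163919) (nat_lit 14) (.e (nat_lit 450304) (nat_lit 4) .nil))))) (.g (nat_lit 0) (.e (nat_lit 277011) (nat_lit 0) .nil) .nil))))) (.nd (nat_lit 8) (.nd (nat_lit 9) 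
(.lf (nat_lit 543909) (.g (nat_lit 3831) (.e (nat_lit 98372) (nat_lit 29) (.e (nat_lit 450586) (nat_lit 10) (.e (nat_lit 573451) (nat_lit 9) (.e (nat_lit 359) (nat_lit 30) (.e (nat_lit 409603) (nat_lit 0) (.e (nat_lit 5293) (nat_lit 298) (.e (nat_lit 1250) (nat_lit 92) .nil))))))) (.g (nat_lit 1) (.e (nat_lit 275882) (nat_lit 0) .nil) .nil))) 
(.lf (nat_lit 544421) (.g (nat_lit 4596) (.e (nat_lit 98389) (nat_lit 33) (.e (nat_lit 491552) (nat_lit 9) (.e (nat_lit 336291) (nat_lit 15) (.e (nat_lit 3304) (nat_lit 202) (.e (nat_lit 573493) (nat_lit 15) (.e (nat_lit 81956) (nat_lit 23) .nil)))))) (.g (nat_lit 1) (.e (nat_lit 276478) (nat_lit 0) .nil) .nil)))) (.nd (nat_lit 9) 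
(.lf (nat_lit 544165) (.g (nat_lit 3243) (.e (nat_lit 98382) (nat_lit 31) (.e (nat_lit 466967) (nat_lit 20) (.e (nat_lit 3253) (nat_lit 197) (.e (nat_lit 532523) (nat_lit 7) (.e (nat_lit 319531) (nat_lit 16) (.e (nat_lit 286735) (nat_lit 3) .nil)))))) (.g (nat_lit 1) (.e (nat_lit 276190) (nat_lit 0) .nil) .nil))) 
(.lf (nat_lit 544677) (.g (nat_lit 701) (.e (nat_lit 122624) (nat_lit 5) (.e (nat_lit 221194) (nat_lit 11) (.e (nat_lit 336075) (nat_lit 9) .nil))) (.g (nat_lit 0) (.e (nat_lit 277515) (nat_lit 0) .nil) .nil)))))) (.nd (nat_lit 7) (.nd (nat_lit 8) (.nd (nat_lit 9) 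
(.lf (nat_lit 543845) (.g (nat_lit 3132) (.e (nat_lit 98368) (nat_lit 27) (.e (nat_lit 434248) (nat_lit 28) (.e (nat_lit 573489) (nat_lit 14) (.e (nat_lit 73754) (nat_lit 8) (.e (nat_lit 557093) (nat_lit 12) (.e (nat_lit 163856) (nat_lit 0) (.e (nat_lit 5949) (nat_lit 322) (.e (nat_lit 57378) (nat_lit 3) .nil)))))))) (.g (nat_lit 1) (.e (nat_lit 275778) (nat_lit 0) .nil) .nil))) 
(.lf (nat_lit 544357) (.g (nat_lit 868) (.e (nat_lit 98386) (nat_lit 32) (.e (nat_lit 475179) (nat_lit 24) (.e (nat_lit 516117) (nat_lit 1) .nil))) (.g (nat_lit 0) (.e (nat_lit 276402) (nat_lit 0) .nil) .nil)))) (.nd (nat_lit 9) 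
(.lf (nat_lit 544101) (.g (nat_lit 2471) (.e (nat_lit 98381) (nat_lit 31) (.e (nat_lit 466947) (nat_lit 0) (.e (nat_lit 1800) (nat_lit 119) (.e (nat_lit 516127) (nat_lit 2) (.e (nat_lit 213030) (nat_lit 11) (.e (nat_lit 24608) (nat_lit 3) .nil)))))) (.g (nat_lit 1) (.e (nat_lit 276123) (nat_lit 0) .nil) .nil))) 
(.lf (nat_lit 544613) (.g (nat_lit 2214) (.e (nat_lit 106535) (nat_lit 11) (.e (nat_lit 16433) (nat_lit 9) (.e (nat_lit 426555) (nat_lit 32) (.e (nat_lit 376857) (nat_lit 21) (.e (nat_lit 57848) (nat_lit 252) .nil))))) (.g (nat_lit 0) (.e (nat_lit 277235) (nat_lit 0) .nil) .nil))))) (.nd (nat_lit 8) (.nd (nat_lit 9) 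
(.lf (nat_lit 543973) (.g (nat_lit 4145) (.e (nat_lit 98373) (nat_lit 29) (.e (nat_lit 450587) (nat_lit 10) (.e (nat_lit 573475) (nat_lit 12) (.e (nat_lit 57574) (nat_lit 55) (.e (nat_lit 778466) (nat_lit 11) (.e (nat_lit 24606) (nat_lit 3) .nil)))))) (.g (nat_lit 1) (.e (nat_lit 275952) (nat_lit 0) .nil) .nil))) 
(.lf (nat_lit 544485) (.g (nat_lit 1443) (.e (nat_lit 114432) (nat_lit 6) (.e (nat_lit 188444) (nat_lit 21) (.e (nat_lit 164348) (nat_lit 240) (.e (nat_lit 2648) (nat_lit 166) (.e (nat_lit 196352) (nat_lit 4) .nil))))) (.g (nat_lit 0) (.e (nat_lit 276937) (nat_lit 0) .nil) .nil)))) (.nd (nat_lit 9) 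
(.lf (nat_lit 544229) (.g (nat_lit 3054) (.e (nat_lit 98384) (nat_lit 32) (.e (nat_lit 475177) (nat_lit 24) (.e (nat_lit 516179) (nat_lit 15) (.e (nat_lit 475177) (nat_lit 24) (.e (nat_lit 516150) (nat_lit 9) (.e (nat_lit 426434) (nat_lit 18) .nil)))))) (.g (nat_lit 1) (.e (nat_lit 276268) (nat_lit 0) .nil) .nil))) 
(.lf (nat_lit 544741) (.g (nat_lit 1951) (.e (nat_lit 114695) (nat_lit 11) (.e (nat_lit 426234) (nat_lit 9) (.e (nat_lit 426554) (nat_lit 32) (.e (nat_lit 376859) (nat_lit 21) (.e (nat_lit 57849) (nat_lit 252) (.e (nat_lit 57390) (nat_lit 5) .nil)))))) (.g (nat_lit 1) (.e (nat_lit 277695) (nat_lit 0) .nil) .nil)))))))) 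
(.nd (nat_lit 5) (.nd (nat_lit 6) (.nd (nat_lit 7) (.nd (nat_lit 8) (.nd (nat_lit 9) 
(.lf (nat_lit 543765) (.g (nat_lit 2576) (.e (nat_lit 98367) (nat_lit 27) (.e (nat_lit 434248) (nat_lit 28) (.e (nat_lit 573489) (nat_lit 14) (.e (nat_lit 73754) (nat_lit 8) (.e (nat_lit 557093) (nat_lit 12) .nil))))) (.g (nat_lit 0) (.e (nat_lit 275604) (nat_lit 0) .nil) .nil))) 
(.lf (nat_lit 544277) (.g (nat_lit 1139) (.e (nat_lit 98385) (nat_lit 32) (.e (nat_lit 475177) (nat_lit 24) (.e (nat_lit 516115) (nat_lit 1) (.e (nat_lit 164327) (nat_lit 230) .nil)))) (.g (nat_lit 0) (.e (nat_lit 276316) (nat_lit 0) .nil) .nil)))) (.nd (nat_lit 9) 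
(.lf (nat_lit 544021) (.g (nat_lit 5186) (.e (nat_lit 98373) (nat_lit 29) (.e (nat_lit 450588) (nat_lit 10) (.e (nat_lit 573475) (nat_lit 12) (.e (nat_lit 57574) (nat_lit 55) (.e (nat_lit 778465) (nat_lit 11) (.e (nat_lit 24608) (nat_lit 3) .nil)))))) (.g (nat_lit 1) (.e (nat_lit 276000) (nat_lit 0) .nil) .nil))) 
(.lf (nat_lit 544533) (.g (nat_lit 1655) (.e (nat_lit 114432) (nat_lit 6) (.e (nat_lit 188455) (nat_lit 24) (.e (nat_lit 229665) (nat_lit 240) (.e (nat_lit 2651) (nat_lit 166) (.e (nat_lit 196352) (nat_lit 4) .nil))))) (.g (nat_lit 0) (.e (nat_lit 276995) (nat_lit 0) .nil) .nil))))) (.nd (nat_lit 8) (.nd (nat_lit 9) 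
(.lf (nat_lit 543893) (.g (nat_lit 2459) (.e (nat_lit 98372) (nat_lit 29) (.e (nat_lit 450579) (nat_lit 5) (.e (nat_lit 532530) (nat_lit 9) (.e (nat_lit 343808) (nat_lit 1) (.e (nat_lit 57931) (nat_lit 282) (.e (nat_lit 171776) (nat_lit 64) .nil)))))) (.g (nat_lit 1) (.e (nat_lit 275866) (nat_lit 0) .nil) .nil))) 
(.lf (nat_lit 544405) (.g (nat_lit 661) (.e (nat_lit 98387) (nat_lit 33) (.e (nat_lit 491569) (nat_lit 13) (.e (nat_lit 401152) (nat_lit 10) .nil))) (.g (nat_lit 0) (.e (nat_lit 276459) (nat_lit 0) .nil) .nil)))) (.nd (nat_lit 9) 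
(.lf (nat_lit 544149) (.g (nat_lit 2663) (.e (nat_lit 98381) (nat_lit 31) (.e (nat_lit 466977) (nat_lit 22) (.e (nat_lit 196681) (nat_lit 17) (.e (nat_lit 131086) (nat_lit 1) (.e (nat_lit 57931) (nat_lit 282) (.e (nat_lit 171776) (nat_lit 64) .nil)))))) (.g (nat_lit 1) (.e (nat_lit 276173) (nat_lit 0) .nil) .nil))) 
(.lf (nat_lit 544661) (.g (nat_lit 1535) (.e (nat_lit 122624) (nat_lit 4) (.e (nat_lit 213032) (nat_lit 11) (.e (nat_lit 24630) (nat_lit 9) (.e (nat_lit 336443) (nat_lit 32) (.e (nat_lit 474880) (nat_lit 5) .nil))))) (.g (nat_lit 0) (.e (nat_lit 277484) (nat_lit 0) .nil) .nil)))))) (.nd (nat_lit 7) (.nd (nat_lit 8) (.nd (nat_lit 9) 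
(.lf (nat_lit 543829) (.g (nat_lit 1632) (.e (nat_lit 98368) (nat_lit 27) (.e (nat_lit 434248) (nat_lit 28) (.e (nat_lit 573482) (nat_lit 13) (.e (nat_lit 65571) (nat_lit 3) .nil)))) (.g (nat_lit 0) (.e (nat_lit 275742) (nat_lit 0) .nil) .nil))) 
(.lf (nat_lit 544341) (.g (nat_lit 3892) (.e (nat_lit 98386) (nat_lit 32) (.e (nat_lit 475177) (nat_lit 24) (.e (nat_lit 516179) (nat_lit 15) (.e (nat_lit 475177) (nat_lit 24) (.e (nat_lit 516146) (nat_lit 9) (.e (nat_lit 426438) (nat_lit 18) .nil)))))) (.g (nat_lit 1) (.e (nat_lit 276386) (nat_lit 0) .nil) .nil)))) (.nd (nat_lit 9) 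
(.lf (nat_lit 544085) (.g (nat_lit 1752) (.e (nat_lit 98380) (nat_lit 31) (.e (nat_lit 466954) (nat_lit 11) (.e (nat_lit 335995) (nat_lit 1) (.e (nat_lit 57654) (nat_lit 152) (.e (nat_lit 2633) (nat_lit 164) (.e (nat_lit 179968) (nat_lit 18) .nil)))))) (.g (nat_lit 1) (.e (nat_lit 276103) (nat_lit 0) .nil) .nil))) 
(.lf (nat_lit 544597) (.g (nat_lit 731) (.e (nat_lit 106534) (nat_lit 11) (.e (nat_lit 16413) (nat_lit 2) (.e (nat_lit 196674) (nat_lit 15) (.e (nat_lit 89856) (nat_lit 0) .nil)))) (.g (nat_lit 0) (.e (nat_lit 277197) (nat_lit 0) .nil) .nil))))) (.nd (nat_lit 8) (.nd (nat_lit 9) 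
(.lf (nat_lit 543957) (.g (nat_lit 5365) (.e (nat_lit 98373) (nat_lit 29) (.e (nat_lit 450587) (nat_lit 10) (.e (nat_lit 573461) (nat_lit 9) (.e (nat_lit 426) (nat_lit 32) (.e (nat_lit 426338) (nat_lit 14) (.e (nat_lit 491540) (nat_lit 3) .nil)))))) (.g (nat_lit 1) (.e (nat_lit 275936) (nat_lit 0) .nil) .nil))) 
(.lf (nat_lit 544469) (.g (nat_lit 975) (.e (nat_lit 114432) (nat_lit 4) (.e (nat_lit 172126) (nat_lit 14) (.e (nat_lit 491569) (nat_lit 13) (.e (nat_lit 401152) (nat_lit 23) .nil)))) (.g (nat_lit 0) (.e (nat_lit 276827) (nat_lit 0) .nil) .nil)))) (.nd (nat_lit 9) 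
(.lf (nat_lit 544213) (.g (nat_lit 1045) (.e (nat_lit 98384) (nat_lit 32) (.e (nat_lit 475177) (nat_lit 24) (.e (nat_lit 516150) (nat_lit 9) (.e (nat_lit 426428) (nat_lit 17) .nil)))) (.g (nat_lit 0) (.e (nat_lit 276252) (nat_lit 0) .nil) .nil))) 
(.lf (nat_lit 544725) (.g (nat_lit 3016) (.e (nat_lit 114694) (nat_lit 11) (.e (nat_lit 426200) (nat_lit 9) (.e (nat_lit 426555) (nat_lit 32) (.e (nat_lit 376859) (nat_lit 21) (.e (nat_lit 57849) (nat_lit 252) (.e (nat_lit 57390) (nat_lit 5) .nil)))))) (.g (nat_lit 1) (.e (nat_lit 277658) (nat_lit 0) .nil) .nil))))))) (.nd (nat_lit 6) (.nd (nat_lit 7) (.nd (nat_lit 8) (.nd (nat_lit 9) 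
(.lf (nat_lit 543797) (.g (nat_lit 1799) (.e (nat_lit 98368) (nat_lit 27) (.e (nat_lit 434245) (nat_lit 28) (.e (nat_lit 573488) (nat_lit 14) (.e (nat_lit 73755) (nat_lit 8) (.e (nat_lit 557091) (nat_lit 12) .nil))))) (.g (nat_lit 0) (.e (nat_lit 275668) (nat_lit 0) .nil) .nil))) 
(.lf (nat_lit 544309) (.g (nat_lit 3211) (.e (nat_lit 98385) (nat_lit 32) (.e (nat_lit 475179) (nat_lit 24) (.e (nat_lit 516120) (nat_lit 1) (.e (nat_lit 164330) (nat_lit 230) (.e (nat_lit 163874) (nat_lit 3) .nil))))) (.g (nat_lit 0) (.e (nat_lit 276353) (nat_lit 0) .nil) .nil)))) (.nd (nat_lit 9) 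
(.lf (nat_lit 544053) (.g (nat_lit 1277) (.e (nat_lit 98379) (nat_lit 31) (.e (nat_lit 466954) (nat_lit 11) (.e (nat_lit 335986) (nat_lit 1) (.e (nat_lit 57688) (nat_lit 156) .nil)))) (.g (nat_lit 0) (.e (nat_lit 276065) (nat_lit 0) .nil) .nil))) 
(.lf (nat_lit 544565) (.g (nat_lit 3056) (.e (nat_lit 106517) (nat_lit 9) (.e (nat_lit 1237) (nat_lit 91) (.e (nat_lit 90170) (nat_lit 13) (.e (nat_lit 172065) (nat_lit 3) (.e (nat_lit 204830) (nat_lit 18) .nil))))) (.g (nat_lit 0) (.e (nat_lit 277091) (nat_lit 0) .nil) .nil))))) (.nd (nat_lit 8) (.nd (nat_lit 9) 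
(.lf (nat_lit 543925) (.g (nat_lit 2524) (.e (nat_lit 98372) (nat_lit 29) (.e (nat_lit 450586) (nat_lit 10) (.e (nat_lit 573477) (nat_lit 12) (.e (nat_lit 57574) (nat_lit 55) (.e (nat_lit 778465) (nat_lit 11) (.e (nat_lit 32512) (nat_lit 3) .nil)))))) (.g (nat_lit 1) (.e (nat_lit 275898) (nat_lit 0) .nil) .nil))) 
(.lf (nat_lit 544437) (.g (nat_lit 1356) (.e (nat_lit 114432) (nat_lit 3) (.e (nat_lit 163977) (nat_lit 30) (.e (nat_lit 573491) (nat_lit 15) (.e (nat_lit 81955) (nat_lit 23) .nil)))) (.g (nat_lit 0) (.e (nat_lit 276719) (nat_lit 0) .nil) .nil)))) (.nd (nat_lit 9) 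
(.lf (nat_lit 544181) (.g (nat_lit 2867) (.e (nat_lit 98383) (nat_lit 32) (.e (nat_lit 475179) (nat_lit 24) (.e (nat_lit 516115) (nat_lit 1) (.e (nat_lit 164327) (nat_lit 230) (.e (nat_lit 163875) (nat_lit 3) .nil))))) (.g (nat_lit 0) (.e (nat_lit 276215) (nat_lit 0) .nil) .nil))) 
(.lf (nat_lit 544693) (.g (nat_lit 470) (.e (nat_lit 114694) (nat_lit 11) (.e (nat_lit 426116) (nat_lit 2) (.e (nat_lit 196672) (nat_lit 15) .nil))) (.g (nat_lit 0) (.e (nat_lit 277535) (nat_lit 0) .nil) .nil)))))) (.nd (nat_lit 7) (.nd (nat_lit 8) (.nd (nat_lit 9) 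
(.lf (nat_lit 543861) (.g (nat_lit 1855) (.e (nat_lit 98369) (nat_lit 28) (.e (nat_lit 442374) (nat_lit 0) (.e (nat_lit 1800) (nat_lit 119) (.e (nat_lit 516124) (nat_lit 2) (.e (nat_lit 213030) (nat_lit 11) (.e (nat_lit 24609) (nat_lit 3) .nil)))))) (.g (nat_lit 1) (.e (nat_lit 275814) (nat_lit 0) .nil) .nil))) 
(.lf (nat_lit 544373) (.g (nat_lit 2583) (.e (nat_lit 98386) (nat_lit 32) (.e (nat_lit 475179) (nat_lit 24) (.e (nat_lit 516146) (nat_lit 9) (.e (nat_lit 426432) (nat_lit 17) (.e (nat_lit 90133) (nat_lit 9) .nil))))) (.g (nat_lit 0) (.e (nat_lit 276419) (nat_lit 0) .nil) .nil)))) (.nd (nat_lit 9) 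
(.lf (nat_lit 544117) (.g (nat_lit 2172) (.e (nat_lit 98381) (nat_lit 31) (.e (nat_lit 466954) (nat_lit 11) (.e (nat_lit 335988) (nat_lit 1) (.e (nat_lit 57692) (nat_lit 156) (.e (nat_lit 163906) (nat_lit 12) (.e (nat_lit 426434) (nat_lit 18) .nil)))))) (.g (nat_lit 1) (.e (nat_lit 276139) (nat_lit 0) .nil) .nil))) 
(.lf (nat_lit 544629) (.g (nat_lit 428) (.e (nat_lit 122624) (nat_lit 3) (.e (nat_lit 204810) (nat_lit 9) (.e (nat_lit 426232) (nat_lit 9) (.e (nat_lit 426565) (nat_lit 34) (.e (nat_lit 401152) (nat_lit 3) .nil))))) (.g (nat_lit 0) (.e (nat_lit 277408) (nat_lit 0) .nil) .nil))))) (.nd (nat_lit 8) (.nd (nat_lit 9) 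
(.lf (nat_lit 543989) (.g (nat_lit 4087) (.e (nat_lit 98373) (nat_lit 29) (.e (nat_lit 450588) (nat_lit 10) (.e (nat_lit 573449) (nat_lit 9) (.e (nat_lit 359) (nat_lit 30) (.e (nat_lit 409602) (nat_lit 0) (.e (nat_lit 5293) (nat_lit 298) (.e (nat_lit 1250) (nat_lit 92) .nil))))))) (.g (nat_lit 1) (.e (nat_lit 275968) (nat_lit 0) .nil) .nil))) 
(.lf (nat_lit 544501) (.g (nat_lit 1607) (.e (nat_lit 114432) (nat_lit 6) (.e (nat_lit 188453) (nat_lit 24) (.e (nat_lit 229665) (nat_lit 240) (.e (nat_lit 2653) (nat_lit 166) (.e (nat_lit 196352) (nat_lit 4) .nil))))) (.g (nat_lit 0) (.e (nat_lit 276955) (nat_lit 0) .nil) .nil)))) (.nd (nat_lit 9) 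
(.lf (nat_lit 544245) (.g (nat_lit 3166) (.e (nat_lit 98384) (nat_lit 32) (.e (nat_lit 475179) (nat_lit 24) (.e (nat_lit 516115) (nat_lit 1) (.e (nat_lit 164325) (nat_lit 230) (.e (nat_lit 163875) (nat_lit 3) (.e (nat_lit 204834) (nat_lit 19) (.e (nat_lit 106517) (nat_lit 9) (.e (nat_lit 1255) (nat_lit 92) .nil)))))))) (.g (nat_lit 1) (.e (nat_lit 276284) (nat_lit 0) .nil) .nil))) 
(.lf (nat_lit 544757) (.g (nat_lit 2063) (.e (nat_lit 114696) (nat_lit 11) (.e (nat_lit 426129) (nat_lit 3) (.e (nat_lit 204877) (nat_lit 31) (.e (nat_lit 376835) (nat_lit 0) (.e (nat_lit 3253) (nat_lit 197) (.e (nat_lit 532515) (nat_lit 3) .nil)))))) (.g (nat_lit 1) (.e (nat_lit 277726) (nat_lit 0) .nil) .nil))))))))) 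
(.nd (nat_lit 4) (.nd (nat_lit 5) (.nd (nat_lit 6) (.nd (nat_lit 7) (.nd (nat_lit 8) 
(.nd (nat_lit 9) 
(.lf (nat_lit 543757) (.g (nat_lit 2661) (.e (nat_lit 98367) (nat_lit 27) (.e (nat_lit 434248) (nat_lit 28) (.e (nat_lit 573487) (nat_lit 14) (.e (nat_lit 73753) (nat_lit 8) (.e (nat_lit 557119) (nat_lit 18) (.e (nat_lit 2798) (nat_lit 180) (.e (nat_lit 311040) (nat_lit 18) .nil))))))) (.g (nat_lit 1) (.e (nat_lit 275596) (nat_lit 0) .nil) .nil))) 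
(.lf (nat_lit 544269) (.g (nat_lit 3087) (.e (nat_lit 98384) (nat_lit 32) (.e (nat_lit 475179) (nat_lit 24) (.e (nat_lit 516179) (nat_lit 15) (.e (nat_lit 475177) (nat_lit 24) (.e (nat_lit 516148) (nat_lit 9) (.e (nat_lit 426436) (nat_lit 18) .nil)))))) (.g (nat_lit 1) (.e (nat_lit 276308) (nat_lit 0) .nil) .nil)))) (.nd (nat_lit 9) 
(.lf (nat_lit 544013) (.g (nat_lit 4417) (.e (nat_lit 98373) (nat_lit 29) (.e (nat_lit 450588) (nat_lit 10) (.e (nat_lit 573475) (nat_lit 12) (.e (nat_lit 57347) (nat_lit 0) (.e (nat_lit 7263) (nat_lit 384) (.e (nat_lit 57412) (nat_lit 12) (.e (nat_lit 336022) (nat_lit 3) .nil))))))) (.g (nat_lit 1) (.e (nat_lit 275992) (nat_lit 0) .nil) .nil))) 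
(.lf (nat_lit 544525) (.g (nat_lit 1620) (.e (nat_lit 114432) (nat_lit 6) (.e (nat_lit 188455) (nat_lit 24) (.e (nat_lit 229663) (nat_lit 240) (.e (nat_lit 2463) (nat_lit 157) .nil)))) (.g (nat_lit 0) (.e (nat_lit 276987) (nat_lit 0) .nil) .nil))))) (.nd (nat_lit 8) (.nd (nat_lit 9) 
(.lf (nat_lit 543885) (.g (nat_lit 1892) (.e (nat_lit 98372) (nat_lit 29) (.e (nat_lit 450579) (nat_lit 5) (.e (nat_lit 532523) (nat_lit 7) (.e (nat_lit 319506) (nat_lit 10) .nil)))) (.g (nat_lit 0) (.e (nat_lit 275858) (nat_lit 0) .nil) .nil))) 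
(.lf (nat_lit 544397) (.g (nat_lit 1925) (.e (nat_lit 98387) (nat_lit 33) (.e (nat_lit 491560) (nat_lit 10) (.e (nat_lit 344117) (nat_lit 21) (.e (nat_lit 516139) (nat_lit 7) .nil)))) (.g (nat_lit 0) (.e (nat_lit 276449) (nat_lit 0) .nil) .nil)))) (.nd (nat_lit 9) 
(.lf (nat_lit 544141) (.g (nat_lit 2616) (.e (nat_lit 98381) (nat_lit 31) (.e (nat_lit 466954) (nat_lit 11) (.e (nat_lit 335996) (nat_lit 1) (.e (nat_lit 57692) (nat_lit 156) (.e (nat_lit 163907) (nat_lit 12) (.e (nat_lit 426434) (nat_lit 18) .nil)))))) (.g (nat_lit 1) (.e (nat_lit 276163) (nat_lit 0) .nil) .nil))) 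
(.lf (nat_lit 544653) (.g (nat_lit 1519) (.e (nat_lit 122624) (nat_lit 4) (.e (nat_lit 213032) (nat_lit 11) (.e (nat_lit 24625) (nat_lit 9) (.e (nat_lit 336426) (nat_lit 29) (.e (nat_lit 450304) (nat_lit 5) .nil))))) (.g (nat_lit 0) (.e (nat_lit 277463) (nat_lit 0) .nil) .nil)))))) (.nd (nat_lit 7) (.nd (nat_lit 8) (.nd (nat_lit 9) 
(.lf (nat_lit 543821) (.g (nat_lit 1661) (.e (nat_lit 98368) (nat_lit 27) (.e (nat_lit 434247) (nat_lit 28) (.e (nat_lit 573489) (nat_lit 14) (.e (nat_lit 73755) (nat_lit 8) (.e (nat_lit 557091) (nat_lit 12) .nil))))) (.g (nat_lit 0) (.e (nat_lit 275726) (nat_lit 0) .nil) .nil))) 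
(.lf (nat_lit 544333) (.g (nat_lit 2402) (.e (nat_lit 98386) (nat_lit 32) (.e (nat_lit 475177) (nat_lit 24) (.e (nat_lit 516150) (nat_lit 9) (.e (nat_lit 426428) (nat_lit 17) (.e (nat_lit 90167) (nat_lit 13) (.e (nat_lit 179968) (nat_lit 18) .nil)))))) (.g (nat_lit 1) (.e (nat_lit 276378) (nat_lit 0) .nil) .nil)))) (.nd (nat_lit 9) 
(.lf (nat_lit 544077) (.g (nat_lit 2878) (.e (nat_lit 98380) (nat_lit 31) (.e (nat_lit 466954) (nat_lit 11) (.e (nat_lit 335988) (nat_lit 1) (.e (nat_lit 57692) (nat_lit 156) (.e (nat_lit 163907) (nat_lit 12) (.e (nat_lit 426438) (nat_lit 18) .nil)))))) (.g (nat_lit 1) (.e (nat_lit 276095) (nat_lit 0) .nil) .nil))) 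
(.lf (nat_lit 544589) (.g (nat_lit 1104) (.e (nat_lit 106534) (nat_lit 11) (.e (nat_lit 16412) (nat_lit 2) (.e (nat_lit 196674) (nat_lit 15) (.e (nat_lit 81922) (nat_lit 0) (.e (nat_lit 3231) (nat_lit 197) .nil))))) (.g (nat_lit 0) (.e (nat_lit 277185) (nat_lit 0) .nil) .nil))))) (.nd (nat_lit 8) (.nd (nat_lit 9) 
(.lf (nat_lit 543949) (.g (nat_lit 473) (.e (nat_lit 98373) (nat_lit 29) (.e (nat_lit 450586) (nat_lit 10) (.e (nat_lit 573450) (nat_lit 9) .nil))) (.g (nat_lit 0) (.e (nat_lit 275928) (nat_lit 0) .nil) .nil))) 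
(.lf (nat_lit 544461) (.g (nat_lit 1363) (.e (nat_lit 114432) (nat_lit 4) (.e (nat_lit 172120) (nat_lit 12) (.e (nat_lit 475211) (nat_lit 41) (.e (nat_lit 712750) (nat_lit 29) .nil)))) (.g (nat_lit 0) (.e (nat_lit 276773) (nat_lit 0) .nil) .nil)))) (.nd (nat_lit 9) 
(.lf (nat_lit 544205) (.g (nat_lit 1463) (.e (nat_lit 98384) (nat_lit 32) (.e (nat_lit 475177) (nat_lit 24) (.e (nat_lit 516146) (nat_lit 9) (.e (nat_lit 426428) (nat_lit 17) (.e (nat_lit 90130) (nat_lit 9) (.e (nat_lit 2862) (nat_lit 184) (.e (nat_lit 426434) (nat_lit 18) .nil))))))) (.g (nat_lit 1) (.e (nat_lit 276244) (nat_lit 0) .nil) .nil))) 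
(.lf (nat_lit 544717) (.g (nat_lit 2464) (.e (nat_lit 114694) (nat_lit 11) (.e (nat_lit 426200) (nat_lit 9) (.e (nat_lit 426555) (nat_lit 32) (.e (nat_lit 376857) (nat_lit 21) (.e (nat_lit 57847) (nat_lit 252) (.e (nat_lit 57388) (nat_lit 5) .nil)))))) (.g (nat_lit 1) (.e (nat_lit 277650) (nat_lit 0) .nil) .nil))))))) (.nd (nat_lit 6) (.nd (nat_lit 7) (.nd (nat_lit 8) (.nd (nat_lit 9) 
(.lf (nat_lit 543789) (.g (nat_lit 1317) (.e (nat_lit 98368) (nat_lit 27) (.e (nat_lit 434245) (nat_lit 28) (.e (nat_lit 573487) (nat_lit 14) (.e (nat_lit 73753) (nat_lit 8) .nil)))) (.g (nat_lit 0) (.e (nat_lit 275645) (nat_lit 0) .nil) .nil))) 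
(.lf (nat_lit 544301) (.g (nat_lit 2736) (.e (nat_lit 98385) (nat_lit 32) (.e (nat_lit 475177) (nat_lit 24) (.e (nat_lit 516181) (nat_lit 15) (.e (nat_lit 475177) (nat_lit 24) (.e (nat_lit 516146) (nat_lit 9) (.e (nat_lit 426436) (nat_lit 18) .nil)))))) (.g (nat_lit 1) (.e (nat_lit 276344) (nat_lit 0) .nil) .nil)))) (.nd (nat_lit 9) 
(.lf (nat_lit 544045) (.g (nat_lit 2224) (.e (nat_lit 98377) (nat_lit 30) (.e (nat_lit 458789) (nat_lit 23) (.e (nat_lit 532499) (nat_lit 1) (.e (nat_lit 57692) (nat_lit 156) (.e (nat_lit 163875) (nat_lit 3) .nil))))) (.g (nat_lit 0) (.e (nat_lit 276049) (nat_lit 0) .nil) .nil))) 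
(.lf (nat_lit 544557) (.g (nat_lit 1522) (.e (nat_lit 114432) (nat_lit 6) (.e (nat_lit 188455) (nat_lit 24) (.e (nat_lit 229681) (nat_lit 244) (.e (nat_lit 163920) (nat_lit 14) (.e (nat_lit 450304) (nat_lit 4) .nil))))) (.g (nat_lit 0) (.e (nat_lit 277019) (nat_lit 0) .nil) .nil))))) (.nd (nat_lit 8) (.nd (nat_lit 9) 
(.lf (nat_lit 543917) (.g (nat_lit 2697) (.e (nat_lit 98372) (nat_lit 29) (.e (nat_lit 450586) (nat_lit 10) (.e (nat_lit 573471) (nat_lit 11) (.e (nat_lit 16402) (nat_lit 0) (.e (nat_lit 7936) (nat_lit 402) .nil))))) (.g (nat_lit 0) (.e (nat_lit 275890) (nat_lit 0) .nil) .nil))) 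
(.lf (nat_lit 544429) (.g (nat_lit 3732) (.e (nat_lit 98389) (nat_lit 33) (.e (nat_lit 491560) (nat_lit 10) (.e (nat_lit 344118) (nat_lit 21) (.e (nat_lit 516102) (nat_lit 0) (.e (nat_lit 6989) (nat_lit 377) (.e (nat_lit 2777) (nat_lit 178) (.e (nat_lit 286735) (nat_lit 3) .nil))))))) (.g (nat_lit 1) (.e (nat_lit 276486) (nat_lit 0) .nil) .nil)))) (.nd (nat_lit 9) 
(.lf (nat_lit 544173) (.g (nat_lit 2499) (.e (nat_lit 98382) (nat_lit 31) (.e (nat_lit 466977) (nat_lit 22) (.e (nat_lit 196681) (nat_lit 17) (.e (nat_lit 131089) (nat_lit 1) (.e (nat_lit 57931) (nat_lit 282) (.e (nat_lit 171776) (nat_lit 64) .nil)))))) (.g (nat_lit 1) (.e (nat_lit 276198) (nat_lit 0) .nil) .nil))) 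
(.lf (nat_lit 544685) (.g (nat_lit 1036) (.e (nat_lit 122624) (nat_lit 5) (.e (nat_lit 221194) (nat_lit 11) (.e (nat_lit 336087) (nat_lit 9) (.e (nat_lit 336441) (nat_lit 32) (.e (nat_lit 474880) (nat_lit 5) .nil))))) (.g (nat_lit 0) (.e (nat_lit 277523) (nat_lit 0) .nil) .nil)))))) (.nd (nat_lit 7) (.nd (nat_lit 8) (.nd (nat_lit 9) 
(.lf (nat_lit 543853) (.g (nat_lit 3973) (.e (nat_lit 98368) (nat_lit 27) (.e (nat_lit 434248) (nat_lit 28) (.e (nat_lit 573489) (nat_lit 14) (.e (nat_lit 73755) (nat_lit 8) (.e (nat_lit 557075) (nat_lit 9) (.e (nat_lit 2610) (nat_lit 163) (.e (nat_lit 164403) (nat_lit 256) (.e (nat_lit 57378) (nat_lit 3) .nil)))))))) (.g (nat_lit 1) (.e (nat_lit 275787) (nat_lit 0) .nil) .nil))) 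
(.lf (nat_lit 544365) (.g (nat_lit 3587) (.e (nat_lit 98386) (nat_lit 32) (.e (nat_lit 475179) (nat_lit 24) (.e (nat_lit 516120) (nat_lit 1) (.e (nat_lit 164330) (nat_lit 230) (.e (nat_lit 163872) (nat_lit 3) (.e (nat_lit 204838) (nat_lit 20) (.e (nat_lit 114719) (nat_lit 23) .nil))))))) (.g (nat_lit 1) (.e (nat_lit 276411) (nat_lit 0) .nil) .nil)))) (.nd (nat_lit 9) 
(.lf (nat_lit 544109) (.g (nat_lit 2644) (.e (nat_lit 98381) (nat_lit 31) (.e (nat_lit 466954) (nat_lit 11) (.e (nat_lit 335986) (nat_lit 1) (.e (nat_lit 57692) (nat_lit 156) (.e (nat_lit 163905) (nat_lit 12) (.e (nat_lit 426438) (nat_lit 18) .nil)))))) (.g (nat_lit 1) (.e (nat_lit 276131) (nat_lit 0) .nil) .nil))) 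
(.lf (nat_lit 544621) (.g (nat_lit 1527) (.e (nat_lit 106536) (nat_lit 11) (.e (nat_lit 16413) (nat_lit 2) (.e (nat_lit 196681) (nat_lit 17) (.e (nat_lit 131122) (nat_lit 12) (.e (nat_lit 385067) (nat_lit 26) .nil))))) (.g (nat_lit 0) (.e (nat_lit 277250) (nat_lit 0) .nil) .nil))))) (.nd (nat_lit 8) (.nd (nat_lit 9) 
(.lf (nat_lit 543981) (.g (nat_lit 2672) (.e (nat_lit 98373) (nat_lit 29) (.e (nat_lit 450587) (nat_lit 10) (.e (nat_lit 573477) (nat_lit 12) (.e (nat_lit 57575) (nat_lit 55) (.e (nat_lit 778463) (nat_lit 11) (.e (nat_lit 32512) (nat_lit 3) .nil)))))) (.g (nat_lit 1) (.e (nat_lit 275960) (nat_lit 0) .nil) .nil))) 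
(.lf (nat_lit 544493) (.g (nat_lit 1316) (.e (nat_lit 114432) (nat_lit 6) (.e (nat_lit 188453) (nat_lit 24) (.e (nat_lit 229663) (nat_lit 240) (.e (nat_lit 2431) (nat_lit 157) .nil)))) (.g (nat_lit 0) (.e (nat_lit 276946) (nat_lit 0) .nil) .nil)))) (.nd (nat_lit 9) 
(.lf (nat_lit 544237) (.g (nat_lit 408) (.e (nat_lit 98384) (nat_lit 32) (.e (nat_lit 475177) (nat_lit 24) (.e (nat_lit 516181) (nat_lit 15) .nil))) (.g (nat_lit 0) (.e (nat_lit 276276) (nat_lit 0) .nil) .nil))) 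
(.lf (nat_lit 544749) (.g (nat_lit 1862) (.e (nat_lit 114695) (nat_lit 11) (.e (nat_lit 426262) (nat_lit 9) (.e (nat_lit 426554) (nat_lit 32) (.e (nat_lit 376857) (nat_lit 21) (.e (nat_lit 57852) (nat_lit 252) (.e (nat_lit 57389) (nat_lit 5) .nil)))))) (.g (nat_lit 1) (.e (nat_lit 277703) (nat_lit 0) .nil) .nil)))))))) 
(.nd (nat_lit 5) (.nd (nat_lit 6) (.nd (nat_lit 7) (.nd (nat_lit 8) (.nd (nat_lit 9) 
(.lf (nat_lit 543773) (.g (nat_lit 2867) (.e (nat_lit 98367) (nat_lit 27) (.e (nat_lit 434248) (nat_lit 28) (.e (nat_lit 573489) (nat_lit 14) (.e (nat_lit 73755) (nat_lit 8) (.e (nat_lit 557091) (nat_lit 12) .nil))))) (.g (nat_lit 0) (.e (nat_lit 275612) (nat_lit 0) .nil) .nil))) 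
(.lf (nat_lit 544285) (.g (nat_lit 1769) (.e (nat_lit 98385) (nat_lit 32) (.e (nat_lit 475177) (nat_lit 24) (.e (nat_lit 516150) (nat_lit 9) (.e (nat_lit 426428) (nat_lit 17) (.e (nat_lit 90168) (nat_lit 13) (.e (nat_lit 179968) (nat_lit 18) .nil)))))) (.g (nat_lit 1) (.e (nat_lit 276325) (nat_lit 0) .nil) .nil)))) (.nd (nat_lit 9) 
(.lf (nat_lit 544029) (.g (nat_lit 2500) (.e (nat_lit 98374) (nat_lit 29) (.e (nat_lit 450586) (nat_lit 10) (.e (nat_lit 573478) (nat_lit 12) (.e (nat_lit 57574) (nat_lit 55) (.e (nat_lit 778466) (nat_lit 11) (.e (nat_lit 24607) (nat_lit 3) .nil)))))) (.g (nat_lit 1) (.e (nat_lit 276009) (nat_lit 0) .nil) .nil))) 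
(.lf (nat_lit 544541) (.g (nat_lit 1242) (.e (nat_lit 114432) (nat_lit 6) (.e (nat_lit 188455) (nat_lit 24) (.e (nat_lit 229677) (nat_lit 244) (.e (nat_lit 163934) (nat_lit 17) (.e (nat_lit 474880) (nat_lit 4) .nil))))) (.g (nat_lit 0) (.e (nat_lit 277003) (nat_lit 0) .nil) .nil))))) (.nd (nat_lit 8) (.nd (nat_lit 9) 
(.lf (nat_lit 543901) (.g (nat_lit 656) (.e (nat_lit 98372) (nat_lit 29) (.e (nat_lit 450579) (nat_lit 5) (.e (nat_lit 532541) (nat_lit 9) .nil))) (.g (nat_lit 0) (.e (nat_lit 275874) (nat_lit 0) .nil) .nil))) 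
(.lf (nat_lit 544413) (.g (nat_lit 2038) (.e (nat_lit 98389) (nat_lit 33) (.e (nat_lit 491546) (nat_lit 9) (.e (nat_lit 336013) (nat_lit 2) (.e (nat_lit 90133) (nat_lit 9) .nil)))) (.g (nat_lit 0) (.e (nat_lit 276470) (nat_lit 0) .nil) .nil)))) (.nd (nat_lit 9) 
(.lf (nat_lit 544157) (.g (nat_lit 3180) (.e (nat_lit 98381) (nat_lit 31) (.e (nat_lit 466981) (nat_lit 23) (.e (nat_lit 204846) (nat_lit 24) (.e (nat_lit 319530) (nat_lit 16) (.e (nat_lit 286734) (nat_lit 3) .nil))))) (.g (nat_lit 1) (.e (nat_lit 276181) (nat_lit 0) .nil) .nil))) 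
(.lf (nat_lit 544669) (.g (nat_lit 1186) (.e (nat_lit 122624) (nat_lit 4) (.e (nat_lit 213032) (nat_lit 11) (.e (nat_lit 24655) (nat_lit 13) (.e (nat_lit 401152) (nat_lit 23) .nil)))) (.g (nat_lit 0) (.e (nat_lit 277497) (nat_lit 0) .nil) .nil)))))) (.nd (nat_lit 7) (.nd (nat_lit 8) (.nd (nat_lit 9) 
(.lf (nat_lit 543837) (.g (nat_lit 1491) (.e (nat_lit 98368) (nat_lit 27) (.e (nat_lit 434248) (nat_lit 28) (.e (nat_lit 573487) (nat_lit 14) (.e (nat_lit 73753) (nat_lit 8) .nil)))) (.g (nat_lit 0) (.e (nat_lit 275760) (nat_lit 0) .nil) .nil))) 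
(.lf (nat_lit 544349) (.g (nat_lit 2885) (.e (nat_lit 98386) (nat_lit 32) (.e (nat_lit 475177) (nat_lit 24) (.e (nat_lit 516181) (nat_lit 15) (.e (nat_lit 475179) (nat_lit 24) (.e (nat_lit 516144) (nat_lit 9) (.e (nat_lit 426436) (nat_lit 18) .nil)))))) (.g (nat_lit 1) (.e (nat_lit 276394) (nat_lit 0) .nil) .nil)))) (.nd (nat_lit 9) 
(.lf (nat_lit 544093) (.g (nat_lit 2884) (.e (nat_lit 98380) (nat_lit 31) (.e (nat_lit 466954) (nat_lit 11) (.e (nat_lit 335996) (nat_lit 1) (.e (nat_lit 57692) (nat_lit 156) (.e (nat_lit 163907) (nat_lit 12) (.e (nat_lit 426438) (nat_lit 18) .nil)))))) (.g (nat_lit 1) (.e (nat_lit 276111) (nat_lit 0) .nil) .nil))) 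
(.lf (nat_lit 544605) (.g (nat_lit 502) (.e (nat_lit 106534) (nat_lit 11) (.e (nat_lit 16416) (nat_lit 3) (.e (nat_lit 204876) (nat_lit 31) .nil))) (.g (nat_lit 0) (.e (nat_lit 277207) (nat_lit 0) .nil) .nil))))) (.nd (nat_lit 8) (.nd (nat_lit 9) 
(.lf (nat_lit 543965) (.g (nat_lit 3864) (.e (nat_lit 98373) (nat_lit 29) (.e (nat_lit 450587) (nat_lit 10) (.e (nat_lit 573475) (nat_lit 12) (.e (nat_lit 57354) (nat_lit 0) (.e (nat_lit 7270) (nat_lit 385) (.e (nat_lit 122906) (nat_lit 12) (.e (nat_lit 343808) (nat_lit 3) .nil))))))) (.g (nat_lit 1) (.e (nat_lit 275944) (nat_lit 0) .nil) .nil))) 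
(.lf (nat_lit 544477) (.g (nat_lit 308) (.e (nat_lit 114432) (nat_lit 6) (.e (nat_lit 188431) (nat_lit 20) (.e (nat_lit 3401) (nat_lit 211) .nil))) (.g (nat_lit 0) (.e (nat_lit 276920) (nat_lit 0) .nil) .nil)))) (.nd (nat_lit 9) 
(.lf (nat_lit 544221) (.g (nat_lit 2681) (.e (nat_lit 98384) (nat_lit 32) (.e (nat_lit 475177) (nat_lit 24) (.e (nat_lit 516150) (nat_lit 9) (.e (nat_lit 426428) (nat_lit 17) (.e (nat_lit 90170) (nat_lit 13) (.e (nat_lit 179968) (nat_lit 18) .nil)))))) (.g (nat_lit 1) (.e (nat_lit 276260) (nat_lit 0) .nil) .nil))) 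
(.lf (nat_lit 544733) (.g (nat_lit 1762) (.e (nat_lit 114695) (nat_lit 11) (.e (nat_lit 426230) (nat_lit 9) (.e (nat_lit 426554) (nat_lit 32) (.e (nat_lit 376857) (nat_lit 21) (.e (nat_lit 57852) (nat_lit 252) (.e (nat_lit 57389) (nat_lit 5) .nil)))))) (.g (nat_lit 1) (.e (nat_lit 277687) (nat_lit 0) .nil) .nil))))))) (.nd (nat_lit 6) (.nd (nat_lit 7) (.nd (nat_lit 8) (.nd (nat_lit 9) 
(.lf (nat_lit 543805) (.g (nat_lit 1903) (.e (nat_lit 98368) (nat_lit 27) (.e (nat_lit 434247) (nat_lit 28) (.e (nat_lit 573485) (nat_lit 13) (.e (nat_lit 65569) (nat_lit 3) (.e (nat_lit 98325) (nat_lit 17) .nil))))) (.g (nat_lit 0) (.e (nat_lit 275691) (nat_lit 0) .nil) .nil))) 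
(.lf (nat_lit 544317) (.g (nat_lit 2437) (.e (nat_lit 98386) (nat_lit 32) (.e (nat_lit 475176) (nat_lit 24) (.e (nat_lit 516146) (nat_lit 9) (.e (nat_lit 426428) (nat_lit 17) (.e (nat_lit 90133) (nat_lit 9) (.e (nat_lit 2900) (nat_lit 184) (.e (nat_lit 426435) (nat_lit 18) .nil))))))) (.g (nat_lit 1) (.e (nat_lit 276362) (nat_lit 0) .nil) .nil)))) (.nd (nat_lit 9) 
(.lf (nat_lit 544061) (.g (nat_lit 1643) (.e (nat_lit 98379) (nat_lit 31) (.e (nat_lit 466977) (nat_lit 22) (.e (nat_lit 196681) (nat_lit 17) (.e (nat_lit 131086) (nat_lit 1) (.e (nat_lit 57931) (nat_lit 282) (.e (nat_lit 171776) (nat_lit 64) .nil)))))) (.g (nat_lit 1) (.e (nat_lit 276073) (nat_lit 0) .nil) .nil))) 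
(.lf (nat_lit 544573) (.g (nat_lit 2521) (.e (nat_lit 106517) (nat_lit 9) (.e (nat_lit 1255) (nat_lit 92) (.e (nat_lit 98384) (nat_lit 32) (.e (nat_lit 475177) (nat_lit 24) (.e (nat_lit 516115) (nat_lit 1) .nil))))) (.g (nat_lit 0) (.e (nat_lit 277101) (nat_lit 0) .nil) .nil))))) (.nd (nat_lit 8) (.nd (nat_lit 9) 
(.lf (nat_lit 543933) (.g (nat_lit 3534) (.e (nat_lit 98372) (nat_lit 29) (.e (nat_lit 450586) (nat_lit 10) (.e (nat_lit 573478) (nat_lit 12) (.e (nat_lit 57574) (nat_lit 55) (.e (nat_lit 778464) (nat_lit 11) (.e (nat_lit 24608) (nat_lit 3) .nil)))))) (.g (nat_lit 1) (.e (nat_lit 275909) (nat_lit 0) .nil) .nil))) 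
(.lf (nat_lit 544445) (.g (nat_lit 1671) (.e (nat_lit 114432) (nat_lit 3) (.e (nat_lit 163978) (nat_lit 30) (.e (nat_lit 573479) (nat_lit 13) (.e (nat_lit 65619) (nat_lit 10) .nil)))) (.g (nat_lit 0) (.e (nat_lit 276732) (nat_lit 0) .nil) .nil)))) (.nd (nat_lit 9) 
(.lf (nat_lit 544189) (.g (nat_lit 4223) (.e (nat_lit 98383) (nat_lit 32) (.e (nat_lit 475199) (nat_lit 40) (.e (nat_lit 704589) (nat_lit 3) (.e (nat_lit 163979) (nat_lit 30) (.e (nat_lit 573482) (nat_lit 13) (.e (nat_lit 65604) (nat_lit 9) (.e (nat_lit 336028) (nat_lit 3) .nil))))))) (.g (nat_lit 1) (.e (nat_lit 276226) (nat_lit 0) .nil) .nil))) 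
(.lf (nat_lit 544701) (.g (nat_lit 2469) (.e (nat_lit 114694) (nat_lit 11) (.e (nat_lit 426133) (nat_lit 3) (.e (nat_lit 204861) (nat_lit 26) (.e (nat_lit 336088) (nat_lit 9) (.e (nat_lit 336324) (nat_lit 18) (.e (nat_lit 204837) (nat_lit 20) .nil)))))) (.g (nat_lit 1) (.e (nat_lit 277570) (nat_lit 0) .nil) .nil)))))) (.nd (nat_lit 7) (.nd (nat_lit 8) (.nd (nat_lit 9) 
(.lf (nat_lit 543869) (.g (nat_lit 3850) (.e (nat_lit 98369) (nat_lit 28) (.e (nat_lit 442427) (nat_lit 23) (.e (nat_lit 204845) (nat_lit 24) (.e (nat_lit 319529) (nat_lit 16) (.e (nat_lit 286735) (nat_lit 3) .nil))))) (.g (nat_lit 1) (.e (nat_lit 275824) (nat_lit 0) .nil) .nil))) 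
(.lf (nat_lit 544381) (.g (nat_lit 1686) (.e (nat_lit 98386) (nat_lit 32) (.e (nat_lit 475197) (nat_lit 40) (.e (nat_lit 704589) (nat_lit 3) (.e (nat_lit 163975) (nat_lit 30) (.e (nat_lit 573491) (nat_lit 15) (.e (nat_lit 89856) (nat_lit 23) .nil)))))) (.g (nat_lit 1) (.e (nat_lit 276428) (nat_lit 0) .nil) .nil)))) (.nd (nat_lit 9) 
(.lf (nat_lit 544125) (.g (nat_lit 2456) (.e (nat_lit 98381) (nat_lit 31) (.e (nat_lit 466954) (nat_lit 11) (.e (nat_lit 335994) (nat_lit 1) (.e (nat_lit 57691) (nat_lit 156) (.e (nat_lit 163907) (nat_lit 12) (.e (nat_lit 426436) (nat_lit 18) .nil)))))) (.g (nat_lit 1) (.e (nat_lit 276147) (nat_lit 0) .nil) .nil))) 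
(.lf (nat_lit 544637) (.g (nat_lit 395) (.e (nat_lit 122624) (nat_lit 3) (.e (nat_lit 204813) (nat_lit 9) (.e (nat_lit 426199) (nat_lit 9) .nil))) (.g (nat_lit 0) (.e (nat_lit 277426) (nat_lit 0) .nil) .nil))))) (.nd (nat_lit 8) (.nd (nat_lit 9) 
(.lf (nat_lit 543997) (.g (nat_lit 3481) (.e (nat_lit 98373) (nat_lit 29) (.e (nat_lit 450588) (nat_lit 10) (.e (nat_lit 573451) (nat_lit 9) (.e (nat_lit 396) (nat_lit 32) (.e (nat_lit 426344) (nat_lit 14) (.e (nat_lit 491539) (nat_lit 3) .nil)))))) (.g (nat_lit 1) (.e (nat_lit 275976) (nat_lit 0) .nil) .nil))) 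
(.lf (nat_lit 544509) (.g (nat_lit 2316) (.e (nat_lit 114432) (nat_lit 6) (.e (nat_lit 188453) (nat_lit 24) (.e (nat_lit 229678) (nat_lit 244) (.e (nat_lit 163931) (nat_lit 17) (.e (nat_lit 474880) (nat_lit 4) .nil))))) (.g (nat_lit 0) (.e (nat_lit 276963) (nat_lit 0) .nil) .nil)))) (.nd (nat_lit 9) 
(.lf (nat_lit 544253) (.g (nat_lit 3750) (.e (nat_lit 98384) (nat_lit 32) (.e (nat_lit 475179) (nat_lit 24) (.e (nat_lit 516117) (nat_lit 1) (.e (nat_lit 164330) (nat_lit 230) (.e (nat_lit 163873) (nat_lit 3) (.e (nat_lit 204838) (nat_lit 20) (.e (nat_lit 114719) (nat_lit 23) .nil))))))) (.g (nat_lit 1) (.e (nat_lit 276292) (nat_lit 0) .nil) .nil))) 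
(.lf (nat_lit 544765) (.g (nat_lit 1800) (.e (nat_lit 114696) (nat_lit 11) (.e (nat_lit 426230) (nat_lit 9) (.e (nat_lit 426554) (nat_lit 32) (.e (nat_lit 376857) (nat_lit 21) (.e (nat_lit 57849) (nat_lit 252) (.e (nat_lit 57390) (nat_lit 5) .nil)))))) (.g (nat_lit 1) (.e (nat_lit 277737) (nat_lit 0) .nil) .nil))))))))))) 
(.nd (nat_lit 2) (.nd (nat_lit 3) (.nd (nat_lit 4) (.nd (nat_lit 5) (.nd (nat_lit 6) 
(.nd (nat_lit 7) (.nd (nat_lit 8) (.nd (nat_lit 9) 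
(.lf (nat_lit 543747) (.g (nat_lit 1305) (.e (nat_lit 98367) (nat_lit 27) (.e (nat_lit 434248) (nat_lit 28) (.e (nat_lit 573482) (nat_lit 13) (.e (nat_lit 65644) (nat_lit 22) .nil)))) (.g (nat_lit 0) (.e (nat_lit 275586) (nat_lit 0) .nil) .nil))) 
(.lf (nat_lit 544259) (.g (nat_lit 3617) (.e (nat_lit 98384) (nat_lit 32) (.e (nat_lit 475179) (nat_lit 24) (.e (nat_lit 516120) (nat_lit 1) (.e (nat_lit 164330) (nat_lit 230) (.e (nat_lit 163850) (nat_lit 0) (.e (nat_lit 3252) (nat_lit 197) (.e (nat_lit 532515) (nat_lit 3) (.e (nat_lit 114719) (nat_lit 23) .nil)))))))) (.g (nat_lit 1) (.e (nat_lit 276298) (nat_lit 0) .nil) .nil)))) 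
(.nd (nat_lit 9) 
(.lf (nat_lit 544003) (.g (nat_lit 5216) (.e (nat_lit 98373) (nat_lit 29) (.e (nat_lit 450588) (nat_lit 10) (.e (nat_lit 573473) (nat_lit 12) (.e (nat_lit 57347) (nat_lit 0) (.e (nat_lit 7265) (nat_lit 384) (.e (nat_lit 57406) (nat_lit 12) (.e (nat_lit 336018) (nat_lit 3) .nil))))))) (.g (nat_lit 1) (.e (nat_lit 275982) (nat_lit 0) .nil) .nil))) 
(.lf (nat_lit 544515) (.g (nat_lit 1724) (.e (nat_lit 114432) (nat_lit 6) (.e (nat_lit 188453) (nat_lit 24) (.e (nat_lit 229680) (nat_lit 244) (.e (nat_lit 163931) (nat_lit 17) (.e (nat_lit 474880) (nat_lit 4) .nil))))) (.g (nat_lit 0) (.e (nat_lit 276969) (nat_lit 0) .nil) .nil))))) (.nd (nat_lit 8) (.nd (nat_lit 9) 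
(.lf (nat_lit 543875) (.g (nat_lit 3198) (.e (nat_lit 98370) (nat_lit 28) (.e (nat_lit 442390) (nat_lit 11) (.e (nat_lit 335986) (nat_lit 1) (.e (nat_lit 57686) (nat_lit 156) (.e (nat_lit 163903) (nat_lit 12) (.e (nat_lit 426438) (nat_lit 18) .nil)))))) (.g (nat_lit 1) (.e (nat_lit 275830) (nat_lit 0) .nil) .nil))) 
(.lf (nat_lit 544387) (.g (nat_lit 2563) (.e (nat_lit 98386) (nat_lit 32) (.e (nat_lit 475199) (nat_lit 40) (.e (nat_lit 704589) (nat_lit 3) (.e (nat_lit 163975) (nat_lit 30) (.e (nat_lit 573491) (nat_lit 15) (.e (nat_lit 89856) (nat_lit 23) .nil)))))) (.g (nat_lit 1) (.e (nat_lit 276437) (nat_lit 0) .nil) .nil)))) (.nd (nat_lit 9) 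
(.lf (nat_lit 544131) (.g (nat_lit 1910) (.e (nat_lit 98381) (nat_lit 31) (.e (nat_lit 466954) (nat_lit 11) (.e (nat_lit 335995) (nat_lit 1) (.e (nat_lit 57654) (nat_lit 152) (.e (nat_lit 2633) (nat_lit 164) (.e (nat_lit 179968) (nat_lit 18) .nil)))))) (.g (nat_lit 1) (.e (nat_lit 276153) (nat_lit 0) .nil) .nil))) 
(.lf (nat_lit 544643) (.g (nat_lit 755) (.e (nat_lit 122624) (nat_lit 4) (.e (nat_lit 213030) (nat_lit 11) (.e (nat_lit 24655) (nat_lit 13) .nil))) (.g (nat_lit 0) (.e (nat_lit 277449) (nat_lit 0) .nil) .nil)))))) (.nd (nat_lit 7) (.nd (nat_lit 8) (.nd (nat_lit 9) 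
(.lf (nat_lit 543811) (.g (nat_lit 2963) (.e (nat_lit 98368) (nat_lit 27) (.e (nat_lit 434247) (nat_lit 28) (.e (nat_lit 573489) (nat_lit 14) (.e (nat_lit 73755) (nat_lit 8) (.e (nat_lit 557065) (nat_lit 9) (.e (nat_lit 2604) (nat_lit 163) (.e (nat_lit 164398) (nat_lit 256) (.e (nat_lit 57378) (nat_lit 3) .nil)))))))) (.g (nat_lit 1) (.e (nat_lit 275703) (nat_lit 0) .nil) .nil))) 
(.lf (nat_lit 544323) (.g (nat_lit 2607) (.e (nat_lit 98386) (nat_lit 32) (.e (nat_lit 475177) (nat_lit 24) (.e (nat_lit 516146) (nat_lit 9) (.e (nat_lit 426428) (nat_lit 17) (.e (nat_lit 90168) (nat_lit 13) (.e (nat_lit 179968) (nat_lit 18) .nil)))))) (.g (nat_lit 1) (.e (nat_lit 276368) (nat_lit 0) .nil) .nil)))) (.nd (nat_lit 9) 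
(.lf (nat_lit 544067) (.g (nat_lit 1923) (.e (nat_lit 98380) (nat_lit 31) (.e (nat_lit 466947) (nat_lit 0) (.e (nat_lit 1800) (nat_lit 119) (.e (nat_lit 516124) (nat_lit 2) (.e (nat_lit 213030) (nat_lit 11) (.e (nat_lit 24609) (nat_lit 3) .nil)))))) (.g (nat_lit 1) (.e (nat_lit 276084) (nat_lit 0) .nil) .nil))) 
(.lf (nat_lit 544579) (.g (nat_lit 2290) (.e (nat_lit 106526) (nat_lit 9) (.e (nat_lit 1255) (nat_lit 92) (.e (nat_lit 98334) (nat_lit 18) (.e (nat_lit 164398) (nat_lit 256) (.e (nat_lit 57375) (nat_lit 2) .nil))))) (.g (nat_lit 0) (.e (nat_lit 277142) (nat_lit 0) .nil) .nil))))) (.nd (nat_lit 8) (.nd (nat_lit 9) 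
(.lf (nat_lit 543939) (.g (nat_lit 1166) (.e (nat_lit 98372) (nat_lit 29) (.e (nat_lit 450588) (nat_lit 10) (.e (nat_lit 573469) (nat_lit 11) .nil))) (.g (nat_lit 0) (.e (nat_lit 275918) (nat_lit 0) .nil) .nil))) 
(.lf (nat_lit 544451) (.g (nat_lit 1859) (.e (nat_lit 114432) (nat_lit 3) (.e (nat_lit 163979) (nat_lit 30) (.e (nat_lit 573491) (nat_lit 15) (.e (nat_lit 81954) (nat_lit 23) (.e (nat_lit 98363) (nat_lit 26) .nil))))) (.g (nat_lit 0) (.e (nat_lit 276741) (nat_lit 0) .nil) .nil)))) (.nd (nat_lit 9) 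
(.lf (nat_lit 544195) (.g (nat_lit 2734) (.e (nat_lit 98384) (nat_lit 32) (.e (nat_lit 475177) (nat_lit 24) (.e (nat_lit 516117) (nat_lit 1) (.e (nat_lit 164332) (nat_lit 230) (.e (nat_lit 163874) (nat_lit 3) (.e (nat_lit 204838) (nat_lit 20) (.e (nat_lit 114718) (nat_lit 23) .nil))))))) (.g (nat_lit 1) (.e (nat_lit 276234) (nat_lit 0) .nil) .nil))) 
(.lf (nat_lit 544707) (.g (nat_lit 952) (.e (nat_lit 114694) (nat_lit 11) (.e (nat_lit 426139) (nat_lit 3) (.e (nat_lit 204859) (nat_lit 26) (.e (nat_lit 336206) (nat_lit 12) .nil)))) (.g (nat_lit 0) (.e (nat_lit 277578) (nat_lit 0) .nil) .nil))))))) (.nd (nat_lit 6) (.nd (nat_lit 7) (.nd (nat_lit 8) (.nd (nat_lit 9) 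
(.lf (nat_lit 543779) (.g (nat_lit 1578) (.e (nat_lit 98367) (nat_lit 27) (.e (nat_lit 434275) (nat_lit 39) (.e (nat_lit 663574) (nat_lit 9) (.e (nat_lit 20) (nat_lit 0) .nil)))) (.g (nat_lit 0) (.e (nat_lit 275618) (nat_lit 0) .nil) .nil))) 
(.lf (nat_lit 544291) (.g (nat_lit 1720) (.e (nat_lit 98385) (nat_lit 32) (.e (nat_lit 475177) (nat_lit 24) (.e (nat_lit 516179) (nat_lit 15) (.e (nat_lit 475177) (nat_lit 24) (.e (nat_lit 516149) (nat_lit 9) .nil))))) (.g (nat_lit 0) (.e (nat_lit 276333) (nat_lit 0) .nil) .nil)))) (.nd (nat_lit 9) 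
(.lf (nat_lit 544035) (.g (nat_lit 1843) (.e (nat_lit 98376) (nat_lit 30) (.e (nat_lit 458789) (nat_lit 23) (.e (nat_lit 532499) (nat_lit 1) (.e (nat_lit 57692) (nat_lit 156) (.e (nat_lit 163874) (nat_lit 3) .nil))))) (.g (nat_lit 0) (.e (nat_lit 276035) (nat_lit 0) .nil) .nil))) 
(.lf (nat_lit 544547) (.g (nat_lit 1368) (.e (nat_lit 114432) (nat_lit 6) (.e (nat_lit 188455) (nat_lit 24) (.e (nat_lit 229678) (nat_lit 244) (.e (nat_lit 163934) (nat_lit 17) .nil)))) (.g (nat_lit 0) (.e (nat_lit 277009) (nat_lit 0) .nil) .nil))))) (.nd (nat_lit 8) (.nd (nat_lit 9) 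
(.lf (nat_lit 543907) (.g (nat_lit 430) (.e (nat_lit 98372) (nat_lit 29) (.e (nat_lit 450583) (nat_lit 7) (.e (nat_lit 548913) (nat_lit 18) .nil))) (.g (nat_lit 0) (.e (nat_lit 275880) (nat_lit 0) .nil) .nil))) 
(.lf (nat_lit 544419) (.g (nat_lit 5095) (.e (nat_lit 98389) (nat_lit 33) (.e (nat_lit 491552) (nat_lit 9) (.e (nat_lit 336282) (nat_lit 15) (.e (nat_lit 3304) (nat_lit 202) (.e (nat_lit 573493) (nat_lit 15) (.e (nat_lit 81956) (nat_lit 23) .nil)))))) (.g (nat_lit 1) (.e (nat_lit 276476) (nat_lit 0) .nil) .nil)))) (.nd (nat_lit 9) 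
(.lf (nat_lit 544163) (.g (nat_lit 1218) (.e (nat_lit 98382) (nat_lit 31) (.e (nat_lit 466954) (nat_lit 11) (.e (nat_lit 335994) (nat_lit 1) (.e (nat_lit 57688) (nat_lit 156) .nil)))) (.g (nat_lit 0) (.e (nat_lit 276188) (nat_lit 0) .nil) .nil))) 
(.lf (nat_lit 544675) (.g (nat_lit 1167) (.e (nat_lit 122624) (nat_lit 5) (.e (nat_lit 221194) (nat_lit 11) (.e (nat_lit 336074) (nat_lit 9) (.e (nat_lit 336428) (nat_lit 29) (.e (nat_lit 450304) (nat_lit 5) .nil))))) (.g (nat_lit 0) (.e (nat_lit 277513) (nat_lit 0) .nil) .nil)))))) (.nd (nat_lit 7) (.nd (nat_lit 8) (.nd (nat_lit 9) 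
(.lf (nat_lit 543843) (.g (nat_lit 1733) (.e (nat_lit 98368) (nat_lit 27) (.e (nat_lit 434248) (nat_lit 28) (.e (nat_lit 573489) (nat_lit 14) (.e (nat_lit 73754) (nat_lit 8) .nil)))) (.g (nat_lit 0) (.e (nat_lit 275776) (nat_lit 0) .nil) .nil))) 
(.lf (nat_lit 544355) (.g (nat_lit 2949) (.e (nat_lit 98386) (nat_lit 32) (.e (nat_lit 475179) (nat_lit 24) (.e (nat_lit 516115) (nat_lit 1) (.e (nat_lit 164327) (nat_lit 230) (.e (nat_lit 163875) (nat_lit 3) .nil))))) (.g (nat_lit 0) (.e (nat_lit 276400) (nat_lit 0) .nil) .nil)))) (.nd (nat_lit 9) 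
(.lf (nat_lit 544099) (.g (nat_lit 1979) (.e (nat_lit 98381) (nat_lit 31) (.e (nat_lit 466947) (nat_lit 0) (.e (nat_lit 1800) (nat_lit 119) (.e (nat_lit 516124) (nat_lit 2) (.e (nat_lit 213030) (nat_lit 11) (.e (nat_lit 24609) (nat_lit 3) .nil)))))) (.g (nat_lit 1) (.e (nat_lit 276121) (nat_lit 0) .nil) .nil))) 
(.lf (nat_lit 544611) (.g (nat_lit 1401) (.e (nat_lit 106535) (nat_lit 11) (.e (nat_lit 16416) (nat_lit 3) (.e (nat_lit 204861) (nat_lit 26) (.e (nat_lit 336194) (nat_lit 12) .nil)))) (.g (nat_lit 0) (.e (nat_lit 277232) (nat_lit 0) .nil) .nil))))) (.nd (nat_lit 8) (.nd (nat_lit 9) 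
(.lf (nat_lit 543971) (.g (nat_lit 4025) (.e (nat_lit 98373) (nat_lit 29) (.e (nat_lit 450587) (nat_lit 10) (.e (nat_lit 573475) (nat_lit 12) (.e (nat_lit 57574) (nat_lit 55) (.e (nat_lit 778465) (nat_lit 11) (.e (nat_lit 24606) (nat_lit 3) .nil)))))) (.g (nat_lit 1) (.e (nat_lit 275950) (nat_lit 0) .nil) .nil))) 
(.lf (nat_lit 544483) (.g (nat_lit 1691) (.e (nat_lit 114432) (nat_lit 6) (.e (nat_lit 188444) (nat_lit 21) (.e (nat_lit 164347) (nat_lit 240) (.e (nat_lit 2648) (nat_lit 166) (.e (nat_lit 196352) (nat_lit 4) .nil))))) (.g (nat_lit 0) (.e (nat_lit 276935) (nat_lit 0) .nil) .nil)))) (.nd (nat_lit 9) 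
(.lf (nat_lit 544227) (.g (nat_lit 2447) (.e (nat_lit 98384) (nat_lit 32) (.e (nat_lit 475177) (nat_lit 24) (.e (nat_lit 516179) (nat_lit 15) (.e (nat_lit 475177) (nat_lit 24) (.e (nat_lit 516148) (nat_lit 9) (.e (nat_lit 426434) (nat_lit 18) .nil)))))) (.g (nat_lit 1) (.e (nat_lit 276266) (nat_lit 0) .nil) .nil))) 
(.lf (nat_lit 544739) (.g (nat_lit 1842) (.e (nat_lit 114695) (nat_lit 11) (.e (nat_lit 426234) (nat_lit 9) (.e (nat_lit 426554) (nat_lit 32) (.e (nat_lit 376857) (nat_lit 21) (.e (nat_lit 57852) (nat_lit 252) (.e (nat_lit 57389) (nat_lit 5) .nil)))))) (.g (nat_lit 1) (.e (nat_lit 277693) (nat_lit 0) .nil) .nil)))))))) 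
(.nd (nat_lit 5) (.nd (nat_lit 6) (.nd (nat_lit 7) (.nd (nat_lit 8) (.nd (nat_lit 9) 
(.lf (nat_lit 543763) (.g (nat_lit 1586) (.e (nat_lit 98367) (nat_lit 27) (.e (nat_lit 434248) (nat_lit 28) (.e (nat_lit 573489) (nat_lit 14) (.e (nat_lit 73754) (nat_lit 8) .nil)))) (.g (nat_lit 0) (.e (nat_lit 275602) (nat_lit 0) .nil) .nil))) 
(.lf (nat_lit 544275) (.g (nat_lit 2638) (.e (nat_lit 98384) (nat_lit 32) (.e (nat_lit 475199) (nat_lit 40) (.e (nat_lit 704589) (nat_lit 3) (.e (nat_lit 163978) (nat_lit 30) (.e (nat_lit 573491) (nat_lit 15) .nil))))) (.g (nat_lit 0) (.e (nat_lit 276314) (nat_lit 0) .nil) .nil)))) (.nd (nat_lit 9) 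
(.lf (nat_lit 544019) (.g (nat_lit 3090) (.e (nat_lit 98373) (nat_lit 29) (.e (nat_lit 450588) (nat_lit 10) (.e (nat_lit 573475) (nat_lit 12) (.e (nat_lit 57351) (nat_lit 0) (.e (nat_lit 7265) (nat_lit 384) (.e (nat_lit 57406) (nat_lit 12) (.e (nat_lit 343808) (nat_lit 3) .nil))))))) (.g (nat_lit 1) (.e (nat_lit 275998) (nat_lit 0) .nil) .nil))) 
(.lf (nat_lit 544531) (.g (nat_lit 1796) (.e (nat_lit 114432) (nat_lit 6) (.e (nat_lit 188455) (nat_lit 24) (.e (nat_lit 229664) (nat_lit 240) (.e (nat_lit 2651) (nat_lit 166) (.e (nat_lit 196352) (nat_lit 4) .nil))))) (.g (nat_lit 0) (.e (nat_lit 276993) (nat_lit 0) .nil) .nil))))) (.nd (nat_lit 8) (.nd (nat_lit 9) 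
(.lf (nat_lit 543891) (.g (nat_lit 2517) (.e (nat_lit 98372) (nat_lit 29) (.e (nat_lit 450579) (nat_lit 5) (.e (nat_lit 532530) (nat_lit 9) (.e (nat_lit 336000) (nat_lit 1) (.e (nat_lit 57929) (nat_lit 282) (.e (nat_lit 171776) (nat_lit 64) .nil)))))) (.g (nat_lit 1) (.e (nat_lit 275864) (nat_lit 0) .nil) .nil))) 
(.lf (nat_lit 544403) (.g (nat_lit 1678) (.e (nat_lit 98387) (nat_lit 33) (.e (nat_lit 491566) (nat_lit 12) (.e (nat_lit 385074) (nat_lit 31) (.e (nat_lit 573482) (nat_lit 13) .nil)))) (.g (nat_lit 0) (.e (nat_lit 276457) (nat_lit 0) .nil) .nil)))) (.nd (nat_lit 9) 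
(.lf (nat_lit 544147) (.g (nat_lit 1087) (.e (nat_lit 98381) (nat_lit 31) (.e (nat_lit 466977) (nat_lit 22) (.e (nat_lit 196624) (nat_lit 9) (.e (nat_lit 1392) (nat_lit 106) .nil)))) (.g (nat_lit 0) (.e (nat_lit 276171) (nat_lit 0) .nil) .nil))) 
(.lf (nat_lit 544659) (.g (nat_lit 1350) (.e (nat_lit 122624) (nat_lit 4) (.e (nat_lit 213032) (nat_lit 11) (.e (nat_lit 24629) (nat_lit 9) (.e (nat_lit 336430) (nat_lit 29) (.e (nat_lit 450304) (nat_lit 5) .nil))))) (.g (nat_lit 0) (.e (nat_lit 277481) (nat_lit 0) .nil) .nil)))))) (.nd (nat_lit 7) (.nd (nat_lit 8) (.nd (nat_lit 9) 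
(.lf (nat_lit 543827) (.g (nat_lit 1662) (.e (nat_lit 98368) (nat_lit 27) (.e (nat_lit 434248) (nat_lit 28) (.e (nat_lit 573482) (nat_lit 13) (.e (nat_lit 65568) (nat_lit 2) .nil)))) (.g (nat_lit 0) (.e (nat_lit 275738) (nat_lit 0) .nil) .nil))) 
(.lf (nat_lit 544339) (.g (nat_lit 2396) (.e (nat_lit 98386) (nat_lit 32) (.e (nat_lit 475177) (nat_lit 24) (.e (nat_lit 516179) (nat_lit 15) (.e (nat_lit 475177) (nat_lit 24) (.e (nat_lit 516144) (nat_lit 9) (.e (nat_lit 426436) (nat_lit 18) .nil)))))) (.g (nat_lit 1) (.e (nat_lit 276384) (nat_lit 0) .nil) .nil)))) (.nd (nat_lit 9) 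
(.lf (nat_lit 544083) (.g (nat_lit 2455) (.e (nat_lit 98380) (nat_lit 31) (.e (nat_lit 466954) (nat_lit 11) (.e (nat_lit 335994) (nat_lit 1) (.e (nat_lit 57692) (nat_lit 156) (.e (nat_lit 163907) (nat_lit 12) (.e (nat_lit 426438) (nat_lit 18) .nil)))))) (.g (nat_lit 1) (.e (nat_lit 276101) (nat_lit 0) .nil) .nil))) 
(.lf (nat_lit 544595) (.g (nat_lit 504) (.e (nat_lit 106534) (nat_lit 11) (.e (nat_lit 16413) (nat_lit 2) (.e (nat_lit 196672) (nat_lit 15) (.e (nat_lit 89856) (nat_lit 0) .nil)))) (.g (nat_lit 0) (.e (nat_lit 277195) (nat_lit 0) .nil) .nil))))) (.nd (nat_lit 8) (.nd (nat_lit 9) 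
(.lf (nat_lit 543955) (.g (nat_lit 3146) (.e (nat_lit 98373) (nat_lit 29) (.e (nat_lit 450587) (nat_lit 10) (.e (nat_lit 573452) (nat_lit 9) (.e (nat_lit 395) (nat_lit 32) (.e (nat_lit 426338) (nat_lit 14) (.e (nat_lit 491540) (nat_lit 3) .nil)))))) (.g (nat_lit 1) (.e (nat_lit 275934) (nat_lit 0) .nil) .nil))) 
(.lf (nat_lit 544467) (.g (nat_lit 1254) (.e (nat_lit 114432) (nat_lit 4) (.e (nat_lit 172125) (nat_lit 14) (.e (nat_lit 491571) (nat_lit 13) (.e (nat_lit 393269) (nat_lit 23) .nil)))) (.g (nat_lit 0) (.e (nat_lit 276807) (nat_lit 0) .nil) .nil)))) (.nd (nat_lit 9) 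
(.lf (nat_lit 544211) (.g (nat_lit 2297) (.e (nat_lit 98384) (nat_lit 32) (.e (nat_lit 475177) (nat_lit 24) (.e (nat_lit 516146) (nat_lit 9) (.e (nat_lit 426428) (nat_lit 17) (.e (nat_lit 90169) (nat_lit 13) (.e (nat_lit 179968) (nat_lit 18) .nil)))))) (.g (nat_lit 1) (.e (nat_lit 276250) (nat_lit 0) .nil) .nil))) 
(.lf (nat_lit 544723) (.g (nat_lit 2227) (.e (nat_lit 114694) (nat_lit 11) (.e (nat_lit 426200) (nat_lit 9) (.e (nat_lit 426555) (nat_lit 32) (.e (nat_lit 376857) (nat_lit 21) (.e (nat_lit 57854) (nat_lit 252) .nil))))) (.g (nat_lit 0) (.e (nat_lit 277656) (nat_lit 0) .nil) .nil))))))) (.nd (nat_lit 6) (.nd (nat_lit 7) (.nd (nat_lit 8) (.nd (nat_lit 9) 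
(.lf (nat_lit 543795) (.g (nat_lit 1876) (.e (nat_lit 98368) (nat_lit 27) (.e (nat_lit 434245) (nat_lit 28) (.e (nat_lit 573488) (nat_lit 14) (.e (nat_lit 73755) (nat_lit 8) (.e (nat_lit 557089) (nat_lit 12) .nil))))) (.g (nat_lit 0) (.e (nat_lit 275660) (nat_lit 0) .nil) .nil))) 
(.lf (nat_lit 544307) (.g (nat_lit 2313) (.e (nat_lit 98385) (nat_lit 32) (.e (nat_lit 475179) (nat_lit 24) (.e (nat_lit 516117) (nat_lit 1) (.e (nat_lit 164305) (nat_lit 226) .nil)))) (.g (nat_lit 0) (.e (nat_lit 276351) (nat_lit 0) .nil) .nil)))) (.nd (nat_lit 9) 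
(.lf (nat_lit 544051) (.g (nat_lit 2872) (.e (nat_lit 98378) (nat_lit 30) (.e (nat_lit 458789) (nat_lit 23) (.e (nat_lit 532515) (nat_lit 3) (.e (nat_lit 114719) (nat_lit 23) (.e (nat_lit 98334) (nat_lit 18) .nil))))) (.g (nat_lit 0) (.e (nat_lit 276063) (nat_lit 0) .nil) .nil))) 
(.lf (nat_lit 544563) (.g (nat_lit 1539) (.e (nat_lit 106509) (nat_lit 9) (.e (nat_lit 492) (nat_lit 39) (.e (nat_lit 483365) (nat_lit 18) (.e (nat_lit 57847) (nat_lit 252) (.e (nat_lit 57365) (nat_lit 1) .nil))))) (.g (nat_lit 0) (.e (nat_lit 277051) (nat_lit 0) .nil) .nil))))) (.nd (nat_lit 8) (.nd (nat_lit 9) 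
(.lf (nat_lit 543923) (.g (nat_lit 3362) (.e (nat_lit 98372) (nat_lit 29) (.e (nat_lit 450586) (nat_lit 10) (.e (nat_lit 573475) (nat_lit 12) (.e (nat_lit 57574) (nat_lit 55) (.e (nat_lit 778466) (nat_lit 11) (.e (nat_lit 32512) (nat_lit 3) .nil)))))) (.g (nat_lit 1) (.e (nat_lit 275896) (nat_lit 0) .nil) .nil))) 
(.lf (nat_lit 544435) (.g (nat_lit 1544) (.e (nat_lit 114432) (nat_lit 3) (.e (nat_lit 163975) (nat_lit 30) (.e (nat_lit 573491) (nat_lit 15) (.e (nat_lit 81954) (nat_lit 23) (.e (nat_lit 98357) (nat_lit 26) .nil))))) (.g (nat_lit 0) (.e (nat_lit 276711) (nat_lit 0) .nil) .nil)))) (.nd (nat_lit 9) 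
(.lf (nat_lit 544179) (.g (nat_lit 2781) (.e (nat_lit 98383) (nat_lit 32) (.e (nat_lit 475179) (nat_lit 24) (.e (nat_lit 516115) (nat_lit 1) (.e (nat_lit 164325) (nat_lit 230) (.e (nat_lit 163875) (nat_lit 3) .nil))))) (.g (nat_lit 0) (.e (nat_lit 276213) (nat_lit 0) .nil) .nil))) 
(.lf (nat_lit 544691) (.g (nat_lit 1547) (.e (nat_lit 122624) (nat_lit 5) (.e (nat_lit 221194) (nat_lit 11) (.e (nat_lit 336088) (nat_lit 9) (.e (nat_lit 336441) (nat_lit 32) (.e (nat_lit 474880) (nat_lit 5) .nil))))) (.g (nat_lit 0) (.e (nat_lit 277529) (nat_lit 0) .nil) .nil)))))) (.nd (nat_lit 7) (.nd (nat_lit 8) (.nd (nat_lit 9) 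
(.lf (nat_lit 543859) (.g (nat_lit 3409) (.e (nat_lit 98368) (nat_lit 27) (.e (nat_lit 434248) (nat_lit 28) (.e (nat_lit 573489) (nat_lit 14) (.e (nat_lit 73755) (nat_lit 8) (.e (nat_lit 557091) (nat_lit 12) (.e (nat_lit 163856) (nat_lit 0) (.e (nat_lit 5949) (nat_lit 322) (.e (nat_lit 57378) (nat_lit 3) .nil)))))))) (.g (nat_lit 1) (.e (nat_lit 275803) (nat_lit 0) .nil) .nil))) 
(.lf (nat_lit 544371) (.g (nat_lit 1635) (.e (nat_lit 98386) (nat_lit 32) (.e (nat_lit 475179) (nat_lit 24) (.e (nat_lit 516145) (nat_lit 9) (.e (nat_lit 426438) (nat_lit 18) .nil)))) (.g (nat_lit 0) (.e (nat_lit 276417) (nat_lit 0) .nil) .nil)))) (.nd (nat_lit 9) 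
(.lf (nat_lit 544115) (.g (nat_lit 2678) (.e (nat_lit 98381) (nat_lit 31) (.e (nat_lit 466954) (nat_lit 11) (.e (nat_lit 335987) (nat_lit 1) (.e (nat_lit 57692) (nat_lit 156) (.e (nat_lit 163907) (nat_lit 12) (.e (nat_lit 426438) (nat_lit 18) .nil)))))) (.g (nat_lit 1) (.e (nat_lit 276137) (nat_lit 0) .nil) .nil))) 
(.lf (nat_lit 544627) (.g (nat_lit 1546) (.e (nat_lit 122624) (nat_lit 2) (.e (nat_lit 196656) (nat_lit 11) (.e (nat_lit 16435) (nat_lit 9) (.e (nat_lit 426566) (nat_lit 34) (.e (nat_lit 401152) (nat_lit 3) .nil))))) (.g (nat_lit 0) (.e (nat_lit 277380) (nat_lit 0) .nil) .nil))))) (.nd (nat_lit 8) (.nd (nat_lit 9) 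
(.lf (nat_lit 543987) (.g (nat_lit 3529) (.e (nat_lit 98373) (nat_lit 29) (.e (nat_lit 450587) (nat_lit 10) (.e (nat_lit 573478) (nat_lit 12) (.e (nat_lit 57574) (nat_lit 55) (.e (nat_lit 778466) (nat_lit 11) (.e (nat_lit 32512) (nat_lit 3) .nil)))))) (.g (nat_lit 1) (.e (nat_lit 275966) (nat_lit 0) .nil) .nil))) 
(.lf (nat_lit 544499) (.g (nat_lit 1385) (.e (nat_lit 114432) (nat_lit 6) (.e (nat_lit 188453) (nat_lit 24) (.e (nat_lit 229664) (nat_lit 240) (.e (nat_lit 2651) (nat_lit 166) (.e (nat_lit 196352) (nat_lit 4) .nil))))) (.g (nat_lit 0) (.e (nat_lit 276953) (nat_lit 0) .nil) .nil)))) (.nd (nat_lit 9) 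
(.lf (nat_lit 544243) (.g (nat_lit 3534) (.e (nat_lit 98384) (nat_lit 32) (.e (nat_lit 475179) (nat_lit 24) (.e (nat_lit 516115) (nat_lit 1) (.e (nat_lit 164325) (nat_lit 230) (.e (nat_lit 163844) (nat_lit 0) (.e (nat_lit 3248) (nat_lit 197) (.e (nat_lit 532515) (nat_lit 3) (.e (nat_lit 114719) (nat_lit 23) .nil)))))))) (.g (nat_lit 1) (.e (nat_lit 276282) (nat_lit 0) .nil) .nil))) 
(.lf (nat_lit 544755) (.g (nat_lit 369) (.e (nat_lit 114696) (nat_lit 11) (.e (nat_lit 426129) (nat_lit 3) (.e (nat_lit 204861) (nat_lit 26) .nil))) (.g (nat_lit 0) (.e (nat_lit 277720) (nat_lit 0) .nil) .nil))))))))) (.nd (nat_lit 4) (.nd (nat_lit 5) (.nd (nat_lit 6) (.nd (nat_lit 7) (.nd (nat_lit 8) (.nd (nat_lit 9) 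
(.lf (nat_lit 543755) (.g (nat_lit 1478) (.e (nat_lit 98367) (nat_lit 27) (.e (nat_lit 434248) (nat_lit 28) (.e (nat_lit 573487) (nat_lit 14) (.e (nat_lit 73753) (nat_lit 8) .nil)))) (.g (nat_lit 0) (.e (nat_lit 275594) (nat_lit 0) .nil) .nil))) 
(.lf (nat_lit 544267) (.g (nat_lit 2918) (.e (nat_lit 98384) (nat_lit 32) (.e (nat_lit 475179) (nat_lit 24) (.e (nat_lit 516179) (nat_lit 15) (.e (nat_lit 475177) (nat_lit 24) (.e (nat_lit 516147) (nat_lit 9) (.e (nat_lit 426436) (nat_lit 18) .nil)))))) (.g (nat_lit 1) (.e (nat_lit 276306) (nat_lit 0) .nil) .nil)))) (.nd (nat_lit 9) 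
(.lf (nat_lit 544011) (.g (nat_lit 3111) (.e (nat_lit 98373) (nat_lit 29) (.e (nat_lit 450588) (nat_lit 10) (.e (nat_lit 573475) (nat_lit 12) (.e (nat_lit 57347) (nat_lit 0) (.e (nat_lit 7261) (nat_lit 384) (.e (nat_lit 57406) (nat_lit 12) (.e (nat_lit 343808) (nat_lit 3) .nil))))))) (.g (nat_lit 1) (.e (nat_lit 275990) (nat_lit 0) .nil) .nil))) 
(.lf (nat_lit 544523) (.g (nat_lit 2362) (.e (nat_lit 114432) (nat_lit 6) (.e (nat_lit 188455) (nat_lit 24) (.e (nat_lit 229663) (nat_lit 240) (.e (nat_lit 2431) (nat_lit 157) (.e (nat_lit 3044) (nat_lit 189) .nil))))) (.g (nat_lit 0) (.e (nat_lit 276980) (nat_lit 0) .nil) .nil))))) (.nd (nat_lit 8) (.nd (nat_lit 9) 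
(.lf (nat_lit 543883) (.g (nat_lit 1664) (.e (nat_lit 98372) (nat_lit 29) (.e (nat_lit 450568) (nat_lit 0) (.e (nat_lit 3978) (nat_lit 239) (.e (nat_lit 2638) (nat_lit 165) (.e (nat_lit 188160) (nat_lit 32) (.e (nat_lit 1256) (nat_lit 92) .nil)))))) (.g (nat_lit 1) (.e (nat_lit 275856) (nat_lit 0) .nil) .nil))) 
(.lf (nat_lit 544395) (.g (nat_lit 3151) (.e (nat_lit 98387) (nat_lit 33) (.e (nat_lit 491548) (nat_lit 9) (.e (nat_lit 336306) (nat_lit 15) (.e (nat_lit 3308) (nat_lit 202) (.e (nat_lit 573482) (nat_lit 13) (.e (nat_lit 65604) (nat_lit 9) (.e (nat_lit 336028) (nat_lit 3) .nil))))))) (.g (nat_lit 1) (.e (nat_lit 276447) (nat_lit 0) .nil) .nil)))) (.nd (nat_lit 9) 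
(.lf (nat_lit 544139) (.g (nat_lit 3275) (.e (nat_lit 98381) (nat_lit 31) (.e (nat_lit 466954) (nat_lit 11) (.e (nat_lit 335996) (nat_lit 1) (.e (nat_lit 57691) (nat_lit 156) (.e (nat_lit 163907) (nat_lit 12) (.e (nat_lit 426438) (nat_lit 18) .nil)))))) (.g (nat_lit 1) (.e (nat_lit 276161) (nat_lit 0) .nil) .nil))) 
(.lf (nat_lit 544651) (.g (nat_lit 952) (.e (nat_lit 122624) (nat_lit 4) (.e (nat_lit 213032) (nat_lit 11) (.e (nat_lit 24623) (nat_lit 9) .nil))) (.g (nat_lit 0) (.e (nat_lit 277459) (nat_lit 0) .nil) .nil)))))) (.nd (nat_lit 7) (.nd (nat_lit 8) (.nd (nat_lit 9) 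
(.lf (nat_lit 543819) (.g (nat_lit 3292) (.e (nat_lit 98368) (nat_lit 27) (.e (nat_lit 434247) (nat_lit 28) (.e (nat_lit 573489) (nat_lit 14) (.e (nat_lit 73755) (nat_lit 8) (.e (nat_lit 557090) (nat_lit 12) (.e (nat_lit 163843) (nat_lit 0) (.e (nat_lit 5942) (nat_lit 322) (.e (nat_lit 57378) (nat_lit 3) .nil)))))))) (.g (nat_lit 1) (.e (nat_lit 275717) (nat_lit 0) .nil) .nil))) 
(.lf (nat_lit 544331) (.g (nat_lit 2071) (.e (nat_lit 98386) (nat_lit 32) (.e (nat_lit 475177) (nat_lit 24) (.e (nat_lit 516150) (nat_lit 9) (.e (nat_lit 426428) (nat_lit 17) (.e (nat_lit 90125) (nat_lit 9) (.e (nat_lit 2900) (nat_lit 184) (.e (nat_lit 426435) (nat_lit 18) .nil))))))) (.g (nat_lit 1) (.e (nat_lit 276376) (nat_lit 0) .nil) .nil)))) (.nd (nat_lit 9) 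
(.lf (nat_lit 544075) (.g (nat_lit 3505) (.e (nat_lit 98380) (nat_lit 31) (.e (nat_lit 466954) (nat_lit 11) (.e (nat_lit 335986) (nat_lit 1) (.e (nat_lit 57687) (nat_lit 156) (.e (nat_lit 163903) (nat_lit 12) (.e (nat_lit 426438) (nat_lit 18) .nil)))))) (.g (nat_lit 1) (.e (nat_lit 276093) (nat_lit 0) .nil) .nil))) 
(.lf (nat_lit 544587) (.g (nat_lit 1212) (.e (nat_lit 106534) (nat_lit 11) (.e (nat_lit 16412) (nat_lit 2) (.e (nat_lit 196672) (nat_lit 15) (.e (nat_lit 81943) (nat_lit 20) (.e (nat_lit 7936) (nat_lit 126) .nil))))) (.g (nat_lit 0) (.e (nat_lit 277183) (nat_lit 0) .nil) .nil))))) (.nd (nat_lit 8) (.nd (nat_lit 9) 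
(.lf (nat_lit 543947) (.g (nat_lit 254) (.e (nat_lit 98373) (nat_lit 29) (.e (nat_lit 450585) (nat_lit 10) (.e (nat_lit 573449) (nat_lit 9) .nil))) (.g (nat_lit 0) (.e (nat_lit 275926) (nat_lit 0) .nil) .nil))) 
(.lf (nat_lit 544459) (.g (nat_lit 3352) (.e (nat_lit 114432) (nat_lit 3) (.e (nat_lit 163979) (nat_lit 30) (.e (nat_lit 573493) (nat_lit 15) (.e (nat_lit 81956) (nat_lit 23) (.e (nat_lit 98358) (nat_lit 26) .nil))))) (.g (nat_lit 0) (.e (nat_lit 276759) (nat_lit 0) .nil) .nil)))) (.nd (nat_lit 9) 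
(.lf (nat_lit 544203) (.g (nat_lit 3257) (.e (nat_lit 98384) (nat_lit 32) (.e (nat_lit 475177) (nat_lit 24) (.e (nat_lit 516120) (nat_lit 1) (.e (nat_lit 164332) (nat_lit 230) (.e (nat_lit 163874) (nat_lit 3) (.e (nat_lit 204837) (nat_lit 20) (.e (nat_lit 114719) (nat_lit 23) .nil))))))) (.g (nat_lit 1) (.e (nat_lit 276242) (nat_lit 0) .nil) .nil))) 
(.lf (nat_lit 544715) (.g (nat_lit 3351) (.e (nat_lit 114694) (nat_lit 11) (.e (nat_lit 426139) (nat_lit 3) (.e (nat_lit 204861) (nat_lit 26) (.e (nat_lit 336194) (nat_lit 12) (.e (nat_lit 385068) (nat_lit 26) (.e (nat_lit 532513) (nat_lit 3) .nil)))))) (.g (nat_lit 1) (.e (nat_lit 277586) (nat_lit 0) .nil) .nil))))))) (.nd (nat_lit 6) (.nd (nat_lit 7) (.nd (nat_lit 8) (.nd (nat_lit 9) 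
(.lf (nat_lit 543787) (.g (nat_lit 334) (.e (nat_lit 98368) (nat_lit 27) (.e (nat_lit 434245) (nat_lit 28) (.e (nat_lit 573481) (nat_lit 13) .nil))) (.g (nat_lit 0) (.e (nat_lit 275636) (nat_lit 0) .nil) .nil))) 
(.lf (nat_lit 544299) (.g (nat_lit 2050) (.e (nat_lit 98385) (nat_lit 32) (.e (nat_lit 475177) (nat_lit 24) (.e (nat_lit 516180) (nat_lit 15) (.e (nat_lit 475177) (nat_lit 24) (.e (nat_lit 516150) (nat_lit 9) (.e (nat_lit 426438) (nat_lit 18) .nil)))))) (.g (nat_lit 1) (.e (nat_lit 276342) (nat_lit 0) .nil) .nil)))) (.nd (nat_lit 9) 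
(.lf (nat_lit 544043) (.g (nat_lit 2837) (.e (nat_lit 98377) (nat_lit 30) (.e (nat_lit 458789) (nat_lit 23) (.e (nat_lit 532499) (nat_lit 1) (.e (nat_lit 57688) (nat_lit 156) (.e (nat_lit 163875) (nat_lit 3) .nil))))) (.g (nat_lit 0) (.e (nat_lit 276047) (nat_lit 0) .nil) .nil))) 
(.lf (nat_lit 544555) (.g (nat_lit 381) (.e (nat_lit 114432) (nat_lit 6) (.e (nat_lit 188455) (nat_lit 24) (.e (nat_lit 229681) (nat_lit 244) .nil))) (.g (nat_lit 0) (.e (nat_lit 277017) (nat_lit 0) .nil) .nil))))) (.nd (nat_lit 8) (.nd (nat_lit 9) 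
(.lf (nat_lit 543915) (.g (nat_lit 2464) (.e (nat_lit 98372) (nat_lit 29) (.e (nat_lit 450586) (nat_lit 10) (.e (nat_lit 573471) (nat_lit 11) (.e (nat_lit 16384) (nat_lit 0) (.e (nat_lit 7936) (nat_lit 402) .nil))))) (.g (nat_lit 0) (.e (nat_lit 275888) (nat_lit 0) .nil) .nil))) 
(.lf (nat_lit 544427) (.g (nat_lit 979) (.e (nat_lit 98389) (nat_lit 33) (.e (nat_lit 491560) (nat_lit 10) (.e (nat_lit 344109) (nat_lit 19) (.e (nat_lit 499910) (nat_lit 8) (.e (nat_lit 171776) (nat_lit 194) .nil))))) (.g (nat_lit 0) (.e (nat_lit 276484) (nat_lit 0) .nil) .nil)))) (.nd (nat_lit 9) 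
(.lf (nat_lit 544171) (.g (nat_lit 1661) (.e (nat_lit 98382) (nat_lit 31) (.e (nat_lit 466977) (nat_lit 22) (.e (nat_lit 196681) (nat_lit 17) (.e (nat_lit 131089) (nat_lit 1) (.e (nat_lit 57929) (nat_lit 282) (.e (nat_lit 171776) (nat_lit 64) .nil)))))) (.g (nat_lit 1) (.e (nat_lit 276196) (nat_lit 0) .nil) .nil))) 
(.lf (nat_lit 544683) (.g (nat_lit 1378) (.e (nat_lit 122624) (nat_lit 5) (.e (nat_lit 221194) (nat_lit 11) (.e (nat_lit 336087) (nat_lit 9) (.e (nat_lit 336428) (nat_lit 29) (.e (nat_lit 450304) (nat_lit 5) .nil))))) (.g (nat_lit 0) (.e (nat_lit 277521) (nat_lit 0) .nil) .nil)))))) (.nd (nat_lit 7) (.nd (nat_lit 8) (.nd (nat_lit 9) 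
(.lf (nat_lit 543851) (.g (nat_lit 4446) (.e (nat_lit 98368) (nat_lit 27) (.e (nat_lit 434248) (nat_lit 28) (.e (nat_lit 573489) (nat_lit 14) (.e (nat_lit 73755) (nat_lit 8) (.e (nat_lit 557067) (nat_lit 9) (.e (nat_lit 2604) (nat_lit 163) (.e (nat_lit 164398) (nat_lit 256) (.e (nat_lit 57378) (nat_lit 3) .nil)))))))) (.g (nat_lit 1) (.e (nat_lit 275785) (nat_lit 0) .nil) .nil))) 
(.lf (nat_lit 544363) (.g (nat_lit 2909) (.e (nat_lit 98386) (nat_lit 32) (.e (nat_lit 475179) (nat_lit 24) (.e (nat_lit 516119) (nat_lit 1) (.e (nat_lit 164327) (nat_lit 230) (.e (nat_lit 163875) (nat_lit 3) .nil))))) (.g (nat_lit 0) (.e (nat_lit 276408) (nat_lit 0) .nil) .nil)))) (.nd (nat_lit 9) 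
(.lf (nat_lit 544107) (.g (nat_lit 3570) (.e (nat_lit 98381) (nat_lit 31) (.e (nat_lit 466954) (nat_lit 11) (.e (nat_lit 335986) (nat_lit 1) (.e (nat_lit 57687) (nat_lit 156) (.e (nat_lit 163903) (nat_lit 12) (.e (nat_lit 426438) (nat_lit 18) .nil)))))) (.g (nat_lit 1) (.e (nat_lit 276129) (nat_lit 0) .nil) .nil))) 
(.lf (nat_lit 544619) (.g (nat_lit 793) (.e (nat_lit 106536) (nat_lit 11) (.e (nat_lit 16412) (nat_lit 2) (.e (nat_lit 196672) (nat_lit 15) (.e (nat_lit 89856) (nat_lit 0) .nil)))) (.g (nat_lit 0) (.e (nat_lit 277248) (nat_lit 0) .nil) .nil))))) (.nd (nat_lit 8) (.nd (nat_lit 9) 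
(.lf (nat_lit 543979) (.g (nat_lit 3821) (.e (nat_lit 98373) (nat_lit 29) (.e (nat_lit 450587) (nat_lit 10) (.e (nat_lit 573477) (nat_lit 12) (.e (nat_lit 57574) (nat_lit 55) (.e (nat_lit 778466) (nat_lit 11) (.e (nat_lit 32512) (nat_lit 3) .nil)))))) (.g (nat_lit 1) (.e (nat_lit 275958) (nat_lit 0) .nil) .nil))) 
(.lf (nat_lit 544491) (.g (nat_lit 2590) (.e (nat_lit 114432) (nat_lit 6) (.e (nat_lit 188452) (nat_lit 23) (.e (nat_lit 204809) (nat_lit 9) (.e (nat_lit 426107) (nat_lit 1) (.e (nat_lit 164319) (nat_lit 228) .nil))))) (.g (nat_lit 0) (.e (nat_lit 276944) (nat_lit 0) .nil) .nil)))) (.nd (nat_lit 9) 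
(.lf (nat_lit 544235) (.g (nat_lit 1948) (.e (nat_lit 98384) (nat_lit 32) (.e (nat_lit 475177) (nat_lit 24) (.e (nat_lit 516180) (nat_lit 15) (.e (nat_lit 475177) (nat_lit 24) (.e (nat_lit 516148) (nat_lit 9) (.e (nat_lit 426438) (nat_lit 18) .nil)))))) (.g (nat_lit 1) (.e (nat_lit 276274) (nat_lit 0) .nil) .nil))) 
(.lf (nat_lit 544747) (.g (nat_lit 1749) (.e (nat_lit 114695) (nat_lit 11) (.e (nat_lit 426262) (nat_lit 9) (.e (nat_lit 426554) (nat_lit 32) (.e (nat_lit 376857) (nat_lit 21) (.e (nat_lit 57847) (nat_lit 252) (.e (nat_lit 57390) (nat_lit 5) .nil)))))) (.g (nat_lit 1) (.e (nat_lit 277701) (nat_lit 0) .nil) .nil)))))))) 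
(.nd (nat_lit 5) (.nd (nat_lit 6) (.nd (nat_lit 7) (.nd (nat_lit 8) (.nd (nat_lit 9) 
(.lf (nat_lit 543771) (.g (nat_lit 3611) (.e (nat_lit 98367) (nat_lit 27) (.e (nat_lit 434248) (nat_lit 28) (.e (nat_lit 573489) (nat_lit 14) (.e (nat_lit 73755) (nat_lit 8) (.e (nat_lit 557090) (nat_lit 12) (.e (nat_lit 163841) (nat_lit 0) (.e (nat_lit 5943) (nat_lit 322) (.e (nat_lit 57379) (nat_lit 3) .nil)))))))) (.g (nat_lit 1) (.e (nat_lit 275610) (nat_lit 0) .nil) .nil))) 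
(.lf (nat_lit 544283) (.g (nat_lit 1056) (.e (nat_lit 98385) (nat_lit 32) (.e (nat_lit 475177) (nat_lit 24) (.e (nat_lit 516150) (nat_lit 9) (.e (nat_lit 426428) (nat_lit 17) .nil)))) (.g (nat_lit 0) (.e (nat_lit 276322) (nat_lit 0) .nil) .nil)))) (.nd (nat_lit 9) 
(.lf (nat_lit 544027) (.g (nat_lit 2619) (.e (nat_lit 98374) (nat_lit 29) (.e (nat_lit 450586) (nat_lit 10) (.e (nat_lit 573477) (nat_lit 12) (.e (nat_lit 57574) (nat_lit 55) (.e (nat_lit 778466) (nat_lit 11) (.e (nat_lit 24607) (nat_lit 3) .nil)))))) (.g (nat_lit 1) (.e (nat_lit 276007) (nat_lit 0) .nil) .nil))) 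
(.lf (nat_lit 544539) (.g (nat_lit 531) (.e (nat_lit 114432) (nat_lit 6) (.e (nat_lit 188455) (nat_lit 24) (.e (nat_lit 229677) (nat_lit 244) .nil))) (.g (nat_lit 0) (.e (nat_lit 277001) (nat_lit 0) .nil) .nil))))) (.nd (nat_lit 8) (.nd (nat_lit 9) 
(.lf (nat_lit 543899) (.g (nat_lit 2926) (.e (nat_lit 98372) (nat_lit 29) (.e (nat_lit 450579) (nat_lit 5) (.e (nat_lit 532534) (nat_lit 9) (.e (nat_lit 336000) (nat_lit 1) (.e (nat_lit 57926) (nat_lit 282) (.e (nat_lit 171776) (nat_lit 64) .nil)))))) (.g (nat_lit 1) (.e (nat_lit 275872) (nat_lit 0) .nil) .nil))) 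
(.lf (nat_lit 544411) (.g (nat_lit 4174) (.e (nat_lit 98388) (nat_lit 33) (.e (nat_lit 491550) (nat_lit 9) (.e (nat_lit 336306) (nat_lit 15) (.e (nat_lit 3307) (nat_lit 202) (.e (nat_lit 573493) (nat_lit 15) (.e (nat_lit 81956) (nat_lit 23) .nil)))))) (.g (nat_lit 1) (.e (nat_lit 276466) (nat_lit 0) .nil) .nil)))) (.nd (nat_lit 9) 
(.lf (nat_lit 544155) (.g (nat_lit 1279) (.e (nat_lit 98381) (nat_lit 31) (.e (nat_lit 466980) (nat_lit 23) (.e (nat_lit 204846) (nat_lit 24) (.e (nat_lit 319530) (nat_lit 16) .nil)))) (.g (nat_lit 0) (.e (nat_lit 276179) (nat_lit 0) .nil) .nil))) 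
(.lf (nat_lit 544667) (.g (nat_lit 1967) (.e (nat_lit 122624) (nat_lit 4) (.e (nat_lit 213032) (nat_lit 11) (.e (nat_lit 24655) (nat_lit 13) (.e (nat_lit 393275) (nat_lit 23) .nil)))) (.g (nat_lit 0) (.e (nat_lit 277495) (nat_lit 0) .nil) .nil)))))) (.nd (nat_lit 7) (.nd (nat_lit 8) (.nd (nat_lit 9) 
(.lf (nat_lit 543835) (.g (nat_lit 2600) (.e (nat_lit 98368) (nat_lit 27) (.e (nat_lit 434248) (nat_lit 28) (.e (nat_lit 573487) (nat_lit 14) (.e (nat_lit 73746) (nat_lit 3) (.e (nat_lit 516119) (nat_lit 1) .nil))))) (.g (nat_lit 0) (.e (nat_lit 275756) (nat_lit 0) .nil) .nil))) 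
(.lf (nat_lit 544347) (.g (nat_lit 2953) (.e (nat_lit 98386) (nat_lit 32) (.e (nat_lit 475177) (nat_lit 24) (.e (nat_lit 516181) (nat_lit 15) (.e (nat_lit 475177) (nat_lit 24) (.e (nat_lit 516147) (nat_lit 9) (.e (nat_lit 426436) (nat_lit 18) .nil)))))) (.g (nat_lit 1) (.e (nat_lit 276392) (nat_lit 0) .nil) .nil)))) (.nd (nat_lit 9) 
(.lf (nat_lit 544091) (.g (nat_lit 2923) (.e (nat_lit 98380) (nat_lit 31) (.e (nat_lit 466954) (nat_lit 11) (.e (nat_lit 335995) (nat_lit 1) (.e (nat_lit 57691) (nat_lit 156) (.e (nat_lit 163907) (nat_lit 12) (.e (nat_lit 426436) (nat_lit 18) .nil)))))) (.g (nat_lit 1) (.e (nat_lit 276109) (nat_lit 0) .nil) .nil))) 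
(.lf (nat_lit 544603) (.g (nat_lit 448) (.e (nat_lit 106534) (nat_lit 11) (.e (nat_lit 16416) (nat_lit 3) (.e (nat_lit 204866) (nat_lit 28) .nil))) (.g (nat_lit 0) (.e (nat_lit 277205) (nat_lit 0) .nil) .nil))))) (.nd (nat_lit 8) (.nd (nat_lit 9) 
(.lf (nat_lit 543963) (.g (nat_lit 2272) (.e (nat_lit 98373) (nat_lit 29) (.e (nat_lit 450587) (nat_lit 10) (.e (nat_lit 573473) (nat_lit 12) (.e (nat_lit 57575) (nat_lit 55) (.e (nat_lit 778465) (nat_lit 11) .nil))))) (.g (nat_lit 0) (.e (nat_lit 275942) (nat_lit 0) .nil) .nil))) 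
(.lf (nat_lit 544475) (.g (nat_lit 1320) (.e (nat_lit 114432) (nat_lit 6) (.e (nat_lit 188420) (nat_lit 0) (.e (nat_lit 2174) (nat_lit 143) (.e (nat_lit 712750) (nat_lit 29) (.e (nat_lit 450304) (nat_lit 4) .nil))))) (.g (nat_lit 0) (.e (nat_lit 276915) (nat_lit 0) .nil) .nil)))) (.nd (nat_lit 9) 
(.lf (nat_lit 544219) (.g (nat_lit 2137) (.e (nat_lit 98384) (nat_lit 32) (.e (nat_lit 475177) (nat_lit 24) (.e (nat_lit 516150) (nat_lit 9) (.e (nat_lit 426428) (nat_lit 17) (.e (nat_lit 90168) (nat_lit 13) (.e (nat_lit 179968) (nat_lit 18) .nil)))))) (.g (nat_lit 1) (.e (nat_lit 276258) (nat_lit 0) .nil) .nil))) 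
(.lf (nat_lit 544731) (.g (nat_lit 1693) (.e (nat_lit 114695) (nat_lit 11) (.e (nat_lit 426230) (nat_lit 9) (.e (nat_lit 426554) (nat_lit 32) (.e (nat_lit 376857) (nat_lit 21) (.e (nat_lit 57847) (nat_lit 252) (.e (nat_lit 57390) (nat_lit 5) .nil)))))) (.g (nat_lit 1) (.e (nat_lit 277685) (nat_lit 0) .nil) .nil))))))) (.nd (nat_lit 6) (.nd (nat_lit 7) (.nd (nat_lit 8) (.nd (nat_lit 9) 
(.lf (nat_lit 543803) (.g (nat_lit 2332) (.e (nat_lit 98368) (nat_lit 27) (.e (nat_lit 434247) (nat_lit 28) (.e (nat_lit 573484) (nat_lit 13) (.e (nat_lit 65571) (nat_lit 3) (.e (nat_lit 98325) (nat_lit 17) .nil))))) (.g (nat_lit 0) (.e (nat_lit 275681) (nat_lit 0) .nil) .nil))) 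
(.lf (nat_lit 544315) (.g (nat_lit 4228) (.e (nat_lit 98385) (nat_lit 32) (.e (nat_lit 475198) (nat_lit 40) (.e (nat_lit 704589) (nat_lit 3) (.e (nat_lit 163979) (nat_lit 30) (.e (nat_lit 573492) (nat_lit 15) (.e (nat_lit 81956) (nat_lit 23) .nil)))))) (.g (nat_lit 1) (.e (nat_lit 276359) (nat_lit 0) .nil) .nil)))) (.nd (nat_lit 9) 
(.lf (nat_lit 544059) (.g (nat_lit 2088) (.e (nat_lit 98379) (nat_lit 31) (.e (nat_lit 466974) (nat_lit 22) (.e (nat_lit 196681) (nat_lit 17) (.e (nat_lit 131089) (nat_lit 1) (.e (nat_lit 57931) (nat_lit 282) (.e (nat_lit 171776) (nat_lit 64) .nil)))))) (.g (nat_lit 1) (.e (nat_lit 276071) (nat_lit 0) .nil) .nil))) 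
(.lf (nat_lit 544571) (.g (nat_lit 3409) (.e (nat_lit 106517) (nat_lit 9) (.e (nat_lit 1255) (nat_lit 92) (.e (nat_lit 98356) (nat_lit 26) (.e (nat_lit 426438) (nat_lit 18) (.e (nat_lit 98334) (nat_lit 18) (.e (nat_lit 164305) (nat_lit 226) (.e (nat_lit 2433) (nat_lit 157) (.e (nat_lit 2685) (nat_lit 168) (.e (nat_lit 204834) (nat_lit 19) .nil))))))))) (.g (nat_lit 1) (.e (nat_lit 277099) (nat_lit 0) .nil) .nil))))) 
(.nd (nat_lit 8) (.nd (nat_lit 9) 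
(.lf (nat_lit 543931) (.g (nat_lit 2419) (.e (nat_lit 98372) (nat_lit 29) (.e (nat_lit 450586) (nat_lit 10) (.e (nat_lit 573477) (nat_lit 12) (.e (nat_lit 57575) (nat_lit 55) (.e (nat_lit 778465) (nat_lit 11) (.e (nat_lit 32512) (nat_lit 3) .nil)))))) (.g (nat_lit 1) (.e (nat_lit 275907) (nat_lit 0) .nil) .nil))) 
(.lf (nat_lit 544443) (.g (nat_lit 3221) (.e (nat_lit 114432) (nat_lit 3) (.e (nat_lit 163977) (nat_lit 30) (.e (nat_lit 573493) (nat_lit 15) (.e (nat_lit 81956) (nat_lit 23) (.e (nat_lit 98363) (nat_lit 26) .nil))))) (.g (nat_lit 0) (.e (nat_lit 276729) (nat_lit 0) .nil) .nil)))) (.nd (nat_lit 9) 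
(.lf (nat_lit 544187) (.g (nat_lit 2542) (.e (nat_lit 98383) (nat_lit 32) (.e (nat_lit 475179) (nat_lit 24) (.e (nat_lit 516179) (nat_lit 15) (.e (nat_lit 475179) (nat_lit 24) (.e (nat_lit 516146) (nat_lit 9) (.e (nat_lit 426438) (nat_lit 18) .nil)))))) (.g (nat_lit 1) (.e (nat_lit 276223) (nat_lit 0) .nil) .nil))) 
(.lf (nat_lit 544699) (.g (nat_lit 2980) (.e (nat_lit 114694) (nat_lit 11) (.e (nat_lit 426133) (nat_lit 3) (.e (nat_lit 204861) (nat_lit 26) (.e (nat_lit 336078) (nat_lit 9) (.e (nat_lit 336324) (nat_lit 18) (.e (nat_lit 204838) (nat_lit 20) .nil)))))) (.g (nat_lit 1) (.e (nat_lit 277568) (nat_lit 0) .nil) .nil)))))) (.nd (nat_lit 7) (.nd (nat_lit 8) (.nd (nat_lit 9) 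
(.lf (nat_lit 543867) (.g (nat_lit 3276) (.e (nat_lit 98369) (nat_lit 28) (.e (nat_lit 442390) (nat_lit 11) (.e (nat_lit 335986) (nat_lit 1) (.e (nat_lit 57688) (nat_lit 156) (.e (nat_lit 163907) (nat_lit 12) (.e (nat_lit 426438) (nat_lit 18) .nil)))))) (.g (nat_lit 1) (.e (nat_lit 275820) (nat_lit 0) .nil) .nil))) 
(.lf (nat_lit 544379) (.g (nat_lit 3380) (.e (nat_lit 98386) (nat_lit 32) (.e (nat_lit 475179) (nat_lit 24) (.e (nat_lit 516179) (nat_lit 15) (.e (nat_lit 475179) (nat_lit 24) (.e (nat_lit 516146) (nat_lit 9) (.e (nat_lit 426438) (nat_lit 18) .nil)))))) (.g (nat_lit 1) (.e (nat_lit 276425) (nat_lit 0) .nil) .nil)))) (.nd (nat_lit 9) 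
(.lf (nat_lit 544123) (.g (nat_lit 2575) (.e (nat_lit 98381) (nat_lit 31) (.e (nat_lit 466954) (nat_lit 11) (.e (nat_lit 335994) (nat_lit 1) (.e (nat_lit 57686) (nat_lit 156) (.e (nat_lit 163903) (nat_lit 12) (.e (nat_lit 426438) (nat_lit 18) .nil)))))) (.g (nat_lit 1) (.e (nat_lit 276145) (nat_lit 0) .nil) .nil))) 
(.lf (nat_lit 544635) (.g (nat_lit 492) (.e (nat_lit 122624) (nat_lit 3) (.e (nat_lit 204811) (nat_lit 9) (.e (nat_lit 426262) (nat_lit 9) (.e (nat_lit 426565) (nat_lit 34) (.e (nat_lit 401152) (nat_lit 3) .nil))))) (.g (nat_lit 0) (.e (nat_lit 277414) (nat_lit 0) .nil) .nil))))) (.nd (nat_lit 8) (.nd (nat_lit 9) 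
(.lf (nat_lit 543995) (.g (nat_lit 4724) (.e (nat_lit 98373) (nat_lit 29) (.e (nat_lit 450588) (nat_lit 10) (.e (nat_lit 573451) (nat_lit 9) (.e (nat_lit 359) (nat_lit 30) (.e (nat_lit 409603) (nat_lit 0) (.e (nat_lit 5293) (nat_lit 298) (.e (nat_lit 1250) (nat_lit 92) .nil))))))) (.g (nat_lit 1) (.e (nat_lit 275974) (nat_lit 0) .nil) .nil))) 
(.lf (nat_lit 544507) (.g (nat_lit 2169) (.e (nat_lit 114432) (nat_lit 6) (.e (nat_lit 188453) (nat_lit 24) (.e (nat_lit 229678) (nat_lit 244) (.e (nat_lit 163919) (nat_lit 14) (.e (nat_lit 450304) (nat_lit 4) .nil))))) (.g (nat_lit 0) (.e (nat_lit 276961) (nat_lit 0) .nil) .nil)))) (.nd (nat_lit 9) 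
(.lf (nat_lit 544251) (.g (nat_lit 4036) (.e (nat_lit 98384) (nat_lit 32) (.e (nat_lit 475179) (nat_lit 24) (.e (nat_lit 516117) (nat_lit 1) (.e (nat_lit 164330) (nat_lit 230) (.e (nat_lit 163872) (nat_lit 3) (.e (nat_lit 204837) (nat_lit 20) (.e (nat_lit 114718) (nat_lit 23) .nil))))))) (.g (nat_lit 1) (.e (nat_lit 276290) (nat_lit 0) .nil) .nil))) 
(.lf (nat_lit 544763) (.g (nat_lit 2349) (.e (nat_lit 114696) (nat_lit 11) (.e (nat_lit 426225) (nat_lit 9) (.e (nat_lit 426555) (nat_lit 32) (.e (nat_lit 376859) (nat_lit 21) (.e (nat_lit 57849) (nat_lit 252) (.e (nat_lit 57390) (nat_lit 5) .nil)))))) (.g (nat_lit 1) (.e (nat_lit 277735) (nat_lit 0) .nil) .nil)))))))))) 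
(.nd (nat_lit 3) (.nd (nat_lit 4) (.nd (nat_lit 5) (.nd (nat_lit 6) (.nd (nat_lit 7) 
(.nd (nat_lit 8) (.nd (nat_lit 9) 
(.lf (nat_lit 543751) (.g (nat_lit 1738) (.e (nat_lit 98367) (nat_lit 27) (.e (nat_lit 434248) (nat_lit 28) (.e (nat_lit 573487) (nat_lit 14) (.e (nat_lit 73729) (nat_lit 0) .nil)))) (.g (nat_lit 0) (.e (nat_lit 275590) (nat_lit 0) .nil) .nil))) 
(.lf (nat_lit 544263) (.g (nat_lit 2869) (.e (nat_lit 98384) (nat_lit 32) (.e (nat_lit 475179) (nat_lit 24) (.e (nat_lit 516146) (nat_lit 9) (.e (nat_lit 426428) (nat_lit 17) (.e (nat_lit 90133) (nat_lit 9) .nil))))) (.g (nat_lit 0) (.e (nat_lit 276302) (nat_lit 0) .nil) .nil)))) (.nd (nat_lit 9) 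
(.lf (nat_lit 544007) (.g (nat_lit 5941) (.e (nat_lit 98373) (nat_lit 29) (.e (nat_lit 450588) (nat_lit 10) (.e (nat_lit 573473) (nat_lit 12) (.e (nat_lit 57348) (nat_lit 0) (.e (nat_lit 7265) (nat_lit 384) (.e (nat_lit 57406) (nat_lit 12) (.e (nat_lit 336018) (nat_lit 3) .nil))))))) (.g (nat_lit 1) (.e (nat_lit 275986) (nat_lit 0) .nil) .nil))) 
(.lf (nat_lit 544519) (.g (nat_lit 1190) (.e (nat_lit 114432) (nat_lit 6) (.e (nat_lit 188453) (nat_lit 24) (.e (nat_lit 229681) (nat_lit 244) (.e (nat_lit 163919) (nat_lit 14) (.e (nat_lit 450304) (nat_lit 4) .nil))))) (.g (nat_lit 0) (.e (nat_lit 276973) (nat_lit 0) .nil) .nil))))) (.nd (nat_lit 8) (.nd (nat_lit 9) 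
(.lf (nat_lit 543879) (.g (nat_lit 549) (.e (nat_lit 98370) (nat_lit 28) (.e (nat_lit 442430) (nat_lit 24) (.e (nat_lit 229535) (nat_lit 134) .nil))) (.g (nat_lit 0) (.e (nat_lit 275837) (nat_lit 0) .nil) .nil))) 
(.lf (nat_lit 544391) (.g (nat_lit 2758) (.e (nat_lit 98386) (nat_lit 32) (.e (nat_lit 475199) (nat_lit 40) (.e (nat_lit 704589) (nat_lit 3) (.e (nat_lit 163979) (nat_lit 30) (.e (nat_lit 573491) (nat_lit 15) (.e (nat_lit 89856) (nat_lit 23) .nil)))))) (.g (nat_lit 1) (.e (nat_lit 276442) (nat_lit 0) .nil) .nil)))) (.nd (nat_lit 9) 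
(.lf (nat_lit 544135) (.g (nat_lit 3300) (.e (nat_lit 98381) (nat_lit 31) (.e (nat_lit 466954) (nat_lit 11) (.e (nat_lit 335995) (nat_lit 1) (.e (nat_lit 57688) (nat_lit 156) (.e (nat_lit 163907) (nat_lit 12) (.e (nat_lit 426436) (nat_lit 18) .nil)))))) (.g (nat_lit 1) (.e (nat_lit 276157) (nat_lit 0) .nil) .nil))) 
(.lf (nat_lit 544647) (.g (nat_lit 1410) (.e (nat_lit 122624) (nat_lit 4) (.e (nat_lit 213030) (nat_lit 11) (.e (nat_lit 24659) (nat_lit 13) (.e (nat_lit 393274) (nat_lit 23) (.e (nat_lit 433920) (nat_lit 20) .nil))))) (.g (nat_lit 0) (.e (nat_lit 277453) (nat_lit 0) .nil) .nil)))))) (.nd (nat_lit 7) (.nd (nat_lit 8) (.nd (nat_lit 9) 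
(.lf (nat_lit 543815) (.g (nat_lit 1972) (.e (nat_lit 98368) (nat_lit 27) (.e (nat_lit 434247) (nat_lit 28) (.e (nat_lit 573489) (nat_lit 14) (.e (nat_lit 73755) (nat_lit 8) (.e (nat_lit 557089) (nat_lit 12) .nil))))) (.g (nat_lit 0) (.e (nat_lit 275707) (nat_lit 0) .nil) .nil))) 
(.lf (nat_lit 544327) (.g (nat_lit 2280) (.e (nat_lit 98386) (nat_lit 32) (.e (nat_lit 475177) (nat_lit 24) (.e (nat_lit 516148) (nat_lit 9) (.e (nat_lit 426428) (nat_lit 17) (.e (nat_lit 90170) (nat_lit 13) (.e (nat_lit 179968) (nat_lit 18) .nil)))))) (.g (nat_lit 1) (.e (nat_lit 276372) (nat_lit 0) .nil) .nil)))) (.nd (nat_lit 9) 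
(.lf (nat_lit 544071) (.g (nat_lit 2626) (.e (nat_lit 98380) (nat_lit 31) (.e (nat_lit 466947) (nat_lit 0) (.e (nat_lit 1800) (nat_lit 119) (.e (nat_lit 516127) (nat_lit 2) (.e (nat_lit 213032) (nat_lit 11) (.e (nat_lit 24608) (nat_lit 3) .nil)))))) (.g (nat_lit 1) (.e (nat_lit 276088) (nat_lit 0) .nil) .nil))) 
(.lf (nat_lit 544583) (.g (nat_lit 2261) (.e (nat_lit 114432) (nat_lit 9) (.e (nat_lit 1256) (nat_lit 92) (.e (nat_lit 98334) (nat_lit 18) (.e (nat_lit 164398) (nat_lit 256) (.e (nat_lit 57375) (nat_lit 2) .nil))))) (.g (nat_lit 0) (.e (nat_lit 277155) (nat_lit 0) .nil) .nil))))) (.nd (nat_lit 8) (.nd (nat_lit 9) 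
(.lf (nat_lit 543943) (.g (nat_lit 3625) (.e (nat_lit 98372) (nat_lit 29) (.e (nat_lit 450588) (nat_lit 10) (.e (nat_lit 573475) (nat_lit 12) (.e (nat_lit 57574) (nat_lit 55) (.e (nat_lit 778466) (nat_lit 11) (.e (nat_lit 32512) (nat_lit 3) .nil)))))) (.g (nat_lit 1) (.e (nat_lit 275922) (nat_lit 0) .nil) .nil))) 
(.lf (nat_lit 544455) (.g (nat_lit 3179) (.e (nat_lit 114432) (nat_lit 3) (.e (nat_lit 163979) (nat_lit 30) (.e (nat_lit 573493) (nat_lit 15) (.e (nat_lit 81954) (nat_lit 23) (.e (nat_lit 98356) (nat_lit 26) .nil))))) (.g (nat_lit 0) (.e (nat_lit 276753) (nat_lit 0) .nil) .nil)))) (.nd (nat_lit 9) 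
(.lf (nat_lit 544199) (.g (nat_lit 3649) (.e (nat_lit 98384) (nat_lit 32) (.e (nat_lit 475177) (nat_lit 24) (.e (nat_lit 516118) (nat_lit 1) (.e (nat_lit 164327) (nat_lit 230) (.e (nat_lit 163875) (nat_lit 3) (.e (nat_lit 204838) (nat_lit 20) (.e (nat_lit 114719) (nat_lit 23) .nil))))))) (.g (nat_lit 1) (.e (nat_lit 276238) (nat_lit 0) .nil) .nil))) 
(.lf (nat_lit 544711) (.g (nat_lit 2946) (.e (nat_lit 114694) (nat_lit 11) (.e (nat_lit 426139) (nat_lit 3) (.e (nat_lit 204861) (nat_lit 26) (.e (nat_lit 336078) (nat_lit 9) (.e (nat_lit 336324) (nat_lit 18) (.e (nat_lit 204838) (nat_lit 20) .nil)))))) (.g (nat_lit 1) (.e (nat_lit 277582) (nat_lit 0) .nil) .nil))))))) (.nd (nat_lit 6) (.nd (nat_lit 7) (.nd (nat_lit 8) (.nd (nat_lit 9) 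
(.lf (nat_lit 543783) (.g (nat_lit 2820) (.e (nat_lit 98367) (nat_lit 27) (.e (nat_lit 434272) (nat_lit 38) (.e (nat_lit 655375) (nat_lit 3) (.e (nat_lit 163978) (nat_lit 30) (.e (nat_lit 573483) (nat_lit 13) (.e (nat_lit 65604) (nat_lit 9) (.e (nat_lit 336028) (nat_lit 3) .nil))))))) (.g (nat_lit 1) (.e (nat_lit 275625) (nat_lit 0) .nil) .nil))) 
(.lf (nat_lit 544295) (.g (nat_lit 3042) (.e (nat_lit 98385) (nat_lit 32) (.e (nat_lit 475177) (nat_lit 24) (.e (nat_lit 516179) (nat_lit 15) (.e (nat_lit 475179) (nat_lit 24) (.e (nat_lit 516150) (nat_lit 9) (.e (nat_lit 426436) (nat_lit 18) .nil)))))) (.g (nat_lit 1) (.e (nat_lit 276337) (nat_lit 0) .nil) .nil)))) (.nd (nat_lit 9) 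
(.lf (nat_lit 544039) (.g (nat_lit 2578) (.e (nat_lit 98376) (nat_lit 30) (.e (nat_lit 458789) (nat_lit 23) (.e (nat_lit 532515) (nat_lit 3) (.e (nat_lit 114716) (nat_lit 22) (.e (nat_lit 90196) (nat_lit 18) (.e (nat_lit 2798) (nat_lit 180) (.e (nat_lit 311040) (nat_lit 18) .nil))))))) (.g (nat_lit 1) (.e (nat_lit 276039) (nat_lit 0) .nil) .nil))) 
(.lf (nat_lit 544551) (.g (nat_lit 1653) (.e (nat_lit 114432) (nat_lit 6) (.e (nat_lit 188455) (nat_lit 24) (.e (nat_lit 229680) (nat_lit 244) (.e (nat_lit 163920) (nat_lit 14) (.e (nat_lit 450304) (nat_lit 4) .nil))))) (.g (nat_lit 0) (.e (nat_lit 277013) (nat_lit 0) .nil) .nil))))) (.nd (nat_lit 8) (.nd (nat_lit 9) 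
(.lf (nat_lit 543911) (.g (nat_lit 2445) (.e (nat_lit 98372) (nat_lit 29) (.e (nat_lit 450586) (nat_lit 10) (.e (nat_lit 573452) (nat_lit 9) (.e (nat_lit 430) (nat_lit 32) (.e (nat_lit 426343) (nat_lit 14) (.e (nat_lit 491538) (nat_lit 3) .nil)))))) (.g (nat_lit 1) (.e (nat_lit 275884) (nat_lit 0) .nil) .nil))) 
(.lf (nat_lit 544423) (.g (nat_lit 4312) (.e (nat_lit 98389) (nat_lit 33) (.e (nat_lit 491556) (nat_lit 9) (.e (nat_lit 336305) (nat_lit 15) (.e (nat_lit 3307) (nat_lit 202) (.e (nat_lit 573493) (nat_lit 15) (.e (nat_lit 81956) (nat_lit 23) .nil)))))) (.g (nat_lit 1) (.e (nat_lit 276480) (nat_lit 0) .nil) .nil)))) (.nd (nat_lit 9) 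
(.lf (nat_lit 544167) (.g (nat_lit 2195) (.e (nat_lit 98382) (nat_lit 31) (.e (nat_lit 466974) (nat_lit 22) (.e (nat_lit 196681) (nat_lit 17) (.e (nat_lit 131089) (nat_lit 1) (.e (nat_lit 57930) (nat_lit 282) (.e (nat_lit 171776) (nat_lit 64) .nil)))))) (.g (nat_lit 1) (.e (nat_lit 276192) (nat_lit 0) .nil) .nil))) 
(.lf (nat_lit 544679) (.g (nat_lit 477) (.e (nat_lit 122624) (nat_lit 5) (.e (nat_lit 221194) (nat_lit 11) (.e (nat_lit 336077) (nat_lit 9) .nil))) (.g (nat_lit 0) (.e (nat_lit 277517) (nat_lit 0) .nil) .nil)))))) (.nd (nat_lit 7) (.nd (nat_lit 8) (.nd (nat_lit 9) 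
(.lf (nat_lit 543847) (.g (nat_lit 2476) (.e (nat_lit 98368) (nat_lit 27) (.e (nat_lit 434248) (nat_lit 28) (.e (nat_lit 573489) (nat_lit 14) (.e (nat_lit 73754) (nat_lit 8) (.e (nat_lit 557094) (nat_lit 12) .nil))))) (.g (nat_lit 0) (.e (nat_lit 275780) (nat_lit 0) .nil) .nil))) 
(.lf (nat_lit 544359) (.g (nat_lit 2251) (.e (nat_lit 98386) (nat_lit 32) (.e (nat_lit 475179) (nat_lit 24) (.e (nat_lit 516117) (nat_lit 1) (.e (nat_lit 164305) (nat_lit 226) .nil)))) (.g (nat_lit 0) (.e (nat_lit 276404) (nat_lit 0) .nil) .nil)))) (.nd (nat_lit 9) 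
(.lf (nat_lit 544103) (.g (nat_lit 2688) (.e (nat_lit 98381) (nat_lit 31) (.e (nat_lit 466947) (nat_lit 0) (.e (nat_lit 1800) (nat_lit 119) (.e (nat_lit 516127) (nat_lit 2) (.e (nat_lit 213032) (nat_lit 11) (.e (nat_lit 24608) (nat_lit 3) .nil)))))) (.g (nat_lit 1) (.e (nat_lit 276125) (nat_lit 0) .nil) .nil))) 
(.lf (nat_lit 544615) (.g (nat_lit 1605) (.e (nat_lit 106535) (nat_lit 11) (.e (nat_lit 16436) (nat_lit 9) (.e (nat_lit 426555) (nat_lit 32) (.e (nat_lit 376859) (nat_lit 21) .nil)))) (.g (nat_lit 0) (.e (nat_lit 277237) (nat_lit 0) .nil) .nil))))) (.nd (nat_lit 8) (.nd (nat_lit 9) 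
(.lf (nat_lit 543975) (.g (nat_lit 4005) (.e (nat_lit 98373) (nat_lit 29) (.e (nat_lit 450587) (nat_lit 10) (.e (nat_lit 573475) (nat_lit 12) (.e (nat_lit 57574) (nat_lit 55) (.e (nat_lit 778466) (nat_lit 11) (.e (nat_lit 32512) (nat_lit 3) .nil)))))) (.g (nat_lit 1) (.e (nat_lit 275954) (nat_lit 0) .nil) .nil))) 
(.lf (nat_lit 544487) (.g (nat_lit 1489) (.e (nat_lit 114432) (nat_lit 6) (.e (nat_lit 188446) (nat_lit 21) (.e (nat_lit 164347) (nat_lit 240) (.e (nat_lit 2648) (nat_lit 166) (.e (nat_lit 196352) (nat_lit 4) .nil))))) (.g (nat_lit 0) (.e (nat_lit 276940) (nat_lit 0) .nil) .nil)))) (.nd (nat_lit 9) 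
(.lf (nat_lit 544231) (.g (nat_lit 2765) (.e (nat_lit 98384) (nat_lit 32) (.e (nat_lit 475177) (nat_lit 24) (.e (nat_lit 516180) (nat_lit 15) (.e (nat_lit 475177) (nat_lit 24) (.e (nat_lit 516147) (nat_lit 9) (.e (nat_lit 426436) (nat_lit 18) .nil)))))) (.g (nat_lit 1) (.e (nat_lit 276270) (nat_lit 0) .nil) .nil))) 
(.lf (nat_lit 544743) (.g (nat_lit 1391) (.e (nat_lit 114695) (nat_lit 11) (.e (nat_lit 426262) (nat_lit 9) (.e (nat_lit 426541) (nat_lit 29) (.e (nat_lit 352307) (nat_lit 21) (.e (nat_lit 57848) (nat_lit 252) (.e (nat_lit 57390) (nat_lit 5) .nil)))))) (.g (nat_lit 1) (.e (nat_lit 277697) (nat_lit 0) .nil) .nil)))))))) 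
(.nd (nat_lit 5) (.nd (nat_lit 6) (.nd (nat_lit 7) (.nd (nat_lit 8) (.nd (nat_lit 9) 
(.lf (nat_lit 543767) (.g (nat_lit 1430) (.e (nat_lit 98367) (nat_lit 27) (.e (nat_lit 434248) (nat_lit 28) (.e (nat_lit 573489) (nat_lit 14) (.e (nat_lit 73755) (nat_lit 8) .nil)))) (.g (nat_lit 0) (.e (nat_lit 275606) (nat_lit 0) .nil) .nil))) 
(.lf (nat_lit 544279) (.g (nat_lit 1777) (.e (nat_lit 98385) (nat_lit 32) (.e (nat_lit 475177) (nat_lit 24) (.e (nat_lit 516146) (nat_lit 9) (.e (nat_lit 426428) (nat_lit 17) (.e (nat_lit 90169) (nat_lit 13) (.e (nat_lit 179968) (nat_lit 18) .nil)))))) (.g (nat_lit 1) (.e (nat_lit 276318) (nat_lit 0) .nil) .nil)))) (.nd (nat_lit 9) 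
(.lf (nat_lit 544023) (.g (nat_lit 4729) (.e (nat_lit 98373) (nat_lit 29) (.e (nat_lit 450588) (nat_lit 10) (.e (nat_lit 573475) (nat_lit 12) (.e (nat_lit 57574) (nat_lit 55) (.e (nat_lit 778466) (nat_lit 11) (.e (nat_lit 32512) (nat_lit 3) .nil)))))) (.g (nat_lit 1) (.e (nat_lit 276002) (nat_lit 0) .nil) .nil))) 
(.lf (nat_lit 544535) (.g (nat_lit 1112) (.e (nat_lit 114432) (nat_lit 6) (.e (nat_lit 188455) (nat_lit 24) (.e (nat_lit 229665) (nat_lit 240) (.e (nat_lit 7936) (nat_lit 166) .nil)))) (.g (nat_lit 0) (.e (nat_lit 276997) (nat_lit 0) .nil) .nil))))) (.nd (nat_lit 8) (.nd (nat_lit 9) 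
(.lf (nat_lit 543895) (.g (nat_lit 2174) (.e (nat_lit 98372) (nat_lit 29) (.e (nat_lit 450579) (nat_lit 5) (.e (nat_lit 532533) (nat_lit 9) (.e (nat_lit 336000) (nat_lit 1) (.e (nat_lit 57929) (nat_lit 282) (.e (nat_lit 171776) (nat_lit 64) .nil)))))) (.g (nat_lit 1) (.e (nat_lit 275868) (nat_lit 0) .nil) .nil))) 
(.lf (nat_lit 544407) (.g (nat_lit 1328) (.e (nat_lit 98387) (nat_lit 33) (.e (nat_lit 491571) (nat_lit 13) (.e (nat_lit 393229) (nat_lit 9) .nil))) (.g (nat_lit 0) (.e (nat_lit 276461) (nat_lit 0) .nil) .nil)))) (.nd (nat_lit 9) 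
(.lf (nat_lit 544151) (.g (nat_lit 3069) (.e (nat_lit 98381) (nat_lit 31) (.e (nat_lit 466977) (nat_lit 22) (.e (nat_lit 196681) (nat_lit 17) (.e (nat_lit 131089) (nat_lit 1) (.e (nat_lit 57931) (nat_lit 282) (.e (nat_lit 171776) (nat_lit 64) .nil)))))) (.g (nat_lit 1) (.e (nat_lit 276175) (nat_lit 0) .nil) .nil))) 
(.lf (nat_lit 544663) (.g (nat_lit 1934) (.e (nat_lit 122624) (nat_lit 4) (.e (nat_lit 213032) (nat_lit 11) (.e (nat_lit 24655) (nat_lit 13) (.e (nat_lit 393266) (nat_lit 23) .nil)))) (.g (nat_lit 0) (.e (nat_lit 277491) (nat_lit 0) .nil) .nil)))))) (.nd (nat_lit 7) (.nd (nat_lit 8) (.nd (nat_lit 9) 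
(.lf (nat_lit 543831) (.g (nat_lit 2375) (.e (nat_lit 98368) (nat_lit 27) (.e (nat_lit 434248) (nat_lit 28) (.e (nat_lit 573482) (nat_lit 13) (.e (nat_lit 65637) (nat_lit 15) (.e (nat_lit 3253) (nat_lit 197) .nil))))) (.g (nat_lit 0) (.e (nat_lit 275746) (nat_lit 0) .nil) .nil))) 
(.lf (nat_lit 544343) (.g (nat_lit 3679) (.e (nat_lit 98386) (nat_lit 32) (.e (nat_lit 475177) (nat_lit 24) (.e (nat_lit 516179) (nat_lit 15) (.e (nat_lit 475179) (nat_lit 24) (.e (nat_lit 516146) (nat_lit 9) (.e (nat_lit 426438) (nat_lit 18) .nil)))))) (.g (nat_lit 1) (.e (nat_lit 276388) (nat_lit 0) .nil) .nil)))) (.nd (nat_lit 9) 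
(.lf (nat_lit 544087) (.g (nat_lit 2981) (.e (nat_lit 98380) (nat_lit 31) (.e (nat_lit 466954) (nat_lit 11) (.e (nat_lit 335995) (nat_lit 1) (.e (nat_lit 57688) (nat_lit 156) (.e (nat_lit 163903) (nat_lit 12) (.e (nat_lit 426436) (nat_lit 18) .nil)))))) (.g (nat_lit 1) (.e (nat_lit 276105) (nat_lit 0) .nil) .nil))) 
(.lf (nat_lit 544599) (.g (nat_lit 777) (.e (nat_lit 106534) (nat_lit 11) (.e (nat_lit 16416) (nat_lit 3) (.e (nat_lit 204852) (nat_lit 26) .nil))) (.g (nat_lit 0) (.e (nat_lit 277201) (nat_lit 0) .nil) .nil))))) (.nd (nat_lit 8) (.nd (nat_lit 9) 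
(.lf (nat_lit 543959) (.g (nat_lit 3010) (.e (nat_lit 98373) (nat_lit 29) (.e (nat_lit 450587) (nat_lit 10) (.e (nat_lit 573473) (nat_lit 12) (.e (nat_lit 57348) (nat_lit 0) (.e (nat_lit 7265) (nat_lit 384) (.e (nat_lit 57406) (nat_lit 12) (.e (nat_lit 343808) (nat_lit 3) .nil))))))) (.g (nat_lit 1) (.e (nat_lit 275938) (nat_lit 0) .nil) .nil))) 
(.lf (nat_lit 544471) (.g (nat_lit 1071) (.e (nat_lit 114432) (nat_lit 5) (.e (nat_lit 180278) (nat_lit 32) (.e (nat_lit 1661) (nat_lit 115) (.e (nat_lit 393279) (nat_lit 23) .nil)))) (.g (nat_lit 0) (.e (nat_lit 276873) (nat_lit 0) .nil) .nil)))) (.nd (nat_lit 9) 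
(.lf (nat_lit 544215) (.g (nat_lit 2617) (.e (nat_lit 98384) (nat_lit 32) (.e (nat_lit 475177) (nat_lit 24) (.e (nat_lit 516150) (nat_lit 9) (.e (nat_lit 426428) (nat_lit 17) (.e (nat_lit 90133) (nat_lit 9) (.e (nat_lit 2900) (nat_lit 184) (.e (nat_lit 426435) (nat_lit 18) .nil))))))) (.g (nat_lit 1) (.e (nat_lit 276254) (nat_lit 0) .nil) .nil))) 
(.lf (nat_lit 544727) (.g (nat_lit 2157) (.e (nat_lit 114694) (nat_lit 11) (.e (nat_lit 426200) (nat_lit 9) (.e (nat_lit 426555) (nat_lit 32) (.e (nat_lit 376860) (nat_lit 21) (.e (nat_lit 57851) (nat_lit 252) .nil))))) (.g (nat_lit 0) (.e (nat_lit 277660) (nat_lit 0) .nil) .nil))))))) (.nd (nat_lit 6) (.nd (nat_lit 7) (.nd (nat_lit 8) (.nd (nat_lit 9) 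
(.lf (nat_lit 543799) (.g (nat_lit 345) (.e (nat_lit 98368) (nat_lit 27) (.e (nat_lit 434247) (nat_lit 28) (.e (nat_lit 573484) (nat_lit 13) .nil))) (.g (nat_lit 0) (.e (nat_lit 275673) (nat_lit 0) .nil) .nil))) 
(.lf (nat_lit 544311) (.g (nat_lit 2442) (.e (nat_lit 98385) (nat_lit 32) (.e (nat_lit 475179) (nat_lit 24) (.e (nat_lit 516146) (nat_lit 9) (.e (nat_lit 426438) (nat_lit 18) .nil)))) (.g (nat_lit 0) (.e (nat_lit 276355) (nat_lit 0) .nil) .nil)))) (.nd (nat_lit 9) 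
(.lf (nat_lit 544055) (.g (nat_lit 2370) (.e (nat_lit 98379) (nat_lit 31) (.e (nat_lit 466954) (nat_lit 11) (.e (nat_lit 335995) (nat_lit 1) (.e (nat_lit 57688) (nat_lit 156) (.e (nat_lit 163903) (nat_lit 12) .nil))))) (.g (nat_lit 0) (.e (nat_lit 276067) (nat_lit 0) .nil) .nil))) 
(.lf (nat_lit 544567) (.g (nat_lit 1856) (.e (nat_lit 106517) (nat_lit 9) (.e (nat_lit 1252) (nat_lit 92) (.e (nat_lit 98335) (nat_lit 18) (.e (nat_lit 164330) (nat_lit 230) (.e (nat_lit 163874) (nat_lit 3) .nil))))) (.g (nat_lit 0) (.e (nat_lit 277093) (nat_lit 0) .nil) .nil))))) (.nd (nat_lit 8) (.nd (nat_lit 9) 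
(.lf (nat_lit 543927) (.g (nat_lit 2641) (.e (nat_lit 98372) (nat_lit 29) (.e (nat_lit 450586) (nat_lit 10) (.e (nat_lit 573477) (nat_lit 12) (.e (nat_lit 57575) (nat_lit 55) (.e (nat_lit 778464) (nat_lit 11) (.e (nat_lit 24607) (nat_lit 3) .nil)))))) (.g (nat_lit 1) (.e (nat_lit 275902) (nat_lit 0) .nil) .nil))) 
(.lf (nat_lit 544439) (.g (nat_lit 3389) (.e (nat_lit 114432) (nat_lit 3) (.e (nat_lit 163977) (nat_lit 30) (.e (nat_lit 573493) (nat_lit 15) (.e (nat_lit 81954) (nat_lit 23) (.e (nat_lit 98356) (nat_lit 26) .nil))))) (.g (nat_lit 0) (.e (nat_lit 276725) (nat_lit 0) .nil) .nil)))) (.nd (nat_lit 9) 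
(.lf (nat_lit 544183) (.g (nat_lit 2080) (.e (nat_lit 98383) (nat_lit 32) (.e (nat_lit 475179) (nat_lit 24) (.e (nat_lit 516117) (nat_lit 1) (.e (nat_lit 164332) (nat_lit 230) (.e (nat_lit 163874) (nat_lit 3) .nil))))) (.g (nat_lit 0) (.e (nat_lit 276219) (nat_lit 0) .nil) .nil))) 
(.lf (nat_lit 544695) (.g (nat_lit 2686) (.e (nat_lit 114694) (nat_lit 11) (.e (nat_lit 426123) (nat_lit 2) (.e (nat_lit 196666) (nat_lit 13) (.e (nat_lit 65623) (nat_lit 12) .nil)))) (.g (nat_lit 0) (.e (nat_lit 277547) (nat_lit 0) .nil) .nil)))))) (.nd (nat_lit 7) (.nd (nat_lit 8) (.nd (nat_lit 9) 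
(.lf (nat_lit 543863) (.g (nat_lit 2535) (.e (nat_lit 98369) (nat_lit 28) (.e (nat_lit 442390) (nat_lit 11) (.e (nat_lit 335986) (nat_lit 1) (.e (nat_lit 57686) (nat_lit 156) (.e (nat_lit 163902) (nat_lit 12) (.e (nat_lit 426438) (nat_lit 18) .nil)))))) (.g (nat_lit 1) (.e (nat_lit 275816) (nat_lit 0) .nil) .nil))) 
(.lf (nat_lit 544375) (.g (nat_lit 1529) (.e (nat_lit 98386) (nat_lit 32) (.e (nat_lit 475179) (nat_lit 24) (.e (nat_lit 516150) (nat_lit 9) (.e (nat_lit 426428) (nat_lit 17) .nil)))) (.g (nat_lit 0) (.e (nat_lit 276421) (nat_lit 0) .nil) .nil)))) (.nd (nat_lit 9) 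
(.lf (nat_lit 544119) (.g (nat_lit 2920) (.e (nat_lit 98381) (nat_lit 31) (.e (nat_lit 466954) (nat_lit 11) (.e (nat_lit 335988) (nat_lit 1) (.e (nat_lit 57692) (nat_lit 156) (.e (nat_lit 163907) (nat_lit 12) (.e (nat_lit 426438) (nat_lit 18) .nil)))))) (.g (nat_lit 1) (.e (nat_lit 276141) (nat_lit 0) .nil) .nil))) 
(.lf (nat_lit 544631) (.g (nat_lit 532) (.e (nat_lit 122624) (nat_lit 3) (.e (nat_lit 204811) (nat_lit 9) (.e (nat_lit 426232) (nat_lit 9) (.e (nat_lit 426565) (nat_lit 34) (.e (nat_lit 401152) (nat_lit 3) .nil))))) (.g (nat_lit 0) (.e (nat_lit 277410) (nat_lit 0) .nil) .nil))))) (.nd (nat_lit 8) (.nd (nat_lit 9) 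
(.lf (nat_lit 543991) (.g (nat_lit 4835) (.e (nat_lit 98373) (nat_lit 29) (.e (nat_lit 450588) (nat_lit 10) (.e (nat_lit 573449) (nat_lit 9) (.e (nat_lit 442) (nat_lit 33) (.e (nat_lit 434181) (nat_lit 0) (.e (nat_lit 1253) (nat_lit 92) .nil)))))) (.g (nat_lit 1) (.e (nat_lit 275970) (nat_lit 0) .nil) .nil))) 
(.lf (nat_lit 544503) (.g (nat_lit 1079) (.e (nat_lit 114432) (nat_lit 6) (.e (nat_lit 188453) (nat_lit 24) (.e (nat_lit 229666) (nat_lit 240) (.e (nat_lit 2651) (nat_lit 166) (.e (nat_lit 196352) (nat_lit 4) .nil))))) (.g (nat_lit 0) (.e (nat_lit 276957) (nat_lit 0) .nil) .nil)))) (.nd (nat_lit 9) 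
(.lf (nat_lit 544247) (.g (nat_lit 5348) (.e (nat_lit 98384) (nat_lit 32) (.e (nat_lit 475179) (nat_lit 24) (.e (nat_lit 516115) (nat_lit 1) (.e (nat_lit 164327) (nat_lit 230) (.e (nat_lit 163875) (nat_lit 3) (.e (nat_lit 204837) (nat_lit 20) (.e (nat_lit 114718) (nat_lit 23) .nil))))))) (.g (nat_lit 1) (.e (nat_lit 276286) (nat_lit 0) .nil) .nil))) 
(.lf (nat_lit 544759) (.g (nat_lit 2593) (.e (nat_lit 114696) (nat_lit 11) (.e (nat_lit 426225) (nat_lit 9) (.e (nat_lit 426555) (nat_lit 32) (.e (nat_lit 376857) (nat_lit 21) (.e (nat_lit 57849) (nat_lit 252) (.e (nat_lit 57388) (nat_lit 5) .nil)))))) (.g (nat_lit 1) (.e (nat_lit 277731) (nat_lit 0) .nil) .nil))))))))) 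
(.nd (nat_lit 4) (.nd (nat_lit 5) (.nd (nat_lit 6) (.nd (nat_lit 7) (.nd (nat_lit 8) 
(.nd (nat_lit 9) 
(.lf (nat_lit 543759) (.g (nat_lit 2465) (.e (nat_lit 98367) (nat_lit 27) (.e (nat_lit 434248) (nat_lit 28) (.e (nat_lit 573489) (nat_lit 14) (.e (nat_lit 73731) (nat_lit 0) (.e (nat_lit 7936) (nat_lit 255) .nil))))) (.g (nat_lit 0) (.e (nat_lit 275598) (nat_lit 0) .nil) .nil))) 
(.lf (nat_lit 544271) (.g (nat_lit 3274) (.e (nat_lit 98384) (nat_lit 32) (.e (nat_lit 475179) (nat_lit 24) (.e (nat_lit 516179) (nat_lit 15) (.e (nat_lit 475179) (nat_lit 24) (.e (nat_lit 516146) (nat_lit 9) (.e (nat_lit 426438) (nat_lit 18) .nil)))))) (.g (nat_lit 1) (.e (nat_lit 276310) (nat_lit 0) .nil) .nil)))) (.nd (nat_lit 9) 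
(.lf (nat_lit 544015) (.g (nat_lit 5033) (.e (nat_lit 98373) (nat_lit 29) (.e (nat_lit 450588) (nat_lit 10) (.e (nat_lit 573475) (nat_lit 12) (.e (nat_lit 57347) (nat_lit 0) (.e (nat_lit 7265) (nat_lit 384) (.e (nat_lit 57412) (nat_lit 12) (.e (nat_lit 336022) (nat_lit 3) .nil))))))) (.g (nat_lit 1) (.e (nat_lit 275994) (nat_lit 0) .nil) .nil))) 
(.lf (nat_lit 544527) (.g (nat_lit 2189) (.e (nat_lit 114432) (nat_lit 6) (.e (nat_lit 188455) (nat_lit 24) (.e (nat_lit 229663) (nat_lit 240) (.e (nat_lit 2651) (nat_lit 166) (.e (nat_lit 196352) (nat_lit 4) .nil))))) (.g (nat_lit 0) (.e (nat_lit 276989) (nat_lit 0) .nil) .nil))))) (.nd (nat_lit 8) (.nd (nat_lit 9) 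
(.lf (nat_lit 543887) (.g (nat_lit 2847) (.e (nat_lit 98372) (nat_lit 29) (.e (nat_lit 450579) (nat_lit 5) (.e (nat_lit 532530) (nat_lit 9) (.e (nat_lit 335999) (nat_lit 1) (.e (nat_lit 57926) (nat_lit 282) (.e (nat_lit 171776) (nat_lit 64) .nil)))))) (.g (nat_lit 1) (.e (nat_lit 275860) (nat_lit 0) .nil) .nil))) 
(.lf (nat_lit 544399) (.g (nat_lit 1169) (.e (nat_lit 98387) (nat_lit 33) (.e (nat_lit 491566) (nat_lit 12) (.e (nat_lit 385067) (nat_lit 26) .nil))) (.g (nat_lit 0) (.e (nat_lit 276453) (nat_lit 0) .nil) .nil)))) (.nd (nat_lit 9) 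
(.lf (nat_lit 544143) (.g (nat_lit 5965) (.e (nat_lit 98381) (nat_lit 31) (.e (nat_lit 466967) (nat_lit 20) (.e (nat_lit 3305) (nat_lit 202) (.e (nat_lit 573477) (nat_lit 12) (.e (nat_lit 57574) (nat_lit 55) (.e (nat_lit 778466) (nat_lit 11) (.e (nat_lit 24608) (nat_lit 3) .nil))))))) (.g (nat_lit 1) (.e (nat_lit 276165) (nat_lit 0) .nil) .nil))) 
(.lf (nat_lit 544655) (.g (nat_lit 938) (.e (nat_lit 122624) (nat_lit 4) (.e (nat_lit 213032) (nat_lit 11) (.e (nat_lit 24626) (nat_lit 9) .nil))) (.g (nat_lit 0) (.e (nat_lit 277465) (nat_lit 0) .nil) .nil)))))) (.nd (nat_lit 7) (.nd (nat_lit 8) (.nd (nat_lit 9) 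
(.lf (nat_lit 543823) (.g (nat_lit 1933) (.e (nat_lit 98368) (nat_lit 27) (.e (nat_lit 434247) (nat_lit 28) (.e (nat_lit 573489) (nat_lit 14) (.e (nat_lit 73755) (nat_lit 8) (.e (nat_lit 557119) (nat_lit 18) .nil))))) (.g (nat_lit 0) (.e (nat_lit 275733) (nat_lit 0) .nil) .nil))) 
(.lf (nat_lit 544335) (.g (nat_lit 3248) (.e (nat_lit 98386) (nat_lit 32) (.e (nat_lit 475177) (nat_lit 24) (.e (nat_lit 516150) (nat_lit 9) (.e (nat_lit 426428) (nat_lit 17) (.e (nat_lit 90169) (nat_lit 13) (.e (nat_lit 179968) (nat_lit 18) .nil)))))) (.g (nat_lit 1) (.e (nat_lit 276380) (nat_lit 0) .nil) .nil)))) (.nd (nat_lit 9) 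
(.lf (nat_lit 544079) (.g (nat_lit 2385) (.e (nat_lit 98380) (nat_lit 31) (.e (nat_lit 466954) (nat_lit 11) (.e (nat_lit 335993) (nat_lit 1) (.e (nat_lit 57691) (nat_lit 156) (.e (nat_lit 163907) (nat_lit 12) (.e (nat_lit 426438) (nat_lit 18) .nil)))))) (.g (nat_lit 1) (.e (nat_lit 276097) (nat_lit 0) .nil) .nil))) 
(.lf (nat_lit 544591) (.g (nat_lit 856) (.e (nat_lit 106534) (nat_lit 11) (.e (nat_lit 16412) (nat_lit 2) (.e (nat_lit 196681) (nat_lit 17) (.e (nat_lit 131109) (nat_lit 9) .nil)))) (.g (nat_lit 0) (.e (nat_lit 277189) (nat_lit 0) .nil) .nil))))) (.nd (nat_lit 8) (.nd (nat_lit 9) 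
(.lf (nat_lit 543951) (.g (nat_lit 4231) (.e (nat_lit 98373) (nat_lit 29) (.e (nat_lit 450587) (nat_lit 10) (.e (nat_lit 573448) (nat_lit 9) (.e (nat_lit 433) (nat_lit 32) (.e (nat_lit 426347) (nat_lit 14) (.e (nat_lit 491540) (nat_lit 3) .nil)))))) (.g (nat_lit 1) (.e (nat_lit 275930) (nat_lit 0) .nil) .nil))) 
(.lf (nat_lit 544463) (.g (nat_lit 1400) (.e (nat_lit 114432) (nat_lit 4) (.e (nat_lit 172124) (nat_lit 14) (.e (nat_lit 491571) (nat_lit 13) (.e (nat_lit 393266) (nat_lit 23) .nil)))) (.g (nat_lit 0) (.e (nat_lit 276794) (nat_lit 0) .nil) .nil)))) (.nd (nat_lit 9) 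
(.lf (nat_lit 544207) (.g (nat_lit 1658) (.e (nat_lit 98384) (nat_lit 32) (.e (nat_lit 475177) (nat_lit 24) (.e (nat_lit 516146) (nat_lit 9) (.e (nat_lit 426428) (nat_lit 17) (.e (nat_lit 90134) (nat_lit 9) (.e (nat_lit 2853) (nat_lit 184) (.e (nat_lit 426434) (nat_lit 18) .nil))))))) (.g (nat_lit 1) (.e (nat_lit 276246) (nat_lit 0) .nil) .nil))) 
(.lf (nat_lit 544719) (.g (nat_lit 2154) (.e (nat_lit 114694) (nat_lit 11) (.e (nat_lit 426200) (nat_lit 9) (.e (nat_lit 426555) (nat_lit 32) (.e (nat_lit 376857) (nat_lit 21) (.e (nat_lit 57848) (nat_lit 252) (.e (nat_lit 57390) (nat_lit 5) .nil)))))) (.g (nat_lit 1) (.e (nat_lit 277652) (nat_lit 0) .nil) .nil))))))) (.nd (nat_lit 6) (.nd (nat_lit 7) (.nd (nat_lit 8) (.nd (nat_lit 9) 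
(.lf (nat_lit 543791) (.g (nat_lit 2116) (.e (nat_lit 98368) (nat_lit 27) (.e (nat_lit 434245) (nat_lit 28) (.e (nat_lit 573487) (nat_lit 14) (.e (nat_lit 73753) (nat_lit 8) (.e (nat_lit 557091) (nat_lit 12) .nil))))) (.g (nat_lit 0) (.e (nat_lit 275651) (nat_lit 0) .nil) .nil))) 
(.lf (nat_lit 544303) (.g (nat_lit 2479) (.e (nat_lit 98385) (nat_lit 32) (.e (nat_lit 475177) (nat_lit 24) (.e (nat_lit 516181) (nat_lit 15) (.e (nat_lit 475179) (nat_lit 24) (.e (nat_lit 516150) (nat_lit 9) (.e (nat_lit 426436) (nat_lit 18) .nil)))))) (.g (nat_lit 1) (.e (nat_lit 276346) (nat_lit 0) .nil) .nil)))) (.nd (nat_lit 9) 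
(.lf (nat_lit 544047) (.g (nat_lit 1035) (.e (nat_lit 98377) (nat_lit 30) (.e (nat_lit 458789) (nat_lit 23) (.e (nat_lit 532515) (nat_lit 3) (.e (nat_lit 114718) (nat_lit 23) .nil)))) (.g (nat_lit 0) (.e (nat_lit 276051) (nat_lit 0) .nil) .nil))) 
(.lf (nat_lit 544559) (.g (nat_lit 1165) (.e (nat_lit 114432) (nat_lit 6) (.e (nat_lit 188455) (nat_lit 24) (.e (nat_lit 229681) (nat_lit 244) (.e (nat_lit 163932) (nat_lit 17) (.e (nat_lit 474880) (nat_lit 4) .nil))))) (.g (nat_lit 0) (.e (nat_lit 277021) (nat_lit 0) .nil) .nil))))) (.nd (nat_lit 8) (.nd (nat_lit 9) 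
(.lf (nat_lit 543919) (.g (nat_lit 3286) (.e (nat_lit 98372) (nat_lit 29) (.e (nat_lit 450586) (nat_lit 10) (.e (nat_lit 573475) (nat_lit 12) (.e (nat_lit 57573) (nat_lit 55) (.e (nat_lit 778469) (nat_lit 11) (.e (nat_lit 24608) (nat_lit 3) .nil)))))) (.g (nat_lit 1) (.e (nat_lit 275892) (nat_lit 0) .nil) .nil))) 
(.lf (nat_lit 544431) (.g (nat_lit 1733) (.e (nat_lit 106240) (nat_lit 33) (.e (nat_lit 491566) (nat_lit 12) (.e (nat_lit 385074) (nat_lit 31) (.e (nat_lit 573481) (nat_lit 13) .nil)))) (.g (nat_lit 0) (.e (nat_lit 276491) (nat_lit 0) .nil) .nil)))) (.nd (nat_lit 9) 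
(.lf (nat_lit 544175) (.g (nat_lit 1990) (.e (nat_lit 98383) (nat_lit 32) (.e (nat_lit 475177) (nat_lit 24) (.e (nat_lit 516146) (nat_lit 9) (.e (nat_lit 426438) (nat_lit 18) (.e (nat_lit 98358) (nat_lit 26) .nil))))) (.g (nat_lit 0) (.e (nat_lit 276209) (nat_lit 0) .nil) .nil))) 
(.lf (nat_lit 544687) (.g (nat_lit 1968) (.e (nat_lit 122624) (nat_lit 5) (.e (nat_lit 221194) (nat_lit 11) (.e (nat_lit 336088) (nat_lit 9) (.e (nat_lit 336426) (nat_lit 29) (.e (nat_lit 450304) (nat_lit 5) .nil))))) (.g (nat_lit 0) (.e (nat_lit 277525) (nat_lit 0) .nil) .nil)))))) (.nd (nat_lit 7) (.nd (nat_lit 8) (.nd (nat_lit 9) 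
(.lf (nat_lit 543855) (.g (nat_lit 2719) (.e (nat_lit 98368) (nat_lit 27) (.e (nat_lit 434248) (nat_lit 28) (.e (nat_lit 573489) (nat_lit 14) (.e (nat_lit 73755) (nat_lit 8) (.e (nat_lit 557090) (nat_lit 12) .nil))))) (.g (nat_lit 0) (.e (nat_lit 275792) (nat_lit 0) .nil) .nil))) 
(.lf (nat_lit 544367) (.g (nat_lit 3465) (.e (nat_lit 98386) (nat_lit 32) (.e (nat_lit 475179) (nat_lit 24) (.e (nat_lit 516120) (nat_lit 1) (.e (nat_lit 164330) (nat_lit 230) (.e (nat_lit 163874) (nat_lit 3) (.e (nat_lit 204838) (nat_lit 20) (.e (nat_lit 114719) (nat_lit 23) .nil))))))) (.g (nat_lit 1) (.e (nat_lit 276413) (nat_lit 0) .nil) .nil)))) (.nd (nat_lit 9) 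
(.lf (nat_lit 544111) (.g (nat_lit 2805) (.e (nat_lit 98381) (nat_lit 31) (.e (nat_lit 466954) (nat_lit 11) (.e (nat_lit 335986) (nat_lit 1) (.e (nat_lit 57692) (nat_lit 156) (.e (nat_lit 163907) (nat_lit 12) (.e (nat_lit 426438) (nat_lit 18) .nil)))))) (.g (nat_lit 1) (.e (nat_lit 276133) (nat_lit 0) .nil) .nil))) 
(.lf (nat_lit 544623) (.g (nat_lit 1748) (.e (nat_lit 106536) (nat_lit 11) (.e (nat_lit 16416) (nat_lit 3) (.e (nat_lit 204861) (nat_lit 26) (.e (nat_lit 336194) (nat_lit 12) (.e (nat_lit 385067) (nat_lit 26) .nil))))) (.g (nat_lit 0) (.e (nat_lit 277253) (nat_lit 0) .nil) .nil))))) (.nd (nat_lit 8) (.nd (nat_lit 9) 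
(.lf (nat_lit 543983) (.g (nat_lit 3070) (.e (nat_lit 98373) (nat_lit 29) (.e (nat_lit 450587) (nat_lit 10) (.e (nat_lit 573477) (nat_lit 12) (.e (nat_lit 57575) (nat_lit 55) (.e (nat_lit 778465) (nat_lit 11) (.e (nat_lit 32512) (nat_lit 3) .nil)))))) (.g (nat_lit 1) (.e (nat_lit 275962) (nat_lit 0) .nil) .nil))) 
(.lf (nat_lit 544495) (.g (nat_lit 2221) (.e (nat_lit 114432) (nat_lit 6) (.e (nat_lit 188453) (nat_lit 24) (.e (nat_lit 229663) (nat_lit 240) (.e (nat_lit 2651) (nat_lit 166) (.e (nat_lit 196352) (nat_lit 4) .nil))))) (.g (nat_lit 0) (.e (nat_lit 276949) (nat_lit 0) .nil) .nil)))) (.nd (nat_lit 9) 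
(.lf (nat_lit 544239) (.g (nat_lit 2922) (.e (nat_lit 98384) (nat_lit 32) (.e (nat_lit 475177) (nat_lit 24) (.e (nat_lit 516181) (nat_lit 15) (.e (nat_lit 475177) (nat_lit 24) (.e (nat_lit 516148) (nat_lit 9) (.e (nat_lit 426436) (nat_lit 18) .nil)))))) (.g (nat_lit 1) (.e (nat_lit 276278) (nat_lit 0) .nil) .nil))) 
(.lf (nat_lit 544751) (.g (nat_lit 1867) (.e (nat_lit 114695) (nat_lit 11) (.e (nat_lit 426262) (nat_lit 9) (.e (nat_lit 426554) (nat_lit 32) (.e (nat_lit 376859) (nat_lit 21) (.e (nat_lit 57846) (nat_lit 252) (.e (nat_lit 57390) (nat_lit 5) .nil)))))) (.g (nat_lit 1) (.e (nat_lit 277705) (nat_lit 0) .nil) .nil)))))))) 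
(.nd (nat_lit 5) (.nd (nat_lit 6) (.nd (nat_lit 7) (.nd (nat_lit 8) (.nd (nat_lit 9) 
(.lf (nat_lit 543775) (.g (nat_lit 4048) (.e (nat_lit 98367) (nat_lit 27) (.e (nat_lit 434248) (nat_lit 28) (.e (nat_lit 573489) (nat_lit 14) (.e (nat_lit 73755) (nat_lit 8) (.e (nat_lit 557119) (nat_lit 18) (.e (nat_lit 2797) (nat_lit 180) (.e (nat_lit 311040) (nat_lit 18) .nil))))))) (.g (nat_lit 1) (.e (nat_lit 275614) (nat_lit 0) .nil) .nil))) 
(.lf (nat_lit 544287) (.g (nat_lit 2313) (.e (nat_lit 98385) (nat_lit 32) (.e (nat_lit 475177) (nat_lit 24) (.e (nat_lit 516150) (nat_lit 9) (.e (nat_lit 426428) (nat_lit 17) (.e (nat_lit 90170) (nat_lit 13) (.e (nat_lit 179968) (nat_lit 18) .nil)))))) (.g (nat_lit 1) (.e (nat_lit 276327) (nat_lit 0) .nil) .nil)))) (.nd (nat_lit 9) 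
(.lf (nat_lit 544031) (.g (nat_lit 375) (.e (nat_lit 106240) (nat_lit 29) (.e (nat_lit 450579) (nat_lit 5) (.e (nat_lit 532523) (nat_lit 7) .nil))) (.g (nat_lit 0) (.e (nat_lit 276011) (nat_lit 0) .nil) .nil))) 
(.lf (nat_lit 544543) (.g (nat_lit 1716) (.e (nat_lit 114432) (nat_lit 6) (.e (nat_lit 188455) (nat_lit 24) (.e (nat_lit 229678) (nat_lit 244) (.e (nat_lit 163919) (nat_lit 14) (.e (nat_lit 450304) (nat_lit 4) .nil))))) (.g (nat_lit 0) (.e (nat_lit 277005) (nat_lit 0) .nil) .nil))))) (.nd (nat_lit 8) (.nd (nat_lit 9) 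
(.lf (nat_lit 543903) (.g (nat_lit 2700) (.e (nat_lit 98372) (nat_lit 29) (.e (nat_lit 450579) (nat_lit 5) (.e (nat_lit 532542) (nat_lit 9) (.e (nat_lit 335988) (nat_lit 1) (.e (nat_lit 57927) (nat_lit 282) (.e (nat_lit 171776) (nat_lit 64) .nil)))))) (.g (nat_lit 1) (.e (nat_lit 275876) (nat_lit 0) .nil) .nil))) 
(.lf (nat_lit 544415) (.g (nat_lit 3131) (.e (nat_lit 98389) (nat_lit 33) (.e (nat_lit 491546) (nat_lit 9) (.e (nat_lit 336013) (nat_lit 2) (.e (nat_lit 90134) (nat_lit 9) (.e (nat_lit 3098) (nat_lit 192) (.e (nat_lit 491549) (nat_lit 9) (.e (nat_lit 336019) (nat_lit 3) .nil))))))) (.g (nat_lit 1) (.e (nat_lit 276472) (nat_lit 0) .nil) .nil)))) (.nd (nat_lit 9) 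
(.lf (nat_lit 544159) (.g (nat_lit 3275) (.e (nat_lit 98381) (nat_lit 31) (.e (nat_lit 466981) (nat_lit 23) (.e (nat_lit 204846) (nat_lit 24) (.e (nat_lit 319534) (nat_lit 16) (.e (nat_lit 286734) (nat_lit 3) .nil))))) (.g (nat_lit 1) (.e (nat_lit 276183) (nat_lit 0) .nil) .nil))) 
(.lf (nat_lit 544671) (.g (nat_lit 1571) (.e (nat_lit 122624) (nat_lit 4) (.e (nat_lit 213032) (nat_lit 11) (.e (nat_lit 24660) (nat_lit 13) (.e (nat_lit 393274) (nat_lit 23) (.e (nat_lit 433920) (nat_lit 20) .nil))))) (.g (nat_lit 0) (.e (nat_lit 277509) (nat_lit 0) .nil) .nil)))))) (.nd (nat_lit 7) (.nd (nat_lit 8) (.nd (nat_lit 9) 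
(.lf (nat_lit 543839) (.g (nat_lit 2216) (.e (nat_lit 98368) (nat_lit 27) (.e (nat_lit 434248) (nat_lit 28) (.e (nat_lit 573487) (nat_lit 14) (.e (nat_lit 73753) (nat_lit 8) (.e (nat_lit 557091) (nat_lit 12) .nil))))) (.g (nat_lit 0) (.e (nat_lit 275766) (nat_lit 0) .nil) .nil))) 
(.lf (nat_lit 544351) (.g (nat_lit 2650) (.e (nat_lit 98386) (nat_lit 32) (.e (nat_lit 475177) (nat_lit 24) (.e (nat_lit 516182) (nat_lit 15) (.e (nat_lit 475177) (nat_lit 24) (.e (nat_lit 516147) (nat_lit 9) (.e (nat_lit 426436) (nat_lit 18) .nil)))))) (.g (nat_lit 1) (.e (nat_lit 276396) (nat_lit 0) .nil) .nil)))) (.nd (nat_lit 9) 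
(.lf (nat_lit 544095) (.g (nat_lit 2375) (.e (nat_lit 98380) (nat_lit 31) (.e (nat_lit 466974) (nat_lit 22) (.e (nat_lit 196681) (nat_lit 17) (.e (nat_lit 131089) (nat_lit 1) (.e (nat_lit 57931) (nat_lit 282) (.e (nat_lit 171776) (nat_lit 64) .nil)))))) (.g (nat_lit 1) (.e (nat_lit 276113) (nat_lit 0) .nil) .nil))) 
(.lf (nat_lit 544607) (.g (nat_lit 256) (.e (nat_lit 106534) (nat_lit 11) (.e (nat_lit 16434) (nat_lit 9) (.e (nat_lit 426555) (nat_lit 32) .nil))) (.g (nat_lit 0) (.e (nat_lit 277218) (nat_lit 0) .nil) .nil))))) (.nd (nat_lit 8) (.nd (nat_lit 9) 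
(.lf (nat_lit 543967) (.g (nat_lit 3594) (.e (nat_lit 98373) (nat_lit 29) (.e (nat_lit 450587) (nat_lit 10) (.e (nat_lit 573475) (nat_lit 12) (.e (nat_lit 57573) (nat_lit 55) (.e (nat_lit 778469) (nat_lit 11) (.e (nat_lit 24608) (nat_lit 3) .nil)))))) (.g (nat_lit 1) (.e (nat_lit 275946) (nat_lit 0) .nil) .nil))) 
(.lf (nat_lit 544479) (.g (nat_lit 1109) (.e (nat_lit 114432) (nat_lit 6) (.e (nat_lit 188434) (nat_lit 20) (.e (nat_lit 3408) (nat_lit 212) (.e (nat_lit 655364) (nat_lit 0) (.e (nat_lit 2989) (nat_lit 186) .nil))))) (.g (nat_lit 0) (.e (nat_lit 276924) (nat_lit 0) .nil) .nil)))) (.nd (nat_lit 9) 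
(.lf (nat_lit 544223) (.g (nat_lit 1653) (.e (nat_lit 98384) (nat_lit 32) (.e (nat_lit 475177) (nat_lit 24) (.e (nat_lit 516178) (nat_lit 15) (.e (nat_lit 475179) (nat_lit 24) (.e (nat_lit 516146) (nat_lit 9) .nil))))) (.g (nat_lit 0) (.e (nat_lit 276262) (nat_lit 0) .nil) .nil))) 
(.lf (nat_lit 544735) (.g (nat_lit 1863) (.e (nat_lit 114695) (nat_lit 11) (.e (nat_lit 426230) (nat_lit 9) (.e (nat_lit 426554) (nat_lit 32) (.e (nat_lit 376859) (nat_lit 21) (.e (nat_lit 57849) (nat_lit 252) (.e (nat_lit 57390) (nat_lit 5) .nil)))))) (.g (nat_lit 1) (.e (nat_lit 277689) (nat_lit 0) .nil) .nil))))))) (.nd (nat_lit 6) (.nd (nat_lit 7) (.nd (nat_lit 8) (.nd (nat_lit 9) 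
(.lf (nat_lit 543807) (.g (nat_lit 588) (.e (nat_lit 98368) (nat_lit 27) (.e (nat_lit 434247) (nat_lit 28) (.e (nat_lit 573487) (nat_lit 14) .nil))) (.g (nat_lit 0) (.e (nat_lit 275698) (nat_lit 0) .nil) .nil))) 
(.lf (nat_lit 544319) (.g (nat_lit 2548) (.e (nat_lit 98386) (nat_lit 32) (.e (nat_lit 475177) (nat_lit 24) (.e (nat_lit 516145) (nat_lit 9) (.e (nat_lit 426428) (nat_lit 17) (.e (nat_lit 90170) (nat_lit 13) (.e (nat_lit 179968) (nat_lit 18) .nil)))))) (.g (nat_lit 1) (.e (nat_lit 276364) (nat_lit 0) .nil) .nil)))) (.nd (nat_lit 9) 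
(.lf (nat_lit 544063) (.g (nat_lit 2295) (.e (nat_lit 98379) (nat_lit 31) (.e (nat_lit 466977) (nat_lit 22) (.e (nat_lit 196681) (nat_lit 17) (.e (nat_lit 131089) (nat_lit 1) (.e (nat_lit 57931) (nat_lit 282) (.e (nat_lit 171776) (nat_lit 64) .nil)))))) (.g (nat_lit 1) (.e (nat_lit 276075) (nat_lit 0) .nil) .nil))) 
(.lf (nat_lit 544575) (.g (nat_lit 2357) (.e (nat_lit 106517) (nat_lit 9) (.e (nat_lit 1255) (nat_lit 92) (.e (nat_lit 98384) (nat_lit 32) (.e (nat_lit 475177) (nat_lit 24) (.e (nat_lit 516119) (nat_lit 1) .nil))))) (.g (nat_lit 0) (.e (nat_lit 277103) (nat_lit 0) .nil) .nil))))) (.nd (nat_lit 8) (.nd (nat_lit 9) 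
(.lf (nat_lit 543935) (.g (nat_lit 2297) (.e (nat_lit 98372) (nat_lit 29) (.e (nat_lit 450586) (nat_lit 10) (.e (nat_lit 573478) (nat_lit 12) (.e (nat_lit 57574) (nat_lit 55) (.e (nat_lit 778465) (nat_lit 11) (.e (nat_lit 32512) (nat_lit 3) .nil)))))) (.g (nat_lit 1) (.e (nat_lit 275911) (nat_lit 0) .nil) .nil))) 
(.lf (nat_lit 544447) (.g (nat_lit 2005) (.e (nat_lit 114432) (nat_lit 3) (.e (nat_lit 163978) (nat_lit 30) (.e (nat_lit 573485) (nat_lit 13) (.e (nat_lit 65619) (nat_lit 10) (.e (nat_lit 344117) (nat_lit 21) .nil))))) (.g (nat_lit 0) (.e (nat_lit 276734) (nat_lit 0) .nil) .nil)))) (.nd (nat_lit 9) 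
(.lf (nat_lit 544191) (.g (nat_lit 3821) (.e (nat_lit 98384) (nat_lit 32) (.e (nat_lit 475177) (nat_lit 24) (.e (nat_lit 516115) (nat_lit 1) (.e (nat_lit 164325) (nat_lit 230) (.e (nat_lit 163875) (nat_lit 3) (.e (nat_lit 204834) (nat_lit 19) (.e (nat_lit 106517) (nat_lit 9) (.e (nat_lit 1255) (nat_lit 92) .nil)))))))) (.g (nat_lit 1) (.e (nat_lit 276230) (nat_lit 0) .nil) .nil))) 
(.lf (nat_lit 544703) (.g (nat_lit 1248) (.e (nat_lit 114694) (nat_lit 11) (.e (nat_lit 426133) (nat_lit 3) (.e (nat_lit 204865) (nat_lit 28) .nil))) (.g (nat_lit 0) (.e (nat_lit 277574) (nat_lit 0) .nil) .nil)))))) (.nd (nat_lit 7) (.nd (nat_lit 8) (.nd (nat_lit 9) 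
(.lf (nat_lit 543871) (.g (nat_lit 481) (.e (nat_lit 98369) (nat_lit 28) (.e (nat_lit 442427) (nat_lit 23) (.e (nat_lit 204849) (nat_lit 25) .nil))) (.g (nat_lit 0) (.e (nat_lit 275826) (nat_lit 0) .nil) .nil))) 
(.lf (nat_lit 544383) (.g (nat_lit 2359) (.e (nat_lit 98386) (nat_lit 32) (.e (nat_lit 475198) (nat_lit 40) (.e (nat_lit 704589) (nat_lit 3) (.e (nat_lit 163975) (nat_lit 30) (.e (nat_lit 573491) (nat_lit 15) (.e (nat_lit 89856) (nat_lit 23) .nil)))))) (.g (nat_lit 1) (.e (nat_lit 276430) (nat_lit 0) .nil) .nil)))) (.nd (nat_lit 9) 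
(.lf (nat_lit 544127) (.g (nat_lit 1931) (.e (nat_lit 98381) (nat_lit 31) (.e (nat_lit 466954) (nat_lit 11) (.e (nat_lit 335994) (nat_lit 1) (.e (nat_lit 57692) (nat_lit 156) (.e (nat_lit 163906) (nat_lit 12) (.e (nat_lit 426434) (nat_lit 18) .nil)))))) (.g (nat_lit 1) (.e (nat_lit 276149) (nat_lit 0) .nil) .nil))) 
(.lf (nat_lit 544639) (.g (nat_lit 604) (.e (nat_lit 122624) (nat_lit 4) (.e (nat_lit 213030) (nat_lit 11) (.e (nat_lit 24627) (nat_lit 9) .nil))) (.g (nat_lit 0) (.e (nat_lit 277442) (nat_lit 0) .nil) .nil))))) (.nd (nat_lit 8) (.nd (nat_lit 9) 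
(.lf (nat_lit 543999) (.g (nat_lit 3412) (.e (nat_lit 98373) (nat_lit 29) (.e (nat_lit 450588) (nat_lit 10) (.e (nat_lit 573457) (nat_lit 9) (.e (nat_lit 359) (nat_lit 30) (.e (nat_lit 409602) (nat_lit 0) (.e (nat_lit 5245) (nat_lit 298) (.e (nat_lit 1256) (nat_lit 92) .nil))))))) (.g (nat_lit 1) (.e (nat_lit 275978) (nat_lit 0) .nil) .nil))) 
(.lf (nat_lit 544511) (.g (nat_lit 278) (.e (nat_lit 114432) (nat_lit 6) (.e (nat_lit 188453) (nat_lit 24) (.e (nat_lit 229680) (nat_lit 244) .nil))) (.g (nat_lit 0) (.e (nat_lit 276965) (nat_lit 0) .nil) .nil)))) (.nd (nat_lit 9) 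
(.lf (nat_lit 544255) (.g (nat_lit 2728) (.e (nat_lit 98384) (nat_lit 32) (.e (nat_lit 475179) (nat_lit 24) (.e (nat_lit 516119) (nat_lit 1) (.e (nat_lit 164322) (nat_lit 230) (.e (nat_lit 163875) (nat_lit 3) .nil))))) (.g (nat_lit 0) (.e (nat_lit 276294) (nat_lit 0) .nil) .nil))) 
(.lf (nat_lit 544767) (.g (nat_lit 1913) (.e (nat_lit 114696) (nat_lit 11) (.e (nat_lit 426232) (nat_lit 9) (.e (nat_lit 426554) (nat_lit 32) (.e (nat_lit 376857) (nat_lit 21) (.e (nat_lit 57849) (nat_lit 252) (.e (nat_lit 57388) (nat_lit 5) .nil)))))) (.g (nat_lit 1) (.e (nat_lit 277739) (nat_lit 0) .nil) .nil)))))))))))))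

noncomputable def tv5592 : DT := (.nd (nat_lit 0) (.nd (nat_lit 1) (.nd (nat_lit 2) (.nd (nat_lit 3) (.nd (nat_lit 4) (.nd (nat_lit 5) (.nd (nat_lit 6) (.nd (nat_lit 7) (.nd (nat_lit 8) (.nd (nat_lit 9) 
(.lf (nat_lit 544768) (.g (nat_lit 1733) (.e (nat_lit 114696) (nat_lit 11) (.e (nat_lit 426232) (nat_lit 9) (.e (nat_lit 426554) (nat_lit 32) (.e (nat_lit 376857) (nat_lit 21) (.e (nat_lit 57849) (nat_lit 252) (.e (nat_lit 57390) (nat_lit 5) .nil)))))) (.g (nat_lit 1) (.e (nat_lit 277740) (nat_lit 0) .nil) .nil))) 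
(.lf (nat_lit 545280) (.g (nat_lit 1182) (.e (nat_lit 122624) (nat_lit 12) (.e (nat_lit 434248) (nat_lit 28) (.e (nat_lit 573452) (nat_lit 9) (.e (nat_lit 498) (nat_lit 40) .nil)))) (.g (nat_lit 0) (.e (nat_lit 278924) (nat_lit 0) .nil) .nil)))) (.nd (nat_lit 9) 
(.lf (nat_lit 545024) (.g (nat_lit 3636) (.e (nat_lit 114698) (nat_lit 11) (.e (nat_lit 426190) (nat_lit 9) (.e (nat_lit 426555) (nat_lit 32) (.e (nat_lit 376860) (nat_lit 21) (.e (nat_lit 57853) (nat_lit 252) (.e (nat_lit 57388) (nat_lit 5) .nil)))))) (.g (nat_lit 1) (.e (nat_lit 278281) (nat_lit 0) .nil) .nil))) 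
(.lf (nat_lit 545536) (.g (nat_lit 4418) (.e (nat_lit 114716) (nat_lit 22) (.e (nat_lit 90174) (nat_lit 14) (.e (nat_lit 180243) (nat_lit 5) (.e (nat_lit 532499) (nat_lit 1) (.e (nat_lit 57692) (nat_lit 156) (.e (nat_lit 163874) (nat_lit 3) (.e (nat_lit 204837) (nat_lit 20) .nil))))))) (.g (nat_lit 1) (.e (nat_lit 279863) (nat_lit 0) .nil) .nil))))) (.nd (nat_lit 8) (.nd (nat_lit 9) 
(.lf (nat_lit 544896) (.g (nat_lit 1791) (.e (nat_lit 114697) (nat_lit 11) (.e (nat_lit 426197) (nat_lit 9) (.e (nat_lit 426542) (nat_lit 29) (.e (nat_lit 352309) (nat_lit 21) (.e (nat_lit 57854) (nat_lit 252) .nil))))) (.g (nat_lit 0) (.e (nat_lit 277937) (nat_lit 0) .nil) .nil))) 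
(.lf (nat_lit 545408) (.g (nat_lit 2476) (.e (nat_lit 114714) (nat_lit 22) (.e (nat_lit 90174) (nat_lit 14) (.e (nat_lit 180243) (nat_lit 5) (.e (nat_lit 532504) (nat_lit 1) (.e (nat_lit 57664) (nat_lit 152) .nil))))) (.g (nat_lit 0) (.e (nat_lit 279476) (nat_lit 0) .nil) .nil)))) (.nd (nat_lit 9) 
(.lf (nat_lit 545152) (.g (nat_lit 2385) (.e (nat_lit 114698) (nat_lit 11) (.e (nat_lit 426327) (nat_lit 13) (.e (nat_lit 483403) (nat_lit 26) (.e (nat_lit 385109) (nat_lit 51) (.e (nat_lit 802560) (nat_lit 5) .nil))))) (.g (nat_lit 1) (.e (nat_lit 278442) (nat_lit 0) .nil) .nil))) 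
(.lf (nat_lit 545664) (.g (nat_lit 3499) (.e (nat_lit 114718) (nat_lit 23) (.e (nat_lit 98356) (nat_lit 26) (.e (nat_lit 426438) (nat_lit 18) (.e (nat_lit 98335) (nat_lit 18) (.e (nat_lit 164305) (nat_lit 226) (.e (nat_lit 2612) (nat_lit 163) (.e (nat_lit 163964) (nat_lit 25) (.e (nat_lit 532515) (nat_lit 3) .nil)))))))) (.g (nat_lit 1) (.e (nat_lit 280159) (nat_lit 0) .nil) .nil)))))) 
(.nd (nat_lit 7) (.nd (nat_lit 8) (.nd (nat_lit 9) 
(.lf (nat_lit 544832) (.g (nat_lit 3162) (.e (nat_lit 114697) (nat_lit 11) (.e (nat_lit 426133) (nat_lit 3) (.e (nat_lit 204861) (nat_lit 26) (.e (nat_lit 336078) (nat_lit 9) (.e (nat_lit 336324) (nat_lit 18) (.e (nat_lit 204838) (nat_lit 20) .nil)))))) (.g (nat_lit 1) (.e (nat_lit 277853) (nat_lit 0) .nil) .nil))) 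
(.lf (nat_lit 545344) (.g (nat_lit 2753) (.e (nat_lit 114714) (nat_lit 22) (.e (nat_lit 90172) (nat_lit 14) (.e (nat_lit 180243) (nat_lit 5) (.e (nat_lit 532503) (nat_lit 1) (.e (nat_lit 57651) (nat_lit 152) (.e (nat_lit 2615) (nat_lit 163) (.e (nat_lit 163962) (nat_lit 25) (.e (nat_lit 532513) (nat_lit 3) .nil)))))))) (.g (nat_lit 1) (.e (nat_lit 279371) (nat_lit 0) .nil) .nil)))) 
(.nd (nat_lit 9) 
(.lf (nat_lit 545088) (.g (nat_lit 2296) (.e (nat_lit 114698) (nat_lit 11) (.e (nat_lit 426200) (nat_lit 9) (.e (nat_lit 426555) (nat_lit 32) (.e (nat_lit 376857) (nat_lit 21) (.e (nat_lit 57848) (nat_lit 252) (.e (nat_lit 57390) (nat_lit 5) .nil)))))) (.g (nat_lit 1) (.e (nat_lit 278348) (nat_lit 0) .nil) .nil))) 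
(.lf (nat_lit 545600) (.g (nat_lit 1215) (.e (nat_lit 114717) (nat_lit 23) (.e (nat_lit 98384) (nat_lit 32) (.e (nat_lit 475177) (nat_lit 24) .nil))) (.g (nat_lit 0) (.e (nat_lit 280055) (nat_lit 0) .nil) .nil))))) (.nd (nat_lit 8) (.nd (nat_lit 9) 
(.lf (nat_lit 544960) (.g (nat_lit 1816) (.e (nat_lit 114698) (nat_lit 11) (.e (nat_lit 426116) (nat_lit 2) (.e (nat_lit 196672) (nat_lit 15) (.e (nat_lit 81922) (nat_lit 0) (.e (nat_lit 3253) (nat_lit 197) .nil))))) (.g (nat_lit 0) (.e (nat_lit 278133) (nat_lit 0) .nil) .nil))) 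
(.lf (nat_lit 545472) (.g (nat_lit 536) (.e (nat_lit 114715) (nat_lit 22) (.e (nat_lit 90172) (nat_lit 14) (.e (nat_lit 180244) (nat_lit 5) .nil))) (.g (nat_lit 0) (.e (nat_lit 279583) (nat_lit 0) .nil) .nil)))) (.nd (nat_lit 9) 
(.lf (nat_lit 545216) (.g (nat_lit 2737) (.e (nat_lit 122624) (nat_lit 11) (.e (nat_lit 426125) (nat_lit 2) (.e (nat_lit 196681) (nat_lit 17) (.e (nat_lit 131123) (nat_lit 12) (.e (nat_lit 385068) (nat_lit 26) .nil))))) (.g (nat_lit 0) (.e (nat_lit 278595) (nat_lit 0) .nil) .nil))) 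
(.lf (nat_lit 545728) (.g (nat_lit 2696) (.e (nat_lit 114718) (nat_lit 23) (.e (nat_lit 98367) (nat_lit 27) (.e (nat_lit 434231) (nat_lit 23) (.e (nat_lit 532502) (nat_lit 1) (.e (nat_lit 57692) (nat_lit 156) (.e (nat_lit 163874) (nat_lit 3) (.e (nat_lit 204836) (nat_lit 20) .nil))))))) (.g (nat_lit 1) (.e (nat_lit 280237) (nat_lit 0) .nil) .nil))))))) 
(.nd (nat_lit 6) (.nd (nat_lit 7) (.nd (nat_lit 8) (.nd (nat_lit 9) 
(.lf (nat_lit 544800) (.g (nat_lit 1745) (.e (nat_lit 114696) (nat_lit 11) (.e (nat_lit 426262) (nat_lit 9) (.e (nat_lit 426554) (nat_lit 32) (.e (nat_lit 376860) (nat_lit 21) (.e (nat_lit 57851) (nat_lit 252) (.e (nat_lit 57388) (nat_lit 5) .nil)))))) (.g (nat_lit 1) (.e (nat_lit 277772) (nat_lit 0) .nil) .nil))) 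
(.lf (nat_lit 545312) (.g (nat_lit 2765) (.e (nat_lit 114712) (nat_lit 21) (.e (nat_lit 57924) (nat_lit 282) (.e (nat_lit 163923) (nat_lit 15) (.e (nat_lit 450587) (nat_lit 10) (.e (nat_lit 573478) (nat_lit 12) (.e (nat_lit 57360) (nat_lit 0) (.e (nat_lit 5949) (nat_lit 322) (.e (nat_lit 57389) (nat_lit 5) .nil)))))))) (.g (nat_lit 1) (.e (nat_lit 279315) (nat_lit 0) .nil) .nil)))) 
(.nd (nat_lit 9) 
(.lf (nat_lit 545056) (.g (nat_lit 2947) (.e (nat_lit 114698) (nat_lit 11) (.e (nat_lit 426198) (nat_lit 9) (.e (nat_lit 426555) (nat_lit 32) (.e (nat_lit 376857) (nat_lit 21) (.e (nat_lit 57847) (nat_lit 252) (.e (nat_lit 57389) (nat_lit 5) .nil)))))) (.g (nat_lit 1) (.e (nat_lit 278315) (nat_lit 0) .nil) .nil))) 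
(.lf (nat_lit 545568) (.g (nat_lit 2448) (.e (nat_lit 114717) (nat_lit 23) (.e (nat_lit 98333) (nat_lit 18) (.e (nat_lit 164397) (nat_lit 256) (.e (nat_lit 57372) (nat_lit 2) (.e (nat_lit 90172) (nat_lit 14) .nil))))) (.g (nat_lit 0) (.e (nat_lit 280013) (nat_lit 0) .nil) .nil))))) (.nd (nat_lit 8) (.nd (nat_lit 9) 
(.lf (nat_lit 544928) (.g (nat_lit 3262) (.e (nat_lit 114697) (nat_lit 11) (.e (nat_lit 426198) (nat_lit 9) (.e (nat_lit 426555) (nat_lit 32) (.e (nat_lit 376857) (nat_lit 21) (.e (nat_lit 57853) (nat_lit 252) (.e (nat_lit 57388) (nat_lit 5) .nil)))))) (.g (nat_lit 1) (.e (nat_lit 277971) (nat_lit 0) .nil) .nil))) 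
(.lf (nat_lit 545440) (.g (nat_lit 3008) (.e (nat_lit 114715) (nat_lit 22) (.e (nat_lit 90170) (nat_lit 13) (.e (nat_lit 172065) (nat_lit 3) (.e (nat_lit 204831) (nat_lit 18) (.e (nat_lit 57692) (nat_lit 156) (.e (nat_lit 163875) (nat_lit 3) (.e (nat_lit 204836) (nat_lit 20) .nil))))))) (.g (nat_lit 1) (.e (nat_lit 279543) (nat_lit 0) .nil) .nil)))) (.nd (nat_lit 9) 
(.lf (nat_lit 545184) (.g (nat_lit 1078) (.e (nat_lit 114698) (nat_lit 11) (.e (nat_lit 426335) (nat_lit 13) (.e (nat_lit 483388) (nat_lit 23) .nil))) (.g (nat_lit 0) (.e (nat_lit 278503) (nat_lit 0) .nil) .nil))) 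
(.lf (nat_lit 545696) (.g (nat_lit 3257) (.e (nat_lit 114718) (nat_lit 23) (.e (nat_lit 98366) (nat_lit 27) (.e (nat_lit 434231) (nat_lit 23) (.e (nat_lit 532500) (nat_lit 1) (.e (nat_lit 57692) (nat_lit 156) (.e (nat_lit 163874) (nat_lit 3) (.e (nat_lit 204836) (nat_lit 20) .nil))))))) (.g (nat_lit 1) (.e (nat_lit 280196) (nat_lit 0) .nil) .nil)))))) 
(.nd (nat_lit 7) (.nd (nat_lit 8) (.nd (nat_lit 9) 
(.lf (nat_lit 544864) (.g (nat_lit 2801) (.e (nat_lit 114697) (nat_lit 11) (.e (nat_lit 426139) (nat_lit 3) (.e (nat_lit 204861) (nat_lit 26) (.e (nat_lit 336078) (nat_lit 9) (.e (nat_lit 336324) (nat_lit 18) (.e (nat_lit 204837) (nat_lit 20) .nil)))))) (.g (nat_lit 1) (.e (nat_lit 277893) (nat_lit 0) .nil) .nil))) 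
(.lf (nat_lit 545376) (.g (nat_lit 2490) (.e (nat_lit 114714) (nat_lit 22) (.e (nat_lit 90172) (nat_lit 14) (.e (nat_lit 180244) (nat_lit 5) (.e (nat_lit 532503) (nat_lit 1) (.e (nat_lit 57687) (nat_lit 156) (.e (nat_lit 163841) (nat_lit 0) (.e (nat_lit 3256) (nat_lit 197) (.e (nat_lit 532513) (nat_lit 3) .nil)))))))) (.g (nat_lit 1) (.e (nat_lit 279430) (nat_lit 0) .nil) .nil)))) 
(.nd (nat_lit 9) 
(.lf (nat_lit 545120) (.g (nat_lit 1813) (.e (nat_lit 114698) (nat_lit 11) (.e (nat_lit 426325) (nat_lit 13) (.e (nat_lit 483383) (nat_lit 23) (.e (nat_lit 336336) (nat_lit 20) (.e (nat_lit 229120) (nat_lit 5) .nil))))) (.g (nat_lit 1) (.e (nat_lit 278385) (nat_lit 0) .nil) .nil))) 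
(.lf (nat_lit 545632) (.g (nat_lit 2480) (.e (nat_lit 114718) (nat_lit 23) (.e (nat_lit 98334) (nat_lit 18) (.e (nat_lit 164398) (nat_lit 256) (.e (nat_lit 57379) (nat_lit 3) (.e (nat_lit 98354) (nat_lit 26) .nil))))) (.g (nat_lit 0) (.e (nat_lit 280115) (nat_lit 0) .nil) .nil))))) (.nd (nat_lit 8) (.nd (nat_lit 9) 
(.lf (nat_lit 544992) (.g (nat_lit 489) (.e (nat_lit 114698) (nat_lit 11) (.e (nat_lit 426139) (nat_lit 3) (.e (nat_lit 204852) (nat_lit 26) .nil))) (.g (nat_lit 0) (.e (nat_lit 278216) (nat_lit 0) .nil) .nil))) 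
(.lf (nat_lit 545504) (.g (nat_lit 2516) (.e (nat_lit 114716) (nat_lit 22) (.e (nat_lit 90172) (nat_lit 14) (.e (nat_lit 180243) (nat_lit 5) (.e (nat_lit 532501) (nat_lit 1) (.e (nat_lit 57690) (nat_lit 156) (.e (nat_lit 163872) (nat_lit 3) (.e (nat_lit 204838) (nat_lit 20) .nil))))))) (.g (nat_lit 1) (.e (nat_lit 279665) (nat_lit 0) .nil) .nil)))) (.nd (nat_lit 9) 
(.lf (nat_lit 545248) (.g (nat_lit 1201) (.e (nat_lit 122624) (nat_lit 11) (.e (nat_lit 426188) (nat_lit 9) (.e (nat_lit 426555) (nat_lit 32) (.e (nat_lit 376859) (nat_lit 21) .nil)))) (.g (nat_lit 0) (.e (nat_lit 278674) (nat_lit 0) .nil) .nil))) 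
(.lf (nat_lit 545760) (.g (nat_lit 3497) (.e (nat_lit 114718) (nat_lit 23) (.e (nat_lit 98384) (nat_lit 32) (.e (nat_lit 475179) (nat_lit 24) (.e (nat_lit 516117) (nat_lit 1) (.e (nat_lit 164329) (nat_lit 230) (.e (nat_lit 163850) (nat_lit 0) (.e (nat_lit 3252) (nat_lit 197) (.e (nat_lit 532515) (nat_lit 3) .nil)))))))) (.g (nat_lit 1) (.e (nat_lit 280278) (nat_lit 0) .nil) .nil)))))))) 
(.nd (nat_lit 5) (.nd (nat_lit 6) (.nd (nat_lit 7) (.nd (nat_lit 8) (.nd (nat_lit 9) 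
(.lf (nat_lit 544784) (.g (nat_lit 2025) (.e (nat_lit 114696) (nat_lit 11) (.e (nat_lit 426234) (nat_lit 9) (.e (nat_lit 426554) (nat_lit 32) (.e (nat_lit 376859) (nat_lit 21) (.e (nat_lit 57849) (nat_lit 252) (.e (nat_lit 57388) (nat_lit 5) .nil)))))) (.g (nat_lit 1) (.e (nat_lit 277756) (nat_lit 0) .nil) .nil))) 
(.lf (nat_lit 545296) (.g (nat_lit 5167) (.e (nat_lit 114708) (nat_lit 20) (.e (nat_lit 1800) (nat_lit 119) (.e (nat_lit 516119) (nat_lit 1) (.e (nat_lit 164403) (nat_lit 256) (.e (nat_lit 57378) (nat_lit 3) (.e (nat_lit 98367) (nat_lit 27) (.e (nat_lit 434231) (nat_lit 23) (.e (nat_lit 532514) (nat_lit 3) .nil)))))))) (.g (nat_lit 1) (.e (nat_lit 279179) (nat_lit 0) .nil) .nil)))) 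
(.nd (nat_lit 9) 
(.lf (nat_lit 545040) (.g (nat_lit 3021) (.e (nat_lit 114698) (nat_lit 11) (.e (nat_lit 426197) (nat_lit 9) (.e (nat_lit 426555) (nat_lit 32) (.e (nat_lit 376859) (nat_lit 21) (.e (nat_lit 57847) (nat_lit 252) (.e (nat_lit 57389) (nat_lit 5) .nil)))))) (.g (nat_lit 1) (.e (nat_lit 278297) (nat_lit 0) .nil) .nil))) 
(.lf (nat_lit 545552) (.g (nat_lit 4428) (.e (nat_lit 114716) (nat_lit 22) (.e (nat_lit 90174) (nat_lit 14) (.e (nat_lit 180243) (nat_lit 5) (.e (nat_lit 532504) (nat_lit 1) (.e (nat_lit 57692) (nat_lit 156) (.e (nat_lit 163874) (nat_lit 3) (.e (nat_lit 204837) (nat_lit 20) .nil))))))) (.g (nat_lit 1) (.e (nat_lit 279953) (nat_lit 0) .nil) .nil))))) (.nd (nat_lit 8) (.nd (nat_lit 9) 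
(.lf (nat_lit 544912) (.g (nat_lit 2516) (.e (nat_lit 114697) (nat_lit 11) (.e (nat_lit 426198) (nat_lit 9) (.e (nat_lit 426538) (nat_lit 29) (.e (nat_lit 352309) (nat_lit 21) (.e (nat_lit 57846) (nat_lit 252) (.e (nat_lit 57390) (nat_lit 5) .nil)))))) (.g (nat_lit 1) (.e (nat_lit 277954) (nat_lit 0) .nil) .nil))) 
(.lf (nat_lit 545424) (.g (nat_lit 3897) (.e (nat_lit 114715) (nat_lit 22) (.e (nat_lit 90170) (nat_lit 13) (.e (nat_lit 172065) (nat_lit 3) (.e (nat_lit 204829) (nat_lit 18) (.e (nat_lit 57691) (nat_lit 156) (.e (nat_lit 163875) (nat_lit 3) (.e (nat_lit 204836) (nat_lit 20) .nil))))))) (.g (nat_lit 1) (.e (nat_lit 279522) (nat_lit 0) .nil) .nil)))) (.nd (nat_lit 9) 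
(.lf (nat_lit 545168) (.g (nat_lit 2079) (.e (nat_lit 114698) (nat_lit 11) (.e (nat_lit 426334) (nat_lit 13) (.e (nat_lit 483406) (nat_lit 26) (.e (nat_lit 385109) (nat_lit 51) (.e (nat_lit 802560) (nat_lit 5) .nil))))) (.g (nat_lit 1) (.e (nat_lit 278487) (nat_lit 0) .nil) .nil))) 
(.lf (nat_lit 545680) (.g (nat_lit 2449) (.e (nat_lit 114718) (nat_lit 23) (.e (nat_lit 98366) (nat_lit 27) (.e (nat_lit 434231) (nat_lit 23) (.e (nat_lit 532483) (nat_lit 0) .nil)))) (.g (nat_lit 0) (.e (nat_lit 280179) (nat_lit 0) .nil) .nil)))))) (.nd (nat_lit 7) (.nd (nat_lit 8) (.nd (nat_lit 9) 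
(.lf (nat_lit 544848) (.g (nat_lit 3357) (.e (nat_lit 114697) (nat_lit 11) (.e (nat_lit 426137) (nat_lit 3) (.e (nat_lit 204861) (nat_lit 26) (.e (nat_lit 336088) (nat_lit 9) (.e (nat_lit 336324) (nat_lit 18) (.e (nat_lit 204838) (nat_lit 20) .nil)))))) (.g (nat_lit 1) (.e (nat_lit 277871) (nat_lit 0) .nil) .nil))) 
(.lf (nat_lit 545360) (.g (nat_lit 2405) (.e (nat_lit 114714) (nat_lit 22) (.e (nat_lit 90172) (nat_lit 14) (.e (nat_lit 180244) (nat_lit 5) (.e (nat_lit 532499) (nat_lit 1) (.e (nat_lit 57688) (nat_lit 156) (.e (nat_lit 163845) (nat_lit 0) (.e (nat_lit 3256) (nat_lit 197) (.e (nat_lit 532513) (nat_lit 3) .nil)))))))) (.g (nat_lit 1) (.e (nat_lit 279398) (nat_lit 0) .nil) .nil)))) 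
(.nd (nat_lit 9) 
(.lf (nat_lit 545104) (.g (nat_lit 2340) (.e (nat_lit 114698) (nat_lit 11) (.e (nat_lit 426204) (nat_lit 9) (.e (nat_lit 426513) (nat_lit 27) (.e (nat_lit 336194) (nat_lit 12) (.e (nat_lit 385109) (nat_lit 51) (.e (nat_lit 802560) (nat_lit 5) .nil)))))) (.g (nat_lit 1) (.e (nat_lit 278365) (nat_lit 0) .nil) .nil))) 
(.lf (nat_lit 545616) (.g (nat_lit 3453) (.e (nat_lit 114718) (nat_lit 23) (.e (nat_lit 98333) (nat_lit 18) (.e (nat_lit 164332) (nat_lit 230) (.e (nat_lit 163869) (nat_lit 2) (.e (nat_lit 196656) (nat_lit 11) .nil))))) (.g (nat_lit 0) (.e (nat_lit 280085) (nat_lit 0) .nil) .nil))))) (.nd (nat_lit 8) (.nd (nat_lit 9) 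
(.lf (nat_lit 544976) (.g (nat_lit 1214) (.e (nat_lit 114698) (nat_lit 11) (.e (nat_lit 426124) (nat_lit 2) (.e (nat_lit 196681) (nat_lit 17) (.e (nat_lit 131105) (nat_lit 9) .nil)))) (.g (nat_lit 0) (.e (nat_lit 278189) (nat_lit 0) .nil) .nil))) 
(.lf (nat_lit 545488) (.g (nat_lit 2441) (.e (nat_lit 114716) (nat_lit 22) (.e (nat_lit 90158) (nat_lit 11) (.e (nat_lit 24651) (nat_lit 12) (.e (nat_lit 385068) (nat_lit 26) (.e (nat_lit 540416) (nat_lit 18) .nil))))) (.g (nat_lit 0) (.e (nat_lit 279621) (nat_lit 0) .nil) .nil)))) (.nd (nat_lit 9) 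
(.lf (nat_lit 545232) (.g (nat_lit 2076) (.e (nat_lit 122624) (nat_lit 11) (.e (nat_lit 426139) (nat_lit 3) (.e (nat_lit 204861) (nat_lit 26) (.e (nat_lit 336076) (nat_lit 9) (.e (nat_lit 336325) (nat_lit 18) .nil))))) (.g (nat_lit 0) (.e (nat_lit 278630) (nat_lit 0) .nil) .nil))) 
(.lf (nat_lit 545744) (.g (nat_lit 3247) (.e (nat_lit 114718) (nat_lit 23) (.e (nat_lit 98384) (nat_lit 32) (.e (nat_lit 475177) (nat_lit 24) (.e (nat_lit 516119) (nat_lit 1) (.e (nat_lit 164325) (nat_lit 230) (.e (nat_lit 163875) (nat_lit 3) (.e (nat_lit 204837) (nat_lit 20) .nil))))))) (.g (nat_lit 1) (.e (nat_lit 280257) (nat_lit 0) .nil) .nil))))))) 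
(.nd (nat_lit 6) (.nd (nat_lit 7) (.nd (nat_lit 8) (.nd (nat_lit 9) 
(.lf (nat_lit 544816) (.g (nat_lit 3188) (.e (nat_lit 114697) (nat_lit 11) (.e (nat_lit 426123) (nat_lit 2) (.e (nat_lit 196666) (nat_lit 13) (.e (nat_lit 65622) (nat_lit 12) (.e (nat_lit 385066) (nat_lit 26) (.e (nat_lit 532515) (nat_lit 3) .nil)))))) (.g (nat_lit 1) (.e (nat_lit 277823) (nat_lit 0) .nil) .nil))) 
(.lf (nat_lit 545328) (.g (nat_lit 5517) (.e (nat_lit 114714) (nat_lit 22) (.e (nat_lit 90160) (nat_lit 11) (.e (nat_lit 24665) (nat_lit 14) (.e (nat_lit 401414) (nat_lit 0) (.e (nat_lit 3272) (nat_lit 199) (.e (nat_lit 548913) (nat_lit 18) (.e (nat_lit 179968) (nat_lit 20) .nil))))))) (.g (nat_lit 1) (.e (nat_lit 279350) (nat_lit 0) .nil) .nil)))) (.nd (nat_lit 9) 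
(.lf (nat_lit 545072) (.g (nat_lit 2932) (.e (nat_lit 114698) (nat_lit 11) (.e (nat_lit 426199) (nat_lit 9) (.e (nat_lit 426555) (nat_lit 32) (.e (nat_lit 376859) (nat_lit 21) (.e (nat_lit 57849) (nat_lit 252) (.e (nat_lit 57390) (nat_lit 5) .nil)))))) (.g (nat_lit 1) (.e (nat_lit 278331) (nat_lit 0) .nil) .nil))) 
(.lf (nat_lit 545584) (.g (nat_lit 2701) (.e (nat_lit 114717) (nat_lit 23) (.e (nat_lit 98334) (nat_lit 18) (.e (nat_lit 164398) (nat_lit 256) (.e (nat_lit 57372) (nat_lit 2) (.e (nat_lit 90172) (nat_lit 14) .nil))))) (.g (nat_lit 0) (.e (nat_lit 280039) (nat_lit 0) .nil) .nil))))) (.nd (nat_lit 8) (.nd (nat_lit 9) 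
(.lf (nat_lit 544944) (.g (nat_lit 3557) (.e (nat_lit 114697) (nat_lit 11) (.e (nat_lit 426199) (nat_lit 9) (.e (nat_lit 426555) (nat_lit 32) (.e (nat_lit 376857) (nat_lit 21) (.e (nat_lit 57854) (nat_lit 252) (.e (nat_lit 57389) (nat_lit 5) .nil)))))) (.g (nat_lit 1) (.e (nat_lit 277987) (nat_lit 0) .nil) .nil))) 
(.lf (nat_lit 545456) (.g (nat_lit 2380) (.e (nat_lit 114715) (nat_lit 22) (.e (nat_lit 90170) (nat_lit 13) (.e (nat_lit 172067) (nat_lit 3) (.e (nat_lit 204830) (nat_lit 18) (.e (nat_lit 57689) (nat_lit 156) (.e (nat_lit 163874) (nat_lit 3) (.e (nat_lit 204836) (nat_lit 20) .nil))))))) (.g (nat_lit 1) (.e (nat_lit 279566) (nat_lit 0) .nil) .nil)))) (.nd (nat_lit 9) 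
(.lf (nat_lit 545200) (.g (nat_lit 643) (.e (nat_lit 122624) (nat_lit 11) (.e (nat_lit 426123) (nat_lit 2) (.e (nat_lit 196681) (nat_lit 17) .nil))) (.g (nat_lit 0) (.e (nat_lit 278547) (nat_lit 0) .nil) .nil))) 
(.lf (nat_lit 545712) (.g (nat_lit 2858) (.e (nat_lit 114718) (nat_lit 23) (.e (nat_lit 98367) (nat_lit 27) (.e (nat_lit 434231) (nat_lit 23) (.e (nat_lit 532499) (nat_lit 1) (.e (nat_lit 57686) (nat_lit 156) (.e (nat_lit 163875) (nat_lit 3) (.e (nat_lit 204836) (nat_lit 20) .nil))))))) (.g (nat_lit 1) (.e (nat_lit 280218) (nat_lit 0) .nil) .nil)))))) 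
(.nd (nat_lit 7) (.nd (nat_lit 8) (.nd (nat_lit 9) 
(.lf (nat_lit 544880) (.g (nat_lit 703) (.e (nat_lit 114697) (nat_lit 11) (.e (nat_lit 426190) (nat_lit 9) (.e (nat_lit 426544) (nat_lit 30) .nil))) (.g (nat_lit 0) (.e (nat_lit 277920) (nat_lit 0) .nil) .nil))) 
(.lf (nat_lit 545392) (.g (nat_lit 2477) (.e (nat_lit 114714) (nat_lit 22) (.e (nat_lit 90174) (nat_lit 14) (.e (nat_lit 180243) (nat_lit 5) (.e (nat_lit 532499) (nat_lit 1) (.e (nat_lit 57665) (nat_lit 152) .nil))))) (.g (nat_lit 0) (.e (nat_lit 279457) (nat_lit 0) .nil) .nil)))) (.nd (nat_lit 9) 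
(.lf (nat_lit 545136) (.g (nat_lit 2613) (.e (nat_lit 114698) (nat_lit 11) (.e (nat_lit 426325) (nat_lit 13) (.e (nat_lit 483408) (nat_lit 26) (.e (nat_lit 385107) (nat_lit 51) (.e (nat_lit 802560) (nat_lit 5) .nil))))) (.g (nat_lit 1) (.e (nat_lit 278413) (nat_lit 0) .nil) .nil))) 
(.lf (nat_lit 545648) (.g (nat_lit 2049) (.e (nat_lit 114718) (nat_lit 23) (.e (nat_lit 98356) (nat_lit 26) (.e (nat_lit 426436) (nat_lit 18) (.e (nat_lit 98333) (nat_lit 18) (.e (nat_lit 164327) (nat_lit 230) (.e (nat_lit 163875) (nat_lit 3) (.e (nat_lit 204836) (nat_lit 20) .nil))))))) (.g (nat_lit 1) (.e (nat_lit 280139) (nat_lit 0) .nil) .nil))))) (.nd (nat_lit 8) (.nd (nat_lit 9) 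
(.lf (nat_lit 545008) (.g (nat_lit 1426) (.e (nat_lit 114698) (nat_lit 11) (.e (nat_lit 426188) (nat_lit 9) (.e (nat_lit 426555) (nat_lit 32) (.e (nat_lit 376856) (nat_lit 21) .nil)))) (.g (nat_lit 0) (.e (nat_lit 278265) (nat_lit 0) .nil) .nil))) 
(.lf (nat_lit 545520) (.g (nat_lit 2186) (.e (nat_lit 114716) (nat_lit 22) (.e (nat_lit 90172) (nat_lit 14) (.e (nat_lit 180244) (nat_lit 5) (.e (nat_lit 532503) (nat_lit 1) (.e (nat_lit 57691) (nat_lit 156) .nil))))) (.g (nat_lit 0) (.e (nat_lit 279788) (nat_lit 0) .nil) .nil)))) (.nd (nat_lit 9) 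
(.lf (nat_lit 545264) (.g (nat_lit 134) (.e (nat_lit 122624) (nat_lit 11) (.e (nat_lit 426228) (nat_lit 9) (.e (nat_lit 426554) (nat_lit 32) .nil))) (.g (nat_lit 0) (.e (nat_lit 278690) (nat_lit 0) .nil) .nil))) 
(.lf (nat_lit 545776) (.g (nat_lit 2636) (.e (nat_lit 114718) (nat_lit 23) (.e (nat_lit 98386) (nat_lit 32) (.e (nat_lit 475179) (nat_lit 24) (.e (nat_lit 516117) (nat_lit 1) (.e (nat_lit 164332) (nat_lit 230) .nil))))) (.g (nat_lit 0) (.e (nat_lit 280297) (nat_lit 0) .nil) .nil))))))))) (.nd (nat_lit 4) (.nd (nat_lit 5) (.nd (nat_lit 6) (.nd (nat_lit 7) (.nd (nat_lit 8) (.nd (nat_lit 9) 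
(.lf (nat_lit 544776) (.g (nat_lit 2021) (.e (nat_lit 114696) (nat_lit 11) (.e (nat_lit 426232) (nat_lit 9) (.e (nat_lit 426554) (nat_lit 32) (.e (nat_lit 376860) (nat_lit 21) (.e (nat_lit 57853) (nat_lit 252) (.e (nat_lit 57388) (nat_lit 5) .nil)))))) (.g (nat_lit 1) (.e (nat_lit 277748) (nat_lit 0) .nil) .nil))) 
(.lf (nat_lit 545288) (.g (nat_lit 2454) (.e (nat_lit 114707) (nat_lit 20) (.e (nat_lit 1800) (nat_lit 119) (.e (nat_lit 516120) (nat_lit 1) (.e (nat_lit 164403) (nat_lit 256) (.e (nat_lit 57371) (nat_lit 2) .nil))))) (.g (nat_lit 0) (.e (nat_lit 279169) (nat_lit 0) .nil) .nil)))) (.nd (nat_lit 9) 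
(.lf (nat_lit 545032) (.g (nat_lit 2894) (.e (nat_lit 114698) (nat_lit 11) (.e (nat_lit 426197) (nat_lit 9) (.e (nat_lit 426546) (nat_lit 30) (.e (nat_lit 360452) (nat_lit 0) (.e (nat_lit 5195) (nat_lit 294) (.e (nat_lit 57388) (nat_lit 5) .nil)))))) (.g (nat_lit 1) (.e (nat_lit 278289) (nat_lit 0) .nil) .nil))) 
(.lf (nat_lit 545544) (.g (nat_lit 1016) (.e (nat_lit 114716) (nat_lit 22) (.e (nat_lit 90174) (nat_lit 14) (.e (nat_lit 180243) (nat_lit 5) (.e (nat_lit 532503) (nat_lit 1) .nil)))) (.g (nat_lit 0) (.e (nat_lit 279898) (nat_lit 0) .nil) .nil))))) (.nd (nat_lit 8) (.nd (nat_lit 9) 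
(.lf (nat_lit 544904) (.g (nat_lit 2466) (.e (nat_lit 114697) (nat_lit 11) (.e (nat_lit 426197) (nat_lit 9) (.e (nat_lit 426555) (nat_lit 32) (.e (nat_lit 376859) (nat_lit 21) (.e (nat_lit 57846) (nat_lit 252) (.e (nat_lit 57390) (nat_lit 5) .nil)))))) (.g (nat_lit 1) (.e (nat_lit 277945) (nat_lit 0) .nil) .nil))) 
(.lf (nat_lit 545416) (.g (nat_lit 1698) (.e (nat_lit 114714) (nat_lit 22) (.e (nat_lit 90196) (nat_lit 18) (.e (nat_lit 2798) (nat_lit 180) (.e (nat_lit 303127) (nat_lit 9) (.e (nat_lit 426567) (nat_lit 34) (.e (nat_lit 401152) (nat_lit 3) .nil)))))) (.g (nat_lit 1) (.e (nat_lit 279489) (nat_lit 0) .nil) .nil)))) (.nd (nat_lit 9) 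
(.lf (nat_lit 545160) (.g (nat_lit 1650) (.e (nat_lit 114698) (nat_lit 11) (.e (nat_lit 426334) (nat_lit 13) (.e (nat_lit 483379) (nat_lit 23) (.e (nat_lit 336334) (nat_lit 20) (.e (nat_lit 229120) (nat_lit 5) .nil))))) (.g (nat_lit 1) (.e (nat_lit 278469) (nat_lit 0) .nil) .nil))) 
(.lf (nat_lit 545672) (.g (nat_lit 2802) (.e (nat_lit 114718) (nat_lit 23) (.e (nat_lit 98365) (nat_lit 26) (.e (nat_lit 426137) (nat_lit 3) (.e (nat_lit 204829) (nat_lit 18) (.e (nat_lit 57691) (nat_lit 156) (.e (nat_lit 163875) (nat_lit 3) (.e (nat_lit 204838) (nat_lit 20) .nil))))))) (.g (nat_lit 1) (.e (nat_lit 280170) (nat_lit 0) .nil) .nil)))))) 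
(.nd (nat_lit 7) (.nd (nat_lit 8) (.nd (nat_lit 9) 
(.lf (nat_lit 544840) (.g (nat_lit 1237) (.e (nat_lit 114697) (nat_lit 11) (.e (nat_lit 426133) (nat_lit 3) (.e (nat_lit 204877) (nat_lit 31) .nil))) (.g (nat_lit 0) (.e (nat_lit 277863) (nat_lit 0) .nil) .nil))) 
(.lf (nat_lit 545352) (.g (nat_lit 2522) (.e (nat_lit 114714) (nat_lit 22) (.e (nat_lit 90172) (nat_lit 14) (.e (nat_lit 180244) (nat_lit 5) (.e (nat_lit 532499) (nat_lit 1) (.e (nat_lit 57656) (nat_lit 152) (.e (nat_lit 2715) (nat_lit 171) (.e (nat_lit 229433) (nat_lit 25) (.e (nat_lit 532513) (nat_lit 3) .nil)))))))) (.g (nat_lit 1) (.e (nat_lit 279383) (nat_lit 0) .nil) .nil)))) 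
(.nd (nat_lit 9) 
(.lf (nat_lit 545096) (.g (nat_lit 2404) (.e (nat_lit 114698) (nat_lit 11) (.e (nat_lit 426204) (nat_lit 9) (.e (nat_lit 426497) (nat_lit 27) (.e (nat_lit 336194) (nat_lit 12) (.e (nat_lit 385109) (nat_lit 51) (.e (nat_lit 802560) (nat_lit 5) .nil)))))) (.g (nat_lit 1) (.e (nat_lit 278357) (nat_lit 0) .nil) .nil))) 
(.lf (nat_lit 545608) (.g (nat_lit 3749) (.e (nat_lit 114718) (nat_lit 23) (.e (nat_lit 98332) (nat_lit 18) (.e (nat_lit 164327) (nat_lit 230) (.e (nat_lit 163868) (nat_lit 2) (.e (nat_lit 196656) (nat_lit 11) (.e (nat_lit 16416) (nat_lit 3) (.e (nat_lit 204838) (nat_lit 20) .nil))))))) (.g (nat_lit 1) (.e (nat_lit 280065) (nat_lit 0) .nil) .nil))))) (.nd (nat_lit 8) (.nd (nat_lit 9) 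
(.lf (nat_lit 544968) (.g (nat_lit 1278) (.e (nat_lit 114698) (nat_lit 11) (.e (nat_lit 426123) (nat_lit 2) (.e (nat_lit 196666) (nat_lit 13) (.e (nat_lit 65610) (nat_lit 10) .nil)))) (.g (nat_lit 0) (.e (nat_lit 278155) (nat_lit 0) .nil) .nil))) 
(.lf (nat_lit 545480) (.g (nat_lit 1758) (.e (nat_lit 114715) (nat_lit 22) (.e (nat_lit 90174) (nat_lit 14) (.e (nat_lit 180243) (nat_lit 5) (.e (nat_lit 532502) (nat_lit 1) (.e (nat_lit 57692) (nat_lit 156) .nil))))) (.g (nat_lit 0) (.e (nat_lit 279592) (nat_lit 0) .nil) .nil)))) (.nd (nat_lit 9) 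
(.lf (nat_lit 545224) (.g (nat_lit 2345) (.e (nat_lit 122624) (nat_lit 11) (.e (nat_lit 426133) (nat_lit 3) (.e (nat_lit 204861) (nat_lit 26) (.e (nat_lit 336088) (nat_lit 9) (.e (nat_lit 336324) (nat_lit 18) .nil))))) (.g (nat_lit 0) (.e (nat_lit 278618) (nat_lit 0) .nil) .nil))) 
(.lf (nat_lit 545736) (.g (nat_lit 535) (.e (nat_lit 114718) (nat_lit 23) (.e (nat_lit 98384) (nat_lit 32) (.e (nat_lit 475177) (nat_lit 24) .nil))) (.g (nat_lit 0) (.e (nat_lit 280248) (nat_lit 0) .nil) .nil))))))) (.nd (nat_lit 6) (.nd (nat_lit 7) (.nd (nat_lit 8) (.nd (nat_lit 9) 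
(.lf (nat_lit 544808) (.g (nat_lit 2867) (.e (nat_lit 114697) (nat_lit 11) (.e (nat_lit 426121) (nat_lit 2) (.e (nat_lit 196681) (nat_lit 17) (.e (nat_lit 131109) (nat_lit 9) (.e (nat_lit 336324) (nat_lit 18) (.e (nat_lit 204838) (nat_lit 20) .nil)))))) (.g (nat_lit 1) (.e (nat_lit 277804) (nat_lit 0) .nil) .nil))) 
(.lf (nat_lit 545320) (.g (nat_lit 3423) (.e (nat_lit 114712) (nat_lit 21) (.e (nat_lit 57930) (nat_lit 282) (.e (nat_lit 163923) (nat_lit 15) (.e (nat_lit 450587) (nat_lit 10) (.e (nat_lit 573477) (nat_lit 12) (.e (nat_lit 57360) (nat_lit 0) (.e (nat_lit 5934) (nat_lit 322) (.e (nat_lit 57389) (nat_lit 5) .nil)))))))) (.g (nat_lit 1) (.e (nat_lit 279329) (nat_lit 0) .nil) .nil)))) 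
(.nd (nat_lit 9) 
(.lf (nat_lit 545064) (.g (nat_lit 1891) (.e (nat_lit 114698) (nat_lit 11) (.e (nat_lit 426199) (nat_lit 9) (.e (nat_lit 426506) (nat_lit 27) (.e (nat_lit 336083) (nat_lit 9) (.e (nat_lit 336336) (nat_lit 20) (.e (nat_lit 229120) (nat_lit 5) .nil)))))) (.g (nat_lit 1) (.e (nat_lit 278323) (nat_lit 0) .nil) .nil))) 
(.lf (nat_lit 545576) (.g (nat_lit 3495) (.e (nat_lit 114717) (nat_lit 23) (.e (nat_lit 98333) (nat_lit 18) (.e (nat_lit 164403) (nat_lit 256) (.e (nat_lit 57373) (nat_lit 2) (.e (nat_lit 90167) (nat_lit 13) .nil))))) (.g (nat_lit 0) (.e (nat_lit 280023) (nat_lit 0) .nil) .nil))))) (.nd (nat_lit 8) (.nd (nat_lit 9) 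
(.lf (nat_lit 544936) (.g (nat_lit 2156) (.e (nat_lit 114697) (nat_lit 11) (.e (nat_lit 426198) (nat_lit 9) (.e (nat_lit 426555) (nat_lit 32) (.e (nat_lit 376860) (nat_lit 21) (.e (nat_lit 57844) (nat_lit 252) (.e (nat_lit 57388) (nat_lit 5) .nil)))))) (.g (nat_lit 1) (.e (nat_lit 277979) (nat_lit 0) .nil) .nil))) 
(.lf (nat_lit 545448) (.g (nat_lit 4549) (.e (nat_lit 114715) (nat_lit 22) (.e (nat_lit 90170) (nat_lit 13) (.e (nat_lit 172067) (nat_lit 3) (.e (nat_lit 204829) (nat_lit 18) (.e (nat_lit 57688) (nat_lit 156) (.e (nat_lit 163873) (nat_lit 3) (.e (nat_lit 204837) (nat_lit 20) .nil))))))) (.g (nat_lit 1) (.e (nat_lit 279556) (nat_lit 0) .nil) .nil)))) (.nd (nat_lit 9) 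
(.lf (nat_lit 545192) (.g (nat_lit 1996) (.e (nat_lit 114698) (nat_lit 11) (.e (nat_lit 426335) (nat_lit 13) (.e (nat_lit 483405) (nat_lit 26) (.e (nat_lit 385107) (nat_lit 51) (.e (nat_lit 802560) (nat_lit 5) .nil))))) (.g (nat_lit 1) (.e (nat_lit 278518) (nat_lit 0) .nil) .nil))) 
(.lf (nat_lit 545704) (.g (nat_lit 2861) (.e (nat_lit 114718) (nat_lit 23) (.e (nat_lit 98366) (nat_lit 27) (.e (nat_lit 434231) (nat_lit 23) (.e (nat_lit 532502) (nat_lit 1) (.e (nat_lit 57692) (nat_lit 156) (.e (nat_lit 163875) (nat_lit 3) (.e (nat_lit 204838) (nat_lit 20) .nil))))))) (.g (nat_lit 1) (.e (nat_lit 280204) (nat_lit 0) .nil) .nil)))))) 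
(.nd (nat_lit 7) (.nd (nat_lit 8) (.nd (nat_lit 9) 
(.lf (nat_lit 544872) (.g (nat_lit 3351) (.e (nat_lit 114697) (nat_lit 11) (.e (nat_lit 426188) (nat_lit 9) (.e (nat_lit 426555) (nat_lit 32) (.e (nat_lit 376857) (nat_lit 21) (.e (nat_lit 57849) (nat_lit 252) (.e (nat_lit 57388) (nat_lit 5) .nil)))))) (.g (nat_lit 1) (.e (nat_lit 277912) (nat_lit 0) .nil) .nil))) 
(.lf (nat_lit 545384) (.g (nat_lit 1460) (.e (nat_lit 114714) (nat_lit 22) (.e (nat_lit 90173) (nat_lit 14) (.e (nat_lit 180252) (nat_lit 10) (.e (nat_lit 573473) (nat_lit 12) .nil)))) (.g (nat_lit 0) (.e (nat_lit 279445) (nat_lit 0) .nil) .nil)))) (.nd (nat_lit 9) 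
(.lf (nat_lit 545128) (.g (nat_lit 2828) (.e (nat_lit 114698) (nat_lit 11) (.e (nat_lit 426325) (nat_lit 13) (.e (nat_lit 483402) (nat_lit 26) (.e (nat_lit 385109) (nat_lit 51) (.e (nat_lit 802560) (nat_lit 5) .nil))))) (.g (nat_lit 1) (.e (nat_lit 278405) (nat_lit 0) .nil) .nil))) 
(.lf (nat_lit 545640) (.g (nat_lit 2251) (.e (nat_lit 114718) (nat_lit 23) (.e (nat_lit 98335) (nat_lit 18) (.e (nat_lit 164396) (nat_lit 256) (.e (nat_lit 57375) (nat_lit 2) (.e (nat_lit 90174) (nat_lit 14) .nil))))) (.g (nat_lit 0) (.e (nat_lit 280129) (nat_lit 0) .nil) .nil))))) (.nd (nat_lit 8) (.nd (nat_lit 9) 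
(.lf (nat_lit 545000) (.g (nat_lit 4060) (.e (nat_lit 114698) (nat_lit 11) (.e (nat_lit 426139) (nat_lit 3) (.e (nat_lit 204869) (nat_lit 29) (.e (nat_lit 360451) (nat_lit 0) (.e (nat_lit 4009) (nat_lit 243) (.e (nat_lit 171776) (nat_lit 66) .nil)))))) (.g (nat_lit 1) (.e (nat_lit 278248) (nat_lit 0) .nil) .nil))) 
(.lf (nat_lit 545512) (.g (nat_lit 2366) (.e (nat_lit 114716) (nat_lit 22) (.e (nat_lit 90172) (nat_lit 14) (.e (nat_lit 180244) (nat_lit 5) (.e (nat_lit 532499) (nat_lit 1) (.e (nat_lit 57655) (nat_lit 152) (.e (nat_lit 2399) (nat_lit 157) (.e (nat_lit 2685) (nat_lit 168) (.e (nat_lit 204837) (nat_lit 20) .nil)))))))) (.g (nat_lit 1) (.e (nat_lit 279704) (nat_lit 0) .nil) .nil)))) 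
(.nd (nat_lit 9) 
(.lf (nat_lit 545256) (.g (nat_lit 1678) (.e (nat_lit 122624) (nat_lit 11) (.e (nat_lit 426190) (nat_lit 9) (.e (nat_lit 426555) (nat_lit 32) (.e (nat_lit 376859) (nat_lit 21) (.e (nat_lit 57849) (nat_lit 252) .nil))))) (.g (nat_lit 0) (.e (nat_lit 278682) (nat_lit 0) .nil) .nil))) 
(.lf (nat_lit 545768) (.g (nat_lit 3433) (.e (nat_lit 114718) (nat_lit 23) (.e (nat_lit 98384) (nat_lit 32) (.e (nat_lit 475179) (nat_lit 24) (.e (nat_lit 516120) (nat_lit 1) (.e (nat_lit 164329) (nat_lit 230) (.e (nat_lit 163850) (nat_lit 0) (.e (nat_lit 3252) (nat_lit 197) (.e (nat_lit 532513) (nat_lit 3) .nil)))))))) (.g (nat_lit 1) (.e (nat_lit 280288) (nat_lit 0) .nil) .nil)))))))) 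
(.nd (nat_lit 5) (.nd (nat_lit 6) (.nd (nat_lit 7) (.nd (nat_lit 8) (.nd (nat_lit 9) 
(.lf (nat_lit 544792) (.g (nat_lit 1591) (.e (nat_lit 114696) (nat_lit 11) (.e (nat_lit 426262) (nat_lit 9) (.e (nat_lit 426554) (nat_lit 32) (.e (nat_lit 376857) (nat_lit 21) (.e (nat_lit 57851) (nat_lit 252) (.e (nat_lit 57388) (nat_lit 5) .nil)))))) (.g (nat_lit 1) (.e (nat_lit 277764) (nat_lit 0) .nil) .nil))) 
(.lf (nat_lit 545304) (.g (nat_lit 2146) (.e (nat_lit 122624) (nat_lit 20) (.e (nat_lit 1796) (nat_lit 119) (.e (nat_lit 516115) (nat_lit 1) (.e (nat_lit 164398) (nat_lit 256) (.e (nat_lit 57373) (nat_lit 2) .nil))))) (.g (nat_lit 0) (.e (nat_lit 279192) (nat_lit 0) .nil) .nil)))) (.nd (nat_lit 9) 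
(.lf (nat_lit 545048) (.g (nat_lit 2095) (.e (nat_lit 114698) (nat_lit 11) (.e (nat_lit 426198) (nat_lit 9) (.e (nat_lit 426538) (nat_lit 29) (.e (nat_lit 352309) (nat_lit 21) (.e (nat_lit 57853) (nat_lit 252) (.e (nat_lit 57389) (nat_lit 5) .nil)))))) (.g (nat_lit 1) (.e (nat_lit 278307) (nat_lit 0) .nil) .nil))) 
(.lf (nat_lit 545560) (.g (nat_lit 1914) (.e (nat_lit 114716) (nat_lit 22) (.e (nat_lit 90196) (nat_lit 18) (.e (nat_lit 2798) (nat_lit 180) (.e (nat_lit 303126) (nat_lit 9) (.e (nat_lit 426566) (nat_lit 34) (.e (nat_lit 401152) (nat_lit 3) .nil)))))) (.g (nat_lit 1) (.e (nat_lit 279995) (nat_lit 0) .nil) .nil))))) (.nd (nat_lit 8) (.nd (nat_lit 9) 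
(.lf (nat_lit 544920) (.g (nat_lit 3197) (.e (nat_lit 114697) (nat_lit 11) (.e (nat_lit 426198) (nat_lit 9) (.e (nat_lit 426542) (nat_lit 29) (.e (nat_lit 352309) (nat_lit 21) (.e (nat_lit 57849) (nat_lit 252) (.e (nat_lit 57388) (nat_lit 5) .nil)))))) (.g (nat_lit 1) (.e (nat_lit 277962) (nat_lit 0) .nil) .nil))) 
(.lf (nat_lit 545432) (.g (nat_lit 4673) (.e (nat_lit 114715) (nat_lit 22) (.e (nat_lit 90170) (nat_lit 13) (.e (nat_lit 172065) (nat_lit 3) (.e (nat_lit 204830) (nat_lit 18) (.e (nat_lit 57691) (nat_lit 156) (.e (nat_lit 163875) (nat_lit 3) (.e (nat_lit 204836) (nat_lit 20) .nil))))))) (.g (nat_lit 1) (.e (nat_lit 279534) (nat_lit 0) .nil) .nil)))) (.nd (nat_lit 9) 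
(.lf (nat_lit 545176) (.g (nat_lit 2420) (.e (nat_lit 114698) (nat_lit 11) (.e (nat_lit 426335) (nat_lit 13) (.e (nat_lit 483381) (nat_lit 23) (.e (nat_lit 336336) (nat_lit 20) (.e (nat_lit 229120) (nat_lit 5) .nil))))) (.g (nat_lit 1) (.e (nat_lit 278495) (nat_lit 0) .nil) .nil))) 
(.lf (nat_lit 545688) (.g (nat_lit 2874) (.e (nat_lit 114718) (nat_lit 23) (.e (nat_lit 98366) (nat_lit 27) (.e (nat_lit 434231) (nat_lit 23) (.e (nat_lit 532500) (nat_lit 1) (.e (nat_lit 57685) (nat_lit 156) (.e (nat_lit 163875) (nat_lit 3) (.e (nat_lit 204838) (nat_lit 20) .nil))))))) (.g (nat_lit 1) (.e (nat_lit 280188) (nat_lit 0) .nil) .nil)))))) 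
(.nd (nat_lit 7) (.nd (nat_lit 8) (.nd (nat_lit 9) 
(.lf (nat_lit 544856) (.g (nat_lit 427) (.e (nat_lit 114697) (nat_lit 11) (.e (nat_lit 426138) (nat_lit 3) (.e (nat_lit 204877) (nat_lit 31) (.e (nat_lit 384768) (nat_lit 3) .nil)))) (.g (nat_lit 0) (.e (nat_lit 277885) (nat_lit 0) .nil) .nil))) 
(.lf (nat_lit 545368) (.g (nat_lit 2778) (.e (nat_lit 114714) (nat_lit 22) (.e (nat_lit 90172) (nat_lit 14) (.e (nat_lit 180244) (nat_lit 5) (.e (nat_lit 532503) (nat_lit 1) (.e (nat_lit 57652) (nat_lit 152) (.e (nat_lit 2612) (nat_lit 163) (.e (nat_lit 163964) (nat_lit 25) (.e (nat_lit 532513) (nat_lit 3) .nil)))))))) (.g (nat_lit 1) (.e (nat_lit 279414) (nat_lit 0) .nil) .nil)))) 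
(.nd (nat_lit 9) 
(.lf (nat_lit 545112) (.g (nat_lit 2226) (.e (nat_lit 114698) (nat_lit 11) (.e (nat_lit 426213) (nat_lit 9) (.e (nat_lit 426513) (nat_lit 27) (.e (nat_lit 336194) (nat_lit 12) (.e (nat_lit 385109) (nat_lit 51) (.e (nat_lit 802560) (nat_lit 5) .nil)))))) (.g (nat_lit 1) (.e (nat_lit 278373) (nat_lit 0) .nil) .nil))) 
(.lf (nat_lit 545624) (.g (nat_lit 4551) (.e (nat_lit 114718) (nat_lit 23) (.e (nat_lit 98334) (nat_lit 18) (.e (nat_lit 164330) (nat_lit 230) (.e (nat_lit 163869) (nat_lit 2) (.e (nat_lit 196654) (nat_lit 11) (.e (nat_lit 16416) (nat_lit 3) (.e (nat_lit 204838) (nat_lit 20) .nil))))))) (.g (nat_lit 1) (.e (nat_lit 280102) (nat_lit 0) .nil) .nil))))) (.nd (nat_lit 8) (.nd (nat_lit 9) 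
(.lf (nat_lit 544984) (.g (nat_lit 1580) (.e (nat_lit 114698) (nat_lit 11) (.e (nat_lit 426133) (nat_lit 3) (.e (nat_lit 204876) (nat_lit 31) (.e (nat_lit 376835) (nat_lit 0) .nil)))) (.g (nat_lit 0) (.e (nat_lit 278205) (nat_lit 0) .nil) .nil))) 
(.lf (nat_lit 545496) (.g (nat_lit 3551) (.e (nat_lit 114716) (nat_lit 22) (.e (nat_lit 90169) (nat_lit 13) (.e (nat_lit 172133) (nat_lit 15) (.e (nat_lit 1800) (nat_lit 119) (.e (nat_lit 516117) (nat_lit 1) (.e (nat_lit 164330) (nat_lit 230) (.e (nat_lit 163850) (nat_lit 0) (.e (nat_lit 3252) (nat_lit 197) (.e (nat_lit 532515) (nat_lit 3) .nil))))))))) (.g (nat_lit 1) (.e (nat_lit 279631) (nat_lit 0) .nil) .nil)))) 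
(.nd (nat_lit 9) 
(.lf (nat_lit 545240) (.g (nat_lit 1581) (.e (nat_lit 122624) (nat_lit 11) (.e (nat_lit 426173) (nat_lit 7) (.e (nat_lit 409648) (nat_lit 18) (.e (nat_lit 303142) (nat_lit 12) (.e (nat_lit 475212) (nat_lit 42) .nil))))) (.g (nat_lit 0) (.e (nat_lit 278663) (nat_lit 0) .nil) .nil))) 
(.lf (nat_lit 545752) (.g (nat_lit 4042) (.e (nat_lit 114718) (nat_lit 23) (.e (nat_lit 98384) (nat_lit 32) (.e (nat_lit 475179) (nat_lit 24) (.e (nat_lit 516115) (nat_lit 1) (.e (nat_lit 164327) (nat_lit 230) (.e (nat_lit 163875) (nat_lit 3) (.e (nat_lit 204836) (nat_lit 20) .nil))))))) (.g (nat_lit 1) (.e (nat_lit 280265) (nat_lit 0) .nil) .nil))))))) 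
(.nd (nat_lit 6) (.nd (nat_lit 7) (.nd (nat_lit 8) (.nd (nat_lit 9) 
(.lf (nat_lit 544824) (.g (nat_lit 1186) (.e (nat_lit 114697) (nat_lit 11) (.e (nat_lit 426133) (nat_lit 3) (.e (nat_lit 204859) (nat_lit 26) (.e (nat_lit 336116) (nat_lit 9) .nil)))) (.g (nat_lit 0) (.e (nat_lit 277845) (nat_lit 0) .nil) .nil))) 
(.lf (nat_lit 545336) (.g (nat_lit 2611) (.e (nat_lit 114714) (nat_lit 22) (.e (nat_lit 90172) (nat_lit 14) (.e (nat_lit 180243) (nat_lit 5) (.e (nat_lit 532499) (nat_lit 1) (.e (nat_lit 57652) (nat_lit 152) .nil))))) (.g (nat_lit 0) (.e (nat_lit 279358) (nat_lit 0) .nil) .nil)))) (.nd (nat_lit 9) 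
(.lf (nat_lit 545080) (.g (nat_lit 2777) (.e (nat_lit 114698) (nat_lit 11) (.e (nat_lit 426200) (nat_lit 9) (.e (nat_lit 426494) (nat_lit 27) (.e (nat_lit 336075) (nat_lit 9) (.e (nat_lit 336336) (nat_lit 20) (.e (nat_lit 229120) (nat_lit 5) .nil)))))) (.g (nat_lit 1) (.e (nat_lit 278339) (nat_lit 0) .nil) .nil))) 
(.lf (nat_lit 545592) (.g (nat_lit 1484) (.e (nat_lit 114717) (nat_lit 23) (.e (nat_lit 98335) (nat_lit 18) (.e (nat_lit 164403) (nat_lit 256) (.e (nat_lit 57370) (nat_lit 2) .nil)))) (.g (nat_lit 0) (.e (nat_lit 280047) (nat_lit 0) .nil) .nil))))) (.nd (nat_lit 8) (.nd (nat_lit 9) 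
(.lf (nat_lit 544952) (.g (nat_lit 2853) (.e (nat_lit 114697) (nat_lit 11) (.e (nat_lit 426200) (nat_lit 9) (.e (nat_lit 426555) (nat_lit 32) (.e (nat_lit 376857) (nat_lit 21) (.e (nat_lit 57847) (nat_lit 252) (.e (nat_lit 57389) (nat_lit 5) .nil)))))) (.g (nat_lit 1) (.e (nat_lit 277995) (nat_lit 0) .nil) .nil))) 
(.lf (nat_lit 545464) (.g (nat_lit 3309) (.e (nat_lit 114715) (nat_lit 22) (.e (nat_lit 90170) (nat_lit 13) (.e (nat_lit 172067) (nat_lit 3) (.e (nat_lit 204830) (nat_lit 18) (.e (nat_lit 57692) (nat_lit 156) (.e (nat_lit 163875) (nat_lit 3) (.e (nat_lit 204836) (nat_lit 20) .nil))))))) (.g (nat_lit 1) (.e (nat_lit 279574) (nat_lit 0) .nil) .nil)))) (.nd (nat_lit 9) 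
(.lf (nat_lit 545208) (.g (nat_lit 1467) (.e (nat_lit 122624) (nat_lit 11) (.e (nat_lit 426125) (nat_lit 2) (.e (nat_lit 196679) (nat_lit 17) (.e (nat_lit 131106) (nat_lit 9) .nil)))) (.g (nat_lit 0) (.e (nat_lit 278582) (nat_lit 0) .nil) .nil))) 
(.lf (nat_lit 545720) (.g (nat_lit 2637) (.e (nat_lit 114718) (nat_lit 23) (.e (nat_lit 98367) (nat_lit 27) (.e (nat_lit 434231) (nat_lit 23) (.e (nat_lit 532500) (nat_lit 1) (.e (nat_lit 57685) (nat_lit 156) .nil))))) (.g (nat_lit 0) (.e (nat_lit 280229) (nat_lit 0) .nil) .nil)))))) (.nd (nat_lit 7) (.nd (nat_lit 8) (.nd (nat_lit 9) 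
(.lf (nat_lit 544888) (.g (nat_lit 3712) (.e (nat_lit 114697) (nat_lit 11) (.e (nat_lit 426190) (nat_lit 9) (.e (nat_lit 426555) (nat_lit 32) (.e (nat_lit 376857) (nat_lit 21) (.e (nat_lit 57854) (nat_lit 252) (.e (nat_lit 57389) (nat_lit 5) .nil)))))) (.g (nat_lit 1) (.e (nat_lit 277928) (nat_lit 0) .nil) .nil))) 
(.lf (nat_lit 545400) (.g (nat_lit 4628) (.e (nat_lit 114714) (nat_lit 22) (.e (nat_lit 90174) (nat_lit 14) (.e (nat_lit 180243) (nat_lit 5) (.e (nat_lit 532501) (nat_lit 1) (.e (nat_lit 57692) (nat_lit 156) (.e (nat_lit 163874) (nat_lit 3) (.e (nat_lit 204838) (nat_lit 20) .nil))))))) (.g (nat_lit 1) (.e (nat_lit 279466) (nat_lit 0) .nil) .nil)))) (.nd (nat_lit 9) 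
(.lf (nat_lit 545144) (.g (nat_lit 2046) (.e (nat_lit 114698) (nat_lit 11) (.e (nat_lit 426326) (nat_lit 13) (.e (nat_lit 483406) (nat_lit 26) (.e (nat_lit 385109) (nat_lit 51) (.e (nat_lit 802560) (nat_lit 5) .nil))))) (.g (nat_lit 1) (.e (nat_lit 278425) (nat_lit 0) .nil) .nil))) 
(.lf (nat_lit 545656) (.g (nat_lit 3041) (.e (nat_lit 114718) (nat_lit 23) (.e (nat_lit 98356) (nat_lit 26) (.e (nat_lit 426436) (nat_lit 18) (.e (nat_lit 98335) (nat_lit 18) (.e (nat_lit 164305) (nat_lit 226) (.e (nat_lit 2612) (nat_lit 163) (.e (nat_lit 163963) (nat_lit 25) (.e (nat_lit 532513) (nat_lit 3) .nil)))))))) (.g (nat_lit 1) (.e (nat_lit 280148) (nat_lit 0) .nil) .nil))))) 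
(.nd (nat_lit 8) (.nd (nat_lit 9) 
(.lf (nat_lit 545016) (.g (nat_lit 1834) (.e (nat_lit 114698) (nat_lit 11) (.e (nat_lit 426190) (nat_lit 9) (.e (nat_lit 426555) (nat_lit 32) (.e (nat_lit 376857) (nat_lit 21) (.e (nat_lit 57848) (nat_lit 252) (.e (nat_lit 57390) (nat_lit 5) .nil)))))) (.g (nat_lit 1) (.e (nat_lit 278273) (nat_lit 0) .nil) .nil))) 
(.lf (nat_lit 545528) (.g (nat_lit 328) (.e (nat_lit 114716) (nat_lit 22) (.e (nat_lit 90174) (nat_lit 14) (.e (nat_lit 180243) (nat_lit 5) .nil))) (.g (nat_lit 0) (.e (nat_lit 279824) (nat_lit 0) .nil) .nil)))) (.nd (nat_lit 9) 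
(.lf (nat_lit 545272) (.g (nat_lit 720) (.e (nat_lit 122624) (nat_lit 11) (.e (nat_lit 426568) (nat_lit 34) (.e (nat_lit 393259) (nat_lit 21) .nil))) (.g (nat_lit 0) (.e (nat_lit 278746) (nat_lit 0) .nil) .nil))) 
(.lf (nat_lit 545784) (.g (nat_lit 4400) (.e (nat_lit 114719) (nat_lit 23) (.e (nat_lit 98333) (nat_lit 18) (.e (nat_lit 164325) (nat_lit 230) (.e (nat_lit 163868) (nat_lit 2) (.e (nat_lit 196656) (nat_lit 11) (.e (nat_lit 16416) (nat_lit 3) (.e (nat_lit 204837) (nat_lit 20) .nil))))))) (.g (nat_lit 1) (.e (nat_lit 280309) (nat_lit 0) .nil) .nil)))))))))) 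
(.nd (nat_lit 3) (.nd (nat_lit 4) (.nd (nat_lit 5) (.nd (nat_lit 6) (.nd (nat_lit 7) 
(.nd (nat_lit 8) (.nd (nat_lit 9) 
(.lf (nat_lit 544772) (.g (nat_lit 1978) (.e (nat_lit 114696) (nat_lit 11) (.e (nat_lit 426232) (nat_lit 9) (.e (nat_lit 426554) (nat_lit 32) (.e (nat_lit 376859) (nat_lit 21) (.e (nat_lit 57849) (nat_lit 252) (.e (nat_lit 57388) (nat_lit 5) .nil)))))) (.g (nat_lit 1) (.e (nat_lit 277744) (nat_lit 0) .nil) .nil))) 
(.lf (nat_lit 545284) (.g (nat_lit 2154) (.e (nat_lit 114706) (nat_lit 20) (.e (nat_lit 1786) (nat_lit 119) (.e (nat_lit 516115) (nat_lit 1) (.e (nat_lit 164398) (nat_lit 256) (.e (nat_lit 57373) (nat_lit 2) .nil))))) (.g (nat_lit 0) (.e (nat_lit 279165) (nat_lit 0) .nil) .nil)))) (.nd (nat_lit 9) 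
(.lf (nat_lit 545028) (.g (nat_lit 1662) (.e (nat_lit 114698) (nat_lit 11) (.e (nat_lit 426197) (nat_lit 9) (.e (nat_lit 426542) (nat_lit 29) (.e (nat_lit 352309) (nat_lit 21) (.e (nat_lit 57849) (nat_lit 252) (.e (nat_lit 57390) (nat_lit 5) .nil)))))) (.g (nat_lit 1) (.e (nat_lit 278285) (nat_lit 0) .nil) .nil))) 
(.lf (nat_lit 545540) (.g (nat_lit 2103) (.e (nat_lit 114716) (nat_lit 22) (.e (nat_lit 90174) (nat_lit 14) (.e (nat_lit 180243) (nat_lit 5) (.e (nat_lit 532501) (nat_lit 1) (.e (nat_lit 57663) (nat_lit 152) (.e (nat_lit 2717) (nat_lit 171) (.e (nat_lit 229434) (nat_lit 25) (.e (nat_lit 532514) (nat_lit 3) .nil)))))))) (.g (nat_lit 1) (.e (nat_lit 279879) (nat_lit 0) .nil) .nil))))) 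
(.nd (nat_lit 8) (.nd (nat_lit 9) 
(.lf (nat_lit 544900) (.g (nat_lit 2242) (.e (nat_lit 114697) (nat_lit 11) (.e (nat_lit 426197) (nat_lit 9) (.e (nat_lit 426555) (nat_lit 32) (.e (nat_lit 376857) (nat_lit 21) (.e (nat_lit 57851) (nat_lit 252) (.e (nat_lit 57388) (nat_lit 5) .nil)))))) (.g (nat_lit 1) (.e (nat_lit 277941) (nat_lit 0) .nil) .nil))) 
(.lf (nat_lit 545412) (.g (nat_lit 4398) (.e (nat_lit 114714) (nat_lit 22) (.e (nat_lit 90185) (nat_lit 17) (.e (nat_lit 237582) (nat_lit 1) (.e (nat_lit 164332) (nat_lit 230) (.e (nat_lit 163885) (nat_lit 5) (.e (nat_lit 221208) (nat_lit 21) (.e (nat_lit 164330) (nat_lit 230) (.e (nat_lit 171776) (nat_lit 66) .nil)))))))) (.g (nat_lit 1) (.e (nat_lit 279482) (nat_lit 0) .nil) .nil)))) 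
(.nd (nat_lit 9) 
(.lf (nat_lit 545156) (.g (nat_lit 1571) (.e (nat_lit 114698) (nat_lit 11) (.e (nat_lit 426333) (nat_lit 13) (.e (nat_lit 483382) (nat_lit 23) (.e (nat_lit 336336) (nat_lit 20) (.e (nat_lit 229120) (nat_lit 5) .nil))))) (.g (nat_lit 1) (.e (nat_lit 278456) (nat_lit 0) .nil) .nil))) 
(.lf (nat_lit 545668) (.g (nat_lit 4365) (.e (nat_lit 114718) (nat_lit 23) (.e (nat_lit 98357) (nat_lit 26) (.e (nat_lit 426436) (nat_lit 18) (.e (nat_lit 98335) (nat_lit 18) (.e (nat_lit 164327) (nat_lit 230) (.e (nat_lit 163875) (nat_lit 3) (.e (nat_lit 204837) (nat_lit 20) .nil))))))) (.g (nat_lit 1) (.e (nat_lit 280164) (nat_lit 0) .nil) .nil)))))) 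
(.nd (nat_lit 7) (.nd (nat_lit 8) (.nd (nat_lit 9) 
(.lf (nat_lit 544836) (.g (nat_lit 2144) (.e (nat_lit 114697) (nat_lit 11) (.e (nat_lit 426133) (nat_lit 3) (.e (nat_lit 204861) (nat_lit 26) (.e (nat_lit 336194) (nat_lit 12) (.e (nat_lit 385064) (nat_lit 26) (.e (nat_lit 532514) (nat_lit 3) .nil)))))) (.g (nat_lit 1) (.e (nat_lit 277857) (nat_lit 0) .nil) .nil))) 
(.lf (nat_lit 545348) (.g (nat_lit 2789) (.e (nat_lit 114714) (nat_lit 22) (.e (nat_lit 90172) (nat_lit 14) (.e (nat_lit 180244) (nat_lit 5) (.e (nat_lit 532499) (nat_lit 1) (.e (nat_lit 57652) (nat_lit 152) (.e (nat_lit 2433) (nat_lit 157) (.e (nat_lit 2685) (nat_lit 168) (.e (nat_lit 204837) (nat_lit 20) .nil)))))))) (.g (nat_lit 1) (.e (nat_lit 279378) (nat_lit 0) .nil) .nil)))) 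
(.nd (nat_lit 9) 
(.lf (nat_lit 545092) (.g (nat_lit 2922) (.e (nat_lit 114698) (nat_lit 11) (.e (nat_lit 426200) (nat_lit 9) (.e (nat_lit 426555) (nat_lit 32) (.e (nat_lit 376860) (nat_lit 21) (.e (nat_lit 57844) (nat_lit 252) (.e (nat_lit 57388) (nat_lit 5) .nil)))))) (.g (nat_lit 1) (.e (nat_lit 278352) (nat_lit 0) .nil) .nil))) 
(.lf (nat_lit 545604) (.g (nat_lit 3055) (.e (nat_lit 114717) (nat_lit 23) (.e (nat_lit 98384) (nat_lit 32) (.e (nat_lit 475179) (nat_lit 24) (.e (nat_lit 516115) (nat_lit 1) (.e (nat_lit 164327) (nat_lit 230) .nil))))) (.g (nat_lit 0) (.e (nat_lit 280059) (nat_lit 0) .nil) .nil))))) (.nd (nat_lit 8) (.nd (nat_lit 9) 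
(.lf (nat_lit 544964) (.g (nat_lit 1485) (.e (nat_lit 114698) (nat_lit 11) (.e (nat_lit 426122) (nat_lit 2) (.e (nat_lit 196666) (nat_lit 13) (.e (nat_lit 65623) (nat_lit 12) .nil)))) (.g (nat_lit 0) (.e (nat_lit 278146) (nat_lit 0) .nil) .nil))) 
(.lf (nat_lit 545476) (.g (nat_lit 1992) (.e (nat_lit 114715) (nat_lit 22) (.e (nat_lit 90174) (nat_lit 14) (.e (nat_lit 180243) (nat_lit 5) (.e (nat_lit 532499) (nat_lit 1) (.e (nat_lit 57691) (nat_lit 156) .nil))))) (.g (nat_lit 0) (.e (nat_lit 279588) (nat_lit 0) .nil) .nil)))) (.nd (nat_lit 9) 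
(.lf (nat_lit 545220) (.g (nat_lit 1497) (.e (nat_lit 122624) (nat_lit 11) (.e (nat_lit 426133) (nat_lit 3) (.e (nat_lit 204861) (nat_lit 26) (.e (nat_lit 336075) (nat_lit 9) .nil)))) (.g (nat_lit 0) (.e (nat_lit 278613) (nat_lit 0) .nil) .nil))) 
(.lf (nat_lit 545732) (.g (nat_lit 2185) (.e (nat_lit 114718) (nat_lit 23) (.e (nat_lit 98367) (nat_lit 27) (.e (nat_lit 434232) (nat_lit 23) (.e (nat_lit 532503) (nat_lit 1) (.e (nat_lit 57689) (nat_lit 156) .nil))))) (.g (nat_lit 0) (.e (nat_lit 280241) (nat_lit 0) .nil) .nil))))))) (.nd (nat_lit 6) (.nd (nat_lit 7) (.nd (nat_lit 8) (.nd (nat_lit 9) 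
(.lf (nat_lit 544804) (.g (nat_lit 2210) (.e (nat_lit 114697) (nat_lit 11) (.e (nat_lit 426114) (nat_lit 2) (.e (nat_lit 196681) (nat_lit 17) (.e (nat_lit 131123) (nat_lit 12) (.e (nat_lit 385066) (nat_lit 26) (.e (nat_lit 532515) (nat_lit 3) .nil)))))) (.g (nat_lit 1) (.e (nat_lit 277789) (nat_lit 0) .nil) .nil))) 
(.lf (nat_lit 545316) (.g (nat_lit 2739) (.e (nat_lit 114712) (nat_lit 21) (.e (nat_lit 57930) (nat_lit 282) (.e (nat_lit 163920) (nat_lit 14) (.e (nat_lit 442427) (nat_lit 23) (.e (nat_lit 204810) (nat_lit 9) (.e (nat_lit 426447) (nat_lit 20) .nil)))))) (.g (nat_lit 1) (.e (nat_lit 279324) (nat_lit 0) .nil) .nil)))) (.nd (nat_lit 9) 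
(.lf (nat_lit 545060) (.g (nat_lit 3241) (.e (nat_lit 114698) (nat_lit 11) (.e (nat_lit 426198) (nat_lit 9) (.e (nat_lit 426555) (nat_lit 32) (.e (nat_lit 376859) (nat_lit 21) (.e (nat_lit 57844) (nat_lit 252) (.e (nat_lit 57388) (nat_lit 5) .nil)))))) (.g (nat_lit 1) (.e (nat_lit 278319) (nat_lit 0) .nil) .nil))) 
(.lf (nat_lit 545572) (.g (nat_lit 2336) (.e (nat_lit 114717) (nat_lit 23) (.e (nat_lit 98333) (nat_lit 18) (.e (nat_lit 164399) (nat_lit 256) (.e (nat_lit 57374) (nat_lit 2) (.e (nat_lit 90174) (nat_lit 14) .nil))))) (.g (nat_lit 0) (.e (nat_lit 280017) (nat_lit 0) .nil) .nil))))) (.nd (nat_lit 8) (.nd (nat_lit 9) 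
(.lf (nat_lit 544932) (.g (nat_lit 3039) (.e (nat_lit 114697) (nat_lit 11) (.e (nat_lit 426198) (nat_lit 9) (.e (nat_lit 426555) (nat_lit 32) (.e (nat_lit 376859) (nat_lit 21) (.e (nat_lit 57844) (nat_lit 252) (.e (nat_lit 57389) (nat_lit 5) .nil)))))) (.g (nat_lit 1) (.e (nat_lit 277975) (nat_lit 0) .nil) .nil))) 
(.lf (nat_lit 545444) (.g (nat_lit 1801) (.e (nat_lit 114715) (nat_lit 22) (.e (nat_lit 90170) (nat_lit 13) (.e (nat_lit 172067) (nat_lit 3) (.e (nat_lit 204821) (nat_lit 17) .nil)))) (.g (nat_lit 0) (.e (nat_lit 279548) (nat_lit 0) .nil) .nil)))) (.nd (nat_lit 9) 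
(.lf (nat_lit 545188) (.g (nat_lit 1679) (.e (nat_lit 114698) (nat_lit 11) (.e (nat_lit 426335) (nat_lit 13) (.e (nat_lit 491264) (nat_lit 23) (.e (nat_lit 336336) (nat_lit 20) (.e (nat_lit 229120) (nat_lit 5) .nil))))) (.g (nat_lit 1) (.e (nat_lit 278514) (nat_lit 0) .nil) .nil))) 
(.lf (nat_lit 545700) (.g (nat_lit 2516) (.e (nat_lit 114718) (nat_lit 23) (.e (nat_lit 98366) (nat_lit 27) (.e (nat_lit 434231) (nat_lit 23) (.e (nat_lit 532502) (nat_lit 1) (.e (nat_lit 57692) (nat_lit 156) (.e (nat_lit 163874) (nat_lit 3) (.e (nat_lit 204836) (nat_lit 20) .nil))))))) (.g (nat_lit 1) (.e (nat_lit 280200) (nat_lit 0) .nil) .nil)))))) 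
(.nd (nat_lit 7) (.nd (nat_lit 8) (.nd (nat_lit 9) 
(.lf (nat_lit 544868) (.g (nat_lit 1980) (.e (nat_lit 114697) (nat_lit 11) (.e (nat_lit 426139) (nat_lit 3) (.e (nat_lit 204861) (nat_lit 26) (.e (nat_lit 336194) (nat_lit 12) (.e (nat_lit 385064) (nat_lit 26) (.e (nat_lit 532514) (nat_lit 3) .nil)))))) (.g (nat_lit 1) (.e (nat_lit 277897) (nat_lit 0) .nil) .nil))) 
(.lf (nat_lit 545380) (.g (nat_lit 2756) (.e (nat_lit 114714) (nat_lit 22) (.e (nat_lit 90172) (nat_lit 14) (.e (nat_lit 180244) (nat_lit 5) (.e (nat_lit 532504) (nat_lit 1) (.e (nat_lit 57651) (nat_lit 152) (.e (nat_lit 2615) (nat_lit 163) (.e (nat_lit 163962) (nat_lit 25) (.e (nat_lit 532513) (nat_lit 3) .nil)))))))) (.g (nat_lit 1) (.e (nat_lit 279437) (nat_lit 0) .nil) .nil)))) 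
(.nd (nat_lit 9) 
(.lf (nat_lit 545124) (.g (nat_lit 1448) (.e (nat_lit 114698) (nat_lit 11) (.e (nat_lit 426325) (nat_lit 13) (.e (nat_lit 483386) (nat_lit 23) (.e (nat_lit 343808) (nat_lit 20) .nil)))) (.g (nat_lit 0) (.e (nat_lit 278390) (nat_lit 0) .nil) .nil))) 
(.lf (nat_lit 545636) (.g (nat_lit 2899) (.e (nat_lit 114718) (nat_lit 23) (.e (nat_lit 98334) (nat_lit 18) (.e (nat_lit 164403) (nat_lit 256) (.e (nat_lit 57378) (nat_lit 3) (.e (nat_lit 98368) (nat_lit 27) .nil))))) (.g (nat_lit 0) (.e (nat_lit 280119) (nat_lit 0) .nil) .nil))))) (.nd (nat_lit 8) (.nd (nat_lit 9) 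
(.lf (nat_lit 544996) (.g (nat_lit 2046) (.e (nat_lit 114698) (nat_lit 11) (.e (nat_lit 426139) (nat_lit 3) (.e (nat_lit 204861) (nat_lit 26) (.e (nat_lit 336196) (nat_lit 12) (.e (nat_lit 385066) (nat_lit 26) .nil))))) (.g (nat_lit 0) (.e (nat_lit 278235) (nat_lit 0) .nil) .nil))) 
(.lf (nat_lit 545508) (.g (nat_lit 412) (.e (nat_lit 114716) (nat_lit 22) (.e (nat_lit 90172) (nat_lit 14) (.e (nat_lit 180244) (nat_lit 5) .nil))) (.g (nat_lit 0) (.e (nat_lit 279693) (nat_lit 0) .nil) .nil)))) (.nd (nat_lit 9) 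
(.lf (nat_lit 545252) (.g (nat_lit 2003) (.e (nat_lit 122624) (nat_lit 11) (.e (nat_lit 426188) (nat_lit 9) (.e (nat_lit 426555) (nat_lit 32) (.e (nat_lit 376860) (nat_lit 21) (.e (nat_lit 57854) (nat_lit 252) .nil))))) (.g (nat_lit 0) (.e (nat_lit 278678) (nat_lit 0) .nil) .nil))) 
(.lf (nat_lit 545764) (.g (nat_lit 3966) (.e (nat_lit 114718) (nat_lit 23) (.e (nat_lit 98384) (nat_lit 32) (.e (nat_lit 475179) (nat_lit 24) (.e (nat_lit 516117) (nat_lit 1) (.e (nat_lit 164332) (nat_lit 230) (.e (nat_lit 163874) (nat_lit 3) (.e (nat_lit 204838) (nat_lit 20) .nil))))))) (.g (nat_lit 1) (.e (nat_lit 280282) (nat_lit 0) .nil) .nil)))))))) 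
(.nd (nat_lit 5) (.nd (nat_lit 6) (.nd (nat_lit 7) (.nd (nat_lit 8) (.nd (nat_lit 9) 
(.lf (nat_lit 544788) (.g (nat_lit 2245) (.e (nat_lit 114696) (nat_lit 11) (.e (nat_lit 426262) (nat_lit 9) (.e (nat_lit 426541) (nat_lit 29) (.e (nat_lit 352307) (nat_lit 21) (.e (nat_lit 57854) (nat_lit 252) (.e (nat_lit 57388) (nat_lit 5) .nil)))))) (.g (nat_lit 1) (.e (nat_lit 277760) (nat_lit 0) .nil) .nil))) 
(.lf (nat_lit 545300) (.g (nat_lit 1599) (.e (nat_lit 114708) (nat_lit 20) (.e (nat_lit 2174) (nat_lit 143) (.e (nat_lit 712745) (nat_lit 27) (.e (nat_lit 426163) (nat_lit 6) .nil)))) (.g (nat_lit 0) (.e (nat_lit 279187) (nat_lit 0) .nil) .nil)))) (.nd (nat_lit 9) 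
(.lf (nat_lit 545044) (.g (nat_lit 2617) (.e (nat_lit 114698) (nat_lit 11) (.e (nat_lit 426197) (nat_lit 9) (.e (nat_lit 426555) (nat_lit 32) (.e (nat_lit 376860) (nat_lit 21) (.e (nat_lit 57844) (nat_lit 252) (.e (nat_lit 57388) (nat_lit 5) .nil)))))) (.g (nat_lit 1) (.e (nat_lit 278301) (nat_lit 0) .nil) .nil))) 
(.lf (nat_lit 545556) (.g (nat_lit 702) (.e (nat_lit 114716) (nat_lit 22) (.e (nat_lit 90185) (nat_lit 17) (.e (nat_lit 237589) (nat_lit 2) .nil))) (.g (nat_lit 0) (.e (nat_lit 279967) (nat_lit 0) .nil) .nil))))) (.nd (nat_lit 8) (.nd (nat_lit 9) 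
(.lf (nat_lit 544916) (.g (nat_lit 3267) (.e (nat_lit 114697) (nat_lit 11) (.e (nat_lit 426198) (nat_lit 9) (.e (nat_lit 426542) (nat_lit 29) (.e (nat_lit 352307) (nat_lit 21) (.e (nat_lit 57849) (nat_lit 252) (.e (nat_lit 57388) (nat_lit 5) .nil)))))) (.g (nat_lit 1) (.e (nat_lit 277958) (nat_lit 0) .nil) .nil))) 
(.lf (nat_lit 545428) (.g (nat_lit 2777) (.e (nat_lit 114715) (nat_lit 22) (.e (nat_lit 90170) (nat_lit 13) (.e (nat_lit 172065) (nat_lit 3) (.e (nat_lit 204830) (nat_lit 18) (.e (nat_lit 57685) (nat_lit 156) (.e (nat_lit 163872) (nat_lit 3) (.e (nat_lit 204838) (nat_lit 20) .nil))))))) (.g (nat_lit 1) (.e (nat_lit 279530) (nat_lit 0) .nil) .nil)))) (.nd (nat_lit 9) 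
(.lf (nat_lit 545172) (.g (nat_lit 2990) (.e (nat_lit 114698) (nat_lit 11) (.e (nat_lit 426335) (nat_lit 13) (.e (nat_lit 483378) (nat_lit 23) (.e (nat_lit 336336) (nat_lit 20) (.e (nat_lit 229120) (nat_lit 5) .nil))))) (.g (nat_lit 1) (.e (nat_lit 278491) (nat_lit 0) .nil) .nil))) 
(.lf (nat_lit 545684) (.g (nat_lit 4310) (.e (nat_lit 114718) (nat_lit 23) (.e (nat_lit 98366) (nat_lit 27) (.e (nat_lit 434231) (nat_lit 23) (.e (nat_lit 532499) (nat_lit 1) (.e (nat_lit 57688) (nat_lit 156) (.e (nat_lit 163874) (nat_lit 3) (.e (nat_lit 204837) (nat_lit 20) .nil))))))) (.g (nat_lit 1) (.e (nat_lit 280184) (nat_lit 0) .nil) .nil)))))) 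
(.nd (nat_lit 7) (.nd (nat_lit 8) (.nd (nat_lit 9) 
(.lf (nat_lit 544852) (.g (nat_lit 593) (.e (nat_lit 114697) (nat_lit 11) (.e (nat_lit 426137) (nat_lit 3) (.e (nat_lit 204877) (nat_lit 31) (.e (nat_lit 384768) (nat_lit 3) .nil)))) (.g (nat_lit 0) (.e (nat_lit 277877) (nat_lit 0) .nil) .nil))) 
(.lf (nat_lit 545364) (.g (nat_lit 2578) (.e (nat_lit 114714) (nat_lit 22) (.e (nat_lit 90172) (nat_lit 14) (.e (nat_lit 180244) (nat_lit 5) (.e (nat_lit 532501) (nat_lit 1) (.e (nat_lit 57662) (nat_lit 152) (.e (nat_lit 2716) (nat_lit 171) (.e (nat_lit 229433) (nat_lit 25) (.e (nat_lit 532513) (nat_lit 3) .nil)))))))) (.g (nat_lit 1) (.e (nat_lit 279406) (nat_lit 0) .nil) .nil)))) 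
(.nd (nat_lit 9) 
(.lf (nat_lit 545108) (.g (nat_lit 2452) (.e (nat_lit 114698) (nat_lit 11) (.e (nat_lit 426213) (nat_lit 9) (.e (nat_lit 426501) (nat_lit 27) (.e (nat_lit 336076) (nat_lit 9) (.e (nat_lit 336336) (nat_lit 20) (.e (nat_lit 229120) (nat_lit 5) .nil)))))) (.g (nat_lit 1) (.e (nat_lit 278369) (nat_lit 0) .nil) .nil))) 
(.lf (nat_lit 545620) (.g (nat_lit 637) (.e (nat_lit 114718) (nat_lit 23) (.e (nat_lit 98333) (nat_lit 18) (.e (nat_lit 164403) (nat_lit 256) .nil))) (.g (nat_lit 0) (.e (nat_lit 280090) (nat_lit 0) .nil) .nil))))) (.nd (nat_lit 8) (.nd (nat_lit 9) 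
(.lf (nat_lit 544980) (.g (nat_lit 1932) (.e (nat_lit 114698) (nat_lit 11) (.e (nat_lit 426133) (nat_lit 3) (.e (nat_lit 204852) (nat_lit 26) (.e (nat_lit 343808) (nat_lit 9) .nil)))) (.g (nat_lit 0) (.e (nat_lit 278197) (nat_lit 0) .nil) .nil))) 
(.lf (nat_lit 545492) (.g (nat_lit 1309) (.e (nat_lit 114716) (nat_lit 22) (.e (nat_lit 90167) (nat_lit 13) (.e (nat_lit 172067) (nat_lit 3) (.e (nat_lit 204830) (nat_lit 18) .nil)))) (.g (nat_lit 0) (.e (nat_lit 279626) (nat_lit 0) .nil) .nil)))) (.nd (nat_lit 9) 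
(.lf (nat_lit 545236) (.g (nat_lit 1704) (.e (nat_lit 122624) (nat_lit 11) (.e (nat_lit 426173) (nat_lit 7) (.e (nat_lit 409643) (nat_lit 18) (.e (nat_lit 303143) (nat_lit 12) (.e (nat_lit 475212) (nat_lit 42) .nil))))) (.g (nat_lit 0) (.e (nat_lit 278659) (nat_lit 0) .nil) .nil))) 
(.lf (nat_lit 545748) (.g (nat_lit 3533) (.e (nat_lit 114718) (nat_lit 23) (.e (nat_lit 98384) (nat_lit 32) (.e (nat_lit 475177) (nat_lit 24) (.e (nat_lit 516120) (nat_lit 1) (.e (nat_lit 164330) (nat_lit 230) (.e (nat_lit 163874) (nat_lit 3) (.e (nat_lit 204838) (nat_lit 20) .nil))))))) (.g (nat_lit 1) (.e (nat_lit 280261) (nat_lit 0) .nil) .nil))))))) 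
(.nd (nat_lit 6) (.nd (nat_lit 7) (.nd (nat_lit 8) (.nd (nat_lit 9) 
(.lf (nat_lit 544820) (.g (nat_lit 2680) (.e (nat_lit 114697) (nat_lit 11) (.e (nat_lit 426124) (nat_lit 2) (.e (nat_lit 196674) (nat_lit 15) (.e (nat_lit 81922) (nat_lit 0) (.e (nat_lit 3253) (nat_lit 197) (.e (nat_lit 532513) (nat_lit 3) .nil)))))) (.g (nat_lit 1) (.e (nat_lit 277836) (nat_lit 0) .nil) .nil))) 
(.lf (nat_lit 545332) (.g (nat_lit 2126) (.e (nat_lit 114714) (nat_lit 22) (.e (nat_lit 90170) (nat_lit 13) (.e (nat_lit 172067) (nat_lit 3) (.e (nat_lit 204830) (nat_lit 18) (.e (nat_lit 57663) (nat_lit 152) .nil))))) (.g (nat_lit 0) (.e (nat_lit 279354) (nat_lit 0) .nil) .nil)))) (.nd (nat_lit 9) 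
(.lf (nat_lit 545076) (.g (nat_lit 2076) (.e (nat_lit 114698) (nat_lit 11) (.e (nat_lit 426200) (nat_lit 9) (.e (nat_lit 426480) (nat_lit 27) (.e (nat_lit 336083) (nat_lit 9) (.e (nat_lit 336336) (nat_lit 20) (.e (nat_lit 229120) (nat_lit 5) .nil)))))) (.g (nat_lit 1) (.e (nat_lit 278335) (nat_lit 0) .nil) .nil))) 
(.lf (nat_lit 545588) (.g (nat_lit 2365) (.e (nat_lit 114717) (nat_lit 23) (.e (nat_lit 98334) (nat_lit 18) (.e (nat_lit 164399) (nat_lit 256) (.e (nat_lit 57373) (nat_lit 2) (.e (nat_lit 90167) (nat_lit 13) .nil))))) (.g (nat_lit 0) (.e (nat_lit 280043) (nat_lit 0) .nil) .nil))))) (.nd (nat_lit 8) (.nd (nat_lit 9) 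
(.lf (nat_lit 544948) (.g (nat_lit 2261) (.e (nat_lit 114697) (nat_lit 11) (.e (nat_lit 426199) (nat_lit 9) (.e (nat_lit 426555) (nat_lit 32) (.e (nat_lit 376859) (nat_lit 21) (.e (nat_lit 57851) (nat_lit 252) (.e (nat_lit 57388) (nat_lit 5) .nil)))))) (.g (nat_lit 1) (.e (nat_lit 277991) (nat_lit 0) .nil) .nil))) 
(.lf (nat_lit 545460) (.g (nat_lit 4309) (.e (nat_lit 114715) (nat_lit 22) (.e (nat_lit 90170) (nat_lit 13) (.e (nat_lit 172067) (nat_lit 3) (.e (nat_lit 204830) (nat_lit 18) (.e (nat_lit 57691) (nat_lit 156) (.e (nat_lit 163875) (nat_lit 3) (.e (nat_lit 204836) (nat_lit 20) .nil))))))) (.g (nat_lit 1) (.e (nat_lit 279570) (nat_lit 0) .nil) .nil)))) (.nd (nat_lit 9) 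
(.lf (nat_lit 545204) (.g (nat_lit 3502) (.e (nat_lit 122624) (nat_lit 11) (.e (nat_lit 426125) (nat_lit 2) (.e (nat_lit 196666) (nat_lit 13) (.e (nat_lit 65623) (nat_lit 12) .nil)))) (.g (nat_lit 0) (.e (nat_lit 278575) (nat_lit 0) .nil) .nil))) 
(.lf (nat_lit 545716) (.g (nat_lit 4420) (.e (nat_lit 114718) (nat_lit 23) (.e (nat_lit 98367) (nat_lit 27) (.e (nat_lit 434231) (nat_lit 23) (.e (nat_lit 532499) (nat_lit 1) (.e (nat_lit 57688) (nat_lit 156) (.e (nat_lit 163875) (nat_lit 3) (.e (nat_lit 204838) (nat_lit 20) .nil))))))) (.g (nat_lit 1) (.e (nat_lit 280222) (nat_lit 0) .nil) .nil)))))) 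
(.nd (nat_lit 7) (.nd (nat_lit 8) (.nd (nat_lit 9) 
(.lf (nat_lit 544884) (.g (nat_lit 2179) (.e (nat_lit 114697) (nat_lit 11) (.e (nat_lit 426190) (nat_lit 9) (.e (nat_lit 426555) (nat_lit 32) (.e (nat_lit 376857) (nat_lit 21) (.e (nat_lit 57848) (nat_lit 252) (.e (nat_lit 57390) (nat_lit 5) .nil)))))) (.g (nat_lit 1) (.e (nat_lit 277924) (nat_lit 0) .nil) .nil))) 
(.lf (nat_lit 545396) (.g (nat_lit 2988) (.e (nat_lit 114714) (nat_lit 22) (.e (nat_lit 90174) (nat_lit 14) (.e (nat_lit 180243) (nat_lit 5) (.e (nat_lit 532501) (nat_lit 1) (.e (nat_lit 57664) (nat_lit 152) (.e (nat_lit 2715) (nat_lit 171) (.e (nat_lit 229433) (nat_lit 25) (.e (nat_lit 532513) (nat_lit 3) .nil)))))))) (.g (nat_lit 1) (.e (nat_lit 279462) (nat_lit 0) .nil) .nil)))) 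
(.nd (nat_lit 9) 
(.lf (nat_lit 545140) (.g (nat_lit 2402) (.e (nat_lit 114698) (nat_lit 11) (.e (nat_lit 426326) (nat_lit 13) (.e (nat_lit 483383) (nat_lit 23) (.e (nat_lit 336336) (nat_lit 20) (.e (nat_lit 229120) (nat_lit 5) .nil))))) (.g (nat_lit 1) (.e (nat_lit 278417) (nat_lit 0) .nil) .nil))) 
(.lf (nat_lit 545652) (.g (nat_lit 1981) (.e (nat_lit 114718) (nat_lit 23) (.e (nat_lit 98356) (nat_lit 26) (.e (nat_lit 426436) (nat_lit 18) (.e (nat_lit 98334) (nat_lit 18) (.e (nat_lit 164330) (nat_lit 230) (.e (nat_lit 163874) (nat_lit 3) (.e (nat_lit 204836) (nat_lit 20) .nil))))))) (.g (nat_lit 1) (.e (nat_lit 280143) (nat_lit 0) .nil) .nil))))) (.nd (nat_lit 8) (.nd (nat_lit 9) 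
(.lf (nat_lit 545012) (.g (nat_lit 2489) (.e (nat_lit 114698) (nat_lit 11) (.e (nat_lit 426188) (nat_lit 9) (.e (nat_lit 426555) (nat_lit 32) (.e (nat_lit 376860) (nat_lit 21) (.e (nat_lit 57844) (nat_lit 252) (.e (nat_lit 57388) (nat_lit 5) .nil)))))) (.g (nat_lit 1) (.e (nat_lit 278269) (nat_lit 0) .nil) .nil))) 
(.lf (nat_lit 545524) (.g (nat_lit 1747) (.e (nat_lit 114716) (nat_lit 22) (.e (nat_lit 90172) (nat_lit 14) (.e (nat_lit 180250) (nat_lit 10) (.e (nat_lit 573475) (nat_lit 12) .nil)))) (.g (nat_lit 0) (.e (nat_lit 279812) (nat_lit 0) .nil) .nil)))) (.nd (nat_lit 9) 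
(.lf (nat_lit 545268) (.g (nat_lit 1934) (.e (nat_lit 122624) (nat_lit 11) (.e (nat_lit 426566) (nat_lit 34) (.e (nat_lit 393259) (nat_lit 21) (.e (nat_lit 409617) (nat_lit 10) (.e (nat_lit 604) (nat_lit 45) .nil))))) (.g (nat_lit 0) (.e (nat_lit 278742) (nat_lit 0) .nil) .nil))) 
(.lf (nat_lit 545780) (.g (nat_lit 4570) (.e (nat_lit 114719) (nat_lit 23) (.e (nat_lit 98332) (nat_lit 18) (.e (nat_lit 164327) (nat_lit 230) (.e (nat_lit 163871) (nat_lit 2) (.e (nat_lit 196656) (nat_lit 11) (.e (nat_lit 16416) (nat_lit 3) (.e (nat_lit 204837) (nat_lit 20) .nil))))))) (.g (nat_lit 1) (.e (nat_lit 280301) (nat_lit 0) .nil) .nil))))))))) 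
(.nd (nat_lit 4) (.nd (nat_lit 5) (.nd (nat_lit 6) (.nd (nat_lit 7) (.nd (nat_lit 8) 
(.nd (nat_lit 9) 
(.lf (nat_lit 544780) (.g (nat_lit 1826) (.e (nat_lit 114696) (nat_lit 11) (.e (nat_lit 426234) (nat_lit 9) (.e (nat_lit 426554) (nat_lit 32) (.e (nat_lit 376857) (nat_lit 21) (.e (nat_lit 57849) (nat_lit 252) (.e (nat_lit 57390) (nat_lit 5) .nil)))))) (.g (nat_lit 1) (.e (nat_lit 277752) (nat_lit 0) .nil) .nil))) 
(.lf (nat_lit 545292) (.g (nat_lit 2038) (.e (nat_lit 114708) (nat_lit 20) (.e (nat_lit 1800) (nat_lit 119) (.e (nat_lit 516115) (nat_lit 1) (.e (nat_lit 164399) (nat_lit 256) (.e (nat_lit 57377) (nat_lit 3) .nil))))) (.g (nat_lit 0) (.e (nat_lit 279175) (nat_lit 0) .nil) .nil)))) (.nd (nat_lit 9) 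
(.lf (nat_lit 545036) (.g (nat_lit 2171) (.e (nat_lit 114698) (nat_lit 11) (.e (nat_lit 426197) (nat_lit 9) (.e (nat_lit 426555) (nat_lit 32) (.e (nat_lit 376857) (nat_lit 21) (.e (nat_lit 57848) (nat_lit 252) (.e (nat_lit 57390) (nat_lit 5) .nil)))))) (.g (nat_lit 1) (.e (nat_lit 278293) (nat_lit 0) .nil) .nil))) 
(.lf (nat_lit 545548) (.g (nat_lit 1075) (.e (nat_lit 114716) (nat_lit 22) (.e (nat_lit 90174) (nat_lit 14) (.e (nat_lit 180243) (nat_lit 5) (.e (nat_lit 532504) (nat_lit 1) .nil)))) (.g (nat_lit 0) (.e (nat_lit 279934) (nat_lit 0) .nil) .nil))))) (.nd (nat_lit 8) (.nd (nat_lit 9) 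
(.lf (nat_lit 544908) (.g (nat_lit 2199) (.e (nat_lit 114697) (nat_lit 11) (.e (nat_lit 426197) (nat_lit 9) (.e (nat_lit 426555) (nat_lit 32) (.e (nat_lit 376860) (nat_lit 21) (.e (nat_lit 57851) (nat_lit 252) (.e (nat_lit 57388) (nat_lit 5) .nil)))))) (.g (nat_lit 1) (.e (nat_lit 277949) (nat_lit 0) .nil) .nil))) 
(.lf (nat_lit 545420) (.g (nat_lit 3563) (.e (nat_lit 114715) (nat_lit 22) (.e (nat_lit 90170) (nat_lit 13) (.e (nat_lit 172065) (nat_lit 3) (.e (nat_lit 204829) (nat_lit 18) (.e (nat_lit 57686) (nat_lit 156) (.e (nat_lit 163875) (nat_lit 3) (.e (nat_lit 204836) (nat_lit 20) .nil))))))) (.g (nat_lit 1) (.e (nat_lit 279517) (nat_lit 0) .nil) .nil)))) (.nd (nat_lit 9) 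
(.lf (nat_lit 545164) (.g (nat_lit 2082) (.e (nat_lit 114698) (nat_lit 11) (.e (nat_lit 426334) (nat_lit 13) (.e (nat_lit 483383) (nat_lit 23) (.e (nat_lit 336336) (nat_lit 20) (.e (nat_lit 229120) (nat_lit 5) .nil))))) (.g (nat_lit 1) (.e (nat_lit 278473) (nat_lit 0) .nil) .nil))) 
(.lf (nat_lit 545676) (.g (nat_lit 2921) (.e (nat_lit 114718) (nat_lit 23) (.e (nat_lit 98365) (nat_lit 26) (.e (nat_lit 426139) (nat_lit 3) (.e (nat_lit 204829) (nat_lit 18) (.e (nat_lit 57691) (nat_lit 156) (.e (nat_lit 163875) (nat_lit 3) (.e (nat_lit 204836) (nat_lit 20) .nil))))))) (.g (nat_lit 1) (.e (nat_lit 280174) (nat_lit 0) .nil) .nil)))))) 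
(.nd (nat_lit 7) (.nd (nat_lit 8) (.nd (nat_lit 9) 
(.lf (nat_lit 544844) (.g (nat_lit 1964) (.e (nat_lit 114697) (nat_lit 11) (.e (nat_lit 426137) (nat_lit 3) (.e (nat_lit 204861) (nat_lit 26) (.e (nat_lit 336076) (nat_lit 9) (.e (nat_lit 336322) (nat_lit 18) (.e (nat_lit 204837) (nat_lit 20) .nil)))))) (.g (nat_lit 1) (.e (nat_lit 277867) (nat_lit 0) .nil) .nil))) 
(.lf (nat_lit 545356) (.g (nat_lit 2417) (.e (nat_lit 114714) (nat_lit 22) (.e (nat_lit 90172) (nat_lit 14) (.e (nat_lit 180244) (nat_lit 5) (.e (nat_lit 532499) (nat_lit 1) (.e (nat_lit 57674) (nat_lit 152) .nil))))) (.g (nat_lit 0) (.e (nat_lit 279394) (nat_lit 0) .nil) .nil)))) (.nd (nat_lit 9) 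
(.lf (nat_lit 545100) (.g (nat_lit 3006) (.e (nat_lit 114698) (nat_lit 11) (.e (nat_lit 426204) (nat_lit 9) (.e (nat_lit 426499) (nat_lit 27) (.e (nat_lit 336196) (nat_lit 12) (.e (nat_lit 385107) (nat_lit 51) (.e (nat_lit 802560) (nat_lit 5) .nil)))))) (.g (nat_lit 1) (.e (nat_lit 278361) (nat_lit 0) .nil) .nil))) 
(.lf (nat_lit 545612) (.g (nat_lit 1228) (.e (nat_lit 114718) (nat_lit 23) (.e (nat_lit 98333) (nat_lit 18) (.e (nat_lit 164325) (nat_lit 230) (.e (nat_lit 163864) (nat_lit 1) .nil)))) (.g (nat_lit 0) (.e (nat_lit 280074) (nat_lit 0) .nil) .nil))))) (.nd (nat_lit 8) (.nd (nat_lit 9) 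
(.lf (nat_lit 544972) (.g (nat_lit 2628) (.e (nat_lit 114698) (nat_lit 11) (.e (nat_lit 426123) (nat_lit 2) (.e (nat_lit 196666) (nat_lit 13) (.e (nat_lit 65623) (nat_lit 12) .nil)))) (.g (nat_lit 0) (.e (nat_lit 278160) (nat_lit 0) .nil) .nil))) 
(.lf (nat_lit 545484) (.g (nat_lit 2405) (.e (nat_lit 114716) (nat_lit 22) (.e (nat_lit 90134) (nat_lit 9) (.e (nat_lit 3098) (nat_lit 192) (.e (nat_lit 491571) (nat_lit 13) (.e (nat_lit 393231) (nat_lit 17) (.e (nat_lit 3555) (nat_lit 220) (.e (nat_lit 720956) (nat_lit 25) .nil))))))) (.g (nat_lit 1) (.e (nat_lit 279612) (nat_lit 0) .nil) .nil)))) (.nd (nat_lit 9) 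
(.lf (nat_lit 545228) (.g (nat_lit 1674) (.e (nat_lit 122624) (nat_lit 11) (.e (nat_lit 426139) (nat_lit 3) (.e (nat_lit 204861) (nat_lit 26) (.e (nat_lit 336075) (nat_lit 9) (.e (nat_lit 336322) (nat_lit 18) .nil))))) (.g (nat_lit 0) (.e (nat_lit 278626) (nat_lit 0) .nil) .nil))) 
(.lf (nat_lit 545740) (.g (nat_lit 2873) (.e (nat_lit 114718) (nat_lit 23) (.e (nat_lit 98384) (nat_lit 32) (.e (nat_lit 475177) (nat_lit 24) (.e (nat_lit 516117) (nat_lit 1) (.e (nat_lit 164330) (nat_lit 230) (.e (nat_lit 163874) (nat_lit 3) (.e (nat_lit 204836) (nat_lit 20) .nil))))))) (.g (nat_lit 1) (.e (nat_lit 280253) (nat_lit 0) .nil) .nil))))))) 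
(.nd (nat_lit 6) (.nd (nat_lit 7) (.nd (nat_lit 8) (.nd (nat_lit 9) 
(.lf (nat_lit 544812) (.g (nat_lit 1252) (.e (nat_lit 114697) (nat_lit 11) (.e (nat_lit 426122) (nat_lit 2) (.e (nat_lit 196681) (nat_lit 17) (.e (nat_lit 131122) (nat_lit 12) .nil)))) (.g (nat_lit 0) (.e (nat_lit 277812) (nat_lit 0) .nil) .nil))) 
(.lf (nat_lit 545324) (.g (nat_lit 1905) (.e (nat_lit 114714) (nat_lit 22) (.e (nat_lit 90134) (nat_lit 9) (.e (nat_lit 3098) (nat_lit 192) (.e (nat_lit 491571) (nat_lit 13) (.e (nat_lit 393231) (nat_lit 17) .nil))))) (.g (nat_lit 0) (.e (nat_lit 279341) (nat_lit 0) .nil) .nil)))) (.nd (nat_lit 9) 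
(.lf (nat_lit 545068) (.g (nat_lit 3667) (.e (nat_lit 114698) (nat_lit 11) (.e (nat_lit 426199) (nat_lit 9) (.e (nat_lit 426555) (nat_lit 32) (.e (nat_lit 376857) (nat_lit 21) (.e (nat_lit 57849) (nat_lit 252) (.e (nat_lit 57388) (nat_lit 5) .nil)))))) (.g (nat_lit 1) (.e (nat_lit 278327) (nat_lit 0) .nil) .nil))) 
(.lf (nat_lit 545580) (.g (nat_lit 2818) (.e (nat_lit 114717) (nat_lit 23) (.e (nat_lit 98334) (nat_lit 18) (.e (nat_lit 164332) (nat_lit 230) (.e (nat_lit 163869) (nat_lit 2) (.e (nat_lit 196656) (nat_lit 11) .nil))))) (.g (nat_lit 0) (.e (nat_lit 280033) (nat_lit 0) .nil) .nil))))) (.nd (nat_lit 8) (.nd (nat_lit 9) 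
(.lf (nat_lit 544940) (.g (nat_lit 1821) (.e (nat_lit 114697) (nat_lit 11) (.e (nat_lit 426199) (nat_lit 9) (.e (nat_lit 426555) (nat_lit 32) (.e (nat_lit 376856) (nat_lit 21) .nil)))) (.g (nat_lit 0) (.e (nat_lit 277983) (nat_lit 0) .nil) .nil))) 
(.lf (nat_lit 545452) (.g (nat_lit 3990) (.e (nat_lit 114715) (nat_lit 22) (.e (nat_lit 90170) (nat_lit 13) (.e (nat_lit 172067) (nat_lit 3) (.e (nat_lit 204829) (nat_lit 18) (.e (nat_lit 57692) (nat_lit 156) (.e (nat_lit 163874) (nat_lit 3) (.e (nat_lit 204836) (nat_lit 20) .nil))))))) (.g (nat_lit 1) (.e (nat_lit 279560) (nat_lit 0) .nil) .nil)))) (.nd (nat_lit 9) 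
(.lf (nat_lit 545196) (.g (nat_lit 2114) (.e (nat_lit 114698) (nat_lit 11) (.e (nat_lit 426335) (nat_lit 13) (.e (nat_lit 483408) (nat_lit 26) (.e (nat_lit 385107) (nat_lit 51) (.e (nat_lit 802560) (nat_lit 5) .nil))))) (.g (nat_lit 1) (.e (nat_lit 278522) (nat_lit 0) .nil) .nil))) 
(.lf (nat_lit 545708) (.g (nat_lit 1800) (.e (nat_lit 114718) (nat_lit 23) (.e (nat_lit 98367) (nat_lit 27) (.e (nat_lit 434231) (nat_lit 23) (.e (nat_lit 532481) (nat_lit 0) .nil)))) (.g (nat_lit 0) (.e (nat_lit 280208) (nat_lit 0) .nil) .nil)))))) (.nd (nat_lit 7) (.nd (nat_lit 8) (.nd (nat_lit 9) 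
(.lf (nat_lit 544876) (.g (nat_lit 3083) (.e (nat_lit 114697) (nat_lit 11) (.e (nat_lit 426188) (nat_lit 9) (.e (nat_lit 426555) (nat_lit 32) (.e (nat_lit 376859) (nat_lit 21) (.e (nat_lit 57849) (nat_lit 252) (.e (nat_lit 57390) (nat_lit 5) .nil)))))) (.g (nat_lit 1) (.e (nat_lit 277916) (nat_lit 0) .nil) .nil))) 
(.lf (nat_lit 545388) (.g (nat_lit 2584) (.e (nat_lit 114714) (nat_lit 22) (.e (nat_lit 90174) (nat_lit 14) (.e (nat_lit 180243) (nat_lit 5) (.e (nat_lit 532499) (nat_lit 1) (.e (nat_lit 57652) (nat_lit 152) (.e (nat_lit 2715) (nat_lit 171) (.e (nat_lit 229433) (nat_lit 25) (.e (nat_lit 532513) (nat_lit 3) .nil)))))))) (.g (nat_lit 1) (.e (nat_lit 279450) (nat_lit 0) .nil) .nil)))) 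
(.nd (nat_lit 9) 
(.lf (nat_lit 545132) (.g (nat_lit 2073) (.e (nat_lit 114698) (nat_lit 11) (.e (nat_lit 426325) (nat_lit 13) (.e (nat_lit 483405) (nat_lit 26) (.e (nat_lit 385107) (nat_lit 51) (.e (nat_lit 802560) (nat_lit 5) .nil))))) (.g (nat_lit 1) (.e (nat_lit 278409) (nat_lit 0) .nil) .nil))) 
(.lf (nat_lit 545644) (.g (nat_lit 3189) (.e (nat_lit 114718) (nat_lit 23) (.e (nat_lit 98335) (nat_lit 18) (.e (nat_lit 164403) (nat_lit 256) (.e (nat_lit 57378) (nat_lit 3) (.e (nat_lit 98368) (nat_lit 27) .nil))))) (.g (nat_lit 0) (.e (nat_lit 280135) (nat_lit 0) .nil) .nil))))) (.nd (nat_lit 8) (.nd (nat_lit 9) 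
(.lf (nat_lit 545004) (.g (nat_lit 1654) (.e (nat_lit 114698) (nat_lit 11) (.e (nat_lit 426172) (nat_lit 7) (.e (nat_lit 409648) (nat_lit 18) (.e (nat_lit 303143) (nat_lit 12) (.e (nat_lit 475212) (nat_lit 42) .nil))))) (.g (nat_lit 0) (.e (nat_lit 278261) (nat_lit 0) .nil) .nil))) 
(.lf (nat_lit 545516) (.g (nat_lit 1650) (.e (nat_lit 114716) (nat_lit 22) (.e (nat_lit 90172) (nat_lit 14) (.e (nat_lit 180244) (nat_lit 5) (.e (nat_lit 532501) (nat_lit 1) (.e (nat_lit 57663) (nat_lit 152) .nil))))) (.g (nat_lit 0) (.e (nat_lit 279744) (nat_lit 0) .nil) .nil)))) (.nd (nat_lit 9) 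
(.lf (nat_lit 545260) (.g (nat_lit 2347) (.e (nat_lit 122624) (nat_lit 11) (.e (nat_lit 426200) (nat_lit 9) (.e (nat_lit 426555) (nat_lit 32) (.e (nat_lit 376859) (nat_lit 21) (.e (nat_lit 57846) (nat_lit 252) .nil))))) (.g (nat_lit 0) (.e (nat_lit 278686) (nat_lit 0) .nil) .nil))) 
(.lf (nat_lit 545772) (.g (nat_lit 4881) (.e (nat_lit 114718) (nat_lit 23) (.e (nat_lit 98384) (nat_lit 32) (.e (nat_lit 475179) (nat_lit 24) (.e (nat_lit 516120) (nat_lit 1) (.e (nat_lit 164332) (nat_lit 230) (.e (nat_lit 163874) (nat_lit 3) (.e (nat_lit 204837) (nat_lit 20) .nil))))))) (.g (nat_lit 1) (.e (nat_lit 280292) (nat_lit 0) .nil) .nil)))))))) 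
(.nd (nat_lit 5) (.nd (nat_lit 6) (.nd (nat_lit 7) (.nd (nat_lit 8) (.nd (nat_lit 9) 
(.lf (nat_lit 544796) (.g (nat_lit 1523) (.e (nat_lit 114696) (nat_lit 11) (.e (nat_lit 426262) (nat_lit 9) (.e (nat_lit 426554) (nat_lit 32) (.e (nat_lit 376859) (nat_lit 21) (.e (nat_lit 57847) (nat_lit 252) (.e (nat_lit 57390) (nat_lit 5) .nil)))))) (.g (nat_lit 1) (.e (nat_lit 277768) (nat_lit 0) .nil) .nil))) 
(.lf (nat_lit 545308) (.g (nat_lit 1596) (.e (nat_lit 114712) (nat_lit 21) (.e (nat_lit 57852) (nat_lit 252) (.e (nat_lit 57350) (nat_lit 0) (.e (nat_lit 6113) (nat_lit 332) (.e (nat_lit 2777) (nat_lit 178) (.e (nat_lit 286771) (nat_lit 29) (.e (nat_lit 450304) (nat_lit 5) .nil))))))) (.g (nat_lit 1) (.e (nat_lit 279291) (nat_lit 0) .nil) .nil)))) (.nd (nat_lit 9) 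
(.lf (nat_lit 545052) (.g (nat_lit 1922) (.e (nat_lit 114698) (nat_lit 11) (.e (nat_lit 426198) (nat_lit 9) (.e (nat_lit 426542) (nat_lit 29) (.e (nat_lit 352307) (nat_lit 21) (.e (nat_lit 57848) (nat_lit 252) (.e (nat_lit 57390) (nat_lit 5) .nil)))))) (.g (nat_lit 1) (.e (nat_lit 278311) (nat_lit 0) .nil) .nil))) 
(.lf (nat_lit 545564) (.g (nat_lit 2317) (.e (nat_lit 114717) (nat_lit 23) (.e (nat_lit 98333) (nat_lit 18) (.e (nat_lit 164325) (nat_lit 230) (.e (nat_lit 163868) (nat_lit 2) .nil)))) (.g (nat_lit 0) (.e (nat_lit 280004) (nat_lit 0) .nil) .nil))))) (.nd (nat_lit 8) (.nd (nat_lit 9) 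
(.lf (nat_lit 544924) (.g (nat_lit 2072) (.e (nat_lit 114697) (nat_lit 11) (.e (nat_lit 426198) (nat_lit 9) (.e (nat_lit 426555) (nat_lit 32) (.e (nat_lit 376857) (nat_lit 21) (.e (nat_lit 57848) (nat_lit 252) (.e (nat_lit 57390) (nat_lit 5) .nil)))))) (.g (nat_lit 1) (.e (nat_lit 277967) (nat_lit 0) .nil) .nil))) 
(.lf (nat_lit 545436) (.g (nat_lit 3030) (.e (nat_lit 114715) (nat_lit 22) (.e (nat_lit 90170) (nat_lit 13) (.e (nat_lit 172065) (nat_lit 3) (.e (nat_lit 204831) (nat_lit 18) (.e (nat_lit 57688) (nat_lit 156) (.e (nat_lit 163875) (nat_lit 3) (.e (nat_lit 204837) (nat_lit 20) .nil))))))) (.g (nat_lit 1) (.e (nat_lit 279539) (nat_lit 0) .nil) .nil)))) (.nd (nat_lit 9) 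
(.lf (nat_lit 545180) (.g (nat_lit 749) (.e (nat_lit 114698) (nat_lit 11) (.e (nat_lit 426335) (nat_lit 13) (.e (nat_lit 483384) (nat_lit 23) .nil))) (.g (nat_lit 0) (.e (nat_lit 278499) (nat_lit 0) .nil) .nil))) 
(.lf (nat_lit 545692) (.g (nat_lit 2942) (.e (nat_lit 114718) (nat_lit 23) (.e (nat_lit 98366) (nat_lit 27) (.e (nat_lit 434231) (nat_lit 23) (.e (nat_lit 532500) (nat_lit 1) (.e (nat_lit 57690) (nat_lit 156) .nil))))) (.g (nat_lit 0) (.e (nat_lit 280192) (nat_lit 0) .nil) .nil)))))) (.nd (nat_lit 7) (.nd (nat_lit 8) (.nd (nat_lit 9) 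
(.lf (nat_lit 544860) (.g (nat_lit 3270) (.e (nat_lit 114697) (nat_lit 11) (.e (nat_lit 426139) (nat_lit 3) (.e (nat_lit 204861) (nat_lit 26) (.e (nat_lit 336075) (nat_lit 9) (.e (nat_lit 336324) (nat_lit 18) (.e (nat_lit 204837) (nat_lit 20) .nil)))))) (.g (nat_lit 1) (.e (nat_lit 277889) (nat_lit 0) .nil) .nil))) 
(.lf (nat_lit 545372) (.g (nat_lit 2610) (.e (nat_lit 114714) (nat_lit 22) (.e (nat_lit 90172) (nat_lit 14) (.e (nat_lit 180244) (nat_lit 5) (.e (nat_lit 532503) (nat_lit 1) (.e (nat_lit 57658) (nat_lit 152) (.e (nat_lit 2719) (nat_lit 171) (.e (nat_lit 229433) (nat_lit 25) (.e (nat_lit 532513) (nat_lit 3) .nil)))))))) (.g (nat_lit 1) (.e (nat_lit 279421) (nat_lit 0) .nil) .nil)))) 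
(.nd (nat_lit 9) 
(.lf (nat_lit 545116) (.g (nat_lit 2852) (.e (nat_lit 114698) (nat_lit 11) (.e (nat_lit 426325) (nat_lit 13) (.e (nat_lit 483380) (nat_lit 23) (.e (nat_lit 336336) (nat_lit 20) (.e (nat_lit 229120) (nat_lit 5) .nil))))) (.g (nat_lit 1) (.e (nat_lit 278381) (nat_lit 0) .nil) .nil))) 
(.lf (nat_lit 545628) (.g (nat_lit 4907) (.e (nat_lit 114718) (nat_lit 23) (.e (nat_lit 98334) (nat_lit 18) (.e (nat_lit 164332) (nat_lit 230) (.e (nat_lit 163869) (nat_lit 2) (.e (nat_lit 196654) (nat_lit 11) (.e (nat_lit 16416) (nat_lit 3) (.e (nat_lit 204837) (nat_lit 20) .nil))))))) (.g (nat_lit 1) (.e (nat_lit 280110) (nat_lit 0) .nil) .nil))))) (.nd (nat_lit 8) (.nd (nat_lit 9) 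
(.lf (nat_lit 544988) (.g (nat_lit 1050) (.e (nat_lit 114698) (nat_lit 11) (.e (nat_lit 426138) (nat_lit 3) (.e (nat_lit 204855) (nat_lit 26) (.e (nat_lit 336200) (nat_lit 12) .nil)))) (.g (nat_lit 0) (.e (nat_lit 278210) (nat_lit 0) .nil) .nil))) 
(.lf (nat_lit 545500) (.g (nat_lit 2894) (.e (nat_lit 114716) (nat_lit 22) (.e (nat_lit 90172) (nat_lit 14) (.e (nat_lit 180243) (nat_lit 5) (.e (nat_lit 532499) (nat_lit 1) (.e (nat_lit 57687) (nat_lit 156) (.e (nat_lit 163844) (nat_lit 0) (.e (nat_lit 3248) (nat_lit 197) (.e (nat_lit 532515) (nat_lit 3) .nil)))))))) (.g (nat_lit 1) (.e (nat_lit 279646) (nat_lit 0) .nil) .nil)))) 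
(.nd (nat_lit 9) 
(.lf (nat_lit 545244) (.g (nat_lit 1211) (.e (nat_lit 122624) (nat_lit 11) (.e (nat_lit 426188) (nat_lit 9) (.e (nat_lit 426555) (nat_lit 32) (.e (nat_lit 376857) (nat_lit 21) .nil)))) (.g (nat_lit 0) (.e (nat_lit 278670) (nat_lit 0) .nil) .nil))) 
(.lf (nat_lit 545756) (.g (nat_lit 1363) (.e (nat_lit 114718) (nat_lit 23) (.e (nat_lit 98384) (nat_lit 32) (.e (nat_lit 475179) (nat_lit 24) (.e (nat_lit 516117) (nat_lit 1) .nil)))) (.g (nat_lit 0) (.e (nat_lit 280269) (nat_lit 0) .nil) .nil))))))) (.nd (nat_lit 6) (.nd (nat_lit 7) (.nd (nat_lit 8) (.nd (nat_lit 9) 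
(.lf (nat_lit 544828) (.g (nat_lit 3381) (.e (nat_lit 114697) (nat_lit 11) (.e (nat_lit 426133) (nat_lit 3) (.e (nat_lit 204861) (nat_lit 26) (.e (nat_lit 336075) (nat_lit 9) (.e (nat_lit 336324) (nat_lit 18) (.e (nat_lit 204837) (nat_lit 20) .nil)))))) (.g (nat_lit 1) (.e (nat_lit 277849) (nat_lit 0) .nil) .nil))) 
(.lf (nat_lit 545340) (.g (nat_lit 3053) (.e (nat_lit 114714) (nat_lit 22) (.e (nat_lit 90172) (nat_lit 14) (.e (nat_lit 180243) (nat_lit 5) (.e (nat_lit 532499) (nat_lit 1) (.e (nat_lit 57665) (nat_lit 152) (.e (nat_lit 7936) (nat_lit 163) (.e (nat_lit 163962) (nat_lit 25) (.e (nat_lit 532513) (nat_lit 3) .nil)))))))) (.g (nat_lit 1) (.e (nat_lit 279366) (nat_lit 0) .nil) .nil)))) 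
(.nd (nat_lit 9) 
(.lf (nat_lit 545084) (.g (nat_lit 2437) (.e (nat_lit 114698) (nat_lit 11) (.e (nat_lit 426200) (nat_lit 9) (.e (nat_lit 426506) (nat_lit 27) (.e (nat_lit 336089) (nat_lit 9) (.e (nat_lit 336336) (nat_lit 20) (.e (nat_lit 229120) (nat_lit 5) .nil)))))) (.g (nat_lit 1) (.e (nat_lit 278343) (nat_lit 0) .nil) .nil))) 
(.lf (nat_lit 545596) (.g (nat_lit 3538) (.e (nat_lit 114717) (nat_lit 23) (.e (nat_lit 98356) (nat_lit 26) (.e (nat_lit 426438) (nat_lit 18) (.e (nat_lit 98333) (nat_lit 18) (.e (nat_lit 164327) (nat_lit 230) (.e (nat_lit 163875) (nat_lit 3) (.e (nat_lit 204836) (nat_lit 20) .nil))))))) (.g (nat_lit 1) (.e (nat_lit 280051) (nat_lit 0) .nil) .nil))))) (.nd (nat_lit 8) (.nd (nat_lit 9) 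
(.lf (nat_lit 544956) (.g (nat_lit 3692) (.e (nat_lit 114697) (nat_lit 11) (.e (nat_lit 426200) (nat_lit 9) (.e (nat_lit 426555) (nat_lit 32) (.e (nat_lit 376859) (nat_lit 21) (.e (nat_lit 57854) (nat_lit 252) (.e (nat_lit 57389) (nat_lit 5) .nil)))))) (.g (nat_lit 1) (.e (nat_lit 277999) (nat_lit 0) .nil) .nil))) 
(.lf (nat_lit 545468) (.g (nat_lit 1006) (.e (nat_lit 114715) (nat_lit 22) (.e (nat_lit 90170) (nat_lit 13) (.e (nat_lit 172071) (nat_lit 5) .nil))) (.g (nat_lit 0) (.e (nat_lit 279579) (nat_lit 0) .nil) .nil)))) (.nd (nat_lit 9) 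
(.lf (nat_lit 545212) (.g (nat_lit 2662) (.e (nat_lit 122624) (nat_lit 11) (.e (nat_lit 426125) (nat_lit 2) (.e (nat_lit 196681) (nat_lit 17) (.e (nat_lit 131109) (nat_lit 9) (.e (nat_lit 336324) (nat_lit 18) .nil))))) (.g (nat_lit 0) (.e (nat_lit 278591) (nat_lit 0) .nil) .nil))) 
(.lf (nat_lit 545724) (.g (nat_lit 3949) (.e (nat_lit 114718) (nat_lit 23) (.e (nat_lit 98367) (nat_lit 27) (.e (nat_lit 434231) (nat_lit 23) (.e (nat_lit 532500) (nat_lit 1) (.e (nat_lit 57691) (nat_lit 156) (.e (nat_lit 163874) (nat_lit 3) (.e (nat_lit 204837) (nat_lit 20) .nil))))))) (.g (nat_lit 1) (.e (nat_lit 280233) (nat_lit 0) .nil) .nil)))))) 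
(.nd (nat_lit 7) (.nd (nat_lit 8) (.nd (nat_lit 9) 
(.lf (nat_lit 544892) (.g (nat_lit 3140) (.e (nat_lit 114697) (nat_lit 11) (.e (nat_lit 426190) (nat_lit 9) (.e (nat_lit 426555) (nat_lit 32) (.e (nat_lit 376859) (nat_lit 21) (.e (nat_lit 57854) (nat_lit 252) (.e (nat_lit 57388) (nat_lit 5) .nil)))))) (.g (nat_lit 1) (.e (nat_lit 277932) (nat_lit 0) .nil) .nil))) 
(.lf (nat_lit 545404) (.g (nat_lit 2195) (.e (nat_lit 114714) (nat_lit 22) (.e (nat_lit 90174) (nat_lit 14) (.e (nat_lit 180243) (nat_lit 5) (.e (nat_lit 532503) (nat_lit 1) (.e (nat_lit 57665) (nat_lit 152) .nil))))) (.g (nat_lit 0) (.e (nat_lit 279471) (nat_lit 0) .nil) .nil)))) (.nd (nat_lit 9) 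
(.lf (nat_lit 545148) (.g (nat_lit 1987) (.e (nat_lit 114698) (nat_lit 11) (.e (nat_lit 426327) (nat_lit 13) (.e (nat_lit 483383) (nat_lit 23) (.e (nat_lit 336334) (nat_lit 20) (.e (nat_lit 229120) (nat_lit 5) .nil))))) (.g (nat_lit 0) (.e (nat_lit 278429) (nat_lit 0) .nil) .nil))) 
(.lf (nat_lit 545660) (.g (nat_lit 3696) (.e (nat_lit 114718) (nat_lit 23) (.e (nat_lit 98356) (nat_lit 26) (.e (nat_lit 426438) (nat_lit 18) (.e (nat_lit 98333) (nat_lit 18) (.e (nat_lit 164327) (nat_lit 230) (.e (nat_lit 163875) (nat_lit 3) (.e (nat_lit 204836) (nat_lit 20) .nil))))))) (.g (nat_lit 1) (.e (nat_lit 280155) (nat_lit 0) .nil) .nil))))) (.nd (nat_lit 8) (.nd (nat_lit 9) 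
(.lf (nat_lit 545020) (.g (nat_lit 2521) (.e (nat_lit 114698) (nat_lit 11) (.e (nat_lit 426190) (nat_lit 9) (.e (nat_lit 426555) (nat_lit 32) (.e (nat_lit 376859) (nat_lit 21) (.e (nat_lit 57846) (nat_lit 252) (.e (nat_lit 57390) (nat_lit 5) .nil)))))) (.g (nat_lit 1) (.e (nat_lit 278277) (nat_lit 0) .nil) .nil))) 
(.lf (nat_lit 545532) (.g (nat_lit 2222) (.e (nat_lit 114716) (nat_lit 22) (.e (nat_lit 90174) (nat_lit 14) (.e (nat_lit 180243) (nat_lit 5) (.e (nat_lit 532499) (nat_lit 1) (.e (nat_lit 57687) (nat_lit 156) (.e (nat_lit 163844) (nat_lit 0) (.e (nat_lit 3230) (nat_lit 197) (.e (nat_lit 532514) (nat_lit 3) .nil)))))))) (.g (nat_lit 1) (.e (nat_lit 279853) (nat_lit 0) .nil) .nil)))) 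
(.nd (nat_lit 9) 
(.lf (nat_lit 545276) (.g (nat_lit 514) (.e (nat_lit 122624) (nat_lit 12) (.e (nat_lit 434219) (nat_lit 19) (.e (nat_lit 500087) (nat_lit 22) .nil))) (.g (nat_lit 0) (.e (nat_lit 278757) (nat_lit 0) .nil) .nil))) 
(.lf (nat_lit 545788) (.g (nat_lit 3391) (.e (nat_lit 114719) (nat_lit 23) (.e (nat_lit 98333) (nat_lit 18) (.e (nat_lit 164332) (nat_lit 230) (.e (nat_lit 163869) (nat_lit 2) (.e (nat_lit 196656) (nat_lit 11) .nil))))) (.g (nat_lit 0) (.e (nat_lit 280315) (nat_lit 0) .nil) .nil))))))))))) 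
(.nd (nat_lit 2) (.nd (nat_lit 3) (.nd (nat_lit 4) (.nd (nat_lit 5) (.nd (nat_lit 6) 
(.nd (nat_lit 7) (.nd (nat_lit 8) (.nd (nat_lit 9) 
(.lf (nat_lit 544770) (.g (nat_lit 1892) (.e (nat_lit 114696) (nat_lit 11) (.e (nat_lit 426232) (nat_lit 9) (.e (nat_lit 426554) (nat_lit 32) (.e (nat_lit 376859) (nat_lit 21) (.e (nat_lit 57846) (nat_lit 252) (.e (nat_lit 57388) (nat_lit 5) .nil)))))) (.g (nat_lit 1) (.e (nat_lit 277742) (nat_lit 0) .nil) .nil))) 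
(.lf (nat_lit 545282) (.g (nat_lit 2000) (.e (nat_lit 114702) (nat_lit 20) (.e (nat_lit 1794) (nat_lit 119) (.e (nat_lit 516115) (nat_lit 1) (.e (nat_lit 164399) (nat_lit 256) (.e (nat_lit 57372) (nat_lit 2) .nil))))) (.g (nat_lit 0) (.e (nat_lit 279159) (nat_lit 0) .nil) .nil)))) (.nd (nat_lit 9) 
(.lf (nat_lit 545026) (.g (nat_lit 1794) (.e (nat_lit 114698) (nat_lit 11) (.e (nat_lit 426197) (nat_lit 9) (.e (nat_lit 426542) (nat_lit 29) (.e (nat_lit 352307) (nat_lit 21) (.e (nat_lit 57849) (nat_lit 252) (.e (nat_lit 57390) (nat_lit 5) .nil)))))) (.g (nat_lit 1) (.e (nat_lit 278283) (nat_lit 0) .nil) .nil))) 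
(.lf (nat_lit 545538) (.g (nat_lit 1954) (.e (nat_lit 114716) (nat_lit 22) (.e (nat_lit 90174) (nat_lit 14) (.e (nat_lit 180243) (nat_lit 5) (.e (nat_lit 532501) (nat_lit 1) (.e (nat_lit 57661) (nat_lit 152) .nil))))) (.g (nat_lit 0) (.e (nat_lit 279871) (nat_lit 0) .nil) .nil))))) (.nd (nat_lit 8) (.nd (nat_lit 9) 
(.lf (nat_lit 544898) (.g (nat_lit 2532) (.e (nat_lit 114697) (nat_lit 11) (.e (nat_lit 426197) (nat_lit 9) (.e (nat_lit 426555) (nat_lit 32) (.e (nat_lit 376857) (nat_lit 21) (.e (nat_lit 57847) (nat_lit 252) (.e (nat_lit 57390) (nat_lit 5) .nil)))))) (.g (nat_lit 1) (.e (nat_lit 277939) (nat_lit 0) .nil) .nil))) 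
(.lf (nat_lit 545410) (.g (nat_lit 3781) (.e (nat_lit 114714) (nat_lit 22) (.e (nat_lit 90174) (nat_lit 14) (.e (nat_lit 180243) (nat_lit 5) (.e (nat_lit 532504) (nat_lit 1) (.e (nat_lit 57692) (nat_lit 156) (.e (nat_lit 163874) (nat_lit 3) (.e (nat_lit 204836) (nat_lit 20) .nil))))))) (.g (nat_lit 1) (.e (nat_lit 279478) (nat_lit 0) .nil) .nil)))) (.nd (nat_lit 9) 
(.lf (nat_lit 545154) (.g (nat_lit 2862) (.e (nat_lit 114698) (nat_lit 11) (.e (nat_lit 426327) (nat_lit 13) (.e (nat_lit 483406) (nat_lit 26) (.e (nat_lit 385109) (nat_lit 51) (.e (nat_lit 802560) (nat_lit 5) .nil))))) (.g (nat_lit 1) (.e (nat_lit 278444) (nat_lit 0) .nil) .nil))) 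
(.lf (nat_lit 545666) (.g (nat_lit 4444) (.e (nat_lit 114718) (nat_lit 23) (.e (nat_lit 98356) (nat_lit 26) (.e (nat_lit 426438) (nat_lit 18) (.e (nat_lit 98335) (nat_lit 18) (.e (nat_lit 164327) (nat_lit 230) (.e (nat_lit 163875) (nat_lit 3) (.e (nat_lit 204837) (nat_lit 20) .nil))))))) (.g (nat_lit 1) (.e (nat_lit 280161) (nat_lit 0) .nil) .nil)))))) 
(.nd (nat_lit 7) (.nd (nat_lit 8) (.nd (nat_lit 9) 
(.lf (nat_lit 544834) (.g (nat_lit 3770) (.e (nat_lit 114697) (nat_lit 11) (.e (nat_lit 426133) (nat_lit 3) (.e (nat_lit 204861) (nat_lit 26) (.e (nat_lit 336088) (nat_lit 9) (.e (nat_lit 336324) (nat_lit 18) (.e (nat_lit 204838) (nat_lit 20) .nil)))))) (.g (nat_lit 1) (.e (nat_lit 277855) (nat_lit 0) .nil) .nil))) 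
(.lf (nat_lit 545346) (.g (nat_lit 2981) (.e (nat_lit 114714) (nat_lit 22) (.e (nat_lit 90172) (nat_lit 14) (.e (nat_lit 180243) (nat_lit 5) (.e (nat_lit 532504) (nat_lit 1) (.e (nat_lit 57663) (nat_lit 152) (.e (nat_lit 2716) (nat_lit 171) (.e (nat_lit 229433) (nat_lit 25) (.e (nat_lit 532513) (nat_lit 3) .nil)))))))) (.g (nat_lit 1) (.e (nat_lit 279375) (nat_lit 0) .nil) .nil)))) 
(.nd (nat_lit 9) 
(.lf (nat_lit 545090) (.g (nat_lit 3439) (.e (nat_lit 114698) (nat_lit 11) (.e (nat_lit 426200) (nat_lit 9) (.e (nat_lit 426555) (nat_lit 32) (.e (nat_lit 376858) (nat_lit 21) .nil)))) (.g (nat_lit 0) (.e (nat_lit 278350) (nat_lit 0) .nil) .nil))) 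
(.lf (nat_lit 545602) (.g (nat_lit 2062) (.e (nat_lit 114717) (nat_lit 23) (.e (nat_lit 98384) (nat_lit 32) (.e (nat_lit 475177) (nat_lit 24) (.e (nat_lit 516119) (nat_lit 1) .nil)))) (.g (nat_lit 0) (.e (nat_lit 280057) (nat_lit 0) .nil) .nil))))) (.nd (nat_lit 8) (.nd (nat_lit 9) 
(.lf (nat_lit 544962) (.g (nat_lit 613) (.e (nat_lit 114698) (nat_lit 11) (.e (nat_lit 426116) (nat_lit 2) (.e (nat_lit 196674) (nat_lit 15) .nil))) (.g (nat_lit 0) (.e (nat_lit 278136) (nat_lit 0) .nil) .nil))) 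
(.lf (nat_lit 545474) (.g (nat_lit 483) (.e (nat_lit 114715) (nat_lit 22) (.e (nat_lit 90174) (nat_lit 14) (.e (nat_lit 180243) (nat_lit 5) .nil))) (.g (nat_lit 0) (.e (nat_lit 279585) (nat_lit 0) .nil) .nil)))) (.nd (nat_lit 9) 
(.lf (nat_lit 545218) (.g (nat_lit 687) (.e (nat_lit 122624) (nat_lit 11) (.e (nat_lit 426129) (nat_lit 3) (.e (nat_lit 204877) (nat_lit 31) (.e (nat_lit 384768) (nat_lit 3) .nil)))) (.g (nat_lit 0) (.e (nat_lit 278604) (nat_lit 0) .nil) .nil))) 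
(.lf (nat_lit 545730) (.g (nat_lit 3525) (.e (nat_lit 114718) (nat_lit 23) (.e (nat_lit 98367) (nat_lit 27) (.e (nat_lit 434232) (nat_lit 23) (.e (nat_lit 532503) (nat_lit 1) (.e (nat_lit 57688) (nat_lit 156) (.e (nat_lit 163874) (nat_lit 3) (.e (nat_lit 204838) (nat_lit 20) .nil))))))) (.g (nat_lit 1) (.e (nat_lit 280239) (nat_lit 0) .nil) .nil))))))) 
(.nd (nat_lit 6) (.nd (nat_lit 7) (.nd (nat_lit 8) (.nd (nat_lit 9) 
(.lf (nat_lit 544802) (.g (nat_lit 2059) (.e (nat_lit 114696) (nat_lit 11) (.e (nat_lit 426262) (nat_lit 9) (.e (nat_lit 426554) (nat_lit 32) (.e (nat_lit 376860) (nat_lit 21) (.e (nat_lit 57854) (nat_lit 252) (.e (nat_lit 57388) (nat_lit 5) .nil)))))) (.g (nat_lit 1) (.e (nat_lit 277774) (nat_lit 0) .nil) .nil))) 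
(.lf (nat_lit 545314) (.g (nat_lit 2738) (.e (nat_lit 114712) (nat_lit 21) (.e (nat_lit 57929) (nat_lit 282) (.e (nat_lit 163923) (nat_lit 15) (.e (nat_lit 450587) (nat_lit 10) (.e (nat_lit 573477) (nat_lit 12) (.e (nat_lit 57360) (nat_lit 0) (.e (nat_lit 5947) (nat_lit 322) (.e (nat_lit 57389) (nat_lit 5) .nil)))))))) (.g (nat_lit 1) (.e (nat_lit 279321) (nat_lit 0) .nil) .nil)))) 
(.nd (nat_lit 9) 
(.lf (nat_lit 545058) (.g (nat_lit 1926) (.e (nat_lit 114698) (nat_lit 11) (.e (nat_lit 426198) (nat_lit 9) (.e (nat_lit 426555) (nat_lit 32) (.e (nat_lit 376857) (nat_lit 21) (.e (nat_lit 57848) (nat_lit 252) (.e (nat_lit 57390) (nat_lit 5) .nil)))))) (.g (nat_lit 1) (.e (nat_lit 278317) (nat_lit 0) .nil) .nil))) 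
(.lf (nat_lit 545570) (.g (nat_lit 488) (.e (nat_lit 114717) (nat_lit 23) (.e (nat_lit 98333) (nat_lit 18) (.e (nat_lit 164399) (nat_lit 256) .nil))) (.g (nat_lit 0) (.e (nat_lit 280015) (nat_lit 0) .nil) .nil))))) (.nd (nat_lit 8) (.nd (nat_lit 9) 
(.lf (nat_lit 544930) (.g (nat_lit 1497) (.e (nat_lit 114697) (nat_lit 11) (.e (nat_lit 426198) (nat_lit 9) (.e (nat_lit 426555) (nat_lit 32) (.e (nat_lit 376858) (nat_lit 21) .nil)))) (.g (nat_lit 0) (.e (nat_lit 277973) (nat_lit 0) .nil) .nil))) 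
(.lf (nat_lit 545442) (.g (nat_lit 3723) (.e (nat_lit 114715) (nat_lit 22) (.e (nat_lit 90170) (nat_lit 13) (.e (nat_lit 172065) (nat_lit 3) (.e (nat_lit 204831) (nat_lit 18) (.e (nat_lit 57692) (nat_lit 156) (.e (nat_lit 163875) (nat_lit 3) (.e (nat_lit 204838) (nat_lit 20) .nil))))))) (.g (nat_lit 1) (.e (nat_lit 279545) (nat_lit 0) .nil) .nil)))) (.nd (nat_lit 9) 
(.lf (nat_lit 545186) (.g (nat_lit 1773) (.e (nat_lit 114698) (nat_lit 11) (.e (nat_lit 426335) (nat_lit 13) (.e (nat_lit 483391) (nat_lit 23) (.e (nat_lit 336335) (nat_lit 20) (.e (nat_lit 229120) (nat_lit 5) .nil))))) (.g (nat_lit 1) (.e (nat_lit 278505) (nat_lit 0) .nil) .nil))) 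
(.lf (nat_lit 545698) (.g (nat_lit 3046) (.e (nat_lit 114718) (nat_lit 23) (.e (nat_lit 98366) (nat_lit 27) (.e (nat_lit 434231) (nat_lit 23) (.e (nat_lit 532500) (nat_lit 1) (.e (nat_lit 57692) (nat_lit 156) (.e (nat_lit 163875) (nat_lit 3) (.e (nat_lit 204836) (nat_lit 20) .nil))))))) (.g (nat_lit 1) (.e (nat_lit 280198) (nat_lit 0) .nil) .nil)))))) 
(.nd (nat_lit 7) (.nd (nat_lit 8) (.nd (nat_lit 9) 
(.lf (nat_lit 544866) (.g (nat_lit 2075) (.e (nat_lit 114697) (nat_lit 11) (.e (nat_lit 426139) (nat_lit 3) (.e (nat_lit 204861) (nat_lit 26) (.e (nat_lit 336086) (nat_lit 9) (.e (nat_lit 336324) (nat_lit 18) .nil))))) (.g (nat_lit 0) (.e (nat_lit 277895) (nat_lit 0) .nil) .nil))) 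
(.lf (nat_lit 545378) (.g (nat_lit 2089) (.e (nat_lit 114714) (nat_lit 22) (.e (nat_lit 90172) (nat_lit 14) (.e (nat_lit 180244) (nat_lit 5) (.e (nat_lit 532503) (nat_lit 1) (.e (nat_lit 57693) (nat_lit 157) .nil))))) (.g (nat_lit 0) (.e (nat_lit 279432) (nat_lit 0) .nil) .nil)))) (.nd (nat_lit 9) 
(.lf (nat_lit 545122) (.g (nat_lit 2235) (.e (nat_lit 114698) (nat_lit 11) (.e (nat_lit 426325) (nat_lit 13) (.e (nat_lit 483385) (nat_lit 23) (.e (nat_lit 336334) (nat_lit 20) (.e (nat_lit 229120) (nat_lit 5) .nil))))) (.g (nat_lit 1) (.e (nat_lit 278387) (nat_lit 0) .nil) .nil))) 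
(.lf (nat_lit 545634) (.g (nat_lit 2789) (.e (nat_lit 114718) (nat_lit 23) (.e (nat_lit 98334) (nat_lit 18) (.e (nat_lit 164403) (nat_lit 256) (.e (nat_lit 57373) (nat_lit 2) (.e (nat_lit 90167) (nat_lit 13) .nil))))) (.g (nat_lit 0) (.e (nat_lit 280117) (nat_lit 0) .nil) .nil))))) (.nd (nat_lit 8) (.nd (nat_lit 9) 
(.lf (nat_lit 544994) (.g (nat_lit 2839) (.e (nat_lit 114698) (nat_lit 11) (.e (nat_lit 426139) (nat_lit 3) (.e (nat_lit 204861) (nat_lit 26) (.e (nat_lit 336086) (nat_lit 9) (.e (nat_lit 336324) (nat_lit 18) (.e (nat_lit 204837) (nat_lit 20) .nil)))))) (.g (nat_lit 1) (.e (nat_lit 278233) (nat_lit 0) .nil) .nil))) 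
(.lf (nat_lit 545506) (.g (nat_lit 2247) (.e (nat_lit 114716) (nat_lit 22) (.e (nat_lit 90172) (nat_lit 14) (.e (nat_lit 180243) (nat_lit 5) (.e (nat_lit 532503) (nat_lit 1) (.e (nat_lit 57654) (nat_lit 152) .nil))))) (.g (nat_lit 0) (.e (nat_lit 279670) (nat_lit 0) .nil) .nil)))) (.nd (nat_lit 9) 
(.lf (nat_lit 545250) (.g (nat_lit 1241) (.e (nat_lit 122624) (nat_lit 11) (.e (nat_lit 426188) (nat_lit 9) (.e (nat_lit 426555) (nat_lit 32) (.e (nat_lit 376860) (nat_lit 21) .nil)))) (.g (nat_lit 0) (.e (nat_lit 278676) (nat_lit 0) .nil) .nil))) 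
(.lf (nat_lit 545762) (.g (nat_lit 4667) (.e (nat_lit 114718) (nat_lit 23) (.e (nat_lit 98384) (nat_lit 32) (.e (nat_lit 475179) (nat_lit 24) (.e (nat_lit 516117) (nat_lit 1) (.e (nat_lit 164330) (nat_lit 230) (.e (nat_lit 163874) (nat_lit 3) (.e (nat_lit 204837) (nat_lit 20) .nil))))))) (.g (nat_lit 1) (.e (nat_lit 280280) (nat_lit 0) .nil) .nil)))))))) 
(.nd (nat_lit 5) (.nd (nat_lit 6) (.nd (nat_lit 7) (.nd (nat_lit 8) (.nd (nat_lit 9) 
(.lf (nat_lit 544786) (.g (nat_lit 1717) (.e (nat_lit 114696) (nat_lit 11) (.e (nat_lit 426234) (nat_lit 9) (.e (nat_lit 426554) (nat_lit 32) (.e (nat_lit 376860) (nat_lit 21) (.e (nat_lit 57851) (nat_lit 252) (.e (nat_lit 57388) (nat_lit 5) .nil)))))) (.g (nat_lit 1) (.e (nat_lit 277758) (nat_lit 0) .nil) .nil))) 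
(.lf (nat_lit 545298) (.g (nat_lit 2178) (.e (nat_lit 114708) (nat_lit 20) (.e (nat_lit 1800) (nat_lit 119) (.e (nat_lit 516120) (nat_lit 1) (.e (nat_lit 164403) (nat_lit 256) (.e (nat_lit 57378) (nat_lit 3) .nil))))) (.g (nat_lit 0) (.e (nat_lit 279182) (nat_lit 0) .nil) .nil)))) (.nd (nat_lit 9) 
(.lf (nat_lit 545042) (.g (nat_lit 3631) (.e (nat_lit 114698) (nat_lit 11) (.e (nat_lit 426197) (nat_lit 9) (.e (nat_lit 426555) (nat_lit 32) (.e (nat_lit 376859) (nat_lit 21) (.e (nat_lit 57849) (nat_lit 252) (.e (nat_lit 57388) (nat_lit 5) .nil)))))) (.g (nat_lit 1) (.e (nat_lit 278299) (nat_lit 0) .nil) .nil))) 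
(.lf (nat_lit 545554) (.g (nat_lit 541) (.e (nat_lit 114716) (nat_lit 22) (.e (nat_lit 90174) (nat_lit 14) (.e (nat_lit 180248) (nat_lit 9) .nil))) (.g (nat_lit 0) (.e (nat_lit 279964) (nat_lit 0) .nil) .nil))))) (.nd (nat_lit 8) (.nd (nat_lit 9) 
(.lf (nat_lit 544914) (.g (nat_lit 2431) (.e (nat_lit 114697) (nat_lit 11) (.e (nat_lit 426198) (nat_lit 9) (.e (nat_lit 426538) (nat_lit 29) (.e (nat_lit 352309) (nat_lit 21) (.e (nat_lit 57854) (nat_lit 252) (.e (nat_lit 57388) (nat_lit 5) .nil)))))) (.g (nat_lit 1) (.e (nat_lit 277956) (nat_lit 0) .nil) .nil))) 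
(.lf (nat_lit 545426) (.g (nat_lit 3602) (.e (nat_lit 114715) (nat_lit 22) (.e (nat_lit 90170) (nat_lit 13) (.e (nat_lit 172065) (nat_lit 3) (.e (nat_lit 204829) (nat_lit 18) (.e (nat_lit 57692) (nat_lit 156) (.e (nat_lit 163875) (nat_lit 3) (.e (nat_lit 204836) (nat_lit 20) .nil))))))) (.g (nat_lit 1) (.e (nat_lit 279524) (nat_lit 0) .nil) .nil)))) (.nd (nat_lit 9) 
(.lf (nat_lit 545170) (.g (nat_lit 2672) (.e (nat_lit 114698) (nat_lit 11) (.e (nat_lit 426335) (nat_lit 13) (.e (nat_lit 483346) (nat_lit 17) (.e (nat_lit 6445) (nat_lit 343) (.e (nat_lit 186) (nat_lit 14) (.e (nat_lit 229120) (nat_lit 5) .nil)))))) (.g (nat_lit 1) (.e (nat_lit 278489) (nat_lit 0) .nil) .nil))) 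
(.lf (nat_lit 545682) (.g (nat_lit 2105) (.e (nat_lit 114718) (nat_lit 23) (.e (nat_lit 98366) (nat_lit 27) (.e (nat_lit 434231) (nat_lit 23) (.e (nat_lit 532499) (nat_lit 1) (.e (nat_lit 57686) (nat_lit 156) (.e (nat_lit 163875) (nat_lit 3) (.e (nat_lit 204836) (nat_lit 20) .nil))))))) (.g (nat_lit 1) (.e (nat_lit 280182) (nat_lit 0) .nil) .nil)))))) 
(.nd (nat_lit 7) (.nd (nat_lit 8) (.nd (nat_lit 9) 
(.lf (nat_lit 544850) (.g (nat_lit 2275) (.e (nat_lit 114697) (nat_lit 11) (.e (nat_lit 426137) (nat_lit 3) (.e (nat_lit 204876) (nat_lit 31) (.e (nat_lit 376835) (nat_lit 0) (.e (nat_lit 3253) (nat_lit 197) (.e (nat_lit 532515) (nat_lit 3) .nil)))))) (.g (nat_lit 1) (.e (nat_lit 277875) (nat_lit 0) .nil) .nil))) 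
(.lf (nat_lit 545362) (.g (nat_lit 2411) (.e (nat_lit 114714) (nat_lit 22) (.e (nat_lit 90172) (nat_lit 14) (.e (nat_lit 180244) (nat_lit 5) (.e (nat_lit 532499) (nat_lit 1) (.e (nat_lit 57691) (nat_lit 156) (.e (nat_lit 163847) (nat_lit 0) (.e (nat_lit 3256) (nat_lit 197) (.e (nat_lit 532513) (nat_lit 3) .nil)))))))) (.g (nat_lit 1) (.e (nat_lit 279400) (nat_lit 0) .nil) .nil)))) 
(.nd (nat_lit 9) 
(.lf (nat_lit 545106) (.g (nat_lit 2339) (.e (nat_lit 114698) (nat_lit 11) (.e (nat_lit 426213) (nat_lit 9) (.e (nat_lit 426497) (nat_lit 27) (.e (nat_lit 336194) (nat_lit 12) (.e (nat_lit 385109) (nat_lit 51) (.e (nat_lit 802560) (nat_lit 5) .nil)))))) (.g (nat_lit 1) (.e (nat_lit 278367) (nat_lit 0) .nil) .nil))) 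
(.lf (nat_lit 545618) (.g (nat_lit 2485) (.e (nat_lit 114718) (nat_lit 23) (.e (nat_lit 98333) (nat_lit 18) (.e (nat_lit 164398) (nat_lit 256) (.e (nat_lit 57375) (nat_lit 2) (.e (nat_lit 90167) (nat_lit 13) .nil))))) (.g (nat_lit 0) (.e (nat_lit 280087) (nat_lit 0) .nil) .nil))))) (.nd (nat_lit 8) (.nd (nat_lit 9) 
(.lf (nat_lit 544978) (.g (nat_lit 2261) (.e (nat_lit 114698) (nat_lit 11) (.e (nat_lit 426124) (nat_lit 2) (.e (nat_lit 196681) (nat_lit 17) (.e (nat_lit 131122) (nat_lit 12) .nil)))) (.g (nat_lit 0) (.e (nat_lit 278194) (nat_lit 0) .nil) .nil))) 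
(.lf (nat_lit 545490) (.g (nat_lit 4126) (.e (nat_lit 114716) (nat_lit 22) (.e (nat_lit 90160) (nat_lit 11) (.e (nat_lit 24665) (nat_lit 14) (.e (nat_lit 401414) (nat_lit 0) (.e (nat_lit 3205) (nat_lit 194) (.e (nat_lit 507946) (nat_lit 18) (.e (nat_lit 311040) (nat_lit 20) .nil))))))) (.g (nat_lit 1) (.e (nat_lit 279623) (nat_lit 0) .nil) .nil)))) (.nd (nat_lit 9) 
(.lf (nat_lit 545234) (.g (nat_lit 643) (.e (nat_lit 122624) (nat_lit 11) (.e (nat_lit 426140) (nat_lit 3) (.e (nat_lit 204850) (nat_lit 26) .nil))) (.g (nat_lit 0) (.e (nat_lit 278639) (nat_lit 0) .nil) .nil))) 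
(.lf (nat_lit 545746) (.g (nat_lit 3754) (.e (nat_lit 114718) (nat_lit 23) (.e (nat_lit 98384) (nat_lit 32) (.e (nat_lit 475177) (nat_lit 24) (.e (nat_lit 516119) (nat_lit 1) (.e (nat_lit 164327) (nat_lit 230) (.e (nat_lit 163875) (nat_lit 3) (.e (nat_lit 204838) (nat_lit 20) .nil))))))) (.g (nat_lit 1) (.e (nat_lit 280259) (nat_lit 0) .nil) .nil))))))) 
(.nd (nat_lit 6) (.nd (nat_lit 7) (.nd (nat_lit 8) (.nd (nat_lit 9) 
(.lf (nat_lit 544818) (.g (nat_lit 3242) (.e (nat_lit 114697) (nat_lit 11) (.e (nat_lit 426123) (nat_lit 2) (.e (nat_lit 196666) (nat_lit 13) (.e (nat_lit 65624) (nat_lit 12) (.e (nat_lit 385066) (nat_lit 26) (.e (nat_lit 532515) (nat_lit 3) .nil)))))) (.g (nat_lit 1) (.e (nat_lit 277827) (nat_lit 0) .nil) .nil))) 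
(.lf (nat_lit 545330) (.g (nat_lit 878) (.e (nat_lit 114714) (nat_lit 22) (.e (nat_lit 90170) (nat_lit 13) (.e (nat_lit 172062) (nat_lit 2) .nil))) (.g (nat_lit 0) (.e (nat_lit 279352) (nat_lit 0) .nil) .nil)))) (.nd (nat_lit 9) 
(.lf (nat_lit 545074) (.g (nat_lit 2528) (.e (nat_lit 114698) (nat_lit 11) (.e (nat_lit 426200) (nat_lit 9) (.e (nat_lit 426478) (nat_lit 27) (.e (nat_lit 336083) (nat_lit 9) (.e (nat_lit 336336) (nat_lit 20) (.e (nat_lit 229120) (nat_lit 5) .nil)))))) (.g (nat_lit 1) (.e (nat_lit 278333) (nat_lit 0) .nil) .nil))) 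
(.lf (nat_lit 545586) (.g (nat_lit 3840) (.e (nat_lit 114717) (nat_lit 23) (.e (nat_lit 98334) (nat_lit 18) (.e (nat_lit 164398) (nat_lit 256) (.e (nat_lit 57378) (nat_lit 3) (.e (nat_lit 98367) (nat_lit 27) (.e (nat_lit 434231) (nat_lit 23) (.e (nat_lit 532514) (nat_lit 3) .nil))))))) (.g (nat_lit 1) (.e (nat_lit 280041) (nat_lit 0) .nil) .nil))))) (.nd (nat_lit 8) (.nd (nat_lit 9) 
(.lf (nat_lit 544946) (.g (nat_lit 3198) (.e (nat_lit 114697) (nat_lit 11) (.e (nat_lit 426199) (nat_lit 9) (.e (nat_lit 426555) (nat_lit 32) (.e (nat_lit 376859) (nat_lit 21) (.e (nat_lit 57849) (nat_lit 252) (.e (nat_lit 57388) (nat_lit 5) .nil)))))) (.g (nat_lit 1) (.e (nat_lit 277989) (nat_lit 0) .nil) .nil))) 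
(.lf (nat_lit 545458) (.g (nat_lit 3342) (.e (nat_lit 114715) (nat_lit 22) (.e (nat_lit 90170) (nat_lit 13) (.e (nat_lit 172067) (nat_lit 3) (.e (nat_lit 204830) (nat_lit 18) (.e (nat_lit 57691) (nat_lit 156) (.e (nat_lit 163874) (nat_lit 3) (.e (nat_lit 204836) (nat_lit 20) .nil))))))) (.g (nat_lit 1) (.e (nat_lit 279568) (nat_lit 0) .nil) .nil)))) (.nd (nat_lit 9) 
(.lf (nat_lit 545202) (.g (nat_lit 1164) (.e (nat_lit 122624) (nat_lit 11) (.e (nat_lit 426125) (nat_lit 2) (.e (nat_lit 196662) (nat_lit 13) .nil))) (.g (nat_lit 0) (.e (nat_lit 278562) (nat_lit 0) .nil) .nil))) 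
(.lf (nat_lit 545714) (.g (nat_lit 2500) (.e (nat_lit 114718) (nat_lit 23) (.e (nat_lit 98367) (nat_lit 27) (.e (nat_lit 434231) (nat_lit 23) (.e (nat_lit 532499) (nat_lit 1) (.e (nat_lit 57688) (nat_lit 156) (.e (nat_lit 163873) (nat_lit 3) (.e (nat_lit 204836) (nat_lit 20) .nil))))))) (.g (nat_lit 1) (.e (nat_lit 280220) (nat_lit 0) .nil) .nil)))))) 
(.nd (nat_lit 7) (.nd (nat_lit 8) (.nd (nat_lit 9) 
(.lf (nat_lit 544882) (.g (nat_lit 2706) (.e (nat_lit 114697) (nat_lit 11) (.e (nat_lit 426190) (nat_lit 9) (.e (nat_lit 426555) (nat_lit 32) (.e (nat_lit 376856) (nat_lit 21) (.e (nat_lit 57854) (nat_lit 252) (.e (nat_lit 57389) (nat_lit 5) .nil)))))) (.g (nat_lit 1) (.e (nat_lit 277922) (nat_lit 0) .nil) .nil))) 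
(.lf (nat_lit 545394) (.g (nat_lit 3800) (.e (nat_lit 114714) (nat_lit 22) (.e (nat_lit 90174) (nat_lit 14) (.e (nat_lit 180243) (nat_lit 5) (.e (nat_lit 532499) (nat_lit 1) (.e (nat_lit 57692) (nat_lit 156) (.e (nat_lit 163874) (nat_lit 3) (.e (nat_lit 204836) (nat_lit 20) .nil))))))) (.g (nat_lit 1) (.e (nat_lit 279459) (nat_lit 0) .nil) .nil)))) (.nd (nat_lit 9) 
(.lf (nat_lit 545138) (.g (nat_lit 2253) (.e (nat_lit 114698) (nat_lit 11) (.e (nat_lit 426326) (nat_lit 13) (.e (nat_lit 483380) (nat_lit 23) (.e (nat_lit 336336) (nat_lit 20) (.e (nat_lit 229120) (nat_lit 5) .nil))))) (.g (nat_lit 1) (.e (nat_lit 278415) (nat_lit 0) .nil) .nil))) 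
(.lf (nat_lit 545650) (.g (nat_lit 1692) (.e (nat_lit 114718) (nat_lit 23) (.e (nat_lit 98356) (nat_lit 26) (.e (nat_lit 426436) (nat_lit 18) (.e (nat_lit 98334) (nat_lit 18) (.e (nat_lit 164330) (nat_lit 230) .nil))))) (.g (nat_lit 0) (.e (nat_lit 280141) (nat_lit 0) .nil) .nil))))) (.nd (nat_lit 8) (.nd (nat_lit 9) 
(.lf (nat_lit 545010) (.g (nat_lit 3450) (.e (nat_lit 114698) (nat_lit 11) (.e (nat_lit 426188) (nat_lit 9) (.e (nat_lit 426555) (nat_lit 32) (.e (nat_lit 376857) (nat_lit 21) (.e (nat_lit 57854) (nat_lit 252) (.e (nat_lit 57388) (nat_lit 5) .nil)))))) (.g (nat_lit 1) (.e (nat_lit 278267) (nat_lit 0) .nil) .nil))) 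
(.lf (nat_lit 545522) (.g (nat_lit 2604) (.e (nat_lit 114716) (nat_lit 22) (.e (nat_lit 90172) (nat_lit 14) (.e (nat_lit 180244) (nat_lit 5) (.e (nat_lit 532504) (nat_lit 1) (.e (nat_lit 57690) (nat_lit 156) (.e (nat_lit 163872) (nat_lit 3) (.e (nat_lit 204838) (nat_lit 20) .nil))))))) (.g (nat_lit 1) (.e (nat_lit 279799) (nat_lit 0) .nil) .nil)))) (.nd (nat_lit 9) 
(.lf (nat_lit 545266) (.g (nat_lit 690) (.e (nat_lit 122624) (nat_lit 11) (.e (nat_lit 426566) (nat_lit 34) (.e (nat_lit 393259) (nat_lit 21) .nil))) (.g (nat_lit 0) (.e (nat_lit 278740) (nat_lit 0) .nil) .nil))) 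
(.lf (nat_lit 545778) (.g (nat_lit 2232) (.e (nat_lit 114718) (nat_lit 23) (.e (nat_lit 98387) (nat_lit 33) (.e (nat_lit 491570) (nat_lit 13) (.e (nat_lit 393238) (nat_lit 17) (.e (nat_lit 3562) (nat_lit 221) (.e (nat_lit 729117) (nat_lit 25) .nil)))))) (.g (nat_lit 1) (.e (nat_lit 280299) (nat_lit 0) .nil) .nil))))))))) 
(.nd (nat_lit 4) (.nd (nat_lit 5) (.nd (nat_lit 6) (.nd (nat_lit 7) (.nd (nat_lit 8) 
(.nd (nat_lit 9) 
(.lf (nat_lit 544778) (.g (nat_lit 1632) (.e (nat_lit 114696) (nat_lit 11) (.e (nat_lit 426234) (nat_lit 9) (.e (nat_lit 426554) (nat_lit 32) (.e (nat_lit 376857) (nat_lit 21) (.e (nat_lit 57848) (nat_lit 252) (.e (nat_lit 57388) (nat_lit 5) .nil)))))) (.g (nat_lit 1) (.e (nat_lit 277750) (nat_lit 0) .nil) .nil))) 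
(.lf (nat_lit 545290) (.g (nat_lit 1164) (.e (nat_lit 114707) (nat_lit 20) (.e (nat_lit 2175) (nat_lit 143) (.e (nat_lit 712745) (nat_lit 27) (.e (nat_lit 426163) (nat_lit 6) .nil)))) (.g (nat_lit 0) (.e (nat_lit 279171) (nat_lit 0) .nil) .nil)))) (.nd (nat_lit 9) 
(.lf (nat_lit 545034) (.g (nat_lit 3149) (.e (nat_lit 114698) (nat_lit 11) (.e (nat_lit 426197) (nat_lit 9) (.e (nat_lit 426555) (nat_lit 32) (.e (nat_lit 376857) (nat_lit 21) (.e (nat_lit 57847) (nat_lit 252) (.e (nat_lit 57389) (nat_lit 5) .nil)))))) (.g (nat_lit 1) (.e (nat_lit 278291) (nat_lit 0) .nil) .nil))) 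
(.lf (nat_lit 545546) (.g (nat_lit 1992) (.e (nat_lit 114716) (nat_lit 22) (.e (nat_lit 90174) (nat_lit 14) (.e (nat_lit 180243) (nat_lit 5) (.e (nat_lit 532503) (nat_lit 1) (.e (nat_lit 57689) (nat_lit 156) .nil))))) (.g (nat_lit 0) (.e (nat_lit 279926) (nat_lit 0) .nil) .nil))))) (.nd (nat_lit 8) (.nd (nat_lit 9) 
(.lf (nat_lit 544906) (.g (nat_lit 2280) (.e (nat_lit 114697) (nat_lit 11) (.e (nat_lit 426197) (nat_lit 9) (.e (nat_lit 426555) (nat_lit 32) (.e (nat_lit 376859) (nat_lit 21) (.e (nat_lit 57851) (nat_lit 252) (.e (nat_lit 57389) (nat_lit 5) .nil)))))) (.g (nat_lit 1) (.e (nat_lit 277947) (nat_lit 0) .nil) .nil))) 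
(.lf (nat_lit 545418) (.g (nat_lit 1756) (.e (nat_lit 114714) (nat_lit 22) (.e (nat_lit 90196) (nat_lit 18) (.e (nat_lit 2798) (nat_lit 180) (.e (nat_lit 303133) (nat_lit 9) (.e (nat_lit 433920) (nat_lit 34) (.e (nat_lit 401152) (nat_lit 3) .nil)))))) (.g (nat_lit 1) (.e (nat_lit 279496) (nat_lit 0) .nil) .nil)))) (.nd (nat_lit 9) 
(.lf (nat_lit 545162) (.g (nat_lit 1991) (.e (nat_lit 114698) (nat_lit 11) (.e (nat_lit 426334) (nat_lit 13) (.e (nat_lit 483380) (nat_lit 23) (.e (nat_lit 336336) (nat_lit 20) (.e (nat_lit 229120) (nat_lit 5) .nil))))) (.g (nat_lit 1) (.e (nat_lit 278471) (nat_lit 0) .nil) .nil))) 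
(.lf (nat_lit 545674) (.g (nat_lit 3247) (.e (nat_lit 114718) (nat_lit 23) (.e (nat_lit 98365) (nat_lit 26) (.e (nat_lit 426138) (nat_lit 3) (.e (nat_lit 204831) (nat_lit 18) (.e (nat_lit 57692) (nat_lit 156) (.e (nat_lit 163875) (nat_lit 3) (.e (nat_lit 204838) (nat_lit 20) .nil))))))) (.g (nat_lit 1) (.e (nat_lit 280172) (nat_lit 0) .nil) .nil)))))) 
(.nd (nat_lit 7) (.nd (nat_lit 8) (.nd (nat_lit 9) 
(.lf (nat_lit 544842) (.g (nat_lit 2785) (.e (nat_lit 114697) (nat_lit 11) (.e (nat_lit 426137) (nat_lit 3) (.e (nat_lit 204861) (nat_lit 26) (.e (nat_lit 336075) (nat_lit 9) (.e (nat_lit 336324) (nat_lit 18) (.e (nat_lit 204837) (nat_lit 20) .nil)))))) (.g (nat_lit 1) (.e (nat_lit 277865) (nat_lit 0) .nil) .nil))) 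
(.lf (nat_lit 545354) (.g (nat_lit 2969) (.e (nat_lit 114714) (nat_lit 22) (.e (nat_lit 90172) (nat_lit 14) (.e (nat_lit 180244) (nat_lit 5) (.e (nat_lit 532499) (nat_lit 1) (.e (nat_lit 57664) (nat_lit 152) (.e (nat_lit 7936) (nat_lit 163) (.e (nat_lit 163962) (nat_lit 25) (.e (nat_lit 532513) (nat_lit 3) .nil)))))))) (.g (nat_lit 1) (.e (nat_lit 279388) (nat_lit 0) .nil) .nil)))) 
(.nd (nat_lit 9) 
(.lf (nat_lit 545098) (.g (nat_lit 2445) (.e (nat_lit 114698) (nat_lit 11) (.e (nat_lit 426204) (nat_lit 9) (.e (nat_lit 426501) (nat_lit 27) (.e (nat_lit 336194) (nat_lit 12) (.e (nat_lit 385109) (nat_lit 51) (.e (nat_lit 802560) (nat_lit 5) .nil)))))) (.g (nat_lit 1) (.e (nat_lit 278359) (nat_lit 0) .nil) .nil))) 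
(.lf (nat_lit 545610) (.g (nat_lit 2984) (.e (nat_lit 114718) (nat_lit 23) (.e (nat_lit 98333) (nat_lit 18) (.e (nat_lit 164325) (nat_lit 230) (.e (nat_lit 163861) (nat_lit 1) (.e (nat_lit 164399) (nat_lit 256) (.e (nat_lit 57446) (nat_lit 19) (.e (nat_lit 401152) (nat_lit 3) .nil))))))) (.g (nat_lit 1) (.e (nat_lit 280070) (nat_lit 0) .nil) .nil))))) (.nd (nat_lit 8) (.nd (nat_lit 9) 
(.lf (nat_lit 544970) (.g (nat_lit 2259) (.e (nat_lit 114698) (nat_lit 11) (.e (nat_lit 426123) (nat_lit 2) (.e (nat_lit 196666) (nat_lit 13) (.e (nat_lit 65617) (nat_lit 10) .nil)))) (.g (nat_lit 0) (.e (nat_lit 278158) (nat_lit 0) .nil) .nil))) 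
(.lf (nat_lit 545482) (.g (nat_lit 2006) (.e (nat_lit 114715) (nat_lit 22) (.e (nat_lit 90174) (nat_lit 14) (.e (nat_lit 180243) (nat_lit 5) (.e (nat_lit 532504) (nat_lit 1) (.e (nat_lit 57692) (nat_lit 156) (.e (nat_lit 163874) (nat_lit 3) (.e (nat_lit 204836) (nat_lit 20) .nil))))))) (.g (nat_lit 1) (.e (nat_lit 279594) (nat_lit 0) .nil) .nil)))) (.nd (nat_lit 9) 
(.lf (nat_lit 545226) (.g (nat_lit 601) (.e (nat_lit 122624) (nat_lit 11) (.e (nat_lit 426139) (nat_lit 3) (.e (nat_lit 204861) (nat_lit 26) .nil))) (.g (nat_lit 0) (.e (nat_lit 278624) (nat_lit 0) .nil) .nil))) 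
(.lf (nat_lit 545738) (.g (nat_lit 4546) (.e (nat_lit 114718) (nat_lit 23) (.e (nat_lit 98384) (nat_lit 32) (.e (nat_lit 475177) (nat_lit 24) (.e (nat_lit 516115) (nat_lit 1) (.e (nat_lit 164327) (nat_lit 230) (.e (nat_lit 163875) (nat_lit 3) (.e (nat_lit 204838) (nat_lit 20) .nil))))))) (.g (nat_lit 1) (.e (nat_lit 280250) (nat_lit 0) .nil) .nil))))))) 
(.nd (nat_lit 6) (.nd (nat_lit 7) (.nd (nat_lit 8) (.nd (nat_lit 9) 
(.lf (nat_lit 544810) (.g (nat_lit 2333) (.e (nat_lit 114697) (nat_lit 11) (.e (nat_lit 426122) (nat_lit 2) (.e (nat_lit 196674) (nat_lit 15) (.e (nat_lit 81922) (nat_lit 0) (.e (nat_lit 3253) (nat_lit 197) (.e (nat_lit 532513) (nat_lit 3) .nil)))))) (.g (nat_lit 1) (.e (nat_lit 277808) (nat_lit 0) .nil) .nil))) 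
(.lf (nat_lit 545322) (.g (nat_lit 3085) (.e (nat_lit 114712) (nat_lit 21) (.e (nat_lit 57930) (nat_lit 282) (.e (nat_lit 163923) (nat_lit 15) (.e (nat_lit 450587) (nat_lit 10) (.e (nat_lit 573478) (nat_lit 12) (.e (nat_lit 57360) (nat_lit 0) (.e (nat_lit 5934) (nat_lit 322) (.e (nat_lit 57389) (nat_lit 5) .nil)))))))) (.g (nat_lit 1) (.e (nat_lit 279331) (nat_lit 0) .nil) .nil)))) 
(.nd (nat_lit 9) 
(.lf (nat_lit 545066) (.g (nat_lit 2777) (.e (nat_lit 114698) (nat_lit 11) (.e (nat_lit 426199) (nat_lit 9) (.e (nat_lit 426512) (nat_lit 27) (.e (nat_lit 336076) (nat_lit 9) (.e (nat_lit 336336) (nat_lit 20) (.e (nat_lit 229120) (nat_lit 5) .nil)))))) (.g (nat_lit 1) (.e (nat_lit 278325) (nat_lit 0) .nil) .nil))) 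
(.lf (nat_lit 545578) (.g (nat_lit 3307) (.e (nat_lit 114717) (nat_lit 23) (.e (nat_lit 98333) (nat_lit 18) (.e (nat_lit 164403) (nat_lit 256) (.e (nat_lit 57378) (nat_lit 3) (.e (nat_lit 98366) (nat_lit 27) .nil))))) (.g (nat_lit 0) (.e (nat_lit 280026) (nat_lit 0) .nil) .nil))))) (.nd (nat_lit 8) (.nd (nat_lit 9) 
(.lf (nat_lit 544938) (.g (nat_lit 3443) (.e (nat_lit 114697) (nat_lit 11) (.e (nat_lit 426198) (nat_lit 9) (.e (nat_lit 426555) (nat_lit 32) (.e (nat_lit 376860) (nat_lit 21) (.e (nat_lit 57853) (nat_lit 252) (.e (nat_lit 57388) (nat_lit 5) .nil)))))) (.g (nat_lit 1) (.e (nat_lit 277981) (nat_lit 0) .nil) .nil))) 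
(.lf (nat_lit 545450) (.g (nat_lit 3840) (.e (nat_lit 114715) (nat_lit 22) (.e (nat_lit 90170) (nat_lit 13) (.e (nat_lit 172067) (nat_lit 3) (.e (nat_lit 204829) (nat_lit 18) (.e (nat_lit 57691) (nat_lit 156) (.e (nat_lit 163875) (nat_lit 3) (.e (nat_lit 204836) (nat_lit 20) .nil))))))) (.g (nat_lit 1) (.e (nat_lit 279558) (nat_lit 0) .nil) .nil)))) (.nd (nat_lit 9) 
(.lf (nat_lit 545194) (.g (nat_lit 2664) (.e (nat_lit 114698) (nat_lit 11) (.e (nat_lit 426335) (nat_lit 13) (.e (nat_lit 483406) (nat_lit 26) (.e (nat_lit 385109) (nat_lit 51) (.e (nat_lit 802560) (nat_lit 5) .nil))))) (.g (nat_lit 1) (.e (nat_lit 278520) (nat_lit 0) .nil) .nil))) 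
(.lf (nat_lit 545706) (.g (nat_lit 948) (.e (nat_lit 114718) (nat_lit 23) (.e (nat_lit 98366) (nat_lit 27) (.e (nat_lit 434233) (nat_lit 23) (.e (nat_lit 532503) (nat_lit 1) .nil)))) (.g (nat_lit 0) (.e (nat_lit 280206) (nat_lit 0) .nil) .nil)))))) (.nd (nat_lit 7) (.nd (nat_lit 8) (.nd (nat_lit 9) 
(.lf (nat_lit 544874) (.g (nat_lit 3628) (.e (nat_lit 114697) (nat_lit 11) (.e (nat_lit 426188) (nat_lit 9) (.e (nat_lit 426555) (nat_lit 32) (.e (nat_lit 376857) (nat_lit 21) (.e (nat_lit 57854) (nat_lit 252) (.e (nat_lit 57389) (nat_lit 5) .nil)))))) (.g (nat_lit 1) (.e (nat_lit 277914) (nat_lit 0) .nil) .nil))) 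
(.lf (nat_lit 545386) (.g (nat_lit 2597) (.e (nat_lit 114714) (nat_lit 22) (.e (nat_lit 90174) (nat_lit 14) (.e (nat_lit 180243) (nat_lit 5) (.e (nat_lit 532499) (nat_lit 1) (.e (nat_lit 57652) (nat_lit 152) (.e (nat_lit 2433) (nat_lit 157) (.e (nat_lit 2685) (nat_lit 168) (.e (nat_lit 204837) (nat_lit 20) .nil)))))))) (.g (nat_lit 1) (.e (nat_lit 279447) (nat_lit 0) .nil) .nil)))) 
(.nd (nat_lit 9) 
(.lf (nat_lit 545130) (.g (nat_lit 2153) (.e (nat_lit 114698) (nat_lit 11) (.e (nat_lit 426325) (nat_lit 13) (.e (nat_lit 483404) (nat_lit 26) (.e (nat_lit 385107) (nat_lit 51) (.e (nat_lit 802560) (nat_lit 5) .nil))))) (.g (nat_lit 1) (.e (nat_lit 278407) (nat_lit 0) .nil) .nil))) 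
(.lf (nat_lit 545642) (.g (nat_lit 1461) (.e (nat_lit 114718) (nat_lit 23) (.e (nat_lit 98335) (nat_lit 18) (.e (nat_lit 164403) (nat_lit 256) (.e (nat_lit 57371) (nat_lit 2) .nil)))) (.g (nat_lit 0) (.e (nat_lit 280131) (nat_lit 0) .nil) .nil))))) (.nd (nat_lit 8) (.nd (nat_lit 9) 
(.lf (nat_lit 545002) (.g (nat_lit 1499) (.e (nat_lit 114698) (nat_lit 11) (.e (nat_lit 426139) (nat_lit 3) (.e (nat_lit 204869) (nat_lit 29) (.e (nat_lit 360471) (nat_lit 7) .nil)))) (.g (nat_lit 0) (.e (nat_lit 278251) (nat_lit 0) .nil) .nil))) 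
(.lf (nat_lit 545514) (.g (nat_lit 2994) (.e (nat_lit 114716) (nat_lit 22) (.e (nat_lit 90172) (nat_lit 14) (.e (nat_lit 180244) (nat_lit 5) (.e (nat_lit 532499) (nat_lit 1) (.e (nat_lit 57688) (nat_lit 156) (.e (nat_lit 163844) (nat_lit 0) (.e (nat_lit 3230) (nat_lit 197) (.e (nat_lit 532514) (nat_lit 3) .nil)))))))) (.g (nat_lit 1) (.e (nat_lit 279728) (nat_lit 0) .nil) .nil)))) 
(.nd (nat_lit 9) 
(.lf (nat_lit 545258) (.g (nat_lit 2449) (.e (nat_lit 122624) (nat_lit 11) (.e (nat_lit 426200) (nat_lit 9) (.e (nat_lit 426555) (nat_lit 32) (.e (nat_lit 376857) (nat_lit 21) (.e (nat_lit 57846) (nat_lit 252) .nil))))) (.g (nat_lit 0) (.e (nat_lit 278684) (nat_lit 0) .nil) .nil))) 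
(.lf (nat_lit 545770) (.g (nat_lit 3936) (.e (nat_lit 114718) (nat_lit 23) (.e (nat_lit 98384) (nat_lit 32) (.e (nat_lit 475179) (nat_lit 24) (.e (nat_lit 516120) (nat_lit 1) (.e (nat_lit 164330) (nat_lit 230) (.e (nat_lit 163872) (nat_lit 3) (.e (nat_lit 204837) (nat_lit 20) .nil))))))) (.g (nat_lit 1) (.e (nat_lit 280290) (nat_lit 0) .nil) .nil)))))))) 
(.nd (nat_lit 5) (.nd (nat_lit 6) (.nd (nat_lit 7) (.nd (nat_lit 8) (.nd (nat_lit 9) 
(.lf (nat_lit 544794) (.g (nat_lit 1979) (.e (nat_lit 114696) (nat_lit 11) (.e (nat_lit 426262) (nat_lit 9) (.e (nat_lit 426554) (nat_lit 32) (.e (nat_lit 376859) (nat_lit 21) (.e (nat_lit 57846) (nat_lit 252) (.e (nat_lit 57388) (nat_lit 5) .nil)))))) (.g (nat_lit 1) (.e (nat_lit 277766) (nat_lit 0) .nil) .nil))) 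
(.lf (nat_lit 545306) (.g (nat_lit 589) (.e (nat_lit 114711) (nat_lit 21) (.e (nat_lit 57847) (nat_lit 252) (.e (nat_lit 57442) (nat_lit 18) .nil))) (.g (nat_lit 0) (.e (nat_lit 279248) (nat_lit 0) .nil) .nil)))) (.nd (nat_lit 9) 
(.lf (nat_lit 545050) (.g (nat_lit 2190) (.e (nat_lit 114698) (nat_lit 11) (.e (nat_lit 426198) (nat_lit 9) (.e (nat_lit 426542) (nat_lit 29) (.e (nat_lit 352307) (nat_lit 21) (.e (nat_lit 57846) (nat_lit 252) (.e (nat_lit 57390) (nat_lit 5) .nil)))))) (.g (nat_lit 1) (.e (nat_lit 278309) (nat_lit 0) .nil) .nil))) 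
(.lf (nat_lit 545562) (.g (nat_lit 1807) (.e (nat_lit 114716) (nat_lit 22) (.e (nat_lit 90196) (nat_lit 18) (.e (nat_lit 2798) (nat_lit 180) (.e (nat_lit 303127) (nat_lit 9) (.e (nat_lit 426568) (nat_lit 34) (.e (nat_lit 401152) (nat_lit 3) .nil)))))) (.g (nat_lit 1) (.e (nat_lit 279997) (nat_lit 0) .nil) .nil))))) (.nd (nat_lit 8) (.nd (nat_lit 9) 
(.lf (nat_lit 544922) (.g (nat_lit 3522) (.e (nat_lit 114697) (nat_lit 11) (.e (nat_lit 426198) (nat_lit 9) (.e (nat_lit 426542) (nat_lit 29) (.e (nat_lit 352309) (nat_lit 21) (.e (nat_lit 57854) (nat_lit 252) (.e (nat_lit 57389) (nat_lit 5) .nil)))))) (.g (nat_lit 1) (.e (nat_lit 277964) (nat_lit 0) .nil) .nil))) 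
(.lf (nat_lit 545434) (.g (nat_lit 3807) (.e (nat_lit 114715) (nat_lit 22) (.e (nat_lit 90170) (nat_lit 13) (.e (nat_lit 172065) (nat_lit 3) (.e (nat_lit 204830) (nat_lit 18) (.e (nat_lit 57692) (nat_lit 156) (.e (nat_lit 163874) (nat_lit 3) (.e (nat_lit 204836) (nat_lit 20) .nil))))))) (.g (nat_lit 1) (.e (nat_lit 279536) (nat_lit 0) .nil) .nil)))) (.nd (nat_lit 9) 
(.lf (nat_lit 545178) (.g (nat_lit 1991) (.e (nat_lit 114698) (nat_lit 11) (.e (nat_lit 426335) (nat_lit 13) (.e (nat_lit 483382) (nat_lit 23) (.e (nat_lit 336336) (nat_lit 20) (.e (nat_lit 229120) (nat_lit 5) .nil))))) (.g (nat_lit 1) (.e (nat_lit 278497) (nat_lit 0) .nil) .nil))) 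
(.lf (nat_lit 545690) (.g (nat_lit 3286) (.e (nat_lit 114718) (nat_lit 23) (.e (nat_lit 98366) (nat_lit 27) (.e (nat_lit 434231) (nat_lit 23) (.e (nat_lit 532500) (nat_lit 1) (.e (nat_lit 57689) (nat_lit 156) (.e (nat_lit 163874) (nat_lit 3) (.e (nat_lit 204838) (nat_lit 20) .nil))))))) (.g (nat_lit 1) (.e (nat_lit 280190) (nat_lit 0) .nil) .nil)))))) 
(.nd (nat_lit 7) (.nd (nat_lit 8) (.nd (nat_lit 9) 
(.lf (nat_lit 544858) (.g (nat_lit 2327) (.e (nat_lit 114697) (nat_lit 11) (.e (nat_lit 426139) (nat_lit 3) (.e (nat_lit 204859) (nat_lit 26) (.e (nat_lit 336118) (nat_lit 9) (.e (nat_lit 336323) (nat_lit 18) (.e (nat_lit 204838) (nat_lit 20) .nil)))))) (.g (nat_lit 1) (.e (nat_lit 277887) (nat_lit 0) .nil) .nil))) 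
(.lf (nat_lit 545370) (.g (nat_lit 2243) (.e (nat_lit 114714) (nat_lit 22) (.e (nat_lit 90172) (nat_lit 14) (.e (nat_lit 180244) (nat_lit 5) (.e (nat_lit 532503) (nat_lit 1) (.e (nat_lit 57654) (nat_lit 152) .nil))))) (.g (nat_lit 0) (.e (nat_lit 279418) (nat_lit 0) .nil) .nil)))) (.nd (nat_lit 9) 
(.lf (nat_lit 545114) (.g (nat_lit 2993) (.e (nat_lit 114698) (nat_lit 11) (.e (nat_lit 426316) (nat_lit 12) (.e (nat_lit 475214) (nat_lit 42) (.e (nat_lit 720956) (nat_lit 25) (.e (nat_lit 114712) (nat_lit 21) (.e (nat_lit 57692) (nat_lit 156) (.e (nat_lit 171776) (nat_lit 66) .nil))))))) (.g (nat_lit 1) (.e (nat_lit 278375) (nat_lit 0) .nil) .nil))) 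
(.lf (nat_lit 545626) (.g (nat_lit 5122) (.e (nat_lit 114718) (nat_lit 23) (.e (nat_lit 98334) (nat_lit 18) (.e (nat_lit 164330) (nat_lit 230) (.e (nat_lit 163869) (nat_lit 2) (.e (nat_lit 196656) (nat_lit 11) (.e (nat_lit 16416) (nat_lit 3) (.e (nat_lit 204838) (nat_lit 20) .nil))))))) (.g (nat_lit 1) (.e (nat_lit 280104) (nat_lit 0) .nil) .nil))))) (.nd (nat_lit 8) (.nd (nat_lit 9) 
(.lf (nat_lit 544986) (.g (nat_lit 1070) (.e (nat_lit 114698) (nat_lit 11) (.e (nat_lit 426133) (nat_lit 3) (.e (nat_lit 204877) (nat_lit 31) .nil))) (.g (nat_lit 0) (.e (nat_lit 278207) (nat_lit 0) .nil) .nil))) 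
(.lf (nat_lit 545498) (.g (nat_lit 866) (.e (nat_lit 114716) (nat_lit 22) (.e (nat_lit 90170) (nat_lit 13) (.e (nat_lit 172065) (nat_lit 3) .nil))) (.g (nat_lit 0) (.e (nat_lit 279634) (nat_lit 0) .nil) .nil)))) (.nd (nat_lit 9) 
(.lf (nat_lit 545242) (.g (nat_lit 1767) (.e (nat_lit 122624) (nat_lit 11) (.e (nat_lit 426173) (nat_lit 7) (.e (nat_lit 409649) (nat_lit 18) (.e (nat_lit 303143) (nat_lit 12) (.e (nat_lit 475212) (nat_lit 42) .nil))))) (.g (nat_lit 0) (.e (nat_lit 278667) (nat_lit 0) .nil) .nil))) 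
(.lf (nat_lit 545754) (.g (nat_lit 3380) (.e (nat_lit 114718) (nat_lit 23) (.e (nat_lit 98384) (nat_lit 32) (.e (nat_lit 475179) (nat_lit 24) (.e (nat_lit 516115) (nat_lit 1) (.e (nat_lit 164332) (nat_lit 230) (.e (nat_lit 163874) (nat_lit 3) (.e (nat_lit 204837) (nat_lit 20) .nil))))))) (.g (nat_lit 1) (.e (nat_lit 280267) (nat_lit 0) .nil) .nil))))))) 
(.nd (nat_lit 6) (.nd (nat_lit 7) (.nd (nat_lit 8) (.nd (nat_lit 9) 
(.lf (nat_lit 544826) (.g (nat_lit 1172) (.e (nat_lit 114697) (nat_lit 11) (.e (nat_lit 426133) (nat_lit 3) (.e (nat_lit 204859) (nat_lit 26) (.e (nat_lit 336206) (nat_lit 12) .nil)))) (.g (nat_lit 0) (.e (nat_lit 277847) (nat_lit 0) .nil) .nil))) 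
(.lf (nat_lit 545338) (.g (nat_lit 2828) (.e (nat_lit 114714) (nat_lit 22) (.e (nat_lit 90172) (nat_lit 14) (.e (nat_lit 180243) (nat_lit 5) (.e (nat_lit 532499) (nat_lit 1) (.e (nat_lit 57657) (nat_lit 152) (.e (nat_lit 7936) (nat_lit 163) (.e (nat_lit 163962) (nat_lit 25) (.e (nat_lit 532513) (nat_lit 3) .nil)))))))) (.g (nat_lit 1) (.e (nat_lit 279363) (nat_lit 0) .nil) .nil)))) 
(.nd (nat_lit 9) 
(.lf (nat_lit 545082) (.g (nat_lit 2562) (.e (nat_lit 114698) (nat_lit 11) (.e (nat_lit 426200) (nat_lit 9) (.e (nat_lit 426502) (nat_lit 27) (.e (nat_lit 336076) (nat_lit 9) (.e (nat_lit 336336) (nat_lit 20) (.e (nat_lit 229120) (nat_lit 5) .nil)))))) (.g (nat_lit 1) (.e (nat_lit 278341) (nat_lit 0) .nil) .nil))) 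
(.lf (nat_lit 545594) (.g (nat_lit 921) (.e (nat_lit 114717) (nat_lit 23) (.e (nat_lit 98356) (nat_lit 26) (.e (nat_lit 426428) (nat_lit 17) .nil))) (.g (nat_lit 0) (.e (nat_lit 280049) (nat_lit 0) .nil) .nil))))) (.nd (nat_lit 8) (.nd (nat_lit 9) 
(.lf (nat_lit 544954) (.g (nat_lit 3197) (.e (nat_lit 114697) (nat_lit 11) (.e (nat_lit 426200) (nat_lit 9) (.e (nat_lit 426555) (nat_lit 32) (.e (nat_lit 376857) (nat_lit 21) (.e (nat_lit 57851) (nat_lit 252) (.e (nat_lit 57389) (nat_lit 5) .nil)))))) (.g (nat_lit 1) (.e (nat_lit 277997) (nat_lit 0) .nil) .nil))) 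
(.lf (nat_lit 545466) (.g (nat_lit 3078) (.e (nat_lit 114715) (nat_lit 22) (.e (nat_lit 90170) (nat_lit 13) (.e (nat_lit 172067) (nat_lit 3) (.e (nat_lit 204831) (nat_lit 18) (.e (nat_lit 57688) (nat_lit 156) (.e (nat_lit 163874) (nat_lit 3) (.e (nat_lit 204838) (nat_lit 20) .nil))))))) (.g (nat_lit 1) (.e (nat_lit 279577) (nat_lit 0) .nil) .nil)))) (.nd (nat_lit 9) 
(.lf (nat_lit 545210) (.g (nat_lit 1244) (.e (nat_lit 122624) (nat_lit 11) (.e (nat_lit 426125) (nat_lit 2) (.e (nat_lit 196680) (nat_lit 17) .nil))) (.g (nat_lit 0) (.e (nat_lit 278584) (nat_lit 0) .nil) .nil))) 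
(.lf (nat_lit 545722) (.g (nat_lit 3059) (.e (nat_lit 114718) (nat_lit 23) (.e (nat_lit 98367) (nat_lit 27) (.e (nat_lit 434231) (nat_lit 23) (.e (nat_lit 532500) (nat_lit 1) (.e (nat_lit 57690) (nat_lit 156) (.e (nat_lit 163875) (nat_lit 3) (.e (nat_lit 204836) (nat_lit 20) .nil))))))) (.g (nat_lit 1) (.e (nat_lit 280231) (nat_lit 0) .nil) .nil)))))) 
(.nd (nat_lit 7) (.nd (nat_lit 8) (.nd (nat_lit 9) 
(.lf (nat_lit 544890) (.g (nat_lit 2821) (.e (nat_lit 114697) (nat_lit 11) (.e (nat_lit 426190) (nat_lit 9) (.e (nat_lit 426555) (nat_lit 32) (.e (nat_lit 376859) (nat_lit 21) (.e (nat_lit 57846) (nat_lit 252) (.e (nat_lit 57390) (nat_lit 5) .nil)))))) (.g (nat_lit 1) (.e (nat_lit 277930) (nat_lit 0) .nil) .nil))) 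
(.lf (nat_lit 545402) (.g (nat_lit 2959) (.e (nat_lit 114714) (nat_lit 22) (.e (nat_lit 90174) (nat_lit 14) (.e (nat_lit 180243) (nat_lit 5) (.e (nat_lit 532503) (nat_lit 1) (.e (nat_lit 57655) (nat_lit 152) (.e (nat_lit 2615) (nat_lit 163) (.e (nat_lit 163962) (nat_lit 25) (.e (nat_lit 532513) (nat_lit 3) .nil)))))))) (.g (nat_lit 1) (.e (nat_lit 279468) (nat_lit 0) .nil) .nil)))) 
(.nd (nat_lit 9) 
(.lf (nat_lit 545146) (.g (nat_lit 1771) (.e (nat_lit 114698) (nat_lit 11) (.e (nat_lit 426327) (nat_lit 13) (.e (nat_lit 483383) (nat_lit 23) (.e (nat_lit 336000) (nat_lit 1) (.e (nat_lit 57846) (nat_lit 252) .nil))))) (.g (nat_lit 0) (.e (nat_lit 278427) (nat_lit 0) .nil) .nil))) 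
(.lf (nat_lit 545658) (.g (nat_lit 4418) (.e (nat_lit 114718) (nat_lit 23) (.e (nat_lit 98356) (nat_lit 26) (.e (nat_lit 426436) (nat_lit 18) (.e (nat_lit 98335) (nat_lit 18) (.e (nat_lit 164330) (nat_lit 230) (.e (nat_lit 163872) (nat_lit 3) (.e (nat_lit 204837) (nat_lit 20) .nil))))))) (.g (nat_lit 1) (.e (nat_lit 280153) (nat_lit 0) .nil) .nil))))) (.nd (nat_lit 8) (.nd (nat_lit 9) 
(.lf (nat_lit 545018) (.g (nat_lit 3417) (.e (nat_lit 114698) (nat_lit 11) (.e (nat_lit 426190) (nat_lit 9) (.e (nat_lit 426555) (nat_lit 32) (.e (nat_lit 376857) (nat_lit 21) (.e (nat_lit 57853) (nat_lit 252) (.e (nat_lit 57389) (nat_lit 5) .nil)))))) (.g (nat_lit 1) (.e (nat_lit 278275) (nat_lit 0) .nil) .nil))) 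
(.lf (nat_lit 545530) (.g (nat_lit 760) (.e (nat_lit 114716) (nat_lit 22) (.e (nat_lit 90174) (nat_lit 14) (.e (nat_lit 180243) (nat_lit 5) (.e (nat_lit 532499) (nat_lit 1) .nil)))) (.g (nat_lit 0) (.e (nat_lit 279831) (nat_lit 0) .nil) .nil)))) (.nd (nat_lit 9) 
(.lf (nat_lit 545274) (.g (nat_lit 2178) (.e (nat_lit 122624) (nat_lit 11) (.e (nat_lit 426568) (nat_lit 34) (.e (nat_lit 393260) (nat_lit 21) (.e (nat_lit 409617) (nat_lit 10) (.e (nat_lit 604) (nat_lit 45) .nil))))) (.g (nat_lit 0) (.e (nat_lit 278748) (nat_lit 0) .nil) .nil))) 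
(.lf (nat_lit 545786) (.g (nat_lit 4831) (.e (nat_lit 114719) (nat_lit 23) (.e (nat_lit 98333) (nat_lit 18) (.e (nat_lit 164327) (nat_lit 230) (.e (nat_lit 163868) (nat_lit 2) (.e (nat_lit 196656) (nat_lit 11) (.e (nat_lit 16416) (nat_lit 3) (.e (nat_lit 204838) (nat_lit 20) .nil))))))) (.g (nat_lit 1) (.e (nat_lit 280312) (nat_lit 0) .nil) .nil)))))))))) 
(.nd (nat_lit 3) (.nd (nat_lit 4) (.nd (nat_lit 5) (.nd (nat_lit 6) (.nd (nat_lit 7) 
(.nd (nat_lit 8) (.nd (nat_lit 9) 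
(.lf (nat_lit 544774) (.g (nat_lit 1672) (.e (nat_lit 114696) (nat_lit 11) (.e (nat_lit 426232) (nat_lit 9) (.e (nat_lit 426554) (nat_lit 32) (.e (nat_lit 376860) (nat_lit 21) (.e (nat_lit 57851) (nat_lit 252) (.e (nat_lit 57388) (nat_lit 5) .nil)))))) (.g (nat_lit 1) (.e (nat_lit 277746) (nat_lit 0) .nil) .nil))) 
(.lf (nat_lit 545286) (.g (nat_lit 2462) (.e (nat_lit 114707) (nat_lit 20) (.e (nat_lit 1800) (nat_lit 119) (.e (nat_lit 516117) (nat_lit 1) (.e (nat_lit 164398) (nat_lit 256) (.e (nat_lit 57372) (nat_lit 2) .nil))))) (.g (nat_lit 0) (.e (nat_lit 279167) (nat_lit 0) .nil) .nil)))) (.nd (nat_lit 9) 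
(.lf (nat_lit 545030) (.g (nat_lit 2427) (.e (nat_lit 114698) (nat_lit 11) (.e (nat_lit 426197) (nat_lit 9) (.e (nat_lit 426544) (nat_lit 30) (.e (nat_lit 360453) (nat_lit 0) (.e (nat_lit 5195) (nat_lit 294) (.e (nat_lit 57390) (nat_lit 5) .nil)))))) (.g (nat_lit 1) (.e (nat_lit 278287) (nat_lit 0) .nil) .nil))) 
(.lf (nat_lit 545542) (.g (nat_lit 3662) (.e (nat_lit 114716) (nat_lit 22) (.e (nat_lit 90174) (nat_lit 14) (.e (nat_lit 180243) (nat_lit 5) (.e (nat_lit 532501) (nat_lit 1) (.e (nat_lit 57692) (nat_lit 156) (.e (nat_lit 163874) (nat_lit 3) (.e (nat_lit 204836) (nat_lit 20) .nil))))))) (.g (nat_lit 1) (.e (nat_lit 279894) (nat_lit 0) .nil) .nil))))) (.nd (nat_lit 8) (.nd (nat_lit 9) 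
(.lf (nat_lit 544902) (.g (nat_lit 2874) (.e (nat_lit 114697) (nat_lit 11) (.e (nat_lit 426197) (nat_lit 9) (.e (nat_lit 426555) (nat_lit 32) (.e (nat_lit 376857) (nat_lit 21) (.e (nat_lit 57854) (nat_lit 252) (.e (nat_lit 57388) (nat_lit 5) .nil)))))) (.g (nat_lit 1) (.e (nat_lit 277943) (nat_lit 0) .nil) .nil))) 
(.lf (nat_lit 545414) (.g (nat_lit 1994) (.e (nat_lit 114714) (nat_lit 22) (.e (nat_lit 90196) (nat_lit 18) (.e (nat_lit 2798) (nat_lit 180) (.e (nat_lit 303126) (nat_lit 9) (.e (nat_lit 426566) (nat_lit 34) (.e (nat_lit 401152) (nat_lit 3) .nil)))))) (.g (nat_lit 1) (.e (nat_lit 279487) (nat_lit 0) .nil) .nil)))) (.nd (nat_lit 9) 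
(.lf (nat_lit 545158) (.g (nat_lit 1618) (.e (nat_lit 114698) (nat_lit 11) (.e (nat_lit 426333) (nat_lit 13) (.e (nat_lit 483384) (nat_lit 23) (.e (nat_lit 336336) (nat_lit 20) (.e (nat_lit 229120) (nat_lit 5) .nil))))) (.g (nat_lit 1) (.e (nat_lit 278460) (nat_lit 0) .nil) .nil))) 
(.lf (nat_lit 545670) (.g (nat_lit 3683) (.e (nat_lit 114718) (nat_lit 23) (.e (nat_lit 98365) (nat_lit 26) (.e (nat_lit 426133) (nat_lit 3) (.e (nat_lit 204829) (nat_lit 18) (.e (nat_lit 57688) (nat_lit 156) (.e (nat_lit 163873) (nat_lit 3) (.e (nat_lit 204837) (nat_lit 20) .nil))))))) (.g (nat_lit 1) (.e (nat_lit 280168) (nat_lit 0) .nil) .nil)))))) 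
(.nd (nat_lit 7) (.nd (nat_lit 8) (.nd (nat_lit 9) 
(.lf (nat_lit 544838) (.g (nat_lit 1635) (.e (nat_lit 114697) (nat_lit 11) (.e (nat_lit 426133) (nat_lit 3) (.e (nat_lit 204865) (nat_lit 28) (.e (nat_lit 352262) (nat_lit 0) .nil)))) (.g (nat_lit 0) (.e (nat_lit 277860) (nat_lit 0) .nil) .nil))) 
(.lf (nat_lit 545350) (.g (nat_lit 2899) (.e (nat_lit 114714) (nat_lit 22) (.e (nat_lit 90172) (nat_lit 14) (.e (nat_lit 180244) (nat_lit 5) (.e (nat_lit 532499) (nat_lit 1) (.e (nat_lit 57652) (nat_lit 152) (.e (nat_lit 2719) (nat_lit 171) (.e (nat_lit 229433) (nat_lit 25) (.e (nat_lit 532513) (nat_lit 3) .nil)))))))) (.g (nat_lit 1) (.e (nat_lit 279380) (nat_lit 0) .nil) .nil)))) 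
(.nd (nat_lit 9) 
(.lf (nat_lit 545094) (.g (nat_lit 4000) (.e (nat_lit 114698) (nat_lit 11) (.e (nat_lit 426200) (nat_lit 9) (.e (nat_lit 426555) (nat_lit 32) (.e (nat_lit 376860) (nat_lit 21) (.e (nat_lit 57854) (nat_lit 252) (.e (nat_lit 57388) (nat_lit 5) .nil)))))) (.g (nat_lit 1) (.e (nat_lit 278355) (nat_lit 0) .nil) .nil))) 
(.lf (nat_lit 545606) (.g (nat_lit 3275) (.e (nat_lit 114717) (nat_lit 23) (.e (nat_lit 98384) (nat_lit 32) (.e (nat_lit 475179) (nat_lit 24) (.e (nat_lit 516119) (nat_lit 1) (.e (nat_lit 164327) (nat_lit 230) .nil))))) (.g (nat_lit 0) (.e (nat_lit 280061) (nat_lit 0) .nil) .nil))))) (.nd (nat_lit 8) (.nd (nat_lit 9) 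
(.lf (nat_lit 544966) (.g (nat_lit 1337) (.e (nat_lit 114698) (nat_lit 11) (.e (nat_lit 426122) (nat_lit 2) (.e (nat_lit 196681) (nat_lit 17) (.e (nat_lit 131119) (nat_lit 12) .nil)))) (.g (nat_lit 0) (.e (nat_lit 278148) (nat_lit 0) .nil) .nil))) 
(.lf (nat_lit 545478) (.g (nat_lit 1237) (.e (nat_lit 114715) (nat_lit 22) (.e (nat_lit 90174) (nat_lit 14) (.e (nat_lit 180243) (nat_lit 5) (.e (nat_lit 532501) (nat_lit 1) .nil)))) (.g (nat_lit 0) (.e (nat_lit 279590) (nat_lit 0) .nil) .nil)))) (.nd (nat_lit 9) 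
(.lf (nat_lit 545222) (.g (nat_lit 2193) (.e (nat_lit 122624) (nat_lit 11) (.e (nat_lit 426133) (nat_lit 3) (.e (nat_lit 204861) (nat_lit 26) (.e (nat_lit 336076) (nat_lit 9) (.e (nat_lit 336326) (nat_lit 18) .nil))))) (.g (nat_lit 0) (.e (nat_lit 278615) (nat_lit 0) .nil) .nil))) 
(.lf (nat_lit 545734) (.g (nat_lit 3642) (.e (nat_lit 114718) (nat_lit 23) (.e (nat_lit 98367) (nat_lit 27) (.e (nat_lit 434232) (nat_lit 23) (.e (nat_lit 532504) (nat_lit 1) (.e (nat_lit 57692) (nat_lit 156) (.e (nat_lit 163874) (nat_lit 3) (.e (nat_lit 204836) (nat_lit 20) .nil))))))) (.g (nat_lit 1) (.e (nat_lit 280243) (nat_lit 0) .nil) .nil))))))) 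
(.nd (nat_lit 6) (.nd (nat_lit 7) (.nd (nat_lit 8) (.nd (nat_lit 9) 
(.lf (nat_lit 544806) (.g (nat_lit 1556) (.e (nat_lit 114697) (nat_lit 11) (.e (nat_lit 426116) (nat_lit 2) (.e (nat_lit 196672) (nat_lit 15) (.e (nat_lit 81922) (nat_lit 0) .nil)))) (.g (nat_lit 0) (.e (nat_lit 277792) (nat_lit 0) .nil) .nil))) 
(.lf (nat_lit 545318) (.g (nat_lit 4351) (.e (nat_lit 114712) (nat_lit 21) (.e (nat_lit 57930) (nat_lit 282) (.e (nat_lit 163923) (nat_lit 15) (.e (nat_lit 450587) (nat_lit 10) (.e (nat_lit 573475) (nat_lit 12) (.e (nat_lit 57359) (nat_lit 0) (.e (nat_lit 5934) (nat_lit 322) (.e (nat_lit 57389) (nat_lit 5) .nil)))))))) (.g (nat_lit 1) (.e (nat_lit 279327) (nat_lit 0) .nil) .nil)))) 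
(.nd (nat_lit 9) 
(.lf (nat_lit 545062) (.g (nat_lit 2814) (.e (nat_lit 114698) (nat_lit 11) (.e (nat_lit 426198) (nat_lit 9) (.e (nat_lit 426555) (nat_lit 32) (.e (nat_lit 376859) (nat_lit 21) (.e (nat_lit 57847) (nat_lit 252) (.e (nat_lit 57390) (nat_lit 5) .nil)))))) (.g (nat_lit 1) (.e (nat_lit 278321) (nat_lit 0) .nil) .nil))) 
(.lf (nat_lit 545574) (.g (nat_lit 2103) (.e (nat_lit 114717) (nat_lit 23) (.e (nat_lit 98333) (nat_lit 18) (.e (nat_lit 164400) (nat_lit 256) (.e (nat_lit 57375) (nat_lit 2) (.e (nat_lit 90172) (nat_lit 14) .nil))))) (.g (nat_lit 0) (.e (nat_lit 280021) (nat_lit 0) .nil) .nil))))) (.nd (nat_lit 8) (.nd (nat_lit 9) 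
(.lf (nat_lit 544934) (.g (nat_lit 2939) (.e (nat_lit 114697) (nat_lit 11) (.e (nat_lit 426198) (nat_lit 9) (.e (nat_lit 426555) (nat_lit 32) (.e (nat_lit 376859) (nat_lit 21) (.e (nat_lit 57849) (nat_lit 252) (.e (nat_lit 57390) (nat_lit 5) .nil)))))) (.g (nat_lit 1) (.e (nat_lit 277977) (nat_lit 0) .nil) .nil))) 
(.lf (nat_lit 545446) (.g (nat_lit 3419) (.e (nat_lit 114715) (nat_lit 22) (.e (nat_lit 90170) (nat_lit 13) (.e (nat_lit 172067) (nat_lit 3) (.e (nat_lit 204829) (nat_lit 18) (.e (nat_lit 57686) (nat_lit 156) (.e (nat_lit 163875) (nat_lit 3) (.e (nat_lit 204836) (nat_lit 20) .nil))))))) (.g (nat_lit 1) (.e (nat_lit 279554) (nat_lit 0) .nil) .nil)))) (.nd (nat_lit 9) 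
(.lf (nat_lit 545190) (.g (nat_lit 2243) (.e (nat_lit 114698) (nat_lit 11) (.e (nat_lit 426335) (nat_lit 13) (.e (nat_lit 483404) (nat_lit 26) (.e (nat_lit 385107) (nat_lit 51) (.e (nat_lit 802560) (nat_lit 5) .nil))))) (.g (nat_lit 1) (.e (nat_lit 278516) (nat_lit 0) .nil) .nil))) 
(.lf (nat_lit 545702) (.g (nat_lit 2885) (.e (nat_lit 114718) (nat_lit 23) (.e (nat_lit 98366) (nat_lit 27) (.e (nat_lit 434231) (nat_lit 23) (.e (nat_lit 532502) (nat_lit 1) (.e (nat_lit 57692) (nat_lit 156) (.e (nat_lit 163874) (nat_lit 3) (.e (nat_lit 204838) (nat_lit 20) .nil))))))) (.g (nat_lit 1) (.e (nat_lit 280202) (nat_lit 0) .nil) .nil)))))) 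
(.nd (nat_lit 7) (.nd (nat_lit 8) (.nd (nat_lit 9) 
(.lf (nat_lit 544870) (.g (nat_lit 1500) (.e (nat_lit 114697) (nat_lit 11) (.e (nat_lit 426188) (nat_lit 9) (.e (nat_lit 426555) (nat_lit 32) (.e (nat_lit 376856) (nat_lit 21) .nil)))) (.g (nat_lit 0) (.e (nat_lit 277910) (nat_lit 0) .nil) .nil))) 
(.lf (nat_lit 545382) (.g (nat_lit 2602) (.e (nat_lit 114714) (nat_lit 22) (.e (nat_lit 90172) (nat_lit 14) (.e (nat_lit 180244) (nat_lit 5) (.e (nat_lit 532504) (nat_lit 1) (.e (nat_lit 57663) (nat_lit 152) (.e (nat_lit 2717) (nat_lit 171) (.e (nat_lit 229434) (nat_lit 25) (.e (nat_lit 532513) (nat_lit 3) .nil)))))))) (.g (nat_lit 1) (.e (nat_lit 279441) (nat_lit 0) .nil) .nil)))) 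
(.nd (nat_lit 9) 
(.lf (nat_lit 545126) (.g (nat_lit 1299) (.e (nat_lit 114698) (nat_lit 11) (.e (nat_lit 426325) (nat_lit 13) (.e (nat_lit 483392) (nat_lit 23) .nil))) (.g (nat_lit 0) (.e (nat_lit 278392) (nat_lit 0) .nil) .nil))) 
(.lf (nat_lit 545638) (.g (nat_lit 2501) (.e (nat_lit 114718) (nat_lit 23) (.e (nat_lit 98335) (nat_lit 18) (.e (nat_lit 164327) (nat_lit 230) (.e (nat_lit 163871) (nat_lit 2) (.e (nat_lit 196654) (nat_lit 11) .nil))))) (.g (nat_lit 0) (.e (nat_lit 280122) (nat_lit 0) .nil) .nil))))) (.nd (nat_lit 8) (.nd (nat_lit 9) 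
(.lf (nat_lit 544998) (.g (nat_lit 1529) (.e (nat_lit 114698) (nat_lit 11) (.e (nat_lit 426139) (nat_lit 3) (.e (nat_lit 204868) (nat_lit 29) (.e (nat_lit 360456) (nat_lit 0) .nil)))) (.g (nat_lit 0) (.e (nat_lit 278238) (nat_lit 0) .nil) .nil))) 
(.lf (nat_lit 545510) (.g (nat_lit 2621) (.e (nat_lit 114716) (nat_lit 22) (.e (nat_lit 90172) (nat_lit 14) (.e (nat_lit 180244) (nat_lit 5) (.e (nat_lit 532499) (nat_lit 1) (.e (nat_lit 57653) (nat_lit 152) (.e (nat_lit 2399) (nat_lit 157) (.e (nat_lit 2685) (nat_lit 168) (.e (nat_lit 204837) (nat_lit 20) .nil)))))))) (.g (nat_lit 1) (.e (nat_lit 279701) (nat_lit 0) .nil) .nil)))) 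
(.nd (nat_lit 9) 
(.lf (nat_lit 545254) (.g (nat_lit 1188) (.e (nat_lit 122624) (nat_lit 11) (.e (nat_lit 426190) (nat_lit 9) (.e (nat_lit 426555) (nat_lit 32) (.e (nat_lit 376857) (nat_lit 21) .nil)))) (.g (nat_lit 0) (.e (nat_lit 278680) (nat_lit 0) .nil) .nil))) 
(.lf (nat_lit 545766) (.g (nat_lit 1475) (.e (nat_lit 114718) (nat_lit 23) (.e (nat_lit 98384) (nat_lit 32) (.e (nat_lit 475179) (nat_lit 24) (.e (nat_lit 516120) (nat_lit 1) .nil)))) (.g (nat_lit 0) (.e (nat_lit 280284) (nat_lit 0) .nil) .nil)))))))) (.nd (nat_lit 5) (.nd (nat_lit 6) (.nd (nat_lit 7) (.nd (nat_lit 8) (.nd (nat_lit 9) 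
(.lf (nat_lit 544790) (.g (nat_lit 2003) (.e (nat_lit 114696) (nat_lit 11) (.e (nat_lit 426262) (nat_lit 9) (.e (nat_lit 426541) (nat_lit 29) (.e (nat_lit 352309) (nat_lit 21) (.e (nat_lit 57849) (nat_lit 252) (.e (nat_lit 57390) (nat_lit 5) .nil)))))) (.g (nat_lit 1) (.e (nat_lit 277762) (nat_lit 0) .nil) .nil))) 
(.lf (nat_lit 545302) (.g (nat_lit 1631) (.e (nat_lit 114708) (nat_lit 20) (.e (nat_lit 2174) (nat_lit 143) (.e (nat_lit 712745) (nat_lit 27) (.e (nat_lit 426549) (nat_lit 31) .nil)))) (.g (nat_lit 0) (.e (nat_lit 279189) (nat_lit 0) .nil) .nil)))) (.nd (nat_lit 9) 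
(.lf (nat_lit 545046) (.g (nat_lit 1544) (.e (nat_lit 114698) (nat_lit 11) (.e (nat_lit 426197) (nat_lit 9) (.e (nat_lit 426556) (nat_lit 32) (.e (nat_lit 376859) (nat_lit 21) (.e (nat_lit 57851) (nat_lit 252) (.e (nat_lit 57388) (nat_lit 5) .nil)))))) (.g (nat_lit 1) (.e (nat_lit 278303) (nat_lit 0) .nil) .nil))) 
(.lf (nat_lit 545558) (.g (nat_lit 2212) (.e (nat_lit 114716) (nat_lit 22) (.e (nat_lit 90185) (nat_lit 17) (.e (nat_lit 237594) (nat_lit 3) (.e (nat_lit 204831) (nat_lit 18) (.e (nat_lit 57692) (nat_lit 156) (.e (nat_lit 163872) (nat_lit 3) (.e (nat_lit 204838) (nat_lit 20) .nil))))))) (.g (nat_lit 1) (.e (nat_lit 279990) (nat_lit 0) .nil) .nil))))) (.nd (nat_lit 8) (.nd (nat_lit 9) 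
(.lf (nat_lit 544918) (.g (nat_lit 1864) (.e (nat_lit 114697) (nat_lit 11) (.e (nat_lit 426198) (nat_lit 9) (.e (nat_lit 426542) (nat_lit 29) (.e (nat_lit 352309) (nat_lit 21) (.e (nat_lit 57845) (nat_lit 252) .nil))))) (.g (nat_lit 0) (.e (nat_lit 277960) (nat_lit 0) .nil) .nil))) 
(.lf (nat_lit 545430) (.g (nat_lit 2826) (.e (nat_lit 114715) (nat_lit 22) (.e (nat_lit 90170) (nat_lit 13) (.e (nat_lit 172065) (nat_lit 3) (.e (nat_lit 204830) (nat_lit 18) (.e (nat_lit 57690) (nat_lit 156) (.e (nat_lit 163874) (nat_lit 3) (.e (nat_lit 204836) (nat_lit 20) .nil))))))) (.g (nat_lit 1) (.e (nat_lit 279532) (nat_lit 0) .nil) .nil)))) (.nd (nat_lit 9) 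
(.lf (nat_lit 545174) (.g (nat_lit 2792) (.e (nat_lit 114698) (nat_lit 11) (.e (nat_lit 426335) (nat_lit 13) (.e (nat_lit 483379) (nat_lit 23) (.e (nat_lit 336336) (nat_lit 20) (.e (nat_lit 229120) (nat_lit 5) .nil))))) (.g (nat_lit 1) (.e (nat_lit 278493) (nat_lit 0) .nil) .nil))) 
(.lf (nat_lit 545686) (.g (nat_lit 2488) (.e (nat_lit 114718) (nat_lit 23) (.e (nat_lit 98366) (nat_lit 27) (.e (nat_lit 434231) (nat_lit 23) (.e (nat_lit 532499) (nat_lit 1) (.e (nat_lit 57691) (nat_lit 156) (.e (nat_lit 163875) (nat_lit 3) (.e (nat_lit 204836) (nat_lit 20) .nil))))))) (.g (nat_lit 1) (.e (nat_lit 280186) (nat_lit 0) .nil) .nil)))))) 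
(.nd (nat_lit 7) (.nd (nat_lit 8) (.nd (nat_lit 9) 
(.lf (nat_lit 544854) (.g (nat_lit 1609) (.e (nat_lit 114697) (nat_lit 11) (.e (nat_lit 426138) (nat_lit 3) (.e (nat_lit 204858) (nat_lit 26) (.e (nat_lit 336198) (nat_lit 12) (.e (nat_lit 385068) (nat_lit 26) (.e (nat_lit 532515) (nat_lit 3) .nil)))))) (.g (nat_lit 1) (.e (nat_lit 277881) (nat_lit 0) .nil) .nil))) 
(.lf (nat_lit 545366) (.g (nat_lit 2397) (.e (nat_lit 114714) (nat_lit 22) (.e (nat_lit 90172) (nat_lit 14) (.e (nat_lit 180244) (nat_lit 5) (.e (nat_lit 532501) (nat_lit 1) (.e (nat_lit 57674) (nat_lit 152) (.e (nat_lit 7936) (nat_lit 163) (.e (nat_lit 163962) (nat_lit 25) (.e (nat_lit 532513) (nat_lit 3) .nil)))))))) (.g (nat_lit 1) (.e (nat_lit 279410) (nat_lit 0) .nil) .nil)))) 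
(.nd (nat_lit 9) 
(.lf (nat_lit 545110) (.g (nat_lit 1891) (.e (nat_lit 114698) (nat_lit 11) (.e (nat_lit 426213) (nat_lit 9) (.e (nat_lit 426513) (nat_lit 27) (.e (nat_lit 336075) (nat_lit 9) (.e (nat_lit 336336) (nat_lit 20) (.e (nat_lit 229120) (nat_lit 5) .nil)))))) (.g (nat_lit 1) (.e (nat_lit 278371) (nat_lit 0) .nil) .nil))) 
(.lf (nat_lit 545622) (.g (nat_lit 4641) (.e (nat_lit 114718) (nat_lit 23) (.e (nat_lit 98333) (nat_lit 18) (.e (nat_lit 164403) (nat_lit 256) (.e (nat_lit 57378) (nat_lit 3) (.e (nat_lit 98367) (nat_lit 27) (.e (nat_lit 434231) (nat_lit 23) (.e (nat_lit 532514) (nat_lit 3) .nil))))))) (.g (nat_lit 1) (.e (nat_lit 280093) (nat_lit 0) .nil) .nil))))) (.nd (nat_lit 8) (.nd (nat_lit 9) 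
(.lf (nat_lit 544982) (.g (nat_lit 1037) (.e (nat_lit 114698) (nat_lit 11) (.e (nat_lit 426133) (nat_lit 3) (.e (nat_lit 204859) (nat_lit 26) (.e (nat_lit 336206) (nat_lit 12) .nil)))) (.g (nat_lit 0) (.e (nat_lit 278200) (nat_lit 0) .nil) .nil))) 
(.lf (nat_lit 545494) (.g (nat_lit 1109) (.e (nat_lit 114716) (nat_lit 22) (.e (nat_lit 90168) (nat_lit 13) (.e (nat_lit 172067) (nat_lit 3) (.e (nat_lit 204830) (nat_lit 18) .nil)))) (.g (nat_lit 0) (.e (nat_lit 279628) (nat_lit 0) .nil) .nil)))) (.nd (nat_lit 9) 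
(.lf (nat_lit 545238) (.g (nat_lit 1844) (.e (nat_lit 122624) (nat_lit 11) (.e (nat_lit 426173) (nat_lit 7) (.e (nat_lit 409646) (nat_lit 18) (.e (nat_lit 303143) (nat_lit 12) (.e (nat_lit 475212) (nat_lit 42) .nil))))) (.g (nat_lit 0) (.e (nat_lit 278661) (nat_lit 0) .nil) .nil))) 
(.lf (nat_lit 545750) (.g (nat_lit 5146) (.e (nat_lit 114718) (nat_lit 23) (.e (nat_lit 98384) (nat_lit 32) (.e (nat_lit 475179) (nat_lit 24) (.e (nat_lit 516115) (nat_lit 1) (.e (nat_lit 164325) (nat_lit 230) (.e (nat_lit 163875) (nat_lit 3) (.e (nat_lit 204837) (nat_lit 20) .nil))))))) (.g (nat_lit 1) (.e (nat_lit 280263) (nat_lit 0) .nil) .nil))))))) 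
(.nd (nat_lit 6) (.nd (nat_lit 7) (.nd (nat_lit 8) (.nd (nat_lit 9) 
(.lf (nat_lit 544822) (.g (nat_lit 3261) (.e (nat_lit 114697) (nat_lit 11) (.e (nat_lit 426124) (nat_lit 2) (.e (nat_lit 196681) (nat_lit 17) (.e (nat_lit 131109) (nat_lit 9) (.e (nat_lit 336324) (nat_lit 18) (.e (nat_lit 204837) (nat_lit 20) .nil)))))) (.g (nat_lit 1) (.e (nat_lit 277840) (nat_lit 0) .nil) .nil))) 
(.lf (nat_lit 545334) (.g (nat_lit 1036) (.e (nat_lit 114714) (nat_lit 22) (.e (nat_lit 90170) (nat_lit 13) (.e (nat_lit 172071) (nat_lit 5) .nil))) (.g (nat_lit 0) (.e (nat_lit 279356) (nat_lit 0) .nil) .nil)))) (.nd (nat_lit 9) 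
(.lf (nat_lit 545078) (.g (nat_lit 2452) (.e (nat_lit 114698) (nat_lit 11) (.e (nat_lit 426200) (nat_lit 9) (.e (nat_lit 426481) (nat_lit 27) (.e (nat_lit 336083) (nat_lit 9) (.e (nat_lit 336336) (nat_lit 20) (.e (nat_lit 229120) (nat_lit 5) .nil)))))) (.g (nat_lit 1) (.e (nat_lit 278337) (nat_lit 0) .nil) .nil))) 
(.lf (nat_lit 545590) (.g (nat_lit 2370) (.e (nat_lit 114717) (nat_lit 23) (.e (nat_lit 98334) (nat_lit 18) (.e (nat_lit 164403) (nat_lit 256) (.e (nat_lit 57371) (nat_lit 2) (.e (nat_lit 90172) (nat_lit 14) .nil))))) (.g (nat_lit 0) (.e (nat_lit 280045) (nat_lit 0) .nil) .nil))))) (.nd (nat_lit 8) (.nd (nat_lit 9) 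
(.lf (nat_lit 544950) (.g (nat_lit 3656) (.e (nat_lit 114697) (nat_lit 11) (.e (nat_lit 426199) (nat_lit 9) (.e (nat_lit 426555) (nat_lit 32) (.e (nat_lit 376860) (nat_lit 21) (.e (nat_lit 57854) (nat_lit 252) (.e (nat_lit 57389) (nat_lit 5) .nil)))))) (.g (nat_lit 1) (.e (nat_lit 277993) (nat_lit 0) .nil) .nil))) 
(.lf (nat_lit 545462) (.g (nat_lit 4671) (.e (nat_lit 114715) (nat_lit 22) (.e (nat_lit 90170) (nat_lit 13) (.e (nat_lit 172067) (nat_lit 3) (.e (nat_lit 204830) (nat_lit 18) (.e (nat_lit 57691) (nat_lit 156) (.e (nat_lit 163875) (nat_lit 3) (.e (nat_lit 204838) (nat_lit 20) .nil))))))) (.g (nat_lit 1) (.e (nat_lit 279572) (nat_lit 0) .nil) .nil)))) (.nd (nat_lit 9) 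
(.lf (nat_lit 545206) (.g (nat_lit 1335) (.e (nat_lit 122624) (nat_lit 11) (.e (nat_lit 426125) (nat_lit 2) (.e (nat_lit 196672) (nat_lit 15) .nil))) (.g (nat_lit 0) (.e (nat_lit 278579) (nat_lit 0) .nil) .nil))) 
(.lf (nat_lit 545718) (.g (nat_lit 3376) (.e (nat_lit 114718) (nat_lit 23) (.e (nat_lit 98367) (nat_lit 27) (.e (nat_lit 434231) (nat_lit 23) (.e (nat_lit 532499) (nat_lit 1) (.e (nat_lit 57691) (nat_lit 156) (.e (nat_lit 163875) (nat_lit 3) (.e (nat_lit 204836) (nat_lit 20) .nil))))))) (.g (nat_lit 1) (.e (nat_lit 280224) (nat_lit 0) .nil) .nil)))))) 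
(.nd (nat_lit 7) (.nd (nat_lit 8) (.nd (nat_lit 9) 
(.lf (nat_lit 544886) (.g (nat_lit 3186) (.e (nat_lit 114697) (nat_lit 11) (.e (nat_lit 426190) (nat_lit 9) (.e (nat_lit 426555) (nat_lit 32) (.e (nat_lit 376857) (nat_lit 21) (.e (nat_lit 57849) (nat_lit 252) (.e (nat_lit 57390) (nat_lit 5) .nil)))))) (.g (nat_lit 1) (.e (nat_lit 277926) (nat_lit 0) .nil) .nil))) 
(.lf (nat_lit 545398) (.g (nat_lit 2649) (.e (nat_lit 114714) (nat_lit 22) (.e (nat_lit 90174) (nat_lit 14) (.e (nat_lit 180243) (nat_lit 5) (.e (nat_lit 532501) (nat_lit 1) (.e (nat_lit 57690) (nat_lit 156) (.e (nat_lit 163874) (nat_lit 3) (.e (nat_lit 204836) (nat_lit 20) .nil))))))) (.g (nat_lit 1) (.e (nat_lit 279464) (nat_lit 0) .nil) .nil)))) (.nd (nat_lit 9) 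
(.lf (nat_lit 545142) (.g (nat_lit 1589) (.e (nat_lit 114698) (nat_lit 11) (.e (nat_lit 426326) (nat_lit 13) (.e (nat_lit 483404) (nat_lit 26) (.e (nat_lit 385107) (nat_lit 51) (.e (nat_lit 802560) (nat_lit 5) .nil))))) (.g (nat_lit 1) (.e (nat_lit 278423) (nat_lit 0) .nil) .nil))) 
(.lf (nat_lit 545654) (.g (nat_lit 2856) (.e (nat_lit 114718) (nat_lit 23) (.e (nat_lit 98356) (nat_lit 26) (.e (nat_lit 426436) (nat_lit 18) (.e (nat_lit 98335) (nat_lit 18) (.e (nat_lit 164305) (nat_lit 226) .nil))))) (.g (nat_lit 0) (.e (nat_lit 280145) (nat_lit 0) .nil) .nil))))) (.nd (nat_lit 8) (.nd (nat_lit 9) 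
(.lf (nat_lit 545014) (.g (nat_lit 1630) (.e (nat_lit 114698) (nat_lit 11) (.e (nat_lit 426190) (nat_lit 9) (.e (nat_lit 426544) (nat_lit 30) (.e (nat_lit 360453) (nat_lit 0) (.e (nat_lit 5195) (nat_lit 294) .nil))))) (.g (nat_lit 0) (.e (nat_lit 278271) (nat_lit 0) .nil) .nil))) 
(.lf (nat_lit 545526) (.g (nat_lit 1038) (.e (nat_lit 114716) (nat_lit 22) (.e (nat_lit 90173) (nat_lit 14) (.e (nat_lit 180244) (nat_lit 5) (.e (nat_lit 532503) (nat_lit 1) .nil)))) (.g (nat_lit 0) (.e (nat_lit 279818) (nat_lit 0) .nil) .nil)))) (.nd (nat_lit 9) 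
(.lf (nat_lit 545270) (.g (nat_lit 735) (.e (nat_lit 122624) (nat_lit 11) (.e (nat_lit 426566) (nat_lit 34) (.e (nat_lit 393263) (nat_lit 22) .nil))) (.g (nat_lit 0) (.e (nat_lit 278744) (nat_lit 0) .nil) .nil))) 
(.lf (nat_lit 545782) (.g (nat_lit 3811) (.e (nat_lit 114719) (nat_lit 23) (.e (nat_lit 98332) (nat_lit 18) (.e (nat_lit 164403) (nat_lit 256) (.e (nat_lit 57378) (nat_lit 3) (.e (nat_lit 98367) (nat_lit 27) (.e (nat_lit 434231) (nat_lit 23) (.e (nat_lit 532514) (nat_lit 3) .nil))))))) (.g (nat_lit 1) (.e (nat_lit 280305) (nat_lit 0) .nil) .nil))))))))) 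
(.nd (nat_lit 4) (.nd (nat_lit 5) (.nd (nat_lit 6) (.nd (nat_lit 7) (.nd (nat_lit 8) 
(.nd (nat_lit 9) 
(.lf (nat_lit 544782) (.g (nat_lit 1901) (.e (nat_lit 114696) (nat_lit 11) (.e (nat_lit 426234) (nat_lit 9) (.e (nat_lit 426554) (nat_lit 32) (.e (nat_lit 376857) (nat_lit 21) (.e (nat_lit 57854) (nat_lit 252) (.e (nat_lit 57388) (nat_lit 5) .nil)))))) (.g (nat_lit 1) (.e (nat_lit 277754) (nat_lit 0) .nil) .nil))) 
(.lf (nat_lit 545294) (.g (nat_lit 1777) (.e (nat_lit 114708) (nat_lit 20) (.e (nat_lit 1800) (nat_lit 119) (.e (nat_lit 516117) (nat_lit 1) (.e (nat_lit 164399) (nat_lit 256) (.e (nat_lit 57378) (nat_lit 3) .nil))))) (.g (nat_lit 0) (.e (nat_lit 279177) (nat_lit 0) .nil) .nil)))) (.nd (nat_lit 9) 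
(.lf (nat_lit 545038) (.g (nat_lit 3186) (.e (nat_lit 114698) (nat_lit 11) (.e (nat_lit 426197) (nat_lit 9) (.e (nat_lit 426555) (nat_lit 32) (.e (nat_lit 376857) (nat_lit 21) (.e (nat_lit 57849) (nat_lit 252) (.e (nat_lit 57390) (nat_lit 5) .nil)))))) (.g (nat_lit 1) (.e (nat_lit 278295) (nat_lit 0) .nil) .nil))) 
(.lf (nat_lit 545550) (.g (nat_lit 2298) (.e (nat_lit 114716) (nat_lit 22) (.e (nat_lit 90174) (nat_lit 14) (.e (nat_lit 180243) (nat_lit 5) (.e (nat_lit 532504) (nat_lit 1) (.e (nat_lit 57685) (nat_lit 156) (.e (nat_lit 163872) (nat_lit 3) (.e (nat_lit 204838) (nat_lit 20) .nil))))))) (.g (nat_lit 1) (.e (nat_lit 279946) (nat_lit 0) .nil) .nil))))) (.nd (nat_lit 8) (.nd (nat_lit 9) 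
(.lf (nat_lit 544910) (.g (nat_lit 2886) (.e (nat_lit 114697) (nat_lit 11) (.e (nat_lit 426197) (nat_lit 9) (.e (nat_lit 426555) (nat_lit 32) (.e (nat_lit 376860) (nat_lit 21) (.e (nat_lit 57854) (nat_lit 252) (.e (nat_lit 57388) (nat_lit 5) .nil)))))) (.g (nat_lit 1) (.e (nat_lit 277951) (nat_lit 0) .nil) .nil))) 
(.lf (nat_lit 545422) (.g (nat_lit 4176) (.e (nat_lit 114715) (nat_lit 22) (.e (nat_lit 90170) (nat_lit 13) (.e (nat_lit 172065) (nat_lit 3) (.e (nat_lit 204829) (nat_lit 18) (.e (nat_lit 57688) (nat_lit 156) (.e (nat_lit 163874) (nat_lit 3) (.e (nat_lit 204836) (nat_lit 20) .nil))))))) (.g (nat_lit 1) (.e (nat_lit 279520) (nat_lit 0) .nil) .nil)))) (.nd (nat_lit 9) 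
(.lf (nat_lit 545166) (.g (nat_lit 1973) (.e (nat_lit 114698) (nat_lit 11) (.e (nat_lit 426334) (nat_lit 13) (.e (nat_lit 483403) (nat_lit 26) (.e (nat_lit 385109) (nat_lit 51) (.e (nat_lit 802560) (nat_lit 5) .nil))))) (.g (nat_lit 1) (.e (nat_lit 278485) (nat_lit 0) .nil) .nil))) 
(.lf (nat_lit 545678) (.g (nat_lit 3909) (.e (nat_lit 114718) (nat_lit 23) (.e (nat_lit 98365) (nat_lit 26) (.e (nat_lit 426139) (nat_lit 3) (.e (nat_lit 204829) (nat_lit 18) (.e (nat_lit 57692) (nat_lit 156) (.e (nat_lit 163875) (nat_lit 3) (.e (nat_lit 204837) (nat_lit 20) .nil))))))) (.g (nat_lit 1) (.e (nat_lit 280176) (nat_lit 0) .nil) .nil)))))) 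
(.nd (nat_lit 7) (.nd (nat_lit 8) (.nd (nat_lit 9) 
(.lf (nat_lit 544846) (.g (nat_lit 3145) (.e (nat_lit 114697) (nat_lit 11) (.e (nat_lit 426137) (nat_lit 3) (.e (nat_lit 204861) (nat_lit 26) (.e (nat_lit 336076) (nat_lit 9) (.e (nat_lit 336324) (nat_lit 18) (.e (nat_lit 204838) (nat_lit 20) .nil)))))) (.g (nat_lit 1) (.e (nat_lit 277869) (nat_lit 0) .nil) .nil))) 
(.lf (nat_lit 545358) (.g (nat_lit 2682) (.e (nat_lit 114714) (nat_lit 22) (.e (nat_lit 90172) (nat_lit 14) (.e (nat_lit 180244) (nat_lit 5) (.e (nat_lit 532499) (nat_lit 1) (.e (nat_lit 57687) (nat_lit 156) (.e (nat_lit 163844) (nat_lit 0) (.e (nat_lit 3230) (nat_lit 197) (.e (nat_lit 532513) (nat_lit 3) .nil)))))))) (.g (nat_lit 1) (.e (nat_lit 279396) (nat_lit 0) .nil) .nil)))) 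
(.nd (nat_lit 9) 
(.lf (nat_lit 545102) (.g (nat_lit 1991) (.e (nat_lit 114698) (nat_lit 11) (.e (nat_lit 426204) (nat_lit 9) (.e (nat_lit 426513) (nat_lit 27) (.e (nat_lit 336075) (nat_lit 9) (.e (nat_lit 336336) (nat_lit 20) (.e (nat_lit 229120) (nat_lit 5) .nil)))))) (.g (nat_lit 1) (.e (nat_lit 278363) (nat_lit 0) .nil) .nil))) 
(.lf (nat_lit 545614) (.g (nat_lit 4881) (.e (nat_lit 114718) (nat_lit 23) (.e (nat_lit 98333) (nat_lit 18) (.e (nat_lit 164325) (nat_lit 230) (.e (nat_lit 163868) (nat_lit 2) (.e (nat_lit 196656) (nat_lit 11) (.e (nat_lit 16416) (nat_lit 3) (.e (nat_lit 204837) (nat_lit 20) .nil))))))) (.g (nat_lit 1) (.e (nat_lit 280077) (nat_lit 0) .nil) .nil))))) (.nd (nat_lit 8) (.nd (nat_lit 9) 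
(.lf (nat_lit 544974) (.g (nat_lit 1197) (.e (nat_lit 114698) (nat_lit 11) (.e (nat_lit 426123) (nat_lit 2) (.e (nat_lit 196672) (nat_lit 15) (.e (nat_lit 89856) (nat_lit 3) .nil)))) (.g (nat_lit 0) (.e (nat_lit 278164) (nat_lit 0) .nil) .nil))) 
(.lf (nat_lit 545486) (.g (nat_lit 4263) (.e (nat_lit 114716) (nat_lit 22) (.e (nat_lit 90157) (nat_lit 11) (.e (nat_lit 24665) (nat_lit 14) (.e (nat_lit 401414) (nat_lit 0) (.e (nat_lit 3205) (nat_lit 194) (.e (nat_lit 507946) (nat_lit 18) (.e (nat_lit 311040) (nat_lit 20) .nil))))))) (.g (nat_lit 1) (.e (nat_lit 279619) (nat_lit 0) .nil) .nil)))) (.nd (nat_lit 9) 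
(.lf (nat_lit 545230) (.g (nat_lit 1690) (.e (nat_lit 122624) (nat_lit 11) (.e (nat_lit 426139) (nat_lit 3) (.e (nat_lit 204861) (nat_lit 26) (.e (nat_lit 336075) (nat_lit 9) (.e (nat_lit 336326) (nat_lit 18) .nil))))) (.g (nat_lit 0) (.e (nat_lit 278628) (nat_lit 0) .nil) .nil))) 
(.lf (nat_lit 545742) (.g (nat_lit 4304) (.e (nat_lit 114718) (nat_lit 23) (.e (nat_lit 98384) (nat_lit 32) (.e (nat_lit 475177) (nat_lit 24) (.e (nat_lit 516118) (nat_lit 1) (.e (nat_lit 164327) (nat_lit 230) (.e (nat_lit 163875) (nat_lit 3) (.e (nat_lit 204837) (nat_lit 20) .nil))))))) (.g (nat_lit 1) (.e (nat_lit 280255) (nat_lit 0) .nil) .nil))))))) 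
(.nd (nat_lit 6) (.nd (nat_lit 7) (.nd (nat_lit 8) (.nd (nat_lit 9) 
(.lf (nat_lit 544814) (.g (nat_lit 2180) (.e (nat_lit 114697) (nat_lit 11) (.e (nat_lit 426122) (nat_lit 2) (.e (nat_lit 196681) (nat_lit 17) (.e (nat_lit 131123) (nat_lit 12) (.e (nat_lit 385068) (nat_lit 26) (.e (nat_lit 532515) (nat_lit 3) .nil)))))) (.g (nat_lit 1) (.e (nat_lit 277814) (nat_lit 0) .nil) .nil))) 
(.lf (nat_lit 545326) (.g (nat_lit 4341) (.e (nat_lit 114714) (nat_lit 22) (.e (nat_lit 90159) (nat_lit 11) (.e (nat_lit 24665) (nat_lit 14) (.e (nat_lit 401414) (nat_lit 0) (.e (nat_lit 3205) (nat_lit 194) (.e (nat_lit 507946) (nat_lit 18) (.e (nat_lit 311040) (nat_lit 20) .nil))))))) (.g (nat_lit 1) (.e (nat_lit 279348) (nat_lit 0) .nil) .nil)))) (.nd (nat_lit 9) 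
(.lf (nat_lit 545070) (.g (nat_lit 1838) (.e (nat_lit 114698) (nat_lit 11) (.e (nat_lit 426199) (nat_lit 9) (.e (nat_lit 426555) (nat_lit 32) (.e (nat_lit 376858) (nat_lit 21) (.e (nat_lit 57854) (nat_lit 252) .nil))))) (.g (nat_lit 0) (.e (nat_lit 278329) (nat_lit 0) .nil) .nil))) 
(.lf (nat_lit 545582) (.g (nat_lit 662) (.e (nat_lit 114717) (nat_lit 23) (.e (nat_lit 98334) (nat_lit 18) (.e (nat_lit 164398) (nat_lit 256) .nil))) (.g (nat_lit 0) (.e (nat_lit 280037) (nat_lit 0) .nil) .nil))))) (.nd (nat_lit 8) (.nd (nat_lit 9) 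
(.lf (nat_lit 544942) (.g (nat_lit 3296) (.e (nat_lit 114697) (nat_lit 11) (.e (nat_lit 426199) (nat_lit 9) (.e (nat_lit 426555) (nat_lit 32) (.e (nat_lit 376857) (nat_lit 21) (.e (nat_lit 57849) (nat_lit 252) (.e (nat_lit 57388) (nat_lit 5) .nil)))))) (.g (nat_lit 1) (.e (nat_lit 277985) (nat_lit 0) .nil) .nil))) 
(.lf (nat_lit 545454) (.g (nat_lit 1929) (.e (nat_lit 114715) (nat_lit 22) (.e (nat_lit 90170) (nat_lit 13) (.e (nat_lit 172067) (nat_lit 3) (.e (nat_lit 204830) (nat_lit 18) (.e (nat_lit 57663) (nat_lit 152) .nil))))) (.g (nat_lit 0) (.e (nat_lit 279562) (nat_lit 0) .nil) .nil)))) (.nd (nat_lit 9) 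
(.lf (nat_lit 545198) (.g (nat_lit 2656) (.e (nat_lit 122624) (nat_lit 11) (.e (nat_lit 426123) (nat_lit 2) (.e (nat_lit 196666) (nat_lit 13) (.e (nat_lit 65622) (nat_lit 12) (.e (nat_lit 385066) (nat_lit 26) .nil))))) (.g (nat_lit 0) (.e (nat_lit 278543) (nat_lit 0) .nil) .nil))) 
(.lf (nat_lit 545710) (.g (nat_lit 3083) (.e (nat_lit 114718) (nat_lit 23) (.e (nat_lit 98367) (nat_lit 27) (.e (nat_lit 434231) (nat_lit 23) (.e (nat_lit 532483) (nat_lit 0) (.e (nat_lit 1036) (nat_lit 81) .nil))))) (.g (nat_lit 0) (.e (nat_lit 280212) (nat_lit 0) .nil) .nil)))))) (.nd (nat_lit 7) (.nd (nat_lit 8) (.nd (nat_lit 9) 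
(.lf (nat_lit 544878) (.g (nat_lit 3508) (.e (nat_lit 114697) (nat_lit 11) (.e (nat_lit 426188) (nat_lit 9) (.e (nat_lit 426555) (nat_lit 32) (.e (nat_lit 376859) (nat_lit 21) (.e (nat_lit 57854) (nat_lit 252) (.e (nat_lit 57389) (nat_lit 5) .nil)))))) (.g (nat_lit 1) (.e (nat_lit 277918) (nat_lit 0) .nil) .nil))) 
(.lf (nat_lit 545390) (.g (nat_lit 2958) (.e (nat_lit 114714) (nat_lit 22) (.e (nat_lit 90174) (nat_lit 14) (.e (nat_lit 180243) (nat_lit 5) (.e (nat_lit 532499) (nat_lit 1) (.e (nat_lit 57655) (nat_lit 152) (.e (nat_lit 2714) (nat_lit 171) (.e (nat_lit 229433) (nat_lit 25) (.e (nat_lit 532513) (nat_lit 3) .nil)))))))) (.g (nat_lit 1) (.e (nat_lit 279453) (nat_lit 0) .nil) .nil)))) 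
(.nd (nat_lit 9) 
(.lf (nat_lit 545134) (.g (nat_lit 1739) (.e (nat_lit 114698) (nat_lit 11) (.e (nat_lit 426325) (nat_lit 13) (.e (nat_lit 483407) (nat_lit 26) (.e (nat_lit 385107) (nat_lit 51) (.e (nat_lit 802560) (nat_lit 5) .nil))))) (.g (nat_lit 0) (.e (nat_lit 278411) (nat_lit 0) .nil) .nil))) 
(.lf (nat_lit 545646) (.g (nat_lit 1916) (.e (nat_lit 114718) (nat_lit 23) (.e (nat_lit 98350) (nat_lit 24) (.e (nat_lit 409616) (nat_lit 10) (.e (nat_lit 632) (nat_lit 50) .nil)))) (.g (nat_lit 0) (.e (nat_lit 280137) (nat_lit 0) .nil) .nil))))) (.nd (nat_lit 8) (.nd (nat_lit 9) 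
(.lf (nat_lit 545006) (.g (nat_lit 2184) (.e (nat_lit 114698) (nat_lit 11) (.e (nat_lit 426186) (nat_lit 9) (.e (nat_lit 426512) (nat_lit 27) (.e (nat_lit 336076) (nat_lit 9) (.e (nat_lit 336336) (nat_lit 20) (.e (nat_lit 229120) (nat_lit 5) .nil)))))) (.g (nat_lit 1) (.e (nat_lit 278263) (nat_lit 0) .nil) .nil))) 
(.lf (nat_lit 545518) (.g (nat_lit 1979) (.e (nat_lit 114716) (nat_lit 22) (.e (nat_lit 90172) (nat_lit 14) (.e (nat_lit 180244) (nat_lit 5) (.e (nat_lit 532501) (nat_lit 1) (.e (nat_lit 57685) (nat_lit 156) (.e (nat_lit 163872) (nat_lit 3) (.e (nat_lit 204838) (nat_lit 20) .nil))))))) (.g (nat_lit 1) (.e (nat_lit 279751) (nat_lit 0) .nil) .nil)))) (.nd (nat_lit 9) 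
(.lf (nat_lit 545262) (.g (nat_lit 2644) (.e (nat_lit 122624) (nat_lit 11) (.e (nat_lit 426200) (nat_lit 9) (.e (nat_lit 426555) (nat_lit 32) (.e (nat_lit 376860) (nat_lit 21) (.e (nat_lit 57854) (nat_lit 252) .nil))))) (.g (nat_lit 0) (.e (nat_lit 278688) (nat_lit 0) .nil) .nil))) 
(.lf (nat_lit 545774) (.g (nat_lit 3250) (.e (nat_lit 114718) (nat_lit 23) (.e (nat_lit 98386) (nat_lit 32) (.e (nat_lit 475179) (nat_lit 24) (.e (nat_lit 516115) (nat_lit 1) (.e (nat_lit 164325) (nat_lit 230) (.e (nat_lit 163875) (nat_lit 3) (.e (nat_lit 204837) (nat_lit 20) .nil))))))) (.g (nat_lit 1) (.e (nat_lit 280295) (nat_lit 0) .nil) .nil)))))))) 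
(.nd (nat_lit 5) (.nd (nat_lit 6) (.nd (nat_lit 7) (.nd (nat_lit 8) (.nd (nat_lit 9) 
(.lf (nat_lit 544798) (.g (nat_lit 2068) (.e (nat_lit 114696) (nat_lit 11) (.e (nat_lit 426262) (nat_lit 9) (.e (nat_lit 426554) (nat_lit 32) (.e (nat_lit 376859) (nat_lit 21) (.e (nat_lit 57849) (nat_lit 252) (.e (nat_lit 57388) (nat_lit 5) .nil)))))) (.g (nat_lit 1) (.e (nat_lit 277770) (nat_lit 0) .nil) .nil))) 
(.lf (nat_lit 545310) (.g (nat_lit 3963) (.e (nat_lit 114712) (nat_lit 21) (.e (nat_lit 57924) (nat_lit 282) (.e (nat_lit 163923) (nat_lit 15) (.e (nat_lit 450587) (nat_lit 10) (.e (nat_lit 573475) (nat_lit 12) (.e (nat_lit 57360) (nat_lit 0) (.e (nat_lit 5949) (nat_lit 322) (.e (nat_lit 57389) (nat_lit 5) .nil)))))))) (.g (nat_lit 1) (.e (nat_lit 279313) (nat_lit 0) .nil) .nil)))) 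
(.nd (nat_lit 9) 
(.lf (nat_lit 545054) (.g (nat_lit 3159) (.e (nat_lit 114698) (nat_lit 11) (.e (nat_lit 426198) (nat_lit 9) (.e (nat_lit 426542) (nat_lit 29) (.e (nat_lit 352309) (nat_lit 21) (.e (nat_lit 57853) (nat_lit 252) (.e (nat_lit 57389) (nat_lit 5) .nil)))))) (.g (nat_lit 1) (.e (nat_lit 278313) (nat_lit 0) .nil) .nil))) 
(.lf (nat_lit 545566) (.g (nat_lit 2313) (.e (nat_lit 114717) (nat_lit 23) (.e (nat_lit 98333) (nat_lit 18) (.e (nat_lit 164325) (nat_lit 230) (.e (nat_lit 163871) (nat_lit 2) .nil)))) (.g (nat_lit 0) (.e (nat_lit 280006) (nat_lit 0) .nil) .nil))))) (.nd (nat_lit 8) (.nd (nat_lit 9) 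
(.lf (nat_lit 544926) (.g (nat_lit 2995) (.e (nat_lit 114697) (nat_lit 11) (.e (nat_lit 426198) (nat_lit 9) (.e (nat_lit 426555) (nat_lit 32) (.e (nat_lit 376857) (nat_lit 21) (.e (nat_lit 57849) (nat_lit 252) (.e (nat_lit 57390) (nat_lit 5) .nil)))))) (.g (nat_lit 1) (.e (nat_lit 277969) (nat_lit 0) .nil) .nil))) 
(.lf (nat_lit 545438) (.g (nat_lit 3062) (.e (nat_lit 114715) (nat_lit 22) (.e (nat_lit 90170) (nat_lit 13) (.e (nat_lit 172065) (nat_lit 3) (.e (nat_lit 204831) (nat_lit 18) (.e (nat_lit 57691) (nat_lit 156) (.e (nat_lit 163875) (nat_lit 3) (.e (nat_lit 204837) (nat_lit 20) .nil))))))) (.g (nat_lit 1) (.e (nat_lit 279541) (nat_lit 0) .nil) .nil)))) (.nd (nat_lit 9) 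
(.lf (nat_lit 545182) (.g (nat_lit 2097) (.e (nat_lit 114698) (nat_lit 11) (.e (nat_lit 426335) (nat_lit 13) (.e (nat_lit 483385) (nat_lit 23) (.e (nat_lit 336334) (nat_lit 20) (.e (nat_lit 229120) (nat_lit 5) .nil))))) (.g (nat_lit 0) (.e (nat_lit 278501) (nat_lit 0) .nil) .nil))) 
(.lf (nat_lit 545694) (.g (nat_lit 3331) (.e (nat_lit 114718) (nat_lit 23) (.e (nat_lit 98366) (nat_lit 27) (.e (nat_lit 434231) (nat_lit 23) (.e (nat_lit 532500) (nat_lit 1) (.e (nat_lit 57690) (nat_lit 156) (.e (nat_lit 163875) (nat_lit 3) (.e (nat_lit 204838) (nat_lit 20) .nil))))))) (.g (nat_lit 1) (.e (nat_lit 280194) (nat_lit 0) .nil) .nil)))))) 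
(.nd (nat_lit 7) (.nd (nat_lit 8) (.nd (nat_lit 9) 
(.lf (nat_lit 544862) (.g (nat_lit 3514) (.e (nat_lit 114697) (nat_lit 11) (.e (nat_lit 426139) (nat_lit 3) (.e (nat_lit 204861) (nat_lit 26) (.e (nat_lit 336076) (nat_lit 9) (.e (nat_lit 336324) (nat_lit 18) (.e (nat_lit 204837) (nat_lit 20) .nil)))))) (.g (nat_lit 1) (.e (nat_lit 277891) (nat_lit 0) .nil) .nil))) 
(.lf (nat_lit 545374) (.g (nat_lit 2739) (.e (nat_lit 114714) (nat_lit 22) (.e (nat_lit 90172) (nat_lit 14) (.e (nat_lit 180244) (nat_lit 5) (.e (nat_lit 532503) (nat_lit 1) (.e (nat_lit 57665) (nat_lit 152) (.e (nat_lit 2715) (nat_lit 171) (.e (nat_lit 229433) (nat_lit 25) (.e (nat_lit 532513) (nat_lit 3) .nil)))))))) (.g (nat_lit 1) (.e (nat_lit 279425) (nat_lit 0) .nil) .nil)))) 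
(.nd (nat_lit 9) 
(.lf (nat_lit 545118) (.g (nat_lit 1947) (.e (nat_lit 114698) (nat_lit 11) (.e (nat_lit 426325) (nat_lit 13) (.e (nat_lit 483382) (nat_lit 23) (.e (nat_lit 336334) (nat_lit 20) (.e (nat_lit 229120) (nat_lit 5) .nil))))) (.g (nat_lit 1) (.e (nat_lit 278383) (nat_lit 0) .nil) .nil))) 
(.lf (nat_lit 545630) (.g (nat_lit 1676) (.e (nat_lit 114718) (nat_lit 23) (.e (nat_lit 98334) (nat_lit 18) (.e (nat_lit 164398) (nat_lit 256) (.e (nat_lit 57369) (nat_lit 2) .nil)))) (.g (nat_lit 0) (.e (nat_lit 280113) (nat_lit 0) .nil) .nil))))) (.nd (nat_lit 8) (.nd (nat_lit 9) 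
(.lf (nat_lit 544990) (.g (nat_lit 1993) (.e (nat_lit 114698) (nat_lit 11) (.e (nat_lit 426138) (nat_lit 3) (.e (nat_lit 204861) (nat_lit 26) (.e (nat_lit 336194) (nat_lit 12) (.e (nat_lit 385064) (nat_lit 26) (.e (nat_lit 532514) (nat_lit 3) .nil)))))) (.g (nat_lit 1) (.e (nat_lit 278212) (nat_lit 0) .nil) .nil))) 
(.lf (nat_lit 545502) (.g (nat_lit 2440) (.e (nat_lit 114716) (nat_lit 22) (.e (nat_lit 90172) (nat_lit 14) (.e (nat_lit 180243) (nat_lit 5) (.e (nat_lit 532501) (nat_lit 1) (.e (nat_lit 57689) (nat_lit 156) (.e (nat_lit 163872) (nat_lit 3) (.e (nat_lit 204838) (nat_lit 20) .nil))))))) (.g (nat_lit 1) (.e (nat_lit 279663) (nat_lit 0) .nil) .nil)))) (.nd (nat_lit 9) 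
(.lf (nat_lit 545246) (.g (nat_lit 1805) (.e (nat_lit 122624) (nat_lit 11) (.e (nat_lit 426188) (nat_lit 9) (.e (nat_lit 426555) (nat_lit 32) (.e (nat_lit 376857) (nat_lit 21) (.e (nat_lit 57847) (nat_lit 252) .nil))))) (.g (nat_lit 0) (.e (nat_lit 278672) (nat_lit 0) .nil) .nil))) 
(.lf (nat_lit 545758) (.g (nat_lit 2624) (.e (nat_lit 114718) (nat_lit 23) (.e (nat_lit 98384) (nat_lit 32) (.e (nat_lit 475179) (nat_lit 24) (.e (nat_lit 516117) (nat_lit 1) (.e (nat_lit 164305) (nat_lit 226) .nil))))) (.g (nat_lit 0) (.e (nat_lit 280272) (nat_lit 0) .nil) .nil))))))) (.nd (nat_lit 6) (.nd (nat_lit 7) (.nd (nat_lit 8) (.nd (nat_lit 9) 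
(.lf (nat_lit 544830) (.g (nat_lit 3730) (.e (nat_lit 114697) (nat_lit 11) (.e (nat_lit 426133) (nat_lit 3) (.e (nat_lit 204861) (nat_lit 26) (.e (nat_lit 336076) (nat_lit 9) (.e (nat_lit 336324) (nat_lit 18) (.e (nat_lit 204838) (nat_lit 20) .nil)))))) (.g (nat_lit 1) (.e (nat_lit 277851) (nat_lit 0) .nil) .nil))) 
(.lf (nat_lit 545342) (.g (nat_lit 2534) (.e (nat_lit 114714) (nat_lit 22) (.e (nat_lit 90172) (nat_lit 14) (.e (nat_lit 180243) (nat_lit 5) (.e (nat_lit 532501) (nat_lit 1) (.e (nat_lit 57651) (nat_lit 152) (.e (nat_lit 2715) (nat_lit 171) (.e (nat_lit 229433) (nat_lit 25) (.e (nat_lit 532513) (nat_lit 3) .nil)))))))) (.g (nat_lit 1) (.e (nat_lit 279368) (nat_lit 0) .nil) .nil)))) 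
(.nd (nat_lit 9) 
(.lf (nat_lit 545086) (.g (nat_lit 2001) (.e (nat_lit 114698) (nat_lit 11) (.e (nat_lit 426200) (nat_lit 9) (.e (nat_lit 426555) (nat_lit 32) (.e (nat_lit 376856) (nat_lit 21) .nil)))) (.g (nat_lit 0) (.e (nat_lit 278346) (nat_lit 0) .nil) .nil))) 
(.lf (nat_lit 545598) (.g (nat_lit 3414) (.e (nat_lit 114717) (nat_lit 23) (.e (nat_lit 98356) (nat_lit 26) (.e (nat_lit 426438) (nat_lit 18) (.e (nat_lit 98335) (nat_lit 18) (.e (nat_lit 164330) (nat_lit 230) (.e (nat_lit 163874) (nat_lit 3) (.e (nat_lit 204836) (nat_lit 20) .nil))))))) (.g (nat_lit 1) (.e (nat_lit 280053) (nat_lit 0) .nil) .nil))))) (.nd (nat_lit 8) (.nd (nat_lit 9) 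
(.lf (nat_lit 544958) (.g (nat_lit 3315) (.e (nat_lit 114697) (nat_lit 11) (.e (nat_lit 426200) (nat_lit 9) (.e (nat_lit 426555) (nat_lit 32) (.e (nat_lit 376860) (nat_lit 21) (.e (nat_lit 57851) (nat_lit 252) (.e (nat_lit 57389) (nat_lit 5) .nil)))))) (.g (nat_lit 1) (.e (nat_lit 278001) (nat_lit 0) .nil) .nil))) 
(.lf (nat_lit 545470) (.g (nat_lit 1593) (.e (nat_lit 114715) (nat_lit 22) (.e (nat_lit 90170) (nat_lit 13) (.e (nat_lit 172138) (nat_lit 15) (.e (nat_lit 1800) (nat_lit 119) .nil)))) (.g (nat_lit 0) (.e (nat_lit 279581) (nat_lit 0) .nil) .nil)))) (.nd (nat_lit 9) 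
(.lf (nat_lit 545214) (.g (nat_lit 2543) (.e (nat_lit 122624) (nat_lit 11) (.e (nat_lit 426125) (nat_lit 2) (.e (nat_lit 196681) (nat_lit 17) (.e (nat_lit 131120) (nat_lit 12) (.e (nat_lit 385068) (nat_lit 26) .nil))))) (.g (nat_lit 0) (.e (nat_lit 278593) (nat_lit 0) .nil) .nil))) 
(.lf (nat_lit 545726) (.g (nat_lit 3843) (.e (nat_lit 114718) (nat_lit 23) (.e (nat_lit 98367) (nat_lit 27) (.e (nat_lit 434231) (nat_lit 23) (.e (nat_lit 532500) (nat_lit 1) (.e (nat_lit 57692) (nat_lit 156) (.e (nat_lit 163875) (nat_lit 3) (.e (nat_lit 204836) (nat_lit 20) .nil))))))) (.g (nat_lit 1) (.e (nat_lit 280235) (nat_lit 0) .nil) .nil)))))) 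
(.nd (nat_lit 7) (.nd (nat_lit 8) (.nd (nat_lit 9) 
(.lf (nat_lit 544894) (.g (nat_lit 3448) (.e (nat_lit 114697) (nat_lit 11) (.e (nat_lit 426190) (nat_lit 9) (.e (nat_lit 426555) (nat_lit 32) (.e (nat_lit 376860) (nat_lit 21) (.e (nat_lit 57853) (nat_lit 252) (.e (nat_lit 57389) (nat_lit 5) .nil)))))) (.g (nat_lit 1) (.e (nat_lit 277934) (nat_lit 0) .nil) .nil))) 
(.lf (nat_lit 545406) (.g (nat_lit 3652) (.e (nat_lit 114714) (nat_lit 22) (.e (nat_lit 90174) (nat_lit 14) (.e (nat_lit 180243) (nat_lit 5) (.e (nat_lit 532503) (nat_lit 1) (.e (nat_lit 57692) (nat_lit 156) (.e (nat_lit 163874) (nat_lit 3) (.e (nat_lit 204838) (nat_lit 20) .nil))))))) (.g (nat_lit 1) (.e (nat_lit 279473) (nat_lit 0) .nil) .nil)))) (.nd (nat_lit 9) 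
(.lf (nat_lit 545150) (.g (nat_lit 1054) (.e (nat_lit 114698) (nat_lit 11) (.e (nat_lit 426327) (nat_lit 13) (.e (nat_lit 491264) (nat_lit 23) (.e (nat_lit 336334) (nat_lit 20) (.e (nat_lit 229120) (nat_lit 5) .nil))))) (.g (nat_lit 1) (.e (nat_lit 278439) (nat_lit 0) .nil) .nil))) 
(.lf (nat_lit 545662) (.g (nat_lit 4371) (.e (nat_lit 114718) (nat_lit 23) (.e (nat_lit 98356) (nat_lit 26) (.e (nat_lit 426438) (nat_lit 18) (.e (nat_lit 98333) (nat_lit 18) (.e (nat_lit 164327) (nat_lit 230) (.e (nat_lit 163875) (nat_lit 3) (.e (nat_lit 204838) (nat_lit 20) .nil))))))) (.g (nat_lit 1) (.e (nat_lit 280157) (nat_lit 0) .nil) .nil))))) (.nd (nat_lit 8) (.nd (nat_lit 9) 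
(.lf (nat_lit 545022) (.g (nat_lit 3180) (.e (nat_lit 114698) (nat_lit 11) (.e (nat_lit 426190) (nat_lit 9) (.e (nat_lit 426555) (nat_lit 32) (.e (nat_lit 376859) (nat_lit 21) (.e (nat_lit 57853) (nat_lit 252) (.e (nat_lit 57388) (nat_lit 5) .nil)))))) (.g (nat_lit 1) (.e (nat_lit 278279) (nat_lit 0) .nil) .nil))) 
(.lf (nat_lit 545534) (.g (nat_lit 4831) (.e (nat_lit 114716) (nat_lit 22) (.e (nat_lit 90174) (nat_lit 14) (.e (nat_lit 180243) (nat_lit 5) (.e (nat_lit 532499) (nat_lit 1) (.e (nat_lit 57688) (nat_lit 156) (.e (nat_lit 163874) (nat_lit 3) (.e (nat_lit 204836) (nat_lit 20) .nil))))))) (.g (nat_lit 1) (.e (nat_lit 279858) (nat_lit 0) .nil) .nil)))) (.nd (nat_lit 9) 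
(.lf (nat_lit 545278) (.g (nat_lit 2466) (.e (nat_lit 122624) (nat_lit 12) (.e (nat_lit 434244) (nat_lit 28) (.e (nat_lit 573451) (nat_lit 9) (.e (nat_lit 498) (nat_lit 40) .nil)))) (.g (nat_lit 0) (.e (nat_lit 278867) (nat_lit 0) .nil) .nil))) 
(.lf (nat_lit 545790) (.g (nat_lit 2425) (.e (nat_lit 114719) (nat_lit 23) (.e (nat_lit 98333) (nat_lit 18) (.e (nat_lit 164398) (nat_lit 256) (.e (nat_lit 57374) (nat_lit 2) (.e (nat_lit 90172) (nat_lit 14) .nil))))) (.g (nat_lit 0) (.e (nat_lit 280317) (nat_lit 0) .nil) .nil)))))))))))) 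
(.nd (nat_lit 1) (.nd (nat_lit 2) (.nd (nat_lit 3) (.nd (nat_lit 4) (.nd (nat_lit 5) 
(.nd (nat_lit 6) (.nd (nat_lit 7) (.nd (nat_lit 8) (.nd (nat_lit 9) 
(.lf (nat_lit 544769) (.g (nat_lit 1882) (.e (nat_lit 114696) (nat_lit 11) (.e (nat_lit 426232) (nat_lit 9) (.e (nat_lit 426554) (nat_lit 32) (.e (nat_lit 376857) (nat_lit 21) (.e (nat_lit 57854) (nat_lit 252) (.e (nat_lit 57388) (nat_lit 5) .nil)))))) (.g (nat_lit 1) (.e (nat_lit 277741) (nat_lit 0) .nil) .nil))) 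
(.lf (nat_lit 545281) (.g (nat_lit 2160) (.e (nat_lit 114700) (nat_lit 20) (.e (nat_lit 1803) (nat_lit 119) (.e (nat_lit 516117) (nat_lit 1) (.e (nat_lit 164399) (nat_lit 256) (.e (nat_lit 57372) (nat_lit 2) .nil))))) (.g (nat_lit 0) (.e (nat_lit 279158) (nat_lit 0) .nil) .nil)))) (.nd (nat_lit 9) 
(.lf (nat_lit 545025) (.g (nat_lit 3525) (.e (nat_lit 114698) (nat_lit 11) (.e (nat_lit 426190) (nat_lit 9) (.e (nat_lit 426555) (nat_lit 32) (.e (nat_lit 376860) (nat_lit 21) (.e (nat_lit 57853) (nat_lit 252) (.e (nat_lit 57389) (nat_lit 5) .nil)))))) (.g (nat_lit 1) (.e (nat_lit 278282) (nat_lit 0) .nil) .nil))) 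
(.lf (nat_lit 545537) (.g (nat_lit 1003) (.e (nat_lit 114716) (nat_lit 22) (.e (nat_lit 90174) (nat_lit 14) (.e (nat_lit 180243) (nat_lit 5) (.e (nat_lit 532501) (nat_lit 1) .nil)))) (.g (nat_lit 0) (.e (nat_lit 279867) (nat_lit 0) .nil) .nil))))) (.nd (nat_lit 8) (.nd (nat_lit 9) 
(.lf (nat_lit 544897) (.g (nat_lit 2623) (.e (nat_lit 114697) (nat_lit 11) (.e (nat_lit 426197) (nat_lit 9) (.e (nat_lit 426555) (nat_lit 32) (.e (nat_lit 376857) (nat_lit 21) (.e (nat_lit 57846) (nat_lit 252) (.e (nat_lit 57390) (nat_lit 5) .nil)))))) (.g (nat_lit 1) (.e (nat_lit 277938) (nat_lit 0) .nil) .nil))) 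
(.lf (nat_lit 545409) (.g (nat_lit 2731) (.e (nat_lit 114714) (nat_lit 22) (.e (nat_lit 90174) (nat_lit 14) (.e (nat_lit 180243) (nat_lit 5) (.e (nat_lit 532504) (nat_lit 1) (.e (nat_lit 57690) (nat_lit 156) (.e (nat_lit 163874) (nat_lit 3) (.e (nat_lit 204836) (nat_lit 20) .nil))))))) (.g (nat_lit 1) (.e (nat_lit 279477) (nat_lit 0) .nil) .nil)))) (.nd (nat_lit 9) 
(.lf (nat_lit 545153) (.g (nat_lit 2163) (.e (nat_lit 114698) (nat_lit 11) (.e (nat_lit 426327) (nat_lit 13) (.e (nat_lit 483406) (nat_lit 26) (.e (nat_lit 385107) (nat_lit 51) (.e (nat_lit 802560) (nat_lit 5) .nil))))) (.g (nat_lit 1) (.e (nat_lit 278443) (nat_lit 0) .nil) .nil))) 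
(.lf (nat_lit 545665) (.g (nat_lit 3651) (.e (nat_lit 114718) (nat_lit 23) (.e (nat_lit 98356) (nat_lit 26) (.e (nat_lit 426438) (nat_lit 18) (.e (nat_lit 98335) (nat_lit 18) (.e (nat_lit 164327) (nat_lit 230) (.e (nat_lit 163875) (nat_lit 3) (.e (nat_lit 204836) (nat_lit 20) .nil))))))) (.g (nat_lit 1) (.e (nat_lit 280160) (nat_lit 0) .nil) .nil)))))) 
(.nd (nat_lit 7) (.nd (nat_lit 8) (.nd (nat_lit 9) 
(.lf (nat_lit 544833) (.g (nat_lit 2428) (.e (nat_lit 114697) (nat_lit 11) (.e (nat_lit 426133) (nat_lit 3) (.e (nat_lit 204861) (nat_lit 26) (.e (nat_lit 336086) (nat_lit 9) (.e (nat_lit 336324) (nat_lit 18) (.e (nat_lit 204838) (nat_lit 20) .nil)))))) (.g (nat_lit 1) (.e (nat_lit 277854) (nat_lit 0) .nil) .nil))) 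
(.lf (nat_lit 545345) (.g (nat_lit 2629) (.e (nat_lit 114714) (nat_lit 22) (.e (nat_lit 90172) (nat_lit 14) (.e (nat_lit 180243) (nat_lit 5) (.e (nat_lit 532503) (nat_lit 1) (.e (nat_lit 57655) (nat_lit 152) (.e (nat_lit 2615) (nat_lit 163) (.e (nat_lit 163962) (nat_lit 25) (.e (nat_lit 532513) (nat_lit 3) .nil)))))))) (.g (nat_lit 1) (.e (nat_lit 279372) (nat_lit 0) .nil) .nil)))) 
(.nd (nat_lit 9) 
(.lf (nat_lit 545089) (.g (nat_lit 3873) (.e (nat_lit 114698) (nat_lit 11) (.e (nat_lit 426200) (nat_lit 9) (.e (nat_lit 426555) (nat_lit 32) (.e (nat_lit 376857) (nat_lit 21) (.e (nat_lit 57854) (nat_lit 252) (.e (nat_lit 57388) (nat_lit 5) .nil)))))) (.g (nat_lit 1) (.e (nat_lit 278349) (nat_lit 0) .nil) .nil))) 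
(.lf (nat_lit 545601) (.g (nat_lit 2964) (.e (nat_lit 114717) (nat_lit 23) (.e (nat_lit 98384) (nat_lit 32) (.e (nat_lit 475177) (nat_lit 24) (.e (nat_lit 516115) (nat_lit 1) (.e (nat_lit 164327) (nat_lit 230) .nil))))) (.g (nat_lit 0) (.e (nat_lit 280056) (nat_lit 0) .nil) .nil))))) (.nd (nat_lit 8) (.nd (nat_lit 9) 
(.lf (nat_lit 544961) (.g (nat_lit 1155) (.e (nat_lit 114698) (nat_lit 11) (.e (nat_lit 426116) (nat_lit 2) (.e (nat_lit 196672) (nat_lit 15) (.e (nat_lit 89856) (nat_lit 3) .nil)))) (.g (nat_lit 0) (.e (nat_lit 278135) (nat_lit 0) .nil) .nil))) 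
(.lf (nat_lit 545473) (.g (nat_lit 1991) (.e (nat_lit 114715) (nat_lit 22) (.e (nat_lit 90172) (nat_lit 14) (.e (nat_lit 180244) (nat_lit 5) (.e (nat_lit 532499) (nat_lit 1) (.e (nat_lit 57691) (nat_lit 156) .nil))))) (.g (nat_lit 0) (.e (nat_lit 279584) (nat_lit 0) .nil) .nil)))) (.nd (nat_lit 9) 
(.lf (nat_lit 545217) (.g (nat_lit 1275) (.e (nat_lit 122624) (nat_lit 11) (.e (nat_lit 426125) (nat_lit 2) (.e (nat_lit 204544) (nat_lit 17) .nil))) (.g (nat_lit 0) (.e (nat_lit 278596) (nat_lit 0) .nil) .nil))) 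
(.lf (nat_lit 545729) (.g (nat_lit 3833) (.e (nat_lit 114718) (nat_lit 23) (.e (nat_lit 98367) (nat_lit 27) (.e (nat_lit 434232) (nat_lit 23) (.e (nat_lit 532499) (nat_lit 1) (.e (nat_lit 57688) (nat_lit 156) (.e (nat_lit 163874) (nat_lit 3) (.e (nat_lit 204837) (nat_lit 20) .nil))))))) (.g (nat_lit 1) (.e (nat_lit 280238) (nat_lit 0) .nil) .nil))))))) 
(.nd (nat_lit 6) (.nd (nat_lit 7) (.nd (nat_lit 8) (.nd (nat_lit 9) 
(.lf (nat_lit 544801) (.g (nat_lit 2091) (.e (nat_lit 114696) (nat_lit 11) (.e (nat_lit 426262) (nat_lit 9) (.e (nat_lit 426554) (nat_lit 32) (.e (nat_lit 376860) (nat_lit 21) (.e (nat_lit 57853) (nat_lit 252) (.e (nat_lit 57388) (nat_lit 5) .nil)))))) (.g (nat_lit 1) (.e (nat_lit 277773) (nat_lit 0) .nil) .nil))) 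
(.lf (nat_lit 545313) (.g (nat_lit 3587) (.e (nat_lit 114712) (nat_lit 21) (.e (nat_lit 57929) (nat_lit 282) (.e (nat_lit 163923) (nat_lit 15) (.e (nat_lit 450587) (nat_lit 10) (.e (nat_lit 573475) (nat_lit 12) (.e (nat_lit 57360) (nat_lit 0) (.e (nat_lit 5947) (nat_lit 322) (.e (nat_lit 57389) (nat_lit 5) .nil)))))))) (.g (nat_lit 1) (.e (nat_lit 279320) (nat_lit 0) .nil) .nil)))) 
(.nd (nat_lit 9) 
(.lf (nat_lit 545057) (.g (nat_lit 2968) (.e (nat_lit 114698) (nat_lit 11) (.e (nat_lit 426198) (nat_lit 9) (.e (nat_lit 426555) (nat_lit 32) (.e (nat_lit 376857) (nat_lit 21) (.e (nat_lit 57847) (nat_lit 252) (.e (nat_lit 57390) (nat_lit 5) .nil)))))) (.g (nat_lit 1) (.e (nat_lit 278316) (nat_lit 0) .nil) .nil))) 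
(.lf (nat_lit 545569) (.g (nat_lit 878) (.e (nat_lit 114717) (nat_lit 23) (.e (nat_lit 98333) (nat_lit 18) (.e (nat_lit 164398) (nat_lit 256) .nil))) (.g (nat_lit 0) (.e (nat_lit 280014) (nat_lit 0) .nil) .nil))))) (.nd (nat_lit 8) (.nd (nat_lit 9) 
(.lf (nat_lit 544929) (.g (nat_lit 3457) (.e (nat_lit 114697) (nat_lit 11) (.e (nat_lit 426198) (nat_lit 9) (.e (nat_lit 426555) (nat_lit 32) (.e (nat_lit 376857) (nat_lit 21) (.e (nat_lit 57854) (nat_lit 252) (.e (nat_lit 57389) (nat_lit 5) .nil)))))) (.g (nat_lit 1) (.e (nat_lit 277972) (nat_lit 0) .nil) .nil))) 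
(.lf (nat_lit 545441) (.g (nat_lit 3965) (.e (nat_lit 114715) (nat_lit 22) (.e (nat_lit 90170) (nat_lit 13) (.e (nat_lit 172065) (nat_lit 3) (.e (nat_lit 204831) (nat_lit 18) (.e (nat_lit 57692) (nat_lit 156) (.e (nat_lit 163875) (nat_lit 3) (.e (nat_lit 204837) (nat_lit 20) .nil))))))) (.g (nat_lit 1) (.e (nat_lit 279544) (nat_lit 0) .nil) .nil)))) (.nd (nat_lit 9) 
(.lf (nat_lit 545185) (.g (nat_lit 1223) (.e (nat_lit 114698) (nat_lit 11) (.e (nat_lit 426335) (nat_lit 13) (.e (nat_lit 483390) (nat_lit 23) (.e (nat_lit 343808) (nat_lit 20) .nil)))) (.g (nat_lit 0) (.e (nat_lit 278504) (nat_lit 0) .nil) .nil))) 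
(.lf (nat_lit 545697) (.g (nat_lit 3857) (.e (nat_lit 114718) (nat_lit 23) (.e (nat_lit 98366) (nat_lit 27) (.e (nat_lit 434231) (nat_lit 23) (.e (nat_lit 532500) (nat_lit 1) (.e (nat_lit 57692) (nat_lit 156) (.e (nat_lit 163874) (nat_lit 3) (.e (nat_lit 204837) (nat_lit 20) .nil))))))) (.g (nat_lit 1) (.e (nat_lit 280197) (nat_lit 0) .nil) .nil)))))) 
(.nd (nat_lit 7) (.nd (nat_lit 8) (.nd (nat_lit 9) 
(.lf (nat_lit 544865) (.g (nat_lit 2882) (.e (nat_lit 114697) (nat_lit 11) (.e (nat_lit 426139) (nat_lit 3) (.e (nat_lit 204861) (nat_lit 26) (.e (nat_lit 336078) (nat_lit 9) (.e (nat_lit 336324) (nat_lit 18) (.e (nat_lit 204838) (nat_lit 20) .nil)))))) (.g (nat_lit 1) (.e (nat_lit 277894) (nat_lit 0) .nil) .nil))) 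
(.lf (nat_lit 545377) (.g (nat_lit 2311) (.e (nat_lit 114714) (nat_lit 22) (.e (nat_lit 90172) (nat_lit 14) (.e (nat_lit 180244) (nat_lit 5) (.e (nat_lit 532503) (nat_lit 1) (.e (nat_lit 57687) (nat_lit 156) (.e (nat_lit 163845) (nat_lit 0) (.e (nat_lit 3256) (nat_lit 197) (.e (nat_lit 532513) (nat_lit 3) .nil)))))))) (.g (nat_lit 1) (.e (nat_lit 279431) (nat_lit 0) .nil) .nil)))) 
(.nd (nat_lit 9) 
(.lf (nat_lit 545121) (.g (nat_lit 2402) (.e (nat_lit 114698) (nat_lit 11) (.e (nat_lit 426325) (nat_lit 13) (.e (nat_lit 483384) (nat_lit 23) (.e (nat_lit 336336) (nat_lit 20) (.e (nat_lit 229120) (nat_lit 5) .nil))))) (.g (nat_lit 1) (.e (nat_lit 278386) (nat_lit 0) .nil) .nil))) 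
(.lf (nat_lit 545633) (.g (nat_lit 1258) (.e (nat_lit 114718) (nat_lit 23) (.e (nat_lit 98334) (nat_lit 18) (.e (nat_lit 164403) (nat_lit 256) (.e (nat_lit 57371) (nat_lit 2) .nil)))) (.g (nat_lit 0) (.e (nat_lit 280116) (nat_lit 0) .nil) .nil))))) (.nd (nat_lit 8) (.nd (nat_lit 9) 
(.lf (nat_lit 544993) (.g (nat_lit 705) (.e (nat_lit 114698) (nat_lit 11) (.e (nat_lit 426139) (nat_lit 3) (.e (nat_lit 204855) (nat_lit 26) .nil))) (.g (nat_lit 0) (.e (nat_lit 278223) (nat_lit 0) .nil) .nil))) 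
(.lf (nat_lit 545505) (.g (nat_lit 2403) (.e (nat_lit 114716) (nat_lit 22) (.e (nat_lit 90172) (nat_lit 14) (.e (nat_lit 180243) (nat_lit 5) (.e (nat_lit 532501) (nat_lit 1) (.e (nat_lit 57692) (nat_lit 156) (.e (nat_lit 163872) (nat_lit 3) (.e (nat_lit 204838) (nat_lit 20) .nil))))))) (.g (nat_lit 1) (.e (nat_lit 279666) (nat_lit 0) .nil) .nil)))) (.nd (nat_lit 9) 
(.lf (nat_lit 545249) (.g (nat_lit 1768) (.e (nat_lit 122624) (nat_lit 11) (.e (nat_lit 426188) (nat_lit 9) (.e (nat_lit 426555) (nat_lit 32) (.e (nat_lit 376859) (nat_lit 21) (.e (nat_lit 57846) (nat_lit 252) .nil))))) (.g (nat_lit 0) (.e (nat_lit 278675) (nat_lit 0) .nil) .nil))) 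
(.lf (nat_lit 545761) (.g (nat_lit 4570) (.e (nat_lit 114718) (nat_lit 23) (.e (nat_lit 98384) (nat_lit 32) (.e (nat_lit 475179) (nat_lit 24) (.e (nat_lit 516117) (nat_lit 1) (.e (nat_lit 164330) (nat_lit 230) (.e (nat_lit 163872) (nat_lit 3) (.e (nat_lit 204838) (nat_lit 20) .nil))))))) (.g (nat_lit 1) (.e (nat_lit 280279) (nat_lit 0) .nil) .nil)))))))) 
(.nd (nat_lit 5) (.nd (nat_lit 6) (.nd (nat_lit 7) (.nd (nat_lit 8) (.nd (nat_lit 9) 
(.lf (nat_lit 544785) (.g (nat_lit 1919) (.e (nat_lit 114696) (nat_lit 11) (.e (nat_lit 426234) (nat_lit 9) (.e (nat_lit 426554) (nat_lit 32) (.e (nat_lit 376859) (nat_lit 21) (.e (nat_lit 57849) (nat_lit 252) (.e (nat_lit 57390) (nat_lit 5) .nil)))))) (.g (nat_lit 1) (.e (nat_lit 277757) (nat_lit 0) .nil) .nil))) 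
(.lf (nat_lit 545297) (.g (nat_lit 2234) (.e (nat_lit 114708) (nat_lit 20) (.e (nat_lit 1800) (nat_lit 119) (.e (nat_lit 516120) (nat_lit 1) (.e (nat_lit 164403) (nat_lit 256) (.e (nat_lit 57371) (nat_lit 2) .nil))))) (.g (nat_lit 0) (.e (nat_lit 279181) (nat_lit 0) .nil) .nil)))) (.nd (nat_lit 9) 
(.lf (nat_lit 545041) (.g (nat_lit 2981) (.e (nat_lit 114698) (nat_lit 11) (.e (nat_lit 426197) (nat_lit 9) (.e (nat_lit 426555) (nat_lit 32) (.e (nat_lit 376859) (nat_lit 21) (.e (nat_lit 57847) (nat_lit 252) (.e (nat_lit 57390) (nat_lit 5) .nil)))))) (.g (nat_lit 1) (.e (nat_lit 278298) (nat_lit 0) .nil) .nil))) 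
(.lf (nat_lit 545553) (.g (nat_lit 525) (.e (nat_lit 114716) (nat_lit 22) (.e (nat_lit 90174) (nat_lit 14) (.e (nat_lit 180241) (nat_lit 4) .nil))) (.g (nat_lit 0) (.e (nat_lit 279958) (nat_lit 0) .nil) .nil))))) (.nd (nat_lit 8) (.nd (nat_lit 9) 
(.lf (nat_lit 544913) (.g (nat_lit 1973) (.e (nat_lit 114697) (nat_lit 11) (.e (nat_lit 426198) (nat_lit 9) (.e (nat_lit 426538) (nat_lit 29) (.e (nat_lit 352309) (nat_lit 21) (.e (nat_lit 57853) (nat_lit 252) .nil))))) (.g (nat_lit 0) (.e (nat_lit 277955) (nat_lit 0) .nil) .nil))) 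
(.lf (nat_lit 545425) (.g (nat_lit 3847) (.e (nat_lit 114715) (nat_lit 22) (.e (nat_lit 90170) (nat_lit 13) (.e (nat_lit 172065) (nat_lit 3) (.e (nat_lit 204829) (nat_lit 18) (.e (nat_lit 57692) (nat_lit 156) (.e (nat_lit 163874) (nat_lit 3) (.e (nat_lit 204836) (nat_lit 20) .nil))))))) (.g (nat_lit 1) (.e (nat_lit 279523) (nat_lit 0) .nil) .nil)))) (.nd (nat_lit 9) 
(.lf (nat_lit 545169) (.g (nat_lit 2653) (.e (nat_lit 114698) (nat_lit 11) (.e (nat_lit 426335) (nat_lit 13) (.e (nat_lit 483346) (nat_lit 17) (.e (nat_lit 6445) (nat_lit 343) (.e (nat_lit 184) (nat_lit 14) (.e (nat_lit 229120) (nat_lit 5) .nil)))))) (.g (nat_lit 1) (.e (nat_lit 278488) (nat_lit 0) .nil) .nil))) 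
(.lf (nat_lit 545681) (.g (nat_lit 2329) (.e (nat_lit 114718) (nat_lit 23) (.e (nat_lit 98366) (nat_lit 27) (.e (nat_lit 434231) (nat_lit 23) (.e (nat_lit 532490) (nat_lit 0) (.e (nat_lit 1040) (nat_lit 81) .nil))))) (.g (nat_lit 0) (.e (nat_lit 280181) (nat_lit 0) .nil) .nil)))))) (.nd (nat_lit 7) (.nd (nat_lit 8) (.nd (nat_lit 9) 
(.lf (nat_lit 544849) (.g (nat_lit 1572) (.e (nat_lit 114697) (nat_lit 11) (.e (nat_lit 426137) (nat_lit 3) (.e (nat_lit 204861) (nat_lit 26) (.e (nat_lit 336194) (nat_lit 12) (.e (nat_lit 385064) (nat_lit 26) .nil))))) (.g (nat_lit 0) (.e (nat_lit 277872) (nat_lit 0) .nil) .nil))) 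
(.lf (nat_lit 545361) (.g (nat_lit 3719) (.e (nat_lit 114714) (nat_lit 22) (.e (nat_lit 90172) (nat_lit 14) (.e (nat_lit 180244) (nat_lit 5) (.e (nat_lit 532499) (nat_lit 1) (.e (nat_lit 57688) (nat_lit 156) (.e (nat_lit 163872) (nat_lit 3) (.e (nat_lit 204837) (nat_lit 20) .nil))))))) (.g (nat_lit 1) (.e (nat_lit 279399) (nat_lit 0) .nil) .nil)))) (.nd (nat_lit 9) 
(.lf (nat_lit 545105) (.g (nat_lit 2528) (.e (nat_lit 114698) (nat_lit 11) (.e (nat_lit 426213) (nat_lit 9) (.e (nat_lit 426497) (nat_lit 27) (.e (nat_lit 336076) (nat_lit 9) (.e (nat_lit 336336) (nat_lit 20) (.e (nat_lit 229120) (nat_lit 5) .nil)))))) (.g (nat_lit 1) (.e (nat_lit 278366) (nat_lit 0) .nil) .nil))) 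
(.lf (nat_lit 545617) (.g (nat_lit 639) (.e (nat_lit 114718) (nat_lit 23) (.e (nat_lit 98333) (nat_lit 18) (.e (nat_lit 164397) (nat_lit 256) .nil))) (.g (nat_lit 0) (.e (nat_lit 280086) (nat_lit 0) .nil) .nil))))) (.nd (nat_lit 8) (.nd (nat_lit 9) 
(.lf (nat_lit 544977) (.g (nat_lit 1163) (.e (nat_lit 114698) (nat_lit 11) (.e (nat_lit 426124) (nat_lit 2) (.e (nat_lit 196681) (nat_lit 17) (.e (nat_lit 131109) (nat_lit 9) .nil)))) (.g (nat_lit 0) (.e (nat_lit 278192) (nat_lit 0) .nil) .nil))) 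
(.lf (nat_lit 545489) (.g (nat_lit 3931) (.e (nat_lit 114716) (nat_lit 22) (.e (nat_lit 90159) (nat_lit 11) (.e (nat_lit 24665) (nat_lit 14) (.e (nat_lit 401414) (nat_lit 0) (.e (nat_lit 3205) (nat_lit 194) (.e (nat_lit 507946) (nat_lit 18) (.e (nat_lit 311040) (nat_lit 20) .nil))))))) (.g (nat_lit 1) (.e (nat_lit 279622) (nat_lit 0) .nil) .nil)))) (.nd (nat_lit 9) 
(.lf (nat_lit 545233) (.g (nat_lit 2306) (.e (nat_lit 122624) (nat_lit 11) (.e (nat_lit 426139) (nat_lit 3) (.e (nat_lit 204861) (nat_lit 26) (.e (nat_lit 336086) (nat_lit 9) (.e (nat_lit 336324) (nat_lit 18) .nil))))) (.g (nat_lit 0) (.e (nat_lit 278631) (nat_lit 0) .nil) .nil))) 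
(.lf (nat_lit 545745) (.g (nat_lit 2983) (.e (nat_lit 114718) (nat_lit 23) (.e (nat_lit 98384) (nat_lit 32) (.e (nat_lit 475177) (nat_lit 24) (.e (nat_lit 516119) (nat_lit 1) (.e (nat_lit 164327) (nat_lit 230) (.e (nat_lit 163875) (nat_lit 3) (.e (nat_lit 204836) (nat_lit 20) .nil))))))) (.g (nat_lit 1) (.e (nat_lit 280258) (nat_lit 0) .nil) .nil))))))) 
(.nd (nat_lit 6) (.nd (nat_lit 7) (.nd (nat_lit 8) (.nd (nat_lit 9) 
(.lf (nat_lit 544817) (.g (nat_lit 2664) (.e (nat_lit 114697) (nat_lit 11) (.e (nat_lit 426123) (nat_lit 2) (.e (nat_lit 196666) (nat_lit 13) (.e (nat_lit 65623) (nat_lit 12) .nil)))) (.g (nat_lit 0) (.e (nat_lit 277825) (nat_lit 0) .nil) .nil))) 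
(.lf (nat_lit 545329) (.g (nat_lit 3605) (.e (nat_lit 114714) (nat_lit 22) (.e (nat_lit 90169) (nat_lit 13) (.e (nat_lit 172133) (nat_lit 15) (.e (nat_lit 1800) (nat_lit 119) (.e (nat_lit 516120) (nat_lit 1) (.e (nat_lit 164330) (nat_lit 230) (.e (nat_lit 163850) (nat_lit 0) (.e (nat_lit 3252) (nat_lit 197) (.e (nat_lit 532513) (nat_lit 3) .nil))))))))) (.g (nat_lit 1) (.e (nat_lit 279351) (nat_lit 0) .nil) .nil)))) 
(.nd (nat_lit 9) 
(.lf (nat_lit 545073) (.g (nat_lit 2599) (.e (nat_lit 114698) (nat_lit 11) (.e (nat_lit 426199) (nat_lit 9) (.e (nat_lit 426555) (nat_lit 32) (.e (nat_lit 376860) (nat_lit 21) (.e (nat_lit 57844) (nat_lit 252) (.e (nat_lit 57388) (nat_lit 5) .nil)))))) (.g (nat_lit 1) (.e (nat_lit 278332) (nat_lit 0) .nil) .nil))) 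
(.lf (nat_lit 545585) (.g (nat_lit 1791) (.e (nat_lit 114717) (nat_lit 23) (.e (nat_lit 98334) (nat_lit 18) (.e (nat_lit 164398) (nat_lit 256) (.e (nat_lit 57377) (nat_lit 3) .nil)))) (.g (nat_lit 0) (.e (nat_lit 280040) (nat_lit 0) .nil) .nil))))) (.nd (nat_lit 8) (.nd (nat_lit 9) 
(.lf (nat_lit 544945) (.g (nat_lit 1812) (.e (nat_lit 114697) (nat_lit 11) (.e (nat_lit 426199) (nat_lit 9) (.e (nat_lit 426555) (nat_lit 32) (.e (nat_lit 376858) (nat_lit 21) .nil)))) (.g (nat_lit 0) (.e (nat_lit 277988) (nat_lit 0) .nil) .nil))) 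
(.lf (nat_lit 545457) (.g (nat_lit 2384) (.e (nat_lit 114715) (nat_lit 22) (.e (nat_lit 90170) (nat_lit 13) (.e (nat_lit 172067) (nat_lit 3) (.e (nat_lit 204830) (nat_lit 18) (.e (nat_lit 57690) (nat_lit 156) (.e (nat_lit 163875) (nat_lit 3) (.e (nat_lit 204836) (nat_lit 20) .nil))))))) (.g (nat_lit 1) (.e (nat_lit 279567) (nat_lit 0) .nil) .nil)))) (.nd (nat_lit 9) 
(.lf (nat_lit 545201) (.g (nat_lit 1983) (.e (nat_lit 122624) (nat_lit 11) (.e (nat_lit 426125) (nat_lit 2) (.e (nat_lit 196661) (nat_lit 12) (.e (nat_lit 57740) (nat_lit 187) .nil)))) (.g (nat_lit 0) (.e (nat_lit 278561) (nat_lit 0) .nil) .nil))) 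
(.lf (nat_lit 545713) (.g (nat_lit 2872) (.e (nat_lit 114718) (nat_lit 23) (.e (nat_lit 98367) (nat_lit 27) (.e (nat_lit 434231) (nat_lit 23) (.e (nat_lit 532499) (nat_lit 1) (.e (nat_lit 57687) (nat_lit 156) .nil))))) (.g (nat_lit 0) (.e (nat_lit 280219) (nat_lit 0) .nil) .nil)))))) (.nd (nat_lit 7) (.nd (nat_lit 8) (.nd (nat_lit 9) 
(.lf (nat_lit 544881) (.g (nat_lit 1629) (.e (nat_lit 114697) (nat_lit 11) (.e (nat_lit 426190) (nat_lit 9) (.e (nat_lit 426555) (nat_lit 32) (.e (nat_lit 376856) (nat_lit 21) .nil)))) (.g (nat_lit 0) (.e (nat_lit 277921) (nat_lit 0) .nil) .nil))) 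
(.lf (nat_lit 545393) (.g (nat_lit 3143) (.e (nat_lit 114714) (nat_lit 22) (.e (nat_lit 90174) (nat_lit 14) (.e (nat_lit 180243) (nat_lit 5) (.e (nat_lit 532499) (nat_lit 1) (.e (nat_lit 57691) (nat_lit 156) (.e (nat_lit 163874) (nat_lit 3) (.e (nat_lit 204836) (nat_lit 20) .nil))))))) (.g (nat_lit 1) (.e (nat_lit 279458) (nat_lit 0) .nil) .nil)))) (.nd (nat_lit 9) 
(.lf (nat_lit 545137) (.g (nat_lit 2653) (.e (nat_lit 114698) (nat_lit 11) (.e (nat_lit 426325) (nat_lit 13) (.e (nat_lit 483408) (nat_lit 26) (.e (nat_lit 385109) (nat_lit 51) (.e (nat_lit 802560) (nat_lit 5) .nil))))) (.g (nat_lit 1) (.e (nat_lit 278414) (nat_lit 0) .nil) .nil))) 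
(.lf (nat_lit 545649) (.g (nat_lit 1664) (.e (nat_lit 114718) (nat_lit 23) (.e (nat_lit 98356) (nat_lit 26) (.e (nat_lit 426436) (nat_lit 18) (.e (nat_lit 98334) (nat_lit 18) (.e (nat_lit 164305) (nat_lit 226) .nil))))) (.g (nat_lit 0) (.e (nat_lit 280140) (nat_lit 0) .nil) .nil))))) (.nd (nat_lit 8) (.nd (nat_lit 9) 
(.lf (nat_lit 545009) (.g (nat_lit 1893) (.e (nat_lit 114698) (nat_lit 11) (.e (nat_lit 426188) (nat_lit 9) (.e (nat_lit 426555) (nat_lit 32) (.e (nat_lit 376857) (nat_lit 21) (.e (nat_lit 57848) (nat_lit 252) (.e (nat_lit 57390) (nat_lit 5) .nil)))))) (.g (nat_lit 1) (.e (nat_lit 278266) (nat_lit 0) .nil) .nil))) 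
(.lf (nat_lit 545521) (.g (nat_lit 2153) (.e (nat_lit 114716) (nat_lit 22) (.e (nat_lit 90172) (nat_lit 14) (.e (nat_lit 180244) (nat_lit 5) (.e (nat_lit 532504) (nat_lit 1) (.e (nat_lit 57663) (nat_lit 152) .nil))))) (.g (nat_lit 0) (.e (nat_lit 279796) (nat_lit 0) .nil) .nil)))) (.nd (nat_lit 9) 
(.lf (nat_lit 545265) (.g (nat_lit 361) (.e (nat_lit 122624) (nat_lit 11) (.e (nat_lit 426230) (nat_lit 9) (.e (nat_lit 426554) (nat_lit 32) (.e (nat_lit 384768) (nat_lit 5) .nil)))) (.g (nat_lit 0) (.e (nat_lit 278691) (nat_lit 0) .nil) .nil))) 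
(.lf (nat_lit 545777) (.g (nat_lit 2621) (.e (nat_lit 114718) (nat_lit 23) (.e (nat_lit 98386) (nat_lit 32) (.e (nat_lit 475179) (nat_lit 24) (.e (nat_lit 516120) (nat_lit 1) (.e (nat_lit 164330) (nat_lit 230) .nil))))) (.g (nat_lit 0) (.e (nat_lit 280298) (nat_lit 0) .nil) .nil))))))))) (.nd (nat_lit 4) (.nd (nat_lit 5) (.nd (nat_lit 6) (.nd (nat_lit 7) (.nd (nat_lit 8) (.nd (nat_lit 9) 
(.lf (nat_lit 544777) (.g (nat_lit 1985) (.e (nat_lit 114696) (nat_lit 11) (.e (nat_lit 426232) (nat_lit 9) (.e (nat_lit 426554) (nat_lit 32) (.e (nat_lit 376860) (nat_lit 21) (.e (nat_lit 57854) (nat_lit 252) (.e (nat_lit 57388) (nat_lit 5) .nil)))))) (.g (nat_lit 1) (.e (nat_lit 277749) (nat_lit 0) .nil) .nil))) 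
(.lf (nat_lit 545289) (.g (nat_lit 1698) (.e (nat_lit 114707) (nat_lit 20) (.e (nat_lit 2174) (nat_lit 143) (.e (nat_lit 712745) (nat_lit 27) (.e (nat_lit 426163) (nat_lit 6) .nil)))) (.g (nat_lit 0) (.e (nat_lit 279170) (nat_lit 0) .nil) .nil)))) (.nd (nat_lit 9) 
(.lf (nat_lit 545033) (.g (nat_lit 2328) (.e (nat_lit 114698) (nat_lit 11) (.e (nat_lit 426197) (nat_lit 9) (.e (nat_lit 426546) (nat_lit 30) (.e (nat_lit 360452) (nat_lit 0) (.e (nat_lit 5195) (nat_lit 294) (.e (nat_lit 57390) (nat_lit 5) .nil)))))) (.g (nat_lit 1) (.e (nat_lit 278290) (nat_lit 0) .nil) .nil))) 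
(.lf (nat_lit 545545) (.g (nat_lit 1846) (.e (nat_lit 114716) (nat_lit 22) (.e (nat_lit 90174) (nat_lit 14) (.e (nat_lit 180243) (nat_lit 5) (.e (nat_lit 532503) (nat_lit 1) (.e (nat_lit 57685) (nat_lit 156) (.e (nat_lit 163844) (nat_lit 0) (.e (nat_lit 3230) (nat_lit 197) (.e (nat_lit 532514) (nat_lit 3) .nil)))))))) (.g (nat_lit 1) (.e (nat_lit 279922) (nat_lit 0) .nil) .nil))))) 
(.nd (nat_lit 8) (.nd (nat_lit 9) 
(.lf (nat_lit 544905) (.g (nat_lit 2113) (.e (nat_lit 114697) (nat_lit 11) (.e (nat_lit 426197) (nat_lit 9) (.e (nat_lit 426555) (nat_lit 32) (.e (nat_lit 376859) (nat_lit 21) (.e (nat_lit 57848) (nat_lit 252) (.e (nat_lit 57388) (nat_lit 5) .nil)))))) (.g (nat_lit 1) (.e (nat_lit 277946) (nat_lit 0) .nil) .nil))) 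
(.lf (nat_lit 545417) (.g (nat_lit 2359) (.e (nat_lit 114714) (nat_lit 22) (.e (nat_lit 90196) (nat_lit 18) (.e (nat_lit 2798) (nat_lit 180) (.e (nat_lit 303127) (nat_lit 9) (.e (nat_lit 426568) (nat_lit 34) (.e (nat_lit 401152) (nat_lit 3) .nil)))))) (.g (nat_lit 1) (.e (nat_lit 279490) (nat_lit 0) .nil) .nil)))) (.nd (nat_lit 9) 
(.lf (nat_lit 545161) (.g (nat_lit 1872) (.e (nat_lit 114698) (nat_lit 11) (.e (nat_lit 426334) (nat_lit 13) (.e (nat_lit 483379) (nat_lit 23) (.e (nat_lit 336336) (nat_lit 20) (.e (nat_lit 229120) (nat_lit 5) .nil))))) (.g (nat_lit 1) (.e (nat_lit 278470) (nat_lit 0) .nil) .nil))) 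
(.lf (nat_lit 545673) (.g (nat_lit 2941) (.e (nat_lit 114718) (nat_lit 23) (.e (nat_lit 98365) (nat_lit 26) (.e (nat_lit 426137) (nat_lit 3) (.e (nat_lit 204829) (nat_lit 18) (.e (nat_lit 57692) (nat_lit 156) (.e (nat_lit 163875) (nat_lit 3) (.e (nat_lit 204838) (nat_lit 20) .nil))))))) (.g (nat_lit 1) (.e (nat_lit 280171) (nat_lit 0) .nil) .nil)))))) 
(.nd (nat_lit 7) (.nd (nat_lit 8) (.nd (nat_lit 9) 
(.lf (nat_lit 544841) (.g (nat_lit 1255) (.e (nat_lit 114697) (nat_lit 11) (.e (nat_lit 426133) (nat_lit 3) (.e (nat_lit 204878) (nat_lit 31) .nil))) (.g (nat_lit 0) (.e (nat_lit 277864) (nat_lit 0) .nil) .nil))) 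
(.lf (nat_lit 545353) (.g (nat_lit 2180) (.e (nat_lit 114714) (nat_lit 22) (.e (nat_lit 90172) (nat_lit 14) (.e (nat_lit 180244) (nat_lit 5) (.e (nat_lit 532499) (nat_lit 1) (.e (nat_lit 57659) (nat_lit 152) .nil))))) (.g (nat_lit 0) (.e (nat_lit 279385) (nat_lit 0) .nil) .nil)))) (.nd (nat_lit 9) 
(.lf (nat_lit 545097) (.g (nat_lit 2532) (.e (nat_lit 114698) (nat_lit 11) (.e (nat_lit 426204) (nat_lit 9) (.e (nat_lit 426501) (nat_lit 27) (.e (nat_lit 336076) (nat_lit 9) (.e (nat_lit 336336) (nat_lit 20) (.e (nat_lit 229120) (nat_lit 5) .nil)))))) (.g (nat_lit 1) (.e (nat_lit 278358) (nat_lit 0) .nil) .nil))) 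
(.lf (nat_lit 545609) (.g (nat_lit 2772) (.e (nat_lit 114718) (nat_lit 23) (.e (nat_lit 98333) (nat_lit 18) (.e (nat_lit 164325) (nat_lit 230) (.e (nat_lit 163861) (nat_lit 1) (.e (nat_lit 164398) (nat_lit 256) (.e (nat_lit 57446) (nat_lit 19) (.e (nat_lit 401152) (nat_lit 3) .nil))))))) (.g (nat_lit 1) (.e (nat_lit 280068) (nat_lit 0) .nil) .nil))))) (.nd (nat_lit 8) (.nd (nat_lit 9) 
(.lf (nat_lit 544969) (.g (nat_lit 3060) (.e (nat_lit 114698) (nat_lit 11) (.e (nat_lit 426123) (nat_lit 2) (.e (nat_lit 196666) (nat_lit 13) (.e (nat_lit 65610) (nat_lit 10) (.e (nat_lit 344088) (nat_lit 18) .nil))))) (.g (nat_lit 0) (.e (nat_lit 278156) (nat_lit 0) .nil) .nil))) 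
(.lf (nat_lit 545481) (.g (nat_lit 1263) (.e (nat_lit 114715) (nat_lit 22) (.e (nat_lit 90174) (nat_lit 14) (.e (nat_lit 180243) (nat_lit 5) (.e (nat_lit 532503) (nat_lit 1) .nil)))) (.g (nat_lit 0) (.e (nat_lit 279593) (nat_lit 0) .nil) .nil)))) (.nd (nat_lit 9) 
(.lf (nat_lit 545225) (.g (nat_lit 2056) (.e (nat_lit 122624) (nat_lit 11) (.e (nat_lit 426133) (nat_lit 3) (.e (nat_lit 204861) (nat_lit 26) (.e (nat_lit 336194) (nat_lit 12) (.e (nat_lit 385066) (nat_lit 26) .nil))))) (.g (nat_lit 0) (.e (nat_lit 278621) (nat_lit 0) .nil) .nil))) 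
(.lf (nat_lit 545737) (.g (nat_lit 3737) (.e (nat_lit 114718) (nat_lit 23) (.e (nat_lit 98384) (nat_lit 32) (.e (nat_lit 475177) (nat_lit 24) (.e (nat_lit 516115) (nat_lit 1) (.e (nat_lit 164327) (nat_lit 230) (.e (nat_lit 163875) (nat_lit 3) (.e (nat_lit 204836) (nat_lit 20) .nil))))))) (.g (nat_lit 1) (.e (nat_lit 280249) (nat_lit 0) .nil) .nil))))))) 
(.nd (nat_lit 6) (.nd (nat_lit 7) (.nd (nat_lit 8) (.nd (nat_lit 9) 
(.lf (nat_lit 544809) (.g (nat_lit 2836) (.e (nat_lit 114697) (nat_lit 11) (.e (nat_lit 426122) (nat_lit 2) (.e (nat_lit 196666) (nat_lit 13) (.e (nat_lit 65622) (nat_lit 12) (.e (nat_lit 385068) (nat_lit 26) (.e (nat_lit 532513) (nat_lit 3) .nil)))))) (.g (nat_lit 1) (.e (nat_lit 277807) (nat_lit 0) .nil) .nil))) 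
(.lf (nat_lit 545321) (.g (nat_lit 3192) (.e (nat_lit 114712) (nat_lit 21) (.e (nat_lit 57930) (nat_lit 282) (.e (nat_lit 163923) (nat_lit 15) (.e (nat_lit 450587) (nat_lit 10) (.e (nat_lit 573477) (nat_lit 12) (.e (nat_lit 57361) (nat_lit 0) (.e (nat_lit 5947) (nat_lit 322) (.e (nat_lit 57389) (nat_lit 5) .nil)))))))) (.g (nat_lit 1) (.e (nat_lit 279330) (nat_lit 0) .nil) .nil)))) 
(.nd (nat_lit 9) 
(.lf (nat_lit 545065) (.g (nat_lit 1991) (.e (nat_lit 114698) (nat_lit 11) (.e (nat_lit 426199) (nat_lit 9) (.e (nat_lit 426506) (nat_lit 27) (.e (nat_lit 336089) (nat_lit 9) (.e (nat_lit 336336) (nat_lit 20) (.e (nat_lit 229120) (nat_lit 5) .nil)))))) (.g (nat_lit 1) (.e (nat_lit 278324) (nat_lit 0) .nil) .nil))) 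
(.lf (nat_lit 545577) (.g (nat_lit 1890) (.e (nat_lit 114717) (nat_lit 23) (.e (nat_lit 98333) (nat_lit 18) (.e (nat_lit 164403) (nat_lit 256) (.e (nat_lit 57377) (nat_lit 3) .nil)))) (.g (nat_lit 0) (.e (nat_lit 280024) (nat_lit 0) .nil) .nil))))) (.nd (nat_lit 8) (.nd (nat_lit 9) 
(.lf (nat_lit 544937) (.g (nat_lit 3070) (.e (nat_lit 114697) (nat_lit 11) (.e (nat_lit 426198) (nat_lit 9) (.e (nat_lit 426555) (nat_lit 32) (.e (nat_lit 376860) (nat_lit 21) (.e (nat_lit 57851) (nat_lit 252) (.e (nat_lit 57389) (nat_lit 5) .nil)))))) (.g (nat_lit 1) (.e (nat_lit 277980) (nat_lit 0) .nil) .nil))) 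
(.lf (nat_lit 545449) (.g (nat_lit 4031) (.e (nat_lit 114715) (nat_lit 22) (.e (nat_lit 90170) (nat_lit 13) (.e (nat_lit 172067) (nat_lit 3) (.e (nat_lit 204829) (nat_lit 18) (.e (nat_lit 57688) (nat_lit 156) (.e (nat_lit 163875) (nat_lit 3) (.e (nat_lit 204838) (nat_lit 20) .nil))))))) (.g (nat_lit 1) (.e (nat_lit 279557) (nat_lit 0) .nil) .nil)))) (.nd (nat_lit 9) 
(.lf (nat_lit 545193) (.g (nat_lit 2063) (.e (nat_lit 114698) (nat_lit 11) (.e (nat_lit 426335) (nat_lit 13) (.e (nat_lit 483405) (nat_lit 26) (.e (nat_lit 385109) (nat_lit 51) (.e (nat_lit 802560) (nat_lit 5) .nil))))) (.g (nat_lit 1) (.e (nat_lit 278519) (nat_lit 0) .nil) .nil))) 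
(.lf (nat_lit 545705) (.g (nat_lit 1685) (.e (nat_lit 114718) (nat_lit 23) (.e (nat_lit 98366) (nat_lit 27) (.e (nat_lit 434232) (nat_lit 23) (.e (nat_lit 532503) (nat_lit 1) (.e (nat_lit 57688) (nat_lit 156) .nil))))) (.g (nat_lit 0) (.e (nat_lit 280205) (nat_lit 0) .nil) .nil)))))) (.nd (nat_lit 7) (.nd (nat_lit 8) (.nd (nat_lit 9) 
(.lf (nat_lit 544873) (.g (nat_lit 3132) (.e (nat_lit 114697) (nat_lit 11) (.e (nat_lit 426188) (nat_lit 9) (.e (nat_lit 426555) (nat_lit 32) (.e (nat_lit 376857) (nat_lit 21) (.e (nat_lit 57849) (nat_lit 252) (.e (nat_lit 57390) (nat_lit 5) .nil)))))) (.g (nat_lit 1) (.e (nat_lit 277913) (nat_lit 0) .nil) .nil))) 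
(.lf (nat_lit 545385) (.g (nat_lit 2320) (.e (nat_lit 114714) (nat_lit 22) (.e (nat_lit 90174) (nat_lit 14) (.e (nat_lit 180243) (nat_lit 5) (.e (nat_lit 532499) (nat_lit 1) (.e (nat_lit 57652) (nat_lit 152) .nil))))) (.g (nat_lit 0) (.e (nat_lit 279446) (nat_lit 0) .nil) .nil)))) (.nd (nat_lit 9) 
(.lf (nat_lit 545129) (.g (nat_lit 2638) (.e (nat_lit 114698) (nat_lit 11) (.e (nat_lit 426325) (nat_lit 13) (.e (nat_lit 483403) (nat_lit 26) (.e (nat_lit 385109) (nat_lit 51) (.e (nat_lit 802560) (nat_lit 5) .nil))))) (.g (nat_lit 1) (.e (nat_lit 278406) (nat_lit 0) .nil) .nil))) 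
(.lf (nat_lit 545641) (.g (nat_lit 1786) (.e (nat_lit 114718) (nat_lit 23) (.e (nat_lit 98335) (nat_lit 18) (.e (nat_lit 164403) (nat_lit 256) (.e (nat_lit 57369) (nat_lit 2) .nil)))) (.g (nat_lit 0) (.e (nat_lit 280130) (nat_lit 0) .nil) .nil))))) (.nd (nat_lit 8) (.nd (nat_lit 9) 
(.lf (nat_lit 545001) (.g (nat_lit 3632) (.e (nat_lit 114698) (nat_lit 11) (.e (nat_lit 426139) (nat_lit 3) (.e (nat_lit 204869) (nat_lit 29) (.e (nat_lit 360451) (nat_lit 0) (.e (nat_lit 4011) (nat_lit 243) (.e (nat_lit 171776) (nat_lit 66) .nil)))))) (.g (nat_lit 1) (.e (nat_lit 278249) (nat_lit 0) .nil) .nil))) 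
(.lf (nat_lit 545513) (.g (nat_lit 2395) (.e (nat_lit 114716) (nat_lit 22) (.e (nat_lit 90172) (nat_lit 14) (.e (nat_lit 180244) (nat_lit 5) (.e (nat_lit 532499) (nat_lit 1) (.e (nat_lit 57687) (nat_lit 156) (.e (nat_lit 163844) (nat_lit 0) (.e (nat_lit 3230) (nat_lit 197) (.e (nat_lit 532514) (nat_lit 3) .nil)))))))) (.g (nat_lit 1) (.e (nat_lit 279726) (nat_lit 0) .nil) .nil)))) 
(.nd (nat_lit 9) 
(.lf (nat_lit 545257) (.g (nat_lit 1847) (.e (nat_lit 122624) (nat_lit 11) (.e (nat_lit 426200) (nat_lit 9) (.e (nat_lit 426555) (nat_lit 32) (.e (nat_lit 376857) (nat_lit 21) .nil)))) (.g (nat_lit 0) (.e (nat_lit 278683) (nat_lit 0) .nil) .nil))) 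
(.lf (nat_lit 545769) (.g (nat_lit 3599) (.e (nat_lit 114718) (nat_lit 23) (.e (nat_lit 98384) (nat_lit 32) (.e (nat_lit 475179) (nat_lit 24) (.e (nat_lit 516120) (nat_lit 1) (.e (nat_lit 164329) (nat_lit 230) (.e (nat_lit 163850) (nat_lit 0) (.e (nat_lit 3252) (nat_lit 197) (.e (nat_lit 532515) (nat_lit 3) .nil)))))))) (.g (nat_lit 1) (.e (nat_lit 280289) (nat_lit 0) .nil) .nil)))))))) 
(.nd (nat_lit 5) (.nd (nat_lit 6) (.nd (nat_lit 7) (.nd (nat_lit 8) (.nd (nat_lit 9) 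
(.lf (nat_lit 544793) (.g (nat_lit 1904) (.e (nat_lit 114696) (nat_lit 11) (.e (nat_lit 426262) (nat_lit 9) (.e (nat_lit 426554) (nat_lit 32) (.e (nat_lit 376857) (nat_lit 21) (.e (nat_lit 57854) (nat_lit 252) (.e (nat_lit 57388) (nat_lit 5) .nil)))))) (.g (nat_lit 1) (.e (nat_lit 277765) (nat_lit 0) .nil) .nil))) 
(.lf (nat_lit 545305) (.g (nat_lit 2219) (.e (nat_lit 114710) (nat_lit 21) (.e (nat_lit 57852) (nat_lit 252) (.e (nat_lit 57400) (nat_lit 10) (.e (nat_lit 319490) (nat_lit 0) (.e (nat_lit 5259) (nat_lit 298) (.e (nat_lit 453) (nat_lit 34) (.e (nat_lit 450304) (nat_lit 5) .nil))))))) (.g (nat_lit 1) (.e (nat_lit 279204) (nat_lit 0) .nil) .nil)))) (.nd (nat_lit 9) 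
(.lf (nat_lit 545049) (.g (nat_lit 1162) (.e (nat_lit 114698) (nat_lit 11) (.e (nat_lit 426198) (nat_lit 9) (.e (nat_lit 426540) (nat_lit 29) (.e (nat_lit 352308) (nat_lit 21) .nil)))) (.g (nat_lit 0) (.e (nat_lit 278308) (nat_lit 0) .nil) .nil))) 
(.lf (nat_lit 545561) (.g (nat_lit 1960) (.e (nat_lit 114716) (nat_lit 22) (.e (nat_lit 90196) (nat_lit 18) (.e (nat_lit 2798) (nat_lit 180) (.e (nat_lit 303127) (nat_lit 9) (.e (nat_lit 426567) (nat_lit 34) (.e (nat_lit 401152) (nat_lit 3) .nil)))))) (.g (nat_lit 1) (.e (nat_lit 279996) (nat_lit 0) .nil) .nil))))) (.nd (nat_lit 8) (.nd (nat_lit 9) 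
(.lf (nat_lit 544921) (.g (nat_lit 2917) (.e (nat_lit 114697) (nat_lit 11) (.e (nat_lit 426198) (nat_lit 9) (.e (nat_lit 426542) (nat_lit 29) (.e (nat_lit 352309) (nat_lit 21) (.e (nat_lit 57849) (nat_lit 252) (.e (nat_lit 57390) (nat_lit 5) .nil)))))) (.g (nat_lit 1) (.e (nat_lit 277963) (nat_lit 0) .nil) .nil))) 
(.lf (nat_lit 545433) (.g (nat_lit 5224) (.e (nat_lit 114715) (nat_lit 22) (.e (nat_lit 90170) (nat_lit 13) (.e (nat_lit 172065) (nat_lit 3) (.e (nat_lit 204830) (nat_lit 18) (.e (nat_lit 57691) (nat_lit 156) (.e (nat_lit 163875) (nat_lit 3) (.e (nat_lit 204837) (nat_lit 20) .nil))))))) (.g (nat_lit 1) (.e (nat_lit 279535) (nat_lit 0) .nil) .nil)))) (.nd (nat_lit 9) 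
(.lf (nat_lit 545177) (.g (nat_lit 1857) (.e (nat_lit 114698) (nat_lit 11) (.e (nat_lit 426335) (nat_lit 13) (.e (nat_lit 483382) (nat_lit 23) (.e (nat_lit 336334) (nat_lit 20) (.e (nat_lit 229120) (nat_lit 5) .nil))))) (.g (nat_lit 1) (.e (nat_lit 278496) (nat_lit 0) .nil) .nil))) 
(.lf (nat_lit 545689) (.g (nat_lit 2732) (.e (nat_lit 114718) (nat_lit 23) (.e (nat_lit 98366) (nat_lit 27) (.e (nat_lit 434231) (nat_lit 23) (.e (nat_lit 532500) (nat_lit 1) (.e (nat_lit 57689) (nat_lit 156) .nil))))) (.g (nat_lit 0) (.e (nat_lit 280189) (nat_lit 0) .nil) .nil)))))) (.nd (nat_lit 7) (.nd (nat_lit 8) (.nd (nat_lit 9) 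
(.lf (nat_lit 544857) (.g (nat_lit 672) (.e (nat_lit 114697) (nat_lit 11) (.e (nat_lit 426139) (nat_lit 3) (.e (nat_lit 204850) (nat_lit 26) .nil))) (.g (nat_lit 0) (.e (nat_lit 277886) (nat_lit 0) .nil) .nil))) 
(.lf (nat_lit 545369) (.g (nat_lit 2825) (.e (nat_lit 114714) (nat_lit 22) (.e (nat_lit 90172) (nat_lit 14) (.e (nat_lit 180244) (nat_lit 5) (.e (nat_lit 532503) (nat_lit 1) (.e (nat_lit 57652) (nat_lit 152) (.e (nat_lit 2615) (nat_lit 163) (.e (nat_lit 163962) (nat_lit 25) (.e (nat_lit 532513) (nat_lit 3) .nil)))))))) (.g (nat_lit 1) (.e (nat_lit 279415) (nat_lit 0) .nil) .nil)))) 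
(.nd (nat_lit 9) 
(.lf (nat_lit 545113) (.g (nat_lit 4708) (.e (nat_lit 114698) (nat_lit 11) (.e (nat_lit 426306) (nat_lit 12) (.e (nat_lit 475214) (nat_lit 42) (.e (nat_lit 720955) (nat_lit 25) (.e (nat_lit 114712) (nat_lit 21) (.e (nat_lit 57692) (nat_lit 156) (.e (nat_lit 171776) (nat_lit 66) .nil))))))) (.g (nat_lit 1) (.e (nat_lit 278374) (nat_lit 0) .nil) .nil))) 
(.lf (nat_lit 545625) (.g (nat_lit 5348) (.e (nat_lit 114718) (nat_lit 23) (.e (nat_lit 98334) (nat_lit 18) (.e (nat_lit 164330) (nat_lit 230) (.e (nat_lit 163869) (nat_lit 2) (.e (nat_lit 196656) (nat_lit 11) (.e (nat_lit 16416) (nat_lit 3) (.e (nat_lit 204837) (nat_lit 20) .nil))))))) (.g (nat_lit 1) (.e (nat_lit 280103) (nat_lit 0) .nil) .nil))))) (.nd (nat_lit 8) (.nd (nat_lit 9) 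
(.lf (nat_lit 544985) (.g (nat_lit 1477) (.e (nat_lit 114698) (nat_lit 11) (.e (nat_lit 426133) (nat_lit 3) (.e (nat_lit 204876) (nat_lit 31) (.e (nat_lit 384768) (nat_lit 3) .nil)))) (.g (nat_lit 0) (.e (nat_lit 278206) (nat_lit 0) .nil) .nil))) 
(.lf (nat_lit 545497) (.g (nat_lit 1062) (.e (nat_lit 114716) (nat_lit 22) (.e (nat_lit 90170) (nat_lit 13) (.e (nat_lit 172064) (nat_lit 2) .nil))) (.g (nat_lit 0) (.e (nat_lit 279633) (nat_lit 0) .nil) .nil)))) (.nd (nat_lit 9) 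
(.lf (nat_lit 545241) (.g (nat_lit 1966) (.e (nat_lit 122624) (nat_lit 11) (.e (nat_lit 426173) (nat_lit 7) (.e (nat_lit 409649) (nat_lit 18) (.e (nat_lit 303142) (nat_lit 12) .nil)))) (.g (nat_lit 0) (.e (nat_lit 278666) (nat_lit 0) .nil) .nil))) 
(.lf (nat_lit 545753) (.g (nat_lit 4851) (.e (nat_lit 114718) (nat_lit 23) (.e (nat_lit 98384) (nat_lit 32) (.e (nat_lit 475179) (nat_lit 24) (.e (nat_lit 516115) (nat_lit 1) (.e (nat_lit 164327) (nat_lit 230) (.e (nat_lit 163875) (nat_lit 3) (.e (nat_lit 204838) (nat_lit 20) .nil))))))) (.g (nat_lit 1) (.e (nat_lit 280266) (nat_lit 0) .nil) .nil))))))) 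
(.nd (nat_lit 6) (.nd (nat_lit 7) (.nd (nat_lit 8) (.nd (nat_lit 9) 
(.lf (nat_lit 544825) (.g (nat_lit 1188) (.e (nat_lit 114697) (nat_lit 11) (.e (nat_lit 426133) (nat_lit 3) (.e (nat_lit 204859) (nat_lit 26) (.e (nat_lit 336118) (nat_lit 9) .nil)))) (.g (nat_lit 0) (.e (nat_lit 277846) (nat_lit 0) .nil) .nil))) 
(.lf (nat_lit 545337) (.g (nat_lit 3429) (.e (nat_lit 114714) (nat_lit 22) (.e (nat_lit 90172) (nat_lit 14) (.e (nat_lit 180243) (nat_lit 5) (.e (nat_lit 532499) (nat_lit 1) (.e (nat_lit 57654) (nat_lit 152) (.e (nat_lit 2399) (nat_lit 157) (.e (nat_lit 2685) (nat_lit 168) (.e (nat_lit 204837) (nat_lit 20) .nil)))))))) (.g (nat_lit 1) (.e (nat_lit 279359) (nat_lit 0) .nil) .nil)))) 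
(.nd (nat_lit 9) 
(.lf (nat_lit 545081) (.g (nat_lit 2184) (.e (nat_lit 114698) (nat_lit 11) (.e (nat_lit 426200) (nat_lit 9) (.e (nat_lit 426494) (nat_lit 27) (.e (nat_lit 336084) (nat_lit 9) (.e (nat_lit 336336) (nat_lit 20) (.e (nat_lit 229120) (nat_lit 5) .nil)))))) (.g (nat_lit 1) (.e (nat_lit 278340) (nat_lit 0) .nil) .nil))) 
(.lf (nat_lit 545593) (.g (nat_lit 2888) (.e (nat_lit 114717) (nat_lit 23) (.e (nat_lit 98335) (nat_lit 18) (.e (nat_lit 164403) (nat_lit 256) (.e (nat_lit 57378) (nat_lit 3) (.e (nat_lit 98366) (nat_lit 27) .nil))))) (.g (nat_lit 0) (.e (nat_lit 280048) (nat_lit 0) .nil) .nil))))) (.nd (nat_lit 8) (.nd (nat_lit 9) 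
(.lf (nat_lit 544953) (.g (nat_lit 2208) (.e (nat_lit 114697) (nat_lit 11) (.e (nat_lit 426200) (nat_lit 9) (.e (nat_lit 426555) (nat_lit 32) (.e (nat_lit 376857) (nat_lit 21) (.e (nat_lit 57848) (nat_lit 252) (.e (nat_lit 57390) (nat_lit 5) .nil)))))) (.g (nat_lit 1) (.e (nat_lit 277996) (nat_lit 0) .nil) .nil))) 
(.lf (nat_lit 545465) (.g (nat_lit 2987) (.e (nat_lit 114715) (nat_lit 22) (.e (nat_lit 90170) (nat_lit 13) (.e (nat_lit 172067) (nat_lit 3) (.e (nat_lit 204831) (nat_lit 18) (.e (nat_lit 57688) (nat_lit 156) (.e (nat_lit 163874) (nat_lit 3) (.e (nat_lit 204837) (nat_lit 20) .nil))))))) (.g (nat_lit 1) (.e (nat_lit 279576) (nat_lit 0) .nil) .nil)))) (.nd (nat_lit 9) 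
(.lf (nat_lit 545209) (.g (nat_lit 1557) (.e (nat_lit 122624) (nat_lit 11) (.e (nat_lit 426125) (nat_lit 2) (.e (nat_lit 196679) (nat_lit 17) (.e (nat_lit 131107) (nat_lit 9) (.e (nat_lit 336324) (nat_lit 18) .nil))))) (.g (nat_lit 0) (.e (nat_lit 278583) (nat_lit 0) .nil) .nil))) 
(.lf (nat_lit 545721) (.g (nat_lit 2805) (.e (nat_lit 114718) (nat_lit 23) (.e (nat_lit 98367) (nat_lit 27) (.e (nat_lit 434231) (nat_lit 23) (.e (nat_lit 532500) (nat_lit 1) (.e (nat_lit 57690) (nat_lit 156) .nil))))) (.g (nat_lit 0) (.e (nat_lit 280230) (nat_lit 0) .nil) .nil)))))) (.nd (nat_lit 7) (.nd (nat_lit 8) (.nd (nat_lit 9) 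
(.lf (nat_lit 544889) (.g (nat_lit 1755) (.e (nat_lit 114697) (nat_lit 11) (.e (nat_lit 426190) (nat_lit 9) (.e (nat_lit 426555) (nat_lit 32) (.e (nat_lit 376858) (nat_lit 21) (.e (nat_lit 57854) (nat_lit 252) .nil))))) (.g (nat_lit 0) (.e (nat_lit 277929) (nat_lit 0) .nil) .nil))) 
(.lf (nat_lit 545401) (.g (nat_lit 2193) (.e (nat_lit 114714) (nat_lit 22) (.e (nat_lit 90174) (nat_lit 14) (.e (nat_lit 180243) (nat_lit 5) (.e (nat_lit 532503) (nat_lit 1) (.e (nat_lit 57652) (nat_lit 152) .nil))))) (.g (nat_lit 0) (.e (nat_lit 279467) (nat_lit 0) .nil) .nil)))) (.nd (nat_lit 9) 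
(.lf (nat_lit 545145) (.g (nat_lit 2501) (.e (nat_lit 114698) (nat_lit 11) (.e (nat_lit 426327) (nat_lit 13) (.e (nat_lit 483380) (nat_lit 23) (.e (nat_lit 336336) (nat_lit 20) (.e (nat_lit 229120) (nat_lit 5) .nil))))) (.g (nat_lit 1) (.e (nat_lit 278426) (nat_lit 0) .nil) .nil))) 
(.lf (nat_lit 545657) (.g (nat_lit 2823) (.e (nat_lit 114718) (nat_lit 23) (.e (nat_lit 98356) (nat_lit 26) (.e (nat_lit 426436) (nat_lit 18) (.e (nat_lit 98335) (nat_lit 18) (.e (nat_lit 164330) (nat_lit 230) .nil))))) (.g (nat_lit 0) (.e (nat_lit 280151) (nat_lit 0) .nil) .nil))))) (.nd (nat_lit 8) (.nd (nat_lit 9) 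
(.lf (nat_lit 545017) (.g (nat_lit 3542) (.e (nat_lit 114698) (nat_lit 11) (.e (nat_lit 426190) (nat_lit 9) (.e (nat_lit 426555) (nat_lit 32) (.e (nat_lit 376857) (nat_lit 21) (.e (nat_lit 57853) (nat_lit 252) (.e (nat_lit 57388) (nat_lit 5) .nil)))))) (.g (nat_lit 1) (.e (nat_lit 278274) (nat_lit 0) .nil) .nil))) 
(.lf (nat_lit 545529) (.g (nat_lit 1029) (.e (nat_lit 114716) (nat_lit 22) (.e (nat_lit 90174) (nat_lit 14) (.e (nat_lit 180243) (nat_lit 5) (.e (nat_lit 532484) (nat_lit 0) .nil)))) (.g (nat_lit 0) (.e (nat_lit 279826) (nat_lit 0) .nil) .nil)))) (.nd (nat_lit 9) 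
(.lf (nat_lit 545273) (.g (nat_lit 2084) (.e (nat_lit 122624) (nat_lit 11) (.e (nat_lit 426568) (nat_lit 34) (.e (nat_lit 393260) (nat_lit 21) (.e (nat_lit 409616) (nat_lit 10) (.e (nat_lit 604) (nat_lit 45) .nil))))) (.g (nat_lit 0) (.e (nat_lit 278747) (nat_lit 0) .nil) .nil))) 
(.lf (nat_lit 545785) (.g (nat_lit 4569) (.e (nat_lit 114719) (nat_lit 23) (.e (nat_lit 98333) (nat_lit 18) (.e (nat_lit 164327) (nat_lit 230) (.e (nat_lit 163868) (nat_lit 2) (.e (nat_lit 196656) (nat_lit 11) (.e (nat_lit 16416) (nat_lit 3) (.e (nat_lit 204837) (nat_lit 20) .nil))))))) (.g (nat_lit 1) (.e (nat_lit 280311) (nat_lit 0) .nil) .nil)))))))))) 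
(.nd (nat_lit 3) (.nd (nat_lit 4) (.nd (nat_lit 5) (.nd (nat_lit 6) (.nd (nat_lit 7) 
(.nd (nat_lit 8) (.nd (nat_lit 9) 
(.lf (nat_lit 544773) (.g (nat_lit 1792) (.e (nat_lit 114696) (nat_lit 11) (.e (nat_lit 426232) (nat_lit 9) (.e (nat_lit 426554) (nat_lit 32) (.e (nat_lit 376859) (nat_lit 21) (.e (nat_lit 57849) (nat_lit 252) (.e (nat_lit 57390) (nat_lit 5) .nil)))))) (.g (nat_lit 1) (.e (nat_lit 277745) (nat_lit 0) .nil) .nil))) 
(.lf (nat_lit 545285) (.g (nat_lit 2060) (.e (nat_lit 114706) (nat_lit 20) (.e (nat_lit 1796) (nat_lit 119) (.e (nat_lit 516116) (nat_lit 1) (.e (nat_lit 164398) (nat_lit 256) (.e (nat_lit 57373) (nat_lit 2) .nil))))) (.g (nat_lit 0) (.e (nat_lit 279166) (nat_lit 0) .nil) .nil)))) (.nd (nat_lit 9) 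
(.lf (nat_lit 545029) (.g (nat_lit 2238) (.e (nat_lit 114698) (nat_lit 11) (.e (nat_lit 426197) (nat_lit 9) (.e (nat_lit 426542) (nat_lit 29) (.e (nat_lit 352309) (nat_lit 21) (.e (nat_lit 57853) (nat_lit 252) (.e (nat_lit 57388) (nat_lit 5) .nil)))))) (.g (nat_lit 1) (.e (nat_lit 278286) (nat_lit 0) .nil) .nil))) 
(.lf (nat_lit 545541) (.g (nat_lit 2042) (.e (nat_lit 114716) (nat_lit 22) (.e (nat_lit 90174) (nat_lit 14) (.e (nat_lit 180243) (nat_lit 5) (.e (nat_lit 532501) (nat_lit 1) (.e (nat_lit 57689) (nat_lit 156) .nil))))) (.g (nat_lit 0) (.e (nat_lit 279887) (nat_lit 0) .nil) .nil))))) (.nd (nat_lit 8) (.nd (nat_lit 9) 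
(.lf (nat_lit 544901) (.g (nat_lit 2277) (.e (nat_lit 114697) (nat_lit 11) (.e (nat_lit 426197) (nat_lit 9) (.e (nat_lit 426555) (nat_lit 32) (.e (nat_lit 376857) (nat_lit 21) (.e (nat_lit 57852) (nat_lit 252) (.e (nat_lit 57388) (nat_lit 5) .nil)))))) (.g (nat_lit 1) (.e (nat_lit 277942) (nat_lit 0) .nil) .nil))) 
(.lf (nat_lit 545413) (.g (nat_lit 2846) (.e (nat_lit 114714) (nat_lit 22) (.e (nat_lit 90196) (nat_lit 18) (.e (nat_lit 2797) (nat_lit 180) (.e (nat_lit 303127) (nat_lit 9) (.e (nat_lit 426568) (nat_lit 34) (.e (nat_lit 401152) (nat_lit 3) .nil)))))) (.g (nat_lit 1) (.e (nat_lit 279484) (nat_lit 0) .nil) .nil)))) (.nd (nat_lit 9) 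
(.lf (nat_lit 545157) (.g (nat_lit 2312) (.e (nat_lit 114698) (nat_lit 11) (.e (nat_lit 426333) (nat_lit 13) (.e (nat_lit 483383) (nat_lit 23) (.e (nat_lit 336336) (nat_lit 20) (.e (nat_lit 229120) (nat_lit 5) .nil))))) (.g (nat_lit 1) (.e (nat_lit 278459) (nat_lit 0) .nil) .nil))) 
(.lf (nat_lit 545669) (.g (nat_lit 871) (.e (nat_lit 114718) (nat_lit 23) (.e (nat_lit 98358) (nat_lit 26) (.e (nat_lit 426438) (nat_lit 18) .nil))) (.g (nat_lit 0) (.e (nat_lit 280165) (nat_lit 0) .nil) .nil)))))) (.nd (nat_lit 7) (.nd (nat_lit 8) (.nd (nat_lit 9) 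
(.lf (nat_lit 544837) (.g (nat_lit 1133) (.e (nat_lit 114697) (nat_lit 11) (.e (nat_lit 426133) (nat_lit 3) (.e (nat_lit 204865) (nat_lit 28) .nil))) (.g (nat_lit 0) (.e (nat_lit 277859) (nat_lit 0) .nil) .nil))) 
(.lf (nat_lit 545349) (.g (nat_lit 2873) (.e (nat_lit 114714) (nat_lit 22) (.e (nat_lit 90172) (nat_lit 14) (.e (nat_lit 180244) (nat_lit 5) (.e (nat_lit 532499) (nat_lit 1) (.e (nat_lit 57652) (nat_lit 152) (.e (nat_lit 2603) (nat_lit 163) (.e (nat_lit 163962) (nat_lit 25) (.e (nat_lit 532513) (nat_lit 3) .nil)))))))) (.g (nat_lit 1) (.e (nat_lit 279379) (nat_lit 0) .nil) .nil)))) 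
(.nd (nat_lit 9) 
(.lf (nat_lit 545093) (.g (nat_lit 2049) (.e (nat_lit 114698) (nat_lit 11) (.e (nat_lit 426200) (nat_lit 9) (.e (nat_lit 426555) (nat_lit 32) (.e (nat_lit 376860) (nat_lit 21) (.e (nat_lit 57852) (nat_lit 252) .nil))))) (.g (nat_lit 0) (.e (nat_lit 278353) (nat_lit 0) .nil) .nil))) 
(.lf (nat_lit 545605) (.g (nat_lit 1986) (.e (nat_lit 114717) (nat_lit 23) (.e (nat_lit 98384) (nat_lit 32) (.e (nat_lit 475179) (nat_lit 24) (.e (nat_lit 516117) (nat_lit 1) .nil)))) (.g (nat_lit 0) (.e (nat_lit 280060) (nat_lit 0) .nil) .nil))))) (.nd (nat_lit 8) (.nd (nat_lit 9) 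
(.lf (nat_lit 544965) (.g (nat_lit 3115) (.e (nat_lit 114698) (nat_lit 11) (.e (nat_lit 426122) (nat_lit 2) (.e (nat_lit 196681) (nat_lit 17) (.e (nat_lit 131109) (nat_lit 9) (.e (nat_lit 336324) (nat_lit 18) (.e (nat_lit 204837) (nat_lit 20) .nil)))))) (.g (nat_lit 1) (.e (nat_lit 278147) (nat_lit 0) .nil) .nil))) 
(.lf (nat_lit 545477) (.g (nat_lit 2067) (.e (nat_lit 114715) (nat_lit 22) (.e (nat_lit 90174) (nat_lit 14) (.e (nat_lit 180243) (nat_lit 5) (.e (nat_lit 532499) (nat_lit 1) (.e (nat_lit 57692) (nat_lit 156) .nil))))) (.g (nat_lit 0) (.e (nat_lit 279589) (nat_lit 0) .nil) .nil)))) (.nd (nat_lit 9) 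
(.lf (nat_lit 545221) (.g (nat_lit 1522) (.e (nat_lit 122624) (nat_lit 11) (.e (nat_lit 426133) (nat_lit 3) (.e (nat_lit 204861) (nat_lit 26) (.e (nat_lit 336076) (nat_lit 9) .nil)))) (.g (nat_lit 0) (.e (nat_lit 278614) (nat_lit 0) .nil) .nil))) 
(.lf (nat_lit 545733) (.g (nat_lit 3525) (.e (nat_lit 114718) (nat_lit 23) (.e (nat_lit 98367) (nat_lit 27) (.e (nat_lit 434232) (nat_lit 23) (.e (nat_lit 532504) (nat_lit 1) (.e (nat_lit 57691) (nat_lit 156) (.e (nat_lit 163875) (nat_lit 3) (.e (nat_lit 204836) (nat_lit 20) .nil))))))) (.g (nat_lit 1) (.e (nat_lit 280242) (nat_lit 0) .nil) .nil))))))) 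
(.nd (nat_lit 6) (.nd (nat_lit 7) (.nd (nat_lit 8) (.nd (nat_lit 9) 
(.lf (nat_lit 544805) (.g (nat_lit 1049) (.e (nat_lit 114697) (nat_lit 11) (.e (nat_lit 426115) (nat_lit 2) (.e (nat_lit 196681) (nat_lit 17) (.e (nat_lit 131109) (nat_lit 9) (.e (nat_lit 336324) (nat_lit 18) .nil))))) (.g (nat_lit 0) (.e (nat_lit 277790) (nat_lit 0) .nil) .nil))) 
(.lf (nat_lit 545317) (.g (nat_lit 1779) (.e (nat_lit 114712) (nat_lit 21) (.e (nat_lit 57930) (nat_lit 282) (.e (nat_lit 163923) (nat_lit 15) (.e (nat_lit 450581) (nat_lit 5) (.e (nat_lit 532578) (nat_lit 26) (.e (nat_lit 433920) (nat_lit 20) .nil)))))) (.g (nat_lit 1) (.e (nat_lit 279326) (nat_lit 0) .nil) .nil)))) (.nd (nat_lit 9) 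
(.lf (nat_lit 545061) (.g (nat_lit 2906) (.e (nat_lit 114698) (nat_lit 11) (.e (nat_lit 426198) (nat_lit 9) (.e (nat_lit 426555) (nat_lit 32) (.e (nat_lit 376859) (nat_lit 21) (.e (nat_lit 57847) (nat_lit 252) (.e (nat_lit 57389) (nat_lit 5) .nil)))))) (.g (nat_lit 1) (.e (nat_lit 278320) (nat_lit 0) .nil) .nil))) 
(.lf (nat_lit 545573) (.g (nat_lit 2426) (.e (nat_lit 114717) (nat_lit 23) (.e (nat_lit 98333) (nat_lit 18) (.e (nat_lit 164399) (nat_lit 256) (.e (nat_lit 57375) (nat_lit 2) (.e (nat_lit 90167) (nat_lit 13) .nil))))) (.g (nat_lit 0) (.e (nat_lit 280018) (nat_lit 0) .nil) .nil))))) (.nd (nat_lit 8) (.nd (nat_lit 9) 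
(.lf (nat_lit 544933) (.g (nat_lit 3217) (.e (nat_lit 114697) (nat_lit 11) (.e (nat_lit 426198) (nat_lit 9) (.e (nat_lit 426555) (nat_lit 32) (.e (nat_lit 376859) (nat_lit 21) (.e (nat_lit 57849) (nat_lit 252) (.e (nat_lit 57388) (nat_lit 5) .nil)))))) (.g (nat_lit 1) (.e (nat_lit 277976) (nat_lit 0) .nil) .nil))) 
(.lf (nat_lit 545445) (.g (nat_lit 2250) (.e (nat_lit 114715) (nat_lit 22) (.e (nat_lit 90170) (nat_lit 13) (.e (nat_lit 172067) (nat_lit 3) (.e (nat_lit 204821) (nat_lit 17) (.e (nat_lit 1040) (nat_lit 81) .nil))))) (.g (nat_lit 0) (.e (nat_lit 279549) (nat_lit 0) .nil) .nil)))) (.nd (nat_lit 9) 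
(.lf (nat_lit 545189) (.g (nat_lit 2503) (.e (nat_lit 114698) (nat_lit 11) (.e (nat_lit 426335) (nat_lit 13) (.e (nat_lit 483403) (nat_lit 26) (.e (nat_lit 385109) (nat_lit 51) (.e (nat_lit 802560) (nat_lit 5) .nil))))) (.g (nat_lit 1) (.e (nat_lit 278515) (nat_lit 0) .nil) .nil))) 
(.lf (nat_lit 545701) (.g (nat_lit 3149) (.e (nat_lit 114718) (nat_lit 23) (.e (nat_lit 98366) (nat_lit 27) (.e (nat_lit 434231) (nat_lit 23) (.e (nat_lit 532502) (nat_lit 1) (.e (nat_lit 57692) (nat_lit 156) (.e (nat_lit 163874) (nat_lit 3) (.e (nat_lit 204837) (nat_lit 20) .nil))))))) (.g (nat_lit 1) (.e (nat_lit 280201) (nat_lit 0) .nil) .nil)))))) 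
(.nd (nat_lit 7) (.nd (nat_lit 8) (.nd (nat_lit 9) 
(.lf (nat_lit 544869) (.g (nat_lit 1374) (.e (nat_lit 114697) (nat_lit 11) (.e (nat_lit 426188) (nat_lit 9) (.e (nat_lit 426544) (nat_lit 30) (.e (nat_lit 360453) (nat_lit 0) .nil)))) (.g (nat_lit 0) (.e (nat_lit 277908) (nat_lit 0) .nil) .nil))) 
(.lf (nat_lit 545381) (.g (nat_lit 2539) (.e (nat_lit 114714) (nat_lit 22) (.e (nat_lit 90172) (nat_lit 14) (.e (nat_lit 180244) (nat_lit 5) (.e (nat_lit 532504) (nat_lit 1) (.e (nat_lit 57663) (nat_lit 152) (.e (nat_lit 2717) (nat_lit 171) (.e (nat_lit 229432) (nat_lit 25) (.e (nat_lit 532513) (nat_lit 3) .nil)))))))) (.g (nat_lit 1) (.e (nat_lit 279440) (nat_lit 0) .nil) .nil)))) 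
(.nd (nat_lit 9) 
(.lf (nat_lit 545125) (.g (nat_lit 1299) (.e (nat_lit 114698) (nat_lit 11) (.e (nat_lit 426325) (nat_lit 13) (.e (nat_lit 483387) (nat_lit 23) .nil))) (.g (nat_lit 0) (.e (nat_lit 278391) (nat_lit 0) .nil) .nil))) 
(.lf (nat_lit 545637) (.g (nat_lit 3080) (.e (nat_lit 114718) (nat_lit 23) (.e (nat_lit 98335) (nat_lit 18) (.e (nat_lit 164327) (nat_lit 230) (.e (nat_lit 163868) (nat_lit 2) (.e (nat_lit 196656) (nat_lit 11) (.e (nat_lit 16416) (nat_lit 3) (.e (nat_lit 204838) (nat_lit 20) .nil))))))) (.g (nat_lit 1) (.e (nat_lit 280121) (nat_lit 0) .nil) .nil))))) (.nd (nat_lit 8) (.nd (nat_lit 9) 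
(.lf (nat_lit 544997) (.g (nat_lit 359) (.e (nat_lit 114698) (nat_lit 11) (.e (nat_lit 426139) (nat_lit 3) (.e (nat_lit 204868) (nat_lit 29) .nil))) (.g (nat_lit 0) (.e (nat_lit 278237) (nat_lit 0) .nil) .nil))) 
(.lf (nat_lit 545509) (.g (nat_lit 2450) (.e (nat_lit 114716) (nat_lit 22) (.e (nat_lit 90172) (nat_lit 14) (.e (nat_lit 180244) (nat_lit 5) (.e (nat_lit 532499) (nat_lit 1) (.e (nat_lit 57652) (nat_lit 152) (.e (nat_lit 2399) (nat_lit 157) (.e (nat_lit 2685) (nat_lit 168) (.e (nat_lit 204837) (nat_lit 20) .nil)))))))) (.g (nat_lit 1) (.e (nat_lit 279697) (nat_lit 0) .nil) .nil)))) 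
(.nd (nat_lit 9) 
(.lf (nat_lit 545253) (.g (nat_lit 511) (.e (nat_lit 122624) (nat_lit 11) (.e (nat_lit 426190) (nat_lit 9) (.e (nat_lit 426555) (nat_lit 32) .nil))) (.g (nat_lit 0) (.e (nat_lit 278679) (nat_lit 0) .nil) .nil))) 
(.lf (nat_lit 545765) (.g (nat_lit 3630) (.e (nat_lit 114718) (nat_lit 23) (.e (nat_lit 98384) (nat_lit 32) (.e (nat_lit 475179) (nat_lit 24) (.e (nat_lit 516119) (nat_lit 1) (.e (nat_lit 164327) (nat_lit 230) (.e (nat_lit 163875) (nat_lit 3) (.e (nat_lit 204836) (nat_lit 20) .nil))))))) (.g (nat_lit 1) (.e (nat_lit 280283) (nat_lit 0) .nil) .nil)))))))) 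
(.nd (nat_lit 5) (.nd (nat_lit 6) (.nd (nat_lit 7) (.nd (nat_lit 8) (.nd (nat_lit 9) 
(.lf (nat_lit 544789) (.g (nat_lit 2127) (.e (nat_lit 114696) (nat_lit 11) (.e (nat_lit 426262) (nat_lit 9) (.e (nat_lit 426541) (nat_lit 29) (.e (nat_lit 352309) (nat_lit 21) (.e (nat_lit 57849) (nat_lit 252) (.e (nat_lit 57388) (nat_lit 5) .nil)))))) (.g (nat_lit 1) (.e (nat_lit 277761) (nat_lit 0) .nil) .nil))) 
(.lf (nat_lit 545301) (.g (nat_lit 1599) (.e (nat_lit 114708) (nat_lit 20) (.e (nat_lit 2174) (nat_lit 143) (.e (nat_lit 712745) (nat_lit 27) (.e (nat_lit 426532) (nat_lit 28) .nil)))) (.g (nat_lit 0) (.e (nat_lit 279188) (nat_lit 0) .nil) .nil)))) (.nd (nat_lit 9) 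
(.lf (nat_lit 545045) (.g (nat_lit 1509) (.e (nat_lit 114698) (nat_lit 11) (.e (nat_lit 426197) (nat_lit 9) (.e (nat_lit 426556) (nat_lit 32) (.e (nat_lit 376859) (nat_lit 21) (.e (nat_lit 57847) (nat_lit 252) (.e (nat_lit 57390) (nat_lit 5) .nil)))))) (.g (nat_lit 1) (.e (nat_lit 278302) (nat_lit 0) .nil) .nil))) 
(.lf (nat_lit 545557) (.g (nat_lit 1508) (.e (nat_lit 114716) (nat_lit 22) (.e (nat_lit 90185) (nat_lit 17) (.e (nat_lit 237592) (nat_lit 3) (.e (nat_lit 204831) (nat_lit 18) (.e (nat_lit 57687) (nat_lit 156) .nil))))) (.g (nat_lit 0) (.e (nat_lit 279976) (nat_lit 0) .nil) .nil))))) (.nd (nat_lit 8) (.nd (nat_lit 9) 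
(.lf (nat_lit 544917) (.g (nat_lit 2989) (.e (nat_lit 114697) (nat_lit 11) (.e (nat_lit 426198) (nat_lit 9) (.e (nat_lit 426542) (nat_lit 29) (.e (nat_lit 352307) (nat_lit 21) (.e (nat_lit 57849) (nat_lit 252) (.e (nat_lit 57390) (nat_lit 5) .nil)))))) (.g (nat_lit 1) (.e (nat_lit 277959) (nat_lit 0) .nil) .nil))) 
(.lf (nat_lit 545429) (.g (nat_lit 3036) (.e (nat_lit 114715) (nat_lit 22) (.e (nat_lit 90170) (nat_lit 13) (.e (nat_lit 172065) (nat_lit 3) (.e (nat_lit 204830) (nat_lit 18) (.e (nat_lit 57685) (nat_lit 156) (.e (nat_lit 163875) (nat_lit 3) (.e (nat_lit 204836) (nat_lit 20) .nil))))))) (.g (nat_lit 1) (.e (nat_lit 279531) (nat_lit 0) .nil) .nil)))) (.nd (nat_lit 9) 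
(.lf (nat_lit 545173) (.g (nat_lit 2628) (.e (nat_lit 114698) (nat_lit 11) (.e (nat_lit 426335) (nat_lit 13) (.e (nat_lit 483379) (nat_lit 23) (.e (nat_lit 336334) (nat_lit 20) (.e (nat_lit 229120) (nat_lit 5) .nil))))) (.g (nat_lit 1) (.e (nat_lit 278492) (nat_lit 0) .nil) .nil))) 
(.lf (nat_lit 545685) (.g (nat_lit 4119) (.e (nat_lit 114718) (nat_lit 23) (.e (nat_lit 98366) (nat_lit 27) (.e (nat_lit 434231) (nat_lit 23) (.e (nat_lit 532499) (nat_lit 1) (.e (nat_lit 57688) (nat_lit 156) (.e (nat_lit 163875) (nat_lit 3) (.e (nat_lit 204837) (nat_lit 20) .nil))))))) (.g (nat_lit 1) (.e (nat_lit 280185) (nat_lit 0) .nil) .nil)))))) 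
(.nd (nat_lit 7) (.nd (nat_lit 8) (.nd (nat_lit 9) 
(.lf (nat_lit 544853) (.g (nat_lit 1815) (.e (nat_lit 114697) (nat_lit 11) (.e (nat_lit 426138) (nat_lit 3) (.e (nat_lit 204858) (nat_lit 26) (.e (nat_lit 336198) (nat_lit 12) (.e (nat_lit 385068) (nat_lit 26) (.e (nat_lit 532513) (nat_lit 3) .nil)))))) (.g (nat_lit 1) (.e (nat_lit 277880) (nat_lit 0) .nil) .nil))) 
(.lf (nat_lit 545365) (.g (nat_lit 2526) (.e (nat_lit 114714) (nat_lit 22) (.e (nat_lit 90172) (nat_lit 14) (.e (nat_lit 180244) (nat_lit 5) (.e (nat_lit 532501) (nat_lit 1) (.e (nat_lit 57664) (nat_lit 152) (.e (nat_lit 2715) (nat_lit 171) (.e (nat_lit 229433) (nat_lit 25) (.e (nat_lit 532513) (nat_lit 3) .nil)))))))) (.g (nat_lit 1) (.e (nat_lit 279408) (nat_lit 0) .nil) .nil)))) 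
(.nd (nat_lit 9) 
(.lf (nat_lit 545109) (.g (nat_lit 2370) (.e (nat_lit 114698) (nat_lit 11) (.e (nat_lit 426213) (nat_lit 9) (.e (nat_lit 426501) (nat_lit 27) (.e (nat_lit 336194) (nat_lit 12) (.e (nat_lit 385109) (nat_lit 51) (.e (nat_lit 802560) (nat_lit 5) .nil)))))) (.g (nat_lit 1) (.e (nat_lit 278370) (nat_lit 0) .nil) .nil))) 
(.lf (nat_lit 545621) (.g (nat_lit 1401) (.e (nat_lit 114718) (nat_lit 23) (.e (nat_lit 98333) (nat_lit 18) (.e (nat_lit 164403) (nat_lit 256) (.e (nat_lit 57371) (nat_lit 2) .nil)))) (.g (nat_lit 0) (.e (nat_lit 280091) (nat_lit 0) .nil) .nil))))) (.nd (nat_lit 8) (.nd (nat_lit 9) 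
(.lf (nat_lit 544981) (.g (nat_lit 1073) (.e (nat_lit 114698) (nat_lit 11) (.e (nat_lit 426133) (nat_lit 3) (.e (nat_lit 204858) (nat_lit 26) .nil))) (.g (nat_lit 0) (.e (nat_lit 278199) (nat_lit 0) .nil) .nil))) 
(.lf (nat_lit 545493) (.g (nat_lit 1257) (.e (nat_lit 114716) (nat_lit 22) (.e (nat_lit 90168) (nat_lit 13) (.e (nat_lit 172067) (nat_lit 3) (.e (nat_lit 204829) (nat_lit 18) .nil)))) (.g (nat_lit 0) (.e (nat_lit 279627) (nat_lit 0) .nil) .nil)))) (.nd (nat_lit 9) 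
(.lf (nat_lit 545237) (.g (nat_lit 2412) (.e (nat_lit 122624) (nat_lit 11) (.e (nat_lit 426173) (nat_lit 7) (.e (nat_lit 409645) (nat_lit 18) (.e (nat_lit 303143) (nat_lit 12) (.e (nat_lit 475212) (nat_lit 42) .nil))))) (.g (nat_lit 0) (.e (nat_lit 278660) (nat_lit 0) .nil) .nil))) 
(.lf (nat_lit 545749) (.g (nat_lit 3189) (.e (nat_lit 114718) (nat_lit 23) (.e (nat_lit 98384) (nat_lit 32) (.e (nat_lit 475177) (nat_lit 24) (.e (nat_lit 516120) (nat_lit 1) (.e (nat_lit 164332) (nat_lit 230) (.e (nat_lit 163874) (nat_lit 3) (.e (nat_lit 204838) (nat_lit 20) .nil))))))) (.g (nat_lit 1) (.e (nat_lit 280262) (nat_lit 0) .nil) .nil))))))) 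
(.nd (nat_lit 6) (.nd (nat_lit 7) (.nd (nat_lit 8) (.nd (nat_lit 9) 
(.lf (nat_lit 544821) (.g (nat_lit 3067) (.e (nat_lit 114697) (nat_lit 11) (.e (nat_lit 426124) (nat_lit 2) (.e (nat_lit 196681) (nat_lit 17) (.e (nat_lit 131105) (nat_lit 9) (.e (nat_lit 336324) (nat_lit 18) (.e (nat_lit 204837) (nat_lit 20) .nil)))))) (.g (nat_lit 1) (.e (nat_lit 277837) (nat_lit 0) .nil) .nil))) 
(.lf (nat_lit 545333) (.g (nat_lit 2408) (.e (nat_lit 114714) (nat_lit 22) (.e (nat_lit 90170) (nat_lit 13) (.e (nat_lit 172067) (nat_lit 3) (.e (nat_lit 204830) (nat_lit 18) (.e (nat_lit 57665) (nat_lit 152) .nil))))) (.g (nat_lit 0) (.e (nat_lit 279355) (nat_lit 0) .nil) .nil)))) (.nd (nat_lit 9) 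
(.lf (nat_lit 545077) (.g (nat_lit 3024) (.e (nat_lit 114698) (nat_lit 11) (.e (nat_lit 426200) (nat_lit 9) (.e (nat_lit 426482) (nat_lit 27) (.e (nat_lit 336089) (nat_lit 9) (.e (nat_lit 336336) (nat_lit 20) (.e (nat_lit 229120) (nat_lit 5) .nil)))))) (.g (nat_lit 1) (.e (nat_lit 278336) (nat_lit 0) .nil) .nil))) 
(.lf (nat_lit 545589) (.g (nat_lit 3419) (.e (nat_lit 114717) (nat_lit 23) (.e (nat_lit 98334) (nat_lit 18) (.e (nat_lit 164401) (nat_lit 256) (.e (nat_lit 57378) (nat_lit 3) (.e (nat_lit 98367) (nat_lit 27) (.e (nat_lit 434231) (nat_lit 23) (.e (nat_lit 532514) (nat_lit 3) .nil))))))) (.g (nat_lit 1) (.e (nat_lit 280044) (nat_lit 0) .nil) .nil))))) (.nd (nat_lit 8) (.nd (nat_lit 9) 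
(.lf (nat_lit 544949) (.g (nat_lit 2997) (.e (nat_lit 114697) (nat_lit 11) (.e (nat_lit 426199) (nat_lit 9) (.e (nat_lit 426555) (nat_lit 32) (.e (nat_lit 376859) (nat_lit 21) (.e (nat_lit 57854) (nat_lit 252) (.e (nat_lit 57388) (nat_lit 5) .nil)))))) (.g (nat_lit 1) (.e (nat_lit 277992) (nat_lit 0) .nil) .nil))) 
(.lf (nat_lit 545461) (.g (nat_lit 4835) (.e (nat_lit 114715) (nat_lit 22) (.e (nat_lit 90170) (nat_lit 13) (.e (nat_lit 172067) (nat_lit 3) (.e (nat_lit 204830) (nat_lit 18) (.e (nat_lit 57691) (nat_lit 156) (.e (nat_lit 163875) (nat_lit 3) (.e (nat_lit 204837) (nat_lit 20) .nil))))))) (.g (nat_lit 1) (.e (nat_lit 279571) (nat_lit 0) .nil) .nil)))) (.nd (nat_lit 9) 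
(.lf (nat_lit 545205) (.g (nat_lit 4054) (.e (nat_lit 122624) (nat_lit 11) (.e (nat_lit 426125) (nat_lit 2) (.e (nat_lit 196666) (nat_lit 13) (.e (nat_lit 65623) (nat_lit 12) (.e (nat_lit 385068) (nat_lit 26) .nil))))) (.g (nat_lit 0) (.e (nat_lit 278576) (nat_lit 0) .nil) .nil))) 
(.lf (nat_lit 545717) (.g (nat_lit 2569) (.e (nat_lit 114718) (nat_lit 23) (.e (nat_lit 98367) (nat_lit 27) (.e (nat_lit 434231) (nat_lit 23) (.e (nat_lit 532499) (nat_lit 1) (.e (nat_lit 57691) (nat_lit 156) (.e (nat_lit 163874) (nat_lit 3) (.e (nat_lit 204836) (nat_lit 20) .nil))))))) (.g (nat_lit 1) (.e (nat_lit 280223) (nat_lit 0) .nil) .nil)))))) 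
(.nd (nat_lit 7) (.nd (nat_lit 8) (.nd (nat_lit 9) 
(.lf (nat_lit 544885) (.g (nat_lit 3408) (.e (nat_lit 114697) (nat_lit 11) (.e (nat_lit 426190) (nat_lit 9) (.e (nat_lit 426555) (nat_lit 32) (.e (nat_lit 376857) (nat_lit 21) (.e (nat_lit 57849) (nat_lit 252) (.e (nat_lit 57388) (nat_lit 5) .nil)))))) (.g (nat_lit 1) (.e (nat_lit 277925) (nat_lit 0) .nil) .nil))) 
(.lf (nat_lit 545397) (.g (nat_lit 2397) (.e (nat_lit 114714) (nat_lit 22) (.e (nat_lit 90174) (nat_lit 14) (.e (nat_lit 180243) (nat_lit 5) (.e (nat_lit 532501) (nat_lit 1) (.e (nat_lit 57665) (nat_lit 152) .nil))))) (.g (nat_lit 0) (.e (nat_lit 279463) (nat_lit 0) .nil) .nil)))) (.nd (nat_lit 9) 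
(.lf (nat_lit 545141) (.g (nat_lit 2051) (.e (nat_lit 114698) (nat_lit 11) (.e (nat_lit 426326) (nat_lit 13) (.e (nat_lit 483403) (nat_lit 26) (.e (nat_lit 385109) (nat_lit 51) (.e (nat_lit 802560) (nat_lit 5) .nil))))) (.g (nat_lit 1) (.e (nat_lit 278422) (nat_lit 0) .nil) .nil))) 
(.lf (nat_lit 545653) (.g (nat_lit 2268) (.e (nat_lit 114718) (nat_lit 23) (.e (nat_lit 98356) (nat_lit 26) (.e (nat_lit 426436) (nat_lit 18) (.e (nat_lit 98334) (nat_lit 18) (.e (nat_lit 164332) (nat_lit 230) (.e (nat_lit 163874) (nat_lit 3) (.e (nat_lit 204837) (nat_lit 20) .nil))))))) (.g (nat_lit 1) (.e (nat_lit 280144) (nat_lit 0) .nil) .nil))))) (.nd (nat_lit 8) (.nd (nat_lit 9) 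
(.lf (nat_lit 545013) (.g (nat_lit 853) (.e (nat_lit 114698) (nat_lit 11) (.e (nat_lit 426188) (nat_lit 9) (.e (nat_lit 426556) (nat_lit 32) (.e (nat_lit 376859) (nat_lit 21) .nil)))) (.g (nat_lit 0) (.e (nat_lit 278270) (nat_lit 0) .nil) .nil))) 
(.lf (nat_lit 545525) (.g (nat_lit 1057) (.e (nat_lit 114716) (nat_lit 22) (.e (nat_lit 90173) (nat_lit 14) (.e (nat_lit 180244) (nat_lit 5) (.e (nat_lit 532499) (nat_lit 1) .nil)))) (.g (nat_lit 0) (.e (nat_lit 279817) (nat_lit 0) .nil) .nil)))) (.nd (nat_lit 9) 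
(.lf (nat_lit 545269) (.g (nat_lit 2788) (.e (nat_lit 122624) (nat_lit 11) (.e (nat_lit 426566) (nat_lit 34) (.e (nat_lit 393260) (nat_lit 21) (.e (nat_lit 409616) (nat_lit 10) (.e (nat_lit 604) (nat_lit 45) .nil))))) (.g (nat_lit 0) (.e (nat_lit 278743) (nat_lit 0) .nil) .nil))) 
(.lf (nat_lit 545781) (.g (nat_lit 3716) (.e (nat_lit 114719) (nat_lit 23) (.e (nat_lit 98332) (nat_lit 18) (.e (nat_lit 164399) (nat_lit 256) (.e (nat_lit 57378) (nat_lit 3) (.e (nat_lit 98367) (nat_lit 27) (.e (nat_lit 434231) (nat_lit 23) (.e (nat_lit 532514) (nat_lit 3) .nil))))))) (.g (nat_lit 1) (.e (nat_lit 280304) (nat_lit 0) .nil) .nil))))))))) 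
(.nd (nat_lit 4) (.nd (nat_lit 5) (.nd (nat_lit 6) (.nd (nat_lit 7) (.nd (nat_lit 8) 
(.nd (nat_lit 9) 
(.lf (nat_lit 544781) (.g (nat_lit 1590) (.e (nat_lit 114696) (nat_lit 11) (.e (nat_lit 426234) (nat_lit 9) (.e (nat_lit 426554) (nat_lit 32) (.e (nat_lit 376857) (nat_lit 21) (.e (nat_lit 57851) (nat_lit 252) (.e (nat_lit 57388) (nat_lit 5) .nil)))))) (.g (nat_lit 1) (.e (nat_lit 277753) (nat_lit 0) .nil) .nil))) 
(.lf (nat_lit 545293) (.g (nat_lit 1836) (.e (nat_lit 114708) (nat_lit 20) (.e (nat_lit 1800) (nat_lit 119) (.e (nat_lit 516117) (nat_lit 1) (.e (nat_lit 164399) (nat_lit 256) (.e (nat_lit 57377) (nat_lit 3) .nil))))) (.g (nat_lit 0) (.e (nat_lit 279176) (nat_lit 0) .nil) .nil)))) (.nd (nat_lit 9) 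
(.lf (nat_lit 545037) (.g (nat_lit 3750) (.e (nat_lit 114698) (nat_lit 11) (.e (nat_lit 426197) (nat_lit 9) (.e (nat_lit 426555) (nat_lit 32) (.e (nat_lit 376857) (nat_lit 21) (.e (nat_lit 57849) (nat_lit 252) (.e (nat_lit 57388) (nat_lit 5) .nil)))))) (.g (nat_lit 1) (.e (nat_lit 278294) (nat_lit 0) .nil) .nil))) 
(.lf (nat_lit 545549) (.g (nat_lit 2160) (.e (nat_lit 114716) (nat_lit 22) (.e (nat_lit 90174) (nat_lit 14) (.e (nat_lit 180243) (nat_lit 5) (.e (nat_lit 532504) (nat_lit 1) (.e (nat_lit 57663) (nat_lit 152) .nil))))) (.g (nat_lit 0) (.e (nat_lit 279940) (nat_lit 0) .nil) .nil))))) (.nd (nat_lit 8) (.nd (nat_lit 9) 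
(.lf (nat_lit 544909) (.g (nat_lit 2456) (.e (nat_lit 114697) (nat_lit 11) (.e (nat_lit 426197) (nat_lit 9) (.e (nat_lit 426555) (nat_lit 32) (.e (nat_lit 376860) (nat_lit 21) (.e (nat_lit 57852) (nat_lit 252) (.e (nat_lit 57388) (nat_lit 5) .nil)))))) (.g (nat_lit 1) (.e (nat_lit 277950) (nat_lit 0) .nil) .nil))) 
(.lf (nat_lit 545421) (.g (nat_lit 4032) (.e (nat_lit 114715) (nat_lit 22) (.e (nat_lit 90170) (nat_lit 13) (.e (nat_lit 172065) (nat_lit 3) (.e (nat_lit 204829) (nat_lit 18) (.e (nat_lit 57688) (nat_lit 156) (.e (nat_lit 163872) (nat_lit 3) (.e (nat_lit 204838) (nat_lit 20) .nil))))))) (.g (nat_lit 1) (.e (nat_lit 279519) (nat_lit 0) .nil) .nil)))) (.nd (nat_lit 9) 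
(.lf (nat_lit 545165) (.g (nat_lit 1181) (.e (nat_lit 114698) (nat_lit 11) (.e (nat_lit 426334) (nat_lit 13) (.e (nat_lit 483391) (nat_lit 23) (.e (nat_lit 336335) (nat_lit 20) (.e (nat_lit 229120) (nat_lit 5) .nil))))) (.g (nat_lit 1) (.e (nat_lit 278474) (nat_lit 0) .nil) .nil))) 
(.lf (nat_lit 545677) (.g (nat_lit 4028) (.e (nat_lit 114718) (nat_lit 23) (.e (nat_lit 98365) (nat_lit 26) (.e (nat_lit 426139) (nat_lit 3) (.e (nat_lit 204829) (nat_lit 18) (.e (nat_lit 57691) (nat_lit 156) (.e (nat_lit 163875) (nat_lit 3) (.e (nat_lit 204837) (nat_lit 20) .nil))))))) (.g (nat_lit 1) (.e (nat_lit 280175) (nat_lit 0) .nil) .nil)))))) 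
(.nd (nat_lit 7) (.nd (nat_lit 8) (.nd (nat_lit 9) 
(.lf (nat_lit 544845) (.g (nat_lit 3089) (.e (nat_lit 114697) (nat_lit 11) (.e (nat_lit 426137) (nat_lit 3) (.e (nat_lit 204861) (nat_lit 26) (.e (nat_lit 336076) (nat_lit 9) (.e (nat_lit 336324) (nat_lit 18) (.e (nat_lit 204837) (nat_lit 20) .nil)))))) (.g (nat_lit 1) (.e (nat_lit 277868) (nat_lit 0) .nil) .nil))) 
(.lf (nat_lit 545357) (.g (nat_lit 2790) (.e (nat_lit 114714) (nat_lit 22) (.e (nat_lit 90172) (nat_lit 14) (.e (nat_lit 180244) (nat_lit 5) (.e (nat_lit 532499) (nat_lit 1) (.e (nat_lit 57687) (nat_lit 156) (.e (nat_lit 163843) (nat_lit 0) (.e (nat_lit 3248) (nat_lit 197) (.e (nat_lit 532513) (nat_lit 3) .nil)))))))) (.g (nat_lit 1) (.e (nat_lit 279395) (nat_lit 0) .nil) .nil)))) 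
(.nd (nat_lit 9) 
(.lf (nat_lit 545101) (.g (nat_lit 3288) (.e (nat_lit 114698) (nat_lit 11) (.e (nat_lit 426204) (nat_lit 9) (.e (nat_lit 426499) (nat_lit 27) (.e (nat_lit 336196) (nat_lit 12) (.e (nat_lit 385109) (nat_lit 51) (.e (nat_lit 802560) (nat_lit 5) .nil)))))) (.g (nat_lit 1) (.e (nat_lit 278362) (nat_lit 0) .nil) .nil))) 
(.lf (nat_lit 545613) (.g (nat_lit 1626) (.e (nat_lit 114718) (nat_lit 23) (.e (nat_lit 98333) (nat_lit 18) (.e (nat_lit 164325) (nat_lit 230) (.e (nat_lit 163864) (nat_lit 1) (.e (nat_lit 164403) (nat_lit 256) (.e (nat_lit 57447) (nat_lit 19) (.e (nat_lit 401152) (nat_lit 3) .nil))))))) (.g (nat_lit 1) (.e (nat_lit 280075) (nat_lit 0) .nil) .nil))))) (.nd (nat_lit 8) (.nd (nat_lit 9) 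
(.lf (nat_lit 544973) (.g (nat_lit 3281) (.e (nat_lit 114698) (nat_lit 11) (.e (nat_lit 426123) (nat_lit 2) (.e (nat_lit 196666) (nat_lit 13) (.e (nat_lit 65623) (nat_lit 12) (.e (nat_lit 385068) (nat_lit 26) .nil))))) (.g (nat_lit 0) (.e (nat_lit 278161) (nat_lit 0) .nil) .nil))) 
(.lf (nat_lit 545485) (.g (nat_lit 3005) (.e (nat_lit 114716) (nat_lit 22) (.e (nat_lit 90134) (nat_lit 9) (.e (nat_lit 3098) (nat_lit 192) (.e (nat_lit 491571) (nat_lit 13) (.e (nat_lit 393232) (nat_lit 17) (.e (nat_lit 3555) (nat_lit 220) (.e (nat_lit 720956) (nat_lit 25) .nil))))))) (.g (nat_lit 1) (.e (nat_lit 279613) (nat_lit 0) .nil) .nil)))) (.nd (nat_lit 9) 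
(.lf (nat_lit 545229) (.g (nat_lit 1675) (.e (nat_lit 122624) (nat_lit 11) (.e (nat_lit 426139) (nat_lit 3) (.e (nat_lit 204861) (nat_lit 26) (.e (nat_lit 336075) (nat_lit 9) (.e (nat_lit 336325) (nat_lit 18) .nil))))) (.g (nat_lit 0) (.e (nat_lit 278627) (nat_lit 0) .nil) .nil))) 
(.lf (nat_lit 545741) (.g (nat_lit 2872) (.e (nat_lit 114718) (nat_lit 23) (.e (nat_lit 98384) (nat_lit 32) (.e (nat_lit 475177) (nat_lit 24) (.e (nat_lit 516118) (nat_lit 1) (.e (nat_lit 164327) (nat_lit 230) (.e (nat_lit 163875) (nat_lit 3) (.e (nat_lit 204836) (nat_lit 20) .nil))))))) (.g (nat_lit 1) (.e (nat_lit 280254) (nat_lit 0) .nil) .nil))))))) 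
(.nd (nat_lit 6) (.nd (nat_lit 7) (.nd (nat_lit 8) (.nd (nat_lit 9) 
(.lf (nat_lit 544813) (.g (nat_lit 2409) (.e (nat_lit 114697) (nat_lit 11) (.e (nat_lit 426122) (nat_lit 2) (.e (nat_lit 196681) (nat_lit 17) (.e (nat_lit 131123) (nat_lit 12) (.e (nat_lit 385068) (nat_lit 26) (.e (nat_lit 532513) (nat_lit 3) .nil)))))) (.g (nat_lit 1) (.e (nat_lit 277813) (nat_lit 0) .nil) .nil))) 
(.lf (nat_lit 545325) (.g (nat_lit 4372) (.e (nat_lit 114714) (nat_lit 22) (.e (nat_lit 90157) (nat_lit 11) (.e (nat_lit 24665) (nat_lit 14) (.e (nat_lit 401414) (nat_lit 0) (.e (nat_lit 3205) (nat_lit 194) (.e (nat_lit 507946) (nat_lit 18) (.e (nat_lit 311040) (nat_lit 20) .nil))))))) (.g (nat_lit 1) (.e (nat_lit 279345) (nat_lit 0) .nil) .nil)))) (.nd (nat_lit 9) 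
(.lf (nat_lit 545069) (.g (nat_lit 3034) (.e (nat_lit 114698) (nat_lit 11) (.e (nat_lit 426199) (nat_lit 9) (.e (nat_lit 426555) (nat_lit 32) (.e (nat_lit 376857) (nat_lit 21) (.e (nat_lit 57849) (nat_lit 252) (.e (nat_lit 57390) (nat_lit 5) .nil)))))) (.g (nat_lit 1) (.e (nat_lit 278328) (nat_lit 0) .nil) .nil))) 
(.lf (nat_lit 545581) (.g (nat_lit 2026) (.e (nat_lit 114717) (nat_lit 23) (.e (nat_lit 98334) (nat_lit 18) (.e (nat_lit 164397) (nat_lit 256) (.e (nat_lit 57371) (nat_lit 2) (.e (nat_lit 90172) (nat_lit 14) .nil))))) (.g (nat_lit 0) (.e (nat_lit 280036) (nat_lit 0) .nil) .nil))))) (.nd (nat_lit 8) (.nd (nat_lit 9) 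
(.lf (nat_lit 544941) (.g (nat_lit 2135) (.e (nat_lit 114697) (nat_lit 11) (.e (nat_lit 426199) (nat_lit 9) (.e (nat_lit 426555) (nat_lit 32) (.e (nat_lit 376857) (nat_lit 21) (.e (nat_lit 57848) (nat_lit 252) (.e (nat_lit 57390) (nat_lit 5) .nil)))))) (.g (nat_lit 1) (.e (nat_lit 277984) (nat_lit 0) .nil) .nil))) 
(.lf (nat_lit 545453) (.g (nat_lit 1311) (.e (nat_lit 114715) (nat_lit 22) (.e (nat_lit 90170) (nat_lit 13) (.e (nat_lit 172067) (nat_lit 3) (.e (nat_lit 204830) (nat_lit 18) .nil)))) (.g (nat_lit 0) (.e (nat_lit 279561) (nat_lit 0) .nil) .nil)))) (.nd (nat_lit 9) 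
(.lf (nat_lit 545197) (.g (nat_lit 2309) (.e (nat_lit 114698) (nat_lit 11) (.e (nat_lit 426335) (nat_lit 13) (.e (nat_lit 483408) (nat_lit 26) (.e (nat_lit 385109) (nat_lit 51) (.e (nat_lit 802560) (nat_lit 5) .nil))))) (.g (nat_lit 1) (.e (nat_lit 278523) (nat_lit 0) .nil) .nil))) 
(.lf (nat_lit 545709) (.g (nat_lit 2530) (.e (nat_lit 114718) (nat_lit 23) (.e (nat_lit 98367) (nat_lit 27) (.e (nat_lit 434231) (nat_lit 23) (.e (nat_lit 532483) (nat_lit 0) .nil)))) (.g (nat_lit 0) (.e (nat_lit 280211) (nat_lit 0) .nil) .nil)))))) (.nd (nat_lit 7) (.nd (nat_lit 8) (.nd (nat_lit 9) 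
(.lf (nat_lit 544877) (.g (nat_lit 2374) (.e (nat_lit 114697) (nat_lit 11) (.e (nat_lit 426188) (nat_lit 9) (.e (nat_lit 426555) (nat_lit 32) (.e (nat_lit 376859) (nat_lit 21) (.e (nat_lit 57851) (nat_lit 252) (.e (nat_lit 57388) (nat_lit 5) .nil)))))) (.g (nat_lit 1) (.e (nat_lit 277917) (nat_lit 0) .nil) .nil))) 
(.lf (nat_lit 545389) (.g (nat_lit 2793) (.e (nat_lit 114714) (nat_lit 22) (.e (nat_lit 90174) (nat_lit 14) (.e (nat_lit 180243) (nat_lit 5) (.e (nat_lit 532499) (nat_lit 1) (.e (nat_lit 57653) (nat_lit 152) (.e (nat_lit 2399) (nat_lit 157) (.e (nat_lit 2685) (nat_lit 168) (.e (nat_lit 204837) (nat_lit 20) .nil)))))))) (.g (nat_lit 1) (.e (nat_lit 279451) (nat_lit 0) .nil) .nil)))) 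
(.nd (nat_lit 9) 
(.lf (nat_lit 545133) (.g (nat_lit 2144) (.e (nat_lit 114698) (nat_lit 11) (.e (nat_lit 426325) (nat_lit 13) (.e (nat_lit 483405) (nat_lit 26) (.e (nat_lit 385109) (nat_lit 51) (.e (nat_lit 802560) (nat_lit 5) .nil))))) (.g (nat_lit 1) (.e (nat_lit 278410) (nat_lit 0) .nil) .nil))) 
(.lf (nat_lit 545645) (.g (nat_lit 1230) (.e (nat_lit 114718) (nat_lit 23) (.e (nat_lit 98344) (nat_lit 21) (.e (nat_lit 229610) (nat_lit 215) (.e (nat_lit 2619) (nat_lit 164) (.e (nat_lit 179968) (nat_lit 34) (.e (nat_lit 401152) (nat_lit 3) .nil)))))) (.g (nat_lit 1) (.e (nat_lit 280136) (nat_lit 0) .nil) .nil))))) (.nd (nat_lit 8) (.nd (nat_lit 9) 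
(.lf (nat_lit 545005) (.g (nat_lit 2382) (.e (nat_lit 114698) (nat_lit 11) (.e (nat_lit 426179) (nat_lit 8) (.e (nat_lit 417828) (nat_lit 18) (.e (nat_lit 303143) (nat_lit 12) (.e (nat_lit 475212) (nat_lit 42) (.e (nat_lit 720956) (nat_lit 25) .nil)))))) (.g (nat_lit 1) (.e (nat_lit 278262) (nat_lit 0) .nil) .nil))) 
(.lf (nat_lit 545517) (.g (nat_lit 1733) (.e (nat_lit 114716) (nat_lit 22) (.e (nat_lit 90172) (nat_lit 14) (.e (nat_lit 180244) (nat_lit 5) (.e (nat_lit 532501) (nat_lit 1) (.e (nat_lit 57663) (nat_lit 152) (.e (nat_lit 2717) (nat_lit 171) (.e (nat_lit 229434) (nat_lit 25) (.e (nat_lit 532514) (nat_lit 3) .nil)))))))) (.g (nat_lit 1) (.e (nat_lit 279745) (nat_lit 0) .nil) .nil)))) 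
(.nd (nat_lit 9) 
(.lf (nat_lit 545261) (.g (nat_lit 1863) (.e (nat_lit 122624) (nat_lit 11) (.e (nat_lit 426200) (nat_lit 9) (.e (nat_lit 426555) (nat_lit 32) (.e (nat_lit 376860) (nat_lit 21) .nil)))) (.g (nat_lit 0) (.e (nat_lit 278687) (nat_lit 0) .nil) .nil))) 
(.lf (nat_lit 545773) (.g (nat_lit 2164) (.e (nat_lit 114718) (nat_lit 23) (.e (nat_lit 98385) (nat_lit 32) (.e (nat_lit 475179) (nat_lit 24) (.e (nat_lit 516120) (nat_lit 1) (.e (nat_lit 164332) (nat_lit 230) .nil))))) (.g (nat_lit 0) (.e (nat_lit 280294) (nat_lit 0) .nil) .nil)))))))) (.nd (nat_lit 5) (.nd (nat_lit 6) (.nd (nat_lit 7) (.nd (nat_lit 8) (.nd (nat_lit 9) 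
(.lf (nat_lit 544797) (.g (nat_lit 1802) (.e (nat_lit 114696) (nat_lit 11) (.e (nat_lit 426262) (nat_lit 9) (.e (nat_lit 426554) (nat_lit 32) (.e (nat_lit 376859) (nat_lit 21) (.e (nat_lit 57848) (nat_lit 252) (.e (nat_lit 57388) (nat_lit 5) .nil)))))) (.g (nat_lit 1) (.e (nat_lit 277769) (nat_lit 0) .nil) .nil))) 
(.lf (nat_lit 545309) (.g (nat_lit 2203) (.e (nat_lit 114712) (nat_lit 21) (.e (nat_lit 57852) (nat_lit 252) (.e (nat_lit 57400) (nat_lit 10) (.e (nat_lit 319490) (nat_lit 0) (.e (nat_lit 5259) (nat_lit 298) (.e (nat_lit 453) (nat_lit 34) (.e (nat_lit 450304) (nat_lit 5) .nil))))))) (.g (nat_lit 1) (.e (nat_lit 279292) (nat_lit 0) .nil) .nil)))) (.nd (nat_lit 9) 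
(.lf (nat_lit 545053) (.g (nat_lit 871) (.e (nat_lit 114698) (nat_lit 11) (.e (nat_lit 426198) (nat_lit 9) (.e (nat_lit 426542) (nat_lit 29) (.e (nat_lit 352309) (nat_lit 21) .nil)))) (.g (nat_lit 0) (.e (nat_lit 278312) (nat_lit 0) .nil) .nil))) 
(.lf (nat_lit 545565) (.g (nat_lit 2837) (.e (nat_lit 114717) (nat_lit 23) (.e (nat_lit 98333) (nat_lit 18) (.e (nat_lit 164325) (nat_lit 230) (.e (nat_lit 163868) (nat_lit 2) (.e (nat_lit 196656) (nat_lit 11) .nil))))) (.g (nat_lit 0) (.e (nat_lit 280005) (nat_lit 0) .nil) .nil))))) (.nd (nat_lit 8) (.nd (nat_lit 9) 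
(.lf (nat_lit 544925) (.g (nat_lit 3269) (.e (nat_lit 114697) (nat_lit 11) (.e (nat_lit 426198) (nat_lit 9) (.e (nat_lit 426555) (nat_lit 32) (.e (nat_lit 376857) (nat_lit 21) (.e (nat_lit 57849) (nat_lit 252) (.e (nat_lit 57388) (nat_lit 5) .nil)))))) (.g (nat_lit 1) (.e (nat_lit 277968) (nat_lit 0) .nil) .nil))) 
(.lf (nat_lit 545437) (.g (nat_lit 2875) (.e (nat_lit 114715) (nat_lit 22) (.e (nat_lit 90170) (nat_lit 13) (.e (nat_lit 172065) (nat_lit 3) (.e (nat_lit 204831) (nat_lit 18) (.e (nat_lit 57688) (nat_lit 156) (.e (nat_lit 163875) (nat_lit 3) (.e (nat_lit 204838) (nat_lit 20) .nil))))))) (.g (nat_lit 1) (.e (nat_lit 279540) (nat_lit 0) .nil) .nil)))) (.nd (nat_lit 9) 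
(.lf (nat_lit 545181) (.g (nat_lit 2253) (.e (nat_lit 114698) (nat_lit 11) (.e (nat_lit 426335) (nat_lit 13) (.e (nat_lit 483384) (nat_lit 23) (.e (nat_lit 336336) (nat_lit 20) (.e (nat_lit 229120) (nat_lit 5) .nil))))) (.g (nat_lit 1) (.e (nat_lit 278500) (nat_lit 0) .nil) .nil))) 
(.lf (nat_lit 545693) (.g (nat_lit 3221) (.e (nat_lit 114718) (nat_lit 23) (.e (nat_lit 98366) (nat_lit 27) (.e (nat_lit 434231) (nat_lit 23) (.e (nat_lit 532500) (nat_lit 1) (.e (nat_lit 57690) (nat_lit 156) (.e (nat_lit 163874) (nat_lit 3) (.e (nat_lit 204837) (nat_lit 20) .nil))))))) (.g (nat_lit 1) (.e (nat_lit 280193) (nat_lit 0) .nil) .nil)))))) 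
(.nd (nat_lit 7) (.nd (nat_lit 8) (.nd (nat_lit 9) 
(.lf (nat_lit 544861) (.g (nat_lit 2254) (.e (nat_lit 114697) (nat_lit 11) (.e (nat_lit 426139) (nat_lit 3) (.e (nat_lit 204861) (nat_lit 26) (.e (nat_lit 336076) (nat_lit 9) (.e (nat_lit 336322) (nat_lit 18) (.e (nat_lit 204837) (nat_lit 20) .nil)))))) (.g (nat_lit 1) (.e (nat_lit 277890) (nat_lit 0) .nil) .nil))) 
(.lf (nat_lit 545373) (.g (nat_lit 2780) (.e (nat_lit 114714) (nat_lit 22) (.e (nat_lit 90172) (nat_lit 14) (.e (nat_lit 180244) (nat_lit 5) (.e (nat_lit 532503) (nat_lit 1) (.e (nat_lit 57665) (nat_lit 152) (.e (nat_lit 7936) (nat_lit 163) (.e (nat_lit 163962) (nat_lit 25) (.e (nat_lit 532513) (nat_lit 3) .nil)))))))) (.g (nat_lit 1) (.e (nat_lit 279424) (nat_lit 0) .nil) .nil)))) 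
(.nd (nat_lit 9) 
(.lf (nat_lit 545117) (.g (nat_lit 2312) (.e (nat_lit 114698) (nat_lit 11) (.e (nat_lit 426325) (nat_lit 13) (.e (nat_lit 483381) (nat_lit 23) (.e (nat_lit 336336) (nat_lit 20) (.e (nat_lit 229120) (nat_lit 5) .nil))))) (.g (nat_lit 1) (.e (nat_lit 278382) (nat_lit 0) .nil) .nil))) 
(.lf (nat_lit 545629) (.g (nat_lit 5146) (.e (nat_lit 114718) (nat_lit 23) (.e (nat_lit 98334) (nat_lit 18) (.e (nat_lit 164332) (nat_lit 230) (.e (nat_lit 163869) (nat_lit 2) (.e (nat_lit 196656) (nat_lit 11) (.e (nat_lit 16416) (nat_lit 3) (.e (nat_lit 204837) (nat_lit 20) .nil))))))) (.g (nat_lit 1) (.e (nat_lit 280111) (nat_lit 0) .nil) .nil))))) (.nd (nat_lit 8) (.nd (nat_lit 9) 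
(.lf (nat_lit 544989) (.g (nat_lit 3519) (.e (nat_lit 114698) (nat_lit 11) (.e (nat_lit 426138) (nat_lit 3) (.e (nat_lit 204861) (nat_lit 26) (.e (nat_lit 336076) (nat_lit 9) (.e (nat_lit 336324) (nat_lit 18) (.e (nat_lit 204837) (nat_lit 20) .nil)))))) (.g (nat_lit 1) (.e (nat_lit 278211) (nat_lit 0) .nil) .nil))) 
(.lf (nat_lit 545501) (.g (nat_lit 2674) (.e (nat_lit 114716) (nat_lit 22) (.e (nat_lit 90172) (nat_lit 14) (.e (nat_lit 180243) (nat_lit 5) (.e (nat_lit 532499) (nat_lit 1) (.e (nat_lit 57692) (nat_lit 156) (.e (nat_lit 163872) (nat_lit 3) (.e (nat_lit 204838) (nat_lit 20) .nil))))))) (.g (nat_lit 1) (.e (nat_lit 279648) (nat_lit 0) .nil) .nil)))) (.nd (nat_lit 9) 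
(.lf (nat_lit 545245) (.g (nat_lit 1790) (.e (nat_lit 122624) (nat_lit 11) (.e (nat_lit 426188) (nat_lit 9) (.e (nat_lit 426555) (nat_lit 32) (.e (nat_lit 376857) (nat_lit 21) (.e (nat_lit 57846) (nat_lit 252) .nil))))) (.g (nat_lit 0) (.e (nat_lit 278671) (nat_lit 0) .nil) .nil))) 
(.lf (nat_lit 545757) (.g (nat_lit 2661) (.e (nat_lit 114718) (nat_lit 23) (.e (nat_lit 98384) (nat_lit 32) (.e (nat_lit 475179) (nat_lit 24) (.e (nat_lit 516117) (nat_lit 1) (.e (nat_lit 164304) (nat_lit 226) .nil))))) (.g (nat_lit 0) (.e (nat_lit 280270) (nat_lit 0) .nil) .nil))))))) (.nd (nat_lit 6) (.nd (nat_lit 7) (.nd (nat_lit 8) (.nd (nat_lit 9) 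
(.lf (nat_lit 544829) (.g (nat_lit 3476) (.e (nat_lit 114697) (nat_lit 11) (.e (nat_lit 426133) (nat_lit 3) (.e (nat_lit 204861) (nat_lit 26) (.e (nat_lit 336075) (nat_lit 9) (.e (nat_lit 336324) (nat_lit 18) (.e (nat_lit 204838) (nat_lit 20) .nil)))))) (.g (nat_lit 1) (.e (nat_lit 277850) (nat_lit 0) .nil) .nil))) 
(.lf (nat_lit 545341) (.g (nat_lit 3001) (.e (nat_lit 114714) (nat_lit 22) (.e (nat_lit 90172) (nat_lit 14) (.e (nat_lit 180243) (nat_lit 5) (.e (nat_lit 532499) (nat_lit 1) (.e (nat_lit 57665) (nat_lit 152) (.e (nat_lit 2715) (nat_lit 171) (.e (nat_lit 229433) (nat_lit 25) (.e (nat_lit 532513) (nat_lit 3) .nil)))))))) (.g (nat_lit 1) (.e (nat_lit 279367) (nat_lit 0) .nil) .nil)))) 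
(.nd (nat_lit 9) 
(.lf (nat_lit 545085) (.g (nat_lit 2562) (.e (nat_lit 114698) (nat_lit 11) (.e (nat_lit 426200) (nat_lit 9) (.e (nat_lit 426515) (nat_lit 27) (.e (nat_lit 336076) (nat_lit 9) (.e (nat_lit 336336) (nat_lit 20) (.e (nat_lit 229120) (nat_lit 5) .nil)))))) (.g (nat_lit 1) (.e (nat_lit 278344) (nat_lit 0) .nil) .nil))) 
(.lf (nat_lit 545597) (.g (nat_lit 3615) (.e (nat_lit 114717) (nat_lit 23) (.e (nat_lit 98356) (nat_lit 26) (.e (nat_lit 426438) (nat_lit 18) (.e (nat_lit 98335) (nat_lit 18) (.e (nat_lit 164327) (nat_lit 230) (.e (nat_lit 163875) (nat_lit 3) (.e (nat_lit 204836) (nat_lit 20) .nil))))))) (.g (nat_lit 1) (.e (nat_lit 280052) (nat_lit 0) .nil) .nil))))) (.nd (nat_lit 8) (.nd (nat_lit 9) 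
(.lf (nat_lit 544957) (.g (nat_lit 2364) (.e (nat_lit 114697) (nat_lit 11) (.e (nat_lit 426200) (nat_lit 9) (.e (nat_lit 426555) (nat_lit 32) (.e (nat_lit 376860) (nat_lit 21) (.e (nat_lit 57844) (nat_lit 252) .nil))))) (.g (nat_lit 0) (.e (nat_lit 278000) (nat_lit 0) .nil) .nil))) 
(.lf (nat_lit 545469) (.g (nat_lit 673) (.e (nat_lit 114715) (nat_lit 22) (.e (nat_lit 90170) (nat_lit 13) (.e (nat_lit 172073) (nat_lit 5) .nil))) (.g (nat_lit 0) (.e (nat_lit 279580) (nat_lit 0) .nil) .nil)))) (.nd (nat_lit 9) 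
(.lf (nat_lit 545213) (.g (nat_lit 2309) (.e (nat_lit 122624) (nat_lit 11) (.e (nat_lit 426125) (nat_lit 2) (.e (nat_lit 196681) (nat_lit 17) (.e (nat_lit 131120) (nat_lit 12) .nil)))) (.g (nat_lit 0) (.e (nat_lit 278592) (nat_lit 0) .nil) .nil))) 
(.lf (nat_lit 545725) (.g (nat_lit 4268) (.e (nat_lit 114718) (nat_lit 23) (.e (nat_lit 98367) (nat_lit 27) (.e (nat_lit 434231) (nat_lit 23) (.e (nat_lit 532500) (nat_lit 1) (.e (nat_lit 57692) (nat_lit 156) (.e (nat_lit 163874) (nat_lit 3) (.e (nat_lit 204838) (nat_lit 20) .nil))))))) (.g (nat_lit 1) (.e (nat_lit 280234) (nat_lit 0) .nil) .nil)))))) 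
(.nd (nat_lit 7) (.nd (nat_lit 8) (.nd (nat_lit 9) 
(.lf (nat_lit 544893) (.g (nat_lit 2877) (.e (nat_lit 114697) (nat_lit 11) (.e (nat_lit 426190) (nat_lit 9) (.e (nat_lit 426555) (nat_lit 32) (.e (nat_lit 376860) (nat_lit 21) (.e (nat_lit 57844) (nat_lit 252) (.e (nat_lit 57389) (nat_lit 5) .nil)))))) (.g (nat_lit 1) (.e (nat_lit 277933) (nat_lit 0) .nil) .nil))) 
(.lf (nat_lit 545405) (.g (nat_lit 3615) (.e (nat_lit 114714) (nat_lit 22) (.e (nat_lit 90174) (nat_lit 14) (.e (nat_lit 180243) (nat_lit 5) (.e (nat_lit 532503) (nat_lit 1) (.e (nat_lit 57688) (nat_lit 156) (.e (nat_lit 163874) (nat_lit 3) (.e (nat_lit 204836) (nat_lit 20) .nil))))))) (.g (nat_lit 1) (.e (nat_lit 279472) (nat_lit 0) .nil) .nil)))) (.nd (nat_lit 9) 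
(.lf (nat_lit 545149) (.g (nat_lit 2759) (.e (nat_lit 114698) (nat_lit 11) (.e (nat_lit 426327) (nat_lit 13) (.e (nat_lit 483383) (nat_lit 23) (.e (nat_lit 336336) (nat_lit 20) (.e (nat_lit 229120) (nat_lit 5) .nil))))) (.g (nat_lit 1) (.e (nat_lit 278430) (nat_lit 0) .nil) .nil))) 
(.lf (nat_lit 545661) (.g (nat_lit 4753) (.e (nat_lit 114718) (nat_lit 23) (.e (nat_lit 98356) (nat_lit 26) (.e (nat_lit 426438) (nat_lit 18) (.e (nat_lit 98333) (nat_lit 18) (.e (nat_lit 164327) (nat_lit 230) (.e (nat_lit 163875) (nat_lit 3) (.e (nat_lit 204837) (nat_lit 20) .nil))))))) (.g (nat_lit 1) (.e (nat_lit 280156) (nat_lit 0) .nil) .nil))))) (.nd (nat_lit 8) (.nd (nat_lit 9) 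
(.lf (nat_lit 545021) (.g (nat_lit 1519) (.e (nat_lit 114698) (nat_lit 11) (.e (nat_lit 426190) (nat_lit 9) (.e (nat_lit 426555) (nat_lit 32) (.e (nat_lit 376859) (nat_lit 21) (.e (nat_lit 57848) (nat_lit 252) .nil))))) (.g (nat_lit 0) (.e (nat_lit 278278) (nat_lit 0) .nil) .nil))) 
(.lf (nat_lit 545533) (.g (nat_lit 3134) (.e (nat_lit 114716) (nat_lit 22) (.e (nat_lit 90174) (nat_lit 14) (.e (nat_lit 180243) (nat_lit 5) (.e (nat_lit 532499) (nat_lit 1) (.e (nat_lit 57688) (nat_lit 156) (.e (nat_lit 163844) (nat_lit 0) (.e (nat_lit 3230) (nat_lit 197) (.e (nat_lit 532514) (nat_lit 3) .nil)))))))) (.g (nat_lit 1) (.e (nat_lit 279855) (nat_lit 0) .nil) .nil)))) 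
(.nd (nat_lit 9) 
(.lf (nat_lit 545277) (.g (nat_lit 1380) (.e (nat_lit 122624) (nat_lit 12) (.e (nat_lit 434244) (nat_lit 28) (.e (nat_lit 573449) (nat_lit 9) (.e (nat_lit 498) (nat_lit 40) .nil)))) (.g (nat_lit 0) (.e (nat_lit 278866) (nat_lit 0) .nil) .nil))) 
(.lf (nat_lit 545789) (.g (nat_lit 2139) (.e (nat_lit 114719) (nat_lit 23) (.e (nat_lit 98333) (nat_lit 18) (.e (nat_lit 164398) (nat_lit 256) (.e (nat_lit 57373) (nat_lit 2) (.e (nat_lit 90167) (nat_lit 13) .nil))))) (.g (nat_lit 0) (.e (nat_lit 280316) (nat_lit 0) .nil) .nil))))))))))) 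
(.nd (nat_lit 2) (.nd (nat_lit 3) (.nd (nat_lit 4) (.nd (nat_lit 5) (.nd (nat_lit 6) 
(.nd (nat_lit 7) (.nd (nat_lit 8) (.nd (nat_lit 9) 
(.lf (nat_lit 544771) (.g (nat_lit 1714) (.e (nat_lit 114696) (nat_lit 11) (.e (nat_lit 426232) (nat_lit 9) (.e (nat_lit 426554) (nat_lit 32) (.e (nat_lit 376859) (nat_lit 21) (.e (nat_lit 57848) (nat_lit 252) (.e (nat_lit 57388) (nat_lit 5) .nil)))))) (.g (nat_lit 1) (.e (nat_lit 277743) (nat_lit 0) .nil) .nil))) 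
(.lf (nat_lit 545283) (.g (nat_lit 1938) (.e (nat_lit 114702) (nat_lit 20) (.e (nat_lit 1804) (nat_lit 119) (.e (nat_lit 516120) (nat_lit 1) (.e (nat_lit 164401) (nat_lit 256) (.e (nat_lit 57373) (nat_lit 2) .nil))))) (.g (nat_lit 0) (.e (nat_lit 279160) (nat_lit 0) .nil) .nil)))) (.nd (nat_lit 9) 
(.lf (nat_lit 545027) (.g (nat_lit 2814) (.e (nat_lit 114698) (nat_lit 11) (.e (nat_lit 426197) (nat_lit 9) (.e (nat_lit 426542) (nat_lit 29) (.e (nat_lit 352307) (nat_lit 21) (.e (nat_lit 57853) (nat_lit 252) (.e (nat_lit 57388) (nat_lit 5) .nil)))))) (.g (nat_lit 1) (.e (nat_lit 278284) (nat_lit 0) .nil) .nil))) 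
(.lf (nat_lit 545539) (.g (nat_lit 1918) (.e (nat_lit 114716) (nat_lit 22) (.e (nat_lit 90174) (nat_lit 14) (.e (nat_lit 180243) (nat_lit 5) (.e (nat_lit 532501) (nat_lit 1) (.e (nat_lit 57663) (nat_lit 152) (.e (nat_lit 2717) (nat_lit 171) (.e (nat_lit 229432) (nat_lit 25) (.e (nat_lit 532514) (nat_lit 3) .nil)))))))) (.g (nat_lit 1) (.e (nat_lit 279878) (nat_lit 0) .nil) .nil))))) 
(.nd (nat_lit 8) (.nd (nat_lit 9) 
(.lf (nat_lit 544899) (.g (nat_lit 2314) (.e (nat_lit 114697) (nat_lit 11) (.e (nat_lit 426197) (nat_lit 9) (.e (nat_lit 426555) (nat_lit 32) (.e (nat_lit 376857) (nat_lit 21) (.e (nat_lit 57848) (nat_lit 252) (.e (nat_lit 57388) (nat_lit 5) .nil)))))) (.g (nat_lit 1) (.e (nat_lit 277940) (nat_lit 0) .nil) .nil))) 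
(.lf (nat_lit 545411) (.g (nat_lit 5029) (.e (nat_lit 114714) (nat_lit 22) (.e (nat_lit 90185) (nat_lit 17) (.e (nat_lit 237582) (nat_lit 1) (.e (nat_lit 164332) (nat_lit 230) (.e (nat_lit 163885) (nat_lit 5) (.e (nat_lit 221207) (nat_lit 21) (.e (nat_lit 164325) (nat_lit 230) (.e (nat_lit 171776) (nat_lit 66) .nil)))))))) (.g (nat_lit 1) (.e (nat_lit 279481) (nat_lit 0) .nil) .nil)))) 
(.nd (nat_lit 9) 
(.lf (nat_lit 545155) (.g (nat_lit 2420) (.e (nat_lit 114698) (nat_lit 11) (.e (nat_lit 426333) (nat_lit 13) (.e (nat_lit 483380) (nat_lit 23) (.e (nat_lit 336336) (nat_lit 20) (.e (nat_lit 229120) (nat_lit 5) .nil))))) (.g (nat_lit 1) (.e (nat_lit 278455) (nat_lit 0) .nil) .nil))) 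
(.lf (nat_lit 545667) (.g (nat_lit 3919) (.e (nat_lit 114718) (nat_lit 23) (.e (nat_lit 98357) (nat_lit 26) (.e (nat_lit 426436) (nat_lit 18) (.e (nat_lit 98335) (nat_lit 18) (.e (nat_lit 164305) (nat_lit 226) (.e (nat_lit 2612) (nat_lit 163) (.e (nat_lit 163964) (nat_lit 25) (.e (nat_lit 532513) (nat_lit 3) .nil)))))))) (.g (nat_lit 1) (.e (nat_lit 280163) (nat_lit 0) .nil) .nil)))))) 
(.nd (nat_lit 7) (.nd (nat_lit 8) (.nd (nat_lit 9) 
(.lf (nat_lit 544835) (.g (nat_lit 1895) (.e (nat_lit 114697) (nat_lit 11) (.e (nat_lit 426133) (nat_lit 3) (.e (nat_lit 204861) (nat_lit 26) (.e (nat_lit 336194) (nat_lit 12) (.e (nat_lit 385064) (nat_lit 26) .nil))))) (.g (nat_lit 0) (.e (nat_lit 277856) (nat_lit 0) .nil) .nil))) 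
(.lf (nat_lit 545347) (.g (nat_lit 3055) (.e (nat_lit 114714) (nat_lit 22) (.e (nat_lit 90172) (nat_lit 14) (.e (nat_lit 180243) (nat_lit 5) (.e (nat_lit 532504) (nat_lit 1) (.e (nat_lit 57664) (nat_lit 152) (.e (nat_lit 7936) (nat_lit 163) (.e (nat_lit 163962) (nat_lit 25) (.e (nat_lit 532513) (nat_lit 3) .nil)))))))) (.g (nat_lit 1) (.e (nat_lit 279376) (nat_lit 0) .nil) .nil)))) 
(.nd (nat_lit 9) 
(.lf (nat_lit 545091) (.g (nat_lit 985) (.e (nat_lit 114698) (nat_lit 11) (.e (nat_lit 426200) (nat_lit 9) (.e (nat_lit 426555) (nat_lit 32) (.e (nat_lit 376859) (nat_lit 21) .nil)))) (.g (nat_lit 0) (.e (nat_lit 278351) (nat_lit 0) .nil) .nil))) 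
(.lf (nat_lit 545603) (.g (nat_lit 2511) (.e (nat_lit 114717) (nat_lit 23) (.e (nat_lit 98384) (nat_lit 32) (.e (nat_lit 475177) (nat_lit 24) (.e (nat_lit 516120) (nat_lit 1) (.e (nat_lit 164330) (nat_lit 230) (.e (nat_lit 163874) (nat_lit 3) (.e (nat_lit 204836) (nat_lit 20) .nil))))))) (.g (nat_lit 1) (.e (nat_lit 280058) (nat_lit 0) .nil) .nil))))) (.nd (nat_lit 8) (.nd (nat_lit 9) 
(.lf (nat_lit 544963) (.g (nat_lit 1791) (.e (nat_lit 114698) (nat_lit 11) (.e (nat_lit 426116) (nat_lit 2) (.e (nat_lit 196681) (nat_lit 17) (.e (nat_lit 131122) (nat_lit 12) .nil)))) (.g (nat_lit 0) (.e (nat_lit 278139) (nat_lit 0) .nil) .nil))) 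
(.lf (nat_lit 545475) (.g (nat_lit 3547) (.e (nat_lit 114715) (nat_lit 22) (.e (nat_lit 90174) (nat_lit 14) (.e (nat_lit 180243) (nat_lit 5) (.e (nat_lit 532499) (nat_lit 1) (.e (nat_lit 57688) (nat_lit 156) (.e (nat_lit 163874) (nat_lit 3) (.e (nat_lit 204838) (nat_lit 20) .nil))))))) (.g (nat_lit 1) (.e (nat_lit 279587) (nat_lit 0) .nil) .nil)))) (.nd (nat_lit 9) 
(.lf (nat_lit 545219) (.g (nat_lit 879) (.e (nat_lit 122624) (nat_lit 11) (.e (nat_lit 426133) (nat_lit 3) (.e (nat_lit 204861) (nat_lit 26) .nil))) (.g (nat_lit 0) (.e (nat_lit 278612) (nat_lit 0) .nil) .nil))) 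
(.lf (nat_lit 545731) (.g (nat_lit 3591) (.e (nat_lit 114718) (nat_lit 23) (.e (nat_lit 98367) (nat_lit 27) (.e (nat_lit 434232) (nat_lit 23) (.e (nat_lit 532503) (nat_lit 1) (.e (nat_lit 57688) (nat_lit 156) (.e (nat_lit 163875) (nat_lit 3) (.e (nat_lit 204837) (nat_lit 20) .nil))))))) (.g (nat_lit 1) (.e (nat_lit 280240) (nat_lit 0) .nil) .nil))))))) 
(.nd (nat_lit 6) (.nd (nat_lit 7) (.nd (nat_lit 8) (.nd (nat_lit 9) 
(.lf (nat_lit 544803) (.g (nat_lit 1576) (.e (nat_lit 114697) (nat_lit 11) (.e (nat_lit 426114) (nat_lit 2) (.e (nat_lit 196681) (nat_lit 17) (.e (nat_lit 131122) (nat_lit 12) .nil)))) (.g (nat_lit 0) (.e (nat_lit 277788) (nat_lit 0) .nil) .nil))) 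
(.lf (nat_lit 545315) (.g (nat_lit 3261) (.e (nat_lit 114712) (nat_lit 21) (.e (nat_lit 57930) (nat_lit 282) (.e (nat_lit 163920) (nat_lit 14) (.e (nat_lit 442427) (nat_lit 23) (.e (nat_lit 204809) (nat_lit 9) (.e (nat_lit 433920) (nat_lit 20) .nil)))))) (.g (nat_lit 1) (.e (nat_lit 279323) (nat_lit 0) .nil) .nil)))) (.nd (nat_lit 9) 
(.lf (nat_lit 545059) (.g (nat_lit 1501) (.e (nat_lit 114698) (nat_lit 11) (.e (nat_lit 426198) (nat_lit 9) (.e (nat_lit 426555) (nat_lit 32) (.e (nat_lit 376858) (nat_lit 21) .nil)))) (.g (nat_lit 0) (.e (nat_lit 278318) (nat_lit 0) .nil) .nil))) 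
(.lf (nat_lit 545571) (.g (nat_lit 2559) (.e (nat_lit 114717) (nat_lit 23) (.e (nat_lit 98333) (nat_lit 18) (.e (nat_lit 164399) (nat_lit 256) (.e (nat_lit 57371) (nat_lit 2) (.e (nat_lit 90172) (nat_lit 14) .nil))))) (.g (nat_lit 0) (.e (nat_lit 280016) (nat_lit 0) .nil) .nil))))) (.nd (nat_lit 8) (.nd (nat_lit 9) 
(.lf (nat_lit 544931) (.g (nat_lit 1583) (.e (nat_lit 114697) (nat_lit 11) (.e (nat_lit 426198) (nat_lit 9) (.e (nat_lit 426555) (nat_lit 32) (.e (nat_lit 376858) (nat_lit 21) (.e (nat_lit 57854) (nat_lit 252) .nil))))) (.g (nat_lit 0) (.e (nat_lit 277974) (nat_lit 0) .nil) .nil))) 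
(.lf (nat_lit 545443) (.g (nat_lit 498) (.e (nat_lit 114715) (nat_lit 22) (.e (nat_lit 90170) (nat_lit 13) (.e (nat_lit 172067) (nat_lit 3) .nil))) (.g (nat_lit 0) (.e (nat_lit 279546) (nat_lit 0) .nil) .nil)))) (.nd (nat_lit 9) 
(.lf (nat_lit 545187) (.g (nat_lit 1138) (.e (nat_lit 114698) (nat_lit 11) (.e (nat_lit 426335) (nat_lit 13) (.e (nat_lit 491264) (nat_lit 23) (.e (nat_lit 336334) (nat_lit 20) (.e (nat_lit 229120) (nat_lit 5) .nil))))) (.g (nat_lit 1) (.e (nat_lit 278513) (nat_lit 0) .nil) .nil))) 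
(.lf (nat_lit 545699) (.g (nat_lit 3812) (.e (nat_lit 114718) (nat_lit 23) (.e (nat_lit 98366) (nat_lit 27) (.e (nat_lit 434231) (nat_lit 23) (.e (nat_lit 532500) (nat_lit 1) (.e (nat_lit 57692) (nat_lit 156) (.e (nat_lit 163875) (nat_lit 3) (.e (nat_lit 204838) (nat_lit 20) .nil))))))) (.g (nat_lit 1) (.e (nat_lit 280199) (nat_lit 0) .nil) .nil)))))) 
(.nd (nat_lit 7) (.nd (nat_lit 8) (.nd (nat_lit 9) 
(.lf (nat_lit 544867) (.g (nat_lit 2148) (.e (nat_lit 114697) (nat_lit 11) (.e (nat_lit 426139) (nat_lit 3) (.e (nat_lit 204861) (nat_lit 26) (.e (nat_lit 336086) (nat_lit 9) (.e (nat_lit 336324) (nat_lit 18) (.e (nat_lit 204838) (nat_lit 20) .nil)))))) (.g (nat_lit 1) (.e (nat_lit 277896) (nat_lit 0) .nil) .nil))) 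
(.lf (nat_lit 545379) (.g (nat_lit 2390) (.e (nat_lit 114714) (nat_lit 22) (.e (nat_lit 90172) (nat_lit 14) (.e (nat_lit 180244) (nat_lit 5) (.e (nat_lit 532504) (nat_lit 1) (.e (nat_lit 57651) (nat_lit 152) .nil))))) (.g (nat_lit 0) (.e (nat_lit 279434) (nat_lit 0) .nil) .nil)))) (.nd (nat_lit 9) 
(.lf (nat_lit 545123) (.g (nat_lit 2759) (.e (nat_lit 114698) (nat_lit 11) (.e (nat_lit 426325) (nat_lit 13) (.e (nat_lit 483385) (nat_lit 23) (.e (nat_lit 336336) (nat_lit 20) (.e (nat_lit 229120) (nat_lit 5) .nil))))) (.g (nat_lit 1) (.e (nat_lit 278388) (nat_lit 0) .nil) .nil))) 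
(.lf (nat_lit 545635) (.g (nat_lit 4197) (.e (nat_lit 114718) (nat_lit 23) (.e (nat_lit 98334) (nat_lit 18) (.e (nat_lit 164403) (nat_lit 256) (.e (nat_lit 57378) (nat_lit 3) (.e (nat_lit 98367) (nat_lit 27) (.e (nat_lit 434231) (nat_lit 23) (.e (nat_lit 532514) (nat_lit 3) .nil))))))) (.g (nat_lit 1) (.e (nat_lit 280118) (nat_lit 0) .nil) .nil))))) (.nd (nat_lit 8) (.nd (nat_lit 9) 
(.lf (nat_lit 544995) (.g (nat_lit 2849) (.e (nat_lit 114698) (nat_lit 11) (.e (nat_lit 426139) (nat_lit 3) (.e (nat_lit 204861) (nat_lit 26) (.e (nat_lit 336194) (nat_lit 12) (.e (nat_lit 385066) (nat_lit 26) (.e (nat_lit 532514) (nat_lit 3) .nil)))))) (.g (nat_lit 1) (.e (nat_lit 278234) (nat_lit 0) .nil) .nil))) 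
(.lf (nat_lit 545507) (.g (nat_lit 3397) (.e (nat_lit 114716) (nat_lit 22) (.e (nat_lit 90172) (nat_lit 14) (.e (nat_lit 180243) (nat_lit 5) (.e (nat_lit 532504) (nat_lit 1) (.e (nat_lit 57692) (nat_lit 156) (.e (nat_lit 163872) (nat_lit 3) (.e (nat_lit 204838) (nat_lit 20) .nil))))))) (.g (nat_lit 1) (.e (nat_lit 279690) (nat_lit 0) .nil) .nil)))) (.nd (nat_lit 9) 
(.lf (nat_lit 545251) (.g (nat_lit 2054) (.e (nat_lit 122624) (nat_lit 11) (.e (nat_lit 426188) (nat_lit 9) (.e (nat_lit 426555) (nat_lit 32) (.e (nat_lit 376860) (nat_lit 21) (.e (nat_lit 57853) (nat_lit 252) .nil))))) (.g (nat_lit 0) (.e (nat_lit 278677) (nat_lit 0) .nil) .nil))) 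
(.lf (nat_lit 545763) (.g (nat_lit 4245) (.e (nat_lit 114718) (nat_lit 23) (.e (nat_lit 98384) (nat_lit 32) (.e (nat_lit 475179) (nat_lit 24) (.e (nat_lit 516117) (nat_lit 1) (.e (nat_lit 164330) (nat_lit 230) (.e (nat_lit 163874) (nat_lit 3) (.e (nat_lit 204838) (nat_lit 20) .nil))))))) (.g (nat_lit 1) (.e (nat_lit 280281) (nat_lit 0) .nil) .nil)))))))) 
(.nd (nat_lit 5) (.nd (nat_lit 6) (.nd (nat_lit 7) (.nd (nat_lit 8) (.nd (nat_lit 9) 
(.lf (nat_lit 544787) (.g (nat_lit 2031) (.e (nat_lit 114696) (nat_lit 11) (.e (nat_lit 426234) (nat_lit 9) (.e (nat_lit 426554) (nat_lit 32) (.e (nat_lit 376860) (nat_lit 21) (.e (nat_lit 57854) (nat_lit 252) (.e (nat_lit 57388) (nat_lit 5) .nil)))))) (.g (nat_lit 1) (.e (nat_lit 277759) (nat_lit 0) .nil) .nil))) 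
(.lf (nat_lit 545299) (.g (nat_lit 582) (.e (nat_lit 114708) (nat_lit 20) (.e (nat_lit 2174) (nat_lit 143) (.e (nat_lit 712745) (nat_lit 27) .nil))) (.g (nat_lit 0) (.e (nat_lit 279186) (nat_lit 0) .nil) .nil)))) (.nd (nat_lit 9) 
(.lf (nat_lit 545043) (.g (nat_lit 3065) (.e (nat_lit 114698) (nat_lit 11) (.e (nat_lit 426197) (nat_lit 9) (.e (nat_lit 426555) (nat_lit 32) (.e (nat_lit 376859) (nat_lit 21) (.e (nat_lit 57849) (nat_lit 252) (.e (nat_lit 57390) (nat_lit 5) .nil)))))) (.g (nat_lit 1) (.e (nat_lit 278300) (nat_lit 0) .nil) .nil))) 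
(.lf (nat_lit 545555) (.g (nat_lit 3523) (.e (nat_lit 114716) (nat_lit 22) (.e (nat_lit 90185) (nat_lit 17) (.e (nat_lit 237582) (nat_lit 1) (.e (nat_lit 164332) (nat_lit 230) (.e (nat_lit 163885) (nat_lit 5) (.e (nat_lit 221208) (nat_lit 21) (.e (nat_lit 164330) (nat_lit 230) (.e (nat_lit 171776) (nat_lit 66) .nil)))))))) (.g (nat_lit 1) (.e (nat_lit 279965) (nat_lit 0) .nil) .nil))))) 
(.nd (nat_lit 8) (.nd (nat_lit 9) 
(.lf (nat_lit 544915) (.g (nat_lit 2212) (.e (nat_lit 114697) (nat_lit 11) (.e (nat_lit 426198) (nat_lit 9) (.e (nat_lit 426542) (nat_lit 29) (.e (nat_lit 352307) (nat_lit 21) (.e (nat_lit 57847) (nat_lit 252) (.e (nat_lit 57390) (nat_lit 5) .nil)))))) (.g (nat_lit 1) (.e (nat_lit 277957) (nat_lit 0) .nil) .nil))) 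
(.lf (nat_lit 545427) (.g (nat_lit 932) (.e (nat_lit 114715) (nat_lit 22) (.e (nat_lit 90170) (nat_lit 13) (.e (nat_lit 172065) (nat_lit 3) (.e (nat_lit 204830) (nat_lit 18) .nil)))) (.g (nat_lit 0) (.e (nat_lit 279525) (nat_lit 0) .nil) .nil)))) (.nd (nat_lit 9) 
(.lf (nat_lit 545171) (.g (nat_lit 1057) (.e (nat_lit 114698) (nat_lit 11) (.e (nat_lit 426335) (nat_lit 13) (.e (nat_lit 483378) (nat_lit 23) .nil))) (.g (nat_lit 0) (.e (nat_lit 278490) (nat_lit 0) .nil) .nil))) 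
(.lf (nat_lit 545683) (.g (nat_lit 3003) (.e (nat_lit 114718) (nat_lit 23) (.e (nat_lit 98366) (nat_lit 27) (.e (nat_lit 434231) (nat_lit 23) (.e (nat_lit 532499) (nat_lit 1) (.e (nat_lit 57687) (nat_lit 156) .nil))))) (.g (nat_lit 0) (.e (nat_lit 280183) (nat_lit 0) .nil) .nil)))))) (.nd (nat_lit 7) (.nd (nat_lit 8) (.nd (nat_lit 9) 
(.lf (nat_lit 544851) (.g (nat_lit 2341) (.e (nat_lit 114697) (nat_lit 11) (.e (nat_lit 426137) (nat_lit 3) (.e (nat_lit 204877) (nat_lit 31) (.e (nat_lit 376835) (nat_lit 0) (.e (nat_lit 3253) (nat_lit 197) (.e (nat_lit 532515) (nat_lit 3) .nil)))))) (.g (nat_lit 1) (.e (nat_lit 277876) (nat_lit 0) .nil) .nil))) 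
(.lf (nat_lit 545363) (.g (nat_lit 2373) (.e (nat_lit 114714) (nat_lit 22) (.e (nat_lit 90172) (nat_lit 14) (.e (nat_lit 180244) (nat_lit 5) (.e (nat_lit 532501) (nat_lit 1) (.e (nat_lit 57662) (nat_lit 152) (.e (nat_lit 2612) (nat_lit 163) (.e (nat_lit 163964) (nat_lit 25) (.e (nat_lit 532513) (nat_lit 3) .nil)))))))) (.g (nat_lit 1) (.e (nat_lit 279405) (nat_lit 0) .nil) .nil)))) 
(.nd (nat_lit 9) 
(.lf (nat_lit 545107) (.g (nat_lit 2164) (.e (nat_lit 114698) (nat_lit 11) (.e (nat_lit 426213) (nat_lit 9) (.e (nat_lit 426498) (nat_lit 27) (.e (nat_lit 336194) (nat_lit 12) (.e (nat_lit 385109) (nat_lit 51) (.e (nat_lit 802560) (nat_lit 5) .nil)))))) (.g (nat_lit 1) (.e (nat_lit 278368) (nat_lit 0) .nil) .nil))) 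
(.lf (nat_lit 545619) (.g (nat_lit 430) (.e (nat_lit 114718) (nat_lit 23) (.e (nat_lit 98333) (nat_lit 18) (.e (nat_lit 164399) (nat_lit 256) .nil))) (.g (nat_lit 0) (.e (nat_lit 280088) (nat_lit 0) .nil) .nil))))) (.nd (nat_lit 8) (.nd (nat_lit 9) 
(.lf (nat_lit 544979) (.g (nat_lit 1073) (.e (nat_lit 114698) (nat_lit 11) (.e (nat_lit 426133) (nat_lit 3) (.e (nat_lit 204850) (nat_lit 26) .nil))) (.g (nat_lit 0) (.e (nat_lit 278196) (nat_lit 0) .nil) .nil))) 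
(.lf (nat_lit 545491) (.g (nat_lit 5438) (.e (nat_lit 114716) (nat_lit 22) (.e (nat_lit 90160) (nat_lit 11) (.e (nat_lit 24665) (nat_lit 14) (.e (nat_lit 401414) (nat_lit 0) (.e (nat_lit 3272) (nat_lit 199) (.e (nat_lit 548913) (nat_lit 18) (.e (nat_lit 179968) (nat_lit 20) .nil))))))) (.g (nat_lit 1) (.e (nat_lit 279624) (nat_lit 0) .nil) .nil)))) (.nd (nat_lit 9) 
(.lf (nat_lit 545235) (.g (nat_lit 399) (.e (nat_lit 122624) (nat_lit 11) (.e (nat_lit 426140) (nat_lit 3) (.e (nat_lit 204865) (nat_lit 28) .nil))) (.g (nat_lit 0) (.e (nat_lit 278646) (nat_lit 0) .nil) .nil))) 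
(.lf (nat_lit 545747) (.g (nat_lit 2817) (.e (nat_lit 114718) (nat_lit 23) (.e (nat_lit 98384) (nat_lit 32) (.e (nat_lit 475177) (nat_lit 24) (.e (nat_lit 516120) (nat_lit 1) (.e (nat_lit 164330) (nat_lit 230) (.e (nat_lit 163874) (nat_lit 3) (.e (nat_lit 204836) (nat_lit 20) .nil))))))) (.g (nat_lit 1) (.e (nat_lit 280260) (nat_lit 0) .nil) .nil))))))) 
(.nd (nat_lit 6) (.nd (nat_lit 7) (.nd (nat_lit 8) (.nd (nat_lit 9) 
(.lf (nat_lit 544819) (.g (nat_lit 480) (.e (nat_lit 114697) (nat_lit 11) (.e (nat_lit 426123) (nat_lit 2) (.e (nat_lit 196672) (nat_lit 15) .nil))) (.g (nat_lit 0) (.e (nat_lit 277829) (nat_lit 0) .nil) .nil))) 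
(.lf (nat_lit 545331) (.g (nat_lit 1979) (.e (nat_lit 114714) (nat_lit 22) (.e (nat_lit 90170) (nat_lit 13) (.e (nat_lit 172067) (nat_lit 3) (.e (nat_lit 204821) (nat_lit 17) .nil)))) (.g (nat_lit 0) (.e (nat_lit 279353) (nat_lit 0) .nil) .nil)))) (.nd (nat_lit 9) 
(.lf (nat_lit 545075) (.g (nat_lit 2588) (.e (nat_lit 114698) (nat_lit 11) (.e (nat_lit 426200) (nat_lit 9) (.e (nat_lit 426478) (nat_lit 27) (.e (nat_lit 336089) (nat_lit 9) (.e (nat_lit 336336) (nat_lit 20) (.e (nat_lit 229120) (nat_lit 5) .nil)))))) (.g (nat_lit 1) (.e (nat_lit 278334) (nat_lit 0) .nil) .nil))) 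
(.lf (nat_lit 545587) (.g (nat_lit 2808) (.e (nat_lit 114717) (nat_lit 23) (.e (nat_lit 98334) (nat_lit 18) (.e (nat_lit 164398) (nat_lit 256) (.e (nat_lit 57379) (nat_lit 3) (.e (nat_lit 98354) (nat_lit 26) .nil))))) (.g (nat_lit 0) (.e (nat_lit 280042) (nat_lit 0) .nil) .nil))))) (.nd (nat_lit 8) (.nd (nat_lit 9) 
(.lf (nat_lit 544947) (.g (nat_lit 2934) (.e (nat_lit 114697) (nat_lit 11) (.e (nat_lit 426199) (nat_lit 9) (.e (nat_lit 426555) (nat_lit 32) (.e (nat_lit 376859) (nat_lit 21) (.e (nat_lit 57849) (nat_lit 252) (.e (nat_lit 57390) (nat_lit 5) .nil)))))) (.g (nat_lit 1) (.e (nat_lit 277990) (nat_lit 0) .nil) .nil))) 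
(.lf (nat_lit 545459) (.g (nat_lit 4191) (.e (nat_lit 114715) (nat_lit 22) (.e (nat_lit 90170) (nat_lit 13) (.e (nat_lit 172067) (nat_lit 3) (.e (nat_lit 204830) (nat_lit 18) (.e (nat_lit 57691) (nat_lit 156) (.e (nat_lit 163874) (nat_lit 3) (.e (nat_lit 204837) (nat_lit 20) .nil))))))) (.g (nat_lit 1) (.e (nat_lit 279569) (nat_lit 0) .nil) .nil)))) (.nd (nat_lit 9) 
(.lf (nat_lit 545203) (.g (nat_lit 1378) (.e (nat_lit 122624) (nat_lit 11) (.e (nat_lit 426125) (nat_lit 2) (.e (nat_lit 196666) (nat_lit 13) (.e (nat_lit 65622) (nat_lit 12) .nil)))) (.g (nat_lit 0) (.e (nat_lit 278572) (nat_lit 0) .nil) .nil))) 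
(.lf (nat_lit 545715) (.g (nat_lit 4598) (.e (nat_lit 114718) (nat_lit 23) (.e (nat_lit 98367) (nat_lit 27) (.e (nat_lit 434231) (nat_lit 23) (.e (nat_lit 532499) (nat_lit 1) (.e (nat_lit 57688) (nat_lit 156) (.e (nat_lit 163874) (nat_lit 3) (.e (nat_lit 204838) (nat_lit 20) .nil))))))) (.g (nat_lit 1) (.e (nat_lit 280221) (nat_lit 0) .nil) .nil)))))) 
(.nd (nat_lit 7) (.nd (nat_lit 8) (.nd (nat_lit 9) 
(.lf (nat_lit 544883) (.g (nat_lit 2983) (.e (nat_lit 114697) (nat_lit 11) (.e (nat_lit 426190) (nat_lit 9) (.e (nat_lit 426555) (nat_lit 32) (.e (nat_lit 376857) (nat_lit 21) (.e (nat_lit 57846) (nat_lit 252) (.e (nat_lit 57389) (nat_lit 5) .nil)))))) (.g (nat_lit 1) (.e (nat_lit 277923) (nat_lit 0) .nil) .nil))) 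
(.lf (nat_lit 545395) (.g (nat_lit 2790) (.e (nat_lit 114714) (nat_lit 22) (.e (nat_lit 90174) (nat_lit 14) (.e (nat_lit 180243) (nat_lit 5) (.e (nat_lit 532501) (nat_lit 1) (.e (nat_lit 57664) (nat_lit 152) (.e (nat_lit 7936) (nat_lit 163) (.e (nat_lit 163962) (nat_lit 25) (.e (nat_lit 532513) (nat_lit 3) .nil)))))))) (.g (nat_lit 1) (.e (nat_lit 279461) (nat_lit 0) .nil) .nil)))) 
(.nd (nat_lit 9) 
(.lf (nat_lit 545139) (.g (nat_lit 1618) (.e (nat_lit 114698) (nat_lit 11) (.e (nat_lit 426326) (nat_lit 13) (.e (nat_lit 483381) (nat_lit 23) (.e (nat_lit 336336) (nat_lit 20) (.e (nat_lit 229120) (nat_lit 5) .nil))))) (.g (nat_lit 1) (.e (nat_lit 278416) (nat_lit 0) .nil) .nil))) 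
(.lf (nat_lit 545651) (.g (nat_lit 3387) (.e (nat_lit 114718) (nat_lit 23) (.e (nat_lit 98356) (nat_lit 26) (.e (nat_lit 426436) (nat_lit 18) (.e (nat_lit 98334) (nat_lit 18) (.e (nat_lit 164330) (nat_lit 230) (.e (nat_lit 163872) (nat_lit 3) (.e (nat_lit 204838) (nat_lit 20) .nil))))))) (.g (nat_lit 1) (.e (nat_lit 280142) (nat_lit 0) .nil) .nil))))) (.nd (nat_lit 8) (.nd (nat_lit 9) 
(.lf (nat_lit 545011) (.g (nat_lit 3656) (.e (nat_lit 114698) (nat_lit 11) (.e (nat_lit 426188) (nat_lit 9) (.e (nat_lit 426555) (nat_lit 32) (.e (nat_lit 376859) (nat_lit 21) (.e (nat_lit 57854) (nat_lit 252) (.e (nat_lit 57389) (nat_lit 5) .nil)))))) (.g (nat_lit 1) (.e (nat_lit 278268) (nat_lit 0) .nil) .nil))) 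
(.lf (nat_lit 545523) (.g (nat_lit 478) (.e (nat_lit 114716) (nat_lit 22) (.e (nat_lit 90172) (nat_lit 14) (.e (nat_lit 180250) (nat_lit 10) .nil))) (.g (nat_lit 0) (.e (nat_lit 279807) (nat_lit 0) .nil) .nil)))) (.nd (nat_lit 9) 
(.lf (nat_lit 545267) (.g (nat_lit 1236) (.e (nat_lit 122624) (nat_lit 11) (.e (nat_lit 426566) (nat_lit 34) (.e (nat_lit 393259) (nat_lit 21) (.e (nat_lit 409612) (nat_lit 10) .nil)))) (.g (nat_lit 0) (.e (nat_lit 278741) (nat_lit 0) .nil) .nil))) 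
(.lf (nat_lit 545779) (.g (nat_lit 3988) (.e (nat_lit 114719) (nat_lit 23) (.e (nat_lit 98332) (nat_lit 18) (.e (nat_lit 164327) (nat_lit 230) (.e (nat_lit 163871) (nat_lit 2) (.e (nat_lit 196654) (nat_lit 11) (.e (nat_lit 16416) (nat_lit 3) (.e (nat_lit 204837) (nat_lit 20) .nil))))))) (.g (nat_lit 1) (.e (nat_lit 280300) (nat_lit 0) .nil) .nil))))))))) 
(.nd (nat_lit 4) (.nd (nat_lit 5) (.nd (nat_lit 6) (.nd (nat_lit 7) (.nd (nat_lit 8) 
(.nd (nat_lit 9) 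
(.lf (nat_lit 544779) (.g (nat_lit 1926) (.e (nat_lit 114696) (nat_lit 11) (.e (nat_lit 426234) (nat_lit 9) (.e (nat_lit 426554) (nat_lit 32) (.e (nat_lit 376857) (nat_lit 21) (.e (nat_lit 57849) (nat_lit 252) (.e (nat_lit 57388) (nat_lit 5) .nil)))))) (.g (nat_lit 1) (.e (nat_lit 277751) (nat_lit 0) .nil) .nil))) 
(.lf (nat_lit 545291) (.g (nat_lit 1978) (.e (nat_lit 114708) (nat_lit 20) (.e (nat_lit 1800) (nat_lit 119) (.e (nat_lit 516115) (nat_lit 1) (.e (nat_lit 164399) (nat_lit 256) (.e (nat_lit 57372) (nat_lit 2) .nil))))) (.g (nat_lit 0) (.e (nat_lit 279174) (nat_lit 0) .nil) .nil)))) (.nd (nat_lit 9) 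
(.lf (nat_lit 545035) (.g (nat_lit 3222) (.e (nat_lit 114698) (nat_lit 11) (.e (nat_lit 426197) (nat_lit 9) (.e (nat_lit 426555) (nat_lit 32) (.e (nat_lit 376857) (nat_lit 21) (.e (nat_lit 57847) (nat_lit 252) (.e (nat_lit 57390) (nat_lit 5) .nil)))))) (.g (nat_lit 1) (.e (nat_lit 278292) (nat_lit 0) .nil) .nil))) 
(.lf (nat_lit 545547) (.g (nat_lit 2662) (.e (nat_lit 114716) (nat_lit 22) (.e (nat_lit 90174) (nat_lit 14) (.e (nat_lit 180243) (nat_lit 5) (.e (nat_lit 532503) (nat_lit 1) (.e (nat_lit 57692) (nat_lit 156) (.e (nat_lit 163874) (nat_lit 3) (.e (nat_lit 204836) (nat_lit 20) .nil))))))) (.g (nat_lit 1) (.e (nat_lit 279928) (nat_lit 0) .nil) .nil))))) (.nd (nat_lit 8) (.nd (nat_lit 9) 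
(.lf (nat_lit 544907) (.g (nat_lit 2328) (.e (nat_lit 114697) (nat_lit 11) (.e (nat_lit 426197) (nat_lit 9) (.e (nat_lit 426555) (nat_lit 32) (.e (nat_lit 376859) (nat_lit 21) (.e (nat_lit 57853) (nat_lit 252) (.e (nat_lit 57389) (nat_lit 5) .nil)))))) (.g (nat_lit 1) (.e (nat_lit 277948) (nat_lit 0) .nil) .nil))) 
(.lf (nat_lit 545419) (.g (nat_lit 732) (.e (nat_lit 114715) (nat_lit 22) (.e (nat_lit 90170) (nat_lit 13) (.e (nat_lit 172062) (nat_lit 2) .nil))) (.g (nat_lit 0) (.e (nat_lit 279510) (nat_lit 0) .nil) .nil)))) (.nd (nat_lit 9) 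
(.lf (nat_lit 545163) (.g (nat_lit 1571) (.e (nat_lit 114698) (nat_lit 11) (.e (nat_lit 426334) (nat_lit 13) (.e (nat_lit 483381) (nat_lit 23) (.e (nat_lit 336336) (nat_lit 20) (.e (nat_lit 229120) (nat_lit 5) .nil))))) (.g (nat_lit 1) (.e (nat_lit 278472) (nat_lit 0) .nil) .nil))) 
(.lf (nat_lit 545675) (.g (nat_lit 3031) (.e (nat_lit 114718) (nat_lit 23) (.e (nat_lit 98365) (nat_lit 26) (.e (nat_lit 426139) (nat_lit 3) (.e (nat_lit 204829) (nat_lit 18) (.e (nat_lit 57686) (nat_lit 156) (.e (nat_lit 163875) (nat_lit 3) (.e (nat_lit 204838) (nat_lit 20) .nil))))))) (.g (nat_lit 1) (.e (nat_lit 280173) (nat_lit 0) .nil) .nil)))))) 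
(.nd (nat_lit 7) (.nd (nat_lit 8) (.nd (nat_lit 9) 
(.lf (nat_lit 544843) (.g (nat_lit 2842) (.e (nat_lit 114697) (nat_lit 11) (.e (nat_lit 426137) (nat_lit 3) (.e (nat_lit 204861) (nat_lit 26) (.e (nat_lit 336075) (nat_lit 9) (.e (nat_lit 336324) (nat_lit 18) (.e (nat_lit 204838) (nat_lit 20) .nil)))))) (.g (nat_lit 1) (.e (nat_lit 277866) (nat_lit 0) .nil) .nil))) 
(.lf (nat_lit 545355) (.g (nat_lit 2495) (.e (nat_lit 114714) (nat_lit 22) (.e (nat_lit 90172) (nat_lit 14) (.e (nat_lit 180244) (nat_lit 5) (.e (nat_lit 532499) (nat_lit 1) (.e (nat_lit 57665) (nat_lit 152) (.e (nat_lit 7936) (nat_lit 163) (.e (nat_lit 163964) (nat_lit 25) (.e (nat_lit 532513) (nat_lit 3) .nil)))))))) (.g (nat_lit 1) (.e (nat_lit 279390) (nat_lit 0) .nil) .nil)))) 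
(.nd (nat_lit 9) 
(.lf (nat_lit 545099) (.g (nat_lit 3201) (.e (nat_lit 114698) (nat_lit 11) (.e (nat_lit 426204) (nat_lit 9) (.e (nat_lit 426499) (nat_lit 27) (.e (nat_lit 336194) (nat_lit 12) (.e (nat_lit 385109) (nat_lit 51) (.e (nat_lit 802560) (nat_lit 5) .nil)))))) (.g (nat_lit 1) (.e (nat_lit 278360) (nat_lit 0) .nil) .nil))) 
(.lf (nat_lit 545611) (.g (nat_lit 1926) (.e (nat_lit 114718) (nat_lit 23) (.e (nat_lit 98333) (nat_lit 18) (.e (nat_lit 164325) (nat_lit 230) (.e (nat_lit 163863) (nat_lit 1) (.e (nat_lit 164403) (nat_lit 256) (.e (nat_lit 57446) (nat_lit 19) (.e (nat_lit 401152) (nat_lit 3) .nil))))))) (.g (nat_lit 1) (.e (nat_lit 280073) (nat_lit 0) .nil) .nil))))) (.nd (nat_lit 8) (.nd (nat_lit 9) 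
(.lf (nat_lit 544971) (.g (nat_lit 3259) (.e (nat_lit 114698) (nat_lit 11) (.e (nat_lit 426123) (nat_lit 2) (.e (nat_lit 196666) (nat_lit 13) (.e (nat_lit 65617) (nat_lit 10) (.e (nat_lit 344091) (nat_lit 18) .nil))))) (.g (nat_lit 0) (.e (nat_lit 278159) (nat_lit 0) .nil) .nil))) 
(.lf (nat_lit 545483) (.g (nat_lit 1769) (.e (nat_lit 114715) (nat_lit 22) (.e (nat_lit 90196) (nat_lit 18) (.e (nat_lit 2797) (nat_lit 180) (.e (nat_lit 303127) (nat_lit 9) (.e (nat_lit 426568) (nat_lit 34) .nil))))) (.g (nat_lit 0) (.e (nat_lit 279597) (nat_lit 0) .nil) .nil)))) (.nd (nat_lit 9) 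
(.lf (nat_lit 545227) (.g (nat_lit 1460) (.e (nat_lit 122624) (nat_lit 11) (.e (nat_lit 426139) (nat_lit 3) (.e (nat_lit 204861) (nat_lit 26) (.e (nat_lit 336074) (nat_lit 9) .nil)))) (.g (nat_lit 0) (.e (nat_lit 278625) (nat_lit 0) .nil) .nil))) 
(.lf (nat_lit 545739) (.g (nat_lit 3466) (.e (nat_lit 114718) (nat_lit 23) (.e (nat_lit 98384) (nat_lit 32) (.e (nat_lit 475177) (nat_lit 24) (.e (nat_lit 516117) (nat_lit 1) (.e (nat_lit 164330) (nat_lit 230) (.e (nat_lit 163872) (nat_lit 3) (.e (nat_lit 204837) (nat_lit 20) .nil))))))) (.g (nat_lit 1) (.e (nat_lit 280252) (nat_lit 0) .nil) .nil))))))) 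
(.nd (nat_lit 6) (.nd (nat_lit 7) (.nd (nat_lit 8) (.nd (nat_lit 9) 
(.lf (nat_lit 544811) (.g (nat_lit 2295) (.e (nat_lit 114697) (nat_lit 11) (.e (nat_lit 426122) (nat_lit 2) (.e (nat_lit 196681) (nat_lit 17) (.e (nat_lit 131120) (nat_lit 12) (.e (nat_lit 385068) (nat_lit 26) (.e (nat_lit 532513) (nat_lit 3) .nil)))))) (.g (nat_lit 1) (.e (nat_lit 277811) (nat_lit 0) .nil) .nil))) 
(.lf (nat_lit 545323) (.g (nat_lit 3739) (.e (nat_lit 114712) (nat_lit 21) (.e (nat_lit 57930) (nat_lit 282) (.e (nat_lit 163923) (nat_lit 15) (.e (nat_lit 450588) (nat_lit 10) (.e (nat_lit 573475) (nat_lit 12) (.e (nat_lit 57360) (nat_lit 0) (.e (nat_lit 5949) (nat_lit 322) (.e (nat_lit 57388) (nat_lit 5) .nil)))))))) (.g (nat_lit 1) (.e (nat_lit 279332) (nat_lit 0) .nil) .nil)))) 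
(.nd (nat_lit 9) 
(.lf (nat_lit 545067) (.g (nat_lit 2039) (.e (nat_lit 114698) (nat_lit 11) (.e (nat_lit 426199) (nat_lit 9) (.e (nat_lit 426555) (nat_lit 32) (.e (nat_lit 376857) (nat_lit 21) (.e (nat_lit 57848) (nat_lit 252) (.e (nat_lit 57390) (nat_lit 5) .nil)))))) (.g (nat_lit 1) (.e (nat_lit 278326) (nat_lit 0) .nil) .nil))) 
(.lf (nat_lit 545579) (.g (nat_lit 1672) (.e (nat_lit 114717) (nat_lit 23) (.e (nat_lit 98334) (nat_lit 18) (.e (nat_lit 164332) (nat_lit 230) (.e (nat_lit 163867) (nat_lit 2) .nil)))) (.g (nat_lit 0) (.e (nat_lit 280032) (nat_lit 0) .nil) .nil))))) (.nd (nat_lit 8) (.nd (nat_lit 9) 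
(.lf (nat_lit 544939) (.g (nat_lit 3607) (.e (nat_lit 114697) (nat_lit 11) (.e (nat_lit 426198) (nat_lit 9) (.e (nat_lit 426555) (nat_lit 32) (.e (nat_lit 376860) (nat_lit 21) (.e (nat_lit 57854) (nat_lit 252) (.e (nat_lit 57389) (nat_lit 5) .nil)))))) (.g (nat_lit 1) (.e (nat_lit 277982) (nat_lit 0) .nil) .nil))) 
(.lf (nat_lit 545451) (.g (nat_lit 4358) (.e (nat_lit 114715) (nat_lit 22) (.e (nat_lit 90170) (nat_lit 13) (.e (nat_lit 172067) (nat_lit 3) (.e (nat_lit 204829) (nat_lit 18) (.e (nat_lit 57691) (nat_lit 156) (.e (nat_lit 163875) (nat_lit 3) (.e (nat_lit 204838) (nat_lit 20) .nil))))))) (.g (nat_lit 1) (.e (nat_lit 279559) (nat_lit 0) .nil) .nil)))) (.nd (nat_lit 9) 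
(.lf (nat_lit 545195) (.g (nat_lit 2272) (.e (nat_lit 114698) (nat_lit 11) (.e (nat_lit 426335) (nat_lit 13) (.e (nat_lit 483407) (nat_lit 26) (.e (nat_lit 385109) (nat_lit 51) (.e (nat_lit 802560) (nat_lit 5) .nil))))) (.g (nat_lit 1) (.e (nat_lit 278521) (nat_lit 0) .nil) .nil))) 
(.lf (nat_lit 545707) (.g (nat_lit 960) (.e (nat_lit 114718) (nat_lit 23) (.e (nat_lit 98367) (nat_lit 27) (.e (nat_lit 434227) (nat_lit 20) .nil))) (.g (nat_lit 0) (.e (nat_lit 280207) (nat_lit 0) .nil) .nil)))))) (.nd (nat_lit 7) (.nd (nat_lit 8) (.nd (nat_lit 9) 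
(.lf (nat_lit 544875) (.g (nat_lit 3306) (.e (nat_lit 114697) (nat_lit 11) (.e (nat_lit 426188) (nat_lit 9) (.e (nat_lit 426555) (nat_lit 32) (.e (nat_lit 376859) (nat_lit 21) (.e (nat_lit 57849) (nat_lit 252) (.e (nat_lit 57388) (nat_lit 5) .nil)))))) (.g (nat_lit 1) (.e (nat_lit 277915) (nat_lit 0) .nil) .nil))) 
(.lf (nat_lit 545387) (.g (nat_lit 3004) (.e (nat_lit 114714) (nat_lit 22) (.e (nat_lit 90174) (nat_lit 14) (.e (nat_lit 180243) (nat_lit 5) (.e (nat_lit 532499) (nat_lit 1) (.e (nat_lit 57652) (nat_lit 152) (.e (nat_lit 2612) (nat_lit 163) (.e (nat_lit 163964) (nat_lit 25) (.e (nat_lit 532513) (nat_lit 3) .nil)))))))) (.g (nat_lit 1) (.e (nat_lit 279449) (nat_lit 0) .nil) .nil)))) 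
(.nd (nat_lit 9) 
(.lf (nat_lit 545131) (.g (nat_lit 2352) (.e (nat_lit 114698) (nat_lit 11) (.e (nat_lit 426325) (nat_lit 13) (.e (nat_lit 483404) (nat_lit 26) (.e (nat_lit 385109) (nat_lit 51) (.e (nat_lit 802560) (nat_lit 5) .nil))))) (.g (nat_lit 1) (.e (nat_lit 278408) (nat_lit 0) .nil) .nil))) 
(.lf (nat_lit 545643) (.g (nat_lit 2705) (.e (nat_lit 114718) (nat_lit 23) (.e (nat_lit 98335) (nat_lit 18) (.e (nat_lit 164403) (nat_lit 256) (.e (nat_lit 57377) (nat_lit 3) (.e (nat_lit 98377) (nat_lit 30) .nil))))) (.g (nat_lit 0) (.e (nat_lit 280134) (nat_lit 0) .nil) .nil))))) (.nd (nat_lit 8) (.nd (nat_lit 9) 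
(.lf (nat_lit 545003) (.g (nat_lit 1939) (.e (nat_lit 114698) (nat_lit 11) (.e (nat_lit 426172) (nat_lit 7) (.e (nat_lit 409645) (nat_lit 18) (.e (nat_lit 303143) (nat_lit 12) (.e (nat_lit 475212) (nat_lit 42) .nil))))) (.g (nat_lit 0) (.e (nat_lit 278260) (nat_lit 0) .nil) .nil))) 
(.lf (nat_lit 545515) (.g (nat_lit 2342) (.e (nat_lit 114716) (nat_lit 22) (.e (nat_lit 90172) (nat_lit 14) (.e (nat_lit 180244) (nat_lit 5) (.e (nat_lit 532499) (nat_lit 1) (.e (nat_lit 57689) (nat_lit 156) .nil))))) (.g (nat_lit 0) (.e (nat_lit 279733) (nat_lit 0) .nil) .nil)))) (.nd (nat_lit 9) 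
(.lf (nat_lit 545259) (.g (nat_lit 1763) (.e (nat_lit 122624) (nat_lit 11) (.e (nat_lit 426200) (nat_lit 9) (.e (nat_lit 426555) (nat_lit 32) (.e (nat_lit 376859) (nat_lit 21) .nil)))) (.g (nat_lit 0) (.e (nat_lit 278685) (nat_lit 0) .nil) .nil))) 
(.lf (nat_lit 545771) (.g (nat_lit 3853) (.e (nat_lit 114718) (nat_lit 23) (.e (nat_lit 98384) (nat_lit 32) (.e (nat_lit 475179) (nat_lit 24) (.e (nat_lit 516120) (nat_lit 1) (.e (nat_lit 164330) (nat_lit 230) (.e (nat_lit 163874) (nat_lit 3) (.e (nat_lit 204836) (nat_lit 20) .nil))))))) (.g (nat_lit 1) (.e (nat_lit 280291) (nat_lit 0) .nil) .nil)))))))) 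
(.nd (nat_lit 5) (.nd (nat_lit 6) (.nd (nat_lit 7) (.nd (nat_lit 8) (.nd (nat_lit 9) 
(.lf (nat_lit 544795) (.g (nat_lit 1831) (.e (nat_lit 114696) (nat_lit 11) (.e (nat_lit 426262) (nat_lit 9) (.e (nat_lit 426554) (nat_lit 32) (.e (nat_lit 376859) (nat_lit 21) (.e (nat_lit 57847) (nat_lit 252) (.e (nat_lit 57388) (nat_lit 5) .nil)))))) (.g (nat_lit 1) (.e (nat_lit 277767) (nat_lit 0) .nil) .nil))) 
(.lf (nat_lit 545307) (.g (nat_lit 1167) (.e (nat_lit 114711) (nat_lit 21) (.e (nat_lit 57872) (nat_lit 264) (.e (nat_lit 1209) (nat_lit 89) (.e (nat_lit 81664) (nat_lit 35) .nil)))) (.g (nat_lit 0) (.e (nat_lit 279256) (nat_lit 0) .nil) .nil)))) (.nd (nat_lit 9) 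
(.lf (nat_lit 545051) (.g (nat_lit 3167) (.e (nat_lit 114698) (nat_lit 11) (.e (nat_lit 426198) (nat_lit 9) (.e (nat_lit 426542) (nat_lit 29) (.e (nat_lit 352307) (nat_lit 21) (.e (nat_lit 57847) (nat_lit 252) (.e (nat_lit 57388) (nat_lit 5) .nil)))))) (.g (nat_lit 1) (.e (nat_lit 278310) (nat_lit 0) .nil) .nil))) 
(.lf (nat_lit 545563) (.g (nat_lit 1044) (.e (nat_lit 114717) (nat_lit 23) (.e (nat_lit 98333) (nat_lit 18) (.e (nat_lit 164325) (nat_lit 230) .nil))) (.g (nat_lit 0) (.e (nat_lit 280003) (nat_lit 0) .nil) .nil))))) (.nd (nat_lit 8) (.nd (nat_lit 9) 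
(.lf (nat_lit 544923) (.g (nat_lit 2122) (.e (nat_lit 114697) (nat_lit 11) (.e (nat_lit 426198) (nat_lit 9) (.e (nat_lit 426555) (nat_lit 32) (.e (nat_lit 376857) (nat_lit 21) (.e (nat_lit 57844) (nat_lit 252) (.e (nat_lit 57388) (nat_lit 5) .nil)))))) (.g (nat_lit 1) (.e (nat_lit 277966) (nat_lit 0) .nil) .nil))) 
(.lf (nat_lit 545435) (.g (nat_lit 2133) (.e (nat_lit 114715) (nat_lit 22) (.e (nat_lit 90170) (nat_lit 13) (.e (nat_lit 172065) (nat_lit 3) (.e (nat_lit 204831) (nat_lit 18) (.e (nat_lit 57687) (nat_lit 156) .nil))))) (.g (nat_lit 0) (.e (nat_lit 279538) (nat_lit 0) .nil) .nil)))) (.nd (nat_lit 9) 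
(.lf (nat_lit 545179) (.g (nat_lit 2852) (.e (nat_lit 114698) (nat_lit 11) (.e (nat_lit 426335) (nat_lit 13) (.e (nat_lit 483383) (nat_lit 23) (.e (nat_lit 336336) (nat_lit 20) (.e (nat_lit 229120) (nat_lit 5) .nil))))) (.g (nat_lit 1) (.e (nat_lit 278498) (nat_lit 0) .nil) .nil))) 
(.lf (nat_lit 545691) (.g (nat_lit 3097) (.e (nat_lit 114718) (nat_lit 23) (.e (nat_lit 98366) (nat_lit 27) (.e (nat_lit 434231) (nat_lit 23) (.e (nat_lit 532500) (nat_lit 1) (.e (nat_lit 57689) (nat_lit 156) (.e (nat_lit 163875) (nat_lit 3) (.e (nat_lit 204836) (nat_lit 20) .nil))))))) (.g (nat_lit 1) (.e (nat_lit 280191) (nat_lit 0) .nil) .nil)))))) 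
(.nd (nat_lit 7) (.nd (nat_lit 8) (.nd (nat_lit 9) 
(.lf (nat_lit 544859) (.g (nat_lit 902) (.e (nat_lit 114697) (nat_lit 11) (.e (nat_lit 426139) (nat_lit 3) (.e (nat_lit 204859) (nat_lit 26) (.e (nat_lit 336206) (nat_lit 12) .nil)))) (.g (nat_lit 0) (.e (nat_lit 277888) (nat_lit 0) .nil) .nil))) 
(.lf (nat_lit 545371) (.g (nat_lit 2815) (.e (nat_lit 114714) (nat_lit 22) (.e (nat_lit 90172) (nat_lit 14) (.e (nat_lit 180244) (nat_lit 5) (.e (nat_lit 532503) (nat_lit 1) (.e (nat_lit 57657) (nat_lit 152) (.e (nat_lit 7936) (nat_lit 163) (.e (nat_lit 163962) (nat_lit 25) (.e (nat_lit 532513) (nat_lit 3) .nil)))))))) (.g (nat_lit 1) (.e (nat_lit 279420) (nat_lit 0) .nil) .nil)))) 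
(.nd (nat_lit 9) 
(.lf (nat_lit 545115) (.g (nat_lit 1984) (.e (nat_lit 114698) (nat_lit 11) (.e (nat_lit 426325) (nat_lit 13) (.e (nat_lit 483379) (nat_lit 23) (.e (nat_lit 336336) (nat_lit 20) (.e (nat_lit 229120) (nat_lit 5) .nil))))) (.g (nat_lit 1) (.e (nat_lit 278380) (nat_lit 0) .nil) .nil))) 
(.lf (nat_lit 545627) (.g (nat_lit 1430) (.e (nat_lit 114718) (nat_lit 23) (.e (nat_lit 98334) (nat_lit 18) (.e (nat_lit 164330) (nat_lit 230) (.e (nat_lit 163873) (nat_lit 3) .nil)))) (.g (nat_lit 0) (.e (nat_lit 280105) (nat_lit 0) .nil) .nil))))) (.nd (nat_lit 8) (.nd (nat_lit 9) 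
(.lf (nat_lit 544987) (.g (nat_lit 1298) (.e (nat_lit 114698) (nat_lit 11) (.e (nat_lit 426138) (nat_lit 3) (.e (nat_lit 204854) (nat_lit 26) (.e (nat_lit 336207) (nat_lit 12) .nil)))) (.g (nat_lit 0) (.e (nat_lit 278209) (nat_lit 0) .nil) .nil))) 
(.lf (nat_lit 545499) (.g (nat_lit 2015) (.e (nat_lit 114716) (nat_lit 22) (.e (nat_lit 90170) (nat_lit 13) (.e (nat_lit 172067) (nat_lit 3) (.e (nat_lit 204830) (nat_lit 18) .nil)))) (.g (nat_lit 0) (.e (nat_lit 279635) (nat_lit 0) .nil) .nil)))) (.nd (nat_lit 9) 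
(.lf (nat_lit 545243) (.g (nat_lit 2151) (.e (nat_lit 122624) (nat_lit 11) (.e (nat_lit 426171) (nat_lit 7) (.e (nat_lit 409646) (nat_lit 18) (.e (nat_lit 303143) (nat_lit 12) (.e (nat_lit 475212) (nat_lit 42) .nil))))) (.g (nat_lit 0) (.e (nat_lit 278669) (nat_lit 0) .nil) .nil))) 
(.lf (nat_lit 545755) (.g (nat_lit 2899) (.e (nat_lit 114718) (nat_lit 23) (.e (nat_lit 98384) (nat_lit 32) (.e (nat_lit 475179) (nat_lit 24) (.e (nat_lit 516115) (nat_lit 1) (.e (nat_lit 164332) (nat_lit 230) (.e (nat_lit 163874) (nat_lit 3) (.e (nat_lit 204838) (nat_lit 20) .nil))))))) (.g (nat_lit 1) (.e (nat_lit 280268) (nat_lit 0) .nil) .nil))))))) 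
(.nd (nat_lit 6) (.nd (nat_lit 7) (.nd (nat_lit 8) (.nd (nat_lit 9) 
(.lf (nat_lit 544827) (.g (nat_lit 1305) (.e (nat_lit 114697) (nat_lit 11) (.e (nat_lit 426133) (nat_lit 3) (.e (nat_lit 204861) (nat_lit 26) (.e (nat_lit 336074) (nat_lit 9) .nil)))) (.g (nat_lit 0) (.e (nat_lit 277848) (nat_lit 0) .nil) .nil))) 
(.lf (nat_lit 545339) (.g (nat_lit 3422) (.e (nat_lit 114714) (nat_lit 22) (.e (nat_lit 90172) (nat_lit 14) (.e (nat_lit 180243) (nat_lit 5) (.e (nat_lit 532499) (nat_lit 1) (.e (nat_lit 57659) (nat_lit 152) (.e (nat_lit 2612) (nat_lit 163) (.e (nat_lit 163964) (nat_lit 25) (.e (nat_lit 532513) (nat_lit 3) .nil)))))))) (.g (nat_lit 1) (.e (nat_lit 279364) (nat_lit 0) .nil) .nil)))) 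
(.nd (nat_lit 9) 
(.lf (nat_lit 545083) (.g (nat_lit 2149) (.e (nat_lit 114698) (nat_lit 11) (.e (nat_lit 426200) (nat_lit 9) (.e (nat_lit 426506) (nat_lit 27) (.e (nat_lit 336083) (nat_lit 9) (.e (nat_lit 336336) (nat_lit 20) (.e (nat_lit 229120) (nat_lit 5) .nil)))))) (.g (nat_lit 1) (.e (nat_lit 278342) (nat_lit 0) .nil) .nil))) 
(.lf (nat_lit 545595) (.g (nat_lit 3150) (.e (nat_lit 114717) (nat_lit 23) (.e (nat_lit 98356) (nat_lit 26) (.e (nat_lit 426436) (nat_lit 18) (.e (nat_lit 98335) (nat_lit 18) (.e (nat_lit 164327) (nat_lit 230) .nil))))) (.g (nat_lit 0) (.e (nat_lit 280050) (nat_lit 0) .nil) .nil))))) (.nd (nat_lit 8) (.nd (nat_lit 9) 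
(.lf (nat_lit 544955) (.g (nat_lit 3366) (.e (nat_lit 114697) (nat_lit 11) (.e (nat_lit 426200) (nat_lit 9) (.e (nat_lit 426555) (nat_lit 32) (.e (nat_lit 376859) (nat_lit 21) (.e (nat_lit 57844) (nat_lit 252) (.e (nat_lit 57389) (nat_lit 5) .nil)))))) (.g (nat_lit 1) (.e (nat_lit 277998) (nat_lit 0) .nil) .nil))) 
(.lf (nat_lit 545467) (.g (nat_lit 2906) (.e (nat_lit 114715) (nat_lit 22) (.e (nat_lit 90170) (nat_lit 13) (.e (nat_lit 172067) (nat_lit 3) (.e (nat_lit 204831) (nat_lit 18) (.e (nat_lit 57692) (nat_lit 156) (.e (nat_lit 163874) (nat_lit 3) (.e (nat_lit 204836) (nat_lit 20) .nil))))))) (.g (nat_lit 1) (.e (nat_lit 279578) (nat_lit 0) .nil) .nil)))) (.nd (nat_lit 9) 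
(.lf (nat_lit 545211) (.g (nat_lit 2480) (.e (nat_lit 122624) (nat_lit 11) (.e (nat_lit 426125) (nat_lit 2) (.e (nat_lit 196681) (nat_lit 17) (.e (nat_lit 131105) (nat_lit 9) (.e (nat_lit 336324) (nat_lit 18) .nil))))) (.g (nat_lit 0) (.e (nat_lit 278587) (nat_lit 0) .nil) .nil))) 
(.lf (nat_lit 545723) (.g (nat_lit 3051) (.e (nat_lit 114718) (nat_lit 23) (.e (nat_lit 98367) (nat_lit 27) (.e (nat_lit 434231) (nat_lit 23) (.e (nat_lit 532500) (nat_lit 1) (.e (nat_lit 57691) (nat_lit 156) (.e (nat_lit 163874) (nat_lit 3) (.e (nat_lit 204836) (nat_lit 20) .nil))))))) (.g (nat_lit 1) (.e (nat_lit 280232) (nat_lit 0) .nil) .nil)))))) 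
(.nd (nat_lit 7) (.nd (nat_lit 8) (.nd (nat_lit 9) 
(.lf (nat_lit 544891) (.g (nat_lit 2409) (.e (nat_lit 114697) (nat_lit 11) (.e (nat_lit 426190) (nat_lit 9) (.e (nat_lit 426555) (nat_lit 32) (.e (nat_lit 376859) (nat_lit 21) (.e (nat_lit 57851) (nat_lit 252) (.e (nat_lit 57388) (nat_lit 5) .nil)))))) (.g (nat_lit 1) (.e (nat_lit 277931) (nat_lit 0) .nil) .nil))) 
(.lf (nat_lit 545403) (.g (nat_lit 2194) (.e (nat_lit 114714) (nat_lit 22) (.e (nat_lit 90174) (nat_lit 14) (.e (nat_lit 180243) (nat_lit 5) (.e (nat_lit 532503) (nat_lit 1) (.e (nat_lit 57657) (nat_lit 152) .nil))))) (.g (nat_lit 0) (.e (nat_lit 279469) (nat_lit 0) .nil) .nil)))) (.nd (nat_lit 9) 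
(.lf (nat_lit 545147) (.g (nat_lit 2158) (.e (nat_lit 114698) (nat_lit 11) (.e (nat_lit 426327) (nat_lit 13) (.e (nat_lit 483383) (nat_lit 23) (.e (nat_lit 336000) (nat_lit 1) (.e (nat_lit 57849) (nat_lit 252) (.e (nat_lit 57390) (nat_lit 5) .nil)))))) (.g (nat_lit 1) (.e (nat_lit 278428) (nat_lit 0) .nil) .nil))) 
(.lf (nat_lit 545659) (.g (nat_lit 3481) (.e (nat_lit 114718) (nat_lit 23) (.e (nat_lit 98356) (nat_lit 26) (.e (nat_lit 426436) (nat_lit 18) (.e (nat_lit 98335) (nat_lit 18) (.e (nat_lit 164332) (nat_lit 230) (.e (nat_lit 163872) (nat_lit 3) (.e (nat_lit 204838) (nat_lit 20) .nil))))))) (.g (nat_lit 1) (.e (nat_lit 280154) (nat_lit 0) .nil) .nil))))) (.nd (nat_lit 8) (.nd (nat_lit 9) 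
(.lf (nat_lit 545019) (.g (nat_lit 1534) (.e (nat_lit 114698) (nat_lit 11) (.e (nat_lit 426190) (nat_lit 9) (.e (nat_lit 426555) (nat_lit 32) (.e (nat_lit 376858) (nat_lit 21) .nil)))) (.g (nat_lit 0) (.e (nat_lit 278276) (nat_lit 0) .nil) .nil))) 
(.lf (nat_lit 545531) (.g (nat_lit 2484) (.e (nat_lit 114716) (nat_lit 22) (.e (nat_lit 90174) (nat_lit 14) (.e (nat_lit 180243) (nat_lit 5) (.e (nat_lit 532499) (nat_lit 1) (.e (nat_lit 57652) (nat_lit 152) (.e (nat_lit 2399) (nat_lit 157) (.e (nat_lit 2685) (nat_lit 168) (.e (nat_lit 204837) (nat_lit 20) .nil)))))))) (.g (nat_lit 1) (.e (nat_lit 279833) (nat_lit 0) .nil) .nil)))) 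
(.nd (nat_lit 9) 
(.lf (nat_lit 545275) (.g (nat_lit 485) (.e (nat_lit 122624) (nat_lit 12) (.e (nat_lit 434219) (nat_lit 19) (.e (nat_lit 499965) (nat_lit 14) .nil))) (.g (nat_lit 0) (.e (nat_lit 278749) (nat_lit 0) .nil) .nil))) 
(.lf (nat_lit 545787) (.g (nat_lit 3593) (.e (nat_lit 114719) (nat_lit 23) (.e (nat_lit 98333) (nat_lit 18) (.e (nat_lit 164327) (nat_lit 230) (.e (nat_lit 163871) (nat_lit 2) (.e (nat_lit 196654) (nat_lit 11) (.e (nat_lit 16416) (nat_lit 3) (.e (nat_lit 204837) (nat_lit 20) .nil))))))) (.g (nat_lit 1) (.e (nat_lit 280313) (nat_lit 0) .nil) .nil)))))))))) 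
(.nd (nat_lit 3) (.nd (nat_lit 4) (.nd (nat_lit 5) (.nd (nat_lit 6) (.nd (nat_lit 7) 
(.nd (nat_lit 8) (.nd (nat_lit 9) 
(.lf (nat_lit 544775) (.g (nat_lit 1983) (.e (nat_lit 114696) (nat_lit 11) (.e (nat_lit 426232) (nat_lit 9) (.e (nat_lit 426554) (nat_lit 32) (.e (nat_lit 376860) (nat_lit 21) (.e (nat_lit 57852) (nat_lit 252) (.e (nat_lit 57388) (nat_lit 5) .nil)))))) (.g (nat_lit 1) (.e (nat_lit 277747) (nat_lit 0) .nil) .nil))) 
(.lf (nat_lit 545287) (.g (nat_lit 2161) (.e (nat_lit 114707) (nat_lit 20) (.e (nat_lit 1800) (nat_lit 119) (.e (nat_lit 516120) (nat_lit 1) (.e (nat_lit 164396) (nat_lit 256) (.e (nat_lit 57371) (nat_lit 2) .nil))))) (.g (nat_lit 0) (.e (nat_lit 279168) (nat_lit 0) .nil) .nil)))) (.nd (nat_lit 9) 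
(.lf (nat_lit 545031) (.g (nat_lit 573) (.e (nat_lit 114698) (nat_lit 11) (.e (nat_lit 426197) (nat_lit 9) (.e (nat_lit 426544) (nat_lit 30) (.e (nat_lit 368384) (nat_lit 0) .nil)))) (.g (nat_lit 0) (.e (nat_lit 278288) (nat_lit 0) .nil) .nil))) 
(.lf (nat_lit 545543) (.g (nat_lit 3201) (.e (nat_lit 114716) (nat_lit 22) (.e (nat_lit 90174) (nat_lit 14) (.e (nat_lit 180243) (nat_lit 5) (.e (nat_lit 532502) (nat_lit 1) (.e (nat_lit 57692) (nat_lit 156) (.e (nat_lit 163874) (nat_lit 3) (.e (nat_lit 204836) (nat_lit 20) .nil))))))) (.g (nat_lit 1) (.e (nat_lit 279897) (nat_lit 0) .nil) .nil))))) (.nd (nat_lit 8) (.nd (nat_lit 9) 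
(.lf (nat_lit 544903) (.g (nat_lit 2686) (.e (nat_lit 114697) (nat_lit 11) (.e (nat_lit 426197) (nat_lit 9) (.e (nat_lit 426555) (nat_lit 32) (.e (nat_lit 376859) (nat_lit 21) (.e (nat_lit 57844) (nat_lit 252) (.e (nat_lit 57389) (nat_lit 5) .nil)))))) (.g (nat_lit 1) (.e (nat_lit 277944) (nat_lit 0) .nil) .nil))) 
(.lf (nat_lit 545415) (.g (nat_lit 2427) (.e (nat_lit 114714) (nat_lit 22) (.e (nat_lit 90196) (nat_lit 18) (.e (nat_lit 2798) (nat_lit 180) (.e (nat_lit 303126) (nat_lit 9) (.e (nat_lit 426568) (nat_lit 34) (.e (nat_lit 401152) (nat_lit 3) .nil)))))) (.g (nat_lit 1) (.e (nat_lit 279488) (nat_lit 0) .nil) .nil)))) (.nd (nat_lit 9) 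
(.lf (nat_lit 545159) (.g (nat_lit 1118) (.e (nat_lit 114698) (nat_lit 11) (.e (nat_lit 426333) (nat_lit 13) (.e (nat_lit 483391) (nat_lit 23) (.e (nat_lit 336335) (nat_lit 20) (.e (nat_lit 229120) (nat_lit 5) .nil))))) (.g (nat_lit 1) (.e (nat_lit 278461) (nat_lit 0) .nil) .nil))) 
(.lf (nat_lit 545671) (.g (nat_lit 3658) (.e (nat_lit 114718) (nat_lit 23) (.e (nat_lit 98365) (nat_lit 26) (.e (nat_lit 426133) (nat_lit 3) (.e (nat_lit 204829) (nat_lit 18) (.e (nat_lit 57688) (nat_lit 156) (.e (nat_lit 163875) (nat_lit 3) (.e (nat_lit 204837) (nat_lit 20) .nil))))))) (.g (nat_lit 1) (.e (nat_lit 280169) (nat_lit 0) .nil) .nil)))))) 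
(.nd (nat_lit 7) (.nd (nat_lit 8) (.nd (nat_lit 9) 
(.lf (nat_lit 544839) (.g (nat_lit 1271) (.e (nat_lit 114697) (nat_lit 11) (.e (nat_lit 426133) (nat_lit 3) (.e (nat_lit 204876) (nat_lit 31) .nil))) (.g (nat_lit 0) (.e (nat_lit 277862) (nat_lit 0) .nil) .nil))) 
(.lf (nat_lit 545351) (.g (nat_lit 2542) (.e (nat_lit 114714) (nat_lit 22) (.e (nat_lit 90172) (nat_lit 14) (.e (nat_lit 180244) (nat_lit 5) (.e (nat_lit 532499) (nat_lit 1) (.e (nat_lit 57653) (nat_lit 152) .nil))))) (.g (nat_lit 0) (.e (nat_lit 279381) (nat_lit 0) .nil) .nil)))) (.nd (nat_lit 9) 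
(.lf (nat_lit 545095) (.g (nat_lit 2588) (.e (nat_lit 114698) (nat_lit 11) (.e (nat_lit 426204) (nat_lit 9) (.e (nat_lit 426497) (nat_lit 27) (.e (nat_lit 336076) (nat_lit 9) (.e (nat_lit 336336) (nat_lit 20) (.e (nat_lit 229120) (nat_lit 5) .nil)))))) (.g (nat_lit 1) (.e (nat_lit 278356) (nat_lit 0) .nil) .nil))) 
(.lf (nat_lit 545607) (.g (nat_lit 2863) (.e (nat_lit 114717) (nat_lit 23) (.e (nat_lit 98384) (nat_lit 32) (.e (nat_lit 475179) (nat_lit 24) (.e (nat_lit 516120) (nat_lit 1) (.e (nat_lit 164330) (nat_lit 230) (.e (nat_lit 163874) (nat_lit 3) (.e (nat_lit 204836) (nat_lit 20) .nil))))))) (.g (nat_lit 1) (.e (nat_lit 280062) (nat_lit 0) .nil) .nil))))) (.nd (nat_lit 8) (.nd (nat_lit 9) 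
(.lf (nat_lit 544967) (.g (nat_lit 1267) (.e (nat_lit 114698) (nat_lit 11) (.e (nat_lit 426123) (nat_lit 2) (.e (nat_lit 196666) (nat_lit 13) (.e (nat_lit 65583) (nat_lit 7) .nil)))) (.g (nat_lit 0) (.e (nat_lit 278149) (nat_lit 0) .nil) .nil))) 
(.lf (nat_lit 545479) (.g (nat_lit 2074) (.e (nat_lit 114715) (nat_lit 22) (.e (nat_lit 90174) (nat_lit 14) (.e (nat_lit 180243) (nat_lit 5) (.e (nat_lit 532501) (nat_lit 1) (.e (nat_lit 57692) (nat_lit 156) .nil))))) (.g (nat_lit 0) (.e (nat_lit 279591) (nat_lit 0) .nil) .nil)))) (.nd (nat_lit 9) 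
(.lf (nat_lit 545223) (.g (nat_lit 2268) (.e (nat_lit 122624) (nat_lit 11) (.e (nat_lit 426133) (nat_lit 3) (.e (nat_lit 204861) (nat_lit 26) (.e (nat_lit 336078) (nat_lit 9) (.e (nat_lit 336324) (nat_lit 18) .nil))))) (.g (nat_lit 0) (.e (nat_lit 278617) (nat_lit 0) .nil) .nil))) 
(.lf (nat_lit 545735) (.g (nat_lit 1283) (.e (nat_lit 114718) (nat_lit 23) (.e (nat_lit 98367) (nat_lit 27) (.e (nat_lit 434241) (nat_lit 27) (.e (nat_lit 565268) (nat_lit 5) .nil)))) (.g (nat_lit 0) (.e (nat_lit 280247) (nat_lit 0) .nil) .nil))))))) (.nd (nat_lit 6) (.nd (nat_lit 7) (.nd (nat_lit 8) (.nd (nat_lit 9) 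
(.lf (nat_lit 544807) (.g (nat_lit 1318) (.e (nat_lit 114697) (nat_lit 11) (.e (nat_lit 426116) (nat_lit 2) (.e (nat_lit 196672) (nat_lit 15) (.e (nat_lit 89856) (nat_lit 3) .nil)))) (.g (nat_lit 0) (.e (nat_lit 277797) (nat_lit 0) .nil) .nil))) 
(.lf (nat_lit 545319) (.g (nat_lit 4267) (.e (nat_lit 114712) (nat_lit 21) (.e (nat_lit 57930) (nat_lit 282) (.e (nat_lit 163923) (nat_lit 15) (.e (nat_lit 450587) (nat_lit 10) (.e (nat_lit 573475) (nat_lit 12) (.e (nat_lit 57360) (nat_lit 0) (.e (nat_lit 5934) (nat_lit 322) (.e (nat_lit 57389) (nat_lit 5) .nil)))))))) (.g (nat_lit 1) (.e (nat_lit 279328) (nat_lit 0) .nil) .nil)))) 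
(.nd (nat_lit 9) 
(.lf (nat_lit 545063) (.g (nat_lit 3649) (.e (nat_lit 114698) (nat_lit 11) (.e (nat_lit 426198) (nat_lit 9) (.e (nat_lit 426555) (nat_lit 32) (.e (nat_lit 376859) (nat_lit 21) (.e (nat_lit 57854) (nat_lit 252) (.e (nat_lit 57389) (nat_lit 5) .nil)))))) (.g (nat_lit 1) (.e (nat_lit 278322) (nat_lit 0) .nil) .nil))) 
(.lf (nat_lit 545575) (.g (nat_lit 2503) (.e (nat_lit 114717) (nat_lit 23) (.e (nat_lit 98333) (nat_lit 18) (.e (nat_lit 164403) (nat_lit 256) (.e (nat_lit 57370) (nat_lit 2) (.e (nat_lit 90172) (nat_lit 14) .nil))))) (.g (nat_lit 0) (.e (nat_lit 280022) (nat_lit 0) .nil) .nil))))) (.nd (nat_lit 8) (.nd (nat_lit 9) 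
(.lf (nat_lit 544935) (.g (nat_lit 3364) (.e (nat_lit 114697) (nat_lit 11) (.e (nat_lit 426198) (nat_lit 9) (.e (nat_lit 426555) (nat_lit 32) (.e (nat_lit 376859) (nat_lit 21) (.e (nat_lit 57854) (nat_lit 252) (.e (nat_lit 57389) (nat_lit 5) .nil)))))) (.g (nat_lit 1) (.e (nat_lit 277978) (nat_lit 0) .nil) .nil))) 
(.lf (nat_lit 545447) (.g (nat_lit 2251) (.e (nat_lit 114715) (nat_lit 22) (.e (nat_lit 90170) (nat_lit 13) (.e (nat_lit 172067) (nat_lit 3) (.e (nat_lit 204829) (nat_lit 18) (.e (nat_lit 57687) (nat_lit 156) .nil))))) (.g (nat_lit 0) (.e (nat_lit 279555) (nat_lit 0) .nil) .nil)))) (.nd (nat_lit 9) 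
(.lf (nat_lit 545191) (.g (nat_lit 2383) (.e (nat_lit 114698) (nat_lit 11) (.e (nat_lit 426335) (nat_lit 13) (.e (nat_lit 483404) (nat_lit 26) (.e (nat_lit 385109) (nat_lit 51) (.e (nat_lit 802560) (nat_lit 5) .nil))))) (.g (nat_lit 1) (.e (nat_lit 278517) (nat_lit 0) .nil) .nil))) 
(.lf (nat_lit 545703) (.g (nat_lit 3106) (.e (nat_lit 114718) (nat_lit 23) (.e (nat_lit 98366) (nat_lit 27) (.e (nat_lit 434231) (nat_lit 23) (.e (nat_lit 532502) (nat_lit 1) (.e (nat_lit 57692) (nat_lit 156) (.e (nat_lit 163875) (nat_lit 3) (.e (nat_lit 204837) (nat_lit 20) .nil))))))) (.g (nat_lit 1) (.e (nat_lit 280203) (nat_lit 0) .nil) .nil)))))) 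
(.nd (nat_lit 7) (.nd (nat_lit 8) (.nd (nat_lit 9) 
(.lf (nat_lit 544871) (.g (nat_lit 2185) (.e (nat_lit 114697) (nat_lit 11) (.e (nat_lit 426188) (nat_lit 9) (.e (nat_lit 426555) (nat_lit 32) (.e (nat_lit 376857) (nat_lit 21) (.e (nat_lit 57848) (nat_lit 252) (.e (nat_lit 57390) (nat_lit 5) .nil)))))) (.g (nat_lit 1) (.e (nat_lit 277911) (nat_lit 0) .nil) .nil))) 
(.lf (nat_lit 545383) (.g (nat_lit 2486) (.e (nat_lit 114714) (nat_lit 22) (.e (nat_lit 90172) (nat_lit 14) (.e (nat_lit 180244) (nat_lit 5) (.e (nat_lit 532504) (nat_lit 1) (.e (nat_lit 57665) (nat_lit 152) .nil))))) (.g (nat_lit 0) (.e (nat_lit 279442) (nat_lit 0) .nil) .nil)))) (.nd (nat_lit 9) 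
(.lf (nat_lit 545127) (.g (nat_lit 2943) (.e (nat_lit 114698) (nat_lit 11) (.e (nat_lit 426325) (nat_lit 13) (.e (nat_lit 483402) (nat_lit 26) (.e (nat_lit 385107) (nat_lit 51) (.e (nat_lit 802560) (nat_lit 5) .nil))))) (.g (nat_lit 1) (.e (nat_lit 278404) (nat_lit 0) .nil) .nil))) 
(.lf (nat_lit 545639) (.g (nat_lit 2448) (.e (nat_lit 114718) (nat_lit 23) (.e (nat_lit 98335) (nat_lit 18) (.e (nat_lit 164330) (nat_lit 230) (.e (nat_lit 163869) (nat_lit 2) (.e (nat_lit 196654) (nat_lit 11) .nil))))) (.g (nat_lit 0) (.e (nat_lit 280126) (nat_lit 0) .nil) .nil))))) (.nd (nat_lit 8) (.nd (nat_lit 9) 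
(.lf (nat_lit 544999) (.g (nat_lit 3646) (.e (nat_lit 114698) (nat_lit 11) (.e (nat_lit 426139) (nat_lit 3) (.e (nat_lit 204869) (nat_lit 29) (.e (nat_lit 360450) (nat_lit 0) (.e (nat_lit 4009) (nat_lit 243) (.e (nat_lit 171776) (nat_lit 66) .nil)))))) (.g (nat_lit 1) (.e (nat_lit 278246) (nat_lit 0) .nil) .nil))) 
(.lf (nat_lit 545511) (.g (nat_lit 1807) (.e (nat_lit 114716) (nat_lit 22) (.e (nat_lit 90172) (nat_lit 14) (.e (nat_lit 180244) (nat_lit 5) (.e (nat_lit 532499) (nat_lit 1) (.e (nat_lit 57655) (nat_lit 152) .nil))))) (.g (nat_lit 0) (.e (nat_lit 279703) (nat_lit 0) .nil) .nil)))) (.nd (nat_lit 9) 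
(.lf (nat_lit 545255) (.g (nat_lit 1237) (.e (nat_lit 122624) (nat_lit 11) (.e (nat_lit 426190) (nat_lit 9) (.e (nat_lit 426555) (nat_lit 32) (.e (nat_lit 376859) (nat_lit 21) .nil)))) (.g (nat_lit 0) (.e (nat_lit 278681) (nat_lit 0) .nil) .nil))) 
(.lf (nat_lit 545767) (.g (nat_lit 2632) (.e (nat_lit 114718) (nat_lit 23) (.e (nat_lit 98384) (nat_lit 32) (.e (nat_lit 475179) (nat_lit 24) (.e (nat_lit 516120) (nat_lit 1) (.e (nat_lit 164304) (nat_lit 226) .nil))))) (.g (nat_lit 0) (.e (nat_lit 280285) (nat_lit 0) .nil) .nil)))))))) (.nd (nat_lit 5) (.nd (nat_lit 6) (.nd (nat_lit 7) (.nd (nat_lit 8) (.nd (nat_lit 9) 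
(.lf (nat_lit 544791) (.g (nat_lit 1798) (.e (nat_lit 114696) (nat_lit 11) (.e (nat_lit 426262) (nat_lit 9) (.e (nat_lit 426554) (nat_lit 32) (.e (nat_lit 376857) (nat_lit 21) (.e (nat_lit 57849) (nat_lit 252) (.e (nat_lit 57390) (nat_lit 5) .nil)))))) (.g (nat_lit 1) (.e (nat_lit 277763) (nat_lit 0) .nil) .nil))) 
(.lf (nat_lit 545303) (.g (nat_lit 2342) (.e (nat_lit 122624) (nat_lit 20) (.e (nat_lit 1788) (nat_lit 119) (.e (nat_lit 516115) (nat_lit 1) (.e (nat_lit 164398) (nat_lit 256) (.e (nat_lit 57373) (nat_lit 2) .nil))))) (.g (nat_lit 0) (.e (nat_lit 279191) (nat_lit 0) .nil) .nil)))) (.nd (nat_lit 9) 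
(.lf (nat_lit 545047) (.g (nat_lit 2167) (.e (nat_lit 114698) (nat_lit 11) (.e (nat_lit 426198) (nat_lit 9) (.e (nat_lit 426538) (nat_lit 29) (.e (nat_lit 352309) (nat_lit 21) (.e (nat_lit 57853) (nat_lit 252) (.e (nat_lit 57388) (nat_lit 5) .nil)))))) (.g (nat_lit 1) (.e (nat_lit 278306) (nat_lit 0) .nil) .nil))) 
(.lf (nat_lit 545559) (.g (nat_lit 2302) (.e (nat_lit 114716) (nat_lit 22) (.e (nat_lit 90196) (nat_lit 18) (.e (nat_lit 2797) (nat_lit 180) (.e (nat_lit 303127) (nat_lit 9) (.e (nat_lit 426568) (nat_lit 34) (.e (nat_lit 401152) (nat_lit 3) .nil)))))) (.g (nat_lit 1) (.e (nat_lit 279992) (nat_lit 0) .nil) .nil))))) (.nd (nat_lit 8) (.nd (nat_lit 9) 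
(.lf (nat_lit 544919) (.g (nat_lit 2906) (.e (nat_lit 114697) (nat_lit 11) (.e (nat_lit 426198) (nat_lit 9) (.e (nat_lit 426542) (nat_lit 29) (.e (nat_lit 352309) (nat_lit 21) (.e (nat_lit 57848) (nat_lit 252) (.e (nat_lit 57388) (nat_lit 5) .nil)))))) (.g (nat_lit 1) (.e (nat_lit 277961) (nat_lit 0) .nil) .nil))) 
(.lf (nat_lit 545431) (.g (nat_lit 3705) (.e (nat_lit 114715) (nat_lit 22) (.e (nat_lit 90170) (nat_lit 13) (.e (nat_lit 172065) (nat_lit 3) (.e (nat_lit 204830) (nat_lit 18) (.e (nat_lit 57691) (nat_lit 156) (.e (nat_lit 163874) (nat_lit 3) (.e (nat_lit 204836) (nat_lit 20) .nil))))))) (.g (nat_lit 1) (.e (nat_lit 279533) (nat_lit 0) .nil) .nil)))) (.nd (nat_lit 9) 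
(.lf (nat_lit 545175) (.g (nat_lit 2779) (.e (nat_lit 114698) (nat_lit 11) (.e (nat_lit 426335) (nat_lit 13) (.e (nat_lit 483380) (nat_lit 23) (.e (nat_lit 336336) (nat_lit 20) (.e (nat_lit 229120) (nat_lit 5) .nil))))) (.g (nat_lit 1) (.e (nat_lit 278494) (nat_lit 0) .nil) .nil))) 
(.lf (nat_lit 545687) (.g (nat_lit 3071) (.e (nat_lit 114718) (nat_lit 23) (.e (nat_lit 98366) (nat_lit 27) (.e (nat_lit 434231) (nat_lit 23) (.e (nat_lit 532500) (nat_lit 1) (.e (nat_lit 57685) (nat_lit 156) (.e (nat_lit 163875) (nat_lit 3) (.e (nat_lit 204837) (nat_lit 20) .nil))))))) (.g (nat_lit 1) (.e (nat_lit 280187) (nat_lit 0) .nil) .nil)))))) 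
(.nd (nat_lit 7) (.nd (nat_lit 8) (.nd (nat_lit 9) 
(.lf (nat_lit 544855) (.g (nat_lit 2580) (.e (nat_lit 114697) (nat_lit 11) (.e (nat_lit 426138) (nat_lit 3) (.e (nat_lit 204861) (nat_lit 26) (.e (nat_lit 336194) (nat_lit 12) (.e (nat_lit 385068) (nat_lit 26) (.e (nat_lit 532515) (nat_lit 3) .nil)))))) (.g (nat_lit 1) (.e (nat_lit 277882) (nat_lit 0) .nil) .nil))) 
(.lf (nat_lit 545367) (.g (nat_lit 2324) (.e (nat_lit 114714) (nat_lit 22) (.e (nat_lit 90172) (nat_lit 14) (.e (nat_lit 180244) (nat_lit 5) (.e (nat_lit 532503) (nat_lit 1) (.e (nat_lit 57652) (nat_lit 152) .nil))))) (.g (nat_lit 0) (.e (nat_lit 279412) (nat_lit 0) .nil) .nil)))) (.nd (nat_lit 9) 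
(.lf (nat_lit 545111) (.g (nat_lit 2149) (.e (nat_lit 114698) (nat_lit 11) (.e (nat_lit 426213) (nat_lit 9) (.e (nat_lit 426513) (nat_lit 27) (.e (nat_lit 336076) (nat_lit 9) (.e (nat_lit 336336) (nat_lit 20) (.e (nat_lit 229120) (nat_lit 5) .nil)))))) (.g (nat_lit 1) (.e (nat_lit 278372) (nat_lit 0) .nil) .nil))) 
(.lf (nat_lit 545623) (.g (nat_lit 484) (.e (nat_lit 114718) (nat_lit 23) (.e (nat_lit 98334) (nat_lit 18) (.e (nat_lit 164330) (nat_lit 230) .nil))) (.g (nat_lit 0) (.e (nat_lit 280099) (nat_lit 0) .nil) .nil))))) (.nd (nat_lit 8) (.nd (nat_lit 9) 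
(.lf (nat_lit 544983) (.g (nat_lit 1105) (.e (nat_lit 114698) (nat_lit 11) (.e (nat_lit 426133) (nat_lit 3) (.e (nat_lit 204876) (nat_lit 31) .nil))) (.g (nat_lit 0) (.e (nat_lit 278204) (nat_lit 0) .nil) .nil))) 
(.lf (nat_lit 545495) (.g (nat_lit 1500) (.e (nat_lit 114716) (nat_lit 22) (.e (nat_lit 90169) (nat_lit 13) (.e (nat_lit 172057) (nat_lit 0) (.e (nat_lit 3253) (nat_lit 197) (.e (nat_lit 532503) (nat_lit 1) .nil))))) (.g (nat_lit 0) (.e (nat_lit 279630) (nat_lit 0) .nil) .nil)))) (.nd (nat_lit 9) 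
(.lf (nat_lit 545239) (.g (nat_lit 1641) (.e (nat_lit 122624) (nat_lit 11) (.e (nat_lit 426173) (nat_lit 7) (.e (nat_lit 409647) (nat_lit 18) (.e (nat_lit 303143) (nat_lit 12) (.e (nat_lit 475212) (nat_lit 42) .nil))))) (.g (nat_lit 0) (.e (nat_lit 278662) (nat_lit 0) .nil) .nil))) 
(.lf (nat_lit 545751) (.g (nat_lit 4795) (.e (nat_lit 114718) (nat_lit 23) (.e (nat_lit 98384) (nat_lit 32) (.e (nat_lit 475179) (nat_lit 24) (.e (nat_lit 516115) (nat_lit 1) (.e (nat_lit 164325) (nat_lit 230) (.e (nat_lit 163875) (nat_lit 3) (.e (nat_lit 204838) (nat_lit 20) .nil))))))) (.g (nat_lit 1) (.e (nat_lit 280264) (nat_lit 0) .nil) .nil))))))) 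
(.nd (nat_lit 6) (.nd (nat_lit 7) (.nd (nat_lit 8) (.nd (nat_lit 9) 
(.lf (nat_lit 544823) (.g (nat_lit 3310) (.e (nat_lit 114697) (nat_lit 11) (.e (nat_lit 426124) (nat_lit 2) (.e (nat_lit 196681) (nat_lit 17) (.e (nat_lit 131109) (nat_lit 9) (.e (nat_lit 336324) (nat_lit 18) (.e (nat_lit 204838) (nat_lit 20) .nil)))))) (.g (nat_lit 1) (.e (nat_lit 277841) (nat_lit 0) .nil) .nil))) 
(.lf (nat_lit 545335) (.g (nat_lit 1563) (.e (nat_lit 114714) (nat_lit 22) (.e (nat_lit 90170) (nat_lit 13) (.e (nat_lit 172138) (nat_lit 15) (.e (nat_lit 1800) (nat_lit 119) .nil)))) (.g (nat_lit 0) (.e (nat_lit 279357) (nat_lit 0) .nil) .nil)))) (.nd (nat_lit 9) 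
(.lf (nat_lit 545079) (.g (nat_lit 2532) (.e (nat_lit 114698) (nat_lit 11) (.e (nat_lit 426200) (nat_lit 9) (.e (nat_lit 426481) (nat_lit 27) (.e (nat_lit 336089) (nat_lit 9) (.e (nat_lit 336336) (nat_lit 20) (.e (nat_lit 229120) (nat_lit 5) .nil)))))) (.g (nat_lit 1) (.e (nat_lit 278338) (nat_lit 0) .nil) .nil))) 
(.lf (nat_lit 545591) (.g (nat_lit 2547) (.e (nat_lit 114717) (nat_lit 23) (.e (nat_lit 98334) (nat_lit 18) (.e (nat_lit 164403) (nat_lit 256) (.e (nat_lit 57378) (nat_lit 3) (.e (nat_lit 98367) (nat_lit 27) .nil))))) (.g (nat_lit 0) (.e (nat_lit 280046) (nat_lit 0) .nil) .nil))))) (.nd (nat_lit 8) (.nd (nat_lit 9) 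
(.lf (nat_lit 544951) (.g (nat_lit 2049) (.e (nat_lit 114697) (nat_lit 11) (.e (nat_lit 426200) (nat_lit 9) (.e (nat_lit 426555) (nat_lit 32) (.e (nat_lit 376856) (nat_lit 21) .nil)))) (.g (nat_lit 0) (.e (nat_lit 277994) (nat_lit 0) .nil) .nil))) 
(.lf (nat_lit 545463) (.g (nat_lit 4141) (.e (nat_lit 114715) (nat_lit 22) (.e (nat_lit 90170) (nat_lit 13) (.e (nat_lit 172067) (nat_lit 3) (.e (nat_lit 204830) (nat_lit 18) (.e (nat_lit 57692) (nat_lit 156) (.e (nat_lit 163874) (nat_lit 3) (.e (nat_lit 204838) (nat_lit 20) .nil))))))) (.g (nat_lit 1) (.e (nat_lit 279573) (nat_lit 0) .nil) .nil)))) (.nd (nat_lit 9) 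
(.lf (nat_lit 545207) (.g (nat_lit 1361) (.e (nat_lit 122624) (nat_lit 11) (.e (nat_lit 426125) (nat_lit 2) (.e (nat_lit 196679) (nat_lit 17) .nil))) (.g (nat_lit 0) (.e (nat_lit 278581) (nat_lit 0) .nil) .nil))) 
(.lf (nat_lit 545719) (.g (nat_lit 3904) (.e (nat_lit 114718) (nat_lit 23) (.e (nat_lit 98367) (nat_lit 27) (.e (nat_lit 434231) (nat_lit 23) (.e (nat_lit 532499) (nat_lit 1) (.e (nat_lit 57692) (nat_lit 156) (.e (nat_lit 163874) (nat_lit 3) (.e (nat_lit 204836) (nat_lit 20) .nil))))))) (.g (nat_lit 1) (.e (nat_lit 280225) (nat_lit 0) .nil) .nil)))))) 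
(.nd (nat_lit 7) (.nd (nat_lit 8) (.nd (nat_lit 9) 
(.lf (nat_lit 544887) (.g (nat_lit 3333) (.e (nat_lit 114697) (nat_lit 11) (.e (nat_lit 426190) (nat_lit 9) (.e (nat_lit 426555) (nat_lit 32) (.e (nat_lit 376857) (nat_lit 21) (.e (nat_lit 57853) (nat_lit 252) (.e (nat_lit 57389) (nat_lit 5) .nil)))))) (.g (nat_lit 1) (.e (nat_lit 277927) (nat_lit 0) .nil) .nil))) 
(.lf (nat_lit 545399) (.g (nat_lit 3505) (.e (nat_lit 114714) (nat_lit 22) (.e (nat_lit 90174) (nat_lit 14) (.e (nat_lit 180243) (nat_lit 5) (.e (nat_lit 532501) (nat_lit 1) (.e (nat_lit 57692) (nat_lit 156) (.e (nat_lit 163874) (nat_lit 3) (.e (nat_lit 204836) (nat_lit 20) .nil))))))) (.g (nat_lit 1) (.e (nat_lit 279465) (nat_lit 0) .nil) .nil)))) (.nd (nat_lit 9) 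
(.lf (nat_lit 545143) (.g (nat_lit 1762) (.e (nat_lit 114698) (nat_lit 11) (.e (nat_lit 426326) (nat_lit 13) (.e (nat_lit 483404) (nat_lit 26) (.e (nat_lit 385109) (nat_lit 51) (.e (nat_lit 802560) (nat_lit 5) .nil))))) (.g (nat_lit 1) (.e (nat_lit 278424) (nat_lit 0) .nil) .nil))) 
(.lf (nat_lit 545655) (.g (nat_lit 3055) (.e (nat_lit 114718) (nat_lit 23) (.e (nat_lit 98356) (nat_lit 26) (.e (nat_lit 426436) (nat_lit 18) (.e (nat_lit 98335) (nat_lit 18) (.e (nat_lit 164305) (nat_lit 226) (.e (nat_lit 2450) (nat_lit 157) (.e (nat_lit 2685) (nat_lit 168) (.e (nat_lit 204837) (nat_lit 20) .nil)))))))) (.g (nat_lit 1) (.e (nat_lit 280146) (nat_lit 0) .nil) .nil))))) 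
(.nd (nat_lit 8) (.nd (nat_lit 9) 
(.lf (nat_lit 545015) (.g (nat_lit 2672) (.e (nat_lit 114698) (nat_lit 11) (.e (nat_lit 426190) (nat_lit 9) (.e (nat_lit 426555) (nat_lit 32) (.e (nat_lit 376857) (nat_lit 21) (.e (nat_lit 57846) (nat_lit 252) (.e (nat_lit 57390) (nat_lit 5) .nil)))))) (.g (nat_lit 1) (.e (nat_lit 278272) (nat_lit 0) .nil) .nil))) 
(.lf (nat_lit 545527) (.g (nat_lit 1288) (.e (nat_lit 114716) (nat_lit 22) (.e (nat_lit 90173) (nat_lit 14) (.e (nat_lit 180252) (nat_lit 10) (.e (nat_lit 573474) (nat_lit 12) .nil)))) (.g (nat_lit 0) (.e (nat_lit 279822) (nat_lit 0) .nil) .nil)))) (.nd (nat_lit 9) 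
(.lf (nat_lit 545271) (.g (nat_lit 1773) (.e (nat_lit 122624) (nat_lit 11) (.e (nat_lit 426566) (nat_lit 34) (.e (nat_lit 393263) (nat_lit 22) (.e (nat_lit 417815) (nat_lit 10) (.e (nat_lit 604) (nat_lit 45) .nil))))) (.g (nat_lit 0) (.e (nat_lit 278745) (nat_lit 0) .nil) .nil))) 
(.lf (nat_lit 545783) (.g (nat_lit 2970) (.e (nat_lit 114719) (nat_lit 23) (.e (nat_lit 98333) (nat_lit 18) (.e (nat_lit 164325) (nat_lit 230) (.e (nat_lit 163866) (nat_lit 2) (.e (nat_lit 196654) (nat_lit 11) .nil))))) (.g (nat_lit 0) (.e (nat_lit 280308) (nat_lit 0) .nil) .nil))))))))) (.nd (nat_lit 4) (.nd (nat_lit 5) (.nd (nat_lit 6) (.nd (nat_lit 7) (.nd (nat_lit 8) (.nd (nat_lit 9) 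
(.lf (nat_lit 544783) (.g (nat_lit 1803) (.e (nat_lit 114696) (nat_lit 11) (.e (nat_lit 426234) (nat_lit 9) (.e (nat_lit 426554) (nat_lit 32) (.e (nat_lit 376859) (nat_lit 21) (.e (nat_lit 57847) (nat_lit 252) (.e (nat_lit 57388) (nat_lit 5) .nil)))))) (.g (nat_lit 1) (.e (nat_lit 277755) (nat_lit 0) .nil) .nil))) 
(.lf (nat_lit 545295) (.g (nat_lit 2380) (.e (nat_lit 114708) (nat_lit 20) (.e (nat_lit 1800) (nat_lit 119) (.e (nat_lit 516119) (nat_lit 1) (.e (nat_lit 164327) (nat_lit 230) (.e (nat_lit 163868) (nat_lit 2) .nil))))) (.g (nat_lit 0) (.e (nat_lit 279178) (nat_lit 0) .nil) .nil)))) (.nd (nat_lit 9) 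
(.lf (nat_lit 545039) (.g (nat_lit 3857) (.e (nat_lit 114698) (nat_lit 11) (.e (nat_lit 426197) (nat_lit 9) (.e (nat_lit 426555) (nat_lit 32) (.e (nat_lit 376857) (nat_lit 21) (.e (nat_lit 57853) (nat_lit 252) (.e (nat_lit 57388) (nat_lit 5) .nil)))))) (.g (nat_lit 1) (.e (nat_lit 278296) (nat_lit 0) .nil) .nil))) 
(.lf (nat_lit 545551) (.g (nat_lit 4141) (.e (nat_lit 114716) (nat_lit 22) (.e (nat_lit 90174) (nat_lit 14) (.e (nat_lit 180243) (nat_lit 5) (.e (nat_lit 532504) (nat_lit 1) (.e (nat_lit 57691) (nat_lit 156) (.e (nat_lit 163874) (nat_lit 3) (.e (nat_lit 204837) (nat_lit 20) .nil))))))) (.g (nat_lit 1) (.e (nat_lit 279951) (nat_lit 0) .nil) .nil))))) (.nd (nat_lit 8) (.nd (nat_lit 9) 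
(.lf (nat_lit 544911) (.g (nat_lit 2844) (.e (nat_lit 114697) (nat_lit 11) (.e (nat_lit 426198) (nat_lit 9) (.e (nat_lit 426538) (nat_lit 29) (.e (nat_lit 352309) (nat_lit 21) (.e (nat_lit 57844) (nat_lit 252) (.e (nat_lit 57389) (nat_lit 5) .nil)))))) (.g (nat_lit 1) (.e (nat_lit 277953) (nat_lit 0) .nil) .nil))) 
(.lf (nat_lit 545423) (.g (nat_lit 4863) (.e (nat_lit 114715) (nat_lit 22) (.e (nat_lit 90170) (nat_lit 13) (.e (nat_lit 172065) (nat_lit 3) (.e (nat_lit 204829) (nat_lit 18) (.e (nat_lit 57688) (nat_lit 156) (.e (nat_lit 163874) (nat_lit 3) (.e (nat_lit 204837) (nat_lit 20) .nil))))))) (.g (nat_lit 1) (.e (nat_lit 279521) (nat_lit 0) .nil) .nil)))) (.nd (nat_lit 9) 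
(.lf (nat_lit 545167) (.g (nat_lit 1625) (.e (nat_lit 114698) (nat_lit 11) (.e (nat_lit 426334) (nat_lit 13) (.e (nat_lit 483404) (nat_lit 26) (.e (nat_lit 385109) (nat_lit 51) (.e (nat_lit 802560) (nat_lit 5) .nil))))) (.g (nat_lit 1) (.e (nat_lit 278486) (nat_lit 0) .nil) .nil))) 
(.lf (nat_lit 545679) (.g (nat_lit 4005) (.e (nat_lit 114718) (nat_lit 23) (.e (nat_lit 98365) (nat_lit 26) (.e (nat_lit 426139) (nat_lit 3) (.e (nat_lit 204830) (nat_lit 18) (.e (nat_lit 57691) (nat_lit 156) (.e (nat_lit 163875) (nat_lit 3) (.e (nat_lit 204837) (nat_lit 20) .nil))))))) (.g (nat_lit 1) (.e (nat_lit 280177) (nat_lit 0) .nil) .nil)))))) 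
(.nd (nat_lit 7) (.nd (nat_lit 8) (.nd (nat_lit 9) 
(.lf (nat_lit 544847) (.g (nat_lit 2053) (.e (nat_lit 114697) (nat_lit 11) (.e (nat_lit 426137) (nat_lit 3) (.e (nat_lit 204861) (nat_lit 26) (.e (nat_lit 336086) (nat_lit 9) (.e (nat_lit 336324) (nat_lit 18) (.e (nat_lit 204837) (nat_lit 20) .nil)))))) (.g (nat_lit 1) (.e (nat_lit 277870) (nat_lit 0) .nil) .nil))) 
(.lf (nat_lit 545359) (.g (nat_lit 3468) (.e (nat_lit 114714) (nat_lit 22) (.e (nat_lit 90172) (nat_lit 14) (.e (nat_lit 180244) (nat_lit 5) (.e (nat_lit 532499) (nat_lit 1) (.e (nat_lit 57688) (nat_lit 156) (.e (nat_lit 163844) (nat_lit 0) (.e (nat_lit 3248) (nat_lit 197) (.e (nat_lit 532513) (nat_lit 3) .nil)))))))) (.g (nat_lit 1) (.e (nat_lit 279397) (nat_lit 0) .nil) .nil)))) 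
(.nd (nat_lit 9) 
(.lf (nat_lit 545103) (.g (nat_lit 2437) (.e (nat_lit 114698) (nat_lit 11) (.e (nat_lit 426204) (nat_lit 9) (.e (nat_lit 426513) (nat_lit 27) (.e (nat_lit 336076) (nat_lit 9) (.e (nat_lit 336336) (nat_lit 20) (.e (nat_lit 229120) (nat_lit 5) .nil)))))) (.g (nat_lit 1) (.e (nat_lit 278364) (nat_lit 0) .nil) .nil))) 
(.lf (nat_lit 545615) (.g (nat_lit 4841) (.e (nat_lit 114718) (nat_lit 23) (.e (nat_lit 98333) (nat_lit 18) (.e (nat_lit 164327) (nat_lit 230) (.e (nat_lit 163868) (nat_lit 2) (.e (nat_lit 196656) (nat_lit 11) (.e (nat_lit 16416) (nat_lit 3) (.e (nat_lit 204838) (nat_lit 20) .nil))))))) (.g (nat_lit 1) (.e (nat_lit 280082) (nat_lit 0) .nil) .nil))))) (.nd (nat_lit 8) (.nd (nat_lit 9) 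
(.lf (nat_lit 544975) (.g (nat_lit 322) (.e (nat_lit 114698) (nat_lit 11) (.e (nat_lit 426124) (nat_lit 2) (.e (nat_lit 196672) (nat_lit 15) .nil))) (.g (nat_lit 0) (.e (nat_lit 278171) (nat_lit 0) .nil) .nil))) 
(.lf (nat_lit 545487) (.g (nat_lit 2283) (.e (nat_lit 114716) (nat_lit 22) (.e (nat_lit 90158) (nat_lit 11) (.e (nat_lit 24628) (nat_lit 9) (.e (nat_lit 336324) (nat_lit 18) (.e (nat_lit 212736) (nat_lit 1) (.e (nat_lit 164399) (nat_lit 256) (.e (nat_lit 57390) (nat_lit 5) .nil))))))) (.g (nat_lit 1) (.e (nat_lit 279620) (nat_lit 0) .nil) .nil)))) (.nd (nat_lit 9) 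
(.lf (nat_lit 545231) (.g (nat_lit 2138) (.e (nat_lit 122624) (nat_lit 11) (.e (nat_lit 426139) (nat_lit 3) (.e (nat_lit 204861) (nat_lit 26) (.e (nat_lit 336076) (nat_lit 9) (.e (nat_lit 336322) (nat_lit 18) .nil))))) (.g (nat_lit 0) (.e (nat_lit 278629) (nat_lit 0) .nil) .nil))) 
(.lf (nat_lit 545743) (.g (nat_lit 5781) (.e (nat_lit 114718) (nat_lit 23) (.e (nat_lit 98384) (nat_lit 32) (.e (nat_lit 475177) (nat_lit 24) (.e (nat_lit 516118) (nat_lit 1) (.e (nat_lit 164332) (nat_lit 230) (.e (nat_lit 163874) (nat_lit 3) (.e (nat_lit 204837) (nat_lit 20) .nil))))))) (.g (nat_lit 1) (.e (nat_lit 280256) (nat_lit 0) .nil) .nil))))))) 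
(.nd (nat_lit 6) (.nd (nat_lit 7) (.nd (nat_lit 8) (.nd (nat_lit 9) 
(.lf (nat_lit 544815) (.g (nat_lit 2069) (.e (nat_lit 114697) (nat_lit 11) (.e (nat_lit 426123) (nat_lit 2) (.e (nat_lit 196666) (nat_lit 13) (.e (nat_lit 65622) (nat_lit 12) .nil)))) (.g (nat_lit 0) (.e (nat_lit 277821) (nat_lit 0) .nil) .nil))) 
(.lf (nat_lit 545327) (.g (nat_lit 4169) (.e (nat_lit 114714) (nat_lit 22) (.e (nat_lit 90160) (nat_lit 11) (.e (nat_lit 24665) (nat_lit 14) (.e (nat_lit 401414) (nat_lit 0) (.e (nat_lit 3205) (nat_lit 194) (.e (nat_lit 507946) (nat_lit 18) (.e (nat_lit 311040) (nat_lit 20) .nil))))))) (.g (nat_lit 1) (.e (nat_lit 279349) (nat_lit 0) .nil) .nil)))) (.nd (nat_lit 9) 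
(.lf (nat_lit 545071) (.g (nat_lit 3019) (.e (nat_lit 114698) (nat_lit 11) (.e (nat_lit 426199) (nat_lit 9) (.e (nat_lit 426555) (nat_lit 32) (.e (nat_lit 376859) (nat_lit 21) (.e (nat_lit 57847) (nat_lit 252) (.e (nat_lit 57389) (nat_lit 5) .nil)))))) (.g (nat_lit 1) (.e (nat_lit 278330) (nat_lit 0) .nil) .nil))) 
(.lf (nat_lit 545583) (.g (nat_lit 1861) (.e (nat_lit 114717) (nat_lit 23) (.e (nat_lit 98334) (nat_lit 18) (.e (nat_lit 164398) (nat_lit 256) (.e (nat_lit 57370) (nat_lit 2) .nil)))) (.g (nat_lit 0) (.e (nat_lit 280038) (nat_lit 0) .nil) .nil))))) (.nd (nat_lit 8) (.nd (nat_lit 9) 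
(.lf (nat_lit 544943) (.g (nat_lit 3036) (.e (nat_lit 114697) (nat_lit 11) (.e (nat_lit 426199) (nat_lit 9) (.e (nat_lit 426555) (nat_lit 32) (.e (nat_lit 376857) (nat_lit 21) (.e (nat_lit 57849) (nat_lit 252) (.e (nat_lit 57390) (nat_lit 5) .nil)))))) (.g (nat_lit 1) (.e (nat_lit 277986) (nat_lit 0) .nil) .nil))) 
(.lf (nat_lit 545455) (.g (nat_lit 2312) (.e (nat_lit 114715) (nat_lit 22) (.e (nat_lit 90170) (nat_lit 13) (.e (nat_lit 172067) (nat_lit 3) (.e (nat_lit 204830) (nat_lit 18) (.e (nat_lit 57685) (nat_lit 156) (.e (nat_lit 163875) (nat_lit 3) (.e (nat_lit 204836) (nat_lit 20) .nil))))))) (.g (nat_lit 1) (.e (nat_lit 279565) (nat_lit 0) .nil) .nil)))) (.nd (nat_lit 9) 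
(.lf (nat_lit 545199) (.g (nat_lit 2315) (.e (nat_lit 122624) (nat_lit 11) (.e (nat_lit 426123) (nat_lit 2) (.e (nat_lit 196666) (nat_lit 13) (.e (nat_lit 65624) (nat_lit 12) (.e (nat_lit 385066) (nat_lit 26) .nil))))) (.g (nat_lit 0) (.e (nat_lit 278545) (nat_lit 0) .nil) .nil))) 
(.lf (nat_lit 545711) (.g (nat_lit 3096) (.e (nat_lit 114718) (nat_lit 23) (.e (nat_lit 98367) (nat_lit 27) (.e (nat_lit 434231) (nat_lit 23) (.e (nat_lit 532490) (nat_lit 0) (.e (nat_lit 1040) (nat_lit 81) .nil))))) (.g (nat_lit 0) (.e (nat_lit 280214) (nat_lit 0) .nil) .nil)))))) (.nd (nat_lit 7) (.nd (nat_lit 8) (.nd (nat_lit 9) 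
(.lf (nat_lit 544879) (.g (nat_lit 3723) (.e (nat_lit 114697) (nat_lit 11) (.e (nat_lit 426188) (nat_lit 9) (.e (nat_lit 426555) (nat_lit 32) (.e (nat_lit 376860) (nat_lit 21) (.e (nat_lit 57854) (nat_lit 252) (.e (nat_lit 57389) (nat_lit 5) .nil)))))) (.g (nat_lit 1) (.e (nat_lit 277919) (nat_lit 0) .nil) .nil))) 
(.lf (nat_lit 545391) (.g (nat_lit 2748) (.e (nat_lit 114714) (nat_lit 22) (.e (nat_lit 90174) (nat_lit 14) (.e (nat_lit 180243) (nat_lit 5) (.e (nat_lit 532499) (nat_lit 1) (.e (nat_lit 57664) (nat_lit 152) (.e (nat_lit 2715) (nat_lit 171) (.e (nat_lit 229433) (nat_lit 25) (.e (nat_lit 532513) (nat_lit 3) .nil)))))))) (.g (nat_lit 1) (.e (nat_lit 279456) (nat_lit 0) .nil) .nil)))) 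
(.nd (nat_lit 9) 
(.lf (nat_lit 545135) (.g (nat_lit 2390) (.e (nat_lit 114698) (nat_lit 11) (.e (nat_lit 426325) (nat_lit 13) (.e (nat_lit 483407) (nat_lit 26) (.e (nat_lit 385109) (nat_lit 51) (.e (nat_lit 802560) (nat_lit 5) .nil))))) (.g (nat_lit 1) (.e (nat_lit 278412) (nat_lit 0) .nil) .nil))) 
(.lf (nat_lit 545647) (.g (nat_lit 2234) (.e (nat_lit 114718) (nat_lit 23) (.e (nat_lit 98356) (nat_lit 26) (.e (nat_lit 426436) (nat_lit 18) (.e (nat_lit 98333) (nat_lit 18) (.e (nat_lit 164325) (nat_lit 230) (.e (nat_lit 163875) (nat_lit 3) (.e (nat_lit 204837) (nat_lit 20) .nil))))))) (.g (nat_lit 1) (.e (nat_lit 280138) (nat_lit 0) .nil) .nil))))) (.nd (nat_lit 8) (.nd (nat_lit 9) 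
(.lf (nat_lit 545007) (.g (nat_lit 2341) (.e (nat_lit 114698) (nat_lit 11) (.e (nat_lit 426188) (nat_lit 9) (.e (nat_lit 426538) (nat_lit 29) (.e (nat_lit 352309) (nat_lit 21) (.e (nat_lit 57848) (nat_lit 252) (.e (nat_lit 57388) (nat_lit 5) .nil)))))) (.g (nat_lit 1) (.e (nat_lit 278264) (nat_lit 0) .nil) .nil))) 
(.lf (nat_lit 545519) (.g (nat_lit 2351) (.e (nat_lit 114716) (nat_lit 22) (.e (nat_lit 90172) (nat_lit 14) (.e (nat_lit 180244) (nat_lit 5) (.e (nat_lit 532503) (nat_lit 1) (.e (nat_lit 57685) (nat_lit 156) (.e (nat_lit 163844) (nat_lit 0) (.e (nat_lit 3230) (nat_lit 197) (.e (nat_lit 532514) (nat_lit 3) .nil)))))))) (.g (nat_lit 1) (.e (nat_lit 279784) (nat_lit 0) .nil) .nil)))) 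
(.nd (nat_lit 9) 
(.lf (nat_lit 545263) (.g (nat_lit 894) (.e (nat_lit 122624) (nat_lit 11) (.e (nat_lit 426201) (nat_lit 9) (.e (nat_lit 426555) (nat_lit 32) (.e (nat_lit 376859) (nat_lit 21) .nil)))) (.g (nat_lit 0) (.e (nat_lit 278689) (nat_lit 0) .nil) .nil))) 
(.lf (nat_lit 545775) (.g (nat_lit 3380) (.e (nat_lit 114718) (nat_lit 23) (.e (nat_lit 98386) (nat_lit 32) (.e (nat_lit 475179) (nat_lit 24) (.e (nat_lit 516115) (nat_lit 1) (.e (nat_lit 164327) (nat_lit 230) (.e (nat_lit 163875) (nat_lit 3) (.e (nat_lit 204837) (nat_lit 20) .nil))))))) (.g (nat_lit 1) (.e (nat_lit 280296) (nat_lit 0) .nil) .nil)))))))) 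
(.nd (nat_lit 5) (.nd (nat_lit 6) (.nd (nat_lit 7) (.nd (nat_lit 8) (.nd (nat_lit 9) 
(.lf (nat_lit 544799) (.g (nat_lit 1923) (.e (nat_lit 114696) (nat_lit 11) (.e (nat_lit 426262) (nat_lit 9) (.e (nat_lit 426554) (nat_lit 32) (.e (nat_lit 376859) (nat_lit 21) (.e (nat_lit 57849) (nat_lit 252) (.e (nat_lit 57390) (nat_lit 5) .nil)))))) (.g (nat_lit 1) (.e (nat_lit 277771) (nat_lit 0) .nil) .nil))) 
(.lf (nat_lit 545311) (.g (nat_lit 3091) (.e (nat_lit 114712) (nat_lit 21) (.e (nat_lit 57924) (nat_lit 282) (.e (nat_lit 163923) (nat_lit 15) (.e (nat_lit 450587) (nat_lit 10) (.e (nat_lit 573477) (nat_lit 12) (.e (nat_lit 57360) (nat_lit 0) (.e (nat_lit 5949) (nat_lit 322) (.e (nat_lit 57389) (nat_lit 5) .nil)))))))) (.g (nat_lit 1) (.e (nat_lit 279314) (nat_lit 0) .nil) .nil)))) 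
(.nd (nat_lit 9) 
(.lf (nat_lit 545055) (.g (nat_lit 1205) (.e (nat_lit 114698) (nat_lit 11) (.e (nat_lit 426198) (nat_lit 9) (.e (nat_lit 426555) (nat_lit 32) (.e (nat_lit 376856) (nat_lit 21) .nil)))) (.g (nat_lit 0) (.e (nat_lit 278314) (nat_lit 0) .nil) .nil))) 
(.lf (nat_lit 545567) (.g (nat_lit 2365) (.e (nat_lit 114717) (nat_lit 23) (.e (nat_lit 98333) (nat_lit 18) (.e (nat_lit 164397) (nat_lit 256) (.e (nat_lit 57371) (nat_lit 2) (.e (nat_lit 90172) (nat_lit 14) .nil))))) (.g (nat_lit 0) (.e (nat_lit 280012) (nat_lit 0) .nil) .nil))))) (.nd (nat_lit 8) (.nd (nat_lit 9) 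
(.lf (nat_lit 544927) (.g (nat_lit 2957) (.e (nat_lit 114697) (nat_lit 11) (.e (nat_lit 426198) (nat_lit 9) (.e (nat_lit 426555) (nat_lit 32) (.e (nat_lit 376857) (nat_lit 21) (.e (nat_lit 57851) (nat_lit 252) (.e (nat_lit 57389) (nat_lit 5) .nil)))))) (.g (nat_lit 1) (.e (nat_lit 277970) (nat_lit 0) .nil) .nil))) 
(.lf (nat_lit 545439) (.g (nat_lit 3234) (.e (nat_lit 114715) (nat_lit 22) (.e (nat_lit 90170) (nat_lit 13) (.e (nat_lit 172065) (nat_lit 3) (.e (nat_lit 204831) (nat_lit 18) (.e (nat_lit 57692) (nat_lit 156) (.e (nat_lit 163874) (nat_lit 3) (.e (nat_lit 204836) (nat_lit 20) .nil))))))) (.g (nat_lit 1) (.e (nat_lit 279542) (nat_lit 0) .nil) .nil)))) (.nd (nat_lit 9) 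
(.lf (nat_lit 545183) (.g (nat_lit 2501) (.e (nat_lit 114698) (nat_lit 11) (.e (nat_lit 426335) (nat_lit 13) (.e (nat_lit 483385) (nat_lit 23) (.e (nat_lit 336336) (nat_lit 20) (.e (nat_lit 229120) (nat_lit 5) .nil))))) (.g (nat_lit 1) (.e (nat_lit 278502) (nat_lit 0) .nil) .nil))) 
(.lf (nat_lit 545695) (.g (nat_lit 3222) (.e (nat_lit 114718) (nat_lit 23) (.e (nat_lit 98366) (nat_lit 27) (.e (nat_lit 434231) (nat_lit 23) (.e (nat_lit 532500) (nat_lit 1) (.e (nat_lit 57691) (nat_lit 156) (.e (nat_lit 163875) (nat_lit 3) (.e (nat_lit 204836) (nat_lit 20) .nil))))))) (.g (nat_lit 1) (.e (nat_lit 280195) (nat_lit 0) .nil) .nil)))))) 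
(.nd (nat_lit 7) (.nd (nat_lit 8) (.nd (nat_lit 9) 
(.lf (nat_lit 544863) (.g (nat_lit 3586) (.e (nat_lit 114697) (nat_lit 11) (.e (nat_lit 426139) (nat_lit 3) (.e (nat_lit 204861) (nat_lit 26) (.e (nat_lit 336076) (nat_lit 9) (.e (nat_lit 336324) (nat_lit 18) (.e (nat_lit 204838) (nat_lit 20) .nil)))))) (.g (nat_lit 1) (.e (nat_lit 277892) (nat_lit 0) .nil) .nil))) 
(.lf (nat_lit 545375) (.g (nat_lit 2030) (.e (nat_lit 114714) (nat_lit 22) (.e (nat_lit 90172) (nat_lit 14) (.e (nat_lit 180244) (nat_lit 5) (.e (nat_lit 532503) (nat_lit 1) (.e (nat_lit 57685) (nat_lit 156) (.e (nat_lit 163841) (nat_lit 0) (.e (nat_lit 3256) (nat_lit 197) (.e (nat_lit 532513) (nat_lit 3) .nil)))))))) (.g (nat_lit 1) (.e (nat_lit 279429) (nat_lit 0) .nil) .nil)))) 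
(.nd (nat_lit 9) 
(.lf (nat_lit 545119) (.g (nat_lit 2082) (.e (nat_lit 114698) (nat_lit 11) (.e (nat_lit 426325) (nat_lit 13) (.e (nat_lit 483382) (nat_lit 23) (.e (nat_lit 336336) (nat_lit 20) (.e (nat_lit 229120) (nat_lit 5) .nil))))) (.g (nat_lit 1) (.e (nat_lit 278384) (nat_lit 0) .nil) .nil))) 
(.lf (nat_lit 545631) (.g (nat_lit 2575) (.e (nat_lit 114718) (nat_lit 23) (.e (nat_lit 98334) (nat_lit 18) (.e (nat_lit 164398) (nat_lit 256) (.e (nat_lit 57371) (nat_lit 2) (.e (nat_lit 90172) (nat_lit 14) .nil))))) (.g (nat_lit 0) (.e (nat_lit 280114) (nat_lit 0) .nil) .nil))))) (.nd (nat_lit 8) (.nd (nat_lit 9) 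
(.lf (nat_lit 544991) (.g (nat_lit 650) (.e (nat_lit 114698) (nat_lit 11) (.e (nat_lit 426138) (nat_lit 3) (.e (nat_lit 204866) (nat_lit 28) (.e (nat_lit 360192) (nat_lit 3) .nil)))) (.g (nat_lit 0) (.e (nat_lit 278214) (nat_lit 0) .nil) .nil))) 
(.lf (nat_lit 545503) (.g (nat_lit 1941) (.e (nat_lit 114716) (nat_lit 22) (.e (nat_lit 90172) (nat_lit 14) (.e (nat_lit 180243) (nat_lit 5) (.e (nat_lit 532501) (nat_lit 1) (.e (nat_lit 57690) (nat_lit 156) .nil))))) (.g (nat_lit 0) (.e (nat_lit 279664) (nat_lit 0) .nil) .nil)))) (.nd (nat_lit 9) 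
(.lf (nat_lit 545247) (.g (nat_lit 1873) (.e (nat_lit 122624) (nat_lit 11) (.e (nat_lit 426188) (nat_lit 9) (.e (nat_lit 426555) (nat_lit 32) (.e (nat_lit 376857) (nat_lit 21) (.e (nat_lit 57854) (nat_lit 252) .nil))))) (.g (nat_lit 0) (.e (nat_lit 278673) (nat_lit 0) .nil) .nil))) 
(.lf (nat_lit 545759) (.g (nat_lit 3331) (.e (nat_lit 114718) (nat_lit 23) (.e (nat_lit 98384) (nat_lit 32) (.e (nat_lit 475179) (nat_lit 24) (.e (nat_lit 516117) (nat_lit 1) (.e (nat_lit 164329) (nat_lit 230) (.e (nat_lit 163850) (nat_lit 0) (.e (nat_lit 3252) (nat_lit 197) (.e (nat_lit 532513) (nat_lit 3) .nil)))))))) (.g (nat_lit 1) (.e (nat_lit 280277) (nat_lit 0) .nil) .nil))))))) 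
(.nd (nat_lit 6) (.nd (nat_lit 7) (.nd (nat_lit 8) (.nd (nat_lit 9) 
(.lf (nat_lit 544831) (.g (nat_lit 3059) (.e (nat_lit 114697) (nat_lit 11) (.e (nat_lit 426133) (nat_lit 3) (.e (nat_lit 204861) (nat_lit 26) (.e (nat_lit 336078) (nat_lit 9) (.e (nat_lit 336324) (nat_lit 18) (.e (nat_lit 204837) (nat_lit 20) .nil)))))) (.g (nat_lit 1) (.e (nat_lit 277852) (nat_lit 0) .nil) .nil))) 
(.lf (nat_lit 545343) (.g (nat_lit 2646) (.e (nat_lit 114714) (nat_lit 22) (.e (nat_lit 90172) (nat_lit 14) (.e (nat_lit 180243) (nat_lit 5) (.e (nat_lit 532501) (nat_lit 1) (.e (nat_lit 57664) (nat_lit 152) (.e (nat_lit 2715) (nat_lit 171) (.e (nat_lit 229433) (nat_lit 25) (.e (nat_lit 532513) (nat_lit 3) .nil)))))))) (.g (nat_lit 1) (.e (nat_lit 279369) (nat_lit 0) .nil) .nil)))) 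
(.nd (nat_lit 9) 
(.lf (nat_lit 545087) (.g (nat_lit 943) (.e (nat_lit 114698) (nat_lit 11) (.e (nat_lit 426200) (nat_lit 9) (.e (nat_lit 426555) (nat_lit 32) (.e (nat_lit 376857) (nat_lit 21) .nil)))) (.g (nat_lit 0) (.e (nat_lit 278347) (nat_lit 0) .nil) .nil))) 
(.lf (nat_lit 545599) (.g (nat_lit 765) (.e (nat_lit 114717) (nat_lit 23) (.e (nat_lit 98367) (nat_lit 27) (.e (nat_lit 434231) (nat_lit 23) .nil))) (.g (nat_lit 0) (.e (nat_lit 280054) (nat_lit 0) .nil) .nil))))) (.nd (nat_lit 8) (.nd (nat_lit 9) 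
(.lf (nat_lit 544959) (.g (nat_lit 3847) (.e (nat_lit 114697) (nat_lit 11) (.e (nat_lit 426200) (nat_lit 9) (.e (nat_lit 426555) (nat_lit 32) (.e (nat_lit 376860) (nat_lit 21) (.e (nat_lit 57854) (nat_lit 252) (.e (nat_lit 57389) (nat_lit 5) .nil)))))) (.g (nat_lit 1) (.e (nat_lit 278002) (nat_lit 0) .nil) .nil))) 
(.lf (nat_lit 545471) (.g (nat_lit 3124) (.e (nat_lit 114715) (nat_lit 22) (.e (nat_lit 90170) (nat_lit 13) (.e (nat_lit 172138) (nat_lit 15) (.e (nat_lit 1800) (nat_lit 119) (.e (nat_lit 516117) (nat_lit 1) (.e (nat_lit 164329) (nat_lit 230) (.e (nat_lit 163850) (nat_lit 0) (.e (nat_lit 3252) (nat_lit 197) (.e (nat_lit 532515) (nat_lit 3) .nil))))))))) (.g (nat_lit 1) (.e (nat_lit 279582) (nat_lit 0) .nil) .nil)))) 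
(.nd (nat_lit 9) 
(.lf (nat_lit 545215) (.g (nat_lit 2355) (.e (nat_lit 122624) (nat_lit 11) (.e (nat_lit 426125) (nat_lit 2) (.e (nat_lit 196681) (nat_lit 17) (.e (nat_lit 131123) (nat_lit 12) .nil)))) (.g (nat_lit 0) (.e (nat_lit 278594) (nat_lit 0) .nil) .nil))) 
(.lf (nat_lit 545727) (.g (nat_lit 2366) (.e (nat_lit 114718) (nat_lit 23) (.e (nat_lit 98367) (nat_lit 27) (.e (nat_lit 434231) (nat_lit 23) (.e (nat_lit 532502) (nat_lit 1) (.e (nat_lit 57691) (nat_lit 156) .nil))))) (.g (nat_lit 0) (.e (nat_lit 280236) (nat_lit 0) .nil) .nil)))))) (.nd (nat_lit 7) (.nd (nat_lit 8) (.nd (nat_lit 9) 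
(.lf (nat_lit 544895) (.g (nat_lit 3770) (.e (nat_lit 114697) (nat_lit 11) (.e (nat_lit 426190) (nat_lit 9) (.e (nat_lit 426555) (nat_lit 32) (.e (nat_lit 376860) (nat_lit 21) (.e (nat_lit 57854) (nat_lit 252) (.e (nat_lit 57389) (nat_lit 5) .nil)))))) (.g (nat_lit 1) (.e (nat_lit 277935) (nat_lit 0) .nil) .nil))) 
(.lf (nat_lit 545407) (.g (nat_lit 2899) (.e (nat_lit 114714) (nat_lit 22) (.e (nat_lit 90174) (nat_lit 14) (.e (nat_lit 180243) (nat_lit 5) (.e (nat_lit 532504) (nat_lit 1) (.e (nat_lit 57663) (nat_lit 152) (.e (nat_lit 2450) (nat_lit 157) (.e (nat_lit 2685) (nat_lit 168) (.e (nat_lit 204837) (nat_lit 20) .nil)))))))) (.g (nat_lit 1) (.e (nat_lit 279474) (nat_lit 0) .nil) .nil)))) 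
(.nd (nat_lit 9) 
(.lf (nat_lit 545151) (.g (nat_lit 1401) (.e (nat_lit 114698) (nat_lit 11) (.e (nat_lit 426327) (nat_lit 13) (.e (nat_lit 491264) (nat_lit 23) (.e (nat_lit 336336) (nat_lit 20) (.e (nat_lit 229120) (nat_lit 5) .nil))))) (.g (nat_lit 1) (.e (nat_lit 278440) (nat_lit 0) .nil) .nil))) 
(.lf (nat_lit 545663) (.g (nat_lit 3698) (.e (nat_lit 114718) (nat_lit 23) (.e (nat_lit 98356) (nat_lit 26) (.e (nat_lit 426438) (nat_lit 18) (.e (nat_lit 98334) (nat_lit 18) (.e (nat_lit 164305) (nat_lit 226) (.e (nat_lit 2612) (nat_lit 163) (.e (nat_lit 163964) (nat_lit 25) (.e (nat_lit 532515) (nat_lit 3) .nil)))))))) (.g (nat_lit 1) (.e (nat_lit 280158) (nat_lit 0) .nil) .nil))))) 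
(.nd (nat_lit 8) (.nd (nat_lit 9) 
(.lf (nat_lit 545023) (.g (nat_lit 2405) (.e (nat_lit 114698) (nat_lit 11) (.e (nat_lit 426190) (nat_lit 9) (.e (nat_lit 426555) (nat_lit 32) (.e (nat_lit 376860) (nat_lit 21) (.e (nat_lit 57844) (nat_lit 252) (.e (nat_lit 57388) (nat_lit 5) .nil)))))) (.g (nat_lit 1) (.e (nat_lit 278280) (nat_lit 0) .nil) .nil))) 
(.lf (nat_lit 545535) (.g (nat_lit 5213) (.e (nat_lit 114716) (nat_lit 22) (.e (nat_lit 90174) (nat_lit 14) (.e (nat_lit 180243) (nat_lit 5) (.e (nat_lit 532499) (nat_lit 1) (.e (nat_lit 57688) (nat_lit 156) (.e (nat_lit 163874) (nat_lit 3) (.e (nat_lit 204837) (nat_lit 20) .nil))))))) (.g (nat_lit 1) (.e (nat_lit 279859) (nat_lit 0) .nil) .nil)))) (.nd (nat_lit 9) 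
(.lf (nat_lit 545279) (.g (nat_lit 1392) (.e (nat_lit 122624) (nat_lit 12) (.e (nat_lit 434245) (nat_lit 28) (.e (nat_lit 573451) (nat_lit 9) (.e (nat_lit 498) (nat_lit 40) .nil)))) (.g (nat_lit 0) (.e (nat_lit 278900) (nat_lit 0) .nil) .nil))) 
(.lf (nat_lit 545791) (.g (nat_lit 3077) (.e (nat_lit 114719) (nat_lit 23) (.e (nat_lit 98333) (nat_lit 18) (.e (nat_lit 164398) (nat_lit 256) (.e (nat_lit 57378) (nat_lit 3) (.e (nat_lit 98366) (nat_lit 27) (.e (nat_lit 434231) (nat_lit 23) (.e (nat_lit 532513) (nat_lit 3) .nil))))))) (.g (nat_lit 1) (.e (nat_lit 280318) (nat_lit 0) .nil) .nil)))))))))))))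

noncomputable def tv5593 : DT := (.nd (nat_lit 0) (.nd (nat_lit 1) (.nd (nat_lit 2) (.nd (nat_lit 3) (.nd (nat_lit 4) (.nd (nat_lit 5) (.nd (nat_lit 6) (.nd (nat_lit 7) (.nd (nat_lit 8) (.nd (nat_lit 9) 
(.lf (nat_lit 545792) (.g (nat_lit 4009) (.e (nat_lit 114719) (nat_lit 23) (.e (nat_lit 98333) (nat_lit 18) (.e (nat_lit 164398) (nat_lit 256) (.e (nat_lit 57378) (nat_lit 3) (.e (nat_lit 98367) (nat_lit 27) (.e (nat_lit 434231) (nat_lit 23) (.e (nat_lit 532514) (nat_lit 3) .nil))))))) (.g (nat_lit 1) (.e (nat_lit 280319) (nat_lit 0) .nil) .nil))) 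
(.lf (nat_lit 546304) (.g (nat_lit 1698) (.e (nat_lit 131105) (nat_lit 9) (.e (nat_lit 336454) (nat_lit 34) (.e (nat_lit 483362) (nat_lit 18) (.e (nat_lit 57927) (nat_lit 282) (.e (nat_lit 163869) (nat_lit 2) (.e (nat_lit 196681) (nat_lit 17) .nil)))))) (.g (nat_lit 1) (.e (nat_lit 281965) (nat_lit 0) .nil) .nil)))) (.nd (nat_lit 9) 
(.lf (nat_lit 546048) (.g (nat_lit 3116) (.e (nat_lit 122914) (nat_lit 14) (.e (nat_lit 352262) (nat_lit 0) (.e (nat_lit 3748) (nat_lit 228) (.e (nat_lit 786483) (nat_lit 30) (.e (nat_lit 360451) (nat_lit 0) (.e (nat_lit 7936) (nat_lit 323) .nil)))))) (.g (nat_lit 1) (.e (nat_lit 280746) (nat_lit 0) .nil) .nil))) 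
(.lf (nat_lit 546560) (.g (nat_lit 4327) (.e (nat_lit 147495) (nat_lit 11) (.e (nat_lit 24608) (nat_lit 3) (.e (nat_lit 98373) (nat_lit 29) (.e (nat_lit 450588) (nat_lit 10) (.e (nat_lit 573452) (nat_lit 9) .nil))))) (.g (nat_lit 0) (.e (nat_lit 283205) (nat_lit 0) .nil) .nil))))) (.nd (nat_lit 8) (.nd (nat_lit 9) 
(.lf (nat_lit 545920) (.g (nat_lit 3270) (.e (nat_lit 114719) (nat_lit 23) (.e (nat_lit 98367) (nat_lit 27) (.e (nat_lit 434231) (nat_lit 23) (.e (nat_lit 532500) (nat_lit 1) (.e (nat_lit 57691) (nat_lit 156) (.e (nat_lit 163874) (nat_lit 3) (.e (nat_lit 204836) (nat_lit 20) .nil))))))) (.g (nat_lit 1) (.e (nat_lit 280565) (nat_lit 0) .nil) .nil))) 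
(.lf (nat_lit 546432) (.g (nat_lit 1794) (.e (nat_lit 131125) (nat_lit 13) (.e (nat_lit 393225) (nat_lit 9) (.e (nat_lit 335988) (nat_lit 1) (.e (nat_lit 57930) (nat_lit 282) .nil)))) (.g (nat_lit 0) (.e (nat_lit 282388) (nat_lit 0) .nil) .nil)))) (.nd (nat_lit 9) 
(.lf (nat_lit 546176) (.g (nat_lit 503) (.e (nat_lit 123195) (nat_lit 266) (.e (nat_lit 57347) (nat_lit 0) (.e (nat_lit 7936) (nat_lit 347) .nil))) (.g (nat_lit 0) (.e (nat_lit 281277) (nat_lit 0) .nil) .nil))) 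
(.lf (nat_lit 546688) (.g (nat_lit 509) (.e (nat_lit 270373) (nat_lit 16) (.e (nat_lit 286756) (nat_lit 10) (.e (nat_lit 344153) (nat_lit 35) .nil))) (.g (nat_lit 0) (.e (nat_lit 283806) (nat_lit 0) .nil) .nil)))))) (.nd (nat_lit 7) (.nd (nat_lit 8) (.nd (nat_lit 9) 
(.lf (nat_lit 545856) (.g (nat_lit 2561) (.e (nat_lit 114719) (nat_lit 23) (.e (nat_lit 98365) (nat_lit 26) (.e (nat_lit 426139) (nat_lit 3) (.e (nat_lit 204830) (nat_lit 18) (.e (nat_lit 57690) (nat_lit 156) .nil))))) (.g (nat_lit 0) (.e (nat_lit 280424) (nat_lit 0) .nil) .nil))) 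
(.lf (nat_lit 546368) (.g (nat_lit 386) (.e (nat_lit 131109) (nat_lit 9) (.e (nat_lit 336454) (nat_lit 34) (.e (nat_lit 483365) (nat_lit 18) .nil))) (.g (nat_lit 0) (.e (nat_lit 282180) (nat_lit 0) .nil) .nil)))) (.nd (nat_lit 9) 
(.lf (nat_lit 546112) (.g (nat_lit 1124) (.e (nat_lit 123002) (nat_lit 86) (.e (nat_lit 532550) (nat_lit 12) (.e (nat_lit 360474) (nat_lit 8) .nil))) (.g (nat_lit 0) (.e (nat_lit 280939) (nat_lit 0) .nil) .nil))) 
(.lf (nat_lit 546624) (.g (nat_lit 1081) (.e (nat_lit 163584) (nat_lit 4) (.e (nat_lit 172118) (nat_lit 12) (.e (nat_lit 475198) (nat_lit 40) (.e (nat_lit 704599) (nat_lit 6) .nil)))) (.g (nat_lit 0) (.e (nat_lit 283512) (nat_lit 0) .nil) .nil))))) (.nd (nat_lit 8) (.nd (nat_lit 9) 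
(.lf (nat_lit 545984) (.g (nat_lit 2536) (.e (nat_lit 114719) (nat_lit 23) (.e (nat_lit 98386) (nat_lit 32) (.e (nat_lit 475179) (nat_lit 24) (.e (nat_lit 516120) (nat_lit 1) (.e (nat_lit 164330) (nat_lit 230) .nil))))) (.g (nat_lit 0) (.e (nat_lit 280640) (nat_lit 0) .nil) .nil))) 
(.lf (nat_lit 546496) (.g (nat_lit 430) (.e (nat_lit 139008) (nat_lit 29) (.e (nat_lit 442430) (nat_lit 24) (.e (nat_lit 229680) (nat_lit 244) .nil))) (.g (nat_lit 0) (.e (nat_lit 282844) (nat_lit 0) .nil) .nil)))) (.nd (nat_lit 9) 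
(.lf (nat_lit 546240) (.g (nat_lit 2266) (.e (nat_lit 131095) (nat_lit 3) (.e (nat_lit 98333) (nat_lit 18) (.e (nat_lit 164179) (nat_lit 154) (.e (nat_lit 57377) (nat_lit 3) .nil)))) (.g (nat_lit 0) (.e (nat_lit 281736) (nat_lit 0) .nil) .nil))) 
(.lf (nat_lit 546752) (.g (nat_lit 2707) (.e (nat_lit 278567) (nat_lit 16) (.e (nat_lit 286732) (nat_lit 2) (.e (nat_lit 90170) (nat_lit 13) (.e (nat_lit 172106) (nat_lit 10) (.e (nat_lit 434227) (nat_lit 20) .nil))))) (.g (nat_lit 0) (.e (nat_lit 283945) (nat_lit 0) .nil) .nil))))))) (.nd (nat_lit 6) (.nd (nat_lit 7) (.nd (nat_lit 8) (.nd (nat_lit 9) 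
(.lf (nat_lit 545824) (.g (nat_lit 1852) (.e (nat_lit 114719) (nat_lit 23) (.e (nat_lit 98354) (nat_lit 26) (.e (nat_lit 426125) (nat_lit 2) (.e (nat_lit 196615) (nat_lit 0) .nil)))) (.g (nat_lit 0) (.e (nat_lit 280376) (nat_lit 0) .nil) .nil))) 
(.lf (nat_lit 546336) (.g (nat_lit 421) (.e (nat_lit 131108) (nat_lit 9) (.e (nat_lit 336019) (nat_lit 3) (.e (nat_lit 98350) (nat_lit 24) .nil))) (.g (nat_lit 0) (.e (nat_lit 282025) (nat_lit 0) .nil) .nil)))) (.nd (nat_lit 9) 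
(.lf (nat_lit 546080) (.g (nat_lit 1897) (.e (nat_lit 122936) (nat_lit 23) (.e (nat_lit 516117) (nat_lit 1) (.e (nat_lit 164403) (nat_lit 256) (.e (nat_lit 57370) (nat_lit 2) (.e (nat_lit 90174) (nat_lit 14) .nil))))) (.g (nat_lit 0) (.e (nat_lit 280804) (nat_lit 0) .nil) .nil))) 
(.lf (nat_lit 546592) (.g (nat_lit 2796) (.e (nat_lit 147496) (nat_lit 11) (.e (nat_lit 24604) (nat_lit 2) (.e (nat_lit 90178) (nat_lit 15) (.e (nat_lit 188440) (nat_lit 20) (.e (nat_lit 3307) (nat_lit 202) (.e (nat_lit 573449) (nat_lit 9) (.e (nat_lit 1312) (nat_lit 98) .nil))))))) (.g (nat_lit 1) (.e (nat_lit 283249) (nat_lit 0) .nil) .nil))))) (.nd (nat_lit 8) (.nd (nat_lit 9) 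
(.lf (nat_lit 545952) (.g (nat_lit 2527) (.e (nat_lit 114719) (nat_lit 23) (.e (nat_lit 98384) (nat_lit 32) (.e (nat_lit 475177) (nat_lit 24) (.e (nat_lit 516118) (nat_lit 1) (.e (nat_lit 164327) (nat_lit 230) (.e (nat_lit 163875) (nat_lit 3) (.e (nat_lit 204836) (nat_lit 20) .nil))))))) (.g (nat_lit 1) (.e (nat_lit 280604) (nat_lit 0) .nil) .nil))) 
(.lf (nat_lit 546464) (.g (nat_lit 3136) (.e (nat_lit 131133) (nat_lit 15) (.e (nat_lit 3305) (nat_lit 202) (.e (nat_lit 573482) (nat_lit 13) (.e (nat_lit 65619) (nat_lit 10) (.e (nat_lit 344117) (nat_lit 21) (.e (nat_lit 516106) (nat_lit 0) (.e (nat_lit 7936) (nat_lit 409) .nil))))))) (.g (nat_lit 1) (.e (nat_lit 282524) (nat_lit 0) .nil) .nil)))) (.nd (nat_lit 9) 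
(.lf (nat_lit 546208) (.g (nat_lit 2304) (.e (nat_lit 123198) (nat_lit 266) (.e (nat_lit 57435) (nat_lit 17) (.e (nat_lit 376835) (nat_lit 0) (.e (nat_lit 3632) (nat_lit 227) (.e (nat_lit 778327) (nat_lit 6) (.e (nat_lit 81957) (nat_lit 24) .nil)))))) (.g (nat_lit 1) (.e (nat_lit 281332) (nat_lit 0) .nil) .nil))) 
(.lf (nat_lit 546720) (.g (nat_lit 918) (.e (nat_lit 278552) (nat_lit 10) (.e (nat_lit 5409) (nat_lit 303) (.e (nat_lit 73764) (nat_lit 18) (.e (nat_lit 638998) (nat_lit 8) (.e (nat_lit 172080) (nat_lit 7) .nil))))) (.g (nat_lit 0) (.e (nat_lit 283876) (nat_lit 0) .nil) .nil)))))) (.nd (nat_lit 7) (.nd (nat_lit 8) (.nd (nat_lit 9) 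
(.lf (nat_lit 545888) (.g (nat_lit 2955) (.e (nat_lit 114719) (nat_lit 23) (.e (nat_lit 98366) (nat_lit 27) (.e (nat_lit 434231) (nat_lit 23) (.e (nat_lit 532502) (nat_lit 1) (.e (nat_lit 57691) (nat_lit 156) (.e (nat_lit 163875) (nat_lit 3) (.e (nat_lit 204837) (nat_lit 20) .nil))))))) (.g (nat_lit 1) (.e (nat_lit 280494) (nat_lit 0) .nil) .nil))) 
(.lf (nat_lit 546400) (.g (nat_lit 2998) (.e (nat_lit 131121) (nat_lit 12) (.e (nat_lit 385074) (nat_lit 31) (.e (nat_lit 573484) (nat_lit 13) (.e (nat_lit 65617) (nat_lit 10) .nil)))) (.g (nat_lit 0) (.e (nat_lit 282283) (nat_lit 0) .nil) .nil)))) (.nd (nat_lit 9) 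
(.lf (nat_lit 546144) (.g (nat_lit 2124) (.e (nat_lit 123171) (nat_lit 256) (.e (nat_lit 3090) (nat_lit 191) (.e (nat_lit 483372) (nat_lit 21) (.e (nat_lit 319534) (nat_lit 16) .nil)))) (.g (nat_lit 0) (.e (nat_lit 281223) (nat_lit 0) .nil) .nil))) 
(.lf (nat_lit 546656) (.g (nat_lit 902) (.e (nat_lit 163584) (nat_lit 6) (.e (nat_lit 188440) (nat_lit 20) (.e (nat_lit 3409) (nat_lit 212) (.e (nat_lit 655380) (nat_lit 6) (.e (nat_lit 196352) (nat_lit 8) .nil))))) (.g (nat_lit 0) (.e (nat_lit 283704) (nat_lit 0) .nil) .nil))))) (.nd (nat_lit 8) (.nd (nat_lit 9) 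
(.lf (nat_lit 546016) (.g (nat_lit 5000) (.e (nat_lit 122904) (nat_lit 12) (.e (nat_lit 336019) (nat_lit 3) (.e (nat_lit 98373) (nat_lit 29) (.e (nat_lit 450588) (nat_lit 10) (.e (nat_lit 573475) (nat_lit 12) .nil))))) (.g (nat_lit 0) (.e (nat_lit 280704) (nat_lit 0) .nil) .nil))) 
(.lf (nat_lit 546528) (.g (nat_lit 2092) (.e (nat_lit 147492) (nat_lit 11) (.e (nat_lit 24655) (nat_lit 13) (.e (nat_lit 393299) (nat_lit 27) (.e (nat_lit 491552) (nat_lit 9) .nil)))) (.g (nat_lit 0) (.e (nat_lit 283133) (nat_lit 0) .nil) .nil)))) (.nd (nat_lit 9) 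
(.lf (nat_lit 546272) (.g (nat_lit 1680) (.e (nat_lit 131098) (nat_lit 3) (.e (nat_lit 98335) (nat_lit 18) (.e (nat_lit 164179) (nat_lit 154) (.e (nat_lit 57377) (nat_lit 3) .nil)))) (.g (nat_lit 0) (.e (nat_lit 281870) (nat_lit 0) .nil) .nil))) 
(.lf (nat_lit 546784) (.g (nat_lit 1819) (.e (nat_lit 278547) (nat_lit 8) (.e (nat_lit 303132) (nat_lit 9) (.e (nat_lit 426109) (nat_lit 1) (.e (nat_lit 164319) (nat_lit 228) (.e (nat_lit 57412) (nat_lit 12) (.e (nat_lit 336058) (nat_lit 7) (.e (nat_lit 319527) (nat_lit 15) .nil))))))) (.g (nat_lit 1) (.e (nat_lit 284035) (nat_lit 0) .nil) .nil)))))))) 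
(.nd (nat_lit 5) (.nd (nat_lit 6) (.nd (nat_lit 7) (.nd (nat_lit 8) (.nd (nat_lit 9) 
(.lf (nat_lit 545808) (.g (nat_lit 2578) (.e (nat_lit 114719) (nat_lit 23) (.e (nat_lit 98334) (nat_lit 18) (.e (nat_lit 164403) (nat_lit 256) (.e (nat_lit 57377) (nat_lit 3) (.e (nat_lit 98377) (nat_lit 30) .nil))))) (.g (nat_lit 0) (.e (nat_lit 280352) (nat_lit 0) .nil) .nil))) 
(.lf (nat_lit 546320) (.g (nat_lit 1448) (.e (nat_lit 131107) (nat_lit 9) (.e (nat_lit 336324) (nat_lit 18) (.e (nat_lit 204837) (nat_lit 20) (.e (nat_lit 114697) (nat_lit 11) .nil)))) (.g (nat_lit 0) (.e (nat_lit 282007) (nat_lit 0) .nil) .nil)))) (.nd (nat_lit 9) 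
(.lf (nat_lit 546064) (.g (nat_lit 2003) (.e (nat_lit 122935) (nat_lit 23) (.e (nat_lit 516115) (nat_lit 1) (.e (nat_lit 164399) (nat_lit 256) (.e (nat_lit 57375) (nat_lit 2) (.e (nat_lit 90174) (nat_lit 14) .nil))))) (.g (nat_lit 0) (.e (nat_lit 280780) (nat_lit 0) .nil) .nil))) 
(.lf (nat_lit 546576) (.g (nat_lit 2922) (.e (nat_lit 147495) (nat_lit 11) (.e (nat_lit 24665) (nat_lit 14) (.e (nat_lit 401451) (nat_lit 12) (.e (nat_lit 475214) (nat_lit 42) .nil)))) (.g (nat_lit 0) (.e (nat_lit 283231) (nat_lit 0) .nil) .nil))))) (.nd (nat_lit 8) (.nd (nat_lit 9) 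
(.lf (nat_lit 545936) (.g (nat_lit 710) (.e (nat_lit 114719) (nat_lit 23) (.e (nat_lit 98367) (nat_lit 27) (.e (nat_lit 434234) (nat_lit 23) .nil))) (.g (nat_lit 0) (.e (nat_lit 280582) (nat_lit 0) .nil) .nil))) 
(.lf (nat_lit 546448) (.g (nat_lit 1798) (.e (nat_lit 131128) (nat_lit 13) (.e (nat_lit 393225) (nat_lit 9) (.e (nat_lit 335988) (nat_lit 1) (.e (nat_lit 57930) (nat_lit 282) .nil)))) (.g (nat_lit 0) (.e (nat_lit 282450) (nat_lit 0) .nil) .nil)))) (.nd (nat_lit 9) 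
(.lf (nat_lit 546192) (.g (nat_lit 3026) (.e (nat_lit 123197) (nat_lit 266) (.e (nat_lit 57346) (nat_lit 0) (.e (nat_lit 6203) (nat_lit 332) (.e (nat_lit 2798) (nat_lit 180) (.e (nat_lit 303133) (nat_lit 9) (.e (nat_lit 426499) (nat_lit 27) (.e (nat_lit 336105) (nat_lit 9) (.e (nat_lit 336032) (nat_lit 4) .nil)))))))) (.g (nat_lit 1) (.e (nat_lit 281307) (nat_lit 0) .nil) .nil))) 
(.lf (nat_lit 546704) (.g (nat_lit 2548) (.e (nat_lit 270353) (nat_lit 8) (.e (nat_lit 303118) (nat_lit 3) (.e (nat_lit 204855) (nat_lit 26) (.e (nat_lit 336099) (nat_lit 9) (.e (nat_lit 336013) (nat_lit 2) (.e (nat_lit 98048) (nat_lit 18) (.e (nat_lit 1333) (nat_lit 100) .nil))))))) (.g (nat_lit 1) (.e (nat_lit 283839) (nat_lit 0) .nil) .nil)))))) 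
(.nd (nat_lit 7) (.nd (nat_lit 8) (.nd (nat_lit 9) 
(.lf (nat_lit 545872) (.g (nat_lit 3923) (.e (nat_lit 114719) (nat_lit 23) (.e (nat_lit 98366) (nat_lit 27) (.e (nat_lit 434231) (nat_lit 23) (.e (nat_lit 532499) (nat_lit 1) (.e (nat_lit 57692) (nat_lit 156) (.e (nat_lit 163875) (nat_lit 3) (.e (nat_lit 204836) (nat_lit 20) .nil))))))) (.g (nat_lit 1) (.e (nat_lit 280465) (nat_lit 0) .nil) .nil))) 
(.lf (nat_lit 546384) (.g (nat_lit 1919) (.e (nat_lit 131120) (nat_lit 12) (.e (nat_lit 385066) (nat_lit 26) (.e (nat_lit 532515) (nat_lit 3) (.e (nat_lit 114697) (nat_lit 11) (.e (nat_lit 426122) (nat_lit 2) (.e (nat_lit 196681) (nat_lit 17) .nil)))))) (.g (nat_lit 1) (.e (nat_lit 282243) (nat_lit 0) .nil) .nil)))) (.nd (nat_lit 9) 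
(.lf (nat_lit 546128) (.g (nat_lit 1568) (.e (nat_lit 130816) (nat_lit 206) (.e (nat_lit 180250) (nat_lit 10) (.e (nat_lit 573469) (nat_lit 11) (.e (nat_lit 16446) (nat_lit 9) .nil)))) (.g (nat_lit 0) (.e (nat_lit 281126) (nat_lit 0) .nil) .nil))) 
(.lf (nat_lit 546640) (.g (nat_lit 393) (.e (nat_lit 163584) (nat_lit 6) (.e (nat_lit 188419) (nat_lit 0) (.e (nat_lit 2057) (nat_lit 142) (.e (nat_lit 704598) (nat_lit 6) (.e (nat_lit 196352) (nat_lit 8) .nil))))) (.g (nat_lit 0) (.e (nat_lit 283668) (nat_lit 0) .nil) .nil))))) (.nd (nat_lit 8) (.nd (nat_lit 9) 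
(.lf (nat_lit 546000) (.g (nat_lit 4749) (.e (nat_lit 114727) (nat_lit 28) (.e (nat_lit 147494) (nat_lit 11) (.e (nat_lit 24665) (nat_lit 14) (.e (nat_lit 401451) (nat_lit 12) (.e (nat_lit 475214) (nat_lit 42) (.e (nat_lit 720954) (nat_lit 25) .nil)))))) (.g (nat_lit 1) (.e (nat_lit 280673) (nat_lit 0) .nil) .nil))) 
(.lf (nat_lit 546512) (.g (nat_lit 3272) (.e (nat_lit 139287) (nat_lit 9) (.e (nat_lit 3102) (nat_lit 192) (.e (nat_lit 491560) (nat_lit 10) (.e (nat_lit 344126) (nat_lit 25) (.e (nat_lit 548873) (nat_lit 5) .nil))))) (.g (nat_lit 0) (.e (nat_lit 283032) (nat_lit 0) .nil) .nil)))) (.nd (nat_lit 9) 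
(.lf (nat_lit 546256) (.g (nat_lit 2817) (.e (nat_lit 131096) (nat_lit 3) (.e (nat_lit 98335) (nat_lit 18) (.e (nat_lit 164182) (nat_lit 154) (.e (nat_lit 57379) (nat_lit 3) (.e (nat_lit 98342) (nat_lit 20) .nil))))) (.g (nat_lit 0) (.e (nat_lit 281798) (nat_lit 0) .nil) .nil))) 
(.lf (nat_lit 546768) (.g (nat_lit 462) (.e (nat_lit 278567) (nat_lit 16) (.e (nat_lit 286754) (nat_lit 10) (.e (nat_lit 344153) (nat_lit 35) (.e (nat_lit 630801) (nat_lit 8) (.e (nat_lit 172081) (nat_lit 7) .nil))))) (.g (nat_lit 0) (.e (nat_lit 283973) (nat_lit 0) .nil) .nil))))))) (.nd (nat_lit 6) (.nd (nat_lit 7) (.nd (nat_lit 8) (.nd (nat_lit 9) 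
(.lf (nat_lit 545840) (.g (nat_lit 996) (.e (nat_lit 114719) (nat_lit 23) (.e (nat_lit 98356) (nat_lit 26) (.e (nat_lit 426438) (nat_lit 18) (.e (nat_lit 98335) (nat_lit 18) .nil)))) (.g (nat_lit 0) (.e (nat_lit 280395) (nat_lit 0) .nil) .nil))) 
(.lf (nat_lit 546352) (.g (nat_lit 2200) (.e (nat_lit 131109) (nat_lit 9) (.e (nat_lit 336019) (nat_lit 3) (.e (nat_lit 98350) (nat_lit 24) (.e (nat_lit 409649) (nat_lit 18) (.e (nat_lit 303111) (nat_lit 0) (.e (nat_lit 3146) (nat_lit 193) (.e (nat_lit 500087) (nat_lit 22) .nil))))))) (.g (nat_lit 1) (.e (nat_lit 282103) (nat_lit 0) .nil) .nil)))) (.nd (nat_lit 9) 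
(.lf (nat_lit 546096) (.g (nat_lit 2436) (.e (nat_lit 122937) (nat_lit 23) (.e (nat_lit 516117) (nat_lit 1) (.e (nat_lit 164399) (nat_lit 256) (.e (nat_lit 57372) (nat_lit 2) (.e (nat_lit 90174) (nat_lit 14) .nil))))) (.g (nat_lit 0) (.e (nat_lit 280834) (nat_lit 0) .nil) .nil))) 
(.lf (nat_lit 546608) (.g (nat_lit 203) (.e (nat_lit 155649) (nat_lit 0) (.e (nat_lit 3003) (nat_lit 186) (.e (nat_lit 442371) (nat_lit 0) .nil))) (.g (nat_lit 0) (.e (nat_lit 283326) (nat_lit 0) .nil) .nil))))) (.nd (nat_lit 8) (.nd (nat_lit 9) 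
(.lf (nat_lit 545968) (.g (nat_lit 3574) (.e (nat_lit 114719) (nat_lit 23) (.e (nat_lit 98384) (nat_lit 32) (.e (nat_lit 475179) (nat_lit 24) (.e (nat_lit 516119) (nat_lit 1) (.e (nat_lit 164327) (nat_lit 230) (.e (nat_lit 163875) (nat_lit 3) (.e (nat_lit 204836) (nat_lit 20) .nil))))))) (.g (nat_lit 1) (.e (nat_lit 280622) (nat_lit 0) .nil) .nil))) 
(.lf (nat_lit 546480) (.g (nat_lit 1937) (.e (nat_lit 131140) (nat_lit 27) (.e (nat_lit 426306) (nat_lit 12) (.e (nat_lit 475199) (nat_lit 40) (.e (nat_lit 704596) (nat_lit 5) (.e (nat_lit 188160) (nat_lit 39) .nil))))) (.g (nat_lit 1) (.e (nat_lit 282692) (nat_lit 0) .nil) .nil)))) (.nd (nat_lit 9) 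
(.lf (nat_lit 546224) (.g (nat_lit 2667) (.e (nat_lit 131086) (nat_lit 1) (.e (nat_lit 57854) (nat_lit 252) (.e (nat_lit 57378) (nat_lit 3) (.e (nat_lit 98334) (nat_lit 18) (.e (nat_lit 164383) (nat_lit 254) .nil))))) (.g (nat_lit 0) (.e (nat_lit 281592) (nat_lit 0) .nil) .nil))) 
(.lf (nat_lit 546736) (.g (nat_lit 963) (.e (nat_lit 278566) (nat_lit 16) (.e (nat_lit 286753) (nat_lit 10) (.e (nat_lit 344156) (nat_lit 36) (.e (nat_lit 638999) (nat_lit 8) .nil)))) (.g (nat_lit 0) (.e (nat_lit 283927) (nat_lit 0) .nil) .nil)))))) (.nd (nat_lit 7) (.nd (nat_lit 8) (.nd (nat_lit 9) 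
(.lf (nat_lit 545904) (.g (nat_lit 2812) (.e (nat_lit 114719) (nat_lit 23) (.e (nat_lit 98367) (nat_lit 27) (.e (nat_lit 434231) (nat_lit 23) (.e (nat_lit 532499) (nat_lit 1) (.e (nat_lit 57687) (nat_lit 156) .nil))))) (.g (nat_lit 0) (.e (nat_lit 280533) (nat_lit 0) .nil) .nil))) 
(.lf (nat_lit 546416) (.g (nat_lit 2543) (.e (nat_lit 131123) (nat_lit 12) (.e (nat_lit 385068) (nat_lit 26) (.e (nat_lit 532513) (nat_lit 3) (.e (nat_lit 114697) (nat_lit 11) (.e (nat_lit 426121) (nat_lit 2) (.e (nat_lit 196681) (nat_lit 17) .nil)))))) (.g (nat_lit 1) (.e (nat_lit 282346) (nat_lit 0) .nil) .nil)))) (.nd (nat_lit 9) 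
(.lf (nat_lit 546160) (.g (nat_lit 2234) (.e (nat_lit 123183) (nat_lit 264) (.e (nat_lit 1183) (nat_lit 87) (.e (nat_lit 57480) (nat_lit 28) (.e (nat_lit 557108) (nat_lit 15) (.e (nat_lit 188452) (nat_lit 23) .nil))))) (.g (nat_lit 0) (.e (nat_lit 281250) (nat_lit 0) .nil) .nil))) 
(.lf (nat_lit 546672) (.g (nat_lit 3303) (.e (nat_lit 270373) (nat_lit 16) (.e (nat_lit 286735) (nat_lit 3) (.e (nat_lit 98359) (nat_lit 26) (.e (nat_lit 426211) (nat_lit 9) (.e (nat_lit 426125) (nat_lit 2) (.e (nat_lit 204544) (nat_lit 18) (.e (nat_lit 2762) (nat_lit 176) .nil))))))) (.g (nat_lit 1) (.e (nat_lit 283785) (nat_lit 0) .nil) .nil))))) (.nd (nat_lit 8) (.nd (nat_lit 9) 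
(.lf (nat_lit 546032) (.g (nat_lit 947) (.e (nat_lit 122911) (nat_lit 13) (.e (nat_lit 344117) (nat_lit 21) (.e (nat_lit 516116) (nat_lit 1) .nil))) (.g (nat_lit 0) (.e (nat_lit 280720) (nat_lit 0) .nil) .nil))) 
(.lf (nat_lit 546544) (.g (nat_lit 3876) (.e (nat_lit 147495) (nat_lit 11) (.e (nat_lit 24604) (nat_lit 2) (.e (nat_lit 90167) (nat_lit 13) (.e (nat_lit 172126) (nat_lit 14) (.e (nat_lit 491540) (nat_lit 3) (.e (nat_lit 106240) (nat_lit 5) .nil)))))) (.g (nat_lit 1) (.e (nat_lit 283188) (nat_lit 0) .nil) .nil)))) (.nd (nat_lit 9) 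
(.lf (nat_lit 546288) (.g (nat_lit 2603) (.e (nat_lit 131105) (nat_lit 9) (.e (nat_lit 336019) (nat_lit 3) (.e (nat_lit 98350) (nat_lit 24) (.e (nat_lit 409647) (nat_lit 18) (.e (nat_lit 303117) (nat_lit 2) (.e (nat_lit 196681) (nat_lit 17) .nil)))))) (.g (nat_lit 1) (.e (nat_lit 281911) (nat_lit 0) .nil) .nil))) 
(.lf (nat_lit 546800) (.g (nat_lit 2462) (.e (nat_lit 303104) (nat_lit 0) (.e (nat_lit 3238) (nat_lit 197) (.e (nat_lit 532535) (nat_lit 9) (.e (nat_lit 336173) (nat_lit 10) .nil)))) (.g (nat_lit 0) (.e (nat_lit 284076) (nat_lit 0) .nil) .nil))))))))) (.nd (nat_lit 4) (.nd (nat_lit 5) (.nd (nat_lit 6) (.nd (nat_lit 7) (.nd (nat_lit 8) (.nd (nat_lit 9) 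
(.lf (nat_lit 545800) (.g (nat_lit 4795) (.e (nat_lit 114719) (nat_lit 23) (.e (nat_lit 98334) (nat_lit 18) (.e (nat_lit 164332) (nat_lit 230) (.e (nat_lit 163869) (nat_lit 2) (.e (nat_lit 196656) (nat_lit 11) (.e (nat_lit 16416) (nat_lit 3) (.e (nat_lit 204837) (nat_lit 20) .nil))))))) (.g (nat_lit 1) (.e (nat_lit 280339) (nat_lit 0) .nil) .nil))) 
(.lf (nat_lit 546312) (.g (nat_lit 392) (.e (nat_lit 131105) (nat_lit 9) (.e (nat_lit 336454) (nat_lit 34) (.e (nat_lit 483365) (nat_lit 18) .nil))) (.g (nat_lit 0) (.e (nat_lit 281976) (nat_lit 0) .nil) .nil)))) (.nd (nat_lit 9) 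
(.lf (nat_lit 546056) (.g (nat_lit 571) (.e (nat_lit 122919) (nat_lit 15) (.e (nat_lit 360451) (nat_lit 0) (.e (nat_lit 5156) (nat_lit 292) .nil))) (.g (nat_lit 0) (.e (nat_lit 280758) (nat_lit 0) .nil) .nil))) 
(.lf (nat_lit 546568) (.g (nat_lit 2571) (.e (nat_lit 147495) (nat_lit 11) (.e (nat_lit 24654) (nat_lit 13) (.e (nat_lit 393301) (nat_lit 27) (.e (nat_lit 491552) (nat_lit 9) (.e (nat_lit 336046) (nat_lit 6) .nil))))) (.g (nat_lit 1) (.e (nat_lit 283215) (nat_lit 0) .nil) .nil))))) (.nd (nat_lit 8) (.nd (nat_lit 9) 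
(.lf (nat_lit 545928) (.g (nat_lit 4040) (.e (nat_lit 114719) (nat_lit 23) (.e (nat_lit 98367) (nat_lit 27) (.e (nat_lit 434232) (nat_lit 23) (.e (nat_lit 532499) (nat_lit 1) (.e (nat_lit 57688) (nat_lit 156) (.e (nat_lit 163875) (nat_lit 3) (.e (nat_lit 204837) (nat_lit 20) .nil))))))) (.g (nat_lit 1) (.e (nat_lit 280574) (nat_lit 0) .nil) .nil))) 
(.lf (nat_lit 546440) (.g (nat_lit 1141) (.e (nat_lit 131126) (nat_lit 13) (.e (nat_lit 393251) (nat_lit 18) (.e (nat_lit 164179) (nat_lit 154) .nil))) (.g (nat_lit 0) (.e (nat_lit 282421) (nat_lit 0) .nil) .nil)))) (.nd (nat_lit 9) 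
(.lf (nat_lit 546184) (.g (nat_lit 2459) (.e (nat_lit 123195) (nat_lit 266) (.e (nat_lit 57400) (nat_lit 10) (.e (nat_lit 319490) (nat_lit 0) (.e (nat_lit 5664) (nat_lit 312) (.e (nat_lit 3085) (nat_lit 191) (.e (nat_lit 483382) (nat_lit 23) (.e (nat_lit 336036) (nat_lit 4) .nil))))))) (.g (nat_lit 1) (.e (nat_lit 281293) (nat_lit 0) .nil) .nil))) 
(.lf (nat_lit 546696) (.g (nat_lit 2319) (.e (nat_lit 270373) (nat_lit 16) (.e (nat_lit 286761) (nat_lit 13) (.e (nat_lit 393293) (nat_lit 26) (.e (nat_lit 475198) (nat_lit 40) (.e (nat_lit 704772) (nat_lit 14) .nil))))) (.g (nat_lit 0) (.e (nat_lit 283817) (nat_lit 0) .nil) .nil)))))) (.nd (nat_lit 7) (.nd (nat_lit 8) (.nd (nat_lit 9) 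
(.lf (nat_lit 545864) (.g (nat_lit 1865) (.e (nat_lit 114719) (nat_lit 23) (.e (nat_lit 98366) (nat_lit 27) (.e (nat_lit 434231) (nat_lit 23) (.e (nat_lit 532499) (nat_lit 1) (.e (nat_lit 57686) (nat_lit 156) .nil))))) (.g (nat_lit 0) (.e (nat_lit 280456) (nat_lit 0) .nil) .nil))) 
(.lf (nat_lit 546376) (.g (nat_lit 973) (.e (nat_lit 131116) (nat_lit 9) (.e (nat_lit 336012) (nat_lit 2) (.e (nat_lit 90181) (nat_lit 16) (.e (nat_lit 237312) (nat_lit 176) .nil)))) (.g (nat_lit 0) (.e (nat_lit 282225) (nat_lit 0) .nil) .nil)))) (.nd (nat_lit 9) 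
(.lf (nat_lit 546120) (.g (nat_lit 3524) (.e (nat_lit 123013) (nat_lit 116) (.e (nat_lit 778466) (nat_lit 11) (.e (nat_lit 24617) (nat_lit 7) (.e (nat_lit 319534) (nat_lit 16) (.e (nat_lit 286756) (nat_lit 10) (.e (nat_lit 344169) (nat_lit 40) (.e (nat_lit 679680) (nat_lit 16) .nil))))))) (.g (nat_lit 1) (.e (nat_lit 280966) (nat_lit 0) .nil) .nil))) 
(.lf (nat_lit 546632) (.g (nat_lit 1711) (.e (nat_lit 163584) (nat_lit 4) (.e (nat_lit 172120) (nat_lit 12) (.e (nat_lit 475199) (nat_lit 40) (.e (nat_lit 704598) (nat_lit 6) (.e (nat_lit 196352) (nat_lit 8) .nil))))) (.g (nat_lit 0) (.e (nat_lit 283524) (nat_lit 0) .nil) .nil))))) (.nd (nat_lit 8) (.nd (nat_lit 9) 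
(.lf (nat_lit 545992) (.g (nat_lit 984) (.e (nat_lit 114721) (nat_lit 24) (.e (nat_lit 106536) (nat_lit 11) (.e (nat_lit 16424) (nat_lit 7) .nil))) (.g (nat_lit 0) (.e (nat_lit 280650) (nat_lit 0) .nil) .nil))) 
(.lf (nat_lit 546504) (.g (nat_lit 2767) (.e (nat_lit 139285) (nat_lit 9) (.e (nat_lit 2830) (nat_lit 182) (.e (nat_lit 409645) (nat_lit 18) (.e (nat_lit 303117) (nat_lit 2) (.e (nat_lit 196672) (nat_lit 15) .nil))))) (.g (nat_lit 0) (.e (nat_lit 282997) (nat_lit 0) .nil) .nil)))) (.nd (nat_lit 9) 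
(.lf (nat_lit 546248) (.g (nat_lit 836) (.e (nat_lit 131096) (nat_lit 3) (.e (nat_lit 98335) (nat_lit 18) (.e (nat_lit 164179) (nat_lit 154) .nil))) (.g (nat_lit 0) (.e (nat_lit 281788) (nat_lit 0) .nil) .nil))) 
(.lf (nat_lit 546760) (.g (nat_lit 2557) (.e (nat_lit 278567) (nat_lit 16) (.e (nat_lit 286734) (nat_lit 3) (.e (nat_lit 98359) (nat_lit 26) (.e (nat_lit 426211) (nat_lit 9) (.e (nat_lit 426125) (nat_lit 2) (.e (nat_lit 204544) (nat_lit 18) (.e (nat_lit 2773) (nat_lit 177) .nil))))))) (.g (nat_lit 1) (.e (nat_lit 283953) (nat_lit 0) .nil) .nil))))))) 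
(.nd (nat_lit 6) (.nd (nat_lit 7) (.nd (nat_lit 8) (.nd (nat_lit 9) 
(.lf (nat_lit 545832) (.g (nat_lit 3527) (.e (nat_lit 114719) (nat_lit 23) (.e (nat_lit 98356) (nat_lit 26) (.e (nat_lit 426436) (nat_lit 18) (.e (nat_lit 98335) (nat_lit 18) (.e (nat_lit 164327) (nat_lit 230) (.e (nat_lit 163875) (nat_lit 3) (.e (nat_lit 204838) (nat_lit 20) .nil))))))) (.g (nat_lit 1) (.e (nat_lit 280387) (nat_lit 0) .nil) .nil))) 
(.lf (nat_lit 546344) (.g (nat_lit 3583) (.e (nat_lit 131109) (nat_lit 9) (.e (nat_lit 336019) (nat_lit 3) (.e (nat_lit 98350) (nat_lit 24) (.e (nat_lit 409645) (nat_lit 18) (.e (nat_lit 303117) (nat_lit 2) (.e (nat_lit 196681) (nat_lit 17) .nil)))))) (.g (nat_lit 1) (.e (nat_lit 282094) (nat_lit 0) .nil) .nil)))) (.nd (nat_lit 9) 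
(.lf (nat_lit 546088) (.g (nat_lit 2438) (.e (nat_lit 122936) (nat_lit 23) (.e (nat_lit 516131) (nat_lit 3) (.e (nat_lit 221219) (nat_lit 24) (.e (nat_lit 213019) (nat_lit 9) (.e (nat_lit 2610) (nat_lit 163) (.e (nat_lit 164345) (nat_lit 240) (.e (nat_lit 2640) (nat_lit 165) (.e (nat_lit 188160) (nat_lit 38) .nil)))))))) (.g (nat_lit 1) (.e (nat_lit 280814) (nat_lit 0) .nil) .nil))) 
(.lf (nat_lit 546600) (.g (nat_lit 136) (.e (nat_lit 147511) (nat_lit 14) (.e (nat_lit 2807) (nat_lit 180) (.e (nat_lit 303138) (nat_lit 10) .nil))) (.g (nat_lit 0) (.e (nat_lit 283287) (nat_lit 0) .nil) .nil))))) (.nd (nat_lit 8) (.nd (nat_lit 9) 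
(.lf (nat_lit 545960) (.g (nat_lit 3159) (.e (nat_lit 114719) (nat_lit 23) (.e (nat_lit 98384) (nat_lit 32) (.e (nat_lit 475179) (nat_lit 24) (.e (nat_lit 516115) (nat_lit 1) (.e (nat_lit 164332) (nat_lit 230) (.e (nat_lit 163874) (nat_lit 3) (.e (nat_lit 204838) (nat_lit 20) .nil))))))) (.g (nat_lit 1) (.e (nat_lit 280612) (nat_lit 0) .nil) .nil))) 
(.lf (nat_lit 546472) (.g (nat_lit 2115) (.e (nat_lit 131136) (nat_lit 27) (.e (nat_lit 426316) (nat_lit 12) (.e (nat_lit 475211) (nat_lit 41) (.e (nat_lit 712749) (nat_lit 28) (.e (nat_lit 442112) (nat_lit 7) .nil))))) (.g (nat_lit 0) (.e (nat_lit 282607) (nat_lit 0) .nil) .nil)))) (.nd (nat_lit 9) 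
(.lf (nat_lit 546216) (.g (nat_lit 2089) (.e (nat_lit 123228) (nat_lit 282) (.e (nat_lit 163867) (nat_lit 2) (.e (nat_lit 196670) (nat_lit 14) (.e (nat_lit 73746) (nat_lit 3) (.e (nat_lit 516129) (nat_lit 3) .nil))))) (.g (nat_lit 0) (.e (nat_lit 281391) (nat_lit 0) .nil) .nil))) 
(.lf (nat_lit 546728) (.g (nat_lit 1391) (.e (nat_lit 278566) (nat_lit 16) (.e (nat_lit 286734) (nat_lit 3) (.e (nat_lit 98372) (nat_lit 29) (.e (nat_lit 450576) (nat_lit 2) .nil)))) (.g (nat_lit 0) (.e (nat_lit 283916) (nat_lit 0) .nil) .nil)))))) (.nd (nat_lit 7) (.nd (nat_lit 8) (.nd (nat_lit 9) 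
(.lf (nat_lit 545896) (.g (nat_lit 466) (.e (nat_lit 114719) (nat_lit 23) (.e (nat_lit 98366) (nat_lit 27) (.e (nat_lit 434233) (nat_lit 23) .nil))) (.g (nat_lit 0) (.e (nat_lit 280503) (nat_lit 0) .nil) .nil))) 
(.lf (nat_lit 546408) (.g (nat_lit 4036) (.e (nat_lit 131122) (nat_lit 12) (.e (nat_lit 385074) (nat_lit 31) (.e (nat_lit 573482) (nat_lit 13) (.e (nat_lit 65630) (nat_lit 14) (.e (nat_lit 401425) (nat_lit 2) (.e (nat_lit 196681) (nat_lit 17) .nil)))))) (.g (nat_lit 1) (.e (nat_lit 282313) (nat_lit 0) .nil) .nil)))) (.nd (nat_lit 9) 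
(.lf (nat_lit 546152) (.g (nat_lit 3099) (.e (nat_lit 123176) (nat_lit 259) (.e (nat_lit 163962) (nat_lit 25) (.e (nat_lit 532569) (nat_lit 16) (.e (nat_lit 401448) (nat_lit 10) (.e (nat_lit 434231) (nat_lit 23) (.e (nat_lit 532490) (nat_lit 0) (.e (nat_lit 6223) (nat_lit 334) .nil))))))) (.g (nat_lit 1) (.e (nat_lit 281240) (nat_lit 0) .nil) .nil))) 
(.lf (nat_lit 546664) (.g (nat_lit 1162) (.e (nat_lit 270372) (nat_lit 16) (.e (nat_lit 286749) (nat_lit 9) (.e (nat_lit 335997) (nat_lit 1) (.e (nat_lit 57857) (nat_lit 254) .nil)))) (.g (nat_lit 0) (.e (nat_lit 283774) (nat_lit 0) .nil) .nil))))) (.nd (nat_lit 8) (.nd (nat_lit 9) 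
(.lf (nat_lit 546024) (.g (nat_lit 2393) (.e (nat_lit 122906) (nat_lit 12) (.e (nat_lit 336001) (nat_lit 2) (.e (nat_lit 90170) (nat_lit 13) (.e (nat_lit 172113) (nat_lit 10) (.e (nat_lit 434245) (nat_lit 28) (.e (nat_lit 573474) (nat_lit 12) (.e (nat_lit 57356) (nat_lit 0) (.e (nat_lit 7270) (nat_lit 385) .nil)))))))) (.g (nat_lit 1) (.e (nat_lit 280712) (nat_lit 0) .nil) .nil))) 
(.lf (nat_lit 546536) (.g (nat_lit 4394) (.e (nat_lit 147494) (nat_lit 11) (.e (nat_lit 24665) (nat_lit 14) (.e (nat_lit 401450) (nat_lit 12) (.e (nat_lit 475214) (nat_lit 42) (.e (nat_lit 720954) (nat_lit 25) (.e (nat_lit 114727) (nat_lit 28) .nil)))))) (.g (nat_lit 1) (.e (nat_lit 283173) (nat_lit 0) .nil) .nil)))) (.nd (nat_lit 9) 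
(.lf (nat_lit 546280) (.g (nat_lit 2711) (.e (nat_lit 131104) (nat_lit 9) (.e (nat_lit 336324) (nat_lit 18) (.e (nat_lit 204835) (nat_lit 19) (.e (nat_lit 106536) (nat_lit 11) .nil)))) (.g (nat_lit 0) (.e (nat_lit 281896) (nat_lit 0) .nil) .nil))) 
(.lf (nat_lit 546792) (.g (nat_lit 426) (.e (nat_lit 303104) (nat_lit 0) (.e (nat_lit 3238) (nat_lit 197) (.e (nat_lit 532535) (nat_lit 9) .nil))) (.g (nat_lit 0) (.e (nat_lit 284065) (nat_lit 0) .nil) .nil)))))))) (.nd (nat_lit 5) (.nd (nat_lit 6) (.nd (nat_lit 7) (.nd (nat_lit 8) (.nd (nat_lit 9) 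
(.lf (nat_lit 545816) (.g (nat_lit 362) (.e (nat_lit 114719) (nat_lit 23) (.e (nat_lit 98350) (nat_lit 24) (.e (nat_lit 409616) (nat_lit 10) .nil))) (.g (nat_lit 0) (.e (nat_lit 280367) (nat_lit 0) .nil) .nil))) 
(.lf (nat_lit 546328) (.g (nat_lit 1483) (.e (nat_lit 131107) (nat_lit 9) (.e (nat_lit 336324) (nat_lit 18) (.e (nat_lit 204838) (nat_lit 20) (.e (nat_lit 122624) (nat_lit 15) .nil)))) (.g (nat_lit 0) (.e (nat_lit 282017) (nat_lit 0) .nil) .nil)))) (.nd (nat_lit 9) 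
(.lf (nat_lit 546072) (.g (nat_lit 2345) (.e (nat_lit 122936) (nat_lit 23) (.e (nat_lit 516115) (nat_lit 1) (.e (nat_lit 164399) (nat_lit 256) (.e (nat_lit 57378) (nat_lit 3) (.e (nat_lit 98366) (nat_lit 27) .nil))))) (.g (nat_lit 0) (.e (nat_lit 280792) (nat_lit 0) .nil) .nil))) 
(.lf (nat_lit 546584) (.g (nat_lit 3997) (.e (nat_lit 147496) (nat_lit 11) (.e (nat_lit 24604) (nat_lit 2) (.e (nat_lit 90170) (nat_lit 13) (.e (nat_lit 172106) (nat_lit 10) (.e (nat_lit 434244) (nat_lit 28) (.e (nat_lit 573449) (nat_lit 9) (.e (nat_lit 1312) (nat_lit 98) .nil))))))) (.g (nat_lit 1) (.e (nat_lit 283241) (nat_lit 0) .nil) .nil))))) (.nd (nat_lit 8) (.nd (nat_lit 9) 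
(.lf (nat_lit 545944) (.g (nat_lit 732) (.e (nat_lit 114719) (nat_lit 23) (.e (nat_lit 98367) (nat_lit 27) (.e (nat_lit 434248) (nat_lit 28) .nil))) (.g (nat_lit 0) (.e (nat_lit 280593) (nat_lit 0) .nil) .nil))) 
(.lf (nat_lit 546456) (.g (nat_lit 2541) (.e (nat_lit 131133) (nat_lit 15) (.e (nat_lit 3295) (nat_lit 202) (.e (nat_lit 573485) (nat_lit 13) (.e (nat_lit 65604) (nat_lit 9) (.e (nat_lit 336013) (nat_lit 2) (.e (nat_lit 90165) (nat_lit 12) (.e (nat_lit 171776) (nat_lit 194) .nil))))))) (.g (nat_lit 1) (.e (nat_lit 282508) (nat_lit 0) .nil) .nil)))) (.nd (nat_lit 9) 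
(.lf (nat_lit 546200) (.g (nat_lit 2529) (.e (nat_lit 123197) (nat_lit 266) (.e (nat_lit 57436) (nat_lit 17) (.e (nat_lit 376835) (nat_lit 0) (.e (nat_lit 3632) (nat_lit 227) (.e (nat_lit 778326) (nat_lit 6) (.e (nat_lit 81959) (nat_lit 24) .nil)))))) (.g (nat_lit 1) (.e (nat_lit 281321) (nat_lit 0) .nil) .nil))) 
(.lf (nat_lit 546712) (.g (nat_lit 3650) (.e (nat_lit 270354) (nat_lit 8) (.e (nat_lit 303119) (nat_lit 3) (.e (nat_lit 204855) (nat_lit 26) (.e (nat_lit 336099) (nat_lit 9) (.e (nat_lit 336013) (nat_lit 2) (.e (nat_lit 98048) (nat_lit 18) (.e (nat_lit 1329) (nat_lit 100) .nil))))))) (.g (nat_lit 1) (.e (nat_lit 283850) (nat_lit 0) .nil) .nil)))))) 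
(.nd (nat_lit 7) (.nd (nat_lit 8) (.nd (nat_lit 9) 
(.lf (nat_lit 545880) (.g (nat_lit 3390) (.e (nat_lit 114719) (nat_lit 23) (.e (nat_lit 98366) (nat_lit 27) (.e (nat_lit 434231) (nat_lit 23) (.e (nat_lit 532500) (nat_lit 1) (.e (nat_lit 57690) (nat_lit 156) (.e (nat_lit 163875) (nat_lit 3) (.e (nat_lit 204836) (nat_lit 20) .nil))))))) (.g (nat_lit 1) (.e (nat_lit 280485) (nat_lit 0) .nil) .nil))) 
(.lf (nat_lit 546392) (.g (nat_lit 2864) (.e (nat_lit 131120) (nat_lit 12) (.e (nat_lit 385068) (nat_lit 26) (.e (nat_lit 532513) (nat_lit 3) (.e (nat_lit 114697) (nat_lit 11) (.e (nat_lit 426124) (nat_lit 2) (.e (nat_lit 196681) (nat_lit 17) .nil)))))) (.g (nat_lit 1) (.e (nat_lit 282257) (nat_lit 0) .nil) .nil)))) (.nd (nat_lit 9) 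
(.lf (nat_lit 546136) (.g (nat_lit 1384) (.e (nat_lit 123153) (nat_lit 250) (.e (nat_lit 2650) (nat_lit 166) (.e (nat_lit 188441) (nat_lit 20) (.e (nat_lit 3391) (nat_lit 210) .nil)))) (.g (nat_lit 0) (.e (nat_lit 281185) (nat_lit 0) .nil) .nil))) 
(.lf (nat_lit 546648) (.g (nat_lit 879) (.e (nat_lit 163584) (nat_lit 6) (.e (nat_lit 188434) (nat_lit 20) (.e (nat_lit 3409) (nat_lit 212) (.e (nat_lit 655380) (nat_lit 6) (.e (nat_lit 196352) (nat_lit 8) .nil))))) (.g (nat_lit 0) (.e (nat_lit 283692) (nat_lit 0) .nil) .nil))))) (.nd (nat_lit 8) (.nd (nat_lit 9) 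
(.lf (nat_lit 546008) (.g (nat_lit 2807) (.e (nat_lit 122896) (nat_lit 5) (.e (nat_lit 114698) (nat_lit 11) (.e (nat_lit 426124) (nat_lit 2) (.e (nat_lit 196672) (nat_lit 15) .nil)))) (.g (nat_lit 0) (.e (nat_lit 280695) (nat_lit 0) .nil) .nil))) 
(.lf (nat_lit 546520) (.g (nat_lit 4451) (.e (nat_lit 139289) (nat_lit 9) (.e (nat_lit 3100) (nat_lit 192) (.e (nat_lit 491563) (nat_lit 12) (.e (nat_lit 385073) (nat_lit 31) (.e (nat_lit 573493) (nat_lit 15) (.e (nat_lit 81962) (nat_lit 25) .nil)))))) (.g (nat_lit 1) (.e (nat_lit 283057) (nat_lit 0) .nil) .nil)))) (.nd (nat_lit 9) 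
(.lf (nat_lit 546264) (.g (nat_lit 3148) (.e (nat_lit 131098) (nat_lit 3) (.e (nat_lit 98333) (nat_lit 18) (.e (nat_lit 164179) (nat_lit 154) (.e (nat_lit 57378) (nat_lit 3) (.e (nat_lit 98340) (nat_lit 20) (.e (nat_lit 221212) (nat_lit 22) (.e (nat_lit 196681) (nat_lit 17) .nil))))))) (.g (nat_lit 1) (.e (nat_lit 281840) (nat_lit 0) .nil) .nil))) 
(.lf (nat_lit 546776) (.g (nat_lit 4369) (.e (nat_lit 278546) (nat_lit 8) (.e (nat_lit 303119) (nat_lit 3) (.e (nat_lit 204869) (nat_lit 29) (.e (nat_lit 360464) (nat_lit 2) (.e (nat_lit 507920) (nat_lit 5) .nil))))) (.g (nat_lit 0) (.e (nat_lit 284022) (nat_lit 0) .nil) .nil))))))) (.nd (nat_lit 6) (.nd (nat_lit 7) (.nd (nat_lit 8) (.nd (nat_lit 9) 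
(.lf (nat_lit 545848) (.g (nat_lit 5353) (.e (nat_lit 114719) (nat_lit 23) (.e (nat_lit 98358) (nat_lit 26) (.e (nat_lit 426436) (nat_lit 18) (.e (nat_lit 98335) (nat_lit 18) (.e (nat_lit 164330) (nat_lit 230) .nil))))) (.g (nat_lit 0) (.e (nat_lit 280405) (nat_lit 0) .nil) .nil))) 
(.lf (nat_lit 546360) (.g (nat_lit 3479) (.e (nat_lit 131109) (nat_lit 9) (.e (nat_lit 336324) (nat_lit 18) (.e (nat_lit 204837) (nat_lit 20) (.e (nat_lit 114698) (nat_lit 11) (.e (nat_lit 426116) (nat_lit 2) (.e (nat_lit 196681) (nat_lit 17) .nil)))))) (.g (nat_lit 1) (.e (nat_lit 282156) (nat_lit 0) .nil) .nil)))) (.nd (nat_lit 9) 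
(.lf (nat_lit 546104) (.g (nat_lit 2546) (.e (nat_lit 122979) (nat_lit 55) (.e (nat_lit 778466) (nat_lit 11) (.e (nat_lit 24617) (nat_lit 7) (.e (nat_lit 319534) (nat_lit 16) (.e (nat_lit 286756) (nat_lit 10) .nil))))) (.g (nat_lit 0) (.e (nat_lit 280858) (nat_lit 0) .nil) .nil))) 
(.lf (nat_lit 546616) (.g (nat_lit 413) (.e (nat_lit 155652) (nat_lit 0) (.e (nat_lit 3003) (nat_lit 186) (.e (nat_lit 442371) (nat_lit 0) (.e (nat_lit 2148) (nat_lit 142) (.e (nat_lit 704597) (nat_lit 6) (.e (nat_lit 196352) (nat_lit 8) .nil)))))) (.g (nat_lit 1) (.e (nat_lit 283393) (nat_lit 0) .nil) .nil))))) (.nd (nat_lit 8) (.nd (nat_lit 9) 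
(.lf (nat_lit 545976) (.g (nat_lit 3606) (.e (nat_lit 114719) (nat_lit 23) (.e (nat_lit 98386) (nat_lit 32) (.e (nat_lit 475179) (nat_lit 24) (.e (nat_lit 516115) (nat_lit 1) (.e (nat_lit 164327) (nat_lit 230) (.e (nat_lit 163875) (nat_lit 3) (.e (nat_lit 204838) (nat_lit 20) .nil))))))) (.g (nat_lit 1) (.e (nat_lit 280632) (nat_lit 0) .nil) .nil))) 
(.lf (nat_lit 546488) (.g (nat_lit 2399) (.e (nat_lit 131140) (nat_lit 27) (.e (nat_lit 426316) (nat_lit 12) (.e (nat_lit 475198) (nat_lit 40) (.e (nat_lit 704596) (nat_lit 5) (.e (nat_lit 188160) (nat_lit 39) .nil))))) (.g (nat_lit 1) (.e (nat_lit 282711) (nat_lit 0) .nil) .nil)))) (.nd (nat_lit 9) 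
(.lf (nat_lit 546232) (.g (nat_lit 2917) (.e (nat_lit 131089) (nat_lit 1) (.e (nat_lit 57854) (nat_lit 252) (.e (nat_lit 57378) (nat_lit 3) (.e (nat_lit 98335) (nat_lit 18) (.e (nat_lit 164402) (nat_lit 256) .nil))))) (.g (nat_lit 0) (.e (nat_lit 281636) (nat_lit 0) .nil) .nil))) 
(.lf (nat_lit 546744) (.g (nat_lit 1862) (.e (nat_lit 278566) (nat_lit 16) (.e (nat_lit 286756) (nat_lit 10) (.e (nat_lit 344156) (nat_lit 36) (.e (nat_lit 638998) (nat_lit 8) (.e (nat_lit 172079) (nat_lit 7) (.e (nat_lit 409638) (nat_lit 15) .nil)))))) (.g (nat_lit 1) (.e (nat_lit 283936) (nat_lit 0) .nil) .nil)))))) (.nd (nat_lit 7) (.nd (nat_lit 8) (.nd (nat_lit 9) 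
(.lf (nat_lit 545912) (.g (nat_lit 1432) (.e (nat_lit 114719) (nat_lit 23) (.e (nat_lit 98367) (nat_lit 27) (.e (nat_lit 434231) (nat_lit 23) (.e (nat_lit 532500) (nat_lit 1) .nil)))) (.g (nat_lit 0) (.e (nat_lit 280543) (nat_lit 0) .nil) .nil))) 
(.lf (nat_lit 546424) (.g (nat_lit 795) (.e (nat_lit 131124) (nat_lit 13) (.e (nat_lit 393225) (nat_lit 9) (.e (nat_lit 335986) (nat_lit 1) .nil))) (.g (nat_lit 0) (.e (nat_lit 282369) (nat_lit 0) .nil) .nil)))) (.nd (nat_lit 9) 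
(.lf (nat_lit 546168) (.g (nat_lit 1828) (.e (nat_lit 123185) (nat_lit 264) (.e (nat_lit 1183) (nat_lit 87) (.e (nat_lit 57479) (nat_lit 28) (.e (nat_lit 557106) (nat_lit 15) .nil)))) (.g (nat_lit 0) (.e (nat_lit 281260) (nat_lit 0) .nil) .nil))) 
(.lf (nat_lit 546680) (.g (nat_lit 3175) (.e (nat_lit 270373) (nat_lit 16) (.e (nat_lit 286735) (nat_lit 3) (.e (nat_lit 98373) (nat_lit 29) (.e (nat_lit 450560) (nat_lit 0) .nil)))) (.g (nat_lit 0) (.e (nat_lit 283794) (nat_lit 0) .nil) .nil))))) (.nd (nat_lit 8) (.nd (nat_lit 9) 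
(.lf (nat_lit 546040) (.g (nat_lit 4060) (.e (nat_lit 122913) (nat_lit 13) (.e (nat_lit 344118) (nat_lit 21) (.e (nat_lit 516166) (nat_lit 12) (.e (nat_lit 450588) (nat_lit 10) (.e (nat_lit 573475) (nat_lit 12) .nil))))) (.g (nat_lit 0) (.e (nat_lit 280735) (nat_lit 0) .nil) .nil))) 
(.lf (nat_lit 546552) (.g (nat_lit 756) (.e (nat_lit 147495) (nat_lit 11) (.e (nat_lit 24608) (nat_lit 3) (.e (nat_lit 98356) (nat_lit 26) .nil))) (.g (nat_lit 0) (.e (nat_lit 283197) (nat_lit 0) .nil) .nil)))) (.nd (nat_lit 9) 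
(.lf (nat_lit 546296) (.g (nat_lit 3761) (.e (nat_lit 131105) (nat_lit 9) (.e (nat_lit 336324) (nat_lit 18) (.e (nat_lit 204837) (nat_lit 20) (.e (nat_lit 114698) (nat_lit 11) (.e (nat_lit 426124) (nat_lit 2) (.e (nat_lit 196681) (nat_lit 17) .nil)))))) (.g (nat_lit 1) (.e (nat_lit 281937) (nat_lit 0) .nil) .nil))) 
(.lf (nat_lit 546808) (.g (nat_lit 464) (.e (nat_lit 303104) (nat_lit 0) (.e (nat_lit 3238) (nat_lit 197) (.e (nat_lit 532550) (nat_lit 12) .nil))) (.g (nat_lit 0) (.e (nat_lit 284086) (nat_lit 0) .nil) .nil)))))))))) (.nd (nat_lit 3) (.nd (nat_lit 4) (.nd (nat_lit 5) (.nd (nat_lit 6) (.nd (nat_lit 7) (.nd (nat_lit 8) (.nd (nat_lit 9) 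
(.lf (nat_lit 545796) (.g (nat_lit 1969) (.e (nat_lit 114719) (nat_lit 23) (.e (nat_lit 98334) (nat_lit 18) (.e (nat_lit 164330) (nat_lit 230) (.e (nat_lit 163866) (nat_lit 2) .nil)))) (.g (nat_lit 0) (.e (nat_lit 280328) (nat_lit 0) .nil) .nil))) 
(.lf (nat_lit 546308) (.g (nat_lit 3376) (.e (nat_lit 131105) (nat_lit 9) (.e (nat_lit 336454) (nat_lit 34) (.e (nat_lit 483363) (nat_lit 18) (.e (nat_lit 57931) (nat_lit 282) (.e (nat_lit 163869) (nat_lit 2) (.e (nat_lit 196681) (nat_lit 17) .nil)))))) (.g (nat_lit 1) (.e (nat_lit 281970) (nat_lit 0) .nil) .nil)))) (.nd (nat_lit 9) 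
(.lf (nat_lit 546052) (.g (nat_lit 4594) (.e (nat_lit 122914) (nat_lit 14) (.e (nat_lit 352277) (nat_lit 11) (.e (nat_lit 426343) (nat_lit 14) (.e (nat_lit 491560) (nat_lit 10) (.e (nat_lit 344097) (nat_lit 18) (.e (nat_lit 7270) (nat_lit 385) .nil)))))) (.g (nat_lit 1) (.e (nat_lit 280750) (nat_lit 0) .nil) .nil))) 
(.lf (nat_lit 546564) (.g (nat_lit 1072) (.e (nat_lit 147495) (nat_lit 11) (.e (nat_lit 24639) (nat_lit 10) (.e (nat_lit 344177) (nat_lit 43) (.e (nat_lit 770072) (nat_lit 8) .nil)))) (.g (nat_lit 0) (.e (nat_lit 283210) (nat_lit 0) .nil) .nil))))) (.nd (nat_lit 8) (.nd (nat_lit 9) 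
(.lf (nat_lit 545924) (.g (nat_lit 4271) (.e (nat_lit 114719) (nat_lit 23) (.e (nat_lit 98367) (nat_lit 27) (.e (nat_lit 434231) (nat_lit 23) (.e (nat_lit 532500) (nat_lit 1) (.e (nat_lit 57692) (nat_lit 156) (.e (nat_lit 163874) (nat_lit 3) (.e (nat_lit 204836) (nat_lit 20) .nil))))))) (.g (nat_lit 1) (.e (nat_lit 280569) (nat_lit 0) .nil) .nil))) 
(.lf (nat_lit 546436) (.g (nat_lit 761) (.e (nat_lit 131126) (nat_lit 13) (.e (nat_lit 393225) (nat_lit 9) (.e (nat_lit 335995) (nat_lit 1) .nil))) (.g (nat_lit 0) (.e (nat_lit 282416) (nat_lit 0) .nil) .nil)))) (.nd (nat_lit 9) 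
(.lf (nat_lit 546180) (.g (nat_lit 3612) (.e (nat_lit 123195) (nat_lit 266) (.e (nat_lit 57400) (nat_lit 10) (.e (nat_lit 319490) (nat_lit 0) (.e (nat_lit 5664) (nat_lit 312) (.e (nat_lit 2852) (nat_lit 184) (.e (nat_lit 426542) (nat_lit 29) (.e (nat_lit 352318) (nat_lit 24) .nil))))))) (.g (nat_lit 1) (.e (nat_lit 281289) (nat_lit 0) .nil) .nil))) 
(.lf (nat_lit 546692) (.g (nat_lit 1550) (.e (nat_lit 270373) (nat_lit 16) (.e (nat_lit 286760) (nat_lit 13) (.e (nat_lit 393293) (nat_lit 26) (.e (nat_lit 475201) (nat_lit 40) (.e (nat_lit 704780) (nat_lit 14) .nil))))) (.g (nat_lit 0) (.e (nat_lit 283811) (nat_lit 0) .nil) .nil)))))) (.nd (nat_lit 7) (.nd (nat_lit 8) (.nd (nat_lit 9) 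
(.lf (nat_lit 545860) (.g (nat_lit 2342) (.e (nat_lit 114719) (nat_lit 23) (.e (nat_lit 98366) (nat_lit 27) (.e (nat_lit 434231) (nat_lit 23) (.e (nat_lit 532483) (nat_lit 0) .nil)))) (.g (nat_lit 0) (.e (nat_lit 280438) (nat_lit 0) .nil) .nil))) 
(.lf (nat_lit 546372) (.g (nat_lit 941) (.e (nat_lit 131110) (nat_lit 9) (.e (nat_lit 336028) (nat_lit 3) (.e (nat_lit 98350) (nat_lit 24) .nil))) (.g (nat_lit 0) (.e (nat_lit 282202) (nat_lit 0) .nil) .nil)))) (.nd (nat_lit 9) 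
(.lf (nat_lit 546116) (.g (nat_lit 3391) (.e (nat_lit 123009) (nat_lit 116) (.e (nat_lit 778466) (nat_lit 11) (.e (nat_lit 24617) (nat_lit 7) (.e (nat_lit 319533) (nat_lit 16) (.e (nat_lit 286753) (nat_lit 10) .nil))))) (.g (nat_lit 0) (.e (nat_lit 280962) (nat_lit 0) .nil) .nil))) 
(.lf (nat_lit 546628) (.g (nat_lit 1252) (.e (nat_lit 163584) (nat_lit 4) (.e (nat_lit 172119) (nat_lit 12) (.e (nat_lit 475199) (nat_lit 40) (.e (nat_lit 704598) (nat_lit 6) (.e (nat_lit 196352) (nat_lit 8) .nil))))) (.g (nat_lit 0) (.e (nat_lit 283517) (nat_lit 0) .nil) .nil))))) (.nd (nat_lit 8) (.nd (nat_lit 9) 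
(.lf (nat_lit 545988) (.g (nat_lit 2468) (.e (nat_lit 114719) (nat_lit 23) (.e (nat_lit 98387) (nat_lit 33) (.e (nat_lit 491571) (nat_lit 13) (.e (nat_lit 393238) (nat_lit 17) (.e (nat_lit 3562) (nat_lit 221) (.e (nat_lit 729117) (nat_lit 25) .nil)))))) (.g (nat_lit 1) (.e (nat_lit 280644) (nat_lit 0) .nil) .nil))) 
(.lf (nat_lit 546500) (.g (nat_lit 735) (.e (nat_lit 139280) (nat_lit 4) (.e (nat_lit 65616) (nat_lit 10) (.e (nat_lit 344183) (nat_lit 49) (.e (nat_lit 819221) (nat_lit 6) (.e (nat_lit 196352) (nat_lit 7) .nil))))) (.g (nat_lit 1) (.e (nat_lit 282946) (nat_lit 0) .nil) .nil)))) (.nd (nat_lit 9) 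
(.lf (nat_lit 546244) (.g (nat_lit 3034) (.e (nat_lit 131096) (nat_lit 3) (.e (nat_lit 98333) (nat_lit 18) (.e (nat_lit 164182) (nat_lit 154) (.e (nat_lit 57378) (nat_lit 3) (.e (nat_lit 98341) (nat_lit 20) (.e (nat_lit 221212) (nat_lit 22) (.e (nat_lit 196681) (nat_lit 17) .nil))))))) (.g (nat_lit 1) (.e (nat_lit 281765) (nat_lit 0) .nil) .nil))) 
(.lf (nat_lit 546756) (.g (nat_lit 2206) (.e (nat_lit 278567) (nat_lit 16) (.e (nat_lit 286733) (nat_lit 2) (.e (nat_lit 90178) (nat_lit 15) (.e (nat_lit 188441) (nat_lit 20) .nil)))) (.g (nat_lit 0) (.e (nat_lit 283949) (nat_lit 0) .nil) .nil))))))) (.nd (nat_lit 6) (.nd (nat_lit 7) (.nd (nat_lit 8) (.nd (nat_lit 9) 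
(.lf (nat_lit 545828) (.g (nat_lit 4844) (.e (nat_lit 114719) (nat_lit 23) (.e (nat_lit 98354) (nat_lit 26) (.e (nat_lit 426436) (nat_lit 18) (.e (nat_lit 98335) (nat_lit 18) (.e (nat_lit 164327) (nat_lit 230) (.e (nat_lit 163875) (nat_lit 3) (.e (nat_lit 204838) (nat_lit 20) .nil))))))) (.g (nat_lit 1) (.e (nat_lit 280382) (nat_lit 0) .nil) .nil))) 
(.lf (nat_lit 546340) (.g (nat_lit 4085) (.e (nat_lit 131109) (nat_lit 9) (.e (nat_lit 336019) (nat_lit 3) (.e (nat_lit 98349) (nat_lit 24) (.e (nat_lit 409646) (nat_lit 18) (.e (nat_lit 303117) (nat_lit 2) (.e (nat_lit 196681) (nat_lit 17) .nil)))))) (.g (nat_lit 1) (.e (nat_lit 282078) (nat_lit 0) .nil) .nil)))) (.nd (nat_lit 9) 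
(.lf (nat_lit 546084) (.g (nat_lit 3009) (.e (nat_lit 122936) (nat_lit 23) (.e (nat_lit 516131) (nat_lit 3) (.e (nat_lit 221219) (nat_lit 24) (.e (nat_lit 213013) (nat_lit 9) (.e (nat_lit 2610) (nat_lit 163) (.e (nat_lit 164347) (nat_lit 240) (.e (nat_lit 2640) (nat_lit 165) (.e (nat_lit 188160) (nat_lit 38) .nil)))))))) (.g (nat_lit 1) (.e (nat_lit 280810) (nat_lit 0) .nil) .nil))) 
(.lf (nat_lit 546596) (.g (nat_lit 2972) (.e (nat_lit 147496) (nat_lit 11) (.e (nat_lit 24608) (nat_lit 3) (.e (nat_lit 98373) (nat_lit 29) (.e (nat_lit 450587) (nat_lit 10) (.e (nat_lit 573456) (nat_lit 9) .nil))))) (.g (nat_lit 0) (.e (nat_lit 283255) (nat_lit 0) .nil) .nil))))) (.nd (nat_lit 8) (.nd (nat_lit 9) 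
(.lf (nat_lit 545956) (.g (nat_lit 3244) (.e (nat_lit 114719) (nat_lit 23) (.e (nat_lit 98384) (nat_lit 32) (.e (nat_lit 475179) (nat_lit 24) (.e (nat_lit 516115) (nat_lit 1) (.e (nat_lit 164327) (nat_lit 230) (.e (nat_lit 163873) (nat_lit 3) (.e (nat_lit 204838) (nat_lit 20) .nil))))))) (.g (nat_lit 1) (.e (nat_lit 280608) (nat_lit 0) .nil) .nil))) 
(.lf (nat_lit 546468) (.g (nat_lit 3480) (.e (nat_lit 131133) (nat_lit 15) (.e (nat_lit 3305) (nat_lit 202) (.e (nat_lit 573485) (nat_lit 13) (.e (nat_lit 65619) (nat_lit 10) (.e (nat_lit 344117) (nat_lit 21) (.e (nat_lit 516106) (nat_lit 0) (.e (nat_lit 7936) (nat_lit 409) .nil))))))) (.g (nat_lit 1) (.e (nat_lit 282529) (nat_lit 0) .nil) .nil)))) (.nd (nat_lit 9) 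
(.lf (nat_lit 546212) (.g (nat_lit 2320) (.e (nat_lit 123198) (nat_lit 266) (.e (nat_lit 57436) (nat_lit 17) (.e (nat_lit 376835) (nat_lit 0) (.e (nat_lit 3632) (nat_lit 227) (.e (nat_lit 778327) (nat_lit 6) (.e (nat_lit 81957) (nat_lit 24) .nil)))))) (.g (nat_lit 1) (.e (nat_lit 281336) (nat_lit 0) .nil) .nil))) 
(.lf (nat_lit 546724) (.g (nat_lit 455) (.e (nat_lit 278565) (nat_lit 16) (.e (nat_lit 286756) (nat_lit 10) (.e (nat_lit 344154) (nat_lit 35) .nil))) (.g (nat_lit 0) (.e (nat_lit 283910) (nat_lit 0) .nil) .nil)))))) (.nd (nat_lit 7) (.nd (nat_lit 8) (.nd (nat_lit 9) 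
(.lf (nat_lit 545892) (.g (nat_lit 2899) (.e (nat_lit 114719) (nat_lit 23) (.e (nat_lit 98366) (nat_lit 27) (.e (nat_lit 434231) (nat_lit 23) (.e (nat_lit 532504) (nat_lit 1) (.e (nat_lit 57692) (nat_lit 156) .nil))))) (.g (nat_lit 0) (.e (nat_lit 280499) (nat_lit 0) .nil) .nil))) 
(.lf (nat_lit 546404) (.g (nat_lit 632) (.e (nat_lit 131121) (nat_lit 12) (.e (nat_lit 385093) (nat_lit 49) (.e (nat_lit 778326) (nat_lit 6) .nil))) (.g (nat_lit 0) (.e (nat_lit 282297) (nat_lit 0) .nil) .nil)))) (.nd (nat_lit 9) 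
(.lf (nat_lit 546148) (.g (nat_lit 3070) (.e (nat_lit 123175) (nat_lit 258) (.e (nat_lit 24665) (nat_lit 14) (.e (nat_lit 401448) (nat_lit 10) (.e (nat_lit 434289) (nat_lit 43) .nil)))) (.g (nat_lit 0) (.e (nat_lit 281234) (nat_lit 0) .nil) .nil))) 
(.lf (nat_lit 546660) (.g (nat_lit 1337) (.e (nat_lit 270368) (nat_lit 13) (.e (nat_lit 49188) (nat_lit 11) (.e (nat_lit 16466) (nat_lit 13) (.e (nat_lit 483371) (nat_lit 21) .nil)))) (.g (nat_lit 0) (.e (nat_lit 283769) (nat_lit 0) .nil) .nil))))) (.nd (nat_lit 8) (.nd (nat_lit 9) 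
(.lf (nat_lit 546020) (.g (nat_lit 2250) (.e (nat_lit 122904) (nat_lit 12) (.e (nat_lit 336456) (nat_lit 34) (.e (nat_lit 483383) (nat_lit 23) (.e (nat_lit 336019) (nat_lit 3) (.e (nat_lit 98334) (nat_lit 18) (.e (nat_lit 164184) (nat_lit 155) .nil)))))) (.g (nat_lit 1) (.e (nat_lit 280708) (nat_lit 0) .nil) .nil))) 
(.lf (nat_lit 546532) (.g (nat_lit 1972) (.e (nat_lit 147494) (nat_lit 11) (.e (nat_lit 24657) (nat_lit 13) (.e (nat_lit 393232) (nat_lit 17) (.e (nat_lit 7587) (nat_lit 406) (.e (nat_lit 65580) (nat_lit 6) .nil))))) (.g (nat_lit 1) (.e (nat_lit 283169) (nat_lit 0) .nil) .nil)))) (.nd (nat_lit 9) 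
(.lf (nat_lit 546276) (.g (nat_lit 2634) (.e (nat_lit 131098) (nat_lit 3) (.e (nat_lit 98335) (nat_lit 18) (.e (nat_lit 164183) (nat_lit 154) (.e (nat_lit 57378) (nat_lit 3) (.e (nat_lit 98340) (nat_lit 20) .nil))))) (.g (nat_lit 0) (.e (nat_lit 281876) (nat_lit 0) .nil) .nil))) 
(.lf (nat_lit 546788) (.g (nat_lit 689) (.e (nat_lit 278547) (nat_lit 8) (.e (nat_lit 303138) (nat_lit 10) (.e (nat_lit 434266) (nat_lit 35) (.e (nat_lit 630821) (nat_lit 16) (.e (nat_lit 65585) (nat_lit 7) (.e (nat_lit 319527) (nat_lit 15) .nil)))))) (.g (nat_lit 1) (.e (nat_lit 284041) (nat_lit 0) .nil) .nil)))))))) 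
(.nd (nat_lit 5) (.nd (nat_lit 6) (.nd (nat_lit 7) (.nd (nat_lit 8) (.nd (nat_lit 9) 
(.lf (nat_lit 545812) (.g (nat_lit 4373) (.e (nat_lit 114719) (nat_lit 23) (.e (nat_lit 98335) (nat_lit 18) (.e (nat_lit 164332) (nat_lit 230) (.e (nat_lit 163869) (nat_lit 2) (.e (nat_lit 196656) (nat_lit 11) .nil))))) (.g (nat_lit 0) (.e (nat_lit 280360) (nat_lit 0) .nil) .nil))) 
(.lf (nat_lit 546324) (.g (nat_lit 1493) (.e (nat_lit 131107) (nat_lit 9) (.e (nat_lit 336324) (nat_lit 18) (.e (nat_lit 204838) (nat_lit 20) (.e (nat_lit 114697) (nat_lit 11) .nil)))) (.g (nat_lit 0) (.e (nat_lit 282012) (nat_lit 0) .nil) .nil)))) (.nd (nat_lit 9) 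
(.lf (nat_lit 546068) (.g (nat_lit 2087) (.e (nat_lit 122936) (nat_lit 23) (.e (nat_lit 516115) (nat_lit 1) (.e (nat_lit 164325) (nat_lit 230) (.e (nat_lit 163928) (nat_lit 16) .nil)))) (.g (nat_lit 0) (.e (nat_lit 280787) (nat_lit 0) .nil) .nil))) 
(.lf (nat_lit 546580) (.g (nat_lit 2024) (.e (nat_lit 147496) (nat_lit 11) (.e (nat_lit 24601) (nat_lit 2) (.e (nat_lit 90170) (nat_lit 13) (.e (nat_lit 172106) (nat_lit 10) (.e (nat_lit 434244) (nat_lit 28) (.e (nat_lit 573450) (nat_lit 9) (.e (nat_lit 1309) (nat_lit 98) .nil))))))) (.g (nat_lit 1) (.e (nat_lit 283237) (nat_lit 0) .nil) .nil))))) (.nd (nat_lit 8) (.nd (nat_lit 9) 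
(.lf (nat_lit 545940) (.g (nat_lit 2864) (.e (nat_lit 114719) (nat_lit 23) (.e (nat_lit 98367) (nat_lit 27) (.e (nat_lit 434234) (nat_lit 23) (.e (nat_lit 532499) (nat_lit 1) (.e (nat_lit 57692) (nat_lit 156) (.e (nat_lit 163874) (nat_lit 3) (.e (nat_lit 204838) (nat_lit 20) .nil))))))) (.g (nat_lit 1) (.e (nat_lit 280586) (nat_lit 0) .nil) .nil))) 
(.lf (nat_lit 546452) (.g (nat_lit 2875) (.e (nat_lit 131128) (nat_lit 13) (.e (nat_lit 393229) (nat_lit 9) (.e (nat_lit 335994) (nat_lit 1) (.e (nat_lit 57931) (nat_lit 282) (.e (nat_lit 163869) (nat_lit 2) (.e (nat_lit 196681) (nat_lit 17) .nil)))))) (.g (nat_lit 1) (.e (nat_lit 282466) (nat_lit 0) .nil) .nil)))) (.nd (nat_lit 9) 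
(.lf (nat_lit 546196) (.g (nat_lit 3196) (.e (nat_lit 123197) (nat_lit 266) (.e (nat_lit 57423) (nat_lit 14) (.e (nat_lit 352262) (nat_lit 0) (.e (nat_lit 3748) (nat_lit 228) (.e (nat_lit 786480) (nat_lit 29) (.e (nat_lit 352318) (nat_lit 24) .nil)))))) (.g (nat_lit 1) (.e (nat_lit 281317) (nat_lit 0) .nil) .nil))) 
(.lf (nat_lit 546708) (.g (nat_lit 2671) (.e (nat_lit 270354) (nat_lit 8) (.e (nat_lit 303117) (nat_lit 2) (.e (nat_lit 196666) (nat_lit 13) (.e (nat_lit 65617) (nat_lit 10) .nil)))) (.g (nat_lit 0) (.e (nat_lit 283846) (nat_lit 0) .nil) .nil)))))) (.nd (nat_lit 7) (.nd (nat_lit 8) (.nd (nat_lit 9) 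
(.lf (nat_lit 545876) (.g (nat_lit 2627) (.e (nat_lit 114719) (nat_lit 23) (.e (nat_lit 98366) (nat_lit 27) (.e (nat_lit 434231) (nat_lit 23) (.e (nat_lit 532500) (nat_lit 1) (.e (nat_lit 57689) (nat_lit 156) .nil))))) (.g (nat_lit 0) (.e (nat_lit 280480) (nat_lit 0) .nil) .nil))) 
(.lf (nat_lit 546388) (.g (nat_lit 1969) (.e (nat_lit 131120) (nat_lit 12) (.e (nat_lit 385068) (nat_lit 26) (.e (nat_lit 532490) (nat_lit 0) (.e (nat_lit 2088) (nat_lit 142) .nil)))) (.g (nat_lit 0) (.e (nat_lit 282249) (nat_lit 0) .nil) .nil)))) (.nd (nat_lit 9) 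
(.lf (nat_lit 546132) (.g (nat_lit 1519) (.e (nat_lit 130816) (nat_lit 241) (.e (nat_lit 57374) (nat_lit 2) (.e (nat_lit 90170) (nat_lit 13) (.e (nat_lit 172106) (nat_lit 10) .nil)))) (.g (nat_lit 0) (.e (nat_lit 281137) (nat_lit 0) .nil) .nil))) 
(.lf (nat_lit 546644) (.g (nat_lit 931) (.e (nat_lit 163584) (nat_lit 6) (.e (nat_lit 188431) (nat_lit 20) (.e (nat_lit 3397) (nat_lit 211) (.e (nat_lit 647185) (nat_lit 6) (.e (nat_lit 196352) (nat_lit 8) .nil))))) (.g (nat_lit 0) (.e (nat_lit 283676) (nat_lit 0) .nil) .nil))))) (.nd (nat_lit 8) (.nd (nat_lit 9) 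
(.lf (nat_lit 546004) (.g (nat_lit 1908) (.e (nat_lit 130816) (nat_lit 2) (.e (nat_lit 90170) (nat_lit 13) (.e (nat_lit 172106) (nat_lit 10) (.e (nat_lit 434231) (nat_lit 23) .nil)))) (.g (nat_lit 0) (.e (nat_lit 280690) (nat_lit 0) .nil) .nil))) 
(.lf (nat_lit 546516) (.g (nat_lit 3019) (.e (nat_lit 139289) (nat_lit 9) (.e (nat_lit 2829) (nat_lit 182) (.e (nat_lit 409645) (nat_lit 18) (.e (nat_lit 303117) (nat_lit 2) (.e (nat_lit 196673) (nat_lit 15) (.e (nat_lit 81962) (nat_lit 25) .nil)))))) (.g (nat_lit 1) (.e (nat_lit 283038) (nat_lit 0) .nil) .nil)))) (.nd (nat_lit 9) 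
(.lf (nat_lit 546260) (.g (nat_lit 2691) (.e (nat_lit 131096) (nat_lit 3) (.e (nat_lit 98335) (nat_lit 18) (.e (nat_lit 164183) (nat_lit 154) (.e (nat_lit 57379) (nat_lit 3) (.e (nat_lit 98340) (nat_lit 20) .nil))))) (.g (nat_lit 0) (.e (nat_lit 281805) (nat_lit 0) .nil) .nil))) 
(.lf (nat_lit 546772) (.g (nat_lit 1299) (.e (nat_lit 278567) (nat_lit 16) (.e (nat_lit 286754) (nat_lit 10) (.e (nat_lit 344157) (nat_lit 36) (.e (nat_lit 638999) (nat_lit 8) (.e (nat_lit 172082) (nat_lit 7) (.e (nat_lit 409639) (nat_lit 15) .nil)))))) (.g (nat_lit 1) (.e (nat_lit 283983) (nat_lit 0) .nil) .nil))))))) (.nd (nat_lit 6) (.nd (nat_lit 7) (.nd (nat_lit 8) (.nd (nat_lit 9) 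
(.lf (nat_lit 545844) (.g (nat_lit 4352) (.e (nat_lit 114719) (nat_lit 23) (.e (nat_lit 98357) (nat_lit 26) (.e (nat_lit 426436) (nat_lit 18) (.e (nat_lit 98335) (nat_lit 18) (.e (nat_lit 164305) (nat_lit 226) (.e (nat_lit 2612) (nat_lit 163) (.e (nat_lit 163964) (nat_lit 25) (.e (nat_lit 532513) (nat_lit 3) .nil)))))))) (.g (nat_lit 1) (.e (nat_lit 280400) (nat_lit 0) .nil) .nil))) 
(.lf (nat_lit 546356) (.g (nat_lit 1982) (.e (nat_lit 131109) (nat_lit 9) (.e (nat_lit 336240) (nat_lit 15) (.e (nat_lit 3309) (nat_lit 202) (.e (nat_lit 573481) (nat_lit 13) (.e (nat_lit 65630) (nat_lit 14) .nil))))) (.g (nat_lit 0) (.e (nat_lit 282125) (nat_lit 0) .nil) .nil)))) (.nd (nat_lit 9) 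
(.lf (nat_lit 546100) (.g (nat_lit 2756) (.e (nat_lit 122942) (nat_lit 28) (.e (nat_lit 557098) (nat_lit 13) (.e (nat_lit 172115) (nat_lit 10) (.e (nat_lit 434231) (nat_lit 23) (.e (nat_lit 532535) (nat_lit 9) .nil))))) (.g (nat_lit 0) (.e (nat_lit 280840) (nat_lit 0) .nil) .nil))) 
(.lf (nat_lit 546612) (.g (nat_lit 129) (.e (nat_lit 155651) (nat_lit 0) (.e (nat_lit 2984) (nat_lit 186) (.e (nat_lit 450304) (nat_lit 4) .nil))) (.g (nat_lit 0) (.e (nat_lit 283359) (nat_lit 0) .nil) .nil))))) (.nd (nat_lit 8) (.nd (nat_lit 9) 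
(.lf (nat_lit 545972) (.g (nat_lit 3749) (.e (nat_lit 114719) (nat_lit 23) (.e (nat_lit 98384) (nat_lit 32) (.e (nat_lit 475179) (nat_lit 24) (.e (nat_lit 516120) (nat_lit 1) (.e (nat_lit 164330) (nat_lit 230) (.e (nat_lit 163872) (nat_lit 3) (.e (nat_lit 204837) (nat_lit 20) .nil))))))) (.g (nat_lit 1) (.e (nat_lit 280628) (nat_lit 0) .nil) .nil))) 
(.lf (nat_lit 546484) (.g (nat_lit 1828) (.e (nat_lit 131140) (nat_lit 27) (.e (nat_lit 426308) (nat_lit 12) (.e (nat_lit 475210) (nat_lit 41) (.e (nat_lit 712747) (nat_lit 28) (.e (nat_lit 442112) (nat_lit 7) .nil))))) (.g (nat_lit 1) (.e (nat_lit 282698) (nat_lit 0) .nil) .nil)))) (.nd (nat_lit 9) 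
(.lf (nat_lit 546228) (.g (nat_lit 1472) (.e (nat_lit 131089) (nat_lit 1) (.e (nat_lit 57854) (nat_lit 252) (.e (nat_lit 57378) (nat_lit 3) (.e (nat_lit 98333) (nat_lit 18) .nil)))) (.g (nat_lit 0) (.e (nat_lit 281631) (nat_lit 0) .nil) .nil))) 
(.lf (nat_lit 546740) (.g (nat_lit 1869) (.e (nat_lit 278566) (nat_lit 16) (.e (nat_lit 286754) (nat_lit 10) (.e (nat_lit 344156) (nat_lit 36) (.e (nat_lit 638998) (nat_lit 8) (.e (nat_lit 172079) (nat_lit 7) (.e (nat_lit 409639) (nat_lit 15) .nil)))))) (.g (nat_lit 1) (.e (nat_lit 283932) (nat_lit 0) .nil) .nil)))))) (.nd (nat_lit 7) (.nd (nat_lit 8) (.nd (nat_lit 9) 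
(.lf (nat_lit 545908) (.g (nat_lit 3493) (.e (nat_lit 114719) (nat_lit 23) (.e (nat_lit 98367) (nat_lit 27) (.e (nat_lit 434231) (nat_lit 23) (.e (nat_lit 532499) (nat_lit 1) (.e (nat_lit 57691) (nat_lit 156) (.e (nat_lit 163875) (nat_lit 3) (.e (nat_lit 204836) (nat_lit 20) .nil))))))) (.g (nat_lit 1) (.e (nat_lit 280538) (nat_lit 0) .nil) .nil))) 
(.lf (nat_lit 546420) (.g (nat_lit 2323) (.e (nat_lit 131123) (nat_lit 12) (.e (nat_lit 385068) (nat_lit 26) (.e (nat_lit 532515) (nat_lit 3) (.e (nat_lit 114697) (nat_lit 11) (.e (nat_lit 426121) (nat_lit 2) (.e (nat_lit 196681) (nat_lit 17) .nil)))))) (.g (nat_lit 1) (.e (nat_lit 282350) (nat_lit 0) .nil) .nil)))) (.nd (nat_lit 9) 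
(.lf (nat_lit 546164) (.g (nat_lit 2082) (.e (nat_lit 123184) (nat_lit 264) (.e (nat_lit 1183) (nat_lit 87) (.e (nat_lit 57479) (nat_lit 28) (.e (nat_lit 557100) (nat_lit 13) (.e (nat_lit 172106) (nat_lit 10) .nil))))) (.g (nat_lit 0) (.e (nat_lit 281254) (nat_lit 0) .nil) .nil))) 
(.lf (nat_lit 546676) (.g (nat_lit 1943) (.e (nat_lit 270373) (nat_lit 16) (.e (nat_lit 286735) (nat_lit 3) (.e (nat_lit 98372) (nat_lit 29) (.e (nat_lit 450571) (nat_lit 1) (.e (nat_lit 499741) (nat_lit 0) .nil))))) (.g (nat_lit 0) (.e (nat_lit 283790) (nat_lit 0) .nil) .nil))))) (.nd (nat_lit 8) (.nd (nat_lit 9) 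
(.lf (nat_lit 546036) (.g (nat_lit 1973) (.e (nat_lit 122913) (nat_lit 13) (.e (nat_lit 344118) (nat_lit 21) (.e (nat_lit 516165) (nat_lit 12) (.e (nat_lit 450586) (nat_lit 10) (.e (nat_lit 573473) (nat_lit 12) .nil))))) (.g (nat_lit 0) (.e (nat_lit 280731) (nat_lit 0) .nil) .nil))) 
(.lf (nat_lit 546548) (.g (nat_lit 2662) (.e (nat_lit 147495) (nat_lit 11) (.e (nat_lit 24604) (nat_lit 2) (.e (nat_lit 90170) (nat_lit 13) (.e (nat_lit 172106) (nat_lit 10) (.e (nat_lit 434244) (nat_lit 28) (.e (nat_lit 573458) (nat_lit 9) (.e (nat_lit 1313) (nat_lit 98) .nil))))))) (.g (nat_lit 1) (.e (nat_lit 283192) (nat_lit 0) .nil) .nil)))) (.nd (nat_lit 9) 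
(.lf (nat_lit 546292) (.g (nat_lit 2527) (.e (nat_lit 131105) (nat_lit 9) (.e (nat_lit 336324) (nat_lit 18) (.e (nat_lit 204837) (nat_lit 20) (.e (nat_lit 114697) (nat_lit 11) (.e (nat_lit 426122) (nat_lit 2) (.e (nat_lit 196681) (nat_lit 17) .nil)))))) (.g (nat_lit 1) (.e (nat_lit 281933) (nat_lit 0) .nil) .nil))) 
(.lf (nat_lit 546804) (.g (nat_lit 2524) (.e (nat_lit 303104) (nat_lit 0) (.e (nat_lit 3238) (nat_lit 197) (.e (nat_lit 532535) (nat_lit 9) (.e (nat_lit 336177) (nat_lit 10) .nil)))) (.g (nat_lit 0) (.e (nat_lit 284080) (nat_lit 0) .nil) .nil))))))))) (.nd (nat_lit 4) (.nd (nat_lit 5) (.nd (nat_lit 6) (.nd (nat_lit 7) (.nd (nat_lit 8) (.nd (nat_lit 9) 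
(.lf (nat_lit 545804) (.g (nat_lit 537) (.e (nat_lit 114719) (nat_lit 23) (.e (nat_lit 98334) (nat_lit 18) (.e (nat_lit 164399) (nat_lit 256) .nil))) (.g (nat_lit 0) (.e (nat_lit 280347) (nat_lit 0) .nil) .nil))) 
(.lf (nat_lit 546316) (.g (nat_lit 2429) (.e (nat_lit 131105) (nat_lit 9) (.e (nat_lit 336454) (nat_lit 34) (.e (nat_lit 483366) (nat_lit 18) (.e (nat_lit 57929) (nat_lit 282) (.e (nat_lit 163869) (nat_lit 2) (.e (nat_lit 196681) (nat_lit 17) .nil)))))) (.g (nat_lit 1) (.e (nat_lit 281991) (nat_lit 0) .nil) .nil)))) (.nd (nat_lit 9) 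
(.lf (nat_lit 546060) (.g (nat_lit 2582) (.e (nat_lit 122934) (nat_lit 23) (.e (nat_lit 516119) (nat_lit 1) (.e (nat_lit 164403) (nat_lit 256) (.e (nat_lit 57373) (nat_lit 2) (.e (nat_lit 90174) (nat_lit 14) .nil))))) (.g (nat_lit 0) (.e (nat_lit 280775) (nat_lit 0) .nil) .nil))) 
(.lf (nat_lit 546572) (.g (nat_lit 3438) (.e (nat_lit 147495) (nat_lit 11) (.e (nat_lit 24662) (nat_lit 14) (.e (nat_lit 401454) (nat_lit 12) (.e (nat_lit 475212) (nat_lit 42) .nil)))) (.g (nat_lit 0) (.e (nat_lit 283227) (nat_lit 0) .nil) .nil))))) (.nd (nat_lit 8) (.nd (nat_lit 9) 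
(.lf (nat_lit 545932) (.g (nat_lit 3391) (.e (nat_lit 114719) (nat_lit 23) (.e (nat_lit 98367) (nat_lit 27) (.e (nat_lit 434232) (nat_lit 23) (.e (nat_lit 532503) (nat_lit 1) (.e (nat_lit 57688) (nat_lit 156) (.e (nat_lit 163874) (nat_lit 3) (.e (nat_lit 204836) (nat_lit 20) .nil))))))) (.g (nat_lit 1) (.e (nat_lit 280578) (nat_lit 0) .nil) .nil))) 
(.lf (nat_lit 546444) (.g (nat_lit 508) (.e (nat_lit 131127) (nat_lit 13) (.e (nat_lit 393253) (nat_lit 18) (.e (nat_lit 164179) (nat_lit 154) .nil))) (.g (nat_lit 0) (.e (nat_lit 282432) (nat_lit 0) .nil) .nil)))) (.nd (nat_lit 9) 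
(.lf (nat_lit 546188) (.g (nat_lit 2034) (.e (nat_lit 123195) (nat_lit 266) (.e (nat_lit 57400) (nat_lit 10) (.e (nat_lit 319490) (nat_lit 0) (.e (nat_lit 5664) (nat_lit 312) (.e (nat_lit 3085) (nat_lit 191) (.e (nat_lit 483387) (nat_lit 23) (.e (nat_lit 336034) (nat_lit 4) .nil))))))) (.g (nat_lit 1) (.e (nat_lit 281297) (nat_lit 0) .nil) .nil))) 
(.lf (nat_lit 546700) (.g (nat_lit 1439) (.e (nat_lit 270373) (nat_lit 16) (.e (nat_lit 286761) (nat_lit 13) (.e (nat_lit 393293) (nat_lit 26) (.e (nat_lit 475219) (nat_lit 44) .nil)))) (.g (nat_lit 0) (.e (nat_lit 283822) (nat_lit 0) .nil) .nil)))))) (.nd (nat_lit 7) (.nd (nat_lit 8) (.nd (nat_lit 9) 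
(.lf (nat_lit 545868) (.g (nat_lit 4630) (.e (nat_lit 114719) (nat_lit 23) (.e (nat_lit 98366) (nat_lit 27) (.e (nat_lit 434231) (nat_lit 23) (.e (nat_lit 532499) (nat_lit 1) (.e (nat_lit 57688) (nat_lit 156) (.e (nat_lit 163874) (nat_lit 3) (.e (nat_lit 204836) (nat_lit 20) .nil))))))) (.g (nat_lit 1) (.e (nat_lit 280461) (nat_lit 0) .nil) .nil))) 
(.lf (nat_lit 546380) (.g (nat_lit 1248) (.e (nat_lit 131119) (nat_lit 12) (.e (nat_lit 385068) (nat_lit 26) (.e (nat_lit 532510) (nat_lit 2) .nil))) (.g (nat_lit 0) (.e (nat_lit 282229) (nat_lit 0) .nil) .nil)))) (.nd (nat_lit 9) 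
(.lf (nat_lit 546124) (.g (nat_lit 3919) (.e (nat_lit 123025) (nat_lit 127) (.e (nat_lit 229415) (nat_lit 15) (.e (nat_lit 450563) (nat_lit 0) (.e (nat_lit 6830) (nat_lit 367) (.e (nat_lit 57424) (nat_lit 14) (.e (nat_lit 352318) (nat_lit 24) .nil)))))) (.g (nat_lit 1) (.e (nat_lit 280979) (nat_lit 0) .nil) .nil))) 
(.lf (nat_lit 546636) (.g (nat_lit 178) (.e (nat_lit 163584) (nat_lit 6) (.e (nat_lit 188417) (nat_lit 0) (.e (nat_lit 2148) (nat_lit 142) (.e (nat_lit 704597) (nat_lit 6) (.e (nat_lit 196352) (nat_lit 8) .nil))))) (.g (nat_lit 0) (.e (nat_lit 283664) (nat_lit 0) .nil) .nil))))) (.nd (nat_lit 8) (.nd (nat_lit 9) 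
(.lf (nat_lit 545996) (.g (nat_lit 1144) (.e (nat_lit 114722) (nat_lit 24) (.e (nat_lit 106536) (nat_lit 11) (.e (nat_lit 16456) (nat_lit 12) .nil))) (.g (nat_lit 0) (.e (nat_lit 280661) (nat_lit 0) .nil) .nil))) 
(.lf (nat_lit 546508) (.g (nat_lit 327) (.e (nat_lit 139285) (nat_lit 9) (.e (nat_lit 2830) (nat_lit 182) (.e (nat_lit 409648) (nat_lit 18) .nil))) (.g (nat_lit 0) (.e (nat_lit 283002) (nat_lit 0) .nil) .nil)))) (.nd (nat_lit 9) 
(.lf (nat_lit 546252) (.g (nat_lit 1902) (.e (nat_lit 131096) (nat_lit 3) (.e (nat_lit 98335) (nat_lit 18) (.e (nat_lit 164179) (nat_lit 154) (.e (nat_lit 57379) (nat_lit 3) .nil)))) (.g (nat_lit 0) (.e (nat_lit 281793) (nat_lit 0) .nil) .nil))) 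
(.lf (nat_lit 546764) (.g (nat_lit 2517) (.e (nat_lit 278567) (nat_lit 16) (.e (nat_lit 286735) (nat_lit 3) (.e (nat_lit 98373) (nat_lit 29) (.e (nat_lit 450562) (nat_lit 0) .nil)))) (.g (nat_lit 0) (.e (nat_lit 283957) (nat_lit 0) .nil) .nil))))))) (.nd (nat_lit 6) (.nd (nat_lit 7) (.nd (nat_lit 8) (.nd (nat_lit 9) 
(.lf (nat_lit 545836) (.g (nat_lit 3393) (.e (nat_lit 114719) (nat_lit 23) (.e (nat_lit 98356) (nat_lit 26) (.e (nat_lit 426438) (nat_lit 18) (.e (nat_lit 98333) (nat_lit 18) (.e (nat_lit 164327) (nat_lit 230) (.e (nat_lit 163875) (nat_lit 3) (.e (nat_lit 204836) (nat_lit 20) .nil))))))) (.g (nat_lit 1) (.e (nat_lit 280391) (nat_lit 0) .nil) .nil))) 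
(.lf (nat_lit 546348) (.g (nat_lit 2402) (.e (nat_lit 131109) (nat_lit 9) (.e (nat_lit 336019) (nat_lit 3) (.e (nat_lit 98350) (nat_lit 24) (.e (nat_lit 409648) (nat_lit 18) (.e (nat_lit 303108) (nat_lit 0) (.e (nat_lit 3146) (nat_lit 193) (.e (nat_lit 500089) (nat_lit 22) .nil))))))) (.g (nat_lit 1) (.e (nat_lit 282099) (nat_lit 0) .nil) .nil)))) (.nd (nat_lit 9) 
(.lf (nat_lit 546092) (.g (nat_lit 4934) (.e (nat_lit 122936) (nat_lit 23) (.e (nat_lit 516166) (nat_lit 12) (.e (nat_lit 450588) (nat_lit 10) (.e (nat_lit 573470) (nat_lit 11) .nil)))) (.g (nat_lit 0) (.e (nat_lit 280825) (nat_lit 0) .nil) .nil))) 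
(.lf (nat_lit 546604) (.g (nat_lit 267) (.e (nat_lit 155392) (nat_lit 14) (.e (nat_lit 2797) (nat_lit 180) (.e (nat_lit 303133) (nat_lit 9) .nil))) (.g (nat_lit 0) (.e (nat_lit 283302) (nat_lit 0) .nil) .nil))))) (.nd (nat_lit 8) (.nd (nat_lit 9) 
(.lf (nat_lit 545964) (.g (nat_lit 5222) (.e (nat_lit 114719) (nat_lit 23) (.e (nat_lit 98384) (nat_lit 32) (.e (nat_lit 475179) (nat_lit 24) (.e (nat_lit 516117) (nat_lit 1) (.e (nat_lit 164330) (nat_lit 230) (.e (nat_lit 163872) (nat_lit 3) (.e (nat_lit 204838) (nat_lit 20) .nil))))))) (.g (nat_lit 1) (.e (nat_lit 280618) (nat_lit 0) .nil) .nil))) 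
(.lf (nat_lit 546476) (.g (nat_lit 772) (.e (nat_lit 131140) (nat_lit 27) (.e (nat_lit 426188) (nat_lit 9) (.e (nat_lit 426397) (nat_lit 15) (.e (nat_lit 2059) (nat_lit 142) .nil)))) (.g (nat_lit 0) (.e (nat_lit 282666) (nat_lit 0) .nil) .nil)))) (.nd (nat_lit 9) 
(.lf (nat_lit 546220) (.g (nat_lit 2556) (.e (nat_lit 131086) (nat_lit 1) (.e (nat_lit 57847) (nat_lit 252) (.e (nat_lit 57379) (nat_lit 3) (.e (nat_lit 98334) (nat_lit 18) (.e (nat_lit 164399) (nat_lit 256) .nil))))) (.g (nat_lit 0) (.e (nat_lit 281577) (nat_lit 0) .nil) .nil))) 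
(.lf (nat_lit 546732) (.g (nat_lit 529) (.e (nat_lit 278566) (nat_lit 16) (.e (nat_lit 286740) (nat_lit 7) (.e (nat_lit 319526) (nat_lit 15) (.e (nat_lit 278547) (nat_lit 8) (.e (nat_lit 303124) (nat_lit 7) (.e (nat_lit 409638) (nat_lit 15) .nil)))))) (.g (nat_lit 1) (.e (nat_lit 283920) (nat_lit 0) .nil) .nil)))))) (.nd (nat_lit 7) (.nd (nat_lit 8) (.nd (nat_lit 9) 
(.lf (nat_lit 545900) (.g (nat_lit 1557) (.e (nat_lit 114719) (nat_lit 23) (.e (nat_lit 98367) (nat_lit 27) (.e (nat_lit 434231) (nat_lit 23) (.e (nat_lit 532481) (nat_lit 0) .nil)))) (.g (nat_lit 0) (.e (nat_lit 280511) (nat_lit 0) .nil) .nil))) 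
(.lf (nat_lit 546412) (.g (nat_lit 2171) (.e (nat_lit 131123) (nat_lit 12) (.e (nat_lit 385066) (nat_lit 26) (.e (nat_lit 532515) (nat_lit 3) (.e (nat_lit 114697) (nat_lit 11) (.e (nat_lit 426121) (nat_lit 2) (.e (nat_lit 196681) (nat_lit 17) .nil)))))) (.g (nat_lit 1) (.e (nat_lit 282339) (nat_lit 0) .nil) .nil)))) (.nd (nat_lit 9) 
(.lf (nat_lit 546156) (.g (nat_lit 2901) (.e (nat_lit 123182) (nat_lit 264) (.e (nat_lit 1183) (nat_lit 87) (.e (nat_lit 57480) (nat_lit 28) (.e (nat_lit 557109) (nat_lit 15) (.e (nat_lit 188450) (nat_lit 23) .nil))))) (.g (nat_lit 0) (.e (nat_lit 281246) (nat_lit 0) .nil) .nil))) 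
(.lf (nat_lit 546668) (.g (nat_lit 1572) (.e (nat_lit 270373) (nat_lit 16) (.e (nat_lit 286735) (nat_lit 3) (.e (nat_lit 98354) (nat_lit 26) (.e (nat_lit 426211) (nat_lit 9) .nil)))) (.g (nat_lit 0) (.e (nat_lit 283781) (nat_lit 0) .nil) .nil))))) (.nd (nat_lit 8) (.nd (nat_lit 9) 
(.lf (nat_lit 546028) (.g (nat_lit 2331) (.e (nat_lit 122906) (nat_lit 12) (.e (nat_lit 336001) (nat_lit 2) (.e (nat_lit 90170) (nat_lit 13) (.e (nat_lit 172113) (nat_lit 10) (.e (nat_lit 434248) (nat_lit 28) (.e (nat_lit 573475) (nat_lit 12) (.e (nat_lit 57356) (nat_lit 0) (.e (nat_lit 7271) (nat_lit 385) .nil)))))))) (.g (nat_lit 1) (.e (nat_lit 280716) (nat_lit 0) .nil) .nil))) 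
(.lf (nat_lit 546540) (.g (nat_lit 1928) (.e (nat_lit 147495) (nat_lit 11) (.e (nat_lit 24601) (nat_lit 2) (.e (nat_lit 90170) (nat_lit 13) (.e (nat_lit 172106) (nat_lit 10) (.e (nat_lit 434244) (nat_lit 28) (.e (nat_lit 573450) (nat_lit 9) (.e (nat_lit 1316) (nat_lit 98) .nil))))))) (.g (nat_lit 1) (.e (nat_lit 283184) (nat_lit 0) .nil) .nil)))) (.nd (nat_lit 9) 
(.lf (nat_lit 546284) (.g (nat_lit 3965) (.e (nat_lit 131104) (nat_lit 9) (.e (nat_lit 336454) (nat_lit 34) (.e (nat_lit 483365) (nat_lit 18) (.e (nat_lit 57930) (nat_lit 282) .nil)))) (.g (nat_lit 0) (.e (nat_lit 281904) (nat_lit 0) .nil) .nil))) 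
(.lf (nat_lit 546796) (.g (nat_lit 4331) (.e (nat_lit 303104) (nat_lit 0) (.e (nat_lit 3238) (nat_lit 197) (.e (nat_lit 532535) (nat_lit 9) (.e (nat_lit 336099) (nat_lit 9) (.e (nat_lit 336013) (nat_lit 2) (.e (nat_lit 90121) (nat_lit 9) (.e (nat_lit 2829) (nat_lit 182) (.e (nat_lit 409649) (nat_lit 18) .nil)))))))) (.g (nat_lit 1) (.e (nat_lit 284071) (nat_lit 0) .nil) .nil)))))))) 
(.nd (nat_lit 5) (.nd (nat_lit 6) (.nd (nat_lit 7) (.nd (nat_lit 8) (.nd (nat_lit 9) 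
(.lf (nat_lit 545820) (.g (nat_lit 3374) (.e (nat_lit 114719) (nat_lit 23) (.e (nat_lit 98350) (nat_lit 24) (.e (nat_lit 409617) (nat_lit 10) (.e (nat_lit 632) (nat_lit 50) (.e (nat_lit 573487) (nat_lit 14) (.e (nat_lit 73742) (nat_lit 1) (.e (nat_lit 499991) (nat_lit 14) (.e (nat_lit 1281) (nat_lit 94) .nil)))))))) (.g (nat_lit 1) (.e (nat_lit 280371) (nat_lit 0) .nil) .nil))) 
(.lf (nat_lit 546332) (.g (nat_lit 3594) (.e (nat_lit 131107) (nat_lit 9) (.e (nat_lit 336454) (nat_lit 34) (.e (nat_lit 483365) (nat_lit 18) (.e (nat_lit 57931) (nat_lit 282) .nil)))) (.g (nat_lit 0) (.e (nat_lit 282021) (nat_lit 0) .nil) .nil)))) (.nd (nat_lit 9) 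
(.lf (nat_lit 546076) (.g (nat_lit 2349) (.e (nat_lit 122936) (nat_lit 23) (.e (nat_lit 516117) (nat_lit 1) (.e (nat_lit 164398) (nat_lit 256) (.e (nat_lit 57378) (nat_lit 3) (.e (nat_lit 98367) (nat_lit 27) .nil))))) (.g (nat_lit 0) (.e (nat_lit 280799) (nat_lit 0) .nil) .nil))) 
(.lf (nat_lit 546588) (.g (nat_lit 3630) (.e (nat_lit 147496) (nat_lit 11) (.e (nat_lit 24604) (nat_lit 2) (.e (nat_lit 90170) (nat_lit 13) (.e (nat_lit 172106) (nat_lit 10) (.e (nat_lit 434244) (nat_lit 28) (.e (nat_lit 573451) (nat_lit 9) (.e (nat_lit 7936) (nat_lit 98) .nil))))))) (.g (nat_lit 1) (.e (nat_lit 283245) (nat_lit 0) .nil) .nil))))) (.nd (nat_lit 8) (.nd (nat_lit 9) 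
(.lf (nat_lit 545948) (.g (nat_lit 4583) (.e (nat_lit 114719) (nat_lit 23) (.e (nat_lit 98384) (nat_lit 32) (.e (nat_lit 475177) (nat_lit 24) (.e (nat_lit 516115) (nat_lit 1) (.e (nat_lit 164325) (nat_lit 230) (.e (nat_lit 163875) (nat_lit 3) (.e (nat_lit 204838) (nat_lit 20) .nil))))))) (.g (nat_lit 1) (.e (nat_lit 280600) (nat_lit 0) .nil) .nil))) 
(.lf (nat_lit 546460) (.g (nat_lit 2943) (.e (nat_lit 131133) (nat_lit 15) (.e (nat_lit 3304) (nat_lit 202) (.e (nat_lit 573485) (nat_lit 13) (.e (nat_lit 65604) (nat_lit 9) (.e (nat_lit 336013) (nat_lit 2) (.e (nat_lit 90165) (nat_lit 12) (.e (nat_lit 171776) (nat_lit 194) .nil))))))) (.g (nat_lit 1) (.e (nat_lit 282515) (nat_lit 0) .nil) .nil)))) (.nd (nat_lit 9) 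
(.lf (nat_lit 546204) (.g (nat_lit 2653) (.e (nat_lit 123198) (nat_lit 266) (.e (nat_lit 57400) (nat_lit 10) (.e (nat_lit 319490) (nat_lit 0) (.e (nat_lit 5664) (nat_lit 312) (.e (nat_lit 3085) (nat_lit 191) (.e (nat_lit 483382) (nat_lit 23) (.e (nat_lit 336029) (nat_lit 4) .nil))))))) (.g (nat_lit 1) (.e (nat_lit 281326) (nat_lit 0) .nil) .nil))) 
(.lf (nat_lit 546716) (.g (nat_lit 1559) (.e (nat_lit 270354) (nat_lit 8) (.e (nat_lit 303145) (nat_lit 13) (.e (nat_lit 483405) (nat_lit 26) (.e (nat_lit 385090) (nat_lit 49) .nil)))) (.g (nat_lit 0) (.e (nat_lit 283855) (nat_lit 0) .nil) .nil)))))) (.nd (nat_lit 7) (.nd (nat_lit 8) (.nd (nat_lit 9) 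
(.lf (nat_lit 545884) (.g (nat_lit 4174) (.e (nat_lit 114719) (nat_lit 23) (.e (nat_lit 98366) (nat_lit 27) (.e (nat_lit 434231) (nat_lit 23) (.e (nat_lit 532500) (nat_lit 1) (.e (nat_lit 57692) (nat_lit 156) (.e (nat_lit 163875) (nat_lit 3) (.e (nat_lit 204836) (nat_lit 20) .nil))))))) (.g (nat_lit 1) (.e (nat_lit 280489) (nat_lit 0) .nil) .nil))) 
(.lf (nat_lit 546396) (.g (nat_lit 2456) (.e (nat_lit 131120) (nat_lit 12) (.e (nat_lit 385068) (nat_lit 26) (.e (nat_lit 532515) (nat_lit 3) (.e (nat_lit 114698) (nat_lit 11) (.e (nat_lit 426116) (nat_lit 2) (.e (nat_lit 196681) (nat_lit 17) .nil)))))) (.g (nat_lit 1) (.e (nat_lit 282265) (nat_lit 0) .nil) .nil)))) (.nd (nat_lit 9) 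
(.lf (nat_lit 546140) (.g (nat_lit 4121) (.e (nat_lit 123162) (nat_lit 256) (.e (nat_lit 2685) (nat_lit 168) (.e (nat_lit 204846) (nat_lit 24) (.e (nat_lit 319534) (nat_lit 16) (.e (nat_lit 286732) (nat_lit 2) (.e (nat_lit 90165) (nat_lit 12) (.e (nat_lit 164217) (nat_lit 178) .nil))))))) (.g (nat_lit 1) (.e (nat_lit 281209) (nat_lit 0) .nil) .nil))) 
(.lf (nat_lit 546652) (.g (nat_lit 588) (.e (nat_lit 163584) (nat_lit 6) (.e (nat_lit 188439) (nat_lit 20) (.e (nat_lit 3407) (nat_lit 212) (.e (nat_lit 655380) (nat_lit 6) (.e (nat_lit 196352) (nat_lit 8) .nil))))) (.g (nat_lit 0) (.e (nat_lit 283698) (nat_lit 0) .nil) .nil))))) (.nd (nat_lit 8) (.nd (nat_lit 9) 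
(.lf (nat_lit 546012) (.g (nat_lit 2171) (.e (nat_lit 122903) (nat_lit 12) (.e (nat_lit 336456) (nat_lit 34) (.e (nat_lit 483383) (nat_lit 23) (.e (nat_lit 336019) (nat_lit 3) (.e (nat_lit 98333) (nat_lit 18) (.e (nat_lit 164185) (nat_lit 155) .nil)))))) (.g (nat_lit 1) (.e (nat_lit 280700) (nat_lit 0) .nil) .nil))) 
(.lf (nat_lit 546524) (.g (nat_lit 1741) (.e (nat_lit 139299) (nat_lit 18) (.e (nat_lit 1359) (nat_lit 102) (.e (nat_lit 286748) (nat_lit 9) (.e (nat_lit 336295) (nat_lit 15) (.e (nat_lit 3305) (nat_lit 202) .nil))))) (.g (nat_lit 0) (.e (nat_lit 283097) (nat_lit 0) .nil) .nil)))) (.nd (nat_lit 9) 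
(.lf (nat_lit 546268) (.g (nat_lit 2521) (.e (nat_lit 131098) (nat_lit 3) (.e (nat_lit 98333) (nat_lit 18) (.e (nat_lit 164182) (nat_lit 154) (.e (nat_lit 57378) (nat_lit 3) (.e (nat_lit 98340) (nat_lit 20) .nil))))) (.g (nat_lit 0) (.e (nat_lit 281846) (nat_lit 0) .nil) .nil))) 
(.lf (nat_lit 546780) (.g (nat_lit 806) (.e (nat_lit 278546) (nat_lit 8) (.e (nat_lit 303145) (nat_lit 13) (.e (nat_lit 483405) (nat_lit 26) .nil))) (.g (nat_lit 0) (.e (nat_lit 284029) (nat_lit 0) .nil) .nil))))))) (.nd (nat_lit 6) (.nd (nat_lit 7) (.nd (nat_lit 8) (.nd (nat_lit 9) 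
(.lf (nat_lit 545852) (.g (nat_lit 446) (.e (nat_lit 114719) (nat_lit 23) (.e (nat_lit 98365) (nat_lit 26) (.e (nat_lit 426124) (nat_lit 2) .nil))) (.g (nat_lit 0) (.e (nat_lit 280412) (nat_lit 0) .nil) .nil))) 
(.lf (nat_lit 546364) (.g (nat_lit 3535) (.e (nat_lit 131109) (nat_lit 9) (.e (nat_lit 336324) (nat_lit 18) (.e (nat_lit 204838) (nat_lit 20) (.e (nat_lit 114698) (nat_lit 11) (.e (nat_lit 426116) (nat_lit 2) (.e (nat_lit 196681) (nat_lit 17) .nil)))))) (.g (nat_lit 1) (.e (nat_lit 282160) (nat_lit 0) .nil) .nil)))) (.nd (nat_lit 9) 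
(.lf (nat_lit 546108) (.g (nat_lit 1908) (.e (nat_lit 130816) (nat_lit 63) (.e (nat_lit 196666) (nat_lit 13) (.e (nat_lit 65610) (nat_lit 10) (.e (nat_lit 344117) (nat_lit 21) .nil)))) (.g (nat_lit 0) (.e (nat_lit 280875) (nat_lit 0) .nil) .nil))) 
(.lf (nat_lit 546620) (.g (nat_lit 1666) (.e (nat_lit 155654) (nat_lit 0) (.e (nat_lit 2856) (nat_lit 184) (.e (nat_lit 426320) (nat_lit 12) (.e (nat_lit 475198) (nat_lit 40) .nil)))) (.g (nat_lit 0) (.e (nat_lit 283453) (nat_lit 0) .nil) .nil))))) (.nd (nat_lit 8) (.nd (nat_lit 9) 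
(.lf (nat_lit 545980) (.g (nat_lit 1751) (.e (nat_lit 114719) (nat_lit 23) (.e (nat_lit 98386) (nat_lit 32) (.e (nat_lit 475179) (nat_lit 24) (.e (nat_lit 516119) (nat_lit 1) .nil)))) (.g (nat_lit 0) (.e (nat_lit 280636) (nat_lit 0) .nil) .nil))) 
(.lf (nat_lit 546492) (.g (nat_lit 2421) (.e (nat_lit 131140) (nat_lit 27) (.e (nat_lit 426316) (nat_lit 12) (.e (nat_lit 475211) (nat_lit 41) (.e (nat_lit 712747) (nat_lit 28) (.e (nat_lit 442112) (nat_lit 7) .nil))))) (.g (nat_lit 1) (.e (nat_lit 282716) (nat_lit 0) .nil) .nil)))) (.nd (nat_lit 9) 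
(.lf (nat_lit 546236) (.g (nat_lit 1142) (.e (nat_lit 131089) (nat_lit 1) (.e (nat_lit 57931) (nat_lit 282) (.e (nat_lit 163943) (nat_lit 19) (.e (nat_lit 483395) (nat_lit 24) .nil)))) (.g (nat_lit 0) (.e (nat_lit 281656) (nat_lit 0) .nil) .nil))) 
(.lf (nat_lit 546748) (.g (nat_lit 2229) (.e (nat_lit 278566) (nat_lit 16) (.e (nat_lit 286761) (nat_lit 13) (.e (nat_lit 393282) (nat_lit 24) (.e (nat_lit 434275) (nat_lit 39) (.e (nat_lit 663589) (nat_lit 14) .nil))))) (.g (nat_lit 0) (.e (nat_lit 283941) (nat_lit 0) .nil) .nil)))))) (.nd (nat_lit 7) (.nd (nat_lit 8) (.nd (nat_lit 9) 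
(.lf (nat_lit 545916) (.g (nat_lit 2880) (.e (nat_lit 114719) (nat_lit 23) (.e (nat_lit 98367) (nat_lit 27) (.e (nat_lit 434231) (nat_lit 23) (.e (nat_lit 532500) (nat_lit 1) (.e (nat_lit 57685) (nat_lit 156) (.e (nat_lit 163875) (nat_lit 3) (.e (nat_lit 204836) (nat_lit 20) .nil))))))) (.g (nat_lit 1) (.e (nat_lit 280560) (nat_lit 0) .nil) .nil))) 
(.lf (nat_lit 546428) (.g (nat_lit 1722) (.e (nat_lit 131124) (nat_lit 13) (.e (nat_lit 393229) (nat_lit 9) (.e (nat_lit 335994) (nat_lit 1) (.e (nat_lit 57931) (nat_lit 282) .nil)))) (.g (nat_lit 0) (.e (nat_lit 282376) (nat_lit 0) .nil) .nil)))) (.nd (nat_lit 9) 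
(.lf (nat_lit 546172) (.g (nat_lit 3492) (.e (nat_lit 123195) (nat_lit 266) (.e (nat_lit 57346) (nat_lit 0) (.e (nat_lit 6203) (nat_lit 332) (.e (nat_lit 2798) (nat_lit 180) (.e (nat_lit 303133) (nat_lit 9) (.e (nat_lit 426499) (nat_lit 27) (.e (nat_lit 336100) (nat_lit 9) (.e (nat_lit 336032) (nat_lit 4) .nil)))))))) (.g (nat_lit 1) (.e (nat_lit 281273) (nat_lit 0) .nil) .nil))) 
(.lf (nat_lit 546684) (.g (nat_lit 2868) (.e (nat_lit 270373) (nat_lit 16) (.e (nat_lit 286749) (nat_lit 9) (.e (nat_lit 335997) (nat_lit 1) (.e (nat_lit 57857) (nat_lit 254) (.e (nat_lit 163908) (nat_lit 12) (.e (nat_lit 426171) (nat_lit 7) (.e (nat_lit 409636) (nat_lit 14) .nil))))))) (.g (nat_lit 1) (.e (nat_lit 283799) (nat_lit 0) .nil) .nil))))) (.nd (nat_lit 8) (.nd (nat_lit 9) 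
(.lf (nat_lit 546044) (.g (nat_lit 3057) (.e (nat_lit 122913) (nat_lit 13) (.e (nat_lit 344129) (nat_lit 26) (.e (nat_lit 557090) (nat_lit 12) (.e (nat_lit 163987) (nat_lit 33) .nil)))) (.g (nat_lit 0) (.e (nat_lit 280739) (nat_lit 0) .nil) .nil))) 
(.lf (nat_lit 546556) (.g (nat_lit 2435) (.e (nat_lit 147495) (nat_lit 11) (.e (nat_lit 24608) (nat_lit 3) (.e (nat_lit 98372) (nat_lit 29) (.e (nat_lit 450586) (nat_lit 10) (.e (nat_lit 573457) (nat_lit 9) .nil))))) (.g (nat_lit 0) (.e (nat_lit 283201) (nat_lit 0) .nil) .nil)))) (.nd (nat_lit 9) 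
(.lf (nat_lit 546300) (.g (nat_lit 2667) (.e (nat_lit 131105) (nat_lit 9) (.e (nat_lit 336324) (nat_lit 18) (.e (nat_lit 204838) (nat_lit 20) (.e (nat_lit 114698) (nat_lit 11) (.e (nat_lit 426113) (nat_lit 2) (.e (nat_lit 196681) (nat_lit 17) .nil)))))) (.g (nat_lit 1) (.e (nat_lit 281941) (nat_lit 0) .nil) .nil))) 
(.lf (nat_lit 546812) (.g (nat_lit 612) (.e (nat_lit 303104) (nat_lit 0) (.e (nat_lit 3579) (nat_lit 223) (.e (nat_lit 745509) (nat_lit 11) .nil))) (.g (nat_lit 0) (.e (nat_lit 284093) (nat_lit 0) .nil) .nil))))))))))) (.nd (nat_lit 2) (.nd (nat_lit 3) (.nd (nat_lit 4) (.nd (nat_lit 5) (.nd (nat_lit 6) (.nd (nat_lit 7) (.nd (nat_lit 8) (.nd (nat_lit 9) 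
(.lf (nat_lit 545794) (.g (nat_lit 630) (.e (nat_lit 114719) (nat_lit 23) (.e (nat_lit 98333) (nat_lit 18) (.e (nat_lit 164403) (nat_lit 256) .nil))) (.g (nat_lit 0) (.e (nat_lit 280322) (nat_lit 0) .nil) .nil))) 
(.lf (nat_lit 546306) (.g (nat_lit 417) (.e (nat_lit 131105) (nat_lit 9) (.e (nat_lit 336454) (nat_lit 34) (.e (nat_lit 483363) (nat_lit 18) .nil))) (.g (nat_lit 0) (.e (nat_lit 281967) (nat_lit 0) .nil) .nil)))) (.nd (nat_lit 9) 
(.lf (nat_lit 546050) (.g (nat_lit 4092) (.e (nat_lit 122914) (nat_lit 14) (.e (nat_lit 352277) (nat_lit 11) (.e (nat_lit 426342) (nat_lit 14) (.e (nat_lit 491560) (nat_lit 10) (.e (nat_lit 344097) (nat_lit 18) (.e (nat_lit 7270) (nat_lit 385) .nil)))))) (.g (nat_lit 1) (.e (nat_lit 280748) (nat_lit 0) .nil) .nil))) 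
(.lf (nat_lit 546562) (.g (nat_lit 1842) (.e (nat_lit 147495) (nat_lit 11) (.e (nat_lit 24608) (nat_lit 3) (.e (nat_lit 98386) (nat_lit 32) (.e (nat_lit 483072) (nat_lit 51) .nil)))) (.g (nat_lit 0) (.e (nat_lit 283207) (nat_lit 0) .nil) .nil))))) (.nd (nat_lit 8) (.nd (nat_lit 9) 
(.lf (nat_lit 545922) (.g (nat_lit 4062) (.e (nat_lit 114719) (nat_lit 23) (.e (nat_lit 98367) (nat_lit 27) (.e (nat_lit 434231) (nat_lit 23) (.e (nat_lit 532500) (nat_lit 1) (.e (nat_lit 57691) (nat_lit 156) (.e (nat_lit 163874) (nat_lit 3) (.e (nat_lit 204838) (nat_lit 20) .nil))))))) (.g (nat_lit 1) (.e (nat_lit 280567) (nat_lit 0) .nil) .nil))) 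
(.lf (nat_lit 546434) (.g (nat_lit 2470) (.e (nat_lit 131125) (nat_lit 13) (.e (nat_lit 393229) (nat_lit 9) (.e (nat_lit 335995) (nat_lit 1) (.e (nat_lit 57929) (nat_lit 282) .nil)))) (.g (nat_lit 0) (.e (nat_lit 282403) (nat_lit 0) .nil) .nil)))) (.nd (nat_lit 9) 
(.lf (nat_lit 546178) (.g (nat_lit 2029) (.e (nat_lit 123195) (nat_lit 266) (.e (nat_lit 57400) (nat_lit 10) (.e (nat_lit 319490) (nat_lit 0) (.e (nat_lit 5664) (nat_lit 312) (.e (nat_lit 2852) (nat_lit 184) (.e (nat_lit 426539) (nat_lit 29) (.e (nat_lit 352317) (nat_lit 24) .nil))))))) (.g (nat_lit 1) (.e (nat_lit 281287) (nat_lit 0) .nil) .nil))) 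
(.lf (nat_lit 546690) (.g (nat_lit 288) (.e (nat_lit 270373) (nat_lit 16) (.e (nat_lit 286760) (nat_lit 13) (.e (nat_lit 393291) (nat_lit 26) .nil))) (.g (nat_lit 0) (.e (nat_lit 283809) (nat_lit 0) .nil) .nil)))))) (.nd (nat_lit 7) (.nd (nat_lit 8) (.nd (nat_lit 9) 
(.lf (nat_lit 545858) (.g (nat_lit 1007) (.e (nat_lit 114719) (nat_lit 23) (.e (nat_lit 98366) (nat_lit 27) (.e (nat_lit 434231) (nat_lit 23) (.e (nat_lit 532481) (nat_lit 0) .nil)))) (.g (nat_lit 0) (.e (nat_lit 280428) (nat_lit 0) .nil) .nil))) 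
(.lf (nat_lit 546370) (.g (nat_lit 2279) (.e (nat_lit 131109) (nat_lit 9) (.e (nat_lit 336454) (nat_lit 34) (.e (nat_lit 483366) (nat_lit 18) (.e (nat_lit 57929) (nat_lit 282) (.e (nat_lit 163866) (nat_lit 2) (.e (nat_lit 196681) (nat_lit 17) .nil)))))) (.g (nat_lit 1) (.e (nat_lit 282193) (nat_lit 0) .nil) .nil)))) (.nd (nat_lit 9) 
(.lf (nat_lit 546114) (.g (nat_lit 3629) (.e (nat_lit 123002) (nat_lit 86) (.e (nat_lit 532550) (nat_lit 12) (.e (nat_lit 360475) (nat_lit 8) (.e (nat_lit 557091) (nat_lit 12) .nil)))) (.g (nat_lit 0) (.e (nat_lit 280946) (nat_lit 0) .nil) .nil))) 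
(.lf (nat_lit 546626) (.g (nat_lit 1487) (.e (nat_lit 163584) (nat_lit 4) (.e (nat_lit 172118) (nat_lit 12) (.e (nat_lit 475211) (nat_lit 41) (.e (nat_lit 712752) (nat_lit 29) (.e (nat_lit 442382) (nat_lit 8) .nil))))) (.g (nat_lit 0) (.e (nat_lit 283515) (nat_lit 0) .nil) .nil))))) (.nd (nat_lit 8) (.nd (nat_lit 9) 
(.lf (nat_lit 545986) (.g (nat_lit 2250) (.e (nat_lit 114719) (nat_lit 23) (.e (nat_lit 98387) (nat_lit 33) (.e (nat_lit 491570) (nat_lit 13) (.e (nat_lit 393238) (nat_lit 17) (.e (nat_lit 3558) (nat_lit 221) (.e (nat_lit 729117) (nat_lit 25) .nil)))))) (.g (nat_lit 1) (.e (nat_lit 280642) (nat_lit 0) .nil) .nil))) 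
(.lf (nat_lit 546498) (.g (nat_lit 1859) (.e (nat_lit 139277) (nat_lit 3) (.e (nat_lit 57347) (nat_lit 0) (.e (nat_lit 7265) (nat_lit 384) (.e (nat_lit 57406) (nat_lit 12) (.e (nat_lit 336367) (nat_lit 27) (.e (nat_lit 426542) (nat_lit 29) (.e (nat_lit 352320) (nat_lit 25) .nil))))))) (.g (nat_lit 1) (.e (nat_lit 282906) (nat_lit 0) .nil) .nil)))) (.nd (nat_lit 9) 
(.lf (nat_lit 546242) (.g (nat_lit 2205) (.e (nat_lit 131096) (nat_lit 3) (.e (nat_lit 98333) (nat_lit 18) (.e (nat_lit 164179) (nat_lit 154) (.e (nat_lit 57379) (nat_lit 3) (.e (nat_lit 98342) (nat_lit 20) .nil))))) (.g (nat_lit 0) (.e (nat_lit 281762) (nat_lit 0) .nil) .nil))) 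
(.lf (nat_lit 546754) (.g (nat_lit 3300) (.e (nat_lit 278567) (nat_lit 16) (.e (nat_lit 286733) (nat_lit 2) (.e (nat_lit 90170) (nat_lit 13) (.e (nat_lit 172113) (nat_lit 10) .nil)))) (.g (nat_lit 0) (.e (nat_lit 283947) (nat_lit 0) .nil) .nil))))))) (.nd (nat_lit 6) (.nd (nat_lit 7) (.nd (nat_lit 8) (.nd (nat_lit 9) 
(.lf (nat_lit 545826) (.g (nat_lit 4302) (.e (nat_lit 114719) (nat_lit 23) (.e (nat_lit 98354) (nat_lit 26) (.e (nat_lit 426436) (nat_lit 18) (.e (nat_lit 98335) (nat_lit 18) (.e (nat_lit 164305) (nat_lit 226) (.e (nat_lit 2612) (nat_lit 163) (.e (nat_lit 163964) (nat_lit 25) (.e (nat_lit 532513) (nat_lit 3) .nil)))))))) (.g (nat_lit 1) (.e (nat_lit 280380) (nat_lit 0) .nil) .nil))) 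
(.lf (nat_lit 546338) (.g (nat_lit 2230) (.e (nat_lit 131108) (nat_lit 9) (.e (nat_lit 336324) (nat_lit 18) (.e (nat_lit 204835) (nat_lit 19) (.e (nat_lit 106536) (nat_lit 11) .nil)))) (.g (nat_lit 0) (.e (nat_lit 282039) (nat_lit 0) .nil) .nil)))) (.nd (nat_lit 9) 
(.lf (nat_lit 546082) (.g (nat_lit 2517) (.e (nat_lit 122936) (nat_lit 23) (.e (nat_lit 516119) (nat_lit 1) (.e (nat_lit 164403) (nat_lit 256) (.e (nat_lit 57373) (nat_lit 2) (.e (nat_lit 90174) (nat_lit 14) .nil))))) (.g (nat_lit 0) (.e (nat_lit 280806) (nat_lit 0) .nil) .nil))) 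
(.lf (nat_lit 546594) (.g (nat_lit 1924) (.e (nat_lit 147496) (nat_lit 11) (.e (nat_lit 24604) (nat_lit 2) (.e (nat_lit 90178) (nat_lit 15) (.e (nat_lit 188441) (nat_lit 20) .nil)))) (.g (nat_lit 0) (.e (nat_lit 283251) (nat_lit 0) .nil) .nil))))) (.nd (nat_lit 8) (.nd (nat_lit 9) 
(.lf (nat_lit 545954) (.g (nat_lit 1608) (.e (nat_lit 114719) (nat_lit 23) (.e (nat_lit 98384) (nat_lit 32) (.e (nat_lit 475177) (nat_lit 24) (.e (nat_lit 516120) (nat_lit 1) (.e (nat_lit 164305) (nat_lit 226) .nil))))) (.g (nat_lit 0) (.e (nat_lit 280606) (nat_lit 0) .nil) .nil))) 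
(.lf (nat_lit 546466) (.g (nat_lit 3420) (.e (nat_lit 131133) (nat_lit 15) (.e (nat_lit 3305) (nat_lit 202) (.e (nat_lit 573485) (nat_lit 13) (.e (nat_lit 65604) (nat_lit 9) (.e (nat_lit 336013) (nat_lit 2) (.e (nat_lit 90165) (nat_lit 12) (.e (nat_lit 171776) (nat_lit 194) .nil))))))) (.g (nat_lit 1) (.e (nat_lit 282527) (nat_lit 0) .nil) .nil)))) (.nd (nat_lit 9) 
(.lf (nat_lit 546210) (.g (nat_lit 1529) (.e (nat_lit 123198) (nat_lit 266) (.e (nat_lit 57436) (nat_lit 17) (.e (nat_lit 376835) (nat_lit 0) (.e (nat_lit 3631) (nat_lit 227) (.e (nat_lit 778326) (nat_lit 6) (.e (nat_lit 81957) (nat_lit 24) .nil)))))) (.g (nat_lit 1) (.e (nat_lit 281334) (nat_lit 0) .nil) .nil))) 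
(.lf (nat_lit 546722) (.g (nat_lit 3187) (.e (nat_lit 278562) (nat_lit 13) (.e (nat_lit 49188) (nat_lit 11) (.e (nat_lit 16466) (nat_lit 13) (.e (nat_lit 483372) (nat_lit 21) (.e (nat_lit 319527) (nat_lit 15) .nil))))) (.g (nat_lit 1) (.e (nat_lit 283908) (nat_lit 0) .nil) .nil)))))) (.nd (nat_lit 7) (.nd (nat_lit 8) (.nd (nat_lit 9) 
(.lf (nat_lit 545890) (.g (nat_lit 3598) (.e (nat_lit 114719) (nat_lit 23) (.e (nat_lit 98366) (nat_lit 27) (.e (nat_lit 434231) (nat_lit 23) (.e (nat_lit 532502) (nat_lit 1) (.e (nat_lit 57692) (nat_lit 156) (.e (nat_lit 163874) (nat_lit 3) (.e (nat_lit 204836) (nat_lit 20) .nil))))))) (.g (nat_lit 1) (.e (nat_lit 280497) (nat_lit 0) .nil) .nil))) 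
(.lf (nat_lit 546402) (.g (nat_lit 2642) (.e (nat_lit 131121) (nat_lit 12) (.e (nat_lit 385074) (nat_lit 31) (.e (nat_lit 573485) (nat_lit 13) (.e (nat_lit 65630) (nat_lit 14) (.e (nat_lit 401425) (nat_lit 2) .nil))))) (.g (nat_lit 0) (.e (nat_lit 282287) (nat_lit 0) .nil) .nil)))) (.nd (nat_lit 9) 
(.lf (nat_lit 546146) (.g (nat_lit 3327) (.e (nat_lit 123174) (nat_lit 257) (.e (nat_lit 8326) (nat_lit 69) (.e (nat_lit 557101) (nat_lit 13) (.e (nat_lit 172097) (nat_lit 9) (.e (nat_lit 426125) (nat_lit 2) (.e (nat_lit 196661) (nat_lit 12) (.e (nat_lit 57722) (nat_lit 178) .nil))))))) (.g (nat_lit 1) (.e (nat_lit 281226) (nat_lit 0) .nil) .nil))) 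
(.lf (nat_lit 546658) (.g (nat_lit 1005) (.e (nat_lit 163584) (nat_lit 6) (.e (nat_lit 188441) (nat_lit 20) (.e (nat_lit 3408) (nat_lit 212) (.e (nat_lit 655380) (nat_lit 6) (.e (nat_lit 196352) (nat_lit 8) .nil))))) (.g (nat_lit 0) (.e (nat_lit 283707) (nat_lit 0) .nil) .nil))))) (.nd (nat_lit 8) (.nd (nat_lit 9) 
(.lf (nat_lit 546018) (.g (nat_lit 807) (.e (nat_lit 122904) (nat_lit 12) (.e (nat_lit 336454) (nat_lit 34) (.e (nat_lit 483384) (nat_lit 23) .nil))) (.g (nat_lit 0) (.e (nat_lit 280706) (nat_lit 0) .nil) .nil))) 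
(.lf (nat_lit 546530) (.g (nat_lit 1193) (.e (nat_lit 147494) (nat_lit 11) (.e (nat_lit 24607) (nat_lit 3) (.e (nat_lit 98372) (nat_lit 29) (.e (nat_lit 450586) (nat_lit 10) .nil)))) (.g (nat_lit 0) (.e (nat_lit 283165) (nat_lit 0) .nil) .nil)))) (.nd (nat_lit 9) 
(.lf (nat_lit 546274) (.g (nat_lit 2710) (.e (nat_lit 131098) (nat_lit 3) (.e (nat_lit 98335) (nat_lit 18) (.e (nat_lit 164179) (nat_lit 154) (.e (nat_lit 57378) (nat_lit 3) (.e (nat_lit 98342) (nat_lit 20) .nil))))) (.g (nat_lit 0) (.e (nat_lit 281872) (nat_lit 0) .nil) .nil))) 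
(.lf (nat_lit 546786) (.g (nat_lit 856) (.e (nat_lit 278547) (nat_lit 8) (.e (nat_lit 303138) (nat_lit 10) (.e (nat_lit 434266) (nat_lit 35) (.e (nat_lit 630821) (nat_lit 16) (.e (nat_lit 65584) (nat_lit 7) (.e (nat_lit 319527) (nat_lit 15) .nil)))))) (.g (nat_lit 1) (.e (nat_lit 284039) (nat_lit 0) .nil) .nil)))))))) 
(.nd (nat_lit 5) (.nd (nat_lit 6) (.nd (nat_lit 7) (.nd (nat_lit 8) (.nd (nat_lit 9) 
(.lf (nat_lit 545810) (.g (nat_lit 3043) (.e (nat_lit 114719) (nat_lit 23) (.e (nat_lit 98335) (nat_lit 18) (.e (nat_lit 164327) (nat_lit 230) (.e (nat_lit 163868) (nat_lit 2) (.e (nat_lit 196656) (nat_lit 11) (.e (nat_lit 16416) (nat_lit 3) (.e (nat_lit 204837) (nat_lit 20) .nil))))))) (.g (nat_lit 1) (.e (nat_lit 280354) (nat_lit 0) .nil) .nil))) 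
(.lf (nat_lit 546322) (.g (nat_lit 2221) (.e (nat_lit 131107) (nat_lit 9) (.e (nat_lit 336324) (nat_lit 18) (.e (nat_lit 204837) (nat_lit 20) (.e (nat_lit 114698) (nat_lit 11) (.e (nat_lit 426114) (nat_lit 2) (.e (nat_lit 196680) (nat_lit 17) .nil)))))) (.g (nat_lit 1) (.e (nat_lit 282009) (nat_lit 0) .nil) .nil)))) (.nd (nat_lit 9) 
(.lf (nat_lit 546066) (.g (nat_lit 5438) (.e (nat_lit 122935) (nat_lit 23) (.e (nat_lit 516166) (nat_lit 12) (.e (nat_lit 450588) (nat_lit 10) (.e (nat_lit 573471) (nat_lit 11) .nil)))) (.g (nat_lit 0) (.e (nat_lit 280782) (nat_lit 0) .nil) .nil))) 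
(.lf (nat_lit 546578) (.g (nat_lit 4234) (.e (nat_lit 147495) (nat_lit 11) (.e (nat_lit 24665) (nat_lit 14) (.e (nat_lit 401451) (nat_lit 12) (.e (nat_lit 475214) (nat_lit 42) (.e (nat_lit 720956) (nat_lit 25) (.e (nat_lit 114727) (nat_lit 28) .nil)))))) (.g (nat_lit 1) (.e (nat_lit 283233) (nat_lit 0) .nil) .nil))))) (.nd (nat_lit 8) (.nd (nat_lit 9) 
(.lf (nat_lit 545938) (.g (nat_lit 3538) (.e (nat_lit 114719) (nat_lit 23) (.e (nat_lit 98367) (nat_lit 27) (.e (nat_lit 434234) (nat_lit 23) (.e (nat_lit 532499) (nat_lit 1) (.e (nat_lit 57688) (nat_lit 156) (.e (nat_lit 163874) (nat_lit 3) (.e (nat_lit 204838) (nat_lit 20) .nil))))))) (.g (nat_lit 1) (.e (nat_lit 280584) (nat_lit 0) .nil) .nil))) 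
(.lf (nat_lit 546450) (.g (nat_lit 758) (.e (nat_lit 131128) (nat_lit 13) (.e (nat_lit 393229) (nat_lit 9) (.e (nat_lit 335987) (nat_lit 1) .nil))) (.g (nat_lit 0) (.e (nat_lit 282460) (nat_lit 0) .nil) .nil)))) (.nd (nat_lit 9) 
(.lf (nat_lit 546194) (.g (nat_lit 732) (.e (nat_lit 123197) (nat_lit 266) (.e (nat_lit 57406) (nat_lit 12) (.e (nat_lit 336208) (nat_lit 12) .nil))) (.g (nat_lit 0) (.e (nat_lit 281313) (nat_lit 0) .nil) .nil))) 
(.lf (nat_lit 546706) (.g (nat_lit 1643) (.e (nat_lit 270354) (nat_lit 8) (.e (nat_lit 303117) (nat_lit 2) (.e (nat_lit 196665) (nat_lit 13) (.e (nat_lit 65598) (nat_lit 9) .nil)))) (.g (nat_lit 0) (.e (nat_lit 283844) (nat_lit 0) .nil) .nil)))))) (.nd (nat_lit 7) (.nd (nat_lit 8) (.nd (nat_lit 9) 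
(.lf (nat_lit 545874) (.g (nat_lit 2979) (.e (nat_lit 114719) (nat_lit 23) (.e (nat_lit 98366) (nat_lit 27) (.e (nat_lit 434231) (nat_lit 23) (.e (nat_lit 532500) (nat_lit 1) (.e (nat_lit 57685) (nat_lit 156) (.e (nat_lit 163873) (nat_lit 3) (.e (nat_lit 204838) (nat_lit 20) .nil))))))) (.g (nat_lit 1) (.e (nat_lit 280478) (nat_lit 0) .nil) .nil))) 
(.lf (nat_lit 546386) (.g (nat_lit 2439) (.e (nat_lit 131120) (nat_lit 12) (.e (nat_lit 385066) (nat_lit 26) (.e (nat_lit 532515) (nat_lit 3) (.e (nat_lit 114698) (nat_lit 11) (.e (nat_lit 426116) (nat_lit 2) (.e (nat_lit 196681) (nat_lit 17) .nil)))))) (.g (nat_lit 1) (.e (nat_lit 282246) (nat_lit 0) .nil) .nil)))) (.nd (nat_lit 9) 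
(.lf (nat_lit 546130) (.g (nat_lit 1121) (.e (nat_lit 130816) (nat_lit 206) (.e (nat_lit 180251) (nat_lit 10) (.e (nat_lit 573469) (nat_lit 11) (.e (nat_lit 16446) (nat_lit 9) .nil)))) (.g (nat_lit 0) (.e (nat_lit 281130) (nat_lit 0) .nil) .nil))) 
(.lf (nat_lit 546642) (.g (nat_lit 750) (.e (nat_lit 163584) (nat_lit 6) (.e (nat_lit 188420) (nat_lit 0) (.e (nat_lit 2058) (nat_lit 142) (.e (nat_lit 704598) (nat_lit 6) (.e (nat_lit 196352) (nat_lit 8) .nil))))) (.g (nat_lit 0) (.e (nat_lit 283670) (nat_lit 0) .nil) .nil))))) (.nd (nat_lit 8) (.nd (nat_lit 9) 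
(.lf (nat_lit 546002) (.g (nat_lit 1882) (.e (nat_lit 122883) (nat_lit 0) (.e (nat_lit 2281) (nat_lit 150) (.e (nat_lit 770072) (nat_lit 8) (.e (nat_lit 65583) (nat_lit 7) (.e (nat_lit 319530) (nat_lit 16) .nil))))) (.g (nat_lit 0) (.e (nat_lit 280681) (nat_lit 0) .nil) .nil))) 
(.lf (nat_lit 546514) (.g (nat_lit 1118) (.e (nat_lit 139289) (nat_lit 9) (.e (nat_lit 2829) (nat_lit 182) (.e (nat_lit 409645) (nat_lit 18) (.e (nat_lit 303106) (nat_lit 0) .nil)))) (.g (nat_lit 0) (.e (nat_lit 283036) (nat_lit 0) .nil) .nil)))) (.nd (nat_lit 9) 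
(.lf (nat_lit 546258) (.g (nat_lit 2342) (.e (nat_lit 131096) (nat_lit 3) (.e (nat_lit 98335) (nat_lit 18) (.e (nat_lit 164183) (nat_lit 154) (.e (nat_lit 57378) (nat_lit 3) (.e (nat_lit 98341) (nat_lit 20) .nil))))) (.g (nat_lit 0) (.e (nat_lit 281803) (nat_lit 0) .nil) .nil))) 
(.lf (nat_lit 546770) (.g (nat_lit 623) (.e (nat_lit 278567) (nat_lit 16) (.e (nat_lit 286754) (nat_lit 10) (.e (nat_lit 344157) (nat_lit 36) (.e (nat_lit 638999) (nat_lit 8) (.e (nat_lit 172081) (nat_lit 7) .nil))))) (.g (nat_lit 0) (.e (nat_lit 283981) (nat_lit 0) .nil) .nil))))))) (.nd (nat_lit 6) (.nd (nat_lit 7) (.nd (nat_lit 8) (.nd (nat_lit 9) 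
(.lf (nat_lit 545842) (.g (nat_lit 3601) (.e (nat_lit 114719) (nat_lit 23) (.e (nat_lit 98356) (nat_lit 26) (.e (nat_lit 426438) (nat_lit 18) (.e (nat_lit 98335) (nat_lit 18) (.e (nat_lit 164327) (nat_lit 230) (.e (nat_lit 163875) (nat_lit 3) (.e (nat_lit 204838) (nat_lit 20) .nil))))))) (.g (nat_lit 1) (.e (nat_lit 280397) (nat_lit 0) .nil) .nil))) 
(.lf (nat_lit 546354) (.g (nat_lit 2440) (.e (nat_lit 131109) (nat_lit 9) (.e (nat_lit 336019) (nat_lit 3) (.e (nat_lit 98350) (nat_lit 24) (.e (nat_lit 409649) (nat_lit 18) (.e (nat_lit 303111) (nat_lit 0) (.e (nat_lit 3147) (nat_lit 193) (.e (nat_lit 500087) (nat_lit 22) .nil))))))) (.g (nat_lit 1) (.e (nat_lit 282105) (nat_lit 0) .nil) .nil)))) (.nd (nat_lit 9) 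
(.lf (nat_lit 546098) (.g (nat_lit 2199) (.e (nat_lit 122937) (nat_lit 23) (.e (nat_lit 516119) (nat_lit 1) (.e (nat_lit 164403) (nat_lit 256) (.e (nat_lit 57370) (nat_lit 2) (.e (nat_lit 90174) (nat_lit 14) .nil))))) (.g (nat_lit 0) (.e (nat_lit 280836) (nat_lit 0) .nil) .nil))) 
(.lf (nat_lit 546610) (.g (nat_lit 1841) (.e (nat_lit 155650) (nat_lit 0) (.e (nat_lit 2887) (nat_lit 184) (.e (nat_lit 426317) (nat_lit 12) (.e (nat_lit 475198) (nat_lit 40) (.e (nat_lit 704599) (nat_lit 6) .nil))))) (.g (nat_lit 0) (.e (nat_lit 283348) (nat_lit 0) .nil) .nil))))) (.nd (nat_lit 8) (.nd (nat_lit 9) 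
(.lf (nat_lit 545970) (.g (nat_lit 2705) (.e (nat_lit 114719) (nat_lit 23) (.e (nat_lit 98384) (nat_lit 32) (.e (nat_lit 475179) (nat_lit 24) (.e (nat_lit 516120) (nat_lit 1) (.e (nat_lit 164304) (nat_lit 226) .nil))))) (.g (nat_lit 0) (.e (nat_lit 280624) (nat_lit 0) .nil) .nil))) 
(.lf (nat_lit 546482) (.g (nat_lit 2032) (.e (nat_lit 131140) (nat_lit 27) (.e (nat_lit 426306) (nat_lit 12) (.e (nat_lit 475211) (nat_lit 41) (.e (nat_lit 712747) (nat_lit 28) (.e (nat_lit 442112) (nat_lit 7) .nil))))) (.g (nat_lit 1) (.e (nat_lit 282695) (nat_lit 0) .nil) .nil)))) (.nd (nat_lit 9) 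
(.lf (nat_lit 546226) (.g (nat_lit 1844) (.e (nat_lit 131088) (nat_lit 1) (.e (nat_lit 57849) (nat_lit 252) (.e (nat_lit 57379) (nat_lit 3) (.e (nat_lit 98334) (nat_lit 18) .nil)))) (.g (nat_lit 0) (.e (nat_lit 281612) (nat_lit 0) .nil) .nil))) 
(.lf (nat_lit 546738) (.g (nat_lit 943) (.e (nat_lit 278566) (nat_lit 16) (.e (nat_lit 286753) (nat_lit 10) (.e (nat_lit 344157) (nat_lit 36) (.e (nat_lit 638999) (nat_lit 8) (.e (nat_lit 172081) (nat_lit 7) (.e (nat_lit 409639) (nat_lit 15) .nil)))))) (.g (nat_lit 1) (.e (nat_lit 283930) (nat_lit 0) .nil) .nil)))))) (.nd (nat_lit 7) (.nd (nat_lit 8) (.nd (nat_lit 9) 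
(.lf (nat_lit 545906) (.g (nat_lit 4693) (.e (nat_lit 114719) (nat_lit 23) (.e (nat_lit 98367) (nat_lit 27) (.e (nat_lit 434231) (nat_lit 23) (.e (nat_lit 532499) (nat_lit 1) (.e (nat_lit 57688) (nat_lit 156) (.e (nat_lit 163874) (nat_lit 3) (.e (nat_lit 204836) (nat_lit 20) .nil))))))) (.g (nat_lit 1) (.e (nat_lit 280536) (nat_lit 0) .nil) .nil))) 
(.lf (nat_lit 546418) (.g (nat_lit 2924) (.e (nat_lit 131123) (nat_lit 12) (.e (nat_lit 385068) (nat_lit 26) (.e (nat_lit 532513) (nat_lit 3) (.e (nat_lit 114698) (nat_lit 11) (.e (nat_lit 426116) (nat_lit 2) (.e (nat_lit 196681) (nat_lit 17) .nil)))))) (.g (nat_lit 1) (.e (nat_lit 282348) (nat_lit 0) .nil) .nil)))) (.nd (nat_lit 9) 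
(.lf (nat_lit 546162) (.g (nat_lit 3513) (.e (nat_lit 123183) (nat_lit 264) (.e (nat_lit 1212) (nat_lit 89) (.e (nat_lit 73782) (nat_lit 32) (.e (nat_lit 2856) (nat_lit 184) (.e (nat_lit 426542) (nat_lit 29) (.e (nat_lit 352316) (nat_lit 24) .nil)))))) (.g (nat_lit 1) (.e (nat_lit 281252) (nat_lit 0) .nil) .nil))) 
(.lf (nat_lit 546674) (.g (nat_lit 2016) (.e (nat_lit 270373) (nat_lit 16) (.e (nat_lit 286735) (nat_lit 3) (.e (nat_lit 98370) (nat_lit 28) (.e (nat_lit 442424) (nat_lit 22) .nil)))) (.g (nat_lit 0) (.e (nat_lit 283788) (nat_lit 0) .nil) .nil))))) (.nd (nat_lit 8) (.nd (nat_lit 9) 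
(.lf (nat_lit 546034) (.g (nat_lit 2151) (.e (nat_lit 122911) (nat_lit 13) (.e (nat_lit 344133) (nat_lit 26) (.e (nat_lit 557091) (nat_lit 12) (.e (nat_lit 163987) (nat_lit 33) .nil)))) (.g (nat_lit 0) (.e (nat_lit 280724) (nat_lit 0) .nil) .nil))) 
(.lf (nat_lit 546546) (.g (nat_lit 3232) (.e (nat_lit 147495) (nat_lit 11) (.e (nat_lit 24604) (nat_lit 2) (.e (nat_lit 90170) (nat_lit 13) (.e (nat_lit 172106) (nat_lit 10) (.e (nat_lit 434244) (nat_lit 28) (.e (nat_lit 573450) (nat_lit 9) (.e (nat_lit 1316) (nat_lit 98) .nil))))))) (.g (nat_lit 1) (.e (nat_lit 283190) (nat_lit 0) .nil) .nil)))) (.nd (nat_lit 9) 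
(.lf (nat_lit 546290) (.g (nat_lit 3657) (.e (nat_lit 131105) (nat_lit 9) (.e (nat_lit 336019) (nat_lit 3) (.e (nat_lit 98350) (nat_lit 24) (.e (nat_lit 409649) (nat_lit 18) (.e (nat_lit 303116) (nat_lit 2) (.e (nat_lit 196681) (nat_lit 17) .nil)))))) (.g (nat_lit 1) (.e (nat_lit 281913) (nat_lit 0) .nil) .nil))) 
(.lf (nat_lit 546802) (.g (nat_lit 4107) (.e (nat_lit 303104) (nat_lit 0) (.e (nat_lit 3238) (nat_lit 197) (.e (nat_lit 532535) (nat_lit 9) (.e (nat_lit 336173) (nat_lit 10) (.e (nat_lit 344117) (nat_lit 21) .nil))))) (.g (nat_lit 0) (.e (nat_lit 284078) (nat_lit 0) .nil) .nil))))))))) (.nd (nat_lit 4) (.nd (nat_lit 5) (.nd (nat_lit 6) (.nd (nat_lit 7) (.nd (nat_lit 8) (.nd (nat_lit 9) 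
(.lf (nat_lit 545802) (.g (nat_lit 2235) (.e (nat_lit 114719) (nat_lit 23) (.e (nat_lit 98334) (nat_lit 18) (.e (nat_lit 164398) (nat_lit 256) (.e (nat_lit 57373) (nat_lit 2) (.e (nat_lit 90167) (nat_lit 13) .nil))))) (.g (nat_lit 0) (.e (nat_lit 280344) (nat_lit 0) .nil) .nil))) 
(.lf (nat_lit 546314) (.g (nat_lit 2940) (.e (nat_lit 131105) (nat_lit 9) (.e (nat_lit 336454) (nat_lit 34) (.e (nat_lit 483365) (nat_lit 18) (.e (nat_lit 57930) (nat_lit 282) (.e (nat_lit 163867) (nat_lit 2) (.e (nat_lit 196681) (nat_lit 17) .nil)))))) (.g (nat_lit 1) (.e (nat_lit 281987) (nat_lit 0) .nil) .nil)))) (.nd (nat_lit 9) 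
(.lf (nat_lit 546058) (.g (nat_lit 4132) (.e (nat_lit 122920) (nat_lit 16) (.e (nat_lit 368676) (nat_lit 21) (.e (nat_lit 516165) (nat_lit 12) (.e (nat_lit 450588) (nat_lit 10) (.e (nat_lit 573473) (nat_lit 12) (.e (nat_lit 57354) (nat_lit 0) (.e (nat_lit 7270) (nat_lit 385) .nil))))))) (.g (nat_lit 1) (.e (nat_lit 280762) (nat_lit 0) .nil) .nil))) 
(.lf (nat_lit 546570) (.g (nat_lit 2933) (.e (nat_lit 147495) (nat_lit 11) (.e (nat_lit 24658) (nat_lit 13) (.e (nat_lit 393300) (nat_lit 27) (.e (nat_lit 491546) (nat_lit 9) (.e (nat_lit 336048) (nat_lit 6) .nil))))) (.g (nat_lit 1) (.e (nat_lit 283225) (nat_lit 0) .nil) .nil))))) (.nd (nat_lit 8) (.nd (nat_lit 9) 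
(.lf (nat_lit 545930) (.g (nat_lit 3113) (.e (nat_lit 114719) (nat_lit 23) (.e (nat_lit 98367) (nat_lit 27) (.e (nat_lit 434232) (nat_lit 23) (.e (nat_lit 532499) (nat_lit 1) (.e (nat_lit 57692) (nat_lit 156) (.e (nat_lit 163874) (nat_lit 3) (.e (nat_lit 204838) (nat_lit 20) .nil))))))) (.g (nat_lit 1) (.e (nat_lit 280576) (nat_lit 0) .nil) .nil))) 
(.lf (nat_lit 546442) (.g (nat_lit 2044) (.e (nat_lit 131127) (nat_lit 13) (.e (nat_lit 393229) (nat_lit 9) (.e (nat_lit 335988) (nat_lit 1) (.e (nat_lit 57927) (nat_lit 282) (.e (nat_lit 163866) (nat_lit 2) (.e (nat_lit 196680) (nat_lit 17) .nil)))))) (.g (nat_lit 1) (.e (nat_lit 282428) (nat_lit 0) .nil) .nil)))) (.nd (nat_lit 9) 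
(.lf (nat_lit 546186) (.g (nat_lit 2876) (.e (nat_lit 123195) (nat_lit 266) (.e (nat_lit 57400) (nat_lit 10) (.e (nat_lit 319490) (nat_lit 0) (.e (nat_lit 5664) (nat_lit 312) (.e (nat_lit 3085) (nat_lit 191) (.e (nat_lit 483386) (nat_lit 23) (.e (nat_lit 336030) (nat_lit 4) .nil))))))) (.g (nat_lit 1) (.e (nat_lit 281295) (nat_lit 0) .nil) .nil))) 
(.lf (nat_lit 546698) (.g (nat_lit 1396) (.e (nat_lit 270373) (nat_lit 16) (.e (nat_lit 286761) (nat_lit 13) (.e (nat_lit 393293) (nat_lit 26) (.e (nat_lit 475201) (nat_lit 40) .nil)))) (.g (nat_lit 0) (.e (nat_lit 283819) (nat_lit 0) .nil) .nil)))))) (.nd (nat_lit 7) (.nd (nat_lit 8) (.nd (nat_lit 9) 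
(.lf (nat_lit 545866) (.g (nat_lit 2874) (.e (nat_lit 114719) (nat_lit 23) (.e (nat_lit 98366) (nat_lit 27) (.e (nat_lit 434231) (nat_lit 23) (.e (nat_lit 532499) (nat_lit 1) (.e (nat_lit 57687) (nat_lit 156) .nil))))) (.g (nat_lit 0) (.e (nat_lit 280458) (nat_lit 0) .nil) .nil))) 
(.lf (nat_lit 546378) (.g (nat_lit 1846) (.e (nat_lit 131116) (nat_lit 9) (.e (nat_lit 336021) (nat_lit 3) (.e (nat_lit 98350) (nat_lit 24) (.e (nat_lit 409617) (nat_lit 10) .nil)))) (.g (nat_lit 0) (.e (nat_lit 282227) (nat_lit 0) .nil) .nil)))) (.nd (nat_lit 9) 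
(.lf (nat_lit 546122) (.g (nat_lit 1513) (.e (nat_lit 123025) (nat_lit 127) (.e (nat_lit 229415) (nat_lit 15) (.e (nat_lit 450563) (nat_lit 0) (.e (nat_lit 6745) (nat_lit 365) .nil)))) (.g (nat_lit 0) (.e (nat_lit 280977) (nat_lit 0) .nil) .nil))) 
(.lf (nat_lit 546634) (.g (nat_lit 1976) (.e (nat_lit 163584) (nat_lit 4) (.e (nat_lit 172120) (nat_lit 12) (.e (nat_lit 475211) (nat_lit 41) (.e (nat_lit 712752) (nat_lit 29) (.e (nat_lit 442382) (nat_lit 8) .nil))))) (.g (nat_lit 0) (.e (nat_lit 283528) (nat_lit 0) .nil) .nil))))) (.nd (nat_lit 8) (.nd (nat_lit 9) 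
(.lf (nat_lit 545994) (.g (nat_lit 2862) (.e (nat_lit 114721) (nat_lit 24) (.e (nat_lit 106536) (nat_lit 11) (.e (nat_lit 16456) (nat_lit 12) (.e (nat_lit 475214) (nat_lit 42) (.e (nat_lit 728832) (nat_lit 1) .nil))))) (.g (nat_lit 0) (.e (nat_lit 280652) (nat_lit 0) .nil) .nil))) 
(.lf (nat_lit 546506) (.g (nat_lit 2778) (.e (nat_lit 139285) (nat_lit 9) (.e (nat_lit 2830) (nat_lit 182) (.e (nat_lit 409645) (nat_lit 18) (.e (nat_lit 303117) (nat_lit 2) (.e (nat_lit 196674) (nat_lit 15) .nil))))) (.g (nat_lit 0) (.e (nat_lit 282999) (nat_lit 0) .nil) .nil)))) (.nd (nat_lit 9) 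
(.lf (nat_lit 546250) (.g (nat_lit 2699) (.e (nat_lit 131096) (nat_lit 3) (.e (nat_lit 98335) (nat_lit 18) (.e (nat_lit 164179) (nat_lit 154) (.e (nat_lit 57378) (nat_lit 3) (.e (nat_lit 98341) (nat_lit 20) .nil))))) (.g (nat_lit 0) (.e (nat_lit 281791) (nat_lit 0) .nil) .nil))) 
(.lf (nat_lit 546762) (.g (nat_lit 1566) (.e (nat_lit 278567) (nat_lit 16) (.e (nat_lit 286734) (nat_lit 3) (.e (nat_lit 98372) (nat_lit 29) (.e (nat_lit 450576) (nat_lit 2) .nil)))) (.g (nat_lit 0) (.e (nat_lit 283955) (nat_lit 0) .nil) .nil))))))) (.nd (nat_lit 6) (.nd (nat_lit 7) (.nd (nat_lit 8) (.nd (nat_lit 9) 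
(.lf (nat_lit 545834) (.g (nat_lit 4720) (.e (nat_lit 114719) (nat_lit 23) (.e (nat_lit 98356) (nat_lit 26) (.e (nat_lit 426436) (nat_lit 18) (.e (nat_lit 98335) (nat_lit 18) (.e (nat_lit 164330) (nat_lit 230) (.e (nat_lit 163872) (nat_lit 3) (.e (nat_lit 204838) (nat_lit 20) .nil))))))) (.g (nat_lit 1) (.e (nat_lit 280389) (nat_lit 0) .nil) .nil))) 
(.lf (nat_lit 546346) (.g (nat_lit 2266) (.e (nat_lit 131109) (nat_lit 9) (.e (nat_lit 336019) (nat_lit 3) (.e (nat_lit 98350) (nat_lit 24) (.e (nat_lit 409648) (nat_lit 18) (.e (nat_lit 303108) (nat_lit 0) (.e (nat_lit 3107) (nat_lit 193) (.e (nat_lit 500089) (nat_lit 22) .nil))))))) (.g (nat_lit 1) (.e (nat_lit 282096) (nat_lit 0) .nil) .nil)))) (.nd (nat_lit 9) 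
(.lf (nat_lit 546090) (.g (nat_lit 3762) (.e (nat_lit 122936) (nat_lit 23) (.e (nat_lit 516131) (nat_lit 3) (.e (nat_lit 221219) (nat_lit 24) (.e (nat_lit 213019) (nat_lit 9) (.e (nat_lit 2610) (nat_lit 163) (.e (nat_lit 164347) (nat_lit 240) (.e (nat_lit 2640) (nat_lit 165) (.e (nat_lit 188160) (nat_lit 38) .nil)))))))) (.g (nat_lit 1) (.e (nat_lit 280816) (nat_lit 0) .nil) .nil))) 
(.lf (nat_lit 546602) (.g (nat_lit 733) (.e (nat_lit 147512) (nat_lit 14) (.e (nat_lit 2797) (nat_lit 180) (.e (nat_lit 303133) (nat_lit 9) .nil))) (.g (nat_lit 0) (.e (nat_lit 283290) (nat_lit 0) .nil) .nil))))) (.nd (nat_lit 8) (.nd (nat_lit 9) 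
(.lf (nat_lit 545962) (.g (nat_lit 2734) (.e (nat_lit 114719) (nat_lit 23) (.e (nat_lit 98384) (nat_lit 32) (.e (nat_lit 475179) (nat_lit 24) (.e (nat_lit 516117) (nat_lit 1) (.e (nat_lit 164304) (nat_lit 226) .nil))))) (.g (nat_lit 0) (.e (nat_lit 280614) (nat_lit 0) .nil) .nil))) 
(.lf (nat_lit 546474) (.g (nat_lit 1535) (.e (nat_lit 131138) (nat_lit 27) (.e (nat_lit 426347) (nat_lit 14) (.e (nat_lit 491549) (nat_lit 9) (.e (nat_lit 336421) (nat_lit 28) (.e (nat_lit 442112) (nat_lit 7) .nil))))) (.g (nat_lit 1) (.e (nat_lit 282633) (nat_lit 0) .nil) .nil)))) (.nd (nat_lit 9) 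
(.lf (nat_lit 546218) (.g (nat_lit 2362) (.e (nat_lit 123229) (nat_lit 282) (.e (nat_lit 163867) (nat_lit 2) (.e (nat_lit 196670) (nat_lit 14) (.e (nat_lit 73746) (nat_lit 3) (.e (nat_lit 516131) (nat_lit 3) .nil))))) (.g (nat_lit 0) (.e (nat_lit 281487) (nat_lit 0) .nil) .nil))) 
(.lf (nat_lit 546730) (.g (nat_lit 2419) (.e (nat_lit 278566) (nat_lit 16) (.e (nat_lit 286735) (nat_lit 3) (.e (nat_lit 98373) (nat_lit 29) (.e (nat_lit 450563) (nat_lit 0) .nil)))) (.g (nat_lit 0) (.e (nat_lit 283918) (nat_lit 0) .nil) .nil)))))) (.nd (nat_lit 7) (.nd (nat_lit 8) (.nd (nat_lit 9) 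
(.lf (nat_lit 545898) (.g (nat_lit 1817) (.e (nat_lit 114719) (nat_lit 23) (.e (nat_lit 98367) (nat_lit 27) (.e (nat_lit 434230) (nat_lit 23) (.e (nat_lit 532503) (nat_lit 1) (.e (nat_lit 57688) (nat_lit 156) .nil))))) (.g (nat_lit 0) (.e (nat_lit 280509) (nat_lit 0) .nil) .nil))) 
(.lf (nat_lit 546410) (.g (nat_lit 2799) (.e (nat_lit 131123) (nat_lit 12) (.e (nat_lit 385066) (nat_lit 26) (.e (nat_lit 532513) (nat_lit 3) (.e (nat_lit 114698) (nat_lit 11) (.e (nat_lit 426114) (nat_lit 2) (.e (nat_lit 196681) (nat_lit 17) .nil)))))) (.g (nat_lit 1) (.e (nat_lit 282336) (nat_lit 0) .nil) .nil)))) (.nd (nat_lit 9) 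
(.lf (nat_lit 546154) (.g (nat_lit 1678) (.e (nat_lit 123182) (nat_lit 264) (.e (nat_lit 1183) (nat_lit 87) (.e (nat_lit 57480) (nat_lit 28) (.e (nat_lit 557097) (nat_lit 13) .nil)))) (.g (nat_lit 0) (.e (nat_lit 281244) (nat_lit 0) .nil) .nil))) 
(.lf (nat_lit 546666) (.g (nat_lit 810) (.e (nat_lit 270373) (nat_lit 16) (.e (nat_lit 286733) (nat_lit 2) (.e (nat_lit 90178) (nat_lit 15) .nil))) (.g (nat_lit 0) (.e (nat_lit 283778) (nat_lit 0) .nil) .nil))))) (.nd (nat_lit 8) (.nd (nat_lit 9) 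
(.lf (nat_lit 546026) (.g (nat_lit 3209) (.e (nat_lit 122906) (nat_lit 12) (.e (nat_lit 336001) (nat_lit 2) (.e (nat_lit 90170) (nat_lit 13) (.e (nat_lit 172113) (nat_lit 10) (.e (nat_lit 434248) (nat_lit 28) (.e (nat_lit 573475) (nat_lit 12) (.e (nat_lit 57354) (nat_lit 0) (.e (nat_lit 7272) (nat_lit 385) .nil)))))))) (.g (nat_lit 1) (.e (nat_lit 280714) (nat_lit 0) .nil) .nil))) 
(.lf (nat_lit 546538) (.g (nat_lit 4160) (.e (nat_lit 147494) (nat_lit 11) (.e (nat_lit 24665) (nat_lit 14) (.e (nat_lit 401451) (nat_lit 12) (.e (nat_lit 475212) (nat_lit 42) (.e (nat_lit 720956) (nat_lit 25) (.e (nat_lit 114727) (nat_lit 28) .nil)))))) (.g (nat_lit 1) (.e (nat_lit 283175) (nat_lit 0) .nil) .nil)))) (.nd (nat_lit 9) 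
(.lf (nat_lit 546282) (.g (nat_lit 4003) (.e (nat_lit 131104) (nat_lit 9) (.e (nat_lit 336454) (nat_lit 34) (.e (nat_lit 483365) (nat_lit 18) (.e (nat_lit 57924) (nat_lit 282) .nil)))) (.g (nat_lit 0) (.e (nat_lit 281902) (nat_lit 0) .nil) .nil))) 
(.lf (nat_lit 546794) (.g (nat_lit 2547) (.e (nat_lit 303104) (nat_lit 0) (.e (nat_lit 3238) (nat_lit 197) (.e (nat_lit 532535) (nat_lit 9) (.e (nat_lit 336099) (nat_lit 9) .nil)))) (.g (nat_lit 0) (.e (nat_lit 284067) (nat_lit 0) .nil) .nil)))))))) (.nd (nat_lit 5) (.nd (nat_lit 6) (.nd (nat_lit 7) (.nd (nat_lit 8) (.nd (nat_lit 9) 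
(.lf (nat_lit 545818) (.g (nat_lit 1570) (.e (nat_lit 114719) (nat_lit 23) (.e (nat_lit 98350) (nat_lit 24) (.e (nat_lit 409616) (nat_lit 10) (.e (nat_lit 632) (nat_lit 50) .nil)))) (.g (nat_lit 0) (.e (nat_lit 280369) (nat_lit 0) .nil) .nil))) 
(.lf (nat_lit 546330) (.g (nat_lit 3283) (.e (nat_lit 131107) (nat_lit 9) (.e (nat_lit 336454) (nat_lit 34) (.e (nat_lit 483365) (nat_lit 18) (.e (nat_lit 57929) (nat_lit 282) .nil)))) (.g (nat_lit 0) (.e (nat_lit 282019) (nat_lit 0) .nil) .nil)))) (.nd (nat_lit 9) 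
(.lf (nat_lit 546074) (.g (nat_lit 2596) (.e (nat_lit 122936) (nat_lit 23) (.e (nat_lit 516117) (nat_lit 1) (.e (nat_lit 164398) (nat_lit 256) (.e (nat_lit 57372) (nat_lit 2) (.e (nat_lit 90174) (nat_lit 14) .nil))))) (.g (nat_lit 0) (.e (nat_lit 280797) (nat_lit 0) .nil) .nil))) 
(.lf (nat_lit 546586) (.g (nat_lit 4211) (.e (nat_lit 147496) (nat_lit 11) (.e (nat_lit 24604) (nat_lit 2) (.e (nat_lit 90170) (nat_lit 13) (.e (nat_lit 172106) (nat_lit 10) (.e (nat_lit 434244) (nat_lit 28) (.e (nat_lit 573451) (nat_lit 9) (.e (nat_lit 1310) (nat_lit 98) .nil))))))) (.g (nat_lit 1) (.e (nat_lit 283243) (nat_lit 0) .nil) .nil))))) (.nd (nat_lit 8) (.nd (nat_lit 9) 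
(.lf (nat_lit 545946) (.g (nat_lit 599) (.e (nat_lit 114719) (nat_lit 23) (.e (nat_lit 98384) (nat_lit 32) (.e (nat_lit 475177) (nat_lit 24) .nil))) (.g (nat_lit 0) (.e (nat_lit 280598) (nat_lit 0) .nil) .nil))) 
(.lf (nat_lit 546458) (.g (nat_lit 3455) (.e (nat_lit 131133) (nat_lit 15) (.e (nat_lit 3304) (nat_lit 202) (.e (nat_lit 573482) (nat_lit 13) (.e (nat_lit 65604) (nat_lit 9) (.e (nat_lit 336013) (nat_lit 2) (.e (nat_lit 90165) (nat_lit 12) (.e (nat_lit 171776) (nat_lit 194) .nil))))))) (.g (nat_lit 1) (.e (nat_lit 282512) (nat_lit 0) .nil) .nil)))) (.nd (nat_lit 9) 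
(.lf (nat_lit 546202) (.g (nat_lit 2571) (.e (nat_lit 123197) (nat_lit 266) (.e (nat_lit 57436) (nat_lit 17) (.e (nat_lit 376835) (nat_lit 0) (.e (nat_lit 3632) (nat_lit 227) (.e (nat_lit 778327) (nat_lit 6) (.e (nat_lit 81959) (nat_lit 24) .nil)))))) (.g (nat_lit 1) (.e (nat_lit 281323) (nat_lit 0) .nil) .nil))) 
(.lf (nat_lit 546714) (.g (nat_lit 2782) (.e (nat_lit 270354) (nat_lit 8) (.e (nat_lit 303119) (nat_lit 3) (.e (nat_lit 204869) (nat_lit 29) (.e (nat_lit 360462) (nat_lit 1) .nil)))) (.g (nat_lit 0) (.e (nat_lit 283852) (nat_lit 0) .nil) .nil)))))) (.nd (nat_lit 7) (.nd (nat_lit 8) (.nd (nat_lit 9) 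
(.lf (nat_lit 545882) (.g (nat_lit 4281) (.e (nat_lit 114719) (nat_lit 23) (.e (nat_lit 98366) (nat_lit 27) (.e (nat_lit 434231) (nat_lit 23) (.e (nat_lit 532500) (nat_lit 1) (.e (nat_lit 57691) (nat_lit 156) (.e (nat_lit 163874) (nat_lit 3) (.e (nat_lit 204837) (nat_lit 20) .nil))))))) (.g (nat_lit 1) (.e (nat_lit 280487) (nat_lit 0) .nil) .nil))) 
(.lf (nat_lit 546394) (.g (nat_lit 2216) (.e (nat_lit 131120) (nat_lit 12) (.e (nat_lit 385068) (nat_lit 26) (.e (nat_lit 532515) (nat_lit 3) (.e (nat_lit 114697) (nat_lit 11) (.e (nat_lit 426121) (nat_lit 2) (.e (nat_lit 196681) (nat_lit 17) .nil)))))) (.g (nat_lit 1) (.e (nat_lit 282262) (nat_lit 0) .nil) .nil)))) (.nd (nat_lit 9) 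
(.lf (nat_lit 546138) (.g (nat_lit 1230) (.e (nat_lit 123153) (nat_lit 250) (.e (nat_lit 2650) (nat_lit 166) (.e (nat_lit 188455) (nat_lit 24) (.e (nat_lit 229638) (nat_lit 228) .nil)))) (.g (nat_lit 0) (.e (nat_lit 281187) (nat_lit 0) .nil) .nil))) 
(.lf (nat_lit 546650) (.g (nat_lit 509) (.e (nat_lit 163584) (nat_lit 6) (.e (nat_lit 188435) (nat_lit 20) (.e (nat_lit 3409) (nat_lit 212) (.e (nat_lit 655380) (nat_lit 6) (.e (nat_lit 196352) (nat_lit 8) .nil))))) (.g (nat_lit 0) (.e (nat_lit 283694) (nat_lit 0) .nil) .nil))))) (.nd (nat_lit 8) (.nd (nat_lit 9) 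
(.lf (nat_lit 546010) (.g (nat_lit 2187) (.e (nat_lit 122899) (nat_lit 8) (.e (nat_lit 147496) (nat_lit 11) (.e (nat_lit 24617) (nat_lit 7) (.e (nat_lit 319533) (nat_lit 16) .nil)))) (.g (nat_lit 0) (.e (nat_lit 280697) (nat_lit 0) .nil) .nil))) 
(.lf (nat_lit 546522) (.g (nat_lit 2682) (.e (nat_lit 139289) (nat_lit 9) (.e (nat_lit 3102) (nat_lit 192) (.e (nat_lit 491560) (nat_lit 10) (.e (nat_lit 344115) (nat_lit 20) (.e (nat_lit 507907) (nat_lit 0) (.e (nat_lit 5401) (nat_lit 302) (.e (nat_lit 65577) (nat_lit 5) .nil))))))) (.g (nat_lit 1) (.e (nat_lit 283060) (nat_lit 0) .nil) .nil)))) (.nd (nat_lit 9) 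
(.lf (nat_lit 546266) (.g (nat_lit 2483) (.e (nat_lit 131098) (nat_lit 3) (.e (nat_lit 98333) (nat_lit 18) (.e (nat_lit 164179) (nat_lit 154) (.e (nat_lit 57379) (nat_lit 3) (.e (nat_lit 98340) (nat_lit 20) .nil))))) (.g (nat_lit 0) (.e (nat_lit 281842) (nat_lit 0) .nil) .nil))) 
(.lf (nat_lit 546778) (.g (nat_lit 1786) (.e (nat_lit 278546) (nat_lit 8) (.e (nat_lit 303137) (nat_lit 10) (.e (nat_lit 434268) (nat_lit 36) (.e (nat_lit 639020) (nat_lit 16) (.e (nat_lit 65585) (nat_lit 7) (.e (nat_lit 319527) (nat_lit 15) .nil)))))) (.g (nat_lit 1) (.e (nat_lit 284024) (nat_lit 0) .nil) .nil))))))) (.nd (nat_lit 6) (.nd (nat_lit 7) (.nd (nat_lit 8) (.nd (nat_lit 9) 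
(.lf (nat_lit 545850) (.g (nat_lit 2217) (.e (nat_lit 114719) (nat_lit 23) (.e (nat_lit 98365) (nat_lit 26) (.e (nat_lit 426116) (nat_lit 2) (.e (nat_lit 196660) (nat_lit 12) (.e (nat_lit 57569) (nat_lit 53) .nil))))) (.g (nat_lit 0) (.e (nat_lit 280408) (nat_lit 0) .nil) .nil))) 
(.lf (nat_lit 546362) (.g (nat_lit 2707) (.e (nat_lit 131109) (nat_lit 9) (.e (nat_lit 336324) (nat_lit 18) (.e (nat_lit 204838) (nat_lit 20) (.e (nat_lit 114697) (nat_lit 11) (.e (nat_lit 426122) (nat_lit 2) (.e (nat_lit 196681) (nat_lit 17) .nil)))))) (.g (nat_lit 1) (.e (nat_lit 282158) (nat_lit 0) .nil) .nil)))) (.nd (nat_lit 9) 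
(.lf (nat_lit 546106) (.g (nat_lit 3127) (.e (nat_lit 122981) (nat_lit 55) (.e (nat_lit 778466) (nat_lit 11) (.e (nat_lit 24617) (nat_lit 7) (.e (nat_lit 319533) (nat_lit 16) (.e (nat_lit 286753) (nat_lit 10) .nil))))) (.g (nat_lit 0) (.e (nat_lit 280860) (nat_lit 0) .nil) .nil))) 
(.lf (nat_lit 546618) (.g (nat_lit 1635) (.e (nat_lit 155652) (nat_lit 0) (.e (nat_lit 3003) (nat_lit 186) (.e (nat_lit 442374) (nat_lit 0) (.e (nat_lit 2059) (nat_lit 142) (.e (nat_lit 704599) (nat_lit 6) (.e (nat_lit 196352) (nat_lit 8) .nil)))))) (.g (nat_lit 1) (.e (nat_lit 283395) (nat_lit 0) .nil) .nil))))) (.nd (nat_lit 8) (.nd (nat_lit 9) 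
(.lf (nat_lit 545978) (.g (nat_lit 3095) (.e (nat_lit 114719) (nat_lit 23) (.e (nat_lit 98386) (nat_lit 32) (.e (nat_lit 475179) (nat_lit 24) (.e (nat_lit 516117) (nat_lit 1) (.e (nat_lit 164305) (nat_lit 226) .nil))))) (.g (nat_lit 0) (.e (nat_lit 280634) (nat_lit 0) .nil) .nil))) 
(.lf (nat_lit 546490) (.g (nat_lit 1996) (.e (nat_lit 131140) (nat_lit 27) (.e (nat_lit 426316) (nat_lit 12) (.e (nat_lit 475199) (nat_lit 40) (.e (nat_lit 704596) (nat_lit 5) (.e (nat_lit 188160) (nat_lit 39) .nil))))) (.g (nat_lit 1) (.e (nat_lit 282713) (nat_lit 0) .nil) .nil)))) (.nd (nat_lit 9) 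
(.lf (nat_lit 546234) (.g (nat_lit 1852) (.e (nat_lit 131089) (nat_lit 1) (.e (nat_lit 57931) (nat_lit 282) (.e (nat_lit 163943) (nat_lit 19) (.e (nat_lit 483372) (nat_lit 21) .nil)))) (.g (nat_lit 0) (.e (nat_lit 281654) (nat_lit 0) .nil) .nil))) 
(.lf (nat_lit 546746) (.g (nat_lit 1642) (.e (nat_lit 278566) (nat_lit 16) (.e (nat_lit 286756) (nat_lit 10) (.e (nat_lit 344156) (nat_lit 36) (.e (nat_lit 638998) (nat_lit 8) (.e (nat_lit 172081) (nat_lit 7) .nil))))) (.g (nat_lit 0) (.e (nat_lit 283938) (nat_lit 0) .nil) .nil)))))) (.nd (nat_lit 7) (.nd (nat_lit 8) (.nd (nat_lit 9) 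
(.lf (nat_lit 545914) (.g (nat_lit 3197) (.e (nat_lit 114719) (nat_lit 23) (.e (nat_lit 98367) (nat_lit 27) (.e (nat_lit 434231) (nat_lit 23) (.e (nat_lit 532500) (nat_lit 1) (.e (nat_lit 57685) (nat_lit 156) (.e (nat_lit 163873) (nat_lit 3) (.e (nat_lit 204838) (nat_lit 20) .nil))))))) (.g (nat_lit 1) (.e (nat_lit 280558) (nat_lit 0) .nil) .nil))) 
(.lf (nat_lit 546426) (.g (nat_lit 2085) (.e (nat_lit 131124) (nat_lit 13) (.e (nat_lit 393225) (nat_lit 9) (.e (nat_lit 335995) (nat_lit 1) (.e (nat_lit 57931) (nat_lit 282) .nil)))) (.g (nat_lit 0) (.e (nat_lit 282371) (nat_lit 0) .nil) .nil)))) (.nd (nat_lit 9) 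
(.lf (nat_lit 546170) (.g (nat_lit 2764) (.e (nat_lit 123194) (nat_lit 266) (.e (nat_lit 57379) (nat_lit 3) (.e (nat_lit 98366) (nat_lit 27) (.e (nat_lit 434248) (nat_lit 28) (.e (nat_lit 573482) (nat_lit 13) .nil))))) (.g (nat_lit 0) (.e (nat_lit 281269) (nat_lit 0) .nil) .nil))) 
(.lf (nat_lit 546682) (.g (nat_lit 3247) (.e (nat_lit 270373) (nat_lit 16) (.e (nat_lit 286735) (nat_lit 3) (.e (nat_lit 98373) (nat_lit 29) (.e (nat_lit 450563) (nat_lit 0) (.e (nat_lit 3996) (nat_lit 240) .nil))))) (.g (nat_lit 0) (.e (nat_lit 283797) (nat_lit 0) .nil) .nil))))) (.nd (nat_lit 8) (.nd (nat_lit 9) 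
(.lf (nat_lit 546042) (.g (nat_lit 2786) (.e (nat_lit 122913) (nat_lit 13) (.e (nat_lit 344129) (nat_lit 26) (.e (nat_lit 557067) (nat_lit 9) (.e (nat_lit 2828) (nat_lit 182) .nil)))) (.g (nat_lit 0) (.e (nat_lit 280737) (nat_lit 0) .nil) .nil))) 
(.lf (nat_lit 546554) (.g (nat_lit 2391) (.e (nat_lit 147495) (nat_lit 11) (.e (nat_lit 24608) (nat_lit 3) (.e (nat_lit 98372) (nat_lit 29) (.e (nat_lit 450586) (nat_lit 10) (.e (nat_lit 573452) (nat_lit 9) .nil))))) (.g (nat_lit 0) (.e (nat_lit 283199) (nat_lit 0) .nil) .nil)))) (.nd (nat_lit 9) 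
(.lf (nat_lit 546298) (.g (nat_lit 2790) (.e (nat_lit 131105) (nat_lit 9) (.e (nat_lit 336324) (nat_lit 18) (.e (nat_lit 204838) (nat_lit 20) (.e (nat_lit 114697) (nat_lit 11) (.e (nat_lit 426114) (nat_lit 2) (.e (nat_lit 196681) (nat_lit 17) .nil)))))) (.g (nat_lit 1) (.e (nat_lit 281939) (nat_lit 0) .nil) .nil))) 
(.lf (nat_lit 546810) (.g (nat_lit 1678) (.e (nat_lit 303104) (nat_lit 0) (.e (nat_lit 3238) (nat_lit 197) (.e (nat_lit 532560) (nat_lit 14) (.e (nat_lit 376867) (nat_lit 23) .nil)))) (.g (nat_lit 0) (.e (nat_lit 284090) (nat_lit 0) .nil) .nil)))))))))) (.nd (nat_lit 3) (.nd (nat_lit 4) (.nd (nat_lit 5) (.nd (nat_lit 6) (.nd (nat_lit 7) (.nd (nat_lit 8) (.nd (nat_lit 9) 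
(.lf (nat_lit 545798) (.g (nat_lit 4851) (.e (nat_lit 114719) (nat_lit 23) (.e (nat_lit 98334) (nat_lit 18) (.e (nat_lit 164330) (nat_lit 230) (.e (nat_lit 163869) (nat_lit 2) (.e (nat_lit 196656) (nat_lit 11) (.e (nat_lit 16416) (nat_lit 3) (.e (nat_lit 204837) (nat_lit 20) .nil))))))) (.g (nat_lit 1) (.e (nat_lit 280332) (nat_lit 0) .nil) .nil))) 
(.lf (nat_lit 546310) (.g (nat_lit 2556) (.e (nat_lit 131105) (nat_lit 9) (.e (nat_lit 336454) (nat_lit 34) (.e (nat_lit 483364) (nat_lit 18) (.e (nat_lit 57929) (nat_lit 282) (.e (nat_lit 163869) (nat_lit 2) (.e (nat_lit 196681) (nat_lit 17) .nil)))))) (.g (nat_lit 1) (.e (nat_lit 281974) (nat_lit 0) .nil) .nil)))) (.nd (nat_lit 9) 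
(.lf (nat_lit 546054) (.g (nat_lit 3383) (.e (nat_lit 122916) (nat_lit 14) (.e (nat_lit 352277) (nat_lit 11) (.e (nat_lit 426182) (nat_lit 8) (.e (nat_lit 417820) (nat_lit 10) (.e (nat_lit 5626) (nat_lit 312) (.e (nat_lit 2612) (nat_lit 163) (.e (nat_lit 164185) (nat_lit 155) .nil))))))) (.g (nat_lit 1) (.e (nat_lit 280754) (nat_lit 0) .nil) .nil))) 
(.lf (nat_lit 546566) (.g (nat_lit 2281) (.e (nat_lit 147495) (nat_lit 11) (.e (nat_lit 24654) (nat_lit 13) (.e (nat_lit 393300) (nat_lit 27) (.e (nat_lit 491546) (nat_lit 9) (.e (nat_lit 336048) (nat_lit 6) .nil))))) (.g (nat_lit 1) (.e (nat_lit 283213) (nat_lit 0) .nil) .nil))))) (.nd (nat_lit 8) (.nd (nat_lit 9) 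
(.lf (nat_lit 545926) (.g (nat_lit 1539) (.e (nat_lit 114719) (nat_lit 23) (.e (nat_lit 98367) (nat_lit 27) (.e (nat_lit 434231) (nat_lit 23) (.e (nat_lit 532575) (nat_lit 17) .nil)))) (.g (nat_lit 0) (.e (nat_lit 280572) (nat_lit 0) .nil) .nil))) 
(.lf (nat_lit 546438) (.g (nat_lit 2697) (.e (nat_lit 131126) (nat_lit 13) (.e (nat_lit 393229) (nat_lit 9) (.e (nat_lit 335995) (nat_lit 1) (.e (nat_lit 57931) (nat_lit 282) (.e (nat_lit 163866) (nat_lit 2) .nil))))) (.g (nat_lit 0) (.e (nat_lit 282418) (nat_lit 0) .nil) .nil)))) (.nd (nat_lit 9) 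
(.lf (nat_lit 546182) (.g (nat_lit 2878) (.e (nat_lit 123195) (nat_lit 266) (.e (nat_lit 57400) (nat_lit 10) (.e (nat_lit 319490) (nat_lit 0) (.e (nat_lit 5664) (nat_lit 312) (.e (nat_lit 2852) (nat_lit 184) (.e (nat_lit 426556) (nat_lit 32) (.e (nat_lit 376870) (nat_lit 24) .nil))))))) (.g (nat_lit 1) (.e (nat_lit 281291) (nat_lit 0) .nil) .nil))) 
(.lf (nat_lit 546694) (.g (nat_lit 1865) (.e (nat_lit 270373) (nat_lit 16) (.e (nat_lit 286761) (nat_lit 13) (.e (nat_lit 393291) (nat_lit 26) (.e (nat_lit 475220) (nat_lit 44) .nil)))) (.g (nat_lit 0) (.e (nat_lit 283815) (nat_lit 0) .nil) .nil)))))) (.nd (nat_lit 7) (.nd (nat_lit 8) (.nd (nat_lit 9) 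
(.lf (nat_lit 545862) (.g (nat_lit 3294) (.e (nat_lit 114719) (nat_lit 23) (.e (nat_lit 98366) (nat_lit 27) (.e (nat_lit 434231) (nat_lit 23) (.e (nat_lit 532483) (nat_lit 0) (.e (nat_lit 1036) (nat_lit 81) .nil))))) (.g (nat_lit 0) (.e (nat_lit 280440) (nat_lit 0) .nil) .nil))) 
(.lf (nat_lit 546374) (.g (nat_lit 823) (.e (nat_lit 131116) (nat_lit 9) (.e (nat_lit 335988) (nat_lit 1) (.e (nat_lit 57623) (nat_lit 128) .nil))) (.g (nat_lit 0) (.e (nat_lit 282213) (nat_lit 0) .nil) .nil)))) (.nd (nat_lit 9) 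
(.lf (nat_lit 546118) (.g (nat_lit 3312) (.e (nat_lit 123013) (nat_lit 116) (.e (nat_lit 778466) (nat_lit 11) (.e (nat_lit 24617) (nat_lit 7) (.e (nat_lit 319533) (nat_lit 16) (.e (nat_lit 286753) (nat_lit 10) .nil))))) (.g (nat_lit 0) (.e (nat_lit 280964) (nat_lit 0) .nil) .nil))) 
(.lf (nat_lit 546630) (.g (nat_lit 1279) (.e (nat_lit 163584) (nat_lit 4) (.e (nat_lit 172120) (nat_lit 12) (.e (nat_lit 475198) (nat_lit 40) (.e (nat_lit 704598) (nat_lit 6) .nil)))) (.g (nat_lit 0) (.e (nat_lit 283522) (nat_lit 0) .nil) .nil))))) (.nd (nat_lit 8) (.nd (nat_lit 9) 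
(.lf (nat_lit 545990) (.g (nat_lit 1973) (.e (nat_lit 114720) (nat_lit 24) (.e (nat_lit 106534) (nat_lit 11) (.e (nat_lit 16425) (nat_lit 7) (.e (nat_lit 409644) (nat_lit 18) .nil)))) (.g (nat_lit 0) (.e (nat_lit 280646) (nat_lit 0) .nil) .nil))) 
(.lf (nat_lit 546502) (.g (nat_lit 776) (.e (nat_lit 139280) (nat_lit 4) (.e (nat_lit 65620) (nat_lit 10) (.e (nat_lit 344183) (nat_lit 49) (.e (nat_lit 819221) (nat_lit 6) (.e (nat_lit 196352) (nat_lit 7) .nil))))) (.g (nat_lit 1) (.e (nat_lit 282958) (nat_lit 0) .nil) .nil)))) (.nd (nat_lit 9) 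
(.lf (nat_lit 546246) (.g (nat_lit 1984) (.e (nat_lit 131096) (nat_lit 3) (.e (nat_lit 98334) (nat_lit 18) (.e (nat_lit 164181) (nat_lit 154) (.e (nat_lit 57379) (nat_lit 3) (.e (nat_lit 98341) (nat_lit 20) .nil))))) (.g (nat_lit 0) (.e (nat_lit 281778) (nat_lit 0) .nil) .nil))) 
(.lf (nat_lit 546758) (.g (nat_lit 2129) (.e (nat_lit 278567) (nat_lit 16) (.e (nat_lit 286734) (nat_lit 3) (.e (nat_lit 98359) (nat_lit 26) (.e (nat_lit 426211) (nat_lit 9) (.e (nat_lit 426125) (nat_lit 2) (.e (nat_lit 204544) (nat_lit 18) (.e (nat_lit 2769) (nat_lit 177) .nil))))))) (.g (nat_lit 1) (.e (nat_lit 283951) (nat_lit 0) .nil) .nil))))))) 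
(.nd (nat_lit 6) (.nd (nat_lit 7) (.nd (nat_lit 8) (.nd (nat_lit 9) 
(.lf (nat_lit 545830) (.g (nat_lit 3004) (.e (nat_lit 114719) (nat_lit 23) (.e (nat_lit 98356) (nat_lit 26) (.e (nat_lit 426436) (nat_lit 18) (.e (nat_lit 98335) (nat_lit 18) (.e (nat_lit 164305) (nat_lit 226) .nil))))) (.g (nat_lit 0) (.e (nat_lit 280384) (nat_lit 0) .nil) .nil))) 
(.lf (nat_lit 546342) (.g (nat_lit 441) (.e (nat_lit 131109) (nat_lit 9) (.e (nat_lit 336019) (nat_lit 3) (.e (nat_lit 98350) (nat_lit 24) .nil))) (.g (nat_lit 0) (.e (nat_lit 282080) (nat_lit 0) .nil) .nil)))) (.nd (nat_lit 9) 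
(.lf (nat_lit 546086) (.g (nat_lit 3175) (.e (nat_lit 122936) (nat_lit 23) (.e (nat_lit 516131) (nat_lit 3) (.e (nat_lit 221219) (nat_lit 24) (.e (nat_lit 213022) (nat_lit 9) (.e (nat_lit 2610) (nat_lit 163) (.e (nat_lit 164347) (nat_lit 240) (.e (nat_lit 2640) (nat_lit 165) (.e (nat_lit 188160) (nat_lit 38) .nil)))))))) (.g (nat_lit 1) (.e (nat_lit 280812) (nat_lit 0) .nil) .nil))) 
(.lf (nat_lit 546598) (.g (nat_lit 1422) (.e (nat_lit 147496) (nat_lit 11) (.e (nat_lit 24617) (nat_lit 7) (.e (nat_lit 319490) (nat_lit 0) (.e (nat_lit 888) (nat_lit 75) .nil)))) (.g (nat_lit 0) (.e (nat_lit 283257) (nat_lit 0) .nil) .nil))))) (.nd (nat_lit 8) (.nd (nat_lit 9) 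
(.lf (nat_lit 545958) (.g (nat_lit 5122) (.e (nat_lit 114719) (nat_lit 23) (.e (nat_lit 98384) (nat_lit 32) (.e (nat_lit 475179) (nat_lit 24) (.e (nat_lit 516115) (nat_lit 1) (.e (nat_lit 164327) (nat_lit 230) (.e (nat_lit 163875) (nat_lit 3) (.e (nat_lit 204837) (nat_lit 20) .nil))))))) (.g (nat_lit 1) (.e (nat_lit 280610) (nat_lit 0) .nil) .nil))) 
(.lf (nat_lit 546470) (.g (nat_lit 633) (.e (nat_lit 131136) (nat_lit 27) (.e (nat_lit 426315) (nat_lit 12) (.e (nat_lit 475209) (nat_lit 41) .nil))) (.g (nat_lit 0) (.e (nat_lit 282597) (nat_lit 0) .nil) .nil)))) (.nd (nat_lit 9) 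
(.lf (nat_lit 546214) (.g (nat_lit 2797) (.e (nat_lit 123213) (nat_lit 274) (.e (nat_lit 65637) (nat_lit 15) (.e (nat_lit 3748) (nat_lit 228) (.e (nat_lit 786483) (nat_lit 30) (.e (nat_lit 360484) (nat_lit 15) (.e (nat_lit 655104) (nat_lit 16) .nil)))))) (.g (nat_lit 1) (.e (nat_lit 281347) (nat_lit 0) .nil) .nil))) 
(.lf (nat_lit 546726) (.g (nat_lit 2247) (.e (nat_lit 278566) (nat_lit 16) (.e (nat_lit 286734) (nat_lit 3) (.e (nat_lit 98359) (nat_lit 26) (.e (nat_lit 426211) (nat_lit 9) (.e (nat_lit 426125) (nat_lit 2) (.e (nat_lit 204544) (nat_lit 18) (.e (nat_lit 2768) (nat_lit 177) .nil))))))) (.g (nat_lit 1) (.e (nat_lit 283914) (nat_lit 0) .nil) .nil)))))) 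
(.nd (nat_lit 7) (.nd (nat_lit 8) (.nd (nat_lit 9) 
(.lf (nat_lit 545894) (.g (nat_lit 466) (.e (nat_lit 114719) (nat_lit 23) (.e (nat_lit 98366) (nat_lit 27) (.e (nat_lit 434232) (nat_lit 23) .nil))) (.g (nat_lit 0) (.e (nat_lit 280501) (nat_lit 0) .nil) .nil))) 
(.lf (nat_lit 546406) (.g (nat_lit 3861) (.e (nat_lit 131122) (nat_lit 12) (.e (nat_lit 385073) (nat_lit 31) (.e (nat_lit 573482) (nat_lit 13) (.e (nat_lit 65630) (nat_lit 14) (.e (nat_lit 401425) (nat_lit 2) (.e (nat_lit 196681) (nat_lit 17) .nil)))))) (.g (nat_lit 1) (.e (nat_lit 282310) (nat_lit 0) .nil) .nil)))) (.nd (nat_lit 9) 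
(.lf (nat_lit 546150) (.g (nat_lit 2083) (.e (nat_lit 123175) (nat_lit 258) (.e (nat_lit 24665) (nat_lit 14) (.e (nat_lit 401455) (nat_lit 13) (.e (nat_lit 483350) (nat_lit 17) .nil)))) (.g (nat_lit 0) (.e (nat_lit 281236) (nat_lit 0) .nil) .nil))) 
(.lf (nat_lit 546662) (.g (nat_lit 609) (.e (nat_lit 270372) (nat_lit 16) (.e (nat_lit 286733) (nat_lit 2) (.e (nat_lit 90170) (nat_lit 13) .nil))) (.g (nat_lit 0) (.e (nat_lit 283772) (nat_lit 0) .nil) .nil))))) (.nd (nat_lit 8) (.nd (nat_lit 9) 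
(.lf (nat_lit 546022) (.g (nat_lit 2996) (.e (nat_lit 122906) (nat_lit 12) (.e (nat_lit 336001) (nat_lit 2) (.e (nat_lit 90170) (nat_lit 13) (.e (nat_lit 172106) (nat_lit 10) (.e (nat_lit 434244) (nat_lit 28) (.e (nat_lit 573474) (nat_lit 12) (.e (nat_lit 57356) (nat_lit 0) (.e (nat_lit 7271) (nat_lit 385) .nil)))))))) (.g (nat_lit 1) (.e (nat_lit 280710) (nat_lit 0) .nil) .nil))) 
(.lf (nat_lit 546534) (.g (nat_lit 3786) (.e (nat_lit 147494) (nat_lit 11) (.e (nat_lit 24665) (nat_lit 14) (.e (nat_lit 401448) (nat_lit 10) (.e (nat_lit 434275) (nat_lit 39) (.e (nat_lit 663580) (nat_lit 9) (.e (nat_lit 2478) (nat_lit 157) (.e (nat_lit 7936) (nat_lit 221) (.e (nat_lit 729120) (nat_lit 28) .nil)))))))) (.g (nat_lit 1) (.e (nat_lit 283171) (nat_lit 0) .nil) .nil)))) 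
(.nd (nat_lit 9) 
(.lf (nat_lit 546278) (.g (nat_lit 2592) (.e (nat_lit 139008) (nat_lit 3) (.e (nat_lit 98373) (nat_lit 29) (.e (nat_lit 450587) (nat_lit 10) (.e (nat_lit 573475) (nat_lit 12) .nil)))) (.g (nat_lit 0) (.e (nat_lit 281883) (nat_lit 0) .nil) .nil))) 
(.lf (nat_lit 546790) (.g (nat_lit 689) (.e (nat_lit 278547) (nat_lit 8) (.e (nat_lit 303139) (nat_lit 10) (.e (nat_lit 434266) (nat_lit 35) (.e (nat_lit 630821) (nat_lit 16) (.e (nat_lit 65584) (nat_lit 7) (.e (nat_lit 319527) (nat_lit 15) .nil)))))) (.g (nat_lit 1) (.e (nat_lit 284048) (nat_lit 0) .nil) .nil)))))))) 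
(.nd (nat_lit 5) (.nd (nat_lit 6) (.nd (nat_lit 7) (.nd (nat_lit 8) (.nd (nat_lit 9) 
(.lf (nat_lit 545814) (.g (nat_lit 2194) (.e (nat_lit 114719) (nat_lit 23) (.e (nat_lit 98335) (nat_lit 18) (.e (nat_lit 164402) (nat_lit 256) (.e (nat_lit 57373) (nat_lit 2) (.e (nat_lit 90172) (nat_lit 14) .nil))))) (.g (nat_lit 0) (.e (nat_lit 280363) (nat_lit 0) .nil) .nil))) 
(.lf (nat_lit 546326) (.g (nat_lit 2385) (.e (nat_lit 131107) (nat_lit 9) (.e (nat_lit 336324) (nat_lit 18) (.e (nat_lit 204838) (nat_lit 20) (.e (nat_lit 114698) (nat_lit 11) (.e (nat_lit 426116) (nat_lit 2) .nil))))) (.g (nat_lit 0) (.e (nat_lit 282014) (nat_lit 0) .nil) .nil)))) (.nd (nat_lit 9) 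
(.lf (nat_lit 546070) (.g (nat_lit 2561) (.e (nat_lit 122936) (nat_lit 23) (.e (nat_lit 516115) (nat_lit 1) (.e (nat_lit 164398) (nat_lit 256) (.e (nat_lit 57378) (nat_lit 3) (.e (nat_lit 98366) (nat_lit 27) .nil))))) (.g (nat_lit 0) (.e (nat_lit 280789) (nat_lit 0) .nil) .nil))) 
(.lf (nat_lit 546582) (.g (nat_lit 2400) (.e (nat_lit 147496) (nat_lit 11) (.e (nat_lit 24604) (nat_lit 2) (.e (nat_lit 90167) (nat_lit 13) (.e (nat_lit 172126) (nat_lit 14) (.e (nat_lit 491539) (nat_lit 3) .nil))))) (.g (nat_lit 0) (.e (nat_lit 283239) (nat_lit 0) .nil) .nil))))) (.nd (nat_lit 8) (.nd (nat_lit 9) 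
(.lf (nat_lit 545942) (.g (nat_lit 1060) (.e (nat_lit 114719) (nat_lit 23) (.e (nat_lit 98367) (nat_lit 27) (.e (nat_lit 434229) (nat_lit 22) (.e (nat_lit 524339) (nat_lit 27) .nil)))) (.g (nat_lit 0) (.e (nat_lit 280589) (nat_lit 0) .nil) .nil))) 
(.lf (nat_lit 546454) (.g (nat_lit 3012) (.e (nat_lit 131128) (nat_lit 13) (.e (nat_lit 393229) (nat_lit 9) (.e (nat_lit 335995) (nat_lit 1) (.e (nat_lit 57930) (nat_lit 282) .nil)))) (.g (nat_lit 0) (.e (nat_lit 282469) (nat_lit 0) .nil) .nil)))) (.nd (nat_lit 9) 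
(.lf (nat_lit 546198) (.g (nat_lit 2700) (.e (nat_lit 123197) (nat_lit 266) (.e (nat_lit 57435) (nat_lit 17) (.e (nat_lit 376835) (nat_lit 0) (.e (nat_lit 3632) (nat_lit 227) (.e (nat_lit 778327) (nat_lit 6) (.e (nat_lit 81957) (nat_lit 24) .nil)))))) (.g (nat_lit 1) (.e (nat_lit 281319) (nat_lit 0) .nil) .nil))) 
(.lf (nat_lit 546710) (.g (nat_lit 2182) (.e (nat_lit 270354) (nat_lit 8) (.e (nat_lit 303118) (nat_lit 3) (.e (nat_lit 204855) (nat_lit 26) (.e (nat_lit 336099) (nat_lit 9) (.e (nat_lit 336013) (nat_lit 2) (.e (nat_lit 98048) (nat_lit 18) (.e (nat_lit 1332) (nat_lit 100) .nil))))))) (.g (nat_lit 1) (.e (nat_lit 283848) (nat_lit 0) .nil) .nil)))))) 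
(.nd (nat_lit 7) (.nd (nat_lit 8) (.nd (nat_lit 9) 
(.lf (nat_lit 545878) (.g (nat_lit 2838) (.e (nat_lit 114719) (nat_lit 23) (.e (nat_lit 98366) (nat_lit 27) (.e (nat_lit 434231) (nat_lit 23) (.e (nat_lit 532500) (nat_lit 1) (.e (nat_lit 57690) (nat_lit 156) .nil))))) (.g (nat_lit 0) (.e (nat_lit 280482) (nat_lit 0) .nil) .nil))) 
(.lf (nat_lit 546390) (.g (nat_lit 893) (.e (nat_lit 131120) (nat_lit 12) (.e (nat_lit 385068) (nat_lit 26) (.e (nat_lit 532509) (nat_lit 2) .nil))) (.g (nat_lit 0) (.e (nat_lit 282254) (nat_lit 0) .nil) .nil)))) (.nd (nat_lit 9) 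
(.lf (nat_lit 546134) (.g (nat_lit 1576) (.e (nat_lit 123153) (nat_lit 250) (.e (nat_lit 2650) (nat_lit 166) (.e (nat_lit 188434) (nat_lit 20) (.e (nat_lit 3390) (nat_lit 210) (.e (nat_lit 639023) (nat_lit 18) .nil))))) (.g (nat_lit 0) (.e (nat_lit 281183) (nat_lit 0) .nil) .nil))) 
(.lf (nat_lit 546646) (.g (nat_lit 730) (.e (nat_lit 163584) (nat_lit 6) (.e (nat_lit 188434) (nat_lit 20) (.e (nat_lit 3406) (nat_lit 212) (.e (nat_lit 655380) (nat_lit 6) .nil)))) (.g (nat_lit 0) (.e (nat_lit 283684) (nat_lit 0) .nil) .nil))))) (.nd (nat_lit 8) (.nd (nat_lit 9) 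
(.lf (nat_lit 546006) (.g (nat_lit 2285) (.e (nat_lit 122893) (nat_lit 3) (.e (nat_lit 98333) (nat_lit 18) (.e (nat_lit 164325) (nat_lit 230) (.e (nat_lit 163928) (nat_lit 16) .nil)))) (.g (nat_lit 0) (.e (nat_lit 280692) (nat_lit 0) .nil) .nil))) 
(.lf (nat_lit 546518) (.g (nat_lit 1055) (.e (nat_lit 139289) (nat_lit 9) (.e (nat_lit 2829) (nat_lit 182) (.e (nat_lit 409648) (nat_lit 18) (.e (nat_lit 303106) (nat_lit 0) .nil)))) (.g (nat_lit 0) (.e (nat_lit 283041) (nat_lit 0) .nil) .nil)))) (.nd (nat_lit 9) 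
(.lf (nat_lit 546262) (.g (nat_lit 3072) (.e (nat_lit 131097) (nat_lit 3) (.e (nat_lit 98333) (nat_lit 18) (.e (nat_lit 164179) (nat_lit 154) (.e (nat_lit 57377) (nat_lit 3) (.e (nat_lit 98342) (nat_lit 20) .nil))))) (.g (nat_lit 0) (.e (nat_lit 281819) (nat_lit 0) .nil) .nil))) 
(.lf (nat_lit 546774) (.g (nat_lit 431) (.e (nat_lit 278567) (nat_lit 16) (.e (nat_lit 286756) (nat_lit 10) (.e (nat_lit 344153) (nat_lit 35) .nil))) (.g (nat_lit 0) (.e (nat_lit 283996) (nat_lit 0) .nil) .nil))))))) (.nd (nat_lit 6) (.nd (nat_lit 7) (.nd (nat_lit 8) (.nd (nat_lit 9) 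
(.lf (nat_lit 545846) (.g (nat_lit 1367) (.e (nat_lit 114719) (nat_lit 23) (.e (nat_lit 98358) (nat_lit 26) (.e (nat_lit 426436) (nat_lit 18) (.e (nat_lit 98335) (nat_lit 18) .nil)))) (.g (nat_lit 0) (.e (nat_lit 280403) (nat_lit 0) .nil) .nil))) 
(.lf (nat_lit 546358) (.g (nat_lit 2678) (.e (nat_lit 131109) (nat_lit 9) (.e (nat_lit 336324) (nat_lit 18) (.e (nat_lit 204837) (nat_lit 20) (.e (nat_lit 114697) (nat_lit 11) (.e (nat_lit 426122) (nat_lit 2) (.e (nat_lit 196681) (nat_lit 17) .nil)))))) (.g (nat_lit 1) (.e (nat_lit 282154) (nat_lit 0) .nil) .nil)))) (.nd (nat_lit 9) 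
(.lf (nat_lit 546102) (.g (nat_lit 4217) (.e (nat_lit 122951) (nat_lit 38) (.e (nat_lit 638998) (nat_lit 8) (.e (nat_lit 172067) (nat_lit 3) (.e (nat_lit 204855) (nat_lit 26) (.e (nat_lit 336099) (nat_lit 9) (.e (nat_lit 336013) (nat_lit 2) (.e (nat_lit 98048) (nat_lit 7) .nil))))))) (.g (nat_lit 1) (.e (nat_lit 280855) (nat_lit 0) .nil) .nil))) 
(.lf (nat_lit 546614) (.g (nat_lit 1778) (.e (nat_lit 155652) (nat_lit 0) (.e (nat_lit 2984) (nat_lit 186) (.e (nat_lit 442374) (nat_lit 0) (.e (nat_lit 2059) (nat_lit 142) (.e (nat_lit 704598) (nat_lit 6) (.e (nat_lit 196352) (nat_lit 8) .nil)))))) (.g (nat_lit 1) (.e (nat_lit 283384) (nat_lit 0) .nil) .nil))))) (.nd (nat_lit 8) (.nd (nat_lit 9) 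
(.lf (nat_lit 545974) (.g (nat_lit 4739) (.e (nat_lit 114719) (nat_lit 23) (.e (nat_lit 98384) (nat_lit 32) (.e (nat_lit 475179) (nat_lit 24) (.e (nat_lit 516120) (nat_lit 1) (.e (nat_lit 164332) (nat_lit 230) (.e (nat_lit 163874) (nat_lit 3) (.e (nat_lit 204837) (nat_lit 20) .nil))))))) (.g (nat_lit 1) (.e (nat_lit 280630) (nat_lit 0) .nil) .nil))) 
(.lf (nat_lit 546486) (.g (nat_lit 1945) (.e (nat_lit 131140) (nat_lit 27) (.e (nat_lit 426316) (nat_lit 12) (.e (nat_lit 475197) (nat_lit 40) (.e (nat_lit 704596) (nat_lit 5) (.e (nat_lit 188160) (nat_lit 39) .nil))))) (.g (nat_lit 1) (.e (nat_lit 282709) (nat_lit 0) .nil) .nil)))) (.nd (nat_lit 9) 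
(.lf (nat_lit 546230) (.g (nat_lit 1472) (.e (nat_lit 131089) (nat_lit 1) (.e (nat_lit 57854) (nat_lit 252) (.e (nat_lit 57378) (nat_lit 3) (.e (nat_lit 98334) (nat_lit 18) .nil)))) (.g (nat_lit 0) (.e (nat_lit 281633) (nat_lit 0) .nil) .nil))) 
(.lf (nat_lit 546742) (.g (nat_lit 1453) (.e (nat_lit 278566) (nat_lit 16) (.e (nat_lit 286754) (nat_lit 10) (.e (nat_lit 344156) (nat_lit 36) (.e (nat_lit 638998) (nat_lit 8) (.e (nat_lit 172081) (nat_lit 7) .nil))))) (.g (nat_lit 0) (.e (nat_lit 283934) (nat_lit 0) .nil) .nil)))))) (.nd (nat_lit 7) (.nd (nat_lit 8) (.nd (nat_lit 9) 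
(.lf (nat_lit 545910) (.g (nat_lit 4878) (.e (nat_lit 114719) (nat_lit 23) (.e (nat_lit 98367) (nat_lit 27) (.e (nat_lit 434231) (nat_lit 23) (.e (nat_lit 532499) (nat_lit 1) (.e (nat_lit 57692) (nat_lit 156) (.e (nat_lit 163874) (nat_lit 3) (.e (nat_lit 204837) (nat_lit 20) .nil))))))) (.g (nat_lit 1) (.e (nat_lit 280540) (nat_lit 0) .nil) .nil))) 
(.lf (nat_lit 546422) (.g (nat_lit 2594) (.e (nat_lit 131123) (nat_lit 12) (.e (nat_lit 385068) (nat_lit 26) (.e (nat_lit 532515) (nat_lit 3) (.e (nat_lit 114698) (nat_lit 11) (.e (nat_lit 426116) (nat_lit 2) (.e (nat_lit 196681) (nat_lit 17) .nil)))))) (.g (nat_lit 1) (.e (nat_lit 282352) (nat_lit 0) .nil) .nil)))) (.nd (nat_lit 9) 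
(.lf (nat_lit 546166) (.g (nat_lit 1184) (.e (nat_lit 123185) (nat_lit 264) (.e (nat_lit 999) (nat_lit 81) (.e (nat_lit 1239) (nat_lit 91) (.e (nat_lit 90189) (nat_lit 18) .nil)))) (.g (nat_lit 0) (.e (nat_lit 281258) (nat_lit 0) .nil) .nil))) 
(.lf (nat_lit 546678) (.g (nat_lit 1600) (.e (nat_lit 270373) (nat_lit 16) (.e (nat_lit 286735) (nat_lit 3) (.e (nat_lit 98372) (nat_lit 29) (.e (nat_lit 458496) (nat_lit 2) .nil)))) (.g (nat_lit 0) (.e (nat_lit 283792) (nat_lit 0) .nil) .nil))))) (.nd (nat_lit 8) (.nd (nat_lit 9) 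
(.lf (nat_lit 546038) (.g (nat_lit 4209) (.e (nat_lit 122913) (nat_lit 13) (.e (nat_lit 344118) (nat_lit 21) (.e (nat_lit 516166) (nat_lit 12) (.e (nat_lit 450587) (nat_lit 10) (.e (nat_lit 573478) (nat_lit 12) .nil))))) (.g (nat_lit 0) (.e (nat_lit 280733) (nat_lit 0) .nil) .nil))) 
(.lf (nat_lit 546550) (.g (nat_lit 2609) (.e (nat_lit 147495) (nat_lit 11) (.e (nat_lit 24604) (nat_lit 2) (.e (nat_lit 90178) (nat_lit 15) (.e (nat_lit 188440) (nat_lit 20) (.e (nat_lit 3307) (nat_lit 202) .nil))))) (.g (nat_lit 0) (.e (nat_lit 283194) (nat_lit 0) .nil) .nil)))) (.nd (nat_lit 9) 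
(.lf (nat_lit 546294) (.g (nat_lit 2965) (.e (nat_lit 131105) (nat_lit 9) (.e (nat_lit 336324) (nat_lit 18) (.e (nat_lit 204837) (nat_lit 20) (.e (nat_lit 114698) (nat_lit 11) (.e (nat_lit 426122) (nat_lit 2) (.e (nat_lit 196681) (nat_lit 17) .nil)))))) (.g (nat_lit 1) (.e (nat_lit 281935) (nat_lit 0) .nil) .nil))) 
(.lf (nat_lit 546806) (.g (nat_lit 472) (.e (nat_lit 303104) (nat_lit 0) (.e (nat_lit 3238) (nat_lit 197) (.e (nat_lit 532549) (nat_lit 12) .nil))) (.g (nat_lit 0) (.e (nat_lit 284083) (nat_lit 0) .nil) .nil))))))))) (.nd (nat_lit 4) (.nd (nat_lit 5) (.nd (nat_lit 6) (.nd (nat_lit 7) (.nd (nat_lit 8) (.nd (nat_lit 9) 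
(.lf (nat_lit 545806) (.g (nat_lit 2084) (.e (nat_lit 114719) (nat_lit 23) (.e (nat_lit 98334) (nat_lit 18) (.e (nat_lit 164400) (nat_lit 256) (.e (nat_lit 57372) (nat_lit 2) (.e (nat_lit 90167) (nat_lit 13) .nil))))) (.g (nat_lit 0) (.e (nat_lit 280350) (nat_lit 0) .nil) .nil))) 
(.lf (nat_lit 546318) (.g (nat_lit 2715) (.e (nat_lit 131106) (nat_lit 9) (.e (nat_lit 336324) (nat_lit 18) (.e (nat_lit 204835) (nat_lit 19) (.e (nat_lit 106536) (nat_lit 11) .nil)))) (.g (nat_lit 0) (.e (nat_lit 281999) (nat_lit 0) .nil) .nil)))) (.nd (nat_lit 9) 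
(.lf (nat_lit 546062) (.g (nat_lit 5357) (.e (nat_lit 122934) (nat_lit 23) (.e (nat_lit 516166) (nat_lit 12) (.e (nat_lit 450588) (nat_lit 10) (.e (nat_lit 573471) (nat_lit 11) .nil)))) (.g (nat_lit 0) (.e (nat_lit 280777) (nat_lit 0) .nil) .nil))) 
(.lf (nat_lit 546574) (.g (nat_lit 845) (.e (nat_lit 147495) (nat_lit 11) (.e (nat_lit 24662) (nat_lit 14) (.e (nat_lit 409344) (nat_lit 25) .nil))) (.g (nat_lit 0) (.e (nat_lit 283229) (nat_lit 0) .nil) .nil))))) (.nd (nat_lit 8) (.nd (nat_lit 9) 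
(.lf (nat_lit 545934) (.g (nat_lit 4231) (.e (nat_lit 114719) (nat_lit 23) (.e (nat_lit 98367) (nat_lit 27) (.e (nat_lit 434232) (nat_lit 23) (.e (nat_lit 532504) (nat_lit 1) (.e (nat_lit 57691) (nat_lit 156) (.e (nat_lit 163875) (nat_lit 3) (.e (nat_lit 204838) (nat_lit 20) .nil))))))) (.g (nat_lit 1) (.e (nat_lit 280580) (nat_lit 0) .nil) .nil))) 
(.lf (nat_lit 546446) (.g (nat_lit 466) (.e (nat_lit 131127) (nat_lit 13) (.e (nat_lit 393253) (nat_lit 18) (.e (nat_lit 164183) (nat_lit 154) .nil))) (.g (nat_lit 0) (.e (nat_lit 282438) (nat_lit 0) .nil) .nil)))) (.nd (nat_lit 9) 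
(.lf (nat_lit 546190) (.g (nat_lit 3289) (.e (nat_lit 123195) (nat_lit 266) (.e (nat_lit 57400) (nat_lit 10) (.e (nat_lit 319490) (nat_lit 0) (.e (nat_lit 5664) (nat_lit 312) (.e (nat_lit 3085) (nat_lit 191) (.e (nat_lit 483392) (nat_lit 23) (.e (nat_lit 336033) (nat_lit 4) .nil))))))) (.g (nat_lit 1) (.e (nat_lit 281299) (nat_lit 0) .nil) .nil))) 
(.lf (nat_lit 546702) (.g (nat_lit 2024) (.e (nat_lit 270353) (nat_lit 8) (.e (nat_lit 303118) (nat_lit 3) (.e (nat_lit 204855) (nat_lit 26) (.e (nat_lit 336099) (nat_lit 9) (.e (nat_lit 336013) (nat_lit 2) .nil))))) (.g (nat_lit 0) (.e (nat_lit 283837) (nat_lit 0) .nil) .nil)))))) (.nd (nat_lit 7) (.nd (nat_lit 8) (.nd (nat_lit 9) 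
(.lf (nat_lit 545870) (.g (nat_lit 2708) (.e (nat_lit 114719) (nat_lit 23) (.e (nat_lit 98366) (nat_lit 27) (.e (nat_lit 434231) (nat_lit 23) (.e (nat_lit 532499) (nat_lit 1) (.e (nat_lit 57691) (nat_lit 156) (.e (nat_lit 163874) (nat_lit 3) (.e (nat_lit 204836) (nat_lit 20) .nil))))))) (.g (nat_lit 1) (.e (nat_lit 280463) (nat_lit 0) .nil) .nil))) 
(.lf (nat_lit 546382) (.g (nat_lit 2302) (.e (nat_lit 131120) (nat_lit 12) (.e (nat_lit 385066) (nat_lit 26) (.e (nat_lit 532513) (nat_lit 3) (.e (nat_lit 114697) (nat_lit 11) (.e (nat_lit 426116) (nat_lit 2) (.e (nat_lit 196681) (nat_lit 17) .nil)))))) (.g (nat_lit 1) (.e (nat_lit 282240) (nat_lit 0) .nil) .nil)))) (.nd (nat_lit 9) 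
(.lf (nat_lit 546126) (.g (nat_lit 869) (.e (nat_lit 123057) (nat_lit 156) (.e (nat_lit 163903) (nat_lit 12) (.e (nat_lit 426438) (nat_lit 18) .nil))) (.g (nat_lit 0) (.e (nat_lit 281059) (nat_lit 0) .nil) .nil))) 
(.lf (nat_lit 546638) (.g (nat_lit 903) (.e (nat_lit 163584) (nat_lit 6) (.e (nat_lit 188418) (nat_lit 0) (.e (nat_lit 2058) (nat_lit 142) (.e (nat_lit 704598) (nat_lit 6) (.e (nat_lit 196352) (nat_lit 8) .nil))))) (.g (nat_lit 0) (.e (nat_lit 283666) (nat_lit 0) .nil) .nil))))) (.nd (nat_lit 8) (.nd (nat_lit 9) 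
(.lf (nat_lit 545998) (.g (nat_lit 1864) (.e (nat_lit 114723) (nat_lit 24) (.e (nat_lit 106536) (nat_lit 11) (.e (nat_lit 16392) (nat_lit 0) (.e (nat_lit 6989) (nat_lit 377) .nil)))) (.g (nat_lit 0) (.e (nat_lit 280669) (nat_lit 0) .nil) .nil))) 
(.lf (nat_lit 546510) (.g (nat_lit 2995) (.e (nat_lit 139285) (nat_lit 9) (.e (nat_lit 2830) (nat_lit 182) (.e (nat_lit 409648) (nat_lit 18) (.e (nat_lit 303116) (nat_lit 2) (.e (nat_lit 196674) (nat_lit 15) .nil))))) (.g (nat_lit 0) (.e (nat_lit 283004) (nat_lit 0) .nil) .nil)))) (.nd (nat_lit 9) 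
(.lf (nat_lit 546254) (.g (nat_lit 1624) (.e (nat_lit 131096) (nat_lit 3) (.e (nat_lit 98335) (nat_lit 18) (.e (nat_lit 164182) (nat_lit 154) (.e (nat_lit 57378) (nat_lit 3) .nil)))) (.g (nat_lit 0) (.e (nat_lit 281795) (nat_lit 0) .nil) .nil))) 
(.lf (nat_lit 546766) (.g (nat_lit 1454) (.e (nat_lit 278567) (nat_lit 16) (.e (nat_lit 286753) (nat_lit 10) (.e (nat_lit 344157) (nat_lit 36) (.e (nat_lit 638999) (nat_lit 8) (.e (nat_lit 172079) (nat_lit 7) (.e (nat_lit 409638) (nat_lit 15) .nil)))))) (.g (nat_lit 1) (.e (nat_lit 283970) (nat_lit 0) .nil) .nil))))))) (.nd (nat_lit 6) (.nd (nat_lit 7) (.nd (nat_lit 8) (.nd (nat_lit 9) 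
(.lf (nat_lit 545838) (.g (nat_lit 3424) (.e (nat_lit 114719) (nat_lit 23) (.e (nat_lit 98356) (nat_lit 26) (.e (nat_lit 426438) (nat_lit 18) (.e (nat_lit 98334) (nat_lit 18) (.e (nat_lit 164330) (nat_lit 230) (.e (nat_lit 163857) (nat_lit 0) (.e (nat_lit 3253) (nat_lit 197) (.e (nat_lit 532515) (nat_lit 3) .nil)))))))) (.g (nat_lit 1) (.e (nat_lit 280393) (nat_lit 0) .nil) .nil))) 
(.lf (nat_lit 546350) (.g (nat_lit 2520) (.e (nat_lit 131109) (nat_lit 9) (.e (nat_lit 336019) (nat_lit 3) (.e (nat_lit 98350) (nat_lit 24) (.e (nat_lit 409649) (nat_lit 18) (.e (nat_lit 303111) (nat_lit 0) (.e (nat_lit 3107) (nat_lit 193) (.e (nat_lit 500089) (nat_lit 22) .nil))))))) (.g (nat_lit 1) (.e (nat_lit 282101) (nat_lit 0) .nil) .nil)))) (.nd (nat_lit 9) 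
(.lf (nat_lit 546094) (.g (nat_lit 1434) (.e (nat_lit 122936) (nat_lit 23) (.e (nat_lit 516174) (nat_lit 14) (.e (nat_lit 466967) (nat_lit 20) (.e (nat_lit 3253) (nat_lit 197) (.e (nat_lit 532523) (nat_lit 7) (.e (nat_lit 319504) (nat_lit 10) (.e (nat_lit 7936) (nat_lit 304) .nil))))))) (.g (nat_lit 1) (.e (nat_lit 280831) (nat_lit 0) .nil) .nil))) 
(.lf (nat_lit 546606) (.g (nat_lit 2133) (.e (nat_lit 155649) (nat_lit 0) (.e (nat_lit 2887) (nat_lit 184) (.e (nat_lit 426317) (nat_lit 12) (.e (nat_lit 475198) (nat_lit 40) (.e (nat_lit 704598) (nat_lit 6) (.e (nat_lit 196352) (nat_lit 8) .nil)))))) (.g (nat_lit 1) (.e (nat_lit 283322) (nat_lit 0) .nil) .nil))))) (.nd (nat_lit 8) (.nd (nat_lit 9) 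
(.lf (nat_lit 545966) (.g (nat_lit 4526) (.e (nat_lit 114719) (nat_lit 23) (.e (nat_lit 98384) (nat_lit 32) (.e (nat_lit 475179) (nat_lit 24) (.e (nat_lit 516117) (nat_lit 1) (.e (nat_lit 164330) (nat_lit 230) (.e (nat_lit 163874) (nat_lit 3) (.e (nat_lit 204837) (nat_lit 20) .nil))))))) (.g (nat_lit 1) (.e (nat_lit 280620) (nat_lit 0) .nil) .nil))) 
(.lf (nat_lit 546478) (.g (nat_lit 2360) (.e (nat_lit 131140) (nat_lit 27) (.e (nat_lit 426306) (nat_lit 12) (.e (nat_lit 475198) (nat_lit 40) (.e (nat_lit 704596) (nat_lit 5) (.e (nat_lit 188160) (nat_lit 39) .nil))))) (.g (nat_lit 1) (.e (nat_lit 282690) (nat_lit 0) .nil) .nil)))) (.nd (nat_lit 9) 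
(.lf (nat_lit 546222) (.g (nat_lit 2748) (.e (nat_lit 131086) (nat_lit 1) (.e (nat_lit 57854) (nat_lit 252) (.e (nat_lit 57378) (nat_lit 3) (.e (nat_lit 98333) (nat_lit 18) (.e (nat_lit 164402) (nat_lit 256) .nil))))) (.g (nat_lit 0) (.e (nat_lit 281590) (nat_lit 0) .nil) .nil))) 
(.lf (nat_lit 546734) (.g (nat_lit 2095) (.e (nat_lit 278566) (nat_lit 16) (.e (nat_lit 286749) (nat_lit 9) (.e (nat_lit 335997) (nat_lit 1) (.e (nat_lit 57857) (nat_lit 254) (.e (nat_lit 163908) (nat_lit 12) (.e (nat_lit 426171) (nat_lit 7) (.e (nat_lit 409639) (nat_lit 15) .nil))))))) (.g (nat_lit 1) (.e (nat_lit 283924) (nat_lit 0) .nil) .nil)))))) 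
(.nd (nat_lit 7) (.nd (nat_lit 8) (.nd (nat_lit 9) 
(.lf (nat_lit 545902) (.g (nat_lit 1581) (.e (nat_lit 114719) (nat_lit 23) (.e (nat_lit 98367) (nat_lit 27) (.e (nat_lit 434231) (nat_lit 23) (.e (nat_lit 532490) (nat_lit 0) .nil)))) (.g (nat_lit 0) (.e (nat_lit 280520) (nat_lit 0) .nil) .nil))) 
(.lf (nat_lit 546414) (.g (nat_lit 892) (.e (nat_lit 131123) (nat_lit 12) (.e (nat_lit 385068) (nat_lit 26) (.e (nat_lit 532509) (nat_lit 2) .nil))) (.g (nat_lit 0) (.e (nat_lit 282344) (nat_lit 0) .nil) .nil)))) (.nd (nat_lit 9) 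
(.lf (nat_lit 546158) (.g (nat_lit 1767) (.e (nat_lit 123183) (nat_lit 264) (.e (nat_lit 1183) (nat_lit 87) (.e (nat_lit 57478) (nat_lit 28) (.e (nat_lit 557109) (nat_lit 15) (.e (nat_lit 188452) (nat_lit 23) .nil))))) (.g (nat_lit 0) (.e (nat_lit 281248) (nat_lit 0) .nil) .nil))) 
(.lf (nat_lit 546670) (.g (nat_lit 3553) (.e (nat_lit 270373) (nat_lit 16) (.e (nat_lit 286735) (nat_lit 3) (.e (nat_lit 98359) (nat_lit 26) (.e (nat_lit 426211) (nat_lit 9) (.e (nat_lit 426125) (nat_lit 2) (.e (nat_lit 204544) (nat_lit 18) (.e (nat_lit 2758) (nat_lit 176) .nil))))))) (.g (nat_lit 1) (.e (nat_lit 283783) (nat_lit 0) .nil) .nil))))) (.nd (nat_lit 8) (.nd (nat_lit 9) 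
(.lf (nat_lit 546030) (.g (nat_lit 2276) (.e (nat_lit 122906) (nat_lit 12) (.e (nat_lit 336005) (nat_lit 2) (.e (nat_lit 90170) (nat_lit 13) (.e (nat_lit 172113) (nat_lit 10) (.e (nat_lit 434245) (nat_lit 28) .nil))))) (.g (nat_lit 0) (.e (nat_lit 280718) (nat_lit 0) .nil) .nil))) 
(.lf (nat_lit 546542) (.g (nat_lit 2966) (.e (nat_lit 147495) (nat_lit 11) (.e (nat_lit 24601) (nat_lit 2) (.e (nat_lit 90170) (nat_lit 13) (.e (nat_lit 172106) (nat_lit 10) (.e (nat_lit 434244) (nat_lit 28) (.e (nat_lit 573451) (nat_lit 9) (.e (nat_lit 7936) (nat_lit 98) .nil))))))) (.g (nat_lit 1) (.e (nat_lit 283186) (nat_lit 0) .nil) .nil)))) (.nd (nat_lit 9) 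
(.lf (nat_lit 546286) (.g (nat_lit 674) (.e (nat_lit 131105) (nat_lit 9) (.e (nat_lit 336019) (nat_lit 3) (.e (nat_lit 98349) (nat_lit 24) .nil))) (.g (nat_lit 0) (.e (nat_lit 281907) (nat_lit 0) .nil) .nil))) 
(.lf (nat_lit 546798) (.g (nat_lit 3147) (.e (nat_lit 303104) (nat_lit 0) (.e (nat_lit 3238) (nat_lit 197) (.e (nat_lit 532535) (nat_lit 9) (.e (nat_lit 336111) (nat_lit 9) (.e (nat_lit 336028) (nat_lit 3) .nil))))) (.g (nat_lit 0) (.e (nat_lit 284073) (nat_lit 0) .nil) .nil)))))))) (.nd (nat_lit 5) (.nd (nat_lit 6) (.nd (nat_lit 7) (.nd (nat_lit 8) (.nd (nat_lit 9) 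
(.lf (nat_lit 545822) (.g (nat_lit 3746) (.e (nat_lit 114719) (nat_lit 23) (.e (nat_lit 98350) (nat_lit 24) (.e (nat_lit 409617) (nat_lit 10) (.e (nat_lit 632) (nat_lit 50) (.e (nat_lit 573489) (nat_lit 14) (.e (nat_lit 73742) (nat_lit 1) (.e (nat_lit 499991) (nat_lit 14) (.e (nat_lit 1281) (nat_lit 94) .nil)))))))) (.g (nat_lit 1) (.e (nat_lit 280373) (nat_lit 0) .nil) .nil))) 
(.lf (nat_lit 546334) (.g (nat_lit 676) (.e (nat_lit 131107) (nat_lit 9) (.e (nat_lit 336456) (nat_lit 34) (.e (nat_lit 483364) (nat_lit 18) .nil))) (.g (nat_lit 0) (.e (nat_lit 282023) (nat_lit 0) .nil) .nil)))) (.nd (nat_lit 9) 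
(.lf (nat_lit 546078) (.g (nat_lit 2527) (.e (nat_lit 122936) (nat_lit 23) (.e (nat_lit 516117) (nat_lit 1) (.e (nat_lit 164399) (nat_lit 256) (.e (nat_lit 57378) (nat_lit 3) (.e (nat_lit 98366) (nat_lit 27) .nil))))) (.g (nat_lit 0) (.e (nat_lit 280802) (nat_lit 0) .nil) .nil))) 
(.lf (nat_lit 546590) (.g (nat_lit 1571) (.e (nat_lit 147496) (nat_lit 11) (.e (nat_lit 24604) (nat_lit 2) (.e (nat_lit 90178) (nat_lit 15) (.e (nat_lit 188442) (nat_lit 20) .nil)))) (.g (nat_lit 0) (.e (nat_lit 283247) (nat_lit 0) .nil) .nil))))) (.nd (nat_lit 8) (.nd (nat_lit 9) 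
(.lf (nat_lit 545950) (.g (nat_lit 4551) (.e (nat_lit 114719) (nat_lit 23) (.e (nat_lit 98384) (nat_lit 32) (.e (nat_lit 475177) (nat_lit 24) (.e (nat_lit 516115) (nat_lit 1) (.e (nat_lit 164327) (nat_lit 230) (.e (nat_lit 163875) (nat_lit 3) (.e (nat_lit 204837) (nat_lit 20) .nil))))))) (.g (nat_lit 1) (.e (nat_lit 280602) (nat_lit 0) .nil) .nil))) 
(.lf (nat_lit 546462) (.g (nat_lit 3286) (.e (nat_lit 131133) (nat_lit 15) (.e (nat_lit 3305) (nat_lit 202) (.e (nat_lit 573482) (nat_lit 13) (.e (nat_lit 65604) (nat_lit 9) (.e (nat_lit 336013) (nat_lit 2) (.e (nat_lit 90165) (nat_lit 12) (.e (nat_lit 171776) (nat_lit 194) .nil))))))) (.g (nat_lit 1) (.e (nat_lit 282522) (nat_lit 0) .nil) .nil)))) (.nd (nat_lit 9) 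
(.lf (nat_lit 546206) (.g (nat_lit 864) (.e (nat_lit 123198) (nat_lit 266) (.e (nat_lit 57424) (nat_lit 14) (.e (nat_lit 352265) (nat_lit 0) .nil))) (.g (nat_lit 0) (.e (nat_lit 281330) (nat_lit 0) .nil) .nil))) 
(.lf (nat_lit 546718) (.g (nat_lit 1305) (.e (nat_lit 270354) (nat_lit 8) (.e (nat_lit 303145) (nat_lit 13) (.e (nat_lit 483405) (nat_lit 26) (.e (nat_lit 385100) (nat_lit 49) .nil)))) (.g (nat_lit 0) (.e (nat_lit 283857) (nat_lit 0) .nil) .nil)))))) (.nd (nat_lit 7) (.nd (nat_lit 8) (.nd (nat_lit 9) 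
(.lf (nat_lit 545886) (.g (nat_lit 2671) (.e (nat_lit 114719) (nat_lit 23) (.e (nat_lit 98366) (nat_lit 27) (.e (nat_lit 434231) (nat_lit 23) (.e (nat_lit 532502) (nat_lit 1) (.e (nat_lit 57688) (nat_lit 156) (.e (nat_lit 163874) (nat_lit 3) (.e (nat_lit 204836) (nat_lit 20) .nil))))))) (.g (nat_lit 1) (.e (nat_lit 280492) (nat_lit 0) .nil) .nil))) 
(.lf (nat_lit 546398) (.g (nat_lit 2077) (.e (nat_lit 131121) (nat_lit 12) (.e (nat_lit 385074) (nat_lit 31) (.e (nat_lit 573482) (nat_lit 13) (.e (nat_lit 65628) (nat_lit 14) .nil)))) (.g (nat_lit 0) (.e (nat_lit 282281) (nat_lit 0) .nil) .nil)))) (.nd (nat_lit 9) 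
(.lf (nat_lit 546142) (.g (nat_lit 4489) (.e (nat_lit 123168) (nat_lit 256) (.e (nat_lit 3085) (nat_lit 191) (.e (nat_lit 483413) (nat_lit 27) (.e (nat_lit 401447) (nat_lit 10) (.e (nat_lit 434205) (nat_lit 18) .nil))))) (.g (nat_lit 0) (.e (nat_lit 281219) (nat_lit 0) .nil) .nil))) 
(.lf (nat_lit 546654) (.g (nat_lit 776) (.e (nat_lit 163584) (nat_lit 6) (.e (nat_lit 188439) (nat_lit 20) (.e (nat_lit 3409) (nat_lit 212) (.e (nat_lit 655380) (nat_lit 6) (.e (nat_lit 196352) (nat_lit 8) .nil))))) (.g (nat_lit 0) (.e (nat_lit 283700) (nat_lit 0) .nil) .nil))))) (.nd (nat_lit 8) (.nd (nat_lit 9) 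
(.lf (nat_lit 546014) (.g (nat_lit 1529) (.e (nat_lit 122904) (nat_lit 12) (.e (nat_lit 336019) (nat_lit 3) (.e (nat_lit 98372) (nat_lit 29) (.e (nat_lit 450586) (nat_lit 10) .nil)))) (.g (nat_lit 0) (.e (nat_lit 280702) (nat_lit 0) .nil) .nil))) 
(.lf (nat_lit 546526) (.g (nat_lit 1298) (.e (nat_lit 147492) (nat_lit 11) (.e (nat_lit 24607) (nat_lit 3) (.e (nat_lit 98372) (nat_lit 29) (.e (nat_lit 450586) (nat_lit 10) .nil)))) (.g (nat_lit 0) (.e (nat_lit 283130) (nat_lit 0) .nil) .nil)))) (.nd (nat_lit 9) 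
(.lf (nat_lit 546270) (.g (nat_lit 990) (.e (nat_lit 131098) (nat_lit 3) (.e (nat_lit 98334) (nat_lit 18) (.e (nat_lit 164176) (nat_lit 154) .nil))) (.g (nat_lit 0) (.e (nat_lit 281858) (nat_lit 0) .nil) .nil))) 
(.lf (nat_lit 546782) (.g (nat_lit 2581) (.e (nat_lit 278547) (nat_lit 8) (.e (nat_lit 303119) (nat_lit 3) (.e (nat_lit 204868) (nat_lit 29) (.e (nat_lit 360464) (nat_lit 2) .nil)))) (.g (nat_lit 0) (.e (nat_lit 284033) (nat_lit 0) .nil) .nil))))))) (.nd (nat_lit 6) (.nd (nat_lit 7) (.nd (nat_lit 8) (.nd (nat_lit 9) 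
(.lf (nat_lit 545854) (.g (nat_lit 2858) (.e (nat_lit 114719) (nat_lit 23) (.e (nat_lit 98365) (nat_lit 26) (.e (nat_lit 426137) (nat_lit 3) (.e (nat_lit 204829) (nat_lit 18) (.e (nat_lit 57692) (nat_lit 156) (.e (nat_lit 163872) (nat_lit 3) (.e (nat_lit 204838) (nat_lit 20) .nil))))))) (.g (nat_lit 1) (.e (nat_lit 280421) (nat_lit 0) .nil) .nil))) 
(.lf (nat_lit 546366) (.g (nat_lit 2389) (.e (nat_lit 131109) (nat_lit 9) (.e (nat_lit 336454) (nat_lit 34) (.e (nat_lit 483362) (nat_lit 18) (.e (nat_lit 57931) (nat_lit 282) (.e (nat_lit 163869) (nat_lit 2) (.e (nat_lit 196681) (nat_lit 17) .nil)))))) (.g (nat_lit 1) (.e (nat_lit 282178) (nat_lit 0) .nil) .nil)))) (.nd (nat_lit 9) 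
(.lf (nat_lit 546110) (.g (nat_lit 1948) (.e (nat_lit 122993) (nat_lit 73) (.e (nat_lit 426316) (nat_lit 12) (.e (nat_lit 475185) (nat_lit 29) (.e (nat_lit 557109) (nat_lit 15) .nil)))) (.g (nat_lit 0) (.e (nat_lit 280909) (nat_lit 0) .nil) .nil))) 
(.lf (nat_lit 546622) (.g (nat_lit 1809) (.e (nat_lit 163584) (nat_lit 3) (.e (nat_lit 163977) (nat_lit 30) (.e (nat_lit 573482) (nat_lit 13) (.e (nat_lit 65619) (nat_lit 10) (.e (nat_lit 344117) (nat_lit 21) .nil))))) (.g (nat_lit 0) (.e (nat_lit 283474) (nat_lit 0) .nil) .nil))))) (.nd (nat_lit 8) (.nd (nat_lit 9) 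
(.lf (nat_lit 545982) (.g (nat_lit 3127) (.e (nat_lit 114719) (nat_lit 23) (.e (nat_lit 98386) (nat_lit 32) (.e (nat_lit 475179) (nat_lit 24) (.e (nat_lit 516119) (nat_lit 1) (.e (nat_lit 164327) (nat_lit 230) .nil))))) (.g (nat_lit 0) (.e (nat_lit 280638) (nat_lit 0) .nil) .nil))) 
(.lf (nat_lit 546494) (.g (nat_lit 1518) (.e (nat_lit 139008) (nat_lit 27) (.e (nat_lit 426347) (nat_lit 14) (.e (nat_lit 491549) (nat_lit 9) (.e (nat_lit 336421) (nat_lit 28) (.e (nat_lit 442112) (nat_lit 7) .nil))))) (.g (nat_lit 0) (.e (nat_lit 282748) (nat_lit 0) .nil) .nil)))) (.nd (nat_lit 9) 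
(.lf (nat_lit 546238) (.g (nat_lit 2483) (.e (nat_lit 131093) (nat_lit 2) (.e (nat_lit 90170) (nat_lit 13) (.e (nat_lit 172106) (nat_lit 10) (.e (nat_lit 434231) (nat_lit 23) (.e (nat_lit 532480) (nat_lit 0) .nil))))) (.g (nat_lit 0) (.e (nat_lit 281696) (nat_lit 0) .nil) .nil))) 
(.lf (nat_lit 546750) (.g (nat_lit 2024) (.e (nat_lit 278566) (nat_lit 16) (.e (nat_lit 286761) (nat_lit 13) (.e (nat_lit 393293) (nat_lit 26) (.e (nat_lit 475198) (nat_lit 40) .nil)))) (.g (nat_lit 0) (.e (nat_lit 283943) (nat_lit 0) .nil) .nil)))))) (.nd (nat_lit 7) (.nd (nat_lit 8) (.nd (nat_lit 9) 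
(.lf (nat_lit 545918) (.g (nat_lit 3013) (.e (nat_lit 114719) (nat_lit 23) (.e (nat_lit 98367) (nat_lit 27) (.e (nat_lit 434231) (nat_lit 23) (.e (nat_lit 532500) (nat_lit 1) (.e (nat_lit 57690) (nat_lit 156) (.e (nat_lit 163874) (nat_lit 3) (.e (nat_lit 204836) (nat_lit 20) .nil))))))) (.g (nat_lit 1) (.e (nat_lit 280563) (nat_lit 0) .nil) .nil))) 
(.lf (nat_lit 546430) (.g (nat_lit 1514) (.e (nat_lit 131124) (nat_lit 13) (.e (nat_lit 393229) (nat_lit 9) (.e (nat_lit 335996) (nat_lit 1) (.e (nat_lit 57931) (nat_lit 282) .nil)))) (.g (nat_lit 0) (.e (nat_lit 282378) (nat_lit 0) .nil) .nil)))) (.nd (nat_lit 9) 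
(.lf (nat_lit 546174) (.g (nat_lit 3473) (.e (nat_lit 123195) (nat_lit 266) (.e (nat_lit 57346) (nat_lit 0) (.e (nat_lit 6203) (nat_lit 332) (.e (nat_lit 2798) (nat_lit 180) (.e (nat_lit 303133) (nat_lit 9) (.e (nat_lit 426499) (nat_lit 27) (.e (nat_lit 336108) (nat_lit 9) (.e (nat_lit 336032) (nat_lit 4) .nil)))))))) (.g (nat_lit 1) (.e (nat_lit 281275) (nat_lit 0) .nil) .nil))) 
(.lf (nat_lit 546686) (.g (nat_lit 1937) (.e (nat_lit 270373) (nat_lit 16) (.e (nat_lit 286755) (nat_lit 10) (.e (nat_lit 344156) (nat_lit 36) (.e (nat_lit 638998) (nat_lit 8) (.e (nat_lit 172079) (nat_lit 7) (.e (nat_lit 409636) (nat_lit 14) .nil)))))) (.g (nat_lit 1) (.e (nat_lit 283804) (nat_lit 0) .nil) .nil))))) (.nd (nat_lit 8) (.nd (nat_lit 9) 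
(.lf (nat_lit 546046) (.g (nat_lit 2213) (.e (nat_lit 122913) (nat_lit 13) (.e (nat_lit 344130) (nat_lit 26) (.e (nat_lit 557090) (nat_lit 12) (.e (nat_lit 163987) (nat_lit 33) .nil)))) (.g (nat_lit 0) (.e (nat_lit 280741) (nat_lit 0) .nil) .nil))) 
(.lf (nat_lit 546558) (.g (nat_lit 4026) (.e (nat_lit 147495) (nat_lit 11) (.e (nat_lit 24608) (nat_lit 3) (.e (nat_lit 98372) (nat_lit 29) (.e (nat_lit 450588) (nat_lit 10) (.e (nat_lit 573452) (nat_lit 9) .nil))))) (.g (nat_lit 0) (.e (nat_lit 283203) (nat_lit 0) .nil) .nil)))) (.nd (nat_lit 9) 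
(.lf (nat_lit 546302) (.g (nat_lit 3093) (.e (nat_lit 131105) (nat_lit 9) (.e (nat_lit 336324) (nat_lit 18) (.e (nat_lit 204838) (nat_lit 20) (.e (nat_lit 114698) (nat_lit 11) (.e (nat_lit 426122) (nat_lit 2) (.e (nat_lit 196681) (nat_lit 17) .nil)))))) (.g (nat_lit 1) (.e (nat_lit 281943) (nat_lit 0) .nil) .nil))) 
(.lf (nat_lit 546814) (.g (nat_lit 2907) (.e (nat_lit 303105) (nat_lit 0) (.e (nat_lit 6989) (nat_lit 377) (.e (nat_lit 2777) (nat_lit 178) (.e (nat_lit 286728) (nat_lit 0) .nil)))) (.g (nat_lit 0) (.e (nat_lit 284106) (nat_lit 0) .nil) .nil)))))))))))) 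
(.nd (nat_lit 1) (.nd (nat_lit 2) (.nd (nat_lit 3) (.nd (nat_lit 4) (.nd (nat_lit 5) 
(.nd (nat_lit 6) (.nd (nat_lit 7) (.nd (nat_lit 8) (.nd (nat_lit 9) 
(.lf (nat_lit 545793) (.g (nat_lit 343) (.e (nat_lit 114719) (nat_lit 23) (.e (nat_lit 98333) (nat_lit 18) (.e (nat_lit 164399) (nat_lit 256) .nil))) (.g (nat_lit 0) (.e (nat_lit 280320) (nat_lit 0) .nil) .nil))) 
(.lf (nat_lit 546305) (.g (nat_lit 2226) (.e (nat_lit 131105) (nat_lit 9) (.e (nat_lit 336454) (nat_lit 34) (.e (nat_lit 483362) (nat_lit 18) (.e (nat_lit 57931) (nat_lit 282) (.e (nat_lit 163869) (nat_lit 2) (.e (nat_lit 196681) (nat_lit 17) .nil)))))) (.g (nat_lit 1) (.e (nat_lit 281966) (nat_lit 0) .nil) .nil)))) (.nd (nat_lit 9) 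
(.lf (nat_lit 546049) (.g (nat_lit 3232) (.e (nat_lit 122914) (nat_lit 14) (.e (nat_lit 352277) (nat_lit 11) (.e (nat_lit 426342) (nat_lit 14) (.e (nat_lit 491558) (nat_lit 10) (.e (nat_lit 344097) (nat_lit 18) (.e (nat_lit 7270) (nat_lit 385) .nil)))))) (.g (nat_lit 1) (.e (nat_lit 280747) (nat_lit 0) .nil) .nil))) 
(.lf (nat_lit 546561) (.g (nat_lit 4822) (.e (nat_lit 147495) (nat_lit 11) (.e (nat_lit 24608) (nat_lit 3) (.e (nat_lit 98373) (nat_lit 29) (.e (nat_lit 450588) (nat_lit 10) (.e (nat_lit 573452) (nat_lit 9) (.e (nat_lit 1310) (nat_lit 98) .nil)))))) (.g (nat_lit 1) (.e (nat_lit 283206) (nat_lit 0) .nil) .nil))))) (.nd (nat_lit 8) (.nd (nat_lit 9) 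
(.lf (nat_lit 545921) (.g (nat_lit 4364) (.e (nat_lit 114719) (nat_lit 23) (.e (nat_lit 98367) (nat_lit 27) (.e (nat_lit 434231) (nat_lit 23) (.e (nat_lit 532500) (nat_lit 1) (.e (nat_lit 57691) (nat_lit 156) (.e (nat_lit 163874) (nat_lit 3) (.e (nat_lit 204837) (nat_lit 20) .nil))))))) (.g (nat_lit 1) (.e (nat_lit 280566) (nat_lit 0) .nil) .nil))) 
(.lf (nat_lit 546433) (.g (nat_lit 4020) (.e (nat_lit 131125) (nat_lit 13) (.e (nat_lit 393225) (nat_lit 9) (.e (nat_lit 335988) (nat_lit 1) (.e (nat_lit 57931) (nat_lit 282) (.e (nat_lit 163869) (nat_lit 2) (.e (nat_lit 196681) (nat_lit 17) .nil)))))) (.g (nat_lit 1) (.e (nat_lit 282389) (nat_lit 0) .nil) .nil)))) (.nd (nat_lit 9) 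
(.lf (nat_lit 546177) (.g (nat_lit 1965) (.e (nat_lit 123195) (nat_lit 266) (.e (nat_lit 57400) (nat_lit 10) (.e (nat_lit 319490) (nat_lit 0) (.e (nat_lit 5664) (nat_lit 312) (.e (nat_lit 2852) (nat_lit 184) (.e (nat_lit 426538) (nat_lit 29) (.e (nat_lit 352317) (nat_lit 24) .nil))))))) (.g (nat_lit 1) (.e (nat_lit 281286) (nat_lit 0) .nil) .nil))) 
(.lf (nat_lit 546689) (.g (nat_lit 406) (.e (nat_lit 270373) (nat_lit 16) (.e (nat_lit 286756) (nat_lit 10) (.e (nat_lit 344154) (nat_lit 35) .nil))) (.g (nat_lit 0) (.e (nat_lit 283807) (nat_lit 0) .nil) .nil)))))) (.nd (nat_lit 7) (.nd (nat_lit 8) (.nd (nat_lit 9) 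
(.lf (nat_lit 545857) (.g (nat_lit 417) (.e (nat_lit 114719) (nat_lit 23) (.e (nat_lit 98366) (nat_lit 27) (.e (nat_lit 434231) (nat_lit 23) .nil))) (.g (nat_lit 0) (.e (nat_lit 280427) (nat_lit 0) .nil) .nil))) 
(.lf (nat_lit 546369) (.g (nat_lit 3066) (.e (nat_lit 131109) (nat_lit 9) (.e (nat_lit 336454) (nat_lit 34) (.e (nat_lit 483365) (nat_lit 18) (.e (nat_lit 57930) (nat_lit 282) (.e (nat_lit 163867) (nat_lit 2) (.e (nat_lit 196681) (nat_lit 17) .nil)))))) (.g (nat_lit 1) (.e (nat_lit 282190) (nat_lit 0) .nil) .nil)))) (.nd (nat_lit 9) 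
(.lf (nat_lit 546113) (.g (nat_lit 989) (.e (nat_lit 123002) (nat_lit 86) (.e (nat_lit 532550) (nat_lit 12) (.e (nat_lit 360475) (nat_lit 8) .nil))) (.g (nat_lit 0) (.e (nat_lit 280943) (nat_lit 0) .nil) .nil))) 
(.lf (nat_lit 546625) (.g (nat_lit 1625) (.e (nat_lit 163584) (nat_lit 4) (.e (nat_lit 172118) (nat_lit 12) (.e (nat_lit 475211) (nat_lit 41) (.e (nat_lit 712750) (nat_lit 29) (.e (nat_lit 442382) (nat_lit 8) .nil))))) (.g (nat_lit 0) (.e (nat_lit 283514) (nat_lit 0) .nil) .nil))))) (.nd (nat_lit 8) (.nd (nat_lit 9) 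
(.lf (nat_lit 545985) (.g (nat_lit 3360) (.e (nat_lit 114719) (nat_lit 23) (.e (nat_lit 98386) (nat_lit 32) (.e (nat_lit 475179) (nat_lit 24) (.e (nat_lit 516120) (nat_lit 1) (.e (nat_lit 164330) (nat_lit 230) (.e (nat_lit 163874) (nat_lit 3) (.e (nat_lit 204837) (nat_lit 20) .nil))))))) (.g (nat_lit 1) (.e (nat_lit 280641) (nat_lit 0) .nil) .nil))) 
(.lf (nat_lit 546497) (.g (nat_lit 604) (.e (nat_lit 139264) (nat_lit 0) (.e (nat_lit 375) (nat_lit 32) (.e (nat_lit 426173) (nat_lit 7) .nil))) (.g (nat_lit 0) (.e (nat_lit 282892) (nat_lit 0) .nil) .nil)))) (.nd (nat_lit 9) 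
(.lf (nat_lit 546241) (.g (nat_lit 2154) (.e (nat_lit 131096) (nat_lit 3) (.e (nat_lit 98333) (nat_lit 18) (.e (nat_lit 164177) (nat_lit 154) (.e (nat_lit 57377) (nat_lit 3) (.e (nat_lit 98342) (nat_lit 20) .nil))))) (.g (nat_lit 0) (.e (nat_lit 281747) (nat_lit 0) .nil) .nil))) 
(.lf (nat_lit 546753) (.g (nat_lit 3455) (.e (nat_lit 278567) (nat_lit 16) (.e (nat_lit 286733) (nat_lit 2) (.e (nat_lit 90170) (nat_lit 13) (.e (nat_lit 172106) (nat_lit 10) (.e (nat_lit 434227) (nat_lit 20) .nil))))) (.g (nat_lit 0) (.e (nat_lit 283946) (nat_lit 0) .nil) .nil))))))) (.nd (nat_lit 6) (.nd (nat_lit 7) (.nd (nat_lit 8) (.nd (nat_lit 9) 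
(.lf (nat_lit 545825) (.g (nat_lit 4062) (.e (nat_lit 114719) (nat_lit 23) (.e (nat_lit 98354) (nat_lit 26) (.e (nat_lit 426436) (nat_lit 18) (.e (nat_lit 98335) (nat_lit 18) (.e (nat_lit 164305) (nat_lit 226) .nil))))) (.g (nat_lit 0) (.e (nat_lit 280378) (nat_lit 0) .nil) .nil))) 
(.lf (nat_lit 546337) (.g (nat_lit 3139) (.e (nat_lit 131108) (nat_lit 9) (.e (nat_lit 336019) (nat_lit 3) (.e (nat_lit 98350) (nat_lit 24) (.e (nat_lit 409645) (nat_lit 18) (.e (nat_lit 303117) (nat_lit 2) .nil))))) (.g (nat_lit 0) (.e (nat_lit 282031) (nat_lit 0) .nil) .nil)))) (.nd (nat_lit 9) 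
(.lf (nat_lit 546081) (.g (nat_lit 2759) (.e (nat_lit 122936) (nat_lit 23) (.e (nat_lit 516117) (nat_lit 1) (.e (nat_lit 164403) (nat_lit 256) (.e (nat_lit 57378) (nat_lit 3) (.e (nat_lit 98366) (nat_lit 27) .nil))))) (.g (nat_lit 0) (.e (nat_lit 280805) (nat_lit 0) .nil) .nil))) 
(.lf (nat_lit 546593) (.g (nat_lit 3977) (.e (nat_lit 147496) (nat_lit 11) (.e (nat_lit 24604) (nat_lit 2) (.e (nat_lit 90178) (nat_lit 15) (.e (nat_lit 188440) (nat_lit 20) (.e (nat_lit 3307) (nat_lit 202) (.e (nat_lit 573456) (nat_lit 9) (.e (nat_lit 1312) (nat_lit 98) .nil))))))) (.g (nat_lit 1) (.e (nat_lit 283250) (nat_lit 0) .nil) .nil))))) (.nd (nat_lit 8) (.nd (nat_lit 9) 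
(.lf (nat_lit 545953) (.g (nat_lit 1232) (.e (nat_lit 114719) (nat_lit 23) (.e (nat_lit 98384) (nat_lit 32) (.e (nat_lit 475177) (nat_lit 24) (.e (nat_lit 516120) (nat_lit 1) .nil)))) (.g (nat_lit 0) (.e (nat_lit 280605) (nat_lit 0) .nil) .nil))) 
(.lf (nat_lit 546465) (.g (nat_lit 4351) (.e (nat_lit 131133) (nat_lit 15) (.e (nat_lit 3305) (nat_lit 202) (.e (nat_lit 573484) (nat_lit 13) (.e (nat_lit 65610) (nat_lit 10) (.e (nat_lit 344117) (nat_lit 21) (.e (nat_lit 516106) (nat_lit 0) (.e (nat_lit 7936) (nat_lit 409) .nil))))))) (.g (nat_lit 1) (.e (nat_lit 282525) (nat_lit 0) .nil) .nil)))) (.nd (nat_lit 9) 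
(.lf (nat_lit 546209) (.g (nat_lit 2373) (.e (nat_lit 123198) (nat_lit 266) (.e (nat_lit 57435) (nat_lit 17) (.e (nat_lit 376835) (nat_lit 0) (.e (nat_lit 3632) (nat_lit 227) (.e (nat_lit 778327) (nat_lit 6) (.e (nat_lit 81959) (nat_lit 24) .nil)))))) (.g (nat_lit 1) (.e (nat_lit 281333) (nat_lit 0) .nil) .nil))) 
(.lf (nat_lit 546721) (.g (nat_lit 3224) (.e (nat_lit 278562) (nat_lit 13) (.e (nat_lit 49188) (nat_lit 11) (.e (nat_lit 16466) (nat_lit 13) (.e (nat_lit 483372) (nat_lit 21) (.e (nat_lit 319526) (nat_lit 15) .nil))))) (.g (nat_lit 1) (.e (nat_lit 283907) (nat_lit 0) .nil) .nil)))))) (.nd (nat_lit 7) (.nd (nat_lit 8) (.nd (nat_lit 9) 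
(.lf (nat_lit 545889) (.g (nat_lit 2690) (.e (nat_lit 114719) (nat_lit 23) (.e (nat_lit 98366) (nat_lit 27) (.e (nat_lit 434231) (nat_lit 23) (.e (nat_lit 532502) (nat_lit 1) (.e (nat_lit 57691) (nat_lit 156) (.e (nat_lit 163875) (nat_lit 3) (.e (nat_lit 204838) (nat_lit 20) .nil))))))) (.g (nat_lit 1) (.e (nat_lit 280495) (nat_lit 0) .nil) .nil))) 
(.lf (nat_lit 546401) (.g (nat_lit 2058) (.e (nat_lit 131121) (nat_lit 12) (.e (nat_lit 385074) (nat_lit 31) (.e (nat_lit 573485) (nat_lit 13) (.e (nat_lit 65628) (nat_lit 14) .nil)))) (.g (nat_lit 0) (.e (nat_lit 282286) (nat_lit 0) .nil) .nil)))) (.nd (nat_lit 9) 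
(.lf (nat_lit 546145) (.g (nat_lit 2124) (.e (nat_lit 123173) (nat_lit 256) (.e (nat_lit 3090) (nat_lit 191) (.e (nat_lit 483372) (nat_lit 21) (.e (nat_lit 319534) (nat_lit 16) .nil)))) (.g (nat_lit 0) (.e (nat_lit 281225) (nat_lit 0) .nil) .nil))) 
(.lf (nat_lit 546657) (.g (nat_lit 373) (.e (nat_lit 163584) (nat_lit 6) (.e (nat_lit 188441) (nat_lit 20) (.e (nat_lit 3406) (nat_lit 212) .nil))) (.g (nat_lit 0) (.e (nat_lit 283705) (nat_lit 0) .nil) .nil))))) (.nd (nat_lit 8) (.nd (nat_lit 9) 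
(.lf (nat_lit 546017) (.g (nat_lit 2430) (.e (nat_lit 122904) (nat_lit 12) (.e (nat_lit 336454) (nat_lit 34) (.e (nat_lit 483383) (nat_lit 23) (.e (nat_lit 336019) (nat_lit 3) (.e (nat_lit 98335) (nat_lit 18) (.e (nat_lit 164184) (nat_lit 155) .nil)))))) (.g (nat_lit 1) (.e (nat_lit 280705) (nat_lit 0) .nil) .nil))) 
(.lf (nat_lit 546529) (.g (nat_lit 2016) (.e (nat_lit 147494) (nat_lit 11) (.e (nat_lit 24605) (nat_lit 2) (.e (nat_lit 90170) (nat_lit 13) (.e (nat_lit 172106) (nat_lit 10) (.e (nat_lit 434244) (nat_lit 28) .nil))))) (.g (nat_lit 0) (.e (nat_lit 283164) (nat_lit 0) .nil) .nil)))) (.nd (nat_lit 9) 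
(.lf (nat_lit 546273) (.g (nat_lit 2750) (.e (nat_lit 131098) (nat_lit 3) (.e (nat_lit 98335) (nat_lit 18) (.e (nat_lit 164179) (nat_lit 154) (.e (nat_lit 57378) (nat_lit 3) (.e (nat_lit 98341) (nat_lit 20) .nil))))) (.g (nat_lit 0) (.e (nat_lit 281871) (nat_lit 0) .nil) .nil))) 
(.lf (nat_lit 546785) (.g (nat_lit 1091) (.e (nat_lit 278547) (nat_lit 8) (.e (nat_lit 303137) (nat_lit 10) (.e (nat_lit 434266) (nat_lit 35) (.e (nat_lit 630821) (nat_lit 16) (.e (nat_lit 65583) (nat_lit 7) (.e (nat_lit 319526) (nat_lit 15) .nil)))))) (.g (nat_lit 1) (.e (nat_lit 284036) (nat_lit 0) .nil) .nil)))))))) 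
(.nd (nat_lit 5) (.nd (nat_lit 6) (.nd (nat_lit 7) (.nd (nat_lit 8) (.nd (nat_lit 9) 
(.lf (nat_lit 545809) (.g (nat_lit 4031) (.e (nat_lit 114719) (nat_lit 23) (.e (nat_lit 98334) (nat_lit 18) (.e (nat_lit 164403) (nat_lit 256) (.e (nat_lit 57378) (nat_lit 3) (.e (nat_lit 98367) (nat_lit 27) (.e (nat_lit 434231) (nat_lit 23) (.e (nat_lit 532514) (nat_lit 3) .nil))))))) (.g (nat_lit 1) (.e (nat_lit 280353) (nat_lit 0) .nil) .nil))) 
(.lf (nat_lit 546321) (.g (nat_lit 1414) (.e (nat_lit 131107) (nat_lit 9) (.e (nat_lit 336324) (nat_lit 18) (.e (nat_lit 204837) (nat_lit 20) (.e (nat_lit 114698) (nat_lit 11) .nil)))) (.g (nat_lit 0) (.e (nat_lit 282008) (nat_lit 0) .nil) .nil)))) (.nd (nat_lit 9) 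
(.lf (nat_lit 546065) (.g (nat_lit 5149) (.e (nat_lit 122935) (nat_lit 23) (.e (nat_lit 516166) (nat_lit 12) (.e (nat_lit 450588) (nat_lit 10) (.e (nat_lit 573470) (nat_lit 11) .nil)))) (.g (nat_lit 0) (.e (nat_lit 280781) (nat_lit 0) .nil) .nil))) 
(.lf (nat_lit 546577) (.g (nat_lit 4406) (.e (nat_lit 147495) (nat_lit 11) (.e (nat_lit 24665) (nat_lit 14) (.e (nat_lit 401451) (nat_lit 12) (.e (nat_lit 475214) (nat_lit 42) (.e (nat_lit 720954) (nat_lit 25) (.e (nat_lit 114727) (nat_lit 28) .nil)))))) (.g (nat_lit 1) (.e (nat_lit 283232) (nat_lit 0) .nil) .nil))))) (.nd (nat_lit 8) (.nd (nat_lit 9) 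
(.lf (nat_lit 545937) (.g (nat_lit 3739) (.e (nat_lit 114719) (nat_lit 23) (.e (nat_lit 98367) (nat_lit 27) (.e (nat_lit 434234) (nat_lit 23) (.e (nat_lit 532499) (nat_lit 1) (.e (nat_lit 57688) (nat_lit 156) (.e (nat_lit 163873) (nat_lit 3) (.e (nat_lit 204837) (nat_lit 20) .nil))))))) (.g (nat_lit 1) (.e (nat_lit 280583) (nat_lit 0) .nil) .nil))) 
(.lf (nat_lit 546449) (.g (nat_lit 3986) (.e (nat_lit 131128) (nat_lit 13) (.e (nat_lit 393225) (nat_lit 9) (.e (nat_lit 335988) (nat_lit 1) (.e (nat_lit 57931) (nat_lit 282) (.e (nat_lit 163869) (nat_lit 2) (.e (nat_lit 196681) (nat_lit 17) .nil)))))) (.g (nat_lit 1) (.e (nat_lit 282451) (nat_lit 0) .nil) .nil)))) (.nd (nat_lit 9) 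
(.lf (nat_lit 546193) (.g (nat_lit 2769) (.e (nat_lit 123197) (nat_lit 266) (.e (nat_lit 57400) (nat_lit 10) (.e (nat_lit 319490) (nat_lit 0) (.e (nat_lit 5664) (nat_lit 312) (.e (nat_lit 3085) (nat_lit 191) (.e (nat_lit 483387) (nat_lit 23) (.e (nat_lit 336032) (nat_lit 4) .nil))))))) (.g (nat_lit 1) (.e (nat_lit 281311) (nat_lit 0) .nil) .nil))) 
(.lf (nat_lit 546705) (.g (nat_lit 866) (.e (nat_lit 270354) (nat_lit 8) (.e (nat_lit 303117) (nat_lit 2) (.e (nat_lit 196665) (nat_lit 13) .nil))) (.g (nat_lit 0) (.e (nat_lit 283843) (nat_lit 0) .nil) .nil)))))) (.nd (nat_lit 7) (.nd (nat_lit 8) (.nd (nat_lit 9) 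
(.lf (nat_lit 545873) (.g (nat_lit 2660) (.e (nat_lit 114719) (nat_lit 23) (.e (nat_lit 98366) (nat_lit 27) (.e (nat_lit 434231) (nat_lit 23) (.e (nat_lit 532500) (nat_lit 1) (.e (nat_lit 57685) (nat_lit 156) .nil))))) (.g (nat_lit 0) (.e (nat_lit 280477) (nat_lit 0) .nil) .nil))) 
(.lf (nat_lit 546385) (.g (nat_lit 2480) (.e (nat_lit 131120) (nat_lit 12) (.e (nat_lit 385066) (nat_lit 26) (.e (nat_lit 532515) (nat_lit 3) (.e (nat_lit 114697) (nat_lit 11) (.e (nat_lit 426124) (nat_lit 2) (.e (nat_lit 196681) (nat_lit 17) .nil)))))) (.g (nat_lit 1) (.e (nat_lit 282244) (nat_lit 0) .nil) .nil)))) (.nd (nat_lit 9) 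
(.lf (nat_lit 546129) (.g (nat_lit 1635) (.e (nat_lit 130816) (nat_lit 206) (.e (nat_lit 180250) (nat_lit 10) (.e (nat_lit 573469) (nat_lit 11) (.e (nat_lit 24320) (nat_lit 9) .nil)))) (.g (nat_lit 0) (.e (nat_lit 281127) (nat_lit 0) .nil) .nil))) 
(.lf (nat_lit 546641) (.g (nat_lit 319) (.e (nat_lit 163584) (nat_lit 6) (.e (nat_lit 188420) (nat_lit 0) (.e (nat_lit 2057) (nat_lit 142) (.e (nat_lit 704598) (nat_lit 6) (.e (nat_lit 196352) (nat_lit 8) .nil))))) (.g (nat_lit 0) (.e (nat_lit 283669) (nat_lit 0) .nil) .nil))))) (.nd (nat_lit 8) (.nd (nat_lit 9) 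
(.lf (nat_lit 546001) (.g (nat_lit 2042) (.e (nat_lit 122880) (nat_lit 0) (.e (nat_lit 7280) (nat_lit 386) (.e (nat_lit 163875) (nat_lit 3) (.e (nat_lit 204837) (nat_lit 20) (.e (nat_lit 114718) (nat_lit 23) .nil))))) (.g (nat_lit 0) (.e (nat_lit 280677) (nat_lit 0) .nil) .nil))) 
(.lf (nat_lit 546513) (.g (nat_lit 2360) (.e (nat_lit 139289) (nat_lit 9) (.e (nat_lit 2687) (nat_lit 169) (.e (nat_lit 213032) (nat_lit 11) (.e (nat_lit 24604) (nat_lit 2) (.e (nat_lit 90178) (nat_lit 15) .nil))))) (.g (nat_lit 0) (.e (nat_lit 283034) (nat_lit 0) .nil) .nil)))) (.nd (nat_lit 9) 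
(.lf (nat_lit 546257) (.g (nat_lit 2563) (.e (nat_lit 131096) (nat_lit 3) (.e (nat_lit 98335) (nat_lit 18) (.e (nat_lit 164183) (nat_lit 154) (.e (nat_lit 57378) (nat_lit 3) (.e (nat_lit 98340) (nat_lit 20) .nil))))) (.g (nat_lit 0) (.e (nat_lit 281802) (nat_lit 0) .nil) .nil))) 
(.lf (nat_lit 546769) (.g (nat_lit 1097) (.e (nat_lit 278567) (nat_lit 16) (.e (nat_lit 286754) (nat_lit 10) (.e (nat_lit 344157) (nat_lit 36) (.e (nat_lit 638999) (nat_lit 8) (.e (nat_lit 172080) (nat_lit 7) (.e (nat_lit 409639) (nat_lit 15) .nil)))))) (.g (nat_lit 1) (.e (nat_lit 283980) (nat_lit 0) .nil) .nil))))))) (.nd (nat_lit 6) (.nd (nat_lit 7) (.nd (nat_lit 8) (.nd (nat_lit 9) 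
(.lf (nat_lit 545841) (.g (nat_lit 3352) (.e (nat_lit 114719) (nat_lit 23) (.e (nat_lit 98356) (nat_lit 26) (.e (nat_lit 426438) (nat_lit 18) (.e (nat_lit 98335) (nat_lit 18) (.e (nat_lit 164327) (nat_lit 230) (.e (nat_lit 163875) (nat_lit 3) (.e (nat_lit 204836) (nat_lit 20) .nil))))))) (.g (nat_lit 1) (.e (nat_lit 280396) (nat_lit 0) .nil) .nil))) 
(.lf (nat_lit 546353) (.g (nat_lit 3188) (.e (nat_lit 131109) (nat_lit 9) (.e (nat_lit 336019) (nat_lit 3) (.e (nat_lit 98350) (nat_lit 24) (.e (nat_lit 409649) (nat_lit 18) (.e (nat_lit 303111) (nat_lit 0) (.e (nat_lit 3146) (nat_lit 193) (.e (nat_lit 500089) (nat_lit 22) .nil))))))) (.g (nat_lit 1) (.e (nat_lit 282104) (nat_lit 0) .nil) .nil)))) (.nd (nat_lit 9) 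
(.lf (nat_lit 546097) (.g (nat_lit 2980) (.e (nat_lit 122937) (nat_lit 23) (.e (nat_lit 516117) (nat_lit 1) (.e (nat_lit 164403) (nat_lit 256) (.e (nat_lit 57373) (nat_lit 2) (.e (nat_lit 90174) (nat_lit 14) .nil))))) (.g (nat_lit 0) (.e (nat_lit 280835) (nat_lit 0) .nil) .nil))) 
(.lf (nat_lit 546609) (.g (nat_lit 1820) (.e (nat_lit 155650) (nat_lit 0) (.e (nat_lit 2887) (nat_lit 184) (.e (nat_lit 426317) (nat_lit 12) (.e (nat_lit 475198) (nat_lit 40) (.e (nat_lit 704598) (nat_lit 6) .nil))))) (.g (nat_lit 0) (.e (nat_lit 283347) (nat_lit 0) .nil) .nil))))) (.nd (nat_lit 8) (.nd (nat_lit 9) 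
(.lf (nat_lit 545969) (.g (nat_lit 1548) (.e (nat_lit 114719) (nat_lit 23) (.e (nat_lit 98384) (nat_lit 32) (.e (nat_lit 475179) (nat_lit 24) (.e (nat_lit 516120) (nat_lit 1) .nil)))) (.g (nat_lit 0) (.e (nat_lit 280623) (nat_lit 0) .nil) .nil))) 
(.lf (nat_lit 546481) (.g (nat_lit 2003) (.e (nat_lit 131140) (nat_lit 27) (.e (nat_lit 426306) (nat_lit 12) (.e (nat_lit 475210) (nat_lit 41) (.e (nat_lit 712747) (nat_lit 28) (.e (nat_lit 442112) (nat_lit 7) .nil))))) (.g (nat_lit 1) (.e (nat_lit 282694) (nat_lit 0) .nil) .nil)))) (.nd (nat_lit 9) 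
(.lf (nat_lit 546225) (.g (nat_lit 860) (.e (nat_lit 131088) (nat_lit 1) (.e (nat_lit 57847) (nat_lit 252) (.e (nat_lit 57377) (nat_lit 3) .nil))) (.g (nat_lit 0) (.e (nat_lit 281600) (nat_lit 0) .nil) .nil))) 
(.lf (nat_lit 546737) (.g (nat_lit 1454) (.e (nat_lit 278566) (nat_lit 16) (.e (nat_lit 286753) (nat_lit 10) (.e (nat_lit 344157) (nat_lit 36) (.e (nat_lit 638999) (nat_lit 8) (.e (nat_lit 172079) (nat_lit 7) (.e (nat_lit 409639) (nat_lit 15) .nil)))))) (.g (nat_lit 1) (.e (nat_lit 283929) (nat_lit 0) .nil) .nil)))))) (.nd (nat_lit 7) (.nd (nat_lit 8) (.nd (nat_lit 9) 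
(.lf (nat_lit 545905) (.g (nat_lit 2798) (.e (nat_lit 114719) (nat_lit 23) (.e (nat_lit 98367) (nat_lit 27) (.e (nat_lit 434231) (nat_lit 23) (.e (nat_lit 532499) (nat_lit 1) (.e (nat_lit 57688) (nat_lit 156) (.e (nat_lit 163873) (nat_lit 3) (.e (nat_lit 204836) (nat_lit 20) .nil))))))) (.g (nat_lit 1) (.e (nat_lit 280535) (nat_lit 0) .nil) .nil))) 
(.lf (nat_lit 546417) (.g (nat_lit 2838) (.e (nat_lit 131123) (nat_lit 12) (.e (nat_lit 385068) (nat_lit 26) (.e (nat_lit 532513) (nat_lit 3) (.e (nat_lit 114698) (nat_lit 11) (.e (nat_lit 426114) (nat_lit 2) (.e (nat_lit 196681) (nat_lit 17) .nil)))))) (.g (nat_lit 1) (.e (nat_lit 282347) (nat_lit 0) .nil) .nil)))) (.nd (nat_lit 9) 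
(.lf (nat_lit 546161) (.g (nat_lit 2004) (.e (nat_lit 123183) (nat_lit 264) (.e (nat_lit 1201) (nat_lit 88) (.e (nat_lit 65630) (nat_lit 14) (.e (nat_lit 401437) (nat_lit 9) (.e (nat_lit 426555) (nat_lit 32) .nil))))) (.g (nat_lit 0) (.e (nat_lit 281251) (nat_lit 0) .nil) .nil))) 
(.lf (nat_lit 546673) (.g (nat_lit 2508) (.e (nat_lit 270373) (nat_lit 16) (.e (nat_lit 286735) (nat_lit 3) (.e (nat_lit 98359) (nat_lit 26) (.e (nat_lit 426285) (nat_lit 10) .nil)))) (.g (nat_lit 0) (.e (nat_lit 283786) (nat_lit 0) .nil) .nil))))) (.nd (nat_lit 8) (.nd (nat_lit 9) 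
(.lf (nat_lit 546033) (.g (nat_lit 3067) (.e (nat_lit 122911) (nat_lit 13) (.e (nat_lit 344129) (nat_lit 26) (.e (nat_lit 557090) (nat_lit 12) (.e (nat_lit 163987) (nat_lit 33) .nil)))) (.g (nat_lit 0) (.e (nat_lit 280723) (nat_lit 0) .nil) .nil))) 
(.lf (nat_lit 546545) (.g (nat_lit 2101) (.e (nat_lit 147495) (nat_lit 11) (.e (nat_lit 24604) (nat_lit 2) (.e (nat_lit 90170) (nat_lit 13) (.e (nat_lit 172106) (nat_lit 10) (.e (nat_lit 434244) (nat_lit 28) .nil))))) (.g (nat_lit 0) (.e (nat_lit 283189) (nat_lit 0) .nil) .nil)))) (.nd (nat_lit 9) 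
(.lf (nat_lit 546289) (.g (nat_lit 3738) (.e (nat_lit 131105) (nat_lit 9) (.e (nat_lit 336019) (nat_lit 3) (.e (nat_lit 98350) (nat_lit 24) (.e (nat_lit 409648) (nat_lit 18) (.e (nat_lit 303116) (nat_lit 2) (.e (nat_lit 196681) (nat_lit 17) .nil)))))) (.g (nat_lit 1) (.e (nat_lit 281912) (nat_lit 0) .nil) .nil))) 
(.lf (nat_lit 546801) (.g (nat_lit 4083) (.e (nat_lit 303104) (nat_lit 0) (.e (nat_lit 3238) (nat_lit 197) (.e (nat_lit 532535) (nat_lit 9) (.e (nat_lit 336173) (nat_lit 10) (.e (nat_lit 344116) (nat_lit 21) .nil))))) (.g (nat_lit 0) (.e (nat_lit 284077) (nat_lit 0) .nil) .nil))))))))) (.nd (nat_lit 4) (.nd (nat_lit 5) (.nd (nat_lit 6) (.nd (nat_lit 7) (.nd (nat_lit 8) (.nd (nat_lit 9) 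
(.lf (nat_lit 545801) (.g (nat_lit 2491) (.e (nat_lit 114719) (nat_lit 23) (.e (nat_lit 98334) (nat_lit 18) (.e (nat_lit 164398) (nat_lit 256) (.e (nat_lit 57372) (nat_lit 2) (.e (nat_lit 90167) (nat_lit 13) .nil))))) (.g (nat_lit 0) (.e (nat_lit 280343) (nat_lit 0) .nil) .nil))) 
(.lf (nat_lit 546313) (.g (nat_lit 2900) (.e (nat_lit 131105) (nat_lit 9) (.e (nat_lit 336454) (nat_lit 34) (.e (nat_lit 483365) (nat_lit 18) (.e (nat_lit 57929) (nat_lit 282) (.e (nat_lit 163869) (nat_lit 2) (.e (nat_lit 196681) (nat_lit 17) .nil)))))) (.g (nat_lit 1) (.e (nat_lit 281986) (nat_lit 0) .nil) .nil)))) (.nd (nat_lit 9) 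
(.lf (nat_lit 546057) (.g (nat_lit 1361) (.e (nat_lit 122919) (nat_lit 15) (.e (nat_lit 360451) (nat_lit 0) (.e (nat_lit 7684) (nat_lit 410) (.e (nat_lit 2650) (nat_lit 166) (.e (nat_lit 188455) (nat_lit 24) (.e (nat_lit 237312) (nat_lit 125) .nil)))))) (.g (nat_lit 1) (.e (nat_lit 280759) (nat_lit 0) .nil) .nil))) 
(.lf (nat_lit 546569) (.g (nat_lit 615) (.e (nat_lit 147495) (nat_lit 11) (.e (nat_lit 24658) (nat_lit 13) (.e (nat_lit 393238) (nat_lit 17) .nil))) (.g (nat_lit 0) (.e (nat_lit 283219) (nat_lit 0) .nil) .nil))))) (.nd (nat_lit 8) (.nd (nat_lit 9) 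
(.lf (nat_lit 545929) (.g (nat_lit 3725) (.e (nat_lit 114719) (nat_lit 23) (.e (nat_lit 98367) (nat_lit 27) (.e (nat_lit 434232) (nat_lit 23) (.e (nat_lit 532499) (nat_lit 1) (.e (nat_lit 57688) (nat_lit 156) (.e (nat_lit 163875) (nat_lit 3) (.e (nat_lit 204838) (nat_lit 20) .nil))))))) (.g (nat_lit 1) (.e (nat_lit 280575) (nat_lit 0) .nil) .nil))) 
(.lf (nat_lit 546441) (.g (nat_lit 1986) (.e (nat_lit 131127) (nat_lit 13) (.e (nat_lit 393229) (nat_lit 9) (.e (nat_lit 335986) (nat_lit 1) (.e (nat_lit 57927) (nat_lit 282) (.e (nat_lit 163866) (nat_lit 2) (.e (nat_lit 196680) (nat_lit 17) .nil)))))) (.g (nat_lit 1) (.e (nat_lit 282426) (nat_lit 0) .nil) .nil)))) (.nd (nat_lit 9) 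
(.lf (nat_lit 546185) (.g (nat_lit 2231) (.e (nat_lit 123195) (nat_lit 266) (.e (nat_lit 57400) (nat_lit 10) (.e (nat_lit 319490) (nat_lit 0) (.e (nat_lit 5664) (nat_lit 312) (.e (nat_lit 3085) (nat_lit 191) (.e (nat_lit 483382) (nat_lit 23) (.e (nat_lit 343808) (nat_lit 4) .nil))))))) (.g (nat_lit 1) (.e (nat_lit 281294) (nat_lit 0) .nil) .nil))) 
(.lf (nat_lit 546697) (.g (nat_lit 1549) (.e (nat_lit 270373) (nat_lit 16) (.e (nat_lit 286761) (nat_lit 13) (.e (nat_lit 393293) (nat_lit 26) (.e (nat_lit 475200) (nat_lit 40) .nil)))) (.g (nat_lit 0) (.e (nat_lit 283818) (nat_lit 0) .nil) .nil)))))) (.nd (nat_lit 7) (.nd (nat_lit 8) (.nd (nat_lit 9) 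
(.lf (nat_lit 545865) (.g (nat_lit 3183) (.e (nat_lit 114719) (nat_lit 23) (.e (nat_lit 98366) (nat_lit 27) (.e (nat_lit 434231) (nat_lit 23) (.e (nat_lit 532499) (nat_lit 1) (.e (nat_lit 57686) (nat_lit 156) (.e (nat_lit 163875) (nat_lit 3) (.e (nat_lit 204836) (nat_lit 20) .nil))))))) (.g (nat_lit 1) (.e (nat_lit 280457) (nat_lit 0) .nil) .nil))) 
(.lf (nat_lit 546377) (.g (nat_lit 2221) (.e (nat_lit 131116) (nat_lit 9) (.e (nat_lit 336021) (nat_lit 3) (.e (nat_lit 98350) (nat_lit 24) (.e (nat_lit 409616) (nat_lit 10) .nil)))) (.g (nat_lit 0) (.e (nat_lit 282226) (nat_lit 0) .nil) .nil)))) (.nd (nat_lit 9) 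
(.lf (nat_lit 546121) (.g (nat_lit 616) (.e (nat_lit 123025) (nat_lit 127) (.e (nat_lit 229415) (nat_lit 15) (.e (nat_lit 450563) (nat_lit 0) .nil))) (.g (nat_lit 0) (.e (nat_lit 280976) (nat_lit 0) .nil) .nil))) 
(.lf (nat_lit 546633) (.g (nat_lit 2071) (.e (nat_lit 163584) (nat_lit 4) (.e (nat_lit 172120) (nat_lit 12) (.e (nat_lit 475211) (nat_lit 41) (.e (nat_lit 712750) (nat_lit 29) (.e (nat_lit 442382) (nat_lit 8) .nil))))) (.g (nat_lit 0) (.e (nat_lit 283527) (nat_lit 0) .nil) .nil))))) (.nd (nat_lit 8) (.nd (nat_lit 9) 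
(.lf (nat_lit 545993) (.g (nat_lit 3296) (.e (nat_lit 114721) (nat_lit 24) (.e (nat_lit 106536) (nat_lit 11) (.e (nat_lit 16436) (nat_lit 9) (.e (nat_lit 426448) (nat_lit 20) .nil)))) (.g (nat_lit 0) (.e (nat_lit 280651) (nat_lit 0) .nil) .nil))) 
(.lf (nat_lit 546505) (.g (nat_lit 2935) (.e (nat_lit 139285) (nat_lit 9) (.e (nat_lit 2830) (nat_lit 182) (.e (nat_lit 409645) (nat_lit 18) (.e (nat_lit 303117) (nat_lit 2) (.e (nat_lit 196673) (nat_lit 15) .nil))))) (.g (nat_lit 0) (.e (nat_lit 282998) (nat_lit 0) .nil) .nil)))) (.nd (nat_lit 9) 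
(.lf (nat_lit 546249) (.g (nat_lit 2654) (.e (nat_lit 131096) (nat_lit 3) (.e (nat_lit 98335) (nat_lit 18) (.e (nat_lit 164179) (nat_lit 154) (.e (nat_lit 57377) (nat_lit 3) (.e (nat_lit 98341) (nat_lit 20) .nil))))) (.g (nat_lit 0) (.e (nat_lit 281790) (nat_lit 0) .nil) .nil))) 
(.lf (nat_lit 546761) (.g (nat_lit 2208) (.e (nat_lit 278567) (nat_lit 16) (.e (nat_lit 286734) (nat_lit 3) (.e (nat_lit 98359) (nat_lit 26) (.e (nat_lit 426285) (nat_lit 10) (.e (nat_lit 434227) (nat_lit 20) .nil))))) (.g (nat_lit 0) (.e (nat_lit 283954) (nat_lit 0) .nil) .nil))))))) (.nd (nat_lit 6) (.nd (nat_lit 7) (.nd (nat_lit 8) (.nd (nat_lit 9) 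
(.lf (nat_lit 545833) (.g (nat_lit 2971) (.e (nat_lit 114719) (nat_lit 23) (.e (nat_lit 98356) (nat_lit 26) (.e (nat_lit 426436) (nat_lit 18) (.e (nat_lit 98335) (nat_lit 18) (.e (nat_lit 164330) (nat_lit 230) .nil))))) (.g (nat_lit 0) (.e (nat_lit 280388) (nat_lit 0) .nil) .nil))) 
(.lf (nat_lit 546345) (.g (nat_lit 3848) (.e (nat_lit 131109) (nat_lit 9) (.e (nat_lit 336019) (nat_lit 3) (.e (nat_lit 98350) (nat_lit 24) (.e (nat_lit 409646) (nat_lit 18) (.e (nat_lit 303117) (nat_lit 2) (.e (nat_lit 196681) (nat_lit 17) .nil)))))) (.g (nat_lit 1) (.e (nat_lit 282095) (nat_lit 0) .nil) .nil)))) (.nd (nat_lit 9) 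
(.lf (nat_lit 546089) (.g (nat_lit 4402) (.e (nat_lit 122936) (nat_lit 23) (.e (nat_lit 516131) (nat_lit 3) (.e (nat_lit 221219) (nat_lit 24) (.e (nat_lit 213019) (nat_lit 9) (.e (nat_lit 2610) (nat_lit 163) (.e (nat_lit 164347) (nat_lit 240) (.e (nat_lit 2638) (nat_lit 165) (.e (nat_lit 188160) (nat_lit 38) .nil)))))))) (.g (nat_lit 1) (.e (nat_lit 280815) (nat_lit 0) .nil) .nil))) 
(.lf (nat_lit 546601) (.g (nat_lit 2572) (.e (nat_lit 147512) (nat_lit 14) (.e (nat_lit 2797) (nat_lit 180) (.e (nat_lit 303127) (nat_lit 9) (.e (nat_lit 426428) (nat_lit 17) (.e (nat_lit 98048) (nat_lit 6) .nil))))) (.g (nat_lit 0) (.e (nat_lit 283289) (nat_lit 0) .nil) .nil))))) (.nd (nat_lit 8) (.nd (nat_lit 9) 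
(.lf (nat_lit 545961) (.g (nat_lit 1436) (.e (nat_lit 114719) (nat_lit 23) (.e (nat_lit 98384) (nat_lit 32) (.e (nat_lit 475179) (nat_lit 24) (.e (nat_lit 516117) (nat_lit 1) .nil)))) (.g (nat_lit 0) (.e (nat_lit 280613) (nat_lit 0) .nil) .nil))) 
(.lf (nat_lit 546473) (.g (nat_lit 1233) (.e (nat_lit 131137) (nat_lit 27) (.e (nat_lit 426347) (nat_lit 14) (.e (nat_lit 491549) (nat_lit 9) (.e (nat_lit 336421) (nat_lit 28) .nil)))) (.g (nat_lit 0) (.e (nat_lit 282616) (nat_lit 0) .nil) .nil)))) (.nd (nat_lit 9) 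
(.lf (nat_lit 546217) (.g (nat_lit 2127) (.e (nat_lit 123228) (nat_lit 282) (.e (nat_lit 163867) (nat_lit 2) (.e (nat_lit 196670) (nat_lit 14) (.e (nat_lit 73746) (nat_lit 3) (.e (nat_lit 516131) (nat_lit 3) .nil))))) (.g (nat_lit 0) (.e (nat_lit 281393) (nat_lit 0) .nil) .nil))) 
(.lf (nat_lit 546729) (.g (nat_lit 2477) (.e (nat_lit 278566) (nat_lit 16) (.e (nat_lit 286735) (nat_lit 3) (.e (nat_lit 98373) (nat_lit 29) (.e (nat_lit 450562) (nat_lit 0) .nil)))) (.g (nat_lit 0) (.e (nat_lit 283917) (nat_lit 0) .nil) .nil)))))) (.nd (nat_lit 7) (.nd (nat_lit 8) (.nd (nat_lit 9) 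
(.lf (nat_lit 545897) (.g (nat_lit 732) (.e (nat_lit 114719) (nat_lit 23) (.e (nat_lit 98367) (nat_lit 27) (.e (nat_lit 434230) (nat_lit 23) .nil))) (.g (nat_lit 0) (.e (nat_lit 280508) (nat_lit 0) .nil) .nil))) 
(.lf (nat_lit 546409) (.g (nat_lit 897) (.e (nat_lit 131122) (nat_lit 12) (.e (nat_lit 385074) (nat_lit 31) (.e (nat_lit 573485) (nat_lit 13) .nil))) (.g (nat_lit 0) (.e (nat_lit 282315) (nat_lit 0) .nil) .nil)))) (.nd (nat_lit 9) 
(.lf (nat_lit 546153) (.g (nat_lit 1597) (.e (nat_lit 123182) (nat_lit 264) (.e (nat_lit 1183) (nat_lit 87) (.e (nat_lit 57479) (nat_lit 28) (.e (nat_lit 557095) (nat_lit 13) .nil)))) (.g (nat_lit 0) (.e (nat_lit 281243) (nat_lit 0) .nil) .nil))) 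
(.lf (nat_lit 546665) (.g (nat_lit 353) (.e (nat_lit 270372) (nat_lit 16) (.e (nat_lit 286753) (nat_lit 10) (.e (nat_lit 344154) (nat_lit 35) .nil))) (.g (nat_lit 0) (.e (nat_lit 283775) (nat_lit 0) .nil) .nil))))) (.nd (nat_lit 8) (.nd (nat_lit 9) 
(.lf (nat_lit 546025) (.g (nat_lit 2355) (.e (nat_lit 122906) (nat_lit 12) (.e (nat_lit 336001) (nat_lit 2) (.e (nat_lit 90170) (nat_lit 13) (.e (nat_lit 172113) (nat_lit 10) (.e (nat_lit 434245) (nat_lit 28) (.e (nat_lit 573474) (nat_lit 12) (.e (nat_lit 57356) (nat_lit 0) (.e (nat_lit 7271) (nat_lit 385) .nil)))))))) (.g (nat_lit 1) (.e (nat_lit 280713) (nat_lit 0) .nil) .nil))) 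
(.lf (nat_lit 546537) (.g (nat_lit 4725) (.e (nat_lit 147494) (nat_lit 11) (.e (nat_lit 24665) (nat_lit 14) (.e (nat_lit 401450) (nat_lit 12) (.e (nat_lit 475214) (nat_lit 42) (.e (nat_lit 720955) (nat_lit 25) (.e (nat_lit 114727) (nat_lit 28) .nil)))))) (.g (nat_lit 1) (.e (nat_lit 283174) (nat_lit 0) .nil) .nil)))) (.nd (nat_lit 9) 
(.lf (nat_lit 546281) (.g (nat_lit 742) (.e (nat_lit 131104) (nat_lit 9) (.e (nat_lit 336454) (nat_lit 34) (.e (nat_lit 483363) (nat_lit 18) .nil))) (.g (nat_lit 0) (.e (nat_lit 281901) (nat_lit 0) .nil) .nil))) 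
(.lf (nat_lit 546793) (.g (nat_lit 2540) (.e (nat_lit 303104) (nat_lit 0) (.e (nat_lit 3238) (nat_lit 197) (.e (nat_lit 532535) (nat_lit 9) (.e (nat_lit 336073) (nat_lit 9) .nil)))) (.g (nat_lit 0) (.e (nat_lit 284066) (nat_lit 0) .nil) .nil)))))))) (.nd (nat_lit 5) (.nd (nat_lit 6) (.nd (nat_lit 7) (.nd (nat_lit 8) (.nd (nat_lit 9) 
(.lf (nat_lit 545817) (.g (nat_lit 1895) (.e (nat_lit 114719) (nat_lit 23) (.e (nat_lit 98350) (nat_lit 24) (.e (nat_lit 409616) (nat_lit 10) (.e (nat_lit 630) (nat_lit 50) .nil)))) (.g (nat_lit 0) (.e (nat_lit 280368) (nat_lit 0) .nil) .nil))) 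
(.lf (nat_lit 546329) (.g (nat_lit 3928) (.e (nat_lit 131107) (nat_lit 9) (.e (nat_lit 336454) (nat_lit 34) (.e (nat_lit 483365) (nat_lit 18) (.e (nat_lit 57924) (nat_lit 282) .nil)))) (.g (nat_lit 0) (.e (nat_lit 282018) (nat_lit 0) .nil) .nil)))) (.nd (nat_lit 9) 
(.lf (nat_lit 546073) (.g (nat_lit 1894) (.e (nat_lit 122936) (nat_lit 23) (.e (nat_lit 516117) (nat_lit 1) (.e (nat_lit 164396) (nat_lit 256) (.e (nat_lit 57375) (nat_lit 2) (.e (nat_lit 90174) (nat_lit 14) .nil))))) (.g (nat_lit 0) (.e (nat_lit 280796) (nat_lit 0) .nil) .nil))) 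
(.lf (nat_lit 546585) (.g (nat_lit 2982) (.e (nat_lit 147496) (nat_lit 11) (.e (nat_lit 24604) (nat_lit 2) (.e (nat_lit 90170) (nat_lit 13) (.e (nat_lit 172106) (nat_lit 10) (.e (nat_lit 434244) (nat_lit 28) (.e (nat_lit 573449) (nat_lit 9) (.e (nat_lit 1314) (nat_lit 98) .nil))))))) (.g (nat_lit 1) (.e (nat_lit 283242) (nat_lit 0) .nil) .nil))))) (.nd (nat_lit 8) (.nd (nat_lit 9) 
(.lf (nat_lit 545945) (.g (nat_lit 2908) (.e (nat_lit 114719) (nat_lit 23) (.e (nat_lit 98383) (nat_lit 32) (.e (nat_lit 475179) (nat_lit 24) (.e (nat_lit 516115) (nat_lit 1) (.e (nat_lit 164327) (nat_lit 230) (.e (nat_lit 163875) (nat_lit 3) (.e (nat_lit 204837) (nat_lit 20) .nil))))))) (.g (nat_lit 1) (.e (nat_lit 280595) (nat_lit 0) .nil) .nil))) 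
(.lf (nat_lit 546457) (.g (nat_lit 2674) (.e (nat_lit 131133) (nat_lit 15) (.e (nat_lit 3295) (nat_lit 202) (.e (nat_lit 573485) (nat_lit 13) (.e (nat_lit 65619) (nat_lit 10) (.e (nat_lit 344117) (nat_lit 21) (.e (nat_lit 516106) (nat_lit 0) (.e (nat_lit 7936) (nat_lit 409) .nil))))))) (.g (nat_lit 1) (.e (nat_lit 282510) (nat_lit 0) .nil) .nil)))) (.nd (nat_lit 9) 
(.lf (nat_lit 546201) (.g (nat_lit 2728) (.e (nat_lit 123197) (nat_lit 266) (.e (nat_lit 57436) (nat_lit 17) (.e (nat_lit 376835) (nat_lit 0) (.e (nat_lit 3632) (nat_lit 227) (.e (nat_lit 778327) (nat_lit 6) (.e (nat_lit 81957) (nat_lit 24) .nil)))))) (.g (nat_lit 1) (.e (nat_lit 281322) (nat_lit 0) .nil) .nil))) 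
(.lf (nat_lit 546713) (.g (nat_lit 2838) (.e (nat_lit 270354) (nat_lit 8) (.e (nat_lit 303119) (nat_lit 3) (.e (nat_lit 204869) (nat_lit 29) (.e (nat_lit 360458) (nat_lit 1) .nil)))) (.g (nat_lit 0) (.e (nat_lit 283851) (nat_lit 0) .nil) .nil)))))) (.nd (nat_lit 7) (.nd (nat_lit 8) (.nd (nat_lit 9) 
(.lf (nat_lit 545881) (.g (nat_lit 3361) (.e (nat_lit 114719) (nat_lit 23) (.e (nat_lit 98366) (nat_lit 27) (.e (nat_lit 434231) (nat_lit 23) (.e (nat_lit 532500) (nat_lit 1) (.e (nat_lit 57691) (nat_lit 156) (.e (nat_lit 163874) (nat_lit 3) (.e (nat_lit 204836) (nat_lit 20) .nil))))))) (.g (nat_lit 1) (.e (nat_lit 280486) (nat_lit 0) .nil) .nil))) 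
(.lf (nat_lit 546393) (.g (nat_lit 2777) (.e (nat_lit 131120) (nat_lit 12) (.e (nat_lit 385068) (nat_lit 26) (.e (nat_lit 532513) (nat_lit 3) (.e (nat_lit 114698) (nat_lit 11) (.e (nat_lit 426116) (nat_lit 2) (.e (nat_lit 196681) (nat_lit 17) .nil)))))) (.g (nat_lit 1) (.e (nat_lit 282259) (nat_lit 0) .nil) .nil)))) (.nd (nat_lit 9) 
(.lf (nat_lit 546137) (.g (nat_lit 1806) (.e (nat_lit 123153) (nat_lit 250) (.e (nat_lit 2650) (nat_lit 166) (.e (nat_lit 188446) (nat_lit 21) (.e (nat_lit 164319) (nat_lit 228) .nil)))) (.g (nat_lit 0) (.e (nat_lit 281186) (nat_lit 0) .nil) .nil))) 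
(.lf (nat_lit 546649) (.g (nat_lit 538) (.e (nat_lit 163584) (nat_lit 6) (.e (nat_lit 188435) (nat_lit 20) (.e (nat_lit 3408) (nat_lit 212) (.e (nat_lit 655380) (nat_lit 6) (.e (nat_lit 196352) (nat_lit 8) .nil))))) (.g (nat_lit 0) (.e (nat_lit 283693) (nat_lit 0) .nil) .nil))))) (.nd (nat_lit 8) (.nd (nat_lit 9) 
(.lf (nat_lit 546009) (.g (nat_lit 2842) (.e (nat_lit 122896) (nat_lit 5) (.e (nat_lit 114698) (nat_lit 11) (.e (nat_lit 426124) (nat_lit 2) (.e (nat_lit 196674) (nat_lit 15) .nil)))) (.g (nat_lit 0) (.e (nat_lit 280696) (nat_lit 0) .nil) .nil))) 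
(.lf (nat_lit 546521) (.g (nat_lit 2089) (.e (nat_lit 139289) (nat_lit 9) (.e (nat_lit 3102) (nat_lit 192) (.e (nat_lit 491558) (nat_lit 10) (.e (nat_lit 344126) (nat_lit 25) (.e (nat_lit 548891) (nat_lit 11) .nil))))) (.g (nat_lit 0) (.e (nat_lit 283059) (nat_lit 0) .nil) .nil)))) (.nd (nat_lit 9) 
(.lf (nat_lit 546265) (.g (nat_lit 4069) (.e (nat_lit 131098) (nat_lit 3) (.e (nat_lit 98333) (nat_lit 18) (.e (nat_lit 164179) (nat_lit 154) (.e (nat_lit 57378) (nat_lit 3) (.e (nat_lit 98342) (nat_lit 20) (.e (nat_lit 221212) (nat_lit 22) (.e (nat_lit 196681) (nat_lit 17) .nil))))))) (.g (nat_lit 1) (.e (nat_lit 281841) (nat_lit 0) .nil) .nil))) 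
(.lf (nat_lit 546777) (.g (nat_lit 2008) (.e (nat_lit 278546) (nat_lit 8) (.e (nat_lit 303137) (nat_lit 10) (.e (nat_lit 434268) (nat_lit 36) (.e (nat_lit 639020) (nat_lit 16) (.e (nat_lit 65584) (nat_lit 7) (.e (nat_lit 319527) (nat_lit 15) .nil)))))) (.g (nat_lit 1) (.e (nat_lit 284023) (nat_lit 0) .nil) .nil))))))) (.nd (nat_lit 6) (.nd (nat_lit 7) (.nd (nat_lit 8) (.nd (nat_lit 9) 
(.lf (nat_lit 545849) (.g (nat_lit 871) (.e (nat_lit 114719) (nat_lit 23) (.e (nat_lit 98358) (nat_lit 26) (.e (nat_lit 426438) (nat_lit 18) .nil))) (.g (nat_lit 0) (.e (nat_lit 280406) (nat_lit 0) .nil) .nil))) 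
(.lf (nat_lit 546361) (.g (nat_lit 1109) (.e (nat_lit 131109) (nat_lit 9) (.e (nat_lit 336324) (nat_lit 18) (.e (nat_lit 204837) (nat_lit 20) (.e (nat_lit 122624) (nat_lit 15) .nil)))) (.g (nat_lit 0) (.e (nat_lit 282157) (nat_lit 0) .nil) .nil)))) (.nd (nat_lit 9) 
(.lf (nat_lit 546105) (.g (nat_lit 3409) (.e (nat_lit 122979) (nat_lit 55) (.e (nat_lit 778466) (nat_lit 11) (.e (nat_lit 24617) (nat_lit 7) (.e (nat_lit 319534) (nat_lit 16) (.e (nat_lit 286756) (nat_lit 10) (.e (nat_lit 344160) (nat_lit 37) (.e (nat_lit 647202) (nat_lit 13) .nil))))))) (.g (nat_lit 1) (.e (nat_lit 280859) (nat_lit 0) .nil) .nil))) 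
(.lf (nat_lit 546617) (.g (nat_lit 1614) (.e (nat_lit 155652) (nat_lit 0) (.e (nat_lit 3003) (nat_lit 186) (.e (nat_lit 442374) (nat_lit 0) (.e (nat_lit 2059) (nat_lit 142) (.e (nat_lit 704598) (nat_lit 6) (.e (nat_lit 196352) (nat_lit 8) .nil)))))) (.g (nat_lit 1) (.e (nat_lit 283394) (nat_lit 0) .nil) .nil))))) (.nd (nat_lit 8) (.nd (nat_lit 9) 
(.lf (nat_lit 545977) (.g (nat_lit 1701) (.e (nat_lit 114719) (nat_lit 23) (.e (nat_lit 98386) (nat_lit 32) (.e (nat_lit 475179) (nat_lit 24) (.e (nat_lit 516117) (nat_lit 1) .nil)))) (.g (nat_lit 0) (.e (nat_lit 280633) (nat_lit 0) .nil) .nil))) 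
(.lf (nat_lit 546489) (.g (nat_lit 2067) (.e (nat_lit 131140) (nat_lit 27) (.e (nat_lit 426316) (nat_lit 12) (.e (nat_lit 475199) (nat_lit 40) (.e (nat_lit 704595) (nat_lit 5) (.e (nat_lit 188160) (nat_lit 39) .nil))))) (.g (nat_lit 1) (.e (nat_lit 282712) (nat_lit 0) .nil) .nil)))) (.nd (nat_lit 9) 
(.lf (nat_lit 546233) (.g (nat_lit 1195) (.e (nat_lit 131089) (nat_lit 1) (.e (nat_lit 57931) (nat_lit 282) (.e (nat_lit 163843) (nat_lit 0) (.e (nat_lit 7936) (nat_lit 200) .nil)))) (.g (nat_lit 0) (.e (nat_lit 281642) (nat_lit 0) .nil) .nil))) 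
(.lf (nat_lit 546745) (.g (nat_lit 1710) (.e (nat_lit 278566) (nat_lit 16) (.e (nat_lit 286756) (nat_lit 10) (.e (nat_lit 344156) (nat_lit 36) (.e (nat_lit 638998) (nat_lit 8) (.e (nat_lit 172080) (nat_lit 7) .nil))))) (.g (nat_lit 0) (.e (nat_lit 283937) (nat_lit 0) .nil) .nil)))))) (.nd (nat_lit 7) (.nd (nat_lit 8) (.nd (nat_lit 9) 
(.lf (nat_lit 545913) (.g (nat_lit 2614) (.e (nat_lit 114719) (nat_lit 23) (.e (nat_lit 98367) (nat_lit 27) (.e (nat_lit 434231) (nat_lit 23) (.e (nat_lit 532500) (nat_lit 1) (.e (nat_lit 57685) (nat_lit 156) .nil))))) (.g (nat_lit 0) (.e (nat_lit 280557) (nat_lit 0) .nil) .nil))) 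
(.lf (nat_lit 546425) (.g (nat_lit 1856) (.e (nat_lit 131124) (nat_lit 13) (.e (nat_lit 393225) (nat_lit 9) (.e (nat_lit 335988) (nat_lit 1) (.e (nat_lit 57927) (nat_lit 282) .nil)))) (.g (nat_lit 0) (.e (nat_lit 282370) (nat_lit 0) .nil) .nil)))) (.nd (nat_lit 9) 
(.lf (nat_lit 546169) (.g (nat_lit 2514) (.e (nat_lit 123185) (nat_lit 264) (.e (nat_lit 1183) (nat_lit 87) (.e (nat_lit 57480) (nat_lit 28) (.e (nat_lit 557097) (nat_lit 13) (.e (nat_lit 172097) (nat_lit 9) .nil))))) (.g (nat_lit 0) (.e (nat_lit 281261) (nat_lit 0) .nil) .nil))) 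
(.lf (nat_lit 546681) (.g (nat_lit 3431) (.e (nat_lit 270373) (nat_lit 16) (.e (nat_lit 286735) (nat_lit 3) (.e (nat_lit 98373) (nat_lit 29) (.e (nat_lit 450562) (nat_lit 0) (.e (nat_lit 3996) (nat_lit 240) .nil))))) (.g (nat_lit 0) (.e (nat_lit 283795) (nat_lit 0) .nil) .nil))))) (.nd (nat_lit 8) (.nd (nat_lit 9) 
(.lf (nat_lit 546041) (.g (nat_lit 3415) (.e (nat_lit 122913) (nat_lit 13) (.e (nat_lit 344129) (nat_lit 26) (.e (nat_lit 557067) (nat_lit 9) (.e (nat_lit 2830) (nat_lit 182) (.e (nat_lit 409649) (nat_lit 18) .nil))))) (.g (nat_lit 0) (.e (nat_lit 280736) (nat_lit 0) .nil) .nil))) 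
(.lf (nat_lit 546553) (.g (nat_lit 1723) (.e (nat_lit 147495) (nat_lit 11) (.e (nat_lit 24608) (nat_lit 3) (.e (nat_lit 98372) (nat_lit 29) (.e (nat_lit 450586) (nat_lit 10) .nil)))) (.g (nat_lit 0) (.e (nat_lit 283198) (nat_lit 0) .nil) .nil)))) (.nd (nat_lit 9) 
(.lf (nat_lit 546297) (.g (nat_lit 3139) (.e (nat_lit 131105) (nat_lit 9) (.e (nat_lit 336324) (nat_lit 18) (.e (nat_lit 204838) (nat_lit 20) (.e (nat_lit 114694) (nat_lit 11) (.e (nat_lit 426124) (nat_lit 2) (.e (nat_lit 196681) (nat_lit 17) .nil)))))) (.g (nat_lit 1) (.e (nat_lit 281938) (nat_lit 0) .nil) .nil))) 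
(.lf (nat_lit 546809) (.g (nat_lit 2576) (.e (nat_lit 303104) (nat_lit 0) (.e (nat_lit 3238) (nat_lit 197) (.e (nat_lit 532550) (nat_lit 12) (.e (nat_lit 360466) (nat_lit 3) (.e (nat_lit 516138) (nat_lit 7) .nil))))) (.g (nat_lit 0) (.e (nat_lit 284089) (nat_lit 0) .nil) .nil)))))))))) 
(.nd (nat_lit 3) (.nd (nat_lit 4) (.nd (nat_lit 5) (.nd (nat_lit 6) (.nd (nat_lit 7) 
(.nd (nat_lit 8) (.nd (nat_lit 9) 
(.lf (nat_lit 545797) (.g (nat_lit 4546) (.e (nat_lit 114719) (nat_lit 23) (.e (nat_lit 98334) (nat_lit 18) (.e (nat_lit 164330) (nat_lit 230) (.e (nat_lit 163869) (nat_lit 2) (.e (nat_lit 196654) (nat_lit 11) (.e (nat_lit 16416) (nat_lit 3) (.e (nat_lit 204837) (nat_lit 20) .nil))))))) (.g (nat_lit 1) (.e (nat_lit 280331) (nat_lit 0) .nil) .nil))) 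
(.lf (nat_lit 546309) (.g (nat_lit 3319) (.e (nat_lit 131105) (nat_lit 9) (.e (nat_lit 336454) (nat_lit 34) (.e (nat_lit 483364) (nat_lit 18) (.e (nat_lit 57926) (nat_lit 282) (.e (nat_lit 163868) (nat_lit 2) (.e (nat_lit 196681) (nat_lit 17) .nil)))))) (.g (nat_lit 1) (.e (nat_lit 281971) (nat_lit 0) .nil) .nil)))) (.nd (nat_lit 9) 
(.lf (nat_lit 546053) (.g (nat_lit 4371) (.e (nat_lit 122914) (nat_lit 14) (.e (nat_lit 352277) (nat_lit 11) (.e (nat_lit 426344) (nat_lit 14) (.e (nat_lit 491560) (nat_lit 10) (.e (nat_lit 344097) (nat_lit 18) (.e (nat_lit 7270) (nat_lit 385) .nil)))))) (.g (nat_lit 1) (.e (nat_lit 280751) (nat_lit 0) .nil) .nil))) 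
(.lf (nat_lit 546565) (.g (nat_lit 2858) (.e (nat_lit 147495) (nat_lit 11) (.e (nat_lit 24654) (nat_lit 13) (.e (nat_lit 393299) (nat_lit 27) (.e (nat_lit 491546) (nat_lit 9) (.e (nat_lit 336048) (nat_lit 6) .nil))))) (.g (nat_lit 1) (.e (nat_lit 283212) (nat_lit 0) .nil) .nil))))) (.nd (nat_lit 8) (.nd (nat_lit 9) 
(.lf (nat_lit 545925) (.g (nat_lit 2924) (.e (nat_lit 114719) (nat_lit 23) (.e (nat_lit 98367) (nat_lit 27) (.e (nat_lit 434231) (nat_lit 23) (.e (nat_lit 532502) (nat_lit 1) (.e (nat_lit 57692) (nat_lit 156) (.e (nat_lit 163874) (nat_lit 3) (.e (nat_lit 204836) (nat_lit 20) .nil))))))) (.g (nat_lit 1) (.e (nat_lit 280571) (nat_lit 0) .nil) .nil))) 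
(.lf (nat_lit 546437) (.g (nat_lit 2127) (.e (nat_lit 131126) (nat_lit 13) (.e (nat_lit 393229) (nat_lit 9) (.e (nat_lit 335995) (nat_lit 1) (.e (nat_lit 57931) (nat_lit 282) .nil)))) (.g (nat_lit 0) (.e (nat_lit 282417) (nat_lit 0) .nil) .nil)))) (.nd (nat_lit 9) 
(.lf (nat_lit 546181) (.g (nat_lit 2114) (.e (nat_lit 123195) (nat_lit 266) (.e (nat_lit 57400) (nat_lit 10) (.e (nat_lit 319490) (nat_lit 0) (.e (nat_lit 5664) (nat_lit 312) (.e (nat_lit 2852) (nat_lit 184) (.e (nat_lit 426553) (nat_lit 32) (.e (nat_lit 376870) (nat_lit 24) .nil))))))) (.g (nat_lit 1) (.e (nat_lit 281290) (nat_lit 0) .nil) .nil))) 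
(.lf (nat_lit 546693) (.g (nat_lit 2719) (.e (nat_lit 270373) (nat_lit 16) (.e (nat_lit 286761) (nat_lit 13) (.e (nat_lit 393291) (nat_lit 26) (.e (nat_lit 475219) (nat_lit 44) (.e (nat_lit 737296) (nat_lit 5) .nil))))) (.g (nat_lit 1) (.e (nat_lit 283814) (nat_lit 0) .nil) .nil)))))) (.nd (nat_lit 7) (.nd (nat_lit 8) (.nd (nat_lit 9) 
(.lf (nat_lit 545861) (.g (nat_lit 3336) (.e (nat_lit 114719) (nat_lit 23) (.e (nat_lit 98366) (nat_lit 27) (.e (nat_lit 434231) (nat_lit 23) (.e (nat_lit 532483) (nat_lit 0) (.e (nat_lit 1030) (nat_lit 81) .nil))))) (.g (nat_lit 0) (.e (nat_lit 280439) (nat_lit 0) .nil) .nil))) 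
(.lf (nat_lit 546373) (.g (nat_lit 1028) (.e (nat_lit 131113) (nat_lit 9) (.e (nat_lit 336028) (nat_lit 3) (.e (nat_lit 98350) (nat_lit 24) .nil))) (.g (nat_lit 0) (.e (nat_lit 282206) (nat_lit 0) .nil) .nil)))) (.nd (nat_lit 9) 
(.lf (nat_lit 546117) (.g (nat_lit 3146) (.e (nat_lit 123013) (nat_lit 116) (.e (nat_lit 778466) (nat_lit 11) (.e (nat_lit 24617) (nat_lit 7) (.e (nat_lit 319533) (nat_lit 16) (.e (nat_lit 286752) (nat_lit 10) .nil))))) (.g (nat_lit 0) (.e (nat_lit 280963) (nat_lit 0) .nil) .nil))) 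
(.lf (nat_lit 546629) (.g (nat_lit 1785) (.e (nat_lit 163584) (nat_lit 4) (.e (nat_lit 172119) (nat_lit 12) (.e (nat_lit 475211) (nat_lit 41) (.e (nat_lit 712752) (nat_lit 29) (.e (nat_lit 442382) (nat_lit 8) .nil))))) (.g (nat_lit 0) (.e (nat_lit 283520) (nat_lit 0) .nil) .nil))))) (.nd (nat_lit 8) (.nd (nat_lit 9) 
(.lf (nat_lit 545989) (.g (nat_lit 2507) (.e (nat_lit 114719) (nat_lit 23) (.e (nat_lit 98388) (nat_lit 33) (.e (nat_lit 491571) (nat_lit 13) (.e (nat_lit 393232) (nat_lit 17) (.e (nat_lit 3556) (nat_lit 220) (.e (nat_lit 720956) (nat_lit 25) .nil)))))) (.g (nat_lit 1) (.e (nat_lit 280645) (nat_lit 0) .nil) .nil))) 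
(.lf (nat_lit 546501) (.g (nat_lit 1024) (.e (nat_lit 139280) (nat_lit 4) (.e (nat_lit 65617) (nat_lit 10) (.e (nat_lit 344183) (nat_lit 49) (.e (nat_lit 819221) (nat_lit 6) (.e (nat_lit 196352) (nat_lit 7) .nil))))) (.g (nat_lit 1) (.e (nat_lit 282951) (nat_lit 0) .nil) .nil)))) (.nd (nat_lit 9) 
(.lf (nat_lit 546245) (.g (nat_lit 978) (.e (nat_lit 131096) (nat_lit 3) (.e (nat_lit 98334) (nat_lit 18) (.e (nat_lit 164176) (nat_lit 154) .nil))) (.g (nat_lit 0) (.e (nat_lit 281777) (nat_lit 0) .nil) .nil))) 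
(.lf (nat_lit 546757) (.g (nat_lit 1990) (.e (nat_lit 278567) (nat_lit 16) (.e (nat_lit 286734) (nat_lit 3) (.e (nat_lit 98359) (nat_lit 26) (.e (nat_lit 426211) (nat_lit 9) (.e (nat_lit 426125) (nat_lit 2) (.e (nat_lit 204544) (nat_lit 18) (.e (nat_lit 2767) (nat_lit 177) .nil))))))) (.g (nat_lit 1) (.e (nat_lit 283950) (nat_lit 0) .nil) .nil))))))) 
(.nd (nat_lit 6) (.nd (nat_lit 7) (.nd (nat_lit 8) (.nd (nat_lit 9) 
(.lf (nat_lit 545829) (.g (nat_lit 570) (.e (nat_lit 114719) (nat_lit 23) (.e (nat_lit 98356) (nat_lit 26) (.e (nat_lit 426436) (nat_lit 18) .nil))) (.g (nat_lit 0) (.e (nat_lit 280383) (nat_lit 0) .nil) .nil))) 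
(.lf (nat_lit 546341) (.g (nat_lit 1144) (.e (nat_lit 131109) (nat_lit 9) (.e (nat_lit 336019) (nat_lit 3) (.e (nat_lit 98349) (nat_lit 24) (.e (nat_lit 409647) (nat_lit 18) .nil)))) (.g (nat_lit 0) (.e (nat_lit 282079) (nat_lit 0) .nil) .nil)))) (.nd (nat_lit 9) 
(.lf (nat_lit 546085) (.g (nat_lit 3759) (.e (nat_lit 122936) (nat_lit 23) (.e (nat_lit 516131) (nat_lit 3) (.e (nat_lit 221219) (nat_lit 24) (.e (nat_lit 213022) (nat_lit 9) (.e (nat_lit 2610) (nat_lit 163) (.e (nat_lit 164347) (nat_lit 240) (.e (nat_lit 2638) (nat_lit 165) (.e (nat_lit 188160) (nat_lit 38) .nil)))))))) (.g (nat_lit 1) (.e (nat_lit 280811) (nat_lit 0) .nil) .nil))) 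
(.lf (nat_lit 546597) (.g (nat_lit 2183) (.e (nat_lit 147496) (nat_lit 11) (.e (nat_lit 24608) (nat_lit 3) (.e (nat_lit 98386) (nat_lit 32) (.e (nat_lit 483072) (nat_lit 51) .nil)))) (.g (nat_lit 0) (.e (nat_lit 283256) (nat_lit 0) .nil) .nil))))) (.nd (nat_lit 8) (.nd (nat_lit 9) 
(.lf (nat_lit 545957) (.g (nat_lit 3980) (.e (nat_lit 114719) (nat_lit 23) (.e (nat_lit 98384) (nat_lit 32) (.e (nat_lit 475179) (nat_lit 24) (.e (nat_lit 516115) (nat_lit 1) (.e (nat_lit 164327) (nat_lit 230) (.e (nat_lit 163875) (nat_lit 3) (.e (nat_lit 204836) (nat_lit 20) .nil))))))) (.g (nat_lit 1) (.e (nat_lit 280609) (nat_lit 0) .nil) .nil))) 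
(.lf (nat_lit 546469) (.g (nat_lit 1939) (.e (nat_lit 139008) (nat_lit 25) (.e (nat_lit 409602) (nat_lit 0) (.e (nat_lit 5293) (nat_lit 298) (.e (nat_lit 1423) (nat_lit 108) .nil)))) (.g (nat_lit 0) (.e (nat_lit 282577) (nat_lit 0) .nil) .nil)))) (.nd (nat_lit 9) 
(.lf (nat_lit 546213) (.g (nat_lit 2385) (.e (nat_lit 123198) (nat_lit 266) (.e (nat_lit 57436) (nat_lit 17) (.e (nat_lit 376835) (nat_lit 0) (.e (nat_lit 3632) (nat_lit 227) (.e (nat_lit 778327) (nat_lit 6) (.e (nat_lit 81959) (nat_lit 24) .nil)))))) (.g (nat_lit 1) (.e (nat_lit 281337) (nat_lit 0) .nil) .nil))) 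
(.lf (nat_lit 546725) (.g (nat_lit 2012) (.e (nat_lit 278566) (nat_lit 16) (.e (nat_lit 286734) (nat_lit 3) (.e (nat_lit 98359) (nat_lit 26) (.e (nat_lit 426211) (nat_lit 9) (.e (nat_lit 426125) (nat_lit 2) .nil))))) (.g (nat_lit 0) (.e (nat_lit 283913) (nat_lit 0) .nil) .nil)))))) (.nd (nat_lit 7) (.nd (nat_lit 8) (.nd (nat_lit 9) 
(.lf (nat_lit 545893) (.g (nat_lit 3109) (.e (nat_lit 114719) (nat_lit 23) (.e (nat_lit 98366) (nat_lit 27) (.e (nat_lit 434231) (nat_lit 23) (.e (nat_lit 532504) (nat_lit 1) (.e (nat_lit 57692) (nat_lit 156) (.e (nat_lit 163874) (nat_lit 3) (.e (nat_lit 204837) (nat_lit 20) .nil))))))) (.g (nat_lit 1) (.e (nat_lit 280500) (nat_lit 0) .nil) .nil))) 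
(.lf (nat_lit 546405) (.g (nat_lit 536) (.e (nat_lit 131121) (nat_lit 12) (.e (nat_lit 385093) (nat_lit 49) (.e (nat_lit 778327) (nat_lit 6) .nil))) (.g (nat_lit 0) (.e (nat_lit 282298) (nat_lit 0) .nil) .nil)))) (.nd (nat_lit 9) 
(.lf (nat_lit 546149) (.g (nat_lit 1142) (.e (nat_lit 123175) (nat_lit 258) (.e (nat_lit 24665) (nat_lit 14) (.e (nat_lit 401455) (nat_lit 13) .nil))) (.g (nat_lit 0) (.e (nat_lit 281235) (nat_lit 0) .nil) .nil))) 
(.lf (nat_lit 546661) (.g (nat_lit 265) (.e (nat_lit 270370) (nat_lit 14) (.e (nat_lit 270350) (nat_lit 4) (.e (nat_lit 270370) (nat_lit 14) (.e (nat_lit 270354) (nat_lit 8) (.e (nat_lit 303124) (nat_lit 7) (.e (nat_lit 409636) (nat_lit 14) .nil)))))) (.g (nat_lit 1) (.e (nat_lit 283771) (nat_lit 0) .nil) .nil))))) (.nd (nat_lit 8) (.nd (nat_lit 9) 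
(.lf (nat_lit 546021) (.g (nat_lit 3034) (.e (nat_lit 122906) (nat_lit 12) (.e (nat_lit 336001) (nat_lit 2) (.e (nat_lit 90170) (nat_lit 13) (.e (nat_lit 172106) (nat_lit 10) (.e (nat_lit 434244) (nat_lit 28) (.e (nat_lit 573474) (nat_lit 12) (.e (nat_lit 57356) (nat_lit 0) (.e (nat_lit 7270) (nat_lit 385) .nil)))))))) (.g (nat_lit 1) (.e (nat_lit 280709) (nat_lit 0) .nil) .nil))) 
(.lf (nat_lit 546533) (.g (nat_lit 1919) (.e (nat_lit 147494) (nat_lit 11) (.e (nat_lit 24657) (nat_lit 13) (.e (nat_lit 393294) (nat_lit 26) (.e (nat_lit 475209) (nat_lit 41) (.e (nat_lit 720640) (nat_lit 6) .nil))))) (.g (nat_lit 1) (.e (nat_lit 283170) (nat_lit 0) .nil) .nil)))) (.nd (nat_lit 9) 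
(.lf (nat_lit 546277) (.g (nat_lit 2762) (.e (nat_lit 131098) (nat_lit 3) (.e (nat_lit 98335) (nat_lit 18) (.e (nat_lit 164183) (nat_lit 154) (.e (nat_lit 57379) (nat_lit 3) (.e (nat_lit 98340) (nat_lit 20) .nil))))) (.g (nat_lit 0) (.e (nat_lit 281878) (nat_lit 0) .nil) .nil))) 
(.lf (nat_lit 546789) (.g (nat_lit 1065) (.e (nat_lit 278547) (nat_lit 8) (.e (nat_lit 303138) (nat_lit 10) (.e (nat_lit 434266) (nat_lit 35) (.e (nat_lit 630821) (nat_lit 16) (.e (nat_lit 65586) (nat_lit 7) (.e (nat_lit 319527) (nat_lit 15) .nil)))))) (.g (nat_lit 1) (.e (nat_lit 284042) (nat_lit 0) .nil) .nil)))))))) 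
(.nd (nat_lit 5) (.nd (nat_lit 6) (.nd (nat_lit 7) (.nd (nat_lit 8) (.nd (nat_lit 9) 
(.lf (nat_lit 545813) (.g (nat_lit 4644) (.e (nat_lit 114719) (nat_lit 23) (.e (nat_lit 98335) (nat_lit 18) (.e (nat_lit 164332) (nat_lit 230) (.e (nat_lit 163869) (nat_lit 2) (.e (nat_lit 196656) (nat_lit 11) (.e (nat_lit 16416) (nat_lit 3) (.e (nat_lit 204838) (nat_lit 20) .nil))))))) (.g (nat_lit 1) (.e (nat_lit 280361) (nat_lit 0) .nil) .nil))) 
(.lf (nat_lit 546325) (.g (nat_lit 2351) (.e (nat_lit 131107) (nat_lit 9) (.e (nat_lit 336324) (nat_lit 18) (.e (nat_lit 204838) (nat_lit 20) (.e (nat_lit 114698) (nat_lit 11) (.e (nat_lit 426114) (nat_lit 2) .nil))))) (.g (nat_lit 0) (.e (nat_lit 282013) (nat_lit 0) .nil) .nil)))) (.nd (nat_lit 9) 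
(.lf (nat_lit 546069) (.g (nat_lit 2483) (.e (nat_lit 122936) (nat_lit 23) (.e (nat_lit 516115) (nat_lit 1) (.e (nat_lit 164398) (nat_lit 256) (.e (nat_lit 57372) (nat_lit 2) (.e (nat_lit 90174) (nat_lit 14) .nil))))) (.g (nat_lit 0) (.e (nat_lit 280788) (nat_lit 0) .nil) .nil))) 
(.lf (nat_lit 546581) (.g (nat_lit 3027) (.e (nat_lit 147496) (nat_lit 11) (.e (nat_lit 24603) (nat_lit 2) (.e (nat_lit 90167) (nat_lit 13) (.e (nat_lit 172126) (nat_lit 14) (.e (nat_lit 491540) (nat_lit 3) (.e (nat_lit 106240) (nat_lit 5) .nil)))))) (.g (nat_lit 1) (.e (nat_lit 283238) (nat_lit 0) .nil) .nil))))) (.nd (nat_lit 8) (.nd (nat_lit 9) 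
(.lf (nat_lit 545941) (.g (nat_lit 3169) (.e (nat_lit 114719) (nat_lit 23) (.e (nat_lit 98367) (nat_lit 27) (.e (nat_lit 434234) (nat_lit 23) (.e (nat_lit 532504) (nat_lit 1) (.e (nat_lit 57692) (nat_lit 156) (.e (nat_lit 163875) (nat_lit 3) (.e (nat_lit 204838) (nat_lit 20) .nil))))))) (.g (nat_lit 1) (.e (nat_lit 280587) (nat_lit 0) .nil) .nil))) 
(.lf (nat_lit 546453) (.g (nat_lit 2468) (.e (nat_lit 131128) (nat_lit 13) (.e (nat_lit 393229) (nat_lit 9) (.e (nat_lit 335995) (nat_lit 1) (.e (nat_lit 57929) (nat_lit 282) .nil)))) (.g (nat_lit 0) (.e (nat_lit 282468) (nat_lit 0) .nil) .nil)))) (.nd (nat_lit 9) 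
(.lf (nat_lit 546197) (.g (nat_lit 2504) (.e (nat_lit 123197) (nat_lit 266) (.e (nat_lit 57435) (nat_lit 17) (.e (nat_lit 376835) (nat_lit 0) (.e (nat_lit 3632) (nat_lit 227) (.e (nat_lit 778326) (nat_lit 6) (.e (nat_lit 81959) (nat_lit 24) .nil)))))) (.g (nat_lit 1) (.e (nat_lit 281318) (nat_lit 0) .nil) .nil))) 
(.lf (nat_lit 546709) (.g (nat_lit 1985) (.e (nat_lit 270354) (nat_lit 8) (.e (nat_lit 303118) (nat_lit 3) (.e (nat_lit 204855) (nat_lit 26) (.e (nat_lit 336099) (nat_lit 9) (.e (nat_lit 336013) (nat_lit 2) .nil))))) (.g (nat_lit 0) (.e (nat_lit 283847) (nat_lit 0) .nil) .nil)))))) (.nd (nat_lit 7) (.nd (nat_lit 8) (.nd (nat_lit 9) 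
(.lf (nat_lit 545877) (.g (nat_lit 3560) (.e (nat_lit 114719) (nat_lit 23) (.e (nat_lit 98366) (nat_lit 27) (.e (nat_lit 434231) (nat_lit 23) (.e (nat_lit 532500) (nat_lit 1) (.e (nat_lit 57689) (nat_lit 156) (.e (nat_lit 163874) (nat_lit 3) (.e (nat_lit 204836) (nat_lit 20) .nil))))))) (.g (nat_lit 1) (.e (nat_lit 280481) (nat_lit 0) .nil) .nil))) 
(.lf (nat_lit 546389) (.g (nat_lit 1969) (.e (nat_lit 131120) (nat_lit 12) (.e (nat_lit 385068) (nat_lit 26) (.e (nat_lit 532490) (nat_lit 0) (.e (nat_lit 2155) (nat_lit 142) .nil)))) (.g (nat_lit 0) (.e (nat_lit 282251) (nat_lit 0) .nil) .nil)))) (.nd (nat_lit 9) 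
(.lf (nat_lit 546133) (.g (nat_lit 658) (.e (nat_lit 123147) (nat_lit 250) (.e (nat_lit 2725) (nat_lit 172) (.e (nat_lit 237605) (nat_lit 9) .nil))) (.g (nat_lit 0) (.e (nat_lit 281174) (nat_lit 0) .nil) .nil))) 
(.lf (nat_lit 546645) (.g (nat_lit 822) (.e (nat_lit 163584) (nat_lit 6) (.e (nat_lit 188431) (nat_lit 20) (.e (nat_lit 3399) (nat_lit 211) (.e (nat_lit 647185) (nat_lit 6) (.e (nat_lit 196352) (nat_lit 8) .nil))))) (.g (nat_lit 0) (.e (nat_lit 283678) (nat_lit 0) .nil) .nil))))) (.nd (nat_lit 8) (.nd (nat_lit 9) 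
(.lf (nat_lit 546005) (.g (nat_lit 1317) (.e (nat_lit 122893) (nat_lit 3) (.e (nat_lit 98321) (nat_lit 17) (.e (nat_lit 3771) (nat_lit 229) (.e (nat_lit 794669) (nat_lit 22) (.e (nat_lit 196668) (nat_lit 14) (.e (nat_lit 81664) (nat_lit 5) (.e (nat_lit 532490) (nat_lit 0) (.e (nat_lit 1040) (nat_lit 81) (.e (nat_lit 7273) (nat_lit 385) .nil))))))))) (.g (nat_lit 1) (.e (nat_lit 280691) (nat_lit 0) .nil) .nil))) 
(.lf (nat_lit 546517) (.g (nat_lit 2791) (.e (nat_lit 139289) (nat_lit 9) (.e (nat_lit 2829) (nat_lit 182) (.e (nat_lit 409646) (nat_lit 18) (.e (nat_lit 303117) (nat_lit 2) (.e (nat_lit 196673) (nat_lit 15) (.e (nat_lit 81962) (nat_lit 25) .nil)))))) (.g (nat_lit 1) (.e (nat_lit 283039) (nat_lit 0) .nil) .nil)))) (.nd (nat_lit 9) 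
(.lf (nat_lit 546261) (.g (nat_lit 3269) (.e (nat_lit 131096) (nat_lit 3) (.e (nat_lit 98335) (nat_lit 18) (.e (nat_lit 164183) (nat_lit 154) (.e (nat_lit 57379) (nat_lit 3) (.e (nat_lit 98342) (nat_lit 20) (.e (nat_lit 221212) (nat_lit 22) (.e (nat_lit 196681) (nat_lit 17) .nil))))))) (.g (nat_lit 1) (.e (nat_lit 281806) (nat_lit 0) .nil) .nil))) 
(.lf (nat_lit 546773) (.g (nat_lit 888) (.e (nat_lit 278567) (nat_lit 16) (.e (nat_lit 286755) (nat_lit 10) (.e (nat_lit 344157) (nat_lit 36) (.e (nat_lit 638999) (nat_lit 8) (.e (nat_lit 172080) (nat_lit 7) (.e (nat_lit 409639) (nat_lit 15) .nil)))))) (.g (nat_lit 1) (.e (nat_lit 283994) (nat_lit 0) .nil) .nil))))))) (.nd (nat_lit 6) (.nd (nat_lit 7) (.nd (nat_lit 8) (.nd (nat_lit 9) 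
(.lf (nat_lit 545845) (.g (nat_lit 4363) (.e (nat_lit 114719) (nat_lit 23) (.e (nat_lit 98357) (nat_lit 26) (.e (nat_lit 426436) (nat_lit 18) (.e (nat_lit 98335) (nat_lit 18) (.e (nat_lit 164327) (nat_lit 230) (.e (nat_lit 163875) (nat_lit 3) (.e (nat_lit 204837) (nat_lit 20) .nil))))))) (.g (nat_lit 1) (.e (nat_lit 280402) (nat_lit 0) .nil) .nil))) 
(.lf (nat_lit 546357) (.g (nat_lit 1580) (.e (nat_lit 131109) (nat_lit 9) (.e (nat_lit 336324) (nat_lit 18) (.e (nat_lit 204837) (nat_lit 20) (.e (nat_lit 114694) (nat_lit 11) (.e (nat_lit 426116) (nat_lit 2) .nil))))) (.g (nat_lit 0) (.e (nat_lit 282153) (nat_lit 0) .nil) .nil)))) (.nd (nat_lit 9) 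
(.lf (nat_lit 546101) (.g (nat_lit 2106) (.e (nat_lit 122942) (nat_lit 28) (.e (nat_lit 557101) (nat_lit 13) (.e (nat_lit 172115) (nat_lit 10) (.e (nat_lit 434231) (nat_lit 23) (.e (nat_lit 532535) (nat_lit 9) .nil))))) (.g (nat_lit 0) (.e (nat_lit 280841) (nat_lit 0) .nil) .nil))) 
(.lf (nat_lit 546613) (.g (nat_lit 452) (.e (nat_lit 155652) (nat_lit 0) (.e (nat_lit 2887) (nat_lit 184) (.e (nat_lit 426317) (nat_lit 12) .nil))) (.g (nat_lit 0) (.e (nat_lit 283383) (nat_lit 0) .nil) .nil))))) (.nd (nat_lit 8) (.nd (nat_lit 9) 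
(.lf (nat_lit 545973) (.g (nat_lit 3745) (.e (nat_lit 114719) (nat_lit 23) (.e (nat_lit 98384) (nat_lit 32) (.e (nat_lit 475179) (nat_lit 24) (.e (nat_lit 516120) (nat_lit 1) (.e (nat_lit 164330) (nat_lit 230) (.e (nat_lit 163874) (nat_lit 3) (.e (nat_lit 204836) (nat_lit 20) .nil))))))) (.g (nat_lit 1) (.e (nat_lit 280629) (nat_lit 0) .nil) .nil))) 
(.lf (nat_lit 546485) (.g (nat_lit 1935) (.e (nat_lit 131140) (nat_lit 27) (.e (nat_lit 426316) (nat_lit 12) (.e (nat_lit 475197) (nat_lit 40) (.e (nat_lit 704595) (nat_lit 5) (.e (nat_lit 188160) (nat_lit 39) .nil))))) (.g (nat_lit 1) (.e (nat_lit 282708) (nat_lit 0) .nil) .nil)))) (.nd (nat_lit 9) 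
(.lf (nat_lit 546229) (.g (nat_lit 2749) (.e (nat_lit 131089) (nat_lit 1) (.e (nat_lit 57854) (nat_lit 252) (.e (nat_lit 57378) (nat_lit 3) (.e (nat_lit 98333) (nat_lit 18) (.e (nat_lit 164402) (nat_lit 256) .nil))))) (.g (nat_lit 0) (.e (nat_lit 281632) (nat_lit 0) .nil) .nil))) 
(.lf (nat_lit 546741) (.g (nat_lit 1543) (.e (nat_lit 278566) (nat_lit 16) (.e (nat_lit 286754) (nat_lit 10) (.e (nat_lit 344156) (nat_lit 36) (.e (nat_lit 638998) (nat_lit 8) (.e (nat_lit 172080) (nat_lit 7) (.e (nat_lit 409639) (nat_lit 15) .nil)))))) (.g (nat_lit 1) (.e (nat_lit 283933) (nat_lit 0) .nil) .nil)))))) (.nd (nat_lit 7) (.nd (nat_lit 8) (.nd (nat_lit 9) 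
(.lf (nat_lit 545909) (.g (nat_lit 4149) (.e (nat_lit 114719) (nat_lit 23) (.e (nat_lit 98367) (nat_lit 27) (.e (nat_lit 434231) (nat_lit 23) (.e (nat_lit 532499) (nat_lit 1) (.e (nat_lit 57692) (nat_lit 156) (.e (nat_lit 163874) (nat_lit 3) (.e (nat_lit 204836) (nat_lit 20) .nil))))))) (.g (nat_lit 1) (.e (nat_lit 280539) (nat_lit 0) .nil) .nil))) 
(.lf (nat_lit 546421) (.g (nat_lit 2516) (.e (nat_lit 131123) (nat_lit 12) (.e (nat_lit 385068) (nat_lit 26) (.e (nat_lit 532515) (nat_lit 3) (.e (nat_lit 114698) (nat_lit 11) (.e (nat_lit 426114) (nat_lit 2) (.e (nat_lit 196681) (nat_lit 17) .nil)))))) (.g (nat_lit 1) (.e (nat_lit 282351) (nat_lit 0) .nil) .nil)))) (.nd (nat_lit 9) 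
(.lf (nat_lit 546165) (.g (nat_lit 1267) (.e (nat_lit 123184) (nat_lit 264) (.e (nat_lit 1183) (nat_lit 87) (.e (nat_lit 57479) (nat_lit 28) (.e (nat_lit 557101) (nat_lit 13) .nil)))) (.g (nat_lit 0) (.e (nat_lit 281255) (nat_lit 0) .nil) .nil))) 
(.lf (nat_lit 546677) (.g (nat_lit 1855) (.e (nat_lit 270373) (nat_lit 16) (.e (nat_lit 286735) (nat_lit 3) (.e (nat_lit 98372) (nat_lit 29) (.e (nat_lit 450574) (nat_lit 1) .nil)))) (.g (nat_lit 0) (.e (nat_lit 283791) (nat_lit 0) .nil) .nil))))) (.nd (nat_lit 8) (.nd (nat_lit 9) 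
(.lf (nat_lit 546037) (.g (nat_lit 2093) (.e (nat_lit 122913) (nat_lit 13) (.e (nat_lit 344118) (nat_lit 21) (.e (nat_lit 516165) (nat_lit 12) (.e (nat_lit 450586) (nat_lit 10) (.e (nat_lit 573475) (nat_lit 12) .nil))))) (.g (nat_lit 0) (.e (nat_lit 280732) (nat_lit 0) .nil) .nil))) 
(.lf (nat_lit 546549) (.g (nat_lit 3788) (.e (nat_lit 147495) (nat_lit 11) (.e (nat_lit 24604) (nat_lit 2) (.e (nat_lit 90170) (nat_lit 13) (.e (nat_lit 172113) (nat_lit 10) .nil)))) (.g (nat_lit 0) (.e (nat_lit 283193) (nat_lit 0) .nil) .nil)))) (.nd (nat_lit 9) 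
(.lf (nat_lit 546293) (.g (nat_lit 3295) (.e (nat_lit 131105) (nat_lit 9) (.e (nat_lit 336324) (nat_lit 18) (.e (nat_lit 204837) (nat_lit 20) (.e (nat_lit 114698) (nat_lit 11) (.e (nat_lit 426116) (nat_lit 2) (.e (nat_lit 196681) (nat_lit 17) .nil)))))) (.g (nat_lit 1) (.e (nat_lit 281934) (nat_lit 0) .nil) .nil))) 
(.lf (nat_lit 546805) (.g (nat_lit 3517) (.e (nat_lit 303104) (nat_lit 0) (.e (nat_lit 3238) (nat_lit 197) (.e (nat_lit 532535) (nat_lit 9) (.e (nat_lit 336178) (nat_lit 10) (.e (nat_lit 344117) (nat_lit 21) .nil))))) (.g (nat_lit 0) (.e (nat_lit 284081) (nat_lit 0) .nil) .nil))))))))) (.nd (nat_lit 4) (.nd (nat_lit 5) (.nd (nat_lit 6) (.nd (nat_lit 7) (.nd (nat_lit 8) (.nd (nat_lit 9) 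
(.lf (nat_lit 545805) (.g (nat_lit 1864) (.e (nat_lit 114719) (nat_lit 23) (.e (nat_lit 98334) (nat_lit 18) (.e (nat_lit 164399) (nat_lit 256) (.e (nat_lit 57372) (nat_lit 2) (.e (nat_lit 90169) (nat_lit 13) .nil))))) (.g (nat_lit 0) (.e (nat_lit 280348) (nat_lit 0) .nil) .nil))) 
(.lf (nat_lit 546317) (.g (nat_lit 801) (.e (nat_lit 131105) (nat_lit 9) (.e (nat_lit 336456) (nat_lit 34) (.e (nat_lit 483362) (nat_lit 18) .nil))) (.g (nat_lit 0) (.e (nat_lit 281996) (nat_lit 0) .nil) .nil)))) (.nd (nat_lit 9) 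
(.lf (nat_lit 546061) (.g (nat_lit 3684) (.e (nat_lit 122934) (nat_lit 23) (.e (nat_lit 516151) (nat_lit 9) (.e (nat_lit 426211) (nat_lit 9) (.e (nat_lit 426140) (nat_lit 3) (.e (nat_lit 204846) (nat_lit 24) .nil))))) (.g (nat_lit 0) (.e (nat_lit 280776) (nat_lit 0) .nil) .nil))) 
(.lf (nat_lit 546573) (.g (nat_lit 4028) (.e (nat_lit 147495) (nat_lit 11) (.e (nat_lit 24662) (nat_lit 14) (.e (nat_lit 401454) (nat_lit 12) (.e (nat_lit 475214) (nat_lit 42) .nil)))) (.g (nat_lit 0) (.e (nat_lit 283228) (nat_lit 0) .nil) .nil))))) (.nd (nat_lit 8) (.nd (nat_lit 9) 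
(.lf (nat_lit 545933) (.g (nat_lit 4401) (.e (nat_lit 114719) (nat_lit 23) (.e (nat_lit 98367) (nat_lit 27) (.e (nat_lit 434232) (nat_lit 23) (.e (nat_lit 532504) (nat_lit 1) (.e (nat_lit 57691) (nat_lit 156) (.e (nat_lit 163875) (nat_lit 3) (.e (nat_lit 204837) (nat_lit 20) .nil))))))) (.g (nat_lit 1) (.e (nat_lit 280579) (nat_lit 0) .nil) .nil))) 
(.lf (nat_lit 546445) (.g (nat_lit 534) (.e (nat_lit 131127) (nat_lit 13) (.e (nat_lit 393253) (nat_lit 18) (.e (nat_lit 164182) (nat_lit 154) .nil))) (.g (nat_lit 0) (.e (nat_lit 282435) (nat_lit 0) .nil) .nil)))) (.nd (nat_lit 9) 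
(.lf (nat_lit 546189) (.g (nat_lit 3023) (.e (nat_lit 123195) (nat_lit 266) (.e (nat_lit 57400) (nat_lit 10) (.e (nat_lit 319490) (nat_lit 0) (.e (nat_lit 5664) (nat_lit 312) (.e (nat_lit 3085) (nat_lit 191) (.e (nat_lit 483390) (nat_lit 23) (.e (nat_lit 336032) (nat_lit 4) .nil))))))) (.g (nat_lit 1) (.e (nat_lit 281298) (nat_lit 0) .nil) .nil))) 
(.lf (nat_lit 546701) (.g (nat_lit 217) (.e (nat_lit 270344) (nat_lit 0) (.e (nat_lit 5667) (nat_lit 312) (.e (nat_lit 3085) (nat_lit 191) .nil))) (.g (nat_lit 0) (.e (nat_lit 283831) (nat_lit 0) .nil) .nil)))))) (.nd (nat_lit 7) (.nd (nat_lit 8) (.nd (nat_lit 9) 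
(.lf (nat_lit 545869) (.g (nat_lit 5323) (.e (nat_lit 114719) (nat_lit 23) (.e (nat_lit 98366) (nat_lit 27) (.e (nat_lit 434231) (nat_lit 23) (.e (nat_lit 532499) (nat_lit 1) (.e (nat_lit 57688) (nat_lit 156) (.e (nat_lit 163874) (nat_lit 3) (.e (nat_lit 204837) (nat_lit 20) .nil))))))) (.g (nat_lit 1) (.e (nat_lit 280462) (nat_lit 0) .nil) .nil))) 
(.lf (nat_lit 546381) (.g (nat_lit 1248) (.e (nat_lit 131119) (nat_lit 12) (.e (nat_lit 385068) (nat_lit 26) (.e (nat_lit 532511) (nat_lit 2) .nil))) (.g (nat_lit 0) (.e (nat_lit 282230) (nat_lit 0) .nil) .nil)))) (.nd (nat_lit 9) 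
(.lf (nat_lit 546125) (.g (nat_lit 585) (.e (nat_lit 123028) (nat_lit 128) (.e (nat_lit 2638) (nat_lit 165) (.e (nat_lit 180278) (nat_lit 32) .nil))) (.g (nat_lit 0) (.e (nat_lit 281011) (nat_lit 0) .nil) .nil))) 
(.lf (nat_lit 546637) (.g (nat_lit 360) (.e (nat_lit 163584) (nat_lit 6) (.e (nat_lit 188418) (nat_lit 0) (.e (nat_lit 2057) (nat_lit 142) (.e (nat_lit 704598) (nat_lit 6) (.e (nat_lit 196352) (nat_lit 8) .nil))))) (.g (nat_lit 0) (.e (nat_lit 283665) (nat_lit 0) .nil) .nil))))) (.nd (nat_lit 8) (.nd (nat_lit 9) 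
(.lf (nat_lit 545997) (.g (nat_lit 2781) (.e (nat_lit 114723) (nat_lit 24) (.e (nat_lit 106534) (nat_lit 11) (.e (nat_lit 16446) (nat_lit 9) (.e (nat_lit 426098) (nat_lit 1) (.e (nat_lit 164325) (nat_lit 230) .nil))))) (.g (nat_lit 0) (.e (nat_lit 280668) (nat_lit 0) .nil) .nil))) 
(.lf (nat_lit 546509) (.g (nat_lit 1944) (.e (nat_lit 139285) (nat_lit 9) (.e (nat_lit 2830) (nat_lit 182) (.e (nat_lit 409648) (nat_lit 18) (.e (nat_lit 303116) (nat_lit 2) .nil)))) (.g (nat_lit 0) (.e (nat_lit 283003) (nat_lit 0) .nil) .nil)))) (.nd (nat_lit 9) 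
(.lf (nat_lit 546253) (.g (nat_lit 2527) (.e (nat_lit 131096) (nat_lit 3) (.e (nat_lit 98335) (nat_lit 18) (.e (nat_lit 164179) (nat_lit 154) (.e (nat_lit 57379) (nat_lit 3) (.e (nat_lit 98342) (nat_lit 20) .nil))))) (.g (nat_lit 0) (.e (nat_lit 281794) (nat_lit 0) .nil) .nil))) 
(.lf (nat_lit 546765) (.g (nat_lit 2459) (.e (nat_lit 278567) (nat_lit 16) (.e (nat_lit 286735) (nat_lit 3) (.e (nat_lit 98373) (nat_lit 29) (.e (nat_lit 450563) (nat_lit 0) .nil)))) (.g (nat_lit 0) (.e (nat_lit 283958) (nat_lit 0) .nil) .nil))))))) (.nd (nat_lit 6) (.nd (nat_lit 7) (.nd (nat_lit 8) (.nd (nat_lit 9) 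
(.lf (nat_lit 545837) (.g (nat_lit 4598) (.e (nat_lit 114719) (nat_lit 23) (.e (nat_lit 98356) (nat_lit 26) (.e (nat_lit 426438) (nat_lit 18) (.e (nat_lit 98333) (nat_lit 18) (.e (nat_lit 164327) (nat_lit 230) (.e (nat_lit 163875) (nat_lit 3) (.e (nat_lit 204837) (nat_lit 20) .nil))))))) (.g (nat_lit 1) (.e (nat_lit 280392) (nat_lit 0) .nil) .nil))) 
(.lf (nat_lit 546349) (.g (nat_lit 3880) (.e (nat_lit 131109) (nat_lit 9) (.e (nat_lit 336019) (nat_lit 3) (.e (nat_lit 98350) (nat_lit 24) (.e (nat_lit 409648) (nat_lit 18) (.e (nat_lit 303116) (nat_lit 2) (.e (nat_lit 196681) (nat_lit 17) .nil)))))) (.g (nat_lit 1) (.e (nat_lit 282100) (nat_lit 0) .nil) .nil)))) (.nd (nat_lit 9) 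
(.lf (nat_lit 546093) (.g (nat_lit 4998) (.e (nat_lit 122936) (nat_lit 23) (.e (nat_lit 516166) (nat_lit 12) (.e (nat_lit 450588) (nat_lit 10) (.e (nat_lit 573471) (nat_lit 11) .nil)))) (.g (nat_lit 0) (.e (nat_lit 280826) (nat_lit 0) .nil) .nil))) 
(.lf (nat_lit 546605) (.g (nat_lit 2006) (.e (nat_lit 155649) (nat_lit 0) (.e (nat_lit 2887) (nat_lit 184) (.e (nat_lit 426312) (nat_lit 12) (.e (nat_lit 475199) (nat_lit 40) (.e (nat_lit 704598) (nat_lit 6) (.e (nat_lit 196352) (nat_lit 8) .nil)))))) (.g (nat_lit 1) (.e (nat_lit 283321) (nat_lit 0) .nil) .nil))))) (.nd (nat_lit 8) (.nd (nat_lit 9) 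
(.lf (nat_lit 545965) (.g (nat_lit 3418) (.e (nat_lit 114719) (nat_lit 23) (.e (nat_lit 98384) (nat_lit 32) (.e (nat_lit 475179) (nat_lit 24) (.e (nat_lit 516117) (nat_lit 1) (.e (nat_lit 164330) (nat_lit 230) (.e (nat_lit 163874) (nat_lit 3) (.e (nat_lit 204836) (nat_lit 20) .nil))))))) (.g (nat_lit 1) (.e (nat_lit 280619) (nat_lit 0) .nil) .nil))) 
(.lf (nat_lit 546477) (.g (nat_lit 1415) (.e (nat_lit 131140) (nat_lit 27) (.e (nat_lit 426306) (nat_lit 12) (.e (nat_lit 475195) (nat_lit 40) (.e (nat_lit 704596) (nat_lit 5) (.e (nat_lit 188160) (nat_lit 39) .nil))))) (.g (nat_lit 1) (.e (nat_lit 282689) (nat_lit 0) .nil) .nil)))) (.nd (nat_lit 9) 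
(.lf (nat_lit 546221) (.g (nat_lit 1924) (.e (nat_lit 131086) (nat_lit 1) (.e (nat_lit 57849) (nat_lit 252) (.e (nat_lit 57379) (nat_lit 3) (.e (nat_lit 98334) (nat_lit 18) .nil)))) (.g (nat_lit 0) (.e (nat_lit 281583) (nat_lit 0) .nil) .nil))) 
(.lf (nat_lit 546733) (.g (nat_lit 2174) (.e (nat_lit 278566) (nat_lit 16) (.e (nat_lit 286749) (nat_lit 9) (.e (nat_lit 335997) (nat_lit 1) (.e (nat_lit 57857) (nat_lit 254) (.e (nat_lit 163908) (nat_lit 12) (.e (nat_lit 426170) (nat_lit 7) (.e (nat_lit 409638) (nat_lit 15) .nil))))))) (.g (nat_lit 1) (.e (nat_lit 283923) (nat_lit 0) .nil) .nil)))))) 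
(.nd (nat_lit 7) (.nd (nat_lit 8) (.nd (nat_lit 9) 
(.lf (nat_lit 545901) (.g (nat_lit 2410) (.e (nat_lit 114719) (nat_lit 23) (.e (nat_lit 98367) (nat_lit 27) (.e (nat_lit 434231) (nat_lit 23) (.e (nat_lit 532483) (nat_lit 0) .nil)))) (.g (nat_lit 0) (.e (nat_lit 280519) (nat_lit 0) .nil) .nil))) 
(.lf (nat_lit 546413) (.g (nat_lit 2494) (.e (nat_lit 131123) (nat_lit 12) (.e (nat_lit 385066) (nat_lit 26) (.e (nat_lit 532515) (nat_lit 3) (.e (nat_lit 114698) (nat_lit 11) (.e (nat_lit 426114) (nat_lit 2) (.e (nat_lit 196681) (nat_lit 17) .nil)))))) (.g (nat_lit 1) (.e (nat_lit 282340) (nat_lit 0) .nil) .nil)))) (.nd (nat_lit 9) 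
(.lf (nat_lit 546157) (.g (nat_lit 1865) (.e (nat_lit 123183) (nat_lit 264) (.e (nat_lit 1183) (nat_lit 87) (.e (nat_lit 57478) (nat_lit 28) (.e (nat_lit 557107) (nat_lit 15) (.e (nat_lit 188447) (nat_lit 22) .nil))))) (.g (nat_lit 0) (.e (nat_lit 281247) (nat_lit 0) .nil) .nil))) 
(.lf (nat_lit 546669) (.g (nat_lit 3021) (.e (nat_lit 270373) (nat_lit 16) (.e (nat_lit 286735) (nat_lit 3) (.e (nat_lit 98359) (nat_lit 26) (.e (nat_lit 426211) (nat_lit 9) (.e (nat_lit 426125) (nat_lit 2) .nil))))) (.g (nat_lit 0) (.e (nat_lit 283782) (nat_lit 0) .nil) .nil))))) (.nd (nat_lit 8) (.nd (nat_lit 9) 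
(.lf (nat_lit 546029) (.g (nat_lit 3176) (.e (nat_lit 122906) (nat_lit 12) (.e (nat_lit 336001) (nat_lit 2) (.e (nat_lit 90170) (nat_lit 13) (.e (nat_lit 172113) (nat_lit 10) (.e (nat_lit 434248) (nat_lit 28) (.e (nat_lit 573475) (nat_lit 12) (.e (nat_lit 57356) (nat_lit 0) (.e (nat_lit 7272) (nat_lit 385) .nil)))))))) (.g (nat_lit 1) (.e (nat_lit 280717) (nat_lit 0) .nil) .nil))) 
(.lf (nat_lit 546541) (.g (nat_lit 4149) (.e (nat_lit 147495) (nat_lit 11) (.e (nat_lit 24601) (nat_lit 2) (.e (nat_lit 90170) (nat_lit 13) (.e (nat_lit 172106) (nat_lit 10) (.e (nat_lit 434244) (nat_lit 28) (.e (nat_lit 573451) (nat_lit 9) (.e (nat_lit 1310) (nat_lit 98) .nil))))))) (.g (nat_lit 1) (.e (nat_lit 283185) (nat_lit 0) .nil) .nil)))) (.nd (nat_lit 9) 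
(.lf (nat_lit 546285) (.g (nat_lit 3449) (.e (nat_lit 131104) (nat_lit 9) (.e (nat_lit 336454) (nat_lit 34) (.e (nat_lit 483365) (nat_lit 18) (.e (nat_lit 57931) (nat_lit 282) .nil)))) (.g (nat_lit 0) (.e (nat_lit 281905) (nat_lit 0) .nil) .nil))) 
(.lf (nat_lit 546797) (.g (nat_lit 4171) (.e (nat_lit 303104) (nat_lit 0) (.e (nat_lit 3238) (nat_lit 197) (.e (nat_lit 532535) (nat_lit 9) (.e (nat_lit 336099) (nat_lit 9) (.e (nat_lit 336028) (nat_lit 3) .nil))))) (.g (nat_lit 0) (.e (nat_lit 284072) (nat_lit 0) .nil) .nil)))))))) (.nd (nat_lit 5) (.nd (nat_lit 6) (.nd (nat_lit 7) (.nd (nat_lit 8) (.nd (nat_lit 9) 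
(.lf (nat_lit 545821) (.g (nat_lit 3255) (.e (nat_lit 114719) (nat_lit 23) (.e (nat_lit 98350) (nat_lit 24) (.e (nat_lit 409617) (nat_lit 10) (.e (nat_lit 632) (nat_lit 50) (.e (nat_lit 573487) (nat_lit 14) (.e (nat_lit 73743) (nat_lit 1) (.e (nat_lit 499991) (nat_lit 14) (.e (nat_lit 1281) (nat_lit 94) .nil)))))))) (.g (nat_lit 1) (.e (nat_lit 280372) (nat_lit 0) .nil) .nil))) 
(.lf (nat_lit 546333) (.g (nat_lit 803) (.e (nat_lit 131107) (nat_lit 9) (.e (nat_lit 336456) (nat_lit 34) (.e (nat_lit 483363) (nat_lit 18) .nil))) (.g (nat_lit 0) (.e (nat_lit 282022) (nat_lit 0) .nil) .nil)))) (.nd (nat_lit 9) 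
(.lf (nat_lit 546077) (.g (nat_lit 1848) (.e (nat_lit 122936) (nat_lit 23) (.e (nat_lit 516117) (nat_lit 1) (.e (nat_lit 164399) (nat_lit 256) (.e (nat_lit 57370) (nat_lit 2) (.e (nat_lit 90174) (nat_lit 14) .nil))))) (.g (nat_lit 0) (.e (nat_lit 280800) (nat_lit 0) .nil) .nil))) 
(.lf (nat_lit 546589) (.g (nat_lit 3893) (.e (nat_lit 147496) (nat_lit 11) (.e (nat_lit 24604) (nat_lit 2) (.e (nat_lit 90170) (nat_lit 13) (.e (nat_lit 172113) (nat_lit 10) .nil)))) (.g (nat_lit 0) (.e (nat_lit 283246) (nat_lit 0) .nil) .nil))))) (.nd (nat_lit 8) (.nd (nat_lit 9) 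
(.lf (nat_lit 545949) (.g (nat_lit 3392) (.e (nat_lit 114719) (nat_lit 23) (.e (nat_lit 98384) (nat_lit 32) (.e (nat_lit 475177) (nat_lit 24) (.e (nat_lit 516115) (nat_lit 1) (.e (nat_lit 164327) (nat_lit 230) (.e (nat_lit 163875) (nat_lit 3) (.e (nat_lit 204836) (nat_lit 20) .nil))))))) (.g (nat_lit 1) (.e (nat_lit 280601) (nat_lit 0) .nil) .nil))) 
(.lf (nat_lit 546461) (.g (nat_lit 3230) (.e (nat_lit 131133) (nat_lit 15) (.e (nat_lit 3304) (nat_lit 202) (.e (nat_lit 573485) (nat_lit 13) (.e (nat_lit 65619) (nat_lit 10) (.e (nat_lit 344117) (nat_lit 21) (.e (nat_lit 516106) (nat_lit 0) (.e (nat_lit 7936) (nat_lit 409) .nil))))))) (.g (nat_lit 1) (.e (nat_lit 282517) (nat_lit 0) .nil) .nil)))) (.nd (nat_lit 9) 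
(.lf (nat_lit 546205) (.g (nat_lit 785) (.e (nat_lit 123198) (nat_lit 266) (.e (nat_lit 57424) (nat_lit 14) (.e (nat_lit 352258) (nat_lit 0) .nil))) (.g (nat_lit 0) (.e (nat_lit 281329) (nat_lit 0) .nil) .nil))) 
(.lf (nat_lit 546717) (.g (nat_lit 1663) (.e (nat_lit 270354) (nat_lit 8) (.e (nat_lit 303145) (nat_lit 13) (.e (nat_lit 483405) (nat_lit 26) (.e (nat_lit 385092) (nat_lit 49) .nil)))) (.g (nat_lit 0) (.e (nat_lit 283856) (nat_lit 0) .nil) .nil)))))) (.nd (nat_lit 7) (.nd (nat_lit 8) (.nd (nat_lit 9) 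
(.lf (nat_lit 545885) (.g (nat_lit 2528) (.e (nat_lit 114719) (nat_lit 23) (.e (nat_lit 98366) (nat_lit 27) (.e (nat_lit 434231) (nat_lit 23) (.e (nat_lit 532502) (nat_lit 1) (.e (nat_lit 57686) (nat_lit 156) (.e (nat_lit 163875) (nat_lit 3) (.e (nat_lit 204838) (nat_lit 20) .nil))))))) (.g (nat_lit 1) (.e (nat_lit 280491) (nat_lit 0) .nil) .nil))) 
(.lf (nat_lit 546397) (.g (nat_lit 4497) (.e (nat_lit 131120) (nat_lit 12) (.e (nat_lit 385074) (nat_lit 31) (.e (nat_lit 573482) (nat_lit 13) (.e (nat_lit 65628) (nat_lit 14) (.e (nat_lit 401425) (nat_lit 2) (.e (nat_lit 196681) (nat_lit 17) .nil)))))) (.g (nat_lit 1) (.e (nat_lit 282270) (nat_lit 0) .nil) .nil)))) (.nd (nat_lit 9) 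
(.lf (nat_lit 546141) (.g (nat_lit 3489) (.e (nat_lit 123168) (nat_lit 256) (.e (nat_lit 3085) (nat_lit 191) (.e (nat_lit 483413) (nat_lit 27) (.e (nat_lit 401446) (nat_lit 10) (.e (nat_lit 434205) (nat_lit 18) .nil))))) (.g (nat_lit 0) (.e (nat_lit 281218) (nat_lit 0) .nil) .nil))) 
(.lf (nat_lit 546653) (.g (nat_lit 682) (.e (nat_lit 163584) (nat_lit 6) (.e (nat_lit 188439) (nat_lit 20) (.e (nat_lit 3408) (nat_lit 212) (.e (nat_lit 655380) (nat_lit 6) (.e (nat_lit 196352) (nat_lit 8) .nil))))) (.g (nat_lit 0) (.e (nat_lit 283699) (nat_lit 0) .nil) .nil))))) (.nd (nat_lit 8) (.nd (nat_lit 9) 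
(.lf (nat_lit 546013) (.g (nat_lit 866) (.e (nat_lit 122904) (nat_lit 12) (.e (nat_lit 336019) (nat_lit 3) (.e (nat_lit 98372) (nat_lit 29) .nil))) (.g (nat_lit 0) (.e (nat_lit 280701) (nat_lit 0) .nil) .nil))) 
(.lf (nat_lit 546525) (.g (nat_lit 2335) (.e (nat_lit 147472) (nat_lit 9) (.e (nat_lit 2672) (nat_lit 168) (.e (nat_lit 204809) (nat_lit 9) (.e (nat_lit 426316) (nat_lit 12) (.e (nat_lit 475185) (nat_lit 29) (.e (nat_lit 557098) (nat_lit 13) (.e (nat_lit 179968) (nat_lit 23) .nil))))))) (.g (nat_lit 1) (.e (nat_lit 283124) (nat_lit 0) .nil) .nil)))) (.nd (nat_lit 9) 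
(.lf (nat_lit 546269) (.g (nat_lit 3166) (.e (nat_lit 131098) (nat_lit 3) (.e (nat_lit 98333) (nat_lit 18) (.e (nat_lit 164182) (nat_lit 154) (.e (nat_lit 57378) (nat_lit 3) (.e (nat_lit 98341) (nat_lit 20) (.e (nat_lit 221212) (nat_lit 22) (.e (nat_lit 196681) (nat_lit 17) .nil))))))) (.g (nat_lit 1) (.e (nat_lit 281847) (nat_lit 0) .nil) .nil))) 
(.lf (nat_lit 546781) (.g (nat_lit 1967) (.e (nat_lit 278547) (nat_lit 8) (.e (nat_lit 303118) (nat_lit 3) (.e (nat_lit 204855) (nat_lit 26) (.e (nat_lit 336099) (nat_lit 9) (.e (nat_lit 336013) (nat_lit 2) .nil))))) (.g (nat_lit 0) (.e (nat_lit 284032) (nat_lit 0) .nil) .nil))))))) (.nd (nat_lit 6) (.nd (nat_lit 7) (.nd (nat_lit 8) (.nd (nat_lit 9) 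
(.lf (nat_lit 545853) (.g (nat_lit 3877) (.e (nat_lit 114719) (nat_lit 23) (.e (nat_lit 98365) (nat_lit 26) (.e (nat_lit 426137) (nat_lit 3) (.e (nat_lit 204829) (nat_lit 18) (.e (nat_lit 57688) (nat_lit 156) (.e (nat_lit 163873) (nat_lit 3) (.e (nat_lit 204837) (nat_lit 20) .nil))))))) (.g (nat_lit 1) (.e (nat_lit 280420) (nat_lit 0) .nil) .nil))) 
(.lf (nat_lit 546365) (.g (nat_lit 1058) (.e (nat_lit 131109) (nat_lit 9) (.e (nat_lit 336324) (nat_lit 18) (.e (nat_lit 204838) (nat_lit 20) (.e (nat_lit 122624) (nat_lit 15) .nil)))) (.g (nat_lit 0) (.e (nat_lit 282161) (nat_lit 0) .nil) .nil)))) (.nd (nat_lit 9) 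
(.lf (nat_lit 546109) (.g (nat_lit 631) (.e (nat_lit 122989) (nat_lit 73) (.e (nat_lit 426316) (nat_lit 12) (.e (nat_lit 475185) (nat_lit 29) .nil))) (.g (nat_lit 0) (.e (nat_lit 280890) (nat_lit 0) .nil) .nil))) 
(.lf (nat_lit 546621) (.g (nat_lit 2191) (.e (nat_lit 155654) (nat_lit 0) (.e (nat_lit 2856) (nat_lit 184) (.e (nat_lit 426320) (nat_lit 12) (.e (nat_lit 475199) (nat_lit 40) (.e (nat_lit 704598) (nat_lit 6) .nil))))) (.g (nat_lit 0) (.e (nat_lit 283454) (nat_lit 0) .nil) .nil))))) (.nd (nat_lit 8) (.nd (nat_lit 9) 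
(.lf (nat_lit 545981) (.g (nat_lit 2520) (.e (nat_lit 114719) (nat_lit 23) (.e (nat_lit 98386) (nat_lit 32) (.e (nat_lit 475179) (nat_lit 24) (.e (nat_lit 516119) (nat_lit 1) (.e (nat_lit 164325) (nat_lit 230) .nil))))) (.g (nat_lit 0) (.e (nat_lit 280637) (nat_lit 0) .nil) .nil))) 
(.lf (nat_lit 546493) (.g (nat_lit 475) (.e (nat_lit 139008) (nat_lit 27) (.e (nat_lit 426320) (nat_lit 12) (.e (nat_lit 475211) (nat_lit 41) .nil))) (.g (nat_lit 0) (.e (nat_lit 282746) (nat_lit 0) .nil) .nil)))) (.nd (nat_lit 9) 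
(.lf (nat_lit 546237) (.g (nat_lit 3961) (.e (nat_lit 131089) (nat_lit 1) (.e (nat_lit 57931) (nat_lit 282) (.e (nat_lit 163943) (nat_lit 19) (.e (nat_lit 483413) (nat_lit 27) (.e (nat_lit 401414) (nat_lit 0) (.e (nat_lit 3297) (nat_lit 202) (.e (nat_lit 573497) (nat_lit 17) .nil))))))) (.g (nat_lit 1) (.e (nat_lit 281657) (nat_lit 0) .nil) .nil))) 
(.lf (nat_lit 546749) (.g (nat_lit 2137) (.e (nat_lit 278566) (nat_lit 16) (.e (nat_lit 286761) (nat_lit 13) (.e (nat_lit 393283) (nat_lit 24) (.e (nat_lit 434275) (nat_lit 39) (.e (nat_lit 663589) (nat_lit 14) (.e (nat_lit 2768) (nat_lit 177) .nil)))))) (.g (nat_lit 1) (.e (nat_lit 283942) (nat_lit 0) .nil) .nil)))))) (.nd (nat_lit 7) (.nd (nat_lit 8) (.nd (nat_lit 9) 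
(.lf (nat_lit 545917) (.g (nat_lit 2783) (.e (nat_lit 114719) (nat_lit 23) (.e (nat_lit 98367) (nat_lit 27) (.e (nat_lit 434231) (nat_lit 23) (.e (nat_lit 532500) (nat_lit 1) (.e (nat_lit 57690) (nat_lit 156) .nil))))) (.g (nat_lit 0) (.e (nat_lit 280561) (nat_lit 0) .nil) .nil))) 
(.lf (nat_lit 546429) (.g (nat_lit 2137) (.e (nat_lit 131124) (nat_lit 13) (.e (nat_lit 393229) (nat_lit 9) (.e (nat_lit 335995) (nat_lit 1) (.e (nat_lit 57931) (nat_lit 282) (.e (nat_lit 163867) (nat_lit 2) .nil))))) (.g (nat_lit 0) (.e (nat_lit 282377) (nat_lit 0) .nil) .nil)))) (.nd (nat_lit 9) 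
(.lf (nat_lit 546173) (.g (nat_lit 3571) (.e (nat_lit 123195) (nat_lit 266) (.e (nat_lit 57346) (nat_lit 0) (.e (nat_lit 6203) (nat_lit 332) (.e (nat_lit 2798) (nat_lit 180) (.e (nat_lit 303133) (nat_lit 9) (.e (nat_lit 426499) (nat_lit 27) (.e (nat_lit 336105) (nat_lit 9) (.e (nat_lit 336032) (nat_lit 4) .nil)))))))) (.g (nat_lit 1) (.e (nat_lit 281274) (nat_lit 0) .nil) .nil))) 
(.lf (nat_lit 546685) (.g (nat_lit 215) (.e (nat_lit 270373) (nat_lit 16) (.e (nat_lit 286753) (nat_lit 10) (.e (nat_lit 344154) (nat_lit 35) .nil))) (.g (nat_lit 0) (.e (nat_lit 283800) (nat_lit 0) .nil) .nil))))) (.nd (nat_lit 8) (.nd (nat_lit 9) 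
(.lf (nat_lit 546045) (.g (nat_lit 3463) (.e (nat_lit 122913) (nat_lit 13) (.e (nat_lit 344130) (nat_lit 26) (.e (nat_lit 557067) (nat_lit 9) (.e (nat_lit 2828) (nat_lit 182) (.e (nat_lit 409646) (nat_lit 18) (.e (nat_lit 303151) (nat_lit 27) (.e (nat_lit 335995) (nat_lit 1) (.e (nat_lit 57683) (nat_lit 155) .nil)))))))) (.g (nat_lit 1) (.e (nat_lit 280740) (nat_lit 0) .nil) .nil))) 
(.lf (nat_lit 546557) (.g (nat_lit 4295) (.e (nat_lit 147495) (nat_lit 11) (.e (nat_lit 24608) (nat_lit 3) (.e (nat_lit 98372) (nat_lit 29) (.e (nat_lit 450588) (nat_lit 10) (.e (nat_lit 573449) (nat_lit 9) .nil))))) (.g (nat_lit 0) (.e (nat_lit 283202) (nat_lit 0) .nil) .nil)))) (.nd (nat_lit 9) 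
(.lf (nat_lit 546301) (.g (nat_lit 3375) (.e (nat_lit 131105) (nat_lit 9) (.e (nat_lit 336324) (nat_lit 18) (.e (nat_lit 204838) (nat_lit 20) (.e (nat_lit 114698) (nat_lit 11) (.e (nat_lit 426116) (nat_lit 2) (.e (nat_lit 196681) (nat_lit 17) .nil)))))) (.g (nat_lit 1) (.e (nat_lit 281942) (nat_lit 0) .nil) .nil))) 
(.lf (nat_lit 546813) (.g (nat_lit 1861) (.e (nat_lit 303104) (nat_lit 0) (.e (nat_lit 6989) (nat_lit 377) (.e (nat_lit 2779) (nat_lit 178) (.e (nat_lit 286728) (nat_lit 0) .nil)))) (.g (nat_lit 0) (.e (nat_lit 284099) (nat_lit 0) .nil) .nil))))))))))) (.nd (nat_lit 2) (.nd (nat_lit 3) (.nd (nat_lit 4) (.nd (nat_lit 5) (.nd (nat_lit 6) (.nd (nat_lit 7) (.nd (nat_lit 8) (.nd (nat_lit 9) 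
(.lf (nat_lit 545795) (.g (nat_lit 2841) (.e (nat_lit 114719) (nat_lit 23) (.e (nat_lit 98333) (nat_lit 18) (.e (nat_lit 164403) (nat_lit 256) (.e (nat_lit 57373) (nat_lit 2) (.e (nat_lit 90167) (nat_lit 13) .nil))))) (.g (nat_lit 0) (.e (nat_lit 280324) (nat_lit 0) .nil) .nil))) 
(.lf (nat_lit 546307) (.g (nat_lit 2431) (.e (nat_lit 131105) (nat_lit 9) (.e (nat_lit 336454) (nat_lit 34) (.e (nat_lit 483363) (nat_lit 18) (.e (nat_lit 57929) (nat_lit 282) (.e (nat_lit 163869) (nat_lit 2) .nil))))) (.g (nat_lit 0) (.e (nat_lit 281969) (nat_lit 0) .nil) .nil)))) (.nd (nat_lit 9) 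
(.lf (nat_lit 546051) (.g (nat_lit 1948) (.e (nat_lit 122914) (nat_lit 14) (.e (nat_lit 352277) (nat_lit 11) (.e (nat_lit 426342) (nat_lit 14) (.e (nat_lit 491560) (nat_lit 10) (.e (nat_lit 344099) (nat_lit 18) (.e (nat_lit 7270) (nat_lit 385) .nil)))))) (.g (nat_lit 1) (.e (nat_lit 280749) (nat_lit 0) .nil) .nil))) 
(.lf (nat_lit 546563) (.g (nat_lit 1165) (.e (nat_lit 147495) (nat_lit 11) (.e (nat_lit 24623) (nat_lit 9) (.e (nat_lit 336438) (nat_lit 31) (.e (nat_lit 466688) (nat_lit 4) .nil)))) (.g (nat_lit 0) (.e (nat_lit 283208) (nat_lit 0) .nil) .nil))))) (.nd (nat_lit 8) (.nd (nat_lit 9) 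
(.lf (nat_lit 545923) (.g (nat_lit 5009) (.e (nat_lit 114719) (nat_lit 23) (.e (nat_lit 98367) (nat_lit 27) (.e (nat_lit 434231) (nat_lit 23) (.e (nat_lit 532500) (nat_lit 1) (.e (nat_lit 57691) (nat_lit 156) (.e (nat_lit 163875) (nat_lit 3) (.e (nat_lit 204837) (nat_lit 20) .nil))))))) (.g (nat_lit 1) (.e (nat_lit 280568) (nat_lit 0) .nil) .nil))) 
(.lf (nat_lit 546435) (.g (nat_lit 3012) (.e (nat_lit 131125) (nat_lit 13) (.e (nat_lit 393229) (nat_lit 9) (.e (nat_lit 335995) (nat_lit 1) (.e (nat_lit 57930) (nat_lit 282) .nil)))) (.g (nat_lit 0) (.e (nat_lit 282404) (nat_lit 0) .nil) .nil)))) (.nd (nat_lit 9) 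
(.lf (nat_lit 546179) (.g (nat_lit 2265) (.e (nat_lit 123195) (nat_lit 266) (.e (nat_lit 57400) (nat_lit 10) (.e (nat_lit 319490) (nat_lit 0) (.e (nat_lit 5664) (nat_lit 312) (.e (nat_lit 2852) (nat_lit 184) (.e (nat_lit 426540) (nat_lit 29) (.e (nat_lit 352316) (nat_lit 24) .nil))))))) (.g (nat_lit 1) (.e (nat_lit 281288) (nat_lit 0) .nil) .nil))) 
(.lf (nat_lit 546691) (.g (nat_lit 272) (.e (nat_lit 270373) (nat_lit 16) (.e (nat_lit 286760) (nat_lit 13) (.e (nat_lit 393293) (nat_lit 26) .nil))) (.g (nat_lit 0) (.e (nat_lit 283810) (nat_lit 0) .nil) .nil)))))) (.nd (nat_lit 7) (.nd (nat_lit 8) (.nd (nat_lit 9) 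
(.lf (nat_lit 545859) (.g (nat_lit 2169) (.e (nat_lit 114719) (nat_lit 23) (.e (nat_lit 98366) (nat_lit 27) (.e (nat_lit 434231) (nat_lit 23) (.e (nat_lit 532481) (nat_lit 0) (.e (nat_lit 2271) (nat_lit 149) .nil))))) (.g (nat_lit 0) (.e (nat_lit 280437) (nat_lit 0) .nil) .nil))) 
(.lf (nat_lit 546371) (.g (nat_lit 2952) (.e (nat_lit 131109) (nat_lit 9) (.e (nat_lit 336456) (nat_lit 34) (.e (nat_lit 483364) (nat_lit 18) (.e (nat_lit 57931) (nat_lit 282) (.e (nat_lit 163869) (nat_lit 2) (.e (nat_lit 196681) (nat_lit 17) .nil)))))) (.g (nat_lit 1) (.e (nat_lit 282198) (nat_lit 0) .nil) .nil)))) (.nd (nat_lit 9) 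
(.lf (nat_lit 546115) (.g (nat_lit 2360) (.e (nat_lit 123009) (nat_lit 116) (.e (nat_lit 778466) (nat_lit 11) (.e (nat_lit 24617) (nat_lit 7) (.e (nat_lit 319533) (nat_lit 16) .nil)))) (.g (nat_lit 0) (.e (nat_lit 280961) (nat_lit 0) .nil) .nil))) 
(.lf (nat_lit 546627) (.g (nat_lit 1000) (.e (nat_lit 163584) (nat_lit 4) (.e (nat_lit 172119) (nat_lit 12) (.e (nat_lit 475198) (nat_lit 40) (.e (nat_lit 704599) (nat_lit 6) .nil)))) (.g (nat_lit 0) (.e (nat_lit 283516) (nat_lit 0) .nil) .nil))))) (.nd (nat_lit 8) (.nd (nat_lit 9) 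
(.lf (nat_lit 545987) (.g (nat_lit 2520) (.e (nat_lit 114719) (nat_lit 23) (.e (nat_lit 98387) (nat_lit 33) (.e (nat_lit 491570) (nat_lit 13) (.e (nat_lit 393238) (nat_lit 17) (.e (nat_lit 3562) (nat_lit 221) (.e (nat_lit 729117) (nat_lit 25) .nil)))))) (.g (nat_lit 1) (.e (nat_lit 280643) (nat_lit 0) .nil) .nil))) 
(.lf (nat_lit 546499) (.g (nat_lit 1092) (.e (nat_lit 139280) (nat_lit 4) (.e (nat_lit 65610) (nat_lit 10) (.e (nat_lit 344183) (nat_lit 49) (.e (nat_lit 819221) (nat_lit 6) (.e (nat_lit 196352) (nat_lit 7) .nil))))) (.g (nat_lit 1) (.e (nat_lit 282944) (nat_lit 0) .nil) .nil)))) (.nd (nat_lit 9) 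
(.lf (nat_lit 546243) (.g (nat_lit 2530) (.e (nat_lit 131096) (nat_lit 3) (.e (nat_lit 98333) (nat_lit 18) (.e (nat_lit 164182) (nat_lit 154) (.e (nat_lit 57378) (nat_lit 3) (.e (nat_lit 98340) (nat_lit 20) .nil))))) (.g (nat_lit 0) (.e (nat_lit 281764) (nat_lit 0) .nil) .nil))) 
(.lf (nat_lit 546755) (.g (nat_lit 853) (.e (nat_lit 278567) (nat_lit 16) (.e (nat_lit 286733) (nat_lit 2) (.e (nat_lit 90178) (nat_lit 15) .nil))) (.g (nat_lit 0) (.e (nat_lit 283948) (nat_lit 0) .nil) .nil))))))) (.nd (nat_lit 6) (.nd (nat_lit 7) (.nd (nat_lit 8) (.nd (nat_lit 9) 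
(.lf (nat_lit 545827) (.g (nat_lit 5218) (.e (nat_lit 114719) (nat_lit 23) (.e (nat_lit 98354) (nat_lit 26) (.e (nat_lit 426436) (nat_lit 18) (.e (nat_lit 98335) (nat_lit 18) (.e (nat_lit 164327) (nat_lit 230) (.e (nat_lit 163875) (nat_lit 3) (.e (nat_lit 204837) (nat_lit 20) .nil))))))) (.g (nat_lit 1) (.e (nat_lit 280381) (nat_lit 0) .nil) .nil))) 
(.lf (nat_lit 546339) (.g (nat_lit 3926) (.e (nat_lit 131109) (nat_lit 9) (.e (nat_lit 336019) (nat_lit 3) (.e (nat_lit 98349) (nat_lit 24) (.e (nat_lit 409645) (nat_lit 18) (.e (nat_lit 303117) (nat_lit 2) (.e (nat_lit 196681) (nat_lit 17) .nil)))))) (.g (nat_lit 1) (.e (nat_lit 282077) (nat_lit 0) .nil) .nil)))) (.nd (nat_lit 9) 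
(.lf (nat_lit 546083) (.g (nat_lit 3593) (.e (nat_lit 122936) (nat_lit 23) (.e (nat_lit 516131) (nat_lit 3) (.e (nat_lit 221219) (nat_lit 24) (.e (nat_lit 213013) (nat_lit 9) (.e (nat_lit 2610) (nat_lit 163) (.e (nat_lit 164347) (nat_lit 240) (.e (nat_lit 2638) (nat_lit 165) (.e (nat_lit 188160) (nat_lit 38) .nil)))))))) (.g (nat_lit 1) (.e (nat_lit 280809) (nat_lit 0) .nil) .nil))) 
(.lf (nat_lit 546595) (.g (nat_lit 1937) (.e (nat_lit 147496) (nat_lit 11) (.e (nat_lit 24608) (nat_lit 3) (.e (nat_lit 98372) (nat_lit 29) (.e (nat_lit 450586) (nat_lit 10) .nil)))) (.g (nat_lit 0) (.e (nat_lit 283254) (nat_lit 0) .nil) .nil))))) (.nd (nat_lit 8) (.nd (nat_lit 9) 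
(.lf (nat_lit 545955) (.g (nat_lit 2421) (.e (nat_lit 114719) (nat_lit 23) (.e (nat_lit 98384) (nat_lit 32) (.e (nat_lit 475177) (nat_lit 24) (.e (nat_lit 516120) (nat_lit 1) (.e (nat_lit 164330) (nat_lit 230) (.e (nat_lit 163874) (nat_lit 3) (.e (nat_lit 204836) (nat_lit 20) .nil))))))) (.g (nat_lit 1) (.e (nat_lit 280607) (nat_lit 0) .nil) .nil))) 
(.lf (nat_lit 546467) (.g (nat_lit 3224) (.e (nat_lit 131133) (nat_lit 15) (.e (nat_lit 3305) (nat_lit 202) (.e (nat_lit 573485) (nat_lit 13) (.e (nat_lit 65604) (nat_lit 9) (.e (nat_lit 336028) (nat_lit 3) (.e (nat_lit 98325) (nat_lit 17) (.e (nat_lit 7936) (nat_lit 409) .nil))))))) (.g (nat_lit 1) (.e (nat_lit 282528) (nat_lit 0) .nil) .nil)))) (.nd (nat_lit 9) 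
(.lf (nat_lit 546211) (.g (nat_lit 2529) (.e (nat_lit 123198) (nat_lit 266) (.e (nat_lit 57436) (nat_lit 17) (.e (nat_lit 376835) (nat_lit 0) (.e (nat_lit 3632) (nat_lit 227) (.e (nat_lit 778326) (nat_lit 6) (.e (nat_lit 81957) (nat_lit 24) .nil)))))) (.g (nat_lit 1) (.e (nat_lit 281335) (nat_lit 0) .nil) .nil))) 
(.lf (nat_lit 546723) (.g (nat_lit 1784) (.e (nat_lit 278562) (nat_lit 13) (.e (nat_lit 49188) (nat_lit 11) (.e (nat_lit 16466) (nat_lit 13) (.e (nat_lit 483377) (nat_lit 22) (.e (nat_lit 327714) (nat_lit 15) .nil))))) (.g (nat_lit 0) (.e (nat_lit 283909) (nat_lit 0) .nil) .nil)))))) (.nd (nat_lit 7) (.nd (nat_lit 8) (.nd (nat_lit 9) 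
(.lf (nat_lit 545891) (.g (nat_lit 3196) (.e (nat_lit 114719) (nat_lit 23) (.e (nat_lit 98366) (nat_lit 27) (.e (nat_lit 434231) (nat_lit 23) (.e (nat_lit 532502) (nat_lit 1) (.e (nat_lit 57692) (nat_lit 156) (.e (nat_lit 163875) (nat_lit 3) (.e (nat_lit 204836) (nat_lit 20) .nil))))))) (.g (nat_lit 1) (.e (nat_lit 280498) (nat_lit 0) .nil) .nil))) 
(.lf (nat_lit 546403) (.g (nat_lit 766) (.e (nat_lit 131121) (nat_lit 12) (.e (nat_lit 385074) (nat_lit 31) (.e (nat_lit 573493) (nat_lit 15) .nil))) (.g (nat_lit 0) (.e (nat_lit 282295) (nat_lit 0) .nil) .nil)))) (.nd (nat_lit 9) 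
(.lf (nat_lit 546147) (.g (nat_lit 820) (.e (nat_lit 123175) (nat_lit 258) (.e (nat_lit 24665) (nat_lit 14) (.e (nat_lit 401440) (nat_lit 9) .nil))) (.g (nat_lit 0) (.e (nat_lit 281233) (nat_lit 0) .nil) .nil))) 
(.lf (nat_lit 546659) (.g (nat_lit 1063) (.e (nat_lit 163584) (nat_lit 6) (.e (nat_lit 188441) (nat_lit 20) (.e (nat_lit 3409) (nat_lit 212) (.e (nat_lit 655380) (nat_lit 6) (.e (nat_lit 196352) (nat_lit 8) .nil))))) (.g (nat_lit 0) (.e (nat_lit 283708) (nat_lit 0) .nil) .nil))))) (.nd (nat_lit 8) (.nd (nat_lit 9) 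
(.lf (nat_lit 546019) (.g (nat_lit 1110) (.e (nat_lit 122904) (nat_lit 12) (.e (nat_lit 336454) (nat_lit 34) (.e (nat_lit 483399) (nat_lit 25) (.e (nat_lit 368676) (nat_lit 21) .nil)))) (.g (nat_lit 0) (.e (nat_lit 280707) (nat_lit 0) .nil) .nil))) 
(.lf (nat_lit 546531) (.g (nat_lit 1206) (.e (nat_lit 147494) (nat_lit 11) (.e (nat_lit 24607) (nat_lit 3) (.e (nat_lit 98373) (nat_lit 29) (.e (nat_lit 450588) (nat_lit 10) .nil)))) (.g (nat_lit 0) (.e (nat_lit 283166) (nat_lit 0) .nil) .nil)))) (.nd (nat_lit 9) 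
(.lf (nat_lit 546275) (.g (nat_lit 2578) (.e (nat_lit 131098) (nat_lit 3) (.e (nat_lit 98335) (nat_lit 18) (.e (nat_lit 164179) (nat_lit 154) (.e (nat_lit 57379) (nat_lit 3) (.e (nat_lit 98342) (nat_lit 20) .nil))))) (.g (nat_lit 0) (.e (nat_lit 281873) (nat_lit 0) .nil) .nil))) 
(.lf (nat_lit 546787) (.g (nat_lit 409) (.e (nat_lit 278547) (nat_lit 8) (.e (nat_lit 303138) (nat_lit 10) (.e (nat_lit 434266) (nat_lit 35) (.e (nat_lit 630821) (nat_lit 16) (.e (nat_lit 65585) (nat_lit 7) .nil))))) (.g (nat_lit 0) (.e (nat_lit 284040) (nat_lit 0) .nil) .nil)))))))) (.nd (nat_lit 5) (.nd (nat_lit 6) (.nd (nat_lit 7) (.nd (nat_lit 8) (.nd (nat_lit 9) 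
(.lf (nat_lit 545811) (.g (nat_lit 2367) (.e (nat_lit 114719) (nat_lit 23) (.e (nat_lit 98335) (nat_lit 18) (.e (nat_lit 164330) (nat_lit 230) (.e (nat_lit 163869) (nat_lit 2) (.e (nat_lit 196654) (nat_lit 11) .nil))))) (.g (nat_lit 0) (.e (nat_lit 280358) (nat_lit 0) .nil) .nil))) 
(.lf (nat_lit 546323) (.g (nat_lit 1449) (.e (nat_lit 131107) (nat_lit 9) (.e (nat_lit 336324) (nat_lit 18) (.e (nat_lit 204837) (nat_lit 20) (.e (nat_lit 122624) (nat_lit 15) .nil)))) (.g (nat_lit 0) (.e (nat_lit 282011) (nat_lit 0) .nil) .nil)))) (.nd (nat_lit 9) 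
(.lf (nat_lit 546067) (.g (nat_lit 2071) (.e (nat_lit 122936) (nat_lit 23) (.e (nat_lit 516115) (nat_lit 1) (.e (nat_lit 164325) (nat_lit 230) (.e (nat_lit 163926) (nat_lit 16) .nil)))) (.g (nat_lit 0) (.e (nat_lit 280786) (nat_lit 0) .nil) .nil))) 
(.lf (nat_lit 546579) (.g (nat_lit 698) (.e (nat_lit 147495) (nat_lit 11) (.e (nat_lit 24665) (nat_lit 14) (.e (nat_lit 409344) (nat_lit 25) .nil))) (.g (nat_lit 0) (.e (nat_lit 283234) (nat_lit 0) .nil) .nil))))) (.nd (nat_lit 8) (.nd (nat_lit 9) 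
(.lf (nat_lit 545939) (.g (nat_lit 3644) (.e (nat_lit 114719) (nat_lit 23) (.e (nat_lit 98367) (nat_lit 27) (.e (nat_lit 434234) (nat_lit 23) (.e (nat_lit 532499) (nat_lit 1) (.e (nat_lit 57688) (nat_lit 156) (.e (nat_lit 163875) (nat_lit 3) (.e (nat_lit 204837) (nat_lit 20) .nil))))))) (.g (nat_lit 1) (.e (nat_lit 280585) (nat_lit 0) .nil) .nil))) 
(.lf (nat_lit 546451) (.g (nat_lit 2677) (.e (nat_lit 131128) (nat_lit 13) (.e (nat_lit 393229) (nat_lit 9) (.e (nat_lit 335987) (nat_lit 1) (.e (nat_lit 57927) (nat_lit 282) (.e (nat_lit 163869) (nat_lit 2) (.e (nat_lit 196681) (nat_lit 17) .nil)))))) (.g (nat_lit 1) (.e (nat_lit 282461) (nat_lit 0) .nil) .nil)))) (.nd (nat_lit 9) 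
(.lf (nat_lit 546195) (.g (nat_lit 732) (.e (nat_lit 123197) (nat_lit 266) (.e (nat_lit 57406) (nat_lit 12) (.e (nat_lit 336236) (nat_lit 14) .nil))) (.g (nat_lit 0) (.e (nat_lit 281314) (nat_lit 0) .nil) .nil))) 
(.lf (nat_lit 546707) (.g (nat_lit 2835) (.e (nat_lit 270354) (nat_lit 8) (.e (nat_lit 303117) (nat_lit 2) (.e (nat_lit 196666) (nat_lit 13) (.e (nat_lit 65598) (nat_lit 9) .nil)))) (.g (nat_lit 0) (.e (nat_lit 283845) (nat_lit 0) .nil) .nil)))))) (.nd (nat_lit 7) (.nd (nat_lit 8) (.nd (nat_lit 9) 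
(.lf (nat_lit 545875) (.g (nat_lit 2932) (.e (nat_lit 114719) (nat_lit 23) (.e (nat_lit 98366) (nat_lit 27) (.e (nat_lit 434231) (nat_lit 23) (.e (nat_lit 532500) (nat_lit 1) (.e (nat_lit 57685) (nat_lit 156) (.e (nat_lit 163875) (nat_lit 3) (.e (nat_lit 204836) (nat_lit 20) .nil))))))) (.g (nat_lit 1) (.e (nat_lit 280479) (nat_lit 0) .nil) .nil))) 
(.lf (nat_lit 546387) (.g (nat_lit 590) (.e (nat_lit 131120) (nat_lit 12) (.e (nat_lit 385068) (nat_lit 26) (.e (nat_lit 532484) (nat_lit 0) .nil))) (.g (nat_lit 0) (.e (nat_lit 282248) (nat_lit 0) .nil) .nil)))) (.nd (nat_lit 9) 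
(.lf (nat_lit 546131) (.g (nat_lit 696) (.e (nat_lit 130816) (nat_lit 206) (.e (nat_lit 180252) (nat_lit 10) (.e (nat_lit 573469) (nat_lit 11) .nil))) (.g (nat_lit 0) (.e (nat_lit 281134) (nat_lit 0) .nil) .nil))) 
(.lf (nat_lit 546643) (.g (nat_lit 940) (.e (nat_lit 163584) (nat_lit 6) (.e (nat_lit 188420) (nat_lit 0) (.e (nat_lit 2058) (nat_lit 142) (.e (nat_lit 704599) (nat_lit 6) (.e (nat_lit 196352) (nat_lit 8) .nil))))) (.g (nat_lit 0) (.e (nat_lit 283671) (nat_lit 0) .nil) .nil))))) (.nd (nat_lit 8) (.nd (nat_lit 9) 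
(.lf (nat_lit 546003) (.g (nat_lit 3776) (.e (nat_lit 122889) (nat_lit 1) (.e (nat_lit 57854) (nat_lit 252) (.e (nat_lit 57406) (nat_lit 12) (.e (nat_lit 336316) (nat_lit 17) (.e (nat_lit 196666) (nat_lit 13) (.e (nat_lit 65617) (nat_lit 10) (.e (nat_lit 344091) (nat_lit 18) (.e (nat_lit 7702) (nat_lit 413) .nil)))))))) (.g (nat_lit 1) (.e (nat_lit 280689) (nat_lit 0) .nil) .nil))) 
(.lf (nat_lit 546515) (.g (nat_lit 756) (.e (nat_lit 139289) (nat_lit 9) (.e (nat_lit 2829) (nat_lit 182) (.e (nat_lit 409645) (nat_lit 18) (.e (nat_lit 303117) (nat_lit 2) .nil)))) (.g (nat_lit 0) (.e (nat_lit 283037) (nat_lit 0) .nil) .nil)))) (.nd (nat_lit 9) 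
(.lf (nat_lit 546259) (.g (nat_lit 2260) (.e (nat_lit 131096) (nat_lit 3) (.e (nat_lit 98335) (nat_lit 18) (.e (nat_lit 164183) (nat_lit 154) (.e (nat_lit 57378) (nat_lit 3) (.e (nat_lit 98342) (nat_lit 20) .nil))))) (.g (nat_lit 0) (.e (nat_lit 281804) (nat_lit 0) .nil) .nil))) 
(.lf (nat_lit 546771) (.g (nat_lit 888) (.e (nat_lit 278567) (nat_lit 16) (.e (nat_lit 286754) (nat_lit 10) (.e (nat_lit 344157) (nat_lit 36) (.e (nat_lit 638999) (nat_lit 8) (.e (nat_lit 172081) (nat_lit 7) (.e (nat_lit 409639) (nat_lit 15) .nil)))))) (.g (nat_lit 1) (.e (nat_lit 283982) (nat_lit 0) .nil) .nil))))))) (.nd (nat_lit 6) (.nd (nat_lit 7) (.nd (nat_lit 8) (.nd (nat_lit 9) 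
(.lf (nat_lit 545843) (.g (nat_lit 3110) (.e (nat_lit 114719) (nat_lit 23) (.e (nat_lit 98356) (nat_lit 26) (.e (nat_lit 426438) (nat_lit 18) (.e (nat_lit 98335) (nat_lit 18) (.e (nat_lit 164330) (nat_lit 230) (.e (nat_lit 163874) (nat_lit 3) (.e (nat_lit 204836) (nat_lit 20) .nil))))))) (.g (nat_lit 1) (.e (nat_lit 280398) (nat_lit 0) .nil) .nil))) 
(.lf (nat_lit 546355) (.g (nat_lit 3446) (.e (nat_lit 131109) (nat_lit 9) (.e (nat_lit 336019) (nat_lit 3) (.e (nat_lit 98350) (nat_lit 24) (.e (nat_lit 409649) (nat_lit 18) (.e (nat_lit 303116) (nat_lit 2) (.e (nat_lit 196680) (nat_lit 17) .nil)))))) (.g (nat_lit 1) (.e (nat_lit 282106) (nat_lit 0) .nil) .nil)))) (.nd (nat_lit 9) 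
(.lf (nat_lit 546099) (.g (nat_lit 3296) (.e (nat_lit 122937) (nat_lit 23) (.e (nat_lit 516120) (nat_lit 1) (.e (nat_lit 164403) (nat_lit 256) (.e (nat_lit 57373) (nat_lit 2) (.e (nat_lit 90174) (nat_lit 14) .nil))))) (.g (nat_lit 0) (.e (nat_lit 280837) (nat_lit 0) .nil) .nil))) 
(.lf (nat_lit 546611) (.g (nat_lit 521) (.e (nat_lit 155650) (nat_lit 0) (.e (nat_lit 3003) (nat_lit 186) (.e (nat_lit 442371) (nat_lit 0) (.e (nat_lit 2148) (nat_lit 142) (.e (nat_lit 704597) (nat_lit 6) (.e (nat_lit 196352) (nat_lit 8) .nil)))))) (.g (nat_lit 1) (.e (nat_lit 283352) (nat_lit 0) .nil) .nil))))) (.nd (nat_lit 8) (.nd (nat_lit 9) 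
(.lf (nat_lit 545971) (.g (nat_lit 3379) (.e (nat_lit 114719) (nat_lit 23) (.e (nat_lit 98384) (nat_lit 32) (.e (nat_lit 475179) (nat_lit 24) (.e (nat_lit 516120) (nat_lit 1) (.e (nat_lit 164305) (nat_lit 226) (.e (nat_lit 2612) (nat_lit 163) (.e (nat_lit 163964) (nat_lit 25) (.e (nat_lit 532513) (nat_lit 3) .nil)))))))) (.g (nat_lit 1) (.e (nat_lit 280627) (nat_lit 0) .nil) .nil))) 
(.lf (nat_lit 546483) (.g (nat_lit 1881) (.e (nat_lit 131140) (nat_lit 27) (.e (nat_lit 426308) (nat_lit 12) (.e (nat_lit 475198) (nat_lit 40) (.e (nat_lit 704596) (nat_lit 5) (.e (nat_lit 188160) (nat_lit 39) .nil))))) (.g (nat_lit 1) (.e (nat_lit 282696) (nat_lit 0) .nil) .nil)))) (.nd (nat_lit 9) 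
(.lf (nat_lit 546227) (.g (nat_lit 1681) (.e (nat_lit 131089) (nat_lit 1) (.e (nat_lit 57852) (nat_lit 252) (.e (nat_lit 57378) (nat_lit 3) (.e (nat_lit 98333) (nat_lit 18) .nil)))) (.g (nat_lit 0) (.e (nat_lit 281622) (nat_lit 0) .nil) .nil))) 
(.lf (nat_lit 546739) (.g (nat_lit 1385) (.e (nat_lit 278566) (nat_lit 16) (.e (nat_lit 286753) (nat_lit 10) (.e (nat_lit 344157) (nat_lit 36) (.e (nat_lit 638999) (nat_lit 8) (.e (nat_lit 172082) (nat_lit 7) (.e (nat_lit 409639) (nat_lit 15) .nil)))))) (.g (nat_lit 1) (.e (nat_lit 283931) (nat_lit 0) .nil) .nil)))))) (.nd (nat_lit 7) (.nd (nat_lit 8) (.nd (nat_lit 9) 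
(.lf (nat_lit 545907) (.g (nat_lit 2816) (.e (nat_lit 114719) (nat_lit 23) (.e (nat_lit 98367) (nat_lit 27) (.e (nat_lit 434231) (nat_lit 23) (.e (nat_lit 532499) (nat_lit 1) (.e (nat_lit 57691) (nat_lit 156) (.e (nat_lit 163874) (nat_lit 3) (.e (nat_lit 204836) (nat_lit 20) .nil))))))) (.g (nat_lit 1) (.e (nat_lit 280537) (nat_lit 0) .nil) .nil))) 
(.lf (nat_lit 546419) (.g (nat_lit 2446) (.e (nat_lit 131123) (nat_lit 12) (.e (nat_lit 385068) (nat_lit 26) (.e (nat_lit 532515) (nat_lit 3) (.e (nat_lit 114697) (nat_lit 11) (.e (nat_lit 426116) (nat_lit 2) (.e (nat_lit 196681) (nat_lit 17) .nil)))))) (.g (nat_lit 1) (.e (nat_lit 282349) (nat_lit 0) .nil) .nil)))) (.nd (nat_lit 9) 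
(.lf (nat_lit 546163) (.g (nat_lit 498) (.e (nat_lit 123183) (nat_lit 264) (.e (nat_lit 1212) (nat_lit 89) (.e (nat_lit 81664) (nat_lit 32) .nil))) (.g (nat_lit 0) (.e (nat_lit 281253) (nat_lit 0) .nil) .nil))) 
(.lf (nat_lit 546675) (.g (nat_lit 1955) (.e (nat_lit 270373) (nat_lit 16) (.e (nat_lit 286735) (nat_lit 3) (.e (nat_lit 98372) (nat_lit 29) (.e (nat_lit 450570) (nat_lit 1) .nil)))) (.g (nat_lit 0) (.e (nat_lit 283789) (nat_lit 0) .nil) .nil))))) (.nd (nat_lit 8) (.nd (nat_lit 9) 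
(.lf (nat_lit 546035) (.g (nat_lit 1989) (.e (nat_lit 122913) (nat_lit 13) (.e (nat_lit 344068) (nat_lit 0) (.e (nat_lit 3066) (nat_lit 190) (.e (nat_lit 475214) (nat_lit 42) (.e (nat_lit 720956) (nat_lit 25) (.e (nat_lit 114712) (nat_lit 21) (.e (nat_lit 57680) (nat_lit 155) .nil))))))) (.g (nat_lit 1) (.e (nat_lit 280725) (nat_lit 0) .nil) .nil))) 
(.lf (nat_lit 546547) (.g (nat_lit 3792) (.e (nat_lit 147495) (nat_lit 11) (.e (nat_lit 24604) (nat_lit 2) (.e (nat_lit 90170) (nat_lit 13) (.e (nat_lit 172106) (nat_lit 10) (.e (nat_lit 434244) (nat_lit 28) (.e (nat_lit 573451) (nat_lit 9) (.e (nat_lit 7936) (nat_lit 98) .nil))))))) (.g (nat_lit 1) (.e (nat_lit 283191) (nat_lit 0) .nil) .nil)))) (.nd (nat_lit 9) 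
(.lf (nat_lit 546291) (.g (nat_lit 2647) (.e (nat_lit 131105) (nat_lit 9) (.e (nat_lit 336324) (nat_lit 18) (.e (nat_lit 204837) (nat_lit 20) (.e (nat_lit 114697) (nat_lit 11) (.e (nat_lit 426121) (nat_lit 2) (.e (nat_lit 196681) (nat_lit 17) .nil)))))) (.g (nat_lit 1) (.e (nat_lit 281932) (nat_lit 0) .nil) .nil))) 
(.lf (nat_lit 546803) (.g (nat_lit 3879) (.e (nat_lit 303104) (nat_lit 0) (.e (nat_lit 3238) (nat_lit 197) (.e (nat_lit 532535) (nat_lit 9) (.e (nat_lit 336173) (nat_lit 10) (.e (nat_lit 344119) (nat_lit 21) .nil))))) (.g (nat_lit 0) (.e (nat_lit 284079) (nat_lit 0) .nil) .nil))))))))) (.nd (nat_lit 4) (.nd (nat_lit 5) (.nd (nat_lit 6) (.nd (nat_lit 7) (.nd (nat_lit 8) (.nd (nat_lit 9) 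
(.lf (nat_lit 545803) (.g (nat_lit 2679) (.e (nat_lit 114719) (nat_lit 23) (.e (nat_lit 98334) (nat_lit 18) (.e (nat_lit 164398) (nat_lit 256) (.e (nat_lit 57378) (nat_lit 3) (.e (nat_lit 98368) (nat_lit 27) .nil))))) (.g (nat_lit 0) (.e (nat_lit 280346) (nat_lit 0) .nil) .nil))) 
(.lf (nat_lit 546315) (.g (nat_lit 2196) (.e (nat_lit 131105) (nat_lit 9) (.e (nat_lit 336454) (nat_lit 34) (.e (nat_lit 483366) (nat_lit 18) (.e (nat_lit 57929) (nat_lit 282) (.e (nat_lit 163866) (nat_lit 2) (.e (nat_lit 196681) (nat_lit 17) .nil)))))) (.g (nat_lit 1) (.e (nat_lit 281990) (nat_lit 0) .nil) .nil)))) (.nd (nat_lit 9) 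
(.lf (nat_lit 546059) (.g (nat_lit 1552) (.e (nat_lit 122922) (nat_lit 18) (.e (nat_lit 385068) (nat_lit 26) (.e (nat_lit 532560) (nat_lit 14) (.e (nat_lit 376842) (nat_lit 11) .nil)))) (.g (nat_lit 0) (.e (nat_lit 280763) (nat_lit 0) .nil) .nil))) 
(.lf (nat_lit 546571) (.g (nat_lit 3656) (.e (nat_lit 147495) (nat_lit 11) (.e (nat_lit 24658) (nat_lit 13) (.e (nat_lit 393301) (nat_lit 27) (.e (nat_lit 491546) (nat_lit 9) (.e (nat_lit 336048) (nat_lit 6) .nil))))) (.g (nat_lit 1) (.e (nat_lit 283226) (nat_lit 0) .nil) .nil))))) (.nd (nat_lit 8) (.nd (nat_lit 9) 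
(.lf (nat_lit 545931) (.g (nat_lit 2124) (.e (nat_lit 114719) (nat_lit 23) (.e (nat_lit 98367) (nat_lit 27) (.e (nat_lit 434232) (nat_lit 23) (.e (nat_lit 532501) (nat_lit 1) (.e (nat_lit 57690) (nat_lit 156) .nil))))) (.g (nat_lit 0) (.e (nat_lit 280577) (nat_lit 0) .nil) .nil))) 
(.lf (nat_lit 546443) (.g (nat_lit 1722) (.e (nat_lit 131127) (nat_lit 13) (.e (nat_lit 393229) (nat_lit 9) (.e (nat_lit 335994) (nat_lit 1) (.e (nat_lit 57931) (nat_lit 282) .nil)))) (.g (nat_lit 0) (.e (nat_lit 282430) (nat_lit 0) .nil) .nil)))) (.nd (nat_lit 9) 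
(.lf (nat_lit 546187) (.g (nat_lit 2363) (.e (nat_lit 123195) (nat_lit 266) (.e (nat_lit 57400) (nat_lit 10) (.e (nat_lit 319490) (nat_lit 0) (.e (nat_lit 5664) (nat_lit 312) (.e (nat_lit 3085) (nat_lit 191) (.e (nat_lit 483387) (nat_lit 23) (.e (nat_lit 336030) (nat_lit 4) .nil))))))) (.g (nat_lit 1) (.e (nat_lit 281296) (nat_lit 0) .nil) .nil))) 
(.lf (nat_lit 546699) (.g (nat_lit 1762) (.e (nat_lit 270373) (nat_lit 16) (.e (nat_lit 286761) (nat_lit 13) (.e (nat_lit 393293) (nat_lit 26) (.e (nat_lit 475218) (nat_lit 44) (.e (nat_lit 737296) (nat_lit 5) .nil))))) (.g (nat_lit 1) (.e (nat_lit 283821) (nat_lit 0) .nil) .nil)))))) (.nd (nat_lit 7) (.nd (nat_lit 8) (.nd (nat_lit 9) 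
(.lf (nat_lit 545867) (.g (nat_lit 1503) (.e (nat_lit 114719) (nat_lit 23) (.e (nat_lit 98366) (nat_lit 27) (.e (nat_lit 434231) (nat_lit 23) (.e (nat_lit 532499) (nat_lit 1) (.e (nat_lit 57688) (nat_lit 156) .nil))))) (.g (nat_lit 0) (.e (nat_lit 280459) (nat_lit 0) .nil) .nil))) 
(.lf (nat_lit 546379) (.g (nat_lit 842) (.e (nat_lit 131117) (nat_lit 10) (.e (nat_lit 344117) (nat_lit 21) (.e (nat_lit 516139) (nat_lit 7) .nil))) (.g (nat_lit 0) (.e (nat_lit 282228) (nat_lit 0) .nil) .nil)))) (.nd (nat_lit 9) 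
(.lf (nat_lit 546123) (.g (nat_lit 1194) (.e (nat_lit 123025) (nat_lit 127) (.e (nat_lit 229415) (nat_lit 15) (.e (nat_lit 450563) (nat_lit 0) (.e (nat_lit 6828) (nat_lit 367) .nil)))) (.g (nat_lit 0) (.e (nat_lit 280978) (nat_lit 0) .nil) .nil))) 
(.lf (nat_lit 546635) (.g (nat_lit 423) (.e (nat_lit 163584) (nat_lit 6) (.e (nat_lit 188417) (nat_lit 0) (.e (nat_lit 2147) (nat_lit 142) (.e (nat_lit 704597) (nat_lit 6) (.e (nat_lit 196352) (nat_lit 8) .nil))))) (.g (nat_lit 0) (.e (nat_lit 283663) (nat_lit 0) .nil) .nil))))) (.nd (nat_lit 8) (.nd (nat_lit 9) 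
(.lf (nat_lit 545995) (.g (nat_lit 2202) (.e (nat_lit 114722) (nat_lit 24) (.e (nat_lit 106536) (nat_lit 11) (.e (nat_lit 16392) (nat_lit 0) (.e (nat_lit 6989) (nat_lit 377) .nil)))) (.g (nat_lit 0) (.e (nat_lit 280660) (nat_lit 0) .nil) .nil))) 
(.lf (nat_lit 546507) (.g (nat_lit 3066) (.e (nat_lit 139285) (nat_lit 9) (.e (nat_lit 2830) (nat_lit 182) (.e (nat_lit 409646) (nat_lit 18) (.e (nat_lit 303117) (nat_lit 2) (.e (nat_lit 196673) (nat_lit 15) .nil))))) (.g (nat_lit 0) (.e (nat_lit 283000) (nat_lit 0) .nil) .nil)))) (.nd (nat_lit 9) 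
(.lf (nat_lit 546251) (.g (nat_lit 2727) (.e (nat_lit 131096) (nat_lit 3) (.e (nat_lit 98335) (nat_lit 18) (.e (nat_lit 164179) (nat_lit 154) (.e (nat_lit 57378) (nat_lit 3) (.e (nat_lit 98342) (nat_lit 20) (.e (nat_lit 221212) (nat_lit 22) (.e (nat_lit 196681) (nat_lit 17) .nil))))))) (.g (nat_lit 1) (.e (nat_lit 281792) (nat_lit 0) .nil) .nil))) 
(.lf (nat_lit 546763) (.g (nat_lit 1984) (.e (nat_lit 278567) (nat_lit 16) (.e (nat_lit 286734) (nat_lit 3) (.e (nat_lit 98373) (nat_lit 29) (.e (nat_lit 450576) (nat_lit 2) .nil)))) (.g (nat_lit 0) (.e (nat_lit 283956) (nat_lit 0) .nil) .nil))))))) (.nd (nat_lit 6) (.nd (nat_lit 7) (.nd (nat_lit 8) (.nd (nat_lit 9) 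
(.lf (nat_lit 545835) (.g (nat_lit 3103) (.e (nat_lit 114719) (nat_lit 23) (.e (nat_lit 98356) (nat_lit 26) (.e (nat_lit 426436) (nat_lit 18) (.e (nat_lit 98335) (nat_lit 18) (.e (nat_lit 164332) (nat_lit 230) .nil))))) (.g (nat_lit 0) (.e (nat_lit 280390) (nat_lit 0) .nil) .nil))) 
(.lf (nat_lit 546347) (.g (nat_lit 2426) (.e (nat_lit 131109) (nat_lit 9) (.e (nat_lit 336019) (nat_lit 3) (.e (nat_lit 98350) (nat_lit 24) (.e (nat_lit 409648) (nat_lit 18) (.e (nat_lit 303108) (nat_lit 0) (.e (nat_lit 3143) (nat_lit 193) (.e (nat_lit 500089) (nat_lit 22) .nil))))))) (.g (nat_lit 1) (.e (nat_lit 282098) (nat_lit 0) .nil) .nil)))) (.nd (nat_lit 9) 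
(.lf (nat_lit 546091) (.g (nat_lit 3954) (.e (nat_lit 122936) (nat_lit 23) (.e (nat_lit 516166) (nat_lit 12) (.e (nat_lit 450587) (nat_lit 10) (.e (nat_lit 573456) (nat_lit 9) .nil)))) (.g (nat_lit 0) (.e (nat_lit 280824) (nat_lit 0) .nil) .nil))) 
(.lf (nat_lit 546603) (.g (nat_lit 802) (.e (nat_lit 147512) (nat_lit 14) (.e (nat_lit 2808) (nat_lit 180) (.e (nat_lit 303140) (nat_lit 10) (.e (nat_lit 434241) (nat_lit 27) .nil)))) (.g (nat_lit 0) (.e (nat_lit 283300) (nat_lit 0) .nil) .nil))))) (.nd (nat_lit 8) (.nd (nat_lit 9) 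
(.lf (nat_lit 545963) (.g (nat_lit 2697) (.e (nat_lit 114719) (nat_lit 23) (.e (nat_lit 98384) (nat_lit 32) (.e (nat_lit 475179) (nat_lit 24) (.e (nat_lit 516117) (nat_lit 1) (.e (nat_lit 164305) (nat_lit 226) .nil))))) (.g (nat_lit 0) (.e (nat_lit 280615) (nat_lit 0) .nil) .nil))) 
(.lf (nat_lit 546475) (.g (nat_lit 1781) (.e (nat_lit 131139) (nat_lit 27) (.e (nat_lit 426316) (nat_lit 12) (.e (nat_lit 475211) (nat_lit 41) (.e (nat_lit 712749) (nat_lit 28) .nil)))) (.g (nat_lit 0) (.e (nat_lit 282651) (nat_lit 0) .nil) .nil)))) (.nd (nat_lit 9) 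
(.lf (nat_lit 546219) (.g (nat_lit 540) (.e (nat_lit 123114) (nat_lit 215) (.e (nat_lit 2619) (nat_lit 164) (.e (nat_lit 172144) (nat_lit 26) .nil))) (.g (nat_lit 0) (.e (nat_lit 281561) (nat_lit 0) .nil) .nil))) 
(.lf (nat_lit 546731) (.g (nat_lit 529) (.e (nat_lit 278566) (nat_lit 16) (.e (nat_lit 286740) (nat_lit 7) (.e (nat_lit 319526) (nat_lit 15) (.e (nat_lit 278546) (nat_lit 8) (.e (nat_lit 303124) (nat_lit 7) (.e (nat_lit 409639) (nat_lit 15) .nil)))))) (.g (nat_lit 1) (.e (nat_lit 283919) (nat_lit 0) .nil) .nil)))))) (.nd (nat_lit 7) (.nd (nat_lit 8) (.nd (nat_lit 9) 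
(.lf (nat_lit 545899) (.g (nat_lit 452) (.e (nat_lit 114719) (nat_lit 23) (.e (nat_lit 98367) (nat_lit 27) (.e (nat_lit 434231) (nat_lit 23) .nil))) (.g (nat_lit 0) (.e (nat_lit 280510) (nat_lit 0) .nil) .nil))) 
(.lf (nat_lit 546411) (.g (nat_lit 3087) (.e (nat_lit 131123) (nat_lit 12) (.e (nat_lit 385066) (nat_lit 26) (.e (nat_lit 532513) (nat_lit 3) (.e (nat_lit 114698) (nat_lit 11) (.e (nat_lit 426123) (nat_lit 2) (.e (nat_lit 196681) (nat_lit 17) .nil)))))) (.g (nat_lit 1) (.e (nat_lit 282337) (nat_lit 0) .nil) .nil)))) (.nd (nat_lit 9) 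
(.lf (nat_lit 546155) (.g (nat_lit 2088) (.e (nat_lit 123182) (nat_lit 264) (.e (nat_lit 1183) (nat_lit 87) (.e (nat_lit 57480) (nat_lit 28) (.e (nat_lit 557098) (nat_lit 13) (.e (nat_lit 172115) (nat_lit 10) .nil))))) (.g (nat_lit 0) (.e (nat_lit 281245) (nat_lit 0) .nil) .nil))) 
(.lf (nat_lit 546667) (.g (nat_lit 2601) (.e (nat_lit 270373) (nat_lit 16) (.e (nat_lit 286734) (nat_lit 3) (.e (nat_lit 98359) (nat_lit 26) (.e (nat_lit 426211) (nat_lit 9) (.e (nat_lit 426125) (nat_lit 2) (.e (nat_lit 204544) (nat_lit 18) (.e (nat_lit 2758) (nat_lit 176) .nil))))))) (.g (nat_lit 1) (.e (nat_lit 283779) (nat_lit 0) .nil) .nil))))) (.nd (nat_lit 8) (.nd (nat_lit 9) 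
(.lf (nat_lit 546027) (.g (nat_lit 2371) (.e (nat_lit 122906) (nat_lit 12) (.e (nat_lit 336001) (nat_lit 2) (.e (nat_lit 90170) (nat_lit 13) (.e (nat_lit 172113) (nat_lit 10) (.e (nat_lit 434248) (nat_lit 28) (.e (nat_lit 573475) (nat_lit 12) (.e (nat_lit 57356) (nat_lit 0) (.e (nat_lit 7270) (nat_lit 385) .nil)))))))) (.g (nat_lit 1) (.e (nat_lit 280715) (nat_lit 0) .nil) .nil))) 
(.lf (nat_lit 546539) (.g (nat_lit 4688) (.e (nat_lit 147494) (nat_lit 11) (.e (nat_lit 24665) (nat_lit 14) (.e (nat_lit 401451) (nat_lit 12) (.e (nat_lit 475214) (nat_lit 42) (.e (nat_lit 720955) (nat_lit 25) (.e (nat_lit 114727) (nat_lit 28) .nil)))))) (.g (nat_lit 1) (.e (nat_lit 283176) (nat_lit 0) .nil) .nil)))) (.nd (nat_lit 9) 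
(.lf (nat_lit 546283) (.g (nat_lit 3203) (.e (nat_lit 131104) (nat_lit 9) (.e (nat_lit 336454) (nat_lit 34) (.e (nat_lit 483365) (nat_lit 18) (.e (nat_lit 57929) (nat_lit 282) .nil)))) (.g (nat_lit 0) (.e (nat_lit 281903) (nat_lit 0) .nil) .nil))) 
(.lf (nat_lit 546795) (.g (nat_lit 4292) (.e (nat_lit 303104) (nat_lit 0) (.e (nat_lit 3238) (nat_lit 197) (.e (nat_lit 532535) (nat_lit 9) (.e (nat_lit 336099) (nat_lit 9) (.e (nat_lit 336008) (nat_lit 2) .nil))))) (.g (nat_lit 0) (.e (nat_lit 284070) (nat_lit 0) .nil) .nil)))))))) (.nd (nat_lit 5) (.nd (nat_lit 6) (.nd (nat_lit 7) (.nd (nat_lit 8) (.nd (nat_lit 9) 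
(.lf (nat_lit 545819) (.g (nat_lit 544) (.e (nat_lit 114719) (nat_lit 23) (.e (nat_lit 98350) (nat_lit 24) (.e (nat_lit 409617) (nat_lit 10) .nil))) (.g (nat_lit 0) (.e (nat_lit 280370) (nat_lit 0) .nil) .nil))) 
(.lf (nat_lit 546331) (.g (nat_lit 4063) (.e (nat_lit 131107) (nat_lit 9) (.e (nat_lit 336454) (nat_lit 34) (.e (nat_lit 483365) (nat_lit 18) (.e (nat_lit 57930) (nat_lit 282) .nil)))) (.g (nat_lit 0) (.e (nat_lit 282020) (nat_lit 0) .nil) .nil)))) (.nd (nat_lit 9) 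
(.lf (nat_lit 546075) (.g (nat_lit 2674) (.e (nat_lit 122936) (nat_lit 23) (.e (nat_lit 516117) (nat_lit 1) (.e (nat_lit 164398) (nat_lit 256) (.e (nat_lit 57378) (nat_lit 3) (.e (nat_lit 98366) (nat_lit 27) .nil))))) (.g (nat_lit 0) (.e (nat_lit 280798) (nat_lit 0) .nil) .nil))) 
(.lf (nat_lit 546587) (.g (nat_lit 4142) (.e (nat_lit 147496) (nat_lit 11) (.e (nat_lit 24604) (nat_lit 2) (.e (nat_lit 90170) (nat_lit 13) (.e (nat_lit 172106) (nat_lit 10) (.e (nat_lit 434244) (nat_lit 28) (.e (nat_lit 573451) (nat_lit 9) (.e (nat_lit 1314) (nat_lit 98) .nil))))))) (.g (nat_lit 1) (.e (nat_lit 283244) (nat_lit 0) .nil) .nil))))) (.nd (nat_lit 8) (.nd (nat_lit 9) 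
(.lf (nat_lit 545947) (.g (nat_lit 4401) (.e (nat_lit 114719) (nat_lit 23) (.e (nat_lit 98384) (nat_lit 32) (.e (nat_lit 475177) (nat_lit 24) (.e (nat_lit 516115) (nat_lit 1) (.e (nat_lit 164325) (nat_lit 230) (.e (nat_lit 163875) (nat_lit 3) (.e (nat_lit 204837) (nat_lit 20) .nil))))))) (.g (nat_lit 1) (.e (nat_lit 280599) (nat_lit 0) .nil) .nil))) 
(.lf (nat_lit 546459) (.g (nat_lit 3365) (.e (nat_lit 131133) (nat_lit 15) (.e (nat_lit 3304) (nat_lit 202) (.e (nat_lit 573482) (nat_lit 13) (.e (nat_lit 65619) (nat_lit 10) (.e (nat_lit 344117) (nat_lit 21) (.e (nat_lit 516106) (nat_lit 0) (.e (nat_lit 7936) (nat_lit 409) .nil))))))) (.g (nat_lit 1) (.e (nat_lit 282514) (nat_lit 0) .nil) .nil)))) (.nd (nat_lit 9) 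
(.lf (nat_lit 546203) (.g (nat_lit 1838) (.e (nat_lit 123198) (nat_lit 266) (.e (nat_lit 57400) (nat_lit 10) (.e (nat_lit 319490) (nat_lit 0) (.e (nat_lit 5664) (nat_lit 312) (.e (nat_lit 2852) (nat_lit 184) .nil))))) (.g (nat_lit 0) (.e (nat_lit 281325) (nat_lit 0) .nil) .nil))) 
(.lf (nat_lit 546715) (.g (nat_lit 2350) (.e (nat_lit 270354) (nat_lit 8) (.e (nat_lit 303119) (nat_lit 3) (.e (nat_lit 204869) (nat_lit 29) (.e (nat_lit 368384) (nat_lit 1) .nil)))) (.g (nat_lit 0) (.e (nat_lit 283853) (nat_lit 0) .nil) .nil)))))) (.nd (nat_lit 7) (.nd (nat_lit 8) (.nd (nat_lit 9) 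
(.lf (nat_lit 545883) (.g (nat_lit 4332) (.e (nat_lit 114719) (nat_lit 23) (.e (nat_lit 98366) (nat_lit 27) (.e (nat_lit 434231) (nat_lit 23) (.e (nat_lit 532500) (nat_lit 1) (.e (nat_lit 57692) (nat_lit 156) (.e (nat_lit 163874) (nat_lit 3) (.e (nat_lit 204836) (nat_lit 20) .nil))))))) (.g (nat_lit 1) (.e (nat_lit 280488) (nat_lit 0) .nil) .nil))) 
(.lf (nat_lit 546395) (.g (nat_lit 2647) (.e (nat_lit 131120) (nat_lit 12) (.e (nat_lit 385068) (nat_lit 26) (.e (nat_lit 532515) (nat_lit 3) (.e (nat_lit 114697) (nat_lit 11) (.e (nat_lit 426124) (nat_lit 2) (.e (nat_lit 196681) (nat_lit 17) .nil)))))) (.g (nat_lit 1) (.e (nat_lit 282263) (nat_lit 0) .nil) .nil)))) (.nd (nat_lit 9) 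
(.lf (nat_lit 546139) (.g (nat_lit 1029) (.e (nat_lit 123162) (nat_lit 256) (.e (nat_lit 2685) (nat_lit 168) (.e (nat_lit 204846) (nat_lit 24) (.e (nat_lit 319534) (nat_lit 16) .nil)))) (.g (nat_lit 0) (.e (nat_lit 281208) (nat_lit 0) .nil) .nil))) 
(.lf (nat_lit 546651) (.g (nat_lit 648) (.e (nat_lit 163584) (nat_lit 6) (.e (nat_lit 188439) (nat_lit 20) (.e (nat_lit 3406) (nat_lit 212) (.e (nat_lit 655380) (nat_lit 6) (.e (nat_lit 196352) (nat_lit 8) .nil))))) (.g (nat_lit 0) (.e (nat_lit 283696) (nat_lit 0) .nil) .nil))))) (.nd (nat_lit 8) (.nd (nat_lit 9) 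
(.lf (nat_lit 546011) (.g (nat_lit 1458) (.e (nat_lit 122903) (nat_lit 12) (.e (nat_lit 336367) (nat_lit 27) (.e (nat_lit 426546) (nat_lit 30) (.e (nat_lit 360466) (nat_lit 3) (.e (nat_lit 516117) (nat_lit 1) (.e (nat_lit 164184) (nat_lit 155) .nil)))))) (.g (nat_lit 1) (.e (nat_lit 280699) (nat_lit 0) .nil) .nil))) 
(.lf (nat_lit 546523) (.g (nat_lit 2710) (.e (nat_lit 139289) (nat_lit 9) (.e (nat_lit 3102) (nat_lit 192) (.e (nat_lit 491560) (nat_lit 10) (.e (nat_lit 344115) (nat_lit 20) (.e (nat_lit 507908) (nat_lit 0) (.e (nat_lit 5401) (nat_lit 302) (.e (nat_lit 65577) (nat_lit 5) .nil))))))) (.g (nat_lit 1) (.e (nat_lit 283061) (nat_lit 0) .nil) .nil)))) (.nd (nat_lit 9) 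
(.lf (nat_lit 546267) (.g (nat_lit 2140) (.e (nat_lit 131098) (nat_lit 3) (.e (nat_lit 98333) (nat_lit 18) (.e (nat_lit 164179) (nat_lit 154) (.e (nat_lit 57379) (nat_lit 3) (.e (nat_lit 98342) (nat_lit 20) .nil))))) (.g (nat_lit 0) (.e (nat_lit 281843) (nat_lit 0) .nil) .nil))) 
(.lf (nat_lit 546779) (.g (nat_lit 1273) (.e (nat_lit 278546) (nat_lit 8) (.e (nat_lit 303139) (nat_lit 10) (.e (nat_lit 434268) (nat_lit 36) (.e (nat_lit 639020) (nat_lit 16) (.e (nat_lit 65585) (nat_lit 7) (.e (nat_lit 319527) (nat_lit 15) .nil)))))) (.g (nat_lit 1) (.e (nat_lit 284025) (nat_lit 0) .nil) .nil))))))) (.nd (nat_lit 6) (.nd (nat_lit 7) (.nd (nat_lit 8) (.nd (nat_lit 9) 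
(.lf (nat_lit 545851) (.g (nat_lit 1330) (.e (nat_lit 114719) (nat_lit 23) (.e (nat_lit 98365) (nat_lit 26) (.e (nat_lit 426123) (nat_lit 2) (.e (nat_lit 196661) (nat_lit 12) .nil)))) (.g (nat_lit 0) (.e (nat_lit 280411) (nat_lit 0) .nil) .nil))) 
(.lf (nat_lit 546363) (.g (nat_lit 3422) (.e (nat_lit 131109) (nat_lit 9) (.e (nat_lit 336324) (nat_lit 18) (.e (nat_lit 204838) (nat_lit 20) (.e (nat_lit 114698) (nat_lit 11) (.e (nat_lit 426114) (nat_lit 2) (.e (nat_lit 196681) (nat_lit 17) .nil)))))) (.g (nat_lit 1) (.e (nat_lit 282159) (nat_lit 0) .nil) .nil)))) (.nd (nat_lit 9) 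
(.lf (nat_lit 546107) (.g (nat_lit 2320) (.e (nat_lit 122981) (nat_lit 55) (.e (nat_lit 778466) (nat_lit 11) (.e (nat_lit 24617) (nat_lit 7) (.e (nat_lit 319534) (nat_lit 16) (.e (nat_lit 286756) (nat_lit 10) .nil))))) (.g (nat_lit 0) (.e (nat_lit 280861) (nat_lit 0) .nil) .nil))) 
(.lf (nat_lit 546619) (.g (nat_lit 729) (.e (nat_lit 155654) (nat_lit 0) (.e (nat_lit 2856) (nat_lit 184) (.e (nat_lit 426320) (nat_lit 12) .nil))) (.g (nat_lit 0) (.e (nat_lit 283452) (nat_lit 0) .nil) .nil))))) (.nd (nat_lit 8) (.nd (nat_lit 9) 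
(.lf (nat_lit 545979) (.g (nat_lit 4571) (.e (nat_lit 114719) (nat_lit 23) (.e (nat_lit 98386) (nat_lit 32) (.e (nat_lit 475179) (nat_lit 24) (.e (nat_lit 516117) (nat_lit 1) (.e (nat_lit 164329) (nat_lit 230) (.e (nat_lit 163850) (nat_lit 0) (.e (nat_lit 3252) (nat_lit 197) (.e (nat_lit 532515) (nat_lit 3) .nil)))))))) (.g (nat_lit 1) (.e (nat_lit 280635) (nat_lit 0) .nil) .nil))) 
(.lf (nat_lit 546491) (.g (nat_lit 2099) (.e (nat_lit 131140) (nat_lit 27) (.e (nat_lit 426316) (nat_lit 12) (.e (nat_lit 475210) (nat_lit 41) (.e (nat_lit 712747) (nat_lit 28) (.e (nat_lit 442112) (nat_lit 7) .nil))))) (.g (nat_lit 1) (.e (nat_lit 282715) (nat_lit 0) .nil) .nil)))) (.nd (nat_lit 9) 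
(.lf (nat_lit 546235) (.g (nat_lit 2650) (.e (nat_lit 131089) (nat_lit 1) (.e (nat_lit 57931) (nat_lit 282) (.e (nat_lit 163943) (nat_lit 19) (.e (nat_lit 483372) (nat_lit 21) (.e (nat_lit 319505) (nat_lit 10) .nil))))) (.g (nat_lit 0) (.e (nat_lit 281655) (nat_lit 0) .nil) .nil))) 
(.lf (nat_lit 546747) (.g (nat_lit 895) (.e (nat_lit 278566) (nat_lit 16) (.e (nat_lit 286756) (nat_lit 10) (.e (nat_lit 344157) (nat_lit 36) (.e (nat_lit 638999) (nat_lit 8) (.e (nat_lit 172081) (nat_lit 7) .nil))))) (.g (nat_lit 0) (.e (nat_lit 283939) (nat_lit 0) .nil) .nil)))))) (.nd (nat_lit 7) (.nd (nat_lit 8) (.nd (nat_lit 9) 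
(.lf (nat_lit 545915) (.g (nat_lit 2724) (.e (nat_lit 114719) (nat_lit 23) (.e (nat_lit 98367) (nat_lit 27) (.e (nat_lit 434231) (nat_lit 23) (.e (nat_lit 532500) (nat_lit 1) (.e (nat_lit 57685) (nat_lit 156) (.e (nat_lit 163874) (nat_lit 3) (.e (nat_lit 204838) (nat_lit 20) .nil))))))) (.g (nat_lit 1) (.e (nat_lit 280559) (nat_lit 0) .nil) .nil))) 
(.lf (nat_lit 546427) (.g (nat_lit 1847) (.e (nat_lit 131124) (nat_lit 13) (.e (nat_lit 393225) (nat_lit 9) (.e (nat_lit 335996) (nat_lit 1) (.e (nat_lit 57931) (nat_lit 282) .nil)))) (.g (nat_lit 0) (.e (nat_lit 282373) (nat_lit 0) .nil) .nil)))) (.nd (nat_lit 9) 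
(.lf (nat_lit 546171) (.g (nat_lit 482) (.e (nat_lit 123194) (nat_lit 266) (.e (nat_lit 57435) (nat_lit 17) (.e (nat_lit 376835) (nat_lit 0) .nil))) (.g (nat_lit 0) (.e (nat_lit 281272) (nat_lit 0) .nil) .nil))) 
(.lf (nat_lit 546683) (.g (nat_lit 4195) (.e (nat_lit 270373) (nat_lit 16) (.e (nat_lit 286735) (nat_lit 3) (.e (nat_lit 98373) (nat_lit 29) (.e (nat_lit 450576) (nat_lit 2) (.e (nat_lit 507941) (nat_lit 14) .nil))))) (.g (nat_lit 0) (.e (nat_lit 283798) (nat_lit 0) .nil) .nil))))) (.nd (nat_lit 8) (.nd (nat_lit 9) 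
(.lf (nat_lit 546043) (.g (nat_lit 4588) (.e (nat_lit 122913) (nat_lit 13) (.e (nat_lit 344129) (nat_lit 26) (.e (nat_lit 557067) (nat_lit 9) (.e (nat_lit 2828) (nat_lit 182) (.e (nat_lit 409649) (nat_lit 18) (.e (nat_lit 303151) (nat_lit 27) (.e (nat_lit 335995) (nat_lit 1) (.e (nat_lit 57683) (nat_lit 155) .nil)))))))) (.g (nat_lit 1) (.e (nat_lit 280738) (nat_lit 0) .nil) .nil))) 
(.lf (nat_lit 546555) (.g (nat_lit 2945) (.e (nat_lit 147495) (nat_lit 11) (.e (nat_lit 24608) (nat_lit 3) (.e (nat_lit 98372) (nat_lit 29) (.e (nat_lit 450586) (nat_lit 10) (.e (nat_lit 573452) (nat_lit 9) (.e (nat_lit 1310) (nat_lit 98) .nil)))))) (.g (nat_lit 1) (.e (nat_lit 283200) (nat_lit 0) .nil) .nil)))) (.nd (nat_lit 9) 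
(.lf (nat_lit 546299) (.g (nat_lit 2580) (.e (nat_lit 131105) (nat_lit 9) (.e (nat_lit 336324) (nat_lit 18) (.e (nat_lit 204838) (nat_lit 20) (.e (nat_lit 114697) (nat_lit 11) (.e (nat_lit 426122) (nat_lit 2) (.e (nat_lit 196681) (nat_lit 17) .nil)))))) (.g (nat_lit 1) (.e (nat_lit 281940) (nat_lit 0) .nil) .nil))) 
(.lf (nat_lit 546811) (.g (nat_lit 1070) (.e (nat_lit 303104) (nat_lit 0) (.e (nat_lit 3262) (nat_lit 198) (.e (nat_lit 540704) (nat_lit 12) (.e (nat_lit 360467) (nat_lit 3) (.e (nat_lit 516139) (nat_lit 7) .nil))))) (.g (nat_lit 0) (.e (nat_lit 284091) (nat_lit 0) .nil) .nil)))))))))) 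
(.nd (nat_lit 3) (.nd (nat_lit 4) (.nd (nat_lit 5) (.nd (nat_lit 6) (.nd (nat_lit 7) 
(.nd (nat_lit 8) (.nd (nat_lit 9) 
(.lf (nat_lit 545799) (.g (nat_lit 4544) (.e (nat_lit 114719) (nat_lit 23) (.e (nat_lit 98334) (nat_lit 18) (.e (nat_lit 164332) (nat_lit 230) (.e (nat_lit 163869) (nat_lit 2) (.e (nat_lit 196654) (nat_lit 11) (.e (nat_lit 16416) (nat_lit 3) (.e (nat_lit 204837) (nat_lit 20) .nil))))))) (.g (nat_lit 1) (.e (nat_lit 280337) (nat_lit 0) .nil) .nil))) 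
(.lf (nat_lit 546311) (.g (nat_lit 3133) (.e (nat_lit 131105) (nat_lit 9) (.e (nat_lit 336454) (nat_lit 34) (.e (nat_lit 483364) (nat_lit 18) (.e (nat_lit 57931) (nat_lit 282) (.e (nat_lit 163867) (nat_lit 2) (.e (nat_lit 196681) (nat_lit 17) .nil)))))) (.g (nat_lit 1) (.e (nat_lit 281975) (nat_lit 0) .nil) .nil)))) (.nd (nat_lit 9) 
(.lf (nat_lit 546055) (.g (nat_lit 485) (.e (nat_lit 122919) (nat_lit 15) (.e (nat_lit 360451) (nat_lit 0) (.e (nat_lit 5116) (nat_lit 292) .nil))) (.g (nat_lit 0) (.e (nat_lit 280757) (nat_lit 0) .nil) .nil))) 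
(.lf (nat_lit 546567) (.g (nat_lit 2884) (.e (nat_lit 147495) (nat_lit 11) (.e (nat_lit 24654) (nat_lit 13) (.e (nat_lit 393301) (nat_lit 27) (.e (nat_lit 491546) (nat_lit 9) (.e (nat_lit 336048) (nat_lit 6) .nil))))) (.g (nat_lit 1) (.e (nat_lit 283214) (nat_lit 0) .nil) .nil))))) (.nd (nat_lit 8) (.nd (nat_lit 9) 
(.lf (nat_lit 545927) (.g (nat_lit 682) (.e (nat_lit 114719) (nat_lit 23) (.e (nat_lit 98367) (nat_lit 27) (.e (nat_lit 434232) (nat_lit 23) .nil))) (.g (nat_lit 0) (.e (nat_lit 280573) (nat_lit 0) .nil) .nil))) 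
(.lf (nat_lit 546439) (.g (nat_lit 1754) (.e (nat_lit 131126) (nat_lit 13) (.e (nat_lit 393229) (nat_lit 9) (.e (nat_lit 335996) (nat_lit 1) (.e (nat_lit 57931) (nat_lit 282) .nil)))) (.g (nat_lit 0) (.e (nat_lit 282420) (nat_lit 0) .nil) .nil)))) (.nd (nat_lit 9) 
(.lf (nat_lit 546183) (.g (nat_lit 2632) (.e (nat_lit 123195) (nat_lit 266) (.e (nat_lit 57400) (nat_lit 10) (.e (nat_lit 319490) (nat_lit 0) (.e (nat_lit 5664) (nat_lit 312) (.e (nat_lit 3085) (nat_lit 191) (.e (nat_lit 483382) (nat_lit 23) (.e (nat_lit 336029) (nat_lit 4) .nil))))))) (.g (nat_lit 1) (.e (nat_lit 281292) (nat_lit 0) .nil) .nil))) 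
(.lf (nat_lit 546695) (.g (nat_lit 546) (.e (nat_lit 270373) (nat_lit 16) (.e (nat_lit 286761) (nat_lit 13) (.e (nat_lit 393293) (nat_lit 26) .nil))) (.g (nat_lit 0) (.e (nat_lit 283816) (nat_lit 0) .nil) .nil)))))) (.nd (nat_lit 7) (.nd (nat_lit 8) (.nd (nat_lit 9) 
(.lf (nat_lit 545863) (.g (nat_lit 2221) (.e (nat_lit 114719) (nat_lit 23) (.e (nat_lit 98366) (nat_lit 27) (.e (nat_lit 434231) (nat_lit 23) (.e (nat_lit 532490) (nat_lit 0) (.e (nat_lit 1040) (nat_lit 81) .nil))))) (.g (nat_lit 0) (.e (nat_lit 280443) (nat_lit 0) .nil) .nil))) 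
(.lf (nat_lit 546375) (.g (nat_lit 1433) (.e (nat_lit 131116) (nat_lit 9) (.e (nat_lit 335988) (nat_lit 1) (.e (nat_lit 57931) (nat_lit 282) (.e (nat_lit 163947) (nat_lit 20) .nil)))) (.g (nat_lit 0) (.e (nat_lit 282224) (nat_lit 0) .nil) .nil)))) (.nd (nat_lit 9) 
(.lf (nat_lit 546119) (.g (nat_lit 3354) (.e (nat_lit 123013) (nat_lit 116) (.e (nat_lit 778466) (nat_lit 11) (.e (nat_lit 24617) (nat_lit 7) (.e (nat_lit 319533) (nat_lit 16) (.e (nat_lit 286753) (nat_lit 10) (.e (nat_lit 344169) (nat_lit 40) (.e (nat_lit 679680) (nat_lit 16) .nil))))))) (.g (nat_lit 1) (.e (nat_lit 280965) (nat_lit 0) .nil) .nil))) 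
(.lf (nat_lit 546631) (.g (nat_lit 1804) (.e (nat_lit 163584) (nat_lit 4) (.e (nat_lit 172120) (nat_lit 12) (.e (nat_lit 475198) (nat_lit 40) (.e (nat_lit 704599) (nat_lit 6) (.e (nat_lit 196352) (nat_lit 8) .nil))))) (.g (nat_lit 0) (.e (nat_lit 283523) (nat_lit 0) .nil) .nil))))) (.nd (nat_lit 8) (.nd (nat_lit 9) 
(.lf (nat_lit 545991) (.g (nat_lit 1817) (.e (nat_lit 114721) (nat_lit 24) (.e (nat_lit 106534) (nat_lit 11) (.e (nat_lit 16425) (nat_lit 7) (.e (nat_lit 409644) (nat_lit 18) (.e (nat_lit 303127) (nat_lit 9) .nil))))) (.g (nat_lit 0) (.e (nat_lit 280647) (nat_lit 0) .nil) .nil))) 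
(.lf (nat_lit 546503) (.g (nat_lit 840) (.e (nat_lit 139285) (nat_lit 9) (.e (nat_lit 2830) (nat_lit 182) (.e (nat_lit 409643) (nat_lit 18) (.e (nat_lit 303117) (nat_lit 2) .nil)))) (.g (nat_lit 0) (.e (nat_lit 282996) (nat_lit 0) .nil) .nil)))) (.nd (nat_lit 9) 
(.lf (nat_lit 546247) (.g (nat_lit 832) (.e (nat_lit 131096) (nat_lit 3) (.e (nat_lit 98335) (nat_lit 18) (.e (nat_lit 164177) (nat_lit 154) .nil))) (.g (nat_lit 0) (.e (nat_lit 281787) (nat_lit 0) .nil) .nil))) 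
(.lf (nat_lit 546759) (.g (nat_lit 2535) (.e (nat_lit 278567) (nat_lit 16) (.e (nat_lit 286734) (nat_lit 3) (.e (nat_lit 98359) (nat_lit 26) (.e (nat_lit 426211) (nat_lit 9) (.e (nat_lit 426125) (nat_lit 2) (.e (nat_lit 204544) (nat_lit 18) (.e (nat_lit 2771) (nat_lit 177) .nil))))))) (.g (nat_lit 1) (.e (nat_lit 283952) (nat_lit 0) .nil) .nil))))))) 
(.nd (nat_lit 6) (.nd (nat_lit 7) (.nd (nat_lit 8) (.nd (nat_lit 9) 
(.lf (nat_lit 545831) (.g (nat_lit 3188) (.e (nat_lit 114719) (nat_lit 23) (.e (nat_lit 98356) (nat_lit 26) (.e (nat_lit 426436) (nat_lit 18) (.e (nat_lit 98335) (nat_lit 18) (.e (nat_lit 164327) (nat_lit 230) (.e (nat_lit 163875) (nat_lit 3) (.e (nat_lit 204836) (nat_lit 20) .nil))))))) (.g (nat_lit 1) (.e (nat_lit 280386) (nat_lit 0) .nil) .nil))) 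
(.lf (nat_lit 546343) (.g (nat_lit 2160) (.e (nat_lit 131109) (nat_lit 9) (.e (nat_lit 336019) (nat_lit 3) (.e (nat_lit 98350) (nat_lit 24) (.e (nat_lit 409617) (nat_lit 10) (.e (nat_lit 7936) (nat_lit 312) .nil))))) (.g (nat_lit 0) (.e (nat_lit 282092) (nat_lit 0) .nil) .nil)))) (.nd (nat_lit 9) 
(.lf (nat_lit 546087) (.g (nat_lit 2376) (.e (nat_lit 122936) (nat_lit 23) (.e (nat_lit 516131) (nat_lit 3) (.e (nat_lit 221219) (nat_lit 24) (.e (nat_lit 213019) (nat_lit 9) (.e (nat_lit 2610) (nat_lit 163) (.e (nat_lit 164345) (nat_lit 240) (.e (nat_lit 2639) (nat_lit 165) (.e (nat_lit 188160) (nat_lit 38) .nil)))))))) (.g (nat_lit 1) (.e (nat_lit 280813) (nat_lit 0) .nil) .nil))) 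
(.lf (nat_lit 546599) (.g (nat_lit 1692) (.e (nat_lit 147496) (nat_lit 11) (.e (nat_lit 24617) (nat_lit 7) (.e (nat_lit 319533) (nat_lit 16) (.e (nat_lit 286753) (nat_lit 10) (.e (nat_lit 344160) (nat_lit 37) .nil))))) (.g (nat_lit 0) (.e (nat_lit 283258) (nat_lit 0) .nil) .nil))))) (.nd (nat_lit 8) (.nd (nat_lit 9) 
(.lf (nat_lit 545959) (.g (nat_lit 3233) (.e (nat_lit 114719) (nat_lit 23) (.e (nat_lit 98384) (nat_lit 32) (.e (nat_lit 475179) (nat_lit 24) (.e (nat_lit 516115) (nat_lit 1) (.e (nat_lit 164332) (nat_lit 230) (.e (nat_lit 163874) (nat_lit 3) (.e (nat_lit 204837) (nat_lit 20) .nil))))))) (.g (nat_lit 1) (.e (nat_lit 280611) (nat_lit 0) .nil) .nil))) 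
(.lf (nat_lit 546471) (.g (nat_lit 726) (.e (nat_lit 131136) (nat_lit 27) (.e (nat_lit 426316) (nat_lit 12) (.e (nat_lit 475209) (nat_lit 41) .nil))) (.g (nat_lit 0) (.e (nat_lit 282604) (nat_lit 0) .nil) .nil)))) (.nd (nat_lit 9) 
(.lf (nat_lit 546215) (.g (nat_lit 1324) (.e (nat_lit 123214) (nat_lit 275) (.e (nat_lit 73775) (nat_lit 26) (.e (nat_lit 778465) (nat_lit 11) (.e (nat_lit 24650) (nat_lit 12) .nil)))) (.g (nat_lit 0) (.e (nat_lit 281355) (nat_lit 0) .nil) .nil))) 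
(.lf (nat_lit 546727) (.g (nat_lit 2220) (.e (nat_lit 278566) (nat_lit 16) (.e (nat_lit 286734) (nat_lit 3) (.e (nat_lit 98359) (nat_lit 26) (.e (nat_lit 426285) (nat_lit 10) (.e (nat_lit 434227) (nat_lit 20) .nil))))) (.g (nat_lit 0) (.e (nat_lit 283915) (nat_lit 0) .nil) .nil)))))) (.nd (nat_lit 7) (.nd (nat_lit 8) (.nd (nat_lit 9) 
(.lf (nat_lit 545895) (.g (nat_lit 3011) (.e (nat_lit 114719) (nat_lit 23) (.e (nat_lit 98366) (nat_lit 27) (.e (nat_lit 434232) (nat_lit 23) (.e (nat_lit 532504) (nat_lit 1) (.e (nat_lit 57692) (nat_lit 156) (.e (nat_lit 163874) (nat_lit 3) (.e (nat_lit 204836) (nat_lit 20) .nil))))))) (.g (nat_lit 1) (.e (nat_lit 280502) (nat_lit 0) .nil) .nil))) 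
(.lf (nat_lit 546407) (.g (nat_lit 4268) (.e (nat_lit 131122) (nat_lit 12) (.e (nat_lit 385074) (nat_lit 31) (.e (nat_lit 573482) (nat_lit 13) (.e (nat_lit 65628) (nat_lit 14) (.e (nat_lit 401425) (nat_lit 2) (.e (nat_lit 196681) (nat_lit 17) .nil)))))) (.g (nat_lit 1) (.e (nat_lit 282312) (nat_lit 0) .nil) .nil)))) (.nd (nat_lit 9) 
(.lf (nat_lit 546151) (.g (nat_lit 1681) (.e (nat_lit 123176) (nat_lit 259) (.e (nat_lit 163962) (nat_lit 25) (.e (nat_lit 532523) (nat_lit 7) (.e (nat_lit 319538) (nat_lit 19) .nil)))) (.g (nat_lit 0) (.e (nat_lit 281238) (nat_lit 0) .nil) .nil))) 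
(.lf (nat_lit 546663) (.g (nat_lit 972) (.e (nat_lit 270372) (nat_lit 16) (.e (nat_lit 286735) (nat_lit 3) (.e (nat_lit 98373) (nat_lit 29) .nil))) (.g (nat_lit 0) (.e (nat_lit 283773) (nat_lit 0) .nil) .nil))))) (.nd (nat_lit 8) (.nd (nat_lit 9) 
(.lf (nat_lit 546023) (.g (nat_lit 3848) (.e (nat_lit 122906) (nat_lit 12) (.e (nat_lit 336001) (nat_lit 2) (.e (nat_lit 90170) (nat_lit 13) (.e (nat_lit 172106) (nat_lit 10) (.e (nat_lit 434244) (nat_lit 28) (.e (nat_lit 573474) (nat_lit 12) (.e (nat_lit 57356) (nat_lit 0) (.e (nat_lit 7272) (nat_lit 385) .nil)))))))) (.g (nat_lit 1) (.e (nat_lit 280711) (nat_lit 0) .nil) .nil))) 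
(.lf (nat_lit 546535) (.g (nat_lit 4094) (.e (nat_lit 147494) (nat_lit 11) (.e (nat_lit 24665) (nat_lit 14) (.e (nat_lit 401448) (nat_lit 10) (.e (nat_lit 434275) (nat_lit 39) (.e (nat_lit 663585) (nat_lit 12) (.e (nat_lit 171776) (nat_lit 49) (.e (nat_lit 729120) (nat_lit 28) .nil))))))) (.g (nat_lit 1) (.e (nat_lit 283172) (nat_lit 0) .nil) .nil)))) (.nd (nat_lit 9) 
(.lf (nat_lit 546279) (.g (nat_lit 805) (.e (nat_lit 131104) (nat_lit 9) (.e (nat_lit 336028) (nat_lit 3) (.e (nat_lit 98349) (nat_lit 24) .nil))) (.g (nat_lit 0) (.e (nat_lit 281890) (nat_lit 0) .nil) .nil))) 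
(.lf (nat_lit 546791) (.g (nat_lit 812) (.e (nat_lit 278547) (nat_lit 8) (.e (nat_lit 303145) (nat_lit 13) (.e (nat_lit 483405) (nat_lit 26) .nil))) (.g (nat_lit 0) (.e (nat_lit 284059) (nat_lit 0) .nil) .nil)))))))) (.nd (nat_lit 5) (.nd (nat_lit 6) (.nd (nat_lit 7) (.nd (nat_lit 8) (.nd (nat_lit 9) 
(.lf (nat_lit 545815) (.g (nat_lit 2798) (.e (nat_lit 114719) (nat_lit 23) (.e (nat_lit 98335) (nat_lit 18) (.e (nat_lit 164403) (nat_lit 256) (.e (nat_lit 57373) (nat_lit 2) (.e (nat_lit 90167) (nat_lit 13) .nil))))) (.g (nat_lit 0) (.e (nat_lit 280364) (nat_lit 0) .nil) .nil))) 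
(.lf (nat_lit 546327) (.g (nat_lit 2383) (.e (nat_lit 131107) (nat_lit 9) (.e (nat_lit 336324) (nat_lit 18) (.e (nat_lit 204838) (nat_lit 20) (.e (nat_lit 114698) (nat_lit 11) (.e (nat_lit 426122) (nat_lit 2) .nil))))) (.g (nat_lit 0) (.e (nat_lit 282016) (nat_lit 0) .nil) .nil)))) (.nd (nat_lit 9) 
(.lf (nat_lit 546071) (.g (nat_lit 2188) (.e (nat_lit 122936) (nat_lit 23) (.e (nat_lit 516115) (nat_lit 1) (.e (nat_lit 164399) (nat_lit 256) (.e (nat_lit 57374) (nat_lit 2) (.e (nat_lit 90174) (nat_lit 14) .nil))))) (.g (nat_lit 0) (.e (nat_lit 280790) (nat_lit 0) .nil) .nil))) 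
(.lf (nat_lit 546583) (.g (nat_lit 2860) (.e (nat_lit 147496) (nat_lit 11) (.e (nat_lit 24604) (nat_lit 2) (.e (nat_lit 90170) (nat_lit 13) (.e (nat_lit 172106) (nat_lit 10) (.e (nat_lit 434244) (nat_lit 28) (.e (nat_lit 573449) (nat_lit 9) (.e (nat_lit 1309) (nat_lit 98) .nil))))))) (.g (nat_lit 1) (.e (nat_lit 283240) (nat_lit 0) .nil) .nil))))) (.nd (nat_lit 8) (.nd (nat_lit 9) 
(.lf (nat_lit 545943) (.g (nat_lit 1561) (.e (nat_lit 114719) (nat_lit 23) (.e (nat_lit 98367) (nat_lit 27) (.e (nat_lit 434238) (nat_lit 25) (.e (nat_lit 548910) (nat_lit 17) .nil)))) (.g (nat_lit 0) (.e (nat_lit 280590) (nat_lit 0) .nil) .nil))) 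
(.lf (nat_lit 546455) (.g (nat_lit 3787) (.e (nat_lit 131129) (nat_lit 14) (.e (nat_lit 401425) (nat_lit 2) (.e (nat_lit 196666) (nat_lit 13) (.e (nat_lit 65628) (nat_lit 14) (.e (nat_lit 401425) (nat_lit 2) (.e (nat_lit 196681) (nat_lit 17) .nil)))))) (.g (nat_lit 1) (.e (nat_lit 282486) (nat_lit 0) .nil) .nil)))) (.nd (nat_lit 9) 
(.lf (nat_lit 546199) (.g (nat_lit 2545) (.e (nat_lit 123197) (nat_lit 266) (.e (nat_lit 57435) (nat_lit 17) (.e (nat_lit 376835) (nat_lit 0) (.e (nat_lit 3632) (nat_lit 227) (.e (nat_lit 778327) (nat_lit 6) (.e (nat_lit 81959) (nat_lit 24) .nil)))))) (.g (nat_lit 1) (.e (nat_lit 281320) (nat_lit 0) .nil) .nil))) 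
(.lf (nat_lit 546711) (.g (nat_lit 2389) (.e (nat_lit 270354) (nat_lit 8) (.e (nat_lit 303118) (nat_lit 3) (.e (nat_lit 204855) (nat_lit 26) (.e (nat_lit 336099) (nat_lit 9) (.e (nat_lit 336013) (nat_lit 2) (.e (nat_lit 98048) (nat_lit 18) (.e (nat_lit 1333) (nat_lit 100) .nil))))))) (.g (nat_lit 1) (.e (nat_lit 283849) (nat_lit 0) .nil) .nil)))))) 
(.nd (nat_lit 7) (.nd (nat_lit 8) (.nd (nat_lit 9) 
(.lf (nat_lit 545879) (.g (nat_lit 3074) (.e (nat_lit 114719) (nat_lit 23) (.e (nat_lit 98366) (nat_lit 27) (.e (nat_lit 434231) (nat_lit 23) (.e (nat_lit 532500) (nat_lit 1) (.e (nat_lit 57690) (nat_lit 156) (.e (nat_lit 163874) (nat_lit 3) (.e (nat_lit 204836) (nat_lit 20) .nil))))))) (.g (nat_lit 1) (.e (nat_lit 280484) (nat_lit 0) .nil) .nil))) 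
(.lf (nat_lit 546391) (.g (nat_lit 2426) (.e (nat_lit 131120) (nat_lit 12) (.e (nat_lit 385068) (nat_lit 26) (.e (nat_lit 532513) (nat_lit 3) (.e (nat_lit 114697) (nat_lit 11) (.e (nat_lit 426121) (nat_lit 2) (.e (nat_lit 196681) (nat_lit 17) .nil)))))) (.g (nat_lit 1) (.e (nat_lit 282256) (nat_lit 0) .nil) .nil)))) (.nd (nat_lit 9) 
(.lf (nat_lit 546135) (.g (nat_lit 1405) (.e (nat_lit 123153) (nat_lit 250) (.e (nat_lit 2650) (nat_lit 166) (.e (nat_lit 188434) (nat_lit 20) (.e (nat_lit 3391) (nat_lit 210) .nil)))) (.g (nat_lit 0) (.e (nat_lit 281184) (nat_lit 0) .nil) .nil))) 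
(.lf (nat_lit 546647) (.g (nat_lit 582) (.e (nat_lit 163584) (nat_lit 6) (.e (nat_lit 188434) (nat_lit 20) (.e (nat_lit 3408) (nat_lit 212) (.e (nat_lit 655380) (nat_lit 6) .nil)))) (.g (nat_lit 0) (.e (nat_lit 283691) (nat_lit 0) .nil) .nil))))) (.nd (nat_lit 8) (.nd (nat_lit 9) 
(.lf (nat_lit 546007) (.g (nat_lit 1732) (.e (nat_lit 122896) (nat_lit 5) (.e (nat_lit 114698) (nat_lit 11) (.e (nat_lit 426124) (nat_lit 2) .nil))) (.g (nat_lit 0) (.e (nat_lit 280694) (nat_lit 0) .nil) .nil))) 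
(.lf (nat_lit 546519) (.g (nat_lit 2713) (.e (nat_lit 139289) (nat_lit 9) (.e (nat_lit 2829) (nat_lit 182) (.e (nat_lit 409648) (nat_lit 18) (.e (nat_lit 303117) (nat_lit 2) (.e (nat_lit 196673) (nat_lit 15) (.e (nat_lit 81962) (nat_lit 25) .nil)))))) (.g (nat_lit 1) (.e (nat_lit 283042) (nat_lit 0) .nil) .nil)))) (.nd (nat_lit 9) 
(.lf (nat_lit 546263) (.g (nat_lit 2186) (.e (nat_lit 131098) (nat_lit 3) (.e (nat_lit 98333) (nat_lit 18) (.e (nat_lit 164177) (nat_lit 154) (.e (nat_lit 57377) (nat_lit 3) (.e (nat_lit 98342) (nat_lit 20) .nil))))) (.g (nat_lit 0) (.e (nat_lit 281831) (nat_lit 0) .nil) .nil))) 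
(.lf (nat_lit 546775) (.g (nat_lit 960) (.e (nat_lit 278545) (nat_lit 8) (.e (nat_lit 303145) (nat_lit 13) (.e (nat_lit 483405) (nat_lit 26) .nil))) (.g (nat_lit 0) (.e (nat_lit 284019) (nat_lit 0) .nil) .nil))))))) (.nd (nat_lit 6) (.nd (nat_lit 7) (.nd (nat_lit 8) (.nd (nat_lit 9) 
(.lf (nat_lit 545847) (.g (nat_lit 2551) (.e (nat_lit 114719) (nat_lit 23) (.e (nat_lit 98358) (nat_lit 26) (.e (nat_lit 426436) (nat_lit 18) (.e (nat_lit 98335) (nat_lit 18) (.e (nat_lit 164329) (nat_lit 230) .nil))))) (.g (nat_lit 0) (.e (nat_lit 280404) (nat_lit 0) .nil) .nil))) 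
(.lf (nat_lit 546359) (.g (nat_lit 3378) (.e (nat_lit 131109) (nat_lit 9) (.e (nat_lit 336324) (nat_lit 18) (.e (nat_lit 204837) (nat_lit 20) (.e (nat_lit 114698) (nat_lit 11) (.e (nat_lit 426114) (nat_lit 2) (.e (nat_lit 196681) (nat_lit 17) .nil)))))) (.g (nat_lit 1) (.e (nat_lit 282155) (nat_lit 0) .nil) .nil)))) (.nd (nat_lit 9) 
(.lf (nat_lit 546103) (.g (nat_lit 3325) (.e (nat_lit 122979) (nat_lit 55) (.e (nat_lit 778466) (nat_lit 11) (.e (nat_lit 24617) (nat_lit 7) (.e (nat_lit 319533) (nat_lit 16) (.e (nat_lit 286753) (nat_lit 10) .nil))))) (.g (nat_lit 0) (.e (nat_lit 280857) (nat_lit 0) .nil) .nil))) 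
(.lf (nat_lit 546615) (.g (nat_lit 1800) (.e (nat_lit 155652) (nat_lit 0) (.e (nat_lit 2984) (nat_lit 186) (.e (nat_lit 442374) (nat_lit 0) (.e (nat_lit 2059) (nat_lit 142) (.e (nat_lit 704599) (nat_lit 6) (.e (nat_lit 196352) (nat_lit 8) .nil)))))) (.g (nat_lit 1) (.e (nat_lit 283385) (nat_lit 0) .nil) .nil))))) (.nd (nat_lit 8) (.nd (nat_lit 9) 
(.lf (nat_lit 545975) (.g (nat_lit 3637) (.e (nat_lit 114719) (nat_lit 23) (.e (nat_lit 98386) (nat_lit 32) (.e (nat_lit 475179) (nat_lit 24) (.e (nat_lit 516115) (nat_lit 1) (.e (nat_lit 164327) (nat_lit 230) (.e (nat_lit 163875) (nat_lit 3) (.e (nat_lit 204837) (nat_lit 20) .nil))))))) (.g (nat_lit 1) (.e (nat_lit 280631) (nat_lit 0) .nil) .nil))) 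
(.lf (nat_lit 546487) (.g (nat_lit 2199) (.e (nat_lit 131140) (nat_lit 27) (.e (nat_lit 426316) (nat_lit 12) (.e (nat_lit 475198) (nat_lit 40) (.e (nat_lit 704595) (nat_lit 5) (.e (nat_lit 188160) (nat_lit 39) .nil))))) (.g (nat_lit 1) (.e (nat_lit 282710) (nat_lit 0) .nil) .nil)))) (.nd (nat_lit 9) 
(.lf (nat_lit 546231) (.g (nat_lit 2055) (.e (nat_lit 131089) (nat_lit 1) (.e (nat_lit 57854) (nat_lit 252) (.e (nat_lit 57378) (nat_lit 3) (.e (nat_lit 98335) (nat_lit 18) .nil)))) (.g (nat_lit 0) (.e (nat_lit 281635) (nat_lit 0) .nil) .nil))) 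
(.lf (nat_lit 546743) (.g (nat_lit 501) (.e (nat_lit 278566) (nat_lit 16) (.e (nat_lit 286756) (nat_lit 10) (.e (nat_lit 344153) (nat_lit 35) .nil))) (.g (nat_lit 0) (.e (nat_lit 283935) (nat_lit 0) .nil) .nil)))))) (.nd (nat_lit 7) (.nd (nat_lit 8) (.nd (nat_lit 9) 
(.lf (nat_lit 545911) (.g (nat_lit 4578) (.e (nat_lit 114719) (nat_lit 23) (.e (nat_lit 98367) (nat_lit 27) (.e (nat_lit 434231) (nat_lit 23) (.e (nat_lit 532499) (nat_lit 1) (.e (nat_lit 57692) (nat_lit 156) (.e (nat_lit 163874) (nat_lit 3) (.e (nat_lit 204838) (nat_lit 20) .nil))))))) (.g (nat_lit 1) (.e (nat_lit 280541) (nat_lit 0) .nil) .nil))) 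
(.lf (nat_lit 546423) (.g (nat_lit 958) (.e (nat_lit 131123) (nat_lit 12) (.e (nat_lit 385074) (nat_lit 31) (.e (nat_lit 573456) (nat_lit 9) .nil))) (.g (nat_lit 0) (.e (nat_lit 282359) (nat_lit 0) .nil) .nil)))) (.nd (nat_lit 9) 
(.lf (nat_lit 546167) (.g (nat_lit 2359) (.e (nat_lit 123185) (nat_lit 264) (.e (nat_lit 1183) (nat_lit 87) (.e (nat_lit 57479) (nat_lit 28) (.e (nat_lit 557095) (nat_lit 13) (.e (nat_lit 172115) (nat_lit 10) .nil))))) (.g (nat_lit 0) (.e (nat_lit 281259) (nat_lit 0) .nil) .nil))) 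
(.lf (nat_lit 546679) (.g (nat_lit 765) (.e (nat_lit 270373) (nat_lit 16) (.e (nat_lit 286735) (nat_lit 3) (.e (nat_lit 98373) (nat_lit 29) .nil))) (.g (nat_lit 0) (.e (nat_lit 283793) (nat_lit 0) .nil) .nil))))) (.nd (nat_lit 8) (.nd (nat_lit 9) 
(.lf (nat_lit 546039) (.g (nat_lit 4405) (.e (nat_lit 122913) (nat_lit 13) (.e (nat_lit 344118) (nat_lit 21) (.e (nat_lit 516166) (nat_lit 12) (.e (nat_lit 450588) (nat_lit 10) (.e (nat_lit 573473) (nat_lit 12) .nil))))) (.g (nat_lit 0) (.e (nat_lit 280734) (nat_lit 0) .nil) .nil))) 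
(.lf (nat_lit 546551) (.g (nat_lit 1610) (.e (nat_lit 147495) (nat_lit 11) (.e (nat_lit 24607) (nat_lit 3) (.e (nat_lit 98386) (nat_lit 32) (.e (nat_lit 483072) (nat_lit 51) .nil)))) (.g (nat_lit 0) (.e (nat_lit 283195) (nat_lit 0) .nil) .nil)))) (.nd (nat_lit 9) 
(.lf (nat_lit 546295) (.g (nat_lit 4537) (.e (nat_lit 131105) (nat_lit 9) (.e (nat_lit 336324) (nat_lit 18) (.e (nat_lit 204837) (nat_lit 20) (.e (nat_lit 114698) (nat_lit 11) (.e (nat_lit 426123) (nat_lit 2) (.e (nat_lit 196681) (nat_lit 17) .nil)))))) (.g (nat_lit 1) (.e (nat_lit 281936) (nat_lit 0) .nil) .nil))) 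
(.lf (nat_lit 546807) (.g (nat_lit 4419) (.e (nat_lit 303104) (nat_lit 0) (.e (nat_lit 3238) (nat_lit 197) (.e (nat_lit 532549) (nat_lit 12) (.e (nat_lit 360466) (nat_lit 3) (.e (nat_lit 516138) (nat_lit 7) (.e (nat_lit 409646) (nat_lit 18) .nil)))))) (.g (nat_lit 1) (.e (nat_lit 284084) (nat_lit 0) .nil) .nil))))))))) 
(.nd (nat_lit 4) (.nd (nat_lit 5) (.nd (nat_lit 6) (.nd (nat_lit 7) (.nd (nat_lit 8) 
(.nd (nat_lit 9) 
(.lf (nat_lit 545807) (.g (nat_lit 2734) (.e (nat_lit 114719) (nat_lit 23) (.e (nat_lit 98334) (nat_lit 18) (.e (nat_lit 164403) (nat_lit 256) (.e (nat_lit 57373) (nat_lit 2) (.e (nat_lit 90167) (nat_lit 13) .nil))))) (.g (nat_lit 0) (.e (nat_lit 280351) (nat_lit 0) .nil) .nil))) 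
(.lf (nat_lit 546319) (.g (nat_lit 4183) (.e (nat_lit 131106) (nat_lit 9) (.e (nat_lit 336454) (nat_lit 34) (.e (nat_lit 483365) (nat_lit 18) (.e (nat_lit 57931) (nat_lit 282) .nil)))) (.g (nat_lit 0) (.e (nat_lit 282003) (nat_lit 0) .nil) .nil)))) (.nd (nat_lit 9) 
(.lf (nat_lit 546063) (.g (nat_lit 2112) (.e (nat_lit 122935) (nat_lit 23) (.e (nat_lit 516115) (nat_lit 1) (.e (nat_lit 164398) (nat_lit 256) (.e (nat_lit 57373) (nat_lit 2) (.e (nat_lit 90174) (nat_lit 14) .nil))))) (.g (nat_lit 0) (.e (nat_lit 280779) (nat_lit 0) .nil) .nil))) 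
(.lf (nat_lit 546575) (.g (nat_lit 4232) (.e (nat_lit 147495) (nat_lit 11) (.e (nat_lit 24665) (nat_lit 14) (.e (nat_lit 401450) (nat_lit 12) (.e (nat_lit 475214) (nat_lit 42) (.e (nat_lit 720956) (nat_lit 25) (.e (nat_lit 114727) (nat_lit 28) .nil)))))) (.g (nat_lit 1) (.e (nat_lit 283230) (nat_lit 0) .nil) .nil))))) (.nd (nat_lit 8) (.nd (nat_lit 9) 
(.lf (nat_lit 545935) (.g (nat_lit 3833) (.e (nat_lit 114719) (nat_lit 23) (.e (nat_lit 98367) (nat_lit 27) (.e (nat_lit 434232) (nat_lit 23) (.e (nat_lit 532504) (nat_lit 1) (.e (nat_lit 57692) (nat_lit 156) (.e (nat_lit 163874) (nat_lit 3) (.e (nat_lit 204836) (nat_lit 20) .nil))))))) (.g (nat_lit 1) (.e (nat_lit 280581) (nat_lit 0) .nil) .nil))) 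
(.lf (nat_lit 546447) (.g (nat_lit 3524) (.e (nat_lit 131128) (nat_lit 13) (.e (nat_lit 393225) (nat_lit 9) (.e (nat_lit 335986) (nat_lit 1) (.e (nat_lit 57931) (nat_lit 282) (.e (nat_lit 163869) (nat_lit 2) (.e (nat_lit 196681) (nat_lit 17) .nil)))))) (.g (nat_lit 1) (.e (nat_lit 282448) (nat_lit 0) .nil) .nil)))) (.nd (nat_lit 9) 
(.lf (nat_lit 546191) (.g (nat_lit 3231) (.e (nat_lit 123195) (nat_lit 266) (.e (nat_lit 57400) (nat_lit 10) (.e (nat_lit 319490) (nat_lit 0) (.e (nat_lit 5664) (nat_lit 312) (.e (nat_lit 3085) (nat_lit 191) (.e (nat_lit 483393) (nat_lit 23) (.e (nat_lit 336033) (nat_lit 4) .nil))))))) (.g (nat_lit 1) (.e (nat_lit 281300) (nat_lit 0) .nil) .nil))) 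
(.lf (nat_lit 546703) (.g (nat_lit 2101) (.e (nat_lit 270353) (nat_lit 8) (.e (nat_lit 303118) (nat_lit 3) (.e (nat_lit 204855) (nat_lit 26) (.e (nat_lit 336099) (nat_lit 9) (.e (nat_lit 336013) (nat_lit 2) (.e (nat_lit 98048) (nat_lit 18) (.e (nat_lit 1332) (nat_lit 100) .nil))))))) (.g (nat_lit 1) (.e (nat_lit 283838) (nat_lit 0) .nil) .nil)))))) 
(.nd (nat_lit 7) (.nd (nat_lit 8) (.nd (nat_lit 9) 
(.lf (nat_lit 545871) (.g (nat_lit 3385) (.e (nat_lit 114719) (nat_lit 23) (.e (nat_lit 98366) (nat_lit 27) (.e (nat_lit 434231) (nat_lit 23) (.e (nat_lit 532499) (nat_lit 1) (.e (nat_lit 57691) (nat_lit 156) (.e (nat_lit 163875) (nat_lit 3) (.e (nat_lit 204836) (nat_lit 20) .nil))))))) (.g (nat_lit 1) (.e (nat_lit 280464) (nat_lit 0) .nil) .nil))) 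
(.lf (nat_lit 546383) (.g (nat_lit 2746) (.e (nat_lit 131120) (nat_lit 12) (.e (nat_lit 385066) (nat_lit 26) (.e (nat_lit 532513) (nat_lit 3) (.e (nat_lit 114698) (nat_lit 11) (.e (nat_lit 426116) (nat_lit 2) (.e (nat_lit 196681) (nat_lit 17) .nil)))))) (.g (nat_lit 1) (.e (nat_lit 282241) (nat_lit 0) .nil) .nil)))) (.nd (nat_lit 9) 
(.lf (nat_lit 546127) (.g (nat_lit 2303) (.e (nat_lit 123102) (nat_lit 201) (.e (nat_lit 3062) (nat_lit 190) (.e (nat_lit 475185) (nat_lit 29) (.e (nat_lit 557109) (nat_lit 15) .nil)))) (.g (nat_lit 0) (.e (nat_lit 281088) (nat_lit 0) .nil) .nil))) 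
(.lf (nat_lit 546639) (.g (nat_lit 1102) (.e (nat_lit 163584) (nat_lit 6) (.e (nat_lit 188418) (nat_lit 0) (.e (nat_lit 2058) (nat_lit 142) (.e (nat_lit 704599) (nat_lit 6) (.e (nat_lit 196352) (nat_lit 8) .nil))))) (.g (nat_lit 0) (.e (nat_lit 283667) (nat_lit 0) .nil) .nil))))) (.nd (nat_lit 8) (.nd (nat_lit 9) 
(.lf (nat_lit 545999) (.g (nat_lit 861) (.e (nat_lit 114723) (nat_lit 24) (.e (nat_lit 106536) (nat_lit 11) (.e (nat_lit 16436) (nat_lit 9) .nil))) (.g (nat_lit 0) (.e (nat_lit 280671) (nat_lit 0) .nil) .nil))) 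
(.lf (nat_lit 546511) (.g (nat_lit 164) (.e (nat_lit 139286) (nat_lit 9) (.e (nat_lit 2829) (nat_lit 182) (.e (nat_lit 409646) (nat_lit 18) .nil))) (.g (nat_lit 0) (.e (nat_lit 283023) (nat_lit 0) .nil) .nil)))) (.nd (nat_lit 9) 
(.lf (nat_lit 546255) (.g (nat_lit 2788) (.e (nat_lit 131096) (nat_lit 3) (.e (nat_lit 98335) (nat_lit 18) (.e (nat_lit 164182) (nat_lit 154) (.e (nat_lit 57379) (nat_lit 3) (.e (nat_lit 98341) (nat_lit 20) .nil))))) (.g (nat_lit 0) (.e (nat_lit 281797) (nat_lit 0) .nil) .nil))) 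
(.lf (nat_lit 546767) (.g (nat_lit 915) (.e (nat_lit 278567) (nat_lit 16) (.e (nat_lit 286754) (nat_lit 10) (.e (nat_lit 344153) (nat_lit 35) (.e (nat_lit 630801) (nat_lit 8) (.e (nat_lit 172080) (nat_lit 7) (.e (nat_lit 409639) (nat_lit 15) .nil)))))) (.g (nat_lit 1) (.e (nat_lit 283972) (nat_lit 0) .nil) .nil))))))) (.nd (nat_lit 6) (.nd (nat_lit 7) (.nd (nat_lit 8) (.nd (nat_lit 9) 
(.lf (nat_lit 545839) (.g (nat_lit 3030) (.e (nat_lit 114719) (nat_lit 23) (.e (nat_lit 98356) (nat_lit 26) (.e (nat_lit 426438) (nat_lit 18) (.e (nat_lit 98334) (nat_lit 18) (.e (nat_lit 164330) (nat_lit 230) (.e (nat_lit 163874) (nat_lit 3) (.e (nat_lit 204836) (nat_lit 20) .nil))))))) (.g (nat_lit 1) (.e (nat_lit 280394) (nat_lit 0) .nil) .nil))) 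
(.lf (nat_lit 546351) (.g (nat_lit 2344) (.e (nat_lit 131109) (nat_lit 9) (.e (nat_lit 336019) (nat_lit 3) (.e (nat_lit 98350) (nat_lit 24) (.e (nat_lit 409649) (nat_lit 18) (.e (nat_lit 303111) (nat_lit 0) (.e (nat_lit 3144) (nat_lit 193) (.e (nat_lit 500089) (nat_lit 22) .nil))))))) (.g (nat_lit 1) (.e (nat_lit 282102) (nat_lit 0) .nil) .nil)))) (.nd (nat_lit 9) 
(.lf (nat_lit 546095) (.g (nat_lit 2641) (.e (nat_lit 122936) (nat_lit 23) (.e (nat_lit 516176) (nat_lit 14) (.e (nat_lit 466967) (nat_lit 20) (.e (nat_lit 3253) (nat_lit 197) (.e (nat_lit 532523) (nat_lit 7) (.e (nat_lit 319504) (nat_lit 10) (.e (nat_lit 7936) (nat_lit 304) .nil))))))) (.g (nat_lit 1) (.e (nat_lit 280832) (nat_lit 0) .nil) .nil))) 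
(.lf (nat_lit 546607) (.g (nat_lit 2354) (.e (nat_lit 155649) (nat_lit 0) (.e (nat_lit 2887) (nat_lit 184) (.e (nat_lit 426317) (nat_lit 12) (.e (nat_lit 475199) (nat_lit 40) (.e (nat_lit 704598) (nat_lit 6) (.e (nat_lit 196352) (nat_lit 8) .nil)))))) (.g (nat_lit 1) (.e (nat_lit 283323) (nat_lit 0) .nil) .nil))))) (.nd (nat_lit 8) (.nd (nat_lit 9) 
(.lf (nat_lit 545967) (.g (nat_lit 4508) (.e (nat_lit 114719) (nat_lit 23) (.e (nat_lit 98384) (nat_lit 32) (.e (nat_lit 475179) (nat_lit 24) (.e (nat_lit 516117) (nat_lit 1) (.e (nat_lit 164330) (nat_lit 230) (.e (nat_lit 163874) (nat_lit 3) (.e (nat_lit 204838) (nat_lit 20) .nil))))))) (.g (nat_lit 1) (.e (nat_lit 280621) (nat_lit 0) .nil) .nil))) 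
(.lf (nat_lit 546479) (.g (nat_lit 2015) (.e (nat_lit 131140) (nat_lit 27) (.e (nat_lit 426306) (nat_lit 12) (.e (nat_lit 475199) (nat_lit 40) (.e (nat_lit 704595) (nat_lit 5) (.e (nat_lit 188160) (nat_lit 39) .nil))))) (.g (nat_lit 1) (.e (nat_lit 282691) (nat_lit 0) .nil) .nil)))) (.nd (nat_lit 9) 
(.lf (nat_lit 546223) (.g (nat_lit 1471) (.e (nat_lit 131086) (nat_lit 1) (.e (nat_lit 57854) (nat_lit 252) (.e (nat_lit 57378) (nat_lit 3) (.e (nat_lit 98334) (nat_lit 18) .nil)))) (.g (nat_lit 0) (.e (nat_lit 281591) (nat_lit 0) .nil) .nil))) 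
(.lf (nat_lit 546735) (.g (nat_lit 1091) (.e (nat_lit 278566) (nat_lit 16) (.e (nat_lit 286753) (nat_lit 10) (.e (nat_lit 344154) (nat_lit 35) (.e (nat_lit 630802) (nat_lit 8) (.e (nat_lit 172079) (nat_lit 7) (.e (nat_lit 409639) (nat_lit 15) .nil)))))) (.g (nat_lit 1) (.e (nat_lit 283926) (nat_lit 0) .nil) .nil)))))) (.nd (nat_lit 7) (.nd (nat_lit 8) (.nd (nat_lit 9) 
(.lf (nat_lit 545903) (.g (nat_lit 2917) (.e (nat_lit 114719) (nat_lit 23) (.e (nat_lit 98367) (nat_lit 27) (.e (nat_lit 434231) (nat_lit 23) (.e (nat_lit 532490) (nat_lit 0) (.e (nat_lit 1040) (nat_lit 81) .nil))))) (.g (nat_lit 0) (.e (nat_lit 280521) (nat_lit 0) .nil) .nil))) 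
(.lf (nat_lit 546415) (.g (nat_lit 2750) (.e (nat_lit 131123) (nat_lit 12) (.e (nat_lit 385068) (nat_lit 26) (.e (nat_lit 532513) (nat_lit 3) (.e (nat_lit 114694) (nat_lit 11) (.e (nat_lit 426124) (nat_lit 2) (.e (nat_lit 196681) (nat_lit 17) .nil)))))) (.g (nat_lit 1) (.e (nat_lit 282345) (nat_lit 0) .nil) .nil)))) (.nd (nat_lit 9) 
(.lf (nat_lit 546159) (.g (nat_lit 2484) (.e (nat_lit 123183) (nat_lit 264) (.e (nat_lit 1183) (nat_lit 87) (.e (nat_lit 57480) (nat_lit 28) (.e (nat_lit 557107) (nat_lit 15) (.e (nat_lit 188447) (nat_lit 22) .nil))))) (.g (nat_lit 0) (.e (nat_lit 281249) (nat_lit 0) .nil) .nil))) 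
(.lf (nat_lit 546671) (.g (nat_lit 3096) (.e (nat_lit 270373) (nat_lit 16) (.e (nat_lit 286735) (nat_lit 3) (.e (nat_lit 98359) (nat_lit 26) (.e (nat_lit 426211) (nat_lit 9) (.e (nat_lit 426125) (nat_lit 2) (.e (nat_lit 204544) (nat_lit 18) (.e (nat_lit 2761) (nat_lit 176) .nil))))))) (.g (nat_lit 1) (.e (nat_lit 283784) (nat_lit 0) .nil) .nil))))) (.nd (nat_lit 8) (.nd (nat_lit 9) 
(.lf (nat_lit 546031) (.g (nat_lit 1450) (.e (nat_lit 122909) (nat_lit 12) (.e (nat_lit 336014) (nat_lit 2) (.e (nat_lit 90170) (nat_lit 13) (.e (nat_lit 172113) (nat_lit 10) .nil)))) (.g (nat_lit 0) (.e (nat_lit 280719) (nat_lit 0) .nil) .nil))) 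
(.lf (nat_lit 546543) (.g (nat_lit 3524) (.e (nat_lit 147495) (nat_lit 11) (.e (nat_lit 24601) (nat_lit 2) (.e (nat_lit 90170) (nat_lit 13) (.e (nat_lit 172106) (nat_lit 10) (.e (nat_lit 434244) (nat_lit 28) (.e (nat_lit 573458) (nat_lit 9) (.e (nat_lit 1310) (nat_lit 98) .nil))))))) (.g (nat_lit 1) (.e (nat_lit 283187) (nat_lit 0) .nil) .nil)))) (.nd (nat_lit 9) 
(.lf (nat_lit 546287) (.g (nat_lit 3112) (.e (nat_lit 131105) (nat_lit 9) (.e (nat_lit 336019) (nat_lit 3) (.e (nat_lit 98350) (nat_lit 24) (.e (nat_lit 409645) (nat_lit 18) (.e (nat_lit 303117) (nat_lit 2) .nil))))) (.g (nat_lit 0) (.e (nat_lit 281910) (nat_lit 0) .nil) .nil))) 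
(.lf (nat_lit 546799) (.g (nat_lit 3329) (.e (nat_lit 303104) (nat_lit 0) (.e (nat_lit 3238) (nat_lit 197) (.e (nat_lit 532535) (nat_lit 9) (.e (nat_lit 336163) (nat_lit 10) (.e (nat_lit 344119) (nat_lit 21) .nil))))) (.g (nat_lit 0) (.e (nat_lit 284074) (nat_lit 0) .nil) .nil)))))))) (.nd (nat_lit 5) (.nd (nat_lit 6) (.nd (nat_lit 7) (.nd (nat_lit 8) (.nd (nat_lit 9) 
(.lf (nat_lit 545823) (.g (nat_lit 2794) (.e (nat_lit 114719) (nat_lit 23) (.e (nat_lit 98350) (nat_lit 24) (.e (nat_lit 409617) (nat_lit 10) (.e (nat_lit 632) (nat_lit 50) (.e (nat_lit 573489) (nat_lit 14) (.e (nat_lit 81664) (nat_lit 5) (.e (nat_lit 532513) (nat_lit 3) .nil))))))) (.g (nat_lit 1) (.e (nat_lit 280374) (nat_lit 0) .nil) .nil))) 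
(.lf (nat_lit 546335) (.g (nat_lit 1201) (.e (nat_lit 131107) (nat_lit 9) (.e (nat_lit 336456) (nat_lit 34) (.e (nat_lit 483365) (nat_lit 18) (.e (nat_lit 57931) (nat_lit 282) .nil)))) (.g (nat_lit 0) (.e (nat_lit 282024) (nat_lit 0) .nil) .nil)))) (.nd (nat_lit 9) 
(.lf (nat_lit 546079) (.g (nat_lit 2257) (.e (nat_lit 122936) (nat_lit 23) (.e (nat_lit 516117) (nat_lit 1) (.e (nat_lit 164401) (nat_lit 256) (.e (nat_lit 57378) (nat_lit 3) (.e (nat_lit 98366) (nat_lit 27) .nil))))) (.g (nat_lit 0) (.e (nat_lit 280803) (nat_lit 0) .nil) .nil))) 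
(.lf (nat_lit 546591) (.g (nat_lit 1837) (.e (nat_lit 147496) (nat_lit 11) (.e (nat_lit 24604) (nat_lit 2) (.e (nat_lit 90178) (nat_lit 15) (.e (nat_lit 188440) (nat_lit 20) .nil)))) (.g (nat_lit 0) (.e (nat_lit 283248) (nat_lit 0) .nil) .nil))))) (.nd (nat_lit 8) (.nd (nat_lit 9) 
(.lf (nat_lit 545951) (.g (nat_lit 1412) (.e (nat_lit 114719) (nat_lit 23) (.e (nat_lit 98384) (nat_lit 32) (.e (nat_lit 475177) (nat_lit 24) (.e (nat_lit 516117) (nat_lit 1) .nil)))) (.g (nat_lit 0) (.e (nat_lit 280603) (nat_lit 0) .nil) .nil))) 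
(.lf (nat_lit 546463) (.g (nat_lit 3084) (.e (nat_lit 131133) (nat_lit 15) (.e (nat_lit 3305) (nat_lit 202) (.e (nat_lit 573482) (nat_lit 13) (.e (nat_lit 65604) (nat_lit 9) (.e (nat_lit 336028) (nat_lit 3) (.e (nat_lit 98325) (nat_lit 17) (.e (nat_lit 7936) (nat_lit 409) .nil))))))) (.g (nat_lit 1) (.e (nat_lit 282523) (nat_lit 0) .nil) .nil)))) (.nd (nat_lit 9) 
(.lf (nat_lit 546207) (.g (nat_lit 2517) (.e (nat_lit 123198) (nat_lit 266) (.e (nat_lit 57435) (nat_lit 17) (.e (nat_lit 376835) (nat_lit 0) (.e (nat_lit 3632) (nat_lit 227) (.e (nat_lit 778326) (nat_lit 6) (.e (nat_lit 81957) (nat_lit 24) .nil)))))) (.g (nat_lit 1) (.e (nat_lit 281331) (nat_lit 0) .nil) .nil))) 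
(.lf (nat_lit 546719) (.g (nat_lit 198) (.e (nat_lit 278550) (nat_lit 10) (.e (nat_lit 5412) (nat_lit 303) (.e (nat_lit 73766) (nat_lit 19) .nil))) (.g (nat_lit 0) (.e (nat_lit 283870) (nat_lit 0) .nil) .nil)))))) (.nd (nat_lit 7) (.nd (nat_lit 8) (.nd (nat_lit 9) 
(.lf (nat_lit 545887) (.g (nat_lit 3028) (.e (nat_lit 114719) (nat_lit 23) (.e (nat_lit 98366) (nat_lit 27) (.e (nat_lit 434231) (nat_lit 23) (.e (nat_lit 532502) (nat_lit 1) (.e (nat_lit 57688) (nat_lit 156) (.e (nat_lit 163875) (nat_lit 3) (.e (nat_lit 204837) (nat_lit 20) .nil))))))) (.g (nat_lit 1) (.e (nat_lit 280493) (nat_lit 0) .nil) .nil))) 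
(.lf (nat_lit 546399) (.g (nat_lit 856) (.e (nat_lit 131121) (nat_lit 12) (.e (nat_lit 385074) (nat_lit 31) (.e (nat_lit 573484) (nat_lit 13) .nil))) (.g (nat_lit 0) (.e (nat_lit 282282) (nat_lit 0) .nil) .nil)))) (.nd (nat_lit 9) 
(.lf (nat_lit 546143) (.g (nat_lit 2909) (.e (nat_lit 123168) (nat_lit 256) (.e (nat_lit 3085) (nat_lit 191) (.e (nat_lit 483413) (nat_lit 27) (.e (nat_lit 401448) (nat_lit 10) (.e (nat_lit 434209) (nat_lit 18) .nil))))) (.g (nat_lit 0) (.e (nat_lit 281220) (nat_lit 0) .nil) .nil))) 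
(.lf (nat_lit 546655) (.g (nat_lit 984) (.e (nat_lit 163584) (nat_lit 6) (.e (nat_lit 188440) (nat_lit 20) (.e (nat_lit 3408) (nat_lit 212) (.e (nat_lit 655380) (nat_lit 6) (.e (nat_lit 196352) (nat_lit 8) .nil))))) (.g (nat_lit 0) (.e (nat_lit 283703) (nat_lit 0) .nil) .nil))))) (.nd (nat_lit 8) (.nd (nat_lit 9) 
(.lf (nat_lit 546015) (.g (nat_lit 5028) (.e (nat_lit 122904) (nat_lit 12) (.e (nat_lit 336019) (nat_lit 3) (.e (nat_lit 98373) (nat_lit 29) (.e (nat_lit 450588) (nat_lit 10) (.e (nat_lit 573473) (nat_lit 12) .nil))))) (.g (nat_lit 0) (.e (nat_lit 280703) (nat_lit 0) .nil) .nil))) 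
(.lf (nat_lit 546527) (.g (nat_lit 3185) (.e (nat_lit 147492) (nat_lit 11) (.e (nat_lit 24607) (nat_lit 3) (.e (nat_lit 98373) (nat_lit 29) (.e (nat_lit 450587) (nat_lit 10) (.e (nat_lit 573454) (nat_lit 9) (.e (nat_lit 1315) (nat_lit 98) .nil)))))) (.g (nat_lit 1) (.e (nat_lit 283131) (nat_lit 0) .nil) .nil)))) (.nd (nat_lit 9) 
(.lf (nat_lit 546271) (.g (nat_lit 4078) (.e (nat_lit 131098) (nat_lit 3) (.e (nat_lit 98334) (nat_lit 18) (.e (nat_lit 164183) (nat_lit 154) (.e (nat_lit 57378) (nat_lit 3) (.e (nat_lit 98342) (nat_lit 20) (.e (nat_lit 221212) (nat_lit 22) (.e (nat_lit 196681) (nat_lit 17) .nil))))))) (.g (nat_lit 1) (.e (nat_lit 281869) (nat_lit 0) .nil) .nil))) 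
(.lf (nat_lit 546783) (.g (nat_lit 3436) (.e (nat_lit 278547) (nat_lit 8) (.e (nat_lit 303119) (nat_lit 3) (.e (nat_lit 204869) (nat_lit 29) (.e (nat_lit 360464) (nat_lit 2) .nil)))) (.g (nat_lit 0) (.e (nat_lit 284034) (nat_lit 0) .nil) .nil))))))) (.nd (nat_lit 6) (.nd (nat_lit 7) (.nd (nat_lit 8) (.nd (nat_lit 9) 
(.lf (nat_lit 545855) (.g (nat_lit 2572) (.e (nat_lit 114719) (nat_lit 23) (.e (nat_lit 98365) (nat_lit 26) (.e (nat_lit 426139) (nat_lit 3) (.e (nat_lit 204830) (nat_lit 18) (.e (nat_lit 57689) (nat_lit 156) .nil))))) (.g (nat_lit 0) (.e (nat_lit 280423) (nat_lit 0) .nil) .nil))) 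
(.lf (nat_lit 546367) (.g (nat_lit 2348) (.e (nat_lit 131109) (nat_lit 9) (.e (nat_lit 336454) (nat_lit 34) (.e (nat_lit 483363) (nat_lit 18) (.e (nat_lit 57929) (nat_lit 282) (.e (nat_lit 163869) (nat_lit 2) .nil))))) (.g (nat_lit 0) (.e (nat_lit 282179) (nat_lit 0) .nil) .nil)))) (.nd (nat_lit 9) 
(.lf (nat_lit 546111) (.g (nat_lit 2095) (.e (nat_lit 123002) (nat_lit 86) (.e (nat_lit 532535) (nat_lit 9) (.e (nat_lit 336099) (nat_lit 9) (.e (nat_lit 336028) (nat_lit 3) .nil)))) (.g (nat_lit 0) (.e (nat_lit 280930) (nat_lit 0) .nil) .nil))) 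
(.lf (nat_lit 546623) (.g (nat_lit 1753) (.e (nat_lit 163584) (nat_lit 3) (.e (nat_lit 163977) (nat_lit 30) (.e (nat_lit 573485) (nat_lit 13) (.e (nat_lit 65619) (nat_lit 10) (.e (nat_lit 344117) (nat_lit 21) .nil))))) (.g (nat_lit 0) (.e (nat_lit 283475) (nat_lit 0) .nil) .nil))))) (.nd (nat_lit 8) (.nd (nat_lit 9) 
(.lf (nat_lit 545983) (.g (nat_lit 1748) (.e (nat_lit 114719) (nat_lit 23) (.e (nat_lit 98386) (nat_lit 32) (.e (nat_lit 475179) (nat_lit 24) (.e (nat_lit 516120) (nat_lit 1) .nil)))) (.g (nat_lit 0) (.e (nat_lit 280639) (nat_lit 0) .nil) .nil))) 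
(.lf (nat_lit 546495) (.g (nat_lit 1117) (.e (nat_lit 139008) (nat_lit 29) (.e (nat_lit 442374) (nat_lit 0) (.e (nat_lit 2175) (nat_lit 143) (.e (nat_lit 712747) (nat_lit 28) (.e (nat_lit 442112) (nat_lit 7) .nil))))) (.g (nat_lit 0) (.e (nat_lit 282777) (nat_lit 0) .nil) .nil)))) (.nd (nat_lit 9) 
(.lf (nat_lit 546239) (.g (nat_lit 3415) (.e (nat_lit 131093) (nat_lit 2) (.e (nat_lit 90170) (nat_lit 13) (.e (nat_lit 172106) (nat_lit 10) (.e (nat_lit 434231) (nat_lit 23) (.e (nat_lit 532491) (nat_lit 0) .nil))))) (.g (nat_lit 0) (.e (nat_lit 281697) (nat_lit 0) .nil) .nil))) 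
(.lf (nat_lit 546751) (.g (nat_lit 5362) (.e (nat_lit 278566) (nat_lit 16) (.e (nat_lit 286761) (nat_lit 13) (.e (nat_lit 393301) (nat_lit 27) (.e (nat_lit 491532) (nat_lit 1) .nil)))) (.g (nat_lit 0) (.e (nat_lit 283944) (nat_lit 0) .nil) .nil)))))) (.nd (nat_lit 7) (.nd (nat_lit 8) (.nd (nat_lit 9) 
(.lf (nat_lit 545919) (.g (nat_lit 3329) (.e (nat_lit 114719) (nat_lit 23) (.e (nat_lit 98367) (nat_lit 27) (.e (nat_lit 434231) (nat_lit 23) (.e (nat_lit 532500) (nat_lit 1) (.e (nat_lit 57690) (nat_lit 156) (.e (nat_lit 163875) (nat_lit 3) (.e (nat_lit 204836) (nat_lit 20) .nil))))))) (.g (nat_lit 1) (.e (nat_lit 280564) (nat_lit 0) .nil) .nil))) 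
(.lf (nat_lit 546431) (.g (nat_lit 3550) (.e (nat_lit 131125) (nat_lit 13) (.e (nat_lit 393225) (nat_lit 9) (.e (nat_lit 335986) (nat_lit 1) (.e (nat_lit 57931) (nat_lit 282) (.e (nat_lit 163869) (nat_lit 2) (.e (nat_lit 196681) (nat_lit 17) .nil)))))) (.g (nat_lit 1) (.e (nat_lit 282386) (nat_lit 0) .nil) .nil)))) (.nd (nat_lit 9) 
(.lf (nat_lit 546175) (.g (nat_lit 3163) (.e (nat_lit 123195) (nat_lit 266) (.e (nat_lit 57346) (nat_lit 0) (.e (nat_lit 6203) (nat_lit 332) (.e (nat_lit 2798) (nat_lit 180) (.e (nat_lit 303145) (nat_lit 13) (.e (nat_lit 483387) (nat_lit 23) (.e (nat_lit 336032) (nat_lit 4) .nil))))))) (.g (nat_lit 1) (.e (nat_lit 281276) (nat_lit 0) .nil) .nil))) 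
(.lf (nat_lit 546687) (.g (nat_lit 1215) (.e (nat_lit 270373) (nat_lit 16) (.e (nat_lit 286755) (nat_lit 10) (.e (nat_lit 344156) (nat_lit 36) (.e (nat_lit 638998) (nat_lit 8) (.e (nat_lit 172082) (nat_lit 7) .nil))))) (.g (nat_lit 0) (.e (nat_lit 283805) (nat_lit 0) .nil) .nil))))) (.nd (nat_lit 8) (.nd (nat_lit 9) 
(.lf (nat_lit 546047) (.g (nat_lit 2160) (.e (nat_lit 122913) (nat_lit 13) (.e (nat_lit 344133) (nat_lit 26) (.e (nat_lit 557091) (nat_lit 12) (.e (nat_lit 163987) (nat_lit 33) .nil)))) (.g (nat_lit 0) (.e (nat_lit 280742) (nat_lit 0) .nil) .nil))) 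
(.lf (nat_lit 546559) (.g (nat_lit 2101) (.e (nat_lit 147495) (nat_lit 11) (.e (nat_lit 24608) (nat_lit 3) (.e (nat_lit 98373) (nat_lit 29) (.e (nat_lit 450586) (nat_lit 10) .nil)))) (.g (nat_lit 0) (.e (nat_lit 283204) (nat_lit 0) .nil) .nil)))) (.nd (nat_lit 9) 
(.lf (nat_lit 546303) (.g (nat_lit 3855) (.e (nat_lit 131105) (nat_lit 9) (.e (nat_lit 336324) (nat_lit 18) (.e (nat_lit 204838) (nat_lit 20) (.e (nat_lit 114698) (nat_lit 11) (.e (nat_lit 426124) (nat_lit 2) (.e (nat_lit 196681) (nat_lit 17) .nil)))))) (.g (nat_lit 1) (.e (nat_lit 281944) (nat_lit 0) .nil) .nil))) 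
(.lf (nat_lit 546815) (.g (nat_lit 3048) (.e (nat_lit 303106) (nat_lit 0) (.e (nat_lit 3114) (nat_lit 193) (.e (nat_lit 500074) (nat_lit 20) (.e (nat_lit 81953) (nat_lit 22) (.e (nat_lit 90130) (nat_lit 9) (.e (nat_lit 2830) (nat_lit 182) (.e (nat_lit 417536) (nat_lit 18) .nil))))))) (.g (nat_lit 1) (.e (nat_lit 284111) (nat_lit 0) .nil) .nil)))))))))))))

noncomputable def tv5594 : DT := (.nd (nat_lit 0) (.nd (nat_lit 1) (.nd (nat_lit 2) (.nd (nat_lit 3) (.nd (nat_lit 4) (.nd (nat_lit 5) (.nd (nat_lit 6) (.nd (nat_lit 7) (.nd (nat_lit 8) (.nd (nat_lit 9) 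
(.lf (nat_lit 546816) (.g (nat_lit 3658) (.e (nat_lit 303106) (nat_lit 0) (.e (nat_lit 3114) (nat_lit 193) (.e (nat_lit 500074) (nat_lit 20) (.e (nat_lit 81956) (nat_lit 23) (.e (nat_lit 98353) (nat_lit 25) (.e (nat_lit 417828) (nat_lit 18) .nil)))))) (.g (nat_lit 1) (.e (nat_lit 284112) (nat_lit 0) .nil) .nil))) 
(.lf (nat_lit 547328) (.g (nat_lit 925) (.e (nat_lit 303119) (nat_lit 3) (.e (nat_lit 204846) (nat_lit 24) (.e (nat_lit 319494) (nat_lit 0) .nil))) (.g (nat_lit 0) (.e (nat_lit 284948) (nat_lit 0) .nil) .nil)))) (.nd (nat_lit 9) 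
(.lf (nat_lit 547072) (.g (nat_lit 3145) (.e (nat_lit 303117) (nat_lit 2) (.e (nat_lit 196666) (nat_lit 13) (.e (nat_lit 65610) (nat_lit 10) (.e (nat_lit 344129) (nat_lit 26) (.e (nat_lit 557067) (nat_lit 9) (.e (nat_lit 22) (nat_lit 0) (.e (nat_lit 6082) (nat_lit 332) (.e (nat_lit 2809) (nat_lit 180) .nil)))))))) (.g (nat_lit 1) (.e (nat_lit 284580) (nat_lit 0) .nil) .nil))) 
(.lf (nat_lit 547584) (.g (nat_lit 812) (.e (nat_lit 303124) (nat_lit 7) (.e (nat_lit 409649) (nat_lit 18) (.e (nat_lit 303132) (nat_lit 9) .nil))) (.g (nat_lit 0) (.e (nat_lit 285544) (nat_lit 0) .nil) .nil))))) (.nd (nat_lit 8) (.nd (nat_lit 9) 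
(.lf (nat_lit 546944) (.g (nat_lit 2699) (.e (nat_lit 303116) (nat_lit 2) (.e (nat_lit 196666) (nat_lit 13) (.e (nat_lit 65610) (nat_lit 10) (.e (nat_lit 344129) (nat_lit 26) (.e (nat_lit 557067) (nat_lit 9) .nil))))) (.g (nat_lit 0) (.e (nat_lit 284415) (nat_lit 0) .nil) .nil))) 
(.lf (nat_lit 547456) (.g (nat_lit 2236) (.e (nat_lit 303119) (nat_lit 3) (.e (nat_lit 204867) (nat_lit 28) (.e (nat_lit 352313) (nat_lit 23) (.e (nat_lit 98323) (nat_lit 17) (.e (nat_lit 6989) (nat_lit 377) (.e (nat_lit 2810) (nat_lit 180) .nil)))))) (.g (nat_lit 1) (.e (nat_lit 285173) (nat_lit 0) .nil) .nil)))) (.nd (nat_lit 9) 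
(.lf (nat_lit 547200) (.g (nat_lit 1826) (.e (nat_lit 303118) (nat_lit 3) (.e (nat_lit 204846) (nat_lit 24) (.e (nat_lit 319532) (nat_lit 16) (.e (nat_lit 286735) (nat_lit 3) (.e (nat_lit 98350) (nat_lit 24) .nil))))) (.g (nat_lit 0) (.e (nat_lit 284732) (nat_lit 0) .nil) .nil))) 
(.lf (nat_lit 547712) (.g (nat_lit 2217) (.e (nat_lit 303142) (nat_lit 12) (.e (nat_lit 475185) (nat_lit 29) (.e (nat_lit 557109) (nat_lit 15) (.e (nat_lit 188434) (nat_lit 20) (.e (nat_lit 3205) (nat_lit 194) (.e (nat_lit 507946) (nat_lit 18) .nil)))))) (.g (nat_lit 1) (.e (nat_lit 286636) (nat_lit 0) .nil) .nil)))))) (.nd (nat_lit 7) (.nd (nat_lit 8) (.nd (nat_lit 9) 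
(.lf (nat_lit 546880) (.g (nat_lit 2344) (.e (nat_lit 303112) (nat_lit 0) (.e (nat_lit 3252) (nat_lit 197) (.e (nat_lit 532560) (nat_lit 14) (.e (nat_lit 376868) (nat_lit 23) (.e (nat_lit 98350) (nat_lit 24) (.e (nat_lit 417536) (nat_lit 18) .nil)))))) (.g (nat_lit 1) (.e (nat_lit 284219) (nat_lit 0) .nil) .nil))) 
(.lf (nat_lit 547392) (.g (nat_lit 1840) (.e (nat_lit 303119) (nat_lit 3) (.e (nat_lit 204852) (nat_lit 26) (.e (nat_lit 336147) (nat_lit 9) (.e (nat_lit 336027) (nat_lit 3) (.e (nat_lit 98350) (nat_lit 24) .nil))))) (.g (nat_lit 0) (.e (nat_lit 285045) (nat_lit 0) .nil) .nil)))) (.nd (nat_lit 9) 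
(.lf (nat_lit 547136) (.g (nat_lit 2885) (.e (nat_lit 303117) (nat_lit 2) (.e (nat_lit 196673) (nat_lit 15) (.e (nat_lit 81956) (nat_lit 23) (.e (nat_lit 98328) (nat_lit 17) .nil)))) (.g (nat_lit 0) (.e (nat_lit 284656) (nat_lit 0) .nil) .nil))) 
(.lf (nat_lit 547648) (.g (nat_lit 1845) (.e (nat_lit 303135) (nat_lit 10) (.e (nat_lit 434275) (nat_lit 39) (.e (nat_lit 663574) (nat_lit 9) (.e (nat_lit 2466) (nat_lit 157) .nil)))) (.g (nat_lit 0) (.e (nat_lit 286083) (nat_lit 0) .nil) .nil))))) (.nd (nat_lit 8) (.nd (nat_lit 9) 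
(.lf (nat_lit 547008) (.g (nat_lit 2896) (.e (nat_lit 303117) (nat_lit 2) (.e (nat_lit 196666) (nat_lit 13) (.e (nat_lit 65596) (nat_lit 9) (.e (nat_lit 336013) (nat_lit 2) (.e (nat_lit 90165) (nat_lit 12) (.e (nat_lit 164210) (nat_lit 176) (.e (nat_lit 7936) (nat_lit 180) .nil))))))) (.g (nat_lit 1) (.e (nat_lit 284510) (nat_lit 0) .nil) .nil))) 
(.lf (nat_lit 547520) (.g (nat_lit 1784) (.e (nat_lit 303119) (nat_lit 3) (.e (nat_lit 204869) (nat_lit 29) (.e (nat_lit 360475) (nat_lit 8) (.e (nat_lit 557071) (nat_lit 9) .nil)))) (.g (nat_lit 0) (.e (nat_lit 285351) (nat_lit 0) .nil) .nil)))) (.nd (nat_lit 9) 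
(.lf (nat_lit 547264) (.g (nat_lit 2346) (.e (nat_lit 303118) (nat_lit 3) (.e (nat_lit 204869) (nat_lit 29) (.e (nat_lit 360450) (nat_lit 0) (.e (nat_lit 4153) (nat_lit 249) .nil)))) (.g (nat_lit 0) (.e (nat_lit 284850) (nat_lit 0) .nil) .nil))) 
(.lf (nat_lit 547776) (.g (nat_lit 2761) (.e (nat_lit 303143) (nat_lit 12) (.e (nat_lit 475185) (nat_lit 29) (.e (nat_lit 557100) (nat_lit 13) (.e (nat_lit 172116) (nat_lit 10) .nil)))) (.g (nat_lit 0) (.e (nat_lit 286764) (nat_lit 0) .nil) .nil))))))) (.nd (nat_lit 6) (.nd (nat_lit 7) (.nd (nat_lit 8) (.nd (nat_lit 9) 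
(.lf (nat_lit 546848) (.g (nat_lit 2650) (.e (nat_lit 303109) (nat_lit 0) (.e (nat_lit 3238) (nat_lit 197) (.e (nat_lit 532535) (nat_lit 9) (.e (nat_lit 336099) (nat_lit 9) .nil)))) (.g (nat_lit 0) (.e (nat_lit 284168) (nat_lit 0) .nil) .nil))) 
(.lf (nat_lit 547360) (.g (nat_lit 3358) (.e (nat_lit 303119) (nat_lit 3) (.e (nat_lit 204846) (nat_lit 24) (.e (nat_lit 319533) (nat_lit 16) (.e (nat_lit 286734) (nat_lit 3) (.e (nat_lit 98350) (nat_lit 24) (.e (nat_lit 417536) (nat_lit 8) .nil)))))) (.g (nat_lit 1) (.e (nat_lit 285007) (nat_lit 0) .nil) .nil)))) (.nd (nat_lit 9) 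
(.lf (nat_lit 547104) (.g (nat_lit 1067) (.e (nat_lit 303117) (nat_lit 2) (.e (nat_lit 196672) (nat_lit 15) (.e (nat_lit 81953) (nat_lit 22) (.e (nat_lit 90165) (nat_lit 12) .nil)))) (.g (nat_lit 0) (.e (nat_lit 284620) (nat_lit 0) .nil) .nil))) 
(.lf (nat_lit 547616) (.g (nat_lit 1374) (.e (nat_lit 303133) (nat_lit 9) (.e (nat_lit 426412) (nat_lit 15) (.e (nat_lit 1856) (nat_lit 124) (.e (nat_lit 557109) (nat_lit 15) .nil)))) (.g (nat_lit 0) (.e (nat_lit 285803) (nat_lit 0) .nil) .nil))))) (.nd (nat_lit 8) (.nd (nat_lit 9) 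
(.lf (nat_lit 546976) (.g (nat_lit 2835) (.e (nat_lit 303116) (nat_lit 2) (.e (nat_lit 196674) (nat_lit 15) (.e (nat_lit 81956) (nat_lit 23) (.e (nat_lit 98353) (nat_lit 25) (.e (nat_lit 417828) (nat_lit 18) .nil))))) (.g (nat_lit 0) (.e (nat_lit 284450) (nat_lit 0) .nil) .nil))) 
(.lf (nat_lit 547488) (.g (nat_lit 2877) (.e (nat_lit 303119) (nat_lit 3) (.e (nat_lit 204868) (nat_lit 29) (.e (nat_lit 360475) (nat_lit 8) (.e (nat_lit 557084) (nat_lit 10) .nil)))) (.g (nat_lit 0) (.e (nat_lit 285211) (nat_lit 0) .nil) .nil)))) (.nd (nat_lit 9) 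
(.lf (nat_lit 547232) (.g (nat_lit 555) (.e (nat_lit 303118) (nat_lit 3) (.e (nat_lit 204862) (nat_lit 27) (.e (nat_lit 344073) (nat_lit 8) .nil))) (.g (nat_lit 0) (.e (nat_lit 284797) (nat_lit 0) .nil) .nil))) 
(.lf (nat_lit 547744) (.g (nat_lit 2726) (.e (nat_lit 303143) (nat_lit 12) (.e (nat_lit 475185) (nat_lit 29) (.e (nat_lit 557100) (nat_lit 13) (.e (nat_lit 172100) (nat_lit 9) .nil)))) (.g (nat_lit 0) (.e (nat_lit 286727) (nat_lit 0) .nil) .nil)))))) (.nd (nat_lit 7) (.nd (nat_lit 8) (.nd (nat_lit 9) 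
(.lf (nat_lit 546912) (.g (nat_lit 1925) (.e (nat_lit 303111) (nat_lit 0) (.e (nat_lit 3469) (nat_lit 217) (.e (nat_lit 696344) (nat_lit 8) (.e (nat_lit 172123) (nat_lit 13) (.e (nat_lit 483372) (nat_lit 21) .nil))))) (.g (nat_lit 0) (.e (nat_lit 284315) (nat_lit 0) .nil) .nil))) 
(.lf (nat_lit 547424) (.g (nat_lit 1396) (.e (nat_lit 303119) (nat_lit 3) (.e (nat_lit 204855) (nat_lit 26) (.e (nat_lit 336176) (nat_lit 10) (.e (nat_lit 344120) (nat_lit 21) .nil)))) (.g (nat_lit 0) (.e (nat_lit 285099) (nat_lit 0) .nil) .nil)))) (.nd (nat_lit 9) 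
(.lf (nat_lit 547168) (.g (nat_lit 3848) (.e (nat_lit 303117) (nat_lit 2) (.e (nat_lit 196674) (nat_lit 15) (.e (nat_lit 81956) (nat_lit 23) (.e (nat_lit 98350) (nat_lit 24) (.e (nat_lit 409643) (nat_lit 18) .nil))))) (.g (nat_lit 1) (.e (nat_lit 284691) (nat_lit 0) .nil) .nil))) 
(.lf (nat_lit 547680) (.g (nat_lit 657) (.e (nat_lit 303138) (nat_lit 10) (.e (nat_lit 434272) (nat_lit 38) (.e (nat_lit 663296) (nat_lit 14) .nil))) (.g (nat_lit 0) (.e (nat_lit 286378) (nat_lit 0) .nil) .nil))))) (.nd (nat_lit 8) (.nd (nat_lit 9) 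
(.lf (nat_lit 547040) (.g (nat_lit 3316) (.e (nat_lit 303117) (nat_lit 2) (.e (nat_lit 196666) (nat_lit 13) (.e (nat_lit 65610) (nat_lit 10) (.e (nat_lit 344117) (nat_lit 21) (.e (nat_lit 516106) (nat_lit 0) (.e (nat_lit 6966) (nat_lit 377) (.e (nat_lit 2795) (nat_lit 180) .nil))))))) (.g (nat_lit 1) (.e (nat_lit 284547) (nat_lit 0) .nil) .nil))) 
(.lf (nat_lit 547552) (.g (nat_lit 3401) (.e (nat_lit 303119) (nat_lit 3) (.e (nat_lit 204884) (nat_lit 33) (.e (nat_lit 401448) (nat_lit 10) (.e (nat_lit 434231) (nat_lit 23) (.e (nat_lit 532490) (nat_lit 0) (.e (nat_lit 6114) (nat_lit 332) (.e (nat_lit 1378) (nat_lit 104) .nil))))))) (.g (nat_lit 1) (.e (nat_lit 285397) (nat_lit 0) .nil) .nil)))) (.nd (nat_lit 9) 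
(.lf (nat_lit 547296) (.g (nat_lit 1154) (.e (nat_lit 303118) (nat_lit 3) (.e (nat_lit 204877) (nat_lit 31) (.e (nat_lit 376862) (nat_lit 22) (.e (nat_lit 90130) (nat_lit 9) .nil)))) (.g (nat_lit 0) (.e (nat_lit 284889) (nat_lit 0) .nil) .nil))) 
(.lf (nat_lit 547808) (.g (nat_lit 1713) (.e (nat_lit 303143) (nat_lit 12) (.e (nat_lit 475185) (nat_lit 29) (.e (nat_lit 557107) (nat_lit 15) (.e (nat_lit 188458) (nat_lit 25) .nil)))) (.g (nat_lit 0) (.e (nat_lit 286805) (nat_lit 0) .nil) .nil)))))))) (.nd (nat_lit 5) (.nd (nat_lit 6) (.nd (nat_lit 7) (.nd (nat_lit 8) (.nd (nat_lit 9) 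
(.lf (nat_lit 546832) (.g (nat_lit 1791) (.e (nat_lit 303107) (nat_lit 0) (.e (nat_lit 3238) (nat_lit 197) (.e (nat_lit 532549) (nat_lit 12) (.e (nat_lit 360468) (nat_lit 3) (.e (nat_lit 516139) (nat_lit 7) .nil))))) (.g (nat_lit 0) (.e (nat_lit 284138) (nat_lit 0) .nil) .nil))) 
(.lf (nat_lit 547344) (.g (nat_lit 1826) (.e (nat_lit 303119) (nat_lit 3) (.e (nat_lit 204846) (nat_lit 24) (.e (nat_lit 319529) (nat_lit 16) (.e (nat_lit 286735) (nat_lit 3) (.e (nat_lit 98349) (nat_lit 24) .nil))))) (.g (nat_lit 0) (.e (nat_lit 284989) (nat_lit 0) .nil) .nil)))) (.nd (nat_lit 9) 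
(.lf (nat_lit 547088) (.g (nat_lit 579) (.e (nat_lit 303117) (nat_lit 2) (.e (nat_lit 196668) (nat_lit 14) (.e (nat_lit 73785) (nat_lit 40) .nil))) (.g (nat_lit 0) (.e (nat_lit 284599) (nat_lit 0) .nil) .nil))) 
(.lf (nat_lit 547600) (.g (nat_lit 617) (.e (nat_lit 303130) (nat_lit 9) (.e (nat_lit 426412) (nat_lit 15) (.e (nat_lit 1856) (nat_lit 124) .nil))) (.g (nat_lit 0) (.e (nat_lit 285659) (nat_lit 0) .nil) .nil))))) (.nd (nat_lit 8) (.nd (nat_lit 9) 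
(.lf (nat_lit 546960) (.g (nat_lit 1010) (.e (nat_lit 303116) (nat_lit 2) (.e (nat_lit 196672) (nat_lit 15) (.e (nat_lit 81943) (nat_lit 20) (.e (nat_lit 1798) (nat_lit 119) .nil)))) (.g (nat_lit 0) (.e (nat_lit 284434) (nat_lit 0) .nil) .nil))) 
(.lf (nat_lit 547472) (.g (nat_lit 1565) (.e (nat_lit 303119) (nat_lit 3) (.e (nat_lit 204868) (nat_lit 29) (.e (nat_lit 360466) (nat_lit 3) (.e (nat_lit 516140) (nat_lit 8) .nil)))) (.g (nat_lit 0) (.e (nat_lit 285193) (nat_lit 0) .nil) .nil)))) (.nd (nat_lit 9) 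
(.lf (nat_lit 547216) (.g (nat_lit 3364) (.e (nat_lit 303118) (nat_lit 3) (.e (nat_lit 204855) (nat_lit 26) (.e (nat_lit 336099) (nat_lit 9) (.e (nat_lit 336028) (nat_lit 3) (.e (nat_lit 98349) (nat_lit 24) (.e (nat_lit 417536) (nat_lit 18) .nil)))))) (.g (nat_lit 1) (.e (nat_lit 284768) (nat_lit 0) .nil) .nil))) 
(.lf (nat_lit 547728) (.g (nat_lit 2497) (.e (nat_lit 303142) (nat_lit 12) (.e (nat_lit 475219) (nat_lit 44) (.e (nat_lit 737318) (nat_lit 15) (.e (nat_lit 49187) (nat_lit 11) (.e (nat_lit 16425) (nat_lit 7) (.e (nat_lit 409648) (nat_lit 18) .nil)))))) (.g (nat_lit 1) (.e (nat_lit 286665) (nat_lit 0) .nil) .nil)))))) (.nd (nat_lit 7) (.nd (nat_lit 8) (.nd (nat_lit 9) 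
(.lf (nat_lit 546896) (.g (nat_lit 2352) (.e (nat_lit 303111) (nat_lit 0) (.e (nat_lit 3238) (nat_lit 197) (.e (nat_lit 532535) (nat_lit 9) (.e (nat_lit 336111) (nat_lit 9) .nil)))) (.g (nat_lit 0) (.e (nat_lit 284269) (nat_lit 0) .nil) .nil))) 
(.lf (nat_lit 547408) (.g (nat_lit 3372) (.e (nat_lit 303119) (nat_lit 3) (.e (nat_lit 204855) (nat_lit 26) (.e (nat_lit 336099) (nat_lit 9) (.e (nat_lit 336013) (nat_lit 2) (.e (nat_lit 90161) (nat_lit 12) .nil))))) (.g (nat_lit 0) (.e (nat_lit 285077) (nat_lit 0) .nil) .nil)))) (.nd (nat_lit 9) 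
(.lf (nat_lit 547152) (.g (nat_lit 3439) (.e (nat_lit 303117) (nat_lit 2) (.e (nat_lit 196674) (nat_lit 15) (.e (nat_lit 81953) (nat_lit 22) (.e (nat_lit 90161) (nat_lit 12) .nil)))) (.g (nat_lit 0) (.e (nat_lit 284675) (nat_lit 0) .nil) .nil))) 
(.lf (nat_lit 547664) (.g (nat_lit 1862) (.e (nat_lit 303137) (nat_lit 10) (.e (nat_lit 434268) (nat_lit 36) (.e (nat_lit 639020) (nat_lit 16) (.e (nat_lit 65586) (nat_lit 7) (.e (nat_lit 319526) (nat_lit 15) (.e (nat_lit 278546) (nat_lit 8) .nil)))))) (.g (nat_lit 1) (.e (nat_lit 286273) (nat_lit 0) .nil) .nil))))) (.nd (nat_lit 8) (.nd (nat_lit 9) 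
(.lf (nat_lit 547024) (.g (nat_lit 4257) (.e (nat_lit 303117) (nat_lit 2) (.e (nat_lit 196666) (nat_lit 13) (.e (nat_lit 65610) (nat_lit 10) (.e (nat_lit 344117) (nat_lit 21) (.e (nat_lit 516097) (nat_lit 0) (.e (nat_lit 7073) (nat_lit 377) (.e (nat_lit 2808) (nat_lit 180) .nil))))))) (.g (nat_lit 1) (.e (nat_lit 284531) (nat_lit 0) .nil) .nil))) 
(.lf (nat_lit 547536) (.g (nat_lit 1322) (.e (nat_lit 303119) (nat_lit 3) (.e (nat_lit 204870) (nat_lit 29) (.e (nat_lit 360467) (nat_lit 3) (.e (nat_lit 516138) (nat_lit 7) (.e (nat_lit 409643) (nat_lit 18) .nil))))) (.g (nat_lit 0) (.e (nat_lit 285375) (nat_lit 0) .nil) .nil)))) (.nd (nat_lit 9) 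
(.lf (nat_lit 547280) (.g (nat_lit 2542) (.e (nat_lit 303118) (nat_lit 3) (.e (nat_lit 204869) (nat_lit 29) (.e (nat_lit 360468) (nat_lit 3) (.e (nat_lit 516139) (nat_lit 7) (.e (nat_lit 417536) (nat_lit 18) .nil))))) (.g (nat_lit 1) (.e (nat_lit 284870) (nat_lit 0) .nil) .nil))) 
(.lf (nat_lit 547792) (.g (nat_lit 2496) (.e (nat_lit 303143) (nat_lit 12) (.e (nat_lit 475185) (nat_lit 29) (.e (nat_lit 557101) (nat_lit 13) (.e (nat_lit 172115) (nat_lit 10) (.e (nat_lit 434227) (nat_lit 20) (.e (nat_lit 515840) (nat_lit 18) .nil)))))) (.g (nat_lit 1) (.e (nat_lit 286783) (nat_lit 0) .nil) .nil))))))) (.nd (nat_lit 6) (.nd (nat_lit 7) (.nd (nat_lit 8) (.nd (nat_lit 9) 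
(.lf (nat_lit 546864) (.g (nat_lit 3178) (.e (nat_lit 303112) (nat_lit 0) (.e (nat_lit 3230) (nat_lit 197) (.e (nat_lit 532535) (nat_lit 9) (.e (nat_lit 336099) (nat_lit 9) (.e (nat_lit 336013) (nat_lit 2) .nil))))) (.g (nat_lit 0) (.e (nat_lit 284190) (nat_lit 0) .nil) .nil))) 
(.lf (nat_lit 547376) (.g (nat_lit 2170) (.e (nat_lit 303119) (nat_lit 3) (.e (nat_lit 204849) (nat_lit 25) (.e (nat_lit 327699) (nat_lit 8) (.e (nat_lit 303118) (nat_lit 3) (.e (nat_lit 204846) (nat_lit 24) (.e (nat_lit 327424) (nat_lit 8) .nil)))))) (.g (nat_lit 1) (.e (nat_lit 285024) (nat_lit 0) .nil) .nil)))) (.nd (nat_lit 9) 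
(.lf (nat_lit 547120) (.g (nat_lit 4541) (.e (nat_lit 303117) (nat_lit 2) (.e (nat_lit 196672) (nat_lit 15) (.e (nat_lit 81956) (nat_lit 23) (.e (nat_lit 98350) (nat_lit 24) (.e (nat_lit 409649) (nat_lit 18) .nil))))) (.g (nat_lit 1) (.e (nat_lit 284636) (nat_lit 0) .nil) .nil))) 
(.lf (nat_lit 547632) (.g (nat_lit 1082) (.e (nat_lit 303133) (nat_lit 9) (.e (nat_lit 426499) (nat_lit 27) (.e (nat_lit 336073) (nat_lit 9) (.e (nat_lit 336032) (nat_lit 4) .nil)))) (.g (nat_lit 0) (.e (nat_lit 285876) (nat_lit 0) .nil) .nil))))) (.nd (nat_lit 8) (.nd (nat_lit 9) 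
(.lf (nat_lit 546992) (.g (nat_lit 3549) (.e (nat_lit 303117) (nat_lit 2) (.e (nat_lit 196665) (nat_lit 13) (.e (nat_lit 65598) (nat_lit 9) (.e (nat_lit 336013) (nat_lit 2) (.e (nat_lit 90165) (nat_lit 12) (.e (nat_lit 164207) (nat_lit 176) (.e (nat_lit 2797) (nat_lit 180) .nil))))))) (.g (nat_lit 1) (.e (nat_lit 284487) (nat_lit 0) .nil) .nil))) 
(.lf (nat_lit 547504) (.g (nat_lit 3501) (.e (nat_lit 303119) (nat_lit 3) (.e (nat_lit 204869) (nat_lit 29) (.e (nat_lit 360474) (nat_lit 8) (.e (nat_lit 557068) (nat_lit 9) .nil)))) (.g (nat_lit 0) (.e (nat_lit 285292) (nat_lit 0) .nil) .nil)))) (.nd (nat_lit 9) 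
(.lf (nat_lit 547248) (.g (nat_lit 2653) (.e (nat_lit 303118) (nat_lit 3) (.e (nat_lit 204868) (nat_lit 29) (.e (nat_lit 360466) (nat_lit 3) (.e (nat_lit 516100) (nat_lit 0) (.e (nat_lit 7026) (nat_lit 377) (.e (nat_lit 2805) (nat_lit 180) .nil)))))) (.g (nat_lit 1) (.e (nat_lit 284834) (nat_lit 0) .nil) .nil))) 
(.lf (nat_lit 547760) (.g (nat_lit 2088) (.e (nat_lit 303143) (nat_lit 12) (.e (nat_lit 475185) (nat_lit 29) (.e (nat_lit 557100) (nat_lit 13) (.e (nat_lit 172106) (nat_lit 10) (.e (nat_lit 442112) (nat_lit 19) .nil))))) (.g (nat_lit 0) (.e (nat_lit 286746) (nat_lit 0) .nil) .nil)))))) (.nd (nat_lit 7) (.nd (nat_lit 8) (.nd (nat_lit 9) 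
(.lf (nat_lit 546928) (.g (nat_lit 2816) (.e (nat_lit 303116) (nat_lit 2) (.e (nat_lit 196666) (nat_lit 13) (.e (nat_lit 65610) (nat_lit 10) (.e (nat_lit 344117) (nat_lit 21) (.e (nat_lit 516102) (nat_lit 0) (.e (nat_lit 6970) (nat_lit 377) (.e (nat_lit 7936) (nat_lit 180) .nil))))))) (.g (nat_lit 1) (.e (nat_lit 284399) (nat_lit 0) .nil) .nil))) 
(.lf (nat_lit 547440) (.g (nat_lit 2769) (.e (nat_lit 303119) (nat_lit 3) (.e (nat_lit 204861) (nat_lit 26) (.e (nat_lit 336194) (nat_lit 12) (.e (nat_lit 385074) (nat_lit 31) (.e (nat_lit 573454) (nat_lit 9) .nil))))) (.g (nat_lit 0) (.e (nat_lit 285124) (nat_lit 0) .nil) .nil)))) (.nd (nat_lit 9) 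
(.lf (nat_lit 547184) (.g (nat_lit 1032) (.e (nat_lit 311040) (nat_lit 2) (.e (nat_lit 196672) (nat_lit 15) (.e (nat_lit 81955) (nat_lit 23) (.e (nat_lit 98350) (nat_lit 24) .nil)))) (.g (nat_lit 0) (.e (nat_lit 284708) (nat_lit 0) .nil) .nil))) 
(.lf (nat_lit 547696) (.g (nat_lit 3469) (.e (nat_lit 303140) (nat_lit 10) (.e (nat_lit 434231) (nat_lit 23) (.e (nat_lit 532569) (nat_lit 16) (.e (nat_lit 401448) (nat_lit 10) (.e (nat_lit 434227) (nat_lit 20) (.e (nat_lit 507946) (nat_lit 18) .nil)))))) (.g (nat_lit 1) (.e (nat_lit 286500) (nat_lit 0) .nil) .nil))))) (.nd (nat_lit 8) (.nd (nat_lit 9) 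
(.lf (nat_lit 547056) (.g (nat_lit 4240) (.e (nat_lit 303117) (nat_lit 2) (.e (nat_lit 196666) (nat_lit 13) (.e (nat_lit 65610) (nat_lit 10) (.e (nat_lit 344117) (nat_lit 21) (.e (nat_lit 516106) (nat_lit 0) (.e (nat_lit 7016) (nat_lit 377) (.e (nat_lit 2806) (nat_lit 180) .nil))))))) (.g (nat_lit 1) (.e (nat_lit 284563) (nat_lit 0) .nil) .nil))) 
(.lf (nat_lit 547568) (.g (nat_lit 1915) (.e (nat_lit 311040) (nat_lit 3) (.e (nat_lit 204868) (nat_lit 29) (.e (nat_lit 360467) (nat_lit 3) (.e (nat_lit 516139) (nat_lit 7) (.e (nat_lit 409648) (nat_lit 18) .nil))))) (.g (nat_lit 0) (.e (nat_lit 285416) (nat_lit 0) .nil) .nil)))) (.nd (nat_lit 9) 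
(.lf (nat_lit 547312) (.g (nat_lit 4338) (.e (nat_lit 303119) (nat_lit 3) (.e (nat_lit 204819) (nat_lit 17) (.e (nat_lit 6113) (nat_lit 332) (.e (nat_lit 1374) (nat_lit 104) (.e (nat_lit 303117) (nat_lit 2) (.e (nat_lit 196661) (nat_lit 12) (.e (nat_lit 57712) (nat_lit 176) (.e (nat_lit 1378) (nat_lit 104) .nil)))))))) (.g (nat_lit 1) (.e (nat_lit 284913) (nat_lit 0) .nil) .nil))) 
(.lf (nat_lit 547824) (.g (nat_lit 3587) (.e (nat_lit 303143) (nat_lit 12) (.e (nat_lit 475185) (nat_lit 29) (.e (nat_lit 557109) (nat_lit 15) (.e (nat_lit 188457) (nat_lit 25) (.e (nat_lit 245797) (nat_lit 18) (.e (nat_lit 2797) (nat_lit 180) .nil)))))) (.g (nat_lit 1) (.e (nat_lit 286822) (nat_lit 0) .nil) .nil))))))))) 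
(.nd (nat_lit 4) (.nd (nat_lit 5) (.nd (nat_lit 6) (.nd (nat_lit 7) (.nd (nat_lit 8) 
(.nd (nat_lit 9) 
(.lf (nat_lit 546824) (.g (nat_lit 2637) (.e (nat_lit 303107) (nat_lit 0) (.e (nat_lit 3238) (nat_lit 197) (.e (nat_lit 532535) (nat_lit 9) (.e (nat_lit 336073) (nat_lit 9) .nil)))) (.g (nat_lit 0) (.e (nat_lit 284129) (nat_lit 0) .nil) .nil))) 
(.lf (nat_lit 547336) (.g (nat_lit 4259) (.e (nat_lit 303119) (nat_lit 3) (.e (nat_lit 204846) (nat_lit 24) (.e (nat_lit 319537) (nat_lit 19) (.e (nat_lit 311315) (nat_lit 3) (.e (nat_lit 204819) (nat_lit 17) (.e (nat_lit 6113) (nat_lit 332) (.e (nat_lit 1374) (nat_lit 104) .nil))))))) (.g (nat_lit 1) (.e (nat_lit 284972) (nat_lit 0) .nil) .nil)))) (.nd (nat_lit 9) 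
(.lf (nat_lit 547080) (.g (nat_lit 3978) (.e (nat_lit 303117) (nat_lit 2) (.e (nat_lit 196666) (nat_lit 13) (.e (nat_lit 65619) (nat_lit 10) (.e (nat_lit 344117) (nat_lit 21) (.e (nat_lit 516102) (nat_lit 0) (.e (nat_lit 6989) (nat_lit 377) (.e (nat_lit 2810) (nat_lit 180) .nil))))))) (.g (nat_lit 1) (.e (nat_lit 284588) (nat_lit 0) .nil) .nil))) 
(.lf (nat_lit 547592) (.g (nat_lit 1890) (.e (nat_lit 303127) (nat_lit 9) (.e (nat_lit 426542) (nat_lit 29) (.e (nat_lit 352316) (nat_lit 24) (.e (nat_lit 123195) (nat_lit 266) (.e (nat_lit 57403) (nat_lit 11) .nil))))) (.g (nat_lit 0) (.e (nat_lit 285606) (nat_lit 0) .nil) .nil))))) (.nd (nat_lit 8) (.nd (nat_lit 9) 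
(.lf (nat_lit 546952) (.g (nat_lit 1821) (.e (nat_lit 303116) (nat_lit 2) (.e (nat_lit 196666) (nat_lit 13) (.e (nat_lit 65619) (nat_lit 10) (.e (nat_lit 344117) (nat_lit 21) (.e (nat_lit 516141) (nat_lit 8) .nil))))) (.g (nat_lit 0) (.e (nat_lit 284423) (nat_lit 0) .nil) .nil))) 
(.lf (nat_lit 547464) (.g (nat_lit 2044) (.e (nat_lit 303119) (nat_lit 3) (.e (nat_lit 204868) (nat_lit 29) (.e (nat_lit 360466) (nat_lit 3) (.e (nat_lit 516106) (nat_lit 0) .nil)))) (.g (nat_lit 0) (.e (nat_lit 285185) (nat_lit 0) .nil) .nil)))) (.nd (nat_lit 9) 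
(.lf (nat_lit 547208) (.g (nat_lit 1749) (.e (nat_lit 303118) (nat_lit 3) (.e (nat_lit 204855) (nat_lit 26) (.e (nat_lit 336095) (nat_lit 9) (.e (nat_lit 336028) (nat_lit 3) (.e (nat_lit 98350) (nat_lit 24) .nil))))) (.g (nat_lit 0) (.e (nat_lit 284741) (nat_lit 0) .nil) .nil))) 
(.lf (nat_lit 547720) (.g (nat_lit 1146) (.e (nat_lit 303142) (nat_lit 12) (.e (nat_lit 475211) (nat_lit 41) (.e (nat_lit 712755) (nat_lit 30) (.e (nat_lit 450597) (nat_lit 17) .nil)))) (.g (nat_lit 0) (.e (nat_lit 286656) (nat_lit 0) .nil) .nil)))))) (.nd (nat_lit 7) (.nd (nat_lit 8) (.nd (nat_lit 9) 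
(.lf (nat_lit 546888) (.g (nat_lit 1735) (.e (nat_lit 303111) (nat_lit 0) (.e (nat_lit 3238) (nat_lit 197) (.e (nat_lit 532534) (nat_lit 9) (.e (nat_lit 336115) (nat_lit 9) (.e (nat_lit 343808) (nat_lit 3) .nil))))) (.g (nat_lit 0) (.e (nat_lit 284245) (nat_lit 0) .nil) .nil))) 
(.lf (nat_lit 547400) (.g (nat_lit 3101) (.e (nat_lit 303119) (nat_lit 3) (.e (nat_lit 204855) (nat_lit 26) (.e (nat_lit 336073) (nat_lit 9) (.e (nat_lit 336028) (nat_lit 3) (.e (nat_lit 98350) (nat_lit 24) (.e (nat_lit 417536) (nat_lit 18) .nil)))))) (.g (nat_lit 1) (.e (nat_lit 285058) (nat_lit 0) .nil) .nil)))) (.nd (nat_lit 9) 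
(.lf (nat_lit 547144) (.g (nat_lit 2759) (.e (nat_lit 303117) (nat_lit 2) (.e (nat_lit 196674) (nat_lit 15) (.e (nat_lit 81946) (nat_lit 20) (.e (nat_lit 1842) (nat_lit 123) (.e (nat_lit 548874) (nat_lit 5) (.e (nat_lit 1401) (nat_lit 106) (.e (nat_lit 327424) (nat_lit 8) .nil))))))) (.g (nat_lit 1) (.e (nat_lit 284664) (nat_lit 0) .nil) .nil))) 
(.lf (nat_lit 547656) (.g (nat_lit 828) (.e (nat_lit 303137) (nat_lit 10) (.e (nat_lit 434241) (nat_lit 27) (.e (nat_lit 565269) (nat_lit 6) (.e (nat_lit 81931) (nat_lit 20) .nil)))) (.g (nat_lit 0) (.e (nat_lit 286264) (nat_lit 0) .nil) .nil))))) (.nd (nat_lit 8) (.nd (nat_lit 9) 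
(.lf (nat_lit 547016) (.g (nat_lit 2861) (.e (nat_lit 303117) (nat_lit 2) (.e (nat_lit 196666) (nat_lit 13) (.e (nat_lit 65610) (nat_lit 10) (.e (nat_lit 344115) (nat_lit 20) (.e (nat_lit 507919) (nat_lit 4) (.e (nat_lit 270354) (nat_lit 8) .nil)))))) (.g (nat_lit 1) (.e (nat_lit 284523) (nat_lit 0) .nil) .nil))) 
(.lf (nat_lit 547528) (.g (nat_lit 4516) (.e (nat_lit 303119) (nat_lit 3) (.e (nat_lit 204869) (nat_lit 29) (.e (nat_lit 360475) (nat_lit 8) (.e (nat_lit 557090) (nat_lit 12) .nil)))) (.g (nat_lit 0) (.e (nat_lit 285362) (nat_lit 0) .nil) .nil)))) (.nd (nat_lit 9) 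
(.lf (nat_lit 547272) (.g (nat_lit 2991) (.e (nat_lit 303118) (nat_lit 3) (.e (nat_lit 204869) (nat_lit 29) (.e (nat_lit 360467) (nat_lit 3) (.e (nat_lit 516138) (nat_lit 7) (.e (nat_lit 409649) (nat_lit 18) .nil))))) (.g (nat_lit 0) (.e (nat_lit 284862) (nat_lit 0) .nil) .nil))) 
(.lf (nat_lit 547784) (.g (nat_lit 4420) (.e (nat_lit 303143) (nat_lit 12) (.e (nat_lit 475185) (nat_lit 29) (.e (nat_lit 557101) (nat_lit 13) (.e (nat_lit 172097) (nat_lit 9) (.e (nat_lit 426125) (nat_lit 2) (.e (nat_lit 196683) (nat_lit 18) (.e (nat_lit 2810) (nat_lit 180) .nil))))))) (.g (nat_lit 1) (.e (nat_lit 286775) (nat_lit 0) .nil) .nil))))))) 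
(.nd (nat_lit 6) (.nd (nat_lit 7) (.nd (nat_lit 8) (.nd (nat_lit 9) 
(.lf (nat_lit 546856) (.g (nat_lit 1827) (.e (nat_lit 303109) (nat_lit 0) (.e (nat_lit 3579) (nat_lit 223) (.e (nat_lit 745509) (nat_lit 11) (.e (nat_lit 24630) (nat_lit 9) (.e (nat_lit 336369) (nat_lit 27) .nil))))) (.g (nat_lit 0) (.e (nat_lit 284181) (nat_lit 0) .nil) .nil))) 
(.lf (nat_lit 547368) (.g (nat_lit 2690) (.e (nat_lit 303119) (nat_lit 3) (.e (nat_lit 204846) (nat_lit 24) (.e (nat_lit 319534) (nat_lit 16) (.e (nat_lit 286735) (nat_lit 3) (.e (nat_lit 98318) (nat_lit 17) .nil))))) (.g (nat_lit 0) (.e (nat_lit 285015) (nat_lit 0) .nil) .nil)))) (.nd (nat_lit 9) 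
(.lf (nat_lit 547112) (.g (nat_lit 2427) (.e (nat_lit 303117) (nat_lit 2) (.e (nat_lit 196672) (nat_lit 15) (.e (nat_lit 81954) (nat_lit 23) (.e (nat_lit 98349) (nat_lit 24) (.e (nat_lit 409647) (nat_lit 18) .nil))))) (.g (nat_lit 0) (.e (nat_lit 284628) (nat_lit 0) .nil) .nil))) 
(.lf (nat_lit 547624) (.g (nat_lit 3476) (.e (nat_lit 303133) (nat_lit 9) (.e (nat_lit 426412) (nat_lit 15) (.e (nat_lit 2175) (nat_lit 143) (.e (nat_lit 712753) (nat_lit 30) (.e (nat_lit 450595) (nat_lit 17) (.e (nat_lit 663589) (nat_lit 14) (.e (nat_lit 2798) (nat_lit 180) .nil))))))) (.g (nat_lit 1) (.e (nat_lit 285839) (nat_lit 0) .nil) .nil))))) (.nd (nat_lit 8) (.nd (nat_lit 9) 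
(.lf (nat_lit 546984) (.g (nat_lit 2045) (.e (nat_lit 303117) (nat_lit 2) (.e (nat_lit 196661) (nat_lit 12) (.e (nat_lit 65280) (nat_lit 206) (.e (nat_lit 180244) (nat_lit 5) (.e (nat_lit 532486) (nat_lit 0) (.e (nat_lit 6113) (nat_lit 332) (.e (nat_lit 1376) (nat_lit 104) .nil))))))) (.g (nat_lit 1) (.e (nat_lit 284475) (nat_lit 0) .nil) .nil))) 
(.lf (nat_lit 547496) (.g (nat_lit 4110) (.e (nat_lit 303119) (nat_lit 3) (.e (nat_lit 204869) (nat_lit 29) (.e (nat_lit 360467) (nat_lit 3) (.e (nat_lit 516139) (nat_lit 7) (.e (nat_lit 409647) (nat_lit 18) .nil))))) (.g (nat_lit 1) (.e (nat_lit 285256) (nat_lit 0) .nil) .nil)))) (.nd (nat_lit 9) 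
(.lf (nat_lit 547240) (.g (nat_lit 796) (.e (nat_lit 303118) (nat_lit 3) (.e (nat_lit 204866) (nat_lit 28) (.e (nat_lit 352293) (nat_lit 20) .nil))) (.g (nat_lit 0) (.e (nat_lit 284807) (nat_lit 0) .nil) .nil))) 
(.lf (nat_lit 547752) (.g (nat_lit 1736) (.e (nat_lit 303143) (nat_lit 12) (.e (nat_lit 475185) (nat_lit 29) (.e (nat_lit 557100) (nat_lit 13) (.e (nat_lit 172106) (nat_lit 10) (.e (nat_lit 434218) (nat_lit 19) .nil))))) (.g (nat_lit 0) (.e (nat_lit 286737) (nat_lit 0) .nil) .nil)))))) (.nd (nat_lit 7) (.nd (nat_lit 8) (.nd (nat_lit 9) 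
(.lf (nat_lit 546920) (.g (nat_lit 1993) (.e (nat_lit 303114) (nat_lit 1) (.e (nat_lit 164399) (nat_lit 256) (.e (nat_lit 57411) (nat_lit 12) (.e (nat_lit 336433) (nat_lit 30) .nil)))) (.g (nat_lit 0) (.e (nat_lit 284343) (nat_lit 0) .nil) .nil))) 
(.lf (nat_lit 547432) (.g (nat_lit 1878) (.e (nat_lit 303119) (nat_lit 3) (.e (nat_lit 204861) (nat_lit 26) (.e (nat_lit 336108) (nat_lit 9) (.e (nat_lit 336028) (nat_lit 3) (.e (nat_lit 98350) (nat_lit 24) .nil))))) (.g (nat_lit 0) (.e (nat_lit 285114) (nat_lit 0) .nil) .nil)))) (.nd (nat_lit 9) 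
(.lf (nat_lit 547176) (.g (nat_lit 425) (.e (nat_lit 303117) (nat_lit 2) (.e (nat_lit 196681) (nat_lit 17) (.e (nat_lit 131109) (nat_lit 9) .nil))) (.g (nat_lit 0) (.e (nat_lit 284700) (nat_lit 0) .nil) .nil))) 
(.lf (nat_lit 547688) (.g (nat_lit 2172) (.e (nat_lit 303139) (nat_lit 10) (.e (nat_lit 434268) (nat_lit 36) (.e (nat_lit 639020) (nat_lit 16) (.e (nat_lit 65583) (nat_lit 7) (.e (nat_lit 319526) (nat_lit 15) (.e (nat_lit 278546) (nat_lit 8) .nil)))))) (.g (nat_lit 1) (.e (nat_lit 286430) (nat_lit 0) .nil) .nil))))) (.nd (nat_lit 8) (.nd (nat_lit 9) 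
(.lf (nat_lit 547048) (.g (nat_lit 3684) (.e (nat_lit 303117) (nat_lit 2) (.e (nat_lit 196666) (nat_lit 13) (.e (nat_lit 65610) (nat_lit 10) (.e (nat_lit 344117) (nat_lit 21) (.e (nat_lit 516106) (nat_lit 0) (.e (nat_lit 7008) (nat_lit 377) (.e (nat_lit 2795) (nat_lit 180) .nil))))))) (.g (nat_lit 1) (.e (nat_lit 284555) (nat_lit 0) .nil) .nil))) 
(.lf (nat_lit 547560) (.g (nat_lit 4267) (.e (nat_lit 303119) (nat_lit 3) (.e (nat_lit 204885) (nat_lit 33) (.e (nat_lit 401448) (nat_lit 10) (.e (nat_lit 434231) (nat_lit 23) (.e (nat_lit 532490) (nat_lit 0) (.e (nat_lit 6114) (nat_lit 332) (.e (nat_lit 1378) (nat_lit 104) .nil))))))) (.g (nat_lit 1) (.e (nat_lit 285406) (nat_lit 0) .nil) .nil)))) (.nd (nat_lit 9) 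
(.lf (nat_lit 547304) (.g (nat_lit 3242) (.e (nat_lit 303118) (nat_lit 3) (.e (nat_lit 204885) (nat_lit 33) (.e (nat_lit 401434) (nat_lit 9) (.e (nat_lit 426140) (nat_lit 3) (.e (nat_lit 204821) (nat_lit 17) (.e (nat_lit 6114) (nat_lit 332) (.e (nat_lit 1378) (nat_lit 104) .nil))))))) (.g (nat_lit 1) (.e (nat_lit 284897) (nat_lit 0) .nil) .nil))) 
(.lf (nat_lit 547816) (.g (nat_lit 1881) (.e (nat_lit 303143) (nat_lit 12) (.e (nat_lit 475185) (nat_lit 29) (.e (nat_lit 557109) (nat_lit 15) (.e (nat_lit 188441) (nat_lit 20) .nil)))) (.g (nat_lit 0) (.e (nat_lit 286813) (nat_lit 0) .nil) .nil)))))))) (.nd (nat_lit 5) (.nd (nat_lit 6) (.nd (nat_lit 7) (.nd (nat_lit 8) (.nd (nat_lit 9) 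
(.lf (nat_lit 546840) (.g (nat_lit 2461) (.e (nat_lit 303108) (nat_lit 0) (.e (nat_lit 3238) (nat_lit 197) (.e (nat_lit 532535) (nat_lit 9) (.e (nat_lit 336163) (nat_lit 10) .nil)))) (.g (nat_lit 0) (.e (nat_lit 284153) (nat_lit 0) .nil) .nil))) 
(.lf (nat_lit 547352) (.g (nat_lit 2716) (.e (nat_lit 303119) (nat_lit 3) (.e (nat_lit 204846) (nat_lit 24) (.e (nat_lit 319532) (nat_lit 16) (.e (nat_lit 286733) (nat_lit 2) (.e (nat_lit 90165) (nat_lit 12) (.e (nat_lit 164208) (nat_lit 176) (.e (nat_lit 1374) (nat_lit 104) .nil))))))) (.g (nat_lit 1) (.e (nat_lit 284997) (nat_lit 0) .nil) .nil)))) (.nd (nat_lit 9) 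
(.lf (nat_lit 547096) (.g (nat_lit 2647) (.e (nat_lit 303117) (nat_lit 2) (.e (nat_lit 196672) (nat_lit 15) (.e (nat_lit 81943) (nat_lit 20) (.e (nat_lit 1842) (nat_lit 123) (.e (nat_lit 548874) (nat_lit 5) (.e (nat_lit 1401) (nat_lit 106) (.e (nat_lit 327424) (nat_lit 8) .nil))))))) (.g (nat_lit 1) (.e (nat_lit 284611) (nat_lit 0) .nil) .nil))) 
(.lf (nat_lit 547608) (.g (nat_lit 3834) (.e (nat_lit 303133) (nat_lit 9) (.e (nat_lit 426412) (nat_lit 15) (.e (nat_lit 1855) (nat_lit 124) (.e (nat_lit 557109) (nat_lit 15) (.e (nat_lit 188449) (nat_lit 22) (.e (nat_lit 204544) (nat_lit 18) (.e (nat_lit 2798) (nat_lit 180) .nil))))))) (.g (nat_lit 1) (.e (nat_lit 285748) (nat_lit 0) .nil) .nil))))) (.nd (nat_lit 8) (.nd (nat_lit 9) 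
(.lf (nat_lit 546968) (.g (nat_lit 2664) (.e (nat_lit 303116) (nat_lit 2) (.e (nat_lit 196674) (nat_lit 15) (.e (nat_lit 81953) (nat_lit 22) (.e (nat_lit 90130) (nat_lit 9) .nil)))) (.g (nat_lit 0) (.e (nat_lit 284442) (nat_lit 0) .nil) .nil))) 
(.lf (nat_lit 547480) (.g (nat_lit 1752) (.e (nat_lit 303119) (nat_lit 3) (.e (nat_lit 204868) (nat_lit 29) (.e (nat_lit 360468) (nat_lit 3) (.e (nat_lit 516139) (nat_lit 7) (.e (nat_lit 409646) (nat_lit 18) .nil))))) (.g (nat_lit 0) (.e (nat_lit 285201) (nat_lit 0) .nil) .nil)))) (.nd (nat_lit 9) 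
(.lf (nat_lit 547224) (.g (nat_lit 5518) (.e (nat_lit 303118) (nat_lit 3) (.e (nat_lit 204855) (nat_lit 26) (.e (nat_lit 336176) (nat_lit 10) (.e (nat_lit 344117) (nat_lit 21) (.e (nat_lit 516139) (nat_lit 7) (.e (nat_lit 409649) (nat_lit 18) .nil)))))) (.g (nat_lit 1) (.e (nat_lit 284783) (nat_lit 0) .nil) .nil))) 
(.lf (nat_lit 547736) (.g (nat_lit 1716) (.e (nat_lit 303143) (nat_lit 12) (.e (nat_lit 475185) (nat_lit 29) (.e (nat_lit 557100) (nat_lit 13) (.e (nat_lit 172085) (nat_lit 9) .nil)))) (.g (nat_lit 0) (.e (nat_lit 286719) (nat_lit 0) .nil) .nil)))))) (.nd (nat_lit 7) (.nd (nat_lit 8) (.nd (nat_lit 9) 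
(.lf (nat_lit 546904) (.g (nat_lit 1787) (.e (nat_lit 303111) (nat_lit 0) (.e (nat_lit 3307) (nat_lit 202) (.e (nat_lit 573477) (nat_lit 12) (.e (nat_lit 57750) (nat_lit 201) .nil)))) (.g (nat_lit 0) (.e (nat_lit 284297) (nat_lit 0) .nil) .nil))) 
(.lf (nat_lit 547416) (.g (nat_lit 2132) (.e (nat_lit 303119) (nat_lit 3) (.e (nat_lit 204855) (nat_lit 26) (.e (nat_lit 336127) (nat_lit 9) (.e (nat_lit 336027) (nat_lit 3) (.e (nat_lit 98350) (nat_lit 24) .nil))))) (.g (nat_lit 0) (.e (nat_lit 285090) (nat_lit 0) .nil) .nil)))) (.nd (nat_lit 9) 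
(.lf (nat_lit 547160) (.g (nat_lit 3098) (.e (nat_lit 303117) (nat_lit 2) (.e (nat_lit 196674) (nat_lit 15) (.e (nat_lit 81955) (nat_lit 23) (.e (nat_lit 98323) (nat_lit 17) (.e (nat_lit 6989) (nat_lit 377) (.e (nat_lit 2810) (nat_lit 180) .nil)))))) (.g (nat_lit 1) (.e (nat_lit 284683) (nat_lit 0) .nil) .nil))) 
(.lf (nat_lit 547672) (.g (nat_lit 3417) (.e (nat_lit 303137) (nat_lit 10) (.e (nat_lit 434295) (nat_lit 49) (.e (nat_lit 745491) (nat_lit 4) (.e (nat_lit 65617) (nat_lit 10) (.e (nat_lit 344130) (nat_lit 26) (.e (nat_lit 557119) (nat_lit 18) (.e (nat_lit 2807) (nat_lit 180) .nil))))))) (.g (nat_lit 1) (.e (nat_lit 286337) (nat_lit 0) .nil) .nil))))) (.nd (nat_lit 8) (.nd (nat_lit 9) 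
(.lf (nat_lit 547032) (.g (nat_lit 3190) (.e (nat_lit 303117) (nat_lit 2) (.e (nat_lit 196666) (nat_lit 13) (.e (nat_lit 65610) (nat_lit 10) (.e (nat_lit 344117) (nat_lit 21) (.e (nat_lit 516099) (nat_lit 0) (.e (nat_lit 7062) (nat_lit 377) (.e (nat_lit 2805) (nat_lit 180) .nil))))))) (.g (nat_lit 1) (.e (nat_lit 284539) (nat_lit 0) .nil) .nil))) 
(.lf (nat_lit 547544) (.g (nat_lit 224) (.e (nat_lit 303119) (nat_lit 3) (.e (nat_lit 204877) (nat_lit 31) (.e (nat_lit 376865) (nat_lit 22) .nil))) (.g (nat_lit 0) (.e (nat_lit 285384) (nat_lit 0) .nil) .nil)))) (.nd (nat_lit 9) 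
(.lf (nat_lit 547288) (.g (nat_lit 3988) (.e (nat_lit 303118) (nat_lit 3) (.e (nat_lit 204869) (nat_lit 29) (.e (nat_lit 360475) (nat_lit 8) (.e (nat_lit 557067) (nat_lit 9) (.e (nat_lit 220) (nat_lit 20) .nil))))) (.g (nat_lit 0) (.e (nat_lit 284880) (nat_lit 0) .nil) .nil))) 
(.lf (nat_lit 547800) (.g (nat_lit 3020) (.e (nat_lit 303143) (nat_lit 12) (.e (nat_lit 475185) (nat_lit 29) (.e (nat_lit 557107) (nat_lit 15) (.e (nat_lit 188440) (nat_lit 20) (.e (nat_lit 3205) (nat_lit 194) (.e (nat_lit 507944) (nat_lit 18) .nil)))))) (.g (nat_lit 1) (.e (nat_lit 286797) (nat_lit 0) .nil) .nil))))))) (.nd (nat_lit 6) (.nd (nat_lit 7) (.nd (nat_lit 8) (.nd (nat_lit 9) 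
(.lf (nat_lit 546872) (.g (nat_lit 1048) (.e (nat_lit 303112) (nat_lit 0) (.e (nat_lit 3252) (nat_lit 197) (.e (nat_lit 532548) (nat_lit 11) (.e (nat_lit 352315) (nat_lit 23) (.e (nat_lit 98325) (nat_lit 17) .nil))))) (.g (nat_lit 0) (.e (nat_lit 284202) (nat_lit 0) .nil) .nil))) 
(.lf (nat_lit 547384) (.g (nat_lit 3720) (.e (nat_lit 303119) (nat_lit 3) (.e (nat_lit 204852) (nat_lit 26) (.e (nat_lit 336129) (nat_lit 9) (.e (nat_lit 336027) (nat_lit 3) (.e (nat_lit 98323) (nat_lit 17) (.e (nat_lit 6989) (nat_lit 377) (.e (nat_lit 2810) (nat_lit 180) .nil))))))) (.g (nat_lit 1) (.e (nat_lit 285035) (nat_lit 0) .nil) .nil)))) (.nd (nat_lit 9) 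
(.lf (nat_lit 547128) (.g (nat_lit 1605) (.e (nat_lit 303117) (nat_lit 2) (.e (nat_lit 196673) (nat_lit 15) (.e (nat_lit 81956) (nat_lit 23) (.e (nat_lit 98319) (nat_lit 17) .nil)))) (.g (nat_lit 0) (.e (nat_lit 284648) (nat_lit 0) .nil) .nil))) 
(.lf (nat_lit 547640) (.g (nat_lit 1441) (.e (nat_lit 303132) (nat_lit 9) (.e (nat_lit 426109) (nat_lit 1) (.e (nat_lit 164330) (nat_lit 230) (.e (nat_lit 171776) (nat_lit 65) .nil)))) (.g (nat_lit 0) (.e (nat_lit 285982) (nat_lit 0) .nil) .nil))))) (.nd (nat_lit 8) (.nd (nat_lit 9) 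
(.lf (nat_lit 547000) (.g (nat_lit 3023) (.e (nat_lit 303117) (nat_lit 2) (.e (nat_lit 196666) (nat_lit 13) (.e (nat_lit 65589) (nat_lit 9) (.e (nat_lit 336013) (nat_lit 2) (.e (nat_lit 90165) (nat_lit 12) (.e (nat_lit 164210) (nat_lit 176) (.e (nat_lit 2796) (nat_lit 180) .nil))))))) (.g (nat_lit 1) (.e (nat_lit 284501) (nat_lit 0) .nil) .nil))) 
(.lf (nat_lit 547512) (.g (nat_lit 2281) (.e (nat_lit 303119) (nat_lit 3) (.e (nat_lit 204869) (nat_lit 29) (.e (nat_lit 360475) (nat_lit 8) (.e (nat_lit 557064) (nat_lit 9) (.e (nat_lit 220) (nat_lit 20) .nil))))) (.g (nat_lit 0) (.e (nat_lit 285322) (nat_lit 0) .nil) .nil)))) (.nd (nat_lit 9) 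
(.lf (nat_lit 547256) (.g (nat_lit 3803) (.e (nat_lit 303118) (nat_lit 3) (.e (nat_lit 204868) (nat_lit 29) (.e (nat_lit 360467) (nat_lit 3) (.e (nat_lit 516139) (nat_lit 7) (.e (nat_lit 409648) (nat_lit 18) .nil))))) (.g (nat_lit 1) (.e (nat_lit 284842) (nat_lit 0) .nil) .nil))) 
(.lf (nat_lit 547768) (.g (nat_lit 2419) (.e (nat_lit 303143) (nat_lit 12) (.e (nat_lit 475185) (nat_lit 29) (.e (nat_lit 557100) (nat_lit 13) (.e (nat_lit 172113) (nat_lit 10) (.e (nat_lit 434219) (nat_lit 19) (.e (nat_lit 499741) (nat_lit 0) (.e (nat_lit 2795) (nat_lit 180) .nil))))))) (.g (nat_lit 1) (.e (nat_lit 286756) (nat_lit 0) .nil) .nil)))))) 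
(.nd (nat_lit 7) (.nd (nat_lit 8) (.nd (nat_lit 9) 
(.lf (nat_lit 546936) (.g (nat_lit 3117) (.e (nat_lit 303116) (nat_lit 2) (.e (nat_lit 196666) (nat_lit 13) (.e (nat_lit 65610) (nat_lit 10) (.e (nat_lit 344117) (nat_lit 21) (.e (nat_lit 516106) (nat_lit 0) (.e (nat_lit 7008) (nat_lit 377) (.e (nat_lit 2807) (nat_lit 180) .nil))))))) (.g (nat_lit 1) (.e (nat_lit 284407) (nat_lit 0) .nil) .nil))) 
(.lf (nat_lit 547448) (.g (nat_lit 3456) (.e (nat_lit 303119) (nat_lit 3) (.e (nat_lit 204866) (nat_lit 28) (.e (nat_lit 352313) (nat_lit 23) (.e (nat_lit 98350) (nat_lit 24) (.e (nat_lit 409644) (nat_lit 18) .nil))))) (.g (nat_lit 1) (.e (nat_lit 285153) (nat_lit 0) .nil) .nil)))) (.nd (nat_lit 9) 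
(.lf (nat_lit 547192) (.g (nat_lit 3246) (.e (nat_lit 303118) (nat_lit 3) (.e (nat_lit 204845) (nat_lit 24) (.e (nat_lit 319530) (nat_lit 16) (.e (nat_lit 286735) (nat_lit 3) (.e (nat_lit 98350) (nat_lit 24) (.e (nat_lit 417536) (nat_lit 8) .nil)))))) (.g (nat_lit 1) (.e (nat_lit 284719) (nat_lit 0) .nil) .nil))) 
(.lf (nat_lit 547704) (.g (nat_lit 2774) (.e (nat_lit 303140) (nat_lit 10) (.e (nat_lit 434291) (nat_lit 44) (.e (nat_lit 704738) (nat_lit 11) (.e (nat_lit 16469) (nat_lit 14) (.e (nat_lit 499456) (nat_lit 25) .nil))))) (.g (nat_lit 0) (.e (nat_lit 286620) (nat_lit 0) .nil) .nil))))) (.nd (nat_lit 8) (.nd (nat_lit 9) 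
(.lf (nat_lit 547064) (.g (nat_lit 2508) (.e (nat_lit 303117) (nat_lit 2) (.e (nat_lit 196666) (nat_lit 13) (.e (nat_lit 65610) (nat_lit 10) (.e (nat_lit 344120) (nat_lit 21) .nil)))) (.g (nat_lit 0) (.e (nat_lit 284571) (nat_lit 0) .nil) .nil))) 
(.lf (nat_lit 547576) (.g (nat_lit 562) (.e (nat_lit 303124) (nat_lit 7) (.e (nat_lit 409646) (nat_lit 18) (.e (nat_lit 303123) (nat_lit 7) .nil))) (.g (nat_lit 0) (.e (nat_lit 285521) (nat_lit 0) .nil) .nil)))) (.nd (nat_lit 9) 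
(.lf (nat_lit 547320) (.g (nat_lit 493) (.e (nat_lit 303119) (nat_lit 3) (.e (nat_lit 204845) (nat_lit 24) (.e (nat_lit 319538) (nat_lit 19) .nil))) (.g (nat_lit 0) (.e (nat_lit 284935) (nat_lit 0) .nil) .nil))) 
(.lf (nat_lit 547832) (.g (nat_lit 1627) (.e (nat_lit 303143) (nat_lit 12) (.e (nat_lit 475211) (nat_lit 41) (.e (nat_lit 712755) (nat_lit 30) (.e (nat_lit 450562) (nat_lit 0) (.e (nat_lit 7936) (nat_lit 321) .nil))))) (.g (nat_lit 0) (.e (nat_lit 286898) (nat_lit 0) .nil) .nil)))))))))) 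
(.nd (nat_lit 3) (.nd (nat_lit 4) (.nd (nat_lit 5) (.nd (nat_lit 6) (.nd (nat_lit 7) 
(.nd (nat_lit 8) (.nd (nat_lit 9) 
(.lf (nat_lit 546820) (.g (nat_lit 1296) (.e (nat_lit 303106) (nat_lit 0) (.e (nat_lit 3114) (nat_lit 193) (.e (nat_lit 500075) (nat_lit 20) (.e (nat_lit 81955) (nat_lit 23) (.e (nat_lit 98350) (nat_lit 24) (.e (nat_lit 417536) (nat_lit 18) .nil)))))) (.g (nat_lit 1) (.e (nat_lit 284118) (nat_lit 0) .nil) .nil))) 
(.lf (nat_lit 547332) (.g (nat_lit 1341) (.e (nat_lit 303119) (nat_lit 3) (.e (nat_lit 204846) (nat_lit 24) (.e (nat_lit 319505) (nat_lit 10) (.e (nat_lit 5714) (nat_lit 312) .nil)))) (.g (nat_lit 0) (.e (nat_lit 284961) (nat_lit 0) .nil) .nil)))) (.nd (nat_lit 9) 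
(.lf (nat_lit 547076) (.g (nat_lit 563) (.e (nat_lit 303117) (nat_lit 2) (.e (nat_lit 196666) (nat_lit 13) (.e (nat_lit 65616) (nat_lit 10) .nil))) (.g (nat_lit 0) (.e (nat_lit 284584) (nat_lit 0) .nil) .nil))) 
(.lf (nat_lit 547588) (.g (nat_lit 2260) (.e (nat_lit 303127) (nat_lit 9) (.e (nat_lit 426449) (nat_lit 20) (.e (nat_lit 114723) (nat_lit 24) (.e (nat_lit 106534) (nat_lit 11) (.e (nat_lit 16392) (nat_lit 0) (.e (nat_lit 6989) (nat_lit 377) (.e (nat_lit 2810) (nat_lit 180) .nil))))))) (.g (nat_lit 1) (.e (nat_lit 285588) (nat_lit 0) .nil) .nil))))) (.nd (nat_lit 8) (.nd (nat_lit 9) 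
(.lf (nat_lit 546948) (.g (nat_lit 3841) (.e (nat_lit 303116) (nat_lit 2) (.e (nat_lit 196666) (nat_lit 13) (.e (nat_lit 65617) (nat_lit 10) (.e (nat_lit 344120) (nat_lit 21) (.e (nat_lit 516139) (nat_lit 7) (.e (nat_lit 409649) (nat_lit 18) .nil)))))) (.g (nat_lit 1) (.e (nat_lit 284419) (nat_lit 0) .nil) .nil))) 
(.lf (nat_lit 547460) (.g (nat_lit 1460) (.e (nat_lit 303119) (nat_lit 3) (.e (nat_lit 204868) (nat_lit 29) (.e (nat_lit 360466) (nat_lit 3) (.e (nat_lit 516096) (nat_lit 0) .nil)))) (.g (nat_lit 0) (.e (nat_lit 285180) (nat_lit 0) .nil) .nil)))) (.nd (nat_lit 9) 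
(.lf (nat_lit 547204) (.g (nat_lit 673) (.e (nat_lit 303118) (nat_lit 3) (.e (nat_lit 204855) (nat_lit 26) (.e (nat_lit 336073) (nat_lit 9) .nil))) (.g (nat_lit 0) (.e (nat_lit 284737) (nat_lit 0) .nil) .nil))) 
(.lf (nat_lit 547716) (.g (nat_lit 2089) (.e (nat_lit 303142) (nat_lit 12) (.e (nat_lit 475211) (nat_lit 41) (.e (nat_lit 712753) (nat_lit 30) (.e (nat_lit 450595) (nat_lit 17) (.e (nat_lit 663589) (nat_lit 14) (.e (nat_lit 2808) (nat_lit 180) .nil)))))) (.g (nat_lit 1) (.e (nat_lit 286652) (nat_lit 0) .nil) .nil)))))) (.nd (nat_lit 7) (.nd (nat_lit 8) (.nd (nat_lit 9) 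
(.lf (nat_lit 546884) (.g (nat_lit 1107) (.e (nat_lit 303112) (nat_lit 0) (.e (nat_lit 3252) (nat_lit 197) (.e (nat_lit 532561) (nat_lit 14) (.e (nat_lit 376862) (nat_lit 22) (.e (nat_lit 90181) (nat_lit 16) (.e (nat_lit 237312) (nat_lit 176) (.e (nat_lit 2797) (nat_lit 180) .nil))))))) (.g (nat_lit 1) (.e (nat_lit 284225) (nat_lit 0) .nil) .nil))) 
(.lf (nat_lit 547396) (.g (nat_lit 967) (.e (nat_lit 303119) (nat_lit 3) (.e (nat_lit 204854) (nat_lit 26) (.e (nat_lit 336160) (nat_lit 10) .nil))) (.g (nat_lit 0) (.e (nat_lit 285051) (nat_lit 0) .nil) .nil)))) (.nd (nat_lit 9) 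
(.lf (nat_lit 547140) (.g (nat_lit 1645) (.e (nat_lit 303117) (nat_lit 2) (.e (nat_lit 196673) (nat_lit 15) (.e (nat_lit 81962) (nat_lit 25) (.e (nat_lit 139289) (nat_lit 9) (.e (nat_lit 2829) (nat_lit 182) (.e (nat_lit 417536) (nat_lit 18) .nil)))))) (.g (nat_lit 1) (.e (nat_lit 284660) (nat_lit 0) .nil) .nil))) 
(.lf (nat_lit 547652) (.g (nat_lit 519) (.e (nat_lit 303136) (nat_lit 10) (.e (nat_lit 434275) (nat_lit 39) (.e (nat_lit 663580) (nat_lit 9) .nil))) (.g (nat_lit 0) (.e (nat_lit 286132) (nat_lit 0) .nil) .nil))))) (.nd (nat_lit 8) (.nd (nat_lit 9) 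
(.lf (nat_lit 547012) (.g (nat_lit 2933) (.e (nat_lit 303117) (nat_lit 2) (.e (nat_lit 196666) (nat_lit 13) (.e (nat_lit 65599) (nat_lit 9) (.e (nat_lit 336013) (nat_lit 2) (.e (nat_lit 90165) (nat_lit 12) (.e (nat_lit 164210) (nat_lit 176) (.e (nat_lit 7936) (nat_lit 180) .nil))))))) (.g (nat_lit 1) (.e (nat_lit 284517) (nat_lit 0) .nil) .nil))) 
(.lf (nat_lit 547524) (.g (nat_lit 5329) (.e (nat_lit 303119) (nat_lit 3) (.e (nat_lit 204869) (nat_lit 29) (.e (nat_lit 360475) (nat_lit 8) (.e (nat_lit 557073) (nat_lit 9) (.e (nat_lit 220) (nat_lit 20) (.e (nat_lit 327700) (nat_lit 8) .nil)))))) (.g (nat_lit 1) (.e (nat_lit 285355) (nat_lit 0) .nil) .nil)))) (.nd (nat_lit 9) 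
(.lf (nat_lit 547268) (.g (nat_lit 1791) (.e (nat_lit 303118) (nat_lit 3) (.e (nat_lit 204869) (nat_lit 29) (.e (nat_lit 360466) (nat_lit 3) (.e (nat_lit 516138) (nat_lit 7) .nil)))) (.g (nat_lit 0) (.e (nat_lit 284858) (nat_lit 0) .nil) .nil))) 
(.lf (nat_lit 547780) (.g (nat_lit 3192) (.e (nat_lit 303143) (nat_lit 12) (.e (nat_lit 475185) (nat_lit 29) (.e (nat_lit 557101) (nat_lit 13) (.e (nat_lit 172091) (nat_lit 9) (.e (nat_lit 426125) (nat_lit 2) (.e (nat_lit 204544) (nat_lit 18) (.e (nat_lit 2797) (nat_lit 180) .nil))))))) (.g (nat_lit 1) (.e (nat_lit 286771) (nat_lit 0) .nil) .nil))))))) 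
(.nd (nat_lit 6) (.nd (nat_lit 7) (.nd (nat_lit 8) (.nd (nat_lit 9) 
(.lf (nat_lit 546852) (.g (nat_lit 4189) (.e (nat_lit 303109) (nat_lit 0) (.e (nat_lit 3238) (nat_lit 197) (.e (nat_lit 532535) (nat_lit 9) (.e (nat_lit 336173) (nat_lit 10) (.e (nat_lit 344117) (nat_lit 21) .nil))))) (.g (nat_lit 0) (.e (nat_lit 284172) (nat_lit 0) .nil) .nil))) 
(.lf (nat_lit 547364) (.g (nat_lit 1973) (.e (nat_lit 303119) (nat_lit 3) (.e (nat_lit 204846) (nat_lit 24) (.e (nat_lit 319534) (nat_lit 16) (.e (nat_lit 286728) (nat_lit 0) (.e (nat_lit 1847) (nat_lit 124) .nil))))) (.g (nat_lit 0) (.e (nat_lit 285011) (nat_lit 0) .nil) .nil)))) (.nd (nat_lit 9) 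
(.lf (nat_lit 547108) (.g (nat_lit 1185) (.e (nat_lit 303117) (nat_lit 2) (.e (nat_lit 196672) (nat_lit 15) (.e (nat_lit 81954) (nat_lit 23) (.e (nat_lit 98323) (nat_lit 17) .nil)))) (.g (nat_lit 0) (.e (nat_lit 284624) (nat_lit 0) .nil) .nil))) 
(.lf (nat_lit 547620) (.g (nat_lit 1663) (.e (nat_lit 303133) (nat_lit 9) (.e (nat_lit 426412) (nat_lit 15) (.e (nat_lit 2059) (nat_lit 142) (.e (nat_lit 704673) (nat_lit 9) .nil)))) (.g (nat_lit 0) (.e (nat_lit 285830) (nat_lit 0) .nil) .nil))))) (.nd (nat_lit 8) (.nd (nat_lit 9) 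
(.lf (nat_lit 546980) (.g (nat_lit 1271) (.e (nat_lit 303116) (nat_lit 2) (.e (nat_lit 196681) (nat_lit 17) (.e (nat_lit 131109) (nat_lit 9) (.e (nat_lit 336019) (nat_lit 3) (.e (nat_lit 98349) (nat_lit 24) .nil))))) (.g (nat_lit 0) (.e (nat_lit 284454) (nat_lit 0) .nil) .nil))) 
(.lf (nat_lit 547492) (.g (nat_lit 2314) (.e (nat_lit 303119) (nat_lit 3) (.e (nat_lit 204869) (nat_lit 29) (.e (nat_lit 360467) (nat_lit 3) (.e (nat_lit 516106) (nat_lit 0) .nil)))) (.g (nat_lit 0) (.e (nat_lit 285252) (nat_lit 0) .nil) .nil)))) (.nd (nat_lit 9) 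
(.lf (nat_lit 547236) (.g (nat_lit 3918) (.e (nat_lit 303118) (nat_lit 3) (.e (nat_lit 204865) (nat_lit 28) (.e (nat_lit 352315) (nat_lit 23) (.e (nat_lit 98350) (nat_lit 24) (.e (nat_lit 409647) (nat_lit 18) .nil))))) (.g (nat_lit 1) (.e (nat_lit 284801) (nat_lit 0) .nil) .nil))) 
(.lf (nat_lit 547748) (.g (nat_lit 2716) (.e (nat_lit 303143) (nat_lit 12) (.e (nat_lit 475185) (nat_lit 29) (.e (nat_lit 557100) (nat_lit 13) (.e (nat_lit 172097) (nat_lit 9) .nil)))) (.g (nat_lit 0) (.e (nat_lit 286731) (nat_lit 0) .nil) .nil)))))) (.nd (nat_lit 7) (.nd (nat_lit 8) (.nd (nat_lit 9) 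
(.lf (nat_lit 546916) (.g (nat_lit 2023) (.e (nat_lit 303111) (nat_lit 0) (.e (nat_lit 3469) (nat_lit 217) (.e (nat_lit 696344) (nat_lit 8) (.e (nat_lit 172123) (nat_lit 13) (.e (nat_lit 483377) (nat_lit 22) .nil))))) (.g (nat_lit 0) (.e (nat_lit 284319) (nat_lit 0) .nil) .nil))) 
(.lf (nat_lit 547428) (.g (nat_lit 1089) (.e (nat_lit 303119) (nat_lit 3) (.e (nat_lit 204855) (nat_lit 26) (.e (nat_lit 336234) (nat_lit 14) .nil))) (.g (nat_lit 0) (.e (nat_lit 285108) (nat_lit 0) .nil) .nil)))) (.nd (nat_lit 9) 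
(.lf (nat_lit 547172) (.g (nat_lit 1061) (.e (nat_lit 303117) (nat_lit 2) (.e (nat_lit 196681) (nat_lit 17) (.e (nat_lit 131104) (nat_lit 9) .nil))) (.g (nat_lit 0) (.e (nat_lit 284696) (nat_lit 0) .nil) .nil))) 
(.lf (nat_lit 547684) (.g (nat_lit 500) (.e (nat_lit 303139) (nat_lit 10) (.e (nat_lit 434266) (nat_lit 35) (.e (nat_lit 630821) (nat_lit 16) (.e (nat_lit 65585) (nat_lit 7) (.e (nat_lit 319527) (nat_lit 15) (.e (nat_lit 278547) (nat_lit 8) .nil)))))) (.g (nat_lit 1) (.e (nat_lit 286426) (nat_lit 0) .nil) .nil))))) (.nd (nat_lit 8) (.nd (nat_lit 9) 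
(.lf (nat_lit 547044) (.g (nat_lit 3773) (.e (nat_lit 303117) (nat_lit 2) (.e (nat_lit 196666) (nat_lit 13) (.e (nat_lit 65610) (nat_lit 10) (.e (nat_lit 344117) (nat_lit 21) (.e (nat_lit 516106) (nat_lit 0) (.e (nat_lit 6966) (nat_lit 377) (.e (nat_lit 2808) (nat_lit 180) .nil))))))) (.g (nat_lit 1) (.e (nat_lit 284551) (nat_lit 0) .nil) .nil))) 
(.lf (nat_lit 547556) (.g (nat_lit 3813) (.e (nat_lit 303119) (nat_lit 3) (.e (nat_lit 204885) (nat_lit 33) (.e (nat_lit 401446) (nat_lit 10) (.e (nat_lit 434231) (nat_lit 23) (.e (nat_lit 532490) (nat_lit 0) (.e (nat_lit 6114) (nat_lit 332) (.e (nat_lit 1378) (nat_lit 104) .nil))))))) (.g (nat_lit 1) (.e (nat_lit 285401) (nat_lit 0) .nil) .nil)))) (.nd (nat_lit 9) 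
(.lf (nat_lit 547300) (.g (nat_lit 2478) (.e (nat_lit 303118) (nat_lit 3) (.e (nat_lit 204877) (nat_lit 31) (.e (nat_lit 376865) (nat_lit 22) (.e (nat_lit 90130) (nat_lit 9) (.e (nat_lit 2830) (nat_lit 182) (.e (nat_lit 417536) (nat_lit 18) .nil)))))) (.g (nat_lit 1) (.e (nat_lit 284893) (nat_lit 0) .nil) .nil))) 
(.lf (nat_lit 547812) (.g (nat_lit 2619) (.e (nat_lit 303143) (nat_lit 12) (.e (nat_lit 475185) (nat_lit 29) (.e (nat_lit 557109) (nat_lit 15) (.e (nat_lit 188424) (nat_lit 20) (.e (nat_lit 3205) (nat_lit 194) .nil))))) (.g (nat_lit 0) (.e (nat_lit 286809) (nat_lit 0) .nil) .nil)))))))) (.nd (nat_lit 5) (.nd (nat_lit 6) (.nd (nat_lit 7) (.nd (nat_lit 8) (.nd (nat_lit 9) 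
(.lf (nat_lit 546836) (.g (nat_lit 4160) (.e (nat_lit 303108) (nat_lit 0) (.e (nat_lit 3238) (nat_lit 197) (.e (nat_lit 532535) (nat_lit 9) (.e (nat_lit 336099) (nat_lit 9) (.e (nat_lit 336023) (nat_lit 3) .nil))))) (.g (nat_lit 0) (.e (nat_lit 284148) (nat_lit 0) .nil) .nil))) 
(.lf (nat_lit 547348) (.g (nat_lit 2860) (.e (nat_lit 303119) (nat_lit 3) (.e (nat_lit 204846) (nat_lit 24) (.e (nat_lit 319531) (nat_lit 16) (.e (nat_lit 286733) (nat_lit 2) (.e (nat_lit 90165) (nat_lit 12) .nil))))) (.g (nat_lit 0) (.e (nat_lit 284993) (nat_lit 0) .nil) .nil)))) (.nd (nat_lit 9) 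
(.lf (nat_lit 547092) (.g (nat_lit 776) (.e (nat_lit 303117) (nat_lit 2) (.e (nat_lit 196670) (nat_lit 14) (.e (nat_lit 73792) (nat_lit 45) .nil))) (.g (nat_lit 0) (.e (nat_lit 284607) (nat_lit 0) .nil) .nil))) 
(.lf (nat_lit 547604) (.g (nat_lit 3156) (.e (nat_lit 303133) (nat_lit 9) (.e (nat_lit 426412) (nat_lit 15) (.e (nat_lit 1781) (nat_lit 119) (.e (nat_lit 516130) (nat_lit 3) (.e (nat_lit 221207) (nat_lit 21) (.e (nat_lit 164179) (nat_lit 154) (.e (nat_lit 57371) (nat_lit 2) (.e (nat_lit 90196) (nat_lit 18) (.e (nat_lit 2798) (nat_lit 180) .nil))))))))) (.g (nat_lit 1) (.e (nat_lit 285743) (nat_lit 0) .nil) .nil))))) 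
(.nd (nat_lit 8) (.nd (nat_lit 9) 
(.lf (nat_lit 546964) (.g (nat_lit 917) (.e (nat_lit 303116) (nat_lit 2) (.e (nat_lit 196672) (nat_lit 15) (.e (nat_lit 81960) (nat_lit 25) (.e (nat_lit 139286) (nat_lit 9) .nil)))) (.g (nat_lit 0) (.e (nat_lit 284438) (nat_lit 0) .nil) .nil))) 
(.lf (nat_lit 547476) (.g (nat_lit 4292) (.e (nat_lit 303119) (nat_lit 3) (.e (nat_lit 204868) (nat_lit 29) (.e (nat_lit 360467) (nat_lit 3) (.e (nat_lit 516139) (nat_lit 7) (.e (nat_lit 409648) (nat_lit 18) .nil))))) (.g (nat_lit 1) (.e (nat_lit 285197) (nat_lit 0) .nil) .nil)))) (.nd (nat_lit 9) 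
(.lf (nat_lit 547220) (.g (nat_lit 1004) (.e (nat_lit 303118) (nat_lit 3) (.e (nat_lit 204855) (nat_lit 26) (.e (nat_lit 336163) (nat_lit 10) (.e (nat_lit 344117) (nat_lit 21) .nil)))) (.g (nat_lit 0) (.e (nat_lit 284776) (nat_lit 0) .nil) .nil))) 
(.lf (nat_lit 547732) (.g (nat_lit 1072) (.e (nat_lit 303143) (nat_lit 12) (.e (nat_lit 475185) (nat_lit 29) (.e (nat_lit 557097) (nat_lit 13) .nil))) (.g (nat_lit 0) (.e (nat_lit 286710) (nat_lit 0) .nil) .nil)))))) (.nd (nat_lit 7) (.nd (nat_lit 8) (.nd (nat_lit 9) 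
(.lf (nat_lit 546900) (.g (nat_lit 2193) (.e (nat_lit 303111) (nat_lit 0) (.e (nat_lit 3238) (nat_lit 197) (.e (nat_lit 532547) (nat_lit 11) (.e (nat_lit 352315) (nat_lit 23) (.e (nat_lit 98350) (nat_lit 24) .nil))))) (.g (nat_lit 0) (.e (nat_lit 284281) (nat_lit 0) .nil) .nil))) 
(.lf (nat_lit 547412) (.g (nat_lit 3718) (.e (nat_lit 303119) (nat_lit 3) (.e (nat_lit 204855) (nat_lit 26) (.e (nat_lit 336102) (nat_lit 9) (.e (nat_lit 336013) (nat_lit 2) (.e (nat_lit 90165) (nat_lit 12) (.e (nat_lit 164208) (nat_lit 176) (.e (nat_lit 2810) (nat_lit 180) .nil))))))) (.g (nat_lit 1) (.e (nat_lit 285083) (nat_lit 0) .nil) .nil)))) (.nd (nat_lit 9) 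
(.lf (nat_lit 547156) (.g (nat_lit 1232) (.e (nat_lit 303117) (nat_lit 2) (.e (nat_lit 196674) (nat_lit 15) (.e (nat_lit 81954) (nat_lit 23) (.e (nat_lit 98318) (nat_lit 17) .nil)))) (.g (nat_lit 0) (.e (nat_lit 284679) (nat_lit 0) .nil) .nil))) 
(.lf (nat_lit 547668) (.g (nat_lit 4492) (.e (nat_lit 303137) (nat_lit 10) (.e (nat_lit 434275) (nat_lit 39) (.e (nat_lit 663580) (nat_lit 9) (.e (nat_lit 2739) (nat_lit 174) (.e (nat_lit 253992) (nat_lit 11) (.e (nat_lit 16425) (nat_lit 7) (.e (nat_lit 409648) (nat_lit 18) .nil))))))) (.g (nat_lit 1) (.e (nat_lit 286286) (nat_lit 0) .nil) .nil))))) (.nd (nat_lit 8) (.nd (nat_lit 9) 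
(.lf (nat_lit 547028) (.g (nat_lit 2747) (.e (nat_lit 303117) (nat_lit 2) (.e (nat_lit 196666) (nat_lit 13) (.e (nat_lit 65610) (nat_lit 10) (.e (nat_lit 344117) (nat_lit 21) (.e (nat_lit 516098) (nat_lit 0) (.e (nat_lit 7073) (nat_lit 377) (.e (nat_lit 2804) (nat_lit 180) .nil))))))) (.g (nat_lit 1) (.e (nat_lit 284535) (nat_lit 0) .nil) .nil))) 
(.lf (nat_lit 547540) (.g (nat_lit 572) (.e (nat_lit 303119) (nat_lit 3) (.e (nat_lit 204877) (nat_lit 31) (.e (nat_lit 376847) (nat_lit 20) .nil))) (.g (nat_lit 0) (.e (nat_lit 285380) (nat_lit 0) .nil) .nil)))) (.nd (nat_lit 9) 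
(.lf (nat_lit 547284) (.g (nat_lit 4248) (.e (nat_lit 303118) (nat_lit 3) (.e (nat_lit 204869) (nat_lit 29) (.e (nat_lit 360474) (nat_lit 8) (.e (nat_lit 557091) (nat_lit 12) (.e (nat_lit 163841) (nat_lit 0) .nil))))) (.g (nat_lit 0) (.e (nat_lit 284876) (nat_lit 0) .nil) .nil))) 
(.lf (nat_lit 547796) (.g (nat_lit 1726) (.e (nat_lit 303143) (nat_lit 12) (.e (nat_lit 475185) (nat_lit 29) (.e (nat_lit 557107) (nat_lit 15) (.e (nat_lit 188428) (nat_lit 20) .nil)))) (.g (nat_lit 0) (.e (nat_lit 286792) (nat_lit 0) .nil) .nil))))))) (.nd (nat_lit 6) (.nd (nat_lit 7) (.nd (nat_lit 8) (.nd (nat_lit 9) 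
(.lf (nat_lit 546868) (.g (nat_lit 3248) (.e (nat_lit 303112) (nat_lit 0) (.e (nat_lit 3252) (nat_lit 197) (.e (nat_lit 532535) (nat_lit 9) (.e (nat_lit 336099) (nat_lit 9) (.e (nat_lit 336013) (nat_lit 2) .nil))))) (.g (nat_lit 0) (.e (nat_lit 284196) (nat_lit 0) .nil) .nil))) 
(.lf (nat_lit 547380) (.g (nat_lit 325) (.e (nat_lit 303119) (nat_lit 3) (.e (nat_lit 204849) (nat_lit 25) (.e (nat_lit 327697) (nat_lit 7) .nil))) (.g (nat_lit 0) (.e (nat_lit 285030) (nat_lit 0) .nil) .nil)))) (.nd (nat_lit 9) 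
(.lf (nat_lit 547124) (.g (nat_lit 2011) (.e (nat_lit 303117) (nat_lit 2) (.e (nat_lit 196673) (nat_lit 15) (.e (nat_lit 81938) (nat_lit 20) (.e (nat_lit 1842) (nat_lit 123) (.e (nat_lit 548873) (nat_lit 5) (.e (nat_lit 1401) (nat_lit 106) (.e (nat_lit 327424) (nat_lit 8) .nil))))))) (.g (nat_lit 1) (.e (nat_lit 284640) (nat_lit 0) .nil) .nil))) 
(.lf (nat_lit 547636) (.g (nat_lit 727) (.e (nat_lit 303133) (nat_lit 9) (.e (nat_lit 426499) (nat_lit 27) (.e (nat_lit 336105) (nat_lit 9) .nil))) (.g (nat_lit 0) (.e (nat_lit 285892) (nat_lit 0) .nil) .nil))))) (.nd (nat_lit 8) (.nd (nat_lit 9) 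
(.lf (nat_lit 546996) (.g (nat_lit 3216) (.e (nat_lit 303117) (nat_lit 2) (.e (nat_lit 196665) (nat_lit 13) (.e (nat_lit 65628) (nat_lit 14) (.e (nat_lit 401428) (nat_lit 3) (.e (nat_lit 204846) (nat_lit 24) (.e (nat_lit 327424) (nat_lit 8) .nil)))))) (.g (nat_lit 1) (.e (nat_lit 284493) (nat_lit 0) .nil) .nil))) 
(.lf (nat_lit 547508) (.g (nat_lit 3170) (.e (nat_lit 303119) (nat_lit 3) (.e (nat_lit 204869) (nat_lit 29) (.e (nat_lit 360474) (nat_lit 8) (.e (nat_lit 557083) (nat_lit 10) (.e (nat_lit 16128) (nat_lit 225) .nil))))) (.g (nat_lit 0) (.e (nat_lit 285308) (nat_lit 0) .nil) .nil)))) (.nd (nat_lit 9) 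
(.lf (nat_lit 547252) (.g (nat_lit 2831) (.e (nat_lit 303118) (nat_lit 3) (.e (nat_lit 204868) (nat_lit 29) (.e (nat_lit 360466) (nat_lit 3) (.e (nat_lit 516139) (nat_lit 7) (.e (nat_lit 409645) (nat_lit 18) .nil))))) (.g (nat_lit 0) (.e (nat_lit 284838) (nat_lit 0) .nil) .nil))) 
(.lf (nat_lit 547764) (.g (nat_lit 2655) (.e (nat_lit 303143) (nat_lit 12) (.e (nat_lit 475185) (nat_lit 29) (.e (nat_lit 557100) (nat_lit 13) (.e (nat_lit 172112) (nat_lit 10) .nil)))) (.g (nat_lit 0) (.e (nat_lit 286751) (nat_lit 0) .nil) .nil)))))) (.nd (nat_lit 7) (.nd (nat_lit 8) (.nd (nat_lit 9) 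
(.lf (nat_lit 546932) (.g (nat_lit 2607) (.e (nat_lit 303116) (nat_lit 2) (.e (nat_lit 196666) (nat_lit 13) (.e (nat_lit 65610) (nat_lit 10) (.e (nat_lit 344117) (nat_lit 21) (.e (nat_lit 516106) (nat_lit 0) (.e (nat_lit 6966) (nat_lit 377) (.e (nat_lit 2799) (nat_lit 180) .nil))))))) (.g (nat_lit 1) (.e (nat_lit 284403) (nat_lit 0) .nil) .nil))) 
(.lf (nat_lit 547444) (.g (nat_lit 756) (.e (nat_lit 303119) (nat_lit 3) (.e (nat_lit 204866) (nat_lit 28) (.e (nat_lit 352288) (nat_lit 20) .nil))) (.g (nat_lit 0) (.e (nat_lit 285136) (nat_lit 0) .nil) .nil)))) (.nd (nat_lit 9) 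
(.lf (nat_lit 547188) (.g (nat_lit 3545) (.e (nat_lit 311040) (nat_lit 2) (.e (nat_lit 196674) (nat_lit 15) (.e (nat_lit 81956) (nat_lit 23) (.e (nat_lit 98350) (nat_lit 24) (.e (nat_lit 409649) (nat_lit 18) .nil))))) (.g (nat_lit 0) (.e (nat_lit 284712) (nat_lit 0) .nil) .nil))) 
(.lf (nat_lit 547700) (.g (nat_lit 4320) (.e (nat_lit 303140) (nat_lit 10) (.e (nat_lit 434275) (nat_lit 39) (.e (nat_lit 663574) (nat_lit 9) (.e (nat_lit 2741) (nat_lit 174) (.e (nat_lit 253992) (nat_lit 11) (.e (nat_lit 16425) (nat_lit 7) (.e (nat_lit 409649) (nat_lit 18) .nil))))))) (.g (nat_lit 1) (.e (nat_lit 286565) (nat_lit 0) .nil) .nil))))) (.nd (nat_lit 8) (.nd (nat_lit 9) 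
(.lf (nat_lit 547060) (.g (nat_lit 2646) (.e (nat_lit 303117) (nat_lit 2) (.e (nat_lit 196666) (nat_lit 13) (.e (nat_lit 65610) (nat_lit 10) (.e (nat_lit 344117) (nat_lit 21) (.e (nat_lit 524032) (nat_lit 0) .nil))))) (.g (nat_lit 0) (.e (nat_lit 284567) (nat_lit 0) .nil) .nil))) 
(.lf (nat_lit 547572) (.g (nat_lit 4460) (.e (nat_lit 303123) (nat_lit 7) (.e (nat_lit 409612) (nat_lit 10) (.e (nat_lit 934) (nat_lit 76) (.e (nat_lit 786483) (nat_lit 30) (.e (nat_lit 360475) (nat_lit 8) (.e (nat_lit 557119) (nat_lit 18) (.e (nat_lit 2798) (nat_lit 180) .nil))))))) (.g (nat_lit 1) (.e (nat_lit 285426) (nat_lit 0) .nil) .nil)))) (.nd (nat_lit 9) 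
(.lf (nat_lit 547316) (.g (nat_lit 1599) (.e (nat_lit 303119) (nat_lit 3) (.e (nat_lit 204837) (nat_lit 20) (.e (nat_lit 114714) (nat_lit 22) (.e (nat_lit 98048) (nat_lit 5) .nil)))) (.g (nat_lit 0) (.e (nat_lit 284923) (nat_lit 0) .nil) .nil))) 
(.lf (nat_lit 547828) (.g (nat_lit 253) (.e (nat_lit 303143) (nat_lit 12) (.e (nat_lit 475211) (nat_lit 41) (.e (nat_lit 712753) (nat_lit 30) .nil))) (.g (nat_lit 0) (.e (nat_lit 286881) (nat_lit 0) .nil) .nil))))))))) (.nd (nat_lit 4) (.nd (nat_lit 5) (.nd (nat_lit 6) (.nd (nat_lit 7) (.nd (nat_lit 8) (.nd (nat_lit 9) 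
(.lf (nat_lit 546828) (.g (nat_lit 2659) (.e (nat_lit 303107) (nat_lit 0) (.e (nat_lit 3238) (nat_lit 197) (.e (nat_lit 532535) (nat_lit 9) (.e (nat_lit 336163) (nat_lit 10) .nil)))) (.g (nat_lit 0) (.e (nat_lit 284133) (nat_lit 0) .nil) .nil))) 
(.lf (nat_lit 547340) (.g (nat_lit 2019) (.e (nat_lit 303119) (nat_lit 3) (.e (nat_lit 204846) (nat_lit 24) (.e (nat_lit 319528) (nat_lit 16) (.e (nat_lit 286735) (nat_lit 3) (.e (nat_lit 98349) (nat_lit 24) (.e (nat_lit 417536) (nat_lit 8) .nil)))))) (.g (nat_lit 1) (.e (nat_lit 284985) (nat_lit 0) .nil) .nil)))) (.nd (nat_lit 9) 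
(.lf (nat_lit 547084) (.g (nat_lit 840) (.e (nat_lit 303117) (nat_lit 2) (.e (nat_lit 196666) (nat_lit 13) (.e (nat_lit 65629) (nat_lit 14) .nil))) (.g (nat_lit 0) (.e (nat_lit 284593) (nat_lit 0) .nil) .nil))) 
(.lf (nat_lit 547596) (.g (nat_lit 1515) (.e (nat_lit 303127) (nat_lit 9) (.e (nat_lit 426545) (nat_lit 30) (.e (nat_lit 360456) (nat_lit 0) (.e (nat_lit 5949) (nat_lit 322) (.e (nat_lit 57350) (nat_lit 0) (.e (nat_lit 6113) (nat_lit 332) (.e (nat_lit 2810) (nat_lit 180) .nil))))))) (.g (nat_lit 1) (.e (nat_lit 285625) (nat_lit 0) .nil) .nil))))) (.nd (nat_lit 8) (.nd (nat_lit 9) 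
(.lf (nat_lit 546956) (.g (nat_lit 2503) (.e (nat_lit 303116) (nat_lit 2) (.e (nat_lit 196666) (nat_lit 13) (.e (nat_lit 65628) (nat_lit 14) (.e (nat_lit 401428) (nat_lit 3) (.e (nat_lit 204849) (nat_lit 25) .nil))))) (.g (nat_lit 0) (.e (nat_lit 284427) (nat_lit 0) .nil) .nil))) 
(.lf (nat_lit 547468) (.g (nat_lit 3557) (.e (nat_lit 303119) (nat_lit 3) (.e (nat_lit 204868) (nat_lit 29) (.e (nat_lit 360466) (nat_lit 3) (.e (nat_lit 516139) (nat_lit 7) (.e (nat_lit 409643) (nat_lit 18) .nil))))) (.g (nat_lit 1) (.e (nat_lit 285189) (nat_lit 0) .nil) .nil)))) (.nd (nat_lit 9) 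
(.lf (nat_lit 547212) (.g (nat_lit 956) (.e (nat_lit 303118) (nat_lit 3) (.e (nat_lit 204855) (nat_lit 26) (.e (nat_lit 336099) (nat_lit 9) (.e (nat_lit 336013) (nat_lit 2) .nil)))) (.g (nat_lit 0) (.e (nat_lit 284745) (nat_lit 0) .nil) .nil))) 
(.lf (nat_lit 547724) (.g (nat_lit 984) (.e (nat_lit 303142) (nat_lit 12) (.e (nat_lit 475214) (nat_lit 42) (.e (nat_lit 720954) (nat_lit 25) .nil))) (.g (nat_lit 0) (.e (nat_lit 286661) (nat_lit 0) .nil) .nil)))))) (.nd (nat_lit 7) (.nd (nat_lit 8) (.nd (nat_lit 9) 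
(.lf (nat_lit 546892) (.g (nat_lit 4099) (.e (nat_lit 303111) (nat_lit 0) (.e (nat_lit 3238) (nat_lit 197) (.e (nat_lit 532535) (nat_lit 9) (.e (nat_lit 336099) (nat_lit 9) (.e (nat_lit 336024) (nat_lit 3) .nil))))) (.g (nat_lit 0) (.e (nat_lit 284265) (nat_lit 0) .nil) .nil))) 
(.lf (nat_lit 547404) (.g (nat_lit 1002) (.e (nat_lit 303119) (nat_lit 3) (.e (nat_lit 204855) (nat_lit 26) (.e (nat_lit 336094) (nat_lit 9) .nil))) (.g (nat_lit 0) (.e (nat_lit 285062) (nat_lit 0) .nil) .nil)))) (.nd (nat_lit 9) 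
(.lf (nat_lit 547148) (.g (nat_lit 766) (.e (nat_lit 303117) (nat_lit 2) (.e (nat_lit 196674) (nat_lit 15) (.e (nat_lit 81951) (nat_lit 22) (.e (nat_lit 90165) (nat_lit 12) .nil)))) (.g (nat_lit 0) (.e (nat_lit 284668) (nat_lit 0) .nil) .nil))) 
(.lf (nat_lit 547660) (.g (nat_lit 437) (.e (nat_lit 303137) (nat_lit 10) (.e (nat_lit 434268) (nat_lit 36) (.e (nat_lit 639020) (nat_lit 16) .nil))) (.g (nat_lit 0) (.e (nat_lit 286269) (nat_lit 0) .nil) .nil))))) (.nd (nat_lit 8) (.nd (nat_lit 9) 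
(.lf (nat_lit 547020) (.g (nat_lit 3079) (.e (nat_lit 303117) (nat_lit 2) (.e (nat_lit 196666) (nat_lit 13) (.e (nat_lit 65610) (nat_lit 10) (.e (nat_lit 344117) (nat_lit 21) (.e (nat_lit 516097) (nat_lit 0) .nil))))) (.g (nat_lit 0) (.e (nat_lit 284527) (nat_lit 0) .nil) .nil))) 
(.lf (nat_lit 547532) (.g (nat_lit 350) (.e (nat_lit 303119) (nat_lit 3) (.e (nat_lit 204870) (nat_lit 29) (.e (nat_lit 360464) (nat_lit 2) .nil))) (.g (nat_lit 0) (.e (nat_lit 285370) (nat_lit 0) .nil) .nil)))) (.nd (nat_lit 9) 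
(.lf (nat_lit 547276) (.g (nat_lit 1830) (.e (nat_lit 303118) (nat_lit 3) (.e (nat_lit 204869) (nat_lit 29) (.e (nat_lit 360467) (nat_lit 3) (.e (nat_lit 516142) (nat_lit 8) .nil)))) (.g (nat_lit 0) (.e (nat_lit 284866) (nat_lit 0) .nil) .nil))) 
(.lf (nat_lit 547788) (.g (nat_lit 2275) (.e (nat_lit 303143) (nat_lit 12) (.e (nat_lit 475185) (nat_lit 29) (.e (nat_lit 557101) (nat_lit 13) (.e (nat_lit 172115) (nat_lit 10) (.e (nat_lit 434222) (nat_lit 19) (.e (nat_lit 507648) (nat_lit 0) (.e (nat_lit 2798) (nat_lit 180) .nil))))))) (.g (nat_lit 1) (.e (nat_lit 286779) (nat_lit 0) .nil) .nil))))))) 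
(.nd (nat_lit 6) (.nd (nat_lit 7) (.nd (nat_lit 8) (.nd (nat_lit 9) 
(.lf (nat_lit 546860) (.g (nat_lit 3961) (.e (nat_lit 303110) (nat_lit 0) (.e (nat_lit 3238) (nat_lit 197) (.e (nat_lit 532535) (nat_lit 9) (.e (nat_lit 336173) (nat_lit 10) (.e (nat_lit 344119) (nat_lit 21) .nil))))) (.g (nat_lit 0) (.e (nat_lit 284185) (nat_lit 0) .nil) .nil))) 
(.lf (nat_lit 547372) (.g (nat_lit 2304) (.e (nat_lit 303119) (nat_lit 3) (.e (nat_lit 204846) (nat_lit 24) (.e (nat_lit 327424) (nat_lit 16) (.e (nat_lit 286735) (nat_lit 3) (.e (nat_lit 98350) (nat_lit 24) (.e (nat_lit 417536) (nat_lit 8) .nil)))))) (.g (nat_lit 1) (.e (nat_lit 285019) (nat_lit 0) .nil) .nil)))) (.nd (nat_lit 9) 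
(.lf (nat_lit 547116) (.g (nat_lit 1424) (.e (nat_lit 303117) (nat_lit 2) (.e (nat_lit 196672) (nat_lit 15) (.e (nat_lit 81956) (nat_lit 23) (.e (nat_lit 98323) (nat_lit 17) .nil)))) (.g (nat_lit 0) (.e (nat_lit 284632) (nat_lit 0) .nil) .nil))) 
(.lf (nat_lit 547628) (.g (nat_lit 611) (.e (nat_lit 303133) (nat_lit 9) (.e (nat_lit 426412) (nat_lit 15) (.e (nat_lit 2221) (nat_lit 146) .nil))) (.g (nat_lit 0) (.e (nat_lit 285843) (nat_lit 0) .nil) .nil))))) (.nd (nat_lit 8) (.nd (nat_lit 9) 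
(.lf (nat_lit 546988) (.g (nat_lit 781) (.e (nat_lit 303117) (nat_lit 2) (.e (nat_lit 196665) (nat_lit 13) (.e (nat_lit 65561) (nat_lit 0) (.e (nat_lit 7936) (nat_lit 360) .nil)))) (.g (nat_lit 0) (.e (nat_lit 284479) (nat_lit 0) .nil) .nil))) 
(.lf (nat_lit 547500) (.g (nat_lit 2808) (.e (nat_lit 303119) (nat_lit 3) (.e (nat_lit 204869) (nat_lit 29) (.e (nat_lit 360468) (nat_lit 3) (.e (nat_lit 516140) (nat_lit 8) .nil)))) (.g (nat_lit 0) (.e (nat_lit 285273) (nat_lit 0) .nil) .nil)))) (.nd (nat_lit 9) 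
(.lf (nat_lit 547244) (.g (nat_lit 2865) (.e (nat_lit 303118) (nat_lit 3) (.e (nat_lit 204866) (nat_lit 28) (.e (nat_lit 352315) (nat_lit 23) (.e (nat_lit 98349) (nat_lit 24) (.e (nat_lit 417536) (nat_lit 18) .nil))))) (.g (nat_lit 1) (.e (nat_lit 284825) (nat_lit 0) .nil) .nil))) 
(.lf (nat_lit 547756) (.g (nat_lit 1838) (.e (nat_lit 303143) (nat_lit 12) (.e (nat_lit 475185) (nat_lit 29) (.e (nat_lit 557100) (nat_lit 13) (.e (nat_lit 172106) (nat_lit 10) (.e (nat_lit 434223) (nat_lit 19) (.e (nat_lit 499748) (nat_lit 0) (.e (nat_lit 2795) (nat_lit 180) .nil))))))) (.g (nat_lit 1) (.e (nat_lit 286742) (nat_lit 0) .nil) .nil)))))) 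
(.nd (nat_lit 7) (.nd (nat_lit 8) (.nd (nat_lit 9) 
(.lf (nat_lit 546924) (.g (nat_lit 1557) (.e (nat_lit 303116) (nat_lit 2) (.e (nat_lit 196666) (nat_lit 13) (.e (nat_lit 65599) (nat_lit 9) (.e (nat_lit 336028) (nat_lit 3) (.e (nat_lit 98350) (nat_lit 24) .nil))))) (.g (nat_lit 0) (.e (nat_lit 284394) (nat_lit 0) .nil) .nil))) 
(.lf (nat_lit 547436) (.g (nat_lit 441) (.e (nat_lit 303119) (nat_lit 3) (.e (nat_lit 204861) (nat_lit 26) (.e (nat_lit 336186) (nat_lit 11) .nil))) (.g (nat_lit 0) (.e (nat_lit 285118) (nat_lit 0) .nil) .nil)))) (.nd (nat_lit 9) 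
(.lf (nat_lit 547180) (.g (nat_lit 2671) (.e (nat_lit 311040) (nat_lit 2) (.e (nat_lit 196666) (nat_lit 13) (.e (nat_lit 65610) (nat_lit 10) (.e (nat_lit 344117) (nat_lit 21) (.e (nat_lit 516138) (nat_lit 7) .nil))))) (.g (nat_lit 0) (.e (nat_lit 284704) (nat_lit 0) .nil) .nil))) 
(.lf (nat_lit 547692) (.g (nat_lit 1041) (.e (nat_lit 303139) (nat_lit 10) (.e (nat_lit 434268) (nat_lit 36) (.e (nat_lit 639020) (nat_lit 16) (.e (nat_lit 65585) (nat_lit 7) .nil)))) (.g (nat_lit 0) (.e (nat_lit 286435) (nat_lit 0) .nil) .nil))))) (.nd (nat_lit 8) (.nd (nat_lit 9) 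
(.lf (nat_lit 547052) (.g (nat_lit 3720) (.e (nat_lit 303117) (nat_lit 2) (.e (nat_lit 196666) (nat_lit 13) (.e (nat_lit 65610) (nat_lit 10) (.e (nat_lit 344117) (nat_lit 21) (.e (nat_lit 516106) (nat_lit 0) (.e (nat_lit 7014) (nat_lit 377) (.e (nat_lit 2795) (nat_lit 180) .nil))))))) (.g (nat_lit 1) (.e (nat_lit 284559) (nat_lit 0) .nil) .nil))) 
(.lf (nat_lit 547564) (.g (nat_lit 729) (.e (nat_lit 311040) (nat_lit 3) (.e (nat_lit 204855) (nat_lit 26) (.e (nat_lit 336163) (nat_lit 10) .nil))) (.g (nat_lit 0) (.e (nat_lit 285411) (nat_lit 0) .nil) .nil)))) (.nd (nat_lit 9) 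
(.lf (nat_lit 547308) (.g (nat_lit 1727) (.e (nat_lit 303118) (nat_lit 3) (.e (nat_lit 204885) (nat_lit 33) (.e (nat_lit 401448) (nat_lit 10) (.e (nat_lit 434234) (nat_lit 23) .nil)))) (.g (nat_lit 0) (.e (nat_lit 284902) (nat_lit 0) .nil) .nil))) 
(.lf (nat_lit 547820) (.g (nat_lit 3495) (.e (nat_lit 303143) (nat_lit 12) (.e (nat_lit 475185) (nat_lit 29) (.e (nat_lit 557109) (nat_lit 15) (.e (nat_lit 188447) (nat_lit 22) (.e (nat_lit 196683) (nat_lit 18) .nil))))) (.g (nat_lit 0) (.e (nat_lit 286818) (nat_lit 0) .nil) .nil)))))))) (.nd (nat_lit 5) (.nd (nat_lit 6) (.nd (nat_lit 7) (.nd (nat_lit 8) (.nd (nat_lit 9) 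
(.lf (nat_lit 546844) (.g (nat_lit 3415) (.e (nat_lit 303108) (nat_lit 0) (.e (nat_lit 3238) (nat_lit 197) (.e (nat_lit 532535) (nat_lit 9) (.e (nat_lit 336178) (nat_lit 10) (.e (nat_lit 344117) (nat_lit 21) .nil))))) (.g (nat_lit 0) (.e (nat_lit 284158) (nat_lit 0) .nil) .nil))) 
(.lf (nat_lit 547356) (.g (nat_lit 2890) (.e (nat_lit 303119) (nat_lit 3) (.e (nat_lit 204846) (nat_lit 24) (.e (nat_lit 319532) (nat_lit 16) (.e (nat_lit 286735) (nat_lit 3) (.e (nat_lit 98350) (nat_lit 24) (.e (nat_lit 417536) (nat_lit 8) .nil)))))) (.g (nat_lit 1) (.e (nat_lit 285002) (nat_lit 0) .nil) .nil)))) (.nd (nat_lit 9) 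
(.lf (nat_lit 547100) (.g (nat_lit 1428) (.e (nat_lit 303117) (nat_lit 2) (.e (nat_lit 196672) (nat_lit 15) (.e (nat_lit 81951) (nat_lit 22) (.e (nat_lit 90165) (nat_lit 12) (.e (nat_lit 164207) (nat_lit 176) .nil))))) (.g (nat_lit 0) (.e (nat_lit 284615) (nat_lit 0) .nil) .nil))) 
(.lf (nat_lit 547612) (.g (nat_lit 3589) (.e (nat_lit 303133) (nat_lit 9) (.e (nat_lit 426412) (nat_lit 15) (.e (nat_lit 1856) (nat_lit 124) (.e (nat_lit 557100) (nat_lit 13) (.e (nat_lit 172094) (nat_lit 9) (.e (nat_lit 426125) (nat_lit 2) (.e (nat_lit 204544) (nat_lit 18) (.e (nat_lit 2798) (nat_lit 180) .nil)))))))) (.g (nat_lit 1) (.e (nat_lit 285796) (nat_lit 0) .nil) .nil))))) 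
(.nd (nat_lit 8) (.nd (nat_lit 9) 
(.lf (nat_lit 546972) (.g (nat_lit 3735) (.e (nat_lit 303116) (nat_lit 2) (.e (nat_lit 196674) (nat_lit 15) (.e (nat_lit 81956) (nat_lit 23) (.e (nat_lit 98350) (nat_lit 24) (.e (nat_lit 409648) (nat_lit 18) .nil))))) (.g (nat_lit 1) (.e (nat_lit 284446) (nat_lit 0) .nil) .nil))) 
(.lf (nat_lit 547484) (.g (nat_lit 3074) (.e (nat_lit 303119) (nat_lit 3) (.e (nat_lit 204868) (nat_lit 29) (.e (nat_lit 360475) (nat_lit 8) (.e (nat_lit 557067) (nat_lit 9) .nil)))) (.g (nat_lit 0) (.e (nat_lit 285206) (nat_lit 0) .nil) .nil)))) (.nd (nat_lit 9) 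
(.lf (nat_lit 547228) (.g (nat_lit 455) (.e (nat_lit 303118) (nat_lit 3) (.e (nat_lit 204855) (nat_lit 26) (.e (nat_lit 336226) (nat_lit 14) .nil))) (.g (nat_lit 0) (.e (nat_lit 284789) (nat_lit 0) .nil) .nil))) 
(.lf (nat_lit 547740) (.g (nat_lit 2502) (.e (nat_lit 303143) (nat_lit 12) (.e (nat_lit 475185) (nat_lit 29) (.e (nat_lit 557100) (nat_lit 13) (.e (nat_lit 172092) (nat_lit 9) .nil)))) (.g (nat_lit 0) (.e (nat_lit 286723) (nat_lit 0) .nil) .nil)))))) (.nd (nat_lit 7) (.nd (nat_lit 8) (.nd (nat_lit 9) 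
(.lf (nat_lit 546908) (.g (nat_lit 1198) (.e (nat_lit 303111) (nat_lit 0) (.e (nat_lit 3468) (nat_lit 217) (.e (nat_lit 696343) (nat_lit 8) (.e (nat_lit 172123) (nat_lit 13) (.e (nat_lit 483377) (nat_lit 22) .nil))))) (.g (nat_lit 0) (.e (nat_lit 284308) (nat_lit 0) .nil) .nil))) 
(.lf (nat_lit 547420) (.g (nat_lit 1046) (.e (nat_lit 303119) (nat_lit 3) (.e (nat_lit 204855) (nat_lit 26) (.e (nat_lit 336172) (nat_lit 10) .nil))) (.g (nat_lit 0) (.e (nat_lit 285095) (nat_lit 0) .nil) .nil)))) (.nd (nat_lit 9) 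
(.lf (nat_lit 547164) (.g (nat_lit 1277) (.e (nat_lit 303117) (nat_lit 2) (.e (nat_lit 196674) (nat_lit 15) (.e (nat_lit 81956) (nat_lit 23) (.e (nat_lit 98325) (nat_lit 17) .nil)))) (.g (nat_lit 0) (.e (nat_lit 284687) (nat_lit 0) .nil) .nil))) 
(.lf (nat_lit 547676) (.g (nat_lit 459) (.e (nat_lit 303138) (nat_lit 10) (.e (nat_lit 434268) (nat_lit 36) (.e (nat_lit 639020) (nat_lit 16) .nil))) (.g (nat_lit 0) (.e (nat_lit 286371) (nat_lit 0) .nil) .nil))))) (.nd (nat_lit 8) (.nd (nat_lit 9) 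
(.lf (nat_lit 547036) (.g (nat_lit 1914) (.e (nat_lit 303117) (nat_lit 2) (.e (nat_lit 196666) (nat_lit 13) (.e (nat_lit 65610) (nat_lit 10) (.e (nat_lit 344117) (nat_lit 21) (.e (nat_lit 516102) (nat_lit 0) .nil))))) (.g (nat_lit 0) (.e (nat_lit 284543) (nat_lit 0) .nil) .nil))) 
(.lf (nat_lit 547548) (.g (nat_lit 3048) (.e (nat_lit 303119) (nat_lit 3) (.e (nat_lit 204878) (nat_lit 31) (.e (nat_lit 376855) (nat_lit 20) (.e (nat_lit 1800) (nat_lit 119) (.e (nat_lit 516102) (nat_lit 0) (.e (nat_lit 6989) (nat_lit 377) (.e (nat_lit 2810) (nat_lit 180) .nil))))))) (.g (nat_lit 1) (.e (nat_lit 285391) (nat_lit 0) .nil) .nil)))) (.nd (nat_lit 9) 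
(.lf (nat_lit 547292) (.g (nat_lit 2000) (.e (nat_lit 303118) (nat_lit 3) (.e (nat_lit 204869) (nat_lit 29) (.e (nat_lit 360475) (nat_lit 8) (.e (nat_lit 557084) (nat_lit 10) (.e (nat_lit 8536) (nat_lit 225) .nil))))) (.g (nat_lit 0) (.e (nat_lit 284885) (nat_lit 0) .nil) .nil))) 
(.lf (nat_lit 547804) (.g (nat_lit 3749) (.e (nat_lit 303143) (nat_lit 12) (.e (nat_lit 475185) (nat_lit 29) (.e (nat_lit 557107) (nat_lit 15) (.e (nat_lit 188447) (nat_lit 22) (.e (nat_lit 196683) (nat_lit 18) (.e (nat_lit 2810) (nat_lit 180) .nil)))))) (.g (nat_lit 1) (.e (nat_lit 286801) (nat_lit 0) .nil) .nil))))))) (.nd (nat_lit 6) (.nd (nat_lit 7) (.nd (nat_lit 8) (.nd (nat_lit 9) 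
(.lf (nat_lit 546876) (.g (nat_lit 2567) (.e (nat_lit 303112) (nat_lit 0) (.e (nat_lit 3252) (nat_lit 197) (.e (nat_lit 532558) (nat_lit 14) (.e (nat_lit 376863) (nat_lit 22) (.e (nat_lit 90130) (nat_lit 9) (.e (nat_lit 2830) (nat_lit 182) (.e (nat_lit 417536) (nat_lit 18) .nil))))))) (.g (nat_lit 1) (.e (nat_lit 284214) (nat_lit 0) .nil) .nil))) 
(.lf (nat_lit 547388) (.g (nat_lit 4060) (.e (nat_lit 303119) (nat_lit 3) (.e (nat_lit 204852) (nat_lit 26) (.e (nat_lit 336130) (nat_lit 9) (.e (nat_lit 336027) (nat_lit 3) (.e (nat_lit 98350) (nat_lit 24) (.e (nat_lit 409643) (nat_lit 18) .nil)))))) (.g (nat_lit 1) (.e (nat_lit 285039) (nat_lit 0) .nil) .nil)))) (.nd (nat_lit 9) 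
(.lf (nat_lit 547132) (.g (nat_lit 2771) (.e (nat_lit 303117) (nat_lit 2) (.e (nat_lit 196673) (nat_lit 15) (.e (nat_lit 81956) (nat_lit 23) (.e (nat_lit 98322) (nat_lit 17) (.e (nat_lit 7936) (nat_lit 377) .nil))))) (.g (nat_lit 0) (.e (nat_lit 284652) (nat_lit 0) .nil) .nil))) 
(.lf (nat_lit 547644) (.g (nat_lit 2338) (.e (nat_lit 303132) (nat_lit 9) (.e (nat_lit 426470) (nat_lit 25) (.e (nat_lit 319490) (nat_lit 0) (.e (nat_lit 5664) (nat_lit 312) (.e (nat_lit 2852) (nat_lit 184) .nil))))) (.g (nat_lit 0) (.e (nat_lit 286048) (nat_lit 0) .nil) .nil))))) (.nd (nat_lit 8) (.nd (nat_lit 9) 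
(.lf (nat_lit 547004) (.g (nat_lit 337) (.e (nat_lit 303117) (nat_lit 2) (.e (nat_lit 196666) (nat_lit 13) (.e (nat_lit 65596) (nat_lit 9) .nil))) (.g (nat_lit 0) (.e (nat_lit 284506) (nat_lit 0) .nil) .nil))) 
(.lf (nat_lit 547516) (.g (nat_lit 4384) (.e (nat_lit 303119) (nat_lit 3) (.e (nat_lit 204869) (nat_lit 29) (.e (nat_lit 360475) (nat_lit 8) (.e (nat_lit 557067) (nat_lit 9) (.e (nat_lit 214) (nat_lit 19) .nil))))) (.g (nat_lit 0) (.e (nat_lit 285334) (nat_lit 0) .nil) .nil)))) (.nd (nat_lit 9) 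
(.lf (nat_lit 547260) (.g (nat_lit 323) (.e (nat_lit 303118) (nat_lit 3) (.e (nat_lit 204868) (nat_lit 29) (.e (nat_lit 368384) (nat_lit 3) .nil))) (.g (nat_lit 0) (.e (nat_lit 284846) (nat_lit 0) .nil) .nil))) 
(.lf (nat_lit 547772) (.g (nat_lit 3059) (.e (nat_lit 303143) (nat_lit 12) (.e (nat_lit 475185) (nat_lit 29) (.e (nat_lit 557100) (nat_lit 13) (.e (nat_lit 172113) (nat_lit 10) (.e (nat_lit 434226) (nat_lit 20) (.e (nat_lit 507945) (nat_lit 18) .nil)))))) (.g (nat_lit 1) (.e (nat_lit 286760) (nat_lit 0) .nil) .nil)))))) (.nd (nat_lit 7) (.nd (nat_lit 8) (.nd (nat_lit 9) 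
(.lf (nat_lit 546940) (.g (nat_lit 3469) (.e (nat_lit 303116) (nat_lit 2) (.e (nat_lit 196666) (nat_lit 13) (.e (nat_lit 65610) (nat_lit 10) (.e (nat_lit 344117) (nat_lit 21) (.e (nat_lit 516106) (nat_lit 0) (.e (nat_lit 7936) (nat_lit 377) (.e (nat_lit 2802) (nat_lit 180) .nil))))))) (.g (nat_lit 1) (.e (nat_lit 284411) (nat_lit 0) .nil) .nil))) 
(.lf (nat_lit 547452) (.g (nat_lit 2224) (.e (nat_lit 303119) (nat_lit 3) (.e (nat_lit 204866) (nat_lit 28) (.e (nat_lit 352315) (nat_lit 23) (.e (nat_lit 98349) (nat_lit 24) (.e (nat_lit 417536) (nat_lit 18) .nil))))) (.g (nat_lit 0) (.e (nat_lit 285165) (nat_lit 0) .nil) .nil)))) (.nd (nat_lit 9) 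
(.lf (nat_lit 547196) (.g (nat_lit 1577) (.e (nat_lit 303118) (nat_lit 3) (.e (nat_lit 204846) (nat_lit 24) (.e (nat_lit 319490) (nat_lit 0) (.e (nat_lit 5277) (nat_lit 298) .nil)))) (.g (nat_lit 0) (.e (nat_lit 284724) (nat_lit 0) .nil) .nil))) 
(.lf (nat_lit 547708) (.g (nat_lit 1842) (.e (nat_lit 303142) (nat_lit 12) (.e (nat_lit 475185) (nat_lit 29) (.e (nat_lit 557107) (nat_lit 15) (.e (nat_lit 188424) (nat_lit 20) .nil)))) (.g (nat_lit 0) (.e (nat_lit 286632) (nat_lit 0) .nil) .nil))))) (.nd (nat_lit 8) (.nd (nat_lit 9) 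
(.lf (nat_lit 547068) (.g (nat_lit 3025) (.e (nat_lit 303117) (nat_lit 2) (.e (nat_lit 196666) (nat_lit 13) (.e (nat_lit 65610) (nat_lit 10) (.e (nat_lit 344129) (nat_lit 26) (.e (nat_lit 557067) (nat_lit 9) (.e (nat_lit 20) (nat_lit 0) (.e (nat_lit 6080) (nat_lit 332) (.e (nat_lit 2809) (nat_lit 180) .nil)))))))) (.g (nat_lit 1) (.e (nat_lit 284576) (nat_lit 0) .nil) .nil))) 
(.lf (nat_lit 547580) (.g (nat_lit 1528) (.e (nat_lit 303124) (nat_lit 7) (.e (nat_lit 409646) (nat_lit 18) (.e (nat_lit 303140) (nat_lit 10) (.e (nat_lit 434266) (nat_lit 35) .nil)))) (.g (nat_lit 0) (.e (nat_lit 285528) (nat_lit 0) .nil) .nil)))) (.nd (nat_lit 9) 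
(.lf (nat_lit 547324) (.g (nat_lit 382) (.e (nat_lit 303119) (nat_lit 3) (.e (nat_lit 204846) (nat_lit 24) (.e (nat_lit 319490) (nat_lit 0) .nil))) (.g (nat_lit 0) (.e (nat_lit 284942) (nat_lit 0) .nil) .nil))) 
(.lf (nat_lit 547836) (.g (nat_lit 1549) (.e (nat_lit 303143) (nat_lit 12) (.e (nat_lit 475211) (nat_lit 41) (.e (nat_lit 712755) (nat_lit 30) (.e (nat_lit 450597) (nat_lit 17) (.e (nat_lit 671488) (nat_lit 14) .nil))))) (.g (nat_lit 0) (.e (nat_lit 286935) (nat_lit 0) .nil) .nil))))))))))) 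
(.nd (nat_lit 2) (.nd (nat_lit 3) (.nd (nat_lit 4) (.nd (nat_lit 5) (.nd (nat_lit 6) 
(.nd (nat_lit 7) (.nd (nat_lit 8) (.nd (nat_lit 9) 
(.lf (nat_lit 546818) (.g (nat_lit 1230) (.e (nat_lit 303106) (nat_lit 0) (.e (nat_lit 3114) (nat_lit 193) (.e (nat_lit 500075) (nat_lit 20) (.e (nat_lit 81952) (nat_lit 22) (.e (nat_lit 90130) (nat_lit 9) (.e (nat_lit 2830) (nat_lit 182) (.e (nat_lit 417536) (nat_lit 18) .nil))))))) (.g (nat_lit 1) (.e (nat_lit 284116) (nat_lit 0) .nil) .nil))) 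
(.lf (nat_lit 547330) (.g (nat_lit 1739) (.e (nat_lit 303119) (nat_lit 3) (.e (nat_lit 204846) (nat_lit 24) (.e (nat_lit 319504) (nat_lit 10) (.e (nat_lit 5734) (nat_lit 312) .nil)))) (.g (nat_lit 0) (.e (nat_lit 284952) (nat_lit 0) .nil) .nil)))) (.nd (nat_lit 9) 
(.lf (nat_lit 547074) (.g (nat_lit 610) (.e (nat_lit 303117) (nat_lit 2) (.e (nat_lit 196666) (nat_lit 13) (.e (nat_lit 65611) (nat_lit 10) .nil))) (.g (nat_lit 0) (.e (nat_lit 284582) (nat_lit 0) .nil) .nil))) 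
(.lf (nat_lit 547586) (.g (nat_lit 1890) (.e (nat_lit 303127) (nat_lit 9) (.e (nat_lit 426449) (nat_lit 20) (.e (nat_lit 114721) (nat_lit 24) (.e (nat_lit 106534) (nat_lit 11) (.e (nat_lit 16392) (nat_lit 0) (.e (nat_lit 6989) (nat_lit 377) (.e (nat_lit 2810) (nat_lit 180) .nil))))))) (.g (nat_lit 1) (.e (nat_lit 285586) (nat_lit 0) .nil) .nil))))) (.nd (nat_lit 8) (.nd (nat_lit 9) 
(.lf (nat_lit 546946) (.g (nat_lit 2234) (.e (nat_lit 303116) (nat_lit 2) (.e (nat_lit 196666) (nat_lit 13) (.e (nat_lit 65617) (nat_lit 10) (.e (nat_lit 344117) (nat_lit 21) (.e (nat_lit 516142) (nat_lit 8) .nil))))) (.g (nat_lit 0) (.e (nat_lit 284417) (nat_lit 0) .nil) .nil))) 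
(.lf (nat_lit 547458) (.g (nat_lit 2195) (.e (nat_lit 303119) (nat_lit 3) (.e (nat_lit 204867) (nat_lit 28) (.e (nat_lit 352315) (nat_lit 23) (.e (nat_lit 98350) (nat_lit 24) (.e (nat_lit 417536) (nat_lit 18) .nil))))) (.g (nat_lit 0) (.e (nat_lit 285175) (nat_lit 0) .nil) .nil)))) (.nd (nat_lit 9) 
(.lf (nat_lit 547202) (.g (nat_lit 654) (.e (nat_lit 303118) (nat_lit 3) (.e (nat_lit 204852) (nat_lit 26) (.e (nat_lit 343808) (nat_lit 10) .nil))) (.g (nat_lit 0) (.e (nat_lit 284734) (nat_lit 0) .nil) .nil))) 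
(.lf (nat_lit 547714) (.g (nat_lit 1385) (.e (nat_lit 303142) (nat_lit 12) (.e (nat_lit 475211) (nat_lit 41) (.e (nat_lit 712753) (nat_lit 30) (.e (nat_lit 450561) (nat_lit 0) .nil)))) (.g (nat_lit 0) (.e (nat_lit 286650) (nat_lit 0) .nil) .nil)))))) (.nd (nat_lit 7) (.nd (nat_lit 8) (.nd (nat_lit 9) 
(.lf (nat_lit 546882) (.g (nat_lit 2038) (.e (nat_lit 303112) (nat_lit 0) (.e (nat_lit 3252) (nat_lit 197) (.e (nat_lit 532561) (nat_lit 14) (.e (nat_lit 376855) (nat_lit 20) (.e (nat_lit 1800) (nat_lit 119) (.e (nat_lit 516139) (nat_lit 7) (.e (nat_lit 417536) (nat_lit 18) .nil))))))) (.g (nat_lit 1) (.e (nat_lit 284221) (nat_lit 0) .nil) .nil))) 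
(.lf (nat_lit 547394) (.g (nat_lit 893) (.e (nat_lit 303119) (nat_lit 3) (.e (nat_lit 204852) (nat_lit 26) (.e (nat_lit 336142) (nat_lit 9) .nil))) (.g (nat_lit 0) (.e (nat_lit 285047) (nat_lit 0) .nil) .nil)))) (.nd (nat_lit 9) 
(.lf (nat_lit 547138) (.g (nat_lit 1602) (.e (nat_lit 303117) (nat_lit 2) (.e (nat_lit 196673) (nat_lit 15) (.e (nat_lit 81962) (nat_lit 25) (.e (nat_lit 139285) (nat_lit 9) (.e (nat_lit 2830) (nat_lit 182) (.e (nat_lit 417536) (nat_lit 18) .nil)))))) (.g (nat_lit 1) (.e (nat_lit 284658) (nat_lit 0) .nil) .nil))) 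
(.lf (nat_lit 547650) (.g (nat_lit 412) (.e (nat_lit 303136) (nat_lit 10) (.e (nat_lit 434268) (nat_lit 36) (.e (nat_lit 639020) (nat_lit 16) .nil))) (.g (nat_lit 0) (.e (nat_lit 286130) (nat_lit 0) .nil) .nil))))) (.nd (nat_lit 8) (.nd (nat_lit 9) 
(.lf (nat_lit 547010) (.g (nat_lit 3129) (.e (nat_lit 303117) (nat_lit 2) (.e (nat_lit 196666) (nat_lit 13) (.e (nat_lit 65599) (nat_lit 9) (.e (nat_lit 336013) (nat_lit 2) (.e (nat_lit 90165) (nat_lit 12) (.e (nat_lit 164208) (nat_lit 176) (.e (nat_lit 7936) (nat_lit 180) .nil))))))) (.g (nat_lit 1) (.e (nat_lit 284515) (nat_lit 0) .nil) .nil))) 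
(.lf (nat_lit 547522) (.g (nat_lit 2329) (.e (nat_lit 303119) (nat_lit 3) (.e (nat_lit 204869) (nat_lit 29) (.e (nat_lit 360475) (nat_lit 8) (.e (nat_lit 557073) (nat_lit 9) .nil)))) (.g (nat_lit 0) (.e (nat_lit 285353) (nat_lit 0) .nil) .nil)))) (.nd (nat_lit 9) 
(.lf (nat_lit 547266) (.g (nat_lit 1420) (.e (nat_lit 303118) (nat_lit 3) (.e (nat_lit 204869) (nat_lit 29) (.e (nat_lit 360465) (nat_lit 3) (.e (nat_lit 516139) (nat_lit 7) .nil)))) (.g (nat_lit 0) (.e (nat_lit 284856) (nat_lit 0) .nil) .nil))) 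
(.lf (nat_lit 547778) (.g (nat_lit 458) (.e (nat_lit 303143) (nat_lit 12) (.e (nat_lit 475185) (nat_lit 29) (.e (nat_lit 557101) (nat_lit 13) .nil))) (.g (nat_lit 0) (.e (nat_lit 286769) (nat_lit 0) .nil) .nil))))))) (.nd (nat_lit 6) (.nd (nat_lit 7) (.nd (nat_lit 8) (.nd (nat_lit 9) 
(.lf (nat_lit 546850) (.g (nat_lit 2606) (.e (nat_lit 303109) (nat_lit 0) (.e (nat_lit 3238) (nat_lit 197) (.e (nat_lit 532535) (nat_lit 9) (.e (nat_lit 336111) (nat_lit 9) .nil)))) (.g (nat_lit 0) (.e (nat_lit 284170) (nat_lit 0) .nil) .nil))) 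
(.lf (nat_lit 547362) (.g (nat_lit 4642) (.e (nat_lit 303119) (nat_lit 3) (.e (nat_lit 204846) (nat_lit 24) (.e (nat_lit 319533) (nat_lit 16) (.e (nat_lit 286735) (nat_lit 3) (.e (nat_lit 98325) (nat_lit 17) (.e (nat_lit 6986) (nat_lit 377) (.e (nat_lit 1376) (nat_lit 104) .nil))))))) (.g (nat_lit 1) (.e (nat_lit 285009) (nat_lit 0) .nil) .nil)))) (.nd (nat_lit 9) 
(.lf (nat_lit 547106) (.g (nat_lit 2095) (.e (nat_lit 303117) (nat_lit 2) (.e (nat_lit 196672) (nat_lit 15) (.e (nat_lit 81954) (nat_lit 23) (.e (nat_lit 98318) (nat_lit 17) .nil)))) (.g (nat_lit 0) (.e (nat_lit 284622) (nat_lit 0) .nil) .nil))) 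
(.lf (nat_lit 547618) (.g (nat_lit 3339) (.e (nat_lit 303133) (nat_lit 9) (.e (nat_lit 426412) (nat_lit 15) (.e (nat_lit 1856) (nat_lit 124) (.e (nat_lit 557109) (nat_lit 15) (.e (nat_lit 188458) (nat_lit 25) (.e (nat_lit 245797) (nat_lit 18) (.e (nat_lit 2798) (nat_lit 180) .nil))))))) (.g (nat_lit 1) (.e (nat_lit 285805) (nat_lit 0) .nil) .nil))))) (.nd (nat_lit 8) (.nd (nat_lit 9) 
(.lf (nat_lit 546978) (.g (nat_lit 616) (.e (nat_lit 303116) (nat_lit 2) (.e (nat_lit 196674) (nat_lit 15) (.e (nat_lit 81962) (nat_lit 25) .nil))) (.g (nat_lit 0) (.e (nat_lit 284452) (nat_lit 0) .nil) .nil))) 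
(.lf (nat_lit 547490) (.g (nat_lit 1093) (.e (nat_lit 303119) (nat_lit 3) (.e (nat_lit 204869) (nat_lit 29) (.e (nat_lit 360451) (nat_lit 0) (.e (nat_lit 3994) (nat_lit 240) .nil)))) (.g (nat_lit 0) (.e (nat_lit 285226) (nat_lit 0) .nil) .nil)))) (.nd (nat_lit 9) 
(.lf (nat_lit 547234) (.g (nat_lit 2870) (.e (nat_lit 303118) (nat_lit 3) (.e (nat_lit 204865) (nat_lit 28) (.e (nat_lit 352313) (nat_lit 23) (.e (nat_lit 98350) (nat_lit 24) (.e (nat_lit 409647) (nat_lit 18) .nil))))) (.g (nat_lit 1) (.e (nat_lit 284799) (nat_lit 0) .nil) .nil))) 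
(.lf (nat_lit 547746) (.g (nat_lit 4281) (.e (nat_lit 303143) (nat_lit 12) (.e (nat_lit 475185) (nat_lit 29) (.e (nat_lit 557100) (nat_lit 13) (.e (nat_lit 172101) (nat_lit 9) (.e (nat_lit 426125) (nat_lit 2) (.e (nat_lit 204544) (nat_lit 18) (.e (nat_lit 2797) (nat_lit 180) .nil))))))) (.g (nat_lit 1) (.e (nat_lit 286729) (nat_lit 0) .nil) .nil)))))) 
(.nd (nat_lit 7) (.nd (nat_lit 8) (.nd (nat_lit 9) 
(.lf (nat_lit 546914) (.g (nat_lit 3146) (.e (nat_lit 303111) (nat_lit 0) (.e (nat_lit 3469) (nat_lit 217) (.e (nat_lit 696344) (nat_lit 8) (.e (nat_lit 172123) (nat_lit 13) (.e (nat_lit 483375) (nat_lit 22) (.e (nat_lit 335616) (nat_lit 18) .nil)))))) (.g (nat_lit 1) (.e (nat_lit 284317) (nat_lit 0) .nil) .nil))) 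
(.lf (nat_lit 547426) (.g (nat_lit 2022) (.e (nat_lit 303119) (nat_lit 3) (.e (nat_lit 204855) (nat_lit 26) (.e (nat_lit 336226) (nat_lit 14) (.e (nat_lit 401414) (nat_lit 0) (.e (nat_lit 3205) (nat_lit 194) .nil))))) (.g (nat_lit 0) (.e (nat_lit 285104) (nat_lit 0) .nil) .nil)))) (.nd (nat_lit 9) 
(.lf (nat_lit 547170) (.g (nat_lit 1038) (.e (nat_lit 303117) (nat_lit 2) (.e (nat_lit 196674) (nat_lit 15) (.e (nat_lit 81960) (nat_lit 25) (.e (nat_lit 139289) (nat_lit 9) (.e (nat_lit 2829) (nat_lit 182) .nil))))) (.g (nat_lit 0) (.e (nat_lit 284694) (nat_lit 0) .nil) .nil))) 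
(.lf (nat_lit 547682) (.g (nat_lit 2341) (.e (nat_lit 303139) (nat_lit 10) (.e (nat_lit 434231) (nat_lit 23) (.e (nat_lit 532569) (nat_lit 16) (.e (nat_lit 401448) (nat_lit 10) (.e (nat_lit 434227) (nat_lit 20) (.e (nat_lit 507946) (nat_lit 18) .nil)))))) (.g (nat_lit 1) (.e (nat_lit 286402) (nat_lit 0) .nil) .nil))))) (.nd (nat_lit 8) (.nd (nat_lit 9) 
(.lf (nat_lit 547042) (.g (nat_lit 3035) (.e (nat_lit 303117) (nat_lit 2) (.e (nat_lit 196666) (nat_lit 13) (.e (nat_lit 65610) (nat_lit 10) (.e (nat_lit 344117) (nat_lit 21) (.e (nat_lit 516106) (nat_lit 0) (.e (nat_lit 6966) (nat_lit 377) (.e (nat_lit 2804) (nat_lit 180) .nil))))))) (.g (nat_lit 1) (.e (nat_lit 284549) (nat_lit 0) .nil) .nil))) 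
(.lf (nat_lit 547554) (.g (nat_lit 3894) (.e (nat_lit 303119) (nat_lit 3) (.e (nat_lit 204885) (nat_lit 33) (.e (nat_lit 401434) (nat_lit 9) (.e (nat_lit 426140) (nat_lit 3) (.e (nat_lit 204821) (nat_lit 17) (.e (nat_lit 6114) (nat_lit 332) (.e (nat_lit 1376) (nat_lit 104) .nil))))))) (.g (nat_lit 1) (.e (nat_lit 285399) (nat_lit 0) .nil) .nil)))) (.nd (nat_lit 9) 
(.lf (nat_lit 547298) (.g (nat_lit 821) (.e (nat_lit 303118) (nat_lit 3) (.e (nat_lit 204877) (nat_lit 31) (.e (nat_lit 376864) (nat_lit 22) (.e (nat_lit 90165) (nat_lit 12) (.e (nat_lit 164210) (nat_lit 176) .nil))))) (.g (nat_lit 0) (.e (nat_lit 284891) (nat_lit 0) .nil) .nil))) 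
(.lf (nat_lit 547810) (.g (nat_lit 6918) (.e (nat_lit 303143) (nat_lit 12) (.e (nat_lit 475185) (nat_lit 29) (.e (nat_lit 557108) (nat_lit 15) (.e (nat_lit 188449) (nat_lit 22) (.e (nat_lit 204544) (nat_lit 18) (.e (nat_lit 2798) (nat_lit 180) .nil)))))) (.g (nat_lit 1) (.e (nat_lit 286807) (nat_lit 0) .nil) .nil)))))))) 
(.nd (nat_lit 5) (.nd (nat_lit 6) (.nd (nat_lit 7) (.nd (nat_lit 8) (.nd (nat_lit 9) 
(.lf (nat_lit 546834) (.g (nat_lit 2428) (.e (nat_lit 303108) (nat_lit 0) (.e (nat_lit 3238) (nat_lit 197) (.e (nat_lit 532535) (nat_lit 9) (.e (nat_lit 336073) (nat_lit 9) .nil)))) (.g (nat_lit 0) (.e (nat_lit 284143) (nat_lit 0) .nil) .nil))) 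
(.lf (nat_lit 547346) (.g (nat_lit 2732) (.e (nat_lit 303119) (nat_lit 3) (.e (nat_lit 204846) (nat_lit 24) (.e (nat_lit 319530) (nat_lit 16) (.e (nat_lit 286733) (nat_lit 2) (.e (nat_lit 90165) (nat_lit 12) .nil))))) (.g (nat_lit 0) (.e (nat_lit 284991) (nat_lit 0) .nil) .nil)))) (.nd (nat_lit 9) 
(.lf (nat_lit 547090) (.g (nat_lit 1026) (.e (nat_lit 303117) (nat_lit 2) (.e (nat_lit 196668) (nat_lit 14) (.e (nat_lit 73789) (nat_lit 45) .nil))) (.g (nat_lit 0) (.e (nat_lit 284601) (nat_lit 0) .nil) .nil))) 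
(.lf (nat_lit 547602) (.g (nat_lit 1023) (.e (nat_lit 303131) (nat_lit 9) (.e (nat_lit 426125) (nat_lit 2) (.e (nat_lit 196630) (nat_lit 9) .nil))) (.g (nat_lit 0) (.e (nat_lit 285668) (nat_lit 0) .nil) .nil))))) (.nd (nat_lit 8) (.nd (nat_lit 9) 
(.lf (nat_lit 546962) (.g (nat_lit 2576) (.e (nat_lit 303116) (nat_lit 2) (.e (nat_lit 196672) (nat_lit 15) (.e (nat_lit 81953) (nat_lit 22) (.e (nat_lit 90134) (nat_lit 9) (.e (nat_lit 2822) (nat_lit 182) .nil))))) (.g (nat_lit 0) (.e (nat_lit 284436) (nat_lit 0) .nil) .nil))) 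
(.lf (nat_lit 547474) (.g (nat_lit 2149) (.e (nat_lit 303119) (nat_lit 3) (.e (nat_lit 204868) (nat_lit 29) (.e (nat_lit 360466) (nat_lit 3) (.e (nat_lit 516142) (nat_lit 8) (.e (nat_lit 425728) (nat_lit 18) .nil))))) (.g (nat_lit 0) (.e (nat_lit 285195) (nat_lit 0) .nil) .nil)))) (.nd (nat_lit 9) 
(.lf (nat_lit 547218) (.g (nat_lit 713) (.e (nat_lit 303118) (nat_lit 3) (.e (nat_lit 204855) (nat_lit 26) (.e (nat_lit 336111) (nat_lit 9) .nil))) (.g (nat_lit 0) (.e (nat_lit 284774) (nat_lit 0) .nil) .nil))) 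
(.lf (nat_lit 547730) (.g (nat_lit 3537) (.e (nat_lit 303143) (nat_lit 12) (.e (nat_lit 475183) (nat_lit 29) (.e (nat_lit 557108) (nat_lit 15) (.e (nat_lit 188449) (nat_lit 22) (.e (nat_lit 196683) (nat_lit 18) .nil))))) (.g (nat_lit 0) (.e (nat_lit 286690) (nat_lit 0) .nil) .nil)))))) (.nd (nat_lit 7) (.nd (nat_lit 8) (.nd (nat_lit 9) 
(.lf (nat_lit 546898) (.g (nat_lit 2385) (.e (nat_lit 303111) (nat_lit 0) (.e (nat_lit 3238) (nat_lit 197) (.e (nat_lit 532535) (nat_lit 9) (.e (nat_lit 336178) (nat_lit 10) .nil)))) (.g (nat_lit 0) (.e (nat_lit 284277) (nat_lit 0) .nil) .nil))) 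
(.lf (nat_lit 547410) (.g (nat_lit 3869) (.e (nat_lit 303119) (nat_lit 3) (.e (nat_lit 204855) (nat_lit 26) (.e (nat_lit 336099) (nat_lit 9) (.e (nat_lit 336013) (nat_lit 2) (.e (nat_lit 90161) (nat_lit 12) (.e (nat_lit 164212) (nat_lit 176) (.e (nat_lit 2797) (nat_lit 180) .nil))))))) (.g (nat_lit 1) (.e (nat_lit 285079) (nat_lit 0) .nil) .nil)))) (.nd (nat_lit 9) 
(.lf (nat_lit 547154) (.g (nat_lit 1677) (.e (nat_lit 303117) (nat_lit 2) (.e (nat_lit 196674) (nat_lit 15) (.e (nat_lit 81953) (nat_lit 22) (.e (nat_lit 90165) (nat_lit 12) (.e (nat_lit 164207) (nat_lit 176) .nil))))) (.g (nat_lit 0) (.e (nat_lit 284677) (nat_lit 0) .nil) .nil))) 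
(.lf (nat_lit 547666) (.g (nat_lit 4513) (.e (nat_lit 303137) (nat_lit 10) (.e (nat_lit 434275) (nat_lit 39) (.e (nat_lit 663574) (nat_lit 9) (.e (nat_lit 2741) (nat_lit 174) (.e (nat_lit 253992) (nat_lit 11) (.e (nat_lit 16425) (nat_lit 7) (.e (nat_lit 409648) (nat_lit 18) .nil))))))) (.g (nat_lit 1) (.e (nat_lit 286281) (nat_lit 0) .nil) .nil))))) (.nd (nat_lit 8) (.nd (nat_lit 9) 
(.lf (nat_lit 547026) (.g (nat_lit 2357) (.e (nat_lit 303117) (nat_lit 2) (.e (nat_lit 196666) (nat_lit 13) (.e (nat_lit 65610) (nat_lit 10) (.e (nat_lit 344117) (nat_lit 21) (.e (nat_lit 516098) (nat_lit 0) .nil))))) (.g (nat_lit 0) (.e (nat_lit 284533) (nat_lit 0) .nil) .nil))) 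
(.lf (nat_lit 547538) (.g (nat_lit 1951) (.e (nat_lit 303119) (nat_lit 3) (.e (nat_lit 204876) (nat_lit 31) (.e (nat_lit 376855) (nat_lit 20) (.e (nat_lit 1800) (nat_lit 119) (.e (nat_lit 516102) (nat_lit 0) (.e (nat_lit 6989) (nat_lit 377) (.e (nat_lit 2810) (nat_lit 180) .nil))))))) (.g (nat_lit 1) (.e (nat_lit 285378) (nat_lit 0) .nil) .nil)))) (.nd (nat_lit 9) 
(.lf (nat_lit 547282) (.g (nat_lit 2530) (.e (nat_lit 303118) (nat_lit 3) (.e (nat_lit 204869) (nat_lit 29) (.e (nat_lit 360474) (nat_lit 8) (.e (nat_lit 557064) (nat_lit 9) .nil)))) (.g (nat_lit 0) (.e (nat_lit 284873) (nat_lit 0) .nil) .nil))) 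
(.lf (nat_lit 547794) (.g (nat_lit 1575) (.e (nat_lit 303143) (nat_lit 12) (.e (nat_lit 475185) (nat_lit 29) (.e (nat_lit 557107) (nat_lit 15) (.e (nat_lit 188424) (nat_lit 20) .nil)))) (.g (nat_lit 0) (.e (nat_lit 286790) (nat_lit 0) .nil) .nil))))))) (.nd (nat_lit 6) (.nd (nat_lit 7) (.nd (nat_lit 8) (.nd (nat_lit 9) 
(.lf (nat_lit 546866) (.g (nat_lit 1452) (.e (nat_lit 303112) (nat_lit 0) (.e (nat_lit 3251) (nat_lit 197) (.e (nat_lit 532560) (nat_lit 14) (.e (nat_lit 376869) (nat_lit 23) (.e (nat_lit 98349) (nat_lit 24) .nil))))) (.g (nat_lit 0) (.e (nat_lit 284192) (nat_lit 0) .nil) .nil))) 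
(.lf (nat_lit 547378) (.g (nat_lit 4681) (.e (nat_lit 303119) (nat_lit 3) (.e (nat_lit 204849) (nat_lit 25) (.e (nat_lit 327699) (nat_lit 8) (.e (nat_lit 303119) (nat_lit 3) (.e (nat_lit 204846) (nat_lit 24) (.e (nat_lit 327424) (nat_lit 8) .nil)))))) (.g (nat_lit 1) (.e (nat_lit 285026) (nat_lit 0) .nil) .nil)))) (.nd (nat_lit 9) 
(.lf (nat_lit 547122) (.g (nat_lit 375) (.e (nat_lit 303117) (nat_lit 2) (.e (nat_lit 196672) (nat_lit 15) (.e (nat_lit 89856) (nat_lit 23) .nil))) (.g (nat_lit 0) (.e (nat_lit 284638) (nat_lit 0) .nil) .nil))) 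
(.lf (nat_lit 547634) (.g (nat_lit 1683) (.e (nat_lit 303133) (nat_lit 9) (.e (nat_lit 426499) (nat_lit 27) (.e (nat_lit 336078) (nat_lit 9) (.e (nat_lit 336029) (nat_lit 4) (.e (nat_lit 123198) (nat_lit 266) .nil))))) (.g (nat_lit 0) (.e (nat_lit 285885) (nat_lit 0) .nil) .nil))))) (.nd (nat_lit 8) (.nd (nat_lit 9) 
(.lf (nat_lit 546994) (.g (nat_lit 230) (.e (nat_lit 303117) (nat_lit 2) (.e (nat_lit 196665) (nat_lit 13) (.e (nat_lit 65608) (nat_lit 9) .nil))) (.g (nat_lit 0) (.e (nat_lit 284490) (nat_lit 0) .nil) .nil))) 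
(.lf (nat_lit 547506) (.g (nat_lit 3516) (.e (nat_lit 303119) (nat_lit 3) (.e (nat_lit 204869) (nat_lit 29) (.e (nat_lit 360474) (nat_lit 8) (.e (nat_lit 557071) (nat_lit 9) .nil)))) (.g (nat_lit 0) (.e (nat_lit 285297) (nat_lit 0) .nil) .nil)))) (.nd (nat_lit 9) 
(.lf (nat_lit 547250) (.g (nat_lit 2713) (.e (nat_lit 303118) (nat_lit 3) (.e (nat_lit 204868) (nat_lit 29) (.e (nat_lit 360466) (nat_lit 3) (.e (nat_lit 516138) (nat_lit 7) (.e (nat_lit 417536) (nat_lit 18) .nil))))) (.g (nat_lit 1) (.e (nat_lit 284836) (nat_lit 0) .nil) .nil))) 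
(.lf (nat_lit 547762) (.g (nat_lit 2762) (.e (nat_lit 303143) (nat_lit 12) (.e (nat_lit 475185) (nat_lit 29) (.e (nat_lit 557100) (nat_lit 13) (.e (nat_lit 172106) (nat_lit 10) (.e (nat_lit 434227) (nat_lit 20) (.e (nat_lit 515840) (nat_lit 18) .nil)))))) (.g (nat_lit 1) (.e (nat_lit 286748) (nat_lit 0) .nil) .nil)))))) (.nd (nat_lit 7) (.nd (nat_lit 8) (.nd (nat_lit 9) 
(.lf (nat_lit 546930) (.g (nat_lit 3304) (.e (nat_lit 303116) (nat_lit 2) (.e (nat_lit 196666) (nat_lit 13) (.e (nat_lit 65610) (nat_lit 10) (.e (nat_lit 344117) (nat_lit 21) (.e (nat_lit 516102) (nat_lit 0) (.e (nat_lit 6989) (nat_lit 377) (.e (nat_lit 7936) (nat_lit 180) .nil))))))) (.g (nat_lit 1) (.e (nat_lit 284401) (nat_lit 0) .nil) .nil))) 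
(.lf (nat_lit 547442) (.g (nat_lit 858) (.e (nat_lit 303119) (nat_lit 3) (.e (nat_lit 204863) (nat_lit 27) (.e (nat_lit 344072) (nat_lit 8) .nil))) (.g (nat_lit 0) (.e (nat_lit 285129) (nat_lit 0) .nil) .nil)))) (.nd (nat_lit 9) 
(.lf (nat_lit 547186) (.g (nat_lit 1162) (.e (nat_lit 311040) (nat_lit 2) (.e (nat_lit 196674) (nat_lit 15) (.e (nat_lit 81947) (nat_lit 20) (.e (nat_lit 1788) (nat_lit 119) .nil)))) (.g (nat_lit 0) (.e (nat_lit 284710) (nat_lit 0) .nil) .nil))) 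
(.lf (nat_lit 547698) (.g (nat_lit 1072) (.e (nat_lit 303140) (nat_lit 10) (.e (nat_lit 434268) (nat_lit 36) (.e (nat_lit 639020) (nat_lit 16) (.e (nat_lit 65585) (nat_lit 7) .nil)))) (.g (nat_lit 0) (.e (nat_lit 286560) (nat_lit 0) .nil) .nil))))) (.nd (nat_lit 8) (.nd (nat_lit 9) 
(.lf (nat_lit 547058) (.g (nat_lit 3674) (.e (nat_lit 303117) (nat_lit 2) (.e (nat_lit 196666) (nat_lit 13) (.e (nat_lit 65610) (nat_lit 10) (.e (nat_lit 344117) (nat_lit 21) (.e (nat_lit 516106) (nat_lit 0) (.e (nat_lit 7016) (nat_lit 377) (.e (nat_lit 2808) (nat_lit 180) .nil))))))) (.g (nat_lit 1) (.e (nat_lit 284565) (nat_lit 0) .nil) .nil))) 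
(.lf (nat_lit 547570) (.g (nat_lit 2772) (.e (nat_lit 311040) (nat_lit 3) (.e (nat_lit 204869) (nat_lit 29) (.e (nat_lit 360467) (nat_lit 3) (.e (nat_lit 516139) (nat_lit 7) (.e (nat_lit 409649) (nat_lit 18) .nil))))) (.g (nat_lit 0) (.e (nat_lit 285418) (nat_lit 0) .nil) .nil)))) (.nd (nat_lit 9) 
(.lf (nat_lit 547314) (.g (nat_lit 888) (.e (nat_lit 303119) (nat_lit 3) (.e (nat_lit 204821) (nat_lit 17) (.e (nat_lit 6238) (nat_lit 336) (.e (nat_lit 229649) (nat_lit 232) .nil)))) (.g (nat_lit 0) (.e (nat_lit 284918) (nat_lit 0) .nil) .nil))) 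
(.lf (nat_lit 547826) (.g (nat_lit 3262) (.e (nat_lit 303143) (nat_lit 12) (.e (nat_lit 475185) (nat_lit 29) (.e (nat_lit 557109) (nat_lit 15) (.e (nat_lit 188458) (nat_lit 25) (.e (nat_lit 245797) (nat_lit 18) (.e (nat_lit 2808) (nat_lit 180) .nil)))))) (.g (nat_lit 1) (.e (nat_lit 286824) (nat_lit 0) .nil) .nil))))))))) 
(.nd (nat_lit 4) (.nd (nat_lit 5) (.nd (nat_lit 6) (.nd (nat_lit 7) (.nd (nat_lit 8) 
(.nd (nat_lit 9) 
(.lf (nat_lit 546826) (.g (nat_lit 2622) (.e (nat_lit 303107) (nat_lit 0) (.e (nat_lit 3238) (nat_lit 197) (.e (nat_lit 532535) (nat_lit 9) (.e (nat_lit 336110) (nat_lit 9) .nil)))) (.g (nat_lit 0) (.e (nat_lit 284131) (nat_lit 0) .nil) .nil))) 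
(.lf (nat_lit 547338) (.g (nat_lit 6145) (.e (nat_lit 303119) (nat_lit 3) (.e (nat_lit 204846) (nat_lit 24) (.e (nat_lit 319538) (nat_lit 19) (.e (nat_lit 311315) (nat_lit 3) (.e (nat_lit 204819) (nat_lit 17) (.e (nat_lit 6113) (nat_lit 332) (.e (nat_lit 1374) (nat_lit 104) .nil))))))) (.g (nat_lit 1) (.e (nat_lit 284979) (nat_lit 0) .nil) .nil)))) (.nd (nat_lit 9) 
(.lf (nat_lit 547082) (.g (nat_lit 4882) (.e (nat_lit 303117) (nat_lit 2) (.e (nat_lit 196666) (nat_lit 13) (.e (nat_lit 65619) (nat_lit 10) (.e (nat_lit 344117) (nat_lit 21) (.e (nat_lit 516106) (nat_lit 0) (.e (nat_lit 7016) (nat_lit 377) (.e (nat_lit 2798) (nat_lit 180) .nil))))))) (.g (nat_lit 1) (.e (nat_lit 284590) (nat_lit 0) .nil) .nil))) 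
(.lf (nat_lit 547594) (.g (nat_lit 1813) (.e (nat_lit 303127) (nat_lit 9) (.e (nat_lit 426544) (nat_lit 30) (.e (nat_lit 360456) (nat_lit 0) (.e (nat_lit 5949) (nat_lit 322) (.e (nat_lit 57350) (nat_lit 0) (.e (nat_lit 6113) (nat_lit 332) (.e (nat_lit 2810) (nat_lit 180) .nil))))))) (.g (nat_lit 1) (.e (nat_lit 285610) (nat_lit 0) .nil) .nil))))) (.nd (nat_lit 8) (.nd (nat_lit 9) 
(.lf (nat_lit 546954) (.g (nat_lit 867) (.e (nat_lit 303116) (nat_lit 2) (.e (nat_lit 196666) (nat_lit 13) (.e (nat_lit 65620) (nat_lit 10) .nil))) (.g (nat_lit 0) (.e (nat_lit 284425) (nat_lit 0) .nil) .nil))) 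
(.lf (nat_lit 547466) (.g (nat_lit 1147) (.e (nat_lit 303119) (nat_lit 3) (.e (nat_lit 204868) (nat_lit 29) (.e (nat_lit 360466) (nat_lit 3) (.e (nat_lit 524032) (nat_lit 0) .nil)))) (.g (nat_lit 0) (.e (nat_lit 285187) (nat_lit 0) .nil) .nil)))) (.nd (nat_lit 9) 
(.lf (nat_lit 547210) (.g (nat_lit 3348) (.e (nat_lit 303118) (nat_lit 3) (.e (nat_lit 204855) (nat_lit 26) (.e (nat_lit 336097) (nat_lit 9) (.e (nat_lit 336028) (nat_lit 3) (.e (nat_lit 98350) (nat_lit 24) (.e (nat_lit 409649) (nat_lit 18) .nil)))))) (.g (nat_lit 1) (.e (nat_lit 284743) (nat_lit 0) .nil) .nil))) 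
(.lf (nat_lit 547722) (.g (nat_lit 2798) (.e (nat_lit 303142) (nat_lit 12) (.e (nat_lit 475211) (nat_lit 41) (.e (nat_lit 712755) (nat_lit 30) (.e (nat_lit 450597) (nat_lit 17) (.e (nat_lit 663589) (nat_lit 14) (.e (nat_lit 2808) (nat_lit 180) .nil)))))) (.g (nat_lit 1) (.e (nat_lit 286658) (nat_lit 0) .nil) .nil)))))) (.nd (nat_lit 7) (.nd (nat_lit 8) (.nd (nat_lit 9) 
(.lf (nat_lit 546890) (.g (nat_lit 2841) (.e (nat_lit 303111) (nat_lit 0) (.e (nat_lit 3238) (nat_lit 197) (.e (nat_lit 532535) (nat_lit 9) (.e (nat_lit 336098) (nat_lit 9) (.e (nat_lit 336028) (nat_lit 3) .nil))))) (.g (nat_lit 0) (.e (nat_lit 284252) (nat_lit 0) .nil) .nil))) 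
(.lf (nat_lit 547402) (.g (nat_lit 1071) (.e (nat_lit 303119) (nat_lit 3) (.e (nat_lit 204855) (nat_lit 26) (.e (nat_lit 336093) (nat_lit 9) .nil))) (.g (nat_lit 0) (.e (nat_lit 285060) (nat_lit 0) .nil) .nil)))) (.nd (nat_lit 9) 
(.lf (nat_lit 547146) (.g (nat_lit 3037) (.e (nat_lit 303117) (nat_lit 2) (.e (nat_lit 196674) (nat_lit 15) (.e (nat_lit 81947) (nat_lit 20) (.e (nat_lit 1842) (nat_lit 123) (.e (nat_lit 548873) (nat_lit 5) (.e (nat_lit 1401) (nat_lit 106) (.e (nat_lit 327424) (nat_lit 8) .nil))))))) (.g (nat_lit 1) (.e (nat_lit 284666) (nat_lit 0) .nil) .nil))) 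
(.lf (nat_lit 547658) (.g (nat_lit 1185) (.e (nat_lit 303137) (nat_lit 10) (.e (nat_lit 434241) (nat_lit 27) (.e (nat_lit 565269) (nat_lit 6) (.e (nat_lit 81935) (nat_lit 20) (.e (nat_lit 2383) (nat_lit 155) .nil))))) (.g (nat_lit 0) (.e (nat_lit 286267) (nat_lit 0) .nil) .nil))))) (.nd (nat_lit 8) (.nd (nat_lit 9) 
(.lf (nat_lit 547018) (.g (nat_lit 3199) (.e (nat_lit 303117) (nat_lit 2) (.e (nat_lit 196666) (nat_lit 13) (.e (nat_lit 65610) (nat_lit 10) (.e (nat_lit 344117) (nat_lit 21) (.e (nat_lit 516096) (nat_lit 0) (.e (nat_lit 6980) (nat_lit 377) (.e (nat_lit 2809) (nat_lit 180) .nil))))))) (.g (nat_lit 1) (.e (nat_lit 284525) (nat_lit 0) .nil) .nil))) 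
(.lf (nat_lit 547530) (.g (nat_lit 4005) (.e (nat_lit 303119) (nat_lit 3) (.e (nat_lit 204869) (nat_lit 29) (.e (nat_lit 360475) (nat_lit 8) (.e (nat_lit 557091) (nat_lit 12) (.e (nat_lit 163847) (nat_lit 0) (.e (nat_lit 6058) (nat_lit 327) (.e (nat_lit 8213) (nat_lit 9) .nil))))))) (.g (nat_lit 1) (.e (nat_lit 285365) (nat_lit 0) .nil) .nil)))) (.nd (nat_lit 9) 
(.lf (nat_lit 547274) (.g (nat_lit 2641) (.e (nat_lit 303118) (nat_lit 3) (.e (nat_lit 204869) (nat_lit 29) (.e (nat_lit 360467) (nat_lit 3) (.e (nat_lit 516139) (nat_lit 7) (.e (nat_lit 409646) (nat_lit 18) .nil))))) (.g (nat_lit 0) (.e (nat_lit 284864) (nat_lit 0) .nil) .nil))) 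
(.lf (nat_lit 547786) (.g (nat_lit 2101) (.e (nat_lit 303143) (nat_lit 12) (.e (nat_lit 475185) (nat_lit 29) (.e (nat_lit 557101) (nat_lit 13) (.e (nat_lit 172115) (nat_lit 10) (.e (nat_lit 434219) (nat_lit 19) (.e (nat_lit 499718) (nat_lit 0) (.e (nat_lit 2811) (nat_lit 180) .nil))))))) (.g (nat_lit 1) (.e (nat_lit 286777) (nat_lit 0) .nil) .nil))))))) 
(.nd (nat_lit 6) (.nd (nat_lit 7) (.nd (nat_lit 8) (.nd (nat_lit 9) 
(.lf (nat_lit 546858) (.g (nat_lit 2650) (.e (nat_lit 303110) (nat_lit 0) (.e (nat_lit 3238) (nat_lit 197) (.e (nat_lit 532535) (nat_lit 9) (.e (nat_lit 336099) (nat_lit 9) .nil)))) (.g (nat_lit 0) (.e (nat_lit 284183) (nat_lit 0) .nil) .nil))) 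
(.lf (nat_lit 547370) (.g (nat_lit 3249) (.e (nat_lit 303119) (nat_lit 3) (.e (nat_lit 204846) (nat_lit 24) (.e (nat_lit 319534) (nat_lit 16) (.e (nat_lit 286735) (nat_lit 3) (.e (nat_lit 98350) (nat_lit 24) (.e (nat_lit 417536) (nat_lit 8) .nil)))))) (.g (nat_lit 1) (.e (nat_lit 285017) (nat_lit 0) .nil) .nil)))) (.nd (nat_lit 9) 
(.lf (nat_lit 547114) (.g (nat_lit 2462) (.e (nat_lit 303117) (nat_lit 2) (.e (nat_lit 196672) (nat_lit 15) (.e (nat_lit 81956) (nat_lit 23) (.e (nat_lit 98320) (nat_lit 17) .nil)))) (.g (nat_lit 0) (.e (nat_lit 284630) (nat_lit 0) .nil) .nil))) 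
(.lf (nat_lit 547626) (.g (nat_lit 3741) (.e (nat_lit 303133) (nat_lit 9) (.e (nat_lit 426412) (nat_lit 15) (.e (nat_lit 2175) (nat_lit 143) (.e (nat_lit 712755) (nat_lit 30) (.e (nat_lit 450597) (nat_lit 17) (.e (nat_lit 663589) (nat_lit 14) (.e (nat_lit 2798) (nat_lit 180) .nil))))))) (.g (nat_lit 1) (.e (nat_lit 285841) (nat_lit 0) .nil) .nil))))) (.nd (nat_lit 8) (.nd (nat_lit 9) 
(.lf (nat_lit 546986) (.g (nat_lit 2155) (.e (nat_lit 303117) (nat_lit 2) (.e (nat_lit 196663) (nat_lit 13) (.e (nat_lit 65610) (nat_lit 10) (.e (nat_lit 344129) (nat_lit 26) (.e (nat_lit 557084) (nat_lit 10) .nil))))) (.g (nat_lit 0) (.e (nat_lit 284477) (nat_lit 0) .nil) .nil))) 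
(.lf (nat_lit 547498) (.g (nat_lit 3646) (.e (nat_lit 303119) (nat_lit 3) (.e (nat_lit 204869) (nat_lit 29) (.e (nat_lit 360468) (nat_lit 3) (.e (nat_lit 516138) (nat_lit 7) (.e (nat_lit 409646) (nat_lit 18) .nil))))) (.g (nat_lit 1) (.e (nat_lit 285271) (nat_lit 0) .nil) .nil)))) (.nd (nat_lit 9) 
(.lf (nat_lit 547242) (.g (nat_lit 1301) (.e (nat_lit 303118) (nat_lit 3) (.e (nat_lit 204866) (nat_lit 28) (.e (nat_lit 352314) (nat_lit 23) (.e (nat_lit 98349) (nat_lit 24) .nil)))) (.g (nat_lit 0) (.e (nat_lit 284819) (nat_lit 0) .nil) .nil))) 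
(.lf (nat_lit 547754) (.g (nat_lit 2483) (.e (nat_lit 303143) (nat_lit 12) (.e (nat_lit 475185) (nat_lit 29) (.e (nat_lit 557100) (nat_lit 13) (.e (nat_lit 172106) (nat_lit 10) (.e (nat_lit 434219) (nat_lit 19) (.e (nat_lit 499718) (nat_lit 0) (.e (nat_lit 2811) (nat_lit 180) .nil))))))) (.g (nat_lit 1) (.e (nat_lit 286740) (nat_lit 0) .nil) .nil)))))) 
(.nd (nat_lit 7) (.nd (nat_lit 8) (.nd (nat_lit 9) 
(.lf (nat_lit 546922) (.g (nat_lit 666) (.e (nat_lit 303116) (nat_lit 2) (.e (nat_lit 196666) (nat_lit 13) (.e (nat_lit 65596) (nat_lit 9) .nil))) (.g (nat_lit 0) (.e (nat_lit 284392) (nat_lit 0) .nil) .nil))) 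
(.lf (nat_lit 547434) (.g (nat_lit 1677) (.e (nat_lit 303119) (nat_lit 3) (.e (nat_lit 204861) (nat_lit 26) (.e (nat_lit 336184) (nat_lit 11) (.e (nat_lit 368676) (nat_lit 21) (.e (nat_lit 524032) (nat_lit 7) (.e (nat_lit 409646) (nat_lit 18) .nil)))))) (.g (nat_lit 1) (.e (nat_lit 285116) (nat_lit 0) .nil) .nil)))) (.nd (nat_lit 9) 
(.lf (nat_lit 547178) (.g (nat_lit 1094) (.e (nat_lit 303117) (nat_lit 2) (.e (nat_lit 196681) (nat_lit 17) (.e (nat_lit 131117) (nat_lit 10) .nil))) (.g (nat_lit 0) (.e (nat_lit 284702) (nat_lit 0) .nil) .nil))) 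
(.lf (nat_lit 547690) (.g (nat_lit 1918) (.e (nat_lit 303139) (nat_lit 10) (.e (nat_lit 434268) (nat_lit 36) (.e (nat_lit 639020) (nat_lit 16) (.e (nat_lit 65584) (nat_lit 7) (.e (nat_lit 319526) (nat_lit 15) (.e (nat_lit 278546) (nat_lit 8) .nil)))))) (.g (nat_lit 1) (.e (nat_lit 286433) (nat_lit 0) .nil) .nil))))) (.nd (nat_lit 8) (.nd (nat_lit 9) 
(.lf (nat_lit 547050) (.g (nat_lit 3399) (.e (nat_lit 303117) (nat_lit 2) (.e (nat_lit 196666) (nat_lit 13) (.e (nat_lit 65610) (nat_lit 10) (.e (nat_lit 344117) (nat_lit 21) (.e (nat_lit 516106) (nat_lit 0) (.e (nat_lit 7008) (nat_lit 377) (.e (nat_lit 2806) (nat_lit 180) .nil))))))) (.g (nat_lit 1) (.e (nat_lit 284557) (nat_lit 0) .nil) .nil))) 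
(.lf (nat_lit 547562) (.g (nat_lit 1663) (.e (nat_lit 303119) (nat_lit 3) (.e (nat_lit 204885) (nat_lit 33) (.e (nat_lit 401448) (nat_lit 10) (.e (nat_lit 434234) (nat_lit 23) .nil)))) (.g (nat_lit 0) (.e (nat_lit 285408) (nat_lit 0) .nil) .nil)))) (.nd (nat_lit 9) 
(.lf (nat_lit 547306) (.g (nat_lit 3547) (.e (nat_lit 303118) (nat_lit 3) (.e (nat_lit 204885) (nat_lit 33) (.e (nat_lit 401446) (nat_lit 10) (.e (nat_lit 434231) (nat_lit 23) (.e (nat_lit 532490) (nat_lit 0) (.e (nat_lit 6114) (nat_lit 332) (.e (nat_lit 1379) (nat_lit 104) .nil))))))) (.g (nat_lit 1) (.e (nat_lit 284899) (nat_lit 0) .nil) .nil))) 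
(.lf (nat_lit 547818) (.g (nat_lit 4673) (.e (nat_lit 303143) (nat_lit 12) (.e (nat_lit 475185) (nat_lit 29) (.e (nat_lit 557109) (nat_lit 15) (.e (nat_lit 188441) (nat_lit 20) (.e (nat_lit 3205) (nat_lit 194) (.e (nat_lit 507944) (nat_lit 18) .nil)))))) (.g (nat_lit 1) (.e (nat_lit 286816) (nat_lit 0) .nil) .nil)))))))) 
(.nd (nat_lit 5) (.nd (nat_lit 6) (.nd (nat_lit 7) (.nd (nat_lit 8) (.nd (nat_lit 9) 
(.lf (nat_lit 546842) (.g (nat_lit 2303) (.e (nat_lit 303108) (nat_lit 0) (.e (nat_lit 3238) (nat_lit 197) (.e (nat_lit 532535) (nat_lit 9) (.e (nat_lit 336176) (nat_lit 10) (.e (nat_lit 344119) (nat_lit 21) .nil))))) (.g (nat_lit 0) (.e (nat_lit 284156) (nat_lit 0) .nil) .nil))) 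
(.lf (nat_lit 547354) (.g (nat_lit 2126) (.e (nat_lit 303119) (nat_lit 3) (.e (nat_lit 204846) (nat_lit 24) (.e (nat_lit 319532) (nat_lit 16) (.e (nat_lit 286734) (nat_lit 3) (.e (nat_lit 98350) (nat_lit 24) (.e (nat_lit 417536) (nat_lit 8) .nil)))))) (.g (nat_lit 1) (.e (nat_lit 284999) (nat_lit 0) .nil) .nil)))) (.nd (nat_lit 9) 
(.lf (nat_lit 547098) (.g (nat_lit 1597) (.e (nat_lit 303117) (nat_lit 2) (.e (nat_lit 196672) (nat_lit 15) (.e (nat_lit 81951) (nat_lit 22) (.e (nat_lit 90133) (nat_lit 9) .nil)))) (.g (nat_lit 0) (.e (nat_lit 284613) (nat_lit 0) .nil) .nil))) 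
(.lf (nat_lit 547610) (.g (nat_lit 1429) (.e (nat_lit 303133) (nat_lit 9) (.e (nat_lit 426412) (nat_lit 15) (.e (nat_lit 1856) (nat_lit 124) (.e (nat_lit 557098) (nat_lit 13) .nil)))) (.g (nat_lit 0) (.e (nat_lit 285793) (nat_lit 0) .nil) .nil))))) (.nd (nat_lit 8) (.nd (nat_lit 9) 
(.lf (nat_lit 546970) (.g (nat_lit 506) (.e (nat_lit 303116) (nat_lit 2) (.e (nat_lit 196674) (nat_lit 15) (.e (nat_lit 81956) (nat_lit 23) .nil))) (.g (nat_lit 0) (.e (nat_lit 284444) (nat_lit 0) .nil) .nil))) 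
(.lf (nat_lit 547482) (.g (nat_lit 2498) (.e (nat_lit 303119) (nat_lit 3) (.e (nat_lit 204868) (nat_lit 29) (.e (nat_lit 360468) (nat_lit 3) (.e (nat_lit 516139) (nat_lit 7) (.e (nat_lit 417536) (nat_lit 18) .nil))))) (.g (nat_lit 1) (.e (nat_lit 285203) (nat_lit 0) .nil) .nil)))) (.nd (nat_lit 9) 
(.lf (nat_lit 547226) (.g (nat_lit 1389) (.e (nat_lit 303118) (nat_lit 3) (.e (nat_lit 204855) (nat_lit 26) (.e (nat_lit 336176) (nat_lit 10) (.e (nat_lit 344120) (nat_lit 21) .nil)))) (.g (nat_lit 0) (.e (nat_lit 284785) (nat_lit 0) .nil) .nil))) 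
(.lf (nat_lit 547738) (.g (nat_lit 2822) (.e (nat_lit 303143) (nat_lit 12) (.e (nat_lit 475185) (nat_lit 29) (.e (nat_lit 557100) (nat_lit 13) (.e (nat_lit 172086) (nat_lit 9) .nil)))) (.g (nat_lit 0) (.e (nat_lit 286721) (nat_lit 0) .nil) .nil)))))) (.nd (nat_lit 7) (.nd (nat_lit 8) (.nd (nat_lit 9) 
(.lf (nat_lit 546906) (.g (nat_lit 2155) (.e (nat_lit 303111) (nat_lit 0) (.e (nat_lit 3468) (nat_lit 217) (.e (nat_lit 696343) (nat_lit 8) (.e (nat_lit 172123) (nat_lit 13) (.e (nat_lit 483375) (nat_lit 22) (.e (nat_lit 335616) (nat_lit 18) .nil)))))) (.g (nat_lit 1) (.e (nat_lit 284306) (nat_lit 0) .nil) .nil))) 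
(.lf (nat_lit 547418) (.g (nat_lit 987) (.e (nat_lit 303119) (nat_lit 3) (.e (nat_lit 204855) (nat_lit 26) (.e (nat_lit 336168) (nat_lit 10) .nil))) (.g (nat_lit 0) (.e (nat_lit 285092) (nat_lit 0) .nil) .nil)))) (.nd (nat_lit 9) 
(.lf (nat_lit 547162) (.g (nat_lit 2404) (.e (nat_lit 303117) (nat_lit 2) (.e (nat_lit 196674) (nat_lit 15) (.e (nat_lit 81956) (nat_lit 23) (.e (nat_lit 98318) (nat_lit 17) .nil)))) (.g (nat_lit 0) (.e (nat_lit 284685) (nat_lit 0) .nil) .nil))) 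
(.lf (nat_lit 547674) (.g (nat_lit 2379) (.e (nat_lit 303138) (nat_lit 10) (.e (nat_lit 434231) (nat_lit 23) (.e (nat_lit 532569) (nat_lit 16) (.e (nat_lit 401448) (nat_lit 10) (.e (nat_lit 434226) (nat_lit 20) .nil))))) (.g (nat_lit 0) (.e (nat_lit 286346) (nat_lit 0) .nil) .nil))))) (.nd (nat_lit 8) (.nd (nat_lit 9) 
(.lf (nat_lit 547034) (.g (nat_lit 3501) (.e (nat_lit 303117) (nat_lit 2) (.e (nat_lit 196666) (nat_lit 13) (.e (nat_lit 65610) (nat_lit 10) (.e (nat_lit 344117) (nat_lit 21) (.e (nat_lit 516099) (nat_lit 0) (.e (nat_lit 7936) (nat_lit 377) (.e (nat_lit 2808) (nat_lit 180) .nil))))))) (.g (nat_lit 1) (.e (nat_lit 284541) (nat_lit 0) .nil) .nil))) 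
(.lf (nat_lit 547546) (.g (nat_lit 2125) (.e (nat_lit 303119) (nat_lit 3) (.e (nat_lit 204877) (nat_lit 31) (.e (nat_lit 376869) (nat_lit 23) (.e (nat_lit 98350) (nat_lit 24) (.e (nat_lit 409643) (nat_lit 18) .nil))))) (.g (nat_lit 0) (.e (nat_lit 285388) (nat_lit 0) .nil) .nil)))) (.nd (nat_lit 9) 
(.lf (nat_lit 547290) (.g (nat_lit 2143) (.e (nat_lit 303118) (nat_lit 3) (.e (nat_lit 204869) (nat_lit 29) (.e (nat_lit 360475) (nat_lit 8) (.e (nat_lit 557068) (nat_lit 9) .nil)))) (.g (nat_lit 0) (.e (nat_lit 284882) (nat_lit 0) .nil) .nil))) 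
(.lf (nat_lit 547802) (.g (nat_lit 2200) (.e (nat_lit 303143) (nat_lit 12) (.e (nat_lit 475185) (nat_lit 29) (.e (nat_lit 557107) (nat_lit 15) (.e (nat_lit 188441) (nat_lit 20) (.e (nat_lit 3115) (nat_lit 193) .nil))))) (.g (nat_lit 0) (.e (nat_lit 286799) (nat_lit 0) .nil) .nil))))))) (.nd (nat_lit 6) (.nd (nat_lit 7) (.nd (nat_lit 8) (.nd (nat_lit 9) 
(.lf (nat_lit 546874) (.g (nat_lit 3369) (.e (nat_lit 303112) (nat_lit 0) (.e (nat_lit 3252) (nat_lit 197) (.e (nat_lit 532550) (nat_lit 12) (.e (nat_lit 360468) (nat_lit 3) (.e (nat_lit 516139) (nat_lit 7) (.e (nat_lit 417536) (nat_lit 18) .nil)))))) (.g (nat_lit 1) (.e (nat_lit 284211) (nat_lit 0) .nil) .nil))) 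
(.lf (nat_lit 547386) (.g (nat_lit 2238) (.e (nat_lit 303119) (nat_lit 3) (.e (nat_lit 204852) (nat_lit 26) (.e (nat_lit 336130) (nat_lit 9) (.e (nat_lit 336021) (nat_lit 3) (.e (nat_lit 98349) (nat_lit 24) .nil))))) (.g (nat_lit 0) (.e (nat_lit 285037) (nat_lit 0) .nil) .nil)))) (.nd (nat_lit 9) 
(.lf (nat_lit 547130) (.g (nat_lit 2673) (.e (nat_lit 303117) (nat_lit 2) (.e (nat_lit 196673) (nat_lit 15) (.e (nat_lit 81956) (nat_lit 23) (.e (nat_lit 98320) (nat_lit 17) (.e (nat_lit 6965) (nat_lit 377) (.e (nat_lit 7936) (nat_lit 180) .nil)))))) (.g (nat_lit 1) (.e (nat_lit 284650) (nat_lit 0) .nil) .nil))) 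
(.lf (nat_lit 547642) (.g (nat_lit 2095) (.e (nat_lit 303132) (nat_lit 9) (.e (nat_lit 426109) (nat_lit 1) (.e (nat_lit 164319) (nat_lit 228) (.e (nat_lit 57412) (nat_lit 12) (.e (nat_lit 336061) (nat_lit 7) (.e (nat_lit 319526) (nat_lit 15) (.e (nat_lit 278547) (nat_lit 8) .nil))))))) (.g (nat_lit 1) (.e (nat_lit 285985) (nat_lit 0) .nil) .nil))))) (.nd (nat_lit 8) (.nd (nat_lit 9) 
(.lf (nat_lit 547002) (.g (nat_lit 536) (.e (nat_lit 303117) (nat_lit 2) (.e (nat_lit 196666) (nat_lit 13) (.e (nat_lit 65592) (nat_lit 9) .nil))) (.g (nat_lit 0) (.e (nat_lit 284503) (nat_lit 0) .nil) .nil))) 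
(.lf (nat_lit 547514) (.g (nat_lit 1918) (.e (nat_lit 303119) (nat_lit 3) (.e (nat_lit 204869) (nat_lit 29) (.e (nat_lit 360475) (nat_lit 8) (.e (nat_lit 557066) (nat_lit 9) .nil)))) (.g (nat_lit 0) (.e (nat_lit 285328) (nat_lit 0) .nil) .nil)))) (.nd (nat_lit 9) 
(.lf (nat_lit 547258) (.g (nat_lit 3286) (.e (nat_lit 303118) (nat_lit 3) (.e (nat_lit 204868) (nat_lit 29) (.e (nat_lit 360468) (nat_lit 3) (.e (nat_lit 516139) (nat_lit 7) (.e (nat_lit 409647) (nat_lit 18) .nil))))) (.g (nat_lit 1) (.e (nat_lit 284844) (nat_lit 0) .nil) .nil))) 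
(.lf (nat_lit 547770) (.g (nat_lit 2680) (.e (nat_lit 303143) (nat_lit 12) (.e (nat_lit 475185) (nat_lit 29) (.e (nat_lit 557100) (nat_lit 13) (.e (nat_lit 172113) (nat_lit 10) (.e (nat_lit 434223) (nat_lit 19) (.e (nat_lit 499741) (nat_lit 0) (.e (nat_lit 2795) (nat_lit 180) .nil))))))) (.g (nat_lit 1) (.e (nat_lit 286758) (nat_lit 0) .nil) .nil)))))) 
(.nd (nat_lit 7) (.nd (nat_lit 8) (.nd (nat_lit 9) 
(.lf (nat_lit 546938) (.g (nat_lit 3859) (.e (nat_lit 303116) (nat_lit 2) (.e (nat_lit 196666) (nat_lit 13) (.e (nat_lit 65610) (nat_lit 10) (.e (nat_lit 344117) (nat_lit 21) (.e (nat_lit 516106) (nat_lit 0) (.e (nat_lit 7015) (nat_lit 377) (.e (nat_lit 2808) (nat_lit 180) .nil))))))) (.g (nat_lit 1) (.e (nat_lit 284409) (nat_lit 0) .nil) .nil))) 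
(.lf (nat_lit 547450) (.g (nat_lit 1849) (.e (nat_lit 303119) (nat_lit 3) (.e (nat_lit 204866) (nat_lit 28) (.e (nat_lit 352314) (nat_lit 23) (.e (nat_lit 98350) (nat_lit 24) (.e (nat_lit 417536) (nat_lit 18) .nil))))) (.g (nat_lit 0) (.e (nat_lit 285155) (nat_lit 0) .nil) .nil)))) (.nd (nat_lit 9) 
(.lf (nat_lit 547194) (.g (nat_lit 3264) (.e (nat_lit 303118) (nat_lit 3) (.e (nat_lit 204845) (nat_lit 24) (.e (nat_lit 319531) (nat_lit 16) (.e (nat_lit 286735) (nat_lit 3) (.e (nat_lit 98350) (nat_lit 24) (.e (nat_lit 417536) (nat_lit 8) .nil)))))) (.g (nat_lit 1) (.e (nat_lit 284721) (nat_lit 0) .nil) .nil))) 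
(.lf (nat_lit 547706) (.g (nat_lit 2826) (.e (nat_lit 303140) (nat_lit 10) (.e (nat_lit 434295) (nat_lit 49) (.e (nat_lit 745491) (nat_lit 4) (.e (nat_lit 65610) (nat_lit 10) (.e (nat_lit 344129) (nat_lit 26) (.e (nat_lit 557118) (nat_lit 18) (.e (nat_lit 2808) (nat_lit 180) .nil))))))) (.g (nat_lit 1) (.e (nat_lit 286623) (nat_lit 0) .nil) .nil))))) (.nd (nat_lit 8) (.nd (nat_lit 9) 
(.lf (nat_lit 547066) (.g (nat_lit 2589) (.e (nat_lit 303117) (nat_lit 2) (.e (nat_lit 196666) (nat_lit 13) (.e (nat_lit 65610) (nat_lit 10) (.e (nat_lit 344126) (nat_lit 25) (.e (nat_lit 548874) (nat_lit 5) (.e (nat_lit 1401) (nat_lit 106) (.e (nat_lit 327424) (nat_lit 8) .nil))))))) (.g (nat_lit 1) (.e (nat_lit 284574) (nat_lit 0) .nil) .nil))) 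
(.lf (nat_lit 547578) (.g (nat_lit 2178) (.e (nat_lit 303124) (nat_lit 7) (.e (nat_lit 409646) (nat_lit 18) (.e (nat_lit 303132) (nat_lit 9) (.e (nat_lit 426109) (nat_lit 1) .nil)))) (.g (nat_lit 0) (.e (nat_lit 285525) (nat_lit 0) .nil) .nil)))) (.nd (nat_lit 9) 
(.lf (nat_lit 547322) (.g (nat_lit 2529) (.e (nat_lit 303119) (nat_lit 3) (.e (nat_lit 204845) (nat_lit 24) (.e (nat_lit 319531) (nat_lit 16) (.e (nat_lit 286735) (nat_lit 3) (.e (nat_lit 98349) (nat_lit 24) .nil))))) (.g (nat_lit 0) (.e (nat_lit 284939) (nat_lit 0) .nil) .nil))) 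
(.lf (nat_lit 547834) (.g (nat_lit 1689) (.e (nat_lit 303143) (nat_lit 12) (.e (nat_lit 475211) (nat_lit 41) (.e (nat_lit 712755) (nat_lit 30) (.e (nat_lit 450595) (nat_lit 17) (.e (nat_lit 671488) (nat_lit 14) .nil))))) (.g (nat_lit 0) (.e (nat_lit 286925) (nat_lit 0) .nil) .nil)))))))))) 
(.nd (nat_lit 3) (.nd (nat_lit 4) (.nd (nat_lit 5) (.nd (nat_lit 6) (.nd (nat_lit 7) 
(.nd (nat_lit 8) (.nd (nat_lit 9) 
(.lf (nat_lit 546822) (.g (nat_lit 1038) (.e (nat_lit 303106) (nat_lit 0) (.e (nat_lit 3262) (nat_lit 198) (.e (nat_lit 540704) (nat_lit 12) (.e (nat_lit 360467) (nat_lit 3) (.e (nat_lit 516139) (nat_lit 7) .nil))))) (.g (nat_lit 0) (.e (nat_lit 284120) (nat_lit 0) .nil) .nil))) 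
(.lf (nat_lit 547334) (.g (nat_lit 2013) (.e (nat_lit 303119) (nat_lit 3) (.e (nat_lit 204846) (nat_lit 24) (.e (nat_lit 319505) (nat_lit 10) (.e (nat_lit 5714) (nat_lit 312) (.e (nat_lit 2682) (nat_lit 168) .nil))))) (.g (nat_lit 0) (.e (nat_lit 284965) (nat_lit 0) .nil) .nil)))) (.nd (nat_lit 9) 
(.lf (nat_lit 547078) (.g (nat_lit 1196) (.e (nat_lit 303117) (nat_lit 2) (.e (nat_lit 196666) (nat_lit 13) (.e (nat_lit 65617) (nat_lit 10) (.e (nat_lit 344117) (nat_lit 21) .nil)))) (.g (nat_lit 0) (.e (nat_lit 284586) (nat_lit 0) .nil) .nil))) 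
(.lf (nat_lit 547590) (.g (nat_lit 2236) (.e (nat_lit 303127) (nat_lit 9) (.e (nat_lit 426539) (nat_lit 29) (.e (nat_lit 352318) (nat_lit 24) (.e (nat_lit 123195) (nat_lit 266) (.e (nat_lit 57350) (nat_lit 0) (.e (nat_lit 6113) (nat_lit 332) (.e (nat_lit 2810) (nat_lit 180) .nil))))))) (.g (nat_lit 1) (.e (nat_lit 285600) (nat_lit 0) .nil) .nil))))) (.nd (nat_lit 8) (.nd (nat_lit 9) 
(.lf (nat_lit 546950) (.g (nat_lit 2523) (.e (nat_lit 303116) (nat_lit 2) (.e (nat_lit 196666) (nat_lit 13) (.e (nat_lit 65617) (nat_lit 10) (.e (nat_lit 344133) (nat_lit 26) (.e (nat_lit 557073) (nat_lit 9) .nil))))) (.g (nat_lit 0) (.e (nat_lit 284421) (nat_lit 0) .nil) .nil))) 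
(.lf (nat_lit 547462) (.g (nat_lit 2543) (.e (nat_lit 303119) (nat_lit 3) (.e (nat_lit 204868) (nat_lit 29) (.e (nat_lit 360466) (nat_lit 3) (.e (nat_lit 516097) (nat_lit 0) (.e (nat_lit 7026) (nat_lit 377) .nil))))) (.g (nat_lit 0) (.e (nat_lit 285183) (nat_lit 0) .nil) .nil)))) (.nd (nat_lit 9) 
(.lf (nat_lit 547206) (.g (nat_lit 807) (.e (nat_lit 303118) (nat_lit 3) (.e (nat_lit 204855) (nat_lit 26) (.e (nat_lit 336080) (nat_lit 9) .nil))) (.g (nat_lit 0) (.e (nat_lit 284739) (nat_lit 0) .nil) .nil))) 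
(.lf (nat_lit 547718) (.g (nat_lit 2143) (.e (nat_lit 303142) (nat_lit 12) (.e (nat_lit 475211) (nat_lit 41) (.e (nat_lit 712755) (nat_lit 30) (.e (nat_lit 450563) (nat_lit 0) (.e (nat_lit 5924) (nat_lit 321) (.e (nat_lit 8213) (nat_lit 9) .nil)))))) (.g (nat_lit 1) (.e (nat_lit 286654) (nat_lit 0) .nil) .nil)))))) (.nd (nat_lit 7) (.nd (nat_lit 8) (.nd (nat_lit 9) 
(.lf (nat_lit 546886) (.g (nat_lit 1131) (.e (nat_lit 303112) (nat_lit 0) (.e (nat_lit 3304) (nat_lit 202) (.e (nat_lit 573477) (nat_lit 12) (.e (nat_lit 57750) (nat_lit 201) .nil)))) (.g (nat_lit 0) (.e (nat_lit 284231) (nat_lit 0) .nil) .nil))) 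
(.lf (nat_lit 547398) (.g (nat_lit 3782) (.e (nat_lit 303119) (nat_lit 3) (.e (nat_lit 204855) (nat_lit 26) (.e (nat_lit 336073) (nat_lit 9) (.e (nat_lit 336013) (nat_lit 2) (.e (nat_lit 90165) (nat_lit 12) (.e (nat_lit 164208) (nat_lit 176) (.e (nat_lit 2810) (nat_lit 180) .nil))))))) (.g (nat_lit 1) (.e (nat_lit 285056) (nat_lit 0) .nil) .nil)))) (.nd (nat_lit 9) 
(.lf (nat_lit 547142) (.g (nat_lit 324) (.e (nat_lit 303117) (nat_lit 2) (.e (nat_lit 196674) (nat_lit 15) (.e (nat_lit 81946) (nat_lit 20) .nil))) (.g (nat_lit 0) (.e (nat_lit 284662) (nat_lit 0) .nil) .nil))) 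
(.lf (nat_lit 547654) (.g (nat_lit 1923) (.e (nat_lit 303136) (nat_lit 10) (.e (nat_lit 434291) (nat_lit 44) (.e (nat_lit 704738) (nat_lit 11) (.e (nat_lit 16470) (nat_lit 14) .nil)))) (.g (nat_lit 0) (.e (nat_lit 286150) (nat_lit 0) .nil) .nil))))) (.nd (nat_lit 8) (.nd (nat_lit 9) 
(.lf (nat_lit 547014) (.g (nat_lit 824) (.e (nat_lit 303117) (nat_lit 2) (.e (nat_lit 196666) (nat_lit 13) (.e (nat_lit 65601) (nat_lit 9) .nil))) (.g (nat_lit 0) (.e (nat_lit 284519) (nat_lit 0) .nil) .nil))) 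
(.lf (nat_lit 547526) (.g (nat_lit 1874) (.e (nat_lit 303119) (nat_lit 3) (.e (nat_lit 204869) (nat_lit 29) (.e (nat_lit 360475) (nat_lit 8) (.e (nat_lit 564992) (nat_lit 10) .nil)))) (.g (nat_lit 0) (.e (nat_lit 285359) (nat_lit 0) .nil) .nil)))) (.nd (nat_lit 9) 
(.lf (nat_lit 547270) (.g (nat_lit 2577) (.e (nat_lit 303118) (nat_lit 3) (.e (nat_lit 204869) (nat_lit 29) (.e (nat_lit 360466) (nat_lit 3) (.e (nat_lit 516139) (nat_lit 7) (.e (nat_lit 417536) (nat_lit 18) .nil))))) (.g (nat_lit 0) (.e (nat_lit 284860) (nat_lit 0) .nil) .nil))) 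
(.lf (nat_lit 547782) (.g (nat_lit 1602) (.e (nat_lit 303143) (nat_lit 12) (.e (nat_lit 475185) (nat_lit 29) (.e (nat_lit 557101) (nat_lit 13) (.e (nat_lit 172094) (nat_lit 9) .nil)))) (.g (nat_lit 0) (.e (nat_lit 286773) (nat_lit 0) .nil) .nil))))))) (.nd (nat_lit 6) (.nd (nat_lit 7) (.nd (nat_lit 8) (.nd (nat_lit 9) 
(.lf (nat_lit 546854) (.g (nat_lit 2282) (.e (nat_lit 303109) (nat_lit 0) (.e (nat_lit 3238) (nat_lit 197) (.e (nat_lit 532550) (nat_lit 12) (.e (nat_lit 360467) (nat_lit 3) (.e (nat_lit 516139) (nat_lit 7) .nil))))) (.g (nat_lit 0) (.e (nat_lit 284174) (nat_lit 0) .nil) .nil))) 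
(.lf (nat_lit 547366) (.g (nat_lit 3264) (.e (nat_lit 303119) (nat_lit 3) (.e (nat_lit 204846) (nat_lit 24) (.e (nat_lit 319534) (nat_lit 16) (.e (nat_lit 286734) (nat_lit 3) (.e (nat_lit 98349) (nat_lit 24) (.e (nat_lit 417536) (nat_lit 8) .nil)))))) (.g (nat_lit 1) (.e (nat_lit 285013) (nat_lit 0) .nil) .nil)))) (.nd (nat_lit 9) 
(.lf (nat_lit 547110) (.g (nat_lit 2107) (.e (nat_lit 303117) (nat_lit 2) (.e (nat_lit 196672) (nat_lit 15) (.e (nat_lit 81954) (nat_lit 23) (.e (nat_lit 98329) (nat_lit 17) .nil)))) (.g (nat_lit 0) (.e (nat_lit 284626) (nat_lit 0) .nil) .nil))) 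
(.lf (nat_lit 547622) (.g (nat_lit 1321) (.e (nat_lit 303133) (nat_lit 9) (.e (nat_lit 426412) (nat_lit 15) (.e (nat_lit 2174) (nat_lit 143) (.e (nat_lit 712755) (nat_lit 30) (.e (nat_lit 450597) (nat_lit 17) .nil))))) (.g (nat_lit 0) (.e (nat_lit 285836) (nat_lit 0) .nil) .nil))))) (.nd (nat_lit 8) (.nd (nat_lit 9) 
(.lf (nat_lit 546982) (.g (nat_lit 3933) (.e (nat_lit 303117) (nat_lit 2) (.e (nat_lit 196630) (nat_lit 9) (.e (nat_lit 1413) (nat_lit 108) (.e (nat_lit 336099) (nat_lit 9) (.e (nat_lit 336013) (nat_lit 2) (.e (nat_lit 90129) (nat_lit 9) (.e (nat_lit 2828) (nat_lit 182) (.e (nat_lit 409646) (nat_lit 18) .nil)))))))) (.g (nat_lit 1) (.e (nat_lit 284459) (nat_lit 0) .nil) .nil))) 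
(.lf (nat_lit 547494) (.g (nat_lit 3801) (.e (nat_lit 303119) (nat_lit 3) (.e (nat_lit 204869) (nat_lit 29) (.e (nat_lit 360467) (nat_lit 3) (.e (nat_lit 516138) (nat_lit 7) (.e (nat_lit 409646) (nat_lit 18) .nil))))) (.g (nat_lit 1) (.e (nat_lit 285254) (nat_lit 0) .nil) .nil)))) (.nd (nat_lit 9) 
(.lf (nat_lit 547238) (.g (nat_lit 2104) (.e (nat_lit 303118) (nat_lit 3) (.e (nat_lit 204865) (nat_lit 28) (.e (nat_lit 352315) (nat_lit 23) (.e (nat_lit 98350) (nat_lit 24) (.e (nat_lit 417536) (nat_lit 18) .nil))))) (.g (nat_lit 0) (.e (nat_lit 284803) (nat_lit 0) .nil) .nil))) 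
(.lf (nat_lit 547750) (.g (nat_lit 2396) (.e (nat_lit 303143) (nat_lit 12) (.e (nat_lit 475185) (nat_lit 29) (.e (nat_lit 557100) (nat_lit 13) (.e (nat_lit 172105) (nat_lit 10) .nil)))) (.g (nat_lit 0) (.e (nat_lit 286733) (nat_lit 0) .nil) .nil)))))) (.nd (nat_lit 7) (.nd (nat_lit 8) (.nd (nat_lit 9) 
(.lf (nat_lit 546918) (.g (nat_lit 1994) (.e (nat_lit 303114) (nat_lit 1) (.e (nat_lit 164399) (nat_lit 256) (.e (nat_lit 57407) (nat_lit 12) (.e (nat_lit 336433) (nat_lit 30) .nil)))) (.g (nat_lit 0) (.e (nat_lit 284341) (nat_lit 0) .nil) .nil))) 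
(.lf (nat_lit 547430) (.g (nat_lit 2454) (.e (nat_lit 303119) (nat_lit 3) (.e (nat_lit 204860) (nat_lit 26) (.e (nat_lit 336186) (nat_lit 11) (.e (nat_lit 368676) (nat_lit 21) (.e (nat_lit 516106) (nat_lit 0) (.e (nat_lit 7936) (nat_lit 377) (.e (nat_lit 2797) (nat_lit 180) .nil))))))) (.g (nat_lit 1) (.e (nat_lit 285111) (nat_lit 0) .nil) .nil)))) (.nd (nat_lit 9) 
(.lf (nat_lit 547174) (.g (nat_lit 1805) (.e (nat_lit 303117) (nat_lit 2) (.e (nat_lit 196681) (nat_lit 17) (.e (nat_lit 131104) (nat_lit 9) (.e (nat_lit 336028) (nat_lit 3) (.e (nat_lit 98350) (nat_lit 24) .nil))))) (.g (nat_lit 0) (.e (nat_lit 284698) (nat_lit 0) .nil) .nil))) 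
(.lf (nat_lit 547686) (.g (nat_lit 428) (.e (nat_lit 303139) (nat_lit 10) (.e (nat_lit 434268) (nat_lit 36) (.e (nat_lit 639020) (nat_lit 16) .nil))) (.g (nat_lit 0) (.e (nat_lit 286428) (nat_lit 0) .nil) .nil))))) (.nd (nat_lit 8) (.nd (nat_lit 9) 
(.lf (nat_lit 547046) (.g (nat_lit 4178) (.e (nat_lit 303117) (nat_lit 2) (.e (nat_lit 196666) (nat_lit 13) (.e (nat_lit 65610) (nat_lit 10) (.e (nat_lit 344117) (nat_lit 21) (.e (nat_lit 516106) (nat_lit 0) (.e (nat_lit 6986) (nat_lit 377) (.e (nat_lit 7936) (nat_lit 180) .nil))))))) (.g (nat_lit 1) (.e (nat_lit 284553) (nat_lit 0) .nil) .nil))) 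
(.lf (nat_lit 547558) (.g (nat_lit 2204) (.e (nat_lit 303119) (nat_lit 3) (.e (nat_lit 204885) (nat_lit 33) (.e (nat_lit 401448) (nat_lit 10) (.e (nat_lit 434231) (nat_lit 23) (.e (nat_lit 532480) (nat_lit 0) .nil))))) (.g (nat_lit 0) (.e (nat_lit 285404) (nat_lit 0) .nil) .nil)))) (.nd (nat_lit 9) 
(.lf (nat_lit 547302) (.g (nat_lit 3284) (.e (nat_lit 303118) (nat_lit 3) (.e (nat_lit 204885) (nat_lit 33) (.e (nat_lit 401434) (nat_lit 9) (.e (nat_lit 426125) (nat_lit 2) (.e (nat_lit 196661) (nat_lit 12) (.e (nat_lit 57712) (nat_lit 176) (.e (nat_lit 1378) (nat_lit 104) .nil))))))) (.g (nat_lit 1) (.e (nat_lit 284895) (nat_lit 0) .nil) .nil))) 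
(.lf (nat_lit 547814) (.g (nat_lit 3674) (.e (nat_lit 303143) (nat_lit 12) (.e (nat_lit 475185) (nat_lit 29) (.e (nat_lit 557109) (nat_lit 15) (.e (nat_lit 188433) (nat_lit 20) (.e (nat_lit 3114) (nat_lit 193) .nil))))) (.g (nat_lit 0) (.e (nat_lit 286811) (nat_lit 0) .nil) .nil)))))))) (.nd (nat_lit 5) (.nd (nat_lit 6) (.nd (nat_lit 7) (.nd (nat_lit 8) (.nd (nat_lit 9) 
(.lf (nat_lit 546838) (.g (nat_lit 4195) (.e (nat_lit 303108) (nat_lit 0) (.e (nat_lit 3238) (nat_lit 197) (.e (nat_lit 532535) (nat_lit 9) (.e (nat_lit 336099) (nat_lit 9) (.e (nat_lit 343808) (nat_lit 3) .nil))))) (.g (nat_lit 0) (.e (nat_lit 284150) (nat_lit 0) .nil) .nil))) 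
(.lf (nat_lit 547350) (.g (nat_lit 3995) (.e (nat_lit 303119) (nat_lit 3) (.e (nat_lit 204846) (nat_lit 24) (.e (nat_lit 319531) (nat_lit 16) (.e (nat_lit 286735) (nat_lit 3) (.e (nat_lit 98325) (nat_lit 17) (.e (nat_lit 6986) (nat_lit 377) (.e (nat_lit 1376) (nat_lit 104) .nil))))))) (.g (nat_lit 1) (.e (nat_lit 284995) (nat_lit 0) .nil) .nil)))) (.nd (nat_lit 9) 
(.lf (nat_lit 547094) (.g (nat_lit 2141) (.e (nat_lit 303117) (nat_lit 2) (.e (nat_lit 196671) (nat_lit 15) (.e (nat_lit 81953) (nat_lit 22) (.e (nat_lit 90130) (nat_lit 9) .nil)))) (.g (nat_lit 0) (.e (nat_lit 284609) (nat_lit 0) .nil) .nil))) 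
(.lf (nat_lit 547606) (.g (nat_lit 4680) (.e (nat_lit 303133) (nat_lit 9) (.e (nat_lit 426412) (nat_lit 15) (.e (nat_lit 1846) (nat_lit 124) (.e (nat_lit 557108) (nat_lit 15) (.e (nat_lit 188449) (nat_lit 22) (.e (nat_lit 204544) (nat_lit 18) (.e (nat_lit 2798) (nat_lit 180) .nil))))))) (.g (nat_lit 1) (.e (nat_lit 285746) (nat_lit 0) .nil) .nil))))) (.nd (nat_lit 8) (.nd (nat_lit 9) 
(.lf (nat_lit 546966) (.g (nat_lit 632) (.e (nat_lit 303116) (nat_lit 2) (.e (nat_lit 196674) (nat_lit 15) (.e (nat_lit 81947) (nat_lit 20) .nil))) (.g (nat_lit 0) (.e (nat_lit 284440) (nat_lit 0) .nil) .nil))) 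
(.lf (nat_lit 547478) (.g (nat_lit 2211) (.e (nat_lit 303119) (nat_lit 3) (.e (nat_lit 204868) (nat_lit 29) (.e (nat_lit 360467) (nat_lit 3) (.e (nat_lit 516139) (nat_lit 7) (.e (nat_lit 417536) (nat_lit 18) .nil))))) (.g (nat_lit 1) (.e (nat_lit 285199) (nat_lit 0) .nil) .nil)))) (.nd (nat_lit 9) 
(.lf (nat_lit 547222) (.g (nat_lit 492) (.e (nat_lit 303118) (nat_lit 3) (.e (nat_lit 204855) (nat_lit 26) (.e (nat_lit 336176) (nat_lit 10) .nil))) (.g (nat_lit 0) (.e (nat_lit 284780) (nat_lit 0) .nil) .nil))) 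
(.lf (nat_lit 547734) (.g (nat_lit 4787) (.e (nat_lit 303143) (nat_lit 12) (.e (nat_lit 475185) (nat_lit 29) (.e (nat_lit 557098) (nat_lit 13) (.e (nat_lit 172096) (nat_lit 9) (.e (nat_lit 426125) (nat_lit 2) (.e (nat_lit 204544) (nat_lit 18) (.e (nat_lit 2797) (nat_lit 180) .nil))))))) (.g (nat_lit 1) (.e (nat_lit 286712) (nat_lit 0) .nil) .nil)))))) 
(.nd (nat_lit 7) (.nd (nat_lit 8) (.nd (nat_lit 9) 
(.lf (nat_lit 546902) (.g (nat_lit 3311) (.e (nat_lit 303111) (nat_lit 0) (.e (nat_lit 3255) (nat_lit 197) (.e (nat_lit 532535) (nat_lit 9) (.e (nat_lit 336099) (nat_lit 9) (.e (nat_lit 335920) (nat_lit 0) .nil))))) (.g (nat_lit 0) (.e (nat_lit 284283) (nat_lit 0) .nil) .nil))) 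
(.lf (nat_lit 547414) (.g (nat_lit 1010) (.e (nat_lit 303119) (nat_lit 3) (.e (nat_lit 204855) (nat_lit 26) (.e (nat_lit 336103) (nat_lit 9) .nil))) (.g (nat_lit 0) (.e (nat_lit 285087) (nat_lit 0) .nil) .nil)))) (.nd (nat_lit 9) 
(.lf (nat_lit 547158) (.g (nat_lit 2057) (.e (nat_lit 303117) (nat_lit 2) (.e (nat_lit 196674) (nat_lit 15) (.e (nat_lit 81954) (nat_lit 23) (.e (nat_lit 98349) (nat_lit 24) (.e (nat_lit 417536) (nat_lit 18) .nil))))) (.g (nat_lit 0) (.e (nat_lit 284681) (nat_lit 0) .nil) .nil))) 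
(.lf (nat_lit 547670) (.g (nat_lit 1766) (.e (nat_lit 303137) (nat_lit 10) (.e (nat_lit 434291) (nat_lit 44) (.e (nat_lit 704737) (nat_lit 11) (.e (nat_lit 16472) (nat_lit 14) .nil)))) (.g (nat_lit 0) (.e (nat_lit 286334) (nat_lit 0) .nil) .nil))))) (.nd (nat_lit 8) (.nd (nat_lit 9) 
(.lf (nat_lit 547030) (.g (nat_lit 2970) (.e (nat_lit 303117) (nat_lit 2) (.e (nat_lit 196666) (nat_lit 13) (.e (nat_lit 65610) (nat_lit 10) (.e (nat_lit 344117) (nat_lit 21) (.e (nat_lit 516099) (nat_lit 0) .nil))))) (.g (nat_lit 0) (.e (nat_lit 284537) (nat_lit 0) .nil) .nil))) 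
(.lf (nat_lit 547542) (.g (nat_lit 1109) (.e (nat_lit 303119) (nat_lit 3) (.e (nat_lit 204877) (nat_lit 31) (.e (nat_lit 376862) (nat_lit 22) (.e (nat_lit 90130) (nat_lit 9) .nil)))) (.g (nat_lit 0) (.e (nat_lit 285382) (nat_lit 0) .nil) .nil)))) (.nd (nat_lit 9) 
(.lf (nat_lit 547286) (.g (nat_lit 2603) (.e (nat_lit 303118) (nat_lit 3) (.e (nat_lit 204869) (nat_lit 29) (.e (nat_lit 360475) (nat_lit 8) (.e (nat_lit 557065) (nat_lit 9) .nil)))) (.g (nat_lit 0) (.e (nat_lit 284878) (nat_lit 0) .nil) .nil))) 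
(.lf (nat_lit 547798) (.g (nat_lit 1908) (.e (nat_lit 303143) (nat_lit 12) (.e (nat_lit 475185) (nat_lit 29) (.e (nat_lit 557107) (nat_lit 15) (.e (nat_lit 188440) (nat_lit 20) (.e (nat_lit 3107) (nat_lit 193) .nil))))) (.g (nat_lit 0) (.e (nat_lit 286795) (nat_lit 0) .nil) .nil))))))) (.nd (nat_lit 6) (.nd (nat_lit 7) (.nd (nat_lit 8) (.nd (nat_lit 9) 
(.lf (nat_lit 546870) (.g (nat_lit 2049) (.e (nat_lit 303112) (nat_lit 0) (.e (nat_lit 3252) (nat_lit 197) (.e (nat_lit 532547) (nat_lit 11) (.e (nat_lit 352312) (nat_lit 22) (.e (nat_lit 90165) (nat_lit 12) (.e (nat_lit 164207) (nat_lit 176) (.e (nat_lit 2798) (nat_lit 180) .nil))))))) (.g (nat_lit 1) (.e (nat_lit 284199) (nat_lit 0) .nil) .nil))) 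
(.lf (nat_lit 547382) (.g (nat_lit 898) (.e (nat_lit 303119) (nat_lit 3) (.e (nat_lit 204852) (nat_lit 26) (.e (nat_lit 336128) (nat_lit 9) .nil))) (.g (nat_lit 0) (.e (nat_lit 285033) (nat_lit 0) .nil) .nil)))) (.nd (nat_lit 9) 
(.lf (nat_lit 547126) (.g (nat_lit 3369) (.e (nat_lit 303117) (nat_lit 2) (.e (nat_lit 196673) (nat_lit 15) (.e (nat_lit 81953) (nat_lit 22) (.e (nat_lit 90130) (nat_lit 9) (.e (nat_lit 2830) (nat_lit 182) (.e (nat_lit 417536) (nat_lit 18) .nil)))))) (.g (nat_lit 1) (.e (nat_lit 284645) (nat_lit 0) .nil) .nil))) 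
(.lf (nat_lit 547638) (.g (nat_lit 1570) (.e (nat_lit 303133) (nat_lit 9) (.e (nat_lit 426499) (nat_lit 27) (.e (nat_lit 336194) (nat_lit 12) (.e (nat_lit 385096) (nat_lit 49) .nil)))) (.g (nat_lit 0) (.e (nat_lit 285903) (nat_lit 0) .nil) .nil))))) (.nd (nat_lit 8) (.nd (nat_lit 9) 
(.lf (nat_lit 546998) (.g (nat_lit 3136) (.e (nat_lit 303117) (nat_lit 2) (.e (nat_lit 196666) (nat_lit 13) (.e (nat_lit 65589) (nat_lit 9) (.e (nat_lit 336013) (nat_lit 2) (.e (nat_lit 90165) (nat_lit 12) (.e (nat_lit 164207) (nat_lit 176) (.e (nat_lit 2804) (nat_lit 180) .nil))))))) (.g (nat_lit 1) (.e (nat_lit 284499) (nat_lit 0) .nil) .nil))) 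
(.lf (nat_lit 547510) (.g (nat_lit 1911) (.e (nat_lit 303119) (nat_lit 3) (.e (nat_lit 204869) (nat_lit 29) (.e (nat_lit 360474) (nat_lit 8) (.e (nat_lit 564992) (nat_lit 10) .nil)))) (.g (nat_lit 0) (.e (nat_lit 285310) (nat_lit 0) .nil) .nil)))) (.nd (nat_lit 9) 
(.lf (nat_lit 547254) (.g (nat_lit 1173) (.e (nat_lit 303118) (nat_lit 3) (.e (nat_lit 204868) (nat_lit 29) (.e (nat_lit 360466) (nat_lit 3) (.e (nat_lit 524032) (nat_lit 7) .nil)))) (.g (nat_lit 0) (.e (nat_lit 284840) (nat_lit 0) .nil) .nil))) 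
(.lf (nat_lit 547766) (.g (nat_lit 2701) (.e (nat_lit 303143) (nat_lit 12) (.e (nat_lit 475185) (nat_lit 29) (.e (nat_lit 557100) (nat_lit 13) (.e (nat_lit 172113) (nat_lit 10) (.e (nat_lit 434218) (nat_lit 19) (.e (nat_lit 507648) (nat_lit 0) (.e (nat_lit 2797) (nat_lit 180) .nil))))))) (.g (nat_lit 1) (.e (nat_lit 286754) (nat_lit 0) .nil) .nil)))))) 
(.nd (nat_lit 7) (.nd (nat_lit 8) (.nd (nat_lit 9) 
(.lf (nat_lit 546934) (.g (nat_lit 4008) (.e (nat_lit 303116) (nat_lit 2) (.e (nat_lit 196666) (nat_lit 13) (.e (nat_lit 65610) (nat_lit 10) (.e (nat_lit 344117) (nat_lit 21) (.e (nat_lit 516106) (nat_lit 0) (.e (nat_lit 6986) (nat_lit 377) (.e (nat_lit 7936) (nat_lit 180) .nil))))))) (.g (nat_lit 1) (.e (nat_lit 284405) (nat_lit 0) .nil) .nil))) 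
(.lf (nat_lit 547446) (.g (nat_lit 3434) (.e (nat_lit 303119) (nat_lit 3) (.e (nat_lit 204866) (nat_lit 28) (.e (nat_lit 352313) (nat_lit 23) (.e (nat_lit 98323) (nat_lit 17) (.e (nat_lit 6989) (nat_lit 377) (.e (nat_lit 2810) (nat_lit 180) .nil)))))) (.g (nat_lit 1) (.e (nat_lit 285150) (nat_lit 0) .nil) .nil)))) (.nd (nat_lit 9) 
(.lf (nat_lit 547190) (.g (nat_lit 335) (.e (nat_lit 303118) (nat_lit 3) (.e (nat_lit 204816) (nat_lit 17) (.e (nat_lit 6203) (nat_lit 332) .nil))) (.g (nat_lit 0) (.e (nat_lit 284714) (nat_lit 0) .nil) .nil))) 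
(.lf (nat_lit 547702) (.g (nat_lit 2745) (.e (nat_lit 303140) (nat_lit 10) (.e (nat_lit 434275) (nat_lit 39) (.e (nat_lit 663584) (nat_lit 12) (.e (nat_lit 164021) (nat_lit 46) (.e (nat_lit 704741) (nat_lit 11) .nil))))) (.g (nat_lit 0) (.e (nat_lit 286580) (nat_lit 0) .nil) .nil))))) (.nd (nat_lit 8) (.nd (nat_lit 9) 
(.lf (nat_lit 547062) (.g (nat_lit 4893) (.e (nat_lit 303117) (nat_lit 2) (.e (nat_lit 196666) (nat_lit 13) (.e (nat_lit 65610) (nat_lit 10) (.e (nat_lit 344117) (nat_lit 21) (.e (nat_lit 516139) (nat_lit 7) (.e (nat_lit 409646) (nat_lit 18) .nil)))))) (.g (nat_lit 1) (.e (nat_lit 284569) (nat_lit 0) .nil) .nil))) 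
(.lf (nat_lit 547574) (.g (nat_lit 934) (.e (nat_lit 303124) (nat_lit 7) (.e (nat_lit 409646) (nat_lit 18) (.e (nat_lit 303105) (nat_lit 0) .nil))) (.g (nat_lit 0) (.e (nat_lit 285518) (nat_lit 0) .nil) .nil)))) (.nd (nat_lit 9) 
(.lf (nat_lit 547318) (.g (nat_lit 1969) (.e (nat_lit 303119) (nat_lit 3) (.e (nat_lit 204845) (nat_lit 24) (.e (nat_lit 319490) (nat_lit 0) (.e (nat_lit 5756) (nat_lit 315) .nil)))) (.g (nat_lit 0) (.e (nat_lit 284930) (nat_lit 0) .nil) .nil))) 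
(.lf (nat_lit 547830) (.g (nat_lit 2430) (.e (nat_lit 303143) (nat_lit 12) (.e (nat_lit 475211) (nat_lit 41) (.e (nat_lit 712753) (nat_lit 30) (.e (nat_lit 450595) (nat_lit 17) (.e (nat_lit 663589) (nat_lit 14) (.e (nat_lit 2804) (nat_lit 180) .nil)))))) (.g (nat_lit 1) (.e (nat_lit 286886) (nat_lit 0) .nil) .nil))))))))) 
(.nd (nat_lit 4) (.nd (nat_lit 5) (.nd (nat_lit 6) (.nd (nat_lit 7) (.nd (nat_lit 8) 
(.nd (nat_lit 9) 
(.lf (nat_lit 546830) (.g (nat_lit 4204) (.e (nat_lit 303107) (nat_lit 0) (.e (nat_lit 3238) (nat_lit 197) (.e (nat_lit 532535) (nat_lit 9) (.e (nat_lit 336173) (nat_lit 10) (.e (nat_lit 344117) (nat_lit 21) .nil))))) (.g (nat_lit 0) (.e (nat_lit 284135) (nat_lit 0) .nil) .nil))) 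
(.lf (nat_lit 547342) (.g (nat_lit 2509) (.e (nat_lit 303119) (nat_lit 3) (.e (nat_lit 204846) (nat_lit 24) (.e (nat_lit 319529) (nat_lit 16) (.e (nat_lit 286735) (nat_lit 3) (.e (nat_lit 98325) (nat_lit 17) (.e (nat_lit 6986) (nat_lit 377) (.e (nat_lit 1374) (nat_lit 104) .nil))))))) (.g (nat_lit 1) (.e (nat_lit 284987) (nat_lit 0) .nil) .nil)))) (.nd (nat_lit 9) 
(.lf (nat_lit 547086) (.g (nat_lit 2695) (.e (nat_lit 303117) (nat_lit 2) (.e (nat_lit 196666) (nat_lit 13) (.e (nat_lit 65630) (nat_lit 14) (.e (nat_lit 401425) (nat_lit 2) (.e (nat_lit 196628) (nat_lit 9) .nil))))) (.g (nat_lit 0) (.e (nat_lit 284595) (nat_lit 0) .nil) .nil))) 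
(.lf (nat_lit 547598) (.g (nat_lit 584) (.e (nat_lit 303129) (nat_lit 9) (.e (nat_lit 426499) (nat_lit 27) (.e (nat_lit 335895) (nat_lit 0) .nil))) (.g (nat_lit 0) (.e (nat_lit 285648) (nat_lit 0) .nil) .nil))))) (.nd (nat_lit 8) (.nd (nat_lit 9) 
(.lf (nat_lit 546958) (.g (nat_lit 2604) (.e (nat_lit 303116) (nat_lit 2) (.e (nat_lit 196666) (nat_lit 13) (.e (nat_lit 65630) (nat_lit 14) (.e (nat_lit 401428) (nat_lit 3) (.e (nat_lit 204848) (nat_lit 25) .nil))))) (.g (nat_lit 0) (.e (nat_lit 284429) (nat_lit 0) .nil) .nil))) 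
(.lf (nat_lit 547470) (.g (nat_lit 4294) (.e (nat_lit 303119) (nat_lit 3) (.e (nat_lit 204868) (nat_lit 29) (.e (nat_lit 360466) (nat_lit 3) (.e (nat_lit 516139) (nat_lit 7) (.e (nat_lit 409649) (nat_lit 18) .nil))))) (.g (nat_lit 1) (.e (nat_lit 285191) (nat_lit 0) .nil) .nil)))) (.nd (nat_lit 9) 
(.lf (nat_lit 547214) (.g (nat_lit 3439) (.e (nat_lit 303118) (nat_lit 3) (.e (nat_lit 204855) (nat_lit 26) (.e (nat_lit 336099) (nat_lit 9) (.e (nat_lit 336013) (nat_lit 2) (.e (nat_lit 90161) (nat_lit 12) (.e (nat_lit 164214) (nat_lit 176) (.e (nat_lit 2808) (nat_lit 180) .nil))))))) (.g (nat_lit 1) (.e (nat_lit 284762) (nat_lit 0) .nil) .nil))) 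
(.lf (nat_lit 547726) (.g (nat_lit 641) (.e (nat_lit 303142) (nat_lit 12) (.e (nat_lit 475214) (nat_lit 42) (.e (nat_lit 720956) (nat_lit 25) .nil))) (.g (nat_lit 0) (.e (nat_lit 286663) (nat_lit 0) .nil) .nil)))))) (.nd (nat_lit 7) (.nd (nat_lit 8) (.nd (nat_lit 9) 
(.lf (nat_lit 546894) (.g (nat_lit 2352) (.e (nat_lit 303111) (nat_lit 0) (.e (nat_lit 3238) (nat_lit 197) (.e (nat_lit 532535) (nat_lit 9) (.e (nat_lit 336101) (nat_lit 9) .nil)))) (.g (nat_lit 0) (.e (nat_lit 284267) (nat_lit 0) .nil) .nil))) 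
(.lf (nat_lit 547406) (.g (nat_lit 1723) (.e (nat_lit 303119) (nat_lit 3) (.e (nat_lit 204855) (nat_lit 26) (.e (nat_lit 336098) (nat_lit 9) (.e (nat_lit 336013) (nat_lit 2) (.e (nat_lit 90165) (nat_lit 12) .nil))))) (.g (nat_lit 0) (.e (nat_lit 285068) (nat_lit 0) .nil) .nil)))) (.nd (nat_lit 9) 
(.lf (nat_lit 547150) (.g (nat_lit 381) (.e (nat_lit 303117) (nat_lit 2) (.e (nat_lit 196674) (nat_lit 15) (.e (nat_lit 81953) (nat_lit 22) .nil))) (.g (nat_lit 0) (.e (nat_lit 284670) (nat_lit 0) .nil) .nil))) 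
(.lf (nat_lit 547662) (.g (nat_lit 1072) (.e (nat_lit 303137) (nat_lit 10) (.e (nat_lit 434268) (nat_lit 36) (.e (nat_lit 639020) (nat_lit 16) (.e (nat_lit 65582) (nat_lit 7) .nil)))) (.g (nat_lit 0) (.e (nat_lit 286271) (nat_lit 0) .nil) .nil))))) (.nd (nat_lit 8) (.nd (nat_lit 9) 
(.lf (nat_lit 547022) (.g (nat_lit 3667) (.e (nat_lit 303117) (nat_lit 2) (.e (nat_lit 196666) (nat_lit 13) (.e (nat_lit 65610) (nat_lit 10) (.e (nat_lit 344117) (nat_lit 21) (.e (nat_lit 516097) (nat_lit 0) (.e (nat_lit 7026) (nat_lit 377) (.e (nat_lit 7936) (nat_lit 180) .nil))))))) (.g (nat_lit 1) (.e (nat_lit 284529) (nat_lit 0) .nil) .nil))) 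
(.lf (nat_lit 547534) (.g (nat_lit 2622) (.e (nat_lit 303119) (nat_lit 3) (.e (nat_lit 204870) (nat_lit 29) (.e (nat_lit 360466) (nat_lit 3) (.e (nat_lit 516139) (nat_lit 7) (.e (nat_lit 409645) (nat_lit 18) .nil))))) (.g (nat_lit 0) (.e (nat_lit 285372) (nat_lit 0) .nil) .nil)))) (.nd (nat_lit 9) 
(.lf (nat_lit 547278) (.g (nat_lit 2043) (.e (nat_lit 303118) (nat_lit 3) (.e (nat_lit 204869) (nat_lit 29) (.e (nat_lit 360468) (nat_lit 3) (.e (nat_lit 516139) (nat_lit 7) (.e (nat_lit 409646) (nat_lit 18) .nil))))) (.g (nat_lit 0) (.e (nat_lit 284868) (nat_lit 0) .nil) .nil))) 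
(.lf (nat_lit 547790) (.g (nat_lit 2745) (.e (nat_lit 303143) (nat_lit 12) (.e (nat_lit 475185) (nat_lit 29) (.e (nat_lit 557101) (nat_lit 13) (.e (nat_lit 172115) (nat_lit 10) (.e (nat_lit 434226) (nat_lit 20) (.e (nat_lit 507945) (nat_lit 18) .nil)))))) (.g (nat_lit 1) (.e (nat_lit 286781) (nat_lit 0) .nil) .nil))))))) (.nd (nat_lit 6) (.nd (nat_lit 7) (.nd (nat_lit 8) (.nd (nat_lit 9) 
(.lf (nat_lit 546862) (.g (nat_lit 1623) (.e (nat_lit 303110) (nat_lit 0) (.e (nat_lit 3238) (nat_lit 197) (.e (nat_lit 532550) (nat_lit 12) (.e (nat_lit 360468) (nat_lit 3) .nil)))) (.g (nat_lit 0) (.e (nat_lit 284188) (nat_lit 0) .nil) .nil))) 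
(.lf (nat_lit 547374) (.g (nat_lit 3480) (.e (nat_lit 303119) (nat_lit 3) (.e (nat_lit 204849) (nat_lit 25) (.e (nat_lit 327698) (nat_lit 8) (.e (nat_lit 303119) (nat_lit 3) (.e (nat_lit 204819) (nat_lit 17) (.e (nat_lit 6113) (nat_lit 332) (.e (nat_lit 2810) (nat_lit 180) .nil))))))) (.g (nat_lit 1) (.e (nat_lit 285022) (nat_lit 0) .nil) .nil)))) (.nd (nat_lit 9) 
(.lf (nat_lit 547118) (.g (nat_lit 2399) (.e (nat_lit 303117) (nat_lit 2) (.e (nat_lit 196672) (nat_lit 15) (.e (nat_lit 81956) (nat_lit 23) (.e (nat_lit 98349) (nat_lit 24) (.e (nat_lit 417536) (nat_lit 18) .nil))))) (.g (nat_lit 0) (.e (nat_lit 284634) (nat_lit 0) .nil) .nil))) 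
(.lf (nat_lit 547630) (.g (nat_lit 382) (.e (nat_lit 303133) (nat_lit 9) (.e (nat_lit 426412) (nat_lit 15) (.e (nat_lit 2232) (nat_lit 146) .nil))) (.g (nat_lit 0) (.e (nat_lit 285845) (nat_lit 0) .nil) .nil))))) (.nd (nat_lit 8) (.nd (nat_lit 9) 
(.lf (nat_lit 546990) (.g (nat_lit 3616) (.e (nat_lit 303117) (nat_lit 2) (.e (nat_lit 196665) (nat_lit 13) (.e (nat_lit 65589) (nat_lit 9) (.e (nat_lit 336013) (nat_lit 2) (.e (nat_lit 90165) (nat_lit 12) (.e (nat_lit 164209) (nat_lit 176) (.e (nat_lit 2797) (nat_lit 180) .nil))))))) (.g (nat_lit 1) (.e (nat_lit 284481) (nat_lit 0) .nil) .nil))) 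
(.lf (nat_lit 547502) (.g (nat_lit 1854) (.e (nat_lit 303119) (nat_lit 3) (.e (nat_lit 204869) (nat_lit 29) (.e (nat_lit 360474) (nat_lit 8) (.e (nat_lit 557064) (nat_lit 9) .nil)))) (.g (nat_lit 0) (.e (nat_lit 285287) (nat_lit 0) .nil) .nil)))) (.nd (nat_lit 9) 
(.lf (nat_lit 547246) (.g (nat_lit 2290) (.e (nat_lit 303118) (nat_lit 3) (.e (nat_lit 204868) (nat_lit 29) (.e (nat_lit 360466) (nat_lit 3) (.e (nat_lit 516097) (nat_lit 0) (.e (nat_lit 7026) (nat_lit 377) .nil))))) (.g (nat_lit 0) (.e (nat_lit 284832) (nat_lit 0) .nil) .nil))) 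
(.lf (nat_lit 547758) (.g (nat_lit 2122) (.e (nat_lit 303143) (nat_lit 12) (.e (nat_lit 475185) (nat_lit 29) (.e (nat_lit 557100) (nat_lit 13) (.e (nat_lit 172106) (nat_lit 10) (.e (nat_lit 434223) (nat_lit 19) (.e (nat_lit 507648) (nat_lit 0) (.e (nat_lit 2798) (nat_lit 180) .nil))))))) (.g (nat_lit 1) (.e (nat_lit 286744) (nat_lit 0) .nil) .nil)))))) 
(.nd (nat_lit 7) (.nd (nat_lit 8) (.nd (nat_lit 9) 
(.lf (nat_lit 546926) (.g (nat_lit 4514) (.e (nat_lit 303116) (nat_lit 2) (.e (nat_lit 196666) (nat_lit 13) (.e (nat_lit 65610) (nat_lit 10) (.e (nat_lit 344117) (nat_lit 21) (.e (nat_lit 516097) (nat_lit 0) (.e (nat_lit 7073) (nat_lit 377) (.e (nat_lit 2798) (nat_lit 180) .nil))))))) (.g (nat_lit 1) (.e (nat_lit 284397) (nat_lit 0) .nil) .nil))) 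
(.lf (nat_lit 547438) (.g (nat_lit 2496) (.e (nat_lit 303119) (nat_lit 3) (.e (nat_lit 204861) (nat_lit 26) (.e (nat_lit 336186) (nat_lit 11) (.e (nat_lit 368676) (nat_lit 21) (.e (nat_lit 516096) (nat_lit 0) (.e (nat_lit 6989) (nat_lit 377) (.e (nat_lit 2810) (nat_lit 180) .nil))))))) (.g (nat_lit 1) (.e (nat_lit 285122) (nat_lit 0) .nil) .nil)))) (.nd (nat_lit 9) 
(.lf (nat_lit 547182) (.g (nat_lit 1663) (.e (nat_lit 311040) (nat_lit 2) (.e (nat_lit 196672) (nat_lit 15) (.e (nat_lit 81943) (nat_lit 20) (.e (nat_lit 1788) (nat_lit 119) (.e (nat_lit 516139) (nat_lit 7) .nil))))) (.g (nat_lit 0) (.e (nat_lit 284706) (nat_lit 0) .nil) .nil))) 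
(.lf (nat_lit 547694) (.g (nat_lit 1642) (.e (nat_lit 303139) (nat_lit 10) (.e (nat_lit 434268) (nat_lit 36) (.e (nat_lit 639020) (nat_lit 16) (.e (nat_lit 65586) (nat_lit 7) (.e (nat_lit 319526) (nat_lit 15) .nil))))) (.g (nat_lit 0) (.e (nat_lit 286438) (nat_lit 0) .nil) .nil))))) (.nd (nat_lit 8) (.nd (nat_lit 9) 
(.lf (nat_lit 547054) (.g (nat_lit 3507) (.e (nat_lit 303117) (nat_lit 2) (.e (nat_lit 196666) (nat_lit 13) (.e (nat_lit 65610) (nat_lit 10) (.e (nat_lit 344117) (nat_lit 21) (.e (nat_lit 516106) (nat_lit 0) (.e (nat_lit 7014) (nat_lit 377) (.e (nat_lit 2806) (nat_lit 180) .nil))))))) (.g (nat_lit 1) (.e (nat_lit 284561) (nat_lit 0) .nil) .nil))) 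
(.lf (nat_lit 547566) (.g (nat_lit 429) (.e (nat_lit 311040) (nat_lit 3) (.e (nat_lit 204868) (nat_lit 29) (.e (nat_lit 360466) (nat_lit 3) .nil))) (.g (nat_lit 0) (.e (nat_lit 285414) (nat_lit 0) .nil) .nil)))) (.nd (nat_lit 9) 
(.lf (nat_lit 547310) (.g (nat_lit 3950) (.e (nat_lit 303119) (nat_lit 3) (.e (nat_lit 204819) (nat_lit 17) (.e (nat_lit 6113) (nat_lit 332) (.e (nat_lit 2777) (nat_lit 178) (.e (nat_lit 286735) (nat_lit 3) (.e (nat_lit 98323) (nat_lit 17) (.e (nat_lit 6989) (nat_lit 377) (.e (nat_lit 2810) (nat_lit 180) .nil)))))))) (.g (nat_lit 1) (.e (nat_lit 284911) (nat_lit 0) .nil) .nil))) 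
(.lf (nat_lit 547822) (.g (nat_lit 5650) (.e (nat_lit 303143) (nat_lit 12) (.e (nat_lit 475185) (nat_lit 29) (.e (nat_lit 557109) (nat_lit 15) (.e (nat_lit 188449) (nat_lit 22) (.e (nat_lit 196687) (nat_lit 18) (.e (nat_lit 2795) (nat_lit 180) .nil)))))) (.g (nat_lit 1) (.e (nat_lit 286820) (nat_lit 0) .nil) .nil)))))))) 
(.nd (nat_lit 5) (.nd (nat_lit 6) (.nd (nat_lit 7) (.nd (nat_lit 8) (.nd (nat_lit 9) 
(.lf (nat_lit 546846) (.g (nat_lit 859) (.e (nat_lit 303108) (nat_lit 0) (.e (nat_lit 3409) (nat_lit 212) (.e (nat_lit 655378) (nat_lit 4) (.e (nat_lit 172082) (nat_lit 7) .nil)))) (.g (nat_lit 0) (.e (nat_lit 284165) (nat_lit 0) .nil) .nil))) 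
(.lf (nat_lit 547358) (.g (nat_lit 2498) (.e (nat_lit 303119) (nat_lit 3) (.e (nat_lit 204846) (nat_lit 24) (.e (nat_lit 319533) (nat_lit 16) (.e (nat_lit 286734) (nat_lit 3) (.e (nat_lit 98325) (nat_lit 17) .nil))))) (.g (nat_lit 0) (.e (nat_lit 285005) (nat_lit 0) .nil) .nil)))) (.nd (nat_lit 9) 
(.lf (nat_lit 547102) (.g (nat_lit 3884) (.e (nat_lit 303117) (nat_lit 2) (.e (nat_lit 196672) (nat_lit 15) (.e (nat_lit 81953) (nat_lit 22) (.e (nat_lit 90121) (nat_lit 9) .nil)))) (.g (nat_lit 0) (.e (nat_lit 284617) (nat_lit 0) .nil) .nil))) 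
(.lf (nat_lit 547614) (.g (nat_lit 2176) (.e (nat_lit 303133) (nat_lit 9) (.e (nat_lit 426412) (nat_lit 15) (.e (nat_lit 1856) (nat_lit 124) (.e (nat_lit 557107) (nat_lit 15) (.e (nat_lit 188441) (nat_lit 20) .nil))))) (.g (nat_lit 0) (.e (nat_lit 285801) (nat_lit 0) .nil) .nil))))) (.nd (nat_lit 8) (.nd (nat_lit 9) 
(.lf (nat_lit 546974) (.g (nat_lit 2065) (.e (nat_lit 303116) (nat_lit 2) (.e (nat_lit 196674) (nat_lit 15) (.e (nat_lit 81956) (nat_lit 23) (.e (nat_lit 98352) (nat_lit 25) .nil)))) (.g (nat_lit 0) (.e (nat_lit 284448) (nat_lit 0) .nil) .nil))) 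
(.lf (nat_lit 547486) (.g (nat_lit 3372) (.e (nat_lit 303119) (nat_lit 3) (.e (nat_lit 204868) (nat_lit 29) (.e (nat_lit 360475) (nat_lit 8) (.e (nat_lit 557068) (nat_lit 9) (.e (nat_lit 220) (nat_lit 20) (.e (nat_lit 327700) (nat_lit 8) .nil)))))) (.g (nat_lit 1) (.e (nat_lit 285209) (nat_lit 0) .nil) .nil)))) (.nd (nat_lit 9) 
(.lf (nat_lit 547230) (.g (nat_lit 674) (.e (nat_lit 303118) (nat_lit 3) (.e (nat_lit 204861) (nat_lit 26) (.e (nat_lit 336184) (nat_lit 11) .nil))) (.g (nat_lit 0) (.e (nat_lit 284794) (nat_lit 0) .nil) .nil))) 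
(.lf (nat_lit 547742) (.g (nat_lit 4236) (.e (nat_lit 303143) (nat_lit 12) (.e (nat_lit 475185) (nat_lit 29) (.e (nat_lit 557100) (nat_lit 13) (.e (nat_lit 172092) (nat_lit 9) (.e (nat_lit 426125) (nat_lit 2) (.e (nat_lit 204544) (nat_lit 18) (.e (nat_lit 2797) (nat_lit 180) .nil))))))) (.g (nat_lit 1) (.e (nat_lit 286725) (nat_lit 0) .nil) .nil)))))) 
(.nd (nat_lit 7) (.nd (nat_lit 8) (.nd (nat_lit 9) 
(.lf (nat_lit 546910) (.g (nat_lit 1606) (.e (nat_lit 303111) (nat_lit 0) (.e (nat_lit 3468) (nat_lit 217) (.e (nat_lit 696344) (nat_lit 8) (.e (nat_lit 172123) (nat_lit 13) (.e (nat_lit 483376) (nat_lit 22) .nil))))) (.g (nat_lit 0) (.e (nat_lit 284310) (nat_lit 0) .nil) .nil))) 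
(.lf (nat_lit 547422) (.g (nat_lit 1721) (.e (nat_lit 303119) (nat_lit 3) (.e (nat_lit 204855) (nat_lit 26) (.e (nat_lit 336173) (nat_lit 10) (.e (nat_lit 344115) (nat_lit 20) (.e (nat_lit 507920) (nat_lit 5) .nil))))) (.g (nat_lit 0) (.e (nat_lit 285097) (nat_lit 0) .nil) .nil)))) (.nd (nat_lit 9) 
(.lf (nat_lit 547166) (.g (nat_lit 2049) (.e (nat_lit 303117) (nat_lit 2) (.e (nat_lit 196674) (nat_lit 15) (.e (nat_lit 81956) (nat_lit 23) (.e (nat_lit 106240) (nat_lit 17) .nil)))) (.g (nat_lit 0) (.e (nat_lit 284689) (nat_lit 0) .nil) .nil))) 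
(.lf (nat_lit 547678) (.g (nat_lit 1710) (.e (nat_lit 303138) (nat_lit 10) (.e (nat_lit 434268) (nat_lit 36) (.e (nat_lit 639020) (nat_lit 16) (.e (nat_lit 65586) (nat_lit 7) (.e (nat_lit 319526) (nat_lit 15) .nil))))) (.g (nat_lit 0) (.e (nat_lit 286373) (nat_lit 0) .nil) .nil))))) (.nd (nat_lit 8) (.nd (nat_lit 9) 
(.lf (nat_lit 547038) (.g (nat_lit 3970) (.e (nat_lit 303117) (nat_lit 2) (.e (nat_lit 196666) (nat_lit 13) (.e (nat_lit 65610) (nat_lit 10) (.e (nat_lit 344117) (nat_lit 21) (.e (nat_lit 516102) (nat_lit 0) (.e (nat_lit 6989) (nat_lit 377) (.e (nat_lit 7936) (nat_lit 180) .nil))))))) (.g (nat_lit 1) (.e (nat_lit 284545) (nat_lit 0) .nil) .nil))) 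
(.lf (nat_lit 547550) (.g (nat_lit 2344) (.e (nat_lit 303119) (nat_lit 3) (.e (nat_lit 204878) (nat_lit 31) (.e (nat_lit 376865) (nat_lit 22) (.e (nat_lit 90130) (nat_lit 9) (.e (nat_lit 2830) (nat_lit 182) (.e (nat_lit 417536) (nat_lit 18) .nil)))))) (.g (nat_lit 1) (.e (nat_lit 285395) (nat_lit 0) .nil) .nil)))) (.nd (nat_lit 9) 
(.lf (nat_lit 547294) (.g (nat_lit 3679) (.e (nat_lit 303118) (nat_lit 3) (.e (nat_lit 204869) (nat_lit 29) (.e (nat_lit 360475) (nat_lit 8) (.e (nat_lit 557089) (nat_lit 12) (.e (nat_lit 163844) (nat_lit 0) .nil))))) (.g (nat_lit 0) (.e (nat_lit 284887) (nat_lit 0) .nil) .nil))) 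
(.lf (nat_lit 547806) (.g (nat_lit 4238) (.e (nat_lit 303143) (nat_lit 12) (.e (nat_lit 475185) (nat_lit 29) (.e (nat_lit 557107) (nat_lit 15) (.e (nat_lit 188449) (nat_lit 22) (.e (nat_lit 196683) (nat_lit 18) .nil))))) (.g (nat_lit 0) (.e (nat_lit 286803) (nat_lit 0) .nil) .nil))))))) (.nd (nat_lit 6) (.nd (nat_lit 7) (.nd (nat_lit 8) (.nd (nat_lit 9) 
(.lf (nat_lit 546878) (.g (nat_lit 1811) (.e (nat_lit 303112) (nat_lit 0) (.e (nat_lit 3252) (nat_lit 197) (.e (nat_lit 532559) (nat_lit 14) (.e (nat_lit 376869) (nat_lit 23) (.e (nat_lit 98349) (nat_lit 24) (.e (nat_lit 417536) (nat_lit 18) .nil)))))) (.g (nat_lit 1) (.e (nat_lit 284216) (nat_lit 0) .nil) .nil))) 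
(.lf (nat_lit 547390) (.g (nat_lit 898) (.e (nat_lit 303119) (nat_lit 3) (.e (nat_lit 204852) (nat_lit 26) (.e (nat_lit 336136) (nat_lit 9) .nil))) (.g (nat_lit 0) (.e (nat_lit 285042) (nat_lit 0) .nil) .nil)))) (.nd (nat_lit 9) 
(.lf (nat_lit 547134) (.g (nat_lit 3812) (.e (nat_lit 303117) (nat_lit 2) (.e (nat_lit 196673) (nat_lit 15) (.e (nat_lit 81956) (nat_lit 23) (.e (nat_lit 98325) (nat_lit 17) (.e (nat_lit 6986) (nat_lit 377) (.e (nat_lit 2810) (nat_lit 180) .nil)))))) (.g (nat_lit 1) (.e (nat_lit 284654) (nat_lit 0) .nil) .nil))) 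
(.lf (nat_lit 547646) (.g (nat_lit 2158) (.e (nat_lit 303132) (nat_lit 9) (.e (nat_lit 426470) (nat_lit 25) (.e (nat_lit 319491) (nat_lit 0) (.e (nat_lit 5664) (nat_lit 312) (.e (nat_lit 2852) (nat_lit 184) (.e (nat_lit 426477) (nat_lit 26) (.e (nat_lit 327700) (nat_lit 8) .nil))))))) (.g (nat_lit 1) (.e (nat_lit 286051) (nat_lit 0) .nil) .nil))))) (.nd (nat_lit 8) (.nd (nat_lit 9) 
(.lf (nat_lit 547006) (.g (nat_lit 3099) (.e (nat_lit 303117) (nat_lit 2) (.e (nat_lit 196666) (nat_lit 13) (.e (nat_lit 65596) (nat_lit 9) (.e (nat_lit 336013) (nat_lit 2) (.e (nat_lit 90165) (nat_lit 12) (.e (nat_lit 164208) (nat_lit 176) (.e (nat_lit 7936) (nat_lit 180) .nil))))))) (.g (nat_lit 1) (.e (nat_lit 284508) (nat_lit 0) .nil) .nil))) 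
(.lf (nat_lit 547518) (.g (nat_lit 3916) (.e (nat_lit 303119) (nat_lit 3) (.e (nat_lit 204869) (nat_lit 29) (.e (nat_lit 360475) (nat_lit 8) (.e (nat_lit 557068) (nat_lit 9) (.e (nat_lit 214) (nat_lit 19) (.e (nat_lit 327424) (nat_lit 8) .nil)))))) (.g (nat_lit 1) (.e (nat_lit 285345) (nat_lit 0) .nil) .nil)))) (.nd (nat_lit 9) 
(.lf (nat_lit 547262) (.g (nat_lit 2710) (.e (nat_lit 303118) (nat_lit 3) (.e (nat_lit 204868) (nat_lit 29) (.e (nat_lit 360475) (nat_lit 8) (.e (nat_lit 557067) (nat_lit 9) .nil)))) (.g (nat_lit 0) (.e (nat_lit 284848) (nat_lit 0) .nil) .nil))) 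
(.lf (nat_lit 547774) (.g (nat_lit 2258) (.e (nat_lit 303143) (nat_lit 12) (.e (nat_lit 475185) (nat_lit 29) (.e (nat_lit 557100) (nat_lit 13) (.e (nat_lit 172113) (nat_lit 10) (.e (nat_lit 434227) (nat_lit 20) (.e (nat_lit 515840) (nat_lit 18) .nil)))))) (.g (nat_lit 1) (.e (nat_lit 286762) (nat_lit 0) .nil) .nil)))))) (.nd (nat_lit 7) (.nd (nat_lit 8) (.nd (nat_lit 9) 
(.lf (nat_lit 546942) (.g (nat_lit 2378) (.e (nat_lit 303116) (nat_lit 2) (.e (nat_lit 196666) (nat_lit 13) (.e (nat_lit 65610) (nat_lit 10) (.e (nat_lit 344120) (nat_lit 21) (.e (nat_lit 516139) (nat_lit 7) .nil))))) (.g (nat_lit 0) (.e (nat_lit 284413) (nat_lit 0) .nil) .nil))) 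
(.lf (nat_lit 547454) (.g (nat_lit 3633) (.e (nat_lit 303119) (nat_lit 3) (.e (nat_lit 204866) (nat_lit 28) (.e (nat_lit 352315) (nat_lit 23) (.e (nat_lit 98350) (nat_lit 24) (.e (nat_lit 409647) (nat_lit 18) .nil))))) (.g (nat_lit 1) (.e (nat_lit 285167) (nat_lit 0) .nil) .nil)))) (.nd (nat_lit 9) 
(.lf (nat_lit 547198) (.g (nat_lit 2646) (.e (nat_lit 303118) (nat_lit 3) (.e (nat_lit 204846) (nat_lit 24) (.e (nat_lit 319529) (nat_lit 16) (.e (nat_lit 286735) (nat_lit 3) (.e (nat_lit 98350) (nat_lit 24) (.e (nat_lit 417536) (nat_lit 8) .nil)))))) (.g (nat_lit 1) (.e (nat_lit 284730) (nat_lit 0) .nil) .nil))) 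
(.lf (nat_lit 547710) (.g (nat_lit 462) (.e (nat_lit 303142) (nat_lit 12) (.e (nat_lit 475185) (nat_lit 29) (.e (nat_lit 557109) (nat_lit 15) .nil))) (.g (nat_lit 0) (.e (nat_lit 286634) (nat_lit 0) .nil) .nil))))) (.nd (nat_lit 8) (.nd (nat_lit 9) 
(.lf (nat_lit 547070) (.g (nat_lit 3163) (.e (nat_lit 303117) (nat_lit 2) (.e (nat_lit 196666) (nat_lit 13) (.e (nat_lit 65610) (nat_lit 10) (.e (nat_lit 344129) (nat_lit 26) (.e (nat_lit 557067) (nat_lit 9) (.e (nat_lit 20) (nat_lit 0) (.e (nat_lit 6083) (nat_lit 332) (.e (nat_lit 2809) (nat_lit 180) .nil)))))))) (.g (nat_lit 1) (.e (nat_lit 284578) (nat_lit 0) .nil) .nil))) 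
(.lf (nat_lit 547582) (.g (nat_lit 957) (.e (nat_lit 303124) (nat_lit 7) (.e (nat_lit 409648) (nat_lit 18) (.e (nat_lit 303137) (nat_lit 10) (.e (nat_lit 434266) (nat_lit 35) .nil)))) (.g (nat_lit 0) (.e (nat_lit 285537) (nat_lit 0) .nil) .nil)))) (.nd (nat_lit 9) 
(.lf (nat_lit 547326) (.g (nat_lit 3259) (.e (nat_lit 303119) (nat_lit 3) (.e (nat_lit 204846) (nat_lit 24) (.e (nat_lit 319490) (nat_lit 0) (.e (nat_lit 5293) (nat_lit 298) (.e (nat_lit 1250) (nat_lit 92) (.e (nat_lit 98350) (nat_lit 24) (.e (nat_lit 417536) (nat_lit 18) .nil))))))) (.g (nat_lit 1) (.e (nat_lit 284946) (nat_lit 0) .nil) .nil))) 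
(.lf (nat_lit 547838) (.g (nat_lit 1647) (.e (nat_lit 303143) (nat_lit 12) (.e (nat_lit 475212) (nat_lit 42) (.e (nat_lit 720952) (nat_lit 24) (.e (nat_lit 106536) (nat_lit 11) (.e (nat_lit 16425) (nat_lit 7) .nil))))) (.g (nat_lit 0) (.e (nat_lit 286951) (nat_lit 0) .nil) .nil)))))))))))) 
(.nd (nat_lit 1) (.nd (nat_lit 2) (.nd (nat_lit 3) (.nd (nat_lit 4) (.nd (nat_lit 5) 
(.nd (nat_lit 6) (.nd (nat_lit 7) (.nd (nat_lit 8) (.nd (nat_lit 9) 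
(.lf (nat_lit 546817) (.g (nat_lit 968) (.e (nat_lit 303106) (nat_lit 0) (.e (nat_lit 3114) (nat_lit 193) (.e (nat_lit 500074) (nat_lit 20) (.e (nat_lit 81962) (nat_lit 25) (.e (nat_lit 139289) (nat_lit 9) (.e (nat_lit 2829) (nat_lit 182) (.e (nat_lit 417536) (nat_lit 18) .nil))))))) (.g (nat_lit 1) (.e (nat_lit 284113) (nat_lit 0) .nil) .nil))) 
(.lf (nat_lit 547329) (.g (nat_lit 1148) (.e (nat_lit 303119) (nat_lit 3) (.e (nat_lit 204846) (nat_lit 24) (.e (nat_lit 327424) (nat_lit 6) (.e (nat_lit 286733) (nat_lit 2) (.e (nat_lit 90165) (nat_lit 12) .nil))))) (.g (nat_lit 0) (.e (nat_lit 284950) (nat_lit 0) .nil) .nil)))) (.nd (nat_lit 9) 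
(.lf (nat_lit 547073) (.g (nat_lit 2293) (.e (nat_lit 303117) (nat_lit 2) (.e (nat_lit 196666) (nat_lit 13) (.e (nat_lit 65610) (nat_lit 10) (.e (nat_lit 344129) (nat_lit 26) (.e (nat_lit 557084) (nat_lit 10) .nil))))) (.g (nat_lit 0) (.e (nat_lit 284581) (nat_lit 0) .nil) .nil))) 
(.lf (nat_lit 547585) (.g (nat_lit 1561) (.e (nat_lit 303124) (nat_lit 7) (.e (nat_lit 409649) (nat_lit 18) (.e (nat_lit 303140) (nat_lit 10) (.e (nat_lit 434265) (nat_lit 35) .nil)))) (.g (nat_lit 0) (.e (nat_lit 285546) (nat_lit 0) .nil) .nil))))) (.nd (nat_lit 8) (.nd (nat_lit 9) 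
(.lf (nat_lit 546945) (.g (nat_lit 1348) (.e (nat_lit 303116) (nat_lit 2) (.e (nat_lit 196666) (nat_lit 13) (.e (nat_lit 65617) (nat_lit 10) (.e (nat_lit 344117) (nat_lit 21) .nil)))) (.g (nat_lit 0) (.e (nat_lit 284416) (nat_lit 0) .nil) .nil))) 
(.lf (nat_lit 547457) (.g (nat_lit 3127) (.e (nat_lit 303119) (nat_lit 3) (.e (nat_lit 204867) (nat_lit 28) (.e (nat_lit 352315) (nat_lit 23) (.e (nat_lit 98323) (nat_lit 17) (.e (nat_lit 6989) (nat_lit 377) (.e (nat_lit 2810) (nat_lit 180) .nil)))))) (.g (nat_lit 1) (.e (nat_lit 285174) (nat_lit 0) .nil) .nil)))) (.nd (nat_lit 9) 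
(.lf (nat_lit 547201) (.g (nat_lit 839) (.e (nat_lit 303118) (nat_lit 3) (.e (nat_lit 204852) (nat_lit 26) (.e (nat_lit 336146) (nat_lit 9) .nil))) (.g (nat_lit 0) (.e (nat_lit 284733) (nat_lit 0) .nil) .nil))) 
(.lf (nat_lit 547713) (.g (nat_lit 1828) (.e (nat_lit 303142) (nat_lit 12) (.e (nat_lit 475210) (nat_lit 41) (.e (nat_lit 712755) (nat_lit 30) (.e (nat_lit 450597) (nat_lit 17) (.e (nat_lit 663589) (nat_lit 14) (.e (nat_lit 2807) (nat_lit 180) .nil)))))) (.g (nat_lit 1) (.e (nat_lit 286647) (nat_lit 0) .nil) .nil)))))) (.nd (nat_lit 7) (.nd (nat_lit 8) (.nd (nat_lit 9) 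
(.lf (nat_lit 546881) (.g (nat_lit 2478) (.e (nat_lit 303112) (nat_lit 0) (.e (nat_lit 3252) (nat_lit 197) (.e (nat_lit 532560) (nat_lit 14) (.e (nat_lit 376869) (nat_lit 23) (.e (nat_lit 98349) (nat_lit 24) (.e (nat_lit 417536) (nat_lit 18) .nil)))))) (.g (nat_lit 1) (.e (nat_lit 284220) (nat_lit 0) .nil) .nil))) 
(.lf (nat_lit 547393) (.g (nat_lit 898) (.e (nat_lit 303119) (nat_lit 3) (.e (nat_lit 204852) (nat_lit 26) (.e (nat_lit 336141) (nat_lit 9) .nil))) (.g (nat_lit 0) (.e (nat_lit 285046) (nat_lit 0) .nil) .nil)))) (.nd (nat_lit 9) 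
(.lf (nat_lit 547137) (.g (nat_lit 2322) (.e (nat_lit 303117) (nat_lit 2) (.e (nat_lit 196673) (nat_lit 15) (.e (nat_lit 81956) (nat_lit 23) (.e (nat_lit 98349) (nat_lit 24) (.e (nat_lit 409643) (nat_lit 18) .nil))))) (.g (nat_lit 0) (.e (nat_lit 284657) (nat_lit 0) .nil) .nil))) 
(.lf (nat_lit 547649) (.g (nat_lit 520) (.e (nat_lit 303135) (nat_lit 10) (.e (nat_lit 434275) (nat_lit 39) (.e (nat_lit 663584) (nat_lit 12) .nil))) (.g (nat_lit 0) (.e (nat_lit 286085) (nat_lit 0) .nil) .nil))))) (.nd (nat_lit 8) (.nd (nat_lit 9) 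
(.lf (nat_lit 547009) (.g (nat_lit 3326) (.e (nat_lit 303117) (nat_lit 2) (.e (nat_lit 196666) (nat_lit 13) (.e (nat_lit 65599) (nat_lit 9) (.e (nat_lit 336013) (nat_lit 2) (.e (nat_lit 90165) (nat_lit 12) (.e (nat_lit 164207) (nat_lit 176) (.e (nat_lit 2804) (nat_lit 180) .nil))))))) (.g (nat_lit 1) (.e (nat_lit 284514) (nat_lit 0) .nil) .nil))) 
(.lf (nat_lit 547521) (.g (nat_lit 3603) (.e (nat_lit 303119) (nat_lit 3) (.e (nat_lit 204869) (nat_lit 29) (.e (nat_lit 360475) (nat_lit 8) (.e (nat_lit 557072) (nat_lit 9) .nil)))) (.g (nat_lit 0) (.e (nat_lit 285352) (nat_lit 0) .nil) .nil)))) (.nd (nat_lit 9) 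
(.lf (nat_lit 547265) (.g (nat_lit 1279) (.e (nat_lit 303118) (nat_lit 3) (.e (nat_lit 204869) (nat_lit 29) (.e (nat_lit 360464) (nat_lit 2) (.e (nat_lit 507920) (nat_lit 5) .nil)))) (.g (nat_lit 0) (.e (nat_lit 284855) (nat_lit 0) .nil) .nil))) 
(.lf (nat_lit 547777) (.g (nat_lit 3194) (.e (nat_lit 303143) (nat_lit 12) (.e (nat_lit 475185) (nat_lit 29) (.e (nat_lit 557100) (nat_lit 13) (.e (nat_lit 172126) (nat_lit 14) (.e (nat_lit 491537) (nat_lit 2) .nil))))) (.g (nat_lit 0) (.e (nat_lit 286768) (nat_lit 0) .nil) .nil))))))) (.nd (nat_lit 6) (.nd (nat_lit 7) (.nd (nat_lit 8) (.nd (nat_lit 9) 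
(.lf (nat_lit 546849) (.g (nat_lit 2607) (.e (nat_lit 303109) (nat_lit 0) (.e (nat_lit 3238) (nat_lit 197) (.e (nat_lit 532535) (nat_lit 9) (.e (nat_lit 336110) (nat_lit 9) .nil)))) (.g (nat_lit 0) (.e (nat_lit 284169) (nat_lit 0) .nil) .nil))) 
(.lf (nat_lit 547361) (.g (nat_lit 1099) (.e (nat_lit 303119) (nat_lit 3) (.e (nat_lit 204846) (nat_lit 24) (.e (nat_lit 319533) (nat_lit 16) (.e (nat_lit 286735) (nat_lit 3) .nil)))) (.g (nat_lit 0) (.e (nat_lit 285008) (nat_lit 0) .nil) .nil)))) (.nd (nat_lit 9) 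
(.lf (nat_lit 547105) (.g (nat_lit 1669) (.e (nat_lit 303117) (nat_lit 2) (.e (nat_lit 196672) (nat_lit 15) (.e (nat_lit 81953) (nat_lit 22) (.e (nat_lit 90165) (nat_lit 12) (.e (nat_lit 164207) (nat_lit 176) .nil))))) (.g (nat_lit 0) (.e (nat_lit 284621) (nat_lit 0) .nil) .nil))) 
(.lf (nat_lit 547617) (.g (nat_lit 2421) (.e (nat_lit 303133) (nat_lit 9) (.e (nat_lit 426412) (nat_lit 15) (.e (nat_lit 1856) (nat_lit 124) (.e (nat_lit 557109) (nat_lit 15) (.e (nat_lit 188458) (nat_lit 25) .nil))))) (.g (nat_lit 0) (.e (nat_lit 285804) (nat_lit 0) .nil) .nil))))) (.nd (nat_lit 8) (.nd (nat_lit 9) 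
(.lf (nat_lit 546977) (.g (nat_lit 558) (.e (nat_lit 303116) (nat_lit 2) (.e (nat_lit 196674) (nat_lit 15) (.e (nat_lit 81960) (nat_lit 25) .nil))) (.g (nat_lit 0) (.e (nat_lit 284451) (nat_lit 0) .nil) .nil))) 
(.lf (nat_lit 547489) (.g (nat_lit 220) (.e (nat_lit 303119) (nat_lit 3) (.e (nat_lit 204869) (nat_lit 29) (.e (nat_lit 360450) (nat_lit 0) .nil))) (.g (nat_lit 0) (.e (nat_lit 285214) (nat_lit 0) .nil) .nil)))) (.nd (nat_lit 9) 
(.lf (nat_lit 547233) (.g (nat_lit 685) (.e (nat_lit 303118) (nat_lit 3) (.e (nat_lit 204863) (nat_lit 27) (.e (nat_lit 344068) (nat_lit 0) .nil))) (.g (nat_lit 0) (.e (nat_lit 284798) (nat_lit 0) .nil) .nil))) 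
(.lf (nat_lit 547745) (.g (nat_lit 2530) (.e (nat_lit 303143) (nat_lit 12) (.e (nat_lit 475185) (nat_lit 29) (.e (nat_lit 557100) (nat_lit 13) (.e (nat_lit 172101) (nat_lit 9) .nil)))) (.g (nat_lit 0) (.e (nat_lit 286728) (nat_lit 0) .nil) .nil)))))) (.nd (nat_lit 7) (.nd (nat_lit 8) (.nd (nat_lit 9) 
(.lf (nat_lit 546913) (.g (nat_lit 2009) (.e (nat_lit 303111) (nat_lit 0) (.e (nat_lit 3469) (nat_lit 217) (.e (nat_lit 696344) (nat_lit 8) (.e (nat_lit 172123) (nat_lit 13) (.e (nat_lit 483374) (nat_lit 22) .nil))))) (.g (nat_lit 0) (.e (nat_lit 284316) (nat_lit 0) .nil) .nil))) 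
(.lf (nat_lit 547425) (.g (nat_lit 3827) (.e (nat_lit 303119) (nat_lit 3) (.e (nat_lit 204855) (nat_lit 26) (.e (nat_lit 336178) (nat_lit 10) (.e (nat_lit 344117) (nat_lit 21) (.e (nat_lit 516106) (nat_lit 0) (.e (nat_lit 7936) (nat_lit 377) (.e (nat_lit 2797) (nat_lit 180) .nil))))))) (.g (nat_lit 1) (.e (nat_lit 285100) (nat_lit 0) .nil) .nil)))) (.nd (nat_lit 9) 
(.lf (nat_lit 547169) (.g (nat_lit 4765) (.e (nat_lit 303117) (nat_lit 2) (.e (nat_lit 196674) (nat_lit 15) (.e (nat_lit 81956) (nat_lit 23) (.e (nat_lit 98350) (nat_lit 24) (.e (nat_lit 409649) (nat_lit 18) .nil))))) (.g (nat_lit 1) (.e (nat_lit 284692) (nat_lit 0) .nil) .nil))) 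
(.lf (nat_lit 547681) (.g (nat_lit 2341) (.e (nat_lit 303139) (nat_lit 10) (.e (nat_lit 434231) (nat_lit 23) (.e (nat_lit 532569) (nat_lit 16) (.e (nat_lit 401448) (nat_lit 10) (.e (nat_lit 434226) (nat_lit 20) .nil))))) (.g (nat_lit 0) (.e (nat_lit 286401) (nat_lit 0) .nil) .nil))))) (.nd (nat_lit 8) (.nd (nat_lit 9) 
(.lf (nat_lit 547041) (.g (nat_lit 3853) (.e (nat_lit 303117) (nat_lit 2) (.e (nat_lit 196666) (nat_lit 13) (.e (nat_lit 65610) (nat_lit 10) (.e (nat_lit 344117) (nat_lit 21) (.e (nat_lit 516106) (nat_lit 0) (.e (nat_lit 6966) (nat_lit 377) (.e (nat_lit 2803) (nat_lit 180) .nil))))))) (.g (nat_lit 1) (.e (nat_lit 284548) (nat_lit 0) .nil) .nil))) 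
(.lf (nat_lit 547553) (.g (nat_lit 2523) (.e (nat_lit 303119) (nat_lit 3) (.e (nat_lit 204885) (nat_lit 33) (.e (nat_lit 401434) (nat_lit 9) (.e (nat_lit 426140) (nat_lit 3) (.e (nat_lit 204821) (nat_lit 17) (.e (nat_lit 6092) (nat_lit 332) (.e (nat_lit 1376) (nat_lit 104) .nil))))))) (.g (nat_lit 1) (.e (nat_lit 285398) (nat_lit 0) .nil) .nil)))) (.nd (nat_lit 9) 
(.lf (nat_lit 547297) (.g (nat_lit 1811) (.e (nat_lit 303118) (nat_lit 3) (.e (nat_lit 204877) (nat_lit 31) (.e (nat_lit 376864) (nat_lit 22) (.e (nat_lit 90130) (nat_lit 9) (.e (nat_lit 2830) (nat_lit 182) (.e (nat_lit 417536) (nat_lit 18) .nil)))))) (.g (nat_lit 1) (.e (nat_lit 284890) (nat_lit 0) .nil) .nil))) 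
(.lf (nat_lit 547809) (.g (nat_lit 4407) (.e (nat_lit 303143) (nat_lit 12) (.e (nat_lit 475185) (nat_lit 29) (.e (nat_lit 557108) (nat_lit 15) (.e (nat_lit 188433) (nat_lit 20) (.e (nat_lit 3114) (nat_lit 193) .nil))))) (.g (nat_lit 0) (.e (nat_lit 286806) (nat_lit 0) .nil) .nil)))))))) (.nd (nat_lit 5) (.nd (nat_lit 6) (.nd (nat_lit 7) (.nd (nat_lit 8) (.nd (nat_lit 9) 
(.lf (nat_lit 546833) (.g (nat_lit 1285) (.e (nat_lit 303107) (nat_lit 0) (.e (nat_lit 3238) (nat_lit 197) (.e (nat_lit 532560) (nat_lit 14) (.e (nat_lit 376869) (nat_lit 23) .nil)))) (.g (nat_lit 0) (.e (nat_lit 284139) (nat_lit 0) .nil) .nil))) 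
(.lf (nat_lit 547345) (.g (nat_lit 2890) (.e (nat_lit 303119) (nat_lit 3) (.e (nat_lit 204846) (nat_lit 24) (.e (nat_lit 319529) (nat_lit 16) (.e (nat_lit 286735) (nat_lit 3) (.e (nat_lit 98350) (nat_lit 24) (.e (nat_lit 417536) (nat_lit 8) .nil)))))) (.g (nat_lit 1) (.e (nat_lit 284990) (nat_lit 0) .nil) .nil)))) (.nd (nat_lit 9) 
(.lf (nat_lit 547089) (.g (nat_lit 502) (.e (nat_lit 303117) (nat_lit 2) (.e (nat_lit 196668) (nat_lit 14) (.e (nat_lit 81664) (nat_lit 43) .nil))) (.g (nat_lit 0) (.e (nat_lit 284600) (nat_lit 0) .nil) .nil))) 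
(.lf (nat_lit 547601) (.g (nat_lit 1819) (.e (nat_lit 303131) (nat_lit 9) (.e (nat_lit 426109) (nat_lit 1) (.e (nat_lit 164319) (nat_lit 228) (.e (nat_lit 57412) (nat_lit 12) (.e (nat_lit 336061) (nat_lit 7) (.e (nat_lit 319527) (nat_lit 15) (.e (nat_lit 278547) (nat_lit 8) .nil))))))) (.g (nat_lit 1) (.e (nat_lit 285666) (nat_lit 0) .nil) .nil))))) (.nd (nat_lit 8) (.nd (nat_lit 9) 
(.lf (nat_lit 546961) (.g (nat_lit 2335) (.e (nat_lit 303116) (nat_lit 2) (.e (nat_lit 196672) (nat_lit 15) (.e (nat_lit 81953) (nat_lit 22) (.e (nat_lit 90130) (nat_lit 9) .nil)))) (.g (nat_lit 0) (.e (nat_lit 284435) (nat_lit 0) .nil) .nil))) 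
(.lf (nat_lit 547473) (.g (nat_lit 1588) (.e (nat_lit 303119) (nat_lit 3) (.e (nat_lit 204868) (nat_lit 29) (.e (nat_lit 360466) (nat_lit 3) (.e (nat_lit 516141) (nat_lit 8) .nil)))) (.g (nat_lit 0) (.e (nat_lit 285194) (nat_lit 0) .nil) .nil)))) (.nd (nat_lit 9) 
(.lf (nat_lit 547217) (.g (nat_lit 679) (.e (nat_lit 303118) (nat_lit 3) (.e (nat_lit 204855) (nat_lit 26) (.e (nat_lit 336102) (nat_lit 9) .nil))) (.g (nat_lit 0) (.e (nat_lit 284769) (nat_lit 0) .nil) .nil))) 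
(.lf (nat_lit 547729) (.g (nat_lit 2789) (.e (nat_lit 303142) (nat_lit 12) (.e (nat_lit 475219) (nat_lit 44) (.e (nat_lit 737318) (nat_lit 15) (.e (nat_lit 49189) (nat_lit 11) (.e (nat_lit 16425) (nat_lit 7) (.e (nat_lit 409648) (nat_lit 18) .nil)))))) (.g (nat_lit 1) (.e (nat_lit 286666) (nat_lit 0) .nil) .nil)))))) (.nd (nat_lit 7) (.nd (nat_lit 8) (.nd (nat_lit 9) 
(.lf (nat_lit 546897) (.g (nat_lit 4012) (.e (nat_lit 303111) (nat_lit 0) (.e (nat_lit 3238) (nat_lit 197) (.e (nat_lit 532535) (nat_lit 9) (.e (nat_lit 336173) (nat_lit 10) (.e (nat_lit 344120) (nat_lit 21) .nil))))) (.g (nat_lit 0) (.e (nat_lit 284276) (nat_lit 0) .nil) .nil))) 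
(.lf (nat_lit 547409) (.g (nat_lit 3911) (.e (nat_lit 303119) (nat_lit 3) (.e (nat_lit 204855) (nat_lit 26) (.e (nat_lit 336099) (nat_lit 9) (.e (nat_lit 336013) (nat_lit 2) (.e (nat_lit 90161) (nat_lit 12) (.e (nat_lit 164209) (nat_lit 176) (.e (nat_lit 2797) (nat_lit 180) .nil))))))) (.g (nat_lit 1) (.e (nat_lit 285078) (nat_lit 0) .nil) .nil)))) (.nd (nat_lit 9) 
(.lf (nat_lit 547153) (.g (nat_lit 3586) (.e (nat_lit 303117) (nat_lit 2) (.e (nat_lit 196674) (nat_lit 15) (.e (nat_lit 81953) (nat_lit 22) (.e (nat_lit 90164) (nat_lit 12) .nil)))) (.g (nat_lit 0) (.e (nat_lit 284676) (nat_lit 0) .nil) .nil))) 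
(.lf (nat_lit 547665) (.g (nat_lit 1586) (.e (nat_lit 303137) (nat_lit 10) (.e (nat_lit 434268) (nat_lit 36) (.e (nat_lit 639020) (nat_lit 16) (.e (nat_lit 65586) (nat_lit 7) (.e (nat_lit 319527) (nat_lit 15) .nil))))) (.g (nat_lit 0) (.e (nat_lit 286274) (nat_lit 0) .nil) .nil))))) (.nd (nat_lit 8) (.nd (nat_lit 9) 
(.lf (nat_lit 547025) (.g (nat_lit 3718) (.e (nat_lit 303117) (nat_lit 2) (.e (nat_lit 196666) (nat_lit 13) (.e (nat_lit 65610) (nat_lit 10) (.e (nat_lit 344117) (nat_lit 21) (.e (nat_lit 516097) (nat_lit 0) (.e (nat_lit 7936) (nat_lit 377) (.e (nat_lit 2797) (nat_lit 180) .nil))))))) (.g (nat_lit 1) (.e (nat_lit 284532) (nat_lit 0) .nil) .nil))) 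
(.lf (nat_lit 547537) (.g (nat_lit 2459) (.e (nat_lit 303119) (nat_lit 3) (.e (nat_lit 204870) (nat_lit 29) (.e (nat_lit 360467) (nat_lit 3) (.e (nat_lit 516139) (nat_lit 7) (.e (nat_lit 417536) (nat_lit 18) .nil))))) (.g (nat_lit 1) (.e (nat_lit 285376) (nat_lit 0) .nil) .nil)))) (.nd (nat_lit 9) 
(.lf (nat_lit 547281) (.g (nat_lit 553) (.e (nat_lit 303118) (nat_lit 3) (.e (nat_lit 204869) (nat_lit 29) (.e (nat_lit 368384) (nat_lit 3) .nil))) (.g (nat_lit 0) (.e (nat_lit 284871) (nat_lit 0) .nil) .nil))) 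
(.lf (nat_lit 547793) (.g (nat_lit 1917) (.e (nat_lit 303143) (nat_lit 12) (.e (nat_lit 475185) (nat_lit 29) (.e (nat_lit 557101) (nat_lit 13) (.e (nat_lit 172116) (nat_lit 10) .nil)))) (.g (nat_lit 0) (.e (nat_lit 286784) (nat_lit 0) .nil) .nil))))))) (.nd (nat_lit 6) (.nd (nat_lit 7) (.nd (nat_lit 8) (.nd (nat_lit 9) 
(.lf (nat_lit 546865) (.g (nat_lit 1095) (.e (nat_lit 303112) (nat_lit 0) (.e (nat_lit 3251) (nat_lit 197) (.e (nat_lit 532534) (nat_lit 9) (.e (nat_lit 336115) (nat_lit 9) .nil)))) (.g (nat_lit 0) (.e (nat_lit 284191) (nat_lit 0) .nil) .nil))) 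
(.lf (nat_lit 547377) (.g (nat_lit 5211) (.e (nat_lit 303119) (nat_lit 3) (.e (nat_lit 204849) (nat_lit 25) (.e (nat_lit 327699) (nat_lit 8) (.e (nat_lit 303119) (nat_lit 3) (.e (nat_lit 204819) (nat_lit 17) (.e (nat_lit 6113) (nat_lit 332) (.e (nat_lit 2810) (nat_lit 180) .nil))))))) (.g (nat_lit 1) (.e (nat_lit 285025) (nat_lit 0) .nil) .nil)))) (.nd (nat_lit 9) 
(.lf (nat_lit 547121) (.g (nat_lit 2847) (.e (nat_lit 303117) (nat_lit 2) (.e (nat_lit 196672) (nat_lit 15) (.e (nat_lit 81956) (nat_lit 23) (.e (nat_lit 98350) (nat_lit 24) (.e (nat_lit 417536) (nat_lit 18) .nil))))) (.g (nat_lit 0) (.e (nat_lit 284637) (nat_lit 0) .nil) .nil))) 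
(.lf (nat_lit 547633) (.g (nat_lit 4120) (.e (nat_lit 303133) (nat_lit 9) (.e (nat_lit 426499) (nat_lit 27) (.e (nat_lit 336073) (nat_lit 9) (.e (nat_lit 336032) (nat_lit 4) (.e (nat_lit 123195) (nat_lit 266) (.e (nat_lit 57346) (nat_lit 0) (.e (nat_lit 6203) (nat_lit 332) (.e (nat_lit 2798) (nat_lit 180) .nil)))))))) (.g (nat_lit 1) (.e (nat_lit 285877) (nat_lit 0) .nil) .nil))))) 
(.nd (nat_lit 8) (.nd (nat_lit 9) 
(.lf (nat_lit 546993) (.g (nat_lit 1833) (.e (nat_lit 303117) (nat_lit 2) (.e (nat_lit 196665) (nat_lit 13) (.e (nat_lit 65604) (nat_lit 9) (.e (nat_lit 336013) (nat_lit 2) (.e (nat_lit 90165) (nat_lit 12) .nil))))) (.g (nat_lit 0) (.e (nat_lit 284488) (nat_lit 0) .nil) .nil))) 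
(.lf (nat_lit 547505) (.g (nat_lit 2147) (.e (nat_lit 303119) (nat_lit 3) (.e (nat_lit 204869) (nat_lit 29) (.e (nat_lit 360474) (nat_lit 8) (.e (nat_lit 557070) (nat_lit 9) .nil)))) (.g (nat_lit 0) (.e (nat_lit 285293) (nat_lit 0) .nil) .nil)))) (.nd (nat_lit 9) 
(.lf (nat_lit 547249) (.g (nat_lit 1427) (.e (nat_lit 303118) (nat_lit 3) (.e (nat_lit 204868) (nat_lit 29) (.e (nat_lit 360466) (nat_lit 3) (.e (nat_lit 516105) (nat_lit 0) .nil)))) (.g (nat_lit 0) (.e (nat_lit 284835) (nat_lit 0) .nil) .nil))) 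
(.lf (nat_lit 547761) (.g (nat_lit 3182) (.e (nat_lit 303143) (nat_lit 12) (.e (nat_lit 475185) (nat_lit 29) (.e (nat_lit 557100) (nat_lit 13) (.e (nat_lit 172106) (nat_lit 10) (.e (nat_lit 434227) (nat_lit 20) (.e (nat_lit 507945) (nat_lit 18) .nil)))))) (.g (nat_lit 1) (.e (nat_lit 286747) (nat_lit 0) .nil) .nil)))))) (.nd (nat_lit 7) (.nd (nat_lit 8) (.nd (nat_lit 9) 
(.lf (nat_lit 546929) (.g (nat_lit 3761) (.e (nat_lit 303116) (nat_lit 2) (.e (nat_lit 196666) (nat_lit 13) (.e (nat_lit 65610) (nat_lit 10) (.e (nat_lit 344117) (nat_lit 21) (.e (nat_lit 516102) (nat_lit 0) (.e (nat_lit 6989) (nat_lit 377) (.e (nat_lit 2810) (nat_lit 180) .nil))))))) (.g (nat_lit 1) (.e (nat_lit 284400) (nat_lit 0) .nil) .nil))) 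
(.lf (nat_lit 547441) (.g (nat_lit 662) (.e (nat_lit 303119) (nat_lit 3) (.e (nat_lit 204863) (nat_lit 27) (.e (nat_lit 344068) (nat_lit 0) .nil))) (.g (nat_lit 0) (.e (nat_lit 285128) (nat_lit 0) .nil) .nil)))) (.nd (nat_lit 9) 
(.lf (nat_lit 547185) (.g (nat_lit 2556) (.e (nat_lit 311040) (nat_lit 2) (.e (nat_lit 196672) (nat_lit 15) (.e (nat_lit 81956) (nat_lit 23) (.e (nat_lit 98350) (nat_lit 24) (.e (nat_lit 409649) (nat_lit 18) .nil))))) (.g (nat_lit 0) (.e (nat_lit 284709) (nat_lit 0) .nil) .nil))) 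
(.lf (nat_lit 547697) (.g (nat_lit 1454) (.e (nat_lit 303140) (nat_lit 10) (.e (nat_lit 434241) (nat_lit 27) (.e (nat_lit 565269) (nat_lit 6) (.e (nat_lit 81935) (nat_lit 20) (.e (nat_lit 2381) (nat_lit 155) .nil))))) (.g (nat_lit 0) (.e (nat_lit 286558) (nat_lit 0) .nil) .nil))))) (.nd (nat_lit 8) (.nd (nat_lit 9) 
(.lf (nat_lit 547057) (.g (nat_lit 3608) (.e (nat_lit 303117) (nat_lit 2) (.e (nat_lit 196666) (nat_lit 13) (.e (nat_lit 65610) (nat_lit 10) (.e (nat_lit 344117) (nat_lit 21) (.e (nat_lit 516106) (nat_lit 0) (.e (nat_lit 7016) (nat_lit 377) (.e (nat_lit 2807) (nat_lit 180) .nil))))))) (.g (nat_lit 1) (.e (nat_lit 284564) (nat_lit 0) .nil) .nil))) 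
(.lf (nat_lit 547569) (.g (nat_lit 580) (.e (nat_lit 311040) (nat_lit 3) (.e (nat_lit 204868) (nat_lit 29) (.e (nat_lit 360468) (nat_lit 3) .nil))) (.g (nat_lit 0) (.e (nat_lit 285417) (nat_lit 0) .nil) .nil)))) (.nd (nat_lit 9) 
(.lf (nat_lit 547313) (.g (nat_lit 264) (.e (nat_lit 303119) (nat_lit 3) (.e (nat_lit 204819) (nat_lit 17) (.e (nat_lit 7936) (nat_lit 347) .nil))) (.g (nat_lit 0) (.e (nat_lit 284915) (nat_lit 0) .nil) .nil))) 
(.lf (nat_lit 547825) (.g (nat_lit 1316) (.e (nat_lit 303143) (nat_lit 12) (.e (nat_lit 475185) (nat_lit 29) (.e (nat_lit 557109) (nat_lit 15) (.e (nat_lit 188458) (nat_lit 25) .nil)))) (.g (nat_lit 0) (.e (nat_lit 286823) (nat_lit 0) .nil) .nil))))))))) (.nd (nat_lit 4) (.nd (nat_lit 5) (.nd (nat_lit 6) (.nd (nat_lit 7) (.nd (nat_lit 8) (.nd (nat_lit 9) 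
(.lf (nat_lit 546825) (.g (nat_lit 2664) (.e (nat_lit 303107) (nat_lit 0) (.e (nat_lit 3238) (nat_lit 197) (.e (nat_lit 532535) (nat_lit 9) (.e (nat_lit 336099) (nat_lit 9) .nil)))) (.g (nat_lit 0) (.e (nat_lit 284130) (nat_lit 0) .nil) .nil))) 
(.lf (nat_lit 547337) (.g (nat_lit 1767) (.e (nat_lit 303119) (nat_lit 3) (.e (nat_lit 204846) (nat_lit 24) (.e (nat_lit 319538) (nat_lit 19) (.e (nat_lit 311314) (nat_lit 3) .nil)))) (.g (nat_lit 0) (.e (nat_lit 284977) (nat_lit 0) .nil) .nil)))) (.nd (nat_lit 9) 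
(.lf (nat_lit 547081) (.g (nat_lit 3774) (.e (nat_lit 303117) (nat_lit 2) (.e (nat_lit 196666) (nat_lit 13) (.e (nat_lit 65619) (nat_lit 10) (.e (nat_lit 344117) (nat_lit 21) (.e (nat_lit 516106) (nat_lit 0) (.e (nat_lit 6986) (nat_lit 377) (.e (nat_lit 7936) (nat_lit 180) .nil))))))) (.g (nat_lit 1) (.e (nat_lit 284589) (nat_lit 0) .nil) .nil))) 
(.lf (nat_lit 547593) (.g (nat_lit 1184) (.e (nat_lit 303127) (nat_lit 9) (.e (nat_lit 426542) (nat_lit 29) (.e (nat_lit 352316) (nat_lit 24) (.e (nat_lit 123198) (nat_lit 266) .nil)))) (.g (nat_lit 0) (.e (nat_lit 285607) (nat_lit 0) .nil) .nil))))) (.nd (nat_lit 8) (.nd (nat_lit 9) 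
(.lf (nat_lit 546953) (.g (nat_lit 1534) (.e (nat_lit 303116) (nat_lit 2) (.e (nat_lit 196666) (nat_lit 13) (.e (nat_lit 65619) (nat_lit 10) (.e (nat_lit 344119) (nat_lit 21) .nil)))) (.g (nat_lit 0) (.e (nat_lit 284424) (nat_lit 0) .nil) .nil))) 
(.lf (nat_lit 547465) (.g (nat_lit 2054) (.e (nat_lit 303119) (nat_lit 3) (.e (nat_lit 204868) (nat_lit 29) (.e (nat_lit 360466) (nat_lit 3) (.e (nat_lit 516110) (nat_lit 0) .nil)))) (.g (nat_lit 0) (.e (nat_lit 285186) (nat_lit 0) .nil) .nil)))) (.nd (nat_lit 9) 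
(.lf (nat_lit 547209) (.g (nat_lit 792) (.e (nat_lit 303118) (nat_lit 3) (.e (nat_lit 204855) (nat_lit 26) (.e (nat_lit 336097) (nat_lit 9) .nil))) (.g (nat_lit 0) (.e (nat_lit 284742) (nat_lit 0) .nil) .nil))) 
(.lf (nat_lit 547721) (.g (nat_lit 2748) (.e (nat_lit 303142) (nat_lit 12) (.e (nat_lit 475211) (nat_lit 41) (.e (nat_lit 712755) (nat_lit 30) (.e (nat_lit 450597) (nat_lit 17) (.e (nat_lit 663589) (nat_lit 14) (.e (nat_lit 2807) (nat_lit 180) .nil)))))) (.g (nat_lit 1) (.e (nat_lit 286657) (nat_lit 0) .nil) .nil)))))) (.nd (nat_lit 7) (.nd (nat_lit 8) (.nd (nat_lit 9) 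
(.lf (nat_lit 546889) (.g (nat_lit 2359) (.e (nat_lit 303111) (nat_lit 0) (.e (nat_lit 3238) (nat_lit 197) (.e (nat_lit 532535) (nat_lit 9) (.e (nat_lit 336073) (nat_lit 9) .nil)))) (.g (nat_lit 0) (.e (nat_lit 284246) (nat_lit 0) .nil) .nil))) 
(.lf (nat_lit 547401) (.g (nat_lit 1878) (.e (nat_lit 303119) (nat_lit 3) (.e (nat_lit 204855) (nat_lit 26) (.e (nat_lit 336080) (nat_lit 9) (.e (nat_lit 336019) (nat_lit 3) (.e (nat_lit 98350) (nat_lit 24) .nil))))) (.g (nat_lit 0) (.e (nat_lit 285059) (nat_lit 0) .nil) .nil)))) (.nd (nat_lit 9) 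
(.lf (nat_lit 547145) (.g (nat_lit 498) (.e (nat_lit 303117) (nat_lit 2) (.e (nat_lit 196674) (nat_lit 15) (.e (nat_lit 81947) (nat_lit 20) .nil))) (.g (nat_lit 0) (.e (nat_lit 284665) (nat_lit 0) .nil) .nil))) 
(.lf (nat_lit 547657) (.g (nat_lit 1357) (.e (nat_lit 303137) (nat_lit 10) (.e (nat_lit 434241) (nat_lit 27) (.e (nat_lit 565269) (nat_lit 6) (.e (nat_lit 81935) (nat_lit 20) (.e (nat_lit 2381) (nat_lit 155) .nil))))) (.g (nat_lit 0) (.e (nat_lit 286266) (nat_lit 0) .nil) .nil))))) (.nd (nat_lit 8) (.nd (nat_lit 9) 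
(.lf (nat_lit 547017) (.g (nat_lit 2581) (.e (nat_lit 303117) (nat_lit 2) (.e (nat_lit 196666) (nat_lit 13) (.e (nat_lit 65610) (nat_lit 10) (.e (nat_lit 344117) (nat_lit 21) (.e (nat_lit 516096) (nat_lit 0) .nil))))) (.g (nat_lit 0) (.e (nat_lit 284524) (nat_lit 0) .nil) .nil))) 
(.lf (nat_lit 547529) (.g (nat_lit 4966) (.e (nat_lit 303119) (nat_lit 3) (.e (nat_lit 204869) (nat_lit 29) (.e (nat_lit 360475) (nat_lit 8) (.e (nat_lit 557091) (nat_lit 12) (.e (nat_lit 163844) (nat_lit 0) (.e (nat_lit 6058) (nat_lit 327) (.e (nat_lit 8213) (nat_lit 9) .nil))))))) (.g (nat_lit 1) (.e (nat_lit 285364) (nat_lit 0) .nil) .nil)))) (.nd (nat_lit 9) 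
(.lf (nat_lit 547273) (.g (nat_lit 2100) (.e (nat_lit 303118) (nat_lit 3) (.e (nat_lit 204869) (nat_lit 29) (.e (nat_lit 360467) (nat_lit 3) (.e (nat_lit 516139) (nat_lit 7) (.e (nat_lit 409643) (nat_lit 18) .nil))))) (.g (nat_lit 0) (.e (nat_lit 284863) (nat_lit 0) .nil) .nil))) 
(.lf (nat_lit 547785) (.g (nat_lit 3594) (.e (nat_lit 303143) (nat_lit 12) (.e (nat_lit 475185) (nat_lit 29) (.e (nat_lit 557101) (nat_lit 13) (.e (nat_lit 172115) (nat_lit 10) (.e (nat_lit 434219) (nat_lit 19) (.e (nat_lit 499718) (nat_lit 0) (.e (nat_lit 2810) (nat_lit 180) .nil))))))) (.g (nat_lit 1) (.e (nat_lit 286776) (nat_lit 0) .nil) .nil))))))) 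
(.nd (nat_lit 6) (.nd (nat_lit 7) (.nd (nat_lit 8) (.nd (nat_lit 9) 
(.lf (nat_lit 546857) (.g (nat_lit 1999) (.e (nat_lit 303109) (nat_lit 0) (.e (nat_lit 3579) (nat_lit 223) (.e (nat_lit 745509) (nat_lit 11) (.e (nat_lit 24658) (nat_lit 13) (.e (nat_lit 393260) (nat_lit 21) .nil))))) (.g (nat_lit 0) (.e (nat_lit 284182) (nat_lit 0) .nil) .nil))) 
(.lf (nat_lit 547369) (.g (nat_lit 3264) (.e (nat_lit 303119) (nat_lit 3) (.e (nat_lit 204846) (nat_lit 24) (.e (nat_lit 319534) (nat_lit 16) (.e (nat_lit 286735) (nat_lit 3) (.e (nat_lit 98349) (nat_lit 24) (.e (nat_lit 417536) (nat_lit 8) .nil)))))) (.g (nat_lit 1) (.e (nat_lit 285016) (nat_lit 0) .nil) .nil)))) (.nd (nat_lit 9) 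
(.lf (nat_lit 547113) (.g (nat_lit 2004) (.e (nat_lit 303117) (nat_lit 2) (.e (nat_lit 196672) (nat_lit 15) (.e (nat_lit 81956) (nat_lit 23) (.e (nat_lit 98319) (nat_lit 17) (.e (nat_lit 7936) (nat_lit 377) .nil))))) (.g (nat_lit 0) (.e (nat_lit 284629) (nat_lit 0) .nil) .nil))) 
(.lf (nat_lit 547625) (.g (nat_lit 3206) (.e (nat_lit 303133) (nat_lit 9) (.e (nat_lit 426412) (nat_lit 15) (.e (nat_lit 2175) (nat_lit 143) (.e (nat_lit 712755) (nat_lit 30) (.e (nat_lit 450596) (nat_lit 17) (.e (nat_lit 663589) (nat_lit 14) (.e (nat_lit 2798) (nat_lit 180) .nil))))))) (.g (nat_lit 1) (.e (nat_lit 285840) (nat_lit 0) .nil) .nil))))) (.nd (nat_lit 8) (.nd (nat_lit 9) 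
(.lf (nat_lit 546985) (.g (nat_lit 4513) (.e (nat_lit 303117) (nat_lit 2) (.e (nat_lit 196662) (nat_lit 13) (.e (nat_lit 65598) (nat_lit 9) (.e (nat_lit 336013) (nat_lit 2) (.e (nat_lit 90134) (nat_lit 9) (.e (nat_lit 2828) (nat_lit 182) (.e (nat_lit 409646) (nat_lit 18) .nil))))))) (.g (nat_lit 1) (.e (nat_lit 284476) (nat_lit 0) .nil) .nil))) 
(.lf (nat_lit 547497) (.g (nat_lit 3189) (.e (nat_lit 303119) (nat_lit 3) (.e (nat_lit 204869) (nat_lit 29) (.e (nat_lit 360467) (nat_lit 3) (.e (nat_lit 516139) (nat_lit 7) (.e (nat_lit 417536) (nat_lit 18) .nil))))) (.g (nat_lit 1) (.e (nat_lit 285257) (nat_lit 0) .nil) .nil)))) (.nd (nat_lit 9) 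
(.lf (nat_lit 547241) (.g (nat_lit 2007) (.e (nat_lit 303118) (nat_lit 3) (.e (nat_lit 204866) (nat_lit 28) (.e (nat_lit 352313) (nat_lit 23) (.e (nat_lit 98350) (nat_lit 24) (.e (nat_lit 417536) (nat_lit 18) .nil))))) (.g (nat_lit 1) (.e (nat_lit 284818) (nat_lit 0) .nil) .nil))) 
(.lf (nat_lit 547753) (.g (nat_lit 3472) (.e (nat_lit 303143) (nat_lit 12) (.e (nat_lit 475185) (nat_lit 29) (.e (nat_lit 557100) (nat_lit 13) (.e (nat_lit 172106) (nat_lit 10) (.e (nat_lit 434219) (nat_lit 19) (.e (nat_lit 499718) (nat_lit 0) (.e (nat_lit 2810) (nat_lit 180) .nil))))))) (.g (nat_lit 1) (.e (nat_lit 286739) (nat_lit 0) .nil) .nil)))))) 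
(.nd (nat_lit 7) (.nd (nat_lit 8) (.nd (nat_lit 9) 
(.lf (nat_lit 546921) (.g (nat_lit 377) (.e (nat_lit 303116) (nat_lit 2) (.e (nat_lit 196661) (nat_lit 12) (.e (nat_lit 57723) (nat_lit 180) .nil))) (.g (nat_lit 0) (.e (nat_lit 284391) (nat_lit 0) .nil) .nil))) 
(.lf (nat_lit 547433) (.g (nat_lit 2239) (.e (nat_lit 303119) (nat_lit 3) (.e (nat_lit 204861) (nat_lit 26) (.e (nat_lit 336184) (nat_lit 11) (.e (nat_lit 368676) (nat_lit 21) (.e (nat_lit 516102) (nat_lit 0) (.e (nat_lit 6989) (nat_lit 377) (.e (nat_lit 2810) (nat_lit 180) .nil))))))) (.g (nat_lit 1) (.e (nat_lit 285115) (nat_lit 0) .nil) .nil)))) (.nd (nat_lit 9) 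
(.lf (nat_lit 547177) (.g (nat_lit 1165) (.e (nat_lit 303117) (nat_lit 2) (.e (nat_lit 196681) (nat_lit 17) (.e (nat_lit 131110) (nat_lit 9) .nil))) (.g (nat_lit 0) (.e (nat_lit 284701) (nat_lit 0) .nil) .nil))) 
(.lf (nat_lit 547689) (.g (nat_lit 1091) (.e (nat_lit 303139) (nat_lit 10) (.e (nat_lit 434268) (nat_lit 36) (.e (nat_lit 639020) (nat_lit 16) (.e (nat_lit 65584) (nat_lit 7) .nil)))) (.g (nat_lit 0) (.e (nat_lit 286431) (nat_lit 0) .nil) .nil))))) (.nd (nat_lit 8) (.nd (nat_lit 9) 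
(.lf (nat_lit 547049) (.g (nat_lit 3284) (.e (nat_lit 303117) (nat_lit 2) (.e (nat_lit 196666) (nat_lit 13) (.e (nat_lit 65610) (nat_lit 10) (.e (nat_lit 344117) (nat_lit 21) (.e (nat_lit 516106) (nat_lit 0) (.e (nat_lit 7008) (nat_lit 377) (.e (nat_lit 2804) (nat_lit 180) .nil))))))) (.g (nat_lit 1) (.e (nat_lit 284556) (nat_lit 0) .nil) .nil))) 
(.lf (nat_lit 547561) (.g (nat_lit 2845) (.e (nat_lit 303119) (nat_lit 3) (.e (nat_lit 204885) (nat_lit 33) (.e (nat_lit 401448) (nat_lit 10) (.e (nat_lit 434232) (nat_lit 23) (.e (nat_lit 532523) (nat_lit 7) (.e (nat_lit 327424) (nat_lit 18) .nil)))))) (.g (nat_lit 1) (.e (nat_lit 285407) (nat_lit 0) .nil) .nil)))) (.nd (nat_lit 9) 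
(.lf (nat_lit 547305) (.g (nat_lit 2429) (.e (nat_lit 303118) (nat_lit 3) (.e (nat_lit 204885) (nat_lit 33) (.e (nat_lit 401446) (nat_lit 10) (.e (nat_lit 434231) (nat_lit 23) (.e (nat_lit 532490) (nat_lit 0) (.e (nat_lit 6114) (nat_lit 332) (.e (nat_lit 1376) (nat_lit 104) .nil))))))) (.g (nat_lit 1) (.e (nat_lit 284898) (nat_lit 0) .nil) .nil))) 
(.lf (nat_lit 547817) (.g (nat_lit 3618) (.e (nat_lit 303143) (nat_lit 12) (.e (nat_lit 475185) (nat_lit 29) (.e (nat_lit 557109) (nat_lit 15) (.e (nat_lit 188441) (nat_lit 20) (.e (nat_lit 3115) (nat_lit 193) .nil))))) (.g (nat_lit 0) (.e (nat_lit 286814) (nat_lit 0) .nil) .nil)))))))) (.nd (nat_lit 5) (.nd (nat_lit 6) (.nd (nat_lit 7) (.nd (nat_lit 8) (.nd (nat_lit 9) 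
(.lf (nat_lit 546841) (.g (nat_lit 3992) (.e (nat_lit 303108) (nat_lit 0) (.e (nat_lit 3238) (nat_lit 197) (.e (nat_lit 532535) (nat_lit 9) (.e (nat_lit 336173) (nat_lit 10) (.e (nat_lit 344116) (nat_lit 21) .nil))))) (.g (nat_lit 0) (.e (nat_lit 284155) (nat_lit 0) .nil) .nil))) 
(.lf (nat_lit 547353) (.g (nat_lit 1827) (.e (nat_lit 303119) (nat_lit 3) (.e (nat_lit 204846) (nat_lit 24) (.e (nat_lit 319532) (nat_lit 16) (.e (nat_lit 286734) (nat_lit 3) (.e (nat_lit 98349) (nat_lit 24) (.e (nat_lit 417536) (nat_lit 8) .nil)))))) (.g (nat_lit 1) (.e (nat_lit 284998) (nat_lit 0) .nil) .nil)))) (.nd (nat_lit 9) 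
(.lf (nat_lit 547097) (.g (nat_lit 1615) (.e (nat_lit 303117) (nat_lit 2) (.e (nat_lit 196672) (nat_lit 15) (.e (nat_lit 81951) (nat_lit 22) (.e (nat_lit 90130) (nat_lit 9) .nil)))) (.g (nat_lit 0) (.e (nat_lit 284612) (nat_lit 0) .nil) .nil))) 
(.lf (nat_lit 547609) (.g (nat_lit 2640) (.e (nat_lit 303133) (nat_lit 9) (.e (nat_lit 426412) (nat_lit 15) (.e (nat_lit 1856) (nat_lit 124) (.e (nat_lit 557097) (nat_lit 13) (.e (nat_lit 172094) (nat_lit 9) (.e (nat_lit 426125) (nat_lit 2) (.e (nat_lit 204544) (nat_lit 18) (.e (nat_lit 2797) (nat_lit 180) .nil)))))))) (.g (nat_lit 1) (.e (nat_lit 285792) (nat_lit 0) .nil) .nil))))) 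
(.nd (nat_lit 8) (.nd (nat_lit 9) 
(.lf (nat_lit 546969) (.g (nat_lit 415) (.e (nat_lit 303116) (nat_lit 2) (.e (nat_lit 196674) (nat_lit 15) (.e (nat_lit 81954) (nat_lit 23) .nil))) (.g (nat_lit 0) (.e (nat_lit 284443) (nat_lit 0) .nil) .nil))) 
(.lf (nat_lit 547481) (.g (nat_lit 3363) (.e (nat_lit 303119) (nat_lit 3) (.e (nat_lit 204868) (nat_lit 29) (.e (nat_lit 360468) (nat_lit 3) (.e (nat_lit 516139) (nat_lit 7) (.e (nat_lit 409648) (nat_lit 18) .nil))))) (.g (nat_lit 1) (.e (nat_lit 285202) (nat_lit 0) .nil) .nil)))) (.nd (nat_lit 9) 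
(.lf (nat_lit 547225) (.g (nat_lit 1385) (.e (nat_lit 303118) (nat_lit 3) (.e (nat_lit 204855) (nat_lit 26) (.e (nat_lit 336176) (nat_lit 10) (.e (nat_lit 344119) (nat_lit 21) .nil)))) (.g (nat_lit 0) (.e (nat_lit 284784) (nat_lit 0) .nil) .nil))) 
(.lf (nat_lit 547737) (.g (nat_lit 2162) (.e (nat_lit 303143) (nat_lit 12) (.e (nat_lit 475185) (nat_lit 29) (.e (nat_lit 557100) (nat_lit 13) (.e (nat_lit 172085) (nat_lit 9) (.e (nat_lit 426120) (nat_lit 2) .nil))))) (.g (nat_lit 0) (.e (nat_lit 286720) (nat_lit 0) .nil) .nil)))))) (.nd (nat_lit 7) (.nd (nat_lit 8) (.nd (nat_lit 9) 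
(.lf (nat_lit 546905) (.g (nat_lit 1184) (.e (nat_lit 303111) (nat_lit 0) (.e (nat_lit 3468) (nat_lit 217) (.e (nat_lit 696343) (nat_lit 8) (.e (nat_lit 172123) (nat_lit 13) (.e (nat_lit 483374) (nat_lit 22) .nil))))) (.g (nat_lit 0) (.e (nat_lit 284305) (nat_lit 0) .nil) .nil))) 
(.lf (nat_lit 547417) (.g (nat_lit 1061) (.e (nat_lit 303119) (nat_lit 3) (.e (nat_lit 204855) (nat_lit 26) (.e (nat_lit 336167) (nat_lit 10) .nil))) (.g (nat_lit 0) (.e (nat_lit 285091) (nat_lit 0) .nil) .nil)))) (.nd (nat_lit 9) 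
(.lf (nat_lit 547161) (.g (nat_lit 289) (.e (nat_lit 303117) (nat_lit 2) (.e (nat_lit 196674) (nat_lit 15) (.e (nat_lit 81956) (nat_lit 23) .nil))) (.g (nat_lit 0) (.e (nat_lit 284684) (nat_lit 0) .nil) .nil))) 
(.lf (nat_lit 547673) (.g (nat_lit 3756) (.e (nat_lit 303137) (nat_lit 10) (.e (nat_lit 434295) (nat_lit 49) (.e (nat_lit 745491) (nat_lit 4) (.e (nat_lit 65617) (nat_lit 10) (.e (nat_lit 344133) (nat_lit 26) (.e (nat_lit 557119) (nat_lit 18) (.e (nat_lit 2807) (nat_lit 180) .nil))))))) (.g (nat_lit 1) (.e (nat_lit 286338) (nat_lit 0) .nil) .nil))))) (.nd (nat_lit 8) (.nd (nat_lit 9) 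
(.lf (nat_lit 547033) (.g (nat_lit 3645) (.e (nat_lit 303117) (nat_lit 2) (.e (nat_lit 196666) (nat_lit 13) (.e (nat_lit 65610) (nat_lit 10) (.e (nat_lit 344117) (nat_lit 21) (.e (nat_lit 516099) (nat_lit 0) (.e (nat_lit 7936) (nat_lit 377) (.e (nat_lit 2802) (nat_lit 180) .nil))))))) (.g (nat_lit 1) (.e (nat_lit 284540) (nat_lit 0) .nil) .nil))) 
(.lf (nat_lit 547545) (.g (nat_lit 1317) (.e (nat_lit 303119) (nat_lit 3) (.e (nat_lit 204877) (nat_lit 31) (.e (nat_lit 376865) (nat_lit 22) (.e (nat_lit 90127) (nat_lit 9) .nil)))) (.g (nat_lit 0) (.e (nat_lit 285385) (nat_lit 0) .nil) .nil)))) (.nd (nat_lit 9) 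
(.lf (nat_lit 547289) (.g (nat_lit 4780) (.e (nat_lit 303118) (nat_lit 3) (.e (nat_lit 204869) (nat_lit 29) (.e (nat_lit 360475) (nat_lit 8) (.e (nat_lit 557067) (nat_lit 9) (.e (nat_lit 220) (nat_lit 20) (.e (nat_lit 327700) (nat_lit 8) .nil)))))) (.g (nat_lit 1) (.e (nat_lit 284881) (nat_lit 0) .nil) .nil))) 
(.lf (nat_lit 547801) (.g (nat_lit 1599) (.e (nat_lit 303143) (nat_lit 12) (.e (nat_lit 475185) (nat_lit 29) (.e (nat_lit 557107) (nat_lit 15) (.e (nat_lit 188441) (nat_lit 20) .nil)))) (.g (nat_lit 0) (.e (nat_lit 286798) (nat_lit 0) .nil) .nil))))))) (.nd (nat_lit 6) (.nd (nat_lit 7) (.nd (nat_lit 8) (.nd (nat_lit 9) 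
(.lf (nat_lit 546873) (.g (nat_lit 1174) (.e (nat_lit 303112) (nat_lit 0) (.e (nat_lit 3252) (nat_lit 197) (.e (nat_lit 532550) (nat_lit 12) (.e (nat_lit 360465) (nat_lit 3) .nil)))) (.g (nat_lit 0) (.e (nat_lit 284209) (nat_lit 0) .nil) .nil))) 
(.lf (nat_lit 547385) (.g (nat_lit 532) (.e (nat_lit 303119) (nat_lit 3) (.e (nat_lit 204852) (nat_lit 26) (.e (nat_lit 336130) (nat_lit 9) .nil))) (.g (nat_lit 0) (.e (nat_lit 285036) (nat_lit 0) .nil) .nil)))) (.nd (nat_lit 9) 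
(.lf (nat_lit 547129) (.g (nat_lit 906) (.e (nat_lit 303117) (nat_lit 2) (.e (nat_lit 196673) (nat_lit 15) (.e (nat_lit 81956) (nat_lit 23) (.e (nat_lit 98320) (nat_lit 17) .nil)))) (.g (nat_lit 0) (.e (nat_lit 284649) (nat_lit 0) .nil) .nil))) 
(.lf (nat_lit 547641) (.g (nat_lit 410) (.e (nat_lit 303132) (nat_lit 9) (.e (nat_lit 426109) (nat_lit 1) (.e (nat_lit 164319) (nat_lit 228) .nil))) (.g (nat_lit 0) (.e (nat_lit 285984) (nat_lit 0) .nil) .nil))))) (.nd (nat_lit 8) (.nd (nat_lit 9) 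
(.lf (nat_lit 547001) (.g (nat_lit 2973) (.e (nat_lit 303117) (nat_lit 2) (.e (nat_lit 196666) (nat_lit 13) (.e (nat_lit 65589) (nat_lit 9) (.e (nat_lit 336013) (nat_lit 2) (.e (nat_lit 90165) (nat_lit 12) (.e (nat_lit 164210) (nat_lit 176) (.e (nat_lit 7936) (nat_lit 180) .nil))))))) (.g (nat_lit 1) (.e (nat_lit 284502) (nat_lit 0) .nil) .nil))) 
(.lf (nat_lit 547513) (.g (nat_lit 1342) (.e (nat_lit 303119) (nat_lit 3) (.e (nat_lit 204869) (nat_lit 29) (.e (nat_lit 360475) (nat_lit 8) (.e (nat_lit 557065) (nat_lit 9) .nil)))) (.g (nat_lit 0) (.e (nat_lit 285323) (nat_lit 0) .nil) .nil)))) (.nd (nat_lit 9) 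
(.lf (nat_lit 547257) (.g (nat_lit 1859) (.e (nat_lit 303118) (nat_lit 3) (.e (nat_lit 204868) (nat_lit 29) (.e (nat_lit 360467) (nat_lit 3) (.e (nat_lit 516139) (nat_lit 7) (.e (nat_lit 417536) (nat_lit 18) .nil))))) (.g (nat_lit 0) (.e (nat_lit 284843) (nat_lit 0) .nil) .nil))) 
(.lf (nat_lit 547769) (.g (nat_lit 2104) (.e (nat_lit 303143) (nat_lit 12) (.e (nat_lit 475185) (nat_lit 29) (.e (nat_lit 557100) (nat_lit 13) (.e (nat_lit 172113) (nat_lit 10) (.e (nat_lit 434223) (nat_lit 19) .nil))))) (.g (nat_lit 0) (.e (nat_lit 286757) (nat_lit 0) .nil) .nil)))))) (.nd (nat_lit 7) (.nd (nat_lit 8) (.nd (nat_lit 9) 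
(.lf (nat_lit 546937) (.g (nat_lit 3092) (.e (nat_lit 303116) (nat_lit 2) (.e (nat_lit 196666) (nat_lit 13) (.e (nat_lit 65610) (nat_lit 10) (.e (nat_lit 344117) (nat_lit 21) (.e (nat_lit 516106) (nat_lit 0) (.e (nat_lit 7008) (nat_lit 377) (.e (nat_lit 7936) (nat_lit 180) .nil))))))) (.g (nat_lit 1) (.e (nat_lit 284408) (nat_lit 0) .nil) .nil))) 
(.lf (nat_lit 547449) (.g (nat_lit 2818) (.e (nat_lit 303119) (nat_lit 3) (.e (nat_lit 204866) (nat_lit 28) (.e (nat_lit 352313) (nat_lit 23) (.e (nat_lit 98350) (nat_lit 24) (.e (nat_lit 417536) (nat_lit 18) .nil))))) (.g (nat_lit 1) (.e (nat_lit 285154) (nat_lit 0) .nil) .nil)))) (.nd (nat_lit 9) 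
(.lf (nat_lit 547193) (.g (nat_lit 1556) (.e (nat_lit 303118) (nat_lit 3) (.e (nat_lit 204845) (nat_lit 24) (.e (nat_lit 319531) (nat_lit 16) (.e (nat_lit 286735) (nat_lit 3) .nil)))) (.g (nat_lit 0) (.e (nat_lit 284720) (nat_lit 0) .nil) .nil))) 
(.lf (nat_lit 547705) (.g (nat_lit 1773) (.e (nat_lit 303140) (nat_lit 10) (.e (nat_lit 434291) (nat_lit 44) (.e (nat_lit 704738) (nat_lit 11) (.e (nat_lit 16471) (nat_lit 14) .nil)))) (.g (nat_lit 0) (.e (nat_lit 286621) (nat_lit 0) .nil) .nil))))) (.nd (nat_lit 8) (.nd (nat_lit 9) 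
(.lf (nat_lit 547065) (.g (nat_lit 2312) (.e (nat_lit 303117) (nat_lit 2) (.e (nat_lit 196666) (nat_lit 13) (.e (nat_lit 65610) (nat_lit 10) (.e (nat_lit 344126) (nat_lit 25) (.e (nat_lit 548873) (nat_lit 5) .nil))))) (.g (nat_lit 0) (.e (nat_lit 284573) (nat_lit 0) .nil) .nil))) 
(.lf (nat_lit 547577) (.g (nat_lit 622) (.e (nat_lit 303124) (nat_lit 7) (.e (nat_lit 409646) (nat_lit 18) (.e (nat_lit 303124) (nat_lit 7) .nil))) (.g (nat_lit 0) (.e (nat_lit 285524) (nat_lit 0) .nil) .nil)))) (.nd (nat_lit 9) 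
(.lf (nat_lit 547321) (.g (nat_lit 2221) (.e (nat_lit 303119) (nat_lit 3) (.e (nat_lit 204845) (nat_lit 24) (.e (nat_lit 319529) (nat_lit 16) (.e (nat_lit 286735) (nat_lit 3) (.e (nat_lit 98325) (nat_lit 17) .nil))))) (.g (nat_lit 0) (.e (nat_lit 284938) (nat_lit 0) .nil) .nil))) 
(.lf (nat_lit 547833) (.g (nat_lit 1372) (.e (nat_lit 303143) (nat_lit 12) (.e (nat_lit 475211) (nat_lit 41) (.e (nat_lit 712755) (nat_lit 30) (.e (nat_lit 450595) (nat_lit 17) .nil)))) (.g (nat_lit 0) (.e (nat_lit 286924) (nat_lit 0) .nil) .nil)))))))))) (.nd (nat_lit 3) (.nd (nat_lit 4) (.nd (nat_lit 5) (.nd (nat_lit 6) (.nd (nat_lit 7) (.nd (nat_lit 8) (.nd (nat_lit 9) 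
(.lf (nat_lit 546821) (.g (nat_lit 2760) (.e (nat_lit 303106) (nat_lit 0) (.e (nat_lit 3262) (nat_lit 198) (.e (nat_lit 540704) (nat_lit 12) (.e (nat_lit 360466) (nat_lit 3) (.e (nat_lit 516139) (nat_lit 7) (.e (nat_lit 409646) (nat_lit 18) .nil)))))) (.g (nat_lit 1) (.e (nat_lit 284119) (nat_lit 0) .nil) .nil))) 
(.lf (nat_lit 547333) (.g (nat_lit 1991) (.e (nat_lit 303119) (nat_lit 3) (.e (nat_lit 204846) (nat_lit 24) (.e (nat_lit 319505) (nat_lit 10) (.e (nat_lit 5714) (nat_lit 312) (.e (nat_lit 2681) (nat_lit 168) .nil))))) (.g (nat_lit 0) (.e (nat_lit 284964) (nat_lit 0) .nil) .nil)))) (.nd (nat_lit 9) 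
(.lf (nat_lit 547077) (.g (nat_lit 399) (.e (nat_lit 303117) (nat_lit 2) (.e (nat_lit 196666) (nat_lit 13) (.e (nat_lit 65617) (nat_lit 10) .nil))) (.g (nat_lit 0) (.e (nat_lit 284585) (nat_lit 0) .nil) .nil))) 
(.lf (nat_lit 547589) (.g (nat_lit 1445) (.e (nat_lit 303127) (nat_lit 9) (.e (nat_lit 426482) (nat_lit 27) (.e (nat_lit 336060) (nat_lit 7) (.e (nat_lit 319534) (nat_lit 16) (.e (nat_lit 294656) (nat_lit 26) .nil))))) (.g (nat_lit 0) (.e (nat_lit 285594) (nat_lit 0) .nil) .nil))))) (.nd (nat_lit 8) (.nd (nat_lit 9) 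
(.lf (nat_lit 546949) (.g (nat_lit 1267) (.e (nat_lit 303116) (nat_lit 2) (.e (nat_lit 196666) (nat_lit 13) (.e (nat_lit 65617) (nat_lit 10) (.e (nat_lit 344127) (nat_lit 26) .nil)))) (.g (nat_lit 0) (.e (nat_lit 284420) (nat_lit 0) .nil) .nil))) 
(.lf (nat_lit 547461) (.g (nat_lit 1666) (.e (nat_lit 303119) (nat_lit 3) (.e (nat_lit 204868) (nat_lit 29) (.e (nat_lit 360466) (nat_lit 3) (.e (nat_lit 516097) (nat_lit 0) .nil)))) (.g (nat_lit 0) (.e (nat_lit 285181) (nat_lit 0) .nil) .nil)))) (.nd (nat_lit 9) 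
(.lf (nat_lit 547205) (.g (nat_lit 3613) (.e (nat_lit 303118) (nat_lit 3) (.e (nat_lit 204855) (nat_lit 26) (.e (nat_lit 336073) (nat_lit 9) (.e (nat_lit 336028) (nat_lit 3) (.e (nat_lit 98350) (nat_lit 24) (.e (nat_lit 409647) (nat_lit 18) .nil)))))) (.g (nat_lit 1) (.e (nat_lit 284738) (nat_lit 0) .nil) .nil))) 
(.lf (nat_lit 547717) (.g (nat_lit 2200) (.e (nat_lit 303142) (nat_lit 12) (.e (nat_lit 475211) (nat_lit 41) (.e (nat_lit 712755) (nat_lit 30) (.e (nat_lit 450562) (nat_lit 0) (.e (nat_lit 5924) (nat_lit 321) .nil))))) (.g (nat_lit 0) (.e (nat_lit 286653) (nat_lit 0) .nil) .nil)))))) (.nd (nat_lit 7) (.nd (nat_lit 8) (.nd (nat_lit 9) 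
(.lf (nat_lit 546885) (.g (nat_lit 2620) (.e (nat_lit 303112) (nat_lit 0) (.e (nat_lit 3252) (nat_lit 197) (.e (nat_lit 532561) (nat_lit 14) (.e (nat_lit 376865) (nat_lit 22) (.e (nat_lit 90130) (nat_lit 9) (.e (nat_lit 2830) (nat_lit 182) (.e (nat_lit 417536) (nat_lit 18) .nil))))))) (.g (nat_lit 1) (.e (nat_lit 284227) (nat_lit 0) .nil) .nil))) 
(.lf (nat_lit 547397) (.g (nat_lit 953) (.e (nat_lit 303119) (nat_lit 3) (.e (nat_lit 204854) (nat_lit 26) (.e (nat_lit 336182) (nat_lit 11) .nil))) (.g (nat_lit 0) (.e (nat_lit 285052) (nat_lit 0) .nil) .nil)))) (.nd (nat_lit 9) 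
(.lf (nat_lit 547141) (.g (nat_lit 571) (.e (nat_lit 303117) (nat_lit 2) (.e (nat_lit 196674) (nat_lit 15) (.e (nat_lit 81940) (nat_lit 20) .nil))) (.g (nat_lit 0) (.e (nat_lit 284661) (nat_lit 0) .nil) .nil))) 
(.lf (nat_lit 547653) (.g (nat_lit 1424) (.e (nat_lit 303136) (nat_lit 10) (.e (nat_lit 434272) (nat_lit 38) (.e (nat_lit 655364) (nat_lit 0) (.e (nat_lit 2612) (nat_lit 163) .nil)))) (.g (nat_lit 0) (.e (nat_lit 286133) (nat_lit 0) .nil) .nil))))) (.nd (nat_lit 8) (.nd (nat_lit 9) 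
(.lf (nat_lit 547013) (.g (nat_lit 687) (.e (nat_lit 303117) (nat_lit 2) (.e (nat_lit 196666) (nat_lit 13) (.e (nat_lit 65599) (nat_lit 9) (.e (nat_lit 343808) (nat_lit 3) .nil)))) (.g (nat_lit 0) (.e (nat_lit 284518) (nat_lit 0) .nil) .nil))) 
(.lf (nat_lit 547525) (.g (nat_lit 3180) (.e (nat_lit 303119) (nat_lit 3) (.e (nat_lit 204869) (nat_lit 29) (.e (nat_lit 360475) (nat_lit 8) (.e (nat_lit 557074) (nat_lit 9) .nil)))) (.g (nat_lit 0) (.e (nat_lit 285356) (nat_lit 0) .nil) .nil)))) (.nd (nat_lit 9) 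
(.lf (nat_lit 547269) (.g (nat_lit 2515) (.e (nat_lit 303118) (nat_lit 3) (.e (nat_lit 204869) (nat_lit 29) (.e (nat_lit 360466) (nat_lit 3) (.e (nat_lit 516138) (nat_lit 7) (.e (nat_lit 409646) (nat_lit 18) .nil))))) (.g (nat_lit 0) (.e (nat_lit 284859) (nat_lit 0) .nil) .nil))) 
(.lf (nat_lit 547781) (.g (nat_lit 3258) (.e (nat_lit 303143) (nat_lit 12) (.e (nat_lit 475185) (nat_lit 29) (.e (nat_lit 557101) (nat_lit 13) (.e (nat_lit 172091) (nat_lit 9) (.e (nat_lit 426125) (nat_lit 2) (.e (nat_lit 204544) (nat_lit 18) (.e (nat_lit 2798) (nat_lit 180) .nil))))))) (.g (nat_lit 1) (.e (nat_lit 286772) (nat_lit 0) .nil) .nil))))))) 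
(.nd (nat_lit 6) (.nd (nat_lit 7) (.nd (nat_lit 8) (.nd (nat_lit 9) 
(.lf (nat_lit 546853) (.g (nat_lit 979) (.e (nat_lit 303109) (nat_lit 0) (.e (nat_lit 3238) (nat_lit 197) (.e (nat_lit 532546) (nat_lit 11) (.e (nat_lit 352314) (nat_lit 23) .nil)))) (.g (nat_lit 0) (.e (nat_lit 284173) (nat_lit 0) .nil) .nil))) 
(.lf (nat_lit 547365) (.g (nat_lit 2094) (.e (nat_lit 303119) (nat_lit 3) (.e (nat_lit 204846) (nat_lit 24) (.e (nat_lit 319534) (nat_lit 16) (.e (nat_lit 286732) (nat_lit 2) (.e (nat_lit 90165) (nat_lit 12) .nil))))) (.g (nat_lit 0) (.e (nat_lit 285012) (nat_lit 0) .nil) .nil)))) (.nd (nat_lit 9) 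
(.lf (nat_lit 547109) (.g (nat_lit 1274) (.e (nat_lit 303117) (nat_lit 2) (.e (nat_lit 196672) (nat_lit 15) (.e (nat_lit 81954) (nat_lit 23) (.e (nat_lit 98325) (nat_lit 17) .nil)))) (.g (nat_lit 0) (.e (nat_lit 284625) (nat_lit 0) .nil) .nil))) 
(.lf (nat_lit 547621) (.g (nat_lit 1663) (.e (nat_lit 303133) (nat_lit 9) (.e (nat_lit 426412) (nat_lit 15) (.e (nat_lit 2059) (nat_lit 142) (.e (nat_lit 704790) (nat_lit 14) .nil)))) (.g (nat_lit 0) (.e (nat_lit 285832) (nat_lit 0) .nil) .nil))))) (.nd (nat_lit 8) (.nd (nat_lit 9) 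
(.lf (nat_lit 546981) (.g (nat_lit 2067) (.e (nat_lit 303116) (nat_lit 2) (.e (nat_lit 196681) (nat_lit 17) (.e (nat_lit 131110) (nat_lit 9) (.e (nat_lit 336028) (nat_lit 3) (.e (nat_lit 98350) (nat_lit 24) .nil))))) (.g (nat_lit 0) (.e (nat_lit 284455) (nat_lit 0) .nil) .nil))) 
(.lf (nat_lit 547493) (.g (nat_lit 3735) (.e (nat_lit 303119) (nat_lit 3) (.e (nat_lit 204869) (nat_lit 29) (.e (nat_lit 360467) (nat_lit 3) (.e (nat_lit 516138) (nat_lit 7) (.e (nat_lit 409645) (nat_lit 18) .nil))))) (.g (nat_lit 1) (.e (nat_lit 285253) (nat_lit 0) .nil) .nil)))) (.nd (nat_lit 9) 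
(.lf (nat_lit 547237) (.g (nat_lit 3741) (.e (nat_lit 303118) (nat_lit 3) (.e (nat_lit 204865) (nat_lit 28) (.e (nat_lit 352315) (nat_lit 23) (.e (nat_lit 98350) (nat_lit 24) (.e (nat_lit 409648) (nat_lit 18) .nil))))) (.g (nat_lit 1) (.e (nat_lit 284802) (nat_lit 0) .nil) .nil))) 
(.lf (nat_lit 547749) (.g (nat_lit 2678) (.e (nat_lit 303143) (nat_lit 12) (.e (nat_lit 475185) (nat_lit 29) (.e (nat_lit 557100) (nat_lit 13) (.e (nat_lit 172098) (nat_lit 9) .nil)))) (.g (nat_lit 0) (.e (nat_lit 286732) (nat_lit 0) .nil) .nil)))))) (.nd (nat_lit 7) (.nd (nat_lit 8) (.nd (nat_lit 9) 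
(.lf (nat_lit 546917) (.g (nat_lit 857) (.e (nat_lit 303111) (nat_lit 0) (.e (nat_lit 3579) (nat_lit 223) (.e (nat_lit 745509) (nat_lit 11) (.e (nat_lit 24660) (nat_lit 13) .nil)))) (.g (nat_lit 0) (.e (nat_lit 284322) (nat_lit 0) .nil) .nil))) 
(.lf (nat_lit 547429) (.g (nat_lit 966) (.e (nat_lit 303119) (nat_lit 3) (.e (nat_lit 204858) (nat_lit 26) (.e (nat_lit 336099) (nat_lit 9) (.e (nat_lit 336013) (nat_lit 2) (.e (nat_lit 98048) (nat_lit 18) .nil))))) (.g (nat_lit 0) (.e (nat_lit 285109) (nat_lit 0) .nil) .nil)))) (.nd (nat_lit 9) 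
(.lf (nat_lit 547173) (.g (nat_lit 1898) (.e (nat_lit 303117) (nat_lit 2) (.e (nat_lit 196681) (nat_lit 17) (.e (nat_lit 131104) (nat_lit 9) (.e (nat_lit 336013) (nat_lit 2) (.e (nat_lit 90165) (nat_lit 12) .nil))))) (.g (nat_lit 0) (.e (nat_lit 284697) (nat_lit 0) .nil) .nil))) 
(.lf (nat_lit 547685) (.g (nat_lit 898) (.e (nat_lit 303139) (nat_lit 10) (.e (nat_lit 434266) (nat_lit 35) (.e (nat_lit 630821) (nat_lit 16) (.e (nat_lit 65586) (nat_lit 7) (.e (nat_lit 319527) (nat_lit 15) (.e (nat_lit 278547) (nat_lit 8) .nil)))))) (.g (nat_lit 1) (.e (nat_lit 286427) (nat_lit 0) .nil) .nil))))) (.nd (nat_lit 8) (.nd (nat_lit 9) 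
(.lf (nat_lit 547045) (.g (nat_lit 3515) (.e (nat_lit 303117) (nat_lit 2) (.e (nat_lit 196666) (nat_lit 13) (.e (nat_lit 65610) (nat_lit 10) (.e (nat_lit 344117) (nat_lit 21) (.e (nat_lit 516106) (nat_lit 0) (.e (nat_lit 6966) (nat_lit 377) (.e (nat_lit 2812) (nat_lit 180) .nil))))))) (.g (nat_lit 1) (.e (nat_lit 284552) (nat_lit 0) .nil) .nil))) 
(.lf (nat_lit 547557) (.g (nat_lit 1901) (.e (nat_lit 303119) (nat_lit 3) (.e (nat_lit 204885) (nat_lit 33) (.e (nat_lit 401448) (nat_lit 10) (.e (nat_lit 434230) (nat_lit 23) .nil)))) (.g (nat_lit 0) (.e (nat_lit 285403) (nat_lit 0) .nil) .nil)))) (.nd (nat_lit 9) 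
(.lf (nat_lit 547301) (.g (nat_lit 997) (.e (nat_lit 303118) (nat_lit 3) (.e (nat_lit 204877) (nat_lit 31) (.e (nat_lit 376865) (nat_lit 22) (.e (nat_lit 90165) (nat_lit 12) .nil)))) (.g (nat_lit 0) (.e (nat_lit 284894) (nat_lit 0) .nil) .nil))) 
(.lf (nat_lit 547813) (.g (nat_lit 3328) (.e (nat_lit 303143) (nat_lit 12) (.e (nat_lit 475185) (nat_lit 29) (.e (nat_lit 557109) (nat_lit 15) (.e (nat_lit 188426) (nat_lit 20) (.e (nat_lit 3195) (nat_lit 193) .nil))))) (.g (nat_lit 0) (.e (nat_lit 286810) (nat_lit 0) .nil) .nil)))))))) (.nd (nat_lit 5) (.nd (nat_lit 6) (.nd (nat_lit 7) (.nd (nat_lit 8) (.nd (nat_lit 9) 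
(.lf (nat_lit 546837) (.g (nat_lit 4039) (.e (nat_lit 303108) (nat_lit 0) (.e (nat_lit 3238) (nat_lit 197) (.e (nat_lit 532535) (nat_lit 9) (.e (nat_lit 336099) (nat_lit 9) (.e (nat_lit 336028) (nat_lit 3) .nil))))) (.g (nat_lit 0) (.e (nat_lit 284149) (nat_lit 0) .nil) .nil))) 
(.lf (nat_lit 547349) (.g (nat_lit 3416) (.e (nat_lit 303119) (nat_lit 3) (.e (nat_lit 204846) (nat_lit 24) (.e (nat_lit 319531) (nat_lit 16) (.e (nat_lit 286735) (nat_lit 3) (.e (nat_lit 98323) (nat_lit 17) (.e (nat_lit 6989) (nat_lit 377) (.e (nat_lit 1374) (nat_lit 104) .nil))))))) (.g (nat_lit 1) (.e (nat_lit 284994) (nat_lit 0) .nil) .nil)))) (.nd (nat_lit 9) 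
(.lf (nat_lit 547093) (.g (nat_lit 1615) (.e (nat_lit 303117) (nat_lit 2) (.e (nat_lit 196670) (nat_lit 14) (.e (nat_lit 73792) (nat_lit 45) (.e (nat_lit 1141) (nat_lit 84) .nil)))) (.g (nat_lit 0) (.e (nat_lit 284608) (nat_lit 0) .nil) .nil))) 
(.lf (nat_lit 547605) (.g (nat_lit 2912) (.e (nat_lit 303133) (nat_lit 9) (.e (nat_lit 426412) (nat_lit 15) (.e (nat_lit 1781) (nat_lit 119) (.e (nat_lit 516130) (nat_lit 3) (.e (nat_lit 221208) (nat_lit 21) (.e (nat_lit 164183) (nat_lit 154) (.e (nat_lit 57373) (nat_lit 2) (.e (nat_lit 90196) (nat_lit 18) (.e (nat_lit 2798) (nat_lit 180) .nil))))))))) (.g (nat_lit 1) (.e (nat_lit 285744) (nat_lit 0) .nil) .nil))))) 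
(.nd (nat_lit 8) (.nd (nat_lit 9) 
(.lf (nat_lit 546965) (.g (nat_lit 2478) (.e (nat_lit 303116) (nat_lit 2) (.e (nat_lit 196673) (nat_lit 15) (.e (nat_lit 81962) (nat_lit 25) (.e (nat_lit 139289) (nat_lit 9) (.e (nat_lit 2829) (nat_lit 182) (.e (nat_lit 409649) (nat_lit 18) .nil)))))) (.g (nat_lit 1) (.e (nat_lit 284439) (nat_lit 0) .nil) .nil))) 
(.lf (nat_lit 547477) (.g (nat_lit 3675) (.e (nat_lit 303119) (nat_lit 3) (.e (nat_lit 204868) (nat_lit 29) (.e (nat_lit 360467) (nat_lit 3) (.e (nat_lit 516139) (nat_lit 7) (.e (nat_lit 409649) (nat_lit 18) .nil))))) (.g (nat_lit 1) (.e (nat_lit 285198) (nat_lit 0) .nil) .nil)))) (.nd (nat_lit 9) 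
(.lf (nat_lit 547221) (.g (nat_lit 1221) (.e (nat_lit 303118) (nat_lit 3) (.e (nat_lit 204855) (nat_lit 26) (.e (nat_lit 336173) (nat_lit 10) (.e (nat_lit 344116) (nat_lit 21) .nil)))) (.g (nat_lit 0) (.e (nat_lit 284778) (nat_lit 0) .nil) .nil))) 
(.lf (nat_lit 547733) (.g (nat_lit 4766) (.e (nat_lit 303143) (nat_lit 12) (.e (nat_lit 475185) (nat_lit 29) (.e (nat_lit 557098) (nat_lit 13) (.e (nat_lit 172094) (nat_lit 9) (.e (nat_lit 426125) (nat_lit 2) (.e (nat_lit 196683) (nat_lit 18) (.e (nat_lit 2810) (nat_lit 180) .nil))))))) (.g (nat_lit 1) (.e (nat_lit 286711) (nat_lit 0) .nil) .nil)))))) 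
(.nd (nat_lit 7) (.nd (nat_lit 8) (.nd (nat_lit 9) 
(.lf (nat_lit 546901) (.g (nat_lit 1839) (.e (nat_lit 303111) (nat_lit 0) (.e (nat_lit 3254) (nat_lit 197) (.e (nat_lit 532547) (nat_lit 11) (.e (nat_lit 352315) (nat_lit 23) (.e (nat_lit 98350) (nat_lit 24) .nil))))) (.g (nat_lit 0) (.e (nat_lit 284282) (nat_lit 0) .nil) .nil))) 
(.lf (nat_lit 547413) (.g (nat_lit 3839) (.e (nat_lit 303119) (nat_lit 3) (.e (nat_lit 204855) (nat_lit 26) (.e (nat_lit 336102) (nat_lit 9) (.e (nat_lit 336028) (nat_lit 3) (.e (nat_lit 98349) (nat_lit 24) (.e (nat_lit 409644) (nat_lit 18) .nil)))))) (.g (nat_lit 1) (.e (nat_lit 285086) (nat_lit 0) .nil) .nil)))) (.nd (nat_lit 9) 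
(.lf (nat_lit 547157) (.g (nat_lit 3803) (.e (nat_lit 303117) (nat_lit 2) (.e (nat_lit 196674) (nat_lit 15) (.e (nat_lit 81954) (nat_lit 23) (.e (nat_lit 98349) (nat_lit 24) (.e (nat_lit 409645) (nat_lit 18) .nil))))) (.g (nat_lit 1) (.e (nat_lit 284680) (nat_lit 0) .nil) .nil))) 
(.lf (nat_lit 547669) (.g (nat_lit 2397) (.e (nat_lit 303137) (nat_lit 10) (.e (nat_lit 434276) (nat_lit 39) (.e (nat_lit 663585) (nat_lit 12) (.e (nat_lit 164022) (nat_lit 46) (.e (nat_lit 704736) (nat_lit 11) .nil))))) (.g (nat_lit 0) (.e (nat_lit 286294) (nat_lit 0) .nil) .nil))))) (.nd (nat_lit 8) (.nd (nat_lit 9) 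
(.lf (nat_lit 547029) (.g (nat_lit 3848) (.e (nat_lit 303117) (nat_lit 2) (.e (nat_lit 196666) (nat_lit 13) (.e (nat_lit 65610) (nat_lit 10) (.e (nat_lit 344117) (nat_lit 21) (.e (nat_lit 516098) (nat_lit 0) (.e (nat_lit 7073) (nat_lit 377) (.e (nat_lit 2808) (nat_lit 180) .nil))))))) (.g (nat_lit 1) (.e (nat_lit 284536) (nat_lit 0) .nil) .nil))) 
(.lf (nat_lit 547541) (.g (nat_lit 509) (.e (nat_lit 303119) (nat_lit 3) (.e (nat_lit 204877) (nat_lit 31) (.e (nat_lit 376848) (nat_lit 20) .nil))) (.g (nat_lit 0) (.e (nat_lit 285381) (nat_lit 0) .nil) .nil)))) (.nd (nat_lit 9) 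
(.lf (nat_lit 547285) (.g (nat_lit 1831) (.e (nat_lit 303118) (nat_lit 3) (.e (nat_lit 204869) (nat_lit 29) (.e (nat_lit 360474) (nat_lit 8) (.e (nat_lit 557094) (nat_lit 12) .nil)))) (.g (nat_lit 0) (.e (nat_lit 284877) (nat_lit 0) .nil) .nil))) 
(.lf (nat_lit 547797) (.g (nat_lit 1707) (.e (nat_lit 303143) (nat_lit 12) (.e (nat_lit 475185) (nat_lit 29) (.e (nat_lit 557107) (nat_lit 15) (.e (nat_lit 188436) (nat_lit 20) .nil)))) (.g (nat_lit 0) (.e (nat_lit 286793) (nat_lit 0) .nil) .nil))))))) (.nd (nat_lit 6) (.nd (nat_lit 7) (.nd (nat_lit 8) (.nd (nat_lit 9) 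
(.lf (nat_lit 546869) (.g (nat_lit 3624) (.e (nat_lit 303112) (nat_lit 0) (.e (nat_lit 3252) (nat_lit 197) (.e (nat_lit 532535) (nat_lit 9) (.e (nat_lit 336099) (nat_lit 9) (.e (nat_lit 336013) (nat_lit 2) (.e (nat_lit 90165) (nat_lit 12) (.e (nat_lit 164208) (nat_lit 176) (.e (nat_lit 2810) (nat_lit 180) .nil)))))))) (.g (nat_lit 1) (.e (nat_lit 284197) (nat_lit 0) .nil) .nil))) 
(.lf (nat_lit 547381) (.g (nat_lit 1005) (.e (nat_lit 303119) (nat_lit 3) (.e (nat_lit 204849) (nat_lit 25) (.e (nat_lit 327697) (nat_lit 7) (.e (nat_lit 294928) (nat_lit 2) (.e (nat_lit 90165) (nat_lit 12) .nil))))) (.g (nat_lit 0) (.e (nat_lit 285032) (nat_lit 0) .nil) .nil)))) (.nd (nat_lit 9) 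
(.lf (nat_lit 547125) (.g (nat_lit 2456) (.e (nat_lit 303117) (nat_lit 2) (.e (nat_lit 196673) (nat_lit 15) (.e (nat_lit 81938) (nat_lit 20) (.e (nat_lit 1842) (nat_lit 123) (.e (nat_lit 548874) (nat_lit 5) (.e (nat_lit 1401) (nat_lit 106) (.e (nat_lit 327424) (nat_lit 8) .nil))))))) (.g (nat_lit 1) (.e (nat_lit 284641) (nat_lit 0) .nil) .nil))) 
(.lf (nat_lit 547637) (.g (nat_lit 727) (.e (nat_lit 303133) (nat_lit 9) (.e (nat_lit 426499) (nat_lit 27) (.e (nat_lit 336107) (nat_lit 9) .nil))) (.g (nat_lit 0) (.e (nat_lit 285893) (nat_lit 0) .nil) .nil))))) (.nd (nat_lit 8) (.nd (nat_lit 9) 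
(.lf (nat_lit 546997) (.g (nat_lit 1967) (.e (nat_lit 303117) (nat_lit 2) (.e (nat_lit 196666) (nat_lit 13) (.e (nat_lit 65546) (nat_lit 0) (.e (nat_lit 6489) (nat_lit 343) (.e (nat_lit 1253) (nat_lit 92) .nil))))) (.g (nat_lit 0) (.e (nat_lit 284495) (nat_lit 0) .nil) .nil))) 
(.lf (nat_lit 547509) (.g (nat_lit 3841) (.e (nat_lit 303119) (nat_lit 3) (.e (nat_lit 204869) (nat_lit 29) (.e (nat_lit 360474) (nat_lit 8) (.e (nat_lit 557084) (nat_lit 10) .nil)))) (.g (nat_lit 0) (.e (nat_lit 285309) (nat_lit 0) .nil) .nil)))) (.nd (nat_lit 9) 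
(.lf (nat_lit 547253) (.g (nat_lit 2859) (.e (nat_lit 303118) (nat_lit 3) (.e (nat_lit 204868) (nat_lit 29) (.e (nat_lit 360466) (nat_lit 3) (.e (nat_lit 516139) (nat_lit 7) (.e (nat_lit 417536) (nat_lit 18) .nil))))) (.g (nat_lit 1) (.e (nat_lit 284839) (nat_lit 0) .nil) .nil))) 
(.lf (nat_lit 547765) (.g (nat_lit 1034) (.e (nat_lit 303143) (nat_lit 12) (.e (nat_lit 475185) (nat_lit 29) (.e (nat_lit 557100) (nat_lit 13) (.e (nat_lit 172113) (nat_lit 10) .nil)))) (.g (nat_lit 0) (.e (nat_lit 286752) (nat_lit 0) .nil) .nil)))))) (.nd (nat_lit 7) (.nd (nat_lit 8) (.nd (nat_lit 9) 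
(.lf (nat_lit 546933) (.g (nat_lit 1938) (.e (nat_lit 303116) (nat_lit 2) (.e (nat_lit 196666) (nat_lit 13) (.e (nat_lit 65610) (nat_lit 10) (.e (nat_lit 344117) (nat_lit 21) (.e (nat_lit 516106) (nat_lit 0) (.e (nat_lit 6966) (nat_lit 377) (.e (nat_lit 2804) (nat_lit 180) .nil))))))) (.g (nat_lit 1) (.e (nat_lit 284404) (nat_lit 0) .nil) .nil))) 
(.lf (nat_lit 547445) (.g (nat_lit 419) (.e (nat_lit 303119) (nat_lit 3) (.e (nat_lit 204866) (nat_lit 28) (.e (nat_lit 352313) (nat_lit 23) .nil))) (.g (nat_lit 0) (.e (nat_lit 285149) (nat_lit 0) .nil) .nil)))) (.nd (nat_lit 9) 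
(.lf (nat_lit 547189) (.g (nat_lit 1082) (.e (nat_lit 311040) (nat_lit 2) (.e (nat_lit 196681) (nat_lit 17) (.e (nat_lit 131104) (nat_lit 9) .nil))) (.g (nat_lit 0) (.e (nat_lit 284713) (nat_lit 0) .nil) .nil))) 
(.lf (nat_lit 547701) (.g (nat_lit 331) (.e (nat_lit 303140) (nat_lit 10) (.e (nat_lit 434275) (nat_lit 39) (.e (nat_lit 663580) (nat_lit 9) .nil))) (.g (nat_lit 0) (.e (nat_lit 286566) (nat_lit 0) .nil) .nil))))) (.nd (nat_lit 8) (.nd (nat_lit 9) 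
(.lf (nat_lit 547061) (.g (nat_lit 4011) (.e (nat_lit 303117) (nat_lit 2) (.e (nat_lit 196666) (nat_lit 13) (.e (nat_lit 65610) (nat_lit 10) (.e (nat_lit 344117) (nat_lit 21) (.e (nat_lit 516138) (nat_lit 7) (.e (nat_lit 409643) (nat_lit 18) .nil)))))) (.g (nat_lit 1) (.e (nat_lit 284568) (nat_lit 0) .nil) .nil))) 
(.lf (nat_lit 547573) (.g (nat_lit 443) (.e (nat_lit 303124) (nat_lit 7) (.e (nat_lit 409636) (nat_lit 14) (.e (nat_lit 270373) (nat_lit 16) (.e (nat_lit 286740) (nat_lit 7) (.e (nat_lit 319527) (nat_lit 15) (.e (nat_lit 278547) (nat_lit 8) .nil)))))) (.g (nat_lit 1) (.e (nat_lit 285512) (nat_lit 0) .nil) .nil)))) (.nd (nat_lit 9) 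
(.lf (nat_lit 547317) (.g (nat_lit 3029) (.e (nat_lit 303119) (nat_lit 3) (.e (nat_lit 204845) (nat_lit 24) (.e (nat_lit 319490) (nat_lit 0) (.e (nat_lit 5664) (nat_lit 312) (.e (nat_lit 2679) (nat_lit 168) .nil))))) (.g (nat_lit 0) (.e (nat_lit 284929) (nat_lit 0) .nil) .nil))) 
(.lf (nat_lit 547829) (.g (nat_lit 1075) (.e (nat_lit 303143) (nat_lit 12) (.e (nat_lit 475211) (nat_lit 41) (.e (nat_lit 712753) (nat_lit 30) (.e (nat_lit 450561) (nat_lit 0) .nil)))) (.g (nat_lit 0) (.e (nat_lit 286882) (nat_lit 0) .nil) .nil))))))))) (.nd (nat_lit 4) (.nd (nat_lit 5) (.nd (nat_lit 6) (.nd (nat_lit 7) (.nd (nat_lit 8) (.nd (nat_lit 9) 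
(.lf (nat_lit 546829) (.g (nat_lit 2559) (.e (nat_lit 303107) (nat_lit 0) (.e (nat_lit 3238) (nat_lit 197) (.e (nat_lit 532535) (nat_lit 9) (.e (nat_lit 336173) (nat_lit 10) .nil)))) (.g (nat_lit 0) (.e (nat_lit 284134) (nat_lit 0) .nil) .nil))) 
(.lf (nat_lit 547341) (.g (nat_lit 2554) (.e (nat_lit 303119) (nat_lit 3) (.e (nat_lit 204846) (nat_lit 24) (.e (nat_lit 319528) (nat_lit 16) (.e (nat_lit 286735) (nat_lit 3) (.e (nat_lit 98350) (nat_lit 24) (.e (nat_lit 417536) (nat_lit 8) .nil)))))) (.g (nat_lit 1) (.e (nat_lit 284986) (nat_lit 0) .nil) .nil)))) (.nd (nat_lit 9) 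
(.lf (nat_lit 547085) (.g (nat_lit 1663) (.e (nat_lit 303117) (nat_lit 2) (.e (nat_lit 196666) (nat_lit 13) (.e (nat_lit 65629) (nat_lit 14) (.e (nat_lit 401428) (nat_lit 3) .nil)))) (.g (nat_lit 0) (.e (nat_lit 284594) (nat_lit 0) .nil) .nil))) 
(.lf (nat_lit 547597) (.g (nat_lit 2046) (.e (nat_lit 303127) (nat_lit 9) (.e (nat_lit 426558) (nat_lit 33) (.e (nat_lit 392960) (nat_lit 5) (.e (nat_lit 73755) (nat_lit 8) (.e (nat_lit 557119) (nat_lit 18) (.e (nat_lit 2796) (nat_lit 180) .nil)))))) (.g (nat_lit 1) (.e (nat_lit 285646) (nat_lit 0) .nil) .nil))))) (.nd (nat_lit 8) (.nd (nat_lit 9) 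
(.lf (nat_lit 546957) (.g (nat_lit 1780) (.e (nat_lit 303116) (nat_lit 2) (.e (nat_lit 196666) (nat_lit 13) (.e (nat_lit 65630) (nat_lit 14) (.e (nat_lit 401428) (nat_lit 3) .nil)))) (.g (nat_lit 0) (.e (nat_lit 284428) (nat_lit 0) .nil) .nil))) 
(.lf (nat_lit 547469) (.g (nat_lit 2528) (.e (nat_lit 303119) (nat_lit 3) (.e (nat_lit 204868) (nat_lit 29) (.e (nat_lit 360466) (nat_lit 3) (.e (nat_lit 516139) (nat_lit 7) (.e (nat_lit 409645) (nat_lit 18) .nil))))) (.g (nat_lit 0) (.e (nat_lit 285190) (nat_lit 0) .nil) .nil)))) (.nd (nat_lit 9) 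
(.lf (nat_lit 547213) (.g (nat_lit 3392) (.e (nat_lit 303118) (nat_lit 3) (.e (nat_lit 204855) (nat_lit 26) (.e (nat_lit 336099) (nat_lit 9) (.e (nat_lit 336013) (nat_lit 2) (.e (nat_lit 90161) (nat_lit 12) .nil))))) (.g (nat_lit 0) (.e (nat_lit 284761) (nat_lit 0) .nil) .nil))) 
(.lf (nat_lit 547725) (.g (nat_lit 1024) (.e (nat_lit 303142) (nat_lit 12) (.e (nat_lit 475214) (nat_lit 42) (.e (nat_lit 720955) (nat_lit 25) .nil))) (.g (nat_lit 0) (.e (nat_lit 286662) (nat_lit 0) .nil) .nil)))))) (.nd (nat_lit 7) (.nd (nat_lit 8) (.nd (nat_lit 9) 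
(.lf (nat_lit 546893) (.g (nat_lit 4209) (.e (nat_lit 303111) (nat_lit 0) (.e (nat_lit 3238) (nat_lit 197) (.e (nat_lit 532535) (nat_lit 9) (.e (nat_lit 336099) (nat_lit 9) (.e (nat_lit 343808) (nat_lit 3) (.e (nat_lit 98350) (nat_lit 24) (.e (nat_lit 409649) (nat_lit 18) .nil))))))) (.g (nat_lit 1) (.e (nat_lit 284266) (nat_lit 0) .nil) .nil))) 
(.lf (nat_lit 547405) (.g (nat_lit 829) (.e (nat_lit 303119) (nat_lit 3) (.e (nat_lit 204855) (nat_lit 26) (.e (nat_lit 336095) (nat_lit 9) .nil))) (.g (nat_lit 0) (.e (nat_lit 285063) (nat_lit 0) .nil) .nil)))) (.nd (nat_lit 9) 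
(.lf (nat_lit 547149) (.g (nat_lit 414) (.e (nat_lit 303117) (nat_lit 2) (.e (nat_lit 196674) (nat_lit 15) (.e (nat_lit 81952) (nat_lit 22) .nil))) (.g (nat_lit 0) (.e (nat_lit 284669) (nat_lit 0) .nil) .nil))) 
(.lf (nat_lit 547661) (.g (nat_lit 1072) (.e (nat_lit 303137) (nat_lit 10) (.e (nat_lit 434268) (nat_lit 36) (.e (nat_lit 639020) (nat_lit 16) (.e (nat_lit 65581) (nat_lit 7) .nil)))) (.g (nat_lit 0) (.e (nat_lit 286270) (nat_lit 0) .nil) .nil))))) (.nd (nat_lit 8) (.nd (nat_lit 9) 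
(.lf (nat_lit 547021) (.g (nat_lit 4940) (.e (nat_lit 303117) (nat_lit 2) (.e (nat_lit 196666) (nat_lit 13) (.e (nat_lit 65610) (nat_lit 10) (.e (nat_lit 344117) (nat_lit 21) (.e (nat_lit 516097) (nat_lit 0) (.e (nat_lit 7026) (nat_lit 377) (.e (nat_lit 2805) (nat_lit 180) .nil))))))) (.g (nat_lit 1) (.e (nat_lit 284528) (nat_lit 0) .nil) .nil))) 
(.lf (nat_lit 547533) (.g (nat_lit 2084) (.e (nat_lit 303119) (nat_lit 3) (.e (nat_lit 204870) (nat_lit 29) (.e (nat_lit 360466) (nat_lit 3) (.e (nat_lit 516139) (nat_lit 7) (.e (nat_lit 409644) (nat_lit 18) .nil))))) (.g (nat_lit 0) (.e (nat_lit 285371) (nat_lit 0) .nil) .nil)))) (.nd (nat_lit 9) 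
(.lf (nat_lit 547277) (.g (nat_lit 451) (.e (nat_lit 303118) (nat_lit 3) (.e (nat_lit 204869) (nat_lit 29) (.e (nat_lit 360468) (nat_lit 3) .nil))) (.g (nat_lit 0) (.e (nat_lit 284867) (nat_lit 0) .nil) .nil))) 
(.lf (nat_lit 547789) (.g (nat_lit 2752) (.e (nat_lit 303143) (nat_lit 12) (.e (nat_lit 475185) (nat_lit 29) (.e (nat_lit 557101) (nat_lit 13) (.e (nat_lit 172115) (nat_lit 10) (.e (nat_lit 434226) (nat_lit 20) (.e (nat_lit 507944) (nat_lit 18) .nil)))))) (.g (nat_lit 1) (.e (nat_lit 286780) (nat_lit 0) .nil) .nil))))))) (.nd (nat_lit 6) (.nd (nat_lit 7) (.nd (nat_lit 8) (.nd (nat_lit 9) 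
(.lf (nat_lit 546861) (.g (nat_lit 1423) (.e (nat_lit 303110) (nat_lit 0) (.e (nat_lit 3238) (nat_lit 197) (.e (nat_lit 532547) (nat_lit 11) (.e (nat_lit 352314) (nat_lit 23) .nil)))) (.g (nat_lit 0) (.e (nat_lit 284187) (nat_lit 0) .nil) .nil))) 
(.lf (nat_lit 547373) (.g (nat_lit 1844) (.e (nat_lit 303119) (nat_lit 3) (.e (nat_lit 204849) (nat_lit 25) (.e (nat_lit 327698) (nat_lit 8) (.e (nat_lit 303118) (nat_lit 3) (.e (nat_lit 204819) (nat_lit 17) (.e (nat_lit 6113) (nat_lit 332) (.e (nat_lit 2810) (nat_lit 180) .nil))))))) (.g (nat_lit 1) (.e (nat_lit 285021) (nat_lit 0) .nil) .nil)))) (.nd (nat_lit 9) 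
(.lf (nat_lit 547117) (.g (nat_lit 937) (.e (nat_lit 303117) (nat_lit 2) (.e (nat_lit 196672) (nat_lit 15) (.e (nat_lit 81956) (nat_lit 23) (.e (nat_lit 98325) (nat_lit 17) .nil)))) (.g (nat_lit 0) (.e (nat_lit 284633) (nat_lit 0) .nil) .nil))) 
(.lf (nat_lit 547629) (.g (nat_lit 604) (.e (nat_lit 303133) (nat_lit 9) (.e (nat_lit 426412) (nat_lit 15) (.e (nat_lit 2230) (nat_lit 146) .nil))) (.g (nat_lit 0) (.e (nat_lit 285844) (nat_lit 0) .nil) .nil))))) (.nd (nat_lit 8) (.nd (nat_lit 9) 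
(.lf (nat_lit 546989) (.g (nat_lit 3427) (.e (nat_lit 303117) (nat_lit 2) (.e (nat_lit 196665) (nat_lit 13) (.e (nat_lit 65589) (nat_lit 9) (.e (nat_lit 336013) (nat_lit 2) (.e (nat_lit 90165) (nat_lit 12) (.e (nat_lit 164208) (nat_lit 176) (.e (nat_lit 2810) (nat_lit 180) .nil))))))) (.g (nat_lit 1) (.e (nat_lit 284480) (nat_lit 0) .nil) .nil))) 
(.lf (nat_lit 547501) (.g (nat_lit 1536) (.e (nat_lit 303119) (nat_lit 3) (.e (nat_lit 204869) (nat_lit 29) (.e (nat_lit 360472) (nat_lit 8) (.e (nat_lit 557067) (nat_lit 9) .nil)))) (.g (nat_lit 0) (.e (nat_lit 285276) (nat_lit 0) .nil) .nil)))) (.nd (nat_lit 9) 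
(.lf (nat_lit 547245) (.g (nat_lit 503) (.e (nat_lit 303118) (nat_lit 3) (.e (nat_lit 204868) (nat_lit 29) (.e (nat_lit 360466) (nat_lit 3) .nil))) (.g (nat_lit 0) (.e (nat_lit 284831) (nat_lit 0) .nil) .nil))) 
(.lf (nat_lit 547757) (.g (nat_lit 2268) (.e (nat_lit 303143) (nat_lit 12) (.e (nat_lit 475185) (nat_lit 29) (.e (nat_lit 557100) (nat_lit 13) (.e (nat_lit 172106) (nat_lit 10) (.e (nat_lit 434223) (nat_lit 19) (.e (nat_lit 507648) (nat_lit 0) (.e (nat_lit 2797) (nat_lit 180) .nil))))))) (.g (nat_lit 1) (.e (nat_lit 286743) (nat_lit 0) .nil) .nil)))))) 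
(.nd (nat_lit 7) (.nd (nat_lit 8) (.nd (nat_lit 9) 
(.lf (nat_lit 546925) (.g (nat_lit 3723) (.e (nat_lit 303116) (nat_lit 2) (.e (nat_lit 196666) (nat_lit 13) (.e (nat_lit 65610) (nat_lit 10) (.e (nat_lit 344117) (nat_lit 21) (.e (nat_lit 516097) (nat_lit 0) (.e (nat_lit 7026) (nat_lit 377) (.e (nat_lit 2805) (nat_lit 180) .nil))))))) (.g (nat_lit 1) (.e (nat_lit 284396) (nat_lit 0) .nil) .nil))) 
(.lf (nat_lit 547437) (.g (nat_lit 2111) (.e (nat_lit 303119) (nat_lit 3) (.e (nat_lit 204861) (nat_lit 26) (.e (nat_lit 336186) (nat_lit 11) (.e (nat_lit 368676) (nat_lit 21) (.e (nat_lit 516096) (nat_lit 0) .nil))))) (.g (nat_lit 0) (.e (nat_lit 285121) (nat_lit 0) .nil) .nil)))) (.nd (nat_lit 9) 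
(.lf (nat_lit 547181) (.g (nat_lit 1472) (.e (nat_lit 311040) (nat_lit 2) (.e (nat_lit 196672) (nat_lit 15) (.e (nat_lit 81928) (nat_lit 20) (.e (nat_lit 1788) (nat_lit 119) (.e (nat_lit 516139) (nat_lit 7) .nil))))) (.g (nat_lit 0) (.e (nat_lit 284705) (nat_lit 0) .nil) .nil))) 
(.lf (nat_lit 547693) (.g (nat_lit 1072) (.e (nat_lit 303139) (nat_lit 10) (.e (nat_lit 434268) (nat_lit 36) (.e (nat_lit 639020) (nat_lit 16) (.e (nat_lit 65586) (nat_lit 7) .nil)))) (.g (nat_lit 0) (.e (nat_lit 286437) (nat_lit 0) .nil) .nil))))) (.nd (nat_lit 8) (.nd (nat_lit 9) 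
(.lf (nat_lit 547053) (.g (nat_lit 3432) (.e (nat_lit 303117) (nat_lit 2) (.e (nat_lit 196666) (nat_lit 13) (.e (nat_lit 65610) (nat_lit 10) (.e (nat_lit 344117) (nat_lit 21) (.e (nat_lit 516106) (nat_lit 0) (.e (nat_lit 7014) (nat_lit 377) (.e (nat_lit 2804) (nat_lit 180) .nil))))))) (.g (nat_lit 1) (.e (nat_lit 284560) (nat_lit 0) .nil) .nil))) 
(.lf (nat_lit 547565) (.g (nat_lit 1881) (.e (nat_lit 311040) (nat_lit 3) (.e (nat_lit 204866) (nat_lit 28) (.e (nat_lit 352315) (nat_lit 23) (.e (nat_lit 98350) (nat_lit 24) .nil)))) (.g (nat_lit 0) (.e (nat_lit 285413) (nat_lit 0) .nil) .nil)))) (.nd (nat_lit 9) 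
(.lf (nat_lit 547309) (.g (nat_lit 197) (.e (nat_lit 303119) (nat_lit 3) (.e (nat_lit 204819) (nat_lit 17) (.e (nat_lit 6113) (nat_lit 332) .nil))) (.g (nat_lit 0) (.e (nat_lit 284908) (nat_lit 0) .nil) .nil))) 
(.lf (nat_lit 547821) (.g (nat_lit 5836) (.e (nat_lit 303143) (nat_lit 12) (.e (nat_lit 475185) (nat_lit 29) (.e (nat_lit 557109) (nat_lit 15) (.e (nat_lit 188449) (nat_lit 22) (.e (nat_lit 196683) (nat_lit 18) (.e (nat_lit 2810) (nat_lit 180) .nil)))))) (.g (nat_lit 1) (.e (nat_lit 286819) (nat_lit 0) .nil) .nil)))))))) 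
(.nd (nat_lit 5) (.nd (nat_lit 6) (.nd (nat_lit 7) (.nd (nat_lit 8) (.nd (nat_lit 9) 
(.lf (nat_lit 546845) (.g (nat_lit 1663) (.e (nat_lit 303108) (nat_lit 0) (.e (nat_lit 3238) (nat_lit 197) (.e (nat_lit 532560) (nat_lit 14) (.e (nat_lit 376863) (nat_lit 22) (.e (nat_lit 90130) (nat_lit 9) .nil))))) (.g (nat_lit 0) (.e (nat_lit 284162) (nat_lit 0) .nil) .nil))) 
(.lf (nat_lit 547357) (.g (nat_lit 2460) (.e (nat_lit 303119) (nat_lit 3) (.e (nat_lit 204846) (nat_lit 24) (.e (nat_lit 319533) (nat_lit 16) (.e (nat_lit 286732) (nat_lit 2) (.e (nat_lit 90165) (nat_lit 12) .nil))))) (.g (nat_lit 0) (.e (nat_lit 285004) (nat_lit 0) .nil) .nil)))) (.nd (nat_lit 9) 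
(.lf (nat_lit 547101) (.g (nat_lit 420) (.e (nat_lit 303117) (nat_lit 2) (.e (nat_lit 196672) (nat_lit 15) (.e (nat_lit 81952) (nat_lit 22) .nil))) (.g (nat_lit 0) (.e (nat_lit 284616) (nat_lit 0) .nil) .nil))) 
(.lf (nat_lit 547613) (.g (nat_lit 1288) (.e (nat_lit 303133) (nat_lit 9) (.e (nat_lit 426412) (nat_lit 15) (.e (nat_lit 1856) (nat_lit 124) (.e (nat_lit 557107) (nat_lit 15) .nil)))) (.g (nat_lit 0) (.e (nat_lit 285800) (nat_lit 0) .nil) .nil))))) (.nd (nat_lit 8) (.nd (nat_lit 9) 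
(.lf (nat_lit 546973) (.g (nat_lit 3801) (.e (nat_lit 303116) (nat_lit 2) (.e (nat_lit 196674) (nat_lit 15) (.e (nat_lit 81956) (nat_lit 23) (.e (nat_lit 98350) (nat_lit 24) (.e (nat_lit 409649) (nat_lit 18) .nil))))) (.g (nat_lit 1) (.e (nat_lit 284447) (nat_lit 0) .nil) .nil))) 
(.lf (nat_lit 547485) (.g (nat_lit 2958) (.e (nat_lit 303119) (nat_lit 3) (.e (nat_lit 204868) (nat_lit 29) (.e (nat_lit 360475) (nat_lit 8) (.e (nat_lit 557068) (nat_lit 9) (.e (nat_lit 220) (nat_lit 20) .nil))))) (.g (nat_lit 0) (.e (nat_lit 285208) (nat_lit 0) .nil) .nil)))) (.nd (nat_lit 9) 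
(.lf (nat_lit 547229) (.g (nat_lit 670) (.e (nat_lit 303118) (nat_lit 3) (.e (nat_lit 204861) (nat_lit 26) (.e (nat_lit 335892) (nat_lit 0) .nil))) (.g (nat_lit 0) (.e (nat_lit 284793) (nat_lit 0) .nil) .nil))) 
(.lf (nat_lit 547741) (.g (nat_lit 2612) (.e (nat_lit 303143) (nat_lit 12) (.e (nat_lit 475185) (nat_lit 29) (.e (nat_lit 557100) (nat_lit 13) (.e (nat_lit 172092) (nat_lit 9) (.e (nat_lit 426113) (nat_lit 2) .nil))))) (.g (nat_lit 0) (.e (nat_lit 286724) (nat_lit 0) .nil) .nil)))))) (.nd (nat_lit 7) (.nd (nat_lit 8) (.nd (nat_lit 9) 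
(.lf (nat_lit 546909) (.g (nat_lit 902) (.e (nat_lit 303111) (nat_lit 0) (.e (nat_lit 3468) (nat_lit 217) (.e (nat_lit 696344) (nat_lit 8) (.e (nat_lit 172123) (nat_lit 13) .nil)))) (.g (nat_lit 0) (.e (nat_lit 284309) (nat_lit 0) .nil) .nil))) 
(.lf (nat_lit 547421) (.g (nat_lit 1914) (.e (nat_lit 303119) (nat_lit 3) (.e (nat_lit 204855) (nat_lit 26) (.e (nat_lit 336172) (nat_lit 10) (.e (nat_lit 344117) (nat_lit 21) (.e (nat_lit 516139) (nat_lit 7) .nil))))) (.g (nat_lit 0) (.e (nat_lit 285096) (nat_lit 0) .nil) .nil)))) (.nd (nat_lit 9) 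
(.lf (nat_lit 547165) (.g (nat_lit 1868) (.e (nat_lit 303117) (nat_lit 2) (.e (nat_lit 196674) (nat_lit 15) (.e (nat_lit 81956) (nat_lit 23) (.e (nat_lit 98325) (nat_lit 17) (.e (nat_lit 7015) (nat_lit 377) .nil))))) (.g (nat_lit 0) (.e (nat_lit 284688) (nat_lit 0) .nil) .nil))) 
(.lf (nat_lit 547677) (.g (nat_lit 1131) (.e (nat_lit 303138) (nat_lit 10) (.e (nat_lit 434268) (nat_lit 36) (.e (nat_lit 639020) (nat_lit 16) (.e (nat_lit 65586) (nat_lit 7) .nil)))) (.g (nat_lit 0) (.e (nat_lit 286372) (nat_lit 0) .nil) .nil))))) (.nd (nat_lit 8) (.nd (nat_lit 9) 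
(.lf (nat_lit 547037) (.g (nat_lit 3482) (.e (nat_lit 303117) (nat_lit 2) (.e (nat_lit 196666) (nat_lit 13) (.e (nat_lit 65610) (nat_lit 10) (.e (nat_lit 344117) (nat_lit 21) (.e (nat_lit 516102) (nat_lit 0) (.e (nat_lit 6970) (nat_lit 377) (.e (nat_lit 7936) (nat_lit 180) .nil))))))) (.g (nat_lit 1) (.e (nat_lit 284544) (nat_lit 0) .nil) .nil))) 
(.lf (nat_lit 547549) (.g (nat_lit 2358) (.e (nat_lit 303119) (nat_lit 3) (.e (nat_lit 204878) (nat_lit 31) (.e (nat_lit 376862) (nat_lit 22) (.e (nat_lit 90130) (nat_lit 9) (.e (nat_lit 2830) (nat_lit 182) (.e (nat_lit 417536) (nat_lit 18) .nil)))))) (.g (nat_lit 1) (.e (nat_lit 285393) (nat_lit 0) .nil) .nil)))) (.nd (nat_lit 9) 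
(.lf (nat_lit 547293) (.g (nat_lit 2834) (.e (nat_lit 303118) (nat_lit 3) (.e (nat_lit 204869) (nat_lit 29) (.e (nat_lit 360475) (nat_lit 8) (.e (nat_lit 557089) (nat_lit 12) .nil)))) (.g (nat_lit 0) (.e (nat_lit 284886) (nat_lit 0) .nil) .nil))) 
(.lf (nat_lit 547805) (.g (nat_lit 3664) (.e (nat_lit 303143) (nat_lit 12) (.e (nat_lit 475185) (nat_lit 29) (.e (nat_lit 557107) (nat_lit 15) (.e (nat_lit 188447) (nat_lit 22) (.e (nat_lit 196688) (nat_lit 18) (.e (nat_lit 2802) (nat_lit 180) .nil)))))) (.g (nat_lit 1) (.e (nat_lit 286802) (nat_lit 0) .nil) .nil))))))) (.nd (nat_lit 6) (.nd (nat_lit 7) (.nd (nat_lit 8) (.nd (nat_lit 9) 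
(.lf (nat_lit 546877) (.g (nat_lit 2358) (.e (nat_lit 303112) (nat_lit 0) (.e (nat_lit 3252) (nat_lit 197) (.e (nat_lit 532558) (nat_lit 14) (.e (nat_lit 376868) (nat_lit 23) (.e (nat_lit 98350) (nat_lit 24) (.e (nat_lit 417536) (nat_lit 18) .nil)))))) (.g (nat_lit 1) (.e (nat_lit 284215) (nat_lit 0) .nil) .nil))) 
(.lf (nat_lit 547389) (.g (nat_lit 2132) (.e (nat_lit 303119) (nat_lit 3) (.e (nat_lit 204852) (nat_lit 26) (.e (nat_lit 336134) (nat_lit 9) (.e (nat_lit 336028) (nat_lit 3) (.e (nat_lit 98350) (nat_lit 24) .nil))))) (.g (nat_lit 0) (.e (nat_lit 285041) (nat_lit 0) .nil) .nil)))) (.nd (nat_lit 9) 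
(.lf (nat_lit 547133) (.g (nat_lit 2094) (.e (nat_lit 303117) (nat_lit 2) (.e (nat_lit 196673) (nat_lit 15) (.e (nat_lit 81956) (nat_lit 23) (.e (nat_lit 98325) (nat_lit 17) (.e (nat_lit 6986) (nat_lit 377) .nil))))) (.g (nat_lit 0) (.e (nat_lit 284653) (nat_lit 0) .nil) .nil))) 
(.lf (nat_lit 547645) (.g (nat_lit 2506) (.e (nat_lit 303132) (nat_lit 9) (.e (nat_lit 426470) (nat_lit 25) (.e (nat_lit 319490) (nat_lit 0) (.e (nat_lit 5664) (nat_lit 312) (.e (nat_lit 2852) (nat_lit 184) (.e (nat_lit 426477) (nat_lit 26) (.e (nat_lit 327700) (nat_lit 8) .nil))))))) (.g (nat_lit 1) (.e (nat_lit 286049) (nat_lit 0) .nil) .nil))))) (.nd (nat_lit 8) (.nd (nat_lit 9) 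
(.lf (nat_lit 547005) (.g (nat_lit 3059) (.e (nat_lit 303117) (nat_lit 2) (.e (nat_lit 196666) (nat_lit 13) (.e (nat_lit 65596) (nat_lit 9) (.e (nat_lit 336013) (nat_lit 2) (.e (nat_lit 90165) (nat_lit 12) (.e (nat_lit 164207) (nat_lit 176) (.e (nat_lit 2804) (nat_lit 180) .nil))))))) (.g (nat_lit 1) (.e (nat_lit 284507) (nat_lit 0) .nil) .nil))) 
(.lf (nat_lit 547517) (.g (nat_lit 5818) (.e (nat_lit 303119) (nat_lit 3) (.e (nat_lit 204869) (nat_lit 29) (.e (nat_lit 360475) (nat_lit 8) (.e (nat_lit 557067) (nat_lit 9) (.e (nat_lit 220) (nat_lit 20) (.e (nat_lit 327700) (nat_lit 8) .nil)))))) (.g (nat_lit 1) (.e (nat_lit 285335) (nat_lit 0) .nil) .nil)))) (.nd (nat_lit 9) 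
(.lf (nat_lit 547261) (.g (nat_lit 3131) (.e (nat_lit 303118) (nat_lit 3) (.e (nat_lit 204868) (nat_lit 29) (.e (nat_lit 360473) (nat_lit 8) (.e (nat_lit 557067) (nat_lit 9) (.e (nat_lit 220) (nat_lit 20) (.e (nat_lit 327700) (nat_lit 8) .nil)))))) (.g (nat_lit 1) (.e (nat_lit 284847) (nat_lit 0) .nil) .nil))) 
(.lf (nat_lit 547773) (.g (nat_lit 2950) (.e (nat_lit 303143) (nat_lit 12) (.e (nat_lit 475185) (nat_lit 29) (.e (nat_lit 557100) (nat_lit 13) (.e (nat_lit 172113) (nat_lit 10) (.e (nat_lit 434227) (nat_lit 20) (.e (nat_lit 507945) (nat_lit 18) .nil)))))) (.g (nat_lit 1) (.e (nat_lit 286761) (nat_lit 0) .nil) .nil)))))) (.nd (nat_lit 7) (.nd (nat_lit 8) (.nd (nat_lit 9) 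
(.lf (nat_lit 546941) (.g (nat_lit 2671) (.e (nat_lit 303116) (nat_lit 2) (.e (nat_lit 196666) (nat_lit 13) (.e (nat_lit 65610) (nat_lit 10) (.e (nat_lit 344117) (nat_lit 21) (.e (nat_lit 524032) (nat_lit 7) .nil))))) (.g (nat_lit 0) (.e (nat_lit 284412) (nat_lit 0) .nil) .nil))) 
(.lf (nat_lit 547453) (.g (nat_lit 3211) (.e (nat_lit 303119) (nat_lit 3) (.e (nat_lit 204866) (nat_lit 28) (.e (nat_lit 352315) (nat_lit 23) (.e (nat_lit 98350) (nat_lit 24) (.e (nat_lit 409643) (nat_lit 18) .nil))))) (.g (nat_lit 1) (.e (nat_lit 285166) (nat_lit 0) .nil) .nil)))) (.nd (nat_lit 9) 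
(.lf (nat_lit 547197) (.g (nat_lit 2019) (.e (nat_lit 303118) (nat_lit 3) (.e (nat_lit 204846) (nat_lit 24) (.e (nat_lit 319528) (nat_lit 16) (.e (nat_lit 286735) (nat_lit 3) (.e (nat_lit 98350) (nat_lit 24) (.e (nat_lit 417536) (nat_lit 8) .nil)))))) (.g (nat_lit 1) (.e (nat_lit 284729) (nat_lit 0) .nil) .nil))) 
(.lf (nat_lit 547709) (.g (nat_lit 2629) (.e (nat_lit 303142) (nat_lit 12) (.e (nat_lit 475185) (nat_lit 29) (.e (nat_lit 557107) (nat_lit 15) (.e (nat_lit 188441) (nat_lit 20) (.e (nat_lit 3205) (nat_lit 194) (.e (nat_lit 507946) (nat_lit 18) .nil)))))) (.g (nat_lit 1) (.e (nat_lit 286633) (nat_lit 0) .nil) .nil))))) (.nd (nat_lit 8) (.nd (nat_lit 9) 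
(.lf (nat_lit 547069) (.g (nat_lit 3040) (.e (nat_lit 303117) (nat_lit 2) (.e (nat_lit 196666) (nat_lit 13) (.e (nat_lit 65610) (nat_lit 10) (.e (nat_lit 344129) (nat_lit 26) (.e (nat_lit 557067) (nat_lit 9) (.e (nat_lit 20) (nat_lit 0) (.e (nat_lit 6082) (nat_lit 332) (.e (nat_lit 2809) (nat_lit 180) .nil)))))))) (.g (nat_lit 1) (.e (nat_lit 284577) (nat_lit 0) .nil) .nil))) 
(.lf (nat_lit 547581) (.g (nat_lit 1457) (.e (nat_lit 303124) (nat_lit 7) (.e (nat_lit 409646) (nat_lit 18) (.e (nat_lit 303140) (nat_lit 10) (.e (nat_lit 434275) (nat_lit 39) .nil)))) (.g (nat_lit 0) (.e (nat_lit 285530) (nat_lit 0) .nil) .nil)))) (.nd (nat_lit 9) 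
(.lf (nat_lit 547325) (.g (nat_lit 1508) (.e (nat_lit 303119) (nat_lit 3) (.e (nat_lit 204846) (nat_lit 24) (.e (nat_lit 319490) (nat_lit 0) (.e (nat_lit 5277) (nat_lit 298) .nil)))) (.g (nat_lit 0) (.e (nat_lit 284945) (nat_lit 0) .nil) .nil))) 
(.lf (nat_lit 547837) (.g (nat_lit 1830) (.e (nat_lit 303143) (nat_lit 12) (.e (nat_lit 475212) (nat_lit 42) (.e (nat_lit 720947) (nat_lit 24) (.e (nat_lit 106536) (nat_lit 11) (.e (nat_lit 16425) (nat_lit 7) .nil))))) (.g (nat_lit 0) (.e (nat_lit 286950) (nat_lit 0) .nil) .nil))))))))))) 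
(.nd (nat_lit 2) (.nd (nat_lit 3) (.nd (nat_lit 4) (.nd (nat_lit 5) (.nd (nat_lit 6) 
(.nd (nat_lit 7) (.nd (nat_lit 8) (.nd (nat_lit 9) 
(.lf (nat_lit 546819) (.g (nat_lit 1921) (.e (nat_lit 303106) (nat_lit 0) (.e (nat_lit 3114) (nat_lit 193) (.e (nat_lit 500075) (nat_lit 20) (.e (nat_lit 81955) (nat_lit 23) (.e (nat_lit 98323) (nat_lit 17) (.e (nat_lit 6989) (nat_lit 377) (.e (nat_lit 2810) (nat_lit 180) .nil))))))) (.g (nat_lit 1) (.e (nat_lit 284117) (nat_lit 0) .nil) .nil))) 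
(.lf (nat_lit 547331) (.g (nat_lit 1822) (.e (nat_lit 303119) (nat_lit 3) (.e (nat_lit 204846) (nat_lit 24) (.e (nat_lit 319504) (nat_lit 10) (.e (nat_lit 5390) (nat_lit 301) .nil)))) (.g (nat_lit 0) (.e (nat_lit 284960) (nat_lit 0) .nil) .nil)))) (.nd (nat_lit 9) 
(.lf (nat_lit 547075) (.g (nat_lit 696) (.e (nat_lit 303117) (nat_lit 2) (.e (nat_lit 196666) (nat_lit 13) (.e (nat_lit 65613) (nat_lit 10) (.e (nat_lit 344119) (nat_lit 21) .nil)))) (.g (nat_lit 0) (.e (nat_lit 284583) (nat_lit 0) .nil) .nil))) 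
(.lf (nat_lit 547587) (.g (nat_lit 2496) (.e (nat_lit 303127) (nat_lit 9) (.e (nat_lit 426449) (nat_lit 20) (.e (nat_lit 114722) (nat_lit 24) (.e (nat_lit 106534) (nat_lit 11) (.e (nat_lit 16392) (nat_lit 0) (.e (nat_lit 6989) (nat_lit 377) (.e (nat_lit 2810) (nat_lit 180) .nil))))))) (.g (nat_lit 1) (.e (nat_lit 285587) (nat_lit 0) .nil) .nil))))) (.nd (nat_lit 8) (.nd (nat_lit 9) 
(.lf (nat_lit 546947) (.g (nat_lit 1787) (.e (nat_lit 303116) (nat_lit 2) (.e (nat_lit 196666) (nat_lit 13) (.e (nat_lit 65617) (nat_lit 10) (.e (nat_lit 344118) (nat_lit 21) .nil)))) (.g (nat_lit 0) (.e (nat_lit 284418) (nat_lit 0) .nil) .nil))) 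
(.lf (nat_lit 547459) (.g (nat_lit 454) (.e (nat_lit 303119) (nat_lit 3) (.e (nat_lit 204868) (nat_lit 29) (.e (nat_lit 360459) (nat_lit 1) .nil))) (.g (nat_lit 0) (.e (nat_lit 285176) (nat_lit 0) .nil) .nil)))) (.nd (nat_lit 9) 
(.lf (nat_lit 547203) (.g (nat_lit 1019) (.e (nat_lit 303118) (nat_lit 3) (.e (nat_lit 204854) (nat_lit 26) (.e (nat_lit 336182) (nat_lit 11) .nil))) (.g (nat_lit 0) (.e (nat_lit 284735) (nat_lit 0) .nil) .nil))) 
(.lf (nat_lit 547715) (.g (nat_lit 1759) (.e (nat_lit 303142) (nat_lit 12) (.e (nat_lit 475211) (nat_lit 41) (.e (nat_lit 712753) (nat_lit 30) (.e (nat_lit 450595) (nat_lit 17) (.e (nat_lit 663589) (nat_lit 14) .nil))))) (.g (nat_lit 0) (.e (nat_lit 286651) (nat_lit 0) .nil) .nil)))))) (.nd (nat_lit 7) (.nd (nat_lit 8) (.nd (nat_lit 9) 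
(.lf (nat_lit 546883) (.g (nat_lit 2567) (.e (nat_lit 303112) (nat_lit 0) (.e (nat_lit 3252) (nat_lit 197) (.e (nat_lit 532561) (nat_lit 14) (.e (nat_lit 376862) (nat_lit 22) (.e (nat_lit 90130) (nat_lit 9) (.e (nat_lit 2830) (nat_lit 182) (.e (nat_lit 417536) (nat_lit 18) .nil))))))) (.g (nat_lit 1) (.e (nat_lit 284222) (nat_lit 0) .nil) .nil))) 
(.lf (nat_lit 547395) (.g (nat_lit 898) (.e (nat_lit 303119) (nat_lit 3) (.e (nat_lit 204852) (nat_lit 26) (.e (nat_lit 336161) (nat_lit 10) .nil))) (.g (nat_lit 0) (.e (nat_lit 285048) (nat_lit 0) .nil) .nil)))) (.nd (nat_lit 9) 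
(.lf (nat_lit 547139) (.g (nat_lit 2318) (.e (nat_lit 303117) (nat_lit 2) (.e (nat_lit 196673) (nat_lit 15) (.e (nat_lit 81962) (nat_lit 25) (.e (nat_lit 139289) (nat_lit 9) (.e (nat_lit 2438) (nat_lit 157) (.e (nat_lit 6989) (nat_lit 377) (.e (nat_lit 2810) (nat_lit 180) .nil))))))) (.g (nat_lit 1) (.e (nat_lit 284659) (nat_lit 0) .nil) .nil))) 
(.lf (nat_lit 547651) (.g (nat_lit 1072) (.e (nat_lit 303136) (nat_lit 10) (.e (nat_lit 434268) (nat_lit 36) (.e (nat_lit 639020) (nat_lit 16) (.e (nat_lit 65583) (nat_lit 7) .nil)))) (.g (nat_lit 0) (.e (nat_lit 286131) (nat_lit 0) .nil) .nil))))) (.nd (nat_lit 8) (.nd (nat_lit 9) 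
(.lf (nat_lit 547011) (.g (nat_lit 3094) (.e (nat_lit 303117) (nat_lit 2) (.e (nat_lit 196666) (nat_lit 13) (.e (nat_lit 65599) (nat_lit 9) (.e (nat_lit 336013) (nat_lit 2) (.e (nat_lit 90165) (nat_lit 12) (.e (nat_lit 164210) (nat_lit 176) (.e (nat_lit 2796) (nat_lit 180) .nil))))))) (.g (nat_lit 1) (.e (nat_lit 284516) (nat_lit 0) .nil) .nil))) 
(.lf (nat_lit 547523) (.g (nat_lit 5347) (.e (nat_lit 303119) (nat_lit 3) (.e (nat_lit 204869) (nat_lit 29) (.e (nat_lit 360475) (nat_lit 8) (.e (nat_lit 557073) (nat_lit 9) (.e (nat_lit 220) (nat_lit 20) (.e (nat_lit 327699) (nat_lit 8) .nil)))))) (.g (nat_lit 1) (.e (nat_lit 285354) (nat_lit 0) .nil) .nil)))) (.nd (nat_lit 9) 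
(.lf (nat_lit 547267) (.g (nat_lit 506) (.e (nat_lit 303118) (nat_lit 3) (.e (nat_lit 204869) (nat_lit 29) (.e (nat_lit 360466) (nat_lit 3) .nil))) (.g (nat_lit 0) (.e (nat_lit 284857) (nat_lit 0) .nil) .nil))) 
(.lf (nat_lit 547779) (.g (nat_lit 1509) (.e (nat_lit 303143) (nat_lit 12) (.e (nat_lit 475185) (nat_lit 29) (.e (nat_lit 557101) (nat_lit 13) (.e (nat_lit 172085) (nat_lit 9) .nil)))) (.g (nat_lit 0) (.e (nat_lit 286770) (nat_lit 0) .nil) .nil))))))) (.nd (nat_lit 6) (.nd (nat_lit 7) (.nd (nat_lit 8) (.nd (nat_lit 9) 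
(.lf (nat_lit 546851) (.g (nat_lit 2544) (.e (nat_lit 303109) (nat_lit 0) (.e (nat_lit 3238) (nat_lit 197) (.e (nat_lit 532535) (nat_lit 9) (.e (nat_lit 336173) (nat_lit 10) .nil)))) (.g (nat_lit 0) (.e (nat_lit 284171) (nat_lit 0) .nil) .nil))) 
(.lf (nat_lit 547363) (.g (nat_lit 3218) (.e (nat_lit 303119) (nat_lit 3) (.e (nat_lit 204846) (nat_lit 24) (.e (nat_lit 319533) (nat_lit 16) (.e (nat_lit 286735) (nat_lit 3) (.e (nat_lit 98350) (nat_lit 24) (.e (nat_lit 417536) (nat_lit 8) .nil)))))) (.g (nat_lit 1) (.e (nat_lit 285010) (nat_lit 0) .nil) .nil)))) (.nd (nat_lit 9) 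
(.lf (nat_lit 547107) (.g (nat_lit 1311) (.e (nat_lit 303117) (nat_lit 2) (.e (nat_lit 196672) (nat_lit 15) (.e (nat_lit 81954) (nat_lit 23) (.e (nat_lit 98321) (nat_lit 17) .nil)))) (.g (nat_lit 0) (.e (nat_lit 284623) (nat_lit 0) .nil) .nil))) 
(.lf (nat_lit 547619) (.g (nat_lit 604) (.e (nat_lit 303133) (nat_lit 9) (.e (nat_lit 426412) (nat_lit 15) (.e (nat_lit 1922) (nat_lit 131) .nil))) (.g (nat_lit 0) (.e (nat_lit 285806) (nat_lit 0) .nil) .nil))))) (.nd (nat_lit 8) (.nd (nat_lit 9) 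
(.lf (nat_lit 546979) (.g (nat_lit 720) (.e (nat_lit 303116) (nat_lit 2) (.e (nat_lit 196681) (nat_lit 17) (.e (nat_lit 131105) (nat_lit 9) (.e (nat_lit 336018) (nat_lit 3) .nil)))) (.g (nat_lit 0) (.e (nat_lit 284453) (nat_lit 0) .nil) .nil))) 
(.lf (nat_lit 547491) (.g (nat_lit 2371) (.e (nat_lit 303119) (nat_lit 3) (.e (nat_lit 204869) (nat_lit 29) (.e (nat_lit 360466) (nat_lit 3) (.e (nat_lit 516140) (nat_lit 8) .nil)))) (.g (nat_lit 0) (.e (nat_lit 285250) (nat_lit 0) .nil) .nil)))) (.nd (nat_lit 9) 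
(.lf (nat_lit 547235) (.g (nat_lit 2621) (.e (nat_lit 303118) (nat_lit 3) (.e (nat_lit 204865) (nat_lit 28) (.e (nat_lit 352314) (nat_lit 23) (.e (nat_lit 98350) (nat_lit 24) (.e (nat_lit 409647) (nat_lit 18) .nil))))) (.g (nat_lit 1) (.e (nat_lit 284800) (nat_lit 0) .nil) .nil))) 
(.lf (nat_lit 547747) (.g (nat_lit 4064) (.e (nat_lit 303143) (nat_lit 12) (.e (nat_lit 475185) (nat_lit 29) (.e (nat_lit 557100) (nat_lit 13) (.e (nat_lit 172101) (nat_lit 9) (.e (nat_lit 426125) (nat_lit 2) (.e (nat_lit 204544) (nat_lit 18) (.e (nat_lit 2798) (nat_lit 180) .nil))))))) (.g (nat_lit 1) (.e (nat_lit 286730) (nat_lit 0) .nil) .nil)))))) 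
(.nd (nat_lit 7) (.nd (nat_lit 8) (.nd (nat_lit 9) 
(.lf (nat_lit 546915) (.g (nat_lit 2737) (.e (nat_lit 303111) (nat_lit 0) (.e (nat_lit 3469) (nat_lit 217) (.e (nat_lit 696344) (nat_lit 8) (.e (nat_lit 172123) (nat_lit 13) (.e (nat_lit 483376) (nat_lit 22) (.e (nat_lit 335616) (nat_lit 18) .nil)))))) (.g (nat_lit 1) (.e (nat_lit 284318) (nat_lit 0) .nil) .nil))) 
(.lf (nat_lit 547427) (.g (nat_lit 1089) (.e (nat_lit 303119) (nat_lit 3) (.e (nat_lit 204855) (nat_lit 26) (.e (nat_lit 336233) (nat_lit 14) .nil))) (.g (nat_lit 0) (.e (nat_lit 285107) (nat_lit 0) .nil) .nil)))) (.nd (nat_lit 9) 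
(.lf (nat_lit 547171) (.g (nat_lit 648) (.e (nat_lit 303117) (nat_lit 2) (.e (nat_lit 196674) (nat_lit 15) (.e (nat_lit 81962) (nat_lit 25) (.e (nat_lit 139285) (nat_lit 9) .nil)))) (.g (nat_lit 0) (.e (nat_lit 284695) (nat_lit 0) .nil) .nil))) 
(.lf (nat_lit 547683) (.g (nat_lit 720) (.e (nat_lit 303139) (nat_lit 10) (.e (nat_lit 434266) (nat_lit 35) (.e (nat_lit 630821) (nat_lit 16) (.e (nat_lit 65583) (nat_lit 7) (.e (nat_lit 319527) (nat_lit 15) (.e (nat_lit 278547) (nat_lit 8) .nil)))))) (.g (nat_lit 1) (.e (nat_lit 286425) (nat_lit 0) .nil) .nil))))) (.nd (nat_lit 8) (.nd (nat_lit 9) 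
(.lf (nat_lit 547043) (.g (nat_lit 2732) (.e (nat_lit 303117) (nat_lit 2) (.e (nat_lit 196666) (nat_lit 13) (.e (nat_lit 65610) (nat_lit 10) (.e (nat_lit 344117) (nat_lit 21) (.e (nat_lit 516106) (nat_lit 0) (.e (nat_lit 6966) (nat_lit 377) (.e (nat_lit 2807) (nat_lit 180) .nil))))))) (.g (nat_lit 1) (.e (nat_lit 284550) (nat_lit 0) .nil) .nil))) 
(.lf (nat_lit 547555) (.g (nat_lit 3857) (.e (nat_lit 303119) (nat_lit 3) (.e (nat_lit 204885) (nat_lit 33) (.e (nat_lit 401446) (nat_lit 10) (.e (nat_lit 434231) (nat_lit 23) (.e (nat_lit 532490) (nat_lit 0) (.e (nat_lit 6114) (nat_lit 332) (.e (nat_lit 1376) (nat_lit 104) .nil))))))) (.g (nat_lit 1) (.e (nat_lit 285400) (nat_lit 0) .nil) .nil)))) (.nd (nat_lit 9) 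
(.lf (nat_lit 547299) (.g (nat_lit 1452) (.e (nat_lit 303118) (nat_lit 3) (.e (nat_lit 204877) (nat_lit 31) (.e (nat_lit 376865) (nat_lit 22) (.e (nat_lit 90127) (nat_lit 9) (.e (nat_lit 2830) (nat_lit 182) .nil))))) (.g (nat_lit 0) (.e (nat_lit 284892) (nat_lit 0) .nil) .nil))) 
(.lf (nat_lit 547811) (.g (nat_lit 2744) (.e (nat_lit 303143) (nat_lit 12) (.e (nat_lit 475185) (nat_lit 29) (.e (nat_lit 557108) (nat_lit 15) (.e (nat_lit 188458) (nat_lit 25) .nil)))) (.g (nat_lit 0) (.e (nat_lit 286808) (nat_lit 0) .nil) .nil)))))))) (.nd (nat_lit 5) (.nd (nat_lit 6) (.nd (nat_lit 7) (.nd (nat_lit 8) (.nd (nat_lit 9) 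
(.lf (nat_lit 546835) (.g (nat_lit 2415) (.e (nat_lit 303108) (nat_lit 0) (.e (nat_lit 3238) (nat_lit 197) (.e (nat_lit 532535) (nat_lit 9) (.e (nat_lit 336099) (nat_lit 9) .nil)))) (.g (nat_lit 0) (.e (nat_lit 284144) (nat_lit 0) .nil) .nil))) 
(.lf (nat_lit 547347) (.g (nat_lit 3748) (.e (nat_lit 303119) (nat_lit 3) (.e (nat_lit 204846) (nat_lit 24) (.e (nat_lit 319530) (nat_lit 16) (.e (nat_lit 286735) (nat_lit 3) (.e (nat_lit 98325) (nat_lit 17) (.e (nat_lit 6986) (nat_lit 377) (.e (nat_lit 1376) (nat_lit 104) .nil))))))) (.g (nat_lit 1) (.e (nat_lit 284992) (nat_lit 0) .nil) .nil)))) (.nd (nat_lit 9) 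
(.lf (nat_lit 547091) (.g (nat_lit 2840) (.e (nat_lit 303117) (nat_lit 2) (.e (nat_lit 196670) (nat_lit 14) (.e (nat_lit 73781) (nat_lit 32) (.e (nat_lit 2682) (nat_lit 168) (.e (nat_lit 204846) (nat_lit 24) (.e (nat_lit 327424) (nat_lit 8) .nil)))))) (.g (nat_lit 1) (.e (nat_lit 284606) (nat_lit 0) .nil) .nil))) 
(.lf (nat_lit 547603) (.g (nat_lit 1361) (.e (nat_lit 303133) (nat_lit 9) (.e (nat_lit 426160) (nat_lit 6) (.e (nat_lit 253990) (nat_lit 11) (.e (nat_lit 16473) (nat_lit 14) (.e (nat_lit 499456) (nat_lit 25) .nil))))) (.g (nat_lit 0) (.e (nat_lit 285739) (nat_lit 0) .nil) .nil))))) (.nd (nat_lit 8) (.nd (nat_lit 9) 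
(.lf (nat_lit 546963) (.g (nat_lit 549) (.e (nat_lit 303116) (nat_lit 2) (.e (nat_lit 196672) (nat_lit 15) (.e (nat_lit 81956) (nat_lit 23) .nil))) (.g (nat_lit 0) (.e (nat_lit 284437) (nat_lit 0) .nil) .nil))) 
(.lf (nat_lit 547475) (.g (nat_lit 1896) (.e (nat_lit 303119) (nat_lit 3) (.e (nat_lit 204868) (nat_lit 29) (.e (nat_lit 360467) (nat_lit 3) (.e (nat_lit 516138) (nat_lit 7) (.e (nat_lit 409646) (nat_lit 18) .nil))))) (.g (nat_lit 0) (.e (nat_lit 285196) (nat_lit 0) .nil) .nil)))) (.nd (nat_lit 9) 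
(.lf (nat_lit 547219) (.g (nat_lit 3839) (.e (nat_lit 303118) (nat_lit 3) (.e (nat_lit 204855) (nat_lit 26) (.e (nat_lit 336111) (nat_lit 9) (.e (nat_lit 336028) (nat_lit 3) (.e (nat_lit 98350) (nat_lit 24) (.e (nat_lit 409647) (nat_lit 18) .nil)))))) (.g (nat_lit 1) (.e (nat_lit 284775) (nat_lit 0) .nil) .nil))) 
(.lf (nat_lit 547731) (.g (nat_lit 1180) (.e (nat_lit 303143) (nat_lit 12) (.e (nat_lit 475185) (nat_lit 29) (.e (nat_lit 557096) (nat_lit 13) .nil))) (.g (nat_lit 0) (.e (nat_lit 286709) (nat_lit 0) .nil) .nil)))))) (.nd (nat_lit 7) (.nd (nat_lit 8) (.nd (nat_lit 9) 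
(.lf (nat_lit 546899) (.g (nat_lit 3346) (.e (nat_lit 303111) (nat_lit 0) (.e (nat_lit 3238) (nat_lit 197) (.e (nat_lit 532535) (nat_lit 9) (.e (nat_lit 336178) (nat_lit 10) (.e (nat_lit 344117) (nat_lit 21) .nil))))) (.g (nat_lit 0) (.e (nat_lit 284278) (nat_lit 0) .nil) .nil))) 
(.lf (nat_lit 547411) (.g (nat_lit 3684) (.e (nat_lit 303119) (nat_lit 3) (.e (nat_lit 204855) (nat_lit 26) (.e (nat_lit 336099) (nat_lit 9) (.e (nat_lit 336013) (nat_lit 2) (.e (nat_lit 90164) (nat_lit 12) .nil))))) (.g (nat_lit 0) (.e (nat_lit 285080) (nat_lit 0) .nil) .nil)))) (.nd (nat_lit 9) 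
(.lf (nat_lit 547155) (.g (nat_lit 283) (.e (nat_lit 303117) (nat_lit 2) (.e (nat_lit 196674) (nat_lit 15) (.e (nat_lit 81954) (nat_lit 23) .nil))) (.g (nat_lit 0) (.e (nat_lit 284678) (nat_lit 0) .nil) .nil))) 
(.lf (nat_lit 547667) (.g (nat_lit 1532) (.e (nat_lit 303137) (nat_lit 10) (.e (nat_lit 434275) (nat_lit 39) (.e (nat_lit 663580) (nat_lit 9) (.e (nat_lit 7936) (nat_lit 157) .nil)))) (.g (nat_lit 0) (.e (nat_lit 286284) (nat_lit 0) .nil) .nil))))) (.nd (nat_lit 8) (.nd (nat_lit 9) 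
(.lf (nat_lit 547027) (.g (nat_lit 3756) (.e (nat_lit 303117) (nat_lit 2) (.e (nat_lit 196666) (nat_lit 13) (.e (nat_lit 65610) (nat_lit 10) (.e (nat_lit 344117) (nat_lit 21) (.e (nat_lit 516098) (nat_lit 0) (.e (nat_lit 7073) (nat_lit 377) (.e (nat_lit 2795) (nat_lit 180) .nil))))))) (.g (nat_lit 1) (.e (nat_lit 284534) (nat_lit 0) .nil) .nil))) 
(.lf (nat_lit 547539) (.g (nat_lit 1091) (.e (nat_lit 303119) (nat_lit 3) (.e (nat_lit 204876) (nat_lit 31) (.e (nat_lit 376862) (nat_lit 22) (.e (nat_lit 90165) (nat_lit 12) .nil)))) (.g (nat_lit 0) (.e (nat_lit 285379) (nat_lit 0) .nil) .nil)))) (.nd (nat_lit 9) 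
(.lf (nat_lit 547283) (.g (nat_lit 1595) (.e (nat_lit 303118) (nat_lit 3) (.e (nat_lit 204869) (nat_lit 29) (.e (nat_lit 360474) (nat_lit 8) (.e (nat_lit 557070) (nat_lit 9) .nil)))) (.g (nat_lit 0) (.e (nat_lit 284874) (nat_lit 0) .nil) .nil))) 
(.lf (nat_lit 547795) (.g (nat_lit 1935) (.e (nat_lit 303143) (nat_lit 12) (.e (nat_lit 475185) (nat_lit 29) (.e (nat_lit 557107) (nat_lit 15) (.e (nat_lit 188424) (nat_lit 20) (.e (nat_lit 3205) (nat_lit 194) .nil))))) (.g (nat_lit 0) (.e (nat_lit 286791) (nat_lit 0) .nil) .nil))))))) (.nd (nat_lit 6) (.nd (nat_lit 7) (.nd (nat_lit 8) (.nd (nat_lit 9) 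
(.lf (nat_lit 546867) (.g (nat_lit 962) (.e (nat_lit 303112) (nat_lit 0) (.e (nat_lit 3252) (nat_lit 197) (.e (nat_lit 532534) (nat_lit 9) (.e (nat_lit 336115) (nat_lit 9) .nil)))) (.g (nat_lit 0) (.e (nat_lit 284195) (nat_lit 0) .nil) .nil))) 
(.lf (nat_lit 547379) (.g (nat_lit 4654) (.e (nat_lit 303119) (nat_lit 3) (.e (nat_lit 204849) (nat_lit 25) (.e (nat_lit 327699) (nat_lit 8) (.e (nat_lit 303119) (nat_lit 3) (.e (nat_lit 204849) (nat_lit 25) (.e (nat_lit 327698) (nat_lit 8) .nil)))))) (.g (nat_lit 1) (.e (nat_lit 285027) (nat_lit 0) .nil) .nil)))) (.nd (nat_lit 9) 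
(.lf (nat_lit 547123) (.g (nat_lit 1033) (.e (nat_lit 303117) (nat_lit 2) (.e (nat_lit 196672) (nat_lit 15) (.e (nat_lit 81962) (nat_lit 25) (.e (nat_lit 139289) (nat_lit 9) (.e (nat_lit 2829) (nat_lit 182) .nil))))) (.g (nat_lit 0) (.e (nat_lit 284639) (nat_lit 0) .nil) .nil))) 
(.lf (nat_lit 547635) (.g (nat_lit 687) (.e (nat_lit 303133) (nat_lit 9) (.e (nat_lit 426499) (nat_lit 27) (.e (nat_lit 336100) (nat_lit 9) .nil))) (.g (nat_lit 0) (.e (nat_lit 285891) (nat_lit 0) .nil) .nil))))) (.nd (nat_lit 8) (.nd (nat_lit 9) 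
(.lf (nat_lit 546995) (.g (nat_lit 3248) (.e (nat_lit 303117) (nat_lit 2) (.e (nat_lit 196665) (nat_lit 13) (.e (nat_lit 65628) (nat_lit 14) (.e (nat_lit 401428) (nat_lit 3) (.e (nat_lit 204845) (nat_lit 24) (.e (nat_lit 327424) (nat_lit 8) .nil)))))) (.g (nat_lit 1) (.e (nat_lit 284492) (nat_lit 0) .nil) .nil))) 
(.lf (nat_lit 547507) (.g (nat_lit 2673) (.e (nat_lit 303119) (nat_lit 3) (.e (nat_lit 204869) (nat_lit 29) (.e (nat_lit 360474) (nat_lit 8) (.e (nat_lit 557073) (nat_lit 9) (.e (nat_lit 214) (nat_lit 19) (.e (nat_lit 327424) (nat_lit 8) .nil)))))) (.g (nat_lit 1) (.e (nat_lit 285299) (nat_lit 0) .nil) .nil)))) (.nd (nat_lit 9) 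
(.lf (nat_lit 547251) (.g (nat_lit 2840) (.e (nat_lit 303118) (nat_lit 3) (.e (nat_lit 204868) (nat_lit 29) (.e (nat_lit 360466) (nat_lit 3) (.e (nat_lit 516139) (nat_lit 7) (.e (nat_lit 409643) (nat_lit 18) .nil))))) (.g (nat_lit 1) (.e (nat_lit 284837) (nat_lit 0) .nil) .nil))) 
(.lf (nat_lit 547763) (.g (nat_lit 2712) (.e (nat_lit 303143) (nat_lit 12) (.e (nat_lit 475185) (nat_lit 29) (.e (nat_lit 557100) (nat_lit 13) (.e (nat_lit 172107) (nat_lit 10) .nil)))) (.g (nat_lit 0) (.e (nat_lit 286749) (nat_lit 0) .nil) .nil)))))) (.nd (nat_lit 7) (.nd (nat_lit 8) (.nd (nat_lit 9) 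
(.lf (nat_lit 546931) (.g (nat_lit 2243) (.e (nat_lit 303116) (nat_lit 2) (.e (nat_lit 196666) (nat_lit 13) (.e (nat_lit 65610) (nat_lit 10) (.e (nat_lit 344117) (nat_lit 21) (.e (nat_lit 516102) (nat_lit 0) (.e (nat_lit 7003) (nat_lit 377) (.e (nat_lit 2808) (nat_lit 180) .nil))))))) (.g (nat_lit 1) (.e (nat_lit 284402) (nat_lit 0) .nil) .nil))) 
(.lf (nat_lit 547443) (.g (nat_lit 360) (.e (nat_lit 303119) (nat_lit 3) (.e (nat_lit 204865) (nat_lit 28) (.e (nat_lit 352305) (nat_lit 20) .nil))) (.g (nat_lit 0) (.e (nat_lit 285133) (nat_lit 0) .nil) .nil)))) (.nd (nat_lit 9) 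
(.lf (nat_lit 547187) (.g (nat_lit 1119) (.e (nat_lit 311040) (nat_lit 2) (.e (nat_lit 196674) (nat_lit 15) (.e (nat_lit 81954) (nat_lit 23) (.e (nat_lit 98350) (nat_lit 24) .nil)))) (.g (nat_lit 0) (.e (nat_lit 284711) (nat_lit 0) .nil) .nil))) 
(.lf (nat_lit 547699) (.g (nat_lit 1108) (.e (nat_lit 303140) (nat_lit 10) (.e (nat_lit 434268) (nat_lit 36) (.e (nat_lit 639020) (nat_lit 16) (.e (nat_lit 65586) (nat_lit 7) .nil)))) (.g (nat_lit 0) (.e (nat_lit 286561) (nat_lit 0) .nil) .nil))))) (.nd (nat_lit 8) (.nd (nat_lit 9) 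
(.lf (nat_lit 547059) (.g (nat_lit 3873) (.e (nat_lit 303117) (nat_lit 2) (.e (nat_lit 196666) (nat_lit 13) (.e (nat_lit 65610) (nat_lit 10) (.e (nat_lit 344117) (nat_lit 21) (.e (nat_lit 516106) (nat_lit 0) (.e (nat_lit 7936) (nat_lit 377) (.e (nat_lit 2808) (nat_lit 180) .nil))))))) (.g (nat_lit 1) (.e (nat_lit 284566) (nat_lit 0) .nil) .nil))) 
(.lf (nat_lit 547571) (.g (nat_lit 2254) (.e (nat_lit 311040) (nat_lit 3) (.e (nat_lit 204869) (nat_lit 29) (.e (nat_lit 360468) (nat_lit 3) (.e (nat_lit 516139) (nat_lit 7) (.e (nat_lit 409649) (nat_lit 18) .nil))))) (.g (nat_lit 0) (.e (nat_lit 285419) (nat_lit 0) .nil) .nil)))) (.nd (nat_lit 9) 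
(.lf (nat_lit 547315) (.g (nat_lit 955) (.e (nat_lit 303119) (nat_lit 3) (.e (nat_lit 204830) (nat_lit 18) (.e (nat_lit 57770) (nat_lit 227) .nil))) (.g (nat_lit 0) (.e (nat_lit 284922) (nat_lit 0) .nil) .nil))) 
(.lf (nat_lit 547827) (.g (nat_lit 1857) (.e (nat_lit 303143) (nat_lit 12) (.e (nat_lit 475199) (nat_lit 40) (.e (nat_lit 704589) (nat_lit 3) (.e (nat_lit 163843) (nat_lit 0) .nil)))) (.g (nat_lit 0) (.e (nat_lit 286833) (nat_lit 0) .nil) .nil))))))))) (.nd (nat_lit 4) (.nd (nat_lit 5) (.nd (nat_lit 6) (.nd (nat_lit 7) (.nd (nat_lit 8) (.nd (nat_lit 9) 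
(.lf (nat_lit 546827) (.g (nat_lit 2620) (.e (nat_lit 303107) (nat_lit 0) (.e (nat_lit 3238) (nat_lit 197) (.e (nat_lit 532535) (nat_lit 9) (.e (nat_lit 336111) (nat_lit 9) .nil)))) (.g (nat_lit 0) (.e (nat_lit 284132) (nat_lit 0) .nil) .nil))) 
(.lf (nat_lit 547339) (.g (nat_lit 3438) (.e (nat_lit 303119) (nat_lit 3) (.e (nat_lit 204846) (nat_lit 24) (.e (nat_lit 319528) (nat_lit 16) (.e (nat_lit 286735) (nat_lit 3) (.e (nat_lit 98325) (nat_lit 17) (.e (nat_lit 6986) (nat_lit 377) (.e (nat_lit 1376) (nat_lit 104) .nil))))))) (.g (nat_lit 1) (.e (nat_lit 284984) (nat_lit 0) .nil) .nil)))) (.nd (nat_lit 9) 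
(.lf (nat_lit 547083) (.g (nat_lit 3363) (.e (nat_lit 303117) (nat_lit 2) (.e (nat_lit 196666) (nat_lit 13) (.e (nat_lit 65619) (nat_lit 10) (.e (nat_lit 344129) (nat_lit 26) (.e (nat_lit 557084) (nat_lit 10) (.e (nat_lit 16128) (nat_lit 225) (.e (nat_lit 2797) (nat_lit 180) .nil))))))) (.g (nat_lit 1) (.e (nat_lit 284591) (nat_lit 0) .nil) .nil))) 
(.lf (nat_lit 547595) (.g (nat_lit 2201) (.e (nat_lit 303127) (nat_lit 9) (.e (nat_lit 426544) (nat_lit 30) (.e (nat_lit 360457) (nat_lit 0) (.e (nat_lit 5949) (nat_lit 322) (.e (nat_lit 57350) (nat_lit 0) (.e (nat_lit 6113) (nat_lit 332) (.e (nat_lit 2810) (nat_lit 180) .nil))))))) (.g (nat_lit 1) (.e (nat_lit 285613) (nat_lit 0) .nil) .nil))))) (.nd (nat_lit 8) (.nd (nat_lit 9) 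
(.lf (nat_lit 546955) (.g (nat_lit 1647) (.e (nat_lit 303116) (nat_lit 2) (.e (nat_lit 196666) (nat_lit 13) (.e (nat_lit 65628) (nat_lit 14) (.e (nat_lit 401428) (nat_lit 3) .nil)))) (.g (nat_lit 0) (.e (nat_lit 284426) (nat_lit 0) .nil) .nil))) 
(.lf (nat_lit 547467) (.g (nat_lit 2466) (.e (nat_lit 303119) (nat_lit 3) (.e (nat_lit 204868) (nat_lit 29) (.e (nat_lit 360466) (nat_lit 3) (.e (nat_lit 516138) (nat_lit 7) (.e (nat_lit 417536) (nat_lit 18) .nil))))) (.g (nat_lit 1) (.e (nat_lit 285188) (nat_lit 0) .nil) .nil)))) (.nd (nat_lit 9) 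
(.lf (nat_lit 547211) (.g (nat_lit 402) (.e (nat_lit 303118) (nat_lit 3) (.e (nat_lit 204855) (nat_lit 26) (.e (nat_lit 336099) (nat_lit 9) .nil))) (.g (nat_lit 0) (.e (nat_lit 284744) (nat_lit 0) .nil) .nil))) 
(.lf (nat_lit 547723) (.g (nat_lit 737) (.e (nat_lit 303142) (nat_lit 12) (.e (nat_lit 475212) (nat_lit 42) (.e (nat_lit 720920) (nat_lit 20) .nil))) (.g (nat_lit 0) (.e (nat_lit 286660) (nat_lit 0) .nil) .nil)))))) (.nd (nat_lit 7) (.nd (nat_lit 8) (.nd (nat_lit 9) 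
(.lf (nat_lit 546891) (.g (nat_lit 4523) (.e (nat_lit 303111) (nat_lit 0) (.e (nat_lit 3238) (nat_lit 197) (.e (nat_lit 532535) (nat_lit 9) (.e (nat_lit 336099) (nat_lit 9) (.e (nat_lit 336013) (nat_lit 2) (.e (nat_lit 90134) (nat_lit 9) (.e (nat_lit 2822) (nat_lit 182) (.e (nat_lit 409646) (nat_lit 18) .nil)))))))) (.g (nat_lit 1) (.e (nat_lit 284264) (nat_lit 0) .nil) .nil))) 
(.lf (nat_lit 547403) (.g (nat_lit 1053) (.e (nat_lit 303119) (nat_lit 3) (.e (nat_lit 204855) (nat_lit 26) (.e (nat_lit 336092) (nat_lit 9) .nil))) (.g (nat_lit 0) (.e (nat_lit 285061) (nat_lit 0) .nil) .nil)))) (.nd (nat_lit 9) 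
(.lf (nat_lit 547147) (.g (nat_lit 3275) (.e (nat_lit 303117) (nat_lit 2) (.e (nat_lit 196674) (nat_lit 15) (.e (nat_lit 81947) (nat_lit 20) (.e (nat_lit 1842) (nat_lit 123) (.e (nat_lit 548874) (nat_lit 5) (.e (nat_lit 1401) (nat_lit 106) (.e (nat_lit 327424) (nat_lit 8) .nil))))))) (.g (nat_lit 1) (.e (nat_lit 284667) (nat_lit 0) .nil) .nil))) 
(.lf (nat_lit 547659) (.g (nat_lit 926) (.e (nat_lit 303137) (nat_lit 10) (.e (nat_lit 434241) (nat_lit 27) (.e (nat_lit 565269) (nat_lit 6) (.e (nat_lit 81964) (nat_lit 26) .nil)))) (.g (nat_lit 0) (.e (nat_lit 286268) (nat_lit 0) .nil) .nil))))) (.nd (nat_lit 8) (.nd (nat_lit 9) 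
(.lf (nat_lit 547019) (.g (nat_lit 2930) (.e (nat_lit 303117) (nat_lit 2) (.e (nat_lit 196666) (nat_lit 13) (.e (nat_lit 65610) (nat_lit 10) (.e (nat_lit 344117) (nat_lit 21) (.e (nat_lit 516096) (nat_lit 0) (.e (nat_lit 6983) (nat_lit 377) (.e (nat_lit 2809) (nat_lit 180) .nil))))))) (.g (nat_lit 1) (.e (nat_lit 284526) (nat_lit 0) .nil) .nil))) 
(.lf (nat_lit 547531) (.g (nat_lit 1296) (.e (nat_lit 303119) (nat_lit 3) (.e (nat_lit 204870) (nat_lit 29) (.e (nat_lit 360463) (nat_lit 1) (.e (nat_lit 499846) (nat_lit 5) (.e (nat_lit 2829) (nat_lit 182) (.e (nat_lit 417536) (nat_lit 18) .nil)))))) (.g (nat_lit 1) (.e (nat_lit 285369) (nat_lit 0) .nil) .nil)))) (.nd (nat_lit 9) 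
(.lf (nat_lit 547275) (.g (nat_lit 3698) (.e (nat_lit 303118) (nat_lit 3) (.e (nat_lit 204869) (nat_lit 29) (.e (nat_lit 360467) (nat_lit 3) (.e (nat_lit 516139) (nat_lit 7) (.e (nat_lit 409647) (nat_lit 18) .nil))))) (.g (nat_lit 1) (.e (nat_lit 284865) (nat_lit 0) .nil) .nil))) 
(.lf (nat_lit 547787) (.g (nat_lit 2138) (.e (nat_lit 303143) (nat_lit 12) (.e (nat_lit 475185) (nat_lit 29) (.e (nat_lit 557101) (nat_lit 13) (.e (nat_lit 172115) (nat_lit 10) (.e (nat_lit 434222) (nat_lit 19) (.e (nat_lit 507648) (nat_lit 0) (.e (nat_lit 2797) (nat_lit 180) .nil))))))) (.g (nat_lit 1) (.e (nat_lit 286778) (nat_lit 0) .nil) .nil))))))) 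
(.nd (nat_lit 6) (.nd (nat_lit 7) (.nd (nat_lit 8) (.nd (nat_lit 9) 
(.lf (nat_lit 546859) (.g (nat_lit 2544) (.e (nat_lit 303110) (nat_lit 0) (.e (nat_lit 3238) (nat_lit 197) (.e (nat_lit 532535) (nat_lit 9) (.e (nat_lit 336173) (nat_lit 10) .nil)))) (.g (nat_lit 0) (.e (nat_lit 284184) (nat_lit 0) .nil) .nil))) 
(.lf (nat_lit 547371) (.g (nat_lit 2844) (.e (nat_lit 303119) (nat_lit 3) (.e (nat_lit 204846) (nat_lit 24) (.e (nat_lit 327424) (nat_lit 16) (.e (nat_lit 286735) (nat_lit 3) (.e (nat_lit 98325) (nat_lit 17) (.e (nat_lit 6986) (nat_lit 377) (.e (nat_lit 1376) (nat_lit 104) .nil))))))) (.g (nat_lit 1) (.e (nat_lit 285018) (nat_lit 0) .nil) .nil)))) (.nd (nat_lit 9) 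
(.lf (nat_lit 547115) (.g (nat_lit 2023) (.e (nat_lit 303117) (nat_lit 2) (.e (nat_lit 196672) (nat_lit 15) (.e (nat_lit 81956) (nat_lit 23) (.e (nat_lit 98321) (nat_lit 17) (.e (nat_lit 7936) (nat_lit 377) .nil))))) (.g (nat_lit 0) (.e (nat_lit 284631) (nat_lit 0) .nil) .nil))) 
(.lf (nat_lit 547627) (.g (nat_lit 298) (.e (nat_lit 303133) (nat_lit 9) (.e (nat_lit 426412) (nat_lit 15) (.e (nat_lit 2184) (nat_lit 144) .nil))) (.g (nat_lit 0) (.e (nat_lit 285842) (nat_lit 0) .nil) .nil))))) (.nd (nat_lit 8) (.nd (nat_lit 9) 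
(.lf (nat_lit 546987) (.g (nat_lit 2378) (.e (nat_lit 303117) (nat_lit 2) (.e (nat_lit 196664) (nat_lit 13) (.e (nat_lit 65610) (nat_lit 10) (.e (nat_lit 344117) (nat_lit 21) (.e (nat_lit 516138) (nat_lit 7) .nil))))) (.g (nat_lit 0) (.e (nat_lit 284478) (nat_lit 0) .nil) .nil))) 
(.lf (nat_lit 547499) (.g (nat_lit 3108) (.e (nat_lit 303119) (nat_lit 3) (.e (nat_lit 204869) (nat_lit 29) (.e (nat_lit 360468) (nat_lit 3) (.e (nat_lit 516139) (nat_lit 7) (.e (nat_lit 417536) (nat_lit 18) .nil))))) (.g (nat_lit 1) (.e (nat_lit 285272) (nat_lit 0) .nil) .nil)))) (.nd (nat_lit 9) 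
(.lf (nat_lit 547243) (.g (nat_lit 4000) (.e (nat_lit 303118) (nat_lit 3) (.e (nat_lit 204866) (nat_lit 28) (.e (nat_lit 352315) (nat_lit 23) (.e (nat_lit 98349) (nat_lit 24) (.e (nat_lit 409645) (nat_lit 18) .nil))))) (.g (nat_lit 1) (.e (nat_lit 284824) (nat_lit 0) .nil) .nil))) 
(.lf (nat_lit 547755) (.g (nat_lit 2572) (.e (nat_lit 303143) (nat_lit 12) (.e (nat_lit 475185) (nat_lit 29) (.e (nat_lit 557100) (nat_lit 13) (.e (nat_lit 172106) (nat_lit 10) (.e (nat_lit 434223) (nat_lit 19) (.e (nat_lit 499746) (nat_lit 0) (.e (nat_lit 2802) (nat_lit 180) .nil))))))) (.g (nat_lit 1) (.e (nat_lit 286741) (nat_lit 0) .nil) .nil)))))) 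
(.nd (nat_lit 7) (.nd (nat_lit 8) (.nd (nat_lit 9) 
(.lf (nat_lit 546923) (.g (nat_lit 1174) (.e (nat_lit 303116) (nat_lit 2) (.e (nat_lit 196666) (nat_lit 13) (.e (nat_lit 65599) (nat_lit 9) (.e (nat_lit 335901) (nat_lit 0) .nil)))) (.g (nat_lit 0) (.e (nat_lit 284393) (nat_lit 0) .nil) .nil))) 
(.lf (nat_lit 547435) (.g (nat_lit 421) (.e (nat_lit 303119) (nat_lit 3) (.e (nat_lit 204861) (nat_lit 26) (.e (nat_lit 336185) (nat_lit 11) .nil))) (.g (nat_lit 0) (.e (nat_lit 285117) (nat_lit 0) .nil) .nil)))) (.nd (nat_lit 9) 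
(.lf (nat_lit 547179) (.g (nat_lit 560) (.e (nat_lit 311040) (nat_lit 2) (.e (nat_lit 196666) (nat_lit 13) (.e (nat_lit 65610) (nat_lit 10) .nil))) (.g (nat_lit 0) (.e (nat_lit 284703) (nat_lit 0) .nil) .nil))) 
(.lf (nat_lit 547691) (.g (nat_lit 1496) (.e (nat_lit 303139) (nat_lit 10) (.e (nat_lit 434268) (nat_lit 36) (.e (nat_lit 639020) (nat_lit 16) (.e (nat_lit 65584) (nat_lit 7) (.e (nat_lit 319527) (nat_lit 15) (.e (nat_lit 278546) (nat_lit 8) .nil)))))) (.g (nat_lit 1) (.e (nat_lit 286434) (nat_lit 0) .nil) .nil))))) (.nd (nat_lit 8) (.nd (nat_lit 9) 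
(.lf (nat_lit 547051) (.g (nat_lit 3758) (.e (nat_lit 303117) (nat_lit 2) (.e (nat_lit 196666) (nat_lit 13) (.e (nat_lit 65610) (nat_lit 10) (.e (nat_lit 344117) (nat_lit 21) (.e (nat_lit 516106) (nat_lit 0) (.e (nat_lit 7008) (nat_lit 377) (.e (nat_lit 7936) (nat_lit 180) .nil))))))) (.g (nat_lit 1) (.e (nat_lit 284558) (nat_lit 0) .nil) .nil))) 
(.lf (nat_lit 547563) (.g (nat_lit 1957) (.e (nat_lit 303119) (nat_lit 3) (.e (nat_lit 204885) (nat_lit 33) (.e (nat_lit 401448) (nat_lit 10) (.e (nat_lit 434234) (nat_lit 23) (.e (nat_lit 532523) (nat_lit 7) .nil))))) (.g (nat_lit 0) (.e (nat_lit 285409) (nat_lit 0) .nil) .nil)))) (.nd (nat_lit 9) 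
(.lf (nat_lit 547307) (.g (nat_lit 2657) (.e (nat_lit 303118) (nat_lit 3) (.e (nat_lit 204885) (nat_lit 33) (.e (nat_lit 401448) (nat_lit 10) (.e (nat_lit 434232) (nat_lit 23) (.e (nat_lit 532523) (nat_lit 7) (.e (nat_lit 327424) (nat_lit 18) .nil)))))) (.g (nat_lit 1) (.e (nat_lit 284901) (nat_lit 0) .nil) .nil))) 
(.lf (nat_lit 547819) (.g (nat_lit 3708) (.e (nat_lit 303143) (nat_lit 12) (.e (nat_lit 475185) (nat_lit 29) (.e (nat_lit 557109) (nat_lit 15) (.e (nat_lit 188441) (nat_lit 20) (.e (nat_lit 3205) (nat_lit 194) (.e (nat_lit 507946) (nat_lit 18) .nil)))))) (.g (nat_lit 1) (.e (nat_lit 286817) (nat_lit 0) .nil) .nil)))))))) 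
(.nd (nat_lit 5) (.nd (nat_lit 6) (.nd (nat_lit 7) (.nd (nat_lit 8) (.nd (nat_lit 9) 
(.lf (nat_lit 546843) (.g (nat_lit 2422) (.e (nat_lit 303108) (nat_lit 0) (.e (nat_lit 3238) (nat_lit 197) (.e (nat_lit 532535) (nat_lit 9) (.e (nat_lit 336177) (nat_lit 10) .nil)))) (.g (nat_lit 0) (.e (nat_lit 284157) (nat_lit 0) .nil) .nil))) 
(.lf (nat_lit 547355) (.g (nat_lit 2646) (.e (nat_lit 303119) (nat_lit 3) (.e (nat_lit 204846) (nat_lit 24) (.e (nat_lit 319532) (nat_lit 16) (.e (nat_lit 286735) (nat_lit 3) (.e (nat_lit 98349) (nat_lit 24) (.e (nat_lit 417536) (nat_lit 8) .nil)))))) (.g (nat_lit 1) (.e (nat_lit 285001) (nat_lit 0) .nil) .nil)))) (.nd (nat_lit 9) 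
(.lf (nat_lit 547099) (.g (nat_lit 1130) (.e (nat_lit 303117) (nat_lit 2) (.e (nat_lit 196672) (nat_lit 15) (.e (nat_lit 81951) (nat_lit 22) (.e (nat_lit 90165) (nat_lit 12) .nil)))) (.g (nat_lit 0) (.e (nat_lit 284614) (nat_lit 0) .nil) .nil))) 
(.lf (nat_lit 547611) (.g (nat_lit 2133) (.e (nat_lit 303133) (nat_lit 9) (.e (nat_lit 426412) (nat_lit 15) (.e (nat_lit 1856) (nat_lit 124) (.e (nat_lit 557100) (nat_lit 13) (.e (nat_lit 172085) (nat_lit 9) (.e (nat_lit 426125) (nat_lit 2) (.e (nat_lit 204544) (nat_lit 18) (.e (nat_lit 2798) (nat_lit 180) .nil)))))))) (.g (nat_lit 1) (.e (nat_lit 285795) (nat_lit 0) .nil) .nil))))) 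
(.nd (nat_lit 8) (.nd (nat_lit 9) 
(.lf (nat_lit 546971) (.g (nat_lit 2885) (.e (nat_lit 303116) (nat_lit 2) (.e (nat_lit 196674) (nat_lit 15) (.e (nat_lit 81956) (nat_lit 23) (.e (nat_lit 98349) (nat_lit 24) (.e (nat_lit 409646) (nat_lit 18) .nil))))) (.g (nat_lit 0) (.e (nat_lit 284445) (nat_lit 0) .nil) .nil))) 
(.lf (nat_lit 547483) (.g (nat_lit 2839) (.e (nat_lit 303119) (nat_lit 3) (.e (nat_lit 204868) (nat_lit 29) (.e (nat_lit 360473) (nat_lit 8) (.e (nat_lit 557067) (nat_lit 9) (.e (nat_lit 220) (nat_lit 20) .nil))))) (.g (nat_lit 0) (.e (nat_lit 285205) (nat_lit 0) .nil) .nil)))) (.nd (nat_lit 9) 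
(.lf (nat_lit 547227) (.g (nat_lit 651) (.e (nat_lit 303118) (nat_lit 3) (.e (nat_lit 204855) (nat_lit 26) (.e (nat_lit 336178) (nat_lit 10) .nil))) (.g (nat_lit 0) (.e (nat_lit 284787) (nat_lit 0) .nil) .nil))) 
(.lf (nat_lit 547739) (.g (nat_lit 2808) (.e (nat_lit 303143) (nat_lit 12) (.e (nat_lit 475185) (nat_lit 29) (.e (nat_lit 557100) (nat_lit 13) (.e (nat_lit 172087) (nat_lit 9) .nil)))) (.g (nat_lit 0) (.e (nat_lit 286722) (nat_lit 0) .nil) .nil)))))) (.nd (nat_lit 7) (.nd (nat_lit 8) (.nd (nat_lit 9) 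
(.lf (nat_lit 546907) (.g (nat_lit 1831) (.e (nat_lit 303111) (nat_lit 0) (.e (nat_lit 3468) (nat_lit 217) (.e (nat_lit 696343) (nat_lit 8) (.e (nat_lit 172123) (nat_lit 13) (.e (nat_lit 483376) (nat_lit 22) (.e (nat_lit 335616) (nat_lit 18) .nil)))))) (.g (nat_lit 1) (.e (nat_lit 284307) (nat_lit 0) .nil) .nil))) 
(.lf (nat_lit 547419) (.g (nat_lit 1089) (.e (nat_lit 303119) (nat_lit 3) (.e (nat_lit 204855) (nat_lit 26) (.e (nat_lit 336170) (nat_lit 10) .nil))) (.g (nat_lit 0) (.e (nat_lit 285094) (nat_lit 0) .nil) .nil)))) (.nd (nat_lit 9) 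
(.lf (nat_lit 547163) (.g (nat_lit 2488) (.e (nat_lit 303117) (nat_lit 2) (.e (nat_lit 196674) (nat_lit 15) (.e (nat_lit 81956) (nat_lit 23) (.e (nat_lit 98320) (nat_lit 17) .nil)))) (.g (nat_lit 0) (.e (nat_lit 284686) (nat_lit 0) .nil) .nil))) 
(.lf (nat_lit 547675) (.g (nat_lit 2542) (.e (nat_lit 303138) (nat_lit 10) (.e (nat_lit 434231) (nat_lit 23) (.e (nat_lit 532569) (nat_lit 16) (.e (nat_lit 401448) (nat_lit 10) (.e (nat_lit 434227) (nat_lit 20) (.e (nat_lit 507946) (nat_lit 18) .nil)))))) (.g (nat_lit 1) (.e (nat_lit 286347) (nat_lit 0) .nil) .nil))))) (.nd (nat_lit 8) (.nd (nat_lit 9) 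
(.lf (nat_lit 547035) (.g (nat_lit 3591) (.e (nat_lit 303117) (nat_lit 2) (.e (nat_lit 196666) (nat_lit 13) (.e (nat_lit 65610) (nat_lit 10) (.e (nat_lit 344117) (nat_lit 21) (.e (nat_lit 516099) (nat_lit 0) (.e (nat_lit 7936) (nat_lit 377) (.e (nat_lit 2809) (nat_lit 180) .nil))))))) (.g (nat_lit 1) (.e (nat_lit 284542) (nat_lit 0) .nil) .nil))) 
(.lf (nat_lit 547547) (.g (nat_lit 1760) (.e (nat_lit 303119) (nat_lit 3) (.e (nat_lit 204877) (nat_lit 31) (.e (nat_lit 376869) (nat_lit 23) (.e (nat_lit 98350) (nat_lit 24) (.e (nat_lit 417536) (nat_lit 18) .nil))))) (.g (nat_lit 0) (.e (nat_lit 285389) (nat_lit 0) .nil) .nil)))) (.nd (nat_lit 9) 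
(.lf (nat_lit 547291) (.g (nat_lit 2934) (.e (nat_lit 303118) (nat_lit 3) (.e (nat_lit 204869) (nat_lit 29) (.e (nat_lit 360475) (nat_lit 8) (.e (nat_lit 557073) (nat_lit 9) .nil)))) (.g (nat_lit 0) (.e (nat_lit 284884) (nat_lit 0) .nil) .nil))) 
(.lf (nat_lit 547803) (.g (nat_lit 3202) (.e (nat_lit 303143) (nat_lit 12) (.e (nat_lit 475185) (nat_lit 29) (.e (nat_lit 557107) (nat_lit 15) (.e (nat_lit 188441) (nat_lit 20) (.e (nat_lit 3205) (nat_lit 194) (.e (nat_lit 507944) (nat_lit 18) .nil)))))) (.g (nat_lit 1) (.e (nat_lit 286800) (nat_lit 0) .nil) .nil))))))) (.nd (nat_lit 6) (.nd (nat_lit 7) (.nd (nat_lit 8) (.nd (nat_lit 9) 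
(.lf (nat_lit 546875) (.g (nat_lit 4655) (.e (nat_lit 303112) (nat_lit 0) (.e (nat_lit 3252) (nat_lit 197) (.e (nat_lit 532550) (nat_lit 12) (.e (nat_lit 360475) (nat_lit 8) (.e (nat_lit 557084) (nat_lit 10) (.e (nat_lit 16128) (nat_lit 225) (.e (nat_lit 2797) (nat_lit 180) .nil))))))) (.g (nat_lit 1) (.e (nat_lit 284212) (nat_lit 0) .nil) .nil))) 
(.lf (nat_lit 547387) (.g (nat_lit 2029) (.e (nat_lit 303119) (nat_lit 3) (.e (nat_lit 204852) (nat_lit 26) (.e (nat_lit 336130) (nat_lit 9) (.e (nat_lit 336021) (nat_lit 3) (.e (nat_lit 98350) (nat_lit 24) .nil))))) (.g (nat_lit 0) (.e (nat_lit 285038) (nat_lit 0) .nil) .nil)))) (.nd (nat_lit 9) 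
(.lf (nat_lit 547131) (.g (nat_lit 2819) (.e (nat_lit 303117) (nat_lit 2) (.e (nat_lit 196673) (nat_lit 15) (.e (nat_lit 81956) (nat_lit 23) (.e (nat_lit 98320) (nat_lit 17) (.e (nat_lit 7073) (nat_lit 377) (.e (nat_lit 2795) (nat_lit 180) .nil)))))) (.g (nat_lit 1) (.e (nat_lit 284651) (nat_lit 0) .nil) .nil))) 
(.lf (nat_lit 547643) (.g (nat_lit 2443) (.e (nat_lit 303132) (nat_lit 9) (.e (nat_lit 426109) (nat_lit 1) (.e (nat_lit 164319) (nat_lit 228) (.e (nat_lit 57412) (nat_lit 12) (.e (nat_lit 336061) (nat_lit 7) (.e (nat_lit 319527) (nat_lit 15) (.e (nat_lit 278547) (nat_lit 8) .nil))))))) (.g (nat_lit 1) (.e (nat_lit 285986) (nat_lit 0) .nil) .nil))))) (.nd (nat_lit 8) (.nd (nat_lit 9) 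
(.lf (nat_lit 547003) (.g (nat_lit 1914) (.e (nat_lit 303117) (nat_lit 2) (.e (nat_lit 196666) (nat_lit 13) (.e (nat_lit 65595) (nat_lit 9) (.e (nat_lit 336028) (nat_lit 3) (.e (nat_lit 98350) (nat_lit 24) .nil))))) (.g (nat_lit 0) (.e (nat_lit 284505) (nat_lit 0) .nil) .nil))) 
(.lf (nat_lit 547515) (.g (nat_lit 3138) (.e (nat_lit 303119) (nat_lit 3) (.e (nat_lit 204869) (nat_lit 29) (.e (nat_lit 360475) (nat_lit 8) (.e (nat_lit 557067) (nat_lit 9) .nil)))) (.g (nat_lit 0) (.e (nat_lit 285330) (nat_lit 0) .nil) .nil)))) (.nd (nat_lit 9) 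
(.lf (nat_lit 547259) (.g (nat_lit 3497) (.e (nat_lit 303118) (nat_lit 3) (.e (nat_lit 204868) (nat_lit 29) (.e (nat_lit 360468) (nat_lit 3) (.e (nat_lit 516139) (nat_lit 7) (.e (nat_lit 409648) (nat_lit 18) .nil))))) (.g (nat_lit 1) (.e (nat_lit 284845) (nat_lit 0) .nil) .nil))) 
(.lf (nat_lit 547771) (.g (nat_lit 2724) (.e (nat_lit 303143) (nat_lit 12) (.e (nat_lit 475185) (nat_lit 29) (.e (nat_lit 557100) (nat_lit 13) (.e (nat_lit 172113) (nat_lit 10) (.e (nat_lit 434225) (nat_lit 19) (.e (nat_lit 507648) (nat_lit 0) (.e (nat_lit 2797) (nat_lit 180) .nil))))))) (.g (nat_lit 1) (.e (nat_lit 286759) (nat_lit 0) .nil) .nil)))))) 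
(.nd (nat_lit 7) (.nd (nat_lit 8) (.nd (nat_lit 9) 
(.lf (nat_lit 546939) (.g (nat_lit 2900) (.e (nat_lit 303116) (nat_lit 2) (.e (nat_lit 196666) (nat_lit 13) (.e (nat_lit 65610) (nat_lit 10) (.e (nat_lit 344117) (nat_lit 21) (.e (nat_lit 516106) (nat_lit 0) (.e (nat_lit 7016) (nat_lit 377) (.e (nat_lit 2804) (nat_lit 180) .nil))))))) (.g (nat_lit 1) (.e (nat_lit 284410) (nat_lit 0) .nil) .nil))) 
(.lf (nat_lit 547451) (.g (nat_lit 4193) (.e (nat_lit 303119) (nat_lit 3) (.e (nat_lit 204866) (nat_lit 28) (.e (nat_lit 352315) (nat_lit 23) (.e (nat_lit 98349) (nat_lit 24) (.e (nat_lit 409646) (nat_lit 18) .nil))))) (.g (nat_lit 1) (.e (nat_lit 285164) (nat_lit 0) .nil) .nil)))) (.nd (nat_lit 9) 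
(.lf (nat_lit 547195) (.g (nat_lit 3541) (.e (nat_lit 303118) (nat_lit 3) (.e (nat_lit 204846) (nat_lit 24) (.e (nat_lit 319490) (nat_lit 0) (.e (nat_lit 5664) (nat_lit 312) (.e (nat_lit 2679) (nat_lit 168) (.e (nat_lit 204849) (nat_lit 25) (.e (nat_lit 327698) (nat_lit 8) .nil))))))) (.g (nat_lit 1) (.e (nat_lit 284723) (nat_lit 0) .nil) .nil))) 
(.lf (nat_lit 547707) (.g (nat_lit 1091) (.e (nat_lit 303142) (nat_lit 12) (.e (nat_lit 475183) (nat_lit 29) (.e (nat_lit 557109) (nat_lit 15) (.e (nat_lit 188449) (nat_lit 22) .nil)))) (.g (nat_lit 0) (.e (nat_lit 286631) (nat_lit 0) .nil) .nil))))) (.nd (nat_lit 8) (.nd (nat_lit 9) 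
(.lf (nat_lit 547067) (.g (nat_lit 1643) (.e (nat_lit 303117) (nat_lit 2) (.e (nat_lit 196666) (nat_lit 13) (.e (nat_lit 65610) (nat_lit 10) (.e (nat_lit 344129) (nat_lit 26) .nil)))) (.g (nat_lit 0) (.e (nat_lit 284575) (nat_lit 0) .nil) .nil))) 
(.lf (nat_lit 547579) (.g (nat_lit 1952) (.e (nat_lit 303124) (nat_lit 7) (.e (nat_lit 409646) (nat_lit 18) (.e (nat_lit 303140) (nat_lit 10) (.e (nat_lit 434265) (nat_lit 35) .nil)))) (.g (nat_lit 0) (.e (nat_lit 285527) (nat_lit 0) .nil) .nil)))) (.nd (nat_lit 9) 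
(.lf (nat_lit 547323) (.g (nat_lit 3374) (.e (nat_lit 303119) (nat_lit 3) (.e (nat_lit 204845) (nat_lit 24) (.e (nat_lit 319531) (nat_lit 16) (.e (nat_lit 286735) (nat_lit 3) (.e (nat_lit 98350) (nat_lit 24) (.e (nat_lit 417536) (nat_lit 8) .nil)))))) (.g (nat_lit 1) (.e (nat_lit 284940) (nat_lit 0) .nil) .nil))) 
(.lf (nat_lit 547835) (.g (nat_lit 3816) (.e (nat_lit 303143) (nat_lit 12) (.e (nat_lit 475211) (nat_lit 41) (.e (nat_lit 712755) (nat_lit 30) (.e (nat_lit 450597) (nat_lit 17) (.e (nat_lit 663589) (nat_lit 14) (.e (nat_lit 2797) (nat_lit 180) .nil)))))) (.g (nat_lit 1) (.e (nat_lit 286930) (nat_lit 0) .nil) .nil)))))))))) 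
(.nd (nat_lit 3) (.nd (nat_lit 4) (.nd (nat_lit 5) (.nd (nat_lit 6) (.nd (nat_lit 7) 
(.nd (nat_lit 8) (.nd (nat_lit 9) 
(.lf (nat_lit 546823) (.g (nat_lit 1066) (.e (nat_lit 303106) (nat_lit 0) (.e (nat_lit 7540) (nat_lit 402) (.e (nat_lit 1536) (nat_lit 109) (.e (nat_lit 344154) (nat_lit 35) (.e (nat_lit 630802) (nat_lit 8) .nil))))) (.g (nat_lit 0) (.e (nat_lit 284126) (nat_lit 0) .nil) .nil))) 
(.lf (nat_lit 547335) (.g (nat_lit 1424) (.e (nat_lit 303119) (nat_lit 3) (.e (nat_lit 204846) (nat_lit 24) (.e (nat_lit 319505) (nat_lit 10) (.e (nat_lit 5395) (nat_lit 301) .nil)))) (.g (nat_lit 0) (.e (nat_lit 284969) (nat_lit 0) .nil) .nil)))) (.nd (nat_lit 9) 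
(.lf (nat_lit 547079) (.g (nat_lit 4372) (.e (nat_lit 303117) (nat_lit 2) (.e (nat_lit 196666) (nat_lit 13) (.e (nat_lit 65617) (nat_lit 10) (.e (nat_lit 344133) (nat_lit 26) (.e (nat_lit 557084) (nat_lit 10) (.e (nat_lit 16128) (nat_lit 225) (.e (nat_lit 2798) (nat_lit 180) .nil))))))) (.g (nat_lit 1) (.e (nat_lit 284587) (nat_lit 0) .nil) .nil))) 
(.lf (nat_lit 547591) (.g (nat_lit 1608) (.e (nat_lit 303127) (nat_lit 9) (.e (nat_lit 426539) (nat_lit 29) (.e (nat_lit 352318) (nat_lit 24) (.e (nat_lit 123198) (nat_lit 266) (.e (nat_lit 57350) (nat_lit 0) (.e (nat_lit 6113) (nat_lit 332) (.e (nat_lit 2810) (nat_lit 180) .nil))))))) (.g (nat_lit 1) (.e (nat_lit 285603) (nat_lit 0) .nil) .nil))))) (.nd (nat_lit 8) (.nd (nat_lit 9) 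
(.lf (nat_lit 546951) (.g (nat_lit 4017) (.e (nat_lit 303116) (nat_lit 2) (.e (nat_lit 196666) (nat_lit 13) (.e (nat_lit 65617) (nat_lit 10) (.e (nat_lit 344133) (nat_lit 26) (.e (nat_lit 557084) (nat_lit 10) (.e (nat_lit 16128) (nat_lit 225) (.e (nat_lit 2797) (nat_lit 180) .nil))))))) (.g (nat_lit 1) (.e (nat_lit 284422) (nat_lit 0) .nil) .nil))) 
(.lf (nat_lit 547463) (.g (nat_lit 2197) (.e (nat_lit 303119) (nat_lit 3) (.e (nat_lit 204868) (nat_lit 29) (.e (nat_lit 360466) (nat_lit 3) (.e (nat_lit 516100) (nat_lit 0) (.e (nat_lit 7039) (nat_lit 377) (.e (nat_lit 7936) (nat_lit 180) .nil)))))) (.g (nat_lit 1) (.e (nat_lit 285184) (nat_lit 0) .nil) .nil)))) (.nd (nat_lit 9) 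
(.lf (nat_lit 547207) (.g (nat_lit 807) (.e (nat_lit 303118) (nat_lit 3) (.e (nat_lit 204855) (nat_lit 26) (.e (nat_lit 336095) (nat_lit 9) .nil))) (.g (nat_lit 0) (.e (nat_lit 284740) (nat_lit 0) .nil) .nil))) 
(.lf (nat_lit 547719) (.g (nat_lit 1195) (.e (nat_lit 303142) (nat_lit 12) (.e (nat_lit 475211) (nat_lit 41) (.e (nat_lit 712755) (nat_lit 30) (.e (nat_lit 450596) (nat_lit 17) .nil)))) (.g (nat_lit 0) (.e (nat_lit 286655) (nat_lit 0) .nil) .nil)))))) (.nd (nat_lit 7) (.nd (nat_lit 8) (.nd (nat_lit 9) 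
(.lf (nat_lit 546887) (.g (nat_lit 1873) (.e (nat_lit 303112) (nat_lit 0) (.e (nat_lit 3527) (nat_lit 218) (.e (nat_lit 704741) (nat_lit 11) (.e (nat_lit 16468) (nat_lit 13) (.e (nat_lit 483372) (nat_lit 21) (.e (nat_lit 327424) (nat_lit 18) .nil)))))) (.g (nat_lit 1) (.e (nat_lit 284234) (nat_lit 0) .nil) .nil))) 
(.lf (nat_lit 547399) (.g (nat_lit 3463) (.e (nat_lit 303119) (nat_lit 3) (.e (nat_lit 204855) (nat_lit 26) (.e (nat_lit 336073) (nat_lit 9) (.e (nat_lit 336028) (nat_lit 3) (.e (nat_lit 98350) (nat_lit 24) (.e (nat_lit 409643) (nat_lit 18) .nil)))))) (.g (nat_lit 1) (.e (nat_lit 285057) (nat_lit 0) .nil) .nil)))) (.nd (nat_lit 9) 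
(.lf (nat_lit 547143) (.g (nat_lit 1312) (.e (nat_lit 303117) (nat_lit 2) (.e (nat_lit 196674) (nat_lit 15) (.e (nat_lit 81946) (nat_lit 20) (.e (nat_lit 1802) (nat_lit 119) (.e (nat_lit 516106) (nat_lit 0) .nil))))) (.g (nat_lit 0) (.e (nat_lit 284663) (nat_lit 0) .nil) .nil))) 
(.lf (nat_lit 547655) (.g (nat_lit 3989) (.e (nat_lit 303137) (nat_lit 10) (.e (nat_lit 434231) (nat_lit 23) (.e (nat_lit 532569) (nat_lit 16) (.e (nat_lit 401448) (nat_lit 10) (.e (nat_lit 434227) (nat_lit 20) (.e (nat_lit 507946) (nat_lit 18) .nil)))))) (.g (nat_lit 1) (.e (nat_lit 286214) (nat_lit 0) .nil) .nil))))) (.nd (nat_lit 8) (.nd (nat_lit 9) 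
(.lf (nat_lit 547015) (.g (nat_lit 2402) (.e (nat_lit 303117) (nat_lit 2) (.e (nat_lit 196666) (nat_lit 13) (.e (nat_lit 65610) (nat_lit 10) (.e (nat_lit 344114) (nat_lit 20) .nil)))) (.g (nat_lit 0) (.e (nat_lit 284521) (nat_lit 0) .nil) .nil))) 
(.lf (nat_lit 547527) (.g (nat_lit 3926) (.e (nat_lit 303119) (nat_lit 3) (.e (nat_lit 204869) (nat_lit 29) (.e (nat_lit 360475) (nat_lit 8) (.e (nat_lit 557089) (nat_lit 12) (.e (nat_lit 163843) (nat_lit 0) (.e (nat_lit 6058) (nat_lit 327) (.e (nat_lit 8213) (nat_lit 9) .nil))))))) (.g (nat_lit 1) (.e (nat_lit 285361) (nat_lit 0) .nil) .nil)))) (.nd (nat_lit 9) 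
(.lf (nat_lit 547271) (.g (nat_lit 1845) (.e (nat_lit 303118) (nat_lit 3) (.e (nat_lit 204869) (nat_lit 29) (.e (nat_lit 360466) (nat_lit 3) (.e (nat_lit 516142) (nat_lit 8) .nil)))) (.g (nat_lit 0) (.e (nat_lit 284861) (nat_lit 0) .nil) .nil))) 
(.lf (nat_lit 547783) (.g (nat_lit 1529) (.e (nat_lit 303143) (nat_lit 12) (.e (nat_lit 475185) (nat_lit 29) (.e (nat_lit 557101) (nat_lit 13) (.e (nat_lit 172100) (nat_lit 9) .nil)))) (.g (nat_lit 0) (.e (nat_lit 286774) (nat_lit 0) .nil) .nil))))))) (.nd (nat_lit 6) (.nd (nat_lit 7) (.nd (nat_lit 8) (.nd (nat_lit 9) 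
(.lf (nat_lit 546855) (.g (nat_lit 457) (.e (nat_lit 303109) (nat_lit 0) (.e (nat_lit 3469) (nat_lit 217) (.e (nat_lit 696344) (nat_lit 8) .nil))) (.g (nat_lit 0) (.e (nat_lit 284179) (nat_lit 0) .nil) .nil))) 
(.lf (nat_lit 547367) (.g (nat_lit 3374) (.e (nat_lit 303119) (nat_lit 3) (.e (nat_lit 204846) (nat_lit 24) (.e (nat_lit 319534) (nat_lit 16) (.e (nat_lit 286734) (nat_lit 3) (.e (nat_lit 98350) (nat_lit 24) (.e (nat_lit 417536) (nat_lit 8) .nil)))))) (.g (nat_lit 1) (.e (nat_lit 285014) (nat_lit 0) .nil) .nil)))) (.nd (nat_lit 9) 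
(.lf (nat_lit 547111) (.g (nat_lit 2107) (.e (nat_lit 303117) (nat_lit 2) (.e (nat_lit 196672) (nat_lit 15) (.e (nat_lit 81954) (nat_lit 23) (.e (nat_lit 98331) (nat_lit 17) .nil)))) (.g (nat_lit 0) (.e (nat_lit 284627) (nat_lit 0) .nil) .nil))) 
(.lf (nat_lit 547623) (.g (nat_lit 522) (.e (nat_lit 303133) (nat_lit 9) (.e (nat_lit 426412) (nat_lit 15) (.e (nat_lit 2175) (nat_lit 143) .nil))) (.g (nat_lit 0) (.e (nat_lit 285837) (nat_lit 0) .nil) .nil))))) (.nd (nat_lit 8) (.nd (nat_lit 9) 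
(.lf (nat_lit 546983) (.g (nat_lit 3212) (.e (nat_lit 303117) (nat_lit 2) (.e (nat_lit 196661) (nat_lit 12) (.e (nat_lit 65280) (nat_lit 206) (.e (nat_lit 180243) (nat_lit 5) (.e (nat_lit 532486) (nat_lit 0) (.e (nat_lit 6113) (nat_lit 332) (.e (nat_lit 1376) (nat_lit 104) .nil))))))) (.g (nat_lit 1) (.e (nat_lit 284474) (nat_lit 0) .nil) .nil))) 
(.lf (nat_lit 547495) (.g (nat_lit 3848) (.e (nat_lit 303119) (nat_lit 3) (.e (nat_lit 204869) (nat_lit 29) (.e (nat_lit 360467) (nat_lit 3) (.e (nat_lit 516139) (nat_lit 7) (.e (nat_lit 409643) (nat_lit 18) .nil))))) (.g (nat_lit 1) (.e (nat_lit 285255) (nat_lit 0) .nil) .nil)))) (.nd (nat_lit 9) 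
(.lf (nat_lit 547239) (.g (nat_lit 760) (.e (nat_lit 303118) (nat_lit 3) (.e (nat_lit 204866) (nat_lit 28) (.e (nat_lit 352290) (nat_lit 20) .nil))) (.g (nat_lit 0) (.e (nat_lit 284806) (nat_lit 0) .nil) .nil))) 
(.lf (nat_lit 547751) (.g (nat_lit 2355) (.e (nat_lit 303143) (nat_lit 12) (.e (nat_lit 475185) (nat_lit 29) (.e (nat_lit 557100) (nat_lit 13) (.e (nat_lit 172106) (nat_lit 10) (.e (nat_lit 434217) (nat_lit 19) (.e (nat_lit 499728) (nat_lit 0) (.e (nat_lit 2797) (nat_lit 180) .nil))))))) (.g (nat_lit 1) (.e (nat_lit 286736) (nat_lit 0) .nil) .nil)))))) 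
(.nd (nat_lit 7) (.nd (nat_lit 8) (.nd (nat_lit 9) 
(.lf (nat_lit 546919) (.g (nat_lit 1238) (.e (nat_lit 303114) (nat_lit 1) (.e (nat_lit 164399) (nat_lit 256) (.e (nat_lit 57409) (nat_lit 12) (.e (nat_lit 336433) (nat_lit 30) .nil)))) (.g (nat_lit 0) (.e (nat_lit 284342) (nat_lit 0) .nil) .nil))) 
(.lf (nat_lit 547431) (.g (nat_lit 1602) (.e (nat_lit 303119) (nat_lit 3) (.e (nat_lit 204861) (nat_lit 26) (.e (nat_lit 336076) (nat_lit 9) (.e (nat_lit 336018) (nat_lit 3) .nil)))) (.g (nat_lit 0) (.e (nat_lit 285113) (nat_lit 0) .nil) .nil)))) (.nd (nat_lit 9) 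
(.lf (nat_lit 547175) (.g (nat_lit 1499) (.e (nat_lit 303117) (nat_lit 2) (.e (nat_lit 196681) (nat_lit 17) (.e (nat_lit 131108) (nat_lit 9) (.e (nat_lit 336019) (nat_lit 3) (.e (nat_lit 98349) (nat_lit 24) .nil))))) (.g (nat_lit 0) (.e (nat_lit 284699) (nat_lit 0) .nil) .nil))) 
(.lf (nat_lit 547687) (.g (nat_lit 1597) (.e (nat_lit 303139) (nat_lit 10) (.e (nat_lit 434268) (nat_lit 36) (.e (nat_lit 639020) (nat_lit 16) (.e (nat_lit 65583) (nat_lit 7) (.e (nat_lit 319524) (nat_lit 14) .nil))))) (.g (nat_lit 0) (.e (nat_lit 286429) (nat_lit 0) .nil) .nil))))) (.nd (nat_lit 8) (.nd (nat_lit 9) 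
(.lf (nat_lit 547047) (.g (nat_lit 2819) (.e (nat_lit 303117) (nat_lit 2) (.e (nat_lit 196666) (nat_lit 13) (.e (nat_lit 65610) (nat_lit 10) (.e (nat_lit 344117) (nat_lit 21) (.e (nat_lit 516106) (nat_lit 0) (.e (nat_lit 6998) (nat_lit 377) (.e (nat_lit 2795) (nat_lit 180) .nil))))))) (.g (nat_lit 1) (.e (nat_lit 284554) (nat_lit 0) .nil) .nil))) 
(.lf (nat_lit 547559) (.g (nat_lit 4311) (.e (nat_lit 303119) (nat_lit 3) (.e (nat_lit 204885) (nat_lit 33) (.e (nat_lit 401448) (nat_lit 10) (.e (nat_lit 434231) (nat_lit 23) (.e (nat_lit 532490) (nat_lit 0) (.e (nat_lit 6114) (nat_lit 332) (.e (nat_lit 1376) (nat_lit 104) .nil))))))) (.g (nat_lit 1) (.e (nat_lit 285405) (nat_lit 0) .nil) .nil)))) (.nd (nat_lit 9) 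
(.lf (nat_lit 547303) (.g (nat_lit 2613) (.e (nat_lit 303118) (nat_lit 3) (.e (nat_lit 204885) (nat_lit 33) (.e (nat_lit 401434) (nat_lit 9) (.e (nat_lit 426140) (nat_lit 3) (.e (nat_lit 204821) (nat_lit 17) (.e (nat_lit 6114) (nat_lit 332) (.e (nat_lit 1376) (nat_lit 104) .nil))))))) (.g (nat_lit 1) (.e (nat_lit 284896) (nat_lit 0) .nil) .nil))) 
(.lf (nat_lit 547815) (.g (nat_lit 3651) (.e (nat_lit 303143) (nat_lit 12) (.e (nat_lit 475185) (nat_lit 29) (.e (nat_lit 557109) (nat_lit 15) (.e (nat_lit 188433) (nat_lit 20) (.e (nat_lit 3204) (nat_lit 194) .nil))))) (.g (nat_lit 0) (.e (nat_lit 286812) (nat_lit 0) .nil) .nil)))))))) (.nd (nat_lit 5) (.nd (nat_lit 6) (.nd (nat_lit 7) (.nd (nat_lit 8) (.nd (nat_lit 9) 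
(.lf (nat_lit 546839) (.g (nat_lit 2422) (.e (nat_lit 303108) (nat_lit 0) (.e (nat_lit 3238) (nat_lit 197) (.e (nat_lit 532535) (nat_lit 9) (.e (nat_lit 336101) (nat_lit 9) .nil)))) (.g (nat_lit 0) (.e (nat_lit 284152) (nat_lit 0) .nil) .nil))) 
(.lf (nat_lit 547351) (.g (nat_lit 3249) (.e (nat_lit 303119) (nat_lit 3) (.e (nat_lit 204846) (nat_lit 24) (.e (nat_lit 319531) (nat_lit 16) (.e (nat_lit 286735) (nat_lit 3) (.e (nat_lit 98350) (nat_lit 24) (.e (nat_lit 417536) (nat_lit 8) .nil)))))) (.g (nat_lit 1) (.e (nat_lit 284996) (nat_lit 0) .nil) .nil)))) (.nd (nat_lit 9) 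
(.lf (nat_lit 547095) (.g (nat_lit 437) (.e (nat_lit 303117) (nat_lit 2) (.e (nat_lit 196672) (nat_lit 15) (.e (nat_lit 81943) (nat_lit 20) .nil))) (.g (nat_lit 0) (.e (nat_lit 284610) (nat_lit 0) .nil) .nil))) 
(.lf (nat_lit 547607) (.g (nat_lit 4003) (.e (nat_lit 303133) (nat_lit 9) (.e (nat_lit 426412) (nat_lit 15) (.e (nat_lit 1846) (nat_lit 124) (.e (nat_lit 557109) (nat_lit 15) (.e (nat_lit 188449) (nat_lit 22) (.e (nat_lit 204544) (nat_lit 18) (.e (nat_lit 2798) (nat_lit 180) .nil))))))) (.g (nat_lit 1) (.e (nat_lit 285747) (nat_lit 0) .nil) .nil))))) (.nd (nat_lit 8) (.nd (nat_lit 9) 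
(.lf (nat_lit 546967) (.g (nat_lit 1234) (.e (nat_lit 303116) (nat_lit 2) (.e (nat_lit 196674) (nat_lit 15) (.e (nat_lit 81951) (nat_lit 22) (.e (nat_lit 90165) (nat_lit 12) .nil)))) (.g (nat_lit 0) (.e (nat_lit 284441) (nat_lit 0) .nil) .nil))) 
(.lf (nat_lit 547479) (.g (nat_lit 1119) (.e (nat_lit 303119) (nat_lit 3) (.e (nat_lit 204868) (nat_lit 29) (.e (nat_lit 360467) (nat_lit 3) (.e (nat_lit 524032) (nat_lit 7) .nil)))) (.g (nat_lit 0) (.e (nat_lit 285200) (nat_lit 0) .nil) .nil)))) (.nd (nat_lit 9) 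
(.lf (nat_lit 547223) (.g (nat_lit 1931) (.e (nat_lit 303118) (nat_lit 3) (.e (nat_lit 204855) (nat_lit 26) (.e (nat_lit 336176) (nat_lit 10) (.e (nat_lit 344115) (nat_lit 20) (.e (nat_lit 507920) (nat_lit 5) .nil))))) (.g (nat_lit 0) (.e (nat_lit 284781) (nat_lit 0) .nil) .nil))) 
(.lf (nat_lit 547735) (.g (nat_lit 480) (.e (nat_lit 303143) (nat_lit 12) (.e (nat_lit 475185) (nat_lit 29) (.e (nat_lit 557100) (nat_lit 13) .nil))) (.g (nat_lit 0) (.e (nat_lit 286715) (nat_lit 0) .nil) .nil)))))) (.nd (nat_lit 7) (.nd (nat_lit 8) (.nd (nat_lit 9) 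
(.lf (nat_lit 546903) (.g (nat_lit 3435) (.e (nat_lit 303111) (nat_lit 0) (.e (nat_lit 3255) (nat_lit 197) (.e (nat_lit 532535) (nat_lit 9) (.e (nat_lit 336099) (nat_lit 9) (.e (nat_lit 335922) (nat_lit 0) (.e (nat_lit 1788) (nat_lit 119) (.e (nat_lit 516139) (nat_lit 7) (.e (nat_lit 409649) (nat_lit 18) .nil)))))))) (.g (nat_lit 1) (.e (nat_lit 284284) (nat_lit 0) .nil) .nil))) 
(.lf (nat_lit 547415) (.g (nat_lit 768) (.e (nat_lit 303119) (nat_lit 3) (.e (nat_lit 204855) (nat_lit 26) (.e (nat_lit 336104) (nat_lit 9) .nil))) (.g (nat_lit 0) (.e (nat_lit 285088) (nat_lit 0) .nil) .nil)))) (.nd (nat_lit 9) 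
(.lf (nat_lit 547159) (.g (nat_lit 1078) (.e (nat_lit 303117) (nat_lit 2) (.e (nat_lit 196674) (nat_lit 15) (.e (nat_lit 81954) (nat_lit 23) (.e (nat_lit 106240) (nat_lit 24) .nil)))) (.g (nat_lit 0) (.e (nat_lit 284682) (nat_lit 0) .nil) .nil))) 
(.lf (nat_lit 547671) (.g (nat_lit 2734) (.e (nat_lit 303137) (nat_lit 10) (.e (nat_lit 434295) (nat_lit 49) (.e (nat_lit 745491) (nat_lit 4) (.e (nat_lit 65610) (nat_lit 10) (.e (nat_lit 344129) (nat_lit 26) (.e (nat_lit 557118) (nat_lit 18) (.e (nat_lit 2807) (nat_lit 180) .nil))))))) (.g (nat_lit 1) (.e (nat_lit 286336) (nat_lit 0) .nil) .nil))))) (.nd (nat_lit 8) (.nd (nat_lit 9) 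
(.lf (nat_lit 547031) (.g (nat_lit 3556) (.e (nat_lit 303117) (nat_lit 2) (.e (nat_lit 196666) (nat_lit 13) (.e (nat_lit 65610) (nat_lit 10) (.e (nat_lit 344117) (nat_lit 21) (.e (nat_lit 516099) (nat_lit 0) (.e (nat_lit 7062) (nat_lit 377) (.e (nat_lit 2804) (nat_lit 180) .nil))))))) (.g (nat_lit 1) (.e (nat_lit 284538) (nat_lit 0) .nil) .nil))) 
(.lf (nat_lit 547543) (.g (nat_lit 1210) (.e (nat_lit 303119) (nat_lit 3) (.e (nat_lit 204877) (nat_lit 31) (.e (nat_lit 376862) (nat_lit 22) (.e (nat_lit 90165) (nat_lit 12) .nil)))) (.g (nat_lit 0) (.e (nat_lit 285383) (nat_lit 0) .nil) .nil)))) (.nd (nat_lit 9) 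
(.lf (nat_lit 547287) (.g (nat_lit 2872) (.e (nat_lit 303118) (nat_lit 3) (.e (nat_lit 204869) (nat_lit 29) (.e (nat_lit 360475) (nat_lit 8) (.e (nat_lit 557067) (nat_lit 9) .nil)))) (.g (nat_lit 0) (.e (nat_lit 284879) (nat_lit 0) .nil) .nil))) 
(.lf (nat_lit 547799) (.g (nat_lit 1908) (.e (nat_lit 303143) (nat_lit 12) (.e (nat_lit 475185) (nat_lit 29) (.e (nat_lit 557107) (nat_lit 15) (.e (nat_lit 188440) (nat_lit 20) (.e (nat_lit 3115) (nat_lit 193) .nil))))) (.g (nat_lit 0) (.e (nat_lit 286796) (nat_lit 0) .nil) .nil))))))) (.nd (nat_lit 6) (.nd (nat_lit 7) (.nd (nat_lit 8) (.nd (nat_lit 9) 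
(.lf (nat_lit 546871) (.g (nat_lit 1735) (.e (nat_lit 303112) (nat_lit 0) (.e (nat_lit 3252) (nat_lit 197) (.e (nat_lit 532547) (nat_lit 11) (.e (nat_lit 352315) (nat_lit 23) (.e (nat_lit 98350) (nat_lit 24) .nil))))) (.g (nat_lit 0) (.e (nat_lit 284201) (nat_lit 0) .nil) .nil))) 
(.lf (nat_lit 547383) (.g (nat_lit 545) (.e (nat_lit 303119) (nat_lit 3) (.e (nat_lit 204852) (nat_lit 26) (.e (nat_lit 336129) (nat_lit 9) .nil))) (.g (nat_lit 0) (.e (nat_lit 285034) (nat_lit 0) .nil) .nil)))) (.nd (nat_lit 9) 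
(.lf (nat_lit 547127) (.g (nat_lit 757) (.e (nat_lit 303117) (nat_lit 2) (.e (nat_lit 196673) (nat_lit 15) (.e (nat_lit 81953) (nat_lit 22) (.e (nat_lit 90165) (nat_lit 12) .nil)))) (.g (nat_lit 0) (.e (nat_lit 284647) (nat_lit 0) .nil) .nil))) 
(.lf (nat_lit 547639) (.g (nat_lit 1355) (.e (nat_lit 303133) (nat_lit 9) (.e (nat_lit 426499) (nat_lit 27) (.e (nat_lit 336196) (nat_lit 12) (.e (nat_lit 385096) (nat_lit 49) .nil)))) (.g (nat_lit 0) (.e (nat_lit 285910) (nat_lit 0) .nil) .nil))))) (.nd (nat_lit 8) (.nd (nat_lit 9) 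
(.lf (nat_lit 546999) (.g (nat_lit 3176) (.e (nat_lit 303117) (nat_lit 2) (.e (nat_lit 196666) (nat_lit 13) (.e (nat_lit 65589) (nat_lit 9) (.e (nat_lit 336013) (nat_lit 2) (.e (nat_lit 90165) (nat_lit 12) (.e (nat_lit 164208) (nat_lit 176) (.e (nat_lit 7936) (nat_lit 180) .nil))))))) (.g (nat_lit 1) (.e (nat_lit 284500) (nat_lit 0) .nil) .nil))) 
(.lf (nat_lit 547511) (.g (nat_lit 2095) (.e (nat_lit 303119) (nat_lit 3) (.e (nat_lit 204869) (nat_lit 29) (.e (nat_lit 360475) (nat_lit 8) (.e (nat_lit 557064) (nat_lit 9) .nil)))) (.g (nat_lit 0) (.e (nat_lit 285321) (nat_lit 0) .nil) .nil)))) (.nd (nat_lit 9) 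
(.lf (nat_lit 547255) (.g (nat_lit 1960) (.e (nat_lit 303118) (nat_lit 3) (.e (nat_lit 204868) (nat_lit 29) (.e (nat_lit 360467) (nat_lit 3) (.e (nat_lit 516139) (nat_lit 7) (.e (nat_lit 409643) (nat_lit 18) .nil))))) (.g (nat_lit 0) (.e (nat_lit 284841) (nat_lit 0) .nil) .nil))) 
(.lf (nat_lit 547767) (.g (nat_lit 2191) (.e (nat_lit 303143) (nat_lit 12) (.e (nat_lit 475185) (nat_lit 29) (.e (nat_lit 557100) (nat_lit 13) (.e (nat_lit 172113) (nat_lit 10) (.e (nat_lit 434219) (nat_lit 19) (.e (nat_lit 499718) (nat_lit 0) (.e (nat_lit 2810) (nat_lit 180) .nil))))))) (.g (nat_lit 1) (.e (nat_lit 286755) (nat_lit 0) .nil) .nil)))))) 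
(.nd (nat_lit 7) (.nd (nat_lit 8) (.nd (nat_lit 9) 
(.lf (nat_lit 546935) (.g (nat_lit 2187) (.e (nat_lit 303116) (nat_lit 2) (.e (nat_lit 196666) (nat_lit 13) (.e (nat_lit 65610) (nat_lit 10) (.e (nat_lit 344117) (nat_lit 21) (.e (nat_lit 516106) (nat_lit 0) (.e (nat_lit 7008) (nat_lit 377) (.e (nat_lit 2804) (nat_lit 180) .nil))))))) (.g (nat_lit 1) (.e (nat_lit 284406) (nat_lit 0) .nil) .nil))) 
(.lf (nat_lit 547447) (.g (nat_lit 3142) (.e (nat_lit 303119) (nat_lit 3) (.e (nat_lit 204866) (nat_lit 28) (.e (nat_lit 352313) (nat_lit 23) (.e (nat_lit 98350) (nat_lit 24) (.e (nat_lit 409643) (nat_lit 18) .nil))))) (.g (nat_lit 1) (.e (nat_lit 285152) (nat_lit 0) .nil) .nil)))) (.nd (nat_lit 9) 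
(.lf (nat_lit 547191) (.g (nat_lit 932) (.e (nat_lit 303118) (nat_lit 3) (.e (nat_lit 204838) (nat_lit 20) (.e (nat_lit 114715) (nat_lit 22) .nil))) (.g (nat_lit 0) (.e (nat_lit 284716) (nat_lit 0) .nil) .nil))) 
(.lf (nat_lit 547703) (.g (nat_lit 2545) (.e (nat_lit 303140) (nat_lit 10) (.e (nat_lit 434291) (nat_lit 44) (.e (nat_lit 704737) (nat_lit 11) (.e (nat_lit 16472) (nat_lit 14) (.e (nat_lit 499456) (nat_lit 25) .nil))))) (.g (nat_lit 0) (.e (nat_lit 286619) (nat_lit 0) .nil) .nil))))) (.nd (nat_lit 8) (.nd (nat_lit 9) 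
(.lf (nat_lit 547063) (.g (nat_lit 4893) (.e (nat_lit 303117) (nat_lit 2) (.e (nat_lit 196666) (nat_lit 13) (.e (nat_lit 65610) (nat_lit 10) (.e (nat_lit 344117) (nat_lit 21) (.e (nat_lit 516139) (nat_lit 7) (.e (nat_lit 409649) (nat_lit 18) .nil)))))) (.g (nat_lit 1) (.e (nat_lit 284570) (nat_lit 0) .nil) .nil))) 
(.lf (nat_lit 547575) (.g (nat_lit 570) (.e (nat_lit 303124) (nat_lit 7) (.e (nat_lit 409646) (nat_lit 18) (.e (nat_lit 303111) (nat_lit 0) .nil))) (.g (nat_lit 0) (.e (nat_lit 285519) (nat_lit 0) .nil) .nil)))) (.nd (nat_lit 9) 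
(.lf (nat_lit 547319) (.g (nat_lit 574) (.e (nat_lit 303119) (nat_lit 3) (.e (nat_lit 204845) (nat_lit 24) (.e (nat_lit 319491) (nat_lit 0) .nil))) (.g (nat_lit 0) (.e (nat_lit 284932) (nat_lit 0) .nil) .nil))) 
(.lf (nat_lit 547831) (.g (nat_lit 2646) (.e (nat_lit 303143) (nat_lit 12) (.e (nat_lit 475211) (nat_lit 41) (.e (nat_lit 712755) (nat_lit 30) (.e (nat_lit 450562) (nat_lit 0) (.e (nat_lit 5924) (nat_lit 321) (.e (nat_lit 8213) (nat_lit 9) .nil)))))) (.g (nat_lit 1) (.e (nat_lit 286897) (nat_lit 0) .nil) .nil))))))))) 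
(.nd (nat_lit 4) (.nd (nat_lit 5) (.nd (nat_lit 6) (.nd (nat_lit 7) (.nd (nat_lit 8) 
(.nd (nat_lit 9) 
(.lf (nat_lit 546831) (.g (nat_lit 1438) (.e (nat_lit 303107) (nat_lit 0) (.e (nat_lit 3238) (nat_lit 197) (.e (nat_lit 532547) (nat_lit 11) (.e (nat_lit 352314) (nat_lit 23) .nil)))) (.g (nat_lit 0) (.e (nat_lit 284137) (nat_lit 0) .nil) .nil))) 
(.lf (nat_lit 547343) (.g (nat_lit 3215) (.e (nat_lit 303119) (nat_lit 3) (.e (nat_lit 204846) (nat_lit 24) (.e (nat_lit 319529) (nat_lit 16) (.e (nat_lit 286735) (nat_lit 3) (.e (nat_lit 98325) (nat_lit 17) (.e (nat_lit 6986) (nat_lit 377) (.e (nat_lit 1376) (nat_lit 104) .nil))))))) (.g (nat_lit 1) (.e (nat_lit 284988) (nat_lit 0) .nil) .nil)))) (.nd (nat_lit 9) 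
(.lf (nat_lit 547087) (.g (nat_lit 5521) (.e (nat_lit 303117) (nat_lit 2) (.e (nat_lit 196666) (nat_lit 13) (.e (nat_lit 65630) (nat_lit 14) (.e (nat_lit 401428) (nat_lit 3) (.e (nat_lit 204849) (nat_lit 25) (.e (nat_lit 327699) (nat_lit 8) .nil)))))) (.g (nat_lit 1) (.e (nat_lit 284597) (nat_lit 0) .nil) .nil))) 
(.lf (nat_lit 547599) (.g (nat_lit 376) (.e (nat_lit 303130) (nat_lit 9) (.e (nat_lit 426025) (nat_lit 0) (.e (nat_lit 3397) (nat_lit 211) .nil))) (.g (nat_lit 0) (.e (nat_lit 285650) (nat_lit 0) .nil) .nil))))) (.nd (nat_lit 8) (.nd (nat_lit 9) 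
(.lf (nat_lit 546959) (.g (nat_lit 691) (.e (nat_lit 303116) (nat_lit 2) (.e (nat_lit 196670) (nat_lit 14) (.e (nat_lit 73781) (nat_lit 32) .nil))) (.g (nat_lit 0) (.e (nat_lit 284433) (nat_lit 0) .nil) .nil))) 
(.lf (nat_lit 547471) (.g (nat_lit 2904) (.e (nat_lit 303119) (nat_lit 3) (.e (nat_lit 204868) (nat_lit 29) (.e (nat_lit 360466) (nat_lit 3) (.e (nat_lit 516139) (nat_lit 7) (.e (nat_lit 417536) (nat_lit 18) .nil))))) (.g (nat_lit 1) (.e (nat_lit 285192) (nat_lit 0) .nil) .nil)))) (.nd (nat_lit 9) 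
(.lf (nat_lit 547215) (.g (nat_lit 4212) (.e (nat_lit 303118) (nat_lit 3) (.e (nat_lit 204855) (nat_lit 26) (.e (nat_lit 336099) (nat_lit 9) (.e (nat_lit 336013) (nat_lit 2) (.e (nat_lit 90165) (nat_lit 12) (.e (nat_lit 164207) (nat_lit 176) (.e (nat_lit 2808) (nat_lit 180) .nil))))))) (.g (nat_lit 1) (.e (nat_lit 284763) (nat_lit 0) .nil) .nil))) 
(.lf (nat_lit 547727) (.g (nat_lit 2619) (.e (nat_lit 303142) (nat_lit 12) (.e (nat_lit 475218) (nat_lit 44) (.e (nat_lit 737318) (nat_lit 15) (.e (nat_lit 49189) (nat_lit 11) (.e (nat_lit 16425) (nat_lit 7) (.e (nat_lit 409648) (nat_lit 18) .nil)))))) (.g (nat_lit 1) (.e (nat_lit 286664) (nat_lit 0) .nil) .nil)))))) (.nd (nat_lit 7) (.nd (nat_lit 8) (.nd (nat_lit 9) 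
(.lf (nat_lit 546895) (.g (nat_lit 2353) (.e (nat_lit 303111) (nat_lit 0) (.e (nat_lit 3238) (nat_lit 197) (.e (nat_lit 532535) (nat_lit 9) (.e (nat_lit 336110) (nat_lit 9) .nil)))) (.g (nat_lit 0) (.e (nat_lit 284268) (nat_lit 0) .nil) .nil))) 
(.lf (nat_lit 547407) (.g (nat_lit 961) (.e (nat_lit 303119) (nat_lit 3) (.e (nat_lit 204855) (nat_lit 26) (.e (nat_lit 336099) (nat_lit 9) (.e (nat_lit 336013) (nat_lit 2) .nil)))) (.g (nat_lit 0) (.e (nat_lit 285069) (nat_lit 0) .nil) .nil)))) (.nd (nat_lit 9) 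
(.lf (nat_lit 547151) (.g (nat_lit 3942) (.e (nat_lit 303117) (nat_lit 2) (.e (nat_lit 196674) (nat_lit 15) (.e (nat_lit 81953) (nat_lit 22) (.e (nat_lit 90130) (nat_lit 9) (.e (nat_lit 2830) (nat_lit 182) (.e (nat_lit 417536) (nat_lit 18) .nil)))))) (.g (nat_lit 1) (.e (nat_lit 284672) (nat_lit 0) .nil) .nil))) 
(.lf (nat_lit 547663) (.g (nat_lit 1067) (.e (nat_lit 303137) (nat_lit 10) (.e (nat_lit 434268) (nat_lit 36) (.e (nat_lit 639020) (nat_lit 16) (.e (nat_lit 65583) (nat_lit 7) .nil)))) (.g (nat_lit 0) (.e (nat_lit 286272) (nat_lit 0) .nil) .nil))))) (.nd (nat_lit 8) (.nd (nat_lit 9) 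
(.lf (nat_lit 547023) (.g (nat_lit 4167) (.e (nat_lit 303117) (nat_lit 2) (.e (nat_lit 196666) (nat_lit 13) (.e (nat_lit 65610) (nat_lit 10) (.e (nat_lit 344117) (nat_lit 21) (.e (nat_lit 516097) (nat_lit 0) (.e (nat_lit 7073) (nat_lit 377) (.e (nat_lit 2795) (nat_lit 180) .nil))))))) (.g (nat_lit 1) (.e (nat_lit 284530) (nat_lit 0) .nil) .nil))) 
(.lf (nat_lit 547535) (.g (nat_lit 2820) (.e (nat_lit 303119) (nat_lit 3) (.e (nat_lit 204870) (nat_lit 29) (.e (nat_lit 360467) (nat_lit 3) (.e (nat_lit 516102) (nat_lit 0) (.e (nat_lit 6989) (nat_lit 377) (.e (nat_lit 2810) (nat_lit 180) .nil)))))) (.g (nat_lit 1) (.e (nat_lit 285374) (nat_lit 0) .nil) .nil)))) (.nd (nat_lit 9) 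
(.lf (nat_lit 547279) (.g (nat_lit 4445) (.e (nat_lit 303118) (nat_lit 3) (.e (nat_lit 204869) (nat_lit 29) (.e (nat_lit 360468) (nat_lit 3) (.e (nat_lit 516139) (nat_lit 7) (.e (nat_lit 409649) (nat_lit 18) .nil))))) (.g (nat_lit 1) (.e (nat_lit 284869) (nat_lit 0) .nil) .nil))) 
(.lf (nat_lit 547791) (.g (nat_lit 3005) (.e (nat_lit 303143) (nat_lit 12) (.e (nat_lit 475185) (nat_lit 29) (.e (nat_lit 557101) (nat_lit 13) (.e (nat_lit 172115) (nat_lit 10) (.e (nat_lit 434227) (nat_lit 20) (.e (nat_lit 507945) (nat_lit 18) .nil)))))) (.g (nat_lit 1) (.e (nat_lit 286782) (nat_lit 0) .nil) .nil))))))) (.nd (nat_lit 6) (.nd (nat_lit 7) (.nd (nat_lit 8) (.nd (nat_lit 9) 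
(.lf (nat_lit 546863) (.g (nat_lit 1626) (.e (nat_lit 303110) (nat_lit 0) (.e (nat_lit 3255) (nat_lit 197) (.e (nat_lit 532560) (nat_lit 14) (.e (nat_lit 376869) (nat_lit 23) (.e (nat_lit 98350) (nat_lit 24) .nil))))) (.g (nat_lit 0) (.e (nat_lit 284189) (nat_lit 0) .nil) .nil))) 
(.lf (nat_lit 547375) (.g (nat_lit 2678) (.e (nat_lit 303119) (nat_lit 3) (.e (nat_lit 204849) (nat_lit 25) (.e (nat_lit 327698) (nat_lit 8) (.e (nat_lit 303119) (nat_lit 3) (.e (nat_lit 204846) (nat_lit 24) (.e (nat_lit 327424) (nat_lit 8) .nil)))))) (.g (nat_lit 1) (.e (nat_lit 285023) (nat_lit 0) .nil) .nil)))) (.nd (nat_lit 9) 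
(.lf (nat_lit 547119) (.g (nat_lit 3092) (.e (nat_lit 303117) (nat_lit 2) (.e (nat_lit 196672) (nat_lit 15) (.e (nat_lit 81956) (nat_lit 23) (.e (nat_lit 98350) (nat_lit 24) (.e (nat_lit 409645) (nat_lit 18) .nil))))) (.g (nat_lit 0) (.e (nat_lit 284635) (nat_lit 0) .nil) .nil))) 
(.lf (nat_lit 547631) (.g (nat_lit 335) (.e (nat_lit 303133) (nat_lit 9) (.e (nat_lit 426412) (nat_lit 15) (.e (nat_lit 2233) (nat_lit 146) .nil))) (.g (nat_lit 0) (.e (nat_lit 285846) (nat_lit 0) .nil) .nil))))) (.nd (nat_lit 8) (.nd (nat_lit 9) 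
(.lf (nat_lit 546991) (.g (nat_lit 3620) (.e (nat_lit 303117) (nat_lit 2) (.e (nat_lit 196665) (nat_lit 13) (.e (nat_lit 65589) (nat_lit 9) (.e (nat_lit 336013) (nat_lit 2) (.e (nat_lit 90165) (nat_lit 12) (.e (nat_lit 164210) (nat_lit 176) (.e (nat_lit 2797) (nat_lit 180) .nil))))))) (.g (nat_lit 1) (.e (nat_lit 284482) (nat_lit 0) .nil) .nil))) 
(.lf (nat_lit 547503) (.g (nat_lit 3433) (.e (nat_lit 303119) (nat_lit 3) (.e (nat_lit 204869) (nat_lit 29) (.e (nat_lit 360474) (nat_lit 8) (.e (nat_lit 557065) (nat_lit 9) .nil)))) (.g (nat_lit 0) (.e (nat_lit 285290) (nat_lit 0) .nil) .nil)))) (.nd (nat_lit 9) 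
(.lf (nat_lit 547247) (.g (nat_lit 2734) (.e (nat_lit 303118) (nat_lit 3) (.e (nat_lit 204868) (nat_lit 29) (.e (nat_lit 360466) (nat_lit 3) (.e (nat_lit 516097) (nat_lit 0) (.e (nat_lit 7026) (nat_lit 377) (.e (nat_lit 2805) (nat_lit 180) .nil)))))) (.g (nat_lit 1) (.e (nat_lit 284833) (nat_lit 0) .nil) .nil))) 
(.lf (nat_lit 547759) (.g (nat_lit 1920) (.e (nat_lit 303143) (nat_lit 12) (.e (nat_lit 475185) (nat_lit 29) (.e (nat_lit 557100) (nat_lit 13) (.e (nat_lit 172106) (nat_lit 10) (.e (nat_lit 434224) (nat_lit 19) (.e (nat_lit 507648) (nat_lit 0) (.e (nat_lit 2798) (nat_lit 180) .nil))))))) (.g (nat_lit 1) (.e (nat_lit 286745) (nat_lit 0) .nil) .nil)))))) 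
(.nd (nat_lit 7) (.nd (nat_lit 8) (.nd (nat_lit 9) 
(.lf (nat_lit 546927) (.g (nat_lit 2850) (.e (nat_lit 303116) (nat_lit 2) (.e (nat_lit 196666) (nat_lit 13) (.e (nat_lit 65610) (nat_lit 10) (.e (nat_lit 344117) (nat_lit 21) (.e (nat_lit 516099) (nat_lit 0) (.e (nat_lit 7936) (nat_lit 377) (.e (nat_lit 2802) (nat_lit 180) .nil))))))) (.g (nat_lit 1) (.e (nat_lit 284398) (nat_lit 0) .nil) .nil))) 
(.lf (nat_lit 547439) (.g (nat_lit 3880) (.e (nat_lit 303119) (nat_lit 3) (.e (nat_lit 204861) (nat_lit 26) (.e (nat_lit 336186) (nat_lit 11) (.e (nat_lit 368676) (nat_lit 21) (.e (nat_lit 516138) (nat_lit 7) (.e (nat_lit 409645) (nat_lit 18) .nil)))))) (.g (nat_lit 1) (.e (nat_lit 285123) (nat_lit 0) .nil) .nil)))) (.nd (nat_lit 9) 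
(.lf (nat_lit 547183) (.g (nat_lit 1147) (.e (nat_lit 311040) (nat_lit 2) (.e (nat_lit 196672) (nat_lit 15) (.e (nat_lit 81954) (nat_lit 23) (.e (nat_lit 98350) (nat_lit 24) .nil)))) (.g (nat_lit 0) (.e (nat_lit 284707) (nat_lit 0) .nil) .nil))) 
(.lf (nat_lit 547695) (.g (nat_lit 2147) (.e (nat_lit 303139) (nat_lit 10) (.e (nat_lit 434275) (nat_lit 39) (.e (nat_lit 663584) (nat_lit 12) (.e (nat_lit 164020) (nat_lit 45) (.e (nat_lit 696344) (nat_lit 8) .nil))))) (.g (nat_lit 0) (.e (nat_lit 286439) (nat_lit 0) .nil) .nil))))) (.nd (nat_lit 8) (.nd (nat_lit 9) 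
(.lf (nat_lit 547055) (.g (nat_lit 2997) (.e (nat_lit 303117) (nat_lit 2) (.e (nat_lit 196666) (nat_lit 13) (.e (nat_lit 65610) (nat_lit 10) (.e (nat_lit 344117) (nat_lit 21) (.e (nat_lit 516106) (nat_lit 0) (.e (nat_lit 7014) (nat_lit 377) (.e (nat_lit 2807) (nat_lit 180) .nil))))))) (.g (nat_lit 1) (.e (nat_lit 284562) (nat_lit 0) .nil) .nil))) 
(.lf (nat_lit 547567) (.g (nat_lit 1078) (.e (nat_lit 311040) (nat_lit 3) (.e (nat_lit 204868) (nat_lit 29) (.e (nat_lit 360467) (nat_lit 3) (.e (nat_lit 516139) (nat_lit 7) .nil)))) (.g (nat_lit 0) (.e (nat_lit 285415) (nat_lit 0) .nil) .nil)))) (.nd (nat_lit 9) 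
(.lf (nat_lit 547311) (.g (nat_lit 3038) (.e (nat_lit 303119) (nat_lit 3) (.e (nat_lit 204819) (nat_lit 17) (.e (nat_lit 6113) (nat_lit 332) (.e (nat_lit 1374) (nat_lit 104) (.e (nat_lit 303117) (nat_lit 2) (.e (nat_lit 196661) (nat_lit 12) (.e (nat_lit 57712) (nat_lit 176) (.e (nat_lit 1376) (nat_lit 104) .nil)))))))) (.g (nat_lit 1) (.e (nat_lit 284912) (nat_lit 0) .nil) .nil))) 
(.lf (nat_lit 547823) (.g (nat_lit 1829) (.e (nat_lit 303143) (nat_lit 12) (.e (nat_lit 475185) (nat_lit 29) (.e (nat_lit 557109) (nat_lit 15) (.e (nat_lit 188456) (nat_lit 25) .nil)))) (.g (nat_lit 0) (.e (nat_lit 286821) (nat_lit 0) .nil) .nil)))))))) (.nd (nat_lit 5) (.nd (nat_lit 6) (.nd (nat_lit 7) (.nd (nat_lit 8) (.nd (nat_lit 9) 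
(.lf (nat_lit 546847) (.g (nat_lit 209) (.e (nat_lit 303108) (nat_lit 0) (.e (nat_lit 3527) (nat_lit 218) (.e (nat_lit 704597) (nat_lit 6) .nil))) (.g (nat_lit 0) (.e (nat_lit 284166) (nat_lit 0) .nil) .nil))) 
(.lf (nat_lit 547359) (.g (nat_lit 3246) (.e (nat_lit 303119) (nat_lit 3) (.e (nat_lit 204846) (nat_lit 24) (.e (nat_lit 319533) (nat_lit 16) (.e (nat_lit 286734) (nat_lit 3) (.e (nat_lit 98349) (nat_lit 24) (.e (nat_lit 417536) (nat_lit 8) .nil)))))) (.g (nat_lit 1) (.e (nat_lit 285006) (nat_lit 0) .nil) .nil)))) (.nd (nat_lit 9) 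
(.lf (nat_lit 547103) (.g (nat_lit 2069) (.e (nat_lit 303117) (nat_lit 2) (.e (nat_lit 196672) (nat_lit 15) (.e (nat_lit 81953) (nat_lit 22) (.e (nat_lit 90130) (nat_lit 9) .nil)))) (.g (nat_lit 0) (.e (nat_lit 284618) (nat_lit 0) .nil) .nil))) 
(.lf (nat_lit 547615) (.g (nat_lit 1561) (.e (nat_lit 303133) (nat_lit 9) (.e (nat_lit 426412) (nat_lit 15) (.e (nat_lit 1856) (nat_lit 124) (.e (nat_lit 557108) (nat_lit 15) .nil)))) (.g (nat_lit 0) (.e (nat_lit 285802) (nat_lit 0) .nil) .nil))))) (.nd (nat_lit 8) (.nd (nat_lit 9) 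
(.lf (nat_lit 546975) (.g (nat_lit 1878) (.e (nat_lit 303116) (nat_lit 2) (.e (nat_lit 196674) (nat_lit 15) (.e (nat_lit 81956) (nat_lit 23) (.e (nat_lit 98353) (nat_lit 25) .nil)))) (.g (nat_lit 0) (.e (nat_lit 284449) (nat_lit 0) .nil) .nil))) 
(.lf (nat_lit 547487) (.g (nat_lit 2335) (.e (nat_lit 303119) (nat_lit 3) (.e (nat_lit 204868) (nat_lit 29) (.e (nat_lit 360475) (nat_lit 8) (.e (nat_lit 557073) (nat_lit 9) .nil)))) (.g (nat_lit 0) (.e (nat_lit 285210) (nat_lit 0) .nil) .nil)))) (.nd (nat_lit 9) 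
(.lf (nat_lit 547231) (.g (nat_lit 399) (.e (nat_lit 303118) (nat_lit 3) (.e (nat_lit 204861) (nat_lit 26) (.e (nat_lit 336186) (nat_lit 11) .nil))) (.g (nat_lit 0) (.e (nat_lit 284795) (nat_lit 0) .nil) .nil))) 
(.lf (nat_lit 547743) (.g (nat_lit 4019) (.e (nat_lit 303143) (nat_lit 12) (.e (nat_lit 475185) (nat_lit 29) (.e (nat_lit 557100) (nat_lit 13) (.e (nat_lit 172092) (nat_lit 9) (.e (nat_lit 426125) (nat_lit 2) (.e (nat_lit 204544) (nat_lit 18) (.e (nat_lit 2798) (nat_lit 180) .nil))))))) (.g (nat_lit 1) (.e (nat_lit 286726) (nat_lit 0) .nil) .nil)))))) 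
(.nd (nat_lit 7) (.nd (nat_lit 8) (.nd (nat_lit 9) 
(.lf (nat_lit 546911) (.g (nat_lit 1458) (.e (nat_lit 303111) (nat_lit 0) (.e (nat_lit 3469) (nat_lit 217) (.e (nat_lit 696344) (nat_lit 8) (.e (nat_lit 172095) (nat_lit 9) .nil)))) (.g (nat_lit 0) (.e (nat_lit 284314) (nat_lit 0) .nil) .nil))) 
(.lf (nat_lit 547423) (.g (nat_lit 4568) (.e (nat_lit 303119) (nat_lit 3) (.e (nat_lit 204855) (nat_lit 26) (.e (nat_lit 336176) (nat_lit 10) (.e (nat_lit 344117) (nat_lit 21) (.e (nat_lit 516139) (nat_lit 7) (.e (nat_lit 409645) (nat_lit 18) .nil)))))) (.g (nat_lit 1) (.e (nat_lit 285098) (nat_lit 0) .nil) .nil)))) (.nd (nat_lit 9) 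
(.lf (nat_lit 547167) (.g (nat_lit 4492) (.e (nat_lit 303117) (nat_lit 2) (.e (nat_lit 196674) (nat_lit 15) (.e (nat_lit 81956) (nat_lit 23) (.e (nat_lit 98349) (nat_lit 24) (.e (nat_lit 409645) (nat_lit 18) .nil))))) (.g (nat_lit 1) (.e (nat_lit 284690) (nat_lit 0) .nil) .nil))) 
(.lf (nat_lit 547679) (.g (nat_lit 658) (.e (nat_lit 303138) (nat_lit 10) (.e (nat_lit 434272) (nat_lit 38) (.e (nat_lit 655404) (nat_lit 14) .nil))) (.g (nat_lit 0) (.e (nat_lit 286377) (nat_lit 0) .nil) .nil))))) (.nd (nat_lit 8) (.nd (nat_lit 9) 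
(.lf (nat_lit 547039) (.g (nat_lit 1989) (.e (nat_lit 303117) (nat_lit 2) (.e (nat_lit 196666) (nat_lit 13) (.e (nat_lit 65610) (nat_lit 10) (.e (nat_lit 344117) (nat_lit 21) (.e (nat_lit 516106) (nat_lit 0) .nil))))) (.g (nat_lit 0) (.e (nat_lit 284546) (nat_lit 0) .nil) .nil))) 
(.lf (nat_lit 547551) (.g (nat_lit 2260) (.e (nat_lit 303119) (nat_lit 3) (.e (nat_lit 204878) (nat_lit 31) (.e (nat_lit 376867) (nat_lit 23) (.e (nat_lit 98323) (nat_lit 17) (.e (nat_lit 6989) (nat_lit 377) (.e (nat_lit 2810) (nat_lit 180) .nil)))))) (.g (nat_lit 1) (.e (nat_lit 285396) (nat_lit 0) .nil) .nil)))) (.nd (nat_lit 9) 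
(.lf (nat_lit 547295) (.g (nat_lit 5004) (.e (nat_lit 303118) (nat_lit 3) (.e (nat_lit 204869) (nat_lit 29) (.e (nat_lit 360475) (nat_lit 8) (.e (nat_lit 557090) (nat_lit 12) .nil)))) (.g (nat_lit 0) (.e (nat_lit 284888) (nat_lit 0) .nil) .nil))) 
(.lf (nat_lit 547807) (.g (nat_lit 1726) (.e (nat_lit 303143) (nat_lit 12) (.e (nat_lit 475185) (nat_lit 29) (.e (nat_lit 557107) (nat_lit 15) (.e (nat_lit 188457) (nat_lit 25) .nil)))) (.g (nat_lit 0) (.e (nat_lit 286804) (nat_lit 0) .nil) .nil))))))) (.nd (nat_lit 6) (.nd (nat_lit 7) (.nd (nat_lit 8) (.nd (nat_lit 9) 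
(.lf (nat_lit 546879) (.g (nat_lit 2620) (.e (nat_lit 303112) (nat_lit 0) (.e (nat_lit 3252) (nat_lit 197) (.e (nat_lit 532560) (nat_lit 14) (.e (nat_lit 376863) (nat_lit 22) (.e (nat_lit 90130) (nat_lit 9) (.e (nat_lit 2830) (nat_lit 182) (.e (nat_lit 417536) (nat_lit 18) .nil))))))) (.g (nat_lit 1) (.e (nat_lit 284217) (nat_lit 0) .nil) .nil))) 
(.lf (nat_lit 547391) (.g (nat_lit 684) (.e (nat_lit 303119) (nat_lit 3) (.e (nat_lit 204852) (nat_lit 26) (.e (nat_lit 336147) (nat_lit 9) .nil))) (.g (nat_lit 0) (.e (nat_lit 285044) (nat_lit 0) .nil) .nil)))) (.nd (nat_lit 9) 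
(.lf (nat_lit 547135) (.g (nat_lit 2059) (.e (nat_lit 303117) (nat_lit 2) (.e (nat_lit 196673) (nat_lit 15) (.e (nat_lit 81956) (nat_lit 23) (.e (nat_lit 98325) (nat_lit 17) (.e (nat_lit 7008) (nat_lit 377) .nil))))) (.g (nat_lit 0) (.e (nat_lit 284655) (nat_lit 0) .nil) .nil))) 
(.lf (nat_lit 547647) (.g (nat_lit 412) (.e (nat_lit 303135) (nat_lit 10) (.e (nat_lit 434268) (nat_lit 36) (.e (nat_lit 639020) (nat_lit 16) .nil))) (.g (nat_lit 0) (.e (nat_lit 286082) (nat_lit 0) .nil) .nil))))) (.nd (nat_lit 8) (.nd (nat_lit 9) 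
(.lf (nat_lit 547007) (.g (nat_lit 2946) (.e (nat_lit 303117) (nat_lit 2) (.e (nat_lit 196666) (nat_lit 13) (.e (nat_lit 65596) (nat_lit 9) (.e (nat_lit 336013) (nat_lit 2) (.e (nat_lit 90165) (nat_lit 12) (.e (nat_lit 164210) (nat_lit 176) (.e (nat_lit 2796) (nat_lit 180) .nil))))))) (.g (nat_lit 1) (.e (nat_lit 284509) (nat_lit 0) .nil) .nil))) 
(.lf (nat_lit 547519) (.g (nat_lit 3397) (.e (nat_lit 303119) (nat_lit 3) (.e (nat_lit 204869) (nat_lit 29) (.e (nat_lit 360475) (nat_lit 8) (.e (nat_lit 557070) (nat_lit 9) .nil)))) (.g (nat_lit 0) (.e (nat_lit 285348) (nat_lit 0) .nil) .nil)))) (.nd (nat_lit 9) 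
(.lf (nat_lit 547263) (.g (nat_lit 2751) (.e (nat_lit 303118) (nat_lit 3) (.e (nat_lit 204868) (nat_lit 29) (.e (nat_lit 360475) (nat_lit 8) (.e (nat_lit 557084) (nat_lit 10) .nil)))) (.g (nat_lit 0) (.e (nat_lit 284849) (nat_lit 0) .nil) .nil))) 
(.lf (nat_lit 547775) (.g (nat_lit 2822) (.e (nat_lit 303143) (nat_lit 12) (.e (nat_lit 475185) (nat_lit 29) (.e (nat_lit 557100) (nat_lit 13) (.e (nat_lit 172115) (nat_lit 10) .nil)))) (.g (nat_lit 0) (.e (nat_lit 286763) (nat_lit 0) .nil) .nil)))))) (.nd (nat_lit 7) (.nd (nat_lit 8) (.nd (nat_lit 9) 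
(.lf (nat_lit 546943) (.g (nat_lit 2268) (.e (nat_lit 303116) (nat_lit 2) (.e (nat_lit 196666) (nat_lit 13) (.e (nat_lit 65610) (nat_lit 10) (.e (nat_lit 344126) (nat_lit 25) .nil)))) (.g (nat_lit 0) (.e (nat_lit 284414) (nat_lit 0) .nil) .nil))) 
(.lf (nat_lit 547455) (.g (nat_lit 2963) (.e (nat_lit 303119) (nat_lit 3) (.e (nat_lit 204866) (nat_lit 28) (.e (nat_lit 352315) (nat_lit 23) (.e (nat_lit 98350) (nat_lit 24) (.e (nat_lit 417536) (nat_lit 18) .nil))))) (.g (nat_lit 1) (.e (nat_lit 285168) (nat_lit 0) .nil) .nil)))) (.nd (nat_lit 9) 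
(.lf (nat_lit 547199) (.g (nat_lit 3264) (.e (nat_lit 303118) (nat_lit 3) (.e (nat_lit 204846) (nat_lit 24) (.e (nat_lit 319531) (nat_lit 16) (.e (nat_lit 286735) (nat_lit 3) (.e (nat_lit 98350) (nat_lit 24) (.e (nat_lit 417536) (nat_lit 8) .nil)))))) (.g (nat_lit 1) (.e (nat_lit 284731) (nat_lit 0) .nil) .nil))) 
(.lf (nat_lit 547711) (.g (nat_lit 1674) (.e (nat_lit 303142) (nat_lit 12) (.e (nat_lit 475185) (nat_lit 29) (.e (nat_lit 557109) (nat_lit 15) (.e (nat_lit 188424) (nat_lit 20) .nil)))) (.g (nat_lit 0) (.e (nat_lit 286635) (nat_lit 0) .nil) .nil))))) (.nd (nat_lit 8) (.nd (nat_lit 9) 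
(.lf (nat_lit 547071) (.g (nat_lit 2932) (.e (nat_lit 303117) (nat_lit 2) (.e (nat_lit 196666) (nat_lit 13) (.e (nat_lit 65610) (nat_lit 10) (.e (nat_lit 344129) (nat_lit 26) (.e (nat_lit 557067) (nat_lit 9) (.e (nat_lit 22) (nat_lit 0) (.e (nat_lit 6080) (nat_lit 332) (.e (nat_lit 2809) (nat_lit 180) .nil)))))))) (.g (nat_lit 1) (.e (nat_lit 284579) (nat_lit 0) .nil) .nil))) 
(.lf (nat_lit 547583) (.g (nat_lit 622) (.e (nat_lit 303124) (nat_lit 7) (.e (nat_lit 409649) (nat_lit 18) (.e (nat_lit 303124) (nat_lit 7) .nil))) (.g (nat_lit 0) (.e (nat_lit 285543) (nat_lit 0) .nil) .nil)))) (.nd (nat_lit 9) 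
(.lf (nat_lit 547327) (.g (nat_lit 739) (.e (nat_lit 303119) (nat_lit 3) (.e (nat_lit 204846) (nat_lit 24) (.e (nat_lit 319491) (nat_lit 0) .nil))) (.g (nat_lit 0) (.e (nat_lit 284947) (nat_lit 0) .nil) .nil))) 
(.lf (nat_lit 547839) (.g (nat_lit 2062) (.e (nat_lit 303143) (nat_lit 12) (.e (nat_lit 475212) (nat_lit 42) (.e (nat_lit 720954) (nat_lit 25) (.e (nat_lit 114698) (nat_lit 11) (.e (nat_lit 426024) (nat_lit 0) (.e (nat_lit 6989) (nat_lit 377) (.e (nat_lit 2810) (nat_lit 180) .nil))))))) (.g (nat_lit 1) (.e (nat_lit 286953) (nat_lit 0) .nil) .nil)))))))))))))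


end

end Pool.Agent.Lib.MP_5854e1_co.Cz
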