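import Pool.Agent.Lib.MP_5854e1_co.DtD

/-!
# Windows and cells of the rings
-/

set_option autoImplicit false
set_option maxRecDepth 100000
set_option deprecated.oldSectionVars true

namespace Pool.Agent.Lib.MP_5854e1_co.Cz

open Pool.Agent.Lib.MP_5854e1_co

noncomputable section

noncomputable def tv5595 : DT := (.nd (nat_lit 0) (.nd (nat_lit 1) (.nd (nat_lit 2) (.nd (nat_lit 3) (.nd (nat_lit 4) (.nd (nat_lit 5) (.nd (nat_lit 6) (.nd (nat_lit 7) (.nd (nat_lit 8) (.nd (nat_lit 9) 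
(.lf (nat_lit 547840) (.g (nat_lit 371) (.e (nat_lit 303143) (nat_lit 12) (.e (nat_lit 475212) (nat_lit 42) (.e (nat_lit 720955) (nat_lit 25) .nil))) (.g (nat_lit 0) (.e (nat_lit 286954) (nat_lit 0) .nil) .nil))) 
(.lf (nat_lit 548352) (.g (nat_lit 4099) (.e (nat_lit 286728) (nat_lit 0) (.e (nat_lit 1788) (nat_lit 119) (.e (nat_lit 516151) (nat_lit 9) (.e (nat_lit 426211) (nat_lit 9) (.e (nat_lit 426135) (nat_lit 3) .nil))))) (.g (nat_lit 0) (.e (nat_lit 289207) (nat_lit 0) .nil) .nil)))) (.nd (nat_lit 9) 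
(.lf (nat_lit 548096) (.g (nat_lit 2029) (.e (nat_lit 311312) (nat_lit 2) (.e (nat_lit 196672) (nat_lit 15) (.e (nat_lit 81954) (nat_lit 23) (.e (nat_lit 98323) (nat_lit 17) (.e (nat_lit 7019) (nat_lit 377) (.e (nat_lit 2814) (nat_lit 181) .nil)))))) (.g (nat_lit 1) (.e (nat_lit 287816) (nat_lit 0) .nil) .nil))) 
(.lf (nat_lit 548608) (.g (nat_lit 665) (.e (nat_lit 286755) (nat_lit 10) (.e (nat_lit 344157) (nat_lit 36) (.e (nat_lit 638999) (nat_lit 8) (.e (nat_lit 172081) (nat_lit 7) (.e (nat_lit 409639) (nat_lit 15) (.e (nat_lit 278567) (nat_lit 16) .nil)))))) (.g (nat_lit 1) (.e (nat_lit 289728) (nat_lit 0) .nil) .nil))))) (.nd (nat_lit 8) (.nd (nat_lit 9) 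
(.lf (nat_lit 547968) (.g (nat_lit 2181) (.e (nat_lit 303154) (nat_lit 28) (.e (nat_lit 344069) (nat_lit 0) (.e (nat_lit 3090) (nat_lit 191) (.e (nat_lit 483350) (nat_lit 17) (.e (nat_lit 6097) (nat_lit 332) .nil))))) (.g (nat_lit 0) (.e (nat_lit 287548) (nat_lit 0) .nil) .nil))) 
(.lf (nat_lit 548480) (.g (nat_lit 3303) (.e (nat_lit 286735) (nat_lit 3) (.e (nat_lit 98349) (nat_lit 24) (.e (nat_lit 409646) (nat_lit 18) (.e (nat_lit 303119) (nat_lit 3) (.e (nat_lit 204821) (nat_lit 17) (.e (nat_lit 6114) (nat_lit 332) (.e (nat_lit 2777) (nat_lit 178) .nil))))))) (.g (nat_lit 1) (.e (nat_lit 289528) (nat_lit 0) .nil) .nil)))) (.nd (nat_lit 9) 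
(.lf (nat_lit 548224) (.g (nat_lit 2633) (.e (nat_lit 311325) (nat_lit 9) (.e (nat_lit 426509) (nat_lit 27) (.e (nat_lit 336228) (nat_lit 14) (.e (nat_lit 401454) (nat_lit 12) (.e (nat_lit 475144) (nat_lit 16) (.e (nat_lit 2820) (nat_lit 181) .nil)))))) (.g (nat_lit 1) (.e (nat_lit 288341) (nat_lit 0) .nil) .nil))) 
(.lf (nat_lit 548736) (.g (nat_lit 2935) (.e (nat_lit 286765) (nat_lit 15) (.e (nat_lit 3308) (nat_lit 202) (.e (nat_lit 573493) (nat_lit 15) (.e (nat_lit 81951) (nat_lit 22) (.e (nat_lit 90165) (nat_lit 12) (.e (nat_lit 164208) (nat_lit 176) (.e (nat_lit 2782) (nat_lit 178) .nil))))))) (.g (nat_lit 1) (.e (nat_lit 289927) (nat_lit 0) .nil) .nil)))))) 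
(.nd (nat_lit 7) (.nd (nat_lit 8) (.nd (nat_lit 9) 
(.lf (nat_lit 547904) (.g (nat_lit 1877) (.e (nat_lit 311040) (nat_lit 15) (.e (nat_lit 1858) (nat_lit 124) (.e (nat_lit 557107) (nat_lit 15) (.e (nat_lit 188450) (nat_lit 23) .nil)))) (.g (nat_lit 0) (.e (nat_lit 287460) (nat_lit 0) .nil) .nil))) 
(.lf (nat_lit 548416) (.g (nat_lit 4677) (.e (nat_lit 286733) (nat_lit 2) (.e (nat_lit 90170) (nat_lit 13) (.e (nat_lit 172126) (nat_lit 14) (.e (nat_lit 491537) (nat_lit 2) (.e (nat_lit 90133) (nat_lit 9) (.e (nat_lit 2400) (nat_lit 157) (.e (nat_lit 7064) (nat_lit 377) (.e (nat_lit 1349) (nat_lit 102) .nil)))))))) (.g (nat_lit 1) (.e (nat_lit 289448) (nat_lit 0) .nil) .nil)))) (.nd (nat_lit 9) 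
(.lf (nat_lit 548160) (.g (nat_lit 1758) (.e (nat_lit 311315) (nat_lit 3) (.e (nat_lit 204846) (nat_lit 24) (.e (nat_lit 319538) (nat_lit 19) (.e (nat_lit 311312) (nat_lit 2) .nil)))) (.g (nat_lit 0) (.e (nat_lit 288023) (nat_lit 0) .nil) .nil))) 
(.lf (nat_lit 548672) (.g (nat_lit 2683) (.e (nat_lit 286765) (nat_lit 15) (.e (nat_lit 3296) (nat_lit 202) (.e (nat_lit 573482) (nat_lit 13) (.e (nat_lit 65604) (nat_lit 9) (.e (nat_lit 336013) (nat_lit 2) (.e (nat_lit 90165) (nat_lit 12) (.e (nat_lit 164208) (nat_lit 176) (.e (nat_lit 2779) (nat_lit 178) .nil)))))))) (.g (nat_lit 1) (.e (nat_lit 289836) (nat_lit 0) .nil) .nil))))) 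
(.nd (nat_lit 8) (.nd (nat_lit 9) 
(.lf (nat_lit 548032) (.g (nat_lit 3084) (.e (nat_lit 311311) (nat_lit 2) (.e (nat_lit 196666) (nat_lit 13) (.e (nat_lit 65610) (nat_lit 10) (.e (nat_lit 344117) (nat_lit 21) (.e (nat_lit 516141) (nat_lit 8) .nil))))) (.g (nat_lit 0) (.e (nat_lit 287679) (nat_lit 0) .nil) .nil))) 
(.lf (nat_lit 548544) (.g (nat_lit 663) (.e (nat_lit 286740) (nat_lit 7) (.e (nat_lit 319526) (nat_lit 15) (.e (nat_lit 278546) (nat_lit 8) (.e (nat_lit 303124) (nat_lit 7) (.e (nat_lit 409635) (nat_lit 14) (.e (nat_lit 270372) (nat_lit 16) .nil)))))) (.g (nat_lit 1) (.e (nat_lit 289602) (nat_lit 0) .nil) .nil)))) (.nd (nat_lit 9) 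
(.lf (nat_lit 548288) (.g (nat_lit 1090) (.e (nat_lit 311353) (nat_lit 27) (.e (nat_lit 336227) (nat_lit 14) (.e (nat_lit 401458) (nat_lit 13) (.e (nat_lit 483371) (nat_lit 21) .nil)))) (.g (nat_lit 0) (.e (nat_lit 289102) (nat_lit 0) .nil) .nil))) 
(.lf (nat_lit 548800) (.g (nat_lit 1883) (.e (nat_lit 286770) (nat_lit 28) (.e (nat_lit 434181) (nat_lit 0) (.e (nat_lit 1428) (nat_lit 108) (.e (nat_lit 336421) (nat_lit 28) (.e (nat_lit 434187) (nat_lit 13) (.e (nat_lit 2781) (nat_lit 178) .nil)))))) (.g (nat_lit 1) (.e (nat_lit 290220) (nat_lit 0) .nil) .nil))))))) (.nd (nat_lit 6) (.nd (nat_lit 7) (.nd (nat_lit 8) (.nd (nat_lit 9) 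
(.lf (nat_lit 547872) (.g (nat_lit 352) (.e (nat_lit 303145) (nat_lit 13) (.e (nat_lit 483396) (nat_lit 24) (.e (nat_lit 344160) (nat_lit 37) .nil))) (.g (nat_lit 0) (.e (nat_lit 287204) (nat_lit 0) .nil) .nil))) 
(.lf (nat_lit 548384) (.g (nat_lit 4229) (.e (nat_lit 286732) (nat_lit 2) (.e (nat_lit 90176) (nat_lit 15) (.e (nat_lit 188452) (nat_lit 23) (.e (nat_lit 204846) (nat_lit 24) (.e (nat_lit 319534) (nat_lit 16) .nil))))) (.g (nat_lit 1) (.e (nat_lit 289389) (nat_lit 0) .nil) .nil)))) (.nd (nat_lit 9) 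
(.lf (nat_lit 548128) (.g (nat_lit 1519) (.e (nat_lit 311314) (nat_lit 3) (.e (nat_lit 204846) (nat_lit 24) (.e (nat_lit 319505) (nat_lit 10) (.e (nat_lit 5712) (nat_lit 312) .nil)))) (.g (nat_lit 0) (.e (nat_lit 287870) (nat_lit 0) .nil) .nil))) 
(.lf (nat_lit 548640) (.g (nat_lit 2144) (.e (nat_lit 286759) (nat_lit 12) (.e (nat_lit 385094) (nat_lit 49) (.e (nat_lit 778327) (nat_lit 6) (.e (nat_lit 81959) (nat_lit 24) (.e (nat_lit 130816) (nat_lit 279) (.e (nat_lit 8303) (nat_lit 58) .nil)))))) (.g (nat_lit 1) (.e (nat_lit 289790) (nat_lit 0) .nil) .nil))))) (.nd (nat_lit 8) (.nd (nat_lit 9) 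
(.lf (nat_lit 548000) (.g (nat_lit 2354) (.e (nat_lit 311040) (nat_lit 35) (.e (nat_lit 401460) (nat_lit 14) (.e (nat_lit 491550) (nat_lit 9) (.e (nat_lit 336369) (nat_lit 27) (.e (nat_lit 426173) (nat_lit 7) .nil))))) (.g (nat_lit 0) (.e (nat_lit 287594) (nat_lit 0) .nil) .nil))) 
(.lf (nat_lit 548512) (.g (nat_lit 1579) (.e (nat_lit 286735) (nat_lit 3) (.e (nat_lit 98365) (nat_lit 26) (.e (nat_lit 426188) (nat_lit 9) (.e (nat_lit 433920) (nat_lit 3) .nil)))) (.g (nat_lit 0) (.e (nat_lit 289563) (nat_lit 0) .nil) .nil)))) (.nd (nat_lit 9) 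
(.lf (nat_lit 548256) (.g (nat_lit 1784) (.e (nat_lit 311343) (nat_lit 13) (.e (nat_lit 483341) (nat_lit 9) (.e (nat_lit 426145) (nat_lit 4) (.e (nat_lit 229678) (nat_lit 244) (.e (nat_lit 163866) (nat_lit 2) .nil))))) (.g (nat_lit 0) (.e (nat_lit 288678) (nat_lit 0) .nil) .nil))) 
(.lf (nat_lit 548768) (.g (nat_lit 2868) (.e (nat_lit 286768) (nat_lit 27) (.e (nat_lit 426339) (nat_lit 14) (.e (nat_lit 491570) (nat_lit 13) (.e (nat_lit 393238) (nat_lit 17) (.e (nat_lit 6989) (nat_lit 377) (.e (nat_lit 2779) (nat_lit 178) .nil)))))) (.g (nat_lit 1) (.e (nat_lit 290176) (nat_lit 0) .nil) .nil)))))) (.nd (nat_lit 7) (.nd (nat_lit 8) (.nd (nat_lit 9) 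
(.lf (nat_lit 547936) (.g (nat_lit 1483) (.e (nat_lit 303152) (nat_lit 27) (.e (nat_lit 336228) (nat_lit 14) (.e (nat_lit 401457) (nat_lit 13) (.e (nat_lit 483342) (nat_lit 17) .nil)))) (.g (nat_lit 0) (.e (nat_lit 287505) (nat_lit 0) .nil) .nil))) 
(.lf (nat_lit 548448) (.g (nat_lit 1217) (.e (nat_lit 286734) (nat_lit 3) (.e (nat_lit 98359) (nat_lit 26) (.e (nat_lit 426285) (nat_lit 10) (.e (nat_lit 434234) (nat_lit 23) .nil)))) (.g (nat_lit 0) (.e (nat_lit 289488) (nat_lit 0) .nil) .nil)))) (.nd (nat_lit 9) 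
(.lf (nat_lit 548192) (.g (nat_lit 2634) (.e (nat_lit 311315) (nat_lit 3) (.e (nat_lit 204868) (nat_lit 29) (.e (nat_lit 360466) (nat_lit 3) (.e (nat_lit 516102) (nat_lit 0) (.e (nat_lit 6989) (nat_lit 377) (.e (nat_lit 2819) (nat_lit 181) .nil)))))) (.g (nat_lit 1) (.e (nat_lit 288082) (nat_lit 0) .nil) .nil))) 
(.lf (nat_lit 548704) (.g (nat_lit 2635) (.e (nat_lit 286765) (nat_lit 15) (.e (nat_lit 3304) (nat_lit 202) (.e (nat_lit 573485) (nat_lit 13) (.e (nat_lit 65604) (nat_lit 9) (.e (nat_lit 336028) (nat_lit 3) (.e (nat_lit 98325) (nat_lit 17) (.e (nat_lit 6986) (nat_lit 377) (.e (nat_lit 2782) (nat_lit 178) .nil)))))))) (.g (nat_lit 1) (.e (nat_lit 289879) (nat_lit 0) .nil) .nil))))) 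
(.nd (nat_lit 8) (.nd (nat_lit 9) 
(.lf (nat_lit 548064) (.g (nat_lit 3901) (.e (nat_lit 311312) (nat_lit 2) (.e (nat_lit 196666) (nat_lit 13) (.e (nat_lit 65610) (nat_lit 10) (.e (nat_lit 344117) (nat_lit 21) (.e (nat_lit 516102) (nat_lit 0) (.e (nat_lit 6989) (nat_lit 377) (.e (nat_lit 7936) (nat_lit 181) .nil))))))) (.g (nat_lit 1) (.e (nat_lit 287760) (nat_lit 0) .nil) .nil))) 
(.lf (nat_lit 548576) (.g (nat_lit 1103) (.e (nat_lit 286753) (nat_lit 10) (.e (nat_lit 344138) (nat_lit 29) (.e (nat_lit 581653) (nat_lit 6) (.e (nat_lit 188427) (nat_lit 20) (.e (nat_lit 3567) (nat_lit 222) .nil))))) (.g (nat_lit 0) (.e (nat_lit 289661) (nat_lit 0) .nil) .nil)))) (.nd (nat_lit 9) 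
(.lf (nat_lit 548320) (.g (nat_lit 1551) (.e (nat_lit 311358) (nat_lit 29) (.e (nat_lit 352318) (nat_lit 24) (.e (nat_lit 123195) (nat_lit 266) (.e (nat_lit 57403) (nat_lit 11) .nil)))) (.g (nat_lit 0) (.e (nat_lit 289156) (nat_lit 0) .nil) .nil))) 
(.lf (nat_lit 548832) (.g (nat_lit 2109) (.e (nat_lit 294927) (nat_lit 2) (.e (nat_lit 90176) (nat_lit 15) (.e (nat_lit 188450) (nat_lit 23) (.e (nat_lit 204848) (nat_lit 25) (.e (nat_lit 335616) (nat_lit 17) .nil))))) (.g (nat_lit 1) (.e (nat_lit 290475) (nat_lit 0) .nil) .nil)))))))) (.nd (nat_lit 5) (.nd (nat_lit 6) (.nd (nat_lit 7) (.nd (nat_lit 8) (.nd (nat_lit 9) 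
(.lf (nat_lit 547856) (.g (nat_lit 918) (.e (nat_lit 303144) (nat_lit 13) (.e (nat_lit 483408) (nat_lit 26) (.e (nat_lit 385113) (nat_lit 53) .nil))) (.g (nat_lit 0) (.e (nat_lit 287009) (nat_lit 0) .nil) .nil))) 
(.lf (nat_lit 548368) (.g (nat_lit 2393) (.e (nat_lit 286732) (nat_lit 2) (.e (nat_lit 90170) (nat_lit 13) (.e (nat_lit 172106) (nat_lit 10) (.e (nat_lit 434231) (nat_lit 23) (.e (nat_lit 532480) (nat_lit 0) .nil))))) (.g (nat_lit 0) (.e (nat_lit 289360) (nat_lit 0) .nil) .nil)))) (.nd (nat_lit 9) 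
(.lf (nat_lit 548112) (.g (nat_lit 463) (.e (nat_lit 311312) (nat_lit 2) (.e (nat_lit 196674) (nat_lit 15) (.e (nat_lit 81952) (nat_lit 22) .nil))) (.g (nat_lit 0) (.e (nat_lit 287836) (nat_lit 0) .nil) .nil))) 
(.lf (nat_lit 548624) (.g (nat_lit 4667) (.e (nat_lit 286756) (nat_lit 10) (.e (nat_lit 344160) (nat_lit 37) (.e (nat_lit 647201) (nat_lit 12) (.e (nat_lit 57574) (nat_lit 55) (.e (nat_lit 778466) (nat_lit 11) (.e (nat_lit 24617) (nat_lit 7) (.e (nat_lit 319534) (nat_lit 16) .nil))))))) (.g (nat_lit 1) (.e (nat_lit 289756) (nat_lit 0) .nil) .nil))))) (.nd (nat_lit 8) (.nd (nat_lit 9) 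
(.lf (nat_lit 547984) (.g (nat_lit 2198) (.e (nat_lit 311040) (nat_lit 35) (.e (nat_lit 401454) (nat_lit 12) (.e (nat_lit 475198) (nat_lit 40) (.e (nat_lit 704595) (nat_lit 5) (.e (nat_lit 180282) (nat_lit 45) .nil))))) (.g (nat_lit 0) (.e (nat_lit 287577) (nat_lit 0) .nil) .nil))) 
(.lf (nat_lit 548496) (.g (nat_lit 4060) (.e (nat_lit 286735) (nat_lit 3) (.e (nat_lit 98356) (nat_lit 26) (.e (nat_lit 426270) (nat_lit 9) (.e (nat_lit 426139) (nat_lit 3) (.e (nat_lit 204846) (nat_lit 24) (.e (nat_lit 319528) (nat_lit 16) .nil)))))) (.g (nat_lit 1) (.e (nat_lit 289545) (nat_lit 0) .nil) .nil)))) (.nd (nat_lit 9) 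
(.lf (nat_lit 548240) (.g (nat_lit 2683) (.e (nat_lit 311341) (nat_lit 13) (.e (nat_lit 483413) (nat_lit 27) (.e (nat_lit 401448) (nat_lit 10) (.e (nat_lit 434289) (nat_lit 43) .nil)))) (.g (nat_lit 0) (.e (nat_lit 288523) (nat_lit 0) .nil) .nil))) 
(.lf (nat_lit 548752) (.g (nat_lit 2491) (.e (nat_lit 294656) (nat_lit 17) (.e (nat_lit 196670) (nat_lit 14) (.e (nat_lit 73755) (nat_lit 8) (.e (nat_lit 557105) (nat_lit 14) (.e (nat_lit 180252) (nat_lit 10) .nil))))) (.g (nat_lit 0) (.e (nat_lit 290009) (nat_lit 0) .nil) .nil)))))) (.nd (nat_lit 7) (.nd (nat_lit 8) (.nd (nat_lit 9) 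
(.lf (nat_lit 547920) (.g (nat_lit 1882) (.e (nat_lit 311040) (nat_lit 26) (.e (nat_lit 327699) (nat_lit 8) (.e (nat_lit 303145) (nat_lit 13) (.e (nat_lit 483376) (nat_lit 22) .nil)))) (.g (nat_lit 0) (.e (nat_lit 287477) (nat_lit 0) .nil) .nil))) 
(.lf (nat_lit 548432) (.g (nat_lit 2730) (.e (nat_lit 286733) (nat_lit 2) (.e (nat_lit 90177) (nat_lit 15) (.e (nat_lit 188452) (nat_lit 23) (.e (nat_lit 204849) (nat_lit 25) (.e (nat_lit 335616) (nat_lit 16) .nil))))) (.g (nat_lit 1) (.e (nat_lit 289468) (nat_lit 0) .nil) .nil)))) (.nd (nat_lit 9) 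
(.lf (nat_lit 548176) (.g (nat_lit 4208) (.e (nat_lit 311315) (nat_lit 3) (.e (nat_lit 204846) (nat_lit 24) (.e (nat_lit 319534) (nat_lit 16) (.e (nat_lit 286728) (nat_lit 0) (.e (nat_lit 1841) (nat_lit 123) (.e (nat_lit 548874) (nat_lit 5) (.e (nat_lit 1401) (nat_lit 106) (.e (nat_lit 319538) (nat_lit 19) .nil)))))))) (.g (nat_lit 1) (.e (nat_lit 288042) (nat_lit 0) .nil) .nil))) 
(.lf (nat_lit 548688) (.g (nat_lit 4207) (.e (nat_lit 286765) (nat_lit 15) (.e (nat_lit 3298) (nat_lit 202) (.e (nat_lit 573493) (nat_lit 15) (.e (nat_lit 81956) (nat_lit 23) (.e (nat_lit 98325) (nat_lit 17) (.e (nat_lit 6986) (nat_lit 377) (.e (nat_lit 2781) (nat_lit 178) .nil))))))) (.g (nat_lit 1) (.e (nat_lit 289863) (nat_lit 0) .nil) .nil))))) (.nd (nat_lit 8) (.nd (nat_lit 9) 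
(.lf (nat_lit 548048) (.g (nat_lit 533) (.e (nat_lit 311311) (nat_lit 2) (.e (nat_lit 196674) (nat_lit 15) (.e (nat_lit 81954) (nat_lit 23) .nil))) (.g (nat_lit 0) (.e (nat_lit 287720) (nat_lit 0) .nil) .nil))) 
(.lf (nat_lit 548560) (.g (nat_lit 794) (.e (nat_lit 286747) (nat_lit 9) (.e (nat_lit 336013) (nat_lit 2) (.e (nat_lit 90119) (nat_lit 0) .nil))) (.g (nat_lit 0) (.e (nat_lit 289629) (nat_lit 0) .nil) .nil)))) (.nd (nat_lit 9) 
(.lf (nat_lit 548304) (.g (nat_lit 2102) (.e (nat_lit 311357) (nat_lit 28) (.e (nat_lit 344068) (nat_lit 0) (.e (nat_lit 3090) (nat_lit 191) (.e (nat_lit 483350) (nat_lit 17) (.e (nat_lit 6113) (nat_lit 332) (.e (nat_lit 7936) (nat_lit 105) .nil)))))) (.g (nat_lit 1) (.e (nat_lit 289131) (nat_lit 0) .nil) .nil))) 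
(.lf (nat_lit 548816) (.g (nat_lit 1306) (.e (nat_lit 294925) (nat_lit 1) (.e (nat_lit 57688) (nat_lit 156) (.e (nat_lit 163933) (nat_lit 17) (.e (nat_lit 466954) (nat_lit 11) .nil)))) (.g (nat_lit 0) (.e (nat_lit 290451) (nat_lit 0) .nil) .nil))))))) (.nd (nat_lit 6) (.nd (nat_lit 7) (.nd (nat_lit 8) (.nd (nat_lit 9) 
(.lf (nat_lit 547888) (.g (nat_lit 3912) (.e (nat_lit 303146) (nat_lit 14) (.e (nat_lit 491569) (nat_lit 13) (.e (nat_lit 393283) (nat_lit 24) (.e (nat_lit 434275) (nat_lit 39) (.e (nat_lit 663589) (nat_lit 14) (.e (nat_lit 2798) (nat_lit 180) .nil)))))) (.g (nat_lit 1) (.e (nat_lit 287413) (nat_lit 0) .nil) .nil))) 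
(.lf (nat_lit 548400) (.g (nat_lit 2635) (.e (nat_lit 286733) (nat_lit 2) (.e (nat_lit 90168) (nat_lit 13) (.e (nat_lit 172126) (nat_lit 14) (.e (nat_lit 491540) (nat_lit 3) (.e (nat_lit 98353) (nat_lit 25) (.e (nat_lit 417809) (nat_lit 6) .nil)))))) (.g (nat_lit 1) (.e (nat_lit 289432) (nat_lit 0) .nil) .nil)))) (.nd (nat_lit 9) 
(.lf (nat_lit 548144) (.g (nat_lit 1551) (.e (nat_lit 311314) (nat_lit 3) (.e (nat_lit 204868) (nat_lit 29) (.e (nat_lit 360467) (nat_lit 3) (.e (nat_lit 516141) (nat_lit 8) .nil)))) (.g (nat_lit 0) (.e (nat_lit 287924) (nat_lit 0) .nil) .nil))) 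
(.lf (nat_lit 548656) (.g (nat_lit 1703) (.e (nat_lit 286761) (nat_lit 13) (.e (nat_lit 393282) (nat_lit 24) (.e (nat_lit 434275) (nat_lit 39) (.e (nat_lit 663589) (nat_lit 14) (.e (nat_lit 2761) (nat_lit 176) .nil))))) (.g (nat_lit 0) (.e (nat_lit 289806) (nat_lit 0) .nil) .nil))))) (.nd (nat_lit 8) (.nd (nat_lit 9) 
(.lf (nat_lit 548016) (.g (nat_lit 3877) (.e (nat_lit 311311) (nat_lit 2) (.e (nat_lit 196666) (nat_lit 13) (.e (nat_lit 65610) (nat_lit 10) (.e (nat_lit 344117) (nat_lit 21) (.e (nat_lit 516097) (nat_lit 0) (.e (nat_lit 7026) (nat_lit 377) (.e (nat_lit 2814) (nat_lit 181) .nil))))))) (.g (nat_lit 1) (.e (nat_lit 287663) (nat_lit 0) .nil) .nil))) 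
(.lf (nat_lit 548528) (.g (nat_lit 2818) (.e (nat_lit 286735) (nat_lit 3) (.e (nat_lit 98369) (nat_lit 28) (.e (nat_lit 442427) (nat_lit 23) (.e (nat_lit 204846) (nat_lit 24) (.e (nat_lit 327424) (nat_lit 16) .nil))))) (.g (nat_lit 1) (.e (nat_lit 289580) (nat_lit 0) .nil) .nil)))) (.nd (nat_lit 9) 
(.lf (nat_lit 548272) (.g (nat_lit 762) (.e (nat_lit 311344) (nat_lit 13) (.e (nat_lit 483337) (nat_lit 9) (.e (nat_lit 426107) (nat_lit 1) .nil))) (.g (nat_lit 0) (.e (nat_lit 288840) (nat_lit 0) .nil) .nil))) 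
(.lf (nat_lit 548784) (.g (nat_lit 1827) (.e (nat_lit 294656) (nat_lit 27) (.e (nat_lit 426340) (nat_lit 14) (.e (nat_lit 491571) (nat_lit 13) (.e (nat_lit 393230) (nat_lit 17) (.e (nat_lit 6989) (nat_lit 377) .nil))))) (.g (nat_lit 0) (.e (nat_lit 290196) (nat_lit 0) .nil) .nil)))))) (.nd (nat_lit 7) (.nd (nat_lit 8) (.nd (nat_lit 9) 
(.lf (nat_lit 547952) (.g (nat_lit 1913) (.e (nat_lit 311040) (nat_lit 27) (.e (nat_lit 336235) (nat_lit 14) (.e (nat_lit 401458) (nat_lit 13) (.e (nat_lit 483371) (nat_lit 21) (.e (nat_lit 327424) (nat_lit 18) .nil))))) (.g (nat_lit 0) (.e (nat_lit 287529) (nat_lit 0) .nil) .nil))) 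
(.lf (nat_lit 548464) (.g (nat_lit 2983) (.e (nat_lit 286735) (nat_lit 3) (.e (nat_lit 98323) (nat_lit 17) (.e (nat_lit 6989) (nat_lit 377) (.e (nat_lit 2777) (nat_lit 178) (.e (nat_lit 286735) (nat_lit 3) (.e (nat_lit 98325) (nat_lit 17) (.e (nat_lit 6986) (nat_lit 377) (.e (nat_lit 2781) (nat_lit 178) .nil)))))))) (.g (nat_lit 1) (.e (nat_lit 289509) (nat_lit 0) .nil) .nil)))) (.nd (nat_lit 9) 
(.lf (nat_lit 548208) (.g (nat_lit 4411) (.e (nat_lit 311322) (nat_lit 9) (.e (nat_lit 426436) (nat_lit 18) (.e (nat_lit 98335) (nat_lit 18) (.e (nat_lit 164305) (nat_lit 226) (.e (nat_lit 2630) (nat_lit 164) (.e (nat_lit 172039) (nat_lit 0) (.e (nat_lit 3571) (nat_lit 222) (.e (nat_lit 737302) (nat_lit 10) .nil)))))))) (.g (nat_lit 1) (.e (nat_lit 288236) (nat_lit 0) .nil) .nil))) 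
(.lf (nat_lit 548720) (.g (nat_lit 4432) (.e (nat_lit 286765) (nat_lit 15) (.e (nat_lit 3307) (nat_lit 202) (.e (nat_lit 573493) (nat_lit 15) (.e (nat_lit 81953) (nat_lit 22) (.e (nat_lit 90165) (nat_lit 12) (.e (nat_lit 164208) (nat_lit 176) (.e (nat_lit 2779) (nat_lit 178) .nil))))))) (.g (nat_lit 1) (.e (nat_lit 289908) (nat_lit 0) .nil) .nil))))) (.nd (nat_lit 8) (.nd (nat_lit 9) 
(.lf (nat_lit 548080) (.g (nat_lit 2637) (.e (nat_lit 311312) (nat_lit 2) (.e (nat_lit 196666) (nat_lit 13) (.e (nat_lit 65610) (nat_lit 10) (.e (nat_lit 344117) (nat_lit 21) (.e (nat_lit 516140) (nat_lit 8) .nil))))) (.g (nat_lit 0) (.e (nat_lit 287777) (nat_lit 0) .nil) .nil))) 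
(.lf (nat_lit 548592) (.g (nat_lit 5202) (.e (nat_lit 286753) (nat_lit 10) (.e (nat_lit 344160) (nat_lit 37) (.e (nat_lit 647201) (nat_lit 12) (.e (nat_lit 57575) (nat_lit 55) (.e (nat_lit 778466) (nat_lit 11) (.e (nat_lit 24617) (nat_lit 7) (.e (nat_lit 319533) (nat_lit 16) .nil))))))) (.g (nat_lit 1) (.e (nat_lit 289682) (nat_lit 0) .nil) .nil)))) (.nd (nat_lit 9) 
(.lf (nat_lit 548336) (.g (nat_lit 1392) (.e (nat_lit 286720) (nat_lit 0) (.e (nat_lit 1788) (nat_lit 119) (.e (nat_lit 516163) (nat_lit 11) (.e (nat_lit 442426) (nat_lit 23) .nil)))) (.g (nat_lit 0) (.e (nat_lit 289175) (nat_lit 0) .nil) .nil))) 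
(.lf (nat_lit 548848) (.g (nat_lit 1298) (.e (nat_lit 294928) (nat_lit 2) (.e (nat_lit 90176) (nat_lit 15) (.e (nat_lit 188449) (nat_lit 22) (.e (nat_lit 196661) (nat_lit 12) .nil)))) (.g (nat_lit 0) (.e (nat_lit 290493) (nat_lit 0) .nil) .nil))))))))) (.nd (nat_lit 4) (.nd (nat_lit 5) (.nd (nat_lit 6) (.nd (nat_lit 7) (.nd (nat_lit 8) (.nd (nat_lit 9) 
(.lf (nat_lit 547848) (.g (nat_lit 2638) (.e (nat_lit 303143) (nat_lit 12) (.e (nat_lit 475218) (nat_lit 44) (.e (nat_lit 737318) (nat_lit 15) (.e (nat_lit 49189) (nat_lit 11) (.e (nat_lit 16425) (nat_lit 7) (.e (nat_lit 409643) (nat_lit 18) .nil)))))) (.g (nat_lit 1) (.e (nat_lit 286965) (nat_lit 0) .nil) .nil))) 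
(.lf (nat_lit 548360) (.g (nat_lit 1422) (.e (nat_lit 286727) (nat_lit 0) (.e (nat_lit 1799) (nat_lit 119) (.e (nat_lit 516176) (nat_lit 14) (.e (nat_lit 466979) (nat_lit 23) (.e (nat_lit 204845) (nat_lit 24) .nil))))) (.g (nat_lit 0) (.e (nat_lit 289251) (nat_lit 0) .nil) .nil)))) (.nd (nat_lit 9) 
(.lf (nat_lit 548104) (.g (nat_lit 1332) (.e (nat_lit 311312) (nat_lit 2) (.e (nat_lit 196672) (nat_lit 15) (.e (nat_lit 81954) (nat_lit 23) (.e (nat_lit 98325) (nat_lit 17) (.e (nat_lit 7936) (nat_lit 377) .nil))))) (.g (nat_lit 0) (.e (nat_lit 287824) (nat_lit 0) .nil) .nil))) 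
(.lf (nat_lit 548616) (.g (nat_lit 440) (.e (nat_lit 286756) (nat_lit 10) (.e (nat_lit 344156) (nat_lit 36) (.e (nat_lit 638998) (nat_lit 8) .nil))) (.g (nat_lit 0) (.e (nat_lit 289746) (nat_lit 0) .nil) .nil))))) (.nd (nat_lit 8) (.nd (nat_lit 9) 
(.lf (nat_lit 547976) (.g (nat_lit 609) (.e (nat_lit 303155) (nat_lit 29) (.e (nat_lit 352307) (nat_lit 21) (.e (nat_lit 57848) (nat_lit 252) .nil))) (.g (nat_lit 0) (.e (nat_lit 287558) (nat_lit 0) .nil) .nil))) 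
(.lf (nat_lit 548488) (.g (nat_lit 1112) (.e (nat_lit 286735) (nat_lit 3) (.e (nat_lit 98350) (nat_lit 24) (.e (nat_lit 409649) (nat_lit 18) (.e (nat_lit 303111) (nat_lit 0) .nil)))) (.g (nat_lit 0) (.e (nat_lit 289536) (nat_lit 0) .nil) .nil)))) (.nd (nat_lit 9) 
(.lf (nat_lit 548232) (.g (nat_lit 1315) (.e (nat_lit 311339) (nat_lit 12) (.e (nat_lit 475210) (nat_lit 41) (.e (nat_lit 712752) (nat_lit 29) (.e (nat_lit 450304) (nat_lit 4) .nil)))) (.g (nat_lit 0) (.e (nat_lit 288415) (nat_lit 0) .nil) .nil))) 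
(.lf (nat_lit 548744) (.g (nat_lit 2817) (.e (nat_lit 286765) (nat_lit 15) (.e (nat_lit 3308) (nat_lit 202) (.e (nat_lit 573493) (nat_lit 15) (.e (nat_lit 81956) (nat_lit 23) (.e (nat_lit 98325) (nat_lit 17) (.e (nat_lit 6966) (nat_lit 377) (.e (nat_lit 2779) (nat_lit 178) .nil))))))) (.g (nat_lit 1) (.e (nat_lit 289935) (nat_lit 0) .nil) .nil)))))) 
(.nd (nat_lit 7) (.nd (nat_lit 8) (.nd (nat_lit 9) 
(.lf (nat_lit 547912) (.g (nat_lit 1268) (.e (nat_lit 311040) (nat_lit 17) (.e (nat_lit 90174) (nat_lit 14) (.e (nat_lit 180251) (nat_lit 10) (.e (nat_lit 573487) (nat_lit 14) .nil)))) (.g (nat_lit 0) (.e (nat_lit 287468) (nat_lit 0) .nil) .nil))) 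
(.lf (nat_lit 548424) (.g (nat_lit 2554) (.e (nat_lit 286733) (nat_lit 2) (.e (nat_lit 90177) (nat_lit 15) (.e (nat_lit 188434) (nat_lit 20) (.e (nat_lit 3238) (nat_lit 197) (.e (nat_lit 532523) (nat_lit 7) (.e (nat_lit 327424) (nat_lit 16) .nil)))))) (.g (nat_lit 1) (.e (nat_lit 289460) (nat_lit 0) .nil) .nil)))) (.nd (nat_lit 9) 
(.lf (nat_lit 548168) (.g (nat_lit 1568) (.e (nat_lit 311315) (nat_lit 3) (.e (nat_lit 204846) (nat_lit 24) (.e (nat_lit 319533) (nat_lit 16) (.e (nat_lit 286724) (nat_lit 0) .nil)))) (.g (nat_lit 0) (.e (nat_lit 288034) (nat_lit 0) .nil) .nil))) 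
(.lf (nat_lit 548680) (.g (nat_lit 3892) (.e (nat_lit 286765) (nat_lit 15) (.e (nat_lit 3298) (nat_lit 202) (.e (nat_lit 573492) (nat_lit 15) (.e (nat_lit 81956) (nat_lit 23) (.e (nat_lit 98325) (nat_lit 17) (.e (nat_lit 6986) (nat_lit 377) (.e (nat_lit 2777) (nat_lit 178) .nil))))))) (.g (nat_lit 1) (.e (nat_lit 289854) (nat_lit 0) .nil) .nil))))) (.nd (nat_lit 8) (.nd (nat_lit 9) 
(.lf (nat_lit 548040) (.g (nat_lit 1290) (.e (nat_lit 311311) (nat_lit 2) (.e (nat_lit 196672) (nat_lit 15) (.e (nat_lit 81954) (nat_lit 23) (.e (nat_lit 98320) (nat_lit 17) .nil)))) (.g (nat_lit 0) (.e (nat_lit 287706) (nat_lit 0) .nil) .nil))) 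
(.lf (nat_lit 548552) (.g (nat_lit 1319) (.e (nat_lit 286743) (nat_lit 9) (.e (nat_lit 336336) (nat_lit 20) (.e (nat_lit 221218) (nat_lit 24) (.e (nat_lit 213030) (nat_lit 11) .nil)))) (.g (nat_lit 0) (.e (nat_lit 289619) (nat_lit 0) .nil) .nil)))) (.nd (nat_lit 9) 
(.lf (nat_lit 548296) (.g (nat_lit 3662) (.e (nat_lit 319232) (nat_lit 27) (.e (nat_lit 336235) (nat_lit 14) (.e (nat_lit 401459) (nat_lit 13) (.e (nat_lit 483372) (nat_lit 21) (.e (nat_lit 319537) (nat_lit 19) .nil))))) (.g (nat_lit 0) (.e (nat_lit 289119) (nat_lit 0) .nil) .nil))) 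
(.lf (nat_lit 548808) (.g (nat_lit 1378) (.e (nat_lit 294656) (nat_lit 35) (.e (nat_lit 491566) (nat_lit 12) (.e (nat_lit 385091) (nat_lit 49) .nil))) (.g (nat_lit 0) (.e (nat_lit 290435) (nat_lit 0) .nil) .nil))))))) (.nd (nat_lit 6) (.nd (nat_lit 7) (.nd (nat_lit 8) (.nd (nat_lit 9) 
(.lf (nat_lit 547880) (.g (nat_lit 5115) (.e (nat_lit 303145) (nat_lit 13) (.e (nat_lit 483413) (nat_lit 27) (.e (nat_lit 401446) (nat_lit 10) (.e (nat_lit 434202) (nat_lit 18) (.e (nat_lit 6058) (nat_lit 327) (.e (nat_lit 8213) (nat_lit 9) .nil)))))) (.g (nat_lit 1) (.e (nat_lit 287326) (nat_lit 0) .nil) .nil))) 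
(.lf (nat_lit 548392) (.g (nat_lit 493) (.e (nat_lit 286733) (nat_lit 2) (.e (nat_lit 90134) (nat_lit 9) (.e (nat_lit 3002) (nat_lit 186) .nil))) (.g (nat_lit 0) (.e (nat_lit 289413) (nat_lit 0) .nil) .nil)))) (.nd (nat_lit 9) 
(.lf (nat_lit 548136) (.g (nat_lit 1880) (.e (nat_lit 311314) (nat_lit 3) (.e (nat_lit 204861) (nat_lit 26) (.e (nat_lit 336186) (nat_lit 11) (.e (nat_lit 368676) (nat_lit 21) (.e (nat_lit 516141) (nat_lit 8) (.e (nat_lit 425728) (nat_lit 19) .nil)))))) (.g (nat_lit 1) (.e (nat_lit 287887) (nat_lit 0) .nil) .nil))) 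
(.lf (nat_lit 548648) (.g (nat_lit 601) (.e (nat_lit 286759) (nat_lit 12) (.e (nat_lit 385107) (nat_lit 51) (.e (nat_lit 794692) (nat_lit 29) .nil))) (.g (nat_lit 0) (.e (nat_lit 289798) (nat_lit 0) .nil) .nil))))) (.nd (nat_lit 8) (.nd (nat_lit 9) 
(.lf (nat_lit 548008) (.g (nat_lit 735) (.e (nat_lit 311310) (nat_lit 2) (.e (nat_lit 196672) (nat_lit 15) (.e (nat_lit 81953) (nat_lit 22) .nil))) (.g (nat_lit 0) (.e (nat_lit 287643) (nat_lit 0) .nil) .nil))) 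
(.lf (nat_lit 548520) (.g (nat_lit 873) (.e (nat_lit 286735) (nat_lit 3) (.e (nat_lit 98367) (nat_lit 27) (.e (nat_lit 434202) (nat_lit 18) .nil))) (.g (nat_lit 0) (.e (nat_lit 289571) (nat_lit 0) .nil) .nil)))) (.nd (nat_lit 9) 
(.lf (nat_lit 548264) (.g (nat_lit 1798) (.e (nat_lit 311343) (nat_lit 13) (.e (nat_lit 483372) (nat_lit 21) (.e (nat_lit 319533) (nat_lit 16) (.e (nat_lit 286726) (nat_lit 0) .nil)))) (.g (nat_lit 0) (.e (nat_lit 288773) (nat_lit 0) .nil) .nil))) 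
(.lf (nat_lit 548776) (.g (nat_lit 1637) (.e (nat_lit 286768) (nat_lit 27) (.e (nat_lit 426340) (nat_lit 14) (.e (nat_lit 491570) (nat_lit 13) (.e (nat_lit 393238) (nat_lit 17) (.e (nat_lit 6989) (nat_lit 377) .nil))))) (.g (nat_lit 0) (.e (nat_lit 290185) (nat_lit 0) .nil) .nil)))))) (.nd (nat_lit 7) (.nd (nat_lit 8) (.nd (nat_lit 9) 
(.lf (nat_lit 547944) (.g (nat_lit 1951) (.e (nat_lit 311040) (nat_lit 27) (.e (nat_lit 336226) (nat_lit 14) (.e (nat_lit 401459) (nat_lit 13) (.e (nat_lit 483354) (nat_lit 17) (.e (nat_lit 6114) (nat_lit 332) .nil))))) (.g (nat_lit 0) (.e (nat_lit 287516) (nat_lit 0) .nil) .nil))) 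
(.lf (nat_lit 548456) (.g (nat_lit 1530) (.e (nat_lit 286734) (nat_lit 3) (.e (nat_lit 98381) (nat_lit 31) (.e (nat_lit 466981) (nat_lit 23) (.e (nat_lit 204845) (nat_lit 24) (.e (nat_lit 327424) (nat_lit 16) .nil))))) (.g (nat_lit 1) (.e (nat_lit 289499) (nat_lit 0) .nil) .nil)))) (.nd (nat_lit 9) 
(.lf (nat_lit 548200) (.g (nat_lit 2138) (.e (nat_lit 311315) (nat_lit 3) (.e (nat_lit 204885) (nat_lit 33) (.e (nat_lit 401434) (nat_lit 9) (.e (nat_lit 426140) (nat_lit 3) (.e (nat_lit 204845) (nat_lit 24) (.e (nat_lit 319539) (nat_lit 19) .nil)))))) (.g (nat_lit 1) (.e (nat_lit 288217) (nat_lit 0) .nil) .nil))) 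
(.lf (nat_lit 548712) (.g (nat_lit 2600) (.e (nat_lit 286765) (nat_lit 15) (.e (nat_lit 3307) (nat_lit 202) (.e (nat_lit 573484) (nat_lit 13) (.e (nat_lit 65619) (nat_lit 10) .nil)))) (.g (nat_lit 0) (.e (nat_lit 289900) (nat_lit 0) .nil) .nil))))) (.nd (nat_lit 8) (.nd (nat_lit 9) 
(.lf (nat_lit 548072) (.g (nat_lit 3095) (.e (nat_lit 311312) (nat_lit 2) (.e (nat_lit 196666) (nat_lit 13) (.e (nat_lit 65610) (nat_lit 10) (.e (nat_lit 344117) (nat_lit 21) (.e (nat_lit 516106) (nat_lit 0) (.e (nat_lit 6998) (nat_lit 377) (.e (nat_lit 2814) (nat_lit 181) .nil))))))) (.g (nat_lit 1) (.e (nat_lit 287768) (nat_lit 0) .nil) .nil))) 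
(.lf (nat_lit 548584) (.g (nat_lit 1532) (.e (nat_lit 286753) (nat_lit 10) (.e (nat_lit 344160) (nat_lit 37) (.e (nat_lit 647195) (nat_lit 9) (.e (nat_lit 7936) (nat_lit 33) .nil)))) (.g (nat_lit 0) (.e (nat_lit 289674) (nat_lit 0) .nil) .nil)))) (.nd (nat_lit 9) 
(.lf (nat_lit 548328) (.g (nat_lit 1437) (.e (nat_lit 319232) (nat_lit 35) (.e (nat_lit 401454) (nat_lit 12) (.e (nat_lit 475198) (nat_lit 40) (.e (nat_lit 704596) (nat_lit 5) .nil)))) (.g (nat_lit 0) (.e (nat_lit 289167) (nat_lit 0) .nil) .nil))) 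
(.lf (nat_lit 548840) (.g (nat_lit 2942) (.e (nat_lit 294928) (nat_lit 2) (.e (nat_lit 90170) (nat_lit 13) (.e (nat_lit 172106) (nat_lit 10) (.e (nat_lit 434231) (nat_lit 23) (.e (nat_lit 540416) (nat_lit 0) .nil))))) (.g (nat_lit 0) (.e (nat_lit 290485) (nat_lit 0) .nil) .nil)))))))) (.nd (nat_lit 5) (.nd (nat_lit 6) (.nd (nat_lit 7) (.nd (nat_lit 8) (.nd (nat_lit 9) 
(.lf (nat_lit 547864) (.g (nat_lit 2614) (.e (nat_lit 303144) (nat_lit 13) (.e (nat_lit 483413) (nat_lit 27) (.e (nat_lit 401447) (nat_lit 10) (.e (nat_lit 434203) (nat_lit 18) .nil)))) (.g (nat_lit 0) (.e (nat_lit 287047) (nat_lit 0) .nil) .nil))) 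
(.lf (nat_lit 548376) (.g (nat_lit 2750) (.e (nat_lit 286732) (nat_lit 2) (.e (nat_lit 90170) (nat_lit 13) (.e (nat_lit 172106) (nat_lit 10) (.e (nat_lit 434244) (nat_lit 28) (.e (nat_lit 573468) (nat_lit 10) .nil))))) (.g (nat_lit 0) (.e (nat_lit 289368) (nat_lit 0) .nil) .nil)))) (.nd (nat_lit 9) 
(.lf (nat_lit 548120) (.g (nat_lit 579) (.e (nat_lit 311313) (nat_lit 3) (.e (nat_lit 204846) (nat_lit 24) (.e (nat_lit 319538) (nat_lit 19) .nil))) (.g (nat_lit 0) (.e (nat_lit 287855) (nat_lit 0) .nil) .nil))) 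
(.lf (nat_lit 548632) (.g (nat_lit 3304) (.e (nat_lit 286759) (nat_lit 12) (.e (nat_lit 385074) (nat_lit 31) (.e (nat_lit 573491) (nat_lit 15) (.e (nat_lit 81953) (nat_lit 22) (.e (nat_lit 98048) (nat_lit 18) .nil))))) (.g (nat_lit 0) (.e (nat_lit 289781) (nat_lit 0) .nil) .nil))))) (.nd (nat_lit 8) (.nd (nat_lit 9) 
(.lf (nat_lit 547992) (.g (nat_lit 1460) (.e (nat_lit 311040) (nat_lit 35) (.e (nat_lit 401454) (nat_lit 12) (.e (nat_lit 475208) (nat_lit 41) (.e (nat_lit 712739) (nat_lit 27) .nil)))) (.g (nat_lit 0) (.e (nat_lit 287586) (nat_lit 0) .nil) .nil))) 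
(.lf (nat_lit 548504) (.g (nat_lit 3335) (.e (nat_lit 286735) (nat_lit 3) (.e (nat_lit 98359) (nat_lit 26) (.e (nat_lit 426312) (nat_lit 12) (.e (nat_lit 475185) (nat_lit 29) (.e (nat_lit 557070) (nat_lit 9) (.e (nat_lit 2400) (nat_lit 157) (.e (nat_lit 7064) (nat_lit 377) (.e (nat_lit 1349) (nat_lit 102) .nil)))))))) (.g (nat_lit 1) (.e (nat_lit 289555) (nat_lit 0) .nil) .nil)))) 
(.nd (nat_lit 9) 
(.lf (nat_lit 548248) (.g (nat_lit 1392) (.e (nat_lit 311343) (nat_lit 13) (.e (nat_lit 483337) (nat_lit 9) (.e (nat_lit 426107) (nat_lit 1) (.e (nat_lit 164347) (nat_lit 240) .nil)))) (.g (nat_lit 0) (.e (nat_lit 288670) (nat_lit 0) .nil) .nil))) 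
(.lf (nat_lit 548760) (.g (nat_lit 3774) (.e (nat_lit 286767) (nat_lit 27) (.e (nat_lit 426343) (nat_lit 14) (.e (nat_lit 491570) (nat_lit 13) (.e (nat_lit 393238) (nat_lit 17) (.e (nat_lit 6989) (nat_lit 377) (.e (nat_lit 2777) (nat_lit 178) .nil)))))) (.g (nat_lit 1) (.e (nat_lit 290161) (nat_lit 0) .nil) .nil)))))) (.nd (nat_lit 7) (.nd (nat_lit 8) (.nd (nat_lit 9) 
(.lf (nat_lit 547928) (.g (nat_lit 1421) (.e (nat_lit 303152) (nat_lit 27) (.e (nat_lit 336226) (nat_lit 14) (.e (nat_lit 401459) (nat_lit 13) (.e (nat_lit 483350) (nat_lit 17) .nil)))) (.g (nat_lit 0) (.e (nat_lit 287496) (nat_lit 0) .nil) .nil))) 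
(.lf (nat_lit 548440) (.g (nat_lit 4110) (.e (nat_lit 286733) (nat_lit 2) (.e (nat_lit 90178) (nat_lit 15) (.e (nat_lit 188452) (nat_lit 23) (.e (nat_lit 204846) (nat_lit 24) (.e (nat_lit 319529) (nat_lit 16) .nil))))) (.g (nat_lit 1) (.e (nat_lit 289477) (nat_lit 0) .nil) .nil)))) (.nd (nat_lit 9) 
(.lf (nat_lit 548184) (.g (nat_lit 703) (.e (nat_lit 311315) (nat_lit 3) (.e (nat_lit 204861) (nat_lit 26) (.e (nat_lit 336184) (nat_lit 11) .nil))) (.g (nat_lit 0) (.e (nat_lit 288058) (nat_lit 0) .nil) .nil))) 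
(.lf (nat_lit 548696) (.g (nat_lit 2741) (.e (nat_lit 286765) (nat_lit 15) (.e (nat_lit 3304) (nat_lit 202) (.e (nat_lit 573482) (nat_lit 13) (.e (nat_lit 65619) (nat_lit 10) (.e (nat_lit 344117) (nat_lit 21) (.e (nat_lit 516102) (nat_lit 0) (.e (nat_lit 6989) (nat_lit 377) (.e (nat_lit 2777) (nat_lit 178) .nil)))))))) (.g (nat_lit 1) (.e (nat_lit 289871) (nat_lit 0) .nil) .nil))))) 
(.nd (nat_lit 8) (.nd (nat_lit 9) 
(.lf (nat_lit 548056) (.g (nat_lit 3465) (.e (nat_lit 311312) (nat_lit 2) (.e (nat_lit 196666) (nat_lit 13) (.e (nat_lit 65610) (nat_lit 10) (.e (nat_lit 344117) (nat_lit 21) (.e (nat_lit 516098) (nat_lit 0) (.e (nat_lit 6948) (nat_lit 377) (.e (nat_lit 2818) (nat_lit 181) .nil))))))) (.g (nat_lit 1) (.e (nat_lit 287751) (nat_lit 0) .nil) .nil))) 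
(.lf (nat_lit 548568) (.g (nat_lit 2616) (.e (nat_lit 286748) (nat_lit 9) (.e (nat_lit 336295) (nat_lit 15) (.e (nat_lit 3305) (nat_lit 202) (.e (nat_lit 573484) (nat_lit 13) (.e (nat_lit 65617) (nat_lit 10) (.e (nat_lit 344114) (nat_lit 20) (.e (nat_lit 507921) (nat_lit 6) .nil))))))) (.g (nat_lit 1) (.e (nat_lit 289647) (nat_lit 0) .nil) .nil)))) (.nd (nat_lit 9) 
(.lf (nat_lit 548312) (.g (nat_lit 2042) (.e (nat_lit 311357) (nat_lit 28) (.e (nat_lit 344069) (nat_lit 0) (.e (nat_lit 3090) (nat_lit 191) (.e (nat_lit 483350) (nat_lit 17) (.e (nat_lit 6109) (nat_lit 332) (.e (nat_lit 1380) (nat_lit 105) .nil)))))) (.g (nat_lit 1) (.e (nat_lit 289141) (nat_lit 0) .nil) .nil))) 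
(.lf (nat_lit 548824) (.g (nat_lit 3389) (.e (nat_lit 294927) (nat_lit 2) (.e (nat_lit 90170) (nat_lit 13) (.e (nat_lit 172106) (nat_lit 10) (.e (nat_lit 434231) (nat_lit 23) (.e (nat_lit 532522) (nat_lit 7) (.e (nat_lit 319535) (nat_lit 17) .nil)))))) (.g (nat_lit 1) (.e (nat_lit 290467) (nat_lit 0) .nil) .nil))))))) (.nd (nat_lit 6) (.nd (nat_lit 7) (.nd (nat_lit 8) (.nd (nat_lit 9) 
(.lf (nat_lit 547896) (.g (nat_lit 2961) (.e (nat_lit 303147) (nat_lit 15) (.e (nat_lit 1858) (nat_lit 124) (.e (nat_lit 557107) (nat_lit 15) (.e (nat_lit 188450) (nat_lit 23) (.e (nat_lit 204821) (nat_lit 17) .nil))))) (.g (nat_lit 0) (.e (nat_lit 287445) (nat_lit 0) .nil) .nil))) 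
(.lf (nat_lit 548408) (.g (nat_lit 3689) (.e (nat_lit 286733) (nat_lit 2) (.e (nat_lit 90170) (nat_lit 13) (.e (nat_lit 172106) (nat_lit 10) (.e (nat_lit 434231) (nat_lit 23) (.e (nat_lit 532523) (nat_lit 7) (.e (nat_lit 327424) (nat_lit 16) .nil)))))) (.g (nat_lit 1) (.e (nat_lit 289440) (nat_lit 0) .nil) .nil)))) (.nd (nat_lit 9) 
(.lf (nat_lit 548152) (.g (nat_lit 1719) (.e (nat_lit 311314) (nat_lit 3) (.e (nat_lit 204885) (nat_lit 33) (.e (nat_lit 401448) (nat_lit 10) (.e (nat_lit 434234) (nat_lit 23) .nil)))) (.g (nat_lit 0) (.e (nat_lit 287998) (nat_lit 0) .nil) .nil))) 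
(.lf (nat_lit 548664) (.g (nat_lit 1048) (.e (nat_lit 286762) (nat_lit 14) (.e (nat_lit 401448) (nat_lit 10) (.e (nat_lit 434274) (nat_lit 39) .nil))) (.g (nat_lit 0) (.e (nat_lit 289821) (nat_lit 0) .nil) .nil))))) (.nd (nat_lit 8) (.nd (nat_lit 9) 
(.lf (nat_lit 548024) (.g (nat_lit 3862) (.e (nat_lit 311311) (nat_lit 2) (.e (nat_lit 196666) (nat_lit 13) (.e (nat_lit 65610) (nat_lit 10) (.e (nat_lit 344117) (nat_lit 21) (.e (nat_lit 516106) (nat_lit 0) (.e (nat_lit 6966) (nat_lit 377) (.e (nat_lit 2816) (nat_lit 181) .nil))))))) (.g (nat_lit 1) (.e (nat_lit 287671) (nat_lit 0) .nil) .nil))) 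
(.lf (nat_lit 548536) (.g (nat_lit 2604) (.e (nat_lit 286735) (nat_lit 3) (.e (nat_lit 98382) (nat_lit 31) (.e (nat_lit 466978) (nat_lit 23) (.e (nat_lit 204846) (nat_lit 24) (.e (nat_lit 319531) (nat_lit 16) .nil))))) (.g (nat_lit 1) (.e (nat_lit 289590) (nat_lit 0) .nil) .nil)))) (.nd (nat_lit 9) 
(.lf (nat_lit 548280) (.g (nat_lit 2958) (.e (nat_lit 311348) (nat_lit 15) (.e (nat_lit 1859) (nat_lit 124) (.e (nat_lit 557109) (nat_lit 15) (.e (nat_lit 188450) (nat_lit 23) (.e (nat_lit 204846) (nat_lit 24) .nil))))) (.g (nat_lit 0) (.e (nat_lit 289086) (nat_lit 0) .nil) .nil))) 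
(.lf (nat_lit 548792) (.g (nat_lit 1955) (.e (nat_lit 294656) (nat_lit 27) (.e (nat_lit 426347) (nat_lit 14) (.e (nat_lit 491550) (nat_lit 9) (.e (nat_lit 336421) (nat_lit 28) (.e (nat_lit 434186) (nat_lit 13) .nil))))) (.g (nat_lit 0) (.e (nat_lit 290205) (nat_lit 0) .nil) .nil)))))) (.nd (nat_lit 7) (.nd (nat_lit 8) (.nd (nat_lit 9) 
(.lf (nat_lit 547960) (.g (nat_lit 965) (.e (nat_lit 303154) (nat_lit 28) (.e (nat_lit 344068) (nat_lit 0) (.e (nat_lit 2857) (nat_lit 184) (.e (nat_lit 426533) (nat_lit 28) .nil)))) (.g (nat_lit 0) (.e (nat_lit 287539) (nat_lit 0) .nil) .nil))) 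
(.lf (nat_lit 548472) (.g (nat_lit 3259) (.e (nat_lit 286735) (nat_lit 3) (.e (nat_lit 98323) (nat_lit 17) (.e (nat_lit 6989) (nat_lit 377) (.e (nat_lit 1374) (nat_lit 104) (.e (nat_lit 303119) (nat_lit 3) (.e (nat_lit 204846) (nat_lit 24) (.e (nat_lit 327424) (nat_lit 16) .nil))))))) (.g (nat_lit 1) (.e (nat_lit 289517) (nat_lit 0) .nil) .nil)))) (.nd (nat_lit 9) 
(.lf (nat_lit 548216) (.g (nat_lit 1453) (.e (nat_lit 311324) (nat_lit 9) (.e (nat_lit 426482) (nat_lit 27) (.e (nat_lit 336060) (nat_lit 7) (.e (nat_lit 319534) (nat_lit 16) (.e (nat_lit 286728) (nat_lit 0) .nil))))) (.g (nat_lit 0) (.e (nat_lit 288281) (nat_lit 0) .nil) .nil))) 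
(.lf (nat_lit 548728) (.g (nat_lit 2835) (.e (nat_lit 286765) (nat_lit 15) (.e (nat_lit 3308) (nat_lit 202) (.e (nat_lit 573482) (nat_lit 13) (.e (nat_lit 65604) (nat_lit 9) (.e (nat_lit 336028) (nat_lit 3) (.e (nat_lit 98325) (nat_lit 17) (.e (nat_lit 6966) (nat_lit 377) (.e (nat_lit 2779) (nat_lit 178) .nil)))))))) (.g (nat_lit 1) (.e (nat_lit 289919) (nat_lit 0) .nil) .nil))))) 
(.nd (nat_lit 8) (.nd (nat_lit 9) 
(.lf (nat_lit 548088) (.g (nat_lit 2107) (.e (nat_lit 311312) (nat_lit 2) (.e (nat_lit 196672) (nat_lit 15) (.e (nat_lit 81954) (nat_lit 23) (.e (nat_lit 98320) (nat_lit 17) (.e (nat_lit 6948) (nat_lit 377) (.e (nat_lit 2814) (nat_lit 181) .nil)))))) (.g (nat_lit 1) (.e (nat_lit 287808) (nat_lit 0) .nil) .nil))) 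
(.lf (nat_lit 548600) (.g (nat_lit 836) (.e (nat_lit 286755) (nat_lit 10) (.e (nat_lit 344153) (nat_lit 35) (.e (nat_lit 630801) (nat_lit 8) (.e (nat_lit 172080) (nat_lit 7) (.e (nat_lit 409638) (nat_lit 15) (.e (nat_lit 278566) (nat_lit 16) .nil)))))) (.g (nat_lit 1) (.e (nat_lit 289711) (nat_lit 0) .nil) .nil)))) (.nd (nat_lit 9) 
(.lf (nat_lit 548344) (.g (nat_lit 2623) (.e (nat_lit 286725) (nat_lit 0) (.e (nat_lit 1788) (nat_lit 119) (.e (nat_lit 516151) (nat_lit 9) (.e (nat_lit 426185) (nat_lit 9) .nil)))) (.g (nat_lit 0) (.e (nat_lit 289198) (nat_lit 0) .nil) .nil))) 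
(.lf (nat_lit 548856) (.g (nat_lit 1369) (.e (nat_lit 294928) (nat_lit 2) (.e (nat_lit 90176) (nat_lit 15) (.e (nat_lit 188452) (nat_lit 23) (.e (nat_lit 204821) (nat_lit 17) .nil)))) (.g (nat_lit 0) (.e (nat_lit 290501) (nat_lit 0) .nil) .nil)))))))))) (.nd (nat_lit 3) (.nd (nat_lit 4) (.nd (nat_lit 5) (.nd (nat_lit 6) (.nd (nat_lit 7) (.nd (nat_lit 8) (.nd (nat_lit 9) 
(.lf (nat_lit 547844) (.g (nat_lit 1151) (.e (nat_lit 303143) (nat_lit 12) (.e (nat_lit 475214) (nat_lit 42) (.e (nat_lit 720955) (nat_lit 25) .nil))) (.g (nat_lit 0) (.e (nat_lit 286961) (nat_lit 0) .nil) .nil))) 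
(.lf (nat_lit 548356) (.g (nat_lit 3936) (.e (nat_lit 286728) (nat_lit 0) (.e (nat_lit 1788) (nat_lit 119) (.e (nat_lit 516151) (nat_lit 9) (.e (nat_lit 426285) (nat_lit 10) (.e (nat_lit 434231) (nat_lit 23) .nil))))) (.g (nat_lit 0) (.e (nat_lit 289211) (nat_lit 0) .nil) .nil)))) (.nd (nat_lit 9) 
(.lf (nat_lit 548100) (.g (nat_lit 2256) (.e (nat_lit 311312) (nat_lit 2) (.e (nat_lit 196672) (nat_lit 15) (.e (nat_lit 81954) (nat_lit 23) (.e (nat_lit 98325) (nat_lit 17) (.e (nat_lit 6966) (nat_lit 377) (.e (nat_lit 2818) (nat_lit 181) .nil)))))) (.g (nat_lit 1) (.e (nat_lit 287820) (nat_lit 0) .nil) .nil))) 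
(.lf (nat_lit 548612) (.g (nat_lit 1584) (.e (nat_lit 286756) (nat_lit 10) (.e (nat_lit 344090) (nat_lit 18) (.e (nat_lit 5441) (nat_lit 306) (.e (nat_lit 1183) (nat_lit 87) (.e (nat_lit 57575) (nat_lit 55) .nil))))) (.g (nat_lit 0) (.e (nat_lit 289738) (nat_lit 0) .nil) .nil))))) (.nd (nat_lit 8) (.nd (nat_lit 9) 
(.lf (nat_lit 547972) (.g (nat_lit 1281) (.e (nat_lit 303155) (nat_lit 29) (.e (nat_lit 352267) (nat_lit 0) (.e (nat_lit 3748) (nat_lit 228) (.e (nat_lit 786475) (nat_lit 28) (.e (nat_lit 344075) (nat_lit 13) .nil))))) (.g (nat_lit 0) (.e (nat_lit 287554) (nat_lit 0) .nil) .nil))) 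
(.lf (nat_lit 548484) (.g (nat_lit 2951) (.e (nat_lit 286735) (nat_lit 3) (.e (nat_lit 98350) (nat_lit 24) (.e (nat_lit 409623) (nat_lit 10) (.e (nat_lit 5664) (nat_lit 312) (.e (nat_lit 2679) (nat_lit 168) (.e (nat_lit 204846) (nat_lit 24) (.e (nat_lit 327424) (nat_lit 6) .nil))))))) (.g (nat_lit 1) (.e (nat_lit 289532) (nat_lit 0) .nil) .nil)))) (.nd (nat_lit 9) 
(.lf (nat_lit 548228) (.g (nat_lit 918) (.e (nat_lit 311339) (nat_lit 12) (.e (nat_lit 475198) (nat_lit 40) (.e (nat_lit 704592) (nat_lit 4) .nil))) (.g (nat_lit 0) (.e (nat_lit 288401) (nat_lit 0) .nil) .nil))) 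
(.lf (nat_lit 548740) (.g (nat_lit 3806) (.e (nat_lit 286765) (nat_lit 15) (.e (nat_lit 3308) (nat_lit 202) (.e (nat_lit 573493) (nat_lit 15) (.e (nat_lit 81954) (nat_lit 23) (.e (nat_lit 98325) (nat_lit 17) (.e (nat_lit 6986) (nat_lit 377) (.e (nat_lit 2781) (nat_lit 178) .nil))))))) (.g (nat_lit 1) (.e (nat_lit 289931) (nat_lit 0) .nil) .nil)))))) 
(.nd (nat_lit 7) (.nd (nat_lit 8) (.nd (nat_lit 9) 
(.lf (nat_lit 547908) (.g (nat_lit 2904) (.e (nat_lit 311040) (nat_lit 15) (.e (nat_lit 1859) (nat_lit 124) (.e (nat_lit 557109) (nat_lit 15) (.e (nat_lit 188450) (nat_lit 23) (.e (nat_lit 204819) (nat_lit 17) .nil))))) (.g (nat_lit 0) (.e (nat_lit 287464) (nat_lit 0) .nil) .nil))) 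
(.lf (nat_lit 548420) (.g (nat_lit 3557) (.e (nat_lit 286733) (nat_lit 2) (.e (nat_lit 90176) (nat_lit 15) (.e (nat_lit 188450) (nat_lit 23) (.e (nat_lit 204846) (nat_lit 24) (.e (nat_lit 319528) (nat_lit 16) .nil))))) (.g (nat_lit 1) (.e (nat_lit 289456) (nat_lit 0) .nil) .nil)))) (.nd (nat_lit 9) 
(.lf (nat_lit 548164) (.g (nat_lit 2355) (.e (nat_lit 311315) (nat_lit 3) (.e (nat_lit 204846) (nat_lit 24) (.e (nat_lit 319531) (nat_lit 16) (.e (nat_lit 286727) (nat_lit 0) (.e (nat_lit 1799) (nat_lit 119) (.e (nat_lit 516142) (nat_lit 8) (.e (nat_lit 417813) (nat_lit 9) .nil))))))) (.g (nat_lit 1) (.e (nat_lit 288030) (nat_lit 0) .nil) .nil))) 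
(.lf (nat_lit 548676) (.g (nat_lit 3503) (.e (nat_lit 286765) (nat_lit 15) (.e (nat_lit 3296) (nat_lit 202) (.e (nat_lit 573482) (nat_lit 13) (.e (nat_lit 65619) (nat_lit 10) (.e (nat_lit 344117) (nat_lit 21) (.e (nat_lit 516106) (nat_lit 0) (.e (nat_lit 6986) (nat_lit 377) (.e (nat_lit 2782) (nat_lit 178) .nil)))))))) (.g (nat_lit 1) (.e (nat_lit 289840) (nat_lit 0) .nil) .nil))))) 
(.nd (nat_lit 8) (.nd (nat_lit 9) 
(.lf (nat_lit 548036) (.g (nat_lit 2038) (.e (nat_lit 311311) (nat_lit 2) (.e (nat_lit 196666) (nat_lit 13) (.e (nat_lit 65619) (nat_lit 10) (.e (nat_lit 344117) (nat_lit 21) (.e (nat_lit 516106) (nat_lit 0) (.e (nat_lit 6966) (nat_lit 377) (.e (nat_lit 2815) (nat_lit 181) .nil))))))) (.g (nat_lit 1) (.e (nat_lit 287696) (nat_lit 0) .nil) .nil))) 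
(.lf (nat_lit 548548) (.g (nat_lit 724) (.e (nat_lit 286740) (nat_lit 7) (.e (nat_lit 319527) (nat_lit 15) (.e (nat_lit 278547) (nat_lit 8) (.e (nat_lit 303124) (nat_lit 7) (.e (nat_lit 409638) (nat_lit 15) (.e (nat_lit 278566) (nat_lit 16) .nil)))))) (.g (nat_lit 1) (.e (nat_lit 289607) (nat_lit 0) .nil) .nil)))) (.nd (nat_lit 9) 
(.lf (nat_lit 548292) (.g (nat_lit 472) (.e (nat_lit 311354) (nat_lit 27) (.e (nat_lit 336226) (nat_lit 14) (.e (nat_lit 401458) (nat_lit 13) .nil))) (.g (nat_lit 0) (.e (nat_lit 289109) (nat_lit 0) .nil) .nil))) 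
(.lf (nat_lit 548804) (.g (nat_lit 1988) (.e (nat_lit 286771) (nat_lit 29) (.e (nat_lit 442379) (nat_lit 0) (.e (nat_lit 2059) (nat_lit 142) (.e (nat_lit 704595) (nat_lit 5) (.e (nat_lit 180282) (nat_lit 45) .nil))))) (.g (nat_lit 0) (.e (nat_lit 290257) (nat_lit 0) .nil) .nil))))))) (.nd (nat_lit 6) (.nd (nat_lit 7) (.nd (nat_lit 8) (.nd (nat_lit 9) 
(.lf (nat_lit 547876) (.g (nat_lit 480) (.e (nat_lit 303145) (nat_lit 13) (.e (nat_lit 483408) (nat_lit 26) (.e (nat_lit 385111) (nat_lit 53) .nil))) (.g (nat_lit 0) (.e (nat_lit 287236) (nat_lit 0) .nil) .nil))) 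
(.lf (nat_lit 548388) (.g (nat_lit 482) (.e (nat_lit 286733) (nat_lit 2) (.e (nat_lit 90134) (nat_lit 9) (.e (nat_lit 2886) (nat_lit 184) .nil))) (.g (nat_lit 0) (.e (nat_lit 289404) (nat_lit 0) .nil) .nil)))) (.nd (nat_lit 9) 
(.lf (nat_lit 548132) (.g (nat_lit 2792) (.e (nat_lit 311314) (nat_lit 3) (.e (nat_lit 204846) (nat_lit 24) (.e (nat_lit 319530) (nat_lit 16) (.e (nat_lit 286727) (nat_lit 0) (.e (nat_lit 1799) (nat_lit 119) .nil))))) (.g (nat_lit 0) (.e (nat_lit 287878) (nat_lit 0) .nil) .nil))) 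
(.lf (nat_lit 548644) (.g (nat_lit 2116) (.e (nat_lit 286759) (nat_lit 12) (.e (nat_lit 385107) (nat_lit 51) (.e (nat_lit 794677) (nat_lit 24) (.e (nat_lit 213030) (nat_lit 11) (.e (nat_lit 24617) (nat_lit 7) (.e (nat_lit 319528) (nat_lit 16) .nil)))))) (.g (nat_lit 1) (.e (nat_lit 289794) (nat_lit 0) .nil) .nil))))) (.nd (nat_lit 8) (.nd (nat_lit 9) 
(.lf (nat_lit 548004) (.g (nat_lit 1427) (.e (nat_lit 311308) (nat_lit 1) (.e (nat_lit 164332) (nat_lit 230) (.e (nat_lit 163885) (nat_lit 5) (.e (nat_lit 229120) (nat_lit 13) .nil)))) (.g (nat_lit 0) (.e (nat_lit 287612) (nat_lit 0) .nil) .nil))) 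
(.lf (nat_lit 548516) (.g (nat_lit 3249) (.e (nat_lit 286735) (nat_lit 3) (.e (nat_lit 98365) (nat_lit 26) (.e (nat_lit 426306) (nat_lit 12) (.e (nat_lit 475185) (nat_lit 29) (.e (nat_lit 557070) (nat_lit 9) (.e (nat_lit 2400) (nat_lit 157) (.e (nat_lit 7064) (nat_lit 377) (.e (nat_lit 1349) (nat_lit 102) .nil)))))))) (.g (nat_lit 1) (.e (nat_lit 289567) (nat_lit 0) .nil) .nil)))) 
(.nd (nat_lit 9) 
(.lf (nat_lit 548260) (.g (nat_lit 1323) (.e (nat_lit 311343) (nat_lit 13) (.e (nat_lit 483372) (nat_lit 21) (.e (nat_lit 319531) (nat_lit 16) (.e (nat_lit 286728) (nat_lit 0) (.e (nat_lit 2281) (nat_lit 150) .nil))))) (.g (nat_lit 0) (.e (nat_lit 288748) (nat_lit 0) .nil) .nil))) 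
(.lf (nat_lit 548772) (.g (nat_lit 2196) (.e (nat_lit 286768) (nat_lit 27) (.e (nat_lit 426339) (nat_lit 14) (.e (nat_lit 491571) (nat_lit 13) (.e (nat_lit 393242) (nat_lit 17) (.e (nat_lit 6986) (nat_lit 377) (.e (nat_lit 2781) (nat_lit 178) .nil)))))) (.g (nat_lit 1) (.e (nat_lit 290180) (nat_lit 0) .nil) .nil)))))) (.nd (nat_lit 7) (.nd (nat_lit 8) (.nd (nat_lit 9) 
(.lf (nat_lit 547940) (.g (nat_lit 1560) (.e (nat_lit 311040) (nat_lit 27) (.e (nat_lit 336225) (nat_lit 14) (.e (nat_lit 401458) (nat_lit 13) (.e (nat_lit 483372) (nat_lit 21) (.e (nat_lit 327424) (nat_lit 18) .nil))))) (.g (nat_lit 0) (.e (nat_lit 287510) (nat_lit 0) .nil) .nil))) 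
(.lf (nat_lit 548452) (.g (nat_lit 3462) (.e (nat_lit 286734) (nat_lit 3) (.e (nat_lit 98370) (nat_lit 28) (.e (nat_lit 442427) (nat_lit 23) (.e (nat_lit 204845) (nat_lit 24) (.e (nat_lit 319529) (nat_lit 16) .nil))))) (.g (nat_lit 1) (.e (nat_lit 289493) (nat_lit 0) .nil) .nil)))) (.nd (nat_lit 9) 
(.lf (nat_lit 548196) (.g (nat_lit 2138) (.e (nat_lit 311315) (nat_lit 3) (.e (nat_lit 204868) (nat_lit 29) (.e (nat_lit 360466) (nat_lit 3) (.e (nat_lit 516142) (nat_lit 8) (.e (nat_lit 425728) (nat_lit 19) .nil))))) (.g (nat_lit 1) (.e (nat_lit 288094) (nat_lit 0) .nil) .nil))) 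
(.lf (nat_lit 548708) (.g (nat_lit 3825) (.e (nat_lit 286765) (nat_lit 15) (.e (nat_lit 3304) (nat_lit 202) (.e (nat_lit 573485) (nat_lit 13) (.e (nat_lit 65619) (nat_lit 10) (.e (nat_lit 344117) (nat_lit 21) (.e (nat_lit 516106) (nat_lit 0) (.e (nat_lit 6986) (nat_lit 377) (.e (nat_lit 2779) (nat_lit 178) .nil)))))))) (.g (nat_lit 1) (.e (nat_lit 289883) (nat_lit 0) .nil) .nil))))) 
(.nd (nat_lit 8) (.nd (nat_lit 9) 
(.lf (nat_lit 548068) (.g (nat_lit 3567) (.e (nat_lit 311312) (nat_lit 2) (.e (nat_lit 196666) (nat_lit 13) (.e (nat_lit 65610) (nat_lit 10) (.e (nat_lit 344117) (nat_lit 21) (.e (nat_lit 516106) (nat_lit 0) (.e (nat_lit 6966) (nat_lit 377) (.e (nat_lit 2815) (nat_lit 181) .nil))))))) (.g (nat_lit 1) (.e (nat_lit 287764) (nat_lit 0) .nil) .nil))) 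
(.lf (nat_lit 548580) (.g (nat_lit 2155) (.e (nat_lit 286753) (nat_lit 10) (.e (nat_lit 344169) (nat_lit 40) (.e (nat_lit 671766) (nat_lit 8) (.e (nat_lit 131116) (nat_lit 9) (.e (nat_lit 335986) (nat_lit 1) (.e (nat_lit 57920) (nat_lit 279) (.e (nat_lit 8305) (nat_lit 58) .nil))))))) (.g (nat_lit 1) (.e (nat_lit 289670) (nat_lit 0) .nil) .nil)))) (.nd (nat_lit 9) 
(.lf (nat_lit 548324) (.g (nat_lit 1632) (.e (nat_lit 319232) (nat_lit 32) (.e (nat_lit 376835) (nat_lit 0) (.e (nat_lit 3632) (nat_lit 227) (.e (nat_lit 778323) (nat_lit 5) (.e (nat_lit 73789) (nat_lit 45) .nil))))) (.g (nat_lit 0) (.e (nat_lit 289161) (nat_lit 0) .nil) .nil))) 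
(.lf (nat_lit 548836) (.g (nat_lit 2669) (.e (nat_lit 294928) (nat_lit 2) (.e (nat_lit 90170) (nat_lit 13) (.e (nat_lit 172106) (nat_lit 10) (.e (nat_lit 434231) (nat_lit 23) (.e (nat_lit 532480) (nat_lit 0) .nil))))) (.g (nat_lit 0) (.e (nat_lit 290481) (nat_lit 0) .nil) .nil)))))))) (.nd (nat_lit 5) (.nd (nat_lit 6) (.nd (nat_lit 7) (.nd (nat_lit 8) (.nd (nat_lit 9) 
(.lf (nat_lit 547860) (.g (nat_lit 2450) (.e (nat_lit 303144) (nat_lit 13) (.e (nat_lit 483413) (nat_lit 27) (.e (nat_lit 401446) (nat_lit 10) (.e (nat_lit 434203) (nat_lit 18) (.e (nat_lit 6058) (nat_lit 327) .nil))))) (.g (nat_lit 0) (.e (nat_lit 287042) (nat_lit 0) .nil) .nil))) 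
(.lf (nat_lit 548372) (.g (nat_lit 1872) (.e (nat_lit 286732) (nat_lit 2) (.e (nat_lit 90170) (nat_lit 13) (.e (nat_lit 172106) (nat_lit 10) (.e (nat_lit 434231) (nat_lit 23) (.e (nat_lit 532486) (nat_lit 0) .nil))))) (.g (nat_lit 0) (.e (nat_lit 289364) (nat_lit 0) .nil) .nil)))) (.nd (nat_lit 9) 
(.lf (nat_lit 548116) (.g (nat_lit 2783) (.e (nat_lit 311312) (nat_lit 2) (.e (nat_lit 196674) (nat_lit 15) (.e (nat_lit 81956) (nat_lit 23) (.e (nat_lit 98320) (nat_lit 17) .nil)))) (.g (nat_lit 0) (.e (nat_lit 287844) (nat_lit 0) .nil) .nil))) 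
(.lf (nat_lit 548628) (.g (nat_lit 2227) (.e (nat_lit 286759) (nat_lit 12) (.e (nat_lit 385074) (nat_lit 31) (.e (nat_lit 573480) (nat_lit 13) (.e (nat_lit 65598) (nat_lit 9) .nil)))) (.g (nat_lit 0) (.e (nat_lit 289777) (nat_lit 0) .nil) .nil))))) (.nd (nat_lit 8) (.nd (nat_lit 9) 
(.lf (nat_lit 547988) (.g (nat_lit 1812) (.e (nat_lit 311040) (nat_lit 35) (.e (nat_lit 401454) (nat_lit 12) (.e (nat_lit 475201) (nat_lit 40) (.e (nat_lit 712448) (nat_lit 4) .nil)))) (.g (nat_lit 0) (.e (nat_lit 287581) (nat_lit 0) .nil) .nil))) 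
(.lf (nat_lit 548500) (.g (nat_lit 2029) (.e (nat_lit 286735) (nat_lit 3) (.e (nat_lit 98358) (nat_lit 26) (.e (nat_lit 426270) (nat_lit 9) (.e (nat_lit 426139) (nat_lit 3) (.e (nat_lit 204846) (nat_lit 24) .nil))))) (.g (nat_lit 0) (.e (nat_lit 289550) (nat_lit 0) .nil) .nil)))) (.nd (nat_lit 9) 
(.lf (nat_lit 548244) (.g (nat_lit 2180) (.e (nat_lit 311342) (nat_lit 13) (.e (nat_lit 483413) (nat_lit 27) (.e (nat_lit 401448) (nat_lit 10) (.e (nat_lit 434288) (nat_lit 43) .nil)))) (.g (nat_lit 0) (.e (nat_lit 288658) (nat_lit 0) .nil) .nil))) 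
(.lf (nat_lit 548756) (.g (nat_lit 1152) (.e (nat_lit 294656) (nat_lit 18) (.e (nat_lit 204863) (nat_lit 27) (.e (nat_lit 344130) (nat_lit 26) (.e (nat_lit 557104) (nat_lit 14) .nil)))) (.g (nat_lit 0) (.e (nat_lit 290056) (nat_lit 0) .nil) .nil)))))) (.nd (nat_lit 7) (.nd (nat_lit 8) (.nd (nat_lit 9) 
(.lf (nat_lit 547924) (.g (nat_lit 1691) (.e (nat_lit 303151) (nat_lit 27) (.e (nat_lit 336231) (nat_lit 14) (.e (nat_lit 401458) (nat_lit 13) (.e (nat_lit 483350) (nat_lit 17) (.e (nat_lit 6113) (nat_lit 332) .nil))))) (.g (nat_lit 0) (.e (nat_lit 287491) (nat_lit 0) .nil) .nil))) 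
(.lf (nat_lit 548436) (.g (nat_lit 4292) (.e (nat_lit 286733) (nat_lit 2) (.e (nat_lit 90178) (nat_lit 15) (.e (nat_lit 188450) (nat_lit 23) (.e (nat_lit 204846) (nat_lit 24) (.e (nat_lit 319530) (nat_lit 16) .nil))))) (.g (nat_lit 1) (.e (nat_lit 289473) (nat_lit 0) .nil) .nil)))) (.nd (nat_lit 9) 
(.lf (nat_lit 548180) (.g (nat_lit 2270) (.e (nat_lit 311315) (nat_lit 3) (.e (nat_lit 204846) (nat_lit 24) (.e (nat_lit 319534) (nat_lit 16) (.e (nat_lit 286735) (nat_lit 3) (.e (nat_lit 98352) (nat_lit 25) (.e (nat_lit 417813) (nat_lit 9) .nil)))))) (.g (nat_lit 1) (.e (nat_lit 288046) (nat_lit 0) .nil) .nil))) 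
(.lf (nat_lit 548692) (.g (nat_lit 2880) (.e (nat_lit 286765) (nat_lit 15) (.e (nat_lit 3304) (nat_lit 202) (.e (nat_lit 573482) (nat_lit 13) (.e (nat_lit 65604) (nat_lit 9) (.e (nat_lit 336013) (nat_lit 2) (.e (nat_lit 90165) (nat_lit 12) (.e (nat_lit 164208) (nat_lit 176) (.e (nat_lit 2781) (nat_lit 178) .nil)))))))) (.g (nat_lit 1) (.e (nat_lit 289867) (nat_lit 0) .nil) .nil))))) 
(.nd (nat_lit 8) (.nd (nat_lit 9) 
(.lf (nat_lit 548052) (.g (nat_lit 3585) (.e (nat_lit 311312) (nat_lit 2) (.e (nat_lit 196666) (nat_lit 13) (.e (nat_lit 65610) (nat_lit 10) (.e (nat_lit 344117) (nat_lit 21) (.e (nat_lit 516097) (nat_lit 0) (.e (nat_lit 6948) (nat_lit 377) (.e (nat_lit 2818) (nat_lit 181) .nil))))))) (.g (nat_lit 1) (.e (nat_lit 287747) (nat_lit 0) .nil) .nil))) 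
(.lf (nat_lit 548564) (.g (nat_lit 802) (.e (nat_lit 286749) (nat_lit 9) (.e (nat_lit 336013) (nat_lit 2) (.e (nat_lit 98048) (nat_lit 0) .nil))) (.g (nat_lit 0) (.e (nat_lit 289638) (nat_lit 0) .nil) .nil)))) (.nd (nat_lit 9) 
(.lf (nat_lit 548308) (.g (nat_lit 876) (.e (nat_lit 311357) (nat_lit 28) (.e (nat_lit 344068) (nat_lit 0) (.e (nat_lit 3090) (nat_lit 191) (.e (nat_lit 483354) (nat_lit 17) .nil)))) (.g (nat_lit 0) (.e (nat_lit 289135) (nat_lit 0) .nil) .nil))) 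
(.lf (nat_lit 548820) (.g (nat_lit 2974) (.e (nat_lit 294927) (nat_lit 2) (.e (nat_lit 90170) (nat_lit 13) (.e (nat_lit 172106) (nat_lit 10) (.e (nat_lit 434231) (nat_lit 23) (.e (nat_lit 532480) (nat_lit 0) .nil))))) (.g (nat_lit 0) (.e (nat_lit 290463) (nat_lit 0) .nil) .nil))))))) (.nd (nat_lit 6) (.nd (nat_lit 7) (.nd (nat_lit 8) (.nd (nat_lit 9) 
(.lf (nat_lit 547892) (.g (nat_lit 901) (.e (nat_lit 303147) (nat_lit 15) (.e (nat_lit 1849) (nat_lit 124) (.e (nat_lit 557108) (nat_lit 15) (.e (nat_lit 188450) (nat_lit 23) .nil)))) (.g (nat_lit 0) (.e (nat_lit 287437) (nat_lit 0) .nil) .nil))) 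
(.lf (nat_lit 548404) (.g (nat_lit 4549) (.e (nat_lit 286733) (nat_lit 2) (.e (nat_lit 90170) (nat_lit 13) (.e (nat_lit 172095) (nat_lit 9) (.e (nat_lit 426140) (nat_lit 3) (.e (nat_lit 204846) (nat_lit 24) (.e (nat_lit 319533) (nat_lit 16) .nil)))))) (.g (nat_lit 1) (.e (nat_lit 289436) (nat_lit 0) .nil) .nil)))) (.nd (nat_lit 9) 
(.lf (nat_lit 548148) (.g (nat_lit 2125) (.e (nat_lit 311314) (nat_lit 3) (.e (nat_lit 204885) (nat_lit 33) (.e (nat_lit 401434) (nat_lit 9) (.e (nat_lit 426140) (nat_lit 3) (.e (nat_lit 204821) (nat_lit 17) (.e (nat_lit 6136) (nat_lit 332) (.e (nat_lit 1383) (nat_lit 105) .nil))))))) (.g (nat_lit 1) (.e (nat_lit 287993) (nat_lit 0) .nil) .nil))) 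
(.lf (nat_lit 548660) (.g (nat_lit 1987) (.e (nat_lit 286761) (nat_lit 13) (.e (nat_lit 393293) (nat_lit 26) (.e (nat_lit 475196) (nat_lit 40) (.e (nat_lit 704514) (nat_lit 0) (.e (nat_lit 2830) (nat_lit 182) (.e (nat_lit 417536) (nat_lit 6) .nil)))))) (.g (nat_lit 1) (.e (nat_lit 289810) (nat_lit 0) .nil) .nil))))) (.nd (nat_lit 8) (.nd (nat_lit 9) 
(.lf (nat_lit 548020) (.g (nat_lit 3364) (.e (nat_lit 311311) (nat_lit 2) (.e (nat_lit 196666) (nat_lit 13) (.e (nat_lit 65610) (nat_lit 10) (.e (nat_lit 344117) (nat_lit 21) (.e (nat_lit 516099) (nat_lit 0) .nil))))) (.g (nat_lit 0) (.e (nat_lit 287667) (nat_lit 0) .nil) .nil))) 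
(.lf (nat_lit 548532) (.g (nat_lit 2663) (.e (nat_lit 286735) (nat_lit 3) (.e (nat_lit 98371) (nat_lit 28) (.e (nat_lit 442427) (nat_lit 23) (.e (nat_lit 204846) (nat_lit 24) (.e (nat_lit 319528) (nat_lit 16) .nil))))) (.g (nat_lit 1) (.e (nat_lit 289584) (nat_lit 0) .nil) .nil)))) (.nd (nat_lit 9) 
(.lf (nat_lit 548276) (.g (nat_lit 1578) (.e (nat_lit 311345) (nat_lit 14) (.e (nat_lit 491560) (nat_lit 10) (.e (nat_lit 344156) (nat_lit 36) (.e (nat_lit 638999) (nat_lit 8) .nil)))) (.g (nat_lit 0) (.e (nat_lit 289074) (nat_lit 0) .nil) .nil))) 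
(.lf (nat_lit 548788) (.g (nat_lit 2598) (.e (nat_lit 294656) (nat_lit 27) (.e (nat_lit 426340) (nat_lit 14) (.e (nat_lit 491571) (nat_lit 13) (.e (nat_lit 393260) (nat_lit 21) (.e (nat_lit 417536) (nat_lit 16) .nil))))) (.g (nat_lit 0) (.e (nat_lit 290200) (nat_lit 0) .nil) .nil)))))) (.nd (nat_lit 7) (.nd (nat_lit 8) (.nd (nat_lit 9) 
(.lf (nat_lit 547956) (.g (nat_lit 1756) (.e (nat_lit 311040) (nat_lit 27) (.e (nat_lit 336235) (nat_lit 14) (.e (nat_lit 401459) (nat_lit 13) (.e (nat_lit 483354) (nat_lit 17) .nil)))) (.g (nat_lit 0) (.e (nat_lit 287533) (nat_lit 0) .nil) .nil))) 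
(.lf (nat_lit 548468) (.g (nat_lit 3566) (.e (nat_lit 286735) (nat_lit 3) (.e (nat_lit 98323) (nat_lit 17) (.e (nat_lit 6989) (nat_lit 377) (.e (nat_lit 977) (nat_lit 81) (.e (nat_lit 5664) (nat_lit 312) (.e (nat_lit 2679) (nat_lit 168) (.e (nat_lit 204846) (nat_lit 24) (.e (nat_lit 327424) (nat_lit 16) .nil)))))))) (.g (nat_lit 1) (.e (nat_lit 289513) (nat_lit 0) .nil) .nil)))) (.nd (nat_lit 9) 
(.lf (nat_lit 548212) (.g (nat_lit 4232) (.e (nat_lit 311322) (nat_lit 9) (.e (nat_lit 426566) (nat_lit 34) (.e (nat_lit 393253) (nat_lit 18) (.e (nat_lit 164348) (nat_lit 240) .nil)))) (.g (nat_lit 0) (.e (nat_lit 288263) (nat_lit 0) .nil) .nil))) 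
(.lf (nat_lit 548724) (.g (nat_lit 4724) (.e (nat_lit 286765) (nat_lit 15) (.e (nat_lit 3307) (nat_lit 202) (.e (nat_lit 573493) (nat_lit 15) (.e (nat_lit 81956) (nat_lit 23) (.e (nat_lit 98323) (nat_lit 17) (.e (nat_lit 6989) (nat_lit 377) (.e (nat_lit 2779) (nat_lit 178) .nil))))))) (.g (nat_lit 1) (.e (nat_lit 289912) (nat_lit 0) .nil) .nil))))) (.nd (nat_lit 8) (.nd (nat_lit 9) 
(.lf (nat_lit 548084) (.g (nat_lit 1509) (.e (nat_lit 311312) (nat_lit 2) (.e (nat_lit 196672) (nat_lit 15) (.e (nat_lit 81951) (nat_lit 22) (.e (nat_lit 90165) (nat_lit 12) (.e (nat_lit 164210) (nat_lit 176) .nil))))) (.g (nat_lit 0) (.e (nat_lit 287801) (nat_lit 0) .nil) .nil))) 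
(.lf (nat_lit 548596) (.g (nat_lit 1044) (.e (nat_lit 286754) (nat_lit 10) (.e (nat_lit 344157) (nat_lit 36) (.e (nat_lit 638999) (nat_lit 8) (.e (nat_lit 172082) (nat_lit 7) (.e (nat_lit 409638) (nat_lit 15) (.e (nat_lit 278567) (nat_lit 16) .nil)))))) (.g (nat_lit 1) (.e (nat_lit 289703) (nat_lit 0) .nil) .nil)))) (.nd (nat_lit 9) 
(.lf (nat_lit 548340) (.g (nat_lit 1182) (.e (nat_lit 286721) (nat_lit 0) (.e (nat_lit 6113) (nat_lit 332) (.e (nat_lit 1376) (nat_lit 104) (.e (nat_lit 303111) (nat_lit 0) .nil)))) (.g (nat_lit 0) (.e (nat_lit 289179) (nat_lit 0) .nil) .nil))) 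
(.lf (nat_lit 548852) (.g (nat_lit 3314) (.e (nat_lit 294928) (nat_lit 2) (.e (nat_lit 90176) (nat_lit 15) (.e (nat_lit 188450) (nat_lit 23) (.e (nat_lit 204845) (nat_lit 24) (.e (nat_lit 319536) (nat_lit 17) .nil))))) (.g (nat_lit 1) (.e (nat_lit 290497) (nat_lit 0) .nil) .nil))))))))) (.nd (nat_lit 4) (.nd (nat_lit 5) (.nd (nat_lit 6) (.nd (nat_lit 7) (.nd (nat_lit 8) (.nd (nat_lit 9) 
(.lf (nat_lit 547852) (.g (nat_lit 2715) (.e (nat_lit 303143) (nat_lit 12) (.e (nat_lit 475220) (nat_lit 44) (.e (nat_lit 737318) (nat_lit 15) (.e (nat_lit 49189) (nat_lit 11) (.e (nat_lit 16424) (nat_lit 7) (.e (nat_lit 409645) (nat_lit 18) .nil)))))) (.g (nat_lit 1) (.e (nat_lit 286971) (nat_lit 0) .nil) .nil))) 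
(.lf (nat_lit 548364) (.g (nat_lit 527) (.e (nat_lit 286732) (nat_lit 2) (.e (nat_lit 90128) (nat_lit 9) (.e (nat_lit 3031) (nat_lit 188) .nil))) (.g (nat_lit 0) (.e (nat_lit 289355) (nat_lit 0) .nil) .nil)))) (.nd (nat_lit 9) 
(.lf (nat_lit 548108) (.g (nat_lit 1845) (.e (nat_lit 311312) (nat_lit 2) (.e (nat_lit 196672) (nat_lit 15) (.e (nat_lit 81956) (nat_lit 23) (.e (nat_lit 98349) (nat_lit 24) .nil)))) (.g (nat_lit 0) (.e (nat_lit 287828) (nat_lit 0) .nil) .nil))) 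
(.lf (nat_lit 548620) (.g (nat_lit 1338) (.e (nat_lit 286756) (nat_lit 10) (.e (nat_lit 344157) (nat_lit 36) (.e (nat_lit 638999) (nat_lit 8) (.e (nat_lit 172082) (nat_lit 7) (.e (nat_lit 409638) (nat_lit 15) (.e (nat_lit 278567) (nat_lit 16) .nil)))))) (.g (nat_lit 1) (.e (nat_lit 289752) (nat_lit 0) .nil) .nil))))) (.nd (nat_lit 8) (.nd (nat_lit 9) 
(.lf (nat_lit 547980) (.g (nat_lit 742) (.e (nat_lit 311040) (nat_lit 35) (.e (nat_lit 401454) (nat_lit 12) (.e (nat_lit 475197) (nat_lit 40) .nil))) (.g (nat_lit 0) (.e (nat_lit 287573) (nat_lit 0) .nil) .nil))) 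
(.lf (nat_lit 548492) (.g (nat_lit 2529) (.e (nat_lit 286735) (nat_lit 3) (.e (nat_lit 98353) (nat_lit 25) (.e (nat_lit 417811) (nat_lit 6) (.e (nat_lit 286733) (nat_lit 2) (.e (nat_lit 90133) (nat_lit 9) (.e (nat_lit 2400) (nat_lit 157) (.e (nat_lit 7064) (nat_lit 377) (.e (nat_lit 1349) (nat_lit 102) .nil)))))))) (.g (nat_lit 1) (.e (nat_lit 289540) (nat_lit 0) .nil) .nil)))) (.nd (nat_lit 9) 
(.lf (nat_lit 548236) (.g (nat_lit 530) (.e (nat_lit 311341) (nat_lit 13) (.e (nat_lit 483413) (nat_lit 27) (.e (nat_lit 401448) (nat_lit 10) .nil))) (.g (nat_lit 0) (.e (nat_lit 288490) (nat_lit 0) .nil) .nil))) 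
(.lf (nat_lit 548748) (.g (nat_lit 3974) (.e (nat_lit 286765) (nat_lit 15) (.e (nat_lit 3308) (nat_lit 202) (.e (nat_lit 573493) (nat_lit 15) (.e (nat_lit 81956) (nat_lit 23) (.e (nat_lit 98325) (nat_lit 17) (.e (nat_lit 6986) (nat_lit 377) (.e (nat_lit 2782) (nat_lit 178) .nil))))))) (.g (nat_lit 1) (.e (nat_lit 289939) (nat_lit 0) .nil) .nil)))))) 
(.nd (nat_lit 7) (.nd (nat_lit 8) (.nd (nat_lit 9) 
(.lf (nat_lit 547916) (.g (nat_lit 902) (.e (nat_lit 311040) (nat_lit 18) (.e (nat_lit 98365) (nat_lit 26) (.e (nat_lit 426326) (nat_lit 13) (.e (nat_lit 491264) (nat_lit 7) .nil)))) (.g (nat_lit 0) (.e (nat_lit 287472) (nat_lit 0) .nil) .nil))) 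
(.lf (nat_lit 548428) (.g (nat_lit 1807) (.e (nat_lit 286733) (nat_lit 2) (.e (nat_lit 90177) (nat_lit 15) (.e (nat_lit 188452) (nat_lit 23) (.e (nat_lit 204821) (nat_lit 17) (.e (nat_lit 6092) (nat_lit 332) .nil))))) (.g (nat_lit 0) (.e (nat_lit 289464) (nat_lit 0) .nil) .nil)))) (.nd (nat_lit 9) 
(.lf (nat_lit 548172) (.g (nat_lit 1304) (.e (nat_lit 311315) (nat_lit 3) (.e (nat_lit 204846) (nat_lit 24) (.e (nat_lit 319534) (nat_lit 16) (.e (nat_lit 286728) (nat_lit 0) .nil)))) (.g (nat_lit 0) (.e (nat_lit 288038) (nat_lit 0) .nil) .nil))) 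
(.lf (nat_lit 548684) (.g (nat_lit 3243) (.e (nat_lit 286765) (nat_lit 15) (.e (nat_lit 3298) (nat_lit 202) (.e (nat_lit 573493) (nat_lit 15) (.e (nat_lit 81953) (nat_lit 22) (.e (nat_lit 90165) (nat_lit 12) (.e (nat_lit 164208) (nat_lit 176) (.e (nat_lit 2782) (nat_lit 178) .nil))))))) (.g (nat_lit 1) (.e (nat_lit 289859) (nat_lit 0) .nil) .nil))))) (.nd (nat_lit 8) (.nd (nat_lit 9) 
(.lf (nat_lit 548044) (.g (nat_lit 2588) (.e (nat_lit 311311) (nat_lit 2) (.e (nat_lit 196672) (nat_lit 15) (.e (nat_lit 81956) (nat_lit 23) (.e (nat_lit 98352) (nat_lit 25) (.e (nat_lit 417830) (nat_lit 19) .nil))))) (.g (nat_lit 0) (.e (nat_lit 287710) (nat_lit 0) .nil) .nil))) 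
(.lf (nat_lit 548556) (.g (nat_lit 1438) (.e (nat_lit 286743) (nat_lit 9) (.e (nat_lit 336337) (nat_lit 20) (.e (nat_lit 221218) (nat_lit 24) (.e (nat_lit 213030) (nat_lit 11) (.e (nat_lit 24617) (nat_lit 7) (.e (nat_lit 327424) (nat_lit 16) .nil)))))) (.g (nat_lit 1) (.e (nat_lit 289623) (nat_lit 0) .nil) .nil)))) (.nd (nat_lit 9) 
(.lf (nat_lit 548300) (.g (nat_lit 993) (.e (nat_lit 311357) (nat_lit 28) (.e (nat_lit 344068) (nat_lit 0) (.e (nat_lit 2857) (nat_lit 184) (.e (nat_lit 426537) (nat_lit 28) .nil)))) (.g (nat_lit 0) (.e (nat_lit 289127) (nat_lit 0) .nil) .nil))) 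
(.lf (nat_lit 548812) (.g (nat_lit 4345) (.e (nat_lit 294917) (nat_lit 0) (.e (nat_lit 1788) (nat_lit 119) (.e (nat_lit 516151) (nat_lit 9) (.e (nat_lit 426211) (nat_lit 9) (.e (nat_lit 426125) (nat_lit 2) .nil))))) (.g (nat_lit 0) (.e (nat_lit 290441) (nat_lit 0) .nil) .nil))))))) (.nd (nat_lit 6) (.nd (nat_lit 7) (.nd (nat_lit 8) (.nd (nat_lit 9) 
(.lf (nat_lit 547884) (.g (nat_lit 1438) (.e (nat_lit 303146) (nat_lit 14) (.e (nat_lit 491537) (nat_lit 2) (.e (nat_lit 90177) (nat_lit 15) (.e (nat_lit 188434) (nat_lit 20) .nil)))) (.g (nat_lit 0) (.e (nat_lit 287400) (nat_lit 0) .nil) .nil))) 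
(.lf (nat_lit 548396) (.g (nat_lit 535) (.e (nat_lit 286733) (nat_lit 2) (.e (nat_lit 90134) (nat_lit 9) (.e (nat_lit 3045) (nat_lit 189) .nil))) (.g (nat_lit 0) (.e (nat_lit 289425) (nat_lit 0) .nil) .nil)))) (.nd (nat_lit 9) 
(.lf (nat_lit 548140) (.g (nat_lit 1493) (.e (nat_lit 311314) (nat_lit 3) (.e (nat_lit 204868) (nat_lit 29) (.e (nat_lit 360466) (nat_lit 3) (.e (nat_lit 516140) (nat_lit 8) (.e (nat_lit 417830) (nat_lit 19) .nil))))) (.g (nat_lit 0) (.e (nat_lit 287920) (nat_lit 0) .nil) .nil))) 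
(.lf (nat_lit 548652) (.g (nat_lit 1227) (.e (nat_lit 286759) (nat_lit 12) (.e (nat_lit 385109) (nat_lit 51) (.e (nat_lit 794680) (nat_lit 24) .nil))) (.g (nat_lit 0) (.e (nat_lit 289802) (nat_lit 0) .nil) .nil))))) (.nd (nat_lit 8) (.nd (nat_lit 9) 
(.lf (nat_lit 548012) (.g (nat_lit 2371) (.e (nat_lit 311310) (nat_lit 2) (.e (nat_lit 196672) (nat_lit 15) (.e (nat_lit 81956) (nat_lit 23) (.e (nat_lit 98350) (nat_lit 24) .nil)))) (.g (nat_lit 0) (.e (nat_lit 287647) (nat_lit 0) .nil) .nil))) 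
(.lf (nat_lit 548524) (.g (nat_lit 2007) (.e (nat_lit 286735) (nat_lit 3) (.e (nat_lit 98369) (nat_lit 28) (.e (nat_lit 442427) (nat_lit 23) (.e (nat_lit 204845) (nat_lit 24) (.e (nat_lit 327424) (nat_lit 16) .nil))))) (.g (nat_lit 1) (.e (nat_lit 289576) (nat_lit 0) .nil) .nil)))) (.nd (nat_lit 9) 
(.lf (nat_lit 548268) (.g (nat_lit 2117) (.e (nat_lit 311343) (nat_lit 13) (.e (nat_lit 483372) (nat_lit 21) (.e (nat_lit 319534) (nat_lit 16) (.e (nat_lit 286728) (nat_lit 0) (.e (nat_lit 988) (nat_lit 81) .nil))))) (.g (nat_lit 0) (.e (nat_lit 288793) (nat_lit 0) .nil) .nil))) 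
(.lf (nat_lit 548780) (.g (nat_lit 1846) (.e (nat_lit 286768) (nat_lit 27) (.e (nat_lit 426340) (nat_lit 14) (.e (nat_lit 491571) (nat_lit 13) (.e (nat_lit 393238) (nat_lit 17) (.e (nat_lit 6989) (nat_lit 377) .nil))))) (.g (nat_lit 0) (.e (nat_lit 290189) (nat_lit 0) .nil) .nil)))))) (.nd (nat_lit 7) (.nd (nat_lit 8) (.nd (nat_lit 9) 
(.lf (nat_lit 547948) (.g (nat_lit 1622) (.e (nat_lit 311040) (nat_lit 27) (.e (nat_lit 336228) (nat_lit 14) (.e (nat_lit 401437) (nat_lit 9) (.e (nat_lit 426533) (nat_lit 28) (.e (nat_lit 344075) (nat_lit 13) .nil))))) (.g (nat_lit 0) (.e (nat_lit 287521) (nat_lit 0) .nil) .nil))) 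
(.lf (nat_lit 548460) (.g (nat_lit 2951) (.e (nat_lit 286735) (nat_lit 3) (.e (nat_lit 98323) (nat_lit 17) (.e (nat_lit 6989) (nat_lit 377) (.e (nat_lit 2810) (nat_lit 180) (.e (nat_lit 303119) (nat_lit 3) (.e (nat_lit 204846) (nat_lit 24) (.e (nat_lit 327424) (nat_lit 6) .nil))))))) (.g (nat_lit 1) (.e (nat_lit 289505) (nat_lit 0) .nil) .nil)))) (.nd (nat_lit 9) 
(.lf (nat_lit 548204) (.g (nat_lit 3247) (.e (nat_lit 311315) (nat_lit 3) (.e (nat_lit 204885) (nat_lit 33) (.e (nat_lit 401448) (nat_lit 10) (.e (nat_lit 434232) (nat_lit 23) (.e (nat_lit 532526) (nat_lit 8) (.e (nat_lit 327718) (nat_lit 19) .nil)))))) (.g (nat_lit 1) (.e (nat_lit 288221) (nat_lit 0) .nil) .nil))) 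
(.lf (nat_lit 548716) (.g (nat_lit 3831) (.e (nat_lit 286765) (nat_lit 15) (.e (nat_lit 3307) (nat_lit 202) (.e (nat_lit 573491) (nat_lit 15) (.e (nat_lit 81954) (nat_lit 23) (.e (nat_lit 98323) (nat_lit 17) (.e (nat_lit 6989) (nat_lit 377) (.e (nat_lit 2779) (nat_lit 178) .nil))))))) (.g (nat_lit 1) (.e (nat_lit 289904) (nat_lit 0) .nil) .nil))))) (.nd (nat_lit 8) (.nd (nat_lit 9) 
(.lf (nat_lit 548076) (.g (nat_lit 2304) (.e (nat_lit 311312) (nat_lit 2) (.e (nat_lit 196666) (nat_lit 13) (.e (nat_lit 65610) (nat_lit 10) (.e (nat_lit 344117) (nat_lit 21) (.e (nat_lit 516106) (nat_lit 0) (.e (nat_lit 7936) (nat_lit 377) (.e (nat_lit 2813) (nat_lit 181) .nil))))))) (.g (nat_lit 1) (.e (nat_lit 287772) (nat_lit 0) .nil) .nil))) 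
(.lf (nat_lit 548588) (.g (nat_lit 5688) (.e (nat_lit 286753) (nat_lit 10) (.e (nat_lit 344160) (nat_lit 37) (.e (nat_lit 647201) (nat_lit 12) (.e (nat_lit 57574) (nat_lit 55) (.e (nat_lit 778465) (nat_lit 11) (.e (nat_lit 24617) (nat_lit 7) (.e (nat_lit 319533) (nat_lit 16) .nil))))))) (.g (nat_lit 1) (.e (nat_lit 289678) (nat_lit 0) .nil) .nil)))) (.nd (nat_lit 9) 
(.lf (nat_lit 548332) (.g (nat_lit 4327) (.e (nat_lit 286720) (nat_lit 0) (.e (nat_lit 1788) (nat_lit 119) (.e (nat_lit 516151) (nat_lit 9) (.e (nat_lit 426211) (nat_lit 9) (.e (nat_lit 433920) (nat_lit 3) .nil))))) (.g (nat_lit 0) (.e (nat_lit 289171) (nat_lit 0) .nil) .nil))) 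
(.lf (nat_lit 548844) (.g (nat_lit 2071) (.e (nat_lit 294928) (nat_lit 2) (.e (nat_lit 90170) (nat_lit 13) (.e (nat_lit 172115) (nat_lit 10) (.e (nat_lit 434231) (nat_lit 23) (.e (nat_lit 532490) (nat_lit 0) .nil))))) (.g (nat_lit 0) (.e (nat_lit 290489) (nat_lit 0) .nil) .nil)))))))) (.nd (nat_lit 5) (.nd (nat_lit 6) (.nd (nat_lit 7) (.nd (nat_lit 8) (.nd (nat_lit 9) 
(.lf (nat_lit 547868) (.g (nat_lit 3141) (.e (nat_lit 303144) (nat_lit 13) (.e (nat_lit 483413) (nat_lit 27) (.e (nat_lit 401448) (nat_lit 10) (.e (nat_lit 434208) (nat_lit 18) (.e (nat_lit 6058) (nat_lit 327) .nil))))) (.g (nat_lit 0) (.e (nat_lit 287054) (nat_lit 0) .nil) .nil))) 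
(.lf (nat_lit 548380) (.g (nat_lit 3160) (.e (nat_lit 286732) (nat_lit 2) (.e (nat_lit 90170) (nat_lit 13) (.e (nat_lit 172124) (nat_lit 14) (.e (nat_lit 491537) (nat_lit 2) (.e (nat_lit 90133) (nat_lit 9) .nil))))) (.g (nat_lit 0) (.e (nat_lit 289372) (nat_lit 0) .nil) .nil)))) (.nd (nat_lit 9) 
(.lf (nat_lit 548124) (.g (nat_lit 1923) (.e (nat_lit 311313) (nat_lit 3) (.e (nat_lit 204861) (nat_lit 26) (.e (nat_lit 336186) (nat_lit 11) (.e (nat_lit 368676) (nat_lit 21) (.e (nat_lit 516142) (nat_lit 8) .nil))))) (.g (nat_lit 0) (.e (nat_lit 287860) (nat_lit 0) .nil) .nil))) 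
(.lf (nat_lit 548636) (.g (nat_lit 3191) (.e (nat_lit 286759) (nat_lit 12) (.e (nat_lit 385074) (nat_lit 31) (.e (nat_lit 573493) (nat_lit 15) (.e (nat_lit 81960) (nat_lit 25) (.e (nat_lit 139299) (nat_lit 18) .nil))))) (.g (nat_lit 0) (.e (nat_lit 289785) (nat_lit 0) .nil) .nil))))) (.nd (nat_lit 8) (.nd (nat_lit 9) 
(.lf (nat_lit 547996) (.g (nat_lit 1521) (.e (nat_lit 311040) (nat_lit 35) (.e (nat_lit 401454) (nat_lit 12) (.e (nat_lit 475210) (nat_lit 41) (.e (nat_lit 712739) (nat_lit 27) .nil)))) (.g (nat_lit 0) (.e (nat_lit 287590) (nat_lit 0) .nil) .nil))) 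
(.lf (nat_lit 548508) (.g (nat_lit 2137) (.e (nat_lit 286735) (nat_lit 3) (.e (nat_lit 98364) (nat_lit 26) (.e (nat_lit 426200) (nat_lit 9) (.e (nat_lit 426131) (nat_lit 3) (.e (nat_lit 204845) (nat_lit 24) .nil))))) (.g (nat_lit 0) (.e (nat_lit 289559) (nat_lit 0) .nil) .nil)))) (.nd (nat_lit 9) 
(.lf (nat_lit 548252) (.g (nat_lit 3723) (.e (nat_lit 311343) (nat_lit 13) (.e (nat_lit 483341) (nat_lit 9) (.e (nat_lit 426107) (nat_lit 1) (.e (nat_lit 164345) (nat_lit 240) .nil)))) (.g (nat_lit 0) (.e (nat_lit 288674) (nat_lit 0) .nil) .nil))) 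
(.lf (nat_lit 548764) (.g (nat_lit 2735) (.e (nat_lit 286768) (nat_lit 27) (.e (nat_lit 426338) (nat_lit 14) (.e (nat_lit 491570) (nat_lit 13) (.e (nat_lit 393238) (nat_lit 17) (.e (nat_lit 6989) (nat_lit 377) (.e (nat_lit 2779) (nat_lit 178) .nil)))))) (.g (nat_lit 1) (.e (nat_lit 290172) (nat_lit 0) .nil) .nil)))))) (.nd (nat_lit 7) (.nd (nat_lit 8) (.nd (nat_lit 9) 
(.lf (nat_lit 547932) (.g (nat_lit 1727) (.e (nat_lit 303152) (nat_lit 27) (.e (nat_lit 336226) (nat_lit 14) (.e (nat_lit 401459) (nat_lit 13) (.e (nat_lit 483371) (nat_lit 21) .nil)))) (.g (nat_lit 0) (.e (nat_lit 287500) (nat_lit 0) .nil) .nil))) 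
(.lf (nat_lit 548444) (.g (nat_lit 3452) (.e (nat_lit 286734) (nat_lit 3) (.e (nat_lit 98350) (nat_lit 24) (.e (nat_lit 409645) (nat_lit 18) (.e (nat_lit 303119) (nat_lit 3) (.e (nat_lit 204846) (nat_lit 24) (.e (nat_lit 327424) (nat_lit 6) .nil)))))) (.g (nat_lit 1) (.e (nat_lit 289483) (nat_lit 0) .nil) .nil)))) (.nd (nat_lit 9) 
(.lf (nat_lit 548188) (.g (nat_lit 712) (.e (nat_lit 311315) (nat_lit 3) (.e (nat_lit 204866) (nat_lit 28) (.e (nat_lit 352311) (nat_lit 22) .nil))) (.g (nat_lit 0) (.e (nat_lit 288066) (nat_lit 0) .nil) .nil))) 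
(.lf (nat_lit 548700) (.g (nat_lit 2267) (.e (nat_lit 286765) (nat_lit 15) (.e (nat_lit 3304) (nat_lit 202) (.e (nat_lit 573485) (nat_lit 13) (.e (nat_lit 65604) (nat_lit 9) (.e (nat_lit 336013) (nat_lit 2) (.e (nat_lit 90165) (nat_lit 12) (.e (nat_lit 164208) (nat_lit 176) (.e (nat_lit 2779) (nat_lit 178) .nil)))))))) (.g (nat_lit 1) (.e (nat_lit 289875) (nat_lit 0) .nil) .nil))))) 
(.nd (nat_lit 8) (.nd (nat_lit 9) 
(.lf (nat_lit 548060) (.g (nat_lit 3332) (.e (nat_lit 311312) (nat_lit 2) (.e (nat_lit 196666) (nat_lit 13) (.e (nat_lit 65610) (nat_lit 10) (.e (nat_lit 344117) (nat_lit 21) (.e (nat_lit 516099) (nat_lit 0) (.e (nat_lit 7936) (nat_lit 377) (.e (nat_lit 2816) (nat_lit 181) .nil))))))) (.g (nat_lit 1) (.e (nat_lit 287756) (nat_lit 0) .nil) .nil))) 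
(.lf (nat_lit 548572) (.g (nat_lit 1072) (.e (nat_lit 286751) (nat_lit 10) (.e (nat_lit 344156) (nat_lit 36) (.e (nat_lit 638998) (nat_lit 8) (.e (nat_lit 172079) (nat_lit 7) .nil)))) (.g (nat_lit 0) (.e (nat_lit 289652) (nat_lit 0) .nil) .nil)))) (.nd (nat_lit 9) 
(.lf (nat_lit 548316) (.g (nat_lit 1047) (.e (nat_lit 311357) (nat_lit 28) (.e (nat_lit 344069) (nat_lit 0) (.e (nat_lit 3090) (nat_lit 191) (.e (nat_lit 483354) (nat_lit 17) .nil)))) (.g (nat_lit 0) (.e (nat_lit 289145) (nat_lit 0) .nil) .nil))) 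
(.lf (nat_lit 548828) (.g (nat_lit 1244) (.e (nat_lit 294927) (nat_lit 2) (.e (nat_lit 90176) (nat_lit 15) (.e (nat_lit 188447) (nat_lit 22) (.e (nat_lit 196661) (nat_lit 12) .nil)))) (.g (nat_lit 0) (.e (nat_lit 290471) (nat_lit 0) .nil) .nil))))))) (.nd (nat_lit 6) (.nd (nat_lit 7) (.nd (nat_lit 8) (.nd (nat_lit 9) 
(.lf (nat_lit 547900) (.g (nat_lit 4325) (.e (nat_lit 303147) (nat_lit 15) (.e (nat_lit 1858) (nat_lit 124) (.e (nat_lit 557109) (nat_lit 15) (.e (nat_lit 188450) (nat_lit 23) (.e (nat_lit 204821) (nat_lit 17) .nil))))) (.g (nat_lit 0) (.e (nat_lit 287449) (nat_lit 0) .nil) .nil))) 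
(.lf (nat_lit 548412) (.g (nat_lit 4059) (.e (nat_lit 286733) (nat_lit 2) (.e (nat_lit 90170) (nat_lit 13) (.e (nat_lit 172113) (nat_lit 10) (.e (nat_lit 434247) (nat_lit 28) (.e (nat_lit 573456) (nat_lit 9) (.e (nat_lit 365) (nat_lit 31) (.e (nat_lit 417811) (nat_lit 6) .nil))))))) (.g (nat_lit 1) (.e (nat_lit 289444) (nat_lit 0) .nil) .nil)))) (.nd (nat_lit 9) 
(.lf (nat_lit 548156) (.g (nat_lit 927) (.e (nat_lit 311315) (nat_lit 3) (.e (nat_lit 204846) (nat_lit 24) (.e (nat_lit 319500) (nat_lit 10) .nil))) (.g (nat_lit 0) (.e (nat_lit 288005) (nat_lit 0) .nil) .nil))) 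
(.lf (nat_lit 548668) (.g (nat_lit 2594) (.e (nat_lit 286765) (nat_lit 15) (.e (nat_lit 3295) (nat_lit 202) (.e (nat_lit 573482) (nat_lit 13) (.e (nat_lit 65619) (nat_lit 10) (.e (nat_lit 344117) (nat_lit 21) (.e (nat_lit 516106) (nat_lit 0) (.e (nat_lit 6986) (nat_lit 377) (.e (nat_lit 2781) (nat_lit 178) .nil)))))))) (.g (nat_lit 1) (.e (nat_lit 289828) (nat_lit 0) .nil) .nil))))) 
(.nd (nat_lit 8) (.nd (nat_lit 9) 
(.lf (nat_lit 548028) (.g (nat_lit 3652) (.e (nat_lit 311311) (nat_lit 2) (.e (nat_lit 196666) (nat_lit 13) (.e (nat_lit 65610) (nat_lit 10) (.e (nat_lit 344117) (nat_lit 21) (.e (nat_lit 516106) (nat_lit 0) (.e (nat_lit 7016) (nat_lit 377) (.e (nat_lit 2814) (nat_lit 181) .nil))))))) (.g (nat_lit 1) (.e (nat_lit 287675) (nat_lit 0) .nil) .nil))) 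
(.lf (nat_lit 548540) (.g (nat_lit 4626) (.e (nat_lit 286735) (nat_lit 3) (.e (nat_lit 98389) (nat_lit 33) (.e (nat_lit 491560) (nat_lit 10) (.e (nat_lit 344117) (nat_lit 21) (.e (nat_lit 516102) (nat_lit 0) (.e (nat_lit 6989) (nat_lit 377) (.e (nat_lit 2777) (nat_lit 178) .nil))))))) (.g (nat_lit 1) (.e (nat_lit 289594) (nat_lit 0) .nil) .nil)))) (.nd (nat_lit 9) 
(.lf (nat_lit 548284) (.g (nat_lit 793) (.e (nat_lit 319232) (nat_lit 25) (.e (nat_lit 319491) (nat_lit 0) (.e (nat_lit 5664) (nat_lit 312) (.e (nat_lit 2852) (nat_lit 184) .nil)))) (.g (nat_lit 0) (.e (nat_lit 289092) (nat_lit 0) .nil) .nil))) 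
(.lf (nat_lit 548796) (.g (nat_lit 913) (.e (nat_lit 286770) (nat_lit 28) (.e (nat_lit 434181) (nat_lit 0) (.e (nat_lit 1425) (nat_lit 108) (.e (nat_lit 336421) (nat_lit 28) (.e (nat_lit 434187) (nat_lit 13) (.e (nat_lit 2782) (nat_lit 178) .nil)))))) (.g (nat_lit 1) (.e (nat_lit 290216) (nat_lit 0) .nil) .nil)))))) (.nd (nat_lit 7) (.nd (nat_lit 8) (.nd (nat_lit 9) 
(.lf (nat_lit 547964) (.g (nat_lit 753) (.e (nat_lit 303154) (nat_lit 28) (.e (nat_lit 344069) (nat_lit 0) (.e (nat_lit 3089) (nat_lit 191) (.e (nat_lit 483342) (nat_lit 17) .nil)))) (.g (nat_lit 0) (.e (nat_lit 287544) (nat_lit 0) .nil) .nil))) 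
(.lf (nat_lit 548476) (.g (nat_lit 4028) (.e (nat_lit 286735) (nat_lit 3) (.e (nat_lit 98349) (nat_lit 24) (.e (nat_lit 409645) (nat_lit 18) (.e (nat_lit 303119) (nat_lit 3) (.e (nat_lit 204821) (nat_lit 17) (.e (nat_lit 6114) (nat_lit 332) (.e (nat_lit 2779) (nat_lit 178) .nil))))))) (.g (nat_lit 1) (.e (nat_lit 289524) (nat_lit 0) .nil) .nil)))) (.nd (nat_lit 9) 
(.lf (nat_lit 548220) (.g (nat_lit 5000) (.e (nat_lit 311324) (nat_lit 9) (.e (nat_lit 426566) (nat_lit 34) (.e (nat_lit 393253) (nat_lit 18) (.e (nat_lit 164348) (nat_lit 240) (.e (nat_lit 7936) (nat_lit 157) .nil))))) (.g (nat_lit 0) (.e (nat_lit 288314) (nat_lit 0) .nil) .nil))) 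
(.lf (nat_lit 548732) (.g (nat_lit 3061) (.e (nat_lit 286765) (nat_lit 15) (.e (nat_lit 3308) (nat_lit 202) (.e (nat_lit 573482) (nat_lit 13) (.e (nat_lit 65619) (nat_lit 10) (.e (nat_lit 344117) (nat_lit 21) (.e (nat_lit 516106) (nat_lit 0) (.e (nat_lit 6966) (nat_lit 377) (.e (nat_lit 2777) (nat_lit 178) .nil)))))))) (.g (nat_lit 1) (.e (nat_lit 289923) (nat_lit 0) .nil) .nil))))) 
(.nd (nat_lit 8) (.nd (nat_lit 9) 
(.lf (nat_lit 548092) (.g (nat_lit 1679) (.e (nat_lit 311312) (nat_lit 2) (.e (nat_lit 196672) (nat_lit 15) (.e (nat_lit 81954) (nat_lit 23) (.e (nat_lit 98323) (nat_lit 17) (.e (nat_lit 6967) (nat_lit 377) .nil))))) (.g (nat_lit 0) (.e (nat_lit 287812) (nat_lit 0) .nil) .nil))) 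
(.lf (nat_lit 548604) (.g (nat_lit 438) (.e (nat_lit 286755) (nat_lit 10) (.e (nat_lit 344156) (nat_lit 36) (.e (nat_lit 638999) (nat_lit 8) .nil))) (.g (nat_lit 0) (.e (nat_lit 289719) (nat_lit 0) .nil) .nil)))) (.nd (nat_lit 9) 
(.lf (nat_lit 548348) (.g (nat_lit 699) (.e (nat_lit 286725) (nat_lit 0) (.e (nat_lit 1799) (nat_lit 119) (.e (nat_lit 516141) (nat_lit 8) (.e (nat_lit 417813) (nat_lit 9) .nil)))) (.g (nat_lit 0) (.e (nat_lit 289202) (nat_lit 0) .nil) .nil))) 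
(.lf (nat_lit 548860) (.g (nat_lit 2156) (.e (nat_lit 294931) (nat_lit 3) (.e (nat_lit 98350) (nat_lit 24) (.e (nat_lit 409649) (nat_lit 18) (.e (nat_lit 303111) (nat_lit 0) (.e (nat_lit 3272) (nat_lit 199) (.e (nat_lit 548910) (nat_lit 17) (.e (nat_lit 164210) (nat_lit 176) (.e (nat_lit 2786) (nat_lit 179) .nil)))))))) (.g (nat_lit 1) (.e (nat_lit 290508) (nat_lit 0) .nil) .nil))))))))))) 
(.nd (nat_lit 2) (.nd (nat_lit 3) (.nd (nat_lit 4) (.nd (nat_lit 5) (.nd (nat_lit 6) 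
(.nd (nat_lit 7) (.nd (nat_lit 8) (.nd (nat_lit 9) 
(.lf (nat_lit 547842) (.g (nat_lit 301) (.e (nat_lit 303143) (nat_lit 12) (.e (nat_lit 475212) (nat_lit 42) (.e (nat_lit 720956) (nat_lit 25) .nil))) (.g (nat_lit 0) (.e (nat_lit 286956) (nat_lit 0) .nil) .nil))) 
(.lf (nat_lit 548354) (.g (nat_lit 2391) (.e (nat_lit 286728) (nat_lit 0) (.e (nat_lit 1788) (nat_lit 119) (.e (nat_lit 516151) (nat_lit 9) (.e (nat_lit 426275) (nat_lit 10) .nil)))) (.g (nat_lit 0) (.e (nat_lit 289209) (nat_lit 0) .nil) .nil)))) (.nd (nat_lit 9) 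
(.lf (nat_lit 548098) (.g (nat_lit 2369) (.e (nat_lit 311312) (nat_lit 2) (.e (nat_lit 196672) (nat_lit 15) (.e (nat_lit 81954) (nat_lit 23) (.e (nat_lit 98325) (nat_lit 17) (.e (nat_lit 6966) (nat_lit 377) (.e (nat_lit 2815) (nat_lit 181) .nil)))))) (.g (nat_lit 1) (.e (nat_lit 287818) (nat_lit 0) .nil) .nil))) 
(.lf (nat_lit 548610) (.g (nat_lit 905) (.e (nat_lit 286755) (nat_lit 10) (.e (nat_lit 344157) (nat_lit 36) (.e (nat_lit 638999) (nat_lit 8) (.e (nat_lit 172082) (nat_lit 7) (.e (nat_lit 409639) (nat_lit 15) (.e (nat_lit 278566) (nat_lit 16) .nil)))))) (.g (nat_lit 1) (.e (nat_lit 289731) (nat_lit 0) .nil) .nil))))) (.nd (nat_lit 8) (.nd (nat_lit 9) 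
(.lf (nat_lit 547970) (.g (nat_lit 2072) (.e (nat_lit 303154) (nat_lit 28) (.e (nat_lit 344069) (nat_lit 0) (.e (nat_lit 3090) (nat_lit 191) (.e (nat_lit 483372) (nat_lit 21) (.e (nat_lit 327424) (nat_lit 18) .nil))))) (.g (nat_lit 1) (.e (nat_lit 287550) (nat_lit 0) .nil) .nil))) 
(.lf (nat_lit 548482) (.g (nat_lit 4387) (.e (nat_lit 286735) (nat_lit 3) (.e (nat_lit 98349) (nat_lit 24) (.e (nat_lit 409641) (nat_lit 17) (.e (nat_lit 294931) (nat_lit 3) (.e (nat_lit 98323) (nat_lit 17) (.e (nat_lit 6989) (nat_lit 377) (.e (nat_lit 2777) (nat_lit 178) .nil))))))) (.g (nat_lit 1) (.e (nat_lit 289530) (nat_lit 0) .nil) .nil)))) (.nd (nat_lit 9) 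
(.lf (nat_lit 548226) (.g (nat_lit 3809) (.e (nat_lit 311339) (nat_lit 12) (.e (nat_lit 475183) (nat_lit 29) (.e (nat_lit 557109) (nat_lit 15) (.e (nat_lit 188449) (nat_lit 22) (.e (nat_lit 196683) (nat_lit 18) .nil))))) (.g (nat_lit 0) (.e (nat_lit 288398) (nat_lit 0) .nil) .nil))) 
(.lf (nat_lit 548738) (.g (nat_lit 3644) (.e (nat_lit 286765) (nat_lit 15) (.e (nat_lit 3308) (nat_lit 202) (.e (nat_lit 573493) (nat_lit 15) (.e (nat_lit 81954) (nat_lit 23) (.e (nat_lit 98323) (nat_lit 17) (.e (nat_lit 6989) (nat_lit 377) (.e (nat_lit 2779) (nat_lit 178) .nil))))))) (.g (nat_lit 1) (.e (nat_lit 289929) (nat_lit 0) .nil) .nil)))))) 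
(.nd (nat_lit 7) (.nd (nat_lit 8) (.nd (nat_lit 9) 
(.lf (nat_lit 547906) (.g (nat_lit 2732) (.e (nat_lit 311040) (nat_lit 15) (.e (nat_lit 1859) (nat_lit 124) (.e (nat_lit 557109) (nat_lit 15) (.e (nat_lit 188447) (nat_lit 22) (.e (nat_lit 196661) (nat_lit 12) .nil))))) (.g (nat_lit 0) (.e (nat_lit 287462) (nat_lit 0) .nil) .nil))) 
(.lf (nat_lit 548418) (.g (nat_lit 2840) (.e (nat_lit 286733) (nat_lit 2) (.e (nat_lit 90176) (nat_lit 15) (.e (nat_lit 188450) (nat_lit 23) (.e (nat_lit 204845) (nat_lit 24) (.e (nat_lit 319528) (nat_lit 16) .nil))))) (.g (nat_lit 1) (.e (nat_lit 289454) (nat_lit 0) .nil) .nil)))) (.nd (nat_lit 9) 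
(.lf (nat_lit 548162) (.g (nat_lit 2328) (.e (nat_lit 311315) (nat_lit 3) (.e (nat_lit 204846) (nat_lit 24) (.e (nat_lit 319528) (nat_lit 16) (.e (nat_lit 286735) (nat_lit 3) (.e (nat_lit 98353) (nat_lit 25) (.e (nat_lit 417813) (nat_lit 9) .nil)))))) (.g (nat_lit 1) (.e (nat_lit 288028) (nat_lit 0) .nil) .nil))) 
(.lf (nat_lit 548674) (.g (nat_lit 3935) (.e (nat_lit 286765) (nat_lit 15) (.e (nat_lit 3296) (nat_lit 202) (.e (nat_lit 573482) (nat_lit 13) (.e (nat_lit 65619) (nat_lit 10) (.e (nat_lit 344117) (nat_lit 21) (.e (nat_lit 516106) (nat_lit 0) (.e (nat_lit 6986) (nat_lit 377) (.e (nat_lit 2777) (nat_lit 178) .nil)))))))) (.g (nat_lit 1) (.e (nat_lit 289838) (nat_lit 0) .nil) .nil))))) 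
(.nd (nat_lit 8) (.nd (nat_lit 9) 
(.lf (nat_lit 548034) (.g (nat_lit 2492) (.e (nat_lit 311311) (nat_lit 2) (.e (nat_lit 196666) (nat_lit 13) (.e (nat_lit 65617) (nat_lit 10) (.e (nat_lit 344117) (nat_lit 21) (.e (nat_lit 516106) (nat_lit 0) (.e (nat_lit 7008) (nat_lit 377) (.e (nat_lit 2817) (nat_lit 181) .nil))))))) (.g (nat_lit 1) (.e (nat_lit 287682) (nat_lit 0) .nil) .nil))) 
(.lf (nat_lit 548546) (.g (nat_lit 280) (.e (nat_lit 286740) (nat_lit 7) (.e (nat_lit 319527) (nat_lit 15) (.e (nat_lit 278546) (nat_lit 8) (.e (nat_lit 303124) (nat_lit 7) .nil)))) (.g (nat_lit 0) (.e (nat_lit 289605) (nat_lit 0) .nil) .nil)))) (.nd (nat_lit 9) 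
(.lf (nat_lit 548290) (.g (nat_lit 2188) (.e (nat_lit 311353) (nat_lit 27) (.e (nat_lit 336228) (nat_lit 14) (.e (nat_lit 401458) (nat_lit 13) (.e (nat_lit 483371) (nat_lit 21) (.e (nat_lit 319539) (nat_lit 19) .nil))))) (.g (nat_lit 1) (.e (nat_lit 289104) (nat_lit 0) .nil) .nil))) 
(.lf (nat_lit 548802) (.g (nat_lit 2384) (.e (nat_lit 286770) (nat_lit 28) (.e (nat_lit 434181) (nat_lit 0) (.e (nat_lit 1660) (nat_lit 115) (.e (nat_lit 393238) (nat_lit 17) (.e (nat_lit 6989) (nat_lit 377) (.e (nat_lit 2779) (nat_lit 178) .nil)))))) (.g (nat_lit 1) (.e (nat_lit 290222) (nat_lit 0) .nil) .nil))))))) (.nd (nat_lit 6) (.nd (nat_lit 7) (.nd (nat_lit 8) (.nd (nat_lit 9) 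
(.lf (nat_lit 547874) (.g (nat_lit 625) (.e (nat_lit 303145) (nat_lit 13) (.e (nat_lit 483403) (nat_lit 26) (.e (nat_lit 385096) (nat_lit 49) .nil))) (.g (nat_lit 0) (.e (nat_lit 287220) (nat_lit 0) .nil) .nil))) 
(.lf (nat_lit 548386) (.g (nat_lit 268) (.e (nat_lit 286733) (nat_lit 2) (.e (nat_lit 90128) (nat_lit 9) (.e (nat_lit 3044) (nat_lit 189) .nil))) (.g (nat_lit 0) (.e (nat_lit 289396) (nat_lit 0) .nil) .nil)))) (.nd (nat_lit 9) 
(.lf (nat_lit 548130) (.g (nat_lit 1320) (.e (nat_lit 311314) (nat_lit 3) (.e (nat_lit 204846) (nat_lit 24) (.e (nat_lit 319528) (nat_lit 16) (.e (nat_lit 286735) (nat_lit 3) .nil)))) (.g (nat_lit 0) (.e (nat_lit 287876) (nat_lit 0) .nil) .nil))) 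
(.lf (nat_lit 548642) (.g (nat_lit 1661) (.e (nat_lit 286759) (nat_lit 12) (.e (nat_lit 385107) (nat_lit 51) (.e (nat_lit 794675) (nat_lit 24) (.e (nat_lit 213032) (nat_lit 11) (.e (nat_lit 24620) (nat_lit 8) .nil))))) (.g (nat_lit 0) (.e (nat_lit 289792) (nat_lit 0) .nil) .nil))))) (.nd (nat_lit 8) (.nd (nat_lit 9) 
(.lf (nat_lit 548002) (.g (nat_lit 752) (.e (nat_lit 311308) (nat_lit 1) (.e (nat_lit 164179) (nat_lit 154) (.e (nat_lit 57437) (nat_lit 17) .nil))) (.g (nat_lit 0) (.e (nat_lit 287608) (nat_lit 0) .nil) .nil))) 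
(.lf (nat_lit 548514) (.g (nat_lit 4138) (.e (nat_lit 286735) (nat_lit 3) (.e (nat_lit 98365) (nat_lit 26) (.e (nat_lit 426200) (nat_lit 9) (.e (nat_lit 426131) (nat_lit 3) (.e (nat_lit 204846) (nat_lit 24) (.e (nat_lit 319530) (nat_lit 16) .nil)))))) (.g (nat_lit 1) (.e (nat_lit 289565) (nat_lit 0) .nil) .nil)))) (.nd (nat_lit 9) 
(.lf (nat_lit 548258) (.g (nat_lit 2350) (.e (nat_lit 311343) (nat_lit 13) (.e (nat_lit 483372) (nat_lit 21) (.e (nat_lit 319530) (nat_lit 16) (.e (nat_lit 286727) (nat_lit 0) (.e (nat_lit 1015) (nat_lit 81) .nil))))) (.g (nat_lit 0) (.e (nat_lit 288725) (nat_lit 0) .nil) .nil))) 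
(.lf (nat_lit 548770) (.g (nat_lit 3495) (.e (nat_lit 286768) (nat_lit 27) (.e (nat_lit 426339) (nat_lit 14) (.e (nat_lit 491571) (nat_lit 13) (.e (nat_lit 393238) (nat_lit 17) (.e (nat_lit 6989) (nat_lit 377) (.e (nat_lit 2779) (nat_lit 178) .nil)))))) (.g (nat_lit 1) (.e (nat_lit 290178) (nat_lit 0) .nil) .nil)))))) (.nd (nat_lit 7) (.nd (nat_lit 8) (.nd (nat_lit 9) 
(.lf (nat_lit 547938) (.g (nat_lit 3853) (.e (nat_lit 303153) (nat_lit 27) (.e (nat_lit 336226) (nat_lit 14) (.e (nat_lit 401459) (nat_lit 13) (.e (nat_lit 483372) (nat_lit 21) (.e (nat_lit 327424) (nat_lit 18) .nil))))) (.g (nat_lit 0) (.e (nat_lit 287508) (nat_lit 0) .nil) .nil))) 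
(.lf (nat_lit 548450) (.g (nat_lit 2137) (.e (nat_lit 286734) (nat_lit 3) (.e (nat_lit 98365) (nat_lit 26) (.e (nat_lit 426188) (nat_lit 9) (.e (nat_lit 426130) (nat_lit 3) (.e (nat_lit 204846) (nat_lit 24) .nil))))) (.g (nat_lit 0) (.e (nat_lit 289490) (nat_lit 0) .nil) .nil)))) (.nd (nat_lit 9) 
(.lf (nat_lit 548194) (.g (nat_lit 2921) (.e (nat_lit 311315) (nat_lit 3) (.e (nat_lit 204868) (nat_lit 29) (.e (nat_lit 360466) (nat_lit 3) (.e (nat_lit 516138) (nat_lit 7) (.e (nat_lit 409650) (nat_lit 19) .nil))))) (.g (nat_lit 1) (.e (nat_lit 288092) (nat_lit 0) .nil) .nil))) 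
(.lf (nat_lit 548706) (.g (nat_lit 2149) (.e (nat_lit 286765) (nat_lit 15) (.e (nat_lit 3304) (nat_lit 202) (.e (nat_lit 573485) (nat_lit 13) (.e (nat_lit 65619) (nat_lit 10) (.e (nat_lit 344117) (nat_lit 21) (.e (nat_lit 516102) (nat_lit 0) (.e (nat_lit 6989) (nat_lit 377) (.e (nat_lit 2779) (nat_lit 178) .nil)))))))) (.g (nat_lit 1) (.e (nat_lit 289881) (nat_lit 0) .nil) .nil))))) 
(.nd (nat_lit 8) (.nd (nat_lit 9) 
(.lf (nat_lit 548066) (.g (nat_lit 3686) (.e (nat_lit 311312) (nat_lit 2) (.e (nat_lit 196666) (nat_lit 13) (.e (nat_lit 65610) (nat_lit 10) (.e (nat_lit 344117) (nat_lit 21) (.e (nat_lit 516106) (nat_lit 0) (.e (nat_lit 6966) (nat_lit 377) (.e (nat_lit 2813) (nat_lit 181) .nil))))))) (.g (nat_lit 1) (.e (nat_lit 287762) (nat_lit 0) .nil) .nil))) 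
(.lf (nat_lit 548578) (.g (nat_lit 451) (.e (nat_lit 286753) (nat_lit 10) (.e (nat_lit 344156) (nat_lit 36) (.e (nat_lit 638999) (nat_lit 8) .nil))) (.g (nat_lit 0) (.e (nat_lit 289665) (nat_lit 0) .nil) .nil)))) (.nd (nat_lit 9) 
(.lf (nat_lit 548322) (.g (nat_lit 2010) (.e (nat_lit 319232) (nat_lit 29) (.e (nat_lit 352262) (nat_lit 0) (.e (nat_lit 3632) (nat_lit 227) (.e (nat_lit 778323) (nat_lit 5) (.e (nat_lit 73792) (nat_lit 45) .nil))))) (.g (nat_lit 0) (.e (nat_lit 289158) (nat_lit 0) .nil) .nil))) 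
(.lf (nat_lit 548834) (.g (nat_lit 5436) (.e (nat_lit 294927) (nat_lit 2) (.e (nat_lit 90178) (nat_lit 15) (.e (nat_lit 188452) (nat_lit 23) (.e (nat_lit 204846) (nat_lit 24) (.e (nat_lit 319535) (nat_lit 17) .nil))))) (.g (nat_lit 1) (.e (nat_lit 290477) (nat_lit 0) .nil) .nil)))))))) (.nd (nat_lit 5) (.nd (nat_lit 6) (.nd (nat_lit 7) (.nd (nat_lit 8) (.nd (nat_lit 9) 
(.lf (nat_lit 547858) (.g (nat_lit 2094) (.e (nat_lit 303144) (nat_lit 13) (.e (nat_lit 483413) (nat_lit 27) (.e (nat_lit 401444) (nat_lit 9) (.e (nat_lit 433920) (nat_lit 26) .nil)))) (.g (nat_lit 0) (.e (nat_lit 287040) (nat_lit 0) .nil) .nil))) 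
(.lf (nat_lit 548370) (.g (nat_lit 2428) (.e (nat_lit 286732) (nat_lit 2) (.e (nat_lit 90170) (nat_lit 13) (.e (nat_lit 172106) (nat_lit 10) (.e (nat_lit 434231) (nat_lit 23) (.e (nat_lit 532482) (nat_lit 0) .nil))))) (.g (nat_lit 0) (.e (nat_lit 289362) (nat_lit 0) .nil) .nil)))) (.nd (nat_lit 9) 
(.lf (nat_lit 548114) (.g (nat_lit 484) (.e (nat_lit 311312) (nat_lit 2) (.e (nat_lit 196674) (nat_lit 15) (.e (nat_lit 81954) (nat_lit 23) .nil))) (.g (nat_lit 0) (.e (nat_lit 287841) (nat_lit 0) .nil) .nil))) 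
(.lf (nat_lit 548626) (.g (nat_lit 2100) (.e (nat_lit 286758) (nat_lit 12) (.e (nat_lit 385072) (nat_lit 31) (.e (nat_lit 573492) (nat_lit 15) (.e (nat_lit 81953) (nat_lit 22) (.e (nat_lit 98048) (nat_lit 18) .nil))))) (.g (nat_lit 0) (.e (nat_lit 289770) (nat_lit 0) .nil) .nil))))) (.nd (nat_lit 8) (.nd (nat_lit 9) 
(.lf (nat_lit 547986) (.g (nat_lit 2415) (.e (nat_lit 311040) (nat_lit 35) (.e (nat_lit 401454) (nat_lit 12) (.e (nat_lit 475198) (nat_lit 40) (.e (nat_lit 704596) (nat_lit 5) (.e (nat_lit 180282) (nat_lit 45) .nil))))) (.g (nat_lit 0) (.e (nat_lit 287579) (nat_lit 0) .nil) .nil))) 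
(.lf (nat_lit 548498) (.g (nat_lit 1043) (.e (nat_lit 286735) (nat_lit 3) (.e (nat_lit 98358) (nat_lit 26) (.e (nat_lit 426241) (nat_lit 9) .nil))) (.g (nat_lit 0) (.e (nat_lit 289548) (nat_lit 0) .nil) .nil)))) (.nd (nat_lit 9) 
(.lf (nat_lit 548242) (.g (nat_lit 2978) (.e (nat_lit 311342) (nat_lit 13) (.e (nat_lit 483413) (nat_lit 27) (.e (nat_lit 401447) (nat_lit 10) (.e (nat_lit 434289) (nat_lit 43) (.e (nat_lit 704256) (nat_lit 0) .nil))))) (.g (nat_lit 0) (.e (nat_lit 288633) (nat_lit 0) .nil) .nil))) 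
(.lf (nat_lit 548754) (.g (nat_lit 2543) (.e (nat_lit 294656) (nat_lit 18) (.e (nat_lit 204863) (nat_lit 27) (.e (nat_lit 344129) (nat_lit 26) (.e (nat_lit 557103) (nat_lit 14) (.e (nat_lit 180250) (nat_lit 10) .nil))))) (.g (nat_lit 0) (.e (nat_lit 290054) (nat_lit 0) .nil) .nil)))))) (.nd (nat_lit 7) (.nd (nat_lit 8) (.nd (nat_lit 9) 
(.lf (nat_lit 547922) (.g (nat_lit 1210) (.e (nat_lit 303151) (nat_lit 27) (.e (nat_lit 335995) (nat_lit 1) (.e (nat_lit 57684) (nat_lit 155) (.e (nat_lit 122913) (nat_lit 13) .nil)))) (.g (nat_lit 0) (.e (nat_lit 287483) (nat_lit 0) .nil) .nil))) 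
(.lf (nat_lit 548434) (.g (nat_lit 5509) (.e (nat_lit 286733) (nat_lit 2) (.e (nat_lit 90178) (nat_lit 15) (.e (nat_lit 188441) (nat_lit 20) (.e (nat_lit 3238) (nat_lit 197) (.e (nat_lit 532523) (nat_lit 7) (.e (nat_lit 319530) (nat_lit 16) .nil)))))) (.g (nat_lit 1) (.e (nat_lit 289471) (nat_lit 0) .nil) .nil)))) (.nd (nat_lit 9) 
(.lf (nat_lit 548178) (.g (nat_lit 1727) (.e (nat_lit 311315) (nat_lit 3) (.e (nat_lit 204846) (nat_lit 24) (.e (nat_lit 319534) (nat_lit 16) (.e (nat_lit 286727) (nat_lit 0) .nil)))) (.g (nat_lit 0) (.e (nat_lit 288044) (nat_lit 0) .nil) .nil))) 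
(.lf (nat_lit 548690) (.g (nat_lit 3134) (.e (nat_lit 286765) (nat_lit 15) (.e (nat_lit 3304) (nat_lit 202) (.e (nat_lit 573482) (nat_lit 13) (.e (nat_lit 65604) (nat_lit 9) (.e (nat_lit 336013) (nat_lit 2) (.e (nat_lit 90165) (nat_lit 12) (.e (nat_lit 164208) (nat_lit 176) (.e (nat_lit 2777) (nat_lit 178) .nil)))))))) (.g (nat_lit 1) (.e (nat_lit 289865) (nat_lit 0) .nil) .nil))))) 
(.nd (nat_lit 8) (.nd (nat_lit 9) 
(.lf (nat_lit 548050) (.g (nat_lit 1386) (.e (nat_lit 311312) (nat_lit 2) (.e (nat_lit 196666) (nat_lit 13) (.e (nat_lit 65610) (nat_lit 10) (.e (nat_lit 344117) (nat_lit 21) .nil)))) (.g (nat_lit 0) (.e (nat_lit 287745) (nat_lit 0) .nil) .nil))) 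
(.lf (nat_lit 548562) (.g (nat_lit 1123) (.e (nat_lit 286749) (nat_lit 9) (.e (nat_lit 335997) (nat_lit 1) (.e (nat_lit 57857) (nat_lit 254) (.e (nat_lit 163908) (nat_lit 12) (.e (nat_lit 426171) (nat_lit 7) .nil))))) (.g (nat_lit 0) (.e (nat_lit 289635) (nat_lit 0) .nil) .nil)))) (.nd (nat_lit 9) 
(.lf (nat_lit 548306) (.g (nat_lit 1926) (.e (nat_lit 311357) (nat_lit 28) (.e (nat_lit 344068) (nat_lit 0) (.e (nat_lit 3090) (nat_lit 191) (.e (nat_lit 483350) (nat_lit 17) (.e (nat_lit 6145) (nat_lit 332) .nil))))) (.g (nat_lit 0) (.e (nat_lit 289133) (nat_lit 0) .nil) .nil))) 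
(.lf (nat_lit 548818) (.g (nat_lit 1489) (.e (nat_lit 294926) (nat_lit 2) (.e (nat_lit 90170) (nat_lit 13) (.e (nat_lit 172106) (nat_lit 10) (.e (nat_lit 434231) (nat_lit 23) .nil)))) (.g (nat_lit 0) (.e (nat_lit 290461) (nat_lit 0) .nil) .nil))))))) (.nd (nat_lit 6) (.nd (nat_lit 7) (.nd (nat_lit 8) (.nd (nat_lit 9) 
(.lf (nat_lit 547890) (.g (nat_lit 1305) (.e (nat_lit 303146) (nat_lit 14) (.e (nat_lit 491570) (nat_lit 13) (.e (nat_lit 393284) (nat_lit 24) (.e (nat_lit 434275) (nat_lit 39) .nil)))) (.g (nat_lit 0) (.e (nat_lit 287416) (nat_lit 0) .nil) .nil))) 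
(.lf (nat_lit 548402) (.g (nat_lit 3683) (.e (nat_lit 286733) (nat_lit 2) (.e (nat_lit 90170) (nat_lit 13) (.e (nat_lit 172092) (nat_lit 9) (.e (nat_lit 426132) (nat_lit 3) (.e (nat_lit 204846) (nat_lit 24) (.e (nat_lit 319533) (nat_lit 16) .nil)))))) (.g (nat_lit 1) (.e (nat_lit 289434) (nat_lit 0) .nil) .nil)))) (.nd (nat_lit 9) 
(.lf (nat_lit 548146) (.g (nat_lit 819) (.e (nat_lit 311314) (nat_lit 3) (.e (nat_lit 204877) (nat_lit 31) (.e (nat_lit 376865) (nat_lit 22) (.e (nat_lit 90181) (nat_lit 16) .nil)))) (.g (nat_lit 0) (.e (nat_lit 287991) (nat_lit 0) .nil) .nil))) 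
(.lf (nat_lit 548658) (.g (nat_lit 1558) (.e (nat_lit 286761) (nat_lit 13) (.e (nat_lit 393289) (nat_lit 25) (.e (nat_lit 458804) (nat_lit 38) (.e (nat_lit 655360) (nat_lit 0) (.e (nat_lit 2830) (nat_lit 182) (.e (nat_lit 417536) (nat_lit 6) .nil)))))) (.g (nat_lit 1) (.e (nat_lit 289808) (nat_lit 0) .nil) .nil))))) (.nd (nat_lit 8) (.nd (nat_lit 9) 
(.lf (nat_lit 548018) (.g (nat_lit 3136) (.e (nat_lit 311311) (nat_lit 2) (.e (nat_lit 196666) (nat_lit 13) (.e (nat_lit 65610) (nat_lit 10) (.e (nat_lit 344117) (nat_lit 21) (.e (nat_lit 516098) (nat_lit 0) (.e (nat_lit 6957) (nat_lit 377) (.e (nat_lit 2814) (nat_lit 181) .nil))))))) (.g (nat_lit 1) (.e (nat_lit 287665) (nat_lit 0) .nil) .nil))) 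
(.lf (nat_lit 548530) (.g (nat_lit 3854) (.e (nat_lit 286735) (nat_lit 3) (.e (nat_lit 98371) (nat_lit 28) (.e (nat_lit 442427) (nat_lit 23) (.e (nat_lit 204845) (nat_lit 24) (.e (nat_lit 319530) (nat_lit 16) .nil))))) (.g (nat_lit 1) (.e (nat_lit 289582) (nat_lit 0) .nil) .nil)))) (.nd (nat_lit 9) 
(.lf (nat_lit 548274) (.g (nat_lit 1560) (.e (nat_lit 311344) (nat_lit 13) (.e (nat_lit 483372) (nat_lit 21) (.e (nat_lit 319534) (nat_lit 16) (.e (nat_lit 286728) (nat_lit 0) .nil)))) (.g (nat_lit 0) (.e (nat_lit 289004) (nat_lit 0) .nil) .nil))) 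
(.lf (nat_lit 548786) (.g (nat_lit 1488) (.e (nat_lit 294656) (nat_lit 27) (.e (nat_lit 426340) (nat_lit 14) (.e (nat_lit 491571) (nat_lit 13) (.e (nat_lit 393242) (nat_lit 17) (.e (nat_lit 6986) (nat_lit 377) .nil))))) (.g (nat_lit 0) (.e (nat_lit 290198) (nat_lit 0) .nil) .nil)))))) (.nd (nat_lit 7) (.nd (nat_lit 8) (.nd (nat_lit 9) 
(.lf (nat_lit 547954) (.g (nat_lit 1425) (.e (nat_lit 311040) (nat_lit 27) (.e (nat_lit 336235) (nat_lit 14) (.e (nat_lit 401459) (nat_lit 13) (.e (nat_lit 483350) (nat_lit 17) .nil)))) (.g (nat_lit 0) (.e (nat_lit 287531) (nat_lit 0) .nil) .nil))) 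
(.lf (nat_lit 548466) (.g (nat_lit 831) (.e (nat_lit 286735) (nat_lit 3) (.e (nat_lit 98323) (nat_lit 17) (.e (nat_lit 6989) (nat_lit 377) (.e (nat_lit 977) (nat_lit 81) .nil)))) (.g (nat_lit 0) (.e (nat_lit 289511) (nat_lit 0) .nil) .nil)))) (.nd (nat_lit 9) 
(.lf (nat_lit 548210) (.g (nat_lit 4620) (.e (nat_lit 311322) (nat_lit 9) (.e (nat_lit 426566) (nat_lit 34) (.e (nat_lit 393253) (nat_lit 18) (.e (nat_lit 164345) (nat_lit 240) .nil)))) (.g (nat_lit 0) (.e (nat_lit 288261) (nat_lit 0) .nil) .nil))) 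
(.lf (nat_lit 548722) (.g (nat_lit 4446) (.e (nat_lit 286765) (nat_lit 15) (.e (nat_lit 3307) (nat_lit 202) (.e (nat_lit 573493) (nat_lit 15) (.e (nat_lit 81953) (nat_lit 22) (.e (nat_lit 90165) (nat_lit 12) (.e (nat_lit 164208) (nat_lit 176) (.e (nat_lit 2782) (nat_lit 178) .nil))))))) (.g (nat_lit 1) (.e (nat_lit 289910) (nat_lit 0) .nil) .nil))))) (.nd (nat_lit 8) (.nd (nat_lit 9) 
(.lf (nat_lit 548082) (.g (nat_lit 2480) (.e (nat_lit 311312) (nat_lit 2) (.e (nat_lit 196672) (nat_lit 15) (.e (nat_lit 81951) (nat_lit 22) (.e (nat_lit 90165) (nat_lit 12) (.e (nat_lit 164207) (nat_lit 176) (.e (nat_lit 2814) (nat_lit 181) .nil)))))) (.g (nat_lit 1) (.e (nat_lit 287799) (nat_lit 0) .nil) .nil))) 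
(.lf (nat_lit 548594) (.g (nat_lit 824) (.e (nat_lit 286754) (nat_lit 10) (.e (nat_lit 344138) (nat_lit 29) (.e (nat_lit 581653) (nat_lit 6) (.e (nat_lit 188428) (nat_lit 20) .nil)))) (.g (nat_lit 0) (.e (nat_lit 289696) (nat_lit 0) .nil) .nil)))) (.nd (nat_lit 9) 
(.lf (nat_lit 548338) (.g (nat_lit 1401) (.e (nat_lit 286720) (nat_lit 0) (.e (nat_lit 2292) (nat_lit 151) (.e (nat_lit 778459) (nat_lit 11) (.e (nat_lit 24660) (nat_lit 13) (.e (nat_lit 393260) (nat_lit 21) (.e (nat_lit 417536) (nat_lit 16) .nil)))))) (.g (nat_lit 1) (.e (nat_lit 289177) (nat_lit 0) .nil) .nil))) 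
(.lf (nat_lit 548850) (.g (nat_lit 1119) (.e (nat_lit 294928) (nat_lit 2) (.e (nat_lit 90176) (nat_lit 15) (.e (nat_lit 188450) (nat_lit 23) (.e (nat_lit 204816) (nat_lit 17) .nil)))) (.g (nat_lit 0) (.e (nat_lit 290495) (nat_lit 0) .nil) .nil))))))))) (.nd (nat_lit 4) (.nd (nat_lit 5) (.nd (nat_lit 6) (.nd (nat_lit 7) (.nd (nat_lit 8) (.nd (nat_lit 9) 
(.lf (nat_lit 547850) (.g (nat_lit 2853) (.e (nat_lit 303143) (nat_lit 12) (.e (nat_lit 475219) (nat_lit 44) (.e (nat_lit 737318) (nat_lit 15) (.e (nat_lit 49189) (nat_lit 11) (.e (nat_lit 16425) (nat_lit 7) (.e (nat_lit 409643) (nat_lit 18) .nil)))))) (.g (nat_lit 1) (.e (nat_lit 286967) (nat_lit 0) .nil) .nil))) 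
(.lf (nat_lit 548362) (.g (nat_lit 246) (.e (nat_lit 286731) (nat_lit 1) (.e (nat_lit 57687) (nat_lit 156) (.e (nat_lit 163933) (nat_lit 17) .nil))) (.g (nat_lit 0) (.e (nat_lit 289291) (nat_lit 0) .nil) .nil)))) (.nd (nat_lit 9) 
(.lf (nat_lit 548106) (.g (nat_lit 2171) (.e (nat_lit 311312) (nat_lit 2) (.e (nat_lit 196672) (nat_lit 15) (.e (nat_lit 81954) (nat_lit 23) (.e (nat_lit 98350) (nat_lit 24) (.e (nat_lit 417536) (nat_lit 19) .nil))))) (.g (nat_lit 0) (.e (nat_lit 287826) (nat_lit 0) .nil) .nil))) 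
(.lf (nat_lit 548618) (.g (nat_lit 489) (.e (nat_lit 286756) (nat_lit 10) (.e (nat_lit 344156) (nat_lit 36) (.e (nat_lit 639000) (nat_lit 9) .nil))) (.g (nat_lit 0) (.e (nat_lit 289750) (nat_lit 0) .nil) .nil))))) (.nd (nat_lit 8) (.nd (nat_lit 9) 
(.lf (nat_lit 547978) (.g (nat_lit 1509) (.e (nat_lit 303155) (nat_lit 29) (.e (nat_lit 352307) (nat_lit 21) (.e (nat_lit 57854) (nat_lit 252) (.e (nat_lit 57389) (nat_lit 5) .nil)))) (.g (nat_lit 0) (.e (nat_lit 287560) (nat_lit 0) .nil) .nil))) 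
(.lf (nat_lit 548490) (.g (nat_lit 2738) (.e (nat_lit 286735) (nat_lit 3) (.e (nat_lit 98353) (nat_lit 25) (.e (nat_lit 417813) (nat_lit 9) (.e (nat_lit 311315) (nat_lit 3) (.e (nat_lit 204819) (nat_lit 17) (.e (nat_lit 6113) (nat_lit 332) (.e (nat_lit 1361) (nat_lit 102) .nil))))))) (.g (nat_lit 1) (.e (nat_lit 289538) (nat_lit 0) .nil) .nil)))) (.nd (nat_lit 9) 
(.lf (nat_lit 548234) (.g (nat_lit 2223) (.e (nat_lit 311341) (nat_lit 13) (.e (nat_lit 483413) (nat_lit 27) (.e (nat_lit 401447) (nat_lit 10) (.e (nat_lit 434289) (nat_lit 43) .nil)))) (.g (nat_lit 0) (.e (nat_lit 288484) (nat_lit 0) .nil) .nil))) 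
(.lf (nat_lit 548746) (.g (nat_lit 4180) (.e (nat_lit 286765) (nat_lit 15) (.e (nat_lit 3308) (nat_lit 202) (.e (nat_lit 573493) (nat_lit 15) (.e (nat_lit 81956) (nat_lit 23) (.e (nat_lit 98325) (nat_lit 17) (.e (nat_lit 6986) (nat_lit 377) (.e (nat_lit 2779) (nat_lit 178) .nil))))))) (.g (nat_lit 1) (.e (nat_lit 289937) (nat_lit 0) .nil) .nil)))))) 
(.nd (nat_lit 7) (.nd (nat_lit 8) (.nd (nat_lit 9) 
(.lf (nat_lit 547914) (.g (nat_lit 21) (.e (nat_lit 311040) (nat_lit 18) (.e (nat_lit 98364) (nat_lit 26) (.e (nat_lit 426327) (nat_lit 13) .nil))) (.g (nat_lit 0) (.e (nat_lit 287470) (nat_lit 0) .nil) .nil))) 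
(.lf (nat_lit 548426) (.g (nat_lit 2498) (.e (nat_lit 286733) (nat_lit 2) (.e (nat_lit 90177) (nat_lit 15) (.e (nat_lit 188450) (nat_lit 23) (.e (nat_lit 204846) (nat_lit 24) (.e (nat_lit 327424) (nat_lit 16) .nil))))) (.g (nat_lit 1) (.e (nat_lit 289462) (nat_lit 0) .nil) .nil)))) (.nd (nat_lit 9) 
(.lf (nat_lit 548170) (.g (nat_lit 2918) (.e (nat_lit 311315) (nat_lit 3) (.e (nat_lit 204846) (nat_lit 24) (.e (nat_lit 319533) (nat_lit 16) (.e (nat_lit 286727) (nat_lit 0) (.e (nat_lit 1799) (nat_lit 119) (.e (nat_lit 516142) (nat_lit 8) (.e (nat_lit 417813) (nat_lit 9) .nil))))))) (.g (nat_lit 1) (.e (nat_lit 288036) (nat_lit 0) .nil) .nil))) 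
(.lf (nat_lit 548682) (.g (nat_lit 3537) (.e (nat_lit 286765) (nat_lit 15) (.e (nat_lit 3298) (nat_lit 202) (.e (nat_lit 573492) (nat_lit 15) (.e (nat_lit 81956) (nat_lit 23) (.e (nat_lit 98325) (nat_lit 17) (.e (nat_lit 6986) (nat_lit 377) (.e (nat_lit 2781) (nat_lit 178) .nil))))))) (.g (nat_lit 1) (.e (nat_lit 289856) (nat_lit 0) .nil) .nil))))) (.nd (nat_lit 8) (.nd (nat_lit 9) 
(.lf (nat_lit 548042) (.g (nat_lit 1970) (.e (nat_lit 311311) (nat_lit 2) (.e (nat_lit 196672) (nat_lit 15) (.e (nat_lit 81954) (nat_lit 23) (.e (nat_lit 98325) (nat_lit 17) (.e (nat_lit 6966) (nat_lit 377) (.e (nat_lit 2815) (nat_lit 181) .nil)))))) (.g (nat_lit 1) (.e (nat_lit 287708) (nat_lit 0) .nil) .nil))) 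
(.lf (nat_lit 548554) (.g (nat_lit 2289) (.e (nat_lit 286743) (nat_lit 9) (.e (nat_lit 336337) (nat_lit 20) (.e (nat_lit 221218) (nat_lit 24) (.e (nat_lit 213030) (nat_lit 11) (.e (nat_lit 24617) (nat_lit 7) (.e (nat_lit 319528) (nat_lit 16) .nil)))))) (.g (nat_lit 1) (.e (nat_lit 289621) (nat_lit 0) .nil) .nil)))) (.nd (nat_lit 9) 
(.lf (nat_lit 548298) (.g (nat_lit 739) (.e (nat_lit 311357) (nat_lit 28) (.e (nat_lit 344068) (nat_lit 0) (.e (nat_lit 2854) (nat_lit 184) (.e (nat_lit 426533) (nat_lit 28) (.e (nat_lit 344081) (nat_lit 13) .nil))))) (.g (nat_lit 0) (.e (nat_lit 289121) (nat_lit 0) .nil) .nil))) 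
(.lf (nat_lit 548810) (.g (nat_lit 2373) (.e (nat_lit 294656) (nat_lit 35) (.e (nat_lit 491566) (nat_lit 12) (.e (nat_lit 385093) (nat_lit 49) (.e (nat_lit 778324) (nat_lit 5) (.e (nat_lit 73792) (nat_lit 45) .nil))))) (.g (nat_lit 0) (.e (nat_lit 290437) (nat_lit 0) .nil) .nil))))))) (.nd (nat_lit 6) (.nd (nat_lit 7) (.nd (nat_lit 8) (.nd (nat_lit 9) 
(.lf (nat_lit 547882) (.g (nat_lit 4203) (.e (nat_lit 303145) (nat_lit 13) (.e (nat_lit 483413) (nat_lit 27) (.e (nat_lit 401448) (nat_lit 10) (.e (nat_lit 434202) (nat_lit 18) (.e (nat_lit 6058) (nat_lit 327) (.e (nat_lit 8213) (nat_lit 9) .nil)))))) (.g (nat_lit 1) (.e (nat_lit 287357) (nat_lit 0) .nil) .nil))) 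
(.lf (nat_lit 548394) (.g (nat_lit 1109) (.e (nat_lit 286733) (nat_lit 2) (.e (nat_lit 90134) (nat_lit 9) (.e (nat_lit 3016) (nat_lit 187) (.e (nat_lit 450580) (nat_lit 5) .nil)))) (.g (nat_lit 0) (.e (nat_lit 289419) (nat_lit 0) .nil) .nil)))) (.nd (nat_lit 9) 
(.lf (nat_lit 548138) (.g (nat_lit 2683) (.e (nat_lit 311314) (nat_lit 3) (.e (nat_lit 204868) (nat_lit 29) (.e (nat_lit 360466) (nat_lit 3) (.e (nat_lit 516139) (nat_lit 7) (.e (nat_lit 409651) (nat_lit 19) .nil))))) (.g (nat_lit 0) (.e (nat_lit 287918) (nat_lit 0) .nil) .nil))) 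
(.lf (nat_lit 548650) (.g (nat_lit 1647) (.e (nat_lit 286759) (nat_lit 12) (.e (nat_lit 385109) (nat_lit 51) (.e (nat_lit 794677) (nat_lit 24) (.e (nat_lit 213030) (nat_lit 11) (.e (nat_lit 24617) (nat_lit 7) .nil))))) (.g (nat_lit 0) (.e (nat_lit 289800) (nat_lit 0) .nil) .nil))))) (.nd (nat_lit 8) (.nd (nat_lit 9) 
(.lf (nat_lit 548010) (.g (nat_lit 1565) (.e (nat_lit 311310) (nat_lit 2) (.e (nat_lit 196672) (nat_lit 15) (.e (nat_lit 81954) (nat_lit 23) (.e (nat_lit 98350) (nat_lit 24) .nil)))) (.g (nat_lit 0) (.e (nat_lit 287645) (nat_lit 0) .nil) .nil))) 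
(.lf (nat_lit 548522) (.g (nat_lit 1731) (.e (nat_lit 286735) (nat_lit 3) (.e (nat_lit 98367) (nat_lit 27) (.e (nat_lit 434208) (nat_lit 18) (.e (nat_lit 4423) (nat_lit 261) .nil)))) (.g (nat_lit 0) (.e (nat_lit 289574) (nat_lit 0) .nil) .nil)))) (.nd (nat_lit 9) 
(.lf (nat_lit 548266) (.g (nat_lit 1785) (.e (nat_lit 311343) (nat_lit 13) (.e (nat_lit 483372) (nat_lit 21) (.e (nat_lit 319534) (nat_lit 16) (.e (nat_lit 286723) (nat_lit 0) .nil)))) (.g (nat_lit 0) (.e (nat_lit 288791) (nat_lit 0) .nil) .nil))) 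
(.lf (nat_lit 548778) (.g (nat_lit 3139) (.e (nat_lit 286768) (nat_lit 27) (.e (nat_lit 426340) (nat_lit 14) (.e (nat_lit 491571) (nat_lit 13) (.e (nat_lit 393230) (nat_lit 17) (.e (nat_lit 6989) (nat_lit 377) (.e (nat_lit 2777) (nat_lit 178) .nil)))))) (.g (nat_lit 1) (.e (nat_lit 290187) (nat_lit 0) .nil) .nil)))))) (.nd (nat_lit 7) (.nd (nat_lit 8) (.nd (nat_lit 9) 
(.lf (nat_lit 547946) (.g (nat_lit 2342) (.e (nat_lit 311040) (nat_lit 27) (.e (nat_lit 336227) (nat_lit 14) (.e (nat_lit 401459) (nat_lit 13) (.e (nat_lit 483350) (nat_lit 17) (.e (nat_lit 6113) (nat_lit 332) .nil))))) (.g (nat_lit 0) (.e (nat_lit 287518) (nat_lit 0) .nil) .nil))) 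
(.lf (nat_lit 548458) (.g (nat_lit 3730) (.e (nat_lit 286734) (nat_lit 3) (.e (nat_lit 98389) (nat_lit 33) (.e (nat_lit 491560) (nat_lit 10) (.e (nat_lit 344117) (nat_lit 21) (.e (nat_lit 516106) (nat_lit 0) (.e (nat_lit 6986) (nat_lit 377) (.e (nat_lit 2782) (nat_lit 178) .nil))))))) (.g (nat_lit 1) (.e (nat_lit 289502) (nat_lit 0) .nil) .nil)))) (.nd (nat_lit 9) 
(.lf (nat_lit 548202) (.g (nat_lit 1922) (.e (nat_lit 311315) (nat_lit 3) (.e (nat_lit 204885) (nat_lit 33) (.e (nat_lit 401448) (nat_lit 10) (.e (nat_lit 434230) (nat_lit 23) .nil)))) (.g (nat_lit 0) (.e (nat_lit 288219) (nat_lit 0) .nil) .nil))) 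
(.lf (nat_lit 548714) (.g (nat_lit 3742) (.e (nat_lit 286765) (nat_lit 15) (.e (nat_lit 3307) (nat_lit 202) (.e (nat_lit 573485) (nat_lit 13) (.e (nat_lit 65619) (nat_lit 10) (.e (nat_lit 344117) (nat_lit 21) (.e (nat_lit 516102) (nat_lit 0) (.e (nat_lit 6989) (nat_lit 377) (.e (nat_lit 2779) (nat_lit 178) .nil)))))))) (.g (nat_lit 1) (.e (nat_lit 289902) (nat_lit 0) .nil) .nil))))) 
(.nd (nat_lit 8) (.nd (nat_lit 9) 
(.lf (nat_lit 548074) (.g (nat_lit 2114) (.e (nat_lit 311312) (nat_lit 2) (.e (nat_lit 196666) (nat_lit 13) (.e (nat_lit 65610) (nat_lit 10) (.e (nat_lit 344117) (nat_lit 21) (.e (nat_lit 516106) (nat_lit 0) (.e (nat_lit 7008) (nat_lit 377) (.e (nat_lit 7936) (nat_lit 181) .nil))))))) (.g (nat_lit 1) (.e (nat_lit 287770) (nat_lit 0) .nil) .nil))) 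
(.lf (nat_lit 548586) (.g (nat_lit 4529) (.e (nat_lit 286753) (nat_lit 10) (.e (nat_lit 344160) (nat_lit 37) (.e (nat_lit 647200) (nat_lit 12) (.e (nat_lit 57574) (nat_lit 55) (.e (nat_lit 778466) (nat_lit 11) (.e (nat_lit 24617) (nat_lit 7) (.e (nat_lit 319533) (nat_lit 16) .nil))))))) (.g (nat_lit 1) (.e (nat_lit 289676) (nat_lit 0) .nil) .nil)))) (.nd (nat_lit 9) 
(.lf (nat_lit 548330) (.g (nat_lit 4228) (.e (nat_lit 286720) (nat_lit 0) (.e (nat_lit 1788) (nat_lit 119) (.e (nat_lit 516151) (nat_lit 9) (.e (nat_lit 426211) (nat_lit 9) (.e (nat_lit 426125) (nat_lit 2) .nil))))) (.g (nat_lit 0) (.e (nat_lit 289169) (nat_lit 0) .nil) .nil))) 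
(.lf (nat_lit 548842) (.g (nat_lit 3658) (.e (nat_lit 294928) (nat_lit 2) (.e (nat_lit 90170) (nat_lit 13) (.e (nat_lit 172106) (nat_lit 10) (.e (nat_lit 434231) (nat_lit 23) (.e (nat_lit 532526) (nat_lit 8) (.e (nat_lit 335616) (nat_lit 17) .nil)))))) (.g (nat_lit 1) (.e (nat_lit 290487) (nat_lit 0) .nil) .nil)))))))) 
(.nd (nat_lit 5) (.nd (nat_lit 6) (.nd (nat_lit 7) (.nd (nat_lit 8) (.nd (nat_lit 9) 
(.lf (nat_lit 547866) (.g (nat_lit 2910) (.e (nat_lit 303144) (nat_lit 13) (.e (nat_lit 483413) (nat_lit 27) (.e (nat_lit 401448) (nat_lit 10) (.e (nat_lit 434203) (nat_lit 18) (.e (nat_lit 6058) (nat_lit 327) .nil))))) (.g (nat_lit 0) (.e (nat_lit 287052) (nat_lit 0) .nil) .nil))) 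
(.lf (nat_lit 548378) (.g (nat_lit 2075) (.e (nat_lit 286732) (nat_lit 2) (.e (nat_lit 90170) (nat_lit 13) (.e (nat_lit 172113) (nat_lit 10) (.e (nat_lit 434245) (nat_lit 28) (.e (nat_lit 573468) (nat_lit 10) .nil))))) (.g (nat_lit 0) (.e (nat_lit 289370) (nat_lit 0) .nil) .nil)))) (.nd (nat_lit 9) 
(.lf (nat_lit 548122) (.g (nat_lit 1792) (.e (nat_lit 311313) (nat_lit 3) (.e (nat_lit 204846) (nat_lit 24) (.e (nat_lit 319531) (nat_lit 16) (.e (nat_lit 286735) (nat_lit 3) .nil)))) (.g (nat_lit 0) (.e (nat_lit 287857) (nat_lit 0) .nil) .nil))) 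
(.lf (nat_lit 548634) (.g (nat_lit 4968) (.e (nat_lit 286759) (nat_lit 12) (.e (nat_lit 385074) (nat_lit 31) (.e (nat_lit 573493) (nat_lit 15) (.e (nat_lit 81953) (nat_lit 22) (.e (nat_lit 90191) (nat_lit 18) .nil))))) (.g (nat_lit 0) (.e (nat_lit 289783) (nat_lit 0) .nil) .nil))))) (.nd (nat_lit 8) (.nd (nat_lit 9) 
(.lf (nat_lit 547994) (.g (nat_lit 1361) (.e (nat_lit 311040) (nat_lit 35) (.e (nat_lit 401454) (nat_lit 12) (.e (nat_lit 475209) (nat_lit 41) (.e (nat_lit 712742) (nat_lit 27) (.e (nat_lit 426173) (nat_lit 7) .nil))))) (.g (nat_lit 0) (.e (nat_lit 287588) (nat_lit 0) .nil) .nil))) 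
(.lf (nat_lit 548506) (.g (nat_lit 2253) (.e (nat_lit 286735) (nat_lit 3) (.e (nat_lit 98363) (nat_lit 26) (.e (nat_lit 426260) (nat_lit 9) (.e (nat_lit 426129) (nat_lit 3) (.e (nat_lit 204846) (nat_lit 24) (.e (nat_lit 327424) (nat_lit 16) .nil)))))) (.g (nat_lit 1) (.e (nat_lit 289557) (nat_lit 0) .nil) .nil)))) (.nd (nat_lit 9) 
(.lf (nat_lit 548250) (.g (nat_lit 2101) (.e (nat_lit 311343) (nat_lit 13) (.e (nat_lit 483337) (nat_lit 9) (.e (nat_lit 426107) (nat_lit 1) (.e (nat_lit 164347) (nat_lit 240) (.e (nat_lit 7936) (nat_lit 157) .nil))))) (.g (nat_lit 0) (.e (nat_lit 288672) (nat_lit 0) .nil) .nil))) 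
(.lf (nat_lit 548762) (.g (nat_lit 2303) (.e (nat_lit 286768) (nat_lit 27) (.e (nat_lit 426171) (nat_lit 7) (.e (nat_lit 409646) (nat_lit 18) (.e (nat_lit 303151) (nat_lit 27) .nil)))) (.g (nat_lit 0) (.e (nat_lit 290163) (nat_lit 0) .nil) .nil)))))) (.nd (nat_lit 7) (.nd (nat_lit 8) (.nd (nat_lit 9) 
(.lf (nat_lit 547930) (.g (nat_lit 2054) (.e (nat_lit 303152) (nat_lit 27) (.e (nat_lit 336226) (nat_lit 14) (.e (nat_lit 401459) (nat_lit 13) (.e (nat_lit 483354) (nat_lit 17) (.e (nat_lit 6092) (nat_lit 332) .nil))))) (.g (nat_lit 0) (.e (nat_lit 287498) (nat_lit 0) .nil) .nil))) 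
(.lf (nat_lit 548442) (.g (nat_lit 1908) (.e (nat_lit 294656) (nat_lit 2) (.e (nat_lit 90170) (nat_lit 13) (.e (nat_lit 172106) (nat_lit 10) (.e (nat_lit 434231) (nat_lit 23) .nil)))) (.g (nat_lit 0) (.e (nat_lit 289479) (nat_lit 0) .nil) .nil)))) (.nd (nat_lit 9) 
(.lf (nat_lit 548186) (.g (nat_lit 419) (.e (nat_lit 311315) (nat_lit 3) (.e (nat_lit 204861) (nat_lit 26) (.e (nat_lit 336186) (nat_lit 11) .nil))) (.g (nat_lit 0) (.e (nat_lit 288060) (nat_lit 0) .nil) .nil))) 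
(.lf (nat_lit 548698) (.g (nat_lit 3677) (.e (nat_lit 286765) (nat_lit 15) (.e (nat_lit 3304) (nat_lit 202) (.e (nat_lit 573482) (nat_lit 13) (.e (nat_lit 65619) (nat_lit 10) (.e (nat_lit 344117) (nat_lit 21) (.e (nat_lit 516106) (nat_lit 0) (.e (nat_lit 6986) (nat_lit 377) (.e (nat_lit 2782) (nat_lit 178) .nil)))))))) (.g (nat_lit 1) (.e (nat_lit 289873) (nat_lit 0) .nil) .nil))))) 
(.nd (nat_lit 8) (.nd (nat_lit 9) 
(.lf (nat_lit 548058) (.g (nat_lit 3240) (.e (nat_lit 311312) (nat_lit 2) (.e (nat_lit 196666) (nat_lit 13) (.e (nat_lit 65610) (nat_lit 10) (.e (nat_lit 344117) (nat_lit 21) (.e (nat_lit 516098) (nat_lit 0) (.e (nat_lit 6961) (nat_lit 377) (.e (nat_lit 2820) (nat_lit 181) .nil))))))) (.g (nat_lit 1) (.e (nat_lit 287753) (nat_lit 0) .nil) .nil))) 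
(.lf (nat_lit 548570) (.g (nat_lit 2156) (.e (nat_lit 286748) (nat_lit 9) (.e (nat_lit 336295) (nat_lit 15) (.e (nat_lit 3305) (nat_lit 202) (.e (nat_lit 573491) (nat_lit 15) (.e (nat_lit 81946) (nat_lit 20) .nil))))) (.g (nat_lit 0) (.e (nat_lit 289649) (nat_lit 0) .nil) .nil)))) (.nd (nat_lit 9) 
(.lf (nat_lit 548314) (.g (nat_lit 1758) (.e (nat_lit 311357) (nat_lit 28) (.e (nat_lit 344069) (nat_lit 0) (.e (nat_lit 3090) (nat_lit 191) (.e (nat_lit 483350) (nat_lit 17) (.e (nat_lit 6135) (nat_lit 332) .nil))))) (.g (nat_lit 0) (.e (nat_lit 289143) (nat_lit 0) .nil) .nil))) 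
(.lf (nat_lit 548826) (.g (nat_lit 1878) (.e (nat_lit 294927) (nat_lit 2) (.e (nat_lit 90170) (nat_lit 13) (.e (nat_lit 172113) (nat_lit 10) (.e (nat_lit 434231) (nat_lit 23) (.e (nat_lit 532525) (nat_lit 8) (.e (nat_lit 335616) (nat_lit 17) .nil)))))) (.g (nat_lit 1) (.e (nat_lit 290469) (nat_lit 0) .nil) .nil))))))) (.nd (nat_lit 6) (.nd (nat_lit 7) (.nd (nat_lit 8) (.nd (nat_lit 9) 
(.lf (nat_lit 547898) (.g (nat_lit 3809) (.e (nat_lit 303147) (nat_lit 15) (.e (nat_lit 1858) (nat_lit 124) (.e (nat_lit 557109) (nat_lit 15) (.e (nat_lit 188449) (nat_lit 22) (.e (nat_lit 196661) (nat_lit 12) .nil))))) (.g (nat_lit 0) (.e (nat_lit 287447) (nat_lit 0) .nil) .nil))) 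
(.lf (nat_lit 548410) (.g (nat_lit 3181) (.e (nat_lit 286733) (nat_lit 2) (.e (nat_lit 90170) (nat_lit 13) (.e (nat_lit 172106) (nat_lit 10) (.e (nat_lit 434231) (nat_lit 23) (.e (nat_lit 540416) (nat_lit 7) (.e (nat_lit 319533) (nat_lit 16) .nil)))))) (.g (nat_lit 1) (.e (nat_lit 289442) (nat_lit 0) .nil) .nil)))) (.nd (nat_lit 9) 
(.lf (nat_lit 548154) (.g (nat_lit 3577) (.e (nat_lit 311315) (nat_lit 3) (.e (nat_lit 204813) (nat_lit 9) (.e (nat_lit 426107) (nat_lit 1) (.e (nat_lit 164347) (nat_lit 240) (.e (nat_lit 2619) (nat_lit 164) (.e (nat_lit 172144) (nat_lit 26) (.e (nat_lit 327718) (nat_lit 19) .nil))))))) (.g (nat_lit 1) (.e (nat_lit 288000) (nat_lit 0) .nil) .nil))) 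
(.lf (nat_lit 548666) (.g (nat_lit 1043) (.e (nat_lit 286762) (nat_lit 14) (.e (nat_lit 401448) (nat_lit 10) (.e (nat_lit 434276) (nat_lit 39) .nil))) (.g (nat_lit 0) (.e (nat_lit 289823) (nat_lit 0) .nil) .nil))))) (.nd (nat_lit 8) (.nd (nat_lit 9) 
(.lf (nat_lit 548026) (.g (nat_lit 3835) (.e (nat_lit 311311) (nat_lit 2) (.e (nat_lit 196666) (nat_lit 13) (.e (nat_lit 65610) (nat_lit 10) (.e (nat_lit 344117) (nat_lit 21) (.e (nat_lit 516106) (nat_lit 0) (.e (nat_lit 7008) (nat_lit 377) (.e (nat_lit 2817) (nat_lit 181) .nil))))))) (.g (nat_lit 1) (.e (nat_lit 287673) (nat_lit 0) .nil) .nil))) 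
(.lf (nat_lit 548538) (.g (nat_lit 2628) (.e (nat_lit 286735) (nat_lit 3) (.e (nat_lit 98389) (nat_lit 33) (.e (nat_lit 491546) (nat_lit 9) (.e (nat_lit 336028) (nat_lit 3) (.e (nat_lit 98323) (nat_lit 17) (.e (nat_lit 6989) (nat_lit 377) (.e (nat_lit 2777) (nat_lit 178) .nil))))))) (.g (nat_lit 1) (.e (nat_lit 289592) (nat_lit 0) .nil) .nil)))) (.nd (nat_lit 9) 
(.lf (nat_lit 548282) (.g (nat_lit 2265) (.e (nat_lit 319232) (nat_lit 25) (.e (nat_lit 319490) (nat_lit 0) (.e (nat_lit 5664) (nat_lit 312) (.e (nat_lit 3085) (nat_lit 191) (.e (nat_lit 483376) (nat_lit 22) .nil))))) (.g (nat_lit 0) (.e (nat_lit 289090) (nat_lit 0) .nil) .nil))) 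
(.lf (nat_lit 548794) (.g (nat_lit 2077) (.e (nat_lit 286770) (nat_lit 28) (.e (nat_lit 434180) (nat_lit 0) (.e (nat_lit 1427) (nat_lit 108) (.e (nat_lit 336421) (nat_lit 28) (.e (nat_lit 434186) (nat_lit 13) .nil))))) (.g (nat_lit 0) (.e (nat_lit 290214) (nat_lit 0) .nil) .nil)))))) (.nd (nat_lit 7) (.nd (nat_lit 8) (.nd (nat_lit 9) 
(.lf (nat_lit 547962) (.g (nat_lit 2071) (.e (nat_lit 303154) (nat_lit 28) (.e (nat_lit 344068) (nat_lit 0) (.e (nat_lit 3090) (nat_lit 191) (.e (nat_lit 483350) (nat_lit 17) (.e (nat_lit 6097) (nat_lit 332) .nil))))) (.g (nat_lit 0) (.e (nat_lit 287541) (nat_lit 0) .nil) .nil))) 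
(.lf (nat_lit 548474) (.g (nat_lit 3508) (.e (nat_lit 286735) (nat_lit 3) (.e (nat_lit 98349) (nat_lit 24) (.e (nat_lit 409644) (nat_lit 18) (.e (nat_lit 303119) (nat_lit 3) (.e (nat_lit 204819) (nat_lit 17) (.e (nat_lit 6113) (nat_lit 332) (.e (nat_lit 2777) (nat_lit 178) .nil))))))) (.g (nat_lit 1) (.e (nat_lit 289522) (nat_lit 0) .nil) .nil)))) (.nd (nat_lit 9) 
(.lf (nat_lit 548218) (.g (nat_lit 633) (.e (nat_lit 311324) (nat_lit 9) (.e (nat_lit 426566) (nat_lit 34) (.e (nat_lit 393253) (nat_lit 18) .nil))) (.g (nat_lit 0) (.e (nat_lit 288309) (nat_lit 0) .nil) .nil))) 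
(.lf (nat_lit 548730) (.g (nat_lit 4201) (.e (nat_lit 286765) (nat_lit 15) (.e (nat_lit 3308) (nat_lit 202) (.e (nat_lit 573482) (nat_lit 13) (.e (nat_lit 65604) (nat_lit 9) (.e (nat_lit 336028) (nat_lit 3) (.e (nat_lit 98325) (nat_lit 17) (.e (nat_lit 6986) (nat_lit 377) (.e (nat_lit 2779) (nat_lit 178) .nil)))))))) (.g (nat_lit 1) (.e (nat_lit 289921) (nat_lit 0) .nil) .nil))))) 
(.nd (nat_lit 8) (.nd (nat_lit 9) 
(.lf (nat_lit 548090) (.g (nat_lit 1568) (.e (nat_lit 311312) (nat_lit 2) (.e (nat_lit 196672) (nat_lit 15) (.e (nat_lit 81954) (nat_lit 23) (.e (nat_lit 98320) (nat_lit 17) (.e (nat_lit 6961) (nat_lit 377) .nil))))) (.g (nat_lit 0) (.e (nat_lit 287810) (nat_lit 0) .nil) .nil))) 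
(.lf (nat_lit 548602) (.g (nat_lit 927) (.e (nat_lit 286755) (nat_lit 10) (.e (nat_lit 344154) (nat_lit 35) (.e (nat_lit 630802) (nat_lit 8) (.e (nat_lit 172082) (nat_lit 7) (.e (nat_lit 409636) (nat_lit 14) (.e (nat_lit 270373) (nat_lit 16) .nil)))))) (.g (nat_lit 1) (.e (nat_lit 289714) (nat_lit 0) .nil) .nil)))) (.nd (nat_lit 9) 
(.lf (nat_lit 548346) (.g (nat_lit 4274) (.e (nat_lit 286725) (nat_lit 0) (.e (nat_lit 1788) (nat_lit 119) (.e (nat_lit 516151) (nat_lit 9) (.e (nat_lit 426211) (nat_lit 9) (.e (nat_lit 426140) (nat_lit 3) .nil))))) (.g (nat_lit 0) (.e (nat_lit 289200) (nat_lit 0) .nil) .nil))) 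
(.lf (nat_lit 548858) (.g (nat_lit 558) (.e (nat_lit 294930) (nat_lit 3) (.e (nat_lit 98350) (nat_lit 24) (.e (nat_lit 409649) (nat_lit 18) .nil))) (.g (nat_lit 0) (.e (nat_lit 290503) (nat_lit 0) .nil) .nil)))))))))) (.nd (nat_lit 3) (.nd (nat_lit 4) (.nd (nat_lit 5) (.nd (nat_lit 6) (.nd (nat_lit 7) (.nd (nat_lit 8) (.nd (nat_lit 9) 
(.lf (nat_lit 547846) (.g (nat_lit 2487) (.e (nat_lit 303143) (nat_lit 12) (.e (nat_lit 475218) (nat_lit 44) (.e (nat_lit 737318) (nat_lit 15) (.e (nat_lit 49187) (nat_lit 11) (.e (nat_lit 16425) (nat_lit 7) (.e (nat_lit 409643) (nat_lit 18) .nil)))))) (.g (nat_lit 1) (.e (nat_lit 286963) (nat_lit 0) .nil) .nil))) 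
(.lf (nat_lit 548358) (.g (nat_lit 2422) (.e (nat_lit 286728) (nat_lit 0) (.e (nat_lit 1788) (nat_lit 119) (.e (nat_lit 516166) (nat_lit 12) (.e (nat_lit 450579) (nat_lit 5) (.e (nat_lit 532522) (nat_lit 7) .nil))))) (.g (nat_lit 0) (.e (nat_lit 289213) (nat_lit 0) .nil) .nil)))) (.nd (nat_lit 9) 
(.lf (nat_lit 548102) (.g (nat_lit 2208) (.e (nat_lit 311312) (nat_lit 2) (.e (nat_lit 196672) (nat_lit 15) (.e (nat_lit 81954) (nat_lit 23) (.e (nat_lit 98325) (nat_lit 17) (.e (nat_lit 6986) (nat_lit 377) (.e (nat_lit 7936) (nat_lit 181) .nil)))))) (.g (nat_lit 1) (.e (nat_lit 287822) (nat_lit 0) .nil) .nil))) 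
(.lf (nat_lit 548614) (.g (nat_lit 823) (.e (nat_lit 286756) (nat_lit 10) (.e (nat_lit 344138) (nat_lit 29) (.e (nat_lit 581653) (nat_lit 6) (.e (nat_lit 188428) (nat_lit 20) .nil)))) (.g (nat_lit 0) (.e (nat_lit 289744) (nat_lit 0) .nil) .nil))))) (.nd (nat_lit 8) (.nd (nat_lit 9) 
(.lf (nat_lit 547974) (.g (nat_lit 1343) (.e (nat_lit 303155) (nat_lit 29) (.e (nat_lit 360192) (nat_lit 5) (.e (nat_lit 221206) (nat_lit 21) (.e (nat_lit 164330) (nat_lit 230) (.e (nat_lit 163896) (nat_lit 10) (.e (nat_lit 417536) (nat_lit 8) .nil)))))) (.g (nat_lit 1) (.e (nat_lit 287556) (nat_lit 0) .nil) .nil))) 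
(.lf (nat_lit 548486) (.g (nat_lit 2950) (.e (nat_lit 286735) (nat_lit 3) (.e (nat_lit 98350) (nat_lit 24) (.e (nat_lit 409648) (nat_lit 18) (.e (nat_lit 303116) (nat_lit 2) (.e (nat_lit 196661) (nat_lit 12) (.e (nat_lit 57712) (nat_lit 176) (.e (nat_lit 2777) (nat_lit 178) .nil))))))) (.g (nat_lit 1) (.e (nat_lit 289534) (nat_lit 0) .nil) .nil)))) (.nd (nat_lit 9) 
(.lf (nat_lit 548230) (.g (nat_lit 508) (.e (nat_lit 311339) (nat_lit 12) (.e (nat_lit 475210) (nat_lit 41) (.e (nat_lit 712750) (nat_lit 29) .nil))) (.g (nat_lit 0) (.e (nat_lit 288411) (nat_lit 0) .nil) .nil))) 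
(.lf (nat_lit 548742) (.g (nat_lit 3821) (.e (nat_lit 286765) (nat_lit 15) (.e (nat_lit 3308) (nat_lit 202) (.e (nat_lit 573493) (nat_lit 15) (.e (nat_lit 81956) (nat_lit 23) (.e (nat_lit 98318) (nat_lit 17) (.e (nat_lit 6989) (nat_lit 377) (.e (nat_lit 2777) (nat_lit 178) .nil))))))) (.g (nat_lit 1) (.e (nat_lit 289933) (nat_lit 0) .nil) .nil)))))) 
(.nd (nat_lit 7) (.nd (nat_lit 8) (.nd (nat_lit 9) 
(.lf (nat_lit 547910) (.g (nat_lit 2405) (.e (nat_lit 311040) (nat_lit 17) (.e (nat_lit 90172) (nat_lit 14) (.e (nat_lit 180250) (nat_lit 10) (.e (nat_lit 573487) (nat_lit 14) (.e (nat_lit 73753) (nat_lit 8) .nil))))) (.g (nat_lit 0) (.e (nat_lit 287466) (nat_lit 0) .nil) .nil))) 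
(.lf (nat_lit 548422) (.g (nat_lit 2904) (.e (nat_lit 286733) (nat_lit 2) (.e (nat_lit 90176) (nat_lit 15) (.e (nat_lit 188450) (nat_lit 23) (.e (nat_lit 204846) (nat_lit 24) (.e (nat_lit 327424) (nat_lit 16) .nil))))) (.g (nat_lit 1) (.e (nat_lit 289458) (nat_lit 0) .nil) .nil)))) (.nd (nat_lit 9) 
(.lf (nat_lit 548166) (.g (nat_lit 1823) (.e (nat_lit 311315) (nat_lit 3) (.e (nat_lit 204846) (nat_lit 24) (.e (nat_lit 319532) (nat_lit 16) (.e (nat_lit 286734) (nat_lit 3) (.e (nat_lit 98352) (nat_lit 25) .nil))))) (.g (nat_lit 0) (.e (nat_lit 288032) (nat_lit 0) .nil) .nil))) 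
(.lf (nat_lit 548678) (.g (nat_lit 2252) (.e (nat_lit 286765) (nat_lit 15) (.e (nat_lit 3298) (nat_lit 202) (.e (nat_lit 573481) (nat_lit 13) (.e (nat_lit 65604) (nat_lit 9) (.e (nat_lit 336028) (nat_lit 3) (.e (nat_lit 98325) (nat_lit 17) (.e (nat_lit 6966) (nat_lit 377) (.e (nat_lit 2779) (nat_lit 178) .nil)))))))) (.g (nat_lit 1) (.e (nat_lit 289850) (nat_lit 0) .nil) .nil))))) 
(.nd (nat_lit 8) (.nd (nat_lit 9) 
(.lf (nat_lit 548038) (.g (nat_lit 2431) (.e (nat_lit 311311) (nat_lit 2) (.e (nat_lit 196672) (nat_lit 15) (.e (nat_lit 81951) (nat_lit 22) (.e (nat_lit 90165) (nat_lit 12) (.e (nat_lit 164207) (nat_lit 176) (.e (nat_lit 2815) (nat_lit 181) .nil)))))) (.g (nat_lit 1) (.e (nat_lit 287704) (nat_lit 0) .nil) .nil))) 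
(.lf (nat_lit 548550) (.g (nat_lit 440) (.e (nat_lit 286743) (nat_lit 9) (.e (nat_lit 336316) (nat_lit 17) (.e (nat_lit 204544) (nat_lit 6) .nil))) (.g (nat_lit 0) (.e (nat_lit 289614) (nat_lit 0) .nil) .nil)))) (.nd (nat_lit 9) 
(.lf (nat_lit 548294) (.g (nat_lit 1961) (.e (nat_lit 319232) (nat_lit 27) (.e (nat_lit 336235) (nat_lit 14) (.e (nat_lit 401458) (nat_lit 13) (.e (nat_lit 483372) (nat_lit 21) (.e (nat_lit 319537) (nat_lit 19) .nil))))) (.g (nat_lit 0) (.e (nat_lit 289117) (nat_lit 0) .nil) .nil))) 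
(.lf (nat_lit 548806) (.g (nat_lit 2055) (.e (nat_lit 286771) (nat_lit 29) (.e (nat_lit 442379) (nat_lit 0) (.e (nat_lit 2059) (nat_lit 142) (.e (nat_lit 704595) (nat_lit 5) (.e (nat_lit 180283) (nat_lit 45) (.e (nat_lit 2782) (nat_lit 178) .nil)))))) (.g (nat_lit 1) (.e (nat_lit 290259) (nat_lit 0) .nil) .nil))))))) (.nd (nat_lit 6) (.nd (nat_lit 7) (.nd (nat_lit 8) (.nd (nat_lit 9) 
(.lf (nat_lit 547878) (.g (nat_lit 254) (.e (nat_lit 303145) (nat_lit 13) (.e (nat_lit 483413) (nat_lit 27) (.e (nat_lit 401414) (nat_lit 0) .nil))) (.g (nat_lit 0) (.e (nat_lit 287303) (nat_lit 0) .nil) .nil))) 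
(.lf (nat_lit 548390) (.g (nat_lit 475) (.e (nat_lit 286733) (nat_lit 2) (.e (nat_lit 90134) (nat_lit 9) (.e (nat_lit 2992) (nat_lit 186) .nil))) (.g (nat_lit 0) (.e (nat_lit 289409) (nat_lit 0) .nil) .nil)))) (.nd (nat_lit 9) 
(.lf (nat_lit 548134) (.g (nat_lit 2124) (.e (nat_lit 311314) (nat_lit 3) (.e (nat_lit 204846) (nat_lit 24) (.e (nat_lit 319531) (nat_lit 16) (.e (nat_lit 286727) (nat_lit 0) (.e (nat_lit 1799) (nat_lit 119) .nil))))) (.g (nat_lit 0) (.e (nat_lit 287880) (nat_lit 0) .nil) .nil))) 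
(.lf (nat_lit 548646) (.g (nat_lit 2116) (.e (nat_lit 286759) (nat_lit 12) (.e (nat_lit 385107) (nat_lit 51) (.e (nat_lit 794680) (nat_lit 24) (.e (nat_lit 213030) (nat_lit 11) (.e (nat_lit 24617) (nat_lit 7) (.e (nat_lit 319528) (nat_lit 16) .nil)))))) (.g (nat_lit 1) (.e (nat_lit 289796) (nat_lit 0) .nil) .nil))))) (.nd (nat_lit 8) (.nd (nat_lit 9) 
(.lf (nat_lit 548006) (.g (nat_lit 2179) (.e (nat_lit 311310) (nat_lit 2) (.e (nat_lit 196666) (nat_lit 13) (.e (nat_lit 65610) (nat_lit 10) (.e (nat_lit 344117) (nat_lit 21) (.e (nat_lit 516106) (nat_lit 0) .nil))))) (.g (nat_lit 0) (.e (nat_lit 287640) (nat_lit 0) .nil) .nil))) 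
(.lf (nat_lit 548518) (.g (nat_lit 1888) (.e (nat_lit 286735) (nat_lit 3) (.e (nat_lit 98367) (nat_lit 27) (.e (nat_lit 434180) (nat_lit 0) (.e (nat_lit 1234) (nat_lit 91) (.e (nat_lit 90133) (nat_lit 9) .nil))))) (.g (nat_lit 0) (.e (nat_lit 289569) (nat_lit 0) .nil) .nil)))) (.nd (nat_lit 9) 
(.lf (nat_lit 548262) (.g (nat_lit 1304) (.e (nat_lit 311343) (nat_lit 13) (.e (nat_lit 483372) (nat_lit 21) (.e (nat_lit 319533) (nat_lit 16) (.e (nat_lit 286724) (nat_lit 0) .nil)))) (.g (nat_lit 0) (.e (nat_lit 288770) (nat_lit 0) .nil) .nil))) 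
(.lf (nat_lit 548774) (.g (nat_lit 1654) (.e (nat_lit 286768) (nat_lit 27) (.e (nat_lit 426340) (nat_lit 14) (.e (nat_lit 491549) (nat_lit 9) (.e (nat_lit 336421) (nat_lit 28) (.e (nat_lit 434186) (nat_lit 13) (.e (nat_lit 2779) (nat_lit 178) .nil)))))) (.g (nat_lit 1) (.e (nat_lit 290183) (nat_lit 0) .nil) .nil)))))) (.nd (nat_lit 7) (.nd (nat_lit 8) (.nd (nat_lit 9) 
(.lf (nat_lit 547942) (.g (nat_lit 1962) (.e (nat_lit 311040) (nat_lit 27) (.e (nat_lit 336226) (nat_lit 14) (.e (nat_lit 401437) (nat_lit 9) (.e (nat_lit 426533) (nat_lit 28) (.e (nat_lit 344075) (nat_lit 13) .nil))))) (.g (nat_lit 0) (.e (nat_lit 287514) (nat_lit 0) .nil) .nil))) 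
(.lf (nat_lit 548454) (.g (nat_lit 353) (.e (nat_lit 286734) (nat_lit 3) (.e (nat_lit 98374) (nat_lit 29) (.e (nat_lit 450575) (nat_lit 1) .nil))) (.g (nat_lit 0) (.e (nat_lit 289496) (nat_lit 0) .nil) .nil)))) (.nd (nat_lit 9) 
(.lf (nat_lit 548198) (.g (nat_lit 1291) (.e (nat_lit 311315) (nat_lit 3) (.e (nat_lit 204884) (nat_lit 33) (.e (nat_lit 401448) (nat_lit 10) (.e (nat_lit 434231) (nat_lit 23) .nil)))) (.g (nat_lit 0) (.e (nat_lit 288215) (nat_lit 0) .nil) .nil))) 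
(.lf (nat_lit 548710) (.g (nat_lit 3759) (.e (nat_lit 286765) (nat_lit 15) (.e (nat_lit 3304) (nat_lit 202) (.e (nat_lit 573485) (nat_lit 13) (.e (nat_lit 65619) (nat_lit 10) (.e (nat_lit 344117) (nat_lit 21) (.e (nat_lit 516106) (nat_lit 0) (.e (nat_lit 6986) (nat_lit 377) (.e (nat_lit 2782) (nat_lit 178) .nil)))))))) (.g (nat_lit 1) (.e (nat_lit 289885) (nat_lit 0) .nil) .nil))))) 
(.nd (nat_lit 8) (.nd (nat_lit 9) 
(.lf (nat_lit 548070) (.g (nat_lit 3237) (.e (nat_lit 311312) (nat_lit 2) (.e (nat_lit 196666) (nat_lit 13) (.e (nat_lit 65610) (nat_lit 10) (.e (nat_lit 344117) (nat_lit 21) (.e (nat_lit 516106) (nat_lit 0) (.e (nat_lit 6966) (nat_lit 377) (.e (nat_lit 2820) (nat_lit 181) .nil))))))) (.g (nat_lit 1) (.e (nat_lit 287766) (nat_lit 0) .nil) .nil))) 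
(.lf (nat_lit 548582) (.g (nat_lit 414) (.e (nat_lit 286753) (nat_lit 10) (.e (nat_lit 344160) (nat_lit 37) (.e (nat_lit 647190) (nat_lit 9) .nil))) (.g (nat_lit 0) (.e (nat_lit 289672) (nat_lit 0) .nil) .nil)))) (.nd (nat_lit 9) 
(.lf (nat_lit 548326) (.g (nat_lit 966) (.e (nat_lit 319232) (nat_lit 35) (.e (nat_lit 401454) (nat_lit 12) (.e (nat_lit 475197) (nat_lit 40) (.e (nat_lit 704595) (nat_lit 5) .nil)))) (.g (nat_lit 0) (.e (nat_lit 289165) (nat_lit 0) .nil) .nil))) 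
(.lf (nat_lit 548838) (.g (nat_lit 2148) (.e (nat_lit 294928) (nat_lit 2) (.e (nat_lit 90170) (nat_lit 13) (.e (nat_lit 172106) (nat_lit 10) (.e (nat_lit 434231) (nat_lit 23) (.e (nat_lit 532486) (nat_lit 0) .nil))))) (.g (nat_lit 0) (.e (nat_lit 290483) (nat_lit 0) .nil) .nil)))))))) (.nd (nat_lit 5) (.nd (nat_lit 6) (.nd (nat_lit 7) (.nd (nat_lit 8) (.nd (nat_lit 9) 
(.lf (nat_lit 547862) (.g (nat_lit 2615) (.e (nat_lit 303144) (nat_lit 13) (.e (nat_lit 483413) (nat_lit 27) (.e (nat_lit 401446) (nat_lit 10) (.e (nat_lit 434208) (nat_lit 18) (.e (nat_lit 6058) (nat_lit 327) (.e (nat_lit 8213) (nat_lit 9) .nil)))))) (.g (nat_lit 1) (.e (nat_lit 287044) (nat_lit 0) .nil) .nil))) 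
(.lf (nat_lit 548374) (.g (nat_lit 2135) (.e (nat_lit 286732) (nat_lit 2) (.e (nat_lit 90170) (nat_lit 13) (.e (nat_lit 172106) (nat_lit 10) (.e (nat_lit 434231) (nat_lit 23) (.e (nat_lit 532522) (nat_lit 7) (.e (nat_lit 327424) (nat_lit 16) .nil)))))) (.g (nat_lit 1) (.e (nat_lit 289366) (nat_lit 0) .nil) .nil)))) (.nd (nat_lit 9) 
(.lf (nat_lit 548118) (.g (nat_lit 1830) (.e (nat_lit 311312) (nat_lit 2) (.e (nat_lit 196674) (nat_lit 15) (.e (nat_lit 81956) (nat_lit 23) (.e (nat_lit 98349) (nat_lit 24) .nil)))) (.g (nat_lit 0) (.e (nat_lit 287846) (nat_lit 0) .nil) .nil))) 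
(.lf (nat_lit 548630) (.g (nat_lit 1888) (.e (nat_lit 286759) (nat_lit 12) (.e (nat_lit 385074) (nat_lit 31) (.e (nat_lit 573484) (nat_lit 13) (.e (nat_lit 65610) (nat_lit 10) (.e (nat_lit 344108) (nat_lit 19) .nil))))) (.g (nat_lit 0) (.e (nat_lit 289779) (nat_lit 0) .nil) .nil))))) (.nd (nat_lit 8) (.nd (nat_lit 9) 
(.lf (nat_lit 547990) (.g (nat_lit 1406) (.e (nat_lit 311040) (nat_lit 35) (.e (nat_lit 401454) (nat_lit 12) (.e (nat_lit 475204) (nat_lit 40) .nil))) (.g (nat_lit 0) (.e (nat_lit 287583) (nat_lit 0) .nil) .nil))) 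
(.lf (nat_lit 548502) (.g (nat_lit 942) (.e (nat_lit 286735) (nat_lit 3) (.e (nat_lit 98359) (nat_lit 26) (.e (nat_lit 426252) (nat_lit 9) .nil))) (.g (nat_lit 0) (.e (nat_lit 289552) (nat_lit 0) .nil) .nil)))) (.nd (nat_lit 9) 
(.lf (nat_lit 548246) (.g (nat_lit 1895) (.e (nat_lit 311342) (nat_lit 13) (.e (nat_lit 483413) (nat_lit 27) (.e (nat_lit 401448) (nat_lit 10) (.e (nat_lit 434289) (nat_lit 43) (.e (nat_lit 696325) (nat_lit 0) .nil))))) (.g (nat_lit 0) (.e (nat_lit 288660) (nat_lit 0) .nil) .nil))) 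
(.lf (nat_lit 548758) (.g (nat_lit 1939) (.e (nat_lit 294656) (nat_lit 25) (.e (nat_lit 409602) (nat_lit 0) (.e (nat_lit 5293) (nat_lit 298) (.e (nat_lit 1423) (nat_lit 108) .nil)))) (.g (nat_lit 0) (.e (nat_lit 290071) (nat_lit 0) .nil) .nil)))))) (.nd (nat_lit 7) (.nd (nat_lit 8) (.nd (nat_lit 9) 
(.lf (nat_lit 547926) (.g (nat_lit 2329) (.e (nat_lit 303151) (nat_lit 27) (.e (nat_lit 336231) (nat_lit 14) (.e (nat_lit 401458) (nat_lit 13) (.e (nat_lit 483372) (nat_lit 21) (.e (nat_lit 327424) (nat_lit 18) .nil))))) (.g (nat_lit 1) (.e (nat_lit 287493) (nat_lit 0) .nil) .nil))) 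
(.lf (nat_lit 548438) (.g (nat_lit 2459) (.e (nat_lit 286733) (nat_lit 2) (.e (nat_lit 90178) (nat_lit 15) (.e (nat_lit 188451) (nat_lit 23) (.e (nat_lit 204846) (nat_lit 24) (.e (nat_lit 327424) (nat_lit 16) .nil))))) (.g (nat_lit 1) (.e (nat_lit 289475) (nat_lit 0) .nil) .nil)))) (.nd (nat_lit 9) 
(.lf (nat_lit 548182) (.g (nat_lit 1499) (.e (nat_lit 311315) (nat_lit 3) (.e (nat_lit 204854) (nat_lit 26) (.e (nat_lit 336142) (nat_lit 9) (.e (nat_lit 336011) (nat_lit 2) .nil)))) (.g (nat_lit 0) (.e (nat_lit 288052) (nat_lit 0) .nil) .nil))) 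
(.lf (nat_lit 548694) (.g (nat_lit 2853) (.e (nat_lit 286765) (nat_lit 15) (.e (nat_lit 3304) (nat_lit 202) (.e (nat_lit 573482) (nat_lit 13) (.e (nat_lit 65604) (nat_lit 9) (.e (nat_lit 336028) (nat_lit 3) (.e (nat_lit 98325) (nat_lit 17) (.e (nat_lit 6986) (nat_lit 377) (.e (nat_lit 2779) (nat_lit 178) .nil)))))))) (.g (nat_lit 1) (.e (nat_lit 289869) (nat_lit 0) .nil) .nil))))) 
(.nd (nat_lit 8) (.nd (nat_lit 9) 
(.lf (nat_lit 548054) (.g (nat_lit 4548) (.e (nat_lit 311312) (nat_lit 2) (.e (nat_lit 196666) (nat_lit 13) (.e (nat_lit 65610) (nat_lit 10) (.e (nat_lit 344117) (nat_lit 21) (.e (nat_lit 516097) (nat_lit 0) (.e (nat_lit 7073) (nat_lit 377) (.e (nat_lit 2814) (nat_lit 181) .nil))))))) (.g (nat_lit 1) (.e (nat_lit 287749) (nat_lit 0) .nil) .nil))) 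
(.lf (nat_lit 548566) (.g (nat_lit 2502) (.e (nat_lit 286748) (nat_lit 9) (.e (nat_lit 336295) (nat_lit 15) (.e (nat_lit 3304) (nat_lit 202) (.e (nat_lit 573493) (nat_lit 15) (.e (nat_lit 81962) (nat_lit 25) .nil))))) (.g (nat_lit 0) (.e (nat_lit 289645) (nat_lit 0) .nil) .nil)))) (.nd (nat_lit 9) 
(.lf (nat_lit 548310) (.g (nat_lit 1928) (.e (nat_lit 311357) (nat_lit 28) (.e (nat_lit 344068) (nat_lit 0) (.e (nat_lit 3090) (nat_lit 191) (.e (nat_lit 483372) (nat_lit 21) (.e (nat_lit 327424) (nat_lit 19) .nil))))) (.g (nat_lit 0) (.e (nat_lit 289137) (nat_lit 0) .nil) .nil))) 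
(.lf (nat_lit 548822) (.g (nat_lit 2503) (.e (nat_lit 294927) (nat_lit 2) (.e (nat_lit 90170) (nat_lit 13) (.e (nat_lit 172106) (nat_lit 10) (.e (nat_lit 434231) (nat_lit 23) (.e (nat_lit 532486) (nat_lit 0) .nil))))) (.g (nat_lit 0) (.e (nat_lit 290465) (nat_lit 0) .nil) .nil))))))) (.nd (nat_lit 6) (.nd (nat_lit 7) (.nd (nat_lit 8) (.nd (nat_lit 9) 
(.lf (nat_lit 547894) (.g (nat_lit 2269) (.e (nat_lit 303147) (nat_lit 15) (.e (nat_lit 1858) (nat_lit 124) (.e (nat_lit 557098) (nat_lit 13) (.e (nat_lit 172115) (nat_lit 10) .nil)))) (.g (nat_lit 0) (.e (nat_lit 287443) (nat_lit 0) .nil) .nil))) 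
(.lf (nat_lit 548406) (.g (nat_lit 4568) (.e (nat_lit 286733) (nat_lit 2) (.e (nat_lit 90170) (nat_lit 13) (.e (nat_lit 172097) (nat_lit 9) (.e (nat_lit 426140) (nat_lit 3) (.e (nat_lit 204846) (nat_lit 24) (.e (nat_lit 319533) (nat_lit 16) .nil)))))) (.g (nat_lit 1) (.e (nat_lit 289438) (nat_lit 0) .nil) .nil)))) (.nd (nat_lit 9) 
(.lf (nat_lit 548150) (.g (nat_lit 2581) (.e (nat_lit 311314) (nat_lit 3) (.e (nat_lit 204885) (nat_lit 33) (.e (nat_lit 401448) (nat_lit 10) (.e (nat_lit 434231) (nat_lit 23) (.e (nat_lit 532526) (nat_lit 8) .nil))))) (.g (nat_lit 0) (.e (nat_lit 287996) (nat_lit 0) .nil) .nil))) 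
(.lf (nat_lit 548662) (.g (nat_lit 614) (.e (nat_lit 286762) (nat_lit 14) (.e (nat_lit 401446) (nat_lit 10) (.e (nat_lit 434268) (nat_lit 36) .nil))) (.g (nat_lit 0) (.e (nat_lit 289819) (nat_lit 0) .nil) .nil))))) (.nd (nat_lit 8) (.nd (nat_lit 9) 
(.lf (nat_lit 548022) (.g (nat_lit 3040) (.e (nat_lit 311311) (nat_lit 2) (.e (nat_lit 196666) (nat_lit 13) (.e (nat_lit 65610) (nat_lit 10) (.e (nat_lit 344117) (nat_lit 21) (.e (nat_lit 516106) (nat_lit 0) (.e (nat_lit 6966) (nat_lit 377) (.e (nat_lit 2813) (nat_lit 181) .nil))))))) (.g (nat_lit 1) (.e (nat_lit 287669) (nat_lit 0) .nil) .nil))) 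
(.lf (nat_lit 548534) (.g (nat_lit 1779) (.e (nat_lit 286735) (nat_lit 3) (.e (nat_lit 98381) (nat_lit 31) (.e (nat_lit 466981) (nat_lit 23) (.e (nat_lit 204845) (nat_lit 24) (.e (nat_lit 327424) (nat_lit 16) .nil))))) (.g (nat_lit 1) (.e (nat_lit 289588) (nat_lit 0) .nil) .nil)))) (.nd (nat_lit 9) 
(.lf (nat_lit 548278) (.g (nat_lit 2535) (.e (nat_lit 311348) (nat_lit 15) (.e (nat_lit 1858) (nat_lit 124) (.e (nat_lit 557100) (nat_lit 13) (.e (nat_lit 172113) (nat_lit 10) .nil)))) (.g (nat_lit 0) (.e (nat_lit 289084) (nat_lit 0) .nil) .nil))) 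
(.lf (nat_lit 548790) (.g (nat_lit 1917) (.e (nat_lit 294656) (nat_lit 27) (.e (nat_lit 426347) (nat_lit 14) (.e (nat_lit 491549) (nat_lit 9) (.e (nat_lit 336421) (nat_lit 28) (.e (nat_lit 434186) (nat_lit 13) .nil))))) (.g (nat_lit 0) (.e (nat_lit 290203) (nat_lit 0) .nil) .nil)))))) (.nd (nat_lit 7) (.nd (nat_lit 8) (.nd (nat_lit 9) 
(.lf (nat_lit 547958) (.g (nat_lit 2829) (.e (nat_lit 311040) (nat_lit 27) (.e (nat_lit 336235) (nat_lit 14) (.e (nat_lit 401459) (nat_lit 13) (.e (nat_lit 483372) (nat_lit 21) (.e (nat_lit 327424) (nat_lit 18) .nil))))) (.g (nat_lit 0) (.e (nat_lit 287535) (nat_lit 0) .nil) .nil))) 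
(.lf (nat_lit 548470) (.g (nat_lit 3800) (.e (nat_lit 286735) (nat_lit 3) (.e (nat_lit 98323) (nat_lit 17) (.e (nat_lit 6989) (nat_lit 377) (.e (nat_lit 1076) (nat_lit 81) (.e (nat_lit 5664) (nat_lit 312) (.e (nat_lit 2679) (nat_lit 168) (.e (nat_lit 204846) (nat_lit 24) (.e (nat_lit 319528) (nat_lit 16) .nil)))))))) (.g (nat_lit 1) (.e (nat_lit 289515) (nat_lit 0) .nil) .nil)))) (.nd (nat_lit 9) 
(.lf (nat_lit 548214) (.g (nat_lit 2003) (.e (nat_lit 311324) (nat_lit 9) (.e (nat_lit 426131) (nat_lit 3) (.e (nat_lit 204846) (nat_lit 24) (.e (nat_lit 319534) (nat_lit 16) (.e (nat_lit 286728) (nat_lit 0) .nil))))) (.g (nat_lit 0) (.e (nat_lit 288277) (nat_lit 0) .nil) .nil))) 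
(.lf (nat_lit 548726) (.g (nat_lit 4779) (.e (nat_lit 286765) (nat_lit 15) (.e (nat_lit 3307) (nat_lit 202) (.e (nat_lit 573493) (nat_lit 15) (.e (nat_lit 81956) (nat_lit 23) (.e (nat_lit 98325) (nat_lit 17) (.e (nat_lit 6986) (nat_lit 377) (.e (nat_lit 2781) (nat_lit 178) .nil))))))) (.g (nat_lit 1) (.e (nat_lit 289914) (nat_lit 0) .nil) .nil))))) (.nd (nat_lit 8) (.nd (nat_lit 9) 
(.lf (nat_lit 548086) (.g (nat_lit 1900) (.e (nat_lit 311312) (nat_lit 2) (.e (nat_lit 196672) (nat_lit 15) (.e (nat_lit 81953) (nat_lit 22) (.e (nat_lit 90165) (nat_lit 12) (.e (nat_lit 164207) (nat_lit 176) .nil))))) (.g (nat_lit 0) (.e (nat_lit 287805) (nat_lit 0) .nil) .nil))) 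
(.lf (nat_lit 548598) (.g (nat_lit 840) (.e (nat_lit 286755) (nat_lit 10) (.e (nat_lit 344138) (nat_lit 29) (.e (nat_lit 581653) (nat_lit 6) (.e (nat_lit 188428) (nat_lit 20) .nil)))) (.g (nat_lit 0) (.e (nat_lit 289709) (nat_lit 0) .nil) .nil)))) (.nd (nat_lit 9) 
(.lf (nat_lit 548342) (.g (nat_lit 4289) (.e (nat_lit 286723) (nat_lit 0) (.e (nat_lit 1788) (nat_lit 119) (.e (nat_lit 516151) (nat_lit 9) (.e (nat_lit 426211) (nat_lit 9) (.e (nat_lit 426140) (nat_lit 3) .nil))))) (.g (nat_lit 0) (.e (nat_lit 289189) (nat_lit 0) .nil) .nil))) 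
(.lf (nat_lit 548854) (.g (nat_lit 2138) (.e (nat_lit 294928) (nat_lit 2) (.e (nat_lit 90176) (nat_lit 15) (.e (nat_lit 188450) (nat_lit 23) (.e (nat_lit 204849) (nat_lit 25) (.e (nat_lit 335616) (nat_lit 17) .nil))))) (.g (nat_lit 1) (.e (nat_lit 290499) (nat_lit 0) .nil) .nil))))))))) (.nd (nat_lit 4) (.nd (nat_lit 5) (.nd (nat_lit 6) (.nd (nat_lit 7) (.nd (nat_lit 8) (.nd (nat_lit 9) 
(.lf (nat_lit 547854) (.g (nat_lit 902) (.e (nat_lit 303144) (nat_lit 13) (.e (nat_lit 483344) (nat_lit 17) (.e (nat_lit 6718) (nat_lit 361) (.e (nat_lit 172144) (nat_lit 26) .nil)))) (.g (nat_lit 0) (.e (nat_lit 286977) (nat_lit 0) .nil) .nil))) 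
(.lf (nat_lit 548366) (.g (nat_lit 1134) (.e (nat_lit 286732) (nat_lit 2) (.e (nat_lit 90170) (nat_lit 13) (.e (nat_lit 172085) (nat_lit 9) (.e (nat_lit 426140) (nat_lit 3) .nil)))) (.g (nat_lit 0) (.e (nat_lit 289358) (nat_lit 0) .nil) .nil)))) (.nd (nat_lit 9) 
(.lf (nat_lit 548110) (.g (nat_lit 2100) (.e (nat_lit 311312) (nat_lit 2) (.e (nat_lit 196673) (nat_lit 15) (.e (nat_lit 81956) (nat_lit 23) (.e (nat_lit 98352) (nat_lit 25) (.e (nat_lit 417830) (nat_lit 19) .nil))))) (.g (nat_lit 0) (.e (nat_lit 287832) (nat_lit 0) .nil) .nil))) 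
(.lf (nat_lit 548622) (.g (nat_lit 2302) (.e (nat_lit 286756) (nat_lit 10) (.e (nat_lit 344160) (nat_lit 37) (.e (nat_lit 647200) (nat_lit 12) (.e (nat_lit 57575) (nat_lit 55) (.e (nat_lit 778464) (nat_lit 11) .nil))))) (.g (nat_lit 0) (.e (nat_lit 289754) (nat_lit 0) .nil) .nil))))) (.nd (nat_lit 8) (.nd (nat_lit 9) 
(.lf (nat_lit 547982) (.g (nat_lit 663) (.e (nat_lit 311040) (nat_lit 35) (.e (nat_lit 401454) (nat_lit 12) (.e (nat_lit 475198) (nat_lit 40) .nil))) (.g (nat_lit 0) (.e (nat_lit 287575) (nat_lit 0) .nil) .nil))) 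
(.lf (nat_lit 548494) (.g (nat_lit 3593) (.e (nat_lit 286735) (nat_lit 3) (.e (nat_lit 98356) (nat_lit 26) (.e (nat_lit 426241) (nat_lit 9) (.e (nat_lit 426139) (nat_lit 3) (.e (nat_lit 204846) (nat_lit 24) (.e (nat_lit 327424) (nat_lit 16) .nil)))))) (.g (nat_lit 1) (.e (nat_lit 289543) (nat_lit 0) .nil) .nil)))) (.nd (nat_lit 9) 
(.lf (nat_lit 548238) (.g (nat_lit 2366) (.e (nat_lit 311341) (nat_lit 13) (.e (nat_lit 483413) (nat_lit 27) (.e (nat_lit 401448) (nat_lit 10) (.e (nat_lit 434286) (nat_lit 42) .nil)))) (.g (nat_lit 0) (.e (nat_lit 288518) (nat_lit 0) .nil) .nil))) 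
(.lf (nat_lit 548750) (.g (nat_lit 2265) (.e (nat_lit 286764) (nat_lit 15) (.e (nat_lit 3304) (nat_lit 202) (.e (nat_lit 573482) (nat_lit 13) (.e (nat_lit 65619) (nat_lit 10) (.e (nat_lit 344117) (nat_lit 21) (.e (nat_lit 516106) (nat_lit 0) (.e (nat_lit 6986) (nat_lit 377) (.e (nat_lit 2781) (nat_lit 178) .nil)))))))) (.g (nat_lit 1) (.e (nat_lit 289985) (nat_lit 0) .nil) .nil)))))) 
(.nd (nat_lit 7) (.nd (nat_lit 8) (.nd (nat_lit 9) 
(.lf (nat_lit 547918) (.g (nat_lit 1439) (.e (nat_lit 311040) (nat_lit 18) (.e (nat_lit 98367) (nat_lit 27) (.e (nat_lit 434247) (nat_lit 28) (.e (nat_lit 573487) (nat_lit 14) .nil)))) (.g (nat_lit 0) (.e (nat_lit 287474) (nat_lit 0) .nil) .nil))) 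
(.lf (nat_lit 548430) (.g (nat_lit 3108) (.e (nat_lit 286733) (nat_lit 2) (.e (nat_lit 90177) (nat_lit 15) (.e (nat_lit 188452) (nat_lit 23) (.e (nat_lit 204846) (nat_lit 24) (.e (nat_lit 327424) (nat_lit 16) .nil))))) (.g (nat_lit 1) (.e (nat_lit 289466) (nat_lit 0) .nil) .nil)))) (.nd (nat_lit 9) 
(.lf (nat_lit 548174) (.g (nat_lit 2216) (.e (nat_lit 311315) (nat_lit 3) (.e (nat_lit 204846) (nat_lit 24) (.e (nat_lit 319534) (nat_lit 16) (.e (nat_lit 286728) (nat_lit 0) (.e (nat_lit 1799) (nat_lit 119) .nil))))) (.g (nat_lit 0) (.e (nat_lit 288040) (nat_lit 0) .nil) .nil))) 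
(.lf (nat_lit 548686) (.g (nat_lit 2910) (.e (nat_lit 286765) (nat_lit 15) (.e (nat_lit 3298) (nat_lit 202) (.e (nat_lit 573493) (nat_lit 15) (.e (nat_lit 81956) (nat_lit 23) (.e (nat_lit 98325) (nat_lit 17) (.e (nat_lit 6966) (nat_lit 377) (.e (nat_lit 2779) (nat_lit 178) .nil))))))) (.g (nat_lit 1) (.e (nat_lit 289861) (nat_lit 0) .nil) .nil))))) (.nd (nat_lit 8) (.nd (nat_lit 9) 
(.lf (nat_lit 548046) (.g (nat_lit 1682) (.e (nat_lit 311311) (nat_lit 2) (.e (nat_lit 196673) (nat_lit 15) (.e (nat_lit 81956) (nat_lit 23) (.e (nat_lit 98352) (nat_lit 25) .nil)))) (.g (nat_lit 0) (.e (nat_lit 287713) (nat_lit 0) .nil) .nil))) 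
(.lf (nat_lit 548558) (.g (nat_lit 683) (.e (nat_lit 286747) (nat_lit 9) (.e (nat_lit 335997) (nat_lit 1) (.e (nat_lit 57857) (nat_lit 254) (.e (nat_lit 163908) (nat_lit 12) (.e (nat_lit 426170) (nat_lit 7) .nil))))) (.g (nat_lit 0) (.e (nat_lit 289626) (nat_lit 0) .nil) .nil)))) (.nd (nat_lit 9) 
(.lf (nat_lit 548302) (.g (nat_lit 673) (.e (nat_lit 311357) (nat_lit 28) (.e (nat_lit 344068) (nat_lit 0) (.e (nat_lit 3090) (nat_lit 191) (.e (nat_lit 483350) (nat_lit 17) .nil)))) (.g (nat_lit 0) (.e (nat_lit 289129) (nat_lit 0) .nil) .nil))) 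
(.lf (nat_lit 548814) (.g (nat_lit 780) (.e (nat_lit 294925) (nat_lit 1) (.e (nat_lit 57687) (nat_lit 156) (.e (nat_lit 163933) (nat_lit 17) (.e (nat_lit 466954) (nat_lit 11) .nil)))) (.g (nat_lit 0) (.e (nat_lit 290448) (nat_lit 0) .nil) .nil))))))) (.nd (nat_lit 6) (.nd (nat_lit 7) (.nd (nat_lit 8) (.nd (nat_lit 9) 
(.lf (nat_lit 547886) (.g (nat_lit 1471) (.e (nat_lit 303146) (nat_lit 14) (.e (nat_lit 491565) (nat_lit 12) (.e (nat_lit 385116) (nat_lit 54) (.e (nat_lit 819237) (nat_lit 11) (.e (nat_lit 16425) (nat_lit 7) .nil))))) (.g (nat_lit 0) (.e (nat_lit 287406) (nat_lit 0) .nil) .nil))) 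
(.lf (nat_lit 548398) (.g (nat_lit 1278) (.e (nat_lit 286733) (nat_lit 2) (.e (nat_lit 90167) (nat_lit 13) (.e (nat_lit 172126) (nat_lit 14) (.e (nat_lit 491539) (nat_lit 3) .nil)))) (.g (nat_lit 0) (.e (nat_lit 289428) (nat_lit 0) .nil) .nil)))) (.nd (nat_lit 9) 
(.lf (nat_lit 548142) (.g (nat_lit 2109) (.e (nat_lit 311314) (nat_lit 3) (.e (nat_lit 204868) (nat_lit 29) (.e (nat_lit 360466) (nat_lit 3) (.e (nat_lit 516141) (nat_lit 8) (.e (nat_lit 425728) (nat_lit 19) .nil))))) (.g (nat_lit 1) (.e (nat_lit 287922) (nat_lit 0) .nil) .nil))) 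
(.lf (nat_lit 548654) (.g (nat_lit 1852) (.e (nat_lit 286761) (nat_lit 13) (.e (nat_lit 393251) (nat_lit 18) (.e (nat_lit 164179) (nat_lit 154) (.e (nat_lit 57432) (nat_lit 16) .nil)))) (.g (nat_lit 0) (.e (nat_lit 289804) (nat_lit 0) .nil) .nil))))) (.nd (nat_lit 8) (.nd (nat_lit 9) 
(.lf (nat_lit 548014) (.g (nat_lit 1660) (.e (nat_lit 311311) (nat_lit 2) (.e (nat_lit 196666) (nat_lit 13) (.e (nat_lit 65610) (nat_lit 10) (.e (nat_lit 344117) (nat_lit 21) .nil)))) (.g (nat_lit 0) (.e (nat_lit 287661) (nat_lit 0) .nil) .nil))) 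
(.lf (nat_lit 548526) (.g (nat_lit 3456) (.e (nat_lit 286735) (nat_lit 3) (.e (nat_lit 98369) (nat_lit 28) (.e (nat_lit 442427) (nat_lit 23) (.e (nat_lit 204846) (nat_lit 24) (.e (nat_lit 319532) (nat_lit 16) .nil))))) (.g (nat_lit 1) (.e (nat_lit 289578) (nat_lit 0) .nil) .nil)))) (.nd (nat_lit 9) 
(.lf (nat_lit 548270) (.g (nat_lit 2211) (.e (nat_lit 311343) (nat_lit 13) (.e (nat_lit 483372) (nat_lit 21) (.e (nat_lit 319534) (nat_lit 16) (.e (nat_lit 286728) (nat_lit 0) (.e (nat_lit 1015) (nat_lit 81) .nil))))) (.g (nat_lit 0) (.e (nat_lit 288795) (nat_lit 0) .nil) .nil))) 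
(.lf (nat_lit 548782) (.g (nat_lit 2289) (.e (nat_lit 286768) (nat_lit 27) (.e (nat_lit 426340) (nat_lit 14) (.e (nat_lit 491571) (nat_lit 13) (.e (nat_lit 393259) (nat_lit 21) (.e (nat_lit 417536) (nat_lit 16) .nil))))) (.g (nat_lit 0) (.e (nat_lit 290191) (nat_lit 0) .nil) .nil)))))) (.nd (nat_lit 7) (.nd (nat_lit 8) (.nd (nat_lit 9) 
(.lf (nat_lit 547950) (.g (nat_lit 2153) (.e (nat_lit 311040) (nat_lit 27) (.e (nat_lit 336235) (nat_lit 14) (.e (nat_lit 401457) (nat_lit 13) (.e (nat_lit 483350) (nat_lit 17) .nil)))) (.g (nat_lit 0) (.e (nat_lit 287527) (nat_lit 0) .nil) .nil))) 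
(.lf (nat_lit 548462) (.g (nat_lit 3022) (.e (nat_lit 286735) (nat_lit 3) (.e (nat_lit 98323) (nat_lit 17) (.e (nat_lit 6989) (nat_lit 377) (.e (nat_lit 2777) (nat_lit 178) (.e (nat_lit 286735) (nat_lit 3) (.e (nat_lit 98323) (nat_lit 17) (.e (nat_lit 6989) (nat_lit 377) (.e (nat_lit 2779) (nat_lit 178) .nil)))))))) (.g (nat_lit 1) (.e (nat_lit 289507) (nat_lit 0) .nil) .nil)))) (.nd (nat_lit 9) 
(.lf (nat_lit 548206) (.g (nat_lit 3302) (.e (nat_lit 311321) (nat_lit 9) (.e (nat_lit 426140) (nat_lit 3) (.e (nat_lit 204846) (nat_lit 24) (.e (nat_lit 319533) (nat_lit 16) (.e (nat_lit 286724) (nat_lit 0) .nil))))) (.g (nat_lit 0) (.e (nat_lit 288234) (nat_lit 0) .nil) .nil))) 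
(.lf (nat_lit 548718) (.g (nat_lit 3865) (.e (nat_lit 286765) (nat_lit 15) (.e (nat_lit 3307) (nat_lit 202) (.e (nat_lit 573491) (nat_lit 15) (.e (nat_lit 81954) (nat_lit 23) (.e (nat_lit 98325) (nat_lit 17) (.e (nat_lit 6986) (nat_lit 377) (.e (nat_lit 2781) (nat_lit 178) .nil))))))) (.g (nat_lit 1) (.e (nat_lit 289906) (nat_lit 0) .nil) .nil))))) (.nd (nat_lit 8) (.nd (nat_lit 9) 
(.lf (nat_lit 548078) (.g (nat_lit 3218) (.e (nat_lit 311312) (nat_lit 2) (.e (nat_lit 196666) (nat_lit 13) (.e (nat_lit 65610) (nat_lit 10) (.e (nat_lit 344117) (nat_lit 21) (.e (nat_lit 516106) (nat_lit 0) (.e (nat_lit 7936) (nat_lit 377) (.e (nat_lit 2818) (nat_lit 181) .nil))))))) (.g (nat_lit 1) (.e (nat_lit 287774) (nat_lit 0) .nil) .nil))) 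
(.lf (nat_lit 548590) (.g (nat_lit 4599) (.e (nat_lit 286753) (nat_lit 10) (.e (nat_lit 344160) (nat_lit 37) (.e (nat_lit 647201) (nat_lit 12) (.e (nat_lit 57575) (nat_lit 55) (.e (nat_lit 778464) (nat_lit 11) (.e (nat_lit 24617) (nat_lit 7) (.e (nat_lit 319533) (nat_lit 16) .nil))))))) (.g (nat_lit 1) (.e (nat_lit 289680) (nat_lit 0) .nil) .nil)))) (.nd (nat_lit 9) 
(.lf (nat_lit 548334) (.g (nat_lit 2562) (.e (nat_lit 286720) (nat_lit 0) (.e (nat_lit 1788) (nat_lit 119) (.e (nat_lit 516151) (nat_lit 9) (.e (nat_lit 426275) (nat_lit 10) .nil)))) (.g (nat_lit 0) (.e (nat_lit 289173) (nat_lit 0) .nil) .nil))) 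
(.lf (nat_lit 548846) (.g (nat_lit 2092) (.e (nat_lit 294928) (nat_lit 2) (.e (nat_lit 90175) (nat_lit 15) (.e (nat_lit 188449) (nat_lit 22) (.e (nat_lit 196626) (nat_lit 9) .nil)))) (.g (nat_lit 0) (.e (nat_lit 290491) (nat_lit 0) .nil) .nil)))))))) (.nd (nat_lit 5) (.nd (nat_lit 6) (.nd (nat_lit 7) (.nd (nat_lit 8) (.nd (nat_lit 9) 
(.lf (nat_lit 547870) (.g (nat_lit 291) (.e (nat_lit 303145) (nat_lit 13) (.e (nat_lit 483375) (nat_lit 22) (.e (nat_lit 335616) (nat_lit 18) .nil))) (.g (nat_lit 0) (.e (nat_lit 287141) (nat_lit 0) .nil) .nil))) 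
(.lf (nat_lit 548382) (.g (nat_lit 897) (.e (nat_lit 286732) (nat_lit 2) (.e (nat_lit 90174) (nat_lit 14) (.e (nat_lit 180288) (nat_lit 45) .nil))) (.g (nat_lit 0) (.e (nat_lit 289374) (nat_lit 0) .nil) .nil)))) (.nd (nat_lit 9) 
(.lf (nat_lit 548126) (.g (nat_lit 1316) (.e (nat_lit 311314) (nat_lit 3) (.e (nat_lit 204845) (nat_lit 24) (.e (nat_lit 319538) (nat_lit 19) (.e (nat_lit 311315) (nat_lit 3) .nil)))) (.g (nat_lit 0) (.e (nat_lit 287868) (nat_lit 0) .nil) .nil))) 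
(.lf (nat_lit 548638) (.g (nat_lit 2668) (.e (nat_lit 286759) (nat_lit 12) (.e (nat_lit 385094) (nat_lit 49) (.e (nat_lit 778326) (nat_lit 6) (.e (nat_lit 81957) (nat_lit 24) (.e (nat_lit 130816) (nat_lit 279) (.e (nat_lit 8303) (nat_lit 58) .nil)))))) (.g (nat_lit 1) (.e (nat_lit 289788) (nat_lit 0) .nil) .nil))))) (.nd (nat_lit 8) (.nd (nat_lit 9) 
(.lf (nat_lit 547998) (.g (nat_lit 1454) (.e (nat_lit 311040) (nat_lit 35) (.e (nat_lit 401454) (nat_lit 12) (.e (nat_lit 475210) (nat_lit 41) (.e (nat_lit 712743) (nat_lit 27) .nil)))) (.g (nat_lit 0) (.e (nat_lit 287592) (nat_lit 0) .nil) .nil))) 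
(.lf (nat_lit 548510) (.g (nat_lit 4103) (.e (nat_lit 286735) (nat_lit 3) (.e (nat_lit 98365) (nat_lit 26) (.e (nat_lit 426188) (nat_lit 9) (.e (nat_lit 426131) (nat_lit 3) (.e (nat_lit 204846) (nat_lit 24) (.e (nat_lit 319530) (nat_lit 16) .nil)))))) (.g (nat_lit 1) (.e (nat_lit 289561) (nat_lit 0) .nil) .nil)))) (.nd (nat_lit 9) 
(.lf (nat_lit 548254) (.g (nat_lit 3222) (.e (nat_lit 311343) (nat_lit 13) (.e (nat_lit 483341) (nat_lit 9) (.e (nat_lit 426107) (nat_lit 1) (.e (nat_lit 164348) (nat_lit 240) .nil)))) (.g (nat_lit 0) (.e (nat_lit 288676) (nat_lit 0) .nil) .nil))) 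
(.lf (nat_lit 548766) (.g (nat_lit 3798) (.e (nat_lit 286768) (nat_lit 27) (.e (nat_lit 426338) (nat_lit 14) (.e (nat_lit 491571) (nat_lit 13) (.e (nat_lit 393238) (nat_lit 17) (.e (nat_lit 6989) (nat_lit 377) (.e (nat_lit 2779) (nat_lit 178) .nil)))))) (.g (nat_lit 1) (.e (nat_lit 290174) (nat_lit 0) .nil) .nil)))))) (.nd (nat_lit 7) (.nd (nat_lit 8) (.nd (nat_lit 9) 
(.lf (nat_lit 547934) (.g (nat_lit 1565) (.e (nat_lit 303152) (nat_lit 27) (.e (nat_lit 336227) (nat_lit 14) (.e (nat_lit 401458) (nat_lit 13) (.e (nat_lit 483350) (nat_lit 17) (.e (nat_lit 6113) (nat_lit 332) .nil))))) (.g (nat_lit 0) (.e (nat_lit 287502) (nat_lit 0) .nil) .nil))) 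
(.lf (nat_lit 548446) (.g (nat_lit 2327) (.e (nat_lit 286734) (nat_lit 3) (.e (nat_lit 98359) (nat_lit 26) (.e (nat_lit 426211) (nat_lit 9) (.e (nat_lit 426125) (nat_lit 2) (.e (nat_lit 204544) (nat_lit 18) (.e (nat_lit 2758) (nat_lit 176) (.e (nat_lit 270372) (nat_lit 16) .nil))))))) (.g (nat_lit 1) (.e (nat_lit 289485) (nat_lit 0) .nil) .nil)))) (.nd (nat_lit 9) 
(.lf (nat_lit 548190) (.g (nat_lit 380) (.e (nat_lit 311315) (nat_lit 3) (.e (nat_lit 204868) (nat_lit 29) (.e (nat_lit 360466) (nat_lit 3) .nil))) (.g (nat_lit 0) (.e (nat_lit 288073) (nat_lit 0) .nil) .nil))) 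
(.lf (nat_lit 548702) (.g (nat_lit 2401) (.e (nat_lit 286765) (nat_lit 15) (.e (nat_lit 3304) (nat_lit 202) (.e (nat_lit 573485) (nat_lit 13) (.e (nat_lit 65604) (nat_lit 9) (.e (nat_lit 336013) (nat_lit 2) (.e (nat_lit 90165) (nat_lit 12) (.e (nat_lit 164208) (nat_lit 176) (.e (nat_lit 2782) (nat_lit 178) .nil)))))))) (.g (nat_lit 1) (.e (nat_lit 289877) (nat_lit 0) .nil) .nil))))) 
(.nd (nat_lit 8) (.nd (nat_lit 9) 
(.lf (nat_lit 548062) (.g (nat_lit 2587) (.e (nat_lit 311312) (nat_lit 2) (.e (nat_lit 196666) (nat_lit 13) (.e (nat_lit 65610) (nat_lit 10) (.e (nat_lit 344117) (nat_lit 21) (.e (nat_lit 516102) (nat_lit 0) (.e (nat_lit 6968) (nat_lit 377) (.e (nat_lit 2813) (nat_lit 181) .nil))))))) (.g (nat_lit 1) (.e (nat_lit 287758) (nat_lit 0) .nil) .nil))) 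
(.lf (nat_lit 548574) (.g (nat_lit 699) (.e (nat_lit 286752) (nat_lit 10) (.e (nat_lit 344169) (nat_lit 40) (.e (nat_lit 671780) (nat_lit 12) .nil))) (.g (nat_lit 0) (.e (nat_lit 289654) (nat_lit 0) .nil) .nil)))) (.nd (nat_lit 9) 
(.lf (nat_lit 548318) (.g (nat_lit 1650) (.e (nat_lit 311357) (nat_lit 28) (.e (nat_lit 344069) (nat_lit 0) (.e (nat_lit 3090) (nat_lit 191) (.e (nat_lit 483372) (nat_lit 21) (.e (nat_lit 327424) (nat_lit 19) .nil))))) (.g (nat_lit 0) (.e (nat_lit 289147) (nat_lit 0) .nil) .nil))) 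
(.lf (nat_lit 548830) (.g (nat_lit 1209) (.e (nat_lit 294927) (nat_lit 2) (.e (nat_lit 90176) (nat_lit 15) (.e (nat_lit 188450) (nat_lit 23) (.e (nat_lit 204819) (nat_lit 17) .nil)))) (.g (nat_lit 0) (.e (nat_lit 290473) (nat_lit 0) .nil) .nil))))))) (.nd (nat_lit 6) (.nd (nat_lit 7) (.nd (nat_lit 8) (.nd (nat_lit 9) 
(.lf (nat_lit 547902) (.g (nat_lit 4384) (.e (nat_lit 303147) (nat_lit 15) (.e (nat_lit 1858) (nat_lit 124) (.e (nat_lit 557109) (nat_lit 15) (.e (nat_lit 188452) (nat_lit 23) (.e (nat_lit 204846) (nat_lit 24) .nil))))) (.g (nat_lit 0) (.e (nat_lit 287451) (nat_lit 0) .nil) .nil))) 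
(.lf (nat_lit 548414) (.g (nat_lit 4190) (.e (nat_lit 286733) (nat_lit 2) (.e (nat_lit 90170) (nat_lit 13) (.e (nat_lit 172115) (nat_lit 10) (.e (nat_lit 434231) (nat_lit 23) (.e (nat_lit 532526) (nat_lit 8) (.e (nat_lit 327716) (nat_lit 16) .nil)))))) (.g (nat_lit 1) (.e (nat_lit 289446) (nat_lit 0) .nil) .nil)))) (.nd (nat_lit 9) 
(.lf (nat_lit 548158) (.g (nat_lit 1539) (.e (nat_lit 311315) (nat_lit 3) (.e (nat_lit 204846) (nat_lit 24) (.e (nat_lit 319504) (nat_lit 10) (.e (nat_lit 5714) (nat_lit 312) .nil)))) (.g (nat_lit 0) (.e (nat_lit 288007) (nat_lit 0) .nil) .nil))) 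
(.lf (nat_lit 548670) (.g (nat_lit 2216) (.e (nat_lit 286765) (nat_lit 15) (.e (nat_lit 3295) (nat_lit 202) (.e (nat_lit 573485) (nat_lit 13) (.e (nat_lit 65604) (nat_lit 9) (.e (nat_lit 336013) (nat_lit 2) (.e (nat_lit 90165) (nat_lit 12) (.e (nat_lit 164208) (nat_lit 176) (.e (nat_lit 2781) (nat_lit 178) .nil)))))))) (.g (nat_lit 1) (.e (nat_lit 289830) (nat_lit 0) .nil) .nil))))) 
(.nd (nat_lit 8) (.nd (nat_lit 9) 
(.lf (nat_lit 548030) (.g (nat_lit 2672) (.e (nat_lit 311311) (nat_lit 2) (.e (nat_lit 196666) (nat_lit 13) (.e (nat_lit 65610) (nat_lit 10) (.e (nat_lit 344117) (nat_lit 21) (.e (nat_lit 516106) (nat_lit 0) (.e (nat_lit 7936) (nat_lit 377) (.e (nat_lit 2815) (nat_lit 181) .nil))))))) (.g (nat_lit 1) (.e (nat_lit 287677) (nat_lit 0) .nil) .nil))) 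
(.lf (nat_lit 548542) (.g (nat_lit 620) (.e (nat_lit 286739) (nat_lit 7) (.e (nat_lit 319531) (nat_lit 16) (.e (nat_lit 286728) (nat_lit 0) .nil))) (.g (nat_lit 0) (.e (nat_lit 289598) (nat_lit 0) .nil) .nil)))) (.nd (nat_lit 9) 
(.lf (nat_lit 548286) (.g (nat_lit 1723) (.e (nat_lit 311352) (nat_lit 27) (.e (nat_lit 336226) (nat_lit 14) (.e (nat_lit 401459) (nat_lit 13) (.e (nat_lit 483371) (nat_lit 21) .nil)))) (.g (nat_lit 0) (.e (nat_lit 289094) (nat_lit 0) .nil) .nil))) 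
(.lf (nat_lit 548798) (.g (nat_lit 1922) (.e (nat_lit 286770) (nat_lit 28) (.e (nat_lit 434181) (nat_lit 0) (.e (nat_lit 1427) (nat_lit 108) (.e (nat_lit 336421) (nat_lit 28) (.e (nat_lit 434187) (nat_lit 13) (.e (nat_lit 2781) (nat_lit 178) .nil)))))) (.g (nat_lit 1) (.e (nat_lit 290218) (nat_lit 0) .nil) .nil)))))) (.nd (nat_lit 7) (.nd (nat_lit 8) (.nd (nat_lit 9) 
(.lf (nat_lit 547966) (.g (nat_lit 2272) (.e (nat_lit 303154) (nat_lit 28) (.e (nat_lit 344069) (nat_lit 0) (.e (nat_lit 3090) (nat_lit 191) (.e (nat_lit 483350) (nat_lit 17) (.e (nat_lit 6092) (nat_lit 332) .nil))))) (.g (nat_lit 0) (.e (nat_lit 287546) (nat_lit 0) .nil) .nil))) 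
(.lf (nat_lit 548478) (.g (nat_lit 2690) (.e (nat_lit 286735) (nat_lit 3) (.e (nat_lit 98349) (nat_lit 24) (.e (nat_lit 409646) (nat_lit 18) (.e (nat_lit 303117) (nat_lit 2) (.e (nat_lit 196661) (nat_lit 12) .nil))))) (.g (nat_lit 0) (.e (nat_lit 289526) (nat_lit 0) .nil) .nil)))) (.nd (nat_lit 9) 
(.lf (nat_lit 548222) (.g (nat_lit 2262) (.e (nat_lit 311325) (nat_lit 9) (.e (nat_lit 426131) (nat_lit 3) (.e (nat_lit 204846) (nat_lit 24) (.e (nat_lit 319533) (nat_lit 16) (.e (nat_lit 286724) (nat_lit 0) .nil))))) (.g (nat_lit 0) (.e (nat_lit 288316) (nat_lit 0) .nil) .nil))) 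
(.lf (nat_lit 548734) (.g (nat_lit 3004) (.e (nat_lit 286765) (nat_lit 15) (.e (nat_lit 3308) (nat_lit 202) (.e (nat_lit 573493) (nat_lit 15) (.e (nat_lit 81951) (nat_lit 22) (.e (nat_lit 90165) (nat_lit 12) (.e (nat_lit 164208) (nat_lit 176) (.e (nat_lit 2779) (nat_lit 178) .nil))))))) (.g (nat_lit 1) (.e (nat_lit 289925) (nat_lit 0) .nil) .nil))))) (.nd (nat_lit 8) (.nd (nat_lit 9) 
(.lf (nat_lit 548094) (.g (nat_lit 1708) (.e (nat_lit 311312) (nat_lit 2) (.e (nat_lit 196672) (nat_lit 15) (.e (nat_lit 81954) (nat_lit 23) (.e (nat_lit 98323) (nat_lit 17) (.e (nat_lit 6970) (nat_lit 377) .nil))))) (.g (nat_lit 0) (.e (nat_lit 287814) (nat_lit 0) .nil) .nil))) 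
(.lf (nat_lit 548606) (.g (nat_lit 1110) (.e (nat_lit 286755) (nat_lit 10) (.e (nat_lit 344157) (nat_lit 36) (.e (nat_lit 638999) (nat_lit 8) (.e (nat_lit 172080) (nat_lit 7) (.e (nat_lit 409638) (nat_lit 15) (.e (nat_lit 278566) (nat_lit 16) .nil)))))) (.g (nat_lit 1) (.e (nat_lit 289725) (nat_lit 0) .nil) .nil)))) (.nd (nat_lit 9) 
(.lf (nat_lit 548350) (.g (nat_lit 4036) (.e (nat_lit 286728) (nat_lit 0) (.e (nat_lit 1788) (nat_lit 119) (.e (nat_lit 516151) (nat_lit 9) (.e (nat_lit 426211) (nat_lit 9) (.e (nat_lit 426125) (nat_lit 2) .nil))))) (.g (nat_lit 0) (.e (nat_lit 289205) (nat_lit 0) .nil) .nil))) 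
(.lf (nat_lit 548862) (.g (nat_lit 2503) (.e (nat_lit 294931) (nat_lit 3) (.e (nat_lit 98389) (nat_lit 33) (.e (nat_lit 491558) (nat_lit 10) (.e (nat_lit 344117) (nat_lit 21) (.e (nat_lit 516138) (nat_lit 7) .nil))))) (.g (nat_lit 0) (.e (nat_lit 290510) (nat_lit 0) .nil) .nil)))))))))))) 
(.nd (nat_lit 1) (.nd (nat_lit 2) (.nd (nat_lit 3) (.nd (nat_lit 4) (.nd (nat_lit 5) 
(.nd (nat_lit 6) (.nd (nat_lit 7) (.nd (nat_lit 8) (.nd (nat_lit 9) 
(.lf (nat_lit 547841) (.g (nat_lit 3199) (.e (nat_lit 303143) (nat_lit 12) (.e (nat_lit 475212) (nat_lit 42) (.e (nat_lit 720955) (nat_lit 25) (.e (nat_lit 114698) (nat_lit 11) (.e (nat_lit 426179) (nat_lit 8) (.e (nat_lit 417828) (nat_lit 18) .nil)))))) (.g (nat_lit 1) (.e (nat_lit 286955) (nat_lit 0) .nil) .nil))) 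
(.lf (nat_lit 548353) (.g (nat_lit 3978) (.e (nat_lit 286728) (nat_lit 0) (.e (nat_lit 1788) (nat_lit 119) (.e (nat_lit 516151) (nat_lit 9) (.e (nat_lit 426211) (nat_lit 9) (.e (nat_lit 426140) (nat_lit 3) .nil))))) (.g (nat_lit 0) (.e (nat_lit 289208) (nat_lit 0) .nil) .nil)))) (.nd (nat_lit 9) 
(.lf (nat_lit 548097) (.g (nat_lit 1050) (.e (nat_lit 311312) (nat_lit 2) (.e (nat_lit 196672) (nat_lit 15) (.e (nat_lit 81954) (nat_lit 23) (.e (nat_lit 98325) (nat_lit 17) .nil)))) (.g (nat_lit 0) (.e (nat_lit 287817) (nat_lit 0) .nil) .nil))) 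
(.lf (nat_lit 548609) (.g (nat_lit 1466) (.e (nat_lit 286755) (nat_lit 10) (.e (nat_lit 344157) (nat_lit 36) (.e (nat_lit 638999) (nat_lit 8) (.e (nat_lit 172082) (nat_lit 7) (.e (nat_lit 409638) (nat_lit 15) (.e (nat_lit 278566) (nat_lit 16) .nil)))))) (.g (nat_lit 1) (.e (nat_lit 289730) (nat_lit 0) .nil) .nil))))) (.nd (nat_lit 8) (.nd (nat_lit 9) 
(.lf (nat_lit 547969) (.g (nat_lit 1981) (.e (nat_lit 303154) (nat_lit 28) (.e (nat_lit 344069) (nat_lit 0) (.e (nat_lit 3090) (nat_lit 191) (.e (nat_lit 483350) (nat_lit 17) (.e (nat_lit 6113) (nat_lit 332) .nil))))) (.g (nat_lit 0) (.e (nat_lit 287549) (nat_lit 0) .nil) .nil))) 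
(.lf (nat_lit 548481) (.g (nat_lit 3547) (.e (nat_lit 286735) (nat_lit 3) (.e (nat_lit 98349) (nat_lit 24) (.e (nat_lit 409646) (nat_lit 18) (.e (nat_lit 303119) (nat_lit 3) (.e (nat_lit 204821) (nat_lit 17) (.e (nat_lit 6114) (nat_lit 332) (.e (nat_lit 2779) (nat_lit 178) .nil))))))) (.g (nat_lit 1) (.e (nat_lit 289529) (nat_lit 0) .nil) .nil)))) (.nd (nat_lit 9) 
(.lf (nat_lit 548225) (.g (nat_lit 1076) (.e (nat_lit 311337) (nat_lit 12) (.e (nat_lit 475214) (nat_lit 42) (.e (nat_lit 720912) (nat_lit 20) .nil))) (.g (nat_lit 0) (.e (nat_lit 288387) (nat_lit 0) .nil) .nil))) 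
(.lf (nat_lit 548737) (.g (nat_lit 3269) (.e (nat_lit 286765) (nat_lit 15) (.e (nat_lit 3308) (nat_lit 202) (.e (nat_lit 573493) (nat_lit 15) (.e (nat_lit 81953) (nat_lit 22) (.e (nat_lit 90165) (nat_lit 12) (.e (nat_lit 164208) (nat_lit 176) (.e (nat_lit 2782) (nat_lit 178) .nil))))))) (.g (nat_lit 1) (.e (nat_lit 289928) (nat_lit 0) .nil) .nil)))))) 
(.nd (nat_lit 7) (.nd (nat_lit 8) (.nd (nat_lit 9) 
(.lf (nat_lit 547905) (.g (nat_lit 1555) (.e (nat_lit 311040) (nat_lit 15) (.e (nat_lit 1859) (nat_lit 124) (.e (nat_lit 557107) (nat_lit 15) (.e (nat_lit 188447) (nat_lit 22) (.e (nat_lit 196661) (nat_lit 12) .nil))))) (.g (nat_lit 0) (.e (nat_lit 287461) (nat_lit 0) .nil) .nil))) 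
(.lf (nat_lit 548417) (.g (nat_lit 1497) (.e (nat_lit 286733) (nat_lit 2) (.e (nat_lit 90172) (nat_lit 14) (.e (nat_lit 180285) (nat_lit 45) (.e (nat_lit 2571) (nat_lit 160) .nil)))) (.g (nat_lit 0) (.e (nat_lit 289449) (nat_lit 0) .nil) .nil)))) (.nd (nat_lit 9) 
(.lf (nat_lit 548161) (.g (nat_lit 5932) (.e (nat_lit 311315) (nat_lit 3) (.e (nat_lit 204846) (nat_lit 24) (.e (nat_lit 319538) (nat_lit 19) (.e (nat_lit 311315) (nat_lit 3) (.e (nat_lit 204846) (nat_lit 24) (.e (nat_lit 319538) (nat_lit 19) .nil)))))) (.g (nat_lit 1) (.e (nat_lit 288025) (nat_lit 0) .nil) .nil))) 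
(.lf (nat_lit 548673) (.g (nat_lit 2287) (.e (nat_lit 286765) (nat_lit 15) (.e (nat_lit 3296) (nat_lit 202) (.e (nat_lit 573482) (nat_lit 13) (.e (nat_lit 65604) (nat_lit 9) (.e (nat_lit 336013) (nat_lit 2) (.e (nat_lit 90165) (nat_lit 12) (.e (nat_lit 164208) (nat_lit 176) (.e (nat_lit 2782) (nat_lit 178) .nil)))))))) (.g (nat_lit 1) (.e (nat_lit 289837) (nat_lit 0) .nil) .nil))))) 
(.nd (nat_lit 8) (.nd (nat_lit 9) 
(.lf (nat_lit 548033) (.g (nat_lit 1835) (.e (nat_lit 311311) (nat_lit 2) (.e (nat_lit 196666) (nat_lit 13) (.e (nat_lit 65617) (nat_lit 10) (.e (nat_lit 344117) (nat_lit 21) (.e (nat_lit 516098) (nat_lit 0) .nil))))) (.g (nat_lit 0) (.e (nat_lit 287681) (nat_lit 0) .nil) .nil))) 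
(.lf (nat_lit 548545) (.g (nat_lit 280) (.e (nat_lit 286740) (nat_lit 7) (.e (nat_lit 319526) (nat_lit 15) (.e (nat_lit 278547) (nat_lit 8) (.e (nat_lit 303124) (nat_lit 7) .nil)))) (.g (nat_lit 0) (.e (nat_lit 289604) (nat_lit 0) .nil) .nil)))) (.nd (nat_lit 9) 
(.lf (nat_lit 548289) (.g (nat_lit 2827) (.e (nat_lit 311353) (nat_lit 27) (.e (nat_lit 336228) (nat_lit 14) (.e (nat_lit 401456) (nat_lit 13) (.e (nat_lit 483371) (nat_lit 21) (.e (nat_lit 319539) (nat_lit 19) .nil))))) (.g (nat_lit 1) (.e (nat_lit 289103) (nat_lit 0) .nil) .nil))) 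
(.lf (nat_lit 548801) (.g (nat_lit 1830) (.e (nat_lit 286770) (nat_lit 28) (.e (nat_lit 434181) (nat_lit 0) (.e (nat_lit 1428) (nat_lit 108) (.e (nat_lit 336421) (nat_lit 28) (.e (nat_lit 434187) (nat_lit 13) (.e (nat_lit 2782) (nat_lit 178) .nil)))))) (.g (nat_lit 1) (.e (nat_lit 290221) (nat_lit 0) .nil) .nil))))))) (.nd (nat_lit 6) (.nd (nat_lit 7) (.nd (nat_lit 8) (.nd (nat_lit 9) 
(.lf (nat_lit 547873) (.g (nat_lit 313) (.e (nat_lit 303145) (nat_lit 13) (.e (nat_lit 483396) (nat_lit 24) (.e (nat_lit 344161) (nat_lit 37) .nil))) (.g (nat_lit 0) (.e (nat_lit 287205) (nat_lit 0) .nil) .nil))) 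
(.lf (nat_lit 548385) (.g (nat_lit 596) (.e (nat_lit 286732) (nat_lit 2) (.e (nat_lit 90176) (nat_lit 15) (.e (nat_lit 196352) (nat_lit 23) .nil))) (.g (nat_lit 0) (.e (nat_lit 289390) (nat_lit 0) .nil) .nil)))) (.nd (nat_lit 9) 
(.lf (nat_lit 548129) (.g (nat_lit 1811) (.e (nat_lit 311314) (nat_lit 3) (.e (nat_lit 204846) (nat_lit 24) (.e (nat_lit 319538) (nat_lit 19) (.e (nat_lit 311315) (nat_lit 3) .nil)))) (.g (nat_lit 0) (.e (nat_lit 287875) (nat_lit 0) .nil) .nil))) 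
(.lf (nat_lit 548641) (.g (nat_lit 610) (.e (nat_lit 286759) (nat_lit 12) (.e (nat_lit 385094) (nat_lit 49) (.e (nat_lit 778348) (nat_lit 9) .nil))) (.g (nat_lit 0) (.e (nat_lit 289791) (nat_lit 0) .nil) .nil))))) (.nd (nat_lit 8) (.nd (nat_lit 9) 
(.lf (nat_lit 548001) (.g (nat_lit 1120) (.e (nat_lit 311040) (nat_lit 35) (.e (nat_lit 401460) (nat_lit 14) (.e (nat_lit 491570) (nat_lit 13) (.e (nat_lit 393260) (nat_lit 21) .nil)))) (.g (nat_lit 0) (.e (nat_lit 287595) (nat_lit 0) .nil) .nil))) 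
(.lf (nat_lit 548513) (.g (nat_lit 3501) (.e (nat_lit 286735) (nat_lit 3) (.e (nat_lit 98365) (nat_lit 26) (.e (nat_lit 426200) (nat_lit 9) (.e (nat_lit 426131) (nat_lit 3) (.e (nat_lit 204846) (nat_lit 24) (.e (nat_lit 319528) (nat_lit 16) .nil)))))) (.g (nat_lit 1) (.e (nat_lit 289564) (nat_lit 0) .nil) .nil)))) (.nd (nat_lit 9) 
(.lf (nat_lit 548257) (.g (nat_lit 1617) (.e (nat_lit 311343) (nat_lit 13) (.e (nat_lit 483372) (nat_lit 21) (.e (nat_lit 319505) (nat_lit 10) (.e (nat_lit 5714) (nat_lit 312) .nil)))) (.g (nat_lit 0) (.e (nat_lit 288694) (nat_lit 0) .nil) .nil))) 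
(.lf (nat_lit 548769) (.g (nat_lit 2120) (.e (nat_lit 286768) (nat_lit 27) (.e (nat_lit 426339) (nat_lit 14) (.e (nat_lit 491571) (nat_lit 13) (.e (nat_lit 393238) (nat_lit 17) (.e (nat_lit 6989) (nat_lit 377) .nil))))) (.g (nat_lit 0) (.e (nat_lit 290177) (nat_lit 0) .nil) .nil)))))) (.nd (nat_lit 7) (.nd (nat_lit 8) (.nd (nat_lit 9) 
(.lf (nat_lit 547937) (.g (nat_lit 1150) (.e (nat_lit 303152) (nat_lit 27) (.e (nat_lit 336228) (nat_lit 14) (.e (nat_lit 401458) (nat_lit 13) (.e (nat_lit 483342) (nat_lit 17) .nil)))) (.g (nat_lit 0) (.e (nat_lit 287506) (nat_lit 0) .nil) .nil))) 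
(.lf (nat_lit 548449) (.g (nat_lit 552) (.e (nat_lit 286734) (nat_lit 3) (.e (nat_lit 98365) (nat_lit 26) (.e (nat_lit 426187) (nat_lit 9) .nil))) (.g (nat_lit 0) (.e (nat_lit 289489) (nat_lit 0) .nil) .nil)))) (.nd (nat_lit 9) 
(.lf (nat_lit 548193) (.g (nat_lit 1641) (.e (nat_lit 311315) (nat_lit 3) (.e (nat_lit 204868) (nat_lit 29) (.e (nat_lit 360466) (nat_lit 3) (.e (nat_lit 516106) (nat_lit 0) .nil)))) (.g (nat_lit 0) (.e (nat_lit 288086) (nat_lit 0) .nil) .nil))) 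
(.lf (nat_lit 548705) (.g (nat_lit 2837) (.e (nat_lit 286765) (nat_lit 15) (.e (nat_lit 3304) (nat_lit 202) (.e (nat_lit 573485) (nat_lit 13) (.e (nat_lit 65619) (nat_lit 10) (.e (nat_lit 344117) (nat_lit 21) (.e (nat_lit 516102) (nat_lit 0) (.e (nat_lit 6989) (nat_lit 377) (.e (nat_lit 2777) (nat_lit 178) .nil)))))))) (.g (nat_lit 1) (.e (nat_lit 289880) (nat_lit 0) .nil) .nil))))) 
(.nd (nat_lit 8) (.nd (nat_lit 9) 
(.lf (nat_lit 548065) (.g (nat_lit 2076) (.e (nat_lit 311312) (nat_lit 2) (.e (nat_lit 196666) (nat_lit 13) (.e (nat_lit 65610) (nat_lit 10) (.e (nat_lit 344117) (nat_lit 21) (.e (nat_lit 516106) (nat_lit 0) .nil))))) (.g (nat_lit 0) (.e (nat_lit 287761) (nat_lit 0) .nil) .nil))) 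
(.lf (nat_lit 548577) (.g (nat_lit 1948) (.e (nat_lit 286753) (nat_lit 10) (.e (nat_lit 344138) (nat_lit 29) (.e (nat_lit 581653) (nat_lit 6) (.e (nat_lit 188431) (nat_lit 20) (.e (nat_lit 3572) (nat_lit 222) (.e (nat_lit 737299) (nat_lit 7) .nil)))))) (.g (nat_lit 1) (.e (nat_lit 289662) (nat_lit 0) .nil) .nil)))) (.nd (nat_lit 9) 
(.lf (nat_lit 548321) (.g (nat_lit 1928) (.e (nat_lit 319232) (nat_lit 29) (.e (nat_lit 352262) (nat_lit 0) (.e (nat_lit 3632) (nat_lit 227) (.e (nat_lit 778323) (nat_lit 5) (.e (nat_lit 73789) (nat_lit 45) .nil))))) (.g (nat_lit 0) (.e (nat_lit 289157) (nat_lit 0) .nil) .nil))) 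
(.lf (nat_lit 548833) (.g (nat_lit 2830) (.e (nat_lit 294927) (nat_lit 2) (.e (nat_lit 90176) (nat_lit 15) (.e (nat_lit 188452) (nat_lit 23) (.e (nat_lit 204816) (nat_lit 17) .nil)))) (.g (nat_lit 0) (.e (nat_lit 290476) (nat_lit 0) .nil) .nil)))))))) (.nd (nat_lit 5) (.nd (nat_lit 6) (.nd (nat_lit 7) (.nd (nat_lit 8) (.nd (nat_lit 9) 
(.lf (nat_lit 547857) (.g (nat_lit 915) (.e (nat_lit 303144) (nat_lit 13) (.e (nat_lit 483408) (nat_lit 26) (.e (nat_lit 385114) (nat_lit 53) .nil))) (.g (nat_lit 0) (.e (nat_lit 287010) (nat_lit 0) .nil) .nil))) 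
(.lf (nat_lit 548369) (.g (nat_lit 3019) (.e (nat_lit 286732) (nat_lit 2) (.e (nat_lit 90170) (nat_lit 13) (.e (nat_lit 172106) (nat_lit 10) (.e (nat_lit 434231) (nat_lit 23) (.e (nat_lit 532481) (nat_lit 0) .nil))))) (.g (nat_lit 0) (.e (nat_lit 289361) (nat_lit 0) .nil) .nil)))) (.nd (nat_lit 9) 
(.lf (nat_lit 548113) (.g (nat_lit 1494) (.e (nat_lit 311312) (nat_lit 2) (.e (nat_lit 196674) (nat_lit 15) (.e (nat_lit 81953) (nat_lit 22) (.e (nat_lit 90165) (nat_lit 12) .nil)))) (.g (nat_lit 0) (.e (nat_lit 287839) (nat_lit 0) .nil) .nil))) 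
(.lf (nat_lit 548625) (.g (nat_lit 4822) (.e (nat_lit 286756) (nat_lit 10) (.e (nat_lit 344160) (nat_lit 37) (.e (nat_lit 647201) (nat_lit 12) (.e (nat_lit 57575) (nat_lit 55) (.e (nat_lit 778466) (nat_lit 11) (.e (nat_lit 24617) (nat_lit 7) (.e (nat_lit 319534) (nat_lit 16) .nil))))))) (.g (nat_lit 1) (.e (nat_lit 289757) (nat_lit 0) .nil) .nil))))) (.nd (nat_lit 8) (.nd (nat_lit 9) 
(.lf (nat_lit 547985) (.g (nat_lit 2053) (.e (nat_lit 311040) (nat_lit 35) (.e (nat_lit 401454) (nat_lit 12) (.e (nat_lit 475198) (nat_lit 40) (.e (nat_lit 704595) (nat_lit 5) (.e (nat_lit 180285) (nat_lit 45) .nil))))) (.g (nat_lit 0) (.e (nat_lit 287578) (nat_lit 0) .nil) .nil))) 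
(.lf (nat_lit 548497) (.g (nat_lit 3782) (.e (nat_lit 286735) (nat_lit 3) (.e (nat_lit 98356) (nat_lit 26) (.e (nat_lit 426270) (nat_lit 9) (.e (nat_lit 426139) (nat_lit 3) (.e (nat_lit 204846) (nat_lit 24) (.e (nat_lit 327424) (nat_lit 16) .nil)))))) (.g (nat_lit 1) (.e (nat_lit 289546) (nat_lit 0) .nil) .nil)))) (.nd (nat_lit 9) 
(.lf (nat_lit 548241) (.g (nat_lit 2107) (.e (nat_lit 311342) (nat_lit 13) (.e (nat_lit 483413) (nat_lit 27) (.e (nat_lit 401447) (nat_lit 10) (.e (nat_lit 434289) (nat_lit 43) .nil)))) (.g (nat_lit 0) (.e (nat_lit 288632) (nat_lit 0) .nil) .nil))) 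
(.lf (nat_lit 548753) (.g (nat_lit 1572) (.e (nat_lit 294656) (nat_lit 18) (.e (nat_lit 204863) (nat_lit 27) (.e (nat_lit 344127) (nat_lit 26) (.e (nat_lit 557104) (nat_lit 14) (.e (nat_lit 180252) (nat_lit 10) .nil))))) (.g (nat_lit 0) (.e (nat_lit 290053) (nat_lit 0) .nil) .nil)))))) (.nd (nat_lit 7) (.nd (nat_lit 8) (.nd (nat_lit 9) 
(.lf (nat_lit 547921) (.g (nat_lit 2829) (.e (nat_lit 311040) (nat_lit 26) (.e (nat_lit 327699) (nat_lit 8) (.e (nat_lit 303145) (nat_lit 13) (.e (nat_lit 483377) (nat_lit 22) (.e (nat_lit 335616) (nat_lit 18) .nil))))) (.g (nat_lit 0) (.e (nat_lit 287478) (nat_lit 0) .nil) .nil))) 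
(.lf (nat_lit 548433) (.g (nat_lit 3006) (.e (nat_lit 286733) (nat_lit 2) (.e (nat_lit 90178) (nat_lit 15) (.e (nat_lit 188440) (nat_lit 20) (.e (nat_lit 3238) (nat_lit 197) (.e (nat_lit 532523) (nat_lit 7) (.e (nat_lit 327424) (nat_lit 16) .nil)))))) (.g (nat_lit 1) (.e (nat_lit 289469) (nat_lit 0) .nil) .nil)))) (.nd (nat_lit 9) 
(.lf (nat_lit 548177) (.g (nat_lit 1842) (.e (nat_lit 311315) (nat_lit 3) (.e (nat_lit 204846) (nat_lit 24) (.e (nat_lit 319534) (nat_lit 16) (.e (nat_lit 286728) (nat_lit 0) (.e (nat_lit 1842) (nat_lit 123) .nil))))) (.g (nat_lit 0) (.e (nat_lit 288043) (nat_lit 0) .nil) .nil))) 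
(.lf (nat_lit 548689) (.g (nat_lit 4035) (.e (nat_lit 286765) (nat_lit 15) (.e (nat_lit 3298) (nat_lit 202) (.e (nat_lit 573493) (nat_lit 15) (.e (nat_lit 81956) (nat_lit 23) (.e (nat_lit 98325) (nat_lit 17) (.e (nat_lit 6986) (nat_lit 377) (.e (nat_lit 2782) (nat_lit 178) .nil))))))) (.g (nat_lit 1) (.e (nat_lit 289864) (nat_lit 0) .nil) .nil))))) (.nd (nat_lit 8) (.nd (nat_lit 9) 
(.lf (nat_lit 548049) (.g (nat_lit 264) (.e (nat_lit 311312) (nat_lit 2) (.e (nat_lit 196628) (nat_lit 9) (.e (nat_lit 968) (nat_lit 81) .nil))) (.g (nat_lit 0) (.e (nat_lit 287733) (nat_lit 0) .nil) .nil))) 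
(.lf (nat_lit 548561) (.g (nat_lit 4191) (.e (nat_lit 286747) (nat_lit 9) (.e (nat_lit 336013) (nat_lit 2) (.e (nat_lit 90144) (nat_lit 9) (.e (nat_lit 3102) (nat_lit 192) (.e (nat_lit 491560) (nat_lit 10) (.e (nat_lit 344115) (nat_lit 20) (.e (nat_lit 507923) (nat_lit 6) .nil))))))) (.g (nat_lit 1) (.e (nat_lit 289631) (nat_lit 0) .nil) .nil)))) (.nd (nat_lit 9) 
(.lf (nat_lit 548305) (.g (nat_lit 1867) (.e (nat_lit 311357) (nat_lit 28) (.e (nat_lit 344068) (nat_lit 0) (.e (nat_lit 3090) (nat_lit 191) (.e (nat_lit 483350) (nat_lit 17) (.e (nat_lit 6135) (nat_lit 332) .nil))))) (.g (nat_lit 0) (.e (nat_lit 289132) (nat_lit 0) .nil) .nil))) 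
(.lf (nat_lit 548817) (.g (nat_lit 2131) (.e (nat_lit 294925) (nat_lit 1) (.e (nat_lit 57931) (nat_lit 282) (.e (nat_lit 163943) (nat_lit 19) (.e (nat_lit 483396) (nat_lit 24) (.e (nat_lit 344133) (nat_lit 26) .nil))))) (.g (nat_lit 0) (.e (nat_lit 290460) (nat_lit 0) .nil) .nil))))))) (.nd (nat_lit 6) (.nd (nat_lit 7) (.nd (nat_lit 8) (.nd (nat_lit 9) 
(.lf (nat_lit 547889) (.g (nat_lit 4101) (.e (nat_lit 303146) (nat_lit 14) (.e (nat_lit 491569) (nat_lit 13) (.e (nat_lit 393283) (nat_lit 24) (.e (nat_lit 434275) (nat_lit 39) (.e (nat_lit 663589) (nat_lit 14) (.e (nat_lit 2808) (nat_lit 180) .nil)))))) (.g (nat_lit 1) (.e (nat_lit 287414) (nat_lit 0) .nil) .nil))) 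
(.lf (nat_lit 548401) (.g (nat_lit 1025) (.e (nat_lit 286733) (nat_lit 2) (.e (nat_lit 90170) (nat_lit 13) (.e (nat_lit 172079) (nat_lit 7) .nil))) (.g (nat_lit 0) (.e (nat_lit 289433) (nat_lit 0) .nil) .nil)))) (.nd (nat_lit 9) 
(.lf (nat_lit 548145) (.g (nat_lit 1518) (.e (nat_lit 311314) (nat_lit 3) (.e (nat_lit 204868) (nat_lit 29) (.e (nat_lit 360467) (nat_lit 3) (.e (nat_lit 516142) (nat_lit 8) .nil)))) (.g (nat_lit 0) (.e (nat_lit 287925) (nat_lit 0) .nil) .nil))) 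
(.lf (nat_lit 548657) (.g (nat_lit 2556) (.e (nat_lit 286761) (nat_lit 13) (.e (nat_lit 393282) (nat_lit 24) (.e (nat_lit 434275) (nat_lit 39) (.e (nat_lit 663589) (nat_lit 14) (.e (nat_lit 2768) (nat_lit 177) (.e (nat_lit 278566) (nat_lit 16) .nil)))))) (.g (nat_lit 1) (.e (nat_lit 289807) (nat_lit 0) .nil) .nil))))) (.nd (nat_lit 8) (.nd (nat_lit 9) 
(.lf (nat_lit 548017) (.g (nat_lit 4012) (.e (nat_lit 311311) (nat_lit 2) (.e (nat_lit 196666) (nat_lit 13) (.e (nat_lit 65610) (nat_lit 10) (.e (nat_lit 344117) (nat_lit 21) (.e (nat_lit 516097) (nat_lit 0) (.e (nat_lit 7073) (nat_lit 377) (.e (nat_lit 2814) (nat_lit 181) .nil))))))) (.g (nat_lit 1) (.e (nat_lit 287664) (nat_lit 0) .nil) .nil))) 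
(.lf (nat_lit 548529) (.g (nat_lit 3696) (.e (nat_lit 286735) (nat_lit 3) (.e (nat_lit 98370) (nat_lit 28) (.e (nat_lit 442426) (nat_lit 23) (.e (nat_lit 204846) (nat_lit 24) (.e (nat_lit 319534) (nat_lit 16) .nil))))) (.g (nat_lit 1) (.e (nat_lit 289581) (nat_lit 0) .nil) .nil)))) (.nd (nat_lit 9) 
(.lf (nat_lit 548273) (.g (nat_lit 1484) (.e (nat_lit 311344) (nat_lit 13) (.e (nat_lit 483372) (nat_lit 21) (.e (nat_lit 319533) (nat_lit 16) (.e (nat_lit 286724) (nat_lit 0) .nil)))) (.g (nat_lit 0) (.e (nat_lit 288986) (nat_lit 0) .nil) .nil))) 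
(.lf (nat_lit 548785) (.g (nat_lit 1039) (.e (nat_lit 294656) (nat_lit 27) (.e (nat_lit 426340) (nat_lit 14) (.e (nat_lit 491571) (nat_lit 13) (.e (nat_lit 393242) (nat_lit 17) .nil)))) (.g (nat_lit 0) (.e (nat_lit 290197) (nat_lit 0) .nil) .nil)))))) (.nd (nat_lit 7) (.nd (nat_lit 8) (.nd (nat_lit 9) 
(.lf (nat_lit 547953) (.g (nat_lit 2230) (.e (nat_lit 311040) (nat_lit 27) (.e (nat_lit 336235) (nat_lit 14) (.e (nat_lit 401458) (nat_lit 13) (.e (nat_lit 483372) (nat_lit 21) (.e (nat_lit 327424) (nat_lit 18) .nil))))) (.g (nat_lit 0) (.e (nat_lit 287530) (nat_lit 0) .nil) .nil))) 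
(.lf (nat_lit 548465) (.g (nat_lit 3729) (.e (nat_lit 286735) (nat_lit 3) (.e (nat_lit 98323) (nat_lit 17) (.e (nat_lit 6989) (nat_lit 377) (.e (nat_lit 2777) (nat_lit 178) (.e (nat_lit 286735) (nat_lit 3) (.e (nat_lit 98350) (nat_lit 24) (.e (nat_lit 417536) (nat_lit 16) .nil))))))) (.g (nat_lit 1) (.e (nat_lit 289510) (nat_lit 0) .nil) .nil)))) (.nd (nat_lit 9) 
(.lf (nat_lit 548209) (.g (nat_lit 2256) (.e (nat_lit 311322) (nat_lit 9) (.e (nat_lit 426509) (nat_lit 27) (.e (nat_lit 336228) (nat_lit 14) (.e (nat_lit 401454) (nat_lit 12) (.e (nat_lit 475144) (nat_lit 16) (.e (nat_lit 2820) (nat_lit 181) .nil)))))) (.g (nat_lit 1) (.e (nat_lit 288241) (nat_lit 0) .nil) .nil))) 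
(.lf (nat_lit 548721) (.g (nat_lit 4410) (.e (nat_lit 286765) (nat_lit 15) (.e (nat_lit 3307) (nat_lit 202) (.e (nat_lit 573493) (nat_lit 15) (.e (nat_lit 81953) (nat_lit 22) (.e (nat_lit 90165) (nat_lit 12) (.e (nat_lit 164208) (nat_lit 176) (.e (nat_lit 2781) (nat_lit 178) .nil))))))) (.g (nat_lit 1) (.e (nat_lit 289909) (nat_lit 0) .nil) .nil))))) (.nd (nat_lit 8) (.nd (nat_lit 9) 
(.lf (nat_lit 548081) (.g (nat_lit 2234) (.e (nat_lit 311312) (nat_lit 2) (.e (nat_lit 196666) (nat_lit 13) (.e (nat_lit 65619) (nat_lit 10) (.e (nat_lit 344117) (nat_lit 21) (.e (nat_lit 516138) (nat_lit 7) .nil))))) (.g (nat_lit 0) (.e (nat_lit 287788) (nat_lit 0) .nil) .nil))) 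
(.lf (nat_lit 548593) (.g (nat_lit 3090) (.e (nat_lit 286753) (nat_lit 10) (.e (nat_lit 344179) (nat_lit 44) (.e (nat_lit 778465) (nat_lit 11) (.e (nat_lit 24662) (nat_lit 14) (.e (nat_lit 409344) (nat_lit 25) (.e (nat_lit 319533) (nat_lit 16) .nil)))))) (.g (nat_lit 1) (.e (nat_lit 289683) (nat_lit 0) .nil) .nil)))) (.nd (nat_lit 9) 
(.lf (nat_lit 548337) (.g (nat_lit 1756) (.e (nat_lit 286720) (nat_lit 0) (.e (nat_lit 1788) (nat_lit 119) (.e (nat_lit 516166) (nat_lit 12) (.e (nat_lit 450578) (nat_lit 5) .nil)))) (.g (nat_lit 0) (.e (nat_lit 289176) (nat_lit 0) .nil) .nil))) 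
(.lf (nat_lit 548849) (.g (nat_lit 1722) (.e (nat_lit 294928) (nat_lit 2) (.e (nat_lit 90176) (nat_lit 15) (.e (nat_lit 188450) (nat_lit 23) (.e (nat_lit 204814) (nat_lit 17) .nil)))) (.g (nat_lit 0) (.e (nat_lit 290494) (nat_lit 0) .nil) .nil))))))))) (.nd (nat_lit 4) (.nd (nat_lit 5) (.nd (nat_lit 6) (.nd (nat_lit 7) (.nd (nat_lit 8) (.nd (nat_lit 9) 
(.lf (nat_lit 547849) (.g (nat_lit 2800) (.e (nat_lit 303143) (nat_lit 12) (.e (nat_lit 475218) (nat_lit 44) (.e (nat_lit 737318) (nat_lit 15) (.e (nat_lit 49189) (nat_lit 11) (.e (nat_lit 16425) (nat_lit 7) (.e (nat_lit 409649) (nat_lit 18) .nil)))))) (.g (nat_lit 1) (.e (nat_lit 286966) (nat_lit 0) .nil) .nil))) 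
(.lf (nat_lit 548361) (.g (nat_lit 3132) (.e (nat_lit 286727) (nat_lit 0) (.e (nat_lit 1801) (nat_lit 119) (.e (nat_lit 516151) (nat_lit 9) (.e (nat_lit 426211) (nat_lit 9) (.e (nat_lit 426140) (nat_lit 3) .nil))))) (.g (nat_lit 0) (.e (nat_lit 289252) (nat_lit 0) .nil) .nil)))) (.nd (nat_lit 9) 
(.lf (nat_lit 548105) (.g (nat_lit 1686) (.e (nat_lit 311312) (nat_lit 2) (.e (nat_lit 196672) (nat_lit 15) (.e (nat_lit 81954) (nat_lit 23) (.e (nat_lit 98325) (nat_lit 17) (.e (nat_lit 7936) (nat_lit 377) (.e (nat_lit 2814) (nat_lit 181) .nil)))))) (.g (nat_lit 1) (.e (nat_lit 287825) (nat_lit 0) .nil) .nil))) 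
(.lf (nat_lit 548617) (.g (nat_lit 1496) (.e (nat_lit 286756) (nat_lit 10) (.e (nat_lit 344156) (nat_lit 36) (.e (nat_lit 638998) (nat_lit 8) (.e (nat_lit 172079) (nat_lit 7) (.e (nat_lit 409639) (nat_lit 15) .nil))))) (.g (nat_lit 0) (.e (nat_lit 289748) (nat_lit 0) .nil) .nil))))) (.nd (nat_lit 8) (.nd (nat_lit 9) 
(.lf (nat_lit 547977) (.g (nat_lit 766) (.e (nat_lit 303155) (nat_lit 29) (.e (nat_lit 352307) (nat_lit 21) (.e (nat_lit 57853) (nat_lit 252) .nil))) (.g (nat_lit 0) (.e (nat_lit 287559) (nat_lit 0) .nil) .nil))) 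
(.lf (nat_lit 548489) (.g (nat_lit 3454) (.e (nat_lit 286735) (nat_lit 3) (.e (nat_lit 98350) (nat_lit 24) (.e (nat_lit 409649) (nat_lit 18) (.e (nat_lit 303117) (nat_lit 2) (.e (nat_lit 196661) (nat_lit 12) (.e (nat_lit 57712) (nat_lit 176) (.e (nat_lit 2779) (nat_lit 178) .nil))))))) (.g (nat_lit 1) (.e (nat_lit 289537) (nat_lit 0) .nil) .nil)))) (.nd (nat_lit 9) 
(.lf (nat_lit 548233) (.g (nat_lit 737) (.e (nat_lit 311341) (nat_lit 13) (.e (nat_lit 483413) (nat_lit 27) (.e (nat_lit 401446) (nat_lit 10) .nil))) (.g (nat_lit 0) (.e (nat_lit 288457) (nat_lit 0) .nil) .nil))) 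
(.lf (nat_lit 548745) (.g (nat_lit 2276) (.e (nat_lit 286765) (nat_lit 15) (.e (nat_lit 3308) (nat_lit 202) (.e (nat_lit 573493) (nat_lit 15) (.e (nat_lit 81956) (nat_lit 23) (.e (nat_lit 98325) (nat_lit 17) (.e (nat_lit 6966) (nat_lit 377) (.e (nat_lit 2780) (nat_lit 178) .nil))))))) (.g (nat_lit 1) (.e (nat_lit 289936) (nat_lit 0) .nil) .nil)))))) 
(.nd (nat_lit 7) (.nd (nat_lit 8) (.nd (nat_lit 9) 
(.lf (nat_lit 547913) (.g (nat_lit 1839) (.e (nat_lit 311040) (nat_lit 18) (.e (nat_lit 98358) (nat_lit 26) (.e (nat_lit 426131) (nat_lit 3) (.e (nat_lit 204838) (nat_lit 20) .nil)))) (.g (nat_lit 0) (.e (nat_lit 287469) (nat_lit 0) .nil) .nil))) 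
(.lf (nat_lit 548425) (.g (nat_lit 2724) (.e (nat_lit 286733) (nat_lit 2) (.e (nat_lit 90177) (nat_lit 15) (.e (nat_lit 188437) (nat_lit 20) (.e (nat_lit 3238) (nat_lit 197) (.e (nat_lit 532523) (nat_lit 7) (.e (nat_lit 327424) (nat_lit 16) .nil)))))) (.g (nat_lit 1) (.e (nat_lit 289461) (nat_lit 0) .nil) .nil)))) (.nd (nat_lit 9) 
(.lf (nat_lit 548169) (.g (nat_lit 4765) (.e (nat_lit 311315) (nat_lit 3) (.e (nat_lit 204846) (nat_lit 24) (.e (nat_lit 319533) (nat_lit 16) (.e (nat_lit 286724) (nat_lit 0) (.e (nat_lit 1842) (nat_lit 123) (.e (nat_lit 548873) (nat_lit 5) (.e (nat_lit 1401) (nat_lit 106) (.e (nat_lit 319539) (nat_lit 19) .nil)))))))) (.g (nat_lit 1) (.e (nat_lit 288035) (nat_lit 0) .nil) .nil))) 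
(.lf (nat_lit 548681) (.g (nat_lit 3610) (.e (nat_lit 286765) (nat_lit 15) (.e (nat_lit 3298) (nat_lit 202) (.e (nat_lit 573492) (nat_lit 15) (.e (nat_lit 81956) (nat_lit 23) (.e (nat_lit 98325) (nat_lit 17) (.e (nat_lit 6986) (nat_lit 377) (.e (nat_lit 2779) (nat_lit 178) .nil))))))) (.g (nat_lit 1) (.e (nat_lit 289855) (nat_lit 0) .nil) .nil))))) (.nd (nat_lit 8) (.nd (nat_lit 9) 
(.lf (nat_lit 548041) (.g (nat_lit 2309) (.e (nat_lit 311311) (nat_lit 2) (.e (nat_lit 196672) (nat_lit 15) (.e (nat_lit 81954) (nat_lit 23) (.e (nat_lit 98323) (nat_lit 17) (.e (nat_lit 6989) (nat_lit 377) (.e (nat_lit 7936) (nat_lit 181) .nil)))))) (.g (nat_lit 1) (.e (nat_lit 287707) (nat_lit 0) .nil) .nil))) 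
(.lf (nat_lit 548553) (.g (nat_lit 1099) (.e (nat_lit 286743) (nat_lit 9) (.e (nat_lit 336336) (nat_lit 20) (.e (nat_lit 221219) (nat_lit 24) .nil))) (.g (nat_lit 0) (.e (nat_lit 289620) (nat_lit 0) .nil) .nil)))) (.nd (nat_lit 9) 
(.lf (nat_lit 548297) (.g (nat_lit 739) (.e (nat_lit 311357) (nat_lit 28) (.e (nat_lit 344068) (nat_lit 0) (.e (nat_lit 2854) (nat_lit 184) (.e (nat_lit 426533) (nat_lit 28) (.e (nat_lit 344076) (nat_lit 13) .nil))))) (.g (nat_lit 0) (.e (nat_lit 289120) (nat_lit 0) .nil) .nil))) 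
(.lf (nat_lit 548809) (.g (nat_lit 1085) (.e (nat_lit 294656) (nat_lit 35) (.e (nat_lit 491566) (nat_lit 12) (.e (nat_lit 385092) (nat_lit 49) (.e (nat_lit 778324) (nat_lit 5) .nil)))) (.g (nat_lit 0) (.e (nat_lit 290436) (nat_lit 0) .nil) .nil))))))) (.nd (nat_lit 6) (.nd (nat_lit 7) (.nd (nat_lit 8) (.nd (nat_lit 9) 
(.lf (nat_lit 547881) (.g (nat_lit 5067) (.e (nat_lit 303145) (nat_lit 13) (.e (nat_lit 483413) (nat_lit 27) (.e (nat_lit 401446) (nat_lit 10) (.e (nat_lit 434203) (nat_lit 18) (.e (nat_lit 6058) (nat_lit 327) (.e (nat_lit 8213) (nat_lit 9) .nil)))))) (.g (nat_lit 1) (.e (nat_lit 287329) (nat_lit 0) .nil) .nil))) 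
(.lf (nat_lit 548393) (.g (nat_lit 524) (.e (nat_lit 286733) (nat_lit 2) (.e (nat_lit 90134) (nat_lit 9) (.e (nat_lit 3009) (nat_lit 187) .nil))) (.g (nat_lit 0) (.e (nat_lit 289414) (nat_lit 0) .nil) .nil)))) (.nd (nat_lit 9) 
(.lf (nat_lit 548137) (.g (nat_lit 3637) (.e (nat_lit 311314) (nat_lit 3) (.e (nat_lit 204868) (nat_lit 29) (.e (nat_lit 360466) (nat_lit 3) (.e (nat_lit 516139) (nat_lit 7) (.e (nat_lit 409650) (nat_lit 19) .nil))))) (.g (nat_lit 1) (.e (nat_lit 287917) (nat_lit 0) .nil) .nil))) 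
(.lf (nat_lit 548649) (.g (nat_lit 1227) (.e (nat_lit 286759) (nat_lit 12) (.e (nat_lit 385109) (nat_lit 51) (.e (nat_lit 794675) (nat_lit 24) .nil))) (.g (nat_lit 0) (.e (nat_lit 289799) (nat_lit 0) .nil) .nil))))) (.nd (nat_lit 8) (.nd (nat_lit 9) 
(.lf (nat_lit 548009) (.g (nat_lit 1106) (.e (nat_lit 311310) (nat_lit 2) (.e (nat_lit 196672) (nat_lit 15) (.e (nat_lit 81954) (nat_lit 23) (.e (nat_lit 98325) (nat_lit 17) .nil)))) (.g (nat_lit 0) (.e (nat_lit 287644) (nat_lit 0) .nil) .nil))) 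
(.lf (nat_lit 548521) (.g (nat_lit 1731) (.e (nat_lit 286735) (nat_lit 3) (.e (nat_lit 98367) (nat_lit 27) (.e (nat_lit 434208) (nat_lit 18) (.e (nat_lit 4421) (nat_lit 261) .nil)))) (.g (nat_lit 0) (.e (nat_lit 289573) (nat_lit 0) .nil) .nil)))) (.nd (nat_lit 9) 
(.lf (nat_lit 548265) (.g (nat_lit 392) (.e (nat_lit 311343) (nat_lit 13) (.e (nat_lit 483372) (nat_lit 21) (.e (nat_lit 319534) (nat_lit 16) .nil))) (.g (nat_lit 0) (.e (nat_lit 288790) (nat_lit 0) .nil) .nil))) 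
(.lf (nat_lit 548777) (.g (nat_lit 3671) (.e (nat_lit 286768) (nat_lit 27) (.e (nat_lit 426340) (nat_lit 14) (.e (nat_lit 491570) (nat_lit 13) (.e (nat_lit 393238) (nat_lit 17) (.e (nat_lit 6989) (nat_lit 377) (.e (nat_lit 2777) (nat_lit 178) .nil)))))) (.g (nat_lit 1) (.e (nat_lit 290186) (nat_lit 0) .nil) .nil)))))) (.nd (nat_lit 7) (.nd (nat_lit 8) (.nd (nat_lit 9) 
(.lf (nat_lit 547945) (.g (nat_lit 3621) (.e (nat_lit 311040) (nat_lit 27) (.e (nat_lit 336226) (nat_lit 14) (.e (nat_lit 401459) (nat_lit 13) (.e (nat_lit 483372) (nat_lit 21) (.e (nat_lit 327424) (nat_lit 18) .nil))))) (.g (nat_lit 0) (.e (nat_lit 287517) (nat_lit 0) .nil) .nil))) 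
(.lf (nat_lit 548457) (.g (nat_lit 1779) (.e (nat_lit 286734) (nat_lit 3) (.e (nat_lit 98381) (nat_lit 31) (.e (nat_lit 466981) (nat_lit 23) (.e (nat_lit 204846) (nat_lit 24) (.e (nat_lit 327424) (nat_lit 16) .nil))))) (.g (nat_lit 1) (.e (nat_lit 289501) (nat_lit 0) .nil) .nil)))) (.nd (nat_lit 9) 
(.lf (nat_lit 548201) (.g (nat_lit 3972) (.e (nat_lit 311315) (nat_lit 3) (.e (nat_lit 204885) (nat_lit 33) (.e (nat_lit 401434) (nat_lit 9) (.e (nat_lit 426140) (nat_lit 3) (.e (nat_lit 204846) (nat_lit 24) (.e (nat_lit 319538) (nat_lit 19) .nil)))))) (.g (nat_lit 1) (.e (nat_lit 288218) (nat_lit 0) .nil) .nil))) 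
(.lf (nat_lit 548713) (.g (nat_lit 2976) (.e (nat_lit 286765) (nat_lit 15) (.e (nat_lit 3307) (nat_lit 202) (.e (nat_lit 573485) (nat_lit 13) (.e (nat_lit 65604) (nat_lit 9) (.e (nat_lit 336028) (nat_lit 3) (.e (nat_lit 98325) (nat_lit 17) (.e (nat_lit 6966) (nat_lit 377) (.e (nat_lit 2779) (nat_lit 178) .nil)))))))) (.g (nat_lit 1) (.e (nat_lit 289901) (nat_lit 0) .nil) .nil))))) 
(.nd (nat_lit 8) (.nd (nat_lit 9) 
(.lf (nat_lit 548073) (.g (nat_lit 3185) (.e (nat_lit 311312) (nat_lit 2) (.e (nat_lit 196666) (nat_lit 13) (.e (nat_lit 65610) (nat_lit 10) (.e (nat_lit 344117) (nat_lit 21) (.e (nat_lit 516106) (nat_lit 0) (.e (nat_lit 7008) (nat_lit 377) (.e (nat_lit 2814) (nat_lit 181) .nil))))))) (.g (nat_lit 1) (.e (nat_lit 287769) (nat_lit 0) .nil) .nil))) 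
(.lf (nat_lit 548585) (.g (nat_lit 1532) (.e (nat_lit 286753) (nat_lit 10) (.e (nat_lit 344160) (nat_lit 37) (.e (nat_lit 647195) (nat_lit 9) (.e (nat_lit 7936) (nat_lit 36) .nil)))) (.g (nat_lit 0) (.e (nat_lit 289675) (nat_lit 0) .nil) .nil)))) (.nd (nat_lit 9) 
(.lf (nat_lit 548329) (.g (nat_lit 2992) (.e (nat_lit 286720) (nat_lit 0) (.e (nat_lit 1780) (nat_lit 119) (.e (nat_lit 516151) (nat_lit 9) (.e (nat_lit 426211) (nat_lit 9) (.e (nat_lit 426140) (nat_lit 3) .nil))))) (.g (nat_lit 0) (.e (nat_lit 289168) (nat_lit 0) .nil) .nil))) 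
(.lf (nat_lit 548841) (.g (nat_lit 3642) (.e (nat_lit 294928) (nat_lit 2) (.e (nat_lit 90170) (nat_lit 13) (.e (nat_lit 172106) (nat_lit 10) (.e (nat_lit 434231) (nat_lit 23) (.e (nat_lit 532525) (nat_lit 8) (.e (nat_lit 335616) (nat_lit 17) .nil)))))) (.g (nat_lit 1) (.e (nat_lit 290486) (nat_lit 0) .nil) .nil)))))))) 
(.nd (nat_lit 5) (.nd (nat_lit 6) (.nd (nat_lit 7) (.nd (nat_lit 8) (.nd (nat_lit 9) 
(.lf (nat_lit 547865) (.g (nat_lit 3820) (.e (nat_lit 303144) (nat_lit 13) (.e (nat_lit 483413) (nat_lit 27) (.e (nat_lit 401448) (nat_lit 10) (.e (nat_lit 434202) (nat_lit 18) (.e (nat_lit 6058) (nat_lit 327) (.e (nat_lit 8213) (nat_lit 9) .nil)))))) (.g (nat_lit 1) (.e (nat_lit 287051) (nat_lit 0) .nil) .nil))) 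
(.lf (nat_lit 548377) (.g (nat_lit 1965) (.e (nat_lit 286732) (nat_lit 2) (.e (nat_lit 90170) (nat_lit 13) (.e (nat_lit 172113) (nat_lit 10) (.e (nat_lit 434227) (nat_lit 20) (.e (nat_lit 507942) (nat_lit 15) .nil))))) (.g (nat_lit 0) (.e (nat_lit 289369) (nat_lit 0) .nil) .nil)))) (.nd (nat_lit 9) 
(.lf (nat_lit 548121) (.g (nat_lit 1846) (.e (nat_lit 311313) (nat_lit 3) (.e (nat_lit 204846) (nat_lit 24) (.e (nat_lit 319530) (nat_lit 16) (.e (nat_lit 286735) (nat_lit 3) .nil)))) (.g (nat_lit 0) (.e (nat_lit 287856) (nat_lit 0) .nil) .nil))) 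
(.lf (nat_lit 548633) (.g (nat_lit 1544) (.e (nat_lit 286759) (nat_lit 12) (.e (nat_lit 385074) (nat_lit 31) (.e (nat_lit 573492) (nat_lit 15) (.e (nat_lit 81953) (nat_lit 22) .nil)))) (.g (nat_lit 0) (.e (nat_lit 289782) (nat_lit 0) .nil) .nil))))) (.nd (nat_lit 8) (.nd (nat_lit 9) 
(.lf (nat_lit 547993) (.g (nat_lit 1149) (.e (nat_lit 311040) (nat_lit 35) (.e (nat_lit 401454) (nat_lit 12) (.e (nat_lit 475209) (nat_lit 41) (.e (nat_lit 712739) (nat_lit 27) .nil)))) (.g (nat_lit 0) (.e (nat_lit 287587) (nat_lit 0) .nil) .nil))) 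
(.lf (nat_lit 548505) (.g (nat_lit 2253) (.e (nat_lit 286735) (nat_lit 3) (.e (nat_lit 98363) (nat_lit 26) (.e (nat_lit 426230) (nat_lit 9) (.e (nat_lit 426129) (nat_lit 3) (.e (nat_lit 204846) (nat_lit 24) (.e (nat_lit 327424) (nat_lit 16) .nil)))))) (.g (nat_lit 1) (.e (nat_lit 289556) (nat_lit 0) .nil) .nil)))) (.nd (nat_lit 9) 
(.lf (nat_lit 548249) (.g (nat_lit 1974) (.e (nat_lit 311343) (nat_lit 13) (.e (nat_lit 483337) (nat_lit 9) (.e (nat_lit 426107) (nat_lit 1) (.e (nat_lit 164347) (nat_lit 240) (.e (nat_lit 2416) (nat_lit 157) .nil))))) (.g (nat_lit 0) (.e (nat_lit 288671) (nat_lit 0) .nil) .nil))) 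
(.lf (nat_lit 548761) (.g (nat_lit 2119) (.e (nat_lit 286767) (nat_lit 27) (.e (nat_lit 426343) (nat_lit 14) (.e (nat_lit 491570) (nat_lit 13) (.e (nat_lit 393238) (nat_lit 17) (.e (nat_lit 6989) (nat_lit 377) (.e (nat_lit 7936) (nat_lit 178) .nil)))))) (.g (nat_lit 1) (.e (nat_lit 290162) (nat_lit 0) .nil) .nil)))))) (.nd (nat_lit 7) (.nd (nat_lit 8) (.nd (nat_lit 9) 
(.lf (nat_lit 547929) (.g (nat_lit 2345) (.e (nat_lit 303152) (nat_lit 27) (.e (nat_lit 336226) (nat_lit 14) (.e (nat_lit 401459) (nat_lit 13) (.e (nat_lit 483350) (nat_lit 17) (.e (nat_lit 6113) (nat_lit 332) .nil))))) (.g (nat_lit 0) (.e (nat_lit 287497) (nat_lit 0) .nil) .nil))) 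
(.lf (nat_lit 548441) (.g (nat_lit 3189) (.e (nat_lit 286733) (nat_lit 2) (.e (nat_lit 90178) (nat_lit 15) (.e (nat_lit 188452) (nat_lit 23) (.e (nat_lit 204846) (nat_lit 24) (.e (nat_lit 327424) (nat_lit 16) .nil))))) (.g (nat_lit 1) (.e (nat_lit 289478) (nat_lit 0) .nil) .nil)))) (.nd (nat_lit 9) 
(.lf (nat_lit 548185) (.g (nat_lit 1773) (.e (nat_lit 311315) (nat_lit 3) (.e (nat_lit 204861) (nat_lit 26) (.e (nat_lit 336185) (nat_lit 11) (.e (nat_lit 368676) (nat_lit 21) (.e (nat_lit 516141) (nat_lit 8) .nil))))) (.g (nat_lit 0) (.e (nat_lit 288059) (nat_lit 0) .nil) .nil))) 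
(.lf (nat_lit 548697) (.g (nat_lit 4017) (.e (nat_lit 286765) (nat_lit 15) (.e (nat_lit 3304) (nat_lit 202) (.e (nat_lit 573482) (nat_lit 13) (.e (nat_lit 65619) (nat_lit 10) (.e (nat_lit 344117) (nat_lit 21) (.e (nat_lit 516106) (nat_lit 0) (.e (nat_lit 6986) (nat_lit 377) (.e (nat_lit 2781) (nat_lit 178) .nil)))))))) (.g (nat_lit 1) (.e (nat_lit 289872) (nat_lit 0) .nil) .nil))))) 
(.nd (nat_lit 8) (.nd (nat_lit 9) 
(.lf (nat_lit 548057) (.g (nat_lit 3672) (.e (nat_lit 311312) (nat_lit 2) (.e (nat_lit 196666) (nat_lit 13) (.e (nat_lit 65610) (nat_lit 10) (.e (nat_lit 344117) (nat_lit 21) (.e (nat_lit 516098) (nat_lit 0) (.e (nat_lit 6957) (nat_lit 377) (.e (nat_lit 2814) (nat_lit 181) .nil))))))) (.g (nat_lit 1) (.e (nat_lit 287752) (nat_lit 0) .nil) .nil))) 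
(.lf (nat_lit 548569) (.g (nat_lit 1730) (.e (nat_lit 286748) (nat_lit 9) (.e (nat_lit 336295) (nat_lit 15) (.e (nat_lit 3305) (nat_lit 202) (.e (nat_lit 573485) (nat_lit 13) (.e (nat_lit 65619) (nat_lit 10) (.e (nat_lit 344115) (nat_lit 20) (.e (nat_lit 515840) (nat_lit 6) .nil))))))) (.g (nat_lit 1) (.e (nat_lit 289648) (nat_lit 0) .nil) .nil)))) (.nd (nat_lit 9) 
(.lf (nat_lit 548313) (.g (nat_lit 2395) (.e (nat_lit 311357) (nat_lit 28) (.e (nat_lit 344069) (nat_lit 0) (.e (nat_lit 3090) (nat_lit 191) (.e (nat_lit 483350) (nat_lit 17) (.e (nat_lit 6113) (nat_lit 332) (.e (nat_lit 1390) (nat_lit 105) .nil)))))) (.g (nat_lit 1) (.e (nat_lit 289142) (nat_lit 0) .nil) .nil))) 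
(.lf (nat_lit 548825) (.g (nat_lit 3642) (.e (nat_lit 294927) (nat_lit 2) (.e (nat_lit 90170) (nat_lit 13) (.e (nat_lit 172106) (nat_lit 10) (.e (nat_lit 434231) (nat_lit 23) (.e (nat_lit 532526) (nat_lit 8) (.e (nat_lit 335616) (nat_lit 17) .nil)))))) (.g (nat_lit 1) (.e (nat_lit 290468) (nat_lit 0) .nil) .nil))))))) (.nd (nat_lit 6) (.nd (nat_lit 7) (.nd (nat_lit 8) (.nd (nat_lit 9) 
(.lf (nat_lit 547897) (.g (nat_lit 4199) (.e (nat_lit 303147) (nat_lit 15) (.e (nat_lit 1858) (nat_lit 124) (.e (nat_lit 557109) (nat_lit 15) (.e (nat_lit 188447) (nat_lit 22) (.e (nat_lit 196661) (nat_lit 12) .nil))))) (.g (nat_lit 0) (.e (nat_lit 287446) (nat_lit 0) .nil) .nil))) 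
(.lf (nat_lit 548409) (.g (nat_lit 3185) (.e (nat_lit 286733) (nat_lit 2) (.e (nat_lit 90170) (nat_lit 13) (.e (nat_lit 172106) (nat_lit 10) (.e (nat_lit 434231) (nat_lit 23) (.e (nat_lit 540416) (nat_lit 7) (.e (nat_lit 319530) (nat_lit 16) .nil)))))) (.g (nat_lit 1) (.e (nat_lit 289441) (nat_lit 0) .nil) .nil)))) (.nd (nat_lit 9) 
(.lf (nat_lit 548153) (.g (nat_lit 1869) (.e (nat_lit 311315) (nat_lit 3) (.e (nat_lit 204813) (nat_lit 9) (.e (nat_lit 426107) (nat_lit 1) (.e (nat_lit 164345) (nat_lit 240) .nil)))) (.g (nat_lit 0) (.e (nat_lit 287999) (nat_lit 0) .nil) .nil))) 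
(.lf (nat_lit 548665) (.g (nat_lit 2596) (.e (nat_lit 286762) (nat_lit 14) (.e (nat_lit 401448) (nat_lit 10) (.e (nat_lit 434275) (nat_lit 39) (.e (nat_lit 663583) (nat_lit 11) (.e (nat_lit 24617) (nat_lit 7) .nil))))) (.g (nat_lit 0) (.e (nat_lit 289822) (nat_lit 0) .nil) .nil))))) (.nd (nat_lit 8) (.nd (nat_lit 9) 
(.lf (nat_lit 548025) (.g (nat_lit 2707) (.e (nat_lit 311311) (nat_lit 2) (.e (nat_lit 196666) (nat_lit 13) (.e (nat_lit 65610) (nat_lit 10) (.e (nat_lit 344117) (nat_lit 21) (.e (nat_lit 516106) (nat_lit 0) (.e (nat_lit 7008) (nat_lit 377) (.e (nat_lit 2814) (nat_lit 181) .nil))))))) (.g (nat_lit 1) (.e (nat_lit 287672) (nat_lit 0) .nil) .nil))) 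
(.lf (nat_lit 548537) (.g (nat_lit 3104) (.e (nat_lit 286735) (nat_lit 3) (.e (nat_lit 98382) (nat_lit 31) (.e (nat_lit 466981) (nat_lit 23) (.e (nat_lit 204846) (nat_lit 24) (.e (nat_lit 319531) (nat_lit 16) .nil))))) (.g (nat_lit 1) (.e (nat_lit 289591) (nat_lit 0) .nil) .nil)))) (.nd (nat_lit 9) 
(.lf (nat_lit 548281) (.g (nat_lit 1939) (.e (nat_lit 319232) (nat_lit 25) (.e (nat_lit 319490) (nat_lit 0) (.e (nat_lit 5664) (nat_lit 312) (.e (nat_lit 2852) (nat_lit 184) .nil)))) (.g (nat_lit 0) (.e (nat_lit 289089) (nat_lit 0) .nil) .nil))) 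
(.lf (nat_lit 548793) (.g (nat_lit 974) (.e (nat_lit 294656) (nat_lit 27) (.e (nat_lit 426544) (nat_lit 30) (.e (nat_lit 360467) (nat_lit 3) (.e (nat_lit 516191) (nat_lit 17) .nil)))) (.g (nat_lit 0) (.e (nat_lit 290206) (nat_lit 0) .nil) .nil)))))) (.nd (nat_lit 7) (.nd (nat_lit 8) (.nd (nat_lit 9) 
(.lf (nat_lit 547961) (.g (nat_lit 1692) (.e (nat_lit 303154) (nat_lit 28) (.e (nat_lit 344068) (nat_lit 0) (.e (nat_lit 2857) (nat_lit 184) (.e (nat_lit 426533) (nat_lit 28) (.e (nat_lit 344074) (nat_lit 13) .nil))))) (.g (nat_lit 0) (.e (nat_lit 287540) (nat_lit 0) .nil) .nil))) 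
(.lf (nat_lit 548473) (.g (nat_lit 2594) (.e (nat_lit 286735) (nat_lit 3) (.e (nat_lit 98325) (nat_lit 17) (.e (nat_lit 6986) (nat_lit 377) (.e (nat_lit 1374) (nat_lit 104) (.e (nat_lit 303119) (nat_lit 3) (.e (nat_lit 204846) (nat_lit 24) (.e (nat_lit 327424) (nat_lit 16) .nil))))))) (.g (nat_lit 1) (.e (nat_lit 289518) (nat_lit 0) .nil) .nil)))) (.nd (nat_lit 9) 
(.lf (nat_lit 548217) (.g (nat_lit 705) (.e (nat_lit 311324) (nat_lit 9) (.e (nat_lit 426562) (nat_lit 33) (.e (nat_lit 385041) (nat_lit 19) (.e (nat_lit 164340) (nat_lit 232) .nil)))) (.g (nat_lit 0) (.e (nat_lit 288308) (nat_lit 0) .nil) .nil))) 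
(.lf (nat_lit 548729) (.g (nat_lit 4505) (.e (nat_lit 286765) (nat_lit 15) (.e (nat_lit 3308) (nat_lit 202) (.e (nat_lit 573482) (nat_lit 13) (.e (nat_lit 65604) (nat_lit 9) (.e (nat_lit 336028) (nat_lit 3) (.e (nat_lit 98325) (nat_lit 17) (.e (nat_lit 6986) (nat_lit 377) (.e (nat_lit 2777) (nat_lit 178) .nil)))))))) (.g (nat_lit 1) (.e (nat_lit 289920) (nat_lit 0) .nil) .nil))))) 
(.nd (nat_lit 8) (.nd (nat_lit 9) 
(.lf (nat_lit 548089) (.g (nat_lit 1570) (.e (nat_lit 311312) (nat_lit 2) (.e (nat_lit 196672) (nat_lit 15) (.e (nat_lit 81954) (nat_lit 23) (.e (nat_lit 98320) (nat_lit 17) (.e (nat_lit 6949) (nat_lit 377) .nil))))) (.g (nat_lit 0) (.e (nat_lit 287809) (nat_lit 0) .nil) .nil))) 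
(.lf (nat_lit 548601) (.g (nat_lit 516) (.e (nat_lit 286755) (nat_lit 10) (.e (nat_lit 344154) (nat_lit 35) (.e (nat_lit 630802) (nat_lit 8) (.e (nat_lit 172081) (nat_lit 7) (.e (nat_lit 409636) (nat_lit 14) (.e (nat_lit 270373) (nat_lit 16) .nil)))))) (.g (nat_lit 1) (.e (nat_lit 289713) (nat_lit 0) .nil) .nil)))) (.nd (nat_lit 9) 
(.lf (nat_lit 548345) (.g (nat_lit 4332) (.e (nat_lit 286725) (nat_lit 0) (.e (nat_lit 1788) (nat_lit 119) (.e (nat_lit 516151) (nat_lit 9) (.e (nat_lit 426211) (nat_lit 9) (.e (nat_lit 426125) (nat_lit 2) .nil))))) (.g (nat_lit 0) (.e (nat_lit 289199) (nat_lit 0) .nil) .nil))) 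
(.lf (nat_lit 548857) (.g (nat_lit 2422) (.e (nat_lit 294930) (nat_lit 3) (.e (nat_lit 98323) (nat_lit 17) (.e (nat_lit 6989) (nat_lit 377) (.e (nat_lit 2777) (nat_lit 178) (.e (nat_lit 286735) (nat_lit 3) .nil))))) (.g (nat_lit 0) (.e (nat_lit 290502) (nat_lit 0) .nil) .nil)))))))))) 
(.nd (nat_lit 3) (.nd (nat_lit 4) (.nd (nat_lit 5) (.nd (nat_lit 6) (.nd (nat_lit 7) 
(.nd (nat_lit 8) (.nd (nat_lit 9) 
(.lf (nat_lit 547845) (.g (nat_lit 829) (.e (nat_lit 303143) (nat_lit 12) (.e (nat_lit 475214) (nat_lit 42) (.e (nat_lit 720956) (nat_lit 25) .nil))) (.g (nat_lit 0) (.e (nat_lit 286962) (nat_lit 0) .nil) .nil))) 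
(.lf (nat_lit 548357) (.g (nat_lit 3708) (.e (nat_lit 286728) (nat_lit 0) (.e (nat_lit 1788) (nat_lit 119) (.e (nat_lit 516151) (nat_lit 9) (.e (nat_lit 426285) (nat_lit 10) (.e (nat_lit 434233) (nat_lit 23) .nil))))) (.g (nat_lit 0) (.e (nat_lit 289212) (nat_lit 0) .nil) .nil)))) (.nd (nat_lit 9) 
(.lf (nat_lit 548101) (.g (nat_lit 2232) (.e (nat_lit 311312) (nat_lit 2) (.e (nat_lit 196672) (nat_lit 15) (.e (nat_lit 81954) (nat_lit 23) (.e (nat_lit 98325) (nat_lit 17) (.e (nat_lit 6966) (nat_lit 377) (.e (nat_lit 2820) (nat_lit 181) .nil)))))) (.g (nat_lit 1) (.e (nat_lit 287821) (nat_lit 0) .nil) .nil))) 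
(.lf (nat_lit 548613) (.g (nat_lit 895) (.e (nat_lit 286756) (nat_lit 10) (.e (nat_lit 344138) (nat_lit 29) (.e (nat_lit 581653) (nat_lit 6) (.e (nat_lit 188427) (nat_lit 20) .nil)))) (.g (nat_lit 0) (.e (nat_lit 289743) (nat_lit 0) .nil) .nil))))) (.nd (nat_lit 8) (.nd (nat_lit 9) 
(.lf (nat_lit 547973) (.g (nat_lit 1407) (.e (nat_lit 303155) (nat_lit 29) (.e (nat_lit 352267) (nat_lit 0) (.e (nat_lit 3748) (nat_lit 228) (.e (nat_lit 786477) (nat_lit 28) (.e (nat_lit 344083) (nat_lit 13) .nil))))) (.g (nat_lit 0) (.e (nat_lit 287555) (nat_lit 0) .nil) .nil))) 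
(.lf (nat_lit 548485) (.g (nat_lit 3218) (.e (nat_lit 286735) (nat_lit 3) (.e (nat_lit 98350) (nat_lit 24) (.e (nat_lit 409645) (nat_lit 18) (.e (nat_lit 303119) (nat_lit 3) (.e (nat_lit 204846) (nat_lit 24) (.e (nat_lit 327424) (nat_lit 6) .nil)))))) (.g (nat_lit 1) (.e (nat_lit 289533) (nat_lit 0) .nil) .nil)))) (.nd (nat_lit 9) 
(.lf (nat_lit 548229) (.g (nat_lit 901) (.e (nat_lit 311339) (nat_lit 12) (.e (nat_lit 475210) (nat_lit 41) (.e (nat_lit 712745) (nat_lit 27) .nil))) (.g (nat_lit 0) (.e (nat_lit 288410) (nat_lit 0) .nil) .nil))) 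
(.lf (nat_lit 548741) (.g (nat_lit 3648) (.e (nat_lit 286765) (nat_lit 15) (.e (nat_lit 3308) (nat_lit 202) (.e (nat_lit 573493) (nat_lit 15) (.e (nat_lit 81954) (nat_lit 23) (.e (nat_lit 98325) (nat_lit 17) (.e (nat_lit 6986) (nat_lit 377) (.e (nat_lit 2782) (nat_lit 178) .nil))))))) (.g (nat_lit 1) (.e (nat_lit 289932) (nat_lit 0) .nil) .nil)))))) 
(.nd (nat_lit 7) (.nd (nat_lit 8) (.nd (nat_lit 9) 
(.lf (nat_lit 547909) (.g (nat_lit 2138) (.e (nat_lit 311040) (nat_lit 15) (.e (nat_lit 1859) (nat_lit 124) (.e (nat_lit 557109) (nat_lit 15) (.e (nat_lit 188452) (nat_lit 23) (.e (nat_lit 204819) (nat_lit 17) .nil))))) (.g (nat_lit 0) (.e (nat_lit 287465) (nat_lit 0) .nil) .nil))) 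
(.lf (nat_lit 548421) (.g (nat_lit 3687) (.e (nat_lit 286733) (nat_lit 2) (.e (nat_lit 90176) (nat_lit 15) (.e (nat_lit 188450) (nat_lit 23) (.e (nat_lit 204846) (nat_lit 24) (.e (nat_lit 319534) (nat_lit 16) .nil))))) (.g (nat_lit 1) (.e (nat_lit 289457) (nat_lit 0) .nil) .nil)))) (.nd (nat_lit 9) 
(.lf (nat_lit 548165) (.g (nat_lit 1187) (.e (nat_lit 311315) (nat_lit 3) (.e (nat_lit 204846) (nat_lit 24) (.e (nat_lit 319532) (nat_lit 16) (.e (nat_lit 286727) (nat_lit 0) .nil)))) (.g (nat_lit 0) (.e (nat_lit 288031) (nat_lit 0) .nil) .nil))) 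
(.lf (nat_lit 548677) (.g (nat_lit 3230) (.e (nat_lit 286765) (nat_lit 15) (.e (nat_lit 3298) (nat_lit 202) (.e (nat_lit 573481) (nat_lit 13) (.e (nat_lit 65604) (nat_lit 9) (.e (nat_lit 336013) (nat_lit 2) (.e (nat_lit 90165) (nat_lit 12) (.e (nat_lit 164208) (nat_lit 176) (.e (nat_lit 2782) (nat_lit 178) .nil)))))))) (.g (nat_lit 1) (.e (nat_lit 289849) (nat_lit 0) .nil) .nil))))) 
(.nd (nat_lit 8) (.nd (nat_lit 9) 
(.lf (nat_lit 548037) (.g (nat_lit 3282) (.e (nat_lit 311311) (nat_lit 2) (.e (nat_lit 196666) (nat_lit 13) (.e (nat_lit 65619) (nat_lit 10) (.e (nat_lit 344117) (nat_lit 21) (.e (nat_lit 516106) (nat_lit 0) (.e (nat_lit 6986) (nat_lit 377) (.e (nat_lit 2819) (nat_lit 181) .nil))))))) (.g (nat_lit 1) (.e (nat_lit 287697) (nat_lit 0) .nil) .nil))) 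
(.lf (nat_lit 548549) (.g (nat_lit 2436) (.e (nat_lit 286742) (nat_lit 9) (.e (nat_lit 336337) (nat_lit 20) (.e (nat_lit 221219) (nat_lit 24) (.e (nat_lit 213030) (nat_lit 11) (.e (nat_lit 24617) (nat_lit 7) (.e (nat_lit 319533) (nat_lit 16) .nil)))))) (.g (nat_lit 1) (.e (nat_lit 289612) (nat_lit 0) .nil) .nil)))) (.nd (nat_lit 9) 
(.lf (nat_lit 548293) (.g (nat_lit 569) (.e (nat_lit 311355) (nat_lit 27) (.e (nat_lit 336235) (nat_lit 14) (.e (nat_lit 401459) (nat_lit 13) .nil))) (.g (nat_lit 0) (.e (nat_lit 289111) (nat_lit 0) .nil) .nil))) 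
(.lf (nat_lit 548805) (.g (nat_lit 2462) (.e (nat_lit 286771) (nat_lit 29) (.e (nat_lit 442379) (nat_lit 0) (.e (nat_lit 2059) (nat_lit 142) (.e (nat_lit 704595) (nat_lit 5) (.e (nat_lit 180283) (nat_lit 45) (.e (nat_lit 2777) (nat_lit 178) .nil)))))) (.g (nat_lit 1) (.e (nat_lit 290258) (nat_lit 0) .nil) .nil))))))) (.nd (nat_lit 6) (.nd (nat_lit 7) (.nd (nat_lit 8) (.nd (nat_lit 9) 
(.lf (nat_lit 547877) (.g (nat_lit 872) (.e (nat_lit 303145) (nat_lit 13) (.e (nat_lit 483408) (nat_lit 26) (.e (nat_lit 385114) (nat_lit 53) .nil))) (.g (nat_lit 0) (.e (nat_lit 287237) (nat_lit 0) .nil) .nil))) 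
(.lf (nat_lit 548389) (.g (nat_lit 472) (.e (nat_lit 286733) (nat_lit 2) (.e (nat_lit 90134) (nat_lit 9) (.e (nat_lit 2882) (nat_lit 184) .nil))) (.g (nat_lit 0) (.e (nat_lit 289405) (nat_lit 0) .nil) .nil)))) (.nd (nat_lit 9) 
(.lf (nat_lit 548133) (.g (nat_lit 2233) (.e (nat_lit 311314) (nat_lit 3) (.e (nat_lit 204846) (nat_lit 24) (.e (nat_lit 319530) (nat_lit 16) (.e (nat_lit 286735) (nat_lit 3) (.e (nat_lit 98353) (nat_lit 25) .nil))))) (.g (nat_lit 0) (.e (nat_lit 287879) (nat_lit 0) .nil) .nil))) 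
(.lf (nat_lit 548645) (.g (nat_lit 2926) (.e (nat_lit 286759) (nat_lit 12) (.e (nat_lit 385107) (nat_lit 51) (.e (nat_lit 794679) (nat_lit 24) (.e (nat_lit 213030) (nat_lit 11) (.e (nat_lit 24617) (nat_lit 7) (.e (nat_lit 319532) (nat_lit 16) .nil)))))) (.g (nat_lit 1) (.e (nat_lit 289795) (nat_lit 0) .nil) .nil))))) (.nd (nat_lit 8) (.nd (nat_lit 9) 
(.lf (nat_lit 548005) (.g (nat_lit 495) (.e (nat_lit 311309) (nat_lit 1) (.e (nat_lit 164403) (nat_lit 256) (.e (nat_lit 57409) (nat_lit 12) .nil))) (.g (nat_lit 0) (.e (nat_lit 287639) (nat_lit 0) .nil) .nil))) 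
(.lf (nat_lit 548517) (.g (nat_lit 2213) (.e (nat_lit 286735) (nat_lit 3) (.e (nat_lit 98365) (nat_lit 26) (.e (nat_lit 426341) (nat_lit 14) (.e (nat_lit 491537) (nat_lit 2) (.e (nat_lit 90133) (nat_lit 9) .nil))))) (.g (nat_lit 0) (.e (nat_lit 289568) (nat_lit 0) .nil) .nil)))) (.nd (nat_lit 9) 
(.lf (nat_lit 548261) (.g (nat_lit 1303) (.e (nat_lit 311343) (nat_lit 13) (.e (nat_lit 483372) (nat_lit 21) (.e (nat_lit 319533) (nat_lit 16) (.e (nat_lit 286723) (nat_lit 0) .nil)))) (.g (nat_lit 0) (.e (nat_lit 288768) (nat_lit 0) .nil) .nil))) 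
(.lf (nat_lit 548773) (.g (nat_lit 3713) (.e (nat_lit 286768) (nat_lit 27) (.e (nat_lit 426339) (nat_lit 14) (.e (nat_lit 491571) (nat_lit 13) (.e (nat_lit 393260) (nat_lit 21) (.e (nat_lit 417536) (nat_lit 16) .nil))))) (.g (nat_lit 0) (.e (nat_lit 290181) (nat_lit 0) .nil) .nil)))))) (.nd (nat_lit 7) (.nd (nat_lit 8) (.nd (nat_lit 9) 
(.lf (nat_lit 547941) (.g (nat_lit 2061) (.e (nat_lit 311040) (nat_lit 27) (.e (nat_lit 336226) (nat_lit 14) (.e (nat_lit 401437) (nat_lit 9) (.e (nat_lit 426533) (nat_lit 28) (.e (nat_lit 344074) (nat_lit 13) .nil))))) (.g (nat_lit 0) (.e (nat_lit 287513) (nat_lit 0) .nil) .nil))) 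
(.lf (nat_lit 548453) (.g (nat_lit 1301) (.e (nat_lit 286734) (nat_lit 3) (.e (nat_lit 98371) (nat_lit 28) (.e (nat_lit 442427) (nat_lit 23) (.e (nat_lit 204845) (nat_lit 24) .nil)))) (.g (nat_lit 0) (.e (nat_lit 289494) (nat_lit 0) .nil) .nil)))) (.nd (nat_lit 9) 
(.lf (nat_lit 548197) (.g (nat_lit 515) (.e (nat_lit 311315) (nat_lit 3) (.e (nat_lit 204877) (nat_lit 31) (.e (nat_lit 376866) (nat_lit 23) .nil))) (.g (nat_lit 0) (.e (nat_lit 288214) (nat_lit 0) .nil) .nil))) 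
(.lf (nat_lit 548709) (.g (nat_lit 4099) (.e (nat_lit 286765) (nat_lit 15) (.e (nat_lit 3304) (nat_lit 202) (.e (nat_lit 573485) (nat_lit 13) (.e (nat_lit 65619) (nat_lit 10) (.e (nat_lit 344117) (nat_lit 21) (.e (nat_lit 516106) (nat_lit 0) (.e (nat_lit 6986) (nat_lit 377) (.e (nat_lit 2781) (nat_lit 178) .nil)))))))) (.g (nat_lit 1) (.e (nat_lit 289884) (nat_lit 0) .nil) .nil))))) 
(.nd (nat_lit 8) (.nd (nat_lit 9) 
(.lf (nat_lit 548069) (.g (nat_lit 3125) (.e (nat_lit 311312) (nat_lit 2) (.e (nat_lit 196666) (nat_lit 13) (.e (nat_lit 65610) (nat_lit 10) (.e (nat_lit 344117) (nat_lit 21) (.e (nat_lit 516106) (nat_lit 0) (.e (nat_lit 6966) (nat_lit 377) (.e (nat_lit 2818) (nat_lit 181) .nil))))))) (.g (nat_lit 1) (.e (nat_lit 287765) (nat_lit 0) .nil) .nil))) 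
(.lf (nat_lit 548581) (.g (nat_lit 2173) (.e (nat_lit 286753) (nat_lit 10) (.e (nat_lit 344169) (nat_lit 40) (.e (nat_lit 671766) (nat_lit 8) (.e (nat_lit 131116) (nat_lit 9) (.e (nat_lit 335988) (nat_lit 1) (.e (nat_lit 57920) (nat_lit 279) (.e (nat_lit 8305) (nat_lit 58) .nil))))))) (.g (nat_lit 1) (.e (nat_lit 289671) (nat_lit 0) .nil) .nil)))) (.nd (nat_lit 9) 
(.lf (nat_lit 548325) (.g (nat_lit 1378) (.e (nat_lit 319232) (nat_lit 35) (.e (nat_lit 401454) (nat_lit 12) (.e (nat_lit 475196) (nat_lit 40) .nil))) (.g (nat_lit 0) (.e (nat_lit 289164) (nat_lit 0) .nil) .nil))) 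
(.lf (nat_lit 548837) (.g (nat_lit 2704) (.e (nat_lit 294928) (nat_lit 2) (.e (nat_lit 90170) (nat_lit 13) (.e (nat_lit 172106) (nat_lit 10) (.e (nat_lit 434231) (nat_lit 23) (.e (nat_lit 532482) (nat_lit 0) .nil))))) (.g (nat_lit 0) (.e (nat_lit 290482) (nat_lit 0) .nil) .nil)))))))) (.nd (nat_lit 5) (.nd (nat_lit 6) (.nd (nat_lit 7) (.nd (nat_lit 8) (.nd (nat_lit 9) 
(.lf (nat_lit 547861) (.g (nat_lit 1637) (.e (nat_lit 303144) (nat_lit 13) (.e (nat_lit 483413) (nat_lit 27) (.e (nat_lit 401446) (nat_lit 10) (.e (nat_lit 434207) (nat_lit 18) .nil)))) (.g (nat_lit 0) (.e (nat_lit 287043) (nat_lit 0) .nil) .nil))) 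
(.lf (nat_lit 548373) (.g (nat_lit 1800) (.e (nat_lit 286732) (nat_lit 2) (.e (nat_lit 90170) (nat_lit 13) (.e (nat_lit 172106) (nat_lit 10) (.e (nat_lit 434231) (nat_lit 23) (.e (nat_lit 532490) (nat_lit 0) .nil))))) (.g (nat_lit 0) (.e (nat_lit 289365) (nat_lit 0) .nil) .nil)))) (.nd (nat_lit 9) 
(.lf (nat_lit 548117) (.g (nat_lit 1571) (.e (nat_lit 311312) (nat_lit 2) (.e (nat_lit 196674) (nat_lit 15) (.e (nat_lit 81956) (nat_lit 23) (.e (nat_lit 98325) (nat_lit 17) .nil)))) (.g (nat_lit 0) (.e (nat_lit 287845) (nat_lit 0) .nil) .nil))) 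
(.lf (nat_lit 548629) (.g (nat_lit 2482) (.e (nat_lit 286759) (nat_lit 12) (.e (nat_lit 385074) (nat_lit 31) (.e (nat_lit 573481) (nat_lit 13) (.e (nat_lit 65598) (nat_lit 9) .nil)))) (.g (nat_lit 0) (.e (nat_lit 289778) (nat_lit 0) .nil) .nil))))) (.nd (nat_lit 8) (.nd (nat_lit 9) 
(.lf (nat_lit 547989) (.g (nat_lit 1406) (.e (nat_lit 311040) (nat_lit 35) (.e (nat_lit 401454) (nat_lit 12) (.e (nat_lit 475202) (nat_lit 40) .nil))) (.g (nat_lit 0) (.e (nat_lit 287582) (nat_lit 0) .nil) .nil))) 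
(.lf (nat_lit 548501) (.g (nat_lit 1749) (.e (nat_lit 286735) (nat_lit 3) (.e (nat_lit 98359) (nat_lit 26) (.e (nat_lit 426210) (nat_lit 9) (.e (nat_lit 426140) (nat_lit 3) (.e (nat_lit 204845) (nat_lit 24) .nil))))) (.g (nat_lit 0) (.e (nat_lit 289551) (nat_lit 0) .nil) .nil)))) (.nd (nat_lit 9) 
(.lf (nat_lit 548245) (.g (nat_lit 1930) (.e (nat_lit 311342) (nat_lit 13) (.e (nat_lit 483413) (nat_lit 27) (.e (nat_lit 401448) (nat_lit 10) (.e (nat_lit 434289) (nat_lit 43) (.e (nat_lit 696320) (nat_lit 0) (.e (nat_lit 1380) (nat_lit 105) .nil)))))) (.g (nat_lit 1) (.e (nat_lit 288659) (nat_lit 0) .nil) .nil))) 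
(.lf (nat_lit 548757) (.g (nat_lit 1202) (.e (nat_lit 294656) (nat_lit 18) (.e (nat_lit 204863) (nat_lit 27) (.e (nat_lit 344132) (nat_lit 26) (.e (nat_lit 557105) (nat_lit 14) .nil)))) (.g (nat_lit 0) (.e (nat_lit 290057) (nat_lit 0) .nil) .nil)))))) (.nd (nat_lit 7) (.nd (nat_lit 8) (.nd (nat_lit 9) 
(.lf (nat_lit 547925) (.g (nat_lit 2097) (.e (nat_lit 303151) (nat_lit 27) (.e (nat_lit 336231) (nat_lit 14) (.e (nat_lit 401458) (nat_lit 13) (.e (nat_lit 483371) (nat_lit 21) (.e (nat_lit 327424) (nat_lit 18) .nil))))) (.g (nat_lit 0) (.e (nat_lit 287492) (nat_lit 0) .nil) .nil))) 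
(.lf (nat_lit 548437) (.g (nat_lit 2211) (.e (nat_lit 286733) (nat_lit 2) (.e (nat_lit 90178) (nat_lit 15) (.e (nat_lit 188450) (nat_lit 23) (.e (nat_lit 204846) (nat_lit 24) (.e (nat_lit 327424) (nat_lit 16) .nil))))) (.g (nat_lit 1) (.e (nat_lit 289474) (nat_lit 0) .nil) .nil)))) (.nd (nat_lit 9) 
(.lf (nat_lit 548181) (.g (nat_lit 3006) (.e (nat_lit 311315) (nat_lit 3) (.e (nat_lit 204846) (nat_lit 24) (.e (nat_lit 319534) (nat_lit 16) (.e (nat_lit 286735) (nat_lit 3) (.e (nat_lit 98353) (nat_lit 25) (.e (nat_lit 417813) (nat_lit 9) .nil)))))) (.g (nat_lit 1) (.e (nat_lit 288047) (nat_lit 0) .nil) .nil))) 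
(.lf (nat_lit 548693) (.g (nat_lit 2697) (.e (nat_lit 286765) (nat_lit 15) (.e (nat_lit 3304) (nat_lit 202) (.e (nat_lit 573482) (nat_lit 13) (.e (nat_lit 65604) (nat_lit 9) (.e (nat_lit 336013) (nat_lit 2) (.e (nat_lit 90165) (nat_lit 12) (.e (nat_lit 164208) (nat_lit 176) (.e (nat_lit 2782) (nat_lit 178) .nil)))))))) (.g (nat_lit 1) (.e (nat_lit 289868) (nat_lit 0) .nil) .nil))))) 
(.nd (nat_lit 8) (.nd (nat_lit 9) 
(.lf (nat_lit 548053) (.g (nat_lit 4413) (.e (nat_lit 311312) (nat_lit 2) (.e (nat_lit 196666) (nat_lit 13) (.e (nat_lit 65610) (nat_lit 10) (.e (nat_lit 344117) (nat_lit 21) (.e (nat_lit 516097) (nat_lit 0) (.e (nat_lit 7026) (nat_lit 377) (.e (nat_lit 2814) (nat_lit 181) .nil))))))) (.g (nat_lit 1) (.e (nat_lit 287748) (nat_lit 0) .nil) .nil))) 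
(.lf (nat_lit 548565) (.g (nat_lit 655) (.e (nat_lit 286748) (nat_lit 9) (.e (nat_lit 336295) (nat_lit 15) (.e (nat_lit 3304) (nat_lit 202) .nil))) (.g (nat_lit 0) (.e (nat_lit 289644) (nat_lit 0) .nil) .nil)))) (.nd (nat_lit 9) 
(.lf (nat_lit 548309) (.g (nat_lit 2366) (.e (nat_lit 311357) (nat_lit 28) (.e (nat_lit 344068) (nat_lit 0) (.e (nat_lit 3090) (nat_lit 191) (.e (nat_lit 483371) (nat_lit 21) (.e (nat_lit 319539) (nat_lit 19) .nil))))) (.g (nat_lit 1) (.e (nat_lit 289136) (nat_lit 0) .nil) .nil))) 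
(.lf (nat_lit 548821) (.g (nat_lit 2988) (.e (nat_lit 294927) (nat_lit 2) (.e (nat_lit 90170) (nat_lit 13) (.e (nat_lit 172106) (nat_lit 10) (.e (nat_lit 434231) (nat_lit 23) (.e (nat_lit 532482) (nat_lit 0) .nil))))) (.g (nat_lit 0) (.e (nat_lit 290464) (nat_lit 0) .nil) .nil))))))) (.nd (nat_lit 6) (.nd (nat_lit 7) (.nd (nat_lit 8) (.nd (nat_lit 9) 
(.lf (nat_lit 547893) (.g (nat_lit 2301) (.e (nat_lit 303147) (nat_lit 15) (.e (nat_lit 1858) (nat_lit 124) (.e (nat_lit 557098) (nat_lit 13) (.e (nat_lit 172097) (nat_lit 9) .nil)))) (.g (nat_lit 0) (.e (nat_lit 287442) (nat_lit 0) .nil) .nil))) 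
(.lf (nat_lit 548405) (.g (nat_lit 4243) (.e (nat_lit 286733) (nat_lit 2) (.e (nat_lit 90170) (nat_lit 13) (.e (nat_lit 172097) (nat_lit 9) (.e (nat_lit 426140) (nat_lit 3) (.e (nat_lit 204845) (nat_lit 24) (.e (nat_lit 327424) (nat_lit 16) .nil)))))) (.g (nat_lit 1) (.e (nat_lit 289437) (nat_lit 0) .nil) .nil)))) (.nd (nat_lit 9) 
(.lf (nat_lit 548149) (.g (nat_lit 2604) (.e (nat_lit 311314) (nat_lit 3) (.e (nat_lit 204885) (nat_lit 33) (.e (nat_lit 401448) (nat_lit 10) (.e (nat_lit 434231) (nat_lit 23) (.e (nat_lit 532522) (nat_lit 7) .nil))))) (.g (nat_lit 0) (.e (nat_lit 287995) (nat_lit 0) .nil) .nil))) 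
(.lf (nat_lit 548661) (.g (nat_lit 1873) (.e (nat_lit 286761) (nat_lit 13) (.e (nat_lit 393293) (nat_lit 26) (.e (nat_lit 475205) (nat_lit 40) (.e (nat_lit 704512) (nat_lit 0) (.e (nat_lit 2830) (nat_lit 182) (.e (nat_lit 417536) (nat_lit 6) .nil)))))) (.g (nat_lit 1) (.e (nat_lit 289811) (nat_lit 0) .nil) .nil))))) (.nd (nat_lit 8) (.nd (nat_lit 9) 
(.lf (nat_lit 548021) (.g (nat_lit 2750) (.e (nat_lit 311311) (nat_lit 2) (.e (nat_lit 196666) (nat_lit 13) (.e (nat_lit 65610) (nat_lit 10) (.e (nat_lit 344117) (nat_lit 21) (.e (nat_lit 516102) (nat_lit 0) (.e (nat_lit 6996) (nat_lit 377) (.e (nat_lit 2815) (nat_lit 181) .nil))))))) (.g (nat_lit 1) (.e (nat_lit 287668) (nat_lit 0) .nil) .nil))) 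
(.lf (nat_lit 548533) (.g (nat_lit 1448) (.e (nat_lit 286735) (nat_lit 3) (.e (nat_lit 98381) (nat_lit 31) (.e (nat_lit 466977) (nat_lit 22) (.e (nat_lit 196619) (nat_lit 9) .nil)))) (.g (nat_lit 0) (.e (nat_lit 289587) (nat_lit 0) .nil) .nil)))) (.nd (nat_lit 9) 
(.lf (nat_lit 548277) (.g (nat_lit 240) (.e (nat_lit 311348) (nat_lit 15) (.e (nat_lit 1848) (nat_lit 124) (.e (nat_lit 557108) (nat_lit 15) .nil))) (.g (nat_lit 0) (.e (nat_lit 289082) (nat_lit 0) .nil) .nil))) 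
(.lf (nat_lit 548789) (.g (nat_lit 386) (.e (nat_lit 294656) (nat_lit 27) (.e (nat_lit 426341) (nat_lit 14) (.e (nat_lit 491571) (nat_lit 13) .nil))) (.g (nat_lit 0) (.e (nat_lit 290201) (nat_lit 0) .nil) .nil)))))) (.nd (nat_lit 7) (.nd (nat_lit 8) (.nd (nat_lit 9) 
(.lf (nat_lit 547957) (.g (nat_lit 2094) (.e (nat_lit 311040) (nat_lit 27) (.e (nat_lit 336235) (nat_lit 14) (.e (nat_lit 401459) (nat_lit 13) (.e (nat_lit 483371) (nat_lit 21) .nil)))) (.g (nat_lit 0) (.e (nat_lit 287534) (nat_lit 0) .nil) .nil))) 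
(.lf (nat_lit 548469) (.g (nat_lit 3224) (.e (nat_lit 286735) (nat_lit 3) (.e (nat_lit 98323) (nat_lit 17) (.e (nat_lit 6989) (nat_lit 377) (.e (nat_lit 1076) (nat_lit 81) (.e (nat_lit 5664) (nat_lit 312) (.e (nat_lit 2679) (nat_lit 168) (.e (nat_lit 204819) (nat_lit 17) (.e (nat_lit 6113) (nat_lit 332) (.e (nat_lit 1361) (nat_lit 102) .nil))))))))) (.g (nat_lit 1) (.e (nat_lit 289514) (nat_lit 0) .nil) .nil)))) 
(.nd (nat_lit 9) 
(.lf (nat_lit 548213) (.g (nat_lit 5091) (.e (nat_lit 311322) (nat_lit 9) (.e (nat_lit 426566) (nat_lit 34) (.e (nat_lit 393253) (nat_lit 18) (.e (nat_lit 164348) (nat_lit 240) (.e (nat_lit 7936) (nat_lit 157) .nil))))) (.g (nat_lit 0) (.e (nat_lit 288264) (nat_lit 0) .nil) .nil))) 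
(.lf (nat_lit 548725) (.g (nat_lit 4815) (.e (nat_lit 286765) (nat_lit 15) (.e (nat_lit 3307) (nat_lit 202) (.e (nat_lit 573493) (nat_lit 15) (.e (nat_lit 81956) (nat_lit 23) (.e (nat_lit 98325) (nat_lit 17) (.e (nat_lit 6986) (nat_lit 377) (.e (nat_lit 2779) (nat_lit 178) .nil))))))) (.g (nat_lit 1) (.e (nat_lit 289913) (nat_lit 0) .nil) .nil))))) (.nd (nat_lit 8) (.nd (nat_lit 9) 
(.lf (nat_lit 548085) (.g (nat_lit 2077) (.e (nat_lit 311312) (nat_lit 2) (.e (nat_lit 196672) (nat_lit 15) (.e (nat_lit 81951) (nat_lit 22) (.e (nat_lit 90165) (nat_lit 12) (.e (nat_lit 164211) (nat_lit 176) (.e (nat_lit 2814) (nat_lit 181) .nil)))))) (.g (nat_lit 1) (.e (nat_lit 287802) (nat_lit 0) .nil) .nil))) 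
(.lf (nat_lit 548597) (.g (nat_lit 1927) (.e (nat_lit 286754) (nat_lit 10) (.e (nat_lit 344160) (nat_lit 37) (.e (nat_lit 647201) (nat_lit 12) (.e (nat_lit 57575) (nat_lit 55) (.e (nat_lit 778466) (nat_lit 11) .nil))))) (.g (nat_lit 0) (.e (nat_lit 289705) (nat_lit 0) .nil) .nil)))) (.nd (nat_lit 9) 
(.lf (nat_lit 548341) (.g (nat_lit 3418) (.e (nat_lit 286722) (nat_lit 0) (.e (nat_lit 1803) (nat_lit 119) (.e (nat_lit 516151) (nat_lit 9) (.e (nat_lit 426211) (nat_lit 9) (.e (nat_lit 426140) (nat_lit 3) .nil))))) (.g (nat_lit 0) (.e (nat_lit 289180) (nat_lit 0) .nil) .nil))) 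
(.lf (nat_lit 548853) (.g (nat_lit 2023) (.e (nat_lit 294928) (nat_lit 2) (.e (nat_lit 90176) (nat_lit 15) (.e (nat_lit 188450) (nat_lit 23) (.e (nat_lit 204848) (nat_lit 25) (.e (nat_lit 335616) (nat_lit 17) .nil))))) (.g (nat_lit 1) (.e (nat_lit 290498) (nat_lit 0) .nil) .nil))))))))) (.nd (nat_lit 4) (.nd (nat_lit 5) (.nd (nat_lit 6) (.nd (nat_lit 7) (.nd (nat_lit 8) (.nd (nat_lit 9) 
(.lf (nat_lit 547853) (.g (nat_lit 3051) (.e (nat_lit 303143) (nat_lit 12) (.e (nat_lit 475220) (nat_lit 44) (.e (nat_lit 737318) (nat_lit 15) (.e (nat_lit 49189) (nat_lit 11) (.e (nat_lit 16425) (nat_lit 7) (.e (nat_lit 409646) (nat_lit 18) .nil)))))) (.g (nat_lit 1) (.e (nat_lit 286972) (nat_lit 0) .nil) .nil))) 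
(.lf (nat_lit 548365) (.g (nat_lit 468) (.e (nat_lit 286732) (nat_lit 2) (.e (nat_lit 90134) (nat_lit 9) (.e (nat_lit 3025) (nat_lit 187) .nil))) (.g (nat_lit 0) (.e (nat_lit 289356) (nat_lit 0) .nil) .nil)))) (.nd (nat_lit 9) 
(.lf (nat_lit 548109) (.g (nat_lit 2313) (.e (nat_lit 311312) (nat_lit 2) (.e (nat_lit 196673) (nat_lit 15) (.e (nat_lit 81956) (nat_lit 23) (.e (nat_lit 98320) (nat_lit 17) .nil)))) (.g (nat_lit 0) (.e (nat_lit 287831) (nat_lit 0) .nil) .nil))) 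
(.lf (nat_lit 548621) (.g (nat_lit 1338) (.e (nat_lit 286756) (nat_lit 10) (.e (nat_lit 344157) (nat_lit 36) (.e (nat_lit 638999) (nat_lit 8) (.e (nat_lit 172082) (nat_lit 7) (.e (nat_lit 409639) (nat_lit 15) (.e (nat_lit 278566) (nat_lit 16) .nil)))))) (.g (nat_lit 1) (.e (nat_lit 289753) (nat_lit 0) .nil) .nil))))) (.nd (nat_lit 8) (.nd (nat_lit 9) 
(.lf (nat_lit 547981) (.g (nat_lit 1661) (.e (nat_lit 311040) (nat_lit 35) (.e (nat_lit 401454) (nat_lit 12) (.e (nat_lit 475197) (nat_lit 40) (.e (nat_lit 704595) (nat_lit 5) (.e (nat_lit 180282) (nat_lit 45) .nil))))) (.g (nat_lit 0) (.e (nat_lit 287574) (nat_lit 0) .nil) .nil))) 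
(.lf (nat_lit 548493) (.g (nat_lit 4226) (.e (nat_lit 286735) (nat_lit 3) (.e (nat_lit 98356) (nat_lit 26) (.e (nat_lit 426241) (nat_lit 9) (.e (nat_lit 426139) (nat_lit 3) (.e (nat_lit 204846) (nat_lit 24) (.e (nat_lit 319532) (nat_lit 16) .nil)))))) (.g (nat_lit 1) (.e (nat_lit 289542) (nat_lit 0) .nil) .nil)))) (.nd (nat_lit 9) 
(.lf (nat_lit 548237) (.g (nat_lit 1997) (.e (nat_lit 311341) (nat_lit 13) (.e (nat_lit 483413) (nat_lit 27) (.e (nat_lit 401448) (nat_lit 10) (.e (nat_lit 434285) (nat_lit 42) .nil)))) (.g (nat_lit 0) (.e (nat_lit 288517) (nat_lit 0) .nil) .nil))) 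
(.lf (nat_lit 548749) (.g (nat_lit 3916) (.e (nat_lit 286765) (nat_lit 15) (.e (nat_lit 3308) (nat_lit 202) (.e (nat_lit 573493) (nat_lit 15) (.e (nat_lit 81956) (nat_lit 23) (.e (nat_lit 98350) (nat_lit 24) (.e (nat_lit 417536) (nat_lit 16) .nil)))))) (.g (nat_lit 1) (.e (nat_lit 289940) (nat_lit 0) .nil) .nil)))))) (.nd (nat_lit 7) (.nd (nat_lit 8) (.nd (nat_lit 9) 
(.lf (nat_lit 547917) (.g (nat_lit 995) (.e (nat_lit 311040) (nat_lit 18) (.e (nat_lit 98365) (nat_lit 26) (.e (nat_lit 426327) (nat_lit 13) (.e (nat_lit 491264) (nat_lit 7) .nil)))) (.g (nat_lit 0) (.e (nat_lit 287473) (nat_lit 0) .nil) .nil))) 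
(.lf (nat_lit 548429) (.g (nat_lit 2542) (.e (nat_lit 286733) (nat_lit 2) (.e (nat_lit 90177) (nat_lit 15) (.e (nat_lit 188452) (nat_lit 23) (.e (nat_lit 204845) (nat_lit 24) (.e (nat_lit 327424) (nat_lit 16) .nil))))) (.g (nat_lit 1) (.e (nat_lit 289465) (nat_lit 0) .nil) .nil)))) (.nd (nat_lit 9) 
(.lf (nat_lit 548173) (.g (nat_lit 2157) (.e (nat_lit 311315) (nat_lit 3) (.e (nat_lit 204846) (nat_lit 24) (.e (nat_lit 319534) (nat_lit 16) (.e (nat_lit 286728) (nat_lit 0) (.e (nat_lit 1788) (nat_lit 119) (.e (nat_lit 516142) (nat_lit 8) (.e (nat_lit 417813) (nat_lit 9) .nil))))))) (.g (nat_lit 1) (.e (nat_lit 288039) (nat_lit 0) .nil) .nil))) 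
(.lf (nat_lit 548685) (.g (nat_lit 4098) (.e (nat_lit 286765) (nat_lit 15) (.e (nat_lit 3298) (nat_lit 202) (.e (nat_lit 573493) (nat_lit 15) (.e (nat_lit 81956) (nat_lit 23) (.e (nat_lit 98323) (nat_lit 17) (.e (nat_lit 6989) (nat_lit 377) (.e (nat_lit 2779) (nat_lit 178) .nil))))))) (.g (nat_lit 1) (.e (nat_lit 289860) (nat_lit 0) .nil) .nil))))) (.nd (nat_lit 8) (.nd (nat_lit 9) 
(.lf (nat_lit 548045) (.g (nat_lit 2683) (.e (nat_lit 311311) (nat_lit 2) (.e (nat_lit 196672) (nat_lit 15) (.e (nat_lit 81956) (nat_lit 23) (.e (nat_lit 98353) (nat_lit 25) (.e (nat_lit 417830) (nat_lit 19) .nil))))) (.g (nat_lit 0) (.e (nat_lit 287711) (nat_lit 0) .nil) .nil))) 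
(.lf (nat_lit 548557) (.g (nat_lit 1389) (.e (nat_lit 286743) (nat_lit 9) (.e (nat_lit 336337) (nat_lit 20) (.e (nat_lit 221219) (nat_lit 24) (.e (nat_lit 213030) (nat_lit 11) (.e (nat_lit 24617) (nat_lit 7) (.e (nat_lit 327424) (nat_lit 16) .nil)))))) (.g (nat_lit 1) (.e (nat_lit 289624) (nat_lit 0) .nil) .nil)))) (.nd (nat_lit 9) 
(.lf (nat_lit 548301) (.g (nat_lit 1658) (.e (nat_lit 311357) (nat_lit 28) (.e (nat_lit 344068) (nat_lit 0) (.e (nat_lit 3089) (nat_lit 191) (.e (nat_lit 483371) (nat_lit 21) (.e (nat_lit 319539) (nat_lit 19) .nil))))) (.g (nat_lit 1) (.e (nat_lit 289128) (nat_lit 0) .nil) .nil))) 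
(.lf (nat_lit 548813) (.g (nat_lit 2360) (.e (nat_lit 294924) (nat_lit 1) (.e (nat_lit 57688) (nat_lit 156) (.e (nat_lit 163933) (nat_lit 17) (.e (nat_lit 466954) (nat_lit 11) (.e (nat_lit 336069) (nat_lit 8) .nil))))) (.g (nat_lit 0) (.e (nat_lit 290442) (nat_lit 0) .nil) .nil))))))) (.nd (nat_lit 6) (.nd (nat_lit 7) (.nd (nat_lit 8) (.nd (nat_lit 9) 
(.lf (nat_lit 547885) (.g (nat_lit 668) (.e (nat_lit 303146) (nat_lit 14) (.e (nat_lit 491560) (nat_lit 10) (.e (nat_lit 344157) (nat_lit 36) .nil))) (.g (nat_lit 0) (.e (nat_lit 287405) (nat_lit 0) .nil) .nil))) 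
(.lf (nat_lit 548397) (.g (nat_lit 2225) (.e (nat_lit 286733) (nat_lit 2) (.e (nat_lit 90167) (nat_lit 13) (.e (nat_lit 172106) (nat_lit 10) (.e (nat_lit 434231) (nat_lit 23) (.e (nat_lit 532490) (nat_lit 0) .nil))))) (.g (nat_lit 0) (.e (nat_lit 289427) (nat_lit 0) .nil) .nil)))) (.nd (nat_lit 9) 
(.lf (nat_lit 548141) (.g (nat_lit 2996) (.e (nat_lit 311314) (nat_lit 3) (.e (nat_lit 204868) (nat_lit 29) (.e (nat_lit 360466) (nat_lit 3) (.e (nat_lit 516141) (nat_lit 8) (.e (nat_lit 417830) (nat_lit 19) .nil))))) (.g (nat_lit 1) (.e (nat_lit 287921) (nat_lit 0) .nil) .nil))) 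
(.lf (nat_lit 548653) (.g (nat_lit 1232) (.e (nat_lit 286759) (nat_lit 12) (.e (nat_lit 385115) (nat_lit 53) (.e (nat_lit 811045) (nat_lit 14) (.e (nat_lit 40997) (nat_lit 11) (.e (nat_lit 24617) (nat_lit 7) (.e (nat_lit 327424) (nat_lit 16) .nil)))))) (.g (nat_lit 1) (.e (nat_lit 289803) (nat_lit 0) .nil) .nil))))) (.nd (nat_lit 8) (.nd (nat_lit 9) 
(.lf (nat_lit 548013) (.g (nat_lit 606) (.e (nat_lit 311310) (nat_lit 2) (.e (nat_lit 196674) (nat_lit 15) (.e (nat_lit 81956) (nat_lit 23) .nil))) (.g (nat_lit 0) (.e (nat_lit 287648) (nat_lit 0) .nil) .nil))) 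
(.lf (nat_lit 548525) (.g (nat_lit 3142) (.e (nat_lit 286735) (nat_lit 3) (.e (nat_lit 98369) (nat_lit 28) (.e (nat_lit 442427) (nat_lit 23) (.e (nat_lit 204846) (nat_lit 24) (.e (nat_lit 319528) (nat_lit 16) .nil))))) (.g (nat_lit 1) (.e (nat_lit 289577) (nat_lit 0) .nil) .nil)))) (.nd (nat_lit 9) 
(.lf (nat_lit 548269) (.g (nat_lit 2211) (.e (nat_lit 311343) (nat_lit 13) (.e (nat_lit 483372) (nat_lit 21) (.e (nat_lit 319534) (nat_lit 16) (.e (nat_lit 286728) (nat_lit 0) (.e (nat_lit 1014) (nat_lit 81) .nil))))) (.g (nat_lit 0) (.e (nat_lit 288794) (nat_lit 0) .nil) .nil))) 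
(.lf (nat_lit 548781) (.g (nat_lit 1909) (.e (nat_lit 286768) (nat_lit 27) (.e (nat_lit 426340) (nat_lit 14) (.e (nat_lit 491571) (nat_lit 13) (.e (nat_lit 393242) (nat_lit 17) (.e (nat_lit 6966) (nat_lit 377) (.e (nat_lit 2779) (nat_lit 178) .nil)))))) (.g (nat_lit 1) (.e (nat_lit 290190) (nat_lit 0) .nil) .nil)))))) (.nd (nat_lit 7) (.nd (nat_lit 8) (.nd (nat_lit 9) 
(.lf (nat_lit 547949) (.g (nat_lit 1753) (.e (nat_lit 311040) (nat_lit 27) (.e (nat_lit 336235) (nat_lit 14) (.e (nat_lit 401438) (nat_lit 9) (.e (nat_lit 426533) (nat_lit 28) (.e (nat_lit 344075) (nat_lit 13) .nil))))) (.g (nat_lit 0) (.e (nat_lit 287526) (nat_lit 0) .nil) .nil))) 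
(.lf (nat_lit 548461) (.g (nat_lit 5208) (.e (nat_lit 286735) (nat_lit 3) (.e (nat_lit 98323) (nat_lit 17) (.e (nat_lit 6989) (nat_lit 377) (.e (nat_lit 2777) (nat_lit 178) (.e (nat_lit 286735) (nat_lit 3) (.e (nat_lit 98323) (nat_lit 17) (.e (nat_lit 6989) (nat_lit 377) (.e (nat_lit 2777) (nat_lit 178) .nil)))))))) (.g (nat_lit 1) (.e (nat_lit 289506) (nat_lit 0) .nil) .nil)))) (.nd (nat_lit 9) 
(.lf (nat_lit 548205) (.g (nat_lit 2339) (.e (nat_lit 311321) (nat_lit 9) (.e (nat_lit 426140) (nat_lit 3) (.e (nat_lit 204846) (nat_lit 24) (.e (nat_lit 319533) (nat_lit 16) .nil)))) (.g (nat_lit 0) (.e (nat_lit 288233) (nat_lit 0) .nil) .nil))) 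
(.lf (nat_lit 548717) (.g (nat_lit 3866) (.e (nat_lit 286765) (nat_lit 15) (.e (nat_lit 3307) (nat_lit 202) (.e (nat_lit 573491) (nat_lit 15) (.e (nat_lit 81954) (nat_lit 23) (.e (nat_lit 98325) (nat_lit 17) (.e (nat_lit 6986) (nat_lit 377) (.e (nat_lit 2779) (nat_lit 178) .nil))))))) (.g (nat_lit 1) (.e (nat_lit 289905) (nat_lit 0) .nil) .nil))))) (.nd (nat_lit 8) (.nd (nat_lit 9) 
(.lf (nat_lit 548077) (.g (nat_lit 3601) (.e (nat_lit 311312) (nat_lit 2) (.e (nat_lit 196666) (nat_lit 13) (.e (nat_lit 65610) (nat_lit 10) (.e (nat_lit 344117) (nat_lit 21) (.e (nat_lit 516106) (nat_lit 0) (.e (nat_lit 7936) (nat_lit 377) (.e (nat_lit 2814) (nat_lit 181) .nil))))))) (.g (nat_lit 1) (.e (nat_lit 287773) (nat_lit 0) .nil) .nil))) 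
(.lf (nat_lit 548589) (.g (nat_lit 5003) (.e (nat_lit 286753) (nat_lit 10) (.e (nat_lit 344160) (nat_lit 37) (.e (nat_lit 647201) (nat_lit 12) (.e (nat_lit 57574) (nat_lit 55) (.e (nat_lit 778466) (nat_lit 11) (.e (nat_lit 24617) (nat_lit 7) (.e (nat_lit 319533) (nat_lit 16) .nil))))))) (.g (nat_lit 1) (.e (nat_lit 289679) (nat_lit 0) .nil) .nil)))) (.nd (nat_lit 9) 
(.lf (nat_lit 548333) (.g (nat_lit 2525) (.e (nat_lit 286720) (nat_lit 0) (.e (nat_lit 1788) (nat_lit 119) (.e (nat_lit 516151) (nat_lit 9) (.e (nat_lit 426215) (nat_lit 9) .nil)))) (.g (nat_lit 0) (.e (nat_lit 289172) (nat_lit 0) .nil) .nil))) 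
(.lf (nat_lit 548845) (.g (nat_lit 2381) (.e (nat_lit 294928) (nat_lit 2) (.e (nat_lit 90170) (nat_lit 13) (.e (nat_lit 172115) (nat_lit 10) (.e (nat_lit 434231) (nat_lit 23) (.e (nat_lit 532525) (nat_lit 8) (.e (nat_lit 335616) (nat_lit 17) .nil)))))) (.g (nat_lit 1) (.e (nat_lit 290490) (nat_lit 0) .nil) .nil)))))))) 
(.nd (nat_lit 5) (.nd (nat_lit 6) (.nd (nat_lit 7) (.nd (nat_lit 8) (.nd (nat_lit 9) 
(.lf (nat_lit 547869) (.g (nat_lit 559) (.e (nat_lit 303145) (nat_lit 13) (.e (nat_lit 483346) (nat_lit 17) (.e (nat_lit 6434) (nat_lit 343) .nil))) (.g (nat_lit 0) (.e (nat_lit 287084) (nat_lit 0) .nil) .nil))) 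
(.lf (nat_lit 548381) (.g (nat_lit 3123) (.e (nat_lit 286732) (nat_lit 2) (.e (nat_lit 90170) (nat_lit 13) (.e (nat_lit 172126) (nat_lit 14) (.e (nat_lit 491537) (nat_lit 2) (.e (nat_lit 90133) (nat_lit 9) .nil))))) (.g (nat_lit 0) (.e (nat_lit 289373) (nat_lit 0) .nil) .nil)))) (.nd (nat_lit 9) 
(.lf (nat_lit 548125) (.g (nat_lit 1309) (.e (nat_lit 311313) (nat_lit 3) (.e (nat_lit 204877) (nat_lit 31) (.e (nat_lit 376865) (nat_lit 22) (.e (nat_lit 90165) (nat_lit 12) .nil)))) (.g (nat_lit 0) (.e (nat_lit 287863) (nat_lit 0) .nil) .nil))) 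
(.lf (nat_lit 548637) (.g (nat_lit 2492) (.e (nat_lit 286759) (nat_lit 12) (.e (nat_lit 385074) (nat_lit 31) (.e (nat_lit 573493) (nat_lit 15) (.e (nat_lit 81962) (nat_lit 25) (.e (nat_lit 139299) (nat_lit 18) .nil))))) (.g (nat_lit 0) (.e (nat_lit 289786) (nat_lit 0) .nil) .nil))))) (.nd (nat_lit 8) (.nd (nat_lit 9) 
(.lf (nat_lit 547997) (.g (nat_lit 1520) (.e (nat_lit 311040) (nat_lit 35) (.e (nat_lit 401454) (nat_lit 12) (.e (nat_lit 475210) (nat_lit 41) (.e (nat_lit 712742) (nat_lit 27) .nil)))) (.g (nat_lit 0) (.e (nat_lit 287591) (nat_lit 0) .nil) .nil))) 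
(.lf (nat_lit 548509) (.g (nat_lit 2753) (.e (nat_lit 286735) (nat_lit 3) (.e (nat_lit 98365) (nat_lit 26) (.e (nat_lit 426188) (nat_lit 9) (.e (nat_lit 426131) (nat_lit 3) (.e (nat_lit 204845) (nat_lit 24) (.e (nat_lit 319530) (nat_lit 16) .nil)))))) (.g (nat_lit 1) (.e (nat_lit 289560) (nat_lit 0) .nil) .nil)))) (.nd (nat_lit 9) 
(.lf (nat_lit 548253) (.g (nat_lit 3106) (.e (nat_lit 311343) (nat_lit 13) (.e (nat_lit 483341) (nat_lit 9) (.e (nat_lit 426107) (nat_lit 1) (.e (nat_lit 164347) (nat_lit 240) .nil)))) (.g (nat_lit 0) (.e (nat_lit 288675) (nat_lit 0) .nil) .nil))) 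
(.lf (nat_lit 548765) (.g (nat_lit 4517) (.e (nat_lit 286768) (nat_lit 27) (.e (nat_lit 426338) (nat_lit 14) (.e (nat_lit 491571) (nat_lit 13) (.e (nat_lit 393238) (nat_lit 17) (.e (nat_lit 6989) (nat_lit 377) (.e (nat_lit 2777) (nat_lit 178) .nil)))))) (.g (nat_lit 1) (.e (nat_lit 290173) (nat_lit 0) .nil) .nil)))))) (.nd (nat_lit 7) (.nd (nat_lit 8) (.nd (nat_lit 9) 
(.lf (nat_lit 547933) (.g (nat_lit 3693) (.e (nat_lit 303152) (nat_lit 27) (.e (nat_lit 336226) (nat_lit 14) (.e (nat_lit 401459) (nat_lit 13) (.e (nat_lit 483372) (nat_lit 21) (.e (nat_lit 327424) (nat_lit 18) .nil))))) (.g (nat_lit 0) (.e (nat_lit 287501) (nat_lit 0) .nil) .nil))) 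
(.lf (nat_lit 548445) (.g (nat_lit 1003) (.e (nat_lit 286734) (nat_lit 3) (.e (nat_lit 98358) (nat_lit 26) (.e (nat_lit 426227) (nat_lit 9) .nil))) (.g (nat_lit 0) (.e (nat_lit 289484) (nat_lit 0) .nil) .nil)))) (.nd (nat_lit 9) 
(.lf (nat_lit 548189) (.g (nat_lit 303) (.e (nat_lit 311315) (nat_lit 3) (.e (nat_lit 204866) (nat_lit 28) (.e (nat_lit 352315) (nat_lit 23) .nil))) (.g (nat_lit 0) (.e (nat_lit 288068) (nat_lit 0) .nil) .nil))) 
(.lf (nat_lit 548701) (.g (nat_lit 2584) (.e (nat_lit 286765) (nat_lit 15) (.e (nat_lit 3304) (nat_lit 202) (.e (nat_lit 573485) (nat_lit 13) (.e (nat_lit 65604) (nat_lit 9) (.e (nat_lit 336013) (nat_lit 2) (.e (nat_lit 90165) (nat_lit 12) (.e (nat_lit 164208) (nat_lit 176) (.e (nat_lit 2781) (nat_lit 178) .nil)))))))) (.g (nat_lit 1) (.e (nat_lit 289876) (nat_lit 0) .nil) .nil))))) 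
(.nd (nat_lit 8) (.nd (nat_lit 9) 
(.lf (nat_lit 548061) (.g (nat_lit 3723) (.e (nat_lit 311312) (nat_lit 2) (.e (nat_lit 196666) (nat_lit 13) (.e (nat_lit 65610) (nat_lit 10) (.e (nat_lit 344117) (nat_lit 21) (.e (nat_lit 516099) (nat_lit 0) (.e (nat_lit 7936) (nat_lit 377) (.e (nat_lit 2817) (nat_lit 181) .nil))))))) (.g (nat_lit 1) (.e (nat_lit 287757) (nat_lit 0) .nil) .nil))) 
(.lf (nat_lit 548573) (.g (nat_lit 2158) (.e (nat_lit 286751) (nat_lit 10) (.e (nat_lit 344160) (nat_lit 37) (.e (nat_lit 647200) (nat_lit 12) (.e (nat_lit 57572) (nat_lit 54) (.e (nat_lit 770071) (nat_lit 8) .nil))))) (.g (nat_lit 0) (.e (nat_lit 289653) (nat_lit 0) .nil) .nil)))) (.nd (nat_lit 9) 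
(.lf (nat_lit 548317) (.g (nat_lit 1319) (.e (nat_lit 311357) (nat_lit 28) (.e (nat_lit 344069) (nat_lit 0) (.e (nat_lit 3090) (nat_lit 191) (.e (nat_lit 483355) (nat_lit 17) .nil)))) (.g (nat_lit 0) (.e (nat_lit 289146) (nat_lit 0) .nil) .nil))) 
(.lf (nat_lit 548829) (.g (nat_lit 392) (.e (nat_lit 294927) (nat_lit 2) (.e (nat_lit 90176) (nat_lit 15) (.e (nat_lit 188450) (nat_lit 23) .nil))) (.g (nat_lit 0) (.e (nat_lit 290472) (nat_lit 0) .nil) .nil))))))) (.nd (nat_lit 6) (.nd (nat_lit 7) (.nd (nat_lit 8) (.nd (nat_lit 9) 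
(.lf (nat_lit 547901) (.g (nat_lit 4014) (.e (nat_lit 303147) (nat_lit 15) (.e (nat_lit 1858) (nat_lit 124) (.e (nat_lit 557109) (nat_lit 15) (.e (nat_lit 188452) (nat_lit 23) (.e (nat_lit 204821) (nat_lit 17) .nil))))) (.g (nat_lit 0) (.e (nat_lit 287450) (nat_lit 0) .nil) .nil))) 
(.lf (nat_lit 548413) (.g (nat_lit 3755) (.e (nat_lit 286733) (nat_lit 2) (.e (nat_lit 90170) (nat_lit 13) (.e (nat_lit 172113) (nat_lit 10) (.e (nat_lit 434247) (nat_lit 28) (.e (nat_lit 573457) (nat_lit 9) (.e (nat_lit 365) (nat_lit 31) (.e (nat_lit 417811) (nat_lit 6) .nil))))))) (.g (nat_lit 1) (.e (nat_lit 289445) (nat_lit 0) .nil) .nil)))) (.nd (nat_lit 9) 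
(.lf (nat_lit 548157) (.g (nat_lit 1835) (.e (nat_lit 311315) (nat_lit 3) (.e (nat_lit 204846) (nat_lit 24) (.e (nat_lit 319504) (nat_lit 10) (.e (nat_lit 5734) (nat_lit 312) .nil)))) (.g (nat_lit 0) (.e (nat_lit 288006) (nat_lit 0) .nil) .nil))) 
(.lf (nat_lit 548669) (.g (nat_lit 2103) (.e (nat_lit 286765) (nat_lit 15) (.e (nat_lit 3295) (nat_lit 202) (.e (nat_lit 573485) (nat_lit 13) (.e (nat_lit 65604) (nat_lit 9) (.e (nat_lit 336013) (nat_lit 2) (.e (nat_lit 90165) (nat_lit 12) (.e (nat_lit 164208) (nat_lit 176) (.e (nat_lit 2779) (nat_lit 178) .nil)))))))) (.g (nat_lit 1) (.e (nat_lit 289829) (nat_lit 0) .nil) .nil))))) 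
(.nd (nat_lit 8) (.nd (nat_lit 9) 
(.lf (nat_lit 548029) (.g (nat_lit 3065) (.e (nat_lit 311311) (nat_lit 2) (.e (nat_lit 196666) (nat_lit 13) (.e (nat_lit 65610) (nat_lit 10) (.e (nat_lit 344117) (nat_lit 21) (.e (nat_lit 516106) (nat_lit 0) (.e (nat_lit 7936) (nat_lit 377) (.e (nat_lit 2814) (nat_lit 181) .nil))))))) (.g (nat_lit 1) (.e (nat_lit 287676) (nat_lit 0) .nil) .nil))) 
(.lf (nat_lit 548541) (.g (nat_lit 1524) (.e (nat_lit 286739) (nat_lit 7) (.e (nat_lit 319504) (nat_lit 10) (.e (nat_lit 806) (nat_lit 67) (.e (nat_lit 712755) (nat_lit 30) .nil)))) (.g (nat_lit 0) (.e (nat_lit 289597) (nat_lit 0) .nil) .nil)))) (.nd (nat_lit 9) 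
(.lf (nat_lit 548285) (.g (nat_lit 1029) (.e (nat_lit 319232) (nat_lit 25) (.e (nat_lit 319491) (nat_lit 0) (.e (nat_lit 5664) (nat_lit 312) (.e (nat_lit 2852) (nat_lit 184) (.e (nat_lit 426536) (nat_lit 28) .nil))))) (.g (nat_lit 0) (.e (nat_lit 289093) (nat_lit 0) .nil) .nil))) 
(.lf (nat_lit 548797) (.g (nat_lit 1075) (.e (nat_lit 286770) (nat_lit 28) (.e (nat_lit 434181) (nat_lit 0) (.e (nat_lit 1426) (nat_lit 108) (.e (nat_lit 336421) (nat_lit 28) (.e (nat_lit 434187) (nat_lit 13) (.e (nat_lit 2782) (nat_lit 178) .nil)))))) (.g (nat_lit 1) (.e (nat_lit 290217) (nat_lit 0) .nil) .nil)))))) (.nd (nat_lit 7) (.nd (nat_lit 8) (.nd (nat_lit 9) 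
(.lf (nat_lit 547965) (.g (nat_lit 1585) (.e (nat_lit 303154) (nat_lit 28) (.e (nat_lit 344069) (nat_lit 0) (.e (nat_lit 3089) (nat_lit 191) (.e (nat_lit 483372) (nat_lit 21) (.e (nat_lit 327424) (nat_lit 18) .nil))))) (.g (nat_lit 1) (.e (nat_lit 287545) (nat_lit 0) .nil) .nil))) 
(.lf (nat_lit 548477) (.g (nat_lit 3358) (.e (nat_lit 286735) (nat_lit 3) (.e (nat_lit 98349) (nat_lit 24) (.e (nat_lit 409645) (nat_lit 18) (.e (nat_lit 303119) (nat_lit 3) (.e (nat_lit 204846) (nat_lit 24) (.e (nat_lit 327424) (nat_lit 6) .nil)))))) (.g (nat_lit 1) (.e (nat_lit 289525) (nat_lit 0) .nil) .nil)))) (.nd (nat_lit 9) 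
(.lf (nat_lit 548221) (.g (nat_lit 884) (.e (nat_lit 311324) (nat_lit 9) (.e (nat_lit 426568) (nat_lit 34) (.e (nat_lit 393238) (nat_lit 17) .nil))) (.g (nat_lit 0) (.e (nat_lit 288315) (nat_lit 0) .nil) .nil))) 
(.lf (nat_lit 548733) (.g (nat_lit 5604) (.e (nat_lit 286765) (nat_lit 15) (.e (nat_lit 3308) (nat_lit 202) (.e (nat_lit 573482) (nat_lit 13) (.e (nat_lit 65619) (nat_lit 10) (.e (nat_lit 344117) (nat_lit 21) (.e (nat_lit 516106) (nat_lit 0) (.e (nat_lit 6986) (nat_lit 377) (.e (nat_lit 2777) (nat_lit 178) .nil)))))))) (.g (nat_lit 1) (.e (nat_lit 289924) (nat_lit 0) .nil) .nil))))) 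
(.nd (nat_lit 8) (.nd (nat_lit 9) 
(.lf (nat_lit 548093) (.g (nat_lit 2242) (.e (nat_lit 311312) (nat_lit 2) (.e (nat_lit 196672) (nat_lit 15) (.e (nat_lit 81954) (nat_lit 23) (.e (nat_lit 98323) (nat_lit 17) (.e (nat_lit 6967) (nat_lit 377) (.e (nat_lit 2820) (nat_lit 181) .nil)))))) (.g (nat_lit 1) (.e (nat_lit 287813) (nat_lit 0) .nil) .nil))) 
(.lf (nat_lit 548605) (.g (nat_lit 984) (.e (nat_lit 286755) (nat_lit 10) (.e (nat_lit 344157) (nat_lit 36) (.e (nat_lit 638999) (nat_lit 8) (.e (nat_lit 172079) (nat_lit 7) (.e (nat_lit 409639) (nat_lit 15) (.e (nat_lit 278567) (nat_lit 16) .nil)))))) (.g (nat_lit 1) (.e (nat_lit 289724) (nat_lit 0) .nil) .nil)))) (.nd (nat_lit 9) 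
(.lf (nat_lit 548349) (.g (nat_lit 4274) (.e (nat_lit 286726) (nat_lit 0) (.e (nat_lit 1788) (nat_lit 119) (.e (nat_lit 516151) (nat_lit 9) (.e (nat_lit 426211) (nat_lit 9) (.e (nat_lit 426140) (nat_lit 3) .nil))))) (.g (nat_lit 0) (.e (nat_lit 289204) (nat_lit 0) .nil) .nil))) 
(.lf (nat_lit 548861) (.g (nat_lit 3962) (.e (nat_lit 294931) (nat_lit 3) (.e (nat_lit 98359) (nat_lit 26) (.e (nat_lit 426211) (nat_lit 9) (.e (nat_lit 426125) (nat_lit 2) (.e (nat_lit 196657) (nat_lit 12) .nil))))) (.g (nat_lit 0) (.e (nat_lit 290509) (nat_lit 0) .nil) .nil))))))))))) 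
(.nd (nat_lit 2) (.nd (nat_lit 3) (.nd (nat_lit 4) (.nd (nat_lit 5) (.nd (nat_lit 6) 
(.nd (nat_lit 7) (.nd (nat_lit 8) (.nd (nat_lit 9) 
(.lf (nat_lit 547843) (.g (nat_lit 1173) (.e (nat_lit 303143) (nat_lit 12) (.e (nat_lit 475214) (nat_lit 42) (.e (nat_lit 720954) (nat_lit 25) (.e (nat_lit 122624) (nat_lit 11) .nil)))) (.g (nat_lit 0) (.e (nat_lit 286960) (nat_lit 0) .nil) .nil))) 
(.lf (nat_lit 548355) (.g (nat_lit 3912) (.e (nat_lit 286728) (nat_lit 0) (.e (nat_lit 1788) (nat_lit 119) (.e (nat_lit 516151) (nat_lit 9) (.e (nat_lit 426285) (nat_lit 10) (.e (nat_lit 434230) (nat_lit 23) .nil))))) (.g (nat_lit 0) (.e (nat_lit 289210) (nat_lit 0) .nil) .nil)))) (.nd (nat_lit 9) 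
(.lf (nat_lit 548099) (.g (nat_lit 3002) (.e (nat_lit 311312) (nat_lit 2) (.e (nat_lit 196672) (nat_lit 15) (.e (nat_lit 81954) (nat_lit 23) (.e (nat_lit 98325) (nat_lit 17) (.e (nat_lit 6966) (nat_lit 377) (.e (nat_lit 2816) (nat_lit 181) .nil)))))) (.g (nat_lit 1) (.e (nat_lit 287819) (nat_lit 0) .nil) .nil))) 
(.lf (nat_lit 548611) (.g (nat_lit 1087) (.e (nat_lit 286755) (nat_lit 10) (.e (nat_lit 344157) (nat_lit 36) (.e (nat_lit 638999) (nat_lit 8) (.e (nat_lit 172082) (nat_lit 7) (.e (nat_lit 409639) (nat_lit 15) (.e (nat_lit 278567) (nat_lit 16) .nil)))))) (.g (nat_lit 1) (.e (nat_lit 289732) (nat_lit 0) .nil) .nil))))) (.nd (nat_lit 8) (.nd (nat_lit 9) 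
(.lf (nat_lit 547971) (.g (nat_lit 786) (.e (nat_lit 311040) (nat_lit 28) (.e (nat_lit 344068) (nat_lit 0) (.e (nat_lit 2857) (nat_lit 184) (.e (nat_lit 426533) (nat_lit 28) (.e (nat_lit 344075) (nat_lit 13) .nil))))) (.g (nat_lit 0) (.e (nat_lit 287551) (nat_lit 0) .nil) .nil))) 
(.lf (nat_lit 548483) (.g (nat_lit 456) (.e (nat_lit 286735) (nat_lit 3) (.e (nat_lit 98350) (nat_lit 24) (.e (nat_lit 417536) (nat_lit 9) .nil))) (.g (nat_lit 0) (.e (nat_lit 289531) (nat_lit 0) .nil) .nil)))) (.nd (nat_lit 9) 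
(.lf (nat_lit 548227) (.g (nat_lit 3561) (.e (nat_lit 311339) (nat_lit 12) (.e (nat_lit 475184) (nat_lit 29) (.e (nat_lit 557109) (nat_lit 15) (.e (nat_lit 188449) (nat_lit 22) (.e (nat_lit 196683) (nat_lit 18) .nil))))) (.g (nat_lit 0) (.e (nat_lit 288399) (nat_lit 0) .nil) .nil))) 
(.lf (nat_lit 548739) (.g (nat_lit 3856) (.e (nat_lit 286765) (nat_lit 15) (.e (nat_lit 3308) (nat_lit 202) (.e (nat_lit 573493) (nat_lit 15) (.e (nat_lit 81954) (nat_lit 23) (.e (nat_lit 98325) (nat_lit 17) (.e (nat_lit 6986) (nat_lit 377) (.e (nat_lit 2779) (nat_lit 178) .nil))))))) (.g (nat_lit 1) (.e (nat_lit 289930) (nat_lit 0) .nil) .nil)))))) 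
(.nd (nat_lit 7) (.nd (nat_lit 8) (.nd (nat_lit 9) 
(.lf (nat_lit 547907) (.g (nat_lit 2106) (.e (nat_lit 311040) (nat_lit 15) (.e (nat_lit 1859) (nat_lit 124) (.e (nat_lit 557109) (nat_lit 15) (.e (nat_lit 188449) (nat_lit 22) (.e (nat_lit 196661) (nat_lit 12) .nil))))) (.g (nat_lit 0) (.e (nat_lit 287463) (nat_lit 0) .nil) .nil))) 
(.lf (nat_lit 548419) (.g (nat_lit 2859) (.e (nat_lit 286733) (nat_lit 2) (.e (nat_lit 90176) (nat_lit 15) (.e (nat_lit 188450) (nat_lit 23) (.e (nat_lit 204845) (nat_lit 24) (.e (nat_lit 327424) (nat_lit 16) .nil))))) (.g (nat_lit 1) (.e (nat_lit 289455) (nat_lit 0) .nil) .nil)))) (.nd (nat_lit 9) 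
(.lf (nat_lit 548163) (.g (nat_lit 1750) (.e (nat_lit 311315) (nat_lit 3) (.e (nat_lit 204846) (nat_lit 24) (.e (nat_lit 319529) (nat_lit 16) (.e (nat_lit 286727) (nat_lit 0) (.e (nat_lit 1799) (nat_lit 119) .nil))))) (.g (nat_lit 0) (.e (nat_lit 288029) (nat_lit 0) .nil) .nil))) 
(.lf (nat_lit 548675) (.g (nat_lit 4458) (.e (nat_lit 286765) (nat_lit 15) (.e (nat_lit 3296) (nat_lit 202) (.e (nat_lit 573482) (nat_lit 13) (.e (nat_lit 65619) (nat_lit 10) (.e (nat_lit 344117) (nat_lit 21) (.e (nat_lit 516106) (nat_lit 0) (.e (nat_lit 6986) (nat_lit 377) (.e (nat_lit 2781) (nat_lit 178) .nil)))))))) (.g (nat_lit 1) (.e (nat_lit 289839) (nat_lit 0) .nil) .nil))))) 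
(.nd (nat_lit 8) (.nd (nat_lit 9) 
(.lf (nat_lit 548035) (.g (nat_lit 1821) (.e (nat_lit 311311) (nat_lit 2) (.e (nat_lit 196666) (nat_lit 13) (.e (nat_lit 65617) (nat_lit 10) (.e (nat_lit 344117) (nat_lit 21) (.e (nat_lit 516138) (nat_lit 7) .nil))))) (.g (nat_lit 0) (.e (nat_lit 287683) (nat_lit 0) .nil) .nil))) 
(.lf (nat_lit 548547) (.g (nat_lit 395) (.e (nat_lit 286740) (nat_lit 7) (.e (nat_lit 319527) (nat_lit 15) (.e (nat_lit 278547) (nat_lit 8) (.e (nat_lit 303124) (nat_lit 7) (.e (nat_lit 409635) (nat_lit 14) (.e (nat_lit 270372) (nat_lit 16) .nil)))))) (.g (nat_lit 1) (.e (nat_lit 289606) (nat_lit 0) .nil) .nil)))) (.nd (nat_lit 9) 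
(.lf (nat_lit 548291) (.g (nat_lit 3007) (.e (nat_lit 311353) (nat_lit 27) (.e (nat_lit 336228) (nat_lit 14) (.e (nat_lit 401458) (nat_lit 13) (.e (nat_lit 483372) (nat_lit 21) (.e (nat_lit 319539) (nat_lit 19) .nil))))) (.g (nat_lit 1) (.e (nat_lit 289105) (nat_lit 0) .nil) .nil))) 
(.lf (nat_lit 548803) (.g (nat_lit 1145) (.e (nat_lit 286771) (nat_lit 29) (.e (nat_lit 442379) (nat_lit 0) (.e (nat_lit 2059) (nat_lit 142) (.e (nat_lit 704595) (nat_lit 5) .nil)))) (.g (nat_lit 0) (.e (nat_lit 290256) (nat_lit 0) .nil) .nil))))))) (.nd (nat_lit 6) (.nd (nat_lit 7) (.nd (nat_lit 8) (.nd (nat_lit 9) 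
(.lf (nat_lit 547875) (.g (nat_lit 955) (.e (nat_lit 303145) (nat_lit 13) (.e (nat_lit 483406) (nat_lit 26) (.e (nat_lit 385115) (nat_lit 53) .nil))) (.g (nat_lit 0) (.e (nat_lit 287235) (nat_lit 0) .nil) .nil))) 
(.lf (nat_lit 548387) (.g (nat_lit 2038) (.e (nat_lit 286733) (nat_lit 2) (.e (nat_lit 90128) (nat_lit 9) (.e (nat_lit 3044) (nat_lit 189) (.e (nat_lit 466975) (nat_lit 22) (.e (nat_lit 196626) (nat_lit 9) (.e (nat_lit 1400) (nat_lit 106) (.e (nat_lit 327424) (nat_lit 16) .nil))))))) (.g (nat_lit 1) (.e (nat_lit 289397) (nat_lit 0) .nil) .nil)))) (.nd (nat_lit 9) 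
(.lf (nat_lit 548131) (.g (nat_lit 1997) (.e (nat_lit 311314) (nat_lit 3) (.e (nat_lit 204846) (nat_lit 24) (.e (nat_lit 319529) (nat_lit 16) (.e (nat_lit 286735) (nat_lit 3) (.e (nat_lit 98353) (nat_lit 25) .nil))))) (.g (nat_lit 0) (.e (nat_lit 287877) (nat_lit 0) .nil) .nil))) 
(.lf (nat_lit 548643) (.g (nat_lit 2926) (.e (nat_lit 286759) (nat_lit 12) (.e (nat_lit 385107) (nat_lit 51) (.e (nat_lit 794676) (nat_lit 24) (.e (nat_lit 213030) (nat_lit 11) (.e (nat_lit 24617) (nat_lit 7) (.e (nat_lit 319529) (nat_lit 16) .nil)))))) (.g (nat_lit 1) (.e (nat_lit 289793) (nat_lit 0) .nil) .nil))))) (.nd (nat_lit 8) (.nd (nat_lit 9) 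
(.lf (nat_lit 548003) (.g (nat_lit 1156) (.e (nat_lit 311308) (nat_lit 1) (.e (nat_lit 164332) (nat_lit 230) (.e (nat_lit 163884) (nat_lit 5) (.e (nat_lit 229120) (nat_lit 13) .nil)))) (.g (nat_lit 0) (.e (nat_lit 287611) (nat_lit 0) .nil) .nil))) 
(.lf (nat_lit 548515) (.g (nat_lit 3161) (.e (nat_lit 286735) (nat_lit 3) (.e (nat_lit 98365) (nat_lit 26) (.e (nat_lit 426200) (nat_lit 9) (.e (nat_lit 426131) (nat_lit 3) (.e (nat_lit 204846) (nat_lit 24) (.e (nat_lit 327424) (nat_lit 16) .nil)))))) (.g (nat_lit 1) (.e (nat_lit 289566) (nat_lit 0) .nil) .nil)))) (.nd (nat_lit 9) 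
(.lf (nat_lit 548259) (.g (nat_lit 447) (.e (nat_lit 311343) (nat_lit 13) (.e (nat_lit 483372) (nat_lit 21) (.e (nat_lit 319531) (nat_lit 16) .nil))) (.g (nat_lit 0) (.e (nat_lit 288747) (nat_lit 0) .nil) .nil))) 
(.lf (nat_lit 548771) (.g (nat_lit 1453) (.e (nat_lit 286768) (nat_lit 27) (.e (nat_lit 426339) (nat_lit 14) (.e (nat_lit 491571) (nat_lit 13) (.e (nat_lit 393242) (nat_lit 17) (.e (nat_lit 6966) (nat_lit 377) .nil))))) (.g (nat_lit 0) (.e (nat_lit 290179) (nat_lit 0) .nil) .nil)))))) (.nd (nat_lit 7) (.nd (nat_lit 8) (.nd (nat_lit 9) 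
(.lf (nat_lit 547939) (.g (nat_lit 1497) (.e (nat_lit 303153) (nat_lit 27) (.e (nat_lit 336408) (nat_lit 27) (.e (nat_lit 426200) (nat_lit 9) (.e (nat_lit 426131) (nat_lit 3) (.e (nat_lit 212736) (nat_lit 7) .nil))))) (.g (nat_lit 0) (.e (nat_lit 287509) (nat_lit 0) .nil) .nil))) 
(.lf (nat_lit 548451) (.g (nat_lit 3651) (.e (nat_lit 286734) (nat_lit 3) (.e (nat_lit 98370) (nat_lit 28) (.e (nat_lit 442426) (nat_lit 23) (.e (nat_lit 204846) (nat_lit 24) (.e (nat_lit 319534) (nat_lit 16) .nil))))) (.g (nat_lit 1) (.e (nat_lit 289492) (nat_lit 0) .nil) .nil)))) (.nd (nat_lit 9) 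
(.lf (nat_lit 548195) (.g (nat_lit 1862) (.e (nat_lit 311315) (nat_lit 3) (.e (nat_lit 204868) (nat_lit 29) (.e (nat_lit 360466) (nat_lit 3) (.e (nat_lit 516141) (nat_lit 8) (.e (nat_lit 425728) (nat_lit 19) .nil))))) (.g (nat_lit 0) (.e (nat_lit 288093) (nat_lit 0) .nil) .nil))) 
(.lf (nat_lit 548707) (.g (nat_lit 4369) (.e (nat_lit 286765) (nat_lit 15) (.e (nat_lit 3304) (nat_lit 202) (.e (nat_lit 573485) (nat_lit 13) (.e (nat_lit 65619) (nat_lit 10) (.e (nat_lit 344117) (nat_lit 21) (.e (nat_lit 516106) (nat_lit 0) (.e (nat_lit 6986) (nat_lit 377) (.e (nat_lit 2777) (nat_lit 178) .nil)))))))) (.g (nat_lit 1) (.e (nat_lit 289882) (nat_lit 0) .nil) .nil))))) 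
(.nd (nat_lit 8) (.nd (nat_lit 9) 
(.lf (nat_lit 548067) (.g (nat_lit 3083) (.e (nat_lit 311312) (nat_lit 2) (.e (nat_lit 196666) (nat_lit 13) (.e (nat_lit 65610) (nat_lit 10) (.e (nat_lit 344117) (nat_lit 21) (.e (nat_lit 516106) (nat_lit 0) (.e (nat_lit 6966) (nat_lit 377) (.e (nat_lit 2814) (nat_lit 181) .nil))))))) (.g (nat_lit 1) (.e (nat_lit 287763) (nat_lit 0) .nil) .nil))) 
(.lf (nat_lit 548579) (.g (nat_lit 1402) (.e (nat_lit 286753) (nat_lit 10) (.e (nat_lit 344157) (nat_lit 36) (.e (nat_lit 638999) (nat_lit 8) (.e (nat_lit 172082) (nat_lit 7) (.e (nat_lit 409638) (nat_lit 15) (.e (nat_lit 278567) (nat_lit 16) .nil)))))) (.g (nat_lit 1) (.e (nat_lit 289667) (nat_lit 0) .nil) .nil)))) (.nd (nat_lit 9) 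
(.lf (nat_lit 548323) (.g (nat_lit 531) (.e (nat_lit 319232) (nat_lit 30) (.e (nat_lit 360482) (nat_lit 15) (.e (nat_lit 647171) (nat_lit 0) (.e (nat_lit 2829) (nat_lit 182) .nil)))) (.g (nat_lit 0) (.e (nat_lit 289160) (nat_lit 0) .nil) .nil))) 
(.lf (nat_lit 548835) (.g (nat_lit 2081) (.e (nat_lit 294928) (nat_lit 2) (.e (nat_lit 90167) (nat_lit 13) (.e (nat_lit 172126) (nat_lit 14) (.e (nat_lit 491540) (nat_lit 3) (.e (nat_lit 98352) (nat_lit 25) (.e (nat_lit 417812) (nat_lit 7) .nil)))))) (.g (nat_lit 1) (.e (nat_lit 290480) (nat_lit 0) .nil) .nil)))))))) 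
(.nd (nat_lit 5) (.nd (nat_lit 6) (.nd (nat_lit 7) (.nd (nat_lit 8) (.nd (nat_lit 9) 
(.lf (nat_lit 547859) (.g (nat_lit 2284) (.e (nat_lit 303144) (nat_lit 13) (.e (nat_lit 483413) (nat_lit 27) (.e (nat_lit 401446) (nat_lit 10) (.e (nat_lit 434202) (nat_lit 18) (.e (nat_lit 6058) (nat_lit 327) .nil))))) (.g (nat_lit 0) (.e (nat_lit 287041) (nat_lit 0) .nil) .nil))) 
(.lf (nat_lit 548371) (.g (nat_lit 2824) (.e (nat_lit 286732) (nat_lit 2) (.e (nat_lit 90170) (nat_lit 13) (.e (nat_lit 172106) (nat_lit 10) (.e (nat_lit 434231) (nat_lit 23) (.e (nat_lit 532483) (nat_lit 0) .nil))))) (.g (nat_lit 0) (.e (nat_lit 289363) (nat_lit 0) .nil) .nil)))) (.nd (nat_lit 9) 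
(.lf (nat_lit 548115) (.g (nat_lit 1339) (.e (nat_lit 311312) (nat_lit 2) (.e (nat_lit 196674) (nat_lit 15) (.e (nat_lit 81954) (nat_lit 23) (.e (nat_lit 98325) (nat_lit 17) .nil)))) (.g (nat_lit 0) (.e (nat_lit 287842) (nat_lit 0) .nil) .nil))) 
(.lf (nat_lit 548627) (.g (nat_lit 1243) (.e (nat_lit 286758) (nat_lit 12) (.e (nat_lit 385109) (nat_lit 51) (.e (nat_lit 794683) (nat_lit 25) (.e (nat_lit 221190) (nat_lit 11) .nil)))) (.g (nat_lit 0) (.e (nat_lit 289774) (nat_lit 0) .nil) .nil))))) (.nd (nat_lit 8) (.nd (nat_lit 9) 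
(.lf (nat_lit 547987) (.g (nat_lit 2281) (.e (nat_lit 311040) (nat_lit 35) (.e (nat_lit 401454) (nat_lit 12) (.e (nat_lit 475198) (nat_lit 40) (.e (nat_lit 704596) (nat_lit 5) (.e (nat_lit 180287) (nat_lit 45) .nil))))) (.g (nat_lit 0) (.e (nat_lit 287580) (nat_lit 0) .nil) .nil))) 
(.lf (nat_lit 548499) (.g (nat_lit 1043) (.e (nat_lit 286735) (nat_lit 3) (.e (nat_lit 98358) (nat_lit 26) (.e (nat_lit 426248) (nat_lit 9) .nil))) (.g (nat_lit 0) (.e (nat_lit 289549) (nat_lit 0) .nil) .nil)))) (.nd (nat_lit 9) 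
(.lf (nat_lit 548243) (.g (nat_lit 271) (.e (nat_lit 311342) (nat_lit 13) (.e (nat_lit 483413) (nat_lit 27) (.e (nat_lit 401448) (nat_lit 10) .nil))) (.g (nat_lit 0) (.e (nat_lit 288635) (nat_lit 0) .nil) .nil))) 
(.lf (nat_lit 548755) (.g (nat_lit 2425) (.e (nat_lit 294656) (nat_lit 18) (.e (nat_lit 204863) (nat_lit 27) (.e (nat_lit 344129) (nat_lit 26) (.e (nat_lit 557104) (nat_lit 14) (.e (nat_lit 180252) (nat_lit 10) .nil))))) (.g (nat_lit 0) (.e (nat_lit 290055) (nat_lit 0) .nil) .nil)))))) (.nd (nat_lit 7) (.nd (nat_lit 8) (.nd (nat_lit 9) 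
(.lf (nat_lit 547923) (.g (nat_lit 2165) (.e (nat_lit 303151) (nat_lit 27) (.e (nat_lit 336229) (nat_lit 14) (.e (nat_lit 401458) (nat_lit 13) (.e (nat_lit 483372) (nat_lit 21) (.e (nat_lit 327424) (nat_lit 18) .nil))))) (.g (nat_lit 1) (.e (nat_lit 287487) (nat_lit 0) .nil) .nil))) 
(.lf (nat_lit 548435) (.g (nat_lit 1173) (.e (nat_lit 286733) (nat_lit 2) (.e (nat_lit 90178) (nat_lit 15) (.e (nat_lit 188441) (nat_lit 20) (.e (nat_lit 3252) (nat_lit 197) .nil)))) (.g (nat_lit 0) (.e (nat_lit 289472) (nat_lit 0) .nil) .nil)))) (.nd (nat_lit 9) 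
(.lf (nat_lit 548179) (.g (nat_lit 2701) (.e (nat_lit 311315) (nat_lit 3) (.e (nat_lit 204846) (nat_lit 24) (.e (nat_lit 319534) (nat_lit 16) (.e (nat_lit 286734) (nat_lit 3) (.e (nat_lit 98352) (nat_lit 25) (.e (nat_lit 417813) (nat_lit 9) .nil)))))) (.g (nat_lit 1) (.e (nat_lit 288045) (nat_lit 0) .nil) .nil))) 
(.lf (nat_lit 548691) (.g (nat_lit 2563) (.e (nat_lit 286765) (nat_lit 15) (.e (nat_lit 3304) (nat_lit 202) (.e (nat_lit 573482) (nat_lit 13) (.e (nat_lit 65604) (nat_lit 9) (.e (nat_lit 336013) (nat_lit 2) (.e (nat_lit 90165) (nat_lit 12) (.e (nat_lit 164208) (nat_lit 176) (.e (nat_lit 2779) (nat_lit 178) .nil)))))))) (.g (nat_lit 1) (.e (nat_lit 289866) (nat_lit 0) .nil) .nil))))) 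
(.nd (nat_lit 8) (.nd (nat_lit 9) 
(.lf (nat_lit 548051) (.g (nat_lit 3295) (.e (nat_lit 311312) (nat_lit 2) (.e (nat_lit 196666) (nat_lit 13) (.e (nat_lit 65610) (nat_lit 10) (.e (nat_lit 344117) (nat_lit 21) (.e (nat_lit 516097) (nat_lit 0) .nil))))) (.g (nat_lit 0) (.e (nat_lit 287746) (nat_lit 0) .nil) .nil))) 
(.lf (nat_lit 548563) (.g (nat_lit 1143) (.e (nat_lit 286749) (nat_lit 9) (.e (nat_lit 336013) (nat_lit 2) (.e (nat_lit 90119) (nat_lit 0) .nil))) (.g (nat_lit 0) (.e (nat_lit 289637) (nat_lit 0) .nil) .nil)))) (.nd (nat_lit 9) 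
(.lf (nat_lit 548307) (.g (nat_lit 1989) (.e (nat_lit 311357) (nat_lit 28) (.e (nat_lit 344068) (nat_lit 0) (.e (nat_lit 3090) (nat_lit 191) (.e (nat_lit 483350) (nat_lit 17) (.e (nat_lit 6151) (nat_lit 332) (.e (nat_lit 1386) (nat_lit 105) .nil)))))) (.g (nat_lit 1) (.e (nat_lit 289134) (nat_lit 0) .nil) .nil))) 
(.lf (nat_lit 548819) (.g (nat_lit 2291) (.e (nat_lit 294927) (nat_lit 2) (.e (nat_lit 90167) (nat_lit 13) (.e (nat_lit 172126) (nat_lit 14) (.e (nat_lit 491540) (nat_lit 3) (.e (nat_lit 98353) (nat_lit 25) (.e (nat_lit 417812) (nat_lit 7) .nil)))))) (.g (nat_lit 1) (.e (nat_lit 290462) (nat_lit 0) .nil) .nil))))))) (.nd (nat_lit 6) (.nd (nat_lit 7) (.nd (nat_lit 8) (.nd (nat_lit 9) 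
(.lf (nat_lit 547891) (.g (nat_lit 4499) (.e (nat_lit 303146) (nat_lit 14) (.e (nat_lit 491571) (nat_lit 13) (.e (nat_lit 393260) (nat_lit 21) (.e (nat_lit 409626) (nat_lit 11) .nil)))) (.g (nat_lit 0) (.e (nat_lit 287420) (nat_lit 0) .nil) .nil))) 
(.lf (nat_lit 548403) (.g (nat_lit 3052) (.e (nat_lit 286733) (nat_lit 2) (.e (nat_lit 90170) (nat_lit 13) (.e (nat_lit 172095) (nat_lit 9) (.e (nat_lit 426140) (nat_lit 3) (.e (nat_lit 204845) (nat_lit 24) (.e (nat_lit 327424) (nat_lit 16) .nil)))))) (.g (nat_lit 1) (.e (nat_lit 289435) (nat_lit 0) .nil) .nil)))) (.nd (nat_lit 9) 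
(.lf (nat_lit 548147) (.g (nat_lit 1583) (.e (nat_lit 311314) (nat_lit 3) (.e (nat_lit 204877) (nat_lit 31) (.e (nat_lit 376865) (nat_lit 22) (.e (nat_lit 90181) (nat_lit 16) (.e (nat_lit 229569) (nat_lit 176) (.e (nat_lit 2815) (nat_lit 181) .nil)))))) (.g (nat_lit 1) (.e (nat_lit 287992) (nat_lit 0) .nil) .nil))) 
(.lf (nat_lit 548659) (.g (nat_lit 1691) (.e (nat_lit 286761) (nat_lit 13) (.e (nat_lit 393293) (nat_lit 26) (.e (nat_lit 475195) (nat_lit 40) (.e (nat_lit 704514) (nat_lit 0) (.e (nat_lit 2830) (nat_lit 182) (.e (nat_lit 417536) (nat_lit 6) .nil)))))) (.g (nat_lit 1) (.e (nat_lit 289809) (nat_lit 0) .nil) .nil))))) (.nd (nat_lit 8) (.nd (nat_lit 9) 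
(.lf (nat_lit 548019) (.g (nat_lit 3601) (.e (nat_lit 311311) (nat_lit 2) (.e (nat_lit 196666) (nat_lit 13) (.e (nat_lit 65610) (nat_lit 10) (.e (nat_lit 344117) (nat_lit 21) (.e (nat_lit 516098) (nat_lit 0) (.e (nat_lit 7073) (nat_lit 377) (.e (nat_lit 2814) (nat_lit 181) .nil))))))) (.g (nat_lit 1) (.e (nat_lit 287666) (nat_lit 0) .nil) .nil))) 
(.lf (nat_lit 548531) (.g (nat_lit 3651) (.e (nat_lit 286735) (nat_lit 3) (.e (nat_lit 98371) (nat_lit 28) (.e (nat_lit 442427) (nat_lit 23) (.e (nat_lit 204845) (nat_lit 24) (.e (nat_lit 319531) (nat_lit 16) .nil))))) (.g (nat_lit 1) (.e (nat_lit 289583) (nat_lit 0) .nil) .nil)))) (.nd (nat_lit 9) 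
(.lf (nat_lit 548275) (.g (nat_lit 276) (.e (nat_lit 311344) (nat_lit 13) (.e (nat_lit 483411) (nat_lit 27) (.e (nat_lit 401448) (nat_lit 10) .nil))) (.g (nat_lit 0) (.e (nat_lit 289060) (nat_lit 0) .nil) .nil))) 
(.lf (nat_lit 548787) (.g (nat_lit 1297) (.e (nat_lit 294656) (nat_lit 27) (.e (nat_lit 426340) (nat_lit 14) (.e (nat_lit 491571) (nat_lit 13) (.e (nat_lit 393259) (nat_lit 21) .nil)))) (.g (nat_lit 0) (.e (nat_lit 290199) (nat_lit 0) .nil) .nil)))))) (.nd (nat_lit 7) (.nd (nat_lit 8) (.nd (nat_lit 9) 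
(.lf (nat_lit 547955) (.g (nat_lit 2307) (.e (nat_lit 311040) (nat_lit 27) (.e (nat_lit 336235) (nat_lit 14) (.e (nat_lit 401459) (nat_lit 13) (.e (nat_lit 483350) (nat_lit 17) (.e (nat_lit 6113) (nat_lit 332) .nil))))) (.g (nat_lit 0) (.e (nat_lit 287532) (nat_lit 0) .nil) .nil))) 
(.lf (nat_lit 548467) (.g (nat_lit 3800) (.e (nat_lit 286735) (nat_lit 3) (.e (nat_lit 98323) (nat_lit 17) (.e (nat_lit 6989) (nat_lit 377) (.e (nat_lit 977) (nat_lit 81) (.e (nat_lit 5664) (nat_lit 312) (.e (nat_lit 2679) (nat_lit 168) (.e (nat_lit 204846) (nat_lit 24) (.e (nat_lit 319528) (nat_lit 16) .nil)))))))) (.g (nat_lit 1) (.e (nat_lit 289512) (nat_lit 0) .nil) .nil)))) (.nd (nat_lit 9) 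
(.lf (nat_lit 548211) (.g (nat_lit 4311) (.e (nat_lit 311322) (nat_lit 9) (.e (nat_lit 426566) (nat_lit 34) (.e (nat_lit 393253) (nat_lit 18) (.e (nat_lit 164347) (nat_lit 240) .nil)))) (.g (nat_lit 0) (.e (nat_lit 288262) (nat_lit 0) .nil) .nil))) 
(.lf (nat_lit 548723) (.g (nat_lit 4515) (.e (nat_lit 286765) (nat_lit 15) (.e (nat_lit 3307) (nat_lit 202) (.e (nat_lit 573493) (nat_lit 15) (.e (nat_lit 81954) (nat_lit 23) (.e (nat_lit 98323) (nat_lit 17) (.e (nat_lit 6989) (nat_lit 377) (.e (nat_lit 2777) (nat_lit 178) .nil))))))) (.g (nat_lit 1) (.e (nat_lit 289911) (nat_lit 0) .nil) .nil))))) (.nd (nat_lit 8) (.nd (nat_lit 9) 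
(.lf (nat_lit 548083) (.g (nat_lit 2127) (.e (nat_lit 311312) (nat_lit 2) (.e (nat_lit 196672) (nat_lit 15) (.e (nat_lit 81951) (nat_lit 22) (.e (nat_lit 90165) (nat_lit 12) (.e (nat_lit 164208) (nat_lit 176) (.e (nat_lit 7936) (nat_lit 181) .nil)))))) (.g (nat_lit 1) (.e (nat_lit 287800) (nat_lit 0) .nil) .nil))) 
(.lf (nat_lit 548595) (.g (nat_lit 832) (.e (nat_lit 286754) (nat_lit 10) (.e (nat_lit 344138) (nat_lit 29) (.e (nat_lit 581653) (nat_lit 6) (.e (nat_lit 188430) (nat_lit 20) .nil)))) (.g (nat_lit 0) (.e (nat_lit 289697) (nat_lit 0) .nil) .nil)))) (.nd (nat_lit 9) 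
(.lf (nat_lit 548339) (.g (nat_lit 1316) (.e (nat_lit 286721) (nat_lit 0) (.e (nat_lit 2292) (nat_lit 151) (.e (nat_lit 778459) (nat_lit 11) (.e (nat_lit 24660) (nat_lit 13) (.e (nat_lit 393260) (nat_lit 21) (.e (nat_lit 417536) (nat_lit 16) .nil)))))) (.g (nat_lit 1) (.e (nat_lit 289178) (nat_lit 0) .nil) .nil))) 
(.lf (nat_lit 548851) (.g (nat_lit 1388) (.e (nat_lit 294928) (nat_lit 2) (.e (nat_lit 90176) (nat_lit 15) (.e (nat_lit 188450) (nat_lit 23) (.e (nat_lit 212736) (nat_lit 17) .nil)))) (.g (nat_lit 0) (.e (nat_lit 290496) (nat_lit 0) .nil) .nil))))))))) (.nd (nat_lit 4) (.nd (nat_lit 5) (.nd (nat_lit 6) (.nd (nat_lit 7) (.nd (nat_lit 8) (.nd (nat_lit 9) 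
(.lf (nat_lit 547851) (.g (nat_lit 2939) (.e (nat_lit 303143) (nat_lit 12) (.e (nat_lit 475219) (nat_lit 44) (.e (nat_lit 737318) (nat_lit 15) (.e (nat_lit 49189) (nat_lit 11) (.e (nat_lit 16425) (nat_lit 7) (.e (nat_lit 409647) (nat_lit 18) .nil)))))) (.g (nat_lit 1) (.e (nat_lit 286968) (nat_lit 0) .nil) .nil))) 
(.lf (nat_lit 548363) (.g (nat_lit 439) (.e (nat_lit 286731) (nat_lit 1) (.e (nat_lit 57688) (nat_lit 156) (.e (nat_lit 163933) (nat_lit 17) .nil))) (.g (nat_lit 0) (.e (nat_lit 289321) (nat_lit 0) .nil) .nil)))) (.nd (nat_lit 9) 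
(.lf (nat_lit 548107) (.g (nat_lit 3840) (.e (nat_lit 311312) (nat_lit 2) (.e (nat_lit 196672) (nat_lit 15) (.e (nat_lit 81956) (nat_lit 23) (.e (nat_lit 98320) (nat_lit 17) (.e (nat_lit 6949) (nat_lit 377) .nil))))) (.g (nat_lit 0) (.e (nat_lit 287827) (nat_lit 0) .nil) .nil))) 
(.lf (nat_lit 548619) (.g (nat_lit 1385) (.e (nat_lit 286756) (nat_lit 10) (.e (nat_lit 344157) (nat_lit 36) (.e (nat_lit 638999) (nat_lit 8) (.e (nat_lit 172079) (nat_lit 7) (.e (nat_lit 409638) (nat_lit 15) (.e (nat_lit 278567) (nat_lit 16) .nil)))))) (.g (nat_lit 1) (.e (nat_lit 289751) (nat_lit 0) .nil) .nil))))) (.nd (nat_lit 8) (.nd (nat_lit 9) 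
(.lf (nat_lit 547979) (.g (nat_lit 1525) (.e (nat_lit 311040) (nat_lit 35) (.e (nat_lit 401454) (nat_lit 12) (.e (nat_lit 475196) (nat_lit 40) (.e (nat_lit 704592) (nat_lit 4) .nil)))) (.g (nat_lit 0) (.e (nat_lit 287572) (nat_lit 0) .nil) .nil))) 
(.lf (nat_lit 548491) (.g (nat_lit 2020) (.e (nat_lit 286735) (nat_lit 3) (.e (nat_lit 98353) (nat_lit 25) (.e (nat_lit 417813) (nat_lit 9) (.e (nat_lit 311315) (nat_lit 3) (.e (nat_lit 204846) (nat_lit 24) (.e (nat_lit 327424) (nat_lit 16) .nil)))))) (.g (nat_lit 1) (.e (nat_lit 289539) (nat_lit 0) .nil) .nil)))) (.nd (nat_lit 9) 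
(.lf (nat_lit 548235) (.g (nat_lit 3556) (.e (nat_lit 311341) (nat_lit 13) (.e (nat_lit 483413) (nat_lit 27) (.e (nat_lit 401447) (nat_lit 10) (.e (nat_lit 434289) (nat_lit 43) (.e (nat_lit 696325) (nat_lit 0) (.e (nat_lit 1380) (nat_lit 105) .nil)))))) (.g (nat_lit 1) (.e (nat_lit 288485) (nat_lit 0) .nil) .nil))) 
(.lf (nat_lit 548747) (.g (nat_lit 4126) (.e (nat_lit 286765) (nat_lit 15) (.e (nat_lit 3308) (nat_lit 202) (.e (nat_lit 573493) (nat_lit 15) (.e (nat_lit 81956) (nat_lit 23) (.e (nat_lit 98325) (nat_lit 17) (.e (nat_lit 6986) (nat_lit 377) (.e (nat_lit 2781) (nat_lit 178) .nil))))))) (.g (nat_lit 1) (.e (nat_lit 289938) (nat_lit 0) .nil) .nil)))))) 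
(.nd (nat_lit 7) (.nd (nat_lit 8) (.nd (nat_lit 9) 
(.lf (nat_lit 547915) (.g (nat_lit 1116) (.e (nat_lit 311040) (nat_lit 18) (.e (nat_lit 98365) (nat_lit 26) (.e (nat_lit 426325) (nat_lit 13) (.e (nat_lit 491264) (nat_lit 7) .nil)))) (.g (nat_lit 0) (.e (nat_lit 287471) (nat_lit 0) .nil) .nil))) 
(.lf (nat_lit 548427) (.g (nat_lit 2109) (.e (nat_lit 286733) (nat_lit 2) (.e (nat_lit 90177) (nat_lit 15) (.e (nat_lit 188452) (nat_lit 23) (.e (nat_lit 204815) (nat_lit 17) (.e (nat_lit 6192) (nat_lit 332) .nil))))) (.g (nat_lit 0) (.e (nat_lit 289463) (nat_lit 0) .nil) .nil)))) (.nd (nat_lit 9) 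
(.lf (nat_lit 548171) (.g (nat_lit 2233) (.e (nat_lit 311315) (nat_lit 3) (.e (nat_lit 204846) (nat_lit 24) (.e (nat_lit 319533) (nat_lit 16) (.e (nat_lit 286735) (nat_lit 3) (.e (nat_lit 98352) (nat_lit 25) .nil))))) (.g (nat_lit 0) (.e (nat_lit 288037) (nat_lit 0) .nil) .nil))) 
(.lf (nat_lit 548683) (.g (nat_lit 2660) (.e (nat_lit 286765) (nat_lit 15) (.e (nat_lit 3298) (nat_lit 202) (.e (nat_lit 573493) (nat_lit 15) (.e (nat_lit 81953) (nat_lit 22) (.e (nat_lit 90165) (nat_lit 12) (.e (nat_lit 164207) (nat_lit 176) (.e (nat_lit 2777) (nat_lit 178) .nil))))))) (.g (nat_lit 1) (.e (nat_lit 289858) (nat_lit 0) .nil) .nil))))) (.nd (nat_lit 8) (.nd (nat_lit 9) 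
(.lf (nat_lit 548043) (.g (nat_lit 1588) (.e (nat_lit 311311) (nat_lit 2) (.e (nat_lit 196672) (nat_lit 15) (.e (nat_lit 81954) (nat_lit 23) (.e (nat_lit 98350) (nat_lit 24) .nil)))) (.g (nat_lit 0) (.e (nat_lit 287709) (nat_lit 0) .nil) .nil))) 
(.lf (nat_lit 548555) (.g (nat_lit 2504) (.e (nat_lit 286743) (nat_lit 9) (.e (nat_lit 336337) (nat_lit 20) (.e (nat_lit 221218) (nat_lit 24) (.e (nat_lit 213030) (nat_lit 11) (.e (nat_lit 24617) (nat_lit 7) (.e (nat_lit 319531) (nat_lit 16) .nil)))))) (.g (nat_lit 1) (.e (nat_lit 289622) (nat_lit 0) .nil) .nil)))) (.nd (nat_lit 9) 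
(.lf (nat_lit 548299) (.g (nat_lit 2978) (.e (nat_lit 311357) (nat_lit 28) (.e (nat_lit 344068) (nat_lit 0) (.e (nat_lit 2857) (nat_lit 184) (.e (nat_lit 426482) (nat_lit 27) (.e (nat_lit 336060) (nat_lit 7) (.e (nat_lit 319539) (nat_lit 19) .nil)))))) (.g (nat_lit 1) (.e (nat_lit 289126) (nat_lit 0) .nil) .nil))) 
(.lf (nat_lit 548811) (.g (nat_lit 3356) (.e (nat_lit 294912) (nat_lit 0) (.e (nat_lit 1803) (nat_lit 119) (.e (nat_lit 516151) (nat_lit 9) (.e (nat_lit 426211) (nat_lit 9) (.e (nat_lit 426125) (nat_lit 2) .nil))))) (.g (nat_lit 0) (.e (nat_lit 290440) (nat_lit 0) .nil) .nil))))))) (.nd (nat_lit 6) (.nd (nat_lit 7) (.nd (nat_lit 8) (.nd (nat_lit 9) 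
(.lf (nat_lit 547883) (.g (nat_lit 887) (.e (nat_lit 303145) (nat_lit 13) (.e (nat_lit 483413) (nat_lit 27) (.e (nat_lit 401464) (nat_lit 15) .nil))) (.g (nat_lit 0) (.e (nat_lit 287399) (nat_lit 0) .nil) .nil))) 
(.lf (nat_lit 548395) (.g (nat_lit 489) (.e (nat_lit 286733) (nat_lit 2) (.e (nat_lit 90134) (nat_lit 9) (.e (nat_lit 3025) (nat_lit 187) .nil))) (.g (nat_lit 0) (.e (nat_lit 289421) (nat_lit 0) .nil) .nil)))) (.nd (nat_lit 9) 
(.lf (nat_lit 548139) (.g (nat_lit 1176) (.e (nat_lit 311314) (nat_lit 3) (.e (nat_lit 204868) (nat_lit 29) (.e (nat_lit 360466) (nat_lit 3) (.e (nat_lit 516140) (nat_lit 8) .nil)))) (.g (nat_lit 0) (.e (nat_lit 287919) (nat_lit 0) .nil) .nil))) 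
(.lf (nat_lit 548651) (.g (nat_lit 1830) (.e (nat_lit 286759) (nat_lit 12) (.e (nat_lit 385109) (nat_lit 51) (.e (nat_lit 794678) (nat_lit 24) (.e (nat_lit 213030) (nat_lit 11) (.e (nat_lit 24617) (nat_lit 7) .nil))))) (.g (nat_lit 0) (.e (nat_lit 289801) (nat_lit 0) .nil) .nil))))) (.nd (nat_lit 8) (.nd (nat_lit 9) 
(.lf (nat_lit 548011) (.g (nat_lit 1176) (.e (nat_lit 311310) (nat_lit 2) (.e (nat_lit 196672) (nat_lit 15) (.e (nat_lit 81954) (nat_lit 23) (.e (nat_lit 98352) (nat_lit 25) .nil)))) (.g (nat_lit 0) (.e (nat_lit 287646) (nat_lit 0) .nil) .nil))) 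
(.lf (nat_lit 548523) (.g (nat_lit 2906) (.e (nat_lit 286735) (nat_lit 3) (.e (nat_lit 98369) (nat_lit 28) (.e (nat_lit 442426) (nat_lit 23) (.e (nat_lit 204846) (nat_lit 24) (.e (nat_lit 319533) (nat_lit 16) .nil))))) (.g (nat_lit 1) (.e (nat_lit 289575) (nat_lit 0) .nil) .nil)))) (.nd (nat_lit 9) 
(.lf (nat_lit 548267) (.g (nat_lit 1377) (.e (nat_lit 311343) (nat_lit 13) (.e (nat_lit 483372) (nat_lit 21) (.e (nat_lit 319534) (nat_lit 16) (.e (nat_lit 286728) (nat_lit 0) .nil)))) (.g (nat_lit 0) (.e (nat_lit 288792) (nat_lit 0) .nil) .nil))) 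
(.lf (nat_lit 548779) (.g (nat_lit 983) (.e (nat_lit 286768) (nat_lit 27) (.e (nat_lit 426340) (nat_lit 14) (.e (nat_lit 491571) (nat_lit 13) (.e (nat_lit 393238) (nat_lit 17) .nil)))) (.g (nat_lit 0) (.e (nat_lit 290188) (nat_lit 0) .nil) .nil)))))) (.nd (nat_lit 7) (.nd (nat_lit 8) (.nd (nat_lit 9) 
(.lf (nat_lit 547947) (.g (nat_lit 1205) (.e (nat_lit 311040) (nat_lit 27) (.e (nat_lit 336227) (nat_lit 14) (.e (nat_lit 401459) (nat_lit 13) (.e (nat_lit 483354) (nat_lit 17) .nil)))) (.g (nat_lit 0) (.e (nat_lit 287519) (nat_lit 0) .nil) .nil))) 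
(.lf (nat_lit 548459) (.g (nat_lit 4550) (.e (nat_lit 286735) (nat_lit 3) (.e (nat_lit 98320) (nat_lit 17) (.e (nat_lit 7593) (nat_lit 407) (.e (nat_lit 73746) (nat_lit 3) (.e (nat_lit 516102) (nat_lit 0) (.e (nat_lit 6989) (nat_lit 377) (.e (nat_lit 2777) (nat_lit 178) .nil))))))) (.g (nat_lit 1) (.e (nat_lit 289503) (nat_lit 0) .nil) .nil)))) (.nd (nat_lit 9) 
(.lf (nat_lit 548203) (.g (nat_lit 3736) (.e (nat_lit 311315) (nat_lit 3) (.e (nat_lit 204885) (nat_lit 33) (.e (nat_lit 401448) (nat_lit 10) (.e (nat_lit 434231) (nat_lit 23) (.e (nat_lit 532525) (nat_lit 8) (.e (nat_lit 327718) (nat_lit 19) .nil)))))) (.g (nat_lit 1) (.e (nat_lit 288220) (nat_lit 0) .nil) .nil))) 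
(.lf (nat_lit 548715) (.g (nat_lit 4579) (.e (nat_lit 286765) (nat_lit 15) (.e (nat_lit 3307) (nat_lit 202) (.e (nat_lit 573491) (nat_lit 15) (.e (nat_lit 81954) (nat_lit 23) (.e (nat_lit 98323) (nat_lit 17) (.e (nat_lit 6989) (nat_lit 377) (.e (nat_lit 2777) (nat_lit 178) .nil))))))) (.g (nat_lit 1) (.e (nat_lit 289903) (nat_lit 0) .nil) .nil))))) (.nd (nat_lit 8) (.nd (nat_lit 9) 
(.lf (nat_lit 548075) (.g (nat_lit 3722) (.e (nat_lit 311312) (nat_lit 2) (.e (nat_lit 196666) (nat_lit 13) (.e (nat_lit 65610) (nat_lit 10) (.e (nat_lit 344117) (nat_lit 21) (.e (nat_lit 516106) (nat_lit 0) (.e (nat_lit 7014) (nat_lit 377) (.e (nat_lit 2814) (nat_lit 181) .nil))))))) (.g (nat_lit 1) (.e (nat_lit 287771) (nat_lit 0) .nil) .nil))) 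
(.lf (nat_lit 548587) (.g (nat_lit 2553) (.e (nat_lit 286753) (nat_lit 10) (.e (nat_lit 344160) (nat_lit 37) (.e (nat_lit 647200) (nat_lit 12) (.e (nat_lit 57575) (nat_lit 55) (.e (nat_lit 778464) (nat_lit 11) (.e (nat_lit 24617) (nat_lit 7) (.e (nat_lit 319533) (nat_lit 16) .nil))))))) (.g (nat_lit 1) (.e (nat_lit 289677) (nat_lit 0) .nil) .nil)))) (.nd (nat_lit 9) 
(.lf (nat_lit 548331) (.g (nat_lit 4292) (.e (nat_lit 286720) (nat_lit 0) (.e (nat_lit 1788) (nat_lit 119) (.e (nat_lit 516151) (nat_lit 9) (.e (nat_lit 426211) (nat_lit 9) (.e (nat_lit 426135) (nat_lit 3) .nil))))) (.g (nat_lit 0) (.e (nat_lit 289170) (nat_lit 0) .nil) .nil))) 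
(.lf (nat_lit 548843) (.g (nat_lit 1289) (.e (nat_lit 294928) (nat_lit 2) (.e (nat_lit 90170) (nat_lit 13) (.e (nat_lit 172113) (nat_lit 10) (.e (nat_lit 434231) (nat_lit 23) .nil)))) (.g (nat_lit 0) (.e (nat_lit 290488) (nat_lit 0) .nil) .nil)))))))) (.nd (nat_lit 5) (.nd (nat_lit 6) (.nd (nat_lit 7) (.nd (nat_lit 8) (.nd (nat_lit 9) 
(.lf (nat_lit 547867) (.g (nat_lit 2709) (.e (nat_lit 303144) (nat_lit 13) (.e (nat_lit 483413) (nat_lit 27) (.e (nat_lit 401448) (nat_lit 10) (.e (nat_lit 434207) (nat_lit 18) .nil)))) (.g (nat_lit 0) (.e (nat_lit 287053) (nat_lit 0) .nil) .nil))) 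
(.lf (nat_lit 548379) (.g (nat_lit 3077) (.e (nat_lit 286732) (nat_lit 2) (.e (nat_lit 90170) (nat_lit 13) (.e (nat_lit 172113) (nat_lit 10) (.e (nat_lit 434247) (nat_lit 28) (.e (nat_lit 573457) (nat_lit 9) (.e (nat_lit 365) (nat_lit 31) (.e (nat_lit 417811) (nat_lit 6) .nil))))))) (.g (nat_lit 1) (.e (nat_lit 289371) (nat_lit 0) .nil) .nil)))) (.nd (nat_lit 9) 
(.lf (nat_lit 548123) (.g (nat_lit 1819) (.e (nat_lit 311313) (nat_lit 3) (.e (nat_lit 204861) (nat_lit 26) (.e (nat_lit 336186) (nat_lit 11) (.e (nat_lit 368676) (nat_lit 21) (.e (nat_lit 516141) (nat_lit 8) .nil))))) (.g (nat_lit 0) (.e (nat_lit 287859) (nat_lit 0) .nil) .nil))) 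
(.lf (nat_lit 548635) (.g (nat_lit 5338) (.e (nat_lit 286759) (nat_lit 12) (.e (nat_lit 385074) (nat_lit 31) (.e (nat_lit 573493) (nat_lit 15) (.e (nat_lit 81953) (nat_lit 22) (.e (nat_lit 90192) (nat_lit 18) .nil))))) (.g (nat_lit 0) (.e (nat_lit 289784) (nat_lit 0) .nil) .nil))))) (.nd (nat_lit 8) (.nd (nat_lit 9) 
(.lf (nat_lit 547995) (.g (nat_lit 698) (.e (nat_lit 311040) (nat_lit 35) (.e (nat_lit 401454) (nat_lit 12) (.e (nat_lit 475210) (nat_lit 41) .nil))) (.g (nat_lit 0) (.e (nat_lit 287589) (nat_lit 0) .nil) .nil))) 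
(.lf (nat_lit 548507) (.g (nat_lit 3316) (.e (nat_lit 286735) (nat_lit 3) (.e (nat_lit 98363) (nat_lit 26) (.e (nat_lit 426318) (nat_lit 12) (.e (nat_lit 475185) (nat_lit 29) (.e (nat_lit 557070) (nat_lit 9) (.e (nat_lit 2397) (nat_lit 157) (.e (nat_lit 7064) (nat_lit 377) (.e (nat_lit 1349) (nat_lit 102) .nil)))))))) (.g (nat_lit 1) (.e (nat_lit 289558) (nat_lit 0) .nil) .nil)))) 
(.nd (nat_lit 9) 
(.lf (nat_lit 548251) (.g (nat_lit 2298) (.e (nat_lit 311343) (nat_lit 13) (.e (nat_lit 483337) (nat_lit 9) (.e (nat_lit 426107) (nat_lit 1) (.e (nat_lit 164348) (nat_lit 240) .nil)))) (.g (nat_lit 0) (.e (nat_lit 288673) (nat_lit 0) .nil) .nil))) 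
(.lf (nat_lit 548763) (.g (nat_lit 2194) (.e (nat_lit 286768) (nat_lit 27) (.e (nat_lit 426171) (nat_lit 7) (.e (nat_lit 409646) (nat_lit 18) (.e (nat_lit 303154) (nat_lit 28) .nil)))) (.g (nat_lit 0) (.e (nat_lit 290164) (nat_lit 0) .nil) .nil)))))) (.nd (nat_lit 7) (.nd (nat_lit 8) (.nd (nat_lit 9) 
(.lf (nat_lit 547931) (.g (nat_lit 2032) (.e (nat_lit 303152) (nat_lit 27) (.e (nat_lit 336226) (nat_lit 14) (.e (nat_lit 401459) (nat_lit 13) (.e (nat_lit 483354) (nat_lit 17) (.e (nat_lit 6114) (nat_lit 332) .nil))))) (.g (nat_lit 0) (.e (nat_lit 287499) (nat_lit 0) .nil) .nil))) 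
(.lf (nat_lit 548443) (.g (nat_lit 1173) (.e (nat_lit 294656) (nat_lit 2) (.e (nat_lit 90176) (nat_lit 15) (.e (nat_lit 188450) (nat_lit 23) (.e (nat_lit 204845) (nat_lit 24) .nil)))) (.g (nat_lit 0) (.e (nat_lit 289481) (nat_lit 0) .nil) .nil)))) (.nd (nat_lit 9) 
(.lf (nat_lit 548187) (.g (nat_lit 1779) (.e (nat_lit 311315) (nat_lit 3) (.e (nat_lit 204861) (nat_lit 26) (.e (nat_lit 336186) (nat_lit 11) (.e (nat_lit 368676) (nat_lit 21) (.e (nat_lit 516141) (nat_lit 8) (.e (nat_lit 425728) (nat_lit 19) .nil)))))) (.g (nat_lit 1) (.e (nat_lit 288061) (nat_lit 0) .nil) .nil))) 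
(.lf (nat_lit 548699) (.g (nat_lit 2838) (.e (nat_lit 286765) (nat_lit 15) (.e (nat_lit 3304) (nat_lit 202) (.e (nat_lit 573485) (nat_lit 13) (.e (nat_lit 65604) (nat_lit 9) (.e (nat_lit 336013) (nat_lit 2) (.e (nat_lit 90165) (nat_lit 12) (.e (nat_lit 164208) (nat_lit 176) (.e (nat_lit 2777) (nat_lit 178) .nil)))))))) (.g (nat_lit 1) (.e (nat_lit 289874) (nat_lit 0) .nil) .nil))))) 
(.nd (nat_lit 8) (.nd (nat_lit 9) 
(.lf (nat_lit 548059) (.g (nat_lit 3152) (.e (nat_lit 311312) (nat_lit 2) (.e (nat_lit 196666) (nat_lit 13) (.e (nat_lit 65610) (nat_lit 10) (.e (nat_lit 344117) (nat_lit 21) (.e (nat_lit 516099) (nat_lit 0) (.e (nat_lit 7936) (nat_lit 377) (.e (nat_lit 2814) (nat_lit 181) .nil))))))) (.g (nat_lit 1) (.e (nat_lit 287755) (nat_lit 0) .nil) .nil))) 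
(.lf (nat_lit 548571) (.g (nat_lit 1361) (.e (nat_lit 286748) (nat_lit 9) (.e (nat_lit 336295) (nat_lit 15) (.e (nat_lit 3748) (nat_lit 228) (.e (nat_lit 786483) (nat_lit 30) (.e (nat_lit 360484) (nat_lit 15) .nil))))) (.g (nat_lit 0) (.e (nat_lit 289651) (nat_lit 0) .nil) .nil)))) (.nd (nat_lit 9) 
(.lf (nat_lit 548315) (.g (nat_lit 1832) (.e (nat_lit 311357) (nat_lit 28) (.e (nat_lit 344069) (nat_lit 0) (.e (nat_lit 3090) (nat_lit 191) (.e (nat_lit 483350) (nat_lit 17) (.e (nat_lit 6151) (nat_lit 332) (.e (nat_lit 1386) (nat_lit 105) .nil)))))) (.g (nat_lit 1) (.e (nat_lit 289144) (nat_lit 0) .nil) .nil))) 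
(.lf (nat_lit 548827) (.g (nat_lit 1878) (.e (nat_lit 294927) (nat_lit 2) (.e (nat_lit 90170) (nat_lit 13) (.e (nat_lit 172115) (nat_lit 10) (.e (nat_lit 434231) (nat_lit 23) (.e (nat_lit 532525) (nat_lit 8) (.e (nat_lit 335616) (nat_lit 17) .nil)))))) (.g (nat_lit 1) (.e (nat_lit 290470) (nat_lit 0) .nil) .nil))))))) (.nd (nat_lit 6) (.nd (nat_lit 7) (.nd (nat_lit 8) (.nd (nat_lit 9) 
(.lf (nat_lit 547899) (.g (nat_lit 4167) (.e (nat_lit 303147) (nat_lit 15) (.e (nat_lit 1858) (nat_lit 124) (.e (nat_lit 557109) (nat_lit 15) (.e (nat_lit 188450) (nat_lit 23) (.e (nat_lit 204819) (nat_lit 17) .nil))))) (.g (nat_lit 0) (.e (nat_lit 287448) (nat_lit 0) .nil) .nil))) 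
(.lf (nat_lit 548411) (.g (nat_lit 4240) (.e (nat_lit 286733) (nat_lit 2) (.e (nat_lit 90170) (nat_lit 13) (.e (nat_lit 172113) (nat_lit 10) (.e (nat_lit 434231) (nat_lit 23) (.e (nat_lit 532526) (nat_lit 8) (.e (nat_lit 327715) (nat_lit 16) .nil)))))) (.g (nat_lit 1) (.e (nat_lit 289443) (nat_lit 0) .nil) .nil)))) (.nd (nat_lit 9) 
(.lf (nat_lit 548155) (.g (nat_lit 983) (.e (nat_lit 311315) (nat_lit 3) (.e (nat_lit 204816) (nat_lit 17) (.e (nat_lit 6722) (nat_lit 362) (.e (nat_lit 180243) (nat_lit 5) .nil)))) (.g (nat_lit 0) (.e (nat_lit 288001) (nat_lit 0) .nil) .nil))) 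
(.lf (nat_lit 548667) (.g (nat_lit 2524) (.e (nat_lit 286765) (nat_lit 15) (.e (nat_lit 3295) (nat_lit 202) (.e (nat_lit 573482) (nat_lit 13) (.e (nat_lit 65619) (nat_lit 10) (.e (nat_lit 344117) (nat_lit 21) (.e (nat_lit 516106) (nat_lit 0) (.e (nat_lit 6986) (nat_lit 377) (.e (nat_lit 2779) (nat_lit 178) .nil)))))))) (.g (nat_lit 1) (.e (nat_lit 289827) (nat_lit 0) .nil) .nil))))) 
(.nd (nat_lit 8) (.nd (nat_lit 9) 
(.lf (nat_lit 548027) (.g (nat_lit 3186) (.e (nat_lit 311311) (nat_lit 2) (.e (nat_lit 196666) (nat_lit 13) (.e (nat_lit 65610) (nat_lit 10) (.e (nat_lit 344117) (nat_lit 21) (.e (nat_lit 516106) (nat_lit 0) (.e (nat_lit 7014) (nat_lit 377) (.e (nat_lit 2814) (nat_lit 181) .nil))))))) (.g (nat_lit 1) (.e (nat_lit 287674) (nat_lit 0) .nil) .nil))) 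
(.lf (nat_lit 548539) (.g (nat_lit 4287) (.e (nat_lit 286735) (nat_lit 3) (.e (nat_lit 98389) (nat_lit 33) (.e (nat_lit 491546) (nat_lit 9) (.e (nat_lit 336028) (nat_lit 3) (.e (nat_lit 98325) (nat_lit 17) (.e (nat_lit 6986) (nat_lit 377) (.e (nat_lit 2777) (nat_lit 178) .nil))))))) (.g (nat_lit 1) (.e (nat_lit 289593) (nat_lit 0) .nil) .nil)))) (.nd (nat_lit 9) 
(.lf (nat_lit 548283) (.g (nat_lit 1781) (.e (nat_lit 319232) (nat_lit 25) (.e (nat_lit 319490) (nat_lit 0) (.e (nat_lit 5664) (nat_lit 312) (.e (nat_lit 3085) (nat_lit 191) (.e (nat_lit 483377) (nat_lit 22) .nil))))) (.g (nat_lit 0) (.e (nat_lit 289091) (nat_lit 0) .nil) .nil))) 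
(.lf (nat_lit 548795) (.g (nat_lit 1975) (.e (nat_lit 286770) (nat_lit 28) (.e (nat_lit 434180) (nat_lit 0) (.e (nat_lit 1427) (nat_lit 108) (.e (nat_lit 336421) (nat_lit 28) (.e (nat_lit 434187) (nat_lit 13) .nil))))) (.g (nat_lit 0) (.e (nat_lit 290215) (nat_lit 0) .nil) .nil)))))) (.nd (nat_lit 7) (.nd (nat_lit 8) (.nd (nat_lit 9) 
(.lf (nat_lit 547963) (.g (nat_lit 1237) (.e (nat_lit 303154) (nat_lit 28) (.e (nat_lit 344068) (nat_lit 0) (.e (nat_lit 3090) (nat_lit 191) (.e (nat_lit 483354) (nat_lit 17) .nil)))) (.g (nat_lit 0) (.e (nat_lit 287542) (nat_lit 0) .nil) .nil))) 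
(.lf (nat_lit 548475) (.g (nat_lit 2715) (.e (nat_lit 286735) (nat_lit 3) (.e (nat_lit 98349) (nat_lit 24) (.e (nat_lit 409645) (nat_lit 18) (.e (nat_lit 303117) (nat_lit 2) (.e (nat_lit 196661) (nat_lit 12) .nil))))) (.g (nat_lit 0) (.e (nat_lit 289523) (nat_lit 0) .nil) .nil)))) (.nd (nat_lit 9) 
(.lf (nat_lit 548219) (.g (nat_lit 4535) (.e (nat_lit 311324) (nat_lit 9) (.e (nat_lit 426566) (nat_lit 34) (.e (nat_lit 393253) (nat_lit 18) (.e (nat_lit 164345) (nat_lit 240) .nil)))) (.g (nat_lit 0) (.e (nat_lit 288313) (nat_lit 0) .nil) .nil))) 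
(.lf (nat_lit 548731) (.g (nat_lit 3619) (.e (nat_lit 286765) (nat_lit 15) (.e (nat_lit 3308) (nat_lit 202) (.e (nat_lit 573482) (nat_lit 13) (.e (nat_lit 65619) (nat_lit 10) (.e (nat_lit 344117) (nat_lit 21) (.e (nat_lit 516102) (nat_lit 0) (.e (nat_lit 6989) (nat_lit 377) (.e (nat_lit 2779) (nat_lit 178) .nil)))))))) (.g (nat_lit 1) (.e (nat_lit 289922) (nat_lit 0) .nil) .nil))))) 
(.nd (nat_lit 8) (.nd (nat_lit 9) 
(.lf (nat_lit 548091) (.g (nat_lit 1175) (.e (nat_lit 311312) (nat_lit 2) (.e (nat_lit 196672) (nat_lit 15) (.e (nat_lit 81954) (nat_lit 23) (.e (nat_lit 98323) (nat_lit 17) .nil)))) (.g (nat_lit 0) (.e (nat_lit 287811) (nat_lit 0) .nil) .nil))) 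
(.lf (nat_lit 548603) (.g (nat_lit 1272) (.e (nat_lit 286755) (nat_lit 10) (.e (nat_lit 344154) (nat_lit 35) (.e (nat_lit 630802) (nat_lit 8) (.e (nat_lit 172082) (nat_lit 7) (.e (nat_lit 409638) (nat_lit 15) (.e (nat_lit 278566) (nat_lit 16) .nil)))))) (.g (nat_lit 1) (.e (nat_lit 289715) (nat_lit 0) .nil) .nil)))) (.nd (nat_lit 9) 
(.lf (nat_lit 548347) (.g (nat_lit 2645) (.e (nat_lit 286725) (nat_lit 0) (.e (nat_lit 1788) (nat_lit 119) (.e (nat_lit 516151) (nat_lit 9) (.e (nat_lit 426275) (nat_lit 10) .nil)))) (.g (nat_lit 0) (.e (nat_lit 289201) (nat_lit 0) .nil) .nil))) 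
(.lf (nat_lit 548859) (.g (nat_lit 756) (.e (nat_lit 294931) (nat_lit 3) (.e (nat_lit 98317) (nat_lit 9) (.e (nat_lit 335995) (nat_lit 1) .nil))) (.g (nat_lit 0) (.e (nat_lit 290504) (nat_lit 0) .nil) .nil)))))))))) (.nd (nat_lit 3) (.nd (nat_lit 4) (.nd (nat_lit 5) (.nd (nat_lit 6) (.nd (nat_lit 7) (.nd (nat_lit 8) (.nd (nat_lit 9) 
(.lf (nat_lit 547847) (.g (nat_lit 2558) (.e (nat_lit 303143) (nat_lit 12) (.e (nat_lit 475218) (nat_lit 44) (.e (nat_lit 737318) (nat_lit 15) (.e (nat_lit 49187) (nat_lit 11) (.e (nat_lit 16425) (nat_lit 7) (.e (nat_lit 409646) (nat_lit 18) .nil)))))) (.g (nat_lit 1) (.e (nat_lit 286964) (nat_lit 0) .nil) .nil))) 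
(.lf (nat_lit 548359) (.g (nat_lit 1877) (.e (nat_lit 286727) (nat_lit 0) (.e (nat_lit 1799) (nat_lit 119) (.e (nat_lit 516163) (nat_lit 11) (.e (nat_lit 442424) (nat_lit 22) (.e (nat_lit 196661) (nat_lit 12) .nil))))) (.g (nat_lit 0) (.e (nat_lit 289250) (nat_lit 0) .nil) .nil)))) (.nd (nat_lit 9) 
(.lf (nat_lit 548103) (.g (nat_lit 2597) (.e (nat_lit 311312) (nat_lit 2) (.e (nat_lit 196672) (nat_lit 15) (.e (nat_lit 81954) (nat_lit 23) (.e (nat_lit 98325) (nat_lit 17) (.e (nat_lit 7016) (nat_lit 377) (.e (nat_lit 2817) (nat_lit 181) .nil)))))) (.g (nat_lit 1) (.e (nat_lit 287823) (nat_lit 0) .nil) .nil))) 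
(.lf (nat_lit 548615) (.g (nat_lit 2501) (.e (nat_lit 286756) (nat_lit 10) (.e (nat_lit 344138) (nat_lit 29) (.e (nat_lit 581653) (nat_lit 6) (.e (nat_lit 188461) (nat_lit 26) (.e (nat_lit 254008) (nat_lit 14) (.e (nat_lit 1359) (nat_lit 102) .nil)))))) (.g (nat_lit 1) (.e (nat_lit 289745) (nat_lit 0) .nil) .nil))))) (.nd (nat_lit 8) (.nd (nat_lit 9) 
(.lf (nat_lit 547975) (.g (nat_lit 1349) (.e (nat_lit 303155) (nat_lit 29) (.e (nat_lit 360192) (nat_lit 5) (.e (nat_lit 221208) (nat_lit 21) (.e (nat_lit 164330) (nat_lit 230) (.e (nat_lit 163896) (nat_lit 10) (.e (nat_lit 417536) (nat_lit 8) .nil)))))) (.g (nat_lit 1) (.e (nat_lit 287557) (nat_lit 0) .nil) .nil))) 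
(.lf (nat_lit 548487) (.g (nat_lit 3396) (.e (nat_lit 286735) (nat_lit 3) (.e (nat_lit 98350) (nat_lit 24) (.e (nat_lit 409648) (nat_lit 18) (.e (nat_lit 303117) (nat_lit 2) (.e (nat_lit 196661) (nat_lit 12) (.e (nat_lit 57712) (nat_lit 176) (.e (nat_lit 2779) (nat_lit 178) .nil))))))) (.g (nat_lit 1) (.e (nat_lit 289535) (nat_lit 0) .nil) .nil)))) (.nd (nat_lit 9) 
(.lf (nat_lit 548231) (.g (nat_lit 1180) (.e (nat_lit 311339) (nat_lit 12) (.e (nat_lit 475210) (nat_lit 41) (.e (nat_lit 712750) (nat_lit 29) (.e (nat_lit 450304) (nat_lit 4) .nil)))) (.g (nat_lit 0) (.e (nat_lit 288413) (nat_lit 0) .nil) .nil))) 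
(.lf (nat_lit 548743) (.g (nat_lit 2421) (.e (nat_lit 286765) (nat_lit 15) (.e (nat_lit 3308) (nat_lit 202) (.e (nat_lit 573493) (nat_lit 15) (.e (nat_lit 81956) (nat_lit 23) (.e (nat_lit 98325) (nat_lit 17) (.e (nat_lit 6966) (nat_lit 377) (.e (nat_lit 2776) (nat_lit 178) .nil))))))) (.g (nat_lit 1) (.e (nat_lit 289934) (nat_lit 0) .nil) .nil)))))) 
(.nd (nat_lit 7) (.nd (nat_lit 8) (.nd (nat_lit 9) 
(.lf (nat_lit 547911) (.g (nat_lit 2788) (.e (nat_lit 311040) (nat_lit 17) (.e (nat_lit 90174) (nat_lit 14) (.e (nat_lit 180250) (nat_lit 10) (.e (nat_lit 573488) (nat_lit 14) (.e (nat_lit 73755) (nat_lit 8) .nil))))) (.g (nat_lit 0) (.e (nat_lit 287467) (nat_lit 0) .nil) .nil))) 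
(.lf (nat_lit 548423) (.g (nat_lit 3971) (.e (nat_lit 286733) (nat_lit 2) (.e (nat_lit 90176) (nat_lit 15) (.e (nat_lit 188452) (nat_lit 23) (.e (nat_lit 204846) (nat_lit 24) (.e (nat_lit 319532) (nat_lit 16) .nil))))) (.g (nat_lit 1) (.e (nat_lit 289459) (nat_lit 0) .nil) .nil)))) (.nd (nat_lit 9) 
(.lf (nat_lit 548167) (.g (nat_lit 1997) (.e (nat_lit 311315) (nat_lit 3) (.e (nat_lit 204846) (nat_lit 24) (.e (nat_lit 319532) (nat_lit 16) (.e (nat_lit 286735) (nat_lit 3) (.e (nat_lit 98352) (nat_lit 25) .nil))))) (.g (nat_lit 0) (.e (nat_lit 288033) (nat_lit 0) .nil) .nil))) 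
(.lf (nat_lit 548679) (.g (nat_lit 2134) (.e (nat_lit 286765) (nat_lit 15) (.e (nat_lit 3298) (nat_lit 202) (.e (nat_lit 573482) (nat_lit 13) (.e (nat_lit 65604) (nat_lit 9) (.e (nat_lit 336013) (nat_lit 2) (.e (nat_lit 90165) (nat_lit 12) (.e (nat_lit 164208) (nat_lit 176) (.e (nat_lit 2777) (nat_lit 178) .nil)))))))) (.g (nat_lit 1) (.e (nat_lit 289851) (nat_lit 0) .nil) .nil))))) 
(.nd (nat_lit 8) (.nd (nat_lit 9) 
(.lf (nat_lit 548039) (.g (nat_lit 786) (.e (nat_lit 311311) (nat_lit 2) (.e (nat_lit 196672) (nat_lit 15) (.e (nat_lit 81953) (nat_lit 22) .nil))) (.g (nat_lit 0) (.e (nat_lit 287705) (nat_lit 0) .nil) .nil))) 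
(.lf (nat_lit 548551) (.g (nat_lit 1055) (.e (nat_lit 286743) (nat_lit 9) (.e (nat_lit 336336) (nat_lit 20) (.e (nat_lit 221217) (nat_lit 24) .nil))) (.g (nat_lit 0) (.e (nat_lit 289618) (nat_lit 0) .nil) .nil)))) (.nd (nat_lit 9) 
(.lf (nat_lit 548295) (.g (nat_lit 2094) (.e (nat_lit 319232) (nat_lit 27) (.e (nat_lit 336235) (nat_lit 14) (.e (nat_lit 401459) (nat_lit 13) (.e (nat_lit 483371) (nat_lit 21) .nil)))) (.g (nat_lit 0) (.e (nat_lit 289118) (nat_lit 0) .nil) .nil))) 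
(.lf (nat_lit 548807) (.g (nat_lit 1779) (.e (nat_lit 286771) (nat_lit 29) (.e (nat_lit 442419) (nat_lit 21) (.e (nat_lit 164327) (nat_lit 230) (.e (nat_lit 163886) (nat_lit 5) (.e (nat_lit 221188) (nat_lit 0) (.e (nat_lit 6112) (nat_lit 332) (.e (nat_lit 2779) (nat_lit 178) .nil))))))) (.g (nat_lit 1) (.e (nat_lit 290294) (nat_lit 0) .nil) .nil))))))) 
(.nd (nat_lit 6) (.nd (nat_lit 7) (.nd (nat_lit 8) (.nd (nat_lit 9) 
(.lf (nat_lit 547879) (.g (nat_lit 1029) (.e (nat_lit 303145) (nat_lit 13) (.e (nat_lit 483413) (nat_lit 27) (.e (nat_lit 401420) (nat_lit 1) .nil))) (.g (nat_lit 0) (.e (nat_lit 287309) (nat_lit 0) .nil) .nil))) 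
(.lf (nat_lit 548391) (.g (nat_lit 1090) (.e (nat_lit 286733) (nat_lit 2) (.e (nat_lit 90134) (nat_lit 9) (.e (nat_lit 2992) (nat_lit 186) (.e (nat_lit 442423) (nat_lit 22) .nil)))) (.g (nat_lit 0) (.e (nat_lit 289410) (nat_lit 0) .nil) .nil)))) (.nd (nat_lit 9) 
(.lf (nat_lit 548135) (.g (nat_lit 658) (.e (nat_lit 311314) (nat_lit 3) (.e (nat_lit 204846) (nat_lit 24) (.e (nat_lit 319532) (nat_lit 16) .nil))) (.g (nat_lit 0) (.e (nat_lit 287881) (nat_lit 0) .nil) .nil))) 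
(.lf (nat_lit 548647) (.g (nat_lit 684) (.e (nat_lit 286759) (nat_lit 12) (.e (nat_lit 385107) (nat_lit 51) (.e (nat_lit 794691) (nat_lit 29) .nil))) (.g (nat_lit 0) (.e (nat_lit 289797) (nat_lit 0) .nil) .nil))))) (.nd (nat_lit 8) (.nd (nat_lit 9) 
(.lf (nat_lit 548007) (.g (nat_lit 2637) (.e (nat_lit 311310) (nat_lit 2) (.e (nat_lit 196666) (nat_lit 13) (.e (nat_lit 65610) (nat_lit 10) (.e (nat_lit 344117) (nat_lit 21) (.e (nat_lit 516142) (nat_lit 8) .nil))))) (.g (nat_lit 0) (.e (nat_lit 287641) (nat_lit 0) .nil) .nil))) 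
(.lf (nat_lit 548519) (.g (nat_lit 858) (.e (nat_lit 286735) (nat_lit 3) (.e (nat_lit 98367) (nat_lit 27) (.e (nat_lit 434183) (nat_lit 8) .nil))) (.g (nat_lit 0) (.e (nat_lit 289570) (nat_lit 0) .nil) .nil)))) (.nd (nat_lit 9) 
(.lf (nat_lit 548263) (.g (nat_lit 1594) (.e (nat_lit 311343) (nat_lit 13) (.e (nat_lit 483372) (nat_lit 21) (.e (nat_lit 319533) (nat_lit 16) (.e (nat_lit 286725) (nat_lit 0) .nil)))) (.g (nat_lit 0) (.e (nat_lit 288772) (nat_lit 0) .nil) .nil))) 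
(.lf (nat_lit 548775) (.g (nat_lit 1791) (.e (nat_lit 286768) (nat_lit 27) (.e (nat_lit 426340) (nat_lit 14) (.e (nat_lit 491549) (nat_lit 9) (.e (nat_lit 336421) (nat_lit 28) (.e (nat_lit 434187) (nat_lit 13) (.e (nat_lit 2781) (nat_lit 178) .nil)))))) (.g (nat_lit 1) (.e (nat_lit 290184) (nat_lit 0) .nil) .nil)))))) (.nd (nat_lit 7) (.nd (nat_lit 8) (.nd (nat_lit 9) 
(.lf (nat_lit 547943) (.g (nat_lit 1593) (.e (nat_lit 311040) (nat_lit 27) (.e (nat_lit 336226) (nat_lit 14) (.e (nat_lit 401459) (nat_lit 13) (.e (nat_lit 483342) (nat_lit 17) .nil)))) (.g (nat_lit 0) (.e (nat_lit 287515) (nat_lit 0) .nil) .nil))) 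
(.lf (nat_lit 548455) (.g (nat_lit 822) (.e (nat_lit 286734) (nat_lit 3) (.e (nat_lit 98381) (nat_lit 31) (.e (nat_lit 466977) (nat_lit 22) (.e (nat_lit 196677) (nat_lit 16) .nil)))) (.g (nat_lit 0) (.e (nat_lit 289498) (nat_lit 0) .nil) .nil)))) (.nd (nat_lit 9) 
(.lf (nat_lit 548199) (.g (nat_lit 2066) (.e (nat_lit 311315) (nat_lit 3) (.e (nat_lit 204885) (nat_lit 33) (.e (nat_lit 401434) (nat_lit 9) (.e (nat_lit 426140) (nat_lit 3) (.e (nat_lit 204821) (nat_lit 17) (.e (nat_lit 6136) (nat_lit 332) (.e (nat_lit 1383) (nat_lit 105) .nil))))))) (.g (nat_lit 1) (.e (nat_lit 288216) (nat_lit 0) .nil) .nil))) 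
(.lf (nat_lit 548711) (.g (nat_lit 3336) (.e (nat_lit 286765) (nat_lit 15) (.e (nat_lit 3307) (nat_lit 202) (.e (nat_lit 573484) (nat_lit 13) (.e (nat_lit 65610) (nat_lit 10) (.e (nat_lit 344117) (nat_lit 21) (.e (nat_lit 516106) (nat_lit 0) (.e (nat_lit 6966) (nat_lit 377) (.e (nat_lit 2777) (nat_lit 178) .nil)))))))) (.g (nat_lit 1) (.e (nat_lit 289899) (nat_lit 0) .nil) .nil))))) 
(.nd (nat_lit 8) (.nd (nat_lit 9) 
(.lf (nat_lit 548071) (.g (nat_lit 4232) (.e (nat_lit 311312) (nat_lit 2) (.e (nat_lit 196666) (nat_lit 13) (.e (nat_lit 65610) (nat_lit 10) (.e (nat_lit 344117) (nat_lit 21) (.e (nat_lit 516106) (nat_lit 0) (.e (nat_lit 6986) (nat_lit 377) (.e (nat_lit 7936) (nat_lit 181) .nil))))))) (.g (nat_lit 1) (.e (nat_lit 287767) (nat_lit 0) .nil) .nil))) 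
(.lf (nat_lit 548583) (.g (nat_lit 1172) (.e (nat_lit 286753) (nat_lit 10) (.e (nat_lit 344160) (nat_lit 37) (.e (nat_lit 647190) (nat_lit 9) (.e (nat_lit 7936) (nat_lit 33) .nil)))) (.g (nat_lit 0) (.e (nat_lit 289673) (nat_lit 0) .nil) .nil)))) (.nd (nat_lit 9) 
(.lf (nat_lit 548327) (.g (nat_lit 1385) (.e (nat_lit 319232) (nat_lit 35) (.e (nat_lit 401454) (nat_lit 12) (.e (nat_lit 475198) (nat_lit 40) (.e (nat_lit 704595) (nat_lit 5) .nil)))) (.g (nat_lit 0) (.e (nat_lit 289166) (nat_lit 0) .nil) .nil))) 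
(.lf (nat_lit 548839) (.g (nat_lit 3828) (.e (nat_lit 294928) (nat_lit 2) (.e (nat_lit 90170) (nat_lit 13) (.e (nat_lit 172106) (nat_lit 10) (.e (nat_lit 434231) (nat_lit 23) (.e (nat_lit 532496) (nat_lit 0) .nil))))) (.g (nat_lit 0) (.e (nat_lit 290484) (nat_lit 0) .nil) .nil)))))))) (.nd (nat_lit 5) (.nd (nat_lit 6) (.nd (nat_lit 7) (.nd (nat_lit 8) (.nd (nat_lit 9) 
(.lf (nat_lit 547863) (.g (nat_lit 2670) (.e (nat_lit 303144) (nat_lit 13) (.e (nat_lit 483413) (nat_lit 27) (.e (nat_lit 401447) (nat_lit 10) (.e (nat_lit 434202) (nat_lit 18) .nil)))) (.g (nat_lit 0) (.e (nat_lit 287046) (nat_lit 0) .nil) .nil))) 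
(.lf (nat_lit 548375) (.g (nat_lit 3030) (.e (nat_lit 286732) (nat_lit 2) (.e (nat_lit 90170) (nat_lit 13) (.e (nat_lit 172106) (nat_lit 10) (.e (nat_lit 434231) (nat_lit 23) (.e (nat_lit 532523) (nat_lit 7) (.e (nat_lit 327424) (nat_lit 16) .nil)))))) (.g (nat_lit 1) (.e (nat_lit 289367) (nat_lit 0) .nil) .nil)))) (.nd (nat_lit 9) 
(.lf (nat_lit 548119) (.g (nat_lit 698) (.e (nat_lit 311313) (nat_lit 3) (.e (nat_lit 204815) (nat_lit 17) (.e (nat_lit 6722) (nat_lit 362) (.e (nat_lit 180244) (nat_lit 5) .nil)))) (.g (nat_lit 0) (.e (nat_lit 287854) (nat_lit 0) .nil) .nil))) 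
(.lf (nat_lit 548631) (.g (nat_lit 2213) (.e (nat_lit 286759) (nat_lit 12) (.e (nat_lit 385074) (nat_lit 31) (.e (nat_lit 573484) (nat_lit 13) (.e (nat_lit 65617) (nat_lit 10) (.e (nat_lit 344112) (nat_lit 19) .nil))))) (.g (nat_lit 0) (.e (nat_lit 289780) (nat_lit 0) .nil) .nil))))) (.nd (nat_lit 8) (.nd (nat_lit 9) 
(.lf (nat_lit 547991) (.g (nat_lit 1308) (.e (nat_lit 311040) (nat_lit 35) (.e (nat_lit 401454) (nat_lit 12) (.e (nat_lit 475208) (nat_lit 41) .nil))) (.g (nat_lit 0) (.e (nat_lit 287585) (nat_lit 0) .nil) .nil))) 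
(.lf (nat_lit 548503) (.g (nat_lit 2888) (.e (nat_lit 286735) (nat_lit 3) (.e (nat_lit 98359) (nat_lit 26) (.e (nat_lit 426305) (nat_lit 12) (.e (nat_lit 475185) (nat_lit 29) (.e (nat_lit 557070) (nat_lit 9) (.e (nat_lit 2400) (nat_lit 157) (.e (nat_lit 7064) (nat_lit 377) (.e (nat_lit 1349) (nat_lit 102) .nil)))))))) (.g (nat_lit 1) (.e (nat_lit 289554) (nat_lit 0) .nil) .nil)))) 
(.nd (nat_lit 9) 
(.lf (nat_lit 548247) (.g (nat_lit 690) (.e (nat_lit 311343) (nat_lit 13) (.e (nat_lit 483337) (nat_lit 9) (.e (nat_lit 426107) (nat_lit 1) .nil))) (.g (nat_lit 0) (.e (nat_lit 288669) (nat_lit 0) .nil) .nil))) 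
(.lf (nat_lit 548759) (.g (nat_lit 1279) (.e (nat_lit 286767) (nat_lit 27) (.e (nat_lit 426107) (nat_lit 1) (.e (nat_lit 164189) (nat_lit 157) (.e (nat_lit 229409) (nat_lit 13) .nil)))) (.g (nat_lit 0) (.e (nat_lit 290156) (nat_lit 0) .nil) .nil)))))) (.nd (nat_lit 7) (.nd (nat_lit 8) (.nd (nat_lit 9) 
(.lf (nat_lit 547927) (.g (nat_lit 1951) (.e (nat_lit 303152) (nat_lit 27) (.e (nat_lit 336226) (nat_lit 14) (.e (nat_lit 401459) (nat_lit 13) (.e (nat_lit 483342) (nat_lit 17) (.e (nat_lit 6113) (nat_lit 332) .nil))))) (.g (nat_lit 0) (.e (nat_lit 287495) (nat_lit 0) .nil) .nil))) 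
(.lf (nat_lit 548439) (.g (nat_lit 3698) (.e (nat_lit 286733) (nat_lit 2) (.e (nat_lit 90178) (nat_lit 15) (.e (nat_lit 188452) (nat_lit 23) (.e (nat_lit 204845) (nat_lit 24) (.e (nat_lit 319529) (nat_lit 16) .nil))))) (.g (nat_lit 1) (.e (nat_lit 289476) (nat_lit 0) .nil) .nil)))) (.nd (nat_lit 9) 
(.lf (nat_lit 548183) (.g (nat_lit 1526) (.e (nat_lit 311315) (nat_lit 3) (.e (nat_lit 204855) (nat_lit 26) (.e (nat_lit 336099) (nat_lit 9) (.e (nat_lit 336013) (nat_lit 2) .nil)))) (.g (nat_lit 0) (.e (nat_lit 288055) (nat_lit 0) .nil) .nil))) 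
(.lf (nat_lit 548695) (.g (nat_lit 2872) (.e (nat_lit 286765) (nat_lit 15) (.e (nat_lit 3304) (nat_lit 202) (.e (nat_lit 573482) (nat_lit 13) (.e (nat_lit 65604) (nat_lit 9) (.e (nat_lit 336028) (nat_lit 3) (.e (nat_lit 98325) (nat_lit 17) (.e (nat_lit 6986) (nat_lit 377) (.e (nat_lit 2782) (nat_lit 178) .nil)))))))) (.g (nat_lit 1) (.e (nat_lit 289870) (nat_lit 0) .nil) .nil))))) 
(.nd (nat_lit 8) (.nd (nat_lit 9) 
(.lf (nat_lit 548055) (.g (nat_lit 3139) (.e (nat_lit 311312) (nat_lit 2) (.e (nat_lit 196666) (nat_lit 13) (.e (nat_lit 65610) (nat_lit 10) (.e (nat_lit 344117) (nat_lit 21) (.e (nat_lit 516098) (nat_lit 0) (.e (nat_lit 6948) (nat_lit 377) (.e (nat_lit 2814) (nat_lit 181) .nil))))))) (.g (nat_lit 1) (.e (nat_lit 287750) (nat_lit 0) .nil) .nil))) 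
(.lf (nat_lit 548567) (.g (nat_lit 2523) (.e (nat_lit 286748) (nat_lit 9) (.e (nat_lit 336295) (nat_lit 15) (.e (nat_lit 3305) (nat_lit 202) (.e (nat_lit 573481) (nat_lit 13) (.e (nat_lit 65598) (nat_lit 9) .nil))))) (.g (nat_lit 0) (.e (nat_lit 289646) (nat_lit 0) .nil) .nil)))) (.nd (nat_lit 9) 
(.lf (nat_lit 548311) (.g (nat_lit 1132) (.e (nat_lit 311357) (nat_lit 28) (.e (nat_lit 344069) (nat_lit 0) (.e (nat_lit 2857) (nat_lit 184) (.e (nat_lit 426537) (nat_lit 28) .nil)))) (.g (nat_lit 0) (.e (nat_lit 289140) (nat_lit 0) .nil) .nil))) 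
(.lf (nat_lit 548823) (.g (nat_lit 2416) (.e (nat_lit 294927) (nat_lit 2) (.e (nat_lit 90170) (nat_lit 13) (.e (nat_lit 172106) (nat_lit 10) (.e (nat_lit 434231) (nat_lit 23) (.e (nat_lit 532490) (nat_lit 0) .nil))))) (.g (nat_lit 0) (.e (nat_lit 290466) (nat_lit 0) .nil) .nil))))))) (.nd (nat_lit 6) (.nd (nat_lit 7) (.nd (nat_lit 8) (.nd (nat_lit 9) 
(.lf (nat_lit 547895) (.g (nat_lit 680) (.e (nat_lit 303147) (nat_lit 15) (.e (nat_lit 1858) (nat_lit 124) (.e (nat_lit 557106) (nat_lit 15) .nil))) (.g (nat_lit 0) (.e (nat_lit 287444) (nat_lit 0) .nil) .nil))) 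
(.lf (nat_lit 548407) (.g (nat_lit 3030) (.e (nat_lit 286733) (nat_lit 2) (.e (nat_lit 90170) (nat_lit 13) (.e (nat_lit 172106) (nat_lit 10) (.e (nat_lit 434231) (nat_lit 23) (.e (nat_lit 532522) (nat_lit 7) (.e (nat_lit 327424) (nat_lit 16) .nil)))))) (.g (nat_lit 1) (.e (nat_lit 289439) (nat_lit 0) .nil) .nil)))) (.nd (nat_lit 9) 
(.lf (nat_lit 548151) (.g (nat_lit 1311) (.e (nat_lit 311314) (nat_lit 3) (.e (nat_lit 204885) (nat_lit 33) (.e (nat_lit 401448) (nat_lit 10) (.e (nat_lit 434232) (nat_lit 23) .nil)))) (.g (nat_lit 0) (.e (nat_lit 287997) (nat_lit 0) .nil) .nil))) 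
(.lf (nat_lit 548663) (.g (nat_lit 1077) (.e (nat_lit 286762) (nat_lit 14) (.e (nat_lit 401448) (nat_lit 10) (.e (nat_lit 434268) (nat_lit 36) (.e (nat_lit 639020) (nat_lit 16) .nil)))) (.g (nat_lit 0) (.e (nat_lit 289820) (nat_lit 0) .nil) .nil))))) (.nd (nat_lit 8) (.nd (nat_lit 9) 
(.lf (nat_lit 548023) (.g (nat_lit 4187) (.e (nat_lit 311311) (nat_lit 2) (.e (nat_lit 196666) (nat_lit 13) (.e (nat_lit 65610) (nat_lit 10) (.e (nat_lit 344117) (nat_lit 21) (.e (nat_lit 516106) (nat_lit 0) (.e (nat_lit 6966) (nat_lit 377) (.e (nat_lit 2815) (nat_lit 181) .nil))))))) (.g (nat_lit 1) (.e (nat_lit 287670) (nat_lit 0) .nil) .nil))) 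
(.lf (nat_lit 548535) (.g (nat_lit 2132) (.e (nat_lit 286735) (nat_lit 3) (.e (nat_lit 98382) (nat_lit 31) (.e (nat_lit 466967) (nat_lit 20) (.e (nat_lit 3253) (nat_lit 197) (.e (nat_lit 532523) (nat_lit 7) (.e (nat_lit 327424) (nat_lit 16) .nil)))))) (.g (nat_lit 1) (.e (nat_lit 289589) (nat_lit 0) .nil) .nil)))) (.nd (nat_lit 9) 
(.lf (nat_lit 548279) (.g (nat_lit 3988) (.e (nat_lit 311348) (nat_lit 15) (.e (nat_lit 1858) (nat_lit 124) (.e (nat_lit 557109) (nat_lit 15) (.e (nat_lit 188452) (nat_lit 23) (.e (nat_lit 204845) (nat_lit 24) .nil))))) (.g (nat_lit 0) (.e (nat_lit 289085) (nat_lit 0) .nil) .nil))) 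
(.lf (nat_lit 548791) (.g (nat_lit 1699) (.e (nat_lit 294656) (nat_lit 27) (.e (nat_lit 426347) (nat_lit 14) (.e (nat_lit 491549) (nat_lit 9) (.e (nat_lit 336421) (nat_lit 28) (.e (nat_lit 434187) (nat_lit 13) .nil))))) (.g (nat_lit 0) (.e (nat_lit 290204) (nat_lit 0) .nil) .nil)))))) (.nd (nat_lit 7) (.nd (nat_lit 8) (.nd (nat_lit 9) 
(.lf (nat_lit 547959) (.g (nat_lit 1159) (.e (nat_lit 311040) (nat_lit 27) (.e (nat_lit 336432) (nat_lit 30) (.e (nat_lit 450580) (nat_lit 5) (.e (nat_lit 540416) (nat_lit 24) .nil)))) (.g (nat_lit 0) (.e (nat_lit 287538) (nat_lit 0) .nil) .nil))) 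
(.lf (nat_lit 548471) (.g (nat_lit 3566) (.e (nat_lit 286735) (nat_lit 3) (.e (nat_lit 98323) (nat_lit 17) (.e (nat_lit 6989) (nat_lit 377) (.e (nat_lit 1076) (nat_lit 81) (.e (nat_lit 5664) (nat_lit 312) (.e (nat_lit 2679) (nat_lit 168) (.e (nat_lit 204846) (nat_lit 24) (.e (nat_lit 327424) (nat_lit 16) .nil)))))))) (.g (nat_lit 1) (.e (nat_lit 289516) (nat_lit 0) .nil) .nil)))) (.nd (nat_lit 9) 
(.lf (nat_lit 548215) (.g (nat_lit 1424) (.e (nat_lit 311324) (nat_lit 9) (.e (nat_lit 426436) (nat_lit 18) (.e (nat_lit 98334) (nat_lit 18) (.e (nat_lit 164305) (nat_lit 226) .nil)))) (.g (nat_lit 0) (.e (nat_lit 288278) (nat_lit 0) .nil) .nil))) 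
(.lf (nat_lit 548727) (.g (nat_lit 4698) (.e (nat_lit 286765) (nat_lit 15) (.e (nat_lit 3307) (nat_lit 202) (.e (nat_lit 573493) (nat_lit 15) (.e (nat_lit 81956) (nat_lit 23) (.e (nat_lit 98325) (nat_lit 17) (.e (nat_lit 6986) (nat_lit 377) (.e (nat_lit 2782) (nat_lit 178) .nil))))))) (.g (nat_lit 1) (.e (nat_lit 289915) (nat_lit 0) .nil) .nil))))) (.nd (nat_lit 8) (.nd (nat_lit 9) 
(.lf (nat_lit 548087) (.g (nat_lit 1549) (.e (nat_lit 311312) (nat_lit 2) (.e (nat_lit 196672) (nat_lit 15) (.e (nat_lit 81954) (nat_lit 23) (.e (nat_lit 98319) (nat_lit 17) (.e (nat_lit 7073) (nat_lit 377) .nil))))) (.g (nat_lit 0) (.e (nat_lit 287807) (nat_lit 0) .nil) .nil))) 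
(.lf (nat_lit 548599) (.g (nat_lit 850) (.e (nat_lit 286755) (nat_lit 10) (.e (nat_lit 344138) (nat_lit 29) (.e (nat_lit 581653) (nat_lit 6) (.e (nat_lit 188430) (nat_lit 20) .nil)))) (.g (nat_lit 0) (.e (nat_lit 289710) (nat_lit 0) .nil) .nil)))) (.nd (nat_lit 9) 
(.lf (nat_lit 548343) (.g (nat_lit 2360) (.e (nat_lit 286724) (nat_lit 0) (.e (nat_lit 1788) (nat_lit 119) (.e (nat_lit 516151) (nat_lit 9) (.e (nat_lit 426285) (nat_lit 10) .nil)))) (.g (nat_lit 0) (.e (nat_lit 289195) (nat_lit 0) .nil) .nil))) 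
(.lf (nat_lit 548855) (.g (nat_lit 2781) (.e (nat_lit 294928) (nat_lit 2) (.e (nat_lit 90176) (nat_lit 15) (.e (nat_lit 188452) (nat_lit 23) (.e (nat_lit 204816) (nat_lit 17) .nil)))) (.g (nat_lit 0) (.e (nat_lit 290500) (nat_lit 0) .nil) .nil))))))))) (.nd (nat_lit 4) (.nd (nat_lit 5) (.nd (nat_lit 6) (.nd (nat_lit 7) (.nd (nat_lit 8) (.nd (nat_lit 9) 
(.lf (nat_lit 547855) (.g (nat_lit 1337) (.e (nat_lit 303144) (nat_lit 13) (.e (nat_lit 483403) (nat_lit 26) (.e (nat_lit 385114) (nat_lit 53) (.e (nat_lit 811024) (nat_lit 5) .nil)))) (.g (nat_lit 0) (.e (nat_lit 287001) (nat_lit 0) .nil) .nil))) 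
(.lf (nat_lit 548367) (.g (nat_lit 1897) (.e (nat_lit 286732) (nat_lit 2) (.e (nat_lit 90170) (nat_lit 13) (.e (nat_lit 172106) (nat_lit 10) (.e (nat_lit 434227) (nat_lit 20) .nil)))) (.g (nat_lit 0) (.e (nat_lit 289359) (nat_lit 0) .nil) .nil)))) (.nd (nat_lit 9) 
(.lf (nat_lit 548111) (.g (nat_lit 1224) (.e (nat_lit 311312) (nat_lit 2) (.e (nat_lit 196674) (nat_lit 15) (.e (nat_lit 81951) (nat_lit 22) (.e (nat_lit 90165) (nat_lit 12) .nil)))) (.g (nat_lit 0) (.e (nat_lit 287835) (nat_lit 0) .nil) .nil))) 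
(.lf (nat_lit 548623) (.g (nat_lit 2261) (.e (nat_lit 286756) (nat_lit 10) (.e (nat_lit 344160) (nat_lit 37) (.e (nat_lit 647200) (nat_lit 12) (.e (nat_lit 57575) (nat_lit 55) (.e (nat_lit 778465) (nat_lit 11) .nil))))) (.g (nat_lit 0) (.e (nat_lit 289755) (nat_lit 0) .nil) .nil))))) (.nd (nat_lit 8) (.nd (nat_lit 9) 
(.lf (nat_lit 547983) (.g (nat_lit 1475) (.e (nat_lit 311040) (nat_lit 35) (.e (nat_lit 401454) (nat_lit 12) (.e (nat_lit 475198) (nat_lit 40) (.e (nat_lit 704592) (nat_lit 4) .nil)))) (.g (nat_lit 0) (.e (nat_lit 287576) (nat_lit 0) .nil) .nil))) 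
(.lf (nat_lit 548495) (.g (nat_lit 1840) (.e (nat_lit 286735) (nat_lit 3) (.e (nat_lit 98356) (nat_lit 26) (.e (nat_lit 426243) (nat_lit 9) (.e (nat_lit 426139) (nat_lit 3) (.e (nat_lit 204846) (nat_lit 24) .nil))))) (.g (nat_lit 0) (.e (nat_lit 289544) (nat_lit 0) .nil) .nil)))) (.nd (nat_lit 9) 
(.lf (nat_lit 548239) (.g (nat_lit 2497) (.e (nat_lit 311341) (nat_lit 13) (.e (nat_lit 483413) (nat_lit 27) (.e (nat_lit 401448) (nat_lit 10) (.e (nat_lit 434288) (nat_lit 43) .nil)))) (.g (nat_lit 0) (.e (nat_lit 288522) (nat_lit 0) .nil) .nil))) 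
(.lf (nat_lit 548751) (.g (nat_lit 2081) (.e (nat_lit 286764) (nat_lit 15) (.e (nat_lit 3305) (nat_lit 202) (.e (nat_lit 573485) (nat_lit 13) (.e (nat_lit 65604) (nat_lit 9) (.e (nat_lit 336013) (nat_lit 2) (.e (nat_lit 90165) (nat_lit 12) (.e (nat_lit 164208) (nat_lit 176) (.e (nat_lit 2781) (nat_lit 178) .nil)))))))) (.g (nat_lit 1) (.e (nat_lit 289988) (nat_lit 0) .nil) .nil)))))) 
(.nd (nat_lit 7) (.nd (nat_lit 8) (.nd (nat_lit 9) 
(.lf (nat_lit 547919) (.g (nat_lit 827) (.e (nat_lit 311040) (nat_lit 18) (.e (nat_lit 98381) (nat_lit 31) (.e (nat_lit 466954) (nat_lit 11) (.e (nat_lit 343808) (nat_lit 25) .nil)))) (.g (nat_lit 0) (.e (nat_lit 287475) (nat_lit 0) .nil) .nil))) 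
(.lf (nat_lit 548431) (.g (nat_lit 2564) (.e (nat_lit 286733) (nat_lit 2) (.e (nat_lit 90177) (nat_lit 15) (.e (nat_lit 188452) (nat_lit 23) (.e (nat_lit 204848) (nat_lit 25) (.e (nat_lit 335616) (nat_lit 16) .nil))))) (.g (nat_lit 1) (.e (nat_lit 289467) (nat_lit 0) .nil) .nil)))) (.nd (nat_lit 9) 
(.lf (nat_lit 548175) (.g (nat_lit 4269) (.e (nat_lit 311315) (nat_lit 3) (.e (nat_lit 204846) (nat_lit 24) (.e (nat_lit 319534) (nat_lit 16) (.e (nat_lit 286728) (nat_lit 0) (.e (nat_lit 1841) (nat_lit 123) (.e (nat_lit 548874) (nat_lit 5) (.e (nat_lit 1395) (nat_lit 106) (.e (nat_lit 319539) (nat_lit 19) .nil)))))))) (.g (nat_lit 1) (.e (nat_lit 288041) (nat_lit 0) .nil) .nil))) 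
(.lf (nat_lit 548687) (.g (nat_lit 4271) (.e (nat_lit 286765) (nat_lit 15) (.e (nat_lit 3298) (nat_lit 202) (.e (nat_lit 573493) (nat_lit 15) (.e (nat_lit 81956) (nat_lit 23) (.e (nat_lit 98325) (nat_lit 17) (.e (nat_lit 6986) (nat_lit 377) (.e (nat_lit 2779) (nat_lit 178) .nil))))))) (.g (nat_lit 1) (.e (nat_lit 289862) (nat_lit 0) .nil) .nil))))) (.nd (nat_lit 8) (.nd (nat_lit 9) 
(.lf (nat_lit 548047) (.g (nat_lit 2138) (.e (nat_lit 311311) (nat_lit 2) (.e (nat_lit 196673) (nat_lit 15) (.e (nat_lit 81956) (nat_lit 23) (.e (nat_lit 98353) (nat_lit 25) (.e (nat_lit 417830) (nat_lit 19) .nil))))) (.g (nat_lit 0) (.e (nat_lit 287714) (nat_lit 0) .nil) .nil))) 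
(.lf (nat_lit 548559) (.g (nat_lit 2174) (.e (nat_lit 286747) (nat_lit 9) (.e (nat_lit 335997) (nat_lit 1) (.e (nat_lit 57857) (nat_lit 254) (.e (nat_lit 163908) (nat_lit 12) (.e (nat_lit 426171) (nat_lit 7) (.e (nat_lit 409638) (nat_lit 15) (.e (nat_lit 278566) (nat_lit 16) .nil))))))) (.g (nat_lit 1) (.e (nat_lit 289627) (nat_lit 0) .nil) .nil)))) (.nd (nat_lit 9) 
(.lf (nat_lit 548303) (.g (nat_lit 2195) (.e (nat_lit 311357) (nat_lit 28) (.e (nat_lit 344068) (nat_lit 0) (.e (nat_lit 3090) (nat_lit 191) (.e (nat_lit 483350) (nat_lit 17) (.e (nat_lit 6109) (nat_lit 332) (.e (nat_lit 1380) (nat_lit 105) .nil)))))) (.g (nat_lit 1) (.e (nat_lit 289130) (nat_lit 0) .nil) .nil))) 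
(.lf (nat_lit 548815) (.g (nat_lit 1558) (.e (nat_lit 294925) (nat_lit 1) (.e (nat_lit 57688) (nat_lit 156) (.e (nat_lit 163933) (nat_lit 17) (.e (nat_lit 466950) (nat_lit 11) .nil)))) (.g (nat_lit 0) (.e (nat_lit 290450) (nat_lit 0) .nil) .nil))))))) (.nd (nat_lit 6) (.nd (nat_lit 7) (.nd (nat_lit 8) (.nd (nat_lit 9) 
(.lf (nat_lit 547887) (.g (nat_lit 1871) (.e (nat_lit 303146) (nat_lit 14) (.e (nat_lit 491569) (nat_lit 13) (.e (nat_lit 393283) (nat_lit 24) (.e (nat_lit 434275) (nat_lit 39) (.e (nat_lit 663589) (nat_lit 14) .nil))))) (.g (nat_lit 0) (.e (nat_lit 287412) (nat_lit 0) .nil) .nil))) 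
(.lf (nat_lit 548399) (.g (nat_lit 2859) (.e (nat_lit 286733) (nat_lit 2) (.e (nat_lit 90168) (nat_lit 13) (.e (nat_lit 172126) (nat_lit 14) (.e (nat_lit 491537) (nat_lit 2) (.e (nat_lit 90133) (nat_lit 9) (.e (nat_lit 2400) (nat_lit 157) (.e (nat_lit 7064) (nat_lit 377) (.e (nat_lit 1348) (nat_lit 102) .nil)))))))) (.g (nat_lit 1) (.e (nat_lit 289431) (nat_lit 0) .nil) .nil)))) (.nd (nat_lit 9) 
(.lf (nat_lit 548143) (.g (nat_lit 2023) (.e (nat_lit 311314) (nat_lit 3) (.e (nat_lit 204868) (nat_lit 29) (.e (nat_lit 360466) (nat_lit 3) (.e (nat_lit 516142) (nat_lit 8) (.e (nat_lit 425728) (nat_lit 19) .nil))))) (.g (nat_lit 1) (.e (nat_lit 287923) (nat_lit 0) .nil) .nil))) 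
(.lf (nat_lit 548655) (.g (nat_lit 1776) (.e (nat_lit 286761) (nat_lit 13) (.e (nat_lit 393282) (nat_lit 24) (.e (nat_lit 434275) (nat_lit 39) (.e (nat_lit 663589) (nat_lit 14) (.e (nat_lit 2754) (nat_lit 176) .nil))))) (.g (nat_lit 0) (.e (nat_lit 289805) (nat_lit 0) .nil) .nil))))) (.nd (nat_lit 8) (.nd (nat_lit 9) 
(.lf (nat_lit 548015) (.g (nat_lit 3602) (.e (nat_lit 311311) (nat_lit 2) (.e (nat_lit 196666) (nat_lit 13) (.e (nat_lit 65610) (nat_lit 10) (.e (nat_lit 344117) (nat_lit 21) (.e (nat_lit 516097) (nat_lit 0) .nil))))) (.g (nat_lit 0) (.e (nat_lit 287662) (nat_lit 0) .nil) .nil))) 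
(.lf (nat_lit 548527) (.g (nat_lit 3994) (.e (nat_lit 286735) (nat_lit 3) (.e (nat_lit 98369) (nat_lit 28) (.e (nat_lit 442427) (nat_lit 23) (.e (nat_lit 204846) (nat_lit 24) (.e (nat_lit 319533) (nat_lit 16) .nil))))) (.g (nat_lit 1) (.e (nat_lit 289579) (nat_lit 0) .nil) .nil)))) (.nd (nat_lit 9) 
(.lf (nat_lit 548271) (.g (nat_lit 1899) (.e (nat_lit 311343) (nat_lit 13) (.e (nat_lit 483372) (nat_lit 21) (.e (nat_lit 319534) (nat_lit 16) (.e (nat_lit 286728) (nat_lit 0) (.e (nat_lit 2280) (nat_lit 150) .nil))))) (.g (nat_lit 0) (.e (nat_lit 288797) (nat_lit 0) .nil) .nil))) 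
(.lf (nat_lit 548783) (.g (nat_lit 2794) (.e (nat_lit 286768) (nat_lit 27) (.e (nat_lit 426340) (nat_lit 14) (.e (nat_lit 491571) (nat_lit 13) (.e (nat_lit 393260) (nat_lit 21) (.e (nat_lit 417536) (nat_lit 16) .nil))))) (.g (nat_lit 1) (.e (nat_lit 290192) (nat_lit 0) .nil) .nil)))))) (.nd (nat_lit 7) (.nd (nat_lit 8) (.nd (nat_lit 9) 
(.lf (nat_lit 547951) (.g (nat_lit 2208) (.e (nat_lit 311040) (nat_lit 27) (.e (nat_lit 336235) (nat_lit 14) (.e (nat_lit 401458) (nat_lit 13) (.e (nat_lit 483350) (nat_lit 17) (.e (nat_lit 6113) (nat_lit 332) .nil))))) (.g (nat_lit 0) (.e (nat_lit 287528) (nat_lit 0) .nil) .nil))) 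
(.lf (nat_lit 548463) (.g (nat_lit 3222) (.e (nat_lit 286735) (nat_lit 3) (.e (nat_lit 98323) (nat_lit 17) (.e (nat_lit 6989) (nat_lit 377) (.e (nat_lit 2777) (nat_lit 178) (.e (nat_lit 286735) (nat_lit 3) (.e (nat_lit 98325) (nat_lit 17) (.e (nat_lit 6986) (nat_lit 377) (.e (nat_lit 2777) (nat_lit 178) .nil)))))))) (.g (nat_lit 1) (.e (nat_lit 289508) (nat_lit 0) .nil) .nil)))) (.nd (nat_lit 9) 
(.lf (nat_lit 548207) (.g (nat_lit 2192) (.e (nat_lit 311321) (nat_lit 9) (.e (nat_lit 426140) (nat_lit 3) (.e (nat_lit 204846) (nat_lit 24) (.e (nat_lit 319534) (nat_lit 16) .nil)))) (.g (nat_lit 0) (.e (nat_lit 288235) (nat_lit 0) .nil) .nil))) 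
(.lf (nat_lit 548719) (.g (nat_lit 3749) (.e (nat_lit 286765) (nat_lit 15) (.e (nat_lit 3307) (nat_lit 202) (.e (nat_lit 573491) (nat_lit 15) (.e (nat_lit 81954) (nat_lit 23) (.e (nat_lit 98325) (nat_lit 17) (.e (nat_lit 6986) (nat_lit 377) (.e (nat_lit 2782) (nat_lit 178) .nil))))))) (.g (nat_lit 1) (.e (nat_lit 289907) (nat_lit 0) .nil) .nil))))) (.nd (nat_lit 8) (.nd (nat_lit 9) 
(.lf (nat_lit 548079) (.g (nat_lit 3268) (.e (nat_lit 311312) (nat_lit 2) (.e (nat_lit 196666) (nat_lit 13) (.e (nat_lit 65610) (nat_lit 10) (.e (nat_lit 344117) (nat_lit 21) (.e (nat_lit 516106) (nat_lit 0) (.e (nat_lit 7936) (nat_lit 377) (.e (nat_lit 2820) (nat_lit 181) .nil))))))) (.g (nat_lit 1) (.e (nat_lit 287775) (nat_lit 0) .nil) .nil))) 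
(.lf (nat_lit 548591) (.g (nat_lit 4982) (.e (nat_lit 286753) (nat_lit 10) (.e (nat_lit 344160) (nat_lit 37) (.e (nat_lit 647201) (nat_lit 12) (.e (nat_lit 57575) (nat_lit 55) (.e (nat_lit 778465) (nat_lit 11) (.e (nat_lit 24617) (nat_lit 7) (.e (nat_lit 319533) (nat_lit 16) .nil))))))) (.g (nat_lit 1) (.e (nat_lit 289681) (nat_lit 0) .nil) .nil)))) (.nd (nat_lit 9) 
(.lf (nat_lit 548335) (.g (nat_lit 1377) (.e (nat_lit 286720) (nat_lit 0) (.e (nat_lit 1788) (nat_lit 119) (.e (nat_lit 516163) (nat_lit 11) (.e (nat_lit 442425) (nat_lit 23) .nil)))) (.g (nat_lit 0) (.e (nat_lit 289174) (nat_lit 0) .nil) .nil))) 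
(.lf (nat_lit 548847) (.g (nat_lit 1210) (.e (nat_lit 294928) (nat_lit 2) (.e (nat_lit 90176) (nat_lit 15) (.e (nat_lit 188447) (nat_lit 22) (.e (nat_lit 196661) (nat_lit 12) .nil)))) (.g (nat_lit 0) (.e (nat_lit 290492) (nat_lit 0) .nil) .nil)))))))) (.nd (nat_lit 5) (.nd (nat_lit 6) (.nd (nat_lit 7) (.nd (nat_lit 8) (.nd (nat_lit 9) 
(.lf (nat_lit 547871) (.g (nat_lit 643) (.e (nat_lit 303145) (nat_lit 13) (.e (nat_lit 483377) (nat_lit 22) (.e (nat_lit 327705) (nat_lit 10) (.e (nat_lit 5723) (nat_lit 312) .nil)))) (.g (nat_lit 0) (.e (nat_lit 287155) (nat_lit 0) .nil) .nil))) 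
(.lf (nat_lit 548383) (.g (nat_lit 1665) (.e (nat_lit 286732) (nat_lit 2) (.e (nat_lit 90176) (nat_lit 15) (.e (nat_lit 188447) (nat_lit 22) (.e (nat_lit 196626) (nat_lit 9) .nil)))) (.g (nat_lit 0) (.e (nat_lit 289376) (nat_lit 0) .nil) .nil)))) (.nd (nat_lit 9) 
(.lf (nat_lit 548127) (.g (nat_lit 1823) (.e (nat_lit 311314) (nat_lit 3) (.e (nat_lit 204845) (nat_lit 24) (.e (nat_lit 319529) (nat_lit 16) (.e (nat_lit 286735) (nat_lit 3) (.e (nat_lit 98353) (nat_lit 25) .nil))))) (.g (nat_lit 0) (.e (nat_lit 287869) (nat_lit 0) .nil) .nil))) 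
(.lf (nat_lit 548639) (.g (nat_lit 2274) (.e (nat_lit 286759) (nat_lit 12) (.e (nat_lit 385094) (nat_lit 49) (.e (nat_lit 778327) (nat_lit 6) (.e (nat_lit 81957) (nat_lit 24) (.e (nat_lit 130816) (nat_lit 279) (.e (nat_lit 8303) (nat_lit 58) .nil)))))) (.g (nat_lit 1) (.e (nat_lit 289789) (nat_lit 0) .nil) .nil))))) (.nd (nat_lit 8) (.nd (nat_lit 9) 
(.lf (nat_lit 547999) (.g (nat_lit 2478) (.e (nat_lit 311040) (nat_lit 35) (.e (nat_lit 401460) (nat_lit 14) (.e (nat_lit 491549) (nat_lit 9) (.e (nat_lit 336369) (nat_lit 27) (.e (nat_lit 426173) (nat_lit 7) .nil))))) (.g (nat_lit 0) (.e (nat_lit 287593) (nat_lit 0) .nil) .nil))) 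
(.lf (nat_lit 548511) (.g (nat_lit 3161) (.e (nat_lit 286735) (nat_lit 3) (.e (nat_lit 98365) (nat_lit 26) (.e (nat_lit 426188) (nat_lit 9) (.e (nat_lit 426131) (nat_lit 3) (.e (nat_lit 204846) (nat_lit 24) (.e (nat_lit 327424) (nat_lit 16) .nil)))))) (.g (nat_lit 1) (.e (nat_lit 289562) (nat_lit 0) .nil) .nil)))) (.nd (nat_lit 9) 
(.lf (nat_lit 548255) (.g (nat_lit 789) (.e (nat_lit 311343) (nat_lit 13) (.e (nat_lit 483341) (nat_lit 9) (.e (nat_lit 426145) (nat_lit 4) .nil))) (.g (nat_lit 0) (.e (nat_lit 288677) (nat_lit 0) .nil) .nil))) 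
(.lf (nat_lit 548767) (.g (nat_lit 3790) (.e (nat_lit 286768) (nat_lit 27) (.e (nat_lit 426339) (nat_lit 14) (.e (nat_lit 491570) (nat_lit 13) (.e (nat_lit 393238) (nat_lit 17) (.e (nat_lit 6989) (nat_lit 377) (.e (nat_lit 2777) (nat_lit 178) .nil)))))) (.g (nat_lit 1) (.e (nat_lit 290175) (nat_lit 0) .nil) .nil)))))) (.nd (nat_lit 7) (.nd (nat_lit 8) (.nd (nat_lit 9) 
(.lf (nat_lit 547935) (.g (nat_lit 1514) (.e (nat_lit 303152) (nat_lit 27) (.e (nat_lit 336227) (nat_lit 14) (.e (nat_lit 401458) (nat_lit 13) (.e (nat_lit 483372) (nat_lit 21) (.e (nat_lit 327424) (nat_lit 18) .nil))))) (.g (nat_lit 0) (.e (nat_lit 287503) (nat_lit 0) .nil) .nil))) 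
(.lf (nat_lit 548447) (.g (nat_lit 4107) (.e (nat_lit 286734) (nat_lit 3) (.e (nat_lit 98359) (nat_lit 26) (.e (nat_lit 426211) (nat_lit 9) (.e (nat_lit 426140) (nat_lit 3) (.e (nat_lit 204845) (nat_lit 24) (.e (nat_lit 319529) (nat_lit 16) .nil)))))) (.g (nat_lit 1) (.e (nat_lit 289486) (nat_lit 0) .nil) .nil)))) (.nd (nat_lit 9) 
(.lf (nat_lit 548191) (.g (nat_lit 1293) (.e (nat_lit 311315) (nat_lit 3) (.e (nat_lit 204868) (nat_lit 29) (.e (nat_lit 360466) (nat_lit 3) (.e (nat_lit 516096) (nat_lit 0) .nil)))) (.g (nat_lit 0) (.e (nat_lit 288074) (nat_lit 0) .nil) .nil))) 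
(.lf (nat_lit 548703) (.g (nat_lit 2616) (.e (nat_lit 286765) (nat_lit 15) (.e (nat_lit 3304) (nat_lit 202) (.e (nat_lit 573485) (nat_lit 13) (.e (nat_lit 65604) (nat_lit 9) (.e (nat_lit 336028) (nat_lit 3) (.e (nat_lit 98325) (nat_lit 17) (.e (nat_lit 6986) (nat_lit 377) (.e (nat_lit 2779) (nat_lit 178) .nil)))))))) (.g (nat_lit 1) (.e (nat_lit 289878) (nat_lit 0) .nil) .nil))))) 
(.nd (nat_lit 8) (.nd (nat_lit 9) 
(.lf (nat_lit 548063) (.g (nat_lit 2232) (.e (nat_lit 311312) (nat_lit 2) (.e (nat_lit 196666) (nat_lit 13) (.e (nat_lit 65610) (nat_lit 10) (.e (nat_lit 344117) (nat_lit 21) (.e (nat_lit 516102) (nat_lit 0) (.e (nat_lit 6983) (nat_lit 377) (.e (nat_lit 2818) (nat_lit 181) .nil))))))) (.g (nat_lit 1) (.e (nat_lit 287759) (nat_lit 0) .nil) .nil))) 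
(.lf (nat_lit 548575) (.g (nat_lit 677) (.e (nat_lit 286752) (nat_lit 10) (.e (nat_lit 344169) (nat_lit 40) (.e (nat_lit 679680) (nat_lit 15) .nil))) (.g (nat_lit 0) (.e (nat_lit 289655) (nat_lit 0) .nil) .nil)))) (.nd (nat_lit 9) 
(.lf (nat_lit 548319) (.g (nat_lit 1456) (.e (nat_lit 311358) (nat_lit 29) (.e (nat_lit 352316) (nat_lit 24) (.e (nat_lit 123195) (nat_lit 266) (.e (nat_lit 57403) (nat_lit 11) .nil)))) (.g (nat_lit 0) (.e (nat_lit 289155) (nat_lit 0) .nil) .nil))) 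
(.lf (nat_lit 548831) (.g (nat_lit 1105) (.e (nat_lit 294927) (nat_lit 2) (.e (nat_lit 90176) (nat_lit 15) (.e (nat_lit 188450) (nat_lit 23) (.e (nat_lit 204821) (nat_lit 17) .nil)))) (.g (nat_lit 0) (.e (nat_lit 290474) (nat_lit 0) .nil) .nil))))))) (.nd (nat_lit 6) (.nd (nat_lit 7) (.nd (nat_lit 8) (.nd (nat_lit 9) 
(.lf (nat_lit 547903) (.g (nat_lit 2117) (.e (nat_lit 303147) (nat_lit 15) (.e (nat_lit 1859) (nat_lit 124) (.e (nat_lit 557109) (nat_lit 15) (.e (nat_lit 188452) (nat_lit 23) (.e (nat_lit 204821) (nat_lit 17) .nil))))) (.g (nat_lit 0) (.e (nat_lit 287452) (nat_lit 0) .nil) .nil))) 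
(.lf (nat_lit 548415) (.g (nat_lit 2661) (.e (nat_lit 286733) (nat_lit 2) (.e (nat_lit 90170) (nat_lit 13) (.e (nat_lit 172124) (nat_lit 14) (.e (nat_lit 491537) (nat_lit 2) (.e (nat_lit 90133) (nat_lit 9) .nil))))) (.g (nat_lit 0) (.e (nat_lit 289447) (nat_lit 0) .nil) .nil)))) (.nd (nat_lit 9) 
(.lf (nat_lit 548159) (.g (nat_lit 1363) (.e (nat_lit 311315) (nat_lit 3) (.e (nat_lit 204846) (nat_lit 24) (.e (nat_lit 319505) (nat_lit 10) (.e (nat_lit 5714) (nat_lit 312) .nil)))) (.g (nat_lit 0) (.e (nat_lit 288012) (nat_lit 0) .nil) .nil))) 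
(.lf (nat_lit 548671) (.g (nat_lit 2413) (.e (nat_lit 286765) (nat_lit 15) (.e (nat_lit 3295) (nat_lit 202) (.e (nat_lit 573485) (nat_lit 13) (.e (nat_lit 65604) (nat_lit 9) (.e (nat_lit 336028) (nat_lit 3) (.e (nat_lit 98325) (nat_lit 17) (.e (nat_lit 6986) (nat_lit 377) (.e (nat_lit 2779) (nat_lit 178) .nil)))))))) (.g (nat_lit 1) (.e (nat_lit 289831) (nat_lit 0) .nil) .nil))))) 
(.nd (nat_lit 8) (.nd (nat_lit 9) 
(.lf (nat_lit 548031) (.g (nat_lit 3003) (.e (nat_lit 311311) (nat_lit 2) (.e (nat_lit 196666) (nat_lit 13) (.e (nat_lit 65610) (nat_lit 10) (.e (nat_lit 344117) (nat_lit 21) (.e (nat_lit 516106) (nat_lit 0) (.e (nat_lit 7936) (nat_lit 377) (.e (nat_lit 2816) (nat_lit 181) .nil))))))) (.g (nat_lit 1) (.e (nat_lit 287678) (nat_lit 0) .nil) .nil))) 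
(.lf (nat_lit 548543) (.g (nat_lit 382) (.e (nat_lit 286740) (nat_lit 7) (.e (nat_lit 319524) (nat_lit 14) (.e (nat_lit 270354) (nat_lit 8) (.e (nat_lit 303124) (nat_lit 7) (.e (nat_lit 409635) (nat_lit 14) (.e (nat_lit 270372) (nat_lit 16) .nil)))))) (.g (nat_lit 1) (.e (nat_lit 289600) (nat_lit 0) .nil) .nil)))) (.nd (nat_lit 9) 
(.lf (nat_lit 548287) (.g (nat_lit 426) (.e (nat_lit 311352) (nat_lit 27) (.e (nat_lit 336229) (nat_lit 14) (.e (nat_lit 401459) (nat_lit 13) .nil))) (.g (nat_lit 0) (.e (nat_lit 289096) (nat_lit 0) .nil) .nil))) 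
(.lf (nat_lit 548799) (.g (nat_lit 1872) (.e (nat_lit 286770) (nat_lit 28) (.e (nat_lit 434181) (nat_lit 0) (.e (nat_lit 1427) (nat_lit 108) (.e (nat_lit 336421) (nat_lit 28) (.e (nat_lit 434187) (nat_lit 13) (.e (nat_lit 2782) (nat_lit 178) .nil)))))) (.g (nat_lit 1) (.e (nat_lit 290219) (nat_lit 0) .nil) .nil)))))) (.nd (nat_lit 7) (.nd (nat_lit 8) (.nd (nat_lit 9) 
(.lf (nat_lit 547967) (.g (nat_lit 2375) (.e (nat_lit 303154) (nat_lit 28) (.e (nat_lit 344069) (nat_lit 0) (.e (nat_lit 3090) (nat_lit 191) (.e (nat_lit 483350) (nat_lit 17) (.e (nat_lit 6093) (nat_lit 332) .nil))))) (.g (nat_lit 0) (.e (nat_lit 287547) (nat_lit 0) .nil) .nil))) 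
(.lf (nat_lit 548479) (.g (nat_lit 3790) (.e (nat_lit 286735) (nat_lit 3) (.e (nat_lit 98349) (nat_lit 24) (.e (nat_lit 409646) (nat_lit 18) (.e (nat_lit 303119) (nat_lit 3) (.e (nat_lit 204819) (nat_lit 17) (.e (nat_lit 6113) (nat_lit 332) (.e (nat_lit 2777) (nat_lit 178) .nil))))))) (.g (nat_lit 1) (.e (nat_lit 289527) (nat_lit 0) .nil) .nil)))) (.nd (nat_lit 9) 
(.lf (nat_lit 548223) (.g (nat_lit 1638) (.e (nat_lit 311325) (nat_lit 9) (.e (nat_lit 426482) (nat_lit 27) (.e (nat_lit 336060) (nat_lit 7) (.e (nat_lit 319534) (nat_lit 16) (.e (nat_lit 286728) (nat_lit 0) .nil))))) (.g (nat_lit 0) (.e (nat_lit 288325) (nat_lit 0) .nil) .nil))) 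
(.lf (nat_lit 548735) (.g (nat_lit 2966) (.e (nat_lit 286765) (nat_lit 15) (.e (nat_lit 3308) (nat_lit 202) (.e (nat_lit 573493) (nat_lit 15) (.e (nat_lit 81951) (nat_lit 22) (.e (nat_lit 90165) (nat_lit 12) (.e (nat_lit 164208) (nat_lit 176) (.e (nat_lit 2781) (nat_lit 178) .nil))))))) (.g (nat_lit 1) (.e (nat_lit 289926) (nat_lit 0) .nil) .nil))))) (.nd (nat_lit 8) (.nd (nat_lit 9) 
(.lf (nat_lit 548095) (.g (nat_lit 3360) (.e (nat_lit 311312) (nat_lit 2) (.e (nat_lit 196672) (nat_lit 15) (.e (nat_lit 81954) (nat_lit 23) (.e (nat_lit 98323) (nat_lit 17) (.e (nat_lit 6989) (nat_lit 377) (.e (nat_lit 7936) (nat_lit 181) .nil)))))) (.g (nat_lit 1) (.e (nat_lit 287815) (nat_lit 0) .nil) .nil))) 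
(.lf (nat_lit 548607) (.g (nat_lit 623) (.e (nat_lit 286755) (nat_lit 10) (.e (nat_lit 344157) (nat_lit 36) (.e (nat_lit 638999) (nat_lit 8) (.e (nat_lit 172080) (nat_lit 7) (.e (nat_lit 409639) (nat_lit 15) .nil))))) (.g (nat_lit 0) (.e (nat_lit 289726) (nat_lit 0) .nil) .nil)))) (.nd (nat_lit 9) 
(.lf (nat_lit 548351) (.g (nat_lit 4099) (.e (nat_lit 286728) (nat_lit 0) (.e (nat_lit 1788) (nat_lit 119) (.e (nat_lit 516151) (nat_lit 9) (.e (nat_lit 426211) (nat_lit 9) (.e (nat_lit 426132) (nat_lit 3) .nil))))) (.g (nat_lit 0) (.e (nat_lit 289206) (nat_lit 0) .nil) .nil))) 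
(.lf (nat_lit 548863) (.g (nat_lit 3872) (.e (nat_lit 294938) (nat_lit 9) (.e (nat_lit 336324) (nat_lit 18) (.e (nat_lit 204831) (nat_lit 18) (.e (nat_lit 57830) (nat_lit 250) .nil)))) (.g (nat_lit 0) (.e (nat_lit 290512) (nat_lit 0) .nil) .nil)))))))))))))

noncomputable def tv5596 : DT := (.nd (nat_lit 0) (.nd (nat_lit 1) (.nd (nat_lit 2) (.nd (nat_lit 3) (.nd (nat_lit 4) (.nd (nat_lit 5) (.nd (nat_lit 6) (.nd (nat_lit 7) (.nd (nat_lit 8) (.nd (nat_lit 9) 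
(.lf (nat_lit 548864) (.g (nat_lit 4115) (.e (nat_lit 294938) (nat_lit 9) (.e (nat_lit 336324) (nat_lit 18) (.e (nat_lit 204831) (nat_lit 18) (.e (nat_lit 57852) (nat_lit 252) .nil)))) (.g (nat_lit 0) (.e (nat_lit 290513) (nat_lit 0) .nil) .nil))) 
(.lf (nat_lit 549376) (.g (nat_lit 1700) (.e (nat_lit 409645) (nat_lit 18) (.e (nat_lit 303117) (nat_lit 2) (.e (nat_lit 196666) (nat_lit 13) (.e (nat_lit 65609) (nat_lit 10) (.e (nat_lit 344117) (nat_lit 21) .nil))))) (.g (nat_lit 0) (.e (nat_lit 292090) (nat_lit 0) .nil) .nil)))) (.nd (nat_lit 9) 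
(.lf (nat_lit 549120) (.g (nat_lit 4271) (.e (nat_lit 409617) (nat_lit 10) (.e (nat_lit 632) (nat_lit 50) (.e (nat_lit 573489) (nat_lit 14) (.e (nat_lit 73755) (nat_lit 8) (.e (nat_lit 557103) (nat_lit 14) (.e (nat_lit 180244) (nat_lit 5) (.e (nat_lit 540416) (nat_lit 24) .nil))))))) (.g (nat_lit 1) (.e (nat_lit 291465) (nat_lit 0) .nil) .nil))) 
(.lf (nat_lit 549632) (.g (nat_lit 3127) (.e (nat_lit 409648) (nat_lit 18) (.e (nat_lit 303117) (nat_lit 2) (.e (nat_lit 196666) (nat_lit 13) (.e (nat_lit 65620) (nat_lit 10) .nil)))) (.g (nat_lit 0) (.e (nat_lit 293661) (nat_lit 0) .nil) .nil))))) (.nd (nat_lit 8) (.nd (nat_lit 9) 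
(.lf (nat_lit 548992) (.g (nat_lit 5427) (.e (nat_lit 409603) (nat_lit 0) (.e (nat_lit 5270) (nat_lit 298) (.e (nat_lit 1239) (nat_lit 91) (.e (nat_lit 90170) (nat_lit 13) (.e (nat_lit 172113) (nat_lit 10) (.e (nat_lit 434245) (nat_lit 28) (.e (nat_lit 573451) (nat_lit 9) (.e (nat_lit 359) (nat_lit 30) .nil)))))))) (.g (nat_lit 1) (.e (nat_lit 291119) (nat_lit 0) .nil) .nil))) 
(.lf (nat_lit 549504) (.g (nat_lit 2557) (.e (nat_lit 409646) (nat_lit 18) (.e (nat_lit 303133) (nat_lit 9) (.e (nat_lit 426160) (nat_lit 6) (.e (nat_lit 253990) (nat_lit 11) (.e (nat_lit 16473) (nat_lit 14) (.e (nat_lit 499456) (nat_lit 25) .nil)))))) (.g (nat_lit 1) (.e (nat_lit 293017) (nat_lit 0) .nil) .nil)))) (.nd (nat_lit 9) 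
(.lf (nat_lit 549248) (.g (nat_lit 1401) (.e (nat_lit 409643) (nat_lit 18) (.e (nat_lit 303117) (nat_lit 2) (.e (nat_lit 196681) (nat_lit 17) (.e (nat_lit 131109) (nat_lit 9) .nil)))) (.g (nat_lit 0) (.e (nat_lit 291782) (nat_lit 0) .nil) .nil))) 
(.lf (nat_lit 549760) (.g (nat_lit 1788) (.e (nat_lit 409649) (nat_lit 18) (.e (nat_lit 303117) (nat_lit 2) (.e (nat_lit 196674) (nat_lit 15) (.e (nat_lit 81960) (nat_lit 25) .nil)))) (.g (nat_lit 0) (.e (nat_lit 294075) (nat_lit 0) .nil) .nil)))))) (.nd (nat_lit 7) (.nd (nat_lit 8) (.nd (nat_lit 9) 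
(.lf (nat_lit 548928) (.g (nat_lit 1952) (.e (nat_lit 294973) (nat_lit 28) (.e (nat_lit 434180) (nat_lit 0) (.e (nat_lit 1427) (nat_lit 108) (.e (nat_lit 336421) (nat_lit 28) (.e (nat_lit 434192) (nat_lit 13) .nil))))) (.g (nat_lit 0) (.e (nat_lit 290777) (nat_lit 0) .nil) .nil))) 
(.lf (nat_lit 549440) (.g (nat_lit 2494) (.e (nat_lit 409645) (nat_lit 18) (.e (nat_lit 303143) (nat_lit 12) (.e (nat_lit 475199) (nat_lit 40) (.e (nat_lit 704617) (nat_lit 9) .nil)))) (.g (nat_lit 0) (.e (nat_lit 292518) (nat_lit 0) .nil) .nil)))) (.nd (nat_lit 9) 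
(.lf (nat_lit 549184) (.g (nat_lit 1302) (.e (nat_lit 409631) (nat_lit 12) (.e (nat_lit 32807) (nat_lit 18) (.e (nat_lit 172124) (nat_lit 14) (.e (nat_lit 491540) (nat_lit 3) (.e (nat_lit 98354) (nat_lit 26) .nil))))) (.g (nat_lit 0) (.e (nat_lit 291680) (nat_lit 0) .nil) .nil))) 
(.lf (nat_lit 549696) (.g (nat_lit 3021) (.e (nat_lit 409648) (nat_lit 18) (.e (nat_lit 303143) (nat_lit 12) (.e (nat_lit 475199) (nat_lit 40) (.e (nat_lit 704772) (nat_lit 14) (.e (nat_lit 7936) (nat_lit 162) .nil))))) (.g (nat_lit 0) (.e (nat_lit 293901) (nat_lit 0) .nil) .nil))))) (.nd (nat_lit 8) (.nd (nat_lit 9) 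
(.lf (nat_lit 549056) (.g (nat_lit 2568) (.e (nat_lit 409612) (nat_lit 10) (.e (nat_lit 632) (nat_lit 50) (.e (nat_lit 573489) (nat_lit 14) (.e (nat_lit 73755) (nat_lit 8) (.e (nat_lit 557105) (nat_lit 14) (.e (nat_lit 180252) (nat_lit 10) (.e (nat_lit 581376) (nat_lit 0) (.e (nat_lit 2826) (nat_lit 182) .nil)))))))) (.g (nat_lit 1) (.e (nat_lit 291283) (nat_lit 0) .nil) .nil))) 
(.lf (nat_lit 549568) (.g (nat_lit 1000) (.e (nat_lit 409647) (nat_lit 18) (.e (nat_lit 303117) (nat_lit 2) (.e (nat_lit 196673) (nat_lit 15) (.e (nat_lit 81962) (nat_lit 25) .nil)))) (.g (nat_lit 0) (.e (nat_lit 293489) (nat_lit 0) .nil) .nil)))) (.nd (nat_lit 9) 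
(.lf (nat_lit 549312) (.g (nat_lit 2108) (.e (nat_lit 409644) (nat_lit 18) (.e (nat_lit 303117) (nat_lit 2) (.e (nat_lit 196666) (nat_lit 13) (.e (nat_lit 65609) (nat_lit 10) .nil)))) (.g (nat_lit 0) (.e (nat_lit 291948) (nat_lit 0) .nil) .nil))) 
(.lf (nat_lit 549824) (.g (nat_lit 2464) (.e (nat_lit 409649) (nat_lit 18) (.e (nat_lit 303143) (nat_lit 12) (.e (nat_lit 475199) (nat_lit 40) (.e (nat_lit 704795) (nat_lit 14) .nil)))) (.g (nat_lit 0) (.e (nat_lit 294374) (nat_lit 0) .nil) .nil))))))) (.nd (nat_lit 6) (.nd (nat_lit 7) (.nd (nat_lit 8) (.nd (nat_lit 9) 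
(.lf (nat_lit 548896) (.g (nat_lit 2698) (.e (nat_lit 294959) (nat_lit 13) (.e (nat_lit 393260) (nat_lit 21) (.e (nat_lit 409649) (nat_lit 18) (.e (nat_lit 303111) (nat_lit 0) (.e (nat_lit 3469) (nat_lit 217) (.e (nat_lit 704256) (nat_lit 0) (.e (nat_lit 2788) (nat_lit 179) .nil))))))) (.g (nat_lit 1) (.e (nat_lit 290589) (nat_lit 0) .nil) .nil))) 
(.lf (nat_lit 549408) (.g (nat_lit 2122) (.e (nat_lit 409645) (nat_lit 18) (.e (nat_lit 303119) (nat_lit 3) (.e (nat_lit 204860) (nat_lit 26) (.e (nat_lit 336186) (nat_lit 11) (.e (nat_lit 368676) (nat_lit 21) (.e (nat_lit 524032) (nat_lit 7) .nil)))))) (.g (nat_lit 1) (.e (nat_lit 292175) (nat_lit 0) .nil) .nil)))) (.nd (nat_lit 9) 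
(.lf (nat_lit 549152) (.g (nat_lit 2731) (.e (nat_lit 409623) (nat_lit 10) (.e (nat_lit 577) (nat_lit 43) (.e (nat_lit 516166) (nat_lit 12) (.e (nat_lit 450588) (nat_lit 10) (.e (nat_lit 573469) (nat_lit 11) .nil))))) (.g (nat_lit 0) (.e (nat_lit 291574) (nat_lit 0) .nil) .nil))) 
(.lf (nat_lit 549664) (.g (nat_lit 2179) (.e (nat_lit 409648) (nat_lit 18) (.e (nat_lit 303119) (nat_lit 3) (.e (nat_lit 204861) (nat_lit 26) (.e (nat_lit 336186) (nat_lit 11) .nil)))) (.g (nat_lit 0) (.e (nat_lit 293709) (nat_lit 0) .nil) .nil))))) (.nd (nat_lit 8) (.nd (nat_lit 9) 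
(.lf (nat_lit 549024) (.g (nat_lit 2674) (.e (nat_lit 417536) (nat_lit 8) (.e (nat_lit 303119) (nat_lit 3) (.e (nat_lit 204846) (nat_lit 24) (.e (nat_lit 319504) (nat_lit 10) (.e (nat_lit 5396) (nat_lit 301) .nil))))) (.g (nat_lit 0) (.e (nat_lit 291179) (nat_lit 0) .nil) .nil))) 
(.lf (nat_lit 549536) (.g (nat_lit 2521) (.e (nat_lit 409646) (nat_lit 18) (.e (nat_lit 303143) (nat_lit 12) (.e (nat_lit 475199) (nat_lit 40) (.e (nat_lit 704791) (nat_lit 14) (.e (nat_lit 2587) (nat_lit 162) .nil))))) (.g (nat_lit 0) (.e (nat_lit 293275) (nat_lit 0) .nil) .nil)))) (.nd (nat_lit 9) 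
(.lf (nat_lit 549280) (.g (nat_lit 2565) (.e (nat_lit 409643) (nat_lit 18) (.e (nat_lit 303119) (nat_lit 3) (.e (nat_lit 204877) (nat_lit 31) (.e (nat_lit 376865) (nat_lit 22) (.e (nat_lit 90130) (nat_lit 9) .nil))))) (.g (nat_lit 0) (.e (nat_lit 291824) (nat_lit 0) .nil) .nil))) 
(.lf (nat_lit 549792) (.g (nat_lit 382) (.e (nat_lit 409649) (nat_lit 18) (.e (nat_lit 303140) (nat_lit 10) (.e (nat_lit 434269) (nat_lit 36) .nil))) (.g (nat_lit 0) (.e (nat_lit 294233) (nat_lit 0) .nil) .nil)))))) (.nd (nat_lit 7) (.nd (nat_lit 8) (.nd (nat_lit 9) 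
(.lf (nat_lit 548960) (.g (nat_lit 1784) (.e (nat_lit 409602) (nat_lit 0) (.e (nat_lit 5270) (nat_lit 298) (.e (nat_lit 1239) (nat_lit 91) (.e (nat_lit 90166) (nat_lit 13) .nil)))) (.g (nat_lit 0) (.e (nat_lit 291081) (nat_lit 0) .nil) .nil))) 
(.lf (nat_lit 549472) (.g (nat_lit 1536) (.e (nat_lit 409646) (nat_lit 18) (.e (nat_lit 303117) (nat_lit 2) (.e (nat_lit 196666) (nat_lit 13) (.e (nat_lit 65596) (nat_lit 9) (.e (nat_lit 335923) (nat_lit 0) .nil))))) (.g (nat_lit 0) (.e (nat_lit 292809) (nat_lit 0) .nil) .nil)))) (.nd (nat_lit 9) 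
(.lf (nat_lit 549216) (.g (nat_lit 462) (.e (nat_lit 409639) (nat_lit 15) (.e (nat_lit 278566) (nat_lit 16) (.e (nat_lit 286755) (nat_lit 10) (.e (nat_lit 344157) (nat_lit 36) (.e (nat_lit 638999) (nat_lit 8) (.e (nat_lit 172081) (nat_lit 7) .nil)))))) (.g (nat_lit 1) (.e (nat_lit 291750) (nat_lit 0) .nil) .nil))) 
(.lf (nat_lit 549728) (.g (nat_lit 2106) (.e (nat_lit 409649) (nat_lit 18) (.e (nat_lit 303116) (nat_lit 2) (.e (nat_lit 196666) (nat_lit 13) (.e (nat_lit 65592) (nat_lit 9) .nil)))) (.g (nat_lit 0) (.e (nat_lit 294036) (nat_lit 0) .nil) .nil))))) (.nd (nat_lit 8) (.nd (nat_lit 9) 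
(.lf (nat_lit 549088) (.g (nat_lit 3154) (.e (nat_lit 409616) (nat_lit 10) (.e (nat_lit 632) (nat_lit 50) (.e (nat_lit 573489) (nat_lit 14) (.e (nat_lit 73755) (nat_lit 8) (.e (nat_lit 557105) (nat_lit 14) (.e (nat_lit 180252) (nat_lit 10) (.e (nat_lit 573442) (nat_lit 0) (.e (nat_lit 2826) (nat_lit 182) .nil)))))))) (.g (nat_lit 1) (.e (nat_lit 291379) (nat_lit 0) .nil) .nil))) 
(.lf (nat_lit 549600) (.g (nat_lit 1922) (.e (nat_lit 409647) (nat_lit 18) (.e (nat_lit 303143) (nat_lit 12) (.e (nat_lit 475199) (nat_lit 40) (.e (nat_lit 704790) (nat_lit 14) (.e (nat_lit 2587) (nat_lit 162) .nil))))) (.g (nat_lit 0) (.e (nat_lit 293546) (nat_lit 0) .nil) .nil)))) (.nd (nat_lit 9) 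
(.lf (nat_lit 549344) (.g (nat_lit 1762) (.e (nat_lit 409644) (nat_lit 18) (.e (nat_lit 303119) (nat_lit 3) (.e (nat_lit 204866) (nat_lit 28) (.e (nat_lit 360192) (nat_lit 20) .nil)))) (.g (nat_lit 0) (.e (nat_lit 291984) (nat_lit 0) .nil) .nil))) 
(.lf (nat_lit 549856) (.g (nat_lit 2909) (.e (nat_lit 417536) (nat_lit 18) (.e (nat_lit 303117) (nat_lit 2) (.e (nat_lit 196666) (nat_lit 13) (.e (nat_lit 65619) (nat_lit 10) .nil)))) (.g (nat_lit 0) (.e (nat_lit 294519) (nat_lit 0) .nil) .nil)))))))) (.nd (nat_lit 5) (.nd (nat_lit 6) (.nd (nat_lit 7) (.nd (nat_lit 8) (.nd (nat_lit 9) 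
(.lf (nat_lit 548880) (.g (nat_lit 1076) (.e (nat_lit 294953) (nat_lit 12) (.e (nat_lit 385109) (nat_lit 51) (.e (nat_lit 794675) (nat_lit 24) .nil))) (.g (nat_lit 0) (.e (nat_lit 290558) (nat_lit 0) .nil) .nil))) 
(.lf (nat_lit 549392) (.g (nat_lit 3605) (.e (nat_lit 409645) (nat_lit 18) (.e (nat_lit 303117) (nat_lit 2) (.e (nat_lit 196674) (nat_lit 15) (.e (nat_lit 81955) (nat_lit 23) (.e (nat_lit 98350) (nat_lit 24) .nil))))) (.g (nat_lit 1) (.e (nat_lit 292126) (nat_lit 0) .nil) .nil)))) (.nd (nat_lit 9) 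
(.lf (nat_lit 549136) (.g (nat_lit 1375) (.e (nat_lit 409617) (nat_lit 10) (.e (nat_lit 632) (nat_lit 50) (.e (nat_lit 573491) (nat_lit 15) (.e (nat_lit 81946) (nat_lit 20) .nil)))) (.g (nat_lit 0) (.e (nat_lit 291484) (nat_lit 0) .nil) .nil))) 
(.lf (nat_lit 549648) (.g (nat_lit 1804) (.e (nat_lit 409648) (nat_lit 18) (.e (nat_lit 303119) (nat_lit 3) (.e (nat_lit 204821) (nat_lit 17) (.e (nat_lit 6238) (nat_lit 336) .nil)))) (.g (nat_lit 0) (.e (nat_lit 293689) (nat_lit 0) .nil) .nil))))) (.nd (nat_lit 8) (.nd (nat_lit 9) 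
(.lf (nat_lit 549008) (.g (nat_lit 429) (.e (nat_lit 409603) (nat_lit 0) (.e (nat_lit 5293) (nat_lit 298) (.e (nat_lit 1649) (nat_lit 115) .nil))) (.g (nat_lit 0) (.e (nat_lit 291143) (nat_lit 0) .nil) .nil))) 
(.lf (nat_lit 549520) (.g (nat_lit 1291) (.e (nat_lit 409646) (nat_lit 18) (.e (nat_lit 303143) (nat_lit 12) (.e (nat_lit 475198) (nat_lit 40) (.e (nat_lit 704852) (nat_lit 17) .nil)))) (.g (nat_lit 0) (.e (nat_lit 293170) (nat_lit 0) .nil) .nil)))) (.nd (nat_lit 9) 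
(.lf (nat_lit 549264) (.g (nat_lit 1726) (.e (nat_lit 409643) (nat_lit 18) (.e (nat_lit 303119) (nat_lit 3) (.e (nat_lit 204855) (nat_lit 26) (.e (nat_lit 336097) (nat_lit 9) .nil)))) (.g (nat_lit 0) (.e (nat_lit 291799) (nat_lit 0) .nil) .nil))) 
(.lf (nat_lit 549776) (.g (nat_lit 2385) (.e (nat_lit 409649) (nat_lit 18) (.e (nat_lit 303119) (nat_lit 3) (.e (nat_lit 204855) (nat_lit 26) (.e (nat_lit 336082) (nat_lit 9) (.e (nat_lit 336019) (nat_lit 3) .nil))))) (.g (nat_lit 0) (.e (nat_lit 294106) (nat_lit 0) .nil) .nil)))))) (.nd (nat_lit 7) (.nd (nat_lit 8) (.nd (nat_lit 9) 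
(.lf (nat_lit 548944) (.g (nat_lit 1866) (.e (nat_lit 294974) (nat_lit 29) (.e (nat_lit 442377) (nat_lit 0) (.e (nat_lit 2059) (nat_lit 142) (.e (nat_lit 704595) (nat_lit 5) (.e (nat_lit 180288) (nat_lit 45) (.e (nat_lit 2789) (nat_lit 179) .nil)))))) (.g (nat_lit 1) (.e (nat_lit 290804) (nat_lit 0) .nil) .nil))) 
(.lf (nat_lit 549456) (.g (nat_lit 6071) (.e (nat_lit 409646) (nat_lit 18) (.e (nat_lit 303112) (nat_lit 0) (.e (nat_lit 3252) (nat_lit 197) (.e (nat_lit 532535) (nat_lit 9) (.e (nat_lit 336099) (nat_lit 9) (.e (nat_lit 336013) (nat_lit 2) (.e (nat_lit 90121) (nat_lit 9) (.e (nat_lit 2828) (nat_lit 182) .nil)))))))) (.g (nat_lit 1) (.e (nat_lit 292766) (nat_lit 0) .nil) .nil)))) (.nd (nat_lit 9) 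
(.lf (nat_lit 549200) (.g (nat_lit 1110) (.e (nat_lit 409638) (nat_lit 15) (.e (nat_lit 278566) (nat_lit 16) (.e (nat_lit 286754) (nat_lit 10) (.e (nat_lit 344157) (nat_lit 36) (.e (nat_lit 638999) (nat_lit 8) (.e (nat_lit 172081) (nat_lit 7) .nil)))))) (.g (nat_lit 1) (.e (nat_lit 291722) (nat_lit 0) .nil) .nil))) 
(.lf (nat_lit 549712) (.g (nat_lit 1988) (.e (nat_lit 409649) (nat_lit 18) (.e (nat_lit 303111) (nat_lit 0) (.e (nat_lit 3238) (nat_lit 197) (.e (nat_lit 532550) (nat_lit 12) (.e (nat_lit 368384) (nat_lit 3) .nil))))) (.g (nat_lit 0) (.e (nat_lit 294006) (nat_lit 0) .nil) .nil))))) (.nd (nat_lit 8) (.nd (nat_lit 9) 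
(.lf (nat_lit 549072) (.g (nat_lit 1935) (.e (nat_lit 409616) (nat_lit 10) (.e (nat_lit 595) (nat_lit 45) (.e (nat_lit 532499) (nat_lit 1) (.e (nat_lit 57926) (nat_lit 282) (.e (nat_lit 163886) (nat_lit 5) .nil))))) (.g (nat_lit 0) (.e (nat_lit 291355) (nat_lit 0) .nil) .nil))) 
(.lf (nat_lit 549584) (.g (nat_lit 556) (.e (nat_lit 409647) (nat_lit 18) (.e (nat_lit 303119) (nat_lit 3) (.e (nat_lit 204855) (nat_lit 26) .nil))) (.g (nat_lit 0) (.e (nat_lit 293517) (nat_lit 0) .nil) .nil)))) (.nd (nat_lit 9) 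
(.lf (nat_lit 549328) (.g (nat_lit 1382) (.e (nat_lit 409644) (nat_lit 18) (.e (nat_lit 303118) (nat_lit 3) (.e (nat_lit 204855) (nat_lit 26) (.e (nat_lit 336173) (nat_lit 10) .nil)))) (.g (nat_lit 0) (.e (nat_lit 291964) (nat_lit 0) .nil) .nil))) 
(.lf (nat_lit 549840) (.g (nat_lit 2565) (.e (nat_lit 409649) (nat_lit 18) (.e (nat_lit 303146) (nat_lit 14) (.e (nat_lit 491566) (nat_lit 12) (.e (nat_lit 385048) (nat_lit 21) .nil)))) (.g (nat_lit 0) (.e (nat_lit 294498) (nat_lit 0) .nil) .nil))))))) (.nd (nat_lit 6) (.nd (nat_lit 7) (.nd (nat_lit 8) (.nd (nat_lit 9) 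
(.lf (nat_lit 548912) (.g (nat_lit 1593) (.e (nat_lit 294969) (nat_lit 27) (.e (nat_lit 426340) (nat_lit 14) (.e (nat_lit 491549) (nat_lit 9) (.e (nat_lit 336421) (nat_lit 28) (.e (nat_lit 434193) (nat_lit 13) (.e (nat_lit 2789) (nat_lit 179) .nil)))))) (.g (nat_lit 1) (.e (nat_lit 290732) (nat_lit 0) .nil) .nil))) 
(.lf (nat_lit 549424) (.g (nat_lit 2182) (.e (nat_lit 409645) (nat_lit 18) (.e (nat_lit 303133) (nat_lit 9) (.e (nat_lit 426412) (nat_lit 15) (.e (nat_lit 2059) (nat_lit 142) (.e (nat_lit 704836) (nat_lit 14) .nil))))) (.g (nat_lit 0) (.e (nat_lit 292385) (nat_lit 0) .nil) .nil)))) (.nd (nat_lit 9) 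
(.lf (nat_lit 549168) (.g (nat_lit 985) (.e (nat_lit 409623) (nat_lit 10) (.e (nat_lit 5270) (nat_lit 298) (.e (nat_lit 428) (nat_lit 32) .nil))) (.g (nat_lit 0) (.e (nat_lit 291625) (nat_lit 0) .nil) .nil))) 
(.lf (nat_lit 549680) (.g (nat_lit 2764) (.e (nat_lit 409648) (nat_lit 18) (.e (nat_lit 303137) (nat_lit 10) (.e (nat_lit 434275) (nat_lit 39) (.e (nat_lit 663574) (nat_lit 9) (.e (nat_lit 2472) (nat_lit 157) (.e (nat_lit 3469) (nat_lit 217) (.e (nat_lit 696344) (nat_lit 8) (.e (nat_lit 172081) (nat_lit 7) .nil)))))))) (.g (nat_lit 1) (.e (nat_lit 293784) (nat_lit 0) .nil) .nil))))) 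
(.nd (nat_lit 8) (.nd (nat_lit 9) 
(.lf (nat_lit 549040) (.g (nat_lit 2071) (.e (nat_lit 409611) (nat_lit 10) (.e (nat_lit 632) (nat_lit 50) (.e (nat_lit 573489) (nat_lit 14) (.e (nat_lit 73755) (nat_lit 8) (.e (nat_lit 557096) (nat_lit 13) .nil))))) (.g (nat_lit 0) (.e (nat_lit 291212) (nat_lit 0) .nil) .nil))) 
(.lf (nat_lit 549552) (.g (nat_lit 2042) (.e (nat_lit 409647) (nat_lit 18) (.e (nat_lit 303116) (nat_lit 2) (.e (nat_lit 196681) (nat_lit 17) (.e (nat_lit 131104) (nat_lit 9) .nil)))) (.g (nat_lit 0) (.e (nat_lit 293473) (nat_lit 0) .nil) .nil)))) (.nd (nat_lit 9) 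
(.lf (nat_lit 549296) (.g (nat_lit 2429) (.e (nat_lit 409643) (nat_lit 18) (.e (nat_lit 303143) (nat_lit 12) (.e (nat_lit 475199) (nat_lit 40) (.e (nat_lit 704832) (nat_lit 14) .nil)))) (.g (nat_lit 0) (.e (nat_lit 291842) (nat_lit 0) .nil) .nil))) 
(.lf (nat_lit 549808) (.g (nat_lit 2734) (.e (nat_lit 409649) (nat_lit 18) (.e (nat_lit 303140) (nat_lit 10) (.e (nat_lit 434275) (nat_lit 39) (.e (nat_lit 663580) (nat_lit 9) (.e (nat_lit 2416) (nat_lit 157) (.e (nat_lit 3468) (nat_lit 217) (.e (nat_lit 696343) (nat_lit 8) (.e (nat_lit 172082) (nat_lit 7) .nil)))))))) (.g (nat_lit 1) (.e (nat_lit 294280) (nat_lit 0) .nil) .nil)))))) 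
(.nd (nat_lit 7) (.nd (nat_lit 8) (.nd (nat_lit 9) 
(.lf (nat_lit 548976) (.g (nat_lit 2013) (.e (nat_lit 409602) (nat_lit 0) (.e (nat_lit 5293) (nat_lit 298) (.e (nat_lit 1656) (nat_lit 115) (.e (nat_lit 393269) (nat_lit 23) (.e (nat_lit 426148) (nat_lit 4) .nil))))) (.g (nat_lit 0) (.e (nat_lit 291101) (nat_lit 0) .nil) .nil))) 
(.lf (nat_lit 549488) (.g (nat_lit 1029) (.e (nat_lit 409646) (nat_lit 18) (.e (nat_lit 303119) (nat_lit 3) (.e (nat_lit 204821) (nat_lit 17) (.e (nat_lit 6238) (nat_lit 336) .nil)))) (.g (nat_lit 0) (.e (nat_lit 292848) (nat_lit 0) .nil) .nil)))) (.nd (nat_lit 9) 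
(.lf (nat_lit 549232) (.g (nat_lit 2318) (.e (nat_lit 409643) (nat_lit 18) (.e (nat_lit 303117) (nat_lit 2) (.e (nat_lit 196666) (nat_lit 13) (.e (nat_lit 65599) (nat_lit 9) .nil)))) (.g (nat_lit 0) (.e (nat_lit 291766) (nat_lit 0) .nil) .nil))) 
(.lf (nat_lit 549744) (.g (nat_lit 1702) (.e (nat_lit 409649) (nat_lit 18) (.e (nat_lit 303117) (nat_lit 2) (.e (nat_lit 196666) (nat_lit 13) (.e (nat_lit 65609) (nat_lit 10) .nil)))) (.g (nat_lit 0) (.e (nat_lit 294056) (nat_lit 0) .nil) .nil))))) (.nd (nat_lit 8) (.nd (nat_lit 9) 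
(.lf (nat_lit 549104) (.g (nat_lit 3445) (.e (nat_lit 409617) (nat_lit 10) (.e (nat_lit 588) (nat_lit 44) (.e (nat_lit 524320) (nat_lit 12) (.e (nat_lit 450586) (nat_lit 10) (.e (nat_lit 573450) (nat_lit 9) (.e (nat_lit 375) (nat_lit 32) (.e (nat_lit 426173) (nat_lit 7) .nil))))))) (.g (nat_lit 1) (.e (nat_lit 291433) (nat_lit 0) .nil) .nil))) 
(.lf (nat_lit 549616) (.g (nat_lit 380) (.e (nat_lit 409648) (nat_lit 18) (.e (nat_lit 303117) (nat_lit 2) (.e (nat_lit 196666) (nat_lit 13) .nil))) (.g (nat_lit 0) (.e (nat_lit 293641) (nat_lit 0) .nil) .nil)))) (.nd (nat_lit 9) 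
(.lf (nat_lit 549360) (.g (nat_lit 2442) (.e (nat_lit 409644) (nat_lit 18) (.e (nat_lit 303143) (nat_lit 12) (.e (nat_lit 475199) (nat_lit 40) (.e (nat_lit 704790) (nat_lit 14) (.e (nat_lit 2590) (nat_lit 162) .nil))))) (.g (nat_lit 0) (.e (nat_lit 292010) (nat_lit 0) .nil) .nil))) 
(.lf (nat_lit 549872) (.g (nat_lit 2082) (.e (nat_lit 417536) (nat_lit 18) (.e (nat_lit 303118) (nat_lit 3) (.e (nat_lit 204855) (nat_lit 26) (.e (nat_lit 336173) (nat_lit 10) (.e (nat_lit 344119) (nat_lit 21) .nil))))) (.g (nat_lit 0) (.e (nat_lit 294537) (nat_lit 0) .nil) .nil))))))))) (.nd (nat_lit 4) (.nd (nat_lit 5) (.nd (nat_lit 6) (.nd (nat_lit 7) (.nd (nat_lit 8) (.nd (nat_lit 9) 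
(.lf (nat_lit 548872) (.g (nat_lit 4367) (.e (nat_lit 294940) (nat_lit 9) (.e (nat_lit 336454) (nat_lit 34) (.e (nat_lit 483365) (nat_lit 18) (.e (nat_lit 57872) (nat_lit 264) .nil)))) (.g (nat_lit 0) (.e (nat_lit 290526) (nat_lit 0) .nil) .nil))) 
(.lf (nat_lit 549384) (.g (nat_lit 785) (.e (nat_lit 409645) (nat_lit 18) (.e (nat_lit 303117) (nat_lit 2) (.e (nat_lit 196673) (nat_lit 15) (.e (nat_lit 89856) (nat_lit 20) .nil)))) (.g (nat_lit 0) (.e (nat_lit 292105) (nat_lit 0) .nil) .nil)))) (.nd (nat_lit 9) 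
(.lf (nat_lit 549128) (.g (nat_lit 4092) (.e (nat_lit 409617) (nat_lit 10) (.e (nat_lit 632) (nat_lit 50) (.e (nat_lit 573489) (nat_lit 14) (.e (nat_lit 73755) (nat_lit 8) (.e (nat_lit 557105) (nat_lit 14) (.e (nat_lit 180252) (nat_lit 10) (.e (nat_lit 581376) (nat_lit 0) (.e (nat_lit 2822) (nat_lit 182) .nil)))))))) (.g (nat_lit 1) (.e (nat_lit 291473) (nat_lit 0) .nil) .nil))) 
(.lf (nat_lit 549640) (.g (nat_lit 2037) (.e (nat_lit 409648) (nat_lit 18) (.e (nat_lit 303118) (nat_lit 3) (.e (nat_lit 204852) (nat_lit 26) (.e (nat_lit 336146) (nat_lit 9) (.e (nat_lit 336017) (nat_lit 3) .nil))))) (.g (nat_lit 0) (.e (nat_lit 293670) (nat_lit 0) .nil) .nil))))) (.nd (nat_lit 8) (.nd (nat_lit 9) 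
(.lf (nat_lit 549000) (.g (nat_lit 3960) (.e (nat_lit 409603) (nat_lit 0) (.e (nat_lit 5293) (nat_lit 298) (.e (nat_lit 1250) (nat_lit 92) (.e (nat_lit 98373) (nat_lit 29) (.e (nat_lit 450587) (nat_lit 10) (.e (nat_lit 573457) (nat_lit 9) (.e (nat_lit 359) (nat_lit 30) .nil))))))) (.g (nat_lit 1) (.e (nat_lit 291133) (nat_lit 0) .nil) .nil))) 
(.lf (nat_lit 549512) (.g (nat_lit 2892) (.e (nat_lit 409646) (nat_lit 18) (.e (nat_lit 303140) (nat_lit 10) (.e (nat_lit 434275) (nat_lit 39) (.e (nat_lit 663574) (nat_lit 9) (.e (nat_lit 2464) (nat_lit 157) (.e (nat_lit 3469) (nat_lit 217) (.e (nat_lit 696344) (nat_lit 8) (.e (nat_lit 172078) (nat_lit 7) .nil)))))))) (.g (nat_lit 1) (.e (nat_lit 293155) (nat_lit 0) .nil) .nil)))) 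
(.nd (nat_lit 9) 
(.lf (nat_lit 549256) (.g (nat_lit 597) (.e (nat_lit 409643) (nat_lit 18) (.e (nat_lit 303118) (nat_lit 3) (.e (nat_lit 204875) (nat_lit 31) .nil))) (.g (nat_lit 0) (.e (nat_lit 291791) (nat_lit 0) .nil) .nil))) 
(.lf (nat_lit 549768) (.g (nat_lit 1979) (.e (nat_lit 409649) (nat_lit 18) (.e (nat_lit 303118) (nat_lit 3) (.e (nat_lit 204855) (nat_lit 26) (.e (nat_lit 336176) (nat_lit 10) (.e (nat_lit 344118) (nat_lit 21) .nil))))) (.g (nat_lit 0) (.e (nat_lit 294091) (nat_lit 0) .nil) .nil)))))) (.nd (nat_lit 7) (.nd (nat_lit 8) (.nd (nat_lit 9) 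
(.lf (nat_lit 548936) (.g (nat_lit 1839) (.e (nat_lit 294973) (nat_lit 28) (.e (nat_lit 434181) (nat_lit 0) (.e (nat_lit 1427) (nat_lit 108) (.e (nat_lit 336421) (nat_lit 28) (.e (nat_lit 434189) (nat_lit 13) (.e (nat_lit 2786) (nat_lit 179) .nil)))))) (.g (nat_lit 1) (.e (nat_lit 290786) (nat_lit 0) .nil) .nil))) 
(.lf (nat_lit 549448) (.g (nat_lit 2424) (.e (nat_lit 409645) (nat_lit 18) (.e (nat_lit 303143) (nat_lit 12) (.e (nat_lit 475199) (nat_lit 40) (.e (nat_lit 704775) (nat_lit 14) .nil)))) (.g (nat_lit 0) (.e (nat_lit 292533) (nat_lit 0) .nil) .nil)))) (.nd (nat_lit 9) 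
(.lf (nat_lit 549192) (.g (nat_lit 712) (.e (nat_lit 409638) (nat_lit 15) (.e (nat_lit 278566) (nat_lit 16) (.e (nat_lit 286751) (nat_lit 10) (.e (nat_lit 344156) (nat_lit 36) (.e (nat_lit 638998) (nat_lit 8) .nil))))) (.g (nat_lit 0) (.e (nat_lit 291714) (nat_lit 0) .nil) .nil))) 
(.lf (nat_lit 549704) (.g (nat_lit 2685) (.e (nat_lit 409648) (nat_lit 18) (.e (nat_lit 303146) (nat_lit 14) (.e (nat_lit 491566) (nat_lit 12) (.e (nat_lit 385044) (nat_lit 21) .nil)))) (.g (nat_lit 0) (.e (nat_lit 293990) (nat_lit 0) .nil) .nil))))) (.nd (nat_lit 8) (.nd (nat_lit 9) 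
(.lf (nat_lit 549064) (.g (nat_lit 3784) (.e (nat_lit 409612) (nat_lit 10) (.e (nat_lit 934) (nat_lit 76) (.e (nat_lit 786483) (nat_lit 30) (.e (nat_lit 360475) (nat_lit 8) (.e (nat_lit 557119) (nat_lit 18) (.e (nat_lit 2797) (nat_lit 180) (.e (nat_lit 303123) (nat_lit 7) .nil))))))) (.g (nat_lit 1) (.e (nat_lit 291331) (nat_lit 0) .nil) .nil))) 
(.lf (nat_lit 549576) (.g (nat_lit 1666) (.e (nat_lit 409647) (nat_lit 18) (.e (nat_lit 303118) (nat_lit 3) (.e (nat_lit 204855) (nat_lit 26) (.e (nat_lit 336175) (nat_lit 10) .nil)))) (.g (nat_lit 0) (.e (nat_lit 293501) (nat_lit 0) .nil) .nil)))) (.nd (nat_lit 9) 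
(.lf (nat_lit 549320) (.g (nat_lit 2758) (.e (nat_lit 409644) (nat_lit 18) (.e (nat_lit 303117) (nat_lit 2) (.e (nat_lit 196673) (nat_lit 15) (.e (nat_lit 81953) (nat_lit 22) (.e (nat_lit 90130) (nat_lit 9) .nil))))) (.g (nat_lit 0) (.e (nat_lit 291956) (nat_lit 0) .nil) .nil))) 
(.lf (nat_lit 549832) (.g (nat_lit 2471) (.e (nat_lit 409649) (nat_lit 18) (.e (nat_lit 303143) (nat_lit 12) (.e (nat_lit 475199) (nat_lit 40) (.e (nat_lit 704831) (nat_lit 14) .nil)))) (.g (nat_lit 0) (.e (nat_lit 294382) (nat_lit 0) .nil) .nil))))))) (.nd (nat_lit 6) (.nd (nat_lit 7) (.nd (nat_lit 8) (.nd (nat_lit 9) 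
(.lf (nat_lit 548904) (.g (nat_lit 2719) (.e (nat_lit 294966) (nat_lit 15) (.e (nat_lit 3308) (nat_lit 202) (.e (nat_lit 573482) (nat_lit 13) (.e (nat_lit 65604) (nat_lit 9) (.e (nat_lit 336028) (nat_lit 3) (.e (nat_lit 98325) (nat_lit 17) (.e (nat_lit 7016) (nat_lit 377) (.e (nat_lit 2789) (nat_lit 179) .nil)))))))) (.g (nat_lit 1) (.e (nat_lit 290649) (nat_lit 0) .nil) .nil))) 
(.lf (nat_lit 549416) (.g (nat_lit 1030) (.e (nat_lit 409645) (nat_lit 18) (.e (nat_lit 303119) (nat_lit 3) (.e (nat_lit 204870) (nat_lit 29) (.e (nat_lit 360465) (nat_lit 3) .nil)))) (.g (nat_lit 0) (.e (nat_lit 292286) (nat_lit 0) .nil) .nil)))) (.nd (nat_lit 9) 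
(.lf (nat_lit 549160) (.g (nat_lit 2588) (.e (nat_lit 409623) (nat_lit 10) (.e (nat_lit 5664) (nat_lit 312) (.e (nat_lit 2679) (nat_lit 168) (.e (nat_lit 204852) (nat_lit 26) (.e (nat_lit 336160) (nat_lit 10) (.e (nat_lit 344119) (nat_lit 21) (.e (nat_lit 516139) (nat_lit 7) .nil))))))) (.g (nat_lit 1) (.e (nat_lit 291584) (nat_lit 0) .nil) .nil))) 
(.lf (nat_lit 549672) (.g (nat_lit 3092) (.e (nat_lit 409648) (nat_lit 18) (.e (nat_lit 303119) (nat_lit 3) (.e (nat_lit 204869) (nat_lit 29) (.e (nat_lit 360466) (nat_lit 3) (.e (nat_lit 516139) (nat_lit 7) .nil))))) (.g (nat_lit 0) (.e (nat_lit 293727) (nat_lit 0) .nil) .nil))))) (.nd (nat_lit 8) (.nd (nat_lit 9) 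
(.lf (nat_lit 549032) (.g (nat_lit 2674) (.e (nat_lit 409608) (nat_lit 10) (.e (nat_lit 632) (nat_lit 50) (.e (nat_lit 573489) (nat_lit 14) (.e (nat_lit 73755) (nat_lit 8) (.e (nat_lit 557096) (nat_lit 13) .nil))))) (.g (nat_lit 0) (.e (nat_lit 291187) (nat_lit 0) .nil) .nil))) 
(.lf (nat_lit 549544) (.g (nat_lit 2380) (.e (nat_lit 409646) (nat_lit 18) (.e (nat_lit 303143) (nat_lit 12) (.e (nat_lit 475199) (nat_lit 40) (.e (nat_lit 704838) (nat_lit 14) .nil)))) (.g (nat_lit 0) (.e (nat_lit 293283) (nat_lit 0) .nil) .nil)))) (.nd (nat_lit 9) 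
(.lf (nat_lit 549288) (.g (nat_lit 2330) (.e (nat_lit 409643) (nat_lit 18) (.e (nat_lit 303143) (nat_lit 12) (.e (nat_lit 475199) (nat_lit 40) (.e (nat_lit 704775) (nat_lit 14) .nil)))) (.g (nat_lit 0) (.e (nat_lit 291834) (nat_lit 0) .nil) .nil))) 
(.lf (nat_lit 549800) (.g (nat_lit 2956) (.e (nat_lit 409649) (nat_lit 18) (.e (nat_lit 303140) (nat_lit 10) (.e (nat_lit 434275) (nat_lit 39) (.e (nat_lit 663574) (nat_lit 9) (.e (nat_lit 2467) (nat_lit 157) (.e (nat_lit 3469) (nat_lit 217) (.e (nat_lit 696344) (nat_lit 8) (.e (nat_lit 172077) (nat_lit 7) .nil)))))))) (.g (nat_lit 1) (.e (nat_lit 294258) (nat_lit 0) .nil) .nil)))))) 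
(.nd (nat_lit 7) (.nd (nat_lit 8) (.nd (nat_lit 9) 
(.lf (nat_lit 548968) (.g (nat_lit 4480) (.e (nat_lit 409602) (nat_lit 0) (.e (nat_lit 5293) (nat_lit 298) (.e (nat_lit 1250) (nat_lit 92) (.e (nat_lit 98373) (nat_lit 29) (.e (nat_lit 450588) (nat_lit 10) (.e (nat_lit 573457) (nat_lit 9) (.e (nat_lit 359) (nat_lit 30) .nil))))))) (.g (nat_lit 1) (.e (nat_lit 291093) (nat_lit 0) .nil) .nil))) 
(.lf (nat_lit 549480) (.g (nat_lit 4232) (.e (nat_lit 409646) (nat_lit 18) (.e (nat_lit 303117) (nat_lit 2) (.e (nat_lit 196673) (nat_lit 15) (.e (nat_lit 81953) (nat_lit 22) (.e (nat_lit 90130) (nat_lit 9) (.e (nat_lit 2830) (nat_lit 182) .nil)))))) (.g (nat_lit 1) (.e (nat_lit 292822) (nat_lit 0) .nil) .nil)))) (.nd (nat_lit 9) 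
(.lf (nat_lit 549224) (.g (nat_lit 1530) (.e (nat_lit 409643) (nat_lit 18) (.e (nat_lit 303117) (nat_lit 2) (.e (nat_lit 196630) (nat_lit 9) (.e (nat_lit 1592) (nat_lit 111) .nil)))) (.g (nat_lit 0) (.e (nat_lit 291758) (nat_lit 0) .nil) .nil))) 
(.lf (nat_lit 549736) (.g (nat_lit 4637) (.e (nat_lit 409649) (nat_lit 18) (.e (nat_lit 303116) (nat_lit 2) (.e (nat_lit 196674) (nat_lit 15) (.e (nat_lit 81953) (nat_lit 22) (.e (nat_lit 90130) (nat_lit 9) (.e (nat_lit 2830) (nat_lit 182) .nil)))))) (.g (nat_lit 1) (.e (nat_lit 294046) (nat_lit 0) .nil) .nil))))) (.nd (nat_lit 8) (.nd (nat_lit 9) 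
(.lf (nat_lit 549096) (.g (nat_lit 2185) (.e (nat_lit 409616) (nat_lit 10) (.e (nat_lit 632) (nat_lit 50) (.e (nat_lit 573493) (nat_lit 15) (.e (nat_lit 81948) (nat_lit 21) .nil)))) (.g (nat_lit 0) (.e (nat_lit 291399) (nat_lit 0) .nil) .nil))) 
(.lf (nat_lit 549608) (.g (nat_lit 2002) (.e (nat_lit 409648) (nat_lit 18) (.e (nat_lit 303111) (nat_lit 0) (.e (nat_lit 3579) (nat_lit 223) (.e (nat_lit 745509) (nat_lit 11) (.e (nat_lit 24660) (nat_lit 13) .nil))))) (.g (nat_lit 0) (.e (nat_lit 293631) (nat_lit 0) .nil) .nil)))) (.nd (nat_lit 9) 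
(.lf (nat_lit 549352) (.g (nat_lit 3971) (.e (nat_lit 409644) (nat_lit 18) (.e (nat_lit 303119) (nat_lit 3) (.e (nat_lit 204869) (nat_lit 29) (.e (nat_lit 360466) (nat_lit 3) (.e (nat_lit 516139) (nat_lit 7) .nil))))) (.g (nat_lit 1) (.e (nat_lit 291996) (nat_lit 0) .nil) .nil))) 
(.lf (nat_lit 549864) (.g (nat_lit 1794) (.e (nat_lit 417536) (nat_lit 18) (.e (nat_lit 303117) (nat_lit 2) (.e (nat_lit 196672) (nat_lit 15) (.e (nat_lit 81960) (nat_lit 25) .nil)))) (.g (nat_lit 0) (.e (nat_lit 294527) (nat_lit 0) .nil) .nil)))))))) (.nd (nat_lit 5) (.nd (nat_lit 6) (.nd (nat_lit 7) (.nd (nat_lit 8) (.nd (nat_lit 9) 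
(.lf (nat_lit 548888) (.g (nat_lit 496) (.e (nat_lit 294955) (nat_lit 12) (.e (nat_lit 385072) (nat_lit 31) (.e (nat_lit 573493) (nat_lit 15) .nil))) (.g (nat_lit 0) (.e (nat_lit 290578) (nat_lit 0) .nil) .nil))) 
(.lf (nat_lit 549400) (.g (nat_lit 1030) (.e (nat_lit 409645) (nat_lit 18) (.e (nat_lit 303119) (nat_lit 3) (.e (nat_lit 204819) (nat_lit 17) (.e (nat_lit 7936) (nat_lit 348) .nil)))) (.g (nat_lit 0) (.e (nat_lit 292138) (nat_lit 0) .nil) .nil)))) (.nd (nat_lit 9) 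
(.lf (nat_lit 549144) (.g (nat_lit 2023) (.e (nat_lit 409617) (nat_lit 10) (.e (nat_lit 632) (nat_lit 50) (.e (nat_lit 573493) (nat_lit 15) (.e (nat_lit 81948) (nat_lit 21) .nil)))) (.g (nat_lit 0) (.e (nat_lit 291518) (nat_lit 0) .nil) .nil))) 
(.lf (nat_lit 549656) (.g (nat_lit 2841) (.e (nat_lit 409648) (nat_lit 18) (.e (nat_lit 303119) (nat_lit 3) (.e (nat_lit 204855) (nat_lit 26) (.e (nat_lit 336110) (nat_lit 9) (.e (nat_lit 336028) (nat_lit 3) .nil))))) (.g (nat_lit 0) (.e (nat_lit 293697) (nat_lit 0) .nil) .nil))))) (.nd (nat_lit 8) (.nd (nat_lit 9) 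
(.lf (nat_lit 549016) (.g (nat_lit 1446) (.e (nat_lit 417536) (nat_lit 8) (.e (nat_lit 303118) (nat_lit 3) (.e (nat_lit 204846) (nat_lit 24) (.e (nat_lit 319511) (nat_lit 10) .nil)))) (.g (nat_lit 0) (.e (nat_lit 291171) (nat_lit 0) .nil) .nil))) 
(.lf (nat_lit 549528) (.g (nat_lit 2788) (.e (nat_lit 409646) (nat_lit 18) (.e (nat_lit 303143) (nat_lit 12) (.e (nat_lit 475199) (nat_lit 40) (.e (nat_lit 704688) (nat_lit 9) (.e (nat_lit 1018) (nat_lit 81) .nil))))) (.g (nat_lit 0) (.e (nat_lit 293264) (nat_lit 0) .nil) .nil)))) (.nd (nat_lit 9) 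
(.lf (nat_lit 549272) (.g (nat_lit 1733) (.e (nat_lit 409643) (nat_lit 18) (.e (nat_lit 303119) (nat_lit 3) (.e (nat_lit 204866) (nat_lit 28) (.e (nat_lit 360192) (nat_lit 23) .nil)))) (.g (nat_lit 0) (.e (nat_lit 291811) (nat_lit 0) .nil) .nil))) 
(.lf (nat_lit 549784) (.g (nat_lit 3919) (.e (nat_lit 409649) (nat_lit 18) (.e (nat_lit 303119) (nat_lit 3) (.e (nat_lit 204869) (nat_lit 29) (.e (nat_lit 360468) (nat_lit 3) (.e (nat_lit 516139) (nat_lit 7) .nil))))) (.g (nat_lit 1) (.e (nat_lit 294130) (nat_lit 0) .nil) .nil)))))) (.nd (nat_lit 7) (.nd (nat_lit 8) (.nd (nat_lit 9) 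
(.lf (nat_lit 548952) (.g (nat_lit 2199) (.e (nat_lit 294974) (nat_lit 29) (.e (nat_lit 442409) (nat_lit 20) (.e (nat_lit 3409) (nat_lit 212) (.e (nat_lit 655378) (nat_lit 4) (.e (nat_lit 172082) (nat_lit 7) (.e (nat_lit 409642) (nat_lit 17) .nil)))))) (.g (nat_lit 1) (.e (nat_lit 290914) (nat_lit 0) .nil) .nil))) 
(.lf (nat_lit 549464) (.g (nat_lit 843) (.e (nat_lit 409646) (nat_lit 18) (.e (nat_lit 303111) (nat_lit 0) (.e (nat_lit 3459) (nat_lit 216) (.e (nat_lit 696064) (nat_lit 0) .nil)))) (.g (nat_lit 0) (.e (nat_lit 292798) (nat_lit 0) .nil) .nil)))) (.nd (nat_lit 9) 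
(.lf (nat_lit 549208) (.g (nat_lit 974) (.e (nat_lit 409638) (nat_lit 15) (.e (nat_lit 278567) (nat_lit 16) (.e (nat_lit 286753) (nat_lit 10) (.e (nat_lit 344157) (nat_lit 36) (.e (nat_lit 638999) (nat_lit 8) (.e (nat_lit 172081) (nat_lit 7) .nil)))))) (.g (nat_lit 1) (.e (nat_lit 291730) (nat_lit 0) .nil) .nil))) 
(.lf (nat_lit 549720) (.g (nat_lit 2123) (.e (nat_lit 409649) (nat_lit 18) (.e (nat_lit 303111) (nat_lit 0) (.e (nat_lit 3255) (nat_lit 197) (.e (nat_lit 532560) (nat_lit 14) (.e (nat_lit 376864) (nat_lit 22) (.e (nat_lit 90130) (nat_lit 9) (.e (nat_lit 2830) (nat_lit 182) .nil))))))) (.g (nat_lit 1) (.e (nat_lit 294014) (nat_lit 0) .nil) .nil))))) (.nd (nat_lit 8) (.nd (nat_lit 9) 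
(.lf (nat_lit 549080) (.g (nat_lit 3553) (.e (nat_lit 409616) (nat_lit 10) (.e (nat_lit 632) (nat_lit 50) (.e (nat_lit 573489) (nat_lit 14) (.e (nat_lit 73755) (nat_lit 8) (.e (nat_lit 557097) (nat_lit 13) (.e (nat_lit 172066) (nat_lit 3) (.e (nat_lit 212736) (nat_lit 7) .nil))))))) (.g (nat_lit 1) (.e (nat_lit 291371) (nat_lit 0) .nil) .nil))) 
(.lf (nat_lit 549592) (.g (nat_lit 2095) (.e (nat_lit 409647) (nat_lit 18) (.e (nat_lit 303143) (nat_lit 12) (.e (nat_lit 475199) (nat_lit 40) (.e (nat_lit 704768) (nat_lit 14) .nil)))) (.g (nat_lit 0) (.e (nat_lit 293538) (nat_lit 0) .nil) .nil)))) (.nd (nat_lit 9) 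
(.lf (nat_lit 549336) (.g (nat_lit 1898) (.e (nat_lit 409644) (nat_lit 18) (.e (nat_lit 303119) (nat_lit 3) (.e (nat_lit 204855) (nat_lit 26) (.e (nat_lit 336097) (nat_lit 9) .nil)))) (.g (nat_lit 0) (.e (nat_lit 291973) (nat_lit 0) .nil) .nil))) 
(.lf (nat_lit 549848) (.g (nat_lit 632) (.e (nat_lit 417536) (nat_lit 18) (.e (nat_lit 303117) (nat_lit 2) (.e (nat_lit 196665) (nat_lit 13) .nil))) (.g (nat_lit 0) (.e (nat_lit 294510) (nat_lit 0) .nil) .nil))))))) (.nd (nat_lit 6) (.nd (nat_lit 7) (.nd (nat_lit 8) (.nd (nat_lit 9) 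
(.lf (nat_lit 548920) (.g (nat_lit 1397) (.e (nat_lit 294972) (nat_lit 27) (.e (nat_lit 426341) (nat_lit 14) (.e (nat_lit 491571) (nat_lit 13) (.e (nat_lit 393238) (nat_lit 17) .nil)))) (.g (nat_lit 0) (.e (nat_lit 290767) (nat_lit 0) .nil) .nil))) 
(.lf (nat_lit 549432) (.g (nat_lit 1009) (.e (nat_lit 409645) (nat_lit 18) (.e (nat_lit 303140) (nat_lit 10) (.e (nat_lit 434275) (nat_lit 39) (.e (nat_lit 663574) (nat_lit 9) .nil)))) (.g (nat_lit 0) (.e (nat_lit 292446) (nat_lit 0) .nil) .nil)))) (.nd (nat_lit 9) 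
(.lf (nat_lit 549176) (.g (nat_lit 1929) (.e (nat_lit 417536) (nat_lit 10) (.e (nat_lit 5664) (nat_lit 312) (.e (nat_lit 2679) (nat_lit 168) (.e (nat_lit 204868) (nat_lit 29) (.e (nat_lit 360466) (nat_lit 3) .nil))))) (.g (nat_lit 0) (.e (nat_lit 291639) (nat_lit 0) .nil) .nil))) 
(.lf (nat_lit 549688) (.g (nat_lit 1832) (.e (nat_lit 409648) (nat_lit 18) (.e (nat_lit 303137) (nat_lit 10) (.e (nat_lit 434275) (nat_lit 39) (.e (nat_lit 663584) (nat_lit 12) (.e (nat_lit 164018) (nat_lit 45) .nil))))) (.g (nat_lit 0) (.e (nat_lit 293853) (nat_lit 0) .nil) .nil))))) (.nd (nat_lit 8) (.nd (nat_lit 9) 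
(.lf (nat_lit 549048) (.g (nat_lit 2059) (.e (nat_lit 409612) (nat_lit 10) (.e (nat_lit 632) (nat_lit 50) (.e (nat_lit 573482) (nat_lit 13) (.e (nat_lit 65616) (nat_lit 10) .nil)))) (.g (nat_lit 0) (.e (nat_lit 291273) (nat_lit 0) .nil) .nil))) 
(.lf (nat_lit 549560) (.g (nat_lit 3211) (.e (nat_lit 409647) (nat_lit 18) (.e (nat_lit 303117) (nat_lit 2) (.e (nat_lit 196666) (nat_lit 13) (.e (nat_lit 65617) (nat_lit 10) (.e (nat_lit 344120) (nat_lit 21) .nil))))) (.g (nat_lit 0) (.e (nat_lit 293481) (nat_lit 0) .nil) .nil)))) (.nd (nat_lit 9) 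
(.lf (nat_lit 549304) (.g (nat_lit 1346) (.e (nat_lit 409644) (nat_lit 18) (.e (nat_lit 303117) (nat_lit 2) (.e (nat_lit 196624) (nat_lit 9) (.e (nat_lit 7936) (nat_lit 111) .nil)))) (.g (nat_lit 0) (.e (nat_lit 291940) (nat_lit 0) .nil) .nil))) 
(.lf (nat_lit 549816) (.g (nat_lit 2941) (.e (nat_lit 409649) (nat_lit 18) (.e (nat_lit 303140) (nat_lit 10) (.e (nat_lit 434275) (nat_lit 39) (.e (nat_lit 663584) (nat_lit 12) (.e (nat_lit 164018) (nat_lit 45) (.e (nat_lit 696344) (nat_lit 8) (.e (nat_lit 172082) (nat_lit 7) .nil))))))) (.g (nat_lit 1) (.e (nat_lit 294338) (nat_lit 0) .nil) .nil)))))) 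
(.nd (nat_lit 7) (.nd (nat_lit 8) (.nd (nat_lit 9) 
(.lf (nat_lit 548984) (.g (nat_lit 1717) (.e (nat_lit 409602) (nat_lit 0) (.e (nat_lit 5293) (nat_lit 298) (.e (nat_lit 1656) (nat_lit 115) (.e (nat_lit 393286) (nat_lit 25) .nil)))) (.g (nat_lit 0) (.e (nat_lit 291109) (nat_lit 0) .nil) .nil))) 
(.lf (nat_lit 549496) (.g (nat_lit 3721) (.e (nat_lit 409646) (nat_lit 18) (.e (nat_lit 303119) (nat_lit 3) (.e (nat_lit 204866) (nat_lit 28) (.e (nat_lit 352313) (nat_lit 23) (.e (nat_lit 98350) (nat_lit 24) .nil))))) (.g (nat_lit 1) (.e (nat_lit 292891) (nat_lit 0) .nil) .nil)))) (.nd (nat_lit 9) 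
(.lf (nat_lit 549240) (.g (nat_lit 1538) (.e (nat_lit 409643) (nat_lit 18) (.e (nat_lit 303117) (nat_lit 2) (.e (nat_lit 196672) (nat_lit 15) (.e (nat_lit 89856) (nat_lit 20) .nil)))) (.g (nat_lit 0) (.e (nat_lit 291774) (nat_lit 0) .nil) .nil))) 
(.lf (nat_lit 549752) (.g (nat_lit 2720) (.e (nat_lit 409649) (nat_lit 18) (.e (nat_lit 303117) (nat_lit 2) (.e (nat_lit 196672) (nat_lit 15) (.e (nat_lit 81951) (nat_lit 22) (.e (nat_lit 90134) (nat_lit 9) (.e (nat_lit 2828) (nat_lit 182) .nil)))))) (.g (nat_lit 1) (.e (nat_lit 294067) (nat_lit 0) .nil) .nil))))) (.nd (nat_lit 8) (.nd (nat_lit 9) 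
(.lf (nat_lit 549112) (.g (nat_lit 420) (.e (nat_lit 409617) (nat_lit 10) (.e (nat_lit 632) (nat_lit 50) (.e (nat_lit 573489) (nat_lit 14) .nil))) (.g (nat_lit 0) (.e (nat_lit 291456) (nat_lit 0) .nil) .nil))) 
(.lf (nat_lit 549624) (.g (nat_lit 3430) (.e (nat_lit 409648) (nat_lit 18) (.e (nat_lit 303117) (nat_lit 2) (.e (nat_lit 196666) (nat_lit 13) (.e (nat_lit 65610) (nat_lit 10) (.e (nat_lit 344120) (nat_lit 21) (.e (nat_lit 516139) (nat_lit 7) .nil)))))) (.g (nat_lit 1) (.e (nat_lit 293653) (nat_lit 0) .nil) .nil)))) (.nd (nat_lit 9) 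
(.lf (nat_lit 549368) (.g (nat_lit 8053) (.e (nat_lit 409645) (nat_lit 18) (.e (nat_lit 303112) (nat_lit 0) (.e (nat_lit 3252) (nat_lit 197) (.e (nat_lit 532535) (nat_lit 9) (.e (nat_lit 336099) (nat_lit 9) (.e (nat_lit 336013) (nat_lit 2) (.e (nat_lit 90134) (nat_lit 9) (.e (nat_lit 2822) (nat_lit 182) .nil)))))))) (.g (nat_lit 1) (.e (nat_lit 292063) (nat_lit 0) .nil) .nil))) 
(.lf (nat_lit 549880) (.g (nat_lit 1821) (.e (nat_lit 417536) (nat_lit 18) (.e (nat_lit 303119) (nat_lit 3) (.e (nat_lit 204852) (nat_lit 26) (.e (nat_lit 336129) (nat_lit 9) .nil)))) (.g (nat_lit 0) (.e (nat_lit 294553) (nat_lit 0) .nil) .nil)))))))))) (.nd (nat_lit 3) (.nd (nat_lit 4) (.nd (nat_lit 5) (.nd (nat_lit 6) (.nd (nat_lit 7) (.nd (nat_lit 8) (.nd (nat_lit 9) 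
(.lf (nat_lit 548868) (.g (nat_lit 3516) (.e (nat_lit 294940) (nat_lit 9) (.e (nat_lit 336324) (nat_lit 18) (.e (nat_lit 204831) (nat_lit 18) (.e (nat_lit 57830) (nat_lit 250) .nil)))) (.g (nat_lit 0) (.e (nat_lit 290521) (nat_lit 0) .nil) .nil))) 
(.lf (nat_lit 549380) (.g (nat_lit 4048) (.e (nat_lit 409645) (nat_lit 18) (.e (nat_lit 303117) (nat_lit 2) (.e (nat_lit 196672) (nat_lit 15) (.e (nat_lit 81951) (nat_lit 22) (.e (nat_lit 90134) (nat_lit 9) (.e (nat_lit 2822) (nat_lit 182) .nil)))))) (.g (nat_lit 1) (.e (nat_lit 292097) (nat_lit 0) .nil) .nil)))) (.nd (nat_lit 9) 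
(.lf (nat_lit 549124) (.g (nat_lit 3873) (.e (nat_lit 409617) (nat_lit 10) (.e (nat_lit 632) (nat_lit 50) (.e (nat_lit 573489) (nat_lit 14) (.e (nat_lit 73755) (nat_lit 8) (.e (nat_lit 557105) (nat_lit 14) (.e (nat_lit 180245) (nat_lit 5) (.e (nat_lit 540416) (nat_lit 24) .nil))))))) (.g (nat_lit 1) (.e (nat_lit 291469) (nat_lit 0) .nil) .nil))) 
(.lf (nat_lit 549636) (.g (nat_lit 2622) (.e (nat_lit 409648) (nat_lit 18) (.e (nat_lit 303117) (nat_lit 2) (.e (nat_lit 196672) (nat_lit 15) (.e (nat_lit 81955) (nat_lit 23) (.e (nat_lit 98350) (nat_lit 24) .nil))))) (.g (nat_lit 0) (.e (nat_lit 293666) (nat_lit 0) .nil) .nil))))) (.nd (nat_lit 8) (.nd (nat_lit 9) 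
(.lf (nat_lit 548996) (.g (nat_lit 914) (.e (nat_lit 409603) (nat_lit 0) (.e (nat_lit 5259) (nat_lit 298) (.e (nat_lit 371) (nat_lit 32) (.e (nat_lit 426544) (nat_lit 30) .nil)))) (.g (nat_lit 0) (.e (nat_lit 291127) (nat_lit 0) .nil) .nil))) 
(.lf (nat_lit 549508) (.g (nat_lit 2185) (.e (nat_lit 409646) (nat_lit 18) (.e (nat_lit 303132) (nat_lit 9) (.e (nat_lit 426160) (nat_lit 6) (.e (nat_lit 253990) (nat_lit 11) (.e (nat_lit 16473) (nat_lit 14) (.e (nat_lit 499456) (nat_lit 25) .nil)))))) (.g (nat_lit 1) (.e (nat_lit 293144) (nat_lit 0) .nil) .nil)))) (.nd (nat_lit 9) 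
(.lf (nat_lit 549252) (.g (nat_lit 596) (.e (nat_lit 409643) (nat_lit 18) (.e (nat_lit 303118) (nat_lit 3) (.e (nat_lit 204867) (nat_lit 28) .nil))) (.g (nat_lit 0) (.e (nat_lit 291787) (nat_lit 0) .nil) .nil))) 
(.lf (nat_lit 549764) (.g (nat_lit 1528) (.e (nat_lit 409649) (nat_lit 18) (.e (nat_lit 303118) (nat_lit 3) (.e (nat_lit 204855) (nat_lit 26) (.e (nat_lit 336082) (nat_lit 9) .nil)))) (.g (nat_lit 0) (.e (nat_lit 294079) (nat_lit 0) .nil) .nil)))))) (.nd (nat_lit 7) (.nd (nat_lit 8) (.nd (nat_lit 9) 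
(.lf (nat_lit 548932) (.g (nat_lit 713) (.e (nat_lit 294973) (nat_lit 28) (.e (nat_lit 434181) (nat_lit 0) (.e (nat_lit 1425) (nat_lit 108) (.e (nat_lit 336421) (nat_lit 28) (.e (nat_lit 434188) (nat_lit 13) (.e (nat_lit 2788) (nat_lit 179) .nil)))))) (.g (nat_lit 1) (.e (nat_lit 290782) (nat_lit 0) .nil) .nil))) 
(.lf (nat_lit 549444) (.g (nat_lit 2265) (.e (nat_lit 409645) (nat_lit 18) (.e (nat_lit 303143) (nat_lit 12) (.e (nat_lit 475199) (nat_lit 40) (.e (nat_lit 704707) (nat_lit 9) (.e (nat_lit 1023) (nat_lit 81) .nil))))) (.g (nat_lit 0) (.e (nat_lit 292524) (nat_lit 0) .nil) .nil)))) (.nd (nat_lit 9) 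
(.lf (nat_lit 549188) (.g (nat_lit 728) (.e (nat_lit 409636) (nat_lit 14) (.e (nat_lit 270373) (nat_lit 16) (.e (nat_lit 286753) (nat_lit 10) (.e (nat_lit 344154) (nat_lit 35) (.e (nat_lit 630802) (nat_lit 8) (.e (nat_lit 172081) (nat_lit 7) .nil)))))) (.g (nat_lit 1) (.e (nat_lit 291705) (nat_lit 0) .nil) .nil))) 
(.lf (nat_lit 549700) (.g (nat_lit 1693) (.e (nat_lit 409648) (nat_lit 18) (.e (nat_lit 303146) (nat_lit 14) (.e (nat_lit 491558) (nat_lit 10) (.e (nat_lit 344160) (nat_lit 37) .nil)))) (.g (nat_lit 0) (.e (nat_lit 293985) (nat_lit 0) .nil) .nil))))) (.nd (nat_lit 8) (.nd (nat_lit 9) 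
(.lf (nat_lit 549060) (.g (nat_lit 863) (.e (nat_lit 409612) (nat_lit 10) (.e (nat_lit 932) (nat_lit 76) (.e (nat_lit 786481) (nat_lit 30) (.e (nat_lit 368384) (nat_lit 5) .nil)))) (.g (nat_lit 0) (.e (nat_lit 291326) (nat_lit 0) .nil) .nil))) 
(.lf (nat_lit 549572) (.g (nat_lit 2025) (.e (nat_lit 409647) (nat_lit 18) (.e (nat_lit 303117) (nat_lit 2) (.e (nat_lit 196674) (nat_lit 15) (.e (nat_lit 81960) (nat_lit 25) .nil)))) (.g (nat_lit 0) (.e (nat_lit 293493) (nat_lit 0) .nil) .nil)))) (.nd (nat_lit 9) 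
(.lf (nat_lit 549316) (.g (nat_lit 3158) (.e (nat_lit 409644) (nat_lit 18) (.e (nat_lit 303117) (nat_lit 2) (.e (nat_lit 196666) (nat_lit 13) (.e (nat_lit 65620) (nat_lit 10) .nil)))) (.g (nat_lit 0) (.e (nat_lit 291952) (nat_lit 0) .nil) .nil))) 
(.lf (nat_lit 549828) (.g (nat_lit 2418) (.e (nat_lit 409649) (nat_lit 18) (.e (nat_lit 303143) (nat_lit 12) (.e (nat_lit 475199) (nat_lit 40) (.e (nat_lit 704815) (nat_lit 14) .nil)))) (.g (nat_lit 0) (.e (nat_lit 294378) (nat_lit 0) .nil) .nil))))))) (.nd (nat_lit 6) (.nd (nat_lit 7) (.nd (nat_lit 8) (.nd (nat_lit 9) 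
(.lf (nat_lit 548900) (.g (nat_lit 5818) (.e (nat_lit 294966) (nat_lit 15) (.e (nat_lit 3307) (nat_lit 202) (.e (nat_lit 573493) (nat_lit 15) (.e (nat_lit 81956) (nat_lit 23) (.e (nat_lit 98350) (nat_lit 24) (.e (nat_lit 409642) (nat_lit 17) .nil)))))) (.g (nat_lit 1) (.e (nat_lit 290643) (nat_lit 0) .nil) .nil))) 
(.lf (nat_lit 549412) (.g (nat_lit 706) (.e (nat_lit 409645) (nat_lit 18) (.e (nat_lit 303119) (nat_lit 3) (.e (nat_lit 204862) (nat_lit 27) .nil))) (.g (nat_lit 0) (.e (nat_lit 292182) (nat_lit 0) .nil) .nil)))) (.nd (nat_lit 9) 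
(.lf (nat_lit 549156) (.g (nat_lit 1703) (.e (nat_lit 409623) (nat_lit 10) (.e (nat_lit 5664) (nat_lit 312) (.e (nat_lit 2661) (nat_lit 167) (.e (nat_lit 196670) (nat_lit 14) (.e (nat_lit 81664) (nat_lit 40) .nil))))) (.g (nat_lit 0) (.e (nat_lit 291580) (nat_lit 0) .nil) .nil))) 
(.lf (nat_lit 549668) (.g (nat_lit 4016) (.e (nat_lit 409648) (nat_lit 18) (.e (nat_lit 303119) (nat_lit 3) (.e (nat_lit 204866) (nat_lit 28) (.e (nat_lit 352315) (nat_lit 23) (.e (nat_lit 98349) (nat_lit 24) .nil))))) (.g (nat_lit 1) (.e (nat_lit 293714) (nat_lit 0) .nil) .nil))))) (.nd (nat_lit 8) (.nd (nat_lit 9) 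
(.lf (nat_lit 549028) (.g (nat_lit 1195) (.e (nat_lit 417536) (nat_lit 6) (.e (nat_lit 286761) (nat_lit 13) (.e (nat_lit 393293) (nat_lit 26) (.e (nat_lit 475196) (nat_lit 40) (.e (nat_lit 704513) (nat_lit 0) .nil))))) (.g (nat_lit 0) (.e (nat_lit 291183) (nat_lit 0) .nil) .nil))) 
(.lf (nat_lit 549540) (.g (nat_lit 2372) (.e (nat_lit 409646) (nat_lit 18) (.e (nat_lit 303143) (nat_lit 12) (.e (nat_lit 475199) (nat_lit 40) (.e (nat_lit 704799) (nat_lit 14) .nil)))) (.g (nat_lit 0) (.e (nat_lit 293279) (nat_lit 0) .nil) .nil)))) (.nd (nat_lit 9) 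
(.lf (nat_lit 549284) (.g (nat_lit 2132) (.e (nat_lit 409643) (nat_lit 18) (.e (nat_lit 303143) (nat_lit 12) (.e (nat_lit 475199) (nat_lit 40) (.e (nat_lit 704612) (nat_lit 9) .nil)))) (.g (nat_lit 0) (.e (nat_lit 291830) (nat_lit 0) .nil) .nil))) 
(.lf (nat_lit 549796) (.g (nat_lit 3597) (.e (nat_lit 409649) (nat_lit 18) (.e (nat_lit 303140) (nat_lit 10) (.e (nat_lit 434275) (nat_lit 39) (.e (nat_lit 663574) (nat_lit 9) (.e (nat_lit 2464) (nat_lit 157) (.e (nat_lit 3469) (nat_lit 217) (.e (nat_lit 696344) (nat_lit 8) (.e (nat_lit 172079) (nat_lit 7) .nil)))))))) (.g (nat_lit 1) (.e (nat_lit 294254) (nat_lit 0) .nil) .nil)))))) 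
(.nd (nat_lit 7) (.nd (nat_lit 8) (.nd (nat_lit 9) 
(.lf (nat_lit 548964) (.g (nat_lit 2505) (.e (nat_lit 409602) (nat_lit 0) (.e (nat_lit 5270) (nat_lit 298) (.e (nat_lit 1239) (nat_lit 91) (.e (nat_lit 90170) (nat_lit 13) (.e (nat_lit 172113) (nat_lit 10) (.e (nat_lit 434247) (nat_lit 28) (.e (nat_lit 573456) (nat_lit 9) (.e (nat_lit 7936) (nat_lit 30) .nil)))))))) (.g (nat_lit 1) (.e (nat_lit 291085) (nat_lit 0) .nil) .nil))) 
(.lf (nat_lit 549476) (.g (nat_lit 1717) (.e (nat_lit 409646) (nat_lit 18) (.e (nat_lit 303117) (nat_lit 2) (.e (nat_lit 196666) (nat_lit 13) (.e (nat_lit 65619) (nat_lit 10) .nil)))) (.g (nat_lit 0) (.e (nat_lit 292815) (nat_lit 0) .nil) .nil)))) (.nd (nat_lit 9) 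
(.lf (nat_lit 549220) (.g (nat_lit 361) (.e (nat_lit 409643) (nat_lit 18) (.e (nat_lit 303112) (nat_lit 0) (.e (nat_lit 3252) (nat_lit 197) .nil))) (.g (nat_lit 0) (.e (nat_lit 291754) (nat_lit 0) .nil) .nil))) 
(.lf (nat_lit 549732) (.g (nat_lit 761) (.e (nat_lit 409649) (nat_lit 18) (.e (nat_lit 303116) (nat_lit 2) (.e (nat_lit 196669) (nat_lit 14) .nil))) (.g (nat_lit 0) (.e (nat_lit 294042) (nat_lit 0) .nil) .nil))))) (.nd (nat_lit 8) (.nd (nat_lit 9) 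
(.lf (nat_lit 549092) (.g (nat_lit 350) (.e (nat_lit 409616) (nat_lit 10) (.e (nat_lit 632) (nat_lit 50) (.e (nat_lit 573493) (nat_lit 15) .nil))) (.g (nat_lit 0) (.e (nat_lit 291386) (nat_lit 0) .nil) .nil))) 
(.lf (nat_lit 549604) (.g (nat_lit 2601) (.e (nat_lit 409647) (nat_lit 18) (.e (nat_lit 303143) (nat_lit 12) (.e (nat_lit 475199) (nat_lit 40) (.e (nat_lit 704838) (nat_lit 14) .nil)))) (.g (nat_lit 0) (.e (nat_lit 293550) (nat_lit 0) .nil) .nil)))) (.nd (nat_lit 9) 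
(.lf (nat_lit 549348) (.g (nat_lit 584) (.e (nat_lit 409644) (nat_lit 18) (.e (nat_lit 303119) (nat_lit 3) (.e (nat_lit 204868) (nat_lit 29) .nil))) (.g (nat_lit 0) (.e (nat_lit 291988) (nat_lit 0) .nil) .nil))) 
(.lf (nat_lit 549860) (.g (nat_lit 1664) (.e (nat_lit 417536) (nat_lit 18) (.e (nat_lit 303117) (nat_lit 2) (.e (nat_lit 196670) (nat_lit 14) (.e (nat_lit 81664) (nat_lit 40) .nil)))) (.g (nat_lit 0) (.e (nat_lit 294523) (nat_lit 0) .nil) .nil)))))))) (.nd (nat_lit 5) (.nd (nat_lit 6) (.nd (nat_lit 7) (.nd (nat_lit 8) (.nd (nat_lit 9) 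
(.lf (nat_lit 548884) (.g (nat_lit 1015) (.e (nat_lit 294954) (nat_lit 12) (.e (nat_lit 385073) (nat_lit 31) (.e (nat_lit 573493) (nat_lit 15) (.e (nat_lit 81962) (nat_lit 25) .nil)))) (.g (nat_lit 0) (.e (nat_lit 290566) (nat_lit 0) .nil) .nil))) 
(.lf (nat_lit 549396) (.g (nat_lit 3565) (.e (nat_lit 409645) (nat_lit 18) (.e (nat_lit 303118) (nat_lit 3) (.e (nat_lit 204866) (nat_lit 28) (.e (nat_lit 352313) (nat_lit 23) (.e (nat_lit 98350) (nat_lit 24) .nil))))) (.g (nat_lit 1) (.e (nat_lit 292133) (nat_lit 0) .nil) .nil)))) (.nd (nat_lit 9) 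
(.lf (nat_lit 549140) (.g (nat_lit 1521) (.e (nat_lit 409617) (nat_lit 10) (.e (nat_lit 632) (nat_lit 50) (.e (nat_lit 573491) (nat_lit 15) (.e (nat_lit 81957) (nat_lit 24) .nil)))) (.g (nat_lit 0) (.e (nat_lit 291490) (nat_lit 0) .nil) .nil))) 
(.lf (nat_lit 549652) (.g (nat_lit 2816) (.e (nat_lit 409648) (nat_lit 18) (.e (nat_lit 303119) (nat_lit 3) (.e (nat_lit 204854) (nat_lit 26) (.e (nat_lit 336160) (nat_lit 10) (.e (nat_lit 344119) (nat_lit 21) .nil))))) (.g (nat_lit 0) (.e (nat_lit 293693) (nat_lit 0) .nil) .nil))))) (.nd (nat_lit 8) (.nd (nat_lit 9) 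
(.lf (nat_lit 549012) (.g (nat_lit 4017) (.e (nat_lit 409604) (nat_lit 0) (.e (nat_lit 5270) (nat_lit 298) (.e (nat_lit 1239) (nat_lit 91) (.e (nat_lit 90170) (nat_lit 13) (.e (nat_lit 172113) (nat_lit 10) (.e (nat_lit 434248) (nat_lit 28) (.e (nat_lit 573449) (nat_lit 9) (.e (nat_lit 359) (nat_lit 30) .nil)))))))) (.g (nat_lit 1) (.e (nat_lit 291155) (nat_lit 0) .nil) .nil))) 
(.lf (nat_lit 549524) (.g (nat_lit 2122) (.e (nat_lit 409646) (nat_lit 18) (.e (nat_lit 303143) (nat_lit 12) (.e (nat_lit 475199) (nat_lit 40) (.e (nat_lit 704614) (nat_lit 9) .nil)))) (.g (nat_lit 0) (.e (nat_lit 293259) (nat_lit 0) .nil) .nil)))) (.nd (nat_lit 9) 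
(.lf (nat_lit 549268) (.g (nat_lit 2379) (.e (nat_lit 409643) (nat_lit 18) (.e (nat_lit 303119) (nat_lit 3) (.e (nat_lit 204855) (nat_lit 26) (.e (nat_lit 336175) (nat_lit 10) .nil)))) (.g (nat_lit 0) (.e (nat_lit 291804) (nat_lit 0) .nil) .nil))) 
(.lf (nat_lit 549780) (.g (nat_lit 2577) (.e (nat_lit 409649) (nat_lit 18) (.e (nat_lit 303119) (nat_lit 3) (.e (nat_lit 212736) (nat_lit 26) (.e (nat_lit 336158) (nat_lit 9) (.e (nat_lit 336012) (nat_lit 2) (.e (nat_lit 90130) (nat_lit 9) (.e (nat_lit 2830) (nat_lit 182) .nil))))))) (.g (nat_lit 1) (.e (nat_lit 294111) (nat_lit 0) .nil) .nil)))))) 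
(.nd (nat_lit 7) (.nd (nat_lit 8) (.nd (nat_lit 9) 
(.lf (nat_lit 548948) (.g (nat_lit 2158) (.e (nat_lit 294974) (nat_lit 29) (.e (nat_lit 442395) (nat_lit 20) (.e (nat_lit 3402) (nat_lit 211) (.e (nat_lit 647183) (nat_lit 4) (.e (nat_lit 172082) (nat_lit 7) (.e (nat_lit 409642) (nat_lit 17) .nil)))))) (.g (nat_lit 1) (.e (nat_lit 290834) (nat_lit 0) .nil) .nil))) 
(.lf (nat_lit 549460) (.g (nat_lit 3882) (.e (nat_lit 409646) (nat_lit 18) (.e (nat_lit 303112) (nat_lit 0) (.e (nat_lit 3252) (nat_lit 197) (.e (nat_lit 532535) (nat_lit 9) (.e (nat_lit 336099) (nat_lit 9) (.e (nat_lit 336013) (nat_lit 2) (.e (nat_lit 98048) (nat_lit 9) (.e (nat_lit 2822) (nat_lit 182) .nil)))))))) (.g (nat_lit 1) (.e (nat_lit 292770) (nat_lit 0) .nil) .nil)))) (.nd (nat_lit 9) 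
(.lf (nat_lit 549204) (.g (nat_lit 943) (.e (nat_lit 409638) (nat_lit 15) (.e (nat_lit 278566) (nat_lit 16) (.e (nat_lit 286755) (nat_lit 10) (.e (nat_lit 344157) (nat_lit 36) (.e (nat_lit 638999) (nat_lit 8) (.e (nat_lit 172081) (nat_lit 7) .nil)))))) (.g (nat_lit 1) (.e (nat_lit 291726) (nat_lit 0) .nil) .nil))) 
(.lf (nat_lit 549716) (.g (nat_lit 498) (.e (nat_lit 409649) (nat_lit 18) (.e (nat_lit 303111) (nat_lit 0) (.e (nat_lit 3252) (nat_lit 197) .nil))) (.g (nat_lit 0) (.e (nat_lit 294010) (nat_lit 0) .nil) .nil))))) (.nd (nat_lit 8) (.nd (nat_lit 9) 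
(.lf (nat_lit 549076) (.g (nat_lit 2102) (.e (nat_lit 409616) (nat_lit 10) (.e (nat_lit 632) (nat_lit 50) (.e (nat_lit 573484) (nat_lit 13) (.e (nat_lit 65617) (nat_lit 10) .nil)))) (.g (nat_lit 0) (.e (nat_lit 291364) (nat_lit 0) .nil) .nil))) 
(.lf (nat_lit 549588) (.g (nat_lit 2928) (.e (nat_lit 409647) (nat_lit 18) (.e (nat_lit 303119) (nat_lit 3) (.e (nat_lit 204869) (nat_lit 29) (.e (nat_lit 360466) (nat_lit 3) (.e (nat_lit 516139) (nat_lit 7) .nil))))) (.g (nat_lit 0) (.e (nat_lit 293531) (nat_lit 0) .nil) .nil)))) (.nd (nat_lit 9) 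
(.lf (nat_lit 549332) (.g (nat_lit 2074) (.e (nat_lit 409644) (nat_lit 18) (.e (nat_lit 303119) (nat_lit 3) (.e (nat_lit 204846) (nat_lit 24) (.e (nat_lit 319490) (nat_lit 0) (.e (nat_lit 5389) (nat_lit 301) .nil))))) (.g (nat_lit 0) (.e (nat_lit 291969) (nat_lit 0) .nil) .nil))) 
(.lf (nat_lit 549844) (.g (nat_lit 1332) (.e (nat_lit 417536) (nat_lit 18) (.e (nat_lit 303112) (nat_lit 0) (.e (nat_lit 3252) (nat_lit 197) (.e (nat_lit 532560) (nat_lit 14) (.e (nat_lit 376855) (nat_lit 20) .nil))))) (.g (nat_lit 0) (.e (nat_lit 294506) (nat_lit 0) .nil) .nil))))))) (.nd (nat_lit 6) (.nd (nat_lit 7) (.nd (nat_lit 8) (.nd (nat_lit 9) 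
(.lf (nat_lit 548916) (.g (nat_lit 1417) (.e (nat_lit 294969) (nat_lit 27) (.e (nat_lit 426340) (nat_lit 14) (.e (nat_lit 491550) (nat_lit 9) (.e (nat_lit 336421) (nat_lit 28) (.e (nat_lit 434193) (nat_lit 13) (.e (nat_lit 2788) (nat_lit 179) .nil)))))) (.g (nat_lit 1) (.e (nat_lit 290736) (nat_lit 0) .nil) .nil))) 
(.lf (nat_lit 549428) (.g (nat_lit 2180) (.e (nat_lit 409645) (nat_lit 18) (.e (nat_lit 303135) (nat_lit 10) (.e (nat_lit 434275) (nat_lit 39) (.e (nat_lit 663584) (nat_lit 12) (.e (nat_lit 164020) (nat_lit 45) (.e (nat_lit 696344) (nat_lit 8) (.e (nat_lit 172079) (nat_lit 7) .nil))))))) (.g (nat_lit 1) (.e (nat_lit 292434) (nat_lit 0) .nil) .nil)))) (.nd (nat_lit 9) 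
(.lf (nat_lit 549172) (.g (nat_lit 1291) (.e (nat_lit 409623) (nat_lit 10) (.e (nat_lit 5389) (nat_lit 301) (.e (nat_lit 57575) (nat_lit 55) (.e (nat_lit 778463) (nat_lit 11) .nil)))) (.g (nat_lit 0) (.e (nat_lit 291629) (nat_lit 0) .nil) .nil))) 
(.lf (nat_lit 549684) (.g (nat_lit 1619) (.e (nat_lit 409648) (nat_lit 18) (.e (nat_lit 303137) (nat_lit 10) (.e (nat_lit 434275) (nat_lit 39) (.e (nat_lit 663580) (nat_lit 9) (.e (nat_lit 2610) (nat_lit 163) .nil))))) (.g (nat_lit 0) (.e (nat_lit 293812) (nat_lit 0) .nil) .nil))))) (.nd (nat_lit 8) (.nd (nat_lit 9) 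
(.lf (nat_lit 549044) (.g (nat_lit 2223) (.e (nat_lit 409611) (nat_lit 10) (.e (nat_lit 632) (nat_lit 50) (.e (nat_lit 573491) (nat_lit 15) (.e (nat_lit 81938) (nat_lit 20) (.e (nat_lit 2391) (nat_lit 156) .nil))))) (.g (nat_lit 0) (.e (nat_lit 291217) (nat_lit 0) .nil) .nil))) 
(.lf (nat_lit 549556) (.g (nat_lit 2020) (.e (nat_lit 409647) (nat_lit 18) (.e (nat_lit 303117) (nat_lit 2) (.e (nat_lit 196666) (nat_lit 13) (.e (nat_lit 65596) (nat_lit 9) (.e (nat_lit 335886) (nat_lit 0) .nil))))) (.g (nat_lit 0) (.e (nat_lit 293477) (nat_lit 0) .nil) .nil)))) (.nd (nat_lit 9) 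
(.lf (nat_lit 549300) (.g (nat_lit 969) (.e (nat_lit 409643) (nat_lit 18) (.e (nat_lit 303143) (nat_lit 12) (.e (nat_lit 475220) (nat_lit 44) (.e (nat_lit 745216) (nat_lit 15) .nil)))) (.g (nat_lit 0) (.e (nat_lit 291849) (nat_lit 0) .nil) .nil))) 
(.lf (nat_lit 549812) (.g (nat_lit 2806) (.e (nat_lit 409649) (nat_lit 18) (.e (nat_lit 303140) (nat_lit 10) (.e (nat_lit 434275) (nat_lit 39) (.e (nat_lit 663580) (nat_lit 9) (.e (nat_lit 2478) (nat_lit 157) (.e (nat_lit 7936) (nat_lit 218) (.e (nat_lit 704736) (nat_lit 11) (.e (nat_lit 16425) (nat_lit 7) .nil)))))))) (.g (nat_lit 1) (.e (nat_lit 294289) (nat_lit 0) .nil) .nil)))))) 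
(.nd (nat_lit 7) (.nd (nat_lit 8) (.nd (nat_lit 9) 
(.lf (nat_lit 548980) (.g (nat_lit 2005) (.e (nat_lit 409602) (nat_lit 0) (.e (nat_lit 5293) (nat_lit 298) (.e (nat_lit 1656) (nat_lit 115) (.e (nat_lit 393276) (nat_lit 23) (.e (nat_lit 426144) (nat_lit 4) .nil))))) (.g (nat_lit 0) (.e (nat_lit 291105) (nat_lit 0) .nil) .nil))) 
(.lf (nat_lit 549492) (.g (nat_lit 3800) (.e (nat_lit 409646) (nat_lit 18) (.e (nat_lit 303119) (nat_lit 3) (.e (nat_lit 204855) (nat_lit 26) (.e (nat_lit 336073) (nat_lit 9) (.e (nat_lit 336028) (nat_lit 3) (.e (nat_lit 98349) (nat_lit 24) .nil)))))) (.g (nat_lit 1) (.e (nat_lit 292861) (nat_lit 0) .nil) .nil)))) (.nd (nat_lit 9) 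
(.lf (nat_lit 549236) (.g (nat_lit 2451) (.e (nat_lit 409643) (nat_lit 18) (.e (nat_lit 303117) (nat_lit 2) (.e (nat_lit 196666) (nat_lit 13) (.e (nat_lit 65614) (nat_lit 10) .nil)))) (.g (nat_lit 0) (.e (nat_lit 291770) (nat_lit 0) .nil) .nil))) 
(.lf (nat_lit 549748) (.g (nat_lit 1554) (.e (nat_lit 409649) (nat_lit 18) (.e (nat_lit 303117) (nat_lit 2) (.e (nat_lit 196668) (nat_lit 14) (.e (nat_lit 73784) (nat_lit 40) .nil)))) (.g (nat_lit 0) (.e (nat_lit 294063) (nat_lit 0) .nil) .nil))))) (.nd (nat_lit 8) (.nd (nat_lit 9) 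
(.lf (nat_lit 549108) (.g (nat_lit 2819) (.e (nat_lit 409617) (nat_lit 10) (.e (nat_lit 632) (nat_lit 50) (.e (nat_lit 573482) (nat_lit 13) (.e (nat_lit 65619) (nat_lit 10) (.e (nat_lit 344183) (nat_lit 49) (.e (nat_lit 819219) (nat_lit 4) (.e (nat_lit 172081) (nat_lit 7) .nil))))))) (.g (nat_lit 1) (.e (nat_lit 291442) (nat_lit 0) .nil) .nil))) 
(.lf (nat_lit 549620) (.g (nat_lit 3255) (.e (nat_lit 409648) (nat_lit 18) (.e (nat_lit 303117) (nat_lit 2) (.e (nat_lit 196666) (nat_lit 13) (.e (nat_lit 65593) (nat_lit 9) .nil)))) (.g (nat_lit 0) (.e (nat_lit 293645) (nat_lit 0) .nil) .nil)))) (.nd (nat_lit 9) 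
(.lf (nat_lit 549364) (.g (nat_lit 925) (.e (nat_lit 409644) (nat_lit 18) (.e (nat_lit 303143) (nat_lit 12) (.e (nat_lit 475212) (nat_lit 42) (.e (nat_lit 720956) (nat_lit 25) .nil)))) (.g (nat_lit 0) (.e (nat_lit 292017) (nat_lit 0) .nil) .nil))) 
(.lf (nat_lit 549876) (.g (nat_lit 725) (.e (nat_lit 417536) (nat_lit 18) (.e (nat_lit 303119) (nat_lit 3) (.e (nat_lit 204821) (nat_lit 17) .nil))) (.g (nat_lit 0) (.e (nat_lit 294548) (nat_lit 0) .nil) .nil))))))))) (.nd (nat_lit 4) (.nd (nat_lit 5) (.nd (nat_lit 6) (.nd (nat_lit 7) (.nd (nat_lit 8) (.nd (nat_lit 9) 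
(.lf (nat_lit 548876) (.g (nat_lit 2061) (.e (nat_lit 294941) (nat_lit 9) (.e (nat_lit 336369) (nat_lit 27) (.e (nat_lit 426173) (nat_lit 7) (.e (nat_lit 409649) (nat_lit 18) (.e (nat_lit 303111) (nat_lit 0) (.e (nat_lit 3468) (nat_lit 217) (.e (nat_lit 696323) (nat_lit 0) (.e (nat_lit 2783) (nat_lit 179) .nil)))))))) (.g (nat_lit 1) (.e (nat_lit 290542) (nat_lit 0) .nil) .nil))) 
(.lf (nat_lit 549388) (.g (nat_lit 3103) (.e (nat_lit 409645) (nat_lit 18) (.e (nat_lit 303117) (nat_lit 2) (.e (nat_lit 196673) (nat_lit 15) (.e (nat_lit 81956) (nat_lit 23) (.e (nat_lit 106240) (nat_lit 24) .nil))))) (.g (nat_lit 1) (.e (nat_lit 292113) (nat_lit 0) .nil) .nil)))) (.nd (nat_lit 9) 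
(.lf (nat_lit 549132) (.g (nat_lit 408) (.e (nat_lit 409617) (nat_lit 10) (.e (nat_lit 632) (nat_lit 50) (.e (nat_lit 573491) (nat_lit 15) .nil))) (.g (nat_lit 0) (.e (nat_lit 291478) (nat_lit 0) .nil) .nil))) 
(.lf (nat_lit 549644) (.g (nat_lit 4015) (.e (nat_lit 409648) (nat_lit 18) (.e (nat_lit 303118) (nat_lit 3) (.e (nat_lit 204866) (nat_lit 28) (.e (nat_lit 352313) (nat_lit 23) (.e (nat_lit 98350) (nat_lit 24) .nil))))) (.g (nat_lit 1) (.e (nat_lit 293682) (nat_lit 0) .nil) .nil))))) (.nd (nat_lit 8) (.nd (nat_lit 9) 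
(.lf (nat_lit 549004) (.g (nat_lit 382) (.e (nat_lit 409603) (nat_lit 0) (.e (nat_lit 5293) (nat_lit 298) (.e (nat_lit 1423) (nat_lit 108) .nil))) (.g (nat_lit 0) (.e (nat_lit 291137) (nat_lit 0) .nil) .nil))) 
(.lf (nat_lit 549516) (.g (nat_lit 2184) (.e (nat_lit 409646) (nat_lit 18) (.e (nat_lit 303140) (nat_lit 10) (.e (nat_lit 434275) (nat_lit 39) (.e (nat_lit 663574) (nat_lit 9) (.e (nat_lit 2473) (nat_lit 157) .nil))))) (.g (nat_lit 0) (.e (nat_lit 293159) (nat_lit 0) .nil) .nil)))) (.nd (nat_lit 9) 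
(.lf (nat_lit 549260) (.g (nat_lit 1726) (.e (nat_lit 409643) (nat_lit 18) (.e (nat_lit 303119) (nat_lit 3) (.e (nat_lit 204852) (nat_lit 26) (.e (nat_lit 336130) (nat_lit 9) .nil)))) (.g (nat_lit 0) (.e (nat_lit 291795) (nat_lit 0) .nil) .nil))) 
(.lf (nat_lit 549772) (.g (nat_lit 607) (.e (nat_lit 409649) (nat_lit 18) (.e (nat_lit 303119) (nat_lit 3) (.e (nat_lit 204821) (nat_lit 17) .nil))) (.g (nat_lit 0) (.e (nat_lit 294100) (nat_lit 0) .nil) .nil)))))) (.nd (nat_lit 7) (.nd (nat_lit 8) (.nd (nat_lit 9) 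
(.lf (nat_lit 548940) (.g (nat_lit 1577) (.e (nat_lit 294973) (nat_lit 28) (.e (nat_lit 434181) (nat_lit 0) (.e (nat_lit 1428) (nat_lit 108) (.e (nat_lit 336421) (nat_lit 28) (.e (nat_lit 434192) (nat_lit 13) .nil))))) (.g (nat_lit 0) (.e (nat_lit 290790) (nat_lit 0) .nil) .nil))) 
(.lf (nat_lit 549452) (.g (nat_lit 2208) (.e (nat_lit 409645) (nat_lit 18) (.e (nat_lit 303143) (nat_lit 12) (.e (nat_lit 475199) (nat_lit 40) (.e (nat_lit 704852) (nat_lit 17) .nil)))) (.g (nat_lit 0) (.e (nat_lit 292537) (nat_lit 0) .nil) .nil)))) (.nd (nat_lit 9) 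
(.lf (nat_lit 549196) (.g (nat_lit 1280) (.e (nat_lit 409638) (nat_lit 15) (.e (nat_lit 278566) (nat_lit 16) (.e (nat_lit 286753) (nat_lit 10) (.e (nat_lit 344157) (nat_lit 36) (.e (nat_lit 638999) (nat_lit 8) (.e (nat_lit 172081) (nat_lit 7) .nil)))))) (.g (nat_lit 1) (.e (nat_lit 291718) (nat_lit 0) .nil) .nil))) 
(.lf (nat_lit 549708) (.g (nat_lit 6071) (.e (nat_lit 409649) (nat_lit 18) (.e (nat_lit 303111) (nat_lit 0) (.e (nat_lit 3230) (nat_lit 197) (.e (nat_lit 532535) (nat_lit 9) (.e (nat_lit 336099) (nat_lit 9) (.e (nat_lit 336013) (nat_lit 2) (.e (nat_lit 90130) (nat_lit 9) (.e (nat_lit 2830) (nat_lit 182) .nil)))))))) (.g (nat_lit 1) (.e (nat_lit 293998) (nat_lit 0) .nil) .nil))))) 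
(.nd (nat_lit 8) (.nd (nat_lit 9) 
(.lf (nat_lit 549068) (.g (nat_lit 2256) (.e (nat_lit 409615) (nat_lit 10) (.e (nat_lit 632) (nat_lit 50) (.e (nat_lit 573489) (nat_lit 14) (.e (nat_lit 73755) (nat_lit 8) (.e (nat_lit 557105) (nat_lit 14) .nil))))) (.g (nat_lit 0) (.e (nat_lit 291339) (nat_lit 0) .nil) .nil))) 
(.lf (nat_lit 549580) (.g (nat_lit 1651) (.e (nat_lit 409647) (nat_lit 18) (.e (nat_lit 303118) (nat_lit 3) (.e (nat_lit 204868) (nat_lit 29) (.e (nat_lit 360465) (nat_lit 3) (.e (nat_lit 516139) (nat_lit 7) .nil))))) (.g (nat_lit 0) (.e (nat_lit 293510) (nat_lit 0) .nil) .nil)))) (.nd (nat_lit 9) 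
(.lf (nat_lit 549324) (.g (nat_lit 3804) (.e (nat_lit 409644) (nat_lit 18) (.e (nat_lit 303117) (nat_lit 2) (.e (nat_lit 196674) (nat_lit 15) (.e (nat_lit 81953) (nat_lit 22) (.e (nat_lit 90130) (nat_lit 9) .nil))))) (.g (nat_lit 0) (.e (nat_lit 291960) (nat_lit 0) .nil) .nil))) 
(.lf (nat_lit 549836) (.g (nat_lit 1009) (.e (nat_lit 409649) (nat_lit 18) (.e (nat_lit 303143) (nat_lit 12) (.e (nat_lit 475220) (nat_lit 44) (.e (nat_lit 745216) (nat_lit 15) .nil)))) (.g (nat_lit 0) (.e (nat_lit 294387) (nat_lit 0) .nil) .nil))))))) (.nd (nat_lit 6) (.nd (nat_lit 7) (.nd (nat_lit 8) (.nd (nat_lit 9) 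
(.lf (nat_lit 548908) (.g (nat_lit 1663) (.e (nat_lit 294969) (nat_lit 27) (.e (nat_lit 426340) (nat_lit 14) (.e (nat_lit 491549) (nat_lit 9) (.e (nat_lit 336421) (nat_lit 28) (.e (nat_lit 434189) (nat_lit 13) (.e (nat_lit 2786) (nat_lit 179) .nil)))))) (.g (nat_lit 1) (.e (nat_lit 290728) (nat_lit 0) .nil) .nil))) 
(.lf (nat_lit 549420) (.g (nat_lit 3149) (.e (nat_lit 409645) (nat_lit 18) (.e (nat_lit 303119) (nat_lit 3) (.e (nat_lit 204877) (nat_lit 31) (.e (nat_lit 376865) (nat_lit 22) (.e (nat_lit 90128) (nat_lit 9) (.e (nat_lit 7936) (nat_lit 182) .nil)))))) (.g (nat_lit 1) (.e (nat_lit 292293) (nat_lit 0) .nil) .nil)))) (.nd (nat_lit 9) 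
(.lf (nat_lit 549164) (.g (nat_lit 1092) (.e (nat_lit 409623) (nat_lit 10) (.e (nat_lit 5664) (nat_lit 312) (.e (nat_lit 2679) (nat_lit 168) (.e (nat_lit 204876) (nat_lit 31) .nil)))) (.g (nat_lit 0) (.e (nat_lit 291592) (nat_lit 0) .nil) .nil))) 
(.lf (nat_lit 549676) (.g (nat_lit 852) (.e (nat_lit 409648) (nat_lit 18) (.e (nat_lit 303137) (nat_lit 10) (.e (nat_lit 434275) (nat_lit 39) (.e (nat_lit 663574) (nat_lit 9) .nil)))) (.g (nat_lit 0) (.e (nat_lit 293767) (nat_lit 0) .nil) .nil))))) (.nd (nat_lit 8) (.nd (nat_lit 9) 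
(.lf (nat_lit 549036) (.g (nat_lit 978) (.e (nat_lit 409609) (nat_lit 10) (.e (nat_lit 848) (nat_lit 73) (.e (nat_lit 761898) (nat_lit 15) (.e (nat_lit 171776) (nat_lit 206) .nil)))) (.g (nat_lit 0) (.e (nat_lit 291198) (nat_lit 0) .nil) .nil))) 
(.lf (nat_lit 549548) (.g (nat_lit 714) (.e (nat_lit 409647) (nat_lit 18) (.e (nat_lit 303108) (nat_lit 0) (.e (nat_lit 3579) (nat_lit 223) (.e (nat_lit 745509) (nat_lit 11) .nil)))) (.g (nat_lit 0) (.e (nat_lit 293468) (nat_lit 0) .nil) .nil)))) (.nd (nat_lit 9) 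
(.lf (nat_lit 549292) (.g (nat_lit 2426) (.e (nat_lit 409643) (nat_lit 18) (.e (nat_lit 303143) (nat_lit 12) (.e (nat_lit 475199) (nat_lit 40) (.e (nat_lit 704796) (nat_lit 14) .nil)))) (.g (nat_lit 0) (.e (nat_lit 291838) (nat_lit 0) .nil) .nil))) 
(.lf (nat_lit 549804) (.g (nat_lit 3070) (.e (nat_lit 409649) (nat_lit 18) (.e (nat_lit 303140) (nat_lit 10) (.e (nat_lit 434275) (nat_lit 39) (.e (nat_lit 663574) (nat_lit 9) (.e (nat_lit 2470) (nat_lit 157) (.e (nat_lit 3469) (nat_lit 217) (.e (nat_lit 696344) (nat_lit 8) (.e (nat_lit 172082) (nat_lit 7) .nil)))))))) (.g (nat_lit 1) (.e (nat_lit 294262) (nat_lit 0) .nil) .nil)))))) 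
(.nd (nat_lit 7) (.nd (nat_lit 8) (.nd (nat_lit 9) 
(.lf (nat_lit 548972) (.g (nat_lit 1808) (.e (nat_lit 409602) (nat_lit 0) (.e (nat_lit 5293) (nat_lit 298) (.e (nat_lit 1656) (nat_lit 115) (.e (nat_lit 393264) (nat_lit 22) (.e (nat_lit 417800) (nat_lit 0) .nil))))) (.g (nat_lit 0) (.e (nat_lit 291097) (nat_lit 0) .nil) .nil))) 
(.lf (nat_lit 549484) (.g (nat_lit 2772) (.e (nat_lit 409646) (nat_lit 18) (.e (nat_lit 303117) (nat_lit 2) (.e (nat_lit 196674) (nat_lit 15) (.e (nat_lit 81956) (nat_lit 23) (.e (nat_lit 106240) (nat_lit 24) .nil))))) (.g (nat_lit 0) (.e (nat_lit 292837) (nat_lit 0) .nil) .nil)))) (.nd (nat_lit 9) 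
(.lf (nat_lit 549228) (.g (nat_lit 1098) (.e (nat_lit 409643) (nat_lit 18) (.e (nat_lit 303117) (nat_lit 2) (.e (nat_lit 196665) (nat_lit 13) (.e (nat_lit 65608) (nat_lit 9) .nil)))) (.g (nat_lit 0) (.e (nat_lit 291762) (nat_lit 0) .nil) .nil))) 
(.lf (nat_lit 549740) (.g (nat_lit 1133) (.e (nat_lit 409649) (nat_lit 18) (.e (nat_lit 303117) (nat_lit 2) (.e (nat_lit 196666) (nat_lit 13) (.e (nat_lit 65596) (nat_lit 9) .nil)))) (.g (nat_lit 0) (.e (nat_lit 294051) (nat_lit 0) .nil) .nil))))) (.nd (nat_lit 8) (.nd (nat_lit 9) 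
(.lf (nat_lit 549100) (.g (nat_lit 2442) (.e (nat_lit 409616) (nat_lit 10) (.e (nat_lit 632) (nat_lit 50) (.e (nat_lit 573493) (nat_lit 15) (.e (nat_lit 81959) (nat_lit 24) (.e (nat_lit 123047) (nat_lit 146) .nil))))) (.g (nat_lit 0) (.e (nat_lit 291407) (nat_lit 0) .nil) .nil))) 
(.lf (nat_lit 549612) (.g (nat_lit 2164) (.e (nat_lit 409648) (nat_lit 18) (.e (nat_lit 303116) (nat_lit 2) (.e (nat_lit 196666) (nat_lit 13) (.e (nat_lit 65620) (nat_lit 10) .nil)))) (.g (nat_lit 0) (.e (nat_lit 293636) (nat_lit 0) .nil) .nil)))) (.nd (nat_lit 9) 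
(.lf (nat_lit 549356) (.g (nat_lit 641) (.e (nat_lit 409644) (nat_lit 18) (.e (nat_lit 303119) (nat_lit 3) (.e (nat_lit 212736) (nat_lit 29) .nil))) (.g (nat_lit 0) (.e (nat_lit 292000) (nat_lit 0) .nil) .nil))) 
(.lf (nat_lit 549868) (.g (nat_lit 1820) (.e (nat_lit 417536) (nat_lit 18) (.e (nat_lit 303117) (nat_lit 2) (.e (nat_lit 196674) (nat_lit 15) (.e (nat_lit 81960) (nat_lit 25) .nil)))) (.g (nat_lit 0) (.e (nat_lit 294531) (nat_lit 0) .nil) .nil)))))))) (.nd (nat_lit 5) (.nd (nat_lit 6) (.nd (nat_lit 7) (.nd (nat_lit 8) (.nd (nat_lit 9) 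
(.lf (nat_lit 548892) (.g (nat_lit 797) (.e (nat_lit 294955) (nat_lit 12) (.e (nat_lit 385074) (nat_lit 31) (.e (nat_lit 573493) (nat_lit 15) .nil))) (.g (nat_lit 0) (.e (nat_lit 290584) (nat_lit 0) .nil) .nil))) 
(.lf (nat_lit 549404) (.g (nat_lit 1889) (.e (nat_lit 409645) (nat_lit 18) (.e (nat_lit 303119) (nat_lit 3) (.e (nat_lit 204854) (nat_lit 26) (.e (nat_lit 336182) (nat_lit 11) .nil)))) (.g (nat_lit 0) (.e (nat_lit 292160) (nat_lit 0) .nil) .nil)))) (.nd (nat_lit 9) 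
(.lf (nat_lit 549148) (.g (nat_lit 2194) (.e (nat_lit 409617) (nat_lit 10) (.e (nat_lit 858) (nat_lit 75) (.e (nat_lit 778327) (nat_lit 6) (.e (nat_lit 81953) (nat_lit 22) (.e (nat_lit 98048) (nat_lit 0) (.e (nat_lit 375) (nat_lit 32) (.e (nat_lit 426173) (nat_lit 7) .nil))))))) (.g (nat_lit 1) (.e (nat_lit 291554) (nat_lit 0) .nil) .nil))) 
(.lf (nat_lit 549660) (.g (nat_lit 1788) (.e (nat_lit 409648) (nat_lit 18) (.e (nat_lit 303119) (nat_lit 3) (.e (nat_lit 204859) (nat_lit 26) (.e (nat_lit 335872) (nat_lit 0) .nil)))) (.g (nat_lit 0) (.e (nat_lit 293704) (nat_lit 0) .nil) .nil))))) (.nd (nat_lit 8) (.nd (nat_lit 9) 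
(.lf (nat_lit 549020) (.g (nat_lit 2054) (.e (nat_lit 417536) (nat_lit 8) (.e (nat_lit 303118) (nat_lit 3) (.e (nat_lit 204846) (nat_lit 24) (.e (nat_lit 319534) (nat_lit 16) (.e (nat_lit 286735) (nat_lit 3) .nil))))) (.g (nat_lit 0) (.e (nat_lit 291175) (nat_lit 0) .nil) .nil))) 
(.lf (nat_lit 549532) (.g (nat_lit 1978) (.e (nat_lit 409646) (nat_lit 18) (.e (nat_lit 303143) (nat_lit 12) (.e (nat_lit 475199) (nat_lit 40) (.e (nat_lit 704757) (nat_lit 12) .nil)))) (.g (nat_lit 0) (.e (nat_lit 293269) (nat_lit 0) .nil) .nil)))) (.nd (nat_lit 9) 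
(.lf (nat_lit 549276) (.g (nat_lit 2556) (.e (nat_lit 409643) (nat_lit 18) (.e (nat_lit 303119) (nat_lit 3) (.e (nat_lit 204869) (nat_lit 29) (.e (nat_lit 360466) (nat_lit 3) .nil)))) (.g (nat_lit 0) (.e (nat_lit 291820) (nat_lit 0) .nil) .nil))) 
(.lf (nat_lit 549788) (.g (nat_lit 372) (.e (nat_lit 409649) (nat_lit 18) (.e (nat_lit 303127) (nat_lit 9) (.e (nat_lit 426449) (nat_lit 20) .nil))) (.g (nat_lit 0) (.e (nat_lit 294145) (nat_lit 0) .nil) .nil)))))) (.nd (nat_lit 7) (.nd (nat_lit 8) (.nd (nat_lit 9) 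
(.lf (nat_lit 548956) (.g (nat_lit 906) (.e (nat_lit 302848) (nat_lit 32) (.e (nat_lit 466947) (nat_lit 0) (.e (nat_lit 2059) (nat_lit 142) (.e (nat_lit 704595) (nat_lit 5) .nil)))) (.g (nat_lit 0) (.e (nat_lit 291070) (nat_lit 0) .nil) .nil))) 
(.lf (nat_lit 549468) (.g (nat_lit 1957) (.e (nat_lit 409646) (nat_lit 18) (.e (nat_lit 303116) (nat_lit 2) (.e (nat_lit 196681) (nat_lit 17) (.e (nat_lit 131104) (nat_lit 9) .nil)))) (.g (nat_lit 0) (.e (nat_lit 292803) (nat_lit 0) .nil) .nil)))) (.nd (nat_lit 9) 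
(.lf (nat_lit 549212) (.g (nat_lit 678) (.e (nat_lit 409639) (nat_lit 15) (.e (nat_lit 278566) (nat_lit 16) (.e (nat_lit 286753) (nat_lit 10) (.e (nat_lit 344154) (nat_lit 35) (.e (nat_lit 630802) (nat_lit 8) (.e (nat_lit 172081) (nat_lit 7) .nil)))))) (.g (nat_lit 1) (.e (nat_lit 291746) (nat_lit 0) .nil) .nil))) 
(.lf (nat_lit 549724) (.g (nat_lit 1965) (.e (nat_lit 409649) (nat_lit 18) (.e (nat_lit 303111) (nat_lit 0) (.e (nat_lit 3579) (nat_lit 223) (.e (nat_lit 745509) (nat_lit 11) (.e (nat_lit 24659) (nat_lit 13) .nil))))) (.g (nat_lit 0) (.e (nat_lit 294031) (nat_lit 0) .nil) .nil))))) (.nd (nat_lit 8) (.nd (nat_lit 9) 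
(.lf (nat_lit 549084) (.g (nat_lit 2112) (.e (nat_lit 409616) (nat_lit 10) (.e (nat_lit 632) (nat_lit 50) (.e (nat_lit 573489) (nat_lit 14) (.e (nat_lit 73755) (nat_lit 8) (.e (nat_lit 557105) (nat_lit 14) .nil))))) (.g (nat_lit 0) (.e (nat_lit 291375) (nat_lit 0) .nil) .nil))) 
(.lf (nat_lit 549596) (.g (nat_lit 2076) (.e (nat_lit 409647) (nat_lit 18) (.e (nat_lit 303143) (nat_lit 12) (.e (nat_lit 475199) (nat_lit 40) (.e (nat_lit 704787) (nat_lit 14) .nil)))) (.g (nat_lit 0) (.e (nat_lit 293542) (nat_lit 0) .nil) .nil)))) (.nd (nat_lit 9) 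
(.lf (nat_lit 549340) (.g (nat_lit 1920) (.e (nat_lit 409644) (nat_lit 18) (.e (nat_lit 303119) (nat_lit 3) (.e (nat_lit 204855) (nat_lit 26) (.e (nat_lit 336178) (nat_lit 10) .nil)))) (.g (nat_lit 0) (.e (nat_lit 291978) (nat_lit 0) .nil) .nil))) 
(.lf (nat_lit 549852) (.g (nat_lit 2280) (.e (nat_lit 417536) (nat_lit 18) (.e (nat_lit 303117) (nat_lit 2) (.e (nat_lit 196666) (nat_lit 13) (.e (nat_lit 65609) (nat_lit 10) .nil)))) (.g (nat_lit 0) (.e (nat_lit 294515) (nat_lit 0) .nil) .nil))))))) (.nd (nat_lit 6) (.nd (nat_lit 7) (.nd (nat_lit 8) (.nd (nat_lit 9) 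
(.lf (nat_lit 548924) (.g (nat_lit 1854) (.e (nat_lit 294973) (nat_lit 28) (.e (nat_lit 434180) (nat_lit 0) (.e (nat_lit 1427) (nat_lit 108) (.e (nat_lit 336421) (nat_lit 28) (.e (nat_lit 434188) (nat_lit 13) .nil))))) (.g (nat_lit 0) (.e (nat_lit 290773) (nat_lit 0) .nil) .nil))) 
(.lf (nat_lit 549436) (.g (nat_lit 3534) (.e (nat_lit 409645) (nat_lit 18) (.e (nat_lit 303140) (nat_lit 10) (.e (nat_lit 434275) (nat_lit 39) (.e (nat_lit 663585) (nat_lit 12) (.e (nat_lit 164018) (nat_lit 45) (.e (nat_lit 696344) (nat_lit 8) (.e (nat_lit 172079) (nat_lit 7) .nil))))))) (.g (nat_lit 1) (.e (nat_lit 292452) (nat_lit 0) .nil) .nil)))) (.nd (nat_lit 9) 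
(.lf (nat_lit 549180) (.g (nat_lit 1692) (.e (nat_lit 409631) (nat_lit 12) (.e (nat_lit 32806) (nat_lit 18) (.e (nat_lit 172126) (nat_lit 14) (.e (nat_lit 491540) (nat_lit 3) (.e (nat_lit 98359) (nat_lit 26) .nil))))) (.g (nat_lit 0) (.e (nat_lit 291667) (nat_lit 0) .nil) .nil))) 
(.lf (nat_lit 549692) (.g (nat_lit 2517) (.e (nat_lit 409648) (nat_lit 18) (.e (nat_lit 303137) (nat_lit 10) (.e (nat_lit 434275) (nat_lit 39) (.e (nat_lit 663584) (nat_lit 12) (.e (nat_lit 164021) (nat_lit 46) .nil))))) (.g (nat_lit 0) (.e (nat_lit 293857) (nat_lit 0) .nil) .nil))))) (.nd (nat_lit 8) (.nd (nat_lit 9) 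
(.lf (nat_lit 549052) (.g (nat_lit 1308) (.e (nat_lit 409612) (nat_lit 10) (.e (nat_lit 632) (nat_lit 50) (.e (nat_lit 573487) (nat_lit 14) (.e (nat_lit 81664) (nat_lit 34) .nil)))) (.g (nat_lit 0) (.e (nat_lit 291279) (nat_lit 0) .nil) .nil))) 
(.lf (nat_lit 549564) (.g (nat_lit 3424) (.e (nat_lit 409647) (nat_lit 18) (.e (nat_lit 303117) (nat_lit 2) (.e (nat_lit 196672) (nat_lit 15) (.e (nat_lit 81953) (nat_lit 22) (.e (nat_lit 90130) (nat_lit 9) .nil))))) (.g (nat_lit 0) (.e (nat_lit 293485) (nat_lit 0) .nil) .nil)))) (.nd (nat_lit 9) 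
(.lf (nat_lit 549308) (.g (nat_lit 2102) (.e (nat_lit 409644) (nat_lit 18) (.e (nat_lit 303117) (nat_lit 2) (.e (nat_lit 196666) (nat_lit 13) (.e (nat_lit 65596) (nat_lit 9) .nil)))) (.g (nat_lit 0) (.e (nat_lit 291944) (nat_lit 0) .nil) .nil))) 
(.lf (nat_lit 549820) (.g (nat_lit 2324) (.e (nat_lit 409649) (nat_lit 18) (.e (nat_lit 303143) (nat_lit 12) (.e (nat_lit 475199) (nat_lit 40) (.e (nat_lit 704777) (nat_lit 14) (.e (nat_lit 2587) (nat_lit 162) .nil))))) (.g (nat_lit 0) (.e (nat_lit 294370) (nat_lit 0) .nil) .nil)))))) (.nd (nat_lit 7) (.nd (nat_lit 8) (.nd (nat_lit 9) 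
(.lf (nat_lit 548988) (.g (nat_lit 868) (.e (nat_lit 409603) (nat_lit 0) (.e (nat_lit 5626) (nat_lit 312) (.e (nat_lit 2612) (nat_lit 163) .nil))) (.g (nat_lit 0) (.e (nat_lit 291114) (nat_lit 0) .nil) .nil))) 
(.lf (nat_lit 549500) (.g (nat_lit 4765) (.e (nat_lit 409646) (nat_lit 18) (.e (nat_lit 303119) (nat_lit 3) (.e (nat_lit 204869) (nat_lit 29) (.e (nat_lit 360467) (nat_lit 3) (.e (nat_lit 516139) (nat_lit 7) .nil))))) (.g (nat_lit 1) (.e (nat_lit 292952) (nat_lit 0) .nil) .nil)))) (.nd (nat_lit 9) 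
(.lf (nat_lit 549244) (.g (nat_lit 1352) (.e (nat_lit 409643) (nat_lit 18) (.e (nat_lit 303117) (nat_lit 2) (.e (nat_lit 196674) (nat_lit 15) (.e (nat_lit 81947) (nat_lit 20) .nil)))) (.g (nat_lit 0) (.e (nat_lit 291778) (nat_lit 0) .nil) .nil))) 
(.lf (nat_lit 549756) (.g (nat_lit 2760) (.e (nat_lit 409649) (nat_lit 18) (.e (nat_lit 303117) (nat_lit 2) (.e (nat_lit 196672) (nat_lit 15) (.e (nat_lit 81960) (nat_lit 25) (.e (nat_lit 139289) (nat_lit 9) (.e (nat_lit 2829) (nat_lit 182) .nil)))))) (.g (nat_lit 1) (.e (nat_lit 294071) (nat_lit 0) .nil) .nil))))) (.nd (nat_lit 8) (.nd (nat_lit 9) 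
(.lf (nat_lit 549116) (.g (nat_lit 1264) (.e (nat_lit 409617) (nat_lit 10) (.e (nat_lit 632) (nat_lit 50) (.e (nat_lit 573489) (nat_lit 14) (.e (nat_lit 73755) (nat_lit 8) .nil)))) (.g (nat_lit 0) (.e (nat_lit 291461) (nat_lit 0) .nil) .nil))) 
(.lf (nat_lit 549628) (.g (nat_lit 3416) (.e (nat_lit 409648) (nat_lit 18) (.e (nat_lit 303117) (nat_lit 2) (.e (nat_lit 196666) (nat_lit 13) (.e (nat_lit 65617) (nat_lit 10) (.e (nat_lit 344116) (nat_lit 21) (.e (nat_lit 516139) (nat_lit 7) .nil)))))) (.g (nat_lit 1) (.e (nat_lit 293657) (nat_lit 0) .nil) .nil)))) (.nd (nat_lit 9) 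
(.lf (nat_lit 549372) (.g (nat_lit 815) (.e (nat_lit 409645) (nat_lit 18) (.e (nat_lit 303116) (nat_lit 2) (.e (nat_lit 196674) (nat_lit 15) .nil))) (.g (nat_lit 0) (.e (nat_lit 292077) (nat_lit 0) .nil) .nil))) 
(.lf (nat_lit 549884) (.g (nat_lit 2584) (.e (nat_lit 417536) (nat_lit 18) (.e (nat_lit 303119) (nat_lit 3) (.e (nat_lit 204855) (nat_lit 26) (.e (nat_lit 336099) (nat_lit 9) (.e (nat_lit 336028) (nat_lit 3) .nil))))) (.g (nat_lit 0) (.e (nat_lit 294559) (nat_lit 0) .nil) .nil))))))))))) 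
(.nd (nat_lit 2) (.nd (nat_lit 3) (.nd (nat_lit 4) (.nd (nat_lit 5) (.nd (nat_lit 6) 
(.nd (nat_lit 7) (.nd (nat_lit 8) (.nd (nat_lit 9) 
(.lf (nat_lit 548866) (.g (nat_lit 1432) (.e (nat_lit 294938) (nat_lit 9) (.e (nat_lit 336324) (nat_lit 18) (.e (nat_lit 204838) (nat_lit 20) (.e (nat_lit 122624) (nat_lit 12) .nil)))) (.g (nat_lit 0) (.e (nat_lit 290515) (nat_lit 0) .nil) .nil))) 
(.lf (nat_lit 549378) (.g (nat_lit 3314) (.e (nat_lit 409645) (nat_lit 18) (.e (nat_lit 303117) (nat_lit 2) (.e (nat_lit 196666) (nat_lit 13) (.e (nat_lit 65617) (nat_lit 10) (.e (nat_lit 344116) (nat_lit 21) .nil))))) (.g (nat_lit 0) (.e (nat_lit 292092) (nat_lit 0) .nil) .nil)))) (.nd (nat_lit 9) 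
(.lf (nat_lit 549122) (.g (nat_lit 4502) (.e (nat_lit 409617) (nat_lit 10) (.e (nat_lit 632) (nat_lit 50) (.e (nat_lit 573489) (nat_lit 14) (.e (nat_lit 73755) (nat_lit 8) (.e (nat_lit 557104) (nat_lit 14) (.e (nat_lit 180244) (nat_lit 5) (.e (nat_lit 540416) (nat_lit 24) .nil))))))) (.g (nat_lit 1) (.e (nat_lit 291467) (nat_lit 0) .nil) .nil))) 
(.lf (nat_lit 549634) (.g (nat_lit 2504) (.e (nat_lit 409648) (nat_lit 18) (.e (nat_lit 303117) (nat_lit 2) (.e (nat_lit 196672) (nat_lit 15) (.e (nat_lit 81943) (nat_lit 20) .nil)))) (.g (nat_lit 0) (.e (nat_lit 293664) (nat_lit 0) .nil) .nil))))) (.nd (nat_lit 8) (.nd (nat_lit 9) 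
(.lf (nat_lit 548994) (.g (nat_lit 5304) (.e (nat_lit 409603) (nat_lit 0) (.e (nat_lit 5270) (nat_lit 298) (.e (nat_lit 1239) (nat_lit 91) (.e (nat_lit 90170) (nat_lit 13) (.e (nat_lit 172113) (nat_lit 10) (.e (nat_lit 434248) (nat_lit 28) (.e (nat_lit 573452) (nat_lit 9) (.e (nat_lit 359) (nat_lit 30) .nil)))))))) (.g (nat_lit 1) (.e (nat_lit 291121) (nat_lit 0) .nil) .nil))) 
(.lf (nat_lit 549506) (.g (nat_lit 1887) (.e (nat_lit 409646) (nat_lit 18) (.e (nat_lit 303133) (nat_lit 9) (.e (nat_lit 426412) (nat_lit 15) (.e (nat_lit 2059) (nat_lit 142) (.e (nat_lit 704862) (nat_lit 18) .nil))))) (.g (nat_lit 0) (.e (nat_lit 293056) (nat_lit 0) .nil) .nil)))) (.nd (nat_lit 9) 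
(.lf (nat_lit 549250) (.g (nat_lit 1521) (.e (nat_lit 409643) (nat_lit 18) (.e (nat_lit 303118) (nat_lit 3) (.e (nat_lit 204866) (nat_lit 28) (.e (nat_lit 352313) (nat_lit 23) .nil)))) (.g (nat_lit 0) (.e (nat_lit 291785) (nat_lit 0) .nil) .nil))) 
(.lf (nat_lit 549762) (.g (nat_lit 2024) (.e (nat_lit 409649) (nat_lit 18) (.e (nat_lit 303118) (nat_lit 3) (.e (nat_lit 204852) (nat_lit 26) (.e (nat_lit 336146) (nat_lit 9) (.e (nat_lit 336017) (nat_lit 3) .nil))))) (.g (nat_lit 0) (.e (nat_lit 294077) (nat_lit 0) .nil) .nil)))))) (.nd (nat_lit 7) (.nd (nat_lit 8) (.nd (nat_lit 9) 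
(.lf (nat_lit 548930) (.g (nat_lit 1912) (.e (nat_lit 294973) (nat_lit 28) (.e (nat_lit 434180) (nat_lit 0) (.e (nat_lit 1428) (nat_lit 108) (.e (nat_lit 336421) (nat_lit 28) (.e (nat_lit 434188) (nat_lit 13) (.e (nat_lit 2789) (nat_lit 179) .nil)))))) (.g (nat_lit 1) (.e (nat_lit 290779) (nat_lit 0) .nil) .nil))) 
(.lf (nat_lit 549442) (.g (nat_lit 2466) (.e (nat_lit 409645) (nat_lit 18) (.e (nat_lit 303143) (nat_lit 12) (.e (nat_lit 475199) (nat_lit 40) (.e (nat_lit 704688) (nat_lit 9) .nil)))) (.g (nat_lit 0) (.e (nat_lit 292521) (nat_lit 0) .nil) .nil)))) (.nd (nat_lit 9) 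
(.lf (nat_lit 549186) (.g (nat_lit 1407) (.e (nat_lit 409631) (nat_lit 12) (.e (nat_lit 32807) (nat_lit 18) (.e (nat_lit 172126) (nat_lit 14) (.e (nat_lit 491540) (nat_lit 3) (.e (nat_lit 98354) (nat_lit 26) .nil))))) (.g (nat_lit 0) (.e (nat_lit 291682) (nat_lit 0) .nil) .nil))) 
(.lf (nat_lit 549698) (.g (nat_lit 2418) (.e (nat_lit 409648) (nat_lit 18) (.e (nat_lit 303143) (nat_lit 12) (.e (nat_lit 475199) (nat_lit 40) (.e (nat_lit 704777) (nat_lit 14) .nil)))) (.g (nat_lit 0) (.e (nat_lit 293903) (nat_lit 0) .nil) .nil))))) (.nd (nat_lit 8) (.nd (nat_lit 9) 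
(.lf (nat_lit 549058) (.g (nat_lit 1392) (.e (nat_lit 409612) (nat_lit 10) (.e (nat_lit 632) (nat_lit 50) (.e (nat_lit 573491) (nat_lit 15) (.e (nat_lit 81946) (nat_lit 20) .nil)))) (.g (nat_lit 0) (.e (nat_lit 291288) (nat_lit 0) .nil) .nil))) 
(.lf (nat_lit 549570) (.g (nat_lit 1903) (.e (nat_lit 409647) (nat_lit 18) (.e (nat_lit 303117) (nat_lit 2) (.e (nat_lit 196674) (nat_lit 15) (.e (nat_lit 81947) (nat_lit 20) .nil)))) (.g (nat_lit 0) (.e (nat_lit 293491) (nat_lit 0) .nil) .nil)))) (.nd (nat_lit 9) 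
(.lf (nat_lit 549314) (.g (nat_lit 2446) (.e (nat_lit 409644) (nat_lit 18) (.e (nat_lit 303117) (nat_lit 2) (.e (nat_lit 196666) (nat_lit 13) (.e (nat_lit 65617) (nat_lit 10) .nil)))) (.g (nat_lit 0) (.e (nat_lit 291950) (nat_lit 0) .nil) .nil))) 
(.lf (nat_lit 549826) (.g (nat_lit 2463) (.e (nat_lit 409649) (nat_lit 18) (.e (nat_lit 303143) (nat_lit 12) (.e (nat_lit 475199) (nat_lit 40) (.e (nat_lit 704799) (nat_lit 14) .nil)))) (.g (nat_lit 0) (.e (nat_lit 294376) (nat_lit 0) .nil) .nil))))))) (.nd (nat_lit 6) (.nd (nat_lit 7) (.nd (nat_lit 8) (.nd (nat_lit 9) 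
(.lf (nat_lit 548898) (.g (nat_lit 2606) (.e (nat_lit 294966) (nat_lit 15) (.e (nat_lit 3307) (nat_lit 202) (.e (nat_lit 573485) (nat_lit 13) (.e (nat_lit 65604) (nat_lit 9) (.e (nat_lit 336028) (nat_lit 3) (.e (nat_lit 98325) (nat_lit 17) (.e (nat_lit 7016) (nat_lit 377) (.e (nat_lit 2788) (nat_lit 179) .nil)))))))) (.g (nat_lit 1) (.e (nat_lit 290627) (nat_lit 0) .nil) .nil))) 
(.lf (nat_lit 549410) (.g (nat_lit 2893) (.e (nat_lit 409645) (nat_lit 18) (.e (nat_lit 303119) (nat_lit 3) (.e (nat_lit 204861) (nat_lit 26) (.e (nat_lit 336185) (nat_lit 11) (.e (nat_lit 368676) (nat_lit 21) (.e (nat_lit 524032) (nat_lit 7) .nil)))))) (.g (nat_lit 1) (.e (nat_lit 292177) (nat_lit 0) .nil) .nil)))) (.nd (nat_lit 9) 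
(.lf (nat_lit 549154) (.g (nat_lit 286) (.e (nat_lit 409623) (nat_lit 10) (.e (nat_lit 5664) (nat_lit 312) (.e (nat_lit 2661) (nat_lit 167) .nil))) (.g (nat_lit 0) (.e (nat_lit 291578) (nat_lit 0) .nil) .nil))) 
(.lf (nat_lit 549666) (.g (nat_lit 2798) (.e (nat_lit 409648) (nat_lit 18) (.e (nat_lit 303119) (nat_lit 3) (.e (nat_lit 204863) (nat_lit 27) (.e (nat_lit 344072) (nat_lit 8) .nil)))) (.g (nat_lit 0) (.e (nat_lit 293711) (nat_lit 0) .nil) .nil))))) (.nd (nat_lit 8) (.nd (nat_lit 9) 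
(.lf (nat_lit 549026) (.g (nat_lit 373) (.e (nat_lit 417536) (nat_lit 6) (.e (nat_lit 286743) (nat_lit 9) (.e (nat_lit 336432) (nat_lit 30) .nil))) (.g (nat_lit 0) (.e (nat_lit 291181) (nat_lit 0) .nil) .nil))) 
(.lf (nat_lit 549538) (.g (nat_lit 2372) (.e (nat_lit 409646) (nat_lit 18) (.e (nat_lit 303143) (nat_lit 12) (.e (nat_lit 475199) (nat_lit 40) (.e (nat_lit 704795) (nat_lit 14) .nil)))) (.g (nat_lit 0) (.e (nat_lit 293277) (nat_lit 0) .nil) .nil)))) (.nd (nat_lit 9) 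
(.lf (nat_lit 549282) (.g (nat_lit 1490) (.e (nat_lit 409643) (nat_lit 18) (.e (nat_lit 303119) (nat_lit 3) (.e (nat_lit 204878) (nat_lit 31) (.e (nat_lit 376864) (nat_lit 22) (.e (nat_lit 90130) (nat_lit 9) .nil))))) (.g (nat_lit 0) (.e (nat_lit 291826) (nat_lit 0) .nil) .nil))) 
(.lf (nat_lit 549794) (.g (nat_lit 2728) (.e (nat_lit 409649) (nat_lit 18) (.e (nat_lit 303140) (nat_lit 10) (.e (nat_lit 434275) (nat_lit 39) (.e (nat_lit 663574) (nat_lit 9) (.e (nat_lit 2457) (nat_lit 157) (.e (nat_lit 3467) (nat_lit 217) (.e (nat_lit 696344) (nat_lit 8) (.e (nat_lit 172082) (nat_lit 7) .nil)))))))) (.g (nat_lit 1) (.e (nat_lit 294249) (nat_lit 0) .nil) .nil)))))) 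
(.nd (nat_lit 7) (.nd (nat_lit 8) (.nd (nat_lit 9) 
(.lf (nat_lit 548962) (.g (nat_lit 2774) (.e (nat_lit 409602) (nat_lit 0) (.e (nat_lit 5270) (nat_lit 298) (.e (nat_lit 1239) (nat_lit 91) (.e (nat_lit 90170) (nat_lit 13) (.e (nat_lit 172113) (nat_lit 10) (.e (nat_lit 434245) (nat_lit 28) (.e (nat_lit 573450) (nat_lit 9) (.e (nat_lit 362) (nat_lit 30) .nil)))))))) (.g (nat_lit 1) (.e (nat_lit 291083) (nat_lit 0) .nil) .nil))) 
(.lf (nat_lit 549474) (.g (nat_lit 2068) (.e (nat_lit 409646) (nat_lit 18) (.e (nat_lit 303117) (nat_lit 2) (.e (nat_lit 196666) (nat_lit 13) (.e (nat_lit 65617) (nat_lit 10) .nil)))) (.g (nat_lit 0) (.e (nat_lit 292813) (nat_lit 0) .nil) .nil)))) (.nd (nat_lit 9) 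
(.lf (nat_lit 549218) (.g (nat_lit 1044) (.e (nat_lit 409639) (nat_lit 15) (.e (nat_lit 278566) (nat_lit 16) (.e (nat_lit 286756) (nat_lit 10) (.e (nat_lit 344157) (nat_lit 36) (.e (nat_lit 638999) (nat_lit 8) (.e (nat_lit 172080) (nat_lit 7) .nil)))))) (.g (nat_lit 1) (.e (nat_lit 291752) (nat_lit 0) .nil) .nil))) 
(.lf (nat_lit 549730) (.g (nat_lit 2441) (.e (nat_lit 409649) (nat_lit 18) (.e (nat_lit 303116) (nat_lit 2) (.e (nat_lit 196666) (nat_lit 13) (.e (nat_lit 65610) (nat_lit 10) (.e (nat_lit 344118) (nat_lit 21) (.e (nat_lit 516139) (nat_lit 7) .nil)))))) (.g (nat_lit 1) (.e (nat_lit 294039) (nat_lit 0) .nil) .nil))))) (.nd (nat_lit 8) (.nd (nat_lit 9) 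
(.lf (nat_lit 549090) (.g (nat_lit 3878) (.e (nat_lit 409616) (nat_lit 10) (.e (nat_lit 632) (nat_lit 50) (.e (nat_lit 573489) (nat_lit 14) (.e (nat_lit 73755) (nat_lit 8) (.e (nat_lit 557105) (nat_lit 14) (.e (nat_lit 180252) (nat_lit 10) (.e (nat_lit 581376) (nat_lit 0) (.e (nat_lit 2826) (nat_lit 182) .nil)))))))) (.g (nat_lit 1) (.e (nat_lit 291381) (nat_lit 0) .nil) .nil))) 
(.lf (nat_lit 549602) (.g (nat_lit 2571) (.e (nat_lit 409647) (nat_lit 18) (.e (nat_lit 303143) (nat_lit 12) (.e (nat_lit 475199) (nat_lit 40) (.e (nat_lit 704815) (nat_lit 14) .nil)))) (.g (nat_lit 0) (.e (nat_lit 293548) (nat_lit 0) .nil) .nil)))) (.nd (nat_lit 9) 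
(.lf (nat_lit 549346) (.g (nat_lit 3633) (.e (nat_lit 409644) (nat_lit 18) (.e (nat_lit 303119) (nat_lit 3) (.e (nat_lit 204866) (nat_lit 28) (.e (nat_lit 352315) (nat_lit 23) (.e (nat_lit 98350) (nat_lit 24) .nil))))) (.g (nat_lit 1) (.e (nat_lit 291986) (nat_lit 0) .nil) .nil))) 
(.lf (nat_lit 549858) (.g (nat_lit 1624) (.e (nat_lit 417536) (nat_lit 18) (.e (nat_lit 303117) (nat_lit 2) (.e (nat_lit 196668) (nat_lit 14) (.e (nat_lit 81664) (nat_lit 40) .nil)))) (.g (nat_lit 0) (.e (nat_lit 294521) (nat_lit 0) .nil) .nil)))))))) (.nd (nat_lit 5) (.nd (nat_lit 6) (.nd (nat_lit 7) (.nd (nat_lit 8) (.nd (nat_lit 9) 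
(.lf (nat_lit 548882) (.g (nat_lit 1076) (.e (nat_lit 294953) (nat_lit 12) (.e (nat_lit 385109) (nat_lit 51) (.e (nat_lit 794680) (nat_lit 24) .nil))) (.g (nat_lit 0) (.e (nat_lit 290560) (nat_lit 0) .nil) .nil))) 
(.lf (nat_lit 549394) (.g (nat_lit 4413) (.e (nat_lit 409645) (nat_lit 18) (.e (nat_lit 303117) (nat_lit 2) (.e (nat_lit 196674) (nat_lit 15) (.e (nat_lit 81956) (nat_lit 23) (.e (nat_lit 98350) (nat_lit 24) .nil))))) (.g (nat_lit 1) (.e (nat_lit 292128) (nat_lit 0) .nil) .nil)))) (.nd (nat_lit 9) 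
(.lf (nat_lit 549138) (.g (nat_lit 2823) (.e (nat_lit 409617) (nat_lit 10) (.e (nat_lit 632) (nat_lit 50) (.e (nat_lit 573491) (nat_lit 15) (.e (nat_lit 81947) (nat_lit 20) (.e (nat_lit 2391) (nat_lit 156) (.e (nat_lit 819219) (nat_lit 4) (.e (nat_lit 172081) (nat_lit 7) .nil))))))) (.g (nat_lit 1) (.e (nat_lit 291487) (nat_lit 0) .nil) .nil))) 
(.lf (nat_lit 549650) (.g (nat_lit 2153) (.e (nat_lit 409648) (nat_lit 18) (.e (nat_lit 303119) (nat_lit 3) (.e (nat_lit 204852) (nat_lit 26) (.e (nat_lit 336130) (nat_lit 9) .nil)))) (.g (nat_lit 0) (.e (nat_lit 293691) (nat_lit 0) .nil) .nil))))) (.nd (nat_lit 8) (.nd (nat_lit 9) 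
(.lf (nat_lit 549010) (.g (nat_lit 1272) (.e (nat_lit 409603) (nat_lit 0) (.e (nat_lit 5293) (nat_lit 298) (.e (nat_lit 1649) (nat_lit 115) (.e (nat_lit 393234) (nat_lit 17) (.e (nat_lit 7587) (nat_lit 406) .nil))))) (.g (nat_lit 0) (.e (nat_lit 291145) (nat_lit 0) .nil) .nil))) 
(.lf (nat_lit 549522) (.g (nat_lit 2349) (.e (nat_lit 409646) (nat_lit 18) (.e (nat_lit 303143) (nat_lit 12) (.e (nat_lit 475199) (nat_lit 40) (.e (nat_lit 704584) (nat_lit 1) .nil)))) (.g (nat_lit 0) (.e (nat_lit 293184) (nat_lit 0) .nil) .nil)))) (.nd (nat_lit 9) 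
(.lf (nat_lit 549266) (.g (nat_lit 2647) (.e (nat_lit 409643) (nat_lit 18) (.e (nat_lit 303119) (nat_lit 3) (.e (nat_lit 204855) (nat_lit 26) (.e (nat_lit 336173) (nat_lit 10) (.e (nat_lit 344119) (nat_lit 21) .nil))))) (.g (nat_lit 0) (.e (nat_lit 291802) (nat_lit 0) .nil) .nil))) 
(.lf (nat_lit 549778) (.g (nat_lit 1610) (.e (nat_lit 409649) (nat_lit 18) (.e (nat_lit 303119) (nat_lit 3) (.e (nat_lit 204855) (nat_lit 26) (.e (nat_lit 336178) (nat_lit 10) .nil)))) (.g (nat_lit 0) (.e (nat_lit 294109) (nat_lit 0) .nil) .nil)))))) (.nd (nat_lit 7) (.nd (nat_lit 8) (.nd (nat_lit 9) 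
(.lf (nat_lit 548946) (.g (nat_lit 2089) (.e (nat_lit 294974) (nat_lit 29) (.e (nat_lit 442379) (nat_lit 0) (.e (nat_lit 2059) (nat_lit 142) (.e (nat_lit 704595) (nat_lit 5) (.e (nat_lit 180288) (nat_lit 45) (.e (nat_lit 2788) (nat_lit 179) .nil)))))) (.g (nat_lit 1) (.e (nat_lit 290818) (nat_lit 0) .nil) .nil))) 
(.lf (nat_lit 549458) (.g (nat_lit 8012) (.e (nat_lit 409646) (nat_lit 18) (.e (nat_lit 303112) (nat_lit 0) (.e (nat_lit 3252) (nat_lit 197) (.e (nat_lit 532535) (nat_lit 9) (.e (nat_lit 336099) (nat_lit 9) (.e (nat_lit 336013) (nat_lit 2) (.e (nat_lit 90134) (nat_lit 9) (.e (nat_lit 2822) (nat_lit 182) .nil)))))))) (.g (nat_lit 1) (.e (nat_lit 292768) (nat_lit 0) .nil) .nil)))) (.nd (nat_lit 9) 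
(.lf (nat_lit 549202) (.g (nat_lit 772) (.e (nat_lit 409638) (nat_lit 15) (.e (nat_lit 278566) (nat_lit 16) (.e (nat_lit 286755) (nat_lit 10) (.e (nat_lit 344154) (nat_lit 35) (.e (nat_lit 630802) (nat_lit 8) (.e (nat_lit 172081) (nat_lit 7) .nil)))))) (.g (nat_lit 1) (.e (nat_lit 291724) (nat_lit 0) .nil) .nil))) 
(.lf (nat_lit 549714) (.g (nat_lit 2396) (.e (nat_lit 409649) (nat_lit 18) (.e (nat_lit 303111) (nat_lit 0) (.e (nat_lit 3238) (nat_lit 197) (.e (nat_lit 532560) (nat_lit 14) (.e (nat_lit 376864) (nat_lit 22) (.e (nat_lit 90130) (nat_lit 9) (.e (nat_lit 2830) (nat_lit 182) .nil))))))) (.g (nat_lit 1) (.e (nat_lit 294008) (nat_lit 0) .nil) .nil))))) (.nd (nat_lit 8) (.nd (nat_lit 9) 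
(.lf (nat_lit 549074) (.g (nat_lit 3045) (.e (nat_lit 409616) (nat_lit 10) (.e (nat_lit 632) (nat_lit 50) (.e (nat_lit 573482) (nat_lit 13) (.e (nat_lit 65619) (nat_lit 10) (.e (nat_lit 344090) (nat_lit 18) (.e (nat_lit 7710) (nat_lit 414) (.e (nat_lit 163908) (nat_lit 12) (.e (nat_lit 426171) (nat_lit 7) .nil)))))))) (.g (nat_lit 1) (.e (nat_lit 291360) (nat_lit 0) .nil) .nil))) 
(.lf (nat_lit 549586) (.g (nat_lit 2105) (.e (nat_lit 409647) (nat_lit 18) (.e (nat_lit 303119) (nat_lit 3) (.e (nat_lit 204868) (nat_lit 29) (.e (nat_lit 360465) (nat_lit 3) .nil)))) (.g (nat_lit 0) (.e (nat_lit 293525) (nat_lit 0) .nil) .nil)))) (.nd (nat_lit 9) 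
(.lf (nat_lit 549330) (.g (nat_lit 584) (.e (nat_lit 409644) (nat_lit 18) (.e (nat_lit 303118) (nat_lit 3) (.e (nat_lit 204868) (nat_lit 29) .nil))) (.g (nat_lit 0) (.e (nat_lit 291966) (nat_lit 0) .nil) .nil))) 
(.lf (nat_lit 549842) (.g (nat_lit 2558) (.e (nat_lit 409649) (nat_lit 18) (.e (nat_lit 303146) (nat_lit 14) (.e (nat_lit 491566) (nat_lit 12) (.e (nat_lit 385050) (nat_lit 21) .nil)))) (.g (nat_lit 0) (.e (nat_lit 294500) (nat_lit 0) .nil) .nil))))))) (.nd (nat_lit 6) (.nd (nat_lit 7) (.nd (nat_lit 8) (.nd (nat_lit 9) 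
(.lf (nat_lit 548914) (.g (nat_lit 1389) (.e (nat_lit 294969) (nat_lit 27) (.e (nat_lit 426340) (nat_lit 14) (.e (nat_lit 491550) (nat_lit 9) (.e (nat_lit 336421) (nat_lit 28) (.e (nat_lit 434188) (nat_lit 13) .nil))))) (.g (nat_lit 0) (.e (nat_lit 290734) (nat_lit 0) .nil) .nil))) 
(.lf (nat_lit 549426) (.g (nat_lit 1500) (.e (nat_lit 409645) (nat_lit 18) (.e (nat_lit 303133) (nat_lit 9) (.e (nat_lit 426412) (nat_lit 15) (.e (nat_lit 2221) (nat_lit 146) .nil)))) (.g (nat_lit 0) (.e (nat_lit 292396) (nat_lit 0) .nil) .nil)))) (.nd (nat_lit 9) 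
(.lf (nat_lit 549170) (.g (nat_lit 2126) (.e (nat_lit 409623) (nat_lit 10) (.e (nat_lit 5270) (nat_lit 298) (.e (nat_lit 430) (nat_lit 32) (.e (nat_lit 426344) (nat_lit 14) (.e (nat_lit 491568) (nat_lit 13) .nil))))) (.g (nat_lit 0) (.e (nat_lit 291627) (nat_lit 0) .nil) .nil))) 
(.lf (nat_lit 549682) (.g (nat_lit 2312) (.e (nat_lit 409648) (nat_lit 18) (.e (nat_lit 303137) (nat_lit 10) (.e (nat_lit 434275) (nat_lit 39) (.e (nat_lit 663574) (nat_lit 9) (.e (nat_lit 7936) (nat_lit 174) (.e (nat_lit 253991) (nat_lit 11) (.e (nat_lit 16424) (nat_lit 7) .nil))))))) (.g (nat_lit 1) (.e (nat_lit 293792) (nat_lit 0) .nil) .nil))))) (.nd (nat_lit 8) (.nd (nat_lit 9) 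
(.lf (nat_lit 549042) (.g (nat_lit 2234) (.e (nat_lit 409611) (nat_lit 10) (.e (nat_lit 632) (nat_lit 50) (.e (nat_lit 573489) (nat_lit 14) (.e (nat_lit 73755) (nat_lit 8) (.e (nat_lit 557105) (nat_lit 14) (.e (nat_lit 180252) (nat_lit 10) (.e (nat_lit 581376) (nat_lit 0) (.e (nat_lit 2826) (nat_lit 182) .nil)))))))) (.g (nat_lit 1) (.e (nat_lit 291215) (nat_lit 0) .nil) .nil))) 
(.lf (nat_lit 549554) (.g (nat_lit 2745) (.e (nat_lit 409647) (nat_lit 18) (.e (nat_lit 303117) (nat_lit 2) (.e (nat_lit 196666) (nat_lit 13) (.e (nat_lit 65592) (nat_lit 9) .nil)))) (.g (nat_lit 0) (.e (nat_lit 293475) (nat_lit 0) .nil) .nil)))) (.nd (nat_lit 9) 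
(.lf (nat_lit 549298) (.g (nat_lit 2309) (.e (nat_lit 409643) (nat_lit 18) (.e (nat_lit 303143) (nat_lit 12) (.e (nat_lit 475199) (nat_lit 40) (.e (nat_lit 704816) (nat_lit 14) .nil)))) (.g (nat_lit 0) (.e (nat_lit 291844) (nat_lit 0) .nil) .nil))) 
(.lf (nat_lit 549810) (.g (nat_lit 3239) (.e (nat_lit 409649) (nat_lit 18) (.e (nat_lit 303140) (nat_lit 10) (.e (nat_lit 434275) (nat_lit 39) (.e (nat_lit 663580) (nat_lit 9) (.e (nat_lit 2478) (nat_lit 157) (.e (nat_lit 3464) (nat_lit 217) (.e (nat_lit 696343) (nat_lit 8) (.e (nat_lit 172081) (nat_lit 7) .nil)))))))) (.g (nat_lit 1) (.e (nat_lit 294284) (nat_lit 0) .nil) .nil)))))) 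
(.nd (nat_lit 7) (.nd (nat_lit 8) (.nd (nat_lit 9) 
(.lf (nat_lit 548978) (.g (nat_lit 1449) (.e (nat_lit 409602) (nat_lit 0) (.e (nat_lit 5293) (nat_lit 298) (.e (nat_lit 1656) (nat_lit 115) (.e (nat_lit 393275) (nat_lit 23) (.e (nat_lit 426142) (nat_lit 4) .nil))))) (.g (nat_lit 0) (.e (nat_lit 291103) (nat_lit 0) .nil) .nil))) 
(.lf (nat_lit 549490) (.g (nat_lit 558) (.e (nat_lit 409646) (nat_lit 18) (.e (nat_lit 303119) (nat_lit 3) (.e (nat_lit 204848) (nat_lit 25) .nil))) (.g (nat_lit 0) (.e (nat_lit 292852) (nat_lit 0) .nil) .nil)))) (.nd (nat_lit 9) 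
(.lf (nat_lit 549234) (.g (nat_lit 4441) (.e (nat_lit 409643) (nat_lit 18) (.e (nat_lit 303117) (nat_lit 2) (.e (nat_lit 196666) (nat_lit 13) (.e (nat_lit 65610) (nat_lit 10) (.e (nat_lit 344117) (nat_lit 21) (.e (nat_lit 516139) (nat_lit 7) .nil)))))) (.g (nat_lit 1) (.e (nat_lit 291768) (nat_lit 0) .nil) .nil))) 
(.lf (nat_lit 549746) (.g (nat_lit 2853) (.e (nat_lit 409649) (nat_lit 18) (.e (nat_lit 303117) (nat_lit 2) (.e (nat_lit 196666) (nat_lit 13) (.e (nat_lit 65616) (nat_lit 10) (.e (nat_lit 344119) (nat_lit 21) .nil))))) (.g (nat_lit 0) (.e (nat_lit 294060) (nat_lit 0) .nil) .nil))))) (.nd (nat_lit 8) (.nd (nat_lit 9) 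
(.lf (nat_lit 549106) (.g (nat_lit 2144) (.e (nat_lit 409617) (nat_lit 10) (.e (nat_lit 632) (nat_lit 50) (.e (nat_lit 573482) (nat_lit 13) (.e (nat_lit 65619) (nat_lit 10) (.e (nat_lit 344182) (nat_lit 49) .nil))))) (.g (nat_lit 0) (.e (nat_lit 291438) (nat_lit 0) .nil) .nil))) 
(.lf (nat_lit 549618) (.g (nat_lit 2230) (.e (nat_lit 409648) (nat_lit 18) (.e (nat_lit 303117) (nat_lit 2) (.e (nat_lit 196666) (nat_lit 13) (.e (nat_lit 65592) (nat_lit 9) .nil)))) (.g (nat_lit 0) (.e (nat_lit 293643) (nat_lit 0) .nil) .nil)))) (.nd (nat_lit 9) 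
(.lf (nat_lit 549362) (.g (nat_lit 1420) (.e (nat_lit 409644) (nat_lit 18) (.e (nat_lit 303143) (nat_lit 12) (.e (nat_lit 475212) (nat_lit 42) (.e (nat_lit 720954) (nat_lit 25) .nil)))) (.g (nat_lit 0) (.e (nat_lit 292015) (nat_lit 0) .nil) .nil))) 
(.lf (nat_lit 549874) (.g (nat_lit 1479) (.e (nat_lit 417536) (nat_lit 18) (.e (nat_lit 303118) (nat_lit 3) (.e (nat_lit 204868) (nat_lit 29) (.e (nat_lit 360468) (nat_lit 3) .nil)))) (.g (nat_lit 0) (.e (nat_lit 294543) (nat_lit 0) .nil) .nil))))))))) (.nd (nat_lit 4) (.nd (nat_lit 5) (.nd (nat_lit 6) (.nd (nat_lit 7) (.nd (nat_lit 8) (.nd (nat_lit 9) 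
(.lf (nat_lit 548874) (.g (nat_lit 4043) (.e (nat_lit 294941) (nat_lit 9) (.e (nat_lit 336324) (nat_lit 18) (.e (nat_lit 204831) (nat_lit 18) (.e (nat_lit 57830) (nat_lit 250) .nil)))) (.g (nat_lit 0) (.e (nat_lit 290539) (nat_lit 0) .nil) .nil))) 
(.lf (nat_lit 549386) (.g (nat_lit 4592) (.e (nat_lit 409645) (nat_lit 18) (.e (nat_lit 303117) (nat_lit 2) (.e (nat_lit 196673) (nat_lit 15) (.e (nat_lit 81956) (nat_lit 23) (.e (nat_lit 98349) (nat_lit 24) .nil))))) (.g (nat_lit 1) (.e (nat_lit 292111) (nat_lit 0) .nil) .nil)))) (.nd (nat_lit 9) 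
(.lf (nat_lit 549130) (.g (nat_lit 3100) (.e (nat_lit 409617) (nat_lit 10) (.e (nat_lit 632) (nat_lit 50) (.e (nat_lit 573489) (nat_lit 14) (.e (nat_lit 73755) (nat_lit 8) (.e (nat_lit 557105) (nat_lit 14) (.e (nat_lit 180252) (nat_lit 10) (.e (nat_lit 581376) (nat_lit 0) (.e (nat_lit 2824) (nat_lit 182) .nil)))))))) (.g (nat_lit 1) (.e (nat_lit 291475) (nat_lit 0) .nil) .nil))) 
(.lf (nat_lit 549642) (.g (nat_lit 438) (.e (nat_lit 409648) (nat_lit 18) (.e (nat_lit 303118) (nat_lit 3) (.e (nat_lit 204855) (nat_lit 26) .nil))) (.g (nat_lit 0) (.e (nat_lit 293673) (nat_lit 0) .nil) .nil))))) (.nd (nat_lit 8) (.nd (nat_lit 9) 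
(.lf (nat_lit 549002) (.g (nat_lit 3457) (.e (nat_lit 409603) (nat_lit 0) (.e (nat_lit 5293) (nat_lit 298) (.e (nat_lit 1250) (nat_lit 92) (.e (nat_lit 98373) (nat_lit 29) (.e (nat_lit 450588) (nat_lit 10) (.e (nat_lit 573452) (nat_lit 9) (.e (nat_lit 7936) (nat_lit 30) .nil))))))) (.g (nat_lit 1) (.e (nat_lit 291135) (nat_lit 0) .nil) .nil))) 
(.lf (nat_lit 549514) (.g (nat_lit 2728) (.e (nat_lit 409646) (nat_lit 18) (.e (nat_lit 303140) (nat_lit 10) (.e (nat_lit 434275) (nat_lit 39) (.e (nat_lit 663574) (nat_lit 9) (.e (nat_lit 2470) (nat_lit 157) (.e (nat_lit 3469) (nat_lit 217) (.e (nat_lit 696344) (nat_lit 8) (.e (nat_lit 172078) (nat_lit 7) .nil)))))))) (.g (nat_lit 1) (.e (nat_lit 293157) (nat_lit 0) .nil) .nil)))) 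
(.nd (nat_lit 9) 
(.lf (nat_lit 549258) (.g (nat_lit 1360) (.e (nat_lit 409643) (nat_lit 18) (.e (nat_lit 303119) (nat_lit 3) (.e (nat_lit 204851) (nat_lit 26) (.e (nat_lit 336160) (nat_lit 10) .nil)))) (.g (nat_lit 0) (.e (nat_lit 291793) (nat_lit 0) .nil) .nil))) 
(.lf (nat_lit 549770) (.g (nat_lit 548) (.e (nat_lit 409649) (nat_lit 18) (.e (nat_lit 303118) (nat_lit 3) (.e (nat_lit 204867) (nat_lit 28) .nil))) (.g (nat_lit 0) (.e (nat_lit 294095) (nat_lit 0) .nil) .nil)))))) (.nd (nat_lit 7) (.nd (nat_lit 8) (.nd (nat_lit 9) 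
(.lf (nat_lit 548938) (.g (nat_lit 1856) (.e (nat_lit 294973) (nat_lit 28) (.e (nat_lit 434181) (nat_lit 0) (.e (nat_lit 1428) (nat_lit 108) (.e (nat_lit 336421) (nat_lit 28) (.e (nat_lit 434189) (nat_lit 13) (.e (nat_lit 2786) (nat_lit 179) .nil)))))) (.g (nat_lit 1) (.e (nat_lit 290788) (nat_lit 0) .nil) .nil))) 
(.lf (nat_lit 549450) (.g (nat_lit 1943) (.e (nat_lit 409645) (nat_lit 18) (.e (nat_lit 303143) (nat_lit 12) (.e (nat_lit 475199) (nat_lit 40) (.e (nat_lit 704814) (nat_lit 14) .nil)))) (.g (nat_lit 0) (.e (nat_lit 292535) (nat_lit 0) .nil) .nil)))) (.nd (nat_lit 9) 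
(.lf (nat_lit 549194) (.g (nat_lit 1010) (.e (nat_lit 409638) (nat_lit 15) (.e (nat_lit 278566) (nat_lit 16) (.e (nat_lit 286753) (nat_lit 10) (.e (nat_lit 344154) (nat_lit 35) (.e (nat_lit 630802) (nat_lit 8) (.e (nat_lit 172081) (nat_lit 7) .nil)))))) (.g (nat_lit 1) (.e (nat_lit 291716) (nat_lit 0) .nil) .nil))) 
(.lf (nat_lit 549706) (.g (nat_lit 3088) (.e (nat_lit 409649) (nat_lit 18) (.e (nat_lit 303104) (nat_lit 0) (.e (nat_lit 3238) (nat_lit 197) (.e (nat_lit 532559) (nat_lit 14) (.e (nat_lit 376865) (nat_lit 22) (.e (nat_lit 90130) (nat_lit 9) (.e (nat_lit 2830) (nat_lit 182) .nil))))))) (.g (nat_lit 1) (.e (nat_lit 293995) (nat_lit 0) .nil) .nil))))) (.nd (nat_lit 8) (.nd (nat_lit 9) 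
(.lf (nat_lit 549066) (.g (nat_lit 3630) (.e (nat_lit 409615) (nat_lit 10) (.e (nat_lit 632) (nat_lit 50) (.e (nat_lit 573489) (nat_lit 14) (.e (nat_lit 73755) (nat_lit 8) (.e (nat_lit 557097) (nat_lit 13) (.e (nat_lit 172067) (nat_lit 3) (.e (nat_lit 212736) (nat_lit 7) .nil))))))) (.g (nat_lit 1) (.e (nat_lit 291337) (nat_lit 0) .nil) .nil))) 
(.lf (nat_lit 549578) (.g (nat_lit 510) (.e (nat_lit 409647) (nat_lit 18) (.e (nat_lit 303118) (nat_lit 3) (.e (nat_lit 204863) (nat_lit 27) .nil))) (.g (nat_lit 0) (.e (nat_lit 293504) (nat_lit 0) .nil) .nil)))) (.nd (nat_lit 9) 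
(.lf (nat_lit 549322) (.g (nat_lit 1805) (.e (nat_lit 409644) (nat_lit 18) (.e (nat_lit 303117) (nat_lit 2) (.e (nat_lit 196674) (nat_lit 15) (.e (nat_lit 81940) (nat_lit 20) .nil)))) (.g (nat_lit 0) (.e (nat_lit 291958) (nat_lit 0) .nil) .nil))) 
(.lf (nat_lit 549834) (.g (nat_lit 3029) (.e (nat_lit 409649) (nat_lit 18) (.e (nat_lit 303143) (nat_lit 12) (.e (nat_lit 475220) (nat_lit 44) (.e (nat_lit 737318) (nat_lit 15) (.e (nat_lit 49188) (nat_lit 11) (.e (nat_lit 16425) (nat_lit 7) .nil)))))) (.g (nat_lit 1) (.e (nat_lit 294385) (nat_lit 0) .nil) .nil))))))) (.nd (nat_lit 6) (.nd (nat_lit 7) (.nd (nat_lit 8) (.nd (nat_lit 9) 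
(.lf (nat_lit 548906) (.g (nat_lit 1503) (.e (nat_lit 294969) (nat_lit 27) (.e (nat_lit 426340) (nat_lit 14) (.e (nat_lit 491549) (nat_lit 9) (.e (nat_lit 336421) (nat_lit 28) (.e (nat_lit 434186) (nat_lit 13) .nil))))) (.g (nat_lit 0) (.e (nat_lit 290726) (nat_lit 0) .nil) .nil))) 
(.lf (nat_lit 549418) (.g (nat_lit 1688) (.e (nat_lit 409645) (nat_lit 18) (.e (nat_lit 303119) (nat_lit 3) (.e (nat_lit 204877) (nat_lit 31) (.e (nat_lit 376850) (nat_lit 20) .nil)))) (.g (nat_lit 0) (.e (nat_lit 292291) (nat_lit 0) .nil) .nil)))) (.nd (nat_lit 9) 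
(.lf (nat_lit 549162) (.g (nat_lit 3477) (.e (nat_lit 409623) (nat_lit 10) (.e (nat_lit 5664) (nat_lit 312) (.e (nat_lit 2679) (nat_lit 168) (.e (nat_lit 204868) (nat_lit 29) (.e (nat_lit 360466) (nat_lit 3) (.e (nat_lit 516138) (nat_lit 7) .nil)))))) (.g (nat_lit 1) (.e (nat_lit 291590) (nat_lit 0) .nil) .nil))) 
(.lf (nat_lit 549674) (.g (nat_lit 1279) (.e (nat_lit 409648) (nat_lit 18) (.e (nat_lit 303119) (nat_lit 3) (.e (nat_lit 204878) (nat_lit 31) (.e (nat_lit 376869) (nat_lit 23) .nil)))) (.g (nat_lit 0) (.e (nat_lit 293730) (nat_lit 0) .nil) .nil))))) (.nd (nat_lit 8) (.nd (nat_lit 9) 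
(.lf (nat_lit 549034) (.g (nat_lit 1090) (.e (nat_lit 409608) (nat_lit 10) (.e (nat_lit 934) (nat_lit 76) (.e (nat_lit 786480) (nat_lit 29) (.e (nat_lit 352312) (nat_lit 22) .nil)))) (.g (nat_lit 0) (.e (nat_lit 291190) (nat_lit 0) .nil) .nil))) 
(.lf (nat_lit 549546) (.g (nat_lit 2379) (.e (nat_lit 409646) (nat_lit 18) (.e (nat_lit 303143) (nat_lit 12) (.e (nat_lit 475199) (nat_lit 40) (.e (nat_lit 704831) (nat_lit 14) .nil)))) (.g (nat_lit 0) (.e (nat_lit 293285) (nat_lit 0) .nil) .nil)))) (.nd (nat_lit 9) 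
(.lf (nat_lit 549290) (.g (nat_lit 2434) (.e (nat_lit 409643) (nat_lit 18) (.e (nat_lit 303143) (nat_lit 12) (.e (nat_lit 475199) (nat_lit 40) (.e (nat_lit 704793) (nat_lit 14) .nil)))) (.g (nat_lit 0) (.e (nat_lit 291836) (nat_lit 0) .nil) .nil))) 
(.lf (nat_lit 549802) (.g (nat_lit 3433) (.e (nat_lit 409649) (nat_lit 18) (.e (nat_lit 303140) (nat_lit 10) (.e (nat_lit 434275) (nat_lit 39) (.e (nat_lit 663574) (nat_lit 9) (.e (nat_lit 2470) (nat_lit 157) (.e (nat_lit 3469) (nat_lit 217) (.e (nat_lit 696344) (nat_lit 8) (.e (nat_lit 172079) (nat_lit 7) .nil)))))))) (.g (nat_lit 1) (.e (nat_lit 294260) (nat_lit 0) .nil) .nil)))))) 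
(.nd (nat_lit 7) (.nd (nat_lit 8) (.nd (nat_lit 9) 
(.lf (nat_lit 548970) (.g (nat_lit 2627) (.e (nat_lit 409602) (nat_lit 0) (.e (nat_lit 5293) (nat_lit 298) (.e (nat_lit 1656) (nat_lit 115) (.e (nat_lit 393234) (nat_lit 17) (.e (nat_lit 7303) (nat_lit 388) (.e (nat_lit 2717) (nat_lit 171) (.e (nat_lit 229678) (nat_lit 244) (.e (nat_lit 163896) (nat_lit 10) .nil)))))))) (.g (nat_lit 1) (.e (nat_lit 291095) (nat_lit 0) .nil) .nil))) 
(.lf (nat_lit 549482) (.g (nat_lit 2254) (.e (nat_lit 409646) (nat_lit 18) (.e (nat_lit 303117) (nat_lit 2) (.e (nat_lit 196673) (nat_lit 15) (.e (nat_lit 81956) (nat_lit 23) (.e (nat_lit 106240) (nat_lit 24) .nil))))) (.g (nat_lit 0) (.e (nat_lit 292825) (nat_lit 0) .nil) .nil)))) (.nd (nat_lit 9) 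
(.lf (nat_lit 549226) (.g (nat_lit 1005) (.e (nat_lit 409643) (nat_lit 18) (.e (nat_lit 303117) (nat_lit 2) (.e (nat_lit 196661) (nat_lit 12) (.e (nat_lit 65280) (nat_lit 191) .nil)))) (.g (nat_lit 0) (.e (nat_lit 291760) (nat_lit 0) .nil) .nil))) 
(.lf (nat_lit 549738) (.g (nat_lit 604) (.e (nat_lit 409649) (nat_lit 18) (.e (nat_lit 303117) (nat_lit 2) (.e (nat_lit 196660) (nat_lit 12) .nil))) (.g (nat_lit 0) (.e (nat_lit 294049) (nat_lit 0) .nil) .nil))))) (.nd (nat_lit 8) (.nd (nat_lit 9) 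
(.lf (nat_lit 549098) (.g (nat_lit 1404) (.e (nat_lit 409616) (nat_lit 10) (.e (nat_lit 632) (nat_lit 50) (.e (nat_lit 573493) (nat_lit 15) (.e (nat_lit 81950) (nat_lit 21) .nil)))) (.g (nat_lit 0) (.e (nat_lit 291402) (nat_lit 0) .nil) .nil))) 
(.lf (nat_lit 549610) (.g (nat_lit 2135) (.e (nat_lit 409648) (nat_lit 18) (.e (nat_lit 303116) (nat_lit 2) (.e (nat_lit 196666) (nat_lit 13) (.e (nat_lit 65595) (nat_lit 9) .nil)))) (.g (nat_lit 0) (.e (nat_lit 293633) (nat_lit 0) .nil) .nil)))) (.nd (nat_lit 9) 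
(.lf (nat_lit 549354) (.g (nat_lit 2403) (.e (nat_lit 409644) (nat_lit 18) (.e (nat_lit 303119) (nat_lit 3) (.e (nat_lit 204869) (nat_lit 29) (.e (nat_lit 360468) (nat_lit 3) .nil)))) (.g (nat_lit 0) (.e (nat_lit 291998) (nat_lit 0) .nil) .nil))) 
(.lf (nat_lit 549866) (.g (nat_lit 1681) (.e (nat_lit 417536) (nat_lit 18) (.e (nat_lit 303117) (nat_lit 2) (.e (nat_lit 196674) (nat_lit 15) (.e (nat_lit 81946) (nat_lit 20) .nil)))) (.g (nat_lit 0) (.e (nat_lit 294529) (nat_lit 0) .nil) .nil)))))))) (.nd (nat_lit 5) (.nd (nat_lit 6) (.nd (nat_lit 7) (.nd (nat_lit 8) (.nd (nat_lit 9) 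
(.lf (nat_lit 548890) (.g (nat_lit 1689) (.e (nat_lit 294955) (nat_lit 12) (.e (nat_lit 385073) (nat_lit 31) (.e (nat_lit 573493) (nat_lit 15) (.e (nat_lit 81962) (nat_lit 25) (.e (nat_lit 147200) (nat_lit 18) .nil))))) (.g (nat_lit 0) (.e (nat_lit 290580) (nat_lit 0) .nil) .nil))) 
(.lf (nat_lit 549402) (.g (nat_lit 3683) (.e (nat_lit 409645) (nat_lit 18) (.e (nat_lit 303119) (nat_lit 3) (.e (nat_lit 204850) (nat_lit 26) (.e (nat_lit 336177) (nat_lit 10) (.e (nat_lit 344117) (nat_lit 21) (.e (nat_lit 516139) (nat_lit 7) .nil)))))) (.g (nat_lit 1) (.e (nat_lit 292156) (nat_lit 0) .nil) .nil)))) (.nd (nat_lit 9) 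
(.lf (nat_lit 549146) (.g (nat_lit 2726) (.e (nat_lit 409617) (nat_lit 10) (.e (nat_lit 632) (nat_lit 50) (.e (nat_lit 573493) (nat_lit 15) (.e (nat_lit 81957) (nat_lit 24) (.e (nat_lit 130816) (nat_lit 146) .nil))))) (.g (nat_lit 0) (.e (nat_lit 291524) (nat_lit 0) .nil) .nil))) 
(.lf (nat_lit 549658) (.g (nat_lit 2397) (.e (nat_lit 409648) (nat_lit 18) (.e (nat_lit 303119) (nat_lit 3) (.e (nat_lit 204855) (nat_lit 26) (.e (nat_lit 336173) (nat_lit 10) .nil)))) (.g (nat_lit 0) (.e (nat_lit 293701) (nat_lit 0) .nil) .nil))))) (.nd (nat_lit 8) (.nd (nat_lit 9) 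
(.lf (nat_lit 549018) (.g (nat_lit 2348) (.e (nat_lit 417536) (nat_lit 8) (.e (nat_lit 303118) (nat_lit 3) (.e (nat_lit 204846) (nat_lit 24) (.e (nat_lit 319533) (nat_lit 16) (.e (nat_lit 286734) (nat_lit 3) .nil))))) (.g (nat_lit 0) (.e (nat_lit 291173) (nat_lit 0) .nil) .nil))) 
(.lf (nat_lit 549530) (.g (nat_lit 1945) (.e (nat_lit 409646) (nat_lit 18) (.e (nat_lit 303143) (nat_lit 12) (.e (nat_lit 475199) (nat_lit 40) (.e (nat_lit 704703) (nat_lit 9) .nil)))) (.g (nat_lit 0) (.e (nat_lit 293266) (nat_lit 0) .nil) .nil)))) (.nd (nat_lit 9) 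
(.lf (nat_lit 549274) (.g (nat_lit 2014) (.e (nat_lit 409643) (nat_lit 18) (.e (nat_lit 303119) (nat_lit 3) (.e (nat_lit 204868) (nat_lit 29) (.e (nat_lit 360467) (nat_lit 3) .nil)))) (.g (nat_lit 0) (.e (nat_lit 291815) (nat_lit 0) .nil) .nil))) 
(.lf (nat_lit 549786) (.g (nat_lit 1058) (.e (nat_lit 409649) (nat_lit 18) (.e (nat_lit 303119) (nat_lit 3) (.e (nat_lit 204876) (nat_lit 31) (.e (nat_lit 376869) (nat_lit 23) .nil)))) (.g (nat_lit 0) (.e (nat_lit 294133) (nat_lit 0) .nil) .nil)))))) (.nd (nat_lit 7) (.nd (nat_lit 8) (.nd (nat_lit 9) 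
(.lf (nat_lit 548954) (.g (nat_lit 1623) (.e (nat_lit 294974) (nat_lit 29) (.e (nat_lit 442411) (nat_lit 20) (.e (nat_lit 3409) (nat_lit 212) (.e (nat_lit 655378) (nat_lit 4) (.e (nat_lit 172080) (nat_lit 7) (.e (nat_lit 409642) (nat_lit 17) .nil)))))) (.g (nat_lit 1) (.e (nat_lit 290917) (nat_lit 0) .nil) .nil))) 
(.lf (nat_lit 549466) (.g (nat_lit 3749) (.e (nat_lit 409646) (nat_lit 18) (.e (nat_lit 303116) (nat_lit 2) (.e (nat_lit 196672) (nat_lit 15) (.e (nat_lit 81951) (nat_lit 22) (.e (nat_lit 90134) (nat_lit 9) (.e (nat_lit 2822) (nat_lit 182) .nil)))))) (.g (nat_lit 1) (.e (nat_lit 292800) (nat_lit 0) .nil) .nil)))) (.nd (nat_lit 9) 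
(.lf (nat_lit 549210) (.g (nat_lit 905) (.e (nat_lit 409638) (nat_lit 15) (.e (nat_lit 278567) (nat_lit 16) (.e (nat_lit 286756) (nat_lit 10) (.e (nat_lit 344157) (nat_lit 36) (.e (nat_lit 638999) (nat_lit 8) (.e (nat_lit 172081) (nat_lit 7) .nil)))))) (.g (nat_lit 1) (.e (nat_lit 291732) (nat_lit 0) .nil) .nil))) 
(.lf (nat_lit 549722) (.g (nat_lit 2237) (.e (nat_lit 409649) (nat_lit 18) (.e (nat_lit 303111) (nat_lit 0) (.e (nat_lit 3307) (nat_lit 202) (.e (nat_lit 573477) (nat_lit 12) (.e (nat_lit 57750) (nat_lit 201) .nil))))) (.g (nat_lit 0) (.e (nat_lit 294016) (nat_lit 0) .nil) .nil))))) (.nd (nat_lit 8) (.nd (nat_lit 9) 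
(.lf (nat_lit 549082) (.g (nat_lit 3873) (.e (nat_lit 409616) (nat_lit 10) (.e (nat_lit 632) (nat_lit 50) (.e (nat_lit 573489) (nat_lit 14) (.e (nat_lit 73755) (nat_lit 8) (.e (nat_lit 557103) (nat_lit 14) (.e (nat_lit 180244) (nat_lit 5) (.e (nat_lit 540416) (nat_lit 24) .nil))))))) (.g (nat_lit 1) (.e (nat_lit 291373) (nat_lit 0) .nil) .nil))) 
(.lf (nat_lit 549594) (.g (nat_lit 2407) (.e (nat_lit 409647) (nat_lit 18) (.e (nat_lit 303143) (nat_lit 12) (.e (nat_lit 475199) (nat_lit 40) (.e (nat_lit 704773) (nat_lit 14) .nil)))) (.g (nat_lit 0) (.e (nat_lit 293540) (nat_lit 0) .nil) .nil)))) (.nd (nat_lit 9) 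
(.lf (nat_lit 549338) (.g (nat_lit 2350) (.e (nat_lit 409644) (nat_lit 18) (.e (nat_lit 303119) (nat_lit 3) (.e (nat_lit 204855) (nat_lit 26) (.e (nat_lit 336104) (nat_lit 9) (.e (nat_lit 336028) (nat_lit 3) .nil))))) (.g (nat_lit 0) (.e (nat_lit 291975) (nat_lit 0) .nil) .nil))) 
(.lf (nat_lit 549850) (.g (nat_lit 2274) (.e (nat_lit 417536) (nat_lit 18) (.e (nat_lit 303117) (nat_lit 2) (.e (nat_lit 196666) (nat_lit 13) (.e (nat_lit 65596) (nat_lit 9) .nil)))) (.g (nat_lit 0) (.e (nat_lit 294513) (nat_lit 0) .nil) .nil))))))) (.nd (nat_lit 6) (.nd (nat_lit 7) (.nd (nat_lit 8) (.nd (nat_lit 9) 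
(.lf (nat_lit 548922) (.g (nat_lit 954) (.e (nat_lit 294973) (nat_lit 28) (.e (nat_lit 434180) (nat_lit 0) (.e (nat_lit 1425) (nat_lit 108) (.e (nat_lit 336421) (nat_lit 28) (.e (nat_lit 434189) (nat_lit 13) (.e (nat_lit 2787) (nat_lit 179) .nil)))))) (.g (nat_lit 1) (.e (nat_lit 290771) (nat_lit 0) .nil) .nil))) 
(.lf (nat_lit 549434) (.g (nat_lit 2470) (.e (nat_lit 409645) (nat_lit 18) (.e (nat_lit 303140) (nat_lit 10) (.e (nat_lit 434275) (nat_lit 39) (.e (nat_lit 663580) (nat_lit 9) (.e (nat_lit 2478) (nat_lit 157) (.e (nat_lit 3464) (nat_lit 217) (.e (nat_lit 696343) (nat_lit 8) (.e (nat_lit 172079) (nat_lit 7) .nil)))))))) (.g (nat_lit 1) (.e (nat_lit 292448) (nat_lit 0) .nil) .nil)))) 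
(.nd (nat_lit 9) 
(.lf (nat_lit 549178) (.g (nat_lit 664) (.e (nat_lit 417536) (nat_lit 10) (.e (nat_lit 5381) (nat_lit 300) (.e (nat_lit 16470) (nat_lit 14) (.e (nat_lit 491571) (nat_lit 13) .nil)))) (.g (nat_lit 0) (.e (nat_lit 291644) (nat_lit 0) .nil) .nil))) 
(.lf (nat_lit 549690) (.g (nat_lit 2779) (.e (nat_lit 409648) (nat_lit 18) (.e (nat_lit 303137) (nat_lit 10) (.e (nat_lit 434275) (nat_lit 39) (.e (nat_lit 663584) (nat_lit 12) (.e (nat_lit 164020) (nat_lit 45) (.e (nat_lit 696344) (nat_lit 8) (.e (nat_lit 172078) (nat_lit 7) .nil))))))) (.g (nat_lit 1) (.e (nat_lit 293855) (nat_lit 0) .nil) .nil))))) (.nd (nat_lit 8) (.nd (nat_lit 9) 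
(.lf (nat_lit 549050) (.g (nat_lit 1835) (.e (nat_lit 409612) (nat_lit 10) (.e (nat_lit 632) (nat_lit 50) (.e (nat_lit 573482) (nat_lit 13) (.e (nat_lit 65620) (nat_lit 10) .nil)))) (.g (nat_lit 0) (.e (nat_lit 291275) (nat_lit 0) .nil) .nil))) 
(.lf (nat_lit 549562) (.g (nat_lit 2946) (.e (nat_lit 409647) (nat_lit 18) (.e (nat_lit 303117) (nat_lit 2) (.e (nat_lit 196666) (nat_lit 13) (.e (nat_lit 65620) (nat_lit 10) .nil)))) (.g (nat_lit 0) (.e (nat_lit 293483) (nat_lit 0) .nil) .nil)))) (.nd (nat_lit 9) 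
(.lf (nat_lit 549306) (.g (nat_lit 502) (.e (nat_lit 409644) (nat_lit 18) (.e (nat_lit 303117) (nat_lit 2) (.e (nat_lit 196665) (nat_lit 13) .nil))) (.g (nat_lit 0) (.e (nat_lit 291942) (nat_lit 0) .nil) .nil))) 
(.lf (nat_lit 549818) (.g (nat_lit 2039) (.e (nat_lit 409649) (nat_lit 18) (.e (nat_lit 303143) (nat_lit 12) (.e (nat_lit 475199) (nat_lit 40) (.e (nat_lit 704770) (nat_lit 14) (.e (nat_lit 2594) (nat_lit 162) .nil))))) (.g (nat_lit 0) (.e (nat_lit 294368) (nat_lit 0) .nil) .nil)))))) (.nd (nat_lit 7) (.nd (nat_lit 8) (.nd (nat_lit 9) 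
(.lf (nat_lit 548986) (.g (nat_lit 1182) (.e (nat_lit 409602) (nat_lit 0) (.e (nat_lit 5293) (nat_lit 298) (.e (nat_lit 1656) (nat_lit 115) (.e (nat_lit 393289) (nat_lit 25) .nil)))) (.g (nat_lit 0) (.e (nat_lit 291111) (nat_lit 0) .nil) .nil))) 
(.lf (nat_lit 549498) (.g (nat_lit 2798) (.e (nat_lit 409646) (nat_lit 18) (.e (nat_lit 303119) (nat_lit 3) (.e (nat_lit 204868) (nat_lit 29) (.e (nat_lit 360466) (nat_lit 3) (.e (nat_lit 524032) (nat_lit 7) .nil))))) (.g (nat_lit 1) (.e (nat_lit 292895) (nat_lit 0) .nil) .nil)))) (.nd (nat_lit 9) 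
(.lf (nat_lit 549242) (.g (nat_lit 405) (.e (nat_lit 409643) (nat_lit 18) (.e (nat_lit 303117) (nat_lit 2) (.e (nat_lit 196674) (nat_lit 15) .nil))) (.g (nat_lit 0) (.e (nat_lit 291776) (nat_lit 0) .nil) .nil))) 
(.lf (nat_lit 549754) (.g (nat_lit 1440) (.e (nat_lit 409649) (nat_lit 18) (.e (nat_lit 303117) (nat_lit 2) (.e (nat_lit 196672) (nat_lit 15) (.e (nat_lit 89856) (nat_lit 23) .nil)))) (.g (nat_lit 0) (.e (nat_lit 294069) (nat_lit 0) .nil) .nil))))) (.nd (nat_lit 8) (.nd (nat_lit 9) 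
(.lf (nat_lit 549114) (.g (nat_lit 3426) (.e (nat_lit 409617) (nat_lit 10) (.e (nat_lit 632) (nat_lit 50) (.e (nat_lit 573489) (nat_lit 14) (.e (nat_lit 73754) (nat_lit 8) (.e (nat_lit 557101) (nat_lit 13) (.e (nat_lit 172066) (nat_lit 3) (.e (nat_lit 212736) (nat_lit 7) .nil))))))) (.g (nat_lit 1) (.e (nat_lit 291459) (nat_lit 0) .nil) .nil))) 
(.lf (nat_lit 549626) (.g (nat_lit 3427) (.e (nat_lit 409648) (nat_lit 18) (.e (nat_lit 303117) (nat_lit 2) (.e (nat_lit 196666) (nat_lit 13) (.e (nat_lit 65611) (nat_lit 10) (.e (nat_lit 344120) (nat_lit 21) .nil))))) (.g (nat_lit 0) (.e (nat_lit 293655) (nat_lit 0) .nil) .nil)))) (.nd (nat_lit 9) 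
(.lf (nat_lit 549370) (.g (nat_lit 327) (.e (nat_lit 409645) (nat_lit 18) (.e (nat_lit 303112) (nat_lit 0) (.e (nat_lit 3258) (nat_lit 198) .nil))) (.g (nat_lit 0) (.e (nat_lit 292068) (nat_lit 0) .nil) .nil))) 
(.lf (nat_lit 549882) (.g (nat_lit 1912) (.e (nat_lit 417536) (nat_lit 18) (.e (nat_lit 303119) (nat_lit 3) (.e (nat_lit 204855) (nat_lit 26) (.e (nat_lit 336073) (nat_lit 9) .nil)))) (.g (nat_lit 0) (.e (nat_lit 294557) (nat_lit 0) .nil) .nil)))))))))) (.nd (nat_lit 3) (.nd (nat_lit 4) (.nd (nat_lit 5) (.nd (nat_lit 6) (.nd (nat_lit 7) (.nd (nat_lit 8) (.nd (nat_lit 9) 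
(.lf (nat_lit 548870) (.g (nat_lit 1501) (.e (nat_lit 294940) (nat_lit 9) (.e (nat_lit 336324) (nat_lit 18) (.e (nat_lit 204837) (nat_lit 20) (.e (nat_lit 122624) (nat_lit 12) .nil)))) (.g (nat_lit 0) (.e (nat_lit 290523) (nat_lit 0) .nil) .nil))) 
(.lf (nat_lit 549382) (.g (nat_lit 1952) (.e (nat_lit 409645) (nat_lit 18) (.e (nat_lit 303117) (nat_lit 2) (.e (nat_lit 196672) (nat_lit 15) (.e (nat_lit 81954) (nat_lit 23) (.e (nat_lit 106240) (nat_lit 24) .nil))))) (.g (nat_lit 1) (.e (nat_lit 292102) (nat_lit 0) .nil) .nil)))) (.nd (nat_lit 9) 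
(.lf (nat_lit 549126) (.g (nat_lit 3222) (.e (nat_lit 409617) (nat_lit 10) (.e (nat_lit 632) (nat_lit 50) (.e (nat_lit 573489) (nat_lit 14) (.e (nat_lit 73755) (nat_lit 8) (.e (nat_lit 557105) (nat_lit 14) (.e (nat_lit 180252) (nat_lit 10) (.e (nat_lit 573442) (nat_lit 0) (.e (nat_lit 2826) (nat_lit 182) .nil)))))))) (.g (nat_lit 1) (.e (nat_lit 291471) (nat_lit 0) .nil) .nil))) 
(.lf (nat_lit 549638) (.g (nat_lit 1923) (.e (nat_lit 409648) (nat_lit 18) (.e (nat_lit 303117) (nat_lit 2) (.e (nat_lit 196674) (nat_lit 15) (.e (nat_lit 81936) (nat_lit 20) .nil)))) (.g (nat_lit 0) (.e (nat_lit 293668) (nat_lit 0) .nil) .nil))))) (.nd (nat_lit 8) (.nd (nat_lit 9) 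
(.lf (nat_lit 548998) (.g (nat_lit 3205) (.e (nat_lit 409603) (nat_lit 0) (.e (nat_lit 5293) (nat_lit 298) (.e (nat_lit 1250) (nat_lit 92) (.e (nat_lit 98372) (nat_lit 29) (.e (nat_lit 450586) (nat_lit 10) (.e (nat_lit 573452) (nat_lit 9) (.e (nat_lit 359) (nat_lit 30) .nil))))))) (.g (nat_lit 1) (.e (nat_lit 291131) (nat_lit 0) .nil) .nil))) 
(.lf (nat_lit 549510) (.g (nat_lit 408) (.e (nat_lit 409646) (nat_lit 18) (.e (nat_lit 303140) (nat_lit 10) (.e (nat_lit 434275) (nat_lit 39) .nil))) (.g (nat_lit 0) (.e (nat_lit 293151) (nat_lit 0) .nil) .nil)))) (.nd (nat_lit 9) 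
(.lf (nat_lit 549254) (.g (nat_lit 1695) (.e (nat_lit 409643) (nat_lit 18) (.e (nat_lit 303118) (nat_lit 3) (.e (nat_lit 204869) (nat_lit 29) (.e (nat_lit 360466) (nat_lit 3) .nil)))) (.g (nat_lit 0) (.e (nat_lit 291789) (nat_lit 0) .nil) .nil))) 
(.lf (nat_lit 549766) (.g (nat_lit 4059) (.e (nat_lit 409649) (nat_lit 18) (.e (nat_lit 303118) (nat_lit 3) (.e (nat_lit 204855) (nat_lit 26) (.e (nat_lit 336111) (nat_lit 9) (.e (nat_lit 336028) (nat_lit 3) (.e (nat_lit 98350) (nat_lit 24) .nil)))))) (.g (nat_lit 1) (.e (nat_lit 294089) (nat_lit 0) .nil) .nil)))))) (.nd (nat_lit 7) (.nd (nat_lit 8) (.nd (nat_lit 9) 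
(.lf (nat_lit 548934) (.g (nat_lit 706) (.e (nat_lit 294973) (nat_lit 28) (.e (nat_lit 434181) (nat_lit 0) (.e (nat_lit 1425) (nat_lit 108) (.e (nat_lit 336421) (nat_lit 28) (.e (nat_lit 434193) (nat_lit 13) (.e (nat_lit 2788) (nat_lit 179) .nil)))))) (.g (nat_lit 1) (.e (nat_lit 290784) (nat_lit 0) .nil) .nil))) 
(.lf (nat_lit 549446) (.g (nat_lit 1982) (.e (nat_lit 409645) (nat_lit 18) (.e (nat_lit 303143) (nat_lit 12) (.e (nat_lit 475199) (nat_lit 40) (.e (nat_lit 704770) (nat_lit 14) .nil)))) (.g (nat_lit 0) (.e (nat_lit 292531) (nat_lit 0) .nil) .nil)))) (.nd (nat_lit 9) 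
(.lf (nat_lit 549190) (.g (nat_lit 1321) (.e (nat_lit 409636) (nat_lit 14) (.e (nat_lit 270373) (nat_lit 16) (.e (nat_lit 286756) (nat_lit 10) (.e (nat_lit 344154) (nat_lit 35) (.e (nat_lit 630802) (nat_lit 8) (.e (nat_lit 172082) (nat_lit 7) .nil)))))) (.g (nat_lit 1) (.e (nat_lit 291709) (nat_lit 0) .nil) .nil))) 
(.lf (nat_lit 549702) (.g (nat_lit 1762) (.e (nat_lit 409648) (nat_lit 18) (.e (nat_lit 303146) (nat_lit 14) (.e (nat_lit 491560) (nat_lit 10) (.e (nat_lit 344157) (nat_lit 36) .nil)))) (.g (nat_lit 0) (.e (nat_lit 293987) (nat_lit 0) .nil) .nil))))) (.nd (nat_lit 8) (.nd (nat_lit 9) 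
(.lf (nat_lit 549062) (.g (nat_lit 332) (.e (nat_lit 409612) (nat_lit 10) (.e (nat_lit 934) (nat_lit 76) (.e (nat_lit 786483) (nat_lit 30) .nil))) (.g (nat_lit 0) (.e (nat_lit 291329) (nat_lit 0) .nil) .nil))) 
(.lf (nat_lit 549574) (.g (nat_lit 1677) (.e (nat_lit 409647) (nat_lit 18) (.e (nat_lit 303118) (nat_lit 3) (.e (nat_lit 204855) (nat_lit 26) (.e (nat_lit 336097) (nat_lit 9) .nil)))) (.g (nat_lit 0) (.e (nat_lit 293496) (nat_lit 0) .nil) .nil)))) (.nd (nat_lit 9) 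
(.lf (nat_lit 549318) (.g (nat_lit 1577) (.e (nat_lit 409644) (nat_lit 18) (.e (nat_lit 303117) (nat_lit 2) (.e (nat_lit 196670) (nat_lit 14) (.e (nat_lit 73784) (nat_lit 40) .nil)))) (.g (nat_lit 0) (.e (nat_lit 291954) (nat_lit 0) .nil) .nil))) 
(.lf (nat_lit 549830) (.g (nat_lit 2472) (.e (nat_lit 409649) (nat_lit 18) (.e (nat_lit 303143) (nat_lit 12) (.e (nat_lit 475199) (nat_lit 40) (.e (nat_lit 704838) (nat_lit 14) .nil)))) (.g (nat_lit 0) (.e (nat_lit 294380) (nat_lit 0) .nil) .nil))))))) (.nd (nat_lit 6) (.nd (nat_lit 7) (.nd (nat_lit 8) (.nd (nat_lit 9) 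
(.lf (nat_lit 548902) (.g (nat_lit 3458) (.e (nat_lit 294966) (nat_lit 15) (.e (nat_lit 3308) (nat_lit 202) (.e (nat_lit 573482) (nat_lit 13) (.e (nat_lit 65604) (nat_lit 9) (.e (nat_lit 336028) (nat_lit 3) (.e (nat_lit 98325) (nat_lit 17) (.e (nat_lit 7008) (nat_lit 377) (.e (nat_lit 2786) (nat_lit 179) .nil)))))))) (.g (nat_lit 1) (.e (nat_lit 290647) (nat_lit 0) .nil) .nil))) 
(.lf (nat_lit 549414) (.g (nat_lit 4342) (.e (nat_lit 409645) (nat_lit 18) (.e (nat_lit 303119) (nat_lit 3) (.e (nat_lit 204866) (nat_lit 28) (.e (nat_lit 352315) (nat_lit 23) (.e (nat_lit 98350) (nat_lit 24) .nil))))) (.g (nat_lit 1) (.e (nat_lit 292197) (nat_lit 0) .nil) .nil)))) (.nd (nat_lit 9) 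
(.lf (nat_lit 549158) (.g (nat_lit 1045) (.e (nat_lit 409623) (nat_lit 10) (.e (nat_lit 5664) (nat_lit 312) (.e (nat_lit 2675) (nat_lit 168) (.e (nat_lit 204877) (nat_lit 31) (.e (nat_lit 376855) (nat_lit 20) .nil))))) (.g (nat_lit 0) (.e (nat_lit 291582) (nat_lit 0) .nil) .nil))) 
(.lf (nat_lit 549670) (.g (nat_lit 1587) (.e (nat_lit 409648) (nat_lit 18) (.e (nat_lit 303119) (nat_lit 3) (.e (nat_lit 204868) (nat_lit 29) (.e (nat_lit 360466) (nat_lit 3) (.e (nat_lit 524032) (nat_lit 7) .nil))))) (.g (nat_lit 0) (.e (nat_lit 293719) (nat_lit 0) .nil) .nil))))) (.nd (nat_lit 8) (.nd (nat_lit 9) 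
(.lf (nat_lit 549030) (.g (nat_lit 1992) (.e (nat_lit 417536) (nat_lit 6) (.e (nat_lit 286761) (nat_lit 13) (.e (nat_lit 393293) (nat_lit 26) (.e (nat_lit 475198) (nat_lit 40) (.e (nat_lit 704514) (nat_lit 0) .nil))))) (.g (nat_lit 0) (.e (nat_lit 291185) (nat_lit 0) .nil) .nil))) 
(.lf (nat_lit 549542) (.g (nat_lit 2335) (.e (nat_lit 409646) (nat_lit 18) (.e (nat_lit 303143) (nat_lit 12) (.e (nat_lit 475199) (nat_lit 40) (.e (nat_lit 704815) (nat_lit 14) .nil)))) (.g (nat_lit 0) (.e (nat_lit 293281) (nat_lit 0) .nil) .nil)))) (.nd (nat_lit 9) 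
(.lf (nat_lit 549286) (.g (nat_lit 2240) (.e (nat_lit 409643) (nat_lit 18) (.e (nat_lit 303143) (nat_lit 12) (.e (nat_lit 475199) (nat_lit 40) (.e (nat_lit 704773) (nat_lit 14) .nil)))) (.g (nat_lit 0) (.e (nat_lit 291832) (nat_lit 0) .nil) .nil))) 
(.lf (nat_lit 549798) (.g (nat_lit 3642) (.e (nat_lit 409649) (nat_lit 18) (.e (nat_lit 303140) (nat_lit 10) (.e (nat_lit 434275) (nat_lit 39) (.e (nat_lit 663574) (nat_lit 9) (.e (nat_lit 2466) (nat_lit 157) (.e (nat_lit 3469) (nat_lit 217) (.e (nat_lit 696344) (nat_lit 8) (.e (nat_lit 172081) (nat_lit 7) .nil)))))))) (.g (nat_lit 1) (.e (nat_lit 294256) (nat_lit 0) .nil) .nil)))))) 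
(.nd (nat_lit 7) (.nd (nat_lit 8) (.nd (nat_lit 9) 
(.lf (nat_lit 548966) (.g (nat_lit 2676) (.e (nat_lit 409602) (nat_lit 0) (.e (nat_lit 5270) (nat_lit 298) (.e (nat_lit 1239) (nat_lit 91) (.e (nat_lit 90170) (nat_lit 13) (.e (nat_lit 172113) (nat_lit 10) (.e (nat_lit 434248) (nat_lit 28) (.e (nat_lit 573452) (nat_lit 9) (.e (nat_lit 7936) (nat_lit 30) .nil)))))))) (.g (nat_lit 1) (.e (nat_lit 291087) (nat_lit 0) .nil) .nil))) 
(.lf (nat_lit 549478) (.g (nat_lit 3915) (.e (nat_lit 409646) (nat_lit 18) (.e (nat_lit 303117) (nat_lit 2) (.e (nat_lit 196672) (nat_lit 15) (.e (nat_lit 81951) (nat_lit 22) (.e (nat_lit 90134) (nat_lit 9) (.e (nat_lit 2822) (nat_lit 182) .nil)))))) (.g (nat_lit 1) (.e (nat_lit 292819) (nat_lit 0) .nil) .nil)))) (.nd (nat_lit 9) 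
(.lf (nat_lit 549222) (.g (nat_lit 4011) (.e (nat_lit 409643) (nat_lit 18) (.e (nat_lit 303116) (nat_lit 2) (.e (nat_lit 196666) (nat_lit 13) (.e (nat_lit 65610) (nat_lit 10) (.e (nat_lit 344117) (nat_lit 21) (.e (nat_lit 516139) (nat_lit 7) .nil)))))) (.g (nat_lit 1) (.e (nat_lit 291756) (nat_lit 0) .nil) .nil))) 
(.lf (nat_lit 549734) (.g (nat_lit 4419) (.e (nat_lit 409649) (nat_lit 18) (.e (nat_lit 303116) (nat_lit 2) (.e (nat_lit 196672) (nat_lit 15) (.e (nat_lit 81951) (nat_lit 22) (.e (nat_lit 90134) (nat_lit 9) (.e (nat_lit 2822) (nat_lit 182) .nil)))))) (.g (nat_lit 1) (.e (nat_lit 294044) (nat_lit 0) .nil) .nil))))) (.nd (nat_lit 8) (.nd (nat_lit 9) 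
(.lf (nat_lit 549094) (.g (nat_lit 3241) (.e (nat_lit 409616) (nat_lit 10) (.e (nat_lit 632) (nat_lit 50) (.e (nat_lit 573493) (nat_lit 15) (.e (nat_lit 81938) (nat_lit 20) (.e (nat_lit 991) (nat_lit 81) .nil))))) (.g (nat_lit 0) (.e (nat_lit 291393) (nat_lit 0) .nil) .nil))) 
(.lf (nat_lit 549606) (.g (nat_lit 969) (.e (nat_lit 409647) (nat_lit 18) (.e (nat_lit 303143) (nat_lit 12) (.e (nat_lit 475220) (nat_lit 44) (.e (nat_lit 737318) (nat_lit 15) .nil)))) (.g (nat_lit 0) (.e (nat_lit 293553) (nat_lit 0) .nil) .nil)))) (.nd (nat_lit 9) 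
(.lf (nat_lit 549350) (.g (nat_lit 3010) (.e (nat_lit 409644) (nat_lit 18) (.e (nat_lit 303119) (nat_lit 3) (.e (nat_lit 204869) (nat_lit 29) (.e (nat_lit 360465) (nat_lit 3) .nil)))) (.g (nat_lit 0) (.e (nat_lit 291994) (nat_lit 0) .nil) .nil))) 
(.lf (nat_lit 549862) (.g (nat_lit 3040) (.e (nat_lit 417536) (nat_lit 18) (.e (nat_lit 303117) (nat_lit 2) (.e (nat_lit 196671) (nat_lit 15) (.e (nat_lit 81953) (nat_lit 22) (.e (nat_lit 90130) (nat_lit 9) .nil))))) (.g (nat_lit 0) (.e (nat_lit 294525) (nat_lit 0) .nil) .nil)))))))) (.nd (nat_lit 5) (.nd (nat_lit 6) (.nd (nat_lit 7) (.nd (nat_lit 8) (.nd (nat_lit 9) 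
(.lf (nat_lit 548886) (.g (nat_lit 1197) (.e (nat_lit 294954) (nat_lit 12) (.e (nat_lit 385109) (nat_lit 51) (.e (nat_lit 794678) (nat_lit 24) .nil))) (.g (nat_lit 0) (.e (nat_lit 290572) (nat_lit 0) .nil) .nil))) 
(.lf (nat_lit 549398) (.g (nat_lit 378) (.e (nat_lit 409645) (nat_lit 18) (.e (nat_lit 303118) (nat_lit 3) (.e (nat_lit 204868) (nat_lit 29) .nil))) (.g (nat_lit 0) (.e (nat_lit 292135) (nat_lit 0) .nil) .nil)))) (.nd (nat_lit 9) 
(.lf (nat_lit 549142) (.g (nat_lit 2823) (.e (nat_lit 409617) (nat_lit 10) (.e (nat_lit 632) (nat_lit 50) (.e (nat_lit 573493) (nat_lit 15) (.e (nat_lit 81938) (nat_lit 20) (.e (nat_lit 990) (nat_lit 81) .nil))))) (.g (nat_lit 0) (.e (nat_lit 291501) (nat_lit 0) .nil) .nil))) 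
(.lf (nat_lit 549654) (.g (nat_lit 3023) (.e (nat_lit 409648) (nat_lit 18) (.e (nat_lit 303119) (nat_lit 3) (.e (nat_lit 204855) (nat_lit 26) (.e (nat_lit 336082) (nat_lit 9) .nil)))) (.g (nat_lit 0) (.e (nat_lit 293695) (nat_lit 0) .nil) .nil))))) (.nd (nat_lit 8) (.nd (nat_lit 9) 
(.lf (nat_lit 549014) (.g (nat_lit 68) (.e (nat_lit 409604) (nat_lit 0) (.e (nat_lit 5404) (nat_lit 302) (.e (nat_lit 65653) (nat_lit 27) .nil))) (.g (nat_lit 0) (.e (nat_lit 291161) (nat_lit 0) .nil) .nil))) 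
(.lf (nat_lit 549526) (.g (nat_lit 2347) (.e (nat_lit 409646) (nat_lit 18) (.e (nat_lit 303143) (nat_lit 12) (.e (nat_lit 475199) (nat_lit 40) (.e (nat_lit 704674) (nat_lit 9) .nil)))) (.g (nat_lit 0) (.e (nat_lit 293262) (nat_lit 0) .nil) .nil)))) (.nd (nat_lit 9) 
(.lf (nat_lit 549270) (.g (nat_lit 2642) (.e (nat_lit 409643) (nat_lit 18) (.e (nat_lit 303119) (nat_lit 3) (.e (nat_lit 204866) (nat_lit 28) (.e (nat_lit 352302) (nat_lit 20) (.e (nat_lit 1788) (nat_lit 119) .nil))))) (.g (nat_lit 0) (.e (nat_lit 291806) (nat_lit 0) .nil) .nil))) 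
(.lf (nat_lit 549782) (.g (nat_lit 1850) (.e (nat_lit 409649) (nat_lit 18) (.e (nat_lit 303119) (nat_lit 3) (.e (nat_lit 204868) (nat_lit 29) (.e (nat_lit 360466) (nat_lit 3) (.e (nat_lit 524032) (nat_lit 7) .nil))))) (.g (nat_lit 1) (.e (nat_lit 294121) (nat_lit 0) .nil) .nil)))))) (.nd (nat_lit 7) (.nd (nat_lit 8) (.nd (nat_lit 9) 
(.lf (nat_lit 548950) (.g (nat_lit 2307) (.e (nat_lit 294974) (nat_lit 29) (.e (nat_lit 442399) (nat_lit 20) (.e (nat_lit 3402) (nat_lit 211) (.e (nat_lit 647183) (nat_lit 4) (.e (nat_lit 172082) (nat_lit 7) (.e (nat_lit 409642) (nat_lit 17) .nil)))))) (.g (nat_lit 1) (.e (nat_lit 290875) (nat_lit 0) .nil) .nil))) 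
(.lf (nat_lit 549462) (.g (nat_lit 2133) (.e (nat_lit 409646) (nat_lit 18) (.e (nat_lit 303112) (nat_lit 0) (.e (nat_lit 3304) (nat_lit 202) (.e (nat_lit 573477) (nat_lit 12) (.e (nat_lit 57750) (nat_lit 201) (.e (nat_lit 3090) (nat_lit 191) (.e (nat_lit 491264) (nat_lit 7) .nil))))))) (.g (nat_lit 1) (.e (nat_lit 292783) (nat_lit 0) .nil) .nil)))) (.nd (nat_lit 9) 
(.lf (nat_lit 549206) (.g (nat_lit 1804) (.e (nat_lit 409638) (nat_lit 15) (.e (nat_lit 278566) (nat_lit 16) (.e (nat_lit 286756) (nat_lit 10) (.e (nat_lit 344157) (nat_lit 36) (.e (nat_lit 638999) (nat_lit 8) (.e (nat_lit 172079) (nat_lit 7) .nil)))))) (.g (nat_lit 1) (.e (nat_lit 291728) (nat_lit 0) .nil) .nil))) 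
(.lf (nat_lit 549718) (.g (nat_lit 3933) (.e (nat_lit 409649) (nat_lit 18) (.e (nat_lit 303111) (nat_lit 0) (.e (nat_lit 3255) (nat_lit 197) (.e (nat_lit 532535) (nat_lit 9) (.e (nat_lit 336099) (nat_lit 9) (.e (nat_lit 335886) (nat_lit 0) (.e (nat_lit 1788) (nat_lit 119) (.e (nat_lit 516139) (nat_lit 7) .nil)))))))) (.g (nat_lit 1) (.e (nat_lit 294012) (nat_lit 0) .nil) .nil))))) 
(.nd (nat_lit 8) (.nd (nat_lit 9) 
(.lf (nat_lit 549078) (.g (nat_lit 1328) (.e (nat_lit 409616) (nat_lit 10) (.e (nat_lit 632) (nat_lit 50) (.e (nat_lit 573487) (nat_lit 14) (.e (nat_lit 81664) (nat_lit 34) .nil)))) (.g (nat_lit 0) (.e (nat_lit 291368) (nat_lit 0) .nil) .nil))) 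
(.lf (nat_lit 549590) (.g (nat_lit 2133) (.e (nat_lit 409647) (nat_lit 18) (.e (nat_lit 303119) (nat_lit 3) (.e (nat_lit 204877) (nat_lit 31) (.e (nat_lit 376865) (nat_lit 22) (.e (nat_lit 90130) (nat_lit 9) .nil))))) (.g (nat_lit 0) (.e (nat_lit 293533) (nat_lit 0) .nil) .nil)))) (.nd (nat_lit 9) 
(.lf (nat_lit 549334) (.g (nat_lit 2245) (.e (nat_lit 409644) (nat_lit 18) (.e (nat_lit 303119) (nat_lit 3) (.e (nat_lit 204854) (nat_lit 26) (.e (nat_lit 336160) (nat_lit 10) (.e (nat_lit 344119) (nat_lit 21) .nil))))) (.g (nat_lit 0) (.e (nat_lit 291971) (nat_lit 0) .nil) .nil))) 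
(.lf (nat_lit 549846) (.g (nat_lit 3614) (.e (nat_lit 417536) (nat_lit 18) (.e (nat_lit 303116) (nat_lit 2) (.e (nat_lit 196674) (nat_lit 15) (.e (nat_lit 81953) (nat_lit 22) (.e (nat_lit 90130) (nat_lit 9) .nil))))) (.g (nat_lit 0) (.e (nat_lit 294508) (nat_lit 0) .nil) .nil))))))) (.nd (nat_lit 6) (.nd (nat_lit 7) (.nd (nat_lit 8) (.nd (nat_lit 9) 
(.lf (nat_lit 548918) (.g (nat_lit 3733) (.e (nat_lit 294969) (nat_lit 27) (.e (nat_lit 426340) (nat_lit 14) (.e (nat_lit 491571) (nat_lit 13) (.e (nat_lit 393260) (nat_lit 21) (.e (nat_lit 409641) (nat_lit 17) .nil))))) (.g (nat_lit 1) (.e (nat_lit 290747) (nat_lit 0) .nil) .nil))) 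
(.lf (nat_lit 549430) (.g (nat_lit 3531) (.e (nat_lit 409645) (nat_lit 18) (.e (nat_lit 303137) (nat_lit 10) (.e (nat_lit 434275) (nat_lit 39) (.e (nat_lit 663574) (nat_lit 9) (.e (nat_lit 2473) (nat_lit 157) (.e (nat_lit 3469) (nat_lit 217) (.e (nat_lit 696344) (nat_lit 8) (.e (nat_lit 172079) (nat_lit 7) .nil)))))))) (.g (nat_lit 1) (.e (nat_lit 292436) (nat_lit 0) .nil) .nil)))) 
(.nd (nat_lit 9) 
(.lf (nat_lit 549174) (.g (nat_lit 1389) (.e (nat_lit 417536) (nat_lit 10) (.e (nat_lit 932) (nat_lit 76) (.e (nat_lit 786480) (nat_lit 29) (.e (nat_lit 352312) (nat_lit 22) (.e (nat_lit 98048) (nat_lit 2) .nil))))) (.g (nat_lit 0) (.e (nat_lit 291637) (nat_lit 0) .nil) .nil))) 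
(.lf (nat_lit 549686) (.g (nat_lit 2945) (.e (nat_lit 409648) (nat_lit 18) (.e (nat_lit 303137) (nat_lit 10) (.e (nat_lit 434275) (nat_lit 39) (.e (nat_lit 663584) (nat_lit 12) (.e (nat_lit 164017) (nat_lit 44) (.e (nat_lit 688138) (nat_lit 5) (.e (nat_lit 2887) (nat_lit 184) (.e (nat_lit 426170) (nat_lit 7) .nil)))))))) (.g (nat_lit 1) (.e (nat_lit 293849) (nat_lit 0) .nil) .nil))))) 
(.nd (nat_lit 8) (.nd (nat_lit 9) 
(.lf (nat_lit 549046) (.g (nat_lit 1057) (.e (nat_lit 409611) (nat_lit 10) (.e (nat_lit 632) (nat_lit 50) (.e (nat_lit 573491) (nat_lit 15) (.e (nat_lit 81946) (nat_lit 20) .nil)))) (.g (nat_lit 0) (.e (nat_lit 291220) (nat_lit 0) .nil) .nil))) 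
(.lf (nat_lit 549558) (.g (nat_lit 1913) (.e (nat_lit 409647) (nat_lit 18) (.e (nat_lit 303117) (nat_lit 2) (.e (nat_lit 196666) (nat_lit 13) (.e (nat_lit 65614) (nat_lit 10) .nil)))) (.g (nat_lit 0) (.e (nat_lit 293479) (nat_lit 0) .nil) .nil)))) (.nd (nat_lit 9) 
(.lf (nat_lit 549302) (.g (nat_lit 1848) (.e (nat_lit 409644) (nat_lit 18) (.e (nat_lit 303112) (nat_lit 0) (.e (nat_lit 3252) (nat_lit 197) (.e (nat_lit 532530) (nat_lit 9) (.e (nat_lit 336129) (nat_lit 9) .nil))))) (.g (nat_lit 0) (.e (nat_lit 291938) (nat_lit 0) .nil) .nil))) 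
(.lf (nat_lit 549814) (.g (nat_lit 2944) (.e (nat_lit 409649) (nat_lit 18) (.e (nat_lit 303140) (nat_lit 10) (.e (nat_lit 434275) (nat_lit 39) (.e (nat_lit 663584) (nat_lit 12) (.e (nat_lit 164018) (nat_lit 45) (.e (nat_lit 696344) (nat_lit 8) (.e (nat_lit 172078) (nat_lit 7) .nil))))))) (.g (nat_lit 1) (.e (nat_lit 294336) (nat_lit 0) .nil) .nil)))))) 
(.nd (nat_lit 7) (.nd (nat_lit 8) (.nd (nat_lit 9) 
(.lf (nat_lit 548982) (.g (nat_lit 2276) (.e (nat_lit 409602) (nat_lit 0) (.e (nat_lit 5293) (nat_lit 298) (.e (nat_lit 1656) (nat_lit 115) (.e (nat_lit 393281) (nat_lit 23) (.e (nat_lit 426142) (nat_lit 4) .nil))))) (.g (nat_lit 0) (.e (nat_lit 291107) (nat_lit 0) .nil) .nil))) 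
(.lf (nat_lit 549494) (.g (nat_lit 2451) (.e (nat_lit 409646) (nat_lit 18) (.e (nat_lit 303119) (nat_lit 3) (.e (nat_lit 204861) (nat_lit 26) (.e (nat_lit 336186) (nat_lit 11) (.e (nat_lit 368676) (nat_lit 21) (.e (nat_lit 524032) (nat_lit 7) .nil)))))) (.g (nat_lit 1) (.e (nat_lit 292873) (nat_lit 0) .nil) .nil)))) (.nd (nat_lit 9) 
(.lf (nat_lit 549238) (.g (nat_lit 638) (.e (nat_lit 409643) (nat_lit 18) (.e (nat_lit 303117) (nat_lit 2) (.e (nat_lit 196667) (nat_lit 14) .nil))) (.g (nat_lit 0) (.e (nat_lit 291772) (nat_lit 0) .nil) .nil))) 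
(.lf (nat_lit 549750) (.g (nat_lit 2316) (.e (nat_lit 409649) (nat_lit 18) (.e (nat_lit 303117) (nat_lit 2) (.e (nat_lit 196672) (nat_lit 15) (.e (nat_lit 81943) (nat_lit 20) (.e (nat_lit 1798) (nat_lit 119) .nil))))) (.g (nat_lit 0) (.e (nat_lit 294065) (nat_lit 0) .nil) .nil))))) (.nd (nat_lit 8) (.nd (nat_lit 9) 
(.lf (nat_lit 549110) (.g (nat_lit 2473) (.e (nat_lit 409617) (nat_lit 10) (.e (nat_lit 632) (nat_lit 50) (.e (nat_lit 573485) (nat_lit 13) (.e (nat_lit 65619) (nat_lit 10) (.e (nat_lit 344183) (nat_lit 49) (.e (nat_lit 819219) (nat_lit 4) (.e (nat_lit 172081) (nat_lit 7) .nil))))))) (.g (nat_lit 1) (.e (nat_lit 291454) (nat_lit 0) .nil) .nil))) 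
(.lf (nat_lit 549622) (.g (nat_lit 3241) (.e (nat_lit 409648) (nat_lit 18) (.e (nat_lit 303117) (nat_lit 2) (.e (nat_lit 196666) (nat_lit 13) (.e (nat_lit 65601) (nat_lit 9) .nil)))) (.g (nat_lit 0) (.e (nat_lit 293649) (nat_lit 0) .nil) .nil)))) (.nd (nat_lit 9) 
(.lf (nat_lit 549366) (.g (nat_lit 2769) (.e (nat_lit 409645) (nat_lit 18) (.e (nat_lit 303106) (nat_lit 0) (.e (nat_lit 3114) (nat_lit 193) (.e (nat_lit 500074) (nat_lit 20) (.e (nat_lit 81954) (nat_lit 23) (.e (nat_lit 98350) (nat_lit 24) .nil)))))) (.g (nat_lit 1) (.e (nat_lit 292061) (nat_lit 0) .nil) .nil))) 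
(.lf (nat_lit 549878) (.g (nat_lit 2278) (.e (nat_lit 417536) (nat_lit 18) (.e (nat_lit 303119) (nat_lit 3) (.e (nat_lit 204846) (nat_lit 24) (.e (nat_lit 319491) (nat_lit 0) .nil)))) (.g (nat_lit 0) (.e (nat_lit 294550) (nat_lit 0) .nil) .nil))))))))) (.nd (nat_lit 4) (.nd (nat_lit 5) (.nd (nat_lit 6) (.nd (nat_lit 7) (.nd (nat_lit 8) (.nd (nat_lit 9) 
(.lf (nat_lit 548878) (.g (nat_lit 792) (.e (nat_lit 294953) (nat_lit 12) (.e (nat_lit 385074) (nat_lit 31) (.e (nat_lit 573493) (nat_lit 15) .nil))) (.g (nat_lit 0) (.e (nat_lit 290556) (nat_lit 0) .nil) .nil))) 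
(.lf (nat_lit 549390) (.g (nat_lit 1866) (.e (nat_lit 409645) (nat_lit 18) (.e (nat_lit 303117) (nat_lit 2) (.e (nat_lit 196674) (nat_lit 15) (.e (nat_lit 81947) (nat_lit 20) (.e (nat_lit 1802) (nat_lit 119) .nil))))) (.g (nat_lit 0) (.e (nat_lit 292116) (nat_lit 0) .nil) .nil)))) (.nd (nat_lit 9) 
(.lf (nat_lit 549134) (.g (nat_lit 1634) (.e (nat_lit 409617) (nat_lit 10) (.e (nat_lit 632) (nat_lit 50) (.e (nat_lit 573491) (nat_lit 15) (.e (nat_lit 81942) (nat_lit 20) .nil)))) (.g (nat_lit 0) (.e (nat_lit 291482) (nat_lit 0) .nil) .nil))) 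
(.lf (nat_lit 549646) (.g (nat_lit 1579) (.e (nat_lit 409648) (nat_lit 18) (.e (nat_lit 303118) (nat_lit 3) (.e (nat_lit 204868) (nat_lit 29) (.e (nat_lit 360466) (nat_lit 3) (.e (nat_lit 524032) (nat_lit 7) .nil))))) (.g (nat_lit 0) (.e (nat_lit 293685) (nat_lit 0) .nil) .nil))))) (.nd (nat_lit 8) (.nd (nat_lit 9) 
(.lf (nat_lit 549006) (.g (nat_lit 1273) (.e (nat_lit 409603) (nat_lit 0) (.e (nat_lit 5293) (nat_lit 298) (.e (nat_lit 1423) (nat_lit 108) (.e (nat_lit 336423) (nat_lit 28) (.e (nat_lit 434193) (nat_lit 13) (.e (nat_lit 2788) (nat_lit 179) (.e (nat_lit 302848) (nat_lit 25) .nil))))))) (.g (nat_lit 1) (.e (nat_lit 291141) (nat_lit 0) .nil) .nil))) 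
(.lf (nat_lit 549518) (.g (nat_lit 2425) (.e (nat_lit 409646) (nat_lit 18) (.e (nat_lit 303140) (nat_lit 10) (.e (nat_lit 434275) (nat_lit 39) (.e (nat_lit 663584) (nat_lit 12) (.e (nat_lit 164018) (nat_lit 45) (.e (nat_lit 696344) (nat_lit 8) (.e (nat_lit 172078) (nat_lit 7) .nil))))))) (.g (nat_lit 1) (.e (nat_lit 293165) (nat_lit 0) .nil) .nil)))) (.nd (nat_lit 9) 
(.lf (nat_lit 549262) (.g (nat_lit 2066) (.e (nat_lit 409643) (nat_lit 18) (.e (nat_lit 303119) (nat_lit 3) (.e (nat_lit 204854) (nat_lit 26) (.e (nat_lit 336160) (nat_lit 10) .nil)))) (.g (nat_lit 0) (.e (nat_lit 291797) (nat_lit 0) .nil) .nil))) 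
(.lf (nat_lit 549774) (.g (nat_lit 2184) (.e (nat_lit 409649) (nat_lit 18) (.e (nat_lit 303119) (nat_lit 3) (.e (nat_lit 204854) (nat_lit 26) (.e (nat_lit 336182) (nat_lit 11) (.e (nat_lit 368677) (nat_lit 21) .nil))))) (.g (nat_lit 0) (.e (nat_lit 294104) (nat_lit 0) .nil) .nil)))))) (.nd (nat_lit 7) (.nd (nat_lit 8) (.nd (nat_lit 9) 
(.lf (nat_lit 548942) (.g (nat_lit 1995) (.e (nat_lit 294974) (nat_lit 29) (.e (nat_lit 442377) (nat_lit 0) (.e (nat_lit 2059) (nat_lit 142) (.e (nat_lit 704595) (nat_lit 5) (.e (nat_lit 180285) (nat_lit 45) (.e (nat_lit 2787) (nat_lit 179) .nil)))))) (.g (nat_lit 1) (.e (nat_lit 290802) (nat_lit 0) .nil) .nil))) 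
(.lf (nat_lit 549454) (.g (nat_lit 2679) (.e (nat_lit 409645) (nat_lit 18) (.e (nat_lit 303146) (nat_lit 14) (.e (nat_lit 491560) (nat_lit 10) (.e (nat_lit 344156) (nat_lit 36) (.e (nat_lit 638999) (nat_lit 8) (.e (nat_lit 172079) (nat_lit 7) .nil)))))) (.g (nat_lit 1) (.e (nat_lit 292751) (nat_lit 0) .nil) .nil)))) (.nd (nat_lit 9) 
(.lf (nat_lit 549198) (.g (nat_lit 1918) (.e (nat_lit 409638) (nat_lit 15) (.e (nat_lit 278566) (nat_lit 16) (.e (nat_lit 286754) (nat_lit 10) (.e (nat_lit 344156) (nat_lit 36) (.e (nat_lit 638998) (nat_lit 8) (.e (nat_lit 172081) (nat_lit 7) .nil)))))) (.g (nat_lit 1) (.e (nat_lit 291720) (nat_lit 0) .nil) .nil))) 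
(.lf (nat_lit 549710) (.g (nat_lit 2892) (.e (nat_lit 409649) (nat_lit 18) (.e (nat_lit 303111) (nat_lit 0) (.e (nat_lit 3238) (nat_lit 197) (.e (nat_lit 532535) (nat_lit 9) (.e (nat_lit 336099) (nat_lit 9) .nil))))) (.g (nat_lit 0) (.e (nat_lit 294002) (nat_lit 0) .nil) .nil))))) (.nd (nat_lit 8) (.nd (nat_lit 9) 
(.lf (nat_lit 549070) (.g (nat_lit 1751) (.e (nat_lit 409615) (nat_lit 10) (.e (nat_lit 632) (nat_lit 50) (.e (nat_lit 573491) (nat_lit 15) (.e (nat_lit 81946) (nat_lit 20) .nil)))) (.g (nat_lit 0) (.e (nat_lit 291342) (nat_lit 0) .nil) .nil))) 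
(.lf (nat_lit 549582) (.g (nat_lit 696) (.e (nat_lit 409647) (nat_lit 18) (.e (nat_lit 303119) (nat_lit 3) (.e (nat_lit 204816) (nat_lit 17) .nil))) (.g (nat_lit 0) (.e (nat_lit 293515) (nat_lit 0) .nil) .nil)))) (.nd (nat_lit 9) 
(.lf (nat_lit 549326) (.g (nat_lit 2093) (.e (nat_lit 409644) (nat_lit 18) (.e (nat_lit 303117) (nat_lit 2) (.e (nat_lit 196681) (nat_lit 17) (.e (nat_lit 131104) (nat_lit 9) .nil)))) (.g (nat_lit 0) (.e (nat_lit 291962) (nat_lit 0) .nil) .nil))) 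
(.lf (nat_lit 549838) (.g (nat_lit 1702) (.e (nat_lit 409649) (nat_lit 18) (.e (nat_lit 303146) (nat_lit 14) (.e (nat_lit 491560) (nat_lit 10) (.e (nat_lit 344153) (nat_lit 35) .nil)))) (.g (nat_lit 0) (.e (nat_lit 294491) (nat_lit 0) .nil) .nil))))))) (.nd (nat_lit 6) (.nd (nat_lit 7) (.nd (nat_lit 8) (.nd (nat_lit 9) 
(.lf (nat_lit 548910) (.g (nat_lit 2013) (.e (nat_lit 294969) (nat_lit 27) (.e (nat_lit 426340) (nat_lit 14) (.e (nat_lit 491549) (nat_lit 9) (.e (nat_lit 336421) (nat_lit 28) (.e (nat_lit 434189) (nat_lit 13) (.e (nat_lit 2789) (nat_lit 179) .nil)))))) (.g (nat_lit 1) (.e (nat_lit 290730) (nat_lit 0) .nil) .nil))) 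
(.lf (nat_lit 549422) (.g (nat_lit 189) (.e (nat_lit 409645) (nat_lit 18) (.e (nat_lit 303133) (nat_lit 9) (.e (nat_lit 426412) (nat_lit 15) .nil))) (.g (nat_lit 0) (.e (nat_lit 292351) (nat_lit 0) .nil) .nil)))) (.nd (nat_lit 9) 
(.lf (nat_lit 549166) (.g (nat_lit 482) (.e (nat_lit 409623) (nat_lit 10) (.e (nat_lit 5664) (nat_lit 312) (.e (nat_lit 3055) (nat_lit 190) .nil))) (.g (nat_lit 0) (.e (nat_lit 291597) (nat_lit 0) .nil) .nil))) 
(.lf (nat_lit 549678) (.g (nat_lit 3229) (.e (nat_lit 409648) (nat_lit 18) (.e (nat_lit 303137) (nat_lit 10) (.e (nat_lit 434275) (nat_lit 39) (.e (nat_lit 663574) (nat_lit 9) (.e (nat_lit 2456) (nat_lit 157) (.e (nat_lit 3469) (nat_lit 217) (.e (nat_lit 696344) (nat_lit 8) (.e (nat_lit 172079) (nat_lit 7) .nil)))))))) (.g (nat_lit 1) (.e (nat_lit 293780) (nat_lit 0) .nil) .nil))))) 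
(.nd (nat_lit 8) (.nd (nat_lit 9) 
(.lf (nat_lit 549038) (.g (nat_lit 1967) (.e (nat_lit 409611) (nat_lit 10) (.e (nat_lit 632) (nat_lit 50) (.e (nat_lit 573482) (nat_lit 13) (.e (nat_lit 65616) (nat_lit 10) (.e (nat_lit 344183) (nat_lit 49) .nil))))) (.g (nat_lit 0) (.e (nat_lit 291208) (nat_lit 0) .nil) .nil))) 
(.lf (nat_lit 549550) (.g (nat_lit 785) (.e (nat_lit 409647) (nat_lit 18) (.e (nat_lit 303116) (nat_lit 2) (.e (nat_lit 196673) (nat_lit 15) (.e (nat_lit 81962) (nat_lit 25) .nil)))) (.g (nat_lit 0) (.e (nat_lit 293470) (nat_lit 0) .nil) .nil)))) (.nd (nat_lit 9) 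
(.lf (nat_lit 549294) (.g (nat_lit 2243) (.e (nat_lit 409643) (nat_lit 18) (.e (nat_lit 303143) (nat_lit 12) (.e (nat_lit 475199) (nat_lit 40) (.e (nat_lit 704800) (nat_lit 14) .nil)))) (.g (nat_lit 0) (.e (nat_lit 291840) (nat_lit 0) .nil) .nil))) 
(.lf (nat_lit 549806) (.g (nat_lit 855) (.e (nat_lit 409649) (nat_lit 18) (.e (nat_lit 303140) (nat_lit 10) (.e (nat_lit 434275) (nat_lit 39) (.e (nat_lit 663580) (nat_lit 9) .nil)))) (.g (nat_lit 0) (.e (nat_lit 294273) (nat_lit 0) .nil) .nil)))))) (.nd (nat_lit 7) (.nd (nat_lit 8) (.nd (nat_lit 9) 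
(.lf (nat_lit 548974) (.g (nat_lit 1945) (.e (nat_lit 409602) (nat_lit 0) (.e (nat_lit 5293) (nat_lit 298) (.e (nat_lit 1656) (nat_lit 115) (.e (nat_lit 393266) (nat_lit 23) (.e (nat_lit 426142) (nat_lit 4) .nil))))) (.g (nat_lit 0) (.e (nat_lit 291099) (nat_lit 0) .nil) .nil))) 
(.lf (nat_lit 549486) (.g (nat_lit 1953) (.e (nat_lit 409646) (nat_lit 18) (.e (nat_lit 303118) (nat_lit 3) (.e (nat_lit 204855) (nat_lit 26) (.e (nat_lit 336176) (nat_lit 10) (.e (nat_lit 344120) (nat_lit 21) .nil))))) (.g (nat_lit 0) (.e (nat_lit 292843) (nat_lit 0) .nil) .nil)))) (.nd (nat_lit 9) 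
(.lf (nat_lit 549230) (.g (nat_lit 3028) (.e (nat_lit 409643) (nat_lit 18) (.e (nat_lit 303117) (nat_lit 2) (.e (nat_lit 196666) (nat_lit 13) (.e (nat_lit 65592) (nat_lit 9) .nil)))) (.g (nat_lit 0) (.e (nat_lit 291764) (nat_lit 0) .nil) .nil))) 
(.lf (nat_lit 549742) (.g (nat_lit 2824) (.e (nat_lit 409649) (nat_lit 18) (.e (nat_lit 303117) (nat_lit 2) (.e (nat_lit 196666) (nat_lit 13) (.e (nat_lit 65605) (nat_lit 9) .nil)))) (.g (nat_lit 0) (.e (nat_lit 294054) (nat_lit 0) .nil) .nil))))) (.nd (nat_lit 8) (.nd (nat_lit 9) 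
(.lf (nat_lit 549102) (.g (nat_lit 3035) (.e (nat_lit 409616) (nat_lit 10) (.e (nat_lit 5780) (nat_lit 317) (.e (nat_lit 180271) (nat_lit 26) (.e (nat_lit 704737) (nat_lit 11) (.e (nat_lit 16473) (nat_lit 14) (.e (nat_lit 499456) (nat_lit 25) .nil)))))) (.g (nat_lit 1) (.e (nat_lit 291427) (nat_lit 0) .nil) .nil))) 
(.lf (nat_lit 549614) (.g (nat_lit 3447) (.e (nat_lit 409648) (nat_lit 18) (.e (nat_lit 303116) (nat_lit 2) (.e (nat_lit 196673) (nat_lit 15) (.e (nat_lit 81953) (nat_lit 22) (.e (nat_lit 90130) (nat_lit 9) (.e (nat_lit 2830) (nat_lit 182) .nil)))))) (.g (nat_lit 1) (.e (nat_lit 293638) (nat_lit 0) .nil) .nil)))) (.nd (nat_lit 9) 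
(.lf (nat_lit 549358) (.g (nat_lit 2371) (.e (nat_lit 409644) (nat_lit 18) (.e (nat_lit 303143) (nat_lit 12) (.e (nat_lit 475199) (nat_lit 40) (.e (nat_lit 704777) (nat_lit 14) .nil)))) (.g (nat_lit 0) (.e (nat_lit 292008) (nat_lit 0) .nil) .nil))) 
(.lf (nat_lit 549870) (.g (nat_lit 1499) (.e (nat_lit 417536) (nat_lit 18) (.e (nat_lit 303118) (nat_lit 3) (.e (nat_lit 204852) (nat_lit 26) (.e (nat_lit 336160) (nat_lit 10) .nil)))) (.g (nat_lit 0) (.e (nat_lit 294534) (nat_lit 0) .nil) .nil)))))))) (.nd (nat_lit 5) (.nd (nat_lit 6) (.nd (nat_lit 7) (.nd (nat_lit 8) (.nd (nat_lit 9) 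
(.lf (nat_lit 548894) (.g (nat_lit 2333) (.e (nat_lit 294959) (nat_lit 13) (.e (nat_lit 393260) (nat_lit 21) (.e (nat_lit 409648) (nat_lit 18) (.e (nat_lit 303108) (nat_lit 0) (.e (nat_lit 3469) (nat_lit 217) (.e (nat_lit 704256) (nat_lit 0) (.e (nat_lit 2788) (nat_lit 179) .nil))))))) (.g (nat_lit 1) (.e (nat_lit 290587) (nat_lit 0) .nil) .nil))) 
(.lf (nat_lit 549406) (.g (nat_lit 1911) (.e (nat_lit 409645) (nat_lit 18) (.e (nat_lit 303119) (nat_lit 3) (.e (nat_lit 204855) (nat_lit 26) (.e (nat_lit 336104) (nat_lit 9) .nil)))) (.g (nat_lit 0) (.e (nat_lit 292165) (nat_lit 0) .nil) .nil)))) (.nd (nat_lit 9) 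
(.lf (nat_lit 549150) (.g (nat_lit 1409) (.e (nat_lit 409617) (nat_lit 10) (.e (nat_lit 5776) (nat_lit 317) (.e (nat_lit 180271) (nat_lit 26) (.e (nat_lit 704737) (nat_lit 11) (.e (nat_lit 16473) (nat_lit 14) .nil))))) (.g (nat_lit 0) (.e (nat_lit 291562) (nat_lit 0) .nil) .nil))) 
(.lf (nat_lit 549662) (.g (nat_lit 1830) (.e (nat_lit 409648) (nat_lit 18) (.e (nat_lit 303119) (nat_lit 3) (.e (nat_lit 204861) (nat_lit 26) (.e (nat_lit 335892) (nat_lit 0) (.e (nat_lit 6436) (nat_lit 343) .nil))))) (.g (nat_lit 0) (.e (nat_lit 293706) (nat_lit 0) .nil) .nil))))) (.nd (nat_lit 8) (.nd (nat_lit 9) 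
(.lf (nat_lit 549022) (.g (nat_lit 2718) (.e (nat_lit 417536) (nat_lit 8) (.e (nat_lit 303119) (nat_lit 3) (.e (nat_lit 204846) (nat_lit 24) (.e (nat_lit 319504) (nat_lit 10) (.e (nat_lit 5389) (nat_lit 301) .nil))))) (.g (nat_lit 0) (.e (nat_lit 291177) (nat_lit 0) .nil) .nil))) 
(.lf (nat_lit 549534) (.g (nat_lit 2164) (.e (nat_lit 409646) (nat_lit 18) (.e (nat_lit 303143) (nat_lit 12) (.e (nat_lit 475199) (nat_lit 40) (.e (nat_lit 704777) (nat_lit 14) (.e (nat_lit 2587) (nat_lit 162) .nil))))) (.g (nat_lit 0) (.e (nat_lit 293272) (nat_lit 0) .nil) .nil)))) (.nd (nat_lit 9) 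
(.lf (nat_lit 549278) (.g (nat_lit 2355) (.e (nat_lit 409643) (nat_lit 18) (.e (nat_lit 303119) (nat_lit 3) (.e (nat_lit 204869) (nat_lit 29) (.e (nat_lit 368384) (nat_lit 3) .nil)))) (.g (nat_lit 0) (.e (nat_lit 291822) (nat_lit 0) .nil) .nil))) 
(.lf (nat_lit 549790) (.g (nat_lit 3012) (.e (nat_lit 409649) (nat_lit 18) (.e (nat_lit 303132) (nat_lit 9) (.e (nat_lit 426160) (nat_lit 6) (.e (nat_lit 253990) (nat_lit 11) (.e (nat_lit 16473) (nat_lit 14) (.e (nat_lit 499456) (nat_lit 25) .nil)))))) (.g (nat_lit 1) (.e (nat_lit 294192) (nat_lit 0) .nil) .nil)))))) (.nd (nat_lit 7) (.nd (nat_lit 8) (.nd (nat_lit 9) 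
(.lf (nat_lit 548958) (.g (nat_lit 2594) (.e (nat_lit 409602) (nat_lit 0) (.e (nat_lit 5626) (nat_lit 312) (.e (nat_lit 2685) (nat_lit 168) (.e (nat_lit 204846) (nat_lit 24) (.e (nat_lit 327424) (nat_lit 16) (.e (nat_lit 286735) (nat_lit 3) (.e (nat_lit 98350) (nat_lit 24) .nil))))))) (.g (nat_lit 1) (.e (nat_lit 291079) (nat_lit 0) .nil) .nil))) 
(.lf (nat_lit 549470) (.g (nat_lit 402) (.e (nat_lit 409646) (nat_lit 18) (.e (nat_lit 303117) (nat_lit 2) (.e (nat_lit 196665) (nat_lit 13) .nil))) (.g (nat_lit 0) (.e (nat_lit 292805) (nat_lit 0) .nil) .nil)))) (.nd (nat_lit 9) 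
(.lf (nat_lit 549214) (.g (nat_lit 438) (.e (nat_lit 409639) (nat_lit 15) (.e (nat_lit 278566) (nat_lit 16) (.e (nat_lit 286754) (nat_lit 10) (.e (nat_lit 344154) (nat_lit 35) .nil)))) (.g (nat_lit 0) (.e (nat_lit 291748) (nat_lit 0) .nil) .nil))) 
(.lf (nat_lit 549726) (.g (nat_lit 368) (.e (nat_lit 409649) (nat_lit 18) (.e (nat_lit 303116) (nat_lit 2) (.e (nat_lit 196666) (nat_lit 13) .nil))) (.g (nat_lit 0) (.e (nat_lit 294034) (nat_lit 0) .nil) .nil))))) (.nd (nat_lit 8) (.nd (nat_lit 9) 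
(.lf (nat_lit 549086) (.g (nat_lit 3508) (.e (nat_lit 409616) (nat_lit 10) (.e (nat_lit 632) (nat_lit 50) (.e (nat_lit 573489) (nat_lit 14) (.e (nat_lit 73755) (nat_lit 8) (.e (nat_lit 557105) (nat_lit 14) (.e (nat_lit 180252) (nat_lit 10) (.e (nat_lit 573441) (nat_lit 0) (.e (nat_lit 2822) (nat_lit 182) .nil)))))))) (.g (nat_lit 1) (.e (nat_lit 291377) (nat_lit 0) .nil) .nil))) 
(.lf (nat_lit 549598) (.g (nat_lit 2240) (.e (nat_lit 409647) (nat_lit 18) (.e (nat_lit 303143) (nat_lit 12) (.e (nat_lit 475199) (nat_lit 40) (.e (nat_lit 704789) (nat_lit 14) .nil)))) (.g (nat_lit 0) (.e (nat_lit 293544) (nat_lit 0) .nil) .nil)))) (.nd (nat_lit 9) 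
(.lf (nat_lit 549342) (.g (nat_lit 2574) (.e (nat_lit 409644) (nat_lit 18) (.e (nat_lit 303119) (nat_lit 3) (.e (nat_lit 204861) (nat_lit 26) (.e (nat_lit 336076) (nat_lit 9) (.e (nat_lit 336019) (nat_lit 3) .nil))))) (.g (nat_lit 0) (.e (nat_lit 291980) (nat_lit 0) .nil) .nil))) 
(.lf (nat_lit 549854) (.g (nat_lit 2296) (.e (nat_lit 417536) (nat_lit 18) (.e (nat_lit 303117) (nat_lit 2) (.e (nat_lit 196666) (nat_lit 13) (.e (nat_lit 65614) (nat_lit 10) .nil)))) (.g (nat_lit 0) (.e (nat_lit 294517) (nat_lit 0) .nil) .nil))))))) (.nd (nat_lit 6) (.nd (nat_lit 7) (.nd (nat_lit 8) (.nd (nat_lit 9) 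
(.lf (nat_lit 548926) (.g (nat_lit 2090) (.e (nat_lit 294973) (nat_lit 28) (.e (nat_lit 434180) (nat_lit 0) (.e (nat_lit 1427) (nat_lit 108) (.e (nat_lit 336421) (nat_lit 28) (.e (nat_lit 434189) (nat_lit 13) (.e (nat_lit 2787) (nat_lit 179) .nil)))))) (.g (nat_lit 1) (.e (nat_lit 290775) (nat_lit 0) .nil) .nil))) 
(.lf (nat_lit 549438) (.g (nat_lit 2269) (.e (nat_lit 409645) (nat_lit 18) (.e (nat_lit 303143) (nat_lit 12) (.e (nat_lit 475199) (nat_lit 40) (.e (nat_lit 704614) (nat_lit 9) .nil)))) (.g (nat_lit 0) (.e (nat_lit 292516) (nat_lit 0) .nil) .nil)))) (.nd (nat_lit 9) 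
(.lf (nat_lit 549182) (.g (nat_lit 2020) (.e (nat_lit 409631) (nat_lit 12) (.e (nat_lit 32807) (nat_lit 18) (.e (nat_lit 172119) (nat_lit 12) (.e (nat_lit 475185) (nat_lit 29) (.e (nat_lit 557098) (nat_lit 13) .nil))))) (.g (nat_lit 0) (.e (nat_lit 291678) (nat_lit 0) .nil) .nil))) 
(.lf (nat_lit 549694) (.g (nat_lit 2569) (.e (nat_lit 409648) (nat_lit 18) (.e (nat_lit 303142) (nat_lit 12) (.e (nat_lit 475220) (nat_lit 44) (.e (nat_lit 737318) (nat_lit 15) (.e (nat_lit 49188) (nat_lit 11) (.e (nat_lit 16425) (nat_lit 7) .nil)))))) (.g (nat_lit 1) (.e (nat_lit 293898) (nat_lit 0) .nil) .nil))))) (.nd (nat_lit 8) (.nd (nat_lit 9) 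
(.lf (nat_lit 549054) (.g (nat_lit 3631) (.e (nat_lit 409612) (nat_lit 10) (.e (nat_lit 632) (nat_lit 50) (.e (nat_lit 573489) (nat_lit 14) (.e (nat_lit 73755) (nat_lit 8) (.e (nat_lit 557104) (nat_lit 14) (.e (nat_lit 180244) (nat_lit 5) (.e (nat_lit 540416) (nat_lit 24) .nil))))))) (.g (nat_lit 1) (.e (nat_lit 291281) (nat_lit 0) .nil) .nil))) 
(.lf (nat_lit 549566) (.g (nat_lit 2186) (.e (nat_lit 409647) (nat_lit 18) (.e (nat_lit 303117) (nat_lit 2) (.e (nat_lit 196672) (nat_lit 15) (.e (nat_lit 81960) (nat_lit 25) (.e (nat_lit 139285) (nat_lit 9) .nil))))) (.g (nat_lit 0) (.e (nat_lit 293487) (nat_lit 0) .nil) .nil)))) (.nd (nat_lit 9) 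
(.lf (nat_lit 549310) (.g (nat_lit 3268) (.e (nat_lit 409644) (nat_lit 18) (.e (nat_lit 303117) (nat_lit 2) (.e (nat_lit 196666) (nat_lit 13) (.e (nat_lit 65601) (nat_lit 9) .nil)))) (.g (nat_lit 0) (.e (nat_lit 291946) (nat_lit 0) .nil) .nil))) 
(.lf (nat_lit 549822) (.g (nat_lit 1611) (.e (nat_lit 409649) (nat_lit 18) (.e (nat_lit 303143) (nat_lit 12) (.e (nat_lit 475199) (nat_lit 40) (.e (nat_lit 704790) (nat_lit 14) (.e (nat_lit 2593) (nat_lit 162) .nil))))) (.g (nat_lit 0) (.e (nat_lit 294372) (nat_lit 0) .nil) .nil)))))) (.nd (nat_lit 7) (.nd (nat_lit 8) (.nd (nat_lit 9) 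
(.lf (nat_lit 548990) (.g (nat_lit 1594) (.e (nat_lit 409603) (nat_lit 0) (.e (nat_lit 5626) (nat_lit 312) (.e (nat_lit 2685) (nat_lit 168) (.e (nat_lit 204846) (nat_lit 24) (.e (nat_lit 319533) (nat_lit 16) .nil))))) (.g (nat_lit 0) (.e (nat_lit 291117) (nat_lit 0) .nil) .nil))) 
(.lf (nat_lit 549502) (.g (nat_lit 2329) (.e (nat_lit 409646) (nat_lit 18) (.e (nat_lit 303119) (nat_lit 3) (.e (nat_lit 204877) (nat_lit 31) (.e (nat_lit 376865) (nat_lit 22) (.e (nat_lit 90128) (nat_lit 9) (.e (nat_lit 7936) (nat_lit 182) .nil)))))) (.g (nat_lit 1) (.e (nat_lit 292964) (nat_lit 0) .nil) .nil)))) (.nd (nat_lit 9) 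
(.lf (nat_lit 549246) (.g (nat_lit 3651) (.e (nat_lit 409643) (nat_lit 18) (.e (nat_lit 303117) (nat_lit 2) (.e (nat_lit 196674) (nat_lit 15) (.e (nat_lit 81953) (nat_lit 22) (.e (nat_lit 90130) (nat_lit 9) (.e (nat_lit 2830) (nat_lit 182) .nil)))))) (.g (nat_lit 1) (.e (nat_lit 291780) (nat_lit 0) .nil) .nil))) 
(.lf (nat_lit 549758) (.g (nat_lit 1943) (.e (nat_lit 409649) (nat_lit 18) (.e (nat_lit 303117) (nat_lit 2) (.e (nat_lit 196674) (nat_lit 15) (.e (nat_lit 81940) (nat_lit 20) (.e (nat_lit 1799) (nat_lit 119) .nil))))) (.g (nat_lit 0) (.e (nat_lit 294073) (nat_lit 0) .nil) .nil))))) (.nd (nat_lit 8) (.nd (nat_lit 9) 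
(.lf (nat_lit 549118) (.g (nat_lit 4176) (.e (nat_lit 409617) (nat_lit 10) (.e (nat_lit 632) (nat_lit 50) (.e (nat_lit 573489) (nat_lit 14) (.e (nat_lit 73755) (nat_lit 8) (.e (nat_lit 557097) (nat_lit 13) (.e (nat_lit 172067) (nat_lit 3) (.e (nat_lit 212736) (nat_lit 7) .nil))))))) (.g (nat_lit 1) (.e (nat_lit 291463) (nat_lit 0) .nil) .nil))) 
(.lf (nat_lit 549630) (.g (nat_lit 2480) (.e (nat_lit 409648) (nat_lit 18) (.e (nat_lit 303117) (nat_lit 2) (.e (nat_lit 196666) (nat_lit 13) (.e (nat_lit 65619) (nat_lit 10) .nil)))) (.g (nat_lit 0) (.e (nat_lit 293659) (nat_lit 0) .nil) .nil)))) (.nd (nat_lit 9) 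
(.lf (nat_lit 549374) (.g (nat_lit 1792) (.e (nat_lit 409645) (nat_lit 18) (.e (nat_lit 303116) (nat_lit 2) (.e (nat_lit 196681) (nat_lit 17) (.e (nat_lit 131104) (nat_lit 9) .nil)))) (.g (nat_lit 0) (.e (nat_lit 292081) (nat_lit 0) .nil) .nil))) 
(.lf (nat_lit 549886) (.g (nat_lit 1174) (.e (nat_lit 417536) (nat_lit 18) (.e (nat_lit 303119) (nat_lit 3) (.e (nat_lit 204855) (nat_lit 26) (.e (nat_lit 343808) (nat_lit 9) .nil)))) (.g (nat_lit 0) (.e (nat_lit 294562) (nat_lit 0) .nil) .nil)))))))))))) 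
(.nd (nat_lit 1) (.nd (nat_lit 2) (.nd (nat_lit 3) (.nd (nat_lit 4) (.nd (nat_lit 5) 
(.nd (nat_lit 6) (.nd (nat_lit 7) (.nd (nat_lit 8) (.nd (nat_lit 9) 
(.lf (nat_lit 548865) (.g (nat_lit 1425) (.e (nat_lit 294938) (nat_lit 9) (.e (nat_lit 336324) (nat_lit 18) (.e (nat_lit 204837) (nat_lit 20) (.e (nat_lit 122624) (nat_lit 12) .nil)))) (.g (nat_lit 0) (.e (nat_lit 290514) (nat_lit 0) .nil) .nil))) 
(.lf (nat_lit 549377) (.g (nat_lit 2156) (.e (nat_lit 409645) (nat_lit 18) (.e (nat_lit 303117) (nat_lit 2) (.e (nat_lit 196666) (nat_lit 13) (.e (nat_lit 65617) (nat_lit 10) .nil)))) (.g (nat_lit 0) (.e (nat_lit 292091) (nat_lit 0) .nil) .nil)))) (.nd (nat_lit 9) 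
(.lf (nat_lit 549121) (.g (nat_lit 2230) (.e (nat_lit 409617) (nat_lit 10) (.e (nat_lit 632) (nat_lit 50) (.e (nat_lit 573489) (nat_lit 14) (.e (nat_lit 73755) (nat_lit 8) (.e (nat_lit 557104) (nat_lit 14) .nil))))) (.g (nat_lit 0) (.e (nat_lit 291466) (nat_lit 0) .nil) .nil))) 
(.lf (nat_lit 549633) (.g (nat_lit 2541) (.e (nat_lit 409648) (nat_lit 18) (.e (nat_lit 303117) (nat_lit 2) (.e (nat_lit 196672) (nat_lit 15) (.e (nat_lit 81940) (nat_lit 20) .nil)))) (.g (nat_lit 0) (.e (nat_lit 293663) (nat_lit 0) .nil) .nil))))) (.nd (nat_lit 8) (.nd (nat_lit 9) 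
(.lf (nat_lit 548993) (.g (nat_lit 4921) (.e (nat_lit 409603) (nat_lit 0) (.e (nat_lit 5270) (nat_lit 298) (.e (nat_lit 1239) (nat_lit 91) (.e (nat_lit 90170) (nat_lit 13) (.e (nat_lit 172113) (nat_lit 10) (.e (nat_lit 434247) (nat_lit 28) (.e (nat_lit 573457) (nat_lit 9) (.e (nat_lit 359) (nat_lit 30) .nil)))))))) (.g (nat_lit 1) (.e (nat_lit 291120) (nat_lit 0) .nil) .nil))) 
(.lf (nat_lit 549505) (.g (nat_lit 1887) (.e (nat_lit 409646) (nat_lit 18) (.e (nat_lit 303133) (nat_lit 9) (.e (nat_lit 426412) (nat_lit 15) (.e (nat_lit 2059) (nat_lit 142) (.e (nat_lit 704857) (nat_lit 17) .nil))))) (.g (nat_lit 0) (.e (nat_lit 293055) (nat_lit 0) .nil) .nil)))) (.nd (nat_lit 9) 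
(.lf (nat_lit 549249) (.g (nat_lit 507) (.e (nat_lit 409643) (nat_lit 18) (.e (nat_lit 303118) (nat_lit 3) (.e (nat_lit 204865) (nat_lit 28) .nil))) (.g (nat_lit 0) (.e (nat_lit 291783) (nat_lit 0) .nil) .nil))) 
(.lf (nat_lit 549761) (.g (nat_lit 2071) (.e (nat_lit 409649) (nat_lit 18) (.e (nat_lit 303117) (nat_lit 2) (.e (nat_lit 196681) (nat_lit 17) (.e (nat_lit 131104) (nat_lit 9) .nil)))) (.g (nat_lit 0) (.e (nat_lit 294076) (nat_lit 0) .nil) .nil)))))) (.nd (nat_lit 7) (.nd (nat_lit 8) (.nd (nat_lit 9) 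
(.lf (nat_lit 548929) (.g (nat_lit 1729) (.e (nat_lit 294973) (nat_lit 28) (.e (nat_lit 434180) (nat_lit 0) (.e (nat_lit 1428) (nat_lit 108) (.e (nat_lit 336421) (nat_lit 28) (.e (nat_lit 434188) (nat_lit 13) (.e (nat_lit 2788) (nat_lit 179) .nil)))))) (.g (nat_lit 1) (.e (nat_lit 290778) (nat_lit 0) .nil) .nil))) 
(.lf (nat_lit 549441) (.g (nat_lit 2193) (.e (nat_lit 409645) (nat_lit 18) (.e (nat_lit 303143) (nat_lit 12) (.e (nat_lit 475199) (nat_lit 40) (.e (nat_lit 704673) (nat_lit 9) .nil)))) (.g (nat_lit 0) (.e (nat_lit 292519) (nat_lit 0) .nil) .nil)))) (.nd (nat_lit 9) 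
(.lf (nat_lit 549185) (.g (nat_lit 1375) (.e (nat_lit 409631) (nat_lit 12) (.e (nat_lit 32807) (nat_lit 18) (.e (nat_lit 172124) (nat_lit 14) (.e (nat_lit 491540) (nat_lit 3) (.e (nat_lit 98362) (nat_lit 26) .nil))))) (.g (nat_lit 0) (.e (nat_lit 291681) (nat_lit 0) .nil) .nil))) 
(.lf (nat_lit 549697) (.g (nat_lit 2384) (.e (nat_lit 409648) (nat_lit 18) (.e (nat_lit 303143) (nat_lit 12) (.e (nat_lit 475199) (nat_lit 40) (.e (nat_lit 704770) (nat_lit 14) .nil)))) (.g (nat_lit 0) (.e (nat_lit 293902) (nat_lit 0) .nil) .nil))))) (.nd (nat_lit 8) (.nd (nat_lit 9) 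
(.lf (nat_lit 549057) (.g (nat_lit 2303) (.e (nat_lit 409612) (nat_lit 10) (.e (nat_lit 632) (nat_lit 50) (.e (nat_lit 573491) (nat_lit 15) (.e (nat_lit 81938) (nat_lit 20) (.e (nat_lit 2391) (nat_lit 156) .nil))))) (.g (nat_lit 0) (.e (nat_lit 291286) (nat_lit 0) .nil) .nil))) 
(.lf (nat_lit 549569) (.g (nat_lit 2574) (.e (nat_lit 409647) (nat_lit 18) (.e (nat_lit 303117) (nat_lit 2) (.e (nat_lit 196674) (nat_lit 15) (.e (nat_lit 81946) (nat_lit 20) (.e (nat_lit 1802) (nat_lit 119) .nil))))) (.g (nat_lit 0) (.e (nat_lit 293490) (nat_lit 0) .nil) .nil)))) (.nd (nat_lit 9) 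
(.lf (nat_lit 549313) (.g (nat_lit 2124) (.e (nat_lit 409644) (nat_lit 18) (.e (nat_lit 303117) (nat_lit 2) (.e (nat_lit 196666) (nat_lit 13) (.e (nat_lit 65614) (nat_lit 10) .nil)))) (.g (nat_lit 0) (.e (nat_lit 291949) (nat_lit 0) .nil) .nil))) 
(.lf (nat_lit 549825) (.g (nat_lit 2464) (.e (nat_lit 409649) (nat_lit 18) (.e (nat_lit 303143) (nat_lit 12) (.e (nat_lit 475199) (nat_lit 40) (.e (nat_lit 704796) (nat_lit 14) .nil)))) (.g (nat_lit 0) (.e (nat_lit 294375) (nat_lit 0) .nil) .nil))))))) (.nd (nat_lit 6) (.nd (nat_lit 7) (.nd (nat_lit 8) (.nd (nat_lit 9) 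
(.lf (nat_lit 548897) (.g (nat_lit 2010) (.e (nat_lit 294966) (nat_lit 15) (.e (nat_lit 3307) (nat_lit 202) (.e (nat_lit 573485) (nat_lit 13) (.e (nat_lit 65604) (nat_lit 9) (.e (nat_lit 336013) (nat_lit 2) (.e (nat_lit 90165) (nat_lit 12) (.e (nat_lit 164207) (nat_lit 176) (.e (nat_lit 2788) (nat_lit 179) .nil)))))))) (.g (nat_lit 1) (.e (nat_lit 290626) (nat_lit 0) .nil) .nil))) 
(.lf (nat_lit 549409) (.g (nat_lit 2683) (.e (nat_lit 409645) (nat_lit 18) (.e (nat_lit 303119) (nat_lit 3) (.e (nat_lit 204861) (nat_lit 26) (.e (nat_lit 336184) (nat_lit 11) (.e (nat_lit 368676) (nat_lit 21) (.e (nat_lit 524032) (nat_lit 7) .nil)))))) (.g (nat_lit 1) (.e (nat_lit 292176) (nat_lit 0) .nil) .nil)))) (.nd (nat_lit 9) 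
(.lf (nat_lit 549153) (.g (nat_lit 2401) (.e (nat_lit 409623) (nat_lit 10) (.e (nat_lit 5626) (nat_lit 312) (.e (nat_lit 2668) (nat_lit 167) (.e (nat_lit 196666) (nat_lit 13) (.e (nat_lit 65617) (nat_lit 10) .nil))))) (.g (nat_lit 0) (.e (nat_lit 291575) (nat_lit 0) .nil) .nil))) 
(.lf (nat_lit 549665) (.g (nat_lit 669) (.e (nat_lit 409648) (nat_lit 18) (.e (nat_lit 303119) (nat_lit 3) (.e (nat_lit 204862) (nat_lit 27) .nil))) (.g (nat_lit 0) (.e (nat_lit 293710) (nat_lit 0) .nil) .nil))))) (.nd (nat_lit 8) (.nd (nat_lit 9) 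
(.lf (nat_lit 549025) (.g (nat_lit 1042) (.e (nat_lit 417536) (nat_lit 6) (.e (nat_lit 286733) (nat_lit 2) (.e (nat_lit 90133) (nat_lit 9) (.e (nat_lit 2400) (nat_lit 157) .nil)))) (.g (nat_lit 0) (.e (nat_lit 291180) (nat_lit 0) .nil) .nil))) 
(.lf (nat_lit 549537) (.g (nat_lit 2380) (.e (nat_lit 409646) (nat_lit 18) (.e (nat_lit 303143) (nat_lit 12) (.e (nat_lit 475199) (nat_lit 40) (.e (nat_lit 704793) (nat_lit 14) .nil)))) (.g (nat_lit 0) (.e (nat_lit 293276) (nat_lit 0) .nil) .nil)))) (.nd (nat_lit 9) 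
(.lf (nat_lit 549281) (.g (nat_lit 1744) (.e (nat_lit 409643) (nat_lit 18) (.e (nat_lit 303119) (nat_lit 3) (.e (nat_lit 204877) (nat_lit 31) (.e (nat_lit 376867) (nat_lit 23) .nil)))) (.g (nat_lit 0) (.e (nat_lit 291825) (nat_lit 0) .nil) .nil))) 
(.lf (nat_lit 549793) (.g (nat_lit 938) (.e (nat_lit 409649) (nat_lit 18) (.e (nat_lit 303140) (nat_lit 10) (.e (nat_lit 434275) (nat_lit 39) (.e (nat_lit 663574) (nat_lit 9) .nil)))) (.g (nat_lit 0) (.e (nat_lit 294237) (nat_lit 0) .nil) .nil)))))) (.nd (nat_lit 7) (.nd (nat_lit 8) (.nd (nat_lit 9) 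
(.lf (nat_lit 548961) (.g (nat_lit 2622) (.e (nat_lit 409602) (nat_lit 0) (.e (nat_lit 5270) (nat_lit 298) (.e (nat_lit 1239) (nat_lit 91) (.e (nat_lit 90170) (nat_lit 13) (.e (nat_lit 172113) (nat_lit 10) (.e (nat_lit 434245) (nat_lit 28) (.e (nat_lit 573448) (nat_lit 9) (.e (nat_lit 359) (nat_lit 30) .nil)))))))) (.g (nat_lit 1) (.e (nat_lit 291082) (nat_lit 0) .nil) .nil))) 
(.lf (nat_lit 549473) (.g (nat_lit 1290) (.e (nat_lit 409646) (nat_lit 18) (.e (nat_lit 303117) (nat_lit 2) (.e (nat_lit 196666) (nat_lit 13) (.e (nat_lit 65599) (nat_lit 9) .nil)))) (.g (nat_lit 0) (.e (nat_lit 292810) (nat_lit 0) .nil) .nil)))) (.nd (nat_lit 9) 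
(.lf (nat_lit 549217) (.g (nat_lit 849) (.e (nat_lit 409639) (nat_lit 15) (.e (nat_lit 278566) (nat_lit 16) (.e (nat_lit 286756) (nat_lit 10) (.e (nat_lit 344154) (nat_lit 35) (.e (nat_lit 630802) (nat_lit 8) .nil))))) (.g (nat_lit 0) (.e (nat_lit 291751) (nat_lit 0) .nil) .nil))) 
(.lf (nat_lit 549729) (.g (nat_lit 1255) (.e (nat_lit 409649) (nat_lit 18) (.e (nat_lit 303116) (nat_lit 2) (.e (nat_lit 196666) (nat_lit 13) (.e (nat_lit 65599) (nat_lit 9) .nil)))) (.g (nat_lit 0) (.e (nat_lit 294037) (nat_lit 0) .nil) .nil))))) (.nd (nat_lit 8) (.nd (nat_lit 9) 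
(.lf (nat_lit 549089) (.g (nat_lit 3682) (.e (nat_lit 409616) (nat_lit 10) (.e (nat_lit 632) (nat_lit 50) (.e (nat_lit 573489) (nat_lit 14) (.e (nat_lit 73755) (nat_lit 8) (.e (nat_lit 557105) (nat_lit 14) (.e (nat_lit 180252) (nat_lit 10) (.e (nat_lit 581376) (nat_lit 0) (.e (nat_lit 2822) (nat_lit 182) .nil)))))))) (.g (nat_lit 1) (.e (nat_lit 291380) (nat_lit 0) .nil) .nil))) 
(.lf (nat_lit 549601) (.g (nat_lit 2006) (.e (nat_lit 409647) (nat_lit 18) (.e (nat_lit 303143) (nat_lit 12) (.e (nat_lit 475199) (nat_lit 40) (.e (nat_lit 704814) (nat_lit 14) .nil)))) (.g (nat_lit 0) (.e (nat_lit 293547) (nat_lit 0) .nil) .nil)))) (.nd (nat_lit 9) 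
(.lf (nat_lit 549345) (.g (nat_lit 4254) (.e (nat_lit 409644) (nat_lit 18) (.e (nat_lit 303119) (nat_lit 3) (.e (nat_lit 204866) (nat_lit 28) (.e (nat_lit 352315) (nat_lit 23) (.e (nat_lit 98349) (nat_lit 24) .nil))))) (.g (nat_lit 1) (.e (nat_lit 291985) (nat_lit 0) .nil) .nil))) 
(.lf (nat_lit 549857) (.g (nat_lit 3330) (.e (nat_lit 417536) (nat_lit 18) (.e (nat_lit 303117) (nat_lit 2) (.e (nat_lit 196666) (nat_lit 13) (.e (nat_lit 65620) (nat_lit 10) .nil)))) (.g (nat_lit 0) (.e (nat_lit 294520) (nat_lit 0) .nil) .nil)))))))) (.nd (nat_lit 5) (.nd (nat_lit 6) (.nd (nat_lit 7) (.nd (nat_lit 8) (.nd (nat_lit 9) 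
(.lf (nat_lit 548881) (.g (nat_lit 1661) (.e (nat_lit 294953) (nat_lit 12) (.e (nat_lit 385109) (nat_lit 51) (.e (nat_lit 794678) (nat_lit 24) (.e (nat_lit 213030) (nat_lit 11) (.e (nat_lit 24617) (nat_lit 7) .nil))))) (.g (nat_lit 0) (.e (nat_lit 290559) (nat_lit 0) .nil) .nil))) 
(.lf (nat_lit 549393) (.g (nat_lit 1752) (.e (nat_lit 409645) (nat_lit 18) (.e (nat_lit 303117) (nat_lit 2) (.e (nat_lit 196674) (nat_lit 15) (.e (nat_lit 81955) (nat_lit 23) (.e (nat_lit 106240) (nat_lit 24) .nil))))) (.g (nat_lit 1) (.e (nat_lit 292127) (nat_lit 0) .nil) .nil)))) (.nd (nat_lit 9) 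
(.lf (nat_lit 549137) (.g (nat_lit 2604) (.e (nat_lit 409617) (nat_lit 10) (.e (nat_lit 632) (nat_lit 50) (.e (nat_lit 573491) (nat_lit 15) (.e (nat_lit 81946) (nat_lit 20) (.e (nat_lit 2391) (nat_lit 156) (.e (nat_lit 819219) (nat_lit 4) (.e (nat_lit 172081) (nat_lit 7) .nil))))))) (.g (nat_lit 1) (.e (nat_lit 291486) (nat_lit 0) .nil) .nil))) 
(.lf (nat_lit 549649) (.g (nat_lit 2146) (.e (nat_lit 409648) (nat_lit 18) (.e (nat_lit 303119) (nat_lit 3) (.e (nat_lit 204852) (nat_lit 26) (.e (nat_lit 336129) (nat_lit 9) .nil)))) (.g (nat_lit 0) (.e (nat_lit 293690) (nat_lit 0) .nil) .nil))))) (.nd (nat_lit 8) (.nd (nat_lit 9) 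
(.lf (nat_lit 549009) (.g (nat_lit 1262) (.e (nat_lit 409603) (nat_lit 0) (.e (nat_lit 5293) (nat_lit 298) (.e (nat_lit 1649) (nat_lit 115) (.e (nat_lit 393230) (nat_lit 17) (.e (nat_lit 6989) (nat_lit 377) (.e (nat_lit 2779) (nat_lit 178) (.e (nat_lit 294656) (nat_lit 25) .nil))))))) (.g (nat_lit 1) (.e (nat_lit 291144) (nat_lit 0) .nil) .nil))) 
(.lf (nat_lit 549521) (.g (nat_lit 350) (.e (nat_lit 409646) (nat_lit 18) (.e (nat_lit 303143) (nat_lit 12) (.e (nat_lit 475199) (nat_lit 40) .nil))) (.g (nat_lit 0) (.e (nat_lit 293171) (nat_lit 0) .nil) .nil)))) (.nd (nat_lit 9) 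
(.lf (nat_lit 549265) (.g (nat_lit 2355) (.e (nat_lit 409643) (nat_lit 18) (.e (nat_lit 303119) (nat_lit 3) (.e (nat_lit 204855) (nat_lit 26) (.e (nat_lit 336169) (nat_lit 10) .nil)))) (.g (nat_lit 0) (.e (nat_lit 291800) (nat_lit 0) .nil) .nil))) 
(.lf (nat_lit 549777) (.g (nat_lit 3155) (.e (nat_lit 409649) (nat_lit 18) (.e (nat_lit 303119) (nat_lit 3) (.e (nat_lit 204855) (nat_lit 26) (.e (nat_lit 336099) (nat_lit 9) (.e (nat_lit 336028) (nat_lit 3) (.e (nat_lit 98349) (nat_lit 24) .nil)))))) (.g (nat_lit 1) (.e (nat_lit 294107) (nat_lit 0) .nil) .nil)))))) (.nd (nat_lit 7) (.nd (nat_lit 8) (.nd (nat_lit 9) 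
(.lf (nat_lit 548945) (.g (nat_lit 2440) (.e (nat_lit 294974) (nat_lit 29) (.e (nat_lit 442379) (nat_lit 0) (.e (nat_lit 2059) (nat_lit 142) (.e (nat_lit 704595) (nat_lit 5) (.e (nat_lit 180285) (nat_lit 45) (.e (nat_lit 2786) (nat_lit 179) .nil)))))) (.g (nat_lit 1) (.e (nat_lit 290817) (nat_lit 0) .nil) .nil))) 
(.lf (nat_lit 549457) (.g (nat_lit 6688) (.e (nat_lit 409646) (nat_lit 18) (.e (nat_lit 303112) (nat_lit 0) (.e (nat_lit 3252) (nat_lit 197) (.e (nat_lit 532535) (nat_lit 9) (.e (nat_lit 336099) (nat_lit 9) (.e (nat_lit 336013) (nat_lit 2) (.e (nat_lit 90129) (nat_lit 9) (.e (nat_lit 2828) (nat_lit 182) .nil)))))))) (.g (nat_lit 1) (.e (nat_lit 292767) (nat_lit 0) .nil) .nil)))) (.nd (nat_lit 9) 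
(.lf (nat_lit 549201) (.g (nat_lit 1010) (.e (nat_lit 409638) (nat_lit 15) (.e (nat_lit 278566) (nat_lit 16) (.e (nat_lit 286755) (nat_lit 10) (.e (nat_lit 344154) (nat_lit 35) (.e (nat_lit 630802) (nat_lit 8) (.e (nat_lit 172079) (nat_lit 7) .nil)))))) (.g (nat_lit 1) (.e (nat_lit 291723) (nat_lit 0) .nil) .nil))) 
(.lf (nat_lit 549713) (.g (nat_lit 1467) (.e (nat_lit 409649) (nat_lit 18) (.e (nat_lit 303111) (nat_lit 0) (.e (nat_lit 3238) (nat_lit 197) (.e (nat_lit 532559) (nat_lit 14) (.e (nat_lit 376866) (nat_lit 23) .nil))))) (.g (nat_lit 0) (.e (nat_lit 294007) (nat_lit 0) .nil) .nil))))) (.nd (nat_lit 8) (.nd (nat_lit 9) 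
(.lf (nat_lit 549073) (.g (nat_lit 1447) (.e (nat_lit 409616) (nat_lit 10) (.e (nat_lit 632) (nat_lit 50) (.e (nat_lit 573482) (nat_lit 13) (.e (nat_lit 65619) (nat_lit 10) .nil)))) (.g (nat_lit 0) (.e (nat_lit 291359) (nat_lit 0) .nil) .nil))) 
(.lf (nat_lit 549585) (.g (nat_lit 2441) (.e (nat_lit 409647) (nat_lit 18) (.e (nat_lit 303119) (nat_lit 3) (.e (nat_lit 204855) (nat_lit 26) (.e (nat_lit 336173) (nat_lit 10) (.e (nat_lit 344119) (nat_lit 21) .nil))))) (.g (nat_lit 0) (.e (nat_lit 293520) (nat_lit 0) .nil) .nil)))) (.nd (nat_lit 9) 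
(.lf (nat_lit 549329) (.g (nat_lit 1428) (.e (nat_lit 409644) (nat_lit 18) (.e (nat_lit 303118) (nat_lit 3) (.e (nat_lit 204866) (nat_lit 28) (.e (nat_lit 352313) (nat_lit 23) .nil)))) (.g (nat_lit 0) (.e (nat_lit 291965) (nat_lit 0) .nil) .nil))) 
(.lf (nat_lit 549841) (.g (nat_lit 2565) (.e (nat_lit 409649) (nat_lit 18) (.e (nat_lit 303146) (nat_lit 14) (.e (nat_lit 491566) (nat_lit 12) (.e (nat_lit 385049) (nat_lit 21) .nil)))) (.g (nat_lit 0) (.e (nat_lit 294499) (nat_lit 0) .nil) .nil))))))) (.nd (nat_lit 6) (.nd (nat_lit 7) (.nd (nat_lit 8) (.nd (nat_lit 9) 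
(.lf (nat_lit 548913) (.g (nat_lit 1484) (.e (nat_lit 294969) (nat_lit 27) (.e (nat_lit 426340) (nat_lit 14) (.e (nat_lit 491550) (nat_lit 9) (.e (nat_lit 336421) (nat_lit 28) (.e (nat_lit 434186) (nat_lit 13) (.e (nat_lit 2788) (nat_lit 179) .nil)))))) (.g (nat_lit 1) (.e (nat_lit 290733) (nat_lit 0) .nil) .nil))) 
(.lf (nat_lit 549425) (.g (nat_lit 1463) (.e (nat_lit 409645) (nat_lit 18) (.e (nat_lit 303133) (nat_lit 9) (.e (nat_lit 426412) (nat_lit 15) (.e (nat_lit 2185) (nat_lit 144) .nil)))) (.g (nat_lit 0) (.e (nat_lit 292394) (nat_lit 0) .nil) .nil)))) (.nd (nat_lit 9) 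
(.lf (nat_lit 549169) (.g (nat_lit 1292) (.e (nat_lit 409623) (nat_lit 10) (.e (nat_lit 5270) (nat_lit 298) (.e (nat_lit 430) (nat_lit 32) (.e (nat_lit 426341) (nat_lit 14) .nil)))) (.g (nat_lit 0) (.e (nat_lit 291626) (nat_lit 0) .nil) .nil))) 
(.lf (nat_lit 549681) (.g (nat_lit 2690) (.e (nat_lit 409648) (nat_lit 18) (.e (nat_lit 303137) (nat_lit 10) (.e (nat_lit 434275) (nat_lit 39) (.e (nat_lit 663574) (nat_lit 9) (.e (nat_lit 2740) (nat_lit 174) (.e (nat_lit 253992) (nat_lit 11) (.e (nat_lit 16424) (nat_lit 7) .nil))))))) (.g (nat_lit 1) (.e (nat_lit 293789) (nat_lit 0) .nil) .nil))))) (.nd (nat_lit 8) (.nd (nat_lit 9) 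
(.lf (nat_lit 549041) (.g (nat_lit 1858) (.e (nat_lit 409611) (nat_lit 10) (.e (nat_lit 632) (nat_lit 50) (.e (nat_lit 573489) (nat_lit 14) (.e (nat_lit 73755) (nat_lit 8) (.e (nat_lit 557105) (nat_lit 14) .nil))))) (.g (nat_lit 0) (.e (nat_lit 291214) (nat_lit 0) .nil) .nil))) 
(.lf (nat_lit 549553) (.g (nat_lit 576) (.e (nat_lit 409647) (nat_lit 18) (.e (nat_lit 303117) (nat_lit 2) (.e (nat_lit 196665) (nat_lit 13) .nil))) (.g (nat_lit 0) (.e (nat_lit 293474) (nat_lit 0) .nil) .nil)))) (.nd (nat_lit 9) 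
(.lf (nat_lit 549297) (.g (nat_lit 2434) (.e (nat_lit 409643) (nat_lit 18) (.e (nat_lit 303143) (nat_lit 12) (.e (nat_lit 475199) (nat_lit 40) (.e (nat_lit 704838) (nat_lit 14) .nil)))) (.g (nat_lit 0) (.e (nat_lit 291843) (nat_lit 0) .nil) .nil))) 
(.lf (nat_lit 549809) (.g (nat_lit 2125) (.e (nat_lit 409649) (nat_lit 18) (.e (nat_lit 303140) (nat_lit 10) (.e (nat_lit 434275) (nat_lit 39) (.e (nat_lit 663580) (nat_lit 9) (.e (nat_lit 2478) (nat_lit 157) .nil))))) (.g (nat_lit 0) (.e (nat_lit 294283) (nat_lit 0) .nil) .nil)))))) (.nd (nat_lit 7) (.nd (nat_lit 8) (.nd (nat_lit 9) 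
(.lf (nat_lit 548977) (.g (nat_lit 1664) (.e (nat_lit 409602) (nat_lit 0) (.e (nat_lit 5293) (nat_lit 298) (.e (nat_lit 1656) (nat_lit 115) (.e (nat_lit 393270) (nat_lit 23) (.e (nat_lit 426002) (nat_lit 0) .nil))))) (.g (nat_lit 0) (.e (nat_lit 291102) (nat_lit 0) .nil) .nil))) 
(.lf (nat_lit 549489) (.g (nat_lit 1955) (.e (nat_lit 409646) (nat_lit 18) (.e (nat_lit 303119) (nat_lit 3) (.e (nat_lit 204846) (nat_lit 24) (.e (nat_lit 319488) (nat_lit 0) .nil)))) (.g (nat_lit 0) (.e (nat_lit 292850) (nat_lit 0) .nil) .nil)))) (.nd (nat_lit 9) 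
(.lf (nat_lit 549233) (.g (nat_lit 2435) (.e (nat_lit 409643) (nat_lit 18) (.e (nat_lit 303117) (nat_lit 2) (.e (nat_lit 196666) (nat_lit 13) (.e (nat_lit 65609) (nat_lit 10) .nil)))) (.g (nat_lit 0) (.e (nat_lit 291767) (nat_lit 0) .nil) .nil))) 
(.lf (nat_lit 549745) (.g (nat_lit 3195) (.e (nat_lit 409649) (nat_lit 18) (.e (nat_lit 303117) (nat_lit 2) (.e (nat_lit 196666) (nat_lit 13) (.e (nat_lit 65610) (nat_lit 10) (.e (nat_lit 344118) (nat_lit 21) (.e (nat_lit 516139) (nat_lit 7) .nil)))))) (.g (nat_lit 1) (.e (nat_lit 294059) (nat_lit 0) .nil) .nil))))) (.nd (nat_lit 8) (.nd (nat_lit 9) 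
(.lf (nat_lit 549105) (.g (nat_lit 1045) (.e (nat_lit 409617) (nat_lit 10) (.e (nat_lit 632) (nat_lit 50) (.e (nat_lit 573482) (nat_lit 13) (.e (nat_lit 65619) (nat_lit 10) .nil)))) (.g (nat_lit 0) (.e (nat_lit 291436) (nat_lit 0) .nil) .nil))) 
(.lf (nat_lit 549617) (.g (nat_lit 2766) (.e (nat_lit 409648) (nat_lit 18) (.e (nat_lit 303117) (nat_lit 2) (.e (nat_lit 196666) (nat_lit 13) (.e (nat_lit 65591) (nat_lit 9) .nil)))) (.g (nat_lit 0) (.e (nat_lit 293642) (nat_lit 0) .nil) .nil)))) (.nd (nat_lit 9) 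
(.lf (nat_lit 549361) (.g (nat_lit 2245) (.e (nat_lit 409644) (nat_lit 18) (.e (nat_lit 303143) (nat_lit 12) (.e (nat_lit 475199) (nat_lit 40) (.e (nat_lit 704814) (nat_lit 14) .nil)))) (.g (nat_lit 0) (.e (nat_lit 292011) (nat_lit 0) .nil) .nil))) 
(.lf (nat_lit 549873) (.g (nat_lit 2224) (.e (nat_lit 417536) (nat_lit 18) (.e (nat_lit 303118) (nat_lit 3) (.e (nat_lit 204866) (nat_lit 28) (.e (nat_lit 352315) (nat_lit 23) (.e (nat_lit 98350) (nat_lit 24) .nil))))) (.g (nat_lit 0) (.e (nat_lit 294539) (nat_lit 0) .nil) .nil))))))))) (.nd (nat_lit 4) (.nd (nat_lit 5) (.nd (nat_lit 6) (.nd (nat_lit 7) (.nd (nat_lit 8) (.nd (nat_lit 9) 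
(.lf (nat_lit 548873) (.g (nat_lit 4140) (.e (nat_lit 294940) (nat_lit 9) (.e (nat_lit 336454) (nat_lit 34) (.e (nat_lit 483365) (nat_lit 18) (.e (nat_lit 57873) (nat_lit 264) .nil)))) (.g (nat_lit 0) (.e (nat_lit 290527) (nat_lit 0) .nil) .nil))) 
(.lf (nat_lit 549385) (.g (nat_lit 4004) (.e (nat_lit 409645) (nat_lit 18) (.e (nat_lit 303117) (nat_lit 2) (.e (nat_lit 196673) (nat_lit 15) (.e (nat_lit 81953) (nat_lit 22) (.e (nat_lit 90130) (nat_lit 9) (.e (nat_lit 2830) (nat_lit 182) .nil)))))) (.g (nat_lit 1) (.e (nat_lit 292109) (nat_lit 0) .nil) .nil)))) (.nd (nat_lit 9) 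
(.lf (nat_lit 549129) (.g (nat_lit 3465) (.e (nat_lit 409617) (nat_lit 10) (.e (nat_lit 632) (nat_lit 50) (.e (nat_lit 573489) (nat_lit 14) (.e (nat_lit 73755) (nat_lit 8) (.e (nat_lit 557105) (nat_lit 14) (.e (nat_lit 180252) (nat_lit 10) (.e (nat_lit 581376) (nat_lit 0) (.e (nat_lit 2823) (nat_lit 182) .nil)))))))) (.g (nat_lit 1) (.e (nat_lit 291474) (nat_lit 0) .nil) .nil))) 
(.lf (nat_lit 549641) (.g (nat_lit 2113) (.e (nat_lit 409648) (nat_lit 18) (.e (nat_lit 303118) (nat_lit 3) (.e (nat_lit 204854) (nat_lit 26) (.e (nat_lit 336182) (nat_lit 11) (.e (nat_lit 368677) (nat_lit 21) .nil))))) (.g (nat_lit 0) (.e (nat_lit 293672) (nat_lit 0) .nil) .nil))))) (.nd (nat_lit 8) (.nd (nat_lit 9) 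
(.lf (nat_lit 549001) (.g (nat_lit 4866) (.e (nat_lit 409603) (nat_lit 0) (.e (nat_lit 5293) (nat_lit 298) (.e (nat_lit 1250) (nat_lit 92) (.e (nat_lit 98373) (nat_lit 29) (.e (nat_lit 450588) (nat_lit 10) (.e (nat_lit 573452) (nat_lit 9) (.e (nat_lit 359) (nat_lit 30) .nil))))))) (.g (nat_lit 1) (.e (nat_lit 291134) (nat_lit 0) .nil) .nil))) 
(.lf (nat_lit 549513) (.g (nat_lit 3369) (.e (nat_lit 409646) (nat_lit 18) (.e (nat_lit 303140) (nat_lit 10) (.e (nat_lit 434275) (nat_lit 39) (.e (nat_lit 663574) (nat_lit 9) (.e (nat_lit 2466) (nat_lit 157) (.e (nat_lit 3469) (nat_lit 217) (.e (nat_lit 696344) (nat_lit 8) (.e (nat_lit 172078) (nat_lit 7) .nil)))))))) (.g (nat_lit 1) (.e (nat_lit 293156) (nat_lit 0) .nil) .nil)))) 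
(.nd (nat_lit 9) 
(.lf (nat_lit 549257) (.g (nat_lit 1219) (.e (nat_lit 409643) (nat_lit 18) (.e (nat_lit 303119) (nat_lit 3) (.e (nat_lit 204817) (nat_lit 17) (.e (nat_lit 7936) (nat_lit 347) .nil)))) (.g (nat_lit 0) (.e (nat_lit 291792) (nat_lit 0) .nil) .nil))) 
(.lf (nat_lit 549769) (.g (nat_lit 4193) (.e (nat_lit 409649) (nat_lit 18) (.e (nat_lit 303118) (nat_lit 3) (.e (nat_lit 204866) (nat_lit 28) (.e (nat_lit 352315) (nat_lit 23) (.e (nat_lit 98350) (nat_lit 24) .nil))))) (.g (nat_lit 1) (.e (nat_lit 294094) (nat_lit 0) .nil) .nil)))))) (.nd (nat_lit 7) (.nd (nat_lit 8) (.nd (nat_lit 9) 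
(.lf (nat_lit 548937) (.g (nat_lit 1755) (.e (nat_lit 294973) (nat_lit 28) (.e (nat_lit 434181) (nat_lit 0) (.e (nat_lit 1427) (nat_lit 108) (.e (nat_lit 336421) (nat_lit 28) (.e (nat_lit 434192) (nat_lit 13) .nil))))) (.g (nat_lit 0) (.e (nat_lit 290787) (nat_lit 0) .nil) .nil))) 
(.lf (nat_lit 549449) (.g (nat_lit 2272) (.e (nat_lit 409645) (nat_lit 18) (.e (nat_lit 303143) (nat_lit 12) (.e (nat_lit 475199) (nat_lit 40) (.e (nat_lit 704788) (nat_lit 14) (.e (nat_lit 2587) (nat_lit 162) .nil))))) (.g (nat_lit 0) (.e (nat_lit 292534) (nat_lit 0) .nil) .nil)))) (.nd (nat_lit 9) 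
(.lf (nat_lit 549193) (.g (nat_lit 1247) (.e (nat_lit 409638) (nat_lit 15) (.e (nat_lit 278566) (nat_lit 16) (.e (nat_lit 286753) (nat_lit 10) (.e (nat_lit 344154) (nat_lit 35) (.e (nat_lit 630802) (nat_lit 8) (.e (nat_lit 172079) (nat_lit 7) .nil)))))) (.g (nat_lit 1) (.e (nat_lit 291715) (nat_lit 0) .nil) .nil))) 
(.lf (nat_lit 549705) (.g (nat_lit 2676) (.e (nat_lit 409648) (nat_lit 18) (.e (nat_lit 303146) (nat_lit 14) (.e (nat_lit 491566) (nat_lit 12) (.e (nat_lit 385050) (nat_lit 21) .nil)))) (.g (nat_lit 0) (.e (nat_lit 293991) (nat_lit 0) .nil) .nil))))) (.nd (nat_lit 8) (.nd (nat_lit 9) 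
(.lf (nat_lit 549065) (.g (nat_lit 2300) (.e (nat_lit 409615) (nat_lit 10) (.e (nat_lit 632) (nat_lit 50) (.e (nat_lit 573489) (nat_lit 14) (.e (nat_lit 73755) (nat_lit 8) (.e (nat_lit 557097) (nat_lit 13) .nil))))) (.g (nat_lit 0) (.e (nat_lit 291336) (nat_lit 0) .nil) .nil))) 
(.lf (nat_lit 549577) (.g (nat_lit 2013) (.e (nat_lit 409647) (nat_lit 18) (.e (nat_lit 303118) (nat_lit 3) (.e (nat_lit 204855) (nat_lit 26) (.e (nat_lit 336178) (nat_lit 10) (.e (nat_lit 344119) (nat_lit 21) .nil))))) (.g (nat_lit 0) (.e (nat_lit 293502) (nat_lit 0) .nil) .nil)))) (.nd (nat_lit 9) 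
(.lf (nat_lit 549321) (.g (nat_lit 1663) (.e (nat_lit 409644) (nat_lit 18) (.e (nat_lit 303117) (nat_lit 2) (.e (nat_lit 196674) (nat_lit 15) (.e (nat_lit 81936) (nat_lit 20) .nil)))) (.g (nat_lit 0) (.e (nat_lit 291957) (nat_lit 0) .nil) .nil))) 
(.lf (nat_lit 549833) (.g (nat_lit 2936) (.e (nat_lit 409649) (nat_lit 18) (.e (nat_lit 303143) (nat_lit 12) (.e (nat_lit 475219) (nat_lit 44) (.e (nat_lit 737318) (nat_lit 15) (.e (nat_lit 49188) (nat_lit 11) (.e (nat_lit 16425) (nat_lit 7) .nil)))))) (.g (nat_lit 1) (.e (nat_lit 294384) (nat_lit 0) .nil) .nil))))))) (.nd (nat_lit 6) (.nd (nat_lit 7) (.nd (nat_lit 8) (.nd (nat_lit 9) 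
(.lf (nat_lit 548905) (.g (nat_lit 2015) (.e (nat_lit 294969) (nat_lit 27) (.e (nat_lit 426339) (nat_lit 14) (.e (nat_lit 491571) (nat_lit 13) (.e (nat_lit 393259) (nat_lit 21) (.e (nat_lit 409642) (nat_lit 17) .nil))))) (.g (nat_lit 0) (.e (nat_lit 290725) (nat_lit 0) .nil) .nil))) 
(.lf (nat_lit 549417) (.g (nat_lit 533) (.e (nat_lit 409645) (nat_lit 18) (.e (nat_lit 303119) (nat_lit 3) (.e (nat_lit 204875) (nat_lit 31) .nil))) (.g (nat_lit 0) (.e (nat_lit 292290) (nat_lit 0) .nil) .nil)))) (.nd (nat_lit 9) 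
(.lf (nat_lit 549161) (.g (nat_lit 1825) (.e (nat_lit 409623) (nat_lit 10) (.e (nat_lit 5664) (nat_lit 312) (.e (nat_lit 2679) (nat_lit 168) (.e (nat_lit 204862) (nat_lit 27) (.e (nat_lit 352000) (nat_lit 8) .nil))))) (.g (nat_lit 0) (.e (nat_lit 291585) (nat_lit 0) .nil) .nil))) 
(.lf (nat_lit 549673) (.g (nat_lit 1528) (.e (nat_lit 409648) (nat_lit 18) (.e (nat_lit 303119) (nat_lit 3) (.e (nat_lit 204875) (nat_lit 31) (.e (nat_lit 376855) (nat_lit 20) .nil)))) (.g (nat_lit 0) (.e (nat_lit 293728) (nat_lit 0) .nil) .nil))))) (.nd (nat_lit 8) (.nd (nat_lit 9) 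
(.lf (nat_lit 549033) (.g (nat_lit 2750) (.e (nat_lit 409608) (nat_lit 10) (.e (nat_lit 632) (nat_lit 50) (.e (nat_lit 573489) (nat_lit 14) (.e (nat_lit 73755) (nat_lit 8) (.e (nat_lit 557103) (nat_lit 14) .nil))))) (.g (nat_lit 0) (.e (nat_lit 291188) (nat_lit 0) .nil) .nil))) 
(.lf (nat_lit 549545) (.g (nat_lit 2255) (.e (nat_lit 409646) (nat_lit 18) (.e (nat_lit 303143) (nat_lit 12) (.e (nat_lit 475199) (nat_lit 40) (.e (nat_lit 704816) (nat_lit 14) .nil)))) (.g (nat_lit 0) (.e (nat_lit 293284) (nat_lit 0) .nil) .nil)))) (.nd (nat_lit 9) 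
(.lf (nat_lit 549289) (.g (nat_lit 2161) (.e (nat_lit 409643) (nat_lit 18) (.e (nat_lit 303143) (nat_lit 12) (.e (nat_lit 475199) (nat_lit 40) (.e (nat_lit 704788) (nat_lit 14) (.e (nat_lit 2587) (nat_lit 162) .nil))))) (.g (nat_lit 0) (.e (nat_lit 291835) (nat_lit 0) .nil) .nil))) 
(.lf (nat_lit 549801) (.g (nat_lit 3201) (.e (nat_lit 409649) (nat_lit 18) (.e (nat_lit 303140) (nat_lit 10) (.e (nat_lit 434275) (nat_lit 39) (.e (nat_lit 663574) (nat_lit 9) (.e (nat_lit 2470) (nat_lit 157) (.e (nat_lit 3469) (nat_lit 217) (.e (nat_lit 696344) (nat_lit 8) (.e (nat_lit 172078) (nat_lit 7) .nil)))))))) (.g (nat_lit 1) (.e (nat_lit 294259) (nat_lit 0) .nil) .nil)))))) 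
(.nd (nat_lit 7) (.nd (nat_lit 8) (.nd (nat_lit 9) 
(.lf (nat_lit 548969) (.g (nat_lit 1692) (.e (nat_lit 409602) (nat_lit 0) (.e (nat_lit 5293) (nat_lit 298) (.e (nat_lit 1423) (nat_lit 108) (.e (nat_lit 336421) (nat_lit 28) (.e (nat_lit 442112) (nat_lit 4) (.e (nat_lit 65647) (nat_lit 25) .nil)))))) (.g (nat_lit 1) (.e (nat_lit 291094) (nat_lit 0) .nil) .nil))) 
(.lf (nat_lit 549481) (.g (nat_lit 3919) (.e (nat_lit 409646) (nat_lit 18) (.e (nat_lit 303117) (nat_lit 2) (.e (nat_lit 196673) (nat_lit 15) (.e (nat_lit 81956) (nat_lit 23) (.e (nat_lit 98350) (nat_lit 24) .nil))))) (.g (nat_lit 1) (.e (nat_lit 292824) (nat_lit 0) .nil) .nil)))) (.nd (nat_lit 9) 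
(.lf (nat_lit 549225) (.g (nat_lit 1256) (.e (nat_lit 409643) (nat_lit 18) (.e (nat_lit 303117) (nat_lit 2) (.e (nat_lit 196661) (nat_lit 12) (.e (nat_lit 57711) (nat_lit 176) .nil)))) (.g (nat_lit 0) (.e (nat_lit 291759) (nat_lit 0) .nil) .nil))) 
(.lf (nat_lit 549737) (.g (nat_lit 1708) (.e (nat_lit 409649) (nat_lit 18) (.e (nat_lit 303116) (nat_lit 2) (.e (nat_lit 196674) (nat_lit 15) (.e (nat_lit 81960) (nat_lit 25) .nil)))) (.g (nat_lit 0) (.e (nat_lit 294047) (nat_lit 0) .nil) .nil))))) (.nd (nat_lit 8) (.nd (nat_lit 9) 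
(.lf (nat_lit 549097) (.g (nat_lit 2864) (.e (nat_lit 409616) (nat_lit 10) (.e (nat_lit 632) (nat_lit 50) (.e (nat_lit 573493) (nat_lit 15) (.e (nat_lit 81948) (nat_lit 21) (.e (nat_lit 57647) (nat_lit 146) .nil))))) (.g (nat_lit 0) (.e (nat_lit 291400) (nat_lit 0) .nil) .nil))) 
(.lf (nat_lit 549609) (.g (nat_lit 2015) (.e (nat_lit 409648) (nat_lit 18) (.e (nat_lit 303116) (nat_lit 2) (.e (nat_lit 196666) (nat_lit 13) (.e (nat_lit 65592) (nat_lit 9) .nil)))) (.g (nat_lit 0) (.e (nat_lit 293632) (nat_lit 0) .nil) .nil)))) (.nd (nat_lit 9) 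
(.lf (nat_lit 549353) (.g (nat_lit 4048) (.e (nat_lit 409644) (nat_lit 18) (.e (nat_lit 303119) (nat_lit 3) (.e (nat_lit 204869) (nat_lit 29) (.e (nat_lit 360467) (nat_lit 3) (.e (nat_lit 516138) (nat_lit 7) .nil))))) (.g (nat_lit 0) (.e (nat_lit 291997) (nat_lit 0) .nil) .nil))) 
(.lf (nat_lit 549865) (.g (nat_lit 404) (.e (nat_lit 417536) (nat_lit 18) (.e (nat_lit 303117) (nat_lit 2) (.e (nat_lit 196674) (nat_lit 15) .nil))) (.g (nat_lit 0) (.e (nat_lit 294528) (nat_lit 0) .nil) .nil)))))))) (.nd (nat_lit 5) (.nd (nat_lit 6) (.nd (nat_lit 7) (.nd (nat_lit 8) (.nd (nat_lit 9) 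
(.lf (nat_lit 548889) (.g (nat_lit 1220) (.e (nat_lit 294955) (nat_lit 12) (.e (nat_lit 385073) (nat_lit 31) (.e (nat_lit 573493) (nat_lit 15) (.e (nat_lit 81953) (nat_lit 22) .nil)))) (.g (nat_lit 0) (.e (nat_lit 290579) (nat_lit 0) .nil) .nil))) 
(.lf (nat_lit 549401) (.g (nat_lit 1594) (.e (nat_lit 409645) (nat_lit 18) (.e (nat_lit 303119) (nat_lit 3) (.e (nat_lit 204821) (nat_lit 17) (.e (nat_lit 6114) (nat_lit 332) (.e (nat_lit 2779) (nat_lit 178) .nil))))) (.g (nat_lit 0) (.e (nat_lit 292139) (nat_lit 0) .nil) .nil)))) (.nd (nat_lit 9) 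
(.lf (nat_lit 549145) (.g (nat_lit 2675) (.e (nat_lit 409617) (nat_lit 10) (.e (nat_lit 632) (nat_lit 50) (.e (nat_lit 573493) (nat_lit 15) (.e (nat_lit 81948) (nat_lit 21) (.e (nat_lit 57650) (nat_lit 146) .nil))))) (.g (nat_lit 0) (.e (nat_lit 291519) (nat_lit 0) .nil) .nil))) 
(.lf (nat_lit 549657) (.g (nat_lit 2925) (.e (nat_lit 409648) (nat_lit 18) (.e (nat_lit 303119) (nat_lit 3) (.e (nat_lit 204855) (nat_lit 26) (.e (nat_lit 336140) (nat_lit 9) .nil)))) (.g (nat_lit 0) (.e (nat_lit 293698) (nat_lit 0) .nil) .nil))))) (.nd (nat_lit 8) (.nd (nat_lit 9) 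
(.lf (nat_lit 549017) (.g (nat_lit 1408) (.e (nat_lit 417536) (nat_lit 8) (.e (nat_lit 303118) (nat_lit 3) (.e (nat_lit 204846) (nat_lit 24) (.e (nat_lit 319532) (nat_lit 16) .nil)))) (.g (nat_lit 0) (.e (nat_lit 291172) (nat_lit 0) .nil) .nil))) 
(.lf (nat_lit 549529) (.g (nat_lit 2235) (.e (nat_lit 409646) (nat_lit 18) (.e (nat_lit 303143) (nat_lit 12) (.e (nat_lit 475199) (nat_lit 40) (.e (nat_lit 704700) (nat_lit 9) .nil)))) (.g (nat_lit 0) (.e (nat_lit 293265) (nat_lit 0) .nil) .nil)))) (.nd (nat_lit 9) 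
(.lf (nat_lit 549273) (.g (nat_lit 2128) (.e (nat_lit 409643) (nat_lit 18) (.e (nat_lit 303119) (nat_lit 3) (.e (nat_lit 204868) (nat_lit 29) (.e (nat_lit 360465) (nat_lit 3) .nil)))) (.g (nat_lit 0) (.e (nat_lit 291814) (nat_lit 0) .nil) .nil))) 
(.lf (nat_lit 549785) (.g (nat_lit 1323) (.e (nat_lit 409649) (nat_lit 18) (.e (nat_lit 303119) (nat_lit 3) (.e (nat_lit 204870) (nat_lit 29) (.e (nat_lit 360466) (nat_lit 3) .nil)))) (.g (nat_lit 0) (.e (nat_lit 294132) (nat_lit 0) .nil) .nil)))))) (.nd (nat_lit 7) (.nd (nat_lit 8) (.nd (nat_lit 9) 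
(.lf (nat_lit 548953) (.g (nat_lit 1663) (.e (nat_lit 294974) (nat_lit 29) (.e (nat_lit 442411) (nat_lit 20) (.e (nat_lit 3409) (nat_lit 212) (.e (nat_lit 655378) (nat_lit 4) (.e (nat_lit 172079) (nat_lit 7) (.e (nat_lit 409642) (nat_lit 17) .nil)))))) (.g (nat_lit 1) (.e (nat_lit 290916) (nat_lit 0) .nil) .nil))) 
(.lf (nat_lit 549465) (.g (nat_lit 445) (.e (nat_lit 409646) (nat_lit 18) (.e (nat_lit 303111) (nat_lit 0) (.e (nat_lit 7518) (nat_lit 402) .nil))) (.g (nat_lit 0) (.e (nat_lit 292799) (nat_lit 0) .nil) .nil)))) (.nd (nat_lit 9) 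
(.lf (nat_lit 549209) (.g (nat_lit 462) (.e (nat_lit 409638) (nat_lit 15) (.e (nat_lit 278567) (nat_lit 16) (.e (nat_lit 286755) (nat_lit 10) (.e (nat_lit 344157) (nat_lit 36) (.e (nat_lit 638999) (nat_lit 8) (.e (nat_lit 172081) (nat_lit 7) .nil)))))) (.g (nat_lit 1) (.e (nat_lit 291731) (nat_lit 0) .nil) .nil))) 
(.lf (nat_lit 549721) (.g (nat_lit 1377) (.e (nat_lit 409649) (nat_lit 18) (.e (nat_lit 303111) (nat_lit 0) (.e (nat_lit 3255) (nat_lit 197) (.e (nat_lit 532560) (nat_lit 14) (.e (nat_lit 376869) (nat_lit 23) .nil))))) (.g (nat_lit 0) (.e (nat_lit 294015) (nat_lit 0) .nil) .nil))))) (.nd (nat_lit 8) (.nd (nat_lit 9) 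
(.lf (nat_lit 549081) (.g (nat_lit 3986) (.e (nat_lit 409616) (nat_lit 10) (.e (nat_lit 632) (nat_lit 50) (.e (nat_lit 573489) (nat_lit 14) (.e (nat_lit 73755) (nat_lit 8) (.e (nat_lit 557097) (nat_lit 13) (.e (nat_lit 172067) (nat_lit 3) (.e (nat_lit 212736) (nat_lit 7) .nil))))))) (.g (nat_lit 1) (.e (nat_lit 291372) (nat_lit 0) .nil) .nil))) 
(.lf (nat_lit 549593) (.g (nat_lit 2340) (.e (nat_lit 409647) (nat_lit 18) (.e (nat_lit 303143) (nat_lit 12) (.e (nat_lit 475199) (nat_lit 40) (.e (nat_lit 704768) (nat_lit 14) (.e (nat_lit 2587) (nat_lit 162) .nil))))) (.g (nat_lit 0) (.e (nat_lit 293539) (nat_lit 0) .nil) .nil)))) (.nd (nat_lit 9) 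
(.lf (nat_lit 549337) (.g (nat_lit 3300) (.e (nat_lit 409644) (nat_lit 18) (.e (nat_lit 303119) (nat_lit 3) (.e (nat_lit 204855) (nat_lit 26) (.e (nat_lit 336097) (nat_lit 9) (.e (nat_lit 336028) (nat_lit 3) (.e (nat_lit 98349) (nat_lit 24) .nil)))))) (.g (nat_lit 1) (.e (nat_lit 291974) (nat_lit 0) .nil) .nil))) 
(.lf (nat_lit 549849) (.g (nat_lit 1268) (.e (nat_lit 417536) (nat_lit 18) (.e (nat_lit 303117) (nat_lit 2) (.e (nat_lit 196665) (nat_lit 13) (.e (nat_lit 65603) (nat_lit 9) .nil)))) (.g (nat_lit 0) (.e (nat_lit 294511) (nat_lit 0) .nil) .nil))))))) (.nd (nat_lit 6) (.nd (nat_lit 7) (.nd (nat_lit 8) (.nd (nat_lit 9) 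
(.lf (nat_lit 548921) (.g (nat_lit 919) (.e (nat_lit 294973) (nat_lit 28) (.e (nat_lit 434180) (nat_lit 0) (.e (nat_lit 1425) (nat_lit 108) (.e (nat_lit 336421) (nat_lit 28) (.e (nat_lit 434189) (nat_lit 13) (.e (nat_lit 2786) (nat_lit 179) .nil)))))) (.g (nat_lit 1) (.e (nat_lit 290770) (nat_lit 0) .nil) .nil))) 
(.lf (nat_lit 549433) (.g (nat_lit 2767) (.e (nat_lit 409645) (nat_lit 18) (.e (nat_lit 303140) (nat_lit 10) (.e (nat_lit 434275) (nat_lit 39) (.e (nat_lit 663574) (nat_lit 9) (.e (nat_lit 2470) (nat_lit 157) (.e (nat_lit 3469) (nat_lit 217) (.e (nat_lit 696344) (nat_lit 8) (.e (nat_lit 172079) (nat_lit 7) .nil)))))))) (.g (nat_lit 1) (.e (nat_lit 292447) (nat_lit 0) .nil) .nil)))) 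
(.nd (nat_lit 9) 
(.lf (nat_lit 549177) (.g (nat_lit 1000) (.e (nat_lit 417536) (nat_lit 10) (.e (nat_lit 5259) (nat_lit 298) (.e (nat_lit 371) (nat_lit 32) (.e (nat_lit 433920) (nat_lit 14) .nil)))) (.g (nat_lit 0) (.e (nat_lit 291640) (nat_lit 0) .nil) .nil))) 
(.lf (nat_lit 549689) (.g (nat_lit 2397) (.e (nat_lit 409648) (nat_lit 18) (.e (nat_lit 303137) (nat_lit 10) (.e (nat_lit 434275) (nat_lit 39) (.e (nat_lit 663584) (nat_lit 12) (.e (nat_lit 164020) (nat_lit 45) (.e (nat_lit 696343) (nat_lit 8) (.e (nat_lit 172081) (nat_lit 7) .nil))))))) (.g (nat_lit 1) (.e (nat_lit 293854) (nat_lit 0) .nil) .nil))))) (.nd (nat_lit 8) (.nd (nat_lit 9) 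
(.lf (nat_lit 549049) (.g (nat_lit 2348) (.e (nat_lit 409612) (nat_lit 10) (.e (nat_lit 632) (nat_lit 50) (.e (nat_lit 573482) (nat_lit 13) (.e (nat_lit 65619) (nat_lit 10) (.e (nat_lit 344182) (nat_lit 49) .nil))))) (.g (nat_lit 0) (.e (nat_lit 291274) (nat_lit 0) .nil) .nil))) 
(.lf (nat_lit 549561) (.g (nat_lit 2686) (.e (nat_lit 409647) (nat_lit 18) (.e (nat_lit 303117) (nat_lit 2) (.e (nat_lit 196666) (nat_lit 13) (.e (nat_lit 65619) (nat_lit 10) .nil)))) (.g (nat_lit 0) (.e (nat_lit 293482) (nat_lit 0) .nil) .nil)))) (.nd (nat_lit 9) 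
(.lf (nat_lit 549305) (.g (nat_lit 487) (.e (nat_lit 409644) (nat_lit 18) (.e (nat_lit 303117) (nat_lit 2) (.e (nat_lit 196663) (nat_lit 13) .nil))) (.g (nat_lit 0) (.e (nat_lit 291941) (nat_lit 0) .nil) .nil))) 
(.lf (nat_lit 549817) (.g (nat_lit 2538) (.e (nat_lit 409649) (nat_lit 18) (.e (nat_lit 303140) (nat_lit 10) (.e (nat_lit 434275) (nat_lit 39) (.e (nat_lit 663589) (nat_lit 14) (.e (nat_lit 7936) (nat_lit 86) (.e (nat_lit 49189) (nat_lit 11) (.e (nat_lit 16425) (nat_lit 7) .nil))))))) (.g (nat_lit 1) (.e (nat_lit 294346) (nat_lit 0) .nil) .nil)))))) 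
(.nd (nat_lit 7) (.nd (nat_lit 8) (.nd (nat_lit 9) 
(.lf (nat_lit 548985) (.g (nat_lit 1717) (.e (nat_lit 409602) (nat_lit 0) (.e (nat_lit 5293) (nat_lit 298) (.e (nat_lit 1656) (nat_lit 115) (.e (nat_lit 393288) (nat_lit 25) .nil)))) (.g (nat_lit 0) (.e (nat_lit 291110) (nat_lit 0) .nil) .nil))) 
(.lf (nat_lit 549497) (.g (nat_lit 3687) (.e (nat_lit 409646) (nat_lit 18) (.e (nat_lit 303119) (nat_lit 3) (.e (nat_lit 204868) (nat_lit 29) (.e (nat_lit 360466) (nat_lit 3) (.e (nat_lit 516139) (nat_lit 7) .nil))))) (.g (nat_lit 1) (.e (nat_lit 292894) (nat_lit 0) .nil) .nil)))) (.nd (nat_lit 9) 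
(.lf (nat_lit 549241) (.g (nat_lit 2872) (.e (nat_lit 409643) (nat_lit 18) (.e (nat_lit 303117) (nat_lit 2) (.e (nat_lit 196673) (nat_lit 15) (.e (nat_lit 81953) (nat_lit 22) (.e (nat_lit 90130) (nat_lit 9) .nil))))) (.g (nat_lit 0) (.e (nat_lit 291775) (nat_lit 0) .nil) .nil))) 
(.lf (nat_lit 549753) (.g (nat_lit 2413) (.e (nat_lit 409649) (nat_lit 18) (.e (nat_lit 303117) (nat_lit 2) (.e (nat_lit 196672) (nat_lit 15) (.e (nat_lit 81953) (nat_lit 22) (.e (nat_lit 90134) (nat_lit 9) .nil))))) (.g (nat_lit 0) (.e (nat_lit 294068) (nat_lit 0) .nil) .nil))))) (.nd (nat_lit 8) (.nd (nat_lit 9) 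
(.lf (nat_lit 549113) (.g (nat_lit 2539) (.e (nat_lit 409617) (nat_lit 10) (.e (nat_lit 632) (nat_lit 50) (.e (nat_lit 573489) (nat_lit 14) (.e (nat_lit 73754) (nat_lit 8) (.e (nat_lit 557101) (nat_lit 13) (.e (nat_lit 172065) (nat_lit 3) (.e (nat_lit 212736) (nat_lit 7) .nil))))))) (.g (nat_lit 1) (.e (nat_lit 291458) (nat_lit 0) .nil) .nil))) 
(.lf (nat_lit 549625) (.g (nat_lit 2999) (.e (nat_lit 409648) (nat_lit 18) (.e (nat_lit 303117) (nat_lit 2) (.e (nat_lit 196666) (nat_lit 13) (.e (nat_lit 65611) (nat_lit 10) .nil)))) (.g (nat_lit 0) (.e (nat_lit 293654) (nat_lit 0) .nil) .nil)))) (.nd (nat_lit 9) 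
(.lf (nat_lit 549369) (.g (nat_lit 3505) (.e (nat_lit 409645) (nat_lit 18) (.e (nat_lit 303112) (nat_lit 0) (.e (nat_lit 3252) (nat_lit 197) (.e (nat_lit 532535) (nat_lit 9) (.e (nat_lit 336099) (nat_lit 9) (.e (nat_lit 336013) (nat_lit 2) (.e (nat_lit 98048) (nat_lit 9) (.e (nat_lit 2825) (nat_lit 182) .nil)))))))) (.g (nat_lit 1) (.e (nat_lit 292064) (nat_lit 0) .nil) .nil))) 
(.lf (nat_lit 549881) (.g (nat_lit 2231) (.e (nat_lit 417536) (nat_lit 18) (.e (nat_lit 303119) (nat_lit 3) (.e (nat_lit 204852) (nat_lit 26) (.e (nat_lit 336142) (nat_lit 9) .nil)))) (.g (nat_lit 0) (.e (nat_lit 294555) (nat_lit 0) .nil) .nil)))))))))) (.nd (nat_lit 3) (.nd (nat_lit 4) (.nd (nat_lit 5) (.nd (nat_lit 6) (.nd (nat_lit 7) (.nd (nat_lit 8) (.nd (nat_lit 9) 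
(.lf (nat_lit 548869) (.g (nat_lit 4112) (.e (nat_lit 294940) (nat_lit 9) (.e (nat_lit 336324) (nat_lit 18) (.e (nat_lit 204831) (nat_lit 18) (.e (nat_lit 57852) (nat_lit 252) .nil)))) (.g (nat_lit 0) (.e (nat_lit 290522) (nat_lit 0) .nil) .nil))) 
(.lf (nat_lit 549381) (.g (nat_lit 2822) (.e (nat_lit 409645) (nat_lit 18) (.e (nat_lit 303117) (nat_lit 2) (.e (nat_lit 196672) (nat_lit 15) (.e (nat_lit 81953) (nat_lit 22) (.e (nat_lit 90134) (nat_lit 9) (.e (nat_lit 2822) (nat_lit 182) .nil)))))) (.g (nat_lit 1) (.e (nat_lit 292100) (nat_lit 0) .nil) .nil)))) (.nd (nat_lit 9) 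
(.lf (nat_lit 549125) (.g (nat_lit 3229) (.e (nat_lit 409617) (nat_lit 10) (.e (nat_lit 632) (nat_lit 50) (.e (nat_lit 573489) (nat_lit 14) (.e (nat_lit 73755) (nat_lit 8) (.e (nat_lit 557105) (nat_lit 14) (.e (nat_lit 180252) (nat_lit 10) (.e (nat_lit 573442) (nat_lit 0) (.e (nat_lit 2822) (nat_lit 182) .nil)))))))) (.g (nat_lit 1) (.e (nat_lit 291470) (nat_lit 0) .nil) .nil))) 
(.lf (nat_lit 549637) (.g (nat_lit 2370) (.e (nat_lit 409648) (nat_lit 18) (.e (nat_lit 303117) (nat_lit 2) (.e (nat_lit 196672) (nat_lit 15) (.e (nat_lit 81960) (nat_lit 25) .nil)))) (.g (nat_lit 0) (.e (nat_lit 293667) (nat_lit 0) .nil) .nil))))) (.nd (nat_lit 8) (.nd (nat_lit 9) 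
(.lf (nat_lit 548997) (.g (nat_lit 3619) (.e (nat_lit 409603) (nat_lit 0) (.e (nat_lit 5293) (nat_lit 298) (.e (nat_lit 1232) (nat_lit 91) (.e (nat_lit 90170) (nat_lit 13) (.e (nat_lit 172113) (nat_lit 10) (.e (nat_lit 434248) (nat_lit 28) (.e (nat_lit 573452) (nat_lit 9) (.e (nat_lit 359) (nat_lit 30) .nil)))))))) (.g (nat_lit 1) (.e (nat_lit 291130) (nat_lit 0) .nil) .nil))) 
(.lf (nat_lit 549509) (.g (nat_lit 2851) (.e (nat_lit 409646) (nat_lit 18) (.e (nat_lit 303135) (nat_lit 10) (.e (nat_lit 434275) (nat_lit 39) (.e (nat_lit 663580) (nat_lit 9) (.e (nat_lit 2416) (nat_lit 157) (.e (nat_lit 3471) (nat_lit 217) (.e (nat_lit 696343) (nat_lit 8) (.e (nat_lit 172082) (nat_lit 7) .nil)))))))) (.g (nat_lit 1) (.e (nat_lit 293148) (nat_lit 0) .nil) .nil)))) 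
(.nd (nat_lit 9) 
(.lf (nat_lit 549253) (.g (nat_lit 1435) (.e (nat_lit 409643) (nat_lit 18) (.e (nat_lit 303118) (nat_lit 3) (.e (nat_lit 204868) (nat_lit 29) (.e (nat_lit 360468) (nat_lit 3) .nil)))) (.g (nat_lit 0) (.e (nat_lit 291788) (nat_lit 0) .nil) .nil))) 
(.lf (nat_lit 549765) (.g (nat_lit 4252) (.e (nat_lit 409649) (nat_lit 18) (.e (nat_lit 303118) (nat_lit 3) (.e (nat_lit 204855) (nat_lit 26) (.e (nat_lit 336102) (nat_lit 9) (.e (nat_lit 336028) (nat_lit 3) (.e (nat_lit 98350) (nat_lit 24) .nil)))))) (.g (nat_lit 1) (.e (nat_lit 294088) (nat_lit 0) .nil) .nil)))))) (.nd (nat_lit 7) (.nd (nat_lit 8) (.nd (nat_lit 9) 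
(.lf (nat_lit 548933) (.g (nat_lit 912) (.e (nat_lit 294973) (nat_lit 28) (.e (nat_lit 434181) (nat_lit 0) (.e (nat_lit 1425) (nat_lit 108) (.e (nat_lit 336421) (nat_lit 28) (.e (nat_lit 434189) (nat_lit 13) (.e (nat_lit 2786) (nat_lit 179) .nil)))))) (.g (nat_lit 1) (.e (nat_lit 290783) (nat_lit 0) .nil) .nil))) 
(.lf (nat_lit 549445) (.g (nat_lit 2021) (.e (nat_lit 409645) (nat_lit 18) (.e (nat_lit 303143) (nat_lit 12) (.e (nat_lit 475199) (nat_lit 40) (.e (nat_lit 704768) (nat_lit 14) .nil)))) (.g (nat_lit 0) (.e (nat_lit 292530) (nat_lit 0) .nil) .nil)))) (.nd (nat_lit 9) 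
(.lf (nat_lit 549189) (.g (nat_lit 927) (.e (nat_lit 409636) (nat_lit 14) (.e (nat_lit 270373) (nat_lit 16) (.e (nat_lit 286756) (nat_lit 10) (.e (nat_lit 344154) (nat_lit 35) (.e (nat_lit 630802) (nat_lit 8) (.e (nat_lit 172081) (nat_lit 7) .nil)))))) (.g (nat_lit 1) (.e (nat_lit 291708) (nat_lit 0) .nil) .nil))) 
(.lf (nat_lit 549701) (.g (nat_lit 1678) (.e (nat_lit 409648) (nat_lit 18) (.e (nat_lit 303146) (nat_lit 14) (.e (nat_lit 491558) (nat_lit 10) (.e (nat_lit 344161) (nat_lit 37) .nil)))) (.g (nat_lit 0) (.e (nat_lit 293986) (nat_lit 0) .nil) .nil))))) (.nd (nat_lit 8) (.nd (nat_lit 9) 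
(.lf (nat_lit 549061) (.g (nat_lit 330) (.e (nat_lit 409612) (nat_lit 10) (.e (nat_lit 934) (nat_lit 76) (.e (nat_lit 786480) (nat_lit 29) .nil))) (.g (nat_lit 0) (.e (nat_lit 291327) (nat_lit 0) .nil) .nil))) 
(.lf (nat_lit 549573) (.g (nat_lit 1613) (.e (nat_lit 409647) (nat_lit 18) (.e (nat_lit 303118) (nat_lit 3) (.e (nat_lit 204855) (nat_lit 26) (.e (nat_lit 336073) (nat_lit 9) .nil)))) (.g (nat_lit 0) (.e (nat_lit 293495) (nat_lit 0) .nil) .nil)))) (.nd (nat_lit 9) 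
(.lf (nat_lit 549317) (.g (nat_lit 1356) (.e (nat_lit 409644) (nat_lit 18) (.e (nat_lit 303117) (nat_lit 2) (.e (nat_lit 196668) (nat_lit 14) (.e (nat_lit 81664) (nat_lit 43) .nil)))) (.g (nat_lit 0) (.e (nat_lit 291953) (nat_lit 0) .nil) .nil))) 
(.lf (nat_lit 549829) (.g (nat_lit 2465) (.e (nat_lit 409649) (nat_lit 18) (.e (nat_lit 303143) (nat_lit 12) (.e (nat_lit 475199) (nat_lit 40) (.e (nat_lit 704832) (nat_lit 14) .nil)))) (.g (nat_lit 0) (.e (nat_lit 294379) (nat_lit 0) .nil) .nil))))))) (.nd (nat_lit 6) (.nd (nat_lit 7) (.nd (nat_lit 8) (.nd (nat_lit 9) 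
(.lf (nat_lit 548901) (.g (nat_lit 1961) (.e (nat_lit 294966) (nat_lit 15) (.e (nat_lit 3308) (nat_lit 202) (.e (nat_lit 573482) (nat_lit 13) (.e (nat_lit 65604) (nat_lit 9) (.e (nat_lit 336013) (nat_lit 2) (.e (nat_lit 90165) (nat_lit 12) (.e (nat_lit 164207) (nat_lit 176) (.e (nat_lit 2788) (nat_lit 179) .nil)))))))) (.g (nat_lit 1) (.e (nat_lit 290646) (nat_lit 0) .nil) .nil))) 
(.lf (nat_lit 549413) (.g (nat_lit 4384) (.e (nat_lit 409645) (nat_lit 18) (.e (nat_lit 303119) (nat_lit 3) (.e (nat_lit 204866) (nat_lit 28) (.e (nat_lit 352315) (nat_lit 23) (.e (nat_lit 98349) (nat_lit 24) .nil))))) (.g (nat_lit 1) (.e (nat_lit 292196) (nat_lit 0) .nil) .nil)))) (.nd (nat_lit 9) 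
(.lf (nat_lit 549157) (.g (nat_lit 428) (.e (nat_lit 409623) (nat_lit 10) (.e (nat_lit 5664) (nat_lit 312) (.e (nat_lit 2675) (nat_lit 168) .nil))) (.g (nat_lit 0) (.e (nat_lit 291581) (nat_lit 0) .nil) .nil))) 
(.lf (nat_lit 549669) (.g (nat_lit 4342) (.e (nat_lit 409648) (nat_lit 18) (.e (nat_lit 303119) (nat_lit 3) (.e (nat_lit 204866) (nat_lit 28) (.e (nat_lit 352315) (nat_lit 23) (.e (nat_lit 98350) (nat_lit 24) .nil))))) (.g (nat_lit 1) (.e (nat_lit 293715) (nat_lit 0) .nil) .nil))))) (.nd (nat_lit 8) (.nd (nat_lit 9) 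
(.lf (nat_lit 549029) (.g (nat_lit 1462) (.e (nat_lit 417536) (nat_lit 6) (.e (nat_lit 286761) (nat_lit 13) (.e (nat_lit 393293) (nat_lit 26) (.e (nat_lit 475197) (nat_lit 40) .nil)))) (.g (nat_lit 0) (.e (nat_lit 291184) (nat_lit 0) .nil) .nil))) 
(.lf (nat_lit 549541) (.g (nat_lit 2190) (.e (nat_lit 409646) (nat_lit 18) (.e (nat_lit 303143) (nat_lit 12) (.e (nat_lit 475199) (nat_lit 40) (.e (nat_lit 704800) (nat_lit 14) .nil)))) (.g (nat_lit 0) (.e (nat_lit 293280) (nat_lit 0) .nil) .nil)))) (.nd (nat_lit 9) 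
(.lf (nat_lit 549285) (.g (nat_lit 2409) (.e (nat_lit 409643) (nat_lit 18) (.e (nat_lit 303143) (nat_lit 12) (.e (nat_lit 475199) (nat_lit 40) (.e (nat_lit 704689) (nat_lit 9) .nil)))) (.g (nat_lit 0) (.e (nat_lit 291831) (nat_lit 0) .nil) .nil))) 
(.lf (nat_lit 549797) (.g (nat_lit 3165) (.e (nat_lit 409649) (nat_lit 18) (.e (nat_lit 303140) (nat_lit 10) (.e (nat_lit 434275) (nat_lit 39) (.e (nat_lit 663574) (nat_lit 9) (.e (nat_lit 2464) (nat_lit 157) (.e (nat_lit 3469) (nat_lit 217) (.e (nat_lit 696344) (nat_lit 8) (.e (nat_lit 172081) (nat_lit 7) .nil)))))))) (.g (nat_lit 1) (.e (nat_lit 294255) (nat_lit 0) .nil) .nil)))))) 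
(.nd (nat_lit 7) (.nd (nat_lit 8) (.nd (nat_lit 9) 
(.lf (nat_lit 548965) (.g (nat_lit 2446) (.e (nat_lit 409602) (nat_lit 0) (.e (nat_lit 5270) (nat_lit 298) (.e (nat_lit 1239) (nat_lit 91) (.e (nat_lit 90170) (nat_lit 13) (.e (nat_lit 172113) (nat_lit 10) (.e (nat_lit 434247) (nat_lit 28) (.e (nat_lit 573457) (nat_lit 9) (.e (nat_lit 7936) (nat_lit 30) .nil)))))))) (.g (nat_lit 1) (.e (nat_lit 291086) (nat_lit 0) .nil) .nil))) 
(.lf (nat_lit 549477) (.g (nat_lit 444) (.e (nat_lit 409646) (nat_lit 18) (.e (nat_lit 303117) (nat_lit 2) (.e (nat_lit 196672) (nat_lit 15) .nil))) (.g (nat_lit 0) (.e (nat_lit 292817) (nat_lit 0) .nil) .nil)))) (.nd (nat_lit 9) 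
(.lf (nat_lit 549221) (.g (nat_lit 436) (.e (nat_lit 409643) (nat_lit 18) (.e (nat_lit 303112) (nat_lit 0) (.e (nat_lit 3258) (nat_lit 198) .nil))) (.g (nat_lit 0) (.e (nat_lit 291755) (nat_lit 0) .nil) .nil))) 
(.lf (nat_lit 549733) (.g (nat_lit 3884) (.e (nat_lit 409649) (nat_lit 18) (.e (nat_lit 303116) (nat_lit 2) (.e (nat_lit 196671) (nat_lit 15) (.e (nat_lit 81953) (nat_lit 22) (.e (nat_lit 90130) (nat_lit 9) (.e (nat_lit 2830) (nat_lit 182) .nil)))))) (.g (nat_lit 1) (.e (nat_lit 294043) (nat_lit 0) .nil) .nil))))) (.nd (nat_lit 8) (.nd (nat_lit 9) 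
(.lf (nat_lit 549093) (.g (nat_lit 1375) (.e (nat_lit 409616) (nat_lit 10) (.e (nat_lit 632) (nat_lit 50) (.e (nat_lit 573493) (nat_lit 15) (.e (nat_lit 89856) (nat_lit 6) .nil)))) (.g (nat_lit 0) (.e (nat_lit 291390) (nat_lit 0) .nil) .nil))) 
(.lf (nat_lit 549605) (.g (nat_lit 2762) (.e (nat_lit 409647) (nat_lit 18) (.e (nat_lit 303143) (nat_lit 12) (.e (nat_lit 475218) (nat_lit 44) (.e (nat_lit 737318) (nat_lit 15) (.e (nat_lit 49189) (nat_lit 11) (.e (nat_lit 16425) (nat_lit 7) .nil)))))) (.g (nat_lit 1) (.e (nat_lit 293552) (nat_lit 0) .nil) .nil)))) (.nd (nat_lit 9) 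
(.lf (nat_lit 549349) (.g (nat_lit 2127) (.e (nat_lit 409644) (nat_lit 18) (.e (nat_lit 303119) (nat_lit 3) (.e (nat_lit 204868) (nat_lit 29) (.e (nat_lit 360465) (nat_lit 3) .nil)))) (.g (nat_lit 0) (.e (nat_lit 291990) (nat_lit 0) .nil) .nil))) 
(.lf (nat_lit 549861) (.g (nat_lit 1664) (.e (nat_lit 417536) (nat_lit 18) (.e (nat_lit 303117) (nat_lit 2) (.e (nat_lit 196670) (nat_lit 14) (.e (nat_lit 81664) (nat_lit 43) .nil)))) (.g (nat_lit 0) (.e (nat_lit 294524) (nat_lit 0) .nil) .nil)))))))) (.nd (nat_lit 5) (.nd (nat_lit 6) (.nd (nat_lit 7) (.nd (nat_lit 8) (.nd (nat_lit 9) 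
(.lf (nat_lit 548885) (.g (nat_lit 921) (.e (nat_lit 294954) (nat_lit 12) (.e (nat_lit 385074) (nat_lit 31) (.e (nat_lit 573484) (nat_lit 13) .nil))) (.g (nat_lit 0) (.e (nat_lit 290567) (nat_lit 0) .nil) .nil))) 
(.lf (nat_lit 549397) (.g (nat_lit 4016) (.e (nat_lit 409645) (nat_lit 18) (.e (nat_lit 303118) (nat_lit 3) (.e (nat_lit 204866) (nat_lit 28) (.e (nat_lit 352315) (nat_lit 23) (.e (nat_lit 98350) (nat_lit 24) .nil))))) (.g (nat_lit 1) (.e (nat_lit 292134) (nat_lit 0) .nil) .nil)))) (.nd (nat_lit 9) 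
(.lf (nat_lit 549141) (.g (nat_lit 2831) (.e (nat_lit 409617) (nat_lit 10) (.e (nat_lit 632) (nat_lit 50) (.e (nat_lit 573493) (nat_lit 15) (.e (nat_lit 81938) (nat_lit 20) (.e (nat_lit 989) (nat_lit 81) .nil))))) (.g (nat_lit 0) (.e (nat_lit 291500) (nat_lit 0) .nil) .nil))) 
(.lf (nat_lit 549653) (.g (nat_lit 2537) (.e (nat_lit 409648) (nat_lit 18) (.e (nat_lit 303119) (nat_lit 3) (.e (nat_lit 204855) (nat_lit 26) (.e (nat_lit 336073) (nat_lit 9) (.e (nat_lit 336019) (nat_lit 3) .nil))))) (.g (nat_lit 0) (.e (nat_lit 293694) (nat_lit 0) .nil) .nil))))) (.nd (nat_lit 8) (.nd (nat_lit 9) 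
(.lf (nat_lit 549013) (.g (nat_lit 2265) (.e (nat_lit 409604) (nat_lit 0) (.e (nat_lit 5270) (nat_lit 298) (.e (nat_lit 1239) (nat_lit 91) (.e (nat_lit 90170) (nat_lit 13) (.e (nat_lit 172113) (nat_lit 10) (.e (nat_lit 434248) (nat_lit 28) (.e (nat_lit 573449) (nat_lit 9) (.e (nat_lit 362) (nat_lit 30) .nil)))))))) (.g (nat_lit 1) (.e (nat_lit 291156) (nat_lit 0) .nil) .nil))) 
(.lf (nat_lit 549525) (.g (nat_lit 2365) (.e (nat_lit 409646) (nat_lit 18) (.e (nat_lit 303143) (nat_lit 12) (.e (nat_lit 475199) (nat_lit 40) (.e (nat_lit 704617) (nat_lit 9) .nil)))) (.g (nat_lit 0) (.e (nat_lit 293260) (nat_lit 0) .nil) .nil)))) (.nd (nat_lit 9) 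
(.lf (nat_lit 549269) (.g (nat_lit 2247) (.e (nat_lit 409643) (nat_lit 18) (.e (nat_lit 303119) (nat_lit 3) (.e (nat_lit 204866) (nat_lit 28) (.e (nat_lit 352301) (nat_lit 20) (.e (nat_lit 1788) (nat_lit 119) .nil))))) (.g (nat_lit 0) (.e (nat_lit 291805) (nat_lit 0) .nil) .nil))) 
(.lf (nat_lit 549781) (.g (nat_lit 2092) (.e (nat_lit 409649) (nat_lit 18) (.e (nat_lit 303119) (nat_lit 3) (.e (nat_lit 204863) (nat_lit 27) (.e (nat_lit 344071) (nat_lit 8) .nil)))) (.g (nat_lit 0) (.e (nat_lit 294112) (nat_lit 0) .nil) .nil)))))) (.nd (nat_lit 7) (.nd (nat_lit 8) (.nd (nat_lit 9) 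
(.lf (nat_lit 548949) (.g (nat_lit 2155) (.e (nat_lit 294974) (nat_lit 29) (.e (nat_lit 442399) (nat_lit 20) (.e (nat_lit 3402) (nat_lit 211) (.e (nat_lit 647183) (nat_lit 4) (.e (nat_lit 172079) (nat_lit 7) (.e (nat_lit 409642) (nat_lit 17) .nil)))))) (.g (nat_lit 1) (.e (nat_lit 290874) (nat_lit 0) .nil) .nil))) 
(.lf (nat_lit 549461) (.g (nat_lit 4210) (.e (nat_lit 409646) (nat_lit 18) (.e (nat_lit 303112) (nat_lit 0) (.e (nat_lit 3252) (nat_lit 197) (.e (nat_lit 532535) (nat_lit 9) (.e (nat_lit 336099) (nat_lit 9) (.e (nat_lit 336013) (nat_lit 2) (.e (nat_lit 98048) (nat_lit 9) (.e (nat_lit 2828) (nat_lit 182) .nil)))))))) (.g (nat_lit 1) (.e (nat_lit 292771) (nat_lit 0) .nil) .nil)))) (.nd (nat_lit 9) 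
(.lf (nat_lit 549205) (.g (nat_lit 1272) (.e (nat_lit 409638) (nat_lit 15) (.e (nat_lit 278566) (nat_lit 16) (.e (nat_lit 286756) (nat_lit 10) (.e (nat_lit 344154) (nat_lit 35) (.e (nat_lit 630802) (nat_lit 8) (.e (nat_lit 172081) (nat_lit 7) .nil)))))) (.g (nat_lit 1) (.e (nat_lit 291727) (nat_lit 0) .nil) .nil))) 
(.lf (nat_lit 549717) (.g (nat_lit 2146) (.e (nat_lit 409649) (nat_lit 18) (.e (nat_lit 303111) (nat_lit 0) (.e (nat_lit 3255) (nat_lit 197) (.e (nat_lit 532535) (nat_lit 9) (.e (nat_lit 336099) (nat_lit 9) .nil))))) (.g (nat_lit 0) (.e (nat_lit 294011) (nat_lit 0) .nil) .nil))))) (.nd (nat_lit 8) (.nd (nat_lit 9) 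
(.lf (nat_lit 549077) (.g (nat_lit 2774) (.e (nat_lit 409616) (nat_lit 10) (.e (nat_lit 632) (nat_lit 50) (.e (nat_lit 573485) (nat_lit 13) (.e (nat_lit 65619) (nat_lit 10) (.e (nat_lit 344090) (nat_lit 18) (.e (nat_lit 7710) (nat_lit 414) (.e (nat_lit 163908) (nat_lit 12) (.e (nat_lit 426171) (nat_lit 7) .nil)))))))) (.g (nat_lit 1) (.e (nat_lit 291367) (nat_lit 0) .nil) .nil))) 
(.lf (nat_lit 549589) (.g (nat_lit 692) (.e (nat_lit 409647) (nat_lit 18) (.e (nat_lit 303119) (nat_lit 3) (.e (nat_lit 204876) (nat_lit 31) .nil))) (.g (nat_lit 0) (.e (nat_lit 293532) (nat_lit 0) .nil) .nil)))) (.nd (nat_lit 9) 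
(.lf (nat_lit 549333) (.g (nat_lit 1650) (.e (nat_lit 409644) (nat_lit 18) (.e (nat_lit 303119) (nat_lit 3) (.e (nat_lit 204852) (nat_lit 26) (.e (nat_lit 336130) (nat_lit 9) .nil)))) (.g (nat_lit 0) (.e (nat_lit 291970) (nat_lit 0) .nil) .nil))) 
(.lf (nat_lit 549845) (.g (nat_lit 1600) (.e (nat_lit 417536) (nat_lit 18) (.e (nat_lit 303116) (nat_lit 2) (.e (nat_lit 196674) (nat_lit 15) (.e (nat_lit 81952) (nat_lit 22) (.e (nat_lit 90130) (nat_lit 9) .nil))))) (.g (nat_lit 0) (.e (nat_lit 294507) (nat_lit 0) .nil) .nil))))))) (.nd (nat_lit 6) (.nd (nat_lit 7) (.nd (nat_lit 8) (.nd (nat_lit 9) 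
(.lf (nat_lit 548917) (.g (nat_lit 3385) (.e (nat_lit 294969) (nat_lit 27) (.e (nat_lit 426340) (nat_lit 14) (.e (nat_lit 491571) (nat_lit 13) (.e (nat_lit 393260) (nat_lit 21) (.e (nat_lit 409640) (nat_lit 17) .nil))))) (.g (nat_lit 1) (.e (nat_lit 290746) (nat_lit 0) .nil) .nil))) 
(.lf (nat_lit 549429) (.g (nat_lit 2441) (.e (nat_lit 409645) (nat_lit 18) (.e (nat_lit 303137) (nat_lit 10) (.e (nat_lit 434275) (nat_lit 39) (.e (nat_lit 663574) (nat_lit 9) (.e (nat_lit 2470) (nat_lit 157) .nil))))) (.g (nat_lit 0) (.e (nat_lit 292435) (nat_lit 0) .nil) .nil)))) (.nd (nat_lit 9) 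
(.lf (nat_lit 549173) (.g (nat_lit 504) (.e (nat_lit 417536) (nat_lit 10) (.e (nat_lit 632) (nat_lit 50) (.e (nat_lit 573487) (nat_lit 14) .nil))) (.g (nat_lit 0) (.e (nat_lit 291635) (nat_lit 0) .nil) .nil))) 
(.lf (nat_lit 549685) (.g (nat_lit 1070) (.e (nat_lit 409648) (nat_lit 18) (.e (nat_lit 303137) (nat_lit 10) (.e (nat_lit 434275) (nat_lit 39) (.e (nat_lit 663579) (nat_lit 9) (.e (nat_lit 2438) (nat_lit 157) .nil))))) (.g (nat_lit 0) (.e (nat_lit 293832) (nat_lit 0) .nil) .nil))))) (.nd (nat_lit 8) (.nd (nat_lit 9) 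
(.lf (nat_lit 549045) (.g (nat_lit 1147) (.e (nat_lit 409611) (nat_lit 10) (.e (nat_lit 632) (nat_lit 50) (.e (nat_lit 573491) (nat_lit 15) (.e (nat_lit 81943) (nat_lit 20) .nil)))) (.g (nat_lit 0) (.e (nat_lit 291218) (nat_lit 0) .nil) .nil))) 
(.lf (nat_lit 549557) (.g (nat_lit 1896) (.e (nat_lit 409647) (nat_lit 18) (.e (nat_lit 303117) (nat_lit 2) (.e (nat_lit 196666) (nat_lit 13) (.e (nat_lit 65609) (nat_lit 10) .nil)))) (.g (nat_lit 0) (.e (nat_lit 293478) (nat_lit 0) .nil) .nil)))) (.nd (nat_lit 9) 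
(.lf (nat_lit 549301) (.g (nat_lit 440) (.e (nat_lit 409644) (nat_lit 18) (.e (nat_lit 303112) (nat_lit 0) (.e (nat_lit 3252) (nat_lit 197) .nil))) (.g (nat_lit 0) (.e (nat_lit 291937) (nat_lit 0) .nil) .nil))) 
(.lf (nat_lit 549813) (.g (nat_lit 2640) (.e (nat_lit 409649) (nat_lit 18) (.e (nat_lit 303140) (nat_lit 10) (.e (nat_lit 434275) (nat_lit 39) (.e (nat_lit 663579) (nat_lit 9) (.e (nat_lit 2427) (nat_lit 157) (.e (nat_lit 3471) (nat_lit 217) (.e (nat_lit 696343) (nat_lit 8) (.e (nat_lit 172081) (nat_lit 7) .nil)))))))) (.g (nat_lit 1) (.e (nat_lit 294328) (nat_lit 0) .nil) .nil)))))) 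
(.nd (nat_lit 7) (.nd (nat_lit 8) (.nd (nat_lit 9) 
(.lf (nat_lit 548981) (.g (nat_lit 1873) (.e (nat_lit 409602) (nat_lit 0) (.e (nat_lit 5293) (nat_lit 298) (.e (nat_lit 1656) (nat_lit 115) (.e (nat_lit 393280) (nat_lit 23) (.e (nat_lit 426142) (nat_lit 4) .nil))))) (.g (nat_lit 0) (.e (nat_lit 291106) (nat_lit 0) .nil) .nil))) 
(.lf (nat_lit 549493) (.g (nat_lit 1761) (.e (nat_lit 409646) (nat_lit 18) (.e (nat_lit 303119) (nat_lit 3) (.e (nat_lit 204855) (nat_lit 26) (.e (nat_lit 336095) (nat_lit 9) .nil)))) (.g (nat_lit 0) (.e (nat_lit 292863) (nat_lit 0) .nil) .nil)))) (.nd (nat_lit 9) 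
(.lf (nat_lit 549237) (.g (nat_lit 3059) (.e (nat_lit 409643) (nat_lit 18) (.e (nat_lit 303117) (nat_lit 2) (.e (nat_lit 196666) (nat_lit 13) (.e (nat_lit 65617) (nat_lit 10) .nil)))) (.g (nat_lit 0) (.e (nat_lit 291771) (nat_lit 0) .nil) .nil))) 
(.lf (nat_lit 549749) (.g (nat_lit 1507) (.e (nat_lit 409649) (nat_lit 18) (.e (nat_lit 303117) (nat_lit 2) (.e (nat_lit 196668) (nat_lit 14) (.e (nat_lit 73785) (nat_lit 40) .nil)))) (.g (nat_lit 0) (.e (nat_lit 294064) (nat_lit 0) .nil) .nil))))) (.nd (nat_lit 8) (.nd (nat_lit 9) 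
(.lf (nat_lit 549109) (.g (nat_lit 1628) (.e (nat_lit 409617) (nat_lit 10) (.e (nat_lit 632) (nat_lit 50) (.e (nat_lit 573485) (nat_lit 13) (.e (nat_lit 65619) (nat_lit 10) (.e (nat_lit 344183) (nat_lit 49) .nil))))) (.g (nat_lit 0) (.e (nat_lit 291453) (nat_lit 0) .nil) .nil))) 
(.lf (nat_lit 549621) (.g (nat_lit 3216) (.e (nat_lit 409648) (nat_lit 18) (.e (nat_lit 303117) (nat_lit 2) (.e (nat_lit 196666) (nat_lit 13) (.e (nat_lit 65605) (nat_lit 9) .nil)))) (.g (nat_lit 0) (.e (nat_lit 293648) (nat_lit 0) .nil) .nil)))) (.nd (nat_lit 9) 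
(.lf (nat_lit 549365) (.g (nat_lit 1090) (.e (nat_lit 409644) (nat_lit 18) (.e (nat_lit 303143) (nat_lit 12) (.e (nat_lit 475220) (nat_lit 44) (.e (nat_lit 745216) (nat_lit 15) .nil)))) (.g (nat_lit 0) (.e (nat_lit 292018) (nat_lit 0) .nil) .nil))) 
(.lf (nat_lit 549877) (.g (nat_lit 1461) (.e (nat_lit 417536) (nat_lit 18) (.e (nat_lit 303119) (nat_lit 3) (.e (nat_lit 204821) (nat_lit 17) (.e (nat_lit 7936) (nat_lit 347) .nil)))) (.g (nat_lit 0) (.e (nat_lit 294549) (nat_lit 0) .nil) .nil))))))))) (.nd (nat_lit 4) (.nd (nat_lit 5) (.nd (nat_lit 6) (.nd (nat_lit 7) (.nd (nat_lit 8) (.nd (nat_lit 9) 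
(.lf (nat_lit 548877) (.g (nat_lit 2387) (.e (nat_lit 294953) (nat_lit 12) (.e (nat_lit 385074) (nat_lit 31) (.e (nat_lit 573484) (nat_lit 13) (.e (nat_lit 65617) (nat_lit 10) .nil)))) (.g (nat_lit 0) (.e (nat_lit 290554) (nat_lit 0) .nil) .nil))) 
(.lf (nat_lit 549389) (.g (nat_lit 1190) (.e (nat_lit 409645) (nat_lit 18) (.e (nat_lit 303117) (nat_lit 2) (.e (nat_lit 196674) (nat_lit 15) (.e (nat_lit 81947) (nat_lit 20) .nil)))) (.g (nat_lit 0) (.e (nat_lit 292114) (nat_lit 0) .nil) .nil)))) (.nd (nat_lit 9) 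
(.lf (nat_lit 549133) (.g (nat_lit 2172) (.e (nat_lit 409617) (nat_lit 10) (.e (nat_lit 632) (nat_lit 50) (.e (nat_lit 573491) (nat_lit 15) (.e (nat_lit 81938) (nat_lit 20) (.e (nat_lit 2391) (nat_lit 156) .nil))))) (.g (nat_lit 0) (.e (nat_lit 291481) (nat_lit 0) .nil) .nil))) 
(.lf (nat_lit 549645) (.g (nat_lit 4384) (.e (nat_lit 409648) (nat_lit 18) (.e (nat_lit 303118) (nat_lit 3) (.e (nat_lit 204866) (nat_lit 28) (.e (nat_lit 352315) (nat_lit 23) (.e (nat_lit 98350) (nat_lit 24) .nil))))) (.g (nat_lit 1) (.e (nat_lit 293683) (nat_lit 0) .nil) .nil))))) (.nd (nat_lit 8) (.nd (nat_lit 9) 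
(.lf (nat_lit 549005) (.g (nat_lit 1263) (.e (nat_lit 409603) (nat_lit 0) (.e (nat_lit 5293) (nat_lit 298) (.e (nat_lit 1423) (nat_lit 108) (.e (nat_lit 336421) (nat_lit 28) (.e (nat_lit 442112) (nat_lit 4) (.e (nat_lit 65647) (nat_lit 25) .nil)))))) (.g (nat_lit 1) (.e (nat_lit 291138) (nat_lit 0) .nil) .nil))) 
(.lf (nat_lit 549517) (.g (nat_lit 3189) (.e (nat_lit 409646) (nat_lit 18) (.e (nat_lit 303140) (nat_lit 10) (.e (nat_lit 434275) (nat_lit 39) (.e (nat_lit 663580) (nat_lit 9) (.e (nat_lit 2478) (nat_lit 157) (.e (nat_lit 3464) (nat_lit 217) (.e (nat_lit 696344) (nat_lit 8) (.e (nat_lit 172078) (nat_lit 7) .nil)))))))) (.g (nat_lit 1) (.e (nat_lit 293161) (nat_lit 0) .nil) .nil)))) 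
(.nd (nat_lit 9) 
(.lf (nat_lit 549261) (.g (nat_lit 2128) (.e (nat_lit 409643) (nat_lit 18) (.e (nat_lit 303119) (nat_lit 3) (.e (nat_lit 204852) (nat_lit 26) (.e (nat_lit 336142) (nat_lit 9) .nil)))) (.g (nat_lit 0) (.e (nat_lit 291796) (nat_lit 0) .nil) .nil))) 
(.lf (nat_lit 549773) (.g (nat_lit 1865) (.e (nat_lit 409649) (nat_lit 18) (.e (nat_lit 303119) (nat_lit 3) (.e (nat_lit 204830) (nat_lit 18) (.e (nat_lit 57770) (nat_lit 227) .nil)))) (.g (nat_lit 0) (.e (nat_lit 294101) (nat_lit 0) .nil) .nil)))))) (.nd (nat_lit 7) (.nd (nat_lit 8) (.nd (nat_lit 9) 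
(.lf (nat_lit 548941) (.g (nat_lit 1987) (.e (nat_lit 294974) (nat_lit 29) (.e (nat_lit 442377) (nat_lit 0) (.e (nat_lit 2059) (nat_lit 142) (.e (nat_lit 704595) (nat_lit 5) (.e (nat_lit 180285) (nat_lit 45) (.e (nat_lit 2786) (nat_lit 179) .nil)))))) (.g (nat_lit 1) (.e (nat_lit 290801) (nat_lit 0) .nil) .nil))) 
(.lf (nat_lit 549453) (.g (nat_lit 2360) (.e (nat_lit 409645) (nat_lit 18) (.e (nat_lit 303143) (nat_lit 12) (.e (nat_lit 475199) (nat_lit 40) (.e (nat_lit 704860) (nat_lit 18) .nil)))) (.g (nat_lit 0) (.e (nat_lit 292538) (nat_lit 0) .nil) .nil)))) (.nd (nat_lit 9) 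
(.lf (nat_lit 549197) (.g (nat_lit 1121) (.e (nat_lit 409638) (nat_lit 15) (.e (nat_lit 278566) (nat_lit 16) (.e (nat_lit 286754) (nat_lit 10) (.e (nat_lit 344154) (nat_lit 35) (.e (nat_lit 630802) (nat_lit 8) (.e (nat_lit 172079) (nat_lit 7) .nil)))))) (.g (nat_lit 1) (.e (nat_lit 291719) (nat_lit 0) .nil) .nil))) 
(.lf (nat_lit 549709) (.g (nat_lit 407) (.e (nat_lit 409649) (nat_lit 18) (.e (nat_lit 303111) (nat_lit 0) (.e (nat_lit 3238) (nat_lit 197) .nil))) (.g (nat_lit 0) (.e (nat_lit 294000) (nat_lit 0) .nil) .nil))))) (.nd (nat_lit 8) (.nd (nat_lit 9) 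
(.lf (nat_lit 549069) (.g (nat_lit 3138) (.e (nat_lit 409615) (nat_lit 10) (.e (nat_lit 632) (nat_lit 50) (.e (nat_lit 573489) (nat_lit 14) (.e (nat_lit 73755) (nat_lit 8) (.e (nat_lit 557105) (nat_lit 14) (.e (nat_lit 180252) (nat_lit 10) (.e (nat_lit 581376) (nat_lit 0) (.e (nat_lit 2825) (nat_lit 182) .nil)))))))) (.g (nat_lit 1) (.e (nat_lit 291340) (nat_lit 0) .nil) .nil))) 
(.lf (nat_lit 549581) (.g (nat_lit 2650) (.e (nat_lit 409647) (nat_lit 18) (.e (nat_lit 303118) (nat_lit 3) (.e (nat_lit 204869) (nat_lit 29) (.e (nat_lit 360465) (nat_lit 3) (.e (nat_lit 516139) (nat_lit 7) .nil))))) (.g (nat_lit 0) (.e (nat_lit 293514) (nat_lit 0) .nil) .nil)))) (.nd (nat_lit 9) 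
(.lf (nat_lit 549325) (.g (nat_lit 2090) (.e (nat_lit 409644) (nat_lit 18) (.e (nat_lit 303117) (nat_lit 2) (.e (nat_lit 196674) (nat_lit 15) (.e (nat_lit 81962) (nat_lit 25) (.e (nat_lit 139289) (nat_lit 9) .nil))))) (.g (nat_lit 0) (.e (nat_lit 291961) (nat_lit 0) .nil) .nil))) 
(.lf (nat_lit 549837) (.g (nat_lit 1521) (.e (nat_lit 409649) (nat_lit 18) (.e (nat_lit 303146) (nat_lit 14) (.e (nat_lit 491559) (nat_lit 10) (.e (nat_lit 344154) (nat_lit 35) .nil)))) (.g (nat_lit 0) (.e (nat_lit 294490) (nat_lit 0) .nil) .nil))))))) (.nd (nat_lit 6) (.nd (nat_lit 7) (.nd (nat_lit 8) (.nd (nat_lit 9) 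
(.lf (nat_lit 548909) (.g (nat_lit 1840) (.e (nat_lit 294969) (nat_lit 27) (.e (nat_lit 426340) (nat_lit 14) (.e (nat_lit 491549) (nat_lit 9) (.e (nat_lit 336421) (nat_lit 28) (.e (nat_lit 434189) (nat_lit 13) (.e (nat_lit 2788) (nat_lit 179) .nil)))))) (.g (nat_lit 1) (.e (nat_lit 290729) (nat_lit 0) .nil) .nil))) 
(.lf (nat_lit 549421) (.g (nat_lit 433) (.e (nat_lit 409645) (nat_lit 18) (.e (nat_lit 303133) (nat_lit 9) (.e (nat_lit 426162) (nat_lit 6) .nil))) (.g (nat_lit 0) (.e (nat_lit 292350) (nat_lit 0) .nil) .nil)))) (.nd (nat_lit 9) 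
(.lf (nat_lit 549165) (.g (nat_lit 1567) (.e (nat_lit 409623) (nat_lit 10) (.e (nat_lit 5664) (nat_lit 312) (.e (nat_lit 2679) (nat_lit 168) (.e (nat_lit 204876) (nat_lit 31) (.e (nat_lit 384768) (nat_lit 23) .nil))))) (.g (nat_lit 0) (.e (nat_lit 291593) (nat_lit 0) .nil) .nil))) 
(.lf (nat_lit 549677) (.g (nat_lit 1654) (.e (nat_lit 409648) (nat_lit 18) (.e (nat_lit 303137) (nat_lit 10) (.e (nat_lit 434275) (nat_lit 39) (.e (nat_lit 663574) (nat_lit 9) (.e (nat_lit 7936) (nat_lit 20) .nil))))) (.g (nat_lit 0) (.e (nat_lit 293772) (nat_lit 0) .nil) .nil))))) (.nd (nat_lit 8) (.nd (nat_lit 9) 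
(.lf (nat_lit 549037) (.g (nat_lit 1110) (.e (nat_lit 409609) (nat_lit 10) (.e (nat_lit 934) (nat_lit 76) (.e (nat_lit 786480) (nat_lit 29) (.e (nat_lit 352312) (nat_lit 22) .nil)))) (.g (nat_lit 0) (.e (nat_lit 291203) (nat_lit 0) .nil) .nil))) 
(.lf (nat_lit 549549) (.g (nat_lit 2002) (.e (nat_lit 409647) (nat_lit 18) (.e (nat_lit 303111) (nat_lit 0) (.e (nat_lit 3579) (nat_lit 223) (.e (nat_lit 745509) (nat_lit 11) (.e (nat_lit 24660) (nat_lit 13) .nil))))) (.g (nat_lit 0) (.e (nat_lit 293469) (nat_lit 0) .nil) .nil)))) (.nd (nat_lit 9) 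
(.lf (nat_lit 549293) (.g (nat_lit 2426) (.e (nat_lit 409643) (nat_lit 18) (.e (nat_lit 303143) (nat_lit 12) (.e (nat_lit 475199) (nat_lit 40) (.e (nat_lit 704799) (nat_lit 14) .nil)))) (.g (nat_lit 0) (.e (nat_lit 291839) (nat_lit 0) .nil) .nil))) 
(.lf (nat_lit 549805) (.g (nat_lit 2193) (.e (nat_lit 409649) (nat_lit 18) (.e (nat_lit 303140) (nat_lit 10) (.e (nat_lit 434275) (nat_lit 39) (.e (nat_lit 663574) (nat_lit 9) (.e (nat_lit 2472) (nat_lit 157) .nil))))) (.g (nat_lit 0) (.e (nat_lit 294264) (nat_lit 0) .nil) .nil)))))) (.nd (nat_lit 7) (.nd (nat_lit 8) (.nd (nat_lit 9) 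
(.lf (nat_lit 548973) (.g (nat_lit 1577) (.e (nat_lit 409602) (nat_lit 0) (.e (nat_lit 5293) (nat_lit 298) (.e (nat_lit 1656) (nat_lit 115) (.e (nat_lit 393266) (nat_lit 23) .nil)))) (.g (nat_lit 0) (.e (nat_lit 291098) (nat_lit 0) .nil) .nil))) 
(.lf (nat_lit 549485) (.g (nat_lit 582) (.e (nat_lit 409646) (nat_lit 18) (.e (nat_lit 303118) (nat_lit 3) (.e (nat_lit 204852) (nat_lit 26) .nil))) (.g (nat_lit 0) (.e (nat_lit 292839) (nat_lit 0) .nil) .nil)))) (.nd (nat_lit 9) 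
(.lf (nat_lit 549229) (.g (nat_lit 2269) (.e (nat_lit 409643) (nat_lit 18) (.e (nat_lit 303117) (nat_lit 2) (.e (nat_lit 196666) (nat_lit 13) (.e (nat_lit 65589) (nat_lit 9) .nil)))) (.g (nat_lit 0) (.e (nat_lit 291763) (nat_lit 0) .nil) .nil))) 
(.lf (nat_lit 549741) (.g (nat_lit 2186) (.e (nat_lit 409649) (nat_lit 18) (.e (nat_lit 303117) (nat_lit 2) (.e (nat_lit 196666) (nat_lit 13) (.e (nat_lit 65598) (nat_lit 9) (.e (nat_lit 336028) (nat_lit 3) .nil))))) (.g (nat_lit 0) (.e (nat_lit 294052) (nat_lit 0) .nil) .nil))))) (.nd (nat_lit 8) (.nd (nat_lit 9) 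
(.lf (nat_lit 549101) (.g (nat_lit 2628) (.e (nat_lit 409616) (nat_lit 10) (.e (nat_lit 858) (nat_lit 75) (.e (nat_lit 778326) (nat_lit 6) (.e (nat_lit 81953) (nat_lit 22) (.e (nat_lit 98048) (nat_lit 0) (.e (nat_lit 375) (nat_lit 32) (.e (nat_lit 426173) (nat_lit 7) .nil))))))) (.g (nat_lit 1) (.e (nat_lit 291418) (nat_lit 0) .nil) .nil))) 
(.lf (nat_lit 549613) (.g (nat_lit 491) (.e (nat_lit 409648) (nat_lit 18) (.e (nat_lit 303116) (nat_lit 2) (.e (nat_lit 196669) (nat_lit 14) .nil))) (.g (nat_lit 0) (.e (nat_lit 293637) (nat_lit 0) .nil) .nil)))) (.nd (nat_lit 9) 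
(.lf (nat_lit 549357) (.g (nat_lit 2589) (.e (nat_lit 409644) (nat_lit 18) (.e (nat_lit 303143) (nat_lit 12) (.e (nat_lit 475199) (nat_lit 40) (.e (nat_lit 704772) (nat_lit 14) .nil)))) (.g (nat_lit 0) (.e (nat_lit 292007) (nat_lit 0) .nil) .nil))) 
(.lf (nat_lit 549869) (.g (nat_lit 1957) (.e (nat_lit 417536) (nat_lit 18) (.e (nat_lit 303117) (nat_lit 2) (.e (nat_lit 196674) (nat_lit 15) (.e (nat_lit 81962) (nat_lit 25) .nil)))) (.g (nat_lit 0) (.e (nat_lit 294532) (nat_lit 0) .nil) .nil)))))))) (.nd (nat_lit 5) (.nd (nat_lit 6) (.nd (nat_lit 7) (.nd (nat_lit 8) (.nd (nat_lit 9) 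
(.lf (nat_lit 548893) (.g (nat_lit 1483) (.e (nat_lit 294957) (nat_lit 13) (.e (nat_lit 393225) (nat_lit 9) (.e (nat_lit 335995) (nat_lit 1) (.e (nat_lit 57872) (nat_lit 264) .nil)))) (.g (nat_lit 0) (.e (nat_lit 290585) (nat_lit 0) .nil) .nil))) 
(.lf (nat_lit 549405) (.g (nat_lit 2052) (.e (nat_lit 409645) (nat_lit 18) (.e (nat_lit 303119) (nat_lit 3) (.e (nat_lit 204855) (nat_lit 26) (.e (nat_lit 336095) (nat_lit 9) .nil)))) (.g (nat_lit 0) (.e (nat_lit 292162) (nat_lit 0) .nil) .nil)))) (.nd (nat_lit 9) 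
(.lf (nat_lit 549149) (.g (nat_lit 2201) (.e (nat_lit 409617) (nat_lit 10) (.e (nat_lit 5758) (nat_lit 315) (.e (nat_lit 163962) (nat_lit 25) (.e (nat_lit 532535) (nat_lit 9) (.e (nat_lit 336111) (nat_lit 9) .nil))))) (.g (nat_lit 0) (.e (nat_lit 291560) (nat_lit 0) .nil) .nil))) 
(.lf (nat_lit 549661) (.g (nat_lit 1981) (.e (nat_lit 409648) (nat_lit 18) (.e (nat_lit 303119) (nat_lit 3) (.e (nat_lit 204859) (nat_lit 26) (.e (nat_lit 336118) (nat_lit 9) (.e (nat_lit 335959) (nat_lit 0) .nil))))) (.g (nat_lit 0) (.e (nat_lit 293705) (nat_lit 0) .nil) .nil))))) (.nd (nat_lit 8) (.nd (nat_lit 9) 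
(.lf (nat_lit 549021) (.g (nat_lit 456) (.e (nat_lit 417536) (nat_lit 8) (.e (nat_lit 303119) (nat_lit 3) (.e (nat_lit 204846) (nat_lit 24) .nil))) (.g (nat_lit 0) (.e (nat_lit 291176) (nat_lit 0) .nil) .nil))) 
(.lf (nat_lit 549533) (.g (nat_lit 2528) (.e (nat_lit 409646) (nat_lit 18) (.e (nat_lit 303143) (nat_lit 12) (.e (nat_lit 475199) (nat_lit 40) (.e (nat_lit 704773) (nat_lit 14) (.e (nat_lit 2587) (nat_lit 162) .nil))))) (.g (nat_lit 0) (.e (nat_lit 293271) (nat_lit 0) .nil) .nil)))) (.nd (nat_lit 9) 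
(.lf (nat_lit 549277) (.g (nat_lit 2347) (.e (nat_lit 409643) (nat_lit 18) (.e (nat_lit 303119) (nat_lit 3) (.e (nat_lit 204869) (nat_lit 29) (.e (nat_lit 360467) (nat_lit 3) .nil)))) (.g (nat_lit 0) (.e (nat_lit 291821) (nat_lit 0) .nil) .nil))) 
(.lf (nat_lit 549789) (.g (nat_lit 1911) (.e (nat_lit 409649) (nat_lit 18) (.e (nat_lit 303133) (nat_lit 9) (.e (nat_lit 426412) (nat_lit 15) (.e (nat_lit 2221) (nat_lit 146) .nil)))) (.g (nat_lit 0) (.e (nat_lit 294149) (nat_lit 0) .nil) .nil)))))) (.nd (nat_lit 7) (.nd (nat_lit 8) (.nd (nat_lit 9) 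
(.lf (nat_lit 548957) (.g (nat_lit 4868) (.e (nat_lit 409602) (nat_lit 0) (.e (nat_lit 5626) (nat_lit 312) (.e (nat_lit 2685) (nat_lit 168) (.e (nat_lit 204846) (nat_lit 24) (.e (nat_lit 319530) (nat_lit 16) (.e (nat_lit 286735) (nat_lit 3) (.e (nat_lit 98350) (nat_lit 24) .nil))))))) (.g (nat_lit 1) (.e (nat_lit 291078) (nat_lit 0) .nil) .nil))) 
(.lf (nat_lit 549469) (.g (nat_lit 1332) (.e (nat_lit 409646) (nat_lit 18) (.e (nat_lit 303117) (nat_lit 2) (.e (nat_lit 196630) (nat_lit 9) (.e (nat_lit 1596) (nat_lit 111) .nil)))) (.g (nat_lit 0) (.e (nat_lit 292804) (nat_lit 0) .nil) .nil)))) (.nd (nat_lit 9) 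
(.lf (nat_lit 549213) (.g (nat_lit 458) (.e (nat_lit 409639) (nat_lit 15) (.e (nat_lit 278566) (nat_lit 16) (.e (nat_lit 286754) (nat_lit 10) (.e (nat_lit 344153) (nat_lit 35) .nil)))) (.g (nat_lit 0) (.e (nat_lit 291747) (nat_lit 0) .nil) .nil))) 
(.lf (nat_lit 549725) (.g (nat_lit 832) (.e (nat_lit 409649) (nat_lit 18) (.e (nat_lit 303116) (nat_lit 2) (.e (nat_lit 196665) (nat_lit 13) .nil))) (.g (nat_lit 0) (.e (nat_lit 294033) (nat_lit 0) .nil) .nil))))) (.nd (nat_lit 8) (.nd (nat_lit 9) 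
(.lf (nat_lit 549085) (.g (nat_lit 3972) (.e (nat_lit 409616) (nat_lit 10) (.e (nat_lit 632) (nat_lit 50) (.e (nat_lit 573489) (nat_lit 14) (.e (nat_lit 73755) (nat_lit 8) (.e (nat_lit 557105) (nat_lit 14) (.e (nat_lit 180245) (nat_lit 5) (.e (nat_lit 540416) (nat_lit 24) .nil))))))) (.g (nat_lit 1) (.e (nat_lit 291376) (nat_lit 0) .nil) .nil))) 
(.lf (nat_lit 549597) (.g (nat_lit 2127) (.e (nat_lit 409647) (nat_lit 18) (.e (nat_lit 303143) (nat_lit 12) (.e (nat_lit 475199) (nat_lit 40) (.e (nat_lit 704788) (nat_lit 14) .nil)))) (.g (nat_lit 0) (.e (nat_lit 293543) (nat_lit 0) .nil) .nil)))) (.nd (nat_lit 9) 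
(.lf (nat_lit 549341) (.g (nat_lit 2792) (.e (nat_lit 409644) (nat_lit 18) (.e (nat_lit 303119) (nat_lit 3) (.e (nat_lit 204861) (nat_lit 26) (.e (nat_lit 336076) (nat_lit 9) (.e (nat_lit 336018) (nat_lit 3) .nil))))) (.g (nat_lit 0) (.e (nat_lit 291979) (nat_lit 0) .nil) .nil))) 
(.lf (nat_lit 549853) (.g (nat_lit 3185) (.e (nat_lit 417536) (nat_lit 18) (.e (nat_lit 303117) (nat_lit 2) (.e (nat_lit 196666) (nat_lit 13) (.e (nat_lit 65611) (nat_lit 10) .nil)))) (.g (nat_lit 0) (.e (nat_lit 294516) (nat_lit 0) .nil) .nil))))))) (.nd (nat_lit 6) (.nd (nat_lit 7) (.nd (nat_lit 8) (.nd (nat_lit 9) 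
(.lf (nat_lit 548925) (.g (nat_lit 2053) (.e (nat_lit 294973) (nat_lit 28) (.e (nat_lit 434180) (nat_lit 0) (.e (nat_lit 1427) (nat_lit 108) (.e (nat_lit 336421) (nat_lit 28) (.e (nat_lit 434189) (nat_lit 13) (.e (nat_lit 2786) (nat_lit 179) .nil)))))) (.g (nat_lit 1) (.e (nat_lit 290774) (nat_lit 0) .nil) .nil))) 
(.lf (nat_lit 549437) (.g (nat_lit 2394) (.e (nat_lit 409645) (nat_lit 18) (.e (nat_lit 303143) (nat_lit 12) (.e (nat_lit 475199) (nat_lit 40) (.e (nat_lit 704607) (nat_lit 9) (.e (nat_lit 1046) (nat_lit 81) .nil))))) (.g (nat_lit 0) (.e (nat_lit 292513) (nat_lit 0) .nil) .nil)))) (.nd (nat_lit 9) 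
(.lf (nat_lit 549181) (.g (nat_lit 1461) (.e (nat_lit 409631) (nat_lit 12) (.e (nat_lit 32807) (nat_lit 18) (.e (nat_lit 172118) (nat_lit 12) (.e (nat_lit 475185) (nat_lit 29) (.e (nat_lit 557098) (nat_lit 13) .nil))))) (.g (nat_lit 0) (.e (nat_lit 291677) (nat_lit 0) .nil) .nil))) 
(.lf (nat_lit 549693) (.g (nat_lit 3176) (.e (nat_lit 409648) (nat_lit 18) (.e (nat_lit 303137) (nat_lit 10) (.e (nat_lit 434275) (nat_lit 39) (.e (nat_lit 663585) (nat_lit 12) (.e (nat_lit 164018) (nat_lit 45) (.e (nat_lit 696344) (nat_lit 8) (.e (nat_lit 172078) (nat_lit 7) .nil))))))) (.g (nat_lit 1) (.e (nat_lit 293864) (nat_lit 0) .nil) .nil))))) (.nd (nat_lit 8) (.nd (nat_lit 9) 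
(.lf (nat_lit 549053) (.g (nat_lit 3484) (.e (nat_lit 409612) (nat_lit 10) (.e (nat_lit 632) (nat_lit 50) (.e (nat_lit 573489) (nat_lit 14) (.e (nat_lit 73755) (nat_lit 8) (.e (nat_lit 557097) (nat_lit 13) (.e (nat_lit 172067) (nat_lit 3) (.e (nat_lit 212736) (nat_lit 7) .nil))))))) (.g (nat_lit 1) (.e (nat_lit 291280) (nat_lit 0) .nil) .nil))) 
(.lf (nat_lit 549565) (.g (nat_lit 1648) (.e (nat_lit 409647) (nat_lit 18) (.e (nat_lit 303117) (nat_lit 2) (.e (nat_lit 196672) (nat_lit 15) (.e (nat_lit 81960) (nat_lit 25) .nil)))) (.g (nat_lit 0) (.e (nat_lit 293486) (nat_lit 0) .nil) .nil)))) (.nd (nat_lit 9) 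
(.lf (nat_lit 549309) (.g (nat_lit 1917) (.e (nat_lit 409644) (nat_lit 18) (.e (nat_lit 303117) (nat_lit 2) (.e (nat_lit 196666) (nat_lit 13) (.e (nat_lit 65599) (nat_lit 9) .nil)))) (.g (nat_lit 0) (.e (nat_lit 291945) (nat_lit 0) .nil) .nil))) 
(.lf (nat_lit 549821) (.g (nat_lit 2369) (.e (nat_lit 409649) (nat_lit 18) (.e (nat_lit 303143) (nat_lit 12) (.e (nat_lit 475199) (nat_lit 40) (.e (nat_lit 704775) (nat_lit 14) .nil)))) (.g (nat_lit 0) (.e (nat_lit 294371) (nat_lit 0) .nil) .nil)))))) (.nd (nat_lit 7) (.nd (nat_lit 8) (.nd (nat_lit 9) 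
(.lf (nat_lit 548989) (.g (nat_lit 4677) (.e (nat_lit 409603) (nat_lit 0) (.e (nat_lit 5626) (nat_lit 312) (.e (nat_lit 2685) (nat_lit 168) (.e (nat_lit 204846) (nat_lit 24) (.e (nat_lit 319531) (nat_lit 16) (.e (nat_lit 286735) (nat_lit 3) (.e (nat_lit 98350) (nat_lit 24) .nil))))))) (.g (nat_lit 1) (.e (nat_lit 291116) (nat_lit 0) .nil) .nil))) 
(.lf (nat_lit 549501) (.g (nat_lit 1289) (.e (nat_lit 409646) (nat_lit 18) (.e (nat_lit 303119) (nat_lit 3) (.e (nat_lit 204877) (nat_lit 31) (.e (nat_lit 376864) (nat_lit 22) .nil)))) (.g (nat_lit 0) (.e (nat_lit 292961) (nat_lit 0) .nil) .nil)))) (.nd (nat_lit 9) 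
(.lf (nat_lit 549245) (.g (nat_lit 1386) (.e (nat_lit 409643) (nat_lit 18) (.e (nat_lit 303117) (nat_lit 2) (.e (nat_lit 196674) (nat_lit 15) (.e (nat_lit 81944) (nat_lit 20) .nil)))) (.g (nat_lit 0) (.e (nat_lit 291779) (nat_lit 0) .nil) .nil))) 
(.lf (nat_lit 549757) (.g (nat_lit 4303) (.e (nat_lit 409649) (nat_lit 18) (.e (nat_lit 303117) (nat_lit 2) (.e (nat_lit 196673) (nat_lit 15) (.e (nat_lit 81953) (nat_lit 22) (.e (nat_lit 90130) (nat_lit 9) (.e (nat_lit 2830) (nat_lit 182) .nil)))))) (.g (nat_lit 1) (.e (nat_lit 294072) (nat_lit 0) .nil) .nil))))) (.nd (nat_lit 8) (.nd (nat_lit 9) 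
(.lf (nat_lit 549117) (.g (nat_lit 3988) (.e (nat_lit 409617) (nat_lit 10) (.e (nat_lit 632) (nat_lit 50) (.e (nat_lit 573489) (nat_lit 14) (.e (nat_lit 73755) (nat_lit 8) (.e (nat_lit 557097) (nat_lit 13) (.e (nat_lit 172066) (nat_lit 3) (.e (nat_lit 212736) (nat_lit 7) .nil))))))) (.g (nat_lit 1) (.e (nat_lit 291462) (nat_lit 0) .nil) .nil))) 
(.lf (nat_lit 549629) (.g (nat_lit 3492) (.e (nat_lit 409648) (nat_lit 18) (.e (nat_lit 303117) (nat_lit 2) (.e (nat_lit 196666) (nat_lit 13) (.e (nat_lit 65617) (nat_lit 10) (.e (nat_lit 344118) (nat_lit 21) .nil))))) (.g (nat_lit 0) (.e (nat_lit 293658) (nat_lit 0) .nil) .nil)))) (.nd (nat_lit 9) 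
(.lf (nat_lit 549373) (.g (nat_lit 1840) (.e (nat_lit 409645) (nat_lit 18) (.e (nat_lit 303116) (nat_lit 2) (.e (nat_lit 196674) (nat_lit 15) (.e (nat_lit 81956) (nat_lit 23) .nil)))) (.g (nat_lit 0) (.e (nat_lit 292080) (nat_lit 0) .nil) .nil))) 
(.lf (nat_lit 549885) (.g (nat_lit 2373) (.e (nat_lit 417536) (nat_lit 18) (.e (nat_lit 303119) (nat_lit 3) (.e (nat_lit 204855) (nat_lit 26) (.e (nat_lit 336110) (nat_lit 9) (.e (nat_lit 336028) (nat_lit 3) .nil))))) (.g (nat_lit 0) (.e (nat_lit 294561) (nat_lit 0) .nil) .nil))))))))))) 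
(.nd (nat_lit 2) (.nd (nat_lit 3) (.nd (nat_lit 4) (.nd (nat_lit 5) (.nd (nat_lit 6) 
(.nd (nat_lit 7) (.nd (nat_lit 8) (.nd (nat_lit 9) 
(.lf (nat_lit 548867) (.g (nat_lit 4043) (.e (nat_lit 294939) (nat_lit 9) (.e (nat_lit 336324) (nat_lit 18) (.e (nat_lit 204831) (nat_lit 18) (.e (nat_lit 57830) (nat_lit 250) .nil)))) (.g (nat_lit 0) (.e (nat_lit 290518) (nat_lit 0) .nil) .nil))) 
(.lf (nat_lit 549379) (.g (nat_lit 2540) (.e (nat_lit 409645) (nat_lit 18) (.e (nat_lit 303117) (nat_lit 2) (.e (nat_lit 196672) (nat_lit 15) (.e (nat_lit 81951) (nat_lit 22) (.e (nat_lit 90134) (nat_lit 9) .nil))))) (.g (nat_lit 0) (.e (nat_lit 292096) (nat_lit 0) .nil) .nil)))) (.nd (nat_lit 9) 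
(.lf (nat_lit 549123) (.g (nat_lit 2177) (.e (nat_lit 409617) (nat_lit 10) (.e (nat_lit 632) (nat_lit 50) (.e (nat_lit 573489) (nat_lit 14) (.e (nat_lit 73755) (nat_lit 8) (.e (nat_lit 557105) (nat_lit 14) .nil))))) (.g (nat_lit 0) (.e (nat_lit 291468) (nat_lit 0) .nil) .nil))) 
(.lf (nat_lit 549635) (.g (nat_lit 2528) (.e (nat_lit 409648) (nat_lit 18) (.e (nat_lit 303117) (nat_lit 2) (.e (nat_lit 196672) (nat_lit 15) (.e (nat_lit 81954) (nat_lit 23) (.e (nat_lit 98350) (nat_lit 24) .nil))))) (.g (nat_lit 0) (.e (nat_lit 293665) (nat_lit 0) .nil) .nil))))) (.nd (nat_lit 8) (.nd (nat_lit 9) 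
(.lf (nat_lit 548995) (.g (nat_lit 1262) (.e (nat_lit 409603) (nat_lit 0) (.e (nat_lit 5270) (nat_lit 298) (.e (nat_lit 1665) (nat_lit 115) (.e (nat_lit 393301) (nat_lit 27) (.e (nat_lit 491552) (nat_lit 9) .nil))))) (.g (nat_lit 0) (.e (nat_lit 291122) (nat_lit 0) .nil) .nil))) 
(.lf (nat_lit 549507) (.g (nat_lit 1351) (.e (nat_lit 409646) (nat_lit 18) (.e (nat_lit 303133) (nat_lit 9) (.e (nat_lit 426412) (nat_lit 15) (.e (nat_lit 2221) (nat_lit 146) .nil)))) (.g (nat_lit 0) (.e (nat_lit 293060) (nat_lit 0) .nil) .nil)))) (.nd (nat_lit 9) 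
(.lf (nat_lit 549251) (.g (nat_lit 2463) (.e (nat_lit 409643) (nat_lit 18) (.e (nat_lit 303118) (nat_lit 3) (.e (nat_lit 204866) (nat_lit 28) (.e (nat_lit 352315) (nat_lit 23) (.e (nat_lit 98350) (nat_lit 24) .nil))))) (.g (nat_lit 1) (.e (nat_lit 291786) (nat_lit 0) .nil) .nil))) 
(.lf (nat_lit 549763) (.g (nat_lit 3800) (.e (nat_lit 409649) (nat_lit 18) (.e (nat_lit 303118) (nat_lit 3) (.e (nat_lit 204855) (nat_lit 26) (.e (nat_lit 336073) (nat_lit 9) (.e (nat_lit 336028) (nat_lit 3) (.e (nat_lit 98350) (nat_lit 24) .nil)))))) (.g (nat_lit 1) (.e (nat_lit 294078) (nat_lit 0) .nil) .nil)))))) (.nd (nat_lit 7) (.nd (nat_lit 8) (.nd (nat_lit 9) 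
(.lf (nat_lit 548931) (.g (nat_lit 1375) (.e (nat_lit 294973) (nat_lit 28) (.e (nat_lit 434180) (nat_lit 0) (.e (nat_lit 1428) (nat_lit 108) (.e (nat_lit 336421) (nat_lit 28) (.e (nat_lit 434192) (nat_lit 13) .nil))))) (.g (nat_lit 0) (.e (nat_lit 290780) (nat_lit 0) .nil) .nil))) 
(.lf (nat_lit 549443) (.g (nat_lit 2018) (.e (nat_lit 409645) (nat_lit 18) (.e (nat_lit 303143) (nat_lit 12) (.e (nat_lit 475199) (nat_lit 40) (.e (nat_lit 704707) (nat_lit 9) .nil)))) (.g (nat_lit 0) (.e (nat_lit 292523) (nat_lit 0) .nil) .nil)))) (.nd (nat_lit 9) 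
(.lf (nat_lit 549187) (.g (nat_lit 1357) (.e (nat_lit 409635) (nat_lit 14) (.e (nat_lit 270373) (nat_lit 16) (.e (nat_lit 286749) (nat_lit 9) (.e (nat_lit 335997) (nat_lit 1) (.e (nat_lit 57857) (nat_lit 254) (.e (nat_lit 163908) (nat_lit 12) (.e (nat_lit 426170) (nat_lit 7) .nil))))))) (.g (nat_lit 1) (.e (nat_lit 291703) (nat_lit 0) .nil) .nil))) 
(.lf (nat_lit 549699) (.g (nat_lit 949) (.e (nat_lit 409648) (nat_lit 18) (.e (nat_lit 303143) (nat_lit 12) (.e (nat_lit 475216) (nat_lit 44) (.e (nat_lit 737318) (nat_lit 15) .nil)))) (.g (nat_lit 0) (.e (nat_lit 293905) (nat_lit 0) .nil) .nil))))) (.nd (nat_lit 8) (.nd (nat_lit 9) 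
(.lf (nat_lit 549059) (.g (nat_lit 2193) (.e (nat_lit 409612) (nat_lit 10) (.e (nat_lit 932) (nat_lit 76) (.e (nat_lit 786480) (nat_lit 29) (.e (nat_lit 352269) (nat_lit 7) (.e (nat_lit 245776) (nat_lit 4) .nil))))) (.g (nat_lit 0) (.e (nat_lit 291325) (nat_lit 0) .nil) .nil))) 
(.lf (nat_lit 549571) (.g (nat_lit 3958) (.e (nat_lit 409647) (nat_lit 18) (.e (nat_lit 303117) (nat_lit 2) (.e (nat_lit 196674) (nat_lit 15) (.e (nat_lit 81953) (nat_lit 22) (.e (nat_lit 90130) (nat_lit 9) (.e (nat_lit 2830) (nat_lit 182) .nil)))))) (.g (nat_lit 1) (.e (nat_lit 293492) (nat_lit 0) .nil) .nil)))) (.nd (nat_lit 9) 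
(.lf (nat_lit 549315) (.g (nat_lit 3395) (.e (nat_lit 409644) (nat_lit 18) (.e (nat_lit 303117) (nat_lit 2) (.e (nat_lit 196666) (nat_lit 13) (.e (nat_lit 65617) (nat_lit 10) (.e (nat_lit 344117) (nat_lit 21) .nil))))) (.g (nat_lit 0) (.e (nat_lit 291951) (nat_lit 0) .nil) .nil))) 
(.lf (nat_lit 549827) (.g (nat_lit 2277) (.e (nat_lit 409649) (nat_lit 18) (.e (nat_lit 303143) (nat_lit 12) (.e (nat_lit 475199) (nat_lit 40) (.e (nat_lit 704800) (nat_lit 14) .nil)))) (.g (nat_lit 0) (.e (nat_lit 294377) (nat_lit 0) .nil) .nil))))))) (.nd (nat_lit 6) (.nd (nat_lit 7) (.nd (nat_lit 8) (.nd (nat_lit 9) 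
(.lf (nat_lit 548899) (.g (nat_lit 2772) (.e (nat_lit 294966) (nat_lit 15) (.e (nat_lit 3307) (nat_lit 202) (.e (nat_lit 573485) (nat_lit 13) (.e (nat_lit 65604) (nat_lit 9) (.e (nat_lit 336028) (nat_lit 3) (.e (nat_lit 98325) (nat_lit 17) (.e (nat_lit 7016) (nat_lit 377) (.e (nat_lit 2789) (nat_lit 179) .nil)))))))) (.g (nat_lit 1) (.e (nat_lit 290628) (nat_lit 0) .nil) .nil))) 
(.lf (nat_lit 549411) (.g (nat_lit 3344) (.e (nat_lit 409645) (nat_lit 18) (.e (nat_lit 303119) (nat_lit 3) (.e (nat_lit 204861) (nat_lit 26) (.e (nat_lit 336186) (nat_lit 11) (.e (nat_lit 368676) (nat_lit 21) (.e (nat_lit 524032) (nat_lit 7) .nil)))))) (.g (nat_lit 1) (.e (nat_lit 292180) (nat_lit 0) .nil) .nil)))) (.nd (nat_lit 9) 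
(.lf (nat_lit 549155) (.g (nat_lit 2003) (.e (nat_lit 409623) (nat_lit 10) (.e (nat_lit 5664) (nat_lit 312) (.e (nat_lit 2661) (nat_lit 167) (.e (nat_lit 196666) (nat_lit 13) (.e (nat_lit 65617) (nat_lit 10) (.e (nat_lit 344120) (nat_lit 21) (.e (nat_lit 516139) (nat_lit 7) .nil))))))) (.g (nat_lit 1) (.e (nat_lit 291579) (nat_lit 0) .nil) .nil))) 
(.lf (nat_lit 549667) (.g (nat_lit 2798) (.e (nat_lit 409648) (nat_lit 18) (.e (nat_lit 303119) (nat_lit 3) (.e (nat_lit 204866) (nat_lit 28) (.e (nat_lit 352303) (nat_lit 20) (.e (nat_lit 1788) (nat_lit 119) .nil))))) (.g (nat_lit 0) (.e (nat_lit 293712) (nat_lit 0) .nil) .nil))))) (.nd (nat_lit 8) (.nd (nat_lit 9) 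
(.lf (nat_lit 549027) (.g (nat_lit 711) (.e (nat_lit 417536) (nat_lit 6) (.e (nat_lit 286761) (nat_lit 13) (.e (nat_lit 393265) (nat_lit 22) (.e (nat_lit 417804) (nat_lit 1) .nil)))) (.g (nat_lit 0) (.e (nat_lit 291182) (nat_lit 0) .nil) .nil))) 
(.lf (nat_lit 549539) (.g (nat_lit 2372) (.e (nat_lit 409646) (nat_lit 18) (.e (nat_lit 303143) (nat_lit 12) (.e (nat_lit 475199) (nat_lit 40) (.e (nat_lit 704796) (nat_lit 14) .nil)))) (.g (nat_lit 0) (.e (nat_lit 293278) (nat_lit 0) .nil) .nil)))) (.nd (nat_lit 9) 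
(.lf (nat_lit 549283) (.g (nat_lit 1681) (.e (nat_lit 409643) (nat_lit 18) (.e (nat_lit 303133) (nat_lit 9) (.e (nat_lit 426412) (nat_lit 15) (.e (nat_lit 2221) (nat_lit 146) .nil)))) (.g (nat_lit 0) (.e (nat_lit 291828) (nat_lit 0) .nil) .nil))) 
(.lf (nat_lit 549795) (.g (nat_lit 3365) (.e (nat_lit 409649) (nat_lit 18) (.e (nat_lit 303140) (nat_lit 10) (.e (nat_lit 434275) (nat_lit 39) (.e (nat_lit 663574) (nat_lit 9) (.e (nat_lit 2464) (nat_lit 157) (.e (nat_lit 3469) (nat_lit 217) (.e (nat_lit 696344) (nat_lit 8) (.e (nat_lit 172078) (nat_lit 7) .nil)))))))) (.g (nat_lit 1) (.e (nat_lit 294253) (nat_lit 0) .nil) .nil)))))) 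
(.nd (nat_lit 7) (.nd (nat_lit 8) (.nd (nat_lit 9) 
(.lf (nat_lit 548963) (.g (nat_lit 2656) (.e (nat_lit 409602) (nat_lit 0) (.e (nat_lit 5270) (nat_lit 298) (.e (nat_lit 1239) (nat_lit 91) (.e (nat_lit 90170) (nat_lit 13) (.e (nat_lit 172113) (nat_lit 10) (.e (nat_lit 434245) (nat_lit 28) (.e (nat_lit 573451) (nat_lit 9) (.e (nat_lit 7936) (nat_lit 30) .nil)))))))) (.g (nat_lit 1) (.e (nat_lit 291084) (nat_lit 0) .nil) .nil))) 
(.lf (nat_lit 549475) (.g (nat_lit 3191) (.e (nat_lit 409646) (nat_lit 18) (.e (nat_lit 303117) (nat_lit 2) (.e (nat_lit 196666) (nat_lit 13) (.e (nat_lit 65617) (nat_lit 10) (.e (nat_lit 344116) (nat_lit 21) .nil))))) (.g (nat_lit 0) (.e (nat_lit 292814) (nat_lit 0) .nil) .nil)))) (.nd (nat_lit 9) 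
(.lf (nat_lit 549219) (.g (nat_lit 1401) (.e (nat_lit 409639) (nat_lit 15) (.e (nat_lit 278567) (nat_lit 16) (.e (nat_lit 286753) (nat_lit 10) (.e (nat_lit 344157) (nat_lit 36) (.e (nat_lit 638999) (nat_lit 8) (.e (nat_lit 172082) (nat_lit 7) .nil)))))) (.g (nat_lit 1) (.e (nat_lit 291753) (nat_lit 0) .nil) .nil))) 
(.lf (nat_lit 549731) (.g (nat_lit 1366) (.e (nat_lit 409649) (nat_lit 18) (.e (nat_lit 303116) (nat_lit 2) (.e (nat_lit 196668) (nat_lit 14) (.e (nat_lit 81664) (nat_lit 43) .nil)))) (.g (nat_lit 0) (.e (nat_lit 294041) (nat_lit 0) .nil) .nil))))) (.nd (nat_lit 8) (.nd (nat_lit 9) 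
(.lf (nat_lit 549091) (.g (nat_lit 3127) (.e (nat_lit 409616) (nat_lit 10) (.e (nat_lit 632) (nat_lit 50) (.e (nat_lit 573489) (nat_lit 14) (.e (nat_lit 73755) (nat_lit 8) (.e (nat_lit 557105) (nat_lit 14) (.e (nat_lit 180252) (nat_lit 10) (.e (nat_lit 581376) (nat_lit 0) (.e (nat_lit 2827) (nat_lit 182) .nil)))))))) (.g (nat_lit 1) (.e (nat_lit 291382) (nat_lit 0) .nil) .nil))) 
(.lf (nat_lit 549603) (.g (nat_lit 2597) (.e (nat_lit 409647) (nat_lit 18) (.e (nat_lit 303143) (nat_lit 12) (.e (nat_lit 475199) (nat_lit 40) (.e (nat_lit 704832) (nat_lit 14) .nil)))) (.g (nat_lit 0) (.e (nat_lit 293549) (nat_lit 0) .nil) .nil)))) (.nd (nat_lit 9) 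
(.lf (nat_lit 549347) (.g (nat_lit 1762) (.e (nat_lit 409644) (nat_lit 18) (.e (nat_lit 303119) (nat_lit 3) (.e (nat_lit 204866) (nat_lit 28) (.e (nat_lit 360192) (nat_lit 23) .nil)))) (.g (nat_lit 0) (.e (nat_lit 291987) (nat_lit 0) .nil) .nil))) 
(.lf (nat_lit 549859) (.g (nat_lit 997) (.e (nat_lit 417536) (nat_lit 18) (.e (nat_lit 303117) (nat_lit 2) (.e (nat_lit 196669) (nat_lit 14) (.e (nat_lit 81664) (nat_lit 40) .nil)))) (.g (nat_lit 0) (.e (nat_lit 294522) (nat_lit 0) .nil) .nil)))))))) (.nd (nat_lit 5) (.nd (nat_lit 6) (.nd (nat_lit 7) (.nd (nat_lit 8) (.nd (nat_lit 9) 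
(.lf (nat_lit 548883) (.g (nat_lit 1727) (.e (nat_lit 294954) (nat_lit 12) (.e (nat_lit 385073) (nat_lit 31) (.e (nat_lit 573493) (nat_lit 15) (.e (nat_lit 81953) (nat_lit 22) (.e (nat_lit 98048) (nat_lit 18) .nil))))) (.g (nat_lit 0) (.e (nat_lit 290565) (nat_lit 0) .nil) .nil))) 
(.lf (nat_lit 549395) (.g (nat_lit 3445) (.e (nat_lit 409645) (nat_lit 18) (.e (nat_lit 303117) (nat_lit 2) (.e (nat_lit 196674) (nat_lit 15) (.e (nat_lit 81956) (nat_lit 23) (.e (nat_lit 106240) (nat_lit 24) .nil))))) (.g (nat_lit 1) (.e (nat_lit 292129) (nat_lit 0) .nil) .nil)))) (.nd (nat_lit 9) 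
(.lf (nat_lit 549139) (.g (nat_lit 2040) (.e (nat_lit 409617) (nat_lit 10) (.e (nat_lit 632) (nat_lit 50) (.e (nat_lit 573491) (nat_lit 15) (.e (nat_lit 81948) (nat_lit 21) (.e (nat_lit 57647) (nat_lit 146) .nil))))) (.g (nat_lit 0) (.e (nat_lit 291489) (nat_lit 0) .nil) .nil))) 
(.lf (nat_lit 549651) (.g (nat_lit 1583) (.e (nat_lit 409648) (nat_lit 18) (.e (nat_lit 303119) (nat_lit 3) (.e (nat_lit 204853) (nat_lit 26) (.e (nat_lit 336160) (nat_lit 10) .nil)))) (.g (nat_lit 0) (.e (nat_lit 293692) (nat_lit 0) .nil) .nil))))) (.nd (nat_lit 8) (.nd (nat_lit 9) 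
(.lf (nat_lit 549011) (.g (nat_lit 2347) (.e (nat_lit 409604) (nat_lit 0) (.e (nat_lit 5270) (nat_lit 298) (.e (nat_lit 1239) (nat_lit 91) (.e (nat_lit 90170) (nat_lit 13) (.e (nat_lit 172113) (nat_lit 10) (.e (nat_lit 434245) (nat_lit 28) (.e (nat_lit 573449) (nat_lit 9) (.e (nat_lit 362) (nat_lit 30) .nil)))))))) (.g (nat_lit 1) (.e (nat_lit 291154) (nat_lit 0) .nil) .nil))) 
(.lf (nat_lit 549523) (.g (nat_lit 2380) (.e (nat_lit 409646) (nat_lit 18) (.e (nat_lit 303143) (nat_lit 12) (.e (nat_lit 475199) (nat_lit 40) (.e (nat_lit 704609) (nat_lit 9) .nil)))) (.g (nat_lit 0) (.e (nat_lit 293257) (nat_lit 0) .nil) .nil)))) (.nd (nat_lit 9) 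
(.lf (nat_lit 549267) (.g (nat_lit 2855) (.e (nat_lit 409643) (nat_lit 18) (.e (nat_lit 303119) (nat_lit 3) (.e (nat_lit 204855) (nat_lit 26) (.e (nat_lit 336176) (nat_lit 10) (.e (nat_lit 344117) (nat_lit 21) .nil))))) (.g (nat_lit 0) (.e (nat_lit 291803) (nat_lit 0) .nil) .nil))) 
(.lf (nat_lit 549779) (.g (nat_lit 660) (.e (nat_lit 409649) (nat_lit 18) (.e (nat_lit 303119) (nat_lit 3) (.e (nat_lit 204860) (nat_lit 26) .nil))) (.g (nat_lit 0) (.e (nat_lit 294110) (nat_lit 0) .nil) .nil)))))) (.nd (nat_lit 7) (.nd (nat_lit 8) (.nd (nat_lit 9) 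
(.lf (nat_lit 548947) (.g (nat_lit 2004) (.e (nat_lit 294974) (nat_lit 29) (.e (nat_lit 442395) (nat_lit 20) (.e (nat_lit 3402) (nat_lit 211) (.e (nat_lit 647183) (nat_lit 4) (.e (nat_lit 172079) (nat_lit 7) (.e (nat_lit 409642) (nat_lit 17) .nil)))))) (.g (nat_lit 1) (.e (nat_lit 290833) (nat_lit 0) .nil) .nil))) 
(.lf (nat_lit 549459) (.g (nat_lit 7601) (.e (nat_lit 409646) (nat_lit 18) (.e (nat_lit 303112) (nat_lit 0) (.e (nat_lit 3252) (nat_lit 197) (.e (nat_lit 532535) (nat_lit 9) (.e (nat_lit 336099) (nat_lit 9) (.e (nat_lit 336013) (nat_lit 2) (.e (nat_lit 90134) (nat_lit 9) (.e (nat_lit 2828) (nat_lit 182) .nil)))))))) (.g (nat_lit 1) (.e (nat_lit 292769) (nat_lit 0) .nil) .nil)))) (.nd (nat_lit 9) 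
(.lf (nat_lit 549203) (.g (nat_lit 1280) (.e (nat_lit 409638) (nat_lit 15) (.e (nat_lit 278566) (nat_lit 16) (.e (nat_lit 286755) (nat_lit 10) (.e (nat_lit 344157) (nat_lit 36) (.e (nat_lit 638999) (nat_lit 8) (.e (nat_lit 172079) (nat_lit 7) .nil)))))) (.g (nat_lit 1) (.e (nat_lit 291725) (nat_lit 0) .nil) .nil))) 
(.lf (nat_lit 549715) (.g (nat_lit 1725) (.e (nat_lit 409649) (nat_lit 18) (.e (nat_lit 303111) (nat_lit 0) (.e (nat_lit 3238) (nat_lit 197) (.e (nat_lit 532560) (nat_lit 14) (.e (nat_lit 376869) (nat_lit 23) .nil))))) (.g (nat_lit 0) (.e (nat_lit 294009) (nat_lit 0) .nil) .nil))))) (.nd (nat_lit 8) (.nd (nat_lit 9) 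
(.lf (nat_lit 549075) (.g (nat_lit 2448) (.e (nat_lit 409616) (nat_lit 10) (.e (nat_lit 632) (nat_lit 50) (.e (nat_lit 573482) (nat_lit 13) (.e (nat_lit 65619) (nat_lit 10) (.e (nat_lit 344183) (nat_lit 49) .nil))))) (.g (nat_lit 0) (.e (nat_lit 291361) (nat_lit 0) .nil) .nil))) 
(.lf (nat_lit 549587) (.g (nat_lit 2553) (.e (nat_lit 409647) (nat_lit 18) (.e (nat_lit 303119) (nat_lit 3) (.e (nat_lit 204869) (nat_lit 29) (.e (nat_lit 360465) (nat_lit 3) .nil)))) (.g (nat_lit 0) (.e (nat_lit 293530) (nat_lit 0) .nil) .nil)))) (.nd (nat_lit 9) 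
(.lf (nat_lit 549331) (.g (nat_lit 2427) (.e (nat_lit 409644) (nat_lit 18) (.e (nat_lit 303118) (nat_lit 3) (.e (nat_lit 204868) (nat_lit 29) (.e (nat_lit 360466) (nat_lit 3) (.e (nat_lit 516139) (nat_lit 7) .nil))))) (.g (nat_lit 0) (.e (nat_lit 291967) (nat_lit 0) .nil) .nil))) 
(.lf (nat_lit 549843) (.g (nat_lit 459) (.e (nat_lit 417536) (nat_lit 18) (.e (nat_lit 303112) (nat_lit 0) (.e (nat_lit 3252) (nat_lit 197) .nil))) (.g (nat_lit 0) (.e (nat_lit 294505) (nat_lit 0) .nil) .nil))))))) (.nd (nat_lit 6) (.nd (nat_lit 7) (.nd (nat_lit 8) (.nd (nat_lit 9) 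
(.lf (nat_lit 548915) (.g (nat_lit 1489) (.e (nat_lit 294969) (nat_lit 27) (.e (nat_lit 426340) (nat_lit 14) (.e (nat_lit 491550) (nat_lit 9) (.e (nat_lit 336421) (nat_lit 28) (.e (nat_lit 434188) (nat_lit 13) (.e (nat_lit 2789) (nat_lit 179) .nil)))))) (.g (nat_lit 1) (.e (nat_lit 290735) (nat_lit 0) .nil) .nil))) 
(.lf (nat_lit 549427) (.g (nat_lit 1686) (.e (nat_lit 409645) (nat_lit 18) (.e (nat_lit 303135) (nat_lit 10) (.e (nat_lit 434275) (nat_lit 39) (.e (nat_lit 663580) (nat_lit 9) (.e (nat_lit 2478) (nat_lit 157) .nil))))) (.g (nat_lit 0) (.e (nat_lit 292433) (nat_lit 0) .nil) .nil)))) (.nd (nat_lit 9) 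
(.lf (nat_lit 549171) (.g (nat_lit 1036) (.e (nat_lit 409623) (nat_lit 10) (.e (nat_lit 5293) (nat_lit 298) (.e (nat_lit 1232) (nat_lit 91) (.e (nat_lit 90133) (nat_lit 9) .nil)))) (.g (nat_lit 0) (.e (nat_lit 291628) (nat_lit 0) .nil) .nil))) 
(.lf (nat_lit 549683) (.g (nat_lit 949) (.e (nat_lit 409648) (nat_lit 18) (.e (nat_lit 303137) (nat_lit 10) (.e (nat_lit 434275) (nat_lit 39) (.e (nat_lit 663580) (nat_lit 9) .nil)))) (.g (nat_lit 0) (.e (nat_lit 293793) (nat_lit 0) .nil) .nil))))) (.nd (nat_lit 8) (.nd (nat_lit 9) 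
(.lf (nat_lit 549043) (.g (nat_lit 341) (.e (nat_lit 409611) (nat_lit 10) (.e (nat_lit 632) (nat_lit 50) (.e (nat_lit 573491) (nat_lit 15) .nil))) (.g (nat_lit 0) (.e (nat_lit 291216) (nat_lit 0) .nil) .nil))) 
(.lf (nat_lit 549555) (.g (nat_lit 1891) (.e (nat_lit 409647) (nat_lit 18) (.e (nat_lit 303117) (nat_lit 2) (.e (nat_lit 196666) (nat_lit 13) (.e (nat_lit 65596) (nat_lit 9) .nil)))) (.g (nat_lit 0) (.e (nat_lit 293476) (nat_lit 0) .nil) .nil)))) (.nd (nat_lit 9) 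
(.lf (nat_lit 549299) (.g (nat_lit 2433) (.e (nat_lit 409643) (nat_lit 18) (.e (nat_lit 303143) (nat_lit 12) (.e (nat_lit 475199) (nat_lit 40) (.e (nat_lit 704831) (nat_lit 14) .nil)))) (.g (nat_lit 0) (.e (nat_lit 291845) (nat_lit 0) .nil) .nil))) 
(.lf (nat_lit 549811) (.g (nat_lit 3567) (.e (nat_lit 409649) (nat_lit 18) (.e (nat_lit 303140) (nat_lit 10) (.e (nat_lit 434275) (nat_lit 39) (.e (nat_lit 663580) (nat_lit 9) (.e (nat_lit 2478) (nat_lit 157) (.e (nat_lit 3464) (nat_lit 217) (.e (nat_lit 696344) (nat_lit 8) (.e (nat_lit 172081) (nat_lit 7) .nil)))))))) (.g (nat_lit 1) (.e (nat_lit 294285) (nat_lit 0) .nil) .nil)))))) 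
(.nd (nat_lit 7) (.nd (nat_lit 8) (.nd (nat_lit 9) 
(.lf (nat_lit 548979) (.g (nat_lit 1704) (.e (nat_lit 409602) (nat_lit 0) (.e (nat_lit 5293) (nat_lit 298) (.e (nat_lit 1656) (nat_lit 115) (.e (nat_lit 393276) (nat_lit 23) .nil)))) (.g (nat_lit 0) (.e (nat_lit 291104) (nat_lit 0) .nil) .nil))) 
(.lf (nat_lit 549491) (.g (nat_lit 1404) (.e (nat_lit 409646) (nat_lit 18) (.e (nat_lit 303119) (nat_lit 3) (.e (nat_lit 204852) (nat_lit 26) (.e (nat_lit 336130) (nat_lit 9) .nil)))) (.g (nat_lit 0) (.e (nat_lit 292857) (nat_lit 0) .nil) .nil)))) (.nd (nat_lit 9) 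
(.lf (nat_lit 549235) (.g (nat_lit 3126) (.e (nat_lit 409643) (nat_lit 18) (.e (nat_lit 303117) (nat_lit 2) (.e (nat_lit 196666) (nat_lit 13) (.e (nat_lit 65611) (nat_lit 10) .nil)))) (.g (nat_lit 0) (.e (nat_lit 291769) (nat_lit 0) .nil) .nil))) 
(.lf (nat_lit 549747) (.g (nat_lit 1899) (.e (nat_lit 409649) (nat_lit 18) (.e (nat_lit 303117) (nat_lit 2) (.e (nat_lit 196666) (nat_lit 13) (.e (nat_lit 65617) (nat_lit 10) .nil)))) (.g (nat_lit 0) (.e (nat_lit 294061) (nat_lit 0) .nil) .nil))))) (.nd (nat_lit 8) (.nd (nat_lit 9) 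
(.lf (nat_lit 549107) (.g (nat_lit 2046) (.e (nat_lit 409617) (nat_lit 10) (.e (nat_lit 632) (nat_lit 50) (.e (nat_lit 573482) (nat_lit 13) (.e (nat_lit 65619) (nat_lit 10) (.e (nat_lit 344183) (nat_lit 49) .nil))))) (.g (nat_lit 0) (.e (nat_lit 291439) (nat_lit 0) .nil) .nil))) 
(.lf (nat_lit 549619) (.g (nat_lit 2755) (.e (nat_lit 409648) (nat_lit 18) (.e (nat_lit 303117) (nat_lit 2) (.e (nat_lit 196666) (nat_lit 13) (.e (nat_lit 65592) (nat_lit 9) (.e (nat_lit 336022) (nat_lit 3) .nil))))) (.g (nat_lit 0) (.e (nat_lit 293644) (nat_lit 0) .nil) .nil)))) (.nd (nat_lit 9) 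
(.lf (nat_lit 549363) (.g (nat_lit 1168) (.e (nat_lit 409644) (nat_lit 18) (.e (nat_lit 303143) (nat_lit 12) (.e (nat_lit 475212) (nat_lit 42) (.e (nat_lit 720955) (nat_lit 25) .nil)))) (.g (nat_lit 0) (.e (nat_lit 292016) (nat_lit 0) .nil) .nil))) 
(.lf (nat_lit 549875) (.g (nat_lit 1075) (.e (nat_lit 417536) (nat_lit 18) (.e (nat_lit 303119) (nat_lit 3) (.e (nat_lit 204819) (nat_lit 17) (.e (nat_lit 7936) (nat_lit 347) .nil)))) (.g (nat_lit 0) (.e (nat_lit 294547) (nat_lit 0) .nil) .nil))))))))) (.nd (nat_lit 4) (.nd (nat_lit 5) (.nd (nat_lit 6) (.nd (nat_lit 7) (.nd (nat_lit 8) (.nd (nat_lit 9) 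
(.lf (nat_lit 548875) (.g (nat_lit 1420) (.e (nat_lit 294941) (nat_lit 9) (.e (nat_lit 336324) (nat_lit 18) (.e (nat_lit 204837) (nat_lit 20) (.e (nat_lit 122624) (nat_lit 12) .nil)))) (.g (nat_lit 0) (.e (nat_lit 290540) (nat_lit 0) .nil) .nil))) 
(.lf (nat_lit 549387) (.g (nat_lit 3805) (.e (nat_lit 409645) (nat_lit 18) (.e (nat_lit 303117) (nat_lit 2) (.e (nat_lit 196673) (nat_lit 15) (.e (nat_lit 81956) (nat_lit 23) (.e (nat_lit 98350) (nat_lit 24) .nil))))) (.g (nat_lit 1) (.e (nat_lit 292112) (nat_lit 0) .nil) .nil)))) (.nd (nat_lit 9) 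
(.lf (nat_lit 549131) (.g (nat_lit 4262) (.e (nat_lit 409617) (nat_lit 10) (.e (nat_lit 632) (nat_lit 50) (.e (nat_lit 573489) (nat_lit 14) (.e (nat_lit 73755) (nat_lit 8) (.e (nat_lit 557105) (nat_lit 14) (.e (nat_lit 180252) (nat_lit 10) (.e (nat_lit 581376) (nat_lit 0) (.e (nat_lit 2827) (nat_lit 182) .nil)))))))) (.g (nat_lit 1) (.e (nat_lit 291476) (nat_lit 0) .nil) .nil))) 
(.lf (nat_lit 549643) (.g (nat_lit 2198) (.e (nat_lit 409648) (nat_lit 18) (.e (nat_lit 303118) (nat_lit 3) (.e (nat_lit 204855) (nat_lit 26) (.e (nat_lit 336176) (nat_lit 10) (.e (nat_lit 344118) (nat_lit 21) .nil))))) (.g (nat_lit 0) (.e (nat_lit 293680) (nat_lit 0) .nil) .nil))))) (.nd (nat_lit 8) (.nd (nat_lit 9) 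
(.lf (nat_lit 549003) (.g (nat_lit 4098) (.e (nat_lit 409603) (nat_lit 0) (.e (nat_lit 5293) (nat_lit 298) (.e (nat_lit 1250) (nat_lit 92) (.e (nat_lit 98373) (nat_lit 29) (.e (nat_lit 450588) (nat_lit 10) (.e (nat_lit 573457) (nat_lit 9) (.e (nat_lit 359) (nat_lit 30) .nil))))))) (.g (nat_lit 1) (.e (nat_lit 291136) (nat_lit 0) .nil) .nil))) 
(.lf (nat_lit 549515) (.g (nat_lit 3087) (.e (nat_lit 409646) (nat_lit 18) (.e (nat_lit 303140) (nat_lit 10) (.e (nat_lit 434275) (nat_lit 39) (.e (nat_lit 663574) (nat_lit 9) (.e (nat_lit 2470) (nat_lit 157) (.e (nat_lit 3469) (nat_lit 217) (.e (nat_lit 696344) (nat_lit 8) (.e (nat_lit 172082) (nat_lit 7) .nil)))))))) (.g (nat_lit 1) (.e (nat_lit 293158) (nat_lit 0) .nil) .nil)))) 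
(.nd (nat_lit 9) 
(.lf (nat_lit 549259) (.g (nat_lit 1719) (.e (nat_lit 409643) (nat_lit 18) (.e (nat_lit 303119) (nat_lit 3) (.e (nat_lit 204852) (nat_lit 26) (.e (nat_lit 336129) (nat_lit 9) .nil)))) (.g (nat_lit 0) (.e (nat_lit 291794) (nat_lit 0) .nil) .nil))) 
(.lf (nat_lit 549771) (.g (nat_lit 726) (.e (nat_lit 409649) (nat_lit 18) (.e (nat_lit 303119) (nat_lit 3) (.e (nat_lit 204815) (nat_lit 17) .nil))) (.g (nat_lit 0) (.e (nat_lit 294099) (nat_lit 0) .nil) .nil)))))) (.nd (nat_lit 7) (.nd (nat_lit 8) (.nd (nat_lit 9) 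
(.lf (nat_lit 548939) (.g (nat_lit 1893) (.e (nat_lit 294973) (nat_lit 28) (.e (nat_lit 434181) (nat_lit 0) (.e (nat_lit 1428) (nat_lit 108) (.e (nat_lit 336421) (nat_lit 28) (.e (nat_lit 434189) (nat_lit 13) (.e (nat_lit 2787) (nat_lit 179) .nil)))))) (.g (nat_lit 1) (.e (nat_lit 290789) (nat_lit 0) .nil) .nil))) 
(.lf (nat_lit 549451) (.g (nat_lit 2497) (.e (nat_lit 409645) (nat_lit 18) (.e (nat_lit 303143) (nat_lit 12) (.e (nat_lit 475199) (nat_lit 40) (.e (nat_lit 704815) (nat_lit 14) .nil)))) (.g (nat_lit 0) (.e (nat_lit 292536) (nat_lit 0) .nil) .nil)))) (.nd (nat_lit 9) 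
(.lf (nat_lit 549195) (.g (nat_lit 1615) (.e (nat_lit 409638) (nat_lit 15) (.e (nat_lit 278566) (nat_lit 16) (.e (nat_lit 286753) (nat_lit 10) (.e (nat_lit 344157) (nat_lit 36) (.e (nat_lit 638999) (nat_lit 8) (.e (nat_lit 172079) (nat_lit 7) .nil)))))) (.g (nat_lit 1) (.e (nat_lit 291717) (nat_lit 0) .nil) .nil))) 
(.lf (nat_lit 549707) (.g (nat_lit 164) (.e (nat_lit 409649) (nat_lit 18) (.e (nat_lit 303106) (nat_lit 0) (.e (nat_lit 3259) (nat_lit 198) .nil))) (.g (nat_lit 0) (.e (nat_lit 293996) (nat_lit 0) .nil) .nil))))) (.nd (nat_lit 8) (.nd (nat_lit 9) 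
(.lf (nat_lit 549067) (.g (nat_lit 2454) (.e (nat_lit 409615) (nat_lit 10) (.e (nat_lit 632) (nat_lit 50) (.e (nat_lit 573489) (nat_lit 14) (.e (nat_lit 73755) (nat_lit 8) (.e (nat_lit 557104) (nat_lit 14) .nil))))) (.g (nat_lit 0) (.e (nat_lit 291338) (nat_lit 0) .nil) .nil))) 
(.lf (nat_lit 549579) (.g (nat_lit 3462) (.e (nat_lit 409647) (nat_lit 18) (.e (nat_lit 303118) (nat_lit 3) (.e (nat_lit 204866) (nat_lit 28) (.e (nat_lit 352315) (nat_lit 23) (.e (nat_lit 98349) (nat_lit 24) .nil))))) (.g (nat_lit 1) (.e (nat_lit 293507) (nat_lit 0) .nil) .nil)))) (.nd (nat_lit 9) 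
(.lf (nat_lit 549323) (.g (nat_lit 1581) (.e (nat_lit 409644) (nat_lit 18) (.e (nat_lit 303117) (nat_lit 2) (.e (nat_lit 196674) (nat_lit 15) (.e (nat_lit 81952) (nat_lit 22) .nil)))) (.g (nat_lit 0) (.e (nat_lit 291959) (nat_lit 0) .nil) .nil))) 
(.lf (nat_lit 549835) (.g (nat_lit 3051) (.e (nat_lit 409649) (nat_lit 18) (.e (nat_lit 303143) (nat_lit 12) (.e (nat_lit 475220) (nat_lit 44) (.e (nat_lit 737318) (nat_lit 15) (.e (nat_lit 49189) (nat_lit 11) (.e (nat_lit 16425) (nat_lit 7) .nil)))))) (.g (nat_lit 1) (.e (nat_lit 294386) (nat_lit 0) .nil) .nil))))))) (.nd (nat_lit 6) (.nd (nat_lit 7) (.nd (nat_lit 8) (.nd (nat_lit 9) 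
(.lf (nat_lit 548907) (.g (nat_lit 1524) (.e (nat_lit 294969) (nat_lit 27) (.e (nat_lit 426340) (nat_lit 14) (.e (nat_lit 491549) (nat_lit 9) (.e (nat_lit 336421) (nat_lit 28) (.e (nat_lit 434188) (nat_lit 13) .nil))))) (.g (nat_lit 0) (.e (nat_lit 290727) (nat_lit 0) .nil) .nil))) 
(.lf (nat_lit 549419) (.g (nat_lit 1688) (.e (nat_lit 409645) (nat_lit 18) (.e (nat_lit 303119) (nat_lit 3) (.e (nat_lit 204877) (nat_lit 31) (.e (nat_lit 376853) (nat_lit 20) .nil)))) (.g (nat_lit 0) (.e (nat_lit 292292) (nat_lit 0) .nil) .nil)))) (.nd (nat_lit 9) 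
(.lf (nat_lit 549163) (.g (nat_lit 1800) (.e (nat_lit 409623) (nat_lit 10) (.e (nat_lit 5664) (nat_lit 312) (.e (nat_lit 2679) (nat_lit 168) (.e (nat_lit 204868) (nat_lit 29) (.e (nat_lit 360466) (nat_lit 3) (.e (nat_lit 524032) (nat_lit 7) .nil)))))) (.g (nat_lit 1) (.e (nat_lit 291591) (nat_lit 0) .nil) .nil))) 
(.lf (nat_lit 549675) (.g (nat_lit 1917) (.e (nat_lit 409648) (nat_lit 18) (.e (nat_lit 303133) (nat_lit 9) (.e (nat_lit 426412) (nat_lit 15) (.e (nat_lit 2221) (nat_lit 146) .nil)))) (.g (nat_lit 0) (.e (nat_lit 293738) (nat_lit 0) .nil) .nil))))) (.nd (nat_lit 8) (.nd (nat_lit 9) 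
(.lf (nat_lit 549035) (.g (nat_lit 1349) (.e (nat_lit 409609) (nat_lit 10) (.e (nat_lit 632) (nat_lit 50) (.e (nat_lit 573491) (nat_lit 15) (.e (nat_lit 81943) (nat_lit 20) .nil)))) (.g (nat_lit 0) (.e (nat_lit 291192) (nat_lit 0) .nil) .nil))) 
(.lf (nat_lit 549547) (.g (nat_lit 1563) (.e (nat_lit 409646) (nat_lit 18) (.e (nat_lit 303143) (nat_lit 12) (.e (nat_lit 475212) (nat_lit 42) (.e (nat_lit 720920) (nat_lit 20) .nil)))) (.g (nat_lit 0) (.e (nat_lit 293293) (nat_lit 0) .nil) .nil)))) (.nd (nat_lit 9) 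
(.lf (nat_lit 549291) (.g (nat_lit 2426) (.e (nat_lit 409643) (nat_lit 18) (.e (nat_lit 303143) (nat_lit 12) (.e (nat_lit 475199) (nat_lit 40) (.e (nat_lit 704795) (nat_lit 14) .nil)))) (.g (nat_lit 0) (.e (nat_lit 291837) (nat_lit 0) .nil) .nil))) 
(.lf (nat_lit 549803) (.g (nat_lit 3001) (.e (nat_lit 409649) (nat_lit 18) (.e (nat_lit 303140) (nat_lit 10) (.e (nat_lit 434275) (nat_lit 39) (.e (nat_lit 663574) (nat_lit 9) (.e (nat_lit 2470) (nat_lit 157) (.e (nat_lit 3469) (nat_lit 217) (.e (nat_lit 696344) (nat_lit 8) (.e (nat_lit 172081) (nat_lit 7) .nil)))))))) (.g (nat_lit 1) (.e (nat_lit 294261) (nat_lit 0) .nil) .nil)))))) 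
(.nd (nat_lit 7) (.nd (nat_lit 8) (.nd (nat_lit 9) 
(.lf (nat_lit 548971) (.g (nat_lit 2259) (.e (nat_lit 409602) (nat_lit 0) (.e (nat_lit 5293) (nat_lit 298) (.e (nat_lit 1656) (nat_lit 115) (.e (nat_lit 393260) (nat_lit 21) (.e (nat_lit 409623) (nat_lit 10) .nil))))) (.g (nat_lit 0) (.e (nat_lit 291096) (nat_lit 0) .nil) .nil))) 
(.lf (nat_lit 549483) (.g (nat_lit 958) (.e (nat_lit 409646) (nat_lit 18) (.e (nat_lit 303117) (nat_lit 2) (.e (nat_lit 196674) (nat_lit 15) (.e (nat_lit 81955) (nat_lit 23) .nil)))) (.g (nat_lit 0) (.e (nat_lit 292836) (nat_lit 0) .nil) .nil)))) (.nd (nat_lit 9) 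
(.lf (nat_lit 549227) (.g (nat_lit 588) (.e (nat_lit 409643) (nat_lit 18) (.e (nat_lit 303117) (nat_lit 2) (.e (nat_lit 196665) (nat_lit 13) .nil))) (.g (nat_lit 0) (.e (nat_lit 291761) (nat_lit 0) .nil) .nil))) 
(.lf (nat_lit 549739) (.g (nat_lit 2911) (.e (nat_lit 409649) (nat_lit 18) (.e (nat_lit 303117) (nat_lit 2) (.e (nat_lit 196666) (nat_lit 13) (.e (nat_lit 65591) (nat_lit 9) .nil)))) (.g (nat_lit 0) (.e (nat_lit 294050) (nat_lit 0) .nil) .nil))))) (.nd (nat_lit 8) (.nd (nat_lit 9) 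
(.lf (nat_lit 549099) (.g (nat_lit 1522) (.e (nat_lit 409616) (nat_lit 10) (.e (nat_lit 632) (nat_lit 50) (.e (nat_lit 573493) (nat_lit 15) (.e (nat_lit 81959) (nat_lit 24) .nil)))) (.g (nat_lit 0) (.e (nat_lit 291406) (nat_lit 0) .nil) .nil))) 
(.lf (nat_lit 549611) (.g (nat_lit 1360) (.e (nat_lit 409648) (nat_lit 18) (.e (nat_lit 303116) (nat_lit 2) (.e (nat_lit 196666) (nat_lit 13) (.e (nat_lit 65614) (nat_lit 10) .nil)))) (.g (nat_lit 0) (.e (nat_lit 293635) (nat_lit 0) .nil) .nil)))) (.nd (nat_lit 9) 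
(.lf (nat_lit 549355) (.g (nat_lit 2419) (.e (nat_lit 409644) (nat_lit 18) (.e (nat_lit 303119) (nat_lit 3) (.e (nat_lit 204869) (nat_lit 29) (.e (nat_lit 368384) (nat_lit 3) .nil)))) (.g (nat_lit 0) (.e (nat_lit 291999) (nat_lit 0) .nil) .nil))) 
(.lf (nat_lit 549867) (.g (nat_lit 1753) (.e (nat_lit 417536) (nat_lit 18) (.e (nat_lit 303117) (nat_lit 2) (.e (nat_lit 196674) (nat_lit 15) (.e (nat_lit 81956) (nat_lit 23) .nil)))) (.g (nat_lit 0) (.e (nat_lit 294530) (nat_lit 0) .nil) .nil)))))))) (.nd (nat_lit 5) (.nd (nat_lit 6) (.nd (nat_lit 7) (.nd (nat_lit 8) (.nd (nat_lit 9) 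
(.lf (nat_lit 548891) (.g (nat_lit 3128) (.e (nat_lit 294955) (nat_lit 12) (.e (nat_lit 385074) (nat_lit 31) (.e (nat_lit 573484) (nat_lit 13) (.e (nat_lit 65617) (nat_lit 10) .nil)))) (.g (nat_lit 0) (.e (nat_lit 290582) (nat_lit 0) .nil) .nil))) 
(.lf (nat_lit 549403) (.g (nat_lit 446) (.e (nat_lit 409645) (nat_lit 18) (.e (nat_lit 303119) (nat_lit 3) (.e (nat_lit 204852) (nat_lit 26) .nil))) (.g (nat_lit 0) (.e (nat_lit 292158) (nat_lit 0) .nil) .nil)))) (.nd (nat_lit 9) 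
(.lf (nat_lit 549147) (.g (nat_lit 2445) (.e (nat_lit 409617) (nat_lit 10) (.e (nat_lit 632) (nat_lit 50) (.e (nat_lit 573493) (nat_lit 15) (.e (nat_lit 81959) (nat_lit 24) (.e (nat_lit 123044) (nat_lit 146) .nil))))) (.g (nat_lit 0) (.e (nat_lit 291527) (nat_lit 0) .nil) .nil))) 
(.lf (nat_lit 549659) (.g (nat_lit 3225) (.e (nat_lit 409648) (nat_lit 18) (.e (nat_lit 303119) (nat_lit 3) (.e (nat_lit 204855) (nat_lit 26) (.e (nat_lit 336173) (nat_lit 10) (.e (nat_lit 344117) (nat_lit 21) .nil))))) (.g (nat_lit 0) (.e (nat_lit 293702) (nat_lit 0) .nil) .nil))))) (.nd (nat_lit 8) (.nd (nat_lit 9) 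
(.lf (nat_lit 549019) (.g (nat_lit 2347) (.e (nat_lit 417536) (nat_lit 8) (.e (nat_lit 303118) (nat_lit 3) (.e (nat_lit 204846) (nat_lit 24) (.e (nat_lit 319533) (nat_lit 16) (.e (nat_lit 286735) (nat_lit 3) .nil))))) (.g (nat_lit 0) (.e (nat_lit 291174) (nat_lit 0) .nil) .nil))) 
(.lf (nat_lit 549531) (.g (nat_lit 1807) (.e (nat_lit 409646) (nat_lit 18) (.e (nat_lit 303143) (nat_lit 12) (.e (nat_lit 475199) (nat_lit 40) (.e (nat_lit 704707) (nat_lit 9) (.e (nat_lit 1023) (nat_lit 81) .nil))))) (.g (nat_lit 0) (.e (nat_lit 293267) (nat_lit 0) .nil) .nil)))) (.nd (nat_lit 9) 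
(.lf (nat_lit 549275) (.g (nat_lit 1890) (.e (nat_lit 409643) (nat_lit 18) (.e (nat_lit 303119) (nat_lit 3) (.e (nat_lit 204868) (nat_lit 29) (.e (nat_lit 368384) (nat_lit 3) .nil)))) (.g (nat_lit 0) (.e (nat_lit 291816) (nat_lit 0) .nil) .nil))) 
(.lf (nat_lit 549787) (.g (nat_lit 1171) (.e (nat_lit 409649) (nat_lit 18) (.e (nat_lit 303119) (nat_lit 3) (.e (nat_lit 204877) (nat_lit 31) (.e (nat_lit 376861) (nat_lit 22) .nil)))) (.g (nat_lit 0) (.e (nat_lit 294134) (nat_lit 0) .nil) .nil)))))) (.nd (nat_lit 7) (.nd (nat_lit 8) (.nd (nat_lit 9) 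
(.lf (nat_lit 548955) (.g (nat_lit 2166) (.e (nat_lit 294974) (nat_lit 29) (.e (nat_lit 442412) (nat_lit 20) (.e (nat_lit 3409) (nat_lit 212) (.e (nat_lit 655378) (nat_lit 4) (.e (nat_lit 172082) (nat_lit 7) (.e (nat_lit 409642) (nat_lit 17) .nil)))))) (.g (nat_lit 1) (.e (nat_lit 290926) (nat_lit 0) .nil) .nil))) 
(.lf (nat_lit 549467) (.g (nat_lit 1794) (.e (nat_lit 409646) (nat_lit 18) (.e (nat_lit 303116) (nat_lit 2) (.e (nat_lit 196674) (nat_lit 15) (.e (nat_lit 81962) (nat_lit 25) .nil)))) (.g (nat_lit 0) (.e (nat_lit 292802) (nat_lit 0) .nil) .nil)))) (.nd (nat_lit 9) 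
(.lf (nat_lit 549211) (.g (nat_lit 1529) (.e (nat_lit 409639) (nat_lit 15) (.e (nat_lit 278566) (nat_lit 16) (.e (nat_lit 286749) (nat_lit 9) (.e (nat_lit 335997) (nat_lit 1) (.e (nat_lit 57857) (nat_lit 254) (.e (nat_lit 163908) (nat_lit 12) (.e (nat_lit 426170) (nat_lit 7) .nil))))))) (.g (nat_lit 1) (.e (nat_lit 291745) (nat_lit 0) .nil) .nil))) 
(.lf (nat_lit 549723) (.g (nat_lit 1292) (.e (nat_lit 409649) (nat_lit 18) (.e (nat_lit 303111) (nat_lit 0) (.e (nat_lit 3579) (nat_lit 223) (.e (nat_lit 745509) (nat_lit 11) .nil)))) (.g (nat_lit 0) (.e (nat_lit 294030) (nat_lit 0) .nil) .nil))))) (.nd (nat_lit 8) (.nd (nat_lit 9) 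
(.lf (nat_lit 549083) (.g (nat_lit 4104) (.e (nat_lit 409616) (nat_lit 10) (.e (nat_lit 632) (nat_lit 50) (.e (nat_lit 573489) (nat_lit 14) (.e (nat_lit 73755) (nat_lit 8) (.e (nat_lit 557104) (nat_lit 14) (.e (nat_lit 180244) (nat_lit 5) (.e (nat_lit 540416) (nat_lit 24) .nil))))))) (.g (nat_lit 1) (.e (nat_lit 291374) (nat_lit 0) .nil) .nil))) 
(.lf (nat_lit 549595) (.g (nat_lit 2498) (.e (nat_lit 409647) (nat_lit 18) (.e (nat_lit 303143) (nat_lit 12) (.e (nat_lit 475199) (nat_lit 40) (.e (nat_lit 704775) (nat_lit 14) .nil)))) (.g (nat_lit 0) (.e (nat_lit 293541) (nat_lit 0) .nil) .nil)))) (.nd (nat_lit 9) 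
(.lf (nat_lit 549339) (.g (nat_lit 2325) (.e (nat_lit 409644) (nat_lit 18) (.e (nat_lit 303119) (nat_lit 3) (.e (nat_lit 204855) (nat_lit 26) (.e (nat_lit 336169) (nat_lit 10) .nil)))) (.g (nat_lit 0) (.e (nat_lit 291976) (nat_lit 0) .nil) .nil))) 
(.lf (nat_lit 549851) (.g (nat_lit 2991) (.e (nat_lit 417536) (nat_lit 18) (.e (nat_lit 303117) (nat_lit 2) (.e (nat_lit 196666) (nat_lit 13) (.e (nat_lit 65598) (nat_lit 9) .nil)))) (.g (nat_lit 0) (.e (nat_lit 294514) (nat_lit 0) .nil) .nil))))))) (.nd (nat_lit 6) (.nd (nat_lit 7) (.nd (nat_lit 8) (.nd (nat_lit 9) 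
(.lf (nat_lit 548923) (.g (nat_lit 1073) (.e (nat_lit 294973) (nat_lit 28) (.e (nat_lit 434180) (nat_lit 0) (.e (nat_lit 1425) (nat_lit 108) (.e (nat_lit 336421) (nat_lit 28) (.e (nat_lit 434189) (nat_lit 13) (.e (nat_lit 2788) (nat_lit 179) .nil)))))) (.g (nat_lit 1) (.e (nat_lit 290772) (nat_lit 0) .nil) .nil))) 
(.lf (nat_lit 549435) (.g (nat_lit 2509) (.e (nat_lit 409645) (nat_lit 18) (.e (nat_lit 303140) (nat_lit 10) (.e (nat_lit 434275) (nat_lit 39) (.e (nat_lit 663584) (nat_lit 12) (.e (nat_lit 164018) (nat_lit 45) (.e (nat_lit 696344) (nat_lit 8) (.e (nat_lit 172079) (nat_lit 7) .nil))))))) (.g (nat_lit 1) (.e (nat_lit 292450) (nat_lit 0) .nil) .nil)))) (.nd (nat_lit 9) 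
(.lf (nat_lit 549179) (.g (nat_lit 1526) (.e (nat_lit 417536) (nat_lit 10) (.e (nat_lit 5384) (nat_lit 300) (.e (nat_lit 16473) (nat_lit 14) (.e (nat_lit 491547) (nat_lit 9) .nil)))) (.g (nat_lit 0) (.e (nat_lit 291645) (nat_lit 0) .nil) .nil))) 
(.lf (nat_lit 549691) (.g (nat_lit 3413) (.e (nat_lit 409648) (nat_lit 18) (.e (nat_lit 303137) (nat_lit 10) (.e (nat_lit 434275) (nat_lit 39) (.e (nat_lit 663584) (nat_lit 12) (.e (nat_lit 164020) (nat_lit 45) (.e (nat_lit 696344) (nat_lit 8) (.e (nat_lit 172081) (nat_lit 7) .nil))))))) (.g (nat_lit 1) (.e (nat_lit 293856) (nat_lit 0) .nil) .nil))))) (.nd (nat_lit 8) (.nd (nat_lit 9) 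
(.lf (nat_lit 549051) (.g (nat_lit 1893) (.e (nat_lit 409612) (nat_lit 10) (.e (nat_lit 632) (nat_lit 50) (.e (nat_lit 573485) (nat_lit 13) (.e (nat_lit 65619) (nat_lit 10) (.e (nat_lit 344183) (nat_lit 49) .nil))))) (.g (nat_lit 0) (.e (nat_lit 291278) (nat_lit 0) .nil) .nil))) 
(.lf (nat_lit 549563) (.g (nat_lit 3005) (.e (nat_lit 409647) (nat_lit 18) (.e (nat_lit 303117) (nat_lit 2) (.e (nat_lit 196671) (nat_lit 15) (.e (nat_lit 81953) (nat_lit 22) (.e (nat_lit 90130) (nat_lit 9) .nil))))) (.g (nat_lit 0) (.e (nat_lit 293484) (nat_lit 0) .nil) .nil)))) (.nd (nat_lit 9) 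
(.lf (nat_lit 549307) (.g (nat_lit 2982) (.e (nat_lit 409644) (nat_lit 18) (.e (nat_lit 303117) (nat_lit 2) (.e (nat_lit 196666) (nat_lit 13) (.e (nat_lit 65592) (nat_lit 9) .nil)))) (.g (nat_lit 0) (.e (nat_lit 291943) (nat_lit 0) .nil) .nil))) 
(.lf (nat_lit 549819) (.g (nat_lit 2278) (.e (nat_lit 409649) (nat_lit 18) (.e (nat_lit 303143) (nat_lit 12) (.e (nat_lit 475199) (nat_lit 40) (.e (nat_lit 704773) (nat_lit 14) .nil)))) (.g (nat_lit 0) (.e (nat_lit 294369) (nat_lit 0) .nil) .nil)))))) (.nd (nat_lit 7) (.nd (nat_lit 8) (.nd (nat_lit 9) 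
(.lf (nat_lit 548987) (.g (nat_lit 2688) (.e (nat_lit 409602) (nat_lit 0) (.e (nat_lit 5389) (nat_lit 301) (.e (nat_lit 57464) (nat_lit 23) (.e (nat_lit 516166) (nat_lit 12) (.e (nat_lit 450588) (nat_lit 10) (.e (nat_lit 573452) (nat_lit 9) (.e (nat_lit 359) (nat_lit 30) .nil))))))) (.g (nat_lit 1) (.e (nat_lit 291112) (nat_lit 0) .nil) .nil))) 
(.lf (nat_lit 549499) (.g (nat_lit 1348) (.e (nat_lit 409646) (nat_lit 18) (.e (nat_lit 303119) (nat_lit 3) (.e (nat_lit 204868) (nat_lit 29) (.e (nat_lit 368384) (nat_lit 3) .nil)))) (.g (nat_lit 0) (.e (nat_lit 292896) (nat_lit 0) .nil) .nil)))) (.nd (nat_lit 9) 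
(.lf (nat_lit 549243) (.g (nat_lit 2242) (.e (nat_lit 409643) (nat_lit 18) (.e (nat_lit 303117) (nat_lit 2) (.e (nat_lit 196674) (nat_lit 15) (.e (nat_lit 81946) (nat_lit 20) (.e (nat_lit 1802) (nat_lit 119) .nil))))) (.g (nat_lit 0) (.e (nat_lit 291777) (nat_lit 0) .nil) .nil))) 
(.lf (nat_lit 549755) (.g (nat_lit 1292) (.e (nat_lit 409649) (nat_lit 18) (.e (nat_lit 303117) (nat_lit 2) (.e (nat_lit 196672) (nat_lit 15) (.e (nat_lit 81960) (nat_lit 25) .nil)))) (.g (nat_lit 0) (.e (nat_lit 294070) (nat_lit 0) .nil) .nil))))) (.nd (nat_lit 8) (.nd (nat_lit 9) 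
(.lf (nat_lit 549115) (.g (nat_lit 2634) (.e (nat_lit 409617) (nat_lit 10) (.e (nat_lit 632) (nat_lit 50) (.e (nat_lit 573489) (nat_lit 14) (.e (nat_lit 73754) (nat_lit 8) (.e (nat_lit 557101) (nat_lit 13) (.e (nat_lit 172067) (nat_lit 3) (.e (nat_lit 212736) (nat_lit 7) .nil))))))) (.g (nat_lit 1) (.e (nat_lit 291460) (nat_lit 0) .nil) .nil))) 
(.lf (nat_lit 549627) (.g (nat_lit 2233) (.e (nat_lit 409648) (nat_lit 18) (.e (nat_lit 303117) (nat_lit 2) (.e (nat_lit 196666) (nat_lit 13) (.e (nat_lit 65614) (nat_lit 10) (.e (nat_lit 344116) (nat_lit 21) .nil))))) (.g (nat_lit 0) (.e (nat_lit 293656) (nat_lit 0) .nil) .nil)))) (.nd (nat_lit 9) 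
(.lf (nat_lit 549371) (.g (nat_lit 1284) (.e (nat_lit 409645) (nat_lit 18) (.e (nat_lit 303111) (nat_lit 0) (.e (nat_lit 3579) (nat_lit 223) (.e (nat_lit 745509) (nat_lit 11) .nil)))) (.g (nat_lit 0) (.e (nat_lit 292075) (nat_lit 0) .nil) .nil))) 
(.lf (nat_lit 549883) (.g (nat_lit 1865) (.e (nat_lit 417536) (nat_lit 18) (.e (nat_lit 303119) (nat_lit 3) (.e (nat_lit 204855) (nat_lit 26) (.e (nat_lit 336097) (nat_lit 9) .nil)))) (.g (nat_lit 0) (.e (nat_lit 294558) (nat_lit 0) .nil) .nil)))))))))) (.nd (nat_lit 3) (.nd (nat_lit 4) (.nd (nat_lit 5) (.nd (nat_lit 6) (.nd (nat_lit 7) (.nd (nat_lit 8) (.nd (nat_lit 9) 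
(.lf (nat_lit 548871) (.g (nat_lit 1423) (.e (nat_lit 294940) (nat_lit 9) (.e (nat_lit 336324) (nat_lit 18) (.e (nat_lit 204838) (nat_lit 20) (.e (nat_lit 122624) (nat_lit 12) .nil)))) (.g (nat_lit 0) (.e (nat_lit 290524) (nat_lit 0) .nil) .nil))) 
(.lf (nat_lit 549383) (.g (nat_lit 2127) (.e (nat_lit 409645) (nat_lit 18) (.e (nat_lit 303117) (nat_lit 2) (.e (nat_lit 196672) (nat_lit 15) (.e (nat_lit 81956) (nat_lit 23) (.e (nat_lit 106240) (nat_lit 24) .nil))))) (.g (nat_lit 1) (.e (nat_lit 292103) (nat_lit 0) .nil) .nil)))) (.nd (nat_lit 9) 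
(.lf (nat_lit 549127) (.g (nat_lit 3259) (.e (nat_lit 409617) (nat_lit 10) (.e (nat_lit 632) (nat_lit 50) (.e (nat_lit 573489) (nat_lit 14) (.e (nat_lit 73755) (nat_lit 8) (.e (nat_lit 557105) (nat_lit 14) (.e (nat_lit 180252) (nat_lit 10) (.e (nat_lit 581376) (nat_lit 0) (.e (nat_lit 2821) (nat_lit 182) .nil)))))))) (.g (nat_lit 1) (.e (nat_lit 291472) (nat_lit 0) .nil) .nil))) 
(.lf (nat_lit 549639) (.g (nat_lit 2165) (.e (nat_lit 409648) (nat_lit 18) (.e (nat_lit 303117) (nat_lit 2) (.e (nat_lit 196674) (nat_lit 15) (.e (nat_lit 81940) (nat_lit 20) .nil)))) (.g (nat_lit 0) (.e (nat_lit 293669) (nat_lit 0) .nil) .nil))))) (.nd (nat_lit 8) (.nd (nat_lit 9) 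
(.lf (nat_lit 548999) (.g (nat_lit 3080) (.e (nat_lit 409603) (nat_lit 0) (.e (nat_lit 5293) (nat_lit 298) (.e (nat_lit 1250) (nat_lit 92) (.e (nat_lit 98372) (nat_lit 29) (.e (nat_lit 450586) (nat_lit 10) (.e (nat_lit 573457) (nat_lit 9) (.e (nat_lit 359) (nat_lit 30) .nil))))))) (.g (nat_lit 1) (.e (nat_lit 291132) (nat_lit 0) .nil) .nil))) 
(.lf (nat_lit 549511) (.g (nat_lit 3651) (.e (nat_lit 409646) (nat_lit 18) (.e (nat_lit 303140) (nat_lit 10) (.e (nat_lit 434275) (nat_lit 39) (.e (nat_lit 663574) (nat_lit 9) (.e (nat_lit 2457) (nat_lit 157) (.e (nat_lit 3469) (nat_lit 217) (.e (nat_lit 696344) (nat_lit 8) (.e (nat_lit 172078) (nat_lit 7) .nil)))))))) (.g (nat_lit 1) (.e (nat_lit 293154) (nat_lit 0) .nil) .nil)))) 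
(.nd (nat_lit 9) 
(.lf (nat_lit 549255) (.g (nat_lit 2322) (.e (nat_lit 409643) (nat_lit 18) (.e (nat_lit 303118) (nat_lit 3) (.e (nat_lit 204869) (nat_lit 29) (.e (nat_lit 360468) (nat_lit 3) (.e (nat_lit 516139) (nat_lit 7) .nil))))) (.g (nat_lit 0) (.e (nat_lit 291790) (nat_lit 0) .nil) .nil))) 
(.lf (nat_lit 549767) (.g (nat_lit 1902) (.e (nat_lit 409649) (nat_lit 18) (.e (nat_lit 303118) (nat_lit 3) (.e (nat_lit 204855) (nat_lit 26) (.e (nat_lit 336168) (nat_lit 10) (.e (nat_lit 344119) (nat_lit 21) .nil))))) (.g (nat_lit 0) (.e (nat_lit 294090) (nat_lit 0) .nil) .nil)))))) (.nd (nat_lit 7) (.nd (nat_lit 8) (.nd (nat_lit 9) 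
(.lf (nat_lit 548935) (.g (nat_lit 1586) (.e (nat_lit 294973) (nat_lit 28) (.e (nat_lit 434181) (nat_lit 0) (.e (nat_lit 1427) (nat_lit 108) (.e (nat_lit 336421) (nat_lit 28) (.e (nat_lit 434188) (nat_lit 13) .nil))))) (.g (nat_lit 0) (.e (nat_lit 290785) (nat_lit 0) .nil) .nil))) 
(.lf (nat_lit 549447) (.g (nat_lit 2333) (.e (nat_lit 409645) (nat_lit 18) (.e (nat_lit 303143) (nat_lit 12) (.e (nat_lit 475199) (nat_lit 40) (.e (nat_lit 704773) (nat_lit 14) .nil)))) (.g (nat_lit 0) (.e (nat_lit 292532) (nat_lit 0) .nil) .nil)))) (.nd (nat_lit 9) 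
(.lf (nat_lit 549191) (.g (nat_lit 2719) (.e (nat_lit 409636) (nat_lit 14) (.e (nat_lit 270348) (nat_lit 3) (.e (nat_lit 40996) (nat_lit 11) (.e (nat_lit 24658) (nat_lit 13) (.e (nat_lit 393260) (nat_lit 21) .nil))))) (.g (nat_lit 1) (.e (nat_lit 291712) (nat_lit 0) .nil) .nil))) 
(.lf (nat_lit 549703) (.g (nat_lit 2138) (.e (nat_lit 409648) (nat_lit 18) (.e (nat_lit 303146) (nat_lit 14) (.e (nat_lit 491560) (nat_lit 10) (.e (nat_lit 344160) (nat_lit 37) .nil)))) (.g (nat_lit 0) (.e (nat_lit 293988) (nat_lit 0) .nil) .nil))))) (.nd (nat_lit 8) (.nd (nat_lit 9) 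
(.lf (nat_lit 549063) (.g (nat_lit 1171) (.e (nat_lit 409612) (nat_lit 10) (.e (nat_lit 934) (nat_lit 76) (.e (nat_lit 786483) (nat_lit 30) (.e (nat_lit 360475) (nat_lit 8) .nil)))) (.g (nat_lit 0) (.e (nat_lit 291330) (nat_lit 0) .nil) .nil))) 
(.lf (nat_lit 549575) (.g (nat_lit 1581) (.e (nat_lit 409647) (nat_lit 18) (.e (nat_lit 303118) (nat_lit 3) (.e (nat_lit 204855) (nat_lit 26) (.e (nat_lit 336102) (nat_lit 9) .nil)))) (.g (nat_lit 0) (.e (nat_lit 293499) (nat_lit 0) .nil) .nil)))) (.nd (nat_lit 9) 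
(.lf (nat_lit 549319) (.g (nat_lit 783) (.e (nat_lit 409644) (nat_lit 18) (.e (nat_lit 303117) (nat_lit 2) (.e (nat_lit 196673) (nat_lit 15) (.e (nat_lit 81938) (nat_lit 20) .nil)))) (.g (nat_lit 0) (.e (nat_lit 291955) (nat_lit 0) .nil) .nil))) 
(.lf (nat_lit 549831) (.g (nat_lit 2347) (.e (nat_lit 409649) (nat_lit 18) (.e (nat_lit 303143) (nat_lit 12) (.e (nat_lit 475199) (nat_lit 40) (.e (nat_lit 704816) (nat_lit 14) .nil)))) (.g (nat_lit 0) (.e (nat_lit 294381) (nat_lit 0) .nil) .nil))))))) (.nd (nat_lit 6) (.nd (nat_lit 7) (.nd (nat_lit 8) (.nd (nat_lit 9) 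
(.lf (nat_lit 548903) (.g (nat_lit 2549) (.e (nat_lit 294966) (nat_lit 15) (.e (nat_lit 3308) (nat_lit 202) (.e (nat_lit 573482) (nat_lit 13) (.e (nat_lit 65604) (nat_lit 9) (.e (nat_lit 336028) (nat_lit 3) (.e (nat_lit 98325) (nat_lit 17) (.e (nat_lit 7016) (nat_lit 377) (.e (nat_lit 2788) (nat_lit 179) .nil)))))))) (.g (nat_lit 1) (.e (nat_lit 290648) (nat_lit 0) .nil) .nil))) 
(.lf (nat_lit 549415) (.g (nat_lit 3339) (.e (nat_lit 409645) (nat_lit 18) (.e (nat_lit 303119) (nat_lit 3) (.e (nat_lit 204868) (nat_lit 29) (.e (nat_lit 360466) (nat_lit 3) (.e (nat_lit 524032) (nat_lit 7) .nil))))) (.g (nat_lit 1) (.e (nat_lit 292205) (nat_lit 0) .nil) .nil)))) (.nd (nat_lit 9) 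
(.lf (nat_lit 549159) (.g (nat_lit 387) (.e (nat_lit 409623) (nat_lit 10) (.e (nat_lit 5664) (nat_lit 312) (.e (nat_lit 2679) (nat_lit 168) .nil))) (.g (nat_lit 0) (.e (nat_lit 291583) (nat_lit 0) .nil) .nil))) 
(.lf (nat_lit 549671) (.g (nat_lit 3214) (.e (nat_lit 409648) (nat_lit 18) (.e (nat_lit 303119) (nat_lit 3) (.e (nat_lit 204869) (nat_lit 29) (.e (nat_lit 360465) (nat_lit 3) (.e (nat_lit 516139) (nat_lit 7) .nil))))) (.g (nat_lit 0) (.e (nat_lit 293726) (nat_lit 0) .nil) .nil))))) (.nd (nat_lit 8) (.nd (nat_lit 9) 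
(.lf (nat_lit 549031) (.g (nat_lit 2081) (.e (nat_lit 409608) (nat_lit 10) (.e (nat_lit 585) (nat_lit 43) (.e (nat_lit 516151) (nat_lit 9) (.e (nat_lit 426286) (nat_lit 10) .nil)))) (.g (nat_lit 0) (.e (nat_lit 291186) (nat_lit 0) .nil) .nil))) 
(.lf (nat_lit 549543) (.g (nat_lit 2374) (.e (nat_lit 409646) (nat_lit 18) (.e (nat_lit 303143) (nat_lit 12) (.e (nat_lit 475199) (nat_lit 40) (.e (nat_lit 704832) (nat_lit 14) .nil)))) (.g (nat_lit 0) (.e (nat_lit 293282) (nat_lit 0) .nil) .nil)))) (.nd (nat_lit 9) 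
(.lf (nat_lit 549287) (.g (nat_lit 2258) (.e (nat_lit 409643) (nat_lit 18) (.e (nat_lit 303143) (nat_lit 12) (.e (nat_lit 475199) (nat_lit 40) (.e (nat_lit 704777) (nat_lit 14) (.e (nat_lit 2587) (nat_lit 162) .nil))))) (.g (nat_lit 0) (.e (nat_lit 291833) (nat_lit 0) .nil) .nil))) 
(.lf (nat_lit 549799) (.g (nat_lit 2188) (.e (nat_lit 409649) (nat_lit 18) (.e (nat_lit 303140) (nat_lit 10) (.e (nat_lit 434275) (nat_lit 39) (.e (nat_lit 663574) (nat_lit 9) (.e (nat_lit 2467) (nat_lit 157) .nil))))) (.g (nat_lit 0) (.e (nat_lit 294257) (nat_lit 0) .nil) .nil)))))) (.nd (nat_lit 7) (.nd (nat_lit 8) (.nd (nat_lit 9) 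
(.lf (nat_lit 548967) (.g (nat_lit 4060) (.e (nat_lit 409602) (nat_lit 0) (.e (nat_lit 5293) (nat_lit 298) (.e (nat_lit 1232) (nat_lit 91) (.e (nat_lit 90170) (nat_lit 13) (.e (nat_lit 172113) (nat_lit 10) (.e (nat_lit 434248) (nat_lit 28) (.e (nat_lit 573452) (nat_lit 9) (.e (nat_lit 359) (nat_lit 30) .nil)))))))) (.g (nat_lit 1) (.e (nat_lit 291092) (nat_lit 0) .nil) .nil))) 
(.lf (nat_lit 549479) (.g (nat_lit 3063) (.e (nat_lit 409646) (nat_lit 18) (.e (nat_lit 303117) (nat_lit 2) (.e (nat_lit 196672) (nat_lit 15) (.e (nat_lit 81953) (nat_lit 22) (.e (nat_lit 90130) (nat_lit 9) .nil))))) (.g (nat_lit 0) (.e (nat_lit 292820) (nat_lit 0) .nil) .nil)))) (.nd (nat_lit 9) 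
(.lf (nat_lit 549223) (.g (nat_lit 1864) (.e (nat_lit 409643) (nat_lit 18) (.e (nat_lit 303117) (nat_lit 2) (.e (nat_lit 196630) (nat_lit 9) (.e (nat_lit 1580) (nat_lit 111) (.e (nat_lit 360468) (nat_lit 3) .nil))))) (.g (nat_lit 0) (.e (nat_lit 291757) (nat_lit 0) .nil) .nil))) 
(.lf (nat_lit 549735) (.g (nat_lit 796) (.e (nat_lit 409649) (nat_lit 18) (.e (nat_lit 303116) (nat_lit 2) (.e (nat_lit 196673) (nat_lit 15) (.e (nat_lit 81962) (nat_lit 25) .nil)))) (.g (nat_lit 0) (.e (nat_lit 294045) (nat_lit 0) .nil) .nil))))) (.nd (nat_lit 8) (.nd (nat_lit 9) 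
(.lf (nat_lit 549095) (.g (nat_lit 1848) (.e (nat_lit 409616) (nat_lit 10) (.e (nat_lit 632) (nat_lit 50) (.e (nat_lit 573493) (nat_lit 15) (.e (nat_lit 81947) (nat_lit 20) .nil)))) (.g (nat_lit 0) (.e (nat_lit 291398) (nat_lit 0) .nil) .nil))) 
(.lf (nat_lit 549607) (.g (nat_lit 3226) (.e (nat_lit 409648) (nat_lit 18) (.e (nat_lit 303104) (nat_lit 0) (.e (nat_lit 3238) (nat_lit 197) (.e (nat_lit 532535) (nat_lit 9) (.e (nat_lit 336073) (nat_lit 9) (.e (nat_lit 336028) (nat_lit 3) (.e (nat_lit 98350) (nat_lit 24) .nil))))))) (.g (nat_lit 1) (.e (nat_lit 293630) (nat_lit 0) .nil) .nil)))) (.nd (nat_lit 9) 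
(.lf (nat_lit 549351) (.g (nat_lit 2704) (.e (nat_lit 409644) (nat_lit 18) (.e (nat_lit 303119) (nat_lit 3) (.e (nat_lit 204869) (nat_lit 29) (.e (nat_lit 360466) (nat_lit 3) .nil)))) (.g (nat_lit 0) (.e (nat_lit 291995) (nat_lit 0) .nil) .nil))) 
(.lf (nat_lit 549863) (.g (nat_lit 3547) (.e (nat_lit 417536) (nat_lit 18) (.e (nat_lit 303117) (nat_lit 2) (.e (nat_lit 196672) (nat_lit 15) (.e (nat_lit 81953) (nat_lit 22) (.e (nat_lit 90130) (nat_lit 9) .nil))))) (.g (nat_lit 0) (.e (nat_lit 294526) (nat_lit 0) .nil) .nil)))))))) (.nd (nat_lit 5) (.nd (nat_lit 6) (.nd (nat_lit 7) (.nd (nat_lit 8) (.nd (nat_lit 9) 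
(.lf (nat_lit 548887) (.g (nat_lit 1794) (.e (nat_lit 294955) (nat_lit 12) (.e (nat_lit 385072) (nat_lit 31) (.e (nat_lit 573492) (nat_lit 15) (.e (nat_lit 81953) (nat_lit 22) .nil)))) (.g (nat_lit 0) (.e (nat_lit 290576) (nat_lit 0) .nil) .nil))) 
(.lf (nat_lit 549399) (.g (nat_lit 1067) (.e (nat_lit 409645) (nat_lit 18) (.e (nat_lit 303119) (nat_lit 3) (.e (nat_lit 204815) (nat_lit 17) (.e (nat_lit 6520) (nat_lit 348) .nil)))) (.g (nat_lit 0) (.e (nat_lit 292137) (nat_lit 0) .nil) .nil)))) (.nd (nat_lit 9) 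
(.lf (nat_lit 549143) (.g (nat_lit 2723) (.e (nat_lit 409617) (nat_lit 10) (.e (nat_lit 632) (nat_lit 50) (.e (nat_lit 573493) (nat_lit 15) (.e (nat_lit 81947) (nat_lit 20) (.e (nat_lit 991) (nat_lit 81) .nil))))) (.g (nat_lit 0) (.e (nat_lit 291516) (nat_lit 0) .nil) .nil))) 
(.lf (nat_lit 549655) (.g (nat_lit 2858) (.e (nat_lit 409648) (nat_lit 18) (.e (nat_lit 303119) (nat_lit 3) (.e (nat_lit 204855) (nat_lit 26) (.e (nat_lit 336083) (nat_lit 9) .nil)))) (.g (nat_lit 0) (.e (nat_lit 293696) (nat_lit 0) .nil) .nil))))) (.nd (nat_lit 8) (.nd (nat_lit 9) 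
(.lf (nat_lit 549015) (.g (nat_lit 231) (.e (nat_lit 417536) (nat_lit 0) (.e (nat_lit 5259) (nat_lit 298) (.e (nat_lit 496) (nat_lit 39) .nil))) (.g (nat_lit 0) (.e (nat_lit 291166) (nat_lit 0) .nil) .nil))) 
(.lf (nat_lit 549527) (.g (nat_lit 2339) (.e (nat_lit 409646) (nat_lit 18) (.e (nat_lit 303143) (nat_lit 12) (.e (nat_lit 475199) (nat_lit 40) (.e (nat_lit 704688) (nat_lit 9) .nil)))) (.g (nat_lit 0) (.e (nat_lit 293263) (nat_lit 0) .nil) .nil)))) (.nd (nat_lit 9) 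
(.lf (nat_lit 549271) (.g (nat_lit 1721) (.e (nat_lit 409643) (nat_lit 18) (.e (nat_lit 303119) (nat_lit 3) (.e (nat_lit 204866) (nat_lit 28) (.e (nat_lit 352313) (nat_lit 23) .nil)))) (.g (nat_lit 0) (.e (nat_lit 291810) (nat_lit 0) .nil) .nil))) 
(.lf (nat_lit 549783) (.g (nat_lit 3383) (.e (nat_lit 409649) (nat_lit 18) (.e (nat_lit 303119) (nat_lit 3) (.e (nat_lit 204868) (nat_lit 29) (.e (nat_lit 360468) (nat_lit 3) (.e (nat_lit 516139) (nat_lit 7) .nil))))) (.g (nat_lit 1) (.e (nat_lit 294122) (nat_lit 0) .nil) .nil)))))) (.nd (nat_lit 7) (.nd (nat_lit 8) (.nd (nat_lit 9) 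
(.lf (nat_lit 548951) (.g (nat_lit 2151) (.e (nat_lit 294974) (nat_lit 29) (.e (nat_lit 442402) (nat_lit 20) (.e (nat_lit 3409) (nat_lit 212) (.e (nat_lit 655378) (nat_lit 4) (.e (nat_lit 172082) (nat_lit 7) (.e (nat_lit 409642) (nat_lit 17) .nil)))))) (.g (nat_lit 1) (.e (nat_lit 290886) (nat_lit 0) .nil) .nil))) 
(.lf (nat_lit 549463) (.g (nat_lit 451) (.e (nat_lit 409646) (nat_lit 18) (.e (nat_lit 303111) (nat_lit 0) (.e (nat_lit 7936) (nat_lit 197) .nil))) (.g (nat_lit 0) (.e (nat_lit 292792) (nat_lit 0) .nil) .nil)))) (.nd (nat_lit 9) 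
(.lf (nat_lit 549207) (.g (nat_lit 1466) (.e (nat_lit 409638) (nat_lit 15) (.e (nat_lit 278566) (nat_lit 16) (.e (nat_lit 286756) (nat_lit 10) (.e (nat_lit 344157) (nat_lit 36) (.e (nat_lit 638999) (nat_lit 8) (.e (nat_lit 172081) (nat_lit 7) .nil)))))) (.g (nat_lit 1) (.e (nat_lit 291729) (nat_lit 0) .nil) .nil))) 
(.lf (nat_lit 549719) (.g (nat_lit 6688) (.e (nat_lit 409649) (nat_lit 18) (.e (nat_lit 303111) (nat_lit 0) (.e (nat_lit 3255) (nat_lit 197) (.e (nat_lit 532535) (nat_lit 9) (.e (nat_lit 336099) (nat_lit 9) (.e (nat_lit 336013) (nat_lit 2) (.e (nat_lit 90130) (nat_lit 9) (.e (nat_lit 2830) (nat_lit 182) .nil)))))))) (.g (nat_lit 1) (.e (nat_lit 294013) (nat_lit 0) .nil) .nil))))) 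
(.nd (nat_lit 8) (.nd (nat_lit 9) 
(.lf (nat_lit 549079) (.g (nat_lit 435) (.e (nat_lit 409616) (nat_lit 10) (.e (nat_lit 632) (nat_lit 50) (.e (nat_lit 573489) (nat_lit 14) .nil))) (.g (nat_lit 0) (.e (nat_lit 291369) (nat_lit 0) .nil) .nil))) 
(.lf (nat_lit 549591) (.g (nat_lit 2105) (.e (nat_lit 409647) (nat_lit 18) (.e (nat_lit 303133) (nat_lit 9) (.e (nat_lit 426412) (nat_lit 15) (.e (nat_lit 2221) (nat_lit 146) .nil)))) (.g (nat_lit 0) (.e (nat_lit 293534) (nat_lit 0) .nil) .nil)))) (.nd (nat_lit 9) 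
(.lf (nat_lit 549335) (.g (nat_lit 3613) (.e (nat_lit 409644) (nat_lit 18) (.e (nat_lit 303119) (nat_lit 3) (.e (nat_lit 204855) (nat_lit 26) (.e (nat_lit 336073) (nat_lit 9) (.e (nat_lit 336028) (nat_lit 3) (.e (nat_lit 98349) (nat_lit 24) .nil)))))) (.g (nat_lit 1) (.e (nat_lit 291972) (nat_lit 0) .nil) .nil))) 
(.lf (nat_lit 549847) (.g (nat_lit 1535) (.e (nat_lit 417536) (nat_lit 18) (.e (nat_lit 303116) (nat_lit 2) (.e (nat_lit 196674) (nat_lit 15) (.e (nat_lit 81962) (nat_lit 25) .nil)))) (.g (nat_lit 0) (.e (nat_lit 294509) (nat_lit 0) .nil) .nil))))))) (.nd (nat_lit 6) (.nd (nat_lit 7) (.nd (nat_lit 8) (.nd (nat_lit 9) 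
(.lf (nat_lit 548919) (.g (nat_lit 1389) (.e (nat_lit 294971) (nat_lit 27) (.e (nat_lit 426347) (nat_lit 14) (.e (nat_lit 491570) (nat_lit 13) (.e (nat_lit 393260) (nat_lit 21) .nil)))) (.g (nat_lit 0) (.e (nat_lit 290757) (nat_lit 0) .nil) .nil))) 
(.lf (nat_lit 549431) (.g (nat_lit 1984) (.e (nat_lit 409645) (nat_lit 18) (.e (nat_lit 303139) (nat_lit 10) (.e (nat_lit 434275) (nat_lit 39) (.e (nat_lit 663574) (nat_lit 9) (.e (nat_lit 2472) (nat_lit 157) .nil))))) (.g (nat_lit 0) (.e (nat_lit 292439) (nat_lit 0) .nil) .nil)))) (.nd (nat_lit 9) 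
(.lf (nat_lit 549175) (.g (nat_lit 1434) (.e (nat_lit 417536) (nat_lit 10) (.e (nat_lit 934) (nat_lit 76) (.e (nat_lit 786480) (nat_lit 29) (.e (nat_lit 352312) (nat_lit 22) (.e (nat_lit 98048) (nat_lit 2) .nil))))) (.g (nat_lit 0) (.e (nat_lit 291638) (nat_lit 0) .nil) .nil))) 
(.lf (nat_lit 549687) (.g (nat_lit 2388) (.e (nat_lit 409648) (nat_lit 18) (.e (nat_lit 303137) (nat_lit 10) (.e (nat_lit 434275) (nat_lit 39) (.e (nat_lit 663584) (nat_lit 12) (.e (nat_lit 164017) (nat_lit 44) (.e (nat_lit 688139) (nat_lit 5) (.e (nat_lit 2887) (nat_lit 184) (.e (nat_lit 426170) (nat_lit 7) .nil)))))))) (.g (nat_lit 1) (.e (nat_lit 293851) (nat_lit 0) .nil) .nil))))) 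
(.nd (nat_lit 8) (.nd (nat_lit 9) 
(.lf (nat_lit 549047) (.g (nat_lit 960) (.e (nat_lit 409611) (nat_lit 10) (.e (nat_lit 934) (nat_lit 76) (.e (nat_lit 786480) (nat_lit 29) (.e (nat_lit 352312) (nat_lit 22) (.e (nat_lit 98048) (nat_lit 2) (.e (nat_lit 16424) (nat_lit 7) .nil)))))) (.g (nat_lit 1) (.e (nat_lit 291262) (nat_lit 0) .nil) .nil))) 
(.lf (nat_lit 549559) (.g (nat_lit 2566) (.e (nat_lit 409647) (nat_lit 18) (.e (nat_lit 303117) (nat_lit 2) (.e (nat_lit 196666) (nat_lit 13) (.e (nat_lit 65617) (nat_lit 10) .nil)))) (.g (nat_lit 0) (.e (nat_lit 293480) (nat_lit 0) .nil) .nil)))) (.nd (nat_lit 9) 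
(.lf (nat_lit 549303) (.g (nat_lit 1649) (.e (nat_lit 409644) (nat_lit 18) (.e (nat_lit 303116) (nat_lit 2) (.e (nat_lit 196681) (nat_lit 17) (.e (nat_lit 131109) (nat_lit 9) (.e (nat_lit 336019) (nat_lit 3) .nil))))) (.g (nat_lit 0) (.e (nat_lit 291939) (nat_lit 0) .nil) .nil))) 
(.lf (nat_lit 549815) (.g (nat_lit 2631) (.e (nat_lit 409649) (nat_lit 18) (.e (nat_lit 303140) (nat_lit 10) (.e (nat_lit 434275) (nat_lit 39) (.e (nat_lit 663584) (nat_lit 12) (.e (nat_lit 164018) (nat_lit 45) (.e (nat_lit 696344) (nat_lit 8) (.e (nat_lit 172081) (nat_lit 7) .nil))))))) (.g (nat_lit 1) (.e (nat_lit 294337) (nat_lit 0) .nil) .nil)))))) 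
(.nd (nat_lit 7) (.nd (nat_lit 8) (.nd (nat_lit 9) 
(.lf (nat_lit 548983) (.g (nat_lit 1718) (.e (nat_lit 409602) (nat_lit 0) (.e (nat_lit 5293) (nat_lit 298) (.e (nat_lit 1656) (nat_lit 115) (.e (nat_lit 393283) (nat_lit 24) .nil)))) (.g (nat_lit 0) (.e (nat_lit 291108) (nat_lit 0) .nil) .nil))) 
(.lf (nat_lit 549495) (.g (nat_lit 1491) (.e (nat_lit 409646) (nat_lit 18) (.e (nat_lit 303119) (nat_lit 3) (.e (nat_lit 204863) (nat_lit 27) (.e (nat_lit 352000) (nat_lit 8) .nil)))) (.g (nat_lit 0) (.e (nat_lit 292878) (nat_lit 0) .nil) .nil)))) (.nd (nat_lit 9) 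
(.lf (nat_lit 549239) (.g (nat_lit 1500) (.e (nat_lit 409643) (nat_lit 18) (.e (nat_lit 303117) (nat_lit 2) (.e (nat_lit 196668) (nat_lit 14) (.e (nat_lit 81664) (nat_lit 43) .nil)))) (.g (nat_lit 0) (.e (nat_lit 291773) (nat_lit 0) .nil) .nil))) 
(.lf (nat_lit 549751) (.g (nat_lit 3370) (.e (nat_lit 409649) (nat_lit 18) (.e (nat_lit 303117) (nat_lit 2) (.e (nat_lit 196672) (nat_lit 15) (.e (nat_lit 81951) (nat_lit 22) (.e (nat_lit 90134) (nat_lit 9) (.e (nat_lit 2822) (nat_lit 182) .nil)))))) (.g (nat_lit 1) (.e (nat_lit 294066) (nat_lit 0) .nil) .nil))))) (.nd (nat_lit 8) (.nd (nat_lit 9) 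
(.lf (nat_lit 549111) (.g (nat_lit 413) (.e (nat_lit 409617) (nat_lit 10) (.e (nat_lit 632) (nat_lit 50) (.e (nat_lit 573487) (nat_lit 14) .nil))) (.g (nat_lit 0) (.e (nat_lit 291455) (nat_lit 0) .nil) .nil))) 
(.lf (nat_lit 549623) (.g (nat_lit 3010) (.e (nat_lit 409648) (nat_lit 18) (.e (nat_lit 303117) (nat_lit 2) (.e (nat_lit 196666) (nat_lit 13) (.e (nat_lit 65602) (nat_lit 9) .nil)))) (.g (nat_lit 0) (.e (nat_lit 293650) (nat_lit 0) .nil) .nil)))) (.nd (nat_lit 9) 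
(.lf (nat_lit 549367) (.g (nat_lit 2184) (.e (nat_lit 409645) (nat_lit 18) (.e (nat_lit 303112) (nat_lit 0) (.e (nat_lit 3252) (nat_lit 197) (.e (nat_lit 532535) (nat_lit 9) (.e (nat_lit 336099) (nat_lit 9) .nil))))) (.g (nat_lit 0) (.e (nat_lit 292062) (nat_lit 0) .nil) .nil))) 
(.lf (nat_lit 549879) (.g (nat_lit 818) (.e (nat_lit 417536) (nat_lit 18) (.e (nat_lit 303119) (nat_lit 3) (.e (nat_lit 204852) (nat_lit 26) .nil))) (.g (nat_lit 0) (.e (nat_lit 294551) (nat_lit 0) .nil) .nil))))))))) (.nd (nat_lit 4) (.nd (nat_lit 5) (.nd (nat_lit 6) (.nd (nat_lit 7) (.nd (nat_lit 8) (.nd (nat_lit 9) 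
(.lf (nat_lit 548879) (.g (nat_lit 2089) (.e (nat_lit 294953) (nat_lit 12) (.e (nat_lit 385074) (nat_lit 31) (.e (nat_lit 573493) (nat_lit 15) (.e (nat_lit 81962) (nat_lit 25) .nil)))) (.g (nat_lit 0) (.e (nat_lit 290557) (nat_lit 0) .nil) .nil))) 
(.lf (nat_lit 549391) (.g (nat_lit 1915) (.e (nat_lit 409645) (nat_lit 18) (.e (nat_lit 303117) (nat_lit 2) (.e (nat_lit 196674) (nat_lit 15) (.e (nat_lit 81954) (nat_lit 23) (.e (nat_lit 106240) (nat_lit 24) .nil))))) (.g (nat_lit 0) (.e (nat_lit 292125) (nat_lit 0) .nil) .nil)))) (.nd (nat_lit 9) 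
(.lf (nat_lit 549135) (.g (nat_lit 1005) (.e (nat_lit 409617) (nat_lit 10) (.e (nat_lit 632) (nat_lit 50) (.e (nat_lit 573491) (nat_lit 15) (.e (nat_lit 81943) (nat_lit 20) .nil)))) (.g (nat_lit 0) (.e (nat_lit 291483) (nat_lit 0) .nil) .nil))) 
(.lf (nat_lit 549647) (.g (nat_lit 452) (.e (nat_lit 409648) (nat_lit 18) (.e (nat_lit 303118) (nat_lit 3) (.e (nat_lit 204877) (nat_lit 31) .nil))) (.g (nat_lit 0) (.e (nat_lit 293688) (nat_lit 0) .nil) .nil))))) (.nd (nat_lit 8) (.nd (nat_lit 9) 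
(.lf (nat_lit 549007) (.g (nat_lit 1245) (.e (nat_lit 409603) (nat_lit 0) (.e (nat_lit 5293) (nat_lit 298) (.e (nat_lit 1633) (nat_lit 114) (.e (nat_lit 385039) (nat_lit 18) .nil)))) (.g (nat_lit 0) (.e (nat_lit 291142) (nat_lit 0) .nil) .nil))) 
(.lf (nat_lit 549519) (.g (nat_lit 2943) (.e (nat_lit 409646) (nat_lit 18) (.e (nat_lit 303140) (nat_lit 10) (.e (nat_lit 434275) (nat_lit 39) (.e (nat_lit 663584) (nat_lit 12) (.e (nat_lit 164018) (nat_lit 45) (.e (nat_lit 696344) (nat_lit 8) (.e (nat_lit 172082) (nat_lit 7) .nil))))))) (.g (nat_lit 1) (.e (nat_lit 293166) (nat_lit 0) .nil) .nil)))) (.nd (nat_lit 9) 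
(.lf (nat_lit 549263) (.g (nat_lit 572) (.e (nat_lit 409643) (nat_lit 18) (.e (nat_lit 303119) (nat_lit 3) (.e (nat_lit 204855) (nat_lit 26) .nil))) (.g (nat_lit 0) (.e (nat_lit 291798) (nat_lit 0) .nil) .nil))) 
(.lf (nat_lit 549775) (.g (nat_lit 403) (.e (nat_lit 409649) (nat_lit 18) (.e (nat_lit 303119) (nat_lit 3) (.e (nat_lit 204855) (nat_lit 26) .nil))) (.g (nat_lit 0) (.e (nat_lit 294105) (nat_lit 0) .nil) .nil)))))) (.nd (nat_lit 7) (.nd (nat_lit 8) (.nd (nat_lit 9) 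
(.lf (nat_lit 548943) (.g (nat_lit 2357) (.e (nat_lit 294974) (nat_lit 29) (.e (nat_lit 442377) (nat_lit 0) (.e (nat_lit 2059) (nat_lit 142) (.e (nat_lit 704595) (nat_lit 5) (.e (nat_lit 180285) (nat_lit 45) (.e (nat_lit 2788) (nat_lit 179) .nil)))))) (.g (nat_lit 1) (.e (nat_lit 290803) (nat_lit 0) .nil) .nil))) 
(.lf (nat_lit 549455) (.g (nat_lit 236) (.e (nat_lit 409646) (nat_lit 18) (.e (nat_lit 303112) (nat_lit 0) (.e (nat_lit 3252) (nat_lit 197) .nil))) (.g (nat_lit 0) (.e (nat_lit 292765) (nat_lit 0) .nil) .nil)))) (.nd (nat_lit 9) 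
(.lf (nat_lit 549199) (.g (nat_lit 1447) (.e (nat_lit 409638) (nat_lit 15) (.e (nat_lit 278566) (nat_lit 16) (.e (nat_lit 286754) (nat_lit 10) (.e (nat_lit 344157) (nat_lit 36) (.e (nat_lit 638999) (nat_lit 8) (.e (nat_lit 172079) (nat_lit 7) .nil)))))) (.g (nat_lit 1) (.e (nat_lit 291721) (nat_lit 0) .nil) .nil))) 
(.lf (nat_lit 549711) (.g (nat_lit 2830) (.e (nat_lit 409649) (nat_lit 18) (.e (nat_lit 303111) (nat_lit 0) (.e (nat_lit 3238) (nat_lit 197) (.e (nat_lit 532535) (nat_lit 9) (.e (nat_lit 336173) (nat_lit 10) .nil))))) (.g (nat_lit 0) (.e (nat_lit 294005) (nat_lit 0) .nil) .nil))))) (.nd (nat_lit 8) (.nd (nat_lit 9) 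
(.lf (nat_lit 549071) (.g (nat_lit 1922) (.e (nat_lit 409615) (nat_lit 10) (.e (nat_lit 632) (nat_lit 50) (.e (nat_lit 573491) (nat_lit 15) (.e (nat_lit 81947) (nat_lit 20) (.e (nat_lit 2391) (nat_lit 156) .nil))))) (.g (nat_lit 0) (.e (nat_lit 291343) (nat_lit 0) .nil) .nil))) 
(.lf (nat_lit 549583) (.g (nat_lit 754) (.e (nat_lit 409647) (nat_lit 18) (.e (nat_lit 303119) (nat_lit 3) (.e (nat_lit 204850) (nat_lit 26) .nil))) (.g (nat_lit 0) (.e (nat_lit 293516) (nat_lit 0) .nil) .nil)))) (.nd (nat_lit 9) 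
(.lf (nat_lit 549327) (.g (nat_lit 1199) (.e (nat_lit 409644) (nat_lit 18) (.e (nat_lit 303117) (nat_lit 2) (.e (nat_lit 196681) (nat_lit 17) (.e (nat_lit 131109) (nat_lit 9) .nil)))) (.g (nat_lit 0) (.e (nat_lit 291963) (nat_lit 0) .nil) .nil))) 
(.lf (nat_lit 549839) (.g (nat_lit 2086) (.e (nat_lit 409649) (nat_lit 18) (.e (nat_lit 303146) (nat_lit 14) (.e (nat_lit 491560) (nat_lit 10) (.e (nat_lit 344160) (nat_lit 37) .nil)))) (.g (nat_lit 0) (.e (nat_lit 294492) (nat_lit 0) .nil) .nil))))))) (.nd (nat_lit 6) (.nd (nat_lit 7) (.nd (nat_lit 8) (.nd (nat_lit 9) 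
(.lf (nat_lit 548911) (.g (nat_lit 1524) (.e (nat_lit 294969) (nat_lit 27) (.e (nat_lit 426340) (nat_lit 14) (.e (nat_lit 491549) (nat_lit 9) (.e (nat_lit 336421) (nat_lit 28) (.e (nat_lit 434193) (nat_lit 13) .nil))))) (.g (nat_lit 0) (.e (nat_lit 290731) (nat_lit 0) .nil) .nil))) 
(.lf (nat_lit 549423) (.g (nat_lit 2182) (.e (nat_lit 409645) (nat_lit 18) (.e (nat_lit 303133) (nat_lit 9) (.e (nat_lit 426412) (nat_lit 15) (.e (nat_lit 2059) (nat_lit 142) (.e (nat_lit 704707) (nat_lit 9) .nil))))) (.g (nat_lit 0) (.e (nat_lit 292375) (nat_lit 0) .nil) .nil)))) (.nd (nat_lit 9) 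
(.lf (nat_lit 549167) (.g (nat_lit 985) (.e (nat_lit 409623) (nat_lit 10) (.e (nat_lit 5270) (nat_lit 298) (.e (nat_lit 396) (nat_lit 32) .nil))) (.g (nat_lit 0) (.e (nat_lit 291624) (nat_lit 0) .nil) .nil))) 
(.lf (nat_lit 549679) (.g (nat_lit 3388) (.e (nat_lit 409648) (nat_lit 18) (.e (nat_lit 303137) (nat_lit 10) (.e (nat_lit 434275) (nat_lit 39) (.e (nat_lit 663574) (nat_lit 9) (.e (nat_lit 2472) (nat_lit 157) (.e (nat_lit 3469) (nat_lit 217) (.e (nat_lit 696344) (nat_lit 8) (.e (nat_lit 172079) (nat_lit 7) .nil)))))))) (.g (nat_lit 1) (.e (nat_lit 293783) (nat_lit 0) .nil) .nil))))) 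
(.nd (nat_lit 8) (.nd (nat_lit 9) 
(.lf (nat_lit 549039) (.g (nat_lit 1543) (.e (nat_lit 409611) (nat_lit 10) (.e (nat_lit 632) (nat_lit 50) (.e (nat_lit 573482) (nat_lit 13) (.e (nat_lit 65620) (nat_lit 10) .nil)))) (.g (nat_lit 0) (.e (nat_lit 291209) (nat_lit 0) .nil) .nil))) 
(.lf (nat_lit 549551) (.g (nat_lit 3404) (.e (nat_lit 409647) (nat_lit 18) (.e (nat_lit 303116) (nat_lit 2) (.e (nat_lit 196674) (nat_lit 15) (.e (nat_lit 81953) (nat_lit 22) (.e (nat_lit 90130) (nat_lit 9) (.e (nat_lit 2830) (nat_lit 182) .nil)))))) (.g (nat_lit 1) (.e (nat_lit 293471) (nat_lit 0) .nil) .nil)))) (.nd (nat_lit 9) 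
(.lf (nat_lit 549295) (.g (nat_lit 2396) (.e (nat_lit 409643) (nat_lit 18) (.e (nat_lit 303143) (nat_lit 12) (.e (nat_lit 475199) (nat_lit 40) (.e (nat_lit 704815) (nat_lit 14) .nil)))) (.g (nat_lit 0) (.e (nat_lit 291841) (nat_lit 0) .nil) .nil))) 
(.lf (nat_lit 549807) (.g (nat_lit 2860) (.e (nat_lit 409649) (nat_lit 18) (.e (nat_lit 303140) (nat_lit 10) (.e (nat_lit 434275) (nat_lit 39) (.e (nat_lit 663580) (nat_lit 9) (.e (nat_lit 2416) (nat_lit 157) (.e (nat_lit 3467) (nat_lit 217) (.e (nat_lit 696344) (nat_lit 8) (.e (nat_lit 172081) (nat_lit 7) .nil)))))))) (.g (nat_lit 1) (.e (nat_lit 294279) (nat_lit 0) .nil) .nil)))))) 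
(.nd (nat_lit 7) (.nd (nat_lit 8) (.nd (nat_lit 9) 
(.lf (nat_lit 548975) (.g (nat_lit 1663) (.e (nat_lit 409602) (nat_lit 0) (.e (nat_lit 5293) (nat_lit 298) (.e (nat_lit 1656) (nat_lit 115) (.e (nat_lit 393269) (nat_lit 23) .nil)))) (.g (nat_lit 0) (.e (nat_lit 291100) (nat_lit 0) .nil) .nil))) 
(.lf (nat_lit 549487) (.g (nat_lit 2477) (.e (nat_lit 409646) (nat_lit 18) (.e (nat_lit 303118) (nat_lit 3) (.e (nat_lit 204865) (nat_lit 28) (.e (nat_lit 352315) (nat_lit 23) (.e (nat_lit 98350) (nat_lit 24) .nil))))) (.g (nat_lit 1) (.e (nat_lit 292844) (nat_lit 0) .nil) .nil)))) (.nd (nat_lit 9) 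
(.lf (nat_lit 549231) (.g (nat_lit 2429) (.e (nat_lit 409643) (nat_lit 18) (.e (nat_lit 303117) (nat_lit 2) (.e (nat_lit 196666) (nat_lit 13) (.e (nat_lit 65596) (nat_lit 9) .nil)))) (.g (nat_lit 0) (.e (nat_lit 291765) (nat_lit 0) .nil) .nil))) 
(.lf (nat_lit 549743) (.g (nat_lit 2501) (.e (nat_lit 409649) (nat_lit 18) (.e (nat_lit 303117) (nat_lit 2) (.e (nat_lit 196666) (nat_lit 13) (.e (nat_lit 65602) (nat_lit 9) .nil)))) (.g (nat_lit 0) (.e (nat_lit 294055) (nat_lit 0) .nil) .nil))))) (.nd (nat_lit 8) (.nd (nat_lit 9) 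
(.lf (nat_lit 549103) (.g (nat_lit 1407) (.e (nat_lit 409617) (nat_lit 10) (.e (nat_lit 604) (nat_lit 45) (.e (nat_lit 532501) (nat_lit 1) (.e (nat_lit 57852) (nat_lit 252) (.e (nat_lit 57409) (nat_lit 12) .nil))))) (.g (nat_lit 0) (.e (nat_lit 291428) (nat_lit 0) .nil) .nil))) 
(.lf (nat_lit 549615) (.g (nat_lit 5192) (.e (nat_lit 409648) (nat_lit 18) (.e (nat_lit 303116) (nat_lit 2) (.e (nat_lit 196674) (nat_lit 15) (.e (nat_lit 81953) (nat_lit 22) (.e (nat_lit 90130) (nat_lit 9) (.e (nat_lit 2830) (nat_lit 182) .nil)))))) (.g (nat_lit 1) (.e (nat_lit 293639) (nat_lit 0) .nil) .nil)))) (.nd (nat_lit 9) 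
(.lf (nat_lit 549359) (.g (nat_lit 2321) (.e (nat_lit 409644) (nat_lit 18) (.e (nat_lit 303143) (nat_lit 12) (.e (nat_lit 475199) (nat_lit 40) (.e (nat_lit 704787) (nat_lit 14) .nil)))) (.g (nat_lit 0) (.e (nat_lit 292009) (nat_lit 0) .nil) .nil))) 
(.lf (nat_lit 549871) (.g (nat_lit 1625) (.e (nat_lit 417536) (nat_lit 18) (.e (nat_lit 303118) (nat_lit 3) (.e (nat_lit 204855) (nat_lit 26) (.e (nat_lit 336163) (nat_lit 10) .nil)))) (.g (nat_lit 0) (.e (nat_lit 294535) (nat_lit 0) .nil) .nil)))))))) (.nd (nat_lit 5) (.nd (nat_lit 6) (.nd (nat_lit 7) (.nd (nat_lit 8) (.nd (nat_lit 9) 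
(.lf (nat_lit 548895) (.g (nat_lit 1807) (.e (nat_lit 294959) (nat_lit 13) (.e (nat_lit 393260) (nat_lit 21) (.e (nat_lit 409648) (nat_lit 18) (.e (nat_lit 303109) (nat_lit 0) (.e (nat_lit 2422) (nat_lit 157) .nil))))) (.g (nat_lit 0) (.e (nat_lit 290588) (nat_lit 0) .nil) .nil))) 
(.lf (nat_lit 549407) (.g (nat_lit 386) (.e (nat_lit 409645) (nat_lit 18) (.e (nat_lit 303119) (nat_lit 3) (.e (nat_lit 204859) (nat_lit 26) .nil))) (.g (nat_lit 0) (.e (nat_lit 292173) (nat_lit 0) .nil) .nil)))) (.nd (nat_lit 9) 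
(.lf (nat_lit 549151) (.g (nat_lit 3428) (.e (nat_lit 409618) (nat_lit 10) (.e (nat_lit 5363) (nat_lit 298) (.e (nat_lit 403) (nat_lit 32) (.e (nat_lit 426340) (nat_lit 14) (.e (nat_lit 491571) (nat_lit 13) (.e (nat_lit 393260) (nat_lit 21) .nil)))))) (.g (nat_lit 1) (.e (nat_lit 291568) (nat_lit 0) .nil) .nil))) 
(.lf (nat_lit 549663) (.g (nat_lit 2091) (.e (nat_lit 409648) (nat_lit 18) (.e (nat_lit 303119) (nat_lit 3) (.e (nat_lit 204861) (nat_lit 26) (.e (nat_lit 336184) (nat_lit 11) .nil)))) (.g (nat_lit 0) (.e (nat_lit 293708) (nat_lit 0) .nil) .nil))))) (.nd (nat_lit 8) (.nd (nat_lit 9) 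
(.lf (nat_lit 549023) (.g (nat_lit 2732) (.e (nat_lit 417536) (nat_lit 8) (.e (nat_lit 303119) (nat_lit 3) (.e (nat_lit 204846) (nat_lit 24) (.e (nat_lit 319504) (nat_lit 10) (.e (nat_lit 5395) (nat_lit 301) .nil))))) (.g (nat_lit 0) (.e (nat_lit 291178) (nat_lit 0) .nil) .nil))) 
(.lf (nat_lit 549535) (.g (nat_lit 2477) (.e (nat_lit 409646) (nat_lit 18) (.e (nat_lit 303143) (nat_lit 12) (.e (nat_lit 475199) (nat_lit 40) (.e (nat_lit 704775) (nat_lit 14) (.e (nat_lit 2587) (nat_lit 162) .nil))))) (.g (nat_lit 0) (.e (nat_lit 293274) (nat_lit 0) .nil) .nil)))) (.nd (nat_lit 9) 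
(.lf (nat_lit 549279) (.g (nat_lit 1239) (.e (nat_lit 409643) (nat_lit 18) (.e (nat_lit 303119) (nat_lit 3) (.e (nat_lit 204870) (nat_lit 29) (.e (nat_lit 360466) (nat_lit 3) .nil)))) (.g (nat_lit 0) (.e (nat_lit 291823) (nat_lit 0) .nil) .nil))) 
(.lf (nat_lit 549791) (.g (nat_lit 367) (.e (nat_lit 409649) (nat_lit 18) (.e (nat_lit 303140) (nat_lit 10) (.e (nat_lit 434202) (nat_lit 18) .nil))) (.g (nat_lit 0) (.e (nat_lit 294195) (nat_lit 0) .nil) .nil)))))) (.nd (nat_lit 7) (.nd (nat_lit 8) (.nd (nat_lit 9) 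
(.lf (nat_lit 548959) (.g (nat_lit 1610) (.e (nat_lit 409602) (nat_lit 0) (.e (nat_lit 5245) (nat_lit 298) (.e (nat_lit 1256) (nat_lit 92) (.e (nat_lit 98372) (nat_lit 29) (.e (nat_lit 450586) (nat_lit 10) (.e (nat_lit 573457) (nat_lit 9) (.e (nat_lit 359) (nat_lit 30) .nil))))))) (.g (nat_lit 1) (.e (nat_lit 291080) (nat_lit 0) .nil) .nil))) 
(.lf (nat_lit 549471) (.g (nat_lit 2016) (.e (nat_lit 409646) (nat_lit 18) (.e (nat_lit 303117) (nat_lit 2) (.e (nat_lit 196666) (nat_lit 13) (.e (nat_lit 65592) (nat_lit 9) .nil)))) (.g (nat_lit 0) (.e (nat_lit 292808) (nat_lit 0) .nil) .nil)))) (.nd (nat_lit 9) 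
(.lf (nat_lit 549215) (.g (nat_lit 720) (.e (nat_lit 409639) (nat_lit 15) (.e (nat_lit 278566) (nat_lit 16) (.e (nat_lit 286754) (nat_lit 10) (.e (nat_lit 344157) (nat_lit 36) (.e (nat_lit 638999) (nat_lit 8) .nil))))) (.g (nat_lit 0) (.e (nat_lit 291749) (nat_lit 0) .nil) .nil))) 
(.lf (nat_lit 549727) (.g (nat_lit 1321) (.e (nat_lit 409649) (nat_lit 18) (.e (nat_lit 303116) (nat_lit 2) (.e (nat_lit 196666) (nat_lit 13) (.e (nat_lit 65589) (nat_lit 9) .nil)))) (.g (nat_lit 0) (.e (nat_lit 294035) (nat_lit 0) .nil) .nil))))) (.nd (nat_lit 8) (.nd (nat_lit 9) 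
(.lf (nat_lit 549087) (.g (nat_lit 2856) (.e (nat_lit 409616) (nat_lit 10) (.e (nat_lit 632) (nat_lit 50) (.e (nat_lit 573489) (nat_lit 14) (.e (nat_lit 73755) (nat_lit 8) (.e (nat_lit 557105) (nat_lit 14) (.e (nat_lit 180252) (nat_lit 10) (.e (nat_lit 573442) (nat_lit 0) (.e (nat_lit 2822) (nat_lit 182) .nil)))))))) (.g (nat_lit 1) (.e (nat_lit 291378) (nat_lit 0) .nil) .nil))) 
(.lf (nat_lit 549599) (.g (nat_lit 2433) (.e (nat_lit 409647) (nat_lit 18) (.e (nat_lit 303143) (nat_lit 12) (.e (nat_lit 475199) (nat_lit 40) (.e (nat_lit 704791) (nat_lit 14) .nil)))) (.g (nat_lit 0) (.e (nat_lit 293545) (nat_lit 0) .nil) .nil)))) (.nd (nat_lit 9) 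
(.lf (nat_lit 549343) (.g (nat_lit 1565) (.e (nat_lit 409644) (nat_lit 18) (.e (nat_lit 303119) (nat_lit 3) (.e (nat_lit 204861) (nat_lit 26) (.e (nat_lit 336186) (nat_lit 11) .nil)))) (.g (nat_lit 0) (.e (nat_lit 291981) (nat_lit 0) .nil) .nil))) 
(.lf (nat_lit 549855) (.g (nat_lit 2599) (.e (nat_lit 417536) (nat_lit 18) (.e (nat_lit 303117) (nat_lit 2) (.e (nat_lit 196666) (nat_lit 13) (.e (nat_lit 65617) (nat_lit 10) .nil)))) (.g (nat_lit 0) (.e (nat_lit 294518) (nat_lit 0) .nil) .nil))))))) (.nd (nat_lit 6) (.nd (nat_lit 7) (.nd (nat_lit 8) (.nd (nat_lit 9) 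
(.lf (nat_lit 548927) (.g (nat_lit 2193) (.e (nat_lit 294973) (nat_lit 28) (.e (nat_lit 434180) (nat_lit 0) (.e (nat_lit 1427) (nat_lit 108) (.e (nat_lit 336421) (nat_lit 28) (.e (nat_lit 434189) (nat_lit 13) (.e (nat_lit 2788) (nat_lit 179) .nil)))))) (.g (nat_lit 1) (.e (nat_lit 290776) (nat_lit 0) .nil) .nil))) 
(.lf (nat_lit 549439) (.g (nat_lit 2528) (.e (nat_lit 409645) (nat_lit 18) (.e (nat_lit 303143) (nat_lit 12) (.e (nat_lit 475199) (nat_lit 40) (.e (nat_lit 704619) (nat_lit 9) .nil)))) (.g (nat_lit 0) (.e (nat_lit 292517) (nat_lit 0) .nil) .nil)))) (.nd (nat_lit 9) 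
(.lf (nat_lit 549183) (.g (nat_lit 1883) (.e (nat_lit 409631) (nat_lit 12) (.e (nat_lit 32807) (nat_lit 18) (.e (nat_lit 172120) (nat_lit 12) (.e (nat_lit 475185) (nat_lit 29) (.e (nat_lit 557098) (nat_lit 13) .nil))))) (.g (nat_lit 0) (.e (nat_lit 291679) (nat_lit 0) .nil) .nil))) 
(.lf (nat_lit 549695) (.g (nat_lit 2715) (.e (nat_lit 409648) (nat_lit 18) (.e (nat_lit 303142) (nat_lit 12) (.e (nat_lit 475220) (nat_lit 44) (.e (nat_lit 737318) (nat_lit 15) (.e (nat_lit 49189) (nat_lit 11) (.e (nat_lit 16425) (nat_lit 7) .nil)))))) (.g (nat_lit 1) (.e (nat_lit 293899) (nat_lit 0) .nil) .nil))))) (.nd (nat_lit 8) (.nd (nat_lit 9) 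
(.lf (nat_lit 549055) (.g (nat_lit 2697) (.e (nat_lit 409612) (nat_lit 10) (.e (nat_lit 632) (nat_lit 50) (.e (nat_lit 573489) (nat_lit 14) (.e (nat_lit 73755) (nat_lit 8) (.e (nat_lit 557105) (nat_lit 14) (.e (nat_lit 180252) (nat_lit 10) (.e (nat_lit 581376) (nat_lit 0) (.e (nat_lit 2822) (nat_lit 182) .nil)))))))) (.g (nat_lit 1) (.e (nat_lit 291282) (nat_lit 0) .nil) .nil))) 
(.lf (nat_lit 549567) (.g (nat_lit 3062) (.e (nat_lit 409647) (nat_lit 18) (.e (nat_lit 303117) (nat_lit 2) (.e (nat_lit 196673) (nat_lit 15) (.e (nat_lit 81953) (nat_lit 22) (.e (nat_lit 90130) (nat_lit 9) .nil))))) (.g (nat_lit 0) (.e (nat_lit 293488) (nat_lit 0) .nil) .nil)))) (.nd (nat_lit 9) 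
(.lf (nat_lit 549311) (.g (nat_lit 1644) (.e (nat_lit 409644) (nat_lit 18) (.e (nat_lit 303117) (nat_lit 2) (.e (nat_lit 196666) (nat_lit 13) (.e (nat_lit 73472) (nat_lit 9) .nil)))) (.g (nat_lit 0) (.e (nat_lit 291947) (nat_lit 0) .nil) .nil))) 
(.lf (nat_lit 549823) (.g (nat_lit 2472) (.e (nat_lit 409649) (nat_lit 18) (.e (nat_lit 303143) (nat_lit 12) (.e (nat_lit 475199) (nat_lit 40) (.e (nat_lit 704793) (nat_lit 14) .nil)))) (.g (nat_lit 0) (.e (nat_lit 294373) (nat_lit 0) .nil) .nil)))))) (.nd (nat_lit 7) (.nd (nat_lit 8) (.nd (nat_lit 9) 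
(.lf (nat_lit 548991) (.g (nat_lit 1934) (.e (nat_lit 409603) (nat_lit 0) (.e (nat_lit 5664) (nat_lit 312) (.e (nat_lit 2679) (nat_lit 168) (.e (nat_lit 204846) (nat_lit 24) (.e (nat_lit 319511) (nat_lit 10) .nil))))) (.g (nat_lit 0) (.e (nat_lit 291118) (nat_lit 0) .nil) .nil))) 
(.lf (nat_lit 549503) (.g (nat_lit 2070) (.e (nat_lit 409646) (nat_lit 18) (.e (nat_lit 303133) (nat_lit 9) (.e (nat_lit 426158) (nat_lit 6) (.e (nat_lit 253990) (nat_lit 11) (.e (nat_lit 16473) (nat_lit 14) (.e (nat_lit 499456) (nat_lit 25) .nil)))))) (.g (nat_lit 1) (.e (nat_lit 293016) (nat_lit 0) .nil) .nil)))) (.nd (nat_lit 9) 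
(.lf (nat_lit 549247) (.g (nat_lit 1360) (.e (nat_lit 409643) (nat_lit 18) (.e (nat_lit 303117) (nat_lit 2) (.e (nat_lit 196674) (nat_lit 15) (.e (nat_lit 89856) (nat_lit 23) .nil)))) (.g (nat_lit 0) (.e (nat_lit 291781) (nat_lit 0) .nil) .nil))) 
(.lf (nat_lit 549759) (.g (nat_lit 1796) (.e (nat_lit 409649) (nat_lit 18) (.e (nat_lit 303117) (nat_lit 2) (.e (nat_lit 196674) (nat_lit 15) (.e (nat_lit 89856) (nat_lit 23) .nil)))) (.g (nat_lit 0) (.e (nat_lit 294074) (nat_lit 0) .nil) .nil))))) (.nd (nat_lit 8) (.nd (nat_lit 9) 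
(.lf (nat_lit 549119) (.g (nat_lit 2358) (.e (nat_lit 409617) (nat_lit 10) (.e (nat_lit 632) (nat_lit 50) (.e (nat_lit 573489) (nat_lit 14) (.e (nat_lit 73755) (nat_lit 8) (.e (nat_lit 557103) (nat_lit 14) .nil))))) (.g (nat_lit 0) (.e (nat_lit 291464) (nat_lit 0) .nil) .nil))) 
(.lf (nat_lit 549631) (.g (nat_lit 3330) (.e (nat_lit 409648) (nat_lit 18) (.e (nat_lit 303117) (nat_lit 2) (.e (nat_lit 196666) (nat_lit 13) (.e (nat_lit 65619) (nat_lit 10) (.e (nat_lit 344119) (nat_lit 21) .nil))))) (.g (nat_lit 0) (.e (nat_lit 293660) (nat_lit 0) .nil) .nil)))) (.nd (nat_lit 9) 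
(.lf (nat_lit 549375) (.g (nat_lit 2821) (.e (nat_lit 409645) (nat_lit 18) (.e (nat_lit 303117) (nat_lit 2) (.e (nat_lit 196624) (nat_lit 9) (.e (nat_lit 1615) (nat_lit 113) (.e (nat_lit 376865) (nat_lit 22) (.e (nat_lit 90131) (nat_lit 9) (.e (nat_lit 2824) (nat_lit 182) .nil))))))) (.g (nat_lit 1) (.e (nat_lit 292082) (nat_lit 0) .nil) .nil))) 
(.lf (nat_lit 549887) (.g (nat_lit 1946) (.e (nat_lit 417536) (nat_lit 18) (.e (nat_lit 303119) (nat_lit 3) (.e (nat_lit 204855) (nat_lit 26) (.e (nat_lit 336163) (nat_lit 10) .nil)))) (.g (nat_lit 0) (.e (nat_lit 294563) (nat_lit 0) .nil) .nil)))))))))))))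

noncomputable def tv5597 : DT := (.nd (nat_lit 0) (.nd (nat_lit 1) (.nd (nat_lit 2) (.nd (nat_lit 3) (.nd (nat_lit 4) (.nd (nat_lit 5) (.nd (nat_lit 6) (.nd (nat_lit 7) (.nd (nat_lit 8) (.nd (nat_lit 9) 
(.lf (nat_lit 549888) (.g (nat_lit 1921) (.e (nat_lit 417536) (nat_lit 18) (.e (nat_lit 303119) (nat_lit 3) (.e (nat_lit 204855) (nat_lit 26) (.e (nat_lit 336173) (nat_lit 10) .nil)))) (.g (nat_lit 0) (.e (nat_lit 294566) (nat_lit 0) .nil) .nil))) 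
(.lf (nat_lit 550400) (.g (nat_lit 1501) (.e (nat_lit 426098) (nat_lit 1) (.e (nat_lit 164325) (nat_lit 230) (.e (nat_lit 163871) (nat_lit 2) (.e (nat_lit 196656) (nat_lit 11) (.e (nat_lit 16432) (nat_lit 9) .nil))))) (.g (nat_lit 0) (.e (nat_lit 295699) (nat_lit 0) .nil) .nil)))) (.nd (nat_lit 9) 
(.lf (nat_lit 550144) (.g (nat_lit 2079) (.e (nat_lit 426010) (nat_lit 0) (.e (nat_lit 7587) (nat_lit 406) (.e (nat_lit 65653) (nat_lit 27) (.e (nat_lit 426344) (nat_lit 14) (.e (nat_lit 491552) (nat_lit 9) (.e (nat_lit 336412) (nat_lit 27) .nil)))))) (.g (nat_lit 1) (.e (nat_lit 295198) (nat_lit 0) .nil) .nil))) 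
(.lf (nat_lit 550656) (.g (nat_lit 1678) (.e (nat_lit 426098) (nat_lit 1) (.e (nat_lit 164403) (nat_lit 256) (.e (nat_lit 57406) (nat_lit 12) (.e (nat_lit 336444) (nat_lit 32) (.e (nat_lit 466981) (nat_lit 23) .nil))))) (.g (nat_lit 0) (.e (nat_lit 296073) (nat_lit 0) .nil) .nil))))) (.nd (nat_lit 8) (.nd (nat_lit 9) 
(.lf (nat_lit 550016) (.g (nat_lit 573) (.e (nat_lit 417828) (nat_lit 18) (.e (nat_lit 303112) (nat_lit 0) (.e (nat_lit 3252) (nat_lit 197) .nil))) (.g (nat_lit 0) (.e (nat_lit 294914) (nat_lit 0) .nil) .nil))) 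
(.lf (nat_lit 550528) (.g (nat_lit 2622) (.e (nat_lit 426098) (nat_lit 1) (.e (nat_lit 164327) (nat_lit 230) (.e (nat_lit 163873) (nat_lit 3) (.e (nat_lit 204813) (nat_lit 9) (.e (nat_lit 426200) (nat_lit 9) (.e (nat_lit 426481) (nat_lit 27) (.e (nat_lit 336386) (nat_lit 27) .nil))))))) (.g (nat_lit 1) (.e (nat_lit 295884) (nat_lit 0) .nil) .nil)))) (.nd (nat_lit 9) 
(.lf (nat_lit 550272) (.g (nat_lit 2503) (.e (nat_lit 426032) (nat_lit 0) (.e (nat_lit 3262) (nat_lit 198) (.e (nat_lit 540706) (nat_lit 12) (.e (nat_lit 360475) (nat_lit 8) (.e (nat_lit 557090) (nat_lit 12) (.e (nat_lit 164020) (nat_lit 45) (.e (nat_lit 696328) (nat_lit 5) (.e (nat_lit 2873) (nat_lit 184) .nil)))))))) (.g (nat_lit 1) (.e (nat_lit 295370) (nat_lit 0) .nil) .nil))) 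
(.lf (nat_lit 550784) (.g (nat_lit 2580) (.e (nat_lit 426100) (nat_lit 1) (.e (nat_lit 164330) (nat_lit 230) (.e (nat_lit 163867) (nat_lit 2) (.e (nat_lit 196656) (nat_lit 11) (.e (nat_lit 16463) (nat_lit 13) (.e (nat_lit 483341) (nat_lit 9) .nil)))))) (.g (nat_lit 1) (.e (nat_lit 296235) (nat_lit 0) .nil) .nil)))))) (.nd (nat_lit 7) (.nd (nat_lit 8) (.nd (nat_lit 9) 
(.lf (nat_lit 549952) (.g (nat_lit 325) (.e (nat_lit 417813) (nat_lit 9) (.e (nat_lit 311315) (nat_lit 3) (.e (nat_lit 204846) (nat_lit 24) .nil))) (.g (nat_lit 0) (.e (nat_lit 294793) (nat_lit 0) .nil) .nil))) 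
(.lf (nat_lit 550464) (.g (nat_lit 2881) (.e (nat_lit 426098) (nat_lit 1) (.e (nat_lit 164327) (nat_lit 230) (.e (nat_lit 163868) (nat_lit 2) (.e (nat_lit 196654) (nat_lit 11) (.e (nat_lit 16466) (nat_lit 13) (.e (nat_lit 483336) (nat_lit 9) .nil)))))) (.g (nat_lit 1) (.e (nat_lit 295798) (nat_lit 0) .nil) .nil)))) (.nd (nat_lit 9) 
(.lf (nat_lit 550208) (.g (nat_lit 2032) (.e (nat_lit 426012) (nat_lit 0) (.e (nat_lit 7583) (nat_lit 405) (.e (nat_lit 57476) (nat_lit 28) (.e (nat_lit 557067) (nat_lit 9) (.e (nat_lit 2975) (nat_lit 185) .nil))))) (.g (nat_lit 0) (.e (nat_lit 295265) (nat_lit 0) .nil) .nil))) 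
(.lf (nat_lit 550720) (.g (nat_lit 1411) (.e (nat_lit 426099) (nat_lit 1) (.e (nat_lit 164398) (nat_lit 256) (.e (nat_lit 57406) (nat_lit 12) (.e (nat_lit 336443) (nat_lit 32) .nil)))) (.g (nat_lit 0) (.e (nat_lit 296158) (nat_lit 0) .nil) .nil))))) (.nd (nat_lit 8) (.nd (nat_lit 9) 
(.lf (nat_lit 550080) (.g (nat_lit 2899) (.e (nat_lit 425989) (nat_lit 0) (.e (nat_lit 7489) (nat_lit 402) (.e (nat_lit 1239) (nat_lit 91) (.e (nat_lit 90170) (nat_lit 13) (.e (nat_lit 172113) (nat_lit 10) (.e (nat_lit 434247) (nat_lit 28) (.e (nat_lit 573457) (nat_lit 9) (.e (nat_lit 7936) (nat_lit 32) .nil)))))))) (.g (nat_lit 1) (.e (nat_lit 295112) (nat_lit 0) .nil) .nil))) 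
(.lf (nat_lit 550592) (.g (nat_lit 1297) (.e (nat_lit 426098) (nat_lit 1) (.e (nat_lit 164398) (nat_lit 256) (.e (nat_lit 57406) (nat_lit 12) (.e (nat_lit 336434) (nat_lit 30) .nil)))) (.g (nat_lit 0) (.e (nat_lit 296009) (nat_lit 0) .nil) .nil)))) (.nd (nat_lit 9) 
(.lf (nat_lit 550336) (.g (nat_lit 1390) (.e (nat_lit 426097) (nat_lit 1) (.e (nat_lit 164327) (nat_lit 230) (.e (nat_lit 163881) (nat_lit 4) (.e (nat_lit 213030) (nat_lit 11) (.e (nat_lit 24659) (nat_lit 13) .nil))))) (.g (nat_lit 0) (.e (nat_lit 295547) (nat_lit 0) .nil) .nil))) 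
(.lf (nat_lit 550848) (.g (nat_lit 1406) (.e (nat_lit 426100) (nat_lit 1) (.e (nat_lit 164398) (nat_lit 256) (.e (nat_lit 57375) (nat_lit 2) (.e (nat_lit 90169) (nat_lit 13) .nil)))) (.g (nat_lit 0) (.e (nat_lit 296385) (nat_lit 0) .nil) .nil))))))) (.nd (nat_lit 6) (.nd (nat_lit 7) (.nd (nat_lit 8) (.nd (nat_lit 9) 
(.lf (nat_lit 549920) (.g (nat_lit 1335) (.e (nat_lit 417536) (nat_lit 16) (.e (nat_lit 286733) (nat_lit 2) (.e (nat_lit 90133) (nat_lit 9) (.e (nat_lit 2400) (nat_lit 157) (.e (nat_lit 7590) (nat_lit 407) .nil))))) (.g (nat_lit 0) (.e (nat_lit 294723) (nat_lit 0) .nil) .nil))) 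
(.lf (nat_lit 550432) (.g (nat_lit 3953) (.e (nat_lit 426098) (nat_lit 1) (.e (nat_lit 164325) (nat_lit 230) (.e (nat_lit 163873) (nat_lit 3) (.e (nat_lit 204813) (nat_lit 9) (.e (nat_lit 426199) (nat_lit 9) (.e (nat_lit 426509) (nat_lit 27) (.e (nat_lit 336412) (nat_lit 27) .nil))))))) (.g (nat_lit 1) (.e (nat_lit 295738) (nat_lit 0) .nil) .nil)))) (.nd (nat_lit 9) 
(.lf (nat_lit 550176) (.g (nat_lit 4810) (.e (nat_lit 426011) (nat_lit 0) (.e (nat_lit 7581) (nat_lit 405) (.e (nat_lit 57464) (nat_lit 23) (.e (nat_lit 516151) (nat_lit 9) (.e (nat_lit 426286) (nat_lit 10) (.e (nat_lit 434247) (nat_lit 28) (.e (nat_lit 573456) (nat_lit 9) (.e (nat_lit 430) (nat_lit 32) .nil)))))))) (.g (nat_lit 1) (.e (nat_lit 295230) (nat_lit 0) .nil) .nil))) 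
(.lf (nat_lit 550688) (.g (nat_lit 2518) (.e (nat_lit 426099) (nat_lit 1) (.e (nat_lit 164332) (nat_lit 230) (.e (nat_lit 163874) (nat_lit 3) (.e (nat_lit 204830) (nat_lit 18) (.e (nat_lit 57909) (nat_lit 278) .nil))))) (.g (nat_lit 0) (.e (nat_lit 296126) (nat_lit 0) .nil) .nil))))) (.nd (nat_lit 8) (.nd (nat_lit 9) 
(.lf (nat_lit 550048) (.g (nat_lit 1393) (.e (nat_lit 417829) (nat_lit 18) (.e (nat_lit 303118) (nat_lit 3) (.e (nat_lit 204868) (nat_lit 29) (.e (nat_lit 360466) (nat_lit 3) .nil)))) (.g (nat_lit 0) (.e (nat_lit 294996) (nat_lit 0) .nil) .nil))) 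
(.lf (nat_lit 550560) (.g (nat_lit 2496) (.e (nat_lit 426098) (nat_lit 1) (.e (nat_lit 164327) (nat_lit 230) (.e (nat_lit 163879) (nat_lit 4) (.e (nat_lit 213032) (nat_lit 11) (.e (nat_lit 24655) (nat_lit 13) (.e (nat_lit 393281) (nat_lit 23) .nil)))))) (.g (nat_lit 1) (.e (nat_lit 295946) (nat_lit 0) .nil) .nil)))) (.nd (nat_lit 9) 
(.lf (nat_lit 550304) (.g (nat_lit 5439) (.e (nat_lit 426047) (nat_lit 0) (.e (nat_lit 3366) (nat_lit 208) (.e (nat_lit 622627) (nat_lit 13) (.e (nat_lit 2666) (nat_lit 167) (.e (nat_lit 196666) (nat_lit 13) (.e (nat_lit 65610) (nat_lit 10) (.e (nat_lit 344117) (nat_lit 21) (.e (nat_lit 516151) (nat_lit 9) .nil)))))))) (.g (nat_lit 1) (.e (nat_lit 295448) (nat_lit 0) .nil) .nil))) 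
(.lf (nat_lit 550816) (.g (nat_lit 3801) (.e (nat_lit 426100) (nat_lit 1) (.e (nat_lit 164332) (nat_lit 230) (.e (nat_lit 163869) (nat_lit 2) (.e (nat_lit 196656) (nat_lit 11) (.e (nat_lit 16466) (nat_lit 13) (.e (nat_lit 483337) (nat_lit 9) .nil)))))) (.g (nat_lit 1) (.e (nat_lit 296332) (nat_lit 0) .nil) .nil)))))) (.nd (nat_lit 7) (.nd (nat_lit 8) (.nd (nat_lit 9) 
(.lf (nat_lit 549984) (.g (nat_lit 2660) (.e (nat_lit 417810) (nat_lit 6) (.e (nat_lit 286735) (nat_lit 3) (.e (nat_lit 98373) (nat_lit 29) (.e (nat_lit 450587) (nat_lit 10) (.e (nat_lit 573454) (nat_lit 9) .nil))))) (.g (nat_lit 0) (.e (nat_lit 294834) (nat_lit 0) .nil) .nil))) 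
(.lf (nat_lit 550496) (.g (nat_lit 2601) (.e (nat_lit 426098) (nat_lit 1) (.e (nat_lit 164327) (nat_lit 230) (.e (nat_lit 163871) (nat_lit 2) (.e (nat_lit 196656) (nat_lit 11) (.e (nat_lit 16436) (nat_lit 9) .nil))))) (.g (nat_lit 0) (.e (nat_lit 295845) (nat_lit 0) .nil) .nil)))) (.nd (nat_lit 9) 
(.lf (nat_lit 550240) (.g (nat_lit 2602) (.e (nat_lit 426025) (nat_lit 0) (.e (nat_lit 3397) (nat_lit 211) (.e (nat_lit 647183) (nat_lit 4) (.e (nat_lit 172126) (nat_lit 14) (.e (nat_lit 491570) (nat_lit 13) (.e (nat_lit 393277) (nat_lit 23) .nil)))))) (.g (nat_lit 1) (.e (nat_lit 295319) (nat_lit 0) .nil) .nil))) 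
(.lf (nat_lit 550752) (.g (nat_lit 1540) (.e (nat_lit 426099) (nat_lit 1) (.e (nat_lit 164399) (nat_lit 256) (.e (nat_lit 57378) (nat_lit 3) (.e (nat_lit 98359) (nat_lit 26) .nil)))) (.g (nat_lit 0) (.e (nat_lit 296190) (nat_lit 0) .nil) .nil))))) (.nd (nat_lit 8) (.nd (nat_lit 9) 
(.lf (nat_lit 550112) (.g (nat_lit 1433) (.e (nat_lit 426009) (nat_lit 0) (.e (nat_lit 7593) (nat_lit 407) (.e (nat_lit 73775) (nat_lit 26) (.e (nat_lit 778466) (nat_lit 11) (.e (nat_lit 24632) (nat_lit 9) .nil))))) (.g (nat_lit 0) (.e (nat_lit 295166) (nat_lit 0) .nil) .nil))) 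
(.lf (nat_lit 550624) (.g (nat_lit 1817) (.e (nat_lit 426098) (nat_lit 1) (.e (nat_lit 164399) (nat_lit 256) (.e (nat_lit 57378) (nat_lit 3) (.e (nat_lit 98370) (nat_lit 28) (.e (nat_lit 442389) (nat_lit 11) .nil))))) (.g (nat_lit 0) (.e (nat_lit 296041) (nat_lit 0) .nil) .nil)))) (.nd (nat_lit 9) 
(.lf (nat_lit 550368) (.g (nat_lit 1555) (.e (nat_lit 426098) (nat_lit 1) (.e (nat_lit 164182) (nat_lit 154) (.e (nat_lit 57411) (nat_lit 12) (.e (nat_lit 336322) (nat_lit 18) .nil)))) (.g (nat_lit 0) (.e (nat_lit 295605) (nat_lit 0) .nil) .nil))) 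
(.lf (nat_lit 550880) (.g (nat_lit 1606) (.e (nat_lit 426100) (nat_lit 1) (.e (nat_lit 164399) (nat_lit 256) (.e (nat_lit 57372) (nat_lit 2) (.e (nat_lit 90178) (nat_lit 15) (.e (nat_lit 196352) (nat_lit 11) .nil))))) (.g (nat_lit 0) (.e (nat_lit 296418) (nat_lit 0) .nil) .nil)))))))) (.nd (nat_lit 5) (.nd (nat_lit 6) (.nd (nat_lit 7) (.nd (nat_lit 8) (.nd (nat_lit 9) 
(.lf (nat_lit 549904) (.g (nat_lit 1422) (.e (nat_lit 417536) (nat_lit 18) (.e (nat_lit 303119) (nat_lit 3) (.e (nat_lit 204876) (nat_lit 31) (.e (nat_lit 384768) (nat_lit 23) .nil)))) (.g (nat_lit 0) (.e (nat_lit 294597) (nat_lit 0) .nil) .nil))) 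
(.lf (nat_lit 550416) (.g (nat_lit 3590) (.e (nat_lit 426098) (nat_lit 1) (.e (nat_lit 164325) (nat_lit 230) (.e (nat_lit 163873) (nat_lit 3) (.e (nat_lit 204813) (nat_lit 9) (.e (nat_lit 426197) (nat_lit 9) (.e (nat_lit 426489) (nat_lit 27) (.e (nat_lit 336407) (nat_lit 27) .nil))))))) (.g (nat_lit 1) (.e (nat_lit 295721) (nat_lit 0) .nil) .nil)))) (.nd (nat_lit 9) 
(.lf (nat_lit 550160) (.g (nat_lit 2574) (.e (nat_lit 426011) (nat_lit 0) (.e (nat_lit 7490) (nat_lit 402) (.e (nat_lit 1239) (nat_lit 91) (.e (nat_lit 90170) (nat_lit 13) (.e (nat_lit 172113) (nat_lit 10) (.e (nat_lit 434245) (nat_lit 28) (.e (nat_lit 573451) (nat_lit 9) (.e (nat_lit 396) (nat_lit 32) .nil)))))))) (.g (nat_lit 1) (.e (nat_lit 295214) (nat_lit 0) .nil) .nil))) 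
(.lf (nat_lit 550672) (.g (nat_lit 1661) (.e (nat_lit 426099) (nat_lit 1) (.e (nat_lit 164332) (nat_lit 230) (.e (nat_lit 163843) (nat_lit 0) (.e (nat_lit 3657) (nat_lit 227) (.e (nat_lit 778462) (nat_lit 11) .nil))))) (.g (nat_lit 0) (.e (nat_lit 296101) (nat_lit 0) .nil) .nil))))) (.nd (nat_lit 8) (.nd (nat_lit 9) 
(.lf (nat_lit 550032) (.g (nat_lit 2948) (.e (nat_lit 417828) (nat_lit 18) (.e (nat_lit 303145) (nat_lit 13) (.e (nat_lit 483346) (nat_lit 17) (.e (nat_lit 971) (nat_lit 81) .nil)))) (.g (nat_lit 0) (.e (nat_lit 294946) (nat_lit 0) .nil) .nil))) 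
(.lf (nat_lit 550544) (.g (nat_lit 2244) (.e (nat_lit 426098) (nat_lit 1) (.e (nat_lit 164327) (nat_lit 230) (.e (nat_lit 163875) (nat_lit 3) (.e (nat_lit 204813) (nat_lit 9) (.e (nat_lit 426198) (nat_lit 9) (.e (nat_lit 426489) (nat_lit 27) (.e (nat_lit 336409) (nat_lit 27) .nil))))))) (.g (nat_lit 1) (.e (nat_lit 295917) (nat_lit 0) .nil) .nil)))) (.nd (nat_lit 9) 
(.lf (nat_lit 550288) (.g (nat_lit 2287) (.e (nat_lit 426042) (nat_lit 0) (.e (nat_lit 3307) (nat_lit 202) (.e (nat_lit 573489) (nat_lit 14) (.e (nat_lit 73757) (nat_lit 11) (.e (nat_lit 581636) (nat_lit 0) .nil))))) (.g (nat_lit 0) (.e (nat_lit 295402) (nat_lit 0) .nil) .nil))) 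
(.lf (nat_lit 550800) (.g (nat_lit 2497) (.e (nat_lit 426100) (nat_lit 1) (.e (nat_lit 164332) (nat_lit 230) (.e (nat_lit 163867) (nat_lit 2) (.e (nat_lit 196656) (nat_lit 11) (.e (nat_lit 16466) (nat_lit 13) (.e (nat_lit 491264) (nat_lit 9) .nil)))))) (.g (nat_lit 1) (.e (nat_lit 296281) (nat_lit 0) .nil) .nil)))))) (.nd (nat_lit 7) (.nd (nat_lit 8) (.nd (nat_lit 9) 
(.lf (nat_lit 549968) (.g (nat_lit 4138) (.e (nat_lit 417809) (nat_lit 6) (.e (nat_lit 286761) (nat_lit 13) (.e (nat_lit 393301) (nat_lit 27) (.e (nat_lit 491532) (nat_lit 1) .nil)))) (.g (nat_lit 0) (.e (nat_lit 294818) (nat_lit 0) .nil) .nil))) 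
(.lf (nat_lit 550480) (.g (nat_lit 1369) (.e (nat_lit 426098) (nat_lit 1) (.e (nat_lit 164327) (nat_lit 230) (.e (nat_lit 163871) (nat_lit 2) (.e (nat_lit 196654) (nat_lit 11) (.e (nat_lit 16433) (nat_lit 9) .nil))))) (.g (nat_lit 0) (.e (nat_lit 295826) (nat_lit 0) .nil) .nil)))) (.nd (nat_lit 9) 
(.lf (nat_lit 550224) (.g (nat_lit 3614) (.e (nat_lit 426025) (nat_lit 0) (.e (nat_lit 3397) (nat_lit 211) (.e (nat_lit 647181) (nat_lit 3) (.e (nat_lit 163977) (nat_lit 30) (.e (nat_lit 573491) (nat_lit 15) (.e (nat_lit 81954) (nat_lit 23) (.e (nat_lit 98362) (nat_lit 26) .nil))))))) (.g (nat_lit 1) (.e (nat_lit 295299) (nat_lit 0) .nil) .nil))) 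
(.lf (nat_lit 550736) (.g (nat_lit 1937) (.e (nat_lit 426099) (nat_lit 1) (.e (nat_lit 164399) (nat_lit 256) (.e (nat_lit 57373) (nat_lit 2) (.e (nat_lit 90176) (nat_lit 15) (.e (nat_lit 188423) (nat_lit 11) .nil))))) (.g (nat_lit 0) (.e (nat_lit 296174) (nat_lit 0) .nil) .nil))))) (.nd (nat_lit 8) (.nd (nat_lit 9) 
(.lf (nat_lit 550096) (.g (nat_lit 2509) (.e (nat_lit 426003) (nat_lit 0) (.e (nat_lit 3297) (nat_lit 202) (.e (nat_lit 573450) (nat_lit 9) (.e (nat_lit 375) (nat_lit 32) (.e (nat_lit 426173) (nat_lit 7) (.e (nat_lit 409617) (nat_lit 10) (.e (nat_lit 7936) (nat_lit 43) (.e (nat_lit 516151) (nat_lit 9) (.e (nat_lit 426211) (nat_lit 9) .nil))))))))) (.g (nat_lit 1) (.e (nat_lit 295143) (nat_lit 0) .nil) .nil))) 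
(.lf (nat_lit 550608) (.g (nat_lit 1475) (.e (nat_lit 426098) (nat_lit 1) (.e (nat_lit 164399) (nat_lit 256) (.e (nat_lit 57375) (nat_lit 2) (.e (nat_lit 90178) (nat_lit 15) (.e (nat_lit 188421) (nat_lit 11) .nil))))) (.g (nat_lit 0) (.e (nat_lit 296025) (nat_lit 0) .nil) .nil)))) (.nd (nat_lit 9) 
(.lf (nat_lit 550352) (.g (nat_lit 1584) (.e (nat_lit 426098) (nat_lit 1) (.e (nat_lit 164179) (nat_lit 154) (.e (nat_lit 57409) (nat_lit 12) (.e (nat_lit 336315) (nat_lit 17) (.e (nat_lit 196672) (nat_lit 15) .nil))))) (.g (nat_lit 0) (.e (nat_lit 295585) (nat_lit 0) .nil) .nil))) 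
(.lf (nat_lit 550864) (.g (nat_lit 1877) (.e (nat_lit 426100) (nat_lit 1) (.e (nat_lit 164398) (nat_lit 256) (.e (nat_lit 57406) (nat_lit 12) (.e (nat_lit 336426) (nat_lit 29) (.e (nat_lit 442427) (nat_lit 23) .nil))))) (.g (nat_lit 0) (.e (nat_lit 296401) (nat_lit 0) .nil) .nil))))))) (.nd (nat_lit 6) (.nd (nat_lit 7) (.nd (nat_lit 8) (.nd (nat_lit 9) 
(.lf (nat_lit 549936) (.g (nat_lit 4477) (.e (nat_lit 417794) (nat_lit 0) (.e (nat_lit 5271) (nat_lit 298) (.e (nat_lit 1239) (nat_lit 91) (.e (nat_lit 90170) (nat_lit 13) (.e (nat_lit 172106) (nat_lit 10) (.e (nat_lit 434244) (nat_lit 28) (.e (nat_lit 573451) (nat_lit 9) (.e (nat_lit 365) (nat_lit 31) .nil)))))))) (.g (nat_lit 1) (.e (nat_lit 294767) (nat_lit 0) .nil) .nil))) 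
(.lf (nat_lit 550448) (.g (nat_lit 1593) (.e (nat_lit 426098) (nat_lit 1) (.e (nat_lit 164325) (nat_lit 230) (.e (nat_lit 163875) (nat_lit 3) (.e (nat_lit 204809) (nat_lit 9) (.e (nat_lit 426213) (nat_lit 9) .nil))))) (.g (nat_lit 0) (.e (nat_lit 295769) (nat_lit 0) .nil) .nil)))) (.nd (nat_lit 9) 
(.lf (nat_lit 550192) (.g (nat_lit 2599) (.e (nat_lit 426011) (nat_lit 0) (.e (nat_lit 7593) (nat_lit 407) (.e (nat_lit 73729) (nat_lit 0) (.e (nat_lit 7265) (nat_lit 384) (.e (nat_lit 57406) (nat_lit 12) (.e (nat_lit 336120) (nat_lit 9) (.e (nat_lit 336409) (nat_lit 27) .nil))))))) (.g (nat_lit 1) (.e (nat_lit 295248) (nat_lit 0) .nil) .nil))) 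
(.lf (nat_lit 550704) (.g (nat_lit 1912) (.e (nat_lit 426099) (nat_lit 1) (.e (nat_lit 164398) (nat_lit 256) (.e (nat_lit 57372) (nat_lit 2) (.e (nat_lit 90176) (nat_lit 15) (.e (nat_lit 188423) (nat_lit 11) .nil))))) (.g (nat_lit 0) (.e (nat_lit 296142) (nat_lit 0) .nil) .nil))))) (.nd (nat_lit 8) (.nd (nat_lit 9) 
(.lf (nat_lit 550064) (.g (nat_lit 1478) (.e (nat_lit 425728) (nat_lit 18) (.e (nat_lit 303117) (nat_lit 2) (.e (nat_lit 196672) (nat_lit 15) (.e (nat_lit 81956) (nat_lit 23) .nil)))) (.g (nat_lit 0) (.e (nat_lit 295036) (nat_lit 0) .nil) .nil))) 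
(.lf (nat_lit 550576) (.g (nat_lit 1902) (.e (nat_lit 426098) (nat_lit 1) (.e (nat_lit 164332) (nat_lit 230) (.e (nat_lit 163880) (nat_lit 4) (.e (nat_lit 220928) (nat_lit 11) .nil)))) (.g (nat_lit 0) (.e (nat_lit 295971) (nat_lit 0) .nil) .nil)))) (.nd (nat_lit 9) 
(.lf (nat_lit 550320) (.g (nat_lit 2237) (.e (nat_lit 426091) (nat_lit 0) (.e (nat_lit 3238) (nat_lit 197) (.e (nat_lit 532550) (nat_lit 12) (.e (nat_lit 360475) (nat_lit 8) (.e (nat_lit 557091) (nat_lit 12) .nil))))) (.g (nat_lit 0) (.e (nat_lit 295482) (nat_lit 0) .nil) .nil))) 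
(.lf (nat_lit 550832) (.g (nat_lit 2520) (.e (nat_lit 426100) (nat_lit 1) (.e (nat_lit 164396) (nat_lit 256) (.e (nat_lit 57374) (nat_lit 2) (.e (nat_lit 90170) (nat_lit 13) (.e (nat_lit 172123) (nat_lit 13) (.e (nat_lit 483337) (nat_lit 9) .nil)))))) (.g (nat_lit 1) (.e (nat_lit 296369) (nat_lit 0) .nil) .nil)))))) (.nd (nat_lit 7) (.nd (nat_lit 8) (.nd (nat_lit 9) 
(.lf (nat_lit 550000) (.g (nat_lit 2902) (.e (nat_lit 417811) (nat_lit 6) (.e (nat_lit 286734) (nat_lit 3) (.e (nat_lit 98373) (nat_lit 29) (.e (nat_lit 450587) (nat_lit 10) (.e (nat_lit 573454) (nat_lit 9) (.e (nat_lit 363) (nat_lit 31) .nil)))))) (.g (nat_lit 1) (.e (nat_lit 294854) (nat_lit 0) .nil) .nil))) 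
(.lf (nat_lit 550512) (.g (nat_lit 1876) (.e (nat_lit 426098) (nat_lit 1) (.e (nat_lit 164327) (nat_lit 230) (.e (nat_lit 163873) (nat_lit 3) (.e (nat_lit 204813) (nat_lit 9) (.e (nat_lit 426198) (nat_lit 9) .nil))))) (.g (nat_lit 0) (.e (nat_lit 295867) (nat_lit 0) .nil) .nil)))) (.nd (nat_lit 9) 
(.lf (nat_lit 550256) (.g (nat_lit 3677) (.e (nat_lit 426025) (nat_lit 0) (.e (nat_lit 7554) (nat_lit 402) (.e (nat_lit 1234) (nat_lit 91) (.e (nat_lit 90170) (nat_lit 13) (.e (nat_lit 172106) (nat_lit 10) (.e (nat_lit 434244) (nat_lit 28) (.e (nat_lit 573450) (nat_lit 9) (.e (nat_lit 375) (nat_lit 32) .nil)))))))) (.g (nat_lit 1) (.e (nat_lit 295353) (nat_lit 0) .nil) .nil))) 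
(.lf (nat_lit 550768) (.g (nat_lit 2100) (.e (nat_lit 426099) (nat_lit 1) (.e (nat_lit 164399) (nat_lit 256) (.e (nat_lit 57407) (nat_lit 12) (.e (nat_lit 336434) (nat_lit 30) (.e (nat_lit 450579) (nat_lit 5) .nil))))) (.g (nat_lit 0) (.e (nat_lit 296206) (nat_lit 0) .nil) .nil))))) (.nd (nat_lit 8) (.nd (nat_lit 9) 
(.lf (nat_lit 550128) (.g (nat_lit 2759) (.e (nat_lit 426010) (nat_lit 0) (.e (nat_lit 7581) (nat_lit 405) (.e (nat_lit 57464) (nat_lit 23) (.e (nat_lit 516165) (nat_lit 12) (.e (nat_lit 450586) (nat_lit 10) (.e (nat_lit 573452) (nat_lit 9) (.e (nat_lit 430) (nat_lit 32) .nil))))))) (.g (nat_lit 1) (.e (nat_lit 295182) (nat_lit 0) .nil) .nil))) 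
(.lf (nat_lit 550640) (.g (nat_lit 527) (.e (nat_lit 426098) (nat_lit 1) (.e (nat_lit 164403) (nat_lit 256) (.e (nat_lit 57371) (nat_lit 2) .nil))) (.g (nat_lit 0) (.e (nat_lit 296057) (nat_lit 0) .nil) .nil)))) (.nd (nat_lit 9) 
(.lf (nat_lit 550384) (.g (nat_lit 3295) (.e (nat_lit 426098) (nat_lit 1) (.e (nat_lit 164325) (nat_lit 230) (.e (nat_lit 163868) (nat_lit 2) (.e (nat_lit 196654) (nat_lit 11) (.e (nat_lit 16466) (nat_lit 13) (.e (nat_lit 483337) (nat_lit 9) .nil)))))) (.g (nat_lit 1) (.e (nat_lit 295672) (nat_lit 0) .nil) .nil))) 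
(.lf (nat_lit 550896) (.g (nat_lit 3711) (.e (nat_lit 426100) (nat_lit 1) (.e (nat_lit 164399) (nat_lit 256) (.e (nat_lit 57378) (nat_lit 3) (.e (nat_lit 98365) (nat_lit 26) (.e (nat_lit 426325) (nat_lit 13) (.e (nat_lit 483341) (nat_lit 9) .nil)))))) (.g (nat_lit 1) (.e (nat_lit 296434) (nat_lit 0) .nil) .nil))))))))) 
(.nd (nat_lit 4) (.nd (nat_lit 5) (.nd (nat_lit 6) (.nd (nat_lit 7) (.nd (nat_lit 8) 
(.nd (nat_lit 9) 
(.lf (nat_lit 549896) (.g (nat_lit 2130) (.e (nat_lit 417536) (nat_lit 18) (.e (nat_lit 303119) (nat_lit 3) (.e (nat_lit 204868) (nat_lit 29) (.e (nat_lit 360465) (nat_lit 3) .nil)))) (.g (nat_lit 0) (.e (nat_lit 294582) (nat_lit 0) .nil) .nil))) 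
(.lf (nat_lit 550408) (.g (nat_lit 1509) (.e (nat_lit 426098) (nat_lit 1) (.e (nat_lit 164325) (nat_lit 230) (.e (nat_lit 163873) (nat_lit 3) (.e (nat_lit 204809) (nat_lit 9) (.e (nat_lit 426213) (nat_lit 9) (.e (nat_lit 426528) (nat_lit 27) (.e (nat_lit 336387) (nat_lit 27) .nil))))))) (.g (nat_lit 1) (.e (nat_lit 295710) (nat_lit 0) .nil) .nil)))) (.nd (nat_lit 9) 
(.lf (nat_lit 550152) (.g (nat_lit 2687) (.e (nat_lit 426011) (nat_lit 0) (.e (nat_lit 3546) (nat_lit 219) (.e (nat_lit 712753) (nat_lit 30) (.e (nat_lit 450586) (nat_lit 10) (.e (nat_lit 573473) (nat_lit 12) (.e (nat_lit 57507) (nat_lit 39) (.e (nat_lit 647195) (nat_lit 9) (.e (nat_lit 426) (nat_lit 32) .nil)))))))) (.g (nat_lit 1) (.e (nat_lit 295206) (nat_lit 0) .nil) .nil))) 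
(.lf (nat_lit 550664) (.g (nat_lit 1353) (.e (nat_lit 426099) (nat_lit 1) (.e (nat_lit 164329) (nat_lit 230) (.e (nat_lit 163850) (nat_lit 0) (.e (nat_lit 3634) (nat_lit 227) .nil)))) (.g (nat_lit 0) (.e (nat_lit 296087) (nat_lit 0) .nil) .nil))))) (.nd (nat_lit 8) (.nd (nat_lit 9) 
(.lf (nat_lit 550024) (.g (nat_lit 3401) (.e (nat_lit 417828) (nat_lit 18) (.e (nat_lit 303119) (nat_lit 3) (.e (nat_lit 204869) (nat_lit 29) (.e (nat_lit 360465) (nat_lit 3) (.e (nat_lit 516141) (nat_lit 8) .nil))))) (.g (nat_lit 1) (.e (nat_lit 294934) (nat_lit 0) .nil) .nil))) 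
(.lf (nat_lit 550536) (.g (nat_lit 1613) (.e (nat_lit 426098) (nat_lit 1) (.e (nat_lit 164327) (nat_lit 230) (.e (nat_lit 163875) (nat_lit 3) (.e (nat_lit 204805) (nat_lit 0) .nil)))) (.g (nat_lit 0) (.e (nat_lit 295905) (nat_lit 0) .nil) .nil)))) (.nd (nat_lit 9) 
(.lf (nat_lit 550280) (.g (nat_lit 2469) (.e (nat_lit 426038) (nat_lit 0) (.e (nat_lit 3297) (nat_lit 202) (.e (nat_lit 573450) (nat_lit 9) (.e (nat_lit 375) (nat_lit 32) (.e (nat_lit 426173) (nat_lit 7) (.e (nat_lit 409617) (nat_lit 10) (.e (nat_lit 7936) (nat_lit 43) (.e (nat_lit 516151) (nat_lit 9) (.e (nat_lit 426211) (nat_lit 9) .nil))))))))) (.g (nat_lit 1) (.e (nat_lit 295386) (nat_lit 0) .nil) .nil))) 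
(.lf (nat_lit 550792) (.g (nat_lit 3700) (.e (nat_lit 426100) (nat_lit 1) (.e (nat_lit 164332) (nat_lit 230) (.e (nat_lit 163867) (nat_lit 2) (.e (nat_lit 196654) (nat_lit 11) (.e (nat_lit 16463) (nat_lit 13) (.e (nat_lit 483337) (nat_lit 9) .nil)))))) (.g (nat_lit 1) (.e (nat_lit 296269) (nat_lit 0) .nil) .nil)))))) (.nd (nat_lit 7) (.nd (nat_lit 8) (.nd (nat_lit 9) 
(.lf (nat_lit 549960) (.g (nat_lit 1995) (.e (nat_lit 417809) (nat_lit 6) (.e (nat_lit 286734) (nat_lit 3) (.e (nat_lit 98350) (nat_lit 24) (.e (nat_lit 409603) (nat_lit 0) .nil)))) (.g (nat_lit 0) (.e (nat_lit 294802) (nat_lit 0) .nil) .nil))) 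
(.lf (nat_lit 550472) (.g (nat_lit 3825) (.e (nat_lit 426098) (nat_lit 1) (.e (nat_lit 164327) (nat_lit 230) (.e (nat_lit 163868) (nat_lit 2) (.e (nat_lit 196656) (nat_lit 11) (.e (nat_lit 16436) (nat_lit 9) (.e (nat_lit 426478) (nat_lit 27) (.e (nat_lit 336389) (nat_lit 27) .nil))))))) (.g (nat_lit 1) (.e (nat_lit 295812) (nat_lit 0) .nil) .nil)))) (.nd (nat_lit 9) 
(.lf (nat_lit 550216) (.g (nat_lit 1477) (.e (nat_lit 426012) (nat_lit 0) (.e (nat_lit 7593) (nat_lit 407) (.e (nat_lit 73775) (nat_lit 26) (.e (nat_lit 778466) (nat_lit 11) (.e (nat_lit 32512) (nat_lit 9) .nil))))) (.g (nat_lit 0) (.e (nat_lit 295273) (nat_lit 0) .nil) .nil))) 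
(.lf (nat_lit 550728) (.g (nat_lit 1854) (.e (nat_lit 426099) (nat_lit 1) (.e (nat_lit 164399) (nat_lit 256) (.e (nat_lit 57370) (nat_lit 2) (.e (nat_lit 90170) (nat_lit 13) (.e (nat_lit 172123) (nat_lit 13) .nil))))) (.g (nat_lit 0) (.e (nat_lit 296166) (nat_lit 0) .nil) .nil))))) (.nd (nat_lit 8) (.nd (nat_lit 9) 
(.lf (nat_lit 550088) (.g (nat_lit 2034) (.e (nat_lit 425993) (nat_lit 0) (.e (nat_lit 3249) (nat_lit 197) (.e (nat_lit 532569) (nat_lit 16) (.e (nat_lit 401448) (nat_lit 10) (.e (nat_lit 434246) (nat_lit 28) .nil))))) (.g (nat_lit 0) (.e (nat_lit 295130) (nat_lit 0) .nil) .nil))) 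
(.lf (nat_lit 550600) (.g (nat_lit 1063) (.e (nat_lit 426098) (nat_lit 1) (.e (nat_lit 164399) (nat_lit 256) (.e (nat_lit 57372) (nat_lit 2) (.e (nat_lit 90167) (nat_lit 13) .nil)))) (.g (nat_lit 0) (.e (nat_lit 296017) (nat_lit 0) .nil) .nil)))) (.nd (nat_lit 9) 
(.lf (nat_lit 550344) (.g (nat_lit 1207) (.e (nat_lit 426097) (nat_lit 1) (.e (nat_lit 164399) (nat_lit 256) (.e (nat_lit 57379) (nat_lit 3) (.e (nat_lit 98363) (nat_lit 26) .nil)))) (.g (nat_lit 0) (.e (nat_lit 295556) (nat_lit 0) .nil) .nil))) 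
(.lf (nat_lit 550856) (.g (nat_lit 2465) (.e (nat_lit 426100) (nat_lit 1) (.e (nat_lit 164398) (nat_lit 256) (.e (nat_lit 57378) (nat_lit 3) (.e (nat_lit 98365) (nat_lit 26) (.e (nat_lit 426334) (nat_lit 13) .nil))))) (.g (nat_lit 0) (.e (nat_lit 296393) (nat_lit 0) .nil) .nil))))))) (.nd (nat_lit 6) (.nd (nat_lit 7) (.nd (nat_lit 8) (.nd (nat_lit 9) 
(.lf (nat_lit 549928) (.g (nat_lit 3422) (.e (nat_lit 409642) (nat_lit 17) (.e (nat_lit 294969) (nat_lit 27) (.e (nat_lit 426340) (nat_lit 14) (.e (nat_lit 491571) (nat_lit 13) (.e (nat_lit 393260) (nat_lit 21) .nil))))) (.g (nat_lit 1) (.e (nat_lit 294746) (nat_lit 0) .nil) .nil))) 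
(.lf (nat_lit 550440) (.g (nat_lit 3320) (.e (nat_lit 426098) (nat_lit 1) (.e (nat_lit 164325) (nat_lit 230) (.e (nat_lit 163873) (nat_lit 3) (.e (nat_lit 204813) (nat_lit 9) (.e (nat_lit 426200) (nat_lit 9) (.e (nat_lit 426491) (nat_lit 27) (.e (nat_lit 336407) (nat_lit 27) .nil))))))) (.g (nat_lit 1) (.e (nat_lit 295748) (nat_lit 0) .nil) .nil)))) (.nd (nat_lit 9) 
(.lf (nat_lit 550184) (.g (nat_lit 4134) (.e (nat_lit 426011) (nat_lit 0) (.e (nat_lit 7581) (nat_lit 405) (.e (nat_lit 57464) (nat_lit 23) (.e (nat_lit 516166) (nat_lit 12) (.e (nat_lit 450587) (nat_lit 10) (.e (nat_lit 573456) (nat_lit 9) (.e (nat_lit 430) (nat_lit 32) .nil))))))) (.g (nat_lit 1) (.e (nat_lit 295238) (nat_lit 0) .nil) .nil))) 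
(.lf (nat_lit 550696) (.g (nat_lit 2961) (.e (nat_lit 426099) (nat_lit 1) (.e (nat_lit 164332) (nat_lit 230) (.e (nat_lit 163880) (nat_lit 4) (.e (nat_lit 213032) (nat_lit 11) (.e (nat_lit 24658) (nat_lit 13) (.e (nat_lit 393281) (nat_lit 23) .nil)))))) (.g (nat_lit 1) (.e (nat_lit 296134) (nat_lit 0) .nil) .nil))))) (.nd (nat_lit 8) (.nd (nat_lit 9) 
(.lf (nat_lit 550056) (.g (nat_lit 2937) (.e (nat_lit 417829) (nat_lit 18) (.e (nat_lit 303119) (nat_lit 3) (.e (nat_lit 204869) (nat_lit 29) (.e (nat_lit 368384) (nat_lit 3) .nil)))) (.g (nat_lit 0) (.e (nat_lit 295004) (nat_lit 0) .nil) .nil))) 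
(.lf (nat_lit 550568) (.g (nat_lit 3169) (.e (nat_lit 426098) (nat_lit 1) (.e (nat_lit 164332) (nat_lit 230) (.e (nat_lit 163867) (nat_lit 2) (.e (nat_lit 196656) (nat_lit 11) (.e (nat_lit 16466) (nat_lit 13) (.e (nat_lit 483341) (nat_lit 9) .nil)))))) (.g (nat_lit 1) (.e (nat_lit 295956) (nat_lit 0) .nil) .nil)))) (.nd (nat_lit 9) 
(.lf (nat_lit 550312) (.g (nat_lit 2773) (.e (nat_lit 426073) (nat_lit 0) (.e (nat_lit 3249) (nat_lit 197) (.e (nat_lit 532542) (nat_lit 9) (.e (nat_lit 336194) (nat_lit 12) (.e (nat_lit 385066) (nat_lit 26) (.e (nat_lit 532515) (nat_lit 3) (.e (nat_lit 114696) (nat_lit 11) .nil))))))) (.g (nat_lit 1) (.e (nat_lit 295462) (nat_lit 0) .nil) .nil))) 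
(.lf (nat_lit 550824) (.g (nat_lit 1699) (.e (nat_lit 426100) (nat_lit 1) (.e (nat_lit 164332) (nat_lit 230) (.e (nat_lit 163874) (nat_lit 3) (.e (nat_lit 204809) (nat_lit 9) (.e (nat_lit 426213) (nat_lit 9) (.e (nat_lit 426528) (nat_lit 27) (.e (nat_lit 336387) (nat_lit 27) .nil))))))) (.g (nat_lit 1) (.e (nat_lit 296353) (nat_lit 0) .nil) .nil)))))) 
(.nd (nat_lit 7) (.nd (nat_lit 8) (.nd (nat_lit 9) 
(.lf (nat_lit 549992) (.g (nat_lit 2136) (.e (nat_lit 417811) (nat_lit 6) (.e (nat_lit 286733) (nat_lit 2) (.e (nat_lit 90170) (nat_lit 13) (.e (nat_lit 172113) (nat_lit 10) .nil)))) (.g (nat_lit 0) (.e (nat_lit 294846) (nat_lit 0) .nil) .nil))) 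
(.lf (nat_lit 550504) (.g (nat_lit 1293) (.e (nat_lit 426098) (nat_lit 1) (.e (nat_lit 164327) (nat_lit 230) (.e (nat_lit 163873) (nat_lit 3) (.e (nat_lit 204809) (nat_lit 9) .nil)))) (.g (nat_lit 0) (.e (nat_lit 295856) (nat_lit 0) .nil) .nil)))) (.nd (nat_lit 9) 
(.lf (nat_lit 550248) (.g (nat_lit 3125) (.e (nat_lit 426025) (nat_lit 0) (.e (nat_lit 3399) (nat_lit 211) (.e (nat_lit 647183) (nat_lit 4) (.e (nat_lit 172124) (nat_lit 14) (.e (nat_lit 491571) (nat_lit 13) (.e (nat_lit 393277) (nat_lit 23) .nil)))))) (.g (nat_lit 1) (.e (nat_lit 295337) (nat_lit 0) .nil) .nil))) 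
(.lf (nat_lit 550760) (.g (nat_lit 485) (.e (nat_lit 426099) (nat_lit 1) (.e (nat_lit 164399) (nat_lit 256) (.e (nat_lit 57379) (nat_lit 3) .nil))) (.g (nat_lit 0) (.e (nat_lit 296198) (nat_lit 0) .nil) .nil))))) (.nd (nat_lit 8) (.nd (nat_lit 9) 
(.lf (nat_lit 550120) (.g (nat_lit 4273) (.e (nat_lit 426010) (nat_lit 0) (.e (nat_lit 7490) (nat_lit 402) (.e (nat_lit 1239) (nat_lit 91) (.e (nat_lit 90170) (nat_lit 13) (.e (nat_lit 172113) (nat_lit 10) (.e (nat_lit 434248) (nat_lit 28) (.e (nat_lit 573452) (nat_lit 9) (.e (nat_lit 430) (nat_lit 32) .nil)))))))) (.g (nat_lit 1) (.e (nat_lit 295174) (nat_lit 0) .nil) .nil))) 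
(.lf (nat_lit 550632) (.g (nat_lit 1811) (.e (nat_lit 426098) (nat_lit 1) (.e (nat_lit 164399) (nat_lit 256) (.e (nat_lit 57407) (nat_lit 12) (.e (nat_lit 336433) (nat_lit 30) .nil)))) (.g (nat_lit 0) (.e (nat_lit 296049) (nat_lit 0) .nil) .nil)))) (.nd (nat_lit 9) 
(.lf (nat_lit 550376) (.g (nat_lit 540) (.e (nat_lit 426098) (nat_lit 1) (.e (nat_lit 164325) (nat_lit 230) (.e (nat_lit 163859) (nat_lit 1) .nil))) (.g (nat_lit 0) (.e (nat_lit 295620) (nat_lit 0) .nil) .nil))) 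
(.lf (nat_lit 550888) (.g (nat_lit 1603) (.e (nat_lit 426100) (nat_lit 1) (.e (nat_lit 164399) (nat_lit 256) (.e (nat_lit 57377) (nat_lit 3) (.e (nat_lit 98363) (nat_lit 26) (.e (nat_lit 426321) (nat_lit 13) .nil))))) (.g (nat_lit 0) (.e (nat_lit 296426) (nat_lit 0) .nil) .nil)))))))) (.nd (nat_lit 5) (.nd (nat_lit 6) (.nd (nat_lit 7) (.nd (nat_lit 8) (.nd (nat_lit 9) 
(.lf (nat_lit 549912) (.g (nat_lit 2916) (.e (nat_lit 409650) (nat_lit 19) (.e (nat_lit 311314) (nat_lit 3) (.e (nat_lit 204868) (nat_lit 29) (.e (nat_lit 360466) (nat_lit 3) (.e (nat_lit 516138) (nat_lit 7) .nil))))) (.g (nat_lit 1) (.e (nat_lit 294630) (nat_lit 0) .nil) .nil))) 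
(.lf (nat_lit 550424) (.g (nat_lit 3635) (.e (nat_lit 426098) (nat_lit 1) (.e (nat_lit 164325) (nat_lit 230) (.e (nat_lit 163873) (nat_lit 3) (.e (nat_lit 204813) (nat_lit 9) (.e (nat_lit 426199) (nat_lit 9) (.e (nat_lit 426481) (nat_lit 27) (.e (nat_lit 336388) (nat_lit 27) .nil))))))) (.g (nat_lit 1) (.e (nat_lit 295730) (nat_lit 0) .nil) .nil)))) (.nd (nat_lit 9) 
(.lf (nat_lit 550168) (.g (nat_lit 2356) (.e (nat_lit 426011) (nat_lit 0) (.e (nat_lit 7498) (nat_lit 402) (.e (nat_lit 1234) (nat_lit 91) (.e (nat_lit 90170) (nat_lit 13) (.e (nat_lit 172113) (nat_lit 10) (.e (nat_lit 434248) (nat_lit 28) (.e (nat_lit 573452) (nat_lit 9) (.e (nat_lit 430) (nat_lit 32) .nil)))))))) (.g (nat_lit 1) (.e (nat_lit 295222) (nat_lit 0) .nil) .nil))) 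
(.lf (nat_lit 550680) (.g (nat_lit 2325) (.e (nat_lit 426099) (nat_lit 1) (.e (nat_lit 164332) (nat_lit 230) (.e (nat_lit 163869) (nat_lit 2) (.e (nat_lit 196655) (nat_lit 11) .nil)))) (.g (nat_lit 0) (.e (nat_lit 296112) (nat_lit 0) .nil) .nil))))) (.nd (nat_lit 8) (.nd (nat_lit 9) 
(.lf (nat_lit 550040) (.g (nat_lit 3397) (.e (nat_lit 417829) (nat_lit 18) (.e (nat_lit 303117) (nat_lit 2) (.e (nat_lit 196672) (nat_lit 15) (.e (nat_lit 81956) (nat_lit 23) (.e (nat_lit 98352) (nat_lit 25) .nil))))) (.g (nat_lit 0) (.e (nat_lit 294985) (nat_lit 0) .nil) .nil))) 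
(.lf (nat_lit 550552) (.g (nat_lit 2910) (.e (nat_lit 426098) (nat_lit 1) (.e (nat_lit 164327) (nat_lit 230) (.e (nat_lit 163875) (nat_lit 3) (.e (nat_lit 204813) (nat_lit 9) (.e (nat_lit 426200) (nat_lit 9) (.e (nat_lit 426487) (nat_lit 27) (.e (nat_lit 336407) (nat_lit 27) .nil))))))) (.g (nat_lit 1) (.e (nat_lit 295932) (nat_lit 0) .nil) .nil)))) (.nd (nat_lit 9) 
(.lf (nat_lit 550296) (.g (nat_lit 2368) (.e (nat_lit 426043) (nat_lit 0) (.e (nat_lit 3238) (nat_lit 197) (.e (nat_lit 532550) (nat_lit 12) (.e (nat_lit 360475) (nat_lit 8) (.e (nat_lit 557091) (nat_lit 12) (.e (nat_lit 164017) (nat_lit 44) (.e (nat_lit 688139) (nat_lit 5) (.e (nat_lit 2887) (nat_lit 184) .nil)))))))) (.g (nat_lit 1) (.e (nat_lit 295426) (nat_lit 0) .nil) .nil))) 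
(.lf (nat_lit 550808) (.g (nat_lit 1686) (.e (nat_lit 426100) (nat_lit 1) (.e (nat_lit 164332) (nat_lit 230) (.e (nat_lit 163869) (nat_lit 2) (.e (nat_lit 196656) (nat_lit 11) (.e (nat_lit 16432) (nat_lit 9) .nil))))) (.g (nat_lit 0) (.e (nat_lit 296321) (nat_lit 0) .nil) .nil)))))) (.nd (nat_lit 7) (.nd (nat_lit 8) (.nd (nat_lit 9) 
(.lf (nat_lit 549976) (.g (nat_lit 4547) (.e (nat_lit 417810) (nat_lit 6) (.e (nat_lit 286733) (nat_lit 2) (.e (nat_lit 90170) (nat_lit 13) (.e (nat_lit 172113) (nat_lit 10) (.e (nat_lit 434247) (nat_lit 28) (.e (nat_lit 573456) (nat_lit 9) (.e (nat_lit 365) (nat_lit 31) .nil))))))) (.g (nat_lit 1) (.e (nat_lit 294826) (nat_lit 0) .nil) .nil))) 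
(.lf (nat_lit 550488) (.g (nat_lit 3425) (.e (nat_lit 426098) (nat_lit 1) (.e (nat_lit 164327) (nat_lit 230) (.e (nat_lit 163871) (nat_lit 2) (.e (nat_lit 196654) (nat_lit 11) (.e (nat_lit 16463) (nat_lit 13) (.e (nat_lit 483336) (nat_lit 9) .nil)))))) (.g (nat_lit 1) (.e (nat_lit 295834) (nat_lit 0) .nil) .nil)))) (.nd (nat_lit 9) 
(.lf (nat_lit 550232) (.g (nat_lit 2431) (.e (nat_lit 426025) (nat_lit 0) (.e (nat_lit 3397) (nat_lit 211) (.e (nat_lit 647183) (nat_lit 4) (.e (nat_lit 172115) (nat_lit 10) (.e (nat_lit 434209) (nat_lit 18) (.e (nat_lit 5546) (nat_lit 306) (.e (nat_lit 2618) (nat_lit 164) (.e (nat_lit 172097) (nat_lit 9) .nil)))))))) (.g (nat_lit 1) (.e (nat_lit 295311) (nat_lit 0) .nil) .nil))) 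
(.lf (nat_lit 550744) (.g (nat_lit 1719) (.e (nat_lit 426099) (nat_lit 1) (.e (nat_lit 164399) (nat_lit 256) (.e (nat_lit 57377) (nat_lit 3) (.e (nat_lit 98357) (nat_lit 26) .nil)))) (.g (nat_lit 0) (.e (nat_lit 296182) (nat_lit 0) .nil) .nil))))) (.nd (nat_lit 8) (.nd (nat_lit 9) 
(.lf (nat_lit 550104) (.g (nat_lit 2625) (.e (nat_lit 426009) (nat_lit 0) (.e (nat_lit 7581) (nat_lit 405) (.e (nat_lit 57464) (nat_lit 23) (.e (nat_lit 516165) (nat_lit 12) (.e (nat_lit 450586) (nat_lit 10) (.e (nat_lit 573452) (nat_lit 9) (.e (nat_lit 430) (nat_lit 32) .nil))))))) (.g (nat_lit 1) (.e (nat_lit 295158) (nat_lit 0) .nil) .nil))) 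
(.lf (nat_lit 550616) (.g (nat_lit 2446) (.e (nat_lit 426098) (nat_lit 1) (.e (nat_lit 164399) (nat_lit 256) (.e (nat_lit 57377) (nat_lit 3) (.e (nat_lit 98370) (nat_lit 28) (.e (nat_lit 442389) (nat_lit 11) .nil))))) (.g (nat_lit 0) (.e (nat_lit 296033) (nat_lit 0) .nil) .nil)))) (.nd (nat_lit 9) 
(.lf (nat_lit 550360) (.g (nat_lit 1317) (.e (nat_lit 426098) (nat_lit 1) (.e (nat_lit 164179) (nat_lit 154) (.e (nat_lit 57411) (nat_lit 12) (.e (nat_lit 336326) (nat_lit 18) .nil)))) (.g (nat_lit 0) (.e (nat_lit 295593) (nat_lit 0) .nil) .nil))) 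
(.lf (nat_lit 550872) (.g (nat_lit 1673) (.e (nat_lit 426100) (nat_lit 1) (.e (nat_lit 164398) (nat_lit 256) (.e (nat_lit 57445) (nat_lit 19) (.e (nat_lit 393287) (nat_lit 25) (.e (nat_lit 458789) (nat_lit 23) .nil))))) (.g (nat_lit 0) (.e (nat_lit 296409) (nat_lit 0) .nil) .nil))))))) (.nd (nat_lit 6) (.nd (nat_lit 7) (.nd (nat_lit 8) (.nd (nat_lit 9) 
(.lf (nat_lit 549944) (.g (nat_lit 2720) (.e (nat_lit 417796) (nat_lit 0) (.e (nat_lit 5389) (nat_lit 301) (.e (nat_lit 57464) (nat_lit 23) (.e (nat_lit 516166) (nat_lit 12) (.e (nat_lit 450587) (nat_lit 10) (.e (nat_lit 573456) (nat_lit 9) (.e (nat_lit 365) (nat_lit 31) .nil))))))) (.g (nat_lit 1) (.e (nat_lit 294777) (nat_lit 0) .nil) .nil))) 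
(.lf (nat_lit 550456) (.g (nat_lit 903) (.e (nat_lit 426098) (nat_lit 1) (.e (nat_lit 164327) (nat_lit 230) (.e (nat_lit 163868) (nat_lit 2) (.e (nat_lit 196654) (nat_lit 11) .nil)))) (.g (nat_lit 0) (.e (nat_lit 295790) (nat_lit 0) .nil) .nil)))) (.nd (nat_lit 9) 
(.lf (nat_lit 550200) (.g (nat_lit 2194) (.e (nat_lit 426012) (nat_lit 0) (.e (nat_lit 7490) (nat_lit 402) (.e (nat_lit 1239) (nat_lit 91) (.e (nat_lit 90170) (nat_lit 13) (.e (nat_lit 172113) (nat_lit 10) (.e (nat_lit 434245) (nat_lit 28) (.e (nat_lit 573458) (nat_lit 9) (.e (nat_lit 426) (nat_lit 32) .nil)))))))) (.g (nat_lit 1) (.e (nat_lit 295257) (nat_lit 0) .nil) .nil))) 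
(.lf (nat_lit 550712) (.g (nat_lit 1149) (.e (nat_lit 426099) (nat_lit 1) (.e (nat_lit 164398) (nat_lit 256) (.e (nat_lit 57375) (nat_lit 2) (.e (nat_lit 90176) (nat_lit 15) .nil)))) (.g (nat_lit 0) (.e (nat_lit 296150) (nat_lit 0) .nil) .nil))))) (.nd (nat_lit 8) (.nd (nat_lit 9) 
(.lf (nat_lit 550072) (.g (nat_lit 4444) (.e (nat_lit 425984) (nat_lit 0) (.e (nat_lit 3249) (nat_lit 197) (.e (nat_lit 532569) (nat_lit 16) (.e (nat_lit 401448) (nat_lit 10) (.e (nat_lit 434231) (nat_lit 23) (.e (nat_lit 532490) (nat_lit 0) (.e (nat_lit 6674) (nat_lit 357) (.e (nat_lit 2939) (nat_lit 184) .nil)))))))) (.g (nat_lit 1) (.e (nat_lit 295096) (nat_lit 0) .nil) .nil))) 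
(.lf (nat_lit 550584) (.g (nat_lit 1807) (.e (nat_lit 426098) (nat_lit 1) (.e (nat_lit 164398) (nat_lit 256) (.e (nat_lit 57372) (nat_lit 2) (.e (nat_lit 90167) (nat_lit 13) (.e (nat_lit 172121) (nat_lit 13) .nil))))) (.g (nat_lit 0) (.e (nat_lit 296001) (nat_lit 0) .nil) .nil)))) (.nd (nat_lit 9) 
(.lf (nat_lit 550328) (.g (nat_lit 1652) (.e (nat_lit 426097) (nat_lit 1) (.e (nat_lit 164327) (nat_lit 230) (.e (nat_lit 163868) (nat_lit 2) (.e (nat_lit 196656) (nat_lit 11) .nil)))) (.g (nat_lit 0) (.e (nat_lit 295515) (nat_lit 0) .nil) .nil))) 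
(.lf (nat_lit 550840) (.g (nat_lit 1627) (.e (nat_lit 426100) (nat_lit 1) (.e (nat_lit 164398) (nat_lit 256) (.e (nat_lit 57372) (nat_lit 2) (.e (nat_lit 90169) (nat_lit 13) (.e (nat_lit 172122) (nat_lit 13) .nil))))) (.g (nat_lit 0) (.e (nat_lit 296377) (nat_lit 0) .nil) .nil)))))) (.nd (nat_lit 7) (.nd (nat_lit 8) (.nd (nat_lit 9) 
(.lf (nat_lit 550008) (.g (nat_lit 1548) (.e (nat_lit 417815) (nat_lit 10) (.e (nat_lit 632) (nat_lit 50) (.e (nat_lit 573487) (nat_lit 14) (.e (nat_lit 81664) (nat_lit 32) .nil)))) (.g (nat_lit 0) (.e (nat_lit 294866) (nat_lit 0) .nil) .nil))) 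
(.lf (nat_lit 550520) (.g (nat_lit 3467) (.e (nat_lit 426098) (nat_lit 1) (.e (nat_lit 164327) (nat_lit 230) (.e (nat_lit 163873) (nat_lit 3) (.e (nat_lit 204813) (nat_lit 9) (.e (nat_lit 426199) (nat_lit 9) (.e (nat_lit 426487) (nat_lit 27) (.e (nat_lit 336407) (nat_lit 27) .nil))))))) (.g (nat_lit 1) (.e (nat_lit 295875) (nat_lit 0) .nil) .nil)))) (.nd (nat_lit 9) 
(.lf (nat_lit 550264) (.g (nat_lit 4352) (.e (nat_lit 426023) (nat_lit 0) (.e (nat_lit 3401) (nat_lit 211) (.e (nat_lit 647181) (nat_lit 3) (.e (nat_lit 163979) (nat_lit 30) (.e (nat_lit 573482) (nat_lit 13) (.e (nat_lit 65604) (nat_lit 9) (.e (nat_lit 336028) (nat_lit 3) (.e (nat_lit 98359) (nat_lit 26) .nil)))))))) (.g (nat_lit 1) (.e (nat_lit 295361) (nat_lit 0) .nil) .nil))) 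
(.lf (nat_lit 550776) (.g (nat_lit 2258) (.e (nat_lit 426100) (nat_lit 1) (.e (nat_lit 164182) (nat_lit 154) (.e (nat_lit 57411) (nat_lit 12) (.e (nat_lit 336324) (nat_lit 18) (.e (nat_lit 204875) (nat_lit 31) .nil))))) (.g (nat_lit 0) (.e (nat_lit 296220) (nat_lit 0) .nil) .nil))))) (.nd (nat_lit 8) (.nd (nat_lit 9) 
(.lf (nat_lit 550136) (.g (nat_lit 3296) (.e (nat_lit 426010) (nat_lit 0) (.e (nat_lit 7583) (nat_lit 405) (.e (nat_lit 57464) (nat_lit 23) (.e (nat_lit 516151) (nat_lit 9) (.e (nat_lit 426286) (nat_lit 10) (.e (nat_lit 434247) (nat_lit 28) (.e (nat_lit 573457) (nat_lit 9) (.e (nat_lit 430) (nat_lit 32) .nil)))))))) (.g (nat_lit 1) (.e (nat_lit 295190) (nat_lit 0) .nil) .nil))) 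
(.lf (nat_lit 550648) (.g (nat_lit 1805) (.e (nat_lit 426098) (nat_lit 1) (.e (nat_lit 164403) (nat_lit 256) (.e (nat_lit 57377) (nat_lit 3) (.e (nat_lit 98362) (nat_lit 26) .nil)))) (.g (nat_lit 0) (.e (nat_lit 296065) (nat_lit 0) .nil) .nil)))) (.nd (nat_lit 9) 
(.lf (nat_lit 550392) (.g (nat_lit 2753) (.e (nat_lit 426098) (nat_lit 1) (.e (nat_lit 164325) (nat_lit 230) (.e (nat_lit 163869) (nat_lit 2) (.e (nat_lit 196656) (nat_lit 11) (.e (nat_lit 16438) (nat_lit 9) .nil))))) (.g (nat_lit 0) (.e (nat_lit 295683) (nat_lit 0) .nil) .nil))) 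
(.lf (nat_lit 550904) (.g (nat_lit 2161) (.e (nat_lit 426100) (nat_lit 1) (.e (nat_lit 164399) (nat_lit 256) (.e (nat_lit 57407) (nat_lit 12) (.e (nat_lit 336399) (nat_lit 27) (.e (nat_lit 426265) (nat_lit 9) .nil))))) (.g (nat_lit 0) (.e (nat_lit 296442) (nat_lit 0) .nil) .nil)))))))))) 
(.nd (nat_lit 3) (.nd (nat_lit 4) (.nd (nat_lit 5) (.nd (nat_lit 6) (.nd (nat_lit 7) 
(.nd (nat_lit 8) (.nd (nat_lit 9) 
(.lf (nat_lit 549892) (.g (nat_lit 1983) (.e (nat_lit 417536) (nat_lit 18) (.e (nat_lit 303119) (nat_lit 3) (.e (nat_lit 204863) (nat_lit 27) (.e (nat_lit 352000) (nat_lit 11) .nil)))) (.g (nat_lit 0) (.e (nat_lit 294570) (nat_lit 0) .nil) .nil))) 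
(.lf (nat_lit 550404) (.g (nat_lit 2574) (.e (nat_lit 426098) (nat_lit 1) (.e (nat_lit 164325) (nat_lit 230) (.e (nat_lit 163871) (nat_lit 2) (.e (nat_lit 196656) (nat_lit 11) (.e (nat_lit 16466) (nat_lit 13) (.e (nat_lit 483340) (nat_lit 9) .nil)))))) (.g (nat_lit 1) (.e (nat_lit 295704) (nat_lit 0) .nil) .nil)))) (.nd (nat_lit 9) 
(.lf (nat_lit 550148) (.g (nat_lit 2291) (.e (nat_lit 426011) (nat_lit 0) (.e (nat_lit 3211) (nat_lit 195) (.e (nat_lit 516129) (nat_lit 3) (.e (nat_lit 221210) (nat_lit 22) (.e (nat_lit 196668) (nat_lit 14) (.e (nat_lit 81664) (nat_lit 5) (.e (nat_lit 532578) (nat_lit 26) .nil))))))) (.g (nat_lit 1) (.e (nat_lit 295202) (nat_lit 0) .nil) .nil))) 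
(.lf (nat_lit 550660) (.g (nat_lit 1991) (.e (nat_lit 426099) (nat_lit 1) (.e (nat_lit 164182) (nat_lit 154) (.e (nat_lit 57411) (nat_lit 12) (.e (nat_lit 336316) (nat_lit 17) (.e (nat_lit 196674) (nat_lit 15) .nil))))) (.g (nat_lit 0) (.e (nat_lit 296079) (nat_lit 0) .nil) .nil))))) (.nd (nat_lit 8) (.nd (nat_lit 9) 
(.lf (nat_lit 550020) (.g (nat_lit 2128) (.e (nat_lit 417828) (nat_lit 18) (.e (nat_lit 303119) (nat_lit 3) (.e (nat_lit 204866) (nat_lit 28) (.e (nat_lit 352313) (nat_lit 23) (.e (nat_lit 98352) (nat_lit 25) .nil))))) (.g (nat_lit 0) (.e (nat_lit 294929) (nat_lit 0) .nil) .nil))) 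
(.lf (nat_lit 550532) (.g (nat_lit 2874) (.e (nat_lit 426098) (nat_lit 1) (.e (nat_lit 164327) (nat_lit 230) (.e (nat_lit 163873) (nat_lit 3) (.e (nat_lit 204813) (nat_lit 9) (.e (nat_lit 426200) (nat_lit 9) (.e (nat_lit 426491) (nat_lit 27) (.e (nat_lit 336407) (nat_lit 27) .nil))))))) (.g (nat_lit 1) (.e (nat_lit 295894) (nat_lit 0) .nil) .nil)))) (.nd (nat_lit 9) 
(.lf (nat_lit 550276) (.g (nat_lit 2953) (.e (nat_lit 426032) (nat_lit 0) (.e (nat_lit 3262) (nat_lit 198) (.e (nat_lit 540706) (nat_lit 12) (.e (nat_lit 360475) (nat_lit 8) (.e (nat_lit 557090) (nat_lit 12) (.e (nat_lit 164020) (nat_lit 45) (.e (nat_lit 696330) (nat_lit 5) (.e (nat_lit 2878) (nat_lit 184) .nil)))))))) (.g (nat_lit 1) (.e (nat_lit 295374) (nat_lit 0) .nil) .nil))) 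
(.lf (nat_lit 550788) (.g (nat_lit 886) (.e (nat_lit 426100) (nat_lit 1) (.e (nat_lit 164332) (nat_lit 230) (.e (nat_lit 163866) (nat_lit 2) (.e (nat_lit 196653) (nat_lit 11) .nil)))) (.g (nat_lit 0) (.e (nat_lit 296259) (nat_lit 0) .nil) .nil)))))) (.nd (nat_lit 7) (.nd (nat_lit 8) (.nd (nat_lit 9) 
(.lf (nat_lit 549956) (.g (nat_lit 2515) (.e (nat_lit 417813) (nat_lit 9) (.e (nat_lit 311315) (nat_lit 3) (.e (nat_lit 204846) (nat_lit 24) (.e (nat_lit 319533) (nat_lit 16) (.e (nat_lit 286734) (nat_lit 3) (.e (nat_lit 98352) (nat_lit 25) .nil)))))) (.g (nat_lit 1) (.e (nat_lit 294797) (nat_lit 0) .nil) .nil))) 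
(.lf (nat_lit 550468) (.g (nat_lit 2804) (.e (nat_lit 426098) (nat_lit 1) (.e (nat_lit 164327) (nat_lit 230) (.e (nat_lit 163868) (nat_lit 2) (.e (nat_lit 196656) (nat_lit 11) (.e (nat_lit 16432) (nat_lit 9) (.e (nat_lit 426491) (nat_lit 27) (.e (nat_lit 336406) (nat_lit 27) .nil))))))) (.g (nat_lit 1) (.e (nat_lit 295808) (nat_lit 0) .nil) .nil)))) (.nd (nat_lit 9) 
(.lf (nat_lit 550212) (.g (nat_lit 1498) (.e (nat_lit 426012) (nat_lit 0) (.e (nat_lit 7591) (nat_lit 407) (.e (nat_lit 73775) (nat_lit 26) (.e (nat_lit 778466) (nat_lit 11) (.e (nat_lit 24632) (nat_lit 9) .nil))))) (.g (nat_lit 0) (.e (nat_lit 295269) (nat_lit 0) .nil) .nil))) 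
(.lf (nat_lit 550724) (.g (nat_lit 1442) (.e (nat_lit 426099) (nat_lit 1) (.e (nat_lit 164398) (nat_lit 256) (.e (nat_lit 57409) (nat_lit 12) (.e (nat_lit 336432) (nat_lit 30) (.e (nat_lit 450580) (nat_lit 5) .nil))))) (.g (nat_lit 0) (.e (nat_lit 296162) (nat_lit 0) .nil) .nil))))) (.nd (nat_lit 8) (.nd (nat_lit 9) 
(.lf (nat_lit 550084) (.g (nat_lit 2200) (.e (nat_lit 425986) (nat_lit 0) (.e (nat_lit 3471) (nat_lit 217) (.e (nat_lit 696344) (nat_lit 8) (.e (nat_lit 172106) (nat_lit 10) (.e (nat_lit 434202) (nat_lit 18) (.e (nat_lit 6255) (nat_lit 337) (.e (nat_lit 2725) (nat_lit 172) (.e (nat_lit 237605) (nat_lit 9) .nil)))))))) (.g (nat_lit 1) (.e (nat_lit 295121) (nat_lit 0) .nil) .nil))) 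
(.lf (nat_lit 550596) (.g (nat_lit 1487) (.e (nat_lit 426098) (nat_lit 1) (.e (nat_lit 164398) (nat_lit 256) (.e (nat_lit 57445) (nat_lit 19) (.e (nat_lit 393287) (nat_lit 25) .nil)))) (.g (nat_lit 0) (.e (nat_lit 296013) (nat_lit 0) .nil) .nil)))) (.nd (nat_lit 9) 
(.lf (nat_lit 550340) (.g (nat_lit 581) (.e (nat_lit 426097) (nat_lit 1) (.e (nat_lit 164332) (nat_lit 230) (.e (nat_lit 163880) (nat_lit 4) .nil))) (.g (nat_lit 0) (.e (nat_lit 295551) (nat_lit 0) .nil) .nil))) 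
(.lf (nat_lit 550852) (.g (nat_lit 2188) (.e (nat_lit 426100) (nat_lit 1) (.e (nat_lit 164398) (nat_lit 256) (.e (nat_lit 57377) (nat_lit 3) (.e (nat_lit 98370) (nat_lit 28) (.e (nat_lit 442390) (nat_lit 11) .nil))))) (.g (nat_lit 0) (.e (nat_lit 296389) (nat_lit 0) .nil) .nil))))))) (.nd (nat_lit 6) (.nd (nat_lit 7) (.nd (nat_lit 8) (.nd (nat_lit 9) 
(.lf (nat_lit 549924) (.g (nat_lit 2387) (.e (nat_lit 409640) (nat_lit 17) (.e (nat_lit 294931) (nat_lit 3) (.e (nat_lit 98350) (nat_lit 24) (.e (nat_lit 409648) (nat_lit 18) (.e (nat_lit 303108) (nat_lit 0) .nil))))) (.g (nat_lit 0) (.e (nat_lit 294731) (nat_lit 0) .nil) .nil))) 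
(.lf (nat_lit 550436) (.g (nat_lit 3063) (.e (nat_lit 426098) (nat_lit 1) (.e (nat_lit 164325) (nat_lit 230) (.e (nat_lit 163873) (nat_lit 3) (.e (nat_lit 204813) (nat_lit 9) (.e (nat_lit 426200) (nat_lit 9) (.e (nat_lit 426481) (nat_lit 27) (.e (nat_lit 336385) (nat_lit 27) .nil))))))) (.g (nat_lit 1) (.e (nat_lit 295743) (nat_lit 0) .nil) .nil)))) (.nd (nat_lit 9) 
(.lf (nat_lit 550180) (.g (nat_lit 3880) (.e (nat_lit 426011) (nat_lit 0) (.e (nat_lit 7581) (nat_lit 405) (.e (nat_lit 57464) (nat_lit 23) (.e (nat_lit 516165) (nat_lit 12) (.e (nat_lit 450586) (nat_lit 10) (.e (nat_lit 573456) (nat_lit 9) (.e (nat_lit 430) (nat_lit 32) .nil))))))) (.g (nat_lit 1) (.e (nat_lit 295234) (nat_lit 0) .nil) .nil))) 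
(.lf (nat_lit 550692) (.g (nat_lit 2815) (.e (nat_lit 426099) (nat_lit 1) (.e (nat_lit 164332) (nat_lit 230) (.e (nat_lit 163880) (nat_lit 4) (.e (nat_lit 213030) (nat_lit 11) (.e (nat_lit 24658) (nat_lit 13) (.e (nat_lit 393281) (nat_lit 23) .nil)))))) (.g (nat_lit 1) (.e (nat_lit 296130) (nat_lit 0) .nil) .nil))))) (.nd (nat_lit 8) (.nd (nat_lit 9) 
(.lf (nat_lit 550052) (.g (nat_lit 3139) (.e (nat_lit 417829) (nat_lit 18) (.e (nat_lit 303119) (nat_lit 3) (.e (nat_lit 204869) (nat_lit 29) (.e (nat_lit 360466) (nat_lit 3) .nil)))) (.g (nat_lit 0) (.e (nat_lit 295000) (nat_lit 0) .nil) .nil))) 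
(.lf (nat_lit 550564) (.g (nat_lit 3174) (.e (nat_lit 426098) (nat_lit 1) (.e (nat_lit 164327) (nat_lit 230) (.e (nat_lit 163882) (nat_lit 4) (.e (nat_lit 213032) (nat_lit 11) (.e (nat_lit 24658) (nat_lit 13) (.e (nat_lit 393281) (nat_lit 23) .nil)))))) (.g (nat_lit 1) (.e (nat_lit 295950) (nat_lit 0) .nil) .nil)))) (.nd (nat_lit 9) 
(.lf (nat_lit 550308) (.g (nat_lit 1942) (.e (nat_lit 426071) (nat_lit 0) (.e (nat_lit 3249) (nat_lit 197) (.e (nat_lit 532569) (nat_lit 16) (.e (nat_lit 401448) (nat_lit 10) (.e (nat_lit 434232) (nat_lit 23) .nil))))) (.g (nat_lit 0) (.e (nat_lit 295454) (nat_lit 0) .nil) .nil))) 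
(.lf (nat_lit 550820) (.g (nat_lit 1406) (.e (nat_lit 426100) (nat_lit 1) (.e (nat_lit 164332) (nat_lit 230) (.e (nat_lit 163873) (nat_lit 3) (.e (nat_lit 204813) (nat_lit 9) (.e (nat_lit 426200) (nat_lit 9) .nil))))) (.g (nat_lit 0) (.e (nat_lit 296343) (nat_lit 0) .nil) .nil)))))) (.nd (nat_lit 7) (.nd (nat_lit 8) (.nd (nat_lit 9) 
(.lf (nat_lit 549988) (.g (nat_lit 3558) (.e (nat_lit 417811) (nat_lit 6) (.e (nat_lit 286732) (nat_lit 2) (.e (nat_lit 90170) (nat_lit 13) (.e (nat_lit 172113) (nat_lit 10) (.e (nat_lit 434245) (nat_lit 28) (.e (nat_lit 573451) (nat_lit 9) (.e (nat_lit 365) (nat_lit 31) .nil))))))) (.g (nat_lit 1) (.e (nat_lit 294840) (nat_lit 0) .nil) .nil))) 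
(.lf (nat_lit 550500) (.g (nat_lit 3742) (.e (nat_lit 426098) (nat_lit 1) (.e (nat_lit 164327) (nat_lit 230) (.e (nat_lit 163871) (nat_lit 2) (.e (nat_lit 196656) (nat_lit 11) (.e (nat_lit 16438) (nat_lit 9) (.e (nat_lit 426482) (nat_lit 27) (.e (nat_lit 336388) (nat_lit 27) .nil))))))) (.g (nat_lit 1) (.e (nat_lit 295849) (nat_lit 0) .nil) .nil)))) (.nd (nat_lit 9) 
(.lf (nat_lit 550244) (.g (nat_lit 2326) (.e (nat_lit 426025) (nat_lit 0) (.e (nat_lit 3399) (nat_lit 211) (.e (nat_lit 647183) (nat_lit 4) (.e (nat_lit 172106) (nat_lit 10) (.e (nat_lit 434209) (nat_lit 18) (.e (nat_lit 5546) (nat_lit 306) (.e (nat_lit 2618) (nat_lit 164) (.e (nat_lit 172097) (nat_lit 9) .nil)))))))) (.g (nat_lit 1) (.e (nat_lit 295332) (nat_lit 0) .nil) .nil))) 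
(.lf (nat_lit 550756) (.g (nat_lit 1997) (.e (nat_lit 426099) (nat_lit 1) (.e (nat_lit 164399) (nat_lit 256) (.e (nat_lit 57378) (nat_lit 3) (.e (nat_lit 98370) (nat_lit 28) (.e (nat_lit 442390) (nat_lit 11) .nil))))) (.g (nat_lit 0) (.e (nat_lit 296194) (nat_lit 0) .nil) .nil))))) (.nd (nat_lit 8) (.nd (nat_lit 9) 
(.lf (nat_lit 550116) (.g (nat_lit 4281) (.e (nat_lit 426010) (nat_lit 0) (.e (nat_lit 7490) (nat_lit 402) (.e (nat_lit 1239) (nat_lit 91) (.e (nat_lit 90170) (nat_lit 13) (.e (nat_lit 172106) (nat_lit 10) (.e (nat_lit 434244) (nat_lit 28) (.e (nat_lit 573451) (nat_lit 9) (.e (nat_lit 430) (nat_lit 32) .nil)))))))) (.g (nat_lit 1) (.e (nat_lit 295170) (nat_lit 0) .nil) .nil))) 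
(.lf (nat_lit 550628) (.g (nat_lit 1405) (.e (nat_lit 426098) (nat_lit 1) (.e (nat_lit 164399) (nat_lit 256) (.e (nat_lit 57406) (nat_lit 12) (.e (nat_lit 336443) (nat_lit 32) .nil)))) (.g (nat_lit 0) (.e (nat_lit 296045) (nat_lit 0) .nil) .nil)))) (.nd (nat_lit 9) 
(.lf (nat_lit 550372) (.g (nat_lit 1240) (.e (nat_lit 426098) (nat_lit 1) (.e (nat_lit 164183) (nat_lit 154) (.e (nat_lit 57411) (nat_lit 12) (.e (nat_lit 336318) (nat_lit 17) .nil)))) (.g (nat_lit 0) (.e (nat_lit 295613) (nat_lit 0) .nil) .nil))) 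
(.lf (nat_lit 550884) (.g (nat_lit 1654) (.e (nat_lit 426100) (nat_lit 1) (.e (nat_lit 164399) (nat_lit 256) (.e (nat_lit 57377) (nat_lit 3) (.e (nat_lit 98355) (nat_lit 26) .nil)))) (.g (nat_lit 0) (.e (nat_lit 296422) (nat_lit 0) .nil) .nil)))))))) (.nd (nat_lit 5) (.nd (nat_lit 6) (.nd (nat_lit 7) (.nd (nat_lit 8) (.nd (nat_lit 9) 
(.lf (nat_lit 549908) (.g (nat_lit 1618) (.e (nat_lit 417536) (nat_lit 18) (.e (nat_lit 303119) (nat_lit 3) (.e (nat_lit 204877) (nat_lit 31) (.e (nat_lit 376864) (nat_lit 22) (.e (nat_lit 90130) (nat_lit 9) .nil))))) (.g (nat_lit 0) (.e (nat_lit 294601) (nat_lit 0) .nil) .nil))) 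
(.lf (nat_lit 550420) (.g (nat_lit 3240) (.e (nat_lit 426098) (nat_lit 1) (.e (nat_lit 164325) (nat_lit 230) (.e (nat_lit 163873) (nat_lit 3) (.e (nat_lit 204813) (nat_lit 9) (.e (nat_lit 426199) (nat_lit 9) (.e (nat_lit 426478) (nat_lit 27) (.e (nat_lit 336388) (nat_lit 27) .nil))))))) (.g (nat_lit 1) (.e (nat_lit 295726) (nat_lit 0) .nil) .nil)))) (.nd (nat_lit 9) 
(.lf (nat_lit 550164) (.g (nat_lit 2793) (.e (nat_lit 426011) (nat_lit 0) (.e (nat_lit 7497) (nat_lit 402) (.e (nat_lit 1239) (nat_lit 91) (.e (nat_lit 90170) (nat_lit 13) (.e (nat_lit 172113) (nat_lit 10) (.e (nat_lit 434245) (nat_lit 28) (.e (nat_lit 573451) (nat_lit 9) (.e (nat_lit 430) (nat_lit 32) .nil)))))))) (.g (nat_lit 1) (.e (nat_lit 295218) (nat_lit 0) .nil) .nil))) 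
(.lf (nat_lit 550676) (.g (nat_lit 1596) (.e (nat_lit 426099) (nat_lit 1) (.e (nat_lit 164332) (nat_lit 230) (.e (nat_lit 163869) (nat_lit 2) (.e (nat_lit 196654) (nat_lit 11) .nil)))) (.g (nat_lit 0) (.e (nat_lit 296108) (nat_lit 0) .nil) .nil))))) (.nd (nat_lit 8) (.nd (nat_lit 9) 
(.lf (nat_lit 550036) (.g (nat_lit 2929) (.e (nat_lit 417828) (nat_lit 18) (.e (nat_lit 303145) (nat_lit 13) (.e (nat_lit 483346) (nat_lit 17) (.e (nat_lit 1049) (nat_lit 81) .nil)))) (.g (nat_lit 0) (.e (nat_lit 294950) (nat_lit 0) .nil) .nil))) 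
(.lf (nat_lit 550548) (.g (nat_lit 2256) (.e (nat_lit 426098) (nat_lit 1) (.e (nat_lit 164327) (nat_lit 230) (.e (nat_lit 163875) (nat_lit 3) (.e (nat_lit 204813) (nat_lit 9) (.e (nat_lit 426200) (nat_lit 9) (.e (nat_lit 426480) (nat_lit 27) (.e (nat_lit 336385) (nat_lit 27) .nil))))))) (.g (nat_lit 1) (.e (nat_lit 295921) (nat_lit 0) .nil) .nil)))) (.nd (nat_lit 9) 
(.lf (nat_lit 550292) (.g (nat_lit 4053) (.e (nat_lit 426043) (nat_lit 0) (.e (nat_lit 2423) (nat_lit 157) (.e (nat_lit 4849) (nat_lit 285) (.e (nat_lit 163869) (nat_lit 2) (.e (nat_lit 196666) (nat_lit 13) (.e (nat_lit 65610) (nat_lit 10) (.e (nat_lit 344117) (nat_lit 21) (.e (nat_lit 516151) (nat_lit 9) .nil)))))))) (.g (nat_lit 1) (.e (nat_lit 295418) (nat_lit 0) .nil) .nil))) 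
(.lf (nat_lit 550804) (.g (nat_lit 4187) (.e (nat_lit 426100) (nat_lit 1) (.e (nat_lit 164332) (nat_lit 230) (.e (nat_lit 163869) (nat_lit 2) (.e (nat_lit 196654) (nat_lit 11) (.e (nat_lit 16463) (nat_lit 13) (.e (nat_lit 483337) (nat_lit 9) .nil)))))) (.g (nat_lit 1) (.e (nat_lit 296314) (nat_lit 0) .nil) .nil)))))) (.nd (nat_lit 7) (.nd (nat_lit 8) (.nd (nat_lit 9) 
(.lf (nat_lit 549972) (.g (nat_lit 847) (.e (nat_lit 417810) (nat_lit 6) (.e (nat_lit 286733) (nat_lit 2) (.e (nat_lit 90128) (nat_lit 9) .nil))) (.g (nat_lit 0) (.e (nat_lit 294822) (nat_lit 0) .nil) .nil))) 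
(.lf (nat_lit 550484) (.g (nat_lit 3083) (.e (nat_lit 426098) (nat_lit 1) (.e (nat_lit 164327) (nat_lit 230) (.e (nat_lit 163871) (nat_lit 2) (.e (nat_lit 196654) (nat_lit 11) (.e (nat_lit 16436) (nat_lit 9) (.e (nat_lit 426509) (nat_lit 27) (.e (nat_lit 336412) (nat_lit 27) .nil))))))) (.g (nat_lit 1) (.e (nat_lit 295830) (nat_lit 0) .nil) .nil)))) (.nd (nat_lit 9) 
(.lf (nat_lit 550228) (.g (nat_lit 5169) (.e (nat_lit 426025) (nat_lit 0) (.e (nat_lit 3397) (nat_lit 211) (.e (nat_lit 647181) (nat_lit 3) (.e (nat_lit 163979) (nat_lit 30) (.e (nat_lit 573492) (nat_lit 15) (.e (nat_lit 81956) (nat_lit 23) (.e (nat_lit 106240) (nat_lit 26) .nil))))))) (.g (nat_lit 1) (.e (nat_lit 295304) (nat_lit 0) .nil) .nil))) 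
(.lf (nat_lit 550740) (.g (nat_lit 1840) (.e (nat_lit 426099) (nat_lit 1) (.e (nat_lit 164399) (nat_lit 256) (.e (nat_lit 57375) (nat_lit 2) (.e (nat_lit 90176) (nat_lit 15) (.e (nat_lit 188423) (nat_lit 11) .nil))))) (.g (nat_lit 0) (.e (nat_lit 296178) (nat_lit 0) .nil) .nil))))) (.nd (nat_lit 8) (.nd (nat_lit 9) 
(.lf (nat_lit 550100) (.g (nat_lit 3611) (.e (nat_lit 426009) (nat_lit 0) (.e (nat_lit 3274) (nat_lit 199) (.e (nat_lit 548913) (nat_lit 18) (.e (nat_lit 172120) (nat_lit 12) (.e (nat_lit 475185) (nat_lit 29) .nil))))) (.g (nat_lit 0) (.e (nat_lit 295151) (nat_lit 0) .nil) .nil))) 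
(.lf (nat_lit 550612) (.g (nat_lit 1590) (.e (nat_lit 426098) (nat_lit 1) (.e (nat_lit 164399) (nat_lit 256) (.e (nat_lit 57377) (nat_lit 3) (.e (nat_lit 98362) (nat_lit 26) .nil)))) (.g (nat_lit 0) (.e (nat_lit 296029) (nat_lit 0) .nil) .nil)))) (.nd (nat_lit 9) 
(.lf (nat_lit 550356) (.g (nat_lit 2669) (.e (nat_lit 426098) (nat_lit 1) (.e (nat_lit 164179) (nat_lit 154) (.e (nat_lit 57411) (nat_lit 12) (.e (nat_lit 336320) (nat_lit 17) (.e (nat_lit 196674) (nat_lit 15) .nil))))) (.g (nat_lit 0) (.e (nat_lit 295589) (nat_lit 0) .nil) .nil))) 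
(.lf (nat_lit 550868) (.g (nat_lit 1767) (.e (nat_lit 426100) (nat_lit 1) (.e (nat_lit 164398) (nat_lit 256) (.e (nat_lit 57407) (nat_lit 12) (.e (nat_lit 336444) (nat_lit 32) .nil)))) (.g (nat_lit 0) (.e (nat_lit 296405) (nat_lit 0) .nil) .nil))))))) (.nd (nat_lit 6) (.nd (nat_lit 7) (.nd (nat_lit 8) (.nd (nat_lit 9) 
(.lf (nat_lit 549940) (.g (nat_lit 2280) (.e (nat_lit 417794) (nat_lit 0) (.e (nat_lit 5395) (nat_lit 301) (.e (nat_lit 57464) (nat_lit 23) (.e (nat_lit 516166) (nat_lit 12) (.e (nat_lit 450587) (nat_lit 10) (.e (nat_lit 573457) (nat_lit 9) (.e (nat_lit 365) (nat_lit 31) .nil))))))) (.g (nat_lit 1) (.e (nat_lit 294771) (nat_lit 0) .nil) .nil))) 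
(.lf (nat_lit 550452) (.g (nat_lit 2638) (.e (nat_lit 426098) (nat_lit 1) (.e (nat_lit 164325) (nat_lit 230) (.e (nat_lit 163877) (nat_lit 4) (.e (nat_lit 213032) (nat_lit 11) (.e (nat_lit 24655) (nat_lit 13) (.e (nat_lit 393281) (nat_lit 23) .nil)))))) (.g (nat_lit 1) (.e (nat_lit 295781) (nat_lit 0) .nil) .nil)))) (.nd (nat_lit 9) 
(.lf (nat_lit 550196) (.g (nat_lit 1764) (.e (nat_lit 426011) (nat_lit 0) (.e (nat_lit 7593) (nat_lit 407) (.e (nat_lit 73775) (nat_lit 26) (.e (nat_lit 778466) (nat_lit 11) (.e (nat_lit 24628) (nat_lit 9) .nil))))) (.g (nat_lit 0) (.e (nat_lit 295252) (nat_lit 0) .nil) .nil))) 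
(.lf (nat_lit 550708) (.g (nat_lit 1796) (.e (nat_lit 426099) (nat_lit 1) (.e (nat_lit 164398) (nat_lit 256) (.e (nat_lit 57373) (nat_lit 2) (.e (nat_lit 90178) (nat_lit 15) (.e (nat_lit 188421) (nat_lit 11) .nil))))) (.g (nat_lit 0) (.e (nat_lit 296146) (nat_lit 0) .nil) .nil))))) (.nd (nat_lit 8) (.nd (nat_lit 9) 
(.lf (nat_lit 550068) (.g (nat_lit 1862) (.e (nat_lit 425728) (nat_lit 19) (.e (nat_lit 311311) (nat_lit 2) (.e (nat_lit 196672) (nat_lit 15) (.e (nat_lit 81954) (nat_lit 23) (.e (nat_lit 98353) (nat_lit 25) .nil))))) (.g (nat_lit 0) (.e (nat_lit 295066) (nat_lit 0) .nil) .nil))) 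
(.lf (nat_lit 550580) (.g (nat_lit 1087) (.e (nat_lit 426098) (nat_lit 1) (.e (nat_lit 164348) (nat_lit 240) (.e (nat_lit 2638) (nat_lit 165) (.e (nat_lit 188160) (nat_lit 32) .nil)))) (.g (nat_lit 0) (.e (nat_lit 295990) (nat_lit 0) .nil) .nil)))) (.nd (nat_lit 9) 
(.lf (nat_lit 550324) (.g (nat_lit 1274) (.e (nat_lit 426095) (nat_lit 0) (.e (nat_lit 3238) (nat_lit 197) (.e (nat_lit 532499) (nat_lit 1) (.e (nat_lit 57688) (nat_lit 156) .nil)))) (.g (nat_lit 0) (.e (nat_lit 295487) (nat_lit 0) .nil) .nil))) 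
(.lf (nat_lit 550836) (.g (nat_lit 903) (.e (nat_lit 426100) (nat_lit 1) (.e (nat_lit 164398) (nat_lit 256) (.e (nat_lit 57348) (nat_lit 0) (.e (nat_lit 1795) (nat_lit 119) .nil)))) (.g (nat_lit 0) (.e (nat_lit 296373) (nat_lit 0) .nil) .nil)))))) (.nd (nat_lit 7) (.nd (nat_lit 8) (.nd (nat_lit 9) 
(.lf (nat_lit 550004) (.g (nat_lit 467) (.e (nat_lit 417811) (nat_lit 6) (.e (nat_lit 286749) (nat_lit 9) (.e (nat_lit 336358) (nat_lit 25) .nil))) (.g (nat_lit 0) (.e (nat_lit 294860) (nat_lit 0) .nil) .nil))) 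
(.lf (nat_lit 550516) (.g (nat_lit 3454) (.e (nat_lit 426098) (nat_lit 1) (.e (nat_lit 164327) (nat_lit 230) (.e (nat_lit 163873) (nat_lit 3) (.e (nat_lit 204813) (nat_lit 9) (.e (nat_lit 426199) (nat_lit 9) (.e (nat_lit 426480) (nat_lit 27) (.e (nat_lit 336388) (nat_lit 27) .nil))))))) (.g (nat_lit 1) (.e (nat_lit 295871) (nat_lit 0) .nil) .nil)))) (.nd (nat_lit 9) 
(.lf (nat_lit 550260) (.g (nat_lit 4363) (.e (nat_lit 426023) (nat_lit 0) (.e (nat_lit 3401) (nat_lit 211) (.e (nat_lit 647181) (nat_lit 3) (.e (nat_lit 163977) (nat_lit 30) (.e (nat_lit 573482) (nat_lit 13) (.e (nat_lit 65619) (nat_lit 10) (.e (nat_lit 344117) (nat_lit 21) (.e (nat_lit 516151) (nat_lit 9) .nil)))))))) (.g (nat_lit 1) (.e (nat_lit 295357) (nat_lit 0) .nil) .nil))) 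
(.lf (nat_lit 550772) (.g (nat_lit 864) (.e (nat_lit 426099) (nat_lit 1) (.e (nat_lit 164399) (nat_lit 256) (.e (nat_lit 57409) (nat_lit 12) (.e (nat_lit 336430) (nat_lit 29) .nil)))) (.g (nat_lit 0) (.e (nat_lit 296210) (nat_lit 0) .nil) .nil))))) (.nd (nat_lit 8) (.nd (nat_lit 9) 
(.lf (nat_lit 550132) (.g (nat_lit 2838) (.e (nat_lit 426010) (nat_lit 0) (.e (nat_lit 7581) (nat_lit 405) (.e (nat_lit 57464) (nat_lit 23) (.e (nat_lit 516166) (nat_lit 12) (.e (nat_lit 450587) (nat_lit 10) (.e (nat_lit 573457) (nat_lit 9) (.e (nat_lit 430) (nat_lit 32) .nil))))))) (.g (nat_lit 1) (.e (nat_lit 295186) (nat_lit 0) .nil) .nil))) 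
(.lf (nat_lit 550644) (.g (nat_lit 1900) (.e (nat_lit 426098) (nat_lit 1) (.e (nat_lit 164403) (nat_lit 256) (.e (nat_lit 57373) (nat_lit 2) (.e (nat_lit 90176) (nat_lit 15) (.e (nat_lit 196352) (nat_lit 11) .nil))))) (.g (nat_lit 0) (.e (nat_lit 296061) (nat_lit 0) .nil) .nil)))) (.nd (nat_lit 9) 
(.lf (nat_lit 550388) (.g (nat_lit 2691) (.e (nat_lit 426098) (nat_lit 1) (.e (nat_lit 164325) (nat_lit 230) (.e (nat_lit 163868) (nat_lit 2) (.e (nat_lit 196656) (nat_lit 11) (.e (nat_lit 16466) (nat_lit 13) (.e (nat_lit 483340) (nat_lit 9) .nil)))))) (.g (nat_lit 1) (.e (nat_lit 295676) (nat_lit 0) .nil) .nil))) 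
(.lf (nat_lit 550900) (.g (nat_lit 1886) (.e (nat_lit 426100) (nat_lit 1) (.e (nat_lit 164399) (nat_lit 256) (.e (nat_lit 57379) (nat_lit 3) (.e (nat_lit 98356) (nat_lit 26) (.e (nat_lit 426323) (nat_lit 13) .nil))))) (.g (nat_lit 0) (.e (nat_lit 296438) (nat_lit 0) .nil) .nil))))))))) (.nd (nat_lit 4) (.nd (nat_lit 5) (.nd (nat_lit 6) (.nd (nat_lit 7) (.nd (nat_lit 8) (.nd (nat_lit 9) 
(.lf (nat_lit 549900) (.g (nat_lit 2067) (.e (nat_lit 417536) (nat_lit 18) (.e (nat_lit 303119) (nat_lit 3) (.e (nat_lit 204869) (nat_lit 29) (.e (nat_lit 368384) (nat_lit 3) .nil)))) (.g (nat_lit 0) (.e (nat_lit 294590) (nat_lit 0) .nil) .nil))) 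
(.lf (nat_lit 550412) (.g (nat_lit 4128) (.e (nat_lit 426098) (nat_lit 1) (.e (nat_lit 164325) (nat_lit 230) (.e (nat_lit 163873) (nat_lit 3) (.e (nat_lit 204813) (nat_lit 9) (.e (nat_lit 426197) (nat_lit 9) (.e (nat_lit 426480) (nat_lit 27) (.e (nat_lit 336389) (nat_lit 27) .nil))))))) (.g (nat_lit 1) (.e (nat_lit 295717) (nat_lit 0) .nil) .nil)))) (.nd (nat_lit 9) 
(.lf (nat_lit 550156) (.g (nat_lit 2881) (.e (nat_lit 426011) (nat_lit 0) (.e (nat_lit 3549) (nat_lit 219) (.e (nat_lit 712754) (nat_lit 30) (.e (nat_lit 450588) (nat_lit 10) (.e (nat_lit 573473) (nat_lit 12) (.e (nat_lit 57508) (nat_lit 39) (.e (nat_lit 647195) (nat_lit 9) (.e (nat_lit 426) (nat_lit 32) .nil)))))))) (.g (nat_lit 1) (.e (nat_lit 295210) (nat_lit 0) .nil) .nil))) 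
(.lf (nat_lit 550668) (.g (nat_lit 2102) (.e (nat_lit 426099) (nat_lit 1) (.e (nat_lit 164330) (nat_lit 230) (.e (nat_lit 163869) (nat_lit 2) (.e (nat_lit 196654) (nat_lit 11) (.e (nat_lit 16466) (nat_lit 13) .nil))))) (.g (nat_lit 0) (.e (nat_lit 296092) (nat_lit 0) .nil) .nil))))) (.nd (nat_lit 8) (.nd (nat_lit 9) 
(.lf (nat_lit 550028) (.g (nat_lit 1840) (.e (nat_lit 417828) (nat_lit 18) (.e (nat_lit 303143) (nat_lit 12) (.e (nat_lit 475212) (nat_lit 42) (.e (nat_lit 720954) (nat_lit 25) .nil)))) (.g (nat_lit 0) (.e (nat_lit 294941) (nat_lit 0) .nil) .nil))) 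
(.lf (nat_lit 550540) (.g (nat_lit 1466) (.e (nat_lit 426098) (nat_lit 1) (.e (nat_lit 164327) (nat_lit 230) (.e (nat_lit 163875) (nat_lit 3) (.e (nat_lit 204813) (nat_lit 9) (.e (nat_lit 426188) (nat_lit 9) .nil))))) (.g (nat_lit 0) (.e (nat_lit 295913) (nat_lit 0) .nil) .nil)))) (.nd (nat_lit 9) 
(.lf (nat_lit 550284) (.g (nat_lit 2146) (.e (nat_lit 426039) (nat_lit 0) (.e (nat_lit 3238) (nat_lit 197) (.e (nat_lit 532550) (nat_lit 12) (.e (nat_lit 360475) (nat_lit 8) (.e (nat_lit 557091) (nat_lit 12) .nil))))) (.g (nat_lit 0) (.e (nat_lit 295391) (nat_lit 0) .nil) .nil))) 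
(.lf (nat_lit 550796) (.g (nat_lit 2839) (.e (nat_lit 426100) (nat_lit 1) (.e (nat_lit 164332) (nat_lit 230) (.e (nat_lit 163867) (nat_lit 2) (.e (nat_lit 196656) (nat_lit 11) (.e (nat_lit 16463) (nat_lit 13) (.e (nat_lit 491264) (nat_lit 9) .nil)))))) (.g (nat_lit 1) (.e (nat_lit 296277) (nat_lit 0) .nil) .nil)))))) (.nd (nat_lit 7) (.nd (nat_lit 8) (.nd (nat_lit 9) 
(.lf (nat_lit 549964) (.g (nat_lit 1431) (.e (nat_lit 417809) (nat_lit 6) (.e (nat_lit 286743) (nat_lit 9) (.e (nat_lit 336426) (nat_lit 29) (.e (nat_lit 442430) (nat_lit 24) (.e (nat_lit 229679) (nat_lit 244) .nil))))) (.g (nat_lit 0) (.e (nat_lit 294806) (nat_lit 0) .nil) .nil))) 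
(.lf (nat_lit 550476) (.g (nat_lit 2289) (.e (nat_lit 426098) (nat_lit 1) (.e (nat_lit 164327) (nat_lit 230) (.e (nat_lit 163868) (nat_lit 2) (.e (nat_lit 196656) (nat_lit 11) (.e (nat_lit 16438) (nat_lit 9) .nil))))) (.g (nat_lit 0) (.e (nat_lit 295816) (nat_lit 0) .nil) .nil)))) (.nd (nat_lit 9) 
(.lf (nat_lit 550220) (.g (nat_lit 473) (.e (nat_lit 426022) (nat_lit 0) (.e (nat_lit 7107) (nat_lit 380) (.e (nat_lit 164288) (nat_lit 224) .nil))) (.g (nat_lit 0) (.e (nat_lit 295281) (nat_lit 0) .nil) .nil))) 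
(.lf (nat_lit 550732) (.g (nat_lit 1757) (.e (nat_lit 426099) (nat_lit 1) (.e (nat_lit 164399) (nat_lit 256) (.e (nat_lit 57372) (nat_lit 2) (.e (nat_lit 90169) (nat_lit 13) (.e (nat_lit 172121) (nat_lit 13) .nil))))) (.g (nat_lit 0) (.e (nat_lit 296170) (nat_lit 0) .nil) .nil))))) (.nd (nat_lit 8) (.nd (nat_lit 9) 
(.lf (nat_lit 550092) (.g (nat_lit 1543) (.e (nat_lit 426003) (nat_lit 0) (.e (nat_lit 3238) (nat_lit 197) (.e (nat_lit 532482) (nat_lit 0) (.e (nat_lit 6724) (nat_lit 362) (.e (nat_lit 180250) (nat_lit 10) .nil))))) (.g (nat_lit 0) (.e (nat_lit 295135) (nat_lit 0) .nil) .nil))) 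
(.lf (nat_lit 550604) (.g (nat_lit 1615) (.e (nat_lit 426098) (nat_lit 1) (.e (nat_lit 164399) (nat_lit 256) (.e (nat_lit 57372) (nat_lit 2) (.e (nat_lit 90178) (nat_lit 15) (.e (nat_lit 188421) (nat_lit 11) .nil))))) (.g (nat_lit 0) (.e (nat_lit 296021) (nat_lit 0) .nil) .nil)))) (.nd (nat_lit 9) 
(.lf (nat_lit 550348) (.g (nat_lit 493) (.e (nat_lit 426098) (nat_lit 1) (.e (nat_lit 164179) (nat_lit 154) (.e (nat_lit 57405) (nat_lit 12) .nil))) (.g (nat_lit 0) (.e (nat_lit 295579) (nat_lit 0) .nil) .nil))) 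
(.lf (nat_lit 550860) (.g (nat_lit 2870) (.e (nat_lit 426100) (nat_lit 1) (.e (nat_lit 164398) (nat_lit 256) (.e (nat_lit 57379) (nat_lit 3) (.e (nat_lit 98358) (nat_lit 26) (.e (nat_lit 426323) (nat_lit 13) .nil))))) (.g (nat_lit 0) (.e (nat_lit 296397) (nat_lit 0) .nil) .nil))))))) (.nd (nat_lit 6) (.nd (nat_lit 7) (.nd (nat_lit 8) (.nd (nat_lit 9) 
(.lf (nat_lit 549932) (.g (nat_lit 2261) (.e (nat_lit 409642) (nat_lit 17) (.e (nat_lit 294974) (nat_lit 29) (.e (nat_lit 442399) (nat_lit 20) (.e (nat_lit 3397) (nat_lit 211) (.e (nat_lit 647183) (nat_lit 4) (.e (nat_lit 172082) (nat_lit 7) .nil)))))) (.g (nat_lit 1) (.e (nat_lit 294751) (nat_lit 0) .nil) .nil))) 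
(.lf (nat_lit 550444) (.g (nat_lit 1338) (.e (nat_lit 426098) (nat_lit 1) (.e (nat_lit 164325) (nat_lit 230) (.e (nat_lit 163874) (nat_lit 3) (.e (nat_lit 204813) (nat_lit 9) (.e (nat_lit 426200) (nat_lit 9) .nil))))) (.g (nat_lit 0) (.e (nat_lit 295764) (nat_lit 0) .nil) .nil)))) (.nd (nat_lit 9) 
(.lf (nat_lit 550188) (.g (nat_lit 3670) (.e (nat_lit 426011) (nat_lit 0) (.e (nat_lit 7583) (nat_lit 405) (.e (nat_lit 57464) (nat_lit 23) (.e (nat_lit 516151) (nat_lit 9) (.e (nat_lit 426286) (nat_lit 10) (.e (nat_lit 434245) (nat_lit 28) (.e (nat_lit 573458) (nat_lit 9) (.e (nat_lit 426) (nat_lit 32) .nil)))))))) (.g (nat_lit 1) (.e (nat_lit 295242) (nat_lit 0) .nil) .nil))) 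
(.lf (nat_lit 550700) (.g (nat_lit 1447) (.e (nat_lit 426099) (nat_lit 1) (.e (nat_lit 164345) (nat_lit 240) (.e (nat_lit 2638) (nat_lit 165) (.e (nat_lit 180277) (nat_lit 32) (.e (nat_lit 1658) (nat_lit 115) .nil))))) (.g (nat_lit 0) (.e (nat_lit 296138) (nat_lit 0) .nil) .nil))))) (.nd (nat_lit 8) (.nd (nat_lit 9) 
(.lf (nat_lit 550060) (.g (nat_lit 3145) (.e (nat_lit 417829) (nat_lit 18) (.e (nat_lit 303145) (nat_lit 13) (.e (nat_lit 483346) (nat_lit 17) (.e (nat_lit 981) (nat_lit 81) .nil)))) (.g (nat_lit 0) (.e (nat_lit 295010) (nat_lit 0) .nil) .nil))) 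
(.lf (nat_lit 550572) (.g (nat_lit 3636) (.e (nat_lit 426098) (nat_lit 1) (.e (nat_lit 164332) (nat_lit 230) (.e (nat_lit 163869) (nat_lit 2) (.e (nat_lit 196656) (nat_lit 11) (.e (nat_lit 16466) (nat_lit 13) (.e (nat_lit 483341) (nat_lit 9) .nil)))))) (.g (nat_lit 1) (.e (nat_lit 295965) (nat_lit 0) .nil) .nil)))) (.nd (nat_lit 9) 
(.lf (nat_lit 550316) (.g (nat_lit 2027) (.e (nat_lit 426068) (nat_lit 0) (.e (nat_lit 3249) (nat_lit 197) (.e (nat_lit 532569) (nat_lit 16) (.e (nat_lit 401448) (nat_lit 10) (.e (nat_lit 434246) (nat_lit 28) .nil))))) (.g (nat_lit 0) (.e (nat_lit 295476) (nat_lit 0) .nil) .nil))) 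
(.lf (nat_lit 550828) (.g (nat_lit 3427) (.e (nat_lit 426100) (nat_lit 1) (.e (nat_lit 164332) (nat_lit 230) (.e (nat_lit 163874) (nat_lit 3) (.e (nat_lit 204829) (nat_lit 18) (.e (nat_lit 57909) (nat_lit 278) (.e (nat_lit 2553) (nat_lit 159) (.e (nat_lit 24608) (nat_lit 3) (.e (nat_lit 98365) (nat_lit 26) .nil)))))))) (.g (nat_lit 1) (.e (nat_lit 296365) (nat_lit 0) .nil) .nil)))))) 
(.nd (nat_lit 7) (.nd (nat_lit 8) (.nd (nat_lit 9) 
(.lf (nat_lit 549996) (.g (nat_lit 2873) (.e (nat_lit 417811) (nat_lit 6) (.e (nat_lit 286733) (nat_lit 2) (.e (nat_lit 90170) (nat_lit 13) (.e (nat_lit 172124) (nat_lit 14) (.e (nat_lit 491540) (nat_lit 3) .nil))))) (.g (nat_lit 0) (.e (nat_lit 294850) (nat_lit 0) .nil) .nil))) 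
(.lf (nat_lit 550508) (.g (nat_lit 3593) (.e (nat_lit 426098) (nat_lit 1) (.e (nat_lit 164327) (nat_lit 230) (.e (nat_lit 163873) (nat_lit 3) (.e (nat_lit 204813) (nat_lit 9) (.e (nat_lit 426196) (nat_lit 9) .nil))))) (.g (nat_lit 0) (.e (nat_lit 295863) (nat_lit 0) .nil) .nil)))) (.nd (nat_lit 9) 
(.lf (nat_lit 550252) (.g (nat_lit 2345) (.e (nat_lit 426025) (nat_lit 0) (.e (nat_lit 3399) (nat_lit 211) (.e (nat_lit 647183) (nat_lit 4) (.e (nat_lit 172126) (nat_lit 14) (.e (nat_lit 491570) (nat_lit 13) (.e (nat_lit 393277) (nat_lit 23) .nil)))))) (.g (nat_lit 1) (.e (nat_lit 295341) (nat_lit 0) .nil) .nil))) 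
(.lf (nat_lit 550764) (.g (nat_lit 1493) (.e (nat_lit 426099) (nat_lit 1) (.e (nat_lit 164399) (nat_lit 256) (.e (nat_lit 57379) (nat_lit 3) (.e (nat_lit 98381) (nat_lit 31) (.e (nat_lit 466952) (nat_lit 11) .nil))))) (.g (nat_lit 0) (.e (nat_lit 296202) (nat_lit 0) .nil) .nil))))) (.nd (nat_lit 8) (.nd (nat_lit 9) 
(.lf (nat_lit 550124) (.g (nat_lit 4064) (.e (nat_lit 426010) (nat_lit 0) (.e (nat_lit 7581) (nat_lit 405) (.e (nat_lit 57464) (nat_lit 23) (.e (nat_lit 516151) (nat_lit 9) (.e (nat_lit 426286) (nat_lit 10) (.e (nat_lit 434245) (nat_lit 28) (.e (nat_lit 573451) (nat_lit 9) (.e (nat_lit 430) (nat_lit 32) .nil)))))))) (.g (nat_lit 1) (.e (nat_lit 295178) (nat_lit 0) .nil) .nil))) 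
(.lf (nat_lit 550636) (.g (nat_lit 1911) (.e (nat_lit 426098) (nat_lit 1) (.e (nat_lit 164399) (nat_lit 256) (.e (nat_lit 57447) (nat_lit 19) (.e (nat_lit 393281) (nat_lit 23) (.e (nat_lit 426137) (nat_lit 3) .nil))))) (.g (nat_lit 0) (.e (nat_lit 296053) (nat_lit 0) .nil) .nil)))) (.nd (nat_lit 9) 
(.lf (nat_lit 550380) (.g (nat_lit 3226) (.e (nat_lit 426098) (nat_lit 1) (.e (nat_lit 164325) (nat_lit 230) (.e (nat_lit 163866) (nat_lit 2) (.e (nat_lit 196654) (nat_lit 11) (.e (nat_lit 16466) (nat_lit 13) (.e (nat_lit 483337) (nat_lit 9) .nil)))))) (.g (nat_lit 1) (.e (nat_lit 295658) (nat_lit 0) .nil) .nil))) 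
(.lf (nat_lit 550892) (.g (nat_lit 1584) (.e (nat_lit 426100) (nat_lit 1) (.e (nat_lit 164399) (nat_lit 256) (.e (nat_lit 57377) (nat_lit 3) (.e (nat_lit 98381) (nat_lit 31) .nil)))) (.g (nat_lit 0) (.e (nat_lit 296430) (nat_lit 0) .nil) .nil)))))))) (.nd (nat_lit 5) (.nd (nat_lit 6) (.nd (nat_lit 7) (.nd (nat_lit 8) (.nd (nat_lit 9) 
(.lf (nat_lit 549916) (.g (nat_lit 611) (.e (nat_lit 417536) (nat_lit 19) (.e (nat_lit 311314) (nat_lit 3) (.e (nat_lit 204868) (nat_lit 29) (.e (nat_lit 360466) (nat_lit 3) .nil)))) (.g (nat_lit 0) (.e (nat_lit 294709) (nat_lit 0) .nil) .nil))) 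
(.lf (nat_lit 550428) (.g (nat_lit 3389) (.e (nat_lit 426098) (nat_lit 1) (.e (nat_lit 164325) (nat_lit 230) (.e (nat_lit 163873) (nat_lit 3) (.e (nat_lit 204813) (nat_lit 9) (.e (nat_lit 426199) (nat_lit 9) (.e (nat_lit 426491) (nat_lit 27) (.e (nat_lit 336406) (nat_lit 27) .nil))))))) (.g (nat_lit 1) (.e (nat_lit 295734) (nat_lit 0) .nil) .nil)))) (.nd (nat_lit 9) 
(.lf (nat_lit 550172) (.g (nat_lit 4457) (.e (nat_lit 426011) (nat_lit 0) (.e (nat_lit 7581) (nat_lit 405) (.e (nat_lit 57463) (nat_lit 23) (.e (nat_lit 516166) (nat_lit 12) (.e (nat_lit 450587) (nat_lit 10) (.e (nat_lit 573456) (nat_lit 9) (.e (nat_lit 430) (nat_lit 32) .nil))))))) (.g (nat_lit 1) (.e (nat_lit 295226) (nat_lit 0) .nil) .nil))) 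
(.lf (nat_lit 550684) (.g (nat_lit 4226) (.e (nat_lit 426099) (nat_lit 1) (.e (nat_lit 164332) (nat_lit 230) (.e (nat_lit 163869) (nat_lit 2) (.e (nat_lit 196656) (nat_lit 11) (.e (nat_lit 16466) (nat_lit 13) (.e (nat_lit 483341) (nat_lit 9) .nil)))))) (.g (nat_lit 1) (.e (nat_lit 296116) (nat_lit 0) .nil) .nil))))) (.nd (nat_lit 8) (.nd (nat_lit 9) 
(.lf (nat_lit 550044) (.g (nat_lit 2255) (.e (nat_lit 417829) (nat_lit 18) (.e (nat_lit 303117) (nat_lit 2) (.e (nat_lit 196674) (nat_lit 15) (.e (nat_lit 81954) (nat_lit 23) .nil)))) (.g (nat_lit 0) (.e (nat_lit 294989) (nat_lit 0) .nil) .nil))) 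
(.lf (nat_lit 550556) (.g (nat_lit 2983) (.e (nat_lit 426098) (nat_lit 1) (.e (nat_lit 164327) (nat_lit 230) (.e (nat_lit 163875) (nat_lit 3) (.e (nat_lit 204813) (nat_lit 9) (.e (nat_lit 426200) (nat_lit 9) (.e (nat_lit 426509) (nat_lit 27) (.e (nat_lit 336412) (nat_lit 27) .nil))))))) (.g (nat_lit 1) (.e (nat_lit 295936) (nat_lit 0) .nil) .nil)))) (.nd (nat_lit 9) 
(.lf (nat_lit 550300) (.g (nat_lit 2221) (.e (nat_lit 426043) (nat_lit 0) (.e (nat_lit 3469) (nat_lit 217) (.e (nat_lit 696344) (nat_lit 8) (.e (nat_lit 172121) (nat_lit 13) (.e (nat_lit 483412) (nat_lit 27) .nil))))) (.g (nat_lit 0) (.e (nat_lit 295441) (nat_lit 0) .nil) .nil))) 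
(.lf (nat_lit 550812) (.g (nat_lit 1647) (.e (nat_lit 426100) (nat_lit 1) (.e (nat_lit 164332) (nat_lit 230) (.e (nat_lit 163869) (nat_lit 2) (.e (nat_lit 196656) (nat_lit 11) (.e (nat_lit 16436) (nat_lit 9) .nil))))) (.g (nat_lit 0) (.e (nat_lit 296325) (nat_lit 0) .nil) .nil)))))) (.nd (nat_lit 7) (.nd (nat_lit 8) (.nd (nat_lit 9) 
(.lf (nat_lit 549980) (.g (nat_lit 2084) (.e (nat_lit 417810) (nat_lit 6) (.e (nat_lit 286733) (nat_lit 2) (.e (nat_lit 90172) (nat_lit 14) (.e (nat_lit 180285) (nat_lit 45) .nil)))) (.g (nat_lit 0) (.e (nat_lit 294830) (nat_lit 0) .nil) .nil))) 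
(.lf (nat_lit 550492) (.g (nat_lit 2786) (.e (nat_lit 426098) (nat_lit 1) (.e (nat_lit 164327) (nat_lit 230) (.e (nat_lit 163871) (nat_lit 2) (.e (nat_lit 196656) (nat_lit 11) (.e (nat_lit 16432) (nat_lit 9) (.e (nat_lit 426481) (nat_lit 27) (.e (nat_lit 336389) (nat_lit 27) .nil))))))) (.g (nat_lit 1) (.e (nat_lit 295841) (nat_lit 0) .nil) .nil)))) (.nd (nat_lit 9) 
(.lf (nat_lit 550236) (.g (nat_lit 1416) (.e (nat_lit 426025) (nat_lit 0) (.e (nat_lit 3397) (nat_lit 211) (.e (nat_lit 647183) (nat_lit 4) (.e (nat_lit 172126) (nat_lit 14) (.e (nat_lit 491549) (nat_lit 9) .nil))))) (.g (nat_lit 0) (.e (nat_lit 295315) (nat_lit 0) .nil) .nil))) 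
(.lf (nat_lit 550748) (.g (nat_lit 462) (.e (nat_lit 426099) (nat_lit 1) (.e (nat_lit 164399) (nat_lit 256) (.e (nat_lit 57378) (nat_lit 3) .nil))) (.g (nat_lit 0) (.e (nat_lit 296186) (nat_lit 0) .nil) .nil))))) (.nd (nat_lit 8) (.nd (nat_lit 9) 
(.lf (nat_lit 550108) (.g (nat_lit 2432) (.e (nat_lit 426009) (nat_lit 0) (.e (nat_lit 7583) (nat_lit 405) (.e (nat_lit 57464) (nat_lit 23) (.e (nat_lit 516166) (nat_lit 12) (.e (nat_lit 450587) (nat_lit 10) (.e (nat_lit 573457) (nat_lit 9) (.e (nat_lit 430) (nat_lit 32) .nil))))))) (.g (nat_lit 1) (.e (nat_lit 295162) (nat_lit 0) .nil) .nil))) 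
(.lf (nat_lit 550620) (.g (nat_lit 322) (.e (nat_lit 426098) (nat_lit 1) (.e (nat_lit 164399) (nat_lit 256) (.e (nat_lit 57378) (nat_lit 3) .nil))) (.g (nat_lit 0) (.e (nat_lit 296037) (nat_lit 0) .nil) .nil)))) (.nd (nat_lit 9) 
(.lf (nat_lit 550364) (.g (nat_lit 1415) (.e (nat_lit 426098) (nat_lit 1) (.e (nat_lit 164182) (nat_lit 154) (.e (nat_lit 57409) (nat_lit 12) (.e (nat_lit 336325) (nat_lit 18) .nil)))) (.g (nat_lit 0) (.e (nat_lit 295599) (nat_lit 0) .nil) .nil))) 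
(.lf (nat_lit 550876) (.g (nat_lit 1471) (.e (nat_lit 426100) (nat_lit 1) (.e (nat_lit 164399) (nat_lit 256) (.e (nat_lit 57370) (nat_lit 2) (.e (nat_lit 90176) (nat_lit 15) (.e (nat_lit 196352) (nat_lit 11) .nil))))) (.g (nat_lit 0) (.e (nat_lit 296414) (nat_lit 0) .nil) .nil))))))) (.nd (nat_lit 6) (.nd (nat_lit 7) (.nd (nat_lit 8) (.nd (nat_lit 9) 
(.lf (nat_lit 549948) (.g (nat_lit 1467) (.e (nat_lit 417796) (nat_lit 0) (.e (nat_lit 5401) (nat_lit 302) (.e (nat_lit 65649) (nat_lit 27) (.e (nat_lit 426024) (nat_lit 0) (.e (nat_lit 6989) (nat_lit 377) (.e (nat_lit 2779) (nat_lit 178) (.e (nat_lit 294656) (nat_lit 26) .nil))))))) (.g (nat_lit 1) (.e (nat_lit 294781) (nat_lit 0) .nil) .nil))) 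
(.lf (nat_lit 550460) (.g (nat_lit 2809) (.e (nat_lit 426098) (nat_lit 1) (.e (nat_lit 164327) (nat_lit 230) (.e (nat_lit 163868) (nat_lit 2) (.e (nat_lit 196654) (nat_lit 11) (.e (nat_lit 16436) (nat_lit 9) (.e (nat_lit 426491) (nat_lit 27) (.e (nat_lit 336407) (nat_lit 27) .nil))))))) (.g (nat_lit 1) (.e (nat_lit 295794) (nat_lit 0) .nil) .nil)))) (.nd (nat_lit 9) 
(.lf (nat_lit 550204) (.g (nat_lit 2913) (.e (nat_lit 426012) (nat_lit 0) (.e (nat_lit 7581) (nat_lit 405) (.e (nat_lit 57476) (nat_lit 28) (.e (nat_lit 557067) (nat_lit 9) (.e (nat_lit 2974) (nat_lit 185) (.e (nat_lit 434275) (nat_lit 39) (.e (nat_lit 663567) (nat_lit 4) (.e (nat_lit 65651) (nat_lit 27) .nil)))))))) (.g (nat_lit 1) (.e (nat_lit 295261) (nat_lit 0) .nil) .nil))) 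
(.lf (nat_lit 550716) (.g (nat_lit 1656) (.e (nat_lit 426099) (nat_lit 1) (.e (nat_lit 164398) (nat_lit 256) (.e (nat_lit 57378) (nat_lit 3) (.e (nat_lit 98370) (nat_lit 28) (.e (nat_lit 442390) (nat_lit 11) .nil))))) (.g (nat_lit 0) (.e (nat_lit 296154) (nat_lit 0) .nil) .nil))))) (.nd (nat_lit 8) (.nd (nat_lit 9) 
(.lf (nat_lit 550076) (.g (nat_lit 3007) (.e (nat_lit 425987) (nat_lit 0) (.e (nat_lit 7489) (nat_lit 402) (.e (nat_lit 1239) (nat_lit 91) (.e (nat_lit 90170) (nat_lit 13) (.e (nat_lit 172113) (nat_lit 10) (.e (nat_lit 434247) (nat_lit 28) (.e (nat_lit 573457) (nat_lit 9) (.e (nat_lit 428) (nat_lit 32) .nil)))))))) (.g (nat_lit 1) (.e (nat_lit 295103) (nat_lit 0) .nil) .nil))) 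
(.lf (nat_lit 550588) (.g (nat_lit 1550) (.e (nat_lit 426098) (nat_lit 1) (.e (nat_lit 164398) (nat_lit 256) (.e (nat_lit 57377) (nat_lit 3) (.e (nat_lit 98362) (nat_lit 26) .nil)))) (.g (nat_lit 0) (.e (nat_lit 296005) (nat_lit 0) .nil) .nil)))) (.nd (nat_lit 9) 
(.lf (nat_lit 550332) (.g (nat_lit 2646) (.e (nat_lit 426097) (nat_lit 1) (.e (nat_lit 164327) (nat_lit 230) (.e (nat_lit 163871) (nat_lit 2) (.e (nat_lit 196656) (nat_lit 11) (.e (nat_lit 16463) (nat_lit 13) .nil))))) (.g (nat_lit 0) (.e (nat_lit 295526) (nat_lit 0) .nil) .nil))) 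
(.lf (nat_lit 550844) (.g (nat_lit 2710) (.e (nat_lit 426100) (nat_lit 1) (.e (nat_lit 164398) (nat_lit 256) (.e (nat_lit 57372) (nat_lit 2) (.e (nat_lit 90185) (nat_lit 17) (.e (nat_lit 237620) (nat_lit 13) .nil))))) (.g (nat_lit 0) (.e (nat_lit 296381) (nat_lit 0) .nil) .nil)))))) (.nd (nat_lit 7) (.nd (nat_lit 8) (.nd (nat_lit 9) 
(.lf (nat_lit 550012) (.g (nat_lit 1655) (.e (nat_lit 417820) (nat_lit 10) (.e (nat_lit 5626) (nat_lit 312) (.e (nat_lit 2668) (nat_lit 167) (.e (nat_lit 196672) (nat_lit 15) .nil)))) (.g (nat_lit 0) (.e (nat_lit 294883) (nat_lit 0) .nil) .nil))) 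
(.lf (nat_lit 550524) (.g (nat_lit 1643) (.e (nat_lit 426098) (nat_lit 1) (.e (nat_lit 164327) (nat_lit 230) (.e (nat_lit 163873) (nat_lit 3) (.e (nat_lit 204813) (nat_lit 9) (.e (nat_lit 426200) (nat_lit 9) .nil))))) (.g (nat_lit 0) (.e (nat_lit 295880) (nat_lit 0) .nil) .nil)))) (.nd (nat_lit 9) 
(.lf (nat_lit 550268) (.g (nat_lit 2674) (.e (nat_lit 426031) (nat_lit 0) (.e (nat_lit 7562) (nat_lit 402) (.e (nat_lit 1235) (nat_lit 91) (.e (nat_lit 90170) (nat_lit 13) (.e (nat_lit 172113) (nat_lit 10) (.e (nat_lit 434247) (nat_lit 28) (.e (nat_lit 573457) (nat_lit 9) (.e (nat_lit 430) (nat_lit 32) .nil)))))))) (.g (nat_lit 1) (.e (nat_lit 295366) (nat_lit 0) .nil) .nil))) 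
(.lf (nat_lit 550780) (.g (nat_lit 1467) (.e (nat_lit 426100) (nat_lit 1) (.e (nat_lit 164305) (nat_lit 226) (.e (nat_lit 2612) (nat_lit 163) (.e (nat_lit 164042) (nat_lit 55) (.e (nat_lit 778470) (nat_lit 11) .nil))))) (.g (nat_lit 0) (.e (nat_lit 296225) (nat_lit 0) .nil) .nil))))) (.nd (nat_lit 8) (.nd (nat_lit 9) 
(.lf (nat_lit 550140) (.g (nat_lit 2489) (.e (nat_lit 426010) (nat_lit 0) (.e (nat_lit 7583) (nat_lit 405) (.e (nat_lit 57464) (nat_lit 23) (.e (nat_lit 516165) (nat_lit 12) (.e (nat_lit 450586) (nat_lit 10) (.e (nat_lit 573457) (nat_lit 9) (.e (nat_lit 430) (nat_lit 32) .nil))))))) (.g (nat_lit 1) (.e (nat_lit 295194) (nat_lit 0) .nil) .nil))) 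
(.lf (nat_lit 550652) (.g (nat_lit 2369) (.e (nat_lit 426098) (nat_lit 1) (.e (nat_lit 164403) (nat_lit 256) (.e (nat_lit 57378) (nat_lit 3) (.e (nat_lit 98370) (nat_lit 28) (.e (nat_lit 442389) (nat_lit 11) .nil))))) (.g (nat_lit 0) (.e (nat_lit 296069) (nat_lit 0) .nil) .nil)))) (.nd (nat_lit 9) 
(.lf (nat_lit 550396) (.g (nat_lit 394) (.e (nat_lit 426098) (nat_lit 1) (.e (nat_lit 164325) (nat_lit 230) (.e (nat_lit 163871) (nat_lit 2) .nil))) (.g (nat_lit 0) (.e (nat_lit 295691) (nat_lit 0) .nil) .nil))) 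
(.lf (nat_lit 550908) (.g (nat_lit 1588) (.e (nat_lit 426100) (nat_lit 1) (.e (nat_lit 164399) (nat_lit 256) (.e (nat_lit 57407) (nat_lit 12) (.e (nat_lit 336434) (nat_lit 30) .nil)))) (.g (nat_lit 0) (.e (nat_lit 296446) (nat_lit 0) .nil) .nil))))))))))) (.nd (nat_lit 2) (.nd (nat_lit 3) (.nd (nat_lit 4) (.nd (nat_lit 5) (.nd (nat_lit 6) (.nd (nat_lit 7) (.nd (nat_lit 8) (.nd (nat_lit 9) 
(.lf (nat_lit 549890) (.g (nat_lit 791) (.e (nat_lit 417536) (nat_lit 18) (.e (nat_lit 303119) (nat_lit 3) (.e (nat_lit 204861) (nat_lit 26) .nil))) (.g (nat_lit 0) (.e (nat_lit 294568) (nat_lit 0) .nil) .nil))) 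
(.lf (nat_lit 550402) (.g (nat_lit 3780) (.e (nat_lit 426098) (nat_lit 1) (.e (nat_lit 164325) (nat_lit 230) (.e (nat_lit 163871) (nat_lit 2) (.e (nat_lit 196656) (nat_lit 11) (.e (nat_lit 16463) (nat_lit 13) (.e (nat_lit 483337) (nat_lit 9) .nil)))))) (.g (nat_lit 1) (.e (nat_lit 295702) (nat_lit 0) .nil) .nil)))) (.nd (nat_lit 9) 
(.lf (nat_lit 550146) (.g (nat_lit 1497) (.e (nat_lit 426010) (nat_lit 0) (.e (nat_lit 7591) (nat_lit 407) (.e (nat_lit 73775) (nat_lit 26) (.e (nat_lit 778466) (nat_lit 11) (.e (nat_lit 24632) (nat_lit 9) .nil))))) (.g (nat_lit 0) (.e (nat_lit 295200) (nat_lit 0) .nil) .nil))) 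
(.lf (nat_lit 550658) (.g (nat_lit 1680) (.e (nat_lit 426098) (nat_lit 1) (.e (nat_lit 164403) (nat_lit 256) (.e (nat_lit 57445) (nat_lit 19) (.e (nat_lit 393287) (nat_lit 25) .nil)))) (.g (nat_lit 0) (.e (nat_lit 296075) (nat_lit 0) .nil) .nil))))) (.nd (nat_lit 8) (.nd (nat_lit 9) 
(.lf (nat_lit 550018) (.g (nat_lit 1372) (.e (nat_lit 417828) (nat_lit 18) (.e (nat_lit 303119) (nat_lit 3) (.e (nat_lit 204855) (nat_lit 26) (.e (nat_lit 336102) (nat_lit 9) .nil)))) (.g (nat_lit 0) (.e (nat_lit 294927) (nat_lit 0) .nil) .nil))) 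
(.lf (nat_lit 550530) (.g (nat_lit 3014) (.e (nat_lit 426098) (nat_lit 1) (.e (nat_lit 164327) (nat_lit 230) (.e (nat_lit 163873) (nat_lit 3) (.e (nat_lit 204813) (nat_lit 9) (.e (nat_lit 426200) (nat_lit 9) (.e (nat_lit 426487) (nat_lit 27) (.e (nat_lit 336407) (nat_lit 27) .nil))))))) (.g (nat_lit 1) (.e (nat_lit 295892) (nat_lit 0) .nil) .nil)))) (.nd (nat_lit 9) 
(.lf (nat_lit 550274) (.g (nat_lit 2573) (.e (nat_lit 426032) (nat_lit 0) (.e (nat_lit 3262) (nat_lit 198) (.e (nat_lit 540706) (nat_lit 12) (.e (nat_lit 360475) (nat_lit 8) (.e (nat_lit 557090) (nat_lit 12) (.e (nat_lit 164020) (nat_lit 45) (.e (nat_lit 696329) (nat_lit 5) (.e (nat_lit 2873) (nat_lit 184) .nil)))))))) (.g (nat_lit 1) (.e (nat_lit 295372) (nat_lit 0) .nil) .nil))) 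
(.lf (nat_lit 550786) (.g (nat_lit 2529) (.e (nat_lit 426100) (nat_lit 1) (.e (nat_lit 164330) (nat_lit 230) (.e (nat_lit 163876) (nat_lit 4) (.e (nat_lit 213032) (nat_lit 11) (.e (nat_lit 24658) (nat_lit 13) (.e (nat_lit 393281) (nat_lit 23) .nil)))))) (.g (nat_lit 1) (.e (nat_lit 296246) (nat_lit 0) .nil) .nil)))))) (.nd (nat_lit 7) (.nd (nat_lit 8) (.nd (nat_lit 9) 
(.lf (nat_lit 549954) (.g (nat_lit 2551) (.e (nat_lit 417813) (nat_lit 9) (.e (nat_lit 311315) (nat_lit 3) (.e (nat_lit 204846) (nat_lit 24) (.e (nat_lit 319504) (nat_lit 10) (.e (nat_lit 5396) (nat_lit 301) .nil))))) (.g (nat_lit 0) (.e (nat_lit 294795) (nat_lit 0) .nil) .nil))) 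
(.lf (nat_lit 550466) (.g (nat_lit 2249) (.e (nat_lit 426098) (nat_lit 1) (.e (nat_lit 164327) (nat_lit 230) (.e (nat_lit 163868) (nat_lit 2) (.e (nat_lit 196656) (nat_lit 11) (.e (nat_lit 16432) (nat_lit 9) .nil))))) (.g (nat_lit 0) (.e (nat_lit 295806) (nat_lit 0) .nil) .nil)))) (.nd (nat_lit 9) 
(.lf (nat_lit 550210) (.g (nat_lit 2384) (.e (nat_lit 426012) (nat_lit 0) (.e (nat_lit 7587) (nat_lit 406) (.e (nat_lit 65653) (nat_lit 27) (.e (nat_lit 426343) (nat_lit 14) (.e (nat_lit 491552) (nat_lit 9) (.e (nat_lit 336412) (nat_lit 27) .nil)))))) (.g (nat_lit 1) (.e (nat_lit 295267) (nat_lit 0) .nil) .nil))) 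
(.lf (nat_lit 550722) (.g (nat_lit 482) (.e (nat_lit 426099) (nat_lit 1) (.e (nat_lit 164398) (nat_lit 256) (.e (nat_lit 57409) (nat_lit 12) .nil))) (.g (nat_lit 0) (.e (nat_lit 296160) (nat_lit 0) .nil) .nil))))) (.nd (nat_lit 8) (.nd (nat_lit 9) 
(.lf (nat_lit 550082) (.g (nat_lit 2320) (.e (nat_lit 425986) (nat_lit 0) (.e (nat_lit 3309) (nat_lit 202) (.e (nat_lit 573475) (nat_lit 12) (.e (nat_lit 57574) (nat_lit 55) (.e (nat_lit 778466) (nat_lit 11) .nil))))) (.g (nat_lit 0) (.e (nat_lit 295117) (nat_lit 0) .nil) .nil))) 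
(.lf (nat_lit 550594) (.g (nat_lit 1864) (.e (nat_lit 426098) (nat_lit 1) (.e (nat_lit 164398) (nat_lit 256) (.e (nat_lit 57407) (nat_lit 12) (.e (nat_lit 336434) (nat_lit 30) .nil)))) (.g (nat_lit 0) (.e (nat_lit 296011) (nat_lit 0) .nil) .nil)))) (.nd (nat_lit 9) 
(.lf (nat_lit 550338) (.g (nat_lit 1650) (.e (nat_lit 426097) (nat_lit 1) (.e (nat_lit 164327) (nat_lit 230) (.e (nat_lit 163882) (nat_lit 4) (.e (nat_lit 213030) (nat_lit 11) (.e (nat_lit 24659) (nat_lit 13) .nil))))) (.g (nat_lit 0) (.e (nat_lit 295549) (nat_lit 0) .nil) .nil))) 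
(.lf (nat_lit 550850) (.g (nat_lit 1396) (.e (nat_lit 426100) (nat_lit 1) (.e (nat_lit 164398) (nat_lit 256) (.e (nat_lit 57377) (nat_lit 3) (.e (nat_lit 98363) (nat_lit 26) .nil)))) (.g (nat_lit 0) (.e (nat_lit 296387) (nat_lit 0) .nil) .nil))))))) (.nd (nat_lit 6) (.nd (nat_lit 7) (.nd (nat_lit 8) (.nd (nat_lit 9) 
(.lf (nat_lit 549922) (.g (nat_lit 51) (.e (nat_lit 417536) (nat_lit 16) (.e (nat_lit 286768) (nat_lit 27) (.e (nat_lit 426339) (nat_lit 14) .nil))) (.g (nat_lit 0) (.e (nat_lit 294726) (nat_lit 0) .nil) .nil))) 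
(.lf (nat_lit 550434) (.g (nat_lit 2908) (.e (nat_lit 426098) (nat_lit 1) (.e (nat_lit 164325) (nat_lit 230) (.e (nat_lit 163873) (nat_lit 3) (.e (nat_lit 204813) (nat_lit 9) (.e (nat_lit 426200) (nat_lit 9) (.e (nat_lit 426478) (nat_lit 27) (.e (nat_lit 336385) (nat_lit 27) .nil))))))) (.g (nat_lit 1) (.e (nat_lit 295741) (nat_lit 0) .nil) .nil)))) (.nd (nat_lit 9) 
(.lf (nat_lit 550178) (.g (nat_lit 3040) (.e (nat_lit 426011) (nat_lit 0) (.e (nat_lit 7581) (nat_lit 405) (.e (nat_lit 57464) (nat_lit 23) (.e (nat_lit 516151) (nat_lit 9) (.e (nat_lit 426286) (nat_lit 10) (.e (nat_lit 434248) (nat_lit 28) (.e (nat_lit 573457) (nat_lit 9) (.e (nat_lit 430) (nat_lit 32) .nil)))))))) (.g (nat_lit 1) (.e (nat_lit 295232) (nat_lit 0) .nil) .nil))) 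
(.lf (nat_lit 550690) (.g (nat_lit 2279) (.e (nat_lit 426099) (nat_lit 1) (.e (nat_lit 164332) (nat_lit 230) (.e (nat_lit 163878) (nat_lit 4) (.e (nat_lit 213032) (nat_lit 11) (.e (nat_lit 24657) (nat_lit 13) (.e (nat_lit 393281) (nat_lit 23) .nil)))))) (.g (nat_lit 1) (.e (nat_lit 296128) (nat_lit 0) .nil) .nil))))) (.nd (nat_lit 8) (.nd (nat_lit 9) 
(.lf (nat_lit 550050) (.g (nat_lit 3015) (.e (nat_lit 417829) (nat_lit 18) (.e (nat_lit 303119) (nat_lit 3) (.e (nat_lit 204868) (nat_lit 29) (.e (nat_lit 360467) (nat_lit 3) (.e (nat_lit 516142) (nat_lit 8) .nil))))) (.g (nat_lit 0) (.e (nat_lit 294998) (nat_lit 0) .nil) .nil))) 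
(.lf (nat_lit 550562) (.g (nat_lit 2847) (.e (nat_lit 426098) (nat_lit 1) (.e (nat_lit 164327) (nat_lit 230) (.e (nat_lit 163881) (nat_lit 4) (.e (nat_lit 213032) (nat_lit 11) (.e (nat_lit 24658) (nat_lit 13) (.e (nat_lit 393281) (nat_lit 23) .nil)))))) (.g (nat_lit 1) (.e (nat_lit 295948) (nat_lit 0) .nil) .nil)))) (.nd (nat_lit 9) 
(.lf (nat_lit 550306) (.g (nat_lit 665) (.e (nat_lit 426058) (nat_lit 0) (.e (nat_lit 3253) (nat_lit 197) (.e (nat_lit 532504) (nat_lit 1) .nil))) (.g (nat_lit 0) (.e (nat_lit 295452) (nat_lit 0) .nil) .nil))) 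
(.lf (nat_lit 550818) (.g (nat_lit 1381) (.e (nat_lit 426100) (nat_lit 1) (.e (nat_lit 164332) (nat_lit 230) (.e (nat_lit 163873) (nat_lit 3) (.e (nat_lit 204809) (nat_lit 9) (.e (nat_lit 426213) (nat_lit 9) (.e (nat_lit 426528) (nat_lit 27) (.e (nat_lit 336387) (nat_lit 27) .nil))))))) (.g (nat_lit 1) (.e (nat_lit 296339) (nat_lit 0) .nil) .nil)))))) 
(.nd (nat_lit 7) (.nd (nat_lit 8) (.nd (nat_lit 9) 
(.lf (nat_lit 549986) (.g (nat_lit 1719) (.e (nat_lit 417810) (nat_lit 6) (.e (nat_lit 286761) (nat_lit 13) (.e (nat_lit 393289) (nat_lit 25) (.e (nat_lit 466688) (nat_lit 18) .nil)))) (.g (nat_lit 0) (.e (nat_lit 294837) (nat_lit 0) .nil) .nil))) 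
(.lf (nat_lit 550498) (.g (nat_lit 3087) (.e (nat_lit 426098) (nat_lit 1) (.e (nat_lit 164327) (nat_lit 230) (.e (nat_lit 163871) (nat_lit 2) (.e (nat_lit 196656) (nat_lit 11) (.e (nat_lit 16438) (nat_lit 9) .nil))))) (.g (nat_lit 0) (.e (nat_lit 295847) (nat_lit 0) .nil) .nil)))) (.nd (nat_lit 9) 
(.lf (nat_lit 550242) (.g (nat_lit 3779) (.e (nat_lit 426025) (nat_lit 0) (.e (nat_lit 3397) (nat_lit 211) (.e (nat_lit 647183) (nat_lit 4) (.e (nat_lit 172126) (nat_lit 14) (.e (nat_lit 491571) (nat_lit 13) (.e (nat_lit 393277) (nat_lit 23) .nil)))))) (.g (nat_lit 1) (.e (nat_lit 295321) (nat_lit 0) .nil) .nil))) 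
(.lf (nat_lit 550754) (.g (nat_lit 1303) (.e (nat_lit 426099) (nat_lit 1) (.e (nat_lit 164399) (nat_lit 256) (.e (nat_lit 57378) (nat_lit 3) (.e (nat_lit 98365) (nat_lit 26) .nil)))) (.g (nat_lit 0) (.e (nat_lit 296192) (nat_lit 0) .nil) .nil))))) (.nd (nat_lit 8) (.nd (nat_lit 9) 
(.lf (nat_lit 550114) (.g (nat_lit 2911) (.e (nat_lit 426010) (nat_lit 0) (.e (nat_lit 7486) (nat_lit 402) (.e (nat_lit 1256) (nat_lit 92) (.e (nat_lit 98373) (nat_lit 29) (.e (nat_lit 450588) (nat_lit 10) (.e (nat_lit 573452) (nat_lit 9) (.e (nat_lit 430) (nat_lit 32) .nil))))))) (.g (nat_lit 1) (.e (nat_lit 295168) (nat_lit 0) .nil) .nil))) 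
(.lf (nat_lit 550626) (.g (nat_lit 1546) (.e (nat_lit 426098) (nat_lit 1) (.e (nat_lit 164399) (nat_lit 256) (.e (nat_lit 57379) (nat_lit 3) (.e (nat_lit 98354) (nat_lit 26) .nil)))) (.g (nat_lit 0) (.e (nat_lit 296043) (nat_lit 0) .nil) .nil)))) (.nd (nat_lit 9) 
(.lf (nat_lit 550370) (.g (nat_lit 1846) (.e (nat_lit 426098) (nat_lit 1) (.e (nat_lit 164182) (nat_lit 154) (.e (nat_lit 57411) (nat_lit 12) (.e (nat_lit 336325) (nat_lit 18) (.e (nat_lit 204876) (nat_lit 31) .nil))))) (.g (nat_lit 0) (.e (nat_lit 295607) (nat_lit 0) .nil) .nil))) 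
(.lf (nat_lit 550882) (.g (nat_lit 886) (.e (nat_lit 426100) (nat_lit 1) (.e (nat_lit 164399) (nat_lit 256) (.e (nat_lit 57373) (nat_lit 2) (.e (nat_lit 90176) (nat_lit 15) .nil)))) (.g (nat_lit 0) (.e (nat_lit 296420) (nat_lit 0) .nil) .nil)))))))) (.nd (nat_lit 5) (.nd (nat_lit 6) (.nd (nat_lit 7) (.nd (nat_lit 8) (.nd (nat_lit 9) 
(.lf (nat_lit 549906) (.g (nat_lit 1682) (.e (nat_lit 417536) (nat_lit 18) (.e (nat_lit 303119) (nat_lit 3) (.e (nat_lit 204877) (nat_lit 31) (.e (nat_lit 376855) (nat_lit 20) (.e (nat_lit 1800) (nat_lit 119) .nil))))) (.g (nat_lit 0) (.e (nat_lit 294599) (nat_lit 0) .nil) .nil))) 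
(.lf (nat_lit 550418) (.g (nat_lit 3622) (.e (nat_lit 426098) (nat_lit 1) (.e (nat_lit 164325) (nat_lit 230) (.e (nat_lit 163873) (nat_lit 3) (.e (nat_lit 204813) (nat_lit 9) (.e (nat_lit 426197) (nat_lit 9) (.e (nat_lit 426530) (nat_lit 27) (.e (nat_lit 336390) (nat_lit 27) .nil))))))) (.g (nat_lit 1) (.e (nat_lit 295723) (nat_lit 0) .nil) .nil)))) (.nd (nat_lit 9) 
(.lf (nat_lit 550162) (.g (nat_lit 2216) (.e (nat_lit 426011) (nat_lit 0) (.e (nat_lit 7490) (nat_lit 402) (.e (nat_lit 1239) (nat_lit 91) (.e (nat_lit 90170) (nat_lit 13) (.e (nat_lit 172113) (nat_lit 10) (.e (nat_lit 434248) (nat_lit 28) (.e (nat_lit 573452) (nat_lit 9) (.e (nat_lit 396) (nat_lit 32) .nil)))))))) (.g (nat_lit 1) (.e (nat_lit 295216) (nat_lit 0) .nil) .nil))) 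
(.lf (nat_lit 550674) (.g (nat_lit 795) (.e (nat_lit 426099) (nat_lit 1) (.e (nat_lit 164332) (nat_lit 230) (.e (nat_lit 163845) (nat_lit 0) (.e (nat_lit 3617) (nat_lit 227) .nil)))) (.g (nat_lit 0) (.e (nat_lit 296103) (nat_lit 0) .nil) .nil))))) (.nd (nat_lit 8) (.nd (nat_lit 9) 
(.lf (nat_lit 550034) (.g (nat_lit 3010) (.e (nat_lit 417828) (nat_lit 18) (.e (nat_lit 303145) (nat_lit 13) (.e (nat_lit 483346) (nat_lit 17) (.e (nat_lit 981) (nat_lit 81) .nil)))) (.g (nat_lit 0) (.e (nat_lit 294948) (nat_lit 0) .nil) .nil))) 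
(.lf (nat_lit 550546) (.g (nat_lit 1407) (.e (nat_lit 426098) (nat_lit 1) (.e (nat_lit 164327) (nat_lit 230) (.e (nat_lit 163875) (nat_lit 3) (.e (nat_lit 204813) (nat_lit 9) (.e (nat_lit 426200) (nat_lit 9) .nil))))) (.g (nat_lit 0) (.e (nat_lit 295919) (nat_lit 0) .nil) .nil)))) (.nd (nat_lit 9) 
(.lf (nat_lit 550290) (.g (nat_lit 1797) (.e (nat_lit 426042) (nat_lit 0) (.e (nat_lit 3407) (nat_lit 212) (.e (nat_lit 655375) (nat_lit 3) (.e (nat_lit 163978) (nat_lit 30) (.e (nat_lit 573490) (nat_lit 15) .nil))))) (.g (nat_lit 0) (.e (nat_lit 295404) (nat_lit 0) .nil) .nil))) 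
(.lf (nat_lit 550802) (.g (nat_lit 1951) (.e (nat_lit 426100) (nat_lit 1) (.e (nat_lit 164332) (nat_lit 230) (.e (nat_lit 163869) (nat_lit 2) (.e (nat_lit 196653) (nat_lit 11) (.e (nat_lit 16468) (nat_lit 13) .nil))))) (.g (nat_lit 0) (.e (nat_lit 296312) (nat_lit 0) .nil) .nil)))))) (.nd (nat_lit 7) (.nd (nat_lit 8) (.nd (nat_lit 9) 
(.lf (nat_lit 549970) (.g (nat_lit 1414) (.e (nat_lit 417810) (nat_lit 6) (.e (nat_lit 286732) (nat_lit 2) (.e (nat_lit 90172) (nat_lit 14) (.e (nat_lit 188160) (nat_lit 35) .nil)))) (.g (nat_lit 0) (.e (nat_lit 294820) (nat_lit 0) .nil) .nil))) 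
(.lf (nat_lit 550482) (.g (nat_lit 2670) (.e (nat_lit 426098) (nat_lit 1) (.e (nat_lit 164327) (nat_lit 230) (.e (nat_lit 163871) (nat_lit 2) (.e (nat_lit 196654) (nat_lit 11) (.e (nat_lit 16436) (nat_lit 9) (.e (nat_lit 426491) (nat_lit 27) (.e (nat_lit 336406) (nat_lit 27) .nil))))))) (.g (nat_lit 1) (.e (nat_lit 295828) (nat_lit 0) .nil) .nil)))) (.nd (nat_lit 9) 
(.lf (nat_lit 550226) (.g (nat_lit 4342) (.e (nat_lit 426025) (nat_lit 0) (.e (nat_lit 3397) (nat_lit 211) (.e (nat_lit 647181) (nat_lit 3) (.e (nat_lit 163979) (nat_lit 30) (.e (nat_lit 573492) (nat_lit 15) (.e (nat_lit 81956) (nat_lit 23) (.e (nat_lit 98354) (nat_lit 26) .nil))))))) (.g (nat_lit 1) (.e (nat_lit 295302) (nat_lit 0) .nil) .nil))) 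
(.lf (nat_lit 550738) (.g (nat_lit 2166) (.e (nat_lit 426099) (nat_lit 1) (.e (nat_lit 164399) (nat_lit 256) (.e (nat_lit 57373) (nat_lit 2) (.e (nat_lit 90178) (nat_lit 15) (.e (nat_lit 188421) (nat_lit 11) .nil))))) (.g (nat_lit 0) (.e (nat_lit 296176) (nat_lit 0) .nil) .nil))))) (.nd (nat_lit 8) (.nd (nat_lit 9) 
(.lf (nat_lit 550098) (.g (nat_lit 1078) (.e (nat_lit 426003) (nat_lit 0) (.e (nat_lit 7589) (nat_lit 406) (.e (nat_lit 65653) (nat_lit 27) (.e (nat_lit 426343) (nat_lit 14) (.e (nat_lit 491552) (nat_lit 9) .nil))))) (.g (nat_lit 0) (.e (nat_lit 295146) (nat_lit 0) .nil) .nil))) 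
(.lf (nat_lit 550610) (.g (nat_lit 529) (.e (nat_lit 426098) (nat_lit 1) (.e (nat_lit 164399) (nat_lit 256) (.e (nat_lit 57376) (nat_lit 3) .nil))) (.g (nat_lit 0) (.e (nat_lit 296027) (nat_lit 0) .nil) .nil)))) (.nd (nat_lit 9) 
(.lf (nat_lit 550354) (.g (nat_lit 2169) (.e (nat_lit 426098) (nat_lit 1) (.e (nat_lit 164179) (nat_lit 154) (.e (nat_lit 57409) (nat_lit 12) (.e (nat_lit 336324) (nat_lit 18) (.e (nat_lit 204876) (nat_lit 31) .nil))))) (.g (nat_lit 0) (.e (nat_lit 295587) (nat_lit 0) .nil) .nil))) 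
(.lf (nat_lit 550866) (.g (nat_lit 1505) (.e (nat_lit 426100) (nat_lit 1) (.e (nat_lit 164398) (nat_lit 256) (.e (nat_lit 57406) (nat_lit 12) (.e (nat_lit 336444) (nat_lit 32) .nil)))) (.g (nat_lit 0) (.e (nat_lit 296403) (nat_lit 0) .nil) .nil))))))) (.nd (nat_lit 6) (.nd (nat_lit 7) (.nd (nat_lit 8) (.nd (nat_lit 9) 
(.lf (nat_lit 549938) (.g (nat_lit 3547) (.e (nat_lit 417794) (nat_lit 0) (.e (nat_lit 5271) (nat_lit 298) (.e (nat_lit 1239) (nat_lit 91) (.e (nat_lit 90170) (nat_lit 13) (.e (nat_lit 172113) (nat_lit 10) (.e (nat_lit 434247) (nat_lit 28) (.e (nat_lit 573457) (nat_lit 9) (.e (nat_lit 365) (nat_lit 31) .nil)))))))) (.g (nat_lit 1) (.e (nat_lit 294769) (nat_lit 0) .nil) .nil))) 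
(.lf (nat_lit 550450) (.g (nat_lit 2568) (.e (nat_lit 426098) (nat_lit 1) (.e (nat_lit 164325) (nat_lit 230) (.e (nat_lit 163875) (nat_lit 3) (.e (nat_lit 204813) (nat_lit 9) (.e (nat_lit 426198) (nat_lit 9) (.e (nat_lit 426509) (nat_lit 27) (.e (nat_lit 336412) (nat_lit 27) .nil))))))) (.g (nat_lit 1) (.e (nat_lit 295774) (nat_lit 0) .nil) .nil)))) (.nd (nat_lit 9) 
(.lf (nat_lit 550194) (.g (nat_lit 1324) (.e (nat_lit 426011) (nat_lit 0) (.e (nat_lit 7593) (nat_lit 407) (.e (nat_lit 73775) (nat_lit 26) (.e (nat_lit 778464) (nat_lit 11) (.e (nat_lit 24636) (nat_lit 9) .nil))))) (.g (nat_lit 0) (.e (nat_lit 295250) (nat_lit 0) .nil) .nil))) 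
(.lf (nat_lit 550706) (.g (nat_lit 1132) (.e (nat_lit 426099) (nat_lit 1) (.e (nat_lit 164398) (nat_lit 256) (.e (nat_lit 57373) (nat_lit 2) (.e (nat_lit 90176) (nat_lit 15) .nil)))) (.g (nat_lit 0) (.e (nat_lit 296144) (nat_lit 0) .nil) .nil))))) (.nd (nat_lit 8) (.nd (nat_lit 9) 
(.lf (nat_lit 550066) (.g (nat_lit 1395) (.e (nat_lit 425728) (nat_lit 18) (.e (nat_lit 303118) (nat_lit 3) (.e (nat_lit 204868) (nat_lit 29) (.e (nat_lit 360466) (nat_lit 3) .nil)))) (.g (nat_lit 0) (.e (nat_lit 295038) (nat_lit 0) .nil) .nil))) 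
(.lf (nat_lit 550578) (.g (nat_lit 2578) (.e (nat_lit 426098) (nat_lit 1) (.e (nat_lit 164346) (nat_lit 240) (.e (nat_lit 2638) (nat_lit 165) (.e (nat_lit 180277) (nat_lit 32) (.e (nat_lit 1660) (nat_lit 115) (.e (nat_lit 393281) (nat_lit 23) .nil)))))) (.g (nat_lit 1) (.e (nat_lit 295976) (nat_lit 0) .nil) .nil)))) (.nd (nat_lit 9) 
(.lf (nat_lit 550322) (.g (nat_lit 2447) (.e (nat_lit 426093) (nat_lit 0) (.e (nat_lit 3238) (nat_lit 197) (.e (nat_lit 532550) (nat_lit 12) (.e (nat_lit 360474) (nat_lit 8) (.e (nat_lit 557094) (nat_lit 12) .nil))))) (.g (nat_lit 0) (.e (nat_lit 295485) (nat_lit 0) .nil) .nil))) 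
(.lf (nat_lit 550834) (.g (nat_lit 1278) (.e (nat_lit 426100) (nat_lit 1) (.e (nat_lit 164397) (nat_lit 256) (.e (nat_lit 57379) (nat_lit 3) (.e (nat_lit 98363) (nat_lit 26) (.e (nat_lit 426321) (nat_lit 13) .nil))))) (.g (nat_lit 0) (.e (nat_lit 296371) (nat_lit 0) .nil) .nil)))))) (.nd (nat_lit 7) (.nd (nat_lit 8) (.nd (nat_lit 9) 
(.lf (nat_lit 550002) (.g (nat_lit 1831) (.e (nat_lit 417811) (nat_lit 6) (.e (nat_lit 286740) (nat_lit 7) (.e (nat_lit 319534) (nat_lit 16) (.e (nat_lit 286756) (nat_lit 10) (.e (nat_lit 344154) (nat_lit 35) .nil))))) (.g (nat_lit 0) (.e (nat_lit 294856) (nat_lit 0) .nil) .nil))) 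
(.lf (nat_lit 550514) (.g (nat_lit 3239) (.e (nat_lit 426098) (nat_lit 1) (.e (nat_lit 164327) (nat_lit 230) (.e (nat_lit 163873) (nat_lit 3) (.e (nat_lit 204813) (nat_lit 9) (.e (nat_lit 426198) (nat_lit 9) (.e (nat_lit 426489) (nat_lit 27) (.e (nat_lit 336407) (nat_lit 27) .nil))))))) (.g (nat_lit 1) (.e (nat_lit 295869) (nat_lit 0) .nil) .nil)))) (.nd (nat_lit 9) 
(.lf (nat_lit 550258) (.g (nat_lit 4488) (.e (nat_lit 426023) (nat_lit 0) (.e (nat_lit 3397) (nat_lit 211) (.e (nat_lit 647181) (nat_lit 3) (.e (nat_lit 163977) (nat_lit 30) (.e (nat_lit 573485) (nat_lit 13) (.e (nat_lit 65619) (nat_lit 10) (.e (nat_lit 344117) (nat_lit 21) (.e (nat_lit 516151) (nat_lit 9) .nil)))))))) (.g (nat_lit 1) (.e (nat_lit 295355) (nat_lit 0) .nil) .nil))) 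
(.lf (nat_lit 550770) (.g (nat_lit 1236) (.e (nat_lit 426099) (nat_lit 1) (.e (nat_lit 164399) (nat_lit 256) (.e (nat_lit 57408) (nat_lit 12) (.e (nat_lit 336443) (nat_lit 32) (.e (nat_lit 466979) (nat_lit 23) .nil))))) (.g (nat_lit 0) (.e (nat_lit 296208) (nat_lit 0) .nil) .nil))))) (.nd (nat_lit 8) (.nd (nat_lit 9) 
(.lf (nat_lit 550130) (.g (nat_lit 2682) (.e (nat_lit 426010) (nat_lit 0) (.e (nat_lit 7581) (nat_lit 405) (.e (nat_lit 57464) (nat_lit 23) (.e (nat_lit 516165) (nat_lit 12) (.e (nat_lit 450586) (nat_lit 10) (.e (nat_lit 573457) (nat_lit 9) (.e (nat_lit 430) (nat_lit 32) .nil))))))) (.g (nat_lit 1) (.e (nat_lit 295184) (nat_lit 0) .nil) .nil))) 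
(.lf (nat_lit 550642) (.g (nat_lit 2443) (.e (nat_lit 426098) (nat_lit 1) (.e (nat_lit 164403) (nat_lit 256) (.e (nat_lit 57371) (nat_lit 2) (.e (nat_lit 90176) (nat_lit 15) (.e (nat_lit 188421) (nat_lit 11) .nil))))) (.g (nat_lit 0) (.e (nat_lit 296059) (nat_lit 0) .nil) .nil)))) (.nd (nat_lit 9) 
(.lf (nat_lit 550386) (.g (nat_lit 2966) (.e (nat_lit 426098) (nat_lit 1) (.e (nat_lit 164325) (nat_lit 230) (.e (nat_lit 163868) (nat_lit 2) (.e (nat_lit 196656) (nat_lit 11) (.e (nat_lit 16463) (nat_lit 13) (.e (nat_lit 483336) (nat_lit 9) .nil)))))) (.g (nat_lit 1) (.e (nat_lit 295674) (nat_lit 0) .nil) .nil))) 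
(.lf (nat_lit 550898) (.g (nat_lit 879) (.e (nat_lit 426100) (nat_lit 1) (.e (nat_lit 164399) (nat_lit 256) (.e (nat_lit 57378) (nat_lit 3) (.e (nat_lit 98380) (nat_lit 31) .nil)))) (.g (nat_lit 0) (.e (nat_lit 296436) (nat_lit 0) .nil) .nil))))))))) (.nd (nat_lit 4) (.nd (nat_lit 5) (.nd (nat_lit 6) (.nd (nat_lit 7) (.nd (nat_lit 8) (.nd (nat_lit 9) 
(.lf (nat_lit 549898) (.g (nat_lit 2360) (.e (nat_lit 417536) (nat_lit 18) (.e (nat_lit 303119) (nat_lit 3) (.e (nat_lit 204869) (nat_lit 29) (.e (nat_lit 360465) (nat_lit 3) .nil)))) (.g (nat_lit 0) (.e (nat_lit 294588) (nat_lit 0) .nil) .nil))) 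
(.lf (nat_lit 550410) (.g (nat_lit 3135) (.e (nat_lit 426098) (nat_lit 1) (.e (nat_lit 164325) (nat_lit 230) (.e (nat_lit 163873) (nat_lit 3) (.e (nat_lit 204813) (nat_lit 9) (.e (nat_lit 426197) (nat_lit 9) .nil))))) (.g (nat_lit 0) (.e (nat_lit 295715) (nat_lit 0) .nil) .nil)))) (.nd (nat_lit 9) 
(.lf (nat_lit 550154) (.g (nat_lit 3541) (.e (nat_lit 426011) (nat_lit 0) (.e (nat_lit 3546) (nat_lit 219) (.e (nat_lit 712754) (nat_lit 30) (.e (nat_lit 450588) (nat_lit 10) (.e (nat_lit 573475) (nat_lit 12) (.e (nat_lit 57508) (nat_lit 39) (.e (nat_lit 647195) (nat_lit 9) (.e (nat_lit 426) (nat_lit 32) .nil)))))))) (.g (nat_lit 1) (.e (nat_lit 295208) (nat_lit 0) .nil) .nil))) 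
(.lf (nat_lit 550666) (.g (nat_lit 1666) (.e (nat_lit 426099) (nat_lit 1) (.e (nat_lit 164330) (nat_lit 230) (.e (nat_lit 163843) (nat_lit 0) (.e (nat_lit 3653) (nat_lit 227) .nil)))) (.g (nat_lit 0) (.e (nat_lit 296089) (nat_lit 0) .nil) .nil))))) (.nd (nat_lit 8) (.nd (nat_lit 9) 
(.lf (nat_lit 550026) (.g (nat_lit 4840) (.e (nat_lit 417828) (nat_lit 18) (.e (nat_lit 303119) (nat_lit 3) (.e (nat_lit 204869) (nat_lit 29) (.e (nat_lit 360468) (nat_lit 3) (.e (nat_lit 516141) (nat_lit 8) .nil))))) (.g (nat_lit 1) (.e (nat_lit 294936) (nat_lit 0) .nil) .nil))) 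
(.lf (nat_lit 550538) (.g (nat_lit 1486) (.e (nat_lit 426098) (nat_lit 1) (.e (nat_lit 164327) (nat_lit 230) (.e (nat_lit 163875) (nat_lit 3) (.e (nat_lit 204812) (nat_lit 9) .nil)))) (.g (nat_lit 0) (.e (nat_lit 295910) (nat_lit 0) .nil) .nil)))) (.nd (nat_lit 9) 
(.lf (nat_lit 550282) (.g (nat_lit 2986) (.e (nat_lit 426039) (nat_lit 0) (.e (nat_lit 3238) (nat_lit 197) (.e (nat_lit 532523) (nat_lit 7) (.e (nat_lit 319530) (nat_lit 16) (.e (nat_lit 286735) (nat_lit 3) .nil))))) (.g (nat_lit 0) (.e (nat_lit 295389) (nat_lit 0) .nil) .nil))) 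
(.lf (nat_lit 550794) (.g (nat_lit 3119) (.e (nat_lit 426100) (nat_lit 1) (.e (nat_lit 164332) (nat_lit 230) (.e (nat_lit 163867) (nat_lit 2) (.e (nat_lit 196654) (nat_lit 11) (.e (nat_lit 16466) (nat_lit 13) (.e (nat_lit 483340) (nat_lit 9) .nil)))))) (.g (nat_lit 1) (.e (nat_lit 296271) (nat_lit 0) .nil) .nil)))))) (.nd (nat_lit 7) (.nd (nat_lit 8) (.nd (nat_lit 9) 
(.lf (nat_lit 549962) (.g (nat_lit 1935) (.e (nat_lit 417809) (nat_lit 6) (.e (nat_lit 286735) (nat_lit 3) (.e (nat_lit 98367) (nat_lit 27) (.e (nat_lit 442112) (nat_lit 6) .nil)))) (.g (nat_lit 0) (.e (nat_lit 294804) (nat_lit 0) .nil) .nil))) 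
(.lf (nat_lit 550474) (.g (nat_lit 2924) (.e (nat_lit 426098) (nat_lit 1) (.e (nat_lit 164327) (nat_lit 230) (.e (nat_lit 163868) (nat_lit 2) (.e (nat_lit 196656) (nat_lit 11) (.e (nat_lit 16436) (nat_lit 9) (.e (nat_lit 426487) (nat_lit 27) (.e (nat_lit 336407) (nat_lit 27) .nil))))))) (.g (nat_lit 1) (.e (nat_lit 295814) (nat_lit 0) .nil) .nil)))) (.nd (nat_lit 9) 
(.lf (nat_lit 550218) (.g (nat_lit 1720) (.e (nat_lit 426014) (nat_lit 0) (.e (nat_lit 3471) (nat_lit 217) (.e (nat_lit 696344) (nat_lit 8) (.e (nat_lit 172106) (nat_lit 10) (.e (nat_lit 434288) (nat_lit 43) .nil))))) (.g (nat_lit 0) (.e (nat_lit 295275) (nat_lit 0) .nil) .nil))) 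
(.lf (nat_lit 550730) (.g (nat_lit 465) (.e (nat_lit 426099) (nat_lit 1) (.e (nat_lit 164399) (nat_lit 256) (.e (nat_lit 57372) (nat_lit 2) .nil))) (.g (nat_lit 0) (.e (nat_lit 296168) (nat_lit 0) .nil) .nil))))) (.nd (nat_lit 8) (.nd (nat_lit 9) 
(.lf (nat_lit 550090) (.g (nat_lit 1575) (.e (nat_lit 426003) (nat_lit 0) (.e (nat_lit 3238) (nat_lit 197) (.e (nat_lit 532482) (nat_lit 0) (.e (nat_lit 6722) (nat_lit 362) (.e (nat_lit 180250) (nat_lit 10) .nil))))) (.g (nat_lit 0) (.e (nat_lit 295133) (nat_lit 0) .nil) .nil))) 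
(.lf (nat_lit 550602) (.g (nat_lit 1649) (.e (nat_lit 426098) (nat_lit 1) (.e (nat_lit 164399) (nat_lit 256) (.e (nat_lit 57372) (nat_lit 2) (.e (nat_lit 90176) (nat_lit 15) (.e (nat_lit 188423) (nat_lit 11) .nil))))) (.g (nat_lit 0) (.e (nat_lit 296019) (nat_lit 0) .nil) .nil)))) (.nd (nat_lit 9) 
(.lf (nat_lit 550346) (.g (nat_lit 1165) (.e (nat_lit 426098) (nat_lit 1) (.e (nat_lit 164178) (nat_lit 154) (.e (nat_lit 57406) (nat_lit 12) (.e (nat_lit 336316) (nat_lit 17) .nil)))) (.g (nat_lit 0) (.e (nat_lit 295577) (nat_lit 0) .nil) .nil))) 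
(.lf (nat_lit 550858) (.g (nat_lit 1600) (.e (nat_lit 426100) (nat_lit 1) (.e (nat_lit 164398) (nat_lit 256) (.e (nat_lit 57379) (nat_lit 3) (.e (nat_lit 98354) (nat_lit 26) .nil)))) (.g (nat_lit 0) (.e (nat_lit 296395) (nat_lit 0) .nil) .nil))))))) (.nd (nat_lit 6) (.nd (nat_lit 7) (.nd (nat_lit 8) (.nd (nat_lit 9) 
(.lf (nat_lit 549930) (.g (nat_lit 2032) (.e (nat_lit 409642) (nat_lit 17) (.e (nat_lit 294974) (nat_lit 29) (.e (nat_lit 442395) (nat_lit 20) (.e (nat_lit 3397) (nat_lit 211) (.e (nat_lit 647183) (nat_lit 4) (.e (nat_lit 172080) (nat_lit 7) .nil)))))) (.g (nat_lit 1) (.e (nat_lit 294748) (nat_lit 0) .nil) .nil))) 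
(.lf (nat_lit 550442) (.g (nat_lit 4659) (.e (nat_lit 426098) (nat_lit 1) (.e (nat_lit 164325) (nat_lit 230) (.e (nat_lit 163873) (nat_lit 3) (.e (nat_lit 204813) (nat_lit 9) (.e (nat_lit 426213) (nat_lit 9) .nil))))) (.g (nat_lit 0) (.e (nat_lit 295750) (nat_lit 0) .nil) .nil)))) (.nd (nat_lit 9) 
(.lf (nat_lit 550186) (.g (nat_lit 4569) (.e (nat_lit 426011) (nat_lit 0) (.e (nat_lit 7581) (nat_lit 405) (.e (nat_lit 57464) (nat_lit 23) (.e (nat_lit 516166) (nat_lit 12) (.e (nat_lit 450588) (nat_lit 10) (.e (nat_lit 573452) (nat_lit 9) (.e (nat_lit 430) (nat_lit 32) .nil))))))) (.g (nat_lit 1) (.e (nat_lit 295240) (nat_lit 0) .nil) .nil))) 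
(.lf (nat_lit 550698) (.g (nat_lit 2611) (.e (nat_lit 426099) (nat_lit 1) (.e (nat_lit 164332) (nat_lit 230) (.e (nat_lit 163880) (nat_lit 4) (.e (nat_lit 213032) (nat_lit 11) (.e (nat_lit 24660) (nat_lit 13) (.e (nat_lit 393281) (nat_lit 23) .nil)))))) (.g (nat_lit 1) (.e (nat_lit 296136) (nat_lit 0) .nil) .nil))))) (.nd (nat_lit 8) (.nd (nat_lit 9) 
(.lf (nat_lit 550058) (.g (nat_lit 1888) (.e (nat_lit 417829) (nat_lit 18) (.e (nat_lit 303143) (nat_lit 12) (.e (nat_lit 475212) (nat_lit 42) (.e (nat_lit 720955) (nat_lit 25) .nil)))) (.g (nat_lit 0) (.e (nat_lit 295008) (nat_lit 0) .nil) .nil))) 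
(.lf (nat_lit 550570) (.g (nat_lit 3577) (.e (nat_lit 426098) (nat_lit 1) (.e (nat_lit 164332) (nat_lit 230) (.e (nat_lit 163869) (nat_lit 2) (.e (nat_lit 196654) (nat_lit 11) (.e (nat_lit 16466) (nat_lit 13) (.e (nat_lit 483341) (nat_lit 9) .nil)))))) (.g (nat_lit 1) (.e (nat_lit 295962) (nat_lit 0) .nil) .nil)))) (.nd (nat_lit 9) 
(.lf (nat_lit 550314) (.g (nat_lit 2507) (.e (nat_lit 426073) (nat_lit 0) (.e (nat_lit 3249) (nat_lit 197) (.e (nat_lit 532550) (nat_lit 12) (.e (nat_lit 360474) (nat_lit 8) (.e (nat_lit 557094) (nat_lit 12) .nil))))) (.g (nat_lit 0) (.e (nat_lit 295469) (nat_lit 0) .nil) .nil))) 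
(.lf (nat_lit 550826) (.g (nat_lit 1500) (.e (nat_lit 426100) (nat_lit 1) (.e (nat_lit 164332) (nat_lit 230) (.e (nat_lit 163874) (nat_lit 3) (.e (nat_lit 204813) (nat_lit 9) (.e (nat_lit 426200) (nat_lit 9) .nil))))) (.g (nat_lit 0) (.e (nat_lit 296357) (nat_lit 0) .nil) .nil)))))) (.nd (nat_lit 7) (.nd (nat_lit 8) (.nd (nat_lit 9) 
(.lf (nat_lit 549994) (.g (nat_lit 3110) (.e (nat_lit 417811) (nat_lit 6) (.e (nat_lit 286733) (nat_lit 2) (.e (nat_lit 90170) (nat_lit 13) (.e (nat_lit 172113) (nat_lit 10) (.e (nat_lit 434248) (nat_lit 28) .nil))))) (.g (nat_lit 0) (.e (nat_lit 294848) (nat_lit 0) .nil) .nil))) 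
(.lf (nat_lit 550506) (.g (nat_lit 954) (.e (nat_lit 426098) (nat_lit 1) (.e (nat_lit 164327) (nat_lit 230) (.e (nat_lit 163873) (nat_lit 3) (.e (nat_lit 204813) (nat_lit 9) .nil)))) (.g (nat_lit 0) (.e (nat_lit 295861) (nat_lit 0) .nil) .nil)))) (.nd (nat_lit 9) 
(.lf (nat_lit 550250) (.g (nat_lit 2399) (.e (nat_lit 426025) (nat_lit 0) (.e (nat_lit 3399) (nat_lit 211) (.e (nat_lit 647183) (nat_lit 4) (.e (nat_lit 172126) (nat_lit 14) (.e (nat_lit 491549) (nat_lit 9) (.e (nat_lit 336395) (nat_lit 27) (.e (nat_lit 426215) (nat_lit 9) .nil))))))) (.g (nat_lit 1) (.e (nat_lit 295339) (nat_lit 0) .nil) .nil))) 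
(.lf (nat_lit 550762) (.g (nat_lit 3696) (.e (nat_lit 426099) (nat_lit 1) (.e (nat_lit 164399) (nat_lit 256) (.e (nat_lit 57379) (nat_lit 3) (.e (nat_lit 98365) (nat_lit 26) (.e (nat_lit 426325) (nat_lit 13) (.e (nat_lit 483337) (nat_lit 9) .nil)))))) (.g (nat_lit 1) (.e (nat_lit 296200) (nat_lit 0) .nil) .nil))))) (.nd (nat_lit 8) (.nd (nat_lit 9) 
(.lf (nat_lit 550122) (.g (nat_lit 2967) (.e (nat_lit 426010) (nat_lit 0) (.e (nat_lit 7490) (nat_lit 402) (.e (nat_lit 1256) (nat_lit 92) (.e (nat_lit 98373) (nat_lit 29) (.e (nat_lit 450587) (nat_lit 10) (.e (nat_lit 573457) (nat_lit 9) (.e (nat_lit 430) (nat_lit 32) .nil))))))) (.g (nat_lit 1) (.e (nat_lit 295176) (nat_lit 0) .nil) .nil))) 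
(.lf (nat_lit 550634) (.g (nat_lit 1569) (.e (nat_lit 426098) (nat_lit 1) (.e (nat_lit 164399) (nat_lit 256) (.e (nat_lit 57408) (nat_lit 12) (.e (nat_lit 336443) (nat_lit 32) (.e (nat_lit 466978) (nat_lit 23) .nil))))) (.g (nat_lit 0) (.e (nat_lit 296051) (nat_lit 0) .nil) .nil)))) (.nd (nat_lit 9) 
(.lf (nat_lit 550378) (.g (nat_lit 3009) (.e (nat_lit 426098) (nat_lit 1) (.e (nat_lit 164325) (nat_lit 230) (.e (nat_lit 163861) (nat_lit 1) (.e (nat_lit 164398) (nat_lit 256) (.e (nat_lit 57436) (nat_lit 17) (.e (nat_lit 376860) (nat_lit 21) (.e (nat_lit 57930) (nat_lit 282) (.e (nat_lit 163915) (nat_lit 12) .nil)))))))) (.g (nat_lit 1) (.e (nat_lit 295635) (nat_lit 0) .nil) .nil))) 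
(.lf (nat_lit 550890) (.g (nat_lit 3297) (.e (nat_lit 426100) (nat_lit 1) (.e (nat_lit 164399) (nat_lit 256) (.e (nat_lit 57377) (nat_lit 3) (.e (nat_lit 98365) (nat_lit 26) (.e (nat_lit 426325) (nat_lit 13) (.e (nat_lit 483341) (nat_lit 9) .nil)))))) (.g (nat_lit 1) (.e (nat_lit 296428) (nat_lit 0) .nil) .nil)))))))) 
(.nd (nat_lit 5) (.nd (nat_lit 6) (.nd (nat_lit 7) (.nd (nat_lit 8) (.nd (nat_lit 9) 
(.lf (nat_lit 549914) (.g (nat_lit 468) (.e (nat_lit 409651) (nat_lit 19) (.e (nat_lit 311312) (nat_lit 2) (.e (nat_lit 196663) (nat_lit 13) .nil))) (.g (nat_lit 0) (.e (nat_lit 294659) (nat_lit 0) .nil) .nil))) 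
(.lf (nat_lit 550426) (.g (nat_lit 3417) (.e (nat_lit 426098) (nat_lit 1) (.e (nat_lit 164325) (nat_lit 230) (.e (nat_lit 163873) (nat_lit 3) (.e (nat_lit 204813) (nat_lit 9) (.e (nat_lit 426199) (nat_lit 9) (.e (nat_lit 426487) (nat_lit 27) (.e (nat_lit 336409) (nat_lit 27) .nil))))))) (.g (nat_lit 1) (.e (nat_lit 295732) (nat_lit 0) .nil) .nil)))) (.nd (nat_lit 9) 
(.lf (nat_lit 550170) (.g (nat_lit 3285) (.e (nat_lit 426011) (nat_lit 0) (.e (nat_lit 7545) (nat_lit 402) (.e (nat_lit 1234) (nat_lit 91) (.e (nat_lit 90170) (nat_lit 13) (.e (nat_lit 172113) (nat_lit 10) (.e (nat_lit 434247) (nat_lit 28) (.e (nat_lit 573456) (nat_lit 9) (.e (nat_lit 430) (nat_lit 32) .nil)))))))) (.g (nat_lit 1) (.e (nat_lit 295224) (nat_lit 0) .nil) .nil))) 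
(.lf (nat_lit 550682) (.g (nat_lit 2713) (.e (nat_lit 426099) (nat_lit 1) (.e (nat_lit 164332) (nat_lit 230) (.e (nat_lit 163869) (nat_lit 2) (.e (nat_lit 196656) (nat_lit 11) (.e (nat_lit 16438) (nat_lit 9) (.e (nat_lit 426482) (nat_lit 27) (.e (nat_lit 336417) (nat_lit 27) .nil))))))) (.g (nat_lit 1) (.e (nat_lit 296114) (nat_lit 0) .nil) .nil))))) (.nd (nat_lit 8) (.nd (nat_lit 9) 
(.lf (nat_lit 550042) (.g (nat_lit 2745) (.e (nat_lit 417829) (nat_lit 18) (.e (nat_lit 303117) (nat_lit 2) (.e (nat_lit 196673) (nat_lit 15) (.e (nat_lit 81956) (nat_lit 23) (.e (nat_lit 98352) (nat_lit 25) .nil))))) (.g (nat_lit 0) (.e (nat_lit 294987) (nat_lit 0) .nil) .nil))) 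
(.lf (nat_lit 550554) (.g (nat_lit 2806) (.e (nat_lit 426098) (nat_lit 1) (.e (nat_lit 164327) (nat_lit 230) (.e (nat_lit 163875) (nat_lit 3) (.e (nat_lit 204813) (nat_lit 9) (.e (nat_lit 426200) (nat_lit 9) (.e (nat_lit 426491) (nat_lit 27) (.e (nat_lit 336407) (nat_lit 27) .nil))))))) (.g (nat_lit 1) (.e (nat_lit 295934) (nat_lit 0) .nil) .nil)))) (.nd (nat_lit 9) 
(.lf (nat_lit 550298) (.g (nat_lit 1338) (.e (nat_lit 426043) (nat_lit 0) (.e (nat_lit 3468) (nat_lit 217) (.e (nat_lit 696344) (nat_lit 8) (.e (nat_lit 172123) (nat_lit 13) (.e (nat_lit 483411) (nat_lit 27) .nil))))) (.g (nat_lit 0) (.e (nat_lit 295437) (nat_lit 0) .nil) .nil))) 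
(.lf (nat_lit 550810) (.g (nat_lit 1761) (.e (nat_lit 426100) (nat_lit 1) (.e (nat_lit 164332) (nat_lit 230) (.e (nat_lit 163869) (nat_lit 2) (.e (nat_lit 196656) (nat_lit 11) (.e (nat_lit 16433) (nat_lit 9) .nil))))) (.g (nat_lit 0) (.e (nat_lit 296323) (nat_lit 0) .nil) .nil)))))) (.nd (nat_lit 7) (.nd (nat_lit 8) (.nd (nat_lit 9) 
(.lf (nat_lit 549978) (.g (nat_lit 3249) (.e (nat_lit 417810) (nat_lit 6) (.e (nat_lit 286733) (nat_lit 2) (.e (nat_lit 90170) (nat_lit 13) (.e (nat_lit 172113) (nat_lit 10) (.e (nat_lit 434248) (nat_lit 28) .nil))))) (.g (nat_lit 0) (.e (nat_lit 294828) (nat_lit 0) .nil) .nil))) 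
(.lf (nat_lit 550490) (.g (nat_lit 2782) (.e (nat_lit 426098) (nat_lit 1) (.e (nat_lit 164327) (nat_lit 230) (.e (nat_lit 163871) (nat_lit 2) (.e (nat_lit 196656) (nat_lit 11) (.e (nat_lit 16432) (nat_lit 9) .nil))))) (.g (nat_lit 0) (.e (nat_lit 295839) (nat_lit 0) .nil) .nil)))) (.nd (nat_lit 9) 
(.lf (nat_lit 550234) (.g (nat_lit 1311) (.e (nat_lit 426025) (nat_lit 0) (.e (nat_lit 3397) (nat_lit 211) (.e (nat_lit 647183) (nat_lit 4) (.e (nat_lit 172124) (nat_lit 14) (.e (nat_lit 491549) (nat_lit 9) .nil))))) (.g (nat_lit 0) (.e (nat_lit 295313) (nat_lit 0) .nil) .nil))) 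
(.lf (nat_lit 550746) (.g (nat_lit 1073) (.e (nat_lit 426099) (nat_lit 1) (.e (nat_lit 164399) (nat_lit 256) (.e (nat_lit 57377) (nat_lit 3) (.e (nat_lit 98365) (nat_lit 26) .nil)))) (.g (nat_lit 0) (.e (nat_lit 296184) (nat_lit 0) .nil) .nil))))) (.nd (nat_lit 8) (.nd (nat_lit 9) 
(.lf (nat_lit 550106) (.g (nat_lit 3371) (.e (nat_lit 426009) (nat_lit 0) (.e (nat_lit 7581) (nat_lit 405) (.e (nat_lit 57464) (nat_lit 23) (.e (nat_lit 516166) (nat_lit 12) (.e (nat_lit 450588) (nat_lit 10) (.e (nat_lit 573452) (nat_lit 9) (.e (nat_lit 430) (nat_lit 32) .nil))))))) (.g (nat_lit 1) (.e (nat_lit 295160) (nat_lit 0) .nil) .nil))) 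
(.lf (nat_lit 550618) (.g (nat_lit 2006) (.e (nat_lit 426098) (nat_lit 1) (.e (nat_lit 164399) (nat_lit 256) (.e (nat_lit 57377) (nat_lit 3) (.e (nat_lit 98380) (nat_lit 31) (.e (nat_lit 466952) (nat_lit 11) .nil))))) (.g (nat_lit 0) (.e (nat_lit 296035) (nat_lit 0) .nil) .nil)))) (.nd (nat_lit 9) 
(.lf (nat_lit 550362) (.g (nat_lit 2187) (.e (nat_lit 426098) (nat_lit 1) (.e (nat_lit 164182) (nat_lit 154) (.e (nat_lit 57409) (nat_lit 12) (.e (nat_lit 336324) (nat_lit 18) (.e (nat_lit 204865) (nat_lit 28) .nil))))) (.g (nat_lit 0) (.e (nat_lit 295597) (nat_lit 0) .nil) .nil))) 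
(.lf (nat_lit 550874) (.g (nat_lit 2459) (.e (nat_lit 426100) (nat_lit 1) (.e (nat_lit 164398) (nat_lit 256) (.e (nat_lit 57451) (nat_lit 20) (.e (nat_lit 401448) (nat_lit 10) (.e (nat_lit 434272) (nat_lit 38) (.e (nat_lit 655382) (nat_lit 8) (.e (nat_lit 237612) (nat_lit 9) .nil))))))) (.g (nat_lit 1) (.e (nat_lit 296411) (nat_lit 0) .nil) .nil))))))) 
(.nd (nat_lit 6) (.nd (nat_lit 7) (.nd (nat_lit 8) (.nd (nat_lit 9) 
(.lf (nat_lit 549946) (.g (nat_lit 2727) (.e (nat_lit 417796) (nat_lit 0) (.e (nat_lit 5389) (nat_lit 301) (.e (nat_lit 57464) (nat_lit 23) (.e (nat_lit 516166) (nat_lit 12) (.e (nat_lit 450588) (nat_lit 10) (.e (nat_lit 573457) (nat_lit 9) (.e (nat_lit 365) (nat_lit 31) .nil))))))) (.g (nat_lit 1) (.e (nat_lit 294779) (nat_lit 0) .nil) .nil))) 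
(.lf (nat_lit 550458) (.g (nat_lit 2626) (.e (nat_lit 426098) (nat_lit 1) (.e (nat_lit 164327) (nat_lit 230) (.e (nat_lit 163868) (nat_lit 2) (.e (nat_lit 196654) (nat_lit 11) (.e (nat_lit 16436) (nat_lit 9) (.e (nat_lit 426491) (nat_lit 27) (.e (nat_lit 336406) (nat_lit 27) .nil))))))) (.g (nat_lit 1) (.e (nat_lit 295792) (nat_lit 0) .nil) .nil)))) (.nd (nat_lit 9) 
(.lf (nat_lit 550202) (.g (nat_lit 2057) (.e (nat_lit 426012) (nat_lit 0) (.e (nat_lit 7581) (nat_lit 405) (.e (nat_lit 57464) (nat_lit 23) (.e (nat_lit 516151) (nat_lit 9) (.e (nat_lit 426286) (nat_lit 10) (.e (nat_lit 434245) (nat_lit 28) (.e (nat_lit 573458) (nat_lit 9) (.e (nat_lit 426) (nat_lit 32) .nil)))))))) (.g (nat_lit 1) (.e (nat_lit 295259) (nat_lit 0) .nil) .nil))) 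
(.lf (nat_lit 550714) (.g (nat_lit 473) (.e (nat_lit 426099) (nat_lit 1) (.e (nat_lit 164398) (nat_lit 256) (.e (nat_lit 57378) (nat_lit 3) .nil))) (.g (nat_lit 0) (.e (nat_lit 296152) (nat_lit 0) .nil) .nil))))) (.nd (nat_lit 8) (.nd (nat_lit 9) 
(.lf (nat_lit 550074) (.g (nat_lit 4497) (.e (nat_lit 425987) (nat_lit 0) (.e (nat_lit 7489) (nat_lit 402) (.e (nat_lit 1239) (nat_lit 91) (.e (nat_lit 90170) (nat_lit 13) (.e (nat_lit 172106) (nat_lit 10) (.e (nat_lit 434244) (nat_lit 28) (.e (nat_lit 573451) (nat_lit 9) (.e (nat_lit 428) (nat_lit 32) .nil)))))))) (.g (nat_lit 1) (.e (nat_lit 295101) (nat_lit 0) .nil) .nil))) 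
(.lf (nat_lit 550586) (.g (nat_lit 1912) (.e (nat_lit 426098) (nat_lit 1) (.e (nat_lit 164398) (nat_lit 256) (.e (nat_lit 57374) (nat_lit 2) (.e (nat_lit 90178) (nat_lit 15) (.e (nat_lit 188421) (nat_lit 11) .nil))))) (.g (nat_lit 0) (.e (nat_lit 296003) (nat_lit 0) .nil) .nil)))) (.nd (nat_lit 9) 
(.lf (nat_lit 550330) (.g (nat_lit 2412) (.e (nat_lit 426097) (nat_lit 1) (.e (nat_lit 164327) (nat_lit 230) (.e (nat_lit 163868) (nat_lit 2) (.e (nat_lit 196656) (nat_lit 11) (.e (nat_lit 16466) (nat_lit 13) .nil))))) (.g (nat_lit 0) (.e (nat_lit 295520) (nat_lit 0) .nil) .nil))) 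
(.lf (nat_lit 550842) (.g (nat_lit 1935) (.e (nat_lit 426100) (nat_lit 1) (.e (nat_lit 164398) (nat_lit 256) (.e (nat_lit 57372) (nat_lit 2) (.e (nat_lit 90178) (nat_lit 15) (.e (nat_lit 188421) (nat_lit 11) .nil))))) (.g (nat_lit 0) (.e (nat_lit 296379) (nat_lit 0) .nil) .nil)))))) (.nd (nat_lit 7) (.nd (nat_lit 8) (.nd (nat_lit 9) 
(.lf (nat_lit 550010) (.g (nat_lit 1181) (.e (nat_lit 417820) (nat_lit 10) (.e (nat_lit 5626) (nat_lit 312) (.e (nat_lit 2450) (nat_lit 157) (.e (nat_lit 3114) (nat_lit 193) .nil)))) (.g (nat_lit 0) (.e (nat_lit 294880) (nat_lit 0) .nil) .nil))) 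
(.lf (nat_lit 550522) (.g (nat_lit 3304) (.e (nat_lit 426098) (nat_lit 1) (.e (nat_lit 164327) (nat_lit 230) (.e (nat_lit 163873) (nat_lit 3) (.e (nat_lit 204813) (nat_lit 9) (.e (nat_lit 426199) (nat_lit 9) (.e (nat_lit 426491) (nat_lit 27) (.e (nat_lit 336407) (nat_lit 27) .nil))))))) (.g (nat_lit 1) (.e (nat_lit 295877) (nat_lit 0) .nil) .nil)))) (.nd (nat_lit 9) 
(.lf (nat_lit 550266) (.g (nat_lit 1425) (.e (nat_lit 426023) (nat_lit 0) (.e (nat_lit 7107) (nat_lit 380) (.e (nat_lit 164281) (nat_lit 222) (.e (nat_lit 57884) (nat_lit 270) (.e (nat_lit 1413) (nat_lit 108) .nil))))) (.g (nat_lit 0) (.e (nat_lit 295364) (nat_lit 0) .nil) .nil))) 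
(.lf (nat_lit 550778) (.g (nat_lit 1706) (.e (nat_lit 426100) (nat_lit 1) (.e (nat_lit 164182) (nat_lit 154) (.e (nat_lit 57417) (nat_lit 12) (.e (nat_lit 336323) (nat_lit 18) .nil)))) (.g (nat_lit 0) (.e (nat_lit 296222) (nat_lit 0) .nil) .nil))))) (.nd (nat_lit 8) (.nd (nat_lit 9) 
(.lf (nat_lit 550138) (.g (nat_lit 2565) (.e (nat_lit 426010) (nat_lit 0) (.e (nat_lit 7583) (nat_lit 405) (.e (nat_lit 57464) (nat_lit 23) (.e (nat_lit 516165) (nat_lit 12) (.e (nat_lit 450586) (nat_lit 10) (.e (nat_lit 573452) (nat_lit 9) (.e (nat_lit 430) (nat_lit 32) .nil))))))) (.g (nat_lit 1) (.e (nat_lit 295192) (nat_lit 0) .nil) .nil))) 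
(.lf (nat_lit 550650) (.g (nat_lit 2687) (.e (nat_lit 426098) (nat_lit 1) (.e (nat_lit 164403) (nat_lit 256) (.e (nat_lit 57378) (nat_lit 3) (.e (nat_lit 98365) (nat_lit 26) (.e (nat_lit 426334) (nat_lit 13) .nil))))) (.g (nat_lit 0) (.e (nat_lit 296067) (nat_lit 0) .nil) .nil)))) (.nd (nat_lit 9) 
(.lf (nat_lit 550394) (.g (nat_lit 2412) (.e (nat_lit 426098) (nat_lit 1) (.e (nat_lit 164325) (nat_lit 230) (.e (nat_lit 163869) (nat_lit 2) (.e (nat_lit 196656) (nat_lit 11) (.e (nat_lit 16463) (nat_lit 13) .nil))))) (.g (nat_lit 0) (.e (nat_lit 295686) (nat_lit 0) .nil) .nil))) 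
(.lf (nat_lit 550906) (.g (nat_lit 1857) (.e (nat_lit 426100) (nat_lit 1) (.e (nat_lit 164399) (nat_lit 256) (.e (nat_lit 57407) (nat_lit 12) (.e (nat_lit 336431) (nat_lit 29) .nil)))) (.g (nat_lit 0) (.e (nat_lit 296444) (nat_lit 0) .nil) .nil)))))))))) (.nd (nat_lit 3) (.nd (nat_lit 4) (.nd (nat_lit 5) (.nd (nat_lit 6) (.nd (nat_lit 7) (.nd (nat_lit 8) (.nd (nat_lit 9) 
(.lf (nat_lit 549894) (.g (nat_lit 1421) (.e (nat_lit 417536) (nat_lit 18) (.e (nat_lit 303119) (nat_lit 3) (.e (nat_lit 204865) (nat_lit 28) (.e (nat_lit 360192) (nat_lit 23) .nil)))) (.g (nat_lit 0) (.e (nat_lit 294573) (nat_lit 0) .nil) .nil))) 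
(.lf (nat_lit 550406) (.g (nat_lit 1278) (.e (nat_lit 426098) (nat_lit 1) (.e (nat_lit 164325) (nat_lit 230) (.e (nat_lit 163873) (nat_lit 3) (.e (nat_lit 204809) (nat_lit 9) (.e (nat_lit 426200) (nat_lit 9) .nil))))) (.g (nat_lit 0) (.e (nat_lit 295708) (nat_lit 0) .nil) .nil)))) (.nd (nat_lit 9) 
(.lf (nat_lit 550150) (.g (nat_lit 3176) (.e (nat_lit 426011) (nat_lit 0) (.e (nat_lit 3544) (nat_lit 219) (.e (nat_lit 712753) (nat_lit 30) (.e (nat_lit 450586) (nat_lit 10) (.e (nat_lit 573475) (nat_lit 12) (.e (nat_lit 57508) (nat_lit 39) (.e (nat_lit 647195) (nat_lit 9) (.e (nat_lit 426) (nat_lit 32) .nil)))))))) (.g (nat_lit 1) (.e (nat_lit 295204) (nat_lit 0) .nil) .nil))) 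
(.lf (nat_lit 550662) (.g (nat_lit 1941) (.e (nat_lit 426099) (nat_lit 1) (.e (nat_lit 164183) (nat_lit 154) (.e (nat_lit 57411) (nat_lit 12) (.e (nat_lit 336316) (nat_lit 17) (.e (nat_lit 196674) (nat_lit 15) .nil))))) (.g (nat_lit 0) (.e (nat_lit 296084) (nat_lit 0) .nil) .nil))))) (.nd (nat_lit 8) (.nd (nat_lit 9) 
(.lf (nat_lit 550022) (.g (nat_lit 3397) (.e (nat_lit 417828) (nat_lit 18) (.e (nat_lit 303119) (nat_lit 3) (.e (nat_lit 204866) (nat_lit 28) (.e (nat_lit 352315) (nat_lit 23) (.e (nat_lit 98353) (nat_lit 25) .nil))))) (.g (nat_lit 1) (.e (nat_lit 294931) (nat_lit 0) .nil) .nil))) 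
(.lf (nat_lit 550534) (.g (nat_lit 3135) (.e (nat_lit 426098) (nat_lit 1) (.e (nat_lit 164327) (nat_lit 230) (.e (nat_lit 163873) (nat_lit 3) (.e (nat_lit 204813) (nat_lit 9) (.e (nat_lit 426200) (nat_lit 9) (.e (nat_lit 426489) (nat_lit 27) (.e (nat_lit 336407) (nat_lit 27) .nil))))))) (.g (nat_lit 1) (.e (nat_lit 295896) (nat_lit 0) .nil) .nil)))) (.nd (nat_lit 9) 
(.lf (nat_lit 550278) (.g (nat_lit 5448) (.e (nat_lit 426032) (nat_lit 0) (.e (nat_lit 3262) (nat_lit 198) (.e (nat_lit 540706) (nat_lit 12) (.e (nat_lit 360475) (nat_lit 8) (.e (nat_lit 557091) (nat_lit 12) (.e (nat_lit 164022) (nat_lit 46) (.e (nat_lit 704629) (nat_lit 9) (.e (nat_lit 375) (nat_lit 32) .nil)))))))) (.g (nat_lit 1) (.e (nat_lit 295376) (nat_lit 0) .nil) .nil))) 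
(.lf (nat_lit 550790) (.g (nat_lit 3035) (.e (nat_lit 426100) (nat_lit 1) (.e (nat_lit 164332) (nat_lit 230) (.e (nat_lit 163866) (nat_lit 2) (.e (nat_lit 196654) (nat_lit 11) (.e (nat_lit 16466) (nat_lit 13) (.e (nat_lit 483337) (nat_lit 9) .nil)))))) (.g (nat_lit 1) (.e (nat_lit 296262) (nat_lit 0) .nil) .nil)))))) (.nd (nat_lit 7) (.nd (nat_lit 8) (.nd (nat_lit 9) 
(.lf (nat_lit 549958) (.g (nat_lit 2056) (.e (nat_lit 417809) (nat_lit 6) (.e (nat_lit 286733) (nat_lit 2) (.e (nat_lit 90172) (nat_lit 14) (.e (nat_lit 180285) (nat_lit 45) .nil)))) (.g (nat_lit 0) (.e (nat_lit 294800) (nat_lit 0) .nil) .nil))) 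
(.lf (nat_lit 550470) (.g (nat_lit 2234) (.e (nat_lit 426098) (nat_lit 1) (.e (nat_lit 164327) (nat_lit 230) (.e (nat_lit 163868) (nat_lit 2) (.e (nat_lit 196656) (nat_lit 11) (.e (nat_lit 16433) (nat_lit 9) .nil))))) (.g (nat_lit 0) (.e (nat_lit 295810) (nat_lit 0) .nil) .nil)))) (.nd (nat_lit 9) 
(.lf (nat_lit 550214) (.g (nat_lit 1378) (.e (nat_lit 426012) (nat_lit 0) (.e (nat_lit 7591) (nat_lit 407) (.e (nat_lit 73775) (nat_lit 26) (.e (nat_lit 778466) (nat_lit 11) (.e (nat_lit 24638) (nat_lit 9) .nil))))) (.g (nat_lit 0) (.e (nat_lit 295271) (nat_lit 0) .nil) .nil))) 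
(.lf (nat_lit 550726) (.g (nat_lit 1893) (.e (nat_lit 426099) (nat_lit 1) (.e (nat_lit 164398) (nat_lit 256) (.e (nat_lit 57411) (nat_lit 12) (.e (nat_lit 336432) (nat_lit 30) (.e (nat_lit 450580) (nat_lit 5) .nil))))) (.g (nat_lit 0) (.e (nat_lit 296164) (nat_lit 0) .nil) .nil))))) (.nd (nat_lit 8) (.nd (nat_lit 9) 
(.lf (nat_lit 550086) (.g (nat_lit 2092) (.e (nat_lit 425986) (nat_lit 0) (.e (nat_lit 3471) (nat_lit 217) (.e (nat_lit 696344) (nat_lit 8) (.e (nat_lit 172115) (nat_lit 10) (.e (nat_lit 434202) (nat_lit 18) (.e (nat_lit 6255) (nat_lit 337) (.e (nat_lit 2725) (nat_lit 172) (.e (nat_lit 237605) (nat_lit 9) .nil)))))))) (.g (nat_lit 1) (.e (nat_lit 295123) (nat_lit 0) .nil) .nil))) 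
(.lf (nat_lit 550598) (.g (nat_lit 1858) (.e (nat_lit 426098) (nat_lit 1) (.e (nat_lit 164399) (nat_lit 256) (.e (nat_lit 57371) (nat_lit 2) (.e (nat_lit 90176) (nat_lit 15) (.e (nat_lit 188421) (nat_lit 11) .nil))))) (.g (nat_lit 0) (.e (nat_lit 296015) (nat_lit 0) .nil) .nil)))) (.nd (nat_lit 9) 
(.lf (nat_lit 550342) (.g (nat_lit 4531) (.e (nat_lit 426097) (nat_lit 1) (.e (nat_lit 164348) (nat_lit 240) (.e (nat_lit 2610) (nat_lit 163) (.e (nat_lit 163977) (nat_lit 30) (.e (nat_lit 573484) (nat_lit 13) (.e (nat_lit 65610) (nat_lit 10) (.e (nat_lit 344117) (nat_lit 21) (.e (nat_lit 516151) (nat_lit 9) .nil)))))))) (.g (nat_lit 1) (.e (nat_lit 295553) (nat_lit 0) .nil) .nil))) 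
(.lf (nat_lit 550854) (.g (nat_lit 2872) (.e (nat_lit 426100) (nat_lit 1) (.e (nat_lit 164398) (nat_lit 256) (.e (nat_lit 57378) (nat_lit 3) (.e (nat_lit 98358) (nat_lit 26) (.e (nat_lit 426323) (nat_lit 13) (.e (nat_lit 483336) (nat_lit 9) .nil)))))) (.g (nat_lit 1) (.e (nat_lit 296391) (nat_lit 0) .nil) .nil))))))) (.nd (nat_lit 6) (.nd (nat_lit 7) (.nd (nat_lit 8) (.nd (nat_lit 9) 
(.lf (nat_lit 549926) (.g (nat_lit 5347) (.e (nat_lit 409641) (nat_lit 17) (.e (nat_lit 294966) (nat_lit 15) (.e (nat_lit 3298) (nat_lit 202) (.e (nat_lit 573493) (nat_lit 15) (.e (nat_lit 81956) (nat_lit 23) (.e (nat_lit 98350) (nat_lit 24) .nil)))))) (.g (nat_lit 1) (.e (nat_lit 294743) (nat_lit 0) .nil) .nil))) 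
(.lf (nat_lit 550438) (.g (nat_lit 3020) (.e (nat_lit 426098) (nat_lit 1) (.e (nat_lit 164325) (nat_lit 230) (.e (nat_lit 163873) (nat_lit 3) (.e (nat_lit 204813) (nat_lit 9) (.e (nat_lit 426200) (nat_lit 9) (.e (nat_lit 426491) (nat_lit 27) (.e (nat_lit 336406) (nat_lit 27) .nil))))))) (.g (nat_lit 1) (.e (nat_lit 295746) (nat_lit 0) .nil) .nil)))) (.nd (nat_lit 9) 
(.lf (nat_lit 550182) (.g (nat_lit 2373) (.e (nat_lit 426011) (nat_lit 0) (.e (nat_lit 7581) (nat_lit 405) (.e (nat_lit 57464) (nat_lit 23) (.e (nat_lit 516165) (nat_lit 12) (.e (nat_lit 450587) (nat_lit 10) (.e (nat_lit 573456) (nat_lit 9) (.e (nat_lit 430) (nat_lit 32) .nil))))))) (.g (nat_lit 1) (.e (nat_lit 295236) (nat_lit 0) .nil) .nil))) 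
(.lf (nat_lit 550694) (.g (nat_lit 2502) (.e (nat_lit 426099) (nat_lit 1) (.e (nat_lit 164332) (nat_lit 230) (.e (nat_lit 163880) (nat_lit 4) (.e (nat_lit 213030) (nat_lit 11) (.e (nat_lit 24660) (nat_lit 13) (.e (nat_lit 393281) (nat_lit 23) .nil)))))) (.g (nat_lit 1) (.e (nat_lit 296132) (nat_lit 0) .nil) .nil))))) (.nd (nat_lit 8) (.nd (nat_lit 9) 
(.lf (nat_lit 550054) (.g (nat_lit 4530) (.e (nat_lit 417829) (nat_lit 18) (.e (nat_lit 303119) (nat_lit 3) (.e (nat_lit 204869) (nat_lit 29) (.e (nat_lit 360467) (nat_lit 3) (.e (nat_lit 516142) (nat_lit 8) .nil))))) (.g (nat_lit 0) (.e (nat_lit 295002) (nat_lit 0) .nil) .nil))) 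
(.lf (nat_lit 550566) (.g (nat_lit 1494) (.e (nat_lit 426098) (nat_lit 1) (.e (nat_lit 164332) (nat_lit 230) (.e (nat_lit 163843) (nat_lit 0) (.e (nat_lit 3617) (nat_lit 227) .nil)))) (.g (nat_lit 0) (.e (nat_lit 295954) (nat_lit 0) .nil) .nil)))) (.nd (nat_lit 9) 
(.lf (nat_lit 550310) (.g (nat_lit 2974) (.e (nat_lit 426073) (nat_lit 0) (.e (nat_lit 3249) (nat_lit 197) (.e (nat_lit 532542) (nat_lit 9) (.e (nat_lit 336194) (nat_lit 12) (.e (nat_lit 385066) (nat_lit 26) (.e (nat_lit 532513) (nat_lit 3) (.e (nat_lit 114696) (nat_lit 11) .nil))))))) (.g (nat_lit 1) (.e (nat_lit 295460) (nat_lit 0) .nil) .nil))) 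
(.lf (nat_lit 550822) (.g (nat_lit 1026) (.e (nat_lit 426100) (nat_lit 1) (.e (nat_lit 164332) (nat_lit 230) (.e (nat_lit 163874) (nat_lit 3) (.e (nat_lit 204809) (nat_lit 9) .nil)))) (.g (nat_lit 0) (.e (nat_lit 296351) (nat_lit 0) .nil) .nil)))))) (.nd (nat_lit 7) (.nd (nat_lit 8) (.nd (nat_lit 9) 
(.lf (nat_lit 549990) (.g (nat_lit 3404) (.e (nat_lit 417811) (nat_lit 6) (.e (nat_lit 286732) (nat_lit 2) (.e (nat_lit 90170) (nat_lit 13) (.e (nat_lit 172113) (nat_lit 10) (.e (nat_lit 434248) (nat_lit 28) (.e (nat_lit 573452) (nat_lit 9) (.e (nat_lit 365) (nat_lit 31) .nil))))))) (.g (nat_lit 1) (.e (nat_lit 294842) (nat_lit 0) .nil) .nil))) 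
(.lf (nat_lit 550502) (.g (nat_lit 2743) (.e (nat_lit 426098) (nat_lit 1) (.e (nat_lit 164327) (nat_lit 230) (.e (nat_lit 163871) (nat_lit 2) (.e (nat_lit 196656) (nat_lit 11) (.e (nat_lit 16463) (nat_lit 13) (.e (nat_lit 483336) (nat_lit 9) .nil)))))) (.g (nat_lit 1) (.e (nat_lit 295851) (nat_lit 0) .nil) .nil)))) (.nd (nat_lit 9) 
(.lf (nat_lit 550246) (.g (nat_lit 2263) (.e (nat_lit 426025) (nat_lit 0) (.e (nat_lit 3399) (nat_lit 211) (.e (nat_lit 647183) (nat_lit 4) (.e (nat_lit 172115) (nat_lit 10) (.e (nat_lit 434209) (nat_lit 18) (.e (nat_lit 5546) (nat_lit 306) (.e (nat_lit 2618) (nat_lit 164) (.e (nat_lit 172097) (nat_lit 9) .nil)))))))) (.g (nat_lit 1) (.e (nat_lit 295335) (nat_lit 0) .nil) .nil))) 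
(.lf (nat_lit 550758) (.g (nat_lit 1666) (.e (nat_lit 426099) (nat_lit 1) (.e (nat_lit 164399) (nat_lit 256) (.e (nat_lit 57378) (nat_lit 3) (.e (nat_lit 98380) (nat_lit 31) (.e (nat_lit 466954) (nat_lit 11) .nil))))) (.g (nat_lit 0) (.e (nat_lit 296196) (nat_lit 0) .nil) .nil))))) (.nd (nat_lit 8) (.nd (nat_lit 9) 
(.lf (nat_lit 550118) (.g (nat_lit 4292) (.e (nat_lit 426010) (nat_lit 0) (.e (nat_lit 7490) (nat_lit 402) (.e (nat_lit 1239) (nat_lit 91) (.e (nat_lit 90170) (nat_lit 13) (.e (nat_lit 172113) (nat_lit 10) (.e (nat_lit 434247) (nat_lit 28) (.e (nat_lit 573456) (nat_lit 9) (.e (nat_lit 430) (nat_lit 32) .nil)))))))) (.g (nat_lit 1) (.e (nat_lit 295172) (nat_lit 0) .nil) .nil))) 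
(.lf (nat_lit 550630) (.g (nat_lit 2077) (.e (nat_lit 426098) (nat_lit 1) (.e (nat_lit 164399) (nat_lit 256) (.e (nat_lit 57407) (nat_lit 12) (.e (nat_lit 336398) (nat_lit 27) (.e (nat_lit 426290) (nat_lit 10) .nil))))) (.g (nat_lit 0) (.e (nat_lit 296047) (nat_lit 0) .nil) .nil)))) (.nd (nat_lit 9) 
(.lf (nat_lit 550374) (.g (nat_lit 627) (.e (nat_lit 426098) (nat_lit 1) (.e (nat_lit 164325) (nat_lit 230) (.e (nat_lit 163841) (nat_lit 0) .nil))) (.g (nat_lit 0) (.e (nat_lit 295616) (nat_lit 0) .nil) .nil))) 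
(.lf (nat_lit 550886) (.g (nat_lit 2665) (.e (nat_lit 426100) (nat_lit 1) (.e (nat_lit 164399) (nat_lit 256) (.e (nat_lit 57377) (nat_lit 3) (.e (nat_lit 98358) (nat_lit 26) (.e (nat_lit 426323) (nat_lit 13) .nil))))) (.g (nat_lit 0) (.e (nat_lit 296424) (nat_lit 0) .nil) .nil)))))))) (.nd (nat_lit 5) (.nd (nat_lit 6) (.nd (nat_lit 7) (.nd (nat_lit 8) (.nd (nat_lit 9) 
(.lf (nat_lit 549910) (.g (nat_lit 1369) (.e (nat_lit 417536) (nat_lit 18) (.e (nat_lit 303119) (nat_lit 3) (.e (nat_lit 204878) (nat_lit 31) (.e (nat_lit 376864) (nat_lit 22) (.e (nat_lit 90130) (nat_lit 9) .nil))))) (.g (nat_lit 0) (.e (nat_lit 294603) (nat_lit 0) .nil) .nil))) 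
(.lf (nat_lit 550422) (.g (nat_lit 3630) (.e (nat_lit 426098) (nat_lit 1) (.e (nat_lit 164325) (nat_lit 230) (.e (nat_lit 163873) (nat_lit 3) (.e (nat_lit 204813) (nat_lit 9) (.e (nat_lit 426199) (nat_lit 9) (.e (nat_lit 426480) (nat_lit 27) (.e (nat_lit 336388) (nat_lit 27) .nil))))))) (.g (nat_lit 1) (.e (nat_lit 295728) (nat_lit 0) .nil) .nil)))) (.nd (nat_lit 9) 
(.lf (nat_lit 550166) (.g (nat_lit 2385) (.e (nat_lit 426011) (nat_lit 0) (.e (nat_lit 7498) (nat_lit 402) (.e (nat_lit 1234) (nat_lit 91) (.e (nat_lit 90170) (nat_lit 13) (.e (nat_lit 172113) (nat_lit 10) (.e (nat_lit 434245) (nat_lit 28) (.e (nat_lit 573451) (nat_lit 9) (.e (nat_lit 430) (nat_lit 32) .nil)))))))) (.g (nat_lit 1) (.e (nat_lit 295220) (nat_lit 0) .nil) .nil))) 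
(.lf (nat_lit 550678) (.g (nat_lit 2541) (.e (nat_lit 426099) (nat_lit 1) (.e (nat_lit 164332) (nat_lit 230) (.e (nat_lit 163869) (nat_lit 2) (.e (nat_lit 196654) (nat_lit 11) (.e (nat_lit 16466) (nat_lit 13) (.e (nat_lit 483340) (nat_lit 9) .nil)))))) (.g (nat_lit 1) (.e (nat_lit 296110) (nat_lit 0) .nil) .nil))))) (.nd (nat_lit 8) (.nd (nat_lit 9) 
(.lf (nat_lit 550038) (.g (nat_lit 2988) (.e (nat_lit 417828) (nat_lit 18) (.e (nat_lit 303145) (nat_lit 13) (.e (nat_lit 483346) (nat_lit 17) (.e (nat_lit 1052) (nat_lit 81) .nil)))) (.g (nat_lit 0) (.e (nat_lit 294952) (nat_lit 0) .nil) .nil))) 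
(.lf (nat_lit 550550) (.g (nat_lit 2930) (.e (nat_lit 426098) (nat_lit 1) (.e (nat_lit 164327) (nat_lit 230) (.e (nat_lit 163875) (nat_lit 3) (.e (nat_lit 204813) (nat_lit 9) (.e (nat_lit 426200) (nat_lit 9) (.e (nat_lit 426481) (nat_lit 27) (.e (nat_lit 336388) (nat_lit 27) .nil))))))) (.g (nat_lit 1) (.e (nat_lit 295923) (nat_lit 0) .nil) .nil)))) (.nd (nat_lit 9) 
(.lf (nat_lit 550294) (.g (nat_lit 2214) (.e (nat_lit 426043) (nat_lit 0) (.e (nat_lit 3238) (nat_lit 197) (.e (nat_lit 532550) (nat_lit 12) (.e (nat_lit 360475) (nat_lit 8) (.e (nat_lit 557091) (nat_lit 12) .nil))))) (.g (nat_lit 0) (.e (nat_lit 295424) (nat_lit 0) .nil) .nil))) 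
(.lf (nat_lit 550806) (.g (nat_lit 3683) (.e (nat_lit 426100) (nat_lit 1) (.e (nat_lit 164332) (nat_lit 230) (.e (nat_lit 163869) (nat_lit 2) (.e (nat_lit 196654) (nat_lit 11) (.e (nat_lit 16466) (nat_lit 13) (.e (nat_lit 483340) (nat_lit 9) .nil)))))) (.g (nat_lit 1) (.e (nat_lit 296316) (nat_lit 0) .nil) .nil)))))) (.nd (nat_lit 7) (.nd (nat_lit 8) (.nd (nat_lit 9) 
(.lf (nat_lit 549974) (.g (nat_lit 2819) (.e (nat_lit 417810) (nat_lit 6) (.e (nat_lit 286733) (nat_lit 2) (.e (nat_lit 90170) (nat_lit 13) (.e (nat_lit 172082) (nat_lit 7) (.e (nat_lit 409631) (nat_lit 12) .nil))))) (.g (nat_lit 0) (.e (nat_lit 294824) (nat_lit 0) .nil) .nil))) 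
(.lf (nat_lit 550486) (.g (nat_lit 1452) (.e (nat_lit 426098) (nat_lit 1) (.e (nat_lit 164327) (nat_lit 230) (.e (nat_lit 163871) (nat_lit 2) (.e (nat_lit 196654) (nat_lit 11) (.e (nat_lit 16438) (nat_lit 9) .nil))))) (.g (nat_lit 0) (.e (nat_lit 295832) (nat_lit 0) .nil) .nil)))) (.nd (nat_lit 9) 
(.lf (nat_lit 550230) (.g (nat_lit 2563) (.e (nat_lit 426025) (nat_lit 0) (.e (nat_lit 3397) (nat_lit 211) (.e (nat_lit 647183) (nat_lit 4) (.e (nat_lit 172106) (nat_lit 10) (.e (nat_lit 434209) (nat_lit 18) (.e (nat_lit 5546) (nat_lit 306) (.e (nat_lit 2618) (nat_lit 164) (.e (nat_lit 172097) (nat_lit 9) .nil)))))))) (.g (nat_lit 1) (.e (nat_lit 295308) (nat_lit 0) .nil) .nil))) 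
(.lf (nat_lit 550742) (.g (nat_lit 1717) (.e (nat_lit 426099) (nat_lit 1) (.e (nat_lit 164399) (nat_lit 256) (.e (nat_lit 57375) (nat_lit 2) (.e (nat_lit 90178) (nat_lit 15) (.e (nat_lit 188421) (nat_lit 11) .nil))))) (.g (nat_lit 0) (.e (nat_lit 296180) (nat_lit 0) .nil) .nil))))) (.nd (nat_lit 8) (.nd (nat_lit 9) 
(.lf (nat_lit 550102) (.g (nat_lit 2857) (.e (nat_lit 426009) (nat_lit 0) (.e (nat_lit 7490) (nat_lit 402) (.e (nat_lit 1256) (nat_lit 92) (.e (nat_lit 98373) (nat_lit 29) (.e (nat_lit 450587) (nat_lit 10) (.e (nat_lit 573457) (nat_lit 9) (.e (nat_lit 430) (nat_lit 32) .nil))))))) (.g (nat_lit 1) (.e (nat_lit 295156) (nat_lit 0) .nil) .nil))) 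
(.lf (nat_lit 550614) (.g (nat_lit 1612) (.e (nat_lit 426098) (nat_lit 1) (.e (nat_lit 164399) (nat_lit 256) (.e (nat_lit 57377) (nat_lit 3) (.e (nat_lit 98365) (nat_lit 26) (.e (nat_lit 426332) (nat_lit 13) .nil))))) (.g (nat_lit 0) (.e (nat_lit 296031) (nat_lit 0) .nil) .nil)))) (.nd (nat_lit 9) 
(.lf (nat_lit 550358) (.g (nat_lit 1793) (.e (nat_lit 426098) (nat_lit 1) (.e (nat_lit 164179) (nat_lit 154) (.e (nat_lit 57411) (nat_lit 12) (.e (nat_lit 336324) (nat_lit 18) .nil)))) (.g (nat_lit 0) (.e (nat_lit 295591) (nat_lit 0) .nil) .nil))) 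
(.lf (nat_lit 550870) (.g (nat_lit 1283) (.e (nat_lit 426100) (nat_lit 1) (.e (nat_lit 164398) (nat_lit 256) (.e (nat_lit 57408) (nat_lit 12) (.e (nat_lit 336443) (nat_lit 32) (.e (nat_lit 466979) (nat_lit 23) .nil))))) (.g (nat_lit 0) (.e (nat_lit 296407) (nat_lit 0) .nil) .nil))))))) (.nd (nat_lit 6) (.nd (nat_lit 7) (.nd (nat_lit 8) (.nd (nat_lit 9) 
(.lf (nat_lit 549942) (.g (nat_lit 3983) (.e (nat_lit 417795) (nat_lit 0) (.e (nat_lit 5271) (nat_lit 298) (.e (nat_lit 1239) (nat_lit 91) (.e (nat_lit 90170) (nat_lit 13) (.e (nat_lit 172113) (nat_lit 10) (.e (nat_lit 434247) (nat_lit 28) (.e (nat_lit 573456) (nat_lit 9) (.e (nat_lit 365) (nat_lit 31) .nil)))))))) (.g (nat_lit 1) (.e (nat_lit 294773) (nat_lit 0) .nil) .nil))) 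
(.lf (nat_lit 550454) (.g (nat_lit 1396) (.e (nat_lit 426098) (nat_lit 1) (.e (nat_lit 164327) (nat_lit 230) (.e (nat_lit 163868) (nat_lit 2) (.e (nat_lit 196624) (nat_lit 9) .nil)))) (.g (nat_lit 0) (.e (nat_lit 295783) (nat_lit 0) .nil) .nil)))) (.nd (nat_lit 9) 
(.lf (nat_lit 550198) (.g (nat_lit 1992) (.e (nat_lit 426012) (nat_lit 0) (.e (nat_lit 3548) (nat_lit 219) (.e (nat_lit 712753) (nat_lit 30) (.e (nat_lit 450586) (nat_lit 10) (.e (nat_lit 573473) (nat_lit 12) (.e (nat_lit 57508) (nat_lit 39) (.e (nat_lit 647195) (nat_lit 9) (.e (nat_lit 426) (nat_lit 32) .nil)))))))) (.g (nat_lit 1) (.e (nat_lit 295255) (nat_lit 0) .nil) .nil))) 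
(.lf (nat_lit 550710) (.g (nat_lit 3301) (.e (nat_lit 426099) (nat_lit 1) (.e (nat_lit 164398) (nat_lit 256) (.e (nat_lit 57374) (nat_lit 2) (.e (nat_lit 90170) (nat_lit 13) (.e (nat_lit 172121) (nat_lit 13) .nil))))) (.g (nat_lit 0) (.e (nat_lit 296148) (nat_lit 0) .nil) .nil))))) (.nd (nat_lit 8) (.nd (nat_lit 9) 
(.lf (nat_lit 550070) (.g (nat_lit 438) (.e (nat_lit 425728) (nat_lit 19) (.e (nat_lit 311312) (nat_lit 2) (.e (nat_lit 196672) (nat_lit 15) .nil))) (.g (nat_lit 0) (.e (nat_lit 295068) (nat_lit 0) .nil) .nil))) 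
(.lf (nat_lit 550582) (.g (nat_lit 1903) (.e (nat_lit 426098) (nat_lit 1) (.e (nat_lit 164398) (nat_lit 256) (.e (nat_lit 57371) (nat_lit 2) (.e (nat_lit 90176) (nat_lit 15) (.e (nat_lit 196352) (nat_lit 11) .nil))))) (.g (nat_lit 0) (.e (nat_lit 295999) (nat_lit 0) .nil) .nil)))) (.nd (nat_lit 9) 
(.lf (nat_lit 550326) (.g (nat_lit 482) (.e (nat_lit 426097) (nat_lit 1) (.e (nat_lit 164327) (nat_lit 230) (.e (nat_lit 163868) (nat_lit 2) .nil))) (.g (nat_lit 0) (.e (nat_lit 295511) (nat_lit 0) .nil) .nil))) 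
(.lf (nat_lit 550838) (.g (nat_lit 1876) (.e (nat_lit 426100) (nat_lit 1) (.e (nat_lit 164398) (nat_lit 256) (.e (nat_lit 57371) (nat_lit 2) (.e (nat_lit 90176) (nat_lit 15) (.e (nat_lit 196352) (nat_lit 11) .nil))))) (.g (nat_lit 0) (.e (nat_lit 296375) (nat_lit 0) .nil) .nil)))))) (.nd (nat_lit 7) (.nd (nat_lit 8) (.nd (nat_lit 9) 
(.lf (nat_lit 550006) (.g (nat_lit 2760) (.e (nat_lit 417811) (nat_lit 6) (.e (nat_lit 286762) (nat_lit 14) (.e (nat_lit 401454) (nat_lit 12) (.e (nat_lit 475214) (nat_lit 42) .nil)))) (.g (nat_lit 0) (.e (nat_lit 294862) (nat_lit 0) .nil) .nil))) 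
(.lf (nat_lit 550518) (.g (nat_lit 3195) (.e (nat_lit 426098) (nat_lit 1) (.e (nat_lit 164327) (nat_lit 230) (.e (nat_lit 163873) (nat_lit 3) (.e (nat_lit 204813) (nat_lit 9) (.e (nat_lit 426199) (nat_lit 9) (.e (nat_lit 426484) (nat_lit 27) (.e (nat_lit 336407) (nat_lit 27) .nil))))))) (.g (nat_lit 1) (.e (nat_lit 295873) (nat_lit 0) .nil) .nil)))) (.nd (nat_lit 9) 
(.lf (nat_lit 550262) (.g (nat_lit 4198) (.e (nat_lit 426023) (nat_lit 0) (.e (nat_lit 3401) (nat_lit 211) (.e (nat_lit 647181) (nat_lit 3) (.e (nat_lit 163977) (nat_lit 30) (.e (nat_lit 573493) (nat_lit 15) (.e (nat_lit 81956) (nat_lit 23) (.e (nat_lit 98359) (nat_lit 26) .nil))))))) (.g (nat_lit 1) (.e (nat_lit 295359) (nat_lit 0) .nil) .nil))) 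
(.lf (nat_lit 550774) (.g (nat_lit 1604) (.e (nat_lit 426099) (nat_lit 1) (.e (nat_lit 164399) (nat_lit 256) (.e (nat_lit 57409) (nat_lit 12) (.e (nat_lit 336443) (nat_lit 32) (.e (nat_lit 466981) (nat_lit 23) .nil))))) (.g (nat_lit 0) (.e (nat_lit 296212) (nat_lit 0) .nil) .nil))))) (.nd (nat_lit 8) (.nd (nat_lit 9) 
(.lf (nat_lit 550134) (.g (nat_lit 3873) (.e (nat_lit 426010) (nat_lit 0) (.e (nat_lit 7583) (nat_lit 405) (.e (nat_lit 57464) (nat_lit 23) (.e (nat_lit 516151) (nat_lit 9) (.e (nat_lit 426286) (nat_lit 10) (.e (nat_lit 434245) (nat_lit 28) (.e (nat_lit 573451) (nat_lit 9) (.e (nat_lit 430) (nat_lit 32) .nil)))))))) (.g (nat_lit 1) (.e (nat_lit 295188) (nat_lit 0) .nil) .nil))) 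
(.lf (nat_lit 550646) (.g (nat_lit 2118) (.e (nat_lit 426098) (nat_lit 1) (.e (nat_lit 164403) (nat_lit 256) (.e (nat_lit 57373) (nat_lit 2) (.e (nat_lit 90178) (nat_lit 15) (.e (nat_lit 196352) (nat_lit 11) .nil))))) (.g (nat_lit 0) (.e (nat_lit 296063) (nat_lit 0) .nil) .nil)))) (.nd (nat_lit 9) 
(.lf (nat_lit 550390) (.g (nat_lit 3373) (.e (nat_lit 426098) (nat_lit 1) (.e (nat_lit 164325) (nat_lit 230) (.e (nat_lit 163869) (nat_lit 2) (.e (nat_lit 196654) (nat_lit 11) (.e (nat_lit 16466) (nat_lit 13) (.e (nat_lit 483337) (nat_lit 9) .nil)))))) (.g (nat_lit 1) (.e (nat_lit 295681) (nat_lit 0) .nil) .nil))) 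
(.lf (nat_lit 550902) (.g (nat_lit 3599) (.e (nat_lit 426100) (nat_lit 1) (.e (nat_lit 164399) (nat_lit 256) (.e (nat_lit 57379) (nat_lit 3) (.e (nat_lit 98365) (nat_lit 26) (.e (nat_lit 426325) (nat_lit 13) (.e (nat_lit 483341) (nat_lit 9) .nil)))))) (.g (nat_lit 1) (.e (nat_lit 296440) (nat_lit 0) .nil) .nil))))))))) 
(.nd (nat_lit 4) (.nd (nat_lit 5) (.nd (nat_lit 6) (.nd (nat_lit 7) (.nd (nat_lit 8) 
(.nd (nat_lit 9) 
(.lf (nat_lit 549902) (.g (nat_lit 1483) (.e (nat_lit 417536) (nat_lit 18) (.e (nat_lit 303119) (nat_lit 3) (.e (nat_lit 204876) (nat_lit 31) (.e (nat_lit 376867) (nat_lit 23) .nil)))) (.g (nat_lit 0) (.e (nat_lit 294595) (nat_lit 0) .nil) .nil))) 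
(.lf (nat_lit 550414) (.g (nat_lit 3146) (.e (nat_lit 426098) (nat_lit 1) (.e (nat_lit 164325) (nat_lit 230) (.e (nat_lit 163873) (nat_lit 3) (.e (nat_lit 204813) (nat_lit 9) (.e (nat_lit 426197) (nat_lit 9) (.e (nat_lit 426481) (nat_lit 27) (.e (nat_lit 336388) (nat_lit 27) .nil))))))) (.g (nat_lit 1) (.e (nat_lit 295719) (nat_lit 0) .nil) .nil)))) (.nd (nat_lit 9) 
(.lf (nat_lit 550158) (.g (nat_lit 2992) (.e (nat_lit 426011) (nat_lit 0) (.e (nat_lit 7486) (nat_lit 402) (.e (nat_lit 1256) (nat_lit 92) (.e (nat_lit 98373) (nat_lit 29) (.e (nat_lit 450587) (nat_lit 10) (.e (nat_lit 573454) (nat_lit 9) (.e (nat_lit 397) (nat_lit 32) .nil))))))) (.g (nat_lit 1) (.e (nat_lit 295212) (nat_lit 0) .nil) .nil))) 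
(.lf (nat_lit 550670) (.g (nat_lit 1773) (.e (nat_lit 426099) (nat_lit 1) (.e (nat_lit 164330) (nat_lit 230) (.e (nat_lit 163878) (nat_lit 4) (.e (nat_lit 213030) (nat_lit 11) (.e (nat_lit 24660) (nat_lit 13) (.e (nat_lit 393281) (nat_lit 23) .nil)))))) (.g (nat_lit 1) (.e (nat_lit 296099) (nat_lit 0) .nil) .nil))))) (.nd (nat_lit 8) (.nd (nat_lit 9) 
(.lf (nat_lit 550030) (.g (nat_lit 1576) (.e (nat_lit 417828) (nat_lit 18) (.e (nat_lit 303143) (nat_lit 12) (.e (nat_lit 475212) (nat_lit 42) (.e (nat_lit 720956) (nat_lit 25) .nil)))) (.g (nat_lit 0) (.e (nat_lit 294943) (nat_lit 0) .nil) .nil))) 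
(.lf (nat_lit 550542) (.g (nat_lit 1576) (.e (nat_lit 426098) (nat_lit 1) (.e (nat_lit 164327) (nat_lit 230) (.e (nat_lit 163875) (nat_lit 3) (.e (nat_lit 204813) (nat_lit 9) (.e (nat_lit 426198) (nat_lit 9) .nil))))) (.g (nat_lit 0) (.e (nat_lit 295915) (nat_lit 0) .nil) .nil)))) (.nd (nat_lit 9) 
(.lf (nat_lit 550286) (.g (nat_lit 2487) (.e (nat_lit 426042) (nat_lit 0) (.e (nat_lit 3307) (nat_lit 202) (.e (nat_lit 573484) (nat_lit 13) (.e (nat_lit 65553) (nat_lit 0) .nil)))) (.g (nat_lit 0) (.e (nat_lit 295400) (nat_lit 0) .nil) .nil))) 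
(.lf (nat_lit 550798) (.g (nat_lit 2841) (.e (nat_lit 426100) (nat_lit 1) (.e (nat_lit 164332) (nat_lit 230) (.e (nat_lit 163867) (nat_lit 2) (.e (nat_lit 196656) (nat_lit 11) (.e (nat_lit 16466) (nat_lit 13) (.e (nat_lit 483336) (nat_lit 9) .nil)))))) (.g (nat_lit 1) (.e (nat_lit 296279) (nat_lit 0) .nil) .nil)))))) (.nd (nat_lit 7) (.nd (nat_lit 8) (.nd (nat_lit 9) 
(.lf (nat_lit 549966) (.g (nat_lit 2689) (.e (nat_lit 417809) (nat_lit 6) (.e (nat_lit 286743) (nat_lit 9) (.e (nat_lit 336427) (nat_lit 29) (.e (nat_lit 442430) (nat_lit 24) (.e (nat_lit 229678) (nat_lit 244) (.e (nat_lit 163899) (nat_lit 11) .nil)))))) (.g (nat_lit 1) (.e (nat_lit 294808) (nat_lit 0) .nil) .nil))) 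
(.lf (nat_lit 550478) (.g (nat_lit 2202) (.e (nat_lit 426098) (nat_lit 1) (.e (nat_lit 164327) (nat_lit 230) (.e (nat_lit 163868) (nat_lit 2) (.e (nat_lit 196656) (nat_lit 11) (.e (nat_lit 16466) (nat_lit 13) .nil))))) (.g (nat_lit 0) (.e (nat_lit 295819) (nat_lit 0) .nil) .nil)))) (.nd (nat_lit 9) 
(.lf (nat_lit 550222) (.g (nat_lit 178) (.e (nat_lit 426025) (nat_lit 0) (.e (nat_lit 3397) (nat_lit 211) (.e (nat_lit 647181) (nat_lit 3) .nil))) (.g (nat_lit 0) (.e (nat_lit 295297) (nat_lit 0) .nil) .nil))) 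
(.lf (nat_lit 550734) (.g (nat_lit 1485) (.e (nat_lit 426099) (nat_lit 1) (.e (nat_lit 164399) (nat_lit 256) (.e (nat_lit 57373) (nat_lit 2) (.e (nat_lit 90167) (nat_lit 13) .nil)))) (.g (nat_lit 0) (.e (nat_lit 296172) (nat_lit 0) .nil) .nil))))) (.nd (nat_lit 8) (.nd (nat_lit 9) 
(.lf (nat_lit 550094) (.g (nat_lit 2217) (.e (nat_lit 426003) (nat_lit 0) (.e (nat_lit 3238) (nat_lit 197) (.e (nat_lit 532550) (nat_lit 12) (.e (nat_lit 360475) (nat_lit 8) (.e (nat_lit 557091) (nat_lit 12) .nil))))) (.g (nat_lit 0) (.e (nat_lit 295137) (nat_lit 0) .nil) .nil))) 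
(.lf (nat_lit 550606) (.g (nat_lit 1432) (.e (nat_lit 426098) (nat_lit 1) (.e (nat_lit 164399) (nat_lit 256) (.e (nat_lit 57372) (nat_lit 2) (.e (nat_lit 90184) (nat_lit 17) .nil)))) (.g (nat_lit 0) (.e (nat_lit 296023) (nat_lit 0) .nil) .nil)))) (.nd (nat_lit 9) 
(.lf (nat_lit 550350) (.g (nat_lit 1382) (.e (nat_lit 426098) (nat_lit 1) (.e (nat_lit 164179) (nat_lit 154) (.e (nat_lit 57407) (nat_lit 12) (.e (nat_lit 336322) (nat_lit 18) .nil)))) (.g (nat_lit 0) (.e (nat_lit 295583) (nat_lit 0) .nil) .nil))) 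
(.lf (nat_lit 550862) (.g (nat_lit 2273) (.e (nat_lit 426100) (nat_lit 1) (.e (nat_lit 164398) (nat_lit 256) (.e (nat_lit 57379) (nat_lit 3) (.e (nat_lit 98365) (nat_lit 26) (.e (nat_lit 426188) (nat_lit 9) .nil))))) (.g (nat_lit 0) (.e (nat_lit 296399) (nat_lit 0) .nil) .nil))))))) (.nd (nat_lit 6) (.nd (nat_lit 7) (.nd (nat_lit 8) (.nd (nat_lit 9) 
(.lf (nat_lit 549934) (.g (nat_lit 1460) (.e (nat_lit 409642) (nat_lit 17) (.e (nat_lit 294974) (nat_lit 29) (.e (nat_lit 442411) (nat_lit 20) (.e (nat_lit 3409) (nat_lit 212) (.e (nat_lit 655378) (nat_lit 4) (.e (nat_lit 172081) (nat_lit 7) .nil)))))) (.g (nat_lit 1) (.e (nat_lit 294754) (nat_lit 0) .nil) .nil))) 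
(.lf (nat_lit 550446) (.g (nat_lit 991) (.e (nat_lit 426098) (nat_lit 1) (.e (nat_lit 164325) (nat_lit 230) (.e (nat_lit 163875) (nat_lit 3) (.e (nat_lit 204805) (nat_lit 0) .nil)))) (.g (nat_lit 0) (.e (nat_lit 295766) (nat_lit 0) .nil) .nil)))) (.nd (nat_lit 9) 
(.lf (nat_lit 550190) (.g (nat_lit 2986) (.e (nat_lit 426011) (nat_lit 0) (.e (nat_lit 7583) (nat_lit 405) (.e (nat_lit 57464) (nat_lit 23) (.e (nat_lit 516166) (nat_lit 12) (.e (nat_lit 450587) (nat_lit 10) (.e (nat_lit 573454) (nat_lit 9) (.e (nat_lit 397) (nat_lit 32) .nil))))))) (.g (nat_lit 1) (.e (nat_lit 295244) (nat_lit 0) .nil) .nil))) 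
(.lf (nat_lit 550702) (.g (nat_lit 1506) (.e (nat_lit 426099) (nat_lit 1) (.e (nat_lit 164398) (nat_lit 256) (.e (nat_lit 57372) (nat_lit 2) (.e (nat_lit 90167) (nat_lit 13) .nil)))) (.g (nat_lit 0) (.e (nat_lit 296140) (nat_lit 0) .nil) .nil))))) (.nd (nat_lit 8) (.nd (nat_lit 9) 
(.lf (nat_lit 550062) (.g (nat_lit 3260) (.e (nat_lit 417829) (nat_lit 18) (.e (nat_lit 303145) (nat_lit 13) (.e (nat_lit 483346) (nat_lit 17) (.e (nat_lit 1050) (nat_lit 81) .nil)))) (.g (nat_lit 0) (.e (nat_lit 295012) (nat_lit 0) .nil) .nil))) 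
(.lf (nat_lit 550574) (.g (nat_lit 2446) (.e (nat_lit 426098) (nat_lit 1) (.e (nat_lit 164332) (nat_lit 230) (.e (nat_lit 163880) (nat_lit 4) (.e (nat_lit 213030) (nat_lit 11) (.e (nat_lit 24654) (nat_lit 13) .nil))))) (.g (nat_lit 0) (.e (nat_lit 295969) (nat_lit 0) .nil) .nil)))) (.nd (nat_lit 9) 
(.lf (nat_lit 550318) (.g (nat_lit 2550) (.e (nat_lit 426091) (nat_lit 0) (.e (nat_lit 3238) (nat_lit 197) (.e (nat_lit 532550) (nat_lit 12) (.e (nat_lit 360474) (nat_lit 8) (.e (nat_lit 557093) (nat_lit 12) .nil))))) (.g (nat_lit 0) (.e (nat_lit 295480) (nat_lit 0) .nil) .nil))) 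
(.lf (nat_lit 550830) (.g (nat_lit 2674) (.e (nat_lit 426100) (nat_lit 1) (.e (nat_lit 164332) (nat_lit 230) (.e (nat_lit 163878) (nat_lit 4) (.e (nat_lit 213030) (nat_lit 11) (.e (nat_lit 24657) (nat_lit 13) (.e (nat_lit 393281) (nat_lit 23) .nil)))))) (.g (nat_lit 1) (.e (nat_lit 296367) (nat_lit 0) .nil) .nil)))))) (.nd (nat_lit 7) (.nd (nat_lit 8) (.nd (nat_lit 9) 
(.lf (nat_lit 549998) (.g (nat_lit 2433) (.e (nat_lit 417811) (nat_lit 6) (.e (nat_lit 286733) (nat_lit 2) (.e (nat_lit 90174) (nat_lit 14) (.e (nat_lit 180288) (nat_lit 45) .nil)))) (.g (nat_lit 0) (.e (nat_lit 294852) (nat_lit 0) .nil) .nil))) 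
(.lf (nat_lit 550510) (.g (nat_lit 3393) (.e (nat_lit 426098) (nat_lit 1) (.e (nat_lit 164327) (nat_lit 230) (.e (nat_lit 163873) (nat_lit 3) (.e (nat_lit 204813) (nat_lit 9) (.e (nat_lit 426197) (nat_lit 9) (.e (nat_lit 426509) (nat_lit 27) (.e (nat_lit 336412) (nat_lit 27) .nil))))))) (.g (nat_lit 1) (.e (nat_lit 295865) (nat_lit 0) .nil) .nil)))) (.nd (nat_lit 9) 
(.lf (nat_lit 550254) (.g (nat_lit 3509) (.e (nat_lit 426025) (nat_lit 0) (.e (nat_lit 3399) (nat_lit 211) (.e (nat_lit 647183) (nat_lit 4) (.e (nat_lit 172126) (nat_lit 14) (.e (nat_lit 491571) (nat_lit 13) (.e (nat_lit 393277) (nat_lit 23) .nil)))))) (.g (nat_lit 1) (.e (nat_lit 295343) (nat_lit 0) .nil) .nil))) 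
(.lf (nat_lit 550766) (.g (nat_lit 2017) (.e (nat_lit 426099) (nat_lit 1) (.e (nat_lit 164399) (nat_lit 256) (.e (nat_lit 57407) (nat_lit 12) (.e (nat_lit 336398) (nat_lit 27) .nil)))) (.g (nat_lit 0) (.e (nat_lit 296204) (nat_lit 0) .nil) .nil))))) (.nd (nat_lit 8) (.nd (nat_lit 9) 
(.lf (nat_lit 550126) (.g (nat_lit 3479) (.e (nat_lit 426010) (nat_lit 0) (.e (nat_lit 7581) (nat_lit 405) (.e (nat_lit 57464) (nat_lit 23) (.e (nat_lit 516151) (nat_lit 9) (.e (nat_lit 426286) (nat_lit 10) (.e (nat_lit 434247) (nat_lit 28) (.e (nat_lit 573457) (nat_lit 9) (.e (nat_lit 430) (nat_lit 32) .nil)))))))) (.g (nat_lit 1) (.e (nat_lit 295180) (nat_lit 0) .nil) .nil))) 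
(.lf (nat_lit 550638) (.g (nat_lit 818) (.e (nat_lit 426098) (nat_lit 1) (.e (nat_lit 164403) (nat_lit 256) (.e (nat_lit 57369) (nat_lit 2) .nil))) (.g (nat_lit 0) (.e (nat_lit 296055) (nat_lit 0) .nil) .nil)))) (.nd (nat_lit 9) 
(.lf (nat_lit 550382) (.g (nat_lit 393) (.e (nat_lit 426098) (nat_lit 1) (.e (nat_lit 164325) (nat_lit 230) (.e (nat_lit 163868) (nat_lit 2) .nil))) (.g (nat_lit 0) (.e (nat_lit 295661) (nat_lit 0) .nil) .nil))) 
(.lf (nat_lit 550894) (.g (nat_lit 2458) (.e (nat_lit 426100) (nat_lit 1) (.e (nat_lit 164399) (nat_lit 256) (.e (nat_lit 57378) (nat_lit 3) (.e (nat_lit 98356) (nat_lit 26) (.e (nat_lit 426323) (nat_lit 13) .nil))))) (.g (nat_lit 0) (.e (nat_lit 296432) (nat_lit 0) .nil) .nil)))))))) (.nd (nat_lit 5) (.nd (nat_lit 6) (.nd (nat_lit 7) (.nd (nat_lit 8) (.nd (nat_lit 9) 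
(.lf (nat_lit 549918) (.g (nat_lit 962) (.e (nat_lit 417536) (nat_lit 16) (.e (nat_lit 286728) (nat_lit 0) (.e (nat_lit 2281) (nat_lit 150) (.e (nat_lit 770072) (nat_lit 8) .nil)))) (.g (nat_lit 0) (.e (nat_lit 294721) (nat_lit 0) .nil) .nil))) 
(.lf (nat_lit 550430) (.g (nat_lit 3689) (.e (nat_lit 426098) (nat_lit 1) (.e (nat_lit 164325) (nat_lit 230) (.e (nat_lit 163873) (nat_lit 3) (.e (nat_lit 204813) (nat_lit 9) (.e (nat_lit 426199) (nat_lit 9) (.e (nat_lit 426491) (nat_lit 27) (.e (nat_lit 336407) (nat_lit 27) .nil))))))) (.g (nat_lit 1) (.e (nat_lit 295736) (nat_lit 0) .nil) .nil)))) (.nd (nat_lit 9) 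
(.lf (nat_lit 550174) (.g (nat_lit 3013) (.e (nat_lit 426011) (nat_lit 0) (.e (nat_lit 7581) (nat_lit 405) (.e (nat_lit 57464) (nat_lit 23) (.e (nat_lit 516151) (nat_lit 9) (.e (nat_lit 426286) (nat_lit 10) (.e (nat_lit 434245) (nat_lit 28) (.e (nat_lit 573451) (nat_lit 9) (.e (nat_lit 396) (nat_lit 32) .nil)))))))) (.g (nat_lit 1) (.e (nat_lit 295228) (nat_lit 0) .nil) .nil))) 
(.lf (nat_lit 550686) (.g (nat_lit 2599) (.e (nat_lit 426099) (nat_lit 1) (.e (nat_lit 164332) (nat_lit 230) (.e (nat_lit 163874) (nat_lit 3) (.e (nat_lit 204829) (nat_lit 18) (.e (nat_lit 57909) (nat_lit 278) .nil))))) (.g (nat_lit 0) (.e (nat_lit 296124) (nat_lit 0) .nil) .nil))))) (.nd (nat_lit 8) (.nd (nat_lit 9) 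
(.lf (nat_lit 550046) (.g (nat_lit 3390) (.e (nat_lit 417829) (nat_lit 18) (.e (nat_lit 303117) (nat_lit 2) (.e (nat_lit 196674) (nat_lit 15) (.e (nat_lit 81956) (nat_lit 23) (.e (nat_lit 98352) (nat_lit 25) .nil))))) (.g (nat_lit 0) (.e (nat_lit 294991) (nat_lit 0) .nil) .nil))) 
(.lf (nat_lit 550558) (.g (nat_lit 2791) (.e (nat_lit 426098) (nat_lit 1) (.e (nat_lit 164327) (nat_lit 230) (.e (nat_lit 163875) (nat_lit 3) (.e (nat_lit 204830) (nat_lit 18) (.e (nat_lit 57909) (nat_lit 278) .nil))))) (.g (nat_lit 0) (.e (nat_lit 295944) (nat_lit 0) .nil) .nil)))) (.nd (nat_lit 9) 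
(.lf (nat_lit 550302) (.g (nat_lit 2554) (.e (nat_lit 426046) (nat_lit 0) (.e (nat_lit 3297) (nat_lit 202) (.e (nat_lit 573450) (nat_lit 9) (.e (nat_lit 375) (nat_lit 32) (.e (nat_lit 426173) (nat_lit 7) (.e (nat_lit 409616) (nat_lit 10) (.e (nat_lit 7936) (nat_lit 43) (.e (nat_lit 516151) (nat_lit 9) (.e (nat_lit 426211) (nat_lit 9) .nil))))))))) (.g (nat_lit 1) (.e (nat_lit 295445) (nat_lit 0) .nil) .nil))) 
(.lf (nat_lit 550814) (.g (nat_lit 4056) (.e (nat_lit 426100) (nat_lit 1) (.e (nat_lit 164332) (nat_lit 230) (.e (nat_lit 163869) (nat_lit 2) (.e (nat_lit 196656) (nat_lit 11) (.e (nat_lit 16463) (nat_lit 13) (.e (nat_lit 483337) (nat_lit 9) .nil)))))) (.g (nat_lit 1) (.e (nat_lit 296330) (nat_lit 0) .nil) .nil)))))) (.nd (nat_lit 7) (.nd (nat_lit 8) (.nd (nat_lit 9) 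
(.lf (nat_lit 549982) (.g (nat_lit 2675) (.e (nat_lit 417810) (nat_lit 6) (.e (nat_lit 286734) (nat_lit 3) (.e (nat_lit 98373) (nat_lit 29) (.e (nat_lit 450587) (nat_lit 10) (.e (nat_lit 573454) (nat_lit 9) (.e (nat_lit 363) (nat_lit 31) .nil)))))) (.g (nat_lit 1) (.e (nat_lit 294832) (nat_lit 0) .nil) .nil))) 
(.lf (nat_lit 550494) (.g (nat_lit 3153) (.e (nat_lit 426098) (nat_lit 1) (.e (nat_lit 164327) (nat_lit 230) (.e (nat_lit 163871) (nat_lit 2) (.e (nat_lit 196656) (nat_lit 11) (.e (nat_lit 16433) (nat_lit 9) (.e (nat_lit 426478) (nat_lit 27) (.e (nat_lit 336389) (nat_lit 27) .nil))))))) (.g (nat_lit 1) (.e (nat_lit 295843) (nat_lit 0) .nil) .nil)))) (.nd (nat_lit 9) 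
(.lf (nat_lit 550238) (.g (nat_lit 1710) (.e (nat_lit 426025) (nat_lit 0) (.e (nat_lit 3397) (nat_lit 211) (.e (nat_lit 647183) (nat_lit 4) (.e (nat_lit 172126) (nat_lit 14) (.e (nat_lit 491568) (nat_lit 13) .nil))))) (.g (nat_lit 0) (.e (nat_lit 295317) (nat_lit 0) .nil) .nil))) 
(.lf (nat_lit 550750) (.g (nat_lit 2757) (.e (nat_lit 426099) (nat_lit 1) (.e (nat_lit 164399) (nat_lit 256) (.e (nat_lit 57378) (nat_lit 3) (.e (nat_lit 98356) (nat_lit 26) (.e (nat_lit 426323) (nat_lit 13) .nil))))) (.g (nat_lit 0) (.e (nat_lit 296188) (nat_lit 0) .nil) .nil))))) (.nd (nat_lit 8) (.nd (nat_lit 9) 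
(.lf (nat_lit 550110) (.g (nat_lit 743) (.e (nat_lit 426009) (nat_lit 0) (.e (nat_lit 7591) (nat_lit 407) (.e (nat_lit 73775) (nat_lit 26) (.e (nat_lit 778465) (nat_lit 11) .nil)))) (.g (nat_lit 0) (.e (nat_lit 295164) (nat_lit 0) .nil) .nil))) 
(.lf (nat_lit 550622) (.g (nat_lit 3235) (.e (nat_lit 426098) (nat_lit 1) (.e (nat_lit 164399) (nat_lit 256) (.e (nat_lit 57378) (nat_lit 3) (.e (nat_lit 98365) (nat_lit 26) (.e (nat_lit 426327) (nat_lit 13) (.e (nat_lit 483341) (nat_lit 9) .nil)))))) (.g (nat_lit 1) (.e (nat_lit 296039) (nat_lit 0) .nil) .nil)))) (.nd (nat_lit 9) 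
(.lf (nat_lit 550366) (.g (nat_lit 1548) (.e (nat_lit 426098) (nat_lit 1) (.e (nat_lit 164182) (nat_lit 154) (.e (nat_lit 57410) (nat_lit 12) (.e (nat_lit 336316) (nat_lit 17) (.e (nat_lit 196674) (nat_lit 15) .nil))))) (.g (nat_lit 0) (.e (nat_lit 295601) (nat_lit 0) .nil) .nil))) 
(.lf (nat_lit 550878) (.g (nat_lit 1928) (.e (nat_lit 426100) (nat_lit 1) (.e (nat_lit 164399) (nat_lit 256) (.e (nat_lit 57371) (nat_lit 2) (.e (nat_lit 90176) (nat_lit 15) (.e (nat_lit 196352) (nat_lit 11) .nil))))) (.g (nat_lit 0) (.e (nat_lit 296416) (nat_lit 0) .nil) .nil))))))) (.nd (nat_lit 6) (.nd (nat_lit 7) (.nd (nat_lit 8) (.nd (nat_lit 9) 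
(.lf (nat_lit 549950) (.g (nat_lit 890) (.e (nat_lit 417813) (nat_lit 9) (.e (nat_lit 311314) (nat_lit 3) (.e (nat_lit 204846) (nat_lit 24) (.e (nat_lit 319533) (nat_lit 16) .nil)))) (.g (nat_lit 0) (.e (nat_lit 294791) (nat_lit 0) .nil) .nil))) 
(.lf (nat_lit 550462) (.g (nat_lit 1674) (.e (nat_lit 426098) (nat_lit 1) (.e (nat_lit 164327) (nat_lit 230) (.e (nat_lit 163868) (nat_lit 2) (.e (nat_lit 196654) (nat_lit 11) (.e (nat_lit 16437) (nat_lit 9) .nil))))) (.g (nat_lit 0) (.e (nat_lit 295796) (nat_lit 0) .nil) .nil)))) (.nd (nat_lit 9) 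
(.lf (nat_lit 550206) (.g (nat_lit 3279) (.e (nat_lit 426012) (nat_lit 0) (.e (nat_lit 7581) (nat_lit 405) (.e (nat_lit 57476) (nat_lit 28) (.e (nat_lit 557067) (nat_lit 9) (.e (nat_lit 2975) (nat_lit 185) (.e (nat_lit 434275) (nat_lit 39) (.e (nat_lit 663567) (nat_lit 4) (.e (nat_lit 65651) (nat_lit 27) .nil)))))))) (.g (nat_lit 1) (.e (nat_lit 295263) (nat_lit 0) .nil) .nil))) 
(.lf (nat_lit 550718) (.g (nat_lit 1682) (.e (nat_lit 426099) (nat_lit 1) (.e (nat_lit 164398) (nat_lit 256) (.e (nat_lit 57379) (nat_lit 3) (.e (nat_lit 98369) (nat_lit 28) (.e (nat_lit 442390) (nat_lit 11) .nil))))) (.g (nat_lit 0) (.e (nat_lit 296156) (nat_lit 0) .nil) .nil))))) (.nd (nat_lit 8) (.nd (nat_lit 9) 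
(.lf (nat_lit 550078) (.g (nat_lit 3108) (.e (nat_lit 425989) (nat_lit 0) (.e (nat_lit 7489) (nat_lit 402) (.e (nat_lit 1239) (nat_lit 91) (.e (nat_lit 90170) (nat_lit 13) (.e (nat_lit 172113) (nat_lit 10) (.e (nat_lit 434245) (nat_lit 28) (.e (nat_lit 573451) (nat_lit 9) (.e (nat_lit 7936) (nat_lit 32) .nil)))))))) (.g (nat_lit 1) (.e (nat_lit 295110) (nat_lit 0) .nil) .nil))) 
(.lf (nat_lit 550590) (.g (nat_lit 1645) (.e (nat_lit 426098) (nat_lit 1) (.e (nat_lit 164398) (nat_lit 256) (.e (nat_lit 57378) (nat_lit 3) (.e (nat_lit 98354) (nat_lit 26) .nil)))) (.g (nat_lit 0) (.e (nat_lit 296007) (nat_lit 0) .nil) .nil)))) (.nd (nat_lit 9) 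
(.lf (nat_lit 550334) (.g (nat_lit 934) (.e (nat_lit 426097) (nat_lit 1) (.e (nat_lit 164327) (nat_lit 230) (.e (nat_lit 163879) (nat_lit 4) .nil))) (.g (nat_lit 0) (.e (nat_lit 295545) (nat_lit 0) .nil) .nil))) 
(.lf (nat_lit 550846) (.g (nat_lit 1859) (.e (nat_lit 426100) (nat_lit 1) (.e (nat_lit 164398) (nat_lit 256) (.e (nat_lit 57373) (nat_lit 2) (.e (nat_lit 90170) (nat_lit 13) (.e (nat_lit 172123) (nat_lit 13) .nil))))) (.g (nat_lit 0) (.e (nat_lit 296383) (nat_lit 0) .nil) .nil)))))) (.nd (nat_lit 7) (.nd (nat_lit 8) (.nd (nat_lit 9) 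
(.lf (nat_lit 550014) (.g (nat_lit 3583) (.e (nat_lit 417820) (nat_lit 10) (.e (nat_lit 5626) (nat_lit 312) (.e (nat_lit 2668) (nat_lit 167) (.e (nat_lit 196673) (nat_lit 15) (.e (nat_lit 81956) (nat_lit 23) (.e (nat_lit 98353) (nat_lit 25) .nil)))))) (.g (nat_lit 1) (.e (nat_lit 294885) (nat_lit 0) .nil) .nil))) 
(.lf (nat_lit 550526) (.g (nat_lit 2290) (.e (nat_lit 426098) (nat_lit 1) (.e (nat_lit 164327) (nat_lit 230) (.e (nat_lit 163873) (nat_lit 3) (.e (nat_lit 204813) (nat_lit 9) (.e (nat_lit 426200) (nat_lit 9) (.e (nat_lit 426480) (nat_lit 27) (.e (nat_lit 336385) (nat_lit 27) .nil))))))) (.g (nat_lit 1) (.e (nat_lit 295882) (nat_lit 0) .nil) .nil)))) (.nd (nat_lit 9) 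
(.lf (nat_lit 550270) (.g (nat_lit 4464) (.e (nat_lit 426032) (nat_lit 0) (.e (nat_lit 3262) (nat_lit 198) (.e (nat_lit 540706) (nat_lit 12) (.e (nat_lit 360474) (nat_lit 8) (.e (nat_lit 557094) (nat_lit 12) (.e (nat_lit 164022) (nat_lit 46) (.e (nat_lit 704629) (nat_lit 9) (.e (nat_lit 375) (nat_lit 32) .nil)))))))) (.g (nat_lit 1) (.e (nat_lit 295368) (nat_lit 0) .nil) .nil))) 
(.lf (nat_lit 550782) (.g (nat_lit 656) (.e (nat_lit 426100) (nat_lit 1) (.e (nat_lit 164330) (nat_lit 230) (.e (nat_lit 163857) (nat_lit 0) .nil))) (.g (nat_lit 0) (.e (nat_lit 296229) (nat_lit 0) .nil) .nil))))) (.nd (nat_lit 8) (.nd (nat_lit 9) 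
(.lf (nat_lit 550142) (.g (nat_lit 2664) (.e (nat_lit 426010) (nat_lit 0) (.e (nat_lit 7583) (nat_lit 405) (.e (nat_lit 57464) (nat_lit 23) (.e (nat_lit 516166) (nat_lit 12) (.e (nat_lit 450587) (nat_lit 10) (.e (nat_lit 573457) (nat_lit 9) (.e (nat_lit 430) (nat_lit 32) .nil))))))) (.g (nat_lit 1) (.e (nat_lit 295196) (nat_lit 0) .nil) .nil))) 
(.lf (nat_lit 550654) (.g (nat_lit 1515) (.e (nat_lit 426098) (nat_lit 1) (.e (nat_lit 164403) (nat_lit 256) (.e (nat_lit 57406) (nat_lit 12) (.e (nat_lit 336434) (nat_lit 30) .nil)))) (.g (nat_lit 0) (.e (nat_lit 296071) (nat_lit 0) .nil) .nil)))) (.nd (nat_lit 9) 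
(.lf (nat_lit 550398) (.g (nat_lit 3182) (.e (nat_lit 426098) (nat_lit 1) (.e (nat_lit 164325) (nat_lit 230) (.e (nat_lit 163871) (nat_lit 2) (.e (nat_lit 196654) (nat_lit 11) (.e (nat_lit 16466) (nat_lit 13) (.e (nat_lit 483337) (nat_lit 9) .nil)))))) (.g (nat_lit 1) (.e (nat_lit 295697) (nat_lit 0) .nil) .nil))) 
(.lf (nat_lit 550910) (.g (nat_lit 1267) (.e (nat_lit 426100) (nat_lit 1) (.e (nat_lit 164399) (nat_lit 256) (.e (nat_lit 57407) (nat_lit 12) (.e (nat_lit 336444) (nat_lit 32) .nil)))) (.g (nat_lit 0) (.e (nat_lit 296448) (nat_lit 0) .nil) .nil)))))))))))) 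
(.nd (nat_lit 1) (.nd (nat_lit 2) (.nd (nat_lit 3) (.nd (nat_lit 4) (.nd (nat_lit 5) 
(.nd (nat_lit 6) (.nd (nat_lit 7) (.nd (nat_lit 8) (.nd (nat_lit 9) 
(.lf (nat_lit 549889) (.g (nat_lit 2335) (.e (nat_lit 417536) (nat_lit 18) (.e (nat_lit 303119) (nat_lit 3) (.e (nat_lit 204855) (nat_lit 26) (.e (nat_lit 336178) (nat_lit 10) (.e (nat_lit 344117) (nat_lit 21) .nil))))) (.g (nat_lit 0) (.e (nat_lit 294567) (nat_lit 0) .nil) .nil))) 
(.lf (nat_lit 550401) (.g (nat_lit 2835) (.e (nat_lit 426098) (nat_lit 1) (.e (nat_lit 164325) (nat_lit 230) (.e (nat_lit 163871) (nat_lit 2) (.e (nat_lit 196656) (nat_lit 11) (.e (nat_lit 16463) (nat_lit 13) (.e (nat_lit 483336) (nat_lit 9) .nil)))))) (.g (nat_lit 1) (.e (nat_lit 295701) (nat_lit 0) .nil) .nil)))) (.nd (nat_lit 9) 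
(.lf (nat_lit 550145) (.g (nat_lit 2031) (.e (nat_lit 426010) (nat_lit 0) (.e (nat_lit 7589) (nat_lit 406) (.e (nat_lit 65653) (nat_lit 27) (.e (nat_lit 426344) (nat_lit 14) (.e (nat_lit 491552) (nat_lit 9) (.e (nat_lit 336412) (nat_lit 27) .nil)))))) (.g (nat_lit 1) (.e (nat_lit 295199) (nat_lit 0) .nil) .nil))) 
(.lf (nat_lit 550657) (.g (nat_lit 1525) (.e (nat_lit 426098) (nat_lit 1) (.e (nat_lit 164403) (nat_lit 256) (.e (nat_lit 57409) (nat_lit 12) (.e (nat_lit 336434) (nat_lit 30) (.e (nat_lit 450579) (nat_lit 5) .nil))))) (.g (nat_lit 0) (.e (nat_lit 296074) (nat_lit 0) .nil) .nil))))) (.nd (nat_lit 8) (.nd (nat_lit 9) 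
(.lf (nat_lit 550017) (.g (nat_lit 2157) (.e (nat_lit 417828) (nat_lit 18) (.e (nat_lit 303118) (nat_lit 3) (.e (nat_lit 204855) (nat_lit 26) (.e (nat_lit 336178) (nat_lit 10) (.e (nat_lit 344117) (nat_lit 21) .nil))))) (.g (nat_lit 0) (.e (nat_lit 294922) (nat_lit 0) .nil) .nil))) 
(.lf (nat_lit 550529) (.g (nat_lit 3166) (.e (nat_lit 426098) (nat_lit 1) (.e (nat_lit 164327) (nat_lit 230) (.e (nat_lit 163873) (nat_lit 3) (.e (nat_lit 204813) (nat_lit 9) (.e (nat_lit 426200) (nat_lit 9) (.e (nat_lit 426481) (nat_lit 27) (.e (nat_lit 336388) (nat_lit 27) .nil))))))) (.g (nat_lit 1) (.e (nat_lit 295885) (nat_lit 0) .nil) .nil)))) (.nd (nat_lit 9) 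
(.lf (nat_lit 550273) (.g (nat_lit 2093) (.e (nat_lit 426032) (nat_lit 0) (.e (nat_lit 3262) (nat_lit 198) (.e (nat_lit 540706) (nat_lit 12) (.e (nat_lit 360475) (nat_lit 8) (.e (nat_lit 557090) (nat_lit 12) (.e (nat_lit 164020) (nat_lit 45) (.e (nat_lit 696328) (nat_lit 5) (.e (nat_lit 2874) (nat_lit 184) .nil)))))))) (.g (nat_lit 1) (.e (nat_lit 295371) (nat_lit 0) .nil) .nil))) 
(.lf (nat_lit 550785) (.g (nat_lit 3569) (.e (nat_lit 426100) (nat_lit 1) (.e (nat_lit 164330) (nat_lit 230) (.e (nat_lit 163869) (nat_lit 2) (.e (nat_lit 196656) (nat_lit 11) (.e (nat_lit 16465) (nat_lit 13) (.e (nat_lit 483341) (nat_lit 9) .nil)))))) (.g (nat_lit 1) (.e (nat_lit 296244) (nat_lit 0) .nil) .nil)))))) (.nd (nat_lit 7) (.nd (nat_lit 8) (.nd (nat_lit 9) 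
(.lf (nat_lit 549953) (.g (nat_lit 2608) (.e (nat_lit 417813) (nat_lit 9) (.e (nat_lit 311315) (nat_lit 3) (.e (nat_lit 204846) (nat_lit 24) (.e (nat_lit 319504) (nat_lit 10) (.e (nat_lit 5395) (nat_lit 301) .nil))))) (.g (nat_lit 0) (.e (nat_lit 294794) (nat_lit 0) .nil) .nil))) 
(.lf (nat_lit 550465) (.g (nat_lit 1442) (.e (nat_lit 426098) (nat_lit 1) (.e (nat_lit 164327) (nat_lit 230) (.e (nat_lit 163868) (nat_lit 2) (.e (nat_lit 196656) (nat_lit 11) .nil)))) (.g (nat_lit 0) (.e (nat_lit 295800) (nat_lit 0) .nil) .nil)))) (.nd (nat_lit 9) 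
(.lf (nat_lit 550209) (.g (nat_lit 2306) (.e (nat_lit 426012) (nat_lit 0) (.e (nat_lit 7583) (nat_lit 405) (.e (nat_lit 57476) (nat_lit 28) (.e (nat_lit 557067) (nat_lit 9) (.e (nat_lit 2975) (nat_lit 185) (.e (nat_lit 434276) (nat_lit 39) (.e (nat_lit 663567) (nat_lit 4) (.e (nat_lit 65651) (nat_lit 27) .nil)))))))) (.g (nat_lit 1) (.e (nat_lit 295266) (nat_lit 0) .nil) .nil))) 
(.lf (nat_lit 550721) (.g (nat_lit 519) (.e (nat_lit 426099) (nat_lit 1) (.e (nat_lit 164398) (nat_lit 256) (.e (nat_lit 57408) (nat_lit 12) .nil))) (.g (nat_lit 0) (.e (nat_lit 296159) (nat_lit 0) .nil) .nil))))) (.nd (nat_lit 8) (.nd (nat_lit 9) 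
(.lf (nat_lit 550081) (.g (nat_lit 3128) (.e (nat_lit 425989) (nat_lit 0) (.e (nat_lit 7489) (nat_lit 402) (.e (nat_lit 1239) (nat_lit 91) (.e (nat_lit 90170) (nat_lit 13) (.e (nat_lit 172113) (nat_lit 10) (.e (nat_lit 434248) (nat_lit 28) (.e (nat_lit 573452) (nat_lit 9) (.e (nat_lit 7936) (nat_lit 32) .nil)))))))) (.g (nat_lit 1) (.e (nat_lit 295113) (nat_lit 0) .nil) .nil))) 
(.lf (nat_lit 550593) (.g (nat_lit 1578) (.e (nat_lit 426098) (nat_lit 1) (.e (nat_lit 164398) (nat_lit 256) (.e (nat_lit 57407) (nat_lit 12) (.e (nat_lit 336426) (nat_lit 29) .nil)))) (.g (nat_lit 0) (.e (nat_lit 296010) (nat_lit 0) .nil) .nil)))) (.nd (nat_lit 9) 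
(.lf (nat_lit 550337) (.g (nat_lit 837) (.e (nat_lit 426097) (nat_lit 1) (.e (nat_lit 164327) (nat_lit 230) (.e (nat_lit 163882) (nat_lit 4) .nil))) (.g (nat_lit 0) (.e (nat_lit 295548) (nat_lit 0) .nil) .nil))) 
(.lf (nat_lit 550849) (.g (nat_lit 1453) (.e (nat_lit 426100) (nat_lit 1) (.e (nat_lit 164398) (nat_lit 256) (.e (nat_lit 57377) (nat_lit 3) (.e (nat_lit 98362) (nat_lit 26) .nil)))) (.g (nat_lit 0) (.e (nat_lit 296386) (nat_lit 0) .nil) .nil))))))) (.nd (nat_lit 6) (.nd (nat_lit 7) (.nd (nat_lit 8) (.nd (nat_lit 9) 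
(.lf (nat_lit 549921) (.g (nat_lit 2222) (.e (nat_lit 417536) (nat_lit 16) (.e (nat_lit 286735) (nat_lit 3) (.e (nat_lit 98325) (nat_lit 17) (.e (nat_lit 6986) (nat_lit 377) (.e (nat_lit 2777) (nat_lit 178) .nil))))) (.g (nat_lit 0) (.e (nat_lit 294724) (nat_lit 0) .nil) .nil))) 
(.lf (nat_lit 550433) (.g (nat_lit 4249) (.e (nat_lit 426098) (nat_lit 1) (.e (nat_lit 164325) (nat_lit 230) (.e (nat_lit 163873) (nat_lit 3) (.e (nat_lit 204813) (nat_lit 9) (.e (nat_lit 426199) (nat_lit 9) (.e (nat_lit 426530) (nat_lit 27) (.e (nat_lit 336390) (nat_lit 27) .nil))))))) (.g (nat_lit 1) (.e (nat_lit 295739) (nat_lit 0) .nil) .nil)))) (.nd (nat_lit 9) 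
(.lf (nat_lit 550177) (.g (nat_lit 5027) (.e (nat_lit 426011) (nat_lit 0) (.e (nat_lit 7581) (nat_lit 405) (.e (nat_lit 57464) (nat_lit 23) (.e (nat_lit 516151) (nat_lit 9) (.e (nat_lit 426286) (nat_lit 10) (.e (nat_lit 434248) (nat_lit 28) (.e (nat_lit 573452) (nat_lit 9) (.e (nat_lit 430) (nat_lit 32) .nil)))))))) (.g (nat_lit 1) (.e (nat_lit 295231) (nat_lit 0) .nil) .nil))) 
(.lf (nat_lit 550689) (.g (nat_lit 2339) (.e (nat_lit 426099) (nat_lit 1) (.e (nat_lit 164332) (nat_lit 230) (.e (nat_lit 163878) (nat_lit 4) (.e (nat_lit 213030) (nat_lit 11) (.e (nat_lit 24657) (nat_lit 13) (.e (nat_lit 393281) (nat_lit 23) .nil)))))) (.g (nat_lit 1) (.e (nat_lit 296127) (nat_lit 0) .nil) .nil))))) (.nd (nat_lit 8) (.nd (nat_lit 9) 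
(.lf (nat_lit 550049) (.g (nat_lit 1831) (.e (nat_lit 417829) (nat_lit 18) (.e (nat_lit 303119) (nat_lit 3) (.e (nat_lit 204866) (nat_lit 28) (.e (nat_lit 352315) (nat_lit 23) .nil)))) (.g (nat_lit 0) (.e (nat_lit 294997) (nat_lit 0) .nil) .nil))) 
(.lf (nat_lit 550561) (.g (nat_lit 2129) (.e (nat_lit 426098) (nat_lit 1) (.e (nat_lit 164327) (nat_lit 230) (.e (nat_lit 163879) (nat_lit 4) (.e (nat_lit 213032) (nat_lit 11) (.e (nat_lit 24659) (nat_lit 13) (.e (nat_lit 393281) (nat_lit 23) .nil)))))) (.g (nat_lit 1) (.e (nat_lit 295947) (nat_lit 0) .nil) .nil)))) (.nd (nat_lit 9) 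
(.lf (nat_lit 550305) (.g (nat_lit 2521) (.e (nat_lit 426048) (nat_lit 0) (.e (nat_lit 3297) (nat_lit 202) (.e (nat_lit 573450) (nat_lit 9) (.e (nat_lit 375) (nat_lit 32) (.e (nat_lit 426173) (nat_lit 7) (.e (nat_lit 409616) (nat_lit 10) (.e (nat_lit 7936) (nat_lit 43) (.e (nat_lit 516151) (nat_lit 9) (.e (nat_lit 426211) (nat_lit 9) .nil))))))))) (.g (nat_lit 1) (.e (nat_lit 295451) (nat_lit 0) .nil) .nil))) 
(.lf (nat_lit 550817) (.g (nat_lit 2917) (.e (nat_lit 426100) (nat_lit 1) (.e (nat_lit 164332) (nat_lit 230) (.e (nat_lit 163869) (nat_lit 2) (.e (nat_lit 196656) (nat_lit 11) (.e (nat_lit 16466) (nat_lit 13) (.e (nat_lit 491264) (nat_lit 9) .nil)))))) (.g (nat_lit 1) (.e (nat_lit 296333) (nat_lit 0) .nil) .nil)))))) (.nd (nat_lit 7) (.nd (nat_lit 8) (.nd (nat_lit 9) 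
(.lf (nat_lit 549985) (.g (nat_lit 608) (.e (nat_lit 417810) (nat_lit 6) (.e (nat_lit 286761) (nat_lit 13) (.e (nat_lit 393260) (nat_lit 21) .nil))) (.g (nat_lit 0) (.e (nat_lit 294835) (nat_lit 0) .nil) .nil))) 
(.lf (nat_lit 550497) (.g (nat_lit 3126) (.e (nat_lit 426098) (nat_lit 1) (.e (nat_lit 164327) (nat_lit 230) (.e (nat_lit 163871) (nat_lit 2) (.e (nat_lit 196656) (nat_lit 11) (.e (nat_lit 16436) (nat_lit 9) (.e (nat_lit 426480) (nat_lit 27) (.e (nat_lit 336389) (nat_lit 27) .nil))))))) (.g (nat_lit 1) (.e (nat_lit 295846) (nat_lit 0) .nil) .nil)))) (.nd (nat_lit 9) 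
(.lf (nat_lit 550241) (.g (nat_lit 3981) (.e (nat_lit 426025) (nat_lit 0) (.e (nat_lit 3397) (nat_lit 211) (.e (nat_lit 647183) (nat_lit 4) (.e (nat_lit 172126) (nat_lit 14) (.e (nat_lit 491571) (nat_lit 13) (.e (nat_lit 393276) (nat_lit 23) .nil)))))) (.g (nat_lit 1) (.e (nat_lit 295320) (nat_lit 0) .nil) .nil))) 
(.lf (nat_lit 550753) (.g (nat_lit 1176) (.e (nat_lit 426099) (nat_lit 1) (.e (nat_lit 164399) (nat_lit 256) (.e (nat_lit 57378) (nat_lit 3) (.e (nat_lit 98363) (nat_lit 26) .nil)))) (.g (nat_lit 0) (.e (nat_lit 296191) (nat_lit 0) .nil) .nil))))) (.nd (nat_lit 8) (.nd (nat_lit 9) 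
(.lf (nat_lit 550113) (.g (nat_lit 1163) (.e (nat_lit 426009) (nat_lit 0) (.e (nat_lit 7593) (nat_lit 407) (.e (nat_lit 73775) (nat_lit 26) (.e (nat_lit 778466) (nat_lit 11) (.e (nat_lit 24636) (nat_lit 9) .nil))))) (.g (nat_lit 0) (.e (nat_lit 295167) (nat_lit 0) .nil) .nil))) 
(.lf (nat_lit 550625) (.g (nat_lit 344) (.e (nat_lit 426098) (nat_lit 1) (.e (nat_lit 164399) (nat_lit 256) (.e (nat_lit 57379) (nat_lit 3) .nil))) (.g (nat_lit 0) (.e (nat_lit 296042) (nat_lit 0) .nil) .nil)))) (.nd (nat_lit 9) 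
(.lf (nat_lit 550369) (.g (nat_lit 1703) (.e (nat_lit 426098) (nat_lit 1) (.e (nat_lit 164182) (nat_lit 154) (.e (nat_lit 57411) (nat_lit 12) (.e (nat_lit 336322) (nat_lit 18) (.e (nat_lit 204876) (nat_lit 31) .nil))))) (.g (nat_lit 0) (.e (nat_lit 295606) (nat_lit 0) .nil) .nil))) 
(.lf (nat_lit 550881) (.g (nat_lit 1658) (.e (nat_lit 426100) (nat_lit 1) (.e (nat_lit 164399) (nat_lit 256) (.e (nat_lit 57373) (nat_lit 2) (.e (nat_lit 90169) (nat_lit 13) (.e (nat_lit 172121) (nat_lit 13) .nil))))) (.g (nat_lit 0) (.e (nat_lit 296419) (nat_lit 0) .nil) .nil)))))))) (.nd (nat_lit 5) (.nd (nat_lit 6) (.nd (nat_lit 7) (.nd (nat_lit 8) (.nd (nat_lit 9) 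
(.lf (nat_lit 549905) (.g (nat_lit 520) (.e (nat_lit 417536) (nat_lit 18) (.e (nat_lit 303119) (nat_lit 3) (.e (nat_lit 204877) (nat_lit 31) .nil))) (.g (nat_lit 0) (.e (nat_lit 294598) (nat_lit 0) .nil) .nil))) 
(.lf (nat_lit 550417) (.g (nat_lit 3502) (.e (nat_lit 426098) (nat_lit 1) (.e (nat_lit 164325) (nat_lit 230) (.e (nat_lit 163873) (nat_lit 3) (.e (nat_lit 204813) (nat_lit 9) (.e (nat_lit 426197) (nat_lit 9) (.e (nat_lit 426509) (nat_lit 27) (.e (nat_lit 336412) (nat_lit 27) .nil))))))) (.g (nat_lit 1) (.e (nat_lit 295722) (nat_lit 0) .nil) .nil)))) (.nd (nat_lit 9) 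
(.lf (nat_lit 550161) (.g (nat_lit 3995) (.e (nat_lit 426011) (nat_lit 0) (.e (nat_lit 7490) (nat_lit 402) (.e (nat_lit 1239) (nat_lit 91) (.e (nat_lit 90170) (nat_lit 13) (.e (nat_lit 172113) (nat_lit 10) (.e (nat_lit 434245) (nat_lit 28) (.e (nat_lit 573458) (nat_lit 9) (.e (nat_lit 426) (nat_lit 32) .nil)))))))) (.g (nat_lit 1) (.e (nat_lit 295215) (nat_lit 0) .nil) .nil))) 
(.lf (nat_lit 550673) (.g (nat_lit 1451) (.e (nat_lit 426099) (nat_lit 1) (.e (nat_lit 164332) (nat_lit 230) (.e (nat_lit 163843) (nat_lit 0) (.e (nat_lit 3659) (nat_lit 227) (.e (nat_lit 778462) (nat_lit 11) .nil))))) (.g (nat_lit 0) (.e (nat_lit 296102) (nat_lit 0) .nil) .nil))))) (.nd (nat_lit 8) (.nd (nat_lit 9) 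
(.lf (nat_lit 550033) (.g (nat_lit 2990) (.e (nat_lit 417828) (nat_lit 18) (.e (nat_lit 303145) (nat_lit 13) (.e (nat_lit 483346) (nat_lit 17) (.e (nat_lit 976) (nat_lit 81) .nil)))) (.g (nat_lit 0) (.e (nat_lit 294947) (nat_lit 0) .nil) .nil))) 
(.lf (nat_lit 550545) (.g (nat_lit 1574) (.e (nat_lit 426098) (nat_lit 1) (.e (nat_lit 164327) (nat_lit 230) (.e (nat_lit 163875) (nat_lit 3) (.e (nat_lit 204813) (nat_lit 9) (.e (nat_lit 426199) (nat_lit 9) .nil))))) (.g (nat_lit 0) (.e (nat_lit 295918) (nat_lit 0) .nil) .nil)))) (.nd (nat_lit 9) 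
(.lf (nat_lit 550289) (.g (nat_lit 1910) (.e (nat_lit 426042) (nat_lit 0) (.e (nat_lit 3403) (nat_lit 212) (.e (nat_lit 655375) (nat_lit 3) (.e (nat_lit 163978) (nat_lit 30) (.e (nat_lit 573484) (nat_lit 13) .nil))))) (.g (nat_lit 0) (.e (nat_lit 295403) (nat_lit 0) .nil) .nil))) 
(.lf (nat_lit 550801) (.g (nat_lit 394) (.e (nat_lit 426100) (nat_lit 1) (.e (nat_lit 164332) (nat_lit 230) (.e (nat_lit 163869) (nat_lit 2) .nil))) (.g (nat_lit 0) (.e (nat_lit 296286) (nat_lit 0) .nil) .nil)))))) (.nd (nat_lit 7) (.nd (nat_lit 8) (.nd (nat_lit 9) 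
(.lf (nat_lit 549969) (.g (nat_lit 1749) (.e (nat_lit 417810) (nat_lit 6) (.e (nat_lit 286732) (nat_lit 2) (.e (nat_lit 90172) (nat_lit 14) (.e (nat_lit 180278) (nat_lit 32) .nil)))) (.g (nat_lit 0) (.e (nat_lit 294819) (nat_lit 0) .nil) .nil))) 
(.lf (nat_lit 550481) (.g (nat_lit 1405) (.e (nat_lit 426098) (nat_lit 1) (.e (nat_lit 164327) (nat_lit 230) (.e (nat_lit 163871) (nat_lit 2) (.e (nat_lit 196654) (nat_lit 11) (.e (nat_lit 16436) (nat_lit 9) .nil))))) (.g (nat_lit 0) (.e (nat_lit 295827) (nat_lit 0) .nil) .nil)))) (.nd (nat_lit 9) 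
(.lf (nat_lit 550225) (.g (nat_lit 4119) (.e (nat_lit 426025) (nat_lit 0) (.e (nat_lit 3397) (nat_lit 211) (.e (nat_lit 647181) (nat_lit 3) (.e (nat_lit 163977) (nat_lit 30) (.e (nat_lit 573492) (nat_lit 15) (.e (nat_lit 81956) (nat_lit 23) (.e (nat_lit 106240) (nat_lit 26) .nil))))))) (.g (nat_lit 1) (.e (nat_lit 295300) (nat_lit 0) .nil) .nil))) 
(.lf (nat_lit 550737) (.g (nat_lit 1446) (.e (nat_lit 426099) (nat_lit 1) (.e (nat_lit 164399) (nat_lit 256) (.e (nat_lit 57373) (nat_lit 2) (.e (nat_lit 90178) (nat_lit 15) .nil)))) (.g (nat_lit 0) (.e (nat_lit 296175) (nat_lit 0) .nil) .nil))))) (.nd (nat_lit 8) (.nd (nat_lit 9) 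
(.lf (nat_lit 550097) (.g (nat_lit 1398) (.e (nat_lit 426003) (nat_lit 0) (.e (nat_lit 7107) (nat_lit 380) (.e (nat_lit 164281) (nat_lit 222) (.e (nat_lit 57884) (nat_lit 270) (.e (nat_lit 1413) (nat_lit 108) .nil))))) (.g (nat_lit 0) (.e (nat_lit 295145) (nat_lit 0) .nil) .nil))) 
(.lf (nat_lit 550609) (.g (nat_lit 1576) (.e (nat_lit 426098) (nat_lit 1) (.e (nat_lit 164399) (nat_lit 256) (.e (nat_lit 57375) (nat_lit 2) (.e (nat_lit 90178) (nat_lit 15) (.e (nat_lit 196352) (nat_lit 11) .nil))))) (.g (nat_lit 0) (.e (nat_lit 296026) (nat_lit 0) .nil) .nil)))) (.nd (nat_lit 9) 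
(.lf (nat_lit 550353) (.g (nat_lit 2552) (.e (nat_lit 426098) (nat_lit 1) (.e (nat_lit 164179) (nat_lit 154) (.e (nat_lit 57409) (nat_lit 12) (.e (nat_lit 336324) (nat_lit 18) (.e (nat_lit 204866) (nat_lit 28) .nil))))) (.g (nat_lit 0) (.e (nat_lit 295586) (nat_lit 0) .nil) .nil))) 
(.lf (nat_lit 550865) (.g (nat_lit 1760) (.e (nat_lit 426100) (nat_lit 1) (.e (nat_lit 164398) (nat_lit 256) (.e (nat_lit 57406) (nat_lit 12) (.e (nat_lit 336443) (nat_lit 32) (.e (nat_lit 466979) (nat_lit 23) .nil))))) (.g (nat_lit 0) (.e (nat_lit 296402) (nat_lit 0) .nil) .nil))))))) (.nd (nat_lit 6) (.nd (nat_lit 7) (.nd (nat_lit 8) (.nd (nat_lit 9) 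
(.lf (nat_lit 549937) (.g (nat_lit 3979) (.e (nat_lit 417794) (nat_lit 0) (.e (nat_lit 5271) (nat_lit 298) (.e (nat_lit 1239) (nat_lit 91) (.e (nat_lit 90170) (nat_lit 13) (.e (nat_lit 172113) (nat_lit 10) (.e (nat_lit 434245) (nat_lit 28) (.e (nat_lit 573451) (nat_lit 9) (.e (nat_lit 365) (nat_lit 31) .nil)))))))) (.g (nat_lit 1) (.e (nat_lit 294768) (nat_lit 0) .nil) .nil))) 
(.lf (nat_lit 550449) (.g (nat_lit 1671) (.e (nat_lit 426098) (nat_lit 1) (.e (nat_lit 164325) (nat_lit 230) (.e (nat_lit 163875) (nat_lit 3) (.e (nat_lit 204813) (nat_lit 9) (.e (nat_lit 426198) (nat_lit 9) .nil))))) (.g (nat_lit 0) (.e (nat_lit 295773) (nat_lit 0) .nil) .nil)))) (.nd (nat_lit 9) 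
(.lf (nat_lit 550193) (.g (nat_lit 1986) (.e (nat_lit 426011) (nat_lit 0) (.e (nat_lit 7593) (nat_lit 407) (.e (nat_lit 73731) (nat_lit 0) (.e (nat_lit 7265) (nat_lit 384) (.e (nat_lit 57354) (nat_lit 0) (.e (nat_lit 7936) (nat_lit 347) (.e (nat_lit 65653) (nat_lit 27) .nil))))))) (.g (nat_lit 1) (.e (nat_lit 295249) (nat_lit 0) .nil) .nil))) 
(.lf (nat_lit 550705) (.g (nat_lit 1424) (.e (nat_lit 426099) (nat_lit 1) (.e (nat_lit 164398) (nat_lit 256) (.e (nat_lit 57372) (nat_lit 2) (.e (nat_lit 90185) (nat_lit 17) .nil)))) (.g (nat_lit 0) (.e (nat_lit 296143) (nat_lit 0) .nil) .nil))))) (.nd (nat_lit 8) (.nd (nat_lit 9) 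
(.lf (nat_lit 550065) (.g (nat_lit 1753) (.e (nat_lit 425728) (nat_lit 18) (.e (nat_lit 303117) (nat_lit 2) (.e (nat_lit 196674) (nat_lit 15) (.e (nat_lit 81956) (nat_lit 23) .nil)))) (.g (nat_lit 0) (.e (nat_lit 295037) (nat_lit 0) .nil) .nil))) 
(.lf (nat_lit 550577) (.g (nat_lit 1487) (.e (nat_lit 426098) (nat_lit 1) (.e (nat_lit 164346) (nat_lit 240) (.e (nat_lit 2638) (nat_lit 165) (.e (nat_lit 180277) (nat_lit 32) (.e (nat_lit 1658) (nat_lit 115) .nil))))) (.g (nat_lit 0) (.e (nat_lit 295975) (nat_lit 0) .nil) .nil)))) (.nd (nat_lit 9) 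
(.lf (nat_lit 550321) (.g (nat_lit 2528) (.e (nat_lit 426093) (nat_lit 0) (.e (nat_lit 3238) (nat_lit 197) (.e (nat_lit 532550) (nat_lit 12) (.e (nat_lit 360474) (nat_lit 8) (.e (nat_lit 557093) (nat_lit 12) .nil))))) (.g (nat_lit 0) (.e (nat_lit 295484) (nat_lit 0) .nil) .nil))) 
(.lf (nat_lit 550833) (.g (nat_lit 1631) (.e (nat_lit 426100) (nat_lit 1) (.e (nat_lit 164397) (nat_lit 256) (.e (nat_lit 57371) (nat_lit 2) (.e (nat_lit 90176) (nat_lit 15) (.e (nat_lit 188421) (nat_lit 11) .nil))))) (.g (nat_lit 0) (.e (nat_lit 296370) (nat_lit 0) .nil) .nil)))))) (.nd (nat_lit 7) (.nd (nat_lit 8) (.nd (nat_lit 9) 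
(.lf (nat_lit 550001) (.g (nat_lit 2198) (.e (nat_lit 417811) (nat_lit 6) (.e (nat_lit 286740) (nat_lit 7) (.e (nat_lit 319531) (nat_lit 16) (.e (nat_lit 286756) (nat_lit 10) (.e (nat_lit 344160) (nat_lit 37) (.e (nat_lit 647195) (nat_lit 9) (.e (nat_lit 7936) (nat_lit 31) .nil))))))) (.g (nat_lit 1) (.e (nat_lit 294855) (nat_lit 0) .nil) .nil))) 
(.lf (nat_lit 550513) (.g (nat_lit 2406) (.e (nat_lit 426098) (nat_lit 1) (.e (nat_lit 164327) (nat_lit 230) (.e (nat_lit 163873) (nat_lit 3) (.e (nat_lit 204813) (nat_lit 9) (.e (nat_lit 426198) (nat_lit 9) (.e (nat_lit 426489) (nat_lit 27) (.e (nat_lit 336409) (nat_lit 27) .nil))))))) (.g (nat_lit 1) (.e (nat_lit 295868) (nat_lit 0) .nil) .nil)))) (.nd (nat_lit 9) 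
(.lf (nat_lit 550257) (.g (nat_lit 4578) (.e (nat_lit 426023) (nat_lit 0) (.e (nat_lit 3397) (nat_lit 211) (.e (nat_lit 647181) (nat_lit 3) (.e (nat_lit 163977) (nat_lit 30) (.e (nat_lit 573482) (nat_lit 13) (.e (nat_lit 65619) (nat_lit 10) (.e (nat_lit 344117) (nat_lit 21) (.e (nat_lit 516151) (nat_lit 9) .nil)))))))) (.g (nat_lit 1) (.e (nat_lit 295354) (nat_lit 0) .nil) .nil))) 
(.lf (nat_lit 550769) (.g (nat_lit 1594) (.e (nat_lit 426099) (nat_lit 1) (.e (nat_lit 164399) (nat_lit 256) (.e (nat_lit 57407) (nat_lit 12) (.e (nat_lit 336443) (nat_lit 32) (.e (nat_lit 466981) (nat_lit 23) .nil))))) (.g (nat_lit 0) (.e (nat_lit 296207) (nat_lit 0) .nil) .nil))))) (.nd (nat_lit 8) (.nd (nat_lit 9) 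
(.lf (nat_lit 550129) (.g (nat_lit 2842) (.e (nat_lit 426010) (nat_lit 0) (.e (nat_lit 7581) (nat_lit 405) (.e (nat_lit 57464) (nat_lit 23) (.e (nat_lit 516165) (nat_lit 12) (.e (nat_lit 450586) (nat_lit 10) (.e (nat_lit 573456) (nat_lit 9) (.e (nat_lit 430) (nat_lit 32) .nil))))))) (.g (nat_lit 1) (.e (nat_lit 295183) (nat_lit 0) .nil) .nil))) 
(.lf (nat_lit 550641) (.g (nat_lit 1564) (.e (nat_lit 426098) (nat_lit 1) (.e (nat_lit 164403) (nat_lit 256) (.e (nat_lit 57371) (nat_lit 2) (.e (nat_lit 90175) (nat_lit 15) .nil)))) (.g (nat_lit 0) (.e (nat_lit 296058) (nat_lit 0) .nil) .nil)))) (.nd (nat_lit 9) 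
(.lf (nat_lit 550385) (.g (nat_lit 883) (.e (nat_lit 426098) (nat_lit 1) (.e (nat_lit 164325) (nat_lit 230) (.e (nat_lit 163868) (nat_lit 2) (.e (nat_lit 196656) (nat_lit 11) .nil)))) (.g (nat_lit 0) (.e (nat_lit 295673) (nat_lit 0) .nil) .nil))) 
(.lf (nat_lit 550897) (.g (nat_lit 3440) (.e (nat_lit 426100) (nat_lit 1) (.e (nat_lit 164399) (nat_lit 256) (.e (nat_lit 57378) (nat_lit 3) (.e (nat_lit 98365) (nat_lit 26) (.e (nat_lit 426327) (nat_lit 13) (.e (nat_lit 483341) (nat_lit 9) .nil)))))) (.g (nat_lit 1) (.e (nat_lit 296435) (nat_lit 0) .nil) .nil))))))))) 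
(.nd (nat_lit 4) (.nd (nat_lit 5) (.nd (nat_lit 6) (.nd (nat_lit 7) (.nd (nat_lit 8) 
(.nd (nat_lit 9) 
(.lf (nat_lit 549897) (.g (nat_lit 1732) (.e (nat_lit 417536) (nat_lit 18) (.e (nat_lit 303119) (nat_lit 3) (.e (nat_lit 204868) (nat_lit 29) (.e (nat_lit 368384) (nat_lit 3) .nil)))) (.g (nat_lit 0) (.e (nat_lit 294583) (nat_lit 0) .nil) .nil))) 
(.lf (nat_lit 550409) (.g (nat_lit 3559) (.e (nat_lit 426098) (nat_lit 1) (.e (nat_lit 164325) (nat_lit 230) (.e (nat_lit 163873) (nat_lit 3) (.e (nat_lit 204813) (nat_lit 9) (.e (nat_lit 426196) (nat_lit 9) .nil))))) (.g (nat_lit 0) (.e (nat_lit 295714) (nat_lit 0) .nil) .nil)))) (.nd (nat_lit 9) 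
(.lf (nat_lit 550153) (.g (nat_lit 2920) (.e (nat_lit 426011) (nat_lit 0) (.e (nat_lit 3546) (nat_lit 219) (.e (nat_lit 712753) (nat_lit 30) (.e (nat_lit 450586) (nat_lit 10) (.e (nat_lit 573475) (nat_lit 12) (.e (nat_lit 57508) (nat_lit 39) (.e (nat_lit 647195) (nat_lit 9) (.e (nat_lit 426) (nat_lit 32) .nil)))))))) (.g (nat_lit 1) (.e (nat_lit 295207) (nat_lit 0) .nil) .nil))) 
(.lf (nat_lit 550665) (.g (nat_lit 816) (.e (nat_lit 426099) (nat_lit 1) (.e (nat_lit 164330) (nat_lit 230) (.e (nat_lit 163841) (nat_lit 0) .nil))) (.g (nat_lit 0) (.e (nat_lit 296088) (nat_lit 0) .nil) .nil))))) (.nd (nat_lit 8) (.nd (nat_lit 9) 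
(.lf (nat_lit 550025) (.g (nat_lit 5002) (.e (nat_lit 417828) (nat_lit 18) (.e (nat_lit 303119) (nat_lit 3) (.e (nat_lit 204869) (nat_lit 29) (.e (nat_lit 360466) (nat_lit 3) (.e (nat_lit 516141) (nat_lit 8) .nil))))) (.g (nat_lit 1) (.e (nat_lit 294935) (nat_lit 0) .nil) .nil))) 
(.lf (nat_lit 550537) (.g (nat_lit 1394) (.e (nat_lit 426098) (nat_lit 1) (.e (nat_lit 164327) (nat_lit 230) (.e (nat_lit 163875) (nat_lit 3) (.e (nat_lit 204809) (nat_lit 9) .nil)))) (.g (nat_lit 0) (.e (nat_lit 295908) (nat_lit 0) .nil) .nil)))) (.nd (nat_lit 9) 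
(.lf (nat_lit 550281) (.g (nat_lit 1671) (.e (nat_lit 426039) (nat_lit 0) (.e (nat_lit 3238) (nat_lit 197) (.e (nat_lit 532502) (nat_lit 1) (.e (nat_lit 57688) (nat_lit 156) (.e (nat_lit 163902) (nat_lit 12) .nil))))) (.g (nat_lit 0) (.e (nat_lit 295388) (nat_lit 0) .nil) .nil))) 
(.lf (nat_lit 550793) (.g (nat_lit 3238) (.e (nat_lit 426100) (nat_lit 1) (.e (nat_lit 164332) (nat_lit 230) (.e (nat_lit 163867) (nat_lit 2) (.e (nat_lit 196654) (nat_lit 11) (.e (nat_lit 16466) (nat_lit 13) (.e (nat_lit 483337) (nat_lit 9) .nil)))))) (.g (nat_lit 1) (.e (nat_lit 296270) (nat_lit 0) .nil) .nil)))))) (.nd (nat_lit 7) (.nd (nat_lit 8) (.nd (nat_lit 9) 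
(.lf (nat_lit 549961) (.g (nat_lit 578) (.e (nat_lit 417809) (nat_lit 6) (.e (nat_lit 286734) (nat_lit 3) (.e (nat_lit 98359) (nat_lit 26) .nil))) (.g (nat_lit 0) (.e (nat_lit 294803) (nat_lit 0) .nil) .nil))) 
(.lf (nat_lit 550473) (.g (nat_lit 3633) (.e (nat_lit 426098) (nat_lit 1) (.e (nat_lit 164327) (nat_lit 230) (.e (nat_lit 163868) (nat_lit 2) (.e (nat_lit 196656) (nat_lit 11) (.e (nat_lit 16436) (nat_lit 9) (.e (nat_lit 426481) (nat_lit 27) (.e (nat_lit 336389) (nat_lit 27) .nil))))))) (.g (nat_lit 1) (.e (nat_lit 295813) (nat_lit 0) .nil) .nil)))) (.nd (nat_lit 9) 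
(.lf (nat_lit 550217) (.g (nat_lit 1834) (.e (nat_lit 426013) (nat_lit 0) (.e (nat_lit 3248) (nat_lit 197) (.e (nat_lit 532503) (nat_lit 1) (.e (nat_lit 57688) (nat_lit 156) (.e (nat_lit 163902) (nat_lit 12) .nil))))) (.g (nat_lit 0) (.e (nat_lit 295274) (nat_lit 0) .nil) .nil))) 
(.lf (nat_lit 550729) (.g (nat_lit 1086) (.e (nat_lit 426099) (nat_lit 1) (.e (nat_lit 164399) (nat_lit 256) (.e (nat_lit 57371) (nat_lit 2) (.e (nat_lit 90176) (nat_lit 15) .nil)))) (.g (nat_lit 0) (.e (nat_lit 296167) (nat_lit 0) .nil) .nil))))) (.nd (nat_lit 8) (.nd (nat_lit 9) 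
(.lf (nat_lit 550089) (.g (nat_lit 1587) (.e (nat_lit 426003) (nat_lit 0) (.e (nat_lit 3238) (nat_lit 197) (.e (nat_lit 532482) (nat_lit 0) (.e (nat_lit 6722) (nat_lit 362) (.e (nat_lit 180244) (nat_lit 5) .nil))))) (.g (nat_lit 0) (.e (nat_lit 295132) (nat_lit 0) .nil) .nil))) 
(.lf (nat_lit 550601) (.g (nat_lit 1484) (.e (nat_lit 426098) (nat_lit 1) (.e (nat_lit 164399) (nat_lit 256) (.e (nat_lit 57372) (nat_lit 2) (.e (nat_lit 90169) (nat_lit 13) (.e (nat_lit 172122) (nat_lit 13) .nil))))) (.g (nat_lit 0) (.e (nat_lit 296018) (nat_lit 0) .nil) .nil)))) (.nd (nat_lit 9) 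
(.lf (nat_lit 550345) (.g (nat_lit 1304) (.e (nat_lit 426098) (nat_lit 1) (.e (nat_lit 164177) (nat_lit 154) (.e (nat_lit 57407) (nat_lit 12) (.e (nat_lit 336325) (nat_lit 18) .nil)))) (.g (nat_lit 0) (.e (nat_lit 295576) (nat_lit 0) .nil) .nil))) 
(.lf (nat_lit 550857) (.g (nat_lit 1655) (.e (nat_lit 426100) (nat_lit 1) (.e (nat_lit 164398) (nat_lit 256) (.e (nat_lit 57378) (nat_lit 3) (.e (nat_lit 98370) (nat_lit 28) (.e (nat_lit 442389) (nat_lit 11) .nil))))) (.g (nat_lit 0) (.e (nat_lit 296394) (nat_lit 0) .nil) .nil))))))) (.nd (nat_lit 6) (.nd (nat_lit 7) (.nd (nat_lit 8) (.nd (nat_lit 9) 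
(.lf (nat_lit 549929) (.g (nat_lit 972) (.e (nat_lit 409642) (nat_lit 17) (.e (nat_lit 294974) (nat_lit 29) (.e (nat_lit 442392) (nat_lit 20) (.e (nat_lit 3409) (nat_lit 212) (.e (nat_lit 655378) (nat_lit 4) .nil))))) (.g (nat_lit 0) (.e (nat_lit 294747) (nat_lit 0) .nil) .nil))) 
(.lf (nat_lit 550441) (.g (nat_lit 2851) (.e (nat_lit 426098) (nat_lit 1) (.e (nat_lit 164325) (nat_lit 230) (.e (nat_lit 163873) (nat_lit 3) (.e (nat_lit 204813) (nat_lit 9) (.e (nat_lit 426200) (nat_lit 9) (.e (nat_lit 426489) (nat_lit 27) (.e (nat_lit 336406) (nat_lit 27) .nil))))))) (.g (nat_lit 1) (.e (nat_lit 295749) (nat_lit 0) .nil) .nil)))) (.nd (nat_lit 9) 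
(.lf (nat_lit 550185) (.g (nat_lit 3894) (.e (nat_lit 426011) (nat_lit 0) (.e (nat_lit 7581) (nat_lit 405) (.e (nat_lit 57464) (nat_lit 23) (.e (nat_lit 516166) (nat_lit 12) (.e (nat_lit 450587) (nat_lit 10) (.e (nat_lit 573457) (nat_lit 9) (.e (nat_lit 430) (nat_lit 32) .nil))))))) (.g (nat_lit 1) (.e (nat_lit 295239) (nat_lit 0) .nil) .nil))) 
(.lf (nat_lit 550697) (.g (nat_lit 2622) (.e (nat_lit 426099) (nat_lit 1) (.e (nat_lit 164332) (nat_lit 230) (.e (nat_lit 163880) (nat_lit 4) (.e (nat_lit 213032) (nat_lit 11) (.e (nat_lit 24659) (nat_lit 13) (.e (nat_lit 393281) (nat_lit 23) .nil)))))) (.g (nat_lit 1) (.e (nat_lit 296135) (nat_lit 0) .nil) .nil))))) (.nd (nat_lit 8) (.nd (nat_lit 9) 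
(.lf (nat_lit 550057) (.g (nat_lit 1279) (.e (nat_lit 417829) (nat_lit 18) (.e (nat_lit 303126) (nat_lit 9) (.e (nat_lit 426482) (nat_lit 27) (.e (nat_lit 336060) (nat_lit 7) (.e (nat_lit 319534) (nat_lit 16) .nil))))) (.g (nat_lit 0) (.e (nat_lit 295005) (nat_lit 0) .nil) .nil))) 
(.lf (nat_lit 550569) (.g (nat_lit 2284) (.e (nat_lit 426098) (nat_lit 1) (.e (nat_lit 164332) (nat_lit 230) (.e (nat_lit 163869) (nat_lit 2) (.e (nat_lit 196653) (nat_lit 11) (.e (nat_lit 16468) (nat_lit 13) .nil))))) (.g (nat_lit 0) (.e (nat_lit 295961) (nat_lit 0) .nil) .nil)))) (.nd (nat_lit 9) 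
(.lf (nat_lit 550313) (.g (nat_lit 2551) (.e (nat_lit 426073) (nat_lit 0) (.e (nat_lit 3249) (nat_lit 197) (.e (nat_lit 532550) (nat_lit 12) (.e (nat_lit 360474) (nat_lit 8) (.e (nat_lit 557093) (nat_lit 12) .nil))))) (.g (nat_lit 0) (.e (nat_lit 295468) (nat_lit 0) .nil) .nil))) 
(.lf (nat_lit 550825) (.g (nat_lit 1097) (.e (nat_lit 426100) (nat_lit 1) (.e (nat_lit 164332) (nat_lit 230) (.e (nat_lit 163874) (nat_lit 3) (.e (nat_lit 204813) (nat_lit 9) .nil)))) (.g (nat_lit 0) (.e (nat_lit 296356) (nat_lit 0) .nil) .nil)))))) (.nd (nat_lit 7) (.nd (nat_lit 8) (.nd (nat_lit 9) 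
(.lf (nat_lit 549993) (.g (nat_lit 3703) (.e (nat_lit 417811) (nat_lit 6) (.e (nat_lit 286733) (nat_lit 2) (.e (nat_lit 90170) (nat_lit 13) (.e (nat_lit 172113) (nat_lit 10) (.e (nat_lit 434245) (nat_lit 28) (.e (nat_lit 573451) (nat_lit 9) (.e (nat_lit 365) (nat_lit 31) .nil))))))) (.g (nat_lit 1) (.e (nat_lit 294847) (nat_lit 0) .nil) .nil))) 
(.lf (nat_lit 550505) (.g (nat_lit 1181) (.e (nat_lit 426098) (nat_lit 1) (.e (nat_lit 164327) (nat_lit 230) (.e (nat_lit 163873) (nat_lit 3) (.e (nat_lit 204811) (nat_lit 9) .nil)))) (.g (nat_lit 0) (.e (nat_lit 295859) (nat_lit 0) .nil) .nil)))) (.nd (nat_lit 9) 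
(.lf (nat_lit 550249) (.g (nat_lit 2377) (.e (nat_lit 426025) (nat_lit 0) (.e (nat_lit 3399) (nat_lit 211) (.e (nat_lit 647183) (nat_lit 4) (.e (nat_lit 172126) (nat_lit 14) (.e (nat_lit 491549) (nat_lit 9) (.e (nat_lit 336395) (nat_lit 27) (.e (nat_lit 426203) (nat_lit 9) .nil))))))) (.g (nat_lit 1) (.e (nat_lit 295338) (nat_lit 0) .nil) .nil))) 
(.lf (nat_lit 550761) (.g (nat_lit 1034) (.e (nat_lit 426099) (nat_lit 1) (.e (nat_lit 164399) (nat_lit 256) (.e (nat_lit 57379) (nat_lit 3) (.e (nat_lit 98363) (nat_lit 26) .nil)))) (.g (nat_lit 0) (.e (nat_lit 296199) (nat_lit 0) .nil) .nil))))) (.nd (nat_lit 8) (.nd (nat_lit 9) 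
(.lf (nat_lit 550121) (.g (nat_lit 3221) (.e (nat_lit 426010) (nat_lit 0) (.e (nat_lit 7490) (nat_lit 402) (.e (nat_lit 1256) (nat_lit 92) (.e (nat_lit 98373) (nat_lit 29) (.e (nat_lit 450587) (nat_lit 10) (.e (nat_lit 573456) (nat_lit 9) (.e (nat_lit 430) (nat_lit 32) .nil))))))) (.g (nat_lit 1) (.e (nat_lit 295175) (nat_lit 0) .nil) .nil))) 
(.lf (nat_lit 550633) (.g (nat_lit 2248) (.e (nat_lit 426098) (nat_lit 1) (.e (nat_lit 164399) (nat_lit 256) (.e (nat_lit 57407) (nat_lit 12) (.e (nat_lit 336443) (nat_lit 32) (.e (nat_lit 466978) (nat_lit 23) .nil))))) (.g (nat_lit 0) (.e (nat_lit 296050) (nat_lit 0) .nil) .nil)))) (.nd (nat_lit 9) 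
(.lf (nat_lit 550377) (.g (nat_lit 432) (.e (nat_lit 426098) (nat_lit 1) (.e (nat_lit 164325) (nat_lit 230) (.e (nat_lit 163861) (nat_lit 1) .nil))) (.g (nat_lit 0) (.e (nat_lit 295621) (nat_lit 0) .nil) .nil))) 
(.lf (nat_lit 550889) (.g (nat_lit 1306) (.e (nat_lit 426100) (nat_lit 1) (.e (nat_lit 164399) (nat_lit 256) (.e (nat_lit 57377) (nat_lit 3) (.e (nat_lit 98365) (nat_lit 26) (.e (nat_lit 426187) (nat_lit 9) .nil))))) (.g (nat_lit 0) (.e (nat_lit 296427) (nat_lit 0) .nil) .nil)))))))) (.nd (nat_lit 5) (.nd (nat_lit 6) (.nd (nat_lit 7) (.nd (nat_lit 8) (.nd (nat_lit 9) 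
(.lf (nat_lit 549913) (.g (nat_lit 917) (.e (nat_lit 409650) (nat_lit 19) (.e (nat_lit 311315) (nat_lit 3) (.e (nat_lit 204864) (nat_lit 27) (.e (nat_lit 352000) (nat_lit 8) .nil)))) (.g (nat_lit 0) (.e (nat_lit 294635) (nat_lit 0) .nil) .nil))) 
(.lf (nat_lit 550425) (.g (nat_lit 3451) (.e (nat_lit 426098) (nat_lit 1) (.e (nat_lit 164325) (nat_lit 230) (.e (nat_lit 163873) (nat_lit 3) (.e (nat_lit 204813) (nat_lit 9) (.e (nat_lit 426199) (nat_lit 9) (.e (nat_lit 426484) (nat_lit 27) (.e (nat_lit 336407) (nat_lit 27) .nil))))))) (.g (nat_lit 1) (.e (nat_lit 295731) (nat_lit 0) .nil) .nil)))) (.nd (nat_lit 9) 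
(.lf (nat_lit 550169) (.g (nat_lit 2267) (.e (nat_lit 426011) (nat_lit 0) (.e (nat_lit 7500) (nat_lit 402) (.e (nat_lit 1234) (nat_lit 91) (.e (nat_lit 90170) (nat_lit 13) (.e (nat_lit 172113) (nat_lit 10) (.e (nat_lit 434247) (nat_lit 28) (.e (nat_lit 573457) (nat_lit 9) (.e (nat_lit 430) (nat_lit 32) .nil)))))))) (.g (nat_lit 1) (.e (nat_lit 295223) (nat_lit 0) .nil) .nil))) 
(.lf (nat_lit 550681) (.g (nat_lit 1579) (.e (nat_lit 426099) (nat_lit 1) (.e (nat_lit 164332) (nat_lit 230) (.e (nat_lit 163869) (nat_lit 2) (.e (nat_lit 196656) (nat_lit 11) .nil)))) (.g (nat_lit 0) (.e (nat_lit 296113) (nat_lit 0) .nil) .nil))))) (.nd (nat_lit 8) (.nd (nat_lit 9) 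
(.lf (nat_lit 550041) (.g (nat_lit 503) (.e (nat_lit 417829) (nat_lit 18) (.e (nat_lit 303117) (nat_lit 2) (.e (nat_lit 196673) (nat_lit 15) .nil))) (.g (nat_lit 0) (.e (nat_lit 294986) (nat_lit 0) .nil) .nil))) 
(.lf (nat_lit 550553) (.g (nat_lit 2658) (.e (nat_lit 426098) (nat_lit 1) (.e (nat_lit 164327) (nat_lit 230) (.e (nat_lit 163875) (nat_lit 3) (.e (nat_lit 204813) (nat_lit 9) (.e (nat_lit 426200) (nat_lit 9) (.e (nat_lit 426491) (nat_lit 27) (.e (nat_lit 336406) (nat_lit 27) .nil))))))) (.g (nat_lit 1) (.e (nat_lit 295933) (nat_lit 0) .nil) .nil)))) (.nd (nat_lit 9) 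
(.lf (nat_lit 550297) (.g (nat_lit 4298) (.e (nat_lit 426043) (nat_lit 0) (.e (nat_lit 3371) (nat_lit 208) (.e (nat_lit 622626) (nat_lit 13) (.e (nat_lit 2663) (nat_lit 167) (.e (nat_lit 196666) (nat_lit 13) (.e (nat_lit 65610) (nat_lit 10) (.e (nat_lit 344117) (nat_lit 21) (.e (nat_lit 516151) (nat_lit 9) .nil)))))))) (.g (nat_lit 1) (.e (nat_lit 295432) (nat_lit 0) .nil) .nil))) 
(.lf (nat_lit 550809) (.g (nat_lit 2331) (.e (nat_lit 426100) (nat_lit 1) (.e (nat_lit 164332) (nat_lit 230) (.e (nat_lit 163869) (nat_lit 2) (.e (nat_lit 196656) (nat_lit 11) (.e (nat_lit 16432) (nat_lit 9) (.e (nat_lit 426480) (nat_lit 27) (.e (nat_lit 336388) (nat_lit 27) .nil))))))) (.g (nat_lit 1) (.e (nat_lit 296322) (nat_lit 0) .nil) .nil)))))) 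
(.nd (nat_lit 7) (.nd (nat_lit 8) (.nd (nat_lit 9) 
(.lf (nat_lit 549977) (.g (nat_lit 4210) (.e (nat_lit 417810) (nat_lit 6) (.e (nat_lit 286733) (nat_lit 2) (.e (nat_lit 90170) (nat_lit 13) (.e (nat_lit 172113) (nat_lit 10) (.e (nat_lit 434247) (nat_lit 28) (.e (nat_lit 573457) (nat_lit 9) (.e (nat_lit 365) (nat_lit 31) .nil))))))) (.g (nat_lit 1) (.e (nat_lit 294827) (nat_lit 0) .nil) .nil))) 
(.lf (nat_lit 550489) (.g (nat_lit 3010) (.e (nat_lit 426098) (nat_lit 1) (.e (nat_lit 164327) (nat_lit 230) (.e (nat_lit 163871) (nat_lit 2) (.e (nat_lit 196654) (nat_lit 11) (.e (nat_lit 16466) (nat_lit 13) (.e (nat_lit 483336) (nat_lit 9) .nil)))))) (.g (nat_lit 1) (.e (nat_lit 295835) (nat_lit 0) .nil) .nil)))) (.nd (nat_lit 9) 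
(.lf (nat_lit 550233) (.g (nat_lit 1835) (.e (nat_lit 426025) (nat_lit 0) (.e (nat_lit 3397) (nat_lit 211) (.e (nat_lit 647183) (nat_lit 4) (.e (nat_lit 172124) (nat_lit 14) (.e (nat_lit 491548) (nat_lit 9) (.e (nat_lit 336398) (nat_lit 27) (.e (nat_lit 426216) (nat_lit 9) .nil))))))) (.g (nat_lit 1) (.e (nat_lit 295312) (nat_lit 0) .nil) .nil))) 
(.lf (nat_lit 550745) (.g (nat_lit 1770) (.e (nat_lit 426099) (nat_lit 1) (.e (nat_lit 164399) (nat_lit 256) (.e (nat_lit 57377) (nat_lit 3) (.e (nat_lit 98362) (nat_lit 26) .nil)))) (.g (nat_lit 0) (.e (nat_lit 296183) (nat_lit 0) .nil) .nil))))) (.nd (nat_lit 8) (.nd (nat_lit 9) 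
(.lf (nat_lit 550105) (.g (nat_lit 2713) (.e (nat_lit 426009) (nat_lit 0) (.e (nat_lit 7581) (nat_lit 405) (.e (nat_lit 57464) (nat_lit 23) (.e (nat_lit 516166) (nat_lit 12) (.e (nat_lit 450587) (nat_lit 10) (.e (nat_lit 573457) (nat_lit 9) (.e (nat_lit 430) (nat_lit 32) .nil))))))) (.g (nat_lit 1) (.e (nat_lit 295159) (nat_lit 0) .nil) .nil))) 
(.lf (nat_lit 550617) (.g (nat_lit 1565) (.e (nat_lit 426098) (nat_lit 1) (.e (nat_lit 164399) (nat_lit 256) (.e (nat_lit 57377) (nat_lit 3) (.e (nat_lit 98380) (nat_lit 31) .nil)))) (.g (nat_lit 0) (.e (nat_lit 296034) (nat_lit 0) .nil) .nil)))) (.nd (nat_lit 9) 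
(.lf (nat_lit 550361) (.g (nat_lit 2136) (.e (nat_lit 426098) (nat_lit 1) (.e (nat_lit 164179) (nat_lit 154) (.e (nat_lit 57412) (nat_lit 12) (.e (nat_lit 336295) (nat_lit 15) (.e (nat_lit 3234) (nat_lit 197) .nil))))) (.g (nat_lit 0) (.e (nat_lit 295595) (nat_lit 0) .nil) .nil))) 
(.lf (nat_lit 550873) (.g (nat_lit 2100) (.e (nat_lit 426100) (nat_lit 1) (.e (nat_lit 164398) (nat_lit 256) (.e (nat_lit 57447) (nat_lit 19) (.e (nat_lit 393281) (nat_lit 23) (.e (nat_lit 426137) (nat_lit 3) .nil))))) (.g (nat_lit 0) (.e (nat_lit 296410) (nat_lit 0) .nil) .nil))))))) (.nd (nat_lit 6) (.nd (nat_lit 7) (.nd (nat_lit 8) (.nd (nat_lit 9) 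
(.lf (nat_lit 549945) (.g (nat_lit 2928) (.e (nat_lit 417796) (nat_lit 0) (.e (nat_lit 5389) (nat_lit 301) (.e (nat_lit 57464) (nat_lit 23) (.e (nat_lit 516166) (nat_lit 12) (.e (nat_lit 450588) (nat_lit 10) (.e (nat_lit 573452) (nat_lit 9) (.e (nat_lit 365) (nat_lit 31) .nil))))))) (.g (nat_lit 1) (.e (nat_lit 294778) (nat_lit 0) .nil) .nil))) 
(.lf (nat_lit 550457) (.g (nat_lit 1410) (.e (nat_lit 426098) (nat_lit 1) (.e (nat_lit 164327) (nat_lit 230) (.e (nat_lit 163868) (nat_lit 2) (.e (nat_lit 196654) (nat_lit 11) (.e (nat_lit 16436) (nat_lit 9) .nil))))) (.g (nat_lit 0) (.e (nat_lit 295791) (nat_lit 0) .nil) .nil)))) (.nd (nat_lit 9) 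
(.lf (nat_lit 550201) (.g (nat_lit 2084) (.e (nat_lit 426012) (nat_lit 0) (.e (nat_lit 7548) (nat_lit 402) (.e (nat_lit 1234) (nat_lit 91) (.e (nat_lit 90170) (nat_lit 13) (.e (nat_lit 172113) (nat_lit 10) (.e (nat_lit 434245) (nat_lit 28) (.e (nat_lit 573451) (nat_lit 9) (.e (nat_lit 430) (nat_lit 32) .nil)))))))) (.g (nat_lit 1) (.e (nat_lit 295258) (nat_lit 0) .nil) .nil))) 
(.lf (nat_lit 550713) (.g (nat_lit 1713) (.e (nat_lit 426099) (nat_lit 1) (.e (nat_lit 164398) (nat_lit 256) (.e (nat_lit 57375) (nat_lit 2) (.e (nat_lit 90176) (nat_lit 15) (.e (nat_lit 188423) (nat_lit 11) .nil))))) (.g (nat_lit 0) (.e (nat_lit 296151) (nat_lit 0) .nil) .nil))))) (.nd (nat_lit 8) (.nd (nat_lit 9) 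
(.lf (nat_lit 550073) (.g (nat_lit 1208) (.e (nat_lit 425984) (nat_lit 0) (.e (nat_lit 7586) (nat_lit 406) (.e (nat_lit 65653) (nat_lit 27) (.e (nat_lit 426315) (nat_lit 12) (.e (nat_lit 475208) (nat_lit 41) .nil))))) (.g (nat_lit 0) (.e (nat_lit 295098) (nat_lit 0) .nil) .nil))) 
(.lf (nat_lit 550585) (.g (nat_lit 1927) (.e (nat_lit 426098) (nat_lit 1) (.e (nat_lit 164398) (nat_lit 256) (.e (nat_lit 57372) (nat_lit 2) (.e (nat_lit 90176) (nat_lit 15) (.e (nat_lit 196352) (nat_lit 11) .nil))))) (.g (nat_lit 0) (.e (nat_lit 296002) (nat_lit 0) .nil) .nil)))) (.nd (nat_lit 9) 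
(.lf (nat_lit 550329) (.g (nat_lit 2401) (.e (nat_lit 426097) (nat_lit 1) (.e (nat_lit 164327) (nat_lit 230) (.e (nat_lit 163868) (nat_lit 2) (.e (nat_lit 196656) (nat_lit 11) (.e (nat_lit 16463) (nat_lit 13) .nil))))) (.g (nat_lit 0) (.e (nat_lit 295519) (nat_lit 0) .nil) .nil))) 
(.lf (nat_lit 550841) (.g (nat_lit 1843) (.e (nat_lit 426100) (nat_lit 1) (.e (nat_lit 164398) (nat_lit 256) (.e (nat_lit 57372) (nat_lit 2) (.e (nat_lit 90176) (nat_lit 15) (.e (nat_lit 196352) (nat_lit 11) .nil))))) (.g (nat_lit 0) (.e (nat_lit 296378) (nat_lit 0) .nil) .nil)))))) (.nd (nat_lit 7) (.nd (nat_lit 8) (.nd (nat_lit 9) 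
(.lf (nat_lit 550009) (.g (nat_lit 1595) (.e (nat_lit 417817) (nat_lit 10) (.e (nat_lit 5647) (nat_lit 312) (.e (nat_lit 2661) (nat_lit 167) (.e (nat_lit 196666) (nat_lit 13) (.e (nat_lit 65619) (nat_lit 10) .nil))))) (.g (nat_lit 0) (.e (nat_lit 294876) (nat_lit 0) .nil) .nil))) 
(.lf (nat_lit 550521) (.g (nat_lit 3307) (.e (nat_lit 426098) (nat_lit 1) (.e (nat_lit 164327) (nat_lit 230) (.e (nat_lit 163873) (nat_lit 3) (.e (nat_lit 204813) (nat_lit 9) (.e (nat_lit 426199) (nat_lit 9) (.e (nat_lit 426491) (nat_lit 27) (.e (nat_lit 336406) (nat_lit 27) .nil))))))) (.g (nat_lit 1) (.e (nat_lit 295876) (nat_lit 0) .nil) .nil)))) (.nd (nat_lit 9) 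
(.lf (nat_lit 550265) (.g (nat_lit 4311) (.e (nat_lit 426023) (nat_lit 0) (.e (nat_lit 3401) (nat_lit 211) (.e (nat_lit 647181) (nat_lit 3) (.e (nat_lit 163979) (nat_lit 30) (.e (nat_lit 573493) (nat_lit 15) (.e (nat_lit 81956) (nat_lit 23) (.e (nat_lit 98359) (nat_lit 26) .nil))))))) (.g (nat_lit 1) (.e (nat_lit 295362) (nat_lit 0) .nil) .nil))) 
(.lf (nat_lit 550777) (.g (nat_lit 1843) (.e (nat_lit 426100) (nat_lit 1) (.e (nat_lit 164182) (nat_lit 154) (.e (nat_lit 57411) (nat_lit 12) (.e (nat_lit 336325) (nat_lit 18) (.e (nat_lit 204876) (nat_lit 31) .nil))))) (.g (nat_lit 0) (.e (nat_lit 296221) (nat_lit 0) .nil) .nil))))) (.nd (nat_lit 8) (.nd (nat_lit 9) 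
(.lf (nat_lit 550137) (.g (nat_lit 3807) (.e (nat_lit 426010) (nat_lit 0) (.e (nat_lit 7583) (nat_lit 405) (.e (nat_lit 57464) (nat_lit 23) (.e (nat_lit 516151) (nat_lit 9) (.e (nat_lit 426286) (nat_lit 10) (.e (nat_lit 434248) (nat_lit 28) (.e (nat_lit 573452) (nat_lit 9) (.e (nat_lit 430) (nat_lit 32) .nil)))))))) (.g (nat_lit 1) (.e (nat_lit 295191) (nat_lit 0) .nil) .nil))) 
(.lf (nat_lit 550649) (.g (nat_lit 2544) (.e (nat_lit 426098) (nat_lit 1) (.e (nat_lit 164403) (nat_lit 256) (.e (nat_lit 57377) (nat_lit 3) (.e (nat_lit 98370) (nat_lit 28) (.e (nat_lit 442390) (nat_lit 11) .nil))))) (.g (nat_lit 0) (.e (nat_lit 296066) (nat_lit 0) .nil) .nil)))) (.nd (nat_lit 9) 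
(.lf (nat_lit 550393) (.g (nat_lit 3803) (.e (nat_lit 426098) (nat_lit 1) (.e (nat_lit 164325) (nat_lit 230) (.e (nat_lit 163869) (nat_lit 2) (.e (nat_lit 196656) (nat_lit 11) (.e (nat_lit 16438) (nat_lit 9) (.e (nat_lit 426482) (nat_lit 27) (.e (nat_lit 336389) (nat_lit 27) .nil))))))) (.g (nat_lit 1) (.e (nat_lit 295684) (nat_lit 0) .nil) .nil))) 
(.lf (nat_lit 550905) (.g (nat_lit 1817) (.e (nat_lit 426100) (nat_lit 1) (.e (nat_lit 164399) (nat_lit 256) (.e (nat_lit 57407) (nat_lit 12) (.e (nat_lit 336427) (nat_lit 29) .nil)))) (.g (nat_lit 0) (.e (nat_lit 296443) (nat_lit 0) .nil) .nil)))))))))) (.nd (nat_lit 3) (.nd (nat_lit 4) (.nd (nat_lit 5) (.nd (nat_lit 6) (.nd (nat_lit 7) (.nd (nat_lit 8) (.nd (nat_lit 9) 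
(.lf (nat_lit 549893) (.g (nat_lit 1529) (.e (nat_lit 417536) (nat_lit 18) (.e (nat_lit 303119) (nat_lit 3) (.e (nat_lit 204865) (nat_lit 28) (.e (nat_lit 352314) (nat_lit 23) .nil)))) (.g (nat_lit 0) (.e (nat_lit 294572) (nat_lit 0) .nil) .nil))) 
(.lf (nat_lit 550405) (.g (nat_lit 369) (.e (nat_lit 426098) (nat_lit 1) (.e (nat_lit 164325) (nat_lit 230) (.e (nat_lit 163873) (nat_lit 3) .nil))) (.g (nat_lit 0) (.e (nat_lit 295706) (nat_lit 0) .nil) .nil)))) (.nd (nat_lit 9) 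
(.lf (nat_lit 550149) (.g (nat_lit 2943) (.e (nat_lit 426011) (nat_lit 0) (.e (nat_lit 3544) (nat_lit 219) (.e (nat_lit 712753) (nat_lit 30) (.e (nat_lit 450586) (nat_lit 10) (.e (nat_lit 573473) (nat_lit 12) (.e (nat_lit 57507) (nat_lit 39) (.e (nat_lit 647195) (nat_lit 9) (.e (nat_lit 426) (nat_lit 32) .nil)))))))) (.g (nat_lit 1) (.e (nat_lit 295203) (nat_lit 0) .nil) .nil))) 
(.lf (nat_lit 550661) (.g (nat_lit 1592) (.e (nat_lit 426099) (nat_lit 1) (.e (nat_lit 164182) (nat_lit 154) (.e (nat_lit 57411) (nat_lit 12) (.e (nat_lit 336325) (nat_lit 18) .nil)))) (.g (nat_lit 0) (.e (nat_lit 296081) (nat_lit 0) .nil) .nil))))) (.nd (nat_lit 8) (.nd (nat_lit 9) 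
(.lf (nat_lit 550021) (.g (nat_lit 2128) (.e (nat_lit 417828) (nat_lit 18) (.e (nat_lit 303119) (nat_lit 3) (.e (nat_lit 204866) (nat_lit 28) (.e (nat_lit 352313) (nat_lit 23) (.e (nat_lit 98353) (nat_lit 25) .nil))))) (.g (nat_lit 0) (.e (nat_lit 294930) (nat_lit 0) .nil) .nil))) 
(.lf (nat_lit 550533) (.g (nat_lit 2688) (.e (nat_lit 426098) (nat_lit 1) (.e (nat_lit 164327) (nat_lit 230) (.e (nat_lit 163873) (nat_lit 3) (.e (nat_lit 204813) (nat_lit 9) (.e (nat_lit 426200) (nat_lit 9) (.e (nat_lit 426489) (nat_lit 27) (.e (nat_lit 336406) (nat_lit 27) .nil))))))) (.g (nat_lit 1) (.e (nat_lit 295895) (nat_lit 0) .nil) .nil)))) (.nd (nat_lit 9) 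
(.lf (nat_lit 550277) (.g (nat_lit 3296) (.e (nat_lit 426032) (nat_lit 0) (.e (nat_lit 3262) (nat_lit 198) (.e (nat_lit 540706) (nat_lit 12) (.e (nat_lit 360475) (nat_lit 8) (.e (nat_lit 557091) (nat_lit 12) (.e (nat_lit 164016) (nat_lit 44) (.e (nat_lit 688138) (nat_lit 5) (.e (nat_lit 2887) (nat_lit 184) .nil)))))))) (.g (nat_lit 1) (.e (nat_lit 295375) (nat_lit 0) .nil) .nil))) 
(.lf (nat_lit 550789) (.g (nat_lit 3465) (.e (nat_lit 426100) (nat_lit 1) (.e (nat_lit 164332) (nat_lit 230) (.e (nat_lit 163866) (nat_lit 2) (.e (nat_lit 196654) (nat_lit 11) (.e (nat_lit 16463) (nat_lit 13) (.e (nat_lit 483337) (nat_lit 9) .nil)))))) (.g (nat_lit 1) (.e (nat_lit 296260) (nat_lit 0) .nil) .nil)))))) (.nd (nat_lit 7) (.nd (nat_lit 8) (.nd (nat_lit 9) 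
(.lf (nat_lit 549957) (.g (nat_lit 672) (.e (nat_lit 417809) (nat_lit 6) (.e (nat_lit 286732) (nat_lit 2) (.e (nat_lit 90133) (nat_lit 9) .nil))) (.g (nat_lit 0) (.e (nat_lit 294798) (nat_lit 0) .nil) .nil))) 
(.lf (nat_lit 550469) (.g (nat_lit 2959) (.e (nat_lit 426098) (nat_lit 1) (.e (nat_lit 164327) (nat_lit 230) (.e (nat_lit 163868) (nat_lit 2) (.e (nat_lit 196656) (nat_lit 11) (.e (nat_lit 16432) (nat_lit 9) (.e (nat_lit 426491) (nat_lit 27) (.e (nat_lit 336407) (nat_lit 27) .nil))))))) (.g (nat_lit 1) (.e (nat_lit 295809) (nat_lit 0) .nil) .nil)))) (.nd (nat_lit 9) 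
(.lf (nat_lit 550213) (.g (nat_lit 1820) (.e (nat_lit 426012) (nat_lit 0) (.e (nat_lit 7591) (nat_lit 407) (.e (nat_lit 73775) (nat_lit 26) (.e (nat_lit 778466) (nat_lit 11) (.e (nat_lit 24636) (nat_lit 9) (.e (nat_lit 336407) (nat_lit 27) .nil)))))) (.g (nat_lit 1) (.e (nat_lit 295270) (nat_lit 0) .nil) .nil))) 
(.lf (nat_lit 550725) (.g (nat_lit 1295) (.e (nat_lit 426099) (nat_lit 1) (.e (nat_lit 164398) (nat_lit 256) (.e (nat_lit 57409) (nat_lit 12) (.e (nat_lit 336443) (nat_lit 32) .nil)))) (.g (nat_lit 0) (.e (nat_lit 296163) (nat_lit 0) .nil) .nil))))) (.nd (nat_lit 8) (.nd (nat_lit 9) 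
(.lf (nat_lit 550085) (.g (nat_lit 2173) (.e (nat_lit 425986) (nat_lit 0) (.e (nat_lit 3471) (nat_lit 217) (.e (nat_lit 696344) (nat_lit 8) (.e (nat_lit 172113) (nat_lit 10) (.e (nat_lit 434203) (nat_lit 18) (.e (nat_lit 6255) (nat_lit 337) (.e (nat_lit 2725) (nat_lit 172) (.e (nat_lit 237605) (nat_lit 9) .nil)))))))) (.g (nat_lit 1) (.e (nat_lit 295122) (nat_lit 0) .nil) .nil))) 
(.lf (nat_lit 550597) (.g (nat_lit 1483) (.e (nat_lit 426098) (nat_lit 1) (.e (nat_lit 164399) (nat_lit 256) (.e (nat_lit 57370) (nat_lit 2) (.e (nat_lit 90176) (nat_lit 15) (.e (nat_lit 196352) (nat_lit 11) .nil))))) (.g (nat_lit 0) (.e (nat_lit 296014) (nat_lit 0) .nil) .nil)))) (.nd (nat_lit 9) 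
(.lf (nat_lit 550341) (.g (nat_lit 4585) (.e (nat_lit 426097) (nat_lit 1) (.e (nat_lit 164348) (nat_lit 240) (.e (nat_lit 2601) (nat_lit 163) (.e (nat_lit 163977) (nat_lit 30) (.e (nat_lit 573484) (nat_lit 13) (.e (nat_lit 65610) (nat_lit 10) (.e (nat_lit 344117) (nat_lit 21) (.e (nat_lit 516151) (nat_lit 9) .nil)))))))) (.g (nat_lit 1) (.e (nat_lit 295552) (nat_lit 0) .nil) .nil))) 
(.lf (nat_lit 550853) (.g (nat_lit 1604) (.e (nat_lit 426100) (nat_lit 1) (.e (nat_lit 164398) (nat_lit 256) (.e (nat_lit 57378) (nat_lit 3) (.e (nat_lit 98354) (nat_lit 26) .nil)))) (.g (nat_lit 0) (.e (nat_lit 296390) (nat_lit 0) .nil) .nil))))))) (.nd (nat_lit 6) (.nd (nat_lit 7) (.nd (nat_lit 8) (.nd (nat_lit 9) 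
(.lf (nat_lit 549925) (.g (nat_lit 2418) (.e (nat_lit 409641) (nat_lit 17) (.e (nat_lit 294931) (nat_lit 3) (.e (nat_lit 98350) (nat_lit 24) (.e (nat_lit 409648) (nat_lit 18) (.e (nat_lit 303108) (nat_lit 0) .nil))))) (.g (nat_lit 0) (.e (nat_lit 294739) (nat_lit 0) .nil) .nil))) 
(.lf (nat_lit 550437) (.g (nat_lit 3407) (.e (nat_lit 426098) (nat_lit 1) (.e (nat_lit 164325) (nat_lit 230) (.e (nat_lit 163873) (nat_lit 3) (.e (nat_lit 204813) (nat_lit 9) (.e (nat_lit 426200) (nat_lit 9) (.e (nat_lit 426481) (nat_lit 27) (.e (nat_lit 336388) (nat_lit 27) .nil))))))) (.g (nat_lit 1) (.e (nat_lit 295744) (nat_lit 0) .nil) .nil)))) (.nd (nat_lit 9) 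
(.lf (nat_lit 550181) (.g (nat_lit 3722) (.e (nat_lit 426011) (nat_lit 0) (.e (nat_lit 7581) (nat_lit 405) (.e (nat_lit 57464) (nat_lit 23) (.e (nat_lit 516165) (nat_lit 12) (.e (nat_lit 450586) (nat_lit 10) (.e (nat_lit 573457) (nat_lit 9) (.e (nat_lit 430) (nat_lit 32) .nil))))))) (.g (nat_lit 1) (.e (nat_lit 295235) (nat_lit 0) .nil) .nil))) 
(.lf (nat_lit 550693) (.g (nat_lit 2611) (.e (nat_lit 426099) (nat_lit 1) (.e (nat_lit 164332) (nat_lit 230) (.e (nat_lit 163880) (nat_lit 4) (.e (nat_lit 213030) (nat_lit 11) (.e (nat_lit 24659) (nat_lit 13) (.e (nat_lit 393281) (nat_lit 23) .nil)))))) (.g (nat_lit 1) (.e (nat_lit 296131) (nat_lit 0) .nil) .nil))))) (.nd (nat_lit 8) (.nd (nat_lit 9) 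
(.lf (nat_lit 550053) (.g (nat_lit 3308) (.e (nat_lit 417829) (nat_lit 18) (.e (nat_lit 303119) (nat_lit 3) (.e (nat_lit 204869) (nat_lit 29) (.e (nat_lit 360467) (nat_lit 3) .nil)))) (.g (nat_lit 0) (.e (nat_lit 295001) (nat_lit 0) .nil) .nil))) 
(.lf (nat_lit 550565) (.g (nat_lit 2672) (.e (nat_lit 426098) (nat_lit 1) (.e (nat_lit 164330) (nat_lit 230) (.e (nat_lit 163869) (nat_lit 2) (.e (nat_lit 196655) (nat_lit 11) .nil)))) (.g (nat_lit 0) (.e (nat_lit 295951) (nat_lit 0) .nil) .nil)))) (.nd (nat_lit 9) 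
(.lf (nat_lit 550309) (.g (nat_lit 2496) (.e (nat_lit 426072) (nat_lit 0) (.e (nat_lit 3249) (nat_lit 197) (.e (nat_lit 532550) (nat_lit 12) (.e (nat_lit 360474) (nat_lit 8) (.e (nat_lit 557094) (nat_lit 12) .nil))))) (.g (nat_lit 0) (.e (nat_lit 295457) (nat_lit 0) .nil) .nil))) 
(.lf (nat_lit 550821) (.g (nat_lit 1086) (.e (nat_lit 426100) (nat_lit 1) (.e (nat_lit 164332) (nat_lit 230) (.e (nat_lit 163874) (nat_lit 3) (.e (nat_lit 204805) (nat_lit 0) .nil)))) (.g (nat_lit 0) (.e (nat_lit 296349) (nat_lit 0) .nil) .nil)))))) (.nd (nat_lit 7) (.nd (nat_lit 8) (.nd (nat_lit 9) 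
(.lf (nat_lit 549989) (.g (nat_lit 3381) (.e (nat_lit 417811) (nat_lit 6) (.e (nat_lit 286732) (nat_lit 2) (.e (nat_lit 90170) (nat_lit 13) (.e (nat_lit 172113) (nat_lit 10) (.e (nat_lit 434247) (nat_lit 28) (.e (nat_lit 573456) (nat_lit 9) (.e (nat_lit 365) (nat_lit 31) .nil))))))) (.g (nat_lit 1) (.e (nat_lit 294841) (nat_lit 0) .nil) .nil))) 
(.lf (nat_lit 550501) (.g (nat_lit 2529) (.e (nat_lit 426098) (nat_lit 1) (.e (nat_lit 164327) (nat_lit 230) (.e (nat_lit 163871) (nat_lit 2) (.e (nat_lit 196656) (nat_lit 11) (.e (nat_lit 16463) (nat_lit 13) .nil))))) (.g (nat_lit 0) (.e (nat_lit 295850) (nat_lit 0) .nil) .nil)))) (.nd (nat_lit 9) 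
(.lf (nat_lit 550245) (.g (nat_lit 2662) (.e (nat_lit 426025) (nat_lit 0) (.e (nat_lit 3399) (nat_lit 211) (.e (nat_lit 647183) (nat_lit 4) (.e (nat_lit 172106) (nat_lit 10) (.e (nat_lit 434209) (nat_lit 18) (.e (nat_lit 5547) (nat_lit 306) (.e (nat_lit 2619) (nat_lit 164) (.e (nat_lit 172097) (nat_lit 9) .nil)))))))) (.g (nat_lit 1) (.e (nat_lit 295333) (nat_lit 0) .nil) .nil))) 
(.lf (nat_lit 550757) (.g (nat_lit 1289) (.e (nat_lit 426099) (nat_lit 1) (.e (nat_lit 164399) (nat_lit 256) (.e (nat_lit 57378) (nat_lit 3) (.e (nat_lit 98380) (nat_lit 31) .nil)))) (.g (nat_lit 0) (.e (nat_lit 296195) (nat_lit 0) .nil) .nil))))) (.nd (nat_lit 8) (.nd (nat_lit 9) 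
(.lf (nat_lit 550117) (.g (nat_lit 4314) (.e (nat_lit 426010) (nat_lit 0) (.e (nat_lit 7490) (nat_lit 402) (.e (nat_lit 1239) (nat_lit 91) (.e (nat_lit 90170) (nat_lit 13) (.e (nat_lit 172113) (nat_lit 10) (.e (nat_lit 434245) (nat_lit 28) (.e (nat_lit 573451) (nat_lit 9) (.e (nat_lit 430) (nat_lit 32) .nil)))))))) (.g (nat_lit 1) (.e (nat_lit 295171) (nat_lit 0) .nil) .nil))) 
(.lf (nat_lit 550629) (.g (nat_lit 342) (.e (nat_lit 426098) (nat_lit 1) (.e (nat_lit 164399) (nat_lit 256) (.e (nat_lit 57407) (nat_lit 12) .nil))) (.g (nat_lit 0) (.e (nat_lit 296046) (nat_lit 0) .nil) .nil)))) (.nd (nat_lit 9) 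
(.lf (nat_lit 550373) (.g (nat_lit 1387) (.e (nat_lit 426098) (nat_lit 1) (.e (nat_lit 164183) (nat_lit 154) (.e (nat_lit 57417) (nat_lit 12) (.e (nat_lit 336323) (nat_lit 18) .nil)))) (.g (nat_lit 0) (.e (nat_lit 295615) (nat_lit 0) .nil) .nil))) 
(.lf (nat_lit 550885) (.g (nat_lit 1513) (.e (nat_lit 426100) (nat_lit 1) (.e (nat_lit 164399) (nat_lit 256) (.e (nat_lit 57377) (nat_lit 3) (.e (nat_lit 98357) (nat_lit 26) .nil)))) (.g (nat_lit 0) (.e (nat_lit 296423) (nat_lit 0) .nil) .nil)))))))) (.nd (nat_lit 5) (.nd (nat_lit 6) (.nd (nat_lit 7) (.nd (nat_lit 8) (.nd (nat_lit 9) 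
(.lf (nat_lit 549909) (.g (nat_lit 2164) (.e (nat_lit 417536) (nat_lit 18) (.e (nat_lit 303119) (nat_lit 3) (.e (nat_lit 204877) (nat_lit 31) (.e (nat_lit 376865) (nat_lit 22) (.e (nat_lit 90130) (nat_lit 9) .nil))))) (.g (nat_lit 0) (.e (nat_lit 294602) (nat_lit 0) .nil) .nil))) 
(.lf (nat_lit 550421) (.g (nat_lit 3554) (.e (nat_lit 426098) (nat_lit 1) (.e (nat_lit 164325) (nat_lit 230) (.e (nat_lit 163873) (nat_lit 3) (.e (nat_lit 204813) (nat_lit 9) (.e (nat_lit 426199) (nat_lit 9) (.e (nat_lit 426480) (nat_lit 27) (.e (nat_lit 336385) (nat_lit 27) .nil))))))) (.g (nat_lit 1) (.e (nat_lit 295727) (nat_lit 0) .nil) .nil)))) (.nd (nat_lit 9) 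
(.lf (nat_lit 550165) (.g (nat_lit 2756) (.e (nat_lit 426011) (nat_lit 0) (.e (nat_lit 7497) (nat_lit 402) (.e (nat_lit 1239) (nat_lit 91) (.e (nat_lit 90170) (nat_lit 13) (.e (nat_lit 172113) (nat_lit 10) (.e (nat_lit 434247) (nat_lit 28) (.e (nat_lit 573456) (nat_lit 9) (.e (nat_lit 430) (nat_lit 32) .nil)))))))) (.g (nat_lit 1) (.e (nat_lit 295219) (nat_lit 0) .nil) .nil))) 
(.lf (nat_lit 550677) (.g (nat_lit 4359) (.e (nat_lit 426099) (nat_lit 1) (.e (nat_lit 164332) (nat_lit 230) (.e (nat_lit 163869) (nat_lit 2) (.e (nat_lit 196654) (nat_lit 11) (.e (nat_lit 16463) (nat_lit 13) (.e (nat_lit 483341) (nat_lit 9) .nil)))))) (.g (nat_lit 1) (.e (nat_lit 296109) (nat_lit 0) .nil) .nil))))) (.nd (nat_lit 8) (.nd (nat_lit 9) 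
(.lf (nat_lit 550037) (.g (nat_lit 2944) (.e (nat_lit 417828) (nat_lit 18) (.e (nat_lit 303145) (nat_lit 13) (.e (nat_lit 483346) (nat_lit 17) (.e (nat_lit 1050) (nat_lit 81) .nil)))) (.g (nat_lit 0) (.e (nat_lit 294951) (nat_lit 0) .nil) .nil))) 
(.lf (nat_lit 550549) (.g (nat_lit 2287) (.e (nat_lit 426098) (nat_lit 1) (.e (nat_lit 164327) (nat_lit 230) (.e (nat_lit 163875) (nat_lit 3) (.e (nat_lit 204813) (nat_lit 9) (.e (nat_lit 426200) (nat_lit 9) (.e (nat_lit 426481) (nat_lit 27) (.e (nat_lit 336386) (nat_lit 27) .nil))))))) (.g (nat_lit 1) (.e (nat_lit 295922) (nat_lit 0) .nil) .nil)))) (.nd (nat_lit 9) 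
(.lf (nat_lit 550293) (.g (nat_lit 2446) (.e (nat_lit 426043) (nat_lit 0) (.e (nat_lit 3238) (nat_lit 197) (.e (nat_lit 532550) (nat_lit 12) (.e (nat_lit 360474) (nat_lit 8) (.e (nat_lit 557094) (nat_lit 12) .nil))))) (.g (nat_lit 0) (.e (nat_lit 295423) (nat_lit 0) .nil) .nil))) 
(.lf (nat_lit 550805) (.g (nat_lit 3711) (.e (nat_lit 426100) (nat_lit 1) (.e (nat_lit 164332) (nat_lit 230) (.e (nat_lit 163869) (nat_lit 2) (.e (nat_lit 196654) (nat_lit 11) (.e (nat_lit 16466) (nat_lit 13) (.e (nat_lit 483337) (nat_lit 9) .nil)))))) (.g (nat_lit 1) (.e (nat_lit 296315) (nat_lit 0) .nil) .nil)))))) (.nd (nat_lit 7) (.nd (nat_lit 8) (.nd (nat_lit 9) 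
(.lf (nat_lit 549973) (.g (nat_lit 2899) (.e (nat_lit 417810) (nat_lit 6) (.e (nat_lit 286733) (nat_lit 2) (.e (nat_lit 90170) (nat_lit 13) (.e (nat_lit 172079) (nat_lit 7) (.e (nat_lit 409631) (nat_lit 12) .nil))))) (.g (nat_lit 0) (.e (nat_lit 294823) (nat_lit 0) .nil) .nil))) 
(.lf (nat_lit 550485) (.g (nat_lit 1517) (.e (nat_lit 426098) (nat_lit 1) (.e (nat_lit 164327) (nat_lit 230) (.e (nat_lit 163871) (nat_lit 2) (.e (nat_lit 196654) (nat_lit 11) (.e (nat_lit 16437) (nat_lit 9) .nil))))) (.g (nat_lit 0) (.e (nat_lit 295831) (nat_lit 0) .nil) .nil)))) (.nd (nat_lit 9) 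
(.lf (nat_lit 550229) (.g (nat_lit 1952) (.e (nat_lit 426025) (nat_lit 0) (.e (nat_lit 3397) (nat_lit 211) (.e (nat_lit 647183) (nat_lit 4) (.e (nat_lit 172094) (nat_lit 9) (.e (nat_lit 426025) (nat_lit 0) (.e (nat_lit 3397) (nat_lit 211) (.e (nat_lit 647183) (nat_lit 4) (.e (nat_lit 172089) (nat_lit 9) .nil)))))))) (.g (nat_lit 1) (.e (nat_lit 295306) (nat_lit 0) .nil) .nil))) 
(.lf (nat_lit 550741) (.g (nat_lit 1865) (.e (nat_lit 426099) (nat_lit 1) (.e (nat_lit 164399) (nat_lit 256) (.e (nat_lit 57375) (nat_lit 2) (.e (nat_lit 90176) (nat_lit 15) (.e (nat_lit 196352) (nat_lit 11) .nil))))) (.g (nat_lit 0) (.e (nat_lit 296179) (nat_lit 0) .nil) .nil))))) (.nd (nat_lit 8) (.nd (nat_lit 9) 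
(.lf (nat_lit 550101) (.g (nat_lit 2523) (.e (nat_lit 426009) (nat_lit 0) (.e (nat_lit 3471) (nat_lit 217) (.e (nat_lit 696343) (nat_lit 8) (.e (nat_lit 172106) (nat_lit 10) (.e (nat_lit 434209) (nat_lit 18) (.e (nat_lit 6273) (nat_lit 337) (.e (nat_lit 2633) (nat_lit 164) (.e (nat_lit 172103) (nat_lit 9) .nil)))))))) (.g (nat_lit 1) (.e (nat_lit 295153) (nat_lit 0) .nil) .nil))) 
(.lf (nat_lit 550613) (.g (nat_lit 2955) (.e (nat_lit 426098) (nat_lit 1) (.e (nat_lit 164399) (nat_lit 256) (.e (nat_lit 57377) (nat_lit 3) (.e (nat_lit 98365) (nat_lit 26) (.e (nat_lit 426327) (nat_lit 13) (.e (nat_lit 483341) (nat_lit 9) .nil)))))) (.g (nat_lit 1) (.e (nat_lit 296030) (nat_lit 0) .nil) .nil)))) (.nd (nat_lit 9) 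
(.lf (nat_lit 550357) (.g (nat_lit 1878) (.e (nat_lit 426098) (nat_lit 1) (.e (nat_lit 164179) (nat_lit 154) (.e (nat_lit 57411) (nat_lit 12) (.e (nat_lit 336322) (nat_lit 18) .nil)))) (.g (nat_lit 0) (.e (nat_lit 295590) (nat_lit 0) .nil) .nil))) 
(.lf (nat_lit 550869) (.g (nat_lit 1812) (.e (nat_lit 426100) (nat_lit 1) (.e (nat_lit 164398) (nat_lit 256) (.e (nat_lit 57408) (nat_lit 12) (.e (nat_lit 336443) (nat_lit 32) (.e (nat_lit 466978) (nat_lit 23) .nil))))) (.g (nat_lit 0) (.e (nat_lit 296406) (nat_lit 0) .nil) .nil))))))) (.nd (nat_lit 6) (.nd (nat_lit 7) (.nd (nat_lit 8) (.nd (nat_lit 9) 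
(.lf (nat_lit 549941) (.g (nat_lit 2979) (.e (nat_lit 417794) (nat_lit 0) (.e (nat_lit 5395) (nat_lit 301) (.e (nat_lit 57464) (nat_lit 23) (.e (nat_lit 516166) (nat_lit 12) (.e (nat_lit 450588) (nat_lit 10) (.e (nat_lit 573452) (nat_lit 9) (.e (nat_lit 365) (nat_lit 31) .nil))))))) (.g (nat_lit 1) (.e (nat_lit 294772) (nat_lit 0) .nil) .nil))) 
(.lf (nat_lit 550453) (.g (nat_lit 765) (.e (nat_lit 426098) (nat_lit 1) (.e (nat_lit 164327) (nat_lit 230) (.e (nat_lit 163849) (nat_lit 0) .nil))) (.g (nat_lit 0) (.e (nat_lit 295782) (nat_lit 0) .nil) .nil)))) (.nd (nat_lit 9) 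
(.lf (nat_lit 550197) (.g (nat_lit 2334) (.e (nat_lit 426012) (nat_lit 0) (.e (nat_lit 3544) (nat_lit 219) (.e (nat_lit 712753) (nat_lit 30) (.e (nat_lit 450586) (nat_lit 10) (.e (nat_lit 573473) (nat_lit 12) (.e (nat_lit 57508) (nat_lit 39) (.e (nat_lit 647195) (nat_lit 9) (.e (nat_lit 422) (nat_lit 32) .nil)))))))) (.g (nat_lit 1) (.e (nat_lit 295254) (nat_lit 0) .nil) .nil))) 
(.lf (nat_lit 550709) (.g (nat_lit 1301) (.e (nat_lit 426099) (nat_lit 1) (.e (nat_lit 164398) (nat_lit 256) (.e (nat_lit 57373) (nat_lit 2) (.e (nat_lit 90185) (nat_lit 17) .nil)))) (.g (nat_lit 0) (.e (nat_lit 296147) (nat_lit 0) .nil) .nil))))) (.nd (nat_lit 8) (.nd (nat_lit 9) 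
(.lf (nat_lit 550069) (.g (nat_lit 1590) (.e (nat_lit 425728) (nat_lit 19) (.e (nat_lit 311312) (nat_lit 2) (.e (nat_lit 196666) (nat_lit 13) (.e (nat_lit 65617) (nat_lit 10) .nil)))) (.g (nat_lit 0) (.e (nat_lit 295067) (nat_lit 0) .nil) .nil))) 
(.lf (nat_lit 550581) (.g (nat_lit 845) (.e (nat_lit 426098) (nat_lit 1) (.e (nat_lit 164348) (nat_lit 240) (.e (nat_lit 2640) (nat_lit 165) (.e (nat_lit 188160) (nat_lit 32) .nil)))) (.g (nat_lit 0) (.e (nat_lit 295992) (nat_lit 0) .nil) .nil)))) (.nd (nat_lit 9) 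
(.lf (nat_lit 550325) (.g (nat_lit 583) (.e (nat_lit 426097) (nat_lit 1) (.e (nat_lit 164179) (nat_lit 154) (.e (nat_lit 57406) (nat_lit 12) .nil))) (.g (nat_lit 0) (.e (nat_lit 295506) (nat_lit 0) .nil) .nil))) 
(.lf (nat_lit 550837) (.g (nat_lit 1319) (.e (nat_lit 426100) (nat_lit 1) (.e (nat_lit 164398) (nat_lit 256) (.e (nat_lit 57371) (nat_lit 2) (.e (nat_lit 90168) (nat_lit 13) .nil)))) (.g (nat_lit 0) (.e (nat_lit 296374) (nat_lit 0) .nil) .nil)))))) (.nd (nat_lit 7) (.nd (nat_lit 8) (.nd (nat_lit 9) 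
(.lf (nat_lit 550005) (.g (nat_lit 1361) (.e (nat_lit 417811) (nat_lit 6) (.e (nat_lit 286761) (nat_lit 13) (.e (nat_lit 393265) (nat_lit 22) (.e (nat_lit 425728) (nat_lit 16) .nil)))) (.g (nat_lit 0) (.e (nat_lit 294861) (nat_lit 0) .nil) .nil))) 
(.lf (nat_lit 550517) (.g (nat_lit 3455) (.e (nat_lit 426098) (nat_lit 1) (.e (nat_lit 164327) (nat_lit 230) (.e (nat_lit 163873) (nat_lit 3) (.e (nat_lit 204813) (nat_lit 9) (.e (nat_lit 426199) (nat_lit 9) (.e (nat_lit 426481) (nat_lit 27) (.e (nat_lit 336388) (nat_lit 27) .nil))))))) (.g (nat_lit 1) (.e (nat_lit 295872) (nat_lit 0) .nil) .nil)))) (.nd (nat_lit 9) 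
(.lf (nat_lit 550261) (.g (nat_lit 3358) (.e (nat_lit 426023) (nat_lit 0) (.e (nat_lit 3401) (nat_lit 211) (.e (nat_lit 647181) (nat_lit 3) (.e (nat_lit 163977) (nat_lit 30) (.e (nat_lit 573491) (nat_lit 15) (.e (nat_lit 81954) (nat_lit 23) (.e (nat_lit 98359) (nat_lit 26) .nil))))))) (.g (nat_lit 1) (.e (nat_lit 295358) (nat_lit 0) .nil) .nil))) 
(.lf (nat_lit 550773) (.g (nat_lit 1623) (.e (nat_lit 426099) (nat_lit 1) (.e (nat_lit 164399) (nat_lit 256) (.e (nat_lit 57409) (nat_lit 12) (.e (nat_lit 336443) (nat_lit 32) (.e (nat_lit 466979) (nat_lit 23) .nil))))) (.g (nat_lit 0) (.e (nat_lit 296211) (nat_lit 0) .nil) .nil))))) (.nd (nat_lit 8) (.nd (nat_lit 9) 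
(.lf (nat_lit 550133) (.g (nat_lit 3497) (.e (nat_lit 426010) (nat_lit 0) (.e (nat_lit 7581) (nat_lit 405) (.e (nat_lit 57464) (nat_lit 23) (.e (nat_lit 516166) (nat_lit 12) (.e (nat_lit 450588) (nat_lit 10) (.e (nat_lit 573452) (nat_lit 9) (.e (nat_lit 430) (nat_lit 32) .nil))))))) (.g (nat_lit 1) (.e (nat_lit 295187) (nat_lit 0) .nil) .nil))) 
(.lf (nat_lit 550645) (.g (nat_lit 1286) (.e (nat_lit 426098) (nat_lit 1) (.e (nat_lit 164403) (nat_lit 256) (.e (nat_lit 57373) (nat_lit 2) (.e (nat_lit 90178) (nat_lit 15) .nil)))) (.g (nat_lit 0) (.e (nat_lit 296062) (nat_lit 0) .nil) .nil)))) (.nd (nat_lit 9) 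
(.lf (nat_lit 550389) (.g (nat_lit 3849) (.e (nat_lit 426098) (nat_lit 1) (.e (nat_lit 164325) (nat_lit 230) (.e (nat_lit 163869) (nat_lit 2) (.e (nat_lit 196654) (nat_lit 11) (.e (nat_lit 16463) (nat_lit 13) (.e (nat_lit 483337) (nat_lit 9) .nil)))))) (.g (nat_lit 1) (.e (nat_lit 295680) (nat_lit 0) .nil) .nil))) 
(.lf (nat_lit 550901) (.g (nat_lit 1689) (.e (nat_lit 426100) (nat_lit 1) (.e (nat_lit 164399) (nat_lit 256) (.e (nat_lit 57379) (nat_lit 3) (.e (nat_lit 98365) (nat_lit 26) (.e (nat_lit 426187) (nat_lit 9) .nil))))) (.g (nat_lit 0) (.e (nat_lit 296439) (nat_lit 0) .nil) .nil))))))))) (.nd (nat_lit 4) (.nd (nat_lit 5) (.nd (nat_lit 6) (.nd (nat_lit 7) (.nd (nat_lit 8) (.nd (nat_lit 9) 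
(.lf (nat_lit 549901) (.g (nat_lit 1447) (.e (nat_lit 417536) (nat_lit 18) (.e (nat_lit 303119) (nat_lit 3) (.e (nat_lit 204876) (nat_lit 31) (.e (nat_lit 376855) (nat_lit 20) .nil)))) (.g (nat_lit 0) (.e (nat_lit 294591) (nat_lit 0) .nil) .nil))) 
(.lf (nat_lit 550413) (.g (nat_lit 4392) (.e (nat_lit 426098) (nat_lit 1) (.e (nat_lit 164325) (nat_lit 230) (.e (nat_lit 163873) (nat_lit 3) (.e (nat_lit 204813) (nat_lit 9) (.e (nat_lit 426197) (nat_lit 9) (.e (nat_lit 426481) (nat_lit 27) (.e (nat_lit 336389) (nat_lit 27) .nil))))))) (.g (nat_lit 1) (.e (nat_lit 295718) (nat_lit 0) .nil) .nil)))) (.nd (nat_lit 9) 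
(.lf (nat_lit 550157) (.g (nat_lit 3504) (.e (nat_lit 426011) (nat_lit 0) (.e (nat_lit 7486) (nat_lit 402) (.e (nat_lit 1239) (nat_lit 91) (.e (nat_lit 90170) (nat_lit 13) (.e (nat_lit 172113) (nat_lit 10) (.e (nat_lit 434245) (nat_lit 28) (.e (nat_lit 573451) (nat_lit 9) (.e (nat_lit 430) (nat_lit 32) .nil)))))))) (.g (nat_lit 1) (.e (nat_lit 295211) (nat_lit 0) .nil) .nil))) 
(.lf (nat_lit 550669) (.g (nat_lit 1731) (.e (nat_lit 426099) (nat_lit 1) (.e (nat_lit 164330) (nat_lit 230) (.e (nat_lit 163878) (nat_lit 4) (.e (nat_lit 213030) (nat_lit 11) (.e (nat_lit 24656) (nat_lit 13) .nil))))) (.g (nat_lit 0) (.e (nat_lit 296098) (nat_lit 0) .nil) .nil))))) (.nd (nat_lit 8) (.nd (nat_lit 9) 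
(.lf (nat_lit 550029) (.g (nat_lit 2047) (.e (nat_lit 417828) (nat_lit 18) (.e (nat_lit 303143) (nat_lit 12) (.e (nat_lit 475212) (nat_lit 42) (.e (nat_lit 720955) (nat_lit 25) .nil)))) (.g (nat_lit 0) (.e (nat_lit 294942) (nat_lit 0) .nil) .nil))) 
(.lf (nat_lit 550541) (.g (nat_lit 1642) (.e (nat_lit 426098) (nat_lit 1) (.e (nat_lit 164327) (nat_lit 230) (.e (nat_lit 163875) (nat_lit 3) (.e (nat_lit 204813) (nat_lit 9) (.e (nat_lit 426197) (nat_lit 9) .nil))))) (.g (nat_lit 0) (.e (nat_lit 295914) (nat_lit 0) .nil) .nil)))) (.nd (nat_lit 9) 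
(.lf (nat_lit 550285) (.g (nat_lit 1555) (.e (nat_lit 426041) (nat_lit 0) (.e (nat_lit 3238) (nat_lit 197) (.e (nat_lit 532482) (nat_lit 0) (.e (nat_lit 6724) (nat_lit 362) (.e (nat_lit 180243) (nat_lit 5) .nil))))) (.g (nat_lit 0) (.e (nat_lit 295392) (nat_lit 0) .nil) .nil))) 
(.lf (nat_lit 550797) (.g (nat_lit 2531) (.e (nat_lit 426100) (nat_lit 1) (.e (nat_lit 164332) (nat_lit 230) (.e (nat_lit 163867) (nat_lit 2) (.e (nat_lit 196656) (nat_lit 11) (.e (nat_lit 16465) (nat_lit 13) (.e (nat_lit 491264) (nat_lit 9) .nil)))))) (.g (nat_lit 1) (.e (nat_lit 296278) (nat_lit 0) .nil) .nil)))))) (.nd (nat_lit 7) (.nd (nat_lit 8) (.nd (nat_lit 9) 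
(.lf (nat_lit 549965) (.g (nat_lit 1603) (.e (nat_lit 417809) (nat_lit 6) (.e (nat_lit 286743) (nat_lit 9) (.e (nat_lit 336427) (nat_lit 29) (.e (nat_lit 442428) (nat_lit 24) (.e (nat_lit 229678) (nat_lit 244) (.e (nat_lit 163899) (nat_lit 11) .nil)))))) (.g (nat_lit 1) (.e (nat_lit 294807) (nat_lit 0) .nil) .nil))) 
(.lf (nat_lit 550477) (.g (nat_lit 3670) (.e (nat_lit 426098) (nat_lit 1) (.e (nat_lit 164327) (nat_lit 230) (.e (nat_lit 163868) (nat_lit 2) (.e (nat_lit 196656) (nat_lit 11) (.e (nat_lit 16438) (nat_lit 9) (.e (nat_lit 426482) (nat_lit 27) (.e (nat_lit 336388) (nat_lit 27) .nil))))))) (.g (nat_lit 1) (.e (nat_lit 295817) (nat_lit 0) .nil) .nil)))) (.nd (nat_lit 9) 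
(.lf (nat_lit 550221) (.g (nat_lit 2906) (.e (nat_lit 426024) (nat_lit 0) (.e (nat_lit 3399) (nat_lit 211) (.e (nat_lit 647183) (nat_lit 4) (.e (nat_lit 172126) (nat_lit 14) (.e (nat_lit 491571) (nat_lit 13) (.e (nat_lit 401152) (nat_lit 23) .nil)))))) (.g (nat_lit 1) (.e (nat_lit 295284) (nat_lit 0) .nil) .nil))) 
(.lf (nat_lit 550733) (.g (nat_lit 1942) (.e (nat_lit 426099) (nat_lit 1) (.e (nat_lit 164399) (nat_lit 256) (.e (nat_lit 57372) (nat_lit 2) (.e (nat_lit 90176) (nat_lit 15) (.e (nat_lit 188423) (nat_lit 11) .nil))))) (.g (nat_lit 0) (.e (nat_lit 296171) (nat_lit 0) .nil) .nil))))) (.nd (nat_lit 8) (.nd (nat_lit 9) 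
(.lf (nat_lit 550093) (.g (nat_lit 1585) (.e (nat_lit 426003) (nat_lit 0) (.e (nat_lit 3238) (nat_lit 197) (.e (nat_lit 532482) (nat_lit 0) (.e (nat_lit 6724) (nat_lit 362) (.e (nat_lit 180252) (nat_lit 10) .nil))))) (.g (nat_lit 0) (.e (nat_lit 295136) (nat_lit 0) .nil) .nil))) 
(.lf (nat_lit 550605) (.g (nat_lit 1615) (.e (nat_lit 426098) (nat_lit 1) (.e (nat_lit 164399) (nat_lit 256) (.e (nat_lit 57372) (nat_lit 2) (.e (nat_lit 90178) (nat_lit 15) (.e (nat_lit 196352) (nat_lit 11) .nil))))) (.g (nat_lit 0) (.e (nat_lit 296022) (nat_lit 0) .nil) .nil)))) (.nd (nat_lit 9) 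
(.lf (nat_lit 550349) (.g (nat_lit 1952) (.e (nat_lit 426098) (nat_lit 1) (.e (nat_lit 164179) (nat_lit 154) (.e (nat_lit 57406) (nat_lit 12) (.e (nat_lit 336318) (nat_lit 17) .nil)))) (.g (nat_lit 0) (.e (nat_lit 295581) (nat_lit 0) .nil) .nil))) 
(.lf (nat_lit 550861) (.g (nat_lit 2420) (.e (nat_lit 426100) (nat_lit 1) (.e (nat_lit 164398) (nat_lit 256) (.e (nat_lit 57379) (nat_lit 3) (.e (nat_lit 98359) (nat_lit 26) (.e (nat_lit 426330) (nat_lit 13) .nil))))) (.g (nat_lit 0) (.e (nat_lit 296398) (nat_lit 0) .nil) .nil))))))) (.nd (nat_lit 6) (.nd (nat_lit 7) (.nd (nat_lit 8) (.nd (nat_lit 9) 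
(.lf (nat_lit 549933) (.g (nat_lit 2075) (.e (nat_lit 409642) (nat_lit 17) (.e (nat_lit 294974) (nat_lit 29) (.e (nat_lit 442399) (nat_lit 20) (.e (nat_lit 3399) (nat_lit 211) (.e (nat_lit 647183) (nat_lit 4) (.e (nat_lit 172082) (nat_lit 7) .nil)))))) (.g (nat_lit 1) (.e (nat_lit 294752) (nat_lit 0) .nil) .nil))) 
(.lf (nat_lit 550445) (.g (nat_lit 393) (.e (nat_lit 426098) (nat_lit 1) (.e (nat_lit 164325) (nat_lit 230) (.e (nat_lit 163875) (nat_lit 3) .nil))) (.g (nat_lit 0) (.e (nat_lit 295765) (nat_lit 0) .nil) .nil)))) (.nd (nat_lit 9) 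
(.lf (nat_lit 550189) (.g (nat_lit 1929) (.e (nat_lit 426011) (nat_lit 0) (.e (nat_lit 7583) (nat_lit 405) (.e (nat_lit 57464) (nat_lit 23) (.e (nat_lit 516151) (nat_lit 9) (.e (nat_lit 426286) (nat_lit 10) (.e (nat_lit 434248) (nat_lit 28) (.e (nat_lit 573452) (nat_lit 9) (.e (nat_lit 396) (nat_lit 32) .nil)))))))) (.g (nat_lit 1) (.e (nat_lit 295243) (nat_lit 0) .nil) .nil))) 
(.lf (nat_lit 550701) (.g (nat_lit 1068) (.e (nat_lit 426099) (nat_lit 1) (.e (nat_lit 164398) (nat_lit 256) (.e (nat_lit 57371) (nat_lit 2) (.e (nat_lit 90176) (nat_lit 15) .nil)))) (.g (nat_lit 0) (.e (nat_lit 296139) (nat_lit 0) .nil) .nil))))) (.nd (nat_lit 8) (.nd (nat_lit 9) 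
(.lf (nat_lit 550061) (.g (nat_lit 3245) (.e (nat_lit 417829) (nat_lit 18) (.e (nat_lit 303145) (nat_lit 13) (.e (nat_lit 483346) (nat_lit 17) (.e (nat_lit 1049) (nat_lit 81) .nil)))) (.g (nat_lit 0) (.e (nat_lit 295011) (nat_lit 0) .nil) .nil))) 
(.lf (nat_lit 550573) (.g (nat_lit 1209) (.e (nat_lit 426098) (nat_lit 1) (.e (nat_lit 164332) (nat_lit 230) (.e (nat_lit 163874) (nat_lit 3) (.e (nat_lit 204813) (nat_lit 9) .nil)))) (.g (nat_lit 0) (.e (nat_lit 295968) (nat_lit 0) .nil) .nil)))) (.nd (nat_lit 9) 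
(.lf (nat_lit 550317) (.g (nat_lit 2115) (.e (nat_lit 426068) (nat_lit 0) (.e (nat_lit 3249) (nat_lit 197) (.e (nat_lit 532569) (nat_lit 16) (.e (nat_lit 401448) (nat_lit 10) (.e (nat_lit 434247) (nat_lit 28) .nil))))) (.g (nat_lit 0) (.e (nat_lit 295477) (nat_lit 0) .nil) .nil))) 
(.lf (nat_lit 550829) (.g (nat_lit 2515) (.e (nat_lit 426100) (nat_lit 1) (.e (nat_lit 164332) (nat_lit 230) (.e (nat_lit 163874) (nat_lit 3) (.e (nat_lit 204830) (nat_lit 18) (.e (nat_lit 57908) (nat_lit 278) .nil))))) (.g (nat_lit 0) (.e (nat_lit 296366) (nat_lit 0) .nil) .nil)))))) (.nd (nat_lit 7) (.nd (nat_lit 8) (.nd (nat_lit 9) 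
(.lf (nat_lit 549997) (.g (nat_lit 3079) (.e (nat_lit 417811) (nat_lit 6) (.e (nat_lit 286733) (nat_lit 2) (.e (nat_lit 90170) (nat_lit 13) (.e (nat_lit 172126) (nat_lit 14) (.e (nat_lit 491540) (nat_lit 3) .nil))))) (.g (nat_lit 0) (.e (nat_lit 294851) (nat_lit 0) .nil) .nil))) 
(.lf (nat_lit 550509) (.g (nat_lit 3200) (.e (nat_lit 426098) (nat_lit 1) (.e (nat_lit 164327) (nat_lit 230) (.e (nat_lit 163873) (nat_lit 3) (.e (nat_lit 204813) (nat_lit 9) (.e (nat_lit 426197) (nat_lit 9) .nil))))) (.g (nat_lit 0) (.e (nat_lit 295864) (nat_lit 0) .nil) .nil)))) (.nd (nat_lit 9) 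
(.lf (nat_lit 550253) (.g (nat_lit 3715) (.e (nat_lit 426025) (nat_lit 0) (.e (nat_lit 3399) (nat_lit 211) (.e (nat_lit 647183) (nat_lit 4) (.e (nat_lit 172126) (nat_lit 14) (.e (nat_lit 491571) (nat_lit 13) (.e (nat_lit 393276) (nat_lit 23) .nil)))))) (.g (nat_lit 1) (.e (nat_lit 295342) (nat_lit 0) .nil) .nil))) 
(.lf (nat_lit 550765) (.g (nat_lit 453) (.e (nat_lit 426099) (nat_lit 1) (.e (nat_lit 164399) (nat_lit 256) (.e (nat_lit 57407) (nat_lit 12) .nil))) (.g (nat_lit 0) (.e (nat_lit 296203) (nat_lit 0) .nil) .nil))))) (.nd (nat_lit 8) (.nd (nat_lit 9) 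
(.lf (nat_lit 550125) (.g (nat_lit 3807) (.e (nat_lit 426010) (nat_lit 0) (.e (nat_lit 7581) (nat_lit 405) (.e (nat_lit 57464) (nat_lit 23) (.e (nat_lit 516151) (nat_lit 9) (.e (nat_lit 426286) (nat_lit 10) (.e (nat_lit 434247) (nat_lit 28) (.e (nat_lit 573456) (nat_lit 9) (.e (nat_lit 430) (nat_lit 32) .nil)))))))) (.g (nat_lit 1) (.e (nat_lit 295179) (nat_lit 0) .nil) .nil))) 
(.lf (nat_lit 550637) (.g (nat_lit 2122) (.e (nat_lit 426098) (nat_lit 1) (.e (nat_lit 164402) (nat_lit 256) (.e (nat_lit 57371) (nat_lit 2) (.e (nat_lit 90176) (nat_lit 15) (.e (nat_lit 188421) (nat_lit 11) .nil))))) (.g (nat_lit 0) (.e (nat_lit 296054) (nat_lit 0) .nil) .nil)))) (.nd (nat_lit 9) 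
(.lf (nat_lit 550381) (.g (nat_lit 3272) (.e (nat_lit 426098) (nat_lit 1) (.e (nat_lit 164325) (nat_lit 230) (.e (nat_lit 163867) (nat_lit 2) (.e (nat_lit 196656) (nat_lit 11) (.e (nat_lit 16465) (nat_lit 13) (.e (nat_lit 483341) (nat_lit 9) .nil)))))) (.g (nat_lit 1) (.e (nat_lit 295660) (nat_lit 0) .nil) .nil))) 
(.lf (nat_lit 550893) (.g (nat_lit 2260) (.e (nat_lit 426100) (nat_lit 1) (.e (nat_lit 164399) (nat_lit 256) (.e (nat_lit 57378) (nat_lit 3) (.e (nat_lit 98355) (nat_lit 26) (.e (nat_lit 426323) (nat_lit 13) .nil))))) (.g (nat_lit 0) (.e (nat_lit 296431) (nat_lit 0) .nil) .nil)))))))) (.nd (nat_lit 5) (.nd (nat_lit 6) (.nd (nat_lit 7) (.nd (nat_lit 8) (.nd (nat_lit 9) 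
(.lf (nat_lit 549917) (.g (nat_lit 1197) (.e (nat_lit 417536) (nat_lit 16) (.e (nat_lit 286728) (nat_lit 0) (.e (nat_lit 1962) (nat_lit 134) (.e (nat_lit 638998) (nat_lit 8) (.e (nat_lit 172082) (nat_lit 7) .nil))))) (.g (nat_lit 0) (.e (nat_lit 294720) (nat_lit 0) .nil) .nil))) 
(.lf (nat_lit 550429) (.g (nat_lit 3423) (.e (nat_lit 426098) (nat_lit 1) (.e (nat_lit 164325) (nat_lit 230) (.e (nat_lit 163873) (nat_lit 3) (.e (nat_lit 204813) (nat_lit 9) (.e (nat_lit 426199) (nat_lit 9) (.e (nat_lit 426491) (nat_lit 27) (.e (nat_lit 336409) (nat_lit 27) .nil))))))) (.g (nat_lit 1) (.e (nat_lit 295735) (nat_lit 0) .nil) .nil)))) (.nd (nat_lit 9) 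
(.lf (nat_lit 550173) (.g (nat_lit 4204) (.e (nat_lit 426011) (nat_lit 0) (.e (nat_lit 7581) (nat_lit 405) (.e (nat_lit 57463) (nat_lit 23) (.e (nat_lit 516166) (nat_lit 12) (.e (nat_lit 450587) (nat_lit 10) (.e (nat_lit 573457) (nat_lit 9) (.e (nat_lit 430) (nat_lit 32) .nil))))))) (.g (nat_lit 1) (.e (nat_lit 295227) (nat_lit 0) .nil) .nil))) 
(.lf (nat_lit 550685) (.g (nat_lit 2599) (.e (nat_lit 426099) (nat_lit 1) (.e (nat_lit 164332) (nat_lit 230) (.e (nat_lit 163874) (nat_lit 3) (.e (nat_lit 204829) (nat_lit 18) (.e (nat_lit 57908) (nat_lit 278) .nil))))) (.g (nat_lit 0) (.e (nat_lit 296123) (nat_lit 0) .nil) .nil))))) (.nd (nat_lit 8) (.nd (nat_lit 9) 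
(.lf (nat_lit 550045) (.g (nat_lit 2313) (.e (nat_lit 417829) (nat_lit 18) (.e (nat_lit 303117) (nat_lit 2) (.e (nat_lit 196674) (nat_lit 15) (.e (nat_lit 81955) (nat_lit 23) (.e (nat_lit 98353) (nat_lit 25) .nil))))) (.g (nat_lit 0) (.e (nat_lit 294990) (nat_lit 0) .nil) .nil))) 
(.lf (nat_lit 550557) (.g (nat_lit 2791) (.e (nat_lit 426098) (nat_lit 1) (.e (nat_lit 164327) (nat_lit 230) (.e (nat_lit 163875) (nat_lit 3) (.e (nat_lit 204830) (nat_lit 18) (.e (nat_lit 57904) (nat_lit 278) .nil))))) (.g (nat_lit 0) (.e (nat_lit 295943) (nat_lit 0) .nil) .nil)))) (.nd (nat_lit 9) 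
(.lf (nat_lit 550301) (.g (nat_lit 2206) (.e (nat_lit 426043) (nat_lit 0) (.e (nat_lit 3469) (nat_lit 217) (.e (nat_lit 696344) (nat_lit 8) (.e (nat_lit 172122) (nat_lit 13) (.e (nat_lit 483412) (nat_lit 27) .nil))))) (.g (nat_lit 0) (.e (nat_lit 295442) (nat_lit 0) .nil) .nil))) 
(.lf (nat_lit 550813) (.g (nat_lit 3165) (.e (nat_lit 426100) (nat_lit 1) (.e (nat_lit 164332) (nat_lit 230) (.e (nat_lit 163869) (nat_lit 2) (.e (nat_lit 196656) (nat_lit 11) (.e (nat_lit 16436) (nat_lit 9) (.e (nat_lit 426481) (nat_lit 27) (.e (nat_lit 336388) (nat_lit 27) .nil))))))) (.g (nat_lit 1) (.e (nat_lit 296326) (nat_lit 0) .nil) .nil)))))) 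
(.nd (nat_lit 7) (.nd (nat_lit 8) (.nd (nat_lit 9) 
(.lf (nat_lit 549981) (.g (nat_lit 600) (.e (nat_lit 417810) (nat_lit 6) (.e (nat_lit 286733) (nat_lit 2) (.e (nat_lit 90174) (nat_lit 14) .nil))) (.g (nat_lit 0) (.e (nat_lit 294831) (nat_lit 0) .nil) .nil))) 
(.lf (nat_lit 550493) (.g (nat_lit 2760) (.e (nat_lit 426098) (nat_lit 1) (.e (nat_lit 164327) (nat_lit 230) (.e (nat_lit 163871) (nat_lit 2) (.e (nat_lit 196656) (nat_lit 11) (.e (nat_lit 16433) (nat_lit 9) .nil))))) (.g (nat_lit 0) (.e (nat_lit 295842) (nat_lit 0) .nil) .nil)))) (.nd (nat_lit 9) 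
(.lf (nat_lit 550237) (.g (nat_lit 2636) (.e (nat_lit 426025) (nat_lit 0) (.e (nat_lit 3397) (nat_lit 211) (.e (nat_lit 647183) (nat_lit 4) (.e (nat_lit 172126) (nat_lit 14) (.e (nat_lit 491549) (nat_lit 9) (.e (nat_lit 336395) (nat_lit 27) (.e (nat_lit 426215) (nat_lit 9) .nil))))))) (.g (nat_lit 1) (.e (nat_lit 295316) (nat_lit 0) .nil) .nil))) 
(.lf (nat_lit 550749) (.g (nat_lit 2433) (.e (nat_lit 426099) (nat_lit 1) (.e (nat_lit 164399) (nat_lit 256) (.e (nat_lit 57378) (nat_lit 3) (.e (nat_lit 98355) (nat_lit 26) (.e (nat_lit 426323) (nat_lit 13) .nil))))) (.g (nat_lit 0) (.e (nat_lit 296187) (nat_lit 0) .nil) .nil))))) (.nd (nat_lit 8) (.nd (nat_lit 9) 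
(.lf (nat_lit 550109) (.g (nat_lit 3092) (.e (nat_lit 426009) (nat_lit 0) (.e (nat_lit 7583) (nat_lit 405) (.e (nat_lit 57464) (nat_lit 23) (.e (nat_lit 516166) (nat_lit 12) (.e (nat_lit 450588) (nat_lit 10) (.e (nat_lit 573452) (nat_lit 9) (.e (nat_lit 430) (nat_lit 32) .nil))))))) (.g (nat_lit 1) (.e (nat_lit 295163) (nat_lit 0) .nil) .nil))) 
(.lf (nat_lit 550621) (.g (nat_lit 2231) (.e (nat_lit 426098) (nat_lit 1) (.e (nat_lit 164399) (nat_lit 256) (.e (nat_lit 57378) (nat_lit 3) (.e (nat_lit 98358) (nat_lit 26) (.e (nat_lit 426323) (nat_lit 13) (.e (nat_lit 483336) (nat_lit 9) .nil)))))) (.g (nat_lit 1) (.e (nat_lit 296038) (nat_lit 0) .nil) .nil)))) (.nd (nat_lit 9) 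
(.lf (nat_lit 550365) (.g (nat_lit 482) (.e (nat_lit 426098) (nat_lit 1) (.e (nat_lit 164182) (nat_lit 154) (.e (nat_lit 57410) (nat_lit 12) .nil))) (.g (nat_lit 0) (.e (nat_lit 295600) (nat_lit 0) .nil) .nil))) 
(.lf (nat_lit 550877) (.g (nat_lit 1848) (.e (nat_lit 426100) (nat_lit 1) (.e (nat_lit 164399) (nat_lit 256) (.e (nat_lit 57371) (nat_lit 2) (.e (nat_lit 90176) (nat_lit 15) (.e (nat_lit 188421) (nat_lit 11) .nil))))) (.g (nat_lit 0) (.e (nat_lit 296415) (nat_lit 0) .nil) .nil))))))) (.nd (nat_lit 6) (.nd (nat_lit 7) (.nd (nat_lit 8) (.nd (nat_lit 9) 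
(.lf (nat_lit 549949) (.g (nat_lit 874) (.e (nat_lit 417805) (nat_lit 2) (.e (nat_lit 32803) (nat_lit 16) (.e (nat_lit 24665) (nat_lit 14) (.e (nat_lit 409344) (nat_lit 34) .nil)))) (.g (nat_lit 0) (.e (nat_lit 294785) (nat_lit 0) .nil) .nil))) 
(.lf (nat_lit 550461) (.g (nat_lit 3121) (.e (nat_lit 426098) (nat_lit 1) (.e (nat_lit 164327) (nat_lit 230) (.e (nat_lit 163868) (nat_lit 2) (.e (nat_lit 196654) (nat_lit 11) (.e (nat_lit 16436) (nat_lit 9) (.e (nat_lit 426509) (nat_lit 27) (.e (nat_lit 336412) (nat_lit 27) .nil))))))) (.g (nat_lit 1) (.e (nat_lit 295795) (nat_lit 0) .nil) .nil)))) (.nd (nat_lit 9) 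
(.lf (nat_lit 550205) (.g (nat_lit 2809) (.e (nat_lit 426012) (nat_lit 0) (.e (nat_lit 7581) (nat_lit 405) (.e (nat_lit 57476) (nat_lit 28) (.e (nat_lit 557067) (nat_lit 9) (.e (nat_lit 2974) (nat_lit 185) (.e (nat_lit 434276) (nat_lit 39) (.e (nat_lit 663567) (nat_lit 4) (.e (nat_lit 65651) (nat_lit 27) .nil)))))))) (.g (nat_lit 1) (.e (nat_lit 295262) (nat_lit 0) .nil) .nil))) 
(.lf (nat_lit 550717) (.g (nat_lit 469) (.e (nat_lit 426099) (nat_lit 1) (.e (nat_lit 164398) (nat_lit 256) (.e (nat_lit 57379) (nat_lit 3) .nil))) (.g (nat_lit 0) (.e (nat_lit 296155) (nat_lit 0) .nil) .nil))))) (.nd (nat_lit 8) (.nd (nat_lit 9) 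
(.lf (nat_lit 550077) (.g (nat_lit 3316) (.e (nat_lit 425987) (nat_lit 0) (.e (nat_lit 7489) (nat_lit 402) (.e (nat_lit 1239) (nat_lit 91) (.e (nat_lit 90170) (nat_lit 13) (.e (nat_lit 172113) (nat_lit 10) (.e (nat_lit 434248) (nat_lit 28) (.e (nat_lit 573452) (nat_lit 9) (.e (nat_lit 428) (nat_lit 32) .nil)))))))) (.g (nat_lit 1) (.e (nat_lit 295104) (nat_lit 0) .nil) .nil))) 
(.lf (nat_lit 550589) (.g (nat_lit 2096) (.e (nat_lit 426098) (nat_lit 1) (.e (nat_lit 164398) (nat_lit 256) (.e (nat_lit 57377) (nat_lit 3) (.e (nat_lit 98369) (nat_lit 28) (.e (nat_lit 442389) (nat_lit 11) .nil))))) (.g (nat_lit 0) (.e (nat_lit 296006) (nat_lit 0) .nil) .nil)))) (.nd (nat_lit 9) 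
(.lf (nat_lit 550333) (.g (nat_lit 897) (.e (nat_lit 426097) (nat_lit 1) (.e (nat_lit 164327) (nat_lit 230) (.e (nat_lit 163877) (nat_lit 4) .nil))) (.g (nat_lit 0) (.e (nat_lit 295544) (nat_lit 0) .nil) .nil))) 
(.lf (nat_lit 550845) (.g (nat_lit 2933) (.e (nat_lit 426100) (nat_lit 1) (.e (nat_lit 164398) (nat_lit 256) (.e (nat_lit 57373) (nat_lit 2) (.e (nat_lit 90170) (nat_lit 13) (.e (nat_lit 172121) (nat_lit 13) (.e (nat_lit 483341) (nat_lit 9) .nil)))))) (.g (nat_lit 1) (.e (nat_lit 296382) (nat_lit 0) .nil) .nil)))))) (.nd (nat_lit 7) (.nd (nat_lit 8) (.nd (nat_lit 9) 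
(.lf (nat_lit 550013) (.g (nat_lit 3705) (.e (nat_lit 417820) (nat_lit 10) (.e (nat_lit 5626) (nat_lit 312) (.e (nat_lit 2668) (nat_lit 167) (.e (nat_lit 196672) (nat_lit 15) (.e (nat_lit 81956) (nat_lit 23) (.e (nat_lit 98353) (nat_lit 25) .nil)))))) (.g (nat_lit 1) (.e (nat_lit 294884) (nat_lit 0) .nil) .nil))) 
(.lf (nat_lit 550525) (.g (nat_lit 2965) (.e (nat_lit 426098) (nat_lit 1) (.e (nat_lit 164327) (nat_lit 230) (.e (nat_lit 163873) (nat_lit 3) (.e (nat_lit 204813) (nat_lit 9) (.e (nat_lit 426200) (nat_lit 9) (.e (nat_lit 426478) (nat_lit 27) (.e (nat_lit 336388) (nat_lit 27) .nil))))))) (.g (nat_lit 1) (.e (nat_lit 295881) (nat_lit 0) .nil) .nil)))) (.nd (nat_lit 9) 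
(.lf (nat_lit 550269) (.g (nat_lit 4883) (.e (nat_lit 426032) (nat_lit 0) (.e (nat_lit 3262) (nat_lit 198) (.e (nat_lit 540706) (nat_lit 12) (.e (nat_lit 360474) (nat_lit 8) (.e (nat_lit 557093) (nat_lit 12) (.e (nat_lit 164022) (nat_lit 46) (.e (nat_lit 704629) (nat_lit 9) (.e (nat_lit 375) (nat_lit 32) .nil)))))))) (.g (nat_lit 1) (.e (nat_lit 295367) (nat_lit 0) .nil) .nil))) 
(.lf (nat_lit 550781) (.g (nat_lit 1743) (.e (nat_lit 426100) (nat_lit 1) (.e (nat_lit 164329) (nat_lit 230) (.e (nat_lit 163843) (nat_lit 0) (.e (nat_lit 3617) (nat_lit 227) (.e (nat_lit 778462) (nat_lit 11) .nil))))) (.g (nat_lit 0) (.e (nat_lit 296226) (nat_lit 0) .nil) .nil))))) (.nd (nat_lit 8) (.nd (nat_lit 9) 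
(.lf (nat_lit 550141) (.g (nat_lit 2904) (.e (nat_lit 426010) (nat_lit 0) (.e (nat_lit 7583) (nat_lit 405) (.e (nat_lit 57464) (nat_lit 23) (.e (nat_lit 516166) (nat_lit 12) (.e (nat_lit 450587) (nat_lit 10) (.e (nat_lit 573456) (nat_lit 9) (.e (nat_lit 430) (nat_lit 32) .nil))))))) (.g (nat_lit 1) (.e (nat_lit 295195) (nat_lit 0) .nil) .nil))) 
(.lf (nat_lit 550653) (.g (nat_lit 1991) (.e (nat_lit 426098) (nat_lit 1) (.e (nat_lit 164403) (nat_lit 256) (.e (nat_lit 57406) (nat_lit 12) (.e (nat_lit 336432) (nat_lit 30) (.e (nat_lit 450579) (nat_lit 5) .nil))))) (.g (nat_lit 0) (.e (nat_lit 296070) (nat_lit 0) .nil) .nil)))) (.nd (nat_lit 9) 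
(.lf (nat_lit 550397) (.g (nat_lit 3654) (.e (nat_lit 426098) (nat_lit 1) (.e (nat_lit 164325) (nat_lit 230) (.e (nat_lit 163871) (nat_lit 2) (.e (nat_lit 196654) (nat_lit 11) (.e (nat_lit 16463) (nat_lit 13) (.e (nat_lit 483337) (nat_lit 9) .nil)))))) (.g (nat_lit 1) (.e (nat_lit 295696) (nat_lit 0) .nil) .nil))) 
(.lf (nat_lit 550909) (.g (nat_lit 2247) (.e (nat_lit 426100) (nat_lit 1) (.e (nat_lit 164399) (nat_lit 256) (.e (nat_lit 57407) (nat_lit 12) (.e (nat_lit 336443) (nat_lit 32) (.e (nat_lit 466978) (nat_lit 23) .nil))))) (.g (nat_lit 0) (.e (nat_lit 296447) (nat_lit 0) .nil) .nil))))))))))) 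
(.nd (nat_lit 2) (.nd (nat_lit 3) (.nd (nat_lit 4) (.nd (nat_lit 5) (.nd (nat_lit 6) 
(.nd (nat_lit 7) (.nd (nat_lit 8) (.nd (nat_lit 9) 
(.lf (nat_lit 549891) (.g (nat_lit 1492) (.e (nat_lit 417536) (nat_lit 18) (.e (nat_lit 303119) (nat_lit 3) (.e (nat_lit 204862) (nat_lit 27) (.e (nat_lit 352000) (nat_lit 8) .nil)))) (.g (nat_lit 0) (.e (nat_lit 294569) (nat_lit 0) .nil) .nil))) 
(.lf (nat_lit 550403) (.g (nat_lit 3724) (.e (nat_lit 426098) (nat_lit 1) (.e (nat_lit 164325) (nat_lit 230) (.e (nat_lit 163871) (nat_lit 2) (.e (nat_lit 196656) (nat_lit 11) (.e (nat_lit 16465) (nat_lit 13) (.e (nat_lit 483341) (nat_lit 9) .nil)))))) (.g (nat_lit 1) (.e (nat_lit 295703) (nat_lit 0) .nil) .nil)))) (.nd (nat_lit 9) 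
(.lf (nat_lit 550147) (.g (nat_lit 1395) (.e (nat_lit 426010) (nat_lit 0) (.e (nat_lit 7593) (nat_lit 407) (.e (nat_lit 73775) (nat_lit 26) (.e (nat_lit 778466) (nat_lit 11) (.e (nat_lit 24632) (nat_lit 9) .nil))))) (.g (nat_lit 0) (.e (nat_lit 295201) (nat_lit 0) .nil) .nil))) 
(.lf (nat_lit 550659) (.g (nat_lit 1604) (.e (nat_lit 426099) (nat_lit 1) (.e (nat_lit 164182) (nat_lit 154) (.e (nat_lit 57409) (nat_lit 12) (.e (nat_lit 336324) (nat_lit 18) .nil)))) (.g (nat_lit 0) (.e (nat_lit 296077) (nat_lit 0) .nil) .nil))))) (.nd (nat_lit 8) (.nd (nat_lit 9) 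
(.lf (nat_lit 550019) (.g (nat_lit 2042) (.e (nat_lit 417828) (nat_lit 18) (.e (nat_lit 303119) (nat_lit 3) (.e (nat_lit 204855) (nat_lit 26) (.e (nat_lit 336189) (nat_lit 11) .nil)))) (.g (nat_lit 0) (.e (nat_lit 294928) (nat_lit 0) .nil) .nil))) 
(.lf (nat_lit 550531) (.g (nat_lit 2877) (.e (nat_lit 426098) (nat_lit 1) (.e (nat_lit 164327) (nat_lit 230) (.e (nat_lit 163873) (nat_lit 3) (.e (nat_lit 204813) (nat_lit 9) (.e (nat_lit 426200) (nat_lit 9) (.e (nat_lit 426491) (nat_lit 27) (.e (nat_lit 336406) (nat_lit 27) .nil))))))) (.g (nat_lit 1) (.e (nat_lit 295893) (nat_lit 0) .nil) .nil)))) (.nd (nat_lit 9) 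
(.lf (nat_lit 550275) (.g (nat_lit 2443) (.e (nat_lit 426032) (nat_lit 0) (.e (nat_lit 3262) (nat_lit 198) (.e (nat_lit 540706) (nat_lit 12) (.e (nat_lit 360475) (nat_lit 8) (.e (nat_lit 557090) (nat_lit 12) (.e (nat_lit 164020) (nat_lit 45) (.e (nat_lit 696329) (nat_lit 5) (.e (nat_lit 2879) (nat_lit 184) .nil)))))))) (.g (nat_lit 1) (.e (nat_lit 295373) (nat_lit 0) .nil) .nil))) 
(.lf (nat_lit 550787) (.g (nat_lit 1955) (.e (nat_lit 426100) (nat_lit 1) (.e (nat_lit 164330) (nat_lit 230) (.e (nat_lit 163878) (nat_lit 4) (.e (nat_lit 213032) (nat_lit 11) (.e (nat_lit 24660) (nat_lit 13) .nil))))) (.g (nat_lit 0) (.e (nat_lit 296247) (nat_lit 0) .nil) .nil)))))) (.nd (nat_lit 7) (.nd (nat_lit 8) (.nd (nat_lit 9) 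
(.lf (nat_lit 549955) (.g (nat_lit 2243) (.e (nat_lit 417813) (nat_lit 9) (.e (nat_lit 311315) (nat_lit 3) (.e (nat_lit 204846) (nat_lit 24) (.e (nat_lit 319533) (nat_lit 16) (.e (nat_lit 286724) (nat_lit 0) .nil))))) (.g (nat_lit 0) (.e (nat_lit 294796) (nat_lit 0) .nil) .nil))) 
(.lf (nat_lit 550467) (.g (nat_lit 2746) (.e (nat_lit 426098) (nat_lit 1) (.e (nat_lit 164327) (nat_lit 230) (.e (nat_lit 163868) (nat_lit 2) (.e (nat_lit 196656) (nat_lit 11) (.e (nat_lit 16432) (nat_lit 9) (.e (nat_lit 426487) (nat_lit 27) (.e (nat_lit 336407) (nat_lit 27) .nil))))))) (.g (nat_lit 1) (.e (nat_lit 295807) (nat_lit 0) .nil) .nil)))) (.nd (nat_lit 9) 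
(.lf (nat_lit 550211) (.g (nat_lit 3483) (.e (nat_lit 426012) (nat_lit 0) (.e (nat_lit 7589) (nat_lit 406) (.e (nat_lit 65653) (nat_lit 27) (.e (nat_lit 426344) (nat_lit 14) (.e (nat_lit 491556) (nat_lit 9) (.e (nat_lit 336390) (nat_lit 27) .nil)))))) (.g (nat_lit 1) (.e (nat_lit 295268) (nat_lit 0) .nil) .nil))) 
(.lf (nat_lit 550723) (.g (nat_lit 1564) (.e (nat_lit 426099) (nat_lit 1) (.e (nat_lit 164398) (nat_lit 256) (.e (nat_lit 57409) (nat_lit 12) (.e (nat_lit 336430) (nat_lit 29) (.e (nat_lit 442427) (nat_lit 23) .nil))))) (.g (nat_lit 0) (.e (nat_lit 296161) (nat_lit 0) .nil) .nil))))) (.nd (nat_lit 8) (.nd (nat_lit 9) 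
(.lf (nat_lit 550083) (.g (nat_lit 1341) (.e (nat_lit 425986) (nat_lit 0) (.e (nat_lit 3471) (nat_lit 217) (.e (nat_lit 696343) (nat_lit 8) (.e (nat_lit 172123) (nat_lit 13) (.e (nat_lit 483410) (nat_lit 27) .nil))))) (.g (nat_lit 0) (.e (nat_lit 295120) (nat_lit 0) .nil) .nil))) 
(.lf (nat_lit 550595) (.g (nat_lit 1320) (.e (nat_lit 426098) (nat_lit 1) (.e (nat_lit 164398) (nat_lit 256) (.e (nat_lit 57409) (nat_lit 12) (.e (nat_lit 336426) (nat_lit 29) .nil)))) (.g (nat_lit 0) (.e (nat_lit 296012) (nat_lit 0) .nil) .nil)))) (.nd (nat_lit 9) 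
(.lf (nat_lit 550339) (.g (nat_lit 1878) (.e (nat_lit 426097) (nat_lit 1) (.e (nat_lit 164327) (nat_lit 230) (.e (nat_lit 163882) (nat_lit 4) (.e (nat_lit 213032) (nat_lit 11) (.e (nat_lit 24659) (nat_lit 13) .nil))))) (.g (nat_lit 0) (.e (nat_lit 295550) (nat_lit 0) .nil) .nil))) 
(.lf (nat_lit 550851) (.g (nat_lit 2806) (.e (nat_lit 426100) (nat_lit 1) (.e (nat_lit 164398) (nat_lit 256) (.e (nat_lit 57377) (nat_lit 3) (.e (nat_lit 98365) (nat_lit 26) (.e (nat_lit 426327) (nat_lit 13) (.e (nat_lit 483341) (nat_lit 9) .nil)))))) (.g (nat_lit 1) (.e (nat_lit 296388) (nat_lit 0) .nil) .nil))))))) (.nd (nat_lit 6) (.nd (nat_lit 7) (.nd (nat_lit 8) (.nd (nat_lit 9) 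
(.lf (nat_lit 549923) (.g (nat_lit 481) (.e (nat_lit 409640) (nat_lit 17) (.e (nat_lit 294928) (nat_lit 2) (.e (nat_lit 90181) (nat_lit 16) .nil))) (.g (nat_lit 0) (.e (nat_lit 294727) (nat_lit 0) .nil) .nil))) 
(.lf (nat_lit 550435) (.g (nat_lit 2940) (.e (nat_lit 426098) (nat_lit 1) (.e (nat_lit 164325) (nat_lit 230) (.e (nat_lit 163873) (nat_lit 3) (.e (nat_lit 204813) (nat_lit 9) (.e (nat_lit 426200) (nat_lit 9) (.e (nat_lit 426480) (nat_lit 27) (.e (nat_lit 336385) (nat_lit 27) .nil))))))) (.g (nat_lit 1) (.e (nat_lit 295742) (nat_lit 0) .nil) .nil)))) (.nd (nat_lit 9) 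
(.lf (nat_lit 550179) (.g (nat_lit 3817) (.e (nat_lit 426011) (nat_lit 0) (.e (nat_lit 7581) (nat_lit 405) (.e (nat_lit 57464) (nat_lit 23) (.e (nat_lit 516165) (nat_lit 12) (.e (nat_lit 450586) (nat_lit 10) (.e (nat_lit 573452) (nat_lit 9) (.e (nat_lit 430) (nat_lit 32) .nil))))))) (.g (nat_lit 1) (.e (nat_lit 295233) (nat_lit 0) .nil) .nil))) 
(.lf (nat_lit 550691) (.g (nat_lit 2307) (.e (nat_lit 426099) (nat_lit 1) (.e (nat_lit 164332) (nat_lit 230) (.e (nat_lit 163878) (nat_lit 4) (.e (nat_lit 213032) (nat_lit 11) (.e (nat_lit 24660) (nat_lit 13) (.e (nat_lit 393281) (nat_lit 23) .nil)))))) (.g (nat_lit 1) (.e (nat_lit 296129) (nat_lit 0) .nil) .nil))))) (.nd (nat_lit 8) (.nd (nat_lit 9) 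
(.lf (nat_lit 550051) (.g (nat_lit 3211) (.e (nat_lit 417829) (nat_lit 18) (.e (nat_lit 303119) (nat_lit 3) (.e (nat_lit 204869) (nat_lit 29) (.e (nat_lit 360465) (nat_lit 3) .nil)))) (.g (nat_lit 0) (.e (nat_lit 294999) (nat_lit 0) .nil) .nil))) 
(.lf (nat_lit 550563) (.g (nat_lit 2897) (.e (nat_lit 426098) (nat_lit 1) (.e (nat_lit 164327) (nat_lit 230) (.e (nat_lit 163882) (nat_lit 4) (.e (nat_lit 213030) (nat_lit 11) (.e (nat_lit 24658) (nat_lit 13) (.e (nat_lit 393281) (nat_lit 23) .nil)))))) (.g (nat_lit 1) (.e (nat_lit 295949) (nat_lit 0) .nil) .nil)))) (.nd (nat_lit 9) 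
(.lf (nat_lit 550307) (.g (nat_lit 3323) (.e (nat_lit 426071) (nat_lit 0) (.e (nat_lit 3249) (nat_lit 197) (.e (nat_lit 532550) (nat_lit 12) (.e (nat_lit 360475) (nat_lit 8) (.e (nat_lit 557091) (nat_lit 12) (.e (nat_lit 171776) (nat_lit 48) (.e (nat_lit 720907) (nat_lit 11) .nil))))))) (.g (nat_lit 1) (.e (nat_lit 295453) (nat_lit 0) .nil) .nil))) 
(.lf (nat_lit 550819) (.g (nat_lit 2770) (.e (nat_lit 426100) (nat_lit 1) (.e (nat_lit 164332) (nat_lit 230) (.e (nat_lit 163873) (nat_lit 3) (.e (nat_lit 204813) (nat_lit 9) (.e (nat_lit 426199) (nat_lit 9) .nil))))) (.g (nat_lit 0) (.e (nat_lit 296342) (nat_lit 0) .nil) .nil)))))) (.nd (nat_lit 7) (.nd (nat_lit 8) (.nd (nat_lit 9) 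
(.lf (nat_lit 549987) (.g (nat_lit 4446) (.e (nat_lit 417811) (nat_lit 6) (.e (nat_lit 286732) (nat_lit 2) (.e (nat_lit 90170) (nat_lit 13) (.e (nat_lit 172106) (nat_lit 10) (.e (nat_lit 434244) (nat_lit 28) (.e (nat_lit 573451) (nat_lit 9) (.e (nat_lit 365) (nat_lit 31) .nil))))))) (.g (nat_lit 1) (.e (nat_lit 294839) (nat_lit 0) .nil) .nil))) 
(.lf (nat_lit 550499) (.g (nat_lit 3440) (.e (nat_lit 426098) (nat_lit 1) (.e (nat_lit 164327) (nat_lit 230) (.e (nat_lit 163871) (nat_lit 2) (.e (nat_lit 196656) (nat_lit 11) (.e (nat_lit 16438) (nat_lit 9) (.e (nat_lit 426482) (nat_lit 27) (.e (nat_lit 336385) (nat_lit 27) .nil))))))) (.g (nat_lit 1) (.e (nat_lit 295848) (nat_lit 0) .nil) .nil)))) (.nd (nat_lit 9) 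
(.lf (nat_lit 550243) (.g (nat_lit 4705) (.e (nat_lit 426025) (nat_lit 0) (.e (nat_lit 3399) (nat_lit 211) (.e (nat_lit 647181) (nat_lit 3) (.e (nat_lit 163979) (nat_lit 30) (.e (nat_lit 573492) (nat_lit 15) (.e (nat_lit 81956) (nat_lit 23) (.e (nat_lit 106240) (nat_lit 26) .nil))))))) (.g (nat_lit 1) (.e (nat_lit 295330) (nat_lit 0) .nil) .nil))) 
(.lf (nat_lit 550755) (.g (nat_lit 1784) (.e (nat_lit 426099) (nat_lit 1) (.e (nat_lit 164399) (nat_lit 256) (.e (nat_lit 57378) (nat_lit 3) (.e (nat_lit 98369) (nat_lit 28) (.e (nat_lit 442390) (nat_lit 11) .nil))))) (.g (nat_lit 0) (.e (nat_lit 296193) (nat_lit 0) .nil) .nil))))) (.nd (nat_lit 8) (.nd (nat_lit 9) 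
(.lf (nat_lit 550115) (.g (nat_lit 3010) (.e (nat_lit 426010) (nat_lit 0) (.e (nat_lit 7486) (nat_lit 402) (.e (nat_lit 1256) (nat_lit 92) (.e (nat_lit 98373) (nat_lit 29) (.e (nat_lit 450588) (nat_lit 10) (.e (nat_lit 573457) (nat_lit 9) (.e (nat_lit 430) (nat_lit 32) .nil))))))) (.g (nat_lit 1) (.e (nat_lit 295169) (nat_lit 0) .nil) .nil))) 
(.lf (nat_lit 550627) (.g (nat_lit 1911) (.e (nat_lit 426098) (nat_lit 1) (.e (nat_lit 164399) (nat_lit 256) (.e (nat_lit 57379) (nat_lit 3) (.e (nat_lit 98365) (nat_lit 26) (.e (nat_lit 426334) (nat_lit 13) .nil))))) (.g (nat_lit 0) (.e (nat_lit 296044) (nat_lit 0) .nil) .nil)))) (.nd (nat_lit 9) 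
(.lf (nat_lit 550371) (.g (nat_lit 1371) (.e (nat_lit 426098) (nat_lit 1) (.e (nat_lit 164183) (nat_lit 154) (.e (nat_lit 57411) (nat_lit 12) (.e (nat_lit 336240) (nat_lit 15) .nil)))) (.g (nat_lit 0) (.e (nat_lit 295611) (nat_lit 0) .nil) .nil))) 
(.lf (nat_lit 550883) (.g (nat_lit 539) (.e (nat_lit 426100) (nat_lit 1) (.e (nat_lit 164399) (nat_lit 256) (.e (nat_lit 57376) (nat_lit 3) .nil))) (.g (nat_lit 0) (.e (nat_lit 296421) (nat_lit 0) .nil) .nil)))))))) (.nd (nat_lit 5) (.nd (nat_lit 6) (.nd (nat_lit 7) (.nd (nat_lit 8) (.nd (nat_lit 9) 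
(.lf (nat_lit 549907) (.g (nat_lit 1584) (.e (nat_lit 417536) (nat_lit 18) (.e (nat_lit 303119) (nat_lit 3) (.e (nat_lit 204877) (nat_lit 31) (.e (nat_lit 376863) (nat_lit 22) (.e (nat_lit 90130) (nat_lit 9) .nil))))) (.g (nat_lit 0) (.e (nat_lit 294600) (nat_lit 0) .nil) .nil))) 
(.lf (nat_lit 550419) (.g (nat_lit 2913) (.e (nat_lit 426098) (nat_lit 1) (.e (nat_lit 164325) (nat_lit 230) (.e (nat_lit 163873) (nat_lit 3) (.e (nat_lit 204813) (nat_lit 9) (.e (nat_lit 426198) (nat_lit 9) (.e (nat_lit 426489) (nat_lit 27) (.e (nat_lit 336406) (nat_lit 27) .nil))))))) (.g (nat_lit 1) (.e (nat_lit 295725) (nat_lit 0) .nil) .nil)))) (.nd (nat_lit 9) 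
(.lf (nat_lit 550163) (.g (nat_lit 3430) (.e (nat_lit 426011) (nat_lit 0) (.e (nat_lit 7490) (nat_lit 402) (.e (nat_lit 1256) (nat_lit 92) (.e (nat_lit 98373) (nat_lit 29) (.e (nat_lit 450587) (nat_lit 10) (.e (nat_lit 573454) (nat_lit 9) (.e (nat_lit 397) (nat_lit 32) .nil))))))) (.g (nat_lit 1) (.e (nat_lit 295217) (nat_lit 0) .nil) .nil))) 
(.lf (nat_lit 550675) (.g (nat_lit 2027) (.e (nat_lit 426099) (nat_lit 1) (.e (nat_lit 164332) (nat_lit 230) (.e (nat_lit 163869) (nat_lit 2) (.e (nat_lit 196653) (nat_lit 11) .nil)))) (.g (nat_lit 0) (.e (nat_lit 296107) (nat_lit 0) .nil) .nil))))) (.nd (nat_lit 8) (.nd (nat_lit 9) 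
(.lf (nat_lit 550035) (.g (nat_lit 3020) (.e (nat_lit 417828) (nat_lit 18) (.e (nat_lit 303145) (nat_lit 13) (.e (nat_lit 483346) (nat_lit 17) (.e (nat_lit 979) (nat_lit 81) .nil)))) (.g (nat_lit 0) (.e (nat_lit 294949) (nat_lit 0) .nil) .nil))) 
(.lf (nat_lit 550547) (.g (nat_lit 2673) (.e (nat_lit 426098) (nat_lit 1) (.e (nat_lit 164327) (nat_lit 230) (.e (nat_lit 163875) (nat_lit 3) (.e (nat_lit 204813) (nat_lit 9) (.e (nat_lit 426200) (nat_lit 9) (.e (nat_lit 426478) (nat_lit 27) (.e (nat_lit 336388) (nat_lit 27) .nil))))))) (.g (nat_lit 1) (.e (nat_lit 295920) (nat_lit 0) .nil) .nil)))) (.nd (nat_lit 9) 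
(.lf (nat_lit 550291) (.g (nat_lit 4121) (.e (nat_lit 426043) (nat_lit 0) (.e (nat_lit 2422) (nat_lit 157) (.e (nat_lit 4849) (nat_lit 285) (.e (nat_lit 163869) (nat_lit 2) (.e (nat_lit 196666) (nat_lit 13) (.e (nat_lit 65610) (nat_lit 10) (.e (nat_lit 344117) (nat_lit 21) (.e (nat_lit 516151) (nat_lit 9) .nil)))))))) (.g (nat_lit 1) (.e (nat_lit 295417) (nat_lit 0) .nil) .nil))) 
(.lf (nat_lit 550803) (.g (nat_lit 1063) (.e (nat_lit 426100) (nat_lit 1) (.e (nat_lit 164332) (nat_lit 230) (.e (nat_lit 163869) (nat_lit 2) (.e (nat_lit 196654) (nat_lit 11) .nil)))) (.g (nat_lit 0) (.e (nat_lit 296313) (nat_lit 0) .nil) .nil)))))) (.nd (nat_lit 7) (.nd (nat_lit 8) (.nd (nat_lit 9) 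
(.lf (nat_lit 549971) (.g (nat_lit 1199) (.e (nat_lit 417810) (nat_lit 6) (.e (nat_lit 286733) (nat_lit 2) (.e (nat_lit 90125) (nat_lit 9) (.e (nat_lit 2936) (nat_lit 184) .nil)))) (.g (nat_lit 0) (.e (nat_lit 294821) (nat_lit 0) .nil) .nil))) 
(.lf (nat_lit 550483) (.g (nat_lit 2839) (.e (nat_lit 426098) (nat_lit 1) (.e (nat_lit 164327) (nat_lit 230) (.e (nat_lit 163871) (nat_lit 2) (.e (nat_lit 196654) (nat_lit 11) (.e (nat_lit 16436) (nat_lit 9) (.e (nat_lit 426491) (nat_lit 27) (.e (nat_lit 336407) (nat_lit 27) .nil))))))) (.g (nat_lit 1) (.e (nat_lit 295829) (nat_lit 0) .nil) .nil)))) (.nd (nat_lit 9) 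
(.lf (nat_lit 550227) (.g (nat_lit 5336) (.e (nat_lit 426025) (nat_lit 0) (.e (nat_lit 3397) (nat_lit 211) (.e (nat_lit 647181) (nat_lit 3) (.e (nat_lit 163979) (nat_lit 30) (.e (nat_lit 573492) (nat_lit 15) (.e (nat_lit 81956) (nat_lit 23) (.e (nat_lit 98360) (nat_lit 26) .nil))))))) (.g (nat_lit 1) (.e (nat_lit 295303) (nat_lit 0) .nil) .nil))) 
(.lf (nat_lit 550739) (.g (nat_lit 1672) (.e (nat_lit 426099) (nat_lit 1) (.e (nat_lit 164399) (nat_lit 256) (.e (nat_lit 57375) (nat_lit 2) (.e (nat_lit 90169) (nat_lit 13) .nil)))) (.g (nat_lit 0) (.e (nat_lit 296177) (nat_lit 0) .nil) .nil))))) (.nd (nat_lit 8) (.nd (nat_lit 9) 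
(.lf (nat_lit 550099) (.g (nat_lit 1498) (.e (nat_lit 426003) (nat_lit 0) (.e (nat_lit 7593) (nat_lit 407) (.e (nat_lit 73775) (nat_lit 26) (.e (nat_lit 778466) (nat_lit 11) (.e (nat_lit 24638) (nat_lit 9) .nil))))) (.g (nat_lit 0) (.e (nat_lit 295147) (nat_lit 0) .nil) .nil))) 
(.lf (nat_lit 550611) (.g (nat_lit 1681) (.e (nat_lit 426098) (nat_lit 1) (.e (nat_lit 164399) (nat_lit 256) (.e (nat_lit 57377) (nat_lit 3) (.e (nat_lit 98355) (nat_lit 26) .nil)))) (.g (nat_lit 0) (.e (nat_lit 296028) (nat_lit 0) .nil) .nil)))) (.nd (nat_lit 9) 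
(.lf (nat_lit 550355) (.g (nat_lit 1999) (.e (nat_lit 426098) (nat_lit 1) (.e (nat_lit 164179) (nat_lit 154) (.e (nat_lit 57411) (nat_lit 12) (.e (nat_lit 336318) (nat_lit 17) .nil)))) (.g (nat_lit 0) (.e (nat_lit 295588) (nat_lit 0) .nil) .nil))) 
(.lf (nat_lit 550867) (.g (nat_lit 1944) (.e (nat_lit 426100) (nat_lit 1) (.e (nat_lit 164398) (nat_lit 256) (.e (nat_lit 57407) (nat_lit 12) (.e (nat_lit 336426) (nat_lit 29) (.e (nat_lit 442426) (nat_lit 23) .nil))))) (.g (nat_lit 0) (.e (nat_lit 296404) (nat_lit 0) .nil) .nil))))))) (.nd (nat_lit 6) (.nd (nat_lit 7) (.nd (nat_lit 8) (.nd (nat_lit 9) 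
(.lf (nat_lit 549939) (.g (nat_lit 3963) (.e (nat_lit 417794) (nat_lit 0) (.e (nat_lit 5271) (nat_lit 298) (.e (nat_lit 1239) (nat_lit 91) (.e (nat_lit 90170) (nat_lit 13) (.e (nat_lit 172113) (nat_lit 10) (.e (nat_lit 434248) (nat_lit 28) (.e (nat_lit 573452) (nat_lit 9) (.e (nat_lit 365) (nat_lit 31) .nil)))))))) (.g (nat_lit 1) (.e (nat_lit 294770) (nat_lit 0) .nil) .nil))) 
(.lf (nat_lit 550451) (.g (nat_lit 1499) (.e (nat_lit 426098) (nat_lit 1) (.e (nat_lit 164325) (nat_lit 230) (.e (nat_lit 163875) (nat_lit 3) (.e (nat_lit 204813) (nat_lit 9) (.e (nat_lit 426200) (nat_lit 9) .nil))))) (.g (nat_lit 0) (.e (nat_lit 295775) (nat_lit 0) .nil) .nil)))) (.nd (nat_lit 9) 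
(.lf (nat_lit 550195) (.g (nat_lit 908) (.e (nat_lit 426011) (nat_lit 0) (.e (nat_lit 7593) (nat_lit 407) (.e (nat_lit 73775) (nat_lit 26) (.e (nat_lit 778466) (nat_lit 11) .nil)))) (.g (nat_lit 0) (.e (nat_lit 295251) (nat_lit 0) .nil) .nil))) 
(.lf (nat_lit 550707) (.g (nat_lit 1146) (.e (nat_lit 426099) (nat_lit 1) (.e (nat_lit 164398) (nat_lit 256) (.e (nat_lit 57373) (nat_lit 2) (.e (nat_lit 90178) (nat_lit 15) .nil)))) (.g (nat_lit 0) (.e (nat_lit 296145) (nat_lit 0) .nil) .nil))))) (.nd (nat_lit 8) (.nd (nat_lit 9) 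
(.lf (nat_lit 550067) (.g (nat_lit 2549) (.e (nat_lit 417830) (nat_lit 19) (.e (nat_lit 311312) (nat_lit 2) (.e (nat_lit 196672) (nat_lit 15) (.e (nat_lit 81956) (nat_lit 23) (.e (nat_lit 98352) (nat_lit 25) .nil))))) (.g (nat_lit 0) (.e (nat_lit 295040) (nat_lit 0) .nil) .nil))) 
(.lf (nat_lit 550579) (.g (nat_lit 1978) (.e (nat_lit 426098) (nat_lit 1) (.e (nat_lit 164348) (nat_lit 240) (.e (nat_lit 2610) (nat_lit 163) (.e (nat_lit 163977) (nat_lit 30) (.e (nat_lit 573482) (nat_lit 13) .nil))))) (.g (nat_lit 0) (.e (nat_lit 295984) (nat_lit 0) .nil) .nil)))) (.nd (nat_lit 9) 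
(.lf (nat_lit 550323) (.g (nat_lit 2882) (.e (nat_lit 426093) (nat_lit 0) (.e (nat_lit 3238) (nat_lit 197) (.e (nat_lit 532569) (nat_lit 16) (.e (nat_lit 401448) (nat_lit 10) (.e (nat_lit 434246) (nat_lit 28) .nil))))) (.g (nat_lit 0) (.e (nat_lit 295486) (nat_lit 0) .nil) .nil))) 
(.lf (nat_lit 550835) (.g (nat_lit 1938) (.e (nat_lit 426100) (nat_lit 1) (.e (nat_lit 164397) (nat_lit 256) (.e (nat_lit 57379) (nat_lit 3) (.e (nat_lit 98365) (nat_lit 26) (.e (nat_lit 426326) (nat_lit 13) .nil))))) (.g (nat_lit 0) (.e (nat_lit 296372) (nat_lit 0) .nil) .nil)))))) (.nd (nat_lit 7) (.nd (nat_lit 8) (.nd (nat_lit 9) 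
(.lf (nat_lit 550003) (.g (nat_lit 2929) (.e (nat_lit 417811) (nat_lit 6) (.e (nat_lit 286740) (nat_lit 7) (.e (nat_lit 319534) (nat_lit 16) (.e (nat_lit 286756) (nat_lit 10) (.e (nat_lit 344160) (nat_lit 37) (.e (nat_lit 647195) (nat_lit 9) (.e (nat_lit 7936) (nat_lit 31) .nil))))))) (.g (nat_lit 1) (.e (nat_lit 294857) (nat_lit 0) .nil) .nil))) 
(.lf (nat_lit 550515) (.g (nat_lit 2910) (.e (nat_lit 426098) (nat_lit 1) (.e (nat_lit 164327) (nat_lit 230) (.e (nat_lit 163873) (nat_lit 3) (.e (nat_lit 204813) (nat_lit 9) (.e (nat_lit 426199) (nat_lit 9) .nil))))) (.g (nat_lit 0) (.e (nat_lit 295870) (nat_lit 0) .nil) .nil)))) (.nd (nat_lit 9) 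
(.lf (nat_lit 550259) (.g (nat_lit 3984) (.e (nat_lit 426023) (nat_lit 0) (.e (nat_lit 3401) (nat_lit 211) (.e (nat_lit 647181) (nat_lit 3) (.e (nat_lit 163977) (nat_lit 30) (.e (nat_lit 573482) (nat_lit 13) (.e (nat_lit 65604) (nat_lit 9) (.e (nat_lit 336028) (nat_lit 3) (.e (nat_lit 98359) (nat_lit 26) .nil)))))))) (.g (nat_lit 1) (.e (nat_lit 295356) (nat_lit 0) .nil) .nil))) 
(.lf (nat_lit 550771) (.g (nat_lit 1211) (.e (nat_lit 426099) (nat_lit 1) (.e (nat_lit 164399) (nat_lit 256) (.e (nat_lit 57408) (nat_lit 12) (.e (nat_lit 336443) (nat_lit 32) (.e (nat_lit 466981) (nat_lit 23) .nil))))) (.g (nat_lit 0) (.e (nat_lit 296209) (nat_lit 0) .nil) .nil))))) (.nd (nat_lit 8) (.nd (nat_lit 9) 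
(.lf (nat_lit 550131) (.g (nat_lit 3081) (.e (nat_lit 426010) (nat_lit 0) (.e (nat_lit 7581) (nat_lit 405) (.e (nat_lit 57464) (nat_lit 23) (.e (nat_lit 516166) (nat_lit 12) (.e (nat_lit 450587) (nat_lit 10) (.e (nat_lit 573456) (nat_lit 9) (.e (nat_lit 430) (nat_lit 32) .nil))))))) (.g (nat_lit 1) (.e (nat_lit 295185) (nat_lit 0) .nil) .nil))) 
(.lf (nat_lit 550643) (.g (nat_lit 1737) (.e (nat_lit 426098) (nat_lit 1) (.e (nat_lit 164403) (nat_lit 256) (.e (nat_lit 57373) (nat_lit 2) (.e (nat_lit 90176) (nat_lit 15) (.e (nat_lit 188423) (nat_lit 11) .nil))))) (.g (nat_lit 0) (.e (nat_lit 296060) (nat_lit 0) .nil) .nil)))) (.nd (nat_lit 9) 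
(.lf (nat_lit 550387) (.g (nat_lit 3793) (.e (nat_lit 426098) (nat_lit 1) (.e (nat_lit 164325) (nat_lit 230) (.e (nat_lit 163868) (nat_lit 2) (.e (nat_lit 196656) (nat_lit 11) (.e (nat_lit 16463) (nat_lit 13) (.e (nat_lit 483337) (nat_lit 9) .nil)))))) (.g (nat_lit 1) (.e (nat_lit 295675) (nat_lit 0) .nil) .nil))) 
(.lf (nat_lit 550899) (.g (nat_lit 1481) (.e (nat_lit 426100) (nat_lit 1) (.e (nat_lit 164399) (nat_lit 256) (.e (nat_lit 57379) (nat_lit 3) (.e (nat_lit 98354) (nat_lit 26) .nil)))) (.g (nat_lit 0) (.e (nat_lit 296437) (nat_lit 0) .nil) .nil))))))))) (.nd (nat_lit 4) (.nd (nat_lit 5) (.nd (nat_lit 6) (.nd (nat_lit 7) (.nd (nat_lit 8) (.nd (nat_lit 9) 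
(.lf (nat_lit 549899) (.g (nat_lit 2847) (.e (nat_lit 417536) (nat_lit 18) (.e (nat_lit 303119) (nat_lit 3) (.e (nat_lit 204869) (nat_lit 29) (.e (nat_lit 360466) (nat_lit 3) (.e (nat_lit 516139) (nat_lit 7) .nil))))) (.g (nat_lit 0) (.e (nat_lit 294589) (nat_lit 0) .nil) .nil))) 
(.lf (nat_lit 550411) (.g (nat_lit 4203) (.e (nat_lit 426098) (nat_lit 1) (.e (nat_lit 164325) (nat_lit 230) (.e (nat_lit 163873) (nat_lit 3) (.e (nat_lit 204813) (nat_lit 9) (.e (nat_lit 426197) (nat_lit 9) (.e (nat_lit 426478) (nat_lit 27) (.e (nat_lit 336389) (nat_lit 27) .nil))))))) (.g (nat_lit 1) (.e (nat_lit 295716) (nat_lit 0) .nil) .nil)))) (.nd (nat_lit 9) 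
(.lf (nat_lit 550155) (.g (nat_lit 2959) (.e (nat_lit 426011) (nat_lit 0) (.e (nat_lit 3548) (nat_lit 219) (.e (nat_lit 712754) (nat_lit 30) (.e (nat_lit 450588) (nat_lit 10) (.e (nat_lit 573473) (nat_lit 12) (.e (nat_lit 57508) (nat_lit 39) (.e (nat_lit 647195) (nat_lit 9) (.e (nat_lit 426) (nat_lit 32) .nil)))))))) (.g (nat_lit 1) (.e (nat_lit 295209) (nat_lit 0) .nil) .nil))) 
(.lf (nat_lit 550667) (.g (nat_lit 702) (.e (nat_lit 426099) (nat_lit 1) (.e (nat_lit 164330) (nat_lit 230) (.e (nat_lit 163869) (nat_lit 2) .nil))) (.g (nat_lit 0) (.e (nat_lit 296091) (nat_lit 0) .nil) .nil))))) (.nd (nat_lit 8) (.nd (nat_lit 9) 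
(.lf (nat_lit 550027) (.g (nat_lit 2061) (.e (nat_lit 417828) (nat_lit 18) (.e (nat_lit 303119) (nat_lit 3) (.e (nat_lit 204869) (nat_lit 29) (.e (nat_lit 368384) (nat_lit 3) .nil)))) (.g (nat_lit 0) (.e (nat_lit 294937) (nat_lit 0) .nil) .nil))) 
(.lf (nat_lit 550539) (.g (nat_lit 856) (.e (nat_lit 426098) (nat_lit 1) (.e (nat_lit 164327) (nat_lit 230) (.e (nat_lit 163875) (nat_lit 3) (.e (nat_lit 204813) (nat_lit 9) .nil)))) (.g (nat_lit 0) (.e (nat_lit 295912) (nat_lit 0) .nil) .nil)))) (.nd (nat_lit 9) 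
(.lf (nat_lit 550283) (.g (nat_lit 1465) (.e (nat_lit 426039) (nat_lit 0) (.e (nat_lit 3238) (nat_lit 197) (.e (nat_lit 532523) (nat_lit 7) (.e (nat_lit 327424) (nat_lit 16) .nil)))) (.g (nat_lit 0) (.e (nat_lit 295390) (nat_lit 0) .nil) .nil))) 
(.lf (nat_lit 550795) (.g (nat_lit 3658) (.e (nat_lit 426100) (nat_lit 1) (.e (nat_lit 164332) (nat_lit 230) (.e (nat_lit 163867) (nat_lit 2) (.e (nat_lit 196656) (nat_lit 11) (.e (nat_lit 16463) (nat_lit 13) (.e (nat_lit 483337) (nat_lit 9) .nil)))))) (.g (nat_lit 1) (.e (nat_lit 296276) (nat_lit 0) .nil) .nil)))))) (.nd (nat_lit 7) (.nd (nat_lit 8) (.nd (nat_lit 9) 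
(.lf (nat_lit 549963) (.g (nat_lit 1497) (.e (nat_lit 417809) (nat_lit 6) (.e (nat_lit 286743) (nat_lit 9) (.e (nat_lit 336426) (nat_lit 29) (.e (nat_lit 442430) (nat_lit 24) (.e (nat_lit 229677) (nat_lit 244) .nil))))) (.g (nat_lit 0) (.e (nat_lit 294805) (nat_lit 0) .nil) .nil))) 
(.lf (nat_lit 550475) (.g (nat_lit 2758) (.e (nat_lit 426098) (nat_lit 1) (.e (nat_lit 164327) (nat_lit 230) (.e (nat_lit 163868) (nat_lit 2) (.e (nat_lit 196656) (nat_lit 11) (.e (nat_lit 16436) (nat_lit 9) (.e (nat_lit 426509) (nat_lit 27) (.e (nat_lit 336412) (nat_lit 27) .nil))))))) (.g (nat_lit 1) (.e (nat_lit 295815) (nat_lit 0) .nil) .nil)))) (.nd (nat_lit 9) 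
(.lf (nat_lit 550219) (.g (nat_lit 2462) (.e (nat_lit 426020) (nat_lit 0) (.e (nat_lit 3262) (nat_lit 198) (.e (nat_lit 540706) (nat_lit 12) (.e (nat_lit 360475) (nat_lit 8) (.e (nat_lit 557090) (nat_lit 12) (.e (nat_lit 164020) (nat_lit 45) (.e (nat_lit 696329) (nat_lit 5) (.e (nat_lit 2884) (nat_lit 184) .nil)))))))) (.g (nat_lit 1) (.e (nat_lit 295277) (nat_lit 0) .nil) .nil))) 
(.lf (nat_lit 550731) (.g (nat_lit 1331) (.e (nat_lit 426099) (nat_lit 1) (.e (nat_lit 164399) (nat_lit 256) (.e (nat_lit 57372) (nat_lit 2) (.e (nat_lit 90169) (nat_lit 13) .nil)))) (.g (nat_lit 0) (.e (nat_lit 296169) (nat_lit 0) .nil) .nil))))) (.nd (nat_lit 8) (.nd (nat_lit 9) 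
(.lf (nat_lit 550091) (.g (nat_lit 1614) (.e (nat_lit 426003) (nat_lit 0) (.e (nat_lit 3238) (nat_lit 197) (.e (nat_lit 532482) (nat_lit 0) (.e (nat_lit 6722) (nat_lit 362) (.e (nat_lit 180252) (nat_lit 10) .nil))))) (.g (nat_lit 0) (.e (nat_lit 295134) (nat_lit 0) .nil) .nil))) 
(.lf (nat_lit 550603) (.g (nat_lit 1570) (.e (nat_lit 426098) (nat_lit 1) (.e (nat_lit 164399) (nat_lit 256) (.e (nat_lit 57372) (nat_lit 2) (.e (nat_lit 90176) (nat_lit 15) (.e (nat_lit 196352) (nat_lit 11) .nil))))) (.g (nat_lit 0) (.e (nat_lit 296020) (nat_lit 0) .nil) .nil)))) (.nd (nat_lit 9) 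
(.lf (nat_lit 550347) (.g (nat_lit 2491) (.e (nat_lit 426098) (nat_lit 1) (.e (nat_lit 164178) (nat_lit 154) (.e (nat_lit 57407) (nat_lit 12) (.e (nat_lit 336316) (nat_lit 17) (.e (nat_lit 196674) (nat_lit 15) .nil))))) (.g (nat_lit 0) (.e (nat_lit 295578) (nat_lit 0) .nil) .nil))) 
(.lf (nat_lit 550859) (.g (nat_lit 1864) (.e (nat_lit 426100) (nat_lit 1) (.e (nat_lit 164398) (nat_lit 256) (.e (nat_lit 57379) (nat_lit 3) (.e (nat_lit 98356) (nat_lit 26) (.e (nat_lit 426323) (nat_lit 13) .nil))))) (.g (nat_lit 0) (.e (nat_lit 296396) (nat_lit 0) .nil) .nil))))))) (.nd (nat_lit 6) (.nd (nat_lit 7) (.nd (nat_lit 8) (.nd (nat_lit 9) 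
(.lf (nat_lit 549931) (.g (nat_lit 2281) (.e (nat_lit 409642) (nat_lit 17) (.e (nat_lit 294974) (nat_lit 29) (.e (nat_lit 442395) (nat_lit 20) (.e (nat_lit 3397) (nat_lit 211) (.e (nat_lit 647183) (nat_lit 4) (.e (nat_lit 172082) (nat_lit 7) .nil)))))) (.g (nat_lit 1) (.e (nat_lit 294749) (nat_lit 0) .nil) .nil))) 
(.lf (nat_lit 550443) (.g (nat_lit 1909) (.e (nat_lit 426098) (nat_lit 1) (.e (nat_lit 164325) (nat_lit 230) (.e (nat_lit 163874) (nat_lit 3) (.e (nat_lit 204809) (nat_lit 9) .nil)))) (.g (nat_lit 0) (.e (nat_lit 295757) (nat_lit 0) .nil) .nil)))) (.nd (nat_lit 9) 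
(.lf (nat_lit 550187) (.g (nat_lit 4057) (.e (nat_lit 426011) (nat_lit 0) (.e (nat_lit 7581) (nat_lit 405) (.e (nat_lit 57464) (nat_lit 23) (.e (nat_lit 516166) (nat_lit 12) (.e (nat_lit 450588) (nat_lit 10) (.e (nat_lit 573454) (nat_lit 9) (.e (nat_lit 397) (nat_lit 32) .nil))))))) (.g (nat_lit 1) (.e (nat_lit 295241) (nat_lit 0) .nil) .nil))) 
(.lf (nat_lit 550699) (.g (nat_lit 1965) (.e (nat_lit 426099) (nat_lit 1) (.e (nat_lit 164332) (nat_lit 230) (.e (nat_lit 163880) (nat_lit 4) (.e (nat_lit 220928) (nat_lit 11) .nil)))) (.g (nat_lit 0) (.e (nat_lit 296137) (nat_lit 0) .nil) .nil))))) (.nd (nat_lit 8) (.nd (nat_lit 9) 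
(.lf (nat_lit 550059) (.g (nat_lit 2999) (.e (nat_lit 417829) (nat_lit 18) (.e (nat_lit 303145) (nat_lit 13) (.e (nat_lit 483346) (nat_lit 17) (.e (nat_lit 976) (nat_lit 81) .nil)))) (.g (nat_lit 0) (.e (nat_lit 295009) (nat_lit 0) .nil) .nil))) 
(.lf (nat_lit 550571) (.g (nat_lit 1252) (.e (nat_lit 426098) (nat_lit 1) (.e (nat_lit 164332) (nat_lit 230) (.e (nat_lit 163869) (nat_lit 2) (.e (nat_lit 196656) (nat_lit 11) .nil)))) (.g (nat_lit 0) (.e (nat_lit 295964) (nat_lit 0) .nil) .nil)))) (.nd (nat_lit 9) 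
(.lf (nat_lit 550315) (.g (nat_lit 2532) (.e (nat_lit 426074) (nat_lit 0) (.e (nat_lit 3249) (nat_lit 197) (.e (nat_lit 532550) (nat_lit 12) (.e (nat_lit 360474) (nat_lit 8) (.e (nat_lit 557093) (nat_lit 12) .nil))))) (.g (nat_lit 0) (.e (nat_lit 295473) (nat_lit 0) .nil) .nil))) 
(.lf (nat_lit 550827) (.g (nat_lit 2396) (.e (nat_lit 426100) (nat_lit 1) (.e (nat_lit 164332) (nat_lit 230) (.e (nat_lit 163874) (nat_lit 3) (.e (nat_lit 204813) (nat_lit 9) (.e (nat_lit 426200) (nat_lit 9) (.e (nat_lit 426481) (nat_lit 27) (.e (nat_lit 336388) (nat_lit 27) .nil))))))) (.g (nat_lit 1) (.e (nat_lit 296358) (nat_lit 0) .nil) .nil)))))) 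
(.nd (nat_lit 7) (.nd (nat_lit 8) (.nd (nat_lit 9) 
(.lf (nat_lit 549995) (.g (nat_lit 4083) (.e (nat_lit 417811) (nat_lit 6) (.e (nat_lit 286733) (nat_lit 2) (.e (nat_lit 90170) (nat_lit 13) (.e (nat_lit 172113) (nat_lit 10) (.e (nat_lit 434248) (nat_lit 28) (.e (nat_lit 573452) (nat_lit 9) (.e (nat_lit 365) (nat_lit 31) .nil))))))) (.g (nat_lit 1) (.e (nat_lit 294849) (nat_lit 0) .nil) .nil))) 
(.lf (nat_lit 550507) (.g (nat_lit 1676) (.e (nat_lit 426098) (nat_lit 1) (.e (nat_lit 164327) (nat_lit 230) (.e (nat_lit 163873) (nat_lit 3) (.e (nat_lit 204813) (nat_lit 9) (.e (nat_lit 426188) (nat_lit 9) .nil))))) (.g (nat_lit 0) (.e (nat_lit 295862) (nat_lit 0) .nil) .nil)))) (.nd (nat_lit 9) 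
(.lf (nat_lit 550251) (.g (nat_lit 1488) (.e (nat_lit 426025) (nat_lit 0) (.e (nat_lit 3399) (nat_lit 211) (.e (nat_lit 647183) (nat_lit 4) (.e (nat_lit 172126) (nat_lit 14) (.e (nat_lit 491569) (nat_lit 13) .nil))))) (.g (nat_lit 0) (.e (nat_lit 295340) (nat_lit 0) .nil) .nil))) 
(.lf (nat_lit 550763) (.g (nat_lit 1931) (.e (nat_lit 426099) (nat_lit 1) (.e (nat_lit 164399) (nat_lit 256) (.e (nat_lit 57379) (nat_lit 3) (.e (nat_lit 98370) (nat_lit 28) (.e (nat_lit 442390) (nat_lit 11) .nil))))) (.g (nat_lit 0) (.e (nat_lit 296201) (nat_lit 0) .nil) .nil))))) (.nd (nat_lit 8) (.nd (nat_lit 9) 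
(.lf (nat_lit 550123) (.g (nat_lit 3493) (.e (nat_lit 426010) (nat_lit 0) (.e (nat_lit 7490) (nat_lit 402) (.e (nat_lit 1256) (nat_lit 92) (.e (nat_lit 98373) (nat_lit 29) (.e (nat_lit 450588) (nat_lit 10) (.e (nat_lit 573452) (nat_lit 9) (.e (nat_lit 430) (nat_lit 32) .nil))))))) (.g (nat_lit 1) (.e (nat_lit 295177) (nat_lit 0) .nil) .nil))) 
(.lf (nat_lit 550635) (.g (nat_lit 1632) (.e (nat_lit 426098) (nat_lit 1) (.e (nat_lit 164399) (nat_lit 256) (.e (nat_lit 57411) (nat_lit 12) (.e (nat_lit 336434) (nat_lit 30) .nil)))) (.g (nat_lit 0) (.e (nat_lit 296052) (nat_lit 0) .nil) .nil)))) (.nd (nat_lit 9) 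
(.lf (nat_lit 550379) (.g (nat_lit 3658) (.e (nat_lit 426098) (nat_lit 1) (.e (nat_lit 164325) (nat_lit 230) (.e (nat_lit 163866) (nat_lit 2) (.e (nat_lit 196654) (nat_lit 11) (.e (nat_lit 16463) (nat_lit 13) (.e (nat_lit 483337) (nat_lit 9) .nil)))))) (.g (nat_lit 1) (.e (nat_lit 295656) (nat_lit 0) .nil) .nil))) 
(.lf (nat_lit 550891) (.g (nat_lit 1538) (.e (nat_lit 426100) (nat_lit 1) (.e (nat_lit 164399) (nat_lit 256) (.e (nat_lit 57377) (nat_lit 3) (.e (nat_lit 98380) (nat_lit 31) .nil)))) (.g (nat_lit 0) (.e (nat_lit 296429) (nat_lit 0) .nil) .nil)))))))) (.nd (nat_lit 5) (.nd (nat_lit 6) (.nd (nat_lit 7) (.nd (nat_lit 8) (.nd (nat_lit 9) 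
(.lf (nat_lit 549915) (.g (nat_lit 1580) (.e (nat_lit 409651) (nat_lit 19) (.e (nat_lit 311345) (nat_lit 14) (.e (nat_lit 491560) (nat_lit 10) (.e (nat_lit 344154) (nat_lit 35) (.e (nat_lit 630802) (nat_lit 8) .nil))))) (.g (nat_lit 0) (.e (nat_lit 294708) (nat_lit 0) .nil) .nil))) 
(.lf (nat_lit 550427) (.g (nat_lit 3950) (.e (nat_lit 426098) (nat_lit 1) (.e (nat_lit 164325) (nat_lit 230) (.e (nat_lit 163873) (nat_lit 3) (.e (nat_lit 204813) (nat_lit 9) (.e (nat_lit 426199) (nat_lit 9) (.e (nat_lit 426487) (nat_lit 27) (.e (nat_lit 336407) (nat_lit 27) .nil))))))) (.g (nat_lit 1) (.e (nat_lit 295733) (nat_lit 0) .nil) .nil)))) (.nd (nat_lit 9) 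
(.lf (nat_lit 550171) (.g (nat_lit 3082) (.e (nat_lit 426011) (nat_lit 0) (.e (nat_lit 7545) (nat_lit 402) (.e (nat_lit 1234) (nat_lit 91) (.e (nat_lit 90170) (nat_lit 13) (.e (nat_lit 172113) (nat_lit 10) (.e (nat_lit 434247) (nat_lit 28) (.e (nat_lit 573457) (nat_lit 9) (.e (nat_lit 430) (nat_lit 32) .nil)))))))) (.g (nat_lit 1) (.e (nat_lit 295225) (nat_lit 0) .nil) .nil))) 
(.lf (nat_lit 550683) (.g (nat_lit 4523) (.e (nat_lit 426099) (nat_lit 1) (.e (nat_lit 164332) (nat_lit 230) (.e (nat_lit 163869) (nat_lit 2) (.e (nat_lit 196656) (nat_lit 11) (.e (nat_lit 16463) (nat_lit 13) (.e (nat_lit 483341) (nat_lit 9) .nil)))))) (.g (nat_lit 1) (.e (nat_lit 296115) (nat_lit 0) .nil) .nil))))) (.nd (nat_lit 8) (.nd (nat_lit 9) 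
(.lf (nat_lit 550043) (.g (nat_lit 665) (.e (nat_lit 417829) (nat_lit 18) (.e (nat_lit 303117) (nat_lit 2) (.e (nat_lit 196674) (nat_lit 15) .nil))) (.g (nat_lit 0) (.e (nat_lit 294988) (nat_lit 0) .nil) .nil))) 
(.lf (nat_lit 550555) (.g (nat_lit 3002) (.e (nat_lit 426098) (nat_lit 1) (.e (nat_lit 164327) (nat_lit 230) (.e (nat_lit 163875) (nat_lit 3) (.e (nat_lit 204813) (nat_lit 9) (.e (nat_lit 426200) (nat_lit 9) (.e (nat_lit 426489) (nat_lit 27) (.e (nat_lit 336407) (nat_lit 27) .nil))))))) (.g (nat_lit 1) (.e (nat_lit 295935) (nat_lit 0) .nil) .nil)))) (.nd (nat_lit 9) 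
(.lf (nat_lit 550299) (.g (nat_lit 1650) (.e (nat_lit 426043) (nat_lit 0) (.e (nat_lit 3469) (nat_lit 217) (.e (nat_lit 696344) (nat_lit 8) (.e (nat_lit 172121) (nat_lit 13) .nil)))) (.g (nat_lit 0) (.e (nat_lit 295440) (nat_lit 0) .nil) .nil))) 
(.lf (nat_lit 550811) (.g (nat_lit 2350) (.e (nat_lit 426100) (nat_lit 1) (.e (nat_lit 164332) (nat_lit 230) (.e (nat_lit 163869) (nat_lit 2) (.e (nat_lit 196656) (nat_lit 11) (.e (nat_lit 16433) (nat_lit 9) (.e (nat_lit 426478) (nat_lit 27) (.e (nat_lit 336388) (nat_lit 27) .nil))))))) (.g (nat_lit 1) (.e (nat_lit 296324) (nat_lit 0) .nil) .nil)))))) 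
(.nd (nat_lit 7) (.nd (nat_lit 8) (.nd (nat_lit 9) 
(.lf (nat_lit 549979) (.g (nat_lit 4499) (.e (nat_lit 417810) (nat_lit 6) (.e (nat_lit 286733) (nat_lit 2) (.e (nat_lit 90170) (nat_lit 13) (.e (nat_lit 172113) (nat_lit 10) (.e (nat_lit 434248) (nat_lit 28) (.e (nat_lit 573452) (nat_lit 9) (.e (nat_lit 365) (nat_lit 31) .nil))))))) (.g (nat_lit 1) (.e (nat_lit 294829) (nat_lit 0) .nil) .nil))) 
(.lf (nat_lit 550491) (.g (nat_lit 2903) (.e (nat_lit 426098) (nat_lit 1) (.e (nat_lit 164327) (nat_lit 230) (.e (nat_lit 163871) (nat_lit 2) (.e (nat_lit 196656) (nat_lit 11) (.e (nat_lit 16432) (nat_lit 9) (.e (nat_lit 426480) (nat_lit 27) (.e (nat_lit 336389) (nat_lit 27) .nil))))))) (.g (nat_lit 1) (.e (nat_lit 295840) (nat_lit 0) .nil) .nil)))) (.nd (nat_lit 9) 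
(.lf (nat_lit 550235) (.g (nat_lit 2425) (.e (nat_lit 426025) (nat_lit 0) (.e (nat_lit 3397) (nat_lit 211) (.e (nat_lit 647183) (nat_lit 4) (.e (nat_lit 172124) (nat_lit 14) (.e (nat_lit 491549) (nat_lit 9) (.e (nat_lit 336395) (nat_lit 27) (.e (nat_lit 426215) (nat_lit 9) .nil))))))) (.g (nat_lit 1) (.e (nat_lit 295314) (nat_lit 0) .nil) .nil))) 
(.lf (nat_lit 550747) (.g (nat_lit 1665) (.e (nat_lit 426099) (nat_lit 1) (.e (nat_lit 164399) (nat_lit 256) (.e (nat_lit 57377) (nat_lit 3) (.e (nat_lit 98370) (nat_lit 28) .nil)))) (.g (nat_lit 0) (.e (nat_lit 296185) (nat_lit 0) .nil) .nil))))) (.nd (nat_lit 8) (.nd (nat_lit 9) 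
(.lf (nat_lit 550107) (.g (nat_lit 2331) (.e (nat_lit 426009) (nat_lit 0) (.e (nat_lit 7583) (nat_lit 405) (.e (nat_lit 57464) (nat_lit 23) (.e (nat_lit 516165) (nat_lit 12) (.e (nat_lit 450586) (nat_lit 10) (.e (nat_lit 573452) (nat_lit 9) (.e (nat_lit 430) (nat_lit 32) .nil))))))) (.g (nat_lit 1) (.e (nat_lit 295161) (nat_lit 0) .nil) .nil))) 
(.lf (nat_lit 550619) (.g (nat_lit 1610) (.e (nat_lit 426098) (nat_lit 1) (.e (nat_lit 164399) (nat_lit 256) (.e (nat_lit 57377) (nat_lit 3) (.e (nat_lit 98381) (nat_lit 31) .nil)))) (.g (nat_lit 0) (.e (nat_lit 296036) (nat_lit 0) .nil) .nil)))) (.nd (nat_lit 9) 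
(.lf (nat_lit 550363) (.g (nat_lit 2504) (.e (nat_lit 426098) (nat_lit 1) (.e (nat_lit 164182) (nat_lit 154) (.e (nat_lit 57409) (nat_lit 12) (.e (nat_lit 336324) (nat_lit 18) (.e (nat_lit 204866) (nat_lit 28) .nil))))) (.g (nat_lit 0) (.e (nat_lit 295598) (nat_lit 0) .nil) .nil))) 
(.lf (nat_lit 550875) (.g (nat_lit 2339) (.e (nat_lit 426100) (nat_lit 1) (.e (nat_lit 164399) (nat_lit 256) (.e (nat_lit 57370) (nat_lit 2) (.e (nat_lit 90170) (nat_lit 13) (.e (nat_lit 172123) (nat_lit 13) (.e (nat_lit 483337) (nat_lit 9) .nil)))))) (.g (nat_lit 1) (.e (nat_lit 296413) (nat_lit 0) .nil) .nil))))))) (.nd (nat_lit 6) (.nd (nat_lit 7) (.nd (nat_lit 8) (.nd (nat_lit 9) 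
(.lf (nat_lit 549947) (.g (nat_lit 1180) (.e (nat_lit 417796) (nat_lit 0) (.e (nat_lit 5396) (nat_lit 301) (.e (nat_lit 57464) (nat_lit 23) (.e (nat_lit 516166) (nat_lit 12) (.e (nat_lit 450587) (nat_lit 10) .nil))))) (.g (nat_lit 0) (.e (nat_lit 294780) (nat_lit 0) .nil) .nil))) 
(.lf (nat_lit 550459) (.g (nat_lit 2329) (.e (nat_lit 426098) (nat_lit 1) (.e (nat_lit 164327) (nat_lit 230) (.e (nat_lit 163868) (nat_lit 2) (.e (nat_lit 196654) (nat_lit 11) (.e (nat_lit 16436) (nat_lit 9) (.e (nat_lit 426491) (nat_lit 27) (.e (nat_lit 336409) (nat_lit 27) .nil))))))) (.g (nat_lit 1) (.e (nat_lit 295793) (nat_lit 0) .nil) .nil)))) (.nd (nat_lit 9) 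
(.lf (nat_lit 550203) (.g (nat_lit 1732) (.e (nat_lit 426012) (nat_lit 0) (.e (nat_lit 7581) (nat_lit 405) (.e (nat_lit 57464) (nat_lit 23) (.e (nat_lit 516166) (nat_lit 12) (.e (nat_lit 450587) (nat_lit 10) (.e (nat_lit 573454) (nat_lit 9) (.e (nat_lit 397) (nat_lit 32) .nil))))))) (.g (nat_lit 1) (.e (nat_lit 295260) (nat_lit 0) .nil) .nil))) 
(.lf (nat_lit 550715) (.g (nat_lit 1444) (.e (nat_lit 426099) (nat_lit 1) (.e (nat_lit 164398) (nat_lit 256) (.e (nat_lit 57378) (nat_lit 3) (.e (nat_lit 98369) (nat_lit 28) (.e (nat_lit 442390) (nat_lit 11) .nil))))) (.g (nat_lit 0) (.e (nat_lit 296153) (nat_lit 0) .nil) .nil))))) (.nd (nat_lit 8) (.nd (nat_lit 9) 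
(.lf (nat_lit 550075) (.g (nat_lit 3510) (.e (nat_lit 425987) (nat_lit 0) (.e (nat_lit 7489) (nat_lit 402) (.e (nat_lit 1239) (nat_lit 91) (.e (nat_lit 90170) (nat_lit 13) (.e (nat_lit 172113) (nat_lit 10) (.e (nat_lit 434245) (nat_lit 28) (.e (nat_lit 573451) (nat_lit 9) (.e (nat_lit 428) (nat_lit 32) .nil)))))))) (.g (nat_lit 1) (.e (nat_lit 295102) (nat_lit 0) .nil) .nil))) 
(.lf (nat_lit 550587) (.g (nat_lit 1579) (.e (nat_lit 426098) (nat_lit 1) (.e (nat_lit 164398) (nat_lit 256) (.e (nat_lit 57375) (nat_lit 2) (.e (nat_lit 90178) (nat_lit 15) (.e (nat_lit 196352) (nat_lit 11) .nil))))) (.g (nat_lit 0) (.e (nat_lit 296004) (nat_lit 0) .nil) .nil)))) (.nd (nat_lit 9) 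
(.lf (nat_lit 550331) (.g (nat_lit 908) (.e (nat_lit 426097) (nat_lit 1) (.e (nat_lit 164327) (nat_lit 230) (.e (nat_lit 163871) (nat_lit 2) (.e (nat_lit 196654) (nat_lit 11) .nil)))) (.g (nat_lit 0) (.e (nat_lit 295522) (nat_lit 0) .nil) .nil))) 
(.lf (nat_lit 550843) (.g (nat_lit 1919) (.e (nat_lit 426100) (nat_lit 1) (.e (nat_lit 164398) (nat_lit 256) (.e (nat_lit 57372) (nat_lit 2) (.e (nat_lit 90178) (nat_lit 15) (.e (nat_lit 196352) (nat_lit 11) .nil))))) (.g (nat_lit 0) (.e (nat_lit 296380) (nat_lit 0) .nil) .nil)))))) (.nd (nat_lit 7) (.nd (nat_lit 8) (.nd (nat_lit 9) 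
(.lf (nat_lit 550011) (.g (nat_lit 3303) (.e (nat_lit 417820) (nat_lit 10) (.e (nat_lit 5626) (nat_lit 312) (.e (nat_lit 2668) (nat_lit 167) (.e (nat_lit 196666) (nat_lit 13) (.e (nat_lit 65610) (nat_lit 10) (.e (nat_lit 344117) (nat_lit 21) (.e (nat_lit 524032) (nat_lit 8) .nil))))))) (.g (nat_lit 1) (.e (nat_lit 294882) (nat_lit 0) .nil) .nil))) 
(.lf (nat_lit 550523) (.g (nat_lit 3470) (.e (nat_lit 426098) (nat_lit 1) (.e (nat_lit 164327) (nat_lit 230) (.e (nat_lit 163873) (nat_lit 3) (.e (nat_lit 204813) (nat_lit 9) (.e (nat_lit 426199) (nat_lit 9) (.e (nat_lit 426489) (nat_lit 27) (.e (nat_lit 336407) (nat_lit 27) .nil))))))) (.g (nat_lit 1) (.e (nat_lit 295878) (nat_lit 0) .nil) .nil)))) (.nd (nat_lit 9) 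
(.lf (nat_lit 550267) (.g (nat_lit 3847) (.e (nat_lit 426031) (nat_lit 0) (.e (nat_lit 7562) (nat_lit 402) (.e (nat_lit 1235) (nat_lit 91) (.e (nat_lit 90170) (nat_lit 13) (.e (nat_lit 172113) (nat_lit 10) (.e (nat_lit 434245) (nat_lit 28) (.e (nat_lit 573458) (nat_lit 9) (.e (nat_lit 426) (nat_lit 32) .nil)))))))) (.g (nat_lit 1) (.e (nat_lit 295365) (nat_lit 0) .nil) .nil))) 
(.lf (nat_lit 550779) (.g (nat_lit 1544) (.e (nat_lit 426100) (nat_lit 1) (.e (nat_lit 164183) (nat_lit 154) (.e (nat_lit 57417) (nat_lit 12) (.e (nat_lit 336300) (nat_lit 15) .nil)))) (.g (nat_lit 0) (.e (nat_lit 296223) (nat_lit 0) .nil) .nil))))) (.nd (nat_lit 8) (.nd (nat_lit 9) 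
(.lf (nat_lit 550139) (.g (nat_lit 2646) (.e (nat_lit 426010) (nat_lit 0) (.e (nat_lit 7583) (nat_lit 405) (.e (nat_lit 57464) (nat_lit 23) (.e (nat_lit 516165) (nat_lit 12) (.e (nat_lit 450586) (nat_lit 10) (.e (nat_lit 573456) (nat_lit 9) (.e (nat_lit 430) (nat_lit 32) .nil))))))) (.g (nat_lit 1) (.e (nat_lit 295193) (nat_lit 0) .nil) .nil))) 
(.lf (nat_lit 550651) (.g (nat_lit 1996) (.e (nat_lit 426098) (nat_lit 1) (.e (nat_lit 164403) (nat_lit 256) (.e (nat_lit 57378) (nat_lit 3) (.e (nat_lit 98369) (nat_lit 28) (.e (nat_lit 442389) (nat_lit 11) .nil))))) (.g (nat_lit 0) (.e (nat_lit 296068) (nat_lit 0) .nil) .nil)))) (.nd (nat_lit 9) 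
(.lf (nat_lit 550395) (.g (nat_lit 2477) (.e (nat_lit 426098) (nat_lit 1) (.e (nat_lit 164325) (nat_lit 230) (.e (nat_lit 163869) (nat_lit 2) (.e (nat_lit 196656) (nat_lit 11) (.e (nat_lit 16463) (nat_lit 13) (.e (nat_lit 483337) (nat_lit 9) .nil)))))) (.g (nat_lit 1) (.e (nat_lit 295687) (nat_lit 0) .nil) .nil))) 
(.lf (nat_lit 550907) (.g (nat_lit 1723) (.e (nat_lit 426100) (nat_lit 1) (.e (nat_lit 164399) (nat_lit 256) (.e (nat_lit 57407) (nat_lit 12) (.e (nat_lit 336433) (nat_lit 30) .nil)))) (.g (nat_lit 0) (.e (nat_lit 296445) (nat_lit 0) .nil) .nil)))))))))) (.nd (nat_lit 3) (.nd (nat_lit 4) (.nd (nat_lit 5) (.nd (nat_lit 6) (.nd (nat_lit 7) (.nd (nat_lit 8) (.nd (nat_lit 9) 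
(.lf (nat_lit 549895) (.g (nat_lit 2104) (.e (nat_lit 417536) (nat_lit 18) (.e (nat_lit 303119) (nat_lit 3) (.e (nat_lit 204866) (nat_lit 28) (.e (nat_lit 352313) (nat_lit 23) (.e (nat_lit 98349) (nat_lit 24) .nil))))) (.g (nat_lit 0) (.e (nat_lit 294577) (nat_lit 0) .nil) .nil))) 
(.lf (nat_lit 550407) (.g (nat_lit 1491) (.e (nat_lit 426098) (nat_lit 1) (.e (nat_lit 164325) (nat_lit 230) (.e (nat_lit 163873) (nat_lit 3) (.e (nat_lit 204809) (nat_lit 9) (.e (nat_lit 426204) (nat_lit 9) .nil))))) (.g (nat_lit 0) (.e (nat_lit 295709) (nat_lit 0) .nil) .nil)))) (.nd (nat_lit 9) 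
(.lf (nat_lit 550151) (.g (nat_lit 3519) (.e (nat_lit 426011) (nat_lit 0) (.e (nat_lit 3544) (nat_lit 219) (.e (nat_lit 712754) (nat_lit 30) (.e (nat_lit 450588) (nat_lit 10) (.e (nat_lit 573475) (nat_lit 12) (.e (nat_lit 57508) (nat_lit 39) (.e (nat_lit 647195) (nat_lit 9) (.e (nat_lit 426) (nat_lit 32) .nil)))))))) (.g (nat_lit 1) (.e (nat_lit 295205) (nat_lit 0) .nil) .nil))) 
(.lf (nat_lit 550663) (.g (nat_lit 1416) (.e (nat_lit 426099) (nat_lit 1) (.e (nat_lit 164183) (nat_lit 154) (.e (nat_lit 57411) (nat_lit 12) (.e (nat_lit 336322) (nat_lit 18) .nil)))) (.g (nat_lit 0) (.e (nat_lit 296085) (nat_lit 0) .nil) .nil))))) (.nd (nat_lit 8) (.nd (nat_lit 9) 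
(.lf (nat_lit 550023) (.g (nat_lit 2543) (.e (nat_lit 417828) (nat_lit 18) (.e (nat_lit 303119) (nat_lit 3) (.e (nat_lit 204868) (nat_lit 29) (.e (nat_lit 360467) (nat_lit 3) (.e (nat_lit 516141) (nat_lit 8) .nil))))) (.g (nat_lit 0) (.e (nat_lit 294932) (nat_lit 0) .nil) .nil))) 
(.lf (nat_lit 550535) (.g (nat_lit 1348) (.e (nat_lit 426098) (nat_lit 1) (.e (nat_lit 164327) (nat_lit 230) (.e (nat_lit 163873) (nat_lit 3) (.e (nat_lit 212736) (nat_lit 11) .nil)))) (.g (nat_lit 0) (.e (nat_lit 295904) (nat_lit 0) .nil) .nil)))) (.nd (nat_lit 9) 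
(.lf (nat_lit 550279) (.g (nat_lit 3341) (.e (nat_lit 426035) (nat_lit 0) (.e (nat_lit 3238) (nat_lit 197) (.e (nat_lit 532550) (nat_lit 12) (.e (nat_lit 360475) (nat_lit 8) (.e (nat_lit 557089) (nat_lit 12) .nil))))) (.g (nat_lit 0) (.e (nat_lit 295381) (nat_lit 0) .nil) .nil))) 
(.lf (nat_lit 550791) (.g (nat_lit 2937) (.e (nat_lit 426100) (nat_lit 1) (.e (nat_lit 164332) (nat_lit 230) (.e (nat_lit 163866) (nat_lit 2) (.e (nat_lit 196654) (nat_lit 11) (.e (nat_lit 16466) (nat_lit 13) (.e (nat_lit 483340) (nat_lit 9) .nil)))))) (.g (nat_lit 1) (.e (nat_lit 296263) (nat_lit 0) .nil) .nil)))))) (.nd (nat_lit 7) (.nd (nat_lit 8) (.nd (nat_lit 9) 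
(.lf (nat_lit 549959) (.g (nat_lit 3068) (.e (nat_lit 417809) (nat_lit 6) (.e (nat_lit 286733) (nat_lit 2) (.e (nat_lit 90174) (nat_lit 14) (.e (nat_lit 180288) (nat_lit 45) (.e (nat_lit 2571) (nat_lit 160) (.e (nat_lit 32798) (nat_lit 14) (.e (nat_lit 2839) (nat_lit 183) .nil))))))) (.g (nat_lit 1) (.e (nat_lit 294801) (nat_lit 0) .nil) .nil))) 
(.lf (nat_lit 550471) (.g (nat_lit 2114) (.e (nat_lit 426098) (nat_lit 1) (.e (nat_lit 164327) (nat_lit 230) (.e (nat_lit 163868) (nat_lit 2) (.e (nat_lit 196656) (nat_lit 11) (.e (nat_lit 16436) (nat_lit 9) .nil))))) (.g (nat_lit 0) (.e (nat_lit 295811) (nat_lit 0) .nil) .nil)))) (.nd (nat_lit 9) 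
(.lf (nat_lit 550215) (.g (nat_lit 1126) (.e (nat_lit 426012) (nat_lit 0) (.e (nat_lit 7591) (nat_lit 407) (.e (nat_lit 73776) (nat_lit 26) (.e (nat_lit 778466) (nat_lit 11) (.e (nat_lit 24632) (nat_lit 9) .nil))))) (.g (nat_lit 0) (.e (nat_lit 295272) (nat_lit 0) .nil) .nil))) 
(.lf (nat_lit 550727) (.g (nat_lit 1293) (.e (nat_lit 426099) (nat_lit 1) (.e (nat_lit 164398) (nat_lit 256) (.e (nat_lit 57411) (nat_lit 12) (.e (nat_lit 336443) (nat_lit 32) .nil)))) (.g (nat_lit 0) (.e (nat_lit 296165) (nat_lit 0) .nil) .nil))))) (.nd (nat_lit 8) (.nd (nat_lit 9) 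
(.lf (nat_lit 550087) (.g (nat_lit 1602) (.e (nat_lit 425986) (nat_lit 0) (.e (nat_lit 3471) (nat_lit 217) (.e (nat_lit 696344) (nat_lit 8) (.e (nat_lit 172123) (nat_lit 13) (.e (nat_lit 483412) (nat_lit 27) .nil))))) (.g (nat_lit 0) (.e (nat_lit 295124) (nat_lit 0) .nil) .nil))) 
(.lf (nat_lit 550599) (.g (nat_lit 1938) (.e (nat_lit 426098) (nat_lit 1) (.e (nat_lit 164399) (nat_lit 256) (.e (nat_lit 57371) (nat_lit 2) (.e (nat_lit 90176) (nat_lit 15) (.e (nat_lit 196352) (nat_lit 11) .nil))))) (.g (nat_lit 0) (.e (nat_lit 296016) (nat_lit 0) .nil) .nil)))) (.nd (nat_lit 9) 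
(.lf (nat_lit 550343) (.g (nat_lit 5075) (.e (nat_lit 426097) (nat_lit 1) (.e (nat_lit 164348) (nat_lit 240) (.e (nat_lit 2611) (nat_lit 163) (.e (nat_lit 163978) (nat_lit 30) (.e (nat_lit 573485) (nat_lit 13) (.e (nat_lit 65619) (nat_lit 10) (.e (nat_lit 344117) (nat_lit 21) (.e (nat_lit 516151) (nat_lit 9) .nil)))))))) (.g (nat_lit 1) (.e (nat_lit 295555) (nat_lit 0) .nil) .nil))) 
(.lf (nat_lit 550855) (.g (nat_lit 2818) (.e (nat_lit 426100) (nat_lit 1) (.e (nat_lit 164398) (nat_lit 256) (.e (nat_lit 57378) (nat_lit 3) (.e (nat_lit 98365) (nat_lit 26) (.e (nat_lit 426326) (nat_lit 13) (.e (nat_lit 483341) (nat_lit 9) .nil)))))) (.g (nat_lit 1) (.e (nat_lit 296392) (nat_lit 0) .nil) .nil))))))) (.nd (nat_lit 6) (.nd (nat_lit 7) (.nd (nat_lit 8) (.nd (nat_lit 9) 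
(.lf (nat_lit 549927) (.g (nat_lit 5329) (.e (nat_lit 409642) (nat_lit 17) (.e (nat_lit 294966) (nat_lit 15) (.e (nat_lit 3298) (nat_lit 202) (.e (nat_lit 573493) (nat_lit 15) (.e (nat_lit 81956) (nat_lit 23) (.e (nat_lit 98350) (nat_lit 24) .nil)))))) (.g (nat_lit 1) (.e (nat_lit 294744) (nat_lit 0) .nil) .nil))) 
(.lf (nat_lit 550439) (.g (nat_lit 3054) (.e (nat_lit 426098) (nat_lit 1) (.e (nat_lit 164325) (nat_lit 230) (.e (nat_lit 163873) (nat_lit 3) (.e (nat_lit 204813) (nat_lit 9) (.e (nat_lit 426200) (nat_lit 9) (.e (nat_lit 426491) (nat_lit 27) (.e (nat_lit 336409) (nat_lit 27) .nil))))))) (.g (nat_lit 1) (.e (nat_lit 295747) (nat_lit 0) .nil) .nil)))) (.nd (nat_lit 9) 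
(.lf (nat_lit 550183) (.g (nat_lit 2172) (.e (nat_lit 426011) (nat_lit 0) (.e (nat_lit 7581) (nat_lit 405) (.e (nat_lit 57464) (nat_lit 23) (.e (nat_lit 516165) (nat_lit 12) (.e (nat_lit 450587) (nat_lit 10) (.e (nat_lit 573457) (nat_lit 9) (.e (nat_lit 430) (nat_lit 32) .nil))))))) (.g (nat_lit 1) (.e (nat_lit 295237) (nat_lit 0) .nil) .nil))) 
(.lf (nat_lit 550695) (.g (nat_lit 1273) (.e (nat_lit 426099) (nat_lit 1) (.e (nat_lit 164332) (nat_lit 230) (.e (nat_lit 163880) (nat_lit 4) (.e (nat_lit 213031) (nat_lit 11) .nil)))) (.g (nat_lit 0) (.e (nat_lit 296133) (nat_lit 0) .nil) .nil))))) (.nd (nat_lit 8) (.nd (nat_lit 9) 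
(.lf (nat_lit 550055) (.g (nat_lit 3012) (.e (nat_lit 417829) (nat_lit 18) (.e (nat_lit 303119) (nat_lit 3) (.e (nat_lit 204869) (nat_lit 29) (.e (nat_lit 360468) (nat_lit 3) .nil)))) (.g (nat_lit 0) (.e (nat_lit 295003) (nat_lit 0) .nil) .nil))) 
(.lf (nat_lit 550567) (.g (nat_lit 3023) (.e (nat_lit 426098) (nat_lit 1) (.e (nat_lit 164332) (nat_lit 230) (.e (nat_lit 163867) (nat_lit 2) (.e (nat_lit 196654) (nat_lit 11) (.e (nat_lit 16466) (nat_lit 13) (.e (nat_lit 483341) (nat_lit 9) .nil)))))) (.g (nat_lit 1) (.e (nat_lit 295955) (nat_lit 0) .nil) .nil)))) (.nd (nat_lit 9) 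
(.lf (nat_lit 550311) (.g (nat_lit 2646) (.e (nat_lit 426073) (nat_lit 0) (.e (nat_lit 3249) (nat_lit 197) (.e (nat_lit 532542) (nat_lit 9) (.e (nat_lit 336194) (nat_lit 12) (.e (nat_lit 385066) (nat_lit 26) (.e (nat_lit 532515) (nat_lit 3) (.e (nat_lit 114695) (nat_lit 11) .nil))))))) (.g (nat_lit 1) (.e (nat_lit 295461) (nat_lit 0) .nil) .nil))) 
(.lf (nat_lit 550823) (.g (nat_lit 1662) (.e (nat_lit 426100) (nat_lit 1) (.e (nat_lit 164332) (nat_lit 230) (.e (nat_lit 163874) (nat_lit 3) (.e (nat_lit 204809) (nat_lit 9) (.e (nat_lit 426204) (nat_lit 9) .nil))))) (.g (nat_lit 0) (.e (nat_lit 296352) (nat_lit 0) .nil) .nil)))))) (.nd (nat_lit 7) (.nd (nat_lit 8) (.nd (nat_lit 9) 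
(.lf (nat_lit 549991) (.g (nat_lit 2763) (.e (nat_lit 417811) (nat_lit 6) (.e (nat_lit 286732) (nat_lit 2) (.e (nat_lit 90170) (nat_lit 13) (.e (nat_lit 172126) (nat_lit 14) (.e (nat_lit 491540) (nat_lit 3) .nil))))) (.g (nat_lit 0) (.e (nat_lit 294843) (nat_lit 0) .nil) .nil))) 
(.lf (nat_lit 550503) (.g (nat_lit 347) (.e (nat_lit 426098) (nat_lit 1) (.e (nat_lit 164327) (nat_lit 230) (.e (nat_lit 163873) (nat_lit 3) .nil))) (.g (nat_lit 0) (.e (nat_lit 295854) (nat_lit 0) .nil) .nil)))) (.nd (nat_lit 9) 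
(.lf (nat_lit 550247) (.g (nat_lit 1616) (.e (nat_lit 426025) (nat_lit 0) (.e (nat_lit 3399) (nat_lit 211) (.e (nat_lit 647183) (nat_lit 4) (.e (nat_lit 172124) (nat_lit 14) (.e (nat_lit 491548) (nat_lit 9) (.e (nat_lit 336398) (nat_lit 27) (.e (nat_lit 426216) (nat_lit 9) .nil))))))) (.g (nat_lit 1) (.e (nat_lit 295336) (nat_lit 0) .nil) .nil))) 
(.lf (nat_lit 550759) (.g (nat_lit 1743) (.e (nat_lit 426099) (nat_lit 1) (.e (nat_lit 164399) (nat_lit 256) (.e (nat_lit 57378) (nat_lit 3) (.e (nat_lit 98381) (nat_lit 31) (.e (nat_lit 466954) (nat_lit 11) .nil))))) (.g (nat_lit 0) (.e (nat_lit 296197) (nat_lit 0) .nil) .nil))))) (.nd (nat_lit 8) (.nd (nat_lit 9) 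
(.lf (nat_lit 550119) (.g (nat_lit 3962) (.e (nat_lit 426010) (nat_lit 0) (.e (nat_lit 7490) (nat_lit 402) (.e (nat_lit 1239) (nat_lit 91) (.e (nat_lit 90170) (nat_lit 13) (.e (nat_lit 172113) (nat_lit 10) (.e (nat_lit 434247) (nat_lit 28) (.e (nat_lit 573457) (nat_lit 9) (.e (nat_lit 430) (nat_lit 32) .nil)))))))) (.g (nat_lit 1) (.e (nat_lit 295173) (nat_lit 0) .nil) .nil))) 
(.lf (nat_lit 550631) (.g (nat_lit 1860) (.e (nat_lit 426098) (nat_lit 1) (.e (nat_lit 164399) (nat_lit 256) (.e (nat_lit 57407) (nat_lit 12) (.e (nat_lit 336427) (nat_lit 29) .nil)))) (.g (nat_lit 0) (.e (nat_lit 296048) (nat_lit 0) .nil) .nil)))) (.nd (nat_lit 9) 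
(.lf (nat_lit 550375) (.g (nat_lit 536) (.e (nat_lit 426098) (nat_lit 1) (.e (nat_lit 164325) (nat_lit 230) (.e (nat_lit 163844) (nat_lit 0) .nil))) (.g (nat_lit 0) (.e (nat_lit 295619) (nat_lit 0) .nil) .nil))) 
(.lf (nat_lit 550887) (.g (nat_lit 1563) (.e (nat_lit 426100) (nat_lit 1) (.e (nat_lit 164399) (nat_lit 256) (.e (nat_lit 57377) (nat_lit 3) (.e (nat_lit 98362) (nat_lit 26) .nil)))) (.g (nat_lit 0) (.e (nat_lit 296425) (nat_lit 0) .nil) .nil)))))))) (.nd (nat_lit 5) (.nd (nat_lit 6) (.nd (nat_lit 7) (.nd (nat_lit 8) (.nd (nat_lit 9) 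
(.lf (nat_lit 549911) (.g (nat_lit 403) (.e (nat_lit 409650) (nat_lit 19) (.e (nat_lit 311312) (nat_lit 2) (.e (nat_lit 196674) (nat_lit 15) .nil))) (.g (nat_lit 0) (.e (nat_lit 294627) (nat_lit 0) .nil) .nil))) 
(.lf (nat_lit 550423) (.g (nat_lit 3277) (.e (nat_lit 426098) (nat_lit 1) (.e (nat_lit 164325) (nat_lit 230) (.e (nat_lit 163873) (nat_lit 3) (.e (nat_lit 204813) (nat_lit 9) (.e (nat_lit 426199) (nat_lit 9) (.e (nat_lit 426481) (nat_lit 27) (.e (nat_lit 336385) (nat_lit 27) .nil))))))) (.g (nat_lit 1) (.e (nat_lit 295729) (nat_lit 0) .nil) .nil)))) (.nd (nat_lit 9) 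
(.lf (nat_lit 550167) (.g (nat_lit 2341) (.e (nat_lit 426011) (nat_lit 0) (.e (nat_lit 7498) (nat_lit 402) (.e (nat_lit 1234) (nat_lit 91) (.e (nat_lit 90170) (nat_lit 13) (.e (nat_lit 172113) (nat_lit 10) (.e (nat_lit 434247) (nat_lit 28) (.e (nat_lit 573456) (nat_lit 9) (.e (nat_lit 430) (nat_lit 32) .nil)))))))) (.g (nat_lit 1) (.e (nat_lit 295221) (nat_lit 0) .nil) .nil))) 
(.lf (nat_lit 550679) (.g (nat_lit 4180) (.e (nat_lit 426099) (nat_lit 1) (.e (nat_lit 164332) (nat_lit 230) (.e (nat_lit 163869) (nat_lit 2) (.e (nat_lit 196654) (nat_lit 11) (.e (nat_lit 16466) (nat_lit 13) (.e (nat_lit 483341) (nat_lit 9) .nil)))))) (.g (nat_lit 1) (.e (nat_lit 296111) (nat_lit 0) .nil) .nil))))) (.nd (nat_lit 8) (.nd (nat_lit 9) 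
(.lf (nat_lit 550039) (.g (nat_lit 2683) (.e (nat_lit 417829) (nat_lit 18) (.e (nat_lit 303117) (nat_lit 2) (.e (nat_lit 196672) (nat_lit 15) (.e (nat_lit 81954) (nat_lit 23) (.e (nat_lit 98352) (nat_lit 25) .nil))))) (.g (nat_lit 0) (.e (nat_lit 294984) (nat_lit 0) .nil) .nil))) 
(.lf (nat_lit 550551) (.g (nat_lit 2302) (.e (nat_lit 426098) (nat_lit 1) (.e (nat_lit 164327) (nat_lit 230) (.e (nat_lit 163875) (nat_lit 3) (.e (nat_lit 204813) (nat_lit 9) (.e (nat_lit 426200) (nat_lit 9) (.e (nat_lit 426487) (nat_lit 27) (.e (nat_lit 336409) (nat_lit 27) .nil))))))) (.g (nat_lit 1) (.e (nat_lit 295931) (nat_lit 0) .nil) .nil)))) (.nd (nat_lit 9) 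
(.lf (nat_lit 550295) (.g (nat_lit 2235) (.e (nat_lit 426043) (nat_lit 0) (.e (nat_lit 3238) (nat_lit 197) (.e (nat_lit 532550) (nat_lit 12) (.e (nat_lit 360475) (nat_lit 8) (.e (nat_lit 557091) (nat_lit 12) (.e (nat_lit 164016) (nat_lit 44) (.e (nat_lit 688138) (nat_lit 5) (.e (nat_lit 2887) (nat_lit 184) .nil)))))))) (.g (nat_lit 1) (.e (nat_lit 295425) (nat_lit 0) .nil) .nil))) 
(.lf (nat_lit 550807) (.g (nat_lit 1061) (.e (nat_lit 426100) (nat_lit 1) (.e (nat_lit 164332) (nat_lit 230) (.e (nat_lit 163869) (nat_lit 2) (.e (nat_lit 196656) (nat_lit 11) .nil)))) (.g (nat_lit 0) (.e (nat_lit 296318) (nat_lit 0) .nil) .nil)))))) (.nd (nat_lit 7) (.nd (nat_lit 8) (.nd (nat_lit 9) 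
(.lf (nat_lit 549975) (.g (nat_lit 2275) (.e (nat_lit 417810) (nat_lit 6) (.e (nat_lit 286733) (nat_lit 2) (.e (nat_lit 90170) (nat_lit 13) (.e (nat_lit 172113) (nat_lit 10) .nil)))) (.g (nat_lit 0) (.e (nat_lit 294825) (nat_lit 0) .nil) .nil))) 
(.lf (nat_lit 550487) (.g (nat_lit 4062) (.e (nat_lit 426098) (nat_lit 1) (.e (nat_lit 164327) (nat_lit 230) (.e (nat_lit 163871) (nat_lit 2) (.e (nat_lit 196654) (nat_lit 11) (.e (nat_lit 16438) (nat_lit 9) (.e (nat_lit 426482) (nat_lit 27) (.e (nat_lit 336388) (nat_lit 27) .nil))))))) (.g (nat_lit 1) (.e (nat_lit 295833) (nat_lit 0) .nil) .nil)))) (.nd (nat_lit 9) 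
(.lf (nat_lit 550231) (.g (nat_lit 2899) (.e (nat_lit 426025) (nat_lit 0) (.e (nat_lit 3397) (nat_lit 211) (.e (nat_lit 647183) (nat_lit 4) (.e (nat_lit 172106) (nat_lit 10) (.e (nat_lit 434209) (nat_lit 18) (.e (nat_lit 5547) (nat_lit 306) (.e (nat_lit 2619) (nat_lit 164) (.e (nat_lit 172097) (nat_lit 9) .nil)))))))) (.g (nat_lit 1) (.e (nat_lit 295309) (nat_lit 0) .nil) .nil))) 
(.lf (nat_lit 550743) (.g (nat_lit 503) (.e (nat_lit 426099) (nat_lit 1) (.e (nat_lit 164399) (nat_lit 256) (.e (nat_lit 57377) (nat_lit 3) .nil))) (.g (nat_lit 0) (.e (nat_lit 296181) (nat_lit 0) .nil) .nil))))) (.nd (nat_lit 8) (.nd (nat_lit 9) 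
(.lf (nat_lit 550103) (.g (nat_lit 3381) (.e (nat_lit 426009) (nat_lit 0) (.e (nat_lit 7490) (nat_lit 402) (.e (nat_lit 1256) (nat_lit 92) (.e (nat_lit 98373) (nat_lit 29) (.e (nat_lit 450588) (nat_lit 10) (.e (nat_lit 573452) (nat_lit 9) (.e (nat_lit 430) (nat_lit 32) .nil))))))) (.g (nat_lit 1) (.e (nat_lit 295157) (nat_lit 0) .nil) .nil))) 
(.lf (nat_lit 550615) (.g (nat_lit 1931) (.e (nat_lit 426098) (nat_lit 1) (.e (nat_lit 164399) (nat_lit 256) (.e (nat_lit 57377) (nat_lit 3) (.e (nat_lit 98369) (nat_lit 28) (.e (nat_lit 442389) (nat_lit 11) .nil))))) (.g (nat_lit 0) (.e (nat_lit 296032) (nat_lit 0) .nil) .nil)))) (.nd (nat_lit 9) 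
(.lf (nat_lit 550359) (.g (nat_lit 2004) (.e (nat_lit 426098) (nat_lit 1) (.e (nat_lit 164179) (nat_lit 154) (.e (nat_lit 57411) (nat_lit 12) (.e (nat_lit 336325) (nat_lit 18) .nil)))) (.g (nat_lit 0) (.e (nat_lit 295592) (nat_lit 0) .nil) .nil))) 
(.lf (nat_lit 550871) (.g (nat_lit 1639) (.e (nat_lit 426100) (nat_lit 1) (.e (nat_lit 164398) (nat_lit 256) (.e (nat_lit 57409) (nat_lit 12) (.e (nat_lit 336426) (nat_lit 29) (.e (nat_lit 442427) (nat_lit 23) .nil))))) (.g (nat_lit 0) (.e (nat_lit 296408) (nat_lit 0) .nil) .nil))))))) (.nd (nat_lit 6) (.nd (nat_lit 7) (.nd (nat_lit 8) (.nd (nat_lit 9) 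
(.lf (nat_lit 549943) (.g (nat_lit 2579) (.e (nat_lit 417795) (nat_lit 0) (.e (nat_lit 5395) (nat_lit 301) (.e (nat_lit 57464) (nat_lit 23) (.e (nat_lit 516166) (nat_lit 12) (.e (nat_lit 450587) (nat_lit 10) (.e (nat_lit 573456) (nat_lit 9) (.e (nat_lit 365) (nat_lit 31) .nil))))))) (.g (nat_lit 1) (.e (nat_lit 294774) (nat_lit 0) .nil) .nil))) 
(.lf (nat_lit 550455) (.g (nat_lit 1741) (.e (nat_lit 426098) (nat_lit 1) (.e (nat_lit 164327) (nat_lit 230) (.e (nat_lit 163868) (nat_lit 2) (.e (nat_lit 196652) (nat_lit 11) .nil)))) (.g (nat_lit 0) (.e (nat_lit 295789) (nat_lit 0) .nil) .nil)))) (.nd (nat_lit 9) 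
(.lf (nat_lit 550199) (.g (nat_lit 1361) (.e (nat_lit 426012) (nat_lit 0) (.e (nat_lit 7377) (nat_lit 390) (.e (nat_lit 24625) (nat_lit 9) (.e (nat_lit 336336) (nat_lit 20) .nil)))) (.g (nat_lit 0) (.e (nat_lit 295256) (nat_lit 0) .nil) .nil))) 
(.lf (nat_lit 550711) (.g (nat_lit 2711) (.e (nat_lit 426099) (nat_lit 1) (.e (nat_lit 164398) (nat_lit 256) (.e (nat_lit 57374) (nat_lit 2) (.e (nat_lit 90170) (nat_lit 13) (.e (nat_lit 172123) (nat_lit 13) .nil))))) (.g (nat_lit 0) (.e (nat_lit 296149) (nat_lit 0) .nil) .nil))))) (.nd (nat_lit 8) (.nd (nat_lit 9) 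
(.lf (nat_lit 550071) (.g (nat_lit 4436) (.e (nat_lit 425984) (nat_lit 0) (.e (nat_lit 3249) (nat_lit 197) (.e (nat_lit 532569) (nat_lit 16) (.e (nat_lit 401448) (nat_lit 10) (.e (nat_lit 434231) (nat_lit 23) (.e (nat_lit 532490) (nat_lit 0) (.e (nat_lit 6674) (nat_lit 357) (.e (nat_lit 2936) (nat_lit 184) .nil)))))))) (.g (nat_lit 1) (.e (nat_lit 295095) (nat_lit 0) .nil) .nil))) 
(.lf (nat_lit 550583) (.g (nat_lit 423) (.e (nat_lit 426098) (nat_lit 1) (.e (nat_lit 164398) (nat_lit 256) (.e (nat_lit 57372) (nat_lit 2) .nil))) (.g (nat_lit 0) (.e (nat_lit 296000) (nat_lit 0) .nil) .nil)))) (.nd (nat_lit 9) 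
(.lf (nat_lit 550327) (.g (nat_lit 797) (.e (nat_lit 426097) (nat_lit 1) (.e (nat_lit 164327) (nat_lit 230) (.e (nat_lit 163868) (nat_lit 2) (.e (nat_lit 196654) (nat_lit 11) .nil)))) (.g (nat_lit 0) (.e (nat_lit 295512) (nat_lit 0) .nil) .nil))) 
(.lf (nat_lit 550839) (.g (nat_lit 1638) (.e (nat_lit 426100) (nat_lit 1) (.e (nat_lit 164398) (nat_lit 256) (.e (nat_lit 57372) (nat_lit 2) (.e (nat_lit 90167) (nat_lit 13) (.e (nat_lit 172121) (nat_lit 13) .nil))))) (.g (nat_lit 0) (.e (nat_lit 296376) (nat_lit 0) .nil) .nil)))))) (.nd (nat_lit 7) (.nd (nat_lit 8) (.nd (nat_lit 9) 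
(.lf (nat_lit 550007) (.g (nat_lit 3247) (.e (nat_lit 417812) (nat_lit 7) (.e (nat_lit 294928) (nat_lit 2) (.e (nat_lit 90167) (nat_lit 13) (.e (nat_lit 172126) (nat_lit 14) (.e (nat_lit 491540) (nat_lit 3) (.e (nat_lit 98353) (nat_lit 25) .nil)))))) (.g (nat_lit 1) (.e (nat_lit 294863) (nat_lit 0) .nil) .nil))) 
(.lf (nat_lit 550519) (.g (nat_lit 3059) (.e (nat_lit 426098) (nat_lit 1) (.e (nat_lit 164327) (nat_lit 230) (.e (nat_lit 163873) (nat_lit 3) (.e (nat_lit 204813) (nat_lit 9) (.e (nat_lit 426199) (nat_lit 9) (.e (nat_lit 426487) (nat_lit 27) (.e (nat_lit 336409) (nat_lit 27) .nil))))))) (.g (nat_lit 1) (.e (nat_lit 295874) (nat_lit 0) .nil) .nil)))) (.nd (nat_lit 9) 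
(.lf (nat_lit 550263) (.g (nat_lit 4468) (.e (nat_lit 426023) (nat_lit 0) (.e (nat_lit 3401) (nat_lit 211) (.e (nat_lit 647181) (nat_lit 3) (.e (nat_lit 163978) (nat_lit 30) (.e (nat_lit 573485) (nat_lit 13) (.e (nat_lit 65604) (nat_lit 9) (.e (nat_lit 336028) (nat_lit 3) (.e (nat_lit 98359) (nat_lit 26) .nil)))))))) (.g (nat_lit 1) (.e (nat_lit 295360) (nat_lit 0) .nil) .nil))) 
(.lf (nat_lit 550775) (.g (nat_lit 1808) (.e (nat_lit 426100) (nat_lit 1) (.e (nat_lit 164182) (nat_lit 154) (.e (nat_lit 57409) (nat_lit 12) (.e (nat_lit 336316) (nat_lit 17) (.e (nat_lit 196672) (nat_lit 15) .nil))))) (.g (nat_lit 0) (.e (nat_lit 296219) (nat_lit 0) .nil) .nil))))) (.nd (nat_lit 8) (.nd (nat_lit 9) 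
(.lf (nat_lit 550135) (.g (nat_lit 3621) (.e (nat_lit 426010) (nat_lit 0) (.e (nat_lit 7583) (nat_lit 405) (.e (nat_lit 57464) (nat_lit 23) (.e (nat_lit 516151) (nat_lit 9) (.e (nat_lit 426286) (nat_lit 10) (.e (nat_lit 434247) (nat_lit 28) (.e (nat_lit 573456) (nat_lit 9) (.e (nat_lit 430) (nat_lit 32) .nil)))))))) (.g (nat_lit 1) (.e (nat_lit 295189) (nat_lit 0) .nil) .nil))) 
(.lf (nat_lit 550647) (.g (nat_lit 506) (.e (nat_lit 426098) (nat_lit 1) (.e (nat_lit 164403) (nat_lit 256) (.e (nat_lit 57377) (nat_lit 3) .nil))) (.g (nat_lit 0) (.e (nat_lit 296064) (nat_lit 0) .nil) .nil)))) (.nd (nat_lit 9) 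
(.lf (nat_lit 550391) (.g (nat_lit 1389) (.e (nat_lit 426098) (nat_lit 1) (.e (nat_lit 164325) (nat_lit 230) (.e (nat_lit 163869) (nat_lit 2) (.e (nat_lit 196656) (nat_lit 11) .nil)))) (.g (nat_lit 0) (.e (nat_lit 295682) (nat_lit 0) .nil) .nil))) 
(.lf (nat_lit 550903) (.g (nat_lit 1181) (.e (nat_lit 426100) (nat_lit 1) (.e (nat_lit 164399) (nat_lit 256) (.e (nat_lit 57407) (nat_lit 12) (.e (nat_lit 336370) (nat_lit 27) .nil)))) (.g (nat_lit 0) (.e (nat_lit 296441) (nat_lit 0) .nil) .nil))))))))) (.nd (nat_lit 4) (.nd (nat_lit 5) (.nd (nat_lit 6) (.nd (nat_lit 7) (.nd (nat_lit 8) (.nd (nat_lit 9) 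
(.lf (nat_lit 549903) (.g (nat_lit 1530) (.e (nat_lit 417536) (nat_lit 18) (.e (nat_lit 303119) (nat_lit 3) (.e (nat_lit 204876) (nat_lit 31) (.e (nat_lit 376869) (nat_lit 23) .nil)))) (.g (nat_lit 0) (.e (nat_lit 294596) (nat_lit 0) .nil) .nil))) 
(.lf (nat_lit 550415) (.g (nat_lit 3395) (.e (nat_lit 426098) (nat_lit 1) (.e (nat_lit 164325) (nat_lit 230) (.e (nat_lit 163873) (nat_lit 3) (.e (nat_lit 204813) (nat_lit 9) (.e (nat_lit 426197) (nat_lit 9) (.e (nat_lit 426487) (nat_lit 27) (.e (nat_lit 336407) (nat_lit 27) .nil))))))) (.g (nat_lit 1) (.e (nat_lit 295720) (nat_lit 0) .nil) .nil)))) (.nd (nat_lit 9) 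
(.lf (nat_lit 550159) (.g (nat_lit 4827) (.e (nat_lit 426011) (nat_lit 0) (.e (nat_lit 7490) (nat_lit 402) (.e (nat_lit 1239) (nat_lit 91) (.e (nat_lit 90170) (nat_lit 13) (.e (nat_lit 172106) (nat_lit 10) (.e (nat_lit 434244) (nat_lit 28) (.e (nat_lit 573458) (nat_lit 9) (.e (nat_lit 426) (nat_lit 32) .nil)))))))) (.g (nat_lit 1) (.e (nat_lit 295213) (nat_lit 0) .nil) .nil))) 
(.lf (nat_lit 550671) (.g (nat_lit 2315) (.e (nat_lit 426099) (nat_lit 1) (.e (nat_lit 164330) (nat_lit 230) (.e (nat_lit 163880) (nat_lit 4) (.e (nat_lit 213030) (nat_lit 11) (.e (nat_lit 24658) (nat_lit 13) (.e (nat_lit 393281) (nat_lit 23) .nil)))))) (.g (nat_lit 1) (.e (nat_lit 296100) (nat_lit 0) .nil) .nil))))) (.nd (nat_lit 8) (.nd (nat_lit 9) 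
(.lf (nat_lit 550031) (.g (nat_lit 2941) (.e (nat_lit 417828) (nat_lit 18) (.e (nat_lit 303145) (nat_lit 13) (.e (nat_lit 483346) (nat_lit 17) (.e (nat_lit 969) (nat_lit 81) .nil)))) (.g (nat_lit 0) (.e (nat_lit 294945) (nat_lit 0) .nil) .nil))) 
(.lf (nat_lit 550543) (.g (nat_lit 2641) (.e (nat_lit 426098) (nat_lit 1) (.e (nat_lit 164327) (nat_lit 230) (.e (nat_lit 163875) (nat_lit 3) (.e (nat_lit 204813) (nat_lit 9) (.e (nat_lit 426198) (nat_lit 9) (.e (nat_lit 426489) (nat_lit 27) (.e (nat_lit 336406) (nat_lit 27) .nil))))))) (.g (nat_lit 1) (.e (nat_lit 295916) (nat_lit 0) .nil) .nil)))) (.nd (nat_lit 9) 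
(.lf (nat_lit 550287) (.g (nat_lit 2781) (.e (nat_lit 426042) (nat_lit 0) (.e (nat_lit 3307) (nat_lit 202) (.e (nat_lit 573484) (nat_lit 13) (.e (nat_lit 65568) (nat_lit 2) (.e (nat_lit 98048) (nat_lit 0) .nil))))) (.g (nat_lit 0) (.e (nat_lit 295401) (nat_lit 0) .nil) .nil))) 
(.lf (nat_lit 550799) (.g (nat_lit 3407) (.e (nat_lit 426100) (nat_lit 1) (.e (nat_lit 164332) (nat_lit 230) (.e (nat_lit 163867) (nat_lit 2) (.e (nat_lit 196656) (nat_lit 11) (.e (nat_lit 16466) (nat_lit 13) (.e (nat_lit 483337) (nat_lit 9) .nil)))))) (.g (nat_lit 1) (.e (nat_lit 296280) (nat_lit 0) .nil) .nil)))))) (.nd (nat_lit 7) (.nd (nat_lit 8) (.nd (nat_lit 9) 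
(.lf (nat_lit 549967) (.g (nat_lit 407) (.e (nat_lit 417809) (nat_lit 6) (.e (nat_lit 286761) (nat_lit 13) (.e (nat_lit 393293) (nat_lit 26) .nil))) (.g (nat_lit 0) (.e (nat_lit 294817) (nat_lit 0) .nil) .nil))) 
(.lf (nat_lit 550479) (.g (nat_lit 2649) (.e (nat_lit 426098) (nat_lit 1) (.e (nat_lit 164327) (nat_lit 230) (.e (nat_lit 163868) (nat_lit 2) (.e (nat_lit 196656) (nat_lit 11) (.e (nat_lit 16466) (nat_lit 13) (.e (nat_lit 483340) (nat_lit 9) .nil)))))) (.g (nat_lit 1) (.e (nat_lit 295820) (nat_lit 0) .nil) .nil)))) (.nd (nat_lit 9) 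
(.lf (nat_lit 550223) (.g (nat_lit 997) (.e (nat_lit 426025) (nat_lit 0) (.e (nat_lit 3397) (nat_lit 211) (.e (nat_lit 647181) (nat_lit 3) (.e (nat_lit 163977) (nat_lit 30) .nil)))) (.g (nat_lit 0) (.e (nat_lit 295298) (nat_lit 0) .nil) .nil))) 
(.lf (nat_lit 550735) (.g (nat_lit 1411) (.e (nat_lit 426099) (nat_lit 1) (.e (nat_lit 164399) (nat_lit 256) (.e (nat_lit 57373) (nat_lit 2) (.e (nat_lit 90176) (nat_lit 15) .nil)))) (.g (nat_lit 0) (.e (nat_lit 296173) (nat_lit 0) .nil) .nil))))) (.nd (nat_lit 8) (.nd (nat_lit 9) 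
(.lf (nat_lit 550095) (.g (nat_lit 4152) (.e (nat_lit 426003) (nat_lit 0) (.e (nat_lit 3262) (nat_lit 198) (.e (nat_lit 540706) (nat_lit 12) (.e (nat_lit 360475) (nat_lit 8) (.e (nat_lit 557089) (nat_lit 12) (.e (nat_lit 163848) (nat_lit 0) (.e (nat_lit 6416) (nat_lit 341) (.e (nat_lit 163908) (nat_lit 12) .nil)))))))) (.g (nat_lit 1) (.e (nat_lit 295140) (nat_lit 0) .nil) .nil))) 
(.lf (nat_lit 550607) (.g (nat_lit 1719) (.e (nat_lit 426098) (nat_lit 1) (.e (nat_lit 164399) (nat_lit 256) (.e (nat_lit 57373) (nat_lit 2) (.e (nat_lit 90178) (nat_lit 15) (.e (nat_lit 188421) (nat_lit 11) .nil))))) (.g (nat_lit 0) (.e (nat_lit 296024) (nat_lit 0) .nil) .nil)))) (.nd (nat_lit 9) 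
(.lf (nat_lit 550351) (.g (nat_lit 1404) (.e (nat_lit 426098) (nat_lit 1) (.e (nat_lit 164179) (nat_lit 154) (.e (nat_lit 57408) (nat_lit 12) (.e (nat_lit 336316) (nat_lit 17) (.e (nat_lit 196674) (nat_lit 15) .nil))))) (.g (nat_lit 0) (.e (nat_lit 295584) (nat_lit 0) .nil) .nil))) 
(.lf (nat_lit 550863) (.g (nat_lit 2484) (.e (nat_lit 426100) (nat_lit 1) (.e (nat_lit 164398) (nat_lit 256) (.e (nat_lit 57379) (nat_lit 3) (.e (nat_lit 98365) (nat_lit 26) (.e (nat_lit 426334) (nat_lit 13) .nil))))) (.g (nat_lit 0) (.e (nat_lit 296400) (nat_lit 0) .nil) .nil))))))) (.nd (nat_lit 6) (.nd (nat_lit 7) (.nd (nat_lit 8) (.nd (nat_lit 9) 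
(.lf (nat_lit 549935) (.g (nat_lit 291) (.e (nat_lit 417536) (nat_lit 17) (.e (nat_lit 294966) (nat_lit 15) (.e (nat_lit 3298) (nat_lit 202) (.e (nat_lit 573492) (nat_lit 15) .nil)))) (.g (nat_lit 0) (.e (nat_lit 294762) (nat_lit 0) .nil) .nil))) 
(.lf (nat_lit 550447) (.g (nat_lit 1593) (.e (nat_lit 426098) (nat_lit 1) (.e (nat_lit 164325) (nat_lit 230) (.e (nat_lit 163875) (nat_lit 3) (.e (nat_lit 204809) (nat_lit 9) (.e (nat_lit 426204) (nat_lit 9) .nil))))) (.g (nat_lit 0) (.e (nat_lit 295768) (nat_lit 0) .nil) .nil)))) (.nd (nat_lit 9) 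
(.lf (nat_lit 550191) (.g (nat_lit 1452) (.e (nat_lit 426011) (nat_lit 0) (.e (nat_lit 7591) (nat_lit 407) (.e (nat_lit 73729) (nat_lit 0) (.e (nat_lit 7265) (nat_lit 384) (.e (nat_lit 57406) (nat_lit 12) .nil))))) (.g (nat_lit 0) (.e (nat_lit 295246) (nat_lit 0) .nil) .nil))) 
(.lf (nat_lit 550703) (.g (nat_lit 1302) (.e (nat_lit 426099) (nat_lit 1) (.e (nat_lit 164398) (nat_lit 256) (.e (nat_lit 57372) (nat_lit 2) (.e (nat_lit 90176) (nat_lit 15) .nil)))) (.g (nat_lit 0) (.e (nat_lit 296141) (nat_lit 0) .nil) .nil))))) (.nd (nat_lit 8) (.nd (nat_lit 9) 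
(.lf (nat_lit 550063) (.g (nat_lit 2909) (.e (nat_lit 425728) (nat_lit 18) (.e (nat_lit 303117) (nat_lit 2) (.e (nat_lit 196666) (nat_lit 13) (.e (nat_lit 65619) (nat_lit 10) .nil)))) (.g (nat_lit 0) (.e (nat_lit 295035) (nat_lit 0) .nil) .nil))) 
(.lf (nat_lit 550575) (.g (nat_lit 1553) (.e (nat_lit 426098) (nat_lit 1) (.e (nat_lit 164332) (nat_lit 230) (.e (nat_lit 163880) (nat_lit 4) (.e (nat_lit 213032) (nat_lit 11) .nil)))) (.g (nat_lit 0) (.e (nat_lit 295970) (nat_lit 0) .nil) .nil)))) (.nd (nat_lit 9) 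
(.lf (nat_lit 550319) (.g (nat_lit 2469) (.e (nat_lit 426091) (nat_lit 0) (.e (nat_lit 3238) (nat_lit 197) (.e (nat_lit 532550) (nat_lit 12) (.e (nat_lit 360474) (nat_lit 8) (.e (nat_lit 557094) (nat_lit 12) .nil))))) (.g (nat_lit 0) (.e (nat_lit 295481) (nat_lit 0) .nil) .nil))) 
(.lf (nat_lit 550831) (.g (nat_lit 2561) (.e (nat_lit 426100) (nat_lit 1) (.e (nat_lit 164332) (nat_lit 230) (.e (nat_lit 163878) (nat_lit 4) (.e (nat_lit 213032) (nat_lit 11) (.e (nat_lit 24657) (nat_lit 13) (.e (nat_lit 393281) (nat_lit 23) .nil)))))) (.g (nat_lit 1) (.e (nat_lit 296368) (nat_lit 0) .nil) .nil)))))) (.nd (nat_lit 7) (.nd (nat_lit 8) (.nd (nat_lit 9) 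
(.lf (nat_lit 549999) (.g (nat_lit 2310) (.e (nat_lit 417811) (nat_lit 6) (.e (nat_lit 286733) (nat_lit 2) (.e (nat_lit 90178) (nat_lit 15) (.e (nat_lit 188440) (nat_lit 20) .nil)))) (.g (nat_lit 0) (.e (nat_lit 294853) (nat_lit 0) .nil) .nil))) 
(.lf (nat_lit 550511) (.g (nat_lit 3583) (.e (nat_lit 426098) (nat_lit 1) (.e (nat_lit 164327) (nat_lit 230) (.e (nat_lit 163873) (nat_lit 3) (.e (nat_lit 204813) (nat_lit 9) (.e (nat_lit 426197) (nat_lit 9) (.e (nat_lit 426530) (nat_lit 27) (.e (nat_lit 336390) (nat_lit 27) .nil))))))) (.g (nat_lit 1) (.e (nat_lit 295866) (nat_lit 0) .nil) .nil)))) (.nd (nat_lit 9) 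
(.lf (nat_lit 550255) (.g (nat_lit 3975) (.e (nat_lit 426025) (nat_lit 0) (.e (nat_lit 3543) (nat_lit 219) (.e (nat_lit 712755) (nat_lit 30) (.e (nat_lit 450588) (nat_lit 10) (.e (nat_lit 573475) (nat_lit 12) (.e (nat_lit 57503) (nat_lit 38) (.e (nat_lit 638985) (nat_lit 5) (.e (nat_lit 2884) (nat_lit 184) .nil)))))))) (.g (nat_lit 1) (.e (nat_lit 295347) (nat_lit 0) .nil) .nil))) 
(.lf (nat_lit 550767) (.g (nat_lit 1269) (.e (nat_lit 426099) (nat_lit 1) (.e (nat_lit 164399) (nat_lit 256) (.e (nat_lit 57407) (nat_lit 12) (.e (nat_lit 336426) (nat_lit 29) .nil)))) (.g (nat_lit 0) (.e (nat_lit 296205) (nat_lit 0) .nil) .nil))))) (.nd (nat_lit 8) (.nd (nat_lit 9) 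
(.lf (nat_lit 550127) (.g (nat_lit 3991) (.e (nat_lit 426010) (nat_lit 0) (.e (nat_lit 7581) (nat_lit 405) (.e (nat_lit 57464) (nat_lit 23) (.e (nat_lit 516151) (nat_lit 9) (.e (nat_lit 426286) (nat_lit 10) (.e (nat_lit 434248) (nat_lit 28) (.e (nat_lit 573452) (nat_lit 9) (.e (nat_lit 430) (nat_lit 32) .nil)))))))) (.g (nat_lit 1) (.e (nat_lit 295181) (nat_lit 0) .nil) .nil))) 
(.lf (nat_lit 550639) (.g (nat_lit 1782) (.e (nat_lit 426098) (nat_lit 1) (.e (nat_lit 164403) (nat_lit 256) (.e (nat_lit 57370) (nat_lit 2) (.e (nat_lit 90176) (nat_lit 15) (.e (nat_lit 188423) (nat_lit 11) .nil))))) (.g (nat_lit 0) (.e (nat_lit 296056) (nat_lit 0) .nil) .nil)))) (.nd (nat_lit 9) 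
(.lf (nat_lit 550383) (.g (nat_lit 3766) (.e (nat_lit 426098) (nat_lit 1) (.e (nat_lit 164325) (nat_lit 230) (.e (nat_lit 163868) (nat_lit 2) (.e (nat_lit 196654) (nat_lit 11) (.e (nat_lit 16463) (nat_lit 13) (.e (nat_lit 483337) (nat_lit 9) .nil)))))) (.g (nat_lit 1) (.e (nat_lit 295671) (nat_lit 0) .nil) .nil))) 
(.lf (nat_lit 550895) (.g (nat_lit 2360) (.e (nat_lit 426100) (nat_lit 1) (.e (nat_lit 164399) (nat_lit 256) (.e (nat_lit 57378) (nat_lit 3) (.e (nat_lit 98358) (nat_lit 26) (.e (nat_lit 426323) (nat_lit 13) (.e (nat_lit 483340) (nat_lit 9) .nil)))))) (.g (nat_lit 1) (.e (nat_lit 296433) (nat_lit 0) .nil) .nil)))))))) 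
(.nd (nat_lit 5) (.nd (nat_lit 6) (.nd (nat_lit 7) (.nd (nat_lit 8) (.nd (nat_lit 9) 
(.lf (nat_lit 549919) (.g (nat_lit 1448) (.e (nat_lit 417536) (nat_lit 16) (.e (nat_lit 286733) (nat_lit 2) (.e (nat_lit 90133) (nat_lit 9) (.e (nat_lit 2397) (nat_lit 157) (.e (nat_lit 7590) (nat_lit 407) .nil))))) (.g (nat_lit 0) (.e (nat_lit 294722) (nat_lit 0) .nil) .nil))) 
(.lf (nat_lit 550431) (.g (nat_lit 3924) (.e (nat_lit 426098) (nat_lit 1) (.e (nat_lit 164325) (nat_lit 230) (.e (nat_lit 163873) (nat_lit 3) (.e (nat_lit 204813) (nat_lit 9) (.e (nat_lit 426199) (nat_lit 9) (.e (nat_lit 426489) (nat_lit 27) (.e (nat_lit 336407) (nat_lit 27) .nil))))))) (.g (nat_lit 1) (.e (nat_lit 295737) (nat_lit 0) .nil) .nil)))) (.nd (nat_lit 9) 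
(.lf (nat_lit 550175) (.g (nat_lit 4406) (.e (nat_lit 426011) (nat_lit 0) (.e (nat_lit 7581) (nat_lit 405) (.e (nat_lit 57464) (nat_lit 23) (.e (nat_lit 516151) (nat_lit 9) (.e (nat_lit 426286) (nat_lit 10) (.e (nat_lit 434245) (nat_lit 28) (.e (nat_lit 573458) (nat_lit 9) (.e (nat_lit 426) (nat_lit 32) .nil)))))))) (.g (nat_lit 1) (.e (nat_lit 295229) (nat_lit 0) .nil) .nil))) 
(.lf (nat_lit 550687) (.g (nat_lit 2518) (.e (nat_lit 426099) (nat_lit 1) (.e (nat_lit 164332) (nat_lit 230) (.e (nat_lit 163874) (nat_lit 3) (.e (nat_lit 204830) (nat_lit 18) (.e (nat_lit 57904) (nat_lit 278) .nil))))) (.g (nat_lit 0) (.e (nat_lit 296125) (nat_lit 0) .nil) .nil))))) (.nd (nat_lit 8) (.nd (nat_lit 9) 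
(.lf (nat_lit 550047) (.g (nat_lit 1553) (.e (nat_lit 417829) (nat_lit 18) (.e (nat_lit 303117) (nat_lit 2) (.e (nat_lit 196681) (nat_lit 17) (.e (nat_lit 131109) (nat_lit 9) .nil)))) (.g (nat_lit 0) (.e (nat_lit 294993) (nat_lit 0) .nil) .nil))) 
(.lf (nat_lit 550559) (.g (nat_lit 2046) (.e (nat_lit 426098) (nat_lit 1) (.e (nat_lit 164327) (nat_lit 230) (.e (nat_lit 163879) (nat_lit 4) (.e (nat_lit 213030) (nat_lit 11) (.e (nat_lit 24656) (nat_lit 13) (.e (nat_lit 393281) (nat_lit 23) .nil)))))) (.g (nat_lit 1) (.e (nat_lit 295945) (nat_lit 0) .nil) .nil)))) (.nd (nat_lit 9) 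
(.lf (nat_lit 550303) (.g (nat_lit 2467) (.e (nat_lit 426047) (nat_lit 0) (.e (nat_lit 3297) (nat_lit 202) (.e (nat_lit 573450) (nat_lit 9) (.e (nat_lit 375) (nat_lit 32) (.e (nat_lit 426173) (nat_lit 7) (.e (nat_lit 409617) (nat_lit 10) (.e (nat_lit 7936) (nat_lit 43) (.e (nat_lit 516151) (nat_lit 9) (.e (nat_lit 426211) (nat_lit 9) .nil))))))))) (.g (nat_lit 1) (.e (nat_lit 295447) (nat_lit 0) .nil) .nil))) 
(.lf (nat_lit 550815) (.g (nat_lit 3237) (.e (nat_lit 426100) (nat_lit 1) (.e (nat_lit 164332) (nat_lit 230) (.e (nat_lit 163869) (nat_lit 2) (.e (nat_lit 196656) (nat_lit 11) (.e (nat_lit 16463) (nat_lit 13) (.e (nat_lit 491264) (nat_lit 9) .nil)))))) (.g (nat_lit 1) (.e (nat_lit 296331) (nat_lit 0) .nil) .nil)))))) (.nd (nat_lit 7) (.nd (nat_lit 8) (.nd (nat_lit 9) 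
(.lf (nat_lit 549983) (.g (nat_lit 2224) (.e (nat_lit 417810) (nat_lit 6) (.e (nat_lit 286735) (nat_lit 3) (.e (nat_lit 98350) (nat_lit 24) (.e (nat_lit 417536) (nat_lit 0) .nil)))) (.g (nat_lit 0) (.e (nat_lit 294833) (nat_lit 0) .nil) .nil))) 
(.lf (nat_lit 550495) (.g (nat_lit 2763) (.e (nat_lit 426098) (nat_lit 1) (.e (nat_lit 164327) (nat_lit 230) (.e (nat_lit 163871) (nat_lit 2) (.e (nat_lit 196656) (nat_lit 11) (.e (nat_lit 16433) (nat_lit 9) (.e (nat_lit 426481) (nat_lit 27) (.e (nat_lit 336389) (nat_lit 27) .nil))))))) (.g (nat_lit 1) (.e (nat_lit 295844) (nat_lit 0) .nil) .nil)))) (.nd (nat_lit 9) 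
(.lf (nat_lit 550239) (.g (nat_lit 1697) (.e (nat_lit 426025) (nat_lit 0) (.e (nat_lit 3397) (nat_lit 211) (.e (nat_lit 647183) (nat_lit 4) (.e (nat_lit 172126) (nat_lit 14) (.e (nat_lit 491569) (nat_lit 13) .nil))))) (.g (nat_lit 0) (.e (nat_lit 295318) (nat_lit 0) .nil) .nil))) 
(.lf (nat_lit 550751) (.g (nat_lit 1701) (.e (nat_lit 426099) (nat_lit 1) (.e (nat_lit 164399) (nat_lit 256) (.e (nat_lit 57378) (nat_lit 3) (.e (nat_lit 98358) (nat_lit 26) (.e (nat_lit 426323) (nat_lit 13) .nil))))) (.g (nat_lit 0) (.e (nat_lit 296189) (nat_lit 0) .nil) .nil))))) (.nd (nat_lit 8) (.nd (nat_lit 9) 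
(.lf (nat_lit 550111) (.g (nat_lit 1477) (.e (nat_lit 426009) (nat_lit 0) (.e (nat_lit 7591) (nat_lit 407) (.e (nat_lit 73775) (nat_lit 26) (.e (nat_lit 778466) (nat_lit 11) (.e (nat_lit 24632) (nat_lit 9) .nil))))) (.g (nat_lit 0) (.e (nat_lit 295165) (nat_lit 0) .nil) .nil))) 
(.lf (nat_lit 550623) (.g (nat_lit 1439) (.e (nat_lit 426098) (nat_lit 1) (.e (nat_lit 164399) (nat_lit 256) (.e (nat_lit 57378) (nat_lit 3) (.e (nat_lit 98369) (nat_lit 28) (.e (nat_lit 442389) (nat_lit 11) .nil))))) (.g (nat_lit 0) (.e (nat_lit 296040) (nat_lit 0) .nil) .nil)))) (.nd (nat_lit 9) 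
(.lf (nat_lit 550367) (.g (nat_lit 1542) (.e (nat_lit 426098) (nat_lit 1) (.e (nat_lit 164182) (nat_lit 154) (.e (nat_lit 57410) (nat_lit 12) (.e (nat_lit 336326) (nat_lit 18) (.e (nat_lit 204865) (nat_lit 28) .nil))))) (.g (nat_lit 0) (.e (nat_lit 295602) (nat_lit 0) .nil) .nil))) 
(.lf (nat_lit 550879) (.g (nat_lit 1552) (.e (nat_lit 426100) (nat_lit 1) (.e (nat_lit 164399) (nat_lit 256) (.e (nat_lit 57372) (nat_lit 2) (.e (nat_lit 90176) (nat_lit 15) (.e (nat_lit 196352) (nat_lit 11) .nil))))) (.g (nat_lit 0) (.e (nat_lit 296417) (nat_lit 0) .nil) .nil))))))) (.nd (nat_lit 6) (.nd (nat_lit 7) (.nd (nat_lit 8) (.nd (nat_lit 9) 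
(.lf (nat_lit 549951) (.g (nat_lit 2209) (.e (nat_lit 417813) (nat_lit 9) (.e (nat_lit 311315) (nat_lit 3) (.e (nat_lit 204845) (nat_lit 24) (.e (nat_lit 319529) (nat_lit 16) (.e (nat_lit 286735) (nat_lit 3) (.e (nat_lit 98353) (nat_lit 25) .nil)))))) (.g (nat_lit 1) (.e (nat_lit 294792) (nat_lit 0) .nil) .nil))) 
(.lf (nat_lit 550463) (.g (nat_lit 3436) (.e (nat_lit 426098) (nat_lit 1) (.e (nat_lit 164327) (nat_lit 230) (.e (nat_lit 163868) (nat_lit 2) (.e (nat_lit 196654) (nat_lit 11) (.e (nat_lit 16463) (nat_lit 13) (.e (nat_lit 483336) (nat_lit 9) .nil)))))) (.g (nat_lit 1) (.e (nat_lit 295797) (nat_lit 0) .nil) .nil)))) (.nd (nat_lit 9) 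
(.lf (nat_lit 550207) (.g (nat_lit 1675) (.e (nat_lit 426012) (nat_lit 0) (.e (nat_lit 7581) (nat_lit 405) (.e (nat_lit 57480) (nat_lit 28) (.e (nat_lit 557067) (nat_lit 9) .nil)))) (.g (nat_lit 0) (.e (nat_lit 295264) (nat_lit 0) .nil) .nil))) 
(.lf (nat_lit 550719) (.g (nat_lit 1843) (.e (nat_lit 426099) (nat_lit 1) (.e (nat_lit 164398) (nat_lit 256) (.e (nat_lit 57379) (nat_lit 3) (.e (nat_lit 98370) (nat_lit 28) (.e (nat_lit 442390) (nat_lit 11) .nil))))) (.g (nat_lit 0) (.e (nat_lit 296157) (nat_lit 0) .nil) .nil))))) (.nd (nat_lit 8) (.nd (nat_lit 9) 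
(.lf (nat_lit 550079) (.g (nat_lit 3188) (.e (nat_lit 425989) (nat_lit 0) (.e (nat_lit 7489) (nat_lit 402) (.e (nat_lit 1239) (nat_lit 91) (.e (nat_lit 90170) (nat_lit 13) (.e (nat_lit 172113) (nat_lit 10) (.e (nat_lit 434247) (nat_lit 28) (.e (nat_lit 573456) (nat_lit 9) (.e (nat_lit 7936) (nat_lit 32) .nil)))))))) (.g (nat_lit 1) (.e (nat_lit 295111) (nat_lit 0) .nil) .nil))) 
(.lf (nat_lit 550591) (.g (nat_lit 1574) (.e (nat_lit 426098) (nat_lit 1) (.e (nat_lit 164398) (nat_lit 256) (.e (nat_lit 57379) (nat_lit 3) (.e (nat_lit 98354) (nat_lit 26) .nil)))) (.g (nat_lit 0) (.e (nat_lit 296008) (nat_lit 0) .nil) .nil)))) (.nd (nat_lit 9) 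
(.lf (nat_lit 550335) (.g (nat_lit 1575) (.e (nat_lit 426097) (nat_lit 1) (.e (nat_lit 164327) (nat_lit 230) (.e (nat_lit 163879) (nat_lit 4) (.e (nat_lit 213030) (nat_lit 11) (.e (nat_lit 24659) (nat_lit 13) .nil))))) (.g (nat_lit 0) (.e (nat_lit 295546) (nat_lit 0) .nil) .nil))) 
(.lf (nat_lit 550847) (.g (nat_lit 2332) (.e (nat_lit 426100) (nat_lit 1) (.e (nat_lit 164398) (nat_lit 256) (.e (nat_lit 57374) (nat_lit 2) (.e (nat_lit 90170) (nat_lit 13) (.e (nat_lit 172123) (nat_lit 13) .nil))))) (.g (nat_lit 0) (.e (nat_lit 296384) (nat_lit 0) .nil) .nil)))))) (.nd (nat_lit 7) (.nd (nat_lit 8) (.nd (nat_lit 9) 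
(.lf (nat_lit 550015) (.g (nat_lit 477) (.e (nat_lit 417820) (nat_lit 10) (.e (nat_lit 5293) (nat_lit 298) (.e (nat_lit 7936) (nat_lit 31) .nil))) (.g (nat_lit 0) (.e (nat_lit 294905) (nat_lit 0) .nil) .nil))) 
(.lf (nat_lit 550527) (.g (nat_lit 2781) (.e (nat_lit 426098) (nat_lit 1) (.e (nat_lit 164327) (nat_lit 230) (.e (nat_lit 163873) (nat_lit 3) (.e (nat_lit 204813) (nat_lit 9) (.e (nat_lit 426200) (nat_lit 9) (.e (nat_lit 426480) (nat_lit 27) (.e (nat_lit 336388) (nat_lit 27) .nil))))))) (.g (nat_lit 1) (.e (nat_lit 295883) (nat_lit 0) .nil) .nil)))) (.nd (nat_lit 9) 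
(.lf (nat_lit 550271) (.g (nat_lit 3374) (.e (nat_lit 426032) (nat_lit 0) (.e (nat_lit 3262) (nat_lit 198) (.e (nat_lit 540706) (nat_lit 12) (.e (nat_lit 360475) (nat_lit 8) (.e (nat_lit 557090) (nat_lit 12) (.e (nat_lit 164020) (nat_lit 45) (.e (nat_lit 696327) (nat_lit 5) (.e (nat_lit 2873) (nat_lit 184) .nil)))))))) (.g (nat_lit 1) (.e (nat_lit 295369) (nat_lit 0) .nil) .nil))) 
(.lf (nat_lit 550783) (.g (nat_lit 1864) (.e (nat_lit 426100) (nat_lit 1) (.e (nat_lit 164330) (nat_lit 230) (.e (nat_lit 163857) (nat_lit 0) (.e (nat_lit 3632) (nat_lit 227) (.e (nat_lit 778470) (nat_lit 11) .nil))))) (.g (nat_lit 0) (.e (nat_lit 296230) (nat_lit 0) .nil) .nil))))) (.nd (nat_lit 8) (.nd (nat_lit 9) 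
(.lf (nat_lit 550143) (.g (nat_lit 3325) (.e (nat_lit 426010) (nat_lit 0) (.e (nat_lit 7583) (nat_lit 405) (.e (nat_lit 57464) (nat_lit 23) (.e (nat_lit 516166) (nat_lit 12) (.e (nat_lit 450588) (nat_lit 10) (.e (nat_lit 573452) (nat_lit 9) (.e (nat_lit 430) (nat_lit 32) .nil))))))) (.g (nat_lit 1) (.e (nat_lit 295197) (nat_lit 0) .nil) .nil))) 
(.lf (nat_lit 550655) (.g (nat_lit 1518) (.e (nat_lit 426098) (nat_lit 1) (.e (nat_lit 164403) (nat_lit 256) (.e (nat_lit 57406) (nat_lit 12) (.e (nat_lit 336444) (nat_lit 32) .nil)))) (.g (nat_lit 0) (.e (nat_lit 296072) (nat_lit 0) .nil) .nil)))) (.nd (nat_lit 9) 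
(.lf (nat_lit 550399) (.g (nat_lit 803) (.e (nat_lit 426098) (nat_lit 1) (.e (nat_lit 164325) (nat_lit 230) (.e (nat_lit 163871) (nat_lit 2) (.e (nat_lit 196656) (nat_lit 11) .nil)))) (.g (nat_lit 0) (.e (nat_lit 295698) (nat_lit 0) .nil) .nil))) 
(.lf (nat_lit 550911) (.g (nat_lit 1117) (.e (nat_lit 426100) (nat_lit 1) (.e (nat_lit 164399) (nat_lit 256) (.e (nat_lit 57409) (nat_lit 12) (.e (nat_lit 336444) (nat_lit 32) .nil)))) (.g (nat_lit 0) (.e (nat_lit 296449) (nat_lit 0) .nil) .nil)))))))))))))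

noncomputable def tv5598 : DT := (.nd (nat_lit 0) (.nd (nat_lit 1) (.nd (nat_lit 2) (.nd (nat_lit 3) (.nd (nat_lit 4) (.nd (nat_lit 5) (.nd (nat_lit 6) (.nd (nat_lit 7) (.nd (nat_lit 8) (.nd (nat_lit 9) 
(.lf (nat_lit 550912) (.g (nat_lit 1563) (.e (nat_lit 426100) (nat_lit 1) (.e (nat_lit 164399) (nat_lit 256) (.e (nat_lit 57411) (nat_lit 12) (.e (nat_lit 336433) (nat_lit 30) .nil)))) (.g (nat_lit 0) (.e (nat_lit 296450) (nat_lit 0) .nil) .nil))) 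
(.lf (nat_lit 551424) (.g (nat_lit 3020) (.e (nat_lit 426110) (nat_lit 1) (.e (nat_lit 164327) (nat_lit 230) (.e (nat_lit 163868) (nat_lit 2) (.e (nat_lit 196656) (nat_lit 11) (.e (nat_lit 16465) (nat_lit 13) (.e (nat_lit 491264) (nat_lit 9) .nil)))))) (.g (nat_lit 1) (.e (nat_lit 297838) (nat_lit 0) .nil) .nil)))) (.nd (nat_lit 9) 
(.lf (nat_lit 551168) (.g (nat_lit 915) (.e (nat_lit 426107) (nat_lit 1) (.e (nat_lit 164326) (nat_lit 230) (.e (nat_lit 163871) (nat_lit 2) (.e (nat_lit 196656) (nat_lit 11) .nil)))) (.g (nat_lit 0) (.e (nat_lit 297091) (nat_lit 0) .nil) .nil))) 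
(.lf (nat_lit 551680) (.g (nat_lit 2830) (.e (nat_lit 426121) (nat_lit 2) (.e (nat_lit 196666) (nat_lit 13) (.e (nat_lit 65617) (nat_lit 10) (.e (nat_lit 344132) (nat_lit 26) (.e (nat_lit 557093) (nat_lit 12) (.e (nat_lit 164022) (nat_lit 46) (.e (nat_lit 704626) (nat_lit 9) (.e (nat_lit 396) (nat_lit 32) .nil)))))))) (.g (nat_lit 1) (.e (nat_lit 298522) (nat_lit 0) .nil) .nil))))) 
(.nd (nat_lit 8) (.nd (nat_lit 9) 
(.lf (nat_lit 551040) (.g (nat_lit 1715) (.e (nat_lit 426106) (nat_lit 1) (.e (nat_lit 164183) (nat_lit 154) (.e (nat_lit 57410) (nat_lit 12) (.e (nat_lit 336324) (nat_lit 18) (.e (nat_lit 204876) (nat_lit 31) .nil))))) (.g (nat_lit 0) (.e (nat_lit 296721) (nat_lit 0) .nil) .nil))) 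
(.lf (nat_lit 551552) (.g (nat_lit 1266) (.e (nat_lit 426115) (nat_lit 2) (.e (nat_lit 196654) (nat_lit 11) (.e (nat_lit 16416) (nat_lit 3) (.e (nat_lit 204813) (nat_lit 9) .nil)))) (.g (nat_lit 0) (.e (nat_lit 298236) (nat_lit 0) .nil) .nil)))) (.nd (nat_lit 9) 
(.lf (nat_lit 551296) (.g (nat_lit 3306) (.e (nat_lit 426108) (nat_lit 1) (.e (nat_lit 164330) (nat_lit 230) (.e (nat_lit 163873) (nat_lit 3) (.e (nat_lit 204813) (nat_lit 9) (.e (nat_lit 426197) (nat_lit 9) (.e (nat_lit 426481) (nat_lit 27) (.e (nat_lit 336388) (nat_lit 27) .nil))))))) (.g (nat_lit 1) (.e (nat_lit 297405) (nat_lit 0) .nil) .nil))) 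
(.lf (nat_lit 551808) (.g (nat_lit 3171) (.e (nat_lit 426122) (nat_lit 2) (.e (nat_lit 196666) (nat_lit 13) (.e (nat_lit 65617) (nat_lit 10) (.e (nat_lit 344132) (nat_lit 26) (.e (nat_lit 557093) (nat_lit 12) (.e (nat_lit 164022) (nat_lit 46) (.e (nat_lit 704628) (nat_lit 9) (.e (nat_lit 416) (nat_lit 32) .nil)))))))) (.g (nat_lit 1) (.e (nat_lit 298692) (nat_lit 0) .nil) .nil)))))) 
(.nd (nat_lit 7) (.nd (nat_lit 8) (.nd (nat_lit 9) 
(.lf (nat_lit 550976) (.g (nat_lit 1745) (.e (nat_lit 426105) (nat_lit 1) (.e (nat_lit 164327) (nat_lit 230) (.e (nat_lit 163868) (nat_lit 2) (.e (nat_lit 196656) (nat_lit 11) .nil)))) (.g (nat_lit 0) (.e (nat_lit 296615) (nat_lit 0) .nil) .nil))) 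
(.lf (nat_lit 551488) (.g (nat_lit 992) (.e (nat_lit 433920) (nat_lit 1) (.e (nat_lit 164399) (nat_lit 256) (.e (nat_lit 57379) (nat_lit 3) (.e (nat_lit 98363) (nat_lit 26) (.e (nat_lit 426321) (nat_lit 13) .nil))))) (.g (nat_lit 0) (.e (nat_lit 298064) (nat_lit 0) .nil) .nil)))) (.nd (nat_lit 9) 
(.lf (nat_lit 551232) (.g (nat_lit 1121) (.e (nat_lit 426107) (nat_lit 1) (.e (nat_lit 164402) (nat_lit 256) (.e (nat_lit 57406) (nat_lit 12) (.e (nat_lit 336443) (nat_lit 32) .nil)))) (.g (nat_lit 0) (.e (nat_lit 297298) (nat_lit 0) .nil) .nil))) 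
(.lf (nat_lit 551744) (.g (nat_lit 3521) (.e (nat_lit 426121) (nat_lit 2) (.e (nat_lit 196666) (nat_lit 13) (.e (nat_lit 65617) (nat_lit 10) (.e (nat_lit 344133) (nat_lit 26) (.e (nat_lit 557091) (nat_lit 12) (.e (nat_lit 164022) (nat_lit 46) (.e (nat_lit 704626) (nat_lit 9) (.e (nat_lit 435) (nat_lit 32) .nil)))))))) (.g (nat_lit 1) (.e (nat_lit 298598) (nat_lit 0) .nil) .nil))))) 
(.nd (nat_lit 8) (.nd (nat_lit 9) 
(.lf (nat_lit 551104) (.g (nat_lit 2081) (.e (nat_lit 426107) (nat_lit 1) (.e (nat_lit 164179) (nat_lit 154) (.e (nat_lit 57411) (nat_lit 12) (.e (nat_lit 336325) (nat_lit 18) .nil)))) (.g (nat_lit 0) (.e (nat_lit 296841) (nat_lit 0) .nil) .nil))) 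
(.lf (nat_lit 551616) (.g (nat_lit 2463) (.e (nat_lit 426120) (nat_lit 2) (.e (nat_lit 196666) (nat_lit 13) (.e (nat_lit 65617) (nat_lit 10) (.e (nat_lit 344132) (nat_lit 26) (.e (nat_lit 557094) (nat_lit 12) (.e (nat_lit 164016) (nat_lit 44) (.e (nat_lit 688138) (nat_lit 5) (.e (nat_lit 2887) (nat_lit 184) .nil)))))))) (.g (nat_lit 1) (.e (nat_lit 298438) (nat_lit 0) .nil) .nil)))) 
(.nd (nat_lit 9) 
(.lf (nat_lit 551360) (.g (nat_lit 1687) (.e (nat_lit 426108) (nat_lit 1) (.e (nat_lit 164403) (nat_lit 256) (.e (nat_lit 57408) (nat_lit 12) (.e (nat_lit 336443) (nat_lit 32) (.e (nat_lit 466978) (nat_lit 23) .nil))))) (.g (nat_lit 0) (.e (nat_lit 297545) (nat_lit 0) .nil) .nil))) 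
(.lf (nat_lit 551872) (.g (nat_lit 1487) (.e (nat_lit 426123) (nat_lit 2) (.e (nat_lit 196656) (nat_lit 11) (.e (nat_lit 16411) (nat_lit 2) (.e (nat_lit 196654) (nat_lit 11) .nil)))) (.g (nat_lit 0) (.e (nat_lit 298794) (nat_lit 0) .nil) .nil))))))) (.nd (nat_lit 6) (.nd (nat_lit 7) (.nd (nat_lit 8) (.nd (nat_lit 9) 
(.lf (nat_lit 550944) (.g (nat_lit 780) (.e (nat_lit 426104) (nat_lit 1) (.e (nat_lit 164327) (nat_lit 230) (.e (nat_lit 163868) (nat_lit 2) .nil))) (.g (nat_lit 0) (.e (nat_lit 296531) (nat_lit 0) .nil) .nil))) 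
(.lf (nat_lit 551456) (.g (nat_lit 1263) (.e (nat_lit 426110) (nat_lit 1) (.e (nat_lit 164403) (nat_lit 256) (.e (nat_lit 57409) (nat_lit 12) (.e (nat_lit 336443) (nat_lit 32) .nil)))) (.g (nat_lit 0) (.e (nat_lit 297947) (nat_lit 0) .nil) .nil)))) (.nd (nat_lit 9) 
(.lf (nat_lit 551200) (.g (nat_lit 3691) (.e (nat_lit 426107) (nat_lit 1) (.e (nat_lit 164327) (nat_lit 230) (.e (nat_lit 163873) (nat_lit 3) (.e (nat_lit 204813) (nat_lit 9) (.e (nat_lit 426199) (nat_lit 9) (.e (nat_lit 426481) (nat_lit 27) (.e (nat_lit 336388) (nat_lit 27) .nil))))))) (.g (nat_lit 1) (.e (nat_lit 297164) (nat_lit 0) .nil) .nil))) 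
(.lf (nat_lit 551712) (.g (nat_lit 2704) (.e (nat_lit 426121) (nat_lit 2) (.e (nat_lit 196666) (nat_lit 13) (.e (nat_lit 65617) (nat_lit 10) (.e (nat_lit 344132) (nat_lit 26) (.e (nat_lit 557093) (nat_lit 12) (.e (nat_lit 171776) (nat_lit 49) (.e (nat_lit 729096) (nat_lit 11) .nil))))))) (.g (nat_lit 1) (.e (nat_lit 298564) (nat_lit 0) .nil) .nil))))) (.nd (nat_lit 8) (.nd (nat_lit 9) 
(.lf (nat_lit 551072) (.g (nat_lit 2322) (.e (nat_lit 426106) (nat_lit 1) (.e (nat_lit 164332) (nat_lit 230) (.e (nat_lit 163869) (nat_lit 2) (.e (nat_lit 196653) (nat_lit 11) (.e (nat_lit 16468) (nat_lit 13) .nil))))) (.g (nat_lit 0) (.e (nat_lit 296793) (nat_lit 0) .nil) .nil))) 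
(.lf (nat_lit 551584) (.g (nat_lit 2469) (.e (nat_lit 426117) (nat_lit 2) (.e (nat_lit 196666) (nat_lit 13) (.e (nat_lit 65617) (nat_lit 10) (.e (nat_lit 344133) (nat_lit 26) (.e (nat_lit 557089) (nat_lit 12) .nil))))) (.g (nat_lit 0) (.e (nat_lit 298395) (nat_lit 0) .nil) .nil)))) (.nd (nat_lit 9) 
(.lf (nat_lit 551328) (.g (nat_lit 2144) (.e (nat_lit 426108) (nat_lit 1) (.e (nat_lit 164332) (nat_lit 230) (.e (nat_lit 163874) (nat_lit 3) (.e (nat_lit 204809) (nat_lit 9) (.e (nat_lit 426213) (nat_lit 9) (.e (nat_lit 426528) (nat_lit 27) (.e (nat_lit 336387) (nat_lit 27) .nil))))))) (.g (nat_lit 1) (.e (nat_lit 297502) (nat_lit 0) .nil) .nil))) 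
(.lf (nat_lit 551840) (.g (nat_lit 2954) (.e (nat_lit 426122) (nat_lit 2) (.e (nat_lit 196666) (nat_lit 13) (.e (nat_lit 65617) (nat_lit 10) (.e (nat_lit 344133) (nat_lit 26) (.e (nat_lit 557091) (nat_lit 12) (.e (nat_lit 164022) (nat_lit 46) (.e (nat_lit 704628) (nat_lit 9) (.e (nat_lit 398) (nat_lit 32) .nil)))))))) (.g (nat_lit 1) (.e (nat_lit 298729) (nat_lit 0) .nil) .nil)))))) 
(.nd (nat_lit 7) (.nd (nat_lit 8) (.nd (nat_lit 9) 
(.lf (nat_lit 551008) (.g (nat_lit 1969) (.e (nat_lit 426105) (nat_lit 1) (.e (nat_lit 164403) (nat_lit 256) (.e (nat_lit 57373) (nat_lit 2) (.e (nat_lit 90168) (nat_lit 13) .nil)))) (.g (nat_lit 0) (.e (nat_lit 296681) (nat_lit 0) .nil) .nil))) 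
(.lf (nat_lit 551520) (.g (nat_lit 1185) (.e (nat_lit 426113) (nat_lit 2) (.e (nat_lit 196666) (nat_lit 13) (.e (nat_lit 65617) (nat_lit 10) (.e (nat_lit 344127) (nat_lit 26) .nil)))) (.g (nat_lit 0) (.e (nat_lit 298109) (nat_lit 0) .nil) .nil)))) (.nd (nat_lit 9) 
(.lf (nat_lit 551264) (.g (nat_lit 338) (.e (nat_lit 426108) (nat_lit 1) (.e (nat_lit 164183) (nat_lit 154) (.e (nat_lit 57411) (nat_lit 12) .nil))) (.g (nat_lit 0) (.e (nat_lit 297334) (nat_lit 0) .nil) .nil))) 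
(.lf (nat_lit 551776) (.g (nat_lit 387) (.e (nat_lit 426122) (nat_lit 2) (.e (nat_lit 196666) (nat_lit 13) (.e (nat_lit 65617) (nat_lit 10) .nil))) (.g (nat_lit 0) (.e (nat_lit 298660) (nat_lit 0) .nil) .nil))))) (.nd (nat_lit 8) (.nd (nat_lit 9) 
(.lf (nat_lit 551136) (.g (nat_lit 1450) (.e (nat_lit 426107) (nat_lit 1) (.e (nat_lit 164325) (nat_lit 230) (.e (nat_lit 163873) (nat_lit 3) (.e (nat_lit 204809) (nat_lit 9) (.e (nat_lit 426204) (nat_lit 9) .nil))))) (.g (nat_lit 0) (.e (nat_lit 296934) (nat_lit 0) .nil) .nil))) 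
(.lf (nat_lit 551648) (.g (nat_lit 1312) (.e (nat_lit 426121) (nat_lit 2) (.e (nat_lit 196666) (nat_lit 13) (.e (nat_lit 65617) (nat_lit 10) (.e (nat_lit 344127) (nat_lit 26) .nil)))) (.g (nat_lit 0) (.e (nat_lit 298490) (nat_lit 0) .nil) .nil)))) (.nd (nat_lit 9) 
(.lf (nat_lit 551392) (.g (nat_lit 897) (.e (nat_lit 426109) (nat_lit 1) (.e (nat_lit 164346) (nat_lit 240) (.e (nat_lit 2638) (nat_lit 165) (.e (nat_lit 180277) (nat_lit 32) .nil)))) (.g (nat_lit 0) (.e (nat_lit 297708) (nat_lit 0) .nil) .nil))) 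
(.lf (nat_lit 551904) (.g (nat_lit 3719) (.e (nat_lit 426123) (nat_lit 2) (.e (nat_lit 196666) (nat_lit 13) (.e (nat_lit 65610) (nat_lit 10) (.e (nat_lit 344129) (nat_lit 26) (.e (nat_lit 557089) (nat_lit 12) (.e (nat_lit 163844) (nat_lit 0) (.e (nat_lit 6421) (nat_lit 341) (.e (nat_lit 171776) (nat_lit 12) .nil)))))))) (.g (nat_lit 1) (.e (nat_lit 299011) (nat_lit 0) .nil) .nil)))))))) 
(.nd (nat_lit 5) (.nd (nat_lit 6) (.nd (nat_lit 7) (.nd (nat_lit 8) (.nd (nat_lit 9) 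
(.lf (nat_lit 550928) (.g (nat_lit 520) (.e (nat_lit 426100) (nat_lit 1) (.e (nat_lit 164403) (nat_lit 256) (.e (nat_lit 65280) (nat_lit 64) .nil))) (.g (nat_lit 0) (.e (nat_lit 296466) (nat_lit 0) .nil) .nil))) 
(.lf (nat_lit 551440) (.g (nat_lit 2595) (.e (nat_lit 426110) (nat_lit 1) (.e (nat_lit 164327) (nat_lit 230) (.e (nat_lit 163871) (nat_lit 2) (.e (nat_lit 196656) (nat_lit 11) (.e (nat_lit 16466) (nat_lit 13) (.e (nat_lit 491264) (nat_lit 9) .nil)))))) (.g (nat_lit 1) (.e (nat_lit 297874) (nat_lit 0) .nil) .nil)))) (.nd (nat_lit 9) 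
(.lf (nat_lit 551184) (.g (nat_lit 2912) (.e (nat_lit 426107) (nat_lit 1) (.e (nat_lit 164327) (nat_lit 230) (.e (nat_lit 163870) (nat_lit 2) (.e (nat_lit 196653) (nat_lit 11) (.e (nat_lit 16465) (nat_lit 13) (.e (nat_lit 483341) (nat_lit 9) .nil)))))) (.g (nat_lit 1) (.e (nat_lit 297139) (nat_lit 0) .nil) .nil))) 
(.lf (nat_lit 551696) (.g (nat_lit 4685) (.e (nat_lit 426121) (nat_lit 2) (.e (nat_lit 196666) (nat_lit 13) (.e (nat_lit 65617) (nat_lit 10) (.e (nat_lit 344132) (nat_lit 26) (.e (nat_lit 557093) (nat_lit 12) (.e (nat_lit 164022) (nat_lit 46) (.e (nat_lit 704629) (nat_lit 9) (.e (nat_lit 416) (nat_lit 32) .nil)))))))) (.g (nat_lit 1) (.e (nat_lit 298538) (nat_lit 0) .nil) .nil))))) 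
(.nd (nat_lit 8) (.nd (nat_lit 9) 
(.lf (nat_lit 551056) (.g (nat_lit 1549) (.e (nat_lit 426106) (nat_lit 1) (.e (nat_lit 164327) (nat_lit 230) (.e (nat_lit 163867) (nat_lit 2) (.e (nat_lit 196654) (nat_lit 11) .nil)))) (.g (nat_lit 0) (.e (nat_lit 296753) (nat_lit 0) .nil) .nil))) 
(.lf (nat_lit 551568) (.g (nat_lit 967) (.e (nat_lit 426116) (nat_lit 2) (.e (nat_lit 196656) (nat_lit 11) (.e (nat_lit 16412) (nat_lit 2) (.e (nat_lit 196654) (nat_lit 11) .nil)))) (.g (nat_lit 0) (.e (nat_lit 298317) (nat_lit 0) .nil) .nil)))) (.nd (nat_lit 9) 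
(.lf (nat_lit 551312) (.g (nat_lit 1261) (.e (nat_lit 426108) (nat_lit 1) (.e (nat_lit 164331) (nat_lit 230) (.e (nat_lit 163867) (nat_lit 2) (.e (nat_lit 196656) (nat_lit 11) .nil)))) (.g (nat_lit 0) (.e (nat_lit 297430) (nat_lit 0) .nil) .nil))) 
(.lf (nat_lit 551824) (.g (nat_lit 2311) (.e (nat_lit 426122) (nat_lit 2) (.e (nat_lit 196666) (nat_lit 13) (.e (nat_lit 65617) (nat_lit 10) (.e (nat_lit 344132) (nat_lit 26) (.e (nat_lit 557094) (nat_lit 12) (.e (nat_lit 164022) (nat_lit 46) (.e (nat_lit 704628) (nat_lit 9) (.e (nat_lit 399) (nat_lit 32) .nil)))))))) (.g (nat_lit 1) (.e (nat_lit 298713) (nat_lit 0) .nil) .nil)))))) 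
(.nd (nat_lit 7) (.nd (nat_lit 8) (.nd (nat_lit 9) 
(.lf (nat_lit 550992) (.g (nat_lit 2059) (.e (nat_lit 426105) (nat_lit 1) (.e (nat_lit 164332) (nat_lit 230) (.e (nat_lit 163869) (nat_lit 2) (.e (nat_lit 196654) (nat_lit 11) .nil)))) (.g (nat_lit 0) (.e (nat_lit 296658) (nat_lit 0) .nil) .nil))) 
(.lf (nat_lit 551504) (.g (nat_lit 2427) (.e (nat_lit 433920) (nat_lit 1) (.e (nat_lit 164403) (nat_lit 256) (.e (nat_lit 57373) (nat_lit 2) (.e (nat_lit 90170) (nat_lit 13) (.e (nat_lit 172123) (nat_lit 13) .nil))))) (.g (nat_lit 0) (.e (nat_lit 298080) (nat_lit 0) .nil) .nil)))) (.nd (nat_lit 9) 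
(.lf (nat_lit 551248) (.g (nat_lit 1272) (.e (nat_lit 426107) (nat_lit 1) (.e (nat_lit 164403) (nat_lit 256) (.e (nat_lit 57378) (nat_lit 3) (.e (nat_lit 98379) (nat_lit 31) .nil)))) (.g (nat_lit 0) (.e (nat_lit 297317) (nat_lit 0) .nil) .nil))) 
(.lf (nat_lit 551760) (.g (nat_lit 3793) (.e (nat_lit 426121) (nat_lit 2) (.e (nat_lit 196666) (nat_lit 13) (.e (nat_lit 65617) (nat_lit 10) (.e (nat_lit 344133) (nat_lit 26) (.e (nat_lit 557091) (nat_lit 12) (.e (nat_lit 171776) (nat_lit 48) (.e (nat_lit 720909) (nat_lit 11) .nil))))))) (.g (nat_lit 1) (.e (nat_lit 298615) (nat_lit 0) .nil) .nil))))) (.nd (nat_lit 8) (.nd (nat_lit 9) 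
(.lf (nat_lit 551120) (.g (nat_lit 2727) (.e (nat_lit 426107) (nat_lit 1) (.e (nat_lit 164324) (nat_lit 230) (.e (nat_lit 163871) (nat_lit 2) (.e (nat_lit 196656) (nat_lit 11) (.e (nat_lit 16466) (nat_lit 13) (.e (nat_lit 483341) (nat_lit 9) .nil)))))) (.g (nat_lit 1) (.e (nat_lit 296869) (nat_lit 0) .nil) .nil))) 
(.lf (nat_lit 551632) (.g (nat_lit 4416) (.e (nat_lit 426120) (nat_lit 2) (.e (nat_lit 196666) (nat_lit 13) (.e (nat_lit 65617) (nat_lit 10) (.e (nat_lit 344133) (nat_lit 26) (.e (nat_lit 557091) (nat_lit 12) (.e (nat_lit 164022) (nat_lit 46) (.e (nat_lit 704629) (nat_lit 9) (.e (nat_lit 411) (nat_lit 32) .nil)))))))) (.g (nat_lit 1) (.e (nat_lit 298454) (nat_lit 0) .nil) .nil)))) 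
(.nd (nat_lit 9) 
(.lf (nat_lit 551376) (.g (nat_lit 2531) (.e (nat_lit 426109) (nat_lit 1) (.e (nat_lit 164327) (nat_lit 230) (.e (nat_lit 163868) (nat_lit 2) (.e (nat_lit 196656) (nat_lit 11) (.e (nat_lit 16463) (nat_lit 13) .nil))))) (.g (nat_lit 0) (.e (nat_lit 297636) (nat_lit 0) .nil) .nil))) 
(.lf (nat_lit 551888) (.g (nat_lit 3763) (.e (nat_lit 426123) (nat_lit 2) (.e (nat_lit 196666) (nat_lit 13) (.e (nat_lit 65610) (nat_lit 10) (.e (nat_lit 344117) (nat_lit 21) (.e (nat_lit 524032) (nat_lit 18) (.e (nat_lit 57688) (nat_lit 156) (.e (nat_lit 171776) (nat_lit 12) .nil))))))) (.g (nat_lit 1) (.e (nat_lit 298959) (nat_lit 0) .nil) .nil))))))) 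
(.nd (nat_lit 6) (.nd (nat_lit 7) (.nd (nat_lit 8) (.nd (nat_lit 9) 
(.lf (nat_lit 550960) (.g (nat_lit 1987) (.e (nat_lit 426105) (nat_lit 1) (.e (nat_lit 164182) (nat_lit 154) (.e (nat_lit 57411) (nat_lit 12) (.e (nat_lit 336324) (nat_lit 18) (.e (nat_lit 204876) (nat_lit 31) .nil))))) (.g (nat_lit 0) (.e (nat_lit 296577) (nat_lit 0) .nil) .nil))) 
(.lf (nat_lit 551472) (.g (nat_lit 483) (.e (nat_lit 433920) (nat_lit 1) (.e (nat_lit 164327) (nat_lit 230) (.e (nat_lit 163868) (nat_lit 2) .nil))) (.g (nat_lit 0) (.e (nat_lit 298032) (nat_lit 0) .nil) .nil)))) (.nd (nat_lit 9) 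
(.lf (nat_lit 551216) (.g (nat_lit 2666) (.e (nat_lit 426107) (nat_lit 1) (.e (nat_lit 164332) (nat_lit 230) (.e (nat_lit 163869) (nat_lit 2) (.e (nat_lit 196654) (nat_lit 11) (.e (nat_lit 16466) (nat_lit 13) .nil))))) (.g (nat_lit 0) (.e (nat_lit 297207) (nat_lit 0) .nil) .nil))) 
(.lf (nat_lit 551728) (.g (nat_lit 3580) (.e (nat_lit 426121) (nat_lit 2) (.e (nat_lit 196666) (nat_lit 13) (.e (nat_lit 65617) (nat_lit 10) (.e (nat_lit 344132) (nat_lit 26) (.e (nat_lit 557094) (nat_lit 12) (.e (nat_lit 164022) (nat_lit 46) (.e (nat_lit 704629) (nat_lit 9) (.e (nat_lit 398) (nat_lit 32) .nil)))))))) (.g (nat_lit 1) (.e (nat_lit 298580) (nat_lit 0) .nil) .nil))))) 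
(.nd (nat_lit 8) (.nd (nat_lit 9) 
(.lf (nat_lit 551088) (.g (nat_lit 1597) (.e (nat_lit 426106) (nat_lit 1) (.e (nat_lit 164403) (nat_lit 256) (.e (nat_lit 57409) (nat_lit 12) (.e (nat_lit 336430) (nat_lit 29) (.e (nat_lit 442425) (nat_lit 23) .nil))))) (.g (nat_lit 0) (.e (nat_lit 296812) (nat_lit 0) .nil) .nil))) 
(.lf (nat_lit 551600) (.g (nat_lit 2197) (.e (nat_lit 426120) (nat_lit 2) (.e (nat_lit 196666) (nat_lit 13) (.e (nat_lit 65617) (nat_lit 10) (.e (nat_lit 344130) (nat_lit 26) (.e (nat_lit 557090) (nat_lit 12) .nil))))) (.g (nat_lit 0) (.e (nat_lit 298422) (nat_lit 0) .nil) .nil)))) (.nd (nat_lit 9) 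
(.lf (nat_lit 551344) (.g (nat_lit 1782) (.e (nat_lit 426108) (nat_lit 1) (.e (nat_lit 164403) (nat_lit 256) (.e (nat_lit 57371) (nat_lit 2) (.e (nat_lit 90167) (nat_lit 13) (.e (nat_lit 172121) (nat_lit 13) .nil))))) (.g (nat_lit 0) (.e (nat_lit 297529) (nat_lit 0) .nil) .nil))) 
(.lf (nat_lit 551856) (.g (nat_lit 2233) (.e (nat_lit 426122) (nat_lit 2) (.e (nat_lit 196674) (nat_lit 15) (.e (nat_lit 81922) (nat_lit 0) (.e (nat_lit 3253) (nat_lit 197) (.e (nat_lit 532515) (nat_lit 3) (.e (nat_lit 114698) (nat_lit 11) .nil)))))) (.g (nat_lit 1) (.e (nat_lit 298760) (nat_lit 0) .nil) .nil)))))) (.nd (nat_lit 7) (.nd (nat_lit 8) (.nd (nat_lit 9) 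
(.lf (nat_lit 551024) (.g (nat_lit 1164) (.e (nat_lit 426106) (nat_lit 1) (.e (nat_lit 164179) (nat_lit 154) (.e (nat_lit 57406) (nat_lit 12) (.e (nat_lit 336316) (nat_lit 17) .nil)))) (.g (nat_lit 0) (.e (nat_lit 296705) (nat_lit 0) .nil) .nil))) 
(.lf (nat_lit 551536) (.g (nat_lit 1357) (.e (nat_lit 426114) (nat_lit 2) (.e (nat_lit 196654) (nat_lit 11) (.e (nat_lit 16412) (nat_lit 2) (.e (nat_lit 204544) (nat_lit 11) .nil)))) (.g (nat_lit 0) (.e (nat_lit 298167) (nat_lit 0) .nil) .nil)))) (.nd (nat_lit 9) 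
(.lf (nat_lit 551280) (.g (nat_lit 3197) (.e (nat_lit 426108) (nat_lit 1) (.e (nat_lit 164330) (nat_lit 230) (.e (nat_lit 163867) (nat_lit 2) (.e (nat_lit 196654) (nat_lit 11) (.e (nat_lit 16463) (nat_lit 13) (.e (nat_lit 483336) (nat_lit 9) .nil)))))) (.g (nat_lit 1) (.e (nat_lit 297378) (nat_lit 0) .nil) .nil))) 
(.lf (nat_lit 551792) (.g (nat_lit 3559) (.e (nat_lit 426122) (nat_lit 2) (.e (nat_lit 196666) (nat_lit 13) (.e (nat_lit 65617) (nat_lit 10) (.e (nat_lit 344130) (nat_lit 26) (.e (nat_lit 557090) (nat_lit 12) (.e (nat_lit 164022) (nat_lit 46) (.e (nat_lit 704628) (nat_lit 9) (.e (nat_lit 416) (nat_lit 32) .nil)))))))) (.g (nat_lit 1) (.e (nat_lit 298676) (nat_lit 0) .nil) .nil))))) 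
(.nd (nat_lit 8) (.nd (nat_lit 9) 
(.lf (nat_lit 551152) (.g (nat_lit 2557) (.e (nat_lit 426107) (nat_lit 1) (.e (nat_lit 164326) (nat_lit 230) (.e (nat_lit 163866) (nat_lit 2) (.e (nat_lit 196654) (nat_lit 11) (.e (nat_lit 16466) (nat_lit 13) (.e (nat_lit 483341) (nat_lit 9) .nil)))))) (.g (nat_lit 1) (.e (nat_lit 296977) (nat_lit 0) .nil) .nil))) 
(.lf (nat_lit 551664) (.g (nat_lit 4403) (.e (nat_lit 426121) (nat_lit 2) (.e (nat_lit 196666) (nat_lit 13) (.e (nat_lit 65617) (nat_lit 10) (.e (nat_lit 344130) (nat_lit 26) (.e (nat_lit 557090) (nat_lit 12) (.e (nat_lit 164022) (nat_lit 46) (.e (nat_lit 704628) (nat_lit 9) (.e (nat_lit 416) (nat_lit 32) .nil)))))))) (.g (nat_lit 1) (.e (nat_lit 298506) (nat_lit 0) .nil) .nil)))) 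
(.nd (nat_lit 9) 
(.lf (nat_lit 551408) (.g (nat_lit 2337) (.e (nat_lit 426109) (nat_lit 1) (.e (nat_lit 164348) (nat_lit 240) (.e (nat_lit 2610) (nat_lit 163) (.e (nat_lit 163978) (nat_lit 30) (.e (nat_lit 573485) (nat_lit 13) .nil))))) (.g (nat_lit 0) (.e (nat_lit 297768) (nat_lit 0) .nil) .nil))) 
(.lf (nat_lit 551920) (.g (nat_lit 2399) (.e (nat_lit 426123) (nat_lit 2) (.e (nat_lit 196666) (nat_lit 13) (.e (nat_lit 65610) (nat_lit 10) (.e (nat_lit 344129) (nat_lit 26) (.e (nat_lit 557090) (nat_lit 12) (.e (nat_lit 163844) (nat_lit 0) (.e (nat_lit 6418) (nat_lit 341) (.e (nat_lit 171776) (nat_lit 12) .nil)))))))) (.g (nat_lit 1) (.e (nat_lit 299042) (nat_lit 0) .nil) .nil))))))))) 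
(.nd (nat_lit 4) (.nd (nat_lit 5) (.nd (nat_lit 6) (.nd (nat_lit 7) (.nd (nat_lit 8) 
(.nd (nat_lit 9) 
(.lf (nat_lit 550920) (.g (nat_lit 1070) (.e (nat_lit 426100) (nat_lit 1) (.e (nat_lit 164403) (nat_lit 256) (.e (nat_lit 57377) (nat_lit 3) (.e (nat_lit 98365) (nat_lit 26) .nil)))) (.g (nat_lit 0) (.e (nat_lit 296458) (nat_lit 0) .nil) .nil))) 
(.lf (nat_lit 551432) (.g (nat_lit 3014) (.e (nat_lit 426110) (nat_lit 1) (.e (nat_lit 164327) (nat_lit 230) (.e (nat_lit 163871) (nat_lit 2) (.e (nat_lit 196654) (nat_lit 11) (.e (nat_lit 16466) (nat_lit 13) (.e (nat_lit 483339) (nat_lit 9) .nil)))))) (.g (nat_lit 1) (.e (nat_lit 297857) (nat_lit 0) .nil) .nil)))) (.nd (nat_lit 9) 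
(.lf (nat_lit 551176) (.g (nat_lit 1090) (.e (nat_lit 426107) (nat_lit 1) (.e (nat_lit 164326) (nat_lit 230) (.e (nat_lit 163875) (nat_lit 3) (.e (nat_lit 204811) (nat_lit 9) .nil)))) (.g (nat_lit 0) (.e (nat_lit 297113) (nat_lit 0) .nil) .nil))) 
(.lf (nat_lit 551688) (.g (nat_lit 2790) (.e (nat_lit 426121) (nat_lit 2) (.e (nat_lit 196666) (nat_lit 13) (.e (nat_lit 65617) (nat_lit 10) (.e (nat_lit 344132) (nat_lit 26) (.e (nat_lit 557093) (nat_lit 12) (.e (nat_lit 164022) (nat_lit 46) (.e (nat_lit 704628) (nat_lit 9) (.e (nat_lit 389) (nat_lit 32) .nil)))))))) (.g (nat_lit 1) (.e (nat_lit 298530) (nat_lit 0) .nil) .nil))))) 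
(.nd (nat_lit 8) (.nd (nat_lit 9) 
(.lf (nat_lit 551048) (.g (nat_lit 2438) (.e (nat_lit 426106) (nat_lit 1) (.e (nat_lit 164325) (nat_lit 230) (.e (nat_lit 163869) (nat_lit 2) (.e (nat_lit 196656) (nat_lit 11) (.e (nat_lit 16463) (nat_lit 13) .nil))))) (.g (nat_lit 0) (.e (nat_lit 296734) (nat_lit 0) .nil) .nil))) 
(.lf (nat_lit 551560) (.g (nat_lit 2515) (.e (nat_lit 426116) (nat_lit 2) (.e (nat_lit 196654) (nat_lit 11) (.e (nat_lit 16412) (nat_lit 2) (.e (nat_lit 196656) (nat_lit 11) (.e (nat_lit 16416) (nat_lit 3) (.e (nat_lit 204812) (nat_lit 9) .nil)))))) (.g (nat_lit 1) (.e (nat_lit 298286) (nat_lit 0) .nil) .nil)))) (.nd (nat_lit 9) 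
(.lf (nat_lit 551304) (.g (nat_lit 2369) (.e (nat_lit 426108) (nat_lit 1) (.e (nat_lit 164330) (nat_lit 230) (.e (nat_lit 163873) (nat_lit 3) (.e (nat_lit 204813) (nat_lit 9) (.e (nat_lit 426200) (nat_lit 9) (.e (nat_lit 426481) (nat_lit 27) (.e (nat_lit 336385) (nat_lit 27) .nil))))))) (.g (nat_lit 1) (.e (nat_lit 297413) (nat_lit 0) .nil) .nil))) 
(.lf (nat_lit 551816) (.g (nat_lit 2165) (.e (nat_lit 426122) (nat_lit 2) (.e (nat_lit 196666) (nat_lit 13) (.e (nat_lit 65617) (nat_lit 10) (.e (nat_lit 344132) (nat_lit 26) (.e (nat_lit 557093) (nat_lit 12) (.e (nat_lit 164023) (nat_lit 46) (.e (nat_lit 704633) (nat_lit 9) (.e (nat_lit 396) (nat_lit 32) .nil)))))))) (.g (nat_lit 1) (.e (nat_lit 298700) (nat_lit 0) .nil) .nil)))))) 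
(.nd (nat_lit 7) (.nd (nat_lit 8) (.nd (nat_lit 9) 
(.lf (nat_lit 550984) (.g (nat_lit 1968) (.e (nat_lit 426105) (nat_lit 1) (.e (nat_lit 164330) (nat_lit 230) (.e (nat_lit 163867) (nat_lit 2) (.e (nat_lit 196654) (nat_lit 11) (.e (nat_lit 16466) (nat_lit 13) .nil))))) (.g (nat_lit 0) (.e (nat_lit 296633) (nat_lit 0) .nil) .nil))) 
(.lf (nat_lit 551496) (.g (nat_lit 894) (.e (nat_lit 433920) (nat_lit 1) (.e (nat_lit 164399) (nat_lit 256) (.e (nat_lit 57409) (nat_lit 12) (.e (nat_lit 336430) (nat_lit 29) .nil)))) (.g (nat_lit 0) (.e (nat_lit 298072) (nat_lit 0) .nil) .nil)))) (.nd (nat_lit 9) 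
(.lf (nat_lit 551240) (.g (nat_lit 2742) (.e (nat_lit 426107) (nat_lit 1) (.e (nat_lit 164403) (nat_lit 256) (.e (nat_lit 57377) (nat_lit 3) (.e (nat_lit 98358) (nat_lit 26) (.e (nat_lit 426323) (nat_lit 13) .nil))))) (.g (nat_lit 0) (.e (nat_lit 297309) (nat_lit 0) .nil) .nil))) 
(.lf (nat_lit 551752) (.g (nat_lit 4419) (.e (nat_lit 426121) (nat_lit 2) (.e (nat_lit 196666) (nat_lit 13) (.e (nat_lit 65617) (nat_lit 10) (.e (nat_lit 344133) (nat_lit 26) (.e (nat_lit 557091) (nat_lit 12) (.e (nat_lit 164022) (nat_lit 46) (.e (nat_lit 704628) (nat_lit 9) (.e (nat_lit 416) (nat_lit 32) .nil)))))))) (.g (nat_lit 1) (.e (nat_lit 298606) (nat_lit 0) .nil) .nil))))) 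
(.nd (nat_lit 8) (.nd (nat_lit 9) 
(.lf (nat_lit 551112) (.g (nat_lit 3665) (.e (nat_lit 426107) (nat_lit 1) (.e (nat_lit 164322) (nat_lit 230) (.e (nat_lit 163867) (nat_lit 2) (.e (nat_lit 196654) (nat_lit 11) (.e (nat_lit 16463) (nat_lit 13) (.e (nat_lit 483337) (nat_lit 9) .nil)))))) (.g (nat_lit 1) (.e (nat_lit 296853) (nat_lit 0) .nil) .nil))) 
(.lf (nat_lit 551624) (.g (nat_lit 3613) (.e (nat_lit 426120) (nat_lit 2) (.e (nat_lit 196666) (nat_lit 13) (.e (nat_lit 65617) (nat_lit 10) (.e (nat_lit 344133) (nat_lit 26) (.e (nat_lit 557091) (nat_lit 12) (.e (nat_lit 164017) (nat_lit 44) (.e (nat_lit 688138) (nat_lit 5) (.e (nat_lit 2887) (nat_lit 184) .nil)))))))) (.g (nat_lit 1) (.e (nat_lit 298446) (nat_lit 0) .nil) .nil)))) 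
(.nd (nat_lit 9) 
(.lf (nat_lit 551368) (.g (nat_lit 1739) (.e (nat_lit 426109) (nat_lit 1) (.e (nat_lit 164322) (nat_lit 230) (.e (nat_lit 163878) (nat_lit 4) (.e (nat_lit 213030) (nat_lit 11) (.e (nat_lit 24660) (nat_lit 13) (.e (nat_lit 393275) (nat_lit 23) .nil)))))) (.g (nat_lit 1) (.e (nat_lit 297612) (nat_lit 0) .nil) .nil))) 
(.lf (nat_lit 551880) (.g (nat_lit 3088) (.e (nat_lit 426123) (nat_lit 2) (.e (nat_lit 196666) (nat_lit 13) (.e (nat_lit 65610) (nat_lit 10) (.e (nat_lit 344090) (nat_lit 18) (.e (nat_lit 4011) (nat_lit 243) (.e (nat_lit 171776) (nat_lit 66) (.e (nat_lit 114698) (nat_lit 11) .nil))))))) (.g (nat_lit 1) (.e (nat_lit 298811) (nat_lit 0) .nil) .nil))))))) 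
(.nd (nat_lit 6) (.nd (nat_lit 7) (.nd (nat_lit 8) (.nd (nat_lit 9) 
(.lf (nat_lit 550952) (.g (nat_lit 1883) (.e (nat_lit 426105) (nat_lit 1) (.e (nat_lit 164179) (nat_lit 154) (.e (nat_lit 57411) (nat_lit 12) (.e (nat_lit 336316) (nat_lit 17) .nil)))) (.g (nat_lit 0) (.e (nat_lit 296568) (nat_lit 0) .nil) .nil))) 
(.lf (nat_lit 551464) (.g (nat_lit 2466) (.e (nat_lit 426112) (nat_lit 1) (.e (nat_lit 164327) (nat_lit 230) (.e (nat_lit 163871) (nat_lit 2) (.e (nat_lit 196656) (nat_lit 11) (.e (nat_lit 16463) (nat_lit 13) .nil))))) (.g (nat_lit 0) (.e (nat_lit 297994) (nat_lit 0) .nil) .nil)))) (.nd (nat_lit 9) 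
(.lf (nat_lit 551208) (.g (nat_lit 1779) (.e (nat_lit 426107) (nat_lit 1) (.e (nat_lit 164327) (nat_lit 230) (.e (nat_lit 163875) (nat_lit 3) (.e (nat_lit 204811) (nat_lit 9) .nil)))) (.g (nat_lit 0) (.e (nat_lit 297189) (nat_lit 0) .nil) .nil))) 
(.lf (nat_lit 551720) (.g (nat_lit 2658) (.e (nat_lit 426121) (nat_lit 2) (.e (nat_lit 196666) (nat_lit 13) (.e (nat_lit 65617) (nat_lit 10) (.e (nat_lit 344132) (nat_lit 26) (.e (nat_lit 557094) (nat_lit 12) (.e (nat_lit 164022) (nat_lit 46) (.e (nat_lit 704627) (nat_lit 9) (.e (nat_lit 435) (nat_lit 32) .nil)))))))) (.g (nat_lit 1) (.e (nat_lit 298572) (nat_lit 0) .nil) .nil))))) 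
(.nd (nat_lit 8) (.nd (nat_lit 9) 
(.lf (nat_lit 551080) (.g (nat_lit 435) (.e (nat_lit 426106) (nat_lit 1) (.e (nat_lit 164403) (nat_lit 256) (.e (nat_lit 57378) (nat_lit 3) .nil))) (.g (nat_lit 0) (.e (nat_lit 296804) (nat_lit 0) .nil) .nil))) 
(.lf (nat_lit 551592) (.g (nat_lit 2399) (.e (nat_lit 426118) (nat_lit 2) (.e (nat_lit 196666) (nat_lit 13) (.e (nat_lit 65617) (nat_lit 10) (.e (nat_lit 344130) (nat_lit 26) (.e (nat_lit 557090) (nat_lit 12) .nil))))) (.g (nat_lit 0) (.e (nat_lit 298409) (nat_lit 0) .nil) .nil)))) (.nd (nat_lit 9) 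
(.lf (nat_lit 551336) (.g (nat_lit 3303) (.e (nat_lit 426108) (nat_lit 1) (.e (nat_lit 164402) (nat_lit 256) (.e (nat_lit 57373) (nat_lit 2) (.e (nat_lit 90170) (nat_lit 13) (.e (nat_lit 172121) (nat_lit 13) (.e (nat_lit 483337) (nat_lit 9) .nil)))))) (.g (nat_lit 1) (.e (nat_lit 297518) (nat_lit 0) .nil) .nil))) 
(.lf (nat_lit 551848) (.g (nat_lit 2982) (.e (nat_lit 426122) (nat_lit 2) (.e (nat_lit 196666) (nat_lit 13) (.e (nat_lit 65617) (nat_lit 10) (.e (nat_lit 344133) (nat_lit 26) (.e (nat_lit 557091) (nat_lit 12) (.e (nat_lit 171776) (nat_lit 49) (.e (nat_lit 729098) (nat_lit 11) .nil))))))) (.g (nat_lit 1) (.e (nat_lit 298738) (nat_lit 0) .nil) .nil)))))) 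
(.nd (nat_lit 7) (.nd (nat_lit 8) (.nd (nat_lit 9) 
(.lf (nat_lit 551016) (.g (nat_lit 1379) (.e (nat_lit 426105) (nat_lit 1) (.e (nat_lit 164403) (nat_lit 256) (.e (nat_lit 57378) (nat_lit 3) (.e (nat_lit 98381) (nat_lit 31) .nil)))) (.g (nat_lit 0) (.e (nat_lit 296689) (nat_lit 0) .nil) .nil))) 
(.lf (nat_lit 551528) (.g (nat_lit 2127) (.e (nat_lit 426113) (nat_lit 2) (.e (nat_lit 196666) (nat_lit 13) (.e (nat_lit 65617) (nat_lit 10) (.e (nat_lit 344132) (nat_lit 26) (.e (nat_lit 557094) (nat_lit 12) .nil))))) (.g (nat_lit 0) (.e (nat_lit 298119) (nat_lit 0) .nil) .nil)))) (.nd (nat_lit 9) 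
(.lf (nat_lit 551272) (.g (nat_lit 4125) (.e (nat_lit 426108) (nat_lit 1) (.e (nat_lit 164329) (nat_lit 230) (.e (nat_lit 163867) (nat_lit 2) (.e (nat_lit 196656) (nat_lit 11) (.e (nat_lit 16463) (nat_lit 13) (.e (nat_lit 483341) (nat_lit 9) .nil)))))) (.g (nat_lit 1) (.e (nat_lit 297361) (nat_lit 0) .nil) .nil))) 
(.lf (nat_lit 551784) (.g (nat_lit 2783) (.e (nat_lit 426122) (nat_lit 2) (.e (nat_lit 196666) (nat_lit 13) (.e (nat_lit 65617) (nat_lit 10) (.e (nat_lit 344130) (nat_lit 26) (.e (nat_lit 557090) (nat_lit 12) (.e (nat_lit 164022) (nat_lit 46) (.e (nat_lit 704626) (nat_lit 9) (.e (nat_lit 416) (nat_lit 32) .nil)))))))) (.g (nat_lit 1) (.e (nat_lit 298668) (nat_lit 0) .nil) .nil))))) 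
(.nd (nat_lit 8) (.nd (nat_lit 9) 
(.lf (nat_lit 551144) (.g (nat_lit 1871) (.e (nat_lit 426107) (nat_lit 1) (.e (nat_lit 164325) (nat_lit 230) (.e (nat_lit 163874) (nat_lit 3) (.e (nat_lit 204809) (nat_lit 9) .nil)))) (.g (nat_lit 0) (.e (nat_lit 296949) (nat_lit 0) .nil) .nil))) 
(.lf (nat_lit 551656) (.g (nat_lit 3416) (.e (nat_lit 426121) (nat_lit 2) (.e (nat_lit 196666) (nat_lit 13) (.e (nat_lit 65617) (nat_lit 10) (.e (nat_lit 344130) (nat_lit 26) (.e (nat_lit 557090) (nat_lit 12) (.e (nat_lit 164022) (nat_lit 46) (.e (nat_lit 704626) (nat_lit 9) (.e (nat_lit 435) (nat_lit 32) .nil)))))))) (.g (nat_lit 1) (.e (nat_lit 298498) (nat_lit 0) .nil) .nil)))) 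
(.nd (nat_lit 9) 
(.lf (nat_lit 551400) (.g (nat_lit 2523) (.e (nat_lit 426109) (nat_lit 1) (.e (nat_lit 164347) (nat_lit 240) (.e (nat_lit 2638) (nat_lit 165) (.e (nat_lit 180278) (nat_lit 32) (.e (nat_lit 1660) (nat_lit 115) (.e (nat_lit 393275) (nat_lit 23) .nil)))))) (.g (nat_lit 1) (.e (nat_lit 297738) (nat_lit 0) .nil) .nil))) 
(.lf (nat_lit 551912) (.g (nat_lit 2354) (.e (nat_lit 426123) (nat_lit 2) (.e (nat_lit 196666) (nat_lit 13) (.e (nat_lit 65610) (nat_lit 10) (.e (nat_lit 344129) (nat_lit 26) (.e (nat_lit 557090) (nat_lit 12) (.e (nat_lit 163843) (nat_lit 0) (.e (nat_lit 6254) (nat_lit 337) (.e (nat_lit 2420) (nat_lit 157) (.e (nat_lit 2945) (nat_lit 184) .nil))))))))) (.g (nat_lit 1) (.e (nat_lit 299026) (nat_lit 0) .nil) .nil)))))))) 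
(.nd (nat_lit 5) (.nd (nat_lit 6) (.nd (nat_lit 7) (.nd (nat_lit 8) (.nd (nat_lit 9) 
(.lf (nat_lit 550936) (.g (nat_lit 1673) (.e (nat_lit 426103) (nat_lit 1) (.e (nat_lit 164347) (nat_lit 240) (.e (nat_lit 2638) (nat_lit 165) (.e (nat_lit 180277) (nat_lit 32) (.e (nat_lit 1659) (nat_lit 115) .nil))))) (.g (nat_lit 0) (.e (nat_lit 296486) (nat_lit 0) .nil) .nil))) 
(.lf (nat_lit 551448) (.g (nat_lit 3361) (.e (nat_lit 426110) (nat_lit 1) (.e (nat_lit 164348) (nat_lit 240) (.e (nat_lit 2610) (nat_lit 163) (.e (nat_lit 163979) (nat_lit 30) (.e (nat_lit 573491) (nat_lit 15) (.e (nat_lit 81954) (nat_lit 23) (.e (nat_lit 98363) (nat_lit 26) .nil))))))) (.g (nat_lit 1) (.e (nat_lit 297927) (nat_lit 0) .nil) .nil)))) (.nd (nat_lit 9) 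
(.lf (nat_lit 551192) (.g (nat_lit 2192) (.e (nat_lit 426107) (nat_lit 1) (.e (nat_lit 164327) (nat_lit 230) (.e (nat_lit 163871) (nat_lit 2) (.e (nat_lit 196656) (nat_lit 11) (.e (nat_lit 16444) (nat_lit 9) .nil))))) (.g (nat_lit 0) (.e (nat_lit 297152) (nat_lit 0) .nil) .nil))) 
(.lf (nat_lit 551704) (.g (nat_lit 3229) (.e (nat_lit 426121) (nat_lit 2) (.e (nat_lit 196666) (nat_lit 13) (.e (nat_lit 65617) (nat_lit 10) (.e (nat_lit 344132) (nat_lit 26) (.e (nat_lit 557093) (nat_lit 12) (.e (nat_lit 164023) (nat_lit 46) (.e (nat_lit 704626) (nat_lit 9) (.e (nat_lit 435) (nat_lit 32) .nil)))))))) (.g (nat_lit 1) (.e (nat_lit 298547) (nat_lit 0) .nil) .nil))))) 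
(.nd (nat_lit 8) (.nd (nat_lit 9) 
(.lf (nat_lit 551064) (.g (nat_lit 2754) (.e (nat_lit 426106) (nat_lit 1) (.e (nat_lit 164332) (nat_lit 230) (.e (nat_lit 163843) (nat_lit 0) (.e (nat_lit 3130) (nat_lit 193) .nil)))) (.g (nat_lit 0) (.e (nat_lit 296765) (nat_lit 0) .nil) .nil))) 
(.lf (nat_lit 551576) (.g (nat_lit 820) (.e (nat_lit 426116) (nat_lit 2) (.e (nat_lit 196681) (nat_lit 17) (.e (nat_lit 131122) (nat_lit 12) .nil))) (.g (nat_lit 0) (.e (nat_lit 298384) (nat_lit 0) .nil) .nil)))) (.nd (nat_lit 9) 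
(.lf (nat_lit 551320) (.g (nat_lit 2511) (.e (nat_lit 426108) (nat_lit 1) (.e (nat_lit 164332) (nat_lit 230) (.e (nat_lit 163869) (nat_lit 2) (.e (nat_lit 196656) (nat_lit 11) (.e (nat_lit 16439) (nat_lit 9) .nil))))) (.g (nat_lit 0) (.e (nat_lit 297488) (nat_lit 0) .nil) .nil))) 
(.lf (nat_lit 551832) (.g (nat_lit 2810) (.e (nat_lit 426122) (nat_lit 2) (.e (nat_lit 196666) (nat_lit 13) (.e (nat_lit 65617) (nat_lit 10) (.e (nat_lit 344133) (nat_lit 26) (.e (nat_lit 557091) (nat_lit 12) (.e (nat_lit 164022) (nat_lit 46) (.e (nat_lit 704626) (nat_lit 9) (.e (nat_lit 391) (nat_lit 32) .nil)))))))) (.g (nat_lit 1) (.e (nat_lit 298721) (nat_lit 0) .nil) .nil)))))) 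
(.nd (nat_lit 7) (.nd (nat_lit 8) (.nd (nat_lit 9) 
(.lf (nat_lit 551000) (.g (nat_lit 2904) (.e (nat_lit 426105) (nat_lit 1) (.e (nat_lit 164332) (nat_lit 230) (.e (nat_lit 163869) (nat_lit 2) (.e (nat_lit 196656) (nat_lit 11) (.e (nat_lit 16438) (nat_lit 9) .nil))))) (.g (nat_lit 0) (.e (nat_lit 296667) (nat_lit 0) .nil) .nil))) 
(.lf (nat_lit 551512) (.g (nat_lit 1542) (.e (nat_lit 433920) (nat_lit 1) (.e (nat_lit 164403) (nat_lit 256) (.e (nat_lit 57409) (nat_lit 12) (.e (nat_lit 336443) (nat_lit 32) (.e (nat_lit 466979) (nat_lit 23) .nil))))) (.g (nat_lit 0) (.e (nat_lit 298088) (nat_lit 0) .nil) .nil)))) (.nd (nat_lit 9) 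
(.lf (nat_lit 551256) (.g (nat_lit 1577) (.e (nat_lit 426108) (nat_lit 1) (.e (nat_lit 164182) (nat_lit 154) (.e (nat_lit 57409) (nat_lit 12) (.e (nat_lit 336315) (nat_lit 17) .nil)))) (.g (nat_lit 0) (.e (nat_lit 297325) (nat_lit 0) .nil) .nil))) 
(.lf (nat_lit 551768) (.g (nat_lit 3276) (.e (nat_lit 426122) (nat_lit 2) (.e (nat_lit 196654) (nat_lit 11) (.e (nat_lit 16416) (nat_lit 3) (.e (nat_lit 204813) (nat_lit 9) (.e (nat_lit 426133) (nat_lit 3) (.e (nat_lit 204813) (nat_lit 9) .nil)))))) (.g (nat_lit 1) (.e (nat_lit 298644) (nat_lit 0) .nil) .nil))))) (.nd (nat_lit 8) (.nd (nat_lit 9) 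
(.lf (nat_lit 551128) (.g (nat_lit 1351) (.e (nat_lit 426107) (nat_lit 1) (.e (nat_lit 164325) (nat_lit 230) (.e (nat_lit 163869) (nat_lit 2) (.e (nat_lit 196656) (nat_lit 11) .nil)))) (.g (nat_lit 0) (.e (nat_lit 296918) (nat_lit 0) .nil) .nil))) 
(.lf (nat_lit 551640) (.g (nat_lit 3461) (.e (nat_lit 426121) (nat_lit 2) (.e (nat_lit 196666) (nat_lit 13) (.e (nat_lit 65610) (nat_lit 10) (.e (nat_lit 344117) (nat_lit 21) (.e (nat_lit 524032) (nat_lit 18) .nil))))) (.g (nat_lit 0) (.e (nat_lit 298482) (nat_lit 0) .nil) .nil)))) (.nd (nat_lit 9) 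
(.lf (nat_lit 551384) (.g (nat_lit 712) (.e (nat_lit 426109) (nat_lit 1) (.e (nat_lit 164319) (nat_lit 228) (.e (nat_lit 57412) (nat_lit 12) (.e (nat_lit 336175) (nat_lit 10) .nil)))) (.g (nat_lit 0) (.e (nat_lit 297659) (nat_lit 0) .nil) .nil))) 
(.lf (nat_lit 551896) (.g (nat_lit 2631) (.e (nat_lit 426123) (nat_lit 2) (.e (nat_lit 196666) (nat_lit 13) (.e (nat_lit 65610) (nat_lit 10) (.e (nat_lit 344129) (nat_lit 26) (.e (nat_lit 557065) (nat_lit 9) (.e (nat_lit 2743) (nat_lit 174) (.e (nat_lit 253959) (nat_lit 9) (.e (nat_lit 396) (nat_lit 32) .nil)))))))) (.g (nat_lit 1) (.e (nat_lit 298974) (nat_lit 0) .nil) .nil))))))) 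
(.nd (nat_lit 6) (.nd (nat_lit 7) (.nd (nat_lit 8) (.nd (nat_lit 9) 
(.lf (nat_lit 550968) (.g (nat_lit 543) (.e (nat_lit 426105) (nat_lit 1) (.e (nat_lit 164325) (nat_lit 230) (.e (nat_lit 163871) (nat_lit 2) .nil))) (.g (nat_lit 0) (.e (nat_lit 296596) (nat_lit 0) .nil) .nil))) 
(.lf (nat_lit 551480) (.g (nat_lit 1927) (.e (nat_lit 433920) (nat_lit 1) (.e (nat_lit 164399) (nat_lit 256) (.e (nat_lit 57373) (nat_lit 2) (.e (nat_lit 90178) (nat_lit 15) (.e (nat_lit 188421) (nat_lit 11) .nil))))) (.g (nat_lit 0) (.e (nat_lit 298056) (nat_lit 0) .nil) .nil)))) (.nd (nat_lit 9) 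
(.lf (nat_lit 551224) (.g (nat_lit 2584) (.e (nat_lit 426107) (nat_lit 1) (.e (nat_lit 164347) (nat_lit 240) (.e (nat_lit 2638) (nat_lit 165) (.e (nat_lit 180278) (nat_lit 32) (.e (nat_lit 1661) (nat_lit 115) (.e (nat_lit 401152) (nat_lit 23) .nil)))))) (.g (nat_lit 1) (.e (nat_lit 297263) (nat_lit 0) .nil) .nil))) 
(.lf (nat_lit 551736) (.g (nat_lit 2288) (.e (nat_lit 426121) (nat_lit 2) (.e (nat_lit 196666) (nat_lit 13) (.e (nat_lit 65617) (nat_lit 10) (.e (nat_lit 344133) (nat_lit 26) (.e (nat_lit 557089) (nat_lit 12) .nil))))) (.g (nat_lit 0) (.e (nat_lit 298588) (nat_lit 0) .nil) .nil))))) (.nd (nat_lit 8) (.nd (nat_lit 9) 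
(.lf (nat_lit 551096) (.g (nat_lit 1977) (.e (nat_lit 426107) (nat_lit 1) (.e (nat_lit 164179) (nat_lit 154) (.e (nat_lit 57409) (nat_lit 12) (.e (nat_lit 336316) (nat_lit 17) (.e (nat_lit 196672) (nat_lit 15) .nil))))) (.g (nat_lit 0) (.e (nat_lit 296831) (nat_lit 0) .nil) .nil))) 
(.lf (nat_lit 551608) (.g (nat_lit 4237) (.e (nat_lit 426120) (nat_lit 2) (.e (nat_lit 196666) (nat_lit 13) (.e (nat_lit 65617) (nat_lit 10) (.e (nat_lit 344130) (nat_lit 26) (.e (nat_lit 557090) (nat_lit 12) (.e (nat_lit 164022) (nat_lit 46) (.e (nat_lit 704629) (nat_lit 9) (.e (nat_lit 411) (nat_lit 32) .nil)))))))) (.g (nat_lit 1) (.e (nat_lit 298430) (nat_lit 0) .nil) .nil)))) 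
(.nd (nat_lit 9) 
(.lf (nat_lit 551352) (.g (nat_lit 370) (.e (nat_lit 426108) (nat_lit 1) (.e (nat_lit 164403) (nat_lit 256) (.e (nat_lit 57378) (nat_lit 3) .nil))) (.g (nat_lit 0) (.e (nat_lit 297537) (nat_lit 0) .nil) .nil))) 
(.lf (nat_lit 551864) (.g (nat_lit 2557) (.e (nat_lit 426122) (nat_lit 2) (.e (nat_lit 196681) (nat_lit 17) (.e (nat_lit 131123) (nat_lit 12) (.e (nat_lit 385066) (nat_lit 26) (.e (nat_lit 532513) (nat_lit 3) (.e (nat_lit 114698) (nat_lit 11) .nil)))))) (.g (nat_lit 1) (.e (nat_lit 298769) (nat_lit 0) .nil) .nil)))))) (.nd (nat_lit 7) (.nd (nat_lit 8) (.nd (nat_lit 9) 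
(.lf (nat_lit 551032) (.g (nat_lit 2089) (.e (nat_lit 426106) (nat_lit 1) (.e (nat_lit 164179) (nat_lit 154) (.e (nat_lit 57411) (nat_lit 12) (.e (nat_lit 336325) (nat_lit 18) .nil)))) (.g (nat_lit 0) (.e (nat_lit 296713) (nat_lit 0) .nil) .nil))) 
(.lf (nat_lit 551544) (.g (nat_lit 2676) (.e (nat_lit 426114) (nat_lit 2) (.e (nat_lit 196681) (nat_lit 17) (.e (nat_lit 131120) (nat_lit 12) (.e (nat_lit 385066) (nat_lit 26) (.e (nat_lit 532513) (nat_lit 3) (.e (nat_lit 114698) (nat_lit 11) .nil)))))) (.g (nat_lit 1) (.e (nat_lit 298214) (nat_lit 0) .nil) .nil)))) (.nd (nat_lit 9) 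
(.lf (nat_lit 551288) (.g (nat_lit 2674) (.e (nat_lit 426108) (nat_lit 1) (.e (nat_lit 164330) (nat_lit 230) (.e (nat_lit 163869) (nat_lit 2) (.e (nat_lit 196654) (nat_lit 11) (.e (nat_lit 16436) (nat_lit 9) (.e (nat_lit 426480) (nat_lit 27) (.e (nat_lit 336388) (nat_lit 27) .nil))))))) (.g (nat_lit 1) (.e (nat_lit 297392) (nat_lit 0) .nil) .nil))) 
(.lf (nat_lit 551800) (.g (nat_lit 2117) (.e (nat_lit 426122) (nat_lit 2) (.e (nat_lit 196666) (nat_lit 13) (.e (nat_lit 65617) (nat_lit 10) (.e (nat_lit 344132) (nat_lit 26) (.e (nat_lit 557093) (nat_lit 12) .nil))))) (.g (nat_lit 0) (.e (nat_lit 298684) (nat_lit 0) .nil) .nil))))) (.nd (nat_lit 8) (.nd (nat_lit 9) 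
(.lf (nat_lit 551160) (.g (nat_lit 3087) (.e (nat_lit 426107) (nat_lit 1) (.e (nat_lit 164326) (nat_lit 230) (.e (nat_lit 163868) (nat_lit 2) (.e (nat_lit 196656) (nat_lit 11) (.e (nat_lit 16466) (nat_lit 13) (.e (nat_lit 483341) (nat_lit 9) .nil)))))) (.g (nat_lit 1) (.e (nat_lit 297017) (nat_lit 0) .nil) .nil))) 
(.lf (nat_lit 551672) (.g (nat_lit 4097) (.e (nat_lit 426121) (nat_lit 2) (.e (nat_lit 196666) (nat_lit 13) (.e (nat_lit 65617) (nat_lit 10) (.e (nat_lit 344130) (nat_lit 26) (.e (nat_lit 557090) (nat_lit 12) (.e (nat_lit 164022) (nat_lit 46) (.e (nat_lit 704629) (nat_lit 9) (.e (nat_lit 435) (nat_lit 32) .nil)))))))) (.g (nat_lit 1) (.e (nat_lit 298514) (nat_lit 0) .nil) .nil)))) 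
(.nd (nat_lit 9) 
(.lf (nat_lit 551416) (.g (nat_lit 3061) (.e (nat_lit 426110) (nat_lit 1) (.e (nat_lit 164327) (nat_lit 230) (.e (nat_lit 163868) (nat_lit 2) (.e (nat_lit 196654) (nat_lit 11) (.e (nat_lit 16463) (nat_lit 13) (.e (nat_lit 491264) (nat_lit 9) .nil)))))) (.g (nat_lit 1) (.e (nat_lit 297817) (nat_lit 0) .nil) .nil))) 
(.lf (nat_lit 551928) (.g (nat_lit 2298) (.e (nat_lit 426123) (nat_lit 2) (.e (nat_lit 196666) (nat_lit 13) (.e (nat_lit 65610) (nat_lit 10) (.e (nat_lit 344129) (nat_lit 26) (.e (nat_lit 557090) (nat_lit 12) (.e (nat_lit 163852) (nat_lit 0) (.e (nat_lit 6425) (nat_lit 342) (.e (nat_lit 237312) (nat_lit 12) .nil)))))))) (.g (nat_lit 1) (.e (nat_lit 299053) (nat_lit 0) .nil) .nil)))))))))) 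
(.nd (nat_lit 3) (.nd (nat_lit 4) (.nd (nat_lit 5) (.nd (nat_lit 6) (.nd (nat_lit 7) 
(.nd (nat_lit 8) (.nd (nat_lit 9) 
(.lf (nat_lit 550916) (.g (nat_lit 492) (.e (nat_lit 426100) (nat_lit 1) (.e (nat_lit 164403) (nat_lit 256) (.e (nat_lit 57371) (nat_lit 2) .nil))) (.g (nat_lit 0) (.e (nat_lit 296454) (nat_lit 0) .nil) .nil))) 
(.lf (nat_lit 551428) (.g (nat_lit 2257) (.e (nat_lit 426110) (nat_lit 1) (.e (nat_lit 164327) (nat_lit 230) (.e (nat_lit 163871) (nat_lit 2) (.e (nat_lit 196654) (nat_lit 11) (.e (nat_lit 16436) (nat_lit 9) (.e (nat_lit 426486) (nat_lit 27) (.e (nat_lit 336411) (nat_lit 27) .nil))))))) (.g (nat_lit 1) (.e (nat_lit 297850) (nat_lit 0) .nil) .nil)))) (.nd (nat_lit 9) 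
(.lf (nat_lit 551172) (.g (nat_lit 3331) (.e (nat_lit 426107) (nat_lit 1) (.e (nat_lit 164326) (nat_lit 230) (.e (nat_lit 163871) (nat_lit 2) (.e (nat_lit 196656) (nat_lit 11) (.e (nat_lit 16466) (nat_lit 13) (.e (nat_lit 483341) (nat_lit 9) .nil)))))) (.g (nat_lit 1) (.e (nat_lit 297095) (nat_lit 0) .nil) .nil))) 
(.lf (nat_lit 551684) (.g (nat_lit 3305) (.e (nat_lit 426121) (nat_lit 2) (.e (nat_lit 196666) (nat_lit 13) (.e (nat_lit 65617) (nat_lit 10) (.e (nat_lit 344132) (nat_lit 26) (.e (nat_lit 557093) (nat_lit 12) (.e (nat_lit 164022) (nat_lit 46) (.e (nat_lit 704627) (nat_lit 9) (.e (nat_lit 391) (nat_lit 32) .nil)))))))) (.g (nat_lit 1) (.e (nat_lit 298526) (nat_lit 0) .nil) .nil))))) 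
(.nd (nat_lit 8) (.nd (nat_lit 9) 
(.lf (nat_lit 551044) (.g (nat_lit 3435) (.e (nat_lit 426106) (nat_lit 1) (.e (nat_lit 164322) (nat_lit 230) (.e (nat_lit 163867) (nat_lit 2) (.e (nat_lit 196654) (nat_lit 11) (.e (nat_lit 16466) (nat_lit 13) (.e (nat_lit 483341) (nat_lit 9) .nil)))))) (.g (nat_lit 1) (.e (nat_lit 296726) (nat_lit 0) .nil) .nil))) 
(.lf (nat_lit 551556) (.g (nat_lit 773) (.e (nat_lit 426115) (nat_lit 2) (.e (nat_lit 196656) (nat_lit 11) (.e (nat_lit 16412) (nat_lit 2) .nil))) (.g (nat_lit 0) (.e (nat_lit 298241) (nat_lit 0) .nil) .nil)))) (.nd (nat_lit 9) 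
(.lf (nat_lit 551300) (.g (nat_lit 4231) (.e (nat_lit 426108) (nat_lit 1) (.e (nat_lit 164330) (nat_lit 230) (.e (nat_lit 163873) (nat_lit 3) (.e (nat_lit 204813) (nat_lit 9) (.e (nat_lit 426199) (nat_lit 9) (.e (nat_lit 426480) (nat_lit 27) (.e (nat_lit 336388) (nat_lit 27) .nil))))))) (.g (nat_lit 1) (.e (nat_lit 297409) (nat_lit 0) .nil) .nil))) 
(.lf (nat_lit 551812) (.g (nat_lit 2658) (.e (nat_lit 426122) (nat_lit 2) (.e (nat_lit 196666) (nat_lit 13) (.e (nat_lit 65617) (nat_lit 10) (.e (nat_lit 344132) (nat_lit 26) (.e (nat_lit 557093) (nat_lit 12) (.e (nat_lit 164022) (nat_lit 46) (.e (nat_lit 704629) (nat_lit 9) (.e (nat_lit 435) (nat_lit 32) .nil)))))))) (.g (nat_lit 1) (.e (nat_lit 298696) (nat_lit 0) .nil) .nil)))))) 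
(.nd (nat_lit 7) (.nd (nat_lit 8) (.nd (nat_lit 9) 
(.lf (nat_lit 550980) (.g (nat_lit 3126) (.e (nat_lit 426105) (nat_lit 1) (.e (nat_lit 164327) (nat_lit 230) (.e (nat_lit 163871) (nat_lit 2) (.e (nat_lit 196654) (nat_lit 11) (.e (nat_lit 16466) (nat_lit 13) (.e (nat_lit 483341) (nat_lit 9) .nil)))))) (.g (nat_lit 1) (.e (nat_lit 296621) (nat_lit 0) .nil) .nil))) 
(.lf (nat_lit 551492) (.g (nat_lit 1774) (.e (nat_lit 433920) (nat_lit 1) (.e (nat_lit 164399) (nat_lit 256) (.e (nat_lit 57407) (nat_lit 12) (.e (nat_lit 336432) (nat_lit 30) (.e (nat_lit 450580) (nat_lit 5) .nil))))) (.g (nat_lit 0) (.e (nat_lit 298068) (nat_lit 0) .nil) .nil)))) (.nd (nat_lit 9) 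
(.lf (nat_lit 551236) (.g (nat_lit 1779) (.e (nat_lit 426107) (nat_lit 1) (.e (nat_lit 164403) (nat_lit 256) (.e (nat_lit 57371) (nat_lit 2) (.e (nat_lit 90167) (nat_lit 13) (.e (nat_lit 172121) (nat_lit 13) .nil))))) (.g (nat_lit 0) (.e (nat_lit 297305) (nat_lit 0) .nil) .nil))) 
(.lf (nat_lit 551748) (.g (nat_lit 4225) (.e (nat_lit 426121) (nat_lit 2) (.e (nat_lit 196666) (nat_lit 13) (.e (nat_lit 65617) (nat_lit 10) (.e (nat_lit 344133) (nat_lit 26) (.e (nat_lit 557091) (nat_lit 12) (.e (nat_lit 164022) (nat_lit 46) (.e (nat_lit 704628) (nat_lit 9) (.e (nat_lit 399) (nat_lit 32) .nil)))))))) (.g (nat_lit 1) (.e (nat_lit 298602) (nat_lit 0) .nil) .nil))))) 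
(.nd (nat_lit 8) (.nd (nat_lit 9) 
(.lf (nat_lit 551108) (.g (nat_lit 1892) (.e (nat_lit 426107) (nat_lit 1) (.e (nat_lit 164182) (nat_lit 154) (.e (nat_lit 57409) (nat_lit 12) (.e (nat_lit 336316) (nat_lit 17) (.e (nat_lit 196672) (nat_lit 15) .nil))))) (.g (nat_lit 0) (.e (nat_lit 296847) (nat_lit 0) .nil) .nil))) 
(.lf (nat_lit 551620) (.g (nat_lit 3751) (.e (nat_lit 426120) (nat_lit 2) (.e (nat_lit 196666) (nat_lit 13) (.e (nat_lit 65617) (nat_lit 10) (.e (nat_lit 344132) (nat_lit 26) (.e (nat_lit 557094) (nat_lit 12) (.e (nat_lit 164022) (nat_lit 46) (.e (nat_lit 704629) (nat_lit 9) (.e (nat_lit 411) (nat_lit 32) .nil)))))))) (.g (nat_lit 1) (.e (nat_lit 298442) (nat_lit 0) .nil) .nil)))) 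
(.nd (nat_lit 9) 
(.lf (nat_lit 551364) (.g (nat_lit 1695) (.e (nat_lit 426109) (nat_lit 1) (.e (nat_lit 164187) (nat_lit 157) (.e (nat_lit 229412) (nat_lit 14) (.e (nat_lit 442412) (nat_lit 20) (.e (nat_lit 3469) (nat_lit 217) .nil))))) (.g (nat_lit 0) (.e (nat_lit 297556) (nat_lit 0) .nil) .nil))) 
(.lf (nat_lit 551876) (.g (nat_lit 1015) (.e (nat_lit 426123) (nat_lit 2) (.e (nat_lit 196666) (nat_lit 13) (.e (nat_lit 65586) (nat_lit 7) .nil))) (.g (nat_lit 0) (.e (nat_lit 298801) (nat_lit 0) .nil) .nil))))))) (.nd (nat_lit 6) (.nd (nat_lit 7) (.nd (nat_lit 8) (.nd (nat_lit 9) 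
(.lf (nat_lit 550948) (.g (nat_lit 1901) (.e (nat_lit 426105) (nat_lit 1) (.e (nat_lit 164179) (nat_lit 154) (.e (nat_lit 57406) (nat_lit 12) (.e (nat_lit 336316) (nat_lit 17) (.e (nat_lit 196672) (nat_lit 15) .nil))))) (.g (nat_lit 0) (.e (nat_lit 296563) (nat_lit 0) .nil) .nil))) 
(.lf (nat_lit 551460) (.g (nat_lit 1280) (.e (nat_lit 426111) (nat_lit 1) (.e (nat_lit 164347) (nat_lit 240) (.e (nat_lit 2638) (nat_lit 165) (.e (nat_lit 180277) (nat_lit 32) .nil)))) (.g (nat_lit 0) (.e (nat_lit 297956) (nat_lit 0) .nil) .nil)))) (.nd (nat_lit 9) 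
(.lf (nat_lit 551204) (.g (nat_lit 4861) (.e (nat_lit 426107) (nat_lit 1) (.e (nat_lit 164327) (nat_lit 230) (.e (nat_lit 163873) (nat_lit 3) (.e (nat_lit 204813) (nat_lit 9) (.e (nat_lit 426204) (nat_lit 9) .nil))))) (.g (nat_lit 0) (.e (nat_lit 297168) (nat_lit 0) .nil) .nil))) 
(.lf (nat_lit 551716) (.g (nat_lit 2893) (.e (nat_lit 426121) (nat_lit 2) (.e (nat_lit 196666) (nat_lit 13) (.e (nat_lit 65617) (nat_lit 10) (.e (nat_lit 344132) (nat_lit 26) (.e (nat_lit 557094) (nat_lit 12) (.e (nat_lit 164022) (nat_lit 46) (.e (nat_lit 704626) (nat_lit 9) (.e (nat_lit 435) (nat_lit 32) .nil)))))))) (.g (nat_lit 1) (.e (nat_lit 298568) (nat_lit 0) .nil) .nil))))) 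
(.nd (nat_lit 8) (.nd (nat_lit 9) 
(.lf (nat_lit 551076) (.g (nat_lit 3018) (.e (nat_lit 426106) (nat_lit 1) (.e (nat_lit 164332) (nat_lit 230) (.e (nat_lit 163869) (nat_lit 2) (.e (nat_lit 204544) (nat_lit 11) .nil)))) (.g (nat_lit 0) (.e (nat_lit 296797) (nat_lit 0) .nil) .nil))) 
(.lf (nat_lit 551588) (.g (nat_lit 2574) (.e (nat_lit 426117) (nat_lit 2) (.e (nat_lit 196666) (nat_lit 13) (.e (nat_lit 65617) (nat_lit 10) (.e (nat_lit 344133) (nat_lit 26) (.e (nat_lit 557091) (nat_lit 12) (.e (nat_lit 164016) (nat_lit 44) (.e (nat_lit 688139) (nat_lit 5) (.e (nat_lit 2887) (nat_lit 184) .nil)))))))) (.g (nat_lit 1) (.e (nat_lit 298399) (nat_lit 0) .nil) .nil)))) 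
(.nd (nat_lit 9) 
(.lf (nat_lit 551332) (.g (nat_lit 1690) (.e (nat_lit 426108) (nat_lit 1) (.e (nat_lit 164396) (nat_lit 256) (.e (nat_lit 57377) (nat_lit 3) (.e (nat_lit 98369) (nat_lit 28) (.e (nat_lit 442390) (nat_lit 11) .nil))))) (.g (nat_lit 0) (.e (nat_lit 297514) (nat_lit 0) .nil) .nil))) 
(.lf (nat_lit 551844) (.g (nat_lit 2972) (.e (nat_lit 426122) (nat_lit 2) (.e (nat_lit 196666) (nat_lit 13) (.e (nat_lit 65617) (nat_lit 10) (.e (nat_lit 344133) (nat_lit 26) (.e (nat_lit 557091) (nat_lit 12) (.e (nat_lit 164022) (nat_lit 46) (.e (nat_lit 704629) (nat_lit 9) (.e (nat_lit 391) (nat_lit 32) .nil)))))))) (.g (nat_lit 1) (.e (nat_lit 298733) (nat_lit 0) .nil) .nil)))))) 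
(.nd (nat_lit 7) (.nd (nat_lit 8) (.nd (nat_lit 9) 
(.lf (nat_lit 551012) (.g (nat_lit 2178) (.e (nat_lit 426105) (nat_lit 1) (.e (nat_lit 164403) (nat_lit 256) (.e (nat_lit 57373) (nat_lit 2) (.e (nat_lit 90178) (nat_lit 15) (.e (nat_lit 188421) (nat_lit 11) .nil))))) (.g (nat_lit 0) (.e (nat_lit 296685) (nat_lit 0) .nil) .nil))) 
(.lf (nat_lit 551524) (.g (nat_lit 3445) (.e (nat_lit 426113) (nat_lit 2) (.e (nat_lit 196666) (nat_lit 13) (.e (nat_lit 65617) (nat_lit 10) (.e (nat_lit 344130) (nat_lit 26) (.e (nat_lit 557090) (nat_lit 12) (.e (nat_lit 164016) (nat_lit 44) (.e (nat_lit 688139) (nat_lit 5) (.e (nat_lit 2887) (nat_lit 184) .nil)))))))) (.g (nat_lit 1) (.e (nat_lit 298113) (nat_lit 0) .nil) .nil)))) 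
(.nd (nat_lit 9) 
(.lf (nat_lit 551268) (.g (nat_lit 3681) (.e (nat_lit 426108) (nat_lit 1) (.e (nat_lit 164329) (nat_lit 230) (.e (nat_lit 163867) (nat_lit 2) (.e (nat_lit 196654) (nat_lit 11) (.e (nat_lit 16466) (nat_lit 13) (.e (nat_lit 483341) (nat_lit 9) .nil)))))) (.g (nat_lit 1) (.e (nat_lit 297352) (nat_lit 0) .nil) .nil))) 
(.lf (nat_lit 551780) (.g (nat_lit 2828) (.e (nat_lit 426122) (nat_lit 2) (.e (nat_lit 196666) (nat_lit 13) (.e (nat_lit 65617) (nat_lit 10) (.e (nat_lit 344130) (nat_lit 26) (.e (nat_lit 557090) (nat_lit 12) (.e (nat_lit 164022) (nat_lit 46) (.e (nat_lit 704626) (nat_lit 9) (.e (nat_lit 391) (nat_lit 32) .nil)))))))) (.g (nat_lit 1) (.e (nat_lit 298664) (nat_lit 0) .nil) .nil))))) 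
(.nd (nat_lit 8) (.nd (nat_lit 9) 
(.lf (nat_lit 551140) (.g (nat_lit 2600) (.e (nat_lit 426107) (nat_lit 1) (.e (nat_lit 164325) (nat_lit 230) (.e (nat_lit 163873) (nat_lit 3) (.e (nat_lit 204813) (nat_lit 9) (.e (nat_lit 426200) (nat_lit 9) (.e (nat_lit 426478) (nat_lit 27) (.e (nat_lit 336388) (nat_lit 27) .nil))))))) (.g (nat_lit 1) (.e (nat_lit 296940) (nat_lit 0) .nil) .nil))) 
(.lf (nat_lit 551652) (.g (nat_lit 3662) (.e (nat_lit 426121) (nat_lit 2) (.e (nat_lit 196666) (nat_lit 13) (.e (nat_lit 65617) (nat_lit 10) (.e (nat_lit 344130) (nat_lit 26) (.e (nat_lit 557090) (nat_lit 12) (.e (nat_lit 164022) (nat_lit 46) (.e (nat_lit 704626) (nat_lit 9) (.e (nat_lit 391) (nat_lit 32) .nil)))))))) (.g (nat_lit 1) (.e (nat_lit 298494) (nat_lit 0) .nil) .nil)))) 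
(.nd (nat_lit 9) 
(.lf (nat_lit 551396) (.g (nat_lit 1854) (.e (nat_lit 426109) (nat_lit 1) (.e (nat_lit 164347) (nat_lit 240) (.e (nat_lit 2638) (nat_lit 165) (.e (nat_lit 180277) (nat_lit 32) (.e (nat_lit 1660) (nat_lit 115) (.e (nat_lit 393277) (nat_lit 23) .nil)))))) (.g (nat_lit 1) (.e (nat_lit 297734) (nat_lit 0) .nil) .nil))) 
(.lf (nat_lit 551908) (.g (nat_lit 2574) (.e (nat_lit 426123) (nat_lit 2) (.e (nat_lit 196666) (nat_lit 13) (.e (nat_lit 65610) (nat_lit 10) (.e (nat_lit 344129) (nat_lit 26) (.e (nat_lit 557089) (nat_lit 12) (.e (nat_lit 171776) (nat_lit 48) (.e (nat_lit 720908) (nat_lit 11) .nil))))))) (.g (nat_lit 1) (.e (nat_lit 299019) (nat_lit 0) .nil) .nil)))))))) 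
(.nd (nat_lit 5) (.nd (nat_lit 6) (.nd (nat_lit 7) (.nd (nat_lit 8) (.nd (nat_lit 9) 
(.lf (nat_lit 550932) (.g (nat_lit 2247) (.e (nat_lit 426101) (nat_lit 1) (.e (nat_lit 164332) (nat_lit 230) (.e (nat_lit 163880) (nat_lit 4) (.e (nat_lit 213030) (nat_lit 11) .nil)))) (.g (nat_lit 0) (.e (nat_lit 296474) (nat_lit 0) .nil) .nil))) 
(.lf (nat_lit 551444) (.g (nat_lit 3219) (.e (nat_lit 426110) (nat_lit 1) (.e (nat_lit 164332) (nat_lit 230) (.e (nat_lit 163869) (nat_lit 2) (.e (nat_lit 196655) (nat_lit 11) .nil)))) (.g (nat_lit 0) (.e (nat_lit 297921) (nat_lit 0) .nil) .nil)))) (.nd (nat_lit 9) 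
(.lf (nat_lit 551188) (.g (nat_lit 2819) (.e (nat_lit 426107) (nat_lit 1) (.e (nat_lit 164327) (nat_lit 230) (.e (nat_lit 163871) (nat_lit 2) (.e (nat_lit 196654) (nat_lit 11) (.e (nat_lit 16436) (nat_lit 9) (.e (nat_lit 426481) (nat_lit 27) (.e (nat_lit 336388) (nat_lit 27) .nil))))))) (.g (nat_lit 1) (.e (nat_lit 297148) (nat_lit 0) .nil) .nil))) 
(.lf (nat_lit 551700) (.g (nat_lit 2876) (.e (nat_lit 426121) (nat_lit 2) (.e (nat_lit 196666) (nat_lit 13) (.e (nat_lit 65617) (nat_lit 10) (.e (nat_lit 344132) (nat_lit 26) (.e (nat_lit 557093) (nat_lit 12) (.e (nat_lit 164023) (nat_lit 46) (.e (nat_lit 704626) (nat_lit 9) (.e (nat_lit 396) (nat_lit 32) .nil)))))))) (.g (nat_lit 1) (.e (nat_lit 298543) (nat_lit 0) .nil) .nil))))) 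
(.nd (nat_lit 8) (.nd (nat_lit 9) 
(.lf (nat_lit 551060) (.g (nat_lit 2941) (.e (nat_lit 426106) (nat_lit 1) (.e (nat_lit 164327) (nat_lit 230) (.e (nat_lit 163871) (nat_lit 2) (.e (nat_lit 196656) (nat_lit 11) (.e (nat_lit 16463) (nat_lit 13) (.e (nat_lit 483341) (nat_lit 9) .nil)))))) (.g (nat_lit 1) (.e (nat_lit 296757) (nat_lit 0) .nil) .nil))) 
(.lf (nat_lit 551572) (.g (nat_lit 373) (.e (nat_lit 426116) (nat_lit 2) (.e (nat_lit 196681) (nat_lit 17) (.e (nat_lit 131105) (nat_lit 9) .nil))) (.g (nat_lit 0) (.e (nat_lit 298375) (nat_lit 0) .nil) .nil)))) (.nd (nat_lit 9) 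
(.lf (nat_lit 551316) (.g (nat_lit 2244) (.e (nat_lit 426108) (nat_lit 1) (.e (nat_lit 164332) (nat_lit 230) (.e (nat_lit 163867) (nat_lit 2) (.e (nat_lit 196653) (nat_lit 11) (.e (nat_lit 16464) (nat_lit 13) .nil))))) (.g (nat_lit 0) (.e (nat_lit 297458) (nat_lit 0) .nil) .nil))) 
(.lf (nat_lit 551828) (.g (nat_lit 3191) (.e (nat_lit 426122) (nat_lit 2) (.e (nat_lit 196666) (nat_lit 13) (.e (nat_lit 65617) (nat_lit 10) (.e (nat_lit 344132) (nat_lit 26) (.e (nat_lit 557094) (nat_lit 12) (.e (nat_lit 164022) (nat_lit 46) (.e (nat_lit 704629) (nat_lit 9) (.e (nat_lit 416) (nat_lit 32) .nil)))))))) (.g (nat_lit 1) (.e (nat_lit 298717) (nat_lit 0) .nil) .nil)))))) 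
(.nd (nat_lit 7) (.nd (nat_lit 8) (.nd (nat_lit 9) 
(.lf (nat_lit 550996) (.g (nat_lit 2616) (.e (nat_lit 426105) (nat_lit 1) (.e (nat_lit 164332) (nat_lit 230) (.e (nat_lit 163869) (nat_lit 2) (.e (nat_lit 196655) (nat_lit 11) .nil)))) (.g (nat_lit 0) (.e (nat_lit 296663) (nat_lit 0) .nil) .nil))) 
(.lf (nat_lit 551508) (.g (nat_lit 1005) (.e (nat_lit 433920) (nat_lit 1) (.e (nat_lit 164403) (nat_lit 256) (.e (nat_lit 57378) (nat_lit 3) (.e (nat_lit 98381) (nat_lit 31) .nil)))) (.g (nat_lit 0) (.e (nat_lit 298084) (nat_lit 0) .nil) .nil)))) (.nd (nat_lit 9) 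
(.lf (nat_lit 551252) (.g (nat_lit 1708) (.e (nat_lit 426107) (nat_lit 1) (.e (nat_lit 164403) (nat_lit 256) (.e (nat_lit 57408) (nat_lit 12) (.e (nat_lit 336443) (nat_lit 32) (.e (nat_lit 466978) (nat_lit 23) .nil))))) (.g (nat_lit 0) (.e (nat_lit 297321) (nat_lit 0) .nil) .nil))) 
(.lf (nat_lit 551764) (.g (nat_lit 2275) (.e (nat_lit 426121) (nat_lit 2) (.e (nat_lit 196666) (nat_lit 13) (.e (nat_lit 65624) (nat_lit 12) (.e (nat_lit 385068) (nat_lit 26) (.e (nat_lit 532515) (nat_lit 3) .nil))))) (.g (nat_lit 0) (.e (nat_lit 298624) (nat_lit 0) .nil) .nil))))) (.nd (nat_lit 8) (.nd (nat_lit 9) 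
(.lf (nat_lit 551124) (.g (nat_lit 2172) (.e (nat_lit 426107) (nat_lit 1) (.e (nat_lit 164325) (nat_lit 230) (.e (nat_lit 163868) (nat_lit 2) (.e (nat_lit 196656) (nat_lit 11) (.e (nat_lit 16439) (nat_lit 9) (.e (nat_lit 426501) (nat_lit 27) (.e (nat_lit 336387) (nat_lit 27) .nil))))))) (.g (nat_lit 1) (.e (nat_lit 296910) (nat_lit 0) .nil) .nil))) 
(.lf (nat_lit 551636) (.g (nat_lit 1891) (.e (nat_lit 426121) (nat_lit 2) (.e (nat_lit 196656) (nat_lit 11) (.e (nat_lit 16412) (nat_lit 2) (.e (nat_lit 196654) (nat_lit 11) .nil)))) (.g (nat_lit 0) (.e (nat_lit 298471) (nat_lit 0) .nil) .nil)))) (.nd (nat_lit 9) 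
(.lf (nat_lit 551380) (.g (nat_lit 3462) (.e (nat_lit 426109) (nat_lit 1) (.e (nat_lit 164327) (nat_lit 230) (.e (nat_lit 163871) (nat_lit 2) (.e (nat_lit 196656) (nat_lit 11) (.e (nat_lit 16436) (nat_lit 9) (.e (nat_lit 426479) (nat_lit 27) (.e (nat_lit 336369) (nat_lit 27) .nil))))))) (.g (nat_lit 1) (.e (nat_lit 297643) (nat_lit 0) .nil) .nil))) 
(.lf (nat_lit 551892) (.g (nat_lit 2806) (.e (nat_lit 426123) (nat_lit 2) (.e (nat_lit 196666) (nat_lit 13) (.e (nat_lit 65610) (nat_lit 10) (.e (nat_lit 344126) (nat_lit 25) (.e (nat_lit 548900) (nat_lit 14) .nil))))) (.g (nat_lit 0) (.e (nat_lit 298963) (nat_lit 0) .nil) .nil))))))) (.nd (nat_lit 6) (.nd (nat_lit 7) (.nd (nat_lit 8) (.nd (nat_lit 9) 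
(.lf (nat_lit 550964) (.g (nat_lit 1618) (.e (nat_lit 426105) (nat_lit 1) (.e (nat_lit 164183) (nat_lit 154) (.e (nat_lit 57411) (nat_lit 12) (.e (nat_lit 336324) (nat_lit 18) (.e (nat_lit 204876) (nat_lit 31) .nil))))) (.g (nat_lit 0) (.e (nat_lit 296582) (nat_lit 0) .nil) .nil))) 
(.lf (nat_lit 551476) (.g (nat_lit 3116) (.e (nat_lit 433920) (nat_lit 1) (.e (nat_lit 164332) (nat_lit 230) (.e (nat_lit 163869) (nat_lit 2) (.e (nat_lit 196655) (nat_lit 11) .nil)))) (.g (nat_lit 0) (.e (nat_lit 298050) (nat_lit 0) .nil) .nil)))) (.nd (nat_lit 9) 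
(.lf (nat_lit 551220) (.g (nat_lit 2683) (.e (nat_lit 426107) (nat_lit 1) (.e (nat_lit 164347) (nat_lit 240) (.e (nat_lit 2619) (nat_lit 164) (.e (nat_lit 172124) (nat_lit 14) (.e (nat_lit 491569) (nat_lit 13) (.e (nat_lit 401152) (nat_lit 23) .nil)))))) (.g (nat_lit 1) (.e (nat_lit 297242) (nat_lit 0) .nil) .nil))) 
(.lf (nat_lit 551732) (.g (nat_lit 2741) (.e (nat_lit 426121) (nat_lit 2) (.e (nat_lit 196666) (nat_lit 13) (.e (nat_lit 65617) (nat_lit 10) (.e (nat_lit 344132) (nat_lit 26) (.e (nat_lit 557094) (nat_lit 12) (.e (nat_lit 171776) (nat_lit 49) (.e (nat_lit 729096) (nat_lit 11) .nil))))))) (.g (nat_lit 1) (.e (nat_lit 298584) (nat_lit 0) .nil) .nil))))) (.nd (nat_lit 8) (.nd (nat_lit 9) 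
(.lf (nat_lit 551092) (.g (nat_lit 1355) (.e (nat_lit 426107) (nat_lit 1) (.e (nat_lit 164176) (nat_lit 154) (.e (nat_lit 57407) (nat_lit 12) (.e (nat_lit 336316) (nat_lit 17) .nil)))) (.g (nat_lit 0) (.e (nat_lit 296824) (nat_lit 0) .nil) .nil))) 
(.lf (nat_lit 551604) (.g (nat_lit 2508) (.e (nat_lit 426120) (nat_lit 2) (.e (nat_lit 196666) (nat_lit 13) (.e (nat_lit 65617) (nat_lit 10) (.e (nat_lit 344130) (nat_lit 26) (.e (nat_lit 557090) (nat_lit 12) (.e (nat_lit 164022) (nat_lit 46) (.e (nat_lit 704627) (nat_lit 9) (.e (nat_lit 373) (nat_lit 32) .nil)))))))) (.g (nat_lit 1) (.e (nat_lit 298426) (nat_lit 0) .nil) .nil)))) 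
(.nd (nat_lit 9) 
(.lf (nat_lit 551348) (.g (nat_lit 1803) (.e (nat_lit 426108) (nat_lit 1) (.e (nat_lit 164403) (nat_lit 256) (.e (nat_lit 57373) (nat_lit 2) (.e (nat_lit 90178) (nat_lit 15) (.e (nat_lit 188421) (nat_lit 11) .nil))))) (.g (nat_lit 0) (.e (nat_lit 297533) (nat_lit 0) .nil) .nil))) 
(.lf (nat_lit 551860) (.g (nat_lit 2139) (.e (nat_lit 426122) (nat_lit 2) (.e (nat_lit 196681) (nat_lit 17) (.e (nat_lit 131120) (nat_lit 12) (.e (nat_lit 385066) (nat_lit 26) (.e (nat_lit 532515) (nat_lit 3) (.e (nat_lit 114698) (nat_lit 11) .nil)))))) (.g (nat_lit 1) (.e (nat_lit 298765) (nat_lit 0) .nil) .nil)))))) (.nd (nat_lit 7) (.nd (nat_lit 8) (.nd (nat_lit 9) 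
(.lf (nat_lit 551028) (.g (nat_lit 1635) (.e (nat_lit 426106) (nat_lit 1) (.e (nat_lit 164179) (nat_lit 154) (.e (nat_lit 57407) (nat_lit 12) (.e (nat_lit 336325) (nat_lit 18) (.e (nat_lit 204877) (nat_lit 31) .nil))))) (.g (nat_lit 0) (.e (nat_lit 296709) (nat_lit 0) .nil) .nil))) 
(.lf (nat_lit 551540) (.g (nat_lit 510) (.e (nat_lit 426114) (nat_lit 2) (.e (nat_lit 196666) (nat_lit 13) (.e (nat_lit 65617) (nat_lit 10) .nil))) (.g (nat_lit 0) (.e (nat_lit 298197) (nat_lit 0) .nil) .nil)))) (.nd (nat_lit 9) 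
(.lf (nat_lit 551284) (.g (nat_lit 2997) (.e (nat_lit 426108) (nat_lit 1) (.e (nat_lit 164330) (nat_lit 230) (.e (nat_lit 163867) (nat_lit 2) (.e (nat_lit 196656) (nat_lit 11) (.e (nat_lit 16463) (nat_lit 13) (.e (nat_lit 483336) (nat_lit 9) .nil)))))) (.g (nat_lit 1) (.e (nat_lit 297384) (nat_lit 0) .nil) .nil))) 
(.lf (nat_lit 551796) (.g (nat_lit 3758) (.e (nat_lit 426122) (nat_lit 2) (.e (nat_lit 196666) (nat_lit 13) (.e (nat_lit 65617) (nat_lit 10) (.e (nat_lit 344130) (nat_lit 26) (.e (nat_lit 557090) (nat_lit 12) (.e (nat_lit 164022) (nat_lit 46) (.e (nat_lit 704629) (nat_lit 9) (.e (nat_lit 416) (nat_lit 32) .nil)))))))) (.g (nat_lit 1) (.e (nat_lit 298680) (nat_lit 0) .nil) .nil))))) 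
(.nd (nat_lit 8) (.nd (nat_lit 9) 
(.lf (nat_lit 551156) (.g (nat_lit 2360) (.e (nat_lit 426107) (nat_lit 1) (.e (nat_lit 164326) (nat_lit 230) (.e (nat_lit 163868) (nat_lit 2) (.e (nat_lit 196655) (nat_lit 11) (.e (nat_lit 16435) (nat_lit 9) (.e (nat_lit 426481) (nat_lit 27) (.e (nat_lit 336388) (nat_lit 27) .nil))))))) (.g (nat_lit 1) (.e (nat_lit 297008) (nat_lit 0) .nil) .nil))) 
(.lf (nat_lit 551668) (.g (nat_lit 3975) (.e (nat_lit 426121) (nat_lit 2) (.e (nat_lit 196666) (nat_lit 13) (.e (nat_lit 65617) (nat_lit 10) (.e (nat_lit 344130) (nat_lit 26) (.e (nat_lit 557090) (nat_lit 12) (.e (nat_lit 164022) (nat_lit 46) (.e (nat_lit 704629) (nat_lit 9) (.e (nat_lit 398) (nat_lit 32) .nil)))))))) (.g (nat_lit 1) (.e (nat_lit 298510) (nat_lit 0) .nil) .nil)))) 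
(.nd (nat_lit 9) 
(.lf (nat_lit 551412) (.g (nat_lit 882) (.e (nat_lit 426110) (nat_lit 1) (.e (nat_lit 164325) (nat_lit 230) (.e (nat_lit 163881) (nat_lit 4) .nil))) (.g (nat_lit 0) (.e (nat_lit 297804) (nat_lit 0) .nil) .nil))) 
(.lf (nat_lit 551924) (.g (nat_lit 4614) (.e (nat_lit 426123) (nat_lit 2) (.e (nat_lit 196666) (nat_lit 13) (.e (nat_lit 65610) (nat_lit 10) (.e (nat_lit 344129) (nat_lit 26) (.e (nat_lit 557090) (nat_lit 12) (.e (nat_lit 163850) (nat_lit 0) (.e (nat_lit 6425) (nat_lit 342) (.e (nat_lit 229406) (nat_lit 12) .nil)))))))) (.g (nat_lit 1) (.e (nat_lit 299049) (nat_lit 0) .nil) .nil))))))))) 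
(.nd (nat_lit 4) (.nd (nat_lit 5) (.nd (nat_lit 6) (.nd (nat_lit 7) (.nd (nat_lit 8) 
(.nd (nat_lit 9) 
(.lf (nat_lit 550924) (.g (nat_lit 3299) (.e (nat_lit 426100) (nat_lit 1) (.e (nat_lit 164403) (nat_lit 256) (.e (nat_lit 57378) (nat_lit 3) (.e (nat_lit 98365) (nat_lit 26) (.e (nat_lit 426326) (nat_lit 13) (.e (nat_lit 483341) (nat_lit 9) .nil)))))) (.g (nat_lit 1) (.e (nat_lit 296462) (nat_lit 0) .nil) .nil))) 
(.lf (nat_lit 551436) (.g (nat_lit 2815) (.e (nat_lit 426110) (nat_lit 1) (.e (nat_lit 164327) (nat_lit 230) (.e (nat_lit 163871) (nat_lit 2) (.e (nat_lit 196656) (nat_lit 11) (.e (nat_lit 16463) (nat_lit 13) (.e (nat_lit 483339) (nat_lit 9) .nil)))))) (.g (nat_lit 1) (.e (nat_lit 297870) (nat_lit 0) .nil) .nil)))) (.nd (nat_lit 9) 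
(.lf (nat_lit 551180) (.g (nat_lit 3132) (.e (nat_lit 426107) (nat_lit 1) (.e (nat_lit 164327) (nat_lit 230) (.e (nat_lit 163868) (nat_lit 2) (.e (nat_lit 196654) (nat_lit 11) (.e (nat_lit 16466) (nat_lit 13) (.e (nat_lit 483340) (nat_lit 9) .nil)))))) (.g (nat_lit 1) (.e (nat_lit 297128) (nat_lit 0) .nil) .nil))) 
(.lf (nat_lit 551692) (.g (nat_lit 3545) (.e (nat_lit 426121) (nat_lit 2) (.e (nat_lit 196666) (nat_lit 13) (.e (nat_lit 65617) (nat_lit 10) (.e (nat_lit 344132) (nat_lit 26) (.e (nat_lit 557093) (nat_lit 12) (.e (nat_lit 164022) (nat_lit 46) (.e (nat_lit 704628) (nat_lit 9) (.e (nat_lit 435) (nat_lit 32) .nil)))))))) (.g (nat_lit 1) (.e (nat_lit 298534) (nat_lit 0) .nil) .nil))))) 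
(.nd (nat_lit 8) (.nd (nat_lit 9) 
(.lf (nat_lit 551052) (.g (nat_lit 1166) (.e (nat_lit 426106) (nat_lit 1) (.e (nat_lit 164326) (nat_lit 230) (.e (nat_lit 163871) (nat_lit 2) (.e (nat_lit 196652) (nat_lit 11) .nil)))) (.g (nat_lit 0) (.e (nat_lit 296748) (nat_lit 0) .nil) .nil))) 
(.lf (nat_lit 551564) (.g (nat_lit 1606) (.e (nat_lit 426116) (nat_lit 2) (.e (nat_lit 196656) (nat_lit 11) (.e (nat_lit 16388) (nat_lit 0) (.e (nat_lit 3432) (nat_lit 213) .nil)))) (.g (nat_lit 0) (.e (nat_lit 298307) (nat_lit 0) .nil) .nil)))) (.nd (nat_lit 9) 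
(.lf (nat_lit 551308) (.g (nat_lit 565) (.e (nat_lit 426108) (nat_lit 1) (.e (nat_lit 164330) (nat_lit 230) (.e (nat_lit 163880) (nat_lit 4) .nil))) (.g (nat_lit 0) (.e (nat_lit 297421) (nat_lit 0) .nil) .nil))) 
(.lf (nat_lit 551820) (.g (nat_lit 2165) (.e (nat_lit 426122) (nat_lit 2) (.e (nat_lit 196666) (nat_lit 13) (.e (nat_lit 65617) (nat_lit 10) (.e (nat_lit 344132) (nat_lit 26) (.e (nat_lit 557094) (nat_lit 12) (.e (nat_lit 164022) (nat_lit 46) (.e (nat_lit 704626) (nat_lit 9) (.e (nat_lit 416) (nat_lit 32) .nil)))))))) (.g (nat_lit 1) (.e (nat_lit 298709) (nat_lit 0) .nil) .nil)))))) 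
(.nd (nat_lit 7) (.nd (nat_lit 8) (.nd (nat_lit 9) 
(.lf (nat_lit 550988) (.g (nat_lit 477) (.e (nat_lit 426105) (nat_lit 1) (.e (nat_lit 164332) (nat_lit 230) (.e (nat_lit 163867) (nat_lit 2) .nil))) (.g (nat_lit 0) (.e (nat_lit 296648) (nat_lit 0) .nil) .nil))) 
(.lf (nat_lit 551500) (.g (nat_lit 1532) (.e (nat_lit 433920) (nat_lit 1) (.e (nat_lit 164399) (nat_lit 256) (.e (nat_lit 57409) (nat_lit 12) (.e (nat_lit 336443) (nat_lit 32) (.e (nat_lit 466981) (nat_lit 23) .nil))))) (.g (nat_lit 0) (.e (nat_lit 298076) (nat_lit 0) .nil) .nil)))) (.nd (nat_lit 9) 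
(.lf (nat_lit 551244) (.g (nat_lit 2232) (.e (nat_lit 426107) (nat_lit 1) (.e (nat_lit 164403) (nat_lit 256) (.e (nat_lit 57378) (nat_lit 3) (.e (nat_lit 98359) (nat_lit 26) (.e (nat_lit 426330) (nat_lit 13) .nil))))) (.g (nat_lit 0) (.e (nat_lit 297313) (nat_lit 0) .nil) .nil))) 
(.lf (nat_lit 551756) (.g (nat_lit 4249) (.e (nat_lit 426121) (nat_lit 2) (.e (nat_lit 196666) (nat_lit 13) (.e (nat_lit 65617) (nat_lit 10) (.e (nat_lit 344133) (nat_lit 26) (.e (nat_lit 557091) (nat_lit 12) (.e (nat_lit 164022) (nat_lit 46) (.e (nat_lit 704629) (nat_lit 9) (.e (nat_lit 398) (nat_lit 32) .nil)))))))) (.g (nat_lit 1) (.e (nat_lit 298610) (nat_lit 0) .nil) .nil))))) 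
(.nd (nat_lit 8) (.nd (nat_lit 9) 
(.lf (nat_lit 551116) (.g (nat_lit 3203) (.e (nat_lit 426107) (nat_lit 1) (.e (nat_lit 164322) (nat_lit 230) (.e (nat_lit 163871) (nat_lit 2) (.e (nat_lit 196656) (nat_lit 11) (.e (nat_lit 16466) (nat_lit 13) (.e (nat_lit 483337) (nat_lit 9) .nil)))))) (.g (nat_lit 1) (.e (nat_lit 296858) (nat_lit 0) .nil) .nil))) 
(.lf (nat_lit 551628) (.g (nat_lit 3650) (.e (nat_lit 426120) (nat_lit 2) (.e (nat_lit 196666) (nat_lit 13) (.e (nat_lit 65617) (nat_lit 10) (.e (nat_lit 344133) (nat_lit 26) (.e (nat_lit 557091) (nat_lit 12) (.e (nat_lit 164022) (nat_lit 46) (.e (nat_lit 704628) (nat_lit 9) (.e (nat_lit 370) (nat_lit 32) .nil)))))))) (.g (nat_lit 1) (.e (nat_lit 298450) (nat_lit 0) .nil) .nil)))) 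
(.nd (nat_lit 9) 
(.lf (nat_lit 551372) (.g (nat_lit 1596) (.e (nat_lit 426109) (nat_lit 1) (.e (nat_lit 164326) (nat_lit 230) (.e (nat_lit 163882) (nat_lit 4) (.e (nat_lit 213032) (nat_lit 11) (.e (nat_lit 24659) (nat_lit 13) (.e (nat_lit 393266) (nat_lit 23) .nil)))))) (.g (nat_lit 1) (.e (nat_lit 297629) (nat_lit 0) .nil) .nil))) 
(.lf (nat_lit 551884) (.g (nat_lit 2838) (.e (nat_lit 426123) (nat_lit 2) (.e (nat_lit 196666) (nat_lit 13) (.e (nat_lit 65610) (nat_lit 10) (.e (nat_lit 344117) (nat_lit 21) (.e (nat_lit 516106) (nat_lit 0) (.e (nat_lit 7936) (nat_lit 157) (.e (nat_lit 4539) (nat_lit 267) (.e (nat_lit 163914) (nat_lit 12) .nil)))))))) (.g (nat_lit 1) (.e (nat_lit 298861) (nat_lit 0) .nil) .nil))))))) 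
(.nd (nat_lit 6) (.nd (nat_lit 7) (.nd (nat_lit 8) (.nd (nat_lit 9) 
(.lf (nat_lit 550956) (.g (nat_lit 1924) (.e (nat_lit 426105) (nat_lit 1) (.e (nat_lit 164182) (nat_lit 154) (.e (nat_lit 57409) (nat_lit 12) (.e (nat_lit 336316) (nat_lit 17) (.e (nat_lit 196672) (nat_lit 15) .nil))))) (.g (nat_lit 0) (.e (nat_lit 296573) (nat_lit 0) .nil) .nil))) 
(.lf (nat_lit 551468) (.g (nat_lit 2443) (.e (nat_lit 426112) (nat_lit 1) (.e (nat_lit 164348) (nat_lit 240) (.e (nat_lit 2610) (nat_lit 163) (.e (nat_lit 163979) (nat_lit 30) (.e (nat_lit 573491) (nat_lit 15) .nil))))) (.g (nat_lit 0) (.e (nat_lit 298022) (nat_lit 0) .nil) .nil)))) (.nd (nat_lit 9) 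
(.lf (nat_lit 551212) (.g (nat_lit 3163) (.e (nat_lit 426107) (nat_lit 1) (.e (nat_lit 164327) (nat_lit 230) (.e (nat_lit 163875) (nat_lit 3) (.e (nat_lit 204813) (nat_lit 9) (.e (nat_lit 426200) (nat_lit 9) (.e (nat_lit 426481) (nat_lit 27) (.e (nat_lit 336388) (nat_lit 27) .nil))))))) (.g (nat_lit 1) (.e (nat_lit 297193) (nat_lit 0) .nil) .nil))) 
(.lf (nat_lit 551724) (.g (nat_lit 3797) (.e (nat_lit 426121) (nat_lit 2) (.e (nat_lit 196666) (nat_lit 13) (.e (nat_lit 65617) (nat_lit 10) (.e (nat_lit 344132) (nat_lit 26) (.e (nat_lit 557094) (nat_lit 12) (.e (nat_lit 164022) (nat_lit 46) (.e (nat_lit 704628) (nat_lit 9) (.e (nat_lit 398) (nat_lit 32) .nil)))))))) (.g (nat_lit 1) (.e (nat_lit 298576) (nat_lit 0) .nil) .nil))))) 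
(.nd (nat_lit 8) (.nd (nat_lit 9) 
(.lf (nat_lit 551084) (.g (nat_lit 1502) (.e (nat_lit 426106) (nat_lit 1) (.e (nat_lit 164403) (nat_lit 256) (.e (nat_lit 57406) (nat_lit 12) (.e (nat_lit 336432) (nat_lit 30) .nil)))) (.g (nat_lit 0) (.e (nat_lit 296808) (nat_lit 0) .nil) .nil))) 
(.lf (nat_lit 551596) (.g (nat_lit 2798) (.e (nat_lit 426120) (nat_lit 2) (.e (nat_lit 196666) (nat_lit 13) (.e (nat_lit 65610) (nat_lit 10) (.e (nat_lit 344129) (nat_lit 26) (.e (nat_lit 557089) (nat_lit 12) (.e (nat_lit 164017) (nat_lit 44) (.e (nat_lit 688138) (nat_lit 5) (.e (nat_lit 2887) (nat_lit 184) .nil)))))))) (.g (nat_lit 1) (.e (nat_lit 298418) (nat_lit 0) .nil) .nil)))) 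
(.nd (nat_lit 9) 
(.lf (nat_lit 551340) (.g (nat_lit 1306) (.e (nat_lit 426108) (nat_lit 1) (.e (nat_lit 164403) (nat_lit 256) (.e (nat_lit 57370) (nat_lit 2) (.e (nat_lit 90167) (nat_lit 13) (.e (nat_lit 172123) (nat_lit 13) .nil))))) (.g (nat_lit 0) (.e (nat_lit 297523) (nat_lit 0) .nil) .nil))) 
(.lf (nat_lit 551852) (.g (nat_lit 1609) (.e (nat_lit 426122) (nat_lit 2) (.e (nat_lit 196672) (nat_lit 15) (.e (nat_lit 81922) (nat_lit 0) (.e (nat_lit 3253) (nat_lit 197) (.e (nat_lit 532515) (nat_lit 3) .nil))))) (.g (nat_lit 0) (.e (nat_lit 298754) (nat_lit 0) .nil) .nil)))))) (.nd (nat_lit 7) (.nd (nat_lit 8) (.nd (nat_lit 9) 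
(.lf (nat_lit 551020) (.g (nat_lit 1403) (.e (nat_lit 426105) (nat_lit 1) (.e (nat_lit 164403) (nat_lit 256) (.e (nat_lit 57408) (nat_lit 12) (.e (nat_lit 336443) (nat_lit 32) (.e (nat_lit 466981) (nat_lit 23) .nil))))) (.g (nat_lit 0) (.e (nat_lit 296693) (nat_lit 0) .nil) .nil))) 
(.lf (nat_lit 551532) (.g (nat_lit 3652) (.e (nat_lit 426113) (nat_lit 2) (.e (nat_lit 196666) (nat_lit 13) (.e (nat_lit 65617) (nat_lit 10) (.e (nat_lit 344133) (nat_lit 26) (.e (nat_lit 557091) (nat_lit 12) (.e (nat_lit 164017) (nat_lit 44) (.e (nat_lit 688139) (nat_lit 5) (.e (nat_lit 2887) (nat_lit 184) .nil)))))))) (.g (nat_lit 1) (.e (nat_lit 298123) (nat_lit 0) .nil) .nil)))) 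
(.nd (nat_lit 9) 
(.lf (nat_lit 551276) (.g (nat_lit 814) (.e (nat_lit 426108) (nat_lit 1) (.e (nat_lit 164330) (nat_lit 230) (.e (nat_lit 163841) (nat_lit 0) .nil))) (.g (nat_lit 0) (.e (nat_lit 297371) (nat_lit 0) .nil) .nil))) 
(.lf (nat_lit 551788) (.g (nat_lit 3014) (.e (nat_lit 426122) (nat_lit 2) (.e (nat_lit 196666) (nat_lit 13) (.e (nat_lit 65617) (nat_lit 10) (.e (nat_lit 344130) (nat_lit 26) (.e (nat_lit 557090) (nat_lit 12) (.e (nat_lit 164022) (nat_lit 46) (.e (nat_lit 704627) (nat_lit 9) (.e (nat_lit 416) (nat_lit 32) .nil)))))))) (.g (nat_lit 1) (.e (nat_lit 298672) (nat_lit 0) .nil) .nil))))) 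
(.nd (nat_lit 8) (.nd (nat_lit 9) 
(.lf (nat_lit 551148) (.g (nat_lit 1893) (.e (nat_lit 426107) (nat_lit 1) (.e (nat_lit 164325) (nat_lit 230) (.e (nat_lit 163875) (nat_lit 3) (.e (nat_lit 204809) (nat_lit 9) (.e (nat_lit 426213) (nat_lit 9) (.e (nat_lit 426528) (nat_lit 27) (.e (nat_lit 336387) (nat_lit 27) .nil))))))) (.g (nat_lit 1) (.e (nat_lit 296958) (nat_lit 0) .nil) .nil))) 
(.lf (nat_lit 551660) (.g (nat_lit 4086) (.e (nat_lit 426121) (nat_lit 2) (.e (nat_lit 196666) (nat_lit 13) (.e (nat_lit 65617) (nat_lit 10) (.e (nat_lit 344130) (nat_lit 26) (.e (nat_lit 557090) (nat_lit 12) (.e (nat_lit 164022) (nat_lit 46) (.e (nat_lit 704628) (nat_lit 9) (.e (nat_lit 399) (nat_lit 32) .nil)))))))) (.g (nat_lit 1) (.e (nat_lit 298502) (nat_lit 0) .nil) .nil)))) 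
(.nd (nat_lit 9) 
(.lf (nat_lit 551404) (.g (nat_lit 1102) (.e (nat_lit 426109) (nat_lit 1) (.e (nat_lit 164347) (nat_lit 240) (.e (nat_lit 2650) (nat_lit 166) (.e (nat_lit 188427) (nat_lit 20) .nil)))) (.g (nat_lit 0) (.e (nat_lit 297747) (nat_lit 0) .nil) .nil))) 
(.lf (nat_lit 551916) (.g (nat_lit 3235) (.e (nat_lit 426123) (nat_lit 2) (.e (nat_lit 196666) (nat_lit 13) (.e (nat_lit 65610) (nat_lit 10) (.e (nat_lit 344129) (nat_lit 26) (.e (nat_lit 557090) (nat_lit 12) (.e (nat_lit 163843) (nat_lit 0) (.e (nat_lit 6255) (nat_lit 337) (.e (nat_lit 2439) (nat_lit 157) (.e (nat_lit 2945) (nat_lit 184) .nil))))))))) (.g (nat_lit 1) (.e (nat_lit 299034) (nat_lit 0) .nil) .nil)))))))) 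
(.nd (nat_lit 5) (.nd (nat_lit 6) (.nd (nat_lit 7) (.nd (nat_lit 8) (.nd (nat_lit 9) 
(.lf (nat_lit 550940) (.g (nat_lit 1635) (.e (nat_lit 426103) (nat_lit 1) (.e (nat_lit 164348) (nat_lit 240) (.e (nat_lit 2638) (nat_lit 165) (.e (nat_lit 180278) (nat_lit 32) (.e (nat_lit 1658) (nat_lit 115) (.e (nat_lit 393277) (nat_lit 23) .nil)))))) (.g (nat_lit 1) (.e (nat_lit 296496) (nat_lit 0) .nil) .nil))) 
(.lf (nat_lit 551452) (.g (nat_lit 1628) (.e (nat_lit 426110) (nat_lit 1) (.e (nat_lit 164348) (nat_lit 240) (.e (nat_lit 2640) (nat_lit 165) (.e (nat_lit 180278) (nat_lit 32) (.e (nat_lit 1658) (nat_lit 115) (.e (nat_lit 393279) (nat_lit 23) .nil)))))) (.g (nat_lit 1) (.e (nat_lit 297942) (nat_lit 0) .nil) .nil)))) (.nd (nat_lit 9) 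
(.lf (nat_lit 551196) (.g (nat_lit 3130) (.e (nat_lit 426107) (nat_lit 1) (.e (nat_lit 164327) (nat_lit 230) (.e (nat_lit 163873) (nat_lit 3) (.e (nat_lit 204813) (nat_lit 9) (.e (nat_lit 426199) (nat_lit 9) .nil))))) (.g (nat_lit 0) (.e (nat_lit 297160) (nat_lit 0) .nil) .nil))) 
(.lf (nat_lit 551708) (.g (nat_lit 3424) (.e (nat_lit 426121) (nat_lit 2) (.e (nat_lit 196666) (nat_lit 13) (.e (nat_lit 65617) (nat_lit 10) (.e (nat_lit 344132) (nat_lit 26) (.e (nat_lit 557093) (nat_lit 12) (.e (nat_lit 164023) (nat_lit 46) (.e (nat_lit 704628) (nat_lit 9) (.e (nat_lit 416) (nat_lit 32) .nil)))))))) (.g (nat_lit 1) (.e (nat_lit 298551) (nat_lit 0) .nil) .nil))))) 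
(.nd (nat_lit 8) (.nd (nat_lit 9) 
(.lf (nat_lit 551068) (.g (nat_lit 3468) (.e (nat_lit 426106) (nat_lit 1) (.e (nat_lit 164332) (nat_lit 230) (.e (nat_lit 163867) (nat_lit 2) (.e (nat_lit 196656) (nat_lit 11) (.e (nat_lit 16463) (nat_lit 13) (.e (nat_lit 483341) (nat_lit 9) .nil)))))) (.g (nat_lit 1) (.e (nat_lit 296770) (nat_lit 0) .nil) .nil))) 
(.lf (nat_lit 551580) (.g (nat_lit 2707) (.e (nat_lit 426117) (nat_lit 2) (.e (nat_lit 196666) (nat_lit 13) (.e (nat_lit 65617) (nat_lit 10) (.e (nat_lit 344130) (nat_lit 26) (.e (nat_lit 557089) (nat_lit 12) (.e (nat_lit 164017) (nat_lit 44) (.e (nat_lit 688139) (nat_lit 5) (.e (nat_lit 2887) (nat_lit 184) .nil)))))))) (.g (nat_lit 1) (.e (nat_lit 298391) (nat_lit 0) .nil) .nil)))) 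
(.nd (nat_lit 9) 
(.lf (nat_lit 551324) (.g (nat_lit 2878) (.e (nat_lit 426108) (nat_lit 1) (.e (nat_lit 164332) (nat_lit 230) (.e (nat_lit 163873) (nat_lit 3) (.e (nat_lit 204813) (nat_lit 9) (.e (nat_lit 426199) (nat_lit 9) .nil))))) (.g (nat_lit 0) (.e (nat_lit 297494) (nat_lit 0) .nil) .nil))) 
(.lf (nat_lit 551836) (.g (nat_lit 2127) (.e (nat_lit 426122) (nat_lit 2) (.e (nat_lit 196666) (nat_lit 13) (.e (nat_lit 65617) (nat_lit 10) (.e (nat_lit 344133) (nat_lit 26) (.e (nat_lit 557091) (nat_lit 12) (.e (nat_lit 164022) (nat_lit 46) (.e (nat_lit 704627) (nat_lit 9) (.e (nat_lit 398) (nat_lit 32) .nil)))))))) (.g (nat_lit 1) (.e (nat_lit 298725) (nat_lit 0) .nil) .nil)))))) 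
(.nd (nat_lit 7) (.nd (nat_lit 8) (.nd (nat_lit 9) 
(.lf (nat_lit 551004) (.g (nat_lit 1396) (.e (nat_lit 426105) (nat_lit 1) (.e (nat_lit 164345) (nat_lit 240) (.e (nat_lit 2638) (nat_lit 165) (.e (nat_lit 180277) (nat_lit 32) (.e (nat_lit 1659) (nat_lit 115) .nil))))) (.g (nat_lit 0) (.e (nat_lit 296677) (nat_lit 0) .nil) .nil))) 
(.lf (nat_lit 551516) (.g (nat_lit 2175) (.e (nat_lit 426113) (nat_lit 2) (.e (nat_lit 196666) (nat_lit 13) (.e (nat_lit 65610) (nat_lit 10) (.e (nat_lit 344129) (nat_lit 26) (.e (nat_lit 557089) (nat_lit 12) .nil))))) (.g (nat_lit 0) (.e (nat_lit 298104) (nat_lit 0) .nil) .nil)))) (.nd (nat_lit 9) 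
(.lf (nat_lit 551260) (.g (nat_lit 2289) (.e (nat_lit 426108) (nat_lit 1) (.e (nat_lit 164182) (nat_lit 154) (.e (nat_lit 57411) (nat_lit 12) (.e (nat_lit 336324) (nat_lit 18) (.e (nat_lit 204867) (nat_lit 28) .nil))))) (.g (nat_lit 0) (.e (nat_lit 297330) (nat_lit 0) .nil) .nil))) 
(.lf (nat_lit 551772) (.g (nat_lit 2251) (.e (nat_lit 426122) (nat_lit 2) (.e (nat_lit 196666) (nat_lit 13) (.e (nat_lit 65610) (nat_lit 10) (.e (nat_lit 344129) (nat_lit 26) (.e (nat_lit 557089) (nat_lit 12) .nil))))) (.g (nat_lit 0) (.e (nat_lit 298656) (nat_lit 0) .nil) .nil))))) (.nd (nat_lit 8) (.nd (nat_lit 9) 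
(.lf (nat_lit 551132) (.g (nat_lit 2357) (.e (nat_lit 426107) (nat_lit 1) (.e (nat_lit 164325) (nat_lit 230) (.e (nat_lit 163870) (nat_lit 2) (.e (nat_lit 196656) (nat_lit 11) (.e (nat_lit 16465) (nat_lit 13) (.e (nat_lit 483341) (nat_lit 9) .nil)))))) (.g (nat_lit 1) (.e (nat_lit 296927) (nat_lit 0) .nil) .nil))) 
(.lf (nat_lit 551644) (.g (nat_lit 2341) (.e (nat_lit 426121) (nat_lit 2) (.e (nat_lit 196666) (nat_lit 13) (.e (nat_lit 65610) (nat_lit 10) (.e (nat_lit 344129) (nat_lit 26) (.e (nat_lit 557089) (nat_lit 12) .nil))))) (.g (nat_lit 0) (.e (nat_lit 298486) (nat_lit 0) .nil) .nil)))) (.nd (nat_lit 9) 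
(.lf (nat_lit 551388) (.g (nat_lit 1772) (.e (nat_lit 426109) (nat_lit 1) (.e (nat_lit 164345) (nat_lit 240) (.e (nat_lit 2638) (nat_lit 165) (.e (nat_lit 180277) (nat_lit 32) (.e (nat_lit 1660) (nat_lit 115) (.e (nat_lit 393277) (nat_lit 23) .nil)))))) (.g (nat_lit 1) (.e (nat_lit 297679) (nat_lit 0) .nil) .nil))) 
(.lf (nat_lit 551900) (.g (nat_lit 3208) (.e (nat_lit 426123) (nat_lit 2) (.e (nat_lit 196666) (nat_lit 13) (.e (nat_lit 65610) (nat_lit 10) (.e (nat_lit 344129) (nat_lit 26) (.e (nat_lit 557072) (nat_lit 9) (.e (nat_lit 2741) (nat_lit 174) (.e (nat_lit 253959) (nat_lit 9) (.e (nat_lit 396) (nat_lit 32) .nil)))))))) (.g (nat_lit 1) (.e (nat_lit 298999) (nat_lit 0) .nil) .nil))))))) 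
(.nd (nat_lit 6) (.nd (nat_lit 7) (.nd (nat_lit 8) (.nd (nat_lit 9) 
(.lf (nat_lit 550972) (.g (nat_lit 567) (.e (nat_lit 426105) (nat_lit 1) (.e (nat_lit 164325) (nat_lit 230) (.e (nat_lit 163882) (nat_lit 4) .nil))) (.g (nat_lit 0) (.e (nat_lit 296611) (nat_lit 0) .nil) .nil))) 
(.lf (nat_lit 551484) (.g (nat_lit 1131) (.e (nat_lit 433920) (nat_lit 1) (.e (nat_lit 164399) (nat_lit 256) (.e (nat_lit 57378) (nat_lit 3) (.e (nat_lit 98369) (nat_lit 28) .nil)))) (.g (nat_lit 0) (.e (nat_lit 298060) (nat_lit 0) .nil) .nil)))) (.nd (nat_lit 9) 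
(.lf (nat_lit 551228) (.g (nat_lit 1706) (.e (nat_lit 426107) (nat_lit 1) (.e (nat_lit 164402) (nat_lit 256) (.e (nat_lit 57373) (nat_lit 2) (.e (nat_lit 90176) (nat_lit 15) (.e (nat_lit 188421) (nat_lit 11) .nil))))) (.g (nat_lit 0) (.e (nat_lit 297294) (nat_lit 0) .nil) .nil))) 
(.lf (nat_lit 551740) (.g (nat_lit 2433) (.e (nat_lit 426121) (nat_lit 2) (.e (nat_lit 196666) (nat_lit 13) (.e (nat_lit 65617) (nat_lit 10) (.e (nat_lit 344133) (nat_lit 26) (.e (nat_lit 557091) (nat_lit 12) (.e (nat_lit 164022) (nat_lit 46) (.e (nat_lit 704626) (nat_lit 9) (.e (nat_lit 389) (nat_lit 32) .nil)))))))) (.g (nat_lit 1) (.e (nat_lit 298592) (nat_lit 0) .nil) .nil))))) 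
(.nd (nat_lit 8) (.nd (nat_lit 9) 
(.lf (nat_lit 551100) (.g (nat_lit 2527) (.e (nat_lit 426107) (nat_lit 1) (.e (nat_lit 164179) (nat_lit 154) (.e (nat_lit 57411) (nat_lit 12) (.e (nat_lit 336316) (nat_lit 17) (.e (nat_lit 196672) (nat_lit 15) .nil))))) (.g (nat_lit 0) (.e (nat_lit 296837) (nat_lit 0) .nil) .nil))) 
(.lf (nat_lit 551612) (.g (nat_lit 3170) (.e (nat_lit 426120) (nat_lit 2) (.e (nat_lit 196666) (nat_lit 13) (.e (nat_lit 65617) (nat_lit 10) (.e (nat_lit 344132) (nat_lit 26) (.e (nat_lit 557093) (nat_lit 12) (.e (nat_lit 164022) (nat_lit 46) (.e (nat_lit 704628) (nat_lit 9) (.e (nat_lit 373) (nat_lit 32) .nil)))))))) (.g (nat_lit 1) (.e (nat_lit 298434) (nat_lit 0) .nil) .nil)))) 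
(.nd (nat_lit 9) 
(.lf (nat_lit 551356) (.g (nat_lit 1394) (.e (nat_lit 426108) (nat_lit 1) (.e (nat_lit 164403) (nat_lit 256) (.e (nat_lit 57406) (nat_lit 12) (.e (nat_lit 336427) (nat_lit 29) .nil)))) (.g (nat_lit 0) (.e (nat_lit 297541) (nat_lit 0) .nil) .nil))) 
(.lf (nat_lit 551868) (.g (nat_lit 1145) (.e (nat_lit 426123) (nat_lit 2) (.e (nat_lit 196654) (nat_lit 11) (.e (nat_lit 16412) (nat_lit 2) (.e (nat_lit 196656) (nat_lit 11) .nil)))) (.g (nat_lit 0) (.e (nat_lit 298780) (nat_lit 0) .nil) .nil)))))) (.nd (nat_lit 7) (.nd (nat_lit 8) (.nd (nat_lit 9) 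
(.lf (nat_lit 551036) (.g (nat_lit 1613) (.e (nat_lit 426106) (nat_lit 1) (.e (nat_lit 164182) (nat_lit 154) (.e (nat_lit 57411) (nat_lit 12) (.e (nat_lit 336322) (nat_lit 18) .nil)))) (.g (nat_lit 0) (.e (nat_lit 296717) (nat_lit 0) .nil) .nil))) 
(.lf (nat_lit 551548) (.g (nat_lit 901) (.e (nat_lit 426114) (nat_lit 2) (.e (nat_lit 196681) (nat_lit 17) (.e (nat_lit 131121) (nat_lit 12) .nil))) (.g (nat_lit 0) (.e (nat_lit 298219) (nat_lit 0) .nil) .nil)))) (.nd (nat_lit 9) 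
(.lf (nat_lit 551292) (.g (nat_lit 2797) (.e (nat_lit 426108) (nat_lit 1) (.e (nat_lit 164330) (nat_lit 230) (.e (nat_lit 163869) (nat_lit 2) (.e (nat_lit 196656) (nat_lit 11) (.e (nat_lit 16436) (nat_lit 9) (.e (nat_lit 426481) (nat_lit 27) (.e (nat_lit 336388) (nat_lit 27) .nil))))))) (.g (nat_lit 1) (.e (nat_lit 297399) (nat_lit 0) .nil) .nil))) 
(.lf (nat_lit 551804) (.g (nat_lit 2763) (.e (nat_lit 426122) (nat_lit 2) (.e (nat_lit 196666) (nat_lit 13) (.e (nat_lit 65617) (nat_lit 10) (.e (nat_lit 344132) (nat_lit 26) (.e (nat_lit 557093) (nat_lit 12) (.e (nat_lit 164022) (nat_lit 46) (.e (nat_lit 704627) (nat_lit 9) (.e (nat_lit 416) (nat_lit 32) .nil)))))))) (.g (nat_lit 1) (.e (nat_lit 298688) (nat_lit 0) .nil) .nil))))) 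
(.nd (nat_lit 8) (.nd (nat_lit 9) 
(.lf (nat_lit 551164) (.g (nat_lit 291) (.e (nat_lit 426107) (nat_lit 1) (.e (nat_lit 164326) (nat_lit 230) (.e (nat_lit 163871) (nat_lit 2) .nil))) (.g (nat_lit 0) (.e (nat_lit 297047) (nat_lit 0) .nil) .nil))) 
(.lf (nat_lit 551676) (.g (nat_lit 3635) (.e (nat_lit 426121) (nat_lit 2) (.e (nat_lit 196666) (nat_lit 13) (.e (nat_lit 65617) (nat_lit 10) (.e (nat_lit 344132) (nat_lit 26) (.e (nat_lit 557072) (nat_lit 9) (.e (nat_lit 2741) (nat_lit 174) (.e (nat_lit 253959) (nat_lit 9) (.e (nat_lit 396) (nat_lit 32) .nil)))))))) (.g (nat_lit 1) (.e (nat_lit 298518) (nat_lit 0) .nil) .nil)))) (.nd (nat_lit 9) 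
(.lf (nat_lit 551420) (.g (nat_lit 2491) (.e (nat_lit 426110) (nat_lit 1) (.e (nat_lit 164327) (nat_lit 230) (.e (nat_lit 163868) (nat_lit 2) (.e (nat_lit 196655) (nat_lit 11) (.e (nat_lit 16465) (nat_lit 13) (.e (nat_lit 483339) (nat_lit 9) .nil)))))) (.g (nat_lit 1) (.e (nat_lit 297829) (nat_lit 0) .nil) .nil))) 
(.lf (nat_lit 551932) (.g (nat_lit 3173) (.e (nat_lit 426123) (nat_lit 2) (.e (nat_lit 196666) (nat_lit 13) (.e (nat_lit 65610) (nat_lit 10) (.e (nat_lit 344129) (nat_lit 26) (.e (nat_lit 557090) (nat_lit 12) (.e (nat_lit 171776) (nat_lit 48) (.e (nat_lit 728832) (nat_lit 11) .nil))))))) (.g (nat_lit 1) (.e (nat_lit 299069) (nat_lit 0) .nil) .nil))))))))))) 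
(.nd (nat_lit 2) (.nd (nat_lit 3) (.nd (nat_lit 4) (.nd (nat_lit 5) (.nd (nat_lit 6) 
(.nd (nat_lit 7) (.nd (nat_lit 8) (.nd (nat_lit 9) 
(.lf (nat_lit 550914) (.g (nat_lit 2609) (.e (nat_lit 426100) (nat_lit 1) (.e (nat_lit 164399) (nat_lit 256) (.e (nat_lit 57451) (nat_lit 20) (.e (nat_lit 401448) (nat_lit 10) (.e (nat_lit 434271) (nat_lit 38) (.e (nat_lit 655382) (nat_lit 8) (.e (nat_lit 237612) (nat_lit 9) .nil))))))) (.g (nat_lit 1) (.e (nat_lit 296452) (nat_lit 0) .nil) .nil))) 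
(.lf (nat_lit 551426) (.g (nat_lit 3276) (.e (nat_lit 426110) (nat_lit 1) (.e (nat_lit 164327) (nat_lit 230) (.e (nat_lit 163868) (nat_lit 2) (.e (nat_lit 196656) (nat_lit 11) (.e (nat_lit 16466) (nat_lit 13) (.e (nat_lit 491264) (nat_lit 9) .nil)))))) (.g (nat_lit 1) (.e (nat_lit 297840) (nat_lit 0) .nil) .nil)))) (.nd (nat_lit 9) 
(.lf (nat_lit 551170) (.g (nat_lit 3312) (.e (nat_lit 426107) (nat_lit 1) (.e (nat_lit 164326) (nat_lit 230) (.e (nat_lit 163871) (nat_lit 2) (.e (nat_lit 196656) (nat_lit 11) (.e (nat_lit 16439) (nat_lit 9) .nil))))) (.g (nat_lit 0) (.e (nat_lit 297093) (nat_lit 0) .nil) .nil))) 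
(.lf (nat_lit 551682) (.g (nat_lit 3415) (.e (nat_lit 426121) (nat_lit 2) (.e (nat_lit 196666) (nat_lit 13) (.e (nat_lit 65617) (nat_lit 10) (.e (nat_lit 344132) (nat_lit 26) (.e (nat_lit 557093) (nat_lit 12) (.e (nat_lit 164022) (nat_lit 46) (.e (nat_lit 704626) (nat_lit 9) (.e (nat_lit 398) (nat_lit 32) .nil)))))))) (.g (nat_lit 1) (.e (nat_lit 298524) (nat_lit 0) .nil) .nil))))) 
(.nd (nat_lit 8) (.nd (nat_lit 9) 
(.lf (nat_lit 551042) (.g (nat_lit 1750) (.e (nat_lit 426106) (nat_lit 1) (.e (nat_lit 164183) (nat_lit 154) (.e (nat_lit 57411) (nat_lit 12) (.e (nat_lit 336324) (nat_lit 18) (.e (nat_lit 204875) (nat_lit 31) .nil))))) (.g (nat_lit 0) (.e (nat_lit 296723) (nat_lit 0) .nil) .nil))) 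
(.lf (nat_lit 551554) (.g (nat_lit 2689) (.e (nat_lit 426115) (nat_lit 2) (.e (nat_lit 196654) (nat_lit 11) (.e (nat_lit 16416) (nat_lit 3) (.e (nat_lit 204829) (nat_lit 18) (.e (nat_lit 57688) (nat_lit 156) .nil))))) (.g (nat_lit 0) (.e (nat_lit 298238) (nat_lit 0) .nil) .nil)))) (.nd (nat_lit 9) 
(.lf (nat_lit 551298) (.g (nat_lit 3841) (.e (nat_lit 426108) (nat_lit 1) (.e (nat_lit 164330) (nat_lit 230) (.e (nat_lit 163873) (nat_lit 3) (.e (nat_lit 204813) (nat_lit 9) (.e (nat_lit 426199) (nat_lit 9) (.e (nat_lit 426478) (nat_lit 27) (.e (nat_lit 336388) (nat_lit 27) .nil))))))) (.g (nat_lit 1) (.e (nat_lit 297407) (nat_lit 0) .nil) .nil))) 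
(.lf (nat_lit 551810) (.g (nat_lit 2527) (.e (nat_lit 426122) (nat_lit 2) (.e (nat_lit 196666) (nat_lit 13) (.e (nat_lit 65617) (nat_lit 10) (.e (nat_lit 344132) (nat_lit 26) (.e (nat_lit 557093) (nat_lit 12) (.e (nat_lit 164022) (nat_lit 46) (.e (nat_lit 704629) (nat_lit 9) (.e (nat_lit 398) (nat_lit 32) .nil)))))))) (.g (nat_lit 1) (.e (nat_lit 298694) (nat_lit 0) .nil) .nil)))))) 
(.nd (nat_lit 7) (.nd (nat_lit 8) (.nd (nat_lit 9) 
(.lf (nat_lit 550978) (.g (nat_lit 1215) (.e (nat_lit 426105) (nat_lit 1) (.e (nat_lit 164327) (nat_lit 230) (.e (nat_lit 163871) (nat_lit 2) (.e (nat_lit 196654) (nat_lit 11) .nil)))) (.g (nat_lit 0) (.e (nat_lit 296619) (nat_lit 0) .nil) .nil))) 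
(.lf (nat_lit 551490) (.g (nat_lit 1959) (.e (nat_lit 433920) (nat_lit 1) (.e (nat_lit 164399) (nat_lit 256) (.e (nat_lit 57407) (nat_lit 12) (.e (nat_lit 336398) (nat_lit 27) .nil)))) (.g (nat_lit 0) (.e (nat_lit 298066) (nat_lit 0) .nil) .nil)))) (.nd (nat_lit 9) 
(.lf (nat_lit 551234) (.g (nat_lit 1699) (.e (nat_lit 426107) (nat_lit 1) (.e (nat_lit 164403) (nat_lit 256) (.e (nat_lit 57370) (nat_lit 2) (.e (nat_lit 90176) (nat_lit 15) (.e (nat_lit 188421) (nat_lit 11) .nil))))) (.g (nat_lit 0) (.e (nat_lit 297302) (nat_lit 0) .nil) .nil))) 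
(.lf (nat_lit 551746) (.g (nat_lit 3602) (.e (nat_lit 426121) (nat_lit 2) (.e (nat_lit 196666) (nat_lit 13) (.e (nat_lit 65617) (nat_lit 10) (.e (nat_lit 344133) (nat_lit 26) (.e (nat_lit 557091) (nat_lit 12) (.e (nat_lit 164022) (nat_lit 46) (.e (nat_lit 704627) (nat_lit 9) (.e (nat_lit 398) (nat_lit 32) .nil)))))))) (.g (nat_lit 1) (.e (nat_lit 298600) (nat_lit 0) .nil) .nil))))) 
(.nd (nat_lit 8) (.nd (nat_lit 9) 
(.lf (nat_lit 551106) (.g (nat_lit 2208) (.e (nat_lit 426107) (nat_lit 1) (.e (nat_lit 164179) (nat_lit 154) (.e (nat_lit 57412) (nat_lit 12) (.e (nat_lit 336295) (nat_lit 15) (.e (nat_lit 3234) (nat_lit 197) .nil))))) (.g (nat_lit 0) (.e (nat_lit 296844) (nat_lit 0) .nil) .nil))) 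
(.lf (nat_lit 551618) (.g (nat_lit 3369) (.e (nat_lit 426120) (nat_lit 2) (.e (nat_lit 196666) (nat_lit 13) (.e (nat_lit 65617) (nat_lit 10) (.e (nat_lit 344132) (nat_lit 26) (.e (nat_lit 557094) (nat_lit 12) (.e (nat_lit 164022) (nat_lit 46) (.e (nat_lit 704629) (nat_lit 9) (.e (nat_lit 370) (nat_lit 32) .nil)))))))) (.g (nat_lit 1) (.e (nat_lit 298440) (nat_lit 0) .nil) .nil)))) 
(.nd (nat_lit 9) 
(.lf (nat_lit 551362) (.g (nat_lit 516) (.e (nat_lit 426109) (nat_lit 1) (.e (nat_lit 164187) (nat_lit 157) (.e (nat_lit 229412) (nat_lit 14) .nil))) (.g (nat_lit 0) (.e (nat_lit 297554) (nat_lit 0) .nil) .nil))) 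
(.lf (nat_lit 551874) (.g (nat_lit 1495) (.e (nat_lit 426123) (nat_lit 2) (.e (nat_lit 196665) (nat_lit 13) (.e (nat_lit 65623) (nat_lit 12) (.e (nat_lit 385068) (nat_lit 26) (.e (nat_lit 532515) (nat_lit 3) .nil))))) (.g (nat_lit 0) (.e (nat_lit 298799) (nat_lit 0) .nil) .nil))))))) (.nd (nat_lit 6) (.nd (nat_lit 7) (.nd (nat_lit 8) (.nd (nat_lit 9) 
(.lf (nat_lit 550946) (.g (nat_lit 1887) (.e (nat_lit 426104) (nat_lit 1) (.e (nat_lit 164348) (nat_lit 240) (.e (nat_lit 2638) (nat_lit 165) (.e (nat_lit 180278) (nat_lit 32) (.e (nat_lit 1661) (nat_lit 115) .nil))))) (.g (nat_lit 0) (.e (nat_lit 296555) (nat_lit 0) .nil) .nil))) 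
(.lf (nat_lit 551458) (.g (nat_lit 966) (.e (nat_lit 426111) (nat_lit 1) (.e (nat_lit 164327) (nat_lit 230) (.e (nat_lit 163879) (nat_lit 4) .nil))) (.g (nat_lit 0) (.e (nat_lit 297954) (nat_lit 0) .nil) .nil)))) (.nd (nat_lit 9) 
(.lf (nat_lit 551202) (.g (nat_lit 3013) (.e (nat_lit 426107) (nat_lit 1) (.e (nat_lit 164327) (nat_lit 230) (.e (nat_lit 163873) (nat_lit 3) (.e (nat_lit 204813) (nat_lit 9) (.e (nat_lit 426200) (nat_lit 9) (.e (nat_lit 426480) (nat_lit 27) (.e (nat_lit 336388) (nat_lit 27) .nil))))))) (.g (nat_lit 1) (.e (nat_lit 297166) (nat_lit 0) .nil) .nil))) 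
(.lf (nat_lit 551714) (.g (nat_lit 3135) (.e (nat_lit 426121) (nat_lit 2) (.e (nat_lit 196666) (nat_lit 13) (.e (nat_lit 65617) (nat_lit 10) (.e (nat_lit 344132) (nat_lit 26) (.e (nat_lit 557094) (nat_lit 12) (.e (nat_lit 164022) (nat_lit 46) (.e (nat_lit 704626) (nat_lit 9) (.e (nat_lit 391) (nat_lit 32) .nil)))))))) (.g (nat_lit 1) (.e (nat_lit 298566) (nat_lit 0) .nil) .nil))))) 
(.nd (nat_lit 8) (.nd (nat_lit 9) 
(.lf (nat_lit 551074) (.g (nat_lit 3918) (.e (nat_lit 426106) (nat_lit 1) (.e (nat_lit 164332) (nat_lit 230) (.e (nat_lit 163869) (nat_lit 2) (.e (nat_lit 196656) (nat_lit 11) (.e (nat_lit 16463) (nat_lit 13) (.e (nat_lit 483341) (nat_lit 9) .nil)))))) (.g (nat_lit 1) (.e (nat_lit 296795) (nat_lit 0) .nil) .nil))) 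
(.lf (nat_lit 551586) (.g (nat_lit 2497) (.e (nat_lit 426117) (nat_lit 2) (.e (nat_lit 196666) (nat_lit 13) (.e (nat_lit 65617) (nat_lit 10) (.e (nat_lit 344133) (nat_lit 26) (.e (nat_lit 557091) (nat_lit 12) .nil))))) (.g (nat_lit 0) (.e (nat_lit 298397) (nat_lit 0) .nil) .nil)))) (.nd (nat_lit 9) 
(.lf (nat_lit 551330) (.g (nat_lit 2733) (.e (nat_lit 426108) (nat_lit 1) (.e (nat_lit 164332) (nat_lit 230) (.e (nat_lit 163880) (nat_lit 4) (.e (nat_lit 213030) (nat_lit 11) (.e (nat_lit 24658) (nat_lit 13) .nil))))) (.g (nat_lit 0) (.e (nat_lit 297508) (nat_lit 0) .nil) .nil))) 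
(.lf (nat_lit 551842) (.g (nat_lit 2274) (.e (nat_lit 426122) (nat_lit 2) (.e (nat_lit 196666) (nat_lit 13) (.e (nat_lit 65617) (nat_lit 10) (.e (nat_lit 344133) (nat_lit 26) (.e (nat_lit 557091) (nat_lit 12) (.e (nat_lit 164022) (nat_lit 46) (.e (nat_lit 704629) (nat_lit 9) (.e (nat_lit 388) (nat_lit 32) .nil)))))))) (.g (nat_lit 1) (.e (nat_lit 298731) (nat_lit 0) .nil) .nil)))))) 
(.nd (nat_lit 7) (.nd (nat_lit 8) (.nd (nat_lit 9) 
(.lf (nat_lit 551010) (.g (nat_lit 2562) (.e (nat_lit 426105) (nat_lit 1) (.e (nat_lit 164403) (nat_lit 256) (.e (nat_lit 57373) (nat_lit 2) (.e (nat_lit 90170) (nat_lit 13) (.e (nat_lit 172123) (nat_lit 13) (.e (nat_lit 483337) (nat_lit 9) .nil)))))) (.g (nat_lit 1) (.e (nat_lit 296683) (nat_lit 0) .nil) .nil))) 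
(.lf (nat_lit 551522) (.g (nat_lit 2014) (.e (nat_lit 426113) (nat_lit 2) (.e (nat_lit 196666) (nat_lit 13) (.e (nat_lit 65617) (nat_lit 10) (.e (nat_lit 344130) (nat_lit 26) (.e (nat_lit 557089) (nat_lit 12) .nil))))) (.g (nat_lit 0) (.e (nat_lit 298111) (nat_lit 0) .nil) .nil)))) (.nd (nat_lit 9) 
(.lf (nat_lit 551266) (.g (nat_lit 1659) (.e (nat_lit 426108) (nat_lit 1) (.e (nat_lit 164305) (nat_lit 226) (.e (nat_lit 2450) (nat_lit 157) (.e (nat_lit 2668) (nat_lit 167) (.e (nat_lit 196655) (nat_lit 11) .nil))))) (.g (nat_lit 0) (.e (nat_lit 297336) (nat_lit 0) .nil) .nil))) 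
(.lf (nat_lit 551778) (.g (nat_lit 2097) (.e (nat_lit 426122) (nat_lit 2) (.e (nat_lit 196666) (nat_lit 13) (.e (nat_lit 65617) (nat_lit 10) (.e (nat_lit 344130) (nat_lit 26) (.e (nat_lit 557089) (nat_lit 12) (.e (nat_lit 171776) (nat_lit 48) (.e (nat_lit 720908) (nat_lit 11) .nil))))))) (.g (nat_lit 1) (.e (nat_lit 298662) (nat_lit 0) .nil) .nil))))) (.nd (nat_lit 8) (.nd (nat_lit 9) 
(.lf (nat_lit 551138) (.g (nat_lit 2748) (.e (nat_lit 426107) (nat_lit 1) (.e (nat_lit 164325) (nat_lit 230) (.e (nat_lit 163873) (nat_lit 3) (.e (nat_lit 204813) (nat_lit 9) (.e (nat_lit 426199) (nat_lit 9) .nil))))) (.g (nat_lit 0) (.e (nat_lit 296938) (nat_lit 0) .nil) .nil))) 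
(.lf (nat_lit 551650) (.g (nat_lit 2137) (.e (nat_lit 426121) (nat_lit 2) (.e (nat_lit 196666) (nat_lit 13) (.e (nat_lit 65617) (nat_lit 10) (.e (nat_lit 344130) (nat_lit 26) (.e (nat_lit 557090) (nat_lit 12) .nil))))) (.g (nat_lit 0) (.e (nat_lit 298492) (nat_lit 0) .nil) .nil)))) (.nd (nat_lit 9) 
(.lf (nat_lit 551394) (.g (nat_lit 1285) (.e (nat_lit 426109) (nat_lit 1) (.e (nat_lit 164346) (nat_lit 240) (.e (nat_lit 2638) (nat_lit 165) (.e (nat_lit 180278) (nat_lit 32) (.e (nat_lit 1658) (nat_lit 115) .nil))))) (.g (nat_lit 0) (.e (nat_lit 297710) (nat_lit 0) .nil) .nil))) 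
(.lf (nat_lit 551906) (.g (nat_lit 3727) (.e (nat_lit 426123) (nat_lit 2) (.e (nat_lit 196666) (nat_lit 13) (.e (nat_lit 65610) (nat_lit 10) (.e (nat_lit 344129) (nat_lit 26) (.e (nat_lit 557089) (nat_lit 12) (.e (nat_lit 163849) (nat_lit 0) (.e (nat_lit 6421) (nat_lit 341) (.e (nat_lit 171776) (nat_lit 12) .nil)))))))) (.g (nat_lit 1) (.e (nat_lit 299016) (nat_lit 0) .nil) .nil)))))))) 
(.nd (nat_lit 5) (.nd (nat_lit 6) (.nd (nat_lit 7) (.nd (nat_lit 8) (.nd (nat_lit 9) 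
(.lf (nat_lit 550930) (.g (nat_lit 759) (.e (nat_lit 426101) (nat_lit 1) (.e (nat_lit 164325) (nat_lit 230) (.e (nat_lit 163881) (nat_lit 4) .nil))) (.g (nat_lit 0) (.e (nat_lit 296471) (nat_lit 0) .nil) .nil))) 
(.lf (nat_lit 551442) (.g (nat_lit 1796) (.e (nat_lit 426110) (nat_lit 1) (.e (nat_lit 164327) (nat_lit 230) (.e (nat_lit 163879) (nat_lit 4) (.e (nat_lit 213032) (nat_lit 11) (.e (nat_lit 24660) (nat_lit 13) (.e (nat_lit 393279) (nat_lit 23) .nil)))))) (.g (nat_lit 1) (.e (nat_lit 297919) (nat_lit 0) .nil) .nil)))) (.nd (nat_lit 9) 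
(.lf (nat_lit 551186) (.g (nat_lit 2741) (.e (nat_lit 426107) (nat_lit 1) (.e (nat_lit 164327) (nat_lit 230) (.e (nat_lit 163871) (nat_lit 2) (.e (nat_lit 196654) (nat_lit 11) (.e (nat_lit 16436) (nat_lit 9) (.e (nat_lit 426478) (nat_lit 27) (.e (nat_lit 336388) (nat_lit 27) .nil))))))) (.g (nat_lit 1) (.e (nat_lit 297146) (nat_lit 0) .nil) .nil))) 
(.lf (nat_lit 551698) (.g (nat_lit 2564) (.e (nat_lit 426121) (nat_lit 2) (.e (nat_lit 196666) (nat_lit 13) (.e (nat_lit 65617) (nat_lit 10) (.e (nat_lit 344132) (nat_lit 26) (.e (nat_lit 557093) (nat_lit 12) (.e (nat_lit 164023) (nat_lit 46) (.e (nat_lit 704626) (nat_lit 9) (.e (nat_lit 388) (nat_lit 32) .nil)))))))) (.g (nat_lit 1) (.e (nat_lit 298541) (nat_lit 0) .nil) .nil))))) 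
(.nd (nat_lit 8) (.nd (nat_lit 9) 
(.lf (nat_lit 551058) (.g (nat_lit 2862) (.e (nat_lit 426106) (nat_lit 1) (.e (nat_lit 164327) (nat_lit 230) (.e (nat_lit 163870) (nat_lit 2) (.e (nat_lit 196653) (nat_lit 11) (.e (nat_lit 16463) (nat_lit 13) .nil))))) (.g (nat_lit 0) (.e (nat_lit 296755) (nat_lit 0) .nil) .nil))) 
(.lf (nat_lit 551570) (.g (nat_lit 2625) (.e (nat_lit 426116) (nat_lit 2) (.e (nat_lit 196656) (nat_lit 11) (.e (nat_lit 16412) (nat_lit 2) (.e (nat_lit 196654) (nat_lit 11) (.e (nat_lit 16416) (nat_lit 3) (.e (nat_lit 204808) (nat_lit 9) .nil)))))) (.g (nat_lit 1) (.e (nat_lit 298319) (nat_lit 0) .nil) .nil)))) (.nd (nat_lit 9) 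
(.lf (nat_lit 551314) (.g (nat_lit 2935) (.e (nat_lit 426108) (nat_lit 1) (.e (nat_lit 164331) (nat_lit 230) (.e (nat_lit 163873) (nat_lit 3) (.e (nat_lit 204813) (nat_lit 9) (.e (nat_lit 426199) (nat_lit 9) .nil))))) (.g (nat_lit 0) (.e (nat_lit 297440) (nat_lit 0) .nil) .nil))) 
(.lf (nat_lit 551826) (.g (nat_lit 2316) (.e (nat_lit 426122) (nat_lit 2) (.e (nat_lit 196666) (nat_lit 13) (.e (nat_lit 65617) (nat_lit 10) (.e (nat_lit 344132) (nat_lit 26) (.e (nat_lit 557094) (nat_lit 12) (.e (nat_lit 164022) (nat_lit 46) (.e (nat_lit 704629) (nat_lit 9) (.e (nat_lit 391) (nat_lit 32) .nil)))))))) (.g (nat_lit 1) (.e (nat_lit 298715) (nat_lit 0) .nil) .nil)))))) 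
(.nd (nat_lit 7) (.nd (nat_lit 8) (.nd (nat_lit 9) 
(.lf (nat_lit 550994) (.g (nat_lit 2746) (.e (nat_lit 426105) (nat_lit 1) (.e (nat_lit 164332) (nat_lit 230) (.e (nat_lit 163869) (nat_lit 2) (.e (nat_lit 196654) (nat_lit 11) (.e (nat_lit 16438) (nat_lit 9) (.e (nat_lit 426482) (nat_lit 27) (.e (nat_lit 336388) (nat_lit 27) .nil))))))) (.g (nat_lit 1) (.e (nat_lit 296660) (nat_lit 0) .nil) .nil))) 
(.lf (nat_lit 551506) (.g (nat_lit 921) (.e (nat_lit 433920) (nat_lit 1) (.e (nat_lit 164403) (nat_lit 256) (.e (nat_lit 57378) (nat_lit 3) (.e (nat_lit 98363) (nat_lit 26) .nil)))) (.g (nat_lit 0) (.e (nat_lit 298082) (nat_lit 0) .nil) .nil)))) (.nd (nat_lit 9) 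
(.lf (nat_lit 551250) (.g (nat_lit 1340) (.e (nat_lit 426107) (nat_lit 1) (.e (nat_lit 164403) (nat_lit 256) (.e (nat_lit 57406) (nat_lit 12) (.e (nat_lit 336441) (nat_lit 32) .nil)))) (.g (nat_lit 0) (.e (nat_lit 297319) (nat_lit 0) .nil) .nil))) 
(.lf (nat_lit 551762) (.g (nat_lit 2225) (.e (nat_lit 426121) (nat_lit 2) (.e (nat_lit 196666) (nat_lit 13) (.e (nat_lit 65622) (nat_lit 12) (.e (nat_lit 385066) (nat_lit 26) (.e (nat_lit 532515) (nat_lit 3) .nil))))) (.g (nat_lit 0) (.e (nat_lit 298618) (nat_lit 0) .nil) .nil))))) (.nd (nat_lit 8) (.nd (nat_lit 9) 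
(.lf (nat_lit 551122) (.g (nat_lit 1874) (.e (nat_lit 426107) (nat_lit 1) (.e (nat_lit 164325) (nat_lit 230) (.e (nat_lit 163868) (nat_lit 2) (.e (nat_lit 196653) (nat_lit 11) .nil)))) (.g (nat_lit 0) (.e (nat_lit 296908) (nat_lit 0) .nil) .nil))) 
(.lf (nat_lit 551634) (.g (nat_lit 1927) (.e (nat_lit 426121) (nat_lit 2) (.e (nat_lit 196654) (nat_lit 11) (.e (nat_lit 16416) (nat_lit 3) (.e (nat_lit 204813) (nat_lit 9) (.e (nat_lit 426138) (nat_lit 3) .nil))))) (.g (nat_lit 0) (.e (nat_lit 298467) (nat_lit 0) .nil) .nil)))) (.nd (nat_lit 9) 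
(.lf (nat_lit 551378) (.g (nat_lit 1443) (.e (nat_lit 426109) (nat_lit 1) (.e (nat_lit 164327) (nat_lit 230) (.e (nat_lit 163871) (nat_lit 2) (.e (nat_lit 196656) (nat_lit 11) .nil)))) (.g (nat_lit 0) (.e (nat_lit 297639) (nat_lit 0) .nil) .nil))) 
(.lf (nat_lit 551890) (.g (nat_lit 3020) (.e (nat_lit 426123) (nat_lit 2) (.e (nat_lit 196666) (nat_lit 13) (.e (nat_lit 65610) (nat_lit 10) (.e (nat_lit 344117) (nat_lit 21) (.e (nat_lit 524032) (nat_lit 18) (.e (nat_lit 57692) (nat_lit 156) (.e (nat_lit 163914) (nat_lit 12) .nil))))))) (.g (nat_lit 1) (.e (nat_lit 298961) (nat_lit 0) .nil) .nil))))))) 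
(.nd (nat_lit 6) (.nd (nat_lit 7) (.nd (nat_lit 8) (.nd (nat_lit 9) 
(.lf (nat_lit 550962) (.g (nat_lit 1512) (.e (nat_lit 426105) (nat_lit 1) (.e (nat_lit 164183) (nat_lit 154) (.e (nat_lit 57411) (nat_lit 12) (.e (nat_lit 336315) (nat_lit 17) .nil)))) (.g (nat_lit 0) (.e (nat_lit 296580) (nat_lit 0) .nil) .nil))) 
(.lf (nat_lit 551474) (.g (nat_lit 1622) (.e (nat_lit 433920) (nat_lit 1) (.e (nat_lit 164327) (nat_lit 230) (.e (nat_lit 163868) (nat_lit 2) (.e (nat_lit 196656) (nat_lit 11) .nil)))) (.g (nat_lit 0) (.e (nat_lit 298036) (nat_lit 0) .nil) .nil)))) (.nd (nat_lit 9) 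
(.lf (nat_lit 551218) (.g (nat_lit 1350) (.e (nat_lit 426107) (nat_lit 1) (.e (nat_lit 164345) (nat_lit 240) (.e (nat_lit 2638) (nat_lit 165) (.e (nat_lit 180277) (nat_lit 32) (.e (nat_lit 1660) (nat_lit 115) .nil))))) (.g (nat_lit 0) (.e (nat_lit 297221) (nat_lit 0) .nil) .nil))) 
(.lf (nat_lit 551730) (.g (nat_lit 3598) (.e (nat_lit 426121) (nat_lit 2) (.e (nat_lit 196666) (nat_lit 13) (.e (nat_lit 65617) (nat_lit 10) (.e (nat_lit 344132) (nat_lit 26) (.e (nat_lit 557094) (nat_lit 12) (.e (nat_lit 164022) (nat_lit 46) (.e (nat_lit 704629) (nat_lit 9) (.e (nat_lit 435) (nat_lit 32) .nil)))))))) (.g (nat_lit 1) (.e (nat_lit 298582) (nat_lit 0) .nil) .nil))))) 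
(.nd (nat_lit 8) (.nd (nat_lit 9) 
(.lf (nat_lit 551090) (.g (nat_lit 1671) (.e (nat_lit 426106) (nat_lit 1) (.e (nat_lit 164403) (nat_lit 256) (.e (nat_lit 57409) (nat_lit 12) (.e (nat_lit 336432) (nat_lit 30) (.e (nat_lit 450580) (nat_lit 5) .nil))))) (.g (nat_lit 0) (.e (nat_lit 296814) (nat_lit 0) .nil) .nil))) 
(.lf (nat_lit 551602) (.g (nat_lit 2366) (.e (nat_lit 426120) (nat_lit 2) (.e (nat_lit 196666) (nat_lit 13) (.e (nat_lit 65617) (nat_lit 10) (.e (nat_lit 344130) (nat_lit 26) (.e (nat_lit 557090) (nat_lit 12) (.e (nat_lit 164022) (nat_lit 46) (.e (nat_lit 704626) (nat_lit 9) (.e (nat_lit 373) (nat_lit 32) .nil)))))))) (.g (nat_lit 1) (.e (nat_lit 298424) (nat_lit 0) .nil) .nil)))) 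
(.nd (nat_lit 9) 
(.lf (nat_lit 551346) (.g (nat_lit 1796) (.e (nat_lit 426108) (nat_lit 1) (.e (nat_lit 164403) (nat_lit 256) (.e (nat_lit 57373) (nat_lit 2) (.e (nat_lit 90167) (nat_lit 13) .nil)))) (.g (nat_lit 0) (.e (nat_lit 297531) (nat_lit 0) .nil) .nil))) 
(.lf (nat_lit 551858) (.g (nat_lit 3219) (.e (nat_lit 426122) (nat_lit 2) (.e (nat_lit 196681) (nat_lit 17) (.e (nat_lit 131109) (nat_lit 9) (.e (nat_lit 336324) (nat_lit 18) (.e (nat_lit 204838) (nat_lit 20) (.e (nat_lit 114698) (nat_lit 11) .nil)))))) (.g (nat_lit 1) (.e (nat_lit 298763) (nat_lit 0) .nil) .nil)))))) (.nd (nat_lit 7) (.nd (nat_lit 8) (.nd (nat_lit 9) 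
(.lf (nat_lit 551026) (.g (nat_lit 1881) (.e (nat_lit 426106) (nat_lit 1) (.e (nat_lit 164179) (nat_lit 154) (.e (nat_lit 57407) (nat_lit 12) (.e (nat_lit 336316) (nat_lit 17) (.e (nat_lit 196674) (nat_lit 15) .nil))))) (.g (nat_lit 0) (.e (nat_lit 296707) (nat_lit 0) .nil) .nil))) 
(.lf (nat_lit 551538) (.g (nat_lit 3069) (.e (nat_lit 426114) (nat_lit 2) (.e (nat_lit 196654) (nat_lit 11) (.e (nat_lit 16416) (nat_lit 3) (.e (nat_lit 204813) (nat_lit 9) (.e (nat_lit 426139) (nat_lit 3) (.e (nat_lit 204813) (nat_lit 9) .nil)))))) (.g (nat_lit 1) (.e (nat_lit 298187) (nat_lit 0) .nil) .nil)))) (.nd (nat_lit 9) 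
(.lf (nat_lit 551282) (.g (nat_lit 2935) (.e (nat_lit 426108) (nat_lit 1) (.e (nat_lit 164330) (nat_lit 230) (.e (nat_lit 163867) (nat_lit 2) (.e (nat_lit 196654) (nat_lit 11) (.e (nat_lit 16466) (nat_lit 13) (.e (nat_lit 483340) (nat_lit 9) .nil)))))) (.g (nat_lit 1) (.e (nat_lit 297380) (nat_lit 0) .nil) .nil))) 
(.lf (nat_lit 551794) (.g (nat_lit 2240) (.e (nat_lit 426122) (nat_lit 2) (.e (nat_lit 196666) (nat_lit 13) (.e (nat_lit 65617) (nat_lit 10) (.e (nat_lit 344130) (nat_lit 26) (.e (nat_lit 557090) (nat_lit 12) (.e (nat_lit 164022) (nat_lit 46) (.e (nat_lit 704629) (nat_lit 9) (.e (nat_lit 389) (nat_lit 32) .nil)))))))) (.g (nat_lit 1) (.e (nat_lit 298678) (nat_lit 0) .nil) .nil))))) 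
(.nd (nat_lit 8) (.nd (nat_lit 9) 
(.lf (nat_lit 551154) (.g (nat_lit 280) (.e (nat_lit 426107) (nat_lit 1) (.e (nat_lit 164326) (nat_lit 230) (.e (nat_lit 163868) (nat_lit 2) .nil))) (.g (nat_lit 0) (.e (nat_lit 296979) (nat_lit 0) .nil) .nil))) 
(.lf (nat_lit 551666) (.g (nat_lit 3730) (.e (nat_lit 426121) (nat_lit 2) (.e (nat_lit 196666) (nat_lit 13) (.e (nat_lit 65617) (nat_lit 10) (.e (nat_lit 344130) (nat_lit 26) (.e (nat_lit 557090) (nat_lit 12) (.e (nat_lit 164022) (nat_lit 46) (.e (nat_lit 704629) (nat_lit 9) (.e (nat_lit 389) (nat_lit 32) .nil)))))))) (.g (nat_lit 1) (.e (nat_lit 298508) (nat_lit 0) .nil) .nil)))) 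
(.nd (nat_lit 9) 
(.lf (nat_lit 551410) (.g (nat_lit 2357) (.e (nat_lit 426109) (nat_lit 1) (.e (nat_lit 164348) (nat_lit 240) (.e (nat_lit 2610) (nat_lit 163) (.e (nat_lit 163979) (nat_lit 30) (.e (nat_lit 573493) (nat_lit 15) .nil))))) (.g (nat_lit 0) (.e (nat_lit 297770) (nat_lit 0) .nil) .nil))) 
(.lf (nat_lit 551922) (.g (nat_lit 3617) (.e (nat_lit 426123) (nat_lit 2) (.e (nat_lit 196666) (nat_lit 13) (.e (nat_lit 65610) (nat_lit 10) (.e (nat_lit 344129) (nat_lit 26) (.e (nat_lit 557090) (nat_lit 12) (.e (nat_lit 163847) (nat_lit 0) (.e (nat_lit 6421) (nat_lit 341) (.e (nat_lit 171776) (nat_lit 12) .nil)))))))) (.g (nat_lit 1) (.e (nat_lit 299047) (nat_lit 0) .nil) .nil))))))))) 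
(.nd (nat_lit 4) (.nd (nat_lit 5) (.nd (nat_lit 6) (.nd (nat_lit 7) (.nd (nat_lit 8) 
(.nd (nat_lit 9) 
(.lf (nat_lit 550922) (.g (nat_lit 474) (.e (nat_lit 426100) (nat_lit 1) (.e (nat_lit 164403) (nat_lit 256) (.e (nat_lit 57378) (nat_lit 3) .nil))) (.g (nat_lit 0) (.e (nat_lit 296460) (nat_lit 0) .nil) .nil))) 
(.lf (nat_lit 551434) (.g (nat_lit 3125) (.e (nat_lit 426110) (nat_lit 1) (.e (nat_lit 164327) (nat_lit 230) (.e (nat_lit 163871) (nat_lit 2) (.e (nat_lit 196655) (nat_lit 11) (.e (nat_lit 16465) (nat_lit 13) (.e (nat_lit 491264) (nat_lit 9) .nil)))))) (.g (nat_lit 1) (.e (nat_lit 297864) (nat_lit 0) .nil) .nil)))) (.nd (nat_lit 9) 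
(.lf (nat_lit 551178) (.g (nat_lit 1097) (.e (nat_lit 426107) (nat_lit 1) (.e (nat_lit 164327) (nat_lit 230) (.e (nat_lit 163868) (nat_lit 2) (.e (nat_lit 196654) (nat_lit 11) .nil)))) (.g (nat_lit 0) (.e (nat_lit 297126) (nat_lit 0) .nil) .nil))) 
(.lf (nat_lit 551690) (.g (nat_lit 4015) (.e (nat_lit 426121) (nat_lit 2) (.e (nat_lit 196666) (nat_lit 13) (.e (nat_lit 65617) (nat_lit 10) (.e (nat_lit 344132) (nat_lit 26) (.e (nat_lit 557093) (nat_lit 12) (.e (nat_lit 164022) (nat_lit 46) (.e (nat_lit 704628) (nat_lit 9) (.e (nat_lit 398) (nat_lit 32) .nil)))))))) (.g (nat_lit 1) (.e (nat_lit 298532) (nat_lit 0) .nil) .nil))))) 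
(.nd (nat_lit 8) (.nd (nat_lit 9) 
(.lf (nat_lit 551050) (.g (nat_lit 3287) (.e (nat_lit 426106) (nat_lit 1) (.e (nat_lit 164326) (nat_lit 230) (.e (nat_lit 163868) (nat_lit 2) (.e (nat_lit 196656) (nat_lit 11) (.e (nat_lit 16463) (nat_lit 13) (.e (nat_lit 483341) (nat_lit 9) .nil)))))) (.g (nat_lit 1) (.e (nat_lit 296745) (nat_lit 0) .nil) .nil))) 
(.lf (nat_lit 551562) (.g (nat_lit 3592) (.e (nat_lit 426116) (nat_lit 2) (.e (nat_lit 196654) (nat_lit 11) (.e (nat_lit 16416) (nat_lit 3) (.e (nat_lit 204813) (nat_lit 9) (.e (nat_lit 426133) (nat_lit 3) (.e (nat_lit 204809) (nat_lit 9) .nil)))))) (.g (nat_lit 1) (.e (nat_lit 298303) (nat_lit 0) .nil) .nil)))) (.nd (nat_lit 9) 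
(.lf (nat_lit 551306) (.g (nat_lit 2699) (.e (nat_lit 426108) (nat_lit 1) (.e (nat_lit 164330) (nat_lit 230) (.e (nat_lit 163874) (nat_lit 3) (.e (nat_lit 204813) (nat_lit 9) (.e (nat_lit 426200) (nat_lit 9) (.e (nat_lit 426478) (nat_lit 27) (.e (nat_lit 336388) (nat_lit 27) .nil))))))) (.g (nat_lit 1) (.e (nat_lit 297419) (nat_lit 0) .nil) .nil))) 
(.lf (nat_lit 551818) (.g (nat_lit 1945) (.e (nat_lit 426122) (nat_lit 2) (.e (nat_lit 196666) (nat_lit 13) (.e (nat_lit 65617) (nat_lit 10) (.e (nat_lit 344132) (nat_lit 26) (.e (nat_lit 557094) (nat_lit 12) .nil))))) (.g (nat_lit 0) (.e (nat_lit 298707) (nat_lit 0) .nil) .nil)))))) (.nd (nat_lit 7) (.nd (nat_lit 8) (.nd (nat_lit 9) 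
(.lf (nat_lit 550986) (.g (nat_lit 1650) (.e (nat_lit 426105) (nat_lit 1) (.e (nat_lit 164331) (nat_lit 230) (.e (nat_lit 163867) (nat_lit 2) (.e (nat_lit 196654) (nat_lit 11) (.e (nat_lit 16466) (nat_lit 13) .nil))))) (.g (nat_lit 0) (.e (nat_lit 296641) (nat_lit 0) .nil) .nil))) 
(.lf (nat_lit 551498) (.g (nat_lit 967) (.e (nat_lit 433920) (nat_lit 1) (.e (nat_lit 164399) (nat_lit 256) (.e (nat_lit 57409) (nat_lit 12) (.e (nat_lit 336434) (nat_lit 30) .nil)))) (.g (nat_lit 0) (.e (nat_lit 298074) (nat_lit 0) .nil) .nil)))) (.nd (nat_lit 9) 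
(.lf (nat_lit 551242) (.g (nat_lit 3042) (.e (nat_lit 426107) (nat_lit 1) (.e (nat_lit 164403) (nat_lit 256) (.e (nat_lit 57377) (nat_lit 3) (.e (nat_lit 98365) (nat_lit 26) (.e (nat_lit 426327) (nat_lit 13) (.e (nat_lit 483341) (nat_lit 9) .nil)))))) (.g (nat_lit 1) (.e (nat_lit 297311) (nat_lit 0) .nil) .nil))) 
(.lf (nat_lit 551754) (.g (nat_lit 3971) (.e (nat_lit 426121) (nat_lit 2) (.e (nat_lit 196666) (nat_lit 13) (.e (nat_lit 65617) (nat_lit 10) (.e (nat_lit 344133) (nat_lit 26) (.e (nat_lit 557091) (nat_lit 12) (.e (nat_lit 164022) (nat_lit 46) (.e (nat_lit 704629) (nat_lit 9) (.e (nat_lit 389) (nat_lit 32) .nil)))))))) (.g (nat_lit 1) (.e (nat_lit 298608) (nat_lit 0) .nil) .nil))))) 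
(.nd (nat_lit 8) (.nd (nat_lit 9) 
(.lf (nat_lit 551114) (.g (nat_lit 2505) (.e (nat_lit 426107) (nat_lit 1) (.e (nat_lit 164322) (nat_lit 230) (.e (nat_lit 163867) (nat_lit 2) (.e (nat_lit 196656) (nat_lit 11) (.e (nat_lit 16465) (nat_lit 13) .nil))))) (.g (nat_lit 0) (.e (nat_lit 296855) (nat_lit 0) .nil) .nil))) 
(.lf (nat_lit 551626) (.g (nat_lit 2363) (.e (nat_lit 426120) (nat_lit 2) (.e (nat_lit 196666) (nat_lit 13) (.e (nat_lit 65617) (nat_lit 10) (.e (nat_lit 344133) (nat_lit 26) (.e (nat_lit 557091) (nat_lit 12) (.e (nat_lit 164022) (nat_lit 46) (.e (nat_lit 704627) (nat_lit 9) (.e (nat_lit 370) (nat_lit 32) .nil)))))))) (.g (nat_lit 1) (.e (nat_lit 298448) (nat_lit 0) .nil) .nil)))) 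
(.nd (nat_lit 9) 
(.lf (nat_lit 551370) (.g (nat_lit 921) (.e (nat_lit 426109) (nat_lit 1) (.e (nat_lit 164326) (nat_lit 230) (.e (nat_lit 163881) (nat_lit 4) (.e (nat_lit 213032) (nat_lit 11) (.e (nat_lit 24659) (nat_lit 13) .nil))))) (.g (nat_lit 0) (.e (nat_lit 297627) (nat_lit 0) .nil) .nil))) 
(.lf (nat_lit 551882) (.g (nat_lit 3038) (.e (nat_lit 426123) (nat_lit 2) (.e (nat_lit 196666) (nat_lit 13) (.e (nat_lit 65610) (nat_lit 10) (.e (nat_lit 344117) (nat_lit 21) (.e (nat_lit 516099) (nat_lit 0) .nil))))) (.g (nat_lit 0) (.e (nat_lit 298851) (nat_lit 0) .nil) .nil))))))) (.nd (nat_lit 6) (.nd (nat_lit 7) (.nd (nat_lit 8) (.nd (nat_lit 9) 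
(.lf (nat_lit 550954) (.g (nat_lit 2090) (.e (nat_lit 426105) (nat_lit 1) (.e (nat_lit 164179) (nat_lit 154) (.e (nat_lit 57411) (nat_lit 12) (.e (nat_lit 336324) (nat_lit 18) .nil)))) (.g (nat_lit 0) (.e (nat_lit 296571) (nat_lit 0) .nil) .nil))) 
(.lf (nat_lit 551466) (.g (nat_lit 2468) (.e (nat_lit 426112) (nat_lit 1) (.e (nat_lit 164327) (nat_lit 230) (.e (nat_lit 163871) (nat_lit 2) (.e (nat_lit 196656) (nat_lit 11) (.e (nat_lit 16466) (nat_lit 13) .nil))))) (.g (nat_lit 0) (.e (nat_lit 297996) (nat_lit 0) .nil) .nil)))) (.nd (nat_lit 9) 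
(.lf (nat_lit 551210) (.g (nat_lit 2911) (.e (nat_lit 426107) (nat_lit 1) (.e (nat_lit 164327) (nat_lit 230) (.e (nat_lit 163875) (nat_lit 3) (.e (nat_lit 204813) (nat_lit 9) (.e (nat_lit 426200) (nat_lit 9) (.e (nat_lit 426478) (nat_lit 27) (.e (nat_lit 336388) (nat_lit 27) .nil))))))) (.g (nat_lit 1) (.e (nat_lit 297191) (nat_lit 0) .nil) .nil))) 
(.lf (nat_lit 551722) (.g (nat_lit 2597) (.e (nat_lit 426121) (nat_lit 2) (.e (nat_lit 196666) (nat_lit 13) (.e (nat_lit 65617) (nat_lit 10) (.e (nat_lit 344132) (nat_lit 26) (.e (nat_lit 557094) (nat_lit 12) (.e (nat_lit 164022) (nat_lit 46) (.e (nat_lit 704628) (nat_lit 9) (.e (nat_lit 389) (nat_lit 32) .nil)))))))) (.g (nat_lit 1) (.e (nat_lit 298574) (nat_lit 0) .nil) .nil))))) 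
(.nd (nat_lit 8) (.nd (nat_lit 9) 
(.lf (nat_lit 551082) (.g (nat_lit 1294) (.e (nat_lit 426106) (nat_lit 1) (.e (nat_lit 164403) (nat_lit 256) (.e (nat_lit 57378) (nat_lit 3) (.e (nat_lit 98363) (nat_lit 26) .nil)))) (.g (nat_lit 0) (.e (nat_lit 296806) (nat_lit 0) .nil) .nil))) 
(.lf (nat_lit 551594) (.g (nat_lit 919) (.e (nat_lit 426118) (nat_lit 2) (.e (nat_lit 196681) (nat_lit 17) (.e (nat_lit 131109) (nat_lit 9) .nil))) (.g (nat_lit 0) (.e (nat_lit 298415) (nat_lit 0) .nil) .nil)))) (.nd (nat_lit 9) 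
(.lf (nat_lit 551338) (.g (nat_lit 1287) (.e (nat_lit 426108) (nat_lit 1) (.e (nat_lit 164402) (nat_lit 256) (.e (nat_lit 57406) (nat_lit 12) (.e (nat_lit 336444) (nat_lit 32) .nil)))) (.g (nat_lit 0) (.e (nat_lit 297520) (nat_lit 0) .nil) .nil))) 
(.lf (nat_lit 551850) (.g (nat_lit 2286) (.e (nat_lit 426122) (nat_lit 2) (.e (nat_lit 196666) (nat_lit 13) (.e (nat_lit 65623) (nat_lit 12) (.e (nat_lit 385068) (nat_lit 26) (.e (nat_lit 532515) (nat_lit 3) .nil))))) (.g (nat_lit 0) (.e (nat_lit 298744) (nat_lit 0) .nil) .nil)))))) (.nd (nat_lit 7) (.nd (nat_lit 8) (.nd (nat_lit 9) 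
(.lf (nat_lit 551018) (.g (nat_lit 1833) (.e (nat_lit 426105) (nat_lit 1) (.e (nat_lit 164403) (nat_lit 256) (.e (nat_lit 57406) (nat_lit 12) (.e (nat_lit 336443) (nat_lit 32) (.e (nat_lit 466979) (nat_lit 23) .nil))))) (.g (nat_lit 0) (.e (nat_lit 296691) (nat_lit 0) .nil) .nil))) 
(.lf (nat_lit 551530) (.g (nat_lit 3615) (.e (nat_lit 426113) (nat_lit 2) (.e (nat_lit 196666) (nat_lit 13) (.e (nat_lit 65617) (nat_lit 10) (.e (nat_lit 344133) (nat_lit 26) (.e (nat_lit 557091) (nat_lit 12) (.e (nat_lit 164016) (nat_lit 44) (.e (nat_lit 688138) (nat_lit 5) (.e (nat_lit 2887) (nat_lit 184) .nil)))))))) (.g (nat_lit 1) (.e (nat_lit 298121) (nat_lit 0) .nil) .nil)))) 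
(.nd (nat_lit 9) 
(.lf (nat_lit 551274) (.g (nat_lit 3898) (.e (nat_lit 426108) (nat_lit 1) (.e (nat_lit 164329) (nat_lit 230) (.e (nat_lit 163867) (nat_lit 2) (.e (nat_lit 196656) (nat_lit 11) (.e (nat_lit 16466) (nat_lit 13) (.e (nat_lit 483341) (nat_lit 9) .nil)))))) (.g (nat_lit 1) (.e (nat_lit 297363) (nat_lit 0) .nil) .nil))) 
(.lf (nat_lit 551786) (.g (nat_lit 2708) (.e (nat_lit 426122) (nat_lit 2) (.e (nat_lit 196666) (nat_lit 13) (.e (nat_lit 65617) (nat_lit 10) (.e (nat_lit 344130) (nat_lit 26) (.e (nat_lit 557090) (nat_lit 12) (.e (nat_lit 164022) (nat_lit 46) (.e (nat_lit 704627) (nat_lit 9) (.e (nat_lit 391) (nat_lit 32) .nil)))))))) (.g (nat_lit 1) (.e (nat_lit 298670) (nat_lit 0) .nil) .nil))))) 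
(.nd (nat_lit 8) (.nd (nat_lit 9) 
(.lf (nat_lit 551146) (.g (nat_lit 973) (.e (nat_lit 426107) (nat_lit 1) (.e (nat_lit 164325) (nat_lit 230) (.e (nat_lit 163875) (nat_lit 3) (.e (nat_lit 204805) (nat_lit 0) .nil)))) (.g (nat_lit 0) (.e (nat_lit 296954) (nat_lit 0) .nil) .nil))) 
(.lf (nat_lit 551658) (.g (nat_lit 3473) (.e (nat_lit 426121) (nat_lit 2) (.e (nat_lit 196666) (nat_lit 13) (.e (nat_lit 65617) (nat_lit 10) (.e (nat_lit 344130) (nat_lit 26) (.e (nat_lit 557090) (nat_lit 12) (.e (nat_lit 164022) (nat_lit 46) (.e (nat_lit 704627) (nat_lit 9) (.e (nat_lit 398) (nat_lit 32) .nil)))))))) (.g (nat_lit 1) (.e (nat_lit 298500) (nat_lit 0) .nil) .nil)))) 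
(.nd (nat_lit 9) 
(.lf (nat_lit 551402) (.g (nat_lit 1899) (.e (nat_lit 426109) (nat_lit 1) (.e (nat_lit 164347) (nat_lit 240) (.e (nat_lit 2638) (nat_lit 165) (.e (nat_lit 180278) (nat_lit 32) (.e (nat_lit 1661) (nat_lit 115) (.e (nat_lit 393277) (nat_lit 23) .nil)))))) (.g (nat_lit 1) (.e (nat_lit 297740) (nat_lit 0) .nil) .nil))) 
(.lf (nat_lit 551914) (.g (nat_lit 2824) (.e (nat_lit 426123) (nat_lit 2) (.e (nat_lit 196666) (nat_lit 13) (.e (nat_lit 65610) (nat_lit 10) (.e (nat_lit 344129) (nat_lit 26) (.e (nat_lit 557090) (nat_lit 12) (.e (nat_lit 163843) (nat_lit 0) (.e (nat_lit 6254) (nat_lit 337) (.e (nat_lit 2439) (nat_lit 157) (.e (nat_lit 2945) (nat_lit 184) .nil))))))))) (.g (nat_lit 1) (.e (nat_lit 299029) (nat_lit 0) .nil) .nil)))))))) 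
(.nd (nat_lit 5) (.nd (nat_lit 6) (.nd (nat_lit 7) (.nd (nat_lit 8) (.nd (nat_lit 9) 
(.lf (nat_lit 550938) (.g (nat_lit 1601) (.e (nat_lit 426103) (nat_lit 1) (.e (nat_lit 164348) (nat_lit 240) (.e (nat_lit 2638) (nat_lit 165) (.e (nat_lit 180277) (nat_lit 32) (.e (nat_lit 1658) (nat_lit 115) .nil))))) (.g (nat_lit 0) (.e (nat_lit 296494) (nat_lit 0) .nil) .nil))) 
(.lf (nat_lit 551450) (.g (nat_lit 2855) (.e (nat_lit 426110) (nat_lit 1) (.e (nat_lit 164348) (nat_lit 240) (.e (nat_lit 2638) (nat_lit 165) (.e (nat_lit 180278) (nat_lit 32) (.e (nat_lit 1659) (nat_lit 115) (.e (nat_lit 393279) (nat_lit 23) .nil)))))) (.g (nat_lit 1) (.e (nat_lit 297940) (nat_lit 0) .nil) .nil)))) (.nd (nat_lit 9) 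
(.lf (nat_lit 551194) (.g (nat_lit 3420) (.e (nat_lit 426107) (nat_lit 1) (.e (nat_lit 164327) (nat_lit 230) (.e (nat_lit 163873) (nat_lit 3) (.e (nat_lit 204813) (nat_lit 9) (.e (nat_lit 426197) (nat_lit 9) .nil))))) (.g (nat_lit 0) (.e (nat_lit 297157) (nat_lit 0) .nil) .nil))) 
(.lf (nat_lit 551706) (.g (nat_lit 2676) (.e (nat_lit 426121) (nat_lit 2) (.e (nat_lit 196666) (nat_lit 13) (.e (nat_lit 65617) (nat_lit 10) (.e (nat_lit 344132) (nat_lit 26) (.e (nat_lit 557093) (nat_lit 12) (.e (nat_lit 164023) (nat_lit 46) (.e (nat_lit 704628) (nat_lit 9) (.e (nat_lit 391) (nat_lit 32) .nil)))))))) (.g (nat_lit 1) (.e (nat_lit 298549) (nat_lit 0) .nil) .nil))))) 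
(.nd (nat_lit 8) (.nd (nat_lit 9) 
(.lf (nat_lit 551066) (.g (nat_lit 3223) (.e (nat_lit 426106) (nat_lit 1) (.e (nat_lit 164332) (nat_lit 230) (.e (nat_lit 163867) (nat_lit 2) (.e (nat_lit 196653) (nat_lit 11) (.e (nat_lit 16463) (nat_lit 13) .nil))))) (.g (nat_lit 0) (.e (nat_lit 296768) (nat_lit 0) .nil) .nil))) 
(.lf (nat_lit 551578) (.g (nat_lit 1704) (.e (nat_lit 426117) (nat_lit 2) (.e (nat_lit 196666) (nat_lit 13) (.e (nat_lit 65617) (nat_lit 10) (.e (nat_lit 344130) (nat_lit 26) .nil)))) (.g (nat_lit 0) (.e (nat_lit 298389) (nat_lit 0) .nil) .nil)))) (.nd (nat_lit 9) 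
(.lf (nat_lit 551322) (.g (nat_lit 2819) (.e (nat_lit 426108) (nat_lit 1) (.e (nat_lit 164332) (nat_lit 230) (.e (nat_lit 163869) (nat_lit 2) (.e (nat_lit 196656) (nat_lit 11) (.e (nat_lit 16466) (nat_lit 13) (.e (nat_lit 483336) (nat_lit 9) .nil)))))) (.g (nat_lit 1) (.e (nat_lit 297490) (nat_lit 0) .nil) .nil))) 
(.lf (nat_lit 551834) (.g (nat_lit 2242) (.e (nat_lit 426122) (nat_lit 2) (.e (nat_lit 196666) (nat_lit 13) (.e (nat_lit 65617) (nat_lit 10) (.e (nat_lit 344133) (nat_lit 26) (.e (nat_lit 557091) (nat_lit 12) (.e (nat_lit 164022) (nat_lit 46) (.e (nat_lit 704626) (nat_lit 9) (.e (nat_lit 398) (nat_lit 32) .nil)))))))) (.g (nat_lit 1) (.e (nat_lit 298723) (nat_lit 0) .nil) .nil)))))) 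
(.nd (nat_lit 7) (.nd (nat_lit 8) (.nd (nat_lit 9) 
(.lf (nat_lit 551002) (.g (nat_lit 2282) (.e (nat_lit 426105) (nat_lit 1) (.e (nat_lit 164332) (nat_lit 230) (.e (nat_lit 163880) (nat_lit 4) (.e (nat_lit 213030) (nat_lit 11) .nil)))) (.g (nat_lit 0) (.e (nat_lit 296675) (nat_lit 0) .nil) .nil))) 
(.lf (nat_lit 551514) (.g (nat_lit 2711) (.e (nat_lit 426113) (nat_lit 2) (.e (nat_lit 196666) (nat_lit 13) (.e (nat_lit 65610) (nat_lit 10) (.e (nat_lit 344117) (nat_lit 21) (.e (nat_lit 516115) (nat_lit 1) (.e (nat_lit 171776) (nat_lit 270) (.e (nat_lit 163910) (nat_lit 12) .nil))))))) (.g (nat_lit 1) (.e (nat_lit 298098) (nat_lit 0) .nil) .nil)))) (.nd (nat_lit 9) 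
(.lf (nat_lit 551258) (.g (nat_lit 1577) (.e (nat_lit 426108) (nat_lit 1) (.e (nat_lit 164182) (nat_lit 154) (.e (nat_lit 57409) (nat_lit 12) (.e (nat_lit 336325) (nat_lit 18) .nil)))) (.g (nat_lit 0) (.e (nat_lit 297327) (nat_lit 0) .nil) .nil))) 
(.lf (nat_lit 551770) (.g (nat_lit 825) (.e (nat_lit 426122) (nat_lit 2) (.e (nat_lit 196665) (nat_lit 13) (.e (nat_lit 65623) (nat_lit 12) (.e (nat_lit 385066) (nat_lit 26) .nil)))) (.g (nat_lit 0) (.e (nat_lit 298647) (nat_lit 0) .nil) .nil))))) (.nd (nat_lit 8) (.nd (nat_lit 9) 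
(.lf (nat_lit 551130) (.g (nat_lit 2377) (.e (nat_lit 426107) (nat_lit 1) (.e (nat_lit 164325) (nat_lit 230) (.e (nat_lit 163869) (nat_lit 2) (.e (nat_lit 196656) (nat_lit 11) (.e (nat_lit 16466) (nat_lit 13) .nil))))) (.g (nat_lit 0) (.e (nat_lit 296922) (nat_lit 0) .nil) .nil))) 
(.lf (nat_lit 551642) (.g (nat_lit 3920) (.e (nat_lit 426121) (nat_lit 2) (.e (nat_lit 196666) (nat_lit 13) (.e (nat_lit 65610) (nat_lit 10) (.e (nat_lit 344129) (nat_lit 26) (.e (nat_lit 557067) (nat_lit 9) (.e (nat_lit 2739) (nat_lit 174) (.e (nat_lit 253959) (nat_lit 9) (.e (nat_lit 396) (nat_lit 32) .nil)))))))) (.g (nat_lit 1) (.e (nat_lit 298484) (nat_lit 0) .nil) .nil)))) (.nd (nat_lit 9) 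
(.lf (nat_lit 551386) (.g (nat_lit 914) (.e (nat_lit 426109) (nat_lit 1) (.e (nat_lit 164345) (nat_lit 240) (.e (nat_lit 2638) (nat_lit 165) (.e (nat_lit 180277) (nat_lit 32) .nil)))) (.g (nat_lit 0) (.e (nat_lit 297677) (nat_lit 0) .nil) .nil))) 
(.lf (nat_lit 551898) (.g (nat_lit 3295) (.e (nat_lit 426123) (nat_lit 2) (.e (nat_lit 196666) (nat_lit 13) (.e (nat_lit 65610) (nat_lit 10) (.e (nat_lit 344129) (nat_lit 26) (.e (nat_lit 557069) (nat_lit 9) (.e (nat_lit 2739) (nat_lit 174) (.e (nat_lit 253959) (nat_lit 9) (.e (nat_lit 396) (nat_lit 32) .nil)))))))) (.g (nat_lit 1) (.e (nat_lit 298996) (nat_lit 0) .nil) .nil))))))) 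
(.nd (nat_lit 6) (.nd (nat_lit 7) (.nd (nat_lit 8) (.nd (nat_lit 9) 
(.lf (nat_lit 550970) (.g (nat_lit 1852) (.e (nat_lit 426105) (nat_lit 1) (.e (nat_lit 164325) (nat_lit 230) (.e (nat_lit 163873) (nat_lit 3) (.e (nat_lit 204813) (nat_lit 9) (.e (nat_lit 426200) (nat_lit 9) .nil))))) (.g (nat_lit 0) (.e (nat_lit 296599) (nat_lit 0) .nil) .nil))) 
(.lf (nat_lit 551482) (.g (nat_lit 333) (.e (nat_lit 433920) (nat_lit 1) (.e (nat_lit 164399) (nat_lit 256) (.e (nat_lit 57378) (nat_lit 3) .nil))) (.g (nat_lit 0) (.e (nat_lit 298058) (nat_lit 0) .nil) .nil)))) (.nd (nat_lit 9) 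
(.lf (nat_lit 551226) (.g (nat_lit 231) (.e (nat_lit 426107) (nat_lit 1) (.e (nat_lit 164402) (nat_lit 256) (.e (nat_lit 57371) (nat_lit 2) .nil))) (.g (nat_lit 0) (.e (nat_lit 297292) (nat_lit 0) .nil) .nil))) 
(.lf (nat_lit 551738) (.g (nat_lit 2317) (.e (nat_lit 426121) (nat_lit 2) (.e (nat_lit 196666) (nat_lit 13) (.e (nat_lit 65617) (nat_lit 10) (.e (nat_lit 344133) (nat_lit 26) (.e (nat_lit 557091) (nat_lit 12) .nil))))) (.g (nat_lit 0) (.e (nat_lit 298590) (nat_lit 0) .nil) .nil))))) (.nd (nat_lit 8) (.nd (nat_lit 9) 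
(.lf (nat_lit 551098) (.g (nat_lit 1657) (.e (nat_lit 426107) (nat_lit 1) (.e (nat_lit 164179) (nat_lit 154) (.e (nat_lit 57409) (nat_lit 12) (.e (nat_lit 336326) (nat_lit 18) (.e (nat_lit 204877) (nat_lit 31) .nil))))) (.g (nat_lit 0) (.e (nat_lit 296834) (nat_lit 0) .nil) .nil))) 
(.lf (nat_lit 551610) (.g (nat_lit 2482) (.e (nat_lit 426120) (nat_lit 2) (.e (nat_lit 196666) (nat_lit 13) (.e (nat_lit 65617) (nat_lit 10) (.e (nat_lit 344132) (nat_lit 26) (.e (nat_lit 557093) (nat_lit 12) .nil))))) (.g (nat_lit 0) (.e (nat_lit 298432) (nat_lit 0) .nil) .nil)))) (.nd (nat_lit 9) 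
(.lf (nat_lit 551354) (.g (nat_lit 2260) (.e (nat_lit 426108) (nat_lit 1) (.e (nat_lit 164403) (nat_lit 256) (.e (nat_lit 57378) (nat_lit 3) (.e (nat_lit 98359) (nat_lit 26) (.e (nat_lit 426330) (nat_lit 13) .nil))))) (.g (nat_lit 0) (.e (nat_lit 297539) (nat_lit 0) .nil) .nil))) 
(.lf (nat_lit 551866) (.g (nat_lit 2572) (.e (nat_lit 426122) (nat_lit 2) (.e (nat_lit 196681) (nat_lit 17) (.e (nat_lit 131123) (nat_lit 12) (.e (nat_lit 385068) (nat_lit 26) (.e (nat_lit 532513) (nat_lit 3) (.e (nat_lit 114698) (nat_lit 11) .nil)))))) (.g (nat_lit 1) (.e (nat_lit 298771) (nat_lit 0) .nil) .nil)))))) (.nd (nat_lit 7) (.nd (nat_lit 8) (.nd (nat_lit 9) 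
(.lf (nat_lit 551034) (.g (nat_lit 1603) (.e (nat_lit 426106) (nat_lit 1) (.e (nat_lit 164182) (nat_lit 154) (.e (nat_lit 57409) (nat_lit 12) (.e (nat_lit 336324) (nat_lit 18) .nil)))) (.g (nat_lit 0) (.e (nat_lit 296715) (nat_lit 0) .nil) .nil))) 
(.lf (nat_lit 551546) (.g (nat_lit 2709) (.e (nat_lit 426114) (nat_lit 2) (.e (nat_lit 196681) (nat_lit 17) (.e (nat_lit 131120) (nat_lit 12) (.e (nat_lit 385068) (nat_lit 26) (.e (nat_lit 532513) (nat_lit 3) (.e (nat_lit 114698) (nat_lit 11) .nil)))))) (.g (nat_lit 1) (.e (nat_lit 298216) (nat_lit 0) .nil) .nil)))) (.nd (nat_lit 9) 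
(.lf (nat_lit 551290) (.g (nat_lit 3007) (.e (nat_lit 426108) (nat_lit 1) (.e (nat_lit 164330) (nat_lit 230) (.e (nat_lit 163869) (nat_lit 2) (.e (nat_lit 196654) (nat_lit 11) (.e (nat_lit 16466) (nat_lit 13) (.e (nat_lit 483340) (nat_lit 9) .nil)))))) (.g (nat_lit 1) (.e (nat_lit 297394) (nat_lit 0) .nil) .nil))) 
(.lf (nat_lit 551802) (.g (nat_lit 2441) (.e (nat_lit 426122) (nat_lit 2) (.e (nat_lit 196666) (nat_lit 13) (.e (nat_lit 65617) (nat_lit 10) (.e (nat_lit 344132) (nat_lit 26) (.e (nat_lit 557093) (nat_lit 12) (.e (nat_lit 164022) (nat_lit 46) (.e (nat_lit 704626) (nat_lit 9) (.e (nat_lit 416) (nat_lit 32) .nil)))))))) (.g (nat_lit 1) (.e (nat_lit 298686) (nat_lit 0) .nil) .nil))))) 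
(.nd (nat_lit 8) (.nd (nat_lit 9) 
(.lf (nat_lit 551162) (.g (nat_lit 373) (.e (nat_lit 426107) (nat_lit 1) (.e (nat_lit 164326) (nat_lit 230) (.e (nat_lit 163870) (nat_lit 2) .nil))) (.g (nat_lit 0) (.e (nat_lit 297019) (nat_lit 0) .nil) .nil))) 
(.lf (nat_lit 551674) (.g (nat_lit 3280) (.e (nat_lit 426121) (nat_lit 2) (.e (nat_lit 196666) (nat_lit 13) (.e (nat_lit 65617) (nat_lit 10) (.e (nat_lit 344130) (nat_lit 26) (.e (nat_lit 557090) (nat_lit 12) (.e (nat_lit 171776) (nat_lit 49) (.e (nat_lit 729096) (nat_lit 11) .nil))))))) (.g (nat_lit 1) (.e (nat_lit 298516) (nat_lit 0) .nil) .nil)))) (.nd (nat_lit 9) 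
(.lf (nat_lit 551418) (.g (nat_lit 3030) (.e (nat_lit 426110) (nat_lit 1) (.e (nat_lit 164327) (nat_lit 230) (.e (nat_lit 163868) (nat_lit 2) (.e (nat_lit 196654) (nat_lit 11) (.e (nat_lit 16466) (nat_lit 13) (.e (nat_lit 483339) (nat_lit 9) .nil)))))) (.g (nat_lit 1) (.e (nat_lit 297822) (nat_lit 0) .nil) .nil))) 
(.lf (nat_lit 551930) (.g (nat_lit 2603) (.e (nat_lit 426123) (nat_lit 2) (.e (nat_lit 196666) (nat_lit 13) (.e (nat_lit 65610) (nat_lit 10) (.e (nat_lit 344129) (nat_lit 26) (.e (nat_lit 557090) (nat_lit 12) (.e (nat_lit 163852) (nat_lit 0) (.e (nat_lit 6427) (nat_lit 342) (.e (nat_lit 229406) (nat_lit 12) .nil)))))))) (.g (nat_lit 1) (.e (nat_lit 299055) (nat_lit 0) .nil) .nil)))))))))) 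
(.nd (nat_lit 3) (.nd (nat_lit 4) (.nd (nat_lit 5) (.nd (nat_lit 6) (.nd (nat_lit 7) 
(.nd (nat_lit 8) (.nd (nat_lit 9) 
(.lf (nat_lit 550918) (.g (nat_lit 1862) (.e (nat_lit 426100) (nat_lit 1) (.e (nat_lit 164403) (nat_lit 256) (.e (nat_lit 57373) (nat_lit 2) (.e (nat_lit 90167) (nat_lit 13) .nil)))) (.g (nat_lit 0) (.e (nat_lit 296456) (nat_lit 0) .nil) .nil))) 
(.lf (nat_lit 551430) (.g (nat_lit 3088) (.e (nat_lit 426110) (nat_lit 1) (.e (nat_lit 164327) (nat_lit 230) (.e (nat_lit 163871) (nat_lit 2) (.e (nat_lit 196654) (nat_lit 11) (.e (nat_lit 16463) (nat_lit 13) (.e (nat_lit 491264) (nat_lit 9) .nil)))))) (.g (nat_lit 1) (.e (nat_lit 297852) (nat_lit 0) .nil) .nil)))) (.nd (nat_lit 9) 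
(.lf (nat_lit 551174) (.g (nat_lit 4628) (.e (nat_lit 426107) (nat_lit 1) (.e (nat_lit 164326) (nat_lit 230) (.e (nat_lit 163873) (nat_lit 3) (.e (nat_lit 204813) (nat_lit 9) (.e (nat_lit 426204) (nat_lit 9) (.e (nat_lit 426528) (nat_lit 27) (.e (nat_lit 336387) (nat_lit 27) .nil))))))) (.g (nat_lit 1) (.e (nat_lit 297102) (nat_lit 0) .nil) .nil))) 
(.lf (nat_lit 551686) (.g (nat_lit 2932) (.e (nat_lit 426121) (nat_lit 2) (.e (nat_lit 196666) (nat_lit 13) (.e (nat_lit 65617) (nat_lit 10) (.e (nat_lit 344132) (nat_lit 26) (.e (nat_lit 557093) (nat_lit 12) (.e (nat_lit 164022) (nat_lit 46) (.e (nat_lit 704627) (nat_lit 9) (.e (nat_lit 435) (nat_lit 32) .nil)))))))) (.g (nat_lit 1) (.e (nat_lit 298528) (nat_lit 0) .nil) .nil))))) 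
(.nd (nat_lit 8) (.nd (nat_lit 9) 
(.lf (nat_lit 551046) (.g (nat_lit 1975) (.e (nat_lit 426106) (nat_lit 1) (.e (nat_lit 164325) (nat_lit 230) (.e (nat_lit 163867) (nat_lit 2) (.e (nat_lit 196654) (nat_lit 11) (.e (nat_lit 16463) (nat_lit 13) .nil))))) (.g (nat_lit 0) (.e (nat_lit 296732) (nat_lit 0) .nil) .nil))) 
(.lf (nat_lit 551558) (.g (nat_lit 393) (.e (nat_lit 426115) (nat_lit 2) (.e (nat_lit 196681) (nat_lit 17) (.e (nat_lit 131105) (nat_lit 9) .nil))) (.g (nat_lit 0) (.e (nat_lit 298265) (nat_lit 0) .nil) .nil)))) (.nd (nat_lit 9) 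
(.lf (nat_lit 551302) (.g (nat_lit 3180) (.e (nat_lit 426108) (nat_lit 1) (.e (nat_lit 164330) (nat_lit 230) (.e (nat_lit 163873) (nat_lit 3) (.e (nat_lit 204813) (nat_lit 9) (.e (nat_lit 426200) (nat_lit 9) (.e (nat_lit 426478) (nat_lit 27) (.e (nat_lit 336388) (nat_lit 27) .nil))))))) (.g (nat_lit 1) (.e (nat_lit 297411) (nat_lit 0) .nil) .nil))) 
(.lf (nat_lit 551814) (.g (nat_lit 2487) (.e (nat_lit 426122) (nat_lit 2) (.e (nat_lit 196666) (nat_lit 13) (.e (nat_lit 65617) (nat_lit 10) (.e (nat_lit 344132) (nat_lit 26) (.e (nat_lit 557093) (nat_lit 12) (.e (nat_lit 164023) (nat_lit 46) (.e (nat_lit 704626) (nat_lit 9) (.e (nat_lit 416) (nat_lit 32) .nil)))))))) (.g (nat_lit 1) (.e (nat_lit 298698) (nat_lit 0) .nil) .nil)))))) 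
(.nd (nat_lit 7) (.nd (nat_lit 8) (.nd (nat_lit 9) 
(.lf (nat_lit 550982) (.g (nat_lit 1967) (.e (nat_lit 426105) (nat_lit 1) (.e (nat_lit 164327) (nat_lit 230) (.e (nat_lit 163873) (nat_lit 3) (.e (nat_lit 204813) (nat_lit 9) (.e (nat_lit 426200) (nat_lit 9) .nil))))) (.g (nat_lit 0) (.e (nat_lit 296624) (nat_lit 0) .nil) .nil))) 
(.lf (nat_lit 551494) (.g (nat_lit 1066) (.e (nat_lit 433920) (nat_lit 1) (.e (nat_lit 164399) (nat_lit 256) (.e (nat_lit 57407) (nat_lit 12) (.e (nat_lit 336443) (nat_lit 32) .nil)))) (.g (nat_lit 0) (.e (nat_lit 298070) (nat_lit 0) .nil) .nil)))) (.nd (nat_lit 9) 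
(.lf (nat_lit 551238) (.g (nat_lit 377) (.e (nat_lit 426107) (nat_lit 1) (.e (nat_lit 164403) (nat_lit 256) (.e (nat_lit 57377) (nat_lit 3) .nil))) (.g (nat_lit 0) (.e (nat_lit 297307) (nat_lit 0) .nil) .nil))) 
(.lf (nat_lit 551750) (.g (nat_lit 3792) (.e (nat_lit 426121) (nat_lit 2) (.e (nat_lit 196666) (nat_lit 13) (.e (nat_lit 65617) (nat_lit 10) (.e (nat_lit 344133) (nat_lit 26) (.e (nat_lit 557091) (nat_lit 12) (.e (nat_lit 164022) (nat_lit 46) (.e (nat_lit 704628) (nat_lit 9) (.e (nat_lit 436) (nat_lit 32) .nil)))))))) (.g (nat_lit 1) (.e (nat_lit 298604) (nat_lit 0) .nil) .nil))))) 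
(.nd (nat_lit 8) (.nd (nat_lit 9) 
(.lf (nat_lit 551110) (.g (nat_lit 1152) (.e (nat_lit 426107) (nat_lit 1) (.e (nat_lit 164183) (nat_lit 154) (.e (nat_lit 57411) (nat_lit 12) (.e (nat_lit 336324) (nat_lit 18) .nil)))) (.g (nat_lit 0) (.e (nat_lit 296850) (nat_lit 0) .nil) .nil))) 
(.lf (nat_lit 551622) (.g (nat_lit 2341) (.e (nat_lit 426120) (nat_lit 2) (.e (nat_lit 196666) (nat_lit 13) (.e (nat_lit 65617) (nat_lit 10) (.e (nat_lit 344133) (nat_lit 26) (.e (nat_lit 557091) (nat_lit 12) .nil))))) (.g (nat_lit 0) (.e (nat_lit 298444) (nat_lit 0) .nil) .nil)))) (.nd (nat_lit 9) 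
(.lf (nat_lit 551366) (.g (nat_lit 2091) (.e (nat_lit 426109) (nat_lit 1) (.e (nat_lit 164322) (nat_lit 230) (.e (nat_lit 163867) (nat_lit 2) (.e (nat_lit 196656) (nat_lit 11) (.e (nat_lit 16436) (nat_lit 9) .nil))))) (.g (nat_lit 0) (.e (nat_lit 297610) (nat_lit 0) .nil) .nil))) 
(.lf (nat_lit 551878) (.g (nat_lit 3603) (.e (nat_lit 426123) (nat_lit 2) (.e (nat_lit 196666) (nat_lit 13) (.e (nat_lit 65610) (nat_lit 10) (.e (nat_lit 344088) (nat_lit 18) (.e (nat_lit 4011) (nat_lit 243) (.e (nat_lit 171776) (nat_lit 66) (.e (nat_lit 114698) (nat_lit 11) .nil))))))) (.g (nat_lit 1) (.e (nat_lit 298809) (nat_lit 0) .nil) .nil))))))) 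
(.nd (nat_lit 6) (.nd (nat_lit 7) (.nd (nat_lit 8) (.nd (nat_lit 9) 
(.lf (nat_lit 550950) (.g (nat_lit 2166) (.e (nat_lit 426105) (nat_lit 1) (.e (nat_lit 164179) (nat_lit 154) (.e (nat_lit 57407) (nat_lit 12) (.e (nat_lit 336316) (nat_lit 17) (.e (nat_lit 196672) (nat_lit 15) .nil))))) (.g (nat_lit 0) (.e (nat_lit 296565) (nat_lit 0) .nil) .nil))) 
(.lf (nat_lit 551462) (.g (nat_lit 2673) (.e (nat_lit 426112) (nat_lit 1) (.e (nat_lit 164327) (nat_lit 230) (.e (nat_lit 163868) (nat_lit 2) (.e (nat_lit 196656) (nat_lit 11) (.e (nat_lit 16463) (nat_lit 13) (.e (nat_lit 491264) (nat_lit 9) .nil)))))) (.g (nat_lit 1) (.e (nat_lit 297986) (nat_lit 0) .nil) .nil)))) (.nd (nat_lit 9) 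
(.lf (nat_lit 551206) (.g (nat_lit 1535) (.e (nat_lit 426107) (nat_lit 1) (.e (nat_lit 164327) (nat_lit 230) (.e (nat_lit 163875) (nat_lit 3) (.e (nat_lit 204809) (nat_lit 9) .nil)))) (.g (nat_lit 0) (.e (nat_lit 297184) (nat_lit 0) .nil) .nil))) 
(.lf (nat_lit 551718) (.g (nat_lit 2945) (.e (nat_lit 426121) (nat_lit 2) (.e (nat_lit 196666) (nat_lit 13) (.e (nat_lit 65617) (nat_lit 10) (.e (nat_lit 344132) (nat_lit 26) (.e (nat_lit 557094) (nat_lit 12) (.e (nat_lit 164022) (nat_lit 46) (.e (nat_lit 704627) (nat_lit 9) (.e (nat_lit 398) (nat_lit 32) .nil)))))))) (.g (nat_lit 1) (.e (nat_lit 298570) (nat_lit 0) .nil) .nil))))) 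
(.nd (nat_lit 8) (.nd (nat_lit 9) 
(.lf (nat_lit 551078) (.g (nat_lit 1452) (.e (nat_lit 426106) (nat_lit 1) (.e (nat_lit 164403) (nat_lit 256) (.e (nat_lit 57371) (nat_lit 2) (.e (nat_lit 90186) (nat_lit 17) .nil)))) (.g (nat_lit 0) (.e (nat_lit 296802) (nat_lit 0) .nil) .nil))) 
(.lf (nat_lit 551590) (.g (nat_lit 2805) (.e (nat_lit 426118) (nat_lit 2) (.e (nat_lit 196666) (nat_lit 13) (.e (nat_lit 65610) (nat_lit 10) (.e (nat_lit 344129) (nat_lit 26) .nil)))) (.g (nat_lit 0) (.e (nat_lit 298407) (nat_lit 0) .nil) .nil)))) (.nd (nat_lit 9) 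
(.lf (nat_lit 551334) (.g (nat_lit 777) (.e (nat_lit 426108) (nat_lit 1) (.e (nat_lit 164401) (nat_lit 256) (.e (nat_lit 57409) (nat_lit 12) (.e (nat_lit 336443) (nat_lit 32) .nil)))) (.g (nat_lit 0) (.e (nat_lit 297516) (nat_lit 0) .nil) .nil))) 
(.lf (nat_lit 551846) (.g (nat_lit 3935) (.e (nat_lit 426122) (nat_lit 2) (.e (nat_lit 196666) (nat_lit 13) (.e (nat_lit 65617) (nat_lit 10) (.e (nat_lit 344133) (nat_lit 26) (.e (nat_lit 557091) (nat_lit 12) (.e (nat_lit 164022) (nat_lit 46) (.e (nat_lit 704629) (nat_lit 9) (.e (nat_lit 416) (nat_lit 32) .nil)))))))) (.g (nat_lit 1) (.e (nat_lit 298735) (nat_lit 0) .nil) .nil)))))) 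
(.nd (nat_lit 7) (.nd (nat_lit 8) (.nd (nat_lit 9) 
(.lf (nat_lit 551014) (.g (nat_lit 1452) (.e (nat_lit 426105) (nat_lit 1) (.e (nat_lit 164403) (nat_lit 256) (.e (nat_lit 57378) (nat_lit 3) (.e (nat_lit 98356) (nat_lit 26) .nil)))) (.g (nat_lit 0) (.e (nat_lit 296687) (nat_lit 0) .nil) .nil))) 
(.lf (nat_lit 551526) (.g (nat_lit 2299) (.e (nat_lit 426113) (nat_lit 2) (.e (nat_lit 196666) (nat_lit 13) (.e (nat_lit 65617) (nat_lit 10) (.e (nat_lit 344132) (nat_lit 26) (.e (nat_lit 557093) (nat_lit 12) .nil))))) (.g (nat_lit 0) (.e (nat_lit 298116) (nat_lit 0) .nil) .nil)))) (.nd (nat_lit 9) 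
(.lf (nat_lit 551270) (.g (nat_lit 2453) (.e (nat_lit 426108) (nat_lit 1) (.e (nat_lit 164329) (nat_lit 230) (.e (nat_lit 163867) (nat_lit 2) (.e (nat_lit 196656) (nat_lit 11) (.e (nat_lit 16439) (nat_lit 9) .nil))))) (.g (nat_lit 0) (.e (nat_lit 297358) (nat_lit 0) .nil) .nil))) 
(.lf (nat_lit 551782) (.g (nat_lit 1998) (.e (nat_lit 426122) (nat_lit 2) (.e (nat_lit 196666) (nat_lit 13) (.e (nat_lit 65617) (nat_lit 10) (.e (nat_lit 344130) (nat_lit 26) (.e (nat_lit 557090) (nat_lit 12) (.e (nat_lit 164022) (nat_lit 46) (.e (nat_lit 704626) (nat_lit 9) (.e (nat_lit 399) (nat_lit 32) .nil)))))))) (.g (nat_lit 1) (.e (nat_lit 298666) (nat_lit 0) .nil) .nil))))) 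
(.nd (nat_lit 8) (.nd (nat_lit 9) 
(.lf (nat_lit 551142) (.g (nat_lit 2796) (.e (nat_lit 426107) (nat_lit 1) (.e (nat_lit 164325) (nat_lit 230) (.e (nat_lit 163873) (nat_lit 3) (.e (nat_lit 204813) (nat_lit 9) (.e (nat_lit 426200) (nat_lit 9) (.e (nat_lit 426481) (nat_lit 27) (.e (nat_lit 336388) (nat_lit 27) .nil))))))) (.g (nat_lit 1) (.e (nat_lit 296942) (nat_lit 0) .nil) .nil))) 
(.lf (nat_lit 551654) (.g (nat_lit 2923) (.e (nat_lit 426121) (nat_lit 2) (.e (nat_lit 196666) (nat_lit 13) (.e (nat_lit 65617) (nat_lit 10) (.e (nat_lit 344130) (nat_lit 26) (.e (nat_lit 557090) (nat_lit 12) (.e (nat_lit 164022) (nat_lit 46) (.e (nat_lit 704626) (nat_lit 9) (.e (nat_lit 436) (nat_lit 32) .nil)))))))) (.g (nat_lit 1) (.e (nat_lit 298496) (nat_lit 0) .nil) .nil)))) 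
(.nd (nat_lit 9) 
(.lf (nat_lit 551398) (.g (nat_lit 2070) (.e (nat_lit 426109) (nat_lit 1) (.e (nat_lit 164347) (nat_lit 240) (.e (nat_lit 2638) (nat_lit 165) (.e (nat_lit 180278) (nat_lit 32) (.e (nat_lit 1659) (nat_lit 115) (.e (nat_lit 393277) (nat_lit 23) .nil)))))) (.g (nat_lit 1) (.e (nat_lit 297736) (nat_lit 0) .nil) .nil))) 
(.lf (nat_lit 551910) (.g (nat_lit 2055) (.e (nat_lit 426123) (nat_lit 2) (.e (nat_lit 196666) (nat_lit 13) (.e (nat_lit 65610) (nat_lit 10) (.e (nat_lit 344129) (nat_lit 26) (.e (nat_lit 557090) (nat_lit 12) .nil))))) (.g (nat_lit 0) (.e (nat_lit 299021) (nat_lit 0) .nil) .nil)))))))) (.nd (nat_lit 5) (.nd (nat_lit 6) (.nd (nat_lit 7) (.nd (nat_lit 8) (.nd (nat_lit 9) 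
(.lf (nat_lit 550934) (.g (nat_lit 1190) (.e (nat_lit 426103) (nat_lit 1) (.e (nat_lit 164326) (nat_lit 230) (.e (nat_lit 163882) (nat_lit 4) (.e (nat_lit 213032) (nat_lit 11) (.e (nat_lit 24660) (nat_lit 13) .nil))))) (.g (nat_lit 0) (.e (nat_lit 296482) (nat_lit 0) .nil) .nil))) 
(.lf (nat_lit 551446) (.g (nat_lit 1374) (.e (nat_lit 426110) (nat_lit 1) (.e (nat_lit 164348) (nat_lit 240) (.e (nat_lit 2610) (nat_lit 163) (.e (nat_lit 163977) (nat_lit 30) .nil)))) (.g (nat_lit 0) (.e (nat_lit 297925) (nat_lit 0) .nil) .nil)))) (.nd (nat_lit 9) 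
(.lf (nat_lit 551190) (.g (nat_lit 3402) (.e (nat_lit 426107) (nat_lit 1) (.e (nat_lit 164327) (nat_lit 230) (.e (nat_lit 163871) (nat_lit 2) (.e (nat_lit 196656) (nat_lit 11) (.e (nat_lit 16438) (nat_lit 9) (.e (nat_lit 426482) (nat_lit 27) (.e (nat_lit 336385) (nat_lit 27) .nil))))))) (.g (nat_lit 1) (.e (nat_lit 297150) (nat_lit 0) .nil) .nil))) 
(.lf (nat_lit 551702) (.g (nat_lit 3475) (.e (nat_lit 426121) (nat_lit 2) (.e (nat_lit 196666) (nat_lit 13) (.e (nat_lit 65617) (nat_lit 10) (.e (nat_lit 344132) (nat_lit 26) (.e (nat_lit 557093) (nat_lit 12) (.e (nat_lit 164023) (nat_lit 46) (.e (nat_lit 704626) (nat_lit 9) (.e (nat_lit 398) (nat_lit 32) .nil)))))))) (.g (nat_lit 1) (.e (nat_lit 298545) (nat_lit 0) .nil) .nil))))) 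
(.nd (nat_lit 8) (.nd (nat_lit 9) 
(.lf (nat_lit 551062) (.g (nat_lit 1250) (.e (nat_lit 426106) (nat_lit 1) (.e (nat_lit 164329) (nat_lit 230) (.e (nat_lit 163867) (nat_lit 2) (.e (nat_lit 196655) (nat_lit 11) .nil)))) (.g (nat_lit 0) (.e (nat_lit 296762) (nat_lit 0) .nil) .nil))) 
(.lf (nat_lit 551574) (.g (nat_lit 356) (.e (nat_lit 426116) (nat_lit 2) (.e (nat_lit 196681) (nat_lit 17) (.e (nat_lit 131109) (nat_lit 9) .nil))) (.g (nat_lit 0) (.e (nat_lit 298378) (nat_lit 0) .nil) .nil)))) (.nd (nat_lit 9) 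
(.lf (nat_lit 551318) (.g (nat_lit 2737) (.e (nat_lit 426108) (nat_lit 1) (.e (nat_lit 164332) (nat_lit 230) (.e (nat_lit 163869) (nat_lit 2) (.e (nat_lit 196656) (nat_lit 11) (.e (nat_lit 16436) (nat_lit 9) (.e (nat_lit 426478) (nat_lit 27) (.e (nat_lit 336388) (nat_lit 27) .nil))))))) (.g (nat_lit 1) (.e (nat_lit 297486) (nat_lit 0) .nil) .nil))) 
(.lf (nat_lit 551830) (.g (nat_lit 2178) (.e (nat_lit 426122) (nat_lit 2) (.e (nat_lit 196666) (nat_lit 13) (.e (nat_lit 65617) (nat_lit 10) (.e (nat_lit 344133) (nat_lit 26) (.e (nat_lit 557089) (nat_lit 12) (.e (nat_lit 171776) (nat_lit 48) (.e (nat_lit 720908) (nat_lit 11) .nil))))))) (.g (nat_lit 1) (.e (nat_lit 298719) (nat_lit 0) .nil) .nil)))))) 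
(.nd (nat_lit 7) (.nd (nat_lit 8) (.nd (nat_lit 9) 
(.lf (nat_lit 550998) (.g (nat_lit 2705) (.e (nat_lit 426105) (nat_lit 1) (.e (nat_lit 164332) (nat_lit 230) (.e (nat_lit 163869) (nat_lit 2) (.e (nat_lit 196656) (nat_lit 11) (.e (nat_lit 16432) (nat_lit 9) .nil))))) (.g (nat_lit 0) (.e (nat_lit 296665) (nat_lit 0) .nil) .nil))) 
(.lf (nat_lit 551510) (.g (nat_lit 565) (.e (nat_lit 433920) (nat_lit 1) (.e (nat_lit 164403) (nat_lit 256) (.e (nat_lit 57408) (nat_lit 12) .nil))) (.g (nat_lit 0) (.e (nat_lit 298086) (nat_lit 0) .nil) .nil)))) (.nd (nat_lit 9) 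
(.lf (nat_lit 551254) (.g (nat_lit 1519) (.e (nat_lit 426107) (nat_lit 1) (.e (nat_lit 164403) (nat_lit 256) (.e (nat_lit 57445) (nat_lit 19) (.e (nat_lit 393280) (nat_lit 23) .nil)))) (.g (nat_lit 0) (.e (nat_lit 297323) (nat_lit 0) .nil) .nil))) 
(.lf (nat_lit 551766) (.g (nat_lit 428) (.e (nat_lit 426121) (nat_lit 2) (.e (nat_lit 196681) (nat_lit 17) (.e (nat_lit 131105) (nat_lit 9) .nil))) (.g (nat_lit 0) (.e (nat_lit 298632) (nat_lit 0) .nil) .nil))))) (.nd (nat_lit 8) (.nd (nat_lit 9) 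
(.lf (nat_lit 551126) (.g (nat_lit 2267) (.e (nat_lit 426107) (nat_lit 1) (.e (nat_lit 164325) (nat_lit 230) (.e (nat_lit 163868) (nat_lit 2) (.e (nat_lit 196656) (nat_lit 11) (.e (nat_lit 16466) (nat_lit 13) (.e (nat_lit 483340) (nat_lit 9) .nil)))))) (.g (nat_lit 1) (.e (nat_lit 296912) (nat_lit 0) .nil) .nil))) 
(.lf (nat_lit 551638) (.g (nat_lit 1116) (.e (nat_lit 426121) (nat_lit 2) (.e (nat_lit 196656) (nat_lit 11) (.e (nat_lit 16416) (nat_lit 3) .nil))) (.g (nat_lit 0) (.e (nat_lit 298477) (nat_lit 0) .nil) .nil)))) (.nd (nat_lit 9) 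
(.lf (nat_lit 551382) (.g (nat_lit 2367) (.e (nat_lit 426109) (nat_lit 1) (.e (nat_lit 164332) (nat_lit 230) (.e (nat_lit 163869) (nat_lit 2) (.e (nat_lit 196656) (nat_lit 11) .nil)))) (.g (nat_lit 0) (.e (nat_lit 297657) (nat_lit 0) .nil) .nil))) 
(.lf (nat_lit 551894) (.g (nat_lit 2627) (.e (nat_lit 426123) (nat_lit 2) (.e (nat_lit 196666) (nat_lit 13) (.e (nat_lit 65610) (nat_lit 10) (.e (nat_lit 344129) (nat_lit 26) (.e (nat_lit 557065) (nat_lit 9) (.e (nat_lit 2739) (nat_lit 174) (.e (nat_lit 253959) (nat_lit 9) (.e (nat_lit 396) (nat_lit 32) .nil)))))))) (.g (nat_lit 1) (.e (nat_lit 298966) (nat_lit 0) .nil) .nil))))))) 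
(.nd (nat_lit 6) (.nd (nat_lit 7) (.nd (nat_lit 8) (.nd (nat_lit 9) 
(.lf (nat_lit 550966) (.g (nat_lit 1038) (.e (nat_lit 426105) (nat_lit 1) (.e (nat_lit 164325) (nat_lit 230) (.e (nat_lit 163868) (nat_lit 2) (.e (nat_lit 196656) (nat_lit 11) .nil)))) (.g (nat_lit 0) (.e (nat_lit 296591) (nat_lit 0) .nil) .nil))) 
(.lf (nat_lit 551478) (.g (nat_lit 608) (.e (nat_lit 433920) (nat_lit 1) (.e (nat_lit 164348) (nat_lit 240) (.e (nat_lit 2640) (nat_lit 165) .nil))) (.g (nat_lit 0) (.e (nat_lit 298053) (nat_lit 0) .nil) .nil)))) (.nd (nat_lit 9) 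
(.lf (nat_lit 551222) (.g (nat_lit 2220) (.e (nat_lit 426107) (nat_lit 1) (.e (nat_lit 164347) (nat_lit 240) (.e (nat_lit 2638) (nat_lit 165) (.e (nat_lit 180278) (nat_lit 32) (.e (nat_lit 1659) (nat_lit 115) (.e (nat_lit 401152) (nat_lit 23) .nil)))))) (.g (nat_lit 1) (.e (nat_lit 297261) (nat_lit 0) .nil) .nil))) 
(.lf (nat_lit 551734) (.g (nat_lit 2597) (.e (nat_lit 426121) (nat_lit 2) (.e (nat_lit 196666) (nat_lit 13) (.e (nat_lit 65617) (nat_lit 10) (.e (nat_lit 344133) (nat_lit 26) (.e (nat_lit 557065) (nat_lit 9) (.e (nat_lit 2741) (nat_lit 174) (.e (nat_lit 253959) (nat_lit 9) (.e (nat_lit 396) (nat_lit 32) .nil)))))))) (.g (nat_lit 1) (.e (nat_lit 298586) (nat_lit 0) .nil) .nil))))) 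
(.nd (nat_lit 8) (.nd (nat_lit 9) 
(.lf (nat_lit 551094) (.g (nat_lit 1080) (.e (nat_lit 426107) (nat_lit 1) (.e (nat_lit 164179) (nat_lit 154) (.e (nat_lit 57406) (nat_lit 12) (.e (nat_lit 336320) (nat_lit 17) .nil)))) (.g (nat_lit 0) (.e (nat_lit 296827) (nat_lit 0) .nil) .nil))) 
(.lf (nat_lit 551606) (.g (nat_lit 2571) (.e (nat_lit 426120) (nat_lit 2) (.e (nat_lit 196666) (nat_lit 13) (.e (nat_lit 65617) (nat_lit 10) (.e (nat_lit 344130) (nat_lit 26) (.e (nat_lit 557090) (nat_lit 12) (.e (nat_lit 164022) (nat_lit 46) (.e (nat_lit 704628) (nat_lit 9) (.e (nat_lit 377) (nat_lit 32) .nil)))))))) (.g (nat_lit 1) (.e (nat_lit 298428) (nat_lit 0) .nil) .nil)))) 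
(.nd (nat_lit 9) 
(.lf (nat_lit 551350) (.g (nat_lit 1612) (.e (nat_lit 426108) (nat_lit 1) (.e (nat_lit 164403) (nat_lit 256) (.e (nat_lit 57377) (nat_lit 3) (.e (nat_lit 98362) (nat_lit 26) .nil)))) (.g (nat_lit 0) (.e (nat_lit 297535) (nat_lit 0) .nil) .nil))) 
(.lf (nat_lit 551862) (.g (nat_lit 2163) (.e (nat_lit 426122) (nat_lit 2) (.e (nat_lit 196681) (nat_lit 17) (.e (nat_lit 131120) (nat_lit 12) (.e (nat_lit 385068) (nat_lit 26) (.e (nat_lit 532515) (nat_lit 3) (.e (nat_lit 114698) (nat_lit 11) .nil)))))) (.g (nat_lit 1) (.e (nat_lit 298767) (nat_lit 0) .nil) .nil)))))) (.nd (nat_lit 7) (.nd (nat_lit 8) (.nd (nat_lit 9) 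
(.lf (nat_lit 551030) (.g (nat_lit 1963) (.e (nat_lit 426106) (nat_lit 1) (.e (nat_lit 164179) (nat_lit 154) (.e (nat_lit 57411) (nat_lit 12) (.e (nat_lit 336322) (nat_lit 18) .nil)))) (.g (nat_lit 0) (.e (nat_lit 296711) (nat_lit 0) .nil) .nil))) 
(.lf (nat_lit 551542) (.g (nat_lit 3215) (.e (nat_lit 426114) (nat_lit 2) (.e (nat_lit 196681) (nat_lit 17) (.e (nat_lit 131105) (nat_lit 9) (.e (nat_lit 336324) (nat_lit 18) (.e (nat_lit 204837) (nat_lit 20) (.e (nat_lit 114698) (nat_lit 11) .nil)))))) (.g (nat_lit 1) (.e (nat_lit 298208) (nat_lit 0) .nil) .nil)))) (.nd (nat_lit 9) 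
(.lf (nat_lit 551286) (.g (nat_lit 396) (.e (nat_lit 426108) (nat_lit 1) (.e (nat_lit 164330) (nat_lit 230) (.e (nat_lit 163869) (nat_lit 2) .nil))) (.g (nat_lit 0) (.e (nat_lit 297389) (nat_lit 0) .nil) .nil))) 
(.lf (nat_lit 551798) (.g (nat_lit 2829) (.e (nat_lit 426122) (nat_lit 2) (.e (nat_lit 196666) (nat_lit 13) (.e (nat_lit 65617) (nat_lit 10) (.e (nat_lit 344130) (nat_lit 26) (.e (nat_lit 557090) (nat_lit 12) (.e (nat_lit 171776) (nat_lit 49) (.e (nat_lit 729098) (nat_lit 11) .nil))))))) (.g (nat_lit 1) (.e (nat_lit 298682) (nat_lit 0) .nil) .nil))))) (.nd (nat_lit 8) (.nd (nat_lit 9) 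
(.lf (nat_lit 551158) (.g (nat_lit 2752) (.e (nat_lit 426107) (nat_lit 1) (.e (nat_lit 164326) (nat_lit 230) (.e (nat_lit 163868) (nat_lit 2) (.e (nat_lit 196656) (nat_lit 11) (.e (nat_lit 16439) (nat_lit 9) .nil))))) (.g (nat_lit 0) (.e (nat_lit 297015) (nat_lit 0) .nil) .nil))) 
(.lf (nat_lit 551670) (.g (nat_lit 2797) (.e (nat_lit 426121) (nat_lit 2) (.e (nat_lit 196666) (nat_lit 13) (.e (nat_lit 65617) (nat_lit 10) (.e (nat_lit 344130) (nat_lit 26) (.e (nat_lit 557090) (nat_lit 12) (.e (nat_lit 164022) (nat_lit 46) (.e (nat_lit 704629) (nat_lit 9) (.e (nat_lit 440) (nat_lit 32) .nil)))))))) (.g (nat_lit 1) (.e (nat_lit 298512) (nat_lit 0) .nil) .nil)))) 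
(.nd (nat_lit 9) 
(.lf (nat_lit 551414) (.g (nat_lit 2290) (.e (nat_lit 426110) (nat_lit 1) (.e (nat_lit 164327) (nat_lit 230) (.e (nat_lit 163868) (nat_lit 2) (.e (nat_lit 196654) (nat_lit 11) (.e (nat_lit 16436) (nat_lit 9) (.e (nat_lit 426486) (nat_lit 27) (.e (nat_lit 336411) (nat_lit 27) .nil))))))) (.g (nat_lit 1) (.e (nat_lit 297815) (nat_lit 0) .nil) .nil))) 
(.lf (nat_lit 551926) (.g (nat_lit 3025) (.e (nat_lit 426123) (nat_lit 2) (.e (nat_lit 196666) (nat_lit 13) (.e (nat_lit 65610) (nat_lit 10) (.e (nat_lit 344129) (nat_lit 26) (.e (nat_lit 557090) (nat_lit 12) (.e (nat_lit 163850) (nat_lit 0) (.e (nat_lit 6428) (nat_lit 342) (.e (nat_lit 229406) (nat_lit 12) .nil)))))))) (.g (nat_lit 1) (.e (nat_lit 299051) (nat_lit 0) .nil) .nil))))))))) 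
(.nd (nat_lit 4) (.nd (nat_lit 5) (.nd (nat_lit 6) (.nd (nat_lit 7) (.nd (nat_lit 8) 
(.nd (nat_lit 9) 
(.lf (nat_lit 550926) (.g (nat_lit 2504) (.e (nat_lit 426100) (nat_lit 1) (.e (nat_lit 164403) (nat_lit 256) (.e (nat_lit 57451) (nat_lit 20) (.e (nat_lit 401448) (nat_lit 10) (.e (nat_lit 434271) (nat_lit 38) (.e (nat_lit 655382) (nat_lit 8) (.e (nat_lit 237612) (nat_lit 9) .nil))))))) (.g (nat_lit 1) (.e (nat_lit 296464) (nat_lit 0) .nil) .nil))) 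
(.lf (nat_lit 551438) (.g (nat_lit 3560) (.e (nat_lit 426110) (nat_lit 1) (.e (nat_lit 164327) (nat_lit 230) (.e (nat_lit 163871) (nat_lit 2) (.e (nat_lit 196656) (nat_lit 11) (.e (nat_lit 16465) (nat_lit 13) (.e (nat_lit 491264) (nat_lit 9) .nil)))))) (.g (nat_lit 1) (.e (nat_lit 297872) (nat_lit 0) .nil) .nil)))) (.nd (nat_lit 9) 
(.lf (nat_lit 551182) (.g (nat_lit 3984) (.e (nat_lit 426107) (nat_lit 1) (.e (nat_lit 164327) (nat_lit 230) (.e (nat_lit 163868) (nat_lit 2) (.e (nat_lit 196656) (nat_lit 11) (.e (nat_lit 16465) (nat_lit 13) (.e (nat_lit 483341) (nat_lit 9) .nil)))))) (.g (nat_lit 1) (.e (nat_lit 297133) (nat_lit 0) .nil) .nil))) 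
(.lf (nat_lit 551694) (.g (nat_lit 3934) (.e (nat_lit 426121) (nat_lit 2) (.e (nat_lit 196666) (nat_lit 13) (.e (nat_lit 65617) (nat_lit 10) (.e (nat_lit 344132) (nat_lit 26) (.e (nat_lit 557093) (nat_lit 12) (.e (nat_lit 164022) (nat_lit 46) (.e (nat_lit 704629) (nat_lit 9) (.e (nat_lit 398) (nat_lit 32) .nil)))))))) (.g (nat_lit 1) (.e (nat_lit 298536) (nat_lit 0) .nil) .nil))))) 
(.nd (nat_lit 8) (.nd (nat_lit 9) 
(.lf (nat_lit 551054) (.g (nat_lit 2902) (.e (nat_lit 426106) (nat_lit 1) (.e (nat_lit 164326) (nat_lit 230) (.e (nat_lit 163871) (nat_lit 2) (.e (nat_lit 196654) (nat_lit 11) (.e (nat_lit 16466) (nat_lit 13) (.e (nat_lit 483341) (nat_lit 9) .nil)))))) (.g (nat_lit 1) (.e (nat_lit 296750) (nat_lit 0) .nil) .nil))) 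
(.lf (nat_lit 551566) (.g (nat_lit 914) (.e (nat_lit 426116) (nat_lit 2) (.e (nat_lit 196656) (nat_lit 11) (.e (nat_lit 16401) (nat_lit 0) .nil))) (.g (nat_lit 0) (.e (nat_lit 298311) (nat_lit 0) .nil) .nil)))) (.nd (nat_lit 9) 
(.lf (nat_lit 551310) (.g (nat_lit 2283) (.e (nat_lit 426108) (nat_lit 1) (.e (nat_lit 164330) (nat_lit 230) (.e (nat_lit 163880) (nat_lit 4) (.e (nat_lit 213032) (nat_lit 11) (.e (nat_lit 24656) (nat_lit 13) (.e (nat_lit 393281) (nat_lit 23) .nil)))))) (.g (nat_lit 1) (.e (nat_lit 297423) (nat_lit 0) .nil) .nil))) 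
(.lf (nat_lit 551822) (.g (nat_lit 2422) (.e (nat_lit 426122) (nat_lit 2) (.e (nat_lit 196666) (nat_lit 13) (.e (nat_lit 65617) (nat_lit 10) (.e (nat_lit 344132) (nat_lit 26) (.e (nat_lit 557094) (nat_lit 12) (.e (nat_lit 164022) (nat_lit 46) (.e (nat_lit 704627) (nat_lit 9) (.e (nat_lit 416) (nat_lit 32) .nil)))))))) (.g (nat_lit 1) (.e (nat_lit 298711) (nat_lit 0) .nil) .nil)))))) 
(.nd (nat_lit 7) (.nd (nat_lit 8) (.nd (nat_lit 9) 
(.lf (nat_lit 550990) (.g (nat_lit 2348) (.e (nat_lit 426105) (nat_lit 1) (.e (nat_lit 164332) (nat_lit 230) (.e (nat_lit 163867) (nat_lit 2) (.e (nat_lit 196656) (nat_lit 11) (.e (nat_lit 16466) (nat_lit 13) (.e (nat_lit 483341) (nat_lit 9) .nil)))))) (.g (nat_lit 1) (.e (nat_lit 296652) (nat_lit 0) .nil) .nil))) 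
(.lf (nat_lit 551502) (.g (nat_lit 1740) (.e (nat_lit 433920) (nat_lit 1) (.e (nat_lit 164399) (nat_lit 256) (.e (nat_lit 57411) (nat_lit 12) (.e (nat_lit 336434) (nat_lit 30) (.e (nat_lit 450579) (nat_lit 5) .nil))))) (.g (nat_lit 0) (.e (nat_lit 298078) (nat_lit 0) .nil) .nil)))) (.nd (nat_lit 9) 
(.lf (nat_lit 551246) (.g (nat_lit 3276) (.e (nat_lit 426107) (nat_lit 1) (.e (nat_lit 164403) (nat_lit 256) (.e (nat_lit 57378) (nat_lit 3) (.e (nat_lit 98363) (nat_lit 26) (.e (nat_lit 426321) (nat_lit 13) (.e (nat_lit 483337) (nat_lit 9) .nil)))))) (.g (nat_lit 1) (.e (nat_lit 297315) (nat_lit 0) .nil) .nil))) 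
(.lf (nat_lit 551758) (.g (nat_lit 4994) (.e (nat_lit 426121) (nat_lit 2) (.e (nat_lit 196666) (nat_lit 13) (.e (nat_lit 65617) (nat_lit 10) (.e (nat_lit 344133) (nat_lit 26) (.e (nat_lit 557091) (nat_lit 12) (.e (nat_lit 164022) (nat_lit 46) (.e (nat_lit 704629) (nat_lit 9) (.e (nat_lit 416) (nat_lit 32) .nil)))))))) (.g (nat_lit 1) (.e (nat_lit 298612) (nat_lit 0) .nil) .nil))))) 
(.nd (nat_lit 8) (.nd (nat_lit 9) 
(.lf (nat_lit 551118) (.g (nat_lit 3116) (.e (nat_lit 426107) (nat_lit 1) (.e (nat_lit 164324) (nat_lit 230) (.e (nat_lit 163867) (nat_lit 2) (.e (nat_lit 196656) (nat_lit 11) (.e (nat_lit 16465) (nat_lit 13) .nil))))) (.g (nat_lit 0) (.e (nat_lit 296864) (nat_lit 0) .nil) .nil))) 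
(.lf (nat_lit 551630) (.g (nat_lit 3982) (.e (nat_lit 426120) (nat_lit 2) (.e (nat_lit 196666) (nat_lit 13) (.e (nat_lit 65617) (nat_lit 10) (.e (nat_lit 344133) (nat_lit 26) (.e (nat_lit 557091) (nat_lit 12) (.e (nat_lit 164022) (nat_lit 46) (.e (nat_lit 704629) (nat_lit 9) (.e (nat_lit 370) (nat_lit 32) .nil)))))))) (.g (nat_lit 1) (.e (nat_lit 298452) (nat_lit 0) .nil) .nil)))) 
(.nd (nat_lit 9) 
(.lf (nat_lit 551374) (.g (nat_lit 2455) (.e (nat_lit 426109) (nat_lit 1) (.e (nat_lit 164327) (nat_lit 230) (.e (nat_lit 163868) (nat_lit 2) (.e (nat_lit 196656) (nat_lit 11) (.e (nat_lit 16436) (nat_lit 9) .nil))))) (.g (nat_lit 0) (.e (nat_lit 297634) (nat_lit 0) .nil) .nil))) 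
(.lf (nat_lit 551886) (.g (nat_lit 2690) (.e (nat_lit 426123) (nat_lit 2) (.e (nat_lit 196666) (nat_lit 13) (.e (nat_lit 65610) (nat_lit 10) (.e (nat_lit 344117) (nat_lit 21) (.e (nat_lit 524032) (nat_lit 18) .nil))))) (.g (nat_lit 0) (.e (nat_lit 298957) (nat_lit 0) .nil) .nil))))))) (.nd (nat_lit 6) (.nd (nat_lit 7) (.nd (nat_lit 8) (.nd (nat_lit 9) 
(.lf (nat_lit 550958) (.g (nat_lit 2006) (.e (nat_lit 426105) (nat_lit 1) (.e (nat_lit 164182) (nat_lit 154) (.e (nat_lit 57411) (nat_lit 12) (.e (nat_lit 336316) (nat_lit 17) (.e (nat_lit 196672) (nat_lit 15) .nil))))) (.g (nat_lit 0) (.e (nat_lit 296575) (nat_lit 0) .nil) .nil))) 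
(.lf (nat_lit 551470) (.g (nat_lit 3246) (.e (nat_lit 426112) (nat_lit 1) (.e (nat_lit 164348) (nat_lit 240) (.e (nat_lit 2638) (nat_lit 165) (.e (nat_lit 180277) (nat_lit 32) (.e (nat_lit 1660) (nat_lit 115) (.e (nat_lit 393271) (nat_lit 23) .nil)))))) (.g (nat_lit 1) (.e (nat_lit 298024) (nat_lit 0) .nil) .nil)))) (.nd (nat_lit 9) 
(.lf (nat_lit 551214) (.g (nat_lit 556) (.e (nat_lit 426107) (nat_lit 1) (.e (nat_lit 164332) (nat_lit 230) (.e (nat_lit 163867) (nat_lit 2) .nil))) (.g (nat_lit 0) (.e (nat_lit 297201) (nat_lit 0) .nil) .nil))) 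
(.lf (nat_lit 551726) (.g (nat_lit 3302) (.e (nat_lit 426121) (nat_lit 2) (.e (nat_lit 196666) (nat_lit 13) (.e (nat_lit 65617) (nat_lit 10) (.e (nat_lit 344132) (nat_lit 26) (.e (nat_lit 557094) (nat_lit 12) (.e (nat_lit 164022) (nat_lit 46) (.e (nat_lit 704629) (nat_lit 9) (.e (nat_lit 389) (nat_lit 32) .nil)))))))) (.g (nat_lit 1) (.e (nat_lit 298578) (nat_lit 0) .nil) .nil))))) 
(.nd (nat_lit 8) (.nd (nat_lit 9) 
(.lf (nat_lit 551086) (.g (nat_lit 1981) (.e (nat_lit 426106) (nat_lit 1) (.e (nat_lit 164403) (nat_lit 256) (.e (nat_lit 57406) (nat_lit 12) (.e (nat_lit 336443) (nat_lit 32) (.e (nat_lit 466981) (nat_lit 23) .nil))))) (.g (nat_lit 0) (.e (nat_lit 296810) (nat_lit 0) .nil) .nil))) 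
(.lf (nat_lit 551598) (.g (nat_lit 1335) (.e (nat_lit 426120) (nat_lit 2) (.e (nat_lit 196666) (nat_lit 13) (.e (nat_lit 65617) (nat_lit 10) (.e (nat_lit 344127) (nat_lit 26) .nil)))) (.g (nat_lit 0) (.e (nat_lit 298420) (nat_lit 0) .nil) .nil)))) (.nd (nat_lit 9) 
(.lf (nat_lit 551342) (.g (nat_lit 1303) (.e (nat_lit 426108) (nat_lit 1) (.e (nat_lit 164403) (nat_lit 256) (.e (nat_lit 57371) (nat_lit 2) (.e (nat_lit 90166) (nat_lit 13) .nil)))) (.g (nat_lit 0) (.e (nat_lit 297527) (nat_lit 0) .nil) .nil))) 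
(.lf (nat_lit 551854) (.g (nat_lit 2518) (.e (nat_lit 426122) (nat_lit 2) (.e (nat_lit 196674) (nat_lit 15) (.e (nat_lit 81922) (nat_lit 0) (.e (nat_lit 3253) (nat_lit 197) (.e (nat_lit 532513) (nat_lit 3) (.e (nat_lit 114698) (nat_lit 11) .nil)))))) (.g (nat_lit 1) (.e (nat_lit 298758) (nat_lit 0) .nil) .nil)))))) (.nd (nat_lit 7) (.nd (nat_lit 8) (.nd (nat_lit 9) 
(.lf (nat_lit 551022) (.g (nat_lit 1283) (.e (nat_lit 426105) (nat_lit 1) (.e (nat_lit 164403) (nat_lit 256) (.e (nat_lit 57409) (nat_lit 12) (.e (nat_lit 336434) (nat_lit 30) .nil)))) (.g (nat_lit 0) (.e (nat_lit 296695) (nat_lit 0) .nil) .nil))) 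
(.lf (nat_lit 551534) (.g (nat_lit 1755) (.e (nat_lit 426113) (nat_lit 2) (.e (nat_lit 196681) (nat_lit 17) (.e (nat_lit 131105) (nat_lit 9) (.e (nat_lit 336324) (nat_lit 18) (.e (nat_lit 204837) (nat_lit 20) .nil))))) (.g (nat_lit 0) (.e (nat_lit 298143) (nat_lit 0) .nil) .nil)))) (.nd (nat_lit 9) 
(.lf (nat_lit 551278) (.g (nat_lit 2645) (.e (nat_lit 426108) (nat_lit 1) (.e (nat_lit 164330) (nat_lit 230) (.e (nat_lit 163866) (nat_lit 2) (.e (nat_lit 196654) (nat_lit 11) (.e (nat_lit 16466) (nat_lit 13) (.e (nat_lit 483336) (nat_lit 9) .nil)))))) (.g (nat_lit 1) (.e (nat_lit 297374) (nat_lit 0) .nil) .nil))) 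
(.lf (nat_lit 551790) (.g (nat_lit 2902) (.e (nat_lit 426122) (nat_lit 2) (.e (nat_lit 196666) (nat_lit 13) (.e (nat_lit 65617) (nat_lit 10) (.e (nat_lit 344130) (nat_lit 26) (.e (nat_lit 557090) (nat_lit 12) (.e (nat_lit 164022) (nat_lit 46) (.e (nat_lit 704628) (nat_lit 9) (.e (nat_lit 399) (nat_lit 32) .nil)))))))) (.g (nat_lit 1) (.e (nat_lit 298674) (nat_lit 0) .nil) .nil))))) 
(.nd (nat_lit 8) (.nd (nat_lit 9) 
(.lf (nat_lit 551150) (.g (nat_lit 2021) (.e (nat_lit 426107) (nat_lit 1) (.e (nat_lit 164326) (nat_lit 230) (.e (nat_lit 163865) (nat_lit 2) (.e (nat_lit 196654) (nat_lit 11) (.e (nat_lit 16466) (nat_lit 13) (.e (nat_lit 483341) (nat_lit 9) .nil)))))) (.g (nat_lit 1) (.e (nat_lit 296975) (nat_lit 0) .nil) .nil))) 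
(.lf (nat_lit 551662) (.g (nat_lit 3685) (.e (nat_lit 426121) (nat_lit 2) (.e (nat_lit 196666) (nat_lit 13) (.e (nat_lit 65617) (nat_lit 10) (.e (nat_lit 344130) (nat_lit 26) (.e (nat_lit 557090) (nat_lit 12) (.e (nat_lit 164022) (nat_lit 46) (.e (nat_lit 704628) (nat_lit 9) (.e (nat_lit 436) (nat_lit 32) .nil)))))))) (.g (nat_lit 1) (.e (nat_lit 298504) (nat_lit 0) .nil) .nil)))) 
(.nd (nat_lit 9) 
(.lf (nat_lit 551406) (.g (nat_lit 1345) (.e (nat_lit 426109) (nat_lit 1) (.e (nat_lit 164347) (nat_lit 240) (.e (nat_lit 2650) (nat_lit 166) (.e (nat_lit 188431) (nat_lit 20) .nil)))) (.g (nat_lit 0) (.e (nat_lit 297750) (nat_lit 0) .nil) .nil))) 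
(.lf (nat_lit 551918) (.g (nat_lit 4398) (.e (nat_lit 426123) (nat_lit 2) (.e (nat_lit 196666) (nat_lit 13) (.e (nat_lit 65610) (nat_lit 10) (.e (nat_lit 344129) (nat_lit 26) (.e (nat_lit 557090) (nat_lit 12) (.e (nat_lit 163843) (nat_lit 0) (.e (nat_lit 6421) (nat_lit 341) (.e (nat_lit 171776) (nat_lit 12) .nil)))))))) (.g (nat_lit 1) (.e (nat_lit 299039) (nat_lit 0) .nil) .nil)))))))) 
(.nd (nat_lit 5) (.nd (nat_lit 6) (.nd (nat_lit 7) (.nd (nat_lit 8) (.nd (nat_lit 9) 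
(.lf (nat_lit 550942) (.g (nat_lit 1271) (.e (nat_lit 426103) (nat_lit 1) (.e (nat_lit 164348) (nat_lit 240) (.e (nat_lit 2640) (nat_lit 165) (.e (nat_lit 180277) (nat_lit 32) (.e (nat_lit 1658) (nat_lit 115) (.e (nat_lit 393277) (nat_lit 23) .nil)))))) (.g (nat_lit 1) (.e (nat_lit 296498) (nat_lit 0) .nil) .nil))) 
(.lf (nat_lit 551454) (.g (nat_lit 1289) (.e (nat_lit 426110) (nat_lit 1) (.e (nat_lit 164398) (nat_lit 256) (.e (nat_lit 57409) (nat_lit 12) (.e (nat_lit 336443) (nat_lit 32) .nil)))) (.g (nat_lit 0) (.e (nat_lit 297945) (nat_lit 0) .nil) .nil)))) (.nd (nat_lit 9) 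
(.lf (nat_lit 551198) (.g (nat_lit 3228) (.e (nat_lit 426107) (nat_lit 1) (.e (nat_lit 164327) (nat_lit 230) (.e (nat_lit 163873) (nat_lit 3) (.e (nat_lit 204813) (nat_lit 9) (.e (nat_lit 426199) (nat_lit 9) (.e (nat_lit 426480) (nat_lit 27) (.e (nat_lit 336385) (nat_lit 27) .nil))))))) (.g (nat_lit 1) (.e (nat_lit 297162) (nat_lit 0) .nil) .nil))) 
(.lf (nat_lit 551710) (.g (nat_lit 3134) (.e (nat_lit 426121) (nat_lit 2) (.e (nat_lit 196666) (nat_lit 13) (.e (nat_lit 65617) (nat_lit 10) (.e (nat_lit 344132) (nat_lit 26) (.e (nat_lit 557093) (nat_lit 12) (.e (nat_lit 164023) (nat_lit 46) (.e (nat_lit 704633) (nat_lit 9) (.e (nat_lit 396) (nat_lit 32) .nil)))))))) (.g (nat_lit 1) (.e (nat_lit 298554) (nat_lit 0) .nil) .nil))))) 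
(.nd (nat_lit 8) (.nd (nat_lit 9) 
(.lf (nat_lit 551070) (.g (nat_lit 2945) (.e (nat_lit 426106) (nat_lit 1) (.e (nat_lit 164332) (nat_lit 230) (.e (nat_lit 163869) (nat_lit 2) (.e (nat_lit 196652) (nat_lit 11) .nil)))) (.g (nat_lit 0) (.e (nat_lit 296791) (nat_lit 0) .nil) .nil))) 
(.lf (nat_lit 551582) (.g (nat_lit 2635) (.e (nat_lit 426117) (nat_lit 2) (.e (nat_lit 196666) (nat_lit 13) (.e (nat_lit 65617) (nat_lit 10) (.e (nat_lit 344132) (nat_lit 26) (.e (nat_lit 557093) (nat_lit 12) .nil))))) (.g (nat_lit 0) (.e (nat_lit 298393) (nat_lit 0) .nil) .nil)))) (.nd (nat_lit 9) 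
(.lf (nat_lit 551326) (.g (nat_lit 1267) (.e (nat_lit 426108) (nat_lit 1) (.e (nat_lit 164332) (nat_lit 230) (.e (nat_lit 163874) (nat_lit 3) (.e (nat_lit 204805) (nat_lit 0) .nil)))) (.g (nat_lit 0) (.e (nat_lit 297498) (nat_lit 0) .nil) .nil))) 
(.lf (nat_lit 551838) (.g (nat_lit 3523) (.e (nat_lit 426122) (nat_lit 2) (.e (nat_lit 196666) (nat_lit 13) (.e (nat_lit 65617) (nat_lit 10) (.e (nat_lit 344133) (nat_lit 26) (.e (nat_lit 557091) (nat_lit 12) (.e (nat_lit 164022) (nat_lit 46) (.e (nat_lit 704628) (nat_lit 9) (.e (nat_lit 391) (nat_lit 32) .nil)))))))) (.g (nat_lit 1) (.e (nat_lit 298727) (nat_lit 0) .nil) .nil)))))) 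
(.nd (nat_lit 7) (.nd (nat_lit 8) (.nd (nat_lit 9) 
(.lf (nat_lit 551006) (.g (nat_lit 524) (.e (nat_lit 426105) (nat_lit 1) (.e (nat_lit 164403) (nat_lit 256) (.e (nat_lit 57373) (nat_lit 2) .nil))) (.g (nat_lit 0) (.e (nat_lit 296679) (nat_lit 0) .nil) .nil))) 
(.lf (nat_lit 551518) (.g (nat_lit 3465) (.e (nat_lit 426113) (nat_lit 2) (.e (nat_lit 196666) (nat_lit 13) (.e (nat_lit 65610) (nat_lit 10) (.e (nat_lit 344129) (nat_lit 26) (.e (nat_lit 557090) (nat_lit 12) (.e (nat_lit 164017) (nat_lit 44) (.e (nat_lit 688139) (nat_lit 5) (.e (nat_lit 2887) (nat_lit 184) .nil)))))))) (.g (nat_lit 1) (.e (nat_lit 298106) (nat_lit 0) .nil) .nil)))) 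
(.nd (nat_lit 9) 
(.lf (nat_lit 551262) (.g (nat_lit 1669) (.e (nat_lit 426108) (nat_lit 1) (.e (nat_lit 164182) (nat_lit 154) (.e (nat_lit 57417) (nat_lit 12) (.e (nat_lit 336323) (nat_lit 18) .nil)))) (.g (nat_lit 0) (.e (nat_lit 297332) (nat_lit 0) .nil) .nil))) 
(.lf (nat_lit 551774) (.g (nat_lit 1733) (.e (nat_lit 426122) (nat_lit 2) (.e (nat_lit 196666) (nat_lit 13) (.e (nat_lit 65610) (nat_lit 10) (.e (nat_lit 344129) (nat_lit 26) (.e (nat_lit 557090) (nat_lit 12) .nil))))) (.g (nat_lit 0) (.e (nat_lit 298658) (nat_lit 0) .nil) .nil))))) (.nd (nat_lit 8) (.nd (nat_lit 9) 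
(.lf (nat_lit 551134) (.g (nat_lit 3802) (.e (nat_lit 426107) (nat_lit 1) (.e (nat_lit 164325) (nat_lit 230) (.e (nat_lit 163871) (nat_lit 2) (.e (nat_lit 196656) (nat_lit 11) (.e (nat_lit 16465) (nat_lit 13) (.e (nat_lit 483341) (nat_lit 9) .nil)))))) (.g (nat_lit 1) (.e (nat_lit 296929) (nat_lit 0) .nil) .nil))) 
(.lf (nat_lit 551646) (.g (nat_lit 2776) (.e (nat_lit 426121) (nat_lit 2) (.e (nat_lit 196666) (nat_lit 13) (.e (nat_lit 65610) (nat_lit 10) (.e (nat_lit 344129) (nat_lit 26) (.e (nat_lit 557090) (nat_lit 12) (.e (nat_lit 171776) (nat_lit 48) (.e (nat_lit 720908) (nat_lit 11) .nil))))))) (.g (nat_lit 1) (.e (nat_lit 298488) (nat_lit 0) .nil) .nil)))) (.nd (nat_lit 9) 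
(.lf (nat_lit 551390) (.g (nat_lit 2036) (.e (nat_lit 426109) (nat_lit 1) (.e (nat_lit 164345) (nat_lit 240) (.e (nat_lit 2638) (nat_lit 165) (.e (nat_lit 180278) (nat_lit 32) (.e (nat_lit 1660) (nat_lit 115) (.e (nat_lit 393277) (nat_lit 23) .nil)))))) (.g (nat_lit 1) (.e (nat_lit 297681) (nat_lit 0) .nil) .nil))) 
(.lf (nat_lit 551902) (.g (nat_lit 3386) (.e (nat_lit 426123) (nat_lit 2) (.e (nat_lit 196666) (nat_lit 13) (.e (nat_lit 65610) (nat_lit 10) (.e (nat_lit 344129) (nat_lit 26) (.e (nat_lit 557089) (nat_lit 12) (.e (nat_lit 163843) (nat_lit 0) (.e (nat_lit 6421) (nat_lit 341) (.e (nat_lit 171776) (nat_lit 12) .nil)))))))) (.g (nat_lit 1) (.e (nat_lit 299006) (nat_lit 0) .nil) .nil))))))) 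
(.nd (nat_lit 6) (.nd (nat_lit 7) (.nd (nat_lit 8) (.nd (nat_lit 9) 
(.lf (nat_lit 550974) (.g (nat_lit 3289) (.e (nat_lit 426105) (nat_lit 1) (.e (nat_lit 164327) (nat_lit 230) (.e (nat_lit 163868) (nat_lit 2) (.e (nat_lit 196654) (nat_lit 11) (.e (nat_lit 16463) (nat_lit 13) (.e (nat_lit 483341) (nat_lit 9) .nil)))))) (.g (nat_lit 1) (.e (nat_lit 296613) (nat_lit 0) .nil) .nil))) 
(.lf (nat_lit 551486) (.g (nat_lit 1118) (.e (nat_lit 433920) (nat_lit 1) (.e (nat_lit 164399) (nat_lit 256) (.e (nat_lit 57378) (nat_lit 3) (.e (nat_lit 98381) (nat_lit 31) .nil)))) (.g (nat_lit 0) (.e (nat_lit 298062) (nat_lit 0) .nil) .nil)))) (.nd (nat_lit 9) 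
(.lf (nat_lit 551230) (.g (nat_lit 1395) (.e (nat_lit 426107) (nat_lit 1) (.e (nat_lit 164402) (nat_lit 256) (.e (nat_lit 57377) (nat_lit 3) (.e (nat_lit 98362) (nat_lit 26) .nil)))) (.g (nat_lit 0) (.e (nat_lit 297296) (nat_lit 0) .nil) .nil))) 
(.lf (nat_lit 551742) (.g (nat_lit 3717) (.e (nat_lit 426121) (nat_lit 2) (.e (nat_lit 196666) (nat_lit 13) (.e (nat_lit 65617) (nat_lit 10) (.e (nat_lit 344133) (nat_lit 26) (.e (nat_lit 557091) (nat_lit 12) (.e (nat_lit 164022) (nat_lit 46) (.e (nat_lit 704626) (nat_lit 9) (.e (nat_lit 398) (nat_lit 32) .nil)))))))) (.g (nat_lit 1) (.e (nat_lit 298594) (nat_lit 0) .nil) .nil))))) 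
(.nd (nat_lit 8) (.nd (nat_lit 9) 
(.lf (nat_lit 551102) (.g (nat_lit 1955) (.e (nat_lit 426107) (nat_lit 1) (.e (nat_lit 164179) (nat_lit 154) (.e (nat_lit 57411) (nat_lit 12) (.e (nat_lit 336322) (nat_lit 18) .nil)))) (.g (nat_lit 0) (.e (nat_lit 296839) (nat_lit 0) .nil) .nil))) 
(.lf (nat_lit 551614) (.g (nat_lit 4194) (.e (nat_lit 426120) (nat_lit 2) (.e (nat_lit 196666) (nat_lit 13) (.e (nat_lit 65617) (nat_lit 10) (.e (nat_lit 344132) (nat_lit 26) (.e (nat_lit 557093) (nat_lit 12) (.e (nat_lit 164022) (nat_lit 46) (.e (nat_lit 704629) (nat_lit 9) (.e (nat_lit 411) (nat_lit 32) .nil)))))))) (.g (nat_lit 1) (.e (nat_lit 298436) (nat_lit 0) .nil) .nil)))) 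
(.nd (nat_lit 9) 
(.lf (nat_lit 551358) (.g (nat_lit 2370) (.e (nat_lit 426108) (nat_lit 1) (.e (nat_lit 164403) (nat_lit 256) (.e (nat_lit 57406) (nat_lit 12) (.e (nat_lit 336443) (nat_lit 32) (.e (nat_lit 466978) (nat_lit 23) .nil))))) (.g (nat_lit 0) (.e (nat_lit 297543) (nat_lit 0) .nil) .nil))) 
(.lf (nat_lit 551870) (.g (nat_lit 1398) (.e (nat_lit 426123) (nat_lit 2) (.e (nat_lit 196654) (nat_lit 11) (.e (nat_lit 16416) (nat_lit 3) (.e (nat_lit 204813) (nat_lit 9) .nil)))) (.g (nat_lit 0) (.e (nat_lit 298787) (nat_lit 0) .nil) .nil)))))) (.nd (nat_lit 7) (.nd (nat_lit 8) (.nd (nat_lit 9) 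
(.lf (nat_lit 551038) (.g (nat_lit 1605) (.e (nat_lit 426106) (nat_lit 1) (.e (nat_lit 164183) (nat_lit 154) (.e (nat_lit 57409) (nat_lit 12) (.e (nat_lit 336324) (nat_lit 18) (.e (nat_lit 204875) (nat_lit 31) .nil))))) (.g (nat_lit 0) (.e (nat_lit 296719) (nat_lit 0) .nil) .nil))) 
(.lf (nat_lit 551550) (.g (nat_lit 1109) (.e (nat_lit 426115) (nat_lit 2) (.e (nat_lit 196654) (nat_lit 11) (.e (nat_lit 16416) (nat_lit 3) (.e (nat_lit 204809) (nat_lit 9) .nil)))) (.g (nat_lit 0) (.e (nat_lit 298234) (nat_lit 0) .nil) .nil)))) (.nd (nat_lit 9) 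
(.lf (nat_lit 551294) (.g (nat_lit 2105) (.e (nat_lit 426108) (nat_lit 1) (.e (nat_lit 164330) (nat_lit 230) (.e (nat_lit 163869) (nat_lit 2) (.e (nat_lit 196656) (nat_lit 11) (.e (nat_lit 16444) (nat_lit 9) .nil))))) (.g (nat_lit 0) (.e (nat_lit 297401) (nat_lit 0) .nil) .nil))) 
(.lf (nat_lit 551806) (.g (nat_lit 2504) (.e (nat_lit 426122) (nat_lit 2) (.e (nat_lit 196666) (nat_lit 13) (.e (nat_lit 65617) (nat_lit 10) (.e (nat_lit 344132) (nat_lit 26) (.e (nat_lit 557093) (nat_lit 12) (.e (nat_lit 164022) (nat_lit 46) (.e (nat_lit 704628) (nat_lit 9) (.e (nat_lit 399) (nat_lit 32) .nil)))))))) (.g (nat_lit 1) (.e (nat_lit 298690) (nat_lit 0) .nil) .nil))))) 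
(.nd (nat_lit 8) (.nd (nat_lit 9) 
(.lf (nat_lit 551166) (.g (nat_lit 3240) (.e (nat_lit 426107) (nat_lit 1) (.e (nat_lit 164326) (nat_lit 230) (.e (nat_lit 163871) (nat_lit 2) (.e (nat_lit 196654) (nat_lit 11) (.e (nat_lit 16463) (nat_lit 13) (.e (nat_lit 483341) (nat_lit 9) .nil)))))) (.g (nat_lit 1) (.e (nat_lit 297082) (nat_lit 0) .nil) .nil))) 
(.lf (nat_lit 551678) (.g (nat_lit 2518) (.e (nat_lit 426121) (nat_lit 2) (.e (nat_lit 196666) (nat_lit 13) (.e (nat_lit 65617) (nat_lit 10) (.e (nat_lit 344132) (nat_lit 26) (.e (nat_lit 557093) (nat_lit 12) (.e (nat_lit 164022) (nat_lit 46) (.e (nat_lit 704626) (nat_lit 9) (.e (nat_lit 388) (nat_lit 32) .nil)))))))) (.g (nat_lit 1) (.e (nat_lit 298520) (nat_lit 0) .nil) .nil)))) 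
(.nd (nat_lit 9) 
(.lf (nat_lit 551422) (.g (nat_lit 3410) (.e (nat_lit 426110) (nat_lit 1) (.e (nat_lit 164327) (nat_lit 230) (.e (nat_lit 163868) (nat_lit 2) (.e (nat_lit 196656) (nat_lit 11) (.e (nat_lit 16463) (nat_lit 13) (.e (nat_lit 491264) (nat_lit 9) .nil)))))) (.g (nat_lit 1) (.e (nat_lit 297835) (nat_lit 0) .nil) .nil))) 
(.lf (nat_lit 551934) (.g (nat_lit 3095) (.e (nat_lit 426123) (nat_lit 2) (.e (nat_lit 196666) (nat_lit 13) (.e (nat_lit 65610) (nat_lit 10) (.e (nat_lit 344129) (nat_lit 26) (.e (nat_lit 557092) (nat_lit 12) (.e (nat_lit 171776) (nat_lit 48) (.e (nat_lit 720908) (nat_lit 11) .nil))))))) (.g (nat_lit 1) (.e (nat_lit 299071) (nat_lit 0) .nil) .nil)))))))))))) 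
(.nd (nat_lit 1) (.nd (nat_lit 2) (.nd (nat_lit 3) (.nd (nat_lit 4) (.nd (nat_lit 5) 
(.nd (nat_lit 6) (.nd (nat_lit 7) (.nd (nat_lit 8) (.nd (nat_lit 9) 
(.lf (nat_lit 550913) (.g (nat_lit 1895) (.e (nat_lit 426100) (nat_lit 1) (.e (nat_lit 164399) (nat_lit 256) (.e (nat_lit 57411) (nat_lit 12) (.e (nat_lit 336434) (nat_lit 30) (.e (nat_lit 450579) (nat_lit 5) .nil))))) (.g (nat_lit 0) (.e (nat_lit 296451) (nat_lit 0) .nil) .nil))) 
(.lf (nat_lit 551425) (.g (nat_lit 2746) (.e (nat_lit 426110) (nat_lit 1) (.e (nat_lit 164327) (nat_lit 230) (.e (nat_lit 163868) (nat_lit 2) (.e (nat_lit 196656) (nat_lit 11) (.e (nat_lit 16466) (nat_lit 13) (.e (nat_lit 483338) (nat_lit 9) .nil)))))) (.g (nat_lit 1) (.e (nat_lit 297839) (nat_lit 0) .nil) .nil)))) (.nd (nat_lit 9) 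
(.lf (nat_lit 551169) (.g (nat_lit 1884) (.e (nat_lit 426107) (nat_lit 1) (.e (nat_lit 164326) (nat_lit 230) (.e (nat_lit 163871) (nat_lit 2) (.e (nat_lit 196656) (nat_lit 11) (.e (nat_lit 16436) (nat_lit 9) .nil))))) (.g (nat_lit 0) (.e (nat_lit 297092) (nat_lit 0) .nil) .nil))) 
(.lf (nat_lit 551681) (.g (nat_lit 2942) (.e (nat_lit 426121) (nat_lit 2) (.e (nat_lit 196666) (nat_lit 13) (.e (nat_lit 65617) (nat_lit 10) (.e (nat_lit 344132) (nat_lit 26) (.e (nat_lit 557093) (nat_lit 12) (.e (nat_lit 164022) (nat_lit 46) (.e (nat_lit 704626) (nat_lit 9) (.e (nat_lit 399) (nat_lit 32) .nil)))))))) (.g (nat_lit 1) (.e (nat_lit 298523) (nat_lit 0) .nil) .nil))))) 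
(.nd (nat_lit 8) (.nd (nat_lit 9) 
(.lf (nat_lit 551041) (.g (nat_lit 1433) (.e (nat_lit 426106) (nat_lit 1) (.e (nat_lit 164183) (nat_lit 154) (.e (nat_lit 57411) (nat_lit 12) (.e (nat_lit 336322) (nat_lit 18) (.e (nat_lit 204876) (nat_lit 31) .nil))))) (.g (nat_lit 0) (.e (nat_lit 296722) (nat_lit 0) .nil) .nil))) 
(.lf (nat_lit 551553) (.g (nat_lit 1719) (.e (nat_lit 426115) (nat_lit 2) (.e (nat_lit 196654) (nat_lit 11) (.e (nat_lit 16416) (nat_lit 3) (.e (nat_lit 204813) (nat_lit 9) (.e (nat_lit 426139) (nat_lit 3) .nil))))) (.g (nat_lit 0) (.e (nat_lit 298237) (nat_lit 0) .nil) .nil)))) (.nd (nat_lit 9) 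
(.lf (nat_lit 551297) (.g (nat_lit 2973) (.e (nat_lit 426108) (nat_lit 1) (.e (nat_lit 164330) (nat_lit 230) (.e (nat_lit 163873) (nat_lit 3) (.e (nat_lit 204813) (nat_lit 9) (.e (nat_lit 426199) (nat_lit 9) .nil))))) (.g (nat_lit 0) (.e (nat_lit 297406) (nat_lit 0) .nil) .nil))) 
(.lf (nat_lit 551809) (.g (nat_lit 2142) (.e (nat_lit 426122) (nat_lit 2) (.e (nat_lit 196666) (nat_lit 13) (.e (nat_lit 65617) (nat_lit 10) (.e (nat_lit 344132) (nat_lit 26) (.e (nat_lit 557093) (nat_lit 12) (.e (nat_lit 164022) (nat_lit 46) (.e (nat_lit 704628) (nat_lit 9) (.e (nat_lit 435) (nat_lit 32) .nil)))))))) (.g (nat_lit 1) (.e (nat_lit 298693) (nat_lit 0) .nil) .nil)))))) 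
(.nd (nat_lit 7) (.nd (nat_lit 8) (.nd (nat_lit 9) 
(.lf (nat_lit 550977) (.g (nat_lit 2505) (.e (nat_lit 426105) (nat_lit 1) (.e (nat_lit 164327) (nat_lit 230) (.e (nat_lit 163868) (nat_lit 2) (.e (nat_lit 196656) (nat_lit 11) (.e (nat_lit 16466) (nat_lit 13) .nil))))) (.g (nat_lit 0) (.e (nat_lit 296617) (nat_lit 0) .nil) .nil))) 
(.lf (nat_lit 551489) (.g (nat_lit 738) (.e (nat_lit 433920) (nat_lit 1) (.e (nat_lit 164399) (nat_lit 256) (.e (nat_lit 57379) (nat_lit 3) (.e (nat_lit 98380) (nat_lit 31) .nil)))) (.g (nat_lit 0) (.e (nat_lit 298065) (nat_lit 0) .nil) .nil)))) (.nd (nat_lit 9) 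
(.lf (nat_lit 551233) (.g (nat_lit 534) (.e (nat_lit 426107) (nat_lit 1) (.e (nat_lit 164403) (nat_lit 256) (.e (nat_lit 57369) (nat_lit 2) .nil))) (.g (nat_lit 0) (.e (nat_lit 297299) (nat_lit 0) .nil) .nil))) 
(.lf (nat_lit 551745) (.g (nat_lit 3656) (.e (nat_lit 426121) (nat_lit 2) (.e (nat_lit 196666) (nat_lit 13) (.e (nat_lit 65617) (nat_lit 10) (.e (nat_lit 344133) (nat_lit 26) (.e (nat_lit 557091) (nat_lit 12) (.e (nat_lit 164022) (nat_lit 46) (.e (nat_lit 704627) (nat_lit 9) (.e (nat_lit 391) (nat_lit 32) .nil)))))))) (.g (nat_lit 1) (.e (nat_lit 298599) (nat_lit 0) .nil) .nil))))) 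
(.nd (nat_lit 8) (.nd (nat_lit 9) 
(.lf (nat_lit 551105) (.g (nat_lit 1570) (.e (nat_lit 426107) (nat_lit 1) (.e (nat_lit 164179) (nat_lit 154) (.e (nat_lit 57411) (nat_lit 12) (.e (nat_lit 336326) (nat_lit 18) .nil)))) (.g (nat_lit 0) (.e (nat_lit 296842) (nat_lit 0) .nil) .nil))) 
(.lf (nat_lit 551617) (.g (nat_lit 2439) (.e (nat_lit 426120) (nat_lit 2) (.e (nat_lit 196666) (nat_lit 13) (.e (nat_lit 65617) (nat_lit 10) (.e (nat_lit 344132) (nat_lit 26) (.e (nat_lit 557094) (nat_lit 12) (.e (nat_lit 164016) (nat_lit 44) (.e (nat_lit 688139) (nat_lit 5) (.e (nat_lit 2887) (nat_lit 184) .nil)))))))) (.g (nat_lit 1) (.e (nat_lit 298439) (nat_lit 0) .nil) .nil)))) 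
(.nd (nat_lit 9) 
(.lf (nat_lit 551361) (.g (nat_lit 1352) (.e (nat_lit 426108) (nat_lit 1) (.e (nat_lit 164403) (nat_lit 256) (.e (nat_lit 57409) (nat_lit 12) (.e (nat_lit 336444) (nat_lit 32) .nil)))) (.g (nat_lit 0) (.e (nat_lit 297546) (nat_lit 0) .nil) .nil))) 
(.lf (nat_lit 551873) (.g (nat_lit 1082) (.e (nat_lit 426123) (nat_lit 2) (.e (nat_lit 196656) (nat_lit 11) (.e (nat_lit 16416) (nat_lit 3) .nil))) (.g (nat_lit 0) (.e (nat_lit 298796) (nat_lit 0) .nil) .nil))))))) (.nd (nat_lit 6) (.nd (nat_lit 7) (.nd (nat_lit 8) (.nd (nat_lit 9) 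
(.lf (nat_lit 550945) (.g (nat_lit 2866) (.e (nat_lit 426104) (nat_lit 1) (.e (nat_lit 164348) (nat_lit 240) (.e (nat_lit 2610) (nat_lit 163) (.e (nat_lit 163978) (nat_lit 30) (.e (nat_lit 573479) (nat_lit 13) .nil))))) (.g (nat_lit 0) (.e (nat_lit 296551) (nat_lit 0) .nil) .nil))) 
(.lf (nat_lit 551457) (.g (nat_lit 863) (.e (nat_lit 426111) (nat_lit 1) (.e (nat_lit 164325) (nat_lit 230) (.e (nat_lit 163882) (nat_lit 4) .nil))) (.g (nat_lit 0) (.e (nat_lit 297953) (nat_lit 0) .nil) .nil)))) (.nd (nat_lit 9) 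
(.lf (nat_lit 551201) (.g (nat_lit 1863) (.e (nat_lit 426107) (nat_lit 1) (.e (nat_lit 164327) (nat_lit 230) (.e (nat_lit 163873) (nat_lit 3) (.e (nat_lit 204813) (nat_lit 9) (.e (nat_lit 426200) (nat_lit 9) .nil))))) (.g (nat_lit 0) (.e (nat_lit 297165) (nat_lit 0) .nil) .nil))) 
(.lf (nat_lit 551713) (.g (nat_lit 2286) (.e (nat_lit 426121) (nat_lit 2) (.e (nat_lit 196666) (nat_lit 13) (.e (nat_lit 65617) (nat_lit 10) (.e (nat_lit 344132) (nat_lit 26) (.e (nat_lit 557094) (nat_lit 12) .nil))))) (.g (nat_lit 0) (.e (nat_lit 298565) (nat_lit 0) .nil) .nil))))) (.nd (nat_lit 8) (.nd (nat_lit 9) 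
(.lf (nat_lit 551073) (.g (nat_lit 3645) (.e (nat_lit 426106) (nat_lit 1) (.e (nat_lit 164332) (nat_lit 230) (.e (nat_lit 163869) (nat_lit 2) (.e (nat_lit 196654) (nat_lit 11) (.e (nat_lit 16466) (nat_lit 13) (.e (nat_lit 483341) (nat_lit 9) .nil)))))) (.g (nat_lit 1) (.e (nat_lit 296794) (nat_lit 0) .nil) .nil))) 
(.lf (nat_lit 551585) (.g (nat_lit 2821) (.e (nat_lit 426117) (nat_lit 2) (.e (nat_lit 196666) (nat_lit 13) (.e (nat_lit 65617) (nat_lit 10) (.e (nat_lit 344133) (nat_lit 26) (.e (nat_lit 557089) (nat_lit 12) (.e (nat_lit 164017) (nat_lit 44) (.e (nat_lit 688139) (nat_lit 5) (.e (nat_lit 2887) (nat_lit 184) .nil)))))))) (.g (nat_lit 1) (.e (nat_lit 298396) (nat_lit 0) .nil) .nil)))) 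
(.nd (nat_lit 9) 
(.lf (nat_lit 551329) (.g (nat_lit 2442) (.e (nat_lit 426108) (nat_lit 1) (.e (nat_lit 164332) (nat_lit 230) (.e (nat_lit 163880) (nat_lit 4) (.e (nat_lit 213030) (nat_lit 11) .nil)))) (.g (nat_lit 0) (.e (nat_lit 297507) (nat_lit 0) .nil) .nil))) 
(.lf (nat_lit 551841) (.g (nat_lit 2564) (.e (nat_lit 426122) (nat_lit 2) (.e (nat_lit 196666) (nat_lit 13) (.e (nat_lit 65617) (nat_lit 10) (.e (nat_lit 344133) (nat_lit 26) (.e (nat_lit 557091) (nat_lit 12) (.e (nat_lit 164022) (nat_lit 46) (.e (nat_lit 704628) (nat_lit 9) (.e (nat_lit 435) (nat_lit 32) .nil)))))))) (.g (nat_lit 1) (.e (nat_lit 298730) (nat_lit 0) .nil) .nil)))))) 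
(.nd (nat_lit 7) (.nd (nat_lit 8) (.nd (nat_lit 9) 
(.lf (nat_lit 551009) (.g (nat_lit 2039) (.e (nat_lit 426105) (nat_lit 1) (.e (nat_lit 164403) (nat_lit 256) (.e (nat_lit 57373) (nat_lit 2) (.e (nat_lit 90169) (nat_lit 13) .nil)))) (.g (nat_lit 0) (.e (nat_lit 296682) (nat_lit 0) .nil) .nil))) 
(.lf (nat_lit 551521) (.g (nat_lit 3469) (.e (nat_lit 426113) (nat_lit 2) (.e (nat_lit 196666) (nat_lit 13) (.e (nat_lit 65617) (nat_lit 10) (.e (nat_lit 344127) (nat_lit 26) (.e (nat_lit 557090) (nat_lit 12) (.e (nat_lit 164017) (nat_lit 44) (.e (nat_lit 688139) (nat_lit 5) (.e (nat_lit 2887) (nat_lit 184) .nil)))))))) (.g (nat_lit 1) (.e (nat_lit 298110) (nat_lit 0) .nil) .nil)))) 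
(.nd (nat_lit 9) 
(.lf (nat_lit 551265) (.g (nat_lit 1395) (.e (nat_lit 426108) (nat_lit 1) (.e (nat_lit 164183) (nat_lit 154) (.e (nat_lit 57417) (nat_lit 12) (.e (nat_lit 336323) (nat_lit 18) .nil)))) (.g (nat_lit 0) (.e (nat_lit 297335) (nat_lit 0) .nil) .nil))) 
(.lf (nat_lit 551777) (.g (nat_lit 1840) (.e (nat_lit 426122) (nat_lit 2) (.e (nat_lit 196666) (nat_lit 13) (.e (nat_lit 65617) (nat_lit 10) (.e (nat_lit 344127) (nat_lit 26) (.e (nat_lit 557092) (nat_lit 12) (.e (nat_lit 171776) (nat_lit 48) (.e (nat_lit 720908) (nat_lit 11) .nil))))))) (.g (nat_lit 1) (.e (nat_lit 298661) (nat_lit 0) .nil) .nil))))) (.nd (nat_lit 8) (.nd (nat_lit 9) 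
(.lf (nat_lit 551137) (.g (nat_lit 1789) (.e (nat_lit 426107) (nat_lit 1) (.e (nat_lit 164325) (nat_lit 230) (.e (nat_lit 163873) (nat_lit 3) (.e (nat_lit 204809) (nat_lit 9) (.e (nat_lit 426213) (nat_lit 9) (.e (nat_lit 426528) (nat_lit 27) (.e (nat_lit 336387) (nat_lit 27) .nil))))))) (.g (nat_lit 1) (.e (nat_lit 296935) (nat_lit 0) .nil) .nil))) 
(.lf (nat_lit 551649) (.g (nat_lit 2134) (.e (nat_lit 426121) (nat_lit 2) (.e (nat_lit 196666) (nat_lit 13) (.e (nat_lit 65617) (nat_lit 10) (.e (nat_lit 344130) (nat_lit 26) (.e (nat_lit 557089) (nat_lit 12) .nil))))) (.g (nat_lit 0) (.e (nat_lit 298491) (nat_lit 0) .nil) .nil)))) (.nd (nat_lit 9) 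
(.lf (nat_lit 551393) (.g (nat_lit 1630) (.e (nat_lit 426109) (nat_lit 1) (.e (nat_lit 164346) (nat_lit 240) (.e (nat_lit 2638) (nat_lit 165) (.e (nat_lit 180277) (nat_lit 32) (.e (nat_lit 1660) (nat_lit 115) (.e (nat_lit 393277) (nat_lit 23) .nil)))))) (.g (nat_lit 1) (.e (nat_lit 297709) (nat_lit 0) .nil) .nil))) 
(.lf (nat_lit 551905) (.g (nat_lit 2775) (.e (nat_lit 426123) (nat_lit 2) (.e (nat_lit 196666) (nat_lit 13) (.e (nat_lit 65610) (nat_lit 10) (.e (nat_lit 344129) (nat_lit 26) (.e (nat_lit 557089) (nat_lit 12) (.e (nat_lit 163848) (nat_lit 0) (.e (nat_lit 6418) (nat_lit 341) (.e (nat_lit 171776) (nat_lit 12) .nil)))))))) (.g (nat_lit 1) (.e (nat_lit 299014) (nat_lit 0) .nil) .nil)))))))) 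
(.nd (nat_lit 5) (.nd (nat_lit 6) (.nd (nat_lit 7) (.nd (nat_lit 8) (.nd (nat_lit 9) 
(.lf (nat_lit 550929) (.g (nat_lit 793) (.e (nat_lit 426101) (nat_lit 1) (.e (nat_lit 164325) (nat_lit 230) (.e (nat_lit 163879) (nat_lit 4) .nil))) (.g (nat_lit 0) (.e (nat_lit 296470) (nat_lit 0) .nil) .nil))) 
(.lf (nat_lit 551441) (.g (nat_lit 2548) (.e (nat_lit 426110) (nat_lit 1) (.e (nat_lit 164327) (nat_lit 230) (.e (nat_lit 163879) (nat_lit 4) (.e (nat_lit 213030) (nat_lit 11) (.e (nat_lit 24660) (nat_lit 13) (.e (nat_lit 393279) (nat_lit 23) .nil)))))) (.g (nat_lit 1) (.e (nat_lit 297918) (nat_lit 0) .nil) .nil)))) (.nd (nat_lit 9) 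
(.lf (nat_lit 551185) (.g (nat_lit 1099) (.e (nat_lit 426107) (nat_lit 1) (.e (nat_lit 164327) (nat_lit 230) (.e (nat_lit 163871) (nat_lit 2) (.e (nat_lit 196654) (nat_lit 11) .nil)))) (.g (nat_lit 0) (.e (nat_lit 297145) (nat_lit 0) .nil) .nil))) 
(.lf (nat_lit 551697) (.g (nat_lit 4061) (.e (nat_lit 426121) (nat_lit 2) (.e (nat_lit 196666) (nat_lit 13) (.e (nat_lit 65617) (nat_lit 10) (.e (nat_lit 344132) (nat_lit 26) (.e (nat_lit 557093) (nat_lit 12) (.e (nat_lit 164022) (nat_lit 46) (.e (nat_lit 704629) (nat_lit 9) (.e (nat_lit 435) (nat_lit 32) .nil)))))))) (.g (nat_lit 1) (.e (nat_lit 298539) (nat_lit 0) .nil) .nil))))) 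
(.nd (nat_lit 8) (.nd (nat_lit 9) 
(.lf (nat_lit 551057) (.g (nat_lit 3368) (.e (nat_lit 426106) (nat_lit 1) (.e (nat_lit 164327) (nat_lit 230) (.e (nat_lit 163868) (nat_lit 2) (.e (nat_lit 196656) (nat_lit 11) (.e (nat_lit 16466) (nat_lit 13) (.e (nat_lit 483341) (nat_lit 9) .nil)))))) (.g (nat_lit 1) (.e (nat_lit 296754) (nat_lit 0) .nil) .nil))) 
(.lf (nat_lit 551569) (.g (nat_lit 3610) (.e (nat_lit 426116) (nat_lit 2) (.e (nat_lit 196656) (nat_lit 11) (.e (nat_lit 16412) (nat_lit 2) (.e (nat_lit 196654) (nat_lit 11) (.e (nat_lit 16415) (nat_lit 3) (.e (nat_lit 204813) (nat_lit 9) .nil)))))) (.g (nat_lit 1) (.e (nat_lit 298318) (nat_lit 0) .nil) .nil)))) (.nd (nat_lit 9) 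
(.lf (nat_lit 551313) (.g (nat_lit 380) (.e (nat_lit 426108) (nat_lit 1) (.e (nat_lit 164331) (nat_lit 230) (.e (nat_lit 163873) (nat_lit 3) .nil))) (.g (nat_lit 0) (.e (nat_lit 297433) (nat_lit 0) .nil) .nil))) 
(.lf (nat_lit 551825) (.g (nat_lit 2335) (.e (nat_lit 426122) (nat_lit 2) (.e (nat_lit 196666) (nat_lit 13) (.e (nat_lit 65617) (nat_lit 10) (.e (nat_lit 344132) (nat_lit 26) (.e (nat_lit 557094) (nat_lit 12) (.e (nat_lit 164022) (nat_lit 46) (.e (nat_lit 704628) (nat_lit 9) (.e (nat_lit 398) (nat_lit 32) .nil)))))))) (.g (nat_lit 1) (.e (nat_lit 298714) (nat_lit 0) .nil) .nil)))))) 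
(.nd (nat_lit 7) (.nd (nat_lit 8) (.nd (nat_lit 9) 
(.lf (nat_lit 550993) (.g (nat_lit 2687) (.e (nat_lit 426105) (nat_lit 1) (.e (nat_lit 164332) (nat_lit 230) (.e (nat_lit 163869) (nat_lit 2) (.e (nat_lit 196654) (nat_lit 11) (.e (nat_lit 16438) (nat_lit 9) .nil))))) (.g (nat_lit 0) (.e (nat_lit 296659) (nat_lit 0) .nil) .nil))) 
(.lf (nat_lit 551505) (.g (nat_lit 1592) (.e (nat_lit 433920) (nat_lit 1) (.e (nat_lit 164403) (nat_lit 256) (.e (nat_lit 57377) (nat_lit 3) (.e (nat_lit 98365) (nat_lit 26) (.e (nat_lit 426325) (nat_lit 13) .nil))))) (.g (nat_lit 0) (.e (nat_lit 298081) (nat_lit 0) .nil) .nil)))) (.nd (nat_lit 9) 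
(.lf (nat_lit 551249) (.g (nat_lit 1400) (.e (nat_lit 426107) (nat_lit 1) (.e (nat_lit 164403) (nat_lit 256) (.e (nat_lit 57406) (nat_lit 12) (.e (nat_lit 336427) (nat_lit 29) .nil)))) (.g (nat_lit 0) (.e (nat_lit 297318) (nat_lit 0) .nil) .nil))) 
(.lf (nat_lit 551761) (.g (nat_lit 3391) (.e (nat_lit 426121) (nat_lit 2) (.e (nat_lit 196666) (nat_lit 13) (.e (nat_lit 65617) (nat_lit 10) (.e (nat_lit 344133) (nat_lit 26) (.e (nat_lit 557091) (nat_lit 12) (.e (nat_lit 171776) (nat_lit 49) (.e (nat_lit 729096) (nat_lit 11) .nil))))))) (.g (nat_lit 1) (.e (nat_lit 298616) (nat_lit 0) .nil) .nil))))) (.nd (nat_lit 8) (.nd (nat_lit 9) 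
(.lf (nat_lit 551121) (.g (nat_lit 3238) (.e (nat_lit 426107) (nat_lit 1) (.e (nat_lit 164325) (nat_lit 230) (.e (nat_lit 163867) (nat_lit 2) (.e (nat_lit 196656) (nat_lit 11) (.e (nat_lit 16465) (nat_lit 13) (.e (nat_lit 483341) (nat_lit 9) .nil)))))) (.g (nat_lit 1) (.e (nat_lit 296903) (nat_lit 0) .nil) .nil))) 
(.lf (nat_lit 551633) (.g (nat_lit 2476) (.e (nat_lit 426120) (nat_lit 2) (.e (nat_lit 196666) (nat_lit 13) (.e (nat_lit 65617) (nat_lit 10) (.e (nat_lit 344133) (nat_lit 26) (.e (nat_lit 557091) (nat_lit 12) (.e (nat_lit 171776) (nat_lit 49) (.e (nat_lit 729095) (nat_lit 11) .nil))))))) (.g (nat_lit 1) (.e (nat_lit 298455) (nat_lit 0) .nil) .nil)))) (.nd (nat_lit 9) 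
(.lf (nat_lit 551377) (.g (nat_lit 1716) (.e (nat_lit 426109) (nat_lit 1) (.e (nat_lit 164327) (nat_lit 230) (.e (nat_lit 163871) (nat_lit 2) (.e (nat_lit 196654) (nat_lit 11) (.e (nat_lit 16436) (nat_lit 9) .nil))))) (.g (nat_lit 0) (.e (nat_lit 297638) (nat_lit 0) .nil) .nil))) 
(.lf (nat_lit 551889) (.g (nat_lit 3596) (.e (nat_lit 426123) (nat_lit 2) (.e (nat_lit 196666) (nat_lit 13) (.e (nat_lit 65610) (nat_lit 10) (.e (nat_lit 344117) (nat_lit 21) (.e (nat_lit 524032) (nat_lit 18) (.e (nat_lit 57691) (nat_lit 156) (.e (nat_lit 171776) (nat_lit 12) .nil))))))) (.g (nat_lit 1) (.e (nat_lit 298960) (nat_lit 0) .nil) .nil))))))) 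
(.nd (nat_lit 6) (.nd (nat_lit 7) (.nd (nat_lit 8) (.nd (nat_lit 9) 
(.lf (nat_lit 550961) (.g (nat_lit 1849) (.e (nat_lit 426105) (nat_lit 1) (.e (nat_lit 164183) (nat_lit 154) (.e (nat_lit 57409) (nat_lit 12) (.e (nat_lit 336316) (nat_lit 17) (.e (nat_lit 196672) (nat_lit 15) .nil))))) (.g (nat_lit 0) (.e (nat_lit 296579) (nat_lit 0) .nil) .nil))) 
(.lf (nat_lit 551473) (.g (nat_lit 1089) (.e (nat_lit 433920) (nat_lit 1) (.e (nat_lit 164327) (nat_lit 230) (.e (nat_lit 163868) (nat_lit 2) (.e (nat_lit 196654) (nat_lit 11) .nil)))) (.g (nat_lit 0) (.e (nat_lit 298034) (nat_lit 0) .nil) .nil)))) (.nd (nat_lit 9) 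
(.lf (nat_lit 551217) (.g (nat_lit 2191) (.e (nat_lit 426107) (nat_lit 1) (.e (nat_lit 164332) (nat_lit 230) (.e (nat_lit 163869) (nat_lit 2) (.e (nat_lit 196656) (nat_lit 11) .nil)))) (.g (nat_lit 0) (.e (nat_lit 297208) (nat_lit 0) .nil) .nil))) 
(.lf (nat_lit 551729) (.g (nat_lit 4237) (.e (nat_lit 426121) (nat_lit 2) (.e (nat_lit 196666) (nat_lit 13) (.e (nat_lit 65617) (nat_lit 10) (.e (nat_lit 344132) (nat_lit 26) (.e (nat_lit 557094) (nat_lit 12) (.e (nat_lit 164022) (nat_lit 46) (.e (nat_lit 704629) (nat_lit 9) (.e (nat_lit 416) (nat_lit 32) .nil)))))))) (.g (nat_lit 1) (.e (nat_lit 298581) (nat_lit 0) .nil) .nil))))) 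
(.nd (nat_lit 8) (.nd (nat_lit 9) 
(.lf (nat_lit 551089) (.g (nat_lit 1683) (.e (nat_lit 426106) (nat_lit 1) (.e (nat_lit 164403) (nat_lit 256) (.e (nat_lit 57409) (nat_lit 12) (.e (nat_lit 336430) (nat_lit 29) (.e (nat_lit 442427) (nat_lit 23) .nil))))) (.g (nat_lit 0) (.e (nat_lit 296813) (nat_lit 0) .nil) .nil))) 
(.lf (nat_lit 551601) (.g (nat_lit 3593) (.e (nat_lit 426120) (nat_lit 2) (.e (nat_lit 196666) (nat_lit 13) (.e (nat_lit 65617) (nat_lit 10) (.e (nat_lit 344130) (nat_lit 26) (.e (nat_lit 557090) (nat_lit 12) (.e (nat_lit 164017) (nat_lit 44) (.e (nat_lit 688138) (nat_lit 5) (.e (nat_lit 2887) (nat_lit 184) .nil)))))))) (.g (nat_lit 1) (.e (nat_lit 298423) (nat_lit 0) .nil) .nil)))) 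
(.nd (nat_lit 9) 
(.lf (nat_lit 551345) (.g (nat_lit 1724) (.e (nat_lit 426108) (nat_lit 1) (.e (nat_lit 164403) (nat_lit 256) (.e (nat_lit 57371) (nat_lit 2) (.e (nat_lit 90176) (nat_lit 15) (.e (nat_lit 188423) (nat_lit 11) .nil))))) (.g (nat_lit 0) (.e (nat_lit 297530) (nat_lit 0) .nil) .nil))) 
(.lf (nat_lit 551857) (.g (nat_lit 595) (.e (nat_lit 426122) (nat_lit 2) (.e (nat_lit 196674) (nat_lit 15) (.e (nat_lit 81923) (nat_lit 0) .nil))) (.g (nat_lit 0) (.e (nat_lit 298761) (nat_lit 0) .nil) .nil)))))) (.nd (nat_lit 7) (.nd (nat_lit 8) (.nd (nat_lit 9) 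
(.lf (nat_lit 551025) (.g (nat_lit 1658) (.e (nat_lit 426106) (nat_lit 1) (.e (nat_lit 164179) (nat_lit 154) (.e (nat_lit 57406) (nat_lit 12) (.e (nat_lit 336316) (nat_lit 17) (.e (nat_lit 196674) (nat_lit 15) .nil))))) (.g (nat_lit 0) (.e (nat_lit 296706) (nat_lit 0) .nil) .nil))) 
(.lf (nat_lit 551537) (.g (nat_lit 3144) (.e (nat_lit 426114) (nat_lit 2) (.e (nat_lit 196654) (nat_lit 11) (.e (nat_lit 16416) (nat_lit 3) (.e (nat_lit 204809) (nat_lit 9) (.e (nat_lit 426139) (nat_lit 3) (.e (nat_lit 204813) (nat_lit 9) .nil)))))) (.g (nat_lit 1) (.e (nat_lit 298181) (nat_lit 0) .nil) .nil)))) (.nd (nat_lit 9) 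
(.lf (nat_lit 551281) (.g (nat_lit 2861) (.e (nat_lit 426108) (nat_lit 1) (.e (nat_lit 164330) (nat_lit 230) (.e (nat_lit 163867) (nat_lit 2) (.e (nat_lit 196654) (nat_lit 11) (.e (nat_lit 16466) (nat_lit 13) (.e (nat_lit 483336) (nat_lit 9) .nil)))))) (.g (nat_lit 1) (.e (nat_lit 297379) (nat_lit 0) .nil) .nil))) 
(.lf (nat_lit 551793) (.g (nat_lit 2148) (.e (nat_lit 426122) (nat_lit 2) (.e (nat_lit 196666) (nat_lit 13) (.e (nat_lit 65617) (nat_lit 10) (.e (nat_lit 344130) (nat_lit 26) (.e (nat_lit 557090) (nat_lit 12) (.e (nat_lit 164022) (nat_lit 46) (.e (nat_lit 704629) (nat_lit 9) (.e (nat_lit 388) (nat_lit 32) .nil)))))))) (.g (nat_lit 1) (.e (nat_lit 298677) (nat_lit 0) .nil) .nil))))) 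
(.nd (nat_lit 8) (.nd (nat_lit 9) 
(.lf (nat_lit 551153) (.g (nat_lit 2249) (.e (nat_lit 426107) (nat_lit 1) (.e (nat_lit 164326) (nat_lit 230) (.e (nat_lit 163867) (nat_lit 2) (.e (nat_lit 196656) (nat_lit 11) (.e (nat_lit 16466) (nat_lit 13) .nil))))) (.g (nat_lit 0) (.e (nat_lit 296978) (nat_lit 0) .nil) .nil))) 
(.lf (nat_lit 551665) (.g (nat_lit 3565) (.e (nat_lit 426121) (nat_lit 2) (.e (nat_lit 196666) (nat_lit 13) (.e (nat_lit 65617) (nat_lit 10) (.e (nat_lit 344130) (nat_lit 26) (.e (nat_lit 557090) (nat_lit 12) (.e (nat_lit 164022) (nat_lit 46) (.e (nat_lit 704629) (nat_lit 9) (.e (nat_lit 388) (nat_lit 32) .nil)))))))) (.g (nat_lit 1) (.e (nat_lit 298507) (nat_lit 0) .nil) .nil)))) 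
(.nd (nat_lit 9) 
(.lf (nat_lit 551409) (.g (nat_lit 2369) (.e (nat_lit 426109) (nat_lit 1) (.e (nat_lit 164348) (nat_lit 240) (.e (nat_lit 2610) (nat_lit 163) (.e (nat_lit 163979) (nat_lit 30) (.e (nat_lit 573482) (nat_lit 13) .nil))))) (.g (nat_lit 0) (.e (nat_lit 297769) (nat_lit 0) .nil) .nil))) 
(.lf (nat_lit 551921) (.g (nat_lit 2248) (.e (nat_lit 426123) (nat_lit 2) (.e (nat_lit 196666) (nat_lit 13) (.e (nat_lit 65610) (nat_lit 10) (.e (nat_lit 344129) (nat_lit 26) (.e (nat_lit 557090) (nat_lit 12) (.e (nat_lit 163847) (nat_lit 0) (.e (nat_lit 6416) (nat_lit 341) (.e (nat_lit 171776) (nat_lit 12) .nil)))))))) (.g (nat_lit 1) (.e (nat_lit 299046) (nat_lit 0) .nil) .nil))))))))) 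
(.nd (nat_lit 4) (.nd (nat_lit 5) (.nd (nat_lit 6) (.nd (nat_lit 7) (.nd (nat_lit 8) 
(.nd (nat_lit 9) 
(.lf (nat_lit 550921) (.g (nat_lit 2932) (.e (nat_lit 426100) (nat_lit 1) (.e (nat_lit 164403) (nat_lit 256) (.e (nat_lit 57377) (nat_lit 3) (.e (nat_lit 98365) (nat_lit 26) (.e (nat_lit 426327) (nat_lit 13) (.e (nat_lit 483341) (nat_lit 9) .nil)))))) (.g (nat_lit 1) (.e (nat_lit 296459) (nat_lit 0) .nil) .nil))) 
(.lf (nat_lit 551433) (.g (nat_lit 3007) (.e (nat_lit 426110) (nat_lit 1) (.e (nat_lit 164327) (nat_lit 230) (.e (nat_lit 163871) (nat_lit 2) (.e (nat_lit 196654) (nat_lit 11) (.e (nat_lit 16466) (nat_lit 13) (.e (nat_lit 491264) (nat_lit 9) .nil)))))) (.g (nat_lit 1) (.e (nat_lit 297858) (nat_lit 0) .nil) .nil)))) (.nd (nat_lit 9) 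
(.lf (nat_lit 551177) (.g (nat_lit 1537) (.e (nat_lit 426107) (nat_lit 1) (.e (nat_lit 164327) (nat_lit 230) (.e (nat_lit 163867) (nat_lit 2) (.e (nat_lit 196654) (nat_lit 11) .nil)))) (.g (nat_lit 0) (.e (nat_lit 297122) (nat_lit 0) .nil) .nil))) 
(.lf (nat_lit 551689) (.g (nat_lit 4050) (.e (nat_lit 426121) (nat_lit 2) (.e (nat_lit 196666) (nat_lit 13) (.e (nat_lit 65617) (nat_lit 10) (.e (nat_lit 344132) (nat_lit 26) (.e (nat_lit 557093) (nat_lit 12) (.e (nat_lit 164022) (nat_lit 46) (.e (nat_lit 704628) (nat_lit 9) (.e (nat_lit 391) (nat_lit 32) .nil)))))))) (.g (nat_lit 1) (.e (nat_lit 298531) (nat_lit 0) .nil) .nil))))) 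
(.nd (nat_lit 8) (.nd (nat_lit 9) 
(.lf (nat_lit 551049) (.g (nat_lit 2816) (.e (nat_lit 426106) (nat_lit 1) (.e (nat_lit 164326) (nat_lit 230) (.e (nat_lit 163868) (nat_lit 2) (.e (nat_lit 196654) (nat_lit 11) (.e (nat_lit 16466) (nat_lit 13) (.e (nat_lit 483341) (nat_lit 9) .nil)))))) (.g (nat_lit 1) (.e (nat_lit 296744) (nat_lit 0) .nil) .nil))) 
(.lf (nat_lit 551561) (.g (nat_lit 3531) (.e (nat_lit 426116) (nat_lit 2) (.e (nat_lit 196654) (nat_lit 11) (.e (nat_lit 16416) (nat_lit 3) (.e (nat_lit 204809) (nat_lit 9) (.e (nat_lit 426133) (nat_lit 3) (.e (nat_lit 204809) (nat_lit 9) .nil)))))) (.g (nat_lit 1) (.e (nat_lit 298299) (nat_lit 0) .nil) .nil)))) (.nd (nat_lit 9) 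
(.lf (nat_lit 551305) (.g (nat_lit 979) (.e (nat_lit 426108) (nat_lit 1) (.e (nat_lit 164330) (nat_lit 230) (.e (nat_lit 163874) (nat_lit 3) (.e (nat_lit 204813) (nat_lit 9) .nil)))) (.g (nat_lit 0) (.e (nat_lit 297418) (nat_lit 0) .nil) .nil))) 
(.lf (nat_lit 551817) (.g (nat_lit 2788) (.e (nat_lit 426122) (nat_lit 2) (.e (nat_lit 196666) (nat_lit 13) (.e (nat_lit 65617) (nat_lit 10) (.e (nat_lit 344132) (nat_lit 26) (.e (nat_lit 557093) (nat_lit 12) (.e (nat_lit 171776) (nat_lit 48) (.e (nat_lit 720908) (nat_lit 11) .nil))))))) (.g (nat_lit 1) (.e (nat_lit 298706) (nat_lit 0) .nil) .nil)))))) 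
(.nd (nat_lit 7) (.nd (nat_lit 8) (.nd (nat_lit 9) 
(.lf (nat_lit 550985) (.g (nat_lit 1867) (.e (nat_lit 426105) (nat_lit 1) (.e (nat_lit 164330) (nat_lit 230) (.e (nat_lit 163869) (nat_lit 2) (.e (nat_lit 196654) (nat_lit 11) .nil)))) (.g (nat_lit 0) (.e (nat_lit 296634) (nat_lit 0) .nil) .nil))) 
(.lf (nat_lit 551497) (.g (nat_lit 1377) (.e (nat_lit 433920) (nat_lit 1) (.e (nat_lit 164399) (nat_lit 256) (.e (nat_lit 57409) (nat_lit 12) (.e (nat_lit 336432) (nat_lit 30) (.e (nat_lit 450580) (nat_lit 5) .nil))))) (.g (nat_lit 0) (.e (nat_lit 298073) (nat_lit 0) .nil) .nil)))) (.nd (nat_lit 9) 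
(.lf (nat_lit 551241) (.g (nat_lit 3329) (.e (nat_lit 426107) (nat_lit 1) (.e (nat_lit 164403) (nat_lit 256) (.e (nat_lit 57377) (nat_lit 3) (.e (nat_lit 98365) (nat_lit 26) (.e (nat_lit 426325) (nat_lit 13) (.e (nat_lit 483341) (nat_lit 9) .nil)))))) (.g (nat_lit 1) (.e (nat_lit 297310) (nat_lit 0) .nil) .nil))) 
(.lf (nat_lit 551753) (.g (nat_lit 3806) (.e (nat_lit 426121) (nat_lit 2) (.e (nat_lit 196666) (nat_lit 13) (.e (nat_lit 65617) (nat_lit 10) (.e (nat_lit 344133) (nat_lit 26) (.e (nat_lit 557091) (nat_lit 12) (.e (nat_lit 164022) (nat_lit 46) (.e (nat_lit 704629) (nat_lit 9) (.e (nat_lit 388) (nat_lit 32) .nil)))))))) (.g (nat_lit 1) (.e (nat_lit 298607) (nat_lit 0) .nil) .nil))))) 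
(.nd (nat_lit 8) (.nd (nat_lit 9) 
(.lf (nat_lit 551113) (.g (nat_lit 1335) (.e (nat_lit 426107) (nat_lit 1) (.e (nat_lit 164322) (nat_lit 230) (.e (nat_lit 163867) (nat_lit 2) (.e (nat_lit 196656) (nat_lit 11) .nil)))) (.g (nat_lit 0) (.e (nat_lit 296854) (nat_lit 0) .nil) .nil))) 
(.lf (nat_lit 551625) (.g (nat_lit 2400) (.e (nat_lit 426120) (nat_lit 2) (.e (nat_lit 196666) (nat_lit 13) (.e (nat_lit 65617) (nat_lit 10) (.e (nat_lit 344133) (nat_lit 26) (.e (nat_lit 557091) (nat_lit 12) (.e (nat_lit 164022) (nat_lit 46) (.e (nat_lit 704626) (nat_lit 9) (.e (nat_lit 373) (nat_lit 32) .nil)))))))) (.g (nat_lit 1) (.e (nat_lit 298447) (nat_lit 0) .nil) .nil)))) 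
(.nd (nat_lit 9) 
(.lf (nat_lit 551369) (.g (nat_lit 1545) (.e (nat_lit 426109) (nat_lit 1) (.e (nat_lit 164322) (nat_lit 230) (.e (nat_lit 163878) (nat_lit 4) (.e (nat_lit 213032) (nat_lit 11) (.e (nat_lit 24660) (nat_lit 13) .nil))))) (.g (nat_lit 0) (.e (nat_lit 297613) (nat_lit 0) .nil) .nil))) 
(.lf (nat_lit 551881) (.g (nat_lit 4901) (.e (nat_lit 426123) (nat_lit 2) (.e (nat_lit 196666) (nat_lit 13) (.e (nat_lit 65610) (nat_lit 10) (.e (nat_lit 344117) (nat_lit 21) (.e (nat_lit 516097) (nat_lit 0) (.e (nat_lit 3358) (nat_lit 207) (.e (nat_lit 614423) (nat_lit 9) (.e (nat_lit 396) (nat_lit 32) .nil)))))))) (.g (nat_lit 1) (.e (nat_lit 298834) (nat_lit 0) .nil) .nil))))))) 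
(.nd (nat_lit 6) (.nd (nat_lit 7) (.nd (nat_lit 8) (.nd (nat_lit 9) 
(.lf (nat_lit 550953) (.g (nat_lit 2713) (.e (nat_lit 426105) (nat_lit 1) (.e (nat_lit 164179) (nat_lit 154) (.e (nat_lit 57411) (nat_lit 12) (.e (nat_lit 336316) (nat_lit 17) (.e (nat_lit 196674) (nat_lit 15) .nil))))) (.g (nat_lit 0) (.e (nat_lit 296570) (nat_lit 0) .nil) .nil))) 
(.lf (nat_lit 551465) (.g (nat_lit 2695) (.e (nat_lit 426112) (nat_lit 1) (.e (nat_lit 164327) (nat_lit 230) (.e (nat_lit 163871) (nat_lit 2) (.e (nat_lit 196656) (nat_lit 11) (.e (nat_lit 16465) (nat_lit 13) (.e (nat_lit 491264) (nat_lit 9) .nil)))))) (.g (nat_lit 1) (.e (nat_lit 297995) (nat_lit 0) .nil) .nil)))) (.nd (nat_lit 9) 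
(.lf (nat_lit 551209) (.g (nat_lit 1921) (.e (nat_lit 426107) (nat_lit 1) (.e (nat_lit 164327) (nat_lit 230) (.e (nat_lit 163875) (nat_lit 3) (.e (nat_lit 204811) (nat_lit 9) (.e (nat_lit 426260) (nat_lit 9) .nil))))) (.g (nat_lit 0) (.e (nat_lit 297190) (nat_lit 0) .nil) .nil))) 
(.lf (nat_lit 551721) (.g (nat_lit 2585) (.e (nat_lit 426121) (nat_lit 2) (.e (nat_lit 196666) (nat_lit 13) (.e (nat_lit 65617) (nat_lit 10) (.e (nat_lit 344132) (nat_lit 26) (.e (nat_lit 557094) (nat_lit 12) (.e (nat_lit 164022) (nat_lit 46) (.e (nat_lit 704628) (nat_lit 9) (.e (nat_lit 388) (nat_lit 32) .nil)))))))) (.g (nat_lit 1) (.e (nat_lit 298573) (nat_lit 0) .nil) .nil))))) 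
(.nd (nat_lit 8) (.nd (nat_lit 9) 
(.lf (nat_lit 551081) (.g (nat_lit 1673) (.e (nat_lit 426106) (nat_lit 1) (.e (nat_lit 164403) (nat_lit 256) (.e (nat_lit 57378) (nat_lit 3) (.e (nat_lit 98359) (nat_lit 26) .nil)))) (.g (nat_lit 0) (.e (nat_lit 296805) (nat_lit 0) .nil) .nil))) 
(.lf (nat_lit 551593) (.g (nat_lit 2509) (.e (nat_lit 426118) (nat_lit 2) (.e (nat_lit 196666) (nat_lit 13) (.e (nat_lit 65617) (nat_lit 10) (.e (nat_lit 344133) (nat_lit 26) (.e (nat_lit 557091) (nat_lit 12) .nil))))) (.g (nat_lit 0) (.e (nat_lit 298410) (nat_lit 0) .nil) .nil)))) (.nd (nat_lit 9) 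
(.lf (nat_lit 551337) (.g (nat_lit 1083) (.e (nat_lit 426108) (nat_lit 1) (.e (nat_lit 164402) (nat_lit 256) (.e (nat_lit 57406) (nat_lit 12) (.e (nat_lit 336434) (nat_lit 30) .nil)))) (.g (nat_lit 0) (.e (nat_lit 297519) (nat_lit 0) .nil) .nil))) 
(.lf (nat_lit 551849) (.g (nat_lit 2290) (.e (nat_lit 426122) (nat_lit 2) (.e (nat_lit 196666) (nat_lit 13) (.e (nat_lit 65623) (nat_lit 12) (.e (nat_lit 385068) (nat_lit 26) (.e (nat_lit 532513) (nat_lit 3) .nil))))) (.g (nat_lit 0) (.e (nat_lit 298743) (nat_lit 0) .nil) .nil)))))) (.nd (nat_lit 7) (.nd (nat_lit 8) (.nd (nat_lit 9) 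
(.lf (nat_lit 551017) (.g (nat_lit 1767) (.e (nat_lit 426105) (nat_lit 1) (.e (nat_lit 164403) (nat_lit 256) (.e (nat_lit 57406) (nat_lit 12) (.e (nat_lit 336434) (nat_lit 30) (.e (nat_lit 450579) (nat_lit 5) .nil))))) (.g (nat_lit 0) (.e (nat_lit 296690) (nat_lit 0) .nil) .nil))) 
(.lf (nat_lit 551529) (.g (nat_lit 2117) (.e (nat_lit 426113) (nat_lit 2) (.e (nat_lit 196666) (nat_lit 13) (.e (nat_lit 65617) (nat_lit 10) (.e (nat_lit 344133) (nat_lit 26) (.e (nat_lit 557089) (nat_lit 12) .nil))))) (.g (nat_lit 0) (.e (nat_lit 298120) (nat_lit 0) .nil) .nil)))) (.nd (nat_lit 9) 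
(.lf (nat_lit 551273) (.g (nat_lit 2409) (.e (nat_lit 426108) (nat_lit 1) (.e (nat_lit 164329) (nat_lit 230) (.e (nat_lit 163867) (nat_lit 2) (.e (nat_lit 196656) (nat_lit 11) (.e (nat_lit 16466) (nat_lit 13) (.e (nat_lit 483340) (nat_lit 9) .nil)))))) (.g (nat_lit 1) (.e (nat_lit 297362) (nat_lit 0) .nil) .nil))) 
(.lf (nat_lit 551785) (.g (nat_lit 2115) (.e (nat_lit 426122) (nat_lit 2) (.e (nat_lit 196666) (nat_lit 13) (.e (nat_lit 65617) (nat_lit 10) (.e (nat_lit 344130) (nat_lit 26) (.e (nat_lit 557090) (nat_lit 12) (.e (nat_lit 164022) (nat_lit 46) (.e (nat_lit 704626) (nat_lit 9) (.e (nat_lit 435) (nat_lit 32) .nil)))))))) (.g (nat_lit 1) (.e (nat_lit 298669) (nat_lit 0) .nil) .nil))))) 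
(.nd (nat_lit 8) (.nd (nat_lit 9) 
(.lf (nat_lit 551145) (.g (nat_lit 1434) (.e (nat_lit 426107) (nat_lit 1) (.e (nat_lit 164325) (nat_lit 230) (.e (nat_lit 163874) (nat_lit 3) (.e (nat_lit 204811) (nat_lit 9) .nil)))) (.g (nat_lit 0) (.e (nat_lit 296952) (nat_lit 0) .nil) .nil))) 
(.lf (nat_lit 551657) (.g (nat_lit 3542) (.e (nat_lit 426121) (nat_lit 2) (.e (nat_lit 196666) (nat_lit 13) (.e (nat_lit 65617) (nat_lit 10) (.e (nat_lit 344130) (nat_lit 26) (.e (nat_lit 557090) (nat_lit 12) (.e (nat_lit 164022) (nat_lit 46) (.e (nat_lit 704627) (nat_lit 9) (.e (nat_lit 391) (nat_lit 32) .nil)))))))) (.g (nat_lit 1) (.e (nat_lit 298499) (nat_lit 0) .nil) .nil)))) 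
(.nd (nat_lit 9) 
(.lf (nat_lit 551401) (.g (nat_lit 2101) (.e (nat_lit 426109) (nat_lit 1) (.e (nat_lit 164347) (nat_lit 240) (.e (nat_lit 2638) (nat_lit 165) (.e (nat_lit 180278) (nat_lit 32) (.e (nat_lit 1660) (nat_lit 115) (.e (nat_lit 393277) (nat_lit 23) .nil)))))) (.g (nat_lit 1) (.e (nat_lit 297739) (nat_lit 0) .nil) .nil))) 
(.lf (nat_lit 551913) (.g (nat_lit 2368) (.e (nat_lit 426123) (nat_lit 2) (.e (nat_lit 196666) (nat_lit 13) (.e (nat_lit 65610) (nat_lit 10) (.e (nat_lit 344129) (nat_lit 26) (.e (nat_lit 557090) (nat_lit 12) (.e (nat_lit 163843) (nat_lit 0) (.e (nat_lit 6254) (nat_lit 337) (.e (nat_lit 2420) (nat_lit 157) (.e (nat_lit 2949) (nat_lit 184) .nil))))))))) (.g (nat_lit 1) (.e (nat_lit 299027) (nat_lit 0) .nil) .nil)))))))) 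
(.nd (nat_lit 5) (.nd (nat_lit 6) (.nd (nat_lit 7) (.nd (nat_lit 8) (.nd (nat_lit 9) 
(.lf (nat_lit 550937) (.g (nat_lit 1666) (.e (nat_lit 426103) (nat_lit 1) (.e (nat_lit 164347) (nat_lit 240) (.e (nat_lit 2638) (nat_lit 165) (.e (nat_lit 180277) (nat_lit 32) (.e (nat_lit 1660) (nat_lit 115) .nil))))) (.g (nat_lit 0) (.e (nat_lit 296487) (nat_lit 0) .nil) .nil))) 
(.lf (nat_lit 551449) (.g (nat_lit 1918) (.e (nat_lit 426110) (nat_lit 1) (.e (nat_lit 164348) (nat_lit 240) (.e (nat_lit 2638) (nat_lit 165) (.e (nat_lit 180278) (nat_lit 32) (.e (nat_lit 1658) (nat_lit 115) (.e (nat_lit 393279) (nat_lit 23) .nil)))))) (.g (nat_lit 1) (.e (nat_lit 297939) (nat_lit 0) .nil) .nil)))) (.nd (nat_lit 9) 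
(.lf (nat_lit 551193) (.g (nat_lit 1710) (.e (nat_lit 426107) (nat_lit 1) (.e (nat_lit 164327) (nat_lit 230) (.e (nat_lit 163873) (nat_lit 3) (.e (nat_lit 204809) (nat_lit 9) (.e (nat_lit 426213) (nat_lit 9) .nil))))) (.g (nat_lit 0) (.e (nat_lit 297155) (nat_lit 0) .nil) .nil))) 
(.lf (nat_lit 551705) (.g (nat_lit 2908) (.e (nat_lit 426121) (nat_lit 2) (.e (nat_lit 196666) (nat_lit 13) (.e (nat_lit 65617) (nat_lit 10) (.e (nat_lit 344132) (nat_lit 26) (.e (nat_lit 557093) (nat_lit 12) (.e (nat_lit 164023) (nat_lit 46) (.e (nat_lit 704627) (nat_lit 9) (.e (nat_lit 416) (nat_lit 32) .nil)))))))) (.g (nat_lit 1) (.e (nat_lit 298548) (nat_lit 0) .nil) .nil))))) 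
(.nd (nat_lit 8) (.nd (nat_lit 9) 
(.lf (nat_lit 551065) (.g (nat_lit 2279) (.e (nat_lit 426106) (nat_lit 1) (.e (nat_lit 164332) (nat_lit 230) (.e (nat_lit 163867) (nat_lit 2) (.e (nat_lit 196652) (nat_lit 11) .nil)))) (.g (nat_lit 0) (.e (nat_lit 296766) (nat_lit 0) .nil) .nil))) 
(.lf (nat_lit 551577) (.g (nat_lit 2546) (.e (nat_lit 426117) (nat_lit 2) (.e (nat_lit 196666) (nat_lit 13) (.e (nat_lit 65610) (nat_lit 10) (.e (nat_lit 344129) (nat_lit 26) (.e (nat_lit 557090) (nat_lit 12) .nil))))) (.g (nat_lit 0) (.e (nat_lit 298388) (nat_lit 0) .nil) .nil)))) (.nd (nat_lit 9) 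
(.lf (nat_lit 551321) (.g (nat_lit 3659) (.e (nat_lit 426108) (nat_lit 1) (.e (nat_lit 164332) (nat_lit 230) (.e (nat_lit 163869) (nat_lit 2) (.e (nat_lit 196656) (nat_lit 11) (.e (nat_lit 16463) (nat_lit 13) (.e (nat_lit 483336) (nat_lit 9) .nil)))))) (.g (nat_lit 1) (.e (nat_lit 297489) (nat_lit 0) .nil) .nil))) 
(.lf (nat_lit 551833) (.g (nat_lit 2193) (.e (nat_lit 426122) (nat_lit 2) (.e (nat_lit 196666) (nat_lit 13) (.e (nat_lit 65617) (nat_lit 10) (.e (nat_lit 344133) (nat_lit 26) (.e (nat_lit 557091) (nat_lit 12) (.e (nat_lit 164022) (nat_lit 46) (.e (nat_lit 704626) (nat_lit 9) (.e (nat_lit 396) (nat_lit 32) .nil)))))))) (.g (nat_lit 1) (.e (nat_lit 298722) (nat_lit 0) .nil) .nil)))))) 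
(.nd (nat_lit 7) (.nd (nat_lit 8) (.nd (nat_lit 9) 
(.lf (nat_lit 551001) (.g (nat_lit 2725) (.e (nat_lit 426105) (nat_lit 1) (.e (nat_lit 164332) (nat_lit 230) (.e (nat_lit 163869) (nat_lit 2) (.e (nat_lit 196656) (nat_lit 11) (.e (nat_lit 16466) (nat_lit 13) .nil))))) (.g (nat_lit 0) (.e (nat_lit 296669) (nat_lit 0) .nil) .nil))) 
(.lf (nat_lit 551513) (.g (nat_lit 1522) (.e (nat_lit 433920) (nat_lit 1) (.e (nat_lit 164403) (nat_lit 256) (.e (nat_lit 57409) (nat_lit 12) (.e (nat_lit 336443) (nat_lit 32) (.e (nat_lit 466981) (nat_lit 23) .nil))))) (.g (nat_lit 0) (.e (nat_lit 298089) (nat_lit 0) .nil) .nil)))) (.nd (nat_lit 9) 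
(.lf (nat_lit 551257) (.g (nat_lit 1583) (.e (nat_lit 426108) (nat_lit 1) (.e (nat_lit 164182) (nat_lit 154) (.e (nat_lit 57409) (nat_lit 12) (.e (nat_lit 336324) (nat_lit 18) .nil)))) (.g (nat_lit 0) (.e (nat_lit 297326) (nat_lit 0) .nil) .nil))) 
(.lf (nat_lit 551769) (.g (nat_lit 1240) (.e (nat_lit 426122) (nat_lit 2) (.e (nat_lit 196661) (nat_lit 12) (.e (nat_lit 57740) (nat_lit 187) (.e (nat_lit 1638) (nat_lit 114) (.e (nat_lit 385067) (nat_lit 26) .nil))))) (.g (nat_lit 0) (.e (nat_lit 298645) (nat_lit 0) .nil) .nil))))) (.nd (nat_lit 8) (.nd (nat_lit 9) 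
(.lf (nat_lit 551129) (.g (nat_lit 2905) (.e (nat_lit 426107) (nat_lit 1) (.e (nat_lit 164325) (nat_lit 230) (.e (nat_lit 163869) (nat_lit 2) (.e (nat_lit 196656) (nat_lit 11) (.e (nat_lit 16463) (nat_lit 13) (.e (nat_lit 483337) (nat_lit 9) .nil)))))) (.g (nat_lit 1) (.e (nat_lit 296920) (nat_lit 0) .nil) .nil))) 
(.lf (nat_lit 551641) (.g (nat_lit 1085) (.e (nat_lit 426121) (nat_lit 2) (.e (nat_lit 196666) (nat_lit 13) (.e (nat_lit 65610) (nat_lit 10) (.e (nat_lit 344129) (nat_lit 26) .nil)))) (.g (nat_lit 0) (.e (nat_lit 298483) (nat_lit 0) .nil) .nil)))) (.nd (nat_lit 9) 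
(.lf (nat_lit 551385) (.g (nat_lit 1277) (.e (nat_lit 426109) (nat_lit 1) (.e (nat_lit 164319) (nat_lit 228) (.e (nat_lit 57424) (nat_lit 14) (.e (nat_lit 352280) (nat_lit 20) .nil)))) (.g (nat_lit 0) (.e (nat_lit 297661) (nat_lit 0) .nil) .nil))) 
(.lf (nat_lit 551897) (.g (nat_lit 3791) (.e (nat_lit 426123) (nat_lit 2) (.e (nat_lit 196666) (nat_lit 13) (.e (nat_lit 65610) (nat_lit 10) (.e (nat_lit 344129) (nat_lit 26) (.e (nat_lit 557067) (nat_lit 9) (.e (nat_lit 2743) (nat_lit 174) (.e (nat_lit 253959) (nat_lit 9) (.e (nat_lit 396) (nat_lit 32) .nil)))))))) (.g (nat_lit 1) (.e (nat_lit 298994) (nat_lit 0) .nil) .nil))))))) 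
(.nd (nat_lit 6) (.nd (nat_lit 7) (.nd (nat_lit 8) (.nd (nat_lit 9) 
(.lf (nat_lit 550969) (.g (nat_lit 1188) (.e (nat_lit 426105) (nat_lit 1) (.e (nat_lit 164325) (nat_lit 230) (.e (nat_lit 163871) (nat_lit 2) (.e (nat_lit 196656) (nat_lit 11) .nil)))) (.g (nat_lit 0) (.e (nat_lit 296598) (nat_lit 0) .nil) .nil))) 
(.lf (nat_lit 551481) (.g (nat_lit 1578) (.e (nat_lit 433920) (nat_lit 1) (.e (nat_lit 164399) (nat_lit 256) (.e (nat_lit 57377) (nat_lit 3) (.e (nat_lit 98365) (nat_lit 26) (.e (nat_lit 426325) (nat_lit 13) .nil))))) (.g (nat_lit 0) (.e (nat_lit 298057) (nat_lit 0) .nil) .nil)))) (.nd (nat_lit 9) 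
(.lf (nat_lit 551225) (.g (nat_lit 1381) (.e (nat_lit 426107) (nat_lit 1) (.e (nat_lit 164401) (nat_lit 256) (.e (nat_lit 57377) (nat_lit 3) (.e (nat_lit 98362) (nat_lit 26) .nil)))) (.g (nat_lit 0) (.e (nat_lit 297291) (nat_lit 0) .nil) .nil))) 
(.lf (nat_lit 551737) (.g (nat_lit 2805) (.e (nat_lit 426121) (nat_lit 2) (.e (nat_lit 196666) (nat_lit 13) (.e (nat_lit 65617) (nat_lit 10) (.e (nat_lit 344133) (nat_lit 26) (.e (nat_lit 557089) (nat_lit 12) (.e (nat_lit 171776) (nat_lit 48) (.e (nat_lit 720909) (nat_lit 11) .nil))))))) (.g (nat_lit 1) (.e (nat_lit 298589) (nat_lit 0) .nil) .nil))))) (.nd (nat_lit 8) (.nd (nat_lit 9) 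
(.lf (nat_lit 551097) (.g (nat_lit 1472) (.e (nat_lit 426107) (nat_lit 1) (.e (nat_lit 164179) (nat_lit 154) (.e (nat_lit 57409) (nat_lit 12) (.e (nat_lit 336324) (nat_lit 18) .nil)))) (.g (nat_lit 0) (.e (nat_lit 296832) (nat_lit 0) .nil) .nil))) 
(.lf (nat_lit 551609) (.g (nat_lit 2399) (.e (nat_lit 426120) (nat_lit 2) (.e (nat_lit 196666) (nat_lit 13) (.e (nat_lit 65617) (nat_lit 10) (.e (nat_lit 344130) (nat_lit 26) (.e (nat_lit 557090) (nat_lit 12) (.e (nat_lit 171776) (nat_lit 49) (.e (nat_lit 729095) (nat_lit 11) .nil))))))) (.g (nat_lit 1) (.e (nat_lit 298431) (nat_lit 0) .nil) .nil)))) (.nd (nat_lit 9) 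
(.lf (nat_lit 551353) (.g (nat_lit 1683) (.e (nat_lit 426108) (nat_lit 1) (.e (nat_lit 164403) (nat_lit 256) (.e (nat_lit 57378) (nat_lit 3) (.e (nat_lit 98354) (nat_lit 26) .nil)))) (.g (nat_lit 0) (.e (nat_lit 297538) (nat_lit 0) .nil) .nil))) 
(.lf (nat_lit 551865) (.g (nat_lit 2249) (.e (nat_lit 426122) (nat_lit 2) (.e (nat_lit 196681) (nat_lit 17) (.e (nat_lit 131123) (nat_lit 12) (.e (nat_lit 385066) (nat_lit 26) (.e (nat_lit 532515) (nat_lit 3) (.e (nat_lit 114698) (nat_lit 11) .nil)))))) (.g (nat_lit 1) (.e (nat_lit 298770) (nat_lit 0) .nil) .nil)))))) (.nd (nat_lit 7) (.nd (nat_lit 8) (.nd (nat_lit 9) 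
(.lf (nat_lit 551033) (.g (nat_lit 565) (.e (nat_lit 426106) (nat_lit 1) (.e (nat_lit 164179) (nat_lit 154) (.e (nat_lit 65280) (nat_lit 12) .nil))) (.g (nat_lit 0) (.e (nat_lit 296714) (nat_lit 0) .nil) .nil))) 
(.lf (nat_lit 551545) (.g (nat_lit 2370) (.e (nat_lit 426114) (nat_lit 2) (.e (nat_lit 196681) (nat_lit 17) (.e (nat_lit 131120) (nat_lit 12) (.e (nat_lit 385066) (nat_lit 26) (.e (nat_lit 532515) (nat_lit 3) (.e (nat_lit 114698) (nat_lit 11) .nil)))))) (.g (nat_lit 1) (.e (nat_lit 298215) (nat_lit 0) .nil) .nil)))) (.nd (nat_lit 9) 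
(.lf (nat_lit 551289) (.g (nat_lit 2723) (.e (nat_lit 426108) (nat_lit 1) (.e (nat_lit 164330) (nat_lit 230) (.e (nat_lit 163869) (nat_lit 2) (.e (nat_lit 196654) (nat_lit 11) (.e (nat_lit 16436) (nat_lit 9) (.e (nat_lit 426481) (nat_lit 27) (.e (nat_lit 336388) (nat_lit 27) .nil))))))) (.g (nat_lit 1) (.e (nat_lit 297393) (nat_lit 0) .nil) .nil))) 
(.lf (nat_lit 551801) (.g (nat_lit 2486) (.e (nat_lit 426122) (nat_lit 2) (.e (nat_lit 196666) (nat_lit 13) (.e (nat_lit 65617) (nat_lit 10) (.e (nat_lit 344132) (nat_lit 26) (.e (nat_lit 557093) (nat_lit 12) (.e (nat_lit 164022) (nat_lit 46) (.e (nat_lit 704626) (nat_lit 9) (.e (nat_lit 391) (nat_lit 32) .nil)))))))) (.g (nat_lit 1) (.e (nat_lit 298685) (nat_lit 0) .nil) .nil))))) 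
(.nd (nat_lit 8) (.nd (nat_lit 9) 
(.lf (nat_lit 551161) (.g (nat_lit 2284) (.e (nat_lit 426107) (nat_lit 1) (.e (nat_lit 164326) (nat_lit 230) (.e (nat_lit 163869) (nat_lit 2) (.e (nat_lit 196656) (nat_lit 11) (.e (nat_lit 16463) (nat_lit 13) .nil))))) (.g (nat_lit 0) (.e (nat_lit 297018) (nat_lit 0) .nil) .nil))) 
(.lf (nat_lit 551673) (.g (nat_lit 3645) (.e (nat_lit 426121) (nat_lit 2) (.e (nat_lit 196666) (nat_lit 13) (.e (nat_lit 65617) (nat_lit 10) (.e (nat_lit 344130) (nat_lit 26) (.e (nat_lit 557090) (nat_lit 12) (.e (nat_lit 171776) (nat_lit 48) (.e (nat_lit 720909) (nat_lit 11) .nil))))))) (.g (nat_lit 1) (.e (nat_lit 298515) (nat_lit 0) .nil) .nil)))) (.nd (nat_lit 9) 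
(.lf (nat_lit 551417) (.g (nat_lit 3468) (.e (nat_lit 426110) (nat_lit 1) (.e (nat_lit 164327) (nat_lit 230) (.e (nat_lit 163868) (nat_lit 2) (.e (nat_lit 196654) (nat_lit 11) (.e (nat_lit 16466) (nat_lit 13) (.e (nat_lit 483338) (nat_lit 9) .nil)))))) (.g (nat_lit 1) (.e (nat_lit 297821) (nat_lit 0) .nil) .nil))) 
(.lf (nat_lit 551929) (.g (nat_lit 2915) (.e (nat_lit 426123) (nat_lit 2) (.e (nat_lit 196666) (nat_lit 13) (.e (nat_lit 65610) (nat_lit 10) (.e (nat_lit 344129) (nat_lit 26) (.e (nat_lit 557090) (nat_lit 12) (.e (nat_lit 163852) (nat_lit 0) (.e (nat_lit 6426) (nat_lit 342) (.e (nat_lit 237312) (nat_lit 12) .nil)))))))) (.g (nat_lit 1) (.e (nat_lit 299054) (nat_lit 0) .nil) .nil)))))))))) 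
(.nd (nat_lit 3) (.nd (nat_lit 4) (.nd (nat_lit 5) (.nd (nat_lit 6) (.nd (nat_lit 7) 
(.nd (nat_lit 8) (.nd (nat_lit 9) 
(.lf (nat_lit 550917) (.g (nat_lit 1328) (.e (nat_lit 426100) (nat_lit 1) (.e (nat_lit 164403) (nat_lit 256) (.e (nat_lit 57371) (nat_lit 2) (.e (nat_lit 90169) (nat_lit 13) .nil)))) (.g (nat_lit 0) (.e (nat_lit 296455) (nat_lit 0) .nil) .nil))) 
(.lf (nat_lit 551429) (.g (nat_lit 3452) (.e (nat_lit 426110) (nat_lit 1) (.e (nat_lit 164327) (nat_lit 230) (.e (nat_lit 163871) (nat_lit 2) (.e (nat_lit 196654) (nat_lit 11) (.e (nat_lit 16463) (nat_lit 13) (.e (nat_lit 483338) (nat_lit 9) .nil)))))) (.g (nat_lit 1) (.e (nat_lit 297851) (nat_lit 0) .nil) .nil)))) (.nd (nat_lit 9) 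
(.lf (nat_lit 551173) (.g (nat_lit 2724) (.e (nat_lit 426107) (nat_lit 1) (.e (nat_lit 164326) (nat_lit 230) (.e (nat_lit 163873) (nat_lit 3) (.e (nat_lit 204813) (nat_lit 9) (.e (nat_lit 426190) (nat_lit 9) (.e (nat_lit 426491) (nat_lit 27) (.e (nat_lit 336407) (nat_lit 27) .nil))))))) (.g (nat_lit 1) (.e (nat_lit 297101) (nat_lit 0) .nil) .nil))) 
(.lf (nat_lit 551685) (.g (nat_lit 3828) (.e (nat_lit 426121) (nat_lit 2) (.e (nat_lit 196666) (nat_lit 13) (.e (nat_lit 65617) (nat_lit 10) (.e (nat_lit 344132) (nat_lit 26) (.e (nat_lit 557093) (nat_lit 12) (.e (nat_lit 164022) (nat_lit 46) (.e (nat_lit 704627) (nat_lit 9) (.e (nat_lit 416) (nat_lit 32) .nil)))))))) (.g (nat_lit 1) (.e (nat_lit 298527) (nat_lit 0) .nil) .nil))))) 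
(.nd (nat_lit 8) (.nd (nat_lit 9) 
(.lf (nat_lit 551045) (.g (nat_lit 3076) (.e (nat_lit 426106) (nat_lit 1) (.e (nat_lit 164322) (nat_lit 230) (.e (nat_lit 163868) (nat_lit 2) (.e (nat_lit 196656) (nat_lit 11) (.e (nat_lit 16466) (nat_lit 13) (.e (nat_lit 483341) (nat_lit 9) .nil)))))) (.g (nat_lit 1) (.e (nat_lit 296728) (nat_lit 0) .nil) .nil))) 
(.lf (nat_lit 551557) (.g (nat_lit 2813) (.e (nat_lit 426115) (nat_lit 2) (.e (nat_lit 196666) (nat_lit 13) (.e (nat_lit 65610) (nat_lit 10) (.e (nat_lit 344129) (nat_lit 26) .nil)))) (.g (nat_lit 0) (.e (nat_lit 298243) (nat_lit 0) .nil) .nil)))) (.nd (nat_lit 9) 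
(.lf (nat_lit 551301) (.g (nat_lit 4236) (.e (nat_lit 426108) (nat_lit 1) (.e (nat_lit 164330) (nat_lit 230) (.e (nat_lit 163873) (nat_lit 3) (.e (nat_lit 204813) (nat_lit 9) (.e (nat_lit 426199) (nat_lit 9) (.e (nat_lit 426481) (nat_lit 27) (.e (nat_lit 336388) (nat_lit 27) .nil))))))) (.g (nat_lit 1) (.e (nat_lit 297410) (nat_lit 0) .nil) .nil))) 
(.lf (nat_lit 551813) (.g (nat_lit 2543) (.e (nat_lit 426122) (nat_lit 2) (.e (nat_lit 196666) (nat_lit 13) (.e (nat_lit 65617) (nat_lit 10) (.e (nat_lit 344132) (nat_lit 26) (.e (nat_lit 557093) (nat_lit 12) (.e (nat_lit 164023) (nat_lit 46) (.e (nat_lit 704626) (nat_lit 9) (.e (nat_lit 391) (nat_lit 32) .nil)))))))) (.g (nat_lit 1) (.e (nat_lit 298697) (nat_lit 0) .nil) .nil)))))) 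
(.nd (nat_lit 7) (.nd (nat_lit 8) (.nd (nat_lit 9) 
(.lf (nat_lit 550981) (.g (nat_lit 1278) (.e (nat_lit 426105) (nat_lit 1) (.e (nat_lit 164327) (nat_lit 230) (.e (nat_lit 163873) (nat_lit 3) (.e (nat_lit 204813) (nat_lit 9) .nil)))) (.g (nat_lit 0) (.e (nat_lit 296623) (nat_lit 0) .nil) .nil))) 
(.lf (nat_lit 551493) (.g (nat_lit 1796) (.e (nat_lit 433920) (nat_lit 1) (.e (nat_lit 164399) (nat_lit 256) (.e (nat_lit 57407) (nat_lit 12) (.e (nat_lit 336434) (nat_lit 30) .nil)))) (.g (nat_lit 0) (.e (nat_lit 298069) (nat_lit 0) .nil) .nil)))) (.nd (nat_lit 9) 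
(.lf (nat_lit 551237) (.g (nat_lit 1624) (.e (nat_lit 426107) (nat_lit 1) (.e (nat_lit 164403) (nat_lit 256) (.e (nat_lit 57371) (nat_lit 2) (.e (nat_lit 90186) (nat_lit 17) (.e (nat_lit 237624) (nat_lit 13) .nil))))) (.g (nat_lit 0) (.e (nat_lit 297306) (nat_lit 0) .nil) .nil))) 
(.lf (nat_lit 551749) (.g (nat_lit 4429) (.e (nat_lit 426121) (nat_lit 2) (.e (nat_lit 196666) (nat_lit 13) (.e (nat_lit 65617) (nat_lit 10) (.e (nat_lit 344133) (nat_lit 26) (.e (nat_lit 557091) (nat_lit 12) (.e (nat_lit 164022) (nat_lit 46) (.e (nat_lit 704628) (nat_lit 9) (.e (nat_lit 398) (nat_lit 32) .nil)))))))) (.g (nat_lit 1) (.e (nat_lit 298603) (nat_lit 0) .nil) .nil))))) 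
(.nd (nat_lit 8) (.nd (nat_lit 9) 
(.lf (nat_lit 551109) (.g (nat_lit 1661) (.e (nat_lit 426107) (nat_lit 1) (.e (nat_lit 164182) (nat_lit 154) (.e (nat_lit 57410) (nat_lit 12) (.e (nat_lit 336316) (nat_lit 17) (.e (nat_lit 196674) (nat_lit 15) .nil))))) (.g (nat_lit 0) (.e (nat_lit 296848) (nat_lit 0) .nil) .nil))) 
(.lf (nat_lit 551621) (.g (nat_lit 2313) (.e (nat_lit 426120) (nat_lit 2) (.e (nat_lit 196666) (nat_lit 13) (.e (nat_lit 65617) (nat_lit 10) (.e (nat_lit 344133) (nat_lit 26) (.e (nat_lit 557089) (nat_lit 12) .nil))))) (.g (nat_lit 0) (.e (nat_lit 298443) (nat_lit 0) .nil) .nil)))) (.nd (nat_lit 9) 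
(.lf (nat_lit 551365) (.g (nat_lit 2526) (.e (nat_lit 426109) (nat_lit 1) (.e (nat_lit 164187) (nat_lit 157) (.e (nat_lit 229415) (nat_lit 15) (.e (nat_lit 450563) (nat_lit 0) (.e (nat_lit 6058) (nat_lit 327) .nil))))) (.g (nat_lit 0) (.e (nat_lit 297561) (nat_lit 0) .nil) .nil))) 
(.lf (nat_lit 551877) (.g (nat_lit 407) (.e (nat_lit 426123) (nat_lit 2) (.e (nat_lit 196666) (nat_lit 13) (.e (nat_lit 65610) (nat_lit 10) .nil))) (.g (nat_lit 0) (.e (nat_lit 298808) (nat_lit 0) .nil) .nil))))))) (.nd (nat_lit 6) (.nd (nat_lit 7) (.nd (nat_lit 8) (.nd (nat_lit 9) 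
(.lf (nat_lit 550949) (.g (nat_lit 593) (.e (nat_lit 426105) (nat_lit 1) (.e (nat_lit 164179) (nat_lit 154) (.e (nat_lit 57407) (nat_lit 12) .nil))) (.g (nat_lit 0) (.e (nat_lit 296564) (nat_lit 0) .nil) .nil))) 
(.lf (nat_lit 551461) (.g (nat_lit 1496) (.e (nat_lit 426112) (nat_lit 1) (.e (nat_lit 164327) (nat_lit 230) (.e (nat_lit 163868) (nat_lit 2) (.e (nat_lit 196655) (nat_lit 11) .nil)))) (.g (nat_lit 0) (.e (nat_lit 297983) (nat_lit 0) .nil) .nil)))) (.nd (nat_lit 9) 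
(.lf (nat_lit 551205) (.g (nat_lit 700) (.e (nat_lit 426107) (nat_lit 1) (.e (nat_lit 164327) (nat_lit 230) (.e (nat_lit 163874) (nat_lit 3) .nil))) (.g (nat_lit 0) (.e (nat_lit 297177) (nat_lit 0) .nil) .nil))) 
(.lf (nat_lit 551717) (.g (nat_lit 2997) (.e (nat_lit 426121) (nat_lit 2) (.e (nat_lit 196666) (nat_lit 13) (.e (nat_lit 65617) (nat_lit 10) (.e (nat_lit 344132) (nat_lit 26) (.e (nat_lit 557094) (nat_lit 12) (.e (nat_lit 164022) (nat_lit 46) (.e (nat_lit 704627) (nat_lit 9) (.e (nat_lit 391) (nat_lit 32) .nil)))))))) (.g (nat_lit 1) (.e (nat_lit 298569) (nat_lit 0) .nil) .nil))))) 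
(.nd (nat_lit 8) (.nd (nat_lit 9) 
(.lf (nat_lit 551077) (.g (nat_lit 899) (.e (nat_lit 426106) (nat_lit 1) (.e (nat_lit 164401) (nat_lit 256) (.e (nat_lit 57373) (nat_lit 2) (.e (nat_lit 90185) (nat_lit 17) .nil)))) (.g (nat_lit 0) (.e (nat_lit 296801) (nat_lit 0) .nil) .nil))) 
(.lf (nat_lit 551589) (.g (nat_lit 2660) (.e (nat_lit 426117) (nat_lit 2) (.e (nat_lit 196666) (nat_lit 13) (.e (nat_lit 65617) (nat_lit 10) (.e (nat_lit 344133) (nat_lit 26) (.e (nat_lit 557091) (nat_lit 12) (.e (nat_lit 164017) (nat_lit 44) (.e (nat_lit 688139) (nat_lit 5) (.e (nat_lit 2887) (nat_lit 184) .nil)))))))) (.g (nat_lit 1) (.e (nat_lit 298400) (nat_lit 0) .nil) .nil)))) 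
(.nd (nat_lit 9) 
(.lf (nat_lit 551333) (.g (nat_lit 1043) (.e (nat_lit 426108) (nat_lit 1) (.e (nat_lit 164396) (nat_lit 256) (.e (nat_lit 57406) (nat_lit 12) (.e (nat_lit 336432) (nat_lit 30) .nil)))) (.g (nat_lit 0) (.e (nat_lit 297515) (nat_lit 0) .nil) .nil))) 
(.lf (nat_lit 551845) (.g (nat_lit 2829) (.e (nat_lit 426122) (nat_lit 2) (.e (nat_lit 196666) (nat_lit 13) (.e (nat_lit 65617) (nat_lit 10) (.e (nat_lit 344133) (nat_lit 26) (.e (nat_lit 557091) (nat_lit 12) (.e (nat_lit 164022) (nat_lit 46) (.e (nat_lit 704629) (nat_lit 9) (.e (nat_lit 398) (nat_lit 32) .nil)))))))) (.g (nat_lit 1) (.e (nat_lit 298734) (nat_lit 0) .nil) .nil)))))) 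
(.nd (nat_lit 7) (.nd (nat_lit 8) (.nd (nat_lit 9) 
(.lf (nat_lit 551013) (.g (nat_lit 503) (.e (nat_lit 426105) (nat_lit 1) (.e (nat_lit 164403) (nat_lit 256) (.e (nat_lit 57378) (nat_lit 3) .nil))) (.g (nat_lit 0) (.e (nat_lit 296686) (nat_lit 0) .nil) .nil))) 
(.lf (nat_lit 551525) (.g (nat_lit 3650) (.e (nat_lit 426113) (nat_lit 2) (.e (nat_lit 196666) (nat_lit 13) (.e (nat_lit 65617) (nat_lit 10) (.e (nat_lit 344130) (nat_lit 26) (.e (nat_lit 557090) (nat_lit 12) (.e (nat_lit 164017) (nat_lit 44) (.e (nat_lit 688139) (nat_lit 5) (.e (nat_lit 2887) (nat_lit 184) .nil)))))))) (.g (nat_lit 1) (.e (nat_lit 298114) (nat_lit 0) .nil) .nil)))) 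
(.nd (nat_lit 9) 
(.lf (nat_lit 551269) (.g (nat_lit 1008) (.e (nat_lit 426108) (nat_lit 1) (.e (nat_lit 164329) (nat_lit 230) (.e (nat_lit 163867) (nat_lit 2) (.e (nat_lit 196656) (nat_lit 11) .nil)))) (.g (nat_lit 0) (.e (nat_lit 297354) (nat_lit 0) .nil) .nil))) 
(.lf (nat_lit 551781) (.g (nat_lit 2203) (.e (nat_lit 426122) (nat_lit 2) (.e (nat_lit 196666) (nat_lit 13) (.e (nat_lit 65617) (nat_lit 10) (.e (nat_lit 344130) (nat_lit 26) (.e (nat_lit 557090) (nat_lit 12) (.e (nat_lit 164022) (nat_lit 46) (.e (nat_lit 704626) (nat_lit 9) (.e (nat_lit 396) (nat_lit 32) .nil)))))))) (.g (nat_lit 1) (.e (nat_lit 298665) (nat_lit 0) .nil) .nil))))) 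
(.nd (nat_lit 8) (.nd (nat_lit 9) 
(.lf (nat_lit 551141) (.g (nat_lit 2407) (.e (nat_lit 426107) (nat_lit 1) (.e (nat_lit 164325) (nat_lit 230) (.e (nat_lit 163873) (nat_lit 3) (.e (nat_lit 204813) (nat_lit 9) (.e (nat_lit 426200) (nat_lit 9) (.e (nat_lit 426480) (nat_lit 27) (.e (nat_lit 336388) (nat_lit 27) .nil))))))) (.g (nat_lit 1) (.e (nat_lit 296941) (nat_lit 0) .nil) .nil))) 
(.lf (nat_lit 551653) (.g (nat_lit 3640) (.e (nat_lit 426121) (nat_lit 2) (.e (nat_lit 196666) (nat_lit 13) (.e (nat_lit 65617) (nat_lit 10) (.e (nat_lit 344130) (nat_lit 26) (.e (nat_lit 557090) (nat_lit 12) (.e (nat_lit 164022) (nat_lit 46) (.e (nat_lit 704626) (nat_lit 9) (.e (nat_lit 398) (nat_lit 32) .nil)))))))) (.g (nat_lit 1) (.e (nat_lit 298495) (nat_lit 0) .nil) .nil)))) 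
(.nd (nat_lit 9) 
(.lf (nat_lit 551397) (.g (nat_lit 1421) (.e (nat_lit 426109) (nat_lit 1) (.e (nat_lit 164347) (nat_lit 240) (.e (nat_lit 2638) (nat_lit 165) (.e (nat_lit 180278) (nat_lit 32) (.e (nat_lit 1658) (nat_lit 115) .nil))))) (.g (nat_lit 0) (.e (nat_lit 297735) (nat_lit 0) .nil) .nil))) 
(.lf (nat_lit 551909) (.g (nat_lit 2490) (.e (nat_lit 426123) (nat_lit 2) (.e (nat_lit 196666) (nat_lit 13) (.e (nat_lit 65610) (nat_lit 10) (.e (nat_lit 344129) (nat_lit 26) (.e (nat_lit 557089) (nat_lit 12) (.e (nat_lit 171776) (nat_lit 49) (.e (nat_lit 729098) (nat_lit 11) .nil))))))) (.g (nat_lit 1) (.e (nat_lit 299020) (nat_lit 0) .nil) .nil)))))))) 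
(.nd (nat_lit 5) (.nd (nat_lit 6) (.nd (nat_lit 7) (.nd (nat_lit 8) (.nd (nat_lit 9) 
(.lf (nat_lit 550933) (.g (nat_lit 2215) (.e (nat_lit 426101) (nat_lit 1) (.e (nat_lit 164332) (nat_lit 230) (.e (nat_lit 163880) (nat_lit 4) (.e (nat_lit 213032) (nat_lit 11) .nil)))) (.g (nat_lit 0) (.e (nat_lit 296475) (nat_lit 0) .nil) .nil))) 
(.lf (nat_lit 551445) (.g (nat_lit 1055) (.e (nat_lit 426110) (nat_lit 1) (.e (nat_lit 164347) (nat_lit 240) (.e (nat_lit 2638) (nat_lit 165) (.e (nat_lit 180278) (nat_lit 32) .nil)))) (.g (nat_lit 0) (.e (nat_lit 297923) (nat_lit 0) .nil) .nil)))) (.nd (nat_lit 9) 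
(.lf (nat_lit 551189) (.g (nat_lit 3661) (.e (nat_lit 426107) (nat_lit 1) (.e (nat_lit 164327) (nat_lit 230) (.e (nat_lit 163871) (nat_lit 2) (.e (nat_lit 196654) (nat_lit 11) (.e (nat_lit 16466) (nat_lit 13) (.e (nat_lit 483340) (nat_lit 9) .nil)))))) (.g (nat_lit 1) (.e (nat_lit 297149) (nat_lit 0) .nil) .nil))) 
(.lf (nat_lit 551701) (.g (nat_lit 2988) (.e (nat_lit 426121) (nat_lit 2) (.e (nat_lit 196666) (nat_lit 13) (.e (nat_lit 65617) (nat_lit 10) (.e (nat_lit 344132) (nat_lit 26) (.e (nat_lit 557093) (nat_lit 12) (.e (nat_lit 164023) (nat_lit 46) (.e (nat_lit 704626) (nat_lit 9) (.e (nat_lit 399) (nat_lit 32) .nil)))))))) (.g (nat_lit 1) (.e (nat_lit 298544) (nat_lit 0) .nil) .nil))))) 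
(.nd (nat_lit 8) (.nd (nat_lit 9) 
(.lf (nat_lit 551061) (.g (nat_lit 2706) (.e (nat_lit 426106) (nat_lit 1) (.e (nat_lit 164327) (nat_lit 230) (.e (nat_lit 163871) (nat_lit 2) (.e (nat_lit 196656) (nat_lit 11) (.e (nat_lit 16466) (nat_lit 13) (.e (nat_lit 483341) (nat_lit 9) .nil)))))) (.g (nat_lit 1) (.e (nat_lit 296758) (nat_lit 0) .nil) .nil))) 
(.lf (nat_lit 551573) (.g (nat_lit 1979) (.e (nat_lit 426116) (nat_lit 2) (.e (nat_lit 196681) (nat_lit 17) (.e (nat_lit 131105) (nat_lit 9) (.e (nat_lit 336324) (nat_lit 18) (.e (nat_lit 204837) (nat_lit 20) (.e (nat_lit 122624) (nat_lit 11) .nil)))))) (.g (nat_lit 1) (.e (nat_lit 298376) (nat_lit 0) .nil) .nil)))) (.nd (nat_lit 9) 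
(.lf (nat_lit 551317) (.g (nat_lit 1143) (.e (nat_lit 426108) (nat_lit 1) (.e (nat_lit 164332) (nat_lit 230) (.e (nat_lit 163869) (nat_lit 2) (.e (nat_lit 196656) (nat_lit 11) .nil)))) (.g (nat_lit 0) (.e (nat_lit 297484) (nat_lit 0) .nil) .nil))) 
(.lf (nat_lit 551829) (.g (nat_lit 2195) (.e (nat_lit 426122) (nat_lit 2) (.e (nat_lit 196666) (nat_lit 13) (.e (nat_lit 65617) (nat_lit 10) (.e (nat_lit 344132) (nat_lit 26) (.e (nat_lit 557094) (nat_lit 12) (.e (nat_lit 164022) (nat_lit 46) (.e (nat_lit 704629) (nat_lit 9) (.e (nat_lit 435) (nat_lit 32) .nil)))))))) (.g (nat_lit 1) (.e (nat_lit 298718) (nat_lit 0) .nil) .nil)))))) 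
(.nd (nat_lit 7) (.nd (nat_lit 8) (.nd (nat_lit 9) 
(.lf (nat_lit 550997) (.g (nat_lit 2079) (.e (nat_lit 426105) (nat_lit 1) (.e (nat_lit 164332) (nat_lit 230) (.e (nat_lit 163869) (nat_lit 2) (.e (nat_lit 196656) (nat_lit 11) .nil)))) (.g (nat_lit 0) (.e (nat_lit 296664) (nat_lit 0) .nil) .nil))) 
(.lf (nat_lit 551509) (.g (nat_lit 1348) (.e (nat_lit 433920) (nat_lit 1) (.e (nat_lit 164403) (nat_lit 256) (.e (nat_lit 57406) (nat_lit 12) (.e (nat_lit 336443) (nat_lit 32) .nil)))) (.g (nat_lit 0) (.e (nat_lit 298085) (nat_lit 0) .nil) .nil)))) (.nd (nat_lit 9) 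
(.lf (nat_lit 551253) (.g (nat_lit 1334) (.e (nat_lit 426107) (nat_lit 1) (.e (nat_lit 164403) (nat_lit 256) (.e (nat_lit 57409) (nat_lit 12) (.e (nat_lit 336444) (nat_lit 32) .nil)))) (.g (nat_lit 0) (.e (nat_lit 297322) (nat_lit 0) .nil) .nil))) 
(.lf (nat_lit 551765) (.g (nat_lit 472) (.e (nat_lit 426121) (nat_lit 2) (.e (nat_lit 196672) (nat_lit 15) (.e (nat_lit 89856) (nat_lit 3) .nil))) (.g (nat_lit 0) (.e (nat_lit 298626) (nat_lit 0) .nil) .nil))))) (.nd (nat_lit 8) (.nd (nat_lit 9) 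
(.lf (nat_lit 551125) (.g (nat_lit 3751) (.e (nat_lit 426107) (nat_lit 1) (.e (nat_lit 164325) (nat_lit 230) (.e (nat_lit 163868) (nat_lit 2) (.e (nat_lit 196656) (nat_lit 11) (.e (nat_lit 16465) (nat_lit 13) (.e (nat_lit 483341) (nat_lit 9) .nil)))))) (.g (nat_lit 1) (.e (nat_lit 296911) (nat_lit 0) .nil) .nil))) 
(.lf (nat_lit 551637) (.g (nat_lit 2568) (.e (nat_lit 426121) (nat_lit 2) (.e (nat_lit 196656) (nat_lit 11) (.e (nat_lit 16412) (nat_lit 2) (.e (nat_lit 196654) (nat_lit 11) (.e (nat_lit 16416) (nat_lit 3) .nil))))) (.g (nat_lit 0) (.e (nat_lit 298472) (nat_lit 0) .nil) .nil)))) (.nd (nat_lit 9) 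
(.lf (nat_lit 551381) (.g (nat_lit 2551) (.e (nat_lit 426109) (nat_lit 1) (.e (nat_lit 164332) (nat_lit 230) (.e (nat_lit 163869) (nat_lit 2) (.e (nat_lit 196654) (nat_lit 11) .nil)))) (.g (nat_lit 0) (.e (nat_lit 297656) (nat_lit 0) .nil) .nil))) 
(.lf (nat_lit 551893) (.g (nat_lit 998) (.e (nat_lit 426123) (nat_lit 2) (.e (nat_lit 196666) (nat_lit 13) (.e (nat_lit 65610) (nat_lit 10) (.e (nat_lit 344129) (nat_lit 26) .nil)))) (.g (nat_lit 0) (.e (nat_lit 298965) (nat_lit 0) .nil) .nil))))))) (.nd (nat_lit 6) (.nd (nat_lit 7) (.nd (nat_lit 8) (.nd (nat_lit 9) 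
(.lf (nat_lit 550965) (.g (nat_lit 895) (.e (nat_lit 426105) (nat_lit 1) (.e (nat_lit 164325) (nat_lit 230) (.e (nat_lit 163866) (nat_lit 2) (.e (nat_lit 196654) (nat_lit 11) .nil)))) (.g (nat_lit 0) (.e (nat_lit 296589) (nat_lit 0) .nil) .nil))) 
(.lf (nat_lit 551477) (.g (nat_lit 2302) (.e (nat_lit 433920) (nat_lit 1) (.e (nat_lit 164348) (nat_lit 240) (.e (nat_lit 2610) (nat_lit 163) (.e (nat_lit 163979) (nat_lit 30) (.e (nat_lit 573491) (nat_lit 15) .nil))))) (.g (nat_lit 0) (.e (nat_lit 298052) (nat_lit 0) .nil) .nil)))) (.nd (nat_lit 9) 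
(.lf (nat_lit 551221) (.g (nat_lit 2829) (.e (nat_lit 426107) (nat_lit 1) (.e (nat_lit 164347) (nat_lit 240) (.e (nat_lit 2619) (nat_lit 164) (.e (nat_lit 172126) (nat_lit 14) (.e (nat_lit 491569) (nat_lit 13) (.e (nat_lit 401152) (nat_lit 23) .nil)))))) (.g (nat_lit 1) (.e (nat_lit 297244) (nat_lit 0) .nil) .nil))) 
(.lf (nat_lit 551733) (.g (nat_lit 2625) (.e (nat_lit 426121) (nat_lit 2) (.e (nat_lit 196666) (nat_lit 13) (.e (nat_lit 65617) (nat_lit 10) (.e (nat_lit 344132) (nat_lit 26) (.e (nat_lit 557094) (nat_lit 12) (.e (nat_lit 171776) (nat_lit 49) (.e (nat_lit 729098) (nat_lit 11) .nil))))))) (.g (nat_lit 1) (.e (nat_lit 298585) (nat_lit 0) .nil) .nil))))) (.nd (nat_lit 8) (.nd (nat_lit 9) 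
(.lf (nat_lit 551093) (.g (nat_lit 1957) (.e (nat_lit 426107) (nat_lit 1) (.e (nat_lit 164179) (nat_lit 154) (.e (nat_lit 57406) (nat_lit 12) (.e (nat_lit 336318) (nat_lit 17) .nil)))) (.g (nat_lit 0) (.e (nat_lit 296826) (nat_lit 0) .nil) .nil))) 
(.lf (nat_lit 551605) (.g (nat_lit 3593) (.e (nat_lit 426120) (nat_lit 2) (.e (nat_lit 196666) (nat_lit 13) (.e (nat_lit 65617) (nat_lit 10) (.e (nat_lit 344130) (nat_lit 26) (.e (nat_lit 557090) (nat_lit 12) (.e (nat_lit 164022) (nat_lit 46) (.e (nat_lit 704628) (nat_lit 9) (.e (nat_lit 370) (nat_lit 32) .nil)))))))) (.g (nat_lit 1) (.e (nat_lit 298427) (nat_lit 0) .nil) .nil)))) 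
(.nd (nat_lit 9) 
(.lf (nat_lit 551349) (.g (nat_lit 377) (.e (nat_lit 426108) (nat_lit 1) (.e (nat_lit 164403) (nat_lit 256) (.e (nat_lit 57377) (nat_lit 3) .nil))) (.g (nat_lit 0) (.e (nat_lit 297534) (nat_lit 0) .nil) .nil))) 
(.lf (nat_lit 551861) (.g (nat_lit 2457) (.e (nat_lit 426122) (nat_lit 2) (.e (nat_lit 196681) (nat_lit 17) (.e (nat_lit 131120) (nat_lit 12) (.e (nat_lit 385068) (nat_lit 26) (.e (nat_lit 532513) (nat_lit 3) (.e (nat_lit 114698) (nat_lit 11) .nil)))))) (.g (nat_lit 1) (.e (nat_lit 298766) (nat_lit 0) .nil) .nil)))))) (.nd (nat_lit 7) (.nd (nat_lit 8) (.nd (nat_lit 9) 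
(.lf (nat_lit 551029) (.g (nat_lit 914) (.e (nat_lit 426106) (nat_lit 1) (.e (nat_lit 164179) (nat_lit 154) (.e (nat_lit 57408) (nat_lit 12) (.e (nat_lit 336326) (nat_lit 18) .nil)))) (.g (nat_lit 0) (.e (nat_lit 296710) (nat_lit 0) .nil) .nil))) 
(.lf (nat_lit 551541) (.g (nat_lit 3026) (.e (nat_lit 426114) (nat_lit 2) (.e (nat_lit 196666) (nat_lit 13) (.e (nat_lit 65617) (nat_lit 10) (.e (nat_lit 344132) (nat_lit 26) (.e (nat_lit 557093) (nat_lit 12) (.e (nat_lit 171776) (nat_lit 48) (.e (nat_lit 720909) (nat_lit 11) .nil))))))) (.g (nat_lit 1) (.e (nat_lit 298198) (nat_lit 0) .nil) .nil)))) (.nd (nat_lit 9) 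
(.lf (nat_lit 551285) (.g (nat_lit 2988) (.e (nat_lit 426108) (nat_lit 1) (.e (nat_lit 164330) (nat_lit 230) (.e (nat_lit 163867) (nat_lit 2) (.e (nat_lit 196656) (nat_lit 11) (.e (nat_lit 16463) (nat_lit 13) (.e (nat_lit 483337) (nat_lit 9) .nil)))))) (.g (nat_lit 1) (.e (nat_lit 297385) (nat_lit 0) .nil) .nil))) 
(.lf (nat_lit 551797) (.g (nat_lit 2796) (.e (nat_lit 426122) (nat_lit 2) (.e (nat_lit 196666) (nat_lit 13) (.e (nat_lit 65617) (nat_lit 10) (.e (nat_lit 344130) (nat_lit 26) (.e (nat_lit 557090) (nat_lit 12) (.e (nat_lit 164022) (nat_lit 46) (.e (nat_lit 704629) (nat_lit 9) (.e (nat_lit 435) (nat_lit 32) .nil)))))))) (.g (nat_lit 1) (.e (nat_lit 298681) (nat_lit 0) .nil) .nil))))) 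
(.nd (nat_lit 8) (.nd (nat_lit 9) 
(.lf (nat_lit 551157) (.g (nat_lit 2196) (.e (nat_lit 426107) (nat_lit 1) (.e (nat_lit 164326) (nat_lit 230) (.e (nat_lit 163868) (nat_lit 2) (.e (nat_lit 196655) (nat_lit 11) (.e (nat_lit 16465) (nat_lit 13) (.e (nat_lit 491264) (nat_lit 9) .nil)))))) (.g (nat_lit 1) (.e (nat_lit 297012) (nat_lit 0) .nil) .nil))) 
(.lf (nat_lit 551669) (.g (nat_lit 3734) (.e (nat_lit 426121) (nat_lit 2) (.e (nat_lit 196666) (nat_lit 13) (.e (nat_lit 65617) (nat_lit 10) (.e (nat_lit 344130) (nat_lit 26) (.e (nat_lit 557090) (nat_lit 12) (.e (nat_lit 164022) (nat_lit 46) (.e (nat_lit 704629) (nat_lit 9) (.e (nat_lit 436) (nat_lit 32) .nil)))))))) (.g (nat_lit 1) (.e (nat_lit 298511) (nat_lit 0) .nil) .nil)))) 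
(.nd (nat_lit 9) 
(.lf (nat_lit 551413) (.g (nat_lit 863) (.e (nat_lit 426110) (nat_lit 1) (.e (nat_lit 164325) (nat_lit 230) (.e (nat_lit 163882) (nat_lit 4) .nil))) (.g (nat_lit 0) (.e (nat_lit 297805) (nat_lit 0) .nil) .nil))) 
(.lf (nat_lit 551925) (.g (nat_lit 4359) (.e (nat_lit 426123) (nat_lit 2) (.e (nat_lit 196666) (nat_lit 13) (.e (nat_lit 65610) (nat_lit 10) (.e (nat_lit 344129) (nat_lit 26) (.e (nat_lit 557090) (nat_lit 12) (.e (nat_lit 163850) (nat_lit 0) (.e (nat_lit 6425) (nat_lit 342) (.e (nat_lit 237312) (nat_lit 12) .nil)))))))) (.g (nat_lit 1) (.e (nat_lit 299050) (nat_lit 0) .nil) .nil))))))))) 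
(.nd (nat_lit 4) (.nd (nat_lit 5) (.nd (nat_lit 6) (.nd (nat_lit 7) (.nd (nat_lit 8) 
(.nd (nat_lit 9) 
(.lf (nat_lit 550925) (.g (nat_lit 1319) (.e (nat_lit 426100) (nat_lit 1) (.e (nat_lit 164403) (nat_lit 256) (.e (nat_lit 57378) (nat_lit 3) (.e (nat_lit 98380) (nat_lit 31) .nil)))) (.g (nat_lit 0) (.e (nat_lit 296463) (nat_lit 0) .nil) .nil))) 
(.lf (nat_lit 551437) (.g (nat_lit 2906) (.e (nat_lit 426110) (nat_lit 1) (.e (nat_lit 164327) (nat_lit 230) (.e (nat_lit 163871) (nat_lit 2) (.e (nat_lit 196656) (nat_lit 11) (.e (nat_lit 16463) (nat_lit 13) (.e (nat_lit 491264) (nat_lit 9) .nil)))))) (.g (nat_lit 1) (.e (nat_lit 297871) (nat_lit 0) .nil) .nil)))) (.nd (nat_lit 9) 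
(.lf (nat_lit 551181) (.g (nat_lit 1061) (.e (nat_lit 426107) (nat_lit 1) (.e (nat_lit 164327) (nat_lit 230) (.e (nat_lit 163868) (nat_lit 2) (.e (nat_lit 196656) (nat_lit 11) .nil)))) (.g (nat_lit 0) (.e (nat_lit 297130) (nat_lit 0) .nil) .nil))) 
(.lf (nat_lit 551693) (.g (nat_lit 3491) (.e (nat_lit 426121) (nat_lit 2) (.e (nat_lit 196666) (nat_lit 13) (.e (nat_lit 65617) (nat_lit 10) (.e (nat_lit 344132) (nat_lit 26) (.e (nat_lit 557093) (nat_lit 12) (.e (nat_lit 164022) (nat_lit 46) (.e (nat_lit 704629) (nat_lit 9) (.e (nat_lit 388) (nat_lit 32) .nil)))))))) (.g (nat_lit 1) (.e (nat_lit 298535) (nat_lit 0) .nil) .nil))))) 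
(.nd (nat_lit 8) (.nd (nat_lit 9) 
(.lf (nat_lit 551053) (.g (nat_lit 1669) (.e (nat_lit 426106) (nat_lit 1) (.e (nat_lit 164326) (nat_lit 230) (.e (nat_lit 163871) (nat_lit 2) (.e (nat_lit 196653) (nat_lit 11) .nil)))) (.g (nat_lit 0) (.e (nat_lit 296749) (nat_lit 0) .nil) .nil))) 
(.lf (nat_lit 551565) (.g (nat_lit 745) (.e (nat_lit 426116) (nat_lit 2) (.e (nat_lit 196656) (nat_lit 11) (.e (nat_lit 16396) (nat_lit 0) .nil))) (.g (nat_lit 0) (.e (nat_lit 298308) (nat_lit 0) .nil) .nil)))) (.nd (nat_lit 9) 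
(.lf (nat_lit 551309) (.g (nat_lit 2322) (.e (nat_lit 426108) (nat_lit 1) (.e (nat_lit 164330) (nat_lit 230) (.e (nat_lit 163880) (nat_lit 4) (.e (nat_lit 213030) (nat_lit 11) (.e (nat_lit 24656) (nat_lit 13) (.e (nat_lit 393281) (nat_lit 23) .nil)))))) (.g (nat_lit 1) (.e (nat_lit 297422) (nat_lit 0) .nil) .nil))) 
(.lf (nat_lit 551821) (.g (nat_lit 2061) (.e (nat_lit 426122) (nat_lit 2) (.e (nat_lit 196666) (nat_lit 13) (.e (nat_lit 65617) (nat_lit 10) (.e (nat_lit 344132) (nat_lit 26) (.e (nat_lit 557094) (nat_lit 12) (.e (nat_lit 164022) (nat_lit 46) (.e (nat_lit 704627) (nat_lit 9) (.e (nat_lit 391) (nat_lit 32) .nil)))))))) (.g (nat_lit 1) (.e (nat_lit 298710) (nat_lit 0) .nil) .nil)))))) 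
(.nd (nat_lit 7) (.nd (nat_lit 8) (.nd (nat_lit 9) 
(.lf (nat_lit 550989) (.g (nat_lit 2261) (.e (nat_lit 426105) (nat_lit 1) (.e (nat_lit 164332) (nat_lit 230) (.e (nat_lit 163867) (nat_lit 2) (.e (nat_lit 196654) (nat_lit 11) (.e (nat_lit 16466) (nat_lit 13) (.e (nat_lit 483341) (nat_lit 9) .nil)))))) (.g (nat_lit 1) (.e (nat_lit 296650) (nat_lit 0) .nil) .nil))) 
(.lf (nat_lit 551501) (.g (nat_lit 1179) (.e (nat_lit 433920) (nat_lit 1) (.e (nat_lit 164399) (nat_lit 256) (.e (nat_lit 57411) (nat_lit 12) (.e (nat_lit 336432) (nat_lit 30) .nil)))) (.g (nat_lit 0) (.e (nat_lit 298077) (nat_lit 0) .nil) .nil)))) (.nd (nat_lit 9) 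
(.lf (nat_lit 551245) (.g (nat_lit 1818) (.e (nat_lit 426107) (nat_lit 1) (.e (nat_lit 164403) (nat_lit 256) (.e (nat_lit 57378) (nat_lit 3) (.e (nat_lit 98360) (nat_lit 26) .nil)))) (.g (nat_lit 0) (.e (nat_lit 297314) (nat_lit 0) .nil) .nil))) 
(.lf (nat_lit 551757) (.g (nat_lit 3058) (.e (nat_lit 426121) (nat_lit 2) (.e (nat_lit 196666) (nat_lit 13) (.e (nat_lit 65617) (nat_lit 10) (.e (nat_lit 344133) (nat_lit 26) (.e (nat_lit 557091) (nat_lit 12) (.e (nat_lit 164022) (nat_lit 46) (.e (nat_lit 704629) (nat_lit 9) (.e (nat_lit 440) (nat_lit 32) .nil)))))))) (.g (nat_lit 1) (.e (nat_lit 298611) (nat_lit 0) .nil) .nil))))) 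
(.nd (nat_lit 8) (.nd (nat_lit 9) 
(.lf (nat_lit 551117) (.g (nat_lit 2938) (.e (nat_lit 426107) (nat_lit 1) (.e (nat_lit 164324) (nat_lit 230) (.e (nat_lit 163867) (nat_lit 2) (.e (nat_lit 196656) (nat_lit 11) (.e (nat_lit 16463) (nat_lit 13) (.e (nat_lit 483341) (nat_lit 9) .nil)))))) (.g (nat_lit 1) (.e (nat_lit 296863) (nat_lit 0) .nil) .nil))) 
(.lf (nat_lit 551629) (.g (nat_lit 2646) (.e (nat_lit 426120) (nat_lit 2) (.e (nat_lit 196666) (nat_lit 13) (.e (nat_lit 65617) (nat_lit 10) (.e (nat_lit 344133) (nat_lit 26) (.e (nat_lit 557091) (nat_lit 12) (.e (nat_lit 164022) (nat_lit 46) (.e (nat_lit 704628) (nat_lit 9) (.e (nat_lit 377) (nat_lit 32) .nil)))))))) (.g (nat_lit 1) (.e (nat_lit 298451) (nat_lit 0) .nil) .nil)))) 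
(.nd (nat_lit 9) 
(.lf (nat_lit 551373) (.g (nat_lit 1782) (.e (nat_lit 426109) (nat_lit 1) (.e (nat_lit 164327) (nat_lit 230) (.e (nat_lit 163868) (nat_lit 2) (.e (nat_lit 196656) (nat_lit 11) .nil)))) (.g (nat_lit 0) (.e (nat_lit 297632) (nat_lit 0) .nil) .nil))) 
(.lf (nat_lit 551885) (.g (nat_lit 2962) (.e (nat_lit 426123) (nat_lit 2) (.e (nat_lit 196666) (nat_lit 13) (.e (nat_lit 65610) (nat_lit 10) (.e (nat_lit 344117) (nat_lit 21) (.e (nat_lit 516106) (nat_lit 0) (.e (nat_lit 3356) (nat_lit 207) (.e (nat_lit 614423) (nat_lit 9) (.e (nat_lit 396) (nat_lit 32) .nil)))))))) (.g (nat_lit 1) (.e (nat_lit 298867) (nat_lit 0) .nil) .nil))))))) 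
(.nd (nat_lit 6) (.nd (nat_lit 7) (.nd (nat_lit 8) (.nd (nat_lit 9) 
(.lf (nat_lit 550957) (.g (nat_lit 1636) (.e (nat_lit 426105) (nat_lit 1) (.e (nat_lit 164182) (nat_lit 154) (.e (nat_lit 57411) (nat_lit 12) (.e (nat_lit 336315) (nat_lit 17) .nil)))) (.g (nat_lit 0) (.e (nat_lit 296574) (nat_lit 0) .nil) .nil))) 
(.lf (nat_lit 551469) (.g (nat_lit 2515) (.e (nat_lit 426112) (nat_lit 1) (.e (nat_lit 164348) (nat_lit 240) (.e (nat_lit 2610) (nat_lit 163) (.e (nat_lit 163979) (nat_lit 30) (.e (nat_lit 573492) (nat_lit 15) .nil))))) (.g (nat_lit 0) (.e (nat_lit 298023) (nat_lit 0) .nil) .nil)))) (.nd (nat_lit 9) 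
(.lf (nat_lit 551213) (.g (nat_lit 1092) (.e (nat_lit 426107) (nat_lit 1) (.e (nat_lit 164327) (nat_lit 230) (.e (nat_lit 163882) (nat_lit 4) (.e (nat_lit 213032) (nat_lit 11) .nil)))) (.g (nat_lit 0) (.e (nat_lit 297196) (nat_lit 0) .nil) .nil))) 
(.lf (nat_lit 551725) (.g (nat_lit 3792) (.e (nat_lit 426121) (nat_lit 2) (.e (nat_lit 196666) (nat_lit 13) (.e (nat_lit 65617) (nat_lit 10) (.e (nat_lit 344132) (nat_lit 26) (.e (nat_lit 557094) (nat_lit 12) (.e (nat_lit 164022) (nat_lit 46) (.e (nat_lit 704628) (nat_lit 9) (.e (nat_lit 416) (nat_lit 32) .nil)))))))) (.g (nat_lit 1) (.e (nat_lit 298577) (nat_lit 0) .nil) .nil))))) 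
(.nd (nat_lit 8) (.nd (nat_lit 9) 
(.lf (nat_lit 551085) (.g (nat_lit 1977) (.e (nat_lit 426106) (nat_lit 1) (.e (nat_lit 164403) (nat_lit 256) (.e (nat_lit 57406) (nat_lit 12) (.e (nat_lit 336443) (nat_lit 32) (.e (nat_lit 466979) (nat_lit 23) .nil))))) (.g (nat_lit 0) (.e (nat_lit 296809) (nat_lit 0) .nil) .nil))) 
(.lf (nat_lit 551597) (.g (nat_lit 2374) (.e (nat_lit 426120) (nat_lit 2) (.e (nat_lit 196666) (nat_lit 13) (.e (nat_lit 65610) (nat_lit 10) (.e (nat_lit 344129) (nat_lit 26) (.e (nat_lit 557090) (nat_lit 12) .nil))))) (.g (nat_lit 0) (.e (nat_lit 298419) (nat_lit 0) .nil) .nil)))) (.nd (nat_lit 9) 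
(.lf (nat_lit 551341) (.g (nat_lit 1680) (.e (nat_lit 426108) (nat_lit 1) (.e (nat_lit 164403) (nat_lit 256) (.e (nat_lit 57370) (nat_lit 2) (.e (nat_lit 90176) (nat_lit 15) (.e (nat_lit 188421) (nat_lit 11) .nil))))) (.g (nat_lit 0) (.e (nat_lit 297524) (nat_lit 0) .nil) .nil))) 
(.lf (nat_lit 551853) (.g (nat_lit 1940) (.e (nat_lit 426122) (nat_lit 2) (.e (nat_lit 196672) (nat_lit 15) (.e (nat_lit 81924) (nat_lit 0) (.e (nat_lit 3253) (nat_lit 197) (.e (nat_lit 532515) (nat_lit 3) (.e (nat_lit 114698) (nat_lit 11) .nil)))))) (.g (nat_lit 1) (.e (nat_lit 298755) (nat_lit 0) .nil) .nil)))))) (.nd (nat_lit 7) (.nd (nat_lit 8) (.nd (nat_lit 9) 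
(.lf (nat_lit 551021) (.g (nat_lit 493) (.e (nat_lit 426105) (nat_lit 1) (.e (nat_lit 164403) (nat_lit 256) (.e (nat_lit 57409) (nat_lit 12) .nil))) (.g (nat_lit 0) (.e (nat_lit 296694) (nat_lit 0) .nil) .nil))) 
(.lf (nat_lit 551533) (.g (nat_lit 2685) (.e (nat_lit 426113) (nat_lit 2) (.e (nat_lit 196666) (nat_lit 13) (.e (nat_lit 65617) (nat_lit 10) (.e (nat_lit 344133) (nat_lit 26) (.e (nat_lit 557091) (nat_lit 12) (.e (nat_lit 171776) (nat_lit 48) (.e (nat_lit 720909) (nat_lit 11) .nil))))))) (.g (nat_lit 1) (.e (nat_lit 298124) (nat_lit 0) .nil) .nil)))) (.nd (nat_lit 9) 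
(.lf (nat_lit 551277) (.g (nat_lit 1777) (.e (nat_lit 426108) (nat_lit 1) (.e (nat_lit 164330) (nat_lit 230) (.e (nat_lit 163843) (nat_lit 0) (.e (nat_lit 3617) (nat_lit 227) .nil)))) (.g (nat_lit 0) (.e (nat_lit 297372) (nat_lit 0) .nil) .nil))) 
(.lf (nat_lit 551789) (.g (nat_lit 3512) (.e (nat_lit 426122) (nat_lit 2) (.e (nat_lit 196666) (nat_lit 13) (.e (nat_lit 65617) (nat_lit 10) (.e (nat_lit 344130) (nat_lit 26) (.e (nat_lit 557090) (nat_lit 12) (.e (nat_lit 164022) (nat_lit 46) (.e (nat_lit 704628) (nat_lit 9) (.e (nat_lit 391) (nat_lit 32) .nil)))))))) (.g (nat_lit 1) (.e (nat_lit 298673) (nat_lit 0) .nil) .nil))))) 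
(.nd (nat_lit 8) (.nd (nat_lit 9) 
(.lf (nat_lit 551149) (.g (nat_lit 725) (.e (nat_lit 426107) (nat_lit 1) (.e (nat_lit 164325) (nat_lit 230) (.e (nat_lit 163881) (nat_lit 4) (.e (nat_lit 213032) (nat_lit 11) .nil)))) (.g (nat_lit 0) (.e (nat_lit 296960) (nat_lit 0) .nil) .nil))) 
(.lf (nat_lit 551661) (.g (nat_lit 4311) (.e (nat_lit 426121) (nat_lit 2) (.e (nat_lit 196666) (nat_lit 13) (.e (nat_lit 65617) (nat_lit 10) (.e (nat_lit 344130) (nat_lit 26) (.e (nat_lit 557090) (nat_lit 12) (.e (nat_lit 164022) (nat_lit 46) (.e (nat_lit 704628) (nat_lit 9) (.e (nat_lit 398) (nat_lit 32) .nil)))))))) (.g (nat_lit 1) (.e (nat_lit 298503) (nat_lit 0) .nil) .nil)))) 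
(.nd (nat_lit 9) 
(.lf (nat_lit 551405) (.g (nat_lit 1457) (.e (nat_lit 426109) (nat_lit 1) (.e (nat_lit 164347) (nat_lit 240) (.e (nat_lit 2650) (nat_lit 166) (.e (nat_lit 188427) (nat_lit 20) (.e (nat_lit 3399) (nat_lit 211) .nil))))) (.g (nat_lit 0) (.e (nat_lit 297748) (nat_lit 0) .nil) .nil))) 
(.lf (nat_lit 551917) (.g (nat_lit 3137) (.e (nat_lit 426123) (nat_lit 2) (.e (nat_lit 196666) (nat_lit 13) (.e (nat_lit 65610) (nat_lit 10) (.e (nat_lit 344129) (nat_lit 26) (.e (nat_lit 557090) (nat_lit 12) (.e (nat_lit 163843) (nat_lit 0) (.e (nat_lit 6255) (nat_lit 337) (.e (nat_lit 2439) (nat_lit 157) (.e (nat_lit 2949) (nat_lit 184) .nil))))))))) (.g (nat_lit 1) (.e (nat_lit 299035) (nat_lit 0) .nil) .nil)))))))) 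
(.nd (nat_lit 5) (.nd (nat_lit 6) (.nd (nat_lit 7) (.nd (nat_lit 8) (.nd (nat_lit 9) 
(.lf (nat_lit 550941) (.g (nat_lit 2401) (.e (nat_lit 426103) (nat_lit 1) (.e (nat_lit 164348) (nat_lit 240) (.e (nat_lit 2638) (nat_lit 165) (.e (nat_lit 180278) (nat_lit 32) (.e (nat_lit 1659) (nat_lit 115) (.e (nat_lit 393277) (nat_lit 23) .nil)))))) (.g (nat_lit 1) (.e (nat_lit 296497) (nat_lit 0) .nil) .nil))) 
(.lf (nat_lit 551453) (.g (nat_lit 2528) (.e (nat_lit 426110) (nat_lit 1) (.e (nat_lit 164348) (nat_lit 240) (.e (nat_lit 2640) (nat_lit 165) (.e (nat_lit 180278) (nat_lit 32) (.e (nat_lit 1659) (nat_lit 115) (.e (nat_lit 393279) (nat_lit 23) .nil)))))) (.g (nat_lit 1) (.e (nat_lit 297943) (nat_lit 0) .nil) .nil)))) (.nd (nat_lit 9) 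
(.lf (nat_lit 551197) (.g (nat_lit 3296) (.e (nat_lit 426107) (nat_lit 1) (.e (nat_lit 164327) (nat_lit 230) (.e (nat_lit 163873) (nat_lit 3) (.e (nat_lit 204813) (nat_lit 9) (.e (nat_lit 426199) (nat_lit 9) (.e (nat_lit 426478) (nat_lit 27) (.e (nat_lit 336388) (nat_lit 27) .nil))))))) (.g (nat_lit 1) (.e (nat_lit 297161) (nat_lit 0) .nil) .nil))) 
(.lf (nat_lit 551709) (.g (nat_lit 2725) (.e (nat_lit 426121) (nat_lit 2) (.e (nat_lit 196666) (nat_lit 13) (.e (nat_lit 65617) (nat_lit 10) (.e (nat_lit 344132) (nat_lit 26) (.e (nat_lit 557093) (nat_lit 12) (.e (nat_lit 164023) (nat_lit 46) (.e (nat_lit 704629) (nat_lit 9) (.e (nat_lit 416) (nat_lit 32) .nil)))))))) (.g (nat_lit 1) (.e (nat_lit 298552) (nat_lit 0) .nil) .nil))))) 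
(.nd (nat_lit 8) (.nd (nat_lit 9) 
(.lf (nat_lit 551069) (.g (nat_lit 3228) (.e (nat_lit 426106) (nat_lit 1) (.e (nat_lit 164332) (nat_lit 230) (.e (nat_lit 163867) (nat_lit 2) (.e (nat_lit 196656) (nat_lit 11) (.e (nat_lit 16466) (nat_lit 13) (.e (nat_lit 483341) (nat_lit 9) .nil)))))) (.g (nat_lit 1) (.e (nat_lit 296771) (nat_lit 0) .nil) .nil))) 
(.lf (nat_lit 551581) (.g (nat_lit 2600) (.e (nat_lit 426117) (nat_lit 2) (.e (nat_lit 196666) (nat_lit 13) (.e (nat_lit 65617) (nat_lit 10) (.e (nat_lit 344130) (nat_lit 26) (.e (nat_lit 557090) (nat_lit 12) (.e (nat_lit 164017) (nat_lit 44) (.e (nat_lit 688139) (nat_lit 5) (.e (nat_lit 2887) (nat_lit 184) .nil)))))))) (.g (nat_lit 1) (.e (nat_lit 298392) (nat_lit 0) .nil) .nil)))) 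
(.nd (nat_lit 9) 
(.lf (nat_lit 551325) (.g (nat_lit 4627) (.e (nat_lit 426108) (nat_lit 1) (.e (nat_lit 164332) (nat_lit 230) (.e (nat_lit 163873) (nat_lit 3) (.e (nat_lit 204813) (nat_lit 9) (.e (nat_lit 426213) (nat_lit 9) .nil))))) (.g (nat_lit 0) (.e (nat_lit 297495) (nat_lit 0) .nil) .nil))) 
(.lf (nat_lit 551837) (.g (nat_lit 3037) (.e (nat_lit 426122) (nat_lit 2) (.e (nat_lit 196666) (nat_lit 13) (.e (nat_lit 65617) (nat_lit 10) (.e (nat_lit 344133) (nat_lit 26) (.e (nat_lit 557091) (nat_lit 12) (.e (nat_lit 164022) (nat_lit 46) (.e (nat_lit 704627) (nat_lit 9) (.e (nat_lit 416) (nat_lit 32) .nil)))))))) (.g (nat_lit 1) (.e (nat_lit 298726) (nat_lit 0) .nil) .nil)))))) 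
(.nd (nat_lit 7) (.nd (nat_lit 8) (.nd (nat_lit 9) 
(.lf (nat_lit 551005) (.g (nat_lit 1388) (.e (nat_lit 426105) (nat_lit 1) (.e (nat_lit 164345) (nat_lit 240) (.e (nat_lit 2638) (nat_lit 165) (.e (nat_lit 180277) (nat_lit 32) (.e (nat_lit 1660) (nat_lit 115) .nil))))) (.g (nat_lit 0) (.e (nat_lit 296678) (nat_lit 0) .nil) .nil))) 
(.lf (nat_lit 551517) (.g (nat_lit 3763) (.e (nat_lit 426113) (nat_lit 2) (.e (nat_lit 196666) (nat_lit 13) (.e (nat_lit 65610) (nat_lit 10) (.e (nat_lit 344129) (nat_lit 26) (.e (nat_lit 557089) (nat_lit 12) (.e (nat_lit 164017) (nat_lit 44) (.e (nat_lit 688139) (nat_lit 5) (.e (nat_lit 2887) (nat_lit 184) .nil)))))))) (.g (nat_lit 1) (.e (nat_lit 298105) (nat_lit 0) .nil) .nil)))) 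
(.nd (nat_lit 9) 
(.lf (nat_lit 551261) (.g (nat_lit 2115) (.e (nat_lit 426108) (nat_lit 1) (.e (nat_lit 164182) (nat_lit 154) (.e (nat_lit 57411) (nat_lit 12) (.e (nat_lit 336324) (nat_lit 18) (.e (nat_lit 204875) (nat_lit 31) .nil))))) (.g (nat_lit 0) (.e (nat_lit 297331) (nat_lit 0) .nil) .nil))) 
(.lf (nat_lit 551773) (.g (nat_lit 2355) (.e (nat_lit 426122) (nat_lit 2) (.e (nat_lit 196666) (nat_lit 13) (.e (nat_lit 65610) (nat_lit 10) (.e (nat_lit 344129) (nat_lit 26) (.e (nat_lit 557089) (nat_lit 12) (.e (nat_lit 171776) (nat_lit 48) (.e (nat_lit 720909) (nat_lit 11) .nil))))))) (.g (nat_lit 1) (.e (nat_lit 298657) (nat_lit 0) .nil) .nil))))) (.nd (nat_lit 8) (.nd (nat_lit 9) 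
(.lf (nat_lit 551133) (.g (nat_lit 2197) (.e (nat_lit 426107) (nat_lit 1) (.e (nat_lit 164325) (nat_lit 230) (.e (nat_lit 163871) (nat_lit 2) (.e (nat_lit 196656) (nat_lit 11) (.e (nat_lit 16439) (nat_lit 9) .nil))))) (.g (nat_lit 0) (.e (nat_lit 296928) (nat_lit 0) .nil) .nil))) 
(.lf (nat_lit 551645) (.g (nat_lit 1930) (.e (nat_lit 426121) (nat_lit 2) (.e (nat_lit 196666) (nat_lit 13) (.e (nat_lit 65610) (nat_lit 10) (.e (nat_lit 344129) (nat_lit 26) (.e (nat_lit 557090) (nat_lit 12) .nil))))) (.g (nat_lit 0) (.e (nat_lit 298487) (nat_lit 0) .nil) .nil)))) (.nd (nat_lit 9) 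
(.lf (nat_lit 551389) (.g (nat_lit 1306) (.e (nat_lit 426109) (nat_lit 1) (.e (nat_lit 164345) (nat_lit 240) (.e (nat_lit 2638) (nat_lit 165) (.e (nat_lit 180278) (nat_lit 32) (.e (nat_lit 1658) (nat_lit 115) .nil))))) (.g (nat_lit 0) (.e (nat_lit 297680) (nat_lit 0) .nil) .nil))) 
(.lf (nat_lit 551901) (.g (nat_lit 2465) (.e (nat_lit 426123) (nat_lit 2) (.e (nat_lit 196666) (nat_lit 13) (.e (nat_lit 65610) (nat_lit 10) (.e (nat_lit 344129) (nat_lit 26) (.e (nat_lit 557089) (nat_lit 12) .nil))))) (.g (nat_lit 0) (.e (nat_lit 299005) (nat_lit 0) .nil) .nil))))))) (.nd (nat_lit 6) (.nd (nat_lit 7) (.nd (nat_lit 8) (.nd (nat_lit 9) 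
(.lf (nat_lit 550973) (.g (nat_lit 534) (.e (nat_lit 426105) (nat_lit 1) (.e (nat_lit 164327) (nat_lit 230) (.e (nat_lit 163868) (nat_lit 2) .nil))) (.g (nat_lit 0) (.e (nat_lit 296612) (nat_lit 0) .nil) .nil))) 
(.lf (nat_lit 551485) (.g (nat_lit 1502) (.e (nat_lit 433920) (nat_lit 1) (.e (nat_lit 164399) (nat_lit 256) (.e (nat_lit 57378) (nat_lit 3) (.e (nat_lit 98380) (nat_lit 31) (.e (nat_lit 466954) (nat_lit 11) .nil))))) (.g (nat_lit 0) (.e (nat_lit 298061) (nat_lit 0) .nil) .nil)))) (.nd (nat_lit 9) 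
(.lf (nat_lit 551229) (.g (nat_lit 232) (.e (nat_lit 426107) (nat_lit 1) (.e (nat_lit 164402) (nat_lit 256) (.e (nat_lit 57377) (nat_lit 3) .nil))) (.g (nat_lit 0) (.e (nat_lit 297295) (nat_lit 0) .nil) .nil))) 
(.lf (nat_lit 551741) (.g (nat_lit 3759) (.e (nat_lit 426121) (nat_lit 2) (.e (nat_lit 196666) (nat_lit 13) (.e (nat_lit 65617) (nat_lit 10) (.e (nat_lit 344133) (nat_lit 26) (.e (nat_lit 557091) (nat_lit 12) (.e (nat_lit 164022) (nat_lit 46) (.e (nat_lit 704626) (nat_lit 9) (.e (nat_lit 391) (nat_lit 32) .nil)))))))) (.g (nat_lit 1) (.e (nat_lit 298593) (nat_lit 0) .nil) .nil))))) 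
(.nd (nat_lit 8) (.nd (nat_lit 9) 
(.lf (nat_lit 551101) (.g (nat_lit 2746) (.e (nat_lit 426107) (nat_lit 1) (.e (nat_lit 164179) (nat_lit 154) (.e (nat_lit 57411) (nat_lit 12) (.e (nat_lit 336320) (nat_lit 17) (.e (nat_lit 196674) (nat_lit 15) .nil))))) (.g (nat_lit 0) (.e (nat_lit 296838) (nat_lit 0) .nil) .nil))) 
(.lf (nat_lit 551613) (.g (nat_lit 3758) (.e (nat_lit 426120) (nat_lit 2) (.e (nat_lit 196666) (nat_lit 13) (.e (nat_lit 65617) (nat_lit 10) (.e (nat_lit 344132) (nat_lit 26) (.e (nat_lit 557093) (nat_lit 12) (.e (nat_lit 164022) (nat_lit 46) (.e (nat_lit 704629) (nat_lit 9) (.e (nat_lit 370) (nat_lit 32) .nil)))))))) (.g (nat_lit 1) (.e (nat_lit 298435) (nat_lit 0) .nil) .nil)))) 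
(.nd (nat_lit 9) 
(.lf (nat_lit 551357) (.g (nat_lit 1334) (.e (nat_lit 426108) (nat_lit 1) (.e (nat_lit 164403) (nat_lit 256) (.e (nat_lit 57406) (nat_lit 12) (.e (nat_lit 336441) (nat_lit 32) .nil)))) (.g (nat_lit 0) (.e (nat_lit 297542) (nat_lit 0) .nil) .nil))) 
(.lf (nat_lit 551869) (.g (nat_lit 1800) (.e (nat_lit 426123) (nat_lit 2) (.e (nat_lit 196654) (nat_lit 11) (.e (nat_lit 16416) (nat_lit 3) (.e (nat_lit 204809) (nat_lit 9) (.e (nat_lit 426139) (nat_lit 3) .nil))))) (.g (nat_lit 0) (.e (nat_lit 298786) (nat_lit 0) .nil) .nil)))))) (.nd (nat_lit 7) (.nd (nat_lit 8) (.nd (nat_lit 9) 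
(.lf (nat_lit 551037) (.g (nat_lit 1429) (.e (nat_lit 426106) (nat_lit 1) (.e (nat_lit 164183) (nat_lit 154) (.e (nat_lit 57409) (nat_lit 12) (.e (nat_lit 336322) (nat_lit 18) .nil)))) (.g (nat_lit 0) (.e (nat_lit 296718) (nat_lit 0) .nil) .nil))) 
(.lf (nat_lit 551549) (.g (nat_lit 246) (.e (nat_lit 426115) (nat_lit 2) (.e (nat_lit 196628) (nat_lit 9) (.e (nat_lit 968) (nat_lit 81) .nil))) (.g (nat_lit 0) (.e (nat_lit 298222) (nat_lit 0) .nil) .nil)))) (.nd (nat_lit 9) 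
(.lf (nat_lit 551293) (.g (nat_lit 2487) (.e (nat_lit 426108) (nat_lit 1) (.e (nat_lit 164330) (nat_lit 230) (.e (nat_lit 163869) (nat_lit 2) (.e (nat_lit 196656) (nat_lit 11) (.e (nat_lit 16438) (nat_lit 9) .nil))))) (.g (nat_lit 0) (.e (nat_lit 297400) (nat_lit 0) .nil) .nil))) 
(.lf (nat_lit 551805) (.g (nat_lit 3114) (.e (nat_lit 426122) (nat_lit 2) (.e (nat_lit 196666) (nat_lit 13) (.e (nat_lit 65617) (nat_lit 10) (.e (nat_lit 344132) (nat_lit 26) (.e (nat_lit 557093) (nat_lit 12) (.e (nat_lit 164022) (nat_lit 46) (.e (nat_lit 704628) (nat_lit 9) (.e (nat_lit 391) (nat_lit 32) .nil)))))))) (.g (nat_lit 1) (.e (nat_lit 298689) (nat_lit 0) .nil) .nil))))) 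
(.nd (nat_lit 8) (.nd (nat_lit 9) 
(.lf (nat_lit 551165) (.g (nat_lit 2748) (.e (nat_lit 426107) (nat_lit 1) (.e (nat_lit 164326) (nat_lit 230) (.e (nat_lit 163871) (nat_lit 2) (.e (nat_lit 196654) (nat_lit 11) (.e (nat_lit 16438) (nat_lit 9) (.e (nat_lit 426482) (nat_lit 27) (.e (nat_lit 336388) (nat_lit 27) .nil))))))) (.g (nat_lit 1) (.e (nat_lit 297081) (nat_lit 0) .nil) .nil))) 
(.lf (nat_lit 551677) (.g (nat_lit 2459) (.e (nat_lit 426121) (nat_lit 2) (.e (nat_lit 196666) (nat_lit 13) (.e (nat_lit 65617) (nat_lit 10) (.e (nat_lit 344132) (nat_lit 26) (.e (nat_lit 557093) (nat_lit 12) .nil))))) (.g (nat_lit 0) (.e (nat_lit 298519) (nat_lit 0) .nil) .nil)))) (.nd (nat_lit 9) 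
(.lf (nat_lit 551421) (.g (nat_lit 3248) (.e (nat_lit 426110) (nat_lit 1) (.e (nat_lit 164327) (nat_lit 230) (.e (nat_lit 163868) (nat_lit 2) (.e (nat_lit 196656) (nat_lit 11) (.e (nat_lit 16463) (nat_lit 13) (.e (nat_lit 483339) (nat_lit 9) .nil)))))) (.g (nat_lit 1) (.e (nat_lit 297834) (nat_lit 0) .nil) .nil))) 
(.lf (nat_lit 551933) (.g (nat_lit 3173) (.e (nat_lit 426123) (nat_lit 2) (.e (nat_lit 196666) (nat_lit 13) (.e (nat_lit 65610) (nat_lit 10) (.e (nat_lit 344129) (nat_lit 26) (.e (nat_lit 557090) (nat_lit 12) (.e (nat_lit 171776) (nat_lit 49) (.e (nat_lit 737024) (nat_lit 11) .nil))))))) (.g (nat_lit 1) (.e (nat_lit 299070) (nat_lit 0) .nil) .nil))))))))))) 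
(.nd (nat_lit 2) (.nd (nat_lit 3) (.nd (nat_lit 4) (.nd (nat_lit 5) (.nd (nat_lit 6) 
(.nd (nat_lit 7) (.nd (nat_lit 8) (.nd (nat_lit 9) 
(.lf (nat_lit 550915) (.g (nat_lit 2834) (.e (nat_lit 426100) (nat_lit 1) (.e (nat_lit 164399) (nat_lit 256) (.e (nat_lit 57451) (nat_lit 20) (.e (nat_lit 401448) (nat_lit 10) (.e (nat_lit 434272) (nat_lit 38) (.e (nat_lit 655382) (nat_lit 8) (.e (nat_lit 237612) (nat_lit 9) .nil))))))) (.g (nat_lit 1) (.e (nat_lit 296453) (nat_lit 0) .nil) .nil))) 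
(.lf (nat_lit 551427) (.g (nat_lit 3031) (.e (nat_lit 426110) (nat_lit 1) (.e (nat_lit 164327) (nat_lit 230) (.e (nat_lit 163871) (nat_lit 2) (.e (nat_lit 196653) (nat_lit 11) (.e (nat_lit 16465) (nat_lit 13) (.e (nat_lit 491264) (nat_lit 9) .nil)))))) (.g (nat_lit 1) (.e (nat_lit 297849) (nat_lit 0) .nil) .nil)))) (.nd (nat_lit 9) 
(.lf (nat_lit 551171) (.g (nat_lit 3511) (.e (nat_lit 426107) (nat_lit 1) (.e (nat_lit 164326) (nat_lit 230) (.e (nat_lit 163871) (nat_lit 2) (.e (nat_lit 196656) (nat_lit 11) (.e (nat_lit 16463) (nat_lit 13) (.e (nat_lit 483341) (nat_lit 9) .nil)))))) (.g (nat_lit 1) (.e (nat_lit 297094) (nat_lit 0) .nil) .nil))) 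
(.lf (nat_lit 551683) (.g (nat_lit 3176) (.e (nat_lit 426121) (nat_lit 2) (.e (nat_lit 196666) (nat_lit 13) (.e (nat_lit 65617) (nat_lit 10) (.e (nat_lit 344132) (nat_lit 26) (.e (nat_lit 557093) (nat_lit 12) (.e (nat_lit 164022) (nat_lit 46) (.e (nat_lit 704626) (nat_lit 9) (.e (nat_lit 435) (nat_lit 32) .nil)))))))) (.g (nat_lit 1) (.e (nat_lit 298525) (nat_lit 0) .nil) .nil))))) 
(.nd (nat_lit 8) (.nd (nat_lit 9) 
(.lf (nat_lit 551043) (.g (nat_lit 1546) (.e (nat_lit 426106) (nat_lit 1) (.e (nat_lit 164183) (nat_lit 154) (.e (nat_lit 57411) (nat_lit 12) (.e (nat_lit 336325) (nat_lit 18) (.e (nat_lit 204876) (nat_lit 31) .nil))))) (.g (nat_lit 0) (.e (nat_lit 296724) (nat_lit 0) .nil) .nil))) 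
(.lf (nat_lit 551555) (.g (nat_lit 2898) (.e (nat_lit 426115) (nat_lit 2) (.e (nat_lit 196654) (nat_lit 11) (.e (nat_lit 16416) (nat_lit 3) (.e (nat_lit 204831) (nat_lit 18) (.e (nat_lit 57692) (nat_lit 156) .nil))))) (.g (nat_lit 0) (.e (nat_lit 298239) (nat_lit 0) .nil) .nil)))) (.nd (nat_lit 9) 
(.lf (nat_lit 551299) (.g (nat_lit 3492) (.e (nat_lit 426108) (nat_lit 1) (.e (nat_lit 164330) (nat_lit 230) (.e (nat_lit 163873) (nat_lit 3) (.e (nat_lit 204813) (nat_lit 9) (.e (nat_lit 426199) (nat_lit 9) (.e (nat_lit 426480) (nat_lit 27) (.e (nat_lit 336385) (nat_lit 27) .nil))))))) (.g (nat_lit 1) (.e (nat_lit 297408) (nat_lit 0) .nil) .nil))) 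
(.lf (nat_lit 551811) (.g (nat_lit 3639) (.e (nat_lit 426122) (nat_lit 2) (.e (nat_lit 196666) (nat_lit 13) (.e (nat_lit 65617) (nat_lit 10) (.e (nat_lit 344132) (nat_lit 26) (.e (nat_lit 557093) (nat_lit 12) (.e (nat_lit 164022) (nat_lit 46) (.e (nat_lit 704629) (nat_lit 9) (.e (nat_lit 416) (nat_lit 32) .nil)))))))) (.g (nat_lit 1) (.e (nat_lit 298695) (nat_lit 0) .nil) .nil)))))) 
(.nd (nat_lit 7) (.nd (nat_lit 8) (.nd (nat_lit 9) 
(.lf (nat_lit 550979) (.g (nat_lit 3474) (.e (nat_lit 426105) (nat_lit 1) (.e (nat_lit 164327) (nat_lit 230) (.e (nat_lit 163871) (nat_lit 2) (.e (nat_lit 196654) (nat_lit 11) (.e (nat_lit 16463) (nat_lit 13) (.e (nat_lit 483341) (nat_lit 9) .nil)))))) (.g (nat_lit 1) (.e (nat_lit 296620) (nat_lit 0) .nil) .nil))) 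
(.lf (nat_lit 551491) (.g (nat_lit 1211) (.e (nat_lit 433920) (nat_lit 1) (.e (nat_lit 164399) (nat_lit 256) (.e (nat_lit 57407) (nat_lit 12) (.e (nat_lit 336426) (nat_lit 29) .nil)))) (.g (nat_lit 0) (.e (nat_lit 298067) (nat_lit 0) .nil) .nil)))) (.nd (nat_lit 9) 
(.lf (nat_lit 551235) (.g (nat_lit 350) (.e (nat_lit 426107) (nat_lit 1) (.e (nat_lit 164403) (nat_lit 256) (.e (nat_lit 57371) (nat_lit 2) .nil))) (.g (nat_lit 0) (.e (nat_lit 297303) (nat_lit 0) .nil) .nil))) 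
(.lf (nat_lit 551747) (.g (nat_lit 4115) (.e (nat_lit 426121) (nat_lit 2) (.e (nat_lit 196666) (nat_lit 13) (.e (nat_lit 65617) (nat_lit 10) (.e (nat_lit 344133) (nat_lit 26) (.e (nat_lit 557091) (nat_lit 12) (.e (nat_lit 164022) (nat_lit 46) (.e (nat_lit 704627) (nat_lit 9) (.e (nat_lit 416) (nat_lit 32) .nil)))))))) (.g (nat_lit 1) (.e (nat_lit 298601) (nat_lit 0) .nil) .nil))))) 
(.nd (nat_lit 8) (.nd (nat_lit 9) 
(.lf (nat_lit 551107) (.g (nat_lit 1552) (.e (nat_lit 426107) (nat_lit 1) (.e (nat_lit 164182) (nat_lit 154) (.e (nat_lit 57409) (nat_lit 12) (.e (nat_lit 336315) (nat_lit 17) .nil)))) (.g (nat_lit 0) (.e (nat_lit 296845) (nat_lit 0) .nil) .nil))) 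
(.lf (nat_lit 551619) (.g (nat_lit 2952) (.e (nat_lit 426120) (nat_lit 2) (.e (nat_lit 196666) (nat_lit 13) (.e (nat_lit 65617) (nat_lit 10) (.e (nat_lit 344132) (nat_lit 26) (.e (nat_lit 557094) (nat_lit 12) (.e (nat_lit 164022) (nat_lit 46) (.e (nat_lit 704629) (nat_lit 9) (.e (nat_lit 373) (nat_lit 32) .nil)))))))) (.g (nat_lit 1) (.e (nat_lit 298441) (nat_lit 0) .nil) .nil)))) 
(.nd (nat_lit 9) 
(.lf (nat_lit 551363) (.g (nat_lit 1838) (.e (nat_lit 426109) (nat_lit 1) (.e (nat_lit 164187) (nat_lit 157) (.e (nat_lit 229412) (nat_lit 14) (.e (nat_lit 442411) (nat_lit 20) (.e (nat_lit 3469) (nat_lit 217) .nil))))) (.g (nat_lit 0) (.e (nat_lit 297555) (nat_lit 0) .nil) .nil))) 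
(.lf (nat_lit 551875) (.g (nat_lit 2785) (.e (nat_lit 426123) (nat_lit 2) (.e (nat_lit 196666) (nat_lit 13) (.e (nat_lit 65583) (nat_lit 7) (.e (nat_lit 319506) (nat_lit 10) (.e (nat_lit 578) (nat_lit 43) (.e (nat_lit 524032) (nat_lit 20) (.e (nat_lit 114698) (nat_lit 11) .nil))))))) (.g (nat_lit 1) (.e (nat_lit 298800) (nat_lit 0) .nil) .nil))))))) 
(.nd (nat_lit 6) (.nd (nat_lit 7) (.nd (nat_lit 8) (.nd (nat_lit 9) 
(.lf (nat_lit 550947) (.g (nat_lit 2574) (.e (nat_lit 426105) (nat_lit 1) (.e (nat_lit 164178) (nat_lit 154) (.e (nat_lit 57407) (nat_lit 12) (.e (nat_lit 336316) (nat_lit 17) (.e (nat_lit 196674) (nat_lit 15) .nil))))) (.g (nat_lit 0) (.e (nat_lit 296562) (nat_lit 0) .nil) .nil))) 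
(.lf (nat_lit 551459) (.g (nat_lit 1062) (.e (nat_lit 426111) (nat_lit 1) (.e (nat_lit 164327) (nat_lit 230) (.e (nat_lit 163882) (nat_lit 4) .nil))) (.g (nat_lit 0) (.e (nat_lit 297955) (nat_lit 0) .nil) .nil)))) (.nd (nat_lit 9) 
(.lf (nat_lit 551203) (.g (nat_lit 3402) (.e (nat_lit 426107) (nat_lit 1) (.e (nat_lit 164327) (nat_lit 230) (.e (nat_lit 163873) (nat_lit 3) (.e (nat_lit 204813) (nat_lit 9) (.e (nat_lit 426200) (nat_lit 9) (.e (nat_lit 426481) (nat_lit 27) (.e (nat_lit 336388) (nat_lit 27) .nil))))))) (.g (nat_lit 1) (.e (nat_lit 297167) (nat_lit 0) .nil) .nil))) 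
(.lf (nat_lit 551715) (.g (nat_lit 2666) (.e (nat_lit 426121) (nat_lit 2) (.e (nat_lit 196666) (nat_lit 13) (.e (nat_lit 65617) (nat_lit 10) (.e (nat_lit 344132) (nat_lit 26) (.e (nat_lit 557094) (nat_lit 12) (.e (nat_lit 164022) (nat_lit 46) (.e (nat_lit 704626) (nat_lit 9) (.e (nat_lit 399) (nat_lit 32) .nil)))))))) (.g (nat_lit 1) (.e (nat_lit 298567) (nat_lit 0) .nil) .nil))))) 
(.nd (nat_lit 8) (.nd (nat_lit 9) 
(.lf (nat_lit 551075) (.g (nat_lit 3702) (.e (nat_lit 426106) (nat_lit 1) (.e (nat_lit 164332) (nat_lit 230) (.e (nat_lit 163869) (nat_lit 2) (.e (nat_lit 196656) (nat_lit 11) (.e (nat_lit 16466) (nat_lit 13) (.e (nat_lit 483341) (nat_lit 9) .nil)))))) (.g (nat_lit 1) (.e (nat_lit 296796) (nat_lit 0) .nil) .nil))) 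
(.lf (nat_lit 551587) (.g (nat_lit 2613) (.e (nat_lit 426117) (nat_lit 2) (.e (nat_lit 196666) (nat_lit 13) (.e (nat_lit 65617) (nat_lit 10) (.e (nat_lit 344133) (nat_lit 26) (.e (nat_lit 557091) (nat_lit 12) (.e (nat_lit 164016) (nat_lit 44) (.e (nat_lit 688138) (nat_lit 5) (.e (nat_lit 2887) (nat_lit 184) .nil)))))))) (.g (nat_lit 1) (.e (nat_lit 298398) (nat_lit 0) .nil) .nil)))) 
(.nd (nat_lit 9) 
(.lf (nat_lit 551331) (.g (nat_lit 2427) (.e (nat_lit 426108) (nat_lit 1) (.e (nat_lit 164332) (nat_lit 230) (.e (nat_lit 163880) (nat_lit 4) (.e (nat_lit 213032) (nat_lit 11) .nil)))) (.g (nat_lit 0) (.e (nat_lit 297509) (nat_lit 0) .nil) .nil))) 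
(.lf (nat_lit 551843) (.g (nat_lit 2366) (.e (nat_lit 426122) (nat_lit 2) (.e (nat_lit 196666) (nat_lit 13) (.e (nat_lit 65617) (nat_lit 10) (.e (nat_lit 344133) (nat_lit 26) (.e (nat_lit 557091) (nat_lit 12) (.e (nat_lit 164022) (nat_lit 46) (.e (nat_lit 704629) (nat_lit 9) (.e (nat_lit 389) (nat_lit 32) .nil)))))))) (.g (nat_lit 1) (.e (nat_lit 298732) (nat_lit 0) .nil) .nil)))))) 
(.nd (nat_lit 7) (.nd (nat_lit 8) (.nd (nat_lit 9) 
(.lf (nat_lit 551011) (.g (nat_lit 1619) (.e (nat_lit 426105) (nat_lit 1) (.e (nat_lit 164403) (nat_lit 256) (.e (nat_lit 57373) (nat_lit 2) (.e (nat_lit 90176) (nat_lit 15) .nil)))) (.g (nat_lit 0) (.e (nat_lit 296684) (nat_lit 0) .nil) .nil))) 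
(.lf (nat_lit 551523) (.g (nat_lit 3592) (.e (nat_lit 426113) (nat_lit 2) (.e (nat_lit 196666) (nat_lit 13) (.e (nat_lit 65617) (nat_lit 10) (.e (nat_lit 344130) (nat_lit 26) (.e (nat_lit 557090) (nat_lit 12) (.e (nat_lit 164016) (nat_lit 44) (.e (nat_lit 688138) (nat_lit 5) (.e (nat_lit 2887) (nat_lit 184) .nil)))))))) (.g (nat_lit 1) (.e (nat_lit 298112) (nat_lit 0) .nil) .nil)))) 
(.nd (nat_lit 9) 
(.lf (nat_lit 551267) (.g (nat_lit 1756) (.e (nat_lit 426108) (nat_lit 1) (.e (nat_lit 164329) (nat_lit 230) (.e (nat_lit 163867) (nat_lit 2) (.e (nat_lit 196653) (nat_lit 11) (.e (nat_lit 16468) (nat_lit 13) .nil))))) (.g (nat_lit 0) (.e (nat_lit 297351) (nat_lit 0) .nil) .nil))) 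
(.lf (nat_lit 551779) (.g (nat_lit 1852) (.e (nat_lit 426122) (nat_lit 2) (.e (nat_lit 196666) (nat_lit 13) (.e (nat_lit 65617) (nat_lit 10) (.e (nat_lit 344130) (nat_lit 26) (.e (nat_lit 557090) (nat_lit 12) .nil))))) (.g (nat_lit 0) (.e (nat_lit 298663) (nat_lit 0) .nil) .nil))))) (.nd (nat_lit 8) (.nd (nat_lit 9) 
(.lf (nat_lit 551139) (.g (nat_lit 1591) (.e (nat_lit 426107) (nat_lit 1) (.e (nat_lit 164325) (nat_lit 230) (.e (nat_lit 163873) (nat_lit 3) (.e (nat_lit 204813) (nat_lit 9) (.e (nat_lit 426200) (nat_lit 9) .nil))))) (.g (nat_lit 0) (.e (nat_lit 296939) (nat_lit 0) .nil) .nil))) 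
(.lf (nat_lit 551651) (.g (nat_lit 2758) (.e (nat_lit 426121) (nat_lit 2) (.e (nat_lit 196666) (nat_lit 13) (.e (nat_lit 65617) (nat_lit 10) (.e (nat_lit 344130) (nat_lit 26) (.e (nat_lit 557090) (nat_lit 12) (.e (nat_lit 164022) (nat_lit 46) (.e (nat_lit 704626) (nat_lit 9) (.e (nat_lit 388) (nat_lit 32) .nil)))))))) (.g (nat_lit 1) (.e (nat_lit 298493) (nat_lit 0) .nil) .nil)))) 
(.nd (nat_lit 9) 
(.lf (nat_lit 551395) (.g (nat_lit 114) (.e (nat_lit 426109) (nat_lit 1) (.e (nat_lit 164346) (nat_lit 240) (.e (nat_lit 2639) (nat_lit 165) .nil))) (.g (nat_lit 0) (.e (nat_lit 297711) (nat_lit 0) .nil) .nil))) 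
(.lf (nat_lit 551907) (.g (nat_lit 3275) (.e (nat_lit 426123) (nat_lit 2) (.e (nat_lit 196666) (nat_lit 13) (.e (nat_lit 65610) (nat_lit 10) (.e (nat_lit 344129) (nat_lit 26) (.e (nat_lit 557089) (nat_lit 12) (.e (nat_lit 163850) (nat_lit 0) (.e (nat_lit 6425) (nat_lit 342) (.e (nat_lit 229406) (nat_lit 12) .nil)))))))) (.g (nat_lit 1) (.e (nat_lit 299017) (nat_lit 0) .nil) .nil)))))))) 
(.nd (nat_lit 5) (.nd (nat_lit 6) (.nd (nat_lit 7) (.nd (nat_lit 8) (.nd (nat_lit 9) 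
(.lf (nat_lit 550931) (.g (nat_lit 742) (.e (nat_lit 426101) (nat_lit 1) (.e (nat_lit 164325) (nat_lit 230) (.e (nat_lit 163882) (nat_lit 4) .nil))) (.g (nat_lit 0) (.e (nat_lit 296472) (nat_lit 0) .nil) .nil))) 
(.lf (nat_lit 551443) (.g (nat_lit 1790) (.e (nat_lit 426110) (nat_lit 1) (.e (nat_lit 164327) (nat_lit 230) (.e (nat_lit 163882) (nat_lit 4) (.e (nat_lit 213032) (nat_lit 11) (.e (nat_lit 24659) (nat_lit 13) (.e (nat_lit 393279) (nat_lit 23) .nil)))))) (.g (nat_lit 1) (.e (nat_lit 297920) (nat_lit 0) .nil) .nil)))) (.nd (nat_lit 9) 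
(.lf (nat_lit 551187) (.g (nat_lit 2676) (.e (nat_lit 426107) (nat_lit 1) (.e (nat_lit 164327) (nat_lit 230) (.e (nat_lit 163871) (nat_lit 2) (.e (nat_lit 196654) (nat_lit 11) (.e (nat_lit 16436) (nat_lit 9) (.e (nat_lit 426480) (nat_lit 27) (.e (nat_lit 336388) (nat_lit 27) .nil))))))) (.g (nat_lit 1) (.e (nat_lit 297147) (nat_lit 0) .nil) .nil))) 
(.lf (nat_lit 551699) (.g (nat_lit 3479) (.e (nat_lit 426121) (nat_lit 2) (.e (nat_lit 196666) (nat_lit 13) (.e (nat_lit 65617) (nat_lit 10) (.e (nat_lit 344132) (nat_lit 26) (.e (nat_lit 557093) (nat_lit 12) (.e (nat_lit 164023) (nat_lit 46) (.e (nat_lit 704626) (nat_lit 9) (.e (nat_lit 391) (nat_lit 32) .nil)))))))) (.g (nat_lit 1) (.e (nat_lit 298542) (nat_lit 0) .nil) .nil))))) 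
(.nd (nat_lit 8) (.nd (nat_lit 9) 
(.lf (nat_lit 551059) (.g (nat_lit 2691) (.e (nat_lit 426106) (nat_lit 1) (.e (nat_lit 164327) (nat_lit 230) (.e (nat_lit 163870) (nat_lit 2) (.e (nat_lit 196654) (nat_lit 11) (.e (nat_lit 16466) (nat_lit 13) .nil))))) (.g (nat_lit 0) (.e (nat_lit 296756) (nat_lit 0) .nil) .nil))) 
(.lf (nat_lit 551571) (.g (nat_lit 1423) (.e (nat_lit 426116) (nat_lit 2) (.e (nat_lit 196656) (nat_lit 11) (.e (nat_lit 16416) (nat_lit 3) (.e (nat_lit 204812) (nat_lit 9) (.e (nat_lit 426138) (nat_lit 3) .nil))))) (.g (nat_lit 0) (.e (nat_lit 298329) (nat_lit 0) .nil) .nil)))) (.nd (nat_lit 9) 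
(.lf (nat_lit 551315) (.g (nat_lit 2462) (.e (nat_lit 426108) (nat_lit 1) (.e (nat_lit 164331) (nat_lit 230) (.e (nat_lit 163873) (nat_lit 3) (.e (nat_lit 204813) (nat_lit 9) (.e (nat_lit 426200) (nat_lit 9) (.e (nat_lit 426481) (nat_lit 27) (.e (nat_lit 336388) (nat_lit 27) .nil))))))) (.g (nat_lit 1) (.e (nat_lit 297441) (nat_lit 0) .nil) .nil))) 
(.lf (nat_lit 551827) (.g (nat_lit 2173) (.e (nat_lit 426122) (nat_lit 2) (.e (nat_lit 196666) (nat_lit 13) (.e (nat_lit 65617) (nat_lit 10) (.e (nat_lit 344132) (nat_lit 26) (.e (nat_lit 557094) (nat_lit 12) (.e (nat_lit 164022) (nat_lit 46) (.e (nat_lit 704629) (nat_lit 9) (.e (nat_lit 398) (nat_lit 32) .nil)))))))) (.g (nat_lit 1) (.e (nat_lit 298716) (nat_lit 0) .nil) .nil)))))) 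
(.nd (nat_lit 7) (.nd (nat_lit 8) (.nd (nat_lit 9) 
(.lf (nat_lit 550995) (.g (nat_lit 2641) (.e (nat_lit 426105) (nat_lit 1) (.e (nat_lit 164332) (nat_lit 230) (.e (nat_lit 163869) (nat_lit 2) (.e (nat_lit 196654) (nat_lit 11) (.e (nat_lit 16466) (nat_lit 13) .nil))))) (.g (nat_lit 0) (.e (nat_lit 296662) (nat_lit 0) .nil) .nil))) 
(.lf (nat_lit 551507) (.g (nat_lit 1016) (.e (nat_lit 433920) (nat_lit 1) (.e (nat_lit 164403) (nat_lit 256) (.e (nat_lit 57378) (nat_lit 3) (.e (nat_lit 98380) (nat_lit 31) .nil)))) (.g (nat_lit 0) (.e (nat_lit 298083) (nat_lit 0) .nil) .nil)))) (.nd (nat_lit 9) 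
(.lf (nat_lit 551251) (.g (nat_lit 804) (.e (nat_lit 426107) (nat_lit 1) (.e (nat_lit 164403) (nat_lit 256) (.e (nat_lit 57408) (nat_lit 12) (.e (nat_lit 336434) (nat_lit 30) .nil)))) (.g (nat_lit 0) (.e (nat_lit 297320) (nat_lit 0) .nil) .nil))) 
(.lf (nat_lit 551763) (.g (nat_lit 2117) (.e (nat_lit 426121) (nat_lit 2) (.e (nat_lit 196666) (nat_lit 13) (.e (nat_lit 65622) (nat_lit 12) (.e (nat_lit 385068) (nat_lit 26) (.e (nat_lit 532515) (nat_lit 3) .nil))))) (.g (nat_lit 0) (.e (nat_lit 298620) (nat_lit 0) .nil) .nil))))) (.nd (nat_lit 8) (.nd (nat_lit 9) 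
(.lf (nat_lit 551123) (.g (nat_lit 834) (.e (nat_lit 426107) (nat_lit 1) (.e (nat_lit 164325) (nat_lit 230) (.e (nat_lit 163868) (nat_lit 2) (.e (nat_lit 196656) (nat_lit 11) .nil)))) (.g (nat_lit 0) (.e (nat_lit 296909) (nat_lit 0) .nil) .nil))) 
(.lf (nat_lit 551635) (.g (nat_lit 2674) (.e (nat_lit 426121) (nat_lit 2) (.e (nat_lit 196656) (nat_lit 11) (.e (nat_lit 16412) (nat_lit 2) (.e (nat_lit 196653) (nat_lit 11) (.e (nat_lit 16415) (nat_lit 3) .nil))))) (.g (nat_lit 0) (.e (nat_lit 298470) (nat_lit 0) .nil) .nil)))) (.nd (nat_lit 9) 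
(.lf (nat_lit 551379) (.g (nat_lit 2955) (.e (nat_lit 426109) (nat_lit 1) (.e (nat_lit 164327) (nat_lit 230) (.e (nat_lit 163871) (nat_lit 2) (.e (nat_lit 196656) (nat_lit 11) (.e (nat_lit 16436) (nat_lit 9) .nil))))) (.g (nat_lit 0) (.e (nat_lit 297642) (nat_lit 0) .nil) .nil))) 
(.lf (nat_lit 551891) (.g (nat_lit 3662) (.e (nat_lit 426123) (nat_lit 2) (.e (nat_lit 196666) (nat_lit 13) (.e (nat_lit 65610) (nat_lit 10) (.e (nat_lit 344117) (nat_lit 21) (.e (nat_lit 524032) (nat_lit 18) (.e (nat_lit 57692) (nat_lit 156) (.e (nat_lit 171776) (nat_lit 12) .nil))))))) (.g (nat_lit 1) (.e (nat_lit 298962) (nat_lit 0) .nil) .nil))))))) 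
(.nd (nat_lit 6) (.nd (nat_lit 7) (.nd (nat_lit 8) (.nd (nat_lit 9) 
(.lf (nat_lit 550963) (.g (nat_lit 2003) (.e (nat_lit 426105) (nat_lit 1) (.e (nat_lit 164183) (nat_lit 154) (.e (nat_lit 57411) (nat_lit 12) (.e (nat_lit 336316) (nat_lit 17) (.e (nat_lit 196672) (nat_lit 15) .nil))))) (.g (nat_lit 0) (.e (nat_lit 296581) (nat_lit 0) .nil) .nil))) 
(.lf (nat_lit 551475) (.g (nat_lit 1368) (.e (nat_lit 433920) (nat_lit 1) (.e (nat_lit 164327) (nat_lit 230) (.e (nat_lit 163871) (nat_lit 2) (.e (nat_lit 196653) (nat_lit 11) (.e (nat_lit 16465) (nat_lit 13) .nil))))) (.g (nat_lit 0) (.e (nat_lit 298037) (nat_lit 0) .nil) .nil)))) (.nd (nat_lit 9) 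
(.lf (nat_lit 551219) (.g (nat_lit 1578) (.e (nat_lit 426107) (nat_lit 1) (.e (nat_lit 164345) (nat_lit 240) (.e (nat_lit 2638) (nat_lit 165) (.e (nat_lit 180278) (nat_lit 32) (.e (nat_lit 1659) (nat_lit 115) (.e (nat_lit 401152) (nat_lit 23) .nil)))))) (.g (nat_lit 1) (.e (nat_lit 297222) (nat_lit 0) .nil) .nil))) 
(.lf (nat_lit 551731) (.g (nat_lit 2633) (.e (nat_lit 426121) (nat_lit 2) (.e (nat_lit 196666) (nat_lit 13) (.e (nat_lit 65617) (nat_lit 10) (.e (nat_lit 344132) (nat_lit 26) (.e (nat_lit 557094) (nat_lit 12) (.e (nat_lit 171776) (nat_lit 48) (.e (nat_lit 720908) (nat_lit 11) .nil))))))) (.g (nat_lit 1) (.e (nat_lit 298583) (nat_lit 0) .nil) .nil))))) (.nd (nat_lit 8) (.nd (nat_lit 9) 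
(.lf (nat_lit 551091) (.g (nat_lit 1864) (.e (nat_lit 426106) (nat_lit 1) (.e (nat_lit 164403) (nat_lit 256) (.e (nat_lit 57445) (nat_lit 19) (.e (nat_lit 393281) (nat_lit 23) (.e (nat_lit 426133) (nat_lit 3) .nil))))) (.g (nat_lit 0) (.e (nat_lit 296815) (nat_lit 0) .nil) .nil))) 
(.lf (nat_lit 551603) (.g (nat_lit 2320) (.e (nat_lit 426120) (nat_lit 2) (.e (nat_lit 196666) (nat_lit 13) (.e (nat_lit 65617) (nat_lit 10) (.e (nat_lit 344130) (nat_lit 26) (.e (nat_lit 557090) (nat_lit 12) (.e (nat_lit 164022) (nat_lit 46) (.e (nat_lit 704627) (nat_lit 9) (.e (nat_lit 370) (nat_lit 32) .nil)))))))) (.g (nat_lit 1) (.e (nat_lit 298425) (nat_lit 0) .nil) .nil)))) 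
(.nd (nat_lit 9) 
(.lf (nat_lit 551347) (.g (nat_lit 1840) (.e (nat_lit 426108) (nat_lit 1) (.e (nat_lit 164403) (nat_lit 256) (.e (nat_lit 57373) (nat_lit 2) (.e (nat_lit 90170) (nat_lit 13) (.e (nat_lit 172123) (nat_lit 13) .nil))))) (.g (nat_lit 0) (.e (nat_lit 297532) (nat_lit 0) .nil) .nil))) 
(.lf (nat_lit 551859) (.g (nat_lit 2448) (.e (nat_lit 426122) (nat_lit 2) (.e (nat_lit 196681) (nat_lit 17) (.e (nat_lit 131120) (nat_lit 12) (.e (nat_lit 385066) (nat_lit 26) (.e (nat_lit 532513) (nat_lit 3) (.e (nat_lit 114698) (nat_lit 11) .nil)))))) (.g (nat_lit 1) (.e (nat_lit 298764) (nat_lit 0) .nil) .nil)))))) (.nd (nat_lit 7) (.nd (nat_lit 8) (.nd (nat_lit 9) 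
(.lf (nat_lit 551027) (.g (nat_lit 1329) (.e (nat_lit 426106) (nat_lit 1) (.e (nat_lit 164179) (nat_lit 154) (.e (nat_lit 57407) (nat_lit 12) (.e (nat_lit 336322) (nat_lit 18) .nil)))) (.g (nat_lit 0) (.e (nat_lit 296708) (nat_lit 0) .nil) .nil))) 
(.lf (nat_lit 551539) (.g (nat_lit 2274) (.e (nat_lit 426114) (nat_lit 2) (.e (nat_lit 196666) (nat_lit 13) (.e (nat_lit 65610) (nat_lit 10) (.e (nat_lit 344129) (nat_lit 26) (.e (nat_lit 557089) (nat_lit 12) .nil))))) (.g (nat_lit 0) (.e (nat_lit 298196) (nat_lit 0) .nil) .nil)))) (.nd (nat_lit 9) 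
(.lf (nat_lit 551283) (.g (nat_lit 1168) (.e (nat_lit 426108) (nat_lit 1) (.e (nat_lit 164330) (nat_lit 230) (.e (nat_lit 163867) (nat_lit 2) (.e (nat_lit 196656) (nat_lit 11) .nil)))) (.g (nat_lit 0) (.e (nat_lit 297381) (nat_lit 0) .nil) .nil))) 
(.lf (nat_lit 551795) (.g (nat_lit 2846) (.e (nat_lit 426122) (nat_lit 2) (.e (nat_lit 196666) (nat_lit 13) (.e (nat_lit 65617) (nat_lit 10) (.e (nat_lit 344130) (nat_lit 26) (.e (nat_lit 557090) (nat_lit 12) (.e (nat_lit 164022) (nat_lit 46) (.e (nat_lit 704629) (nat_lit 9) (.e (nat_lit 391) (nat_lit 32) .nil)))))))) (.g (nat_lit 1) (.e (nat_lit 298679) (nat_lit 0) .nil) .nil))))) 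
(.nd (nat_lit 8) (.nd (nat_lit 9) 
(.lf (nat_lit 551155) (.g (nat_lit 2898) (.e (nat_lit 426107) (nat_lit 1) (.e (nat_lit 164326) (nat_lit 230) (.e (nat_lit 163868) (nat_lit 2) (.e (nat_lit 196654) (nat_lit 11) (.e (nat_lit 16466) (nat_lit 13) (.e (nat_lit 483341) (nat_lit 9) .nil)))))) (.g (nat_lit 1) (.e (nat_lit 297004) (nat_lit 0) .nil) .nil))) 
(.lf (nat_lit 551667) (.g (nat_lit 3680) (.e (nat_lit 426121) (nat_lit 2) (.e (nat_lit 196666) (nat_lit 13) (.e (nat_lit 65617) (nat_lit 10) (.e (nat_lit 344130) (nat_lit 26) (.e (nat_lit 557090) (nat_lit 12) (.e (nat_lit 164022) (nat_lit 46) (.e (nat_lit 704629) (nat_lit 9) (.e (nat_lit 391) (nat_lit 32) .nil)))))))) (.g (nat_lit 1) (.e (nat_lit 298509) (nat_lit 0) .nil) .nil)))) 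
(.nd (nat_lit 9) 
(.lf (nat_lit 551411) (.g (nat_lit 2096) (.e (nat_lit 426109) (nat_lit 1) (.e (nat_lit 164403) (nat_lit 256) (.e (nat_lit 57378) (nat_lit 3) (.e (nat_lit 98365) (nat_lit 26) (.e (nat_lit 426187) (nat_lit 9) .nil))))) (.g (nat_lit 0) (.e (nat_lit 297775) (nat_lit 0) .nil) .nil))) 
(.lf (nat_lit 551923) (.g (nat_lit 2248) (.e (nat_lit 426123) (nat_lit 2) (.e (nat_lit 196666) (nat_lit 13) (.e (nat_lit 65610) (nat_lit 10) (.e (nat_lit 344129) (nat_lit 26) (.e (nat_lit 557090) (nat_lit 12) (.e (nat_lit 163849) (nat_lit 0) (.e (nat_lit 6420) (nat_lit 341) (.e (nat_lit 171776) (nat_lit 12) .nil)))))))) (.g (nat_lit 1) (.e (nat_lit 299048) (nat_lit 0) .nil) .nil))))))))) 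
(.nd (nat_lit 4) (.nd (nat_lit 5) (.nd (nat_lit 6) (.nd (nat_lit 7) (.nd (nat_lit 8) 
(.nd (nat_lit 9) 
(.lf (nat_lit 550923) (.g (nat_lit 3117) (.e (nat_lit 426100) (nat_lit 1) (.e (nat_lit 164403) (nat_lit 256) (.e (nat_lit 57378) (nat_lit 3) (.e (nat_lit 98358) (nat_lit 26) (.e (nat_lit 426323) (nat_lit 13) (.e (nat_lit 483336) (nat_lit 9) .nil)))))) (.g (nat_lit 1) (.e (nat_lit 296461) (nat_lit 0) .nil) .nil))) 
(.lf (nat_lit 551435) (.g (nat_lit 2825) (.e (nat_lit 426110) (nat_lit 1) (.e (nat_lit 164327) (nat_lit 230) (.e (nat_lit 163871) (nat_lit 2) (.e (nat_lit 196656) (nat_lit 11) (.e (nat_lit 16463) (nat_lit 13) (.e (nat_lit 483338) (nat_lit 9) .nil)))))) (.g (nat_lit 1) (.e (nat_lit 297869) (nat_lit 0) .nil) .nil)))) (.nd (nat_lit 9) 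
(.lf (nat_lit 551179) (.g (nat_lit 2462) (.e (nat_lit 426107) (nat_lit 1) (.e (nat_lit 164327) (nat_lit 230) (.e (nat_lit 163868) (nat_lit 2) (.e (nat_lit 196654) (nat_lit 11) (.e (nat_lit 16466) (nat_lit 13) (.e (nat_lit 483336) (nat_lit 9) .nil)))))) (.g (nat_lit 1) (.e (nat_lit 297127) (nat_lit 0) .nil) .nil))) 
(.lf (nat_lit 551691) (.g (nat_lit 2525) (.e (nat_lit 426121) (nat_lit 2) (.e (nat_lit 196666) (nat_lit 13) (.e (nat_lit 65617) (nat_lit 10) (.e (nat_lit 344132) (nat_lit 26) (.e (nat_lit 557093) (nat_lit 12) (.e (nat_lit 164022) (nat_lit 46) (.e (nat_lit 704628) (nat_lit 9) (.e (nat_lit 440) (nat_lit 32) .nil)))))))) (.g (nat_lit 1) (.e (nat_lit 298533) (nat_lit 0) .nil) .nil))))) 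
(.nd (nat_lit 8) (.nd (nat_lit 9) 
(.lf (nat_lit 551051) (.g (nat_lit 3039) (.e (nat_lit 426106) (nat_lit 1) (.e (nat_lit 164326) (nat_lit 230) (.e (nat_lit 163868) (nat_lit 2) (.e (nat_lit 196656) (nat_lit 11) (.e (nat_lit 16466) (nat_lit 13) (.e (nat_lit 483341) (nat_lit 9) .nil)))))) (.g (nat_lit 1) (.e (nat_lit 296746) (nat_lit 0) .nil) .nil))) 
(.lf (nat_lit 551563) (.g (nat_lit 1604) (.e (nat_lit 426116) (nat_lit 2) (.e (nat_lit 196656) (nat_lit 11) (.e (nat_lit 16388) (nat_lit 0) (.e (nat_lit 3181) (nat_lit 193) .nil)))) (.g (nat_lit 0) (.e (nat_lit 298306) (nat_lit 0) .nil) .nil)))) (.nd (nat_lit 9) 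
(.lf (nat_lit 551307) (.g (nat_lit 2862) (.e (nat_lit 426108) (nat_lit 1) (.e (nat_lit 164330) (nat_lit 230) (.e (nat_lit 163874) (nat_lit 3) (.e (nat_lit 204813) (nat_lit 9) (.e (nat_lit 426200) (nat_lit 9) (.e (nat_lit 426481) (nat_lit 27) (.e (nat_lit 336388) (nat_lit 27) .nil))))))) (.g (nat_lit 1) (.e (nat_lit 297420) (nat_lit 0) .nil) .nil))) 
(.lf (nat_lit 551819) (.g (nat_lit 2199) (.e (nat_lit 426122) (nat_lit 2) (.e (nat_lit 196666) (nat_lit 13) (.e (nat_lit 65617) (nat_lit 10) (.e (nat_lit 344132) (nat_lit 26) (.e (nat_lit 557094) (nat_lit 12) (.e (nat_lit 164022) (nat_lit 46) (.e (nat_lit 704626) (nat_lit 9) (.e (nat_lit 391) (nat_lit 32) .nil)))))))) (.g (nat_lit 1) (.e (nat_lit 298708) (nat_lit 0) .nil) .nil)))))) 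
(.nd (nat_lit 7) (.nd (nat_lit 8) (.nd (nat_lit 9) 
(.lf (nat_lit 550987) (.g (nat_lit 2240) (.e (nat_lit 426105) (nat_lit 1) (.e (nat_lit 164332) (nat_lit 230) (.e (nat_lit 163866) (nat_lit 2) (.e (nat_lit 196654) (nat_lit 11) (.e (nat_lit 16466) (nat_lit 13) (.e (nat_lit 483341) (nat_lit 9) .nil)))))) (.g (nat_lit 1) (.e (nat_lit 296646) (nat_lit 0) .nil) .nil))) 
(.lf (nat_lit 551499) (.g (nat_lit 998) (.e (nat_lit 433920) (nat_lit 1) (.e (nat_lit 164399) (nat_lit 256) (.e (nat_lit 57409) (nat_lit 12) (.e (nat_lit 336443) (nat_lit 32) .nil)))) (.g (nat_lit 0) (.e (nat_lit 298075) (nat_lit 0) .nil) .nil)))) (.nd (nat_lit 9) 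
(.lf (nat_lit 551243) (.g (nat_lit 1988) (.e (nat_lit 426107) (nat_lit 1) (.e (nat_lit 164403) (nat_lit 256) (.e (nat_lit 57378) (nat_lit 3) (.e (nat_lit 98357) (nat_lit 26) .nil)))) (.g (nat_lit 0) (.e (nat_lit 297312) (nat_lit 0) .nil) .nil))) 
(.lf (nat_lit 551755) (.g (nat_lit 3921) (.e (nat_lit 426121) (nat_lit 2) (.e (nat_lit 196666) (nat_lit 13) (.e (nat_lit 65617) (nat_lit 10) (.e (nat_lit 344133) (nat_lit 26) (.e (nat_lit 557091) (nat_lit 12) (.e (nat_lit 164022) (nat_lit 46) (.e (nat_lit 704629) (nat_lit 9) (.e (nat_lit 391) (nat_lit 32) .nil)))))))) (.g (nat_lit 1) (.e (nat_lit 298609) (nat_lit 0) .nil) .nil))))) 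
(.nd (nat_lit 8) (.nd (nat_lit 9) 
(.lf (nat_lit 551115) (.g (nat_lit 1216) (.e (nat_lit 426107) (nat_lit 1) (.e (nat_lit 164322) (nat_lit 230) (.e (nat_lit 163868) (nat_lit 2) (.e (nat_lit 196656) (nat_lit 11) .nil)))) (.g (nat_lit 0) (.e (nat_lit 296857) (nat_lit 0) .nil) .nil))) 
(.lf (nat_lit 551627) (.g (nat_lit 2551) (.e (nat_lit 426120) (nat_lit 2) (.e (nat_lit 196666) (nat_lit 13) (.e (nat_lit 65617) (nat_lit 10) (.e (nat_lit 344133) (nat_lit 26) (.e (nat_lit 557091) (nat_lit 12) (.e (nat_lit 164022) (nat_lit 46) (.e (nat_lit 704627) (nat_lit 9) (.e (nat_lit 373) (nat_lit 32) .nil)))))))) (.g (nat_lit 1) (.e (nat_lit 298449) (nat_lit 0) .nil) .nil)))) 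
(.nd (nat_lit 9) 
(.lf (nat_lit 551371) (.g (nat_lit 804) (.e (nat_lit 426109) (nat_lit 1) (.e (nat_lit 164326) (nat_lit 230) (.e (nat_lit 163882) (nat_lit 4) (.e (nat_lit 213031) (nat_lit 11) (.e (nat_lit 24660) (nat_lit 13) .nil))))) (.g (nat_lit 0) (.e (nat_lit 297628) (nat_lit 0) .nil) .nil))) 
(.lf (nat_lit 551883) (.g (nat_lit 2665) (.e (nat_lit 426123) (nat_lit 2) (.e (nat_lit 196666) (nat_lit 13) (.e (nat_lit 65610) (nat_lit 10) (.e (nat_lit 344117) (nat_lit 21) (.e (nat_lit 516101) (nat_lit 0) .nil))))) (.g (nat_lit 0) (.e (nat_lit 298856) (nat_lit 0) .nil) .nil))))))) (.nd (nat_lit 6) (.nd (nat_lit 7) (.nd (nat_lit 8) (.nd (nat_lit 9) 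
(.lf (nat_lit 550955) (.g (nat_lit 1790) (.e (nat_lit 426105) (nat_lit 1) (.e (nat_lit 164179) (nat_lit 154) (.e (nat_lit 57411) (nat_lit 12) (.e (nat_lit 336326) (nat_lit 18) .nil)))) (.g (nat_lit 0) (.e (nat_lit 296572) (nat_lit 0) .nil) .nil))) 
(.lf (nat_lit 551467) (.g (nat_lit 1829) (.e (nat_lit 426112) (nat_lit 1) (.e (nat_lit 164348) (nat_lit 240) (.e (nat_lit 2610) (nat_lit 163) (.e (nat_lit 163977) (nat_lit 30) (.e (nat_lit 573491) (nat_lit 15) .nil))))) (.g (nat_lit 0) (.e (nat_lit 298021) (nat_lit 0) .nil) .nil)))) (.nd (nat_lit 9) 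
(.lf (nat_lit 551211) (.g (nat_lit 2685) (.e (nat_lit 426107) (nat_lit 1) (.e (nat_lit 164327) (nat_lit 230) (.e (nat_lit 163875) (nat_lit 3) (.e (nat_lit 204813) (nat_lit 9) (.e (nat_lit 426200) (nat_lit 9) (.e (nat_lit 426480) (nat_lit 27) (.e (nat_lit 336388) (nat_lit 27) .nil))))))) (.g (nat_lit 1) (.e (nat_lit 297192) (nat_lit 0) .nil) .nil))) 
(.lf (nat_lit 551723) (.g (nat_lit 3597) (.e (nat_lit 426121) (nat_lit 2) (.e (nat_lit 196666) (nat_lit 13) (.e (nat_lit 65617) (nat_lit 10) (.e (nat_lit 344132) (nat_lit 26) (.e (nat_lit 557094) (nat_lit 12) (.e (nat_lit 164022) (nat_lit 46) (.e (nat_lit 704628) (nat_lit 9) (.e (nat_lit 399) (nat_lit 32) .nil)))))))) (.g (nat_lit 1) (.e (nat_lit 298575) (nat_lit 0) .nil) .nil))))) 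
(.nd (nat_lit 8) (.nd (nat_lit 9) 
(.lf (nat_lit 551083) (.g (nat_lit 1705) (.e (nat_lit 426106) (nat_lit 1) (.e (nat_lit 164403) (nat_lit 256) (.e (nat_lit 57406) (nat_lit 12) (.e (nat_lit 336398) (nat_lit 27) .nil)))) (.g (nat_lit 0) (.e (nat_lit 296807) (nat_lit 0) .nil) .nil))) 
(.lf (nat_lit 551595) (.g (nat_lit 1030) (.e (nat_lit 426120) (nat_lit 2) (.e (nat_lit 196656) (nat_lit 11) (.e (nat_lit 16392) (nat_lit 0) .nil))) (.g (nat_lit 0) (.e (nat_lit 298417) (nat_lit 0) .nil) .nil)))) (.nd (nat_lit 9) 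
(.lf (nat_lit 551339) (.g (nat_lit 392) (.e (nat_lit 426108) (nat_lit 1) (.e (nat_lit 164403) (nat_lit 256) (.e (nat_lit 57370) (nat_lit 2) .nil))) (.g (nat_lit 0) (.e (nat_lit 297521) (nat_lit 0) .nil) .nil))) 
(.lf (nat_lit 551851) (.g (nat_lit 3010) (.e (nat_lit 426122) (nat_lit 2) (.e (nat_lit 196666) (nat_lit 13) (.e (nat_lit 65624) (nat_lit 12) (.e (nat_lit 385066) (nat_lit 26) (.e (nat_lit 532515) (nat_lit 3) (.e (nat_lit 114697) (nat_lit 11) .nil)))))) (.g (nat_lit 1) (.e (nat_lit 298749) (nat_lit 0) .nil) .nil)))))) (.nd (nat_lit 7) (.nd (nat_lit 8) (.nd (nat_lit 9) 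
(.lf (nat_lit 551019) (.g (nat_lit 1439) (.e (nat_lit 426105) (nat_lit 1) (.e (nat_lit 164403) (nat_lit 256) (.e (nat_lit 57408) (nat_lit 12) (.e (nat_lit 336443) (nat_lit 32) (.e (nat_lit 466979) (nat_lit 23) .nil))))) (.g (nat_lit 0) (.e (nat_lit 296692) (nat_lit 0) .nil) .nil))) 
(.lf (nat_lit 551531) (.g (nat_lit 3464) (.e (nat_lit 426113) (nat_lit 2) (.e (nat_lit 196666) (nat_lit 13) (.e (nat_lit 65617) (nat_lit 10) (.e (nat_lit 344133) (nat_lit 26) (.e (nat_lit 557091) (nat_lit 12) (.e (nat_lit 164016) (nat_lit 44) (.e (nat_lit 688139) (nat_lit 5) (.e (nat_lit 2887) (nat_lit 184) .nil)))))))) (.g (nat_lit 1) (.e (nat_lit 298122) (nat_lit 0) .nil) .nil)))) 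
(.nd (nat_lit 9) 
(.lf (nat_lit 551275) (.g (nat_lit 1332) (.e (nat_lit 426108) (nat_lit 1) (.e (nat_lit 164329) (nat_lit 230) (.e (nat_lit 163869) (nat_lit 2) (.e (nat_lit 196654) (nat_lit 11) .nil)))) (.g (nat_lit 0) (.e (nat_lit 297365) (nat_lit 0) .nil) .nil))) 
(.lf (nat_lit 551787) (.g (nat_lit 2113) (.e (nat_lit 426122) (nat_lit 2) (.e (nat_lit 196666) (nat_lit 13) (.e (nat_lit 65617) (nat_lit 10) (.e (nat_lit 344130) (nat_lit 26) (.e (nat_lit 557090) (nat_lit 12) (.e (nat_lit 164022) (nat_lit 46) (.e (nat_lit 704627) (nat_lit 9) (.e (nat_lit 398) (nat_lit 32) .nil)))))))) (.g (nat_lit 1) (.e (nat_lit 298671) (nat_lit 0) .nil) .nil))))) 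
(.nd (nat_lit 8) (.nd (nat_lit 9) 
(.lf (nat_lit 551147) (.g (nat_lit 1580) (.e (nat_lit 426107) (nat_lit 1) (.e (nat_lit 164325) (nat_lit 230) (.e (nat_lit 163875) (nat_lit 3) (.e (nat_lit 204809) (nat_lit 9) (.e (nat_lit 426204) (nat_lit 9) .nil))))) (.g (nat_lit 0) (.e (nat_lit 296957) (nat_lit 0) .nil) .nil))) 
(.lf (nat_lit 551659) (.g (nat_lit 3977) (.e (nat_lit 426121) (nat_lit 2) (.e (nat_lit 196666) (nat_lit 13) (.e (nat_lit 65617) (nat_lit 10) (.e (nat_lit 344130) (nat_lit 26) (.e (nat_lit 557090) (nat_lit 12) (.e (nat_lit 164022) (nat_lit 46) (.e (nat_lit 704627) (nat_lit 9) (.e (nat_lit 416) (nat_lit 32) .nil)))))))) (.g (nat_lit 1) (.e (nat_lit 298501) (nat_lit 0) .nil) .nil)))) 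
(.nd (nat_lit 9) 
(.lf (nat_lit 551403) (.g (nat_lit 969) (.e (nat_lit 426109) (nat_lit 1) (.e (nat_lit 164347) (nat_lit 240) (.e (nat_lit 2648) (nat_lit 166) (.e (nat_lit 188431) (nat_lit 20) .nil)))) (.g (nat_lit 0) (.e (nat_lit 297742) (nat_lit 0) .nil) .nil))) 
(.lf (nat_lit 551915) (.g (nat_lit 2726) (.e (nat_lit 426123) (nat_lit 2) (.e (nat_lit 196666) (nat_lit 13) (.e (nat_lit 65610) (nat_lit 10) (.e (nat_lit 344129) (nat_lit 26) (.e (nat_lit 557090) (nat_lit 12) (.e (nat_lit 163843) (nat_lit 0) (.e (nat_lit 6254) (nat_lit 337) (.e (nat_lit 2439) (nat_lit 157) (.e (nat_lit 2949) (nat_lit 184) .nil))))))))) (.g (nat_lit 1) (.e (nat_lit 299030) (nat_lit 0) .nil) .nil)))))))) 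
(.nd (nat_lit 5) (.nd (nat_lit 6) (.nd (nat_lit 7) (.nd (nat_lit 8) (.nd (nat_lit 9) 
(.lf (nat_lit 550939) (.g (nat_lit 2284) (.e (nat_lit 426103) (nat_lit 1) (.e (nat_lit 164348) (nat_lit 240) (.e (nat_lit 2638) (nat_lit 165) (.e (nat_lit 180277) (nat_lit 32) (.e (nat_lit 1659) (nat_lit 115) (.e (nat_lit 393277) (nat_lit 23) .nil)))))) (.g (nat_lit 1) (.e (nat_lit 296495) (nat_lit 0) .nil) .nil))) 
(.lf (nat_lit 551451) (.g (nat_lit 2524) (.e (nat_lit 426110) (nat_lit 1) (.e (nat_lit 164348) (nat_lit 240) (.e (nat_lit 2640) (nat_lit 165) (.e (nat_lit 180277) (nat_lit 32) (.e (nat_lit 1659) (nat_lit 115) (.e (nat_lit 393279) (nat_lit 23) .nil)))))) (.g (nat_lit 1) (.e (nat_lit 297941) (nat_lit 0) .nil) .nil)))) (.nd (nat_lit 9) 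
(.lf (nat_lit 551195) (.g (nat_lit 2096) (.e (nat_lit 426107) (nat_lit 1) (.e (nat_lit 164327) (nat_lit 230) (.e (nat_lit 163873) (nat_lit 3) (.e (nat_lit 204813) (nat_lit 9) (.e (nat_lit 426198) (nat_lit 9) .nil))))) (.g (nat_lit 0) (.e (nat_lit 297158) (nat_lit 0) .nil) .nil))) 
(.lf (nat_lit 551707) (.g (nat_lit 2662) (.e (nat_lit 426121) (nat_lit 2) (.e (nat_lit 196666) (nat_lit 13) (.e (nat_lit 65617) (nat_lit 10) (.e (nat_lit 344132) (nat_lit 26) (.e (nat_lit 557093) (nat_lit 12) (.e (nat_lit 164023) (nat_lit 46) (.e (nat_lit 704628) (nat_lit 9) (.e (nat_lit 398) (nat_lit 32) .nil)))))))) (.g (nat_lit 1) (.e (nat_lit 298550) (nat_lit 0) .nil) .nil))))) 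
(.nd (nat_lit 8) (.nd (nat_lit 9) 
(.lf (nat_lit 551067) (.g (nat_lit 3086) (.e (nat_lit 426106) (nat_lit 1) (.e (nat_lit 164332) (nat_lit 230) (.e (nat_lit 163867) (nat_lit 2) (.e (nat_lit 196654) (nat_lit 11) (.e (nat_lit 16466) (nat_lit 13) (.e (nat_lit 483341) (nat_lit 9) .nil)))))) (.g (nat_lit 1) (.e (nat_lit 296769) (nat_lit 0) .nil) .nil))) 
(.lf (nat_lit 551579) (.g (nat_lit 2350) (.e (nat_lit 426117) (nat_lit 2) (.e (nat_lit 196666) (nat_lit 13) (.e (nat_lit 65617) (nat_lit 10) (.e (nat_lit 344130) (nat_lit 26) (.e (nat_lit 557089) (nat_lit 12) .nil))))) (.g (nat_lit 0) (.e (nat_lit 298390) (nat_lit 0) .nil) .nil)))) (.nd (nat_lit 9) 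
(.lf (nat_lit 551323) (.g (nat_lit 1837) (.e (nat_lit 426108) (nat_lit 1) (.e (nat_lit 164332) (nat_lit 230) (.e (nat_lit 163873) (nat_lit 3) (.e (nat_lit 204809) (nat_lit 9) (.e (nat_lit 426213) (nat_lit 9) (.e (nat_lit 426528) (nat_lit 27) (.e (nat_lit 336387) (nat_lit 27) .nil))))))) (.g (nat_lit 1) (.e (nat_lit 297492) (nat_lit 0) .nil) .nil))) 
(.lf (nat_lit 551835) (.g (nat_lit 2105) (.e (nat_lit 426122) (nat_lit 2) (.e (nat_lit 196666) (nat_lit 13) (.e (nat_lit 65617) (nat_lit 10) (.e (nat_lit 344133) (nat_lit 26) (.e (nat_lit 557091) (nat_lit 12) (.e (nat_lit 164022) (nat_lit 46) (.e (nat_lit 704626) (nat_lit 9) (.e (nat_lit 435) (nat_lit 32) .nil)))))))) (.g (nat_lit 1) (.e (nat_lit 298724) (nat_lit 0) .nil) .nil)))))) 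
(.nd (nat_lit 7) (.nd (nat_lit 8) (.nd (nat_lit 9) 
(.lf (nat_lit 551003) (.g (nat_lit 2250) (.e (nat_lit 426105) (nat_lit 1) (.e (nat_lit 164332) (nat_lit 230) (.e (nat_lit 163880) (nat_lit 4) (.e (nat_lit 213032) (nat_lit 11) .nil)))) (.g (nat_lit 0) (.e (nat_lit 296676) (nat_lit 0) .nil) .nil))) 
(.lf (nat_lit 551515) (.g (nat_lit 3042) (.e (nat_lit 426113) (nat_lit 2) (.e (nat_lit 196666) (nat_lit 13) (.e (nat_lit 65610) (nat_lit 10) (.e (nat_lit 344117) (nat_lit 21) (.e (nat_lit 516116) (nat_lit 1) (.e (nat_lit 171776) (nat_lit 270) (.e (nat_lit 163910) (nat_lit 12) .nil))))))) (.g (nat_lit 1) (.e (nat_lit 298101) (nat_lit 0) .nil) .nil)))) (.nd (nat_lit 9) 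
(.lf (nat_lit 551259) (.g (nat_lit 1466) (.e (nat_lit 426108) (nat_lit 1) (.e (nat_lit 164182) (nat_lit 154) (.e (nat_lit 57410) (nat_lit 12) (.e (nat_lit 336326) (nat_lit 18) (.e (nat_lit 204877) (nat_lit 31) .nil))))) (.g (nat_lit 0) (.e (nat_lit 297328) (nat_lit 0) .nil) .nil))) 
(.lf (nat_lit 551771) (.g (nat_lit 2654) (.e (nat_lit 426122) (nat_lit 2) (.e (nat_lit 196666) (nat_lit 13) (.e (nat_lit 65610) (nat_lit 10) (.e (nat_lit 344129) (nat_lit 26) (.e (nat_lit 557067) (nat_lit 9) (.e (nat_lit 2739) (nat_lit 174) (.e (nat_lit 253959) (nat_lit 9) (.e (nat_lit 396) (nat_lit 32) .nil)))))))) (.g (nat_lit 1) (.e (nat_lit 298655) (nat_lit 0) .nil) .nil))))) 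
(.nd (nat_lit 8) (.nd (nat_lit 9) 
(.lf (nat_lit 551131) (.g (nat_lit 2316) (.e (nat_lit 426107) (nat_lit 1) (.e (nat_lit 164325) (nat_lit 230) (.e (nat_lit 163870) (nat_lit 2) (.e (nat_lit 196653) (nat_lit 11) (.e (nat_lit 16465) (nat_lit 13) (.e (nat_lit 483341) (nat_lit 9) .nil)))))) (.g (nat_lit 1) (.e (nat_lit 296926) (nat_lit 0) .nil) .nil))) 
(.lf (nat_lit 551643) (.g (nat_lit 2258) (.e (nat_lit 426121) (nat_lit 2) (.e (nat_lit 196666) (nat_lit 13) (.e (nat_lit 65610) (nat_lit 10) (.e (nat_lit 344129) (nat_lit 26) (.e (nat_lit 557069) (nat_lit 9) .nil))))) (.g (nat_lit 0) (.e (nat_lit 298485) (nat_lit 0) .nil) .nil)))) (.nd (nat_lit 9) 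
(.lf (nat_lit 551387) (.g (nat_lit 1638) (.e (nat_lit 426109) (nat_lit 1) (.e (nat_lit 164345) (nat_lit 240) (.e (nat_lit 2638) (nat_lit 165) (.e (nat_lit 180277) (nat_lit 32) (.e (nat_lit 1659) (nat_lit 115) (.e (nat_lit 393277) (nat_lit 23) .nil)))))) (.g (nat_lit 1) (.e (nat_lit 297678) (nat_lit 0) .nil) .nil))) 
(.lf (nat_lit 551899) (.g (nat_lit 3079) (.e (nat_lit 426123) (nat_lit 2) (.e (nat_lit 196666) (nat_lit 13) (.e (nat_lit 65610) (nat_lit 10) (.e (nat_lit 344129) (nat_lit 26) (.e (nat_lit 557069) (nat_lit 9) (.e (nat_lit 2741) (nat_lit 174) (.e (nat_lit 253959) (nat_lit 9) (.e (nat_lit 396) (nat_lit 32) .nil)))))))) (.g (nat_lit 1) (.e (nat_lit 298997) (nat_lit 0) .nil) .nil))))))) 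
(.nd (nat_lit 6) (.nd (nat_lit 7) (.nd (nat_lit 8) (.nd (nat_lit 9) 
(.lf (nat_lit 550971) (.g (nat_lit 672) (.e (nat_lit 426105) (nat_lit 1) (.e (nat_lit 164325) (nat_lit 230) (.e (nat_lit 163881) (nat_lit 4) .nil))) (.g (nat_lit 0) (.e (nat_lit 296610) (nat_lit 0) .nil) .nil))) 
(.lf (nat_lit 551483) (.g (nat_lit 1925) (.e (nat_lit 433920) (nat_lit 1) (.e (nat_lit 164399) (nat_lit 256) (.e (nat_lit 57378) (nat_lit 3) (.e (nat_lit 98365) (nat_lit 26) (.e (nat_lit 426325) (nat_lit 13) .nil))))) (.g (nat_lit 0) (.e (nat_lit 298059) (nat_lit 0) .nil) .nil)))) (.nd (nat_lit 9) 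
(.lf (nat_lit 551227) (.g (nat_lit 1991) (.e (nat_lit 426107) (nat_lit 1) (.e (nat_lit 164402) (nat_lit 256) (.e (nat_lit 57373) (nat_lit 2) (.e (nat_lit 90169) (nat_lit 13) (.e (nat_lit 172122) (nat_lit 13) .nil))))) (.g (nat_lit 0) (.e (nat_lit 297293) (nat_lit 0) .nil) .nil))) 
(.lf (nat_lit 551739) (.g (nat_lit 2863) (.e (nat_lit 426121) (nat_lit 2) (.e (nat_lit 196666) (nat_lit 13) (.e (nat_lit 65617) (nat_lit 10) (.e (nat_lit 344133) (nat_lit 26) (.e (nat_lit 557091) (nat_lit 12) (.e (nat_lit 164022) (nat_lit 46) (.e (nat_lit 704626) (nat_lit 9) (.e (nat_lit 388) (nat_lit 32) .nil)))))))) (.g (nat_lit 1) (.e (nat_lit 298591) (nat_lit 0) .nil) .nil))))) 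
(.nd (nat_lit 8) (.nd (nat_lit 9) 
(.lf (nat_lit 551099) (.g (nat_lit 1641) (.e (nat_lit 426107) (nat_lit 1) (.e (nat_lit 164179) (nat_lit 154) (.e (nat_lit 57411) (nat_lit 12) (.e (nat_lit 336316) (nat_lit 17) .nil)))) (.g (nat_lit 0) (.e (nat_lit 296836) (nat_lit 0) .nil) .nil))) 
(.lf (nat_lit 551611) (.g (nat_lit 3225) (.e (nat_lit 426120) (nat_lit 2) (.e (nat_lit 196666) (nat_lit 13) (.e (nat_lit 65617) (nat_lit 10) (.e (nat_lit 344132) (nat_lit 26) (.e (nat_lit 557093) (nat_lit 12) (.e (nat_lit 164022) (nat_lit 46) (.e (nat_lit 704628) (nat_lit 9) (.e (nat_lit 370) (nat_lit 32) .nil)))))))) (.g (nat_lit 1) (.e (nat_lit 298433) (nat_lit 0) .nil) .nil)))) 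
(.nd (nat_lit 9) 
(.lf (nat_lit 551355) (.g (nat_lit 593) (.e (nat_lit 426108) (nat_lit 1) (.e (nat_lit 164403) (nat_lit 256) (.e (nat_lit 57405) (nat_lit 12) .nil))) (.g (nat_lit 0) (.e (nat_lit 297540) (nat_lit 0) .nil) .nil))) 
(.lf (nat_lit 551867) (.g (nat_lit 2269) (.e (nat_lit 426122) (nat_lit 2) (.e (nat_lit 196681) (nat_lit 17) (.e (nat_lit 131123) (nat_lit 12) (.e (nat_lit 385068) (nat_lit 26) (.e (nat_lit 532515) (nat_lit 3) (.e (nat_lit 114698) (nat_lit 11) .nil)))))) (.g (nat_lit 1) (.e (nat_lit 298772) (nat_lit 0) .nil) .nil)))))) (.nd (nat_lit 7) (.nd (nat_lit 8) (.nd (nat_lit 9) 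
(.lf (nat_lit 551035) (.g (nat_lit 519) (.e (nat_lit 426106) (nat_lit 1) (.e (nat_lit 164182) (nat_lit 154) (.e (nat_lit 57410) (nat_lit 12) .nil))) (.g (nat_lit 0) (.e (nat_lit 296716) (nat_lit 0) .nil) .nil))) 
(.lf (nat_lit 551547) (.g (nat_lit 2396) (.e (nat_lit 426114) (nat_lit 2) (.e (nat_lit 196681) (nat_lit 17) (.e (nat_lit 131120) (nat_lit 12) (.e (nat_lit 385068) (nat_lit 26) (.e (nat_lit 532515) (nat_lit 3) (.e (nat_lit 114698) (nat_lit 11) .nil)))))) (.g (nat_lit 1) (.e (nat_lit 298218) (nat_lit 0) .nil) .nil)))) (.nd (nat_lit 9) 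
(.lf (nat_lit 551291) (.g (nat_lit 1048) (.e (nat_lit 426108) (nat_lit 1) (.e (nat_lit 164330) (nat_lit 230) (.e (nat_lit 163869) (nat_lit 2) (.e (nat_lit 196656) (nat_lit 11) .nil)))) (.g (nat_lit 0) (.e (nat_lit 297396) (nat_lit 0) .nil) .nil))) 
(.lf (nat_lit 551803) (.g (nat_lit 2369) (.e (nat_lit 426122) (nat_lit 2) (.e (nat_lit 196666) (nat_lit 13) (.e (nat_lit 65617) (nat_lit 10) (.e (nat_lit 344132) (nat_lit 26) (.e (nat_lit 557093) (nat_lit 12) (.e (nat_lit 164022) (nat_lit 46) (.e (nat_lit 704627) (nat_lit 9) (.e (nat_lit 391) (nat_lit 32) .nil)))))))) (.g (nat_lit 1) (.e (nat_lit 298687) (nat_lit 0) .nil) .nil))))) 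
(.nd (nat_lit 8) (.nd (nat_lit 9) 
(.lf (nat_lit 551163) (.g (nat_lit 3447) (.e (nat_lit 426107) (nat_lit 1) (.e (nat_lit 164326) (nat_lit 230) (.e (nat_lit 163870) (nat_lit 2) (.e (nat_lit 196654) (nat_lit 11) (.e (nat_lit 16463) (nat_lit 13) (.e (nat_lit 483341) (nat_lit 9) .nil)))))) (.g (nat_lit 1) (.e (nat_lit 297045) (nat_lit 0) .nil) .nil))) 
(.lf (nat_lit 551675) (.g (nat_lit 1546) (.e (nat_lit 426121) (nat_lit 2) (.e (nat_lit 196666) (nat_lit 13) (.e (nat_lit 65617) (nat_lit 10) (.e (nat_lit 344132) (nat_lit 26) .nil)))) (.g (nat_lit 0) (.e (nat_lit 298517) (nat_lit 0) .nil) .nil)))) (.nd (nat_lit 9) 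
(.lf (nat_lit 551419) (.g (nat_lit 2988) (.e (nat_lit 426110) (nat_lit 1) (.e (nat_lit 164327) (nat_lit 230) (.e (nat_lit 163868) (nat_lit 2) (.e (nat_lit 196654) (nat_lit 11) (.e (nat_lit 16466) (nat_lit 13) (.e (nat_lit 491264) (nat_lit 9) .nil)))))) (.g (nat_lit 1) (.e (nat_lit 297823) (nat_lit 0) .nil) .nil))) 
(.lf (nat_lit 551931) (.g (nat_lit 3095) (.e (nat_lit 426123) (nat_lit 2) (.e (nat_lit 196666) (nat_lit 13) (.e (nat_lit 65610) (nat_lit 10) (.e (nat_lit 344129) (nat_lit 26) (.e (nat_lit 557090) (nat_lit 12) (.e (nat_lit 163852) (nat_lit 0) (.e (nat_lit 6427) (nat_lit 342) (.e (nat_lit 237312) (nat_lit 12) .nil)))))))) (.g (nat_lit 1) (.e (nat_lit 299056) (nat_lit 0) .nil) .nil)))))))))) 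
(.nd (nat_lit 3) (.nd (nat_lit 4) (.nd (nat_lit 5) (.nd (nat_lit 6) (.nd (nat_lit 7) 
(.nd (nat_lit 8) (.nd (nat_lit 9) 
(.lf (nat_lit 550919) (.g (nat_lit 2237) (.e (nat_lit 426100) (nat_lit 1) (.e (nat_lit 164403) (nat_lit 256) (.e (nat_lit 57373) (nat_lit 2) (.e (nat_lit 90169) (nat_lit 13) (.e (nat_lit 172122) (nat_lit 13) .nil))))) (.g (nat_lit 0) (.e (nat_lit 296457) (nat_lit 0) .nil) .nil))) 
(.lf (nat_lit 551431) (.g (nat_lit 3489) (.e (nat_lit 426110) (nat_lit 1) (.e (nat_lit 164327) (nat_lit 230) (.e (nat_lit 163871) (nat_lit 2) (.e (nat_lit 196654) (nat_lit 11) (.e (nat_lit 16466) (nat_lit 13) (.e (nat_lit 483338) (nat_lit 9) .nil)))))) (.g (nat_lit 1) (.e (nat_lit 297856) (nat_lit 0) .nil) .nil)))) (.nd (nat_lit 9) 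
(.lf (nat_lit 551175) (.g (nat_lit 4008) (.e (nat_lit 426107) (nat_lit 1) (.e (nat_lit 164326) (nat_lit 230) (.e (nat_lit 163873) (nat_lit 3) (.e (nat_lit 204813) (nat_lit 9) (.e (nat_lit 426213) (nat_lit 9) (.e (nat_lit 426528) (nat_lit 27) (.e (nat_lit 336387) (nat_lit 27) .nil))))))) (.g (nat_lit 1) (.e (nat_lit 297103) (nat_lit 0) .nil) .nil))) 
(.lf (nat_lit 551687) (.g (nat_lit 2778) (.e (nat_lit 426121) (nat_lit 2) (.e (nat_lit 196666) (nat_lit 13) (.e (nat_lit 65617) (nat_lit 10) (.e (nat_lit 344132) (nat_lit 26) (.e (nat_lit 557093) (nat_lit 12) (.e (nat_lit 164022) (nat_lit 46) (.e (nat_lit 704628) (nat_lit 9) (.e (nat_lit 388) (nat_lit 32) .nil)))))))) (.g (nat_lit 1) (.e (nat_lit 298529) (nat_lit 0) .nil) .nil))))) 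
(.nd (nat_lit 8) (.nd (nat_lit 9) 
(.lf (nat_lit 551047) (.g (nat_lit 2025) (.e (nat_lit 426106) (nat_lit 1) (.e (nat_lit 164325) (nat_lit 230) (.e (nat_lit 163867) (nat_lit 2) (.e (nat_lit 196654) (nat_lit 11) (.e (nat_lit 16466) (nat_lit 13) .nil))))) (.g (nat_lit 0) (.e (nat_lit 296733) (nat_lit 0) .nil) .nil))) 
(.lf (nat_lit 551559) (.g (nat_lit 340) (.e (nat_lit 426115) (nat_lit 2) (.e (nat_lit 196681) (nat_lit 17) (.e (nat_lit 131109) (nat_lit 9) .nil))) (.g (nat_lit 0) (.e (nat_lit 298268) (nat_lit 0) .nil) .nil)))) (.nd (nat_lit 9) 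
(.lf (nat_lit 551303) (.g (nat_lit 2987) (.e (nat_lit 426108) (nat_lit 1) (.e (nat_lit 164330) (nat_lit 230) (.e (nat_lit 163873) (nat_lit 3) (.e (nat_lit 204813) (nat_lit 9) (.e (nat_lit 426200) (nat_lit 9) (.e (nat_lit 426480) (nat_lit 27) (.e (nat_lit 336388) (nat_lit 27) .nil))))))) (.g (nat_lit 1) (.e (nat_lit 297412) (nat_lit 0) .nil) .nil))) 
(.lf (nat_lit 551815) (.g (nat_lit 2359) (.e (nat_lit 426122) (nat_lit 2) (.e (nat_lit 196666) (nat_lit 13) (.e (nat_lit 65617) (nat_lit 10) (.e (nat_lit 344132) (nat_lit 26) (.e (nat_lit 557093) (nat_lit 12) (.e (nat_lit 164023) (nat_lit 46) (.e (nat_lit 704628) (nat_lit 9) (.e (nat_lit 416) (nat_lit 32) .nil)))))))) (.g (nat_lit 1) (.e (nat_lit 298699) (nat_lit 0) .nil) .nil)))))) 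
(.nd (nat_lit 7) (.nd (nat_lit 8) (.nd (nat_lit 9) 
(.lf (nat_lit 550983) (.g (nat_lit 1165) (.e (nat_lit 426105) (nat_lit 1) (.e (nat_lit 164327) (nat_lit 230) (.e (nat_lit 163875) (nat_lit 3) (.e (nat_lit 204813) (nat_lit 9) .nil)))) (.g (nat_lit 0) (.e (nat_lit 296629) (nat_lit 0) .nil) .nil))) 
(.lf (nat_lit 551495) (.g (nat_lit 676) (.e (nat_lit 433920) (nat_lit 1) (.e (nat_lit 164399) (nat_lit 256) (.e (nat_lit 57408) (nat_lit 12) (.e (nat_lit 336443) (nat_lit 32) .nil)))) (.g (nat_lit 0) (.e (nat_lit 298071) (nat_lit 0) .nil) .nil)))) (.nd (nat_lit 9) 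
(.lf (nat_lit 551239) (.g (nat_lit 2105) (.e (nat_lit 426107) (nat_lit 1) (.e (nat_lit 164403) (nat_lit 256) (.e (nat_lit 57377) (nat_lit 3) (.e (nat_lit 98355) (nat_lit 26) (.e (nat_lit 426323) (nat_lit 13) .nil))))) (.g (nat_lit 0) (.e (nat_lit 297308) (nat_lit 0) .nil) .nil))) 
(.lf (nat_lit 551751) (.g (nat_lit 2909) (.e (nat_lit 426121) (nat_lit 2) (.e (nat_lit 196666) (nat_lit 13) (.e (nat_lit 65617) (nat_lit 10) (.e (nat_lit 344133) (nat_lit 26) (.e (nat_lit 557091) (nat_lit 12) (.e (nat_lit 164022) (nat_lit 46) (.e (nat_lit 704628) (nat_lit 9) (.e (nat_lit 440) (nat_lit 32) .nil)))))))) (.g (nat_lit 1) (.e (nat_lit 298605) (nat_lit 0) .nil) .nil))))) 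
(.nd (nat_lit 8) (.nd (nat_lit 9) 
(.lf (nat_lit 551111) (.g (nat_lit 1160) (.e (nat_lit 426107) (nat_lit 1) (.e (nat_lit 164322) (nat_lit 230) (.e (nat_lit 163867) (nat_lit 2) (.e (nat_lit 196654) (nat_lit 11) .nil)))) (.g (nat_lit 0) (.e (nat_lit 296852) (nat_lit 0) .nil) .nil))) 
(.lf (nat_lit 551623) (.g (nat_lit 2692) (.e (nat_lit 426120) (nat_lit 2) (.e (nat_lit 196666) (nat_lit 13) (.e (nat_lit 65617) (nat_lit 10) (.e (nat_lit 344133) (nat_lit 26) (.e (nat_lit 557091) (nat_lit 12) (.e (nat_lit 163850) (nat_lit 0) (.e (nat_lit 6425) (nat_lit 342) (.e (nat_lit 229401) (nat_lit 12) .nil)))))))) (.g (nat_lit 1) (.e (nat_lit 298445) (nat_lit 0) .nil) .nil)))) 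
(.nd (nat_lit 9) 
(.lf (nat_lit 551367) (.g (nat_lit 1925) (.e (nat_lit 426109) (nat_lit 1) (.e (nat_lit 164322) (nat_lit 230) (.e (nat_lit 163878) (nat_lit 4) (.e (nat_lit 213030) (nat_lit 11) (.e (nat_lit 24660) (nat_lit 13) (.e (nat_lit 393266) (nat_lit 23) .nil)))))) (.g (nat_lit 1) (.e (nat_lit 297611) (nat_lit 0) .nil) .nil))) 
(.lf (nat_lit 551879) (.g (nat_lit 3291) (.e (nat_lit 426123) (nat_lit 2) (.e (nat_lit 196666) (nat_lit 13) (.e (nat_lit 65610) (nat_lit 10) (.e (nat_lit 344090) (nat_lit 18) (.e (nat_lit 4009) (nat_lit 243) (.e (nat_lit 171776) (nat_lit 66) (.e (nat_lit 114698) (nat_lit 11) .nil))))))) (.g (nat_lit 1) (.e (nat_lit 298810) (nat_lit 0) .nil) .nil))))))) 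
(.nd (nat_lit 6) (.nd (nat_lit 7) (.nd (nat_lit 8) (.nd (nat_lit 9) 
(.lf (nat_lit 550951) (.g (nat_lit 1405) (.e (nat_lit 426105) (nat_lit 1) (.e (nat_lit 164179) (nat_lit 154) (.e (nat_lit 57409) (nat_lit 12) (.e (nat_lit 336316) (nat_lit 17) .nil)))) (.g (nat_lit 0) (.e (nat_lit 296566) (nat_lit 0) .nil) .nil))) 
(.lf (nat_lit 551463) (.g (nat_lit 2138) (.e (nat_lit 426112) (nat_lit 1) (.e (nat_lit 164327) (nat_lit 230) (.e (nat_lit 163868) (nat_lit 2) (.e (nat_lit 196656) (nat_lit 11) (.e (nat_lit 16465) (nat_lit 13) .nil))))) (.g (nat_lit 0) (.e (nat_lit 297987) (nat_lit 0) .nil) .nil)))) (.nd (nat_lit 9) 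
(.lf (nat_lit 551207) (.g (nat_lit 2505) (.e (nat_lit 426107) (nat_lit 1) (.e (nat_lit 164327) (nat_lit 230) (.e (nat_lit 163875) (nat_lit 3) (.e (nat_lit 204809) (nat_lit 9) (.e (nat_lit 426213) (nat_lit 9) .nil))))) (.g (nat_lit 0) (.e (nat_lit 297185) (nat_lit 0) .nil) .nil))) 
(.lf (nat_lit 551719) (.g (nat_lit 3487) (.e (nat_lit 426121) (nat_lit 2) (.e (nat_lit 196666) (nat_lit 13) (.e (nat_lit 65617) (nat_lit 10) (.e (nat_lit 344132) (nat_lit 26) (.e (nat_lit 557094) (nat_lit 12) (.e (nat_lit 164022) (nat_lit 46) (.e (nat_lit 704627) (nat_lit 9) (.e (nat_lit 416) (nat_lit 32) .nil)))))))) (.g (nat_lit 1) (.e (nat_lit 298571) (nat_lit 0) .nil) .nil))))) 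
(.nd (nat_lit 8) (.nd (nat_lit 9) 
(.lf (nat_lit 551079) (.g (nat_lit 397) (.e (nat_lit 426106) (nat_lit 1) (.e (nat_lit 164403) (nat_lit 256) (.e (nat_lit 57373) (nat_lit 2) .nil))) (.g (nat_lit 0) (.e (nat_lit 296803) (nat_lit 0) .nil) .nil))) 
(.lf (nat_lit 551591) (.g (nat_lit 3497) (.e (nat_lit 426118) (nat_lit 2) (.e (nat_lit 196666) (nat_lit 13) (.e (nat_lit 65610) (nat_lit 10) (.e (nat_lit 344129) (nat_lit 26) (.e (nat_lit 557089) (nat_lit 12) .nil))))) (.g (nat_lit 0) (.e (nat_lit 298408) (nat_lit 0) .nil) .nil)))) (.nd (nat_lit 9) 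
(.lf (nat_lit 551335) (.g (nat_lit 1126) (.e (nat_lit 426108) (nat_lit 1) (.e (nat_lit 164402) (nat_lit 256) (.e (nat_lit 57371) (nat_lit 2) (.e (nat_lit 90175) (nat_lit 15) .nil)))) (.g (nat_lit 0) (.e (nat_lit 297517) (nat_lit 0) .nil) .nil))) 
(.lf (nat_lit 551847) (.g (nat_lit 2955) (.e (nat_lit 426122) (nat_lit 2) (.e (nat_lit 196666) (nat_lit 13) (.e (nat_lit 65617) (nat_lit 10) (.e (nat_lit 344133) (nat_lit 26) (.e (nat_lit 557091) (nat_lit 12) (.e (nat_lit 164022) (nat_lit 46) (.e (nat_lit 704629) (nat_lit 9) (.e (nat_lit 435) (nat_lit 32) .nil)))))))) (.g (nat_lit 1) (.e (nat_lit 298736) (nat_lit 0) .nil) .nil)))))) 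
(.nd (nat_lit 7) (.nd (nat_lit 8) (.nd (nat_lit 9) 
(.lf (nat_lit 551015) (.g (nat_lit 1390) (.e (nat_lit 426105) (nat_lit 1) (.e (nat_lit 164403) (nat_lit 256) (.e (nat_lit 57378) (nat_lit 3) (.e (nat_lit 98380) (nat_lit 31) .nil)))) (.g (nat_lit 0) (.e (nat_lit 296688) (nat_lit 0) .nil) .nil))) 
(.lf (nat_lit 551527) (.g (nat_lit 2938) (.e (nat_lit 426113) (nat_lit 2) (.e (nat_lit 196666) (nat_lit 13) (.e (nat_lit 65617) (nat_lit 10) (.e (nat_lit 344132) (nat_lit 26) (.e (nat_lit 557093) (nat_lit 12) (.e (nat_lit 164023) (nat_lit 46) (.e (nat_lit 704629) (nat_lit 9) (.e (nat_lit 411) (nat_lit 32) .nil)))))))) (.g (nat_lit 1) (.e (nat_lit 298117) (nat_lit 0) .nil) .nil)))) 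
(.nd (nat_lit 9) 
(.lf (nat_lit 551271) (.g (nat_lit 3183) (.e (nat_lit 426108) (nat_lit 1) (.e (nat_lit 164329) (nat_lit 230) (.e (nat_lit 163867) (nat_lit 2) (.e (nat_lit 196656) (nat_lit 11) (.e (nat_lit 16463) (nat_lit 13) (.e (nat_lit 483336) (nat_lit 9) .nil)))))) (.g (nat_lit 1) (.e (nat_lit 297360) (nat_lit 0) .nil) .nil))) 
(.lf (nat_lit 551783) (.g (nat_lit 2280) (.e (nat_lit 426122) (nat_lit 2) (.e (nat_lit 196666) (nat_lit 13) (.e (nat_lit 65617) (nat_lit 10) (.e (nat_lit 344130) (nat_lit 26) (.e (nat_lit 557090) (nat_lit 12) (.e (nat_lit 164022) (nat_lit 46) (.e (nat_lit 704626) (nat_lit 9) (.e (nat_lit 398) (nat_lit 32) .nil)))))))) (.g (nat_lit 1) (.e (nat_lit 298667) (nat_lit 0) .nil) .nil))))) 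
(.nd (nat_lit 8) (.nd (nat_lit 9) 
(.lf (nat_lit 551143) (.g (nat_lit 4676) (.e (nat_lit 426107) (nat_lit 1) (.e (nat_lit 164325) (nat_lit 230) (.e (nat_lit 163873) (nat_lit 3) (.e (nat_lit 204813) (nat_lit 9) (.e (nat_lit 426213) (nat_lit 9) .nil))))) (.g (nat_lit 0) (.e (nat_lit 296943) (nat_lit 0) .nil) .nil))) 
(.lf (nat_lit 551655) (.g (nat_lit 3746) (.e (nat_lit 426121) (nat_lit 2) (.e (nat_lit 196666) (nat_lit 13) (.e (nat_lit 65617) (nat_lit 10) (.e (nat_lit 344130) (nat_lit 26) (.e (nat_lit 557090) (nat_lit 12) (.e (nat_lit 164022) (nat_lit 46) (.e (nat_lit 704626) (nat_lit 9) (.e (nat_lit 416) (nat_lit 32) .nil)))))))) (.g (nat_lit 1) (.e (nat_lit 298497) (nat_lit 0) .nil) .nil)))) 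
(.nd (nat_lit 9) 
(.lf (nat_lit 551399) (.g (nat_lit 1851) (.e (nat_lit 426109) (nat_lit 1) (.e (nat_lit 164347) (nat_lit 240) (.e (nat_lit 2638) (nat_lit 165) (.e (nat_lit 180278) (nat_lit 32) (.e (nat_lit 1659) (nat_lit 115) (.e (nat_lit 393278) (nat_lit 23) .nil)))))) (.g (nat_lit 1) (.e (nat_lit 297737) (nat_lit 0) .nil) .nil))) 
(.lf (nat_lit 551911) (.g (nat_lit 2094) (.e (nat_lit 426123) (nat_lit 2) (.e (nat_lit 196666) (nat_lit 13) (.e (nat_lit 65610) (nat_lit 10) (.e (nat_lit 344129) (nat_lit 26) (.e (nat_lit 557090) (nat_lit 12) (.e (nat_lit 163840) (nat_lit 0) (.e (nat_lit 6418) (nat_lit 341) (.e (nat_lit 171776) (nat_lit 12) .nil)))))))) (.g (nat_lit 1) (.e (nat_lit 299022) (nat_lit 0) .nil) .nil)))))))) 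
(.nd (nat_lit 5) (.nd (nat_lit 6) (.nd (nat_lit 7) (.nd (nat_lit 8) (.nd (nat_lit 9) 
(.lf (nat_lit 550935) (.g (nat_lit 403) (.e (nat_lit 426103) (nat_lit 1) (.e (nat_lit 164327) (nat_lit 230) (.e (nat_lit 163882) (nat_lit 4) .nil))) (.g (nat_lit 0) (.e (nat_lit 296483) (nat_lit 0) .nil) .nil))) 
(.lf (nat_lit 551447) (.g (nat_lit 2524) (.e (nat_lit 426110) (nat_lit 1) (.e (nat_lit 164348) (nat_lit 240) (.e (nat_lit 2610) (nat_lit 163) (.e (nat_lit 163979) (nat_lit 30) (.e (nat_lit 573491) (nat_lit 15) .nil))))) (.g (nat_lit 0) (.e (nat_lit 297926) (nat_lit 0) .nil) .nil)))) (.nd (nat_lit 9) 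
(.lf (nat_lit 551191) (.g (nat_lit 3912) (.e (nat_lit 426107) (nat_lit 1) (.e (nat_lit 164327) (nat_lit 230) (.e (nat_lit 163871) (nat_lit 2) (.e (nat_lit 196656) (nat_lit 11) (.e (nat_lit 16438) (nat_lit 9) (.e (nat_lit 426482) (nat_lit 27) (.e (nat_lit 336388) (nat_lit 27) .nil))))))) (.g (nat_lit 1) (.e (nat_lit 297151) (nat_lit 0) .nil) .nil))) 
(.lf (nat_lit 551703) (.g (nat_lit 3552) (.e (nat_lit 426121) (nat_lit 2) (.e (nat_lit 196666) (nat_lit 13) (.e (nat_lit 65617) (nat_lit 10) (.e (nat_lit 344132) (nat_lit 26) (.e (nat_lit 557093) (nat_lit 12) (.e (nat_lit 164023) (nat_lit 46) (.e (nat_lit 704626) (nat_lit 9) (.e (nat_lit 416) (nat_lit 32) .nil)))))))) (.g (nat_lit 1) (.e (nat_lit 298546) (nat_lit 0) .nil) .nil))))) 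
(.nd (nat_lit 8) (.nd (nat_lit 9) 
(.lf (nat_lit 551063) (.g (nat_lit 3202) (.e (nat_lit 426106) (nat_lit 1) (.e (nat_lit 164329) (nat_lit 230) (.e (nat_lit 163867) (nat_lit 2) (.e (nat_lit 196656) (nat_lit 11) (.e (nat_lit 16466) (nat_lit 13) (.e (nat_lit 483341) (nat_lit 9) .nil)))))) (.g (nat_lit 1) (.e (nat_lit 296763) (nat_lit 0) .nil) .nil))) 
(.lf (nat_lit 551575) (.g (nat_lit 832) (.e (nat_lit 426116) (nat_lit 2) (.e (nat_lit 196681) (nat_lit 17) (.e (nat_lit 131119) (nat_lit 12) .nil))) (.g (nat_lit 0) (.e (nat_lit 298381) (nat_lit 0) .nil) .nil)))) (.nd (nat_lit 9) 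
(.lf (nat_lit 551319) (.g (nat_lit 2614) (.e (nat_lit 426108) (nat_lit 1) (.e (nat_lit 164332) (nat_lit 230) (.e (nat_lit 163869) (nat_lit 2) (.e (nat_lit 196656) (nat_lit 11) (.e (nat_lit 16436) (nat_lit 9) (.e (nat_lit 426480) (nat_lit 27) (.e (nat_lit 336388) (nat_lit 27) .nil))))))) (.g (nat_lit 1) (.e (nat_lit 297487) (nat_lit 0) .nil) .nil))) 
(.lf (nat_lit 551831) (.g (nat_lit 1969) (.e (nat_lit 426122) (nat_lit 2) (.e (nat_lit 196666) (nat_lit 13) (.e (nat_lit 65617) (nat_lit 10) (.e (nat_lit 344133) (nat_lit 26) (.e (nat_lit 557091) (nat_lit 12) .nil))))) (.g (nat_lit 0) (.e (nat_lit 298720) (nat_lit 0) .nil) .nil)))))) (.nd (nat_lit 7) (.nd (nat_lit 8) (.nd (nat_lit 9) 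
(.lf (nat_lit 550999) (.g (nat_lit 2665) (.e (nat_lit 426105) (nat_lit 1) (.e (nat_lit 164332) (nat_lit 230) (.e (nat_lit 163869) (nat_lit 2) (.e (nat_lit 196656) (nat_lit 11) (.e (nat_lit 16436) (nat_lit 9) .nil))))) (.g (nat_lit 0) (.e (nat_lit 296666) (nat_lit 0) .nil) .nil))) 
(.lf (nat_lit 551511) (.g (nat_lit 1125) (.e (nat_lit 433920) (nat_lit 1) (.e (nat_lit 164403) (nat_lit 256) (.e (nat_lit 57409) (nat_lit 12) (.e (nat_lit 336430) (nat_lit 29) .nil)))) (.g (nat_lit 0) (.e (nat_lit 298087) (nat_lit 0) .nil) .nil)))) (.nd (nat_lit 9) 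
(.lf (nat_lit 551255) (.g (nat_lit 1795) (.e (nat_lit 426107) (nat_lit 1) (.e (nat_lit 164403) (nat_lit 256) (.e (nat_lit 57445) (nat_lit 19) (.e (nat_lit 393287) (nat_lit 25) (.e (nat_lit 458789) (nat_lit 23) .nil))))) (.g (nat_lit 0) (.e (nat_lit 297324) (nat_lit 0) .nil) .nil))) 
(.lf (nat_lit 551767) (.g (nat_lit 462) (.e (nat_lit 426122) (nat_lit 2) (.e (nat_lit 196654) (nat_lit 11) (.e (nat_lit 16409) (nat_lit 2) .nil))) (.g (nat_lit 0) (.e (nat_lit 298638) (nat_lit 0) .nil) .nil))))) (.nd (nat_lit 8) (.nd (nat_lit 9) 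
(.lf (nat_lit 551127) (.g (nat_lit 1354) (.e (nat_lit 426107) (nat_lit 1) (.e (nat_lit 164325) (nat_lit 230) (.e (nat_lit 163869) (nat_lit 2) (.e (nat_lit 196653) (nat_lit 11) .nil)))) (.g (nat_lit 0) (.e (nat_lit 296916) (nat_lit 0) .nil) .nil))) 
(.lf (nat_lit 551639) (.g (nat_lit 3729) (.e (nat_lit 426121) (nat_lit 2) (.e (nat_lit 196666) (nat_lit 13) (.e (nat_lit 65610) (nat_lit 10) (.e (nat_lit 344117) (nat_lit 21) (.e (nat_lit 516097) (nat_lit 0) .nil))))) (.g (nat_lit 0) (.e (nat_lit 298478) (nat_lit 0) .nil) .nil)))) (.nd (nat_lit 9) 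
(.lf (nat_lit 551383) (.g (nat_lit 1284) (.e (nat_lit 426109) (nat_lit 1) (.e (nat_lit 164319) (nat_lit 228) (.e (nat_lit 57412) (nat_lit 12) (.e (nat_lit 336176) (nat_lit 10) (.e (nat_lit 344155) (nat_lit 36) .nil))))) (.g (nat_lit 0) (.e (nat_lit 297658) (nat_lit 0) .nil) .nil))) 
(.lf (nat_lit 551895) (.g (nat_lit 2813) (.e (nat_lit 426123) (nat_lit 2) (.e (nat_lit 196666) (nat_lit 13) (.e (nat_lit 65610) (nat_lit 10) (.e (nat_lit 344129) (nat_lit 26) (.e (nat_lit 557065) (nat_lit 9) (.e (nat_lit 2740) (nat_lit 174) (.e (nat_lit 253959) (nat_lit 9) (.e (nat_lit 396) (nat_lit 32) .nil)))))))) (.g (nat_lit 1) (.e (nat_lit 298967) (nat_lit 0) .nil) .nil))))))) 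
(.nd (nat_lit 6) (.nd (nat_lit 7) (.nd (nat_lit 8) (.nd (nat_lit 9) 
(.lf (nat_lit 550967) (.g (nat_lit 1838) (.e (nat_lit 426105) (nat_lit 1) (.e (nat_lit 164325) (nat_lit 230) (.e (nat_lit 163869) (nat_lit 2) (.e (nat_lit 196654) (nat_lit 11) (.e (nat_lit 16466) (nat_lit 13) .nil))))) (.g (nat_lit 0) (.e (nat_lit 296595) (nat_lit 0) .nil) .nil))) 
(.lf (nat_lit 551479) (.g (nat_lit 891) (.e (nat_lit 433920) (nat_lit 1) (.e (nat_lit 164399) (nat_lit 256) (.e (nat_lit 57371) (nat_lit 2) (.e (nat_lit 90176) (nat_lit 15) .nil)))) (.g (nat_lit 0) (.e (nat_lit 298055) (nat_lit 0) .nil) .nil)))) (.nd (nat_lit 9) 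
(.lf (nat_lit 551223) (.g (nat_lit 2066) (.e (nat_lit 426107) (nat_lit 1) (.e (nat_lit 164347) (nat_lit 240) (.e (nat_lit 2638) (nat_lit 165) (.e (nat_lit 180278) (nat_lit 32) (.e (nat_lit 1660) (nat_lit 115) (.e (nat_lit 401152) (nat_lit 23) .nil)))))) (.g (nat_lit 1) (.e (nat_lit 297262) (nat_lit 0) .nil) .nil))) 
(.lf (nat_lit 551735) (.g (nat_lit 2722) (.e (nat_lit 426121) (nat_lit 2) (.e (nat_lit 196666) (nat_lit 13) (.e (nat_lit 65617) (nat_lit 10) (.e (nat_lit 344133) (nat_lit 26) (.e (nat_lit 557068) (nat_lit 9) (.e (nat_lit 2739) (nat_lit 174) (.e (nat_lit 253959) (nat_lit 9) (.e (nat_lit 396) (nat_lit 32) .nil)))))))) (.g (nat_lit 1) (.e (nat_lit 298587) (nat_lit 0) .nil) .nil))))) 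
(.nd (nat_lit 8) (.nd (nat_lit 9) 
(.lf (nat_lit 551095) (.g (nat_lit 395) (.e (nat_lit 426107) (nat_lit 1) (.e (nat_lit 164179) (nat_lit 154) (.e (nat_lit 57407) (nat_lit 12) .nil))) (.g (nat_lit 0) (.e (nat_lit 296828) (nat_lit 0) .nil) .nil))) 
(.lf (nat_lit 551607) (.g (nat_lit 3844) (.e (nat_lit 426120) (nat_lit 2) (.e (nat_lit 196666) (nat_lit 13) (.e (nat_lit 65617) (nat_lit 10) (.e (nat_lit 344130) (nat_lit 26) (.e (nat_lit 557090) (nat_lit 12) (.e (nat_lit 164022) (nat_lit 46) (.e (nat_lit 704629) (nat_lit 9) (.e (nat_lit 370) (nat_lit 32) .nil)))))))) (.g (nat_lit 1) (.e (nat_lit 298429) (nat_lit 0) .nil) .nil)))) 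
(.nd (nat_lit 9) 
(.lf (nat_lit 551351) (.g (nat_lit 1608) (.e (nat_lit 426108) (nat_lit 1) (.e (nat_lit 164403) (nat_lit 256) (.e (nat_lit 57377) (nat_lit 3) (.e (nat_lit 98381) (nat_lit 31) .nil)))) (.g (nat_lit 0) (.e (nat_lit 297536) (nat_lit 0) .nil) .nil))) 
(.lf (nat_lit 551863) (.g (nat_lit 759) (.e (nat_lit 426122) (nat_lit 2) (.e (nat_lit 196681) (nat_lit 17) (.e (nat_lit 131121) (nat_lit 12) .nil))) (.g (nat_lit 0) (.e (nat_lit 298768) (nat_lit 0) .nil) .nil)))))) (.nd (nat_lit 7) (.nd (nat_lit 8) (.nd (nat_lit 9) 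
(.lf (nat_lit 551031) (.g (nat_lit 1879) (.e (nat_lit 426106) (nat_lit 1) (.e (nat_lit 164179) (nat_lit 154) (.e (nat_lit 57411) (nat_lit 12) (.e (nat_lit 336324) (nat_lit 18) .nil)))) (.g (nat_lit 0) (.e (nat_lit 296712) (nat_lit 0) .nil) .nil))) 
(.lf (nat_lit 551543) (.g (nat_lit 3283) (.e (nat_lit 426114) (nat_lit 2) (.e (nat_lit 196681) (nat_lit 17) (.e (nat_lit 131105) (nat_lit 9) (.e (nat_lit 336324) (nat_lit 18) (.e (nat_lit 204838) (nat_lit 20) (.e (nat_lit 114698) (nat_lit 11) .nil)))))) (.g (nat_lit 1) (.e (nat_lit 298209) (nat_lit 0) .nil) .nil)))) (.nd (nat_lit 9) 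
(.lf (nat_lit 551287) (.g (nat_lit 2645) (.e (nat_lit 426108) (nat_lit 1) (.e (nat_lit 164330) (nat_lit 230) (.e (nat_lit 163869) (nat_lit 2) (.e (nat_lit 196654) (nat_lit 11) (.e (nat_lit 16436) (nat_lit 9) (.e (nat_lit 426478) (nat_lit 27) (.e (nat_lit 336388) (nat_lit 27) .nil))))))) (.g (nat_lit 1) (.e (nat_lit 297391) (nat_lit 0) .nil) .nil))) 
(.lf (nat_lit 551799) (.g (nat_lit 2666) (.e (nat_lit 426122) (nat_lit 2) (.e (nat_lit 196666) (nat_lit 13) (.e (nat_lit 65617) (nat_lit 10) (.e (nat_lit 344132) (nat_lit 26) (.e (nat_lit 557072) (nat_lit 9) (.e (nat_lit 2741) (nat_lit 174) (.e (nat_lit 253959) (nat_lit 9) (.e (nat_lit 396) (nat_lit 32) .nil)))))))) (.g (nat_lit 1) (.e (nat_lit 298683) (nat_lit 0) .nil) .nil))))) 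
(.nd (nat_lit 8) (.nd (nat_lit 9) 
(.lf (nat_lit 551159) (.g (nat_lit 3337) (.e (nat_lit 426107) (nat_lit 1) (.e (nat_lit 164326) (nat_lit 230) (.e (nat_lit 163868) (nat_lit 2) (.e (nat_lit 196656) (nat_lit 11) (.e (nat_lit 16463) (nat_lit 13) (.e (nat_lit 483341) (nat_lit 9) .nil)))))) (.g (nat_lit 1) (.e (nat_lit 297016) (nat_lit 0) .nil) .nil))) 
(.lf (nat_lit 551671) (.g (nat_lit 4702) (.e (nat_lit 426121) (nat_lit 2) (.e (nat_lit 196666) (nat_lit 13) (.e (nat_lit 65617) (nat_lit 10) (.e (nat_lit 344130) (nat_lit 26) (.e (nat_lit 557090) (nat_lit 12) (.e (nat_lit 164022) (nat_lit 46) (.e (nat_lit 704629) (nat_lit 9) (.e (nat_lit 416) (nat_lit 32) .nil)))))))) (.g (nat_lit 1) (.e (nat_lit 298513) (nat_lit 0) .nil) .nil)))) 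
(.nd (nat_lit 9) 
(.lf (nat_lit 551415) (.g (nat_lit 3450) (.e (nat_lit 426110) (nat_lit 1) (.e (nat_lit 164327) (nat_lit 230) (.e (nat_lit 163868) (nat_lit 2) (.e (nat_lit 196654) (nat_lit 11) (.e (nat_lit 16463) (nat_lit 13) (.e (nat_lit 483338) (nat_lit 9) .nil)))))) (.g (nat_lit 1) (.e (nat_lit 297816) (nat_lit 0) .nil) .nil))) 
(.lf (nat_lit 551927) (.g (nat_lit 2553) (.e (nat_lit 426123) (nat_lit 2) (.e (nat_lit 196666) (nat_lit 13) (.e (nat_lit 65610) (nat_lit 10) (.e (nat_lit 344129) (nat_lit 26) (.e (nat_lit 557090) (nat_lit 12) (.e (nat_lit 163852) (nat_lit 0) (.e (nat_lit 6425) (nat_lit 342) (.e (nat_lit 229406) (nat_lit 12) .nil)))))))) (.g (nat_lit 1) (.e (nat_lit 299052) (nat_lit 0) .nil) .nil))))))))) 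
(.nd (nat_lit 4) (.nd (nat_lit 5) (.nd (nat_lit 6) (.nd (nat_lit 7) (.nd (nat_lit 8) 
(.nd (nat_lit 9) 
(.lf (nat_lit 550927) (.g (nat_lit 2737) (.e (nat_lit 426100) (nat_lit 1) (.e (nat_lit 164403) (nat_lit 256) (.e (nat_lit 57451) (nat_lit 20) (.e (nat_lit 401448) (nat_lit 10) (.e (nat_lit 434272) (nat_lit 38) (.e (nat_lit 655382) (nat_lit 8) (.e (nat_lit 237612) (nat_lit 9) .nil))))))) (.g (nat_lit 1) (.e (nat_lit 296465) (nat_lit 0) .nil) .nil))) 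
(.lf (nat_lit 551439) (.g (nat_lit 2488) (.e (nat_lit 426110) (nat_lit 1) (.e (nat_lit 164327) (nat_lit 230) (.e (nat_lit 163871) (nat_lit 2) (.e (nat_lit 196656) (nat_lit 11) (.e (nat_lit 16466) (nat_lit 13) .nil))))) (.g (nat_lit 0) (.e (nat_lit 297873) (nat_lit 0) .nil) .nil)))) (.nd (nat_lit 9) 
(.lf (nat_lit 551183) (.g (nat_lit 1604) (.e (nat_lit 426107) (nat_lit 1) (.e (nat_lit 164327) (nat_lit 230) (.e (nat_lit 163870) (nat_lit 2) (.e (nat_lit 196653) (nat_lit 11) .nil)))) (.g (nat_lit 0) (.e (nat_lit 297138) (nat_lit 0) .nil) .nil))) 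
(.lf (nat_lit 551695) (.g (nat_lit 2871) (.e (nat_lit 426121) (nat_lit 2) (.e (nat_lit 196666) (nat_lit 13) (.e (nat_lit 65617) (nat_lit 10) (.e (nat_lit 344132) (nat_lit 26) (.e (nat_lit 557093) (nat_lit 12) (.e (nat_lit 164022) (nat_lit 46) (.e (nat_lit 704629) (nat_lit 9) (.e (nat_lit 440) (nat_lit 32) .nil)))))))) (.g (nat_lit 1) (.e (nat_lit 298537) (nat_lit 0) .nil) .nil))))) 
(.nd (nat_lit 8) (.nd (nat_lit 9) 
(.lf (nat_lit 551055) (.g (nat_lit 3279) (.e (nat_lit 426106) (nat_lit 1) (.e (nat_lit 164326) (nat_lit 230) (.e (nat_lit 163871) (nat_lit 2) (.e (nat_lit 196656) (nat_lit 11) (.e (nat_lit 16466) (nat_lit 13) (.e (nat_lit 483341) (nat_lit 9) .nil)))))) (.g (nat_lit 1) (.e (nat_lit 296751) (nat_lit 0) .nil) .nil))) 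
(.lf (nat_lit 551567) (.g (nat_lit 3472) (.e (nat_lit 426116) (nat_lit 2) (.e (nat_lit 196656) (nat_lit 11) (.e (nat_lit 16412) (nat_lit 2) (.e (nat_lit 196653) (nat_lit 11) (.e (nat_lit 16415) (nat_lit 3) (.e (nat_lit 204813) (nat_lit 9) .nil)))))) (.g (nat_lit 1) (.e (nat_lit 298316) (nat_lit 0) .nil) .nil)))) (.nd (nat_lit 9) 
(.lf (nat_lit 551311) (.g (nat_lit 1363) (.e (nat_lit 426108) (nat_lit 1) (.e (nat_lit 164331) (nat_lit 230) (.e (nat_lit 163867) (nat_lit 2) (.e (nat_lit 196652) (nat_lit 11) .nil)))) (.g (nat_lit 0) (.e (nat_lit 297427) (nat_lit 0) .nil) .nil))) 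
(.lf (nat_lit 551823) (.g (nat_lit 2903) (.e (nat_lit 426122) (nat_lit 2) (.e (nat_lit 196666) (nat_lit 13) (.e (nat_lit 65617) (nat_lit 10) (.e (nat_lit 344132) (nat_lit 26) (.e (nat_lit 557094) (nat_lit 12) (.e (nat_lit 164022) (nat_lit 46) (.e (nat_lit 704628) (nat_lit 9) (.e (nat_lit 391) (nat_lit 32) .nil)))))))) (.g (nat_lit 1) (.e (nat_lit 298712) (nat_lit 0) .nil) .nil)))))) 
(.nd (nat_lit 7) (.nd (nat_lit 8) (.nd (nat_lit 9) 
(.lf (nat_lit 550991) (.g (nat_lit 2574) (.e (nat_lit 426105) (nat_lit 1) (.e (nat_lit 164332) (nat_lit 230) (.e (nat_lit 163869) (nat_lit 2) (.e (nat_lit 196653) (nat_lit 11) .nil)))) (.g (nat_lit 0) (.e (nat_lit 296657) (nat_lit 0) .nil) .nil))) 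
(.lf (nat_lit 551503) (.g (nat_lit 2333) (.e (nat_lit 433920) (nat_lit 1) (.e (nat_lit 164403) (nat_lit 256) (.e (nat_lit 57373) (nat_lit 2) (.e (nat_lit 90170) (nat_lit 13) (.e (nat_lit 172121) (nat_lit 13) .nil))))) (.g (nat_lit 0) (.e (nat_lit 298079) (nat_lit 0) .nil) .nil)))) (.nd (nat_lit 9) 
(.lf (nat_lit 551247) (.g (nat_lit 3719) (.e (nat_lit 426107) (nat_lit 1) (.e (nat_lit 164403) (nat_lit 256) (.e (nat_lit 57378) (nat_lit 3) (.e (nat_lit 98365) (nat_lit 26) (.e (nat_lit 426325) (nat_lit 13) (.e (nat_lit 483341) (nat_lit 9) .nil)))))) (.g (nat_lit 1) (.e (nat_lit 297316) (nat_lit 0) .nil) .nil))) 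
(.lf (nat_lit 551759) (.g (nat_lit 4371) (.e (nat_lit 426121) (nat_lit 2) (.e (nat_lit 196666) (nat_lit 13) (.e (nat_lit 65617) (nat_lit 10) (.e (nat_lit 344133) (nat_lit 26) (.e (nat_lit 557091) (nat_lit 12) (.e (nat_lit 164022) (nat_lit 46) (.e (nat_lit 704629) (nat_lit 9) (.e (nat_lit 435) (nat_lit 32) .nil)))))))) (.g (nat_lit 1) (.e (nat_lit 298613) (nat_lit 0) .nil) .nil))))) 
(.nd (nat_lit 8) (.nd (nat_lit 9) 
(.lf (nat_lit 551119) (.g (nat_lit 2975) (.e (nat_lit 426107) (nat_lit 1) (.e (nat_lit 164324) (nat_lit 230) (.e (nat_lit 163871) (nat_lit 2) (.e (nat_lit 196656) (nat_lit 11) (.e (nat_lit 16463) (nat_lit 13) (.e (nat_lit 483341) (nat_lit 9) .nil)))))) (.g (nat_lit 1) (.e (nat_lit 296868) (nat_lit 0) .nil) .nil))) 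
(.lf (nat_lit 551631) (.g (nat_lit 2378) (.e (nat_lit 426120) (nat_lit 2) (.e (nat_lit 196666) (nat_lit 13) (.e (nat_lit 65617) (nat_lit 10) (.e (nat_lit 344133) (nat_lit 26) (.e (nat_lit 557091) (nat_lit 12) (.e (nat_lit 164022) (nat_lit 46) (.e (nat_lit 704629) (nat_lit 9) (.e (nat_lit 377) (nat_lit 32) .nil)))))))) (.g (nat_lit 1) (.e (nat_lit 298453) (nat_lit 0) .nil) .nil)))) 
(.nd (nat_lit 9) 
(.lf (nat_lit 551375) (.g (nat_lit 3101) (.e (nat_lit 426109) (nat_lit 1) (.e (nat_lit 164327) (nat_lit 230) (.e (nat_lit 163868) (nat_lit 2) (.e (nat_lit 196656) (nat_lit 11) (.e (nat_lit 16436) (nat_lit 9) (.e (nat_lit 426479) (nat_lit 27) (.e (nat_lit 336395) (nat_lit 27) .nil))))))) (.g (nat_lit 1) (.e (nat_lit 297635) (nat_lit 0) .nil) .nil))) 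
(.lf (nat_lit 551887) (.g (nat_lit 2701) (.e (nat_lit 426123) (nat_lit 2) (.e (nat_lit 196666) (nat_lit 13) (.e (nat_lit 65610) (nat_lit 10) (.e (nat_lit 344117) (nat_lit 21) (.e (nat_lit 524032) (nat_lit 18) (.e (nat_lit 57686) (nat_lit 156) (.e (nat_lit 171776) (nat_lit 12) .nil))))))) (.g (nat_lit 1) (.e (nat_lit 298958) (nat_lit 0) .nil) .nil))))))) 
(.nd (nat_lit 6) (.nd (nat_lit 7) (.nd (nat_lit 8) (.nd (nat_lit 9) 
(.lf (nat_lit 550959) (.g (nat_lit 1600) (.e (nat_lit 426105) (nat_lit 1) (.e (nat_lit 164182) (nat_lit 154) (.e (nat_lit 57411) (nat_lit 12) (.e (nat_lit 336322) (nat_lit 18) .nil)))) (.g (nat_lit 0) (.e (nat_lit 296576) (nat_lit 0) .nil) .nil))) 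
(.lf (nat_lit 551471) (.g (nat_lit 2926) (.e (nat_lit 426112) (nat_lit 1) (.e (nat_lit 164348) (nat_lit 240) (.e (nat_lit 2640) (nat_lit 165) (.e (nat_lit 180278) (nat_lit 32) (.e (nat_lit 1660) (nat_lit 115) (.e (nat_lit 393271) (nat_lit 23) .nil)))))) (.g (nat_lit 1) (.e (nat_lit 298026) (nat_lit 0) .nil) .nil)))) (.nd (nat_lit 9) 
(.lf (nat_lit 551215) (.g (nat_lit 3036) (.e (nat_lit 426107) (nat_lit 1) (.e (nat_lit 164332) (nat_lit 230) (.e (nat_lit 163869) (nat_lit 2) (.e (nat_lit 196653) (nat_lit 11) (.e (nat_lit 16463) (nat_lit 13) .nil))))) (.g (nat_lit 0) (.e (nat_lit 297205) (nat_lit 0) .nil) .nil))) 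
(.lf (nat_lit 551727) (.g (nat_lit 3252) (.e (nat_lit 426121) (nat_lit 2) (.e (nat_lit 196666) (nat_lit 13) (.e (nat_lit 65617) (nat_lit 10) (.e (nat_lit 344132) (nat_lit 26) (.e (nat_lit 557094) (nat_lit 12) (.e (nat_lit 164022) (nat_lit 46) (.e (nat_lit 704629) (nat_lit 9) (.e (nat_lit 391) (nat_lit 32) .nil)))))))) (.g (nat_lit 1) (.e (nat_lit 298579) (nat_lit 0) .nil) .nil))))) 
(.nd (nat_lit 8) (.nd (nat_lit 9) 
(.lf (nat_lit 551087) (.g (nat_lit 1041) (.e (nat_lit 426106) (nat_lit 1) (.e (nat_lit 164403) (nat_lit 256) (.e (nat_lit 57408) (nat_lit 12) (.e (nat_lit 336443) (nat_lit 32) .nil)))) (.g (nat_lit 0) (.e (nat_lit 296811) (nat_lit 0) .nil) .nil))) 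
(.lf (nat_lit 551599) (.g (nat_lit 2194) (.e (nat_lit 426120) (nat_lit 2) (.e (nat_lit 196666) (nat_lit 13) (.e (nat_lit 65617) (nat_lit 10) (.e (nat_lit 344130) (nat_lit 26) (.e (nat_lit 557089) (nat_lit 12) .nil))))) (.g (nat_lit 0) (.e (nat_lit 298421) (nat_lit 0) .nil) .nil)))) (.nd (nat_lit 9) 
(.lf (nat_lit 551343) (.g (nat_lit 1769) (.e (nat_lit 426108) (nat_lit 1) (.e (nat_lit 164403) (nat_lit 256) (.e (nat_lit 57371) (nat_lit 2) (.e (nat_lit 90166) (nat_lit 13) (.e (nat_lit 172123) (nat_lit 13) .nil))))) (.g (nat_lit 0) (.e (nat_lit 297528) (nat_lit 0) .nil) .nil))) 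
(.lf (nat_lit 551855) (.g (nat_lit 2132) (.e (nat_lit 426122) (nat_lit 2) (.e (nat_lit 196674) (nat_lit 15) (.e (nat_lit 81922) (nat_lit 0) (.e (nat_lit 3253) (nat_lit 197) (.e (nat_lit 532515) (nat_lit 3) (.e (nat_lit 114697) (nat_lit 11) .nil)))))) (.g (nat_lit 1) (.e (nat_lit 298759) (nat_lit 0) .nil) .nil)))))) (.nd (nat_lit 7) (.nd (nat_lit 8) (.nd (nat_lit 9) 
(.lf (nat_lit 551023) (.g (nat_lit 621) (.e (nat_lit 426106) (nat_lit 1) (.e (nat_lit 164163) (nat_lit 152) (.e (nat_lit 1190) (nat_lit 88) (.e (nat_lit 73472) (nat_lit 18) .nil)))) (.g (nat_lit 0) (.e (nat_lit 296696) (nat_lit 0) .nil) .nil))) 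
(.lf (nat_lit 551535) (.g (nat_lit 2006) (.e (nat_lit 426113) (nat_lit 2) (.e (nat_lit 196681) (nat_lit 17) (.e (nat_lit 131109) (nat_lit 9) (.e (nat_lit 336324) (nat_lit 18) (.e (nat_lit 204837) (nat_lit 20) .nil))))) (.g (nat_lit 0) (.e (nat_lit 298147) (nat_lit 0) .nil) .nil)))) (.nd (nat_lit 9) 
(.lf (nat_lit 551279) (.g (nat_lit 2670) (.e (nat_lit 426108) (nat_lit 1) (.e (nat_lit 164330) (nat_lit 230) (.e (nat_lit 163866) (nat_lit 2) (.e (nat_lit 196654) (nat_lit 11) (.e (nat_lit 16466) (nat_lit 13) (.e (nat_lit 483340) (nat_lit 9) .nil)))))) (.g (nat_lit 1) (.e (nat_lit 297375) (nat_lit 0) .nil) .nil))) 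
(.lf (nat_lit 551791) (.g (nat_lit 2951) (.e (nat_lit 426122) (nat_lit 2) (.e (nat_lit 196666) (nat_lit 13) (.e (nat_lit 65617) (nat_lit 10) (.e (nat_lit 344130) (nat_lit 26) (.e (nat_lit 557090) (nat_lit 12) (.e (nat_lit 164022) (nat_lit 46) (.e (nat_lit 704628) (nat_lit 9) (.e (nat_lit 398) (nat_lit 32) .nil)))))))) (.g (nat_lit 1) (.e (nat_lit 298675) (nat_lit 0) .nil) .nil))))) 
(.nd (nat_lit 8) (.nd (nat_lit 9) 
(.lf (nat_lit 551151) (.g (nat_lit 2816) (.e (nat_lit 426107) (nat_lit 1) (.e (nat_lit 164326) (nat_lit 230) (.e (nat_lit 163866) (nat_lit 2) (.e (nat_lit 196654) (nat_lit 11) (.e (nat_lit 16463) (nat_lit 13) (.e (nat_lit 483341) (nat_lit 9) .nil)))))) (.g (nat_lit 1) (.e (nat_lit 296976) (nat_lit 0) .nil) .nil))) 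
(.lf (nat_lit 551663) (.g (nat_lit 2821) (.e (nat_lit 426121) (nat_lit 2) (.e (nat_lit 196666) (nat_lit 13) (.e (nat_lit 65617) (nat_lit 10) (.e (nat_lit 344130) (nat_lit 26) (.e (nat_lit 557090) (nat_lit 12) (.e (nat_lit 164022) (nat_lit 46) (.e (nat_lit 704628) (nat_lit 9) (.e (nat_lit 440) (nat_lit 32) .nil)))))))) (.g (nat_lit 1) (.e (nat_lit 298505) (nat_lit 0) .nil) .nil)))) 
(.nd (nat_lit 9) 
(.lf (nat_lit 551407) (.g (nat_lit 1594) (.e (nat_lit 426109) (nat_lit 1) (.e (nat_lit 164347) (nat_lit 240) (.e (nat_lit 2650) (nat_lit 166) (.e (nat_lit 188434) (nat_lit 20) (.e (nat_lit 3409) (nat_lit 212) .nil))))) (.g (nat_lit 0) (.e (nat_lit 297752) (nat_lit 0) .nil) .nil))) 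
(.lf (nat_lit 551919) (.g (nat_lit 2161) (.e (nat_lit 426123) (nat_lit 2) (.e (nat_lit 196666) (nat_lit 13) (.e (nat_lit 65610) (nat_lit 10) (.e (nat_lit 344129) (nat_lit 26) (.e (nat_lit 557090) (nat_lit 12) (.e (nat_lit 163844) (nat_lit 0) (.e (nat_lit 6416) (nat_lit 341) (.e (nat_lit 171776) (nat_lit 12) .nil)))))))) (.g (nat_lit 1) (.e (nat_lit 299041) (nat_lit 0) .nil) .nil)))))))) 
(.nd (nat_lit 5) (.nd (nat_lit 6) (.nd (nat_lit 7) (.nd (nat_lit 8) (.nd (nat_lit 9) 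
(.lf (nat_lit 550943) (.g (nat_lit 1362) (.e (nat_lit 426103) (nat_lit 1) (.e (nat_lit 164348) (nat_lit 240) (.e (nat_lit 2640) (nat_lit 165) (.e (nat_lit 180278) (nat_lit 32) (.e (nat_lit 1658) (nat_lit 115) .nil))))) (.g (nat_lit 0) (.e (nat_lit 296499) (nat_lit 0) .nil) .nil))) 
(.lf (nat_lit 551455) (.g (nat_lit 1182) (.e (nat_lit 426110) (nat_lit 1) (.e (nat_lit 164400) (nat_lit 256) (.e (nat_lit 57375) (nat_lit 2) (.e (nat_lit 90176) (nat_lit 15) (.e (nat_lit 188423) (nat_lit 11) .nil))))) (.g (nat_lit 0) (.e (nat_lit 297946) (nat_lit 0) .nil) .nil)))) (.nd (nat_lit 9) 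
(.lf (nat_lit 551199) (.g (nat_lit 3686) (.e (nat_lit 426107) (nat_lit 1) (.e (nat_lit 164327) (nat_lit 230) (.e (nat_lit 163873) (nat_lit 3) (.e (nat_lit 204813) (nat_lit 9) (.e (nat_lit 426199) (nat_lit 9) (.e (nat_lit 426480) (nat_lit 27) (.e (nat_lit 336388) (nat_lit 27) .nil))))))) (.g (nat_lit 1) (.e (nat_lit 297163) (nat_lit 0) .nil) .nil))) 
(.lf (nat_lit 551711) (.g (nat_lit 2763) (.e (nat_lit 426121) (nat_lit 2) (.e (nat_lit 196666) (nat_lit 13) (.e (nat_lit 65617) (nat_lit 10) (.e (nat_lit 344132) (nat_lit 26) (.e (nat_lit 557093) (nat_lit 12) (.e (nat_lit 171776) (nat_lit 48) (.e (nat_lit 720908) (nat_lit 11) .nil))))))) (.g (nat_lit 1) (.e (nat_lit 298563) (nat_lit 0) .nil) .nil))))) (.nd (nat_lit 8) (.nd (nat_lit 9) 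
(.lf (nat_lit 551071) (.g (nat_lit 2326) (.e (nat_lit 426106) (nat_lit 1) (.e (nat_lit 164332) (nat_lit 230) (.e (nat_lit 163869) (nat_lit 2) (.e (nat_lit 196653) (nat_lit 11) (.e (nat_lit 16466) (nat_lit 13) .nil))))) (.g (nat_lit 0) (.e (nat_lit 296792) (nat_lit 0) .nil) .nil))) 
(.lf (nat_lit 551583) (.g (nat_lit 2462) (.e (nat_lit 426117) (nat_lit 2) (.e (nat_lit 196666) (nat_lit 13) (.e (nat_lit 65617) (nat_lit 10) (.e (nat_lit 344132) (nat_lit 26) (.e (nat_lit 557094) (nat_lit 12) .nil))))) (.g (nat_lit 0) (.e (nat_lit 298394) (nat_lit 0) .nil) .nil)))) (.nd (nat_lit 9) 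
(.lf (nat_lit 551327) (.g (nat_lit 1121) (.e (nat_lit 426108) (nat_lit 1) (.e (nat_lit 164332) (nat_lit 230) (.e (nat_lit 163874) (nat_lit 3) (.e (nat_lit 204809) (nat_lit 9) .nil)))) (.g (nat_lit 0) (.e (nat_lit 297501) (nat_lit 0) .nil) .nil))) 
(.lf (nat_lit 551839) (.g (nat_lit 2926) (.e (nat_lit 426122) (nat_lit 2) (.e (nat_lit 196666) (nat_lit 13) (.e (nat_lit 65617) (nat_lit 10) (.e (nat_lit 344133) (nat_lit 26) (.e (nat_lit 557091) (nat_lit 12) (.e (nat_lit 164022) (nat_lit 46) (.e (nat_lit 704628) (nat_lit 9) (.e (nat_lit 399) (nat_lit 32) .nil)))))))) (.g (nat_lit 1) (.e (nat_lit 298728) (nat_lit 0) .nil) .nil)))))) 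
(.nd (nat_lit 7) (.nd (nat_lit 8) (.nd (nat_lit 9) 
(.lf (nat_lit 551007) (.g (nat_lit 2072) (.e (nat_lit 426105) (nat_lit 1) (.e (nat_lit 164403) (nat_lit 256) (.e (nat_lit 57373) (nat_lit 2) (.e (nat_lit 90167) (nat_lit 13) .nil)))) (.g (nat_lit 0) (.e (nat_lit 296680) (nat_lit 0) .nil) .nil))) 
(.lf (nat_lit 551519) (.g (nat_lit 2610) (.e (nat_lit 426113) (nat_lit 2) (.e (nat_lit 196666) (nat_lit 13) (.e (nat_lit 65610) (nat_lit 10) (.e (nat_lit 344129) (nat_lit 26) (.e (nat_lit 557090) (nat_lit 12) (.e (nat_lit 171776) (nat_lit 48) (.e (nat_lit 720909) (nat_lit 11) .nil))))))) (.g (nat_lit 1) (.e (nat_lit 298107) (nat_lit 0) .nil) .nil)))) (.nd (nat_lit 9) 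
(.lf (nat_lit 551263) (.g (nat_lit 342) (.e (nat_lit 426108) (nat_lit 1) (.e (nat_lit 164183) (nat_lit 154) (.e (nat_lit 57409) (nat_lit 12) .nil))) (.g (nat_lit 0) (.e (nat_lit 297333) (nat_lit 0) .nil) .nil))) 
(.lf (nat_lit 551775) (.g (nat_lit 2909) (.e (nat_lit 426122) (nat_lit 2) (.e (nat_lit 196666) (nat_lit 13) (.e (nat_lit 65610) (nat_lit 10) (.e (nat_lit 344129) (nat_lit 26) (.e (nat_lit 557090) (nat_lit 12) (.e (nat_lit 171776) (nat_lit 49) (.e (nat_lit 729098) (nat_lit 11) .nil))))))) (.g (nat_lit 1) (.e (nat_lit 298659) (nat_lit 0) .nil) .nil))))) (.nd (nat_lit 8) (.nd (nat_lit 9) 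
(.lf (nat_lit 551135) (.g (nat_lit 2258) (.e (nat_lit 426107) (nat_lit 1) (.e (nat_lit 164325) (nat_lit 230) (.e (nat_lit 163871) (nat_lit 2) (.e (nat_lit 196656) (nat_lit 11) (.e (nat_lit 16466) (nat_lit 13) (.e (nat_lit 483340) (nat_lit 9) .nil)))))) (.g (nat_lit 1) (.e (nat_lit 296930) (nat_lit 0) .nil) .nil))) 
(.lf (nat_lit 551647) (.g (nat_lit 2658) (.e (nat_lit 426121) (nat_lit 2) (.e (nat_lit 196666) (nat_lit 13) (.e (nat_lit 65610) (nat_lit 10) (.e (nat_lit 344129) (nat_lit 26) (.e (nat_lit 557090) (nat_lit 12) (.e (nat_lit 171776) (nat_lit 49) (.e (nat_lit 729098) (nat_lit 11) .nil))))))) (.g (nat_lit 1) (.e (nat_lit 298489) (nat_lit 0) .nil) .nil)))) (.nd (nat_lit 9) 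
(.lf (nat_lit 551391) (.g (nat_lit 701) (.e (nat_lit 426109) (nat_lit 1) (.e (nat_lit 164345) (nat_lit 240) (.e (nat_lit 2640) (nat_lit 165) (.e (nat_lit 180277) (nat_lit 32) (.e (nat_lit 1658) (nat_lit 115) .nil))))) (.g (nat_lit 0) (.e (nat_lit 297682) (nat_lit 0) .nil) .nil))) 
(.lf (nat_lit 551903) (.g (nat_lit 2759) (.e (nat_lit 426123) (nat_lit 2) (.e (nat_lit 196666) (nat_lit 13) (.e (nat_lit 65610) (nat_lit 10) (.e (nat_lit 344129) (nat_lit 26) (.e (nat_lit 557089) (nat_lit 12) (.e (nat_lit 163844) (nat_lit 0) (.e (nat_lit 6418) (nat_lit 341) (.e (nat_lit 171776) (nat_lit 12) .nil)))))))) (.g (nat_lit 1) (.e (nat_lit 299010) (nat_lit 0) .nil) .nil))))))) 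
(.nd (nat_lit 6) (.nd (nat_lit 7) (.nd (nat_lit 8) (.nd (nat_lit 9) 
(.lf (nat_lit 550975) (.g (nat_lit 2947) (.e (nat_lit 426105) (nat_lit 1) (.e (nat_lit 164327) (nat_lit 230) (.e (nat_lit 163868) (nat_lit 2) (.e (nat_lit 196654) (nat_lit 11) (.e (nat_lit 16466) (nat_lit 13) (.e (nat_lit 483341) (nat_lit 9) .nil)))))) (.g (nat_lit 1) (.e (nat_lit 296614) (nat_lit 0) .nil) .nil))) 
(.lf (nat_lit 551487) (.g (nat_lit 281) (.e (nat_lit 433920) (nat_lit 1) (.e (nat_lit 164399) (nat_lit 256) (.e (nat_lit 57379) (nat_lit 3) .nil))) (.g (nat_lit 0) (.e (nat_lit 298063) (nat_lit 0) .nil) .nil)))) (.nd (nat_lit 9) 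
(.lf (nat_lit 551231) (.g (nat_lit 1668) (.e (nat_lit 426107) (nat_lit 1) (.e (nat_lit 164402) (nat_lit 256) (.e (nat_lit 57406) (nat_lit 12) (.e (nat_lit 336432) (nat_lit 30) (.e (nat_lit 450579) (nat_lit 5) .nil))))) (.g (nat_lit 0) (.e (nat_lit 297297) (nat_lit 0) .nil) .nil))) 
(.lf (nat_lit 551743) (.g (nat_lit 3084) (.e (nat_lit 426121) (nat_lit 2) (.e (nat_lit 196666) (nat_lit 13) (.e (nat_lit 65617) (nat_lit 10) (.e (nat_lit 344133) (nat_lit 26) (.e (nat_lit 557091) (nat_lit 12) (.e (nat_lit 164022) (nat_lit 46) (.e (nat_lit 704626) (nat_lit 9) (.e (nat_lit 436) (nat_lit 32) .nil)))))))) (.g (nat_lit 1) (.e (nat_lit 298595) (nat_lit 0) .nil) .nil))))) 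
(.nd (nat_lit 8) (.nd (nat_lit 9) 
(.lf (nat_lit 551103) (.g (nat_lit 1870) (.e (nat_lit 426107) (nat_lit 1) (.e (nat_lit 164179) (nat_lit 154) (.e (nat_lit 57411) (nat_lit 12) (.e (nat_lit 336324) (nat_lit 18) .nil)))) (.g (nat_lit 0) (.e (nat_lit 296840) (nat_lit 0) .nil) .nil))) 
(.lf (nat_lit 551615) (.g (nat_lit 2310) (.e (nat_lit 426120) (nat_lit 2) (.e (nat_lit 196666) (nat_lit 13) (.e (nat_lit 65617) (nat_lit 10) (.e (nat_lit 344132) (nat_lit 26) (.e (nat_lit 557094) (nat_lit 12) .nil))))) (.g (nat_lit 0) (.e (nat_lit 298437) (nat_lit 0) .nil) .nil)))) (.nd (nat_lit 9) 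
(.lf (nat_lit 551359) (.g (nat_lit 1294) (.e (nat_lit 426108) (nat_lit 1) (.e (nat_lit 164403) (nat_lit 256) (.e (nat_lit 57406) (nat_lit 12) (.e (nat_lit 336444) (nat_lit 32) .nil)))) (.g (nat_lit 0) (.e (nat_lit 297544) (nat_lit 0) .nil) .nil))) 
(.lf (nat_lit 551871) (.g (nat_lit 991) (.e (nat_lit 426123) (nat_lit 2) (.e (nat_lit 196656) (nat_lit 11) (.e (nat_lit 16411) (nat_lit 2) .nil))) (.g (nat_lit 0) (.e (nat_lit 298793) (nat_lit 0) .nil) .nil)))))) (.nd (nat_lit 7) (.nd (nat_lit 8) (.nd (nat_lit 9) 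
(.lf (nat_lit 551039) (.g (nat_lit 1456) (.e (nat_lit 426106) (nat_lit 1) (.e (nat_lit 164183) (nat_lit 154) (.e (nat_lit 57409) (nat_lit 12) (.e (nat_lit 336325) (nat_lit 18) (.e (nat_lit 204877) (nat_lit 31) .nil))))) (.g (nat_lit 0) (.e (nat_lit 296720) (nat_lit 0) .nil) .nil))) 
(.lf (nat_lit 551551) (.g (nat_lit 1663) (.e (nat_lit 426115) (nat_lit 2) (.e (nat_lit 196654) (nat_lit 11) (.e (nat_lit 16416) (nat_lit 3) (.e (nat_lit 204809) (nat_lit 9) (.e (nat_lit 426139) (nat_lit 3) .nil))))) (.g (nat_lit 0) (.e (nat_lit 298235) (nat_lit 0) .nil) .nil)))) (.nd (nat_lit 9) 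
(.lf (nat_lit 551295) (.g (nat_lit 3383) (.e (nat_lit 426108) (nat_lit 1) (.e (nat_lit 164330) (nat_lit 230) (.e (nat_lit 163869) (nat_lit 2) (.e (nat_lit 196656) (nat_lit 11) (.e (nat_lit 16463) (nat_lit 13) (.e (nat_lit 483336) (nat_lit 9) .nil)))))) (.g (nat_lit 1) (.e (nat_lit 297402) (nat_lit 0) .nil) .nil))) 
(.lf (nat_lit 551807) (.g (nat_lit 2553) (.e (nat_lit 426122) (nat_lit 2) (.e (nat_lit 196666) (nat_lit 13) (.e (nat_lit 65617) (nat_lit 10) (.e (nat_lit 344132) (nat_lit 26) (.e (nat_lit 557093) (nat_lit 12) (.e (nat_lit 164022) (nat_lit 46) (.e (nat_lit 704628) (nat_lit 9) (.e (nat_lit 398) (nat_lit 32) .nil)))))))) (.g (nat_lit 1) (.e (nat_lit 298691) (nat_lit 0) .nil) .nil))))) 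
(.nd (nat_lit 8) (.nd (nat_lit 9) 
(.lf (nat_lit 551167) (.g (nat_lit 2100) (.e (nat_lit 426107) (nat_lit 1) (.e (nat_lit 164326) (nat_lit 230) (.e (nat_lit 163871) (nat_lit 2) (.e (nat_lit 196655) (nat_lit 11) (.e (nat_lit 16465) (nat_lit 13) (.e (nat_lit 491264) (nat_lit 9) .nil)))))) (.g (nat_lit 1) (.e (nat_lit 297088) (nat_lit 0) .nil) .nil))) 
(.lf (nat_lit 551679) (.g (nat_lit 3422) (.e (nat_lit 426121) (nat_lit 2) (.e (nat_lit 196666) (nat_lit 13) (.e (nat_lit 65617) (nat_lit 10) (.e (nat_lit 344132) (nat_lit 26) (.e (nat_lit 557093) (nat_lit 12) (.e (nat_lit 164022) (nat_lit 46) (.e (nat_lit 704626) (nat_lit 9) (.e (nat_lit 391) (nat_lit 32) .nil)))))))) (.g (nat_lit 1) (.e (nat_lit 298521) (nat_lit 0) .nil) .nil)))) 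
(.nd (nat_lit 9) 
(.lf (nat_lit 551423) (.g (nat_lit 3071) (.e (nat_lit 426110) (nat_lit 1) (.e (nat_lit 164327) (nat_lit 230) (.e (nat_lit 163868) (nat_lit 2) (.e (nat_lit 196656) (nat_lit 11) (.e (nat_lit 16465) (nat_lit 13) (.e (nat_lit 483339) (nat_lit 9) .nil)))))) (.g (nat_lit 1) (.e (nat_lit 297837) (nat_lit 0) .nil) .nil))) 
(.lf (nat_lit 551935) (.g (nat_lit 511) (.e (nat_lit 426123) (nat_lit 2) (.e (nat_lit 196666) (nat_lit 13) (.e (nat_lit 65617) (nat_lit 10) .nil))) (.g (nat_lit 0) (.e (nat_lit 299072) (nat_lit 0) .nil) .nil)))))))))))))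

noncomputable def tv5599 : DT := (.nd (nat_lit 0) (.nd (nat_lit 1) (.nd (nat_lit 2) (.nd (nat_lit 3) (.nd (nat_lit 4) (.nd (nat_lit 5) (.nd (nat_lit 6) (.nd (nat_lit 7) (.nd (nat_lit 8) (.nd (nat_lit 9) 
(.lf (nat_lit 551936) (.g (nat_lit 1242) (.e (nat_lit 426123) (nat_lit 2) (.e (nat_lit 196666) (nat_lit 13) (.e (nat_lit 65617) (nat_lit 10) (.e (nat_lit 344127) (nat_lit 26) .nil)))) (.g (nat_lit 0) (.e (nat_lit 299074) (nat_lit 0) .nil) .nil))) 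
(.lf (nat_lit 552448) (.g (nat_lit 4051) (.e (nat_lit 426125) (nat_lit 2) (.e (nat_lit 196666) (nat_lit 13) (.e (nat_lit 65617) (nat_lit 10) (.e (nat_lit 344130) (nat_lit 26) (.e (nat_lit 557090) (nat_lit 12) (.e (nat_lit 164020) (nat_lit 45) (.e (nat_lit 696329) (nat_lit 5) (.e (nat_lit 2878) (nat_lit 184) .nil)))))))) (.g (nat_lit 1) (.e (nat_lit 301256) (nat_lit 0) .nil) .nil)))) 
(.nd (nat_lit 9) 
(.lf (nat_lit 552192) (.g (nat_lit 2874) (.e (nat_lit 426125) (nat_lit 2) (.e (nat_lit 196666) (nat_lit 13) (.e (nat_lit 65610) (nat_lit 10) (.e (nat_lit 344129) (nat_lit 26) (.e (nat_lit 557089) (nat_lit 12) (.e (nat_lit 164017) (nat_lit 44) (.e (nat_lit 696064) (nat_lit 5) (.e (nat_lit 2877) (nat_lit 184) .nil)))))))) (.g (nat_lit 1) (.e (nat_lit 300798) (nat_lit 0) .nil) .nil))) 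
(.lf (nat_lit 552704) (.g (nat_lit 2154) (.e (nat_lit 426129) (nat_lit 3) (.e (nat_lit 204846) (nat_lit 24) (.e (nat_lit 319530) (nat_lit 16) (.e (nat_lit 286735) (nat_lit 3) (.e (nat_lit 98363) (nat_lit 26) .nil))))) (.g (nat_lit 0) (.e (nat_lit 301714) (nat_lit 0) .nil) .nil))))) (.nd (nat_lit 8) (.nd (nat_lit 9) 
(.lf (nat_lit 552064) (.g (nat_lit 3257) (.e (nat_lit 426123) (nat_lit 2) (.e (nat_lit 196666) (nat_lit 13) (.e (nat_lit 65617) (nat_lit 10) (.e (nat_lit 344133) (nat_lit 26) (.e (nat_lit 557091) (nat_lit 12) (.e (nat_lit 171776) (nat_lit 49) (.e (nat_lit 737024) (nat_lit 11) .nil))))))) (.g (nat_lit 1) (.e (nat_lit 299249) (nat_lit 0) .nil) .nil))) 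
(.lf (nat_lit 552576) (.g (nat_lit 3657) (.e (nat_lit 426125) (nat_lit 2) (.e (nat_lit 196666) (nat_lit 13) (.e (nat_lit 65617) (nat_lit 10) (.e (nat_lit 344133) (nat_lit 26) (.e (nat_lit 557090) (nat_lit 12) (.e (nat_lit 164020) (nat_lit 45) (.e (nat_lit 696327) (nat_lit 5) (.e (nat_lit 2878) (nat_lit 184) .nil)))))))) (.g (nat_lit 1) (.e (nat_lit 301429) (nat_lit 0) .nil) .nil)))) 
(.nd (nat_lit 9) 
(.lf (nat_lit 552320) (.g (nat_lit 4555) (.e (nat_lit 426125) (nat_lit 2) (.e (nat_lit 196666) (nat_lit 13) (.e (nat_lit 65614) (nat_lit 10) (.e (nat_lit 344132) (nat_lit 26) (.e (nat_lit 557093) (nat_lit 12) (.e (nat_lit 164023) (nat_lit 46) (.e (nat_lit 704629) (nat_lit 9) (.e (nat_lit 375) (nat_lit 32) .nil)))))))) (.g (nat_lit 1) (.e (nat_lit 301055) (nat_lit 0) .nil) .nil))) 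
(.lf (nat_lit 552832) (.g (nat_lit 3277) (.e (nat_lit 426129) (nat_lit 3) (.e (nat_lit 204869) (nat_lit 29) (.e (nat_lit 360475) (nat_lit 8) (.e (nat_lit 557091) (nat_lit 12) (.e (nat_lit 171776) (nat_lit 49) (.e (nat_lit 729097) (nat_lit 11) .nil)))))) (.g (nat_lit 1) (.e (nat_lit 301942) (nat_lit 0) .nil) .nil)))))) (.nd (nat_lit 7) (.nd (nat_lit 8) (.nd (nat_lit 9) 
(.lf (nat_lit 552000) (.g (nat_lit 2741) (.e (nat_lit 426123) (nat_lit 2) (.e (nat_lit 196666) (nat_lit 13) (.e (nat_lit 65617) (nat_lit 10) (.e (nat_lit 344132) (nat_lit 26) (.e (nat_lit 557093) (nat_lit 12) (.e (nat_lit 164023) (nat_lit 46) (.e (nat_lit 704627) (nat_lit 9) (.e (nat_lit 440) (nat_lit 32) .nil)))))))) (.g (nat_lit 1) (.e (nat_lit 299147) (nat_lit 0) .nil) .nil))) 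
(.lf (nat_lit 552512) (.g (nat_lit 3272) (.e (nat_lit 426125) (nat_lit 2) (.e (nat_lit 196666) (nat_lit 13) (.e (nat_lit 65617) (nat_lit 10) (.e (nat_lit 344132) (nat_lit 26) (.e (nat_lit 557093) (nat_lit 12) (.e (nat_lit 164022) (nat_lit 46) (.e (nat_lit 704626) (nat_lit 9) (.e (nat_lit 377) (nat_lit 32) .nil)))))))) (.g (nat_lit 1) (.e (nat_lit 301341) (nat_lit 0) .nil) .nil)))) 
(.nd (nat_lit 9) 
(.lf (nat_lit 552256) (.g (nat_lit 4160) (.e (nat_lit 426125) (nat_lit 2) (.e (nat_lit 196666) (nat_lit 13) (.e (nat_lit 65610) (nat_lit 10) (.e (nat_lit 344129) (nat_lit 26) (.e (nat_lit 557090) (nat_lit 12) (.e (nat_lit 164017) (nat_lit 44) (.e (nat_lit 688139) (nat_lit 5) (.e (nat_lit 2883) (nat_lit 184) .nil)))))))) (.g (nat_lit 1) (.e (nat_lit 300967) (nat_lit 0) .nil) .nil))) 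
(.lf (nat_lit 552768) (.g (nat_lit 1859) (.e (nat_lit 426129) (nat_lit 3) (.e (nat_lit 204868) (nat_lit 29) (.e (nat_lit 360473) (nat_lit 8) (.e (nat_lit 557091) (nat_lit 12) (.e (nat_lit 171776) (nat_lit 48) .nil))))) (.g (nat_lit 0) (.e (nat_lit 301874) (nat_lit 0) .nil) .nil))))) (.nd (nat_lit 8) (.nd (nat_lit 9) 
(.lf (nat_lit 552128) (.g (nat_lit 2533) (.e (nat_lit 426125) (nat_lit 2) (.e (nat_lit 196666) (nat_lit 13) (.e (nat_lit 65610) (nat_lit 10) (.e (nat_lit 344117) (nat_lit 21) (.e (nat_lit 516099) (nat_lit 0) (.e (nat_lit 2416) (nat_lit 157) (.e (nat_lit 4536) (nat_lit 267) (.e (nat_lit 163909) (nat_lit 12) .nil)))))))) (.g (nat_lit 1) (.e (nat_lit 299956) (nat_lit 0) .nil) .nil))) 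
(.lf (nat_lit 552640) (.g (nat_lit 2143) (.e (nat_lit 426125) (nat_lit 2) (.e (nat_lit 196666) (nat_lit 13) (.e (nat_lit 65617) (nat_lit 10) (.e (nat_lit 344133) (nat_lit 26) (.e (nat_lit 557092) (nat_lit 12) .nil))))) (.g (nat_lit 0) (.e (nat_lit 301545) (nat_lit 0) .nil) .nil)))) (.nd (nat_lit 9) 
(.lf (nat_lit 552384) (.g (nat_lit 3458) (.e (nat_lit 426125) (nat_lit 2) (.e (nat_lit 196666) (nat_lit 13) (.e (nat_lit 65617) (nat_lit 10) (.e (nat_lit 344130) (nat_lit 26) (.e (nat_lit 557089) (nat_lit 12) (.e (nat_lit 163843) (nat_lit 0) (.e (nat_lit 6420) (nat_lit 341) (.e (nat_lit 163900) (nat_lit 12) .nil)))))))) (.g (nat_lit 1) (.e (nat_lit 301142) (nat_lit 0) .nil) .nil))) 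
(.lf (nat_lit 552896) (.g (nat_lit 862) (.e (nat_lit 426131) (nat_lit 3) (.e (nat_lit 204829) (nat_lit 18) (.e (nat_lit 57690) (nat_lit 156) .nil))) (.g (nat_lit 0) (.e (nat_lit 302070) (nat_lit 0) .nil) .nil))))))) (.nd (nat_lit 6) (.nd (nat_lit 7) (.nd (nat_lit 8) (.nd (nat_lit 9) 
(.lf (nat_lit 551968) (.g (nat_lit 2620) (.e (nat_lit 426123) (nat_lit 2) (.e (nat_lit 196666) (nat_lit 13) (.e (nat_lit 65617) (nat_lit 10) (.e (nat_lit 344130) (nat_lit 26) (.e (nat_lit 557090) (nat_lit 12) (.e (nat_lit 164022) (nat_lit 46) (.e (nat_lit 712448) (nat_lit 9) (.e (nat_lit 440) (nat_lit 32) .nil)))))))) (.g (nat_lit 1) (.e (nat_lit 299111) (nat_lit 0) .nil) .nil))) 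
(.lf (nat_lit 552480) (.g (nat_lit 4148) (.e (nat_lit 426125) (nat_lit 2) (.e (nat_lit 196666) (nat_lit 13) (.e (nat_lit 65617) (nat_lit 10) (.e (nat_lit 344132) (nat_lit 26) (.e (nat_lit 557090) (nat_lit 12) (.e (nat_lit 164020) (nat_lit 45) (.e (nat_lit 696328) (nat_lit 5) (.e (nat_lit 2884) (nat_lit 184) .nil)))))))) (.g (nat_lit 1) (.e (nat_lit 301298) (nat_lit 0) .nil) .nil)))) 
(.nd (nat_lit 9) 
(.lf (nat_lit 552224) (.g (nat_lit 3956) (.e (nat_lit 426125) (nat_lit 2) (.e (nat_lit 196666) (nat_lit 13) (.e (nat_lit 65610) (nat_lit 10) (.e (nat_lit 344129) (nat_lit 26) (.e (nat_lit 557090) (nat_lit 12) (.e (nat_lit 163843) (nat_lit 0) (.e (nat_lit 6420) (nat_lit 341) (.e (nat_lit 163909) (nat_lit 12) .nil)))))))) (.g (nat_lit 1) (.e (nat_lit 300873) (nat_lit 0) .nil) .nil))) 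
(.lf (nat_lit 552736) (.g (nat_lit 1229) (.e (nat_lit 426129) (nat_lit 3) (.e (nat_lit 204846) (nat_lit 24) (.e (nat_lit 319534) (nat_lit 16) (.e (nat_lit 286735) (nat_lit 3) .nil)))) (.g (nat_lit 0) (.e (nat_lit 301767) (nat_lit 0) .nil) .nil))))) (.nd (nat_lit 8) (.nd (nat_lit 9) 
(.lf (nat_lit 552096) (.g (nat_lit 4838) (.e (nat_lit 426124) (nat_lit 2) (.e (nat_lit 196681) (nat_lit 17) (.e (nat_lit 131086) (nat_lit 1) (.e (nat_lit 57854) (nat_lit 252) (.e (nat_lit 57378) (nat_lit 3) (.e (nat_lit 98333) (nat_lit 18) (.e (nat_lit 164399) (nat_lit 256) (.e (nat_lit 57588) (nat_lit 73) .nil)))))))) (.g (nat_lit 1) (.e (nat_lit 299457) (nat_lit 0) .nil) .nil))) 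
(.lf (nat_lit 552608) (.g (nat_lit 4249) (.e (nat_lit 426125) (nat_lit 2) (.e (nat_lit 196666) (nat_lit 13) (.e (nat_lit 65617) (nat_lit 10) (.e (nat_lit 344133) (nat_lit 26) (.e (nat_lit 557091) (nat_lit 12) (.e (nat_lit 163852) (nat_lit 0) (.e (nat_lit 6427) (nat_lit 342) (.e (nat_lit 229399) (nat_lit 12) .nil)))))))) (.g (nat_lit 1) (.e (nat_lit 301495) (nat_lit 0) .nil) .nil)))) 
(.nd (nat_lit 9) 
(.lf (nat_lit 552352) (.g (nat_lit 3689) (.e (nat_lit 426125) (nat_lit 2) (.e (nat_lit 196666) (nat_lit 13) (.e (nat_lit 65617) (nat_lit 10) (.e (nat_lit 344127) (nat_lit 26) (.e (nat_lit 557090) (nat_lit 12) (.e (nat_lit 163850) (nat_lit 0) (.e (nat_lit 6427) (nat_lit 342) (.e (nat_lit 229399) (nat_lit 12) .nil)))))))) (.g (nat_lit 1) (.e (nat_lit 301101) (nat_lit 0) .nil) .nil))) 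
(.lf (nat_lit 552864) (.g (nat_lit 5383) (.e (nat_lit 426130) (nat_lit 3) (.e (nat_lit 204869) (nat_lit 29) (.e (nat_lit 360474) (nat_lit 8) (.e (nat_lit 557091) (nat_lit 12) (.e (nat_lit 163843) (nat_lit 0) .nil))))) (.g (nat_lit 0) (.e (nat_lit 302021) (nat_lit 0) .nil) .nil)))))) (.nd (nat_lit 7) (.nd (nat_lit 8) (.nd (nat_lit 9) 
(.lf (nat_lit 552032) (.g (nat_lit 3535) (.e (nat_lit 426123) (nat_lit 2) (.e (nat_lit 196666) (nat_lit 13) (.e (nat_lit 65617) (nat_lit 10) (.e (nat_lit 344133) (nat_lit 26) (.e (nat_lit 557091) (nat_lit 12) (.e (nat_lit 163844) (nat_lit 0) (.e (nat_lit 6421) (nat_lit 341) (.e (nat_lit 171776) (nat_lit 12) .nil)))))))) (.g (nat_lit 1) (.e (nat_lit 299209) (nat_lit 0) .nil) .nil))) 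
(.lf (nat_lit 552544) (.g (nat_lit 4942) (.e (nat_lit 426125) (nat_lit 2) (.e (nat_lit 196666) (nat_lit 13) (.e (nat_lit 65617) (nat_lit 10) (.e (nat_lit 344132) (nat_lit 26) (.e (nat_lit 557094) (nat_lit 12) (.e (nat_lit 164022) (nat_lit 46) (.e (nat_lit 704628) (nat_lit 9) (.e (nat_lit 375) (nat_lit 32) .nil)))))))) (.g (nat_lit 1) (.e (nat_lit 301379) (nat_lit 0) .nil) .nil)))) 
(.nd (nat_lit 9) 
(.lf (nat_lit 552288) (.g (nat_lit 4677) (.e (nat_lit 426125) (nat_lit 2) (.e (nat_lit 196666) (nat_lit 13) (.e (nat_lit 65610) (nat_lit 10) (.e (nat_lit 344129) (nat_lit 26) (.e (nat_lit 557090) (nat_lit 12) (.e (nat_lit 164020) (nat_lit 45) (.e (nat_lit 696330) (nat_lit 5) (.e (nat_lit 2878) (nat_lit 184) .nil)))))))) (.g (nat_lit 1) (.e (nat_lit 301000) (nat_lit 0) .nil) .nil))) 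
(.lf (nat_lit 552800) (.g (nat_lit 3035) (.e (nat_lit 426129) (nat_lit 3) (.e (nat_lit 204869) (nat_lit 29) (.e (nat_lit 360474) (nat_lit 8) (.e (nat_lit 557093) (nat_lit 12) (.e (nat_lit 164023) (nat_lit 46) .nil))))) (.g (nat_lit 0) (.e (nat_lit 301907) (nat_lit 0) .nil) .nil))))) (.nd (nat_lit 8) (.nd (nat_lit 9) 
(.lf (nat_lit 552160) (.g (nat_lit 2175) (.e (nat_lit 426125) (nat_lit 2) (.e (nat_lit 196666) (nat_lit 13) (.e (nat_lit 65610) (nat_lit 10) (.e (nat_lit 344129) (nat_lit 26) (.e (nat_lit 557089) (nat_lit 12) .nil))))) (.g (nat_lit 0) (.e (nat_lit 300712) (nat_lit 0) .nil) .nil))) 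
(.lf (nat_lit 552672) (.g (nat_lit 2378) (.e (nat_lit 426129) (nat_lit 3) (.e (nat_lit 204809) (nat_lit 9) (.e (nat_lit 426124) (nat_lit 2) (.e (nat_lit 196656) (nat_lit 11) (.e (nat_lit 16416) (nat_lit 3) (.e (nat_lit 204811) (nat_lit 9) .nil)))))) (.g (nat_lit 1) (.e (nat_lit 301622) (nat_lit 0) .nil) .nil)))) (.nd (nat_lit 9) 
(.lf (nat_lit 552416) (.g (nat_lit 4624) (.e (nat_lit 426125) (nat_lit 2) (.e (nat_lit 196666) (nat_lit 13) (.e (nat_lit 65617) (nat_lit 10) (.e (nat_lit 344130) (nat_lit 26) (.e (nat_lit 557090) (nat_lit 12) (.e (nat_lit 163844) (nat_lit 0) (.e (nat_lit 6420) (nat_lit 341) (.e (nat_lit 163909) (nat_lit 12) .nil)))))))) (.g (nat_lit 1) (.e (nat_lit 301208) (nat_lit 0) .nil) .nil))) 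
(.lf (nat_lit 552928) (.g (nat_lit 1039) (.e (nat_lit 426131) (nat_lit 3) (.e (nat_lit 204845) (nat_lit 24) (.e (nat_lit 319529) (nat_lit 16) (.e (nat_lit 286733) (nat_lit 2) .nil)))) (.g (nat_lit 0) (.e (nat_lit 302129) (nat_lit 0) .nil) .nil)))))))) (.nd (nat_lit 5) (.nd (nat_lit 6) (.nd (nat_lit 7) (.nd (nat_lit 8) (.nd (nat_lit 9) 
(.lf (nat_lit 551952) (.g (nat_lit 3870) (.e (nat_lit 426123) (nat_lit 2) (.e (nat_lit 196666) (nat_lit 13) (.e (nat_lit 65617) (nat_lit 10) (.e (nat_lit 344130) (nat_lit 26) (.e (nat_lit 557090) (nat_lit 12) (.e (nat_lit 164022) (nat_lit 46) (.e (nat_lit 704626) (nat_lit 9) (.e (nat_lit 436) (nat_lit 32) .nil)))))))) (.g (nat_lit 1) (.e (nat_lit 299094) (nat_lit 0) .nil) .nil))) 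
(.lf (nat_lit 552464) (.g (nat_lit 3289) (.e (nat_lit 426125) (nat_lit 2) (.e (nat_lit 196666) (nat_lit 13) (.e (nat_lit 65617) (nat_lit 10) (.e (nat_lit 344130) (nat_lit 26) (.e (nat_lit 557090) (nat_lit 12) (.e (nat_lit 171776) (nat_lit 49) (.e (nat_lit 737024) (nat_lit 11) .nil))))))) (.g (nat_lit 1) (.e (nat_lit 301280) (nat_lit 0) .nil) .nil)))) (.nd (nat_lit 9) 
(.lf (nat_lit 552208) (.g (nat_lit 4084) (.e (nat_lit 426125) (nat_lit 2) (.e (nat_lit 196666) (nat_lit 13) (.e (nat_lit 65610) (nat_lit 10) (.e (nat_lit 344129) (nat_lit 26) (.e (nat_lit 557089) (nat_lit 12) (.e (nat_lit 164022) (nat_lit 46) (.e (nat_lit 704628) (nat_lit 9) (.e (nat_lit 375) (nat_lit 32) .nil)))))))) (.g (nat_lit 1) (.e (nat_lit 300814) (nat_lit 0) .nil) .nil))) 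
(.lf (nat_lit 552720) (.g (nat_lit 2019) (.e (nat_lit 426129) (nat_lit 3) (.e (nat_lit 204846) (nat_lit 24) (.e (nat_lit 319533) (nat_lit 16) (.e (nat_lit 286733) (nat_lit 2) (.e (nat_lit 90170) (nat_lit 13) (.e (nat_lit 179968) (nat_lit 9) .nil)))))) (.g (nat_lit 1) (.e (nat_lit 301741) (nat_lit 0) .nil) .nil))))) (.nd (nat_lit 8) (.nd (nat_lit 9) 
(.lf (nat_lit 552080) (.g (nat_lit 3720) (.e (nat_lit 426124) (nat_lit 2) (.e (nat_lit 196654) (nat_lit 11) (.e (nat_lit 16412) (nat_lit 2) (.e (nat_lit 196654) (nat_lit 11) (.e (nat_lit 16416) (nat_lit 3) (.e (nat_lit 204809) (nat_lit 9) .nil)))))) (.g (nat_lit 1) (.e (nat_lit 299294) (nat_lit 0) .nil) .nil))) 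
(.lf (nat_lit 552592) (.g (nat_lit 3639) (.e (nat_lit 426125) (nat_lit 2) (.e (nat_lit 196666) (nat_lit 13) (.e (nat_lit 65617) (nat_lit 10) (.e (nat_lit 344133) (nat_lit 26) (.e (nat_lit 557091) (nat_lit 12) (.e (nat_lit 163843) (nat_lit 0) (.e (nat_lit 6418) (nat_lit 341) (.e (nat_lit 163909) (nat_lit 12) .nil)))))))) (.g (nat_lit 1) (.e (nat_lit 301463) (nat_lit 0) .nil) .nil)))) 
(.nd (nat_lit 9) 
(.lf (nat_lit 552336) (.g (nat_lit 2718) (.e (nat_lit 426125) (nat_lit 2) (.e (nat_lit 196666) (nat_lit 13) (.e (nat_lit 65617) (nat_lit 10) (.e (nat_lit 344127) (nat_lit 26) (.e (nat_lit 557089) (nat_lit 12) (.e (nat_lit 164020) (nat_lit 45) (.e (nat_lit 696328) (nat_lit 5) (.e (nat_lit 2884) (nat_lit 184) .nil)))))))) (.g (nat_lit 1) (.e (nat_lit 301072) (nat_lit 0) .nil) .nil))) 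
(.lf (nat_lit 552848) (.g (nat_lit 553) (.e (nat_lit 426130) (nat_lit 3) (.e (nat_lit 204846) (nat_lit 24) (.e (nat_lit 319528) (nat_lit 16) .nil))) (.g (nat_lit 0) (.e (nat_lit 302003) (nat_lit 0) .nil) .nil)))))) (.nd (nat_lit 7) (.nd (nat_lit 8) (.nd (nat_lit 9) 
(.lf (nat_lit 552016) (.g (nat_lit 3697) (.e (nat_lit 426123) (nat_lit 2) (.e (nat_lit 196666) (nat_lit 13) (.e (nat_lit 65617) (nat_lit 10) (.e (nat_lit 344132) (nat_lit 26) (.e (nat_lit 557094) (nat_lit 12) (.e (nat_lit 164022) (nat_lit 46) (.e (nat_lit 704628) (nat_lit 9) (.e (nat_lit 398) (nat_lit 32) .nil)))))))) (.g (nat_lit 1) (.e (nat_lit 299192) (nat_lit 0) .nil) .nil))) 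
(.lf (nat_lit 552528) (.g (nat_lit 2409) (.e (nat_lit 426125) (nat_lit 2) (.e (nat_lit 196666) (nat_lit 13) (.e (nat_lit 65617) (nat_lit 10) (.e (nat_lit 344132) (nat_lit 26) (.e (nat_lit 557094) (nat_lit 12) (.e (nat_lit 163840) (nat_lit 0) (.e (nat_lit 6421) (nat_lit 341) (.e (nat_lit 163900) (nat_lit 12) .nil)))))))) (.g (nat_lit 1) (.e (nat_lit 301358) (nat_lit 0) .nil) .nil)))) 
(.nd (nat_lit 9) 
(.lf (nat_lit 552272) (.g (nat_lit 3306) (.e (nat_lit 426125) (nat_lit 2) (.e (nat_lit 196666) (nat_lit 13) (.e (nat_lit 65610) (nat_lit 10) (.e (nat_lit 344129) (nat_lit 26) (.e (nat_lit 557090) (nat_lit 12) (.e (nat_lit 164018) (nat_lit 45) (.e (nat_lit 696330) (nat_lit 5) (.e (nat_lit 2885) (nat_lit 184) .nil)))))))) (.g (nat_lit 1) (.e (nat_lit 300984) (nat_lit 0) .nil) .nil))) 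
(.lf (nat_lit 552784) (.g (nat_lit 3869) (.e (nat_lit 426129) (nat_lit 3) (.e (nat_lit 204869) (nat_lit 29) (.e (nat_lit 360474) (nat_lit 8) (.e (nat_lit 557088) (nat_lit 12) .nil)))) (.g (nat_lit 0) (.e (nat_lit 301891) (nat_lit 0) .nil) .nil))))) (.nd (nat_lit 8) (.nd (nat_lit 9) 
(.lf (nat_lit 552144) (.g (nat_lit 1818) (.e (nat_lit 426125) (nat_lit 2) (.e (nat_lit 196666) (nat_lit 13) (.e (nat_lit 65610) (nat_lit 10) (.e (nat_lit 344128) (nat_lit 26) .nil)))) (.g (nat_lit 0) (.e (nat_lit 300641) (nat_lit 0) .nil) .nil))) 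
(.lf (nat_lit 552656) (.g (nat_lit 2615) (.e (nat_lit 426125) (nat_lit 2) (.e (nat_lit 196666) (nat_lit 13) (.e (nat_lit 65624) (nat_lit 12) (.e (nat_lit 385066) (nat_lit 26) (.e (nat_lit 532514) (nat_lit 3) .nil))))) (.g (nat_lit 0) (.e (nat_lit 301567) (nat_lit 0) .nil) .nil)))) (.nd (nat_lit 9) 
(.lf (nat_lit 552400) (.g (nat_lit 2244) (.e (nat_lit 426125) (nat_lit 2) (.e (nat_lit 196666) (nat_lit 13) (.e (nat_lit 65617) (nat_lit 10) (.e (nat_lit 344130) (nat_lit 26) (.e (nat_lit 557089) (nat_lit 12) (.e (nat_lit 171776) (nat_lit 49) (.e (nat_lit 737024) (nat_lit 11) .nil))))))) (.g (nat_lit 1) (.e (nat_lit 301166) (nat_lit 0) .nil) .nil))) 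
(.lf (nat_lit 552912) (.g (nat_lit 1553) (.e (nat_lit 426131) (nat_lit 3) (.e (nat_lit 204830) (nat_lit 18) (.e (nat_lit 57691) (nat_lit 156) (.e (nat_lit 171776) (nat_lit 12) .nil)))) (.g (nat_lit 0) (.e (nat_lit 302098) (nat_lit 0) .nil) .nil))))))) (.nd (nat_lit 6) (.nd (nat_lit 7) (.nd (nat_lit 8) (.nd (nat_lit 9) 
(.lf (nat_lit 551984) (.g (nat_lit 4641) (.e (nat_lit 426123) (nat_lit 2) (.e (nat_lit 196666) (nat_lit 13) (.e (nat_lit 65617) (nat_lit 10) (.e (nat_lit 344132) (nat_lit 26) (.e (nat_lit 557093) (nat_lit 12) (.e (nat_lit 164022) (nat_lit 46) (.e (nat_lit 704628) (nat_lit 9) (.e (nat_lit 391) (nat_lit 32) .nil)))))))) (.g (nat_lit 1) (.e (nat_lit 299129) (nat_lit 0) .nil) .nil))) 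
(.lf (nat_lit 552496) (.g (nat_lit 2210) (.e (nat_lit 426125) (nat_lit 2) (.e (nat_lit 196666) (nat_lit 13) (.e (nat_lit 65617) (nat_lit 10) (.e (nat_lit 344132) (nat_lit 26) (.e (nat_lit 557093) (nat_lit 12) (.e (nat_lit 163840) (nat_lit 0) (.e (nat_lit 6425) (nat_lit 342) (.e (nat_lit 229399) (nat_lit 12) .nil)))))))) (.g (nat_lit 1) (.e (nat_lit 301314) (nat_lit 0) .nil) .nil)))) 
(.nd (nat_lit 9) 
(.lf (nat_lit 552240) (.g (nat_lit 2581) (.e (nat_lit 426125) (nat_lit 2) (.e (nat_lit 196666) (nat_lit 13) (.e (nat_lit 65610) (nat_lit 10) (.e (nat_lit 344129) (nat_lit 26) (.e (nat_lit 557090) (nat_lit 12) (.e (nat_lit 163847) (nat_lit 0) (.e (nat_lit 6421) (nat_lit 341) (.e (nat_lit 171776) (nat_lit 12) .nil)))))))) (.g (nat_lit 1) (.e (nat_lit 300926) (nat_lit 0) .nil) .nil))) 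
(.lf (nat_lit 552752) (.g (nat_lit 1963) (.e (nat_lit 426129) (nat_lit 3) (.e (nat_lit 204854) (nat_lit 26) (.e (nat_lit 336208) (nat_lit 12) (.e (nat_lit 385068) (nat_lit 26) (.e (nat_lit 532513) (nat_lit 3) .nil))))) (.g (nat_lit 0) (.e (nat_lit 301826) (nat_lit 0) .nil) .nil))))) (.nd (nat_lit 8) (.nd (nat_lit 9) 
(.lf (nat_lit 552112) (.g (nat_lit 3989) (.e (nat_lit 426125) (nat_lit 2) (.e (nat_lit 196630) (nat_lit 9) (.e (nat_lit 1586) (nat_lit 111) (.e (nat_lit 360475) (nat_lit 8) (.e (nat_lit 557090) (nat_lit 12) (.e (nat_lit 164020) (nat_lit 45) (.e (nat_lit 696330) (nat_lit 5) (.e (nat_lit 2878) (nat_lit 184) .nil)))))))) (.g (nat_lit 1) (.e (nat_lit 299539) (nat_lit 0) .nil) .nil))) 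
(.lf (nat_lit 552624) (.g (nat_lit 4121) (.e (nat_lit 426125) (nat_lit 2) (.e (nat_lit 196666) (nat_lit 13) (.e (nat_lit 65617) (nat_lit 10) (.e (nat_lit 344133) (nat_lit 26) (.e (nat_lit 557091) (nat_lit 12) (.e (nat_lit 164020) (nat_lit 45) (.e (nat_lit 696328) (nat_lit 5) (.e (nat_lit 2878) (nat_lit 184) .nil)))))))) (.g (nat_lit 1) (.e (nat_lit 301518) (nat_lit 0) .nil) .nil)))) 
(.nd (nat_lit 9) 
(.lf (nat_lit 552368) (.g (nat_lit 4624) (.e (nat_lit 426125) (nat_lit 2) (.e (nat_lit 196666) (nat_lit 13) (.e (nat_lit 65617) (nat_lit 10) (.e (nat_lit 344127) (nat_lit 26) (.e (nat_lit 557090) (nat_lit 12) (.e (nat_lit 164020) (nat_lit 45) (.e (nat_lit 696328) (nat_lit 5) (.e (nat_lit 2878) (nat_lit 184) .nil)))))))) (.g (nat_lit 1) (.e (nat_lit 301120) (nat_lit 0) .nil) .nil))) 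
(.lf (nat_lit 552880) (.g (nat_lit 1052) (.e (nat_lit 426130) (nat_lit 3) (.e (nat_lit 204880) (nat_lit 32) (.e (nat_lit 385107) (nat_lit 51) .nil))) (.g (nat_lit 0) (.e (nat_lit 302037) (nat_lit 0) .nil) .nil)))))) (.nd (nat_lit 7) (.nd (nat_lit 8) (.nd (nat_lit 9) 
(.lf (nat_lit 552048) (.g (nat_lit 4579) (.e (nat_lit 426123) (nat_lit 2) (.e (nat_lit 196666) (nat_lit 13) (.e (nat_lit 65617) (nat_lit 10) (.e (nat_lit 344133) (nat_lit 26) (.e (nat_lit 557091) (nat_lit 12) (.e (nat_lit 164022) (nat_lit 46) (.e (nat_lit 704628) (nat_lit 9) (.e (nat_lit 399) (nat_lit 32) .nil)))))))) (.g (nat_lit 1) (.e (nat_lit 299230) (nat_lit 0) .nil) .nil))) 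
(.lf (nat_lit 552560) (.g (nat_lit 4176) (.e (nat_lit 426125) (nat_lit 2) (.e (nat_lit 196666) (nat_lit 13) (.e (nat_lit 65617) (nat_lit 10) (.e (nat_lit 344133) (nat_lit 26) (.e (nat_lit 557089) (nat_lit 12) (.e (nat_lit 163844) (nat_lit 0) (.e (nat_lit 6421) (nat_lit 341) (.e (nat_lit 163909) (nat_lit 12) .nil)))))))) (.g (nat_lit 1) (.e (nat_lit 301403) (nat_lit 0) .nil) .nil)))) 
(.nd (nat_lit 9) 
(.lf (nat_lit 552304) (.g (nat_lit 3980) (.e (nat_lit 426125) (nat_lit 2) (.e (nat_lit 196666) (nat_lit 13) (.e (nat_lit 65610) (nat_lit 10) (.e (nat_lit 344129) (nat_lit 26) (.e (nat_lit 557093) (nat_lit 12) (.e (nat_lit 164023) (nat_lit 46) (.e (nat_lit 704627) (nat_lit 9) (.e (nat_lit 375) (nat_lit 32) .nil)))))))) (.g (nat_lit 1) (.e (nat_lit 301037) (nat_lit 0) .nil) .nil))) 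
(.lf (nat_lit 552816) (.g (nat_lit 3439) (.e (nat_lit 426129) (nat_lit 3) (.e (nat_lit 204869) (nat_lit 29) (.e (nat_lit 360475) (nat_lit 8) (.e (nat_lit 557089) (nat_lit 12) (.e (nat_lit 163847) (nat_lit 0) .nil))))) (.g (nat_lit 0) (.e (nat_lit 301926) (nat_lit 0) .nil) .nil))))) (.nd (nat_lit 8) (.nd (nat_lit 9) 
(.lf (nat_lit 552176) (.g (nat_lit 2276) (.e (nat_lit 426125) (nat_lit 2) (.e (nat_lit 196666) (nat_lit 13) (.e (nat_lit 65610) (nat_lit 10) (.e (nat_lit 344129) (nat_lit 26) (.e (nat_lit 557089) (nat_lit 12) (.e (nat_lit 163848) (nat_lit 0) (.e (nat_lit 6418) (nat_lit 341) (.e (nat_lit 163909) (nat_lit 12) .nil)))))))) (.g (nat_lit 1) (.e (nat_lit 300761) (nat_lit 0) .nil) .nil))) 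
(.lf (nat_lit 552688) (.g (nat_lit 1396) (.e (nat_lit 426129) (nat_lit 3) (.e (nat_lit 204831) (nat_lit 18) (.e (nat_lit 57691) (nat_lit 156) (.e (nat_lit 163907) (nat_lit 12) .nil)))) (.g (nat_lit 0) (.e (nat_lit 301678) (nat_lit 0) .nil) .nil)))) (.nd (nat_lit 9) 
(.lf (nat_lit 552432) (.g (nat_lit 3550) (.e (nat_lit 426125) (nat_lit 2) (.e (nat_lit 196666) (nat_lit 13) (.e (nat_lit 65617) (nat_lit 10) (.e (nat_lit 344130) (nat_lit 26) (.e (nat_lit 557090) (nat_lit 12) (.e (nat_lit 163854) (nat_lit 0) (.e (nat_lit 6428) (nat_lit 342) (.e (nat_lit 229399) (nat_lit 12) .nil)))))))) (.g (nat_lit 1) (.e (nat_lit 301233) (nat_lit 0) .nil) .nil))) 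
(.lf (nat_lit 552944) (.g (nat_lit 1559) (.e (nat_lit 426131) (nat_lit 3) (.e (nat_lit 204846) (nat_lit 24) (.e (nat_lit 319531) (nat_lit 16) (.e (nat_lit 286733) (nat_lit 2) .nil)))) (.g (nat_lit 0) (.e (nat_lit 302146) (nat_lit 0) .nil) .nil))))))))) (.nd (nat_lit 4) (.nd (nat_lit 5) (.nd (nat_lit 6) (.nd (nat_lit 7) (.nd (nat_lit 8) (.nd (nat_lit 9) 
(.lf (nat_lit 551944) (.g (nat_lit 2065) (.e (nat_lit 426123) (nat_lit 2) (.e (nat_lit 196666) (nat_lit 13) (.e (nat_lit 65617) (nat_lit 10) (.e (nat_lit 344130) (nat_lit 26) (.e (nat_lit 557090) (nat_lit 12) .nil))))) (.g (nat_lit 0) (.e (nat_lit 299082) (nat_lit 0) .nil) .nil))) 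
(.lf (nat_lit 552456) (.g (nat_lit 4927) (.e (nat_lit 426125) (nat_lit 2) (.e (nat_lit 196666) (nat_lit 13) (.e (nat_lit 65617) (nat_lit 10) (.e (nat_lit 344130) (nat_lit 26) (.e (nat_lit 557090) (nat_lit 12) (.e (nat_lit 164022) (nat_lit 46) (.e (nat_lit 704627) (nat_lit 9) (.e (nat_lit 375) (nat_lit 32) .nil)))))))) (.g (nat_lit 1) (.e (nat_lit 301268) (nat_lit 0) .nil) .nil)))) 
(.nd (nat_lit 9) 
(.lf (nat_lit 552200) (.g (nat_lit 4484) (.e (nat_lit 426125) (nat_lit 2) (.e (nat_lit 196666) (nat_lit 13) (.e (nat_lit 65610) (nat_lit 10) (.e (nat_lit 344129) (nat_lit 26) (.e (nat_lit 557089) (nat_lit 12) (.e (nat_lit 164020) (nat_lit 45) (.e (nat_lit 696328) (nat_lit 5) (.e (nat_lit 2884) (nat_lit 184) .nil)))))))) (.g (nat_lit 1) (.e (nat_lit 300806) (nat_lit 0) .nil) .nil))) 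
(.lf (nat_lit 552712) (.g (nat_lit 3590) (.e (nat_lit 426129) (nat_lit 3) (.e (nat_lit 204846) (nat_lit 24) (.e (nat_lit 319531) (nat_lit 16) (.e (nat_lit 286735) (nat_lit 3) (.e (nat_lit 98363) (nat_lit 26) (.e (nat_lit 426230) (nat_lit 9) .nil)))))) (.g (nat_lit 1) (.e (nat_lit 301723) (nat_lit 0) .nil) .nil))))) (.nd (nat_lit 8) (.nd (nat_lit 9) 
(.lf (nat_lit 552072) (.g (nat_lit 3133) (.e (nat_lit 426123) (nat_lit 2) (.e (nat_lit 196666) (nat_lit 13) (.e (nat_lit 65624) (nat_lit 12) (.e (nat_lit 385068) (nat_lit 26) (.e (nat_lit 532515) (nat_lit 3) (.e (nat_lit 122624) (nat_lit 11) .nil)))))) (.g (nat_lit 1) (.e (nat_lit 299271) (nat_lit 0) .nil) .nil))) 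
(.lf (nat_lit 552584) (.g (nat_lit 2428) (.e (nat_lit 426125) (nat_lit 2) (.e (nat_lit 196666) (nat_lit 13) (.e (nat_lit 65617) (nat_lit 10) (.e (nat_lit 344133) (nat_lit 26) (.e (nat_lit 557091) (nat_lit 12) (.e (nat_lit 163840) (nat_lit 0) (.e (nat_lit 6420) (nat_lit 341) (.e (nat_lit 163900) (nat_lit 12) .nil)))))))) (.g (nat_lit 1) (.e (nat_lit 301438) (nat_lit 0) .nil) .nil)))) 
(.nd (nat_lit 9) 
(.lf (nat_lit 552328) (.g (nat_lit 2830) (.e (nat_lit 426125) (nat_lit 2) (.e (nat_lit 196666) (nat_lit 13) (.e (nat_lit 65617) (nat_lit 10) (.e (nat_lit 344127) (nat_lit 26) (.e (nat_lit 557088) (nat_lit 12) (.e (nat_lit 164020) (nat_lit 45) (.e (nat_lit 696328) (nat_lit 5) (.e (nat_lit 2884) (nat_lit 184) .nil)))))))) (.g (nat_lit 1) (.e (nat_lit 301064) (nat_lit 0) .nil) .nil))) 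
(.lf (nat_lit 552840) (.g (nat_lit 2014) (.e (nat_lit 426129) (nat_lit 3) (.e (nat_lit 204877) (nat_lit 31) (.e (nat_lit 376835) (nat_lit 0) (.e (nat_lit 3253) (nat_lit 197) (.e (nat_lit 532515) (nat_lit 3) (.e (nat_lit 114695) (nat_lit 11) .nil)))))) (.g (nat_lit 1) (.e (nat_lit 301952) (nat_lit 0) .nil) .nil)))))) (.nd (nat_lit 7) (.nd (nat_lit 8) (.nd (nat_lit 9) 
(.lf (nat_lit 552008) (.g (nat_lit 2954) (.e (nat_lit 426123) (nat_lit 2) (.e (nat_lit 196666) (nat_lit 13) (.e (nat_lit 65617) (nat_lit 10) (.e (nat_lit 344132) (nat_lit 26) (.e (nat_lit 557094) (nat_lit 12) (.e (nat_lit 163849) (nat_lit 0) (.e (nat_lit 6421) (nat_lit 341) (.e (nat_lit 171776) (nat_lit 12) .nil)))))))) (.g (nat_lit 1) (.e (nat_lit 299183) (nat_lit 0) .nil) .nil))) 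
(.lf (nat_lit 552520) (.g (nat_lit 2751) (.e (nat_lit 426125) (nat_lit 2) (.e (nat_lit 196666) (nat_lit 13) (.e (nat_lit 65617) (nat_lit 10) (.e (nat_lit 344132) (nat_lit 26) (.e (nat_lit 557093) (nat_lit 12) (.e (nat_lit 164023) (nat_lit 46) (.e (nat_lit 704627) (nat_lit 9) (.e (nat_lit 370) (nat_lit 32) .nil)))))))) (.g (nat_lit 1) (.e (nat_lit 301349) (nat_lit 0) .nil) .nil)))) 
(.nd (nat_lit 9) 
(.lf (nat_lit 552264) (.g (nat_lit 3054) (.e (nat_lit 426125) (nat_lit 2) (.e (nat_lit 196666) (nat_lit 13) (.e (nat_lit 65610) (nat_lit 10) (.e (nat_lit 344129) (nat_lit 26) (.e (nat_lit 557090) (nat_lit 12) (.e (nat_lit 164018) (nat_lit 45) (.e (nat_lit 696326) (nat_lit 5) (.e (nat_lit 2886) (nat_lit 184) .nil)))))))) (.g (nat_lit 1) (.e (nat_lit 300976) (nat_lit 0) .nil) .nil))) 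
(.lf (nat_lit 552776) (.g (nat_lit 4169) (.e (nat_lit 426129) (nat_lit 3) (.e (nat_lit 204868) (nat_lit 29) (.e (nat_lit 360475) (nat_lit 8) (.e (nat_lit 557091) (nat_lit 12) (.e (nat_lit 163843) (nat_lit 0) (.e (nat_lit 6421) (nat_lit 341) (.e (nat_lit 163913) (nat_lit 12) .nil))))))) (.g (nat_lit 1) (.e (nat_lit 301882) (nat_lit 0) .nil) .nil))))) (.nd (nat_lit 8) (.nd (nat_lit 9) 
(.lf (nat_lit 552136) (.g (nat_lit 3560) (.e (nat_lit 426125) (nat_lit 2) (.e (nat_lit 196666) (nat_lit 13) (.e (nat_lit 65610) (nat_lit 10) (.e (nat_lit 344117) (nat_lit 21) (.e (nat_lit 524032) (nat_lit 18) (.e (nat_lit 57688) (nat_lit 156) (.e (nat_lit 163910) (nat_lit 12) .nil))))))) (.g (nat_lit 1) (.e (nat_lit 300631) (nat_lit 0) .nil) .nil))) 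
(.lf (nat_lit 552648) (.g (nat_lit 3183) (.e (nat_lit 426125) (nat_lit 2) (.e (nat_lit 196666) (nat_lit 13) (.e (nat_lit 65617) (nat_lit 10) (.e (nat_lit 344133) (nat_lit 26) (.e (nat_lit 557094) (nat_lit 12) (.e (nat_lit 164022) (nat_lit 46) (.e (nat_lit 704629) (nat_lit 9) (.e (nat_lit 411) (nat_lit 32) .nil)))))))) (.g (nat_lit 1) (.e (nat_lit 301553) (nat_lit 0) .nil) .nil)))) 
(.nd (nat_lit 9) 
(.lf (nat_lit 552392) (.g (nat_lit 2901) (.e (nat_lit 426125) (nat_lit 2) (.e (nat_lit 196666) (nat_lit 13) (.e (nat_lit 65617) (nat_lit 10) (.e (nat_lit 344130) (nat_lit 26) (.e (nat_lit 557089) (nat_lit 12) (.e (nat_lit 163853) (nat_lit 0) (.e (nat_lit 6428) (nat_lit 342) (.e (nat_lit 229399) (nat_lit 12) .nil)))))))) (.g (nat_lit 1) (.e (nat_lit 301155) (nat_lit 0) .nil) .nil))) 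
(.lf (nat_lit 552904) (.g (nat_lit 2569) (.e (nat_lit 426131) (nat_lit 3) (.e (nat_lit 204829) (nat_lit 18) (.e (nat_lit 57692) (nat_lit 156) (.e (nat_lit 163907) (nat_lit 12) (.e (nat_lit 426491) (nat_lit 27) (.e (nat_lit 336409) (nat_lit 27) (.e (nat_lit 426200) (nat_lit 9) .nil))))))) (.g (nat_lit 1) (.e (nat_lit 302079) (nat_lit 0) .nil) .nil))))))) 
(.nd (nat_lit 6) (.nd (nat_lit 7) (.nd (nat_lit 8) (.nd (nat_lit 9) 
(.lf (nat_lit 551976) (.g (nat_lit 4016) (.e (nat_lit 426123) (nat_lit 2) (.e (nat_lit 196666) (nat_lit 13) (.e (nat_lit 65617) (nat_lit 10) (.e (nat_lit 344132) (nat_lit 26) (.e (nat_lit 557093) (nat_lit 12) (.e (nat_lit 164022) (nat_lit 46) (.e (nat_lit 704626) (nat_lit 9) (.e (nat_lit 396) (nat_lit 32) .nil)))))))) (.g (nat_lit 1) (.e (nat_lit 299121) (nat_lit 0) .nil) .nil))) 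
(.lf (nat_lit 552488) (.g (nat_lit 3883) (.e (nat_lit 426125) (nat_lit 2) (.e (nat_lit 196666) (nat_lit 13) (.e (nat_lit 65617) (nat_lit 10) (.e (nat_lit 344132) (nat_lit 26) (.e (nat_lit 557091) (nat_lit 12) (.e (nat_lit 164020) (nat_lit 45) (.e (nat_lit 696328) (nat_lit 5) (.e (nat_lit 2878) (nat_lit 184) .nil)))))))) (.g (nat_lit 1) (.e (nat_lit 301306) (nat_lit 0) .nil) .nil)))) 
(.nd (nat_lit 9) 
(.lf (nat_lit 552232) (.g (nat_lit 4578) (.e (nat_lit 426125) (nat_lit 2) (.e (nat_lit 196666) (nat_lit 13) (.e (nat_lit 65610) (nat_lit 10) (.e (nat_lit 344129) (nat_lit 26) (.e (nat_lit 557090) (nat_lit 12) (.e (nat_lit 163844) (nat_lit 0) (.e (nat_lit 6421) (nat_lit 341) (.e (nat_lit 163900) (nat_lit 12) .nil)))))))) (.g (nat_lit 1) (.e (nat_lit 300898) (nat_lit 0) .nil) .nil))) 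
(.lf (nat_lit 552744) (.g (nat_lit 1130) (.e (nat_lit 426129) (nat_lit 3) (.e (nat_lit 204846) (nat_lit 24) (.e (nat_lit 327424) (nat_lit 16) (.e (nat_lit 286735) (nat_lit 3) (.e (nat_lit 98363) (nat_lit 26) .nil))))) (.g (nat_lit 0) (.e (nat_lit 301775) (nat_lit 0) .nil) .nil))))) (.nd (nat_lit 8) (.nd (nat_lit 9) 
(.lf (nat_lit 552104) (.g (nat_lit 804) (.e (nat_lit 426124) (nat_lit 2) (.e (nat_lit 196681) (nat_lit 17) (.e (nat_lit 131109) (nat_lit 9) (.e (nat_lit 336324) (nat_lit 18) .nil)))) (.g (nat_lit 0) (.e (nat_lit 299479) (nat_lit 0) .nil) .nil))) 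
(.lf (nat_lit 552616) (.g (nat_lit 3737) (.e (nat_lit 426125) (nat_lit 2) (.e (nat_lit 196666) (nat_lit 13) (.e (nat_lit 65617) (nat_lit 10) (.e (nat_lit 344133) (nat_lit 26) (.e (nat_lit 557091) (nat_lit 12) (.e (nat_lit 164018) (nat_lit 45) (.e (nat_lit 696329) (nat_lit 5) (.e (nat_lit 2878) (nat_lit 184) .nil)))))))) (.g (nat_lit 1) (.e (nat_lit 301510) (nat_lit 0) .nil) .nil)))) 
(.nd (nat_lit 9) 
(.lf (nat_lit 552360) (.g (nat_lit 3473) (.e (nat_lit 426125) (nat_lit 2) (.e (nat_lit 196666) (nat_lit 13) (.e (nat_lit 65617) (nat_lit 10) (.e (nat_lit 344127) (nat_lit 26) (.e (nat_lit 557090) (nat_lit 12) (.e (nat_lit 164017) (nat_lit 44) (.e (nat_lit 688141) (nat_lit 5) (.e (nat_lit 2883) (nat_lit 184) .nil)))))))) (.g (nat_lit 1) (.e (nat_lit 301112) (nat_lit 0) .nil) .nil))) 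
(.lf (nat_lit 552872) (.g (nat_lit 6595) (.e (nat_lit 426130) (nat_lit 3) (.e (nat_lit 204869) (nat_lit 29) (.e (nat_lit 360475) (nat_lit 8) (.e (nat_lit 557090) (nat_lit 12) (.e (nat_lit 163843) (nat_lit 0) .nil))))) (.g (nat_lit 0) (.e (nat_lit 302029) (nat_lit 0) .nil) .nil)))))) (.nd (nat_lit 7) (.nd (nat_lit 8) (.nd (nat_lit 9) 
(.lf (nat_lit 552040) (.g (nat_lit 4574) (.e (nat_lit 426123) (nat_lit 2) (.e (nat_lit 196666) (nat_lit 13) (.e (nat_lit 65617) (nat_lit 10) (.e (nat_lit 344133) (nat_lit 26) (.e (nat_lit 557091) (nat_lit 12) (.e (nat_lit 164022) (nat_lit 46) (.e (nat_lit 704626) (nat_lit 9) (.e (nat_lit 416) (nat_lit 32) .nil)))))))) (.g (nat_lit 1) (.e (nat_lit 299222) (nat_lit 0) .nil) .nil))) 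
(.lf (nat_lit 552552) (.g (nat_lit 2283) (.e (nat_lit 426125) (nat_lit 2) (.e (nat_lit 196666) (nat_lit 13) (.e (nat_lit 65617) (nat_lit 10) (.e (nat_lit 344133) (nat_lit 26) (.e (nat_lit 557065) (nat_lit 9) (.e (nat_lit 2612) (nat_lit 163) (.e (nat_lit 164188) (nat_lit 157) (.e (nat_lit 229399) (nat_lit 12) .nil)))))))) (.g (nat_lit 1) (.e (nat_lit 301389) (nat_lit 0) .nil) .nil)))) 
(.nd (nat_lit 9) 
(.lf (nat_lit 552296) (.g (nat_lit 2349) (.e (nat_lit 426125) (nat_lit 2) (.e (nat_lit 196666) (nat_lit 13) (.e (nat_lit 65610) (nat_lit 10) (.e (nat_lit 344129) (nat_lit 26) (.e (nat_lit 557090) (nat_lit 12) (.e (nat_lit 171776) (nat_lit 46) (.e (nat_lit 712448) (nat_lit 9) (.e (nat_lit 375) (nat_lit 32) .nil)))))))) (.g (nat_lit 1) (.e (nat_lit 301029) (nat_lit 0) .nil) .nil))) 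
(.lf (nat_lit 552808) (.g (nat_lit 4776) (.e (nat_lit 426129) (nat_lit 3) (.e (nat_lit 204869) (nat_lit 29) (.e (nat_lit 360474) (nat_lit 8) (.e (nat_lit 557094) (nat_lit 12) (.e (nat_lit 164022) (nat_lit 46) (.e (nat_lit 704629) (nat_lit 9) (.e (nat_lit 386) (nat_lit 32) .nil))))))) (.g (nat_lit 1) (.e (nat_lit 301915) (nat_lit 0) .nil) .nil))))) (.nd (nat_lit 8) (.nd (nat_lit 9) 
(.lf (nat_lit 552168) (.g (nat_lit 4169) (.e (nat_lit 426125) (nat_lit 2) (.e (nat_lit 196666) (nat_lit 13) (.e (nat_lit 65610) (nat_lit 10) (.e (nat_lit 344129) (nat_lit 26) (.e (nat_lit 557089) (nat_lit 12) (.e (nat_lit 163844) (nat_lit 0) (.e (nat_lit 6418) (nat_lit 341) (.e (nat_lit 163900) (nat_lit 12) .nil)))))))) (.g (nat_lit 1) (.e (nat_lit 300747) (nat_lit 0) .nil) .nil))) 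
(.lf (nat_lit 552680) (.g (nat_lit 921) (.e (nat_lit 426129) (nat_lit 3) (.e (nat_lit 204829) (nat_lit 18) (.e (nat_lit 57688) (nat_lit 156) (.e (nat_lit 171776) (nat_lit 12) .nil)))) (.g (nat_lit 0) (.e (nat_lit 301647) (nat_lit 0) .nil) .nil)))) (.nd (nat_lit 9) 
(.lf (nat_lit 552424) (.g (nat_lit 4474) (.e (nat_lit 426125) (nat_lit 2) (.e (nat_lit 196666) (nat_lit 13) (.e (nat_lit 65617) (nat_lit 10) (.e (nat_lit 344130) (nat_lit 26) (.e (nat_lit 557090) (nat_lit 12) (.e (nat_lit 163848) (nat_lit 0) (.e (nat_lit 6416) (nat_lit 341) (.e (nat_lit 163909) (nat_lit 12) .nil)))))))) (.g (nat_lit 1) (.e (nat_lit 301224) (nat_lit 0) .nil) .nil))) 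
(.lf (nat_lit 552936) (.g (nat_lit 513) (.e (nat_lit 426131) (nat_lit 3) (.e (nat_lit 204846) (nat_lit 24) (.e (nat_lit 319528) (nat_lit 16) .nil))) (.g (nat_lit 0) (.e (nat_lit 302137) (nat_lit 0) .nil) .nil)))))))) (.nd (nat_lit 5) (.nd (nat_lit 6) (.nd (nat_lit 7) (.nd (nat_lit 8) (.nd (nat_lit 9) 
(.lf (nat_lit 551960) (.g (nat_lit 4922) (.e (nat_lit 426123) (nat_lit 2) (.e (nat_lit 196666) (nat_lit 13) (.e (nat_lit 65617) (nat_lit 10) (.e (nat_lit 344130) (nat_lit 26) (.e (nat_lit 557090) (nat_lit 12) (.e (nat_lit 164022) (nat_lit 46) (.e (nat_lit 704628) (nat_lit 9) (.e (nat_lit 391) (nat_lit 32) .nil)))))))) (.g (nat_lit 1) (.e (nat_lit 299102) (nat_lit 0) .nil) .nil))) 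
(.lf (nat_lit 552472) (.g (nat_lit 3209) (.e (nat_lit 426125) (nat_lit 2) (.e (nat_lit 196666) (nat_lit 13) (.e (nat_lit 65617) (nat_lit 10) (.e (nat_lit 344132) (nat_lit 26) (.e (nat_lit 557089) (nat_lit 12) (.e (nat_lit 164017) (nat_lit 44) (.e (nat_lit 688138) (nat_lit 5) (.e (nat_lit 2877) (nat_lit 184) .nil)))))))) (.g (nat_lit 1) (.e (nat_lit 301290) (nat_lit 0) .nil) .nil)))) 
(.nd (nat_lit 9) 
(.lf (nat_lit 552216) (.g (nat_lit 3679) (.e (nat_lit 426125) (nat_lit 2) (.e (nat_lit 196666) (nat_lit 13) (.e (nat_lit 65610) (nat_lit 10) (.e (nat_lit 344129) (nat_lit 26) (.e (nat_lit 557090) (nat_lit 12) (.e (nat_lit 163840) (nat_lit 0) (.e (nat_lit 6425) (nat_lit 342) (.e (nat_lit 229399) (nat_lit 12) .nil)))))))) (.g (nat_lit 1) (.e (nat_lit 300830) (nat_lit 0) .nil) .nil))) 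
(.lf (nat_lit 552728) (.g (nat_lit 3797) (.e (nat_lit 426129) (nat_lit 3) (.e (nat_lit 204846) (nat_lit 24) (.e (nat_lit 319533) (nat_lit 16) (.e (nat_lit 286735) (nat_lit 3) (.e (nat_lit 98363) (nat_lit 26) (.e (nat_lit 426260) (nat_lit 9) .nil)))))) (.g (nat_lit 1) (.e (nat_lit 301749) (nat_lit 0) .nil) .nil))))) (.nd (nat_lit 8) (.nd (nat_lit 9) 
(.lf (nat_lit 552088) (.g (nat_lit 2200) (.e (nat_lit 426124) (nat_lit 2) (.e (nat_lit 196666) (nat_lit 13) (.e (nat_lit 65617) (nat_lit 10) (.e (nat_lit 344133) (nat_lit 26) (.e (nat_lit 557092) (nat_lit 12) .nil))))) (.g (nat_lit 0) (.e (nat_lit 299335) (nat_lit 0) .nil) .nil))) 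
(.lf (nat_lit 552600) (.g (nat_lit 4253) (.e (nat_lit 426125) (nat_lit 2) (.e (nat_lit 196666) (nat_lit 13) (.e (nat_lit 65617) (nat_lit 10) (.e (nat_lit 344133) (nat_lit 26) (.e (nat_lit 557091) (nat_lit 12) (.e (nat_lit 163847) (nat_lit 0) (.e (nat_lit 6421) (nat_lit 341) (.e (nat_lit 163909) (nat_lit 12) .nil)))))))) (.g (nat_lit 1) (.e (nat_lit 301486) (nat_lit 0) .nil) .nil)))) 
(.nd (nat_lit 9) 
(.lf (nat_lit 552344) (.g (nat_lit 4465) (.e (nat_lit 426125) (nat_lit 2) (.e (nat_lit 196666) (nat_lit 13) (.e (nat_lit 65617) (nat_lit 10) (.e (nat_lit 344127) (nat_lit 26) (.e (nat_lit 557090) (nat_lit 12) (.e (nat_lit 163844) (nat_lit 0) (.e (nat_lit 6416) (nat_lit 341) (.e (nat_lit 163900) (nat_lit 12) .nil)))))))) (.g (nat_lit 1) (.e (nat_lit 301093) (nat_lit 0) .nil) .nil))) 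
(.lf (nat_lit 552856) (.g (nat_lit 2466) (.e (nat_lit 426130) (nat_lit 3) (.e (nat_lit 204846) (nat_lit 24) (.e (nat_lit 319534) (nat_lit 16) (.e (nat_lit 286732) (nat_lit 2) (.e (nat_lit 90184) (nat_lit 17) .nil))))) (.g (nat_lit 0) (.e (nat_lit 302012) (nat_lit 0) .nil) .nil)))))) (.nd (nat_lit 7) (.nd (nat_lit 8) (.nd (nat_lit 9) 
(.lf (nat_lit 552024) (.g (nat_lit 3306) (.e (nat_lit 426123) (nat_lit 2) (.e (nat_lit 196666) (nat_lit 13) (.e (nat_lit 65617) (nat_lit 10) (.e (nat_lit 344133) (nat_lit 26) (.e (nat_lit 557089) (nat_lit 12) (.e (nat_lit 163843) (nat_lit 0) (.e (nat_lit 6421) (nat_lit 341) (.e (nat_lit 171776) (nat_lit 12) .nil)))))))) (.g (nat_lit 1) (.e (nat_lit 299201) (nat_lit 0) .nil) .nil))) 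
(.lf (nat_lit 552536) (.g (nat_lit 3478) (.e (nat_lit 426125) (nat_lit 2) (.e (nat_lit 196666) (nat_lit 13) (.e (nat_lit 65617) (nat_lit 10) (.e (nat_lit 344132) (nat_lit 26) (.e (nat_lit 557094) (nat_lit 12) (.e (nat_lit 163849) (nat_lit 0) (.e (nat_lit 6421) (nat_lit 341) (.e (nat_lit 163909) (nat_lit 12) .nil)))))))) (.g (nat_lit 1) (.e (nat_lit 301368) (nat_lit 0) .nil) .nil)))) 
(.nd (nat_lit 9) 
(.lf (nat_lit 552280) (.g (nat_lit 3114) (.e (nat_lit 426125) (nat_lit 2) (.e (nat_lit 196666) (nat_lit 13) (.e (nat_lit 65610) (nat_lit 10) (.e (nat_lit 344129) (nat_lit 26) (.e (nat_lit 557090) (nat_lit 12) (.e (nat_lit 164019) (nat_lit 45) (.e (nat_lit 696326) (nat_lit 5) (.e (nat_lit 2889) (nat_lit 184) .nil)))))))) (.g (nat_lit 1) (.e (nat_lit 300992) (nat_lit 0) .nil) .nil))) 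
(.lf (nat_lit 552792) (.g (nat_lit 5043) (.e (nat_lit 426129) (nat_lit 3) (.e (nat_lit 204869) (nat_lit 29) (.e (nat_lit 360474) (nat_lit 8) (.e (nat_lit 557091) (nat_lit 12) (.e (nat_lit 163847) (nat_lit 0) .nil))))) (.g (nat_lit 0) (.e (nat_lit 301899) (nat_lit 0) .nil) .nil))))) (.nd (nat_lit 8) (.nd (nat_lit 9) 
(.lf (nat_lit 552152) (.g (nat_lit 1975) (.e (nat_lit 426125) (nat_lit 2) (.e (nat_lit 196666) (nat_lit 13) (.e (nat_lit 65610) (nat_lit 10) (.e (nat_lit 344129) (nat_lit 26) (.e (nat_lit 557069) (nat_lit 9) (.e (nat_lit 2612) (nat_lit 163) (.e (nat_lit 164188) (nat_lit 157) (.e (nat_lit 229399) (nat_lit 12) .nil)))))))) (.g (nat_lit 1) (.e (nat_lit 300669) (nat_lit 0) .nil) .nil))) 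
(.lf (nat_lit 552664) (.g (nat_lit 1066) (.e (nat_lit 426126) (nat_lit 2) (.e (nat_lit 196656) (nat_lit 11) (.e (nat_lit 16412) (nat_lit 2) .nil))) (.g (nat_lit 0) (.e (nat_lit 301589) (nat_lit 0) .nil) .nil)))) (.nd (nat_lit 9) 
(.lf (nat_lit 552408) (.g (nat_lit 3439) (.e (nat_lit 426125) (nat_lit 2) (.e (nat_lit 196666) (nat_lit 13) (.e (nat_lit 65617) (nat_lit 10) (.e (nat_lit 344130) (nat_lit 26) (.e (nat_lit 557090) (nat_lit 12) (.e (nat_lit 163843) (nat_lit 0) (.e (nat_lit 6418) (nat_lit 341) (.e (nat_lit 163909) (nat_lit 12) .nil)))))))) (.g (nat_lit 1) (.e (nat_lit 301190) (nat_lit 0) .nil) .nil))) 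
(.lf (nat_lit 552920) (.g (nat_lit 1996) (.e (nat_lit 426131) (nat_lit 3) (.e (nat_lit 204831) (nat_lit 18) (.e (nat_lit 57691) (nat_lit 156) (.e (nat_lit 163907) (nat_lit 12) (.e (nat_lit 426481) (nat_lit 27) .nil))))) (.g (nat_lit 0) (.e (nat_lit 302117) (nat_lit 0) .nil) .nil))))))) (.nd (nat_lit 6) (.nd (nat_lit 7) (.nd (nat_lit 8) (.nd (nat_lit 9) 
(.lf (nat_lit 551992) (.g (nat_lit 4439) (.e (nat_lit 426123) (nat_lit 2) (.e (nat_lit 196666) (nat_lit 13) (.e (nat_lit 65617) (nat_lit 10) (.e (nat_lit 344132) (nat_lit 26) (.e (nat_lit 557093) (nat_lit 12) (.e (nat_lit 164022) (nat_lit 46) (.e (nat_lit 704629) (nat_lit 9) (.e (nat_lit 440) (nat_lit 32) .nil)))))))) (.g (nat_lit 1) (.e (nat_lit 299137) (nat_lit 0) .nil) .nil))) 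
(.lf (nat_lit 552504) (.g (nat_lit 2232) (.e (nat_lit 426125) (nat_lit 2) (.e (nat_lit 196666) (nat_lit 13) (.e (nat_lit 65617) (nat_lit 10) (.e (nat_lit 344132) (nat_lit 26) (.e (nat_lit 557093) (nat_lit 12) (.e (nat_lit 163853) (nat_lit 0) (.e (nat_lit 6426) (nat_lit 342) (.e (nat_lit 229399) (nat_lit 12) .nil)))))))) (.g (nat_lit 1) (.e (nat_lit 301329) (nat_lit 0) .nil) .nil)))) 
(.nd (nat_lit 9) 
(.lf (nat_lit 552248) (.g (nat_lit 3720) (.e (nat_lit 426125) (nat_lit 2) (.e (nat_lit 196666) (nat_lit 13) (.e (nat_lit 65610) (nat_lit 10) (.e (nat_lit 344129) (nat_lit 26) (.e (nat_lit 557090) (nat_lit 12) (.e (nat_lit 163850) (nat_lit 0) (.e (nat_lit 6425) (nat_lit 342) (.e (nat_lit 229403) (nat_lit 12) .nil)))))))) (.g (nat_lit 1) (.e (nat_lit 300952) (nat_lit 0) .nil) .nil))) 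
(.lf (nat_lit 552760) (.g (nat_lit 1678) (.e (nat_lit 426129) (nat_lit 3) (.e (nat_lit 204865) (nat_lit 28) (.e (nat_lit 352262) (nat_lit 0) (.e (nat_lit 3253) (nat_lit 197) (.e (nat_lit 532513) (nat_lit 3) (.e (nat_lit 114696) (nat_lit 11) .nil)))))) (.g (nat_lit 1) (.e (nat_lit 301859) (nat_lit 0) .nil) .nil))))) (.nd (nat_lit 8) (.nd (nat_lit 9) 
(.lf (nat_lit 552120) (.g (nat_lit 3013) (.e (nat_lit 426125) (nat_lit 2) (.e (nat_lit 196661) (nat_lit 12) (.e (nat_lit 57750) (nat_lit 201) (.e (nat_lit 2856) (nat_lit 184) (.e (nat_lit 426364) (nat_lit 15) (.e (nat_lit 1858) (nat_lit 124) (.e (nat_lit 557101) (nat_lit 13) (.e (nat_lit 172097) (nat_lit 9) .nil)))))))) (.g (nat_lit 1) (.e (nat_lit 299582) (nat_lit 0) .nil) .nil))) 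
(.lf (nat_lit 552632) (.g (nat_lit 4965) (.e (nat_lit 426125) (nat_lit 2) (.e (nat_lit 196666) (nat_lit 13) (.e (nat_lit 65617) (nat_lit 10) (.e (nat_lit 344133) (nat_lit 26) (.e (nat_lit 557091) (nat_lit 12) (.e (nat_lit 164022) (nat_lit 46) (.e (nat_lit 704627) (nat_lit 9) (.e (nat_lit 375) (nat_lit 32) .nil)))))))) (.g (nat_lit 1) (.e (nat_lit 301534) (nat_lit 0) .nil) .nil)))) 
(.nd (nat_lit 9) 
(.lf (nat_lit 552376) (.g (nat_lit 3637) (.e (nat_lit 426125) (nat_lit 2) (.e (nat_lit 196666) (nat_lit 13) (.e (nat_lit 65617) (nat_lit 10) (.e (nat_lit 344128) (nat_lit 26) (.e (nat_lit 557090) (nat_lit 12) (.e (nat_lit 164020) (nat_lit 45) (.e (nat_lit 696330) (nat_lit 5) (.e (nat_lit 2878) (nat_lit 184) .nil)))))))) (.g (nat_lit 1) (.e (nat_lit 301128) (nat_lit 0) .nil) .nil))) 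
(.lf (nat_lit 552888) (.g (nat_lit 987) (.e (nat_lit 426131) (nat_lit 3) (.e (nat_lit 204829) (nat_lit 18) (.e (nat_lit 57662) (nat_lit 152) .nil))) (.g (nat_lit 0) (.e (nat_lit 302052) (nat_lit 0) .nil) .nil)))))) (.nd (nat_lit 7) (.nd (nat_lit 8) (.nd (nat_lit 9) 
(.lf (nat_lit 552056) (.g (nat_lit 4616) (.e (nat_lit 426123) (nat_lit 2) (.e (nat_lit 196666) (nat_lit 13) (.e (nat_lit 65617) (nat_lit 10) (.e (nat_lit 344133) (nat_lit 26) (.e (nat_lit 557091) (nat_lit 12) (.e (nat_lit 164022) (nat_lit 46) (.e (nat_lit 704629) (nat_lit 9) (.e (nat_lit 440) (nat_lit 32) .nil)))))))) (.g (nat_lit 1) (.e (nat_lit 299238) (nat_lit 0) .nil) .nil))) 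
(.lf (nat_lit 552568) (.g (nat_lit 4363) (.e (nat_lit 426125) (nat_lit 2) (.e (nat_lit 196666) (nat_lit 13) (.e (nat_lit 65617) (nat_lit 10) (.e (nat_lit 344133) (nat_lit 26) (.e (nat_lit 557089) (nat_lit 12) (.e (nat_lit 164017) (nat_lit 44) (.e (nat_lit 688140) (nat_lit 5) (.e (nat_lit 2883) (nat_lit 184) .nil)))))))) (.g (nat_lit 1) (.e (nat_lit 301418) (nat_lit 0) .nil) .nil)))) 
(.nd (nat_lit 9) 
(.lf (nat_lit 552312) (.g (nat_lit 5960) (.e (nat_lit 426125) (nat_lit 2) (.e (nat_lit 196666) (nat_lit 13) (.e (nat_lit 65610) (nat_lit 10) (.e (nat_lit 344132) (nat_lit 26) (.e (nat_lit 557093) (nat_lit 12) (.e (nat_lit 164022) (nat_lit 46) (.e (nat_lit 704629) (nat_lit 9) (.e (nat_lit 375) (nat_lit 32) .nil)))))))) (.g (nat_lit 1) (.e (nat_lit 301046) (nat_lit 0) .nil) .nil))) 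
(.lf (nat_lit 552824) (.g (nat_lit 2090) (.e (nat_lit 426129) (nat_lit 3) (.e (nat_lit 204869) (nat_lit 29) (.e (nat_lit 360475) (nat_lit 8) (.e (nat_lit 557091) (nat_lit 12) .nil)))) (.g (nat_lit 0) (.e (nat_lit 301934) (nat_lit 0) .nil) .nil))))) (.nd (nat_lit 8) (.nd (nat_lit 9) 
(.lf (nat_lit 552184) (.g (nat_lit 4733) (.e (nat_lit 426125) (nat_lit 2) (.e (nat_lit 196666) (nat_lit 13) (.e (nat_lit 65610) (nat_lit 10) (.e (nat_lit 344129) (nat_lit 26) (.e (nat_lit 557089) (nat_lit 12) (.e (nat_lit 163850) (nat_lit 0) (.e (nat_lit 6425) (nat_lit 342) (.e (nat_lit 229399) (nat_lit 12) .nil)))))))) (.g (nat_lit 1) (.e (nat_lit 300786) (nat_lit 0) .nil) .nil))) 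
(.lf (nat_lit 552696) (.g (nat_lit 2193) (.e (nat_lit 426129) (nat_lit 3) (.e (nat_lit 204837) (nat_lit 20) (.e (nat_lit 114718) (nat_lit 23) (.e (nat_lit 98334) (nat_lit 18) (.e (nat_lit 164399) (nat_lit 256) .nil))))) (.g (nat_lit 0) (.e (nat_lit 301690) (nat_lit 0) .nil) .nil)))) (.nd (nat_lit 9) 
(.lf (nat_lit 552440) (.g (nat_lit 3613) (.e (nat_lit 426125) (nat_lit 2) (.e (nat_lit 196666) (nat_lit 13) (.e (nat_lit 65617) (nat_lit 10) (.e (nat_lit 344130) (nat_lit 26) (.e (nat_lit 557090) (nat_lit 12) (.e (nat_lit 164018) (nat_lit 45) (.e (nat_lit 696329) (nat_lit 5) (.e (nat_lit 2878) (nat_lit 184) .nil)))))))) (.g (nat_lit 1) (.e (nat_lit 301248) (nat_lit 0) .nil) .nil))) 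
(.lf (nat_lit 552952) (.g (nat_lit 2876) (.e (nat_lit 426131) (nat_lit 3) (.e (nat_lit 204846) (nat_lit 24) (.e (nat_lit 319532) (nat_lit 16) (.e (nat_lit 286732) (nat_lit 2) (.e (nat_lit 90184) (nat_lit 17) .nil))))) (.g (nat_lit 0) (.e (nat_lit 302154) (nat_lit 0) .nil) .nil)))))))))) 
(.nd (nat_lit 3) (.nd (nat_lit 4) (.nd (nat_lit 5) (.nd (nat_lit 6) (.nd (nat_lit 7) 
(.nd (nat_lit 8) (.nd (nat_lit 9) 
(.lf (nat_lit 551940) (.g (nat_lit 2062) (.e (nat_lit 426123) (nat_lit 2) (.e (nat_lit 196666) (nat_lit 13) (.e (nat_lit 65617) (nat_lit 10) (.e (nat_lit 344130) (nat_lit 26) (.e (nat_lit 557089) (nat_lit 12) .nil))))) (.g (nat_lit 0) (.e (nat_lit 299078) (nat_lit 0) .nil) .nil))) 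
(.lf (nat_lit 552452) (.g (nat_lit 5040) (.e (nat_lit 426125) (nat_lit 2) (.e (nat_lit 196666) (nat_lit 13) (.e (nat_lit 65617) (nat_lit 10) (.e (nat_lit 344130) (nat_lit 26) (.e (nat_lit 557090) (nat_lit 12) (.e (nat_lit 164022) (nat_lit 46) (.e (nat_lit 704626) (nat_lit 9) (.e (nat_lit 375) (nat_lit 32) .nil)))))))) (.g (nat_lit 1) (.e (nat_lit 301264) (nat_lit 0) .nil) .nil)))) 
(.nd (nat_lit 9) 
(.lf (nat_lit 552196) (.g (nat_lit 3207) (.e (nat_lit 426125) (nat_lit 2) (.e (nat_lit 196666) (nat_lit 13) (.e (nat_lit 65610) (nat_lit 10) (.e (nat_lit 344129) (nat_lit 26) (.e (nat_lit 557089) (nat_lit 12) (.e (nat_lit 164020) (nat_lit 45) (.e (nat_lit 696327) (nat_lit 5) (.e (nat_lit 2879) (nat_lit 184) .nil)))))))) (.g (nat_lit 1) (.e (nat_lit 300802) (nat_lit 0) .nil) .nil))) 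
(.lf (nat_lit 552708) (.g (nat_lit 2967) (.e (nat_lit 426129) (nat_lit 3) (.e (nat_lit 204846) (nat_lit 24) (.e (nat_lit 319530) (nat_lit 16) (.e (nat_lit 286735) (nat_lit 3) (.e (nat_lit 98363) (nat_lit 26) (.e (nat_lit 426262) (nat_lit 9) .nil)))))) (.g (nat_lit 1) (.e (nat_lit 301718) (nat_lit 0) .nil) .nil))))) (.nd (nat_lit 8) (.nd (nat_lit 9) 
(.lf (nat_lit 552068) (.g (nat_lit 2882) (.e (nat_lit 426123) (nat_lit 2) (.e (nat_lit 196666) (nat_lit 13) (.e (nat_lit 65622) (nat_lit 12) (.e (nat_lit 385068) (nat_lit 26) (.e (nat_lit 532515) (nat_lit 3) (.e (nat_lit 122624) (nat_lit 11) .nil)))))) (.g (nat_lit 1) (.e (nat_lit 299254) (nat_lit 0) .nil) .nil))) 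
(.lf (nat_lit 552580) (.g (nat_lit 2021) (.e (nat_lit 426125) (nat_lit 2) (.e (nat_lit 196666) (nat_lit 13) (.e (nat_lit 65617) (nat_lit 10) (.e (nat_lit 344133) (nat_lit 26) (.e (nat_lit 557091) (nat_lit 12) .nil))))) (.g (nat_lit 0) (.e (nat_lit 301433) (nat_lit 0) .nil) .nil)))) (.nd (nat_lit 9) 
(.lf (nat_lit 552324) (.g (nat_lit 3012) (.e (nat_lit 426125) (nat_lit 2) (.e (nat_lit 196666) (nat_lit 13) (.e (nat_lit 65617) (nat_lit 10) (.e (nat_lit 344127) (nat_lit 26) (.e (nat_lit 557088) (nat_lit 12) (.e (nat_lit 164018) (nat_lit 45) (.e (nat_lit 696327) (nat_lit 5) (.e (nat_lit 2884) (nat_lit 184) .nil)))))))) (.g (nat_lit 1) (.e (nat_lit 301060) (nat_lit 0) .nil) .nil))) 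
(.lf (nat_lit 552836) (.g (nat_lit 1728) (.e (nat_lit 426129) (nat_lit 3) (.e (nat_lit 204876) (nat_lit 31) (.e (nat_lit 376835) (nat_lit 0) (.e (nat_lit 3253) (nat_lit 197) (.e (nat_lit 532513) (nat_lit 3) (.e (nat_lit 122624) (nat_lit 11) .nil)))))) (.g (nat_lit 1) (.e (nat_lit 301948) (nat_lit 0) .nil) .nil)))))) (.nd (nat_lit 7) (.nd (nat_lit 8) (.nd (nat_lit 9) 
(.lf (nat_lit 552004) (.g (nat_lit 4320) (.e (nat_lit 426123) (nat_lit 2) (.e (nat_lit 196666) (nat_lit 13) (.e (nat_lit 65617) (nat_lit 10) (.e (nat_lit 344132) (nat_lit 26) (.e (nat_lit 557093) (nat_lit 12) (.e (nat_lit 164023) (nat_lit 46) (.e (nat_lit 704633) (nat_lit 9) (.e (nat_lit 396) (nat_lit 32) .nil)))))))) (.g (nat_lit 1) (.e (nat_lit 299158) (nat_lit 0) .nil) .nil))) 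
(.lf (nat_lit 552516) (.g (nat_lit 4308) (.e (nat_lit 426125) (nat_lit 2) (.e (nat_lit 196666) (nat_lit 13) (.e (nat_lit 65617) (nat_lit 10) (.e (nat_lit 344132) (nat_lit 26) (.e (nat_lit 557093) (nat_lit 12) (.e (nat_lit 164022) (nat_lit 46) (.e (nat_lit 704628) (nat_lit 9) (.e (nat_lit 414) (nat_lit 32) .nil)))))))) (.g (nat_lit 1) (.e (nat_lit 301345) (nat_lit 0) .nil) .nil)))) 
(.nd (nat_lit 9) 
(.lf (nat_lit 552260) (.g (nat_lit 2470) (.e (nat_lit 426125) (nat_lit 2) (.e (nat_lit 196666) (nat_lit 13) (.e (nat_lit 65610) (nat_lit 10) (.e (nat_lit 344129) (nat_lit 26) (.e (nat_lit 557090) (nat_lit 12) (.e (nat_lit 164017) (nat_lit 44) (.e (nat_lit 696064) (nat_lit 5) (.e (nat_lit 2877) (nat_lit 184) .nil)))))))) (.g (nat_lit 1) (.e (nat_lit 300972) (nat_lit 0) .nil) .nil))) 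
(.lf (nat_lit 552772) (.g (nat_lit 3778) (.e (nat_lit 426129) (nat_lit 3) (.e (nat_lit 204868) (nat_lit 29) (.e (nat_lit 360475) (nat_lit 8) (.e (nat_lit 557089) (nat_lit 12) (.e (nat_lit 163843) (nat_lit 0) .nil))))) (.g (nat_lit 0) (.e (nat_lit 301878) (nat_lit 0) .nil) .nil))))) (.nd (nat_lit 8) (.nd (nat_lit 9) 
(.lf (nat_lit 552132) (.g (nat_lit 2362) (.e (nat_lit 426125) (nat_lit 2) (.e (nat_lit 196666) (nat_lit 13) (.e (nat_lit 65610) (nat_lit 10) (.e (nat_lit 344117) (nat_lit 21) (.e (nat_lit 516115) (nat_lit 1) .nil))))) (.g (nat_lit 0) (.e (nat_lit 300356) (nat_lit 0) .nil) .nil))) 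
(.lf (nat_lit 552644) (.g (nat_lit 3411) (.e (nat_lit 426125) (nat_lit 2) (.e (nat_lit 196666) (nat_lit 13) (.e (nat_lit 65617) (nat_lit 10) (.e (nat_lit 344133) (nat_lit 26) (.e (nat_lit 557093) (nat_lit 12) (.e (nat_lit 164022) (nat_lit 46) (.e (nat_lit 704629) (nat_lit 9) (.e (nat_lit 375) (nat_lit 32) .nil)))))))) (.g (nat_lit 1) (.e (nat_lit 301549) (nat_lit 0) .nil) .nil)))) 
(.nd (nat_lit 9) 
(.lf (nat_lit 552388) (.g (nat_lit 2413) (.e (nat_lit 426125) (nat_lit 2) (.e (nat_lit 196666) (nat_lit 13) (.e (nat_lit 65617) (nat_lit 10) (.e (nat_lit 344130) (nat_lit 26) (.e (nat_lit 557089) (nat_lit 12) (.e (nat_lit 163846) (nat_lit 0) (.e (nat_lit 6424) (nat_lit 342) (.e (nat_lit 229399) (nat_lit 12) .nil)))))))) (.g (nat_lit 1) (.e (nat_lit 301148) (nat_lit 0) .nil) .nil))) 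
(.lf (nat_lit 552900) (.g (nat_lit 2144) (.e (nat_lit 426131) (nat_lit 3) (.e (nat_lit 204829) (nat_lit 18) (.e (nat_lit 57692) (nat_lit 156) (.e (nat_lit 163905) (nat_lit 12) (.e (nat_lit 426507) (nat_lit 27) .nil))))) (.g (nat_lit 0) (.e (nat_lit 302075) (nat_lit 0) .nil) .nil))))))) (.nd (nat_lit 6) (.nd (nat_lit 7) (.nd (nat_lit 8) (.nd (nat_lit 9) 
(.lf (nat_lit 551972) (.g (nat_lit 1457) (.e (nat_lit 426123) (nat_lit 2) (.e (nat_lit 196666) (nat_lit 13) (.e (nat_lit 65617) (nat_lit 10) (.e (nat_lit 344132) (nat_lit 26) .nil)))) (.g (nat_lit 0) (.e (nat_lit 299116) (nat_lit 0) .nil) .nil))) 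
(.lf (nat_lit 552484) (.g (nat_lit 2223) (.e (nat_lit 426125) (nat_lit 2) (.e (nat_lit 196666) (nat_lit 13) (.e (nat_lit 65617) (nat_lit 10) (.e (nat_lit 344132) (nat_lit 26) (.e (nat_lit 557091) (nat_lit 12) .nil))))) (.g (nat_lit 0) (.e (nat_lit 301302) (nat_lit 0) .nil) .nil)))) (.nd (nat_lit 9) 
(.lf (nat_lit 552228) (.g (nat_lit 3809) (.e (nat_lit 426125) (nat_lit 2) (.e (nat_lit 196666) (nat_lit 13) (.e (nat_lit 65610) (nat_lit 10) (.e (nat_lit 344129) (nat_lit 26) (.e (nat_lit 557090) (nat_lit 12) (.e (nat_lit 163844) (nat_lit 0) (.e (nat_lit 6418) (nat_lit 341) (.e (nat_lit 163900) (nat_lit 12) .nil)))))))) (.g (nat_lit 1) (.e (nat_lit 300894) (nat_lit 0) .nil) .nil))) 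
(.lf (nat_lit 552740) (.g (nat_lit 2217) (.e (nat_lit 426129) (nat_lit 3) (.e (nat_lit 204846) (nat_lit 24) (.e (nat_lit 319534) (nat_lit 16) (.e (nat_lit 286735) (nat_lit 3) (.e (nat_lit 98363) (nat_lit 26) .nil))))) (.g (nat_lit 0) (.e (nat_lit 301771) (nat_lit 0) .nil) .nil))))) (.nd (nat_lit 8) (.nd (nat_lit 9) 
(.lf (nat_lit 552100) (.g (nat_lit 451) (.e (nat_lit 426124) (nat_lit 2) (.e (nat_lit 196681) (nat_lit 17) (.e (nat_lit 131105) (nat_lit 9) .nil))) (.g (nat_lit 0) (.e (nat_lit 299464) (nat_lit 0) .nil) .nil))) 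
(.lf (nat_lit 552612) (.g (nat_lit 4091) (.e (nat_lit 426125) (nat_lit 2) (.e (nat_lit 196666) (nat_lit 13) (.e (nat_lit 65617) (nat_lit 10) (.e (nat_lit 344133) (nat_lit 26) (.e (nat_lit 557091) (nat_lit 12) (.e (nat_lit 164017) (nat_lit 44) (.e (nat_lit 688139) (nat_lit 5) (.e (nat_lit 2883) (nat_lit 184) .nil)))))))) (.g (nat_lit 1) (.e (nat_lit 301504) (nat_lit 0) .nil) .nil)))) 
(.nd (nat_lit 9) 
(.lf (nat_lit 552356) (.g (nat_lit 3454) (.e (nat_lit 426125) (nat_lit 2) (.e (nat_lit 196666) (nat_lit 13) (.e (nat_lit 65617) (nat_lit 10) (.e (nat_lit 344127) (nat_lit 26) (.e (nat_lit 557090) (nat_lit 12) (.e (nat_lit 164016) (nat_lit 44) (.e (nat_lit 688141) (nat_lit 5) (.e (nat_lit 2877) (nat_lit 184) .nil)))))))) (.g (nat_lit 1) (.e (nat_lit 301105) (nat_lit 0) .nil) .nil))) 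
(.lf (nat_lit 552868) (.g (nat_lit 4365) (.e (nat_lit 426130) (nat_lit 3) (.e (nat_lit 204869) (nat_lit 29) (.e (nat_lit 360475) (nat_lit 8) (.e (nat_lit 557089) (nat_lit 12) (.e (nat_lit 163843) (nat_lit 0) .nil))))) (.g (nat_lit 0) (.e (nat_lit 302025) (nat_lit 0) .nil) .nil)))))) (.nd (nat_lit 7) (.nd (nat_lit 8) (.nd (nat_lit 9) 
(.lf (nat_lit 552036) (.g (nat_lit 3574) (.e (nat_lit 426123) (nat_lit 2) (.e (nat_lit 196666) (nat_lit 13) (.e (nat_lit 65617) (nat_lit 10) (.e (nat_lit 344133) (nat_lit 26) (.e (nat_lit 557091) (nat_lit 12) (.e (nat_lit 164022) (nat_lit 46) (.e (nat_lit 704626) (nat_lit 9) (.e (nat_lit 399) (nat_lit 32) .nil)))))))) (.g (nat_lit 1) (.e (nat_lit 299218) (nat_lit 0) .nil) .nil))) 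
(.lf (nat_lit 552548) (.g (nat_lit 3154) (.e (nat_lit 426125) (nat_lit 2) (.e (nat_lit 196666) (nat_lit 13) (.e (nat_lit 65617) (nat_lit 10) (.e (nat_lit 344132) (nat_lit 26) (.e (nat_lit 557094) (nat_lit 12) (.e (nat_lit 171776) (nat_lit 49) (.e (nat_lit 729095) (nat_lit 11) .nil))))))) (.g (nat_lit 1) (.e (nat_lit 301385) (nat_lit 0) .nil) .nil)))) (.nd (nat_lit 9) 
(.lf (nat_lit 552292) (.g (nat_lit 2923) (.e (nat_lit 426125) (nat_lit 2) (.e (nat_lit 196666) (nat_lit 13) (.e (nat_lit 65610) (nat_lit 10) (.e (nat_lit 344129) (nat_lit 26) (.e (nat_lit 557090) (nat_lit 12) (.e (nat_lit 164022) (nat_lit 46) (.e (nat_lit 704629) (nat_lit 9) (.e (nat_lit 411) (nat_lit 32) .nil)))))))) (.g (nat_lit 1) (.e (nat_lit 301011) (nat_lit 0) .nil) .nil))) 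
(.lf (nat_lit 552804) (.g (nat_lit 2071) (.e (nat_lit 426129) (nat_lit 3) (.e (nat_lit 204869) (nat_lit 29) (.e (nat_lit 360474) (nat_lit 8) (.e (nat_lit 557094) (nat_lit 12) .nil)))) (.g (nat_lit 0) (.e (nat_lit 301911) (nat_lit 0) .nil) .nil))))) (.nd (nat_lit 8) (.nd (nat_lit 9) 
(.lf (nat_lit 552164) (.g (nat_lit 2316) (.e (nat_lit 426125) (nat_lit 2) (.e (nat_lit 196666) (nat_lit 13) (.e (nat_lit 65610) (nat_lit 10) (.e (nat_lit 344129) (nat_lit 26) (.e (nat_lit 557089) (nat_lit 12) (.e (nat_lit 163843) (nat_lit 0) (.e (nat_lit 6420) (nat_lit 341) (.e (nat_lit 163909) (nat_lit 12) .nil)))))))) (.g (nat_lit 1) (.e (nat_lit 300723) (nat_lit 0) .nil) .nil))) 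
(.lf (nat_lit 552676) (.g (nat_lit 602) (.e (nat_lit 426129) (nat_lit 3) (.e (nat_lit 204829) (nat_lit 18) (.e (nat_lit 57687) (nat_lit 156) .nil))) (.g (nat_lit 0) (.e (nat_lit 301642) (nat_lit 0) .nil) .nil)))) (.nd (nat_lit 9) 
(.lf (nat_lit 552420) (.g (nat_lit 3299) (.e (nat_lit 426125) (nat_lit 2) (.e (nat_lit 196666) (nat_lit 13) (.e (nat_lit 65617) (nat_lit 10) (.e (nat_lit 344130) (nat_lit 26) (.e (nat_lit 557090) (nat_lit 12) (.e (nat_lit 163847) (nat_lit 0) (.e (nat_lit 6418) (nat_lit 341) (.e (nat_lit 163909) (nat_lit 12) .nil)))))))) (.g (nat_lit 1) (.e (nat_lit 301220) (nat_lit 0) .nil) .nil))) 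
(.lf (nat_lit 552932) (.g (nat_lit 1953) (.e (nat_lit 426131) (nat_lit 3) (.e (nat_lit 204845) (nat_lit 24) (.e (nat_lit 319530) (nat_lit 16) (.e (nat_lit 286735) (nat_lit 3) (.e (nat_lit 98365) (nat_lit 26) .nil))))) (.g (nat_lit 0) (.e (nat_lit 302133) (nat_lit 0) .nil) .nil)))))))) (.nd (nat_lit 5) (.nd (nat_lit 6) (.nd (nat_lit 7) (.nd (nat_lit 8) (.nd (nat_lit 9) 
(.lf (nat_lit 551956) (.g (nat_lit 4118) (.e (nat_lit 426123) (nat_lit 2) (.e (nat_lit 196666) (nat_lit 13) (.e (nat_lit 65617) (nat_lit 10) (.e (nat_lit 344130) (nat_lit 26) (.e (nat_lit 557090) (nat_lit 12) (.e (nat_lit 164022) (nat_lit 46) (.e (nat_lit 704627) (nat_lit 9) (.e (nat_lit 391) (nat_lit 32) .nil)))))))) (.g (nat_lit 1) (.e (nat_lit 299098) (nat_lit 0) .nil) .nil))) 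
(.lf (nat_lit 552468) (.g (nat_lit 2446) (.e (nat_lit 426125) (nat_lit 2) (.e (nat_lit 196666) (nat_lit 13) (.e (nat_lit 65617) (nat_lit 10) (.e (nat_lit 344132) (nat_lit 26) (.e (nat_lit 557088) (nat_lit 12) .nil))))) (.g (nat_lit 0) (.e (nat_lit 301285) (nat_lit 0) .nil) .nil)))) (.nd (nat_lit 9) 
(.lf (nat_lit 552212) (.g (nat_lit 2348) (.e (nat_lit 426125) (nat_lit 2) (.e (nat_lit 196666) (nat_lit 13) (.e (nat_lit 65610) (nat_lit 10) (.e (nat_lit 344129) (nat_lit 26) (.e (nat_lit 557089) (nat_lit 12) (.e (nat_lit 171776) (nat_lit 49) (.e (nat_lit 729095) (nat_lit 11) .nil))))))) (.g (nat_lit 1) (.e (nat_lit 300820) (nat_lit 0) .nil) .nil))) 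
(.lf (nat_lit 552724) (.g (nat_lit 2417) (.e (nat_lit 426129) (nat_lit 3) (.e (nat_lit 204846) (nat_lit 24) (.e (nat_lit 319533) (nat_lit 16) (.e (nat_lit 286734) (nat_lit 3) (.e (nat_lit 106240) (nat_lit 26) (.e (nat_lit 426259) (nat_lit 9) .nil)))))) (.g (nat_lit 1) (.e (nat_lit 301745) (nat_lit 0) .nil) .nil))))) (.nd (nat_lit 8) (.nd (nat_lit 9) 
(.lf (nat_lit 552084) (.g (nat_lit 3557) (.e (nat_lit 426124) (nat_lit 2) (.e (nat_lit 196656) (nat_lit 11) (.e (nat_lit 16412) (nat_lit 2) (.e (nat_lit 196653) (nat_lit 11) (.e (nat_lit 16415) (nat_lit 3) (.e (nat_lit 204809) (nat_lit 9) .nil)))))) (.g (nat_lit 1) (.e (nat_lit 299326) (nat_lit 0) .nil) .nil))) 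
(.lf (nat_lit 552596) (.g (nat_lit 4353) (.e (nat_lit 426125) (nat_lit 2) (.e (nat_lit 196666) (nat_lit 13) (.e (nat_lit 65617) (nat_lit 10) (.e (nat_lit 344133) (nat_lit 26) (.e (nat_lit 557091) (nat_lit 12) (.e (nat_lit 163844) (nat_lit 0) (.e (nat_lit 6420) (nat_lit 341) (.e (nat_lit 163909) (nat_lit 12) .nil)))))))) (.g (nat_lit 1) (.e (nat_lit 301473) (nat_lit 0) .nil) .nil)))) 
(.nd (nat_lit 9) 
(.lf (nat_lit 552340) (.g (nat_lit 3998) (.e (nat_lit 426125) (nat_lit 2) (.e (nat_lit 196666) (nat_lit 13) (.e (nat_lit 65617) (nat_lit 10) (.e (nat_lit 344127) (nat_lit 26) (.e (nat_lit 557090) (nat_lit 12) (.e (nat_lit 163843) (nat_lit 0) (.e (nat_lit 6418) (nat_lit 341) (.e (nat_lit 163900) (nat_lit 12) .nil)))))))) (.g (nat_lit 1) (.e (nat_lit 301083) (nat_lit 0) .nil) .nil))) 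
(.lf (nat_lit 552852) (.g (nat_lit 2615) (.e (nat_lit 426130) (nat_lit 3) (.e (nat_lit 204846) (nat_lit 24) (.e (nat_lit 319531) (nat_lit 16) (.e (nat_lit 286735) (nat_lit 3) (.e (nat_lit 98365) (nat_lit 26) .nil))))) (.g (nat_lit 0) (.e (nat_lit 302007) (nat_lit 0) .nil) .nil)))))) (.nd (nat_lit 7) (.nd (nat_lit 8) (.nd (nat_lit 9) 
(.lf (nat_lit 552020) (.g (nat_lit 3535) (.e (nat_lit 426123) (nat_lit 2) (.e (nat_lit 196666) (nat_lit 13) (.e (nat_lit 65617) (nat_lit 10) (.e (nat_lit 344132) (nat_lit 26) (.e (nat_lit 557094) (nat_lit 12) (.e (nat_lit 164022) (nat_lit 46) (.e (nat_lit 704629) (nat_lit 9) (.e (nat_lit 398) (nat_lit 32) .nil)))))))) (.g (nat_lit 1) (.e (nat_lit 299196) (nat_lit 0) .nil) .nil))) 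
(.lf (nat_lit 552532) (.g (nat_lit 4543) (.e (nat_lit 426125) (nat_lit 2) (.e (nat_lit 196666) (nat_lit 13) (.e (nat_lit 65617) (nat_lit 10) (.e (nat_lit 344132) (nat_lit 26) (.e (nat_lit 557094) (nat_lit 12) (.e (nat_lit 163848) (nat_lit 0) (.e (nat_lit 6416) (nat_lit 341) (.e (nat_lit 163909) (nat_lit 12) .nil)))))))) (.g (nat_lit 1) (.e (nat_lit 301363) (nat_lit 0) .nil) .nil)))) 
(.nd (nat_lit 9) 
(.lf (nat_lit 552276) (.g (nat_lit 3363) (.e (nat_lit 426125) (nat_lit 2) (.e (nat_lit 196666) (nat_lit 13) (.e (nat_lit 65610) (nat_lit 10) (.e (nat_lit 344129) (nat_lit 26) (.e (nat_lit 557090) (nat_lit 12) (.e (nat_lit 164019) (nat_lit 45) (.e (nat_lit 696326) (nat_lit 5) (.e (nat_lit 2881) (nat_lit 184) .nil)))))))) (.g (nat_lit 1) (.e (nat_lit 300988) (nat_lit 0) .nil) .nil))) 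
(.lf (nat_lit 552788) (.g (nat_lit 3927) (.e (nat_lit 426129) (nat_lit 3) (.e (nat_lit 204869) (nat_lit 29) (.e (nat_lit 360474) (nat_lit 8) (.e (nat_lit 557091) (nat_lit 12) .nil)))) (.g (nat_lit 0) (.e (nat_lit 301895) (nat_lit 0) .nil) .nil))))) (.nd (nat_lit 8) (.nd (nat_lit 9) 
(.lf (nat_lit 552148) (.g (nat_lit 4278) (.e (nat_lit 426125) (nat_lit 2) (.e (nat_lit 196666) (nat_lit 13) (.e (nat_lit 65610) (nat_lit 10) (.e (nat_lit 344128) (nat_lit 26) (.e (nat_lit 557093) (nat_lit 12) (.e (nat_lit 164023) (nat_lit 46) (.e (nat_lit 704628) (nat_lit 9) (.e (nat_lit 375) (nat_lit 32) .nil)))))))) (.g (nat_lit 1) (.e (nat_lit 300645) (nat_lit 0) .nil) .nil))) 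
(.lf (nat_lit 552660) (.g (nat_lit 3531) (.e (nat_lit 426125) (nat_lit 2) (.e (nat_lit 196666) (nat_lit 13) (.e (nat_lit 65624) (nat_lit 12) (.e (nat_lit 385068) (nat_lit 26) (.e (nat_lit 532515) (nat_lit 3) (.e (nat_lit 122624) (nat_lit 11) .nil)))))) (.g (nat_lit 1) (.e (nat_lit 301575) (nat_lit 0) .nil) .nil)))) (.nd (nat_lit 9) 
(.lf (nat_lit 552404) (.g (nat_lit 3417) (.e (nat_lit 426125) (nat_lit 2) (.e (nat_lit 196666) (nat_lit 13) (.e (nat_lit 65617) (nat_lit 10) (.e (nat_lit 344130) (nat_lit 26) (.e (nat_lit 557090) (nat_lit 12) (.e (nat_lit 163840) (nat_lit 0) (.e (nat_lit 6425) (nat_lit 342) (.e (nat_lit 229399) (nat_lit 12) .nil)))))))) (.g (nat_lit 1) (.e (nat_lit 301170) (nat_lit 0) .nil) .nil))) 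
(.lf (nat_lit 552916) (.g (nat_lit 1454) (.e (nat_lit 426131) (nat_lit 3) (.e (nat_lit 204831) (nat_lit 18) (.e (nat_lit 57667) (nat_lit 152) (.e (nat_lit 2619) (nat_lit 164) (.e (nat_lit 179968) (nat_lit 34) .nil))))) (.g (nat_lit 0) (.e (nat_lit 302108) (nat_lit 0) .nil) .nil))))))) (.nd (nat_lit 6) (.nd (nat_lit 7) (.nd (nat_lit 8) (.nd (nat_lit 9) 
(.lf (nat_lit 551988) (.g (nat_lit 4938) (.e (nat_lit 426123) (nat_lit 2) (.e (nat_lit 196666) (nat_lit 13) (.e (nat_lit 65617) (nat_lit 10) (.e (nat_lit 344132) (nat_lit 26) (.e (nat_lit 557093) (nat_lit 12) (.e (nat_lit 164022) (nat_lit 46) (.e (nat_lit 704628) (nat_lit 9) (.e (nat_lit 416) (nat_lit 32) .nil)))))))) (.g (nat_lit 1) (.e (nat_lit 299133) (nat_lit 0) .nil) .nil))) 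
(.lf (nat_lit 552500) (.g (nat_lit 3378) (.e (nat_lit 426125) (nat_lit 2) (.e (nat_lit 196666) (nat_lit 13) (.e (nat_lit 65617) (nat_lit 10) (.e (nat_lit 344132) (nat_lit 26) (.e (nat_lit 557093) (nat_lit 12) (.e (nat_lit 163847) (nat_lit 0) (.e (nat_lit 6421) (nat_lit 341) (.e (nat_lit 163900) (nat_lit 12) .nil)))))))) (.g (nat_lit 1) (.e (nat_lit 301319) (nat_lit 0) .nil) .nil)))) 
(.nd (nat_lit 9) 
(.lf (nat_lit 552244) (.g (nat_lit 2523) (.e (nat_lit 426125) (nat_lit 2) (.e (nat_lit 196666) (nat_lit 13) (.e (nat_lit 65610) (nat_lit 10) (.e (nat_lit 344129) (nat_lit 26) (.e (nat_lit 557090) (nat_lit 12) (.e (nat_lit 163849) (nat_lit 0) (.e (nat_lit 6420) (nat_lit 341) (.e (nat_lit 163909) (nat_lit 12) .nil)))))))) (.g (nat_lit 1) (.e (nat_lit 300942) (nat_lit 0) .nil) .nil))) 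
(.lf (nat_lit 552756) (.g (nat_lit 2268) (.e (nat_lit 426129) (nat_lit 3) (.e (nat_lit 204861) (nat_lit 26) (.e (nat_lit 336076) (nat_lit 9) (.e (nat_lit 336324) (nat_lit 18) (.e (nat_lit 204838) (nat_lit 20) (.e (nat_lit 114696) (nat_lit 11) .nil)))))) (.g (nat_lit 1) (.e (nat_lit 301852) (nat_lit 0) .nil) .nil))))) (.nd (nat_lit 8) (.nd (nat_lit 9) 
(.lf (nat_lit 552116) (.g (nat_lit 1629) (.e (nat_lit 426125) (nat_lit 2) (.e (nat_lit 196656) (nat_lit 11) (.e (nat_lit 16412) (nat_lit 2) (.e (nat_lit 196653) (nat_lit 11) .nil)))) (.g (nat_lit 0) (.e (nat_lit 299577) (nat_lit 0) .nil) .nil))) 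
(.lf (nat_lit 552628) (.g (nat_lit 3606) (.e (nat_lit 426125) (nat_lit 2) (.e (nat_lit 196666) (nat_lit 13) (.e (nat_lit 65617) (nat_lit 10) (.e (nat_lit 344133) (nat_lit 26) (.e (nat_lit 557091) (nat_lit 12) (.e (nat_lit 164022) (nat_lit 46) (.e (nat_lit 704626) (nat_lit 9) (.e (nat_lit 377) (nat_lit 32) .nil)))))))) (.g (nat_lit 1) (.e (nat_lit 301530) (nat_lit 0) .nil) .nil)))) 
(.nd (nat_lit 9) 
(.lf (nat_lit 552372) (.g (nat_lit 5210) (.e (nat_lit 426125) (nat_lit 2) (.e (nat_lit 196666) (nat_lit 13) (.e (nat_lit 65617) (nat_lit 10) (.e (nat_lit 344127) (nat_lit 26) (.e (nat_lit 557090) (nat_lit 12) (.e (nat_lit 164020) (nat_lit 45) (.e (nat_lit 696330) (nat_lit 5) (.e (nat_lit 2884) (nat_lit 184) .nil)))))))) (.g (nat_lit 1) (.e (nat_lit 301124) (nat_lit 0) .nil) .nil))) 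
(.lf (nat_lit 552884) (.g (nat_lit 981) (.e (nat_lit 426131) (nat_lit 3) (.e (nat_lit 204829) (nat_lit 18) (.e (nat_lit 57658) (nat_lit 152) .nil))) (.g (nat_lit 0) (.e (nat_lit 302048) (nat_lit 0) .nil) .nil)))))) (.nd (nat_lit 7) (.nd (nat_lit 8) (.nd (nat_lit 9) 
(.lf (nat_lit 552052) (.g (nat_lit 5110) (.e (nat_lit 426123) (nat_lit 2) (.e (nat_lit 196666) (nat_lit 13) (.e (nat_lit 65617) (nat_lit 10) (.e (nat_lit 344133) (nat_lit 26) (.e (nat_lit 557091) (nat_lit 12) (.e (nat_lit 164022) (nat_lit 46) (.e (nat_lit 704628) (nat_lit 9) (.e (nat_lit 435) (nat_lit 32) .nil)))))))) (.g (nat_lit 1) (.e (nat_lit 299234) (nat_lit 0) .nil) .nil))) 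
(.lf (nat_lit 552564) (.g (nat_lit 5387) (.e (nat_lit 426125) (nat_lit 2) (.e (nat_lit 196666) (nat_lit 13) (.e (nat_lit 65617) (nat_lit 10) (.e (nat_lit 344133) (nat_lit 26) (.e (nat_lit 557089) (nat_lit 12) (.e (nat_lit 163850) (nat_lit 0) (.e (nat_lit 6425) (nat_lit 342) (.e (nat_lit 229399) (nat_lit 12) .nil)))))))) (.g (nat_lit 1) (.e (nat_lit 301414) (nat_lit 0) .nil) .nil)))) 
(.nd (nat_lit 9) 
(.lf (nat_lit 552308) (.g (nat_lit 5095) (.e (nat_lit 426125) (nat_lit 2) (.e (nat_lit 196666) (nat_lit 13) (.e (nat_lit 65610) (nat_lit 10) (.e (nat_lit 344131) (nat_lit 26) (.e (nat_lit 557093) (nat_lit 12) (.e (nat_lit 164022) (nat_lit 46) (.e (nat_lit 704629) (nat_lit 9) (.e (nat_lit 375) (nat_lit 32) .nil)))))))) (.g (nat_lit 1) (.e (nat_lit 301042) (nat_lit 0) .nil) .nil))) 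
(.lf (nat_lit 552820) (.g (nat_lit 3829) (.e (nat_lit 426129) (nat_lit 3) (.e (nat_lit 204869) (nat_lit 29) (.e (nat_lit 360475) (nat_lit 8) (.e (nat_lit 557089) (nat_lit 12) (.e (nat_lit 171776) (nat_lit 48) (.e (nat_lit 720907) (nat_lit 11) .nil)))))) (.g (nat_lit 1) (.e (nat_lit 301930) (nat_lit 0) .nil) .nil))))) (.nd (nat_lit 8) (.nd (nat_lit 9) 
(.lf (nat_lit 552180) (.g (nat_lit 3345) (.e (nat_lit 426125) (nat_lit 2) (.e (nat_lit 196666) (nat_lit 13) (.e (nat_lit 65610) (nat_lit 10) (.e (nat_lit 344129) (nat_lit 26) (.e (nat_lit 557089) (nat_lit 12) (.e (nat_lit 163849) (nat_lit 0) (.e (nat_lit 6420) (nat_lit 341) (.e (nat_lit 163909) (nat_lit 12) .nil)))))))) (.g (nat_lit 1) (.e (nat_lit 300782) (nat_lit 0) .nil) .nil))) 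
(.lf (nat_lit 552692) (.g (nat_lit 2149) (.e (nat_lit 426129) (nat_lit 3) (.e (nat_lit 204831) (nat_lit 18) (.e (nat_lit 57692) (nat_lit 156) (.e (nat_lit 163907) (nat_lit 12) (.e (nat_lit 426568) (nat_lit 34) (.e (nat_lit 393279) (nat_lit 23) .nil)))))) (.g (nat_lit 1) (.e (nat_lit 301684) (nat_lit 0) .nil) .nil)))) (.nd (nat_lit 9) 
(.lf (nat_lit 552436) (.g (nat_lit 4539) (.e (nat_lit 426125) (nat_lit 2) (.e (nat_lit 196666) (nat_lit 13) (.e (nat_lit 65617) (nat_lit 10) (.e (nat_lit 344130) (nat_lit 26) (.e (nat_lit 557090) (nat_lit 12) (.e (nat_lit 164017) (nat_lit 44) (.e (nat_lit 688138) (nat_lit 5) (.e (nat_lit 2883) (nat_lit 184) .nil)))))))) (.g (nat_lit 1) (.e (nat_lit 301241) (nat_lit 0) .nil) .nil))) 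
(.lf (nat_lit 552948) (.g (nat_lit 2640) (.e (nat_lit 426131) (nat_lit 3) (.e (nat_lit 204846) (nat_lit 24) (.e (nat_lit 319531) (nat_lit 16) (.e (nat_lit 286735) (nat_lit 3) (.e (nat_lit 98364) (nat_lit 26) .nil))))) (.g (nat_lit 0) (.e (nat_lit 302150) (nat_lit 0) .nil) .nil))))))))) (.nd (nat_lit 4) (.nd (nat_lit 5) (.nd (nat_lit 6) (.nd (nat_lit 7) (.nd (nat_lit 8) (.nd (nat_lit 9) 
(.lf (nat_lit 551948) (.g (nat_lit 3785) (.e (nat_lit 426123) (nat_lit 2) (.e (nat_lit 196666) (nat_lit 13) (.e (nat_lit 65617) (nat_lit 10) (.e (nat_lit 344130) (nat_lit 26) (.e (nat_lit 557090) (nat_lit 12) (.e (nat_lit 163844) (nat_lit 0) (.e (nat_lit 6421) (nat_lit 341) (.e (nat_lit 171776) (nat_lit 12) .nil)))))))) (.g (nat_lit 1) (.e (nat_lit 299086) (nat_lit 0) .nil) .nil))) 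
(.lf (nat_lit 552460) (.g (nat_lit 5344) (.e (nat_lit 426125) (nat_lit 2) (.e (nat_lit 196666) (nat_lit 13) (.e (nat_lit 65617) (nat_lit 10) (.e (nat_lit 344130) (nat_lit 26) (.e (nat_lit 557090) (nat_lit 12) (.e (nat_lit 164022) (nat_lit 46) (.e (nat_lit 704629) (nat_lit 9) (.e (nat_lit 370) (nat_lit 32) .nil)))))))) (.g (nat_lit 1) (.e (nat_lit 301272) (nat_lit 0) .nil) .nil)))) 
(.nd (nat_lit 9) 
(.lf (nat_lit 552204) (.g (nat_lit 3905) (.e (nat_lit 426125) (nat_lit 2) (.e (nat_lit 196666) (nat_lit 13) (.e (nat_lit 65610) (nat_lit 10) (.e (nat_lit 344129) (nat_lit 26) (.e (nat_lit 557089) (nat_lit 12) (.e (nat_lit 164020) (nat_lit 45) (.e (nat_lit 696330) (nat_lit 5) (.e (nat_lit 2879) (nat_lit 184) .nil)))))))) (.g (nat_lit 1) (.e (nat_lit 300810) (nat_lit 0) .nil) .nil))) 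
(.lf (nat_lit 552716) (.g (nat_lit 2263) (.e (nat_lit 426129) (nat_lit 3) (.e (nat_lit 204846) (nat_lit 24) (.e (nat_lit 319532) (nat_lit 16) (.e (nat_lit 286735) (nat_lit 3) (.e (nat_lit 98363) (nat_lit 26) .nil))))) (.g (nat_lit 0) (.e (nat_lit 301729) (nat_lit 0) .nil) .nil))))) (.nd (nat_lit 8) (.nd (nat_lit 9) 
(.lf (nat_lit 552076) (.g (nat_lit 688) (.e (nat_lit 426123) (nat_lit 2) (.e (nat_lit 196681) (nat_lit 17) (.e (nat_lit 131105) (nat_lit 9) .nil))) (.g (nat_lit 0) (.e (nat_lit 299276) (nat_lit 0) .nil) .nil))) 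
(.lf (nat_lit 552588) (.g (nat_lit 2507) (.e (nat_lit 426125) (nat_lit 2) (.e (nat_lit 196666) (nat_lit 13) (.e (nat_lit 65617) (nat_lit 10) (.e (nat_lit 344133) (nat_lit 26) (.e (nat_lit 557091) (nat_lit 12) (.e (nat_lit 163840) (nat_lit 0) (.e (nat_lit 6430) (nat_lit 342) (.e (nat_lit 229399) (nat_lit 12) .nil)))))))) (.g (nat_lit 1) (.e (nat_lit 301442) (nat_lit 0) .nil) .nil)))) 
(.nd (nat_lit 9) 
(.lf (nat_lit 552332) (.g (nat_lit 2777) (.e (nat_lit 426125) (nat_lit 2) (.e (nat_lit 196666) (nat_lit 13) (.e (nat_lit 65617) (nat_lit 10) (.e (nat_lit 344127) (nat_lit 26) (.e (nat_lit 557089) (nat_lit 12) (.e (nat_lit 163850) (nat_lit 0) (.e (nat_lit 6425) (nat_lit 342) (.e (nat_lit 229399) (nat_lit 12) .nil)))))))) (.g (nat_lit 1) (.e (nat_lit 301068) (nat_lit 0) .nil) .nil))) 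
(.lf (nat_lit 552844) (.g (nat_lit 1892) (.e (nat_lit 426129) (nat_lit 3) (.e (nat_lit 204885) (nat_lit 33) (.e (nat_lit 401448) (nat_lit 10) (.e (nat_lit 434223) (nat_lit 19) .nil)))) (.g (nat_lit 0) (.e (nat_lit 301998) (nat_lit 0) .nil) .nil)))))) (.nd (nat_lit 7) (.nd (nat_lit 8) (.nd (nat_lit 9) 
(.lf (nat_lit 552012) (.g (nat_lit 3963) (.e (nat_lit 426123) (nat_lit 2) (.e (nat_lit 196666) (nat_lit 13) (.e (nat_lit 65617) (nat_lit 10) (.e (nat_lit 344132) (nat_lit 26) (.e (nat_lit 557094) (nat_lit 12) (.e (nat_lit 164022) (nat_lit 46) (.e (nat_lit 704626) (nat_lit 9) (.e (nat_lit 416) (nat_lit 32) .nil)))))))) (.g (nat_lit 1) (.e (nat_lit 299188) (nat_lit 0) .nil) .nil))) 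
(.lf (nat_lit 552524) (.g (nat_lit 2978) (.e (nat_lit 426125) (nat_lit 2) (.e (nat_lit 196666) (nat_lit 13) (.e (nat_lit 65617) (nat_lit 10) (.e (nat_lit 344132) (nat_lit 26) (.e (nat_lit 557093) (nat_lit 12) (.e (nat_lit 171776) (nat_lit 48) (.e (nat_lit 728832) (nat_lit 11) .nil))))))) (.g (nat_lit 1) (.e (nat_lit 301354) (nat_lit 0) .nil) .nil)))) (.nd (nat_lit 9) 
(.lf (nat_lit 552268) (.g (nat_lit 2532) (.e (nat_lit 426125) (nat_lit 2) (.e (nat_lit 196666) (nat_lit 13) (.e (nat_lit 65610) (nat_lit 10) (.e (nat_lit 344129) (nat_lit 26) (.e (nat_lit 557090) (nat_lit 12) (.e (nat_lit 164018) (nat_lit 45) (.e (nat_lit 696328) (nat_lit 5) (.e (nat_lit 2878) (nat_lit 184) .nil)))))))) (.g (nat_lit 1) (.e (nat_lit 300980) (nat_lit 0) .nil) .nil))) 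
(.lf (nat_lit 552780) (.g (nat_lit 3890) (.e (nat_lit 426129) (nat_lit 3) (.e (nat_lit 204869) (nat_lit 29) (.e (nat_lit 360472) (nat_lit 8) (.e (nat_lit 557090) (nat_lit 12) (.e (nat_lit 163843) (nat_lit 0) .nil))))) (.g (nat_lit 0) (.e (nat_lit 301886) (nat_lit 0) .nil) .nil))))) (.nd (nat_lit 8) (.nd (nat_lit 9) 
(.lf (nat_lit 552140) (.g (nat_lit 4015) (.e (nat_lit 426125) (nat_lit 2) (.e (nat_lit 196666) (nat_lit 13) (.e (nat_lit 65610) (nat_lit 10) (.e (nat_lit 344117) (nat_lit 21) (.e (nat_lit 524032) (nat_lit 18) (.e (nat_lit 57692) (nat_lit 156) (.e (nat_lit 163910) (nat_lit 12) .nil))))))) (.g (nat_lit 1) (.e (nat_lit 300635) (nat_lit 0) .nil) .nil))) 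
(.lf (nat_lit 552652) (.g (nat_lit 3181) (.e (nat_lit 426125) (nat_lit 2) (.e (nat_lit 196666) (nat_lit 13) (.e (nat_lit 65622) (nat_lit 12) (.e (nat_lit 385068) (nat_lit 26) (.e (nat_lit 532513) (nat_lit 3) (.e (nat_lit 122624) (nat_lit 11) .nil)))))) (.g (nat_lit 1) (.e (nat_lit 301559) (nat_lit 0) .nil) .nil)))) (.nd (nat_lit 9) 
(.lf (nat_lit 552396) (.g (nat_lit 3387) (.e (nat_lit 426125) (nat_lit 2) (.e (nat_lit 196666) (nat_lit 13) (.e (nat_lit 65617) (nat_lit 10) (.e (nat_lit 344130) (nat_lit 26) (.e (nat_lit 557089) (nat_lit 12) (.e (nat_lit 164020) (nat_lit 45) (.e (nat_lit 696328) (nat_lit 5) (.e (nat_lit 2878) (nat_lit 184) .nil)))))))) (.g (nat_lit 1) (.e (nat_lit 301160) (nat_lit 0) .nil) .nil))) 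
(.lf (nat_lit 552908) (.g (nat_lit 1292) (.e (nat_lit 426131) (nat_lit 3) (.e (nat_lit 204830) (nat_lit 18) (.e (nat_lit 57663) (nat_lit 152) (.e (nat_lit 2725) (nat_lit 172) (.e (nat_lit 237635) (nat_lit 27) .nil))))) (.g (nat_lit 0) (.e (nat_lit 302089) (nat_lit 0) .nil) .nil))))))) (.nd (nat_lit 6) (.nd (nat_lit 7) (.nd (nat_lit 8) (.nd (nat_lit 9) 
(.lf (nat_lit 551980) (.g (nat_lit 3896) (.e (nat_lit 426123) (nat_lit 2) (.e (nat_lit 196666) (nat_lit 13) (.e (nat_lit 65617) (nat_lit 10) (.e (nat_lit 344132) (nat_lit 26) (.e (nat_lit 557093) (nat_lit 12) (.e (nat_lit 164022) (nat_lit 46) (.e (nat_lit 704627) (nat_lit 9) (.e (nat_lit 391) (nat_lit 32) .nil)))))))) (.g (nat_lit 1) (.e (nat_lit 299125) (nat_lit 0) .nil) .nil))) 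
(.lf (nat_lit 552492) (.g (nat_lit 4276) (.e (nat_lit 426125) (nat_lit 2) (.e (nat_lit 196666) (nat_lit 13) (.e (nat_lit 65617) (nat_lit 10) (.e (nat_lit 344132) (nat_lit 26) (.e (nat_lit 557091) (nat_lit 12) (.e (nat_lit 164020) (nat_lit 45) (.e (nat_lit 696330) (nat_lit 5) (.e (nat_lit 2884) (nat_lit 184) .nil)))))))) (.g (nat_lit 1) (.e (nat_lit 301310) (nat_lit 0) .nil) .nil)))) 
(.nd (nat_lit 9) 
(.lf (nat_lit 552236) (.g (nat_lit 2347) (.e (nat_lit 426125) (nat_lit 2) (.e (nat_lit 196666) (nat_lit 13) (.e (nat_lit 65610) (nat_lit 10) (.e (nat_lit 344129) (nat_lit 26) (.e (nat_lit 557090) (nat_lit 12) (.e (nat_lit 163847) (nat_lit 0) (.e (nat_lit 6418) (nat_lit 341) (.e (nat_lit 163909) (nat_lit 12) .nil)))))))) (.g (nat_lit 1) (.e (nat_lit 300922) (nat_lit 0) .nil) .nil))) 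
(.lf (nat_lit 552748) (.g (nat_lit 1935) (.e (nat_lit 426129) (nat_lit 3) (.e (nat_lit 204852) (nat_lit 26) (.e (nat_lit 343808) (nat_lit 9) (.e (nat_lit 336324) (nat_lit 18) (.e (nat_lit 204838) (nat_lit 20) (.e (nat_lit 122624) (nat_lit 11) .nil)))))) (.g (nat_lit 1) (.e (nat_lit 301785) (nat_lit 0) .nil) .nil))))) (.nd (nat_lit 8) (.nd (nat_lit 9) 
(.lf (nat_lit 552108) (.g (nat_lit 1071) (.e (nat_lit 426124) (nat_lit 2) (.e (nat_lit 196681) (nat_lit 17) (.e (nat_lit 131119) (nat_lit 12) .nil))) (.g (nat_lit 0) (.e (nat_lit 299494) (nat_lit 0) .nil) .nil))) 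
(.lf (nat_lit 552620) (.g (nat_lit 2216) (.e (nat_lit 426125) (nat_lit 2) (.e (nat_lit 196666) (nat_lit 13) (.e (nat_lit 65617) (nat_lit 10) (.e (nat_lit 344133) (nat_lit 26) (.e (nat_lit 557091) (nat_lit 12) (.e (nat_lit 164019) (nat_lit 45) (.e (nat_lit 696330) (nat_lit 5) (.e (nat_lit 2884) (nat_lit 184) .nil)))))))) (.g (nat_lit 1) (.e (nat_lit 301514) (nat_lit 0) .nil) .nil)))) 
(.nd (nat_lit 9) 
(.lf (nat_lit 552364) (.g (nat_lit 4443) (.e (nat_lit 426125) (nat_lit 2) (.e (nat_lit 196666) (nat_lit 13) (.e (nat_lit 65617) (nat_lit 10) (.e (nat_lit 344127) (nat_lit 26) (.e (nat_lit 557090) (nat_lit 12) (.e (nat_lit 164018) (nat_lit 45) (.e (nat_lit 696330) (nat_lit 5) (.e (nat_lit 2878) (nat_lit 184) .nil)))))))) (.g (nat_lit 1) (.e (nat_lit 301116) (nat_lit 0) .nil) .nil))) 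
(.lf (nat_lit 552876) (.g (nat_lit 4643) (.e (nat_lit 426130) (nat_lit 3) (.e (nat_lit 204869) (nat_lit 29) (.e (nat_lit 360475) (nat_lit 8) (.e (nat_lit 557091) (nat_lit 12) (.e (nat_lit 163844) (nat_lit 0) .nil))))) (.g (nat_lit 0) (.e (nat_lit 302033) (nat_lit 0) .nil) .nil)))))) (.nd (nat_lit 7) (.nd (nat_lit 8) (.nd (nat_lit 9) 
(.lf (nat_lit 552044) (.g (nat_lit 3466) (.e (nat_lit 426123) (nat_lit 2) (.e (nat_lit 196666) (nat_lit 13) (.e (nat_lit 65617) (nat_lit 10) (.e (nat_lit 344133) (nat_lit 26) (.e (nat_lit 557091) (nat_lit 12) (.e (nat_lit 164022) (nat_lit 46) (.e (nat_lit 704627) (nat_lit 9) (.e (nat_lit 436) (nat_lit 32) .nil)))))))) (.g (nat_lit 1) (.e (nat_lit 299226) (nat_lit 0) .nil) .nil))) 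
(.lf (nat_lit 552556) (.g (nat_lit 2775) (.e (nat_lit 426125) (nat_lit 2) (.e (nat_lit 196666) (nat_lit 13) (.e (nat_lit 65617) (nat_lit 10) (.e (nat_lit 344133) (nat_lit 26) (.e (nat_lit 557089) (nat_lit 12) (.e (nat_lit 163843) (nat_lit 0) (.e (nat_lit 6418) (nat_lit 341) (.e (nat_lit 163900) (nat_lit 12) .nil)))))))) (.g (nat_lit 1) (.e (nat_lit 301395) (nat_lit 0) .nil) .nil)))) 
(.nd (nat_lit 9) 
(.lf (nat_lit 552300) (.g (nat_lit 6259) (.e (nat_lit 426125) (nat_lit 2) (.e (nat_lit 196666) (nat_lit 13) (.e (nat_lit 65610) (nat_lit 10) (.e (nat_lit 344129) (nat_lit 26) (.e (nat_lit 557092) (nat_lit 12) (.e (nat_lit 164022) (nat_lit 46) (.e (nat_lit 704629) (nat_lit 9) (.e (nat_lit 375) (nat_lit 32) .nil)))))))) (.g (nat_lit 1) (.e (nat_lit 301033) (nat_lit 0) .nil) .nil))) 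
(.lf (nat_lit 552812) (.g (nat_lit 577) (.e (nat_lit 426129) (nat_lit 3) (.e (nat_lit 204869) (nat_lit 29) (.e (nat_lit 360475) (nat_lit 8) .nil))) (.g (nat_lit 0) (.e (nat_lit 301919) (nat_lit 0) .nil) .nil))))) (.nd (nat_lit 8) (.nd (nat_lit 9) 
(.lf (nat_lit 552172) (.g (nat_lit 4663) (.e (nat_lit 426125) (nat_lit 2) (.e (nat_lit 196666) (nat_lit 13) (.e (nat_lit 65610) (nat_lit 10) (.e (nat_lit 344129) (nat_lit 26) (.e (nat_lit 557089) (nat_lit 12) (.e (nat_lit 163844) (nat_lit 0) (.e (nat_lit 6421) (nat_lit 341) (.e (nat_lit 163900) (nat_lit 12) .nil)))))))) (.g (nat_lit 1) (.e (nat_lit 300751) (nat_lit 0) .nil) .nil))) 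
(.lf (nat_lit 552684) (.g (nat_lit 781) (.e (nat_lit 426129) (nat_lit 3) (.e (nat_lit 204831) (nat_lit 18) (.e (nat_lit 57685) (nat_lit 156) .nil))) (.g (nat_lit 0) (.e (nat_lit 301666) (nat_lit 0) .nil) .nil)))) (.nd (nat_lit 9) 
(.lf (nat_lit 552428) (.g (nat_lit 3376) (.e (nat_lit 426125) (nat_lit 2) (.e (nat_lit 196666) (nat_lit 13) (.e (nat_lit 65617) (nat_lit 10) (.e (nat_lit 344130) (nat_lit 26) (.e (nat_lit 557090) (nat_lit 12) (.e (nat_lit 163849) (nat_lit 0) (.e (nat_lit 6420) (nat_lit 341) (.e (nat_lit 163909) (nat_lit 12) .nil)))))))) (.g (nat_lit 1) (.e (nat_lit 301229) (nat_lit 0) .nil) .nil))) 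
(.lf (nat_lit 552940) (.g (nat_lit 602) (.e (nat_lit 426131) (nat_lit 3) (.e (nat_lit 204846) (nat_lit 24) (.e (nat_lit 319530) (nat_lit 16) .nil))) (.g (nat_lit 0) (.e (nat_lit 302142) (nat_lit 0) .nil) .nil)))))))) (.nd (nat_lit 5) (.nd (nat_lit 6) (.nd (nat_lit 7) (.nd (nat_lit 8) (.nd (nat_lit 9) 
(.lf (nat_lit 551964) (.g (nat_lit 4794) (.e (nat_lit 426123) (nat_lit 2) (.e (nat_lit 196666) (nat_lit 13) (.e (nat_lit 65617) (nat_lit 10) (.e (nat_lit 344130) (nat_lit 26) (.e (nat_lit 557090) (nat_lit 12) (.e (nat_lit 164022) (nat_lit 46) (.e (nat_lit 704628) (nat_lit 9) (.e (nat_lit 440) (nat_lit 32) .nil)))))))) (.g (nat_lit 1) (.e (nat_lit 299106) (nat_lit 0) .nil) .nil))) 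
(.lf (nat_lit 552476) (.g (nat_lit 3631) (.e (nat_lit 426125) (nat_lit 2) (.e (nat_lit 196666) (nat_lit 13) (.e (nat_lit 65617) (nat_lit 10) (.e (nat_lit 344132) (nat_lit 26) (.e (nat_lit 557089) (nat_lit 12) (.e (nat_lit 164020) (nat_lit 45) (.e (nat_lit 696330) (nat_lit 5) (.e (nat_lit 2878) (nat_lit 184) .nil)))))))) (.g (nat_lit 1) (.e (nat_lit 301294) (nat_lit 0) .nil) .nil)))) 
(.nd (nat_lit 9) 
(.lf (nat_lit 552220) (.g (nat_lit 1754) (.e (nat_lit 426125) (nat_lit 2) (.e (nat_lit 196666) (nat_lit 13) (.e (nat_lit 65610) (nat_lit 10) (.e (nat_lit 344129) (nat_lit 26) (.e (nat_lit 557090) (nat_lit 12) (.e (nat_lit 163841) (nat_lit 0) (.e (nat_lit 6418) (nat_lit 341) (.e (nat_lit 163900) (nat_lit 12) .nil)))))))) (.g (nat_lit 1) (.e (nat_lit 300834) (nat_lit 0) .nil) .nil))) 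
(.lf (nat_lit 552732) (.g (nat_lit 2297) (.e (nat_lit 426129) (nat_lit 3) (.e (nat_lit 204846) (nat_lit 24) (.e (nat_lit 319534) (nat_lit 16) (.e (nat_lit 286732) (nat_lit 2) (.e (nat_lit 90184) (nat_lit 17) .nil))))) (.g (nat_lit 0) (.e (nat_lit 301758) (nat_lit 0) .nil) .nil))))) (.nd (nat_lit 8) (.nd (nat_lit 9) 
(.lf (nat_lit 552092) (.g (nat_lit 2011) (.e (nat_lit 426124) (nat_lit 2) (.e (nat_lit 196674) (nat_lit 15) (.e (nat_lit 81944) (nat_lit 20) (.e (nat_lit 1855) (nat_lit 124) (.e (nat_lit 557093) (nat_lit 12) (.e (nat_lit 171776) (nat_lit 48) (.e (nat_lit 720909) (nat_lit 11) .nil))))))) (.g (nat_lit 1) (.e (nat_lit 299451) (nat_lit 0) .nil) .nil))) 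
(.lf (nat_lit 552604) (.g (nat_lit 4358) (.e (nat_lit 426125) (nat_lit 2) (.e (nat_lit 196666) (nat_lit 13) (.e (nat_lit 65617) (nat_lit 10) (.e (nat_lit 344133) (nat_lit 26) (.e (nat_lit 557091) (nat_lit 12) (.e (nat_lit 163850) (nat_lit 0) (.e (nat_lit 6425) (nat_lit 342) (.e (nat_lit 229403) (nat_lit 12) .nil)))))))) (.g (nat_lit 1) (.e (nat_lit 301491) (nat_lit 0) .nil) .nil)))) 
(.nd (nat_lit 9) 
(.lf (nat_lit 552348) (.g (nat_lit 4897) (.e (nat_lit 426125) (nat_lit 2) (.e (nat_lit 196666) (nat_lit 13) (.e (nat_lit 65617) (nat_lit 10) (.e (nat_lit 344127) (nat_lit 26) (.e (nat_lit 557090) (nat_lit 12) (.e (nat_lit 163844) (nat_lit 0) (.e (nat_lit 6421) (nat_lit 341) (.e (nat_lit 163900) (nat_lit 12) .nil)))))))) (.g (nat_lit 1) (.e (nat_lit 301097) (nat_lit 0) .nil) .nil))) 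
(.lf (nat_lit 552860) (.g (nat_lit 2051) (.e (nat_lit 426130) (nat_lit 3) (.e (nat_lit 204868) (nat_lit 29) (.e (nat_lit 360473) (nat_lit 8) (.e (nat_lit 557093) (nat_lit 12) (.e (nat_lit 163847) (nat_lit 0) .nil))))) (.g (nat_lit 0) (.e (nat_lit 302017) (nat_lit 0) .nil) .nil)))))) (.nd (nat_lit 7) (.nd (nat_lit 8) (.nd (nat_lit 9) 
(.lf (nat_lit 552028) (.g (nat_lit 2945) (.e (nat_lit 426123) (nat_lit 2) (.e (nat_lit 196666) (nat_lit 13) (.e (nat_lit 65617) (nat_lit 10) (.e (nat_lit 344133) (nat_lit 26) (.e (nat_lit 557091) (nat_lit 12) (.e (nat_lit 163843) (nat_lit 0) (.e (nat_lit 6418) (nat_lit 341) (.e (nat_lit 171776) (nat_lit 12) .nil)))))))) (.g (nat_lit 1) (.e (nat_lit 299205) (nat_lit 0) .nil) .nil))) 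
(.lf (nat_lit 552540) (.g (nat_lit 3119) (.e (nat_lit 426125) (nat_lit 2) (.e (nat_lit 196666) (nat_lit 13) (.e (nat_lit 65617) (nat_lit 10) (.e (nat_lit 344132) (nat_lit 26) (.e (nat_lit 557094) (nat_lit 12) (.e (nat_lit 164022) (nat_lit 46) (.e (nat_lit 704626) (nat_lit 9) (.e (nat_lit 370) (nat_lit 32) .nil)))))))) (.g (nat_lit 1) (.e (nat_lit 301375) (nat_lit 0) .nil) .nil)))) 
(.nd (nat_lit 9) 
(.lf (nat_lit 552284) (.g (nat_lit 3347) (.e (nat_lit 426125) (nat_lit 2) (.e (nat_lit 196666) (nat_lit 13) (.e (nat_lit 65610) (nat_lit 10) (.e (nat_lit 344129) (nat_lit 26) (.e (nat_lit 557090) (nat_lit 12) (.e (nat_lit 164020) (nat_lit 45) (.e (nat_lit 696327) (nat_lit 5) (.e (nat_lit 2876) (nat_lit 184) .nil)))))))) (.g (nat_lit 1) (.e (nat_lit 300996) (nat_lit 0) .nil) .nil))) 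
(.lf (nat_lit 552796) (.g (nat_lit 5724) (.e (nat_lit 426129) (nat_lit 3) (.e (nat_lit 204869) (nat_lit 29) (.e (nat_lit 360474) (nat_lit 8) (.e (nat_lit 557092) (nat_lit 12) .nil)))) (.g (nat_lit 0) (.e (nat_lit 301903) (nat_lit 0) .nil) .nil))))) (.nd (nat_lit 8) (.nd (nat_lit 9) 
(.lf (nat_lit 552156) (.g (nat_lit 2463) (.e (nat_lit 426125) (nat_lit 2) (.e (nat_lit 196666) (nat_lit 13) (.e (nat_lit 65610) (nat_lit 10) (.e (nat_lit 344129) (nat_lit 26) (.e (nat_lit 557088) (nat_lit 12) (.e (nat_lit 164018) (nat_lit 45) (.e (nat_lit 696330) (nat_lit 5) (.e (nat_lit 2878) (nat_lit 184) .nil)))))))) (.g (nat_lit 1) (.e (nat_lit 300708) (nat_lit 0) .nil) .nil))) 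
(.lf (nat_lit 552668) (.g (nat_lit 1969) (.e (nat_lit 426126) (nat_lit 2) (.e (nat_lit 196681) (nat_lit 17) (.e (nat_lit 131109) (nat_lit 9) (.e (nat_lit 336324) (nat_lit 18) (.e (nat_lit 204838) (nat_lit 20) .nil))))) (.g (nat_lit 0) (.e (nat_lit 301595) (nat_lit 0) .nil) .nil)))) (.nd (nat_lit 9) 
(.lf (nat_lit 552412) (.g (nat_lit 5666) (.e (nat_lit 426125) (nat_lit 2) (.e (nat_lit 196666) (nat_lit 13) (.e (nat_lit 65617) (nat_lit 10) (.e (nat_lit 344130) (nat_lit 26) (.e (nat_lit 557090) (nat_lit 12) (.e (nat_lit 163844) (nat_lit 0) (.e (nat_lit 6416) (nat_lit 341) (.e (nat_lit 163909) (nat_lit 12) .nil)))))))) (.g (nat_lit 1) (.e (nat_lit 301204) (nat_lit 0) .nil) .nil))) 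
(.lf (nat_lit 552924) (.g (nat_lit 1790) (.e (nat_lit 426131) (nat_lit 3) (.e (nat_lit 204831) (nat_lit 18) (.e (nat_lit 57692) (nat_lit 156) (.e (nat_lit 163907) (nat_lit 12) (.e (nat_lit 426481) (nat_lit 27) (.e (nat_lit 336388) (nat_lit 27) (.e (nat_lit 426199) (nat_lit 9) .nil))))))) (.g (nat_lit 1) (.e (nat_lit 302122) (nat_lit 0) .nil) .nil))))))) 
(.nd (nat_lit 6) (.nd (nat_lit 7) (.nd (nat_lit 8) (.nd (nat_lit 9) 
(.lf (nat_lit 551996) (.g (nat_lit 4062) (.e (nat_lit 426123) (nat_lit 2) (.e (nat_lit 196666) (nat_lit 13) (.e (nat_lit 65617) (nat_lit 10) (.e (nat_lit 344132) (nat_lit 26) (.e (nat_lit 557093) (nat_lit 12) (.e (nat_lit 164023) (nat_lit 46) (.e (nat_lit 704626) (nat_lit 9) (.e (nat_lit 396) (nat_lit 32) .nil)))))))) (.g (nat_lit 1) (.e (nat_lit 299143) (nat_lit 0) .nil) .nil))) 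
(.lf (nat_lit 552508) (.g (nat_lit 3605) (.e (nat_lit 426125) (nat_lit 2) (.e (nat_lit 196666) (nat_lit 13) (.e (nat_lit 65617) (nat_lit 10) (.e (nat_lit 344132) (nat_lit 26) (.e (nat_lit 557093) (nat_lit 12) (.e (nat_lit 164018) (nat_lit 45) (.e (nat_lit 696327) (nat_lit 5) (.e (nat_lit 2878) (nat_lit 184) .nil)))))))) (.g (nat_lit 1) (.e (nat_lit 301333) (nat_lit 0) .nil) .nil)))) 
(.nd (nat_lit 9) 
(.lf (nat_lit 552252) (.g (nat_lit 1821) (.e (nat_lit 426125) (nat_lit 2) (.e (nat_lit 196666) (nat_lit 13) (.e (nat_lit 65610) (nat_lit 10) (.e (nat_lit 344129) (nat_lit 26) (.e (nat_lit 557090) (nat_lit 12) (.e (nat_lit 163852) (nat_lit 0) (.e (nat_lit 6427) (nat_lit 342) (.e (nat_lit 229403) (nat_lit 12) .nil)))))))) (.g (nat_lit 1) (.e (nat_lit 300957) (nat_lit 0) .nil) .nil))) 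
(.lf (nat_lit 552764) (.g (nat_lit 1222) (.e (nat_lit 426129) (nat_lit 3) (.e (nat_lit 204868) (nat_lit 29) (.e (nat_lit 360473) (nat_lit 8) (.e (nat_lit 557089) (nat_lit 12) .nil)))) (.g (nat_lit 0) (.e (nat_lit 301870) (nat_lit 0) .nil) .nil))))) (.nd (nat_lit 8) (.nd (nat_lit 9) 
(.lf (nat_lit 552124) (.g (nat_lit 1589) (.e (nat_lit 426125) (nat_lit 2) (.e (nat_lit 196666) (nat_lit 13) (.e (nat_lit 65609) (nat_lit 10) (.e (nat_lit 344133) (nat_lit 26) (.e (nat_lit 557091) (nat_lit 12) .nil))))) (.g (nat_lit 0) (.e (nat_lit 299622) (nat_lit 0) .nil) .nil))) 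
(.lf (nat_lit 552636) (.g (nat_lit 4631) (.e (nat_lit 426125) (nat_lit 2) (.e (nat_lit 196666) (nat_lit 13) (.e (nat_lit 65617) (nat_lit 10) (.e (nat_lit 344133) (nat_lit 26) (.e (nat_lit 557091) (nat_lit 12) (.e (nat_lit 164022) (nat_lit 46) (.e (nat_lit 704629) (nat_lit 9) (.e (nat_lit 377) (nat_lit 32) .nil)))))))) (.g (nat_lit 1) (.e (nat_lit 301538) (nat_lit 0) .nil) .nil)))) 
(.nd (nat_lit 9) 
(.lf (nat_lit 552380) (.g (nat_lit 2872) (.e (nat_lit 426125) (nat_lit 2) (.e (nat_lit 196666) (nat_lit 13) (.e (nat_lit 65617) (nat_lit 10) (.e (nat_lit 344130) (nat_lit 26) (.e (nat_lit 557065) (nat_lit 9) (.e (nat_lit 2612) (nat_lit 163) (.e (nat_lit 164190) (nat_lit 157) (.e (nat_lit 229399) (nat_lit 12) .nil)))))))) (.g (nat_lit 1) (.e (nat_lit 301132) (nat_lit 0) .nil) .nil))) 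
(.lf (nat_lit 552892) (.g (nat_lit 2452) (.e (nat_lit 426131) (nat_lit 3) (.e (nat_lit 204829) (nat_lit 18) (.e (nat_lit 57688) (nat_lit 156) (.e (nat_lit 163905) (nat_lit 12) (.e (nat_lit 426566) (nat_lit 34) .nil))))) (.g (nat_lit 0) (.e (nat_lit 302059) (nat_lit 0) .nil) .nil)))))) (.nd (nat_lit 7) (.nd (nat_lit 8) (.nd (nat_lit 9) 
(.lf (nat_lit 552060) (.g (nat_lit 2594) (.e (nat_lit 426123) (nat_lit 2) (.e (nat_lit 196666) (nat_lit 13) (.e (nat_lit 65617) (nat_lit 10) (.e (nat_lit 344133) (nat_lit 26) (.e (nat_lit 557091) (nat_lit 12) (.e (nat_lit 171776) (nat_lit 48) (.e (nat_lit 720908) (nat_lit 11) .nil))))))) (.g (nat_lit 1) (.e (nat_lit 299245) (nat_lit 0) .nil) .nil))) 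
(.lf (nat_lit 552572) (.g (nat_lit 3473) (.e (nat_lit 426125) (nat_lit 2) (.e (nat_lit 196666) (nat_lit 13) (.e (nat_lit 65617) (nat_lit 10) (.e (nat_lit 344133) (nat_lit 26) (.e (nat_lit 557089) (nat_lit 12) (.e (nat_lit 164020) (nat_lit 45) (.e (nat_lit 696329) (nat_lit 5) (.e (nat_lit 2878) (nat_lit 184) .nil)))))))) (.g (nat_lit 1) (.e (nat_lit 301424) (nat_lit 0) .nil) .nil)))) 
(.nd (nat_lit 9) 
(.lf (nat_lit 552316) (.g (nat_lit 3172) (.e (nat_lit 426125) (nat_lit 2) (.e (nat_lit 196666) (nat_lit 13) (.e (nat_lit 65610) (nat_lit 10) (.e (nat_lit 344133) (nat_lit 26) (.e (nat_lit 557093) (nat_lit 12) .nil))))) (.g (nat_lit 0) (.e (nat_lit 301050) (nat_lit 0) .nil) .nil))) 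
(.lf (nat_lit 552828) (.g (nat_lit 3079) (.e (nat_lit 426129) (nat_lit 3) (.e (nat_lit 204869) (nat_lit 29) (.e (nat_lit 360475) (nat_lit 8) (.e (nat_lit 557091) (nat_lit 12) (.e (nat_lit 164022) (nat_lit 46) .nil))))) (.g (nat_lit 0) (.e (nat_lit 301938) (nat_lit 0) .nil) .nil))))) (.nd (nat_lit 8) (.nd (nat_lit 9) 
(.lf (nat_lit 552188) (.g (nat_lit 2992) (.e (nat_lit 426125) (nat_lit 2) (.e (nat_lit 196666) (nat_lit 13) (.e (nat_lit 65610) (nat_lit 10) (.e (nat_lit 344129) (nat_lit 26) (.e (nat_lit 557089) (nat_lit 12) (.e (nat_lit 163853) (nat_lit 0) (.e (nat_lit 6425) (nat_lit 342) (.e (nat_lit 229399) (nat_lit 12) .nil)))))))) (.g (nat_lit 1) (.e (nat_lit 300790) (nat_lit 0) .nil) .nil))) 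
(.lf (nat_lit 552700) (.g (nat_lit 1660) (.e (nat_lit 426129) (nat_lit 3) (.e (nat_lit 204838) (nat_lit 20) (.e (nat_lit 114719) (nat_lit 23) (.e (nat_lit 98335) (nat_lit 18) .nil)))) (.g (nat_lit 0) (.e (nat_lit 301694) (nat_lit 0) .nil) .nil)))) (.nd (nat_lit 9) 
(.lf (nat_lit 552444) (.g (nat_lit 2644) (.e (nat_lit 426125) (nat_lit 2) (.e (nat_lit 196666) (nat_lit 13) (.e (nat_lit 65617) (nat_lit 10) (.e (nat_lit 344130) (nat_lit 26) (.e (nat_lit 557090) (nat_lit 12) (.e (nat_lit 164020) (nat_lit 45) (.e (nat_lit 696327) (nat_lit 5) (.e (nat_lit 2842) (nat_lit 184) .nil)))))))) (.g (nat_lit 1) (.e (nat_lit 301252) (nat_lit 0) .nil) .nil))) 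
(.lf (nat_lit 552956) (.g (nat_lit 1462) (.e (nat_lit 426131) (nat_lit 3) (.e (nat_lit 204846) (nat_lit 24) (.e (nat_lit 319532) (nat_lit 16) (.e (nat_lit 286735) (nat_lit 3) .nil)))) (.g (nat_lit 0) (.e (nat_lit 302158) (nat_lit 0) .nil) .nil))))))))))) (.nd (nat_lit 2) (.nd (nat_lit 3) (.nd (nat_lit 4) (.nd (nat_lit 5) (.nd (nat_lit 6) (.nd (nat_lit 7) (.nd (nat_lit 8) (.nd (nat_lit 9) 
(.lf (nat_lit 551938) (.g (nat_lit 3910) (.e (nat_lit 426123) (nat_lit 2) (.e (nat_lit 196666) (nat_lit 13) (.e (nat_lit 65617) (nat_lit 10) (.e (nat_lit 344127) (nat_lit 26) (.e (nat_lit 557090) (nat_lit 12) (.e (nat_lit 163843) (nat_lit 0) (.e (nat_lit 6421) (nat_lit 341) (.e (nat_lit 171776) (nat_lit 12) .nil)))))))) (.g (nat_lit 1) (.e (nat_lit 299076) (nat_lit 0) .nil) .nil))) 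
(.lf (nat_lit 552450) (.g (nat_lit 3720) (.e (nat_lit 426125) (nat_lit 2) (.e (nat_lit 196666) (nat_lit 13) (.e (nat_lit 65617) (nat_lit 10) (.e (nat_lit 344130) (nat_lit 26) (.e (nat_lit 557090) (nat_lit 12) (.e (nat_lit 164022) (nat_lit 46) (.e (nat_lit 704626) (nat_lit 9) (.e (nat_lit 370) (nat_lit 32) .nil)))))))) (.g (nat_lit 1) (.e (nat_lit 301262) (nat_lit 0) .nil) .nil)))) 
(.nd (nat_lit 9) 
(.lf (nat_lit 552194) (.g (nat_lit 3355) (.e (nat_lit 426125) (nat_lit 2) (.e (nat_lit 196666) (nat_lit 13) (.e (nat_lit 65610) (nat_lit 10) (.e (nat_lit 344129) (nat_lit 26) (.e (nat_lit 557089) (nat_lit 12) (.e (nat_lit 164020) (nat_lit 45) (.e (nat_lit 696327) (nat_lit 5) (.e (nat_lit 2876) (nat_lit 184) .nil)))))))) (.g (nat_lit 1) (.e (nat_lit 300800) (nat_lit 0) .nil) .nil))) 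
(.lf (nat_lit 552706) (.g (nat_lit 2967) (.e (nat_lit 426129) (nat_lit 3) (.e (nat_lit 204846) (nat_lit 24) (.e (nat_lit 319530) (nat_lit 16) (.e (nat_lit 286735) (nat_lit 3) (.e (nat_lit 98363) (nat_lit 26) (.e (nat_lit 426234) (nat_lit 9) .nil)))))) (.g (nat_lit 1) (.e (nat_lit 301716) (nat_lit 0) .nil) .nil))))) (.nd (nat_lit 8) (.nd (nat_lit 9) 
(.lf (nat_lit 552066) (.g (nat_lit 3485) (.e (nat_lit 426123) (nat_lit 2) (.e (nat_lit 196666) (nat_lit 13) (.e (nat_lit 65622) (nat_lit 12) (.e (nat_lit 385066) (nat_lit 26) (.e (nat_lit 532513) (nat_lit 3) (.e (nat_lit 114697) (nat_lit 11) .nil)))))) (.g (nat_lit 1) (.e (nat_lit 299252) (nat_lit 0) .nil) .nil))) 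
(.lf (nat_lit 552578) (.g (nat_lit 5352) (.e (nat_lit 426125) (nat_lit 2) (.e (nat_lit 196666) (nat_lit 13) (.e (nat_lit 65617) (nat_lit 10) (.e (nat_lit 344133) (nat_lit 26) (.e (nat_lit 557090) (nat_lit 12) (.e (nat_lit 164020) (nat_lit 45) (.e (nat_lit 696330) (nat_lit 5) (.e (nat_lit 2878) (nat_lit 184) .nil)))))))) (.g (nat_lit 1) (.e (nat_lit 301431) (nat_lit 0) .nil) .nil)))) 
(.nd (nat_lit 9) 
(.lf (nat_lit 552322) (.g (nat_lit 1009) (.e (nat_lit 426125) (nat_lit 2) (.e (nat_lit 196666) (nat_lit 13) (.e (nat_lit 65617) (nat_lit 10) (.e (nat_lit 344127) (nat_lit 26) .nil)))) (.g (nat_lit 0) (.e (nat_lit 301058) (nat_lit 0) .nil) .nil))) 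
(.lf (nat_lit 552834) (.g (nat_lit 4641) (.e (nat_lit 426129) (nat_lit 3) (.e (nat_lit 204869) (nat_lit 29) (.e (nat_lit 360475) (nat_lit 8) (.e (nat_lit 557093) (nat_lit 12) .nil)))) (.g (nat_lit 0) (.e (nat_lit 301944) (nat_lit 0) .nil) .nil)))))) (.nd (nat_lit 7) (.nd (nat_lit 8) (.nd (nat_lit 9) 
(.lf (nat_lit 552002) (.g (nat_lit 4136) (.e (nat_lit 426123) (nat_lit 2) (.e (nat_lit 196666) (nat_lit 13) (.e (nat_lit 65617) (nat_lit 10) (.e (nat_lit 344132) (nat_lit 26) (.e (nat_lit 557093) (nat_lit 12) (.e (nat_lit 164023) (nat_lit 46) (.e (nat_lit 704628) (nat_lit 9) (.e (nat_lit 416) (nat_lit 32) .nil)))))))) (.g (nat_lit 1) (.e (nat_lit 299149) (nat_lit 0) .nil) .nil))) 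
(.lf (nat_lit 552514) (.g (nat_lit 4706) (.e (nat_lit 426125) (nat_lit 2) (.e (nat_lit 196666) (nat_lit 13) (.e (nat_lit 65617) (nat_lit 10) (.e (nat_lit 344132) (nat_lit 26) (.e (nat_lit 557093) (nat_lit 12) (.e (nat_lit 164022) (nat_lit 46) (.e (nat_lit 704628) (nat_lit 9) (.e (nat_lit 377) (nat_lit 32) .nil)))))))) (.g (nat_lit 1) (.e (nat_lit 301343) (nat_lit 0) .nil) .nil)))) 
(.nd (nat_lit 9) 
(.lf (nat_lit 552258) (.g (nat_lit 4905) (.e (nat_lit 426125) (nat_lit 2) (.e (nat_lit 196666) (nat_lit 13) (.e (nat_lit 65610) (nat_lit 10) (.e (nat_lit 344129) (nat_lit 26) (.e (nat_lit 557090) (nat_lit 12) (.e (nat_lit 164017) (nat_lit 44) (.e (nat_lit 688140) (nat_lit 5) (.e (nat_lit 2883) (nat_lit 184) .nil)))))))) (.g (nat_lit 1) (.e (nat_lit 300969) (nat_lit 0) .nil) .nil))) 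
(.lf (nat_lit 552770) (.g (nat_lit 1779) (.e (nat_lit 426129) (nat_lit 3) (.e (nat_lit 204868) (nat_lit 29) (.e (nat_lit 360473) (nat_lit 8) (.e (nat_lit 557093) (nat_lit 12) (.e (nat_lit 171776) (nat_lit 48) .nil))))) (.g (nat_lit 0) (.e (nat_lit 301876) (nat_lit 0) .nil) .nil))))) (.nd (nat_lit 8) (.nd (nat_lit 9) 
(.lf (nat_lit 552130) (.g (nat_lit 2412) (.e (nat_lit 426125) (nat_lit 2) (.e (nat_lit 196666) (nat_lit 13) (.e (nat_lit 65610) (nat_lit 10) (.e (nat_lit 344117) (nat_lit 21) (.e (nat_lit 516099) (nat_lit 0) (.e (nat_lit 7936) (nat_lit 157) (.e (nat_lit 4540) (nat_lit 267) (.e (nat_lit 163909) (nat_lit 12) .nil)))))))) (.g (nat_lit 1) (.e (nat_lit 300017) (nat_lit 0) .nil) .nil))) 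
(.lf (nat_lit 552642) (.g (nat_lit 2371) (.e (nat_lit 426125) (nat_lit 2) (.e (nat_lit 196666) (nat_lit 13) (.e (nat_lit 65617) (nat_lit 10) (.e (nat_lit 344133) (nat_lit 26) (.e (nat_lit 557092) (nat_lit 12) (.e (nat_lit 171776) (nat_lit 48) (.e (nat_lit 728832) (nat_lit 11) .nil))))))) (.g (nat_lit 1) (.e (nat_lit 301547) (nat_lit 0) .nil) .nil)))) (.nd (nat_lit 9) 
(.lf (nat_lit 552386) (.g (nat_lit 4352) (.e (nat_lit 426125) (nat_lit 2) (.e (nat_lit 196666) (nat_lit 13) (.e (nat_lit 65617) (nat_lit 10) (.e (nat_lit 344130) (nat_lit 26) (.e (nat_lit 557089) (nat_lit 12) (.e (nat_lit 163843) (nat_lit 0) (.e (nat_lit 6421) (nat_lit 341) (.e (nat_lit 163909) (nat_lit 12) .nil)))))))) (.g (nat_lit 1) (.e (nat_lit 301144) (nat_lit 0) .nil) .nil))) 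
(.lf (nat_lit 552898) (.g (nat_lit 2818) (.e (nat_lit 426131) (nat_lit 3) (.e (nat_lit 204829) (nat_lit 18) (.e (nat_lit 57691) (nat_lit 156) (.e (nat_lit 163907) (nat_lit 12) (.e (nat_lit 426566) (nat_lit 34) (.e (nat_lit 393272) (nat_lit 23) .nil)))))) (.g (nat_lit 1) (.e (nat_lit 302073) (nat_lit 0) .nil) .nil))))))) (.nd (nat_lit 6) (.nd (nat_lit 7) (.nd (nat_lit 8) (.nd (nat_lit 9) 
(.lf (nat_lit 551970) (.g (nat_lit 3329) (.e (nat_lit 426123) (nat_lit 2) (.e (nat_lit 196666) (nat_lit 13) (.e (nat_lit 65617) (nat_lit 10) (.e (nat_lit 344130) (nat_lit 26) (.e (nat_lit 557090) (nat_lit 12) (.e (nat_lit 171776) (nat_lit 49) (.e (nat_lit 729096) (nat_lit 11) .nil))))))) (.g (nat_lit 1) (.e (nat_lit 299114) (nat_lit 0) .nil) .nil))) 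
(.lf (nat_lit 552482) (.g (nat_lit 4386) (.e (nat_lit 426125) (nat_lit 2) (.e (nat_lit 196666) (nat_lit 13) (.e (nat_lit 65617) (nat_lit 10) (.e (nat_lit 344132) (nat_lit 26) (.e (nat_lit 557090) (nat_lit 12) (.e (nat_lit 164020) (nat_lit 45) (.e (nat_lit 696329) (nat_lit 5) (.e (nat_lit 2884) (nat_lit 184) .nil)))))))) (.g (nat_lit 1) (.e (nat_lit 301300) (nat_lit 0) .nil) .nil)))) 
(.nd (nat_lit 9) 
(.lf (nat_lit 552226) (.g (nat_lit 3362) (.e (nat_lit 426125) (nat_lit 2) (.e (nat_lit 196666) (nat_lit 13) (.e (nat_lit 65610) (nat_lit 10) (.e (nat_lit 344129) (nat_lit 26) (.e (nat_lit 557090) (nat_lit 12) (.e (nat_lit 163843) (nat_lit 0) (.e (nat_lit 6421) (nat_lit 341) (.e (nat_lit 171776) (nat_lit 12) .nil)))))))) (.g (nat_lit 1) (.e (nat_lit 300875) (nat_lit 0) .nil) .nil))) 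
(.lf (nat_lit 552738) (.g (nat_lit 2227) (.e (nat_lit 426129) (nat_lit 3) (.e (nat_lit 204846) (nat_lit 24) (.e (nat_lit 319534) (nat_lit 16) (.e (nat_lit 286735) (nat_lit 3) (.e (nat_lit 98356) (nat_lit 26) .nil))))) (.g (nat_lit 0) (.e (nat_lit 301769) (nat_lit 0) .nil) .nil))))) (.nd (nat_lit 8) (.nd (nat_lit 9) 
(.lf (nat_lit 552098) (.g (nat_lit 3741) (.e (nat_lit 426124) (nat_lit 2) (.e (nat_lit 196681) (nat_lit 17) (.e (nat_lit 131089) (nat_lit 1) (.e (nat_lit 57854) (nat_lit 252) (.e (nat_lit 57378) (nat_lit 3) (.e (nat_lit 98334) (nat_lit 18) (.e (nat_lit 164401) (nat_lit 256) (.e (nat_lit 57588) (nat_lit 73) .nil)))))))) (.g (nat_lit 1) (.e (nat_lit 299461) (nat_lit 0) .nil) .nil))) 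
(.lf (nat_lit 552610) (.g (nat_lit 3931) (.e (nat_lit 426125) (nat_lit 2) (.e (nat_lit 196666) (nat_lit 13) (.e (nat_lit 65617) (nat_lit 10) (.e (nat_lit 344133) (nat_lit 26) (.e (nat_lit 557091) (nat_lit 12) (.e (nat_lit 164016) (nat_lit 44) (.e (nat_lit 688140) (nat_lit 5) (.e (nat_lit 2883) (nat_lit 184) .nil)))))))) (.g (nat_lit 1) (.e (nat_lit 301498) (nat_lit 0) .nil) .nil)))) 
(.nd (nat_lit 9) 
(.lf (nat_lit 552354) (.g (nat_lit 3238) (.e (nat_lit 426125) (nat_lit 2) (.e (nat_lit 196666) (nat_lit 13) (.e (nat_lit 65617) (nat_lit 10) (.e (nat_lit 344127) (nat_lit 26) (.e (nat_lit 557090) (nat_lit 12) (.e (nat_lit 164016) (nat_lit 44) (.e (nat_lit 688138) (nat_lit 5) (.e (nat_lit 2877) (nat_lit 184) .nil)))))))) (.g (nat_lit 1) (.e (nat_lit 301103) (nat_lit 0) .nil) .nil))) 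
(.lf (nat_lit 552866) (.g (nat_lit 3241) (.e (nat_lit 426130) (nat_lit 3) (.e (nat_lit 204869) (nat_lit 29) (.e (nat_lit 360474) (nat_lit 8) (.e (nat_lit 557093) (nat_lit 12) .nil)))) (.g (nat_lit 0) (.e (nat_lit 302023) (nat_lit 0) .nil) .nil)))))) (.nd (nat_lit 7) (.nd (nat_lit 8) (.nd (nat_lit 9) 
(.lf (nat_lit 552034) (.g (nat_lit 3172) (.e (nat_lit 426123) (nat_lit 2) (.e (nat_lit 196666) (nat_lit 13) (.e (nat_lit 65617) (nat_lit 10) (.e (nat_lit 344133) (nat_lit 26) (.e (nat_lit 557091) (nat_lit 12) (.e (nat_lit 163849) (nat_lit 0) (.e (nat_lit 6421) (nat_lit 341) (.e (nat_lit 171776) (nat_lit 12) .nil)))))))) (.g (nat_lit 1) (.e (nat_lit 299211) (nat_lit 0) .nil) .nil))) 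
(.lf (nat_lit 552546) (.g (nat_lit 4856) (.e (nat_lit 426125) (nat_lit 2) (.e (nat_lit 196666) (nat_lit 13) (.e (nat_lit 65617) (nat_lit 10) (.e (nat_lit 344132) (nat_lit 26) (.e (nat_lit 557094) (nat_lit 12) (.e (nat_lit 164022) (nat_lit 46) (.e (nat_lit 704629) (nat_lit 9) (.e (nat_lit 370) (nat_lit 32) .nil)))))))) (.g (nat_lit 1) (.e (nat_lit 301381) (nat_lit 0) .nil) .nil)))) 
(.nd (nat_lit 9) 
(.lf (nat_lit 552290) (.g (nat_lit 3487) (.e (nat_lit 426125) (nat_lit 2) (.e (nat_lit 196666) (nat_lit 13) (.e (nat_lit 65610) (nat_lit 10) (.e (nat_lit 344129) (nat_lit 26) (.e (nat_lit 557090) (nat_lit 12) (.e (nat_lit 164020) (nat_lit 45) (.e (nat_lit 696330) (nat_lit 5) (.e (nat_lit 2888) (nat_lit 184) .nil)))))))) (.g (nat_lit 1) (.e (nat_lit 301002) (nat_lit 0) .nil) .nil))) 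
(.lf (nat_lit 552802) (.g (nat_lit 3068) (.e (nat_lit 426129) (nat_lit 3) (.e (nat_lit 204869) (nat_lit 29) (.e (nat_lit 360474) (nat_lit 8) (.e (nat_lit 557093) (nat_lit 12) (.e (nat_lit 171776) (nat_lit 48) (.e (nat_lit 720906) (nat_lit 11) .nil)))))) (.g (nat_lit 1) (.e (nat_lit 301909) (nat_lit 0) .nil) .nil))))) (.nd (nat_lit 8) (.nd (nat_lit 9) 
(.lf (nat_lit 552162) (.g (nat_lit 3422) (.e (nat_lit 426125) (nat_lit 2) (.e (nat_lit 196666) (nat_lit 13) (.e (nat_lit 65610) (nat_lit 10) (.e (nat_lit 344129) (nat_lit 26) (.e (nat_lit 557089) (nat_lit 12) (.e (nat_lit 163843) (nat_lit 0) (.e (nat_lit 6416) (nat_lit 341) (.e (nat_lit 163909) (nat_lit 12) .nil)))))))) (.g (nat_lit 1) (.e (nat_lit 300721) (nat_lit 0) .nil) .nil))) 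
(.lf (nat_lit 552674) (.g (nat_lit 567) (.e (nat_lit 426129) (nat_lit 3) (.e (nat_lit 204829) (nat_lit 18) (.e (nat_lit 57654) (nat_lit 152) .nil))) (.g (nat_lit 0) (.e (nat_lit 301633) (nat_lit 0) .nil) .nil)))) (.nd (nat_lit 9) 
(.lf (nat_lit 552418) (.g (nat_lit 4782) (.e (nat_lit 426125) (nat_lit 2) (.e (nat_lit 196666) (nat_lit 13) (.e (nat_lit 65617) (nat_lit 10) (.e (nat_lit 344130) (nat_lit 26) (.e (nat_lit 557090) (nat_lit 12) (.e (nat_lit 163844) (nat_lit 0) (.e (nat_lit 6421) (nat_lit 341) (.e (nat_lit 163909) (nat_lit 12) .nil)))))))) (.g (nat_lit 1) (.e (nat_lit 301210) (nat_lit 0) .nil) .nil))) 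
(.lf (nat_lit 552930) (.g (nat_lit 2705) (.e (nat_lit 426131) (nat_lit 3) (.e (nat_lit 204845) (nat_lit 24) (.e (nat_lit 319530) (nat_lit 16) (.e (nat_lit 286732) (nat_lit 2) (.e (nat_lit 90185) (nat_lit 17) .nil))))) (.g (nat_lit 0) (.e (nat_lit 302131) (nat_lit 0) .nil) .nil)))))))) (.nd (nat_lit 5) (.nd (nat_lit 6) (.nd (nat_lit 7) (.nd (nat_lit 8) (.nd (nat_lit 9) 
(.lf (nat_lit 551954) (.g (nat_lit 4464) (.e (nat_lit 426123) (nat_lit 2) (.e (nat_lit 196666) (nat_lit 13) (.e (nat_lit 65617) (nat_lit 10) (.e (nat_lit 344130) (nat_lit 26) (.e (nat_lit 557090) (nat_lit 12) (.e (nat_lit 164022) (nat_lit 46) (.e (nat_lit 704626) (nat_lit 9) (.e (nat_lit 416) (nat_lit 32) .nil)))))))) (.g (nat_lit 1) (.e (nat_lit 299096) (nat_lit 0) .nil) .nil))) 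
(.lf (nat_lit 552466) (.g (nat_lit 4093) (.e (nat_lit 426125) (nat_lit 2) (.e (nat_lit 196666) (nat_lit 13) (.e (nat_lit 65617) (nat_lit 10) (.e (nat_lit 344130) (nat_lit 26) (.e (nat_lit 557091) (nat_lit 12) (.e (nat_lit 164020) (nat_lit 45) (.e (nat_lit 696329) (nat_lit 5) (.e (nat_lit 2884) (nat_lit 184) .nil)))))))) (.g (nat_lit 1) (.e (nat_lit 301282) (nat_lit 0) .nil) .nil)))) 
(.nd (nat_lit 9) 
(.lf (nat_lit 552210) (.g (nat_lit 5143) (.e (nat_lit 426125) (nat_lit 2) (.e (nat_lit 196666) (nat_lit 13) (.e (nat_lit 65610) (nat_lit 10) (.e (nat_lit 344129) (nat_lit 26) (.e (nat_lit 557089) (nat_lit 12) (.e (nat_lit 164023) (nat_lit 46) (.e (nat_lit 704628) (nat_lit 9) (.e (nat_lit 375) (nat_lit 32) .nil)))))))) (.g (nat_lit 1) (.e (nat_lit 300816) (nat_lit 0) .nil) .nil))) 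
(.lf (nat_lit 552722) (.g (nat_lit 2709) (.e (nat_lit 426129) (nat_lit 3) (.e (nat_lit 204846) (nat_lit 24) (.e (nat_lit 319533) (nat_lit 16) (.e (nat_lit 286734) (nat_lit 3) (.e (nat_lit 98363) (nat_lit 26) .nil))))) (.g (nat_lit 0) (.e (nat_lit 301743) (nat_lit 0) .nil) .nil))))) (.nd (nat_lit 8) (.nd (nat_lit 9) 
(.lf (nat_lit 552082) (.g (nat_lit 1740) (.e (nat_lit 426124) (nat_lit 2) (.e (nat_lit 196656) (nat_lit 11) (.e (nat_lit 16388) (nat_lit 0) (.e (nat_lit 3181) (nat_lit 193) .nil)))) (.g (nat_lit 0) (.e (nat_lit 299319) (nat_lit 0) .nil) .nil))) 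
(.lf (nat_lit 552594) (.g (nat_lit 5273) (.e (nat_lit 426125) (nat_lit 2) (.e (nat_lit 196666) (nat_lit 13) (.e (nat_lit 65617) (nat_lit 10) (.e (nat_lit 344133) (nat_lit 26) (.e (nat_lit 557091) (nat_lit 12) (.e (nat_lit 163843) (nat_lit 0) (.e (nat_lit 6421) (nat_lit 341) (.e (nat_lit 163909) (nat_lit 12) .nil)))))))) (.g (nat_lit 1) (.e (nat_lit 301465) (nat_lit 0) .nil) .nil)))) 
(.nd (nat_lit 9) 
(.lf (nat_lit 552338) (.g (nat_lit 3424) (.e (nat_lit 426125) (nat_lit 2) (.e (nat_lit 196666) (nat_lit 13) (.e (nat_lit 65617) (nat_lit 10) (.e (nat_lit 344127) (nat_lit 26) (.e (nat_lit 557089) (nat_lit 12) (.e (nat_lit 164020) (nat_lit 45) (.e (nat_lit 696330) (nat_lit 5) (.e (nat_lit 2878) (nat_lit 184) .nil)))))))) (.g (nat_lit 1) (.e (nat_lit 301074) (nat_lit 0) .nil) .nil))) 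
(.lf (nat_lit 552850) (.g (nat_lit 660) (.e (nat_lit 426130) (nat_lit 3) (.e (nat_lit 204846) (nat_lit 24) (.e (nat_lit 319531) (nat_lit 16) .nil))) (.g (nat_lit 0) (.e (nat_lit 302005) (nat_lit 0) .nil) .nil)))))) (.nd (nat_lit 7) (.nd (nat_lit 8) (.nd (nat_lit 9) 
(.lf (nat_lit 552018) (.g (nat_lit 4283) (.e (nat_lit 426123) (nat_lit 2) (.e (nat_lit 196666) (nat_lit 13) (.e (nat_lit 65617) (nat_lit 10) (.e (nat_lit 344132) (nat_lit 26) (.e (nat_lit 557094) (nat_lit 12) (.e (nat_lit 164022) (nat_lit 46) (.e (nat_lit 704628) (nat_lit 9) (.e (nat_lit 440) (nat_lit 32) .nil)))))))) (.g (nat_lit 1) (.e (nat_lit 299194) (nat_lit 0) .nil) .nil))) 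
(.lf (nat_lit 552530) (.g (nat_lit 3694) (.e (nat_lit 426125) (nat_lit 2) (.e (nat_lit 196666) (nat_lit 13) (.e (nat_lit 65617) (nat_lit 10) (.e (nat_lit 344132) (nat_lit 26) (.e (nat_lit 557094) (nat_lit 12) (.e (nat_lit 163847) (nat_lit 0) (.e (nat_lit 6420) (nat_lit 341) (.e (nat_lit 163909) (nat_lit 12) .nil)))))))) (.g (nat_lit 1) (.e (nat_lit 301360) (nat_lit 0) .nil) .nil)))) 
(.nd (nat_lit 9) 
(.lf (nat_lit 552274) (.g (nat_lit 3422) (.e (nat_lit 426125) (nat_lit 2) (.e (nat_lit 196666) (nat_lit 13) (.e (nat_lit 65610) (nat_lit 10) (.e (nat_lit 344129) (nat_lit 26) (.e (nat_lit 557090) (nat_lit 12) (.e (nat_lit 164019) (nat_lit 45) (.e (nat_lit 696326) (nat_lit 5) (.e (nat_lit 2875) (nat_lit 184) .nil)))))))) (.g (nat_lit 1) (.e (nat_lit 300986) (nat_lit 0) .nil) .nil))) 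
(.lf (nat_lit 552786) (.g (nat_lit 4610) (.e (nat_lit 426129) (nat_lit 3) (.e (nat_lit 204869) (nat_lit 29) (.e (nat_lit 360474) (nat_lit 8) (.e (nat_lit 557089) (nat_lit 12) (.e (nat_lit 163848) (nat_lit 0) .nil))))) (.g (nat_lit 0) (.e (nat_lit 301893) (nat_lit 0) .nil) .nil))))) (.nd (nat_lit 8) (.nd (nat_lit 9) 
(.lf (nat_lit 552146) (.g (nat_lit 4069) (.e (nat_lit 426125) (nat_lit 2) (.e (nat_lit 196666) (nat_lit 13) (.e (nat_lit 65610) (nat_lit 10) (.e (nat_lit 344128) (nat_lit 26) (.e (nat_lit 557090) (nat_lit 12) (.e (nat_lit 164022) (nat_lit 46) (.e (nat_lit 704629) (nat_lit 9) (.e (nat_lit 375) (nat_lit 32) .nil)))))))) (.g (nat_lit 1) (.e (nat_lit 300643) (nat_lit 0) .nil) .nil))) 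
(.lf (nat_lit 552658) (.g (nat_lit 1364) (.e (nat_lit 426125) (nat_lit 2) (.e (nat_lit 196666) (nat_lit 13) (.e (nat_lit 65624) (nat_lit 12) (.e (nat_lit 385068) (nat_lit 26) .nil)))) (.g (nat_lit 0) (.e (nat_lit 301572) (nat_lit 0) .nil) .nil)))) (.nd (nat_lit 9) 
(.lf (nat_lit 552402) (.g (nat_lit 2297) (.e (nat_lit 426125) (nat_lit 2) (.e (nat_lit 196666) (nat_lit 13) (.e (nat_lit 65617) (nat_lit 10) (.e (nat_lit 344130) (nat_lit 26) (.e (nat_lit 557090) (nat_lit 12) (.e (nat_lit 163840) (nat_lit 0) (.e (nat_lit 6418) (nat_lit 341) (.e (nat_lit 163900) (nat_lit 12) .nil)))))))) (.g (nat_lit 1) (.e (nat_lit 301168) (nat_lit 0) .nil) .nil))) 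
(.lf (nat_lit 552914) (.g (nat_lit 640) (.e (nat_lit 426131) (nat_lit 3) (.e (nat_lit 204831) (nat_lit 18) (.e (nat_lit 57659) (nat_lit 152) .nil))) (.g (nat_lit 0) (.e (nat_lit 302106) (nat_lit 0) .nil) .nil))))))) (.nd (nat_lit 6) (.nd (nat_lit 7) (.nd (nat_lit 8) (.nd (nat_lit 9) 
(.lf (nat_lit 551986) (.g (nat_lit 4351) (.e (nat_lit 426123) (nat_lit 2) (.e (nat_lit 196666) (nat_lit 13) (.e (nat_lit 65617) (nat_lit 10) (.e (nat_lit 344132) (nat_lit 26) (.e (nat_lit 557093) (nat_lit 12) (.e (nat_lit 164022) (nat_lit 46) (.e (nat_lit 704628) (nat_lit 9) (.e (nat_lit 436) (nat_lit 32) .nil)))))))) (.g (nat_lit 1) (.e (nat_lit 299131) (nat_lit 0) .nil) .nil))) 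
(.lf (nat_lit 552498) (.g (nat_lit 4010) (.e (nat_lit 426125) (nat_lit 2) (.e (nat_lit 196666) (nat_lit 13) (.e (nat_lit 65617) (nat_lit 10) (.e (nat_lit 344132) (nat_lit 26) (.e (nat_lit 557093) (nat_lit 12) (.e (nat_lit 163847) (nat_lit 0) (.e (nat_lit 6416) (nat_lit 341) (.e (nat_lit 163909) (nat_lit 12) .nil)))))))) (.g (nat_lit 1) (.e (nat_lit 301317) (nat_lit 0) .nil) .nil)))) 
(.nd (nat_lit 9) 
(.lf (nat_lit 552242) (.g (nat_lit 3553) (.e (nat_lit 426125) (nat_lit 2) (.e (nat_lit 196666) (nat_lit 13) (.e (nat_lit 65610) (nat_lit 10) (.e (nat_lit 344129) (nat_lit 26) (.e (nat_lit 557090) (nat_lit 12) (.e (nat_lit 163849) (nat_lit 0) (.e (nat_lit 6416) (nat_lit 341) (.e (nat_lit 163909) (nat_lit 12) .nil)))))))) (.g (nat_lit 1) (.e (nat_lit 300940) (nat_lit 0) .nil) .nil))) 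
(.lf (nat_lit 552754) (.g (nat_lit 1868) (.e (nat_lit 426129) (nat_lit 3) (.e (nat_lit 204861) (nat_lit 26) (.e (nat_lit 336075) (nat_lit 9) (.e (nat_lit 336324) (nat_lit 18) (.e (nat_lit 204838) (nat_lit 20) .nil))))) (.g (nat_lit 0) (.e (nat_lit 301850) (nat_lit 0) .nil) .nil))))) (.nd (nat_lit 8) (.nd (nat_lit 9) 
(.lf (nat_lit 552114) (.g (nat_lit 4096) (.e (nat_lit 426125) (nat_lit 2) (.e (nat_lit 196630) (nat_lit 9) (.e (nat_lit 1598) (nat_lit 111) (.e (nat_lit 360473) (nat_lit 8) (.e (nat_lit 557090) (nat_lit 12) (.e (nat_lit 164020) (nat_lit 45) (.e (nat_lit 696330) (nat_lit 5) (.e (nat_lit 2878) (nat_lit 184) .nil)))))))) (.g (nat_lit 1) (.e (nat_lit 299541) (nat_lit 0) .nil) .nil))) 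
(.lf (nat_lit 552626) (.g (nat_lit 3283) (.e (nat_lit 426125) (nat_lit 2) (.e (nat_lit 196666) (nat_lit 13) (.e (nat_lit 65617) (nat_lit 10) (.e (nat_lit 344133) (nat_lit 26) (.e (nat_lit 557091) (nat_lit 12) (.e (nat_lit 164020) (nat_lit 45) (.e (nat_lit 696330) (nat_lit 5) (.e (nat_lit 2842) (nat_lit 184) .nil)))))))) (.g (nat_lit 1) (.e (nat_lit 301520) (nat_lit 0) .nil) .nil)))) 
(.nd (nat_lit 9) 
(.lf (nat_lit 552370) (.g (nat_lit 6120) (.e (nat_lit 426125) (nat_lit 2) (.e (nat_lit 196666) (nat_lit 13) (.e (nat_lit 65617) (nat_lit 10) (.e (nat_lit 344127) (nat_lit 26) (.e (nat_lit 557090) (nat_lit 12) (.e (nat_lit 164020) (nat_lit 45) (.e (nat_lit 696330) (nat_lit 5) (.e (nat_lit 2878) (nat_lit 184) .nil)))))))) (.g (nat_lit 1) (.e (nat_lit 301122) (nat_lit 0) .nil) .nil))) 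
(.lf (nat_lit 552882) (.g (nat_lit 926) (.e (nat_lit 426131) (nat_lit 3) (.e (nat_lit 204829) (nat_lit 18) (.e (nat_lit 57656) (nat_lit 152) .nil))) (.g (nat_lit 0) (.e (nat_lit 302046) (nat_lit 0) .nil) .nil)))))) (.nd (nat_lit 7) (.nd (nat_lit 8) (.nd (nat_lit 9) 
(.lf (nat_lit 552050) (.g (nat_lit 4744) (.e (nat_lit 426123) (nat_lit 2) (.e (nat_lit 196666) (nat_lit 13) (.e (nat_lit 65617) (nat_lit 10) (.e (nat_lit 344133) (nat_lit 26) (.e (nat_lit 557091) (nat_lit 12) (.e (nat_lit 164022) (nat_lit 46) (.e (nat_lit 704628) (nat_lit 9) (.e (nat_lit 436) (nat_lit 32) .nil)))))))) (.g (nat_lit 1) (.e (nat_lit 299232) (nat_lit 0) .nil) .nil))) 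
(.lf (nat_lit 552562) (.g (nat_lit 4065) (.e (nat_lit 426125) (nat_lit 2) (.e (nat_lit 196666) (nat_lit 13) (.e (nat_lit 65617) (nat_lit 10) (.e (nat_lit 344133) (nat_lit 26) (.e (nat_lit 557089) (nat_lit 12) (.e (nat_lit 163849) (nat_lit 0) (.e (nat_lit 6420) (nat_lit 341) (.e (nat_lit 163909) (nat_lit 12) .nil)))))))) (.g (nat_lit 1) (.e (nat_lit 301412) (nat_lit 0) .nil) .nil)))) 
(.nd (nat_lit 9) 
(.lf (nat_lit 552306) (.g (nat_lit 6716) (.e (nat_lit 426125) (nat_lit 2) (.e (nat_lit 196666) (nat_lit 13) (.e (nat_lit 65610) (nat_lit 10) (.e (nat_lit 344129) (nat_lit 26) (.e (nat_lit 557094) (nat_lit 12) (.e (nat_lit 164022) (nat_lit 46) (.e (nat_lit 704629) (nat_lit 9) (.e (nat_lit 375) (nat_lit 32) .nil)))))))) (.g (nat_lit 1) (.e (nat_lit 301039) (nat_lit 0) .nil) .nil))) 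
(.lf (nat_lit 552818) (.g (nat_lit 3862) (.e (nat_lit 426129) (nat_lit 3) (.e (nat_lit 204869) (nat_lit 29) (.e (nat_lit 360475) (nat_lit 8) (.e (nat_lit 557089) (nat_lit 12) (.e (nat_lit 163850) (nat_lit 0) (.e (nat_lit 6428) (nat_lit 342) (.e (nat_lit 229405) (nat_lit 12) .nil))))))) (.g (nat_lit 1) (.e (nat_lit 301928) (nat_lit 0) .nil) .nil))))) (.nd (nat_lit 8) (.nd (nat_lit 9) 
(.lf (nat_lit 552178) (.g (nat_lit 4334) (.e (nat_lit 426125) (nat_lit 2) (.e (nat_lit 196666) (nat_lit 13) (.e (nat_lit 65610) (nat_lit 10) (.e (nat_lit 344129) (nat_lit 26) (.e (nat_lit 557089) (nat_lit 12) (.e (nat_lit 163849) (nat_lit 0) (.e (nat_lit 6416) (nat_lit 341) (.e (nat_lit 163909) (nat_lit 12) .nil)))))))) (.g (nat_lit 1) (.e (nat_lit 300780) (nat_lit 0) .nil) .nil))) 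
(.lf (nat_lit 552690) (.g (nat_lit 2132) (.e (nat_lit 426129) (nat_lit 3) (.e (nat_lit 204831) (nat_lit 18) (.e (nat_lit 57692) (nat_lit 156) (.e (nat_lit 163905) (nat_lit 12) (.e (nat_lit 426568) (nat_lit 34) (.e (nat_lit 393279) (nat_lit 23) .nil)))))) (.g (nat_lit 1) (.e (nat_lit 301682) (nat_lit 0) .nil) .nil)))) (.nd (nat_lit 9) 
(.lf (nat_lit 552434) (.g (nat_lit 3776) (.e (nat_lit 426125) (nat_lit 2) (.e (nat_lit 196666) (nat_lit 13) (.e (nat_lit 65617) (nat_lit 10) (.e (nat_lit 344130) (nat_lit 26) (.e (nat_lit 557090) (nat_lit 12) (.e (nat_lit 164016) (nat_lit 44) (.e (nat_lit 688140) (nat_lit 5) (.e (nat_lit 2877) (nat_lit 184) .nil)))))))) (.g (nat_lit 1) (.e (nat_lit 301237) (nat_lit 0) .nil) .nil))) 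
(.lf (nat_lit 552946) (.g (nat_lit 1539) (.e (nat_lit 426131) (nat_lit 3) (.e (nat_lit 204846) (nat_lit 24) (.e (nat_lit 319531) (nat_lit 16) (.e (nat_lit 286734) (nat_lit 3) .nil)))) (.g (nat_lit 0) (.e (nat_lit 302148) (nat_lit 0) .nil) .nil))))))))) (.nd (nat_lit 4) (.nd (nat_lit 5) (.nd (nat_lit 6) (.nd (nat_lit 7) (.nd (nat_lit 8) (.nd (nat_lit 9) 
(.lf (nat_lit 551946) (.g (nat_lit 4002) (.e (nat_lit 426123) (nat_lit 2) (.e (nat_lit 196666) (nat_lit 13) (.e (nat_lit 65617) (nat_lit 10) (.e (nat_lit 344130) (nat_lit 26) (.e (nat_lit 557090) (nat_lit 12) (.e (nat_lit 163843) (nat_lit 0) (.e (nat_lit 6421) (nat_lit 341) (.e (nat_lit 171776) (nat_lit 12) .nil)))))))) (.g (nat_lit 1) (.e (nat_lit 299084) (nat_lit 0) .nil) .nil))) 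
(.lf (nat_lit 552458) (.g (nat_lit 5502) (.e (nat_lit 426125) (nat_lit 2) (.e (nat_lit 196666) (nat_lit 13) (.e (nat_lit 65617) (nat_lit 10) (.e (nat_lit 344130) (nat_lit 26) (.e (nat_lit 557090) (nat_lit 12) (.e (nat_lit 164022) (nat_lit 46) (.e (nat_lit 704628) (nat_lit 9) (.e (nat_lit 375) (nat_lit 32) .nil)))))))) (.g (nat_lit 1) (.e (nat_lit 301270) (nat_lit 0) .nil) .nil)))) 
(.nd (nat_lit 9) 
(.lf (nat_lit 552202) (.g (nat_lit 4553) (.e (nat_lit 426125) (nat_lit 2) (.e (nat_lit 196666) (nat_lit 13) (.e (nat_lit 65610) (nat_lit 10) (.e (nat_lit 344129) (nat_lit 26) (.e (nat_lit 557089) (nat_lit 12) (.e (nat_lit 164020) (nat_lit 45) (.e (nat_lit 696329) (nat_lit 5) (.e (nat_lit 2884) (nat_lit 184) .nil)))))))) (.g (nat_lit 1) (.e (nat_lit 300808) (nat_lit 0) .nil) .nil))) 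
(.lf (nat_lit 552714) (.g (nat_lit 2708) (.e (nat_lit 426129) (nat_lit 3) (.e (nat_lit 204846) (nat_lit 24) (.e (nat_lit 319531) (nat_lit 16) (.e (nat_lit 286735) (nat_lit 3) (.e (nat_lit 98363) (nat_lit 26) (.e (nat_lit 426262) (nat_lit 9) .nil)))))) (.g (nat_lit 1) (.e (nat_lit 301725) (nat_lit 0) .nil) .nil))))) (.nd (nat_lit 8) (.nd (nat_lit 9) 
(.lf (nat_lit 552074) (.g (nat_lit 842) (.e (nat_lit 426123) (nat_lit 2) (.e (nat_lit 196672) (nat_lit 15) (.e (nat_lit 81924) (nat_lit 0) (.e (nat_lit 3253) (nat_lit 197) .nil)))) (.g (nat_lit 0) (.e (nat_lit 299274) (nat_lit 0) .nil) .nil))) 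
(.lf (nat_lit 552586) (.g (nat_lit 3460) (.e (nat_lit 426125) (nat_lit 2) (.e (nat_lit 196666) (nat_lit 13) (.e (nat_lit 65617) (nat_lit 10) (.e (nat_lit 344133) (nat_lit 26) (.e (nat_lit 557091) (nat_lit 12) (.e (nat_lit 163840) (nat_lit 0) (.e (nat_lit 6426) (nat_lit 342) (.e (nat_lit 229399) (nat_lit 12) .nil)))))))) (.g (nat_lit 1) (.e (nat_lit 301440) (nat_lit 0) .nil) .nil)))) 
(.nd (nat_lit 9) 
(.lf (nat_lit 552330) (.g (nat_lit 3463) (.e (nat_lit 426125) (nat_lit 2) (.e (nat_lit 196666) (nat_lit 13) (.e (nat_lit 65617) (nat_lit 10) (.e (nat_lit 344127) (nat_lit 26) (.e (nat_lit 557088) (nat_lit 12) (.e (nat_lit 164020) (nat_lit 45) (.e (nat_lit 696330) (nat_lit 5) (.e (nat_lit 2878) (nat_lit 184) .nil)))))))) (.g (nat_lit 1) (.e (nat_lit 301066) (nat_lit 0) .nil) .nil))) 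
(.lf (nat_lit 552842) (.g (nat_lit 1894) (.e (nat_lit 426129) (nat_lit 3) (.e (nat_lit 204885) (nat_lit 33) (.e (nat_lit 401448) (nat_lit 10) (.e (nat_lit 434217) (nat_lit 19) (.e (nat_lit 500056) (nat_lit 17) .nil))))) (.g (nat_lit 0) (.e (nat_lit 301996) (nat_lit 0) .nil) .nil)))))) (.nd (nat_lit 7) (.nd (nat_lit 8) (.nd (nat_lit 9) 
(.lf (nat_lit 552010) (.g (nat_lit 3413) (.e (nat_lit 426123) (nat_lit 2) (.e (nat_lit 196666) (nat_lit 13) (.e (nat_lit 65617) (nat_lit 10) (.e (nat_lit 344132) (nat_lit 26) (.e (nat_lit 557094) (nat_lit 12) (.e (nat_lit 164022) (nat_lit 46) (.e (nat_lit 704626) (nat_lit 9) (.e (nat_lit 436) (nat_lit 32) .nil)))))))) (.g (nat_lit 1) (.e (nat_lit 299186) (nat_lit 0) .nil) .nil))) 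
(.lf (nat_lit 552522) (.g (nat_lit 3271) (.e (nat_lit 426125) (nat_lit 2) (.e (nat_lit 196666) (nat_lit 13) (.e (nat_lit 65617) (nat_lit 10) (.e (nat_lit 344132) (nat_lit 26) (.e (nat_lit 557093) (nat_lit 12) (.e (nat_lit 164023) (nat_lit 46) (.e (nat_lit 704628) (nat_lit 9) (.e (nat_lit 377) (nat_lit 32) .nil)))))))) (.g (nat_lit 1) (.e (nat_lit 301351) (nat_lit 0) .nil) .nil)))) 
(.nd (nat_lit 9) 
(.lf (nat_lit 552266) (.g (nat_lit 3106) (.e (nat_lit 426125) (nat_lit 2) (.e (nat_lit 196666) (nat_lit 13) (.e (nat_lit 65610) (nat_lit 10) (.e (nat_lit 344129) (nat_lit 26) (.e (nat_lit 557090) (nat_lit 12) (.e (nat_lit 164018) (nat_lit 45) (.e (nat_lit 696327) (nat_lit 5) (.e (nat_lit 2876) (nat_lit 184) .nil)))))))) (.g (nat_lit 1) (.e (nat_lit 300978) (nat_lit 0) .nil) .nil))) 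
(.lf (nat_lit 552778) (.g (nat_lit 3398) (.e (nat_lit 426129) (nat_lit 3) (.e (nat_lit 204868) (nat_lit 29) (.e (nat_lit 360475) (nat_lit 8) (.e (nat_lit 557091) (nat_lit 12) (.e (nat_lit 163847) (nat_lit 0) .nil))))) (.g (nat_lit 0) (.e (nat_lit 301884) (nat_lit 0) .nil) .nil))))) (.nd (nat_lit 8) (.nd (nat_lit 9) 
(.lf (nat_lit 552138) (.g (nat_lit 4217) (.e (nat_lit 426125) (nat_lit 2) (.e (nat_lit 196666) (nat_lit 13) (.e (nat_lit 65610) (nat_lit 10) (.e (nat_lit 344117) (nat_lit 21) (.e (nat_lit 524032) (nat_lit 18) (.e (nat_lit 57691) (nat_lit 156) (.e (nat_lit 163911) (nat_lit 12) .nil))))))) (.g (nat_lit 1) (.e (nat_lit 300633) (nat_lit 0) .nil) .nil))) 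
(.lf (nat_lit 552650) (.g (nat_lit 2700) (.e (nat_lit 426125) (nat_lit 2) (.e (nat_lit 196666) (nat_lit 13) (.e (nat_lit 65622) (nat_lit 12) (.e (nat_lit 385066) (nat_lit 26) (.e (nat_lit 532513) (nat_lit 3) (.e (nat_lit 122624) (nat_lit 11) .nil)))))) (.g (nat_lit 1) (.e (nat_lit 301557) (nat_lit 0) .nil) .nil)))) (.nd (nat_lit 9) 
(.lf (nat_lit 552394) (.g (nat_lit 4192) (.e (nat_lit 426125) (nat_lit 2) (.e (nat_lit 196666) (nat_lit 13) (.e (nat_lit 65617) (nat_lit 10) (.e (nat_lit 344130) (nat_lit 26) (.e (nat_lit 557089) (nat_lit 12) (.e (nat_lit 164017) (nat_lit 44) (.e (nat_lit 688141) (nat_lit 5) (.e (nat_lit 2883) (nat_lit 184) .nil)))))))) (.g (nat_lit 1) (.e (nat_lit 301158) (nat_lit 0) .nil) .nil))) 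
(.lf (nat_lit 552906) (.g (nat_lit 2108) (.e (nat_lit 426131) (nat_lit 3) (.e (nat_lit 204829) (nat_lit 18) (.e (nat_lit 57692) (nat_lit 156) (.e (nat_lit 163907) (nat_lit 12) (.e (nat_lit 426494) (nat_lit 27) .nil))))) (.g (nat_lit 0) (.e (nat_lit 302081) (nat_lit 0) .nil) .nil))))))) (.nd (nat_lit 6) (.nd (nat_lit 7) (.nd (nat_lit 8) (.nd (nat_lit 9) 
(.lf (nat_lit 551978) (.g (nat_lit 4239) (.e (nat_lit 426123) (nat_lit 2) (.e (nat_lit 196666) (nat_lit 13) (.e (nat_lit 65617) (nat_lit 10) (.e (nat_lit 344132) (nat_lit 26) (.e (nat_lit 557093) (nat_lit 12) (.e (nat_lit 164022) (nat_lit 46) (.e (nat_lit 704626) (nat_lit 9) (.e (nat_lit 416) (nat_lit 32) .nil)))))))) (.g (nat_lit 1) (.e (nat_lit 299123) (nat_lit 0) .nil) .nil))) 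
(.lf (nat_lit 552490) (.g (nat_lit 2479) (.e (nat_lit 426125) (nat_lit 2) (.e (nat_lit 196666) (nat_lit 13) (.e (nat_lit 65617) (nat_lit 10) (.e (nat_lit 344132) (nat_lit 26) (.e (nat_lit 557091) (nat_lit 12) (.e (nat_lit 164020) (nat_lit 45) (.e (nat_lit 696330) (nat_lit 5) (.e (nat_lit 2842) (nat_lit 184) .nil)))))))) (.g (nat_lit 1) (.e (nat_lit 301308) (nat_lit 0) .nil) .nil)))) 
(.nd (nat_lit 9) 
(.lf (nat_lit 552234) (.g (nat_lit 2585) (.e (nat_lit 426125) (nat_lit 2) (.e (nat_lit 196666) (nat_lit 13) (.e (nat_lit 65610) (nat_lit 10) (.e (nat_lit 344129) (nat_lit 26) (.e (nat_lit 557090) (nat_lit 12) (.e (nat_lit 163844) (nat_lit 0) (.e (nat_lit 6421) (nat_lit 341) (.e (nat_lit 171776) (nat_lit 12) .nil)))))))) (.g (nat_lit 1) (.e (nat_lit 300900) (nat_lit 0) .nil) .nil))) 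
(.lf (nat_lit 552746) (.g (nat_lit 2382) (.e (nat_lit 426129) (nat_lit 3) (.e (nat_lit 204852) (nat_lit 26) (.e (nat_lit 343808) (nat_lit 9) (.e (nat_lit 336324) (nat_lit 18) (.e (nat_lit 204837) (nat_lit 20) (.e (nat_lit 114695) (nat_lit 11) .nil)))))) (.g (nat_lit 1) (.e (nat_lit 301783) (nat_lit 0) .nil) .nil))))) (.nd (nat_lit 8) (.nd (nat_lit 9) 
(.lf (nat_lit 552106) (.g (nat_lit 2710) (.e (nat_lit 426124) (nat_lit 2) (.e (nat_lit 196681) (nat_lit 17) (.e (nat_lit 131109) (nat_lit 9) (.e (nat_lit 336324) (nat_lit 18) (.e (nat_lit 204837) (nat_lit 20) (.e (nat_lit 122624) (nat_lit 11) .nil)))))) (.g (nat_lit 1) (.e (nat_lit 299489) (nat_lit 0) .nil) .nil))) 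
(.lf (nat_lit 552618) (.g (nat_lit 2626) (.e (nat_lit 426125) (nat_lit 2) (.e (nat_lit 196666) (nat_lit 13) (.e (nat_lit 65617) (nat_lit 10) (.e (nat_lit 344133) (nat_lit 26) (.e (nat_lit 557091) (nat_lit 12) (.e (nat_lit 164019) (nat_lit 45) (.e (nat_lit 696327) (nat_lit 5) (.e (nat_lit 2884) (nat_lit 184) .nil)))))))) (.g (nat_lit 1) (.e (nat_lit 301512) (nat_lit 0) .nil) .nil)))) 
(.nd (nat_lit 9) 
(.lf (nat_lit 552362) (.g (nat_lit 3312) (.e (nat_lit 426125) (nat_lit 2) (.e (nat_lit 196666) (nat_lit 13) (.e (nat_lit 65617) (nat_lit 10) (.e (nat_lit 344127) (nat_lit 26) (.e (nat_lit 557090) (nat_lit 12) (.e (nat_lit 164018) (nat_lit 45) (.e (nat_lit 696328) (nat_lit 5) (.e (nat_lit 2884) (nat_lit 184) .nil)))))))) (.g (nat_lit 1) (.e (nat_lit 301114) (nat_lit 0) .nil) .nil))) 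
(.lf (nat_lit 552874) (.g (nat_lit 3719) (.e (nat_lit 426130) (nat_lit 3) (.e (nat_lit 204869) (nat_lit 29) (.e (nat_lit 360475) (nat_lit 8) (.e (nat_lit 557091) (nat_lit 12) .nil)))) (.g (nat_lit 0) (.e (nat_lit 302031) (nat_lit 0) .nil) .nil)))))) (.nd (nat_lit 7) (.nd (nat_lit 8) (.nd (nat_lit 9) 
(.lf (nat_lit 552042) (.g (nat_lit 4237) (.e (nat_lit 426123) (nat_lit 2) (.e (nat_lit 196666) (nat_lit 13) (.e (nat_lit 65617) (nat_lit 10) (.e (nat_lit 344133) (nat_lit 26) (.e (nat_lit 557091) (nat_lit 12) (.e (nat_lit 164022) (nat_lit 46) (.e (nat_lit 704627) (nat_lit 9) (.e (nat_lit 391) (nat_lit 32) .nil)))))))) (.g (nat_lit 1) (.e (nat_lit 299224) (nat_lit 0) .nil) .nil))) 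
(.lf (nat_lit 552554) (.g (nat_lit 3118) (.e (nat_lit 426125) (nat_lit 2) (.e (nat_lit 196666) (nat_lit 13) (.e (nat_lit 65617) (nat_lit 10) (.e (nat_lit 344133) (nat_lit 26) (.e (nat_lit 557069) (nat_lit 9) (.e (nat_lit 2612) (nat_lit 163) (.e (nat_lit 164187) (nat_lit 157) (.e (nat_lit 229399) (nat_lit 12) .nil)))))))) (.g (nat_lit 1) (.e (nat_lit 301391) (nat_lit 0) .nil) .nil)))) 
(.nd (nat_lit 9) 
(.lf (nat_lit 552298) (.g (nat_lit 3945) (.e (nat_lit 426125) (nat_lit 2) (.e (nat_lit 196666) (nat_lit 13) (.e (nat_lit 65610) (nat_lit 10) (.e (nat_lit 344129) (nat_lit 26) (.e (nat_lit 557090) (nat_lit 12) (.e (nat_lit 171776) (nat_lit 49) (.e (nat_lit 737024) (nat_lit 11) .nil))))))) (.g (nat_lit 1) (.e (nat_lit 301031) (nat_lit 0) .nil) .nil))) 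
(.lf (nat_lit 552810) (.g (nat_lit 2909) (.e (nat_lit 426129) (nat_lit 3) (.e (nat_lit 204869) (nat_lit 29) (.e (nat_lit 360474) (nat_lit 8) (.e (nat_lit 557094) (nat_lit 12) (.e (nat_lit 171776) (nat_lit 48) (.e (nat_lit 720907) (nat_lit 11) .nil)))))) (.g (nat_lit 1) (.e (nat_lit 301917) (nat_lit 0) .nil) .nil))))) (.nd (nat_lit 8) (.nd (nat_lit 9) 
(.lf (nat_lit 552170) (.g (nat_lit 4452) (.e (nat_lit 426125) (nat_lit 2) (.e (nat_lit 196666) (nat_lit 13) (.e (nat_lit 65610) (nat_lit 10) (.e (nat_lit 344129) (nat_lit 26) (.e (nat_lit 557089) (nat_lit 12) (.e (nat_lit 163844) (nat_lit 0) (.e (nat_lit 6420) (nat_lit 341) (.e (nat_lit 163900) (nat_lit 12) .nil)))))))) (.g (nat_lit 1) (.e (nat_lit 300749) (nat_lit 0) .nil) .nil))) 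
(.lf (nat_lit 552682) (.g (nat_lit 524) (.e (nat_lit 426129) (nat_lit 3) (.e (nat_lit 204830) (nat_lit 18) (.e (nat_lit 57665) (nat_lit 152) .nil))) (.g (nat_lit 0) (.e (nat_lit 301656) (nat_lit 0) .nil) .nil)))) (.nd (nat_lit 9) 
(.lf (nat_lit 552426) (.g (nat_lit 4406) (.e (nat_lit 426125) (nat_lit 2) (.e (nat_lit 196666) (nat_lit 13) (.e (nat_lit 65617) (nat_lit 10) (.e (nat_lit 344130) (nat_lit 26) (.e (nat_lit 557090) (nat_lit 12) (.e (nat_lit 163849) (nat_lit 0) (.e (nat_lit 6416) (nat_lit 341) (.e (nat_lit 163909) (nat_lit 12) .nil)))))))) (.g (nat_lit 1) (.e (nat_lit 301227) (nat_lit 0) .nil) .nil))) 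
(.lf (nat_lit 552938) (.g (nat_lit 2289) (.e (nat_lit 426131) (nat_lit 3) (.e (nat_lit 204846) (nat_lit 24) (.e (nat_lit 319529) (nat_lit 16) (.e (nat_lit 286733) (nat_lit 2) (.e (nat_lit 90185) (nat_lit 17) .nil))))) (.g (nat_lit 0) (.e (nat_lit 302139) (nat_lit 0) .nil) .nil)))))))) (.nd (nat_lit 5) (.nd (nat_lit 6) (.nd (nat_lit 7) (.nd (nat_lit 8) (.nd (nat_lit 9) 
(.lf (nat_lit 551962) (.g (nat_lit 4196) (.e (nat_lit 426123) (nat_lit 2) (.e (nat_lit 196666) (nat_lit 13) (.e (nat_lit 65617) (nat_lit 10) (.e (nat_lit 344130) (nat_lit 26) (.e (nat_lit 557090) (nat_lit 12) (.e (nat_lit 164022) (nat_lit 46) (.e (nat_lit 704628) (nat_lit 9) (.e (nat_lit 398) (nat_lit 32) .nil)))))))) (.g (nat_lit 1) (.e (nat_lit 299104) (nat_lit 0) .nil) .nil))) 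
(.lf (nat_lit 552474) (.g (nat_lit 2925) (.e (nat_lit 426125) (nat_lit 2) (.e (nat_lit 196666) (nat_lit 13) (.e (nat_lit 65617) (nat_lit 10) (.e (nat_lit 344132) (nat_lit 26) (.e (nat_lit 557089) (nat_lit 12) (.e (nat_lit 164020) (nat_lit 45) (.e (nat_lit 696328) (nat_lit 5) (.e (nat_lit 2884) (nat_lit 184) .nil)))))))) (.g (nat_lit 1) (.e (nat_lit 301292) (nat_lit 0) .nil) .nil)))) 
(.nd (nat_lit 9) 
(.lf (nat_lit 552218) (.g (nat_lit 2389) (.e (nat_lit 426125) (nat_lit 2) (.e (nat_lit 196666) (nat_lit 13) (.e (nat_lit 65610) (nat_lit 10) (.e (nat_lit 344129) (nat_lit 26) (.e (nat_lit 557090) (nat_lit 12) (.e (nat_lit 163840) (nat_lit 0) (.e (nat_lit 6428) (nat_lit 342) (.e (nat_lit 229399) (nat_lit 12) .nil)))))))) (.g (nat_lit 1) (.e (nat_lit 300832) (nat_lit 0) .nil) .nil))) 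
(.lf (nat_lit 552730) (.g (nat_lit 2900) (.e (nat_lit 426129) (nat_lit 3) (.e (nat_lit 204846) (nat_lit 24) (.e (nat_lit 319533) (nat_lit 16) (.e (nat_lit 286735) (nat_lit 3) (.e (nat_lit 106240) (nat_lit 26) (.e (nat_lit 426260) (nat_lit 9) .nil)))))) (.g (nat_lit 1) (.e (nat_lit 301751) (nat_lit 0) .nil) .nil))))) (.nd (nat_lit 8) (.nd (nat_lit 9) 
(.lf (nat_lit 552090) (.g (nat_lit 169) (.e (nat_lit 426124) (nat_lit 2) (.e (nat_lit 196673) (nat_lit 15) (.e (nat_lit 89856) (nat_lit 3) .nil))) (.g (nat_lit 0) (.e (nat_lit 299441) (nat_lit 0) .nil) .nil))) 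
(.lf (nat_lit 552602) (.g (nat_lit 3830) (.e (nat_lit 426125) (nat_lit 2) (.e (nat_lit 196666) (nat_lit 13) (.e (nat_lit 65617) (nat_lit 10) (.e (nat_lit 344133) (nat_lit 26) (.e (nat_lit 557091) (nat_lit 12) (.e (nat_lit 163849) (nat_lit 0) (.e (nat_lit 6420) (nat_lit 341) (.e (nat_lit 163909) (nat_lit 12) .nil)))))))) (.g (nat_lit 1) (.e (nat_lit 301489) (nat_lit 0) .nil) .nil)))) 
(.nd (nat_lit 9) 
(.lf (nat_lit 552346) (.g (nat_lit 4530) (.e (nat_lit 426125) (nat_lit 2) (.e (nat_lit 196666) (nat_lit 13) (.e (nat_lit 65617) (nat_lit 10) (.e (nat_lit 344127) (nat_lit 26) (.e (nat_lit 557090) (nat_lit 12) (.e (nat_lit 163844) (nat_lit 0) (.e (nat_lit 6420) (nat_lit 341) (.e (nat_lit 163900) (nat_lit 12) .nil)))))))) (.g (nat_lit 1) (.e (nat_lit 301095) (nat_lit 0) .nil) .nil))) 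
(.lf (nat_lit 552858) (.g (nat_lit 2640) (.e (nat_lit 426130) (nat_lit 3) (.e (nat_lit 204846) (nat_lit 24) (.e (nat_lit 319534) (nat_lit 16) (.e (nat_lit 286735) (nat_lit 3) (.e (nat_lit 98365) (nat_lit 26) .nil))))) (.g (nat_lit 0) (.e (nat_lit 302014) (nat_lit 0) .nil) .nil)))))) (.nd (nat_lit 7) (.nd (nat_lit 8) (.nd (nat_lit 9) 
(.lf (nat_lit 552026) (.g (nat_lit 3245) (.e (nat_lit 426123) (nat_lit 2) (.e (nat_lit 196666) (nat_lit 13) (.e (nat_lit 65617) (nat_lit 10) (.e (nat_lit 344133) (nat_lit 26) (.e (nat_lit 557089) (nat_lit 12) (.e (nat_lit 163849) (nat_lit 0) (.e (nat_lit 6421) (nat_lit 341) (.e (nat_lit 171776) (nat_lit 12) .nil)))))))) (.g (nat_lit 1) (.e (nat_lit 299203) (nat_lit 0) .nil) .nil))) 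
(.lf (nat_lit 552538) (.g (nat_lit 3420) (.e (nat_lit 426125) (nat_lit 2) (.e (nat_lit 196666) (nat_lit 13) (.e (nat_lit 65617) (nat_lit 10) (.e (nat_lit 344132) (nat_lit 26) (.e (nat_lit 557094) (nat_lit 12) (.e (nat_lit 164016) (nat_lit 44) (.e (nat_lit 688138) (nat_lit 5) (.e (nat_lit 2883) (nat_lit 184) .nil)))))))) (.g (nat_lit 1) (.e (nat_lit 301371) (nat_lit 0) .nil) .nil)))) 
(.nd (nat_lit 9) 
(.lf (nat_lit 552282) (.g (nat_lit 2083) (.e (nat_lit 426125) (nat_lit 2) (.e (nat_lit 196666) (nat_lit 13) (.e (nat_lit 65610) (nat_lit 10) (.e (nat_lit 344129) (nat_lit 26) (.e (nat_lit 557090) (nat_lit 12) (.e (nat_lit 164019) (nat_lit 45) (.e (nat_lit 696330) (nat_lit 5) (.e (nat_lit 2878) (nat_lit 184) .nil)))))))) (.g (nat_lit 1) (.e (nat_lit 300994) (nat_lit 0) .nil) .nil))) 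
(.lf (nat_lit 552794) (.g (nat_lit 5231) (.e (nat_lit 426129) (nat_lit 3) (.e (nat_lit 204869) (nat_lit 29) (.e (nat_lit 360474) (nat_lit 8) (.e (nat_lit 557091) (nat_lit 12) (.e (nat_lit 163850) (nat_lit 0) (.e (nat_lit 6428) (nat_lit 342) (.e (nat_lit 229405) (nat_lit 12) .nil))))))) (.g (nat_lit 1) (.e (nat_lit 301901) (nat_lit 0) .nil) .nil))))) (.nd (nat_lit 8) (.nd (nat_lit 9) 
(.lf (nat_lit 552154) (.g (nat_lit 2280) (.e (nat_lit 426125) (nat_lit 2) (.e (nat_lit 196666) (nat_lit 13) (.e (nat_lit 65610) (nat_lit 10) (.e (nat_lit 344129) (nat_lit 26) (.e (nat_lit 557074) (nat_lit 9) (.e (nat_lit 2607) (nat_lit 163) (.e (nat_lit 164190) (nat_lit 157) (.e (nat_lit 229399) (nat_lit 12) .nil)))))))) (.g (nat_lit 1) (.e (nat_lit 300676) (nat_lit 0) .nil) .nil))) 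
(.lf (nat_lit 552666) (.g (nat_lit 1761) (.e (nat_lit 426126) (nat_lit 2) (.e (nat_lit 196681) (nat_lit 17) (.e (nat_lit 131105) (nat_lit 9) (.e (nat_lit 336324) (nat_lit 18) (.e (nat_lit 204838) (nat_lit 20) .nil))))) (.g (nat_lit 0) (.e (nat_lit 301592) (nat_lit 0) .nil) .nil)))) (.nd (nat_lit 9) 
(.lf (nat_lit 552410) (.g (nat_lit 5186) (.e (nat_lit 426125) (nat_lit 2) (.e (nat_lit 196666) (nat_lit 13) (.e (nat_lit 65617) (nat_lit 10) (.e (nat_lit 344130) (nat_lit 26) (.e (nat_lit 557090) (nat_lit 12) (.e (nat_lit 163843) (nat_lit 0) (.e (nat_lit 6421) (nat_lit 341) (.e (nat_lit 163909) (nat_lit 12) .nil)))))))) (.g (nat_lit 1) (.e (nat_lit 301192) (nat_lit 0) .nil) .nil))) 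
(.lf (nat_lit 552922) (.g (nat_lit 1073) (.e (nat_lit 426131) (nat_lit 3) (.e (nat_lit 204831) (nat_lit 18) (.e (nat_lit 57692) (nat_lit 156) (.e (nat_lit 163906) (nat_lit 12) .nil)))) (.g (nat_lit 0) (.e (nat_lit 302120) (nat_lit 0) .nil) .nil))))))) (.nd (nat_lit 6) (.nd (nat_lit 7) (.nd (nat_lit 8) (.nd (nat_lit 9) 
(.lf (nat_lit 551994) (.g (nat_lit 5201) (.e (nat_lit 426123) (nat_lit 2) (.e (nat_lit 196666) (nat_lit 13) (.e (nat_lit 65617) (nat_lit 10) (.e (nat_lit 344132) (nat_lit 26) (.e (nat_lit 557093) (nat_lit 12) (.e (nat_lit 164022) (nat_lit 46) (.e (nat_lit 704629) (nat_lit 9) (.e (nat_lit 435) (nat_lit 32) .nil)))))))) (.g (nat_lit 1) (.e (nat_lit 299139) (nat_lit 0) .nil) .nil))) 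
(.lf (nat_lit 552506) (.g (nat_lit 2268) (.e (nat_lit 426125) (nat_lit 2) (.e (nat_lit 196666) (nat_lit 13) (.e (nat_lit 65617) (nat_lit 10) (.e (nat_lit 344132) (nat_lit 26) (.e (nat_lit 557093) (nat_lit 12) (.e (nat_lit 163854) (nat_lit 0) (.e (nat_lit 6425) (nat_lit 342) (.e (nat_lit 229399) (nat_lit 12) .nil)))))))) (.g (nat_lit 1) (.e (nat_lit 301331) (nat_lit 0) .nil) .nil)))) 
(.nd (nat_lit 9) 
(.lf (nat_lit 552250) (.g (nat_lit 4568) (.e (nat_lit 426125) (nat_lit 2) (.e (nat_lit 196666) (nat_lit 13) (.e (nat_lit 65610) (nat_lit 10) (.e (nat_lit 344129) (nat_lit 26) (.e (nat_lit 557090) (nat_lit 12) (.e (nat_lit 163850) (nat_lit 0) (.e (nat_lit 6427) (nat_lit 342) (.e (nat_lit 229399) (nat_lit 12) .nil)))))))) (.g (nat_lit 1) (.e (nat_lit 300954) (nat_lit 0) .nil) .nil))) 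
(.lf (nat_lit 552762) (.g (nat_lit 1534) (.e (nat_lit 426129) (nat_lit 3) (.e (nat_lit 204865) (nat_lit 28) (.e (nat_lit 352262) (nat_lit 0) (.e (nat_lit 3253) (nat_lit 197) (.e (nat_lit 532515) (nat_lit 3) (.e (nat_lit 114696) (nat_lit 11) .nil)))))) (.g (nat_lit 1) (.e (nat_lit 301861) (nat_lit 0) .nil) .nil))))) (.nd (nat_lit 8) (.nd (nat_lit 9) 
(.lf (nat_lit 552122) (.g (nat_lit 2394) (.e (nat_lit 426125) (nat_lit 2) (.e (nat_lit 196661) (nat_lit 12) (.e (nat_lit 57750) (nat_lit 201) (.e (nat_lit 2856) (nat_lit 184) (.e (nat_lit 426392) (nat_lit 15) .nil))))) (.g (nat_lit 0) (.e (nat_lit 299584) (nat_lit 0) .nil) .nil))) 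
(.lf (nat_lit 552634) (.g (nat_lit 5564) (.e (nat_lit 426125) (nat_lit 2) (.e (nat_lit 196666) (nat_lit 13) (.e (nat_lit 65617) (nat_lit 10) (.e (nat_lit 344133) (nat_lit 26) (.e (nat_lit 557091) (nat_lit 12) (.e (nat_lit 164022) (nat_lit 46) (.e (nat_lit 704628) (nat_lit 9) (.e (nat_lit 375) (nat_lit 32) .nil)))))))) (.g (nat_lit 1) (.e (nat_lit 301536) (nat_lit 0) .nil) .nil)))) 
(.nd (nat_lit 9) 
(.lf (nat_lit 552378) (.g (nat_lit 2354) (.e (nat_lit 426125) (nat_lit 2) (.e (nat_lit 196666) (nat_lit 13) (.e (nat_lit 65617) (nat_lit 10) (.e (nat_lit 344130) (nat_lit 26) (.e (nat_lit 557065) (nat_lit 9) (.e (nat_lit 2612) (nat_lit 163) (.e (nat_lit 164188) (nat_lit 157) (.e (nat_lit 229399) (nat_lit 12) .nil)))))))) (.g (nat_lit 1) (.e (nat_lit 301130) (nat_lit 0) .nil) .nil))) 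
(.lf (nat_lit 552890) (.g (nat_lit 1981) (.e (nat_lit 426131) (nat_lit 3) (.e (nat_lit 204829) (nat_lit 18) (.e (nat_lit 57688) (nat_lit 156) (.e (nat_lit 163903) (nat_lit 12) (.e (nat_lit 426481) (nat_lit 27) .nil))))) (.g (nat_lit 0) (.e (nat_lit 302056) (nat_lit 0) .nil) .nil)))))) (.nd (nat_lit 7) (.nd (nat_lit 8) (.nd (nat_lit 9) 
(.lf (nat_lit 552058) (.g (nat_lit 5501) (.e (nat_lit 426123) (nat_lit 2) (.e (nat_lit 196666) (nat_lit 13) (.e (nat_lit 65617) (nat_lit 10) (.e (nat_lit 344133) (nat_lit 26) (.e (nat_lit 557091) (nat_lit 12) (.e (nat_lit 164022) (nat_lit 46) (.e (nat_lit 704629) (nat_lit 9) (.e (nat_lit 435) (nat_lit 32) .nil)))))))) (.g (nat_lit 1) (.e (nat_lit 299240) (nat_lit 0) .nil) .nil))) 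
(.lf (nat_lit 552570) (.g (nat_lit 3723) (.e (nat_lit 426125) (nat_lit 2) (.e (nat_lit 196666) (nat_lit 13) (.e (nat_lit 65617) (nat_lit 10) (.e (nat_lit 344133) (nat_lit 26) (.e (nat_lit 557089) (nat_lit 12) (.e (nat_lit 164020) (nat_lit 45) (.e (nat_lit 696327) (nat_lit 5) (.e (nat_lit 2878) (nat_lit 184) .nil)))))))) (.g (nat_lit 1) (.e (nat_lit 301422) (nat_lit 0) .nil) .nil)))) 
(.nd (nat_lit 9) 
(.lf (nat_lit 552314) (.g (nat_lit 1745) (.e (nat_lit 426125) (nat_lit 2) (.e (nat_lit 196666) (nat_lit 13) (.e (nat_lit 65610) (nat_lit 10) (.e (nat_lit 344133) (nat_lit 26) .nil)))) (.g (nat_lit 0) (.e (nat_lit 301048) (nat_lit 0) .nil) .nil))) 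
(.lf (nat_lit 552826) (.g (nat_lit 3056) (.e (nat_lit 426129) (nat_lit 3) (.e (nat_lit 204869) (nat_lit 29) (.e (nat_lit 360475) (nat_lit 8) (.e (nat_lit 557091) (nat_lit 12) (.e (nat_lit 163850) (nat_lit 0) .nil))))) (.g (nat_lit 0) (.e (nat_lit 301936) (nat_lit 0) .nil) .nil))))) (.nd (nat_lit 8) (.nd (nat_lit 9) 
(.lf (nat_lit 552186) (.g (nat_lit 2534) (.e (nat_lit 426125) (nat_lit 2) (.e (nat_lit 196666) (nat_lit 13) (.e (nat_lit 65610) (nat_lit 10) (.e (nat_lit 344129) (nat_lit 26) (.e (nat_lit 557089) (nat_lit 12) (.e (nat_lit 163850) (nat_lit 0) (.e (nat_lit 6427) (nat_lit 342) (.e (nat_lit 229399) (nat_lit 12) .nil)))))))) (.g (nat_lit 1) (.e (nat_lit 300788) (nat_lit 0) .nil) .nil))) 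
(.lf (nat_lit 552698) (.g (nat_lit 1631) (.e (nat_lit 426129) (nat_lit 3) (.e (nat_lit 204838) (nat_lit 20) (.e (nat_lit 114719) (nat_lit 23) (.e (nat_lit 98332) (nat_lit 18) .nil)))) (.g (nat_lit 0) (.e (nat_lit 301692) (nat_lit 0) .nil) .nil)))) (.nd (nat_lit 9) 
(.lf (nat_lit 552442) (.g (nat_lit 2404) (.e (nat_lit 426125) (nat_lit 2) (.e (nat_lit 196666) (nat_lit 13) (.e (nat_lit 65617) (nat_lit 10) (.e (nat_lit 344130) (nat_lit 26) (.e (nat_lit 557090) (nat_lit 12) (.e (nat_lit 164019) (nat_lit 45) (.e (nat_lit 696328) (nat_lit 5) (.e (nat_lit 2884) (nat_lit 184) .nil)))))))) (.g (nat_lit 1) (.e (nat_lit 301250) (nat_lit 0) .nil) .nil))) 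
(.lf (nat_lit 552954) (.g (nat_lit 3676) (.e (nat_lit 426131) (nat_lit 3) (.e (nat_lit 204846) (nat_lit 24) (.e (nat_lit 319532) (nat_lit 16) (.e (nat_lit 286732) (nat_lit 2) (.e (nat_lit 90185) (nat_lit 17) (.e (nat_lit 237605) (nat_lit 9) .nil)))))) (.g (nat_lit 1) (.e (nat_lit 302156) (nat_lit 0) .nil) .nil)))))))))) 
(.nd (nat_lit 3) (.nd (nat_lit 4) (.nd (nat_lit 5) (.nd (nat_lit 6) (.nd (nat_lit 7) 
(.nd (nat_lit 8) (.nd (nat_lit 9) 
(.lf (nat_lit 551942) (.g (nat_lit 2998) (.e (nat_lit 426123) (nat_lit 2) (.e (nat_lit 196666) (nat_lit 13) (.e (nat_lit 65617) (nat_lit 10) (.e (nat_lit 344130) (nat_lit 26) (.e (nat_lit 557089) (nat_lit 12) (.e (nat_lit 163844) (nat_lit 0) (.e (nat_lit 6421) (nat_lit 341) (.e (nat_lit 171776) (nat_lit 12) .nil)))))))) (.g (nat_lit 1) (.e (nat_lit 299080) (nat_lit 0) .nil) .nil))) 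
(.lf (nat_lit 552454) (.g (nat_lit 4010) (.e (nat_lit 426125) (nat_lit 2) (.e (nat_lit 196666) (nat_lit 13) (.e (nat_lit 65617) (nat_lit 10) (.e (nat_lit 344130) (nat_lit 26) (.e (nat_lit 557090) (nat_lit 12) (.e (nat_lit 164022) (nat_lit 46) (.e (nat_lit 704627) (nat_lit 9) (.e (nat_lit 370) (nat_lit 32) .nil)))))))) (.g (nat_lit 1) (.e (nat_lit 301266) (nat_lit 0) .nil) .nil)))) 
(.nd (nat_lit 9) 
(.lf (nat_lit 552198) (.g (nat_lit 4639) (.e (nat_lit 426125) (nat_lit 2) (.e (nat_lit 196666) (nat_lit 13) (.e (nat_lit 65610) (nat_lit 10) (.e (nat_lit 344129) (nat_lit 26) (.e (nat_lit 557089) (nat_lit 12) (.e (nat_lit 164020) (nat_lit 45) (.e (nat_lit 696327) (nat_lit 5) (.e (nat_lit 2884) (nat_lit 184) .nil)))))))) (.g (nat_lit 1) (.e (nat_lit 300804) (nat_lit 0) .nil) .nil))) 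
(.lf (nat_lit 552710) (.g (nat_lit 1249) (.e (nat_lit 426129) (nat_lit 3) (.e (nat_lit 204846) (nat_lit 24) (.e (nat_lit 319531) (nat_lit 16) (.e (nat_lit 286735) (nat_lit 3) .nil)))) (.g (nat_lit 0) (.e (nat_lit 301721) (nat_lit 0) .nil) .nil))))) (.nd (nat_lit 8) (.nd (nat_lit 9) 
(.lf (nat_lit 552070) (.g (nat_lit 1369) (.e (nat_lit 426123) (nat_lit 2) (.e (nat_lit 196666) (nat_lit 13) (.e (nat_lit 65624) (nat_lit 12) (.e (nat_lit 385068) (nat_lit 26) .nil)))) (.g (nat_lit 0) (.e (nat_lit 299264) (nat_lit 0) .nil) .nil))) 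
(.lf (nat_lit 552582) (.g (nat_lit 3213) (.e (nat_lit 426125) (nat_lit 2) (.e (nat_lit 196666) (nat_lit 13) (.e (nat_lit 65617) (nat_lit 10) (.e (nat_lit 344133) (nat_lit 26) (.e (nat_lit 557091) (nat_lit 12) (.e (nat_lit 163840) (nat_lit 0) (.e (nat_lit 6416) (nat_lit 341) (.e (nat_lit 163909) (nat_lit 12) .nil)))))))) (.g (nat_lit 1) (.e (nat_lit 301436) (nat_lit 0) .nil) .nil)))) 
(.nd (nat_lit 9) 
(.lf (nat_lit 552326) (.g (nat_lit 3067) (.e (nat_lit 426125) (nat_lit 2) (.e (nat_lit 196666) (nat_lit 13) (.e (nat_lit 65617) (nat_lit 10) (.e (nat_lit 344127) (nat_lit 26) (.e (nat_lit 557088) (nat_lit 12) (.e (nat_lit 164018) (nat_lit 45) (.e (nat_lit 696330) (nat_lit 5) (.e (nat_lit 2884) (nat_lit 184) .nil)))))))) (.g (nat_lit 1) (.e (nat_lit 301062) (nat_lit 0) .nil) .nil))) 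
(.lf (nat_lit 552838) (.g (nat_lit 2279) (.e (nat_lit 426129) (nat_lit 3) (.e (nat_lit 204877) (nat_lit 31) (.e (nat_lit 376835) (nat_lit 0) (.e (nat_lit 3253) (nat_lit 197) (.e (nat_lit 532513) (nat_lit 3) (.e (nat_lit 114696) (nat_lit 11) .nil)))))) (.g (nat_lit 1) (.e (nat_lit 301950) (nat_lit 0) .nil) .nil)))))) (.nd (nat_lit 7) (.nd (nat_lit 8) (.nd (nat_lit 9) 
(.lf (nat_lit 552006) (.g (nat_lit 3026) (.e (nat_lit 426123) (nat_lit 2) (.e (nat_lit 196666) (nat_lit 13) (.e (nat_lit 65617) (nat_lit 10) (.e (nat_lit 344132) (nat_lit 26) (.e (nat_lit 557093) (nat_lit 12) (.e (nat_lit 171776) (nat_lit 49) (.e (nat_lit 737024) (nat_lit 11) .nil))))))) (.g (nat_lit 1) (.e (nat_lit 299181) (nat_lit 0) .nil) .nil))) 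
(.lf (nat_lit 552518) (.g (nat_lit 4334) (.e (nat_lit 426125) (nat_lit 2) (.e (nat_lit 196666) (nat_lit 13) (.e (nat_lit 65617) (nat_lit 10) (.e (nat_lit 344132) (nat_lit 26) (.e (nat_lit 557093) (nat_lit 12) (.e (nat_lit 164022) (nat_lit 46) (.e (nat_lit 704629) (nat_lit 9) (.e (nat_lit 377) (nat_lit 32) .nil)))))))) (.g (nat_lit 1) (.e (nat_lit 301347) (nat_lit 0) .nil) .nil)))) 
(.nd (nat_lit 9) 
(.lf (nat_lit 552262) (.g (nat_lit 3099) (.e (nat_lit 426125) (nat_lit 2) (.e (nat_lit 196666) (nat_lit 13) (.e (nat_lit 65610) (nat_lit 10) (.e (nat_lit 344129) (nat_lit 26) (.e (nat_lit 557090) (nat_lit 12) (.e (nat_lit 164018) (nat_lit 45) (.e (nat_lit 696326) (nat_lit 5) (.e (nat_lit 2881) (nat_lit 184) .nil)))))))) (.g (nat_lit 1) (.e (nat_lit 300974) (nat_lit 0) .nil) .nil))) 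
(.lf (nat_lit 552774) (.g (nat_lit 3626) (.e (nat_lit 426129) (nat_lit 3) (.e (nat_lit 204868) (nat_lit 29) (.e (nat_lit 360475) (nat_lit 8) (.e (nat_lit 557089) (nat_lit 12) (.e (nat_lit 163849) (nat_lit 0) .nil))))) (.g (nat_lit 0) (.e (nat_lit 301880) (nat_lit 0) .nil) .nil))))) (.nd (nat_lit 8) (.nd (nat_lit 9) 
(.lf (nat_lit 552134) (.g (nat_lit 2321) (.e (nat_lit 426125) (nat_lit 2) (.e (nat_lit 196666) (nat_lit 13) (.e (nat_lit 65610) (nat_lit 10) (.e (nat_lit 344117) (nat_lit 21) (.e (nat_lit 524032) (nat_lit 18) .nil))))) (.g (nat_lit 0) (.e (nat_lit 300620) (nat_lit 0) .nil) .nil))) 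
(.lf (nat_lit 552646) (.g (nat_lit 2756) (.e (nat_lit 426125) (nat_lit 2) (.e (nat_lit 196666) (nat_lit 13) (.e (nat_lit 65617) (nat_lit 10) (.e (nat_lit 344133) (nat_lit 26) (.e (nat_lit 557094) (nat_lit 12) .nil))))) (.g (nat_lit 0) (.e (nat_lit 301551) (nat_lit 0) .nil) .nil)))) (.nd (nat_lit 9) 
(.lf (nat_lit 552390) (.g (nat_lit 5216) (.e (nat_lit 426125) (nat_lit 2) (.e (nat_lit 196666) (nat_lit 13) (.e (nat_lit 65617) (nat_lit 10) (.e (nat_lit 344130) (nat_lit 26) (.e (nat_lit 557089) (nat_lit 12) (.e (nat_lit 163850) (nat_lit 0) (.e (nat_lit 6425) (nat_lit 342) (.e (nat_lit 229399) (nat_lit 12) .nil)))))))) (.g (nat_lit 1) (.e (nat_lit 301153) (nat_lit 0) .nil) .nil))) 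
(.lf (nat_lit 552902) (.g (nat_lit 2295) (.e (nat_lit 426131) (nat_lit 3) (.e (nat_lit 204829) (nat_lit 18) (.e (nat_lit 57692) (nat_lit 156) (.e (nat_lit 163907) (nat_lit 12) (.e (nat_lit 426481) (nat_lit 27) (.e (nat_lit 336385) (nat_lit 27) (.e (nat_lit 426199) (nat_lit 9) .nil))))))) (.g (nat_lit 1) (.e (nat_lit 302077) (nat_lit 0) .nil) .nil))))))) 
(.nd (nat_lit 6) (.nd (nat_lit 7) (.nd (nat_lit 8) (.nd (nat_lit 9) 
(.lf (nat_lit 551974) (.g (nat_lit 3315) (.e (nat_lit 426123) (nat_lit 2) (.e (nat_lit 196666) (nat_lit 13) (.e (nat_lit 65617) (nat_lit 10) (.e (nat_lit 344132) (nat_lit 26) (.e (nat_lit 557093) (nat_lit 12) (.e (nat_lit 163849) (nat_lit 0) (.e (nat_lit 6421) (nat_lit 341) (.e (nat_lit 171776) (nat_lit 12) .nil)))))))) (.g (nat_lit 1) (.e (nat_lit 299118) (nat_lit 0) .nil) .nil))) 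
(.lf (nat_lit 552486) (.g (nat_lit 3504) (.e (nat_lit 426125) (nat_lit 2) (.e (nat_lit 196666) (nat_lit 13) (.e (nat_lit 65617) (nat_lit 10) (.e (nat_lit 344132) (nat_lit 26) (.e (nat_lit 557091) (nat_lit 12) (.e (nat_lit 164020) (nat_lit 45) (.e (nat_lit 696327) (nat_lit 5) (.e (nat_lit 2878) (nat_lit 184) .nil)))))))) (.g (nat_lit 1) (.e (nat_lit 301304) (nat_lit 0) .nil) .nil)))) 
(.nd (nat_lit 9) 
(.lf (nat_lit 552230) (.g (nat_lit 4211) (.e (nat_lit 426125) (nat_lit 2) (.e (nat_lit 196666) (nat_lit 13) (.e (nat_lit 65610) (nat_lit 10) (.e (nat_lit 344129) (nat_lit 26) (.e (nat_lit 557090) (nat_lit 12) (.e (nat_lit 163844) (nat_lit 0) (.e (nat_lit 6420) (nat_lit 341) (.e (nat_lit 163900) (nat_lit 12) .nil)))))))) (.g (nat_lit 1) (.e (nat_lit 300896) (nat_lit 0) .nil) .nil))) 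
(.lf (nat_lit 552742) (.g (nat_lit 2518) (.e (nat_lit 426129) (nat_lit 3) (.e (nat_lit 204846) (nat_lit 24) (.e (nat_lit 319534) (nat_lit 16) (.e (nat_lit 286735) (nat_lit 3) (.e (nat_lit 106240) (nat_lit 26) .nil))))) (.g (nat_lit 0) (.e (nat_lit 301773) (nat_lit 0) .nil) .nil))))) (.nd (nat_lit 8) (.nd (nat_lit 9) 
(.lf (nat_lit 552102) (.g (nat_lit 3140) (.e (nat_lit 426124) (nat_lit 2) (.e (nat_lit 196681) (nat_lit 17) (.e (nat_lit 131105) (nat_lit 9) (.e (nat_lit 336324) (nat_lit 18) (.e (nat_lit 204838) (nat_lit 20) (.e (nat_lit 114697) (nat_lit 11) .nil)))))) (.g (nat_lit 1) (.e (nat_lit 299472) (nat_lit 0) .nil) .nil))) 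
(.lf (nat_lit 552614) (.g (nat_lit 2286) (.e (nat_lit 426125) (nat_lit 2) (.e (nat_lit 196666) (nat_lit 13) (.e (nat_lit 65617) (nat_lit 10) (.e (nat_lit 344133) (nat_lit 26) (.e (nat_lit 557091) (nat_lit 12) (.e (nat_lit 164018) (nat_lit 45) (.e (nat_lit 696327) (nat_lit 5) (.e (nat_lit 2842) (nat_lit 184) .nil)))))))) (.g (nat_lit 1) (.e (nat_lit 301508) (nat_lit 0) .nil) .nil)))) 
(.nd (nat_lit 9) 
(.lf (nat_lit 552358) (.g (nat_lit 3775) (.e (nat_lit 426125) (nat_lit 2) (.e (nat_lit 196666) (nat_lit 13) (.e (nat_lit 65617) (nat_lit 10) (.e (nat_lit 344127) (nat_lit 26) (.e (nat_lit 557090) (nat_lit 12) (.e (nat_lit 164017) (nat_lit 44) (.e (nat_lit 688139) (nat_lit 5) (.e (nat_lit 2883) (nat_lit 184) .nil)))))))) (.g (nat_lit 1) (.e (nat_lit 301109) (nat_lit 0) .nil) .nil))) 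
(.lf (nat_lit 552870) (.g (nat_lit 4393) (.e (nat_lit 426130) (nat_lit 3) (.e (nat_lit 204869) (nat_lit 29) (.e (nat_lit 360475) (nat_lit 8) (.e (nat_lit 557089) (nat_lit 12) (.e (nat_lit 164017) (nat_lit 44) .nil))))) (.g (nat_lit 0) (.e (nat_lit 302027) (nat_lit 0) .nil) .nil)))))) (.nd (nat_lit 7) (.nd (nat_lit 8) (.nd (nat_lit 9) 
(.lf (nat_lit 552038) (.g (nat_lit 4036) (.e (nat_lit 426123) (nat_lit 2) (.e (nat_lit 196666) (nat_lit 13) (.e (nat_lit 65617) (nat_lit 10) (.e (nat_lit 344133) (nat_lit 26) (.e (nat_lit 557091) (nat_lit 12) (.e (nat_lit 164022) (nat_lit 46) (.e (nat_lit 704626) (nat_lit 9) (.e (nat_lit 436) (nat_lit 32) .nil)))))))) (.g (nat_lit 1) (.e (nat_lit 299220) (nat_lit 0) .nil) .nil))) 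
(.lf (nat_lit 552550) (.g (nat_lit 2042) (.e (nat_lit 426125) (nat_lit 2) (.e (nat_lit 196666) (nat_lit 13) (.e (nat_lit 65617) (nat_lit 10) (.e (nat_lit 344133) (nat_lit 26) (.e (nat_lit 557065) (nat_lit 9) .nil))))) (.g (nat_lit 0) (.e (nat_lit 301387) (nat_lit 0) .nil) .nil)))) (.nd (nat_lit 9) 
(.lf (nat_lit 552294) (.g (nat_lit 2605) (.e (nat_lit 426125) (nat_lit 2) (.e (nat_lit 196666) (nat_lit 13) (.e (nat_lit 65610) (nat_lit 10) (.e (nat_lit 344129) (nat_lit 26) (.e (nat_lit 557090) (nat_lit 12) (.e (nat_lit 171776) (nat_lit 46) (.e (nat_lit 704627) (nat_lit 9) (.e (nat_lit 375) (nat_lit 32) .nil)))))))) (.g (nat_lit 1) (.e (nat_lit 301026) (nat_lit 0) .nil) .nil))) 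
(.lf (nat_lit 552806) (.g (nat_lit 2521) (.e (nat_lit 426129) (nat_lit 3) (.e (nat_lit 204869) (nat_lit 29) (.e (nat_lit 360474) (nat_lit 8) (.e (nat_lit 557094) (nat_lit 12) (.e (nat_lit 164022) (nat_lit 46) .nil))))) (.g (nat_lit 0) (.e (nat_lit 301913) (nat_lit 0) .nil) .nil))))) (.nd (nat_lit 8) (.nd (nat_lit 9) 
(.lf (nat_lit 552166) (.g (nat_lit 2350) (.e (nat_lit 426125) (nat_lit 2) (.e (nat_lit 196666) (nat_lit 13) (.e (nat_lit 65610) (nat_lit 10) (.e (nat_lit 344129) (nat_lit 26) (.e (nat_lit 557089) (nat_lit 12) (.e (nat_lit 163843) (nat_lit 0) (.e (nat_lit 6421) (nat_lit 341) (.e (nat_lit 171776) (nat_lit 12) .nil)))))))) (.g (nat_lit 1) (.e (nat_lit 300725) (nat_lit 0) .nil) .nil))) 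
(.lf (nat_lit 552678) (.g (nat_lit 2676) (.e (nat_lit 426129) (nat_lit 3) (.e (nat_lit 204829) (nat_lit 18) (.e (nat_lit 57688) (nat_lit 156) (.e (nat_lit 163903) (nat_lit 12) (.e (nat_lit 426566) (nat_lit 34) (.e (nat_lit 393279) (nat_lit 23) .nil)))))) (.g (nat_lit 1) (.e (nat_lit 301645) (nat_lit 0) .nil) .nil)))) (.nd (nat_lit 9) 
(.lf (nat_lit 552422) (.g (nat_lit 4179) (.e (nat_lit 426125) (nat_lit 2) (.e (nat_lit 196666) (nat_lit 13) (.e (nat_lit 65617) (nat_lit 10) (.e (nat_lit 344130) (nat_lit 26) (.e (nat_lit 557090) (nat_lit 12) (.e (nat_lit 163847) (nat_lit 0) (.e (nat_lit 6421) (nat_lit 341) (.e (nat_lit 163909) (nat_lit 12) .nil)))))))) (.g (nat_lit 1) (.e (nat_lit 301222) (nat_lit 0) .nil) .nil))) 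
(.lf (nat_lit 552934) (.g (nat_lit 2819) (.e (nat_lit 426131) (nat_lit 3) (.e (nat_lit 204845) (nat_lit 24) (.e (nat_lit 319531) (nat_lit 16) (.e (nat_lit 286733) (nat_lit 2) (.e (nat_lit 90183) (nat_lit 17) .nil))))) (.g (nat_lit 0) (.e (nat_lit 302135) (nat_lit 0) .nil) .nil)))))))) (.nd (nat_lit 5) (.nd (nat_lit 6) (.nd (nat_lit 7) (.nd (nat_lit 8) (.nd (nat_lit 9) 
(.lf (nat_lit 551958) (.g (nat_lit 3801) (.e (nat_lit 426123) (nat_lit 2) (.e (nat_lit 196666) (nat_lit 13) (.e (nat_lit 65617) (nat_lit 10) (.e (nat_lit 344130) (nat_lit 26) (.e (nat_lit 557090) (nat_lit 12) (.e (nat_lit 164022) (nat_lit 46) (.e (nat_lit 704627) (nat_lit 9) (.e (nat_lit 440) (nat_lit 32) .nil)))))))) (.g (nat_lit 1) (.e (nat_lit 299100) (nat_lit 0) .nil) .nil))) 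
(.lf (nat_lit 552470) (.g (nat_lit 2446) (.e (nat_lit 426125) (nat_lit 2) (.e (nat_lit 196666) (nat_lit 13) (.e (nat_lit 65617) (nat_lit 10) (.e (nat_lit 344132) (nat_lit 26) (.e (nat_lit 557089) (nat_lit 12) .nil))))) (.g (nat_lit 0) (.e (nat_lit 301287) (nat_lit 0) .nil) .nil)))) (.nd (nat_lit 9) 
(.lf (nat_lit 552214) (.g (nat_lit 1656) (.e (nat_lit 426125) (nat_lit 2) (.e (nat_lit 196666) (nat_lit 13) (.e (nat_lit 65610) (nat_lit 10) (.e (nat_lit 344129) (nat_lit 26) (.e (nat_lit 557090) (nat_lit 12) .nil))))) (.g (nat_lit 0) (.e (nat_lit 300822) (nat_lit 0) .nil) .nil))) 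
(.lf (nat_lit 552726) (.g (nat_lit 2154) (.e (nat_lit 426129) (nat_lit 3) (.e (nat_lit 204846) (nat_lit 24) (.e (nat_lit 319533) (nat_lit 16) (.e (nat_lit 286735) (nat_lit 3) (.e (nat_lit 98363) (nat_lit 26) .nil))))) (.g (nat_lit 0) (.e (nat_lit 301747) (nat_lit 0) .nil) .nil))))) (.nd (nat_lit 8) (.nd (nat_lit 9) 
(.lf (nat_lit 552086) (.g (nat_lit 3276) (.e (nat_lit 426124) (nat_lit 2) (.e (nat_lit 196656) (nat_lit 11) (.e (nat_lit 16416) (nat_lit 3) (.e (nat_lit 204813) (nat_lit 9) (.e (nat_lit 426139) (nat_lit 3) (.e (nat_lit 204808) (nat_lit 9) .nil)))))) (.g (nat_lit 1) (.e (nat_lit 299332) (nat_lit 0) .nil) .nil))) 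
(.lf (nat_lit 552598) (.g (nat_lit 3376) (.e (nat_lit 426125) (nat_lit 2) (.e (nat_lit 196666) (nat_lit 13) (.e (nat_lit 65617) (nat_lit 10) (.e (nat_lit 344133) (nat_lit 26) (.e (nat_lit 557091) (nat_lit 12) (.e (nat_lit 163847) (nat_lit 0) (.e (nat_lit 6418) (nat_lit 341) (.e (nat_lit 163909) (nat_lit 12) .nil)))))))) (.g (nat_lit 1) (.e (nat_lit 301484) (nat_lit 0) .nil) .nil)))) 
(.nd (nat_lit 9) 
(.lf (nat_lit 552342) (.g (nat_lit 5078) (.e (nat_lit 426125) (nat_lit 2) (.e (nat_lit 196666) (nat_lit 13) (.e (nat_lit 65617) (nat_lit 10) (.e (nat_lit 344127) (nat_lit 26) (.e (nat_lit 557090) (nat_lit 12) (.e (nat_lit 163843) (nat_lit 0) (.e (nat_lit 6421) (nat_lit 341) (.e (nat_lit 163900) (nat_lit 12) .nil)))))))) (.g (nat_lit 1) (.e (nat_lit 301085) (nat_lit 0) .nil) .nil))) 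
(.lf (nat_lit 552854) (.g (nat_lit 2395) (.e (nat_lit 426130) (nat_lit 3) (.e (nat_lit 204846) (nat_lit 24) (.e (nat_lit 319533) (nat_lit 16) (.e (nat_lit 286732) (nat_lit 2) (.e (nat_lit 90184) (nat_lit 17) .nil))))) (.g (nat_lit 0) (.e (nat_lit 302009) (nat_lit 0) .nil) .nil)))))) (.nd (nat_lit 7) (.nd (nat_lit 8) (.nd (nat_lit 9) 
(.lf (nat_lit 552022) (.g (nat_lit 4976) (.e (nat_lit 426123) (nat_lit 2) (.e (nat_lit 196666) (nat_lit 13) (.e (nat_lit 65617) (nat_lit 10) (.e (nat_lit 344132) (nat_lit 26) (.e (nat_lit 557094) (nat_lit 12) (.e (nat_lit 164022) (nat_lit 46) (.e (nat_lit 704629) (nat_lit 9) (.e (nat_lit 416) (nat_lit 32) .nil)))))))) (.g (nat_lit 1) (.e (nat_lit 299198) (nat_lit 0) .nil) .nil))) 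
(.lf (nat_lit 552534) (.g (nat_lit 2433) (.e (nat_lit 426125) (nat_lit 2) (.e (nat_lit 196666) (nat_lit 13) (.e (nat_lit 65617) (nat_lit 10) (.e (nat_lit 344132) (nat_lit 26) (.e (nat_lit 557094) (nat_lit 12) (.e (nat_lit 163849) (nat_lit 0) (.e (nat_lit 6418) (nat_lit 341) (.e (nat_lit 163900) (nat_lit 12) .nil)))))))) (.g (nat_lit 1) (.e (nat_lit 301366) (nat_lit 0) .nil) .nil)))) 
(.nd (nat_lit 9) 
(.lf (nat_lit 552278) (.g (nat_lit 3318) (.e (nat_lit 426125) (nat_lit 2) (.e (nat_lit 196666) (nat_lit 13) (.e (nat_lit 65610) (nat_lit 10) (.e (nat_lit 344129) (nat_lit 26) (.e (nat_lit 557090) (nat_lit 12) (.e (nat_lit 164019) (nat_lit 45) (.e (nat_lit 696326) (nat_lit 5) (.e (nat_lit 2886) (nat_lit 184) .nil)))))))) (.g (nat_lit 1) (.e (nat_lit 300990) (nat_lit 0) .nil) .nil))) 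
(.lf (nat_lit 552790) (.g (nat_lit 5062) (.e (nat_lit 426129) (nat_lit 3) (.e (nat_lit 204869) (nat_lit 29) (.e (nat_lit 360474) (nat_lit 8) (.e (nat_lit 557091) (nat_lit 12) (.e (nat_lit 163841) (nat_lit 0) .nil))))) (.g (nat_lit 0) (.e (nat_lit 301897) (nat_lit 0) .nil) .nil))))) (.nd (nat_lit 8) (.nd (nat_lit 9) 
(.lf (nat_lit 552150) (.g (nat_lit 2562) (.e (nat_lit 426125) (nat_lit 2) (.e (nat_lit 196666) (nat_lit 13) (.e (nat_lit 65610) (nat_lit 10) (.e (nat_lit 344129) (nat_lit 26) (.e (nat_lit 557065) (nat_lit 9) (.e (nat_lit 2615) (nat_lit 163) (.e (nat_lit 164190) (nat_lit 157) (.e (nat_lit 229399) (nat_lit 12) .nil)))))))) (.g (nat_lit 1) (.e (nat_lit 300649) (nat_lit 0) .nil) .nil))) 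
(.lf (nat_lit 552662) (.g (nat_lit 2782) (.e (nat_lit 426125) (nat_lit 2) (.e (nat_lit 196681) (nat_lit 17) (.e (nat_lit 131109) (nat_lit 9) (.e (nat_lit 336324) (nat_lit 18) (.e (nat_lit 204838) (nat_lit 20) (.e (nat_lit 122624) (nat_lit 11) .nil)))))) (.g (nat_lit 1) (.e (nat_lit 301583) (nat_lit 0) .nil) .nil)))) (.nd (nat_lit 9) 
(.lf (nat_lit 552406) (.g (nat_lit 2127) (.e (nat_lit 426125) (nat_lit 2) (.e (nat_lit 196666) (nat_lit 13) (.e (nat_lit 65617) (nat_lit 10) (.e (nat_lit 344130) (nat_lit 26) (.e (nat_lit 557090) (nat_lit 12) (.e (nat_lit 163840) (nat_lit 0) (.e (nat_lit 6428) (nat_lit 342) (.e (nat_lit 229399) (nat_lit 12) .nil)))))))) (.g (nat_lit 1) (.e (nat_lit 301172) (nat_lit 0) .nil) .nil))) 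
(.lf (nat_lit 552918) (.g (nat_lit 2932) (.e (nat_lit 426131) (nat_lit 3) (.e (nat_lit 204831) (nat_lit 18) (.e (nat_lit 57688) (nat_lit 156) (.e (nat_lit 163907) (nat_lit 12) (.e (nat_lit 426566) (nat_lit 34) (.e (nat_lit 393273) (nat_lit 23) .nil)))))) (.g (nat_lit 1) (.e (nat_lit 302113) (nat_lit 0) .nil) .nil))))))) (.nd (nat_lit 6) (.nd (nat_lit 7) (.nd (nat_lit 8) (.nd (nat_lit 9) 
(.lf (nat_lit 551990) (.g (nat_lit 3889) (.e (nat_lit 426123) (nat_lit 2) (.e (nat_lit 196666) (nat_lit 13) (.e (nat_lit 65617) (nat_lit 10) (.e (nat_lit 344132) (nat_lit 26) (.e (nat_lit 557093) (nat_lit 12) (.e (nat_lit 164022) (nat_lit 46) (.e (nat_lit 704629) (nat_lit 9) (.e (nat_lit 398) (nat_lit 32) .nil)))))))) (.g (nat_lit 1) (.e (nat_lit 299135) (nat_lit 0) .nil) .nil))) 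
(.lf (nat_lit 552502) (.g (nat_lit 2884) (.e (nat_lit 426125) (nat_lit 2) (.e (nat_lit 196666) (nat_lit 13) (.e (nat_lit 65617) (nat_lit 10) (.e (nat_lit 344132) (nat_lit 26) (.e (nat_lit 557093) (nat_lit 12) (.e (nat_lit 163849) (nat_lit 0) (.e (nat_lit 6418) (nat_lit 341) (.e (nat_lit 163900) (nat_lit 12) .nil)))))))) (.g (nat_lit 1) (.e (nat_lit 301327) (nat_lit 0) .nil) .nil)))) 
(.nd (nat_lit 9) 
(.lf (nat_lit 552246) (.g (nat_lit 2027) (.e (nat_lit 426125) (nat_lit 2) (.e (nat_lit 196666) (nat_lit 13) (.e (nat_lit 65610) (nat_lit 10) (.e (nat_lit 344129) (nat_lit 26) (.e (nat_lit 557090) (nat_lit 12) (.e (nat_lit 163849) (nat_lit 0) (.e (nat_lit 6421) (nat_lit 341) (.e (nat_lit 171776) (nat_lit 12) .nil)))))))) (.g (nat_lit 1) (.e (nat_lit 300944) (nat_lit 0) .nil) .nil))) 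
(.lf (nat_lit 552758) (.g (nat_lit 1688) (.e (nat_lit 426129) (nat_lit 3) (.e (nat_lit 204861) (nat_lit 26) (.e (nat_lit 336076) (nat_lit 9) (.e (nat_lit 336326) (nat_lit 18) .nil)))) (.g (nat_lit 0) (.e (nat_lit 301854) (nat_lit 0) .nil) .nil))))) (.nd (nat_lit 8) (.nd (nat_lit 9) 
(.lf (nat_lit 552118) (.g (nat_lit 3615) (.e (nat_lit 426125) (nat_lit 2) (.e (nat_lit 196661) (nat_lit 12) (.e (nat_lit 57749) (nat_lit 201) (.e (nat_lit 2936) (nat_lit 184) (.e (nat_lit 426401) (nat_lit 15) (.e (nat_lit 1858) (nat_lit 124) (.e (nat_lit 557101) (nat_lit 13) (.e (nat_lit 172097) (nat_lit 9) .nil)))))))) (.g (nat_lit 1) (.e (nat_lit 299580) (nat_lit 0) .nil) .nil))) 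
(.lf (nat_lit 552630) (.g (nat_lit 3909) (.e (nat_lit 426125) (nat_lit 2) (.e (nat_lit 196666) (nat_lit 13) (.e (nat_lit 65617) (nat_lit 10) (.e (nat_lit 344133) (nat_lit 26) (.e (nat_lit 557091) (nat_lit 12) (.e (nat_lit 164022) (nat_lit 46) (.e (nat_lit 704626) (nat_lit 9) (.e (nat_lit 414) (nat_lit 32) .nil)))))))) (.g (nat_lit 1) (.e (nat_lit 301532) (nat_lit 0) .nil) .nil)))) 
(.nd (nat_lit 9) 
(.lf (nat_lit 552374) (.g (nat_lit 2960) (.e (nat_lit 426125) (nat_lit 2) (.e (nat_lit 196666) (nat_lit 13) (.e (nat_lit 65617) (nat_lit 10) (.e (nat_lit 344127) (nat_lit 26) (.e (nat_lit 557093) (nat_lit 12) (.e (nat_lit 164022) (nat_lit 46) (.e (nat_lit 704629) (nat_lit 9) (.e (nat_lit 375) (nat_lit 32) .nil)))))))) (.g (nat_lit 1) (.e (nat_lit 301126) (nat_lit 0) .nil) .nil))) 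
(.lf (nat_lit 552886) (.g (nat_lit 502) (.e (nat_lit 426131) (nat_lit 3) (.e (nat_lit 204829) (nat_lit 18) (.e (nat_lit 57660) (nat_lit 152) .nil))) (.g (nat_lit 0) (.e (nat_lit 302050) (nat_lit 0) .nil) .nil)))))) (.nd (nat_lit 7) (.nd (nat_lit 8) (.nd (nat_lit 9) 
(.lf (nat_lit 552054) (.g (nat_lit 4194) (.e (nat_lit 426123) (nat_lit 2) (.e (nat_lit 196666) (nat_lit 13) (.e (nat_lit 65617) (nat_lit 10) (.e (nat_lit 344133) (nat_lit 26) (.e (nat_lit 557091) (nat_lit 12) (.e (nat_lit 164022) (nat_lit 46) (.e (nat_lit 704629) (nat_lit 9) (.e (nat_lit 398) (nat_lit 32) .nil)))))))) (.g (nat_lit 1) (.e (nat_lit 299236) (nat_lit 0) .nil) .nil))) 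
(.lf (nat_lit 552566) (.g (nat_lit 3007) (.e (nat_lit 426125) (nat_lit 2) (.e (nat_lit 196666) (nat_lit 13) (.e (nat_lit 65617) (nat_lit 10) (.e (nat_lit 344133) (nat_lit 26) (.e (nat_lit 557089) (nat_lit 12) (.e (nat_lit 163853) (nat_lit 0) (.e (nat_lit 6428) (nat_lit 342) (.e (nat_lit 229399) (nat_lit 12) .nil)))))))) (.g (nat_lit 1) (.e (nat_lit 301416) (nat_lit 0) .nil) .nil)))) 
(.nd (nat_lit 9) 
(.lf (nat_lit 552310) (.g (nat_lit 4854) (.e (nat_lit 426125) (nat_lit 2) (.e (nat_lit 196666) (nat_lit 13) (.e (nat_lit 65610) (nat_lit 10) (.e (nat_lit 344131) (nat_lit 26) (.e (nat_lit 557094) (nat_lit 12) (.e (nat_lit 164022) (nat_lit 46) (.e (nat_lit 704629) (nat_lit 9) (.e (nat_lit 375) (nat_lit 32) .nil)))))))) (.g (nat_lit 1) (.e (nat_lit 301044) (nat_lit 0) .nil) .nil))) 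
(.lf (nat_lit 552822) (.g (nat_lit 6232) (.e (nat_lit 426129) (nat_lit 3) (.e (nat_lit 204869) (nat_lit 29) (.e (nat_lit 360475) (nat_lit 8) (.e (nat_lit 557090) (nat_lit 12) (.e (nat_lit 163843) (nat_lit 0) (.e (nat_lit 6421) (nat_lit 341) (.e (nat_lit 163913) (nat_lit 12) .nil))))))) (.g (nat_lit 1) (.e (nat_lit 301932) (nat_lit 0) .nil) .nil))))) (.nd (nat_lit 8) (.nd (nat_lit 9) 
(.lf (nat_lit 552182) (.g (nat_lit 3057) (.e (nat_lit 426125) (nat_lit 2) (.e (nat_lit 196666) (nat_lit 13) (.e (nat_lit 65610) (nat_lit 10) (.e (nat_lit 344129) (nat_lit 26) (.e (nat_lit 557089) (nat_lit 12) (.e (nat_lit 163849) (nat_lit 0) (.e (nat_lit 6421) (nat_lit 341) (.e (nat_lit 163909) (nat_lit 12) .nil)))))))) (.g (nat_lit 1) (.e (nat_lit 300784) (nat_lit 0) .nil) .nil))) 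
(.lf (nat_lit 552694) (.g (nat_lit 748) (.e (nat_lit 426129) (nat_lit 3) (.e (nat_lit 204837) (nat_lit 20) (.e (nat_lit 114718) (nat_lit 23) .nil))) (.g (nat_lit 0) (.e (nat_lit 301688) (nat_lit 0) .nil) .nil)))) (.nd (nat_lit 9) 
(.lf (nat_lit 552438) (.g (nat_lit 3755) (.e (nat_lit 426125) (nat_lit 2) (.e (nat_lit 196666) (nat_lit 13) (.e (nat_lit 65617) (nat_lit 10) (.e (nat_lit 344130) (nat_lit 26) (.e (nat_lit 557090) (nat_lit 12) (.e (nat_lit 164017) (nat_lit 44) (.e (nat_lit 688141) (nat_lit 5) (.e (nat_lit 2883) (nat_lit 184) .nil)))))))) (.g (nat_lit 1) (.e (nat_lit 301246) (nat_lit 0) .nil) .nil))) 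
(.lf (nat_lit 552950) (.g (nat_lit 2214) (.e (nat_lit 426131) (nat_lit 3) (.e (nat_lit 204846) (nat_lit 24) (.e (nat_lit 319531) (nat_lit 16) (.e (nat_lit 286735) (nat_lit 3) (.e (nat_lit 98365) (nat_lit 26) .nil))))) (.g (nat_lit 0) (.e (nat_lit 302152) (nat_lit 0) .nil) .nil))))))))) (.nd (nat_lit 4) (.nd (nat_lit 5) (.nd (nat_lit 6) (.nd (nat_lit 7) (.nd (nat_lit 8) (.nd (nat_lit 9) 
(.lf (nat_lit 551950) (.g (nat_lit 3022) (.e (nat_lit 426123) (nat_lit 2) (.e (nat_lit 196666) (nat_lit 13) (.e (nat_lit 65617) (nat_lit 10) (.e (nat_lit 344130) (nat_lit 26) (.e (nat_lit 557090) (nat_lit 12) (.e (nat_lit 163850) (nat_lit 0) (.e (nat_lit 6425) (nat_lit 342) (.e (nat_lit 237312) (nat_lit 12) .nil)))))))) (.g (nat_lit 1) (.e (nat_lit 299088) (nat_lit 0) .nil) .nil))) 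
(.lf (nat_lit 552462) (.g (nat_lit 3289) (.e (nat_lit 426125) (nat_lit 2) (.e (nat_lit 196666) (nat_lit 13) (.e (nat_lit 65617) (nat_lit 10) (.e (nat_lit 344130) (nat_lit 26) (.e (nat_lit 557090) (nat_lit 12) (.e (nat_lit 171776) (nat_lit 48) (.e (nat_lit 728832) (nat_lit 11) .nil))))))) (.g (nat_lit 1) (.e (nat_lit 301278) (nat_lit 0) .nil) .nil)))) (.nd (nat_lit 9) 
(.lf (nat_lit 552206) (.g (nat_lit 4742) (.e (nat_lit 426125) (nat_lit 2) (.e (nat_lit 196666) (nat_lit 13) (.e (nat_lit 65610) (nat_lit 10) (.e (nat_lit 344129) (nat_lit 26) (.e (nat_lit 557089) (nat_lit 12) (.e (nat_lit 164020) (nat_lit 45) (.e (nat_lit 696330) (nat_lit 5) (.e (nat_lit 2884) (nat_lit 184) .nil)))))))) (.g (nat_lit 1) (.e (nat_lit 300812) (nat_lit 0) .nil) .nil))) 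
(.lf (nat_lit 552718) (.g (nat_lit 2465) (.e (nat_lit 426129) (nat_lit 3) (.e (nat_lit 204846) (nat_lit 24) (.e (nat_lit 319533) (nat_lit 16) (.e (nat_lit 286732) (nat_lit 2) (.e (nat_lit 90184) (nat_lit 17) (.e (nat_lit 237610) (nat_lit 9) .nil)))))) (.g (nat_lit 1) (.e (nat_lit 301734) (nat_lit 0) .nil) .nil))))) (.nd (nat_lit 8) (.nd (nat_lit 9) 
(.lf (nat_lit 552078) (.g (nat_lit 813) (.e (nat_lit 426123) (nat_lit 2) (.e (nat_lit 196681) (nat_lit 17) (.e (nat_lit 131120) (nat_lit 12) (.e (nat_lit 385068) (nat_lit 26) .nil)))) (.g (nat_lit 0) (.e (nat_lit 299279) (nat_lit 0) .nil) .nil))) 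
(.lf (nat_lit 552590) (.g (nat_lit 2442) (.e (nat_lit 426125) (nat_lit 2) (.e (nat_lit 196666) (nat_lit 13) (.e (nat_lit 65617) (nat_lit 10) (.e (nat_lit 344133) (nat_lit 26) (.e (nat_lit 557091) (nat_lit 12) (.e (nat_lit 163841) (nat_lit 0) (.e (nat_lit 6421) (nat_lit 341) (.e (nat_lit 163900) (nat_lit 12) .nil)))))))) (.g (nat_lit 1) (.e (nat_lit 301444) (nat_lit 0) .nil) .nil)))) 
(.nd (nat_lit 9) 
(.lf (nat_lit 552334) (.g (nat_lit 1880) (.e (nat_lit 426125) (nat_lit 2) (.e (nat_lit 196666) (nat_lit 13) (.e (nat_lit 65617) (nat_lit 10) (.e (nat_lit 344127) (nat_lit 26) (.e (nat_lit 557089) (nat_lit 12) (.e (nat_lit 164017) (nat_lit 44) (.e (nat_lit 688139) (nat_lit 5) (.e (nat_lit 2883) (nat_lit 184) .nil)))))))) (.g (nat_lit 1) (.e (nat_lit 301070) (nat_lit 0) .nil) .nil))) 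
(.lf (nat_lit 552846) (.g (nat_lit 1066) (.e (nat_lit 426129) (nat_lit 3) (.e (nat_lit 204885) (nat_lit 33) (.e (nat_lit 401448) (nat_lit 10) (.e (nat_lit 434246) (nat_lit 28) .nil)))) (.g (nat_lit 0) (.e (nat_lit 302000) (nat_lit 0) .nil) .nil)))))) (.nd (nat_lit 7) (.nd (nat_lit 8) (.nd (nat_lit 9) 
(.lf (nat_lit 552014) (.g (nat_lit 3320) (.e (nat_lit 426123) (nat_lit 2) (.e (nat_lit 196666) (nat_lit 13) (.e (nat_lit 65617) (nat_lit 10) (.e (nat_lit 344132) (nat_lit 26) (.e (nat_lit 557094) (nat_lit 12) (.e (nat_lit 164022) (nat_lit 46) (.e (nat_lit 704627) (nat_lit 9) (.e (nat_lit 440) (nat_lit 32) .nil)))))))) (.g (nat_lit 1) (.e (nat_lit 299190) (nat_lit 0) .nil) .nil))) 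
(.lf (nat_lit 552526) (.g (nat_lit 3111) (.e (nat_lit 426125) (nat_lit 2) (.e (nat_lit 196666) (nat_lit 13) (.e (nat_lit 65617) (nat_lit 10) (.e (nat_lit 344132) (nat_lit 26) (.e (nat_lit 557093) (nat_lit 12) (.e (nat_lit 171776) (nat_lit 49) (.e (nat_lit 737024) (nat_lit 11) .nil))))))) (.g (nat_lit 1) (.e (nat_lit 301356) (nat_lit 0) .nil) .nil)))) (.nd (nat_lit 9) 
(.lf (nat_lit 552270) (.g (nat_lit 3626) (.e (nat_lit 426125) (nat_lit 2) (.e (nat_lit 196666) (nat_lit 13) (.e (nat_lit 65610) (nat_lit 10) (.e (nat_lit 344129) (nat_lit 26) (.e (nat_lit 557090) (nat_lit 12) (.e (nat_lit 164018) (nat_lit 45) (.e (nat_lit 696330) (nat_lit 5) (.e (nat_lit 2879) (nat_lit 184) .nil)))))))) (.g (nat_lit 1) (.e (nat_lit 300982) (nat_lit 0) .nil) .nil))) 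
(.lf (nat_lit 552782) (.g (nat_lit 825) (.e (nat_lit 426129) (nat_lit 3) (.e (nat_lit 204869) (nat_lit 29) (.e (nat_lit 360473) (nat_lit 8) .nil))) (.g (nat_lit 0) (.e (nat_lit 301888) (nat_lit 0) .nil) .nil))))) (.nd (nat_lit 8) (.nd (nat_lit 9) 
(.lf (nat_lit 552142) (.g (nat_lit 5912) (.e (nat_lit 426125) (nat_lit 2) (.e (nat_lit 196666) (nat_lit 13) (.e (nat_lit 65610) (nat_lit 10) (.e (nat_lit 344127) (nat_lit 26) (.e (nat_lit 557093) (nat_lit 12) (.e (nat_lit 164022) (nat_lit 46) (.e (nat_lit 704629) (nat_lit 9) (.e (nat_lit 375) (nat_lit 32) .nil)))))))) (.g (nat_lit 1) (.e (nat_lit 300639) (nat_lit 0) .nil) .nil))) 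
(.lf (nat_lit 552654) (.g (nat_lit 4152) (.e (nat_lit 426125) (nat_lit 2) (.e (nat_lit 196666) (nat_lit 13) (.e (nat_lit 65623) (nat_lit 12) (.e (nat_lit 385068) (nat_lit 26) (.e (nat_lit 532513) (nat_lit 3) (.e (nat_lit 122624) (nat_lit 11) .nil)))))) (.g (nat_lit 1) (.e (nat_lit 301561) (nat_lit 0) .nil) .nil)))) (.nd (nat_lit 9) 
(.lf (nat_lit 552398) (.g (nat_lit 2595) (.e (nat_lit 426125) (nat_lit 2) (.e (nat_lit 196666) (nat_lit 13) (.e (nat_lit 65617) (nat_lit 10) (.e (nat_lit 344130) (nat_lit 26) (.e (nat_lit 557089) (nat_lit 12) (.e (nat_lit 164020) (nat_lit 45) (.e (nat_lit 696330) (nat_lit 5) (.e (nat_lit 2842) (nat_lit 184) .nil)))))))) (.g (nat_lit 1) (.e (nat_lit 301162) (nat_lit 0) .nil) .nil))) 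
(.lf (nat_lit 552910) (.g (nat_lit 3088) (.e (nat_lit 426131) (nat_lit 3) (.e (nat_lit 204830) (nat_lit 18) (.e (nat_lit 57691) (nat_lit 156) (.e (nat_lit 163905) (nat_lit 12) (.e (nat_lit 426566) (nat_lit 34) (.e (nat_lit 393271) (nat_lit 23) .nil)))))) (.g (nat_lit 1) (.e (nat_lit 302096) (nat_lit 0) .nil) .nil))))))) (.nd (nat_lit 6) (.nd (nat_lit 7) (.nd (nat_lit 8) (.nd (nat_lit 9) 
(.lf (nat_lit 551982) (.g (nat_lit 3627) (.e (nat_lit 426123) (nat_lit 2) (.e (nat_lit 196666) (nat_lit 13) (.e (nat_lit 65617) (nat_lit 10) (.e (nat_lit 344132) (nat_lit 26) (.e (nat_lit 557093) (nat_lit 12) (.e (nat_lit 164022) (nat_lit 46) (.e (nat_lit 704627) (nat_lit 9) (.e (nat_lit 440) (nat_lit 32) .nil)))))))) (.g (nat_lit 1) (.e (nat_lit 299127) (nat_lit 0) .nil) .nil))) 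
(.lf (nat_lit 552494) (.g (nat_lit 3180) (.e (nat_lit 426125) (nat_lit 2) (.e (nat_lit 196666) (nat_lit 13) (.e (nat_lit 65617) (nat_lit 10) (.e (nat_lit 344132) (nat_lit 26) (.e (nat_lit 557091) (nat_lit 12) (.e (nat_lit 164022) (nat_lit 46) (.e (nat_lit 704629) (nat_lit 9) (.e (nat_lit 411) (nat_lit 32) .nil)))))))) (.g (nat_lit 1) (.e (nat_lit 301312) (nat_lit 0) .nil) .nil)))) 
(.nd (nat_lit 9) 
(.lf (nat_lit 552238) (.g (nat_lit 1930) (.e (nat_lit 426125) (nat_lit 2) (.e (nat_lit 196666) (nat_lit 13) (.e (nat_lit 65610) (nat_lit 10) (.e (nat_lit 344129) (nat_lit 26) (.e (nat_lit 557090) (nat_lit 12) (.e (nat_lit 163847) (nat_lit 0) (.e (nat_lit 6420) (nat_lit 341) (.e (nat_lit 171776) (nat_lit 12) .nil)))))))) (.g (nat_lit 1) (.e (nat_lit 300924) (nat_lit 0) .nil) .nil))) 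
(.lf (nat_lit 552750) (.g (nat_lit 503) (.e (nat_lit 426129) (nat_lit 3) (.e (nat_lit 204852) (nat_lit 26) (.e (nat_lit 343808) (nat_lit 12) .nil))) (.g (nat_lit 0) (.e (nat_lit 301790) (nat_lit 0) .nil) .nil))))) (.nd (nat_lit 8) (.nd (nat_lit 9) 
(.lf (nat_lit 552110) (.g (nat_lit 3089) (.e (nat_lit 426125) (nat_lit 2) (.e (nat_lit 204544) (nat_lit 3) (.e (nat_lit 164017) (nat_lit 44) (.e (nat_lit 688138) (nat_lit 5) (.e (nat_lit 3085) (nat_lit 191) (.e (nat_lit 483337) (nat_lit 9) (.e (nat_lit 426185) (nat_lit 9) .nil))))))) (.g (nat_lit 1) (.e (nat_lit 299536) (nat_lit 0) .nil) .nil))) 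
(.lf (nat_lit 552622) (.g (nat_lit 3547) (.e (nat_lit 426125) (nat_lit 2) (.e (nat_lit 196666) (nat_lit 13) (.e (nat_lit 65617) (nat_lit 10) (.e (nat_lit 344133) (nat_lit 26) (.e (nat_lit 557091) (nat_lit 12) (.e (nat_lit 164020) (nat_lit 45) (.e (nat_lit 696327) (nat_lit 5) (.e (nat_lit 2873) (nat_lit 184) .nil)))))))) (.g (nat_lit 1) (.e (nat_lit 301516) (nat_lit 0) .nil) .nil)))) 
(.nd (nat_lit 9) 
(.lf (nat_lit 552366) (.g (nat_lit 3689) (.e (nat_lit 426125) (nat_lit 2) (.e (nat_lit 196666) (nat_lit 13) (.e (nat_lit 65617) (nat_lit 10) (.e (nat_lit 344127) (nat_lit 26) (.e (nat_lit 557090) (nat_lit 12) (.e (nat_lit 164020) (nat_lit 45) (.e (nat_lit 696327) (nat_lit 5) (.e (nat_lit 2873) (nat_lit 184) .nil)))))))) (.g (nat_lit 1) (.e (nat_lit 301118) (nat_lit 0) .nil) .nil))) 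
(.lf (nat_lit 552878) (.g (nat_lit 4762) (.e (nat_lit 426130) (nat_lit 3) (.e (nat_lit 204869) (nat_lit 29) (.e (nat_lit 360475) (nat_lit 8) (.e (nat_lit 557091) (nat_lit 12) (.e (nat_lit 163849) (nat_lit 0) .nil))))) (.g (nat_lit 0) (.e (nat_lit 302035) (nat_lit 0) .nil) .nil)))))) (.nd (nat_lit 7) (.nd (nat_lit 8) (.nd (nat_lit 9) 
(.lf (nat_lit 552046) (.g (nat_lit 4755) (.e (nat_lit 426123) (nat_lit 2) (.e (nat_lit 196666) (nat_lit 13) (.e (nat_lit 65617) (nat_lit 10) (.e (nat_lit 344133) (nat_lit 26) (.e (nat_lit 557091) (nat_lit 12) (.e (nat_lit 164022) (nat_lit 46) (.e (nat_lit 704627) (nat_lit 9) (.e (nat_lit 416) (nat_lit 32) .nil)))))))) (.g (nat_lit 1) (.e (nat_lit 299228) (nat_lit 0) .nil) .nil))) 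
(.lf (nat_lit 552558) (.g (nat_lit 4439) (.e (nat_lit 426125) (nat_lit 2) (.e (nat_lit 196666) (nat_lit 13) (.e (nat_lit 65617) (nat_lit 10) (.e (nat_lit 344133) (nat_lit 26) (.e (nat_lit 557089) (nat_lit 12) (.e (nat_lit 163843) (nat_lit 0) (.e (nat_lit 6421) (nat_lit 341) (.e (nat_lit 163909) (nat_lit 12) .nil)))))))) (.g (nat_lit 1) (.e (nat_lit 301397) (nat_lit 0) .nil) .nil)))) 
(.nd (nat_lit 9) 
(.lf (nat_lit 552302) (.g (nat_lit 3023) (.e (nat_lit 426125) (nat_lit 2) (.e (nat_lit 196666) (nat_lit 13) (.e (nat_lit 65610) (nat_lit 10) (.e (nat_lit 344129) (nat_lit 26) (.e (nat_lit 557092) (nat_lit 12) (.e (nat_lit 171776) (nat_lit 48) (.e (nat_lit 728832) (nat_lit 11) .nil))))))) (.g (nat_lit 1) (.e (nat_lit 301035) (nat_lit 0) .nil) .nil))) 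
(.lf (nat_lit 552814) (.g (nat_lit 2536) (.e (nat_lit 426129) (nat_lit 3) (.e (nat_lit 204869) (nat_lit 29) (.e (nat_lit 360475) (nat_lit 8) (.e (nat_lit 557089) (nat_lit 12) .nil)))) (.g (nat_lit 0) (.e (nat_lit 301924) (nat_lit 0) .nil) .nil))))) (.nd (nat_lit 8) (.nd (nat_lit 9) 
(.lf (nat_lit 552174) (.g (nat_lit 2683) (.e (nat_lit 426125) (nat_lit 2) (.e (nat_lit 196666) (nat_lit 13) (.e (nat_lit 65610) (nat_lit 10) (.e (nat_lit 344129) (nat_lit 26) (.e (nat_lit 557089) (nat_lit 12) (.e (nat_lit 163844) (nat_lit 0) (.e (nat_lit 6421) (nat_lit 341) (.e (nat_lit 171776) (nat_lit 12) .nil)))))))) (.g (nat_lit 1) (.e (nat_lit 300753) (nat_lit 0) .nil) .nil))) 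
(.lf (nat_lit 552686) (.g (nat_lit 725) (.e (nat_lit 426129) (nat_lit 3) (.e (nat_lit 204831) (nat_lit 18) (.e (nat_lit 57687) (nat_lit 156) .nil))) (.g (nat_lit 0) (.e (nat_lit 301671) (nat_lit 0) .nil) .nil)))) (.nd (nat_lit 9) 
(.lf (nat_lit 552430) (.g (nat_lit 4667) (.e (nat_lit 426125) (nat_lit 2) (.e (nat_lit 196666) (nat_lit 13) (.e (nat_lit 65617) (nat_lit 10) (.e (nat_lit 344130) (nat_lit 26) (.e (nat_lit 557090) (nat_lit 12) (.e (nat_lit 163850) (nat_lit 0) (.e (nat_lit 6427) (nat_lit 342) (.e (nat_lit 229399) (nat_lit 12) .nil)))))))) (.g (nat_lit 1) (.e (nat_lit 301231) (nat_lit 0) .nil) .nil))) 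
(.lf (nat_lit 552942) (.g (nat_lit 2248) (.e (nat_lit 426131) (nat_lit 3) (.e (nat_lit 204846) (nat_lit 24) (.e (nat_lit 319530) (nat_lit 16) (.e (nat_lit 286735) (nat_lit 3) (.e (nat_lit 98365) (nat_lit 26) .nil))))) (.g (nat_lit 0) (.e (nat_lit 302144) (nat_lit 0) .nil) .nil)))))))) (.nd (nat_lit 5) (.nd (nat_lit 6) (.nd (nat_lit 7) (.nd (nat_lit 8) (.nd (nat_lit 9) 
(.lf (nat_lit 551966) (.g (nat_lit 4350) (.e (nat_lit 426123) (nat_lit 2) (.e (nat_lit 196666) (nat_lit 13) (.e (nat_lit 65617) (nat_lit 10) (.e (nat_lit 344130) (nat_lit 26) (.e (nat_lit 557090) (nat_lit 12) (.e (nat_lit 164022) (nat_lit 46) (.e (nat_lit 704629) (nat_lit 9) (.e (nat_lit 440) (nat_lit 32) .nil)))))))) (.g (nat_lit 1) (.e (nat_lit 299108) (nat_lit 0) .nil) .nil))) 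
(.lf (nat_lit 552478) (.g (nat_lit 3704) (.e (nat_lit 426125) (nat_lit 2) (.e (nat_lit 196666) (nat_lit 13) (.e (nat_lit 65617) (nat_lit 10) (.e (nat_lit 344132) (nat_lit 26) (.e (nat_lit 557090) (nat_lit 12) (.e (nat_lit 164020) (nat_lit 45) (.e (nat_lit 696327) (nat_lit 5) (.e (nat_lit 2884) (nat_lit 184) .nil)))))))) (.g (nat_lit 1) (.e (nat_lit 301296) (nat_lit 0) .nil) .nil)))) 
(.nd (nat_lit 9) 
(.lf (nat_lit 552222) (.g (nat_lit 4452) (.e (nat_lit 426125) (nat_lit 2) (.e (nat_lit 196666) (nat_lit 13) (.e (nat_lit 65610) (nat_lit 10) (.e (nat_lit 344129) (nat_lit 26) (.e (nat_lit 557090) (nat_lit 12) (.e (nat_lit 163843) (nat_lit 0) (.e (nat_lit 6418) (nat_lit 341) (.e (nat_lit 163900) (nat_lit 12) .nil)))))))) (.g (nat_lit 1) (.e (nat_lit 300871) (nat_lit 0) .nil) .nil))) 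
(.lf (nat_lit 552734) (.g (nat_lit 1296) (.e (nat_lit 426129) (nat_lit 3) (.e (nat_lit 204846) (nat_lit 24) (.e (nat_lit 319534) (nat_lit 16) (.e (nat_lit 286734) (nat_lit 3) .nil)))) (.g (nat_lit 0) (.e (nat_lit 301765) (nat_lit 0) .nil) .nil))))) (.nd (nat_lit 8) (.nd (nat_lit 9) 
(.lf (nat_lit 552094) (.g (nat_lit 2538) (.e (nat_lit 426124) (nat_lit 2) (.e (nat_lit 196677) (nat_lit 16) (.e (nat_lit 130816) (nat_lit 206) (.e (nat_lit 180252) (nat_lit 10) (.e (nat_lit 573471) (nat_lit 11) (.e (nat_lit 24320) (nat_lit 9) .nil)))))) (.g (nat_lit 1) (.e (nat_lit 299455) (nat_lit 0) .nil) .nil))) 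
(.lf (nat_lit 552606) (.g (nat_lit 4513) (.e (nat_lit 426125) (nat_lit 2) (.e (nat_lit 196666) (nat_lit 13) (.e (nat_lit 65617) (nat_lit 10) (.e (nat_lit 344133) (nat_lit 26) (.e (nat_lit 557091) (nat_lit 12) (.e (nat_lit 163850) (nat_lit 0) (.e (nat_lit 6427) (nat_lit 342) (.e (nat_lit 229399) (nat_lit 12) .nil)))))))) (.g (nat_lit 1) (.e (nat_lit 301493) (nat_lit 0) .nil) .nil)))) 
(.nd (nat_lit 9) 
(.lf (nat_lit 552350) (.g (nat_lit 3579) (.e (nat_lit 426125) (nat_lit 2) (.e (nat_lit 196666) (nat_lit 13) (.e (nat_lit 65617) (nat_lit 10) (.e (nat_lit 344127) (nat_lit 26) (.e (nat_lit 557090) (nat_lit 12) (.e (nat_lit 163847) (nat_lit 0) (.e (nat_lit 6416) (nat_lit 341) (.e (nat_lit 163909) (nat_lit 12) .nil)))))))) (.g (nat_lit 1) (.e (nat_lit 301099) (nat_lit 0) .nil) .nil))) 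
(.lf (nat_lit 552862) (.g (nat_lit 3615) (.e (nat_lit 426130) (nat_lit 3) (.e (nat_lit 204868) (nat_lit 29) (.e (nat_lit 360475) (nat_lit 8) (.e (nat_lit 557089) (nat_lit 12) (.e (nat_lit 163849) (nat_lit 0) .nil))))) (.g (nat_lit 0) (.e (nat_lit 302019) (nat_lit 0) .nil) .nil)))))) (.nd (nat_lit 7) (.nd (nat_lit 8) (.nd (nat_lit 9) 
(.lf (nat_lit 552030) (.g (nat_lit 4204) (.e (nat_lit 426123) (nat_lit 2) (.e (nat_lit 196666) (nat_lit 13) (.e (nat_lit 65617) (nat_lit 10) (.e (nat_lit 344133) (nat_lit 26) (.e (nat_lit 557091) (nat_lit 12) (.e (nat_lit 163843) (nat_lit 0) (.e (nat_lit 6421) (nat_lit 341) (.e (nat_lit 171776) (nat_lit 12) .nil)))))))) (.g (nat_lit 1) (.e (nat_lit 299207) (nat_lit 0) .nil) .nil))) 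
(.lf (nat_lit 552542) (.g (nat_lit 4347) (.e (nat_lit 426125) (nat_lit 2) (.e (nat_lit 196666) (nat_lit 13) (.e (nat_lit 65617) (nat_lit 10) (.e (nat_lit 344132) (nat_lit 26) (.e (nat_lit 557094) (nat_lit 12) (.e (nat_lit 164022) (nat_lit 46) (.e (nat_lit 704627) (nat_lit 9) (.e (nat_lit 375) (nat_lit 32) .nil)))))))) (.g (nat_lit 1) (.e (nat_lit 301377) (nat_lit 0) .nil) .nil)))) 
(.nd (nat_lit 9) 
(.lf (nat_lit 552286) (.g (nat_lit 3107) (.e (nat_lit 426125) (nat_lit 2) (.e (nat_lit 196666) (nat_lit 13) (.e (nat_lit 65610) (nat_lit 10) (.e (nat_lit 344129) (nat_lit 26) (.e (nat_lit 557090) (nat_lit 12) (.e (nat_lit 164020) (nat_lit 45) (.e (nat_lit 696327) (nat_lit 5) (.e (nat_lit 2888) (nat_lit 184) .nil)))))))) (.g (nat_lit 1) (.e (nat_lit 300998) (nat_lit 0) .nil) .nil))) 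
(.lf (nat_lit 552798) (.g (nat_lit 2837) (.e (nat_lit 426129) (nat_lit 3) (.e (nat_lit 204869) (nat_lit 29) (.e (nat_lit 360474) (nat_lit 8) (.e (nat_lit 557093) (nat_lit 12) (.e (nat_lit 163853) (nat_lit 0) .nil))))) (.g (nat_lit 0) (.e (nat_lit 301905) (nat_lit 0) .nil) .nil))))) (.nd (nat_lit 8) (.nd (nat_lit 9) 
(.lf (nat_lit 552158) (.g (nat_lit 2456) (.e (nat_lit 426125) (nat_lit 2) (.e (nat_lit 196666) (nat_lit 13) (.e (nat_lit 65610) (nat_lit 10) (.e (nat_lit 344129) (nat_lit 26) (.e (nat_lit 557088) (nat_lit 12) (.e (nat_lit 164022) (nat_lit 46) (.e (nat_lit 704627) (nat_lit 9) (.e (nat_lit 375) (nat_lit 32) .nil)))))))) (.g (nat_lit 1) (.e (nat_lit 300710) (nat_lit 0) .nil) .nil))) 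
(.lf (nat_lit 552670) (.g (nat_lit 1725) (.e (nat_lit 426128) (nat_lit 2) (.e (nat_lit 196656) (nat_lit 11) (.e (nat_lit 16392) (nat_lit 0) (.e (nat_lit 3399) (nat_lit 211) .nil)))) (.g (nat_lit 0) (.e (nat_lit 301604) (nat_lit 0) .nil) .nil)))) (.nd (nat_lit 9) 
(.lf (nat_lit 552414) (.g (nat_lit 3358) (.e (nat_lit 426125) (nat_lit 2) (.e (nat_lit 196666) (nat_lit 13) (.e (nat_lit 65617) (nat_lit 10) (.e (nat_lit 344130) (nat_lit 26) (.e (nat_lit 557090) (nat_lit 12) (.e (nat_lit 163844) (nat_lit 0) (.e (nat_lit 6418) (nat_lit 341) (.e (nat_lit 163909) (nat_lit 12) .nil)))))))) (.g (nat_lit 1) (.e (nat_lit 301206) (nat_lit 0) .nil) .nil))) 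
(.lf (nat_lit 552926) (.g (nat_lit 1863) (.e (nat_lit 426131) (nat_lit 3) (.e (nat_lit 204837) (nat_lit 20) (.e (nat_lit 114718) (nat_lit 23) (.e (nat_lit 98333) (nat_lit 18) (.e (nat_lit 164398) (nat_lit 256) .nil))))) (.g (nat_lit 0) (.e (nat_lit 302127) (nat_lit 0) .nil) .nil))))))) (.nd (nat_lit 6) (.nd (nat_lit 7) (.nd (nat_lit 8) (.nd (nat_lit 9) 
(.lf (nat_lit 551998) (.g (nat_lit 4285) (.e (nat_lit 426123) (nat_lit 2) (.e (nat_lit 196666) (nat_lit 13) (.e (nat_lit 65617) (nat_lit 10) (.e (nat_lit 344132) (nat_lit 26) (.e (nat_lit 557093) (nat_lit 12) (.e (nat_lit 164023) (nat_lit 46) (.e (nat_lit 704626) (nat_lit 9) (.e (nat_lit 416) (nat_lit 32) .nil)))))))) (.g (nat_lit 1) (.e (nat_lit 299145) (nat_lit 0) .nil) .nil))) 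
(.lf (nat_lit 552510) (.g (nat_lit 3472) (.e (nat_lit 426125) (nat_lit 2) (.e (nat_lit 196666) (nat_lit 13) (.e (nat_lit 65617) (nat_lit 10) (.e (nat_lit 344132) (nat_lit 26) (.e (nat_lit 557093) (nat_lit 12) (.e (nat_lit 164018) (nat_lit 45) (.e (nat_lit 696329) (nat_lit 5) (.e (nat_lit 2878) (nat_lit 184) .nil)))))))) (.g (nat_lit 1) (.e (nat_lit 301335) (nat_lit 0) .nil) .nil)))) 
(.nd (nat_lit 9) 
(.lf (nat_lit 552254) (.g (nat_lit 4023) (.e (nat_lit 426125) (nat_lit 2) (.e (nat_lit 196666) (nat_lit 13) (.e (nat_lit 65610) (nat_lit 10) (.e (nat_lit 344129) (nat_lit 26) (.e (nat_lit 557090) (nat_lit 12) (.e (nat_lit 164016) (nat_lit 44) (.e (nat_lit 688140) (nat_lit 5) (.e (nat_lit 2877) (nat_lit 184) .nil)))))))) (.g (nat_lit 1) (.e (nat_lit 300962) (nat_lit 0) .nil) .nil))) 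
(.lf (nat_lit 552766) (.g (nat_lit 2548) (.e (nat_lit 426129) (nat_lit 3) (.e (nat_lit 204868) (nat_lit 29) (.e (nat_lit 360473) (nat_lit 8) (.e (nat_lit 557091) (nat_lit 12) (.e (nat_lit 163847) (nat_lit 0) (.e (nat_lit 6421) (nat_lit 341) (.e (nat_lit 163913) (nat_lit 12) .nil))))))) (.g (nat_lit 1) (.e (nat_lit 301872) (nat_lit 0) .nil) .nil))))) (.nd (nat_lit 8) (.nd (nat_lit 9) 
(.lf (nat_lit 552126) (.g (nat_lit 3386) (.e (nat_lit 426125) (nat_lit 2) (.e (nat_lit 196666) (nat_lit 13) (.e (nat_lit 65610) (nat_lit 10) (.e (nat_lit 344117) (nat_lit 21) (.e (nat_lit 516097) (nat_lit 0) (.e (nat_lit 2430) (nat_lit 157) (.e (nat_lit 4540) (nat_lit 267) (.e (nat_lit 163909) (nat_lit 12) .nil)))))))) (.g (nat_lit 1) (.e (nat_lit 299720) (nat_lit 0) .nil) .nil))) 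
(.lf (nat_lit 552638) (.g (nat_lit 3819) (.e (nat_lit 426125) (nat_lit 2) (.e (nat_lit 196666) (nat_lit 13) (.e (nat_lit 65617) (nat_lit 10) (.e (nat_lit 344133) (nat_lit 26) (.e (nat_lit 557091) (nat_lit 12) (.e (nat_lit 171776) (nat_lit 49) (.e (nat_lit 729095) (nat_lit 11) .nil))))))) (.g (nat_lit 1) (.e (nat_lit 301543) (nat_lit 0) .nil) .nil)))) (.nd (nat_lit 9) 
(.lf (nat_lit 552382) (.g (nat_lit 3470) (.e (nat_lit 426125) (nat_lit 2) (.e (nat_lit 196666) (nat_lit 13) (.e (nat_lit 65617) (nat_lit 10) (.e (nat_lit 344130) (nat_lit 26) (.e (nat_lit 557089) (nat_lit 12) (.e (nat_lit 163843) (nat_lit 0) (.e (nat_lit 6416) (nat_lit 341) (.e (nat_lit 163900) (nat_lit 12) .nil)))))))) (.g (nat_lit 1) (.e (nat_lit 301140) (nat_lit 0) .nil) .nil))) 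
(.lf (nat_lit 552894) (.g (nat_lit 3299) (.e (nat_lit 426131) (nat_lit 3) (.e (nat_lit 204829) (nat_lit 18) (.e (nat_lit 57688) (nat_lit 156) (.e (nat_lit 163907) (nat_lit 12) (.e (nat_lit 426566) (nat_lit 34) (.e (nat_lit 393272) (nat_lit 23) .nil)))))) (.g (nat_lit 1) (.e (nat_lit 302061) (nat_lit 0) .nil) .nil)))))) (.nd (nat_lit 7) (.nd (nat_lit 8) (.nd (nat_lit 9) 
(.lf (nat_lit 552062) (.g (nat_lit 3445) (.e (nat_lit 426123) (nat_lit 2) (.e (nat_lit 196666) (nat_lit 13) (.e (nat_lit 65617) (nat_lit 10) (.e (nat_lit 344133) (nat_lit 26) (.e (nat_lit 557091) (nat_lit 12) (.e (nat_lit 171776) (nat_lit 49) (.e (nat_lit 729096) (nat_lit 11) .nil))))))) (.g (nat_lit 1) (.e (nat_lit 299247) (nat_lit 0) .nil) .nil))) 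
(.lf (nat_lit 552574) (.g (nat_lit 2353) (.e (nat_lit 426125) (nat_lit 2) (.e (nat_lit 196666) (nat_lit 13) (.e (nat_lit 65617) (nat_lit 10) (.e (nat_lit 344133) (nat_lit 26) (.e (nat_lit 557089) (nat_lit 12) (.e (nat_lit 171776) (nat_lit 48) (.e (nat_lit 728832) (nat_lit 11) .nil))))))) (.g (nat_lit 1) (.e (nat_lit 301427) (nat_lit 0) .nil) .nil)))) (.nd (nat_lit 9) 
(.lf (nat_lit 552318) (.g (nat_lit 869) (.e (nat_lit 426125) (nat_lit 2) (.e (nat_lit 196666) (nat_lit 13) (.e (nat_lit 65614) (nat_lit 10) .nil))) (.g (nat_lit 0) (.e (nat_lit 301053) (nat_lit 0) .nil) .nil))) 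
(.lf (nat_lit 552830) (.g (nat_lit 5351) (.e (nat_lit 426129) (nat_lit 3) (.e (nat_lit 204869) (nat_lit 29) (.e (nat_lit 360475) (nat_lit 8) (.e (nat_lit 557091) (nat_lit 12) (.e (nat_lit 164022) (nat_lit 46) (.e (nat_lit 704629) (nat_lit 9) (.e (nat_lit 386) (nat_lit 32) .nil))))))) (.g (nat_lit 1) (.e (nat_lit 301940) (nat_lit 0) .nil) .nil))))) (.nd (nat_lit 8) (.nd (nat_lit 9) 
(.lf (nat_lit 552190) (.g (nat_lit 4777) (.e (nat_lit 426125) (nat_lit 2) (.e (nat_lit 196666) (nat_lit 13) (.e (nat_lit 65610) (nat_lit 10) (.e (nat_lit 344129) (nat_lit 26) (.e (nat_lit 557089) (nat_lit 12) (.e (nat_lit 164017) (nat_lit 44) (.e (nat_lit 688138) (nat_lit 5) (.e (nat_lit 2883) (nat_lit 184) .nil)))))))) (.g (nat_lit 1) (.e (nat_lit 300793) (nat_lit 0) .nil) .nil))) 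
(.lf (nat_lit 552702) (.g (nat_lit 2263) (.e (nat_lit 426129) (nat_lit 3) (.e (nat_lit 204846) (nat_lit 24) (.e (nat_lit 319529) (nat_lit 16) (.e (nat_lit 286735) (nat_lit 3) (.e (nat_lit 98363) (nat_lit 26) .nil))))) (.g (nat_lit 0) (.e (nat_lit 301711) (nat_lit 0) .nil) .nil)))) (.nd (nat_lit 9) 
(.lf (nat_lit 552446) (.g (nat_lit 4241) (.e (nat_lit 426125) (nat_lit 2) (.e (nat_lit 196666) (nat_lit 13) (.e (nat_lit 65617) (nat_lit 10) (.e (nat_lit 344130) (nat_lit 26) (.e (nat_lit 557090) (nat_lit 12) (.e (nat_lit 164020) (nat_lit 45) (.e (nat_lit 696327) (nat_lit 5) (.e (nat_lit 2878) (nat_lit 184) .nil)))))))) (.g (nat_lit 1) (.e (nat_lit 301254) (nat_lit 0) .nil) .nil))) 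
(.lf (nat_lit 552958) (.g (nat_lit 2348) (.e (nat_lit 426131) (nat_lit 3) (.e (nat_lit 204846) (nat_lit 24) (.e (nat_lit 319533) (nat_lit 16) (.e (nat_lit 286732) (nat_lit 2) (.e (nat_lit 90183) (nat_lit 17) .nil))))) (.g (nat_lit 0) (.e (nat_lit 302160) (nat_lit 0) .nil) .nil)))))))))))) 
(.nd (nat_lit 1) (.nd (nat_lit 2) (.nd (nat_lit 3) (.nd (nat_lit 4) (.nd (nat_lit 5) 
(.nd (nat_lit 6) (.nd (nat_lit 7) (.nd (nat_lit 8) (.nd (nat_lit 9) 
(.lf (nat_lit 551937) (.g (nat_lit 3092) (.e (nat_lit 426123) (nat_lit 2) (.e (nat_lit 196666) (nat_lit 13) (.e (nat_lit 65617) (nat_lit 10) (.e (nat_lit 344127) (nat_lit 26) (.e (nat_lit 557090) (nat_lit 12) (.e (nat_lit 163843) (nat_lit 0) (.e (nat_lit 6420) (nat_lit 341) (.e (nat_lit 171776) (nat_lit 12) .nil)))))))) (.g (nat_lit 1) (.e (nat_lit 299075) (nat_lit 0) .nil) .nil))) 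
(.lf (nat_lit 552449) (.g (nat_lit 3254) (.e (nat_lit 426125) (nat_lit 2) (.e (nat_lit 196666) (nat_lit 13) (.e (nat_lit 65617) (nat_lit 10) (.e (nat_lit 344130) (nat_lit 26) (.e (nat_lit 557090) (nat_lit 12) (.e (nat_lit 164020) (nat_lit 45) (.e (nat_lit 696330) (nat_lit 5) (.e (nat_lit 2842) (nat_lit 184) .nil)))))))) (.g (nat_lit 1) (.e (nat_lit 301257) (nat_lit 0) .nil) .nil)))) 
(.nd (nat_lit 9) 
(.lf (nat_lit 552193) (.g (nat_lit 4038) (.e (nat_lit 426125) (nat_lit 2) (.e (nat_lit 196666) (nat_lit 13) (.e (nat_lit 65610) (nat_lit 10) (.e (nat_lit 344129) (nat_lit 26) (.e (nat_lit 557089) (nat_lit 12) (.e (nat_lit 164020) (nat_lit 45) (.e (nat_lit 696327) (nat_lit 5) (.e (nat_lit 2873) (nat_lit 184) .nil)))))))) (.g (nat_lit 1) (.e (nat_lit 300799) (nat_lit 0) .nil) .nil))) 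
(.lf (nat_lit 552705) (.g (nat_lit 3797) (.e (nat_lit 426129) (nat_lit 3) (.e (nat_lit 204846) (nat_lit 24) (.e (nat_lit 319530) (nat_lit 16) (.e (nat_lit 286735) (nat_lit 3) (.e (nat_lit 98363) (nat_lit 26) (.e (nat_lit 426230) (nat_lit 9) .nil)))))) (.g (nat_lit 1) (.e (nat_lit 301715) (nat_lit 0) .nil) .nil))))) (.nd (nat_lit 8) (.nd (nat_lit 9) 
(.lf (nat_lit 552065) (.g (nat_lit 704) (.e (nat_lit 426123) (nat_lit 2) (.e (nat_lit 196666) (nat_lit 13) (.e (nat_lit 65619) (nat_lit 10) .nil))) (.g (nat_lit 0) (.e (nat_lit 299250) (nat_lit 0) .nil) .nil))) 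
(.lf (nat_lit 552577) (.g (nat_lit 2644) (.e (nat_lit 426125) (nat_lit 2) (.e (nat_lit 196666) (nat_lit 13) (.e (nat_lit 65617) (nat_lit 10) (.e (nat_lit 344133) (nat_lit 26) (.e (nat_lit 557090) (nat_lit 12) (.e (nat_lit 164020) (nat_lit 45) (.e (nat_lit 696330) (nat_lit 5) (.e (nat_lit 2842) (nat_lit 184) .nil)))))))) (.g (nat_lit 1) (.e (nat_lit 301430) (nat_lit 0) .nil) .nil)))) 
(.nd (nat_lit 9) 
(.lf (nat_lit 552321) (.g (nat_lit 5532) (.e (nat_lit 426125) (nat_lit 2) (.e (nat_lit 196666) (nat_lit 13) (.e (nat_lit 65614) (nat_lit 10) (.e (nat_lit 344133) (nat_lit 26) (.e (nat_lit 557091) (nat_lit 12) (.e (nat_lit 164022) (nat_lit 46) (.e (nat_lit 704629) (nat_lit 9) (.e (nat_lit 375) (nat_lit 32) .nil)))))))) (.g (nat_lit 1) (.e (nat_lit 301056) (nat_lit 0) .nil) .nil))) 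
(.lf (nat_lit 552833) (.g (nat_lit 4721) (.e (nat_lit 426129) (nat_lit 3) (.e (nat_lit 204869) (nat_lit 29) (.e (nat_lit 360475) (nat_lit 8) (.e (nat_lit 557092) (nat_lit 12) .nil)))) (.g (nat_lit 0) (.e (nat_lit 301943) (nat_lit 0) .nil) .nil)))))) (.nd (nat_lit 7) (.nd (nat_lit 8) (.nd (nat_lit 9) 
(.lf (nat_lit 552001) (.g (nat_lit 3343) (.e (nat_lit 426123) (nat_lit 2) (.e (nat_lit 196666) (nat_lit 13) (.e (nat_lit 65617) (nat_lit 10) (.e (nat_lit 344132) (nat_lit 26) (.e (nat_lit 557093) (nat_lit 12) (.e (nat_lit 164023) (nat_lit 46) (.e (nat_lit 704628) (nat_lit 9) (.e (nat_lit 440) (nat_lit 32) .nil)))))))) (.g (nat_lit 1) (.e (nat_lit 299148) (nat_lit 0) .nil) .nil))) 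
(.lf (nat_lit 552513) (.g (nat_lit 4902) (.e (nat_lit 426125) (nat_lit 2) (.e (nat_lit 196666) (nat_lit 13) (.e (nat_lit 65617) (nat_lit 10) (.e (nat_lit 344132) (nat_lit 26) (.e (nat_lit 557093) (nat_lit 12) (.e (nat_lit 164022) (nat_lit 46) (.e (nat_lit 704628) (nat_lit 9) (.e (nat_lit 370) (nat_lit 32) .nil)))))))) (.g (nat_lit 1) (.e (nat_lit 301342) (nat_lit 0) .nil) .nil)))) 
(.nd (nat_lit 9) 
(.lf (nat_lit 552257) (.g (nat_lit 2020) (.e (nat_lit 426125) (nat_lit 2) (.e (nat_lit 196666) (nat_lit 13) (.e (nat_lit 65610) (nat_lit 10) (.e (nat_lit 344129) (nat_lit 26) (.e (nat_lit 557090) (nat_lit 12) (.e (nat_lit 164017) (nat_lit 44) (.e (nat_lit 688140) (nat_lit 5) (.e (nat_lit 2887) (nat_lit 184) .nil)))))))) (.g (nat_lit 1) (.e (nat_lit 300968) (nat_lit 0) .nil) .nil))) 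
(.lf (nat_lit 552769) (.g (nat_lit 2635) (.e (nat_lit 426129) (nat_lit 3) (.e (nat_lit 204868) (nat_lit 29) (.e (nat_lit 360473) (nat_lit 8) (.e (nat_lit 557093) (nat_lit 12) (.e (nat_lit 164022) (nat_lit 46) (.e (nat_lit 704629) (nat_lit 9) (.e (nat_lit 386) (nat_lit 32) .nil))))))) (.g (nat_lit 1) (.e (nat_lit 301875) (nat_lit 0) .nil) .nil))))) (.nd (nat_lit 8) (.nd (nat_lit 9) 
(.lf (nat_lit 552129) (.g (nat_lit 3153) (.e (nat_lit 426125) (nat_lit 2) (.e (nat_lit 196666) (nat_lit 13) (.e (nat_lit 65610) (nat_lit 10) (.e (nat_lit 344117) (nat_lit 21) (.e (nat_lit 516099) (nat_lit 0) (.e (nat_lit 7936) (nat_lit 157) (.e (nat_lit 4539) (nat_lit 267) (.e (nat_lit 163910) (nat_lit 12) .nil)))))))) (.g (nat_lit 1) (.e (nat_lit 300016) (nat_lit 0) .nil) .nil))) 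
(.lf (nat_lit 552641) (.g (nat_lit 2284) (.e (nat_lit 426125) (nat_lit 2) (.e (nat_lit 196666) (nat_lit 13) (.e (nat_lit 65617) (nat_lit 10) (.e (nat_lit 344133) (nat_lit 26) (.e (nat_lit 557092) (nat_lit 12) (.e (nat_lit 163849) (nat_lit 0) (.e (nat_lit 6421) (nat_lit 341) (.e (nat_lit 163900) (nat_lit 12) .nil)))))))) (.g (nat_lit 1) (.e (nat_lit 301546) (nat_lit 0) .nil) .nil)))) 
(.nd (nat_lit 9) 
(.lf (nat_lit 552385) (.g (nat_lit 3375) (.e (nat_lit 426125) (nat_lit 2) (.e (nat_lit 196666) (nat_lit 13) (.e (nat_lit 65617) (nat_lit 10) (.e (nat_lit 344130) (nat_lit 26) (.e (nat_lit 557089) (nat_lit 12) (.e (nat_lit 163843) (nat_lit 0) (.e (nat_lit 6420) (nat_lit 341) (.e (nat_lit 163909) (nat_lit 12) .nil)))))))) (.g (nat_lit 1) (.e (nat_lit 301143) (nat_lit 0) .nil) .nil))) 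
(.lf (nat_lit 552897) (.g (nat_lit 2330) (.e (nat_lit 426131) (nat_lit 3) (.e (nat_lit 204829) (nat_lit 18) (.e (nat_lit 57691) (nat_lit 156) (.e (nat_lit 163907) (nat_lit 12) (.e (nat_lit 426481) (nat_lit 27) .nil))))) (.g (nat_lit 0) (.e (nat_lit 302072) (nat_lit 0) .nil) .nil))))))) (.nd (nat_lit 6) (.nd (nat_lit 7) (.nd (nat_lit 8) (.nd (nat_lit 9) 
(.lf (nat_lit 551969) (.g (nat_lit 3104) (.e (nat_lit 426123) (nat_lit 2) (.e (nat_lit 196666) (nat_lit 13) (.e (nat_lit 65617) (nat_lit 10) (.e (nat_lit 344130) (nat_lit 26) (.e (nat_lit 557090) (nat_lit 12) (.e (nat_lit 171776) (nat_lit 48) (.e (nat_lit 728832) (nat_lit 11) .nil))))))) (.g (nat_lit 1) (.e (nat_lit 299113) (nat_lit 0) .nil) .nil))) 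
(.lf (nat_lit 552481) (.g (nat_lit 3484) (.e (nat_lit 426125) (nat_lit 2) (.e (nat_lit 196666) (nat_lit 13) (.e (nat_lit 65617) (nat_lit 10) (.e (nat_lit 344132) (nat_lit 26) (.e (nat_lit 557090) (nat_lit 12) (.e (nat_lit 164020) (nat_lit 45) (.e (nat_lit 696329) (nat_lit 5) (.e (nat_lit 2878) (nat_lit 184) .nil)))))))) (.g (nat_lit 1) (.e (nat_lit 301299) (nat_lit 0) .nil) .nil)))) 
(.nd (nat_lit 9) 
(.lf (nat_lit 552225) (.g (nat_lit 2610) (.e (nat_lit 426125) (nat_lit 2) (.e (nat_lit 196666) (nat_lit 13) (.e (nat_lit 65610) (nat_lit 10) (.e (nat_lit 344129) (nat_lit 26) (.e (nat_lit 557090) (nat_lit 12) (.e (nat_lit 163843) (nat_lit 0) (.e (nat_lit 6420) (nat_lit 341) (.e (nat_lit 171776) (nat_lit 12) .nil)))))))) (.g (nat_lit 1) (.e (nat_lit 300874) (nat_lit 0) .nil) .nil))) 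
(.lf (nat_lit 552737) (.g (nat_lit 2544) (.e (nat_lit 426129) (nat_lit 3) (.e (nat_lit 204846) (nat_lit 24) (.e (nat_lit 319534) (nat_lit 16) (.e (nat_lit 286735) (nat_lit 3) (.e (nat_lit 98325) (nat_lit 17) .nil))))) (.g (nat_lit 0) (.e (nat_lit 301768) (nat_lit 0) .nil) .nil))))) (.nd (nat_lit 8) (.nd (nat_lit 9) 
(.lf (nat_lit 552097) (.g (nat_lit 4866) (.e (nat_lit 426124) (nat_lit 2) (.e (nat_lit 196681) (nat_lit 17) (.e (nat_lit 131089) (nat_lit 1) (.e (nat_lit 57854) (nat_lit 252) (.e (nat_lit 57378) (nat_lit 3) (.e (nat_lit 98334) (nat_lit 18) (.e (nat_lit 164399) (nat_lit 256) (.e (nat_lit 57588) (nat_lit 73) .nil)))))))) (.g (nat_lit 1) (.e (nat_lit 299460) (nat_lit 0) .nil) .nil))) 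
(.lf (nat_lit 552609) (.g (nat_lit 4025) (.e (nat_lit 426125) (nat_lit 2) (.e (nat_lit 196666) (nat_lit 13) (.e (nat_lit 65617) (nat_lit 10) (.e (nat_lit 344133) (nat_lit 26) (.e (nat_lit 557091) (nat_lit 12) (.e (nat_lit 164016) (nat_lit 44) (.e (nat_lit 688138) (nat_lit 5) (.e (nat_lit 2883) (nat_lit 184) .nil)))))))) (.g (nat_lit 1) (.e (nat_lit 301497) (nat_lit 0) .nil) .nil)))) 
(.nd (nat_lit 9) 
(.lf (nat_lit 552353) (.g (nat_lit 4349) (.e (nat_lit 426125) (nat_lit 2) (.e (nat_lit 196666) (nat_lit 13) (.e (nat_lit 65617) (nat_lit 10) (.e (nat_lit 344127) (nat_lit 26) (.e (nat_lit 557090) (nat_lit 12) (.e (nat_lit 163850) (nat_lit 0) (.e (nat_lit 6428) (nat_lit 342) (.e (nat_lit 229399) (nat_lit 12) .nil)))))))) (.g (nat_lit 1) (.e (nat_lit 301102) (nat_lit 0) .nil) .nil))) 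
(.lf (nat_lit 552865) (.g (nat_lit 5802) (.e (nat_lit 426130) (nat_lit 3) (.e (nat_lit 204869) (nat_lit 29) (.e (nat_lit 360474) (nat_lit 8) (.e (nat_lit 557092) (nat_lit 12) .nil)))) (.g (nat_lit 0) (.e (nat_lit 302022) (nat_lit 0) .nil) .nil)))))) (.nd (nat_lit 7) (.nd (nat_lit 8) (.nd (nat_lit 9) 
(.lf (nat_lit 552033) (.g (nat_lit 3469) (.e (nat_lit 426123) (nat_lit 2) (.e (nat_lit 196666) (nat_lit 13) (.e (nat_lit 65617) (nat_lit 10) (.e (nat_lit 344133) (nat_lit 26) (.e (nat_lit 557091) (nat_lit 12) (.e (nat_lit 163847) (nat_lit 0) (.e (nat_lit 6421) (nat_lit 341) (.e (nat_lit 171776) (nat_lit 12) .nil)))))))) (.g (nat_lit 1) (.e (nat_lit 299210) (nat_lit 0) .nil) .nil))) 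
(.lf (nat_lit 552545) (.g (nat_lit 3976) (.e (nat_lit 426125) (nat_lit 2) (.e (nat_lit 196666) (nat_lit 13) (.e (nat_lit 65617) (nat_lit 10) (.e (nat_lit 344132) (nat_lit 26) (.e (nat_lit 557094) (nat_lit 12) (.e (nat_lit 164022) (nat_lit 46) (.e (nat_lit 704628) (nat_lit 9) (.e (nat_lit 414) (nat_lit 32) .nil)))))))) (.g (nat_lit 1) (.e (nat_lit 301380) (nat_lit 0) .nil) .nil)))) 
(.nd (nat_lit 9) 
(.lf (nat_lit 552289) (.g (nat_lit 3898) (.e (nat_lit 426125) (nat_lit 2) (.e (nat_lit 196666) (nat_lit 13) (.e (nat_lit 65610) (nat_lit 10) (.e (nat_lit 344129) (nat_lit 26) (.e (nat_lit 557090) (nat_lit 12) (.e (nat_lit 164020) (nat_lit 45) (.e (nat_lit 696330) (nat_lit 5) (.e (nat_lit 2879) (nat_lit 184) .nil)))))))) (.g (nat_lit 1) (.e (nat_lit 301001) (nat_lit 0) .nil) .nil))) 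
(.lf (nat_lit 552801) (.g (nat_lit 3478) (.e (nat_lit 426129) (nat_lit 3) (.e (nat_lit 204869) (nat_lit 29) (.e (nat_lit 360474) (nat_lit 8) (.e (nat_lit 557093) (nat_lit 12) (.e (nat_lit 164023) (nat_lit 46) (.e (nat_lit 704629) (nat_lit 9) (.e (nat_lit 433) (nat_lit 32) .nil))))))) (.g (nat_lit 1) (.e (nat_lit 301908) (nat_lit 0) .nil) .nil))))) (.nd (nat_lit 8) (.nd (nat_lit 9) 
(.lf (nat_lit 552161) (.g (nat_lit 3377) (.e (nat_lit 426125) (nat_lit 2) (.e (nat_lit 196666) (nat_lit 13) (.e (nat_lit 65610) (nat_lit 10) (.e (nat_lit 344129) (nat_lit 26) (.e (nat_lit 557089) (nat_lit 12) (.e (nat_lit 163843) (nat_lit 0) (.e (nat_lit 6416) (nat_lit 341) (.e (nat_lit 163900) (nat_lit 12) .nil)))))))) (.g (nat_lit 1) (.e (nat_lit 300720) (nat_lit 0) .nil) .nil))) 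
(.lf (nat_lit 552673) (.g (nat_lit 567) (.e (nat_lit 426129) (nat_lit 3) (.e (nat_lit 204829) (nat_lit 18) (.e (nat_lit 57652) (nat_lit 152) .nil))) (.g (nat_lit 0) (.e (nat_lit 301632) (nat_lit 0) .nil) .nil)))) (.nd (nat_lit 9) 
(.lf (nat_lit 552417) (.g (nat_lit 5075) (.e (nat_lit 426125) (nat_lit 2) (.e (nat_lit 196666) (nat_lit 13) (.e (nat_lit 65617) (nat_lit 10) (.e (nat_lit 344130) (nat_lit 26) (.e (nat_lit 557090) (nat_lit 12) (.e (nat_lit 163844) (nat_lit 0) (.e (nat_lit 6421) (nat_lit 341) (.e (nat_lit 163900) (nat_lit 12) .nil)))))))) (.g (nat_lit 1) (.e (nat_lit 301209) (nat_lit 0) .nil) .nil))) 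
(.lf (nat_lit 552929) (.g (nat_lit 1636) (.e (nat_lit 426131) (nat_lit 3) (.e (nat_lit 204845) (nat_lit 24) (.e (nat_lit 319530) (nat_lit 16) (.e (nat_lit 286727) (nat_lit 0) .nil)))) (.g (nat_lit 0) (.e (nat_lit 302130) (nat_lit 0) .nil) .nil)))))))) (.nd (nat_lit 5) (.nd (nat_lit 6) (.nd (nat_lit 7) (.nd (nat_lit 8) (.nd (nat_lit 9) 
(.lf (nat_lit 551953) (.g (nat_lit 3867) (.e (nat_lit 426123) (nat_lit 2) (.e (nat_lit 196666) (nat_lit 13) (.e (nat_lit 65617) (nat_lit 10) (.e (nat_lit 344130) (nat_lit 26) (.e (nat_lit 557090) (nat_lit 12) (.e (nat_lit 164022) (nat_lit 46) (.e (nat_lit 704626) (nat_lit 9) (.e (nat_lit 440) (nat_lit 32) .nil)))))))) (.g (nat_lit 1) (.e (nat_lit 299095) (nat_lit 0) .nil) .nil))) 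
(.lf (nat_lit 552465) (.g (nat_lit 3869) (.e (nat_lit 426125) (nat_lit 2) (.e (nat_lit 196666) (nat_lit 13) (.e (nat_lit 65617) (nat_lit 10) (.e (nat_lit 344130) (nat_lit 26) (.e (nat_lit 557091) (nat_lit 12) (.e (nat_lit 164020) (nat_lit 45) (.e (nat_lit 696328) (nat_lit 5) (.e (nat_lit 2884) (nat_lit 184) .nil)))))))) (.g (nat_lit 1) (.e (nat_lit 301281) (nat_lit 0) .nil) .nil)))) 
(.nd (nat_lit 9) 
(.lf (nat_lit 552209) (.g (nat_lit 4616) (.e (nat_lit 426125) (nat_lit 2) (.e (nat_lit 196666) (nat_lit 13) (.e (nat_lit 65610) (nat_lit 10) (.e (nat_lit 344129) (nat_lit 26) (.e (nat_lit 557089) (nat_lit 12) (.e (nat_lit 164022) (nat_lit 46) (.e (nat_lit 704629) (nat_lit 9) (.e (nat_lit 375) (nat_lit 32) .nil)))))))) (.g (nat_lit 1) (.e (nat_lit 300815) (nat_lit 0) .nil) .nil))) 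
(.lf (nat_lit 552721) (.g (nat_lit 1322) (.e (nat_lit 426129) (nat_lit 3) (.e (nat_lit 204846) (nat_lit 24) (.e (nat_lit 319533) (nat_lit 16) (.e (nat_lit 286734) (nat_lit 3) .nil)))) (.g (nat_lit 0) (.e (nat_lit 301742) (nat_lit 0) .nil) .nil))))) (.nd (nat_lit 8) (.nd (nat_lit 9) 
(.lf (nat_lit 552081) (.g (nat_lit 3741) (.e (nat_lit 426124) (nat_lit 2) (.e (nat_lit 196654) (nat_lit 11) (.e (nat_lit 16416) (nat_lit 3) (.e (nat_lit 204813) (nat_lit 9) (.e (nat_lit 426133) (nat_lit 3) (.e (nat_lit 204809) (nat_lit 9) .nil)))))) (.g (nat_lit 1) (.e (nat_lit 299314) (nat_lit 0) .nil) .nil))) 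
(.lf (nat_lit 552593) (.g (nat_lit 4977) (.e (nat_lit 426125) (nat_lit 2) (.e (nat_lit 196666) (nat_lit 13) (.e (nat_lit 65617) (nat_lit 10) (.e (nat_lit 344133) (nat_lit 26) (.e (nat_lit 557091) (nat_lit 12) (.e (nat_lit 163843) (nat_lit 0) (.e (nat_lit 6420) (nat_lit 341) (.e (nat_lit 163909) (nat_lit 12) .nil)))))))) (.g (nat_lit 1) (.e (nat_lit 301464) (nat_lit 0) .nil) .nil)))) 
(.nd (nat_lit 9) 
(.lf (nat_lit 552337) (.g (nat_lit 2862) (.e (nat_lit 426125) (nat_lit 2) (.e (nat_lit 196666) (nat_lit 13) (.e (nat_lit 65617) (nat_lit 10) (.e (nat_lit 344127) (nat_lit 26) (.e (nat_lit 557089) (nat_lit 12) (.e (nat_lit 164020) (nat_lit 45) (.e (nat_lit 696329) (nat_lit 5) (.e (nat_lit 2884) (nat_lit 184) .nil)))))))) (.g (nat_lit 1) (.e (nat_lit 301073) (nat_lit 0) .nil) .nil))) 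
(.lf (nat_lit 552849) (.g (nat_lit 1806) (.e (nat_lit 426130) (nat_lit 3) (.e (nat_lit 204846) (nat_lit 24) (.e (nat_lit 319530) (nat_lit 16) (.e (nat_lit 286735) (nat_lit 3) .nil)))) (.g (nat_lit 0) (.e (nat_lit 302004) (nat_lit 0) .nil) .nil)))))) (.nd (nat_lit 7) (.nd (nat_lit 8) (.nd (nat_lit 9) 
(.lf (nat_lit 552017) (.g (nat_lit 4149) (.e (nat_lit 426123) (nat_lit 2) (.e (nat_lit 196666) (nat_lit 13) (.e (nat_lit 65617) (nat_lit 10) (.e (nat_lit 344132) (nat_lit 26) (.e (nat_lit 557094) (nat_lit 12) (.e (nat_lit 164022) (nat_lit 46) (.e (nat_lit 704628) (nat_lit 9) (.e (nat_lit 436) (nat_lit 32) .nil)))))))) (.g (nat_lit 1) (.e (nat_lit 299193) (nat_lit 0) .nil) .nil))) 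
(.lf (nat_lit 552529) (.g (nat_lit 2427) (.e (nat_lit 426125) (nat_lit 2) (.e (nat_lit 196666) (nat_lit 13) (.e (nat_lit 65617) (nat_lit 10) (.e (nat_lit 344132) (nat_lit 26) (.e (nat_lit 557094) (nat_lit 12) (.e (nat_lit 163840) (nat_lit 0) (.e (nat_lit 6426) (nat_lit 342) (.e (nat_lit 229399) (nat_lit 12) .nil)))))))) (.g (nat_lit 1) (.e (nat_lit 301359) (nat_lit 0) .nil) .nil)))) 
(.nd (nat_lit 9) 
(.lf (nat_lit 552273) (.g (nat_lit 3020) (.e (nat_lit 426125) (nat_lit 2) (.e (nat_lit 196666) (nat_lit 13) (.e (nat_lit 65610) (nat_lit 10) (.e (nat_lit 344129) (nat_lit 26) (.e (nat_lit 557090) (nat_lit 12) (.e (nat_lit 164018) (nat_lit 45) (.e (nat_lit 696334) (nat_lit 5) (.e (nat_lit 2892) (nat_lit 184) .nil)))))))) (.g (nat_lit 1) (.e (nat_lit 300985) (nat_lit 0) .nil) .nil))) 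
(.lf (nat_lit 552785) (.g (nat_lit 3695) (.e (nat_lit 426129) (nat_lit 3) (.e (nat_lit 204869) (nat_lit 29) (.e (nat_lit 360474) (nat_lit 8) (.e (nat_lit 557089) (nat_lit 12) .nil)))) (.g (nat_lit 0) (.e (nat_lit 301892) (nat_lit 0) .nil) .nil))))) (.nd (nat_lit 8) (.nd (nat_lit 9) 
(.lf (nat_lit 552145) (.g (nat_lit 3343) (.e (nat_lit 426125) (nat_lit 2) (.e (nat_lit 196666) (nat_lit 13) (.e (nat_lit 65610) (nat_lit 10) (.e (nat_lit 344128) (nat_lit 26) (.e (nat_lit 557090) (nat_lit 12) (.e (nat_lit 164020) (nat_lit 45) (.e (nat_lit 696330) (nat_lit 5) (.e (nat_lit 2878) (nat_lit 184) .nil)))))))) (.g (nat_lit 1) (.e (nat_lit 300642) (nat_lit 0) .nil) .nil))) 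
(.lf (nat_lit 552657) (.g (nat_lit 3040) (.e (nat_lit 426125) (nat_lit 2) (.e (nat_lit 196666) (nat_lit 13) (.e (nat_lit 65624) (nat_lit 12) (.e (nat_lit 385066) (nat_lit 26) (.e (nat_lit 532515) (nat_lit 3) (.e (nat_lit 122624) (nat_lit 11) .nil)))))) (.g (nat_lit 1) (.e (nat_lit 301568) (nat_lit 0) .nil) .nil)))) (.nd (nat_lit 9) 
(.lf (nat_lit 552401) (.g (nat_lit 1849) (.e (nat_lit 426125) (nat_lit 2) (.e (nat_lit 196666) (nat_lit 13) (.e (nat_lit 65617) (nat_lit 10) (.e (nat_lit 344130) (nat_lit 26) (.e (nat_lit 557090) (nat_lit 12) .nil))))) (.g (nat_lit 0) (.e (nat_lit 301167) (nat_lit 0) .nil) .nil))) 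
(.lf (nat_lit 552913) (.g (nat_lit 1994) (.e (nat_lit 426131) (nat_lit 3) (.e (nat_lit 204830) (nat_lit 18) (.e (nat_lit 57692) (nat_lit 156) (.e (nat_lit 163907) (nat_lit 12) (.e (nat_lit 426481) (nat_lit 27) .nil))))) (.g (nat_lit 0) (.e (nat_lit 302102) (nat_lit 0) .nil) .nil))))))) (.nd (nat_lit 6) (.nd (nat_lit 7) (.nd (nat_lit 8) (.nd (nat_lit 9) 
(.lf (nat_lit 551985) (.g (nat_lit 3915) (.e (nat_lit 426123) (nat_lit 2) (.e (nat_lit 196666) (nat_lit 13) (.e (nat_lit 65617) (nat_lit 10) (.e (nat_lit 344132) (nat_lit 26) (.e (nat_lit 557093) (nat_lit 12) (.e (nat_lit 164022) (nat_lit 46) (.e (nat_lit 704628) (nat_lit 9) (.e (nat_lit 398) (nat_lit 32) .nil)))))))) (.g (nat_lit 1) (.e (nat_lit 299130) (nat_lit 0) .nil) .nil))) 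
(.lf (nat_lit 552497) (.g (nat_lit 3010) (.e (nat_lit 426125) (nat_lit 2) (.e (nat_lit 196666) (nat_lit 13) (.e (nat_lit 65617) (nat_lit 10) (.e (nat_lit 344132) (nat_lit 26) (.e (nat_lit 557093) (nat_lit 12) (.e (nat_lit 163847) (nat_lit 0) (.e (nat_lit 6416) (nat_lit 341) (.e (nat_lit 163900) (nat_lit 12) .nil)))))))) (.g (nat_lit 1) (.e (nat_lit 301316) (nat_lit 0) .nil) .nil)))) 
(.nd (nat_lit 9) 
(.lf (nat_lit 552241) (.g (nat_lit 3521) (.e (nat_lit 426125) (nat_lit 2) (.e (nat_lit 196666) (nat_lit 13) (.e (nat_lit 65610) (nat_lit 10) (.e (nat_lit 344129) (nat_lit 26) (.e (nat_lit 557090) (nat_lit 12) (.e (nat_lit 163849) (nat_lit 0) (.e (nat_lit 6416) (nat_lit 341) (.e (nat_lit 163900) (nat_lit 12) .nil)))))))) (.g (nat_lit 1) (.e (nat_lit 300939) (nat_lit 0) .nil) .nil))) 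
(.lf (nat_lit 552753) (.g (nat_lit 1853) (.e (nat_lit 426129) (nat_lit 3) (.e (nat_lit 204861) (nat_lit 26) (.e (nat_lit 336075) (nat_lit 9) (.e (nat_lit 336324) (nat_lit 18) (.e (nat_lit 204837) (nat_lit 20) .nil))))) (.g (nat_lit 0) (.e (nat_lit 301849) (nat_lit 0) .nil) .nil))))) (.nd (nat_lit 8) (.nd (nat_lit 9) 
(.lf (nat_lit 552113) (.g (nat_lit 3977) (.e (nat_lit 426125) (nat_lit 2) (.e (nat_lit 196630) (nat_lit 9) (.e (nat_lit 1592) (nat_lit 111) (.e (nat_lit 360473) (nat_lit 8) (.e (nat_lit 557090) (nat_lit 12) (.e (nat_lit 164020) (nat_lit 45) (.e (nat_lit 696330) (nat_lit 5) (.e (nat_lit 2878) (nat_lit 184) .nil)))))))) (.g (nat_lit 1) (.e (nat_lit 299540) (nat_lit 0) .nil) .nil))) 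
(.lf (nat_lit 552625) (.g (nat_lit 4065) (.e (nat_lit 426125) (nat_lit 2) (.e (nat_lit 196666) (nat_lit 13) (.e (nat_lit 65617) (nat_lit 10) (.e (nat_lit 344133) (nat_lit 26) (.e (nat_lit 557091) (nat_lit 12) (.e (nat_lit 164020) (nat_lit 45) (.e (nat_lit 696329) (nat_lit 5) (.e (nat_lit 2878) (nat_lit 184) .nil)))))))) (.g (nat_lit 1) (.e (nat_lit 301519) (nat_lit 0) .nil) .nil)))) 
(.nd (nat_lit 9) 
(.lf (nat_lit 552369) (.g (nat_lit 4572) (.e (nat_lit 426125) (nat_lit 2) (.e (nat_lit 196666) (nat_lit 13) (.e (nat_lit 65617) (nat_lit 10) (.e (nat_lit 344127) (nat_lit 26) (.e (nat_lit 557090) (nat_lit 12) (.e (nat_lit 164020) (nat_lit 45) (.e (nat_lit 696329) (nat_lit 5) (.e (nat_lit 2878) (nat_lit 184) .nil)))))))) (.g (nat_lit 1) (.e (nat_lit 301121) (nat_lit 0) .nil) .nil))) 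
(.lf (nat_lit 552881) (.g (nat_lit 987) (.e (nat_lit 426131) (nat_lit 3) (.e (nat_lit 204829) (nat_lit 18) (.e (nat_lit 57651) (nat_lit 152) .nil))) (.g (nat_lit 0) (.e (nat_lit 302044) (nat_lit 0) .nil) .nil)))))) (.nd (nat_lit 7) (.nd (nat_lit 8) (.nd (nat_lit 9) 
(.lf (nat_lit 552049) (.g (nat_lit 4319) (.e (nat_lit 426123) (nat_lit 2) (.e (nat_lit 196666) (nat_lit 13) (.e (nat_lit 65617) (nat_lit 10) (.e (nat_lit 344133) (nat_lit 26) (.e (nat_lit 557091) (nat_lit 12) (.e (nat_lit 164022) (nat_lit 46) (.e (nat_lit 704628) (nat_lit 9) (.e (nat_lit 398) (nat_lit 32) .nil)))))))) (.g (nat_lit 1) (.e (nat_lit 299231) (nat_lit 0) .nil) .nil))) 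
(.lf (nat_lit 552561) (.g (nat_lit 2519) (.e (nat_lit 426125) (nat_lit 2) (.e (nat_lit 196666) (nat_lit 13) (.e (nat_lit 65617) (nat_lit 10) (.e (nat_lit 344133) (nat_lit 26) (.e (nat_lit 557089) (nat_lit 12) (.e (nat_lit 163846) (nat_lit 0) (.e (nat_lit 6424) (nat_lit 342) (.e (nat_lit 229399) (nat_lit 12) .nil)))))))) (.g (nat_lit 1) (.e (nat_lit 301404) (nat_lit 0) .nil) .nil)))) 
(.nd (nat_lit 9) 
(.lf (nat_lit 552305) (.g (nat_lit 4630) (.e (nat_lit 426125) (nat_lit 2) (.e (nat_lit 196666) (nat_lit 13) (.e (nat_lit 65610) (nat_lit 10) (.e (nat_lit 344129) (nat_lit 26) (.e (nat_lit 557093) (nat_lit 12) (.e (nat_lit 164023) (nat_lit 46) (.e (nat_lit 704629) (nat_lit 9) (.e (nat_lit 375) (nat_lit 32) .nil)))))))) (.g (nat_lit 1) (.e (nat_lit 301038) (nat_lit 0) .nil) .nil))) 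
(.lf (nat_lit 552817) (.g (nat_lit 5316) (.e (nat_lit 426129) (nat_lit 3) (.e (nat_lit 204869) (nat_lit 29) (.e (nat_lit 360475) (nat_lit 8) (.e (nat_lit 557089) (nat_lit 12) (.e (nat_lit 163849) (nat_lit 0) (.e (nat_lit 6421) (nat_lit 341) (.e (nat_lit 163913) (nat_lit 12) .nil))))))) (.g (nat_lit 1) (.e (nat_lit 301927) (nat_lit 0) .nil) .nil))))) (.nd (nat_lit 8) (.nd (nat_lit 9) 
(.lf (nat_lit 552177) (.g (nat_lit 4292) (.e (nat_lit 426125) (nat_lit 2) (.e (nat_lit 196666) (nat_lit 13) (.e (nat_lit 65610) (nat_lit 10) (.e (nat_lit 344129) (nat_lit 26) (.e (nat_lit 557089) (nat_lit 12) (.e (nat_lit 163849) (nat_lit 0) (.e (nat_lit 6416) (nat_lit 341) (.e (nat_lit 163900) (nat_lit 12) .nil)))))))) (.g (nat_lit 1) (.e (nat_lit 300779) (nat_lit 0) .nil) .nil))) 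
(.lf (nat_lit 552689) (.g (nat_lit 2002) (.e (nat_lit 426129) (nat_lit 3) (.e (nat_lit 204831) (nat_lit 18) (.e (nat_lit 57691) (nat_lit 156) (.e (nat_lit 163907) (nat_lit 12) (.e (nat_lit 426568) (nat_lit 34) .nil))))) (.g (nat_lit 0) (.e (nat_lit 301679) (nat_lit 0) .nil) .nil)))) (.nd (nat_lit 9) 
(.lf (nat_lit 552433) (.g (nat_lit 3969) (.e (nat_lit 426125) (nat_lit 2) (.e (nat_lit 196666) (nat_lit 13) (.e (nat_lit 65617) (nat_lit 10) (.e (nat_lit 344130) (nat_lit 26) (.e (nat_lit 557090) (nat_lit 12) (.e (nat_lit 164016) (nat_lit 44) (.e (nat_lit 688138) (nat_lit 5) (.e (nat_lit 2883) (nat_lit 184) .nil)))))))) (.g (nat_lit 1) (.e (nat_lit 301235) (nat_lit 0) .nil) .nil))) 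
(.lf (nat_lit 552945) (.g (nat_lit 3055) (.e (nat_lit 426131) (nat_lit 3) (.e (nat_lit 204846) (nat_lit 24) (.e (nat_lit 319531) (nat_lit 16) (.e (nat_lit 286733) (nat_lit 2) (.e (nat_lit 90183) (nat_lit 17) .nil))))) (.g (nat_lit 0) (.e (nat_lit 302147) (nat_lit 0) .nil) .nil))))))))) (.nd (nat_lit 4) (.nd (nat_lit 5) (.nd (nat_lit 6) (.nd (nat_lit 7) (.nd (nat_lit 8) (.nd (nat_lit 9) 
(.lf (nat_lit 551945) (.g (nat_lit 3275) (.e (nat_lit 426123) (nat_lit 2) (.e (nat_lit 196666) (nat_lit 13) (.e (nat_lit 65617) (nat_lit 10) (.e (nat_lit 344130) (nat_lit 26) (.e (nat_lit 557090) (nat_lit 12) (.e (nat_lit 163843) (nat_lit 0) (.e (nat_lit 6420) (nat_lit 341) (.e (nat_lit 171776) (nat_lit 12) .nil)))))))) (.g (nat_lit 1) (.e (nat_lit 299083) (nat_lit 0) .nil) .nil))) 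
(.lf (nat_lit 552457) (.g (nat_lit 5078) (.e (nat_lit 426125) (nat_lit 2) (.e (nat_lit 196666) (nat_lit 13) (.e (nat_lit 65617) (nat_lit 10) (.e (nat_lit 344130) (nat_lit 26) (.e (nat_lit 557090) (nat_lit 12) (.e (nat_lit 164022) (nat_lit 46) (.e (nat_lit 704628) (nat_lit 9) (.e (nat_lit 377) (nat_lit 32) .nil)))))))) (.g (nat_lit 1) (.e (nat_lit 301269) (nat_lit 0) .nil) .nil)))) 
(.nd (nat_lit 9) 
(.lf (nat_lit 552201) (.g (nat_lit 2725) (.e (nat_lit 426125) (nat_lit 2) (.e (nat_lit 196666) (nat_lit 13) (.e (nat_lit 65610) (nat_lit 10) (.e (nat_lit 344129) (nat_lit 26) (.e (nat_lit 557089) (nat_lit 12) (.e (nat_lit 164020) (nat_lit 45) (.e (nat_lit 696329) (nat_lit 5) (.e (nat_lit 2878) (nat_lit 184) .nil)))))))) (.g (nat_lit 1) (.e (nat_lit 300807) (nat_lit 0) .nil) .nil))) 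
(.lf (nat_lit 552713) (.g (nat_lit 2708) (.e (nat_lit 426129) (nat_lit 3) (.e (nat_lit 204846) (nat_lit 24) (.e (nat_lit 319531) (nat_lit 16) (.e (nat_lit 286735) (nat_lit 3) (.e (nat_lit 98363) (nat_lit 26) (.e (nat_lit 426234) (nat_lit 9) .nil)))))) (.g (nat_lit 1) (.e (nat_lit 301724) (nat_lit 0) .nil) .nil))))) (.nd (nat_lit 8) (.nd (nat_lit 9) 
(.lf (nat_lit 552073) (.g (nat_lit 1843) (.e (nat_lit 426123) (nat_lit 2) (.e (nat_lit 196666) (nat_lit 13) (.e (nat_lit 65624) (nat_lit 12) (.e (nat_lit 385069) (nat_lit 27) .nil)))) (.g (nat_lit 0) (.e (nat_lit 299272) (nat_lit 0) .nil) .nil))) 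
(.lf (nat_lit 552585) (.g (nat_lit 3444) (.e (nat_lit 426125) (nat_lit 2) (.e (nat_lit 196666) (nat_lit 13) (.e (nat_lit 65617) (nat_lit 10) (.e (nat_lit 344133) (nat_lit 26) (.e (nat_lit 557091) (nat_lit 12) (.e (nat_lit 163840) (nat_lit 0) (.e (nat_lit 6421) (nat_lit 341) (.e (nat_lit 163900) (nat_lit 12) .nil)))))))) (.g (nat_lit 1) (.e (nat_lit 301439) (nat_lit 0) .nil) .nil)))) 
(.nd (nat_lit 9) 
(.lf (nat_lit 552329) (.g (nat_lit 3105) (.e (nat_lit 426125) (nat_lit 2) (.e (nat_lit 196666) (nat_lit 13) (.e (nat_lit 65617) (nat_lit 10) (.e (nat_lit 344127) (nat_lit 26) (.e (nat_lit 557088) (nat_lit 12) (.e (nat_lit 164020) (nat_lit 45) (.e (nat_lit 696329) (nat_lit 5) (.e (nat_lit 2884) (nat_lit 184) .nil)))))))) (.g (nat_lit 1) (.e (nat_lit 301065) (nat_lit 0) .nil) .nil))) 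
(.lf (nat_lit 552841) (.g (nat_lit 1817) (.e (nat_lit 426129) (nat_lit 3) (.e (nat_lit 204877) (nat_lit 31) (.e (nat_lit 376835) (nat_lit 0) (.e (nat_lit 3253) (nat_lit 197) (.e (nat_lit 532515) (nat_lit 3) (.e (nat_lit 122624) (nat_lit 11) .nil)))))) (.g (nat_lit 1) (.e (nat_lit 301953) (nat_lit 0) .nil) .nil)))))) (.nd (nat_lit 7) (.nd (nat_lit 8) (.nd (nat_lit 9) 
(.lf (nat_lit 552009) (.g (nat_lit 3726) (.e (nat_lit 426123) (nat_lit 2) (.e (nat_lit 196666) (nat_lit 13) (.e (nat_lit 65617) (nat_lit 10) (.e (nat_lit 344132) (nat_lit 26) (.e (nat_lit 557094) (nat_lit 12) (.e (nat_lit 164022) (nat_lit 46) (.e (nat_lit 704626) (nat_lit 9) (.e (nat_lit 391) (nat_lit 32) .nil)))))))) (.g (nat_lit 1) (.e (nat_lit 299185) (nat_lit 0) .nil) .nil))) 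
(.lf (nat_lit 552521) (.g (nat_lit 3581) (.e (nat_lit 426125) (nat_lit 2) (.e (nat_lit 196666) (nat_lit 13) (.e (nat_lit 65617) (nat_lit 10) (.e (nat_lit 344132) (nat_lit 26) (.e (nat_lit 557093) (nat_lit 12) (.e (nat_lit 164023) (nat_lit 46) (.e (nat_lit 704628) (nat_lit 9) (.e (nat_lit 370) (nat_lit 32) .nil)))))))) (.g (nat_lit 1) (.e (nat_lit 301350) (nat_lit 0) .nil) .nil)))) 
(.nd (nat_lit 9) 
(.lf (nat_lit 552265) (.g (nat_lit 3806) (.e (nat_lit 426125) (nat_lit 2) (.e (nat_lit 196666) (nat_lit 13) (.e (nat_lit 65610) (nat_lit 10) (.e (nat_lit 344129) (nat_lit 26) (.e (nat_lit 557090) (nat_lit 12) (.e (nat_lit 164018) (nat_lit 45) (.e (nat_lit 696327) (nat_lit 5) (.e (nat_lit 2873) (nat_lit 184) .nil)))))))) (.g (nat_lit 1) (.e (nat_lit 300977) (nat_lit 0) .nil) .nil))) 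
(.lf (nat_lit 552777) (.g (nat_lit 3952) (.e (nat_lit 426129) (nat_lit 3) (.e (nat_lit 204868) (nat_lit 29) (.e (nat_lit 360475) (nat_lit 8) (.e (nat_lit 557091) (nat_lit 12) (.e (nat_lit 163844) (nat_lit 0) .nil))))) (.g (nat_lit 0) (.e (nat_lit 301883) (nat_lit 0) .nil) .nil))))) (.nd (nat_lit 8) (.nd (nat_lit 9) 
(.lf (nat_lit 552137) (.g (nat_lit 4445) (.e (nat_lit 426125) (nat_lit 2) (.e (nat_lit 196666) (nat_lit 13) (.e (nat_lit 65610) (nat_lit 10) (.e (nat_lit 344117) (nat_lit 21) (.e (nat_lit 524032) (nat_lit 18) (.e (nat_lit 57691) (nat_lit 156) (.e (nat_lit 163910) (nat_lit 12) .nil))))))) (.g (nat_lit 1) (.e (nat_lit 300632) (nat_lit 0) .nil) .nil))) 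
(.lf (nat_lit 552649) (.g (nat_lit 629) (.e (nat_lit 426125) (nat_lit 2) (.e (nat_lit 196666) (nat_lit 13) (.e (nat_lit 65619) (nat_lit 10) .nil))) (.g (nat_lit 0) (.e (nat_lit 301556) (nat_lit 0) .nil) .nil)))) (.nd (nat_lit 9) 
(.lf (nat_lit 552393) (.g (nat_lit 4488) (.e (nat_lit 426125) (nat_lit 2) (.e (nat_lit 196666) (nat_lit 13) (.e (nat_lit 65617) (nat_lit 10) (.e (nat_lit 344130) (nat_lit 26) (.e (nat_lit 557089) (nat_lit 12) (.e (nat_lit 164017) (nat_lit 44) (.e (nat_lit 688138) (nat_lit 5) (.e (nat_lit 2883) (nat_lit 184) .nil)))))))) (.g (nat_lit 1) (.e (nat_lit 301156) (nat_lit 0) .nil) .nil))) 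
(.lf (nat_lit 552905) (.g (nat_lit 2196) (.e (nat_lit 426131) (nat_lit 3) (.e (nat_lit 204829) (nat_lit 18) (.e (nat_lit 57692) (nat_lit 156) (.e (nat_lit 163907) (nat_lit 12) (.e (nat_lit 426493) (nat_lit 27) .nil))))) (.g (nat_lit 0) (.e (nat_lit 302080) (nat_lit 0) .nil) .nil))))))) (.nd (nat_lit 6) (.nd (nat_lit 7) (.nd (nat_lit 8) (.nd (nat_lit 9) 
(.lf (nat_lit 551977) (.g (nat_lit 3762) (.e (nat_lit 426123) (nat_lit 2) (.e (nat_lit 196666) (nat_lit 13) (.e (nat_lit 65617) (nat_lit 10) (.e (nat_lit 344132) (nat_lit 26) (.e (nat_lit 557093) (nat_lit 12) (.e (nat_lit 164022) (nat_lit 46) (.e (nat_lit 704626) (nat_lit 9) (.e (nat_lit 440) (nat_lit 32) .nil)))))))) (.g (nat_lit 1) (.e (nat_lit 299122) (nat_lit 0) .nil) .nil))) 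
(.lf (nat_lit 552489) (.g (nat_lit 3891) (.e (nat_lit 426125) (nat_lit 2) (.e (nat_lit 196666) (nat_lit 13) (.e (nat_lit 65617) (nat_lit 10) (.e (nat_lit 344132) (nat_lit 26) (.e (nat_lit 557091) (nat_lit 12) (.e (nat_lit 164020) (nat_lit 45) (.e (nat_lit 696329) (nat_lit 5) (.e (nat_lit 2878) (nat_lit 184) .nil)))))))) (.g (nat_lit 1) (.e (nat_lit 301307) (nat_lit 0) .nil) .nil)))) 
(.nd (nat_lit 9) 
(.lf (nat_lit 552233) (.g (nat_lit 3319) (.e (nat_lit 426125) (nat_lit 2) (.e (nat_lit 196666) (nat_lit 13) (.e (nat_lit 65610) (nat_lit 10) (.e (nat_lit 344129) (nat_lit 26) (.e (nat_lit 557090) (nat_lit 12) (.e (nat_lit 163844) (nat_lit 0) (.e (nat_lit 6421) (nat_lit 341) (.e (nat_lit 163909) (nat_lit 12) .nil)))))))) (.g (nat_lit 1) (.e (nat_lit 300899) (nat_lit 0) .nil) .nil))) 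
(.lf (nat_lit 552745) (.g (nat_lit 1445) (.e (nat_lit 426129) (nat_lit 3) (.e (nat_lit 204846) (nat_lit 24) (.e (nat_lit 319535) (nat_lit 17) (.e (nat_lit 294930) (nat_lit 3) .nil)))) (.g (nat_lit 0) (.e (nat_lit 301776) (nat_lit 0) .nil) .nil))))) (.nd (nat_lit 8) (.nd (nat_lit 9) 
(.lf (nat_lit 552105) (.g (nat_lit 3957) (.e (nat_lit 426124) (nat_lit 2) (.e (nat_lit 196681) (nat_lit 17) (.e (nat_lit 131109) (nat_lit 9) (.e (nat_lit 336324) (nat_lit 18) (.e (nat_lit 204837) (nat_lit 20) (.e (nat_lit 114698) (nat_lit 11) .nil)))))) (.g (nat_lit 1) (.e (nat_lit 299488) (nat_lit 0) .nil) .nil))) 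
(.lf (nat_lit 552617) (.g (nat_lit 2754) (.e (nat_lit 426125) (nat_lit 2) (.e (nat_lit 196666) (nat_lit 13) (.e (nat_lit 65617) (nat_lit 10) (.e (nat_lit 344133) (nat_lit 26) (.e (nat_lit 557091) (nat_lit 12) (.e (nat_lit 164018) (nat_lit 45) (.e (nat_lit 696330) (nat_lit 5) (.e (nat_lit 2842) (nat_lit 184) .nil)))))))) (.g (nat_lit 1) (.e (nat_lit 301511) (nat_lit 0) .nil) .nil)))) 
(.nd (nat_lit 9) 
(.lf (nat_lit 552361) (.g (nat_lit 3466) (.e (nat_lit 426125) (nat_lit 2) (.e (nat_lit 196666) (nat_lit 13) (.e (nat_lit 65617) (nat_lit 10) (.e (nat_lit 344127) (nat_lit 26) (.e (nat_lit 557090) (nat_lit 12) (.e (nat_lit 164018) (nat_lit 45) (.e (nat_lit 696327) (nat_lit 5) (.e (nat_lit 2884) (nat_lit 184) .nil)))))))) (.g (nat_lit 1) (.e (nat_lit 301113) (nat_lit 0) .nil) .nil))) 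
(.lf (nat_lit 552873) (.g (nat_lit 6863) (.e (nat_lit 426130) (nat_lit 3) (.e (nat_lit 204869) (nat_lit 29) (.e (nat_lit 360475) (nat_lit 8) (.e (nat_lit 557090) (nat_lit 12) (.e (nat_lit 163844) (nat_lit 0) .nil))))) (.g (nat_lit 0) (.e (nat_lit 302030) (nat_lit 0) .nil) .nil)))))) (.nd (nat_lit 7) (.nd (nat_lit 8) (.nd (nat_lit 9) 
(.lf (nat_lit 552041) (.g (nat_lit 4651) (.e (nat_lit 426123) (nat_lit 2) (.e (nat_lit 196666) (nat_lit 13) (.e (nat_lit 65617) (nat_lit 10) (.e (nat_lit 344133) (nat_lit 26) (.e (nat_lit 557091) (nat_lit 12) (.e (nat_lit 164022) (nat_lit 46) (.e (nat_lit 704626) (nat_lit 9) (.e (nat_lit 435) (nat_lit 32) .nil)))))))) (.g (nat_lit 1) (.e (nat_lit 299223) (nat_lit 0) .nil) .nil))) 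
(.lf (nat_lit 552553) (.g (nat_lit 2204) (.e (nat_lit 426125) (nat_lit 2) (.e (nat_lit 196666) (nat_lit 13) (.e (nat_lit 65617) (nat_lit 10) (.e (nat_lit 344133) (nat_lit 26) (.e (nat_lit 557065) (nat_lit 9) (.e (nat_lit 2612) (nat_lit 163) (.e (nat_lit 164189) (nat_lit 157) (.e (nat_lit 229399) (nat_lit 12) .nil)))))))) (.g (nat_lit 1) (.e (nat_lit 301390) (nat_lit 0) .nil) .nil)))) 
(.nd (nat_lit 9) 
(.lf (nat_lit 552297) (.g (nat_lit 3945) (.e (nat_lit 426125) (nat_lit 2) (.e (nat_lit 196666) (nat_lit 13) (.e (nat_lit 65610) (nat_lit 10) (.e (nat_lit 344129) (nat_lit 26) (.e (nat_lit 557090) (nat_lit 12) (.e (nat_lit 171776) (nat_lit 48) (.e (nat_lit 728832) (nat_lit 11) .nil))))))) (.g (nat_lit 1) (.e (nat_lit 301030) (nat_lit 0) .nil) .nil))) 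
(.lf (nat_lit 552809) (.g (nat_lit 2798) (.e (nat_lit 426129) (nat_lit 3) (.e (nat_lit 204869) (nat_lit 29) (.e (nat_lit 360474) (nat_lit 8) (.e (nat_lit 557094) (nat_lit 12) (.e (nat_lit 171776) (nat_lit 48) (.e (nat_lit 720906) (nat_lit 11) .nil)))))) (.g (nat_lit 1) (.e (nat_lit 301916) (nat_lit 0) .nil) .nil))))) (.nd (nat_lit 8) (.nd (nat_lit 9) 
(.lf (nat_lit 552169) (.g (nat_lit 2255) (.e (nat_lit 426125) (nat_lit 2) (.e (nat_lit 196666) (nat_lit 13) (.e (nat_lit 65610) (nat_lit 10) (.e (nat_lit 344129) (nat_lit 26) (.e (nat_lit 557089) (nat_lit 12) (.e (nat_lit 163844) (nat_lit 0) (.e (nat_lit 6418) (nat_lit 341) (.e (nat_lit 163909) (nat_lit 12) .nil)))))))) (.g (nat_lit 1) (.e (nat_lit 300748) (nat_lit 0) .nil) .nil))) 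
(.lf (nat_lit 552681) (.g (nat_lit 546) (.e (nat_lit 426129) (nat_lit 3) (.e (nat_lit 204830) (nat_lit 18) (.e (nat_lit 57663) (nat_lit 152) .nil))) (.g (nat_lit 0) (.e (nat_lit 301654) (nat_lit 0) .nil) .nil)))) (.nd (nat_lit 9) 
(.lf (nat_lit 552425) (.g (nat_lit 3408) (.e (nat_lit 426125) (nat_lit 2) (.e (nat_lit 196666) (nat_lit 13) (.e (nat_lit 65617) (nat_lit 10) (.e (nat_lit 344130) (nat_lit 26) (.e (nat_lit 557090) (nat_lit 12) (.e (nat_lit 163849) (nat_lit 0) (.e (nat_lit 6416) (nat_lit 341) (.e (nat_lit 163900) (nat_lit 12) .nil)))))))) (.g (nat_lit 1) (.e (nat_lit 301226) (nat_lit 0) .nil) .nil))) 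
(.lf (nat_lit 552937) (.g (nat_lit 667) (.e (nat_lit 426131) (nat_lit 3) (.e (nat_lit 204846) (nat_lit 24) (.e (nat_lit 319529) (nat_lit 16) .nil))) (.g (nat_lit 0) (.e (nat_lit 302138) (nat_lit 0) .nil) .nil)))))))) (.nd (nat_lit 5) (.nd (nat_lit 6) (.nd (nat_lit 7) (.nd (nat_lit 8) (.nd (nat_lit 9) 
(.lf (nat_lit 551961) (.g (nat_lit 4435) (.e (nat_lit 426123) (nat_lit 2) (.e (nat_lit 196666) (nat_lit 13) (.e (nat_lit 65617) (nat_lit 10) (.e (nat_lit 344130) (nat_lit 26) (.e (nat_lit 557090) (nat_lit 12) (.e (nat_lit 164022) (nat_lit 46) (.e (nat_lit 704628) (nat_lit 9) (.e (nat_lit 399) (nat_lit 32) .nil)))))))) (.g (nat_lit 1) (.e (nat_lit 299103) (nat_lit 0) .nil) .nil))) 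
(.lf (nat_lit 552473) (.g (nat_lit 2568) (.e (nat_lit 426125) (nat_lit 2) (.e (nat_lit 196666) (nat_lit 13) (.e (nat_lit 65617) (nat_lit 10) (.e (nat_lit 344132) (nat_lit 26) (.e (nat_lit 557089) (nat_lit 12) (.e (nat_lit 164020) (nat_lit 45) (.e (nat_lit 696327) (nat_lit 5) (.e (nat_lit 2884) (nat_lit 184) .nil)))))))) (.g (nat_lit 1) (.e (nat_lit 301291) (nat_lit 0) .nil) .nil)))) 
(.nd (nat_lit 9) 
(.lf (nat_lit 552217) (.g (nat_lit 2156) (.e (nat_lit 426125) (nat_lit 2) (.e (nat_lit 196666) (nat_lit 13) (.e (nat_lit 65610) (nat_lit 10) (.e (nat_lit 344129) (nat_lit 26) (.e (nat_lit 557090) (nat_lit 12) (.e (nat_lit 163840) (nat_lit 0) (.e (nat_lit 6427) (nat_lit 342) (.e (nat_lit 229399) (nat_lit 12) .nil)))))))) (.g (nat_lit 1) (.e (nat_lit 300831) (nat_lit 0) .nil) .nil))) 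
(.lf (nat_lit 552729) (.g (nat_lit 2571) (.e (nat_lit 426129) (nat_lit 3) (.e (nat_lit 204846) (nat_lit 24) (.e (nat_lit 319533) (nat_lit 16) (.e (nat_lit 286735) (nat_lit 3) (.e (nat_lit 106240) (nat_lit 26) .nil))))) (.g (nat_lit 0) (.e (nat_lit 301750) (nat_lit 0) .nil) .nil))))) (.nd (nat_lit 8) (.nd (nat_lit 9) 
(.lf (nat_lit 552089) (.g (nat_lit 629) (.e (nat_lit 426124) (nat_lit 2) (.e (nat_lit 196672) (nat_lit 15) (.e (nat_lit 81943) (nat_lit 20) (.e (nat_lit 1841) (nat_lit 123) .nil)))) (.g (nat_lit 0) (.e (nat_lit 299361) (nat_lit 0) .nil) .nil))) 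
(.lf (nat_lit 552601) (.g (nat_lit 2635) (.e (nat_lit 426125) (nat_lit 2) (.e (nat_lit 196666) (nat_lit 13) (.e (nat_lit 65617) (nat_lit 10) (.e (nat_lit 344133) (nat_lit 26) (.e (nat_lit 557091) (nat_lit 12) (.e (nat_lit 163849) (nat_lit 0) (.e (nat_lit 6418) (nat_lit 341) (.e (nat_lit 163900) (nat_lit 12) .nil)))))))) (.g (nat_lit 1) (.e (nat_lit 301488) (nat_lit 0) .nil) .nil)))) 
(.nd (nat_lit 9) 
(.lf (nat_lit 552345) (.g (nat_lit 5488) (.e (nat_lit 426125) (nat_lit 2) (.e (nat_lit 196666) (nat_lit 13) (.e (nat_lit 65617) (nat_lit 10) (.e (nat_lit 344127) (nat_lit 26) (.e (nat_lit 557090) (nat_lit 12) (.e (nat_lit 163844) (nat_lit 0) (.e (nat_lit 6416) (nat_lit 341) (.e (nat_lit 163909) (nat_lit 12) .nil)))))))) (.g (nat_lit 1) (.e (nat_lit 301094) (nat_lit 0) .nil) .nil))) 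
(.lf (nat_lit 552857) (.g (nat_lit 1613) (.e (nat_lit 426130) (nat_lit 3) (.e (nat_lit 204846) (nat_lit 24) (.e (nat_lit 319534) (nat_lit 16) (.e (nat_lit 286734) (nat_lit 3) .nil)))) (.g (nat_lit 0) (.e (nat_lit 302013) (nat_lit 0) .nil) .nil)))))) (.nd (nat_lit 7) (.nd (nat_lit 8) (.nd (nat_lit 9) 
(.lf (nat_lit 552025) (.g (nat_lit 3265) (.e (nat_lit 426123) (nat_lit 2) (.e (nat_lit 196666) (nat_lit 13) (.e (nat_lit 65617) (nat_lit 10) (.e (nat_lit 344133) (nat_lit 26) (.e (nat_lit 557089) (nat_lit 12) (.e (nat_lit 163844) (nat_lit 0) (.e (nat_lit 6421) (nat_lit 341) (.e (nat_lit 171776) (nat_lit 12) .nil)))))))) (.g (nat_lit 1) (.e (nat_lit 299202) (nat_lit 0) .nil) .nil))) 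
(.lf (nat_lit 552537) (.g (nat_lit 2161) (.e (nat_lit 426125) (nat_lit 2) (.e (nat_lit 196666) (nat_lit 13) (.e (nat_lit 65617) (nat_lit 10) (.e (nat_lit 344132) (nat_lit 26) (.e (nat_lit 557094) (nat_lit 12) (.e (nat_lit 163854) (nat_lit 0) (.e (nat_lit 6425) (nat_lit 342) (.e (nat_lit 229399) (nat_lit 12) .nil)))))))) (.g (nat_lit 1) (.e (nat_lit 301369) (nat_lit 0) .nil) .nil)))) 
(.nd (nat_lit 9) 
(.lf (nat_lit 552281) (.g (nat_lit 3087) (.e (nat_lit 426125) (nat_lit 2) (.e (nat_lit 196666) (nat_lit 13) (.e (nat_lit 65610) (nat_lit 10) (.e (nat_lit 344129) (nat_lit 26) (.e (nat_lit 557090) (nat_lit 12) (.e (nat_lit 164019) (nat_lit 45) (.e (nat_lit 696326) (nat_lit 5) (.e (nat_lit 2885) (nat_lit 184) .nil)))))))) (.g (nat_lit 1) (.e (nat_lit 300993) (nat_lit 0) .nil) .nil))) 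
(.lf (nat_lit 552793) (.g (nat_lit 5234) (.e (nat_lit 426129) (nat_lit 3) (.e (nat_lit 204869) (nat_lit 29) (.e (nat_lit 360474) (nat_lit 8) (.e (nat_lit 557091) (nat_lit 12) (.e (nat_lit 163849) (nat_lit 0) .nil))))) (.g (nat_lit 0) (.e (nat_lit 301900) (nat_lit 0) .nil) .nil))))) (.nd (nat_lit 8) (.nd (nat_lit 9) 
(.lf (nat_lit 552153) (.g (nat_lit 1896) (.e (nat_lit 426125) (nat_lit 2) (.e (nat_lit 196666) (nat_lit 13) (.e (nat_lit 65610) (nat_lit 10) (.e (nat_lit 344129) (nat_lit 26) (.e (nat_lit 557069) (nat_lit 9) (.e (nat_lit 2612) (nat_lit 163) (.e (nat_lit 164189) (nat_lit 157) (.e (nat_lit 229399) (nat_lit 12) .nil)))))))) (.g (nat_lit 1) (.e (nat_lit 300670) (nat_lit 0) .nil) .nil))) 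
(.lf (nat_lit 552665) (.g (nat_lit 1769) (.e (nat_lit 426126) (nat_lit 2) (.e (nat_lit 196681) (nat_lit 17) (.e (nat_lit 131105) (nat_lit 9) (.e (nat_lit 336324) (nat_lit 18) (.e (nat_lit 204837) (nat_lit 20) .nil))))) (.g (nat_lit 0) (.e (nat_lit 301591) (nat_lit 0) .nil) .nil)))) (.nd (nat_lit 9) 
(.lf (nat_lit 552409) (.g (nat_lit 4849) (.e (nat_lit 426125) (nat_lit 2) (.e (nat_lit 196666) (nat_lit 13) (.e (nat_lit 65617) (nat_lit 10) (.e (nat_lit 344130) (nat_lit 26) (.e (nat_lit 557090) (nat_lit 12) (.e (nat_lit 163843) (nat_lit 0) (.e (nat_lit 6420) (nat_lit 341) (.e (nat_lit 163909) (nat_lit 12) .nil)))))))) (.g (nat_lit 1) (.e (nat_lit 301191) (nat_lit 0) .nil) .nil))) 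
(.lf (nat_lit 552921) (.g (nat_lit 2843) (.e (nat_lit 426131) (nat_lit 3) (.e (nat_lit 204831) (nat_lit 18) (.e (nat_lit 57691) (nat_lit 156) (.e (nat_lit 163907) (nat_lit 12) (.e (nat_lit 426566) (nat_lit 34) (.e (nat_lit 393272) (nat_lit 23) .nil)))))) (.g (nat_lit 1) (.e (nat_lit 302118) (nat_lit 0) .nil) .nil))))))) (.nd (nat_lit 6) (.nd (nat_lit 7) (.nd (nat_lit 8) (.nd (nat_lit 9) 
(.lf (nat_lit 551993) (.g (nat_lit 5424) (.e (nat_lit 426123) (nat_lit 2) (.e (nat_lit 196666) (nat_lit 13) (.e (nat_lit 65617) (nat_lit 10) (.e (nat_lit 344132) (nat_lit 26) (.e (nat_lit 557093) (nat_lit 12) (.e (nat_lit 164022) (nat_lit 46) (.e (nat_lit 704629) (nat_lit 9) (.e (nat_lit 416) (nat_lit 32) .nil)))))))) (.g (nat_lit 1) (.e (nat_lit 299138) (nat_lit 0) .nil) .nil))) 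
(.lf (nat_lit 552505) (.g (nat_lit 2468) (.e (nat_lit 426125) (nat_lit 2) (.e (nat_lit 196666) (nat_lit 13) (.e (nat_lit 65617) (nat_lit 10) (.e (nat_lit 344132) (nat_lit 26) (.e (nat_lit 557093) (nat_lit 12) (.e (nat_lit 163853) (nat_lit 0) (.e (nat_lit 6427) (nat_lit 342) (.e (nat_lit 229399) (nat_lit 12) .nil)))))))) (.g (nat_lit 1) (.e (nat_lit 301330) (nat_lit 0) .nil) .nil)))) 
(.nd (nat_lit 9) 
(.lf (nat_lit 552249) (.g (nat_lit 3313) (.e (nat_lit 426125) (nat_lit 2) (.e (nat_lit 196666) (nat_lit 13) (.e (nat_lit 65610) (nat_lit 10) (.e (nat_lit 344129) (nat_lit 26) (.e (nat_lit 557090) (nat_lit 12) (.e (nat_lit 163850) (nat_lit 0) (.e (nat_lit 6426) (nat_lit 342) (.e (nat_lit 229399) (nat_lit 12) .nil)))))))) (.g (nat_lit 1) (.e (nat_lit 300953) (nat_lit 0) .nil) .nil))) 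
(.lf (nat_lit 552761) (.g (nat_lit 1486) (.e (nat_lit 426129) (nat_lit 3) (.e (nat_lit 204865) (nat_lit 28) (.e (nat_lit 352262) (nat_lit 0) (.e (nat_lit 3253) (nat_lit 197) (.e (nat_lit 532515) (nat_lit 3) (.e (nat_lit 114695) (nat_lit 11) .nil)))))) (.g (nat_lit 1) (.e (nat_lit 301860) (nat_lit 0) .nil) .nil))))) (.nd (nat_lit 8) (.nd (nat_lit 9) 
(.lf (nat_lit 552121) (.g (nat_lit 2665) (.e (nat_lit 426125) (nat_lit 2) (.e (nat_lit 196661) (nat_lit 12) (.e (nat_lit 57750) (nat_lit 201) (.e (nat_lit 2856) (nat_lit 184) (.e (nat_lit 426364) (nat_lit 15) (.e (nat_lit 1859) (nat_lit 124) (.e (nat_lit 557098) (nat_lit 13) (.e (nat_lit 172097) (nat_lit 9) .nil)))))))) (.g (nat_lit 1) (.e (nat_lit 299583) (nat_lit 0) .nil) .nil))) 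
(.lf (nat_lit 552633) (.g (nat_lit 5128) (.e (nat_lit 426125) (nat_lit 2) (.e (nat_lit 196666) (nat_lit 13) (.e (nat_lit 65617) (nat_lit 10) (.e (nat_lit 344133) (nat_lit 26) (.e (nat_lit 557091) (nat_lit 12) (.e (nat_lit 164022) (nat_lit 46) (.e (nat_lit 704628) (nat_lit 9) (.e (nat_lit 377) (nat_lit 32) .nil)))))))) (.g (nat_lit 1) (.e (nat_lit 301535) (nat_lit 0) .nil) .nil)))) 
(.nd (nat_lit 9) 
(.lf (nat_lit 552377) (.g (nat_lit 4259) (.e (nat_lit 426125) (nat_lit 2) (.e (nat_lit 196666) (nat_lit 13) (.e (nat_lit 65617) (nat_lit 10) (.e (nat_lit 344130) (nat_lit 26) (.e (nat_lit 557065) (nat_lit 9) (.e (nat_lit 2612) (nat_lit 163) (.e (nat_lit 164187) (nat_lit 157) (.e (nat_lit 229399) (nat_lit 12) .nil)))))))) (.g (nat_lit 1) (.e (nat_lit 301129) (nat_lit 0) .nil) .nil))) 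
(.lf (nat_lit 552889) (.g (nat_lit 751) (.e (nat_lit 426131) (nat_lit 3) (.e (nat_lit 204829) (nat_lit 18) (.e (nat_lit 57665) (nat_lit 152) .nil))) (.g (nat_lit 0) (.e (nat_lit 302053) (nat_lit 0) .nil) .nil)))))) (.nd (nat_lit 7) (.nd (nat_lit 8) (.nd (nat_lit 9) 
(.lf (nat_lit 552057) (.g (nat_lit 5723) (.e (nat_lit 426123) (nat_lit 2) (.e (nat_lit 196666) (nat_lit 13) (.e (nat_lit 65617) (nat_lit 10) (.e (nat_lit 344133) (nat_lit 26) (.e (nat_lit 557091) (nat_lit 12) (.e (nat_lit 164022) (nat_lit 46) (.e (nat_lit 704629) (nat_lit 9) (.e (nat_lit 416) (nat_lit 32) .nil)))))))) (.g (nat_lit 1) (.e (nat_lit 299239) (nat_lit 0) .nil) .nil))) 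
(.lf (nat_lit 552569) (.g (nat_lit 4279) (.e (nat_lit 426125) (nat_lit 2) (.e (nat_lit 196666) (nat_lit 13) (.e (nat_lit 65617) (nat_lit 10) (.e (nat_lit 344133) (nat_lit 26) (.e (nat_lit 557089) (nat_lit 12) (.e (nat_lit 164017) (nat_lit 44) (.e (nat_lit 688141) (nat_lit 5) (.e (nat_lit 2883) (nat_lit 184) .nil)))))))) (.g (nat_lit 1) (.e (nat_lit 301420) (nat_lit 0) .nil) .nil)))) 
(.nd (nat_lit 9) 
(.lf (nat_lit 552313) (.g (nat_lit 4592) (.e (nat_lit 426125) (nat_lit 2) (.e (nat_lit 196666) (nat_lit 13) (.e (nat_lit 65610) (nat_lit 10) (.e (nat_lit 344132) (nat_lit 26) (.e (nat_lit 557093) (nat_lit 12) (.e (nat_lit 164023) (nat_lit 46) (.e (nat_lit 704629) (nat_lit 9) (.e (nat_lit 375) (nat_lit 32) .nil)))))))) (.g (nat_lit 1) (.e (nat_lit 301047) (nat_lit 0) .nil) .nil))) 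
(.lf (nat_lit 552825) (.g (nat_lit 3136) (.e (nat_lit 426129) (nat_lit 3) (.e (nat_lit 204869) (nat_lit 29) (.e (nat_lit 360475) (nat_lit 8) (.e (nat_lit 557091) (nat_lit 12) (.e (nat_lit 163843) (nat_lit 0) .nil))))) (.g (nat_lit 0) (.e (nat_lit 301935) (nat_lit 0) .nil) .nil))))) (.nd (nat_lit 8) (.nd (nat_lit 9) 
(.lf (nat_lit 552185) (.g (nat_lit 2381) (.e (nat_lit 426125) (nat_lit 2) (.e (nat_lit 196666) (nat_lit 13) (.e (nat_lit 65610) (nat_lit 10) (.e (nat_lit 344129) (nat_lit 26) (.e (nat_lit 557089) (nat_lit 12) (.e (nat_lit 163850) (nat_lit 0) (.e (nat_lit 6425) (nat_lit 342) (.e (nat_lit 229403) (nat_lit 12) .nil)))))))) (.g (nat_lit 1) (.e (nat_lit 300787) (nat_lit 0) .nil) .nil))) 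
(.lf (nat_lit 552697) (.g (nat_lit 2422) (.e (nat_lit 426129) (nat_lit 3) (.e (nat_lit 204838) (nat_lit 20) (.e (nat_lit 114718) (nat_lit 23) (.e (nat_lit 98334) (nat_lit 18) (.e (nat_lit 164401) (nat_lit 256) .nil))))) (.g (nat_lit 0) (.e (nat_lit 301691) (nat_lit 0) .nil) .nil)))) (.nd (nat_lit 9) 
(.lf (nat_lit 552441) (.g (nat_lit 2616) (.e (nat_lit 426125) (nat_lit 2) (.e (nat_lit 196666) (nat_lit 13) (.e (nat_lit 65617) (nat_lit 10) (.e (nat_lit 344130) (nat_lit 26) (.e (nat_lit 557090) (nat_lit 12) (.e (nat_lit 164018) (nat_lit 45) (.e (nat_lit 696330) (nat_lit 5) (.e (nat_lit 2842) (nat_lit 184) .nil)))))))) (.g (nat_lit 1) (.e (nat_lit 301249) (nat_lit 0) .nil) .nil))) 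
(.lf (nat_lit 552953) (.g (nat_lit 2816) (.e (nat_lit 426131) (nat_lit 3) (.e (nat_lit 204846) (nat_lit 24) (.e (nat_lit 319532) (nat_lit 16) (.e (nat_lit 286732) (nat_lit 2) (.e (nat_lit 90185) (nat_lit 17) .nil))))) (.g (nat_lit 0) (.e (nat_lit 302155) (nat_lit 0) .nil) .nil)))))))))) 
(.nd (nat_lit 3) (.nd (nat_lit 4) (.nd (nat_lit 5) (.nd (nat_lit 6) (.nd (nat_lit 7) 
(.nd (nat_lit 8) (.nd (nat_lit 9) 
(.lf (nat_lit 551941) (.g (nat_lit 3118) (.e (nat_lit 426123) (nat_lit 2) (.e (nat_lit 196666) (nat_lit 13) (.e (nat_lit 65617) (nat_lit 10) (.e (nat_lit 344130) (nat_lit 26) (.e (nat_lit 557089) (nat_lit 12) (.e (nat_lit 163843) (nat_lit 0) (.e (nat_lit 6421) (nat_lit 341) (.e (nat_lit 171776) (nat_lit 12) .nil)))))))) (.g (nat_lit 1) (.e (nat_lit 299079) (nat_lit 0) .nil) .nil))) 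
(.lf (nat_lit 552453) (.g (nat_lit 3900) (.e (nat_lit 426125) (nat_lit 2) (.e (nat_lit 196666) (nat_lit 13) (.e (nat_lit 65617) (nat_lit 10) (.e (nat_lit 344130) (nat_lit 26) (.e (nat_lit 557090) (nat_lit 12) (.e (nat_lit 164022) (nat_lit 46) (.e (nat_lit 704626) (nat_lit 9) (.e (nat_lit 414) (nat_lit 32) .nil)))))))) (.g (nat_lit 1) (.e (nat_lit 301265) (nat_lit 0) .nil) .nil)))) 
(.nd (nat_lit 9) 
(.lf (nat_lit 552197) (.g (nat_lit 3115) (.e (nat_lit 426125) (nat_lit 2) (.e (nat_lit 196666) (nat_lit 13) (.e (nat_lit 65610) (nat_lit 10) (.e (nat_lit 344129) (nat_lit 26) (.e (nat_lit 557089) (nat_lit 12) (.e (nat_lit 164020) (nat_lit 45) (.e (nat_lit 696327) (nat_lit 5) (.e (nat_lit 2888) (nat_lit 184) .nil)))))))) (.g (nat_lit 1) (.e (nat_lit 300803) (nat_lit 0) .nil) .nil))) 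
(.lf (nat_lit 552709) (.g (nat_lit 1775) (.e (nat_lit 426129) (nat_lit 3) (.e (nat_lit 204846) (nat_lit 24) (.e (nat_lit 319531) (nat_lit 16) (.e (nat_lit 286733) (nat_lit 2) .nil)))) (.g (nat_lit 0) (.e (nat_lit 301719) (nat_lit 0) .nil) .nil))))) (.nd (nat_lit 8) (.nd (nat_lit 9) 
(.lf (nat_lit 552069) (.g (nat_lit 2389) (.e (nat_lit 426123) (nat_lit 2) (.e (nat_lit 196666) (nat_lit 13) (.e (nat_lit 65624) (nat_lit 12) (.e (nat_lit 385066) (nat_lit 26) (.e (nat_lit 532513) (nat_lit 3) (.e (nat_lit 122624) (nat_lit 11) .nil)))))) (.g (nat_lit 1) (.e (nat_lit 299261) (nat_lit 0) .nil) .nil))) 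
(.lf (nat_lit 552581) (.g (nat_lit 2292) (.e (nat_lit 426125) (nat_lit 2) (.e (nat_lit 196666) (nat_lit 13) (.e (nat_lit 65617) (nat_lit 10) (.e (nat_lit 344133) (nat_lit 26) (.e (nat_lit 557091) (nat_lit 12) (.e (nat_lit 163840) (nat_lit 0) (.e (nat_lit 6416) (nat_lit 341) (.e (nat_lit 163900) (nat_lit 12) .nil)))))))) (.g (nat_lit 1) (.e (nat_lit 301435) (nat_lit 0) .nil) .nil)))) 
(.nd (nat_lit 9) 
(.lf (nat_lit 552325) (.g (nat_lit 3940) (.e (nat_lit 426125) (nat_lit 2) (.e (nat_lit 196666) (nat_lit 13) (.e (nat_lit 65617) (nat_lit 10) (.e (nat_lit 344127) (nat_lit 26) (.e (nat_lit 557088) (nat_lit 12) (.e (nat_lit 164018) (nat_lit 45) (.e (nat_lit 696330) (nat_lit 5) (.e (nat_lit 2878) (nat_lit 184) .nil)))))))) (.g (nat_lit 1) (.e (nat_lit 301061) (nat_lit 0) .nil) .nil))) 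
(.lf (nat_lit 552837) (.g (nat_lit 1756) (.e (nat_lit 426129) (nat_lit 3) (.e (nat_lit 204876) (nat_lit 31) (.e (nat_lit 376835) (nat_lit 0) (.e (nat_lit 3253) (nat_lit 197) (.e (nat_lit 532515) (nat_lit 3) (.e (nat_lit 122624) (nat_lit 11) .nil)))))) (.g (nat_lit 1) (.e (nat_lit 301949) (nat_lit 0) .nil) .nil)))))) (.nd (nat_lit 7) (.nd (nat_lit 8) (.nd (nat_lit 9) 
(.lf (nat_lit 552005) (.g (nat_lit 3161) (.e (nat_lit 426123) (nat_lit 2) (.e (nat_lit 196666) (nat_lit 13) (.e (nat_lit 65617) (nat_lit 10) (.e (nat_lit 344132) (nat_lit 26) (.e (nat_lit 557093) (nat_lit 12) (.e (nat_lit 171776) (nat_lit 48) (.e (nat_lit 720909) (nat_lit 11) .nil))))))) (.g (nat_lit 1) (.e (nat_lit 299180) (nat_lit 0) .nil) .nil))) 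
(.lf (nat_lit 552517) (.g (nat_lit 5245) (.e (nat_lit 426125) (nat_lit 2) (.e (nat_lit 196666) (nat_lit 13) (.e (nat_lit 65617) (nat_lit 10) (.e (nat_lit 344132) (nat_lit 26) (.e (nat_lit 557093) (nat_lit 12) (.e (nat_lit 164022) (nat_lit 46) (.e (nat_lit 704629) (nat_lit 9) (.e (nat_lit 370) (nat_lit 32) .nil)))))))) (.g (nat_lit 1) (.e (nat_lit 301346) (nat_lit 0) .nil) .nil)))) 
(.nd (nat_lit 9) 
(.lf (nat_lit 552261) (.g (nat_lit 3602) (.e (nat_lit 426125) (nat_lit 2) (.e (nat_lit 196666) (nat_lit 13) (.e (nat_lit 65610) (nat_lit 10) (.e (nat_lit 344129) (nat_lit 26) (.e (nat_lit 557090) (nat_lit 12) (.e (nat_lit 164018) (nat_lit 45) (.e (nat_lit 696326) (nat_lit 5) (.e (nat_lit 2876) (nat_lit 184) .nil)))))))) (.g (nat_lit 1) (.e (nat_lit 300973) (nat_lit 0) .nil) .nil))) 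
(.lf (nat_lit 552773) (.g (nat_lit 3609) (.e (nat_lit 426129) (nat_lit 3) (.e (nat_lit 204868) (nat_lit 29) (.e (nat_lit 360475) (nat_lit 8) (.e (nat_lit 557089) (nat_lit 12) (.e (nat_lit 163844) (nat_lit 0) .nil))))) (.g (nat_lit 0) (.e (nat_lit 301879) (nat_lit 0) .nil) .nil))))) (.nd (nat_lit 8) (.nd (nat_lit 9) 
(.lf (nat_lit 552133) (.g (nat_lit 2749) (.e (nat_lit 426125) (nat_lit 2) (.e (nat_lit 196666) (nat_lit 13) (.e (nat_lit 65610) (nat_lit 10) (.e (nat_lit 344117) (nat_lit 21) (.e (nat_lit 516116) (nat_lit 1) .nil))))) (.g (nat_lit 0) (.e (nat_lit 300466) (nat_lit 0) .nil) .nil))) 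
(.lf (nat_lit 552645) (.g (nat_lit 3582) (.e (nat_lit 426125) (nat_lit 2) (.e (nat_lit 196666) (nat_lit 13) (.e (nat_lit 65617) (nat_lit 10) (.e (nat_lit 344133) (nat_lit 26) (.e (nat_lit 557093) (nat_lit 12) (.e (nat_lit 164022) (nat_lit 46) (.e (nat_lit 704629) (nat_lit 9) (.e (nat_lit 411) (nat_lit 32) .nil)))))))) (.g (nat_lit 1) (.e (nat_lit 301550) (nat_lit 0) .nil) .nil)))) 
(.nd (nat_lit 9) 
(.lf (nat_lit 552389) (.g (nat_lit 3635) (.e (nat_lit 426125) (nat_lit 2) (.e (nat_lit 196666) (nat_lit 13) (.e (nat_lit 65617) (nat_lit 10) (.e (nat_lit 344130) (nat_lit 26) (.e (nat_lit 557089) (nat_lit 12) (.e (nat_lit 163849) (nat_lit 0) (.e (nat_lit 6421) (nat_lit 341) (.e (nat_lit 163909) (nat_lit 12) .nil)))))))) (.g (nat_lit 1) (.e (nat_lit 301152) (nat_lit 0) .nil) .nil))) 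
(.lf (nat_lit 552901) (.g (nat_lit 2006) (.e (nat_lit 426131) (nat_lit 3) (.e (nat_lit 204829) (nat_lit 18) (.e (nat_lit 57692) (nat_lit 156) (.e (nat_lit 163907) (nat_lit 12) (.e (nat_lit 426481) (nat_lit 27) .nil))))) (.g (nat_lit 0) (.e (nat_lit 302076) (nat_lit 0) .nil) .nil))))))) (.nd (nat_lit 6) (.nd (nat_lit 7) (.nd (nat_lit 8) (.nd (nat_lit 9) 
(.lf (nat_lit 551973) (.g (nat_lit 2384) (.e (nat_lit 426123) (nat_lit 2) (.e (nat_lit 196666) (nat_lit 13) (.e (nat_lit 65617) (nat_lit 10) (.e (nat_lit 344132) (nat_lit 26) (.e (nat_lit 557093) (nat_lit 12) .nil))))) (.g (nat_lit 0) (.e (nat_lit 299117) (nat_lit 0) .nil) .nil))) 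
(.lf (nat_lit 552485) (.g (nat_lit 2697) (.e (nat_lit 426125) (nat_lit 2) (.e (nat_lit 196666) (nat_lit 13) (.e (nat_lit 65617) (nat_lit 10) (.e (nat_lit 344132) (nat_lit 26) (.e (nat_lit 557091) (nat_lit 12) (.e (nat_lit 163843) (nat_lit 0) (.e (nat_lit 6421) (nat_lit 341) (.e (nat_lit 163900) (nat_lit 12) .nil)))))))) (.g (nat_lit 1) (.e (nat_lit 301303) (nat_lit 0) .nil) .nil)))) 
(.nd (nat_lit 9) 
(.lf (nat_lit 552229) (.g (nat_lit 1895) (.e (nat_lit 426125) (nat_lit 2) (.e (nat_lit 196666) (nat_lit 13) (.e (nat_lit 65610) (nat_lit 10) (.e (nat_lit 344129) (nat_lit 26) (.e (nat_lit 557090) (nat_lit 12) (.e (nat_lit 163844) (nat_lit 0) (.e (nat_lit 6418) (nat_lit 341) (.e (nat_lit 163909) (nat_lit 12) .nil)))))))) (.g (nat_lit 1) (.e (nat_lit 300895) (nat_lit 0) .nil) .nil))) 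
(.lf (nat_lit 552741) (.g (nat_lit 2662) (.e (nat_lit 426129) (nat_lit 3) (.e (nat_lit 204846) (nat_lit 24) (.e (nat_lit 319534) (nat_lit 16) (.e (nat_lit 286735) (nat_lit 3) (.e (nat_lit 98364) (nat_lit 26) .nil))))) (.g (nat_lit 0) (.e (nat_lit 301772) (nat_lit 0) .nil) .nil))))) (.nd (nat_lit 8) (.nd (nat_lit 9) 
(.lf (nat_lit 552101) (.g (nat_lit 2567) (.e (nat_lit 426124) (nat_lit 2) (.e (nat_lit 196681) (nat_lit 17) (.e (nat_lit 131105) (nat_lit 9) (.e (nat_lit 336324) (nat_lit 18) (.e (nat_lit 204837) (nat_lit 20) (.e (nat_lit 122624) (nat_lit 11) .nil)))))) (.g (nat_lit 1) (.e (nat_lit 299471) (nat_lit 0) .nil) .nil))) 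
(.lf (nat_lit 552613) (.g (nat_lit 3789) (.e (nat_lit 426125) (nat_lit 2) (.e (nat_lit 196666) (nat_lit 13) (.e (nat_lit 65617) (nat_lit 10) (.e (nat_lit 344133) (nat_lit 26) (.e (nat_lit 557091) (nat_lit 12) (.e (nat_lit 164017) (nat_lit 44) (.e (nat_lit 688141) (nat_lit 5) (.e (nat_lit 2883) (nat_lit 184) .nil)))))))) (.g (nat_lit 1) (.e (nat_lit 301507) (nat_lit 0) .nil) .nil)))) 
(.nd (nat_lit 9) 
(.lf (nat_lit 552357) (.g (nat_lit 4257) (.e (nat_lit 426125) (nat_lit 2) (.e (nat_lit 196666) (nat_lit 13) (.e (nat_lit 65617) (nat_lit 10) (.e (nat_lit 344127) (nat_lit 26) (.e (nat_lit 557090) (nat_lit 12) (.e (nat_lit 164017) (nat_lit 44) (.e (nat_lit 688138) (nat_lit 5) (.e (nat_lit 2883) (nat_lit 184) .nil)))))))) (.g (nat_lit 1) (.e (nat_lit 301107) (nat_lit 0) .nil) .nil))) 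
(.lf (nat_lit 552869) (.g (nat_lit 4361) (.e (nat_lit 426130) (nat_lit 3) (.e (nat_lit 204869) (nat_lit 29) (.e (nat_lit 360475) (nat_lit 8) (.e (nat_lit 557089) (nat_lit 12) (.e (nat_lit 163848) (nat_lit 0) .nil))))) (.g (nat_lit 0) (.e (nat_lit 302026) (nat_lit 0) .nil) .nil)))))) (.nd (nat_lit 7) (.nd (nat_lit 8) (.nd (nat_lit 9) 
(.lf (nat_lit 552037) (.g (nat_lit 3531) (.e (nat_lit 426123) (nat_lit 2) (.e (nat_lit 196666) (nat_lit 13) (.e (nat_lit 65617) (nat_lit 10) (.e (nat_lit 344133) (nat_lit 26) (.e (nat_lit 557091) (nat_lit 12) (.e (nat_lit 164022) (nat_lit 46) (.e (nat_lit 704626) (nat_lit 9) (.e (nat_lit 398) (nat_lit 32) .nil)))))))) (.g (nat_lit 1) (.e (nat_lit 299219) (nat_lit 0) .nil) .nil))) 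
(.lf (nat_lit 552549) (.g (nat_lit 2710) (.e (nat_lit 426125) (nat_lit 2) (.e (nat_lit 196666) (nat_lit 13) (.e (nat_lit 65617) (nat_lit 10) (.e (nat_lit 344132) (nat_lit 26) (.e (nat_lit 557094) (nat_lit 12) (.e (nat_lit 171776) (nat_lit 49) (.e (nat_lit 737024) (nat_lit 11) .nil))))))) (.g (nat_lit 1) (.e (nat_lit 301386) (nat_lit 0) .nil) .nil)))) (.nd (nat_lit 9) 
(.lf (nat_lit 552293) (.g (nat_lit 2679) (.e (nat_lit 426125) (nat_lit 2) (.e (nat_lit 196666) (nat_lit 13) (.e (nat_lit 65610) (nat_lit 10) (.e (nat_lit 344129) (nat_lit 26) (.e (nat_lit 557090) (nat_lit 12) (.e (nat_lit 171776) (nat_lit 46) (.e (nat_lit 704626) (nat_lit 9) (.e (nat_lit 375) (nat_lit 32) .nil)))))))) (.g (nat_lit 1) (.e (nat_lit 301025) (nat_lit 0) .nil) .nil))) 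
(.lf (nat_lit 552805) (.g (nat_lit 2424) (.e (nat_lit 426129) (nat_lit 3) (.e (nat_lit 204869) (nat_lit 29) (.e (nat_lit 360474) (nat_lit 8) (.e (nat_lit 557094) (nat_lit 12) (.e (nat_lit 163852) (nat_lit 0) .nil))))) (.g (nat_lit 0) (.e (nat_lit 301912) (nat_lit 0) .nil) .nil))))) (.nd (nat_lit 8) (.nd (nat_lit 9) 
(.lf (nat_lit 552165) (.g (nat_lit 3321) (.e (nat_lit 426125) (nat_lit 2) (.e (nat_lit 196666) (nat_lit 13) (.e (nat_lit 65610) (nat_lit 10) (.e (nat_lit 344129) (nat_lit 26) (.e (nat_lit 557089) (nat_lit 12) (.e (nat_lit 163843) (nat_lit 0) (.e (nat_lit 6421) (nat_lit 341) (.e (nat_lit 163909) (nat_lit 12) .nil)))))))) (.g (nat_lit 1) (.e (nat_lit 300724) (nat_lit 0) .nil) .nil))) 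
(.lf (nat_lit 552677) (.g (nat_lit 2948) (.e (nat_lit 426129) (nat_lit 3) (.e (nat_lit 204829) (nat_lit 18) (.e (nat_lit 57688) (nat_lit 156) (.e (nat_lit 163902) (nat_lit 12) (.e (nat_lit 426566) (nat_lit 34) (.e (nat_lit 393279) (nat_lit 23) .nil)))))) (.g (nat_lit 1) (.e (nat_lit 301644) (nat_lit 0) .nil) .nil)))) (.nd (nat_lit 9) 
(.lf (nat_lit 552421) (.g (nat_lit 4222) (.e (nat_lit 426125) (nat_lit 2) (.e (nat_lit 196666) (nat_lit 13) (.e (nat_lit 65617) (nat_lit 10) (.e (nat_lit 344130) (nat_lit 26) (.e (nat_lit 557090) (nat_lit 12) (.e (nat_lit 163847) (nat_lit 0) (.e (nat_lit 6420) (nat_lit 341) (.e (nat_lit 163909) (nat_lit 12) .nil)))))))) (.g (nat_lit 1) (.e (nat_lit 301221) (nat_lit 0) .nil) .nil))) 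
(.lf (nat_lit 552933) (.g (nat_lit 2570) (.e (nat_lit 426131) (nat_lit 3) (.e (nat_lit 204845) (nat_lit 24) (.e (nat_lit 319531) (nat_lit 16) (.e (nat_lit 286727) (nat_lit 0) (.e (nat_lit 1715) (nat_lit 117) .nil))))) (.g (nat_lit 0) (.e (nat_lit 302134) (nat_lit 0) .nil) .nil)))))))) (.nd (nat_lit 5) (.nd (nat_lit 6) (.nd (nat_lit 7) (.nd (nat_lit 8) (.nd (nat_lit 9) 
(.lf (nat_lit 551957) (.g (nat_lit 3358) (.e (nat_lit 426123) (nat_lit 2) (.e (nat_lit 196666) (nat_lit 13) (.e (nat_lit 65617) (nat_lit 10) (.e (nat_lit 344130) (nat_lit 26) (.e (nat_lit 557090) (nat_lit 12) (.e (nat_lit 164022) (nat_lit 46) (.e (nat_lit 704627) (nat_lit 9) (.e (nat_lit 398) (nat_lit 32) .nil)))))))) (.g (nat_lit 1) (.e (nat_lit 299099) (nat_lit 0) .nil) .nil))) 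
(.lf (nat_lit 552469) (.g (nat_lit 3248) (.e (nat_lit 426125) (nat_lit 2) (.e (nat_lit 196666) (nat_lit 13) (.e (nat_lit 65617) (nat_lit 10) (.e (nat_lit 344132) (nat_lit 26) (.e (nat_lit 557088) (nat_lit 12) (.e (nat_lit 164018) (nat_lit 45) (.e (nat_lit 696330) (nat_lit 5) (.e (nat_lit 2878) (nat_lit 184) .nil)))))))) (.g (nat_lit 1) (.e (nat_lit 301286) (nat_lit 0) .nil) .nil)))) 
(.nd (nat_lit 9) 
(.lf (nat_lit 552213) (.g (nat_lit 2708) (.e (nat_lit 426125) (nat_lit 2) (.e (nat_lit 196666) (nat_lit 13) (.e (nat_lit 65610) (nat_lit 10) (.e (nat_lit 344129) (nat_lit 26) (.e (nat_lit 557089) (nat_lit 12) (.e (nat_lit 171776) (nat_lit 49) (.e (nat_lit 737024) (nat_lit 11) .nil))))))) (.g (nat_lit 1) (.e (nat_lit 300821) (nat_lit 0) .nil) .nil))) 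
(.lf (nat_lit 552725) (.g (nat_lit 2482) (.e (nat_lit 426129) (nat_lit 3) (.e (nat_lit 204846) (nat_lit 24) (.e (nat_lit 319533) (nat_lit 16) (.e (nat_lit 286735) (nat_lit 3) (.e (nat_lit 98356) (nat_lit 26) .nil))))) (.g (nat_lit 0) (.e (nat_lit 301746) (nat_lit 0) .nil) .nil))))) (.nd (nat_lit 8) (.nd (nat_lit 9) 
(.lf (nat_lit 552085) (.g (nat_lit 1905) (.e (nat_lit 426124) (nat_lit 2) (.e (nat_lit 196656) (nat_lit 11) (.e (nat_lit 16412) (nat_lit 2) (.e (nat_lit 196653) (nat_lit 11) (.e (nat_lit 16416) (nat_lit 3) .nil))))) (.g (nat_lit 0) (.e (nat_lit 299327) (nat_lit 0) .nil) .nil))) 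
(.lf (nat_lit 552597) (.g (nat_lit 4431) (.e (nat_lit 426125) (nat_lit 2) (.e (nat_lit 196666) (nat_lit 13) (.e (nat_lit 65617) (nat_lit 10) (.e (nat_lit 344133) (nat_lit 26) (.e (nat_lit 557091) (nat_lit 12) (.e (nat_lit 163844) (nat_lit 0) (.e (nat_lit 6421) (nat_lit 341) (.e (nat_lit 163909) (nat_lit 12) .nil)))))))) (.g (nat_lit 1) (.e (nat_lit 301474) (nat_lit 0) .nil) .nil)))) 
(.nd (nat_lit 9) 
(.lf (nat_lit 552341) (.g (nat_lit 4519) (.e (nat_lit 426125) (nat_lit 2) (.e (nat_lit 196666) (nat_lit 13) (.e (nat_lit 65617) (nat_lit 10) (.e (nat_lit 344127) (nat_lit 26) (.e (nat_lit 557090) (nat_lit 12) (.e (nat_lit 163843) (nat_lit 0) (.e (nat_lit 6420) (nat_lit 341) (.e (nat_lit 163909) (nat_lit 12) .nil)))))))) (.g (nat_lit 1) (.e (nat_lit 301084) (nat_lit 0) .nil) .nil))) 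
(.lf (nat_lit 552853) (.g (nat_lit 1644) (.e (nat_lit 426130) (nat_lit 3) (.e (nat_lit 204846) (nat_lit 24) (.e (nat_lit 319532) (nat_lit 16) (.e (nat_lit 286733) (nat_lit 2) .nil)))) (.g (nat_lit 0) (.e (nat_lit 302008) (nat_lit 0) .nil) .nil)))))) (.nd (nat_lit 7) (.nd (nat_lit 8) (.nd (nat_lit 9) 
(.lf (nat_lit 552021) (.g (nat_lit 3959) (.e (nat_lit 426123) (nat_lit 2) (.e (nat_lit 196666) (nat_lit 13) (.e (nat_lit 65617) (nat_lit 10) (.e (nat_lit 344132) (nat_lit 26) (.e (nat_lit 557094) (nat_lit 12) (.e (nat_lit 164022) (nat_lit 46) (.e (nat_lit 704629) (nat_lit 9) (.e (nat_lit 440) (nat_lit 32) .nil)))))))) (.g (nat_lit 1) (.e (nat_lit 299197) (nat_lit 0) .nil) .nil))) 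
(.lf (nat_lit 552533) (.g (nat_lit 2357) (.e (nat_lit 426125) (nat_lit 2) (.e (nat_lit 196666) (nat_lit 13) (.e (nat_lit 65617) (nat_lit 10) (.e (nat_lit 344132) (nat_lit 26) (.e (nat_lit 557094) (nat_lit 12) (.e (nat_lit 163848) (nat_lit 0) (.e (nat_lit 6421) (nat_lit 341) (.e (nat_lit 163900) (nat_lit 12) .nil)))))))) (.g (nat_lit 1) (.e (nat_lit 301364) (nat_lit 0) .nil) .nil)))) 
(.nd (nat_lit 9) 
(.lf (nat_lit 552277) (.g (nat_lit 3729) (.e (nat_lit 426125) (nat_lit 2) (.e (nat_lit 196666) (nat_lit 13) (.e (nat_lit 65610) (nat_lit 10) (.e (nat_lit 344129) (nat_lit 26) (.e (nat_lit 557090) (nat_lit 12) (.e (nat_lit 164019) (nat_lit 45) (.e (nat_lit 696326) (nat_lit 5) (.e (nat_lit 2879) (nat_lit 184) .nil)))))))) (.g (nat_lit 1) (.e (nat_lit 300989) (nat_lit 0) .nil) .nil))) 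
(.lf (nat_lit 552789) (.g (nat_lit 5446) (.e (nat_lit 426129) (nat_lit 3) (.e (nat_lit 204869) (nat_lit 29) (.e (nat_lit 360474) (nat_lit 8) (.e (nat_lit 557091) (nat_lit 12) (.e (nat_lit 163840) (nat_lit 0) .nil))))) (.g (nat_lit 0) (.e (nat_lit 301896) (nat_lit 0) .nil) .nil))))) (.nd (nat_lit 8) (.nd (nat_lit 9) 
(.lf (nat_lit 552149) (.g (nat_lit 3362) (.e (nat_lit 426125) (nat_lit 2) (.e (nat_lit 196666) (nat_lit 13) (.e (nat_lit 65610) (nat_lit 10) (.e (nat_lit 344129) (nat_lit 26) (.e (nat_lit 557065) (nat_lit 9) (.e (nat_lit 2612) (nat_lit 163) (.e (nat_lit 164190) (nat_lit 157) (.e (nat_lit 229399) (nat_lit 12) .nil)))))))) (.g (nat_lit 1) (.e (nat_lit 300648) (nat_lit 0) .nil) .nil))) 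
(.lf (nat_lit 552661) (.g (nat_lit 2851) (.e (nat_lit 426125) (nat_lit 2) (.e (nat_lit 196681) (nat_lit 17) (.e (nat_lit 131105) (nat_lit 9) (.e (nat_lit 336324) (nat_lit 18) (.e (nat_lit 204838) (nat_lit 20) (.e (nat_lit 122624) (nat_lit 11) .nil)))))) (.g (nat_lit 1) (.e (nat_lit 301582) (nat_lit 0) .nil) .nil)))) (.nd (nat_lit 9) 
(.lf (nat_lit 552405) (.g (nat_lit 2546) (.e (nat_lit 426125) (nat_lit 2) (.e (nat_lit 196666) (nat_lit 13) (.e (nat_lit 65617) (nat_lit 10) (.e (nat_lit 344130) (nat_lit 26) (.e (nat_lit 557090) (nat_lit 12) (.e (nat_lit 163840) (nat_lit 0) (.e (nat_lit 6426) (nat_lit 342) (.e (nat_lit 229399) (nat_lit 12) .nil)))))))) (.g (nat_lit 1) (.e (nat_lit 301171) (nat_lit 0) .nil) .nil))) 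
(.lf (nat_lit 552917) (.g (nat_lit 2497) (.e (nat_lit 426131) (nat_lit 3) (.e (nat_lit 204831) (nat_lit 18) (.e (nat_lit 57688) (nat_lit 156) (.e (nat_lit 163907) (nat_lit 12) (.e (nat_lit 426566) (nat_lit 34) (.e (nat_lit 393272) (nat_lit 23) .nil)))))) (.g (nat_lit 1) (.e (nat_lit 302112) (nat_lit 0) .nil) .nil))))))) (.nd (nat_lit 6) (.nd (nat_lit 7) (.nd (nat_lit 8) (.nd (nat_lit 9) 
(.lf (nat_lit 551989) (.g (nat_lit 4197) (.e (nat_lit 426123) (nat_lit 2) (.e (nat_lit 196666) (nat_lit 13) (.e (nat_lit 65617) (nat_lit 10) (.e (nat_lit 344132) (nat_lit 26) (.e (nat_lit 557093) (nat_lit 12) (.e (nat_lit 164022) (nat_lit 46) (.e (nat_lit 704629) (nat_lit 9) (.e (nat_lit 391) (nat_lit 32) .nil)))))))) (.g (nat_lit 1) (.e (nat_lit 299134) (nat_lit 0) .nil) .nil))) 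
(.lf (nat_lit 552501) (.g (nat_lit 2972) (.e (nat_lit 426125) (nat_lit 2) (.e (nat_lit 196666) (nat_lit 13) (.e (nat_lit 65617) (nat_lit 10) (.e (nat_lit 344132) (nat_lit 26) (.e (nat_lit 557093) (nat_lit 12) (.e (nat_lit 163848) (nat_lit 0) (.e (nat_lit 6421) (nat_lit 341) (.e (nat_lit 163900) (nat_lit 12) .nil)))))))) (.g (nat_lit 1) (.e (nat_lit 301324) (nat_lit 0) .nil) .nil)))) 
(.nd (nat_lit 9) 
(.lf (nat_lit 552245) (.g (nat_lit 2388) (.e (nat_lit 426125) (nat_lit 2) (.e (nat_lit 196666) (nat_lit 13) (.e (nat_lit 65610) (nat_lit 10) (.e (nat_lit 344129) (nat_lit 26) (.e (nat_lit 557090) (nat_lit 12) (.e (nat_lit 163849) (nat_lit 0) (.e (nat_lit 6421) (nat_lit 341) (.e (nat_lit 163909) (nat_lit 12) .nil)))))))) (.g (nat_lit 1) (.e (nat_lit 300943) (nat_lit 0) .nil) .nil))) 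
(.lf (nat_lit 552757) (.g (nat_lit 1583) (.e (nat_lit 426129) (nat_lit 3) (.e (nat_lit 204861) (nat_lit 26) (.e (nat_lit 336076) (nat_lit 9) (.e (nat_lit 336325) (nat_lit 18) .nil)))) (.g (nat_lit 0) (.e (nat_lit 301853) (nat_lit 0) .nil) .nil))))) (.nd (nat_lit 8) (.nd (nat_lit 9) 
(.lf (nat_lit 552117) (.g (nat_lit 3911) (.e (nat_lit 426125) (nat_lit 2) (.e (nat_lit 196661) (nat_lit 12) (.e (nat_lit 57749) (nat_lit 201) (.e (nat_lit 2936) (nat_lit 184) (.e (nat_lit 426419) (nat_lit 15) (.e (nat_lit 1856) (nat_lit 124) (.e (nat_lit 557101) (nat_lit 13) (.e (nat_lit 172097) (nat_lit 9) .nil)))))))) (.g (nat_lit 1) (.e (nat_lit 299579) (nat_lit 0) .nil) .nil))) 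
(.lf (nat_lit 552629) (.g (nat_lit 5068) (.e (nat_lit 426125) (nat_lit 2) (.e (nat_lit 196666) (nat_lit 13) (.e (nat_lit 65617) (nat_lit 10) (.e (nat_lit 344133) (nat_lit 26) (.e (nat_lit 557091) (nat_lit 12) (.e (nat_lit 164022) (nat_lit 46) (.e (nat_lit 704626) (nat_lit 9) (.e (nat_lit 375) (nat_lit 32) .nil)))))))) (.g (nat_lit 1) (.e (nat_lit 301531) (nat_lit 0) .nil) .nil)))) 
(.nd (nat_lit 9) 
(.lf (nat_lit 552373) (.g (nat_lit 1758) (.e (nat_lit 426125) (nat_lit 2) (.e (nat_lit 196666) (nat_lit 13) (.e (nat_lit 65617) (nat_lit 10) (.e (nat_lit 344127) (nat_lit 26) (.e (nat_lit 557092) (nat_lit 12) (.e (nat_lit 171776) (nat_lit 48) (.e (nat_lit 728832) (nat_lit 11) .nil))))))) (.g (nat_lit 1) (.e (nat_lit 301125) (nat_lit 0) .nil) .nil))) 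
(.lf (nat_lit 552885) (.g (nat_lit 677) (.e (nat_lit 426131) (nat_lit 3) (.e (nat_lit 204829) (nat_lit 18) (.e (nat_lit 57659) (nat_lit 152) .nil))) (.g (nat_lit 0) (.e (nat_lit 302049) (nat_lit 0) .nil) .nil)))))) (.nd (nat_lit 7) (.nd (nat_lit 8) (.nd (nat_lit 9) 
(.lf (nat_lit 552053) (.g (nat_lit 4502) (.e (nat_lit 426123) (nat_lit 2) (.e (nat_lit 196666) (nat_lit 13) (.e (nat_lit 65617) (nat_lit 10) (.e (nat_lit 344133) (nat_lit 26) (.e (nat_lit 557091) (nat_lit 12) (.e (nat_lit 164022) (nat_lit 46) (.e (nat_lit 704629) (nat_lit 9) (.e (nat_lit 391) (nat_lit 32) .nil)))))))) (.g (nat_lit 1) (.e (nat_lit 299235) (nat_lit 0) .nil) .nil))) 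
(.lf (nat_lit 552565) (.g (nat_lit 3188) (.e (nat_lit 426125) (nat_lit 2) (.e (nat_lit 196666) (nat_lit 13) (.e (nat_lit 65617) (nat_lit 10) (.e (nat_lit 344133) (nat_lit 26) (.e (nat_lit 557089) (nat_lit 12) (.e (nat_lit 163850) (nat_lit 0) (.e (nat_lit 6427) (nat_lit 342) (.e (nat_lit 229399) (nat_lit 12) .nil)))))))) (.g (nat_lit 1) (.e (nat_lit 301415) (nat_lit 0) .nil) .nil)))) 
(.nd (nat_lit 9) 
(.lf (nat_lit 552309) (.g (nat_lit 3753) (.e (nat_lit 426125) (nat_lit 2) (.e (nat_lit 196666) (nat_lit 13) (.e (nat_lit 65610) (nat_lit 10) (.e (nat_lit 344131) (nat_lit 26) (.e (nat_lit 557093) (nat_lit 12) (.e (nat_lit 164023) (nat_lit 46) (.e (nat_lit 704629) (nat_lit 9) (.e (nat_lit 375) (nat_lit 32) .nil)))))))) (.g (nat_lit 1) (.e (nat_lit 301043) (nat_lit 0) .nil) .nil))) 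
(.lf (nat_lit 552821) (.g (nat_lit 4591) (.e (nat_lit 426129) (nat_lit 3) (.e (nat_lit 204869) (nat_lit 29) (.e (nat_lit 360475) (nat_lit 8) (.e (nat_lit 557090) (nat_lit 12) .nil)))) (.g (nat_lit 0) (.e (nat_lit 301931) (nat_lit 0) .nil) .nil))))) (.nd (nat_lit 8) (.nd (nat_lit 9) 
(.lf (nat_lit 552181) (.g (nat_lit 4585) (.e (nat_lit 426125) (nat_lit 2) (.e (nat_lit 196666) (nat_lit 13) (.e (nat_lit 65610) (nat_lit 10) (.e (nat_lit 344129) (nat_lit 26) (.e (nat_lit 557089) (nat_lit 12) (.e (nat_lit 163849) (nat_lit 0) (.e (nat_lit 6421) (nat_lit 341) (.e (nat_lit 163900) (nat_lit 12) .nil)))))))) (.g (nat_lit 1) (.e (nat_lit 300783) (nat_lit 0) .nil) .nil))) 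
(.lf (nat_lit 552693) (.g (nat_lit 886) (.e (nat_lit 426129) (nat_lit 3) (.e (nat_lit 204837) (nat_lit 20) (.e (nat_lit 114717) (nat_lit 23) .nil))) (.g (nat_lit 0) (.e (nat_lit 301687) (nat_lit 0) .nil) .nil)))) (.nd (nat_lit 9) 
(.lf (nat_lit 552437) (.g (nat_lit 4057) (.e (nat_lit 426125) (nat_lit 2) (.e (nat_lit 196666) (nat_lit 13) (.e (nat_lit 65617) (nat_lit 10) (.e (nat_lit 344130) (nat_lit 26) (.e (nat_lit 557090) (nat_lit 12) (.e (nat_lit 164017) (nat_lit 44) (.e (nat_lit 688139) (nat_lit 5) (.e (nat_lit 2883) (nat_lit 184) .nil)))))))) (.g (nat_lit 1) (.e (nat_lit 301243) (nat_lit 0) .nil) .nil))) 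
(.lf (nat_lit 552949) (.g (nat_lit 3391) (.e (nat_lit 426131) (nat_lit 3) (.e (nat_lit 204846) (nat_lit 24) (.e (nat_lit 319531) (nat_lit 16) (.e (nat_lit 286735) (nat_lit 3) (.e (nat_lit 98364) (nat_lit 26) (.e (nat_lit 426200) (nat_lit 9) .nil)))))) (.g (nat_lit 1) (.e (nat_lit 302151) (nat_lit 0) .nil) .nil))))))))) 
(.nd (nat_lit 4) (.nd (nat_lit 5) (.nd (nat_lit 6) (.nd (nat_lit 7) (.nd (nat_lit 8) 
(.nd (nat_lit 9) 
(.lf (nat_lit 551949) (.g (nat_lit 3294) (.e (nat_lit 426123) (nat_lit 2) (.e (nat_lit 196666) (nat_lit 13) (.e (nat_lit 65617) (nat_lit 10) (.e (nat_lit 344130) (nat_lit 26) (.e (nat_lit 557090) (nat_lit 12) (.e (nat_lit 163847) (nat_lit 0) (.e (nat_lit 6421) (nat_lit 341) (.e (nat_lit 171776) (nat_lit 12) .nil)))))))) (.g (nat_lit 1) (.e (nat_lit 299087) (nat_lit 0) .nil) .nil))) 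
(.lf (nat_lit 552461) (.g (nat_lit 4345) (.e (nat_lit 426125) (nat_lit 2) (.e (nat_lit 196666) (nat_lit 13) (.e (nat_lit 65617) (nat_lit 10) (.e (nat_lit 344130) (nat_lit 26) (.e (nat_lit 557090) (nat_lit 12) (.e (nat_lit 164022) (nat_lit 46) (.e (nat_lit 704629) (nat_lit 9) (.e (nat_lit 377) (nat_lit 32) .nil)))))))) (.g (nat_lit 1) (.e (nat_lit 301273) (nat_lit 0) .nil) .nil)))) 
(.nd (nat_lit 9) 
(.lf (nat_lit 552205) (.g (nat_lit 3586) (.e (nat_lit 426125) (nat_lit 2) (.e (nat_lit 196666) (nat_lit 13) (.e (nat_lit 65610) (nat_lit 10) (.e (nat_lit 344129) (nat_lit 26) (.e (nat_lit 557089) (nat_lit 12) (.e (nat_lit 164020) (nat_lit 45) (.e (nat_lit 696330) (nat_lit 5) (.e (nat_lit 2888) (nat_lit 184) .nil)))))))) (.g (nat_lit 1) (.e (nat_lit 300811) (nat_lit 0) .nil) .nil))) 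
(.lf (nat_lit 552717) (.g (nat_lit 2882) (.e (nat_lit 426129) (nat_lit 3) (.e (nat_lit 204846) (nat_lit 24) (.e (nat_lit 319532) (nat_lit 16) (.e (nat_lit 286735) (nat_lit 3) (.e (nat_lit 98363) (nat_lit 26) (.e (nat_lit 426230) (nat_lit 9) .nil)))))) (.g (nat_lit 1) (.e (nat_lit 301730) (nat_lit 0) .nil) .nil))))) (.nd (nat_lit 8) (.nd (nat_lit 9) 
(.lf (nat_lit 552077) (.g (nat_lit 657) (.e (nat_lit 426123) (nat_lit 2) (.e (nat_lit 196681) (nat_lit 17) (.e (nat_lit 131109) (nat_lit 9) .nil))) (.g (nat_lit 0) (.e (nat_lit 299277) (nat_lit 0) .nil) .nil))) 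
(.lf (nat_lit 552589) (.g (nat_lit 2225) (.e (nat_lit 426125) (nat_lit 2) (.e (nat_lit 196666) (nat_lit 13) (.e (nat_lit 65617) (nat_lit 10) (.e (nat_lit 344133) (nat_lit 26) (.e (nat_lit 557091) (nat_lit 12) (.e (nat_lit 163841) (nat_lit 0) (.e (nat_lit 6418) (nat_lit 341) (.e (nat_lit 163900) (nat_lit 12) .nil)))))))) (.g (nat_lit 1) (.e (nat_lit 301443) (nat_lit 0) .nil) .nil)))) 
(.nd (nat_lit 9) 
(.lf (nat_lit 552333) (.g (nat_lit 1826) (.e (nat_lit 426125) (nat_lit 2) (.e (nat_lit 196666) (nat_lit 13) (.e (nat_lit 65617) (nat_lit 10) (.e (nat_lit 344127) (nat_lit 26) (.e (nat_lit 557089) (nat_lit 12) (.e (nat_lit 163850) (nat_lit 0) (.e (nat_lit 6428) (nat_lit 342) (.e (nat_lit 229399) (nat_lit 12) .nil)))))))) (.g (nat_lit 1) (.e (nat_lit 301069) (nat_lit 0) .nil) .nil))) 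
(.lf (nat_lit 552845) (.g (nat_lit 1286) (.e (nat_lit 426129) (nat_lit 3) (.e (nat_lit 204885) (nat_lit 33) (.e (nat_lit 401448) (nat_lit 10) (.e (nat_lit 434232) (nat_lit 23) .nil)))) (.g (nat_lit 0) (.e (nat_lit 301999) (nat_lit 0) .nil) .nil)))))) (.nd (nat_lit 7) (.nd (nat_lit 8) (.nd (nat_lit 9) 
(.lf (nat_lit 552013) (.g (nat_lit 4033) (.e (nat_lit 426123) (nat_lit 2) (.e (nat_lit 196666) (nat_lit 13) (.e (nat_lit 65617) (nat_lit 10) (.e (nat_lit 344132) (nat_lit 26) (.e (nat_lit 557094) (nat_lit 12) (.e (nat_lit 164022) (nat_lit 46) (.e (nat_lit 704626) (nat_lit 9) (.e (nat_lit 435) (nat_lit 32) .nil)))))))) (.g (nat_lit 1) (.e (nat_lit 299189) (nat_lit 0) .nil) .nil))) 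
(.lf (nat_lit 552525) (.g (nat_lit 3110) (.e (nat_lit 426125) (nat_lit 2) (.e (nat_lit 196666) (nat_lit 13) (.e (nat_lit 65617) (nat_lit 10) (.e (nat_lit 344132) (nat_lit 26) (.e (nat_lit 557093) (nat_lit 12) (.e (nat_lit 171776) (nat_lit 49) (.e (nat_lit 729095) (nat_lit 11) .nil))))))) (.g (nat_lit 1) (.e (nat_lit 301355) (nat_lit 0) .nil) .nil)))) (.nd (nat_lit 9) 
(.lf (nat_lit 552269) (.g (nat_lit 2574) (.e (nat_lit 426125) (nat_lit 2) (.e (nat_lit 196666) (nat_lit 13) (.e (nat_lit 65610) (nat_lit 10) (.e (nat_lit 344129) (nat_lit 26) (.e (nat_lit 557090) (nat_lit 12) (.e (nat_lit 164018) (nat_lit 45) (.e (nat_lit 696329) (nat_lit 5) (.e (nat_lit 2878) (nat_lit 184) .nil)))))))) (.g (nat_lit 1) (.e (nat_lit 300981) (nat_lit 0) .nil) .nil))) 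
(.lf (nat_lit 552781) (.g (nat_lit 4297) (.e (nat_lit 426129) (nat_lit 3) (.e (nat_lit 204869) (nat_lit 29) (.e (nat_lit 360472) (nat_lit 8) (.e (nat_lit 557090) (nat_lit 12) (.e (nat_lit 163844) (nat_lit 0) .nil))))) (.g (nat_lit 0) (.e (nat_lit 301887) (nat_lit 0) .nil) .nil))))) (.nd (nat_lit 8) (.nd (nat_lit 9) 
(.lf (nat_lit 552141) (.g (nat_lit 1787) (.e (nat_lit 426125) (nat_lit 2) (.e (nat_lit 196666) (nat_lit 13) (.e (nat_lit 65610) (nat_lit 10) (.e (nat_lit 344127) (nat_lit 26) .nil)))) (.g (nat_lit 0) (.e (nat_lit 300638) (nat_lit 0) .nil) .nil))) 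
(.lf (nat_lit 552653) (.g (nat_lit 3037) (.e (nat_lit 426125) (nat_lit 2) (.e (nat_lit 196666) (nat_lit 13) (.e (nat_lit 65622) (nat_lit 12) (.e (nat_lit 385068) (nat_lit 26) (.e (nat_lit 532515) (nat_lit 3) (.e (nat_lit 122624) (nat_lit 11) .nil)))))) (.g (nat_lit 1) (.e (nat_lit 301560) (nat_lit 0) .nil) .nil)))) (.nd (nat_lit 9) 
(.lf (nat_lit 552397) (.g (nat_lit 3331) (.e (nat_lit 426125) (nat_lit 2) (.e (nat_lit 196666) (nat_lit 13) (.e (nat_lit 65617) (nat_lit 10) (.e (nat_lit 344130) (nat_lit 26) (.e (nat_lit 557089) (nat_lit 12) (.e (nat_lit 164020) (nat_lit 45) (.e (nat_lit 696329) (nat_lit 5) (.e (nat_lit 2878) (nat_lit 184) .nil)))))))) (.g (nat_lit 1) (.e (nat_lit 301161) (nat_lit 0) .nil) .nil))) 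
(.lf (nat_lit 552909) (.g (nat_lit 3392) (.e (nat_lit 426131) (nat_lit 3) (.e (nat_lit 204830) (nat_lit 18) (.e (nat_lit 57685) (nat_lit 156) (.e (nat_lit 163905) (nat_lit 12) (.e (nat_lit 426568) (nat_lit 34) (.e (nat_lit 393271) (nat_lit 23) .nil)))))) (.g (nat_lit 1) (.e (nat_lit 302091) (nat_lit 0) .nil) .nil))))))) (.nd (nat_lit 6) (.nd (nat_lit 7) (.nd (nat_lit 8) (.nd (nat_lit 9) 
(.lf (nat_lit 551981) (.g (nat_lit 3125) (.e (nat_lit 426123) (nat_lit 2) (.e (nat_lit 196666) (nat_lit 13) (.e (nat_lit 65617) (nat_lit 10) (.e (nat_lit 344132) (nat_lit 26) (.e (nat_lit 557093) (nat_lit 12) (.e (nat_lit 164022) (nat_lit 46) (.e (nat_lit 704627) (nat_lit 9) (.e (nat_lit 436) (nat_lit 32) .nil)))))))) (.g (nat_lit 1) (.e (nat_lit 299126) (nat_lit 0) .nil) .nil))) 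
(.lf (nat_lit 552493) (.g (nat_lit 3002) (.e (nat_lit 426125) (nat_lit 2) (.e (nat_lit 196666) (nat_lit 13) (.e (nat_lit 65617) (nat_lit 10) (.e (nat_lit 344132) (nat_lit 26) (.e (nat_lit 557091) (nat_lit 12) (.e (nat_lit 164022) (nat_lit 46) (.e (nat_lit 704629) (nat_lit 9) (.e (nat_lit 375) (nat_lit 32) .nil)))))))) (.g (nat_lit 1) (.e (nat_lit 301311) (nat_lit 0) .nil) .nil)))) 
(.nd (nat_lit 9) 
(.lf (nat_lit 552237) (.g (nat_lit 3275) (.e (nat_lit 426125) (nat_lit 2) (.e (nat_lit 196666) (nat_lit 13) (.e (nat_lit 65610) (nat_lit 10) (.e (nat_lit 344129) (nat_lit 26) (.e (nat_lit 557090) (nat_lit 12) (.e (nat_lit 163847) (nat_lit 0) (.e (nat_lit 6420) (nat_lit 341) (.e (nat_lit 163909) (nat_lit 12) .nil)))))))) (.g (nat_lit 1) (.e (nat_lit 300923) (nat_lit 0) .nil) .nil))) 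
(.lf (nat_lit 552749) (.g (nat_lit 3091) (.e (nat_lit 426129) (nat_lit 3) (.e (nat_lit 204852) (nat_lit 26) (.e (nat_lit 336208) (nat_lit 12) (.e (nat_lit 385068) (nat_lit 26) (.e (nat_lit 532515) (nat_lit 3) (.e (nat_lit 114696) (nat_lit 11) .nil)))))) (.g (nat_lit 1) (.e (nat_lit 301788) (nat_lit 0) .nil) .nil))))) (.nd (nat_lit 8) (.nd (nat_lit 9) 
(.lf (nat_lit 552109) (.g (nat_lit 1127) (.e (nat_lit 426124) (nat_lit 2) (.e (nat_lit 196681) (nat_lit 17) (.e (nat_lit 131122) (nat_lit 12) .nil))) (.g (nat_lit 0) (.e (nat_lit 299513) (nat_lit 0) .nil) .nil))) 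
(.lf (nat_lit 552621) (.g (nat_lit 2689) (.e (nat_lit 426125) (nat_lit 2) (.e (nat_lit 196666) (nat_lit 13) (.e (nat_lit 65617) (nat_lit 10) (.e (nat_lit 344133) (nat_lit 26) (.e (nat_lit 557091) (nat_lit 12) (.e (nat_lit 164020) (nat_lit 45) (.e (nat_lit 696327) (nat_lit 5) (.e (nat_lit 2842) (nat_lit 184) .nil)))))))) (.g (nat_lit 1) (.e (nat_lit 301515) (nat_lit 0) .nil) .nil)))) 
(.nd (nat_lit 9) 
(.lf (nat_lit 552365) (.g (nat_lit 3426) (.e (nat_lit 426125) (nat_lit 2) (.e (nat_lit 196666) (nat_lit 13) (.e (nat_lit 65617) (nat_lit 10) (.e (nat_lit 344127) (nat_lit 26) (.e (nat_lit 557090) (nat_lit 12) (.e (nat_lit 164018) (nat_lit 45) (.e (nat_lit 696330) (nat_lit 5) (.e (nat_lit 2884) (nat_lit 184) .nil)))))))) (.g (nat_lit 1) (.e (nat_lit 301117) (nat_lit 0) .nil) .nil))) 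
(.lf (nat_lit 552877) (.g (nat_lit 4449) (.e (nat_lit 426130) (nat_lit 3) (.e (nat_lit 204869) (nat_lit 29) (.e (nat_lit 360475) (nat_lit 8) (.e (nat_lit 557091) (nat_lit 12) (.e (nat_lit 163847) (nat_lit 0) .nil))))) (.g (nat_lit 0) (.e (nat_lit 302034) (nat_lit 0) .nil) .nil)))))) (.nd (nat_lit 7) (.nd (nat_lit 8) (.nd (nat_lit 9) 
(.lf (nat_lit 552045) (.g (nat_lit 3946) (.e (nat_lit 426123) (nat_lit 2) (.e (nat_lit 196666) (nat_lit 13) (.e (nat_lit 65617) (nat_lit 10) (.e (nat_lit 344133) (nat_lit 26) (.e (nat_lit 557091) (nat_lit 12) (.e (nat_lit 164022) (nat_lit 46) (.e (nat_lit 704627) (nat_lit 9) (.e (nat_lit 440) (nat_lit 32) .nil)))))))) (.g (nat_lit 1) (.e (nat_lit 299227) (nat_lit 0) .nil) .nil))) 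
(.lf (nat_lit 552557) (.g (nat_lit 3463) (.e (nat_lit 426125) (nat_lit 2) (.e (nat_lit 196666) (nat_lit 13) (.e (nat_lit 65617) (nat_lit 10) (.e (nat_lit 344133) (nat_lit 26) (.e (nat_lit 557089) (nat_lit 12) (.e (nat_lit 163843) (nat_lit 0) (.e (nat_lit 6420) (nat_lit 341) (.e (nat_lit 163909) (nat_lit 12) .nil)))))))) (.g (nat_lit 1) (.e (nat_lit 301396) (nat_lit 0) .nil) .nil)))) 
(.nd (nat_lit 9) 
(.lf (nat_lit 552301) (.g (nat_lit 2682) (.e (nat_lit 426125) (nat_lit 2) (.e (nat_lit 196666) (nat_lit 13) (.e (nat_lit 65610) (nat_lit 10) (.e (nat_lit 344129) (nat_lit 26) (.e (nat_lit 557092) (nat_lit 12) (.e (nat_lit 164022) (nat_lit 46) (.e (nat_lit 704629) (nat_lit 9) (.e (nat_lit 411) (nat_lit 32) .nil)))))))) (.g (nat_lit 1) (.e (nat_lit 301034) (nat_lit 0) .nil) .nil))) 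
(.lf (nat_lit 552813) (.g (nat_lit 4654) (.e (nat_lit 426129) (nat_lit 3) (.e (nat_lit 204869) (nat_lit 29) (.e (nat_lit 360475) (nat_lit 8) (.e (nat_lit 557088) (nat_lit 12) .nil)))) (.g (nat_lit 0) (.e (nat_lit 301923) (nat_lit 0) .nil) .nil))))) (.nd (nat_lit 8) (.nd (nat_lit 9) 
(.lf (nat_lit 552173) (.g (nat_lit 3432) (.e (nat_lit 426125) (nat_lit 2) (.e (nat_lit 196666) (nat_lit 13) (.e (nat_lit 65610) (nat_lit 10) (.e (nat_lit 344129) (nat_lit 26) (.e (nat_lit 557089) (nat_lit 12) (.e (nat_lit 163844) (nat_lit 0) (.e (nat_lit 6421) (nat_lit 341) (.e (nat_lit 163909) (nat_lit 12) .nil)))))))) (.g (nat_lit 1) (.e (nat_lit 300752) (nat_lit 0) .nil) .nil))) 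
(.lf (nat_lit 552685) (.g (nat_lit 2184) (.e (nat_lit 426129) (nat_lit 3) (.e (nat_lit 204831) (nat_lit 18) (.e (nat_lit 57686) (nat_lit 156) (.e (nat_lit 163903) (nat_lit 12) (.e (nat_lit 426568) (nat_lit 34) (.e (nat_lit 393279) (nat_lit 23) .nil)))))) (.g (nat_lit 1) (.e (nat_lit 301667) (nat_lit 0) .nil) .nil)))) (.nd (nat_lit 9) 
(.lf (nat_lit 552429) (.g (nat_lit 3890) (.e (nat_lit 426125) (nat_lit 2) (.e (nat_lit 196666) (nat_lit 13) (.e (nat_lit 65617) (nat_lit 10) (.e (nat_lit 344130) (nat_lit 26) (.e (nat_lit 557090) (nat_lit 12) (.e (nat_lit 163849) (nat_lit 0) (.e (nat_lit 6421) (nat_lit 341) (.e (nat_lit 163900) (nat_lit 12) .nil)))))))) (.g (nat_lit 1) (.e (nat_lit 301230) (nat_lit 0) .nil) .nil))) 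
(.lf (nat_lit 552941) (.g (nat_lit 2026) (.e (nat_lit 426131) (nat_lit 3) (.e (nat_lit 204846) (nat_lit 24) (.e (nat_lit 319530) (nat_lit 16) (.e (nat_lit 286734) (nat_lit 3) .nil)))) (.g (nat_lit 0) (.e (nat_lit 302143) (nat_lit 0) .nil) .nil)))))))) (.nd (nat_lit 5) (.nd (nat_lit 6) (.nd (nat_lit 7) (.nd (nat_lit 8) (.nd (nat_lit 9) 
(.lf (nat_lit 551965) (.g (nat_lit 5209) (.e (nat_lit 426123) (nat_lit 2) (.e (nat_lit 196666) (nat_lit 13) (.e (nat_lit 65617) (nat_lit 10) (.e (nat_lit 344130) (nat_lit 26) (.e (nat_lit 557090) (nat_lit 12) (.e (nat_lit 164022) (nat_lit 46) (.e (nat_lit 704628) (nat_lit 9) (.e (nat_lit 416) (nat_lit 32) .nil)))))))) (.g (nat_lit 1) (.e (nat_lit 299107) (nat_lit 0) .nil) .nil))) 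
(.lf (nat_lit 552477) (.g (nat_lit 2648) (.e (nat_lit 426125) (nat_lit 2) (.e (nat_lit 196666) (nat_lit 13) (.e (nat_lit 65617) (nat_lit 10) (.e (nat_lit 344132) (nat_lit 26) (.e (nat_lit 557089) (nat_lit 12) (.e (nat_lit 164020) (nat_lit 45) (.e (nat_lit 696330) (nat_lit 5) (.e (nat_lit 2884) (nat_lit 184) .nil)))))))) (.g (nat_lit 1) (.e (nat_lit 301295) (nat_lit 0) .nil) .nil)))) 
(.nd (nat_lit 9) 
(.lf (nat_lit 552221) (.g (nat_lit 4983) (.e (nat_lit 426125) (nat_lit 2) (.e (nat_lit 196666) (nat_lit 13) (.e (nat_lit 65610) (nat_lit 10) (.e (nat_lit 344129) (nat_lit 26) (.e (nat_lit 557090) (nat_lit 12) (.e (nat_lit 163843) (nat_lit 0) (.e (nat_lit 6416) (nat_lit 341) (.e (nat_lit 163909) (nat_lit 12) .nil)))))))) (.g (nat_lit 1) (.e (nat_lit 300870) (nat_lit 0) .nil) .nil))) 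
(.lf (nat_lit 552733) (.g (nat_lit 1390) (.e (nat_lit 426129) (nat_lit 3) (.e (nat_lit 204846) (nat_lit 24) (.e (nat_lit 319534) (nat_lit 16) (.e (nat_lit 286733) (nat_lit 2) .nil)))) (.g (nat_lit 0) (.e (nat_lit 301759) (nat_lit 0) .nil) .nil))))) (.nd (nat_lit 8) (.nd (nat_lit 9) 
(.lf (nat_lit 552093) (.g (nat_lit 2693) (.e (nat_lit 426124) (nat_lit 2) (.e (nat_lit 196677) (nat_lit 16) (.e (nat_lit 130816) (nat_lit 206) (.e (nat_lit 180250) (nat_lit 10) (.e (nat_lit 573471) (nat_lit 11) (.e (nat_lit 24320) (nat_lit 9) .nil)))))) (.g (nat_lit 1) (.e (nat_lit 299454) (nat_lit 0) .nil) .nil))) 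
(.lf (nat_lit 552605) (.g (nat_lit 3245) (.e (nat_lit 426125) (nat_lit 2) (.e (nat_lit 196666) (nat_lit 13) (.e (nat_lit 65617) (nat_lit 10) (.e (nat_lit 344133) (nat_lit 26) (.e (nat_lit 557091) (nat_lit 12) (.e (nat_lit 163850) (nat_lit 0) (.e (nat_lit 6426) (nat_lit 342) (.e (nat_lit 229399) (nat_lit 12) .nil)))))))) (.g (nat_lit 1) (.e (nat_lit 301492) (nat_lit 0) .nil) .nil)))) 
(.nd (nat_lit 9) 
(.lf (nat_lit 552349) (.g (nat_lit 4604) (.e (nat_lit 426125) (nat_lit 2) (.e (nat_lit 196666) (nat_lit 13) (.e (nat_lit 65617) (nat_lit 10) (.e (nat_lit 344127) (nat_lit 26) (.e (nat_lit 557090) (nat_lit 12) (.e (nat_lit 163844) (nat_lit 0) (.e (nat_lit 6421) (nat_lit 341) (.e (nat_lit 163909) (nat_lit 12) .nil)))))))) (.g (nat_lit 1) (.e (nat_lit 301098) (nat_lit 0) .nil) .nil))) 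
(.lf (nat_lit 552861) (.g (nat_lit 3598) (.e (nat_lit 426130) (nat_lit 3) (.e (nat_lit 204868) (nat_lit 29) (.e (nat_lit 360475) (nat_lit 8) (.e (nat_lit 557089) (nat_lit 12) (.e (nat_lit 163844) (nat_lit 0) .nil))))) (.g (nat_lit 0) (.e (nat_lit 302018) (nat_lit 0) .nil) .nil)))))) (.nd (nat_lit 7) (.nd (nat_lit 8) (.nd (nat_lit 9) 
(.lf (nat_lit 552029) (.g (nat_lit 3509) (.e (nat_lit 426123) (nat_lit 2) (.e (nat_lit 196666) (nat_lit 13) (.e (nat_lit 65617) (nat_lit 10) (.e (nat_lit 344133) (nat_lit 26) (.e (nat_lit 557091) (nat_lit 12) (.e (nat_lit 163843) (nat_lit 0) (.e (nat_lit 6420) (nat_lit 341) (.e (nat_lit 171776) (nat_lit 12) .nil)))))))) (.g (nat_lit 1) (.e (nat_lit 299206) (nat_lit 0) .nil) .nil))) 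
(.lf (nat_lit 552541) (.g (nat_lit 4453) (.e (nat_lit 426125) (nat_lit 2) (.e (nat_lit 196666) (nat_lit 13) (.e (nat_lit 65617) (nat_lit 10) (.e (nat_lit 344132) (nat_lit 26) (.e (nat_lit 557094) (nat_lit 12) (.e (nat_lit 164022) (nat_lit 46) (.e (nat_lit 704626) (nat_lit 9) (.e (nat_lit 375) (nat_lit 32) .nil)))))))) (.g (nat_lit 1) (.e (nat_lit 301376) (nat_lit 0) .nil) .nil)))) 
(.nd (nat_lit 9) 
(.lf (nat_lit 552285) (.g (nat_lit 3199) (.e (nat_lit 426125) (nat_lit 2) (.e (nat_lit 196666) (nat_lit 13) (.e (nat_lit 65610) (nat_lit 10) (.e (nat_lit 344129) (nat_lit 26) (.e (nat_lit 557090) (nat_lit 12) (.e (nat_lit 164020) (nat_lit 45) (.e (nat_lit 696327) (nat_lit 5) (.e (nat_lit 2879) (nat_lit 184) .nil)))))))) (.g (nat_lit 1) (.e (nat_lit 300997) (nat_lit 0) .nil) .nil))) 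
(.lf (nat_lit 552797) (.g (nat_lit 2122) (.e (nat_lit 426129) (nat_lit 3) (.e (nat_lit 204869) (nat_lit 29) (.e (nat_lit 360474) (nat_lit 8) (.e (nat_lit 557093) (nat_lit 12) .nil)))) (.g (nat_lit 0) (.e (nat_lit 301904) (nat_lit 0) .nil) .nil))))) (.nd (nat_lit 8) (.nd (nat_lit 9) 
(.lf (nat_lit 552157) (.g (nat_lit 2578) (.e (nat_lit 426125) (nat_lit 2) (.e (nat_lit 196666) (nat_lit 13) (.e (nat_lit 65610) (nat_lit 10) (.e (nat_lit 344129) (nat_lit 26) (.e (nat_lit 557088) (nat_lit 12) (.e (nat_lit 164022) (nat_lit 46) (.e (nat_lit 704626) (nat_lit 9) (.e (nat_lit 375) (nat_lit 32) .nil)))))))) (.g (nat_lit 1) (.e (nat_lit 300709) (nat_lit 0) .nil) .nil))) 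
(.lf (nat_lit 552669) (.g (nat_lit 1878) (.e (nat_lit 426128) (nat_lit 2) (.e (nat_lit 196656) (nat_lit 11) (.e (nat_lit 16392) (nat_lit 0) (.e (nat_lit 3397) (nat_lit 211) .nil)))) (.g (nat_lit 0) (.e (nat_lit 301603) (nat_lit 0) .nil) .nil)))) (.nd (nat_lit 9) 
(.lf (nat_lit 552413) (.g (nat_lit 4306) (.e (nat_lit 426125) (nat_lit 2) (.e (nat_lit 196666) (nat_lit 13) (.e (nat_lit 65617) (nat_lit 10) (.e (nat_lit 344130) (nat_lit 26) (.e (nat_lit 557090) (nat_lit 12) (.e (nat_lit 163844) (nat_lit 0) (.e (nat_lit 6418) (nat_lit 341) (.e (nat_lit 163900) (nat_lit 12) .nil)))))))) (.g (nat_lit 1) (.e (nat_lit 301205) (nat_lit 0) .nil) .nil))) 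
(.lf (nat_lit 552925) (.g (nat_lit 698) (.e (nat_lit 426131) (nat_lit 3) (.e (nat_lit 204831) (nat_lit 18) (.e (nat_lit 57778) (nat_lit 233) .nil))) (.g (nat_lit 0) (.e (nat_lit 302125) (nat_lit 0) .nil) .nil))))))) (.nd (nat_lit 6) (.nd (nat_lit 7) (.nd (nat_lit 8) (.nd (nat_lit 9) 
(.lf (nat_lit 551997) (.g (nat_lit 3865) (.e (nat_lit 426123) (nat_lit 2) (.e (nat_lit 196666) (nat_lit 13) (.e (nat_lit 65617) (nat_lit 10) (.e (nat_lit 344132) (nat_lit 26) (.e (nat_lit 557093) (nat_lit 12) (.e (nat_lit 164023) (nat_lit 46) (.e (nat_lit 704626) (nat_lit 9) (.e (nat_lit 440) (nat_lit 32) .nil)))))))) (.g (nat_lit 1) (.e (nat_lit 299144) (nat_lit 0) .nil) .nil))) 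
(.lf (nat_lit 552509) (.g (nat_lit 3434) (.e (nat_lit 426125) (nat_lit 2) (.e (nat_lit 196666) (nat_lit 13) (.e (nat_lit 65617) (nat_lit 10) (.e (nat_lit 344132) (nat_lit 26) (.e (nat_lit 557093) (nat_lit 12) (.e (nat_lit 164018) (nat_lit 45) (.e (nat_lit 696328) (nat_lit 5) (.e (nat_lit 2878) (nat_lit 184) .nil)))))))) (.g (nat_lit 1) (.e (nat_lit 301334) (nat_lit 0) .nil) .nil)))) 
(.nd (nat_lit 9) 
(.lf (nat_lit 552253) (.g (nat_lit 2485) (.e (nat_lit 426125) (nat_lit 2) (.e (nat_lit 196666) (nat_lit 13) (.e (nat_lit 65610) (nat_lit 10) (.e (nat_lit 344129) (nat_lit 26) (.e (nat_lit 557090) (nat_lit 12) (.e (nat_lit 163854) (nat_lit 0) (.e (nat_lit 6428) (nat_lit 342) (.e (nat_lit 229399) (nat_lit 12) .nil)))))))) (.g (nat_lit 1) (.e (nat_lit 300958) (nat_lit 0) .nil) .nil))) 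
(.lf (nat_lit 552765) (.g (nat_lit 2187) (.e (nat_lit 426129) (nat_lit 3) (.e (nat_lit 204868) (nat_lit 29) (.e (nat_lit 360473) (nat_lit 8) (.e (nat_lit 557091) (nat_lit 12) (.e (nat_lit 163844) (nat_lit 0) .nil))))) (.g (nat_lit 0) (.e (nat_lit 301871) (nat_lit 0) .nil) .nil))))) (.nd (nat_lit 8) (.nd (nat_lit 9) 
(.lf (nat_lit 552125) (.g (nat_lit 3532) (.e (nat_lit 426125) (nat_lit 2) (.e (nat_lit 196666) (nat_lit 13) (.e (nat_lit 65610) (nat_lit 10) (.e (nat_lit 344117) (nat_lit 21) (.e (nat_lit 516097) (nat_lit 0) (.e (nat_lit 2418) (nat_lit 157) (.e (nat_lit 4541) (nat_lit 267) (.e (nat_lit 163909) (nat_lit 12) .nil)))))))) (.g (nat_lit 1) (.e (nat_lit 299647) (nat_lit 0) .nil) .nil))) 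
(.lf (nat_lit 552637) (.g (nat_lit 3341) (.e (nat_lit 426125) (nat_lit 2) (.e (nat_lit 196666) (nat_lit 13) (.e (nat_lit 65617) (nat_lit 10) (.e (nat_lit 344133) (nat_lit 26) (.e (nat_lit 557091) (nat_lit 12) (.e (nat_lit 171776) (nat_lit 48) (.e (nat_lit 728832) (nat_lit 11) .nil))))))) (.g (nat_lit 1) (.e (nat_lit 301542) (nat_lit 0) .nil) .nil)))) (.nd (nat_lit 9) 
(.lf (nat_lit 552381) (.g (nat_lit 1858) (.e (nat_lit 426125) (nat_lit 2) (.e (nat_lit 196666) (nat_lit 13) (.e (nat_lit 65617) (nat_lit 10) (.e (nat_lit 344130) (nat_lit 26) (.e (nat_lit 557089) (nat_lit 12) .nil))))) (.g (nat_lit 0) (.e (nat_lit 301137) (nat_lit 0) .nil) .nil))) 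
(.lf (nat_lit 552893) (.g (nat_lit 3061) (.e (nat_lit 426131) (nat_lit 3) (.e (nat_lit 204829) (nat_lit 18) (.e (nat_lit 57688) (nat_lit 156) (.e (nat_lit 163905) (nat_lit 12) (.e (nat_lit 426566) (nat_lit 34) (.e (nat_lit 393272) (nat_lit 23) .nil)))))) (.g (nat_lit 1) (.e (nat_lit 302060) (nat_lit 0) .nil) .nil)))))) (.nd (nat_lit 7) (.nd (nat_lit 8) (.nd (nat_lit 9) 
(.lf (nat_lit 552061) (.g (nat_lit 3257) (.e (nat_lit 426123) (nat_lit 2) (.e (nat_lit 196666) (nat_lit 13) (.e (nat_lit 65617) (nat_lit 10) (.e (nat_lit 344133) (nat_lit 26) (.e (nat_lit 557091) (nat_lit 12) (.e (nat_lit 171776) (nat_lit 48) (.e (nat_lit 728832) (nat_lit 11) .nil))))))) (.g (nat_lit 1) (.e (nat_lit 299246) (nat_lit 0) .nil) .nil))) 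
(.lf (nat_lit 552573) (.g (nat_lit 2742) (.e (nat_lit 426125) (nat_lit 2) (.e (nat_lit 196666) (nat_lit 13) (.e (nat_lit 65617) (nat_lit 10) (.e (nat_lit 344133) (nat_lit 26) (.e (nat_lit 557089) (nat_lit 12) (.e (nat_lit 164020) (nat_lit 45) (.e (nat_lit 696330) (nat_lit 5) (.e (nat_lit 2842) (nat_lit 184) .nil)))))))) (.g (nat_lit 1) (.e (nat_lit 301425) (nat_lit 0) .nil) .nil)))) 
(.nd (nat_lit 9) 
(.lf (nat_lit 552317) (.g (nat_lit 1025) (.e (nat_lit 426125) (nat_lit 2) (.e (nat_lit 196666) (nat_lit 13) (.e (nat_lit 65611) (nat_lit 10) .nil))) (.g (nat_lit 0) (.e (nat_lit 301051) (nat_lit 0) .nil) .nil))) 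
(.lf (nat_lit 552829) (.g (nat_lit 4770) (.e (nat_lit 426129) (nat_lit 3) (.e (nat_lit 204869) (nat_lit 29) (.e (nat_lit 360475) (nat_lit 8) (.e (nat_lit 557091) (nat_lit 12) (.e (nat_lit 164022) (nat_lit 46) (.e (nat_lit 704628) (nat_lit 9) (.e (nat_lit 433) (nat_lit 32) .nil))))))) (.g (nat_lit 1) (.e (nat_lit 301939) (nat_lit 0) .nil) .nil))))) (.nd (nat_lit 8) (.nd (nat_lit 9) 
(.lf (nat_lit 552189) (.g (nat_lit 2310) (.e (nat_lit 426125) (nat_lit 2) (.e (nat_lit 196666) (nat_lit 13) (.e (nat_lit 65610) (nat_lit 10) (.e (nat_lit 344129) (nat_lit 26) (.e (nat_lit 557089) (nat_lit 12) (.e (nat_lit 163853) (nat_lit 0) (.e (nat_lit 6428) (nat_lit 342) (.e (nat_lit 229399) (nat_lit 12) .nil)))))))) (.g (nat_lit 1) (.e (nat_lit 300791) (nat_lit 0) .nil) .nil))) 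
(.lf (nat_lit 552701) (.g (nat_lit 1683) (.e (nat_lit 426129) (nat_lit 3) (.e (nat_lit 204845) (nat_lit 24) (.e (nat_lit 319531) (nat_lit 16) (.e (nat_lit 286735) (nat_lit 3) .nil)))) (.g (nat_lit 0) (.e (nat_lit 301695) (nat_lit 0) .nil) .nil)))) (.nd (nat_lit 9) 
(.lf (nat_lit 552445) (.g (nat_lit 3501) (.e (nat_lit 426125) (nat_lit 2) (.e (nat_lit 196666) (nat_lit 13) (.e (nat_lit 65617) (nat_lit 10) (.e (nat_lit 344130) (nat_lit 26) (.e (nat_lit 557090) (nat_lit 12) (.e (nat_lit 164020) (nat_lit 45) (.e (nat_lit 696327) (nat_lit 5) (.e (nat_lit 2873) (nat_lit 184) .nil)))))))) (.g (nat_lit 1) (.e (nat_lit 301253) (nat_lit 0) .nil) .nil))) 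
(.lf (nat_lit 552957) (.g (nat_lit 1585) (.e (nat_lit 426131) (nat_lit 3) (.e (nat_lit 204846) (nat_lit 24) (.e (nat_lit 319533) (nat_lit 16) (.e (nat_lit 286724) (nat_lit 0) (.e (nat_lit 1774) (nat_lit 118) .nil))))) (.g (nat_lit 0) (.e (nat_lit 302159) (nat_lit 0) .nil) .nil))))))))))) 
(.nd (nat_lit 2) (.nd (nat_lit 3) (.nd (nat_lit 4) (.nd (nat_lit 5) (.nd (nat_lit 6) 
(.nd (nat_lit 7) (.nd (nat_lit 8) (.nd (nat_lit 9) 
(.lf (nat_lit 551939) (.g (nat_lit 3754) (.e (nat_lit 426123) (nat_lit 2) (.e (nat_lit 196666) (nat_lit 13) (.e (nat_lit 65617) (nat_lit 10) (.e (nat_lit 344127) (nat_lit 26) (.e (nat_lit 557090) (nat_lit 12) (.e (nat_lit 163844) (nat_lit 0) (.e (nat_lit 6421) (nat_lit 341) (.e (nat_lit 171776) (nat_lit 12) .nil)))))))) (.g (nat_lit 1) (.e (nat_lit 299077) (nat_lit 0) .nil) .nil))) 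
(.lf (nat_lit 552451) (.g (nat_lit 3597) (.e (nat_lit 426125) (nat_lit 2) (.e (nat_lit 196666) (nat_lit 13) (.e (nat_lit 65617) (nat_lit 10) (.e (nat_lit 344130) (nat_lit 26) (.e (nat_lit 557090) (nat_lit 12) (.e (nat_lit 164022) (nat_lit 46) (.e (nat_lit 704626) (nat_lit 9) (.e (nat_lit 377) (nat_lit 32) .nil)))))))) (.g (nat_lit 1) (.e (nat_lit 301263) (nat_lit 0) .nil) .nil)))) 
(.nd (nat_lit 9) 
(.lf (nat_lit 552195) (.g (nat_lit 2958) (.e (nat_lit 426125) (nat_lit 2) (.e (nat_lit 196666) (nat_lit 13) (.e (nat_lit 65610) (nat_lit 10) (.e (nat_lit 344129) (nat_lit 26) (.e (nat_lit 557089) (nat_lit 12) (.e (nat_lit 164020) (nat_lit 45) (.e (nat_lit 696327) (nat_lit 5) (.e (nat_lit 2878) (nat_lit 184) .nil)))))))) (.g (nat_lit 1) (.e (nat_lit 300801) (nat_lit 0) .nil) .nil))) 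
(.lf (nat_lit 552707) (.g (nat_lit 3789) (.e (nat_lit 426129) (nat_lit 3) (.e (nat_lit 204846) (nat_lit 24) (.e (nat_lit 319530) (nat_lit 16) (.e (nat_lit 286735) (nat_lit 3) (.e (nat_lit 98363) (nat_lit 26) (.e (nat_lit 426260) (nat_lit 9) .nil)))))) (.g (nat_lit 1) (.e (nat_lit 301717) (nat_lit 0) .nil) .nil))))) (.nd (nat_lit 8) (.nd (nat_lit 9) 
(.lf (nat_lit 552067) (.g (nat_lit 3027) (.e (nat_lit 426123) (nat_lit 2) (.e (nat_lit 196666) (nat_lit 13) (.e (nat_lit 65622) (nat_lit 12) (.e (nat_lit 385068) (nat_lit 26) (.e (nat_lit 532513) (nat_lit 3) (.e (nat_lit 122624) (nat_lit 11) .nil)))))) (.g (nat_lit 1) (.e (nat_lit 299253) (nat_lit 0) .nil) .nil))) 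
(.lf (nat_lit 552579) (.g (nat_lit 4442) (.e (nat_lit 426125) (nat_lit 2) (.e (nat_lit 196666) (nat_lit 13) (.e (nat_lit 65617) (nat_lit 10) (.e (nat_lit 344133) (nat_lit 26) (.e (nat_lit 557090) (nat_lit 12) (.e (nat_lit 164020) (nat_lit 45) (.e (nat_lit 696330) (nat_lit 5) (.e (nat_lit 2884) (nat_lit 184) .nil)))))))) (.g (nat_lit 1) (.e (nat_lit 301432) (nat_lit 0) .nil) .nil)))) 
(.nd (nat_lit 9) 
(.lf (nat_lit 552323) (.g (nat_lit 1913) (.e (nat_lit 426125) (nat_lit 2) (.e (nat_lit 196666) (nat_lit 13) (.e (nat_lit 65617) (nat_lit 10) (.e (nat_lit 344127) (nat_lit 26) (.e (nat_lit 557069) (nat_lit 9) (.e (nat_lit 2612) (nat_lit 163) (.e (nat_lit 164187) (nat_lit 157) (.e (nat_lit 229399) (nat_lit 12) .nil)))))))) (.g (nat_lit 1) (.e (nat_lit 301059) (nat_lit 0) .nil) .nil))) 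
(.lf (nat_lit 552835) (.g (nat_lit 4357) (.e (nat_lit 426129) (nat_lit 3) (.e (nat_lit 204869) (nat_lit 29) (.e (nat_lit 360475) (nat_lit 8) (.e (nat_lit 557094) (nat_lit 12) .nil)))) (.g (nat_lit 0) (.e (nat_lit 301945) (nat_lit 0) .nil) .nil)))))) (.nd (nat_lit 7) (.nd (nat_lit 8) (.nd (nat_lit 9) 
(.lf (nat_lit 552003) (.g (nat_lit 2699) (.e (nat_lit 426123) (nat_lit 2) (.e (nat_lit 196666) (nat_lit 13) (.e (nat_lit 65617) (nat_lit 10) (.e (nat_lit 344132) (nat_lit 26) (.e (nat_lit 557093) (nat_lit 12) (.e (nat_lit 164023) (nat_lit 46) (.e (nat_lit 704629) (nat_lit 9) (.e (nat_lit 440) (nat_lit 32) .nil)))))))) (.g (nat_lit 1) (.e (nat_lit 299150) (nat_lit 0) .nil) .nil))) 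
(.lf (nat_lit 552515) (.g (nat_lit 5283) (.e (nat_lit 426125) (nat_lit 2) (.e (nat_lit 196666) (nat_lit 13) (.e (nat_lit 65617) (nat_lit 10) (.e (nat_lit 344132) (nat_lit 26) (.e (nat_lit 557093) (nat_lit 12) (.e (nat_lit 164022) (nat_lit 46) (.e (nat_lit 704628) (nat_lit 9) (.e (nat_lit 375) (nat_lit 32) .nil)))))))) (.g (nat_lit 1) (.e (nat_lit 301344) (nat_lit 0) .nil) .nil)))) 
(.nd (nat_lit 9) 
(.lf (nat_lit 552259) (.g (nat_lit 3858) (.e (nat_lit 426125) (nat_lit 2) (.e (nat_lit 196666) (nat_lit 13) (.e (nat_lit 65610) (nat_lit 10) (.e (nat_lit 344129) (nat_lit 26) (.e (nat_lit 557090) (nat_lit 12) (.e (nat_lit 164017) (nat_lit 44) (.e (nat_lit 688141) (nat_lit 5) (.e (nat_lit 2883) (nat_lit 184) .nil)))))))) (.g (nat_lit 1) (.e (nat_lit 300971) (nat_lit 0) .nil) .nil))) 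
(.lf (nat_lit 552771) (.g (nat_lit 1126) (.e (nat_lit 426129) (nat_lit 3) (.e (nat_lit 204868) (nat_lit 29) (.e (nat_lit 360473) (nat_lit 8) (.e (nat_lit 557094) (nat_lit 12) .nil)))) (.g (nat_lit 0) (.e (nat_lit 301877) (nat_lit 0) .nil) .nil))))) (.nd (nat_lit 8) (.nd (nat_lit 9) 
(.lf (nat_lit 552131) (.g (nat_lit 2319) (.e (nat_lit 426125) (nat_lit 2) (.e (nat_lit 196666) (nat_lit 13) (.e (nat_lit 65610) (nat_lit 10) (.e (nat_lit 344117) (nat_lit 21) (.e (nat_lit 516106) (nat_lit 0) (.e (nat_lit 7936) (nat_lit 157) (.e (nat_lit 4539) (nat_lit 267) (.e (nat_lit 163911) (nat_lit 12) .nil)))))))) (.g (nat_lit 1) (.e (nat_lit 300179) (nat_lit 0) .nil) .nil))) 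
(.lf (nat_lit 552643) (.g (nat_lit 2821) (.e (nat_lit 426125) (nat_lit 2) (.e (nat_lit 196666) (nat_lit 13) (.e (nat_lit 65617) (nat_lit 10) (.e (nat_lit 344133) (nat_lit 26) (.e (nat_lit 557093) (nat_lit 12) .nil))))) (.g (nat_lit 0) (.e (nat_lit 301548) (nat_lit 0) .nil) .nil)))) (.nd (nat_lit 9) 
(.lf (nat_lit 552387) (.g (nat_lit 3998) (.e (nat_lit 426125) (nat_lit 2) (.e (nat_lit 196666) (nat_lit 13) (.e (nat_lit 65617) (nat_lit 10) (.e (nat_lit 344130) (nat_lit 26) (.e (nat_lit 557089) (nat_lit 12) (.e (nat_lit 163844) (nat_lit 0) (.e (nat_lit 6420) (nat_lit 341) (.e (nat_lit 163909) (nat_lit 12) .nil)))))))) (.g (nat_lit 1) (.e (nat_lit 301147) (nat_lit 0) .nil) .nil))) 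
(.lf (nat_lit 552899) (.g (nat_lit 2115) (.e (nat_lit 426131) (nat_lit 3) (.e (nat_lit 204829) (nat_lit 18) (.e (nat_lit 57692) (nat_lit 156) (.e (nat_lit 163905) (nat_lit 12) (.e (nat_lit 426481) (nat_lit 27) .nil))))) (.g (nat_lit 0) (.e (nat_lit 302074) (nat_lit 0) .nil) .nil))))))) (.nd (nat_lit 6) (.nd (nat_lit 7) (.nd (nat_lit 8) (.nd (nat_lit 9) 
(.lf (nat_lit 551971) (.g (nat_lit 3104) (.e (nat_lit 426123) (nat_lit 2) (.e (nat_lit 196666) (nat_lit 13) (.e (nat_lit 65617) (nat_lit 10) (.e (nat_lit 344130) (nat_lit 26) (.e (nat_lit 557090) (nat_lit 12) (.e (nat_lit 171776) (nat_lit 49) (.e (nat_lit 737024) (nat_lit 11) .nil))))))) (.g (nat_lit 1) (.e (nat_lit 299115) (nat_lit 0) .nil) .nil))) 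
(.lf (nat_lit 552483) (.g (nat_lit 4707) (.e (nat_lit 426125) (nat_lit 2) (.e (nat_lit 196666) (nat_lit 13) (.e (nat_lit 65617) (nat_lit 10) (.e (nat_lit 344132) (nat_lit 26) (.e (nat_lit 557090) (nat_lit 12) (.e (nat_lit 164020) (nat_lit 45) (.e (nat_lit 696330) (nat_lit 5) (.e (nat_lit 2878) (nat_lit 184) .nil)))))))) (.g (nat_lit 1) (.e (nat_lit 301301) (nat_lit 0) .nil) .nil)))) 
(.nd (nat_lit 9) 
(.lf (nat_lit 552227) (.g (nat_lit 4203) (.e (nat_lit 426125) (nat_lit 2) (.e (nat_lit 196666) (nat_lit 13) (.e (nat_lit 65610) (nat_lit 10) (.e (nat_lit 344129) (nat_lit 26) (.e (nat_lit 557090) (nat_lit 12) (.e (nat_lit 163844) (nat_lit 0) (.e (nat_lit 6416) (nat_lit 341) (.e (nat_lit 163909) (nat_lit 12) .nil)))))))) (.g (nat_lit 1) (.e (nat_lit 300893) (nat_lit 0) .nil) .nil))) 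
(.lf (nat_lit 552739) (.g (nat_lit 2196) (.e (nat_lit 426129) (nat_lit 3) (.e (nat_lit 204846) (nat_lit 24) (.e (nat_lit 319534) (nat_lit 16) (.e (nat_lit 286735) (nat_lit 3) (.e (nat_lit 98359) (nat_lit 26) .nil))))) (.g (nat_lit 0) (.e (nat_lit 301770) (nat_lit 0) .nil) .nil))))) (.nd (nat_lit 8) (.nd (nat_lit 9) 
(.lf (nat_lit 552099) (.g (nat_lit 5100) (.e (nat_lit 426124) (nat_lit 2) (.e (nat_lit 196681) (nat_lit 17) (.e (nat_lit 131089) (nat_lit 1) (.e (nat_lit 57854) (nat_lit 252) (.e (nat_lit 57378) (nat_lit 3) (.e (nat_lit 98335) (nat_lit 18) (.e (nat_lit 164403) (nat_lit 256) (.e (nat_lit 57588) (nat_lit 73) .nil)))))))) (.g (nat_lit 1) (.e (nat_lit 299462) (nat_lit 0) .nil) .nil))) 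
(.lf (nat_lit 552611) (.g (nat_lit 4534) (.e (nat_lit 426125) (nat_lit 2) (.e (nat_lit 196666) (nat_lit 13) (.e (nat_lit 65617) (nat_lit 10) (.e (nat_lit 344133) (nat_lit 26) (.e (nat_lit 557091) (nat_lit 12) (.e (nat_lit 164017) (nat_lit 44) (.e (nat_lit 688138) (nat_lit 5) (.e (nat_lit 2883) (nat_lit 184) .nil)))))))) (.g (nat_lit 1) (.e (nat_lit 301502) (nat_lit 0) .nil) .nil)))) 
(.nd (nat_lit 9) 
(.lf (nat_lit 552355) (.g (nat_lit 3217) (.e (nat_lit 426125) (nat_lit 2) (.e (nat_lit 196666) (nat_lit 13) (.e (nat_lit 65617) (nat_lit 10) (.e (nat_lit 344127) (nat_lit 26) (.e (nat_lit 557090) (nat_lit 12) (.e (nat_lit 164016) (nat_lit 44) (.e (nat_lit 688139) (nat_lit 5) (.e (nat_lit 2877) (nat_lit 184) .nil)))))))) (.g (nat_lit 1) (.e (nat_lit 301104) (nat_lit 0) .nil) .nil))) 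
(.lf (nat_lit 552867) (.g (nat_lit 3641) (.e (nat_lit 426130) (nat_lit 3) (.e (nat_lit 204869) (nat_lit 29) (.e (nat_lit 360475) (nat_lit 8) (.e (nat_lit 557089) (nat_lit 12) .nil)))) (.g (nat_lit 0) (.e (nat_lit 302024) (nat_lit 0) .nil) .nil)))))) (.nd (nat_lit 7) (.nd (nat_lit 8) (.nd (nat_lit 9) 
(.lf (nat_lit 552035) (.g (nat_lit 3162) (.e (nat_lit 426123) (nat_lit 2) (.e (nat_lit 196666) (nat_lit 13) (.e (nat_lit 65617) (nat_lit 10) (.e (nat_lit 344133) (nat_lit 26) (.e (nat_lit 557091) (nat_lit 12) (.e (nat_lit 163850) (nat_lit 0) (.e (nat_lit 6425) (nat_lit 342) (.e (nat_lit 237312) (nat_lit 12) .nil)))))))) (.g (nat_lit 1) (.e (nat_lit 299212) (nat_lit 0) .nil) .nil))) 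
(.lf (nat_lit 552547) (.g (nat_lit 2710) (.e (nat_lit 426125) (nat_lit 2) (.e (nat_lit 196666) (nat_lit 13) (.e (nat_lit 65617) (nat_lit 10) (.e (nat_lit 344132) (nat_lit 26) (.e (nat_lit 557094) (nat_lit 12) (.e (nat_lit 171776) (nat_lit 48) (.e (nat_lit 728832) (nat_lit 11) .nil))))))) (.g (nat_lit 1) (.e (nat_lit 301384) (nat_lit 0) .nil) .nil)))) (.nd (nat_lit 9) 
(.lf (nat_lit 552291) (.g (nat_lit 3588) (.e (nat_lit 426125) (nat_lit 2) (.e (nat_lit 196666) (nat_lit 13) (.e (nat_lit 65610) (nat_lit 10) (.e (nat_lit 344129) (nat_lit 26) (.e (nat_lit 557090) (nat_lit 12) (.e (nat_lit 164020) (nat_lit 45) (.e (nat_lit 696330) (nat_lit 5) (.e (nat_lit 2885) (nat_lit 184) .nil)))))))) (.g (nat_lit 1) (.e (nat_lit 301003) (nat_lit 0) .nil) .nil))) 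
(.lf (nat_lit 552803) (.g (nat_lit 2818) (.e (nat_lit 426129) (nat_lit 3) (.e (nat_lit 204869) (nat_lit 29) (.e (nat_lit 360474) (nat_lit 8) (.e (nat_lit 557093) (nat_lit 12) (.e (nat_lit 171776) (nat_lit 49) .nil))))) (.g (nat_lit 0) (.e (nat_lit 301910) (nat_lit 0) .nil) .nil))))) (.nd (nat_lit 8) (.nd (nat_lit 9) 
(.lf (nat_lit 552163) (.g (nat_lit 3365) (.e (nat_lit 426125) (nat_lit 2) (.e (nat_lit 196666) (nat_lit 13) (.e (nat_lit 65610) (nat_lit 10) (.e (nat_lit 344129) (nat_lit 26) (.e (nat_lit 557089) (nat_lit 12) (.e (nat_lit 163843) (nat_lit 0) (.e (nat_lit 6420) (nat_lit 341) (.e (nat_lit 163900) (nat_lit 12) .nil)))))))) (.g (nat_lit 1) (.e (nat_lit 300722) (nat_lit 0) .nil) .nil))) 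
(.lf (nat_lit 552675) (.g (nat_lit 566) (.e (nat_lit 426129) (nat_lit 3) (.e (nat_lit 204829) (nat_lit 18) (.e (nat_lit 57665) (nat_lit 152) .nil))) (.g (nat_lit 0) (.e (nat_lit 301640) (nat_lit 0) .nil) .nil)))) (.nd (nat_lit 9) 
(.lf (nat_lit 552419) (.g (nat_lit 2162) (.e (nat_lit 426125) (nat_lit 2) (.e (nat_lit 196666) (nat_lit 13) (.e (nat_lit 65617) (nat_lit 10) (.e (nat_lit 344130) (nat_lit 26) (.e (nat_lit 557090) (nat_lit 12) (.e (nat_lit 163844) (nat_lit 0) (.e (nat_lit 6421) (nat_lit 341) (.e (nat_lit 171776) (nat_lit 12) .nil)))))))) (.g (nat_lit 1) (.e (nat_lit 301211) (nat_lit 0) .nil) .nil))) 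
(.lf (nat_lit 552931) (.g (nat_lit 2535) (.e (nat_lit 426131) (nat_lit 3) (.e (nat_lit 204845) (nat_lit 24) (.e (nat_lit 319530) (nat_lit 16) (.e (nat_lit 286733) (nat_lit 2) (.e (nat_lit 90183) (nat_lit 17) .nil))))) (.g (nat_lit 0) (.e (nat_lit 302132) (nat_lit 0) .nil) .nil)))))))) (.nd (nat_lit 5) (.nd (nat_lit 6) (.nd (nat_lit 7) (.nd (nat_lit 8) (.nd (nat_lit 9) 
(.lf (nat_lit 551955) (.g (nat_lit 4541) (.e (nat_lit 426123) (nat_lit 2) (.e (nat_lit 196666) (nat_lit 13) (.e (nat_lit 65617) (nat_lit 10) (.e (nat_lit 344130) (nat_lit 26) (.e (nat_lit 557090) (nat_lit 12) (.e (nat_lit 164022) (nat_lit 46) (.e (nat_lit 704626) (nat_lit 9) (.e (nat_lit 435) (nat_lit 32) .nil)))))))) (.g (nat_lit 1) (.e (nat_lit 299097) (nat_lit 0) .nil) .nil))) 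
(.lf (nat_lit 552467) (.g (nat_lit 4474) (.e (nat_lit 426125) (nat_lit 2) (.e (nat_lit 196666) (nat_lit 13) (.e (nat_lit 65617) (nat_lit 10) (.e (nat_lit 344130) (nat_lit 26) (.e (nat_lit 557091) (nat_lit 12) (.e (nat_lit 164020) (nat_lit 45) (.e (nat_lit 696330) (nat_lit 5) (.e (nat_lit 2878) (nat_lit 184) .nil)))))))) (.g (nat_lit 1) (.e (nat_lit 301283) (nat_lit 0) .nil) .nil)))) 
(.nd (nat_lit 9) 
(.lf (nat_lit 552211) (.g (nat_lit 2717) (.e (nat_lit 426125) (nat_lit 2) (.e (nat_lit 196666) (nat_lit 13) (.e (nat_lit 65610) (nat_lit 10) (.e (nat_lit 344129) (nat_lit 26) (.e (nat_lit 557089) (nat_lit 12) (.e (nat_lit 171776) (nat_lit 48) (.e (nat_lit 728832) (nat_lit 11) .nil))))))) (.g (nat_lit 1) (.e (nat_lit 300819) (nat_lit 0) .nil) .nil))) 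
(.lf (nat_lit 552723) (.g (nat_lit 2402) (.e (nat_lit 426129) (nat_lit 3) (.e (nat_lit 204846) (nat_lit 24) (.e (nat_lit 319533) (nat_lit 16) (.e (nat_lit 286734) (nat_lit 3) (.e (nat_lit 106240) (nat_lit 26) .nil))))) (.g (nat_lit 0) (.e (nat_lit 301744) (nat_lit 0) .nil) .nil))))) (.nd (nat_lit 8) (.nd (nat_lit 9) 
(.lf (nat_lit 552083) (.g (nat_lit 901) (.e (nat_lit 426124) (nat_lit 2) (.e (nat_lit 196656) (nat_lit 11) (.e (nat_lit 16396) (nat_lit 0) .nil))) (.g (nat_lit 0) (.e (nat_lit 299320) (nat_lit 0) .nil) .nil))) 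
(.lf (nat_lit 552595) (.g (nat_lit 2480) (.e (nat_lit 426125) (nat_lit 2) (.e (nat_lit 196666) (nat_lit 13) (.e (nat_lit 65617) (nat_lit 10) (.e (nat_lit 344133) (nat_lit 26) (.e (nat_lit 557091) (nat_lit 12) (.e (nat_lit 163843) (nat_lit 0) (.e (nat_lit 6421) (nat_lit 341) (.e (nat_lit 171776) (nat_lit 12) .nil)))))))) (.g (nat_lit 1) (.e (nat_lit 301466) (nat_lit 0) .nil) .nil)))) 
(.nd (nat_lit 9) 
(.lf (nat_lit 552339) (.g (nat_lit 2441) (.e (nat_lit 426125) (nat_lit 2) (.e (nat_lit 196666) (nat_lit 13) (.e (nat_lit 65617) (nat_lit 10) (.e (nat_lit 344127) (nat_lit 26) (.e (nat_lit 557089) (nat_lit 12) (.e (nat_lit 164020) (nat_lit 45) (.e (nat_lit 696330) (nat_lit 5) (.e (nat_lit 2884) (nat_lit 184) .nil)))))))) (.g (nat_lit 1) (.e (nat_lit 301075) (nat_lit 0) .nil) .nil))) 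
(.lf (nat_lit 552851) (.g (nat_lit 2662) (.e (nat_lit 426130) (nat_lit 3) (.e (nat_lit 204846) (nat_lit 24) (.e (nat_lit 319531) (nat_lit 16) (.e (nat_lit 286735) (nat_lit 3) (.e (nat_lit 98363) (nat_lit 26) .nil))))) (.g (nat_lit 0) (.e (nat_lit 302006) (nat_lit 0) .nil) .nil)))))) (.nd (nat_lit 7) (.nd (nat_lit 8) (.nd (nat_lit 9) 
(.lf (nat_lit 552019) (.g (nat_lit 3843) (.e (nat_lit 426123) (nat_lit 2) (.e (nat_lit 196666) (nat_lit 13) (.e (nat_lit 65617) (nat_lit 10) (.e (nat_lit 344132) (nat_lit 26) (.e (nat_lit 557094) (nat_lit 12) (.e (nat_lit 164022) (nat_lit 46) (.e (nat_lit 704629) (nat_lit 9) (.e (nat_lit 391) (nat_lit 32) .nil)))))))) (.g (nat_lit 1) (.e (nat_lit 299195) (nat_lit 0) .nil) .nil))) 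
(.lf (nat_lit 552531) (.g (nat_lit 3633) (.e (nat_lit 426125) (nat_lit 2) (.e (nat_lit 196666) (nat_lit 13) (.e (nat_lit 65617) (nat_lit 10) (.e (nat_lit 344132) (nat_lit 26) (.e (nat_lit 557094) (nat_lit 12) (.e (nat_lit 163847) (nat_lit 0) (.e (nat_lit 6421) (nat_lit 341) (.e (nat_lit 163909) (nat_lit 12) .nil)))))))) (.g (nat_lit 1) (.e (nat_lit 301361) (nat_lit 0) .nil) .nil)))) 
(.nd (nat_lit 9) 
(.lf (nat_lit 552275) (.g (nat_lit 3866) (.e (nat_lit 426125) (nat_lit 2) (.e (nat_lit 196666) (nat_lit 13) (.e (nat_lit 65610) (nat_lit 10) (.e (nat_lit 344129) (nat_lit 26) (.e (nat_lit 557090) (nat_lit 12) (.e (nat_lit 164019) (nat_lit 45) (.e (nat_lit 696326) (nat_lit 5) (.e (nat_lit 2876) (nat_lit 184) .nil)))))))) (.g (nat_lit 1) (.e (nat_lit 300987) (nat_lit 0) .nil) .nil))) 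
(.lf (nat_lit 552787) (.g (nat_lit 4565) (.e (nat_lit 426129) (nat_lit 3) (.e (nat_lit 204869) (nat_lit 29) (.e (nat_lit 360474) (nat_lit 8) (.e (nat_lit 557089) (nat_lit 12) (.e (nat_lit 163850) (nat_lit 0) .nil))))) (.g (nat_lit 0) (.e (nat_lit 301894) (nat_lit 0) .nil) .nil))))) (.nd (nat_lit 8) (.nd (nat_lit 9) 
(.lf (nat_lit 552147) (.g (nat_lit 5820) (.e (nat_lit 426125) (nat_lit 2) (.e (nat_lit 196666) (nat_lit 13) (.e (nat_lit 65610) (nat_lit 10) (.e (nat_lit 344128) (nat_lit 26) (.e (nat_lit 557091) (nat_lit 12) (.e (nat_lit 164022) (nat_lit 46) (.e (nat_lit 704629) (nat_lit 9) (.e (nat_lit 375) (nat_lit 32) .nil)))))))) (.g (nat_lit 1) (.e (nat_lit 300644) (nat_lit 0) .nil) .nil))) 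
(.lf (nat_lit 552659) (.g (nat_lit 3690) (.e (nat_lit 426125) (nat_lit 2) (.e (nat_lit 196666) (nat_lit 13) (.e (nat_lit 65624) (nat_lit 12) (.e (nat_lit 385068) (nat_lit 26) (.e (nat_lit 532513) (nat_lit 3) (.e (nat_lit 122624) (nat_lit 11) .nil)))))) (.g (nat_lit 1) (.e (nat_lit 301574) (nat_lit 0) .nil) .nil)))) (.nd (nat_lit 9) 
(.lf (nat_lit 552403) (.g (nat_lit 2543) (.e (nat_lit 426125) (nat_lit 2) (.e (nat_lit 196666) (nat_lit 13) (.e (nat_lit 65617) (nat_lit 10) (.e (nat_lit 344130) (nat_lit 26) (.e (nat_lit 557090) (nat_lit 12) (.e (nat_lit 163840) (nat_lit 0) (.e (nat_lit 6421) (nat_lit 341) (.e (nat_lit 163900) (nat_lit 12) .nil)))))))) (.g (nat_lit 1) (.e (nat_lit 301169) (nat_lit 0) .nil) .nil))) 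
(.lf (nat_lit 552915) (.g (nat_lit 560) (.e (nat_lit 426131) (nat_lit 3) (.e (nat_lit 204831) (nat_lit 18) (.e (nat_lit 57665) (nat_lit 152) .nil))) (.g (nat_lit 0) (.e (nat_lit 302107) (nat_lit 0) .nil) .nil))))))) (.nd (nat_lit 6) (.nd (nat_lit 7) (.nd (nat_lit 8) (.nd (nat_lit 9) 
(.lf (nat_lit 551987) (.g (nat_lit 4513) (.e (nat_lit 426123) (nat_lit 2) (.e (nat_lit 196666) (nat_lit 13) (.e (nat_lit 65617) (nat_lit 10) (.e (nat_lit 344132) (nat_lit 26) (.e (nat_lit 557093) (nat_lit 12) (.e (nat_lit 164022) (nat_lit 46) (.e (nat_lit 704628) (nat_lit 9) (.e (nat_lit 440) (nat_lit 32) .nil)))))))) (.g (nat_lit 1) (.e (nat_lit 299132) (nat_lit 0) .nil) .nil))) 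
(.lf (nat_lit 552499) (.g (nat_lit 2959) (.e (nat_lit 426125) (nat_lit 2) (.e (nat_lit 196666) (nat_lit 13) (.e (nat_lit 65617) (nat_lit 10) (.e (nat_lit 344132) (nat_lit 26) (.e (nat_lit 557093) (nat_lit 12) (.e (nat_lit 163847) (nat_lit 0) (.e (nat_lit 6418) (nat_lit 341) (.e (nat_lit 163900) (nat_lit 12) .nil)))))))) (.g (nat_lit 1) (.e (nat_lit 301318) (nat_lit 0) .nil) .nil)))) 
(.nd (nat_lit 9) 
(.lf (nat_lit 552243) (.g (nat_lit 3590) (.e (nat_lit 426125) (nat_lit 2) (.e (nat_lit 196666) (nat_lit 13) (.e (nat_lit 65610) (nat_lit 10) (.e (nat_lit 344129) (nat_lit 26) (.e (nat_lit 557090) (nat_lit 12) (.e (nat_lit 163849) (nat_lit 0) (.e (nat_lit 6420) (nat_lit 341) (.e (nat_lit 163900) (nat_lit 12) .nil)))))))) (.g (nat_lit 1) (.e (nat_lit 300941) (nat_lit 0) .nil) .nil))) 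
(.lf (nat_lit 552755) (.g (nat_lit 1903) (.e (nat_lit 426129) (nat_lit 3) (.e (nat_lit 204861) (nat_lit 26) (.e (nat_lit 336076) (nat_lit 9) (.e (nat_lit 336324) (nat_lit 18) (.e (nat_lit 204837) (nat_lit 20) .nil))))) (.g (nat_lit 0) (.e (nat_lit 301851) (nat_lit 0) .nil) .nil))))) (.nd (nat_lit 8) (.nd (nat_lit 9) 
(.lf (nat_lit 552115) (.g (nat_lit 898) (.e (nat_lit 426125) (nat_lit 2) (.e (nat_lit 196656) (nat_lit 11) (.e (nat_lit 16392) (nat_lit 0) .nil))) (.g (nat_lit 0) (.e (nat_lit 299574) (nat_lit 0) .nil) .nil))) 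
(.lf (nat_lit 552627) (.g (nat_lit 3729) (.e (nat_lit 426125) (nat_lit 2) (.e (nat_lit 196666) (nat_lit 13) (.e (nat_lit 65617) (nat_lit 10) (.e (nat_lit 344133) (nat_lit 26) (.e (nat_lit 557091) (nat_lit 12) (.e (nat_lit 164022) (nat_lit 46) (.e (nat_lit 704626) (nat_lit 9) (.e (nat_lit 370) (nat_lit 32) .nil)))))))) (.g (nat_lit 1) (.e (nat_lit 301529) (nat_lit 0) .nil) .nil)))) 
(.nd (nat_lit 9) 
(.lf (nat_lit 552371) (.g (nat_lit 3889) (.e (nat_lit 426125) (nat_lit 2) (.e (nat_lit 196666) (nat_lit 13) (.e (nat_lit 65617) (nat_lit 10) (.e (nat_lit 344127) (nat_lit 26) (.e (nat_lit 557090) (nat_lit 12) (.e (nat_lit 164020) (nat_lit 45) (.e (nat_lit 696330) (nat_lit 5) (.e (nat_lit 2879) (nat_lit 184) .nil)))))))) (.g (nat_lit 1) (.e (nat_lit 301123) (nat_lit 0) .nil) .nil))) 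
(.lf (nat_lit 552883) (.g (nat_lit 638) (.e (nat_lit 426131) (nat_lit 3) (.e (nat_lit 204829) (nat_lit 18) (.e (nat_lit 57657) (nat_lit 152) .nil))) (.g (nat_lit 0) (.e (nat_lit 302047) (nat_lit 0) .nil) .nil)))))) (.nd (nat_lit 7) (.nd (nat_lit 8) (.nd (nat_lit 9) 
(.lf (nat_lit 552051) (.g (nat_lit 4887) (.e (nat_lit 426123) (nat_lit 2) (.e (nat_lit 196666) (nat_lit 13) (.e (nat_lit 65617) (nat_lit 10) (.e (nat_lit 344133) (nat_lit 26) (.e (nat_lit 557091) (nat_lit 12) (.e (nat_lit 164022) (nat_lit 46) (.e (nat_lit 704628) (nat_lit 9) (.e (nat_lit 440) (nat_lit 32) .nil)))))))) (.g (nat_lit 1) (.e (nat_lit 299233) (nat_lit 0) .nil) .nil))) 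
(.lf (nat_lit 552563) (.g (nat_lit 3773) (.e (nat_lit 426125) (nat_lit 2) (.e (nat_lit 196666) (nat_lit 13) (.e (nat_lit 65617) (nat_lit 10) (.e (nat_lit 344133) (nat_lit 26) (.e (nat_lit 557089) (nat_lit 12) (.e (nat_lit 163849) (nat_lit 0) (.e (nat_lit 6421) (nat_lit 341) (.e (nat_lit 163909) (nat_lit 12) .nil)))))))) (.g (nat_lit 1) (.e (nat_lit 301413) (nat_lit 0) .nil) .nil)))) 
(.nd (nat_lit 9) 
(.lf (nat_lit 552307) (.g (nat_lit 1771) (.e (nat_lit 426125) (nat_lit 2) (.e (nat_lit 196666) (nat_lit 13) (.e (nat_lit 65610) (nat_lit 10) (.e (nat_lit 344131) (nat_lit 26) .nil)))) (.g (nat_lit 0) (.e (nat_lit 301041) (nat_lit 0) .nil) .nil))) 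
(.lf (nat_lit 552819) (.g (nat_lit 3221) (.e (nat_lit 426129) (nat_lit 3) (.e (nat_lit 204869) (nat_lit 29) (.e (nat_lit 360475) (nat_lit 8) (.e (nat_lit 557089) (nat_lit 12) (.e (nat_lit 171776) (nat_lit 48) .nil))))) (.g (nat_lit 0) (.e (nat_lit 301929) (nat_lit 0) .nil) .nil))))) (.nd (nat_lit 8) (.nd (nat_lit 9) 
(.lf (nat_lit 552179) (.g (nat_lit 4371) (.e (nat_lit 426125) (nat_lit 2) (.e (nat_lit 196666) (nat_lit 13) (.e (nat_lit 65610) (nat_lit 10) (.e (nat_lit 344129) (nat_lit 26) (.e (nat_lit 557089) (nat_lit 12) (.e (nat_lit 163849) (nat_lit 0) (.e (nat_lit 6420) (nat_lit 341) (.e (nat_lit 163900) (nat_lit 12) .nil)))))))) (.g (nat_lit 1) (.e (nat_lit 300781) (nat_lit 0) .nil) .nil))) 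
(.lf (nat_lit 552691) (.g (nat_lit 1996) (.e (nat_lit 426129) (nat_lit 3) (.e (nat_lit 204831) (nat_lit 18) (.e (nat_lit 57692) (nat_lit 156) (.e (nat_lit 163907) (nat_lit 12) (.e (nat_lit 426566) (nat_lit 34) (.e (nat_lit 393279) (nat_lit 23) .nil)))))) (.g (nat_lit 1) (.e (nat_lit 301683) (nat_lit 0) .nil) .nil)))) (.nd (nat_lit 9) 
(.lf (nat_lit 552435) (.g (nat_lit 3875) (.e (nat_lit 426125) (nat_lit 2) (.e (nat_lit 196666) (nat_lit 13) (.e (nat_lit 65617) (nat_lit 10) (.e (nat_lit 344130) (nat_lit 26) (.e (nat_lit 557090) (nat_lit 12) (.e (nat_lit 164016) (nat_lit 44) (.e (nat_lit 688140) (nat_lit 5) (.e (nat_lit 2883) (nat_lit 184) .nil)))))))) (.g (nat_lit 1) (.e (nat_lit 301238) (nat_lit 0) .nil) .nil))) 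
(.lf (nat_lit 552947) (.g (nat_lit 2612) (.e (nat_lit 426131) (nat_lit 3) (.e (nat_lit 204846) (nat_lit 24) (.e (nat_lit 319531) (nat_lit 16) (.e (nat_lit 286735) (nat_lit 3) (.e (nat_lit 98325) (nat_lit 17) .nil))))) (.g (nat_lit 0) (.e (nat_lit 302149) (nat_lit 0) .nil) .nil))))))))) (.nd (nat_lit 4) (.nd (nat_lit 5) (.nd (nat_lit 6) (.nd (nat_lit 7) (.nd (nat_lit 8) (.nd (nat_lit 9) 
(.lf (nat_lit 551947) (.g (nat_lit 3050) (.e (nat_lit 426123) (nat_lit 2) (.e (nat_lit 196666) (nat_lit 13) (.e (nat_lit 65617) (nat_lit 10) (.e (nat_lit 344130) (nat_lit 26) (.e (nat_lit 557090) (nat_lit 12) (.e (nat_lit 163844) (nat_lit 0) (.e (nat_lit 6420) (nat_lit 341) (.e (nat_lit 171776) (nat_lit 12) .nil)))))))) (.g (nat_lit 1) (.e (nat_lit 299085) (nat_lit 0) .nil) .nil))) 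
(.lf (nat_lit 552459) (.g (nat_lit 4534) (.e (nat_lit 426125) (nat_lit 2) (.e (nat_lit 196666) (nat_lit 13) (.e (nat_lit 65617) (nat_lit 10) (.e (nat_lit 344130) (nat_lit 26) (.e (nat_lit 557090) (nat_lit 12) (.e (nat_lit 164022) (nat_lit 46) (.e (nat_lit 704628) (nat_lit 9) (.e (nat_lit 414) (nat_lit 32) .nil)))))))) (.g (nat_lit 1) (.e (nat_lit 301271) (nat_lit 0) .nil) .nil)))) 
(.nd (nat_lit 9) 
(.lf (nat_lit 552203) (.g (nat_lit 4738) (.e (nat_lit 426125) (nat_lit 2) (.e (nat_lit 196666) (nat_lit 13) (.e (nat_lit 65610) (nat_lit 10) (.e (nat_lit 344129) (nat_lit 26) (.e (nat_lit 557089) (nat_lit 12) (.e (nat_lit 164020) (nat_lit 45) (.e (nat_lit 696330) (nat_lit 5) (.e (nat_lit 2878) (nat_lit 184) .nil)))))))) (.g (nat_lit 1) (.e (nat_lit 300809) (nat_lit 0) .nil) .nil))) 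
(.lf (nat_lit 552715) (.g (nat_lit 1493) (.e (nat_lit 426129) (nat_lit 3) (.e (nat_lit 204846) (nat_lit 24) (.e (nat_lit 319532) (nat_lit 16) (.e (nat_lit 286735) (nat_lit 3) .nil)))) (.g (nat_lit 0) (.e (nat_lit 301728) (nat_lit 0) .nil) .nil))))) (.nd (nat_lit 8) (.nd (nat_lit 9) 
(.lf (nat_lit 552075) (.g (nat_lit 895) (.e (nat_lit 426123) (nat_lit 2) (.e (nat_lit 196674) (nat_lit 15) (.e (nat_lit 81922) (nat_lit 0) (.e (nat_lit 3253) (nat_lit 197) .nil)))) (.g (nat_lit 0) (.e (nat_lit 299275) (nat_lit 0) .nil) .nil))) 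
(.lf (nat_lit 552587) (.g (nat_lit 3041) (.e (nat_lit 426125) (nat_lit 2) (.e (nat_lit 196666) (nat_lit 13) (.e (nat_lit 65617) (nat_lit 10) (.e (nat_lit 344133) (nat_lit 26) (.e (nat_lit 557091) (nat_lit 12) (.e (nat_lit 163840) (nat_lit 0) (.e (nat_lit 6428) (nat_lit 342) (.e (nat_lit 229399) (nat_lit 12) .nil)))))))) (.g (nat_lit 1) (.e (nat_lit 301441) (nat_lit 0) .nil) .nil)))) 
(.nd (nat_lit 9) 
(.lf (nat_lit 552331) (.g (nat_lit 2101) (.e (nat_lit 426125) (nat_lit 2) (.e (nat_lit 196666) (nat_lit 13) (.e (nat_lit 65617) (nat_lit 10) (.e (nat_lit 344127) (nat_lit 26) (.e (nat_lit 557089) (nat_lit 12) (.e (nat_lit 163843) (nat_lit 0) (.e (nat_lit 6421) (nat_lit 341) (.e (nat_lit 163900) (nat_lit 12) .nil)))))))) (.g (nat_lit 1) (.e (nat_lit 301067) (nat_lit 0) .nil) .nil))) 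
(.lf (nat_lit 552843) (.g (nat_lit 1532) (.e (nat_lit 426129) (nat_lit 3) (.e (nat_lit 204885) (nat_lit 33) (.e (nat_lit 401448) (nat_lit 10) (.e (nat_lit 434221) (nat_lit 19) .nil)))) (.g (nat_lit 0) (.e (nat_lit 301997) (nat_lit 0) .nil) .nil)))))) (.nd (nat_lit 7) (.nd (nat_lit 8) (.nd (nat_lit 9) 
(.lf (nat_lit 552011) (.g (nat_lit 3396) (.e (nat_lit 426123) (nat_lit 2) (.e (nat_lit 196666) (nat_lit 13) (.e (nat_lit 65617) (nat_lit 10) (.e (nat_lit 344132) (nat_lit 26) (.e (nat_lit 557094) (nat_lit 12) (.e (nat_lit 164022) (nat_lit 46) (.e (nat_lit 704626) (nat_lit 9) (.e (nat_lit 440) (nat_lit 32) .nil)))))))) (.g (nat_lit 1) (.e (nat_lit 299187) (nat_lit 0) .nil) .nil))) 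
(.lf (nat_lit 552523) (.g (nat_lit 3452) (.e (nat_lit 426125) (nat_lit 2) (.e (nat_lit 196666) (nat_lit 13) (.e (nat_lit 65617) (nat_lit 10) (.e (nat_lit 344132) (nat_lit 26) (.e (nat_lit 557093) (nat_lit 12) (.e (nat_lit 164023) (nat_lit 46) (.e (nat_lit 704629) (nat_lit 9) (.e (nat_lit 370) (nat_lit 32) .nil)))))))) (.g (nat_lit 1) (.e (nat_lit 301352) (nat_lit 0) .nil) .nil)))) 
(.nd (nat_lit 9) 
(.lf (nat_lit 552267) (.g (nat_lit 2958) (.e (nat_lit 426125) (nat_lit 2) (.e (nat_lit 196666) (nat_lit 13) (.e (nat_lit 65610) (nat_lit 10) (.e (nat_lit 344129) (nat_lit 26) (.e (nat_lit 557090) (nat_lit 12) (.e (nat_lit 164018) (nat_lit 45) (.e (nat_lit 696327) (nat_lit 5) (.e (nat_lit 2879) (nat_lit 184) .nil)))))))) (.g (nat_lit 1) (.e (nat_lit 300979) (nat_lit 0) .nil) .nil))) 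
(.lf (nat_lit 552779) (.g (nat_lit 3257) (.e (nat_lit 426129) (nat_lit 3) (.e (nat_lit 204868) (nat_lit 29) (.e (nat_lit 360475) (nat_lit 8) (.e (nat_lit 557091) (nat_lit 12) (.e (nat_lit 164022) (nat_lit 46) .nil))))) (.g (nat_lit 0) (.e (nat_lit 301885) (nat_lit 0) .nil) .nil))))) (.nd (nat_lit 8) (.nd (nat_lit 9) 
(.lf (nat_lit 552139) (.g (nat_lit 5094) (.e (nat_lit 426125) (nat_lit 2) (.e (nat_lit 196666) (nat_lit 13) (.e (nat_lit 65610) (nat_lit 10) (.e (nat_lit 344117) (nat_lit 21) (.e (nat_lit 524032) (nat_lit 18) (.e (nat_lit 57691) (nat_lit 156) (.e (nat_lit 163912) (nat_lit 12) .nil))))))) (.g (nat_lit 1) (.e (nat_lit 300634) (nat_lit 0) .nil) .nil))) 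
(.lf (nat_lit 552651) (.g (nat_lit 2535) (.e (nat_lit 426125) (nat_lit 2) (.e (nat_lit 196666) (nat_lit 13) (.e (nat_lit 65622) (nat_lit 12) (.e (nat_lit 385066) (nat_lit 26) (.e (nat_lit 532515) (nat_lit 3) (.e (nat_lit 122624) (nat_lit 11) .nil)))))) (.g (nat_lit 1) (.e (nat_lit 301558) (nat_lit 0) .nil) .nil)))) (.nd (nat_lit 9) 
(.lf (nat_lit 552395) (.g (nat_lit 3578) (.e (nat_lit 426125) (nat_lit 2) (.e (nat_lit 196666) (nat_lit 13) (.e (nat_lit 65617) (nat_lit 10) (.e (nat_lit 344130) (nat_lit 26) (.e (nat_lit 557089) (nat_lit 12) (.e (nat_lit 164020) (nat_lit 45) (.e (nat_lit 696327) (nat_lit 5) (.e (nat_lit 2878) (nat_lit 184) .nil)))))))) (.g (nat_lit 1) (.e (nat_lit 301159) (nat_lit 0) .nil) .nil))) 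
(.lf (nat_lit 552907) (.g (nat_lit 2341) (.e (nat_lit 426131) (nat_lit 3) (.e (nat_lit 204830) (nat_lit 18) (.e (nat_lit 57651) (nat_lit 152) (.e (nat_lit 2619) (nat_lit 164) (.e (nat_lit 179968) (nat_lit 34) (.e (nat_lit 393272) (nat_lit 23) .nil)))))) (.g (nat_lit 1) (.e (nat_lit 302087) (nat_lit 0) .nil) .nil))))))) (.nd (nat_lit 6) (.nd (nat_lit 7) (.nd (nat_lit 8) (.nd (nat_lit 9) 
(.lf (nat_lit 551979) (.g (nat_lit 4316) (.e (nat_lit 426123) (nat_lit 2) (.e (nat_lit 196666) (nat_lit 13) (.e (nat_lit 65617) (nat_lit 10) (.e (nat_lit 344132) (nat_lit 26) (.e (nat_lit 557093) (nat_lit 12) (.e (nat_lit 164022) (nat_lit 46) (.e (nat_lit 704626) (nat_lit 9) (.e (nat_lit 435) (nat_lit 32) .nil)))))))) (.g (nat_lit 1) (.e (nat_lit 299124) (nat_lit 0) .nil) .nil))) 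
(.lf (nat_lit 552491) (.g (nat_lit 5270) (.e (nat_lit 426125) (nat_lit 2) (.e (nat_lit 196666) (nat_lit 13) (.e (nat_lit 65617) (nat_lit 10) (.e (nat_lit 344132) (nat_lit 26) (.e (nat_lit 557091) (nat_lit 12) (.e (nat_lit 164020) (nat_lit 45) (.e (nat_lit 696330) (nat_lit 5) (.e (nat_lit 2878) (nat_lit 184) .nil)))))))) (.g (nat_lit 1) (.e (nat_lit 301309) (nat_lit 0) .nil) .nil)))) 
(.nd (nat_lit 9) 
(.lf (nat_lit 552235) (.g (nat_lit 4284) (.e (nat_lit 426125) (nat_lit 2) (.e (nat_lit 196666) (nat_lit 13) (.e (nat_lit 65610) (nat_lit 10) (.e (nat_lit 344129) (nat_lit 26) (.e (nat_lit 557090) (nat_lit 12) (.e (nat_lit 163847) (nat_lit 0) (.e (nat_lit 6416) (nat_lit 341) (.e (nat_lit 163909) (nat_lit 12) .nil)))))))) (.g (nat_lit 1) (.e (nat_lit 300921) (nat_lit 0) .nil) .nil))) 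
(.lf (nat_lit 552747) (.g (nat_lit 2666) (.e (nat_lit 426129) (nat_lit 3) (.e (nat_lit 204852) (nat_lit 26) (.e (nat_lit 343808) (nat_lit 9) (.e (nat_lit 336324) (nat_lit 18) (.e (nat_lit 204837) (nat_lit 20) (.e (nat_lit 114696) (nat_lit 11) .nil)))))) (.g (nat_lit 1) (.e (nat_lit 301784) (nat_lit 0) .nil) .nil))))) (.nd (nat_lit 8) (.nd (nat_lit 9) 
(.lf (nat_lit 552107) (.g (nat_lit 2806) (.e (nat_lit 426124) (nat_lit 2) (.e (nat_lit 196681) (nat_lit 17) (.e (nat_lit 131109) (nat_lit 9) (.e (nat_lit 336324) (nat_lit 18) (.e (nat_lit 204838) (nat_lit 20) (.e (nat_lit 122624) (nat_lit 11) .nil)))))) (.g (nat_lit 1) (.e (nat_lit 299490) (nat_lit 0) .nil) .nil))) 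
(.lf (nat_lit 552619) (.g (nat_lit 2329) (.e (nat_lit 426125) (nat_lit 2) (.e (nat_lit 196666) (nat_lit 13) (.e (nat_lit 65617) (nat_lit 10) (.e (nat_lit 344133) (nat_lit 26) (.e (nat_lit 557091) (nat_lit 12) (.e (nat_lit 164019) (nat_lit 45) (.e (nat_lit 696328) (nat_lit 5) (.e (nat_lit 2884) (nat_lit 184) .nil)))))))) (.g (nat_lit 1) (.e (nat_lit 301513) (nat_lit 0) .nil) .nil)))) 
(.nd (nat_lit 9) 
(.lf (nat_lit 552363) (.g (nat_lit 3328) (.e (nat_lit 426125) (nat_lit 2) (.e (nat_lit 196666) (nat_lit 13) (.e (nat_lit 65617) (nat_lit 10) (.e (nat_lit 344127) (nat_lit 26) (.e (nat_lit 557090) (nat_lit 12) (.e (nat_lit 164018) (nat_lit 45) (.e (nat_lit 696329) (nat_lit 5) (.e (nat_lit 2884) (nat_lit 184) .nil)))))))) (.g (nat_lit 1) (.e (nat_lit 301115) (nat_lit 0) .nil) .nil))) 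
(.lf (nat_lit 552875) (.g (nat_lit 4487) (.e (nat_lit 426130) (nat_lit 3) (.e (nat_lit 204869) (nat_lit 29) (.e (nat_lit 360475) (nat_lit 8) (.e (nat_lit 557091) (nat_lit 12) (.e (nat_lit 163843) (nat_lit 0) .nil))))) (.g (nat_lit 0) (.e (nat_lit 302032) (nat_lit 0) .nil) .nil)))))) (.nd (nat_lit 7) (.nd (nat_lit 8) (.nd (nat_lit 9) 
(.lf (nat_lit 552043) (.g (nat_lit 3492) (.e (nat_lit 426123) (nat_lit 2) (.e (nat_lit 196666) (nat_lit 13) (.e (nat_lit 65617) (nat_lit 10) (.e (nat_lit 344133) (nat_lit 26) (.e (nat_lit 557091) (nat_lit 12) (.e (nat_lit 164022) (nat_lit 46) (.e (nat_lit 704627) (nat_lit 9) (.e (nat_lit 398) (nat_lit 32) .nil)))))))) (.g (nat_lit 1) (.e (nat_lit 299225) (nat_lit 0) .nil) .nil))) 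
(.lf (nat_lit 552555) (.g (nat_lit 1992) (.e (nat_lit 426125) (nat_lit 2) (.e (nat_lit 196666) (nat_lit 13) (.e (nat_lit 65617) (nat_lit 10) (.e (nat_lit 344133) (nat_lit 26) (.e (nat_lit 557089) (nat_lit 12) .nil))))) (.g (nat_lit 0) (.e (nat_lit 301392) (nat_lit 0) .nil) .nil)))) (.nd (nat_lit 9) 
(.lf (nat_lit 552299) (.g (nat_lit 7440) (.e (nat_lit 426125) (nat_lit 2) (.e (nat_lit 196666) (nat_lit 13) (.e (nat_lit 65610) (nat_lit 10) (.e (nat_lit 344129) (nat_lit 26) (.e (nat_lit 557091) (nat_lit 12) (.e (nat_lit 164022) (nat_lit 46) (.e (nat_lit 704629) (nat_lit 9) (.e (nat_lit 375) (nat_lit 32) .nil)))))))) (.g (nat_lit 1) (.e (nat_lit 301032) (nat_lit 0) .nil) .nil))) 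
(.lf (nat_lit 552811) (.g (nat_lit 2766) (.e (nat_lit 426129) (nat_lit 3) (.e (nat_lit 204869) (nat_lit 29) (.e (nat_lit 360474) (nat_lit 8) (.e (nat_lit 557094) (nat_lit 12) (.e (nat_lit 171776) (nat_lit 49) (.e (nat_lit 729097) (nat_lit 11) .nil)))))) (.g (nat_lit 1) (.e (nat_lit 301918) (nat_lit 0) .nil) .nil))))) (.nd (nat_lit 8) (.nd (nat_lit 9) 
(.lf (nat_lit 552171) (.g (nat_lit 3429) (.e (nat_lit 426125) (nat_lit 2) (.e (nat_lit 196666) (nat_lit 13) (.e (nat_lit 65610) (nat_lit 10) (.e (nat_lit 344129) (nat_lit 26) (.e (nat_lit 557089) (nat_lit 12) (.e (nat_lit 163844) (nat_lit 0) (.e (nat_lit 6420) (nat_lit 341) (.e (nat_lit 163909) (nat_lit 12) .nil)))))))) (.g (nat_lit 1) (.e (nat_lit 300750) (nat_lit 0) .nil) .nil))) 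
(.lf (nat_lit 552683) (.g (nat_lit 730) (.e (nat_lit 426129) (nat_lit 3) (.e (nat_lit 204831) (nat_lit 18) (.e (nat_lit 57665) (nat_lit 152) .nil))) (.g (nat_lit 0) (.e (nat_lit 301665) (nat_lit 0) .nil) .nil)))) (.nd (nat_lit 9) 
(.lf (nat_lit 552427) (.g (nat_lit 3477) (.e (nat_lit 426125) (nat_lit 2) (.e (nat_lit 196666) (nat_lit 13) (.e (nat_lit 65617) (nat_lit 10) (.e (nat_lit 344130) (nat_lit 26) (.e (nat_lit 557090) (nat_lit 12) (.e (nat_lit 163849) (nat_lit 0) (.e (nat_lit 6420) (nat_lit 341) (.e (nat_lit 163900) (nat_lit 12) .nil)))))))) (.g (nat_lit 1) (.e (nat_lit 301228) (nat_lit 0) .nil) .nil))) 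
(.lf (nat_lit 552939) (.g (nat_lit 2653) (.e (nat_lit 426131) (nat_lit 3) (.e (nat_lit 204846) (nat_lit 24) (.e (nat_lit 319529) (nat_lit 16) (.e (nat_lit 286733) (nat_lit 2) (.e (nat_lit 90185) (nat_lit 17) (.e (nat_lit 237605) (nat_lit 9) .nil)))))) (.g (nat_lit 1) (.e (nat_lit 302140) (nat_lit 0) .nil) .nil)))))))) 
(.nd (nat_lit 5) (.nd (nat_lit 6) (.nd (nat_lit 7) (.nd (nat_lit 8) (.nd (nat_lit 9) 
(.lf (nat_lit 551963) (.g (nat_lit 4632) (.e (nat_lit 426123) (nat_lit 2) (.e (nat_lit 196666) (nat_lit 13) (.e (nat_lit 65617) (nat_lit 10) (.e (nat_lit 344130) (nat_lit 26) (.e (nat_lit 557090) (nat_lit 12) (.e (nat_lit 164022) (nat_lit 46) (.e (nat_lit 704628) (nat_lit 9) (.e (nat_lit 436) (nat_lit 32) .nil)))))))) (.g (nat_lit 1) (.e (nat_lit 299105) (nat_lit 0) .nil) .nil))) 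
(.lf (nat_lit 552475) (.g (nat_lit 3069) (.e (nat_lit 426125) (nat_lit 2) (.e (nat_lit 196666) (nat_lit 13) (.e (nat_lit 65617) (nat_lit 10) (.e (nat_lit 344132) (nat_lit 26) (.e (nat_lit 557089) (nat_lit 12) (.e (nat_lit 164020) (nat_lit 45) (.e (nat_lit 696329) (nat_lit 5) (.e (nat_lit 2884) (nat_lit 184) .nil)))))))) (.g (nat_lit 1) (.e (nat_lit 301293) (nat_lit 0) .nil) .nil)))) 
(.nd (nat_lit 9) 
(.lf (nat_lit 552219) (.g (nat_lit 1855) (.e (nat_lit 426125) (nat_lit 2) (.e (nat_lit 196666) (nat_lit 13) (.e (nat_lit 65610) (nat_lit 10) (.e (nat_lit 344129) (nat_lit 26) (.e (nat_lit 557090) (nat_lit 12) (.e (nat_lit 163840) (nat_lit 0) (.e (nat_lit 6430) (nat_lit 342) (.e (nat_lit 229399) (nat_lit 12) .nil)))))))) (.g (nat_lit 1) (.e (nat_lit 300833) (nat_lit 0) .nil) .nil))) 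
(.lf (nat_lit 552731) (.g (nat_lit 407) (.e (nat_lit 426129) (nat_lit 3) (.e (nat_lit 204846) (nat_lit 24) (.e (nat_lit 319534) (nat_lit 16) .nil))) (.g (nat_lit 0) (.e (nat_lit 301752) (nat_lit 0) .nil) .nil))))) (.nd (nat_lit 8) (.nd (nat_lit 9) 
(.lf (nat_lit 552091) (.g (nat_lit 516) (.e (nat_lit 426124) (nat_lit 2) (.e (nat_lit 196674) (nat_lit 15) (.e (nat_lit 81923) (nat_lit 0) .nil))) (.g (nat_lit 0) (.e (nat_lit 299444) (nat_lit 0) .nil) .nil))) 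
(.lf (nat_lit 552603) (.g (nat_lit 3695) (.e (nat_lit 426125) (nat_lit 2) (.e (nat_lit 196666) (nat_lit 13) (.e (nat_lit 65617) (nat_lit 10) (.e (nat_lit 344133) (nat_lit 26) (.e (nat_lit 557091) (nat_lit 12) (.e (nat_lit 163849) (nat_lit 0) (.e (nat_lit 6421) (nat_lit 341) (.e (nat_lit 163909) (nat_lit 12) .nil)))))))) (.g (nat_lit 1) (.e (nat_lit 301490) (nat_lit 0) .nil) .nil)))) 
(.nd (nat_lit 9) 
(.lf (nat_lit 552347) (.g (nat_lit 4446) (.e (nat_lit 426125) (nat_lit 2) (.e (nat_lit 196666) (nat_lit 13) (.e (nat_lit 65617) (nat_lit 10) (.e (nat_lit 344127) (nat_lit 26) (.e (nat_lit 557090) (nat_lit 12) (.e (nat_lit 163844) (nat_lit 0) (.e (nat_lit 6420) (nat_lit 341) (.e (nat_lit 163909) (nat_lit 12) .nil)))))))) (.g (nat_lit 1) (.e (nat_lit 301096) (nat_lit 0) .nil) .nil))) 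
(.lf (nat_lit 552859) (.g (nat_lit 2692) (.e (nat_lit 426130) (nat_lit 3) (.e (nat_lit 204868) (nat_lit 29) (.e (nat_lit 360473) (nat_lit 8) (.e (nat_lit 557091) (nat_lit 12) (.e (nat_lit 163849) (nat_lit 0) .nil))))) (.g (nat_lit 0) (.e (nat_lit 302016) (nat_lit 0) .nil) .nil)))))) (.nd (nat_lit 7) (.nd (nat_lit 8) (.nd (nat_lit 9) 
(.lf (nat_lit 552027) (.g (nat_lit 2237) (.e (nat_lit 426123) (nat_lit 2) (.e (nat_lit 196666) (nat_lit 13) (.e (nat_lit 65617) (nat_lit 10) (.e (nat_lit 344133) (nat_lit 26) (.e (nat_lit 557091) (nat_lit 12) .nil))))) (.g (nat_lit 0) (.e (nat_lit 299204) (nat_lit 0) .nil) .nil))) 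
(.lf (nat_lit 552539) (.g (nat_lit 3326) (.e (nat_lit 426125) (nat_lit 2) (.e (nat_lit 196666) (nat_lit 13) (.e (nat_lit 65617) (nat_lit 10) (.e (nat_lit 344132) (nat_lit 26) (.e (nat_lit 557094) (nat_lit 12) (.e (nat_lit 164016) (nat_lit 44) (.e (nat_lit 688140) (nat_lit 5) (.e (nat_lit 2883) (nat_lit 184) .nil)))))))) (.g (nat_lit 1) (.e (nat_lit 301373) (nat_lit 0) .nil) .nil)))) 
(.nd (nat_lit 9) 
(.lf (nat_lit 552283) (.g (nat_lit 4029) (.e (nat_lit 426125) (nat_lit 2) (.e (nat_lit 196666) (nat_lit 13) (.e (nat_lit 65610) (nat_lit 10) (.e (nat_lit 344129) (nat_lit 26) (.e (nat_lit 557090) (nat_lit 12) (.e (nat_lit 164020) (nat_lit 45) (.e (nat_lit 696327) (nat_lit 5) (.e (nat_lit 2873) (nat_lit 184) .nil)))))))) (.g (nat_lit 1) (.e (nat_lit 300995) (nat_lit 0) .nil) .nil))) 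
(.lf (nat_lit 552795) (.g (nat_lit 5128) (.e (nat_lit 426129) (nat_lit 3) (.e (nat_lit 204869) (nat_lit 29) (.e (nat_lit 360474) (nat_lit 8) (.e (nat_lit 557091) (nat_lit 12) (.e (nat_lit 164022) (nat_lit 46) .nil))))) (.g (nat_lit 0) (.e (nat_lit 301902) (nat_lit 0) .nil) .nil))))) (.nd (nat_lit 8) (.nd (nat_lit 9) 
(.lf (nat_lit 552155) (.g (nat_lit 1506) (.e (nat_lit 426125) (nat_lit 2) (.e (nat_lit 196666) (nat_lit 13) (.e (nat_lit 65610) (nat_lit 10) (.e (nat_lit 344129) (nat_lit 26) (.e (nat_lit 557074) (nat_lit 9) (.e (nat_lit 7936) (nat_lit 163) (.e (nat_lit 164190) (nat_lit 157) (.e (nat_lit 229399) (nat_lit 12) .nil)))))))) (.g (nat_lit 1) (.e (nat_lit 300679) (nat_lit 0) .nil) .nil))) 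
(.lf (nat_lit 552667) (.g (nat_lit 1384) (.e (nat_lit 426126) (nat_lit 2) (.e (nat_lit 196681) (nat_lit 17) (.e (nat_lit 131109) (nat_lit 9) (.e (nat_lit 336324) (nat_lit 18) .nil)))) (.g (nat_lit 0) (.e (nat_lit 301594) (nat_lit 0) .nil) .nil)))) (.nd (nat_lit 9) 
(.lf (nat_lit 552411) (.g (nat_lit 4643) (.e (nat_lit 426125) (nat_lit 2) (.e (nat_lit 196666) (nat_lit 13) (.e (nat_lit 65617) (nat_lit 10) (.e (nat_lit 344130) (nat_lit 26) (.e (nat_lit 557090) (nat_lit 12) (.e (nat_lit 163844) (nat_lit 0) (.e (nat_lit 6416) (nat_lit 341) (.e (nat_lit 163900) (nat_lit 12) .nil)))))))) (.g (nat_lit 1) (.e (nat_lit 301203) (nat_lit 0) .nil) .nil))) 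
(.lf (nat_lit 552923) (.g (nat_lit 1783) (.e (nat_lit 426131) (nat_lit 3) (.e (nat_lit 204831) (nat_lit 18) (.e (nat_lit 57692) (nat_lit 156) (.e (nat_lit 163907) (nat_lit 12) (.e (nat_lit 426481) (nat_lit 27) .nil))))) (.g (nat_lit 0) (.e (nat_lit 302121) (nat_lit 0) .nil) .nil))))))) (.nd (nat_lit 6) (.nd (nat_lit 7) (.nd (nat_lit 8) (.nd (nat_lit 9) 
(.lf (nat_lit 551995) (.g (nat_lit 4070) (.e (nat_lit 426123) (nat_lit 2) (.e (nat_lit 196666) (nat_lit 13) (.e (nat_lit 65617) (nat_lit 10) (.e (nat_lit 344132) (nat_lit 26) (.e (nat_lit 557093) (nat_lit 12) (.e (nat_lit 164023) (nat_lit 46) (.e (nat_lit 704626) (nat_lit 9) (.e (nat_lit 391) (nat_lit 32) .nil)))))))) (.g (nat_lit 1) (.e (nat_lit 299142) (nat_lit 0) .nil) .nil))) 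
(.lf (nat_lit 552507) (.g (nat_lit 3558) (.e (nat_lit 426125) (nat_lit 2) (.e (nat_lit 196666) (nat_lit 13) (.e (nat_lit 65617) (nat_lit 10) (.e (nat_lit 344132) (nat_lit 26) (.e (nat_lit 557093) (nat_lit 12) (.e (nat_lit 164018) (nat_lit 45) (.e (nat_lit 696326) (nat_lit 5) (.e (nat_lit 2878) (nat_lit 184) .nil)))))))) (.g (nat_lit 1) (.e (nat_lit 301332) (nat_lit 0) .nil) .nil)))) 
(.nd (nat_lit 9) 
(.lf (nat_lit 552251) (.g (nat_lit 5130) (.e (nat_lit 426125) (nat_lit 2) (.e (nat_lit 196666) (nat_lit 13) (.e (nat_lit 65610) (nat_lit 10) (.e (nat_lit 344129) (nat_lit 26) (.e (nat_lit 557090) (nat_lit 12) (.e (nat_lit 163850) (nat_lit 0) (.e (nat_lit 6428) (nat_lit 342) (.e (nat_lit 229399) (nat_lit 12) .nil)))))))) (.g (nat_lit 1) (.e (nat_lit 300955) (nat_lit 0) .nil) .nil))) 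
(.lf (nat_lit 552763) (.g (nat_lit 367) (.e (nat_lit 426129) (nat_lit 3) (.e (nat_lit 204865) (nat_lit 28) (.e (nat_lit 360192) (nat_lit 3) .nil))) (.g (nat_lit 0) (.e (nat_lit 301862) (nat_lit 0) .nil) .nil))))) (.nd (nat_lit 8) (.nd (nat_lit 9) 
(.lf (nat_lit 552123) (.g (nat_lit 4406) (.e (nat_lit 426125) (nat_lit 2) (.e (nat_lit 196661) (nat_lit 12) (.e (nat_lit 57751) (nat_lit 201) (.e (nat_lit 3067) (nat_lit 190) (.e (nat_lit 475185) (nat_lit 29) (.e (nat_lit 557101) (nat_lit 13) (.e (nat_lit 172097) (nat_lit 9) .nil))))))) (.g (nat_lit 1) (.e (nat_lit 299585) (nat_lit 0) .nil) .nil))) 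
(.lf (nat_lit 552635) (.g (nat_lit 5457) (.e (nat_lit 426125) (nat_lit 2) (.e (nat_lit 196666) (nat_lit 13) (.e (nat_lit 65617) (nat_lit 10) (.e (nat_lit 344133) (nat_lit 26) (.e (nat_lit 557091) (nat_lit 12) (.e (nat_lit 164022) (nat_lit 46) (.e (nat_lit 704629) (nat_lit 9) (.e (nat_lit 370) (nat_lit 32) .nil)))))))) (.g (nat_lit 1) (.e (nat_lit 301537) (nat_lit 0) .nil) .nil)))) 
(.nd (nat_lit 9) 
(.lf (nat_lit 552379) (.g (nat_lit 2275) (.e (nat_lit 426125) (nat_lit 2) (.e (nat_lit 196666) (nat_lit 13) (.e (nat_lit 65617) (nat_lit 10) (.e (nat_lit 344130) (nat_lit 26) (.e (nat_lit 557065) (nat_lit 9) (.e (nat_lit 2612) (nat_lit 163) (.e (nat_lit 164189) (nat_lit 157) (.e (nat_lit 229399) (nat_lit 12) .nil)))))))) (.g (nat_lit 1) (.e (nat_lit 301131) (nat_lit 0) .nil) .nil))) 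
(.lf (nat_lit 552891) (.g (nat_lit 1271) (.e (nat_lit 426131) (nat_lit 3) (.e (nat_lit 204829) (nat_lit 18) (.e (nat_lit 57688) (nat_lit 156) (.e (nat_lit 163905) (nat_lit 12) .nil)))) (.g (nat_lit 0) (.e (nat_lit 302057) (nat_lit 0) .nil) .nil)))))) (.nd (nat_lit 7) (.nd (nat_lit 8) (.nd (nat_lit 9) 
(.lf (nat_lit 552059) (.g (nat_lit 2453) (.e (nat_lit 426123) (nat_lit 2) (.e (nat_lit 196666) (nat_lit 13) (.e (nat_lit 65617) (nat_lit 10) (.e (nat_lit 344133) (nat_lit 26) (.e (nat_lit 557091) (nat_lit 12) (.e (nat_lit 164022) (nat_lit 46) (.e (nat_lit 712448) (nat_lit 9) (.e (nat_lit 440) (nat_lit 32) .nil)))))))) (.g (nat_lit 1) (.e (nat_lit 299242) (nat_lit 0) .nil) .nil))) 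
(.lf (nat_lit 552571) (.g (nat_lit 3527) (.e (nat_lit 426125) (nat_lit 2) (.e (nat_lit 196666) (nat_lit 13) (.e (nat_lit 65617) (nat_lit 10) (.e (nat_lit 344133) (nat_lit 26) (.e (nat_lit 557089) (nat_lit 12) (.e (nat_lit 164020) (nat_lit 45) (.e (nat_lit 696328) (nat_lit 5) (.e (nat_lit 2878) (nat_lit 184) .nil)))))))) (.g (nat_lit 1) (.e (nat_lit 301423) (nat_lit 0) .nil) .nil)))) 
(.nd (nat_lit 9) 
(.lf (nat_lit 552315) (.g (nat_lit 6287) (.e (nat_lit 426125) (nat_lit 2) (.e (nat_lit 196666) (nat_lit 13) (.e (nat_lit 65610) (nat_lit 10) (.e (nat_lit 344133) (nat_lit 26) (.e (nat_lit 557091) (nat_lit 12) (.e (nat_lit 164022) (nat_lit 46) (.e (nat_lit 704629) (nat_lit 9) (.e (nat_lit 375) (nat_lit 32) .nil)))))))) (.g (nat_lit 1) (.e (nat_lit 301049) (nat_lit 0) .nil) .nil))) 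
(.lf (nat_lit 552827) (.g (nat_lit 2932) (.e (nat_lit 426129) (nat_lit 3) (.e (nat_lit 204869) (nat_lit 29) (.e (nat_lit 360475) (nat_lit 8) (.e (nat_lit 557091) (nat_lit 12) (.e (nat_lit 163852) (nat_lit 0) .nil))))) (.g (nat_lit 0) (.e (nat_lit 301937) (nat_lit 0) .nil) .nil))))) (.nd (nat_lit 8) (.nd (nat_lit 9) 
(.lf (nat_lit 552187) (.g (nat_lit 3782) (.e (nat_lit 426125) (nat_lit 2) (.e (nat_lit 196666) (nat_lit 13) (.e (nat_lit 65610) (nat_lit 10) (.e (nat_lit 344129) (nat_lit 26) (.e (nat_lit 557089) (nat_lit 12) (.e (nat_lit 163850) (nat_lit 0) (.e (nat_lit 6428) (nat_lit 342) (.e (nat_lit 229399) (nat_lit 12) .nil)))))))) (.g (nat_lit 1) (.e (nat_lit 300789) (nat_lit 0) .nil) .nil))) 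
(.lf (nat_lit 552699) (.g (nat_lit 2514) (.e (nat_lit 426129) (nat_lit 3) (.e (nat_lit 204838) (nat_lit 20) (.e (nat_lit 114719) (nat_lit 23) (.e (nat_lit 98334) (nat_lit 18) (.e (nat_lit 164401) (nat_lit 256) .nil))))) (.g (nat_lit 0) (.e (nat_lit 301693) (nat_lit 0) .nil) .nil)))) (.nd (nat_lit 9) 
(.lf (nat_lit 552443) (.g (nat_lit 2291) (.e (nat_lit 426125) (nat_lit 2) (.e (nat_lit 196666) (nat_lit 13) (.e (nat_lit 65617) (nat_lit 10) (.e (nat_lit 344130) (nat_lit 26) (.e (nat_lit 557090) (nat_lit 12) (.e (nat_lit 164019) (nat_lit 45) (.e (nat_lit 696330) (nat_lit 5) (.e (nat_lit 2884) (nat_lit 184) .nil)))))))) (.g (nat_lit 1) (.e (nat_lit 301251) (nat_lit 0) .nil) .nil))) 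
(.lf (nat_lit 552955) (.g (nat_lit 3312) (.e (nat_lit 426131) (nat_lit 3) (.e (nat_lit 204846) (nat_lit 24) (.e (nat_lit 319532) (nat_lit 16) (.e (nat_lit 286733) (nat_lit 2) (.e (nat_lit 90185) (nat_lit 17) (.e (nat_lit 237605) (nat_lit 9) .nil)))))) (.g (nat_lit 1) (.e (nat_lit 302157) (nat_lit 0) .nil) .nil)))))))))) 
(.nd (nat_lit 3) (.nd (nat_lit 4) (.nd (nat_lit 5) (.nd (nat_lit 6) (.nd (nat_lit 7) 
(.nd (nat_lit 8) (.nd (nat_lit 9) 
(.lf (nat_lit 551943) (.g (nat_lit 3006) (.e (nat_lit 426123) (nat_lit 2) (.e (nat_lit 196666) (nat_lit 13) (.e (nat_lit 65617) (nat_lit 10) (.e (nat_lit 344130) (nat_lit 26) (.e (nat_lit 557089) (nat_lit 12) (.e (nat_lit 163849) (nat_lit 0) (.e (nat_lit 6421) (nat_lit 341) (.e (nat_lit 171776) (nat_lit 12) .nil)))))))) (.g (nat_lit 1) (.e (nat_lit 299081) (nat_lit 0) .nil) .nil))) 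
(.lf (nat_lit 552455) (.g (nat_lit 3523) (.e (nat_lit 426125) (nat_lit 2) (.e (nat_lit 196666) (nat_lit 13) (.e (nat_lit 65617) (nat_lit 10) (.e (nat_lit 344130) (nat_lit 26) (.e (nat_lit 557090) (nat_lit 12) (.e (nat_lit 164022) (nat_lit 46) (.e (nat_lit 704627) (nat_lit 9) (.e (nat_lit 377) (nat_lit 32) .nil)))))))) (.g (nat_lit 1) (.e (nat_lit 301267) (nat_lit 0) .nil) .nil)))) 
(.nd (nat_lit 9) 
(.lf (nat_lit 552199) (.g (nat_lit 2774) (.e (nat_lit 426125) (nat_lit 2) (.e (nat_lit 196666) (nat_lit 13) (.e (nat_lit 65610) (nat_lit 10) (.e (nat_lit 344129) (nat_lit 26) (.e (nat_lit 557089) (nat_lit 12) (.e (nat_lit 164020) (nat_lit 45) (.e (nat_lit 696328) (nat_lit 5) (.e (nat_lit 2878) (nat_lit 184) .nil)))))))) (.g (nat_lit 1) (.e (nat_lit 300805) (nat_lit 0) .nil) .nil))) 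
(.lf (nat_lit 552711) (.g (nat_lit 2217) (.e (nat_lit 426129) (nat_lit 3) (.e (nat_lit 204846) (nat_lit 24) (.e (nat_lit 319531) (nat_lit 16) (.e (nat_lit 286735) (nat_lit 3) (.e (nat_lit 98363) (nat_lit 26) .nil))))) (.g (nat_lit 0) (.e (nat_lit 301722) (nat_lit 0) .nil) .nil))))) (.nd (nat_lit 8) (.nd (nat_lit 9) 
(.lf (nat_lit 552071) (.g (nat_lit 3293) (.e (nat_lit 426123) (nat_lit 2) (.e (nat_lit 196666) (nat_lit 13) (.e (nat_lit 65624) (nat_lit 12) (.e (nat_lit 385068) (nat_lit 26) (.e (nat_lit 532513) (nat_lit 3) (.e (nat_lit 122624) (nat_lit 11) .nil)))))) (.g (nat_lit 1) (.e (nat_lit 299270) (nat_lit 0) .nil) .nil))) 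
(.lf (nat_lit 552583) (.g (nat_lit 3211) (.e (nat_lit 426125) (nat_lit 2) (.e (nat_lit 196666) (nat_lit 13) (.e (nat_lit 65617) (nat_lit 10) (.e (nat_lit 344133) (nat_lit 26) (.e (nat_lit 557091) (nat_lit 12) (.e (nat_lit 163840) (nat_lit 0) (.e (nat_lit 6418) (nat_lit 341) (.e (nat_lit 163900) (nat_lit 12) .nil)))))))) (.g (nat_lit 1) (.e (nat_lit 301437) (nat_lit 0) .nil) .nil)))) 
(.nd (nat_lit 9) 
(.lf (nat_lit 552327) (.g (nat_lit 2419) (.e (nat_lit 426125) (nat_lit 2) (.e (nat_lit 196666) (nat_lit 13) (.e (nat_lit 65617) (nat_lit 10) (.e (nat_lit 344127) (nat_lit 26) (.e (nat_lit 557088) (nat_lit 12) (.e (nat_lit 164020) (nat_lit 45) (.e (nat_lit 696327) (nat_lit 5) (.e (nat_lit 2884) (nat_lit 184) .nil)))))))) (.g (nat_lit 1) (.e (nat_lit 301063) (nat_lit 0) .nil) .nil))) 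
(.lf (nat_lit 552839) (.g (nat_lit 1789) (.e (nat_lit 426129) (nat_lit 3) (.e (nat_lit 204877) (nat_lit 31) (.e (nat_lit 376835) (nat_lit 0) (.e (nat_lit 3253) (nat_lit 197) (.e (nat_lit 532513) (nat_lit 3) (.e (nat_lit 122624) (nat_lit 11) .nil)))))) (.g (nat_lit 1) (.e (nat_lit 301951) (nat_lit 0) .nil) .nil)))))) (.nd (nat_lit 7) (.nd (nat_lit 8) (.nd (nat_lit 9) 
(.lf (nat_lit 552007) (.g (nat_lit 2212) (.e (nat_lit 426123) (nat_lit 2) (.e (nat_lit 196666) (nat_lit 13) (.e (nat_lit 65617) (nat_lit 10) (.e (nat_lit 344132) (nat_lit 26) (.e (nat_lit 557094) (nat_lit 12) .nil))))) (.g (nat_lit 0) (.e (nat_lit 299182) (nat_lit 0) .nil) .nil))) 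
(.lf (nat_lit 552519) (.g (nat_lit 3318) (.e (nat_lit 426125) (nat_lit 2) (.e (nat_lit 196666) (nat_lit 13) (.e (nat_lit 65617) (nat_lit 10) (.e (nat_lit 344132) (nat_lit 26) (.e (nat_lit 557093) (nat_lit 12) (.e (nat_lit 164023) (nat_lit 46) (.e (nat_lit 704626) (nat_lit 9) (.e (nat_lit 377) (nat_lit 32) .nil)))))))) (.g (nat_lit 1) (.e (nat_lit 301348) (nat_lit 0) .nil) .nil)))) 
(.nd (nat_lit 9) 
(.lf (nat_lit 552263) (.g (nat_lit 3465) (.e (nat_lit 426125) (nat_lit 2) (.e (nat_lit 196666) (nat_lit 13) (.e (nat_lit 65610) (nat_lit 10) (.e (nat_lit 344129) (nat_lit 26) (.e (nat_lit 557090) (nat_lit 12) (.e (nat_lit 164018) (nat_lit 45) (.e (nat_lit 696326) (nat_lit 5) (.e (nat_lit 2879) (nat_lit 184) .nil)))))))) (.g (nat_lit 1) (.e (nat_lit 300975) (nat_lit 0) .nil) .nil))) 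
(.lf (nat_lit 552775) (.g (nat_lit 2280) (.e (nat_lit 426129) (nat_lit 3) (.e (nat_lit 204868) (nat_lit 29) (.e (nat_lit 360475) (nat_lit 8) (.e (nat_lit 557091) (nat_lit 12) .nil)))) (.g (nat_lit 0) (.e (nat_lit 301881) (nat_lit 0) .nil) .nil))))) (.nd (nat_lit 8) (.nd (nat_lit 9) 
(.lf (nat_lit 552135) (.g (nat_lit 2570) (.e (nat_lit 426125) (nat_lit 2) (.e (nat_lit 196666) (nat_lit 13) (.e (nat_lit 65610) (nat_lit 10) (.e (nat_lit 344117) (nat_lit 21) (.e (nat_lit 524032) (nat_lit 18) (.e (nat_lit 57686) (nat_lit 156) (.e (nat_lit 163910) (nat_lit 12) .nil))))))) (.g (nat_lit 1) (.e (nat_lit 300630) (nat_lit 0) .nil) .nil))) 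
(.lf (nat_lit 552647) (.g (nat_lit 3003) (.e (nat_lit 426125) (nat_lit 2) (.e (nat_lit 196666) (nat_lit 13) (.e (nat_lit 65617) (nat_lit 10) (.e (nat_lit 344133) (nat_lit 26) (.e (nat_lit 557094) (nat_lit 12) (.e (nat_lit 164022) (nat_lit 46) (.e (nat_lit 704629) (nat_lit 9) (.e (nat_lit 375) (nat_lit 32) .nil)))))))) (.g (nat_lit 1) (.e (nat_lit 301552) (nat_lit 0) .nil) .nil)))) 
(.nd (nat_lit 9) 
(.lf (nat_lit 552391) (.g (nat_lit 3017) (.e (nat_lit 426125) (nat_lit 2) (.e (nat_lit 196666) (nat_lit 13) (.e (nat_lit 65617) (nat_lit 10) (.e (nat_lit 344130) (nat_lit 26) (.e (nat_lit 557089) (nat_lit 12) (.e (nat_lit 163850) (nat_lit 0) (.e (nat_lit 6427) (nat_lit 342) (.e (nat_lit 229399) (nat_lit 12) .nil)))))))) (.g (nat_lit 1) (.e (nat_lit 301154) (nat_lit 0) .nil) .nil))) 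
(.lf (nat_lit 552903) (.g (nat_lit 2248) (.e (nat_lit 426131) (nat_lit 3) (.e (nat_lit 204829) (nat_lit 18) (.e (nat_lit 57692) (nat_lit 156) (.e (nat_lit 163907) (nat_lit 12) (.e (nat_lit 426481) (nat_lit 27) (.e (nat_lit 336388) (nat_lit 27) (.e (nat_lit 426199) (nat_lit 9) .nil))))))) (.g (nat_lit 1) (.e (nat_lit 302078) (nat_lit 0) .nil) .nil))))))) 
(.nd (nat_lit 6) (.nd (nat_lit 7) (.nd (nat_lit 8) (.nd (nat_lit 9) 
(.lf (nat_lit 551975) (.g (nat_lit 4013) (.e (nat_lit 426123) (nat_lit 2) (.e (nat_lit 196666) (nat_lit 13) (.e (nat_lit 65617) (nat_lit 10) (.e (nat_lit 344132) (nat_lit 26) (.e (nat_lit 557093) (nat_lit 12) (.e (nat_lit 164022) (nat_lit 46) (.e (nat_lit 704626) (nat_lit 9) (.e (nat_lit 391) (nat_lit 32) .nil)))))))) (.g (nat_lit 1) (.e (nat_lit 299120) (nat_lit 0) .nil) .nil))) 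
(.lf (nat_lit 552487) (.g (nat_lit 4196) (.e (nat_lit 426125) (nat_lit 2) (.e (nat_lit 196666) (nat_lit 13) (.e (nat_lit 65617) (nat_lit 10) (.e (nat_lit 344132) (nat_lit 26) (.e (nat_lit 557091) (nat_lit 12) (.e (nat_lit 164020) (nat_lit 45) (.e (nat_lit 696327) (nat_lit 5) (.e (nat_lit 2884) (nat_lit 184) .nil)))))))) (.g (nat_lit 1) (.e (nat_lit 301305) (nat_lit 0) .nil) .nil)))) 
(.nd (nat_lit 9) 
(.lf (nat_lit 552231) (.g (nat_lit 3161) (.e (nat_lit 426125) (nat_lit 2) (.e (nat_lit 196666) (nat_lit 13) (.e (nat_lit 65610) (nat_lit 10) (.e (nat_lit 344129) (nat_lit 26) (.e (nat_lit 557090) (nat_lit 12) (.e (nat_lit 163844) (nat_lit 0) (.e (nat_lit 6420) (nat_lit 341) (.e (nat_lit 163909) (nat_lit 12) .nil)))))))) (.g (nat_lit 1) (.e (nat_lit 300897) (nat_lit 0) .nil) .nil))) 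
(.lf (nat_lit 552743) (.g (nat_lit 2794) (.e (nat_lit 426129) (nat_lit 3) (.e (nat_lit 204846) (nat_lit 24) (.e (nat_lit 319534) (nat_lit 16) (.e (nat_lit 286735) (nat_lit 3) (.e (nat_lit 106240) (nat_lit 26) (.e (nat_lit 426260) (nat_lit 9) .nil)))))) (.g (nat_lit 1) (.e (nat_lit 301774) (nat_lit 0) .nil) .nil))))) (.nd (nat_lit 8) (.nd (nat_lit 9) 
(.lf (nat_lit 552103) (.g (nat_lit 2673) (.e (nat_lit 426124) (nat_lit 2) (.e (nat_lit 196681) (nat_lit 17) (.e (nat_lit 131105) (nat_lit 9) (.e (nat_lit 336324) (nat_lit 18) (.e (nat_lit 204838) (nat_lit 20) (.e (nat_lit 122624) (nat_lit 11) .nil)))))) (.g (nat_lit 1) (.e (nat_lit 299473) (nat_lit 0) .nil) .nil))) 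
(.lf (nat_lit 552615) (.g (nat_lit 3701) (.e (nat_lit 426125) (nat_lit 2) (.e (nat_lit 196666) (nat_lit 13) (.e (nat_lit 65617) (nat_lit 10) (.e (nat_lit 344133) (nat_lit 26) (.e (nat_lit 557091) (nat_lit 12) (.e (nat_lit 164018) (nat_lit 45) (.e (nat_lit 696328) (nat_lit 5) (.e (nat_lit 2878) (nat_lit 184) .nil)))))))) (.g (nat_lit 1) (.e (nat_lit 301509) (nat_lit 0) .nil) .nil)))) 
(.nd (nat_lit 9) 
(.lf (nat_lit 552359) (.g (nat_lit 4525) (.e (nat_lit 426125) (nat_lit 2) (.e (nat_lit 196666) (nat_lit 13) (.e (nat_lit 65617) (nat_lit 10) (.e (nat_lit 344127) (nat_lit 26) (.e (nat_lit 557090) (nat_lit 12) (.e (nat_lit 164017) (nat_lit 44) (.e (nat_lit 688140) (nat_lit 5) (.e (nat_lit 2883) (nat_lit 184) .nil)))))))) (.g (nat_lit 1) (.e (nat_lit 301111) (nat_lit 0) .nil) .nil))) 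
(.lf (nat_lit 552871) (.g (nat_lit 5049) (.e (nat_lit 426130) (nat_lit 3) (.e (nat_lit 204869) (nat_lit 29) (.e (nat_lit 360475) (nat_lit 8) (.e (nat_lit 557090) (nat_lit 12) .nil)))) (.g (nat_lit 0) (.e (nat_lit 302028) (nat_lit 0) .nil) .nil)))))) (.nd (nat_lit 7) (.nd (nat_lit 8) (.nd (nat_lit 9) 
(.lf (nat_lit 552039) (.g (nat_lit 4015) (.e (nat_lit 426123) (nat_lit 2) (.e (nat_lit 196666) (nat_lit 13) (.e (nat_lit 65617) (nat_lit 10) (.e (nat_lit 344133) (nat_lit 26) (.e (nat_lit 557091) (nat_lit 12) (.e (nat_lit 164022) (nat_lit 46) (.e (nat_lit 704626) (nat_lit 9) (.e (nat_lit 440) (nat_lit 32) .nil)))))))) (.g (nat_lit 1) (.e (nat_lit 299221) (nat_lit 0) .nil) .nil))) 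
(.lf (nat_lit 552551) (.g (nat_lit 4188) (.e (nat_lit 426125) (nat_lit 2) (.e (nat_lit 196666) (nat_lit 13) (.e (nat_lit 65617) (nat_lit 10) (.e (nat_lit 344133) (nat_lit 26) (.e (nat_lit 557065) (nat_lit 9) (.e (nat_lit 2612) (nat_lit 163) (.e (nat_lit 164187) (nat_lit 157) (.e (nat_lit 229399) (nat_lit 12) .nil)))))))) (.g (nat_lit 1) (.e (nat_lit 301388) (nat_lit 0) .nil) .nil)))) 
(.nd (nat_lit 9) 
(.lf (nat_lit 552295) (.g (nat_lit 2180) (.e (nat_lit 426125) (nat_lit 2) (.e (nat_lit 196666) (nat_lit 13) (.e (nat_lit 65610) (nat_lit 10) (.e (nat_lit 344129) (nat_lit 26) (.e (nat_lit 557090) (nat_lit 12) (.e (nat_lit 171776) (nat_lit 46) (.e (nat_lit 704628) (nat_lit 9) (.e (nat_lit 375) (nat_lit 32) .nil)))))))) (.g (nat_lit 1) (.e (nat_lit 301027) (nat_lit 0) .nil) .nil))) 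
(.lf (nat_lit 552807) (.g (nat_lit 4134) (.e (nat_lit 426129) (nat_lit 3) (.e (nat_lit 204869) (nat_lit 29) (.e (nat_lit 360474) (nat_lit 8) (.e (nat_lit 557094) (nat_lit 12) (.e (nat_lit 164022) (nat_lit 46) (.e (nat_lit 704628) (nat_lit 9) (.e (nat_lit 433) (nat_lit 32) .nil))))))) (.g (nat_lit 1) (.e (nat_lit 301914) (nat_lit 0) .nil) .nil))))) (.nd (nat_lit 8) (.nd (nat_lit 9) 
(.lf (nat_lit 552167) (.g (nat_lit 4463) (.e (nat_lit 426125) (nat_lit 2) (.e (nat_lit 196666) (nat_lit 13) (.e (nat_lit 65610) (nat_lit 10) (.e (nat_lit 344129) (nat_lit 26) (.e (nat_lit 557089) (nat_lit 12) (.e (nat_lit 163844) (nat_lit 0) (.e (nat_lit 6416) (nat_lit 341) (.e (nat_lit 163909) (nat_lit 12) .nil)))))))) (.g (nat_lit 1) (.e (nat_lit 300746) (nat_lit 0) .nil) .nil))) 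
(.lf (nat_lit 552679) (.g (nat_lit 1888) (.e (nat_lit 426129) (nat_lit 3) (.e (nat_lit 204829) (nat_lit 18) (.e (nat_lit 57688) (nat_lit 156) (.e (nat_lit 163903) (nat_lit 12) (.e (nat_lit 426567) (nat_lit 34) .nil))))) (.g (nat_lit 0) (.e (nat_lit 301646) (nat_lit 0) .nil) .nil)))) (.nd (nat_lit 9) 
(.lf (nat_lit 552423) (.g (nat_lit 3468) (.e (nat_lit 426125) (nat_lit 2) (.e (nat_lit 196666) (nat_lit 13) (.e (nat_lit 65617) (nat_lit 10) (.e (nat_lit 344130) (nat_lit 26) (.e (nat_lit 557090) (nat_lit 12) (.e (nat_lit 163848) (nat_lit 0) (.e (nat_lit 6416) (nat_lit 341) (.e (nat_lit 163900) (nat_lit 12) .nil)))))))) (.g (nat_lit 1) (.e (nat_lit 301223) (nat_lit 0) .nil) .nil))) 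
(.lf (nat_lit 552935) (.g (nat_lit 3214) (.e (nat_lit 426131) (nat_lit 3) (.e (nat_lit 204845) (nat_lit 24) (.e (nat_lit 319531) (nat_lit 16) (.e (nat_lit 286735) (nat_lit 3) (.e (nat_lit 98365) (nat_lit 26) (.e (nat_lit 426188) (nat_lit 9) .nil)))))) (.g (nat_lit 1) (.e (nat_lit 302136) (nat_lit 0) .nil) .nil)))))))) 
(.nd (nat_lit 5) (.nd (nat_lit 6) (.nd (nat_lit 7) (.nd (nat_lit 8) (.nd (nat_lit 9) 
(.lf (nat_lit 551959) (.g (nat_lit 4612) (.e (nat_lit 426123) (nat_lit 2) (.e (nat_lit 196666) (nat_lit 13) (.e (nat_lit 65617) (nat_lit 10) (.e (nat_lit 344130) (nat_lit 26) (.e (nat_lit 557090) (nat_lit 12) (.e (nat_lit 164022) (nat_lit 46) (.e (nat_lit 704627) (nat_lit 9) (.e (nat_lit 416) (nat_lit 32) .nil)))))))) (.g (nat_lit 1) (.e (nat_lit 299101) (nat_lit 0) .nil) .nil))) 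
(.lf (nat_lit 552471) (.g (nat_lit 2984) (.e (nat_lit 426125) (nat_lit 2) (.e (nat_lit 196666) (nat_lit 13) (.e (nat_lit 65617) (nat_lit 10) (.e (nat_lit 344132) (nat_lit 26) (.e (nat_lit 557089) (nat_lit 12) (.e (nat_lit 163850) (nat_lit 0) (.e (nat_lit 6425) (nat_lit 342) (.e (nat_lit 229399) (nat_lit 12) .nil)))))))) (.g (nat_lit 1) (.e (nat_lit 301288) (nat_lit 0) .nil) .nil)))) 
(.nd (nat_lit 9) 
(.lf (nat_lit 552215) (.g (nat_lit 2540) (.e (nat_lit 426125) (nat_lit 2) (.e (nat_lit 196666) (nat_lit 13) (.e (nat_lit 65610) (nat_lit 10) (.e (nat_lit 344129) (nat_lit 26) (.e (nat_lit 557090) (nat_lit 12) (.e (nat_lit 163840) (nat_lit 0) (.e (nat_lit 6416) (nat_lit 341) (.e (nat_lit 163909) (nat_lit 12) .nil)))))))) (.g (nat_lit 1) (.e (nat_lit 300829) (nat_lit 0) .nil) .nil))) 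
(.lf (nat_lit 552727) (.g (nat_lit 3789) (.e (nat_lit 426129) (nat_lit 3) (.e (nat_lit 204846) (nat_lit 24) (.e (nat_lit 319533) (nat_lit 16) (.e (nat_lit 286735) (nat_lit 3) (.e (nat_lit 98363) (nat_lit 26) (.e (nat_lit 426230) (nat_lit 9) .nil)))))) (.g (nat_lit 1) (.e (nat_lit 301748) (nat_lit 0) .nil) .nil))))) (.nd (nat_lit 8) (.nd (nat_lit 9) 
(.lf (nat_lit 552087) (.g (nat_lit 3135) (.e (nat_lit 426124) (nat_lit 2) (.e (nat_lit 196663) (nat_lit 13) (.e (nat_lit 65610) (nat_lit 10) (.e (nat_lit 344129) (nat_lit 26) (.e (nat_lit 557090) (nat_lit 12) (.e (nat_lit 171776) (nat_lit 48) (.e (nat_lit 720909) (nat_lit 11) .nil))))))) (.g (nat_lit 1) (.e (nat_lit 299334) (nat_lit 0) .nil) .nil))) 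
(.lf (nat_lit 552599) (.g (nat_lit 4298) (.e (nat_lit 426125) (nat_lit 2) (.e (nat_lit 196666) (nat_lit 13) (.e (nat_lit 65617) (nat_lit 10) (.e (nat_lit 344133) (nat_lit 26) (.e (nat_lit 557091) (nat_lit 12) (.e (nat_lit 163847) (nat_lit 0) (.e (nat_lit 6420) (nat_lit 341) (.e (nat_lit 163909) (nat_lit 12) .nil)))))))) (.g (nat_lit 1) (.e (nat_lit 301485) (nat_lit 0) .nil) .nil)))) 
(.nd (nat_lit 9) 
(.lf (nat_lit 552343) (.g (nat_lit 4947) (.e (nat_lit 426125) (nat_lit 2) (.e (nat_lit 196666) (nat_lit 13) (.e (nat_lit 65617) (nat_lit 10) (.e (nat_lit 344127) (nat_lit 26) (.e (nat_lit 557090) (nat_lit 12) (.e (nat_lit 163843) (nat_lit 0) (.e (nat_lit 6421) (nat_lit 341) (.e (nat_lit 163909) (nat_lit 12) .nil)))))))) (.g (nat_lit 1) (.e (nat_lit 301086) (nat_lit 0) .nil) .nil))) 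
(.lf (nat_lit 552855) (.g (nat_lit 1833) (.e (nat_lit 426130) (nat_lit 3) (.e (nat_lit 204846) (nat_lit 24) (.e (nat_lit 319534) (nat_lit 16) (.e (nat_lit 286728) (nat_lit 0) (.e (nat_lit 1718) (nat_lit 117) .nil))))) (.g (nat_lit 0) (.e (nat_lit 302011) (nat_lit 0) .nil) .nil)))))) (.nd (nat_lit 7) (.nd (nat_lit 8) (.nd (nat_lit 9) 
(.lf (nat_lit 552023) (.g (nat_lit 2209) (.e (nat_lit 426123) (nat_lit 2) (.e (nat_lit 196666) (nat_lit 13) (.e (nat_lit 65617) (nat_lit 10) (.e (nat_lit 344133) (nat_lit 26) (.e (nat_lit 557089) (nat_lit 12) .nil))))) (.g (nat_lit 0) (.e (nat_lit 299200) (nat_lit 0) .nil) .nil))) 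
(.lf (nat_lit 552535) (.g (nat_lit 3625) (.e (nat_lit 426125) (nat_lit 2) (.e (nat_lit 196666) (nat_lit 13) (.e (nat_lit 65617) (nat_lit 10) (.e (nat_lit 344132) (nat_lit 26) (.e (nat_lit 557094) (nat_lit 12) (.e (nat_lit 163849) (nat_lit 0) (.e (nat_lit 6420) (nat_lit 341) (.e (nat_lit 163909) (nat_lit 12) .nil)))))))) (.g (nat_lit 1) (.e (nat_lit 301367) (nat_lit 0) .nil) .nil)))) 
(.nd (nat_lit 9) 
(.lf (nat_lit 552279) (.g (nat_lit 2986) (.e (nat_lit 426125) (nat_lit 2) (.e (nat_lit 196666) (nat_lit 13) (.e (nat_lit 65610) (nat_lit 10) (.e (nat_lit 344129) (nat_lit 26) (.e (nat_lit 557090) (nat_lit 12) (.e (nat_lit 164019) (nat_lit 45) (.e (nat_lit 696326) (nat_lit 5) (.e (nat_lit 2888) (nat_lit 184) .nil)))))))) (.g (nat_lit 1) (.e (nat_lit 300991) (nat_lit 0) .nil) .nil))) 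
(.lf (nat_lit 552791) (.g (nat_lit 5046) (.e (nat_lit 426129) (nat_lit 3) (.e (nat_lit 204869) (nat_lit 29) (.e (nat_lit 360474) (nat_lit 8) (.e (nat_lit 557091) (nat_lit 12) (.e (nat_lit 163844) (nat_lit 0) .nil))))) (.g (nat_lit 0) (.e (nat_lit 301898) (nat_lit 0) .nil) .nil))))) (.nd (nat_lit 8) (.nd (nat_lit 9) 
(.lf (nat_lit 552151) (.g (nat_lit 2317) (.e (nat_lit 426125) (nat_lit 2) (.e (nat_lit 196666) (nat_lit 13) (.e (nat_lit 65610) (nat_lit 10) (.e (nat_lit 344129) (nat_lit 26) (.e (nat_lit 557067) (nat_lit 9) (.e (nat_lit 2606) (nat_lit 163) (.e (nat_lit 164188) (nat_lit 157) (.e (nat_lit 229399) (nat_lit 12) .nil)))))))) (.g (nat_lit 1) (.e (nat_lit 300666) (nat_lit 0) .nil) .nil))) 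
(.lf (nat_lit 552663) (.g (nat_lit 2752) (.e (nat_lit 426125) (nat_lit 2) (.e (nat_lit 196681) (nat_lit 17) (.e (nat_lit 131123) (nat_lit 12) (.e (nat_lit 385068) (nat_lit 26) (.e (nat_lit 532513) (nat_lit 3) (.e (nat_lit 122624) (nat_lit 11) .nil)))))) (.g (nat_lit 1) (.e (nat_lit 301584) (nat_lit 0) .nil) .nil)))) (.nd (nat_lit 9) 
(.lf (nat_lit 552407) (.g (nat_lit 4387) (.e (nat_lit 426125) (nat_lit 2) (.e (nat_lit 196666) (nat_lit 13) (.e (nat_lit 65617) (nat_lit 10) (.e (nat_lit 344130) (nat_lit 26) (.e (nat_lit 557090) (nat_lit 12) (.e (nat_lit 163843) (nat_lit 0) (.e (nat_lit 6418) (nat_lit 341) (.e (nat_lit 163900) (nat_lit 12) .nil)))))))) (.g (nat_lit 1) (.e (nat_lit 301189) (nat_lit 0) .nil) .nil))) 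
(.lf (nat_lit 552919) (.g (nat_lit 589) (.e (nat_lit 426131) (nat_lit 3) (.e (nat_lit 204831) (nat_lit 18) (.e (nat_lit 57690) (nat_lit 156) .nil))) (.g (nat_lit 0) (.e (nat_lit 302116) (nat_lit 0) .nil) .nil))))))) (.nd (nat_lit 6) (.nd (nat_lit 7) (.nd (nat_lit 8) (.nd (nat_lit 9) 
(.lf (nat_lit 551991) (.g (nat_lit 4546) (.e (nat_lit 426123) (nat_lit 2) (.e (nat_lit 196666) (nat_lit 13) (.e (nat_lit 65617) (nat_lit 10) (.e (nat_lit 344132) (nat_lit 26) (.e (nat_lit 557093) (nat_lit 12) (.e (nat_lit 164022) (nat_lit 46) (.e (nat_lit 704629) (nat_lit 9) (.e (nat_lit 436) (nat_lit 32) .nil)))))))) (.g (nat_lit 1) (.e (nat_lit 299136) (nat_lit 0) .nil) .nil))) 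
(.lf (nat_lit 552503) (.g (nat_lit 3839) (.e (nat_lit 426125) (nat_lit 2) (.e (nat_lit 196666) (nat_lit 13) (.e (nat_lit 65617) (nat_lit 10) (.e (nat_lit 344132) (nat_lit 26) (.e (nat_lit 557093) (nat_lit 12) (.e (nat_lit 163849) (nat_lit 0) (.e (nat_lit 6421) (nat_lit 341) (.e (nat_lit 163909) (nat_lit 12) .nil)))))))) (.g (nat_lit 1) (.e (nat_lit 301328) (nat_lit 0) .nil) .nil)))) 
(.nd (nat_lit 9) 
(.lf (nat_lit 552247) (.g (nat_lit 5952) (.e (nat_lit 426125) (nat_lit 2) (.e (nat_lit 196666) (nat_lit 13) (.e (nat_lit 65610) (nat_lit 10) (.e (nat_lit 344129) (nat_lit 26) (.e (nat_lit 557090) (nat_lit 12) (.e (nat_lit 163850) (nat_lit 0) (.e (nat_lit 6425) (nat_lit 342) (.e (nat_lit 229399) (nat_lit 12) .nil)))))))) (.g (nat_lit 1) (.e (nat_lit 300951) (nat_lit 0) .nil) .nil))) 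
(.lf (nat_lit 552759) (.g (nat_lit 1661) (.e (nat_lit 426129) (nat_lit 3) (.e (nat_lit 204861) (nat_lit 26) (.e (nat_lit 336088) (nat_lit 9) (.e (nat_lit 336324) (nat_lit 18) .nil)))) (.g (nat_lit 0) (.e (nat_lit 301856) (nat_lit 0) .nil) .nil))))) (.nd (nat_lit 8) (.nd (nat_lit 9) 
(.lf (nat_lit 552119) (.g (nat_lit 3522) (.e (nat_lit 426125) (nat_lit 2) (.e (nat_lit 196661) (nat_lit 12) (.e (nat_lit 57749) (nat_lit 201) (.e (nat_lit 2940) (nat_lit 184) (.e (nat_lit 426401) (nat_lit 15) (.e (nat_lit 1858) (nat_lit 124) (.e (nat_lit 557101) (nat_lit 13) (.e (nat_lit 172097) (nat_lit 9) .nil)))))))) (.g (nat_lit 1) (.e (nat_lit 299581) (nat_lit 0) .nil) .nil))) 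
(.lf (nat_lit 552631) (.g (nat_lit 3543) (.e (nat_lit 426125) (nat_lit 2) (.e (nat_lit 196666) (nat_lit 13) (.e (nat_lit 65617) (nat_lit 10) (.e (nat_lit 344133) (nat_lit 26) (.e (nat_lit 557091) (nat_lit 12) (.e (nat_lit 164022) (nat_lit 46) (.e (nat_lit 704627) (nat_lit 9) (.e (nat_lit 377) (nat_lit 32) .nil)))))))) (.g (nat_lit 1) (.e (nat_lit 301533) (nat_lit 0) .nil) .nil)))) 
(.nd (nat_lit 9) 
(.lf (nat_lit 552375) (.g (nat_lit 3086) (.e (nat_lit 426125) (nat_lit 2) (.e (nat_lit 196666) (nat_lit 13) (.e (nat_lit 65617) (nat_lit 10) (.e (nat_lit 344128) (nat_lit 26) (.e (nat_lit 557090) (nat_lit 12) (.e (nat_lit 164020) (nat_lit 45) (.e (nat_lit 696328) (nat_lit 5) (.e (nat_lit 2884) (nat_lit 184) .nil)))))))) (.g (nat_lit 1) (.e (nat_lit 301127) (nat_lit 0) .nil) .nil))) 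
(.lf (nat_lit 552887) (.g (nat_lit 987) (.e (nat_lit 426131) (nat_lit 3) (.e (nat_lit 204829) (nat_lit 18) (.e (nat_lit 57661) (nat_lit 152) .nil))) (.g (nat_lit 0) (.e (nat_lit 302051) (nat_lit 0) .nil) .nil)))))) (.nd (nat_lit 7) (.nd (nat_lit 8) (.nd (nat_lit 9) 
(.lf (nat_lit 552055) (.g (nat_lit 4843) (.e (nat_lit 426123) (nat_lit 2) (.e (nat_lit 196666) (nat_lit 13) (.e (nat_lit 65617) (nat_lit 10) (.e (nat_lit 344133) (nat_lit 26) (.e (nat_lit 557091) (nat_lit 12) (.e (nat_lit 164022) (nat_lit 46) (.e (nat_lit 704629) (nat_lit 9) (.e (nat_lit 436) (nat_lit 32) .nil)))))))) (.g (nat_lit 1) (.e (nat_lit 299237) (nat_lit 0) .nil) .nil))) 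
(.lf (nat_lit 552567) (.g (nat_lit 4578) (.e (nat_lit 426125) (nat_lit 2) (.e (nat_lit 196666) (nat_lit 13) (.e (nat_lit 65617) (nat_lit 10) (.e (nat_lit 344133) (nat_lit 26) (.e (nat_lit 557089) (nat_lit 12) (.e (nat_lit 164017) (nat_lit 44) (.e (nat_lit 688138) (nat_lit 5) (.e (nat_lit 2883) (nat_lit 184) .nil)))))))) (.g (nat_lit 1) (.e (nat_lit 301417) (nat_lit 0) .nil) .nil)))) 
(.nd (nat_lit 9) 
(.lf (nat_lit 552311) (.g (nat_lit 4036) (.e (nat_lit 426125) (nat_lit 2) (.e (nat_lit 196666) (nat_lit 13) (.e (nat_lit 65610) (nat_lit 10) (.e (nat_lit 344132) (nat_lit 26) (.e (nat_lit 557091) (nat_lit 12) (.e (nat_lit 164022) (nat_lit 46) (.e (nat_lit 704629) (nat_lit 9) (.e (nat_lit 375) (nat_lit 32) .nil)))))))) (.g (nat_lit 1) (.e (nat_lit 301045) (nat_lit 0) .nil) .nil))) 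
(.lf (nat_lit 552823) (.g (nat_lit 6404) (.e (nat_lit 426129) (nat_lit 3) (.e (nat_lit 204869) (nat_lit 29) (.e (nat_lit 360475) (nat_lit 8) (.e (nat_lit 557090) (nat_lit 12) (.e (nat_lit 163844) (nat_lit 0) .nil))))) (.g (nat_lit 0) (.e (nat_lit 301933) (nat_lit 0) .nil) .nil))))) (.nd (nat_lit 8) (.nd (nat_lit 9) 
(.lf (nat_lit 552183) (.g (nat_lit 2691) (.e (nat_lit 426125) (nat_lit 2) (.e (nat_lit 196666) (nat_lit 13) (.e (nat_lit 65610) (nat_lit 10) (.e (nat_lit 344129) (nat_lit 26) (.e (nat_lit 557089) (nat_lit 12) (.e (nat_lit 163849) (nat_lit 0) (.e (nat_lit 6421) (nat_lit 341) (.e (nat_lit 171776) (nat_lit 12) .nil)))))))) (.g (nat_lit 1) (.e (nat_lit 300785) (nat_lit 0) .nil) .nil))) 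
(.lf (nat_lit 552695) (.g (nat_lit 2028) (.e (nat_lit 426129) (nat_lit 3) (.e (nat_lit 204837) (nat_lit 20) (.e (nat_lit 114718) (nat_lit 23) (.e (nat_lit 98333) (nat_lit 18) (.e (nat_lit 164399) (nat_lit 256) .nil))))) (.g (nat_lit 0) (.e (nat_lit 301689) (nat_lit 0) .nil) .nil)))) (.nd (nat_lit 9) 
(.lf (nat_lit 552439) (.g (nat_lit 3570) (.e (nat_lit 426125) (nat_lit 2) (.e (nat_lit 196666) (nat_lit 13) (.e (nat_lit 65617) (nat_lit 10) (.e (nat_lit 344130) (nat_lit 26) (.e (nat_lit 557090) (nat_lit 12) (.e (nat_lit 164018) (nat_lit 45) (.e (nat_lit 696328) (nat_lit 5) (.e (nat_lit 2878) (nat_lit 184) .nil)))))))) (.g (nat_lit 1) (.e (nat_lit 301247) (nat_lit 0) .nil) .nil))) 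
(.lf (nat_lit 552951) (.g (nat_lit 2098) (.e (nat_lit 426131) (nat_lit 3) (.e (nat_lit 204846) (nat_lit 24) (.e (nat_lit 319531) (nat_lit 16) (.e (nat_lit 286735) (nat_lit 3) (.e (nat_lit 106240) (nat_lit 26) .nil))))) (.g (nat_lit 0) (.e (nat_lit 302153) (nat_lit 0) .nil) .nil))))))))) (.nd (nat_lit 4) (.nd (nat_lit 5) (.nd (nat_lit 6) (.nd (nat_lit 7) (.nd (nat_lit 8) (.nd (nat_lit 9) 
(.lf (nat_lit 551951) (.g (nat_lit 3449) (.e (nat_lit 426123) (nat_lit 2) (.e (nat_lit 196666) (nat_lit 13) (.e (nat_lit 65617) (nat_lit 10) (.e (nat_lit 344130) (nat_lit 26) (.e (nat_lit 557090) (nat_lit 12) (.e (nat_lit 164022) (nat_lit 46) (.e (nat_lit 704626) (nat_lit 9) (.e (nat_lit 398) (nat_lit 32) .nil)))))))) (.g (nat_lit 1) (.e (nat_lit 299093) (nat_lit 0) .nil) .nil))) 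
(.lf (nat_lit 552463) (.g (nat_lit 3767) (.e (nat_lit 426125) (nat_lit 2) (.e (nat_lit 196666) (nat_lit 13) (.e (nat_lit 65617) (nat_lit 10) (.e (nat_lit 344130) (nat_lit 26) (.e (nat_lit 557090) (nat_lit 12) (.e (nat_lit 171776) (nat_lit 49) (.e (nat_lit 729095) (nat_lit 11) .nil))))))) (.g (nat_lit 1) (.e (nat_lit 301279) (nat_lit 0) .nil) .nil)))) (.nd (nat_lit 9) 
(.lf (nat_lit 552207) (.g (nat_lit 3594) (.e (nat_lit 426125) (nat_lit 2) (.e (nat_lit 196666) (nat_lit 13) (.e (nat_lit 65610) (nat_lit 10) (.e (nat_lit 344129) (nat_lit 26) (.e (nat_lit 557089) (nat_lit 12) (.e (nat_lit 164020) (nat_lit 45) (.e (nat_lit 696330) (nat_lit 5) (.e (nat_lit 2885) (nat_lit 184) .nil)))))))) (.g (nat_lit 1) (.e (nat_lit 300813) (nat_lit 0) .nil) .nil))) 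
(.lf (nat_lit 552719) (.g (nat_lit 1250) (.e (nat_lit 426129) (nat_lit 3) (.e (nat_lit 204846) (nat_lit 24) (.e (nat_lit 319533) (nat_lit 16) (.e (nat_lit 286733) (nat_lit 2) .nil)))) (.g (nat_lit 0) (.e (nat_lit 301735) (nat_lit 0) .nil) .nil))))) (.nd (nat_lit 8) (.nd (nat_lit 9) 
(.lf (nat_lit 552079) (.g (nat_lit 1143) (.e (nat_lit 426123) (nat_lit 2) (.e (nat_lit 196681) (nat_lit 17) (.e (nat_lit 131122) (nat_lit 12) .nil))) (.g (nat_lit 0) (.e (nat_lit 299280) (nat_lit 0) .nil) .nil))) 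
(.lf (nat_lit 552591) (.g (nat_lit 4587) (.e (nat_lit 426125) (nat_lit 2) (.e (nat_lit 196666) (nat_lit 13) (.e (nat_lit 65617) (nat_lit 10) (.e (nat_lit 344133) (nat_lit 26) (.e (nat_lit 557091) (nat_lit 12) (.e (nat_lit 163843) (nat_lit 0) (.e (nat_lit 6418) (nat_lit 341) (.e (nat_lit 163900) (nat_lit 12) .nil)))))))) (.g (nat_lit 1) (.e (nat_lit 301462) (nat_lit 0) .nil) .nil)))) 
(.nd (nat_lit 9) 
(.lf (nat_lit 552335) (.g (nat_lit 2040) (.e (nat_lit 426125) (nat_lit 2) (.e (nat_lit 196666) (nat_lit 13) (.e (nat_lit 65617) (nat_lit 10) (.e (nat_lit 344127) (nat_lit 26) (.e (nat_lit 557089) (nat_lit 12) (.e (nat_lit 164017) (nat_lit 44) (.e (nat_lit 688140) (nat_lit 5) (.e (nat_lit 2883) (nat_lit 184) .nil)))))))) (.g (nat_lit 1) (.e (nat_lit 301071) (nat_lit 0) .nil) .nil))) 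
(.lf (nat_lit 552847) (.g (nat_lit 1027) (.e (nat_lit 426130) (nat_lit 3) (.e (nat_lit 204829) (nat_lit 18) (.e (nat_lit 57688) (nat_lit 156) .nil))) (.g (nat_lit 0) (.e (nat_lit 302001) (nat_lit 0) .nil) .nil)))))) (.nd (nat_lit 7) (.nd (nat_lit 8) (.nd (nat_lit 9) 
(.lf (nat_lit 552015) (.g (nat_lit 4137) (.e (nat_lit 426123) (nat_lit 2) (.e (nat_lit 196666) (nat_lit 13) (.e (nat_lit 65617) (nat_lit 10) (.e (nat_lit 344132) (nat_lit 26) (.e (nat_lit 557094) (nat_lit 12) (.e (nat_lit 164022) (nat_lit 46) (.e (nat_lit 704627) (nat_lit 9) (.e (nat_lit 416) (nat_lit 32) .nil)))))))) (.g (nat_lit 1) (.e (nat_lit 299191) (nat_lit 0) .nil) .nil))) 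
(.lf (nat_lit 552527) (.g (nat_lit 2000) (.e (nat_lit 426125) (nat_lit 2) (.e (nat_lit 196666) (nat_lit 13) (.e (nat_lit 65617) (nat_lit 10) (.e (nat_lit 344132) (nat_lit 26) (.e (nat_lit 557094) (nat_lit 12) .nil))))) (.g (nat_lit 0) (.e (nat_lit 301357) (nat_lit 0) .nil) .nil)))) (.nd (nat_lit 9) 
(.lf (nat_lit 552271) (.g (nat_lit 3200) (.e (nat_lit 426125) (nat_lit 2) (.e (nat_lit 196666) (nat_lit 13) (.e (nat_lit 65610) (nat_lit 10) (.e (nat_lit 344129) (nat_lit 26) (.e (nat_lit 557090) (nat_lit 12) (.e (nat_lit 164018) (nat_lit 45) (.e (nat_lit 696330) (nat_lit 5) (.e (nat_lit 2888) (nat_lit 184) .nil)))))))) (.g (nat_lit 1) (.e (nat_lit 300983) (nat_lit 0) .nil) .nil))) 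
(.lf (nat_lit 552783) (.g (nat_lit 2272) (.e (nat_lit 426129) (nat_lit 3) (.e (nat_lit 204869) (nat_lit 29) (.e (nat_lit 360473) (nat_lit 8) (.e (nat_lit 557091) (nat_lit 12) (.e (nat_lit 164022) (nat_lit 46) .nil))))) (.g (nat_lit 0) (.e (nat_lit 301889) (nat_lit 0) .nil) .nil))))) (.nd (nat_lit 8) (.nd (nat_lit 9) 
(.lf (nat_lit 552143) (.g (nat_lit 4978) (.e (nat_lit 426125) (nat_lit 2) (.e (nat_lit 196666) (nat_lit 13) (.e (nat_lit 65610) (nat_lit 10) (.e (nat_lit 344127) (nat_lit 26) (.e (nat_lit 557094) (nat_lit 12) (.e (nat_lit 164022) (nat_lit 46) (.e (nat_lit 704629) (nat_lit 9) (.e (nat_lit 375) (nat_lit 32) .nil)))))))) (.g (nat_lit 1) (.e (nat_lit 300640) (nat_lit 0) .nil) .nil))) 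
(.lf (nat_lit 552655) (.g (nat_lit 3145) (.e (nat_lit 426125) (nat_lit 2) (.e (nat_lit 196666) (nat_lit 13) (.e (nat_lit 65624) (nat_lit 12) (.e (nat_lit 385066) (nat_lit 26) (.e (nat_lit 532513) (nat_lit 3) (.e (nat_lit 122624) (nat_lit 11) .nil)))))) (.g (nat_lit 1) (.e (nat_lit 301566) (nat_lit 0) .nil) .nil)))) (.nd (nat_lit 9) 
(.lf (nat_lit 552399) (.g (nat_lit 2253) (.e (nat_lit 426125) (nat_lit 2) (.e (nat_lit 196666) (nat_lit 13) (.e (nat_lit 65617) (nat_lit 10) (.e (nat_lit 344130) (nat_lit 26) (.e (nat_lit 557089) (nat_lit 12) (.e (nat_lit 171776) (nat_lit 48) (.e (nat_lit 728832) (nat_lit 11) .nil))))))) (.g (nat_lit 1) (.e (nat_lit 301165) (nat_lit 0) .nil) .nil))) 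
(.lf (nat_lit 552911) (.g (nat_lit 2516) (.e (nat_lit 426131) (nat_lit 3) (.e (nat_lit 204830) (nat_lit 18) (.e (nat_lit 57691) (nat_lit 156) (.e (nat_lit 163907) (nat_lit 12) (.e (nat_lit 426481) (nat_lit 27) .nil))))) (.g (nat_lit 0) (.e (nat_lit 302097) (nat_lit 0) .nil) .nil))))))) (.nd (nat_lit 6) (.nd (nat_lit 7) (.nd (nat_lit 8) (.nd (nat_lit 9) 
(.lf (nat_lit 551983) (.g (nat_lit 4072) (.e (nat_lit 426123) (nat_lit 2) (.e (nat_lit 196666) (nat_lit 13) (.e (nat_lit 65617) (nat_lit 10) (.e (nat_lit 344132) (nat_lit 26) (.e (nat_lit 557093) (nat_lit 12) (.e (nat_lit 164022) (nat_lit 46) (.e (nat_lit 704627) (nat_lit 9) (.e (nat_lit 435) (nat_lit 32) .nil)))))))) (.g (nat_lit 1) (.e (nat_lit 299128) (nat_lit 0) .nil) .nil))) 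
(.lf (nat_lit 552495) (.g (nat_lit 2172) (.e (nat_lit 426125) (nat_lit 2) (.e (nat_lit 196666) (nat_lit 13) (.e (nat_lit 65617) (nat_lit 10) (.e (nat_lit 344132) (nat_lit 26) (.e (nat_lit 557093) (nat_lit 12) .nil))))) (.g (nat_lit 0) (.e (nat_lit 301313) (nat_lit 0) .nil) .nil)))) (.nd (nat_lit 9) 
(.lf (nat_lit 552239) (.g (nat_lit 3203) (.e (nat_lit 426125) (nat_lit 2) (.e (nat_lit 196666) (nat_lit 13) (.e (nat_lit 65610) (nat_lit 10) (.e (nat_lit 344129) (nat_lit 26) (.e (nat_lit 557090) (nat_lit 12) (.e (nat_lit 163847) (nat_lit 0) (.e (nat_lit 6421) (nat_lit 341) (.e (nat_lit 163909) (nat_lit 12) .nil)))))))) (.g (nat_lit 1) (.e (nat_lit 300925) (nat_lit 0) .nil) .nil))) 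
(.lf (nat_lit 552751) (.g (nat_lit 1192) (.e (nat_lit 426129) (nat_lit 3) (.e (nat_lit 204852) (nat_lit 26) (.e (nat_lit 343808) (nat_lit 12) (.e (nat_lit 385068) (nat_lit 26) (.e (nat_lit 532515) (nat_lit 3) .nil))))) (.g (nat_lit 0) (.e (nat_lit 301791) (nat_lit 0) .nil) .nil))))) (.nd (nat_lit 8) (.nd (nat_lit 9) 
(.lf (nat_lit 552111) (.g (nat_lit 4003) (.e (nat_lit 426125) (nat_lit 2) (.e (nat_lit 196630) (nat_lit 9) (.e (nat_lit 1580) (nat_lit 111) (.e (nat_lit 360475) (nat_lit 8) (.e (nat_lit 557091) (nat_lit 12) (.e (nat_lit 164022) (nat_lit 46) (.e (nat_lit 704629) (nat_lit 9) (.e (nat_lit 375) (nat_lit 32) .nil)))))))) (.g (nat_lit 1) (.e (nat_lit 299538) (nat_lit 0) .nil) .nil))) 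
(.lf (nat_lit 552623) (.g (nat_lit 4286) (.e (nat_lit 426125) (nat_lit 2) (.e (nat_lit 196666) (nat_lit 13) (.e (nat_lit 65617) (nat_lit 10) (.e (nat_lit 344133) (nat_lit 26) (.e (nat_lit 557091) (nat_lit 12) (.e (nat_lit 164020) (nat_lit 45) (.e (nat_lit 696327) (nat_lit 5) (.e (nat_lit 2878) (nat_lit 184) .nil)))))))) (.g (nat_lit 1) (.e (nat_lit 301517) (nat_lit 0) .nil) .nil)))) 
(.nd (nat_lit 9) 
(.lf (nat_lit 552367) (.g (nat_lit 4429) (.e (nat_lit 426125) (nat_lit 2) (.e (nat_lit 196666) (nat_lit 13) (.e (nat_lit 65617) (nat_lit 10) (.e (nat_lit 344127) (nat_lit 26) (.e (nat_lit 557090) (nat_lit 12) (.e (nat_lit 164020) (nat_lit 45) (.e (nat_lit 696327) (nat_lit 5) (.e (nat_lit 2878) (nat_lit 184) .nil)))))))) (.g (nat_lit 1) (.e (nat_lit 301119) (nat_lit 0) .nil) .nil))) 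
(.lf (nat_lit 552879) (.g (nat_lit 4377) (.e (nat_lit 426130) (nat_lit 3) (.e (nat_lit 204869) (nat_lit 29) (.e (nat_lit 360475) (nat_lit 8) (.e (nat_lit 557094) (nat_lit 12) .nil)))) (.g (nat_lit 0) (.e (nat_lit 302036) (nat_lit 0) .nil) .nil)))))) (.nd (nat_lit 7) (.nd (nat_lit 8) (.nd (nat_lit 9) 
(.lf (nat_lit 552047) (.g (nat_lit 5053) (.e (nat_lit 426123) (nat_lit 2) (.e (nat_lit 196666) (nat_lit 13) (.e (nat_lit 65617) (nat_lit 10) (.e (nat_lit 344133) (nat_lit 26) (.e (nat_lit 557091) (nat_lit 12) (.e (nat_lit 164022) (nat_lit 46) (.e (nat_lit 704628) (nat_lit 9) (.e (nat_lit 391) (nat_lit 32) .nil)))))))) (.g (nat_lit 1) (.e (nat_lit 299229) (nat_lit 0) .nil) .nil))) 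
(.lf (nat_lit 552559) (.g (nat_lit 4158) (.e (nat_lit 426125) (nat_lit 2) (.e (nat_lit 196666) (nat_lit 13) (.e (nat_lit 65617) (nat_lit 10) (.e (nat_lit 344133) (nat_lit 26) (.e (nat_lit 557089) (nat_lit 12) (.e (nat_lit 163844) (nat_lit 0) (.e (nat_lit 6420) (nat_lit 341) (.e (nat_lit 163909) (nat_lit 12) .nil)))))))) (.g (nat_lit 1) (.e (nat_lit 301402) (nat_lit 0) .nil) .nil)))) 
(.nd (nat_lit 9) 
(.lf (nat_lit 552303) (.g (nat_lit 5723) (.e (nat_lit 426125) (nat_lit 2) (.e (nat_lit 196666) (nat_lit 13) (.e (nat_lit 65610) (nat_lit 10) (.e (nat_lit 344129) (nat_lit 26) (.e (nat_lit 557093) (nat_lit 12) (.e (nat_lit 164022) (nat_lit 46) (.e (nat_lit 704629) (nat_lit 9) (.e (nat_lit 375) (nat_lit 32) .nil)))))))) (.g (nat_lit 1) (.e (nat_lit 301036) (nat_lit 0) .nil) .nil))) 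
(.lf (nat_lit 552815) (.g (nat_lit 5351) (.e (nat_lit 426129) (nat_lit 3) (.e (nat_lit 204869) (nat_lit 29) (.e (nat_lit 360475) (nat_lit 8) (.e (nat_lit 557089) (nat_lit 12) (.e (nat_lit 163844) (nat_lit 0) (.e (nat_lit 6421) (nat_lit 341) (.e (nat_lit 163913) (nat_lit 12) .nil))))))) (.g (nat_lit 1) (.e (nat_lit 301925) (nat_lit 0) .nil) .nil))))) (.nd (nat_lit 8) (.nd (nat_lit 9) 
(.lf (nat_lit 552175) (.g (nat_lit 4204) (.e (nat_lit 426125) (nat_lit 2) (.e (nat_lit 196666) (nat_lit 13) (.e (nat_lit 65610) (nat_lit 10) (.e (nat_lit 344129) (nat_lit 26) (.e (nat_lit 557089) (nat_lit 12) (.e (nat_lit 163848) (nat_lit 0) (.e (nat_lit 6416) (nat_lit 341) (.e (nat_lit 163900) (nat_lit 12) .nil)))))))) (.g (nat_lit 1) (.e (nat_lit 300760) (nat_lit 0) .nil) .nil))) 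
(.lf (nat_lit 552687) (.g (nat_lit 2237) (.e (nat_lit 426129) (nat_lit 3) (.e (nat_lit 204831) (nat_lit 18) (.e (nat_lit 57691) (nat_lit 156) (.e (nat_lit 163905) (nat_lit 12) (.e (nat_lit 426568) (nat_lit 34) .nil))))) (.g (nat_lit 0) (.e (nat_lit 301677) (nat_lit 0) .nil) .nil)))) (.nd (nat_lit 9) 
(.lf (nat_lit 552431) (.g (nat_lit 3794) (.e (nat_lit 426125) (nat_lit 2) (.e (nat_lit 196666) (nat_lit 13) (.e (nat_lit 65617) (nat_lit 10) (.e (nat_lit 344130) (nat_lit 26) (.e (nat_lit 557090) (nat_lit 12) (.e (nat_lit 163854) (nat_lit 0) (.e (nat_lit 6425) (nat_lit 342) (.e (nat_lit 229399) (nat_lit 12) .nil)))))))) (.g (nat_lit 1) (.e (nat_lit 301232) (nat_lit 0) .nil) .nil))) 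
(.lf (nat_lit 552943) (.g (nat_lit 1632) (.e (nat_lit 426131) (nat_lit 3) (.e (nat_lit 204846) (nat_lit 24) (.e (nat_lit 319531) (nat_lit 16) (.e (nat_lit 286727) (nat_lit 0) .nil)))) (.g (nat_lit 0) (.e (nat_lit 302145) (nat_lit 0) .nil) .nil)))))))) (.nd (nat_lit 5) (.nd (nat_lit 6) (.nd (nat_lit 7) (.nd (nat_lit 8) (.nd (nat_lit 9) 
(.lf (nat_lit 551967) (.g (nat_lit 5426) (.e (nat_lit 426123) (nat_lit 2) (.e (nat_lit 196666) (nat_lit 13) (.e (nat_lit 65617) (nat_lit 10) (.e (nat_lit 344130) (nat_lit 26) (.e (nat_lit 557090) (nat_lit 12) (.e (nat_lit 164022) (nat_lit 46) (.e (nat_lit 704629) (nat_lit 9) (.e (nat_lit 416) (nat_lit 32) .nil)))))))) (.g (nat_lit 1) (.e (nat_lit 299109) (nat_lit 0) .nil) .nil))) 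
(.lf (nat_lit 552479) (.g (nat_lit 3396) (.e (nat_lit 426125) (nat_lit 2) (.e (nat_lit 196666) (nat_lit 13) (.e (nat_lit 65617) (nat_lit 10) (.e (nat_lit 344132) (nat_lit 26) (.e (nat_lit 557090) (nat_lit 12) (.e (nat_lit 164020) (nat_lit 45) (.e (nat_lit 696328) (nat_lit 5) (.e (nat_lit 2878) (nat_lit 184) .nil)))))))) (.g (nat_lit 1) (.e (nat_lit 301297) (nat_lit 0) .nil) .nil)))) 
(.nd (nat_lit 9) 
(.lf (nat_lit 552223) (.g (nat_lit 2538) (.e (nat_lit 426125) (nat_lit 2) (.e (nat_lit 196666) (nat_lit 13) (.e (nat_lit 65610) (nat_lit 10) (.e (nat_lit 344129) (nat_lit 26) (.e (nat_lit 557090) (nat_lit 12) (.e (nat_lit 163843) (nat_lit 0) (.e (nat_lit 6418) (nat_lit 341) (.e (nat_lit 163909) (nat_lit 12) .nil)))))))) (.g (nat_lit 1) (.e (nat_lit 300872) (nat_lit 0) .nil) .nil))) 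
(.lf (nat_lit 552735) (.g (nat_lit 2281) (.e (nat_lit 426129) (nat_lit 3) (.e (nat_lit 204846) (nat_lit 24) (.e (nat_lit 319534) (nat_lit 16) (.e (nat_lit 286734) (nat_lit 3) (.e (nat_lit 106240) (nat_lit 26) .nil))))) (.g (nat_lit 0) (.e (nat_lit 301766) (nat_lit 0) .nil) .nil))))) (.nd (nat_lit 8) (.nd (nat_lit 9) 
(.lf (nat_lit 552095) (.g (nat_lit 3716) (.e (nat_lit 426124) (nat_lit 2) (.e (nat_lit 196681) (nat_lit 17) (.e (nat_lit 131086) (nat_lit 1) (.e (nat_lit 57849) (nat_lit 252) (.e (nat_lit 57379) (nat_lit 3) (.e (nat_lit 98334) (nat_lit 18) (.e (nat_lit 164401) (nat_lit 256) (.e (nat_lit 57588) (nat_lit 73) .nil)))))))) (.g (nat_lit 1) (.e (nat_lit 299456) (nat_lit 0) .nil) .nil))) 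
(.lf (nat_lit 552607) (.g (nat_lit 4382) (.e (nat_lit 426125) (nat_lit 2) (.e (nat_lit 196666) (nat_lit 13) (.e (nat_lit 65617) (nat_lit 10) (.e (nat_lit 344133) (nat_lit 26) (.e (nat_lit 557091) (nat_lit 12) (.e (nat_lit 163852) (nat_lit 0) (.e (nat_lit 6425) (nat_lit 342) (.e (nat_lit 229399) (nat_lit 12) .nil)))))))) (.g (nat_lit 1) (.e (nat_lit 301494) (nat_lit 0) .nil) .nil)))) 
(.nd (nat_lit 9) 
(.lf (nat_lit 552351) (.g (nat_lit 5073) (.e (nat_lit 426125) (nat_lit 2) (.e (nat_lit 196666) (nat_lit 13) (.e (nat_lit 65617) (nat_lit 10) (.e (nat_lit 344127) (nat_lit 26) (.e (nat_lit 557090) (nat_lit 12) (.e (nat_lit 163850) (nat_lit 0) (.e (nat_lit 6425) (nat_lit 342) (.e (nat_lit 229399) (nat_lit 12) .nil)))))))) (.g (nat_lit 1) (.e (nat_lit 301100) (nat_lit 0) .nil) .nil))) 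
(.lf (nat_lit 552863) (.g (nat_lit 4373) (.e (nat_lit 426130) (nat_lit 3) (.e (nat_lit 204869) (nat_lit 29) (.e (nat_lit 360474) (nat_lit 8) (.e (nat_lit 557091) (nat_lit 12) .nil)))) (.g (nat_lit 0) (.e (nat_lit 302020) (nat_lit 0) .nil) .nil)))))) (.nd (nat_lit 7) (.nd (nat_lit 8) (.nd (nat_lit 9) 
(.lf (nat_lit 552031) (.g (nat_lit 2880) (.e (nat_lit 426123) (nat_lit 2) (.e (nat_lit 196666) (nat_lit 13) (.e (nat_lit 65617) (nat_lit 10) (.e (nat_lit 344133) (nat_lit 26) (.e (nat_lit 557091) (nat_lit 12) (.e (nat_lit 163844) (nat_lit 0) (.e (nat_lit 6420) (nat_lit 341) (.e (nat_lit 171776) (nat_lit 12) .nil)))))))) (.g (nat_lit 1) (.e (nat_lit 299208) (nat_lit 0) .nil) .nil))) 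
(.lf (nat_lit 552543) (.g (nat_lit 4513) (.e (nat_lit 426125) (nat_lit 2) (.e (nat_lit 196666) (nat_lit 13) (.e (nat_lit 65617) (nat_lit 10) (.e (nat_lit 344132) (nat_lit 26) (.e (nat_lit 557094) (nat_lit 12) (.e (nat_lit 164022) (nat_lit 46) (.e (nat_lit 704628) (nat_lit 9) (.e (nat_lit 377) (nat_lit 32) .nil)))))))) (.g (nat_lit 1) (.e (nat_lit 301378) (nat_lit 0) .nil) .nil)))) 
(.nd (nat_lit 9) 
(.lf (nat_lit 552287) (.g (nat_lit 2020) (.e (nat_lit 426125) (nat_lit 2) (.e (nat_lit 196666) (nat_lit 13) (.e (nat_lit 65610) (nat_lit 10) (.e (nat_lit 344129) (nat_lit 26) (.e (nat_lit 557090) (nat_lit 12) (.e (nat_lit 164020) (nat_lit 45) (.e (nat_lit 696330) (nat_lit 5) (.e (nat_lit 2842) (nat_lit 184) .nil)))))))) (.g (nat_lit 1) (.e (nat_lit 300999) (nat_lit 0) .nil) .nil))) 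
(.lf (nat_lit 552799) (.g (nat_lit 2721) (.e (nat_lit 426129) (nat_lit 3) (.e (nat_lit 204869) (nat_lit 29) (.e (nat_lit 360474) (nat_lit 8) (.e (nat_lit 557093) (nat_lit 12) (.e (nat_lit 164022) (nat_lit 46) .nil))))) (.g (nat_lit 0) (.e (nat_lit 301906) (nat_lit 0) .nil) .nil))))) (.nd (nat_lit 8) (.nd (nat_lit 9) 
(.lf (nat_lit 552159) (.g (nat_lit 4114) (.e (nat_lit 426125) (nat_lit 2) (.e (nat_lit 196666) (nat_lit 13) (.e (nat_lit 65610) (nat_lit 10) (.e (nat_lit 344129) (nat_lit 26) (.e (nat_lit 557088) (nat_lit 12) (.e (nat_lit 164023) (nat_lit 46) (.e (nat_lit 704628) (nat_lit 9) (.e (nat_lit 375) (nat_lit 32) .nil)))))))) (.g (nat_lit 1) (.e (nat_lit 300711) (nat_lit 0) .nil) .nil))) 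
(.lf (nat_lit 552671) (.g (nat_lit 1841) (.e (nat_lit 426128) (nat_lit 2) (.e (nat_lit 196672) (nat_lit 15) (.e (nat_lit 81954) (nat_lit 23) (.e (nat_lit 106240) (nat_lit 1) .nil)))) (.g (nat_lit 0) (.e (nat_lit 301610) (nat_lit 0) .nil) .nil)))) (.nd (nat_lit 9) 
(.lf (nat_lit 552415) (.g (nat_lit 4708) (.e (nat_lit 426125) (nat_lit 2) (.e (nat_lit 196666) (nat_lit 13) (.e (nat_lit 65617) (nat_lit 10) (.e (nat_lit 344130) (nat_lit 26) (.e (nat_lit 557090) (nat_lit 12) (.e (nat_lit 163844) (nat_lit 0) (.e (nat_lit 6420) (nat_lit 341) (.e (nat_lit 163900) (nat_lit 12) .nil)))))))) (.g (nat_lit 1) (.e (nat_lit 301207) (nat_lit 0) .nil) .nil))) 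
(.lf (nat_lit 552927) (.g (nat_lit 1928) (.e (nat_lit 426131) (nat_lit 3) (.e (nat_lit 204838) (nat_lit 20) (.e (nat_lit 114719) (nat_lit 23) (.e (nat_lit 98335) (nat_lit 18) (.e (nat_lit 164403) (nat_lit 256) .nil))))) (.g (nat_lit 0) (.e (nat_lit 302128) (nat_lit 0) .nil) .nil))))))) (.nd (nat_lit 6) (.nd (nat_lit 7) (.nd (nat_lit 8) (.nd (nat_lit 9) 
(.lf (nat_lit 551999) (.g (nat_lit 4369) (.e (nat_lit 426123) (nat_lit 2) (.e (nat_lit 196666) (nat_lit 13) (.e (nat_lit 65617) (nat_lit 10) (.e (nat_lit 344132) (nat_lit 26) (.e (nat_lit 557093) (nat_lit 12) (.e (nat_lit 164023) (nat_lit 46) (.e (nat_lit 704626) (nat_lit 9) (.e (nat_lit 435) (nat_lit 32) .nil)))))))) (.g (nat_lit 1) (.e (nat_lit 299146) (nat_lit 0) .nil) .nil))) 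
(.lf (nat_lit 552511) (.g (nat_lit 2481) (.e (nat_lit 426125) (nat_lit 2) (.e (nat_lit 196666) (nat_lit 13) (.e (nat_lit 65617) (nat_lit 10) (.e (nat_lit 344132) (nat_lit 26) (.e (nat_lit 557093) (nat_lit 12) (.e (nat_lit 164018) (nat_lit 45) (.e (nat_lit 696330) (nat_lit 5) (.e (nat_lit 2842) (nat_lit 184) .nil)))))))) (.g (nat_lit 1) (.e (nat_lit 301336) (nat_lit 0) .nil) .nil)))) 
(.nd (nat_lit 9) 
(.lf (nat_lit 552255) (.g (nat_lit 4642) (.e (nat_lit 426125) (nat_lit 2) (.e (nat_lit 196666) (nat_lit 13) (.e (nat_lit 65610) (nat_lit 10) (.e (nat_lit 344129) (nat_lit 26) (.e (nat_lit 557090) (nat_lit 12) (.e (nat_lit 164017) (nat_lit 44) (.e (nat_lit 688138) (nat_lit 5) (.e (nat_lit 2883) (nat_lit 184) .nil)))))))) (.g (nat_lit 1) (.e (nat_lit 300966) (nat_lit 0) .nil) .nil))) 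
(.lf (nat_lit 552767) (.g (nat_lit 2374) (.e (nat_lit 426129) (nat_lit 3) (.e (nat_lit 204868) (nat_lit 29) (.e (nat_lit 360473) (nat_lit 8) (.e (nat_lit 557091) (nat_lit 12) (.e (nat_lit 164022) (nat_lit 46) (.e (nat_lit 704628) (nat_lit 9) (.e (nat_lit 433) (nat_lit 32) .nil))))))) (.g (nat_lit 1) (.e (nat_lit 301873) (nat_lit 0) .nil) .nil))))) (.nd (nat_lit 8) (.nd (nat_lit 9) 
(.lf (nat_lit 552127) (.g (nat_lit 2367) (.e (nat_lit 426125) (nat_lit 2) (.e (nat_lit 196666) (nat_lit 13) (.e (nat_lit 65610) (nat_lit 10) (.e (nat_lit 344117) (nat_lit 21) (.e (nat_lit 516099) (nat_lit 0) .nil))))) (.g (nat_lit 0) (.e (nat_lit 299930) (nat_lit 0) .nil) .nil))) 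
(.lf (nat_lit 552639) (.g (nat_lit 3341) (.e (nat_lit 426125) (nat_lit 2) (.e (nat_lit 196666) (nat_lit 13) (.e (nat_lit 65617) (nat_lit 10) (.e (nat_lit 344133) (nat_lit 26) (.e (nat_lit 557091) (nat_lit 12) (.e (nat_lit 171776) (nat_lit 49) (.e (nat_lit 737024) (nat_lit 11) .nil))))))) (.g (nat_lit 1) (.e (nat_lit 301544) (nat_lit 0) .nil) .nil)))) (.nd (nat_lit 9) 
(.lf (nat_lit 552383) (.g (nat_lit 2687) (.e (nat_lit 426125) (nat_lit 2) (.e (nat_lit 196666) (nat_lit 13) (.e (nat_lit 65617) (nat_lit 10) (.e (nat_lit 344130) (nat_lit 26) (.e (nat_lit 557089) (nat_lit 12) (.e (nat_lit 163843) (nat_lit 0) (.e (nat_lit 6418) (nat_lit 341) (.e (nat_lit 163900) (nat_lit 12) .nil)))))))) (.g (nat_lit 1) (.e (nat_lit 301141) (nat_lit 0) .nil) .nil))) 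
(.lf (nat_lit 552895) (.g (nat_lit 872) (.e (nat_lit 426131) (nat_lit 3) (.e (nat_lit 204829) (nat_lit 18) (.e (nat_lit 57689) (nat_lit 156) .nil))) (.g (nat_lit 0) (.e (nat_lit 302068) (nat_lit 0) .nil) .nil)))))) (.nd (nat_lit 7) (.nd (nat_lit 8) (.nd (nat_lit 9) 
(.lf (nat_lit 552063) (.g (nat_lit 2854) (.e (nat_lit 426123) (nat_lit 2) (.e (nat_lit 196666) (nat_lit 13) (.e (nat_lit 65617) (nat_lit 10) (.e (nat_lit 344133) (nat_lit 26) (.e (nat_lit 557091) (nat_lit 12) (.e (nat_lit 171776) (nat_lit 49) (.e (nat_lit 729098) (nat_lit 11) .nil))))))) (.g (nat_lit 1) (.e (nat_lit 299248) (nat_lit 0) .nil) .nil))) 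
(.lf (nat_lit 552575) (.g (nat_lit 2344) (.e (nat_lit 426125) (nat_lit 2) (.e (nat_lit 196666) (nat_lit 13) (.e (nat_lit 65617) (nat_lit 10) (.e (nat_lit 344133) (nat_lit 26) (.e (nat_lit 557089) (nat_lit 12) (.e (nat_lit 171776) (nat_lit 49) (.e (nat_lit 737024) (nat_lit 11) .nil))))))) (.g (nat_lit 1) (.e (nat_lit 301428) (nat_lit 0) .nil) .nil)))) (.nd (nat_lit 9) 
(.lf (nat_lit 552319) (.g (nat_lit 4254) (.e (nat_lit 426125) (nat_lit 2) (.e (nat_lit 196666) (nat_lit 13) (.e (nat_lit 65614) (nat_lit 10) (.e (nat_lit 344131) (nat_lit 26) (.e (nat_lit 557091) (nat_lit 12) (.e (nat_lit 164022) (nat_lit 46) (.e (nat_lit 704629) (nat_lit 9) (.e (nat_lit 375) (nat_lit 32) .nil)))))))) (.g (nat_lit 1) (.e (nat_lit 301054) (nat_lit 0) .nil) .nil))) 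
(.lf (nat_lit 552831) (.g (nat_lit 3385) (.e (nat_lit 426129) (nat_lit 3) (.e (nat_lit 204869) (nat_lit 29) (.e (nat_lit 360475) (nat_lit 8) (.e (nat_lit 557091) (nat_lit 12) (.e (nat_lit 171776) (nat_lit 48) (.e (nat_lit 720906) (nat_lit 11) .nil)))))) (.g (nat_lit 1) (.e (nat_lit 301941) (nat_lit 0) .nil) .nil))))) (.nd (nat_lit 8) (.nd (nat_lit 9) 
(.lf (nat_lit 552191) (.g (nat_lit 4503) (.e (nat_lit 426125) (nat_lit 2) (.e (nat_lit 196666) (nat_lit 13) (.e (nat_lit 65610) (nat_lit 10) (.e (nat_lit 344129) (nat_lit 26) (.e (nat_lit 557089) (nat_lit 12) (.e (nat_lit 164017) (nat_lit 44) (.e (nat_lit 688141) (nat_lit 5) (.e (nat_lit 2883) (nat_lit 184) .nil)))))))) (.g (nat_lit 1) (.e (nat_lit 300797) (nat_lit 0) .nil) .nil))) 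
(.lf (nat_lit 552703) (.g (nat_lit 1251) (.e (nat_lit 426129) (nat_lit 3) (.e (nat_lit 204846) (nat_lit 24) (.e (nat_lit 319530) (nat_lit 16) (.e (nat_lit 286735) (nat_lit 3) .nil)))) (.g (nat_lit 0) (.e (nat_lit 301713) (nat_lit 0) .nil) .nil)))) (.nd (nat_lit 9) 
(.lf (nat_lit 552447) (.g (nat_lit 4071) (.e (nat_lit 426125) (nat_lit 2) (.e (nat_lit 196666) (nat_lit 13) (.e (nat_lit 65617) (nat_lit 10) (.e (nat_lit 344130) (nat_lit 26) (.e (nat_lit 557090) (nat_lit 12) (.e (nat_lit 164020) (nat_lit 45) (.e (nat_lit 696328) (nat_lit 5) (.e (nat_lit 2878) (nat_lit 184) .nil)))))))) (.g (nat_lit 1) (.e (nat_lit 301255) (nat_lit 0) .nil) .nil))) 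
(.lf (nat_lit 552959) (.g (nat_lit 1953) (.e (nat_lit 426131) (nat_lit 3) (.e (nat_lit 204846) (nat_lit 24) (.e (nat_lit 319533) (nat_lit 16) (.e (nat_lit 286734) (nat_lit 3) (.e (nat_lit 98365) (nat_lit 26) .nil))))) (.g (nat_lit 0) (.e (nat_lit 302161) (nat_lit 0) .nil) .nil)))))))))))))


end

end Pool.Agent.Lib.MP_5854e1_co.Cz
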