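import Pool.Agent.Lib.MP_5854e1_co.DtD

/-!
# Windows and cells of the rings
-/

set_option autoImplicit false
set_option maxRecDepth 100000
set_option deprecated.oldSectionVars true

namespace Pool.Agent.Lib.MP_5854e1_co.Cz

open Pool.Agent.Lib.MP_5854e1_co

noncomputable section

noncomputable def tv5610 : DT := (.nd (nat_lit 0) (.nd (nat_lit 1) (.nd (nat_lit 2) (.nd (nat_lit 3) (.nd (nat_lit 4) (.nd (nat_lit 5) (.nd (nat_lit 6) (.nd (nat_lit 7) (.nd (nat_lit 8) (.nd (nat_lit 9) 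
(.lf (nat_lit 563200) (.g (nat_lit 1773) (.e (nat_lit 426566) (nat_lit 34) (.e (nat_lit 393293) (nat_lit 26) (.e (nat_lit 475177) (nat_lit 24) (.e (nat_lit 516117) (nat_lit 1) (.e (nat_lit 164330) (nat_lit 230) (.e (nat_lit 171776) (nat_lit 12) .nil)))))) (.g (nat_lit 1) (.e (nat_lit 323182) (nat_lit 0) .nil) .nil))) 
(.lf (nat_lit 563712) (.g (nat_lit 3154) (.e (nat_lit 426569) (nat_lit 35) (.e (nat_lit 401454) (nat_lit 12) (.e (nat_lit 475179) (nat_lit 24) (.e (nat_lit 516117) (nat_lit 1) (.e (nat_lit 164258) (nat_lit 215) .nil))))) (.g (nat_lit 0) (.e (nat_lit 323771) (nat_lit 0) .nil) .nil)))) (.nd (nat_lit 9) 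
(.lf (nat_lit 563456) (.g (nat_lit 2611) (.e (nat_lit 426568) (nat_lit 34) (.e (nat_lit 393253) (nat_lit 18) (.e (nat_lit 164327) (nat_lit 230) (.e (nat_lit 163871) (nat_lit 2) (.e (nat_lit 196656) (nat_lit 11) (.e (nat_lit 16432) (nat_lit 9) .nil)))))) (.g (nat_lit 1) (.e (nat_lit 323477) (nat_lit 0) .nil) .nil))) 
(.lf (nat_lit 563968) (.g (nat_lit 463) (.e (nat_lit 442112) (nat_lit 5) (.e (nat_lit 73730) (nat_lit 0) (.e (nat_lit 7261) (nat_lit 384) (.e (nat_lit 57423) (nat_lit 14) (.e (nat_lit 360192) (nat_lit 12) .nil))))) (.g (nat_lit 0) (.e (nat_lit 324190) (nat_lit 0) .nil) .nil))))) (.nd (nat_lit 8) (.nd (nat_lit 9) 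
(.lf (nat_lit 563328) (.g (nat_lit 1924) (.e (nat_lit 426567) (nat_lit 34) (.e (nat_lit 393251) (nat_lit 18) (.e (nat_lit 164399) (nat_lit 256) (.e (nat_lit 57377) (nat_lit 3) (.e (nat_lit 98365) (nat_lit 26) .nil))))) (.g (nat_lit 0) (.e (nat_lit 323337) (nat_lit 0) .nil) .nil))) 
(.lf (nat_lit 563840) (.g (nat_lit 3406) (.e (nat_lit 434181) (nat_lit 0) (.e (nat_lit 1235) (nat_lit 91) (.e (nat_lit 90170) (nat_lit 13) (.e (nat_lit 172106) (nat_lit 10) (.e (nat_lit 434244) (nat_lit 28) (.e (nat_lit 573451) (nat_lit 9) (.e (nat_lit 7936) (nat_lit 33) .nil))))))) (.g (nat_lit 1) (.e (nat_lit 323998) (nat_lit 0) .nil) .nil)))) (.nd (nat_lit 9) 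
(.lf (nat_lit 563584) (.g (nat_lit 2179) (.e (nat_lit 426568) (nat_lit 34) (.e (nat_lit 393283) (nat_lit 24) (.e (nat_lit 434231) (nat_lit 23) (.e (nat_lit 532500) (nat_lit 1) (.e (nat_lit 57661) (nat_lit 152) (.e (nat_lit 2466) (nat_lit 157) (.e (nat_lit 2845) (nat_lit 184) .nil))))))) (.g (nat_lit 1) (.e (nat_lit 323616) (nat_lit 0) .nil) .nil))) 
(.lf (nat_lit 564096) (.g (nat_lit 2180) (.e (nat_lit 434208) (nat_lit 18) (.e (nat_lit 6252) (nat_lit 337) (.e (nat_lit 2651) (nat_lit 166) (.e (nat_lit 188441) (nat_lit 20) (.e (nat_lit 3469) (nat_lit 217) .nil))))) (.g (nat_lit 0) (.e (nat_lit 324958) (nat_lit 0) .nil) .nil)))))) (.nd (nat_lit 7) (.nd (nat_lit 8) (.nd (nat_lit 9) 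
(.lf (nat_lit 563264) (.g (nat_lit 1774) (.e (nat_lit 426566) (nat_lit 34) (.e (nat_lit 393295) (nat_lit 26) (.e (nat_lit 475176) (nat_lit 24) (.e (nat_lit 516115) (nat_lit 1) (.e (nat_lit 164327) (nat_lit 230) (.e (nat_lit 163907) (nat_lit 12) .nil)))))) (.g (nat_lit 1) (.e (nat_lit 323247) (nat_lit 0) .nil) .nil))) 
(.lf (nat_lit 563776) (.g (nat_lit 2984) (.e (nat_lit 434180) (nat_lit 0) (.e (nat_lit 1253) (nat_lit 92) (.e (nat_lit 98373) (nat_lit 29) (.e (nat_lit 450586) (nat_lit 10) (.e (nat_lit 573452) (nat_lit 9) .nil))))) (.g (nat_lit 0) (.e (nat_lit 323923) (nat_lit 0) .nil) .nil)))) (.nd (nat_lit 9) 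
(.lf (nat_lit 563520) (.g (nat_lit 2615) (.e (nat_lit 426568) (nat_lit 34) (.e (nat_lit 393271) (nat_lit 23) (.e (nat_lit 426131) (nat_lit 3) (.e (nat_lit 204830) (nat_lit 18) (.e (nat_lit 57663) (nat_lit 152) (.e (nat_lit 2476) (nat_lit 157) (.e (nat_lit 2854) (nat_lit 184) .nil))))))) (.g (nat_lit 1) (.e (nat_lit 323544) (nat_lit 0) .nil) .nil))) 
(.lf (nat_lit 564032) (.g (nat_lit 1739) (.e (nat_lit 434187) (nat_lit 13) (.e (nat_lit 2781) (nat_lit 178) (.e (nat_lit 286768) (nat_lit 27) (.e (nat_lit 426340) (nat_lit 14) (.e (nat_lit 491550) (nat_lit 9) (.e (nat_lit 336421) (nat_lit 28) .nil)))))) (.g (nat_lit 1) (.e (nat_lit 324369) (nat_lit 0) .nil) .nil))))) (.nd (nat_lit 8) (.nd (nat_lit 9) 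
(.lf (nat_lit 563392) (.g (nat_lit 1519) (.e (nat_lit 426568) (nat_lit 34) (.e (nat_lit 393250) (nat_lit 18) (.e (nat_lit 164327) (nat_lit 230) (.e (nat_lit 163871) (nat_lit 2) (.e (nat_lit 196656) (nat_lit 11) .nil))))) (.g (nat_lit 0) (.e (nat_lit 323412) (nat_lit 0) .nil) .nil))) 
(.lf (nat_lit 563904) (.g (nat_lit 2341) (.e (nat_lit 442112) (nat_lit 0) (.e (nat_lit 1239) (nat_lit 91) (.e (nat_lit 90170) (nat_lit 13) (.e (nat_lit 172115) (nat_lit 10) .nil)))) (.g (nat_lit 0) (.e (nat_lit 324075) (nat_lit 0) .nil) .nil)))) (.nd (nat_lit 9) 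
(.lf (nat_lit 563648) (.g (nat_lit 4156) (.e (nat_lit 426568) (nat_lit 34) (.e (nat_lit 393294) (nat_lit 26) (.e (nat_lit 475177) (nat_lit 24) (.e (nat_lit 516115) (nat_lit 1) (.e (nat_lit 164327) (nat_lit 230) (.e (nat_lit 163903) (nat_lit 12) .nil)))))) (.g (nat_lit 1) (.e (nat_lit 323690) (nat_lit 0) .nil) .nil))) 
(.lf (nat_lit 564160) (.g (nat_lit 2041) (.e (nat_lit 434212) (nat_lit 18) (.e (nat_lit 5224) (nat_lit 296) (.e (nat_lit 163871) (nat_lit 2) (.e (nat_lit 196654) (nat_lit 11) (.e (nat_lit 16466) (nat_lit 13) (.e (nat_lit 491264) (nat_lit 10) .nil)))))) (.g (nat_lit 1) (.e (nat_lit 325408) (nat_lit 0) .nil) .nil))))))) (.nd (nat_lit 6) (.nd (nat_lit 7) (.nd (nat_lit 8) (.nd (nat_lit 9) 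
(.lf (nat_lit 563232) (.g (nat_lit 3240) (.e (nat_lit 426566) (nat_lit 34) (.e (nat_lit 393294) (nat_lit 26) (.e (nat_lit 475177) (nat_lit 24) (.e (nat_lit 516117) (nat_lit 1) (.e (nat_lit 164329) (nat_lit 230) (.e (nat_lit 163902) (nat_lit 12) .nil)))))) (.g (nat_lit 1) (.e (nat_lit 323214) (nat_lit 0) .nil) .nil))) 
(.lf (nat_lit 563744) (.g (nat_lit 2438) (.e (nat_lit 434179) (nat_lit 0) (.e (nat_lit 1077) (nat_lit 81) (.e (nat_lit 1796) (nat_lit 119) (.e (nat_lit 516166) (nat_lit 12) (.e (nat_lit 450587) (nat_lit 10) (.e (nat_lit 573457) (nat_lit 9) (.e (nat_lit 7936) (nat_lit 33) .nil))))))) (.g (nat_lit 1) (.e (nat_lit 323823) (nat_lit 0) .nil) .nil)))) (.nd (nat_lit 9) 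
(.lf (nat_lit 563488) (.g (nat_lit 3382) (.e (nat_lit 426568) (nat_lit 34) (.e (nat_lit 393266) (nat_lit 23) (.e (nat_lit 426438) (nat_lit 18) (.e (nat_lit 98333) (nat_lit 18) (.e (nat_lit 164325) (nat_lit 230) (.e (nat_lit 163903) (nat_lit 12) .nil)))))) (.g (nat_lit 1) (.e (nat_lit 323511) (nat_lit 0) .nil) .nil))) 
(.lf (nat_lit 564000) (.g (nat_lit 746) (.e (nat_lit 442112) (nat_lit 6) (.e (nat_lit 122936) (nat_lit 23) (.e (nat_lit 516169) (nat_lit 13) (.e (nat_lit 466688) (nat_lit 3) .nil)))) (.g (nat_lit 0) (.e (nat_lit 324249) (nat_lit 0) .nil) .nil))))) (.nd (nat_lit 8) (.nd (nat_lit 9) 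
(.lf (nat_lit 563360) (.g (nat_lit 1885) (.e (nat_lit 426567) (nat_lit 34) (.e (nat_lit 393271) (nat_lit 23) (.e (nat_lit 426438) (nat_lit 18) (.e (nat_lit 98335) (nat_lit 18) (.e (nat_lit 164327) (nat_lit 230) .nil))))) (.g (nat_lit 0) (.e (nat_lit 323370) (nat_lit 0) .nil) .nil))) 
(.lf (nat_lit 563872) (.g (nat_lit 1025) (.e (nat_lit 434181) (nat_lit 0) (.e (nat_lit 1427) (nat_lit 108) (.e (nat_lit 336421) (nat_lit 28) (.e (nat_lit 434179) (nat_lit 0) .nil)))) (.g (nat_lit 0) (.e (nat_lit 324030) (nat_lit 0) .nil) .nil)))) (.nd (nat_lit 9) 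
(.lf (nat_lit 563616) (.g (nat_lit 1230) (.e (nat_lit 426568) (nat_lit 34) (.e (nat_lit 393287) (nat_lit 25) (.e (nat_lit 458789) (nat_lit 23) (.e (nat_lit 532481) (nat_lit 0) .nil)))) (.g (nat_lit 0) (.e (nat_lit 323655) (nat_lit 0) .nil) .nil))) 
(.lf (nat_lit 564128) (.g (nat_lit 1505) (.e (nat_lit 434209) (nat_lit 18) (.e (nat_lit 5546) (nat_lit 306) (.e (nat_lit 2650) (nat_lit 166) (.e (nat_lit 188428) (nat_lit 20) .nil)))) (.g (nat_lit 0) (.e (nat_lit 325191) (nat_lit 0) .nil) .nil)))))) (.nd (nat_lit 7) (.nd (nat_lit 8) (.nd (nat_lit 9) 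
(.lf (nat_lit 563296) (.g (nat_lit 3975) (.e (nat_lit 426566) (nat_lit 34) (.e (nat_lit 393296) (nat_lit 26) (.e (nat_lit 475178) (nat_lit 24) (.e (nat_lit 516119) (nat_lit 1) (.e (nat_lit 164324) (nat_lit 230) (.e (nat_lit 163903) (nat_lit 12) .nil)))))) (.g (nat_lit 1) (.e (nat_lit 323280) (nat_lit 0) .nil) .nil))) 
(.lf (nat_lit 563808) (.g (nat_lit 1236) (.e (nat_lit 434180) (nat_lit 0) (.e (nat_lit 1428) (nat_lit 108) (.e (nat_lit 336414) (nat_lit 27) (.e (nat_lit 425984) (nat_lit 0) (.e (nat_lit 7586) (nat_lit 406) .nil))))) (.g (nat_lit 0) (.e (nat_lit 323956) (nat_lit 0) .nil) .nil)))) (.nd (nat_lit 9) 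
(.lf (nat_lit 563552) (.g (nat_lit 1817) (.e (nat_lit 426568) (nat_lit 34) (.e (nat_lit 393281) (nat_lit 23) (.e (nat_lit 426138) (nat_lit 3) (.e (nat_lit 204829) (nat_lit 18) (.e (nat_lit 57688) (nat_lit 156) .nil))))) (.g (nat_lit 0) (.e (nat_lit 323582) (nat_lit 0) .nil) .nil))) 
(.lf (nat_lit 564064) (.g (nat_lit 904) (.e (nat_lit 434202) (nat_lit 18) (.e (nat_lit 6828) (nat_lit 367) (.e (nat_lit 57437) (nat_lit 17) (.e (nat_lit 376855) (nat_lit 20) .nil)))) (.g (nat_lit 0) (.e (nat_lit 324739) (nat_lit 0) .nil) .nil))))) (.nd (nat_lit 8) (.nd (nat_lit 9) 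
(.lf (nat_lit 563424) (.g (nat_lit 3246) (.e (nat_lit 426568) (nat_lit 34) (.e (nat_lit 393252) (nat_lit 18) (.e (nat_lit 164331) (nat_lit 230) (.e (nat_lit 163873) (nat_lit 3) (.e (nat_lit 204813) (nat_lit 9) (.e (nat_lit 426200) (nat_lit 9) .nil)))))) (.g (nat_lit 1) (.e (nat_lit 323444) (nat_lit 0) .nil) .nil))) 
(.lf (nat_lit 563936) (.g (nat_lit 715) (.e (nat_lit 442112) (nat_lit 4) (.e (nat_lit 65653) (nat_lit 27) (.e (nat_lit 426010) (nat_lit 0) (.e (nat_lit 7587) (nat_lit 406) (.e (nat_lit 73472) (nat_lit 28) .nil))))) (.g (nat_lit 0) (.e (nat_lit 324147) (nat_lit 0) .nil) .nil)))) (.nd (nat_lit 9) 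
(.lf (nat_lit 563680) (.g (nat_lit 1374) (.e (nat_lit 433920) (nat_lit 34) (.e (nat_lit 393253) (nat_lit 18) (.e (nat_lit 164325) (nat_lit 230) (.e (nat_lit 163875) (nat_lit 3) (.e (nat_lit 204811) (nat_lit 9) .nil))))) (.g (nat_lit 0) (.e (nat_lit 323731) (nat_lit 0) .nil) .nil))) 
(.lf (nat_lit 564192) (.g (nat_lit 2269) (.e (nat_lit 434212) (nat_lit 18) (.e (nat_lit 6425) (nat_lit 342) (.e (nat_lit 229415) (nat_lit 15) (.e (nat_lit 458496) (nat_lit 0) .nil)))) (.g (nat_lit 0) (.e (nat_lit 325462) (nat_lit 0) .nil) .nil)))))))) (.nd (nat_lit 5) (.nd (nat_lit 6) (.nd (nat_lit 7) (.nd (nat_lit 8) (.nd (nat_lit 9) 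
(.lf (nat_lit 563216) (.g (nat_lit 1158) (.e (nat_lit 426566) (nat_lit 34) (.e (nat_lit 393294) (nat_lit 26) (.e (nat_lit 475176) (nat_lit 24) (.e (nat_lit 524032) (nat_lit 20) .nil)))) (.g (nat_lit 0) (.e (nat_lit 323198) (nat_lit 0) .nil) .nil))) 
(.lf (nat_lit 563728) (.g (nat_lit 1454) (.e (nat_lit 433920) (nat_lit 35) (.e (nat_lit 401454) (nat_lit 12) (.e (nat_lit 475172) (nat_lit 22) (.e (nat_lit 500076) (nat_lit 20) .nil)))) (.g (nat_lit 0) (.e (nat_lit 323794) (nat_lit 0) .nil) .nil)))) (.nd (nat_lit 9) 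
(.lf (nat_lit 563472) (.g (nat_lit 1083) (.e (nat_lit 426568) (nat_lit 34) (.e (nat_lit 393253) (nat_lit 18) (.e (nat_lit 164402) (nat_lit 256) (.e (nat_lit 57373) (nat_lit 2) .nil)))) (.g (nat_lit 0) (.e (nat_lit 323493) (nat_lit 0) .nil) .nil))) 
(.lf (nat_lit 563984) (.g (nat_lit 1458) (.e (nat_lit 442112) (nat_lit 5) (.e (nat_lit 73775) (nat_lit 26) (.e (nat_lit 778361) (nat_lit 9) (.e (nat_lit 334) (nat_lit 26) (.e (nat_lit 384768) (nat_lit 12) .nil))))) (.g (nat_lit 0) (.e (nat_lit 324213) (nat_lit 0) .nil) .nil))))) (.nd (nat_lit 8) (.nd (nat_lit 9) 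
(.lf (nat_lit 563344) (.g (nat_lit 2419) (.e (nat_lit 426567) (nat_lit 34) (.e (nat_lit 393253) (nat_lit 18) (.e (nat_lit 164332) (nat_lit 230) (.e (nat_lit 163869) (nat_lit 2) (.e (nat_lit 196656) (nat_lit 11) .nil))))) (.g (nat_lit 0) (.e (nat_lit 323354) (nat_lit 0) .nil) .nil))) 
(.lf (nat_lit 563856) (.g (nat_lit 3511) (.e (nat_lit 434181) (nat_lit 0) (.e (nat_lit 1253) (nat_lit 92) (.e (nat_lit 98373) (nat_lit 29) (.e (nat_lit 450587) (nat_lit 10) (.e (nat_lit 573456) (nat_lit 9) (.e (nat_lit 7936) (nat_lit 33) .nil)))))) (.g (nat_lit 1) (.e (nat_lit 324014) (nat_lit 0) .nil) .nil)))) (.nd (nat_lit 9) 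
(.lf (nat_lit 563600) (.g (nat_lit 2230) (.e (nat_lit 426568) (nat_lit 34) (.e (nat_lit 393283) (nat_lit 24) (.e (nat_lit 434248) (nat_lit 28) (.e (nat_lit 573475) (nat_lit 12) (.e (nat_lit 57503) (nat_lit 38) .nil))))) (.g (nat_lit 0) (.e (nat_lit 323635) (nat_lit 0) .nil) .nil))) 
(.lf (nat_lit 564112) (.g (nat_lit 2645) (.e (nat_lit 434209) (nat_lit 18) (.e (nat_lit 5224) (nat_lit 296) (.e (nat_lit 163868) (nat_lit 2) (.e (nat_lit 196654) (nat_lit 11) (.e (nat_lit 16463) (nat_lit 13) (.e (nat_lit 491264) (nat_lit 10) .nil)))))) (.g (nat_lit 1) (.e (nat_lit 325097) (nat_lit 0) .nil) .nil)))))) (.nd (nat_lit 7) (.nd (nat_lit 8) (.nd (nat_lit 9) 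
(.lf (nat_lit 563280) (.g (nat_lit 3450) (.e (nat_lit 426566) (nat_lit 34) (.e (nat_lit 393296) (nat_lit 26) (.e (nat_lit 475177) (nat_lit 24) (.e (nat_lit 516117) (nat_lit 1) (.e (nat_lit 164330) (nat_lit 230) (.e (nat_lit 163905) (nat_lit 12) .nil)))))) (.g (nat_lit 1) (.e (nat_lit 323264) (nat_lit 0) .nil) .nil))) 
(.lf (nat_lit 563792) (.g (nat_lit 185) (.e (nat_lit 434180) (nat_lit 0) (.e (nat_lit 1426) (nat_lit 108) (.e (nat_lit 336421) (nat_lit 28) .nil))) (.g (nat_lit 0) (.e (nat_lit 323939) (nat_lit 0) .nil) .nil)))) (.nd (nat_lit 9) 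
(.lf (nat_lit 563536) (.g (nat_lit 986) (.e (nat_lit 426568) (nat_lit 34) (.e (nat_lit 393275) (nat_lit 23) (.e (nat_lit 426140) (nat_lit 3) (.e (nat_lit 204829) (nat_lit 18) .nil)))) (.g (nat_lit 0) (.e (nat_lit 323564) (nat_lit 0) .nil) .nil))) 
(.lf (nat_lit 564048) (.g (nat_lit 1310) (.e (nat_lit 434200) (nat_lit 18) (.e (nat_lit 6255) (nat_lit 337) (.e (nat_lit 2651) (nat_lit 166) (.e (nat_lit 188439) (nat_lit 20) .nil)))) (.g (nat_lit 0) (.e (nat_lit 324578) (nat_lit 0) .nil) .nil))))) (.nd (nat_lit 8) (.nd (nat_lit 9) 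
(.lf (nat_lit 563408) (.g (nat_lit 2125) (.e (nat_lit 426568) (nat_lit 34) (.e (nat_lit 393251) (nat_lit 18) (.e (nat_lit 164398) (nat_lit 256) (.e (nat_lit 57377) (nat_lit 3) (.e (nat_lit 98365) (nat_lit 26) .nil))))) (.g (nat_lit 0) (.e (nat_lit 323428) (nat_lit 0) .nil) .nil))) 
(.lf (nat_lit 563920) (.g (nat_lit 1327) (.e (nat_lit 442112) (nat_lit 0) (.e (nat_lit 1428) (nat_lit 108) (.e (nat_lit 336421) (nat_lit 28) (.e (nat_lit 434198) (nat_lit 17) (.e (nat_lit 229646) (nat_lit 232) .nil))))) (.g (nat_lit 0) (.e (nat_lit 324091) (nat_lit 0) .nil) .nil)))) (.nd (nat_lit 9) 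
(.lf (nat_lit 563664) (.g (nat_lit 1083) (.e (nat_lit 426568) (nat_lit 34) (.e (nat_lit 393301) (nat_lit 27) (.e (nat_lit 491539) (nat_lit 3) .nil))) (.g (nat_lit 0) (.e (nat_lit 323714) (nat_lit 0) .nil) .nil))) 
(.lf (nat_lit 564176) (.g (nat_lit 3152) (.e (nat_lit 434212) (nat_lit 18) (.e (nat_lit 6425) (nat_lit 342) (.e (nat_lit 229413) (nat_lit 15) (.e (nat_lit 450603) (nat_lit 22) (.e (nat_lit 704738) (nat_lit 11) (.e (nat_lit 16447) (nat_lit 10) .nil)))))) (.g (nat_lit 1) (.e (nat_lit 325446) (nat_lit 0) .nil) .nil))))))) (.nd (nat_lit 6) (.nd (nat_lit 7) (.nd (nat_lit 8) (.nd (nat_lit 9) 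
(.lf (nat_lit 563248) (.g (nat_lit 2295) (.e (nat_lit 426566) (nat_lit 34) (.e (nat_lit 393294) (nat_lit 26) (.e (nat_lit 475177) (nat_lit 24) (.e (nat_lit 516120) (nat_lit 1) (.e (nat_lit 164330) (nat_lit 230) (.e (nat_lit 171776) (nat_lit 12) .nil)))))) (.g (nat_lit 1) (.e (nat_lit 323230) (nat_lit 0) .nil) .nil))) 
(.lf (nat_lit 563760) (.g (nat_lit 1704) (.e (nat_lit 434180) (nat_lit 0) (.e (nat_lit 1234) (nat_lit 91) (.e (nat_lit 90170) (nat_lit 13) (.e (nat_lit 172113) (nat_lit 10) (.e (nat_lit 434248) (nat_lit 28) (.e (nat_lit 573455) (nat_lit 9) (.e (nat_lit 7936) (nat_lit 33) .nil))))))) (.g (nat_lit 1) (.e (nat_lit 323907) (nat_lit 0) .nil) .nil)))) (.nd (nat_lit 9) 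
(.lf (nat_lit 563504) (.g (nat_lit 2158) (.e (nat_lit 426568) (nat_lit 34) (.e (nat_lit 393271) (nat_lit 23) (.e (nat_lit 426131) (nat_lit 3) (.e (nat_lit 204829) (nat_lit 18) (.e (nat_lit 57657) (nat_lit 152) .nil))))) (.g (nat_lit 0) (.e (nat_lit 323528) (nat_lit 0) .nil) .nil))) 
(.lf (nat_lit 564016) (.g (nat_lit 2783) (.e (nat_lit 434184) (nat_lit 8) (.e (nat_lit 2681) (nat_lit 168) (.e (nat_lit 204846) (nat_lit 24) (.e (nat_lit 319530) (nat_lit 16) (.e (nat_lit 286735) (nat_lit 3) .nil))))) (.g (nat_lit 0) (.e (nat_lit 324285) (nat_lit 0) .nil) .nil))))) (.nd (nat_lit 8) (.nd (nat_lit 9) 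
(.lf (nat_lit 563376) (.g (nat_lit 2166) (.e (nat_lit 426567) (nat_lit 34) (.e (nat_lit 393294) (nat_lit 26) (.e (nat_lit 475177) (nat_lit 24) (.e (nat_lit 516115) (nat_lit 1) .nil)))) (.g (nat_lit 0) (.e (nat_lit 323387) (nat_lit 0) .nil) .nil))) 
(.lf (nat_lit 563888) (.g (nat_lit 2797) (.e (nat_lit 434181) (nat_lit 0) (.e (nat_lit 1659) (nat_lit 115) (.e (nat_lit 393260) (nat_lit 21) (.e (nat_lit 409641) (nat_lit 17) (.e (nat_lit 294973) (nat_lit 28) .nil))))) (.g (nat_lit 0) (.e (nat_lit 324047) (nat_lit 0) .nil) .nil)))) (.nd (nat_lit 9) 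
(.lf (nat_lit 563632) (.g (nat_lit 2856) (.e (nat_lit 426568) (nat_lit 34) (.e (nat_lit 393291) (nat_lit 26) (.e (nat_lit 475179) (nat_lit 24) (.e (nat_lit 516120) (nat_lit 1) (.e (nat_lit 164322) (nat_lit 230) (.e (nat_lit 163902) (nat_lit 12) .nil)))))) (.g (nat_lit 1) (.e (nat_lit 323673) (nat_lit 0) .nil) .nil))) 
(.lf (nat_lit 564144) (.g (nat_lit 551) (.e (nat_lit 434209) (nat_lit 18) (.e (nat_lit 5548) (nat_lit 306) (.e (nat_lit 2649) (nat_lit 166) .nil))) (.g (nat_lit 0) (.e (nat_lit 325294) (nat_lit 0) .nil) .nil)))))) (.nd (nat_lit 7) (.nd (nat_lit 8) (.nd (nat_lit 9) 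
(.lf (nat_lit 563312) (.g (nat_lit 2227) (.e (nat_lit 426567) (nat_lit 34) (.e (nat_lit 393251) (nat_lit 18) (.e (nat_lit 164325) (nat_lit 230) (.e (nat_lit 163866) (nat_lit 2) (.e (nat_lit 196654) (nat_lit 11) .nil))))) (.g (nat_lit 0) (.e (nat_lit 323318) (nat_lit 0) .nil) .nil))) 
(.lf (nat_lit 563824) (.g (nat_lit 1219) (.e (nat_lit 434180) (nat_lit 0) (.e (nat_lit 1660) (nat_lit 115) (.e (nat_lit 393260) (nat_lit 21) (.e (nat_lit 409623) (nat_lit 10) .nil)))) (.g (nat_lit 0) (.e (nat_lit 323977) (nat_lit 0) .nil) .nil)))) (.nd (nat_lit 9) 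
(.lf (nat_lit 563568) (.g (nat_lit 2386) (.e (nat_lit 426568) (nat_lit 34) (.e (nat_lit 393282) (nat_lit 24) (.e (nat_lit 434231) (nat_lit 23) (.e (nat_lit 532502) (nat_lit 1) (.e (nat_lit 57692) (nat_lit 156) (.e (nat_lit 163905) (nat_lit 12) .nil)))))) (.g (nat_lit 1) (.e (nat_lit 323598) (nat_lit 0) .nil) .nil))) 
(.lf (nat_lit 564080) (.g (nat_lit 1592) (.e (nat_lit 434207) (nat_lit 18) (.e (nat_lit 6252) (nat_lit 337) (.e (nat_lit 2651) (nat_lit 166) (.e (nat_lit 188440) (nat_lit 20) .nil)))) (.g (nat_lit 0) (.e (nat_lit 324849) (nat_lit 0) .nil) .nil))))) (.nd (nat_lit 8) (.nd (nat_lit 9) 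
(.lf (nat_lit 563440) (.g (nat_lit 2238) (.e (nat_lit 426568) (nat_lit 34) (.e (nat_lit 393253) (nat_lit 18) (.e (nat_lit 164324) (nat_lit 230) (.e (nat_lit 163869) (nat_lit 2) (.e (nat_lit 196656) (nat_lit 11) .nil))))) (.g (nat_lit 0) (.e (nat_lit 323461) (nat_lit 0) .nil) .nil))) 
(.lf (nat_lit 563952) (.g (nat_lit 1097) (.e (nat_lit 442112) (nat_lit 4) (.e (nat_lit 65653) (nat_lit 27) (.e (nat_lit 426344) (nat_lit 14) (.e (nat_lit 491546) (nat_lit 9) .nil)))) (.g (nat_lit 0) (.e (nat_lit 324173) (nat_lit 0) .nil) .nil)))) (.nd (nat_lit 9) 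
(.lf (nat_lit 563696) (.g (nat_lit 1508) (.e (nat_lit 433920) (nat_lit 34) (.e (nat_lit 393254) (nat_lit 18) (.e (nat_lit 164332) (nat_lit 230) (.e (nat_lit 163874) (nat_lit 3) (.e (nat_lit 204811) (nat_lit 9) .nil))))) (.g (nat_lit 0) (.e (nat_lit 323747) (nat_lit 0) .nil) .nil))) 
(.lf (nat_lit 564208) (.g (nat_lit 1760) (.e (nat_lit 434216) (nat_lit 18) (.e (nat_lit 5946) (nat_lit 322) (.e (nat_lit 57377) (nat_lit 3) (.e (nat_lit 98365) (nat_lit 26) (.e (nat_lit 426325) (nat_lit 13) .nil))))) (.g (nat_lit 0) (.e (nat_lit 325511) (nat_lit 0) .nil) .nil))))))))) (.nd (nat_lit 4) (.nd (nat_lit 5) (.nd (nat_lit 6) (.nd (nat_lit 7) (.nd (nat_lit 8) (.nd (nat_lit 9) 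
(.lf (nat_lit 563208) (.g (nat_lit 2485) (.e (nat_lit 426566) (nat_lit 34) (.e (nat_lit 393294) (nat_lit 26) (.e (nat_lit 475175) (nat_lit 24) (.e (nat_lit 516120) (nat_lit 1) (.e (nat_lit 164329) (nat_lit 230) (.e (nat_lit 163904) (nat_lit 12) .nil)))))) (.g (nat_lit 1) (.e (nat_lit 323190) (nat_lit 0) .nil) .nil))) 
(.lf (nat_lit 563720) (.g (nat_lit 1046) (.e (nat_lit 426571) (nat_lit 35) (.e (nat_lit 401454) (nat_lit 12) (.e (nat_lit 475209) (nat_lit 41) .nil))) (.g (nat_lit 0) (.e (nat_lit 323786) (nat_lit 0) .nil) .nil)))) (.nd (nat_lit 9) 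
(.lf (nat_lit 563464) (.g (nat_lit 1026) (.e (nat_lit 426568) (nat_lit 34) (.e (nat_lit 393253) (nat_lit 18) (.e (nat_lit 164331) (nat_lit 230) (.e (nat_lit 163873) (nat_lit 3) .nil)))) (.g (nat_lit 0) (.e (nat_lit 323485) (nat_lit 0) .nil) .nil))) 
(.lf (nat_lit 563976) (.g (nat_lit 894) (.e (nat_lit 442112) (nat_lit 5) (.e (nat_lit 73731) (nat_lit 0) (.e (nat_lit 7265) (nat_lit 384) (.e (nat_lit 57423) (nat_lit 14) (.e (nat_lit 360192) (nat_lit 12) .nil))))) (.g (nat_lit 0) (.e (nat_lit 324199) (nat_lit 0) .nil) .nil))))) (.nd (nat_lit 8) (.nd (nat_lit 9) 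
(.lf (nat_lit 563336) (.g (nat_lit 2238) (.e (nat_lit 426567) (nat_lit 34) (.e (nat_lit 393253) (nat_lit 18) (.e (nat_lit 164325) (nat_lit 230) (.e (nat_lit 163866) (nat_lit 2) .nil)))) (.g (nat_lit 0) (.e (nat_lit 323345) (nat_lit 0) .nil) .nil))) 
(.lf (nat_lit 563848) (.g (nat_lit 2630) (.e (nat_lit 434181) (nat_lit 0) (.e (nat_lit 1252) (nat_lit 92) (.e (nat_lit 98373) (nat_lit 29) (.e (nat_lit 450587) (nat_lit 10) (.e (nat_lit 573457) (nat_lit 9) (.e (nat_lit 7936) (nat_lit 33) .nil)))))) (.g (nat_lit 1) (.e (nat_lit 324006) (nat_lit 0) .nil) .nil)))) (.nd (nat_lit 9) 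
(.lf (nat_lit 563592) (.g (nat_lit 3092) (.e (nat_lit 426568) (nat_lit 34) (.e (nat_lit 393283) (nat_lit 24) (.e (nat_lit 434232) (nat_lit 23) (.e (nat_lit 532504) (nat_lit 1) (.e (nat_lit 57692) (nat_lit 156) (.e (nat_lit 163907) (nat_lit 12) .nil)))))) (.g (nat_lit 1) (.e (nat_lit 323624) (nat_lit 0) .nil) .nil))) 
(.lf (nat_lit 564104) (.g (nat_lit 3139) (.e (nat_lit 434208) (nat_lit 18) (.e (nat_lit 6420) (nat_lit 341) (.e (nat_lit 163923) (nat_lit 15) (.e (nat_lit 450601) (nat_lit 21) (.e (nat_lit 696344) (nat_lit 8) (.e (nat_lit 172113) (nat_lit 10) .nil)))))) (.g (nat_lit 1) (.e (nat_lit 325032) (nat_lit 0) .nil) .nil)))))) (.nd (nat_lit 7) (.nd (nat_lit 8) (.nd (nat_lit 9) 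
(.lf (nat_lit 563272) (.g (nat_lit 2291) (.e (nat_lit 426566) (nat_lit 34) (.e (nat_lit 393296) (nat_lit 26) (.e (nat_lit 475175) (nat_lit 24) (.e (nat_lit 516120) (nat_lit 1) (.e (nat_lit 164332) (nat_lit 230) (.e (nat_lit 163905) (nat_lit 12) .nil)))))) (.g (nat_lit 1) (.e (nat_lit 323256) (nat_lit 0) .nil) .nil))) 
(.lf (nat_lit 563784) (.g (nat_lit 3756) (.e (nat_lit 434180) (nat_lit 0) (.e (nat_lit 1253) (nat_lit 92) (.e (nat_lit 98373) (nat_lit 29) (.e (nat_lit 450588) (nat_lit 10) (.e (nat_lit 573451) (nat_lit 9) (.e (nat_lit 7936) (nat_lit 33) .nil)))))) (.g (nat_lit 1) (.e (nat_lit 323931) (nat_lit 0) .nil) .nil)))) (.nd (nat_lit 9) 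
(.lf (nat_lit 563528) (.g (nat_lit 3547) (.e (nat_lit 426568) (nat_lit 34) (.e (nat_lit 393271) (nat_lit 23) (.e (nat_lit 426131) (nat_lit 3) (.e (nat_lit 204831) (nat_lit 18) (.e (nat_lit 57691) (nat_lit 156) (.e (nat_lit 163905) (nat_lit 12) .nil)))))) (.g (nat_lit 1) (.e (nat_lit 323552) (nat_lit 0) .nil) .nil))) 
(.lf (nat_lit 564040) (.g (nat_lit 309) (.e (nat_lit 434193) (nat_lit 13) (.e (nat_lit 2789) (nat_lit 179) (.e (nat_lit 294973) (nat_lit 28) .nil))) (.g (nat_lit 0) (.e (nat_lit 324494) (nat_lit 0) .nil) .nil))))) (.nd (nat_lit 8) (.nd (nat_lit 9) 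
(.lf (nat_lit 563400) (.g (nat_lit 2581) (.e (nat_lit 426568) (nat_lit 34) (.e (nat_lit 393251) (nat_lit 18) (.e (nat_lit 164330) (nat_lit 230) (.e (nat_lit 163873) (nat_lit 3) (.e (nat_lit 204813) (nat_lit 9) .nil))))) (.g (nat_lit 0) (.e (nat_lit 323420) (nat_lit 0) .nil) .nil))) 
(.lf (nat_lit 563912) (.g (nat_lit 1719) (.e (nat_lit 442112) (nat_lit 0) (.e (nat_lit 1427) (nat_lit 108) (.e (nat_lit 336421) (nat_lit 28) (.e (nat_lit 434198) (nat_lit 17) (.e (nat_lit 229644) (nat_lit 232) .nil))))) (.g (nat_lit 0) (.e (nat_lit 324083) (nat_lit 0) .nil) .nil)))) (.nd (nat_lit 9) 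
(.lf (nat_lit 563656) (.g (nat_lit 2461) (.e (nat_lit 426568) (nat_lit 34) (.e (nat_lit 393294) (nat_lit 26) (.e (nat_lit 475179) (nat_lit 24) (.e (nat_lit 516119) (nat_lit 1) (.e (nat_lit 164332) (nat_lit 230) .nil))))) (.g (nat_lit 0) (.e (nat_lit 323698) (nat_lit 0) .nil) .nil))) 
(.lf (nat_lit 564168) (.g (nat_lit 1088) (.e (nat_lit 434212) (nat_lit 18) (.e (nat_lit 5547) (nat_lit 306) (.e (nat_lit 2640) (nat_lit 165) (.e (nat_lit 180277) (nat_lit 32) (.e (nat_lit 1660) (nat_lit 115) .nil))))) (.g (nat_lit 0) (.e (nat_lit 325435) (nat_lit 0) .nil) .nil))))))) (.nd (nat_lit 6) (.nd (nat_lit 7) (.nd (nat_lit 8) (.nd (nat_lit 9) 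
(.lf (nat_lit 563240) (.g (nat_lit 2681) (.e (nat_lit 426566) (nat_lit 34) (.e (nat_lit 393294) (nat_lit 26) (.e (nat_lit 475177) (nat_lit 24) (.e (nat_lit 516118) (nat_lit 1) (.e (nat_lit 164332) (nat_lit 230) (.e (nat_lit 163901) (nat_lit 12) .nil)))))) (.g (nat_lit 1) (.e (nat_lit 323222) (nat_lit 0) .nil) .nil))) 
(.lf (nat_lit 563752) (.g (nat_lit 3138) (.e (nat_lit 434180) (nat_lit 0) (.e (nat_lit 1234) (nat_lit 91) (.e (nat_lit 90170) (nat_lit 13) (.e (nat_lit 172113) (nat_lit 10) (.e (nat_lit 434242) (nat_lit 28) (.e (nat_lit 573450) (nat_lit 9) (.e (nat_lit 442) (nat_lit 33) .nil))))))) (.g (nat_lit 1) (.e (nat_lit 323899) (nat_lit 0) .nil) .nil)))) (.nd (nat_lit 9) 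
(.lf (nat_lit 563496) (.g (nat_lit 1856) (.e (nat_lit 426568) (nat_lit 34) (.e (nat_lit 393268) (nat_lit 23) (.e (nat_lit 426436) (nat_lit 18) (.e (nat_lit 98333) (nat_lit 18) (.e (nat_lit 164326) (nat_lit 230) .nil))))) (.g (nat_lit 0) (.e (nat_lit 323520) (nat_lit 0) .nil) .nil))) 
(.lf (nat_lit 564008) (.g (nat_lit 372) (.e (nat_lit 442112) (nat_lit 7) (.e (nat_lit 131140) (nat_lit 27) (.e (nat_lit 426313) (nat_lit 12) .nil))) (.g (nat_lit 0) (.e (nat_lit 324272) (nat_lit 0) .nil) .nil))))) (.nd (nat_lit 8) (.nd (nat_lit 9) 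
(.lf (nat_lit 563368) (.g (nat_lit 2673) (.e (nat_lit 426567) (nat_lit 34) (.e (nat_lit 393291) (nat_lit 26) (.e (nat_lit 475179) (nat_lit 24) (.e (nat_lit 516117) (nat_lit 1) (.e (nat_lit 164330) (nat_lit 230) .nil))))) (.g (nat_lit 0) (.e (nat_lit 323379) (nat_lit 0) .nil) .nil))) 
(.lf (nat_lit 563880) (.g (nat_lit 2300) (.e (nat_lit 434181) (nat_lit 0) (.e (nat_lit 1428) (nat_lit 108) (.e (nat_lit 336421) (nat_lit 28) (.e (nat_lit 434186) (nat_lit 13) (.e (nat_lit 2789) (nat_lit 179) (.e (nat_lit 294973) (nat_lit 28) .nil)))))) (.g (nat_lit 1) (.e (nat_lit 324038) (nat_lit 0) .nil) .nil)))) (.nd (nat_lit 9) 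
(.lf (nat_lit 563624) (.g (nat_lit 2151) (.e (nat_lit 426568) (nat_lit 34) (.e (nat_lit 393287) (nat_lit 25) (.e (nat_lit 458789) (nat_lit 23) (.e (nat_lit 532503) (nat_lit 1) (.e (nat_lit 57685) (nat_lit 156) (.e (nat_lit 163905) (nat_lit 12) .nil)))))) (.g (nat_lit 1) (.e (nat_lit 323665) (nat_lit 0) .nil) .nil))) 
(.lf (nat_lit 564136) (.g (nat_lit 3334) (.e (nat_lit 434209) (nat_lit 18) (.e (nat_lit 5547) (nat_lit 306) (.e (nat_lit 2638) (nat_lit 165) (.e (nat_lit 180278) (nat_lit 32) (.e (nat_lit 1661) (nat_lit 115) (.e (nat_lit 393283) (nat_lit 24) .nil)))))) (.g (nat_lit 1) (.e (nat_lit 325235) (nat_lit 0) .nil) .nil)))))) (.nd (nat_lit 7) (.nd (nat_lit 8) (.nd (nat_lit 9) 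
(.lf (nat_lit 563304) (.g (nat_lit 2772) (.e (nat_lit 426566) (nat_lit 34) (.e (nat_lit 393296) (nat_lit 26) (.e (nat_lit 475179) (nat_lit 24) (.e (nat_lit 516106) (nat_lit 0) (.e (nat_lit 2458) (nat_lit 157) .nil))))) (.g (nat_lit 0) (.e (nat_lit 323288) (nat_lit 0) .nil) .nil))) 
(.lf (nat_lit 563816) (.g (nat_lit 1166) (.e (nat_lit 434180) (nat_lit 0) (.e (nat_lit 1428) (nat_lit 108) (.e (nat_lit 336421) (nat_lit 28) (.e (nat_lit 434198) (nat_lit 17) (.e (nat_lit 229647) (nat_lit 232) (.e (nat_lit 7936) (nat_lit 33) .nil)))))) (.g (nat_lit 1) (.e (nat_lit 323964) (nat_lit 0) .nil) .nil)))) (.nd (nat_lit 9) 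
(.lf (nat_lit 563560) (.g (nat_lit 3577) (.e (nat_lit 426568) (nat_lit 34) (.e (nat_lit 393282) (nat_lit 24) (.e (nat_lit 434231) (nat_lit 23) (.e (nat_lit 532499) (nat_lit 1) (.e (nat_lit 57691) (nat_lit 156) (.e (nat_lit 163907) (nat_lit 12) .nil)))))) (.g (nat_lit 1) (.e (nat_lit 323590) (nat_lit 0) .nil) .nil))) 
(.lf (nat_lit 564072) (.g (nat_lit 3818) (.e (nat_lit 434203) (nat_lit 18) (.e (nat_lit 6420) (nat_lit 341) (.e (nat_lit 163908) (nat_lit 12) (.e (nat_lit 426286) (nat_lit 10) (.e (nat_lit 434289) (nat_lit 43) (.e (nat_lit 696344) (nat_lit 8) (.e (nat_lit 172113) (nat_lit 10) .nil))))))) (.g (nat_lit 1) (.e (nat_lit 324794) (nat_lit 0) .nil) .nil))))) (.nd (nat_lit 8) (.nd (nat_lit 9) 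
(.lf (nat_lit 563432) (.g (nat_lit 1602) (.e (nat_lit 426568) (nat_lit 34) (.e (nat_lit 393252) (nat_lit 18) (.e (nat_lit 164401) (nat_lit 256) (.e (nat_lit 57371) (nat_lit 2) (.e (nat_lit 90185) (nat_lit 17) .nil))))) (.g (nat_lit 0) (.e (nat_lit 323452) (nat_lit 0) .nil) .nil))) 
(.lf (nat_lit 563944) (.g (nat_lit 1290) (.e (nat_lit 442112) (nat_lit 4) (.e (nat_lit 65653) (nat_lit 27) (.e (nat_lit 426308) (nat_lit 12) (.e (nat_lit 475209) (nat_lit 41) (.e (nat_lit 712747) (nat_lit 28) .nil))))) (.g (nat_lit 0) (.e (nat_lit 324165) (nat_lit 0) .nil) .nil)))) (.nd (nat_lit 9) 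
(.lf (nat_lit 563688) (.g (nat_lit 1452) (.e (nat_lit 433920) (nat_lit 34) (.e (nat_lit 393253) (nat_lit 18) (.e (nat_lit 164332) (nat_lit 230) (.e (nat_lit 163873) (nat_lit 3) (.e (nat_lit 204811) (nat_lit 9) .nil))))) (.g (nat_lit 0) (.e (nat_lit 323739) (nat_lit 0) .nil) .nil))) 
(.lf (nat_lit 564200) (.g (nat_lit 1884) (.e (nat_lit 434213) (nat_lit 18) (.e (nat_lit 5224) (nat_lit 296) (.e (nat_lit 163868) (nat_lit 2) (.e (nat_lit 196654) (nat_lit 11) (.e (nat_lit 16466) (nat_lit 13) (.e (nat_lit 491264) (nat_lit 10) .nil)))))) (.g (nat_lit 1) (.e (nat_lit 325476) (nat_lit 0) .nil) .nil)))))))) 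
(.nd (nat_lit 5) (.nd (nat_lit 6) (.nd (nat_lit 7) (.nd (nat_lit 8) (.nd (nat_lit 9) 
(.lf (nat_lit 563224) (.g (nat_lit 4359) (.e (nat_lit 426566) (nat_lit 34) (.e (nat_lit 393294) (nat_lit 26) (.e (nat_lit 475177) (nat_lit 24) (.e (nat_lit 516115) (nat_lit 1) (.e (nat_lit 164325) (nat_lit 230) (.e (nat_lit 163906) (nat_lit 12) .nil)))))) (.g (nat_lit 1) (.e (nat_lit 323206) (nat_lit 0) .nil) .nil))) 
(.lf (nat_lit 563736) (.g (nat_lit 3264) (.e (nat_lit 433920) (nat_lit 35) (.e (nat_lit 401454) (nat_lit 12) (.e (nat_lit 475179) (nat_lit 24) (.e (nat_lit 516119) (nat_lit 1) (.e (nat_lit 164347) (nat_lit 240) .nil))))) (.g (nat_lit 0) (.e (nat_lit 323806) (nat_lit 0) .nil) .nil)))) (.nd (nat_lit 9) 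
(.lf (nat_lit 563480) (.g (nat_lit 1129) (.e (nat_lit 426568) (nat_lit 34) (.e (nat_lit 393260) (nat_lit 21) (.e (nat_lit 409616) (nat_lit 10) (.e (nat_lit 604) (nat_lit 45) .nil)))) (.g (nat_lit 0) (.e (nat_lit 323502) (nat_lit 0) .nil) .nil))) 
(.lf (nat_lit 563992) (.g (nat_lit 1152) (.e (nat_lit 442112) (nat_lit 5) (.e (nat_lit 73775) (nat_lit 26) (.e (nat_lit 778466) (nat_lit 11) (.e (nat_lit 24624) (nat_lit 9) .nil)))) (.g (nat_lit 0) (.e (nat_lit 324236) (nat_lit 0) .nil) .nil))))) (.nd (nat_lit 8) (.nd (nat_lit 9) 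
(.lf (nat_lit 563352) (.g (nat_lit 3351) (.e (nat_lit 426567) (nat_lit 34) (.e (nat_lit 393268) (nat_lit 23) (.e (nat_lit 426438) (nat_lit 18) (.e (nat_lit 98335) (nat_lit 18) (.e (nat_lit 164332) (nat_lit 230) (.e (nat_lit 163905) (nat_lit 12) .nil)))))) (.g (nat_lit 1) (.e (nat_lit 323362) (nat_lit 0) .nil) .nil))) 
(.lf (nat_lit 563864) (.g (nat_lit 1294) (.e (nat_lit 434181) (nat_lit 0) (.e (nat_lit 1425) (nat_lit 108) (.e (nat_lit 336421) (nat_lit 28) (.e (nat_lit 434186) (nat_lit 13) (.e (nat_lit 2777) (nat_lit 178) (.e (nat_lit 286770) (nat_lit 28) .nil)))))) (.g (nat_lit 1) (.e (nat_lit 324022) (nat_lit 0) .nil) .nil)))) (.nd (nat_lit 9) 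
(.lf (nat_lit 563608) (.g (nat_lit 1044) (.e (nat_lit 426568) (nat_lit 34) (.e (nat_lit 393286) (nat_lit 25) (.e (nat_lit 458789) (nat_lit 23) (.e (nat_lit 532481) (nat_lit 0) .nil)))) (.g (nat_lit 0) (.e (nat_lit 323645) (nat_lit 0) .nil) .nil))) 
(.lf (nat_lit 564120) (.g (nat_lit 3072) (.e (nat_lit 434209) (nat_lit 18) (.e (nat_lit 5224) (nat_lit 296) (.e (nat_lit 163871) (nat_lit 2) (.e (nat_lit 196656) (nat_lit 11) (.e (nat_lit 16465) (nat_lit 13) (.e (nat_lit 491264) (nat_lit 10) .nil)))))) (.g (nat_lit 1) (.e (nat_lit 325119) (nat_lit 0) .nil) .nil)))))) (.nd (nat_lit 7) (.nd (nat_lit 8) (.nd (nat_lit 9) 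
(.lf (nat_lit 563288) (.g (nat_lit 944) (.e (nat_lit 426566) (nat_lit 34) (.e (nat_lit 393296) (nat_lit 26) (.e (nat_lit 475178) (nat_lit 24) (.e (nat_lit 516114) (nat_lit 1) .nil)))) (.g (nat_lit 0) (.e (nat_lit 323272) (nat_lit 0) .nil) .nil))) 
(.lf (nat_lit 563800) (.g (nat_lit 1136) (.e (nat_lit 434180) (nat_lit 0) (.e (nat_lit 1427) (nat_lit 108) (.e (nat_lit 336421) (nat_lit 28) (.e (nat_lit 434187) (nat_lit 13) .nil)))) (.g (nat_lit 0) (.e (nat_lit 323947) (nat_lit 0) .nil) .nil)))) (.nd (nat_lit 9) 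
(.lf (nat_lit 563544) (.g (nat_lit 3282) (.e (nat_lit 426568) (nat_lit 34) (.e (nat_lit 393281) (nat_lit 23) (.e (nat_lit 426133) (nat_lit 3) (.e (nat_lit 204829) (nat_lit 18) (.e (nat_lit 57692) (nat_lit 156) (.e (nat_lit 163905) (nat_lit 12) .nil)))))) (.g (nat_lit 1) (.e (nat_lit 323574) (nat_lit 0) .nil) .nil))) 
(.lf (nat_lit 564056) (.g (nat_lit 3797) (.e (nat_lit 434202) (nat_lit 18) (.e (nat_lit 6416) (nat_lit 341) (.e (nat_lit 163908) (nat_lit 12) (.e (nat_lit 426286) (nat_lit 10) (.e (nat_lit 434289) (nat_lit 43) (.e (nat_lit 696344) (nat_lit 8) (.e (nat_lit 172106) (nat_lit 10) .nil))))))) (.g (nat_lit 1) (.e (nat_lit 324679) (nat_lit 0) .nil) .nil))))) (.nd (nat_lit 8) (.nd (nat_lit 9) 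
(.lf (nat_lit 563416) (.g (nat_lit 1912) (.e (nat_lit 426568) (nat_lit 34) (.e (nat_lit 393251) (nat_lit 18) (.e (nat_lit 164403) (nat_lit 256) (.e (nat_lit 57377) (nat_lit 3) (.e (nat_lit 98365) (nat_lit 26) .nil))))) (.g (nat_lit 0) (.e (nat_lit 323436) (nat_lit 0) .nil) .nil))) 
(.lf (nat_lit 563928) (.g (nat_lit 1016) (.e (nat_lit 442112) (nat_lit 2) (.e (nat_lit 16483) (nat_lit 27) (.e (nat_lit 336194) (nat_lit 12) (.e (nat_lit 392960) (nat_lit 24) .nil)))) (.g (nat_lit 0) (.e (nat_lit 324102) (nat_lit 0) .nil) .nil)))) (.nd (nat_lit 9) 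
(.lf (nat_lit 563672) (.g (nat_lit 1895) (.e (nat_lit 433920) (nat_lit 34) (.e (nat_lit 393251) (nat_lit 18) (.e (nat_lit 164331) (nat_lit 230) (.e (nat_lit 163873) (nat_lit 3) (.e (nat_lit 204811) (nat_lit 9) .nil))))) (.g (nat_lit 0) (.e (nat_lit 323723) (nat_lit 0) .nil) .nil))) 
(.lf (nat_lit 564184) (.g (nat_lit 2423) (.e (nat_lit 434212) (nat_lit 18) (.e (nat_lit 6425) (nat_lit 342) (.e (nat_lit 229415) (nat_lit 15) (.e (nat_lit 450563) (nat_lit 0) (.e (nat_lit 6255) (nat_lit 337) .nil))))) (.g (nat_lit 0) (.e (nat_lit 325454) (nat_lit 0) .nil) .nil))))))) (.nd (nat_lit 6) (.nd (nat_lit 7) (.nd (nat_lit 8) (.nd (nat_lit 9) 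
(.lf (nat_lit 563256) (.g (nat_lit 3285) (.e (nat_lit 426566) (nat_lit 34) (.e (nat_lit 393294) (nat_lit 26) (.e (nat_lit 475179) (nat_lit 24) (.e (nat_lit 516119) (nat_lit 1) (.e (nat_lit 164325) (nat_lit 230) (.e (nat_lit 163906) (nat_lit 12) .nil)))))) (.g (nat_lit 1) (.e (nat_lit 323239) (nat_lit 0) .nil) .nil))) 
(.lf (nat_lit 563768) (.g (nat_lit 3100) (.e (nat_lit 434180) (nat_lit 0) (.e (nat_lit 1235) (nat_lit 91) (.e (nat_lit 90170) (nat_lit 13) (.e (nat_lit 172113) (nat_lit 10) (.e (nat_lit 434248) (nat_lit 28) (.e (nat_lit 573452) (nat_lit 9) (.e (nat_lit 7936) (nat_lit 33) .nil))))))) (.g (nat_lit 1) (.e (nat_lit 323915) (nat_lit 0) .nil) .nil)))) (.nd (nat_lit 9) 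
(.lf (nat_lit 563512) (.g (nat_lit 1962) (.e (nat_lit 426568) (nat_lit 34) (.e (nat_lit 393271) (nat_lit 23) (.e (nat_lit 426131) (nat_lit 3) (.e (nat_lit 204830) (nat_lit 18) (.e (nat_lit 57661) (nat_lit 152) .nil))))) (.g (nat_lit 0) (.e (nat_lit 323536) (nat_lit 0) .nil) .nil))) 
(.lf (nat_lit 564024) (.g (nat_lit 1011) (.e (nat_lit 442112) (nat_lit 8) (.e (nat_lit 2684) (nat_lit 168) (.e (nat_lit 204846) (nat_lit 24) (.e (nat_lit 319511) (nat_lit 10) .nil)))) (.g (nat_lit 0) (.e (nat_lit 324312) (nat_lit 0) .nil) .nil))))) (.nd (nat_lit 8) (.nd (nat_lit 9) 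
(.lf (nat_lit 563384) (.g (nat_lit 2743) (.e (nat_lit 426567) (nat_lit 34) (.e (nat_lit 393294) (nat_lit 26) (.e (nat_lit 475179) (nat_lit 24) (.e (nat_lit 516117) (nat_lit 1) (.e (nat_lit 164330) (nat_lit 230) (.e (nat_lit 163905) (nat_lit 12) .nil)))))) (.g (nat_lit 1) (.e (nat_lit 323395) (nat_lit 0) .nil) .nil))) 
(.lf (nat_lit 563896) (.g (nat_lit 1196) (.e (nat_lit 434181) (nat_lit 0) (.e (nat_lit 1660) (nat_lit 115) (.e (nat_lit 393260) (nat_lit 21) (.e (nat_lit 417536) (nat_lit 17) .nil)))) (.g (nat_lit 0) (.e (nat_lit 324056) (nat_lit 0) .nil) .nil)))) (.nd (nat_lit 9) 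
(.lf (nat_lit 563640) (.g (nat_lit 1715) (.e (nat_lit 426568) (nat_lit 34) (.e (nat_lit 393293) (nat_lit 26) (.e (nat_lit 475177) (nat_lit 24) (.e (nat_lit 516119) (nat_lit 1) (.e (nat_lit 164332) (nat_lit 230) .nil))))) (.g (nat_lit 0) (.e (nat_lit 323681) (nat_lit 0) .nil) .nil))) 
(.lf (nat_lit 564152) (.g (nat_lit 1510) (.e (nat_lit 434209) (nat_lit 18) (.e (nat_lit 6425) (nat_lit 342) (.e (nat_lit 229415) (nat_lit 15) (.e (nat_lit 458496) (nat_lit 21) .nil)))) (.g (nat_lit 0) (.e (nat_lit 325351) (nat_lit 0) .nil) .nil)))))) (.nd (nat_lit 7) (.nd (nat_lit 8) (.nd (nat_lit 9) 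
(.lf (nat_lit 563320) (.g (nat_lit 1255) (.e (nat_lit 426567) (nat_lit 34) (.e (nat_lit 393251) (nat_lit 18) (.e (nat_lit 164331) (nat_lit 230) .nil))) (.g (nat_lit 0) (.e (nat_lit 323326) (nat_lit 0) .nil) .nil))) 
(.lf (nat_lit 563832) (.g (nat_lit 3457) (.e (nat_lit 434181) (nat_lit 0) (.e (nat_lit 1234) (nat_lit 91) (.e (nat_lit 90170) (nat_lit 13) (.e (nat_lit 172113) (nat_lit 10) (.e (nat_lit 434247) (nat_lit 28) (.e (nat_lit 573456) (nat_lit 9) (.e (nat_lit 7936) (nat_lit 33) .nil))))))) (.g (nat_lit 1) (.e (nat_lit 323990) (nat_lit 0) .nil) .nil)))) (.nd (nat_lit 9) 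
(.lf (nat_lit 563576) (.g (nat_lit 2362) (.e (nat_lit 426568) (nat_lit 34) (.e (nat_lit 393283) (nat_lit 24) (.e (nat_lit 434231) (nat_lit 23) (.e (nat_lit 532483) (nat_lit 0) (.e (nat_lit 1030) (nat_lit 81) .nil))))) (.g (nat_lit 0) (.e (nat_lit 323608) (nat_lit 0) .nil) .nil))) 
(.lf (nat_lit 564088) (.g (nat_lit 2337) (.e (nat_lit 434208) (nat_lit 18) (.e (nat_lit 4527) (nat_lit 265) (.e (nat_lit 57373) (nat_lit 2) (.e (nat_lit 90160) (nat_lit 11) (.e (nat_lit 24617) (nat_lit 7) .nil))))) (.g (nat_lit 0) (.e (nat_lit 324941) (nat_lit 0) .nil) .nil))))) (.nd (nat_lit 8) (.nd (nat_lit 9) 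
(.lf (nat_lit 563448) (.g (nat_lit 991) (.e (nat_lit 426568) (nat_lit 34) (.e (nat_lit 393253) (nat_lit 18) (.e (nat_lit 164325) (nat_lit 230) (.e (nat_lit 163875) (nat_lit 3) .nil)))) (.g (nat_lit 0) (.e (nat_lit 323469) (nat_lit 0) .nil) .nil))) 
(.lf (nat_lit 563960) (.g (nat_lit 1432) (.e (nat_lit 442112) (nat_lit 5) (.e (nat_lit 73729) (nat_lit 0) (.e (nat_lit 7263) (nat_lit 384) (.e (nat_lit 57423) (nat_lit 14) (.e (nat_lit 360192) (nat_lit 12) .nil))))) (.g (nat_lit 0) (.e (nat_lit 324182) (nat_lit 0) .nil) .nil)))) (.nd (nat_lit 9) 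
(.lf (nat_lit 563704) (.g (nat_lit 1117) (.e (nat_lit 433920) (nat_lit 34) (.e (nat_lit 393296) (nat_lit 26) (.e (nat_lit 475178) (nat_lit 24) (.e (nat_lit 516120) (nat_lit 1) (.e (nat_lit 164329) (nat_lit 230) .nil))))) (.g (nat_lit 0) (.e (nat_lit 323755) (nat_lit 0) .nil) .nil))) 
(.lf (nat_lit 564216) (.g (nat_lit 2544) (.e (nat_lit 434216) (nat_lit 18) (.e (nat_lit 5949) (nat_lit 322) (.e (nat_lit 57378) (nat_lit 3) (.e (nat_lit 98365) (nat_lit 26) (.e (nat_lit 426327) (nat_lit 13) (.e (nat_lit 491264) (nat_lit 10) .nil)))))) (.g (nat_lit 1) (.e (nat_lit 325520) (nat_lit 0) .nil) .nil)))))))))) 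
(.nd (nat_lit 3) (.nd (nat_lit 4) (.nd (nat_lit 5) (.nd (nat_lit 6) (.nd (nat_lit 7) 
(.nd (nat_lit 8) (.nd (nat_lit 9) 
(.lf (nat_lit 563204) (.g (nat_lit 2404) (.e (nat_lit 426566) (nat_lit 34) (.e (nat_lit 393293) (nat_lit 26) (.e (nat_lit 475179) (nat_lit 24) (.e (nat_lit 516119) (nat_lit 1) (.e (nat_lit 164327) (nat_lit 230) (.e (nat_lit 163907) (nat_lit 12) .nil)))))) (.g (nat_lit 1) (.e (nat_lit 323186) (nat_lit 0) .nil) .nil))) 
(.lf (nat_lit 563716) (.g (nat_lit 3082) (.e (nat_lit 426569) (nat_lit 35) (.e (nat_lit 401454) (nat_lit 12) (.e (nat_lit 475179) (nat_lit 24) (.e (nat_lit 516120) (nat_lit 1) (.e (nat_lit 164304) (nat_lit 226) .nil))))) (.g (nat_lit 0) (.e (nat_lit 323775) (nat_lit 0) .nil) .nil)))) (.nd (nat_lit 9) 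
(.lf (nat_lit 563460) (.g (nat_lit 2704) (.e (nat_lit 426568) (nat_lit 34) (.e (nat_lit 393253) (nat_lit 18) (.e (nat_lit 164327) (nat_lit 230) (.e (nat_lit 163875) (nat_lit 3) (.e (nat_lit 204809) (nat_lit 9) .nil))))) (.g (nat_lit 0) (.e (nat_lit 323481) (nat_lit 0) .nil) .nil))) 
(.lf (nat_lit 563972) (.g (nat_lit 681) (.e (nat_lit 442112) (nat_lit 5) (.e (nat_lit 73731) (nat_lit 0) (.e (nat_lit 7261) (nat_lit 384) (.e (nat_lit 57423) (nat_lit 14) (.e (nat_lit 360192) (nat_lit 12) .nil))))) (.g (nat_lit 0) (.e (nat_lit 324194) (nat_lit 0) .nil) .nil))))) (.nd (nat_lit 8) (.nd (nat_lit 9) 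
(.lf (nat_lit 563332) (.g (nat_lit 1844) (.e (nat_lit 426567) (nat_lit 34) (.e (nat_lit 393251) (nat_lit 18) (.e (nat_lit 164403) (nat_lit 256) (.e (nat_lit 57378) (nat_lit 3) .nil)))) (.g (nat_lit 0) (.e (nat_lit 323341) (nat_lit 0) .nil) .nil))) 
(.lf (nat_lit 563844) (.g (nat_lit 3152) (.e (nat_lit 434181) (nat_lit 0) (.e (nat_lit 1235) (nat_lit 91) (.e (nat_lit 90170) (nat_lit 13) (.e (nat_lit 172113) (nat_lit 10) (.e (nat_lit 434248) (nat_lit 28) (.e (nat_lit 573452) (nat_lit 9) (.e (nat_lit 7936) (nat_lit 33) .nil))))))) (.g (nat_lit 1) (.e (nat_lit 324002) (nat_lit 0) .nil) .nil)))) (.nd (nat_lit 9) 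
(.lf (nat_lit 563588) (.g (nat_lit 3494) (.e (nat_lit 426568) (nat_lit 34) (.e (nat_lit 393283) (nat_lit 24) (.e (nat_lit 434231) (nat_lit 23) (.e (nat_lit 532500) (nat_lit 1) (.e (nat_lit 57689) (nat_lit 156) (.e (nat_lit 163907) (nat_lit 12) .nil)))))) (.g (nat_lit 1) (.e (nat_lit 323620) (nat_lit 0) .nil) .nil))) 
(.lf (nat_lit 564100) (.g (nat_lit 1541) (.e (nat_lit 434208) (nat_lit 18) (.e (nat_lit 6420) (nat_lit 341) (.e (nat_lit 163902) (nat_lit 12) (.e (nat_lit 426229) (nat_lit 9) .nil)))) (.g (nat_lit 0) (.e (nat_lit 325011) (nat_lit 0) .nil) .nil)))))) (.nd (nat_lit 7) (.nd (nat_lit 8) (.nd (nat_lit 9) 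
(.lf (nat_lit 563268) (.g (nat_lit 2690) (.e (nat_lit 426566) (nat_lit 34) (.e (nat_lit 393296) (nat_lit 26) (.e (nat_lit 475175) (nat_lit 24) (.e (nat_lit 516119) (nat_lit 1) (.e (nat_lit 164327) (nat_lit 230) (.e (nat_lit 163907) (nat_lit 12) .nil)))))) (.g (nat_lit 1) (.e (nat_lit 323252) (nat_lit 0) .nil) .nil))) 
(.lf (nat_lit 563780) (.g (nat_lit 3928) (.e (nat_lit 434180) (nat_lit 0) (.e (nat_lit 1253) (nat_lit 92) (.e (nat_lit 98373) (nat_lit 29) (.e (nat_lit 450587) (nat_lit 10) (.e (nat_lit 573455) (nat_lit 9) (.e (nat_lit 7936) (nat_lit 33) .nil)))))) (.g (nat_lit 1) (.e (nat_lit 323927) (nat_lit 0) .nil) .nil)))) (.nd (nat_lit 9) 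
(.lf (nat_lit 563524) (.g (nat_lit 4257) (.e (nat_lit 426568) (nat_lit 34) (.e (nat_lit 393271) (nat_lit 23) (.e (nat_lit 426131) (nat_lit 3) (.e (nat_lit 204830) (nat_lit 18) (.e (nat_lit 57691) (nat_lit 156) (.e (nat_lit 163905) (nat_lit 12) .nil)))))) (.g (nat_lit 1) (.e (nat_lit 323548) (nat_lit 0) .nil) .nil))) 
(.lf (nat_lit 564036) (.g (nat_lit 210) (.e (nat_lit 434192) (nat_lit 13) (.e (nat_lit 2788) (nat_lit 179) (.e (nat_lit 294973) (nat_lit 28) .nil))) (.g (nat_lit 0) (.e (nat_lit 324460) (nat_lit 0) .nil) .nil))))) (.nd (nat_lit 8) (.nd (nat_lit 9) 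
(.lf (nat_lit 563396) (.g (nat_lit 977) (.e (nat_lit 426568) (nat_lit 34) (.e (nat_lit 393251) (nat_lit 18) (.e (nat_lit 164325) (nat_lit 230) (.e (nat_lit 163875) (nat_lit 3) .nil)))) (.g (nat_lit 0) (.e (nat_lit 323416) (nat_lit 0) .nil) .nil))) 
(.lf (nat_lit 563908) (.g (nat_lit 2731) (.e (nat_lit 442112) (nat_lit 0) (.e (nat_lit 1256) (nat_lit 92) (.e (nat_lit 98373) (nat_lit 29) (.e (nat_lit 450588) (nat_lit 10) (.e (nat_lit 573457) (nat_lit 9) .nil))))) (.g (nat_lit 0) (.e (nat_lit 324079) (nat_lit 0) .nil) .nil)))) (.nd (nat_lit 9) 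
(.lf (nat_lit 563652) (.g (nat_lit 2816) (.e (nat_lit 426568) (nat_lit 34) (.e (nat_lit 393294) (nat_lit 26) (.e (nat_lit 475177) (nat_lit 24) (.e (nat_lit 516119) (nat_lit 1) (.e (nat_lit 164332) (nat_lit 230) (.e (nat_lit 163902) (nat_lit 12) .nil)))))) (.g (nat_lit 1) (.e (nat_lit 323694) (nat_lit 0) .nil) .nil))) 
(.lf (nat_lit 564164) (.g (nat_lit 475) (.e (nat_lit 434212) (nat_lit 18) (.e (nat_lit 5546) (nat_lit 306) (.e (nat_lit 2639) (nat_lit 165) .nil))) (.g (nat_lit 0) (.e (nat_lit 325428) (nat_lit 0) .nil) .nil))))))) (.nd (nat_lit 6) (.nd (nat_lit 7) (.nd (nat_lit 8) (.nd (nat_lit 9) 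
(.lf (nat_lit 563236) (.g (nat_lit 2535) (.e (nat_lit 426566) (nat_lit 34) (.e (nat_lit 393294) (nat_lit 26) (.e (nat_lit 475177) (nat_lit 24) (.e (nat_lit 516118) (nat_lit 1) (.e (nat_lit 164325) (nat_lit 230) (.e (nat_lit 163901) (nat_lit 12) .nil)))))) (.g (nat_lit 1) (.e (nat_lit 323218) (nat_lit 0) .nil) .nil))) 
(.lf (nat_lit 563748) (.g (nat_lit 2113) (.e (nat_lit 434179) (nat_lit 0) (.e (nat_lit 1515) (nat_lit 108) (.e (nat_lit 336420) (nat_lit 28) (.e (nat_lit 434180) (nat_lit 0) (.e (nat_lit 1427) (nat_lit 108) (.e (nat_lit 336421) (nat_lit 28) .nil)))))) (.g (nat_lit 1) (.e (nat_lit 323872) (nat_lit 0) .nil) .nil)))) (.nd (nat_lit 9) 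
(.lf (nat_lit 563492) (.g (nat_lit 504) (.e (nat_lit 426568) (nat_lit 34) (.e (nat_lit 393268) (nat_lit 23) (.e (nat_lit 426428) (nat_lit 17) .nil))) (.g (nat_lit 0) (.e (nat_lit 323515) (nat_lit 0) .nil) .nil))) 
(.lf (nat_lit 564004) (.g (nat_lit 1312) (.e (nat_lit 442112) (nat_lit 7) (.e (nat_lit 131140) (nat_lit 27) (.e (nat_lit 426305) (nat_lit 12) (.e (nat_lit 475211) (nat_lit 41) .nil)))) (.g (nat_lit 0) (.e (nat_lit 324267) (nat_lit 0) .nil) .nil))))) (.nd (nat_lit 8) (.nd (nat_lit 9) 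
(.lf (nat_lit 563364) (.g (nat_lit 1490) (.e (nat_lit 426567) (nat_lit 34) (.e (nat_lit 393291) (nat_lit 26) (.e (nat_lit 475177) (nat_lit 24) (.e (nat_lit 516117) (nat_lit 1) .nil)))) (.g (nat_lit 0) (.e (nat_lit 323375) (nat_lit 0) .nil) .nil))) 
(.lf (nat_lit 563876) (.g (nat_lit 1908) (.e (nat_lit 434181) (nat_lit 0) (.e (nat_lit 1427) (nat_lit 108) (.e (nat_lit 336421) (nat_lit 28) (.e (nat_lit 434197) (nat_lit 16) (.e (nat_lit 164339) (nat_lit 232) (.e (nat_lit 446) (nat_lit 33) .nil)))))) (.g (nat_lit 1) (.e (nat_lit 324034) (nat_lit 0) .nil) .nil)))) (.nd (nat_lit 9) 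
(.lf (nat_lit 563620) (.g (nat_lit 3337) (.e (nat_lit 426568) (nat_lit 34) (.e (nat_lit 393287) (nat_lit 25) (.e (nat_lit 458789) (nat_lit 23) (.e (nat_lit 532501) (nat_lit 1) (.e (nat_lit 57691) (nat_lit 156) (.e (nat_lit 163907) (nat_lit 12) .nil)))))) (.g (nat_lit 1) (.e (nat_lit 323661) (nat_lit 0) .nil) .nil))) 
(.lf (nat_lit 564132) (.g (nat_lit 4512) (.e (nat_lit 434209) (nat_lit 18) (.e (nat_lit 5547) (nat_lit 306) (.e (nat_lit 2611) (nat_lit 163) (.e (nat_lit 163977) (nat_lit 30) (.e (nat_lit 573482) (nat_lit 13) (.e (nat_lit 65604) (nat_lit 9) (.e (nat_lit 336028) (nat_lit 3) (.e (nat_lit 98367) (nat_lit 27) .nil)))))))) (.g (nat_lit 1) (.e (nat_lit 325211) (nat_lit 0) .nil) .nil)))))) 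
(.nd (nat_lit 7) (.nd (nat_lit 8) (.nd (nat_lit 9) 
(.lf (nat_lit 563300) (.g (nat_lit 2267) (.e (nat_lit 426566) (nat_lit 34) (.e (nat_lit 393296) (nat_lit 26) (.e (nat_lit 475178) (nat_lit 24) (.e (nat_lit 516119) (nat_lit 1) (.e (nat_lit 164330) (nat_lit 230) (.e (nat_lit 163902) (nat_lit 12) .nil)))))) (.g (nat_lit 1) (.e (nat_lit 323284) (nat_lit 0) .nil) .nil))) 
(.lf (nat_lit 563812) (.g (nat_lit 2033) (.e (nat_lit 434180) (nat_lit 0) (.e (nat_lit 1428) (nat_lit 108) (.e (nat_lit 336421) (nat_lit 28) (.e (nat_lit 434189) (nat_lit 13) (.e (nat_lit 2789) (nat_lit 179) (.e (nat_lit 294973) (nat_lit 28) .nil)))))) (.g (nat_lit 1) (.e (nat_lit 323960) (nat_lit 0) .nil) .nil)))) (.nd (nat_lit 9) 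
(.lf (nat_lit 563556) (.g (nat_lit 2280) (.e (nat_lit 426568) (nat_lit 34) (.e (nat_lit 393282) (nat_lit 24) (.e (nat_lit 434231) (nat_lit 23) (.e (nat_lit 532483) (nat_lit 0) .nil)))) (.g (nat_lit 0) (.e (nat_lit 323586) (nat_lit 0) .nil) .nil))) 
(.lf (nat_lit 564068) (.g (nat_lit 2201) (.e (nat_lit 434203) (nat_lit 18) (.e (nat_lit 6252) (nat_lit 337) (.e (nat_lit 2651) (nat_lit 166) (.e (nat_lit 188434) (nat_lit 20) (.e (nat_lit 3469) (nat_lit 217) .nil))))) (.g (nat_lit 0) (.e (nat_lit 324749) (nat_lit 0) .nil) .nil))))) (.nd (nat_lit 8) (.nd (nat_lit 9) 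
(.lf (nat_lit 563428) (.g (nat_lit 1866) (.e (nat_lit 426568) (nat_lit 34) (.e (nat_lit 393252) (nat_lit 18) (.e (nat_lit 164398) (nat_lit 256) (.e (nat_lit 57371) (nat_lit 2) (.e (nat_lit 90185) (nat_lit 17) .nil))))) (.g (nat_lit 0) (.e (nat_lit 323448) (nat_lit 0) .nil) .nil))) 
(.lf (nat_lit 563940) (.g (nat_lit 1303) (.e (nat_lit 442112) (nat_lit 4) (.e (nat_lit 65653) (nat_lit 27) (.e (nat_lit 426012) (nat_lit 0) (.e (nat_lit 7587) (nat_lit 406) (.e (nat_lit 73472) (nat_lit 28) .nil))))) (.g (nat_lit 0) (.e (nat_lit 324151) (nat_lit 0) .nil) .nil)))) (.nd (nat_lit 9) 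
(.lf (nat_lit 563684) (.g (nat_lit 1044) (.e (nat_lit 433920) (nat_lit 34) (.e (nat_lit 393253) (nat_lit 18) (.e (nat_lit 164330) (nat_lit 230) (.e (nat_lit 163873) (nat_lit 3) .nil)))) (.g (nat_lit 0) (.e (nat_lit 323735) (nat_lit 0) .nil) .nil))) 
(.lf (nat_lit 564196) (.g (nat_lit 2227) (.e (nat_lit 434212) (nat_lit 18) (.e (nat_lit 6425) (nat_lit 342) (.e (nat_lit 229415) (nat_lit 15) (.e (nat_lit 450604) (nat_lit 22) (.e (nat_lit 704736) (nat_lit 11) .nil))))) (.g (nat_lit 0) (.e (nat_lit 325467) (nat_lit 0) .nil) .nil)))))))) (.nd (nat_lit 5) (.nd (nat_lit 6) (.nd (nat_lit 7) (.nd (nat_lit 8) (.nd (nat_lit 9) 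
(.lf (nat_lit 563220) (.g (nat_lit 2897) (.e (nat_lit 426566) (nat_lit 34) (.e (nat_lit 393294) (nat_lit 26) (.e (nat_lit 475177) (nat_lit 24) (.e (nat_lit 516115) (nat_lit 1) (.e (nat_lit 164300) (nat_lit 226) .nil))))) (.g (nat_lit 0) (.e (nat_lit 323202) (nat_lit 0) .nil) .nil))) 
(.lf (nat_lit 563732) (.g (nat_lit 1916) (.e (nat_lit 433920) (nat_lit 35) (.e (nat_lit 401454) (nat_lit 12) (.e (nat_lit 475177) (nat_lit 24) (.e (nat_lit 516119) (nat_lit 1) .nil)))) (.g (nat_lit 0) (.e (nat_lit 323802) (nat_lit 0) .nil) .nil)))) (.nd (nat_lit 9) 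
(.lf (nat_lit 563476) (.g (nat_lit 1374) (.e (nat_lit 426568) (nat_lit 34) (.e (nat_lit 393253) (nat_lit 18) (.e (nat_lit 164403) (nat_lit 256) (.e (nat_lit 57378) (nat_lit 3) (.e (nat_lit 98365) (nat_lit 26) .nil))))) (.g (nat_lit 0) (.e (nat_lit 323497) (nat_lit 0) .nil) .nil))) 
(.lf (nat_lit 563988) (.g (nat_lit 1629) (.e (nat_lit 442112) (nat_lit 5) (.e (nat_lit 73775) (nat_lit 26) (.e (nat_lit 778465) (nat_lit 11) (.e (nat_lit 24624) (nat_lit 9) .nil)))) (.g (nat_lit 0) (.e (nat_lit 324229) (nat_lit 0) .nil) .nil))))) (.nd (nat_lit 8) (.nd (nat_lit 9) 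
(.lf (nat_lit 563348) (.g (nat_lit 2660) (.e (nat_lit 426567) (nat_lit 34) (.e (nat_lit 393260) (nat_lit 21) (.e (nat_lit 409617) (nat_lit 10) (.e (nat_lit 604) (nat_lit 45) (.e (nat_lit 532513) (nat_lit 3) (.e (nat_lit 122624) (nat_lit 11) .nil)))))) (.g (nat_lit 1) (.e (nat_lit 323358) (nat_lit 0) .nil) .nil))) 
(.lf (nat_lit 563860) (.g (nat_lit 3675) (.e (nat_lit 434181) (nat_lit 0) (.e (nat_lit 1253) (nat_lit 92) (.e (nat_lit 98373) (nat_lit 29) (.e (nat_lit 450588) (nat_lit 10) (.e (nat_lit 573452) (nat_lit 9) (.e (nat_lit 7936) (nat_lit 33) .nil)))))) (.g (nat_lit 1) (.e (nat_lit 324018) (nat_lit 0) .nil) .nil)))) (.nd (nat_lit 9) 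
(.lf (nat_lit 563604) (.g (nat_lit 393) (.e (nat_lit 426568) (nat_lit 34) (.e (nat_lit 393284) (nat_lit 24) (.e (nat_lit 434233) (nat_lit 23) .nil))) (.g (nat_lit 0) (.e (nat_lit 323639) (nat_lit 0) .nil) .nil))) 
(.lf (nat_lit 564116) (.g (nat_lit 2696) (.e (nat_lit 434209) (nat_lit 18) (.e (nat_lit 5224) (nat_lit 296) (.e (nat_lit 163871) (nat_lit 2) (.e (nat_lit 196654) (nat_lit 11) (.e (nat_lit 16463) (nat_lit 13) (.e (nat_lit 491264) (nat_lit 10) .nil)))))) (.g (nat_lit 1) (.e (nat_lit 325108) (nat_lit 0) .nil) .nil)))))) (.nd (nat_lit 7) (.nd (nat_lit 8) (.nd (nat_lit 9) 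
(.lf (nat_lit 563284) (.g (nat_lit 3130) (.e (nat_lit 426566) (nat_lit 34) (.e (nat_lit 393296) (nat_lit 26) (.e (nat_lit 475177) (nat_lit 24) (.e (nat_lit 516118) (nat_lit 1) (.e (nat_lit 164332) (nat_lit 230) (.e (nat_lit 163905) (nat_lit 12) .nil)))))) (.g (nat_lit 1) (.e (nat_lit 323268) (nat_lit 0) .nil) .nil))) 
(.lf (nat_lit 563796) (.g (nat_lit 2424) (.e (nat_lit 434180) (nat_lit 0) (.e (nat_lit 1427) (nat_lit 108) (.e (nat_lit 336421) (nat_lit 28) (.e (nat_lit 434178) (nat_lit 0) (.e (nat_lit 1512) (nat_lit 108) (.e (nat_lit 336420) (nat_lit 28) .nil)))))) (.g (nat_lit 1) (.e (nat_lit 323943) (nat_lit 0) .nil) .nil)))) (.nd (nat_lit 9) 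
(.lf (nat_lit 563540) (.g (nat_lit 2887) (.e (nat_lit 426568) (nat_lit 34) (.e (nat_lit 393279) (nat_lit 23) (.e (nat_lit 426129) (nat_lit 3) (.e (nat_lit 204829) (nat_lit 18) (.e (nat_lit 57692) (nat_lit 156) (.e (nat_lit 163907) (nat_lit 12) .nil)))))) (.g (nat_lit 1) (.e (nat_lit 323568) (nat_lit 0) .nil) .nil))) 
(.lf (nat_lit 564052) (.g (nat_lit 1189) (.e (nat_lit 434202) (nat_lit 18) (.e (nat_lit 6255) (nat_lit 337) (.e (nat_lit 2651) (nat_lit 166) (.e (nat_lit 188439) (nat_lit 20) .nil)))) (.g (nat_lit 0) (.e (nat_lit 324656) (nat_lit 0) .nil) .nil))))) (.nd (nat_lit 8) (.nd (nat_lit 9) 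
(.lf (nat_lit 563412) (.g (nat_lit 292) (.e (nat_lit 426568) (nat_lit 34) (.e (nat_lit 393251) (nat_lit 18) (.e (nat_lit 164399) (nat_lit 256) .nil))) (.g (nat_lit 0) (.e (nat_lit 323432) (nat_lit 0) .nil) .nil))) 
(.lf (nat_lit 563924) (.g (nat_lit 1211) (.e (nat_lit 442112) (nat_lit 0) (.e (nat_lit 1660) (nat_lit 115) (.e (nat_lit 393260) (nat_lit 21) (.e (nat_lit 417536) (nat_lit 16) .nil)))) (.g (nat_lit 0) (.e (nat_lit 324095) (nat_lit 0) .nil) .nil)))) (.nd (nat_lit 9) 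
(.lf (nat_lit 563668) (.g (nat_lit 2092) (.e (nat_lit 433920) (nat_lit 34) (.e (nat_lit 393251) (nat_lit 18) (.e (nat_lit 164325) (nat_lit 230) (.e (nat_lit 163874) (nat_lit 3) (.e (nat_lit 204811) (nat_lit 9) .nil))))) (.g (nat_lit 0) (.e (nat_lit 323719) (nat_lit 0) .nil) .nil))) 
(.lf (nat_lit 564180) (.g (nat_lit 2260) (.e (nat_lit 434212) (nat_lit 18) (.e (nat_lit 6425) (nat_lit 342) (.e (nat_lit 229415) (nat_lit 15) (.e (nat_lit 450562) (nat_lit 0) (.e (nat_lit 6252) (nat_lit 337) (.e (nat_lit 2630) (nat_lit 164) (.e (nat_lit 172113) (nat_lit 10) .nil))))))) (.g (nat_lit 1) (.e (nat_lit 325450) (nat_lit 0) .nil) .nil))))))) 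
(.nd (nat_lit 6) (.nd (nat_lit 7) (.nd (nat_lit 8) (.nd (nat_lit 9) 
(.lf (nat_lit 563252) (.g (nat_lit 3511) (.e (nat_lit 426566) (nat_lit 34) (.e (nat_lit 393294) (nat_lit 26) (.e (nat_lit 475179) (nat_lit 24) (.e (nat_lit 516117) (nat_lit 1) (.e (nat_lit 164329) (nat_lit 230) (.e (nat_lit 163902) (nat_lit 12) .nil)))))) (.g (nat_lit 1) (.e (nat_lit 323235) (nat_lit 0) .nil) .nil))) 
(.lf (nat_lit 563764) (.g (nat_lit 2981) (.e (nat_lit 434180) (nat_lit 0) (.e (nat_lit 1235) (nat_lit 91) (.e (nat_lit 90170) (nat_lit 13) (.e (nat_lit 172113) (nat_lit 10) (.e (nat_lit 434245) (nat_lit 28) (.e (nat_lit 573451) (nat_lit 9) (.e (nat_lit 7936) (nat_lit 33) .nil))))))) (.g (nat_lit 1) (.e (nat_lit 323911) (nat_lit 0) .nil) .nil)))) (.nd (nat_lit 9) 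
(.lf (nat_lit 563508) (.g (nat_lit 3963) (.e (nat_lit 426568) (nat_lit 34) (.e (nat_lit 393271) (nat_lit 23) (.e (nat_lit 426131) (nat_lit 3) (.e (nat_lit 204829) (nat_lit 18) (.e (nat_lit 57686) (nat_lit 156) (.e (nat_lit 163903) (nat_lit 12) .nil)))))) (.g (nat_lit 1) (.e (nat_lit 323532) (nat_lit 0) .nil) .nil))) 
(.lf (nat_lit 564020) (.g (nat_lit 264) (.e (nat_lit 442112) (nat_lit 8) (.e (nat_lit 2679) (nat_lit 168) (.e (nat_lit 204846) (nat_lit 24) .nil))) (.g (nat_lit 0) (.e (nat_lit 324303) (nat_lit 0) .nil) .nil))))) (.nd (nat_lit 8) (.nd (nat_lit 9) 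
(.lf (nat_lit 563380) (.g (nat_lit 2804) (.e (nat_lit 426567) (nat_lit 34) (.e (nat_lit 393294) (nat_lit 26) (.e (nat_lit 475177) (nat_lit 24) (.e (nat_lit 516119) (nat_lit 1) (.e (nat_lit 164326) (nat_lit 230) .nil))))) (.g (nat_lit 0) (.e (nat_lit 323391) (nat_lit 0) .nil) .nil))) 
(.lf (nat_lit 563892) (.g (nat_lit 1884) (.e (nat_lit 434181) (nat_lit 0) (.e (nat_lit 1660) (nat_lit 115) (.e (nat_lit 393238) (nat_lit 17) (.e (nat_lit 6989) (nat_lit 377) (.e (nat_lit 2781) (nat_lit 178) .nil))))) (.g (nat_lit 0) (.e (nat_lit 324052) (nat_lit 0) .nil) .nil)))) (.nd (nat_lit 9) 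
(.lf (nat_lit 563636) (.g (nat_lit 2391) (.e (nat_lit 426568) (nat_lit 34) (.e (nat_lit 393292) (nat_lit 26) (.e (nat_lit 475179) (nat_lit 24) (.e (nat_lit 516119) (nat_lit 1) (.e (nat_lit 164325) (nat_lit 230) (.e (nat_lit 163907) (nat_lit 12) .nil)))))) (.g (nat_lit 1) (.e (nat_lit 323677) (nat_lit 0) .nil) .nil))) 
(.lf (nat_lit 564148) (.g (nat_lit 1322) (.e (nat_lit 434209) (nat_lit 18) (.e (nat_lit 6273) (nat_lit 337) (.e (nat_lit 2646) (nat_lit 166) (.e (nat_lit 188441) (nat_lit 20) (.e (nat_lit 3468) (nat_lit 217) .nil))))) (.g (nat_lit 0) (.e (nat_lit 325324) (nat_lit 0) .nil) .nil)))))) (.nd (nat_lit 7) (.nd (nat_lit 8) (.nd (nat_lit 9) 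
(.lf (nat_lit 563316) (.g (nat_lit 4040) (.e (nat_lit 426567) (nat_lit 34) (.e (nat_lit 393251) (nat_lit 18) (.e (nat_lit 164325) (nat_lit 230) (.e (nat_lit 163873) (nat_lit 3) (.e (nat_lit 204813) (nat_lit 9) (.e (nat_lit 426199) (nat_lit 9) .nil)))))) (.g (nat_lit 1) (.e (nat_lit 323322) (nat_lit 0) .nil) .nil))) 
(.lf (nat_lit 563828) (.g (nat_lit 2896) (.e (nat_lit 434181) (nat_lit 0) (.e (nat_lit 1234) (nat_lit 91) (.e (nat_lit 90170) (nat_lit 13) (.e (nat_lit 172106) (nat_lit 10) (.e (nat_lit 434244) (nat_lit 28) (.e (nat_lit 573451) (nat_lit 9) (.e (nat_lit 7936) (nat_lit 33) .nil))))))) (.g (nat_lit 1) (.e (nat_lit 323986) (nat_lit 0) .nil) .nil)))) (.nd (nat_lit 9) 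
(.lf (nat_lit 563572) (.g (nat_lit 1583) (.e (nat_lit 426568) (nat_lit 34) (.e (nat_lit 393282) (nat_lit 24) (.e (nat_lit 434233) (nat_lit 23) (.e (nat_lit 532501) (nat_lit 1) (.e (nat_lit 57691) (nat_lit 156) .nil))))) (.g (nat_lit 0) (.e (nat_lit 323602) (nat_lit 0) .nil) .nil))) 
(.lf (nat_lit 564084) (.g (nat_lit 1239) (.e (nat_lit 434207) (nat_lit 18) (.e (nat_lit 6416) (nat_lit 341) (.e (nat_lit 163902) (nat_lit 12) (.e (nat_lit 426294) (nat_lit 11) .nil)))) (.g (nat_lit 0) (.e (nat_lit 324884) (nat_lit 0) .nil) .nil))))) (.nd (nat_lit 8) (.nd (nat_lit 9) 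
(.lf (nat_lit 563444) (.g (nat_lit 2123) (.e (nat_lit 426568) (nat_lit 34) (.e (nat_lit 393253) (nat_lit 18) (.e (nat_lit 164324) (nat_lit 230) (.e (nat_lit 163875) (nat_lit 3) (.e (nat_lit 204813) (nat_lit 9) .nil))))) (.g (nat_lit 0) (.e (nat_lit 323465) (nat_lit 0) .nil) .nil))) 
(.lf (nat_lit 563956) (.g (nat_lit 1181) (.e (nat_lit 442112) (nat_lit 5) (.e (nat_lit 73729) (nat_lit 0) (.e (nat_lit 7261) (nat_lit 384) (.e (nat_lit 57423) (nat_lit 14) (.e (nat_lit 360192) (nat_lit 12) .nil))))) (.g (nat_lit 0) (.e (nat_lit 324178) (nat_lit 0) .nil) .nil)))) (.nd (nat_lit 9) 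
(.lf (nat_lit 563700) (.g (nat_lit 428) (.e (nat_lit 433920) (nat_lit 34) (.e (nat_lit 393283) (nat_lit 24) (.e (nat_lit 434232) (nat_lit 23) .nil))) (.g (nat_lit 0) (.e (nat_lit 323751) (nat_lit 0) .nil) .nil))) 
(.lf (nat_lit 564212) (.g (nat_lit 2128) (.e (nat_lit 434216) (nat_lit 18) (.e (nat_lit 5948) (nat_lit 322) (.e (nat_lit 57377) (nat_lit 3) (.e (nat_lit 98365) (nat_lit 26) (.e (nat_lit 426325) (nat_lit 13) (.e (nat_lit 491264) (nat_lit 10) .nil)))))) (.g (nat_lit 1) (.e (nat_lit 325515) (nat_lit 0) .nil) .nil))))))))) 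
(.nd (nat_lit 4) (.nd (nat_lit 5) (.nd (nat_lit 6) (.nd (nat_lit 7) (.nd (nat_lit 8) 
(.nd (nat_lit 9) 
(.lf (nat_lit 563212) (.g (nat_lit 2763) (.e (nat_lit 426566) (nat_lit 34) (.e (nat_lit 393294) (nat_lit 26) (.e (nat_lit 475176) (nat_lit 24) (.e (nat_lit 516117) (nat_lit 1) (.e (nat_lit 164329) (nat_lit 230) (.e (nat_lit 163902) (nat_lit 12) .nil)))))) (.g (nat_lit 1) (.e (nat_lit 323194) (nat_lit 0) .nil) .nil))) 
(.lf (nat_lit 563724) (.g (nat_lit 1368) (.e (nat_lit 426572) (nat_lit 35) (.e (nat_lit 401454) (nat_lit 12) (.e (nat_lit 475181) (nat_lit 27) (.e (nat_lit 540703) (nat_lit 11) .nil)))) (.g (nat_lit 0) (.e (nat_lit 323790) (nat_lit 0) .nil) .nil)))) (.nd (nat_lit 9) 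
(.lf (nat_lit 563468) (.g (nat_lit 1208) (.e (nat_lit 426568) (nat_lit 34) (.e (nat_lit 393253) (nat_lit 18) (.e (nat_lit 164332) (nat_lit 230) (.e (nat_lit 163874) (nat_lit 3) .nil)))) (.g (nat_lit 0) (.e (nat_lit 323489) (nat_lit 0) .nil) .nil))) 
(.lf (nat_lit 563980) (.g (nat_lit 1853) (.e (nat_lit 442112) (nat_lit 5) (.e (nat_lit 73731) (nat_lit 0) (.e (nat_lit 7266) (nat_lit 384) (.e (nat_lit 57424) (nat_lit 14) (.e (nat_lit 360192) (nat_lit 12) .nil))))) (.g (nat_lit 0) (.e (nat_lit 324203) (nat_lit 0) .nil) .nil))))) (.nd (nat_lit 8) (.nd (nat_lit 9) 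
(.lf (nat_lit 563340) (.g (nat_lit 1963) (.e (nat_lit 426567) (nat_lit 34) (.e (nat_lit 393253) (nat_lit 18) (.e (nat_lit 164327) (nat_lit 230) (.e (nat_lit 163871) (nat_lit 2) .nil)))) (.g (nat_lit 0) (.e (nat_lit 323349) (nat_lit 0) .nil) .nil))) 
(.lf (nat_lit 563852) (.g (nat_lit 4128) (.e (nat_lit 434181) (nat_lit 0) (.e (nat_lit 1253) (nat_lit 92) (.e (nat_lit 98373) (nat_lit 29) (.e (nat_lit 450587) (nat_lit 10) (.e (nat_lit 573449) (nat_lit 9) (.e (nat_lit 7936) (nat_lit 33) .nil)))))) (.g (nat_lit 1) (.e (nat_lit 324010) (nat_lit 0) .nil) .nil)))) (.nd (nat_lit 9) 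
(.lf (nat_lit 563596) (.g (nat_lit 1358) (.e (nat_lit 426568) (nat_lit 34) (.e (nat_lit 393283) (nat_lit 24) (.e (nat_lit 434234) (nat_lit 23) (.e (nat_lit 532503) (nat_lit 1) (.e (nat_lit 57685) (nat_lit 156) .nil))))) (.g (nat_lit 0) (.e (nat_lit 323628) (nat_lit 0) .nil) .nil))) 
(.lf (nat_lit 564108) (.g (nat_lit 2326) (.e (nat_lit 434209) (nat_lit 18) (.e (nat_lit 5223) (nat_lit 296) (.e (nat_lit 163868) (nat_lit 2) (.e (nat_lit 196655) (nat_lit 11) (.e (nat_lit 16465) (nat_lit 13) (.e (nat_lit 491264) (nat_lit 10) .nil)))))) (.g (nat_lit 1) (.e (nat_lit 325071) (nat_lit 0) .nil) .nil)))))) (.nd (nat_lit 7) (.nd (nat_lit 8) (.nd (nat_lit 9) 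
(.lf (nat_lit 563276) (.g (nat_lit 2231) (.e (nat_lit 426566) (nat_lit 34) (.e (nat_lit 393296) (nat_lit 26) (.e (nat_lit 475176) (nat_lit 24) (.e (nat_lit 516116) (nat_lit 1) (.e (nat_lit 164332) (nat_lit 230) (.e (nat_lit 163905) (nat_lit 12) .nil)))))) (.g (nat_lit 1) (.e (nat_lit 323260) (nat_lit 0) .nil) .nil))) 
(.lf (nat_lit 563788) (.g (nat_lit 4882) (.e (nat_lit 434180) (nat_lit 0) (.e (nat_lit 1253) (nat_lit 92) (.e (nat_lit 98373) (nat_lit 29) (.e (nat_lit 450588) (nat_lit 10) (.e (nat_lit 573458) (nat_lit 9) (.e (nat_lit 7936) (nat_lit 33) .nil)))))) (.g (nat_lit 1) (.e (nat_lit 323935) (nat_lit 0) .nil) .nil)))) (.nd (nat_lit 9) 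
(.lf (nat_lit 563532) (.g (nat_lit 1203) (.e (nat_lit 426568) (nat_lit 34) (.e (nat_lit 393271) (nat_lit 23) (.e (nat_lit 426436) (nat_lit 18) (.e (nat_lit 98334) (nat_lit 18) .nil)))) (.g (nat_lit 0) (.e (nat_lit 323556) (nat_lit 0) .nil) .nil))) 
(.lf (nat_lit 564044) (.g (nat_lit 577) (.e (nat_lit 434199) (nat_lit 18) (.e (nat_lit 6425) (nat_lit 342) (.e (nat_lit 229412) (nat_lit 14) .nil))) (.g (nat_lit 0) (.e (nat_lit 324545) (nat_lit 0) .nil) .nil))))) (.nd (nat_lit 8) (.nd (nat_lit 9) 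
(.lf (nat_lit 563404) (.g (nat_lit 1162) (.e (nat_lit 426568) (nat_lit 34) (.e (nat_lit 393251) (nat_lit 18) (.e (nat_lit 164332) (nat_lit 230) (.e (nat_lit 163874) (nat_lit 3) .nil)))) (.g (nat_lit 0) (.e (nat_lit 323424) (nat_lit 0) .nil) .nil))) 
(.lf (nat_lit 563916) (.g (nat_lit 1215) (.e (nat_lit 442112) (nat_lit 0) (.e (nat_lit 1428) (nat_lit 108) (.e (nat_lit 336421) (nat_lit 28) (.e (nat_lit 434186) (nat_lit 13) .nil)))) (.g (nat_lit 0) (.e (nat_lit 324087) (nat_lit 0) .nil) .nil)))) (.nd (nat_lit 9) 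
(.lf (nat_lit 563660) (.g (nat_lit 1921) (.e (nat_lit 426568) (nat_lit 34) (.e (nat_lit 393301) (nat_lit 27) (.e (nat_lit 491526) (nat_lit 0) (.e (nat_lit 1830) (nat_lit 122) .nil)))) (.g (nat_lit 0) (.e (nat_lit 323706) (nat_lit 0) .nil) .nil))) 
(.lf (nat_lit 564172) (.g (nat_lit 1454) (.e (nat_lit 434212) (nat_lit 18) (.e (nat_lit 5548) (nat_lit 306) (.e (nat_lit 2640) (nat_lit 165) (.e (nat_lit 180278) (nat_lit 32) (.e (nat_lit 1660) (nat_lit 115) .nil))))) (.g (nat_lit 0) (.e (nat_lit 325440) (nat_lit 0) .nil) .nil))))))) (.nd (nat_lit 6) (.nd (nat_lit 7) (.nd (nat_lit 8) (.nd (nat_lit 9) 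
(.lf (nat_lit 563244) (.g (nat_lit 3118) (.e (nat_lit 426566) (nat_lit 34) (.e (nat_lit 393294) (nat_lit 26) (.e (nat_lit 475177) (nat_lit 24) (.e (nat_lit 516119) (nat_lit 1) (.e (nat_lit 164331) (nat_lit 230) (.e (nat_lit 163904) (nat_lit 12) .nil)))))) (.g (nat_lit 1) (.e (nat_lit 323226) (nat_lit 0) .nil) .nil))) 
(.lf (nat_lit 563756) (.g (nat_lit 3392) (.e (nat_lit 434180) (nat_lit 0) (.e (nat_lit 1234) (nat_lit 91) (.e (nat_lit 90170) (nat_lit 13) (.e (nat_lit 172113) (nat_lit 10) (.e (nat_lit 434247) (nat_lit 28) (.e (nat_lit 573456) (nat_lit 9) (.e (nat_lit 7936) (nat_lit 33) .nil))))))) (.g (nat_lit 1) (.e (nat_lit 323903) (nat_lit 0) .nil) .nil)))) (.nd (nat_lit 9) 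
(.lf (nat_lit 563500) (.g (nat_lit 2782) (.e (nat_lit 426568) (nat_lit 34) (.e (nat_lit 393270) (nat_lit 23) (.e (nat_lit 426438) (nat_lit 18) (.e (nat_lit 98335) (nat_lit 18) (.e (nat_lit 164325) (nat_lit 230) (.e (nat_lit 163903) (nat_lit 12) .nil)))))) (.g (nat_lit 1) (.e (nat_lit 323524) (nat_lit 0) .nil) .nil))) 
(.lf (nat_lit 564012) (.g (nat_lit 351) (.e (nat_lit 442112) (nat_lit 7) (.e (nat_lit 131140) (nat_lit 27) (.e (nat_lit 426342) (nat_lit 14) .nil))) (.g (nat_lit 0) (.e (nat_lit 324277) (nat_lit 0) .nil) .nil))))) (.nd (nat_lit 8) (.nd (nat_lit 9) 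
(.lf (nat_lit 563372) (.g (nat_lit 1099) (.e (nat_lit 426567) (nat_lit 34) (.e (nat_lit 393292) (nat_lit 26) (.e (nat_lit 475177) (nat_lit 24) (.e (nat_lit 516118) (nat_lit 1) (.e (nat_lit 164332) (nat_lit 230) .nil))))) (.g (nat_lit 0) (.e (nat_lit 323383) (nat_lit 0) .nil) .nil))) 
(.lf (nat_lit 563884) (.g (nat_lit 2086) (.e (nat_lit 434181) (nat_lit 0) (.e (nat_lit 1428) (nat_lit 108) (.e (nat_lit 336421) (nat_lit 28) (.e (nat_lit 434193) (nat_lit 13) (.e (nat_lit 2789) (nat_lit 179) (.e (nat_lit 294973) (nat_lit 28) .nil)))))) (.g (nat_lit 1) (.e (nat_lit 324042) (nat_lit 0) .nil) .nil)))) (.nd (nat_lit 9) 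
(.lf (nat_lit 563628) (.g (nat_lit 662) (.e (nat_lit 426568) (nat_lit 34) (.e (nat_lit 393291) (nat_lit 26) (.e (nat_lit 475176) (nat_lit 24) .nil))) (.g (nat_lit 0) (.e (nat_lit 323669) (nat_lit 0) .nil) .nil))) 
(.lf (nat_lit 564140) (.g (nat_lit 4798) (.e (nat_lit 434209) (nat_lit 18) (.e (nat_lit 5548) (nat_lit 306) (.e (nat_lit 2611) (nat_lit 163) (.e (nat_lit 163977) (nat_lit 30) (.e (nat_lit 573482) (nat_lit 13) (.e (nat_lit 65604) (nat_lit 9) (.e (nat_lit 336028) (nat_lit 3) (.e (nat_lit 98367) (nat_lit 27) .nil)))))))) (.g (nat_lit 1) (.e (nat_lit 325266) (nat_lit 0) .nil) .nil)))))) 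
(.nd (nat_lit 7) (.nd (nat_lit 8) (.nd (nat_lit 9) 
(.lf (nat_lit 563308) (.g (nat_lit 1929) (.e (nat_lit 426566) (nat_lit 34) (.e (nat_lit 393296) (nat_lit 26) (.e (nat_lit 475179) (nat_lit 24) (.e (nat_lit 516118) (nat_lit 1) .nil)))) (.g (nat_lit 0) (.e (nat_lit 323292) (nat_lit 0) .nil) .nil))) 
(.lf (nat_lit 563820) (.g (nat_lit 2900) (.e (nat_lit 434180) (nat_lit 0) (.e (nat_lit 1659) (nat_lit 115) (.e (nat_lit 393260) (nat_lit 21) (.e (nat_lit 409641) (nat_lit 17) (.e (nat_lit 294973) (nat_lit 28) .nil))))) (.g (nat_lit 0) (.e (nat_lit 323972) (nat_lit 0) .nil) .nil)))) (.nd (nat_lit 9) 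
(.lf (nat_lit 563564) (.g (nat_lit 2718) (.e (nat_lit 426568) (nat_lit 34) (.e (nat_lit 393282) (nat_lit 24) (.e (nat_lit 434231) (nat_lit 23) (.e (nat_lit 532500) (nat_lit 1) (.e (nat_lit 57685) (nat_lit 156) .nil))))) (.g (nat_lit 0) (.e (nat_lit 323594) (nat_lit 0) .nil) .nil))) 
(.lf (nat_lit 564076) (.g (nat_lit 2194) (.e (nat_lit 434206) (nat_lit 18) (.e (nat_lit 5968) (nat_lit 324) (.e (nat_lit 163874) (nat_lit 3) (.e (nat_lit 204882) (nat_lit 32) (.e (nat_lit 385105) (nat_lit 50) .nil))))) (.g (nat_lit 0) (.e (nat_lit 324814) (nat_lit 0) .nil) .nil))))) (.nd (nat_lit 8) (.nd (nat_lit 9) 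
(.lf (nat_lit 563436) (.g (nat_lit 2315) (.e (nat_lit 426568) (nat_lit 34) (.e (nat_lit 393252) (nat_lit 18) (.e (nat_lit 164403) (nat_lit 256) (.e (nat_lit 57378) (nat_lit 3) (.e (nat_lit 98358) (nat_lit 26) .nil))))) (.g (nat_lit 0) (.e (nat_lit 323456) (nat_lit 0) .nil) .nil))) 
(.lf (nat_lit 563948) (.g (nat_lit 1411) (.e (nat_lit 442112) (nat_lit 4) (.e (nat_lit 65653) (nat_lit 27) (.e (nat_lit 426341) (nat_lit 14) (.e (nat_lit 491548) (nat_lit 9) (.e (nat_lit 336421) (nat_lit 28) .nil))))) (.g (nat_lit 0) (.e (nat_lit 324169) (nat_lit 0) .nil) .nil)))) (.nd (nat_lit 9) 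
(.lf (nat_lit 563692) (.g (nat_lit 1130) (.e (nat_lit 433920) (nat_lit 34) (.e (nat_lit 393254) (nat_lit 18) (.e (nat_lit 164325) (nat_lit 230) (.e (nat_lit 163873) (nat_lit 3) (.e (nat_lit 204811) (nat_lit 9) .nil))))) (.g (nat_lit 0) (.e (nat_lit 323743) (nat_lit 0) .nil) .nil))) 
(.lf (nat_lit 564204) (.g (nat_lit 2540) (.e (nat_lit 434215) (nat_lit 18) (.e (nat_lit 5949) (nat_lit 322) (.e (nat_lit 57378) (nat_lit 3) (.e (nat_lit 98365) (nat_lit 26) (.e (nat_lit 426325) (nat_lit 13) (.e (nat_lit 491264) (nat_lit 10) .nil)))))) (.g (nat_lit 1) (.e (nat_lit 325501) (nat_lit 0) .nil) .nil)))))))) 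
(.nd (nat_lit 5) (.nd (nat_lit 6) (.nd (nat_lit 7) (.nd (nat_lit 8) (.nd (nat_lit 9) 
(.lf (nat_lit 563228) (.g (nat_lit 3447) (.e (nat_lit 426566) (nat_lit 34) (.e (nat_lit 393294) (nat_lit 26) (.e (nat_lit 475177) (nat_lit 24) (.e (nat_lit 516116) (nat_lit 1) (.e (nat_lit 164329) (nat_lit 230) (.e (nat_lit 163902) (nat_lit 12) .nil)))))) (.g (nat_lit 1) (.e (nat_lit 323210) (nat_lit 0) .nil) .nil))) 
(.lf (nat_lit 563740) (.g (nat_lit 2083) (.e (nat_lit 434178) (nat_lit 0) (.e (nat_lit 1512) (nat_lit 108) (.e (nat_lit 336420) (nat_lit 28) (.e (nat_lit 434181) (nat_lit 0) (.e (nat_lit 1427) (nat_lit 108) (.e (nat_lit 336421) (nat_lit 28) .nil)))))) (.g (nat_lit 1) (.e (nat_lit 323812) (nat_lit 0) .nil) .nil)))) (.nd (nat_lit 9) 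
(.lf (nat_lit 563484) (.g (nat_lit 2811) (.e (nat_lit 426568) (nat_lit 34) (.e (nat_lit 393260) (nat_lit 21) (.e (nat_lit 409617) (nat_lit 10) (.e (nat_lit 604) (nat_lit 45) (.e (nat_lit 532515) (nat_lit 3) (.e (nat_lit 122624) (nat_lit 11) .nil)))))) (.g (nat_lit 1) (.e (nat_lit 323506) (nat_lit 0) .nil) .nil))) 
(.lf (nat_lit 563996) (.g (nat_lit 1927) (.e (nat_lit 442112) (nat_lit 5) (.e (nat_lit 73775) (nat_lit 26) (.e (nat_lit 778466) (nat_lit 11) (.e (nat_lit 24632) (nat_lit 9) (.e (nat_lit 343808) (nat_lit 28) .nil))))) (.g (nat_lit 0) (.e (nat_lit 324240) (nat_lit 0) .nil) .nil))))) (.nd (nat_lit 8) (.nd (nat_lit 9) 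
(.lf (nat_lit 563356) (.g (nat_lit 2755) (.e (nat_lit 426567) (nat_lit 34) (.e (nat_lit 393271) (nat_lit 23) (.e (nat_lit 426131) (nat_lit 3) (.e (nat_lit 204831) (nat_lit 18) (.e (nat_lit 57688) (nat_lit 156) .nil))))) (.g (nat_lit 0) (.e (nat_lit 323366) (nat_lit 0) .nil) .nil))) 
(.lf (nat_lit 563868) (.g (nat_lit 1345) (.e (nat_lit 434181) (nat_lit 0) (.e (nat_lit 1425) (nat_lit 108) (.e (nat_lit 336421) (nat_lit 28) (.e (nat_lit 434189) (nat_lit 13) (.e (nat_lit 2789) (nat_lit 179) (.e (nat_lit 294973) (nat_lit 28) .nil)))))) (.g (nat_lit 1) (.e (nat_lit 324026) (nat_lit 0) .nil) .nil)))) (.nd (nat_lit 9) 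
(.lf (nat_lit 563612) (.g (nat_lit 3394) (.e (nat_lit 426568) (nat_lit 34) (.e (nat_lit 393286) (nat_lit 25) (.e (nat_lit 458789) (nat_lit 23) (.e (nat_lit 532501) (nat_lit 1) (.e (nat_lit 57691) (nat_lit 156) (.e (nat_lit 163907) (nat_lit 12) .nil)))))) (.g (nat_lit 1) (.e (nat_lit 323651) (nat_lit 0) .nil) .nil))) 
(.lf (nat_lit 564124) (.g (nat_lit 1943) (.e (nat_lit 434209) (nat_lit 18) (.e (nat_lit 5546) (nat_lit 306) (.e (nat_lit 2610) (nat_lit 163) (.e (nat_lit 163977) (nat_lit 30) (.e (nat_lit 573491) (nat_lit 15) .nil))))) (.g (nat_lit 0) (.e (nat_lit 325162) (nat_lit 0) .nil) .nil)))))) (.nd (nat_lit 7) (.nd (nat_lit 8) (.nd (nat_lit 9) 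
(.lf (nat_lit 563292) (.g (nat_lit 3825) (.e (nat_lit 426566) (nat_lit 34) (.e (nat_lit 393296) (nat_lit 26) (.e (nat_lit 475178) (nat_lit 24) (.e (nat_lit 516115) (nat_lit 1) (.e (nat_lit 164332) (nat_lit 230) (.e (nat_lit 163902) (nat_lit 12) .nil)))))) (.g (nat_lit 1) (.e (nat_lit 323276) (nat_lit 0) .nil) .nil))) 
(.lf (nat_lit 563804) (.g (nat_lit 2194) (.e (nat_lit 434180) (nat_lit 0) (.e (nat_lit 1427) (nat_lit 108) (.e (nat_lit 336421) (nat_lit 28) (.e (nat_lit 434197) (nat_lit 16) (.e (nat_lit 164337) (nat_lit 232) (.e (nat_lit 446) (nat_lit 33) .nil)))))) (.g (nat_lit 1) (.e (nat_lit 323951) (nat_lit 0) .nil) .nil)))) (.nd (nat_lit 9) 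
(.lf (nat_lit 563548) (.g (nat_lit 2690) (.e (nat_lit 426568) (nat_lit 34) (.e (nat_lit 393281) (nat_lit 23) (.e (nat_lit 426133) (nat_lit 3) (.e (nat_lit 204831) (nat_lit 18) (.e (nat_lit 57686) (nat_lit 156) .nil))))) (.g (nat_lit 0) (.e (nat_lit 323578) (nat_lit 0) .nil) .nil))) 
(.lf (nat_lit 564060) (.g (nat_lit 3804) (.e (nat_lit 434202) (nat_lit 18) (.e (nat_lit 6420) (nat_lit 341) (.e (nat_lit 163908) (nat_lit 12) (.e (nat_lit 426286) (nat_lit 10) (.e (nat_lit 434289) (nat_lit 43) (.e (nat_lit 696344) (nat_lit 8) (.e (nat_lit 172106) (nat_lit 10) .nil))))))) (.g (nat_lit 1) (.e (nat_lit 324710) (nat_lit 0) .nil) .nil))))) (.nd (nat_lit 8) (.nd (nat_lit 9) 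
(.lf (nat_lit 563420) (.g (nat_lit 2408) (.e (nat_lit 426568) (nat_lit 34) (.e (nat_lit 393252) (nat_lit 18) (.e (nat_lit 164330) (nat_lit 230) (.e (nat_lit 163867) (nat_lit 2) (.e (nat_lit 196656) (nat_lit 11) (.e (nat_lit 16433) (nat_lit 9) .nil)))))) (.g (nat_lit 1) (.e (nat_lit 323440) (nat_lit 0) .nil) .nil))) 
(.lf (nat_lit 563932) (.g (nat_lit 228) (.e (nat_lit 442112) (nat_lit 4) (.e (nat_lit 65648) (nat_lit 26) (.e (nat_lit 417793) (nat_lit 0) (.e (nat_lit 5405) (nat_lit 302) (.e (nat_lit 73472) (nat_lit 28) .nil))))) (.g (nat_lit 0) (.e (nat_lit 324129) (nat_lit 0) .nil) .nil)))) (.nd (nat_lit 9) 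
(.lf (nat_lit 563676) (.g (nat_lit 952) (.e (nat_lit 433920) (nat_lit 34) (.e (nat_lit 393252) (nat_lit 18) (.e (nat_lit 164332) (nat_lit 230) (.e (nat_lit 163873) (nat_lit 3) (.e (nat_lit 204811) (nat_lit 9) .nil))))) (.g (nat_lit 0) (.e (nat_lit 323727) (nat_lit 0) .nil) .nil))) 
(.lf (nat_lit 564188) (.g (nat_lit 1592) (.e (nat_lit 434212) (nat_lit 18) (.e (nat_lit 6425) (nat_lit 342) (.e (nat_lit 229415) (nat_lit 15) (.e (nat_lit 450563) (nat_lit 0) (.e (nat_lit 6416) (nat_lit 341) (.e (nat_lit 163908) (nat_lit 12) (.e (nat_lit 426288) (nat_lit 10) .nil))))))) (.g (nat_lit 1) (.e (nat_lit 325458) (nat_lit 0) .nil) .nil))))))) 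
(.nd (nat_lit 6) (.nd (nat_lit 7) (.nd (nat_lit 8) (.nd (nat_lit 9) 
(.lf (nat_lit 563260) (.g (nat_lit 2510) (.e (nat_lit 426566) (nat_lit 34) (.e (nat_lit 393294) (nat_lit 26) (.e (nat_lit 475179) (nat_lit 24) (.e (nat_lit 516119) (nat_lit 1) (.e (nat_lit 164331) (nat_lit 230) (.e (nat_lit 163904) (nat_lit 12) .nil)))))) (.g (nat_lit 1) (.e (nat_lit 323243) (nat_lit 0) .nil) .nil))) 
(.lf (nat_lit 563772) (.g (nat_lit 2599) (.e (nat_lit 434180) (nat_lit 0) (.e (nat_lit 1252) (nat_lit 92) (.e (nat_lit 98373) (nat_lit 29) (.e (nat_lit 450587) (nat_lit 10) (.e (nat_lit 573457) (nat_lit 9) (.e (nat_lit 7936) (nat_lit 33) .nil)))))) (.g (nat_lit 1) (.e (nat_lit 323919) (nat_lit 0) .nil) .nil)))) (.nd (nat_lit 9) 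
(.lf (nat_lit 563516) (.g (nat_lit 2609) (.e (nat_lit 426568) (nat_lit 34) (.e (nat_lit 393271) (nat_lit 23) (.e (nat_lit 426131) (nat_lit 3) (.e (nat_lit 204830) (nat_lit 18) (.e (nat_lit 57663) (nat_lit 152) (.e (nat_lit 2441) (nat_lit 157) (.e (nat_lit 2862) (nat_lit 184) .nil))))))) (.g (nat_lit 1) (.e (nat_lit 323540) (nat_lit 0) .nil) .nil))) 
(.lf (nat_lit 564028) (.g (nat_lit 4118) (.e (nat_lit 434186) (nat_lit 13) (.e (nat_lit 2570) (nat_lit 160) (.e (nat_lit 32807) (nat_lit 18) (.e (nat_lit 172124) (nat_lit 14) (.e (nat_lit 491540) (nat_lit 3) (.e (nat_lit 98367) (nat_lit 27) .nil)))))) (.g (nat_lit 1) (.e (nat_lit 324333) (nat_lit 0) .nil) .nil))))) (.nd (nat_lit 8) (.nd (nat_lit 9) 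
(.lf (nat_lit 563388) (.g (nat_lit 3000) (.e (nat_lit 426567) (nat_lit 34) (.e (nat_lit 393296) (nat_lit 26) (.e (nat_lit 475178) (nat_lit 24) (.e (nat_lit 516120) (nat_lit 1) (.e (nat_lit 164329) (nat_lit 230) (.e (nat_lit 163902) (nat_lit 12) .nil)))))) (.g (nat_lit 1) (.e (nat_lit 323399) (nat_lit 0) .nil) .nil))) 
(.lf (nat_lit 563900) (.g (nat_lit 1011) (.e (nat_lit 442112) (nat_lit 0) (.e (nat_lit 371) (nat_lit 32) (.e (nat_lit 426544) (nat_lit 30) (.e (nat_lit 360470) (nat_lit 6) (.e (nat_lit 540723) (nat_lit 27) .nil))))) (.g (nat_lit 0) (.e (nat_lit 324068) (nat_lit 0) .nil) .nil)))) (.nd (nat_lit 9) 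
(.lf (nat_lit 563644) (.g (nat_lit 4139) (.e (nat_lit 426568) (nat_lit 34) (.e (nat_lit 393294) (nat_lit 26) (.e (nat_lit 475176) (nat_lit 24) (.e (nat_lit 516116) (nat_lit 1) (.e (nat_lit 164329) (nat_lit 230) (.e (nat_lit 163902) (nat_lit 12) .nil)))))) (.g (nat_lit 1) (.e (nat_lit 323685) (nat_lit 0) .nil) .nil))) 
(.lf (nat_lit 564156) (.g (nat_lit 2232) (.e (nat_lit 434212) (nat_lit 18) (.e (nat_lit 5224) (nat_lit 296) (.e (nat_lit 163868) (nat_lit 2) (.e (nat_lit 196654) (nat_lit 11) (.e (nat_lit 16463) (nat_lit 13) (.e (nat_lit 491264) (nat_lit 10) .nil)))))) (.g (nat_lit 1) (.e (nat_lit 325400) (nat_lit 0) .nil) .nil)))))) (.nd (nat_lit 7) (.nd (nat_lit 8) (.nd (nat_lit 9) 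
(.lf (nat_lit 563324) (.g (nat_lit 1842) (.e (nat_lit 426567) (nat_lit 34) (.e (nat_lit 393251) (nat_lit 18) (.e (nat_lit 164332) (nat_lit 230) (.e (nat_lit 163874) (nat_lit 3) .nil)))) (.g (nat_lit 0) (.e (nat_lit 323333) (nat_lit 0) .nil) .nil))) 
(.lf (nat_lit 563836) (.g (nat_lit 2403) (.e (nat_lit 434181) (nat_lit 0) (.e (nat_lit 1234) (nat_lit 91) (.e (nat_lit 90170) (nat_lit 13) (.e (nat_lit 172115) (nat_lit 10) (.e (nat_lit 434244) (nat_lit 28) .nil))))) (.g (nat_lit 0) (.e (nat_lit 323994) (nat_lit 0) .nil) .nil)))) (.nd (nat_lit 9) 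
(.lf (nat_lit 563580) (.g (nat_lit 3708) (.e (nat_lit 426568) (nat_lit 34) (.e (nat_lit 393283) (nat_lit 24) (.e (nat_lit 434231) (nat_lit 23) (.e (nat_lit 532499) (nat_lit 1) (.e (nat_lit 57691) (nat_lit 156) (.e (nat_lit 163907) (nat_lit 12) .nil)))))) (.g (nat_lit 1) (.e (nat_lit 323612) (nat_lit 0) .nil) .nil))) 
(.lf (nat_lit 564092) (.g (nat_lit 2541) (.e (nat_lit 434208) (nat_lit 18) (.e (nat_lit 5945) (nat_lit 322) (.e (nat_lit 57377) (nat_lit 3) (.e (nat_lit 98365) (nat_lit 26) (.e (nat_lit 426327) (nat_lit 13) (.e (nat_lit 491264) (nat_lit 10) .nil)))))) (.g (nat_lit 1) (.e (nat_lit 324950) (nat_lit 0) .nil) .nil))))) (.nd (nat_lit 8) (.nd (nat_lit 9) 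
(.lf (nat_lit 563452) (.g (nat_lit 452) (.e (nat_lit 426568) (nat_lit 34) (.e (nat_lit 393253) (nat_lit 18) (.e (nat_lit 164327) (nat_lit 230) .nil))) (.g (nat_lit 0) (.e (nat_lit 323473) (nat_lit 0) .nil) .nil))) 
(.lf (nat_lit 563964) (.g (nat_lit 1882) (.e (nat_lit 442112) (nat_lit 5) (.e (nat_lit 73729) (nat_lit 0) (.e (nat_lit 7265) (nat_lit 384) (.e (nat_lit 57436) (nat_lit 17) (.e (nat_lit 384768) (nat_lit 12) .nil))))) (.g (nat_lit 0) (.e (nat_lit 324186) (nat_lit 0) .nil) .nil)))) (.nd (nat_lit 9) 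
(.lf (nat_lit 563708) (.g (nat_lit 1170) (.e (nat_lit 426569) (nat_lit 35) (.e (nat_lit 401454) (nat_lit 12) (.e (nat_lit 483072) (nat_lit 26) (.e (nat_lit 532544) (nat_lit 10) (.e (nat_lit 344071) (nat_lit 8) (.e (nat_lit 401) (nat_lit 32) .nil)))))) (.g (nat_lit 1) (.e (nat_lit 323766) (nat_lit 0) .nil) .nil))) 
(.lf (nat_lit 564220) (.g (nat_lit 1844) (.e (nat_lit 434217) (nat_lit 19) (.e (nat_lit 500046) (nat_lit 16) (.e (nat_lit 16412) (nat_lit 2) (.e (nat_lit 196656) (nat_lit 11) (.e (nat_lit 16415) (nat_lit 3) .nil))))) (.g (nat_lit 0) (.e (nat_lit 325541) (nat_lit 0) .nil) .nil))))))))))) 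
(.nd (nat_lit 2) (.nd (nat_lit 3) (.nd (nat_lit 4) (.nd (nat_lit 5) (.nd (nat_lit 6) 
(.nd (nat_lit 7) (.nd (nat_lit 8) (.nd (nat_lit 9) 
(.lf (nat_lit 563202) (.g (nat_lit 2311) (.e (nat_lit 426566) (nat_lit 34) (.e (nat_lit 393293) (nat_lit 26) (.e (nat_lit 475179) (nat_lit 24) (.e (nat_lit 516117) (nat_lit 1) (.e (nat_lit 164329) (nat_lit 230) (.e (nat_lit 163902) (nat_lit 12) .nil)))))) (.g (nat_lit 1) (.e (nat_lit 323184) (nat_lit 0) .nil) .nil))) 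
(.lf (nat_lit 563714) (.g (nat_lit 3109) (.e (nat_lit 426569) (nat_lit 35) (.e (nat_lit 401454) (nat_lit 12) (.e (nat_lit 475179) (nat_lit 24) (.e (nat_lit 516117) (nat_lit 1) (.e (nat_lit 164305) (nat_lit 226) .nil))))) (.g (nat_lit 0) (.e (nat_lit 323773) (nat_lit 0) .nil) .nil)))) (.nd (nat_lit 9) 
(.lf (nat_lit 563458) (.g (nat_lit 2787) (.e (nat_lit 426568) (nat_lit 34) (.e (nat_lit 393253) (nat_lit 18) (.e (nat_lit 164327) (nat_lit 230) (.e (nat_lit 163874) (nat_lit 3) (.e (nat_lit 204813) (nat_lit 9) .nil))))) (.g (nat_lit 0) (.e (nat_lit 323479) (nat_lit 0) .nil) .nil))) 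
(.lf (nat_lit 563970) (.g (nat_lit 757) (.e (nat_lit 442112) (nat_lit 5) (.e (nat_lit 73730) (nat_lit 0) (.e (nat_lit 7263) (nat_lit 384) (.e (nat_lit 57423) (nat_lit 14) (.e (nat_lit 360192) (nat_lit 12) .nil))))) (.g (nat_lit 0) (.e (nat_lit 324192) (nat_lit 0) .nil) .nil))))) (.nd (nat_lit 8) (.nd (nat_lit 9) 
(.lf (nat_lit 563330) (.g (nat_lit 1271) (.e (nat_lit 426567) (nat_lit 34) (.e (nat_lit 393251) (nat_lit 18) (.e (nat_lit 164402) (nat_lit 256) .nil))) (.g (nat_lit 0) (.e (nat_lit 323339) (nat_lit 0) .nil) .nil))) 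
(.lf (nat_lit 563842) (.g (nat_lit 3144) (.e (nat_lit 434181) (nat_lit 0) (.e (nat_lit 1235) (nat_lit 91) (.e (nat_lit 90170) (nat_lit 13) (.e (nat_lit 172113) (nat_lit 10) (.e (nat_lit 434247) (nat_lit 28) (.e (nat_lit 573456) (nat_lit 9) (.e (nat_lit 7936) (nat_lit 33) .nil))))))) (.g (nat_lit 1) (.e (nat_lit 324000) (nat_lit 0) .nil) .nil)))) (.nd (nat_lit 9) 
(.lf (nat_lit 563586) (.g (nat_lit 2628) (.e (nat_lit 426568) (nat_lit 34) (.e (nat_lit 393283) (nat_lit 24) (.e (nat_lit 434231) (nat_lit 23) (.e (nat_lit 532500) (nat_lit 1) (.e (nat_lit 57665) (nat_lit 152) (.e (nat_lit 2466) (nat_lit 157) (.e (nat_lit 2845) (nat_lit 184) .nil))))))) (.g (nat_lit 1) (.e (nat_lit 323618) (nat_lit 0) .nil) .nil))) 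
(.lf (nat_lit 564098) (.g (nat_lit 2241) (.e (nat_lit 434208) (nat_lit 18) (.e (nat_lit 6255) (nat_lit 337) (.e (nat_lit 2651) (nat_lit 166) (.e (nat_lit 188439) (nat_lit 20) (.e (nat_lit 3469) (nat_lit 217) (.e (nat_lit 696344) (nat_lit 8) (.e (nat_lit 172112) (nat_lit 10) .nil))))))) (.g (nat_lit 1) (.e (nat_lit 324978) (nat_lit 0) .nil) .nil)))))) 
(.nd (nat_lit 7) (.nd (nat_lit 8) (.nd (nat_lit 9) 
(.lf (nat_lit 563266) (.g (nat_lit 1862) (.e (nat_lit 426566) (nat_lit 34) (.e (nat_lit 393295) (nat_lit 26) (.e (nat_lit 475176) (nat_lit 24) (.e (nat_lit 516117) (nat_lit 1) (.e (nat_lit 164332) (nat_lit 230) (.e (nat_lit 163905) (nat_lit 12) .nil)))))) (.g (nat_lit 1) (.e (nat_lit 323249) (nat_lit 0) .nil) .nil))) 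
(.lf (nat_lit 563778) (.g (nat_lit 2747) (.e (nat_lit 434180) (nat_lit 0) (.e (nat_lit 1253) (nat_lit 92) (.e (nat_lit 98373) (nat_lit 29) (.e (nat_lit 450587) (nat_lit 10) (.e (nat_lit 573452) (nat_lit 9) (.e (nat_lit 7936) (nat_lit 33) .nil)))))) (.g (nat_lit 1) (.e (nat_lit 323925) (nat_lit 0) .nil) .nil)))) (.nd (nat_lit 9) 
(.lf (nat_lit 563522) (.g (nat_lit 2800) (.e (nat_lit 426568) (nat_lit 34) (.e (nat_lit 393271) (nat_lit 23) (.e (nat_lit 426131) (nat_lit 3) (.e (nat_lit 204830) (nat_lit 18) (.e (nat_lit 57668) (nat_lit 152) (.e (nat_lit 2477) (nat_lit 157) (.e (nat_lit 2854) (nat_lit 184) .nil))))))) (.g (nat_lit 1) (.e (nat_lit 323546) (nat_lit 0) .nil) .nil))) 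
(.lf (nat_lit 564034) (.g (nat_lit 3254) (.e (nat_lit 434191) (nat_lit 13) (.e (nat_lit 2569) (nat_lit 160) (.e (nat_lit 32807) (nat_lit 18) (.e (nat_lit 172124) (nat_lit 14) (.e (nat_lit 491540) (nat_lit 3) (.e (nat_lit 98367) (nat_lit 27) .nil)))))) (.g (nat_lit 1) (.e (nat_lit 324443) (nat_lit 0) .nil) .nil))))) (.nd (nat_lit 8) (.nd (nat_lit 9) 
(.lf (nat_lit 563394) (.g (nat_lit 1504) (.e (nat_lit 426568) (nat_lit 34) (.e (nat_lit 393251) (nat_lit 18) (.e (nat_lit 164325) (nat_lit 230) (.e (nat_lit 163844) (nat_lit 0) .nil)))) (.g (nat_lit 0) (.e (nat_lit 323414) (nat_lit 0) .nil) .nil))) 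
(.lf (nat_lit 563906) (.g (nat_lit 2027) (.e (nat_lit 442112) (nat_lit 0) (.e (nat_lit 1239) (nat_lit 91) (.e (nat_lit 90172) (nat_lit 14) (.e (nat_lit 180278) (nat_lit 32) (.e (nat_lit 1252) (nat_lit 92) .nil))))) (.g (nat_lit 0) (.e (nat_lit 324077) (nat_lit 0) .nil) .nil)))) (.nd (nat_lit 9) 
(.lf (nat_lit 563650) (.g (nat_lit 2257) (.e (nat_lit 426568) (nat_lit 34) (.e (nat_lit 393294) (nat_lit 26) (.e (nat_lit 475177) (nat_lit 24) (.e (nat_lit 516117) (nat_lit 1) (.e (nat_lit 164331) (nat_lit 230) .nil))))) (.g (nat_lit 0) (.e (nat_lit 323692) (nat_lit 0) .nil) .nil))) 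
(.lf (nat_lit 564162) (.g (nat_lit 2661) (.e (nat_lit 434212) (nat_lit 18) (.e (nat_lit 5224) (nat_lit 296) (.e (nat_lit 163871) (nat_lit 2) (.e (nat_lit 196656) (nat_lit 11) (.e (nat_lit 16465) (nat_lit 13) (.e (nat_lit 491264) (nat_lit 10) .nil)))))) (.g (nat_lit 1) (.e (nat_lit 325411) (nat_lit 0) .nil) .nil))))))) (.nd (nat_lit 6) (.nd (nat_lit 7) (.nd (nat_lit 8) (.nd (nat_lit 9) 
(.lf (nat_lit 563234) (.g (nat_lit 2500) (.e (nat_lit 426566) (nat_lit 34) (.e (nat_lit 393294) (nat_lit 26) (.e (nat_lit 475177) (nat_lit 24) (.e (nat_lit 516117) (nat_lit 1) (.e (nat_lit 164330) (nat_lit 230) (.e (nat_lit 171776) (nat_lit 12) .nil)))))) (.g (nat_lit 1) (.e (nat_lit 323216) (nat_lit 0) .nil) .nil))) 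
(.lf (nat_lit 563746) (.g (nat_lit 1605) (.e (nat_lit 434179) (nat_lit 0) (.e (nat_lit 1512) (nat_lit 108) (.e (nat_lit 336051) (nat_lit 6) (.e (nat_lit 147495) (nat_lit 11) (.e (nat_lit 24631) (nat_lit 9) .nil))))) (.g (nat_lit 0) (.e (nat_lit 323826) (nat_lit 0) .nil) .nil)))) (.nd (nat_lit 9) 
(.lf (nat_lit 563490) (.g (nat_lit 3415) (.e (nat_lit 426568) (nat_lit 34) (.e (nat_lit 393267) (nat_lit 23) (.e (nat_lit 426436) (nat_lit 18) (.e (nat_lit 98333) (nat_lit 18) (.e (nat_lit 164325) (nat_lit 230) (.e (nat_lit 163903) (nat_lit 12) .nil)))))) (.g (nat_lit 1) (.e (nat_lit 323513) (nat_lit 0) .nil) .nil))) 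
(.lf (nat_lit 564002) (.g (nat_lit 627) (.e (nat_lit 442112) (nat_lit 7) (.e (nat_lit 131139) (nat_lit 27) (.e (nat_lit 426315) (nat_lit 12) (.e (nat_lit 475209) (nat_lit 41) .nil)))) (.g (nat_lit 0) (.e (nat_lit 324255) (nat_lit 0) .nil) .nil))))) (.nd (nat_lit 8) (.nd (nat_lit 9) 
(.lf (nat_lit 563362) (.g (nat_lit 670) (.e (nat_lit 426567) (nat_lit 34) (.e (nat_lit 393291) (nat_lit 26) (.e (nat_lit 475177) (nat_lit 24) .nil))) (.g (nat_lit 0) (.e (nat_lit 323373) (nat_lit 0) .nil) .nil))) 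
(.lf (nat_lit 563874) (.g (nat_lit 1844) (.e (nat_lit 434181) (nat_lit 0) (.e (nat_lit 1427) (nat_lit 108) (.e (nat_lit 336421) (nat_lit 28) (.e (nat_lit 434186) (nat_lit 13) (.e (nat_lit 2779) (nat_lit 178) (.e (nat_lit 286770) (nat_lit 28) .nil)))))) (.g (nat_lit 1) (.e (nat_lit 324032) (nat_lit 0) .nil) .nil)))) (.nd (nat_lit 9) 
(.lf (nat_lit 563618) (.g (nat_lit 3169) (.e (nat_lit 426568) (nat_lit 34) (.e (nat_lit 393287) (nat_lit 25) (.e (nat_lit 458789) (nat_lit 23) (.e (nat_lit 532499) (nat_lit 1) (.e (nat_lit 57691) (nat_lit 156) (.e (nat_lit 163907) (nat_lit 12) .nil)))))) (.g (nat_lit 1) (.e (nat_lit 323657) (nat_lit 0) .nil) .nil))) 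
(.lf (nat_lit 564130) (.g (nat_lit 4635) (.e (nat_lit 434209) (nat_lit 18) (.e (nat_lit 5547) (nat_lit 306) (.e (nat_lit 2599) (nat_lit 163) (.e (nat_lit 163979) (nat_lit 30) (.e (nat_lit 573482) (nat_lit 13) (.e (nat_lit 65604) (nat_lit 9) (.e (nat_lit 336028) (nat_lit 3) (.e (nat_lit 98367) (nat_lit 27) .nil)))))))) (.g (nat_lit 1) (.e (nat_lit 325209) (nat_lit 0) .nil) .nil)))))) 
(.nd (nat_lit 7) (.nd (nat_lit 8) (.nd (nat_lit 9) 
(.lf (nat_lit 563298) (.g (nat_lit 4212) (.e (nat_lit 426566) (nat_lit 34) (.e (nat_lit 393296) (nat_lit 26) (.e (nat_lit 475178) (nat_lit 24) (.e (nat_lit 516119) (nat_lit 1) (.e (nat_lit 164326) (nat_lit 230) (.e (nat_lit 163903) (nat_lit 12) .nil)))))) (.g (nat_lit 1) (.e (nat_lit 323282) (nat_lit 0) .nil) .nil))) 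
(.lf (nat_lit 563810) (.g (nat_lit 980) (.e (nat_lit 434180) (nat_lit 0) (.e (nat_lit 1428) (nat_lit 108) (.e (nat_lit 336421) (nat_lit 28) (.e (nat_lit 434186) (nat_lit 13) .nil)))) (.g (nat_lit 0) (.e (nat_lit 323958) (nat_lit 0) .nil) .nil)))) (.nd (nat_lit 9) 
(.lf (nat_lit 563554) (.g (nat_lit 2711) (.e (nat_lit 426568) (nat_lit 34) (.e (nat_lit 393281) (nat_lit 23) (.e (nat_lit 426139) (nat_lit 3) (.e (nat_lit 204829) (nat_lit 18) (.e (nat_lit 57692) (nat_lit 156) (.e (nat_lit 163905) (nat_lit 12) .nil)))))) (.g (nat_lit 1) (.e (nat_lit 323584) (nat_lit 0) .nil) .nil))) 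
(.lf (nat_lit 564066) (.g (nat_lit 1311) (.e (nat_lit 434202) (nat_lit 18) (.e (nat_lit 6830) (nat_lit 367) (.e (nat_lit 57427) (nat_lit 15) (.e (nat_lit 360477) (nat_lit 11) (.e (nat_lit 581651) (nat_lit 4) .nil))))) (.g (nat_lit 0) (.e (nat_lit 324741) (nat_lit 0) .nil) .nil))))) (.nd (nat_lit 8) (.nd (nat_lit 9) 
(.lf (nat_lit 563426) (.g (nat_lit 923) (.e (nat_lit 426568) (nat_lit 34) (.e (nat_lit 393252) (nat_lit 18) (.e (nat_lit 164332) (nat_lit 230) (.e (nat_lit 163874) (nat_lit 3) .nil)))) (.g (nat_lit 0) (.e (nat_lit 323446) (nat_lit 0) .nil) .nil))) 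
(.lf (nat_lit 563938) (.g (nat_lit 1580) (.e (nat_lit 442112) (nat_lit 4) (.e (nat_lit 65653) (nat_lit 27) (.e (nat_lit 426011) (nat_lit 0) (.e (nat_lit 7587) (nat_lit 406) (.e (nat_lit 73472) (nat_lit 28) .nil))))) (.g (nat_lit 0) (.e (nat_lit 324149) (nat_lit 0) .nil) .nil)))) (.nd (nat_lit 9) 
(.lf (nat_lit 563682) (.g (nat_lit 1160) (.e (nat_lit 433920) (nat_lit 34) (.e (nat_lit 393253) (nat_lit 18) (.e (nat_lit 164329) (nat_lit 230) (.e (nat_lit 163873) (nat_lit 3) (.e (nat_lit 204811) (nat_lit 9) .nil))))) (.g (nat_lit 0) (.e (nat_lit 323733) (nat_lit 0) .nil) .nil))) 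
(.lf (nat_lit 564194) (.g (nat_lit 3747) (.e (nat_lit 434212) (nat_lit 18) (.e (nat_lit 6425) (nat_lit 342) (.e (nat_lit 229415) (nat_lit 15) (.e (nat_lit 450603) (nat_lit 22) (.e (nat_lit 704738) (nat_lit 11) (.e (nat_lit 16449) (nat_lit 10) .nil)))))) (.g (nat_lit 1) (.e (nat_lit 325465) (nat_lit 0) .nil) .nil)))))))) 
(.nd (nat_lit 5) (.nd (nat_lit 6) (.nd (nat_lit 7) (.nd (nat_lit 8) (.nd (nat_lit 9) 
(.lf (nat_lit 563218) (.g (nat_lit 1787) (.e (nat_lit 426566) (nat_lit 34) (.e (nat_lit 393294) (nat_lit 26) (.e (nat_lit 475177) (nat_lit 24) (.e (nat_lit 516097) (nat_lit 0) .nil)))) (.g (nat_lit 0) (.e (nat_lit 323200) (nat_lit 0) .nil) .nil))) 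
(.lf (nat_lit 563730) (.g (nat_lit 1406) (.e (nat_lit 433920) (nat_lit 35) (.e (nat_lit 401454) (nat_lit 12) (.e (nat_lit 475177) (nat_lit 24) .nil))) (.g (nat_lit 0) (.e (nat_lit 323800) (nat_lit 0) .nil) .nil)))) (.nd (nat_lit 9) 
(.lf (nat_lit 563474) (.g (nat_lit 969) (.e (nat_lit 426568) (nat_lit 34) (.e (nat_lit 393253) (nat_lit 18) (.e (nat_lit 164403) (nat_lit 256) (.e (nat_lit 57371) (nat_lit 2) .nil)))) (.g (nat_lit 0) (.e (nat_lit 323495) (nat_lit 0) .nil) .nil))) 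
(.lf (nat_lit 563986) (.g (nat_lit 1705) (.e (nat_lit 442112) (nat_lit 5) (.e (nat_lit 73775) (nat_lit 26) (.e (nat_lit 778362) (nat_lit 9) (.e (nat_lit 334) (nat_lit 26) (.e (nat_lit 384768) (nat_lit 12) .nil))))) (.g (nat_lit 0) (.e (nat_lit 324219) (nat_lit 0) .nil) .nil))))) (.nd (nat_lit 8) (.nd (nat_lit 9) 
(.lf (nat_lit 563346) (.g (nat_lit 2747) (.e (nat_lit 426567) (nat_lit 34) (.e (nat_lit 393260) (nat_lit 21) (.e (nat_lit 409616) (nat_lit 10) (.e (nat_lit 604) (nat_lit 45) (.e (nat_lit 532513) (nat_lit 3) (.e (nat_lit 122624) (nat_lit 11) .nil)))))) (.g (nat_lit 1) (.e (nat_lit 323356) (nat_lit 0) .nil) .nil))) 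
(.lf (nat_lit 563858) (.g (nat_lit 4326) (.e (nat_lit 434181) (nat_lit 0) (.e (nat_lit 1253) (nat_lit 92) (.e (nat_lit 98373) (nat_lit 29) (.e (nat_lit 450588) (nat_lit 10) (.e (nat_lit 573449) (nat_lit 9) (.e (nat_lit 7936) (nat_lit 33) .nil)))))) (.g (nat_lit 1) (.e (nat_lit 324016) (nat_lit 0) .nil) .nil)))) (.nd (nat_lit 9) 
(.lf (nat_lit 563602) (.g (nat_lit 2422) (.e (nat_lit 426568) (nat_lit 34) (.e (nat_lit 393284) (nat_lit 24) (.e (nat_lit 434231) (nat_lit 23) (.e (nat_lit 532499) (nat_lit 1) (.e (nat_lit 57686) (nat_lit 156) .nil))))) (.g (nat_lit 0) (.e (nat_lit 323637) (nat_lit 0) .nil) .nil))) 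
(.lf (nat_lit 564114) (.g (nat_lit 1949) (.e (nat_lit 434209) (nat_lit 18) (.e (nat_lit 5224) (nat_lit 296) (.e (nat_lit 163868) (nat_lit 2) (.e (nat_lit 196656) (nat_lit 11) (.e (nat_lit 16463) (nat_lit 13) .nil))))) (.g (nat_lit 0) (.e (nat_lit 325104) (nat_lit 0) .nil) .nil)))))) (.nd (nat_lit 7) (.nd (nat_lit 8) (.nd (nat_lit 9) 
(.lf (nat_lit 563282) (.g (nat_lit 3157) (.e (nat_lit 426566) (nat_lit 34) (.e (nat_lit 393296) (nat_lit 26) (.e (nat_lit 475177) (nat_lit 24) (.e (nat_lit 516118) (nat_lit 1) (.e (nat_lit 164330) (nat_lit 230) (.e (nat_lit 163902) (nat_lit 12) .nil)))))) (.g (nat_lit 1) (.e (nat_lit 323266) (nat_lit 0) .nil) .nil))) 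
(.lf (nat_lit 563794) (.g (nat_lit 1888) (.e (nat_lit 434180) (nat_lit 0) (.e (nat_lit 1427) (nat_lit 108) (.e (nat_lit 336414) (nat_lit 27) (.e (nat_lit 426347) (nat_lit 14) (.e (nat_lit 491548) (nat_lit 9) .nil))))) (.g (nat_lit 0) (.e (nat_lit 323941) (nat_lit 0) .nil) .nil)))) (.nd (nat_lit 9) 
(.lf (nat_lit 563538) (.g (nat_lit 3049) (.e (nat_lit 426568) (nat_lit 34) (.e (nat_lit 393279) (nat_lit 23) (.e (nat_lit 426129) (nat_lit 3) (.e (nat_lit 204829) (nat_lit 18) (.e (nat_lit 57688) (nat_lit 156) (.e (nat_lit 163903) (nat_lit 12) .nil)))))) (.g (nat_lit 1) (.e (nat_lit 323566) (nat_lit 0) .nil) .nil))) 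
(.lf (nat_lit 564050) (.g (nat_lit 2201) (.e (nat_lit 434202) (nat_lit 18) (.e (nat_lit 6252) (nat_lit 337) (.e (nat_lit 2651) (nat_lit 166) (.e (nat_lit 188434) (nat_lit 20) (.e (nat_lit 3469) (nat_lit 217) .nil))))) (.g (nat_lit 0) (.e (nat_lit 324611) (nat_lit 0) .nil) .nil))))) (.nd (nat_lit 8) (.nd (nat_lit 9) 
(.lf (nat_lit 563410) (.g (nat_lit 2799) (.e (nat_lit 426568) (nat_lit 34) (.e (nat_lit 393251) (nat_lit 18) (.e (nat_lit 164398) (nat_lit 256) (.e (nat_lit 57379) (nat_lit 3) (.e (nat_lit 98354) (nat_lit 26) .nil))))) (.g (nat_lit 0) (.e (nat_lit 323430) (nat_lit 0) .nil) .nil))) 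
(.lf (nat_lit 563922) (.g (nat_lit 1058) (.e (nat_lit 442112) (nat_lit 0) (.e (nat_lit 1659) (nat_lit 115) (.e (nat_lit 393234) (nat_lit 17) (.e (nat_lit 7587) (nat_lit 406) .nil)))) (.g (nat_lit 0) (.e (nat_lit 324093) (nat_lit 0) .nil) .nil)))) (.nd (nat_lit 9) 
(.lf (nat_lit 563666) (.g (nat_lit 2508) (.e (nat_lit 426568) (nat_lit 34) (.e (nat_lit 393301) (nat_lit 27) (.e (nat_lit 491539) (nat_lit 3) (.e (nat_lit 98335) (nat_lit 18) (.e (nat_lit 164232) (nat_lit 185) .nil))))) (.g (nat_lit 0) (.e (nat_lit 323716) (nat_lit 0) .nil) .nil))) 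
(.lf (nat_lit 564178) (.g (nat_lit 2945) (.e (nat_lit 434212) (nat_lit 18) (.e (nat_lit 6425) (nat_lit 342) (.e (nat_lit 229413) (nat_lit 15) (.e (nat_lit 450604) (nat_lit 22) (.e (nat_lit 704738) (nat_lit 11) (.e (nat_lit 16449) (nat_lit 10) .nil)))))) (.g (nat_lit 1) (.e (nat_lit 325448) (nat_lit 0) .nil) .nil))))))) (.nd (nat_lit 6) (.nd (nat_lit 7) (.nd (nat_lit 8) (.nd (nat_lit 9) 
(.lf (nat_lit 563250) (.g (nat_lit 3827) (.e (nat_lit 426566) (nat_lit 34) (.e (nat_lit 393294) (nat_lit 26) (.e (nat_lit 475179) (nat_lit 24) (.e (nat_lit 516115) (nat_lit 1) (.e (nat_lit 164325) (nat_lit 230) (.e (nat_lit 163901) (nat_lit 12) .nil)))))) (.g (nat_lit 1) (.e (nat_lit 323233) (nat_lit 0) .nil) .nil))) 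
(.lf (nat_lit 563762) (.g (nat_lit 3381) (.e (nat_lit 434180) (nat_lit 0) (.e (nat_lit 1235) (nat_lit 91) (.e (nat_lit 90170) (nat_lit 13) (.e (nat_lit 172106) (nat_lit 10) (.e (nat_lit 434244) (nat_lit 28) (.e (nat_lit 573451) (nat_lit 9) (.e (nat_lit 7936) (nat_lit 33) .nil))))))) (.g (nat_lit 1) (.e (nat_lit 323909) (nat_lit 0) .nil) .nil)))) (.nd (nat_lit 9) 
(.lf (nat_lit 563506) (.g (nat_lit 2434) (.e (nat_lit 426568) (nat_lit 34) (.e (nat_lit 393271) (nat_lit 23) (.e (nat_lit 426131) (nat_lit 3) (.e (nat_lit 204829) (nat_lit 18) (.e (nat_lit 57665) (nat_lit 152) (.e (nat_lit 2466) (nat_lit 157) (.e (nat_lit 2859) (nat_lit 184) .nil))))))) (.g (nat_lit 1) (.e (nat_lit 323530) (nat_lit 0) .nil) .nil))) 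
(.lf (nat_lit 564018) (.g (nat_lit 1911) (.e (nat_lit 434184) (nat_lit 8) (.e (nat_lit 2682) (nat_lit 168) (.e (nat_lit 204846) (nat_lit 24) (.e (nat_lit 319534) (nat_lit 16) (.e (nat_lit 286734) (nat_lit 3) .nil))))) (.g (nat_lit 0) (.e (nat_lit 324287) (nat_lit 0) .nil) .nil))))) (.nd (nat_lit 8) (.nd (nat_lit 9) 
(.lf (nat_lit 563378) (.g (nat_lit 2182) (.e (nat_lit 426567) (nat_lit 34) (.e (nat_lit 393294) (nat_lit 26) (.e (nat_lit 475177) (nat_lit 24) (.e (nat_lit 516118) (nat_lit 1) .nil)))) (.g (nat_lit 0) (.e (nat_lit 323389) (nat_lit 0) .nil) .nil))) 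
(.lf (nat_lit 563890) (.g (nat_lit 809) (.e (nat_lit 434181) (nat_lit 0) (.e (nat_lit 1660) (nat_lit 115) (.e (nat_lit 393238) (nat_lit 17) (.e (nat_lit 6989) (nat_lit 377) .nil)))) (.g (nat_lit 0) (.e (nat_lit 324050) (nat_lit 0) .nil) .nil)))) (.nd (nat_lit 9) 
(.lf (nat_lit 563634) (.g (nat_lit 2193) (.e (nat_lit 426568) (nat_lit 34) (.e (nat_lit 393292) (nat_lit 26) (.e (nat_lit 475177) (nat_lit 24) (.e (nat_lit 516117) (nat_lit 1) (.e (nat_lit 164329) (nat_lit 230) (.e (nat_lit 163902) (nat_lit 12) .nil)))))) (.g (nat_lit 1) (.e (nat_lit 323675) (nat_lit 0) .nil) .nil))) 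
(.lf (nat_lit 564146) (.g (nat_lit 1519) (.e (nat_lit 434209) (nat_lit 18) (.e (nat_lit 5548) (nat_lit 306) (.e (nat_lit 2650) (nat_lit 166) (.e (nat_lit 188425) (nat_lit 20) .nil)))) (.g (nat_lit 0) (.e (nat_lit 325302) (nat_lit 0) .nil) .nil)))))) (.nd (nat_lit 7) (.nd (nat_lit 8) (.nd (nat_lit 9) 
(.lf (nat_lit 563314) (.g (nat_lit 1726) (.e (nat_lit 426567) (nat_lit 34) (.e (nat_lit 393251) (nat_lit 18) (.e (nat_lit 164325) (nat_lit 230) (.e (nat_lit 163869) (nat_lit 2) (.e (nat_lit 196654) (nat_lit 11) .nil))))) (.g (nat_lit 0) (.e (nat_lit 323320) (nat_lit 0) .nil) .nil))) 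
(.lf (nat_lit 563826) (.g (nat_lit 1531) (.e (nat_lit 434180) (nat_lit 0) (.e (nat_lit 1661) (nat_lit 115) (.e (nat_lit 393238) (nat_lit 17) (.e (nat_lit 7559) (nat_lit 402) .nil)))) (.g (nat_lit 0) (.e (nat_lit 323980) (nat_lit 0) .nil) .nil)))) (.nd (nat_lit 9) 
(.lf (nat_lit 563570) (.g (nat_lit 367) (.e (nat_lit 426568) (nat_lit 34) (.e (nat_lit 393282) (nat_lit 24) (.e (nat_lit 434232) (nat_lit 23) .nil))) (.g (nat_lit 0) (.e (nat_lit 323600) (nat_lit 0) .nil) .nil))) 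
(.lf (nat_lit 564082) (.g (nat_lit 1519) (.e (nat_lit 434207) (nat_lit 18) (.e (nat_lit 6255) (nat_lit 337) (.e (nat_lit 2725) (nat_lit 172) (.e (nat_lit 237605) (nat_lit 9) (.e (nat_lit 425986) (nat_lit 0) .nil))))) (.g (nat_lit 0) (.e (nat_lit 324880) (nat_lit 0) .nil) .nil))))) (.nd (nat_lit 8) (.nd (nat_lit 9) 
(.lf (nat_lit 563442) (.g (nat_lit 2755) (.e (nat_lit 426568) (nat_lit 34) (.e (nat_lit 393253) (nat_lit 18) (.e (nat_lit 164324) (nat_lit 230) (.e (nat_lit 163874) (nat_lit 3) (.e (nat_lit 204809) (nat_lit 9) .nil))))) (.g (nat_lit 0) (.e (nat_lit 323463) (nat_lit 0) .nil) .nil))) 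
(.lf (nat_lit 563954) (.g (nat_lit 1646) (.e (nat_lit 442112) (nat_lit 4) (.e (nat_lit 65653) (nat_lit 27) (.e (nat_lit 426344) (nat_lit 14) (.e (nat_lit 491556) (nat_lit 9) (.e (nat_lit 343808) (nat_lit 28) .nil))))) (.g (nat_lit 0) (.e (nat_lit 324175) (nat_lit 0) .nil) .nil)))) (.nd (nat_lit 9) 
(.lf (nat_lit 563698) (.g (nat_lit 462) (.e (nat_lit 433920) (nat_lit 34) (.e (nat_lit 393273) (nat_lit 23) (.e (nat_lit 426131) (nat_lit 3) .nil))) (.g (nat_lit 0) (.e (nat_lit 323749) (nat_lit 0) .nil) .nil))) 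
(.lf (nat_lit 564210) (.g (nat_lit 2767) (.e (nat_lit 434216) (nat_lit 18) (.e (nat_lit 5946) (nat_lit 322) (.e (nat_lit 57378) (nat_lit 3) (.e (nat_lit 98365) (nat_lit 26) (.e (nat_lit 426325) (nat_lit 13) (.e (nat_lit 491264) (nat_lit 10) .nil)))))) (.g (nat_lit 1) (.e (nat_lit 325513) (nat_lit 0) .nil) .nil))))))))) 
(.nd (nat_lit 4) (.nd (nat_lit 5) (.nd (nat_lit 6) (.nd (nat_lit 7) (.nd (nat_lit 8) 
(.nd (nat_lit 9) 
(.lf (nat_lit 563210) (.g (nat_lit 2383) (.e (nat_lit 426566) (nat_lit 34) (.e (nat_lit 393294) (nat_lit 26) (.e (nat_lit 475176) (nat_lit 24) (.e (nat_lit 516116) (nat_lit 1) (.e (nat_lit 164329) (nat_lit 230) (.e (nat_lit 163904) (nat_lit 12) .nil)))))) (.g (nat_lit 1) (.e (nat_lit 323192) (nat_lit 0) .nil) .nil))) 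
(.lf (nat_lit 563722) (.g (nat_lit 1365) (.e (nat_lit 426572) (nat_lit 35) (.e (nat_lit 401434) (nat_lit 9) (.e (nat_lit 426125) (nat_lit 2) (.e (nat_lit 204544) (nat_lit 2) .nil)))) (.g (nat_lit 0) (.e (nat_lit 323788) (nat_lit 0) .nil) .nil)))) (.nd (nat_lit 9) 
(.lf (nat_lit 563466) (.g (nat_lit 2198) (.e (nat_lit 426568) (nat_lit 34) (.e (nat_lit 393253) (nat_lit 18) (.e (nat_lit 164331) (nat_lit 230) (.e (nat_lit 163874) (nat_lit 3) (.e (nat_lit 204813) (nat_lit 9) .nil))))) (.g (nat_lit 0) (.e (nat_lit 323487) (nat_lit 0) .nil) .nil))) 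
(.lf (nat_lit 563978) (.g (nat_lit 1265) (.e (nat_lit 442112) (nat_lit 5) (.e (nat_lit 73731) (nat_lit 0) (.e (nat_lit 7265) (nat_lit 384) (.e (nat_lit 57436) (nat_lit 17) (.e (nat_lit 384768) (nat_lit 12) .nil))))) (.g (nat_lit 0) (.e (nat_lit 324201) (nat_lit 0) .nil) .nil))))) (.nd (nat_lit 8) (.nd (nat_lit 9) 
(.lf (nat_lit 563338) (.g (nat_lit 1767) (.e (nat_lit 426567) (nat_lit 34) (.e (nat_lit 393253) (nat_lit 18) (.e (nat_lit 164327) (nat_lit 230) (.e (nat_lit 163868) (nat_lit 2) .nil)))) (.g (nat_lit 0) (.e (nat_lit 323347) (nat_lit 0) .nil) .nil))) 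
(.lf (nat_lit 563850) (.g (nat_lit 3789) (.e (nat_lit 434181) (nat_lit 0) (.e (nat_lit 1252) (nat_lit 92) (.e (nat_lit 98373) (nat_lit 29) (.e (nat_lit 450588) (nat_lit 10) (.e (nat_lit 573457) (nat_lit 9) .nil))))) (.g (nat_lit 0) (.e (nat_lit 324008) (nat_lit 0) .nil) .nil)))) (.nd (nat_lit 9) 
(.lf (nat_lit 563594) (.g (nat_lit 1082) (.e (nat_lit 426568) (nat_lit 34) (.e (nat_lit 393283) (nat_lit 24) (.e (nat_lit 434234) (nat_lit 23) (.e (nat_lit 532499) (nat_lit 1) (.e (nat_lit 57688) (nat_lit 156) .nil))))) (.g (nat_lit 0) (.e (nat_lit 323626) (nat_lit 0) .nil) .nil))) 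
(.lf (nat_lit 564106) (.g (nat_lit 930) (.e (nat_lit 434208) (nat_lit 18) (.e (nat_lit 6421) (nat_lit 341) (.e (nat_lit 163923) (nat_lit 15) (.e (nat_lit 450601) (nat_lit 21) .nil)))) (.g (nat_lit 0) (.e (nat_lit 325047) (nat_lit 0) .nil) .nil)))))) (.nd (nat_lit 7) (.nd (nat_lit 8) (.nd (nat_lit 9) 
(.lf (nat_lit 563274) (.g (nat_lit 3685) (.e (nat_lit 426566) (nat_lit 34) (.e (nat_lit 393296) (nat_lit 26) (.e (nat_lit 475176) (nat_lit 24) (.e (nat_lit 516115) (nat_lit 1) (.e (nat_lit 164325) (nat_lit 230) (.e (nat_lit 163907) (nat_lit 12) .nil)))))) (.g (nat_lit 1) (.e (nat_lit 323258) (nat_lit 0) .nil) .nil))) 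
(.lf (nat_lit 563786) (.g (nat_lit 4585) (.e (nat_lit 434180) (nat_lit 0) (.e (nat_lit 1253) (nat_lit 92) (.e (nat_lit 98373) (nat_lit 29) (.e (nat_lit 450588) (nat_lit 10) (.e (nat_lit 573454) (nat_lit 9) .nil))))) (.g (nat_lit 0) (.e (nat_lit 323933) (nat_lit 0) .nil) .nil)))) (.nd (nat_lit 9) 
(.lf (nat_lit 563530) (.g (nat_lit 1992) (.e (nat_lit 426568) (nat_lit 34) (.e (nat_lit 393271) (nat_lit 23) (.e (nat_lit 426436) (nat_lit 18) (.e (nat_lit 106240) (nat_lit 3) .nil)))) (.g (nat_lit 0) (.e (nat_lit 323554) (nat_lit 0) .nil) .nil))) 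
(.lf (nat_lit 564042) (.g (nat_lit 1744) (.e (nat_lit 434197) (nat_lit 16) (.e (nat_lit 164339) (nat_lit 232) (.e (nat_lit 403) (nat_lit 32) (.e (nat_lit 426340) (nat_lit 14) (.e (nat_lit 491550) (nat_lit 9) (.e (nat_lit 336421) (nat_lit 28) .nil)))))) (.g (nat_lit 1) (.e (nat_lit 324510) (nat_lit 0) .nil) .nil))))) (.nd (nat_lit 8) (.nd (nat_lit 9) 
(.lf (nat_lit 563402) (.g (nat_lit 1406) (.e (nat_lit 426568) (nat_lit 34) (.e (nat_lit 393251) (nat_lit 18) (.e (nat_lit 164331) (nat_lit 230) (.e (nat_lit 163873) (nat_lit 3) .nil)))) (.g (nat_lit 0) (.e (nat_lit 323422) (nat_lit 0) .nil) .nil))) 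
(.lf (nat_lit 563914) (.g (nat_lit 1711) (.e (nat_lit 442112) (nat_lit 0) (.e (nat_lit 1427) (nat_lit 108) (.e (nat_lit 336421) (nat_lit 28) (.e (nat_lit 434198) (nat_lit 17) (.e (nat_lit 229646) (nat_lit 232) .nil))))) (.g (nat_lit 0) (.e (nat_lit 324085) (nat_lit 0) .nil) .nil)))) (.nd (nat_lit 9) 
(.lf (nat_lit 563658) (.g (nat_lit 2029) (.e (nat_lit 426568) (nat_lit 34) (.e (nat_lit 393296) (nat_lit 26) (.e (nat_lit 475179) (nat_lit 24) (.e (nat_lit 516115) (nat_lit 1) (.e (nat_lit 164325) (nat_lit 230) .nil))))) (.g (nat_lit 0) (.e (nat_lit 323700) (nat_lit 0) .nil) .nil))) 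
(.lf (nat_lit 564170) (.g (nat_lit 1114) (.e (nat_lit 434212) (nat_lit 18) (.e (nat_lit 5548) (nat_lit 306) (.e (nat_lit 2619) (nat_lit 164) (.e (nat_lit 172126) (nat_lit 14) .nil)))) (.g (nat_lit 0) (.e (nat_lit 325438) (nat_lit 0) .nil) .nil))))))) (.nd (nat_lit 6) (.nd (nat_lit 7) (.nd (nat_lit 8) (.nd (nat_lit 9) 
(.lf (nat_lit 563242) (.g (nat_lit 2736) (.e (nat_lit 426566) (nat_lit 34) (.e (nat_lit 393294) (nat_lit 26) (.e (nat_lit 475177) (nat_lit 24) (.e (nat_lit 516119) (nat_lit 1) (.e (nat_lit 164327) (nat_lit 230) (.e (nat_lit 163904) (nat_lit 12) .nil)))))) (.g (nat_lit 1) (.e (nat_lit 323224) (nat_lit 0) .nil) .nil))) 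
(.lf (nat_lit 563754) (.g (nat_lit 3275) (.e (nat_lit 434180) (nat_lit 0) (.e (nat_lit 1234) (nat_lit 91) (.e (nat_lit 90170) (nat_lit 13) (.e (nat_lit 172113) (nat_lit 10) (.e (nat_lit 434245) (nat_lit 28) (.e (nat_lit 573451) (nat_lit 9) (.e (nat_lit 7936) (nat_lit 33) .nil))))))) (.g (nat_lit 1) (.e (nat_lit 323901) (nat_lit 0) .nil) .nil)))) (.nd (nat_lit 9) 
(.lf (nat_lit 563498) (.g (nat_lit 1970) (.e (nat_lit 426568) (nat_lit 34) (.e (nat_lit 393269) (nat_lit 23) (.e (nat_lit 426436) (nat_lit 18) (.e (nat_lit 98334) (nat_lit 18) (.e (nat_lit 164332) (nat_lit 230) (.e (nat_lit 163905) (nat_lit 12) .nil)))))) (.g (nat_lit 1) (.e (nat_lit 323522) (nat_lit 0) .nil) .nil))) 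
(.lf (nat_lit 564010) (.g (nat_lit 1894) (.e (nat_lit 442112) (nat_lit 7) (.e (nat_lit 131140) (nat_lit 27) (.e (nat_lit 426316) (nat_lit 12) (.e (nat_lit 475210) (nat_lit 41) (.e (nat_lit 712749) (nat_lit 28) .nil))))) (.g (nat_lit 0) (.e (nat_lit 324274) (nat_lit 0) .nil) .nil))))) (.nd (nat_lit 8) (.nd (nat_lit 9) 
(.lf (nat_lit 563370) (.g (nat_lit 2426) (.e (nat_lit 426567) (nat_lit 34) (.e (nat_lit 393291) (nat_lit 26) (.e (nat_lit 475179) (nat_lit 24) (.e (nat_lit 516119) (nat_lit 1) (.e (nat_lit 164326) (nat_lit 230) .nil))))) (.g (nat_lit 0) (.e (nat_lit 323381) (nat_lit 0) .nil) .nil))) 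
(.lf (nat_lit 563882) (.g (nat_lit 1219) (.e (nat_lit 434181) (nat_lit 0) (.e (nat_lit 1428) (nat_lit 108) (.e (nat_lit 336421) (nat_lit 28) (.e (nat_lit 434190) (nat_lit 13) .nil)))) (.g (nat_lit 0) (.e (nat_lit 324040) (nat_lit 0) .nil) .nil)))) (.nd (nat_lit 9) 
(.lf (nat_lit 563626) (.g (nat_lit 926) (.e (nat_lit 426568) (nat_lit 34) (.e (nat_lit 393290) (nat_lit 26) (.e (nat_lit 475177) (nat_lit 24) (.e (nat_lit 516118) (nat_lit 1) .nil)))) (.g (nat_lit 0) (.e (nat_lit 323667) (nat_lit 0) .nil) .nil))) 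
(.lf (nat_lit 564138) (.g (nat_lit 3420) (.e (nat_lit 434209) (nat_lit 18) (.e (nat_lit 5548) (nat_lit 306) (.e (nat_lit 2610) (nat_lit 163) (.e (nat_lit 163978) (nat_lit 30) (.e (nat_lit 573479) (nat_lit 13) (.e (nat_lit 65619) (nat_lit 10) (.e (nat_lit 344117) (nat_lit 21) (.e (nat_lit 516161) (nat_lit 10) .nil)))))))) (.g (nat_lit 1) (.e (nat_lit 325262) (nat_lit 0) .nil) .nil)))))) 
(.nd (nat_lit 7) (.nd (nat_lit 8) (.nd (nat_lit 9) 
(.lf (nat_lit 563306) (.g (nat_lit 2687) (.e (nat_lit 426566) (nat_lit 34) (.e (nat_lit 393296) (nat_lit 26) (.e (nat_lit 475179) (nat_lit 24) (.e (nat_lit 516116) (nat_lit 1) (.e (nat_lit 164330) (nat_lit 230) (.e (nat_lit 163902) (nat_lit 12) .nil)))))) (.g (nat_lit 1) (.e (nat_lit 323290) (nat_lit 0) .nil) .nil))) 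
(.lf (nat_lit 563818) (.g (nat_lit 1284) (.e (nat_lit 434180) (nat_lit 0) (.e (nat_lit 1637) (nat_lit 114) (.e (nat_lit 385109) (nat_lit 51) (.e (nat_lit 794684) (nat_lit 25) .nil)))) (.g (nat_lit 0) (.e (nat_lit 323966) (nat_lit 0) .nil) .nil)))) (.nd (nat_lit 9) 
(.lf (nat_lit 563562) (.g (nat_lit 2740) (.e (nat_lit 426568) (nat_lit 34) (.e (nat_lit 393282) (nat_lit 24) (.e (nat_lit 434231) (nat_lit 23) (.e (nat_lit 532499) (nat_lit 1) (.e (nat_lit 57692) (nat_lit 156) (.e (nat_lit 163906) (nat_lit 12) .nil)))))) (.g (nat_lit 1) (.e (nat_lit 323592) (nat_lit 0) .nil) .nil))) 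
(.lf (nat_lit 564074) (.g (nat_lit 1931) (.e (nat_lit 434203) (nat_lit 18) (.e (nat_lit 6421) (nat_lit 341) (.e (nat_lit 163920) (nat_lit 14) (.e (nat_lit 442412) (nat_lit 20) .nil)))) (.g (nat_lit 0) (.e (nat_lit 324805) (nat_lit 0) .nil) .nil))))) (.nd (nat_lit 8) (.nd (nat_lit 9) 
(.lf (nat_lit 563434) (.g (nat_lit 596) (.e (nat_lit 426568) (nat_lit 34) (.e (nat_lit 393252) (nat_lit 18) (.e (nat_lit 164402) (nat_lit 256) .nil))) (.g (nat_lit 0) (.e (nat_lit 323454) (nat_lit 0) .nil) .nil))) 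
(.lf (nat_lit 563946) (.g (nat_lit 947) (.e (nat_lit 442112) (nat_lit 4) (.e (nat_lit 65653) (nat_lit 27) (.e (nat_lit 426315) (nat_lit 12) (.e (nat_lit 475210) (nat_lit 41) .nil)))) (.g (nat_lit 0) (.e (nat_lit 324167) (nat_lit 0) .nil) .nil)))) (.nd (nat_lit 9) 
(.lf (nat_lit 563690) (.g (nat_lit 1067) (.e (nat_lit 433920) (nat_lit 34) (.e (nat_lit 393253) (nat_lit 18) (.e (nat_lit 164403) (nat_lit 256) (.e (nat_lit 57371) (nat_lit 2) .nil)))) (.g (nat_lit 0) (.e (nat_lit 323741) (nat_lit 0) .nil) .nil))) 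
(.lf (nat_lit 564202) (.g (nat_lit 1008) (.e (nat_lit 434213) (nat_lit 18) (.e (nat_lit 5548) (nat_lit 306) (.e (nat_lit 2640) (nat_lit 165) (.e (nat_lit 180278) (nat_lit 32) .nil)))) (.g (nat_lit 0) (.e (nat_lit 325486) (nat_lit 0) .nil) .nil)))))))) (.nd (nat_lit 5) (.nd (nat_lit 6) (.nd (nat_lit 7) (.nd (nat_lit 8) (.nd (nat_lit 9) 
(.lf (nat_lit 563226) (.g (nat_lit 2709) (.e (nat_lit 426566) (nat_lit 34) (.e (nat_lit 393294) (nat_lit 26) (.e (nat_lit 475177) (nat_lit 24) (.e (nat_lit 516115) (nat_lit 1) (.e (nat_lit 164329) (nat_lit 230) (.e (nat_lit 163904) (nat_lit 12) .nil)))))) (.g (nat_lit 1) (.e (nat_lit 323208) (nat_lit 0) .nil) .nil))) 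
(.lf (nat_lit 563738) (.g (nat_lit 2071) (.e (nat_lit 434177) (nat_lit 0) (.e (nat_lit 1234) (nat_lit 91) (.e (nat_lit 90170) (nat_lit 13) (.e (nat_lit 172113) (nat_lit 10) (.e (nat_lit 434245) (nat_lit 28) .nil))))) (.g (nat_lit 0) (.e (nat_lit 323808) (nat_lit 0) .nil) .nil)))) (.nd (nat_lit 9) 
(.lf (nat_lit 563482) (.g (nat_lit 2602) (.e (nat_lit 426568) (nat_lit 34) (.e (nat_lit 393260) (nat_lit 21) (.e (nat_lit 409616) (nat_lit 10) (.e (nat_lit 604) (nat_lit 45) (.e (nat_lit 532515) (nat_lit 3) (.e (nat_lit 122624) (nat_lit 11) .nil)))))) (.g (nat_lit 1) (.e (nat_lit 323504) (nat_lit 0) .nil) .nil))) 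
(.lf (nat_lit 563994) (.g (nat_lit 1746) (.e (nat_lit 442112) (nat_lit 5) (.e (nat_lit 73775) (nat_lit 26) (.e (nat_lit 778466) (nat_lit 11) (.e (nat_lit 24628) (nat_lit 9) (.e (nat_lit 343808) (nat_lit 28) .nil))))) (.g (nat_lit 0) (.e (nat_lit 324238) (nat_lit 0) .nil) .nil))))) (.nd (nat_lit 8) (.nd (nat_lit 9) 
(.lf (nat_lit 563354) (.g (nat_lit 1639) (.e (nat_lit 426567) (nat_lit 34) (.e (nat_lit 393270) (nat_lit 23) (.e (nat_lit 426436) (nat_lit 18) (.e (nat_lit 98335) (nat_lit 18) (.e (nat_lit 164329) (nat_lit 230) .nil))))) (.g (nat_lit 0) (.e (nat_lit 323364) (nat_lit 0) .nil) .nil))) 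
(.lf (nat_lit 563866) (.g (nat_lit 971) (.e (nat_lit 434181) (nat_lit 0) (.e (nat_lit 1425) (nat_lit 108) (.e (nat_lit 336421) (nat_lit 28) (.e (nat_lit 434187) (nat_lit 13) (.e (nat_lit 2781) (nat_lit 178) (.e (nat_lit 286770) (nat_lit 28) .nil)))))) (.g (nat_lit 1) (.e (nat_lit 324024) (nat_lit 0) .nil) .nil)))) (.nd (nat_lit 9) 
(.lf (nat_lit 563610) (.g (nat_lit 3201) (.e (nat_lit 426568) (nat_lit 34) (.e (nat_lit 393286) (nat_lit 25) (.e (nat_lit 458789) (nat_lit 23) (.e (nat_lit 532499) (nat_lit 1) (.e (nat_lit 57691) (nat_lit 156) (.e (nat_lit 163907) (nat_lit 12) .nil)))))) (.g (nat_lit 1) (.e (nat_lit 323647) (nat_lit 0) .nil) .nil))) 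
(.lf (nat_lit 564122) (.g (nat_lit 958) (.e (nat_lit 434209) (nat_lit 18) (.e (nat_lit 5939) (nat_lit 322) (.e (nat_lit 57377) (nat_lit 3) (.e (nat_lit 98365) (nat_lit 26) .nil)))) (.g (nat_lit 0) (.e (nat_lit 325157) (nat_lit 0) .nil) .nil)))))) (.nd (nat_lit 7) (.nd (nat_lit 8) (.nd (nat_lit 9) 
(.lf (nat_lit 563290) (.g (nat_lit 3757) (.e (nat_lit 426566) (nat_lit 34) (.e (nat_lit 393296) (nat_lit 26) (.e (nat_lit 475178) (nat_lit 24) (.e (nat_lit 516115) (nat_lit 1) (.e (nat_lit 164325) (nat_lit 230) (.e (nat_lit 163906) (nat_lit 12) .nil)))))) (.g (nat_lit 1) (.e (nat_lit 323274) (nat_lit 0) .nil) .nil))) 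
(.lf (nat_lit 563802) (.g (nat_lit 1267) (.e (nat_lit 434180) (nat_lit 0) (.e (nat_lit 1427) (nat_lit 108) (.e (nat_lit 336421) (nat_lit 28) (.e (nat_lit 434190) (nat_lit 13) .nil)))) (.g (nat_lit 0) (.e (nat_lit 323949) (nat_lit 0) .nil) .nil)))) (.nd (nat_lit 9) 
(.lf (nat_lit 563546) (.g (nat_lit 2979) (.e (nat_lit 426568) (nat_lit 34) (.e (nat_lit 393281) (nat_lit 23) (.e (nat_lit 426133) (nat_lit 3) (.e (nat_lit 204830) (nat_lit 18) (.e (nat_lit 57691) (nat_lit 156) (.e (nat_lit 163905) (nat_lit 12) .nil)))))) (.g (nat_lit 1) (.e (nat_lit 323576) (nat_lit 0) .nil) .nil))) 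
(.lf (nat_lit 564058) (.g (nat_lit 1424) (.e (nat_lit 434202) (nat_lit 18) (.e (nat_lit 6420) (nat_lit 341) (.e (nat_lit 163902) (nat_lit 12) (.e (nat_lit 426233) (nat_lit 9) .nil)))) (.g (nat_lit 0) (.e (nat_lit 324703) (nat_lit 0) .nil) .nil))))) (.nd (nat_lit 8) (.nd (nat_lit 9) 
(.lf (nat_lit 563418) (.g (nat_lit 1738) (.e (nat_lit 426568) (nat_lit 34) (.e (nat_lit 393252) (nat_lit 18) (.e (nat_lit 164329) (nat_lit 230) (.e (nat_lit 163873) (nat_lit 3) (.e (nat_lit 204809) (nat_lit 9) .nil))))) (.g (nat_lit 0) (.e (nat_lit 323438) (nat_lit 0) .nil) .nil))) 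
(.lf (nat_lit 563930) (.g (nat_lit 154) (.e (nat_lit 442112) (nat_lit 4) (.e (nat_lit 65580) (nat_lit 6) (.e (nat_lit 147496) (nat_lit 11) .nil))) (.g (nat_lit 0) (.e (nat_lit 324109) (nat_lit 0) .nil) .nil)))) (.nd (nat_lit 9) 
(.lf (nat_lit 563674) (.g (nat_lit 1686) (.e (nat_lit 433920) (nat_lit 34) (.e (nat_lit 393251) (nat_lit 18) (.e (nat_lit 164332) (nat_lit 230) (.e (nat_lit 163874) (nat_lit 3) (.e (nat_lit 204811) (nat_lit 9) .nil))))) (.g (nat_lit 0) (.e (nat_lit 323725) (nat_lit 0) .nil) .nil))) 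
(.lf (nat_lit 564186) (.g (nat_lit 3496) (.e (nat_lit 434212) (nat_lit 18) (.e (nat_lit 6425) (nat_lit 342) (.e (nat_lit 229415) (nat_lit 15) (.e (nat_lit 450563) (nat_lit 0) (.e (nat_lit 6255) (nat_lit 337) (.e (nat_lit 2630) (nat_lit 164) (.e (nat_lit 172113) (nat_lit 10) .nil))))))) (.g (nat_lit 1) (.e (nat_lit 325456) (nat_lit 0) .nil) .nil))))))) 
(.nd (nat_lit 6) (.nd (nat_lit 7) (.nd (nat_lit 8) (.nd (nat_lit 9) 
(.lf (nat_lit 563258) (.g (nat_lit 2580) (.e (nat_lit 426566) (nat_lit 34) (.e (nat_lit 393294) (nat_lit 26) (.e (nat_lit 475179) (nat_lit 24) (.e (nat_lit 516119) (nat_lit 1) (.e (nat_lit 164327) (nat_lit 230) (.e (nat_lit 163907) (nat_lit 12) .nil)))))) (.g (nat_lit 1) (.e (nat_lit 323241) (nat_lit 0) .nil) .nil))) 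
(.lf (nat_lit 563770) (.g (nat_lit 3343) (.e (nat_lit 434180) (nat_lit 0) (.e (nat_lit 1252) (nat_lit 92) (.e (nat_lit 98373) (nat_lit 29) (.e (nat_lit 450587) (nat_lit 10) (.e (nat_lit 573454) (nat_lit 9) (.e (nat_lit 441) (nat_lit 33) .nil)))))) (.g (nat_lit 1) (.e (nat_lit 323917) (nat_lit 0) .nil) .nil)))) (.nd (nat_lit 9) 
(.lf (nat_lit 563514) (.g (nat_lit 2216) (.e (nat_lit 426568) (nat_lit 34) (.e (nat_lit 393271) (nat_lit 23) (.e (nat_lit 426131) (nat_lit 3) (.e (nat_lit 204830) (nat_lit 18) (.e (nat_lit 57662) (nat_lit 152) (.e (nat_lit 2466) (nat_lit 157) (.e (nat_lit 2845) (nat_lit 184) .nil))))))) (.g (nat_lit 1) (.e (nat_lit 323538) (nat_lit 0) .nil) .nil))) 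
(.lf (nat_lit 564026) (.g (nat_lit 1943) (.e (nat_lit 442112) (nat_lit 8) (.e (nat_lit 2685) (nat_lit 168) (.e (nat_lit 204846) (nat_lit 24) (.e (nat_lit 319532) (nat_lit 16) (.e (nat_lit 286734) (nat_lit 3) .nil))))) (.g (nat_lit 0) (.e (nat_lit 324314) (nat_lit 0) .nil) .nil))))) (.nd (nat_lit 8) (.nd (nat_lit 9) 
(.lf (nat_lit 563386) (.g (nat_lit 2997) (.e (nat_lit 426567) (nat_lit 34) (.e (nat_lit 393294) (nat_lit 26) (.e (nat_lit 475179) (nat_lit 24) (.e (nat_lit 516119) (nat_lit 1) (.e (nat_lit 164327) (nat_lit 230) (.e (nat_lit 163903) (nat_lit 12) .nil)))))) (.g (nat_lit 1) (.e (nat_lit 323397) (nat_lit 0) .nil) .nil))) 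
(.lf (nat_lit 563898) (.g (nat_lit 1370) (.e (nat_lit 434181) (nat_lit 0) (.e (nat_lit 1661) (nat_lit 115) (.e (nat_lit 393238) (nat_lit 17) (.e (nat_lit 7521) (nat_lit 402) .nil)))) (.g (nat_lit 0) (.e (nat_lit 324058) (nat_lit 0) .nil) .nil)))) (.nd (nat_lit 9) 
(.lf (nat_lit 563642) (.g (nat_lit 3280) (.e (nat_lit 426568) (nat_lit 34) (.e (nat_lit 393293) (nat_lit 26) (.e (nat_lit 475179) (nat_lit 24) (.e (nat_lit 516119) (nat_lit 1) (.e (nat_lit 164325) (nat_lit 230) (.e (nat_lit 163903) (nat_lit 12) .nil)))))) (.g (nat_lit 1) (.e (nat_lit 323683) (nat_lit 0) .nil) .nil))) 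
(.lf (nat_lit 564154) (.g (nat_lit 3275) (.e (nat_lit 434209) (nat_lit 18) (.e (nat_lit 6428) (nat_lit 342) (.e (nat_lit 229415) (nat_lit 15) (.e (nat_lit 450601) (nat_lit 21) (.e (nat_lit 696344) (nat_lit 8) (.e (nat_lit 172106) (nat_lit 10) .nil)))))) (.g (nat_lit 1) (.e (nat_lit 325377) (nat_lit 0) .nil) .nil)))))) (.nd (nat_lit 7) (.nd (nat_lit 8) (.nd (nat_lit 9) 
(.lf (nat_lit 563322) (.g (nat_lit 1204) (.e (nat_lit 426567) (nat_lit 34) (.e (nat_lit 393251) (nat_lit 18) (.e (nat_lit 164332) (nat_lit 230) .nil))) (.g (nat_lit 0) (.e (nat_lit 323329) (nat_lit 0) .nil) .nil))) 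
(.lf (nat_lit 563834) (.g (nat_lit 3419) (.e (nat_lit 434181) (nat_lit 0) (.e (nat_lit 1234) (nat_lit 91) (.e (nat_lit 90170) (nat_lit 13) (.e (nat_lit 172113) (nat_lit 10) (.e (nat_lit 434248) (nat_lit 28) (.e (nat_lit 573452) (nat_lit 9) (.e (nat_lit 7936) (nat_lit 33) .nil))))))) (.g (nat_lit 1) (.e (nat_lit 323992) (nat_lit 0) .nil) .nil)))) (.nd (nat_lit 9) 
(.lf (nat_lit 563578) (.g (nat_lit 903) (.e (nat_lit 426568) (nat_lit 34) (.e (nat_lit 393283) (nat_lit 24) (.e (nat_lit 434231) (nat_lit 23) (.e (nat_lit 532499) (nat_lit 1) .nil)))) (.g (nat_lit 0) (.e (nat_lit 323610) (nat_lit 0) .nil) .nil))) 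
(.lf (nat_lit 564090) (.g (nat_lit 1499) (.e (nat_lit 434208) (nat_lit 18) (.e (nat_lit 5966) (nat_lit 324) (.e (nat_lit 163875) (nat_lit 3) (.e (nat_lit 204883) (nat_lit 33) (.e (nat_lit 401459) (nat_lit 13) .nil))))) (.g (nat_lit 0) (.e (nat_lit 324948) (nat_lit 0) .nil) .nil))))) (.nd (nat_lit 8) (.nd (nat_lit 9) 
(.lf (nat_lit 563450) (.g (nat_lit 2580) (.e (nat_lit 426568) (nat_lit 34) (.e (nat_lit 393253) (nat_lit 18) (.e (nat_lit 164326) (nat_lit 230) (.e (nat_lit 163871) (nat_lit 2) (.e (nat_lit 196656) (nat_lit 11) (.e (nat_lit 16432) (nat_lit 9) .nil)))))) (.g (nat_lit 1) (.e (nat_lit 323471) (nat_lit 0) .nil) .nil))) 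
(.lf (nat_lit 563962) (.g (nat_lit 1482) (.e (nat_lit 442112) (nat_lit 5) (.e (nat_lit 73729) (nat_lit 0) (.e (nat_lit 7265) (nat_lit 384) (.e (nat_lit 57423) (nat_lit 14) (.e (nat_lit 360192) (nat_lit 12) .nil))))) (.g (nat_lit 0) (.e (nat_lit 324184) (nat_lit 0) .nil) .nil)))) (.nd (nat_lit 9) 
(.lf (nat_lit 563706) (.g (nat_lit 590) (.e (nat_lit 426569) (nat_lit 35) (.e (nat_lit 401452) (nat_lit 12) (.e (nat_lit 475181) (nat_lit 27) .nil))) (.g (nat_lit 0) (.e (nat_lit 323762) (nat_lit 0) .nil) .nil))) 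
(.lf (nat_lit 564218) (.g (nat_lit 2210) (.e (nat_lit 442112) (nat_lit 18) (.e (nat_lit 5937) (nat_lit 322) (.e (nat_lit 57378) (nat_lit 3) (.e (nat_lit 98365) (nat_lit 26) (.e (nat_lit 426327) (nat_lit 13) .nil))))) (.g (nat_lit 0) (.e (nat_lit 325531) (nat_lit 0) .nil) .nil)))))))))) 
(.nd (nat_lit 3) (.nd (nat_lit 4) (.nd (nat_lit 5) (.nd (nat_lit 6) (.nd (nat_lit 7) 
(.nd (nat_lit 8) (.nd (nat_lit 9) 
(.lf (nat_lit 563206) (.g (nat_lit 2456) (.e (nat_lit 426566) (nat_lit 34) (.e (nat_lit 393294) (nat_lit 26) (.e (nat_lit 475175) (nat_lit 24) (.e (nat_lit 516116) (nat_lit 1) (.e (nat_lit 164329) (nat_lit 230) (.e (nat_lit 163902) (nat_lit 12) .nil)))))) (.g (nat_lit 1) (.e (nat_lit 323188) (nat_lit 0) .nil) .nil))) 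
(.lf (nat_lit 563718) (.g (nat_lit 402) (.e (nat_lit 426570) (nat_lit 35) (.e (nat_lit 401454) (nat_lit 12) (.e (nat_lit 483072) (nat_lit 26) .nil))) (.g (nat_lit 0) (.e (nat_lit 323779) (nat_lit 0) .nil) .nil)))) (.nd (nat_lit 9) 
(.lf (nat_lit 563462) (.g (nat_lit 2090) (.e (nat_lit 426568) (nat_lit 34) (.e (nat_lit 393253) (nat_lit 18) (.e (nat_lit 164329) (nat_lit 230) (.e (nat_lit 163869) (nat_lit 2) (.e (nat_lit 196654) (nat_lit 11) .nil))))) (.g (nat_lit 0) (.e (nat_lit 323483) (nat_lit 0) .nil) .nil))) 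
(.lf (nat_lit 563974) (.g (nat_lit 1129) (.e (nat_lit 442112) (nat_lit 5) (.e (nat_lit 73731) (nat_lit 0) (.e (nat_lit 7261) (nat_lit 384) (.e (nat_lit 57436) (nat_lit 17) (.e (nat_lit 384768) (nat_lit 12) .nil))))) (.g (nat_lit 0) (.e (nat_lit 324196) (nat_lit 0) .nil) .nil))))) (.nd (nat_lit 8) (.nd (nat_lit 9) 
(.lf (nat_lit 563334) (.g (nat_lit 1329) (.e (nat_lit 426567) (nat_lit 34) (.e (nat_lit 393252) (nat_lit 18) (.e (nat_lit 164332) (nat_lit 230) (.e (nat_lit 163869) (nat_lit 2) .nil)))) (.g (nat_lit 0) (.e (nat_lit 323343) (nat_lit 0) .nil) .nil))) 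
(.lf (nat_lit 563846) (.g (nat_lit 2148) (.e (nat_lit 434181) (nat_lit 0) (.e (nat_lit 1235) (nat_lit 91) (.e (nat_lit 90170) (nat_lit 13) (.e (nat_lit 172115) (nat_lit 10) (.e (nat_lit 434244) (nat_lit 28) .nil))))) (.g (nat_lit 0) (.e (nat_lit 324004) (nat_lit 0) .nil) .nil)))) (.nd (nat_lit 9) 
(.lf (nat_lit 563590) (.g (nat_lit 4266) (.e (nat_lit 426568) (nat_lit 34) (.e (nat_lit 393283) (nat_lit 24) (.e (nat_lit 434231) (nat_lit 23) (.e (nat_lit 532500) (nat_lit 1) (.e (nat_lit 57691) (nat_lit 156) (.e (nat_lit 163907) (nat_lit 12) .nil)))))) (.g (nat_lit 1) (.e (nat_lit 323622) (nat_lit 0) .nil) .nil))) 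
(.lf (nat_lit 564102) (.g (nat_lit 1543) (.e (nat_lit 434208) (nat_lit 18) (.e (nat_lit 6420) (nat_lit 341) (.e (nat_lit 163902) (nat_lit 12) (.e (nat_lit 426432) (nat_lit 17) .nil)))) (.g (nat_lit 0) (.e (nat_lit 325015) (nat_lit 0) .nil) .nil)))))) (.nd (nat_lit 7) (.nd (nat_lit 8) (.nd (nat_lit 9) 
(.lf (nat_lit 563270) (.g (nat_lit 3161) (.e (nat_lit 426566) (nat_lit 34) (.e (nat_lit 393296) (nat_lit 26) (.e (nat_lit 475175) (nat_lit 24) (.e (nat_lit 516120) (nat_lit 1) (.e (nat_lit 164330) (nat_lit 230) (.e (nat_lit 163902) (nat_lit 12) .nil)))))) (.g (nat_lit 1) (.e (nat_lit 323254) (nat_lit 0) .nil) .nil))) 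
(.lf (nat_lit 563782) (.g (nat_lit 3285) (.e (nat_lit 434180) (nat_lit 0) (.e (nat_lit 1253) (nat_lit 92) (.e (nat_lit 98373) (nat_lit 29) (.e (nat_lit 450587) (nat_lit 10) (.e (nat_lit 573457) (nat_lit 9) (.e (nat_lit 7936) (nat_lit 33) .nil)))))) (.g (nat_lit 1) (.e (nat_lit 323929) (nat_lit 0) .nil) .nil)))) (.nd (nat_lit 9) 
(.lf (nat_lit 563526) (.g (nat_lit 2546) (.e (nat_lit 426568) (nat_lit 34) (.e (nat_lit 393271) (nat_lit 23) (.e (nat_lit 426131) (nat_lit 3) (.e (nat_lit 204830) (nat_lit 18) (.e (nat_lit 57692) (nat_lit 156) (.e (nat_lit 171776) (nat_lit 12) .nil)))))) (.g (nat_lit 1) (.e (nat_lit 323550) (nat_lit 0) .nil) .nil))) 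
(.lf (nat_lit 564038) (.g (nat_lit 166) (.e (nat_lit 434193) (nat_lit 13) (.e (nat_lit 2788) (nat_lit 179) (.e (nat_lit 294973) (nat_lit 28) .nil))) (.g (nat_lit 0) (.e (nat_lit 324489) (nat_lit 0) .nil) .nil))))) (.nd (nat_lit 8) (.nd (nat_lit 9) 
(.lf (nat_lit 563398) (.g (nat_lit 3000) (.e (nat_lit 426568) (nat_lit 34) (.e (nat_lit 393251) (nat_lit 18) (.e (nat_lit 164327) (nat_lit 230) (.e (nat_lit 163868) (nat_lit 2) (.e (nat_lit 196656) (nat_lit 11) (.e (nat_lit 16432) (nat_lit 9) .nil)))))) (.g (nat_lit 1) (.e (nat_lit 323418) (nat_lit 0) .nil) .nil))) 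
(.lf (nat_lit 563910) (.g (nat_lit 1389) (.e (nat_lit 442112) (nat_lit 0) (.e (nat_lit 1427) (nat_lit 108) (.e (nat_lit 336421) (nat_lit 28) (.e (nat_lit 434187) (nat_lit 13) .nil)))) (.g (nat_lit 0) (.e (nat_lit 324081) (nat_lit 0) .nil) .nil)))) (.nd (nat_lit 9) 
(.lf (nat_lit 563654) (.g (nat_lit 2328) (.e (nat_lit 426568) (nat_lit 34) (.e (nat_lit 393294) (nat_lit 26) (.e (nat_lit 475179) (nat_lit 24) (.e (nat_lit 516119) (nat_lit 1) (.e (nat_lit 164324) (nat_lit 230) .nil))))) (.g (nat_lit 0) (.e (nat_lit 323696) (nat_lit 0) .nil) .nil))) 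
(.lf (nat_lit 564166) (.g (nat_lit 1421) (.e (nat_lit 434212) (nat_lit 18) (.e (nat_lit 5547) (nat_lit 306) (.e (nat_lit 2638) (nat_lit 165) (.e (nat_lit 180278) (nat_lit 32) .nil)))) (.g (nat_lit 0) (.e (nat_lit 325433) (nat_lit 0) .nil) .nil))))))) (.nd (nat_lit 6) (.nd (nat_lit 7) (.nd (nat_lit 8) (.nd (nat_lit 9) 
(.lf (nat_lit 563238) (.g (nat_lit 2516) (.e (nat_lit 426566) (nat_lit 34) (.e (nat_lit 393294) (nat_lit 26) (.e (nat_lit 475177) (nat_lit 24) (.e (nat_lit 516118) (nat_lit 1) (.e (nat_lit 164327) (nat_lit 230) (.e (nat_lit 163904) (nat_lit 12) .nil)))))) (.g (nat_lit 1) (.e (nat_lit 323220) (nat_lit 0) .nil) .nil))) 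
(.lf (nat_lit 563750) (.g (nat_lit 2041) (.e (nat_lit 434179) (nat_lit 0) (.e (nat_lit 1517) (nat_lit 108) (.e (nat_lit 336420) (nat_lit 28) (.e (nat_lit 434180) (nat_lit 0) (.e (nat_lit 1427) (nat_lit 108) (.e (nat_lit 336421) (nat_lit 28) .nil)))))) (.g (nat_lit 1) (.e (nat_lit 323890) (nat_lit 0) .nil) .nil)))) (.nd (nat_lit 9) 
(.lf (nat_lit 563494) (.g (nat_lit 1884) (.e (nat_lit 426568) (nat_lit 34) (.e (nat_lit 393268) (nat_lit 23) (.e (nat_lit 426428) (nat_lit 17) (.e (nat_lit 90134) (nat_lit 9) (.e (nat_lit 2612) (nat_lit 163) .nil))))) (.g (nat_lit 0) (.e (nat_lit 323517) (nat_lit 0) .nil) .nil))) 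
(.lf (nat_lit 564006) (.g (nat_lit 945) (.e (nat_lit 442112) (nat_lit 7) (.e (nat_lit 131140) (nat_lit 27) (.e (nat_lit 426308) (nat_lit 12) (.e (nat_lit 475208) (nat_lit 41) .nil)))) (.g (nat_lit 0) (.e (nat_lit 324270) (nat_lit 0) .nil) .nil))))) (.nd (nat_lit 8) (.nd (nat_lit 9) 
(.lf (nat_lit 563366) (.g (nat_lit 1859) (.e (nat_lit 426567) (nat_lit 34) (.e (nat_lit 393291) (nat_lit 26) (.e (nat_lit 475177) (nat_lit 24) (.e (nat_lit 516120) (nat_lit 1) (.e (nat_lit 164332) (nat_lit 230) .nil))))) (.g (nat_lit 0) (.e (nat_lit 323377) (nat_lit 0) .nil) .nil))) 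
(.lf (nat_lit 563878) (.g (nat_lit 672) (.e (nat_lit 434181) (nat_lit 0) (.e (nat_lit 1427) (nat_lit 108) (.e (nat_lit 336423) (nat_lit 28) .nil))) (.g (nat_lit 0) (.e (nat_lit 324036) (nat_lit 0) .nil) .nil)))) (.nd (nat_lit 9) 
(.lf (nat_lit 563622) (.g (nat_lit 2757) (.e (nat_lit 426568) (nat_lit 34) (.e (nat_lit 393287) (nat_lit 25) (.e (nat_lit 458789) (nat_lit 23) (.e (nat_lit 532502) (nat_lit 1) (.e (nat_lit 57691) (nat_lit 156) (.e (nat_lit 163907) (nat_lit 12) .nil)))))) (.g (nat_lit 1) (.e (nat_lit 323663) (nat_lit 0) .nil) .nil))) 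
(.lf (nat_lit 564134) (.g (nat_lit 3081) (.e (nat_lit 434209) (nat_lit 18) (.e (nat_lit 5547) (nat_lit 306) (.e (nat_lit 2638) (nat_lit 165) (.e (nat_lit 180278) (nat_lit 32) (.e (nat_lit 1660) (nat_lit 115) (.e (nat_lit 393283) (nat_lit 24) .nil)))))) (.g (nat_lit 1) (.e (nat_lit 325233) (nat_lit 0) .nil) .nil)))))) (.nd (nat_lit 7) (.nd (nat_lit 8) (.nd (nat_lit 9) 
(.lf (nat_lit 563302) (.g (nat_lit 952) (.e (nat_lit 426566) (nat_lit 34) (.e (nat_lit 393296) (nat_lit 26) (.e (nat_lit 475178) (nat_lit 24) (.e (nat_lit 524032) (nat_lit 20) .nil)))) (.g (nat_lit 0) (.e (nat_lit 323286) (nat_lit 0) .nil) .nil))) 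
(.lf (nat_lit 563814) (.g (nat_lit 1732) (.e (nat_lit 434180) (nat_lit 0) (.e (nat_lit 1428) (nat_lit 108) (.e (nat_lit 336421) (nat_lit 28) (.e (nat_lit 434193) (nat_lit 13) (.e (nat_lit 2788) (nat_lit 179) (.e (nat_lit 294973) (nat_lit 28) .nil)))))) (.g (nat_lit 1) (.e (nat_lit 323962) (nat_lit 0) .nil) .nil)))) (.nd (nat_lit 9) 
(.lf (nat_lit 563558) (.g (nat_lit 1810) (.e (nat_lit 426568) (nat_lit 34) (.e (nat_lit 393282) (nat_lit 24) (.e (nat_lit 434231) (nat_lit 23) (.e (nat_lit 532498) (nat_lit 1) (.e (nat_lit 57691) (nat_lit 156) .nil))))) (.g (nat_lit 0) (.e (nat_lit 323588) (nat_lit 0) .nil) .nil))) 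
(.lf (nat_lit 564070) (.g (nat_lit 1754) (.e (nat_lit 434203) (nat_lit 18) (.e (nat_lit 6255) (nat_lit 337) (.e (nat_lit 2651) (nat_lit 166) (.e (nat_lit 188438) (nat_lit 20) (.e (nat_lit 3469) (nat_lit 217) .nil))))) (.g (nat_lit 0) (.e (nat_lit 324769) (nat_lit 0) .nil) .nil))))) (.nd (nat_lit 8) (.nd (nat_lit 9) 
(.lf (nat_lit 563430) (.g (nat_lit 2805) (.e (nat_lit 426568) (nat_lit 34) (.e (nat_lit 393252) (nat_lit 18) (.e (nat_lit 164398) (nat_lit 256) (.e (nat_lit 57378) (nat_lit 3) (.e (nat_lit 98365) (nat_lit 26) (.e (nat_lit 426187) (nat_lit 9) .nil)))))) (.g (nat_lit 1) (.e (nat_lit 323450) (nat_lit 0) .nil) .nil))) 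
(.lf (nat_lit 563942) (.g (nat_lit 1452) (.e (nat_lit 442112) (nat_lit 4) (.e (nat_lit 65653) (nat_lit 27) (.e (nat_lit 426306) (nat_lit 12) (.e (nat_lit 475211) (nat_lit 41) .nil)))) (.g (nat_lit 0) (.e (nat_lit 324163) (nat_lit 0) .nil) .nil)))) (.nd (nat_lit 9) 
(.lf (nat_lit 563686) (.g (nat_lit 1581) (.e (nat_lit 433920) (nat_lit 34) (.e (nat_lit 393253) (nat_lit 18) (.e (nat_lit 164331) (nat_lit 230) (.e (nat_lit 163873) (nat_lit 3) (.e (nat_lit 204811) (nat_lit 9) .nil))))) (.g (nat_lit 0) (.e (nat_lit 323737) (nat_lit 0) .nil) .nil))) 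
(.lf (nat_lit 564198) (.g (nat_lit 3821) (.e (nat_lit 434212) (nat_lit 18) (.e (nat_lit 6425) (nat_lit 342) (.e (nat_lit 229415) (nat_lit 15) (.e (nat_lit 450604) (nat_lit 22) (.e (nat_lit 704738) (nat_lit 11) (.e (nat_lit 16449) (nat_lit 10) .nil)))))) (.g (nat_lit 1) (.e (nat_lit 325469) (nat_lit 0) .nil) .nil)))))))) 
(.nd (nat_lit 5) (.nd (nat_lit 6) (.nd (nat_lit 7) (.nd (nat_lit 8) (.nd (nat_lit 9) 
(.lf (nat_lit 563222) (.g (nat_lit 2706) (.e (nat_lit 426566) (nat_lit 34) (.e (nat_lit 393294) (nat_lit 26) (.e (nat_lit 475177) (nat_lit 24) (.e (nat_lit 516115) (nat_lit 1) (.e (nat_lit 164323) (nat_lit 230) .nil))))) (.g (nat_lit 0) (.e (nat_lit 323204) (nat_lit 0) .nil) .nil))) 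
(.lf (nat_lit 563734) (.g (nat_lit 3152) (.e (nat_lit 433920) (nat_lit 35) (.e (nat_lit 401454) (nat_lit 12) (.e (nat_lit 475179) (nat_lit 24) (.e (nat_lit 516117) (nat_lit 1) (.e (nat_lit 164258) (nat_lit 215) .nil))))) (.g (nat_lit 0) (.e (nat_lit 323804) (nat_lit 0) .nil) .nil)))) (.nd (nat_lit 9) 
(.lf (nat_lit 563478) (.g (nat_lit 1049) (.e (nat_lit 426568) (nat_lit 34) (.e (nat_lit 393259) (nat_lit 21) (.e (nat_lit 409631) (nat_lit 12) (.e (nat_lit 32794) (nat_lit 14) (.e (nat_lit 2717) (nat_lit 171) .nil))))) (.g (nat_lit 0) (.e (nat_lit 323499) (nat_lit 0) .nil) .nil))) 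
(.lf (nat_lit 563990) (.g (nat_lit 1530) (.e (nat_lit 442112) (nat_lit 5) (.e (nat_lit 73775) (nat_lit 26) (.e (nat_lit 778465) (nat_lit 11) (.e (nat_lit 24636) (nat_lit 9) (.e (nat_lit 343808) (nat_lit 28) .nil))))) (.g (nat_lit 0) (.e (nat_lit 324232) (nat_lit 0) .nil) .nil))))) (.nd (nat_lit 8) (.nd (nat_lit 9) 
(.lf (nat_lit 563350) (.g (nat_lit 1421) (.e (nat_lit 426567) (nat_lit 34) (.e (nat_lit 393268) (nat_lit 23) (.e (nat_lit 426428) (nat_lit 17) .nil))) (.g (nat_lit 0) (.e (nat_lit 323360) (nat_lit 0) .nil) .nil))) 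
(.lf (nat_lit 563862) (.g (nat_lit 4153) (.e (nat_lit 434181) (nat_lit 0) (.e (nat_lit 1253) (nat_lit 92) (.e (nat_lit 98373) (nat_lit 29) (.e (nat_lit 450588) (nat_lit 10) (.e (nat_lit 573457) (nat_lit 9) (.e (nat_lit 7936) (nat_lit 33) .nil)))))) (.g (nat_lit 1) (.e (nat_lit 324020) (nat_lit 0) .nil) .nil)))) (.nd (nat_lit 9) 
(.lf (nat_lit 563606) (.g (nat_lit 1182) (.e (nat_lit 426568) (nat_lit 34) (.e (nat_lit 393284) (nat_lit 24) (.e (nat_lit 434248) (nat_lit 28) (.e (nat_lit 573473) (nat_lit 12) .nil)))) (.g (nat_lit 0) (.e (nat_lit 323641) (nat_lit 0) .nil) .nil))) 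
(.lf (nat_lit 564118) (.g (nat_lit 2657) (.e (nat_lit 434209) (nat_lit 18) (.e (nat_lit 5224) (nat_lit 296) (.e (nat_lit 163871) (nat_lit 2) (.e (nat_lit 196655) (nat_lit 11) (.e (nat_lit 16465) (nat_lit 13) (.e (nat_lit 491264) (nat_lit 10) .nil)))))) (.g (nat_lit 1) (.e (nat_lit 325114) (nat_lit 0) .nil) .nil)))))) (.nd (nat_lit 7) (.nd (nat_lit 8) (.nd (nat_lit 9) 
(.lf (nat_lit 563286) (.g (nat_lit 1046) (.e (nat_lit 426566) (nat_lit 34) (.e (nat_lit 393296) (nat_lit 26) (.e (nat_lit 475177) (nat_lit 24) (.e (nat_lit 524032) (nat_lit 20) .nil)))) (.g (nat_lit 0) (.e (nat_lit 323270) (nat_lit 0) .nil) .nil))) 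
(.lf (nat_lit 563798) (.g (nat_lit 2153) (.e (nat_lit 434180) (nat_lit 0) (.e (nat_lit 1427) (nat_lit 108) (.e (nat_lit 336421) (nat_lit 28) (.e (nat_lit 434179) (nat_lit 0) (.e (nat_lit 1512) (nat_lit 108) (.e (nat_lit 336420) (nat_lit 28) .nil)))))) (.g (nat_lit 1) (.e (nat_lit 323945) (nat_lit 0) .nil) .nil)))) (.nd (nat_lit 9) 
(.lf (nat_lit 563542) (.g (nat_lit 2432) (.e (nat_lit 426568) (nat_lit 34) (.e (nat_lit 393281) (nat_lit 23) (.e (nat_lit 426133) (nat_lit 3) (.e (nat_lit 204829) (nat_lit 18) (.e (nat_lit 57687) (nat_lit 156) .nil))))) (.g (nat_lit 0) (.e (nat_lit 323572) (nat_lit 0) .nil) .nil))) 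
(.lf (nat_lit 564054) (.g (nat_lit 4094) (.e (nat_lit 434202) (nat_lit 18) (.e (nat_lit 6255) (nat_lit 337) (.e (nat_lit 2653) (nat_lit 166) (.e (nat_lit 188440) (nat_lit 20) (.e (nat_lit 3469) (nat_lit 217) (.e (nat_lit 696344) (nat_lit 8) (.e (nat_lit 172106) (nat_lit 10) .nil))))))) (.g (nat_lit 1) (.e (nat_lit 324664) (nat_lit 0) .nil) .nil))))) (.nd (nat_lit 8) (.nd (nat_lit 9) 
(.lf (nat_lit 563414) (.g (nat_lit 1678) (.e (nat_lit 426568) (nat_lit 34) (.e (nat_lit 393251) (nat_lit 18) (.e (nat_lit 164402) (nat_lit 256) (.e (nat_lit 57377) (nat_lit 3) (.e (nat_lit 98365) (nat_lit 26) .nil))))) (.g (nat_lit 0) (.e (nat_lit 323434) (nat_lit 0) .nil) .nil))) 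
(.lf (nat_lit 563926) (.g (nat_lit 1993) (.e (nat_lit 442112) (nat_lit 0) (.e (nat_lit 1661) (nat_lit 115) (.e (nat_lit 393238) (nat_lit 17) (.e (nat_lit 6989) (nat_lit 377) (.e (nat_lit 2781) (nat_lit 178) .nil))))) (.g (nat_lit 0) (.e (nat_lit 324097) (nat_lit 0) .nil) .nil)))) (.nd (nat_lit 9) 
(.lf (nat_lit 563670) (.g (nat_lit 1617) (.e (nat_lit 433920) (nat_lit 34) (.e (nat_lit 393251) (nat_lit 18) (.e (nat_lit 164327) (nat_lit 230) (.e (nat_lit 163873) (nat_lit 3) (.e (nat_lit 204811) (nat_lit 9) .nil))))) (.g (nat_lit 0) (.e (nat_lit 323721) (nat_lit 0) .nil) .nil))) 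
(.lf (nat_lit 564182) (.g (nat_lit 1191) (.e (nat_lit 434212) (nat_lit 18) (.e (nat_lit 6425) (nat_lit 342) (.e (nat_lit 229415) (nat_lit 15) (.e (nat_lit 450563) (nat_lit 0) (.e (nat_lit 6254) (nat_lit 337) .nil))))) (.g (nat_lit 0) (.e (nat_lit 325452) (nat_lit 0) .nil) .nil))))))) (.nd (nat_lit 6) (.nd (nat_lit 7) (.nd (nat_lit 8) (.nd (nat_lit 9) 
(.lf (nat_lit 563254) (.g (nat_lit 2239) (.e (nat_lit 426566) (nat_lit 34) (.e (nat_lit 393294) (nat_lit 26) (.e (nat_lit 475179) (nat_lit 24) (.e (nat_lit 516119) (nat_lit 1) (.e (nat_lit 164324) (nat_lit 230) .nil))))) (.g (nat_lit 0) (.e (nat_lit 323237) (nat_lit 0) .nil) .nil))) 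
(.lf (nat_lit 563766) (.g (nat_lit 2782) (.e (nat_lit 434180) (nat_lit 0) (.e (nat_lit 1235) (nat_lit 91) (.e (nat_lit 90170) (nat_lit 13) (.e (nat_lit 172113) (nat_lit 10) (.e (nat_lit 434247) (nat_lit 28) (.e (nat_lit 573457) (nat_lit 9) (.e (nat_lit 7936) (nat_lit 33) .nil))))))) (.g (nat_lit 1) (.e (nat_lit 323913) (nat_lit 0) .nil) .nil)))) (.nd (nat_lit 9) 
(.lf (nat_lit 563510) (.g (nat_lit 4021) (.e (nat_lit 426568) (nat_lit 34) (.e (nat_lit 393271) (nat_lit 23) (.e (nat_lit 426131) (nat_lit 3) (.e (nat_lit 204829) (nat_lit 18) (.e (nat_lit 57691) (nat_lit 156) (.e (nat_lit 163905) (nat_lit 12) .nil)))))) (.g (nat_lit 1) (.e (nat_lit 323534) (nat_lit 0) .nil) .nil))) 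
(.lf (nat_lit 564022) (.g (nat_lit 2193) (.e (nat_lit 442112) (nat_lit 8) (.e (nat_lit 2679) (nat_lit 168) (.e (nat_lit 204846) (nat_lit 24) (.e (nat_lit 319530) (nat_lit 16) (.e (nat_lit 286735) (nat_lit 3) .nil))))) (.g (nat_lit 0) (.e (nat_lit 324306) (nat_lit 0) .nil) .nil))))) (.nd (nat_lit 8) (.nd (nat_lit 9) 
(.lf (nat_lit 563382) (.g (nat_lit 2356) (.e (nat_lit 426567) (nat_lit 34) (.e (nat_lit 393294) (nat_lit 26) (.e (nat_lit 475179) (nat_lit 24) (.e (nat_lit 516115) (nat_lit 1) (.e (nat_lit 164325) (nat_lit 230) .nil))))) (.g (nat_lit 0) (.e (nat_lit 323393) (nat_lit 0) .nil) .nil))) 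
(.lf (nat_lit 563894) (.g (nat_lit 1207) (.e (nat_lit 434181) (nat_lit 0) (.e (nat_lit 1660) (nat_lit 115) (.e (nat_lit 393260) (nat_lit 21) (.e (nat_lit 409623) (nat_lit 10) .nil)))) (.g (nat_lit 0) (.e (nat_lit 324054) (nat_lit 0) .nil) .nil)))) (.nd (nat_lit 9) 
(.lf (nat_lit 563638) (.g (nat_lit 3295) (.e (nat_lit 426568) (nat_lit 34) (.e (nat_lit 393293) (nat_lit 26) (.e (nat_lit 475177) (nat_lit 24) (.e (nat_lit 516115) (nat_lit 1) (.e (nat_lit 164325) (nat_lit 230) (.e (nat_lit 163903) (nat_lit 12) .nil)))))) (.g (nat_lit 1) (.e (nat_lit 323679) (nat_lit 0) .nil) .nil))) 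
(.lf (nat_lit 564150) (.g (nat_lit 385) (.e (nat_lit 434209) (nat_lit 18) (.e (nat_lit 6425) (nat_lit 342) (.e (nat_lit 229410) (nat_lit 14) .nil))) (.g (nat_lit 0) (.e (nat_lit 325326) (nat_lit 0) .nil) .nil)))))) (.nd (nat_lit 7) (.nd (nat_lit 8) (.nd (nat_lit 9) 
(.lf (nat_lit 563318) (.g (nat_lit 1284) (.e (nat_lit 426567) (nat_lit 34) (.e (nat_lit 393251) (nat_lit 18) (.e (nat_lit 164325) (nat_lit 230) (.e (nat_lit 163875) (nat_lit 3) .nil)))) (.g (nat_lit 0) (.e (nat_lit 323324) (nat_lit 0) .nil) .nil))) 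
(.lf (nat_lit 563830) (.g (nat_lit 1713) (.e (nat_lit 434181) (nat_lit 0) (.e (nat_lit 1234) (nat_lit 91) (.e (nat_lit 90170) (nat_lit 13) (.e (nat_lit 172113) (nat_lit 10) (.e (nat_lit 434245) (nat_lit 28) (.e (nat_lit 573449) (nat_lit 9) (.e (nat_lit 7936) (nat_lit 33) .nil))))))) (.g (nat_lit 1) (.e (nat_lit 323988) (nat_lit 0) .nil) .nil)))) (.nd (nat_lit 9) 
(.lf (nat_lit 563574) (.g (nat_lit 1091) (.e (nat_lit 426568) (nat_lit 34) (.e (nat_lit 393282) (nat_lit 24) (.e (nat_lit 434244) (nat_lit 28) (.e (nat_lit 573474) (nat_lit 12) .nil)))) (.g (nat_lit 0) (.e (nat_lit 323604) (nat_lit 0) .nil) .nil))) 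
(.lf (nat_lit 564086) (.g (nat_lit 1221) (.e (nat_lit 434207) (nat_lit 18) (.e (nat_lit 6416) (nat_lit 341) (.e (nat_lit 163905) (nat_lit 12) (.e (nat_lit 426294) (nat_lit 11) (.e (nat_lit 458810) (nat_lit 43) .nil))))) (.g (nat_lit 0) (.e (nat_lit 324887) (nat_lit 0) .nil) .nil))))) (.nd (nat_lit 8) (.nd (nat_lit 9) 
(.lf (nat_lit 563446) (.g (nat_lit 395) (.e (nat_lit 426568) (nat_lit 34) (.e (nat_lit 393253) (nat_lit 18) (.e (nat_lit 164325) (nat_lit 230) .nil))) (.g (nat_lit 0) (.e (nat_lit 323467) (nat_lit 0) .nil) .nil))) 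
(.lf (nat_lit 563958) (.g (nat_lit 1598) (.e (nat_lit 442112) (nat_lit 5) (.e (nat_lit 73729) (nat_lit 0) (.e (nat_lit 7261) (nat_lit 384) (.e (nat_lit 57436) (nat_lit 17) (.e (nat_lit 384768) (nat_lit 12) .nil))))) (.g (nat_lit 0) (.e (nat_lit 324180) (nat_lit 0) .nil) .nil)))) (.nd (nat_lit 9) 
(.lf (nat_lit 563702) (.g (nat_lit 1502) (.e (nat_lit 433920) (nat_lit 34) (.e (nat_lit 393296) (nat_lit 26) (.e (nat_lit 475178) (nat_lit 24) (.e (nat_lit 516117) (nat_lit 1) (.e (nat_lit 164330) (nat_lit 230) .nil))))) (.g (nat_lit 0) (.e (nat_lit 323753) (nat_lit 0) .nil) .nil))) 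
(.lf (nat_lit 564214) (.g (nat_lit 2622) (.e (nat_lit 434216) (nat_lit 18) (.e (nat_lit 5948) (nat_lit 322) (.e (nat_lit 57378) (nat_lit 3) (.e (nat_lit 98365) (nat_lit 26) (.e (nat_lit 426325) (nat_lit 13) (.e (nat_lit 491264) (nat_lit 10) .nil)))))) (.g (nat_lit 1) (.e (nat_lit 325518) (nat_lit 0) .nil) .nil))))))))) 
(.nd (nat_lit 4) (.nd (nat_lit 5) (.nd (nat_lit 6) (.nd (nat_lit 7) (.nd (nat_lit 8) 
(.nd (nat_lit 9) 
(.lf (nat_lit 563214) (.g (nat_lit 2141) (.e (nat_lit 426566) (nat_lit 34) (.e (nat_lit 393294) (nat_lit 26) (.e (nat_lit 475176) (nat_lit 24) (.e (nat_lit 516117) (nat_lit 1) (.e (nat_lit 164330) (nat_lit 230) .nil))))) (.g (nat_lit 0) (.e (nat_lit 323196) (nat_lit 0) .nil) .nil))) 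
(.lf (nat_lit 563726) (.g (nat_lit 1218) (.e (nat_lit 426573) (nat_lit 35) (.e (nat_lit 401454) (nat_lit 12) (.e (nat_lit 483072) (nat_lit 26) .nil))) (.g (nat_lit 0) (.e (nat_lit 323792) (nat_lit 0) .nil) .nil)))) (.nd (nat_lit 9) 
(.lf (nat_lit 563470) (.g (nat_lit 953) (.e (nat_lit 426568) (nat_lit 34) (.e (nat_lit 393253) (nat_lit 18) (.e (nat_lit 164401) (nat_lit 256) (.e (nat_lit 57377) (nat_lit 3) .nil)))) (.g (nat_lit 0) (.e (nat_lit 323491) (nat_lit 0) .nil) .nil))) 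
(.lf (nat_lit 563982) (.g (nat_lit 589) (.e (nat_lit 442112) (nat_lit 5) (.e (nat_lit 73773) (nat_lit 25) (.e (nat_lit 770076) (nat_lit 12) (.e (nat_lit 131109) (nat_lit 9) .nil)))) (.g (nat_lit 0) (.e (nat_lit 324211) (nat_lit 0) .nil) .nil))))) (.nd (nat_lit 8) (.nd (nat_lit 9) 
(.lf (nat_lit 563342) (.g (nat_lit 1931) (.e (nat_lit 426567) (nat_lit 34) (.e (nat_lit 393253) (nat_lit 18) (.e (nat_lit 164327) (nat_lit 230) (.e (nat_lit 163875) (nat_lit 3) .nil)))) (.g (nat_lit 0) (.e (nat_lit 323351) (nat_lit 0) .nil) .nil))) 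
(.lf (nat_lit 563854) (.g (nat_lit 3803) (.e (nat_lit 434181) (nat_lit 0) (.e (nat_lit 1253) (nat_lit 92) (.e (nat_lit 98373) (nat_lit 29) (.e (nat_lit 450587) (nat_lit 10) (.e (nat_lit 573454) (nat_lit 9) (.e (nat_lit 7936) (nat_lit 33) .nil)))))) (.g (nat_lit 1) (.e (nat_lit 324012) (nat_lit 0) .nil) .nil)))) (.nd (nat_lit 9) 
(.lf (nat_lit 563598) (.g (nat_lit 436) (.e (nat_lit 426568) (nat_lit 34) (.e (nat_lit 393283) (nat_lit 24) (.e (nat_lit 434247) (nat_lit 28) .nil))) (.g (nat_lit 0) (.e (nat_lit 323631) (nat_lit 0) .nil) .nil))) 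
(.lf (nat_lit 564110) (.g (nat_lit 2213) (.e (nat_lit 434209) (nat_lit 18) (.e (nat_lit 5223) (nat_lit 296) (.e (nat_lit 163871) (nat_lit 2) (.e (nat_lit 196655) (nat_lit 11) (.e (nat_lit 16465) (nat_lit 13) (.e (nat_lit 491264) (nat_lit 10) .nil)))))) (.g (nat_lit 1) (.e (nat_lit 325073) (nat_lit 0) .nil) .nil)))))) (.nd (nat_lit 7) (.nd (nat_lit 8) (.nd (nat_lit 9) 
(.lf (nat_lit 563278) (.g (nat_lit 432) (.e (nat_lit 426566) (nat_lit 34) (.e (nat_lit 393296) (nat_lit 26) (.e (nat_lit 475177) (nat_lit 24) .nil))) (.g (nat_lit 0) (.e (nat_lit 323262) (nat_lit 0) .nil) .nil))) 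
(.lf (nat_lit 563790) (.g (nat_lit 830) (.e (nat_lit 434180) (nat_lit 0) (.e (nat_lit 1425) (nat_lit 108) (.e (nat_lit 336421) (nat_lit 28) (.e (nat_lit 434186) (nat_lit 13) (.e (nat_lit 2788) (nat_lit 179) (.e (nat_lit 294973) (nat_lit 28) .nil)))))) (.g (nat_lit 1) (.e (nat_lit 323937) (nat_lit 0) .nil) .nil)))) (.nd (nat_lit 9) 
(.lf (nat_lit 563534) (.g (nat_lit 295) (.e (nat_lit 426568) (nat_lit 34) (.e (nat_lit 393274) (nat_lit 23) (.e (nat_lit 426132) (nat_lit 3) .nil))) (.g (nat_lit 0) (.e (nat_lit 323558) (nat_lit 0) .nil) .nil))) 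
(.lf (nat_lit 564046) (.g (nat_lit 2290) (.e (nat_lit 434199) (nat_lit 18) (.e (nat_lit 6425) (nat_lit 342) (.e (nat_lit 229415) (nat_lit 15) (.e (nat_lit 450601) (nat_lit 21) .nil)))) (.g (nat_lit 0) (.e (nat_lit 324562) (nat_lit 0) .nil) .nil))))) (.nd (nat_lit 8) (.nd (nat_lit 9) 
(.lf (nat_lit 563406) (.g (nat_lit 1736) (.e (nat_lit 426568) (nat_lit 34) (.e (nat_lit 393251) (nat_lit 18) (.e (nat_lit 164398) (nat_lit 256) (.e (nat_lit 57370) (nat_lit 2) .nil)))) (.g (nat_lit 0) (.e (nat_lit 323426) (nat_lit 0) .nil) .nil))) 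
(.lf (nat_lit 563918) (.g (nat_lit 1339) (.e (nat_lit 442112) (nat_lit 0) (.e (nat_lit 1428) (nat_lit 108) (.e (nat_lit 336421) (nat_lit 28) (.e (nat_lit 434198) (nat_lit 17) (.e (nat_lit 229644) (nat_lit 232) .nil))))) (.g (nat_lit 0) (.e (nat_lit 324089) (nat_lit 0) .nil) .nil)))) (.nd (nat_lit 9) 
(.lf (nat_lit 563662) (.g (nat_lit 1006) (.e (nat_lit 426568) (nat_lit 34) (.e (nat_lit 393301) (nat_lit 27) (.e (nat_lit 491538) (nat_lit 3) .nil))) (.g (nat_lit 0) (.e (nat_lit 323711) (nat_lit 0) .nil) .nil))) 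
(.lf (nat_lit 564174) (.g (nat_lit 1228) (.e (nat_lit 434212) (nat_lit 18) (.e (nat_lit 6425) (nat_lit 342) (.e (nat_lit 229413) (nat_lit 15) (.e (nat_lit 450601) (nat_lit 21) .nil)))) (.g (nat_lit 0) (.e (nat_lit 325444) (nat_lit 0) .nil) .nil))))))) (.nd (nat_lit 6) (.nd (nat_lit 7) (.nd (nat_lit 8) (.nd (nat_lit 9) 
(.lf (nat_lit 563246) (.g (nat_lit 3065) (.e (nat_lit 426566) (nat_lit 34) (.e (nat_lit 393294) (nat_lit 26) (.e (nat_lit 475177) (nat_lit 24) (.e (nat_lit 516120) (nat_lit 1) (.e (nat_lit 164305) (nat_lit 226) (.e (nat_lit 2450) (nat_lit 157) (.e (nat_lit 2842) (nat_lit 184) .nil))))))) (.g (nat_lit 1) (.e (nat_lit 323228) (nat_lit 0) .nil) .nil))) 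
(.lf (nat_lit 563758) (.g (nat_lit 3729) (.e (nat_lit 434180) (nat_lit 0) (.e (nat_lit 1234) (nat_lit 91) (.e (nat_lit 90170) (nat_lit 13) (.e (nat_lit 172113) (nat_lit 10) (.e (nat_lit 434248) (nat_lit 28) (.e (nat_lit 573450) (nat_lit 9) (.e (nat_lit 442) (nat_lit 33) .nil))))))) (.g (nat_lit 1) (.e (nat_lit 323905) (nat_lit 0) .nil) .nil)))) (.nd (nat_lit 9) 
(.lf (nat_lit 563502) (.g (nat_lit 2810) (.e (nat_lit 426568) (nat_lit 34) (.e (nat_lit 393271) (nat_lit 23) (.e (nat_lit 426131) (nat_lit 3) (.e (nat_lit 204829) (nat_lit 18) (.e (nat_lit 57655) (nat_lit 152) (.e (nat_lit 2486) (nat_lit 157) (.e (nat_lit 2857) (nat_lit 184) .nil))))))) (.g (nat_lit 1) (.e (nat_lit 323526) (nat_lit 0) .nil) .nil))) 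
(.lf (nat_lit 564014) (.g (nat_lit 2791) (.e (nat_lit 434183) (nat_lit 8) (.e (nat_lit 2682) (nat_lit 168) (.e (nat_lit 204846) (nat_lit 24) (.e (nat_lit 319530) (nat_lit 16) (.e (nat_lit 286735) (nat_lit 3) .nil))))) (.g (nat_lit 0) (.e (nat_lit 324283) (nat_lit 0) .nil) .nil))))) (.nd (nat_lit 8) (.nd (nat_lit 9) 
(.lf (nat_lit 563374) (.g (nat_lit 911) (.e (nat_lit 426567) (nat_lit 34) (.e (nat_lit 393294) (nat_lit 26) (.e (nat_lit 475176) (nat_lit 24) .nil))) (.g (nat_lit 0) (.e (nat_lit 323385) (nat_lit 0) .nil) .nil))) 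
(.lf (nat_lit 563886) (.g (nat_lit 463) (.e (nat_lit 434181) (nat_lit 0) (.e (nat_lit 1659) (nat_lit 115) (.e (nat_lit 393233) (nat_lit 17) .nil))) (.g (nat_lit 0) (.e (nat_lit 324045) (nat_lit 0) .nil) .nil)))) (.nd (nat_lit 9) 
(.lf (nat_lit 563630) (.g (nat_lit 3706) (.e (nat_lit 426568) (nat_lit 34) (.e (nat_lit 393291) (nat_lit 26) (.e (nat_lit 475177) (nat_lit 24) (.e (nat_lit 516115) (nat_lit 1) (.e (nat_lit 164327) (nat_lit 230) (.e (nat_lit 163903) (nat_lit 12) .nil)))))) (.g (nat_lit 1) (.e (nat_lit 323671) (nat_lit 0) .nil) .nil))) 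
(.lf (nat_lit 564142) (.g (nat_lit 2993) (.e (nat_lit 434209) (nat_lit 18) (.e (nat_lit 5548) (nat_lit 306) (.e (nat_lit 2640) (nat_lit 165) (.e (nat_lit 180278) (nat_lit 32) (.e (nat_lit 1660) (nat_lit 115) (.e (nat_lit 393283) (nat_lit 24) .nil)))))) (.g (nat_lit 1) (.e (nat_lit 325286) (nat_lit 0) .nil) .nil)))))) (.nd (nat_lit 7) (.nd (nat_lit 8) (.nd (nat_lit 9) 
(.lf (nat_lit 563310) (.g (nat_lit 3272) (.e (nat_lit 426566) (nat_lit 34) (.e (nat_lit 393296) (nat_lit 26) (.e (nat_lit 475179) (nat_lit 24) (.e (nat_lit 516119) (nat_lit 1) (.e (nat_lit 164332) (nat_lit 230) (.e (nat_lit 163905) (nat_lit 12) .nil)))))) (.g (nat_lit 1) (.e (nat_lit 323294) (nat_lit 0) .nil) .nil))) 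
(.lf (nat_lit 563822) (.g (nat_lit 1971) (.e (nat_lit 434180) (nat_lit 0) (.e (nat_lit 1659) (nat_lit 115) (.e (nat_lit 393300) (nat_lit 27) (.e (nat_lit 491556) (nat_lit 9) (.e (nat_lit 336420) (nat_lit 28) .nil))))) (.g (nat_lit 0) (.e (nat_lit 323975) (nat_lit 0) .nil) .nil)))) (.nd (nat_lit 9) 
(.lf (nat_lit 563566) (.g (nat_lit 2781) (.e (nat_lit 426568) (nat_lit 34) (.e (nat_lit 393282) (nat_lit 24) (.e (nat_lit 434231) (nat_lit 23) (.e (nat_lit 532500) (nat_lit 1) (.e (nat_lit 57692) (nat_lit 156) (.e (nat_lit 163906) (nat_lit 12) .nil)))))) (.g (nat_lit 1) (.e (nat_lit 323596) (nat_lit 0) .nil) .nil))) 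
(.lf (nat_lit 564078) (.g (nat_lit 1574) (.e (nat_lit 434206) (nat_lit 18) (.e (nat_lit 6420) (nat_lit 341) (.e (nat_lit 163902) (nat_lit 12) (.e (nat_lit 426250) (nat_lit 9) .nil)))) (.g (nat_lit 0) (.e (nat_lit 324826) (nat_lit 0) .nil) .nil))))) (.nd (nat_lit 8) (.nd (nat_lit 9) 
(.lf (nat_lit 563438) (.g (nat_lit 3578) (.e (nat_lit 426568) (nat_lit 34) (.e (nat_lit 393252) (nat_lit 18) (.e (nat_lit 164403) (nat_lit 256) (.e (nat_lit 57378) (nat_lit 3) (.e (nat_lit 98365) (nat_lit 26) (.e (nat_lit 426188) (nat_lit 9) .nil)))))) (.g (nat_lit 1) (.e (nat_lit 323458) (nat_lit 0) .nil) .nil))) 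
(.lf (nat_lit 563950) (.g (nat_lit 992) (.e (nat_lit 442112) (nat_lit 4) (.e (nat_lit 65653) (nat_lit 27) (.e (nat_lit 426343) (nat_lit 14) (.e (nat_lit 491552) (nat_lit 9) (.e (nat_lit 343808) (nat_lit 28) .nil))))) (.g (nat_lit 0) (.e (nat_lit 324171) (nat_lit 0) .nil) .nil)))) (.nd (nat_lit 9) 
(.lf (nat_lit 563694) (.g (nat_lit 1315) (.e (nat_lit 433920) (nat_lit 34) (.e (nat_lit 393254) (nat_lit 18) (.e (nat_lit 164331) (nat_lit 230) (.e (nat_lit 163873) (nat_lit 3) (.e (nat_lit 204811) (nat_lit 9) .nil))))) (.g (nat_lit 0) (.e (nat_lit 323745) (nat_lit 0) .nil) .nil))) 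
(.lf (nat_lit 564206) (.g (nat_lit 4972) (.e (nat_lit 434215) (nat_lit 18) (.e (nat_lit 5448) (nat_lit 306) (.e (nat_lit 2612) (nat_lit 163) (.e (nat_lit 163979) (nat_lit 30) (.e (nat_lit 573493) (nat_lit 15) (.e (nat_lit 81956) (nat_lit 23) (.e (nat_lit 98368) (nat_lit 27) .nil))))))) (.g (nat_lit 1) (.e (nat_lit 325503) (nat_lit 0) .nil) .nil)))))))) 
(.nd (nat_lit 5) (.nd (nat_lit 6) (.nd (nat_lit 7) (.nd (nat_lit 8) (.nd (nat_lit 9) 
(.lf (nat_lit 563230) (.g (nat_lit 2798) (.e (nat_lit 426566) (nat_lit 34) (.e (nat_lit 393294) (nat_lit 26) (.e (nat_lit 475177) (nat_lit 24) (.e (nat_lit 516116) (nat_lit 1) (.e (nat_lit 164330) (nat_lit 230) (.e (nat_lit 163904) (nat_lit 12) .nil)))))) (.g (nat_lit 1) (.e (nat_lit 323212) (nat_lit 0) .nil) .nil))) 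
(.lf (nat_lit 563742) (.g (nat_lit 2072) (.e (nat_lit 434178) (nat_lit 0) (.e (nat_lit 1516) (nat_lit 108) (.e (nat_lit 336420) (nat_lit 28) (.e (nat_lit 434181) (nat_lit 0) (.e (nat_lit 1427) (nat_lit 108) (.e (nat_lit 336421) (nat_lit 28) .nil)))))) (.g (nat_lit 1) (.e (nat_lit 323821) (nat_lit 0) .nil) .nil)))) (.nd (nat_lit 9) 
(.lf (nat_lit 563486) (.g (nat_lit 3690) (.e (nat_lit 426568) (nat_lit 34) (.e (nat_lit 393266) (nat_lit 23) (.e (nat_lit 426436) (nat_lit 18) (.e (nat_lit 98335) (nat_lit 18) (.e (nat_lit 164330) (nat_lit 230) .nil))))) (.g (nat_lit 0) (.e (nat_lit 323509) (nat_lit 0) .nil) .nil))) 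
(.lf (nat_lit 563998) (.g (nat_lit 1236) (.e (nat_lit 442112) (nat_lit 5) (.e (nat_lit 73775) (nat_lit 26) (.e (nat_lit 778466) (nat_lit 11) (.e (nat_lit 24636) (nat_lit 9) (.e (nat_lit 343808) (nat_lit 28) .nil))))) (.g (nat_lit 0) (.e (nat_lit 324242) (nat_lit 0) .nil) .nil))))) (.nd (nat_lit 8) (.nd (nat_lit 9) 
(.lf (nat_lit 563358) (.g (nat_lit 2689) (.e (nat_lit 426567) (nat_lit 34) (.e (nat_lit 393271) (nat_lit 23) (.e (nat_lit 426436) (nat_lit 18) (.e (nat_lit 98335) (nat_lit 18) (.e (nat_lit 164325) (nat_lit 230) .nil))))) (.g (nat_lit 0) (.e (nat_lit 323368) (nat_lit 0) .nil) .nil))) 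
(.lf (nat_lit 563870) (.g (nat_lit 2553) (.e (nat_lit 434181) (nat_lit 0) (.e (nat_lit 1427) (nat_lit 108) (.e (nat_lit 336369) (nat_lit 27) (.e (nat_lit 426025) (nat_lit 0) (.e (nat_lit 6989) (nat_lit 377) (.e (nat_lit 2779) (nat_lit 178) (.e (nat_lit 286770) (nat_lit 28) .nil))))))) (.g (nat_lit 1) (.e (nat_lit 324028) (nat_lit 0) .nil) .nil)))) (.nd (nat_lit 9) 
(.lf (nat_lit 563614) (.g (nat_lit 2807) (.e (nat_lit 426568) (nat_lit 34) (.e (nat_lit 393286) (nat_lit 25) (.e (nat_lit 458789) (nat_lit 23) (.e (nat_lit 532502) (nat_lit 1) (.e (nat_lit 57691) (nat_lit 156) (.e (nat_lit 163907) (nat_lit 12) .nil)))))) (.g (nat_lit 1) (.e (nat_lit 323653) (nat_lit 0) .nil) .nil))) 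
(.lf (nat_lit 564126) (.g (nat_lit 365) (.e (nat_lit 434209) (nat_lit 18) (.e (nat_lit 5546) (nat_lit 306) (.e (nat_lit 2648) (nat_lit 166) .nil))) (.g (nat_lit 0) (.e (nat_lit 325173) (nat_lit 0) .nil) .nil)))))) (.nd (nat_lit 7) (.nd (nat_lit 8) (.nd (nat_lit 9) 
(.lf (nat_lit 563294) (.g (nat_lit 2063) (.e (nat_lit 426566) (nat_lit 34) (.e (nat_lit 393296) (nat_lit 26) (.e (nat_lit 475178) (nat_lit 24) (.e (nat_lit 516116) (nat_lit 1) (.e (nat_lit 164332) (nat_lit 230) (.e (nat_lit 163905) (nat_lit 12) .nil)))))) (.g (nat_lit 1) (.e (nat_lit 323278) (nat_lit 0) .nil) .nil))) 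
(.lf (nat_lit 563806) (.g (nat_lit 1465) (.e (nat_lit 434180) (nat_lit 0) (.e (nat_lit 1427) (nat_lit 108) (.e (nat_lit 336430) (nat_lit 29) (.e (nat_lit 442430) (nat_lit 24) .nil)))) (.g (nat_lit 0) (.e (nat_lit 323954) (nat_lit 0) .nil) .nil)))) (.nd (nat_lit 9) 
(.lf (nat_lit 563550) (.g (nat_lit 2595) (.e (nat_lit 426568) (nat_lit 34) (.e (nat_lit 393281) (nat_lit 23) (.e (nat_lit 426133) (nat_lit 3) (.e (nat_lit 204831) (nat_lit 18) (.e (nat_lit 57692) (nat_lit 156) .nil))))) (.g (nat_lit 0) (.e (nat_lit 323580) (nat_lit 0) .nil) .nil))) 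
(.lf (nat_lit 564062) (.g (nat_lit 1965) (.e (nat_lit 434202) (nat_lit 18) (.e (nat_lit 6421) (nat_lit 341) (.e (nat_lit 163920) (nat_lit 14) (.e (nat_lit 442411) (nat_lit 20) .nil)))) (.g (nat_lit 0) (.e (nat_lit 324732) (nat_lit 0) .nil) .nil))))) (.nd (nat_lit 8) (.nd (nat_lit 9) 
(.lf (nat_lit 563422) (.g (nat_lit 1634) (.e (nat_lit 426568) (nat_lit 34) (.e (nat_lit 393252) (nat_lit 18) (.e (nat_lit 164330) (nat_lit 230) (.e (nat_lit 163872) (nat_lit 3) .nil)))) (.g (nat_lit 0) (.e (nat_lit 323442) (nat_lit 0) .nil) .nil))) 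
(.lf (nat_lit 563934) (.g (nat_lit 602) (.e (nat_lit 442112) (nat_lit 4) (.e (nat_lit 65653) (nat_lit 27) (.e (nat_lit 426009) (nat_lit 0) (.e (nat_lit 7587) (nat_lit 406) (.e (nat_lit 73472) (nat_lit 28) .nil))))) (.g (nat_lit 0) (.e (nat_lit 324145) (nat_lit 0) .nil) .nil)))) (.nd (nat_lit 9) 
(.lf (nat_lit 563678) (.g (nat_lit 1607) (.e (nat_lit 433920) (nat_lit 34) (.e (nat_lit 393253) (nat_lit 18) (.e (nat_lit 164324) (nat_lit 230) (.e (nat_lit 163873) (nat_lit 3) (.e (nat_lit 204811) (nat_lit 9) .nil))))) (.g (nat_lit 0) (.e (nat_lit 323729) (nat_lit 0) .nil) .nil))) 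
(.lf (nat_lit 564190) (.g (nat_lit 2457) (.e (nat_lit 434212) (nat_lit 18) (.e (nat_lit 6425) (nat_lit 342) (.e (nat_lit 229415) (nat_lit 15) (.e (nat_lit 450563) (nat_lit 0) (.e (nat_lit 6420) (nat_lit 341) (.e (nat_lit 163908) (nat_lit 12) (.e (nat_lit 426281) (nat_lit 10) .nil))))))) (.g (nat_lit 1) (.e (nat_lit 325460) (nat_lit 0) .nil) .nil))))))) 
(.nd (nat_lit 6) (.nd (nat_lit 7) (.nd (nat_lit 8) (.nd (nat_lit 9) 
(.lf (nat_lit 563262) (.g (nat_lit 2564) (.e (nat_lit 426566) (nat_lit 34) (.e (nat_lit 393294) (nat_lit 26) (.e (nat_lit 475179) (nat_lit 24) (.e (nat_lit 516120) (nat_lit 1) (.e (nat_lit 164330) (nat_lit 230) (.e (nat_lit 171776) (nat_lit 12) .nil)))))) (.g (nat_lit 1) (.e (nat_lit 323245) (nat_lit 0) .nil) .nil))) 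
(.lf (nat_lit 563774) (.g (nat_lit 3795) (.e (nat_lit 434180) (nat_lit 0) (.e (nat_lit 1252) (nat_lit 92) (.e (nat_lit 98373) (nat_lit 29) (.e (nat_lit 450588) (nat_lit 10) (.e (nat_lit 573457) (nat_lit 9) .nil))))) (.g (nat_lit 0) (.e (nat_lit 323921) (nat_lit 0) .nil) .nil)))) (.nd (nat_lit 9) 
(.lf (nat_lit 563518) (.g (nat_lit 2692) (.e (nat_lit 426568) (nat_lit 34) (.e (nat_lit 393271) (nat_lit 23) (.e (nat_lit 426131) (nat_lit 3) (.e (nat_lit 204830) (nat_lit 18) (.e (nat_lit 57663) (nat_lit 152) (.e (nat_lit 2461) (nat_lit 157) (.e (nat_lit 2844) (nat_lit 184) .nil))))))) (.g (nat_lit 1) (.e (nat_lit 323542) (nat_lit 0) .nil) .nil))) 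
(.lf (nat_lit 564030) (.g (nat_lit 429) (.e (nat_lit 434186) (nat_lit 13) (.e (nat_lit 2777) (nat_lit 178) (.e (nat_lit 286770) (nat_lit 28) .nil))) (.g (nat_lit 0) (.e (nat_lit 324341) (nat_lit 0) .nil) .nil))))) (.nd (nat_lit 8) (.nd (nat_lit 9) 
(.lf (nat_lit 563390) (.g (nat_lit 579) (.e (nat_lit 426568) (nat_lit 34) (.e (nat_lit 393238) (nat_lit 17) (.e (nat_lit 3401) (nat_lit 211) .nil))) (.g (nat_lit 0) (.e (nat_lit 323409) (nat_lit 0) .nil) .nil))) 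
(.lf (nat_lit 563902) (.g (nat_lit 3848) (.e (nat_lit 442112) (nat_lit 0) (.e (nat_lit 1237) (nat_lit 91) (.e (nat_lit 90170) (nat_lit 13) (.e (nat_lit 172124) (nat_lit 14) (.e (nat_lit 491540) (nat_lit 3) .nil))))) (.g (nat_lit 0) (.e (nat_lit 324073) (nat_lit 0) .nil) .nil)))) (.nd (nat_lit 9) 
(.lf (nat_lit 563646) (.g (nat_lit 2068) (.e (nat_lit 426568) (nat_lit 34) (.e (nat_lit 393294) (nat_lit 26) (.e (nat_lit 475176) (nat_lit 24) (.e (nat_lit 516119) (nat_lit 1) (.e (nat_lit 164325) (nat_lit 230) (.e (nat_lit 163907) (nat_lit 12) .nil)))))) (.g (nat_lit 1) (.e (nat_lit 323687) (nat_lit 0) .nil) .nil))) 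
(.lf (nat_lit 564158) (.g (nat_lit 2146) (.e (nat_lit 434212) (nat_lit 18) (.e (nat_lit 5224) (nat_lit 296) (.e (nat_lit 163871) (nat_lit 2) (.e (nat_lit 196653) (nat_lit 11) (.e (nat_lit 16465) (nat_lit 13) (.e (nat_lit 491264) (nat_lit 10) .nil)))))) (.g (nat_lit 1) (.e (nat_lit 325405) (nat_lit 0) .nil) .nil)))))) (.nd (nat_lit 7) (.nd (nat_lit 8) (.nd (nat_lit 9) 
(.lf (nat_lit 563326) (.g (nat_lit 1962) (.e (nat_lit 426567) (nat_lit 34) (.e (nat_lit 393251) (nat_lit 18) (.e (nat_lit 164398) (nat_lit 256) (.e (nat_lit 57378) (nat_lit 3) .nil)))) (.g (nat_lit 0) (.e (nat_lit 323335) (nat_lit 0) .nil) .nil))) 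
(.lf (nat_lit 563838) (.g (nat_lit 1654) (.e (nat_lit 434181) (nat_lit 0) (.e (nat_lit 1234) (nat_lit 91) (.e (nat_lit 90172) (nat_lit 14) (.e (nat_lit 180278) (nat_lit 32) .nil)))) (.g (nat_lit 0) (.e (nat_lit 323996) (nat_lit 0) .nil) .nil)))) (.nd (nat_lit 9) 
(.lf (nat_lit 563582) (.g (nat_lit 828) (.e (nat_lit 426568) (nat_lit 34) (.e (nat_lit 393283) (nat_lit 24) (.e (nat_lit 434231) (nat_lit 23) (.e (nat_lit 532500) (nat_lit 1) .nil)))) (.g (nat_lit 0) (.e (nat_lit 323614) (nat_lit 0) .nil) .nil))) 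
(.lf (nat_lit 564094) (.g (nat_lit 3224) (.e (nat_lit 434208) (nat_lit 18) (.e (nat_lit 5945) (nat_lit 322) (.e (nat_lit 57378) (nat_lit 3) (.e (nat_lit 98365) (nat_lit 26) (.e (nat_lit 426327) (nat_lit 13) (.e (nat_lit 491264) (nat_lit 10) .nil)))))) (.g (nat_lit 1) (.e (nat_lit 324952) (nat_lit 0) .nil) .nil))))) (.nd (nat_lit 8) (.nd (nat_lit 9) 
(.lf (nat_lit 563454) (.g (nat_lit 2632) (.e (nat_lit 426568) (nat_lit 34) (.e (nat_lit 393253) (nat_lit 18) (.e (nat_lit 164327) (nat_lit 230) (.e (nat_lit 163868) (nat_lit 2) (.e (nat_lit 196652) (nat_lit 11) .nil))))) (.g (nat_lit 0) (.e (nat_lit 323475) (nat_lit 0) .nil) .nil))) 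
(.lf (nat_lit 563966) (.g (nat_lit 2114) (.e (nat_lit 442112) (nat_lit 5) (.e (nat_lit 73729) (nat_lit 0) (.e (nat_lit 7266) (nat_lit 384) (.e (nat_lit 57424) (nat_lit 14) (.e (nat_lit 360192) (nat_lit 12) .nil))))) (.g (nat_lit 0) (.e (nat_lit 324188) (nat_lit 0) .nil) .nil)))) (.nd (nat_lit 9) 
(.lf (nat_lit 563710) (.g (nat_lit 1256) (.e (nat_lit 426569) (nat_lit 35) (.e (nat_lit 401454) (nat_lit 12) (.e (nat_lit 475178) (nat_lit 24) .nil))) (.g (nat_lit 0) (.e (nat_lit 323769) (nat_lit 0) .nil) .nil))) 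
(.lf (nat_lit 564222) (.g (nat_lit 2069) (.e (nat_lit 434219) (nat_lit 19) (.e (nat_lit 500087) (nat_lit 22) (.e (nat_lit 131106) (nat_lit 9) (.e (nat_lit 336324) (nat_lit 18) (.e (nat_lit 204838) (nat_lit 20) (.e (nat_lit 122624) (nat_lit 12) .nil)))))) (.g (nat_lit 1) (.e (nat_lit 325564) (nat_lit 0) .nil) .nil)))))))))))) 
(.nd (nat_lit 1) (.nd (nat_lit 2) (.nd (nat_lit 3) (.nd (nat_lit 4) (.nd (nat_lit 5) 
(.nd (nat_lit 6) (.nd (nat_lit 7) (.nd (nat_lit 8) (.nd (nat_lit 9) 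
(.lf (nat_lit 563201) (.g (nat_lit 3598) (.e (nat_lit 426566) (nat_lit 34) (.e (nat_lit 393293) (nat_lit 26) (.e (nat_lit 475179) (nat_lit 24) (.e (nat_lit 516115) (nat_lit 1) (.e (nat_lit 164325) (nat_lit 230) (.e (nat_lit 163906) (nat_lit 12) .nil)))))) (.g (nat_lit 1) (.e (nat_lit 323183) (nat_lit 0) .nil) .nil))) 
(.lf (nat_lit 563713) (.g (nat_lit 3109) (.e (nat_lit 426569) (nat_lit 35) (.e (nat_lit 401454) (nat_lit 12) (.e (nat_lit 475179) (nat_lit 24) (.e (nat_lit 516117) (nat_lit 1) (.e (nat_lit 164304) (nat_lit 226) .nil))))) (.g (nat_lit 0) (.e (nat_lit 323772) (nat_lit 0) .nil) .nil)))) (.nd (nat_lit 9) 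
(.lf (nat_lit 563457) (.g (nat_lit 1342) (.e (nat_lit 426568) (nat_lit 34) (.e (nat_lit 393253) (nat_lit 18) (.e (nat_lit 164327) (nat_lit 230) (.e (nat_lit 163873) (nat_lit 3) .nil)))) (.g (nat_lit 0) (.e (nat_lit 323478) (nat_lit 0) .nil) .nil))) 
(.lf (nat_lit 563969) (.g (nat_lit 718) (.e (nat_lit 442112) (nat_lit 5) (.e (nat_lit 73730) (nat_lit 0) (.e (nat_lit 7261) (nat_lit 384) (.e (nat_lit 57424) (nat_lit 14) (.e (nat_lit 360192) (nat_lit 12) .nil))))) (.g (nat_lit 0) (.e (nat_lit 324191) (nat_lit 0) .nil) .nil))))) (.nd (nat_lit 8) (.nd (nat_lit 9) 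
(.lf (nat_lit 563329) (.g (nat_lit 2173) (.e (nat_lit 426567) (nat_lit 34) (.e (nat_lit 393251) (nat_lit 18) (.e (nat_lit 164399) (nat_lit 256) (.e (nat_lit 57378) (nat_lit 3) (.e (nat_lit 98365) (nat_lit 26) .nil))))) (.g (nat_lit 0) (.e (nat_lit 323338) (nat_lit 0) .nil) .nil))) 
(.lf (nat_lit 563841) (.g (nat_lit 3033) (.e (nat_lit 434181) (nat_lit 0) (.e (nat_lit 1235) (nat_lit 91) (.e (nat_lit 90170) (nat_lit 13) (.e (nat_lit 172113) (nat_lit 10) (.e (nat_lit 434245) (nat_lit 28) (.e (nat_lit 573451) (nat_lit 9) (.e (nat_lit 7936) (nat_lit 33) .nil))))))) (.g (nat_lit 1) (.e (nat_lit 323999) (nat_lit 0) .nil) .nil)))) (.nd (nat_lit 9) 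
(.lf (nat_lit 563585) (.g (nat_lit 2326) (.e (nat_lit 426568) (nat_lit 34) (.e (nat_lit 393283) (nat_lit 24) (.e (nat_lit 434231) (nat_lit 23) (.e (nat_lit 532500) (nat_lit 1) (.e (nat_lit 57662) (nat_lit 152) (.e (nat_lit 2466) (nat_lit 157) (.e (nat_lit 2845) (nat_lit 184) .nil))))))) (.g (nat_lit 1) (.e (nat_lit 323617) (nat_lit 0) .nil) .nil))) 
(.lf (nat_lit 564097) (.g (nat_lit 1765) (.e (nat_lit 434208) (nat_lit 18) (.e (nat_lit 6255) (nat_lit 337) (.e (nat_lit 2651) (nat_lit 166) (.e (nat_lit 188438) (nat_lit 20) (.e (nat_lit 3469) (nat_lit 217) .nil))))) (.g (nat_lit 0) (.e (nat_lit 324975) (nat_lit 0) .nil) .nil)))))) (.nd (nat_lit 7) (.nd (nat_lit 8) (.nd (nat_lit 9) 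
(.lf (nat_lit 563265) (.g (nat_lit 2136) (.e (nat_lit 426566) (nat_lit 34) (.e (nat_lit 393295) (nat_lit 26) (.e (nat_lit 475176) (nat_lit 24) (.e (nat_lit 516117) (nat_lit 1) (.e (nat_lit 164332) (nat_lit 230) (.e (nat_lit 163902) (nat_lit 12) .nil)))))) (.g (nat_lit 1) (.e (nat_lit 323248) (nat_lit 0) .nil) .nil))) 
(.lf (nat_lit 563777) (.g (nat_lit 3927) (.e (nat_lit 434180) (nat_lit 0) (.e (nat_lit 1253) (nat_lit 92) (.e (nat_lit 98373) (nat_lit 29) (.e (nat_lit 450587) (nat_lit 10) (.e (nat_lit 573449) (nat_lit 9) (.e (nat_lit 7936) (nat_lit 33) .nil)))))) (.g (nat_lit 1) (.e (nat_lit 323924) (nat_lit 0) .nil) .nil)))) (.nd (nat_lit 9) 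
(.lf (nat_lit 563521) (.g (nat_lit 2426) (.e (nat_lit 426568) (nat_lit 34) (.e (nat_lit 393271) (nat_lit 23) (.e (nat_lit 426131) (nat_lit 3) (.e (nat_lit 204830) (nat_lit 18) (.e (nat_lit 57663) (nat_lit 152) (.e (nat_lit 2473) (nat_lit 157) (.e (nat_lit 2844) (nat_lit 184) .nil))))))) (.g (nat_lit 1) (.e (nat_lit 323545) (nat_lit 0) .nil) .nil))) 
(.lf (nat_lit 564033) (.g (nat_lit 405) (.e (nat_lit 434190) (nat_lit 13) (.e (nat_lit 2789) (nat_lit 179) (.e (nat_lit 294969) (nat_lit 27) .nil))) (.g (nat_lit 0) (.e (nat_lit 324442) (nat_lit 0) .nil) .nil))))) (.nd (nat_lit 8) (.nd (nat_lit 9) 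
(.lf (nat_lit 563393) (.g (nat_lit 788) (.e (nat_lit 426568) (nat_lit 34) (.e (nat_lit 393251) (nat_lit 18) (.e (nat_lit 164324) (nat_lit 230) .nil))) (.g (nat_lit 0) (.e (nat_lit 323413) (nat_lit 0) .nil) .nil))) 
(.lf (nat_lit 563905) (.g (nat_lit 2502) (.e (nat_lit 442112) (nat_lit 0) (.e (nat_lit 1239) (nat_lit 91) (.e (nat_lit 90170) (nat_lit 13) (.e (nat_lit 172126) (nat_lit 14) (.e (nat_lit 491540) (nat_lit 3) .nil))))) (.g (nat_lit 0) (.e (nat_lit 324076) (nat_lit 0) .nil) .nil)))) (.nd (nat_lit 9) 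
(.lf (nat_lit 563649) (.g (nat_lit 3183) (.e (nat_lit 426568) (nat_lit 34) (.e (nat_lit 393294) (nat_lit 26) (.e (nat_lit 475177) (nat_lit 24) (.e (nat_lit 516115) (nat_lit 1) (.e (nat_lit 164329) (nat_lit 230) (.e (nat_lit 163902) (nat_lit 12) .nil)))))) (.g (nat_lit 1) (.e (nat_lit 323691) (nat_lit 0) .nil) .nil))) 
(.lf (nat_lit 564161) (.g (nat_lit 2244) (.e (nat_lit 434212) (nat_lit 18) (.e (nat_lit 5224) (nat_lit 296) (.e (nat_lit 163871) (nat_lit 2) (.e (nat_lit 196655) (nat_lit 11) (.e (nat_lit 16465) (nat_lit 13) (.e (nat_lit 491264) (nat_lit 10) .nil)))))) (.g (nat_lit 1) (.e (nat_lit 325410) (nat_lit 0) .nil) .nil))))))) (.nd (nat_lit 6) (.nd (nat_lit 7) (.nd (nat_lit 8) (.nd (nat_lit 9) 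
(.lf (nat_lit 563233) (.g (nat_lit 3474) (.e (nat_lit 426566) (nat_lit 34) (.e (nat_lit 393294) (nat_lit 26) (.e (nat_lit 475177) (nat_lit 24) (.e (nat_lit 516117) (nat_lit 1) (.e (nat_lit 164330) (nat_lit 230) (.e (nat_lit 163901) (nat_lit 12) .nil)))))) (.g (nat_lit 1) (.e (nat_lit 323215) (nat_lit 0) .nil) .nil))) 
(.lf (nat_lit 563745) (.g (nat_lit 3202) (.e (nat_lit 434179) (nat_lit 0) (.e (nat_lit 1077) (nat_lit 81) (.e (nat_lit 1796) (nat_lit 119) (.e (nat_lit 516166) (nat_lit 12) (.e (nat_lit 450588) (nat_lit 10) (.e (nat_lit 573452) (nat_lit 9) (.e (nat_lit 7936) (nat_lit 33) .nil))))))) (.g (nat_lit 1) (.e (nat_lit 323824) (nat_lit 0) .nil) .nil)))) (.nd (nat_lit 9) 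
(.lf (nat_lit 563489) (.g (nat_lit 2897) (.e (nat_lit 426568) (nat_lit 34) (.e (nat_lit 393266) (nat_lit 23) (.e (nat_lit 426438) (nat_lit 18) (.e (nat_lit 98335) (nat_lit 18) (.e (nat_lit 164325) (nat_lit 230) (.e (nat_lit 163903) (nat_lit 12) .nil)))))) (.g (nat_lit 1) (.e (nat_lit 323512) (nat_lit 0) .nil) .nil))) 
(.lf (nat_lit 564001) (.g (nat_lit 606) (.e (nat_lit 442112) (nat_lit 6) (.e (nat_lit 122936) (nat_lit 23) (.e (nat_lit 516171) (nat_lit 13) (.e (nat_lit 466688) (nat_lit 3) .nil)))) (.g (nat_lit 0) (.e (nat_lit 324250) (nat_lit 0) .nil) .nil))))) (.nd (nat_lit 8) (.nd (nat_lit 9) 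
(.lf (nat_lit 563361) (.g (nat_lit 1623) (.e (nat_lit 426567) (nat_lit 34) (.e (nat_lit 393290) (nat_lit 26) (.e (nat_lit 475179) (nat_lit 24) (.e (nat_lit 516120) (nat_lit 1) (.e (nat_lit 164332) (nat_lit 230) .nil))))) (.g (nat_lit 0) (.e (nat_lit 323372) (nat_lit 0) .nil) .nil))) 
(.lf (nat_lit 563873) (.g (nat_lit 1156) (.e (nat_lit 434181) (nat_lit 0) (.e (nat_lit 1427) (nat_lit 108) (.e (nat_lit 336421) (nat_lit 28) (.e (nat_lit 434186) (nat_lit 13) .nil)))) (.g (nat_lit 0) (.e (nat_lit 324031) (nat_lit 0) .nil) .nil)))) (.nd (nat_lit 9) 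
(.lf (nat_lit 563617) (.g (nat_lit 3143) (.e (nat_lit 426568) (nat_lit 34) (.e (nat_lit 393287) (nat_lit 25) (.e (nat_lit 458789) (nat_lit 23) (.e (nat_lit 532499) (nat_lit 1) (.e (nat_lit 57691) (nat_lit 156) (.e (nat_lit 163905) (nat_lit 12) .nil)))))) (.g (nat_lit 1) (.e (nat_lit 323656) (nat_lit 0) .nil) .nil))) 
(.lf (nat_lit 564129) (.g (nat_lit 2858) (.e (nat_lit 434209) (nat_lit 18) (.e (nat_lit 5546) (nat_lit 306) (.e (nat_lit 2650) (nat_lit 166) (.e (nat_lit 188434) (nat_lit 20) (.e (nat_lit 3409) (nat_lit 212) (.e (nat_lit 655378) (nat_lit 4) (.e (nat_lit 172115) (nat_lit 10) .nil))))))) (.g (nat_lit 1) (.e (nat_lit 325192) (nat_lit 0) .nil) .nil)))))) 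
(.nd (nat_lit 7) (.nd (nat_lit 8) (.nd (nat_lit 9) 
(.lf (nat_lit 563297) (.g (nat_lit 4041) (.e (nat_lit 426566) (nat_lit 34) (.e (nat_lit 393296) (nat_lit 26) (.e (nat_lit 475178) (nat_lit 24) (.e (nat_lit 516119) (nat_lit 1) (.e (nat_lit 164325) (nat_lit 230) (.e (nat_lit 163903) (nat_lit 12) .nil)))))) (.g (nat_lit 1) (.e (nat_lit 323281) (nat_lit 0) .nil) .nil))) 
(.lf (nat_lit 563809) (.g (nat_lit 754) (.e (nat_lit 434180) (nat_lit 0) (.e (nat_lit 1428) (nat_lit 108) (.e (nat_lit 336421) (nat_lit 28) (.e (nat_lit 434179) (nat_lit 0) .nil)))) (.g (nat_lit 0) (.e (nat_lit 323957) (nat_lit 0) .nil) .nil)))) (.nd (nat_lit 9) 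
(.lf (nat_lit 563553) (.g (nat_lit 2112) (.e (nat_lit 426568) (nat_lit 34) (.e (nat_lit 393281) (nat_lit 23) (.e (nat_lit 426138) (nat_lit 3) (.e (nat_lit 204831) (nat_lit 18) (.e (nat_lit 57686) (nat_lit 156) (.e (nat_lit 163903) (nat_lit 12) .nil)))))) (.g (nat_lit 1) (.e (nat_lit 323583) (nat_lit 0) .nil) .nil))) 
(.lf (nat_lit 564065) (.g (nat_lit 1342) (.e (nat_lit 434202) (nat_lit 18) (.e (nat_lit 6830) (nat_lit 367) (.e (nat_lit 57426) (nat_lit 15) (.e (nat_lit 360477) (nat_lit 11) (.e (nat_lit 581651) (nat_lit 4) .nil))))) (.g (nat_lit 0) (.e (nat_lit 324740) (nat_lit 0) .nil) .nil))))) (.nd (nat_lit 8) (.nd (nat_lit 9) 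
(.lf (nat_lit 563425) (.g (nat_lit 1744) (.e (nat_lit 426568) (nat_lit 34) (.e (nat_lit 393252) (nat_lit 18) (.e (nat_lit 164332) (nat_lit 230) (.e (nat_lit 163869) (nat_lit 2) (.e (nat_lit 196624) (nat_lit 9) .nil))))) (.g (nat_lit 0) (.e (nat_lit 323445) (nat_lit 0) .nil) .nil))) 
(.lf (nat_lit 563937) (.g (nat_lit 757) (.e (nat_lit 442112) (nat_lit 4) (.e (nat_lit 65653) (nat_lit 27) (.e (nat_lit 426010) (nat_lit 0) (.e (nat_lit 7589) (nat_lit 406) (.e (nat_lit 73472) (nat_lit 28) .nil))))) (.g (nat_lit 0) (.e (nat_lit 324148) (nat_lit 0) .nil) .nil)))) (.nd (nat_lit 9) 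
(.lf (nat_lit 563681) (.g (nat_lit 1116) (.e (nat_lit 433920) (nat_lit 34) (.e (nat_lit 393253) (nat_lit 18) (.e (nat_lit 164326) (nat_lit 230) (.e (nat_lit 163873) (nat_lit 3) (.e (nat_lit 204811) (nat_lit 9) .nil))))) (.g (nat_lit 0) (.e (nat_lit 323732) (nat_lit 0) .nil) .nil))) 
(.lf (nat_lit 564193) (.g (nat_lit 2380) (.e (nat_lit 434212) (nat_lit 18) (.e (nat_lit 6425) (nat_lit 342) (.e (nat_lit 229415) (nat_lit 15) (.e (nat_lit 450600) (nat_lit 20) .nil)))) (.g (nat_lit 0) (.e (nat_lit 325463) (nat_lit 0) .nil) .nil)))))))) (.nd (nat_lit 5) (.nd (nat_lit 6) (.nd (nat_lit 7) (.nd (nat_lit 8) (.nd (nat_lit 9) 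
(.lf (nat_lit 563217) (.g (nat_lit 522) (.e (nat_lit 426566) (nat_lit 34) (.e (nat_lit 393294) (nat_lit 26) (.e (nat_lit 475177) (nat_lit 24) .nil))) (.g (nat_lit 0) (.e (nat_lit 323199) (nat_lit 0) .nil) .nil))) 
(.lf (nat_lit 563729) (.g (nat_lit 882) (.e (nat_lit 433920) (nat_lit 35) (.e (nat_lit 401454) (nat_lit 12) (.e (nat_lit 483072) (nat_lit 26) (.e (nat_lit 532558) (nat_lit 14) (.e (nat_lit 376840) (nat_lit 11) .nil))))) (.g (nat_lit 0) (.e (nat_lit 323799) (nat_lit 0) .nil) .nil)))) (.nd (nat_lit 9) 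
(.lf (nat_lit 563473) (.g (nat_lit 1470) (.e (nat_lit 426568) (nat_lit 34) (.e (nat_lit 393253) (nat_lit 18) (.e (nat_lit 164402) (nat_lit 256) (.e (nat_lit 57377) (nat_lit 3) (.e (nat_lit 98365) (nat_lit 26) .nil))))) (.g (nat_lit 0) (.e (nat_lit 323494) (nat_lit 0) .nil) .nil))) 
(.lf (nat_lit 563985) (.g (nat_lit 273) (.e (nat_lit 442112) (nat_lit 5) (.e (nat_lit 73775) (nat_lit 26) (.e (nat_lit 778362) (nat_lit 9) .nil))) (.g (nat_lit 0) (.e (nat_lit 324214) (nat_lit 0) .nil) .nil))))) (.nd (nat_lit 8) (.nd (nat_lit 9) 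
(.lf (nat_lit 563345) (.g (nat_lit 1673) (.e (nat_lit 426567) (nat_lit 34) (.e (nat_lit 393253) (nat_lit 18) (.e (nat_lit 164403) (nat_lit 256) (.e (nat_lit 57378) (nat_lit 3) .nil)))) (.g (nat_lit 0) (.e (nat_lit 323355) (nat_lit 0) .nil) .nil))) 
(.lf (nat_lit 563857) (.g (nat_lit 3314) (.e (nat_lit 434181) (nat_lit 0) (.e (nat_lit 1253) (nat_lit 92) (.e (nat_lit 98373) (nat_lit 29) (.e (nat_lit 450587) (nat_lit 10) (.e (nat_lit 573457) (nat_lit 9) (.e (nat_lit 7936) (nat_lit 33) .nil)))))) (.g (nat_lit 1) (.e (nat_lit 324015) (nat_lit 0) .nil) .nil)))) (.nd (nat_lit 9) 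
(.lf (nat_lit 563601) (.g (nat_lit 3056) (.e (nat_lit 426568) (nat_lit 34) (.e (nat_lit 393283) (nat_lit 24) (.e (nat_lit 434248) (nat_lit 28) (.e (nat_lit 573475) (nat_lit 12) (.e (nat_lit 57503) (nat_lit 38) (.e (nat_lit 638985) (nat_lit 5) (.e (nat_lit 2862) (nat_lit 184) .nil))))))) (.g (nat_lit 1) (.e (nat_lit 323636) (nat_lit 0) .nil) .nil))) 
(.lf (nat_lit 564113) (.g (nat_lit 2421) (.e (nat_lit 434209) (nat_lit 18) (.e (nat_lit 5224) (nat_lit 296) (.e (nat_lit 163868) (nat_lit 2) (.e (nat_lit 196654) (nat_lit 11) (.e (nat_lit 16466) (nat_lit 13) (.e (nat_lit 491264) (nat_lit 10) .nil)))))) (.g (nat_lit 1) (.e (nat_lit 325100) (nat_lit 0) .nil) .nil)))))) (.nd (nat_lit 7) (.nd (nat_lit 8) (.nd (nat_lit 9) 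
(.lf (nat_lit 563281) (.g (nat_lit 3166) (.e (nat_lit 426566) (nat_lit 34) (.e (nat_lit 393296) (nat_lit 26) (.e (nat_lit 475177) (nat_lit 24) (.e (nat_lit 516118) (nat_lit 1) (.e (nat_lit 164327) (nat_lit 230) (.e (nat_lit 163907) (nat_lit 12) .nil)))))) (.g (nat_lit 1) (.e (nat_lit 323265) (nat_lit 0) .nil) .nil))) 
(.lf (nat_lit 563793) (.g (nat_lit 1999) (.e (nat_lit 434180) (nat_lit 0) (.e (nat_lit 1427) (nat_lit 108) (.e (nat_lit 336414) (nat_lit 27) (.e (nat_lit 426318) (nat_lit 12) .nil)))) (.g (nat_lit 0) (.e (nat_lit 323940) (nat_lit 0) .nil) .nil)))) (.nd (nat_lit 9) 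
(.lf (nat_lit 563537) (.g (nat_lit 3009) (.e (nat_lit 426568) (nat_lit 34) (.e (nat_lit 393279) (nat_lit 23) (.e (nat_lit 426129) (nat_lit 3) (.e (nat_lit 204829) (nat_lit 18) (.e (nat_lit 57686) (nat_lit 156) (.e (nat_lit 163903) (nat_lit 12) .nil)))))) (.g (nat_lit 1) (.e (nat_lit 323565) (nat_lit 0) .nil) .nil))) 
(.lf (nat_lit 564049) (.g (nat_lit 1908) (.e (nat_lit 434202) (nat_lit 18) (.e (nat_lit 5537) (nat_lit 306) (.e (nat_lit 2610) (nat_lit 163) (.e (nat_lit 163977) (nat_lit 30) (.e (nat_lit 573485) (nat_lit 13) .nil))))) (.g (nat_lit 0) (.e (nat_lit 324600) (nat_lit 0) .nil) .nil))))) (.nd (nat_lit 8) (.nd (nat_lit 9) 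
(.lf (nat_lit 563409) (.g (nat_lit 2416) (.e (nat_lit 426568) (nat_lit 34) (.e (nat_lit 393251) (nat_lit 18) (.e (nat_lit 164398) (nat_lit 256) (.e (nat_lit 57378) (nat_lit 3) (.e (nat_lit 98365) (nat_lit 26) .nil))))) (.g (nat_lit 0) (.e (nat_lit 323429) (nat_lit 0) .nil) .nil))) 
(.lf (nat_lit 563921) (.g (nat_lit 1336) (.e (nat_lit 442112) (nat_lit 0) (.e (nat_lit 1428) (nat_lit 108) (.e (nat_lit 336421) (nat_lit 28) (.e (nat_lit 434198) (nat_lit 17) (.e (nat_lit 229647) (nat_lit 232) .nil))))) (.g (nat_lit 0) (.e (nat_lit 324092) (nat_lit 0) .nil) .nil)))) (.nd (nat_lit 9) 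
(.lf (nat_lit 563665) (.g (nat_lit 2935) (.e (nat_lit 426568) (nat_lit 34) (.e (nat_lit 393301) (nat_lit 27) (.e (nat_lit 491539) (nat_lit 3) (.e (nat_lit 98333) (nat_lit 18) (.e (nat_lit 164232) (nat_lit 185) .nil))))) (.g (nat_lit 0) (.e (nat_lit 323715) (nat_lit 0) .nil) .nil))) 
(.lf (nat_lit 564177) (.g (nat_lit 1266) (.e (nat_lit 434212) (nat_lit 18) (.e (nat_lit 6425) (nat_lit 342) (.e (nat_lit 229413) (nat_lit 15) (.e (nat_lit 450604) (nat_lit 22) .nil)))) (.g (nat_lit 0) (.e (nat_lit 325447) (nat_lit 0) .nil) .nil))))))) (.nd (nat_lit 6) (.nd (nat_lit 7) (.nd (nat_lit 8) (.nd (nat_lit 9) 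
(.lf (nat_lit 563249) (.g (nat_lit 1036) (.e (nat_lit 426566) (nat_lit 34) (.e (nat_lit 393294) (nat_lit 26) (.e (nat_lit 475179) (nat_lit 24) (.e (nat_lit 516115) (nat_lit 1) .nil)))) (.g (nat_lit 0) (.e (nat_lit 323232) (nat_lit 0) .nil) .nil))) 
(.lf (nat_lit 563761) (.g (nat_lit 1838) (.e (nat_lit 434180) (nat_lit 0) (.e (nat_lit 1234) (nat_lit 91) (.e (nat_lit 90172) (nat_lit 14) (.e (nat_lit 180277) (nat_lit 32) .nil)))) (.g (nat_lit 0) (.e (nat_lit 323908) (nat_lit 0) .nil) .nil)))) (.nd (nat_lit 9) 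
(.lf (nat_lit 563505) (.g (nat_lit 2358) (.e (nat_lit 426568) (nat_lit 34) (.e (nat_lit 393271) (nat_lit 23) (.e (nat_lit 426131) (nat_lit 3) (.e (nat_lit 204829) (nat_lit 18) (.e (nat_lit 57665) (nat_lit 152) (.e (nat_lit 2466) (nat_lit 157) (.e (nat_lit 2844) (nat_lit 184) .nil))))))) (.g (nat_lit 1) (.e (nat_lit 323529) (nat_lit 0) .nil) .nil))) 
(.lf (nat_lit 564017) (.g (nat_lit 1900) (.e (nat_lit 434184) (nat_lit 8) (.e (nat_lit 2682) (nat_lit 168) (.e (nat_lit 204846) (nat_lit 24) (.e (nat_lit 319533) (nat_lit 16) (.e (nat_lit 286734) (nat_lit 3) .nil))))) (.g (nat_lit 0) (.e (nat_lit 324286) (nat_lit 0) .nil) .nil))))) (.nd (nat_lit 8) (.nd (nat_lit 9) 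
(.lf (nat_lit 563377) (.g (nat_lit 2175) (.e (nat_lit 426567) (nat_lit 34) (.e (nat_lit 393294) (nat_lit 26) (.e (nat_lit 475177) (nat_lit 24) (.e (nat_lit 516117) (nat_lit 1) .nil)))) (.g (nat_lit 0) (.e (nat_lit 323388) (nat_lit 0) .nil) .nil))) 
(.lf (nat_lit 563889) (.g (nat_lit 216) (.e (nat_lit 434181) (nat_lit 0) (.e (nat_lit 1660) (nat_lit 115) (.e (nat_lit 393238) (nat_lit 17) .nil))) (.g (nat_lit 0) (.e (nat_lit 324049) (nat_lit 0) .nil) .nil)))) (.nd (nat_lit 9) 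
(.lf (nat_lit 563633) (.g (nat_lit 2214) (.e (nat_lit 426568) (nat_lit 34) (.e (nat_lit 393292) (nat_lit 26) (.e (nat_lit 475177) (nat_lit 24) (.e (nat_lit 516115) (nat_lit 1) (.e (nat_lit 164332) (nat_lit 230) (.e (nat_lit 163905) (nat_lit 12) .nil)))))) (.g (nat_lit 1) (.e (nat_lit 323674) (nat_lit 0) .nil) .nil))) 
(.lf (nat_lit 564145) (.g (nat_lit 2143) (.e (nat_lit 434209) (nat_lit 18) (.e (nat_lit 5548) (nat_lit 306) (.e (nat_lit 2649) (nat_lit 166) (.e (nat_lit 188434) (nat_lit 20) (.e (nat_lit 3409) (nat_lit 212) .nil))))) (.g (nat_lit 0) (.e (nat_lit 325295) (nat_lit 0) .nil) .nil)))))) (.nd (nat_lit 7) (.nd (nat_lit 8) (.nd (nat_lit 9) 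
(.lf (nat_lit 563313) (.g (nat_lit 1745) (.e (nat_lit 426567) (nat_lit 34) (.e (nat_lit 393251) (nat_lit 18) (.e (nat_lit 164325) (nat_lit 230) (.e (nat_lit 163868) (nat_lit 2) (.e (nat_lit 196654) (nat_lit 11) .nil))))) (.g (nat_lit 0) (.e (nat_lit 323319) (nat_lit 0) .nil) .nil))) 
(.lf (nat_lit 563825) (.g (nat_lit 1740) (.e (nat_lit 434180) (nat_lit 0) (.e (nat_lit 1660) (nat_lit 115) (.e (nat_lit 393260) (nat_lit 21) (.e (nat_lit 409640) (nat_lit 17) (.e (nat_lit 294973) (nat_lit 28) .nil))))) (.g (nat_lit 0) (.e (nat_lit 323978) (nat_lit 0) .nil) .nil)))) (.nd (nat_lit 9) 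
(.lf (nat_lit 563569) (.g (nat_lit 2418) (.e (nat_lit 426568) (nat_lit 34) (.e (nat_lit 393282) (nat_lit 24) (.e (nat_lit 434231) (nat_lit 23) (.e (nat_lit 532502) (nat_lit 1) (.e (nat_lit 57692) (nat_lit 156) (.e (nat_lit 163907) (nat_lit 12) .nil)))))) (.g (nat_lit 1) (.e (nat_lit 323599) (nat_lit 0) .nil) .nil))) 
(.lf (nat_lit 564081) (.g (nat_lit 473) (.e (nat_lit 434207) (nat_lit 18) (.e (nat_lit 6252) (nat_lit 337) (.e (nat_lit 7936) (nat_lit 166) .nil))) (.g (nat_lit 0) (.e (nat_lit 324852) (nat_lit 0) .nil) .nil))))) (.nd (nat_lit 8) (.nd (nat_lit 9) 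
(.lf (nat_lit 563441) (.g (nat_lit 1048) (.e (nat_lit 426568) (nat_lit 34) (.e (nat_lit 393253) (nat_lit 18) (.e (nat_lit 164324) (nat_lit 230) (.e (nat_lit 163873) (nat_lit 3) .nil)))) (.g (nat_lit 0) (.e (nat_lit 323462) (nat_lit 0) .nil) .nil))) 
(.lf (nat_lit 563953) (.g (nat_lit 1113) (.e (nat_lit 442112) (nat_lit 4) (.e (nat_lit 65653) (nat_lit 27) (.e (nat_lit 426344) (nat_lit 14) (.e (nat_lit 491552) (nat_lit 9) (.e (nat_lit 343808) (nat_lit 28) .nil))))) (.g (nat_lit 0) (.e (nat_lit 324174) (nat_lit 0) .nil) .nil)))) (.nd (nat_lit 9) 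
(.lf (nat_lit 563697) (.g (nat_lit 748) (.e (nat_lit 433920) (nat_lit 34) (.e (nat_lit 393270) (nat_lit 23) (.e (nat_lit 426436) (nat_lit 18) (.e (nat_lit 98335) (nat_lit 18) .nil)))) (.g (nat_lit 0) (.e (nat_lit 323748) (nat_lit 0) .nil) .nil))) 
(.lf (nat_lit 564209) (.g (nat_lit 1781) (.e (nat_lit 434216) (nat_lit 18) (.e (nat_lit 5946) (nat_lit 322) (.e (nat_lit 57377) (nat_lit 3) (.e (nat_lit 98365) (nat_lit 26) (.e (nat_lit 426327) (nat_lit 13) .nil))))) (.g (nat_lit 0) (.e (nat_lit 325512) (nat_lit 0) .nil) .nil))))))))) (.nd (nat_lit 4) (.nd (nat_lit 5) (.nd (nat_lit 6) (.nd (nat_lit 7) (.nd (nat_lit 8) (.nd (nat_lit 9) 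
(.lf (nat_lit 563209) (.g (nat_lit 2924) (.e (nat_lit 426566) (nat_lit 34) (.e (nat_lit 393294) (nat_lit 26) (.e (nat_lit 475176) (nat_lit 24) (.e (nat_lit 516116) (nat_lit 1) (.e (nat_lit 164329) (nat_lit 230) (.e (nat_lit 163902) (nat_lit 12) .nil)))))) (.g (nat_lit 1) (.e (nat_lit 323191) (nat_lit 0) .nil) .nil))) 
(.lf (nat_lit 563721) (.g (nat_lit 2219) (.e (nat_lit 426571) (nat_lit 35) (.e (nat_lit 401454) (nat_lit 12) (.e (nat_lit 475210) (nat_lit 41) (.e (nat_lit 712745) (nat_lit 27) .nil)))) (.g (nat_lit 0) (.e (nat_lit 323787) (nat_lit 0) .nil) .nil)))) (.nd (nat_lit 9) 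
(.lf (nat_lit 563465) (.g (nat_lit 3684) (.e (nat_lit 426568) (nat_lit 34) (.e (nat_lit 393253) (nat_lit 18) (.e (nat_lit 164331) (nat_lit 230) (.e (nat_lit 163873) (nat_lit 3) (.e (nat_lit 204813) (nat_lit 9) (.e (nat_lit 426200) (nat_lit 9) .nil)))))) (.g (nat_lit 1) (.e (nat_lit 323486) (nat_lit 0) .nil) .nil))) 
(.lf (nat_lit 563977) (.g (nat_lit 1405) (.e (nat_lit 442112) (nat_lit 5) (.e (nat_lit 73731) (nat_lit 0) (.e (nat_lit 7265) (nat_lit 384) (.e (nat_lit 57424) (nat_lit 14) (.e (nat_lit 360192) (nat_lit 12) .nil))))) (.g (nat_lit 0) (.e (nat_lit 324200) (nat_lit 0) .nil) .nil))))) (.nd (nat_lit 8) (.nd (nat_lit 9) 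
(.lf (nat_lit 563337) (.g (nat_lit 2181) (.e (nat_lit 426567) (nat_lit 34) (.e (nat_lit 393253) (nat_lit 18) (.e (nat_lit 164325) (nat_lit 230) (.e (nat_lit 163873) (nat_lit 3) .nil)))) (.g (nat_lit 0) (.e (nat_lit 323346) (nat_lit 0) .nil) .nil))) 
(.lf (nat_lit 563849) (.g (nat_lit 3184) (.e (nat_lit 434181) (nat_lit 0) (.e (nat_lit 1252) (nat_lit 92) (.e (nat_lit 98373) (nat_lit 29) (.e (nat_lit 450588) (nat_lit 10) (.e (nat_lit 573452) (nat_lit 9) (.e (nat_lit 7936) (nat_lit 33) .nil)))))) (.g (nat_lit 1) (.e (nat_lit 324007) (nat_lit 0) .nil) .nil)))) (.nd (nat_lit 9) 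
(.lf (nat_lit 563593) (.g (nat_lit 328) (.e (nat_lit 426568) (nat_lit 34) (.e (nat_lit 393283) (nat_lit 24) (.e (nat_lit 434234) (nat_lit 23) .nil))) (.g (nat_lit 0) (.e (nat_lit 323625) (nat_lit 0) .nil) .nil))) 
(.lf (nat_lit 564105) (.g (nat_lit 2017) (.e (nat_lit 434208) (nat_lit 18) (.e (nat_lit 6421) (nat_lit 341) (.e (nat_lit 163920) (nat_lit 14) (.e (nat_lit 442412) (nat_lit 20) .nil)))) (.g (nat_lit 0) (.e (nat_lit 325042) (nat_lit 0) .nil) .nil)))))) (.nd (nat_lit 7) (.nd (nat_lit 8) (.nd (nat_lit 9) 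
(.lf (nat_lit 563273) (.g (nat_lit 3219) (.e (nat_lit 426566) (nat_lit 34) (.e (nat_lit 393296) (nat_lit 26) (.e (nat_lit 475176) (nat_lit 24) (.e (nat_lit 516115) (nat_lit 1) (.e (nat_lit 164325) (nat_lit 230) (.e (nat_lit 163905) (nat_lit 12) .nil)))))) (.g (nat_lit 1) (.e (nat_lit 323257) (nat_lit 0) .nil) .nil))) 
(.lf (nat_lit 563785) (.g (nat_lit 3661) (.e (nat_lit 434180) (nat_lit 0) (.e (nat_lit 1253) (nat_lit 92) (.e (nat_lit 98373) (nat_lit 29) (.e (nat_lit 450588) (nat_lit 10) (.e (nat_lit 573452) (nat_lit 9) (.e (nat_lit 7936) (nat_lit 33) .nil)))))) (.g (nat_lit 1) (.e (nat_lit 323932) (nat_lit 0) .nil) .nil)))) (.nd (nat_lit 9) 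
(.lf (nat_lit 563529) (.g (nat_lit 3571) (.e (nat_lit 426568) (nat_lit 34) (.e (nat_lit 393271) (nat_lit 23) (.e (nat_lit 426131) (nat_lit 3) (.e (nat_lit 204831) (nat_lit 18) (.e (nat_lit 57691) (nat_lit 156) (.e (nat_lit 163907) (nat_lit 12) .nil)))))) (.g (nat_lit 1) (.e (nat_lit 323553) (nat_lit 0) .nil) .nil))) 
(.lf (nat_lit 564041) (.g (nat_lit 1719) (.e (nat_lit 434197) (nat_lit 16) (.e (nat_lit 164338) (nat_lit 232) (.e (nat_lit 403) (nat_lit 32) (.e (nat_lit 426340) (nat_lit 14) (.e (nat_lit 491550) (nat_lit 9) (.e (nat_lit 336421) (nat_lit 28) .nil)))))) (.g (nat_lit 1) (.e (nat_lit 324508) (nat_lit 0) .nil) .nil))))) (.nd (nat_lit 8) (.nd (nat_lit 9) 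
(.lf (nat_lit 563401) (.g (nat_lit 1416) (.e (nat_lit 426568) (nat_lit 34) (.e (nat_lit 393251) (nat_lit 18) (.e (nat_lit 164331) (nat_lit 230) (.e (nat_lit 163867) (nat_lit 2) .nil)))) (.g (nat_lit 0) (.e (nat_lit 323421) (nat_lit 0) .nil) .nil))) 
(.lf (nat_lit 563913) (.g (nat_lit 1715) (.e (nat_lit 442112) (nat_lit 0) (.e (nat_lit 1427) (nat_lit 108) (.e (nat_lit 336421) (nat_lit 28) (.e (nat_lit 434198) (nat_lit 17) (.e (nat_lit 229645) (nat_lit 232) .nil))))) (.g (nat_lit 0) (.e (nat_lit 324084) (nat_lit 0) .nil) .nil)))) (.nd (nat_lit 9) 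
(.lf (nat_lit 563657) (.g (nat_lit 3096) (.e (nat_lit 426568) (nat_lit 34) (.e (nat_lit 393294) (nat_lit 26) (.e (nat_lit 475179) (nat_lit 24) (.e (nat_lit 516120) (nat_lit 1) (.e (nat_lit 164322) (nat_lit 230) (.e (nat_lit 163902) (nat_lit 12) .nil)))))) (.g (nat_lit 1) (.e (nat_lit 323699) (nat_lit 0) .nil) .nil))) 
(.lf (nat_lit 564169) (.g (nat_lit 5254) (.e (nat_lit 434212) (nat_lit 18) (.e (nat_lit 5548) (nat_lit 306) (.e (nat_lit 2610) (nat_lit 163) (.e (nat_lit 163979) (nat_lit 30) (.e (nat_lit 573493) (nat_lit 15) (.e (nat_lit 81956) (nat_lit 23) (.e (nat_lit 98368) (nat_lit 27) .nil))))))) (.g (nat_lit 1) (.e (nat_lit 325436) (nat_lit 0) .nil) .nil))))))) 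
(.nd (nat_lit 6) (.nd (nat_lit 7) (.nd (nat_lit 8) (.nd (nat_lit 9) 
(.lf (nat_lit 563241) (.g (nat_lit 3097) (.e (nat_lit 426566) (nat_lit 34) (.e (nat_lit 393294) (nat_lit 26) (.e (nat_lit 475177) (nat_lit 24) (.e (nat_lit 516119) (nat_lit 1) (.e (nat_lit 164325) (nat_lit 230) (.e (nat_lit 163906) (nat_lit 12) .nil)))))) (.g (nat_lit 1) (.e (nat_lit 323223) (nat_lit 0) .nil) .nil))) 
(.lf (nat_lit 563753) (.g (nat_lit 1864) (.e (nat_lit 434180) (nat_lit 0) (.e (nat_lit 1234) (nat_lit 91) (.e (nat_lit 90170) (nat_lit 13) (.e (nat_lit 172113) (nat_lit 10) (.e (nat_lit 434245) (nat_lit 28) (.e (nat_lit 573448) (nat_lit 9) (.e (nat_lit 442) (nat_lit 33) .nil))))))) (.g (nat_lit 1) (.e (nat_lit 323900) (nat_lit 0) .nil) .nil)))) (.nd (nat_lit 9) 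
(.lf (nat_lit 563497) (.g (nat_lit 2568) (.e (nat_lit 426568) (nat_lit 34) (.e (nat_lit 393268) (nat_lit 23) (.e (nat_lit 426438) (nat_lit 18) (.e (nat_lit 98333) (nat_lit 18) (.e (nat_lit 164332) (nat_lit 230) (.e (nat_lit 163905) (nat_lit 12) .nil)))))) (.g (nat_lit 1) (.e (nat_lit 323521) (nat_lit 0) .nil) .nil))) 
(.lf (nat_lit 564009) (.g (nat_lit 1034) (.e (nat_lit 442112) (nat_lit 7) (.e (nat_lit 131140) (nat_lit 27) (.e (nat_lit 426315) (nat_lit 12) (.e (nat_lit 475208) (nat_lit 41) (.e (nat_lit 712747) (nat_lit 28) .nil))))) (.g (nat_lit 0) (.e (nat_lit 324273) (nat_lit 0) .nil) .nil))))) (.nd (nat_lit 8) (.nd (nat_lit 9) 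
(.lf (nat_lit 563369) (.g (nat_lit 2284) (.e (nat_lit 426567) (nat_lit 34) (.e (nat_lit 393291) (nat_lit 26) (.e (nat_lit 475179) (nat_lit 24) (.e (nat_lit 516117) (nat_lit 1) (.e (nat_lit 164332) (nat_lit 230) .nil))))) (.g (nat_lit 0) (.e (nat_lit 323380) (nat_lit 0) .nil) .nil))) 
(.lf (nat_lit 563881) (.g (nat_lit 1214) (.e (nat_lit 434181) (nat_lit 0) (.e (nat_lit 1428) (nat_lit 108) (.e (nat_lit 336421) (nat_lit 28) (.e (nat_lit 434188) (nat_lit 13) .nil)))) (.g (nat_lit 0) (.e (nat_lit 324039) (nat_lit 0) .nil) .nil)))) (.nd (nat_lit 9) 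
(.lf (nat_lit 563625) (.g (nat_lit 1744) (.e (nat_lit 426568) (nat_lit 34) (.e (nat_lit 393290) (nat_lit 26) (.e (nat_lit 475177) (nat_lit 24) (.e (nat_lit 516117) (nat_lit 1) (.e (nat_lit 164332) (nat_lit 230) .nil))))) (.g (nat_lit 0) (.e (nat_lit 323666) (nat_lit 0) .nil) .nil))) 
(.lf (nat_lit 564137) (.g (nat_lit 2269) (.e (nat_lit 434209) (nat_lit 18) (.e (nat_lit 5547) (nat_lit 306) (.e (nat_lit 2649) (nat_lit 166) (.e (nat_lit 188434) (nat_lit 20) (.e (nat_lit 3409) (nat_lit 212) (.e (nat_lit 655378) (nat_lit 4) (.e (nat_lit 172106) (nat_lit 10) .nil))))))) (.g (nat_lit 1) (.e (nat_lit 325245) (nat_lit 0) .nil) .nil)))))) 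
(.nd (nat_lit 7) (.nd (nat_lit 8) (.nd (nat_lit 9) 
(.lf (nat_lit 563305) (.g (nat_lit 2574) (.e (nat_lit 426566) (nat_lit 34) (.e (nat_lit 393296) (nat_lit 26) (.e (nat_lit 475179) (nat_lit 24) (.e (nat_lit 516115) (nat_lit 1) (.e (nat_lit 164325) (nat_lit 230) (.e (nat_lit 163906) (nat_lit 12) .nil)))))) (.g (nat_lit 1) (.e (nat_lit 323289) (nat_lit 0) .nil) .nil))) 
(.lf (nat_lit 563817) (.g (nat_lit 1856) (.e (nat_lit 434180) (nat_lit 0) (.e (nat_lit 1637) (nat_lit 114) (.e (nat_lit 385109) (nat_lit 51) (.e (nat_lit 794683) (nat_lit 25) (.e (nat_lit 221208) (nat_lit 21) .nil))))) (.g (nat_lit 0) (.e (nat_lit 323965) (nat_lit 0) .nil) .nil)))) (.nd (nat_lit 9) 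
(.lf (nat_lit 563561) (.g (nat_lit 3205) (.e (nat_lit 426568) (nat_lit 34) (.e (nat_lit 393282) (nat_lit 24) (.e (nat_lit 434231) (nat_lit 23) (.e (nat_lit 532499) (nat_lit 1) (.e (nat_lit 57692) (nat_lit 156) (.e (nat_lit 163905) (nat_lit 12) .nil)))))) (.g (nat_lit 1) (.e (nat_lit 323591) (nat_lit 0) .nil) .nil))) 
(.lf (nat_lit 564073) (.g (nat_lit 2976) (.e (nat_lit 434203) (nat_lit 18) (.e (nat_lit 6420) (nat_lit 341) (.e (nat_lit 163923) (nat_lit 15) (.e (nat_lit 450601) (nat_lit 21) (.e (nat_lit 696344) (nat_lit 8) (.e (nat_lit 172113) (nat_lit 10) .nil)))))) (.g (nat_lit 1) (.e (nat_lit 324803) (nat_lit 0) .nil) .nil))))) (.nd (nat_lit 8) (.nd (nat_lit 9) 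
(.lf (nat_lit 563433) (.g (nat_lit 1536) (.e (nat_lit 426568) (nat_lit 34) (.e (nat_lit 393252) (nat_lit 18) (.e (nat_lit 164401) (nat_lit 256) (.e (nat_lit 57378) (nat_lit 3) (.e (nat_lit 98358) (nat_lit 26) .nil))))) (.g (nat_lit 0) (.e (nat_lit 323453) (nat_lit 0) .nil) .nil))) 
(.lf (nat_lit 563945) (.g (nat_lit 910) (.e (nat_lit 442112) (nat_lit 4) (.e (nat_lit 65653) (nat_lit 27) (.e (nat_lit 426315) (nat_lit 12) (.e (nat_lit 475208) (nat_lit 41) .nil)))) (.g (nat_lit 0) (.e (nat_lit 324166) (nat_lit 0) .nil) .nil)))) (.nd (nat_lit 9) 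
(.lf (nat_lit 563689) (.g (nat_lit 1801) (.e (nat_lit 433920) (nat_lit 34) (.e (nat_lit 393253) (nat_lit 18) (.e (nat_lit 164332) (nat_lit 230) (.e (nat_lit 163874) (nat_lit 3) (.e (nat_lit 204811) (nat_lit 9) .nil))))) (.g (nat_lit 0) (.e (nat_lit 323740) (nat_lit 0) .nil) .nil))) 
(.lf (nat_lit 564201) (.g (nat_lit 1931) (.e (nat_lit 434213) (nat_lit 18) (.e (nat_lit 5224) (nat_lit 296) (.e (nat_lit 163871) (nat_lit 2) (.e (nat_lit 196654) (nat_lit 11) (.e (nat_lit 16466) (nat_lit 13) (.e (nat_lit 491264) (nat_lit 10) .nil)))))) (.g (nat_lit 1) (.e (nat_lit 325477) (nat_lit 0) .nil) .nil)))))))) 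
(.nd (nat_lit 5) (.nd (nat_lit 6) (.nd (nat_lit 7) (.nd (nat_lit 8) (.nd (nat_lit 9) 
(.lf (nat_lit 563225) (.g (nat_lit 2485) (.e (nat_lit 426566) (nat_lit 34) (.e (nat_lit 393294) (nat_lit 26) (.e (nat_lit 475177) (nat_lit 24) (.e (nat_lit 516115) (nat_lit 1) (.e (nat_lit 164326) (nat_lit 230) .nil))))) (.g (nat_lit 0) (.e (nat_lit 323207) (nat_lit 0) .nil) .nil))) 
(.lf (nat_lit 563737) (.g (nat_lit 2974) (.e (nat_lit 434177) (nat_lit 0) (.e (nat_lit 1234) (nat_lit 91) (.e (nat_lit 90170) (nat_lit 13) (.e (nat_lit 172106) (nat_lit 10) (.e (nat_lit 434244) (nat_lit 28) .nil))))) (.g (nat_lit 0) (.e (nat_lit 323807) (nat_lit 0) .nil) .nil)))) (.nd (nat_lit 9) 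
(.lf (nat_lit 563481) (.g (nat_lit 2828) (.e (nat_lit 426568) (nat_lit 34) (.e (nat_lit 393260) (nat_lit 21) (.e (nat_lit 409616) (nat_lit 10) (.e (nat_lit 604) (nat_lit 45) (.e (nat_lit 532513) (nat_lit 3) (.e (nat_lit 122624) (nat_lit 11) .nil)))))) (.g (nat_lit 1) (.e (nat_lit 323503) (nat_lit 0) .nil) .nil))) 
(.lf (nat_lit 563993) (.g (nat_lit 1546) (.e (nat_lit 442112) (nat_lit 5) (.e (nat_lit 73775) (nat_lit 26) (.e (nat_lit 778466) (nat_lit 11) (.e (nat_lit 24626) (nat_lit 9) (.e (nat_lit 336423) (nat_lit 28) .nil))))) (.g (nat_lit 0) (.e (nat_lit 324237) (nat_lit 0) .nil) .nil))))) (.nd (nat_lit 8) (.nd (nat_lit 9) 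
(.lf (nat_lit 563353) (.g (nat_lit 3124) (.e (nat_lit 426567) (nat_lit 34) (.e (nat_lit 393270) (nat_lit 23) (.e (nat_lit 426436) (nat_lit 18) (.e (nat_lit 98334) (nat_lit 18) (.e (nat_lit 164330) (nat_lit 230) (.e (nat_lit 163905) (nat_lit 12) .nil)))))) (.g (nat_lit 1) (.e (nat_lit 323363) (nat_lit 0) .nil) .nil))) 
(.lf (nat_lit 563865) (.g (nat_lit 798) (.e (nat_lit 434181) (nat_lit 0) (.e (nat_lit 1425) (nat_lit 108) (.e (nat_lit 336421) (nat_lit 28) (.e (nat_lit 434186) (nat_lit 13) (.e (nat_lit 2779) (nat_lit 178) (.e (nat_lit 286770) (nat_lit 28) .nil)))))) (.g (nat_lit 1) (.e (nat_lit 324023) (nat_lit 0) .nil) .nil)))) (.nd (nat_lit 9) 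
(.lf (nat_lit 563609) (.g (nat_lit 3174) (.e (nat_lit 426568) (nat_lit 34) (.e (nat_lit 393286) (nat_lit 25) (.e (nat_lit 458789) (nat_lit 23) (.e (nat_lit 532499) (nat_lit 1) (.e (nat_lit 57691) (nat_lit 156) (.e (nat_lit 163905) (nat_lit 12) .nil)))))) (.g (nat_lit 1) (.e (nat_lit 323646) (nat_lit 0) .nil) .nil))) 
(.lf (nat_lit 564121) (.g (nat_lit 2558) (.e (nat_lit 434209) (nat_lit 18) (.e (nat_lit 5224) (nat_lit 296) (.e (nat_lit 163884) (nat_lit 5) (.e (nat_lit 221194) (nat_lit 11) (.e (nat_lit 336087) (nat_lit 9) (.e (nat_lit 336398) (nat_lit 27) (.e (nat_lit 426290) (nat_lit 10) .nil))))))) (.g (nat_lit 1) (.e (nat_lit 325156) (nat_lit 0) .nil) .nil)))))) 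
(.nd (nat_lit 7) (.nd (nat_lit 8) (.nd (nat_lit 9) 
(.lf (nat_lit 563289) (.g (nat_lit 3767) (.e (nat_lit 426566) (nat_lit 34) (.e (nat_lit 393296) (nat_lit 26) (.e (nat_lit 475178) (nat_lit 24) (.e (nat_lit 516115) (nat_lit 1) (.e (nat_lit 164325) (nat_lit 230) (.e (nat_lit 163901) (nat_lit 12) .nil)))))) (.g (nat_lit 1) (.e (nat_lit 323273) (nat_lit 0) .nil) .nil))) 
(.lf (nat_lit 563801) (.g (nat_lit 2472) (.e (nat_lit 434180) (nat_lit 0) (.e (nat_lit 1427) (nat_lit 108) (.e (nat_lit 336421) (nat_lit 28) (.e (nat_lit 434189) (nat_lit 13) (.e (nat_lit 2789) (nat_lit 179) (.e (nat_lit 294973) (nat_lit 28) .nil)))))) (.g (nat_lit 1) (.e (nat_lit 323948) (nat_lit 0) .nil) .nil)))) (.nd (nat_lit 9) 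
(.lf (nat_lit 563545) (.g (nat_lit 3348) (.e (nat_lit 426568) (nat_lit 34) (.e (nat_lit 393281) (nat_lit 23) (.e (nat_lit 426133) (nat_lit 3) (.e (nat_lit 204829) (nat_lit 18) (.e (nat_lit 57692) (nat_lit 156) (.e (nat_lit 163907) (nat_lit 12) .nil)))))) (.g (nat_lit 1) (.e (nat_lit 323575) (nat_lit 0) .nil) .nil))) 
(.lf (nat_lit 564057) (.g (nat_lit 2706) (.e (nat_lit 434202) (nat_lit 18) (.e (nat_lit 6416) (nat_lit 341) (.e (nat_lit 163923) (nat_lit 15) (.e (nat_lit 450601) (nat_lit 21) (.e (nat_lit 696344) (nat_lit 8) (.e (nat_lit 172106) (nat_lit 10) .nil)))))) (.g (nat_lit 1) (.e (nat_lit 324692) (nat_lit 0) .nil) .nil))))) (.nd (nat_lit 8) (.nd (nat_lit 9) 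
(.lf (nat_lit 563417) (.g (nat_lit 947) (.e (nat_lit 426568) (nat_lit 34) (.e (nat_lit 393252) (nat_lit 18) (.e (nat_lit 164305) (nat_lit 226) (.e (nat_lit 2433) (nat_lit 157) .nil)))) (.g (nat_lit 0) (.e (nat_lit 323437) (nat_lit 0) .nil) .nil))) 
(.lf (nat_lit 563929) (.g (nat_lit 1313) (.e (nat_lit 442112) (nat_lit 2) (.e (nat_lit 16487) (nat_lit 27) (.e (nat_lit 336204) (nat_lit 12) (.e (nat_lit 392960) (nat_lit 24) .nil)))) (.g (nat_lit 0) (.e (nat_lit 324107) (nat_lit 0) .nil) .nil)))) (.nd (nat_lit 9) 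
(.lf (nat_lit 563673) (.g (nat_lit 1370) (.e (nat_lit 433920) (nat_lit 34) (.e (nat_lit 393251) (nat_lit 18) (.e (nat_lit 164332) (nat_lit 230) (.e (nat_lit 163873) (nat_lit 3) (.e (nat_lit 204811) (nat_lit 9) .nil))))) (.g (nat_lit 0) (.e (nat_lit 323724) (nat_lit 0) .nil) .nil))) 
(.lf (nat_lit 564185) (.g (nat_lit 2533) (.e (nat_lit 434212) (nat_lit 18) (.e (nat_lit 6425) (nat_lit 342) (.e (nat_lit 229415) (nat_lit 15) (.e (nat_lit 450563) (nat_lit 0) (.e (nat_lit 6255) (nat_lit 337) (.e (nat_lit 2630) (nat_lit 164) (.e (nat_lit 172110) (nat_lit 10) .nil))))))) (.g (nat_lit 1) (.e (nat_lit 325455) (nat_lit 0) .nil) .nil))))))) 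
(.nd (nat_lit 6) (.nd (nat_lit 7) (.nd (nat_lit 8) (.nd (nat_lit 9) 
(.lf (nat_lit 563257) (.g (nat_lit 3051) (.e (nat_lit 426566) (nat_lit 34) (.e (nat_lit 393294) (nat_lit 26) (.e (nat_lit 475179) (nat_lit 24) (.e (nat_lit 516119) (nat_lit 1) (.e (nat_lit 164327) (nat_lit 230) (.e (nat_lit 163903) (nat_lit 12) .nil)))))) (.g (nat_lit 1) (.e (nat_lit 323240) (nat_lit 0) .nil) .nil))) 
(.lf (nat_lit 563769) (.g (nat_lit 1450) (.e (nat_lit 434180) (nat_lit 0) (.e (nat_lit 1235) (nat_lit 91) (.e (nat_lit 90170) (nat_lit 13) (.e (nat_lit 172113) (nat_lit 10) (.e (nat_lit 434248) (nat_lit 28) (.e (nat_lit 573455) (nat_lit 9) (.e (nat_lit 7936) (nat_lit 33) .nil))))))) (.g (nat_lit 1) (.e (nat_lit 323916) (nat_lit 0) .nil) .nil)))) (.nd (nat_lit 9) 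
(.lf (nat_lit 563513) (.g (nat_lit 2543) (.e (nat_lit 426568) (nat_lit 34) (.e (nat_lit 393271) (nat_lit 23) (.e (nat_lit 426131) (nat_lit 3) (.e (nat_lit 204830) (nat_lit 18) (.e (nat_lit 57661) (nat_lit 152) (.e (nat_lit 2450) (nat_lit 157) (.e (nat_lit 2862) (nat_lit 184) .nil))))))) (.g (nat_lit 1) (.e (nat_lit 323537) (nat_lit 0) .nil) .nil))) 
(.lf (nat_lit 564025) (.g (nat_lit 2754) (.e (nat_lit 442112) (nat_lit 8) (.e (nat_lit 2684) (nat_lit 168) (.e (nat_lit 204846) (nat_lit 24) (.e (nat_lit 319530) (nat_lit 16) (.e (nat_lit 286735) (nat_lit 3) .nil))))) (.g (nat_lit 0) (.e (nat_lit 324313) (nat_lit 0) .nil) .nil))))) (.nd (nat_lit 8) (.nd (nat_lit 9) 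
(.lf (nat_lit 563385) (.g (nat_lit 2851) (.e (nat_lit 426567) (nat_lit 34) (.e (nat_lit 393294) (nat_lit 26) (.e (nat_lit 475179) (nat_lit 24) (.e (nat_lit 516119) (nat_lit 1) (.e (nat_lit 164324) (nat_lit 230) .nil))))) (.g (nat_lit 0) (.e (nat_lit 323396) (nat_lit 0) .nil) .nil))) 
(.lf (nat_lit 563897) (.g (nat_lit 1518) (.e (nat_lit 434181) (nat_lit 0) (.e (nat_lit 1661) (nat_lit 115) (.e (nat_lit 393238) (nat_lit 17) (.e (nat_lit 6966) (nat_lit 377) .nil)))) (.g (nat_lit 0) (.e (nat_lit 324057) (nat_lit 0) .nil) .nil)))) (.nd (nat_lit 9) 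
(.lf (nat_lit 563641) (.g (nat_lit 2599) (.e (nat_lit 426568) (nat_lit 34) (.e (nat_lit 393293) (nat_lit 26) (.e (nat_lit 475179) (nat_lit 24) (.e (nat_lit 516117) (nat_lit 1) (.e (nat_lit 164322) (nat_lit 230) (.e (nat_lit 163902) (nat_lit 12) .nil)))))) (.g (nat_lit 1) (.e (nat_lit 323682) (nat_lit 0) .nil) .nil))) 
(.lf (nat_lit 564153) (.g (nat_lit 3358) (.e (nat_lit 434209) (nat_lit 18) (.e (nat_lit 6428) (nat_lit 342) (.e (nat_lit 229413) (nat_lit 15) (.e (nat_lit 450601) (nat_lit 21) (.e (nat_lit 696344) (nat_lit 8) (.e (nat_lit 172106) (nat_lit 10) .nil)))))) (.g (nat_lit 1) (.e (nat_lit 325374) (nat_lit 0) .nil) .nil)))))) (.nd (nat_lit 7) (.nd (nat_lit 8) (.nd (nat_lit 9) 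
(.lf (nat_lit 563321) (.g (nat_lit 1972) (.e (nat_lit 426567) (nat_lit 34) (.e (nat_lit 393251) (nat_lit 18) (.e (nat_lit 164331) (nat_lit 230) (.e (nat_lit 163873) (nat_lit 3) .nil)))) (.g (nat_lit 0) (.e (nat_lit 323328) (nat_lit 0) .nil) .nil))) 
(.lf (nat_lit 563833) (.g (nat_lit 3147) (.e (nat_lit 434181) (nat_lit 0) (.e (nat_lit 1234) (nat_lit 91) (.e (nat_lit 90170) (nat_lit 13) (.e (nat_lit 172113) (nat_lit 10) (.e (nat_lit 434247) (nat_lit 28) (.e (nat_lit 573457) (nat_lit 9) (.e (nat_lit 7936) (nat_lit 33) .nil))))))) (.g (nat_lit 1) (.e (nat_lit 323991) (nat_lit 0) .nil) .nil)))) (.nd (nat_lit 9) 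
(.lf (nat_lit 563577) (.g (nat_lit 2426) (.e (nat_lit 426568) (nat_lit 34) (.e (nat_lit 393283) (nat_lit 24) (.e (nat_lit 434231) (nat_lit 23) (.e (nat_lit 532490) (nat_lit 0) (.e (nat_lit 1040) (nat_lit 81) .nil))))) (.g (nat_lit 0) (.e (nat_lit 323609) (nat_lit 0) .nil) .nil))) 
(.lf (nat_lit 564089) (.g (nat_lit 2492) (.e (nat_lit 434208) (nat_lit 18) (.e (nat_lit 4527) (nat_lit 265) (.e (nat_lit 57373) (nat_lit 2) (.e (nat_lit 90160) (nat_lit 11) (.e (nat_lit 24665) (nat_lit 14) .nil))))) (.g (nat_lit 0) (.e (nat_lit 324942) (nat_lit 0) .nil) .nil))))) (.nd (nat_lit 8) (.nd (nat_lit 9) 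
(.lf (nat_lit 563449) (.g (nat_lit 341) (.e (nat_lit 426568) (nat_lit 34) (.e (nat_lit 393253) (nat_lit 18) (.e (nat_lit 164326) (nat_lit 230) .nil))) (.g (nat_lit 0) (.e (nat_lit 323470) (nat_lit 0) .nil) .nil))) 
(.lf (nat_lit 563961) (.g (nat_lit 1653) (.e (nat_lit 442112) (nat_lit 5) (.e (nat_lit 73729) (nat_lit 0) (.e (nat_lit 7263) (nat_lit 384) (.e (nat_lit 57424) (nat_lit 14) (.e (nat_lit 360192) (nat_lit 12) .nil))))) (.g (nat_lit 0) (.e (nat_lit 324183) (nat_lit 0) .nil) .nil)))) (.nd (nat_lit 9) 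
(.lf (nat_lit 563705) (.g (nat_lit 888) (.e (nat_lit 426569) (nat_lit 35) (.e (nat_lit 401437) (nat_lit 9) (.e (nat_lit 426427) (nat_lit 17) .nil))) (.g (nat_lit 0) (.e (nat_lit 323757) (nat_lit 0) .nil) .nil))) 
(.lf (nat_lit 564217) (.g (nat_lit 1602) (.e (nat_lit 442112) (nat_lit 18) (.e (nat_lit 5937) (nat_lit 322) (.e (nat_lit 57377) (nat_lit 3) (.e (nat_lit 98365) (nat_lit 26) (.e (nat_lit 426187) (nat_lit 9) .nil))))) (.g (nat_lit 0) (.e (nat_lit 325530) (nat_lit 0) .nil) .nil)))))))))) 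
(.nd (nat_lit 3) (.nd (nat_lit 4) (.nd (nat_lit 5) (.nd (nat_lit 6) (.nd (nat_lit 7) 
(.nd (nat_lit 8) (.nd (nat_lit 9) 
(.lf (nat_lit 563205) (.g (nat_lit 2194) (.e (nat_lit 426566) (nat_lit 34) (.e (nat_lit 393293) (nat_lit 26) (.e (nat_lit 475179) (nat_lit 24) (.e (nat_lit 516120) (nat_lit 1) (.e (nat_lit 164329) (nat_lit 230) (.e (nat_lit 163902) (nat_lit 12) .nil)))))) (.g (nat_lit 1) (.e (nat_lit 323187) (nat_lit 0) .nil) .nil))) 
(.lf (nat_lit 563717) (.g (nat_lit 2547) (.e (nat_lit 426569) (nat_lit 35) (.e (nat_lit 401454) (nat_lit 12) (.e (nat_lit 475179) (nat_lit 24) (.e (nat_lit 516120) (nat_lit 1) (.e (nat_lit 164330) (nat_lit 230) .nil))))) (.g (nat_lit 0) (.e (nat_lit 323776) (nat_lit 0) .nil) .nil)))) (.nd (nat_lit 9) 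
(.lf (nat_lit 563461) (.g (nat_lit 2885) (.e (nat_lit 426568) (nat_lit 34) (.e (nat_lit 393253) (nat_lit 18) (.e (nat_lit 164329) (nat_lit 230) (.e (nat_lit 163867) (nat_lit 2) (.e (nat_lit 196656) (nat_lit 11) (.e (nat_lit 16433) (nat_lit 9) .nil)))))) (.g (nat_lit 1) (.e (nat_lit 323482) (nat_lit 0) .nil) .nil))) 
(.lf (nat_lit 563973) (.g (nat_lit 935) (.e (nat_lit 442112) (nat_lit 5) (.e (nat_lit 73731) (nat_lit 0) (.e (nat_lit 7261) (nat_lit 384) (.e (nat_lit 57424) (nat_lit 14) (.e (nat_lit 360192) (nat_lit 12) .nil))))) (.g (nat_lit 0) (.e (nat_lit 324195) (nat_lit 0) .nil) .nil))))) (.nd (nat_lit 8) (.nd (nat_lit 9) 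
(.lf (nat_lit 563333) (.g (nat_lit 610) (.e (nat_lit 426567) (nat_lit 34) (.e (nat_lit 393252) (nat_lit 18) (.e (nat_lit 164332) (nat_lit 230) .nil))) (.g (nat_lit 0) (.e (nat_lit 323342) (nat_lit 0) .nil) .nil))) 
(.lf (nat_lit 563845) (.g (nat_lit 1674) (.e (nat_lit 434181) (nat_lit 0) (.e (nat_lit 1235) (nat_lit 91) (.e (nat_lit 90170) (nat_lit 13) (.e (nat_lit 172113) (nat_lit 10) (.e (nat_lit 434248) (nat_lit 28) (.e (nat_lit 573455) (nat_lit 9) (.e (nat_lit 7936) (nat_lit 33) .nil))))))) (.g (nat_lit 1) (.e (nat_lit 324003) (nat_lit 0) .nil) .nil)))) (.nd (nat_lit 9) 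
(.lf (nat_lit 563589) (.g (nat_lit 2415) (.e (nat_lit 426568) (nat_lit 34) (.e (nat_lit 393283) (nat_lit 24) (.e (nat_lit 434231) (nat_lit 23) (.e (nat_lit 532500) (nat_lit 1) (.e (nat_lit 57690) (nat_lit 156) (.e (nat_lit 163907) (nat_lit 12) .nil)))))) (.g (nat_lit 1) (.e (nat_lit 323621) (nat_lit 0) .nil) .nil))) 
(.lf (nat_lit 564101) (.g (nat_lit 1423) (.e (nat_lit 434208) (nat_lit 18) (.e (nat_lit 6420) (nat_lit 341) (.e (nat_lit 163902) (nat_lit 12) (.e (nat_lit 426233) (nat_lit 9) .nil)))) (.g (nat_lit 0) (.e (nat_lit 325012) (nat_lit 0) .nil) .nil)))))) (.nd (nat_lit 7) (.nd (nat_lit 8) (.nd (nat_lit 9) 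
(.lf (nat_lit 563269) (.g (nat_lit 1635) (.e (nat_lit 426566) (nat_lit 34) (.e (nat_lit 393296) (nat_lit 26) (.e (nat_lit 475175) (nat_lit 24) (.e (nat_lit 516119) (nat_lit 1) (.e (nat_lit 164332) (nat_lit 230) .nil))))) (.g (nat_lit 0) (.e (nat_lit 323253) (nat_lit 0) .nil) .nil))) 
(.lf (nat_lit 563781) (.g (nat_lit 3482) (.e (nat_lit 434180) (nat_lit 0) (.e (nat_lit 1253) (nat_lit 92) (.e (nat_lit 98373) (nat_lit 29) (.e (nat_lit 450587) (nat_lit 10) (.e (nat_lit 573456) (nat_lit 9) (.e (nat_lit 7936) (nat_lit 33) .nil)))))) (.g (nat_lit 1) (.e (nat_lit 323928) (nat_lit 0) .nil) .nil)))) (.nd (nat_lit 9) 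
(.lf (nat_lit 563525) (.g (nat_lit 4300) (.e (nat_lit 426568) (nat_lit 34) (.e (nat_lit 393271) (nat_lit 23) (.e (nat_lit 426131) (nat_lit 3) (.e (nat_lit 204830) (nat_lit 18) (.e (nat_lit 57691) (nat_lit 156) (.e (nat_lit 163907) (nat_lit 12) .nil)))))) (.g (nat_lit 1) (.e (nat_lit 323549) (nat_lit 0) .nil) .nil))) 
(.lf (nat_lit 564037) (.g (nat_lit 415) (.e (nat_lit 434192) (nat_lit 13) (.e (nat_lit 2789) (nat_lit 179) (.e (nat_lit 294973) (nat_lit 28) .nil))) (.g (nat_lit 0) (.e (nat_lit 324462) (nat_lit 0) .nil) .nil))))) (.nd (nat_lit 8) (.nd (nat_lit 9) 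
(.lf (nat_lit 563397) (.g (nat_lit 3219) (.e (nat_lit 426568) (nat_lit 34) (.e (nat_lit 393251) (nat_lit 18) (.e (nat_lit 164327) (nat_lit 230) (.e (nat_lit 163868) (nat_lit 2) (.e (nat_lit 196656) (nat_lit 11) (.e (nat_lit 16431) (nat_lit 9) .nil)))))) (.g (nat_lit 1) (.e (nat_lit 323417) (nat_lit 0) .nil) .nil))) 
(.lf (nat_lit 563909) (.g (nat_lit 1445) (.e (nat_lit 442112) (nat_lit 0) (.e (nat_lit 1427) (nat_lit 108) (.e (nat_lit 336421) (nat_lit 28) (.e (nat_lit 434186) (nat_lit 13) .nil)))) (.g (nat_lit 0) (.e (nat_lit 324080) (nat_lit 0) .nil) .nil)))) (.nd (nat_lit 9) 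
(.lf (nat_lit 563653) (.g (nat_lit 2559) (.e (nat_lit 426568) (nat_lit 34) (.e (nat_lit 393294) (nat_lit 26) (.e (nat_lit 475177) (nat_lit 24) (.e (nat_lit 516119) (nat_lit 1) (.e (nat_lit 164332) (nat_lit 230) (.e (nat_lit 163905) (nat_lit 12) .nil)))))) (.g (nat_lit 1) (.e (nat_lit 323695) (nat_lit 0) .nil) .nil))) 
(.lf (nat_lit 564165) (.g (nat_lit 1545) (.e (nat_lit 434212) (nat_lit 18) (.e (nat_lit 5547) (nat_lit 306) (.e (nat_lit 2638) (nat_lit 165) (.e (nat_lit 180277) (nat_lit 32) .nil)))) (.g (nat_lit 0) (.e (nat_lit 325432) (nat_lit 0) .nil) .nil))))))) (.nd (nat_lit 6) (.nd (nat_lit 7) (.nd (nat_lit 8) (.nd (nat_lit 9) 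
(.lf (nat_lit 563237) (.g (nat_lit 2993) (.e (nat_lit 426566) (nat_lit 34) (.e (nat_lit 393294) (nat_lit 26) (.e (nat_lit 475177) (nat_lit 24) (.e (nat_lit 516118) (nat_lit 1) (.e (nat_lit 164325) (nat_lit 230) (.e (nat_lit 163906) (nat_lit 12) .nil)))))) (.g (nat_lit 1) (.e (nat_lit 323219) (nat_lit 0) .nil) .nil))) 
(.lf (nat_lit 563749) (.g (nat_lit 2102) (.e (nat_lit 434179) (nat_lit 0) (.e (nat_lit 1516) (nat_lit 108) (.e (nat_lit 336420) (nat_lit 28) (.e (nat_lit 434180) (nat_lit 0) (.e (nat_lit 1427) (nat_lit 108) (.e (nat_lit 336421) (nat_lit 28) .nil)))))) (.g (nat_lit 1) (.e (nat_lit 323877) (nat_lit 0) .nil) .nil)))) (.nd (nat_lit 9) 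
(.lf (nat_lit 563493) (.g (nat_lit 1270) (.e (nat_lit 426568) (nat_lit 34) (.e (nat_lit 393268) (nat_lit 23) (.e (nat_lit 426428) (nat_lit 17) (.e (nat_lit 90130) (nat_lit 9) .nil)))) (.g (nat_lit 0) (.e (nat_lit 323516) (nat_lit 0) .nil) .nil))) 
(.lf (nat_lit 564005) (.g (nat_lit 1376) (.e (nat_lit 442112) (nat_lit 7) (.e (nat_lit 131140) (nat_lit 27) (.e (nat_lit 426306) (nat_lit 12) (.e (nat_lit 475209) (nat_lit 41) (.e (nat_lit 712747) (nat_lit 28) .nil))))) (.g (nat_lit 0) (.e (nat_lit 324268) (nat_lit 0) .nil) .nil))))) (.nd (nat_lit 8) (.nd (nat_lit 9) 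
(.lf (nat_lit 563365) (.g (nat_lit 1615) (.e (nat_lit 426567) (nat_lit 34) (.e (nat_lit 393291) (nat_lit 26) (.e (nat_lit 475177) (nat_lit 24) (.e (nat_lit 516118) (nat_lit 1) .nil)))) (.g (nat_lit 0) (.e (nat_lit 323376) (nat_lit 0) .nil) .nil))) 
(.lf (nat_lit 563877) (.g (nat_lit 2300) (.e (nat_lit 434181) (nat_lit 0) (.e (nat_lit 1427) (nat_lit 108) (.e (nat_lit 336421) (nat_lit 28) (.e (nat_lit 434198) (nat_lit 17) (.e (nat_lit 229646) (nat_lit 232) (.e (nat_lit 447) (nat_lit 33) .nil)))))) (.g (nat_lit 1) (.e (nat_lit 324035) (nat_lit 0) .nil) .nil)))) (.nd (nat_lit 9) 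
(.lf (nat_lit 563621) (.g (nat_lit 2928) (.e (nat_lit 426568) (nat_lit 34) (.e (nat_lit 393287) (nat_lit 25) (.e (nat_lit 458789) (nat_lit 23) (.e (nat_lit 532502) (nat_lit 1) (.e (nat_lit 57691) (nat_lit 156) (.e (nat_lit 163905) (nat_lit 12) .nil)))))) (.g (nat_lit 1) (.e (nat_lit 323662) (nat_lit 0) .nil) .nil))) 
(.lf (nat_lit 564133) (.g (nat_lit 4610) (.e (nat_lit 434209) (nat_lit 18) (.e (nat_lit 5547) (nat_lit 306) (.e (nat_lit 2611) (nat_lit 163) (.e (nat_lit 163977) (nat_lit 30) (.e (nat_lit 573482) (nat_lit 13) (.e (nat_lit 65619) (nat_lit 10) (.e (nat_lit 344117) (nat_lit 21) (.e (nat_lit 516160) (nat_lit 10) .nil)))))))) (.g (nat_lit 1) (.e (nat_lit 325212) (nat_lit 0) .nil) .nil)))))) 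
(.nd (nat_lit 7) (.nd (nat_lit 8) (.nd (nat_lit 9) 
(.lf (nat_lit 563301) (.g (nat_lit 1950) (.e (nat_lit 426566) (nat_lit 34) (.e (nat_lit 393296) (nat_lit 26) (.e (nat_lit 475178) (nat_lit 24) (.e (nat_lit 516120) (nat_lit 1) (.e (nat_lit 164329) (nat_lit 230) (.e (nat_lit 171776) (nat_lit 12) .nil)))))) (.g (nat_lit 1) (.e (nat_lit 323285) (nat_lit 0) .nil) .nil))) 
(.lf (nat_lit 563813) (.g (nat_lit 1091) (.e (nat_lit 434180) (nat_lit 0) (.e (nat_lit 1428) (nat_lit 108) (.e (nat_lit 336421) (nat_lit 28) (.e (nat_lit 434190) (nat_lit 13) .nil)))) (.g (nat_lit 0) (.e (nat_lit 323961) (nat_lit 0) .nil) .nil)))) (.nd (nat_lit 9) 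
(.lf (nat_lit 563557) (.g (nat_lit 1888) (.e (nat_lit 426568) (nat_lit 34) (.e (nat_lit 393282) (nat_lit 24) (.e (nat_lit 434231) (nat_lit 23) (.e (nat_lit 532490) (nat_lit 0) (.e (nat_lit 1040) (nat_lit 81) .nil))))) (.g (nat_lit 0) (.e (nat_lit 323587) (nat_lit 0) .nil) .nil))) 
(.lf (nat_lit 564069) (.g (nat_lit 2132) (.e (nat_lit 434203) (nat_lit 18) (.e (nat_lit 6252) (nat_lit 337) (.e (nat_lit 2651) (nat_lit 166) (.e (nat_lit 188440) (nat_lit 20) (.e (nat_lit 3469) (nat_lit 217) .nil))))) (.g (nat_lit 0) (.e (nat_lit 324750) (nat_lit 0) .nil) .nil))))) (.nd (nat_lit 8) (.nd (nat_lit 9) 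
(.lf (nat_lit 563429) (.g (nat_lit 2373) (.e (nat_lit 426568) (nat_lit 34) (.e (nat_lit 393252) (nat_lit 18) (.e (nat_lit 164398) (nat_lit 256) (.e (nat_lit 57377) (nat_lit 3) (.e (nat_lit 98365) (nat_lit 26) (.e (nat_lit 426187) (nat_lit 9) .nil)))))) (.g (nat_lit 1) (.e (nat_lit 323449) (nat_lit 0) .nil) .nil))) 
(.lf (nat_lit 563941) (.g (nat_lit 1525) (.e (nat_lit 442112) (nat_lit 4) (.e (nat_lit 65653) (nat_lit 27) (.e (nat_lit 426012) (nat_lit 0) (.e (nat_lit 7589) (nat_lit 406) (.e (nat_lit 73472) (nat_lit 28) .nil))))) (.g (nat_lit 0) (.e (nat_lit 324152) (nat_lit 0) .nil) .nil)))) (.nd (nat_lit 9) 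
(.lf (nat_lit 563685) (.g (nat_lit 1024) (.e (nat_lit 433920) (nat_lit 34) (.e (nat_lit 393253) (nat_lit 18) (.e (nat_lit 164330) (nat_lit 230) (.e (nat_lit 163874) (nat_lit 3) .nil)))) (.g (nat_lit 0) (.e (nat_lit 323736) (nat_lit 0) .nil) .nil))) 
(.lf (nat_lit 564197) (.g (nat_lit 4065) (.e (nat_lit 434212) (nat_lit 18) (.e (nat_lit 6425) (nat_lit 342) (.e (nat_lit 229415) (nat_lit 15) (.e (nat_lit 450604) (nat_lit 22) (.e (nat_lit 704737) (nat_lit 11) (.e (nat_lit 16447) (nat_lit 10) .nil)))))) (.g (nat_lit 1) (.e (nat_lit 325468) (nat_lit 0) .nil) .nil)))))))) 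
(.nd (nat_lit 5) (.nd (nat_lit 6) (.nd (nat_lit 7) (.nd (nat_lit 8) (.nd (nat_lit 9) 
(.lf (nat_lit 563221) (.g (nat_lit 2916) (.e (nat_lit 426566) (nat_lit 34) (.e (nat_lit 393294) (nat_lit 26) (.e (nat_lit 475177) (nat_lit 24) (.e (nat_lit 516115) (nat_lit 1) (.e (nat_lit 164322) (nat_lit 230) .nil))))) (.g (nat_lit 0) (.e (nat_lit 323203) (nat_lit 0) .nil) .nil))) 
(.lf (nat_lit 563733) (.g (nat_lit 3155) (.e (nat_lit 433920) (nat_lit 35) (.e (nat_lit 401454) (nat_lit 12) (.e (nat_lit 475179) (nat_lit 24) (.e (nat_lit 516115) (nat_lit 1) (.e (nat_lit 164258) (nat_lit 215) .nil))))) (.g (nat_lit 0) (.e (nat_lit 323803) (nat_lit 0) .nil) .nil)))) (.nd (nat_lit 9) 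
(.lf (nat_lit 563477) (.g (nat_lit 1057) (.e (nat_lit 426568) (nat_lit 34) (.e (nat_lit 393259) (nat_lit 21) (.e (nat_lit 409617) (nat_lit 10) (.e (nat_lit 604) (nat_lit 45) .nil)))) (.g (nat_lit 0) (.e (nat_lit 323498) (nat_lit 0) .nil) .nil))) 
(.lf (nat_lit 563989) (.g (nat_lit 1575) (.e (nat_lit 442112) (nat_lit 5) (.e (nat_lit 73775) (nat_lit 26) (.e (nat_lit 778465) (nat_lit 11) (.e (nat_lit 24631) (nat_lit 9) (.e (nat_lit 343808) (nat_lit 28) .nil))))) (.g (nat_lit 0) (.e (nat_lit 324230) (nat_lit 0) .nil) .nil))))) (.nd (nat_lit 8) (.nd (nat_lit 9) 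
(.lf (nat_lit 563349) (.g (nat_lit 1934) (.e (nat_lit 426567) (nat_lit 34) (.e (nat_lit 393260) (nat_lit 21) (.e (nat_lit 409617) (nat_lit 10) (.e (nat_lit 604) (nat_lit 45) (.e (nat_lit 532515) (nat_lit 3) .nil))))) (.g (nat_lit 0) (.e (nat_lit 323359) (nat_lit 0) .nil) .nil))) 
(.lf (nat_lit 563861) (.g (nat_lit 4545) (.e (nat_lit 434181) (nat_lit 0) (.e (nat_lit 1253) (nat_lit 92) (.e (nat_lit 98373) (nat_lit 29) (.e (nat_lit 450588) (nat_lit 10) (.e (nat_lit 573454) (nat_lit 9) .nil))))) (.g (nat_lit 0) (.e (nat_lit 324019) (nat_lit 0) .nil) .nil)))) (.nd (nat_lit 9) 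
(.lf (nat_lit 563605) (.g (nat_lit 402) (.e (nat_lit 426568) (nat_lit 34) (.e (nat_lit 393284) (nat_lit 24) (.e (nat_lit 434247) (nat_lit 28) .nil))) (.g (nat_lit 0) (.e (nat_lit 323640) (nat_lit 0) .nil) .nil))) 
(.lf (nat_lit 564117) (.g (nat_lit 2461) (.e (nat_lit 434209) (nat_lit 18) (.e (nat_lit 5224) (nat_lit 296) (.e (nat_lit 163871) (nat_lit 2) (.e (nat_lit 196654) (nat_lit 11) (.e (nat_lit 16466) (nat_lit 13) (.e (nat_lit 491264) (nat_lit 10) .nil)))))) (.g (nat_lit 1) (.e (nat_lit 325111) (nat_lit 0) .nil) .nil)))))) (.nd (nat_lit 7) (.nd (nat_lit 8) (.nd (nat_lit 9) 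
(.lf (nat_lit 563285) (.g (nat_lit 2238) (.e (nat_lit 426566) (nat_lit 34) (.e (nat_lit 393296) (nat_lit 26) (.e (nat_lit 475177) (nat_lit 24) (.e (nat_lit 516119) (nat_lit 1) (.e (nat_lit 164332) (nat_lit 230) (.e (nat_lit 163905) (nat_lit 12) .nil)))))) (.g (nat_lit 1) (.e (nat_lit 323269) (nat_lit 0) .nil) .nil))) 
(.lf (nat_lit 563797) (.g (nat_lit 1032) (.e (nat_lit 434180) (nat_lit 0) (.e (nat_lit 1427) (nat_lit 108) (.e (nat_lit 336421) (nat_lit 28) (.e (nat_lit 434179) (nat_lit 0) .nil)))) (.g (nat_lit 0) (.e (nat_lit 323944) (nat_lit 0) .nil) .nil)))) (.nd (nat_lit 9) 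
(.lf (nat_lit 563541) (.g (nat_lit 2208) (.e (nat_lit 426568) (nat_lit 34) (.e (nat_lit 393279) (nat_lit 23) (.e (nat_lit 426433) (nat_lit 18) (.e (nat_lit 98334) (nat_lit 18) (.e (nat_lit 164332) (nat_lit 230) (.e (nat_lit 163905) (nat_lit 12) .nil)))))) (.g (nat_lit 1) (.e (nat_lit 323569) (nat_lit 0) .nil) .nil))) 
(.lf (nat_lit 564053) (.g (nat_lit 4216) (.e (nat_lit 434202) (nat_lit 18) (.e (nat_lit 6255) (nat_lit 337) (.e (nat_lit 2651) (nat_lit 166) (.e (nat_lit 188439) (nat_lit 20) (.e (nat_lit 3469) (nat_lit 217) (.e (nat_lit 696344) (nat_lit 8) (.e (nat_lit 172106) (nat_lit 10) .nil))))))) (.g (nat_lit 1) (.e (nat_lit 324657) (nat_lit 0) .nil) .nil))))) (.nd (nat_lit 8) (.nd (nat_lit 9) 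
(.lf (nat_lit 563413) (.g (nat_lit 810) (.e (nat_lit 426568) (nat_lit 34) (.e (nat_lit 393251) (nat_lit 18) (.e (nat_lit 164402) (nat_lit 256) .nil))) (.g (nat_lit 0) (.e (nat_lit 323433) (nat_lit 0) .nil) .nil))) 
(.lf (nat_lit 563925) (.g (nat_lit 1100) (.e (nat_lit 442112) (nat_lit 0) (.e (nat_lit 1661) (nat_lit 115) (.e (nat_lit 393238) (nat_lit 17) (.e (nat_lit 6989) (nat_lit 377) .nil)))) (.g (nat_lit 0) (.e (nat_lit 324096) (nat_lit 0) .nil) .nil)))) (.nd (nat_lit 9) 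
(.lf (nat_lit 563669) (.g (nat_lit 1456) (.e (nat_lit 433920) (nat_lit 34) (.e (nat_lit 393251) (nat_lit 18) (.e (nat_lit 164325) (nat_lit 230) (.e (nat_lit 163875) (nat_lit 3) (.e (nat_lit 204811) (nat_lit 9) .nil))))) (.g (nat_lit 0) (.e (nat_lit 323720) (nat_lit 0) .nil) .nil))) 
(.lf (nat_lit 564181) (.g (nat_lit 744) (.e (nat_lit 434212) (nat_lit 18) (.e (nat_lit 6425) (nat_lit 342) (.e (nat_lit 229415) (nat_lit 15) (.e (nat_lit 450563) (nat_lit 0) .nil)))) (.g (nat_lit 0) (.e (nat_lit 325451) (nat_lit 0) .nil) .nil))))))) (.nd (nat_lit 6) (.nd (nat_lit 7) (.nd (nat_lit 8) (.nd (nat_lit 9) 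
(.lf (nat_lit 563253) (.g (nat_lit 2975) (.e (nat_lit 426566) (nat_lit 34) (.e (nat_lit 393294) (nat_lit 26) (.e (nat_lit 475179) (nat_lit 24) (.e (nat_lit 516117) (nat_lit 1) (.e (nat_lit 164331) (nat_lit 230) (.e (nat_lit 163902) (nat_lit 12) .nil)))))) (.g (nat_lit 1) (.e (nat_lit 323236) (nat_lit 0) .nil) .nil))) 
(.lf (nat_lit 563765) (.g (nat_lit 3092) (.e (nat_lit 434180) (nat_lit 0) (.e (nat_lit 1235) (nat_lit 91) (.e (nat_lit 90170) (nat_lit 13) (.e (nat_lit 172113) (nat_lit 10) (.e (nat_lit 434247) (nat_lit 28) (.e (nat_lit 573456) (nat_lit 9) (.e (nat_lit 7936) (nat_lit 33) .nil))))))) (.g (nat_lit 1) (.e (nat_lit 323912) (nat_lit 0) .nil) .nil)))) (.nd (nat_lit 9) 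
(.lf (nat_lit 563509) (.g (nat_lit 2121) (.e (nat_lit 426568) (nat_lit 34) (.e (nat_lit 393271) (nat_lit 23) (.e (nat_lit 426131) (nat_lit 3) (.e (nat_lit 204829) (nat_lit 18) (.e (nat_lit 57688) (nat_lit 156) (.e (nat_lit 171776) (nat_lit 12) .nil)))))) (.g (nat_lit 1) (.e (nat_lit 323533) (nat_lit 0) .nil) .nil))) 
(.lf (nat_lit 564021) (.g (nat_lit 1426) (.e (nat_lit 442112) (nat_lit 8) (.e (nat_lit 2679) (nat_lit 168) (.e (nat_lit 204846) (nat_lit 24) (.e (nat_lit 319504) (nat_lit 10) .nil)))) (.g (nat_lit 0) (.e (nat_lit 324304) (nat_lit 0) .nil) .nil))))) (.nd (nat_lit 8) (.nd (nat_lit 9) 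
(.lf (nat_lit 563381) (.g (nat_lit 2169) (.e (nat_lit 426567) (nat_lit 34) (.e (nat_lit 393294) (nat_lit 26) (.e (nat_lit 475177) (nat_lit 24) (.e (nat_lit 516120) (nat_lit 1) .nil)))) (.g (nat_lit 0) (.e (nat_lit 323392) (nat_lit 0) .nil) .nil))) 
(.lf (nat_lit 563893) (.g (nat_lit 1337) (.e (nat_lit 434181) (nat_lit 0) (.e (nat_lit 1660) (nat_lit 115) (.e (nat_lit 393259) (nat_lit 21) (.e (nat_lit 409641) (nat_lit 17) (.e (nat_lit 294973) (nat_lit 28) .nil))))) (.g (nat_lit 0) (.e (nat_lit 324053) (nat_lit 0) .nil) .nil)))) (.nd (nat_lit 9) 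
(.lf (nat_lit 563637) (.g (nat_lit 2233) (.e (nat_lit 426568) (nat_lit 34) (.e (nat_lit 393292) (nat_lit 26) (.e (nat_lit 475179) (nat_lit 24) (.e (nat_lit 516119) (nat_lit 1) (.e (nat_lit 164327) (nat_lit 230) .nil))))) (.g (nat_lit 0) (.e (nat_lit 323678) (nat_lit 0) .nil) .nil))) 
(.lf (nat_lit 564149) (.g (nat_lit 416) (.e (nat_lit 434209) (nat_lit 18) (.e (nat_lit 6425) (nat_lit 342) (.e (nat_lit 229402) (nat_lit 12) .nil))) (.g (nat_lit 0) (.e (nat_lit 325325) (nat_lit 0) .nil) .nil)))))) (.nd (nat_lit 7) (.nd (nat_lit 8) (.nd (nat_lit 9) 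
(.lf (nat_lit 563317) (.g (nat_lit 1815) (.e (nat_lit 426567) (nat_lit 34) (.e (nat_lit 393251) (nat_lit 18) (.e (nat_lit 164325) (nat_lit 230) (.e (nat_lit 163874) (nat_lit 3) (.e (nat_lit 204813) (nat_lit 9) .nil))))) (.g (nat_lit 0) (.e (nat_lit 323323) (nat_lit 0) .nil) .nil))) 
(.lf (nat_lit 563829) (.g (nat_lit 1887) (.e (nat_lit 434181) (nat_lit 0) (.e (nat_lit 1234) (nat_lit 91) (.e (nat_lit 90170) (nat_lit 13) (.e (nat_lit 172113) (nat_lit 10) (.e (nat_lit 434245) (nat_lit 28) (.e (nat_lit 573448) (nat_lit 9) (.e (nat_lit 442) (nat_lit 33) .nil))))))) (.g (nat_lit 1) (.e (nat_lit 323987) (nat_lit 0) .nil) .nil)))) (.nd (nat_lit 9) 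
(.lf (nat_lit 563573) (.g (nat_lit 1541) (.e (nat_lit 426568) (nat_lit 34) (.e (nat_lit 393282) (nat_lit 24) (.e (nat_lit 434233) (nat_lit 23) (.e (nat_lit 532503) (nat_lit 1) (.e (nat_lit 57685) (nat_lit 156) .nil))))) (.g (nat_lit 0) (.e (nat_lit 323603) (nat_lit 0) .nil) .nil))) 
(.lf (nat_lit 564085) (.g (nat_lit 1209) (.e (nat_lit 434207) (nat_lit 18) (.e (nat_lit 6416) (nat_lit 341) (.e (nat_lit 163902) (nat_lit 12) (.e (nat_lit 426438) (nat_lit 18) .nil)))) (.g (nat_lit 0) (.e (nat_lit 324885) (nat_lit 0) .nil) .nil))))) (.nd (nat_lit 8) (.nd (nat_lit 9) 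
(.lf (nat_lit 563445) (.g (nat_lit 3565) (.e (nat_lit 426568) (nat_lit 34) (.e (nat_lit 393253) (nat_lit 18) (.e (nat_lit 164324) (nat_lit 230) (.e (nat_lit 163875) (nat_lit 3) (.e (nat_lit 204813) (nat_lit 9) (.e (nat_lit 426188) (nat_lit 9) .nil)))))) (.g (nat_lit 1) (.e (nat_lit 323466) (nat_lit 0) .nil) .nil))) 
(.lf (nat_lit 563957) (.g (nat_lit 1447) (.e (nat_lit 442112) (nat_lit 5) (.e (nat_lit 73729) (nat_lit 0) (.e (nat_lit 7261) (nat_lit 384) (.e (nat_lit 57424) (nat_lit 14) (.e (nat_lit 360192) (nat_lit 12) .nil))))) (.g (nat_lit 0) (.e (nat_lit 324179) (nat_lit 0) .nil) .nil)))) (.nd (nat_lit 9) 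
(.lf (nat_lit 563701) (.g (nat_lit 1040) (.e (nat_lit 433920) (nat_lit 34) (.e (nat_lit 393296) (nat_lit 26) (.e (nat_lit 475178) (nat_lit 24) (.e (nat_lit 516117) (nat_lit 1) (.e (nat_lit 164329) (nat_lit 230) .nil))))) (.g (nat_lit 0) (.e (nat_lit 323752) (nat_lit 0) .nil) .nil))) 
(.lf (nat_lit 564213) (.g (nat_lit 2191) (.e (nat_lit 434216) (nat_lit 18) (.e (nat_lit 5948) (nat_lit 322) (.e (nat_lit 57377) (nat_lit 3) (.e (nat_lit 98365) (nat_lit 26) (.e (nat_lit 426327) (nat_lit 13) (.e (nat_lit 491264) (nat_lit 10) .nil)))))) (.g (nat_lit 1) (.e (nat_lit 325516) (nat_lit 0) .nil) .nil))))))))) 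
(.nd (nat_lit 4) (.nd (nat_lit 5) (.nd (nat_lit 6) (.nd (nat_lit 7) (.nd (nat_lit 8) 
(.nd (nat_lit 9) 
(.lf (nat_lit 563213) (.g (nat_lit 2843) (.e (nat_lit 426566) (nat_lit 34) (.e (nat_lit 393294) (nat_lit 26) (.e (nat_lit 475176) (nat_lit 24) (.e (nat_lit 516117) (nat_lit 1) (.e (nat_lit 164329) (nat_lit 230) (.e (nat_lit 163904) (nat_lit 12) .nil)))))) (.g (nat_lit 1) (.e (nat_lit 323195) (nat_lit 0) .nil) .nil))) 
(.lf (nat_lit 563725) (.g (nat_lit 444) (.e (nat_lit 426573) (nat_lit 35) (.e (nat_lit 401434) (nat_lit 9) (.e (nat_lit 426125) (nat_lit 2) .nil))) (.g (nat_lit 0) (.e (nat_lit 323791) (nat_lit 0) .nil) .nil)))) (.nd (nat_lit 9) 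
(.lf (nat_lit 563469) (.g (nat_lit 1863) (.e (nat_lit 426568) (nat_lit 34) (.e (nat_lit 393253) (nat_lit 18) (.e (nat_lit 164332) (nat_lit 230) (.e (nat_lit 163874) (nat_lit 3) (.e (nat_lit 204809) (nat_lit 9) .nil))))) (.g (nat_lit 0) (.e (nat_lit 323490) (nat_lit 0) .nil) .nil))) 
(.lf (nat_lit 563981) (.g (nat_lit 1503) (.e (nat_lit 442112) (nat_lit 5) (.e (nat_lit 73731) (nat_lit 0) (.e (nat_lit 7266) (nat_lit 384) (.e (nat_lit 57436) (nat_lit 17) (.e (nat_lit 384768) (nat_lit 12) .nil))))) (.g (nat_lit 0) (.e (nat_lit 324204) (nat_lit 0) .nil) .nil))))) (.nd (nat_lit 8) (.nd (nat_lit 9) 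
(.lf (nat_lit 563341) (.g (nat_lit 2089) (.e (nat_lit 426567) (nat_lit 34) (.e (nat_lit 393253) (nat_lit 18) (.e (nat_lit 164327) (nat_lit 230) (.e (nat_lit 163873) (nat_lit 3) .nil)))) (.g (nat_lit 0) (.e (nat_lit 323350) (nat_lit 0) .nil) .nil))) 
(.lf (nat_lit 563853) (.g (nat_lit 2776) (.e (nat_lit 434181) (nat_lit 0) (.e (nat_lit 1253) (nat_lit 92) (.e (nat_lit 98373) (nat_lit 29) (.e (nat_lit 450587) (nat_lit 10) (.e (nat_lit 573452) (nat_lit 9) (.e (nat_lit 7936) (nat_lit 33) .nil)))))) (.g (nat_lit 1) (.e (nat_lit 324011) (nat_lit 0) .nil) .nil)))) (.nd (nat_lit 9) 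
(.lf (nat_lit 563597) (.g (nat_lit 1137) (.e (nat_lit 426568) (nat_lit 34) (.e (nat_lit 393283) (nat_lit 24) (.e (nat_lit 434244) (nat_lit 28) (.e (nat_lit 573474) (nat_lit 12) .nil)))) (.g (nat_lit 0) (.e (nat_lit 323630) (nat_lit 0) .nil) .nil))) 
(.lf (nat_lit 564109) (.g (nat_lit 2407) (.e (nat_lit 434209) (nat_lit 18) (.e (nat_lit 5223) (nat_lit 296) (.e (nat_lit 163868) (nat_lit 2) (.e (nat_lit 196656) (nat_lit 11) (.e (nat_lit 16465) (nat_lit 13) .nil))))) (.g (nat_lit 0) (.e (nat_lit 325072) (nat_lit 0) .nil) .nil)))))) (.nd (nat_lit 7) (.nd (nat_lit 8) (.nd (nat_lit 9) 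
(.lf (nat_lit 563277) (.g (nat_lit 2082) (.e (nat_lit 426566) (nat_lit 34) (.e (nat_lit 393296) (nat_lit 26) (.e (nat_lit 475176) (nat_lit 24) (.e (nat_lit 516119) (nat_lit 1) (.e (nat_lit 164327) (nat_lit 230) (.e (nat_lit 163907) (nat_lit 12) .nil)))))) (.g (nat_lit 1) (.e (nat_lit 323261) (nat_lit 0) .nil) .nil))) 
(.lf (nat_lit 563789) (.g (nat_lit 337) (.e (nat_lit 434180) (nat_lit 0) (.e (nat_lit 1425) (nat_lit 108) (.e (nat_lit 336421) (nat_lit 28) (.e (nat_lit 442112) (nat_lit 7) .nil)))) (.g (nat_lit 0) (.e (nat_lit 323936) (nat_lit 0) .nil) .nil)))) (.nd (nat_lit 9) 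
(.lf (nat_lit 563533) (.g (nat_lit 2756) (.e (nat_lit 426568) (nat_lit 34) (.e (nat_lit 393271) (nat_lit 23) (.e (nat_lit 426438) (nat_lit 18) (.e (nat_lit 98333) (nat_lit 18) (.e (nat_lit 164332) (nat_lit 230) (.e (nat_lit 163905) (nat_lit 12) .nil)))))) (.g (nat_lit 1) (.e (nat_lit 323557) (nat_lit 0) .nil) .nil))) 
(.lf (nat_lit 564045) (.g (nat_lit 1738) (.e (nat_lit 434199) (nat_lit 18) (.e (nat_lit 6425) (nat_lit 342) (.e (nat_lit 229413) (nat_lit 15) (.e (nat_lit 450601) (nat_lit 21) .nil)))) (.g (nat_lit 0) (.e (nat_lit 324550) (nat_lit 0) .nil) .nil))))) (.nd (nat_lit 8) (.nd (nat_lit 9) 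
(.lf (nat_lit 563405) (.g (nat_lit 1525) (.e (nat_lit 426568) (nat_lit 34) (.e (nat_lit 393251) (nat_lit 18) (.e (nat_lit 164397) (nat_lit 256) (.e (nat_lit 57379) (nat_lit 3) (.e (nat_lit 98365) (nat_lit 26) .nil))))) (.g (nat_lit 0) (.e (nat_lit 323425) (nat_lit 0) .nil) .nil))) 
(.lf (nat_lit 563917) (.g (nat_lit 938) (.e (nat_lit 442112) (nat_lit 0) (.e (nat_lit 1428) (nat_lit 108) (.e (nat_lit 336421) (nat_lit 28) (.e (nat_lit 434187) (nat_lit 13) .nil)))) (.g (nat_lit 0) (.e (nat_lit 324088) (nat_lit 0) .nil) .nil)))) (.nd (nat_lit 9) 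
(.lf (nat_lit 563661) (.g (nat_lit 2037) (.e (nat_lit 426568) (nat_lit 34) (.e (nat_lit 393301) (nat_lit 27) (.e (nat_lit 491535) (nat_lit 2) (.e (nat_lit 90187) (nat_lit 18) (.e (nat_lit 2593) (nat_lit 162) .nil))))) (.g (nat_lit 0) (.e (nat_lit 323709) (nat_lit 0) .nil) .nil))) 
(.lf (nat_lit 564173) (.g (nat_lit 566) (.e (nat_lit 434212) (nat_lit 18) (.e (nat_lit 6425) (nat_lit 342) (.e (nat_lit 229412) (nat_lit 14) .nil))) (.g (nat_lit 0) (.e (nat_lit 325443) (nat_lit 0) .nil) .nil))))))) (.nd (nat_lit 6) (.nd (nat_lit 7) (.nd (nat_lit 8) (.nd (nat_lit 9) 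
(.lf (nat_lit 563245) (.g (nat_lit 3261) (.e (nat_lit 426566) (nat_lit 34) (.e (nat_lit 393294) (nat_lit 26) (.e (nat_lit 475177) (nat_lit 24) (.e (nat_lit 516120) (nat_lit 1) (.e (nat_lit 164305) (nat_lit 226) (.e (nat_lit 2433) (nat_lit 157) (.e (nat_lit 2851) (nat_lit 184) .nil))))))) (.g (nat_lit 1) (.e (nat_lit 323227) (nat_lit 0) .nil) .nil))) 
(.lf (nat_lit 563757) (.g (nat_lit 3082) (.e (nat_lit 434180) (nat_lit 0) (.e (nat_lit 1234) (nat_lit 91) (.e (nat_lit 90170) (nat_lit 13) (.e (nat_lit 172113) (nat_lit 10) (.e (nat_lit 434247) (nat_lit 28) (.e (nat_lit 573457) (nat_lit 9) (.e (nat_lit 7936) (nat_lit 33) .nil))))))) (.g (nat_lit 1) (.e (nat_lit 323904) (nat_lit 0) .nil) .nil)))) (.nd (nat_lit 9) 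
(.lf (nat_lit 563501) (.g (nat_lit 2454) (.e (nat_lit 426568) (nat_lit 34) (.e (nat_lit 393271) (nat_lit 23) (.e (nat_lit 426131) (nat_lit 3) (.e (nat_lit 204829) (nat_lit 18) (.e (nat_lit 57655) (nat_lit 152) (.e (nat_lit 2399) (nat_lit 157) (.e (nat_lit 2862) (nat_lit 184) .nil))))))) (.g (nat_lit 1) (.e (nat_lit 323525) (nat_lit 0) .nil) .nil))) 
(.lf (nat_lit 564013) (.g (nat_lit 2222) (.e (nat_lit 434183) (nat_lit 8) (.e (nat_lit 2682) (nat_lit 168) (.e (nat_lit 204845) (nat_lit 24) (.e (nat_lit 319531) (nat_lit 16) (.e (nat_lit 286735) (nat_lit 3) .nil))))) (.g (nat_lit 0) (.e (nat_lit 324282) (nat_lit 0) .nil) .nil))))) (.nd (nat_lit 8) (.nd (nat_lit 9) 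
(.lf (nat_lit 563373) (.g (nat_lit 1719) (.e (nat_lit 426567) (nat_lit 34) (.e (nat_lit 393293) (nat_lit 26) (.e (nat_lit 475177) (nat_lit 24) (.e (nat_lit 516115) (nat_lit 1) (.e (nat_lit 164332) (nat_lit 230) (.e (nat_lit 163905) (nat_lit 12) .nil)))))) (.g (nat_lit 1) (.e (nat_lit 323384) (nat_lit 0) .nil) .nil))) 
(.lf (nat_lit 563885) (.g (nat_lit 1394) (.e (nat_lit 434181) (nat_lit 0) (.e (nat_lit 1428) (nat_lit 108) (.e (nat_lit 336421) (nat_lit 28) (.e (nat_lit 434198) (nat_lit 17) (.e (nat_lit 229647) (nat_lit 232) (.e (nat_lit 7936) (nat_lit 33) .nil)))))) (.g (nat_lit 1) (.e (nat_lit 324043) (nat_lit 0) .nil) .nil)))) (.nd (nat_lit 9) 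
(.lf (nat_lit 563629) (.g (nat_lit 2707) (.e (nat_lit 426568) (nat_lit 34) (.e (nat_lit 393291) (nat_lit 26) (.e (nat_lit 475177) (nat_lit 24) (.e (nat_lit 516115) (nat_lit 1) (.e (nat_lit 164326) (nat_lit 230) (.e (nat_lit 163903) (nat_lit 12) .nil)))))) (.g (nat_lit 1) (.e (nat_lit 323670) (nat_lit 0) .nil) .nil))) 
(.lf (nat_lit 564141) (.g (nat_lit 3274) (.e (nat_lit 434209) (nat_lit 18) (.e (nat_lit 5548) (nat_lit 306) (.e (nat_lit 2638) (nat_lit 165) (.e (nat_lit 180278) (nat_lit 32) (.e (nat_lit 1660) (nat_lit 115) (.e (nat_lit 393283) (nat_lit 24) .nil)))))) (.g (nat_lit 1) (.e (nat_lit 325283) (nat_lit 0) .nil) .nil)))))) (.nd (nat_lit 7) (.nd (nat_lit 8) (.nd (nat_lit 9) 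
(.lf (nat_lit 563309) (.g (nat_lit 3238) (.e (nat_lit 426566) (nat_lit 34) (.e (nat_lit 393296) (nat_lit 26) (.e (nat_lit 475179) (nat_lit 24) (.e (nat_lit 516119) (nat_lit 1) (.e (nat_lit 164332) (nat_lit 230) (.e (nat_lit 163902) (nat_lit 12) .nil)))))) (.g (nat_lit 1) (.e (nat_lit 323293) (nat_lit 0) .nil) .nil))) 
(.lf (nat_lit 563821) (.g (nat_lit 2964) (.e (nat_lit 434180) (nat_lit 0) (.e (nat_lit 1659) (nat_lit 115) (.e (nat_lit 393260) (nat_lit 21) (.e (nat_lit 409642) (nat_lit 17) (.e (nat_lit 294973) (nat_lit 28) .nil))))) (.g (nat_lit 0) (.e (nat_lit 323973) (nat_lit 0) .nil) .nil)))) (.nd (nat_lit 9) 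
(.lf (nat_lit 563565) (.g (nat_lit 2897) (.e (nat_lit 426568) (nat_lit 34) (.e (nat_lit 393282) (nat_lit 24) (.e (nat_lit 434231) (nat_lit 23) (.e (nat_lit 532500) (nat_lit 1) (.e (nat_lit 57685) (nat_lit 156) (.e (nat_lit 163903) (nat_lit 12) .nil)))))) (.g (nat_lit 1) (.e (nat_lit 323595) (nat_lit 0) .nil) .nil))) 
(.lf (nat_lit 564077) (.g (nat_lit 1493) (.e (nat_lit 434206) (nat_lit 18) (.e (nat_lit 6420) (nat_lit 341) (.e (nat_lit 163902) (nat_lit 12) (.e (nat_lit 426233) (nat_lit 9) .nil)))) (.g (nat_lit 0) (.e (nat_lit 324825) (nat_lit 0) .nil) .nil))))) (.nd (nat_lit 8) (.nd (nat_lit 9) 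
(.lf (nat_lit 563437) (.g (nat_lit 3236) (.e (nat_lit 426568) (nat_lit 34) (.e (nat_lit 393252) (nat_lit 18) (.e (nat_lit 164403) (nat_lit 256) (.e (nat_lit 57378) (nat_lit 3) (.e (nat_lit 98365) (nat_lit 26) (.e (nat_lit 426187) (nat_lit 9) .nil)))))) (.g (nat_lit 1) (.e (nat_lit 323457) (nat_lit 0) .nil) .nil))) 
(.lf (nat_lit 563949) (.g (nat_lit 1076) (.e (nat_lit 442112) (nat_lit 4) (.e (nat_lit 65653) (nat_lit 27) (.e (nat_lit 426342) (nat_lit 14) (.e (nat_lit 491556) (nat_lit 9) (.e (nat_lit 336420) (nat_lit 28) .nil))))) (.g (nat_lit 0) (.e (nat_lit 324170) (nat_lit 0) .nil) .nil)))) (.nd (nat_lit 9) 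
(.lf (nat_lit 563693) (.g (nat_lit 1059) (.e (nat_lit 433920) (nat_lit 34) (.e (nat_lit 393254) (nat_lit 18) (.e (nat_lit 164325) (nat_lit 230) (.e (nat_lit 163875) (nat_lit 3) (.e (nat_lit 204811) (nat_lit 9) .nil))))) (.g (nat_lit 0) (.e (nat_lit 323744) (nat_lit 0) .nil) .nil))) 
(.lf (nat_lit 564205) (.g (nat_lit 2088) (.e (nat_lit 434215) (nat_lit 18) (.e (nat_lit 5949) (nat_lit 322) (.e (nat_lit 57378) (nat_lit 3) (.e (nat_lit 98365) (nat_lit 26) (.e (nat_lit 426326) (nat_lit 13) .nil))))) (.g (nat_lit 0) (.e (nat_lit 325502) (nat_lit 0) .nil) .nil)))))))) (.nd (nat_lit 5) (.nd (nat_lit 6) (.nd (nat_lit 7) (.nd (nat_lit 8) (.nd (nat_lit 9) 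
(.lf (nat_lit 563229) (.g (nat_lit 3574) (.e (nat_lit 426566) (nat_lit 34) (.e (nat_lit 393294) (nat_lit 26) (.e (nat_lit 475177) (nat_lit 24) (.e (nat_lit 516116) (nat_lit 1) (.e (nat_lit 164329) (nat_lit 230) (.e (nat_lit 163904) (nat_lit 12) .nil)))))) (.g (nat_lit 1) (.e (nat_lit 323211) (nat_lit 0) .nil) .nil))) 
(.lf (nat_lit 563741) (.g (nat_lit 2022) (.e (nat_lit 434178) (nat_lit 0) (.e (nat_lit 1515) (nat_lit 108) (.e (nat_lit 336420) (nat_lit 28) (.e (nat_lit 434181) (nat_lit 0) (.e (nat_lit 1427) (nat_lit 108) (.e (nat_lit 336421) (nat_lit 28) .nil)))))) (.g (nat_lit 1) (.e (nat_lit 323819) (nat_lit 0) .nil) .nil)))) (.nd (nat_lit 9) 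
(.lf (nat_lit 563485) (.g (nat_lit 1754) (.e (nat_lit 426568) (nat_lit 34) (.e (nat_lit 393266) (nat_lit 23) (.e (nat_lit 426436) (nat_lit 18) (.e (nat_lit 98333) (nat_lit 18) (.e (nat_lit 164325) (nat_lit 230) .nil))))) (.g (nat_lit 0) (.e (nat_lit 323508) (nat_lit 0) .nil) .nil))) 
(.lf (nat_lit 563997) (.g (nat_lit 1283) (.e (nat_lit 442112) (nat_lit 5) (.e (nat_lit 73775) (nat_lit 26) (.e (nat_lit 778466) (nat_lit 11) (.e (nat_lit 24634) (nat_lit 9) .nil)))) (.g (nat_lit 0) (.e (nat_lit 324241) (nat_lit 0) .nil) .nil))))) (.nd (nat_lit 8) (.nd (nat_lit 9) 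
(.lf (nat_lit 563357) (.g (nat_lit 2818) (.e (nat_lit 426567) (nat_lit 34) (.e (nat_lit 393271) (nat_lit 23) (.e (nat_lit 426436) (nat_lit 18) (.e (nat_lit 98335) (nat_lit 18) (.e (nat_lit 164324) (nat_lit 230) (.e (nat_lit 163903) (nat_lit 12) .nil)))))) (.g (nat_lit 1) (.e (nat_lit 323367) (nat_lit 0) .nil) .nil))) 
(.lf (nat_lit 563869) (.g (nat_lit 935) (.e (nat_lit 434181) (nat_lit 0) (.e (nat_lit 1426) (nat_lit 108) (.e (nat_lit 336421) (nat_lit 28) (.e (nat_lit 434186) (nat_lit 13) (.e (nat_lit 2779) (nat_lit 178) (.e (nat_lit 286770) (nat_lit 28) .nil)))))) (.g (nat_lit 1) (.e (nat_lit 324027) (nat_lit 0) .nil) .nil)))) (.nd (nat_lit 9) 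
(.lf (nat_lit 563613) (.g (nat_lit 2977) (.e (nat_lit 426568) (nat_lit 34) (.e (nat_lit 393286) (nat_lit 25) (.e (nat_lit 458789) (nat_lit 23) (.e (nat_lit 532502) (nat_lit 1) (.e (nat_lit 57691) (nat_lit 156) (.e (nat_lit 163905) (nat_lit 12) .nil)))))) (.g (nat_lit 1) (.e (nat_lit 323652) (nat_lit 0) .nil) .nil))) 
(.lf (nat_lit 564125) (.g (nat_lit 3952) (.e (nat_lit 434209) (nat_lit 18) (.e (nat_lit 5546) (nat_lit 306) (.e (nat_lit 2611) (nat_lit 163) (.e (nat_lit 163978) (nat_lit 30) (.e (nat_lit 573479) (nat_lit 13) (.e (nat_lit 65619) (nat_lit 10) (.e (nat_lit 344117) (nat_lit 21) (.e (nat_lit 516159) (nat_lit 10) .nil)))))))) (.g (nat_lit 1) (.e (nat_lit 325163) (nat_lit 0) .nil) .nil)))))) 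
(.nd (nat_lit 7) (.nd (nat_lit 8) (.nd (nat_lit 9) 
(.lf (nat_lit 563293) (.g (nat_lit 2120) (.e (nat_lit 426566) (nat_lit 34) (.e (nat_lit 393296) (nat_lit 26) (.e (nat_lit 475178) (nat_lit 24) (.e (nat_lit 516116) (nat_lit 1) (.e (nat_lit 164332) (nat_lit 230) (.e (nat_lit 163902) (nat_lit 12) .nil)))))) (.g (nat_lit 1) (.e (nat_lit 323277) (nat_lit 0) .nil) .nil))) 
(.lf (nat_lit 563805) (.g (nat_lit 1351) (.e (nat_lit 434180) (nat_lit 0) (.e (nat_lit 1427) (nat_lit 108) (.e (nat_lit 336430) (nat_lit 29) (.e (nat_lit 442428) (nat_lit 24) .nil)))) (.g (nat_lit 0) (.e (nat_lit 323953) (nat_lit 0) .nil) .nil)))) (.nd (nat_lit 9) 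
(.lf (nat_lit 563549) (.g (nat_lit 2620) (.e (nat_lit 426568) (nat_lit 34) (.e (nat_lit 393281) (nat_lit 23) (.e (nat_lit 426133) (nat_lit 3) (.e (nat_lit 204831) (nat_lit 18) (.e (nat_lit 57688) (nat_lit 156) .nil))))) (.g (nat_lit 0) (.e (nat_lit 323579) (nat_lit 0) .nil) .nil))) 
(.lf (nat_lit 564061) (.g (nat_lit 2970) (.e (nat_lit 434202) (nat_lit 18) (.e (nat_lit 6420) (nat_lit 341) (.e (nat_lit 163923) (nat_lit 15) (.e (nat_lit 450601) (nat_lit 21) (.e (nat_lit 696344) (nat_lit 8) (.e (nat_lit 172106) (nat_lit 10) .nil)))))) (.g (nat_lit 1) (.e (nat_lit 324728) (nat_lit 0) .nil) .nil))))) (.nd (nat_lit 8) (.nd (nat_lit 9) 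
(.lf (nat_lit 563421) (.g (nat_lit 2908) (.e (nat_lit 426568) (nat_lit 34) (.e (nat_lit 393252) (nat_lit 18) (.e (nat_lit 164330) (nat_lit 230) (.e (nat_lit 163869) (nat_lit 2) (.e (nat_lit 196656) (nat_lit 11) (.e (nat_lit 16433) (nat_lit 9) .nil)))))) (.g (nat_lit 1) (.e (nat_lit 323441) (nat_lit 0) .nil) .nil))) 
(.lf (nat_lit 563933) (.g (nat_lit 1145) (.e (nat_lit 442112) (nat_lit 4) (.e (nat_lit 65649) (nat_lit 27) (.e (nat_lit 426306) (nat_lit 12) (.e (nat_lit 475211) (nat_lit 41) .nil)))) (.g (nat_lit 0) (.e (nat_lit 324139) (nat_lit 0) .nil) .nil)))) (.nd (nat_lit 9) 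
(.lf (nat_lit 563677) (.g (nat_lit 1219) (.e (nat_lit 433920) (nat_lit 34) (.e (nat_lit 393252) (nat_lit 18) (.e (nat_lit 164332) (nat_lit 230) (.e (nat_lit 163874) (nat_lit 3) (.e (nat_lit 204811) (nat_lit 9) .nil))))) (.g (nat_lit 0) (.e (nat_lit 323728) (nat_lit 0) .nil) .nil))) 
(.lf (nat_lit 564189) (.g (nat_lit 2441) (.e (nat_lit 434212) (nat_lit 18) (.e (nat_lit 6425) (nat_lit 342) (.e (nat_lit 229415) (nat_lit 15) (.e (nat_lit 450563) (nat_lit 0) (.e (nat_lit 6418) (nat_lit 341) (.e (nat_lit 163908) (nat_lit 12) (.e (nat_lit 426286) (nat_lit 10) .nil))))))) (.g (nat_lit 1) (.e (nat_lit 325459) (nat_lit 0) .nil) .nil))))))) 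
(.nd (nat_lit 6) (.nd (nat_lit 7) (.nd (nat_lit 8) (.nd (nat_lit 9) 
(.lf (nat_lit 563261) (.g (nat_lit 3329) (.e (nat_lit 426566) (nat_lit 34) (.e (nat_lit 393294) (nat_lit 26) (.e (nat_lit 475179) (nat_lit 24) (.e (nat_lit 516120) (nat_lit 1) (.e (nat_lit 164322) (nat_lit 230) (.e (nat_lit 163904) (nat_lit 12) .nil)))))) (.g (nat_lit 1) (.e (nat_lit 323244) (nat_lit 0) .nil) .nil))) 
(.lf (nat_lit 563773) (.g (nat_lit 3149) (.e (nat_lit 434180) (nat_lit 0) (.e (nat_lit 1252) (nat_lit 92) (.e (nat_lit 98373) (nat_lit 29) (.e (nat_lit 450588) (nat_lit 10) (.e (nat_lit 573452) (nat_lit 9) (.e (nat_lit 7936) (nat_lit 33) .nil)))))) (.g (nat_lit 1) (.e (nat_lit 323920) (nat_lit 0) .nil) .nil)))) (.nd (nat_lit 9) 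
(.lf (nat_lit 563517) (.g (nat_lit 2491) (.e (nat_lit 426568) (nat_lit 34) (.e (nat_lit 393271) (nat_lit 23) (.e (nat_lit 426131) (nat_lit 3) (.e (nat_lit 204830) (nat_lit 18) (.e (nat_lit 57663) (nat_lit 152) (.e (nat_lit 2456) (nat_lit 157) (.e (nat_lit 2844) (nat_lit 184) .nil))))))) (.g (nat_lit 1) (.e (nat_lit 323541) (nat_lit 0) .nil) .nil))) 
(.lf (nat_lit 564029) (.g (nat_lit 317) (.e (nat_lit 434186) (nat_lit 13) (.e (nat_lit 2816) (nat_lit 181) (.e (nat_lit 311309) (nat_lit 1) .nil))) (.g (nat_lit 0) (.e (nat_lit 324338) (nat_lit 0) .nil) .nil))))) (.nd (nat_lit 8) (.nd (nat_lit 9) 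
(.lf (nat_lit 563389) (.g (nat_lit 2195) (.e (nat_lit 426567) (nat_lit 34) (.e (nat_lit 393296) (nat_lit 26) (.e (nat_lit 475179) (nat_lit 24) (.e (nat_lit 516117) (nat_lit 1) .nil)))) (.g (nat_lit 0) (.e (nat_lit 323400) (nat_lit 0) .nil) .nil))) 
(.lf (nat_lit 563901) (.g (nat_lit 839) (.e (nat_lit 442112) (nat_lit 0) (.e (nat_lit 371) (nat_lit 32) (.e (nat_lit 426546) (nat_lit 30) (.e (nat_lit 360470) (nat_lit 6) .nil)))) (.g (nat_lit 0) (.e (nat_lit 324069) (nat_lit 0) .nil) .nil)))) (.nd (nat_lit 9) 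
(.lf (nat_lit 563645) (.g (nat_lit 2183) (.e (nat_lit 426568) (nat_lit 34) (.e (nat_lit 393294) (nat_lit 26) (.e (nat_lit 475176) (nat_lit 24) (.e (nat_lit 516117) (nat_lit 1) (.e (nat_lit 164332) (nat_lit 230) (.e (nat_lit 163905) (nat_lit 12) .nil)))))) (.g (nat_lit 1) (.e (nat_lit 323686) (nat_lit 0) .nil) .nil))) 
(.lf (nat_lit 564157) (.g (nat_lit 2003) (.e (nat_lit 434212) (nat_lit 18) (.e (nat_lit 5224) (nat_lit 296) (.e (nat_lit 163868) (nat_lit 2) (.e (nat_lit 196654) (nat_lit 11) (.e (nat_lit 16466) (nat_lit 13) (.e (nat_lit 491264) (nat_lit 10) .nil)))))) (.g (nat_lit 1) (.e (nat_lit 325403) (nat_lit 0) .nil) .nil)))))) (.nd (nat_lit 7) (.nd (nat_lit 8) (.nd (nat_lit 9) 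
(.lf (nat_lit 563325) (.g (nat_lit 1975) (.e (nat_lit 426567) (nat_lit 34) (.e (nat_lit 393251) (nat_lit 18) (.e (nat_lit 164398) (nat_lit 256) (.e (nat_lit 57377) (nat_lit 3) .nil)))) (.g (nat_lit 0) (.e (nat_lit 323334) (nat_lit 0) .nil) .nil))) 
(.lf (nat_lit 563837) (.g (nat_lit 2640) (.e (nat_lit 434181) (nat_lit 0) (.e (nat_lit 1234) (nat_lit 91) (.e (nat_lit 90170) (nat_lit 13) (.e (nat_lit 172126) (nat_lit 14) (.e (nat_lit 491540) (nat_lit 3) .nil))))) (.g (nat_lit 0) (.e (nat_lit 323995) (nat_lit 0) .nil) .nil)))) (.nd (nat_lit 9) 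
(.lf (nat_lit 563581) (.g (nat_lit 3334) (.e (nat_lit 426568) (nat_lit 34) (.e (nat_lit 393283) (nat_lit 24) (.e (nat_lit 434231) (nat_lit 23) (.e (nat_lit 532499) (nat_lit 1) (.e (nat_lit 57692) (nat_lit 156) (.e (nat_lit 163905) (nat_lit 12) .nil)))))) (.g (nat_lit 1) (.e (nat_lit 323613) (nat_lit 0) .nil) .nil))) 
(.lf (nat_lit 564093) (.g (nat_lit 3397) (.e (nat_lit 434208) (nat_lit 18) (.e (nat_lit 5945) (nat_lit 322) (.e (nat_lit 57378) (nat_lit 3) (.e (nat_lit 98365) (nat_lit 26) (.e (nat_lit 426325) (nat_lit 13) (.e (nat_lit 491264) (nat_lit 10) .nil)))))) (.g (nat_lit 1) (.e (nat_lit 324951) (nat_lit 0) .nil) .nil))))) (.nd (nat_lit 8) (.nd (nat_lit 9) 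
(.lf (nat_lit 563453) (.g (nat_lit 2937) (.e (nat_lit 426568) (nat_lit 34) (.e (nat_lit 393253) (nat_lit 18) (.e (nat_lit 164327) (nat_lit 230) (.e (nat_lit 163867) (nat_lit 2) (.e (nat_lit 196654) (nat_lit 11) .nil))))) (.g (nat_lit 0) (.e (nat_lit 323474) (nat_lit 0) .nil) .nil))) 
(.lf (nat_lit 563965) (.g (nat_lit 1789) (.e (nat_lit 442112) (nat_lit 5) (.e (nat_lit 73729) (nat_lit 0) (.e (nat_lit 7266) (nat_lit 384) (.e (nat_lit 57423) (nat_lit 14) (.e (nat_lit 360192) (nat_lit 12) .nil))))) (.g (nat_lit 0) (.e (nat_lit 324187) (nat_lit 0) .nil) .nil)))) (.nd (nat_lit 9) 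
(.lf (nat_lit 563709) (.g (nat_lit 1607) (.e (nat_lit 426569) (nat_lit 35) (.e (nat_lit 401454) (nat_lit 12) (.e (nat_lit 475181) (nat_lit 27) (.e (nat_lit 540703) (nat_lit 11) (.e (nat_lit 360192) (nat_lit 11) .nil))))) (.g (nat_lit 1) (.e (nat_lit 323768) (nat_lit 0) .nil) .nil))) 
(.lf (nat_lit 564221) (.g (nat_lit 1871) (.e (nat_lit 434219) (nat_lit 19) (.e (nat_lit 500087) (nat_lit 22) (.e (nat_lit 131105) (nat_lit 9) (.e (nat_lit 336324) (nat_lit 18) (.e (nat_lit 204838) (nat_lit 20) (.e (nat_lit 122624) (nat_lit 12) .nil)))))) (.g (nat_lit 1) (.e (nat_lit 325563) (nat_lit 0) .nil) .nil))))))))))) 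
(.nd (nat_lit 2) (.nd (nat_lit 3) (.nd (nat_lit 4) (.nd (nat_lit 5) (.nd (nat_lit 6) 
(.nd (nat_lit 7) (.nd (nat_lit 8) (.nd (nat_lit 9) 
(.lf (nat_lit 563203) (.g (nat_lit 2866) (.e (nat_lit 426566) (nat_lit 34) (.e (nat_lit 393293) (nat_lit 26) (.e (nat_lit 475179) (nat_lit 24) (.e (nat_lit 516119) (nat_lit 1) (.e (nat_lit 164327) (nat_lit 230) (.e (nat_lit 163903) (nat_lit 12) .nil)))))) (.g (nat_lit 1) (.e (nat_lit 323185) (nat_lit 0) .nil) .nil))) 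
(.lf (nat_lit 563715) (.g (nat_lit 1620) (.e (nat_lit 426569) (nat_lit 35) (.e (nat_lit 401454) (nat_lit 12) (.e (nat_lit 475179) (nat_lit 24) (.e (nat_lit 516120) (nat_lit 1) .nil)))) (.g (nat_lit 0) (.e (nat_lit 323774) (nat_lit 0) .nil) .nil)))) (.nd (nat_lit 9) 
(.lf (nat_lit 563459) (.g (nat_lit 3076) (.e (nat_lit 426568) (nat_lit 34) (.e (nat_lit 393253) (nat_lit 18) (.e (nat_lit 164327) (nat_lit 230) (.e (nat_lit 163874) (nat_lit 3) (.e (nat_lit 204813) (nat_lit 9) (.e (nat_lit 426188) (nat_lit 9) .nil)))))) (.g (nat_lit 1) (.e (nat_lit 323480) (nat_lit 0) .nil) .nil))) 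
(.lf (nat_lit 563971) (.g (nat_lit 886) (.e (nat_lit 442112) (nat_lit 5) (.e (nat_lit 73730) (nat_lit 0) (.e (nat_lit 7263) (nat_lit 384) (.e (nat_lit 57424) (nat_lit 14) (.e (nat_lit 360192) (nat_lit 12) .nil))))) (.g (nat_lit 0) (.e (nat_lit 324193) (nat_lit 0) .nil) .nil))))) (.nd (nat_lit 8) (.nd (nat_lit 9) 
(.lf (nat_lit 563331) (.g (nat_lit 1889) (.e (nat_lit 426567) (nat_lit 34) (.e (nat_lit 393251) (nat_lit 18) (.e (nat_lit 164403) (nat_lit 256) (.e (nat_lit 57377) (nat_lit 3) .nil)))) (.g (nat_lit 0) (.e (nat_lit 323340) (nat_lit 0) .nil) .nil))) 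
(.lf (nat_lit 563843) (.g (nat_lit 2834) (.e (nat_lit 434181) (nat_lit 0) (.e (nat_lit 1235) (nat_lit 91) (.e (nat_lit 90170) (nat_lit 13) (.e (nat_lit 172113) (nat_lit 10) (.e (nat_lit 434247) (nat_lit 28) (.e (nat_lit 573457) (nat_lit 9) (.e (nat_lit 7936) (nat_lit 33) .nil))))))) (.g (nat_lit 1) (.e (nat_lit 324001) (nat_lit 0) .nil) .nil)))) (.nd (nat_lit 9) 
(.lf (nat_lit 563587) (.g (nat_lit 2304) (.e (nat_lit 426568) (nat_lit 34) (.e (nat_lit 393283) (nat_lit 24) (.e (nat_lit 434231) (nat_lit 23) (.e (nat_lit 532500) (nat_lit 1) (.e (nat_lit 57668) (nat_lit 152) (.e (nat_lit 2477) (nat_lit 157) (.e (nat_lit 2854) (nat_lit 184) .nil))))))) (.g (nat_lit 1) (.e (nat_lit 323619) (nat_lit 0) .nil) .nil))) 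
(.lf (nat_lit 564099) (.g (nat_lit 2736) (.e (nat_lit 434208) (nat_lit 18) (.e (nat_lit 6416) (nat_lit 341) (.e (nat_lit 163923) (nat_lit 15) (.e (nat_lit 450601) (nat_lit 21) (.e (nat_lit 696344) (nat_lit 8) (.e (nat_lit 172113) (nat_lit 10) .nil)))))) (.g (nat_lit 1) (.e (nat_lit 325005) (nat_lit 0) .nil) .nil)))))) (.nd (nat_lit 7) (.nd (nat_lit 8) (.nd (nat_lit 9) 
(.lf (nat_lit 563267) (.g (nat_lit 3027) (.e (nat_lit 426566) (nat_lit 34) (.e (nat_lit 393295) (nat_lit 26) (.e (nat_lit 475177) (nat_lit 24) (.e (nat_lit 516119) (nat_lit 1) (.e (nat_lit 164327) (nat_lit 230) (.e (nat_lit 163907) (nat_lit 12) .nil)))))) (.g (nat_lit 1) (.e (nat_lit 323250) (nat_lit 0) .nil) .nil))) 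
(.lf (nat_lit 563779) (.g (nat_lit 3827) (.e (nat_lit 434180) (nat_lit 0) (.e (nat_lit 1253) (nat_lit 92) (.e (nat_lit 98373) (nat_lit 29) (.e (nat_lit 450587) (nat_lit 10) (.e (nat_lit 573454) (nat_lit 9) (.e (nat_lit 7936) (nat_lit 33) .nil)))))) (.g (nat_lit 1) (.e (nat_lit 323926) (nat_lit 0) .nil) .nil)))) (.nd (nat_lit 9) 
(.lf (nat_lit 563523) (.g (nat_lit 2471) (.e (nat_lit 426568) (nat_lit 34) (.e (nat_lit 393271) (nat_lit 23) (.e (nat_lit 426131) (nat_lit 3) (.e (nat_lit 204830) (nat_lit 18) (.e (nat_lit 57670) (nat_lit 152) (.e (nat_lit 2477) (nat_lit 157) (.e (nat_lit 2854) (nat_lit 184) .nil))))))) (.g (nat_lit 1) (.e (nat_lit 323547) (nat_lit 0) .nil) .nil))) 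
(.lf (nat_lit 564035) (.g (nat_lit 3282) (.e (nat_lit 434191) (nat_lit 13) (.e (nat_lit 2571) (nat_lit 160) (.e (nat_lit 32807) (nat_lit 18) (.e (nat_lit 172126) (nat_lit 14) (.e (nat_lit 491540) (nat_lit 3) (.e (nat_lit 98367) (nat_lit 27) .nil)))))) (.g (nat_lit 1) (.e (nat_lit 324444) (nat_lit 0) .nil) .nil))))) (.nd (nat_lit 8) (.nd (nat_lit 9) 
(.lf (nat_lit 563395) (.g (nat_lit 3519) (.e (nat_lit 426568) (nat_lit 34) (.e (nat_lit 393251) (nat_lit 18) (.e (nat_lit 164325) (nat_lit 230) (.e (nat_lit 163871) (nat_lit 2) (.e (nat_lit 196656) (nat_lit 11) (.e (nat_lit 16433) (nat_lit 9) .nil)))))) (.g (nat_lit 1) (.e (nat_lit 323415) (nat_lit 0) .nil) .nil))) 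
(.lf (nat_lit 563907) (.g (nat_lit 2298) (.e (nat_lit 442112) (nat_lit 0) (.e (nat_lit 1239) (nat_lit 91) (.e (nat_lit 90174) (nat_lit 14) (.e (nat_lit 180277) (nat_lit 32) (.e (nat_lit 1252) (nat_lit 92) .nil))))) (.g (nat_lit 0) (.e (nat_lit 324078) (nat_lit 0) .nil) .nil)))) (.nd (nat_lit 9) 
(.lf (nat_lit 563651) (.g (nat_lit 2523) (.e (nat_lit 426568) (nat_lit 34) (.e (nat_lit 393294) (nat_lit 26) (.e (nat_lit 475177) (nat_lit 24) (.e (nat_lit 516119) (nat_lit 1) (.e (nat_lit 164329) (nat_lit 230) (.e (nat_lit 163902) (nat_lit 12) .nil)))))) (.g (nat_lit 1) (.e (nat_lit 323693) (nat_lit 0) .nil) .nil))) 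
(.lf (nat_lit 564163) (.g (nat_lit 2486) (.e (nat_lit 434212) (nat_lit 18) (.e (nat_lit 5546) (nat_lit 306) (.e (nat_lit 2638) (nat_lit 165) (.e (nat_lit 180278) (nat_lit 32) (.e (nat_lit 1661) (nat_lit 115) .nil))))) (.g (nat_lit 0) (.e (nat_lit 325427) (nat_lit 0) .nil) .nil))))))) (.nd (nat_lit 6) (.nd (nat_lit 7) (.nd (nat_lit 8) (.nd (nat_lit 9) 
(.lf (nat_lit 563235) (.g (nat_lit 2505) (.e (nat_lit 426566) (nat_lit 34) (.e (nat_lit 393294) (nat_lit 26) (.e (nat_lit 475177) (nat_lit 24) (.e (nat_lit 516117) (nat_lit 1) (.e (nat_lit 164331) (nat_lit 230) (.e (nat_lit 163904) (nat_lit 12) .nil)))))) (.g (nat_lit 1) (.e (nat_lit 323217) (nat_lit 0) .nil) .nil))) 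
(.lf (nat_lit 563747) (.g (nat_lit 1896) (.e (nat_lit 434179) (nat_lit 0) (.e (nat_lit 1512) (nat_lit 108) (.e (nat_lit 336420) (nat_lit 28) (.e (nat_lit 434181) (nat_lit 0) (.e (nat_lit 1427) (nat_lit 108) (.e (nat_lit 336421) (nat_lit 28) .nil)))))) (.g (nat_lit 1) (.e (nat_lit 323844) (nat_lit 0) .nil) .nil)))) (.nd (nat_lit 9) 
(.lf (nat_lit 563491) (.g (nat_lit 2211) (.e (nat_lit 426568) (nat_lit 34) (.e (nat_lit 393267) (nat_lit 23) (.e (nat_lit 426436) (nat_lit 18) (.e (nat_lit 98333) (nat_lit 18) (.e (nat_lit 164329) (nat_lit 230) (.e (nat_lit 163902) (nat_lit 12) .nil)))))) (.g (nat_lit 1) (.e (nat_lit 323514) (nat_lit 0) .nil) .nil))) 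
(.lf (nat_lit 564003) (.g (nat_lit 242) (.e (nat_lit 442112) (nat_lit 7) (.e (nat_lit 131140) (nat_lit 27) (.e (nat_lit 426200) (nat_lit 9) .nil))) (.g (nat_lit 0) (.e (nat_lit 324265) (nat_lit 0) .nil) .nil))))) (.nd (nat_lit 8) (.nd (nat_lit 9) 
(.lf (nat_lit 563363) (.g (nat_lit 2274) (.e (nat_lit 426567) (nat_lit 34) (.e (nat_lit 393291) (nat_lit 26) (.e (nat_lit 475177) (nat_lit 24) (.e (nat_lit 516115) (nat_lit 1) (.e (nat_lit 164332) (nat_lit 230) .nil))))) (.g (nat_lit 0) (.e (nat_lit 323374) (nat_lit 0) .nil) .nil))) 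
(.lf (nat_lit 563875) (.g (nat_lit 1327) (.e (nat_lit 434181) (nat_lit 0) (.e (nat_lit 1427) (nat_lit 108) (.e (nat_lit 336421) (nat_lit 28) (.e (nat_lit 434190) (nat_lit 13) .nil)))) (.g (nat_lit 0) (.e (nat_lit 324033) (nat_lit 0) .nil) .nil)))) (.nd (nat_lit 9) 
(.lf (nat_lit 563619) (.g (nat_lit 3291) (.e (nat_lit 426568) (nat_lit 34) (.e (nat_lit 393287) (nat_lit 25) (.e (nat_lit 458789) (nat_lit 23) (.e (nat_lit 532501) (nat_lit 1) (.e (nat_lit 57691) (nat_lit 156) (.e (nat_lit 163905) (nat_lit 12) .nil)))))) (.g (nat_lit 1) (.e (nat_lit 323660) (nat_lit 0) .nil) .nil))) 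
(.lf (nat_lit 564131) (.g (nat_lit 4769) (.e (nat_lit 434209) (nat_lit 18) (.e (nat_lit 5547) (nat_lit 306) (.e (nat_lit 2599) (nat_lit 163) (.e (nat_lit 163979) (nat_lit 30) (.e (nat_lit 573482) (nat_lit 13) (.e (nat_lit 65619) (nat_lit 10) (.e (nat_lit 344117) (nat_lit 21) (.e (nat_lit 516160) (nat_lit 10) .nil)))))))) (.g (nat_lit 1) (.e (nat_lit 325210) (nat_lit 0) .nil) .nil)))))) 
(.nd (nat_lit 7) (.nd (nat_lit 8) (.nd (nat_lit 9) 
(.lf (nat_lit 563299) (.g (nat_lit 4074) (.e (nat_lit 426566) (nat_lit 34) (.e (nat_lit 393296) (nat_lit 26) (.e (nat_lit 475178) (nat_lit 24) (.e (nat_lit 516119) (nat_lit 1) (.e (nat_lit 164327) (nat_lit 230) (.e (nat_lit 163903) (nat_lit 12) .nil)))))) (.g (nat_lit 1) (.e (nat_lit 323283) (nat_lit 0) .nil) .nil))) 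
(.lf (nat_lit 563811) (.g (nat_lit 1764) (.e (nat_lit 434180) (nat_lit 0) (.e (nat_lit 1428) (nat_lit 108) (.e (nat_lit 336421) (nat_lit 28) (.e (nat_lit 434189) (nat_lit 13) (.e (nat_lit 2788) (nat_lit 179) (.e (nat_lit 294973) (nat_lit 28) .nil)))))) (.g (nat_lit 1) (.e (nat_lit 323959) (nat_lit 0) .nil) .nil)))) (.nd (nat_lit 9) 
(.lf (nat_lit 563555) (.g (nat_lit 257) (.e (nat_lit 426568) (nat_lit 34) (.e (nat_lit 393282) (nat_lit 24) (.e (nat_lit 434231) (nat_lit 23) .nil))) (.g (nat_lit 0) (.e (nat_lit 323585) (nat_lit 0) .nil) .nil))) 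
(.lf (nat_lit 564067) (.g (nat_lit 1258) (.e (nat_lit 434203) (nat_lit 18) (.e (nat_lit 4425) (nat_lit 261) (.e (nat_lit 163875) (nat_lit 3) (.e (nat_lit 204846) (nat_lit 24) .nil)))) (.g (nat_lit 0) (.e (nat_lit 324742) (nat_lit 0) .nil) .nil))))) (.nd (nat_lit 8) (.nd (nat_lit 9) 
(.lf (nat_lit 563427) (.g (nat_lit 1766) (.e (nat_lit 426568) (nat_lit 34) (.e (nat_lit 393252) (nat_lit 18) (.e (nat_lit 164396) (nat_lit 256) (.e (nat_lit 57371) (nat_lit 2) (.e (nat_lit 90185) (nat_lit 17) .nil))))) (.g (nat_lit 0) (.e (nat_lit 323447) (nat_lit 0) .nil) .nil))) 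
(.lf (nat_lit 563939) (.g (nat_lit 1543) (.e (nat_lit 442112) (nat_lit 4) (.e (nat_lit 65653) (nat_lit 27) (.e (nat_lit 426011) (nat_lit 0) (.e (nat_lit 7589) (nat_lit 406) (.e (nat_lit 73472) (nat_lit 28) .nil))))) (.g (nat_lit 0) (.e (nat_lit 324150) (nat_lit 0) .nil) .nil)))) (.nd (nat_lit 9) 
(.lf (nat_lit 563683) (.g (nat_lit 1269) (.e (nat_lit 433920) (nat_lit 34) (.e (nat_lit 393253) (nat_lit 18) (.e (nat_lit 164330) (nat_lit 230) (.e (nat_lit 163867) (nat_lit 2) .nil)))) (.g (nat_lit 0) (.e (nat_lit 323734) (nat_lit 0) .nil) .nil))) 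
(.lf (nat_lit 564195) (.g (nat_lit 1742) (.e (nat_lit 434212) (nat_lit 18) (.e (nat_lit 6425) (nat_lit 342) (.e (nat_lit 229415) (nat_lit 15) (.e (nat_lit 450604) (nat_lit 22) .nil)))) (.g (nat_lit 0) (.e (nat_lit 325466) (nat_lit 0) .nil) .nil)))))))) (.nd (nat_lit 5) (.nd (nat_lit 6) (.nd (nat_lit 7) (.nd (nat_lit 8) (.nd (nat_lit 9) 
(.lf (nat_lit 563219) (.g (nat_lit 2735) (.e (nat_lit 426566) (nat_lit 34) (.e (nat_lit 393294) (nat_lit 26) (.e (nat_lit 475177) (nat_lit 24) (.e (nat_lit 516106) (nat_lit 0) (.e (nat_lit 2478) (nat_lit 157) .nil))))) (.g (nat_lit 0) (.e (nat_lit 323201) (nat_lit 0) .nil) .nil))) 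
(.lf (nat_lit 563731) (.g (nat_lit 3771) (.e (nat_lit 433920) (nat_lit 35) (.e (nat_lit 401454) (nat_lit 12) (.e (nat_lit 475177) (nat_lit 24) (.e (nat_lit 516115) (nat_lit 1) (.e (nat_lit 164258) (nat_lit 215) .nil))))) (.g (nat_lit 0) (.e (nat_lit 323801) (nat_lit 0) .nil) .nil)))) (.nd (nat_lit 9) 
(.lf (nat_lit 563475) (.g (nat_lit 1461) (.e (nat_lit 426568) (nat_lit 34) (.e (nat_lit 393253) (nat_lit 18) (.e (nat_lit 164403) (nat_lit 256) (.e (nat_lit 57378) (nat_lit 3) (.e (nat_lit 98363) (nat_lit 26) .nil))))) (.g (nat_lit 0) (.e (nat_lit 323496) (nat_lit 0) .nil) .nil))) 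
(.lf (nat_lit 563987) (.g (nat_lit 1631) (.e (nat_lit 442112) (nat_lit 5) (.e (nat_lit 73775) (nat_lit 26) (.e (nat_lit 778465) (nat_lit 11) (.e (nat_lit 24623) (nat_lit 9) (.e (nat_lit 343808) (nat_lit 28) .nil))))) (.g (nat_lit 0) (.e (nat_lit 324228) (nat_lit 0) .nil) .nil))))) (.nd (nat_lit 8) (.nd (nat_lit 9) 
(.lf (nat_lit 563347) (.g (nat_lit 1862) (.e (nat_lit 426567) (nat_lit 34) (.e (nat_lit 393260) (nat_lit 21) (.e (nat_lit 409616) (nat_lit 10) (.e (nat_lit 604) (nat_lit 45) (.e (nat_lit 532515) (nat_lit 3) .nil))))) (.g (nat_lit 0) (.e (nat_lit 323357) (nat_lit 0) .nil) .nil))) 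
(.lf (nat_lit 563859) (.g (nat_lit 3770) (.e (nat_lit 434181) (nat_lit 0) (.e (nat_lit 1253) (nat_lit 92) (.e (nat_lit 98373) (nat_lit 29) (.e (nat_lit 450588) (nat_lit 10) (.e (nat_lit 573451) (nat_lit 9) (.e (nat_lit 7936) (nat_lit 33) .nil)))))) (.g (nat_lit 1) (.e (nat_lit 324017) (nat_lit 0) .nil) .nil)))) (.nd (nat_lit 9) 
(.lf (nat_lit 563603) (.g (nat_lit 2363) (.e (nat_lit 426568) (nat_lit 34) (.e (nat_lit 393284) (nat_lit 24) (.e (nat_lit 434231) (nat_lit 23) (.e (nat_lit 532499) (nat_lit 1) (.e (nat_lit 57688) (nat_lit 156) .nil))))) (.g (nat_lit 0) (.e (nat_lit 323638) (nat_lit 0) .nil) .nil))) 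
(.lf (nat_lit 564115) (.g (nat_lit 2555) (.e (nat_lit 434209) (nat_lit 18) (.e (nat_lit 5224) (nat_lit 296) (.e (nat_lit 163871) (nat_lit 2) (.e (nat_lit 196653) (nat_lit 11) (.e (nat_lit 16465) (nat_lit 13) (.e (nat_lit 491264) (nat_lit 10) .nil)))))) (.g (nat_lit 1) (.e (nat_lit 325105) (nat_lit 0) .nil) .nil)))))) (.nd (nat_lit 7) (.nd (nat_lit 8) (.nd (nat_lit 9) 
(.lf (nat_lit 563283) (.g (nat_lit 3184) (.e (nat_lit 426566) (nat_lit 34) (.e (nat_lit 393296) (nat_lit 26) (.e (nat_lit 475177) (nat_lit 24) (.e (nat_lit 516118) (nat_lit 1) (.e (nat_lit 164332) (nat_lit 230) (.e (nat_lit 163902) (nat_lit 12) .nil)))))) (.g (nat_lit 1) (.e (nat_lit 323267) (nat_lit 0) .nil) .nil))) 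
(.lf (nat_lit 563795) (.g (nat_lit 1160) (.e (nat_lit 434180) (nat_lit 0) (.e (nat_lit 1427) (nat_lit 108) (.e (nat_lit 336421) (nat_lit 28) (.e (nat_lit 434178) (nat_lit 0) .nil)))) (.g (nat_lit 0) (.e (nat_lit 323942) (nat_lit 0) .nil) .nil)))) (.nd (nat_lit 9) 
(.lf (nat_lit 563539) (.g (nat_lit 3152) (.e (nat_lit 426568) (nat_lit 34) (.e (nat_lit 393279) (nat_lit 23) (.e (nat_lit 426129) (nat_lit 3) (.e (nat_lit 204829) (nat_lit 18) (.e (nat_lit 57691) (nat_lit 156) (.e (nat_lit 163907) (nat_lit 12) .nil)))))) (.g (nat_lit 1) (.e (nat_lit 323567) (nat_lit 0) .nil) .nil))) 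
(.lf (nat_lit 564051) (.g (nat_lit 1571) (.e (nat_lit 434202) (nat_lit 18) (.e (nat_lit 6255) (nat_lit 337) (.e (nat_lit 2651) (nat_lit 166) (.e (nat_lit 188438) (nat_lit 20) .nil)))) (.g (nat_lit 0) (.e (nat_lit 324655) (nat_lit 0) .nil) .nil))))) (.nd (nat_lit 8) (.nd (nat_lit 9) 
(.lf (nat_lit 563411) (.g (nat_lit 2558) (.e (nat_lit 426568) (nat_lit 34) (.e (nat_lit 393251) (nat_lit 18) (.e (nat_lit 164398) (nat_lit 256) (.e (nat_lit 57379) (nat_lit 3) (.e (nat_lit 98365) (nat_lit 26) .nil))))) (.g (nat_lit 0) (.e (nat_lit 323431) (nat_lit 0) .nil) .nil))) 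
(.lf (nat_lit 563923) (.g (nat_lit 1701) (.e (nat_lit 442112) (nat_lit 0) (.e (nat_lit 1659) (nat_lit 115) (.e (nat_lit 393234) (nat_lit 17) (.e (nat_lit 7589) (nat_lit 406) (.e (nat_lit 73472) (nat_lit 28) .nil))))) (.g (nat_lit 0) (.e (nat_lit 324094) (nat_lit 0) .nil) .nil)))) (.nd (nat_lit 9) 
(.lf (nat_lit 563667) (.g (nat_lit 1557) (.e (nat_lit 433920) (nat_lit 34) (.e (nat_lit 393251) (nat_lit 18) (.e (nat_lit 164325) (nat_lit 230) (.e (nat_lit 163873) (nat_lit 3) (.e (nat_lit 204811) (nat_lit 9) .nil))))) (.g (nat_lit 0) (.e (nat_lit 323718) (nat_lit 0) .nil) .nil))) 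
(.lf (nat_lit 564179) (.g (nat_lit 2351) (.e (nat_lit 434212) (nat_lit 18) (.e (nat_lit 6425) (nat_lit 342) (.e (nat_lit 229415) (nat_lit 15) (.e (nat_lit 450561) (nat_lit 0) .nil)))) (.g (nat_lit 0) (.e (nat_lit 325449) (nat_lit 0) .nil) .nil))))))) (.nd (nat_lit 6) (.nd (nat_lit 7) (.nd (nat_lit 8) (.nd (nat_lit 9) 
(.lf (nat_lit 563251) (.g (nat_lit 4523) (.e (nat_lit 426566) (nat_lit 34) (.e (nat_lit 393294) (nat_lit 26) (.e (nat_lit 475179) (nat_lit 24) (.e (nat_lit 516115) (nat_lit 1) (.e (nat_lit 164325) (nat_lit 230) (.e (nat_lit 163906) (nat_lit 12) .nil)))))) (.g (nat_lit 1) (.e (nat_lit 323234) (nat_lit 0) .nil) .nil))) 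
(.lf (nat_lit 563763) (.g (nat_lit 2853) (.e (nat_lit 434180) (nat_lit 0) (.e (nat_lit 1235) (nat_lit 91) (.e (nat_lit 90170) (nat_lit 13) (.e (nat_lit 172113) (nat_lit 10) (.e (nat_lit 434242) (nat_lit 28) (.e (nat_lit 573450) (nat_lit 9) (.e (nat_lit 442) (nat_lit 33) .nil))))))) (.g (nat_lit 1) (.e (nat_lit 323910) (nat_lit 0) .nil) .nil)))) (.nd (nat_lit 9) 
(.lf (nat_lit 563507) (.g (nat_lit 2557) (.e (nat_lit 426568) (nat_lit 34) (.e (nat_lit 393271) (nat_lit 23) (.e (nat_lit 426131) (nat_lit 3) (.e (nat_lit 204829) (nat_lit 18) (.e (nat_lit 57685) (nat_lit 156) .nil))))) (.g (nat_lit 0) (.e (nat_lit 323531) (nat_lit 0) .nil) .nil))) 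
(.lf (nat_lit 564019) (.g (nat_lit 813) (.e (nat_lit 434185) (nat_lit 8) (.e (nat_lit 316) (nat_lit 23) (.e (nat_lit 352307) (nat_lit 21) (.e (nat_lit 57849) (nat_lit 252) .nil)))) (.g (nat_lit 0) (.e (nat_lit 324288) (nat_lit 0) .nil) .nil))))) (.nd (nat_lit 8) (.nd (nat_lit 9) 
(.lf (nat_lit 563379) (.g (nat_lit 2194) (.e (nat_lit 426567) (nat_lit 34) (.e (nat_lit 393294) (nat_lit 26) (.e (nat_lit 475177) (nat_lit 24) (.e (nat_lit 516119) (nat_lit 1) .nil)))) (.g (nat_lit 0) (.e (nat_lit 323390) (nat_lit 0) .nil) .nil))) 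
(.lf (nat_lit 563891) (.g (nat_lit 2953) (.e (nat_lit 434181) (nat_lit 0) (.e (nat_lit 1660) (nat_lit 115) (.e (nat_lit 393238) (nat_lit 17) (.e (nat_lit 6989) (nat_lit 377) (.e (nat_lit 2777) (nat_lit 178) (.e (nat_lit 286770) (nat_lit 28) .nil)))))) (.g (nat_lit 1) (.e (nat_lit 324051) (nat_lit 0) .nil) .nil)))) (.nd (nat_lit 9) 
(.lf (nat_lit 563635) (.g (nat_lit 2404) (.e (nat_lit 426568) (nat_lit 34) (.e (nat_lit 393292) (nat_lit 26) (.e (nat_lit 475179) (nat_lit 24) (.e (nat_lit 516117) (nat_lit 1) (.e (nat_lit 164322) (nat_lit 230) .nil))))) (.g (nat_lit 0) (.e (nat_lit 323676) (nat_lit 0) .nil) .nil))) 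
(.lf (nat_lit 564147) (.g (nat_lit 4017) (.e (nat_lit 434209) (nat_lit 18) (.e (nat_lit 6273) (nat_lit 337) (.e (nat_lit 2646) (nat_lit 166) (.e (nat_lit 188440) (nat_lit 20) (.e (nat_lit 3469) (nat_lit 217) (.e (nat_lit 696344) (nat_lit 8) (.e (nat_lit 172106) (nat_lit 10) .nil))))))) (.g (nat_lit 1) (.e (nat_lit 325323) (nat_lit 0) .nil) .nil)))))) 
(.nd (nat_lit 7) (.nd (nat_lit 8) (.nd (nat_lit 9) 
(.lf (nat_lit 563315) (.g (nat_lit 1573) (.e (nat_lit 426567) (nat_lit 34) (.e (nat_lit 393251) (nat_lit 18) (.e (nat_lit 164325) (nat_lit 230) (.e (nat_lit 163873) (nat_lit 3) .nil)))) (.g (nat_lit 0) (.e (nat_lit 323321) (nat_lit 0) .nil) .nil))) 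
(.lf (nat_lit 563827) (.g (nat_lit 1770) (.e (nat_lit 434181) (nat_lit 0) (.e (nat_lit 1234) (nat_lit 91) (.e (nat_lit 90167) (nat_lit 13) (.e (nat_lit 172126) (nat_lit 14) (.e (nat_lit 491540) (nat_lit 3) .nil))))) (.g (nat_lit 0) (.e (nat_lit 323985) (nat_lit 0) .nil) .nil)))) (.nd (nat_lit 9) 
(.lf (nat_lit 563571) (.g (nat_lit 367) (.e (nat_lit 426568) (nat_lit 34) (.e (nat_lit 393282) (nat_lit 24) (.e (nat_lit 434233) (nat_lit 23) .nil))) (.g (nat_lit 0) (.e (nat_lit 323601) (nat_lit 0) .nil) .nil))) 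
(.lf (nat_lit 564083) (.g (nat_lit 1277) (.e (nat_lit 434207) (nat_lit 18) (.e (nat_lit 6416) (nat_lit 341) (.e (nat_lit 163902) (nat_lit 12) (.e (nat_lit 426233) (nat_lit 9) .nil)))) (.g (nat_lit 0) (.e (nat_lit 324883) (nat_lit 0) .nil) .nil))))) (.nd (nat_lit 8) (.nd (nat_lit 9) 
(.lf (nat_lit 563443) (.g (nat_lit 2439) (.e (nat_lit 426568) (nat_lit 34) (.e (nat_lit 393253) (nat_lit 18) (.e (nat_lit 164324) (nat_lit 230) (.e (nat_lit 163875) (nat_lit 3) (.e (nat_lit 204809) (nat_lit 9) .nil))))) (.g (nat_lit 0) (.e (nat_lit 323464) (nat_lit 0) .nil) .nil))) 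
(.lf (nat_lit 563955) (.g (nat_lit 547) (.e (nat_lit 442112) (nat_lit 5) (.e (nat_lit 73729) (nat_lit 0) (.e (nat_lit 7261) (nat_lit 384) .nil))) (.g (nat_lit 0) (.e (nat_lit 324177) (nat_lit 0) .nil) .nil)))) (.nd (nat_lit 9) 
(.lf (nat_lit 563699) (.g (nat_lit 1006) (.e (nat_lit 433920) (nat_lit 34) (.e (nat_lit 393273) (nat_lit 23) (.e (nat_lit 426131) (nat_lit 3) (.e (nat_lit 204830) (nat_lit 18) .nil)))) (.g (nat_lit 0) (.e (nat_lit 323750) (nat_lit 0) .nil) .nil))) 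
(.lf (nat_lit 564211) (.g (nat_lit 1687) (.e (nat_lit 434216) (nat_lit 18) (.e (nat_lit 5947) (nat_lit 322) (.e (nat_lit 57377) (nat_lit 3) (.e (nat_lit 98365) (nat_lit 26) (.e (nat_lit 426327) (nat_lit 13) .nil))))) (.g (nat_lit 0) (.e (nat_lit 325514) (nat_lit 0) .nil) .nil))))))))) (.nd (nat_lit 4) (.nd (nat_lit 5) (.nd (nat_lit 6) (.nd (nat_lit 7) (.nd (nat_lit 8) (.nd (nat_lit 9) 
(.lf (nat_lit 563211) (.g (nat_lit 1148) (.e (nat_lit 426566) (nat_lit 34) (.e (nat_lit 393294) (nat_lit 26) (.e (nat_lit 475176) (nat_lit 24) (.e (nat_lit 516117) (nat_lit 1) .nil)))) (.g (nat_lit 0) (.e (nat_lit 323193) (nat_lit 0) .nil) .nil))) 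
(.lf (nat_lit 563723) (.g (nat_lit 792) (.e (nat_lit 426572) (nat_lit 35) (.e (nat_lit 401454) (nat_lit 12) (.e (nat_lit 483072) (nat_lit 26) .nil))) (.g (nat_lit 0) (.e (nat_lit 323789) (nat_lit 0) .nil) .nil)))) (.nd (nat_lit 9) 
(.lf (nat_lit 563467) (.g (nat_lit 1245) (.e (nat_lit 426568) (nat_lit 34) (.e (nat_lit 393253) (nat_lit 18) (.e (nat_lit 164332) (nat_lit 230) (.e (nat_lit 163873) (nat_lit 3) .nil)))) (.g (nat_lit 0) (.e (nat_lit 323488) (nat_lit 0) .nil) .nil))) 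
(.lf (nat_lit 563979) (.g (nat_lit 1547) (.e (nat_lit 442112) (nat_lit 5) (.e (nat_lit 73731) (nat_lit 0) (.e (nat_lit 7266) (nat_lit 384) (.e (nat_lit 57423) (nat_lit 14) (.e (nat_lit 360192) (nat_lit 12) .nil))))) (.g (nat_lit 0) (.e (nat_lit 324202) (nat_lit 0) .nil) .nil))))) (.nd (nat_lit 8) (.nd (nat_lit 9) 
(.lf (nat_lit 563339) (.g (nat_lit 2894) (.e (nat_lit 426567) (nat_lit 34) (.e (nat_lit 393253) (nat_lit 18) (.e (nat_lit 164327) (nat_lit 230) (.e (nat_lit 163868) (nat_lit 2) (.e (nat_lit 196656) (nat_lit 11) .nil))))) (.g (nat_lit 0) (.e (nat_lit 323348) (nat_lit 0) .nil) .nil))) 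
(.lf (nat_lit 563851) (.g (nat_lit 2968) (.e (nat_lit 434181) (nat_lit 0) (.e (nat_lit 1253) (nat_lit 92) (.e (nat_lit 98373) (nat_lit 29) (.e (nat_lit 450586) (nat_lit 10) (.e (nat_lit 573452) (nat_lit 9) (.e (nat_lit 7936) (nat_lit 33) .nil)))))) (.g (nat_lit 1) (.e (nat_lit 324009) (nat_lit 0) .nil) .nil)))) (.nd (nat_lit 9) 
(.lf (nat_lit 563595) (.g (nat_lit 1396) (.e (nat_lit 426568) (nat_lit 34) (.e (nat_lit 393283) (nat_lit 24) (.e (nat_lit 434234) (nat_lit 23) (.e (nat_lit 532501) (nat_lit 1) (.e (nat_lit 57692) (nat_lit 156) .nil))))) (.g (nat_lit 0) (.e (nat_lit 323627) (nat_lit 0) .nil) .nil))) 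
(.lf (nat_lit 564107) (.g (nat_lit 877) (.e (nat_lit 434208) (nat_lit 18) (.e (nat_lit 6579) (nat_lit 351) (.e (nat_lit 1126) (nat_lit 83) (.e (nat_lit 16467) (nat_lit 13) (.e (nat_lit 483413) (nat_lit 27) .nil))))) (.g (nat_lit 0) (.e (nat_lit 325051) (nat_lit 0) .nil) .nil)))))) (.nd (nat_lit 7) (.nd (nat_lit 8) (.nd (nat_lit 9) 
(.lf (nat_lit 563275) (.g (nat_lit 2316) (.e (nat_lit 426566) (nat_lit 34) (.e (nat_lit 393296) (nat_lit 26) (.e (nat_lit 475176) (nat_lit 24) (.e (nat_lit 516116) (nat_lit 1) (.e (nat_lit 164332) (nat_lit 230) (.e (nat_lit 163902) (nat_lit 12) .nil)))))) (.g (nat_lit 1) (.e (nat_lit 323259) (nat_lit 0) .nil) .nil))) 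
(.lf (nat_lit 563787) (.g (nat_lit 4139) (.e (nat_lit 434180) (nat_lit 0) (.e (nat_lit 1253) (nat_lit 92) (.e (nat_lit 98373) (nat_lit 29) (.e (nat_lit 450588) (nat_lit 10) (.e (nat_lit 573457) (nat_lit 9) (.e (nat_lit 7936) (nat_lit 33) .nil)))))) (.g (nat_lit 1) (.e (nat_lit 323934) (nat_lit 0) .nil) .nil)))) (.nd (nat_lit 9) 
(.lf (nat_lit 563531) (.g (nat_lit 2281) (.e (nat_lit 426568) (nat_lit 34) (.e (nat_lit 393271) (nat_lit 23) (.e (nat_lit 426436) (nat_lit 18) (.e (nat_lit 98332) (nat_lit 18) .nil)))) (.g (nat_lit 0) (.e (nat_lit 323555) (nat_lit 0) .nil) .nil))) 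
(.lf (nat_lit 564043) (.g (nat_lit 1866) (.e (nat_lit 434197) (nat_lit 16) (.e (nat_lit 164340) (nat_lit 232) (.e (nat_lit 446) (nat_lit 33) (.e (nat_lit 434181) (nat_lit 0) (.e (nat_lit 1427) (nat_lit 108) (.e (nat_lit 336421) (nat_lit 28) .nil)))))) (.g (nat_lit 1) (.e (nat_lit 324516) (nat_lit 0) .nil) .nil))))) (.nd (nat_lit 8) (.nd (nat_lit 9) 
(.lf (nat_lit 563403) (.g (nat_lit 2427) (.e (nat_lit 426568) (nat_lit 34) (.e (nat_lit 393251) (nat_lit 18) (.e (nat_lit 164332) (nat_lit 230) (.e (nat_lit 163869) (nat_lit 2) (.e (nat_lit 196653) (nat_lit 11) .nil))))) (.g (nat_lit 0) (.e (nat_lit 323423) (nat_lit 0) .nil) .nil))) 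
(.lf (nat_lit 563915) (.g (nat_lit 1713) (.e (nat_lit 442112) (nat_lit 0) (.e (nat_lit 1427) (nat_lit 108) (.e (nat_lit 336421) (nat_lit 28) (.e (nat_lit 434198) (nat_lit 17) (.e (nat_lit 229647) (nat_lit 232) .nil))))) (.g (nat_lit 0) (.e (nat_lit 324086) (nat_lit 0) .nil) .nil)))) (.nd (nat_lit 9) 
(.lf (nat_lit 563659) (.g (nat_lit 3468) (.e (nat_lit 426568) (nat_lit 34) (.e (nat_lit 393296) (nat_lit 26) (.e (nat_lit 475179) (nat_lit 24) (.e (nat_lit 516117) (nat_lit 1) (.e (nat_lit 164329) (nat_lit 230) .nil))))) (.g (nat_lit 0) (.e (nat_lit 323701) (nat_lit 0) .nil) .nil))) 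
(.lf (nat_lit 564171) (.g (nat_lit 1800) (.e (nat_lit 434212) (nat_lit 18) (.e (nat_lit 5548) (nat_lit 306) (.e (nat_lit 2638) (nat_lit 165) (.e (nat_lit 180278) (nat_lit 32) (.e (nat_lit 1658) (nat_lit 115) .nil))))) (.g (nat_lit 0) (.e (nat_lit 325439) (nat_lit 0) .nil) .nil))))))) (.nd (nat_lit 6) (.nd (nat_lit 7) (.nd (nat_lit 8) (.nd (nat_lit 9) 
(.lf (nat_lit 563243) (.g (nat_lit 2211) (.e (nat_lit 426566) (nat_lit 34) (.e (nat_lit 393294) (nat_lit 26) (.e (nat_lit 475177) (nat_lit 24) (.e (nat_lit 516119) (nat_lit 1) (.e (nat_lit 164329) (nat_lit 230) (.e (nat_lit 163902) (nat_lit 12) .nil)))))) (.g (nat_lit 1) (.e (nat_lit 323225) (nat_lit 0) .nil) .nil))) 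
(.lf (nat_lit 563755) (.g (nat_lit 2603) (.e (nat_lit 434180) (nat_lit 0) (.e (nat_lit 1234) (nat_lit 91) (.e (nat_lit 90170) (nat_lit 13) (.e (nat_lit 172113) (nat_lit 10) (.e (nat_lit 434245) (nat_lit 28) (.e (nat_lit 573458) (nat_lit 9) (.e (nat_lit 7936) (nat_lit 33) .nil))))))) (.g (nat_lit 1) (.e (nat_lit 323902) (nat_lit 0) .nil) .nil)))) (.nd (nat_lit 9) 
(.lf (nat_lit 563499) (.g (nat_lit 3153) (.e (nat_lit 426568) (nat_lit 34) (.e (nat_lit 393270) (nat_lit 23) (.e (nat_lit 426438) (nat_lit 18) (.e (nat_lit 98333) (nat_lit 18) (.e (nat_lit 164325) (nat_lit 230) (.e (nat_lit 163903) (nat_lit 12) .nil)))))) (.g (nat_lit 1) (.e (nat_lit 323523) (nat_lit 0) .nil) .nil))) 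
(.lf (nat_lit 564011) (.g (nat_lit 1702) (.e (nat_lit 442112) (nat_lit 7) (.e (nat_lit 131140) (nat_lit 27) (.e (nat_lit 426338) (nat_lit 14) (.e (nat_lit 491550) (nat_lit 9) (.e (nat_lit 336421) (nat_lit 28) .nil))))) (.g (nat_lit 0) (.e (nat_lit 324276) (nat_lit 0) .nil) .nil))))) (.nd (nat_lit 8) (.nd (nat_lit 9) 
(.lf (nat_lit 563371) (.g (nat_lit 2223) (.e (nat_lit 426567) (nat_lit 34) (.e (nat_lit 393291) (nat_lit 26) (.e (nat_lit 475179) (nat_lit 24) (.e (nat_lit 516120) (nat_lit 1) (.e (nat_lit 164332) (nat_lit 230) .nil))))) (.g (nat_lit 0) (.e (nat_lit 323382) (nat_lit 0) .nil) .nil))) 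
(.lf (nat_lit 563883) (.g (nat_lit 1920) (.e (nat_lit 434181) (nat_lit 0) (.e (nat_lit 1428) (nat_lit 108) (.e (nat_lit 336421) (nat_lit 28) (.e (nat_lit 434193) (nat_lit 13) (.e (nat_lit 2788) (nat_lit 179) (.e (nat_lit 294973) (nat_lit 28) .nil)))))) (.g (nat_lit 1) (.e (nat_lit 324041) (nat_lit 0) .nil) .nil)))) (.nd (nat_lit 9) 
(.lf (nat_lit 563627) (.g (nat_lit 2655) (.e (nat_lit 426568) (nat_lit 34) (.e (nat_lit 393290) (nat_lit 26) (.e (nat_lit 475179) (nat_lit 24) (.e (nat_lit 516119) (nat_lit 1) (.e (nat_lit 164327) (nat_lit 230) (.e (nat_lit 163903) (nat_lit 12) .nil)))))) (.g (nat_lit 1) (.e (nat_lit 323668) (nat_lit 0) .nil) .nil))) 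
(.lf (nat_lit 564139) (.g (nat_lit 2417) (.e (nat_lit 434209) (nat_lit 18) (.e (nat_lit 5548) (nat_lit 306) (.e (nat_lit 2610) (nat_lit 163) (.e (nat_lit 163979) (nat_lit 30) (.e (nat_lit 573485) (nat_lit 13) .nil))))) (.g (nat_lit 0) (.e (nat_lit 325263) (nat_lit 0) .nil) .nil)))))) (.nd (nat_lit 7) (.nd (nat_lit 8) (.nd (nat_lit 9) 
(.lf (nat_lit 563307) (.g (nat_lit 1075) (.e (nat_lit 426566) (nat_lit 34) (.e (nat_lit 393296) (nat_lit 26) (.e (nat_lit 475179) (nat_lit 24) (.e (nat_lit 516117) (nat_lit 1) .nil)))) (.g (nat_lit 0) (.e (nat_lit 323291) (nat_lit 0) .nil) .nil))) 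
(.lf (nat_lit 563819) (.g (nat_lit 966) (.e (nat_lit 434180) (nat_lit 0) (.e (nat_lit 1659) (nat_lit 115) (.e (nat_lit 393259) (nat_lit 21) (.e (nat_lit 409642) (nat_lit 17) .nil)))) (.g (nat_lit 0) (.e (nat_lit 323971) (nat_lit 0) .nil) .nil)))) (.nd (nat_lit 9) 
(.lf (nat_lit 563563) (.g (nat_lit 1008) (.e (nat_lit 426568) (nat_lit 34) (.e (nat_lit 393282) (nat_lit 24) (.e (nat_lit 434231) (nat_lit 23) (.e (nat_lit 532500) (nat_lit 1) .nil)))) (.g (nat_lit 0) (.e (nat_lit 323593) (nat_lit 0) .nil) .nil))) 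
(.lf (nat_lit 564075) (.g (nat_lit 3728) (.e (nat_lit 434206) (nat_lit 18) (.e (nat_lit 5968) (nat_lit 324) (.e (nat_lit 163871) (nat_lit 2) (.e (nat_lit 196665) (nat_lit 13) (.e (nat_lit 65637) (nat_lit 15) (.e (nat_lit 3748) (nat_lit 228) (.e (nat_lit 786473) (nat_lit 27) (.e (nat_lit 336420) (nat_lit 28) .nil)))))))) (.g (nat_lit 1) (.e (nat_lit 324813) (nat_lit 0) .nil) .nil))))) 
(.nd (nat_lit 8) (.nd (nat_lit 9) 
(.lf (nat_lit 563435) (.g (nat_lit 1444) (.e (nat_lit 426568) (nat_lit 34) (.e (nat_lit 393252) (nat_lit 18) (.e (nat_lit 164402) (nat_lit 256) (.e (nat_lit 57377) (nat_lit 3) (.e (nat_lit 98365) (nat_lit 26) .nil))))) (.g (nat_lit 0) (.e (nat_lit 323455) (nat_lit 0) .nil) .nil))) 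
(.lf (nat_lit 563947) (.g (nat_lit 860) (.e (nat_lit 442112) (nat_lit 4) (.e (nat_lit 65653) (nat_lit 27) (.e (nat_lit 426338) (nat_lit 14) (.e (nat_lit 491550) (nat_lit 9) .nil)))) (.g (nat_lit 0) (.e (nat_lit 324168) (nat_lit 0) .nil) .nil)))) (.nd (nat_lit 9) 
(.lf (nat_lit 563691) (.g (nat_lit 1331) (.e (nat_lit 433920) (nat_lit 34) (.e (nat_lit 393254) (nat_lit 18) (.e (nat_lit 164324) (nat_lit 230) (.e (nat_lit 163873) (nat_lit 3) (.e (nat_lit 204811) (nat_lit 9) .nil))))) (.g (nat_lit 0) (.e (nat_lit 323742) (nat_lit 0) .nil) .nil))) 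
(.lf (nat_lit 564203) (.g (nat_lit 1747) (.e (nat_lit 434214) (nat_lit 18) (.e (nat_lit 5944) (nat_lit 322) (.e (nat_lit 57377) (nat_lit 3) (.e (nat_lit 98365) (nat_lit 26) (.e (nat_lit 426188) (nat_lit 9) .nil))))) (.g (nat_lit 0) (.e (nat_lit 325500) (nat_lit 0) .nil) .nil)))))))) (.nd (nat_lit 5) (.nd (nat_lit 6) (.nd (nat_lit 7) (.nd (nat_lit 8) (.nd (nat_lit 9) 
(.lf (nat_lit 563227) (.g (nat_lit 2303) (.e (nat_lit 426566) (nat_lit 34) (.e (nat_lit 393294) (nat_lit 26) (.e (nat_lit 475177) (nat_lit 24) (.e (nat_lit 516115) (nat_lit 1) (.e (nat_lit 164330) (nat_lit 230) .nil))))) (.g (nat_lit 0) (.e (nat_lit 323209) (nat_lit 0) .nil) .nil))) 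
(.lf (nat_lit 563739) (.g (nat_lit 1883) (.e (nat_lit 434177) (nat_lit 0) (.e (nat_lit 1234) (nat_lit 91) (.e (nat_lit 90174) (nat_lit 14) (.e (nat_lit 180277) (nat_lit 32) .nil)))) (.g (nat_lit 0) (.e (nat_lit 323809) (nat_lit 0) .nil) .nil)))) (.nd (nat_lit 9) 
(.lf (nat_lit 563483) (.g (nat_lit 3002) (.e (nat_lit 426568) (nat_lit 34) (.e (nat_lit 393260) (nat_lit 21) (.e (nat_lit 409617) (nat_lit 10) (.e (nat_lit 604) (nat_lit 45) (.e (nat_lit 532513) (nat_lit 3) (.e (nat_lit 122624) (nat_lit 11) .nil)))))) (.g (nat_lit 1) (.e (nat_lit 323505) (nat_lit 0) .nil) .nil))) 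
(.lf (nat_lit 563995) (.g (nat_lit 1641) (.e (nat_lit 442112) (nat_lit 5) (.e (nat_lit 73775) (nat_lit 26) (.e (nat_lit 778466) (nat_lit 11) (.e (nat_lit 24631) (nat_lit 9) (.e (nat_lit 343808) (nat_lit 28) .nil))))) (.g (nat_lit 0) (.e (nat_lit 324239) (nat_lit 0) .nil) .nil))))) (.nd (nat_lit 8) (.nd (nat_lit 9) 
(.lf (nat_lit 563355) (.g (nat_lit 3166) (.e (nat_lit 426567) (nat_lit 34) (.e (nat_lit 393270) (nat_lit 23) (.e (nat_lit 426438) (nat_lit 18) (.e (nat_lit 98335) (nat_lit 18) (.e (nat_lit 164327) (nat_lit 230) (.e (nat_lit 163903) (nat_lit 12) .nil)))))) (.g (nat_lit 1) (.e (nat_lit 323365) (nat_lit 0) .nil) .nil))) 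
(.lf (nat_lit 563867) (.g (nat_lit 1067) (.e (nat_lit 434181) (nat_lit 0) (.e (nat_lit 1425) (nat_lit 108) (.e (nat_lit 336421) (nat_lit 28) (.e (nat_lit 434189) (nat_lit 13) (.e (nat_lit 2788) (nat_lit 179) (.e (nat_lit 294973) (nat_lit 28) .nil)))))) (.g (nat_lit 1) (.e (nat_lit 324025) (nat_lit 0) .nil) .nil)))) (.nd (nat_lit 9) 
(.lf (nat_lit 563611) (.g (nat_lit 3347) (.e (nat_lit 426568) (nat_lit 34) (.e (nat_lit 393286) (nat_lit 25) (.e (nat_lit 458789) (nat_lit 23) (.e (nat_lit 532501) (nat_lit 1) (.e (nat_lit 57691) (nat_lit 156) (.e (nat_lit 163905) (nat_lit 12) .nil)))))) (.g (nat_lit 1) (.e (nat_lit 323650) (nat_lit 0) .nil) .nil))) 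
(.lf (nat_lit 564123) (.g (nat_lit 4501) (.e (nat_lit 434209) (nat_lit 18) (.e (nat_lit 5546) (nat_lit 306) (.e (nat_lit 2600) (nat_lit 163) (.e (nat_lit 163977) (nat_lit 30) (.e (nat_lit 573482) (nat_lit 13) (.e (nat_lit 65604) (nat_lit 9) (.e (nat_lit 336028) (nat_lit 3) (.e (nat_lit 98367) (nat_lit 27) .nil)))))))) (.g (nat_lit 1) (.e (nat_lit 325161) (nat_lit 0) .nil) .nil)))))) 
(.nd (nat_lit 7) (.nd (nat_lit 8) (.nd (nat_lit 9) 
(.lf (nat_lit 563291) (.g (nat_lit 4502) (.e (nat_lit 426566) (nat_lit 34) (.e (nat_lit 393296) (nat_lit 26) (.e (nat_lit 475178) (nat_lit 24) (.e (nat_lit 516115) (nat_lit 1) (.e (nat_lit 164327) (nat_lit 230) (.e (nat_lit 163903) (nat_lit 12) .nil)))))) (.g (nat_lit 1) (.e (nat_lit 323275) (nat_lit 0) .nil) .nil))) 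
(.lf (nat_lit 563803) (.g (nat_lit 2042) (.e (nat_lit 434180) (nat_lit 0) (.e (nat_lit 1427) (nat_lit 108) (.e (nat_lit 336421) (nat_lit 28) (.e (nat_lit 434193) (nat_lit 13) (.e (nat_lit 2788) (nat_lit 179) (.e (nat_lit 294973) (nat_lit 28) .nil)))))) (.g (nat_lit 1) (.e (nat_lit 323950) (nat_lit 0) .nil) .nil)))) (.nd (nat_lit 9) 
(.lf (nat_lit 563547) (.g (nat_lit 2994) (.e (nat_lit 426568) (nat_lit 34) (.e (nat_lit 393281) (nat_lit 23) (.e (nat_lit 426133) (nat_lit 3) (.e (nat_lit 204830) (nat_lit 18) (.e (nat_lit 57691) (nat_lit 156) (.e (nat_lit 163907) (nat_lit 12) .nil)))))) (.g (nat_lit 1) (.e (nat_lit 323577) (nat_lit 0) .nil) .nil))) 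
(.lf (nat_lit 564059) (.g (nat_lit 1895) (.e (nat_lit 434202) (nat_lit 18) (.e (nat_lit 6420) (nat_lit 341) (.e (nat_lit 163902) (nat_lit 12) (.e (nat_lit 426254) (nat_lit 9) (.e (nat_lit 426503) (nat_lit 27) .nil))))) (.g (nat_lit 0) (.e (nat_lit 324704) (nat_lit 0) .nil) .nil))))) (.nd (nat_lit 8) (.nd (nat_lit 9) 
(.lf (nat_lit 563419) (.g (nat_lit 2028) (.e (nat_lit 426568) (nat_lit 34) (.e (nat_lit 393252) (nat_lit 18) (.e (nat_lit 164330) (nat_lit 230) (.e (nat_lit 163867) (nat_lit 2) (.e (nat_lit 196652) (nat_lit 11) .nil))))) (.g (nat_lit 0) (.e (nat_lit 323439) (nat_lit 0) .nil) .nil))) 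
(.lf (nat_lit 563931) (.g (nat_lit 1382) (.e (nat_lit 442112) (nat_lit 4) (.e (nat_lit 65647) (nat_lit 25) (.e (nat_lit 409602) (nat_lit 0) (.e (nat_lit 5293) (nat_lit 298) (.e (nat_lit 1423) (nat_lit 108) .nil))))) (.g (nat_lit 0) (.e (nat_lit 324122) (nat_lit 0) .nil) .nil)))) (.nd (nat_lit 9) 
(.lf (nat_lit 563675) (.g (nat_lit 1121) (.e (nat_lit 433920) (nat_lit 34) (.e (nat_lit 393252) (nat_lit 18) (.e (nat_lit 164330) (nat_lit 230) (.e (nat_lit 163873) (nat_lit 3) .nil)))) (.g (nat_lit 0) (.e (nat_lit 323726) (nat_lit 0) .nil) .nil))) 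
(.lf (nat_lit 564187) (.g (nat_lit 2573) (.e (nat_lit 434212) (nat_lit 18) (.e (nat_lit 6425) (nat_lit 342) (.e (nat_lit 229415) (nat_lit 15) (.e (nat_lit 450563) (nat_lit 0) (.e (nat_lit 6416) (nat_lit 341) (.e (nat_lit 163908) (nat_lit 12) (.e (nat_lit 426282) (nat_lit 10) .nil))))))) (.g (nat_lit 1) (.e (nat_lit 325457) (nat_lit 0) .nil) .nil))))))) 
(.nd (nat_lit 6) (.nd (nat_lit 7) (.nd (nat_lit 8) (.nd (nat_lit 9) 
(.lf (nat_lit 563259) (.g (nat_lit 2938) (.e (nat_lit 426566) (nat_lit 34) (.e (nat_lit 393294) (nat_lit 26) (.e (nat_lit 475179) (nat_lit 24) (.e (nat_lit 516119) (nat_lit 1) (.e (nat_lit 164331) (nat_lit 230) (.e (nat_lit 163902) (nat_lit 12) .nil)))))) (.g (nat_lit 1) (.e (nat_lit 323242) (nat_lit 0) .nil) .nil))) 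
(.lf (nat_lit 563771) (.g (nat_lit 2840) (.e (nat_lit 434180) (nat_lit 0) (.e (nat_lit 1252) (nat_lit 92) (.e (nat_lit 98373) (nat_lit 29) (.e (nat_lit 450587) (nat_lit 10) (.e (nat_lit 573456) (nat_lit 9) (.e (nat_lit 7936) (nat_lit 33) .nil)))))) (.g (nat_lit 1) (.e (nat_lit 323918) (nat_lit 0) .nil) .nil)))) (.nd (nat_lit 9) 
(.lf (nat_lit 563515) (.g (nat_lit 1471) (.e (nat_lit 426568) (nat_lit 34) (.e (nat_lit 393271) (nat_lit 23) (.e (nat_lit 426131) (nat_lit 3) (.e (nat_lit 204830) (nat_lit 18) (.e (nat_lit 57663) (nat_lit 152) .nil))))) (.g (nat_lit 0) (.e (nat_lit 323539) (nat_lit 0) .nil) .nil))) 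
(.lf (nat_lit 564027) (.g (nat_lit 1797) (.e (nat_lit 442112) (nat_lit 9) (.e (nat_lit 8320) (nat_lit 64) (.e (nat_lit 516117) (nat_lit 1) (.e (nat_lit 164329) (nat_lit 230) (.e (nat_lit 163902) (nat_lit 12) .nil))))) (.g (nat_lit 0) (.e (nat_lit 324316) (nat_lit 0) .nil) .nil))))) (.nd (nat_lit 8) (.nd (nat_lit 9) 
(.lf (nat_lit 563387) (.g (nat_lit 1685) (.e (nat_lit 426567) (nat_lit 34) (.e (nat_lit 393294) (nat_lit 26) (.e (nat_lit 475179) (nat_lit 24) (.e (nat_lit 516120) (nat_lit 1) .nil)))) (.g (nat_lit 0) (.e (nat_lit 323398) (nat_lit 0) .nil) .nil))) 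
(.lf (nat_lit 563899) (.g (nat_lit 1568) (.e (nat_lit 434181) (nat_lit 0) (.e (nat_lit 1661) (nat_lit 115) (.e (nat_lit 393238) (nat_lit 17) (.e (nat_lit 7559) (nat_lit 402) .nil)))) (.g (nat_lit 0) (.e (nat_lit 324059) (nat_lit 0) .nil) .nil)))) (.nd (nat_lit 9) 
(.lf (nat_lit 563643) (.g (nat_lit 2544) (.e (nat_lit 426568) (nat_lit 34) (.e (nat_lit 393293) (nat_lit 26) (.e (nat_lit 475179) (nat_lit 24) (.e (nat_lit 516119) (nat_lit 1) (.e (nat_lit 164327) (nat_lit 230) (.e (nat_lit 163903) (nat_lit 12) .nil)))))) (.g (nat_lit 1) (.e (nat_lit 323684) (nat_lit 0) .nil) .nil))) 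
(.lf (nat_lit 564155) (.g (nat_lit 2078) (.e (nat_lit 434209) (nat_lit 18) (.e (nat_lit 6792) (nat_lit 365) (.e (nat_lit 1221) (nat_lit 90) (.e (nat_lit 81959) (nat_lit 24) (.e (nat_lit 123020) (nat_lit 122) .nil))))) (.g (nat_lit 0) (.e (nat_lit 325378) (nat_lit 0) .nil) .nil)))))) (.nd (nat_lit 7) (.nd (nat_lit 8) (.nd (nat_lit 9) 
(.lf (nat_lit 563323) (.g (nat_lit 2717) (.e (nat_lit 426567) (nat_lit 34) (.e (nat_lit 393251) (nat_lit 18) (.e (nat_lit 164332) (nat_lit 230) (.e (nat_lit 163869) (nat_lit 2) (.e (nat_lit 196656) (nat_lit 11) .nil))))) (.g (nat_lit 0) (.e (nat_lit 323332) (nat_lit 0) .nil) .nil))) 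
(.lf (nat_lit 563835) (.g (nat_lit 1941) (.e (nat_lit 434181) (nat_lit 0) (.e (nat_lit 1234) (nat_lit 91) (.e (nat_lit 90170) (nat_lit 13) (.e (nat_lit 172113) (nat_lit 10) (.e (nat_lit 434248) (nat_lit 28) (.e (nat_lit 573455) (nat_lit 9) (.e (nat_lit 7936) (nat_lit 33) .nil))))))) (.g (nat_lit 1) (.e (nat_lit 323993) (nat_lit 0) .nil) .nil)))) (.nd (nat_lit 9) 
(.lf (nat_lit 563579) (.g (nat_lit 2477) (.e (nat_lit 426568) (nat_lit 34) (.e (nat_lit 393283) (nat_lit 24) (.e (nat_lit 434231) (nat_lit 23) (.e (nat_lit 532499) (nat_lit 1) (.e (nat_lit 57687) (nat_lit 156) (.e (nat_lit 163902) (nat_lit 12) .nil)))))) (.g (nat_lit 1) (.e (nat_lit 323611) (nat_lit 0) .nil) .nil))) 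
(.lf (nat_lit 564091) (.g (nat_lit 2584) (.e (nat_lit 434208) (nat_lit 18) (.e (nat_lit 5945) (nat_lit 322) (.e (nat_lit 57377) (nat_lit 3) (.e (nat_lit 98365) (nat_lit 26) (.e (nat_lit 426325) (nat_lit 13) (.e (nat_lit 491264) (nat_lit 10) .nil)))))) (.g (nat_lit 1) (.e (nat_lit 324949) (nat_lit 0) .nil) .nil))))) (.nd (nat_lit 8) (.nd (nat_lit 9) 
(.lf (nat_lit 563451) (.g (nat_lit 1911) (.e (nat_lit 426568) (nat_lit 34) (.e (nat_lit 393253) (nat_lit 18) (.e (nat_lit 164326) (nat_lit 230) (.e (nat_lit 163874) (nat_lit 3) (.e (nat_lit 204813) (nat_lit 9) .nil))))) (.g (nat_lit 0) (.e (nat_lit 323472) (nat_lit 0) .nil) .nil))) 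
(.lf (nat_lit 563963) (.g (nat_lit 2012) (.e (nat_lit 442112) (nat_lit 5) (.e (nat_lit 73729) (nat_lit 0) (.e (nat_lit 7265) (nat_lit 384) (.e (nat_lit 57424) (nat_lit 14) (.e (nat_lit 360192) (nat_lit 12) .nil))))) (.g (nat_lit 0) (.e (nat_lit 324185) (nat_lit 0) .nil) .nil)))) (.nd (nat_lit 9) 
(.lf (nat_lit 563707) (.g (nat_lit 1490) (.e (nat_lit 426569) (nat_lit 35) (.e (nat_lit 401453) (nat_lit 12) (.e (nat_lit 475181) (nat_lit 27) (.e (nat_lit 540703) (nat_lit 11) (.e (nat_lit 360192) (nat_lit 11) .nil))))) (.g (nat_lit 1) (.e (nat_lit 323764) (nat_lit 0) .nil) .nil))) 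
(.lf (nat_lit 564219) (.g (nat_lit 2097) (.e (nat_lit 434217) (nat_lit 19) (.e (nat_lit 500046) (nat_lit 16) (.e (nat_lit 16412) (nat_lit 2) (.e (nat_lit 196654) (nat_lit 11) (.e (nat_lit 16415) (nat_lit 3) .nil))))) (.g (nat_lit 0) (.e (nat_lit 325540) (nat_lit 0) .nil) .nil)))))))))) 
(.nd (nat_lit 3) (.nd (nat_lit 4) (.nd (nat_lit 5) (.nd (nat_lit 6) (.nd (nat_lit 7) 
(.nd (nat_lit 8) (.nd (nat_lit 9) 
(.lf (nat_lit 563207) (.g (nat_lit 2522) (.e (nat_lit 426566) (nat_lit 34) (.e (nat_lit 393294) (nat_lit 26) (.e (nat_lit 475175) (nat_lit 24) (.e (nat_lit 516119) (nat_lit 1) (.e (nat_lit 164322) (nat_lit 230) (.e (nat_lit 163904) (nat_lit 12) .nil)))))) (.g (nat_lit 1) (.e (nat_lit 323189) (nat_lit 0) .nil) .nil))) 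
(.lf (nat_lit 563719) (.g (nat_lit 1364) (.e (nat_lit 426571) (nat_lit 35) (.e (nat_lit 401434) (nat_lit 9) (.e (nat_lit 426125) (nat_lit 2) (.e (nat_lit 204544) (nat_lit 2) .nil)))) (.g (nat_lit 0) (.e (nat_lit 323782) (nat_lit 0) .nil) .nil)))) (.nd (nat_lit 9) 
(.lf (nat_lit 563463) (.g (nat_lit 2028) (.e (nat_lit 426568) (nat_lit 34) (.e (nat_lit 393253) (nat_lit 18) (.e (nat_lit 164331) (nat_lit 230) (.e (nat_lit 163867) (nat_lit 2) (.e (nat_lit 196652) (nat_lit 11) .nil))))) (.g (nat_lit 0) (.e (nat_lit 323484) (nat_lit 0) .nil) .nil))) 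
(.lf (nat_lit 563975) (.g (nat_lit 331) (.e (nat_lit 442112) (nat_lit 5) (.e (nat_lit 73731) (nat_lit 0) (.e (nat_lit 7263) (nat_lit 384) .nil))) (.g (nat_lit 0) (.e (nat_lit 324197) (nat_lit 0) .nil) .nil))))) (.nd (nat_lit 8) (.nd (nat_lit 9) 
(.lf (nat_lit 563335) (.g (nat_lit 627) (.e (nat_lit 426567) (nat_lit 34) (.e (nat_lit 393252) (nat_lit 18) (.e (nat_lit 164399) (nat_lit 256) .nil))) (.g (nat_lit 0) (.e (nat_lit 323344) (nat_lit 0) .nil) .nil))) 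
(.lf (nat_lit 563847) (.g (nat_lit 2871) (.e (nat_lit 434181) (nat_lit 0) (.e (nat_lit 1252) (nat_lit 92) (.e (nat_lit 98373) (nat_lit 29) (.e (nat_lit 450587) (nat_lit 10) (.e (nat_lit 573456) (nat_lit 9) (.e (nat_lit 7936) (nat_lit 33) .nil)))))) (.g (nat_lit 1) (.e (nat_lit 324005) (nat_lit 0) .nil) .nil)))) (.nd (nat_lit 9) 
(.lf (nat_lit 563591) (.g (nat_lit 3644) (.e (nat_lit 426568) (nat_lit 34) (.e (nat_lit 393283) (nat_lit 24) (.e (nat_lit 434232) (nat_lit 23) (.e (nat_lit 532504) (nat_lit 1) (.e (nat_lit 57691) (nat_lit 156) (.e (nat_lit 163907) (nat_lit 12) .nil)))))) (.g (nat_lit 1) (.e (nat_lit 323623) (nat_lit 0) .nil) .nil))) 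
(.lf (nat_lit 564103) (.g (nat_lit 1390) (.e (nat_lit 434208) (nat_lit 18) (.e (nat_lit 6420) (nat_lit 341) (.e (nat_lit 163902) (nat_lit 12) (.e (nat_lit 426436) (nat_lit 18) .nil)))) (.g (nat_lit 0) (.e (nat_lit 325017) (nat_lit 0) .nil) .nil)))))) (.nd (nat_lit 7) (.nd (nat_lit 8) (.nd (nat_lit 9) 
(.lf (nat_lit 563271) (.g (nat_lit 2538) (.e (nat_lit 426566) (nat_lit 34) (.e (nat_lit 393296) (nat_lit 26) (.e (nat_lit 475175) (nat_lit 24) (.e (nat_lit 516120) (nat_lit 1) (.e (nat_lit 164332) (nat_lit 230) (.e (nat_lit 163902) (nat_lit 12) .nil)))))) (.g (nat_lit 1) (.e (nat_lit 323255) (nat_lit 0) .nil) .nil))) 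
(.lf (nat_lit 563783) (.g (nat_lit 4567) (.e (nat_lit 434180) (nat_lit 0) (.e (nat_lit 1253) (nat_lit 92) (.e (nat_lit 98373) (nat_lit 29) (.e (nat_lit 450587) (nat_lit 10) (.e (nat_lit 573461) (nat_lit 9) (.e (nat_lit 7936) (nat_lit 33) .nil)))))) (.g (nat_lit 1) (.e (nat_lit 323930) (nat_lit 0) .nil) .nil)))) (.nd (nat_lit 9) 
(.lf (nat_lit 563527) (.g (nat_lit 3902) (.e (nat_lit 426568) (nat_lit 34) (.e (nat_lit 393271) (nat_lit 23) (.e (nat_lit 426131) (nat_lit 3) (.e (nat_lit 204831) (nat_lit 18) (.e (nat_lit 57688) (nat_lit 156) (.e (nat_lit 163907) (nat_lit 12) .nil)))))) (.g (nat_lit 1) (.e (nat_lit 323551) (nat_lit 0) .nil) .nil))) 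
(.lf (nat_lit 564039) (.g (nat_lit 373) (.e (nat_lit 434193) (nat_lit 13) (.e (nat_lit 2789) (nat_lit 179) (.e (nat_lit 294969) (nat_lit 27) .nil))) (.g (nat_lit 0) (.e (nat_lit 324493) (nat_lit 0) .nil) .nil))))) (.nd (nat_lit 8) (.nd (nat_lit 9) 
(.lf (nat_lit 563399) (.g (nat_lit 1872) (.e (nat_lit 426568) (nat_lit 34) (.e (nat_lit 393251) (nat_lit 18) (.e (nat_lit 164330) (nat_lit 230) (.e (nat_lit 163873) (nat_lit 3) .nil)))) (.g (nat_lit 0) (.e (nat_lit 323419) (nat_lit 0) .nil) .nil))) 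
(.lf (nat_lit 563911) (.g (nat_lit 1363) (.e (nat_lit 442112) (nat_lit 0) (.e (nat_lit 1427) (nat_lit 108) (.e (nat_lit 336421) (nat_lit 28) (.e (nat_lit 434197) (nat_lit 16) .nil)))) (.g (nat_lit 0) (.e (nat_lit 324082) (nat_lit 0) .nil) .nil)))) (.nd (nat_lit 9) 
(.lf (nat_lit 563655) (.g (nat_lit 2988) (.e (nat_lit 426568) (nat_lit 34) (.e (nat_lit 393294) (nat_lit 26) (.e (nat_lit 475179) (nat_lit 24) (.e (nat_lit 516119) (nat_lit 1) (.e (nat_lit 164327) (nat_lit 230) (.e (nat_lit 163903) (nat_lit 12) .nil)))))) (.g (nat_lit 1) (.e (nat_lit 323697) (nat_lit 0) .nil) .nil))) 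
(.lf (nat_lit 564167) (.g (nat_lit 1962) (.e (nat_lit 434212) (nat_lit 18) (.e (nat_lit 5547) (nat_lit 306) (.e (nat_lit 2638) (nat_lit 165) (.e (nat_lit 180278) (nat_lit 32) (.e (nat_lit 1661) (nat_lit 115) .nil))))) (.g (nat_lit 0) (.e (nat_lit 325434) (nat_lit 0) .nil) .nil))))))) (.nd (nat_lit 6) (.nd (nat_lit 7) (.nd (nat_lit 8) (.nd (nat_lit 9) 
(.lf (nat_lit 563239) (.g (nat_lit 2816) (.e (nat_lit 426566) (nat_lit 34) (.e (nat_lit 393294) (nat_lit 26) (.e (nat_lit 475177) (nat_lit 24) (.e (nat_lit 516118) (nat_lit 1) (.e (nat_lit 164329) (nat_lit 230) (.e (nat_lit 163902) (nat_lit 12) .nil)))))) (.g (nat_lit 1) (.e (nat_lit 323221) (nat_lit 0) .nil) .nil))) 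
(.lf (nat_lit 563751) (.g (nat_lit 2811) (.e (nat_lit 434180) (nat_lit 0) (.e (nat_lit 1234) (nat_lit 91) (.e (nat_lit 90170) (nat_lit 13) (.e (nat_lit 172106) (nat_lit 10) (.e (nat_lit 434244) (nat_lit 28) (.e (nat_lit 573451) (nat_lit 9) (.e (nat_lit 7936) (nat_lit 33) .nil))))))) (.g (nat_lit 1) (.e (nat_lit 323898) (nat_lit 0) .nil) .nil)))) (.nd (nat_lit 9) 
(.lf (nat_lit 563495) (.g (nat_lit 609) (.e (nat_lit 426568) (nat_lit 34) (.e (nat_lit 393268) (nat_lit 23) (.e (nat_lit 426434) (nat_lit 18) .nil))) (.g (nat_lit 0) (.e (nat_lit 323519) (nat_lit 0) .nil) .nil))) 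
(.lf (nat_lit 564007) (.g (nat_lit 1565) (.e (nat_lit 442112) (nat_lit 7) (.e (nat_lit 131140) (nat_lit 27) (.e (nat_lit 426308) (nat_lit 12) (.e (nat_lit 475210) (nat_lit 41) (.e (nat_lit 712749) (nat_lit 28) .nil))))) (.g (nat_lit 0) (.e (nat_lit 324271) (nat_lit 0) .nil) .nil))))) (.nd (nat_lit 8) (.nd (nat_lit 9) 
(.lf (nat_lit 563367) (.g (nat_lit 2685) (.e (nat_lit 426567) (nat_lit 34) (.e (nat_lit 393291) (nat_lit 26) (.e (nat_lit 475179) (nat_lit 24) (.e (nat_lit 516115) (nat_lit 1) (.e (nat_lit 164327) (nat_lit 230) .nil))))) (.g (nat_lit 0) (.e (nat_lit 323378) (nat_lit 0) .nil) .nil))) 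
(.lf (nat_lit 563879) (.g (nat_lit 1152) (.e (nat_lit 434181) (nat_lit 0) (.e (nat_lit 1428) (nat_lit 108) (.e (nat_lit 336421) (nat_lit 28) (.e (nat_lit 434186) (nat_lit 13) .nil)))) (.g (nat_lit 0) (.e (nat_lit 324037) (nat_lit 0) .nil) .nil)))) (.nd (nat_lit 9) 
(.lf (nat_lit 563623) (.g (nat_lit 2255) (.e (nat_lit 426568) (nat_lit 34) (.e (nat_lit 393287) (nat_lit 25) (.e (nat_lit 458789) (nat_lit 23) (.e (nat_lit 532503) (nat_lit 1) (.e (nat_lit 57685) (nat_lit 156) (.e (nat_lit 163903) (nat_lit 12) .nil)))))) (.g (nat_lit 1) (.e (nat_lit 323664) (nat_lit 0) .nil) .nil))) 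
(.lf (nat_lit 564135) (.g (nat_lit 3499) (.e (nat_lit 434209) (nat_lit 18) (.e (nat_lit 5547) (nat_lit 306) (.e (nat_lit 2638) (nat_lit 165) (.e (nat_lit 180278) (nat_lit 32) (.e (nat_lit 1661) (nat_lit 115) (.e (nat_lit 393282) (nat_lit 24) .nil)))))) (.g (nat_lit 1) (.e (nat_lit 325234) (nat_lit 0) .nil) .nil)))))) (.nd (nat_lit 7) (.nd (nat_lit 8) (.nd (nat_lit 9) 
(.lf (nat_lit 563303) (.g (nat_lit 1845) (.e (nat_lit 426566) (nat_lit 34) (.e (nat_lit 393296) (nat_lit 26) (.e (nat_lit 475179) (nat_lit 24) (.e (nat_lit 516106) (nat_lit 0) .nil)))) (.g (nat_lit 0) (.e (nat_lit 323287) (nat_lit 0) .nil) .nil))) 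
(.lf (nat_lit 563815) (.g (nat_lit 1876) (.e (nat_lit 434180) (nat_lit 0) (.e (nat_lit 1428) (nat_lit 108) (.e (nat_lit 336421) (nat_lit 28) (.e (nat_lit 434193) (nat_lit 13) (.e (nat_lit 2789) (nat_lit 179) (.e (nat_lit 294973) (nat_lit 28) .nil)))))) (.g (nat_lit 1) (.e (nat_lit 323963) (nat_lit 0) .nil) .nil)))) (.nd (nat_lit 9) 
(.lf (nat_lit 563559) (.g (nat_lit 2657) (.e (nat_lit 426568) (nat_lit 34) (.e (nat_lit 393282) (nat_lit 24) (.e (nat_lit 434231) (nat_lit 23) (.e (nat_lit 532499) (nat_lit 1) (.e (nat_lit 57687) (nat_lit 156) (.e (nat_lit 163902) (nat_lit 12) .nil)))))) (.g (nat_lit 1) (.e (nat_lit 323589) (nat_lit 0) .nil) .nil))) 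
(.lf (nat_lit 564071) (.g (nat_lit 1403) (.e (nat_lit 434203) (nat_lit 18) (.e (nat_lit 6420) (nat_lit 341) (.e (nat_lit 163902) (nat_lit 12) (.e (nat_lit 426233) (nat_lit 9) .nil)))) (.g (nat_lit 0) (.e (nat_lit 324790) (nat_lit 0) .nil) .nil))))) (.nd (nat_lit 8) (.nd (nat_lit 9) 
(.lf (nat_lit 563431) (.g (nat_lit 1855) (.e (nat_lit 426568) (nat_lit 34) (.e (nat_lit 393252) (nat_lit 18) (.e (nat_lit 164399) (nat_lit 256) (.e (nat_lit 57379) (nat_lit 3) (.e (nat_lit 98354) (nat_lit 26) .nil))))) (.g (nat_lit 0) (.e (nat_lit 323451) (nat_lit 0) .nil) .nil))) 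
(.lf (nat_lit 563943) (.g (nat_lit 1163) (.e (nat_lit 442112) (nat_lit 4) (.e (nat_lit 65653) (nat_lit 27) (.e (nat_lit 426308) (nat_lit 12) (.e (nat_lit 475207) (nat_lit 41) (.e (nat_lit 712747) (nat_lit 28) .nil))))) (.g (nat_lit 0) (.e (nat_lit 324164) (nat_lit 0) .nil) .nil)))) (.nd (nat_lit 9) 
(.lf (nat_lit 563687) (.g (nat_lit 1792) (.e (nat_lit 433920) (nat_lit 34) (.e (nat_lit 393253) (nat_lit 18) (.e (nat_lit 164332) (nat_lit 230) (.e (nat_lit 163869) (nat_lit 2) (.e (nat_lit 196656) (nat_lit 11) .nil))))) (.g (nat_lit 0) (.e (nat_lit 323738) (nat_lit 0) .nil) .nil))) 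
(.lf (nat_lit 564199) (.g (nat_lit 2269) (.e (nat_lit 434212) (nat_lit 18) (.e (nat_lit 6425) (nat_lit 342) (.e (nat_lit 229415) (nat_lit 15) (.e (nat_lit 458496) (nat_lit 22) .nil)))) (.g (nat_lit 0) (.e (nat_lit 325470) (nat_lit 0) .nil) .nil)))))))) (.nd (nat_lit 5) (.nd (nat_lit 6) (.nd (nat_lit 7) (.nd (nat_lit 8) (.nd (nat_lit 9) 
(.lf (nat_lit 563223) (.g (nat_lit 3857) (.e (nat_lit 426566) (nat_lit 34) (.e (nat_lit 393294) (nat_lit 26) (.e (nat_lit 475177) (nat_lit 24) (.e (nat_lit 516115) (nat_lit 1) (.e (nat_lit 164325) (nat_lit 230) (.e (nat_lit 163901) (nat_lit 12) .nil)))))) (.g (nat_lit 1) (.e (nat_lit 323205) (nat_lit 0) .nil) .nil))) 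
(.lf (nat_lit 563735) (.g (nat_lit 2905) (.e (nat_lit 433920) (nat_lit 35) (.e (nat_lit 401454) (nat_lit 12) (.e (nat_lit 475179) (nat_lit 24) (.e (nat_lit 516119) (nat_lit 1) (.e (nat_lit 164345) (nat_lit 240) .nil))))) (.g (nat_lit 0) (.e (nat_lit 323805) (nat_lit 0) .nil) .nil)))) (.nd (nat_lit 9) 
(.lf (nat_lit 563479) (.g (nat_lit 1577) (.e (nat_lit 426568) (nat_lit 34) (.e (nat_lit 393260) (nat_lit 21) (.e (nat_lit 409612) (nat_lit 10) (.e (nat_lit 604) (nat_lit 45) .nil)))) (.g (nat_lit 0) (.e (nat_lit 323501) (nat_lit 0) .nil) .nil))) 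
(.lf (nat_lit 563991) (.g (nat_lit 294) (.e (nat_lit 442112) (nat_lit 5) (.e (nat_lit 73775) (nat_lit 26) (.e (nat_lit 778466) (nat_lit 11) .nil))) (.g (nat_lit 0) (.e (nat_lit 324233) (nat_lit 0) .nil) .nil))))) (.nd (nat_lit 8) (.nd (nat_lit 9) 
(.lf (nat_lit 563351) (.g (nat_lit 3719) (.e (nat_lit 426567) (nat_lit 34) (.e (nat_lit 393268) (nat_lit 23) (.e (nat_lit 426438) (nat_lit 18) (.e (nat_lit 98335) (nat_lit 18) (.e (nat_lit 164327) (nat_lit 230) (.e (nat_lit 163903) (nat_lit 12) .nil)))))) (.g (nat_lit 1) (.e (nat_lit 323361) (nat_lit 0) .nil) .nil))) 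
(.lf (nat_lit 563863) (.g (nat_lit 3835) (.e (nat_lit 434181) (nat_lit 0) (.e (nat_lit 1253) (nat_lit 92) (.e (nat_lit 98373) (nat_lit 29) (.e (nat_lit 450588) (nat_lit 10) (.e (nat_lit 573458) (nat_lit 9) .nil))))) (.g (nat_lit 0) (.e (nat_lit 324021) (nat_lit 0) .nil) .nil)))) (.nd (nat_lit 9) 
(.lf (nat_lit 563607) (.g (nat_lit 2602) (.e (nat_lit 426568) (nat_lit 34) (.e (nat_lit 393284) (nat_lit 24) (.e (nat_lit 434248) (nat_lit 28) (.e (nat_lit 573475) (nat_lit 12) (.e (nat_lit 57503) (nat_lit 38) (.e (nat_lit 638985) (nat_lit 5) (.e (nat_lit 2862) (nat_lit 184) .nil))))))) (.g (nat_lit 1) (.e (nat_lit 323644) (nat_lit 0) .nil) .nil))) 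
(.lf (nat_lit 564119) (.g (nat_lit 2683) (.e (nat_lit 434209) (nat_lit 18) (.e (nat_lit 5224) (nat_lit 296) (.e (nat_lit 163871) (nat_lit 2) (.e (nat_lit 196656) (nat_lit 11) (.e (nat_lit 16463) (nat_lit 13) (.e (nat_lit 491264) (nat_lit 10) .nil)))))) (.g (nat_lit 1) (.e (nat_lit 325118) (nat_lit 0) .nil) .nil)))))) (.nd (nat_lit 7) (.nd (nat_lit 8) (.nd (nat_lit 9) 
(.lf (nat_lit 563287) (.g (nat_lit 326) (.e (nat_lit 426566) (nat_lit 34) (.e (nat_lit 393296) (nat_lit 26) (.e (nat_lit 475178) (nat_lit 24) .nil))) (.g (nat_lit 0) (.e (nat_lit 323271) (nat_lit 0) .nil) .nil))) 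
(.lf (nat_lit 563799) (.g (nat_lit 1223) (.e (nat_lit 434180) (nat_lit 0) (.e (nat_lit 1427) (nat_lit 108) (.e (nat_lit 336421) (nat_lit 28) (.e (nat_lit 434186) (nat_lit 13) .nil)))) (.g (nat_lit 0) (.e (nat_lit 323946) (nat_lit 0) .nil) .nil)))) (.nd (nat_lit 9) 
(.lf (nat_lit 563543) (.g (nat_lit 3607) (.e (nat_lit 426568) (nat_lit 34) (.e (nat_lit 393281) (nat_lit 23) (.e (nat_lit 426133) (nat_lit 3) (.e (nat_lit 204829) (nat_lit 18) (.e (nat_lit 57691) (nat_lit 156) (.e (nat_lit 163907) (nat_lit 12) .nil)))))) (.g (nat_lit 1) (.e (nat_lit 323573) (nat_lit 0) .nil) .nil))) 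
(.lf (nat_lit 564055) (.g (nat_lit 1011) (.e (nat_lit 434202) (nat_lit 18) (.e (nat_lit 6255) (nat_lit 337) (.e (nat_lit 2653) (nat_lit 166) (.e (nat_lit 188441) (nat_lit 20) .nil)))) (.g (nat_lit 0) (.e (nat_lit 324665) (nat_lit 0) .nil) .nil))))) (.nd (nat_lit 8) (.nd (nat_lit 9) 
(.lf (nat_lit 563415) (.g (nat_lit 1525) (.e (nat_lit 426568) (nat_lit 34) (.e (nat_lit 393251) (nat_lit 18) (.e (nat_lit 164403) (nat_lit 256) (.e (nat_lit 57370) (nat_lit 2) .nil)))) (.g (nat_lit 0) (.e (nat_lit 323435) (nat_lit 0) .nil) .nil))) 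
(.lf (nat_lit 563927) (.g (nat_lit 1476) (.e (nat_lit 442112) (nat_lit 0) (.e (nat_lit 1661) (nat_lit 115) (.e (nat_lit 393260) (nat_lit 21) (.e (nat_lit 417536) (nat_lit 16) .nil)))) (.g (nat_lit 0) (.e (nat_lit 324098) (nat_lit 0) .nil) .nil)))) (.nd (nat_lit 9) 
(.lf (nat_lit 563671) (.g (nat_lit 1798) (.e (nat_lit 433920) (nat_lit 34) (.e (nat_lit 393251) (nat_lit 18) (.e (nat_lit 164327) (nat_lit 230) (.e (nat_lit 163875) (nat_lit 3) (.e (nat_lit 204811) (nat_lit 9) .nil))))) (.g (nat_lit 0) (.e (nat_lit 323722) (nat_lit 0) .nil) .nil))) 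
(.lf (nat_lit 564183) (.g (nat_lit 2646) (.e (nat_lit 434212) (nat_lit 18) (.e (nat_lit 6425) (nat_lit 342) (.e (nat_lit 229415) (nat_lit 15) (.e (nat_lit 450563) (nat_lit 0) (.e (nat_lit 6254) (nat_lit 337) (.e (nat_lit 2630) (nat_lit 164) (.e (nat_lit 172110) (nat_lit 10) .nil))))))) (.g (nat_lit 1) (.e (nat_lit 325453) (nat_lit 0) .nil) .nil))))))) 
(.nd (nat_lit 6) (.nd (nat_lit 7) (.nd (nat_lit 8) (.nd (nat_lit 9) 
(.lf (nat_lit 563255) (.g (nat_lit 2566) (.e (nat_lit 426566) (nat_lit 34) (.e (nat_lit 393294) (nat_lit 26) (.e (nat_lit 475179) (nat_lit 24) (.e (nat_lit 516119) (nat_lit 1) (.e (nat_lit 164325) (nat_lit 230) (.e (nat_lit 163901) (nat_lit 12) .nil)))))) (.g (nat_lit 1) (.e (nat_lit 323238) (nat_lit 0) .nil) .nil))) 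
(.lf (nat_lit 563767) (.g (nat_lit 3441) (.e (nat_lit 434180) (nat_lit 0) (.e (nat_lit 1235) (nat_lit 91) (.e (nat_lit 90170) (nat_lit 13) (.e (nat_lit 172113) (nat_lit 10) (.e (nat_lit 434248) (nat_lit 28) (.e (nat_lit 573450) (nat_lit 9) (.e (nat_lit 442) (nat_lit 33) .nil))))))) (.g (nat_lit 1) (.e (nat_lit 323914) (nat_lit 0) .nil) .nil)))) (.nd (nat_lit 9) 
(.lf (nat_lit 563511) (.g (nat_lit 4076) (.e (nat_lit 426568) (nat_lit 34) (.e (nat_lit 393271) (nat_lit 23) (.e (nat_lit 426131) (nat_lit 3) (.e (nat_lit 204829) (nat_lit 18) (.e (nat_lit 57691) (nat_lit 156) (.e (nat_lit 163907) (nat_lit 12) .nil)))))) (.g (nat_lit 1) (.e (nat_lit 323535) (nat_lit 0) .nil) .nil))) 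
(.lf (nat_lit 564023) (.g (nat_lit 1212) (.e (nat_lit 442112) (nat_lit 8) (.e (nat_lit 2679) (nat_lit 168) (.e (nat_lit 204846) (nat_lit 24) (.e (nat_lit 319535) (nat_lit 17) .nil)))) (.g (nat_lit 0) (.e (nat_lit 324311) (nat_lit 0) .nil) .nil))))) (.nd (nat_lit 8) (.nd (nat_lit 9) 
(.lf (nat_lit 563383) (.g (nat_lit 2759) (.e (nat_lit 426567) (nat_lit 34) (.e (nat_lit 393294) (nat_lit 26) (.e (nat_lit 475179) (nat_lit 24) (.e (nat_lit 516117) (nat_lit 1) (.e (nat_lit 164330) (nat_lit 230) (.e (nat_lit 163902) (nat_lit 12) .nil)))))) (.g (nat_lit 1) (.e (nat_lit 323394) (nat_lit 0) .nil) .nil))) 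
(.lf (nat_lit 563895) (.g (nat_lit 1729) (.e (nat_lit 434181) (nat_lit 0) (.e (nat_lit 1660) (nat_lit 115) (.e (nat_lit 393260) (nat_lit 21) (.e (nat_lit 409640) (nat_lit 17) (.e (nat_lit 294973) (nat_lit 28) .nil))))) (.g (nat_lit 0) (.e (nat_lit 324055) (nat_lit 0) .nil) .nil)))) (.nd (nat_lit 9) 
(.lf (nat_lit 563639) (.g (nat_lit 2824) (.e (nat_lit 426568) (nat_lit 34) (.e (nat_lit 393293) (nat_lit 26) (.e (nat_lit 475177) (nat_lit 24) (.e (nat_lit 516119) (nat_lit 1) (.e (nat_lit 164325) (nat_lit 230) (.e (nat_lit 163903) (nat_lit 12) .nil)))))) (.g (nat_lit 1) (.e (nat_lit 323680) (nat_lit 0) .nil) .nil))) 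
(.lf (nat_lit 564151) (.g (nat_lit 338) (.e (nat_lit 434209) (nat_lit 18) (.e (nat_lit 6425) (nat_lit 342) (.e (nat_lit 229412) (nat_lit 14) .nil))) (.g (nat_lit 0) (.e (nat_lit 325327) (nat_lit 0) .nil) .nil)))))) (.nd (nat_lit 7) (.nd (nat_lit 8) (.nd (nat_lit 9) 
(.lf (nat_lit 563319) (.g (nat_lit 1725) (.e (nat_lit 426567) (nat_lit 34) (.e (nat_lit 393251) (nat_lit 18) (.e (nat_lit 164325) (nat_lit 230) (.e (nat_lit 163875) (nat_lit 3) (.e (nat_lit 204813) (nat_lit 9) .nil))))) (.g (nat_lit 0) (.e (nat_lit 323325) (nat_lit 0) .nil) .nil))) 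
(.lf (nat_lit 563831) (.g (nat_lit 3340) (.e (nat_lit 434181) (nat_lit 0) (.e (nat_lit 1234) (nat_lit 91) (.e (nat_lit 90170) (nat_lit 13) (.e (nat_lit 172113) (nat_lit 10) (.e (nat_lit 434245) (nat_lit 28) (.e (nat_lit 573451) (nat_lit 9) (.e (nat_lit 7936) (nat_lit 33) .nil))))))) (.g (nat_lit 1) (.e (nat_lit 323989) (nat_lit 0) .nil) .nil)))) (.nd (nat_lit 9) 
(.lf (nat_lit 563575) (.g (nat_lit 1880) (.e (nat_lit 426568) (nat_lit 34) (.e (nat_lit 393283) (nat_lit 24) (.e (nat_lit 434231) (nat_lit 23) (.e (nat_lit 532483) (nat_lit 0) .nil)))) (.g (nat_lit 0) (.e (nat_lit 323606) (nat_lit 0) .nil) .nil))) 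
(.lf (nat_lit 564087) (.g (nat_lit 1236) (.e (nat_lit 434207) (nat_lit 18) (.e (nat_lit 6421) (nat_lit 341) (.e (nat_lit 163905) (nat_lit 12) (.e (nat_lit 426294) (nat_lit 11) .nil)))) (.g (nat_lit 0) (.e (nat_lit 324912) (nat_lit 0) .nil) .nil))))) (.nd (nat_lit 8) (.nd (nat_lit 9) 
(.lf (nat_lit 563447) (.g (nat_lit 1035) (.e (nat_lit 426568) (nat_lit 34) (.e (nat_lit 393253) (nat_lit 18) (.e (nat_lit 164325) (nat_lit 230) (.e (nat_lit 163873) (nat_lit 3) .nil)))) (.g (nat_lit 0) (.e (nat_lit 323468) (nat_lit 0) .nil) .nil))) 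
(.lf (nat_lit 563959) (.g (nat_lit 548) (.e (nat_lit 442112) (nat_lit 5) (.e (nat_lit 73729) (nat_lit 0) (.e (nat_lit 7263) (nat_lit 384) .nil))) (.g (nat_lit 0) (.e (nat_lit 324181) (nat_lit 0) .nil) .nil)))) (.nd (nat_lit 9) 
(.lf (nat_lit 563703) (.g (nat_lit 933) (.e (nat_lit 433920) (nat_lit 34) (.e (nat_lit 393296) (nat_lit 26) (.e (nat_lit 475178) (nat_lit 24) (.e (nat_lit 516119) (nat_lit 1) .nil)))) (.g (nat_lit 0) (.e (nat_lit 323754) (nat_lit 0) .nil) .nil))) 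
(.lf (nat_lit 564215) (.g (nat_lit 2496) (.e (nat_lit 434216) (nat_lit 18) (.e (nat_lit 5949) (nat_lit 322) (.e (nat_lit 57378) (nat_lit 3) (.e (nat_lit 98365) (nat_lit 26) (.e (nat_lit 426325) (nat_lit 13) (.e (nat_lit 491264) (nat_lit 10) .nil)))))) (.g (nat_lit 1) (.e (nat_lit 325519) (nat_lit 0) .nil) .nil))))))))) 
(.nd (nat_lit 4) (.nd (nat_lit 5) (.nd (nat_lit 6) (.nd (nat_lit 7) (.nd (nat_lit 8) 
(.nd (nat_lit 9) 
(.lf (nat_lit 563215) (.g (nat_lit 2744) (.e (nat_lit 426566) (nat_lit 34) (.e (nat_lit 393294) (nat_lit 26) (.e (nat_lit 475176) (nat_lit 24) (.e (nat_lit 516119) (nat_lit 1) (.e (nat_lit 164322) (nat_lit 230) (.e (nat_lit 163904) (nat_lit 12) .nil)))))) (.g (nat_lit 1) (.e (nat_lit 323197) (nat_lit 0) .nil) .nil))) 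
(.lf (nat_lit 563727) (.g (nat_lit 1345) (.e (nat_lit 426573) (nat_lit 35) (.e (nat_lit 401454) (nat_lit 12) (.e (nat_lit 475181) (nat_lit 27) .nil))) (.g (nat_lit 0) (.e (nat_lit 323793) (nat_lit 0) .nil) .nil)))) (.nd (nat_lit 9) 
(.lf (nat_lit 563471) (.g (nat_lit 1877) (.e (nat_lit 426568) (nat_lit 34) (.e (nat_lit 393253) (nat_lit 18) (.e (nat_lit 164402) (nat_lit 256) (.e (nat_lit 57371) (nat_lit 2) (.e (nat_lit 90185) (nat_lit 17) .nil))))) (.g (nat_lit 0) (.e (nat_lit 323492) (nat_lit 0) .nil) .nil))) 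
(.lf (nat_lit 563983) (.g (nat_lit 835) (.e (nat_lit 442112) (nat_lit 5) (.e (nat_lit 73775) (nat_lit 26) (.e (nat_lit 778359) (nat_lit 9) (.e (nat_lit 334) (nat_lit 26) (.e (nat_lit 384768) (nat_lit 12) .nil))))) (.g (nat_lit 0) (.e (nat_lit 324212) (nat_lit 0) .nil) .nil))))) (.nd (nat_lit 8) (.nd (nat_lit 9) 
(.lf (nat_lit 563343) (.g (nat_lit 696) (.e (nat_lit 426567) (nat_lit 34) (.e (nat_lit 393253) (nat_lit 18) (.e (nat_lit 164332) (nat_lit 230) .nil))) (.g (nat_lit 0) (.e (nat_lit 323352) (nat_lit 0) .nil) .nil))) 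
(.lf (nat_lit 563855) (.g (nat_lit 4129) (.e (nat_lit 434181) (nat_lit 0) (.e (nat_lit 1253) (nat_lit 92) (.e (nat_lit 98373) (nat_lit 29) (.e (nat_lit 450587) (nat_lit 10) (.e (nat_lit 573455) (nat_lit 9) (.e (nat_lit 7936) (nat_lit 33) .nil)))))) (.g (nat_lit 1) (.e (nat_lit 324013) (nat_lit 0) .nil) .nil)))) (.nd (nat_lit 9) 
(.lf (nat_lit 563599) (.g (nat_lit 964) (.e (nat_lit 426568) (nat_lit 34) (.e (nat_lit 393283) (nat_lit 24) (.e (nat_lit 434248) (nat_lit 28) (.e (nat_lit 573475) (nat_lit 12) .nil)))) (.g (nat_lit 0) (.e (nat_lit 323633) (nat_lit 0) .nil) .nil))) 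
(.lf (nat_lit 564111) (.g (nat_lit 2151) (.e (nat_lit 434209) (nat_lit 18) (.e (nat_lit 5223) (nat_lit 296) (.e (nat_lit 163884) (nat_lit 5) (.e (nat_lit 221194) (nat_lit 11) (.e (nat_lit 336087) (nat_lit 9) (.e (nat_lit 336398) (nat_lit 27) (.e (nat_lit 426290) (nat_lit 10) .nil))))))) (.g (nat_lit 1) (.e (nat_lit 325076) (nat_lit 0) .nil) .nil)))))) 
(.nd (nat_lit 7) (.nd (nat_lit 8) (.nd (nat_lit 9) 
(.lf (nat_lit 563279) (.g (nat_lit 3768) (.e (nat_lit 426566) (nat_lit 34) (.e (nat_lit 393296) (nat_lit 26) (.e (nat_lit 475177) (nat_lit 24) (.e (nat_lit 516115) (nat_lit 1) (.e (nat_lit 164325) (nat_lit 230) (.e (nat_lit 163907) (nat_lit 12) .nil)))))) (.g (nat_lit 1) (.e (nat_lit 323263) (nat_lit 0) .nil) .nil))) 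
(.lf (nat_lit 563791) (.g (nat_lit 1340) (.e (nat_lit 434180) (nat_lit 0) (.e (nat_lit 1425) (nat_lit 108) (.e (nat_lit 336421) (nat_lit 28) (.e (nat_lit 434189) (nat_lit 13) (.e (nat_lit 2789) (nat_lit 179) (.e (nat_lit 294973) (nat_lit 28) .nil)))))) (.g (nat_lit 1) (.e (nat_lit 323938) (nat_lit 0) .nil) .nil)))) (.nd (nat_lit 9) 
(.lf (nat_lit 563535) (.g (nat_lit 1566) (.e (nat_lit 426568) (nat_lit 34) (.e (nat_lit 393274) (nat_lit 23) (.e (nat_lit 426132) (nat_lit 3) (.e (nat_lit 204829) (nat_lit 18) (.e (nat_lit 57686) (nat_lit 156) .nil))))) (.g (nat_lit 0) (.e (nat_lit 323559) (nat_lit 0) .nil) .nil))) 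
(.lf (nat_lit 564047) (.g (nat_lit 1037) (.e (nat_lit 434200) (nat_lit 18) (.e (nat_lit 5537) (nat_lit 306) (.e (nat_lit 2628) (nat_lit 164) (.e (nat_lit 172126) (nat_lit 14) .nil)))) (.g (nat_lit 0) (.e (nat_lit 324569) (nat_lit 0) .nil) .nil))))) (.nd (nat_lit 8) (.nd (nat_lit 9) 
(.lf (nat_lit 563407) (.g (nat_lit 2635) (.e (nat_lit 426568) (nat_lit 34) (.e (nat_lit 393251) (nat_lit 18) (.e (nat_lit 164398) (nat_lit 256) (.e (nat_lit 57372) (nat_lit 2) (.e (nat_lit 90185) (nat_lit 17) .nil))))) (.g (nat_lit 0) (.e (nat_lit 323427) (nat_lit 0) .nil) .nil))) 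
(.lf (nat_lit 563919) (.g (nat_lit 1336) (.e (nat_lit 442112) (nat_lit 0) (.e (nat_lit 1428) (nat_lit 108) (.e (nat_lit 336421) (nat_lit 28) (.e (nat_lit 434198) (nat_lit 17) (.e (nat_lit 229645) (nat_lit 232) .nil))))) (.g (nat_lit 0) (.e (nat_lit 324090) (nat_lit 0) .nil) .nil)))) (.nd (nat_lit 9) 
(.lf (nat_lit 563663) (.g (nat_lit 1576) (.e (nat_lit 426568) (nat_lit 34) (.e (nat_lit 393301) (nat_lit 27) (.e (nat_lit 491538) (nat_lit 3) (.e (nat_lit 98334) (nat_lit 18) .nil)))) (.g (nat_lit 0) (.e (nat_lit 323712) (nat_lit 0) .nil) .nil))) 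
(.lf (nat_lit 564175) (.g (nat_lit 1668) (.e (nat_lit 434212) (nat_lit 18) (.e (nat_lit 6425) (nat_lit 342) (.e (nat_lit 229413) (nat_lit 15) (.e (nat_lit 450603) (nat_lit 22) (.e (nat_lit 704736) (nat_lit 11) .nil))))) (.g (nat_lit 0) (.e (nat_lit 325445) (nat_lit 0) .nil) .nil))))))) (.nd (nat_lit 6) (.nd (nat_lit 7) (.nd (nat_lit 8) (.nd (nat_lit 9) 
(.lf (nat_lit 563247) (.g (nat_lit 3289) (.e (nat_lit 426566) (nat_lit 34) (.e (nat_lit 393294) (nat_lit 26) (.e (nat_lit 475177) (nat_lit 24) (.e (nat_lit 516120) (nat_lit 1) (.e (nat_lit 164330) (nat_lit 230) (.e (nat_lit 163901) (nat_lit 12) .nil)))))) (.g (nat_lit 1) (.e (nat_lit 323229) (nat_lit 0) .nil) .nil))) 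
(.lf (nat_lit 563759) (.g (nat_lit 3354) (.e (nat_lit 434180) (nat_lit 0) (.e (nat_lit 1234) (nat_lit 91) (.e (nat_lit 90170) (nat_lit 13) (.e (nat_lit 172113) (nat_lit 10) (.e (nat_lit 434248) (nat_lit 28) (.e (nat_lit 573452) (nat_lit 9) (.e (nat_lit 7936) (nat_lit 33) .nil))))))) (.g (nat_lit 1) (.e (nat_lit 323906) (nat_lit 0) .nil) .nil)))) (.nd (nat_lit 9) 
(.lf (nat_lit 563503) (.g (nat_lit 2495) (.e (nat_lit 426568) (nat_lit 34) (.e (nat_lit 393271) (nat_lit 23) (.e (nat_lit 426131) (nat_lit 3) (.e (nat_lit 204829) (nat_lit 18) (.e (nat_lit 57655) (nat_lit 152) (.e (nat_lit 2503) (nat_lit 157) (.e (nat_lit 2852) (nat_lit 184) .nil))))))) (.g (nat_lit 1) (.e (nat_lit 323527) (nat_lit 0) .nil) .nil))) 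
(.lf (nat_lit 564015) (.g (nat_lit 1978) (.e (nat_lit 434184) (nat_lit 8) (.e (nat_lit 2681) (nat_lit 168) (.e (nat_lit 204845) (nat_lit 24) (.e (nat_lit 319531) (nat_lit 16) (.e (nat_lit 286735) (nat_lit 3) .nil))))) (.g (nat_lit 0) (.e (nat_lit 324284) (nat_lit 0) .nil) .nil))))) (.nd (nat_lit 8) (.nd (nat_lit 9) 
(.lf (nat_lit 563375) (.g (nat_lit 861) (.e (nat_lit 426567) (nat_lit 34) (.e (nat_lit 393294) (nat_lit 26) (.e (nat_lit 475177) (nat_lit 24) .nil))) (.g (nat_lit 0) (.e (nat_lit 323386) (nat_lit 0) .nil) .nil))) 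
(.lf (nat_lit 563887) (.g (nat_lit 1429) (.e (nat_lit 434181) (nat_lit 0) (.e (nat_lit 1659) (nat_lit 115) (.e (nat_lit 393259) (nat_lit 21) (.e (nat_lit 409642) (nat_lit 17) (.e (nat_lit 294973) (nat_lit 28) .nil))))) (.g (nat_lit 0) (.e (nat_lit 324046) (nat_lit 0) .nil) .nil)))) (.nd (nat_lit 9) 
(.lf (nat_lit 563631) (.g (nat_lit 2221) (.e (nat_lit 426568) (nat_lit 34) (.e (nat_lit 393291) (nat_lit 26) (.e (nat_lit 475179) (nat_lit 24) (.e (nat_lit 516119) (nat_lit 1) (.e (nat_lit 164324) (nat_lit 230) .nil))))) (.g (nat_lit 0) (.e (nat_lit 323672) (nat_lit 0) .nil) .nil))) 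
(.lf (nat_lit 564143) (.g (nat_lit 293) (.e (nat_lit 434209) (nat_lit 18) (.e (nat_lit 5548) (nat_lit 306) (.e (nat_lit 2648) (nat_lit 166) .nil))) (.g (nat_lit 0) (.e (nat_lit 325287) (nat_lit 0) .nil) .nil)))))) (.nd (nat_lit 7) (.nd (nat_lit 8) (.nd (nat_lit 9) 
(.lf (nat_lit 563311) (.g (nat_lit 941) (.e (nat_lit 426566) (nat_lit 34) (.e (nat_lit 393296) (nat_lit 26) (.e (nat_lit 475179) (nat_lit 24) (.e (nat_lit 524032) (nat_lit 20) .nil)))) (.g (nat_lit 0) (.e (nat_lit 323295) (nat_lit 0) .nil) .nil))) 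
(.lf (nat_lit 563823) (.g (nat_lit 1347) (.e (nat_lit 434180) (nat_lit 0) (.e (nat_lit 1660) (nat_lit 115) (.e (nat_lit 393259) (nat_lit 21) (.e (nat_lit 409641) (nat_lit 17) (.e (nat_lit 294973) (nat_lit 28) .nil))))) (.g (nat_lit 0) (.e (nat_lit 323976) (nat_lit 0) .nil) .nil)))) (.nd (nat_lit 9) 
(.lf (nat_lit 563567) (.g (nat_lit 2201) (.e (nat_lit 426568) (nat_lit 34) (.e (nat_lit 393282) (nat_lit 24) (.e (nat_lit 434231) (nat_lit 23) (.e (nat_lit 532502) (nat_lit 1) (.e (nat_lit 57691) (nat_lit 156) .nil))))) (.g (nat_lit 0) (.e (nat_lit 323597) (nat_lit 0) .nil) .nil))) 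
(.lf (nat_lit 564079) (.g (nat_lit 1583) (.e (nat_lit 434207) (nat_lit 18) (.e (nat_lit 6252) (nat_lit 337) (.e (nat_lit 2651) (nat_lit 166) (.e (nat_lit 188439) (nat_lit 20) (.e (nat_lit 3469) (nat_lit 217) .nil))))) (.g (nat_lit 0) (.e (nat_lit 324848) (nat_lit 0) .nil) .nil))))) (.nd (nat_lit 8) (.nd (nat_lit 9) 
(.lf (nat_lit 563439) (.g (nat_lit 2152) (.e (nat_lit 426568) (nat_lit 34) (.e (nat_lit 393253) (nat_lit 18) (.e (nat_lit 164322) (nat_lit 230) (.e (nat_lit 163867) (nat_lit 2) (.e (nat_lit 196656) (nat_lit 11) .nil))))) (.g (nat_lit 0) (.e (nat_lit 323460) (nat_lit 0) .nil) .nil))) 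
(.lf (nat_lit 563951) (.g (nat_lit 1518) (.e (nat_lit 442112) (nat_lit 4) (.e (nat_lit 65653) (nat_lit 27) (.e (nat_lit 426343) (nat_lit 14) (.e (nat_lit 491556) (nat_lit 9) (.e (nat_lit 343808) (nat_lit 28) .nil))))) (.g (nat_lit 0) (.e (nat_lit 324172) (nat_lit 0) .nil) .nil)))) (.nd (nat_lit 9) 
(.lf (nat_lit 563695) (.g (nat_lit 1198) (.e (nat_lit 433920) (nat_lit 34) (.e (nat_lit 393254) (nat_lit 18) (.e (nat_lit 164332) (nat_lit 230) (.e (nat_lit 163873) (nat_lit 3) (.e (nat_lit 204811) (nat_lit 9) .nil))))) (.g (nat_lit 0) (.e (nat_lit 323746) (nat_lit 0) .nil) .nil))) 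
(.lf (nat_lit 564207) (.g (nat_lit 1691) (.e (nat_lit 434216) (nat_lit 18) (.e (nat_lit 5934) (nat_lit 322) (.e (nat_lit 57377) (nat_lit 3) (.e (nat_lit 98365) (nat_lit 26) (.e (nat_lit 426187) (nat_lit 9) .nil))))) (.g (nat_lit 0) (.e (nat_lit 325510) (nat_lit 0) .nil) .nil)))))))) (.nd (nat_lit 5) (.nd (nat_lit 6) (.nd (nat_lit 7) (.nd (nat_lit 8) (.nd (nat_lit 9) 
(.lf (nat_lit 563231) (.g (nat_lit 3395) (.e (nat_lit 426566) (nat_lit 34) (.e (nat_lit 393294) (nat_lit 26) (.e (nat_lit 475177) (nat_lit 24) (.e (nat_lit 516117) (nat_lit 1) (.e (nat_lit 164305) (nat_lit 226) (.e (nat_lit 2433) (nat_lit 157) (.e (nat_lit 2851) (nat_lit 184) .nil))))))) (.g (nat_lit 1) (.e (nat_lit 323213) (nat_lit 0) .nil) .nil))) 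
(.lf (nat_lit 563743) (.g (nat_lit 2661) (.e (nat_lit 434179) (nat_lit 0) (.e (nat_lit 1077) (nat_lit 81) (.e (nat_lit 1796) (nat_lit 119) (.e (nat_lit 516166) (nat_lit 12) (.e (nat_lit 450587) (nat_lit 10) (.e (nat_lit 573456) (nat_lit 9) (.e (nat_lit 7936) (nat_lit 33) .nil))))))) (.g (nat_lit 1) (.e (nat_lit 323822) (nat_lit 0) .nil) .nil)))) (.nd (nat_lit 9) 
(.lf (nat_lit 563487) (.g (nat_lit 3636) (.e (nat_lit 426568) (nat_lit 34) (.e (nat_lit 393266) (nat_lit 23) (.e (nat_lit 426436) (nat_lit 18) (.e (nat_lit 98335) (nat_lit 18) (.e (nat_lit 164332) (nat_lit 230) (.e (nat_lit 163905) (nat_lit 12) .nil)))))) (.g (nat_lit 1) (.e (nat_lit 323510) (nat_lit 0) .nil) .nil))) 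
(.lf (nat_lit 563999) (.g (nat_lit 1632) (.e (nat_lit 442112) (nat_lit 5) (.e (nat_lit 73775) (nat_lit 26) (.e (nat_lit 778466) (nat_lit 11) (.e (nat_lit 24638) (nat_lit 9) (.e (nat_lit 343808) (nat_lit 28) .nil))))) (.g (nat_lit 0) (.e (nat_lit 324243) (nat_lit 0) .nil) .nil))))) (.nd (nat_lit 8) (.nd (nat_lit 9) 
(.lf (nat_lit 563359) (.g (nat_lit 2895) (.e (nat_lit 426567) (nat_lit 34) (.e (nat_lit 393271) (nat_lit 23) (.e (nat_lit 426436) (nat_lit 18) (.e (nat_lit 98335) (nat_lit 18) (.e (nat_lit 164326) (nat_lit 230) .nil))))) (.g (nat_lit 0) (.e (nat_lit 323369) (nat_lit 0) .nil) .nil))) 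
(.lf (nat_lit 563871) (.g (nat_lit 1784) (.e (nat_lit 434181) (nat_lit 0) (.e (nat_lit 1427) (nat_lit 108) (.e (nat_lit 336414) (nat_lit 27) (.e (nat_lit 426347) (nat_lit 14) (.e (nat_lit 491548) (nat_lit 9) .nil))))) (.g (nat_lit 0) (.e (nat_lit 324029) (nat_lit 0) .nil) .nil)))) (.nd (nat_lit 9) 
(.lf (nat_lit 563615) (.g (nat_lit 2115) (.e (nat_lit 426568) (nat_lit 34) (.e (nat_lit 393286) (nat_lit 25) (.e (nat_lit 458789) (nat_lit 23) (.e (nat_lit 532503) (nat_lit 1) (.e (nat_lit 57685) (nat_lit 156) (.e (nat_lit 163905) (nat_lit 12) .nil)))))) (.g (nat_lit 1) (.e (nat_lit 323654) (nat_lit 0) .nil) .nil))) 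
(.lf (nat_lit 564127) (.g (nat_lit 1985) (.e (nat_lit 434209) (nat_lit 18) (.e (nat_lit 5546) (nat_lit 306) (.e (nat_lit 2649) (nat_lit 166) (.e (nat_lit 188441) (nat_lit 20) (.e (nat_lit 3409) (nat_lit 212) .nil))))) (.g (nat_lit 0) (.e (nat_lit 325177) (nat_lit 0) .nil) .nil)))))) (.nd (nat_lit 7) (.nd (nat_lit 8) (.nd (nat_lit 9) 
(.lf (nat_lit 563295) (.g (nat_lit 1778) (.e (nat_lit 426566) (nat_lit 34) (.e (nat_lit 393296) (nat_lit 26) (.e (nat_lit 475178) (nat_lit 24) (.e (nat_lit 516117) (nat_lit 1) (.e (nat_lit 164329) (nat_lit 230) (.e (nat_lit 171776) (nat_lit 12) .nil)))))) (.g (nat_lit 1) (.e (nat_lit 323279) (nat_lit 0) .nil) .nil))) 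
(.lf (nat_lit 563807) (.g (nat_lit 2135) (.e (nat_lit 434180) (nat_lit 0) (.e (nat_lit 1427) (nat_lit 108) (.e (nat_lit 336438) (nat_lit 31) (.e (nat_lit 458769) (nat_lit 16) (.e (nat_lit 164337) (nat_lit 232) (.e (nat_lit 446) (nat_lit 33) .nil)))))) (.g (nat_lit 1) (.e (nat_lit 323955) (nat_lit 0) .nil) .nil)))) (.nd (nat_lit 9) 
(.lf (nat_lit 563551) (.g (nat_lit 1830) (.e (nat_lit 426568) (nat_lit 34) (.e (nat_lit 393281) (nat_lit 23) (.e (nat_lit 426137) (nat_lit 3) (.e (nat_lit 204831) (nat_lit 18) (.e (nat_lit 57688) (nat_lit 156) .nil))))) (.g (nat_lit 0) (.e (nat_lit 323581) (nat_lit 0) .nil) .nil))) 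
(.lf (nat_lit 564063) (.g (nat_lit 1926) (.e (nat_lit 434202) (nat_lit 18) (.e (nat_lit 6421) (nat_lit 341) (.e (nat_lit 163920) (nat_lit 14) (.e (nat_lit 442412) (nat_lit 20) .nil)))) (.g (nat_lit 0) (.e (nat_lit 324733) (nat_lit 0) .nil) .nil))))) (.nd (nat_lit 8) (.nd (nat_lit 9) 
(.lf (nat_lit 563423) (.g (nat_lit 1354) (.e (nat_lit 426568) (nat_lit 34) (.e (nat_lit 393252) (nat_lit 18) (.e (nat_lit 164331) (nat_lit 230) (.e (nat_lit 163867) (nat_lit 2) .nil)))) (.g (nat_lit 0) (.e (nat_lit 323443) (nat_lit 0) .nil) .nil))) 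
(.lf (nat_lit 563935) (.g (nat_lit 615) (.e (nat_lit 442112) (nat_lit 4) (.e (nat_lit 65653) (nat_lit 27) (.e (nat_lit 426009) (nat_lit 0) (.e (nat_lit 7589) (nat_lit 406) (.e (nat_lit 73472) (nat_lit 28) .nil))))) (.g (nat_lit 0) (.e (nat_lit 324146) (nat_lit 0) .nil) .nil)))) (.nd (nat_lit 9) 
(.lf (nat_lit 563679) (.g (nat_lit 1480) (.e (nat_lit 433920) (nat_lit 34) (.e (nat_lit 393253) (nat_lit 18) (.e (nat_lit 164325) (nat_lit 230) (.e (nat_lit 163873) (nat_lit 3) (.e (nat_lit 204811) (nat_lit 9) .nil))))) (.g (nat_lit 0) (.e (nat_lit 323730) (nat_lit 0) .nil) .nil))) 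
(.lf (nat_lit 564191) (.g (nat_lit 2736) (.e (nat_lit 434212) (nat_lit 18) (.e (nat_lit 6425) (nat_lit 342) (.e (nat_lit 229415) (nat_lit 15) (.e (nat_lit 450563) (nat_lit 0) (.e (nat_lit 6420) (nat_lit 341) (.e (nat_lit 163908) (nat_lit 12) (.e (nat_lit 426282) (nat_lit 10) .nil))))))) (.g (nat_lit 1) (.e (nat_lit 325461) (nat_lit 0) .nil) .nil))))))) 
(.nd (nat_lit 6) (.nd (nat_lit 7) (.nd (nat_lit 8) (.nd (nat_lit 9) 
(.lf (nat_lit 563263) (.g (nat_lit 2207) (.e (nat_lit 426566) (nat_lit 34) (.e (nat_lit 393294) (nat_lit 26) (.e (nat_lit 475179) (nat_lit 24) (.e (nat_lit 516120) (nat_lit 1) (.e (nat_lit 164332) (nat_lit 230) (.e (nat_lit 163901) (nat_lit 12) .nil)))))) (.g (nat_lit 1) (.e (nat_lit 323246) (nat_lit 0) .nil) .nil))) 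
(.lf (nat_lit 563775) (.g (nat_lit 1761) (.e (nat_lit 434180) (nat_lit 0) (.e (nat_lit 1253) (nat_lit 92) (.e (nat_lit 98373) (nat_lit 29) (.e (nat_lit 450565) (nat_lit 0) .nil)))) (.g (nat_lit 0) (.e (nat_lit 323922) (nat_lit 0) .nil) .nil)))) (.nd (nat_lit 9) 
(.lf (nat_lit 563519) (.g (nat_lit 2642) (.e (nat_lit 426568) (nat_lit 34) (.e (nat_lit 393271) (nat_lit 23) (.e (nat_lit 426131) (nat_lit 3) (.e (nat_lit 204830) (nat_lit 18) (.e (nat_lit 57663) (nat_lit 152) (.e (nat_lit 2467) (nat_lit 157) (.e (nat_lit 2844) (nat_lit 184) .nil))))))) (.g (nat_lit 1) (.e (nat_lit 323543) (nat_lit 0) .nil) .nil))) 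
(.lf (nat_lit 564031) (.g (nat_lit 414) (.e (nat_lit 434187) (nat_lit 13) (.e (nat_lit 2777) (nat_lit 178) (.e (nat_lit 286770) (nat_lit 28) .nil))) (.g (nat_lit 0) (.e (nat_lit 324361) (nat_lit 0) .nil) .nil))))) (.nd (nat_lit 8) (.nd (nat_lit 9) 
(.lf (nat_lit 563391) (.g (nat_lit 2004) (.e (nat_lit 426568) (nat_lit 34) (.e (nat_lit 393250) (nat_lit 18) (.e (nat_lit 164327) (nat_lit 230) (.e (nat_lit 163868) (nat_lit 2) (.e (nat_lit 196656) (nat_lit 11) .nil))))) (.g (nat_lit 0) (.e (nat_lit 323411) (nat_lit 0) .nil) .nil))) 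
(.lf (nat_lit 563903) (.g (nat_lit 1371) (.e (nat_lit 442112) (nat_lit 0) (.e (nat_lit 1239) (nat_lit 91) (.e (nat_lit 90170) (nat_lit 13) (.e (nat_lit 172113) (nat_lit 10) (.e (nat_lit 434242) (nat_lit 28) .nil))))) (.g (nat_lit 0) (.e (nat_lit 324074) (nat_lit 0) .nil) .nil)))) (.nd (nat_lit 9) 
(.lf (nat_lit 563647) (.g (nat_lit 3117) (.e (nat_lit 426568) (nat_lit 34) (.e (nat_lit 393294) (nat_lit 26) (.e (nat_lit 475177) (nat_lit 24) (.e (nat_lit 516115) (nat_lit 1) (.e (nat_lit 164326) (nat_lit 230) (.e (nat_lit 163903) (nat_lit 12) .nil)))))) (.g (nat_lit 1) (.e (nat_lit 323689) (nat_lit 0) .nil) .nil))) 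
(.lf (nat_lit 564159) (.g (nat_lit 2281) (.e (nat_lit 434212) (nat_lit 18) (.e (nat_lit 5224) (nat_lit 296) (.e (nat_lit 163871) (nat_lit 2) (.e (nat_lit 196654) (nat_lit 11) (.e (nat_lit 16463) (nat_lit 13) (.e (nat_lit 491264) (nat_lit 10) .nil)))))) (.g (nat_lit 1) (.e (nat_lit 325406) (nat_lit 0) .nil) .nil)))))) (.nd (nat_lit 7) (.nd (nat_lit 8) (.nd (nat_lit 9) 
(.lf (nat_lit 563327) (.g (nat_lit 2756) (.e (nat_lit 426567) (nat_lit 34) (.e (nat_lit 393251) (nat_lit 18) (.e (nat_lit 164398) (nat_lit 256) (.e (nat_lit 57379) (nat_lit 3) (.e (nat_lit 98365) (nat_lit 26) .nil))))) (.g (nat_lit 0) (.e (nat_lit 323336) (nat_lit 0) .nil) .nil))) 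
(.lf (nat_lit 563839) (.g (nat_lit 2083) (.e (nat_lit 434181) (nat_lit 0) (.e (nat_lit 1234) (nat_lit 91) (.e (nat_lit 90172) (nat_lit 14) (.e (nat_lit 180278) (nat_lit 32) (.e (nat_lit 1253) (nat_lit 92) .nil))))) (.g (nat_lit 0) (.e (nat_lit 323997) (nat_lit 0) .nil) .nil)))) (.nd (nat_lit 9) 
(.lf (nat_lit 563583) (.g (nat_lit 2152) (.e (nat_lit 426568) (nat_lit 34) (.e (nat_lit 393283) (nat_lit 24) (.e (nat_lit 434231) (nat_lit 23) (.e (nat_lit 532500) (nat_lit 1) (.e (nat_lit 57661) (nat_lit 152) .nil))))) (.g (nat_lit 0) (.e (nat_lit 323615) (nat_lit 0) .nil) .nil))) 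
(.lf (nat_lit 564095) (.g (nat_lit 1170) (.e (nat_lit 434208) (nat_lit 18) (.e (nat_lit 6252) (nat_lit 337) (.e (nat_lit 2651) (nat_lit 166) (.e (nat_lit 188439) (nat_lit 20) .nil)))) (.g (nat_lit 0) (.e (nat_lit 324956) (nat_lit 0) .nil) .nil))))) (.nd (nat_lit 8) (.nd (nat_lit 9) 
(.lf (nat_lit 563455) (.g (nat_lit 3664) (.e (nat_lit 426568) (nat_lit 34) (.e (nat_lit 393253) (nat_lit 18) (.e (nat_lit 164327) (nat_lit 230) (.e (nat_lit 163868) (nat_lit 2) (.e (nat_lit 196656) (nat_lit 11) (.e (nat_lit 16432) (nat_lit 9) .nil)))))) (.g (nat_lit 1) (.e (nat_lit 323476) (nat_lit 0) .nil) .nil))) 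
(.lf (nat_lit 563967) (.g (nat_lit 1750) (.e (nat_lit 442112) (nat_lit 5) (.e (nat_lit 73729) (nat_lit 0) (.e (nat_lit 7266) (nat_lit 384) (.e (nat_lit 57436) (nat_lit 17) (.e (nat_lit 384768) (nat_lit 12) .nil))))) (.g (nat_lit 0) (.e (nat_lit 324189) (nat_lit 0) .nil) .nil)))) (.nd (nat_lit 9) 
(.lf (nat_lit 563711) (.g (nat_lit 1665) (.e (nat_lit 426569) (nat_lit 35) (.e (nat_lit 401454) (nat_lit 12) (.e (nat_lit 475179) (nat_lit 24) (.e (nat_lit 516117) (nat_lit 1) .nil)))) (.g (nat_lit 0) (.e (nat_lit 323770) (nat_lit 0) .nil) .nil))) 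
(.lf (nat_lit 564223) (.g (nat_lit 2278) (.e (nat_lit 434219) (nat_lit 19) (.e (nat_lit 500087) (nat_lit 22) (.e (nat_lit 131107) (nat_lit 9) (.e (nat_lit 336324) (nat_lit 18) (.e (nat_lit 204837) (nat_lit 20) (.e (nat_lit 122624) (nat_lit 12) .nil)))))) (.g (nat_lit 1) (.e (nat_lit 325565) (nat_lit 0) .nil) .nil)))))))))))))

noncomputable def tv5611 : DT := (.nd (nat_lit 0) (.nd (nat_lit 1) (.nd (nat_lit 2) (.nd (nat_lit 3) (.nd (nat_lit 4) (.nd (nat_lit 5) (.nd (nat_lit 6) (.nd (nat_lit 7) (.nd (nat_lit 8) (.nd (nat_lit 9) 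
(.lf (nat_lit 564224) (.g (nat_lit 2308) (.e (nat_lit 434219) (nat_lit 19) (.e (nat_lit 500087) (nat_lit 22) (.e (nat_lit 131107) (nat_lit 9) (.e (nat_lit 336324) (nat_lit 18) (.e (nat_lit 204838) (nat_lit 20) (.e (nat_lit 122624) (nat_lit 12) .nil)))))) (.g (nat_lit 1) (.e (nat_lit 325566) (nat_lit 0) .nil) .nil))) 
(.lf (nat_lit 564736) (.g (nat_lit 2540) (.e (nat_lit 434231) (nat_lit 23) (.e (nat_lit 532569) (nat_lit 16) (.e (nat_lit 401448) (nat_lit 10) (.e (nat_lit 434227) (nat_lit 20) (.e (nat_lit 507946) (nat_lit 18) (.e (nat_lit 303135) (nat_lit 10) .nil)))))) (.g (nat_lit 1) (.e (nat_lit 327701) (nat_lit 0) .nil) .nil)))) (.nd (nat_lit 9) 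
(.lf (nat_lit 564480) (.g (nat_lit 422) (.e (nat_lit 434231) (nat_lit 23) (.e (nat_lit 532549) (nat_lit 12) (.e (nat_lit 360474) (nat_lit 8) .nil))) (.g (nat_lit 0) (.e (nat_lit 327090) (nat_lit 0) .nil) .nil))) 
(.lf (nat_lit 564992) (.g (nat_lit 3392) (.e (nat_lit 434234) (nat_lit 23) (.e (nat_lit 532499) (nat_lit 1) (.e (nat_lit 57688) (nat_lit 156) (.e (nat_lit 163874) (nat_lit 3) (.e (nat_lit 204836) (nat_lit 20) .nil))))) (.g (nat_lit 0) (.e (nat_lit 328291) (nat_lit 0) .nil) .nil))))) (.nd (nat_lit 8) (.nd (nat_lit 9) 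
(.lf (nat_lit 564352) (.g (nat_lit 1691) (.e (nat_lit 434231) (nat_lit 23) (.e (nat_lit 532522) (nat_lit 7) (.e (nat_lit 319530) (nat_lit 16) (.e (nat_lit 286727) (nat_lit 0) .nil)))) (.g (nat_lit 0) (.e (nat_lit 325945) (nat_lit 0) .nil) .nil))) 
(.lf (nat_lit 564864) (.g (nat_lit 3787) (.e (nat_lit 434232) (nat_lit 23) (.e (nat_lit 532549) (nat_lit 12) (.e (nat_lit 360475) (nat_lit 8) (.e (nat_lit 557091) (nat_lit 12) (.e (nat_lit 163850) (nat_lit 0) .nil))))) (.g (nat_lit 0) (.e (nat_lit 327928) (nat_lit 0) .nil) .nil)))) (.nd (nat_lit 9) 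
(.lf (nat_lit 564608) (.g (nat_lit 3748) (.e (nat_lit 434231) (nat_lit 23) (.e (nat_lit 532550) (nat_lit 12) (.e (nat_lit 360475) (nat_lit 8) (.e (nat_lit 557089) (nat_lit 12) (.e (nat_lit 163848) (nat_lit 0) (.e (nat_lit 6416) (nat_lit 341) (.e (nat_lit 163916) (nat_lit 13) .nil))))))) (.g (nat_lit 1) (.e (nat_lit 327418) (nat_lit 0) .nil) .nil))) 
(.lf (nat_lit 565120) (.g (nat_lit 688) (.e (nat_lit 442112) (nat_lit 25) (.e (nat_lit 548913) (nat_lit 18) (.e (nat_lit 172120) (nat_lit 12) .nil))) (.g (nat_lit 0) (.e (nat_lit 328832) (nat_lit 0) .nil) .nil)))))) (.nd (nat_lit 7) (.nd (nat_lit 8) (.nd (nat_lit 9) 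
(.lf (nat_lit 564288) (.g (nat_lit 5067) (.e (nat_lit 434230) (nat_lit 23) (.e (nat_lit 532550) (nat_lit 12) (.e (nat_lit 360475) (nat_lit 8) (.e (nat_lit 557091) (nat_lit 12) (.e (nat_lit 164022) (nat_lit 46) (.e (nat_lit 704629) (nat_lit 9) (.e (nat_lit 452) (nat_lit 33) .nil))))))) (.g (nat_lit 1) (.e (nat_lit 325798) (nat_lit 0) .nil) .nil))) 
(.lf (nat_lit 564800) (.g (nat_lit 2504) (.e (nat_lit 434232) (nat_lit 23) (.e (nat_lit 532501) (nat_lit 1) (.e (nat_lit 57691) (nat_lit 156) (.e (nat_lit 163875) (nat_lit 3) (.e (nat_lit 204838) (nat_lit 20) .nil))))) (.g (nat_lit 0) (.e (nat_lit 327843) (nat_lit 0) .nil) .nil)))) (.nd (nat_lit 9) 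
(.lf (nat_lit 564544) (.g (nat_lit 2125) (.e (nat_lit 434231) (nat_lit 23) (.e (nat_lit 532550) (nat_lit 12) (.e (nat_lit 360473) (nat_lit 8) (.e (nat_lit 557090) (nat_lit 12) (.e (nat_lit 164020) (nat_lit 45) .nil))))) (.g (nat_lit 0) (.e (nat_lit 327291) (nat_lit 0) .nil) .nil))) 
(.lf (nat_lit 565056) (.g (nat_lit 5575) (.e (nat_lit 434235) (nat_lit 24) (.e (nat_lit 540706) (nat_lit 12) (.e (nat_lit 360474) (nat_lit 8) (.e (nat_lit 557093) (nat_lit 12) (.e (nat_lit 164022) (nat_lit 46) (.e (nat_lit 704629) (nat_lit 9) (.e (nat_lit 442) (nat_lit 33) .nil))))))) (.g (nat_lit 1) (.e (nat_lit 328408) (nat_lit 0) .nil) .nil))))) (.nd (nat_lit 8) (.nd (nat_lit 9) 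
(.lf (nat_lit 564416) (.g (nat_lit 2504) (.e (nat_lit 434231) (nat_lit 23) (.e (nat_lit 532523) (nat_lit 7) (.e (nat_lit 319531) (nat_lit 16) (.e (nat_lit 286735) (nat_lit 3) (.e (nat_lit 98360) (nat_lit 26) .nil))))) (.g (nat_lit 0) (.e (nat_lit 326018) (nat_lit 0) .nil) .nil))) 
(.lf (nat_lit 564928) (.g (nat_lit 2808) (.e (nat_lit 434233) (nat_lit 23) (.e (nat_lit 532523) (nat_lit 7) (.e (nat_lit 319530) (nat_lit 16) (.e (nat_lit 286735) (nat_lit 3) (.e (nat_lit 98325) (nat_lit 17) .nil))))) (.g (nat_lit 0) (.e (nat_lit 328082) (nat_lit 0) .nil) .nil)))) (.nd (nat_lit 9) 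
(.lf (nat_lit 564672) (.g (nat_lit 2766) (.e (nat_lit 434231) (nat_lit 23) (.e (nat_lit 532550) (nat_lit 12) (.e (nat_lit 360475) (nat_lit 8) (.e (nat_lit 557091) (nat_lit 12) (.e (nat_lit 163850) (nat_lit 0) (.e (nat_lit 6426) (nat_lit 342) (.e (nat_lit 229407) (nat_lit 13) .nil))))))) (.g (nat_lit 1) (.e (nat_lit 327528) (nat_lit 0) .nil) .nil))) 
(.lf (nat_lit 565184) (.g (nat_lit 2622) (.e (nat_lit 434242) (nat_lit 28) (.e (nat_lit 573488) (nat_lit 14) (.e (nat_lit 73755) (nat_lit 8) (.e (nat_lit 557090) (nat_lit 12) (.e (nat_lit 164004) (nat_lit 41) .nil))))) (.g (nat_lit 0) (.e (nat_lit 328923) (nat_lit 0) .nil) .nil))))))) (.nd (nat_lit 6) (.nd (nat_lit 7) (.nd (nat_lit 8) (.nd (nat_lit 9) 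
(.lf (nat_lit 564256) (.g (nat_lit 1253) (.e (nat_lit 434230) (nat_lit 23) (.e (nat_lit 532503) (nat_lit 1) (.e (nat_lit 57685) (nat_lit 156) (.e (nat_lit 163875) (nat_lit 3) .nil)))) (.g (nat_lit 0) (.e (nat_lit 325749) (nat_lit 0) .nil) .nil))) 
(.lf (nat_lit 564768) (.g (nat_lit 364) (.e (nat_lit 434231) (nat_lit 23) (.e (nat_lit 532579) (nat_lit 26) (.e (nat_lit 426107) (nat_lit 1) .nil))) (.g (nat_lit 0) (.e (nat_lit 327753) (nat_lit 0) .nil) .nil)))) (.nd (nat_lit 9) 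
(.lf (nat_lit 564512) (.g (nat_lit 3935) (.e (nat_lit 434231) (nat_lit 23) (.e (nat_lit 532549) (nat_lit 12) (.e (nat_lit 360475) (nat_lit 8) (.e (nat_lit 557091) (nat_lit 12) (.e (nat_lit 163840) (nat_lit 0) (.e (nat_lit 6425) (nat_lit 342) (.e (nat_lit 229409) (nat_lit 13) .nil))))))) (.g (nat_lit 1) (.e (nat_lit 327182) (nat_lit 0) .nil) .nil))) 
(.lf (nat_lit 565024) (.g (nat_lit 1579) (.e (nat_lit 434234) (nat_lit 23) (.e (nat_lit 532513) (nat_lit 3) (.e (nat_lit 114714) (nat_lit 22) (.e (nat_lit 90118) (nat_lit 0) .nil)))) (.g (nat_lit 0) (.e (nat_lit 328325) (nat_lit 0) .nil) .nil))))) (.nd (nat_lit 8) (.nd (nat_lit 9) 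
(.lf (nat_lit 564384) (.g (nat_lit 2122) (.e (nat_lit 434231) (nat_lit 23) (.e (nat_lit 532523) (nat_lit 7) (.e (nat_lit 319530) (nat_lit 16) (.e (nat_lit 286733) (nat_lit 2) (.e (nat_lit 90134) (nat_lit 9) .nil))))) (.g (nat_lit 0) (.e (nat_lit 325982) (nat_lit 0) .nil) .nil))) 
(.lf (nat_lit 564896) (.g (nat_lit 3272) (.e (nat_lit 434233) (nat_lit 23) (.e (nat_lit 532499) (nat_lit 1) (.e (nat_lit 57688) (nat_lit 156) (.e (nat_lit 163905) (nat_lit 12) (.e (nat_lit 426566) (nat_lit 34) .nil))))) (.g (nat_lit 0) (.e (nat_lit 327999) (nat_lit 0) .nil) .nil)))) (.nd (nat_lit 9) 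
(.lf (nat_lit 564640) (.g (nat_lit 2916) (.e (nat_lit 434231) (nat_lit 23) (.e (nat_lit 532550) (nat_lit 12) (.e (nat_lit 360475) (nat_lit 8) (.e (nat_lit 557090) (nat_lit 12) (.e (nat_lit 164020) (nat_lit 45) (.e (nat_lit 696330) (nat_lit 5) (.e (nat_lit 2964) (nat_lit 185) .nil))))))) (.g (nat_lit 1) (.e (nat_lit 327467) (nat_lit 0) .nil) .nil))) 
(.lf (nat_lit 565152) (.g (nat_lit 1756) (.e (nat_lit 434242) (nat_lit 28) (.e (nat_lit 573471) (nat_lit 11) (.e (nat_lit 16447) (nat_lit 10) (.e (nat_lit 434231) (nat_lit 23) .nil)))) (.g (nat_lit 0) (.e (nat_lit 328871) (nat_lit 0) .nil) .nil)))))) (.nd (nat_lit 7) (.nd (nat_lit 8) (.nd (nat_lit 9) 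
(.lf (nat_lit 564320) (.g (nat_lit 576) (.e (nat_lit 434231) (nat_lit 23) (.e (nat_lit 532499) (nat_lit 1) (.e (nat_lit 57735) (nat_lit 183) .nil))) (.g (nat_lit 0) (.e (nat_lit 325875) (nat_lit 0) .nil) .nil))) 
(.lf (nat_lit 564832) (.g (nat_lit 2483) (.e (nat_lit 434232) (nat_lit 23) (.e (nat_lit 532504) (nat_lit 1) (.e (nat_lit 57692) (nat_lit 156) (.e (nat_lit 163874) (nat_lit 3) (.e (nat_lit 204834) (nat_lit 19) .nil))))) (.g (nat_lit 0) (.e (nat_lit 327876) (nat_lit 0) .nil) .nil)))) (.nd (nat_lit 9) 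
(.lf (nat_lit 564576) (.g (nat_lit 3143) (.e (nat_lit 434231) (nat_lit 23) (.e (nat_lit 532550) (nat_lit 12) (.e (nat_lit 360474) (nat_lit 8) (.e (nat_lit 557093) (nat_lit 12) (.e (nat_lit 164018) (nat_lit 45) (.e (nat_lit 696327) (nat_lit 5) (.e (nat_lit 2978) (nat_lit 185) .nil))))))) (.g (nat_lit 1) (.e (nat_lit 327333) (nat_lit 0) .nil) .nil))) 
(.lf (nat_lit 565088) (.g (nat_lit 4360) (.e (nat_lit 434238) (nat_lit 25) (.e (nat_lit 548913) (nat_lit 18) (.e (nat_lit 172094) (nat_lit 9) (.e (nat_lit 426125) (nat_lit 2) (.e (nat_lit 196631) (nat_lit 9) (.e (nat_lit 1673) (nat_lit 116) (.e (nat_lit 401447) (nat_lit 10) .nil))))))) (.g (nat_lit 1) (.e (nat_lit 328700) (nat_lit 0) .nil) .nil))))) (.nd (nat_lit 8) (.nd (nat_lit 9) 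
(.lf (nat_lit 564448) (.g (nat_lit 6259) (.e (nat_lit 434231) (nat_lit 23) (.e (nat_lit 532535) (nat_lit 9) (.e (nat_lit 336295) (nat_lit 15) (.e (nat_lit 3632) (nat_lit 227) (.e (nat_lit 778317) (nat_lit 3) (.e (nat_lit 57475) (nat_lit 28) (.e (nat_lit 557100) (nat_lit 13) (.e (nat_lit 172106) (nat_lit 10) .nil)))))))) (.g (nat_lit 1) (.e (nat_lit 326780) (nat_lit 0) .nil) .nil))) 
(.lf (nat_lit 564960) (.g (nat_lit 4064) (.e (nat_lit 434233) (nat_lit 23) (.e (nat_lit 532535) (nat_lit 9) (.e (nat_lit 336176) (nat_lit 10) (.e (nat_lit 344132) (nat_lit 26) (.e (nat_lit 557093) (nat_lit 12) .nil))))) (.g (nat_lit 0) (.e (nat_lit 328173) (nat_lit 0) .nil) .nil)))) (.nd (nat_lit 9) 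
(.lf (nat_lit 564704) (.g (nat_lit 4750) (.e (nat_lit 434231) (nat_lit 23) (.e (nat_lit 532550) (nat_lit 12) (.e (nat_lit 360475) (nat_lit 8) (.e (nat_lit 557091) (nat_lit 12) (.e (nat_lit 164022) (nat_lit 46) (.e (nat_lit 704629) (nat_lit 9) (.e (nat_lit 449) (nat_lit 33) .nil))))))) (.g (nat_lit 1) (.e (nat_lit 327582) (nat_lit 0) .nil) .nil))) 
(.lf (nat_lit 565216) (.g (nat_lit 2001) (.e (nat_lit 434244) (nat_lit 28) (.e (nat_lit 573449) (nat_lit 9) (.e (nat_lit 457) (nat_lit 34) (.e (nat_lit 442379) (nat_lit 0) (.e (nat_lit 1856) (nat_lit 124) .nil))))) (.g (nat_lit 0) (.e (nat_lit 328962) (nat_lit 0) .nil) .nil)))))))) (.nd (nat_lit 5) (.nd (nat_lit 6) (.nd (nat_lit 7) (.nd (nat_lit 8) (.nd (nat_lit 9) 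
(.lf (nat_lit 564240) (.g (nat_lit 2852) (.e (nat_lit 434227) (nat_lit 20) (.e (nat_lit 507930) (nat_lit 10) (.e (nat_lit 5616) (nat_lit 312) (.e (nat_lit 3063) (nat_lit 190) (.e (nat_lit 475185) (nat_lit 29) (.e (nat_lit 557101) (nat_lit 13) (.e (nat_lit 172115) (nat_lit 10) .nil))))))) (.g (nat_lit 1) (.e (nat_lit 325664) (nat_lit 0) .nil) .nil))) 
(.lf (nat_lit 564752) (.g (nat_lit 4027) (.e (nat_lit 434231) (nat_lit 23) (.e (nat_lit 532569) (nat_lit 16) (.e (nat_lit 401451) (nat_lit 12) (.e (nat_lit 475185) (nat_lit 29) (.e (nat_lit 557096) (nat_lit 13) (.e (nat_lit 172114) (nat_lit 10) .nil)))))) (.g (nat_lit 1) (.e (nat_lit 327736) (nat_lit 0) .nil) .nil)))) (.nd (nat_lit 9) 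
(.lf (nat_lit 564496) (.g (nat_lit 3998) (.e (nat_lit 434231) (nat_lit 23) (.e (nat_lit 532549) (nat_lit 12) (.e (nat_lit 360475) (nat_lit 8) (.e (nat_lit 557089) (nat_lit 12) (.e (nat_lit 163853) (nat_lit 0) (.e (nat_lit 6425) (nat_lit 342) (.e (nat_lit 229409) (nat_lit 13) .nil))))))) (.g (nat_lit 1) (.e (nat_lit 327148) (nat_lit 0) .nil) .nil))) 
(.lf (nat_lit 565008) (.g (nat_lit 1241) (.e (nat_lit 434234) (nat_lit 23) (.e (nat_lit 532503) (nat_lit 1) (.e (nat_lit 57651) (nat_lit 152) (.e (nat_lit 2619) (nat_lit 164) .nil)))) (.g (nat_lit 0) (.e (nat_lit 328308) (nat_lit 0) .nil) .nil))))) (.nd (nat_lit 8) (.nd (nat_lit 9) 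
(.lf (nat_lit 564368) (.g (nat_lit 2805) (.e (nat_lit 434231) (nat_lit 23) (.e (nat_lit 532522) (nat_lit 7) (.e (nat_lit 319531) (nat_lit 16) (.e (nat_lit 286733) (nat_lit 2) (.e (nat_lit 90134) (nat_lit 9) (.e (nat_lit 2886) (nat_lit 184) (.e (nat_lit 426290) (nat_lit 10) .nil))))))) (.g (nat_lit 1) (.e (nat_lit 325961) (nat_lit 0) .nil) .nil))) 
(.lf (nat_lit 564880) (.g (nat_lit 2910) (.e (nat_lit 434232) (nat_lit 23) (.e (nat_lit 532567) (nat_lit 16) (.e (nat_lit 401437) (nat_lit 9) (.e (nat_lit 426131) (nat_lit 3) (.e (nat_lit 204885) (nat_lit 33) (.e (nat_lit 401448) (nat_lit 10) .nil)))))) (.g (nat_lit 1) (.e (nat_lit 327966) (nat_lit 0) .nil) .nil)))) (.nd (nat_lit 9) 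
(.lf (nat_lit 564624) (.g (nat_lit 3024) (.e (nat_lit 434231) (nat_lit 23) (.e (nat_lit 532550) (nat_lit 12) (.e (nat_lit 360475) (nat_lit 8) (.e (nat_lit 557089) (nat_lit 12) (.e (nat_lit 163853) (nat_lit 0) (.e (nat_lit 6428) (nat_lit 342) (.e (nat_lit 229409) (nat_lit 13) .nil))))))) (.g (nat_lit 1) (.e (nat_lit 327440) (nat_lit 0) .nil) .nil))) 
(.lf (nat_lit 565136) (.g (nat_lit 1734) (.e (nat_lit 434242) (nat_lit 28) (.e (nat_lit 573469) (nat_lit 11) (.e (nat_lit 16473) (nat_lit 14) (.e (nat_lit 491525) (nat_lit 0) .nil)))) (.g (nat_lit 0) (.e (nat_lit 328852) (nat_lit 0) .nil) .nil)))))) (.nd (nat_lit 7) (.nd (nat_lit 8) (.nd (nat_lit 9) 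
(.lf (nat_lit 564304) (.g (nat_lit 2735) (.e (nat_lit 434231) (nat_lit 23) (.e (nat_lit 532499) (nat_lit 1) (.e (nat_lit 57688) (nat_lit 156) (.e (nat_lit 163873) (nat_lit 3) (.e (nat_lit 204836) (nat_lit 20) (.e (nat_lit 114719) (nat_lit 23) (.e (nat_lit 98366) (nat_lit 27) .nil))))))) (.g (nat_lit 1) (.e (nat_lit 325843) (nat_lit 0) .nil) .nil))) 
(.lf (nat_lit 564816) (.g (nat_lit 3178) (.e (nat_lit 434232) (nat_lit 23) (.e (nat_lit 532503) (nat_lit 1) (.e (nat_lit 57688) (nat_lit 156) (.e (nat_lit 163905) (nat_lit 12) (.e (nat_lit 426568) (nat_lit 34) (.e (nat_lit 393283) (nat_lit 24) .nil)))))) (.g (nat_lit 1) (.e (nat_lit 327860) (nat_lit 0) .nil) .nil)))) (.nd (nat_lit 9) 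
(.lf (nat_lit 564560) (.g (nat_lit 4782) (.e (nat_lit 434231) (nat_lit 23) (.e (nat_lit 532550) (nat_lit 12) (.e (nat_lit 360474) (nat_lit 8) (.e (nat_lit 557089) (nat_lit 12) (.e (nat_lit 163850) (nat_lit 0) .nil))))) (.g (nat_lit 0) (.e (nat_lit 327308) (nat_lit 0) .nil) .nil))) 
(.lf (nat_lit 565072) (.g (nat_lit 4030) (.e (nat_lit 434235) (nat_lit 24) (.e (nat_lit 540706) (nat_lit 12) (.e (nat_lit 360475) (nat_lit 8) (.e (nat_lit 557093) (nat_lit 12) (.e (nat_lit 164022) (nat_lit 46) .nil))))) (.g (nat_lit 0) (.e (nat_lit 328430) (nat_lit 0) .nil) .nil))))) (.nd (nat_lit 8) (.nd (nat_lit 9) 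
(.lf (nat_lit 564432) (.g (nat_lit 2178) (.e (nat_lit 434231) (nat_lit 23) (.e (nat_lit 532525) (nat_lit 8) (.e (nat_lit 327717) (nat_lit 17) (.e (nat_lit 294928) (nat_lit 2) (.e (nat_lit 90170) (nat_lit 13) (.e (nat_lit 172113) (nat_lit 10) .nil)))))) (.g (nat_lit 1) (.e (nat_lit 326035) (nat_lit 0) .nil) .nil))) 
(.lf (nat_lit 564944) (.g (nat_lit 1127) (.e (nat_lit 434233) (nat_lit 23) (.e (nat_lit 532523) (nat_lit 7) (.e (nat_lit 319533) (nat_lit 16) (.e (nat_lit 286735) (nat_lit 3) .nil)))) (.g (nat_lit 0) (.e (nat_lit 328121) (nat_lit 0) .nil) .nil)))) (.nd (nat_lit 9) 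
(.lf (nat_lit 564688) (.g (nat_lit 3816) (.e (nat_lit 434231) (nat_lit 23) (.e (nat_lit 532550) (nat_lit 12) (.e (nat_lit 360475) (nat_lit 8) (.e (nat_lit 557091) (nat_lit 12) (.e (nat_lit 164018) (nat_lit 45) (.e (nat_lit 696329) (nat_lit 5) (.e (nat_lit 2964) (nat_lit 185) .nil))))))) (.g (nat_lit 1) (.e (nat_lit 327564) (nat_lit 0) .nil) .nil))) 
(.lf (nat_lit 565200) (.g (nat_lit 730) (.e (nat_lit 434243) (nat_lit 28) (.e (nat_lit 573471) (nat_lit 11) (.e (nat_lit 16433) (nat_lit 9) .nil))) (.g (nat_lit 0) (.e (nat_lit 328943) (nat_lit 0) .nil) .nil))))))) (.nd (nat_lit 6) (.nd (nat_lit 7) (.nd (nat_lit 8) (.nd (nat_lit 9) 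
(.lf (nat_lit 564272) (.g (nat_lit 3747) (.e (nat_lit 434230) (nat_lit 23) (.e (nat_lit 532550) (nat_lit 12) (.e (nat_lit 360474) (nat_lit 8) (.e (nat_lit 557093) (nat_lit 12) (.e (nat_lit 164022) (nat_lit 46) .nil))))) (.g (nat_lit 0) (.e (nat_lit 325779) (nat_lit 0) .nil) .nil))) 
(.lf (nat_lit 564784) (.g (nat_lit 2789) (.e (nat_lit 434232) (nat_lit 23) (.e (nat_lit 532499) (nat_lit 1) (.e (nat_lit 57688) (nat_lit 156) (.e (nat_lit 163875) (nat_lit 3) (.e (nat_lit 204837) (nat_lit 20) .nil))))) (.g (nat_lit 0) (.e (nat_lit 327825) (nat_lit 0) .nil) .nil)))) (.nd (nat_lit 9) 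
(.lf (nat_lit 564528) (.g (nat_lit 4250) (.e (nat_lit 434231) (nat_lit 23) (.e (nat_lit 532549) (nat_lit 12) (.e (nat_lit 360475) (nat_lit 8) (.e (nat_lit 557091) (nat_lit 12) (.e (nat_lit 164020) (nat_lit 45) (.e (nat_lit 696327) (nat_lit 5) (.e (nat_lit 2964) (nat_lit 185) .nil))))))) (.g (nat_lit 1) (.e (nat_lit 327254) (nat_lit 0) .nil) .nil))) 
(.lf (nat_lit 565040) (.g (nat_lit 4193) (.e (nat_lit 434234) (nat_lit 23) (.e (nat_lit 532550) (nat_lit 12) (.e (nat_lit 360474) (nat_lit 8) (.e (nat_lit 557093) (nat_lit 12) .nil)))) (.g (nat_lit 0) (.e (nat_lit 328353) (nat_lit 0) .nil) .nil))))) (.nd (nat_lit 8) (.nd (nat_lit 9) 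
(.lf (nat_lit 564400) (.g (nat_lit 1752) (.e (nat_lit 434231) (nat_lit 23) (.e (nat_lit 532523) (nat_lit 7) (.e (nat_lit 319530) (nat_lit 16) (.e (nat_lit 286735) (nat_lit 3) (.e (nat_lit 98359) (nat_lit 26) .nil))))) (.g (nat_lit 0) (.e (nat_lit 326000) (nat_lit 0) .nil) .nil))) 
(.lf (nat_lit 564912) (.g (nat_lit 641) (.e (nat_lit 434233) (nat_lit 23) (.e (nat_lit 532503) (nat_lit 1) (.e (nat_lit 57651) (nat_lit 152) .nil))) (.g (nat_lit 0) (.e (nat_lit 328015) (nat_lit 0) .nil) .nil)))) (.nd (nat_lit 9) 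
(.lf (nat_lit 564656) (.g (nat_lit 4282) (.e (nat_lit 434231) (nat_lit 23) (.e (nat_lit 532550) (nat_lit 12) (.e (nat_lit 360475) (nat_lit 8) (.e (nat_lit 557091) (nat_lit 12) (.e (nat_lit 163843) (nat_lit 0) (.e (nat_lit 6416) (nat_lit 341) (.e (nat_lit 163918) (nat_lit 13) .nil))))))) (.g (nat_lit 1) (.e (nat_lit 327495) (nat_lit 0) .nil) .nil))) 
(.lf (nat_lit 565168) (.g (nat_lit 2872) (.e (nat_lit 434242) (nat_lit 28) (.e (nat_lit 573474) (nat_lit 12) (.e (nat_lit 57354) (nat_lit 0) (.e (nat_lit 7270) (nat_lit 385) (.e (nat_lit 122906) (nat_lit 12) .nil))))) (.g (nat_lit 0) (.e (nat_lit 328888) (nat_lit 0) .nil) .nil)))))) (.nd (nat_lit 7) (.nd (nat_lit 8) (.nd (nat_lit 9) 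
(.lf (nat_lit 564336) (.g (nat_lit 3785) (.e (nat_lit 434231) (nat_lit 23) (.e (nat_lit 532502) (nat_lit 1) (.e (nat_lit 57692) (nat_lit 156) (.e (nat_lit 163874) (nat_lit 3) (.e (nat_lit 204838) (nat_lit 20) (.e (nat_lit 114719) (nat_lit 23) (.e (nat_lit 98366) (nat_lit 27) .nil))))))) (.g (nat_lit 1) (.e (nat_lit 325893) (nat_lit 0) .nil) .nil))) 
(.lf (nat_lit 564848) (.g (nat_lit 837) (.e (nat_lit 434232) (nat_lit 23) (.e (nat_lit 532522) (nat_lit 7) (.e (nat_lit 319505) (nat_lit 10) .nil))) (.g (nat_lit 0) (.e (nat_lit 327895) (nat_lit 0) .nil) .nil)))) (.nd (nat_lit 9) 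
(.lf (nat_lit 564592) (.g (nat_lit 2913) (.e (nat_lit 434231) (nat_lit 23) (.e (nat_lit 532550) (nat_lit 12) (.e (nat_lit 360474) (nat_lit 8) (.e (nat_lit 557094) (nat_lit 12) (.e (nat_lit 164018) (nat_lit 45) (.e (nat_lit 696329) (nat_lit 5) (.e (nat_lit 2964) (nat_lit 185) .nil))))))) (.g (nat_lit 1) (.e (nat_lit 327366) (nat_lit 0) .nil) .nil))) 
(.lf (nat_lit 565104) (.g (nat_lit 4904) (.e (nat_lit 434238) (nat_lit 25) (.e (nat_lit 548913) (nat_lit 18) (.e (nat_lit 172124) (nat_lit 14) (.e (nat_lit 491537) (nat_lit 2) (.e (nat_lit 90170) (nat_lit 13) (.e (nat_lit 172113) (nat_lit 10) .nil)))))) (.g (nat_lit 1) (.e (nat_lit 328792) (nat_lit 0) .nil) .nil))))) (.nd (nat_lit 8) (.nd (nat_lit 9) 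
(.lf (nat_lit 564464) (.g (nat_lit 1101) (.e (nat_lit 434231) (nat_lit 23) (.e (nat_lit 532549) (nat_lit 12) (.e (nat_lit 360473) (nat_lit 8) (.e (nat_lit 557091) (nat_lit 12) .nil)))) (.g (nat_lit 0) (.e (nat_lit 326940) (nat_lit 0) .nil) .nil))) 
(.lf (nat_lit 564976) (.g (nat_lit 3685) (.e (nat_lit 434233) (nat_lit 23) (.e (nat_lit 532550) (nat_lit 12) (.e (nat_lit 360475) (nat_lit 8) (.e (nat_lit 557089) (nat_lit 12) (.e (nat_lit 171776) (nat_lit 49) .nil))))) (.g (nat_lit 0) (.e (nat_lit 328204) (nat_lit 0) .nil) .nil)))) (.nd (nat_lit 9) 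
(.lf (nat_lit 564720) (.g (nat_lit 3000) (.e (nat_lit 434231) (nat_lit 23) (.e (nat_lit 532569) (nat_lit 16) (.e (nat_lit 401434) (nat_lit 9) (.e (nat_lit 426125) (nat_lit 2) (.e (nat_lit 196617) (nat_lit 9) .nil))))) (.g (nat_lit 0) (.e (nat_lit 327659) (nat_lit 0) .nil) .nil))) 
(.lf (nat_lit 565232) (.g (nat_lit 4485) (.e (nat_lit 434244) (nat_lit 28) (.e (nat_lit 573451) (nat_lit 9) (.e (nat_lit 428) (nat_lit 32) (.e (nat_lit 425989) (nat_lit 0) (.e (nat_lit 7489) (nat_lit 402) (.e (nat_lit 1239) (nat_lit 91) (.e (nat_lit 90170) (nat_lit 13) (.e (nat_lit 172106) (nat_lit 10) .nil)))))))) (.g (nat_lit 1) (.e (nat_lit 328992) (nat_lit 0) .nil) .nil))))))))) 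
(.nd (nat_lit 4) (.nd (nat_lit 5) (.nd (nat_lit 6) (.nd (nat_lit 7) (.nd (nat_lit 8) 
(.nd (nat_lit 9) 
(.lf (nat_lit 564232) (.g (nat_lit 3242) (.e (nat_lit 434226) (nat_lit 20) (.e (nat_lit 507929) (nat_lit 10) (.e (nat_lit 5776) (nat_lit 317) (.e (nat_lit 180244) (nat_lit 5) (.e (nat_lit 532569) (nat_lit 16) (.e (nat_lit 401448) (nat_lit 10) .nil)))))) (.g (nat_lit 1) (.e (nat_lit 325589) (nat_lit 0) .nil) .nil))) 
(.lf (nat_lit 564744) (.g (nat_lit 2759) (.e (nat_lit 434231) (nat_lit 23) (.e (nat_lit 532569) (nat_lit 16) (.e (nat_lit 401448) (nat_lit 10) (.e (nat_lit 434238) (nat_lit 25) (.e (nat_lit 548913) (nat_lit 18) .nil))))) (.g (nat_lit 0) (.e (nat_lit 327711) (nat_lit 0) .nil) .nil)))) (.nd (nat_lit 9) 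
(.lf (nat_lit 564488) (.g (nat_lit 1417) (.e (nat_lit 434231) (nat_lit 23) (.e (nat_lit 532549) (nat_lit 12) (.e (nat_lit 360474) (nat_lit 8) (.e (nat_lit 557093) (nat_lit 12) .nil)))) (.g (nat_lit 0) (.e (nat_lit 327098) (nat_lit 0) .nil) .nil))) 
(.lf (nat_lit 565000) (.g (nat_lit 2471) (.e (nat_lit 434234) (nat_lit 23) (.e (nat_lit 532501) (nat_lit 1) (.e (nat_lit 57691) (nat_lit 156) (.e (nat_lit 163875) (nat_lit 3) (.e (nat_lit 204837) (nat_lit 20) .nil))))) (.g (nat_lit 0) (.e (nat_lit 328300) (nat_lit 0) .nil) .nil))))) (.nd (nat_lit 8) (.nd (nat_lit 9) 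
(.lf (nat_lit 564360) (.g (nat_lit 1978) (.e (nat_lit 434231) (nat_lit 23) (.e (nat_lit 532522) (nat_lit 7) (.e (nat_lit 319531) (nat_lit 16) (.e (nat_lit 286720) (nat_lit 0) .nil)))) (.g (nat_lit 0) (.e (nat_lit 325953) (nat_lit 0) .nil) .nil))) 
(.lf (nat_lit 564872) (.g (nat_lit 5356) (.e (nat_lit 434232) (nat_lit 23) (.e (nat_lit 532550) (nat_lit 12) (.e (nat_lit 360474) (nat_lit 8) (.e (nat_lit 557094) (nat_lit 12) (.e (nat_lit 164022) (nat_lit 46) (.e (nat_lit 704629) (nat_lit 9) (.e (nat_lit 452) (nat_lit 33) .nil))))))) (.g (nat_lit 1) (.e (nat_lit 327939) (nat_lit 0) .nil) .nil)))) (.nd (nat_lit 9) 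
(.lf (nat_lit 564616) (.g (nat_lit 2815) (.e (nat_lit 434231) (nat_lit 23) (.e (nat_lit 532550) (nat_lit 12) (.e (nat_lit 360475) (nat_lit 8) (.e (nat_lit 557089) (nat_lit 12) (.e (nat_lit 163849) (nat_lit 0) (.e (nat_lit 6418) (nat_lit 341) (.e (nat_lit 163917) (nat_lit 13) .nil))))))) (.g (nat_lit 1) (.e (nat_lit 327432) (nat_lit 0) .nil) .nil))) 
(.lf (nat_lit 565128) (.g (nat_lit 1812) (.e (nat_lit 434242) (nat_lit 28) (.e (nat_lit 573451) (nat_lit 9) (.e (nat_lit 359) (nat_lit 30) (.e (nat_lit 409603) (nat_lit 0) .nil)))) (.g (nat_lit 0) (.e (nat_lit 328843) (nat_lit 0) .nil) .nil)))))) (.nd (nat_lit 7) (.nd (nat_lit 8) (.nd (nat_lit 9) 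
(.lf (nat_lit 564296) (.g (nat_lit 3278) (.e (nat_lit 434230) (nat_lit 23) (.e (nat_lit 532569) (nat_lit 16) (.e (nat_lit 401448) (nat_lit 10) (.e (nat_lit 434231) (nat_lit 23) (.e (nat_lit 532569) (nat_lit 16) (.e (nat_lit 401448) (nat_lit 10) .nil)))))) (.g (nat_lit 1) (.e (nat_lit 325808) (nat_lit 0) .nil) .nil))) 
(.lf (nat_lit 564808) (.g (nat_lit 2119) (.e (nat_lit 434232) (nat_lit 23) (.e (nat_lit 532503) (nat_lit 1) (.e (nat_lit 57685) (nat_lit 156) (.e (nat_lit 163903) (nat_lit 12) (.e (nat_lit 426568) (nat_lit 34) (.e (nat_lit 393283) (nat_lit 24) .nil)))))) (.g (nat_lit 1) (.e (nat_lit 327852) (nat_lit 0) .nil) .nil)))) (.nd (nat_lit 9) 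
(.lf (nat_lit 564552) (.g (nat_lit 665) (.e (nat_lit 434231) (nat_lit 23) (.e (nat_lit 532550) (nat_lit 12) (.e (nat_lit 360473) (nat_lit 8) (.e (nat_lit 557091) (nat_lit 12) .nil)))) (.g (nat_lit 0) (.e (nat_lit 327299) (nat_lit 0) .nil) .nil))) 
(.lf (nat_lit 565064) (.g (nat_lit 2257) (.e (nat_lit 434235) (nat_lit 24) (.e (nat_lit 540706) (nat_lit 12) (.e (nat_lit 360475) (nat_lit 8) (.e (nat_lit 557090) (nat_lit 12) (.e (nat_lit 164020) (nat_lit 45) (.e (nat_lit 696329) (nat_lit 5) (.e (nat_lit 2970) (nat_lit 185) .nil))))))) (.g (nat_lit 1) (.e (nat_lit 328420) (nat_lit 0) .nil) .nil))))) (.nd (nat_lit 8) (.nd (nat_lit 9) 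
(.lf (nat_lit 564424) (.g (nat_lit 4339) (.e (nat_lit 434231) (nat_lit 23) (.e (nat_lit 532523) (nat_lit 7) (.e (nat_lit 327424) (nat_lit 16) (.e (nat_lit 286733) (nat_lit 2) (.e (nat_lit 90170) (nat_lit 13) (.e (nat_lit 172113) (nat_lit 10) .nil)))))) (.g (nat_lit 1) (.e (nat_lit 326026) (nat_lit 0) .nil) .nil))) 
(.lf (nat_lit 564936) (.g (nat_lit 502) (.e (nat_lit 434233) (nat_lit 23) (.e (nat_lit 532523) (nat_lit 7) (.e (nat_lit 319532) (nat_lit 16) .nil))) (.g (nat_lit 0) (.e (nat_lit 328097) (nat_lit 0) .nil) .nil)))) (.nd (nat_lit 9) 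
(.lf (nat_lit 564680) (.g (nat_lit 2639) (.e (nat_lit 434231) (nat_lit 23) (.e (nat_lit 532550) (nat_lit 12) (.e (nat_lit 360475) (nat_lit 8) (.e (nat_lit 557091) (nat_lit 12) (.e (nat_lit 163852) (nat_lit 0) (.e (nat_lit 6427) (nat_lit 342) (.e (nat_lit 229408) (nat_lit 13) .nil))))))) (.g (nat_lit 1) (.e (nat_lit 327536) (nat_lit 0) .nil) .nil))) 
(.lf (nat_lit 565192) (.g (nat_lit 2768) (.e (nat_lit 434242) (nat_lit 28) (.e (nat_lit 573488) (nat_lit 14) (.e (nat_lit 73755) (nat_lit 8) (.e (nat_lit 557091) (nat_lit 12) (.e (nat_lit 164007) (nat_lit 41) .nil))))) (.g (nat_lit 0) (.e (nat_lit 328933) (nat_lit 0) .nil) .nil))))))) (.nd (nat_lit 6) (.nd (nat_lit 7) (.nd (nat_lit 8) (.nd (nat_lit 9) 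
(.lf (nat_lit 564264) (.g (nat_lit 2604) (.e (nat_lit 434230) (nat_lit 23) (.e (nat_lit 532535) (nat_lit 9) (.e (nat_lit 336173) (nat_lit 10) (.e (nat_lit 344132) (nat_lit 26) .nil)))) (.g (nat_lit 0) (.e (nat_lit 325766) (nat_lit 0) .nil) .nil))) 
(.lf (nat_lit 564776) (.g (nat_lit 2579) (.e (nat_lit 434232) (nat_lit 23) (.e (nat_lit 532499) (nat_lit 1) (.e (nat_lit 57688) (nat_lit 156) (.e (nat_lit 163867) (nat_lit 2) (.e (nat_lit 196624) (nat_lit 9) .nil))))) (.g (nat_lit 0) (.e (nat_lit 327817) (nat_lit 0) .nil) .nil)))) (.nd (nat_lit 9) 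
(.lf (nat_lit 564520) (.g (nat_lit 3559) (.e (nat_lit 434231) (nat_lit 23) (.e (nat_lit 532549) (nat_lit 12) (.e (nat_lit 360475) (nat_lit 8) (.e (nat_lit 557091) (nat_lit 12) (.e (nat_lit 164018) (nat_lit 45) (.e (nat_lit 696327) (nat_lit 5) (.e (nat_lit 2964) (nat_lit 185) .nil))))))) (.g (nat_lit 1) (.e (nat_lit 327246) (nat_lit 0) .nil) .nil))) 
(.lf (nat_lit 565032) (.g (nat_lit 1441) (.e (nat_lit 434234) (nat_lit 23) (.e (nat_lit 532523) (nat_lit 7) (.e (nat_lit 319539) (nat_lit 19) (.e (nat_lit 311315) (nat_lit 3) .nil)))) (.g (nat_lit 0) (.e (nat_lit 328338) (nat_lit 0) .nil) .nil))))) (.nd (nat_lit 8) (.nd (nat_lit 9) 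
(.lf (nat_lit 564392) (.g (nat_lit 2554) (.e (nat_lit 434231) (nat_lit 23) (.e (nat_lit 532523) (nat_lit 7) (.e (nat_lit 319530) (nat_lit 16) (.e (nat_lit 286733) (nat_lit 2) (.e (nat_lit 90134) (nat_lit 9) (.e (nat_lit 2878) (nat_lit 184) (.e (nat_lit 426289) (nat_lit 10) .nil))))))) (.g (nat_lit 1) (.e (nat_lit 325992) (nat_lit 0) .nil) .nil))) 
(.lf (nat_lit 564904) (.g (nat_lit 1739) (.e (nat_lit 434233) (nat_lit 23) (.e (nat_lit 532501) (nat_lit 1) (.e (nat_lit 57651) (nat_lit 152) (.e (nat_lit 2619) (nat_lit 164) (.e (nat_lit 179968) (nat_lit 34) .nil))))) (.g (nat_lit 0) (.e (nat_lit 328007) (nat_lit 0) .nil) .nil)))) (.nd (nat_lit 9) 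
(.lf (nat_lit 564648) (.g (nat_lit 2516) (.e (nat_lit 434231) (nat_lit 23) (.e (nat_lit 532550) (nat_lit 12) (.e (nat_lit 360475) (nat_lit 8) (.e (nat_lit 557091) (nat_lit 12) (.e (nat_lit 163840) (nat_lit 0) (.e (nat_lit 6425) (nat_lit 342) (.e (nat_lit 229408) (nat_lit 13) .nil))))))) (.g (nat_lit 1) (.e (nat_lit 327477) (nat_lit 0) .nil) .nil))) 
(.lf (nat_lit 565160) (.g (nat_lit 3947) (.e (nat_lit 434242) (nat_lit 28) (.e (nat_lit 573471) (nat_lit 11) (.e (nat_lit 16470) (nat_lit 14) (.e (nat_lit 491538) (nat_lit 3) .nil)))) (.g (nat_lit 0) (.e (nat_lit 328879) (nat_lit 0) .nil) .nil)))))) (.nd (nat_lit 7) (.nd (nat_lit 8) (.nd (nat_lit 9) 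
(.lf (nat_lit 564328) (.g (nat_lit 4816) (.e (nat_lit 434231) (nat_lit 23) (.e (nat_lit 532500) (nat_lit 1) (.e (nat_lit 57691) (nat_lit 156) (.e (nat_lit 163875) (nat_lit 3) (.e (nat_lit 204837) (nat_lit 20) (.e (nat_lit 114718) (nat_lit 23) (.e (nat_lit 98367) (nat_lit 27) .nil))))))) (.g (nat_lit 1) (.e (nat_lit 325883) (nat_lit 0) .nil) .nil))) 
(.lf (nat_lit 564840) (.g (nat_lit 1433) (.e (nat_lit 434232) (nat_lit 23) (.e (nat_lit 532513) (nat_lit 3) (.e (nat_lit 114714) (nat_lit 22) (.e (nat_lit 90165) (nat_lit 12) .nil)))) (.g (nat_lit 0) (.e (nat_lit 327886) (nat_lit 0) .nil) .nil)))) (.nd (nat_lit 9) 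
(.lf (nat_lit 564584) (.g (nat_lit 873) (.e (nat_lit 434231) (nat_lit 23) (.e (nat_lit 532550) (nat_lit 12) (.e (nat_lit 360474) (nat_lit 8) (.e (nat_lit 557094) (nat_lit 12) .nil)))) (.g (nat_lit 0) (.e (nat_lit 327349) (nat_lit 0) .nil) .nil))) 
(.lf (nat_lit 565096) (.g (nat_lit 2160) (.e (nat_lit 434238) (nat_lit 25) (.e (nat_lit 548913) (nat_lit 18) (.e (nat_lit 172120) (nat_lit 12) (.e (nat_lit 475183) (nat_lit 29) (.e (nat_lit 557098) (nat_lit 13) .nil))))) (.g (nat_lit 0) (.e (nat_lit 328784) (nat_lit 0) .nil) .nil))))) (.nd (nat_lit 8) (.nd (nat_lit 9) 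
(.lf (nat_lit 564456) (.g (nat_lit 4319) (.e (nat_lit 434231) (nat_lit 23) (.e (nat_lit 532549) (nat_lit 12) (.e (nat_lit 360472) (nat_lit 8) (.e (nat_lit 557090) (nat_lit 12) (.e (nat_lit 164020) (nat_lit 45) (.e (nat_lit 696330) (nat_lit 5) (.e (nat_lit 2980) (nat_lit 185) .nil))))))) (.g (nat_lit 1) (.e (nat_lit 326883) (nat_lit 0) .nil) .nil))) 
(.lf (nat_lit 564968) (.g (nat_lit 3469) (.e (nat_lit 434233) (nat_lit 23) (.e (nat_lit 532549) (nat_lit 12) (.e (nat_lit 360475) (nat_lit 8) (.e (nat_lit 557091) (nat_lit 12) (.e (nat_lit 164022) (nat_lit 46) .nil))))) (.g (nat_lit 0) (.e (nat_lit 328191) (nat_lit 0) .nil) .nil)))) (.nd (nat_lit 9) 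
(.lf (nat_lit 564712) (.g (nat_lit 4334) (.e (nat_lit 434231) (nat_lit 23) (.e (nat_lit 532567) (nat_lit 16) (.e (nat_lit 401454) (nat_lit 12) (.e (nat_lit 475185) (nat_lit 29) (.e (nat_lit 557101) (nat_lit 13) (.e (nat_lit 172115) (nat_lit 10) .nil)))))) (.g (nat_lit 1) (.e (nat_lit 327641) (nat_lit 0) .nil) .nil))) 
(.lf (nat_lit 565224) (.g (nat_lit 2090) (.e (nat_lit 434244) (nat_lit 28) (.e (nat_lit 573450) (nat_lit 9) (.e (nat_lit 436) (nat_lit 32) (.e (nat_lit 426188) (nat_lit 9) (.e (nat_lit 426354) (nat_lit 15) .nil))))) (.g (nat_lit 0) (.e (nat_lit 328975) (nat_lit 0) .nil) .nil)))))))) (.nd (nat_lit 5) (.nd (nat_lit 6) (.nd (nat_lit 7) (.nd (nat_lit 8) (.nd (nat_lit 9) 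
(.lf (nat_lit 564248) (.g (nat_lit 2758) (.e (nat_lit 434227) (nat_lit 20) (.e (nat_lit 507946) (nat_lit 18) (.e (nat_lit 303143) (nat_lit 12) (.e (nat_lit 475185) (nat_lit 29) (.e (nat_lit 557100) (nat_lit 13) (.e (nat_lit 172113) (nat_lit 10) .nil)))))) (.g (nat_lit 1) (.e (nat_lit 325741) (nat_lit 0) .nil) .nil))) 
(.lf (nat_lit 564760) (.g (nat_lit 3335) (.e (nat_lit 434231) (nat_lit 23) (.e (nat_lit 532579) (nat_lit 26) (.e (nat_lit 426098) (nat_lit 1) (.e (nat_lit 164398) (nat_lit 256) (.e (nat_lit 57407) (nat_lit 12) (.e (nat_lit 336398) (nat_lit 27) (.e (nat_lit 426290) (nat_lit 10) .nil))))))) (.g (nat_lit 1) (.e (nat_lit 327745) (nat_lit 0) .nil) .nil)))) (.nd (nat_lit 9) 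
(.lf (nat_lit 564504) (.g (nat_lit 4197) (.e (nat_lit 434231) (nat_lit 23) (.e (nat_lit 532549) (nat_lit 12) (.e (nat_lit 360475) (nat_lit 8) (.e (nat_lit 557089) (nat_lit 12) (.e (nat_lit 164020) (nat_lit 45) (.e (nat_lit 696330) (nat_lit 5) (.e (nat_lit 2980) (nat_lit 185) .nil))))))) (.g (nat_lit 1) (.e (nat_lit 327170) (nat_lit 0) .nil) .nil))) 
(.lf (nat_lit 565016) (.g (nat_lit 1319) (.e (nat_lit 434234) (nat_lit 23) (.e (nat_lit 532503) (nat_lit 1) (.e (nat_lit 57691) (nat_lit 156) (.e (nat_lit 163907) (nat_lit 12) .nil)))) (.g (nat_lit 0) (.e (nat_lit 328316) (nat_lit 0) .nil) .nil))))) (.nd (nat_lit 8) (.nd (nat_lit 9) 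
(.lf (nat_lit 564376) (.g (nat_lit 2150) (.e (nat_lit 434231) (nat_lit 23) (.e (nat_lit 532523) (nat_lit 7) (.e (nat_lit 319504) (nat_lit 10) (.e (nat_lit 5343) (nat_lit 298) .nil)))) (.g (nat_lit 0) (.e (nat_lit 325970) (nat_lit 0) .nil) .nil))) 
(.lf (nat_lit 564888) (.g (nat_lit 1010) (.e (nat_lit 434233) (nat_lit 23) (.e (nat_lit 532499) (nat_lit 1) (.e (nat_lit 57654) (nat_lit 152) .nil))) (.g (nat_lit 0) (.e (nat_lit 327991) (nat_lit 0) .nil) .nil)))) (.nd (nat_lit 9) 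
(.lf (nat_lit 564632) (.g (nat_lit 4254) (.e (nat_lit 434231) (nat_lit 23) (.e (nat_lit 532550) (nat_lit 12) (.e (nat_lit 360475) (nat_lit 8) (.e (nat_lit 557089) (nat_lit 12) (.e (nat_lit 164020) (nat_lit 45) (.e (nat_lit 696330) (nat_lit 5) (.e (nat_lit 2964) (nat_lit 185) .nil))))))) (.g (nat_lit 1) (.e (nat_lit 327456) (nat_lit 0) .nil) .nil))) 
(.lf (nat_lit 565144) (.g (nat_lit 576) (.e (nat_lit 434242) (nat_lit 28) (.e (nat_lit 573471) (nat_lit 11) (.e (nat_lit 16433) (nat_lit 9) .nil))) (.g (nat_lit 0) (.e (nat_lit 328861) (nat_lit 0) .nil) .nil)))))) (.nd (nat_lit 7) (.nd (nat_lit 8) (.nd (nat_lit 9) 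
(.lf (nat_lit 564312) (.g (nat_lit 1851) (.e (nat_lit 434231) (nat_lit 23) (.e (nat_lit 532499) (nat_lit 1) (.e (nat_lit 57688) (nat_lit 156) (.e (nat_lit 163904) (nat_lit 12) (.e (nat_lit 426568) (nat_lit 34) .nil))))) (.g (nat_lit 0) (.e (nat_lit 325855) (nat_lit 0) .nil) .nil))) 
(.lf (nat_lit 564824) (.g (nat_lit 2140) (.e (nat_lit 434232) (nat_lit 23) (.e (nat_lit 532504) (nat_lit 1) (.e (nat_lit 57690) (nat_lit 156) (.e (nat_lit 163871) (nat_lit 2) (.e (nat_lit 196624) (nat_lit 9) .nil))))) (.g (nat_lit 0) (.e (nat_lit 327868) (nat_lit 0) .nil) .nil)))) (.nd (nat_lit 9) 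
(.lf (nat_lit 564568) (.g (nat_lit 3911) (.e (nat_lit 434231) (nat_lit 23) (.e (nat_lit 532550) (nat_lit 12) (.e (nat_lit 360474) (nat_lit 8) (.e (nat_lit 557091) (nat_lit 12) (.e (nat_lit 164020) (nat_lit 45) (.e (nat_lit 696330) (nat_lit 5) (.e (nat_lit 2964) (nat_lit 185) .nil))))))) (.g (nat_lit 1) (.e (nat_lit 327317) (nat_lit 0) .nil) .nil))) 
(.lf (nat_lit 565080) (.g (nat_lit 2526) (.e (nat_lit 434236) (nat_lit 25) (.e (nat_lit 548913) (nat_lit 18) (.e (nat_lit 172126) (nat_lit 14) (.e (nat_lit 491537) (nat_lit 2) (.e (nat_lit 90170) (nat_lit 13) .nil))))) (.g (nat_lit 0) (.e (nat_lit 328483) (nat_lit 0) .nil) .nil))))) (.nd (nat_lit 8) (.nd (nat_lit 9) 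
(.lf (nat_lit 564440) (.g (nat_lit 2376) (.e (nat_lit 434231) (nat_lit 23) (.e (nat_lit 532529) (nat_lit 9) (.e (nat_lit 336336) (nat_lit 20) (.e (nat_lit 221198) (nat_lit 20) .nil)))) (.g (nat_lit 0) (.e (nat_lit 326057) (nat_lit 0) .nil) .nil))) 
(.lf (nat_lit 564952) (.g (nat_lit 2536) (.e (nat_lit 434233) (nat_lit 23) (.e (nat_lit 532523) (nat_lit 7) (.e (nat_lit 319534) (nat_lit 16) (.e (nat_lit 286734) (nat_lit 3) (.e (nat_lit 106240) (nat_lit 26) .nil))))) (.g (nat_lit 0) (.e (nat_lit 328147) (nat_lit 0) .nil) .nil)))) (.nd (nat_lit 9) 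
(.lf (nat_lit 564696) (.g (nat_lit 3026) (.e (nat_lit 434231) (nat_lit 23) (.e (nat_lit 532550) (nat_lit 12) (.e (nat_lit 360475) (nat_lit 8) (.e (nat_lit 557091) (nat_lit 12) (.e (nat_lit 164020) (nat_lit 45) (.e (nat_lit 696328) (nat_lit 5) (.e (nat_lit 2978) (nat_lit 185) .nil))))))) (.g (nat_lit 1) (.e (nat_lit 327572) (nat_lit 0) .nil) .nil))) 
(.lf (nat_lit 565208) (.g (nat_lit 3770) (.e (nat_lit 434243) (nat_lit 28) (.e (nat_lit 573471) (nat_lit 11) (.e (nat_lit 16470) (nat_lit 14) (.e (nat_lit 491537) (nat_lit 2) .nil)))) (.g (nat_lit 0) (.e (nat_lit 328954) (nat_lit 0) .nil) .nil))))))) (.nd (nat_lit 6) (.nd (nat_lit 7) (.nd (nat_lit 8) (.nd (nat_lit 9) 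
(.lf (nat_lit 564280) (.g (nat_lit 4427) (.e (nat_lit 434230) (nat_lit 23) (.e (nat_lit 532550) (nat_lit 12) (.e (nat_lit 360474) (nat_lit 8) (.e (nat_lit 557094) (nat_lit 12) (.e (nat_lit 164022) (nat_lit 46) (.e (nat_lit 704629) (nat_lit 9) (.e (nat_lit 452) (nat_lit 33) .nil))))))) (.g (nat_lit 1) (.e (nat_lit 325787) (nat_lit 0) .nil) .nil))) 
(.lf (nat_lit 564792) (.g (nat_lit 2640) (.e (nat_lit 434232) (nat_lit 23) (.e (nat_lit 532499) (nat_lit 1) (.e (nat_lit 57691) (nat_lit 156) (.e (nat_lit 163907) (nat_lit 12) (.e (nat_lit 426568) (nat_lit 34) (.e (nat_lit 393283) (nat_lit 24) .nil)))))) (.g (nat_lit 1) (.e (nat_lit 327835) (nat_lit 0) .nil) .nil)))) (.nd (nat_lit 9) 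
(.lf (nat_lit 564536) (.g (nat_lit 4867) (.e (nat_lit 434231) (nat_lit 23) (.e (nat_lit 532549) (nat_lit 12) (.e (nat_lit 360475) (nat_lit 8) (.e (nat_lit 557091) (nat_lit 12) (.e (nat_lit 164022) (nat_lit 46) (.e (nat_lit 704628) (nat_lit 9) (.e (nat_lit 452) (nat_lit 33) .nil))))))) (.g (nat_lit 1) (.e (nat_lit 327270) (nat_lit 0) .nil) .nil))) 
(.lf (nat_lit 565048) (.g (nat_lit 2416) (.e (nat_lit 434234) (nat_lit 23) (.e (nat_lit 532569) (nat_lit 16) (.e (nat_lit 401446) (nat_lit 10) (.e (nat_lit 434233) (nat_lit 23) .nil)))) (.g (nat_lit 0) (.e (nat_lit 328381) (nat_lit 0) .nil) .nil))))) (.nd (nat_lit 8) (.nd (nat_lit 9) 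
(.lf (nat_lit 564408) (.g (nat_lit 2505) (.e (nat_lit 434231) (nat_lit 23) (.e (nat_lit 532523) (nat_lit 7) (.e (nat_lit 319531) (nat_lit 16) (.e (nat_lit 286733) (nat_lit 2) (.e (nat_lit 90134) (nat_lit 9) (.e (nat_lit 2874) (nat_lit 184) (.e (nat_lit 426289) (nat_lit 10) .nil))))))) (.g (nat_lit 1) (.e (nat_lit 326009) (nat_lit 0) .nil) .nil))) 
(.lf (nat_lit 564920) (.g (nat_lit 2390) (.e (nat_lit 434233) (nat_lit 23) (.e (nat_lit 532504) (nat_lit 1) (.e (nat_lit 57691) (nat_lit 156) (.e (nat_lit 163907) (nat_lit 12) (.e (nat_lit 426568) (nat_lit 34) (.e (nat_lit 393282) (nat_lit 24) .nil)))))) (.g (nat_lit 1) (.e (nat_lit 328023) (nat_lit 0) .nil) .nil)))) (.nd (nat_lit 9) 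
(.lf (nat_lit 564664) (.g (nat_lit 2494) (.e (nat_lit 434231) (nat_lit 23) (.e (nat_lit 532550) (nat_lit 12) (.e (nat_lit 360475) (nat_lit 8) (.e (nat_lit 557091) (nat_lit 12) (.e (nat_lit 163849) (nat_lit 0) .nil))))) (.g (nat_lit 0) (.e (nat_lit 327513) (nat_lit 0) .nil) .nil))) 
(.lf (nat_lit 565176) (.g (nat_lit 1529) (.e (nat_lit 434242) (nat_lit 28) (.e (nat_lit 573488) (nat_lit 14) (.e (nat_lit 73747) (nat_lit 3) (.e (nat_lit 516195) (nat_lit 26) .nil)))) (.g (nat_lit 0) (.e (nat_lit 328900) (nat_lit 0) .nil) .nil)))))) (.nd (nat_lit 7) (.nd (nat_lit 8) (.nd (nat_lit 9) 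
(.lf (nat_lit 564344) (.g (nat_lit 3847) (.e (nat_lit 434231) (nat_lit 23) (.e (nat_lit 532514) (nat_lit 3) (.e (nat_lit 114717) (nat_lit 23) (.e (nat_lit 98333) (nat_lit 18) (.e (nat_lit 164399) (nat_lit 256) (.e (nat_lit 57378) (nat_lit 3) (.e (nat_lit 98366) (nat_lit 27) .nil))))))) (.g (nat_lit 1) (.e (nat_lit 325922) (nat_lit 0) .nil) .nil))) 
(.lf (nat_lit 564856) (.g (nat_lit 4596) (.e (nat_lit 434232) (nat_lit 23) (.e (nat_lit 532535) (nat_lit 9) (.e (nat_lit 336176) (nat_lit 10) (.e (nat_lit 344133) (nat_lit 26) (.e (nat_lit 557091) (nat_lit 12) .nil))))) (.g (nat_lit 0) (.e (nat_lit 327913) (nat_lit 0) .nil) .nil)))) (.nd (nat_lit 9) 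
(.lf (nat_lit 564600) (.g (nat_lit 3717) (.e (nat_lit 434231) (nat_lit 23) (.e (nat_lit 532550) (nat_lit 12) (.e (nat_lit 360475) (nat_lit 8) (.e (nat_lit 557088) (nat_lit 12) .nil)))) (.g (nat_lit 0) (.e (nat_lit 327397) (nat_lit 0) .nil) .nil))) 
(.lf (nat_lit 565112) (.g (nat_lit 4311) (.e (nat_lit 434238) (nat_lit 25) (.e (nat_lit 548913) (nat_lit 18) (.e (nat_lit 172126) (nat_lit 14) (.e (nat_lit 491537) (nat_lit 2) (.e (nat_lit 90170) (nat_lit 13) (.e (nat_lit 172107) (nat_lit 10) .nil)))))) (.g (nat_lit 1) (.e (nat_lit 328800) (nat_lit 0) .nil) .nil))))) (.nd (nat_lit 8) (.nd (nat_lit 9) 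
(.lf (nat_lit 564472) (.g (nat_lit 3546) (.e (nat_lit 434231) (nat_lit 23) (.e (nat_lit 532549) (nat_lit 12) (.e (nat_lit 360473) (nat_lit 8) (.e (nat_lit 557091) (nat_lit 12) (.e (nat_lit 164018) (nat_lit 45) (.e (nat_lit 696330) (nat_lit 5) (.e (nat_lit 2964) (nat_lit 185) .nil))))))) (.g (nat_lit 1) (.e (nat_lit 327029) (nat_lit 0) .nil) .nil))) 
(.lf (nat_lit 564984) (.g (nat_lit 1900) (.e (nat_lit 434233) (nat_lit 23) (.e (nat_lit 532569) (nat_lit 16) (.e (nat_lit 401448) (nat_lit 10) (.e (nat_lit 434227) (nat_lit 20) .nil)))) (.g (nat_lit 0) (.e (nat_lit 328241) (nat_lit 0) .nil) .nil)))) (.nd (nat_lit 9) 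
(.lf (nat_lit 564728) (.g (nat_lit 364) (.e (nat_lit 434231) (nat_lit 23) (.e (nat_lit 532569) (nat_lit 16) (.e (nat_lit 401440) (nat_lit 9) .nil))) (.g (nat_lit 0) (.e (nat_lit 327673) (nat_lit 0) .nil) .nil))) 
(.lf (nat_lit 565240) (.g (nat_lit 4351) (.e (nat_lit 434244) (nat_lit 28) (.e (nat_lit 573451) (nat_lit 9) (.e (nat_lit 498) (nat_lit 40) (.e (nat_lit 491563) (nat_lit 12) (.e (nat_lit 385067) (nat_lit 26) (.e (nat_lit 532513) (nat_lit 3) (.e (nat_lit 122624) (nat_lit 12) .nil))))))) (.g (nat_lit 1) (.e (nat_lit 329004) (nat_lit 0) .nil) .nil)))))))))) 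
(.nd (nat_lit 3) (.nd (nat_lit 4) (.nd (nat_lit 5) (.nd (nat_lit 6) (.nd (nat_lit 7) 
(.nd (nat_lit 8) (.nd (nat_lit 9) 
(.lf (nat_lit 564228) (.g (nat_lit 2097) (.e (nat_lit 434221) (nat_lit 19) (.e (nat_lit 500046) (nat_lit 16) (.e (nat_lit 16412) (nat_lit 2) (.e (nat_lit 196654) (nat_lit 11) (.e (nat_lit 16415) (nat_lit 3) .nil))))) (.g (nat_lit 0) (.e (nat_lit 325582) (nat_lit 0) .nil) .nil))) 
(.lf (nat_lit 564740) (.g (nat_lit 4661) (.e (nat_lit 434231) (nat_lit 23) (.e (nat_lit 532569) (nat_lit 16) (.e (nat_lit 401448) (nat_lit 10) (.e (nat_lit 434232) (nat_lit 23) (.e (nat_lit 532568) (nat_lit 16) (.e (nat_lit 401448) (nat_lit 10) .nil)))))) (.g (nat_lit 1) (.e (nat_lit 327705) (nat_lit 0) .nil) .nil)))) (.nd (nat_lit 9) 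
(.lf (nat_lit 564484) (.g (nat_lit 2093) (.e (nat_lit 434231) (nat_lit 23) (.e (nat_lit 532549) (nat_lit 12) (.e (nat_lit 360474) (nat_lit 8) (.e (nat_lit 557091) (nat_lit 12) .nil)))) (.g (nat_lit 0) (.e (nat_lit 327094) (nat_lit 0) .nil) .nil))) 
(.lf (nat_lit 564996) (.g (nat_lit 3189) (.e (nat_lit 434234) (nat_lit 23) (.e (nat_lit 532499) (nat_lit 1) (.e (nat_lit 57691) (nat_lit 156) (.e (nat_lit 163907) (nat_lit 12) (.e (nat_lit 426568) (nat_lit 34) (.e (nat_lit 393283) (nat_lit 24) .nil)))))) (.g (nat_lit 1) (.e (nat_lit 328296) (nat_lit 0) .nil) .nil))))) (.nd (nat_lit 8) (.nd (nat_lit 9) 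
(.lf (nat_lit 564356) (.g (nat_lit 2751) (.e (nat_lit 434231) (nat_lit 23) (.e (nat_lit 532522) (nat_lit 7) (.e (nat_lit 319530) (nat_lit 16) (.e (nat_lit 286733) (nat_lit 2) (.e (nat_lit 90134) (nat_lit 9) (.e (nat_lit 2872) (nat_lit 184) (.e (nat_lit 426290) (nat_lit 10) .nil))))))) (.g (nat_lit 1) (.e (nat_lit 325949) (nat_lit 0) .nil) .nil))) 
(.lf (nat_lit 564868) (.g (nat_lit 3929) (.e (nat_lit 434232) (nat_lit 23) (.e (nat_lit 532550) (nat_lit 12) (.e (nat_lit 360474) (nat_lit 8) (.e (nat_lit 557093) (nat_lit 12) .nil)))) (.g (nat_lit 0) (.e (nat_lit 327935) (nat_lit 0) .nil) .nil)))) (.nd (nat_lit 9) 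
(.lf (nat_lit 564612) (.g (nat_lit 3854) (.e (nat_lit 434231) (nat_lit 23) (.e (nat_lit 532550) (nat_lit 12) (.e (nat_lit 360475) (nat_lit 8) (.e (nat_lit 557089) (nat_lit 12) (.e (nat_lit 163849) (nat_lit 0) (.e (nat_lit 6416) (nat_lit 341) (.e (nat_lit 163916) (nat_lit 13) .nil))))))) (.g (nat_lit 1) (.e (nat_lit 327428) (nat_lit 0) .nil) .nil))) 
(.lf (nat_lit 565124) (.g (nat_lit 2301) (.e (nat_lit 434242) (nat_lit 28) (.e (nat_lit 573450) (nat_lit 9) (.e (nat_lit 375) (nat_lit 32) (.e (nat_lit 426338) (nat_lit 14) .nil)))) (.g (nat_lit 0) (.e (nat_lit 328839) (nat_lit 0) .nil) .nil)))))) (.nd (nat_lit 7) (.nd (nat_lit 8) (.nd (nat_lit 9) 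
(.lf (nat_lit 564292) (.g (nat_lit 2412) (.e (nat_lit 434230) (nat_lit 23) (.e (nat_lit 532569) (nat_lit 16) (.e (nat_lit 401444) (nat_lit 9) (.e (nat_lit 426129) (nat_lit 3) .nil)))) (.g (nat_lit 0) (.e (nat_lit 325803) (nat_lit 0) .nil) .nil))) 
(.lf (nat_lit 564804) (.g (nat_lit 1586) (.e (nat_lit 434232) (nat_lit 23) (.e (nat_lit 532502) (nat_lit 1) (.e (nat_lit 57688) (nat_lit 156) (.e (nat_lit 163902) (nat_lit 12) (.e (nat_lit 426568) (nat_lit 34) .nil))))) (.g (nat_lit 0) (.e (nat_lit 327847) (nat_lit 0) .nil) .nil)))) (.nd (nat_lit 9) 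
(.lf (nat_lit 564548) (.g (nat_lit 3923) (.e (nat_lit 434231) (nat_lit 23) (.e (nat_lit 532550) (nat_lit 12) (.e (nat_lit 360473) (nat_lit 8) (.e (nat_lit 557090) (nat_lit 12) (.e (nat_lit 164020) (nat_lit 45) (.e (nat_lit 696329) (nat_lit 5) (.e (nat_lit 2964) (nat_lit 185) .nil))))))) (.g (nat_lit 1) (.e (nat_lit 327295) (nat_lit 0) .nil) .nil))) 
(.lf (nat_lit 565060) (.g (nat_lit 3307) (.e (nat_lit 434235) (nat_lit 24) (.e (nat_lit 540706) (nat_lit 12) (.e (nat_lit 360474) (nat_lit 8) (.e (nat_lit 557094) (nat_lit 12) (.e (nat_lit 164022) (nat_lit 46) (.e (nat_lit 704629) (nat_lit 9) (.e (nat_lit 452) (nat_lit 33) .nil))))))) (.g (nat_lit 1) (.e (nat_lit 328413) (nat_lit 0) .nil) .nil))))) (.nd (nat_lit 8) (.nd (nat_lit 9) 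
(.lf (nat_lit 564420) (.g (nat_lit 5430) (.e (nat_lit 434231) (nat_lit 23) (.e (nat_lit 532523) (nat_lit 7) (.e (nat_lit 319533) (nat_lit 16) (.e (nat_lit 286733) (nat_lit 2) (.e (nat_lit 90170) (nat_lit 13) (.e (nat_lit 172115) (nat_lit 10) .nil)))))) (.g (nat_lit 1) (.e (nat_lit 326022) (nat_lit 0) .nil) .nil))) 
(.lf (nat_lit 564932) (.g (nat_lit 1357) (.e (nat_lit 434233) (nat_lit 23) (.e (nat_lit 532523) (nat_lit 7) (.e (nat_lit 319531) (nat_lit 16) (.e (nat_lit 286734) (nat_lit 3) .nil)))) (.g (nat_lit 0) (.e (nat_lit 328093) (nat_lit 0) .nil) .nil)))) (.nd (nat_lit 9) 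
(.lf (nat_lit 564676) (.g (nat_lit 2473) (.e (nat_lit 434231) (nat_lit 23) (.e (nat_lit 532550) (nat_lit 12) (.e (nat_lit 360475) (nat_lit 8) (.e (nat_lit 557091) (nat_lit 12) (.e (nat_lit 163850) (nat_lit 0) (.e (nat_lit 6428) (nat_lit 342) (.e (nat_lit 229408) (nat_lit 13) .nil))))))) (.g (nat_lit 1) (.e (nat_lit 327532) (nat_lit 0) .nil) .nil))) 
(.lf (nat_lit 565188) (.g (nat_lit 2572) (.e (nat_lit 434242) (nat_lit 28) (.e (nat_lit 573488) (nat_lit 14) (.e (nat_lit 73755) (nat_lit 8) (.e (nat_lit 557090) (nat_lit 12) (.e (nat_lit 164008) (nat_lit 41) .nil))))) (.g (nat_lit 0) (.e (nat_lit 328927) (nat_lit 0) .nil) .nil))))))) (.nd (nat_lit 6) (.nd (nat_lit 7) (.nd (nat_lit 8) (.nd (nat_lit 9) 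
(.lf (nat_lit 564260) (.g (nat_lit 1303) (.e (nat_lit 434230) (nat_lit 23) (.e (nat_lit 532503) (nat_lit 1) (.e (nat_lit 57688) (nat_lit 156) (.e (nat_lit 163903) (nat_lit 12) .nil)))) (.g (nat_lit 0) (.e (nat_lit 325753) (nat_lit 0) .nil) .nil))) 
(.lf (nat_lit 564772) (.g (nat_lit 2739) (.e (nat_lit 434231) (nat_lit 23) (.e (nat_lit 532579) (nat_lit 26) (.e (nat_lit 426108) (nat_lit 1) (.e (nat_lit 164403) (nat_lit 256) (.e (nat_lit 57409) (nat_lit 12) (.e (nat_lit 336398) (nat_lit 27) (.e (nat_lit 426290) (nat_lit 10) .nil))))))) (.g (nat_lit 1) (.e (nat_lit 327770) (nat_lit 0) .nil) .nil)))) (.nd (nat_lit 9) 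
(.lf (nat_lit 564516) (.g (nat_lit 4138) (.e (nat_lit 434231) (nat_lit 23) (.e (nat_lit 532549) (nat_lit 12) (.e (nat_lit 360475) (nat_lit 8) (.e (nat_lit 557091) (nat_lit 12) (.e (nat_lit 163852) (nat_lit 0) (.e (nat_lit 6426) (nat_lit 342) (.e (nat_lit 229409) (nat_lit 13) .nil))))))) (.g (nat_lit 1) (.e (nat_lit 327230) (nat_lit 0) .nil) .nil))) 
(.lf (nat_lit 565028) (.g (nat_lit 844) (.e (nat_lit 434234) (nat_lit 23) (.e (nat_lit 532515) (nat_lit 3) (.e (nat_lit 114716) (nat_lit 22) (.e (nat_lit 90115) (nat_lit 0) .nil)))) (.g (nat_lit 0) (.e (nat_lit 328330) (nat_lit 0) .nil) .nil))))) (.nd (nat_lit 8) (.nd (nat_lit 9) 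
(.lf (nat_lit 564388) (.g (nat_lit 3528) (.e (nat_lit 434231) (nat_lit 23) (.e (nat_lit 532523) (nat_lit 7) (.e (nat_lit 319530) (nat_lit 16) (.e (nat_lit 286733) (nat_lit 2) (.e (nat_lit 90134) (nat_lit 9) (.e (nat_lit 2872) (nat_lit 184) (.e (nat_lit 426276) (nat_lit 10) .nil))))))) (.g (nat_lit 1) (.e (nat_lit 325986) (nat_lit 0) .nil) .nil))) 
(.lf (nat_lit 564900) (.g (nat_lit 2294) (.e (nat_lit 434233) (nat_lit 23) (.e (nat_lit 532499) (nat_lit 1) (.e (nat_lit 57691) (nat_lit 156) (.e (nat_lit 163907) (nat_lit 12) (.e (nat_lit 426566) (nat_lit 34) .nil))))) (.g (nat_lit 0) (.e (nat_lit 328003) (nat_lit 0) .nil) .nil)))) (.nd (nat_lit 9) 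
(.lf (nat_lit 564644) (.g (nat_lit 2739) (.e (nat_lit 434231) (nat_lit 23) (.e (nat_lit 532550) (nat_lit 12) (.e (nat_lit 360475) (nat_lit 8) (.e (nat_lit 557091) (nat_lit 12) (.e (nat_lit 163840) (nat_lit 0) (.e (nat_lit 6418) (nat_lit 341) (.e (nat_lit 163916) (nat_lit 13) .nil))))))) (.g (nat_lit 1) (.e (nat_lit 327473) (nat_lit 0) .nil) .nil))) 
(.lf (nat_lit 565156) (.g (nat_lit 3902) (.e (nat_lit 434242) (nat_lit 28) (.e (nat_lit 573471) (nat_lit 11) (.e (nat_lit 16470) (nat_lit 14) (.e (nat_lit 491535) (nat_lit 2) .nil)))) (.g (nat_lit 0) (.e (nat_lit 328875) (nat_lit 0) .nil) .nil)))))) (.nd (nat_lit 7) (.nd (nat_lit 8) (.nd (nat_lit 9) 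
(.lf (nat_lit 564324) (.g (nat_lit 3989) (.e (nat_lit 434231) (nat_lit 23) (.e (nat_lit 532500) (nat_lit 1) (.e (nat_lit 57691) (nat_lit 156) (.e (nat_lit 163875) (nat_lit 3) (.e (nat_lit 204836) (nat_lit 20) (.e (nat_lit 114718) (nat_lit 23) (.e (nat_lit 98367) (nat_lit 27) .nil))))))) (.g (nat_lit 1) (.e (nat_lit 325879) (nat_lit 0) .nil) .nil))) 
(.lf (nat_lit 564836) (.g (nat_lit 3047) (.e (nat_lit 434232) (nat_lit 23) (.e (nat_lit 532504) (nat_lit 1) (.e (nat_lit 57692) (nat_lit 156) (.e (nat_lit 163905) (nat_lit 12) (.e (nat_lit 426568) (nat_lit 34) (.e (nat_lit 393283) (nat_lit 24) .nil)))))) (.g (nat_lit 1) (.e (nat_lit 327880) (nat_lit 0) .nil) .nil)))) (.nd (nat_lit 9) 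
(.lf (nat_lit 564580) (.g (nat_lit 4324) (.e (nat_lit 434231) (nat_lit 23) (.e (nat_lit 532550) (nat_lit 12) (.e (nat_lit 360474) (nat_lit 8) (.e (nat_lit 557093) (nat_lit 12) (.e (nat_lit 164022) (nat_lit 46) (.e (nat_lit 704629) (nat_lit 9) (.e (nat_lit 449) (nat_lit 33) .nil))))))) (.g (nat_lit 1) (.e (nat_lit 327341) (nat_lit 0) .nil) .nil))) 
(.lf (nat_lit 565092) (.g (nat_lit 3515) (.e (nat_lit 434238) (nat_lit 25) (.e (nat_lit 548913) (nat_lit 18) (.e (nat_lit 172094) (nat_lit 9) (.e (nat_lit 426125) (nat_lit 2) (.e (nat_lit 196643) (nat_lit 9) .nil))))) (.g (nat_lit 0) (.e (nat_lit 328704) (nat_lit 0) .nil) .nil))))) (.nd (nat_lit 8) (.nd (nat_lit 9) 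
(.lf (nat_lit 564452) (.g (nat_lit 4206) (.e (nat_lit 434231) (nat_lit 23) (.e (nat_lit 532549) (nat_lit 12) (.e (nat_lit 360472) (nat_lit 8) (.e (nat_lit 557090) (nat_lit 12) (.e (nat_lit 164020) (nat_lit 45) (.e (nat_lit 696327) (nat_lit 5) (.e (nat_lit 2980) (nat_lit 185) .nil))))))) (.g (nat_lit 1) (.e (nat_lit 326878) (nat_lit 0) .nil) .nil))) 
(.lf (nat_lit 564964) (.g (nat_lit 3876) (.e (nat_lit 434233) (nat_lit 23) (.e (nat_lit 532549) (nat_lit 12) (.e (nat_lit 360473) (nat_lit 8) (.e (nat_lit 557093) (nat_lit 12) (.e (nat_lit 164023) (nat_lit 46) (.e (nat_lit 704629) (nat_lit 9) (.e (nat_lit 442) (nat_lit 33) .nil))))))) (.g (nat_lit 1) (.e (nat_lit 328184) (nat_lit 0) .nil) .nil)))) (.nd (nat_lit 9) 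
(.lf (nat_lit 564708) (.g (nat_lit 1999) (.e (nat_lit 434231) (nat_lit 23) (.e (nat_lit 532563) (nat_lit 15) (.e (nat_lit 385109) (nat_lit 51) (.e (nat_lit 794642) (nat_lit 20) .nil)))) (.g (nat_lit 0) (.e (nat_lit 327616) (nat_lit 0) .nil) .nil))) 
(.lf (nat_lit 565220) (.g (nat_lit 1410) (.e (nat_lit 434244) (nat_lit 28) (.e (nat_lit 573450) (nat_lit 9) (.e (nat_lit 375) (nat_lit 32) (.e (nat_lit 426288) (nat_lit 10) .nil)))) (.g (nat_lit 0) (.e (nat_lit 328970) (nat_lit 0) .nil) .nil)))))))) (.nd (nat_lit 5) (.nd (nat_lit 6) (.nd (nat_lit 7) (.nd (nat_lit 8) (.nd (nat_lit 9) 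
(.lf (nat_lit 564244) (.g (nat_lit 3482) (.e (nat_lit 434227) (nat_lit 20) (.e (nat_lit 507946) (nat_lit 18) (.e (nat_lit 303142) (nat_lit 12) (.e (nat_lit 475185) (nat_lit 29) (.e (nat_lit 557100) (nat_lit 13) (.e (nat_lit 172113) (nat_lit 10) .nil)))))) (.g (nat_lit 1) (.e (nat_lit 325737) (nat_lit 0) .nil) .nil))) 
(.lf (nat_lit 564756) (.g (nat_lit 4430) (.e (nat_lit 434231) (nat_lit 23) (.e (nat_lit 532569) (nat_lit 16) (.e (nat_lit 401452) (nat_lit 12) (.e (nat_lit 475185) (nat_lit 29) (.e (nat_lit 557101) (nat_lit 13) (.e (nat_lit 172115) (nat_lit 10) .nil)))))) (.g (nat_lit 1) (.e (nat_lit 327741) (nat_lit 0) .nil) .nil)))) (.nd (nat_lit 9) 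
(.lf (nat_lit 564500) (.g (nat_lit 3908) (.e (nat_lit 434231) (nat_lit 23) (.e (nat_lit 532549) (nat_lit 12) (.e (nat_lit 360475) (nat_lit 8) (.e (nat_lit 557089) (nat_lit 12) (.e (nat_lit 164020) (nat_lit 45) (.e (nat_lit 696328) (nat_lit 5) (.e (nat_lit 2980) (nat_lit 185) .nil))))))) (.g (nat_lit 1) (.e (nat_lit 327166) (nat_lit 0) .nil) .nil))) 
(.lf (nat_lit 565012) (.g (nat_lit 1851) (.e (nat_lit 434234) (nat_lit 23) (.e (nat_lit 532503) (nat_lit 1) (.e (nat_lit 57686) (nat_lit 156) (.e (nat_lit 163903) (nat_lit 12) (.e (nat_lit 426568) (nat_lit 34) .nil))))) (.g (nat_lit 0) (.e (nat_lit 328312) (nat_lit 0) .nil) .nil))))) (.nd (nat_lit 8) (.nd (nat_lit 9) 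
(.lf (nat_lit 564372) (.g (nat_lit 3618) (.e (nat_lit 434231) (nat_lit 23) (.e (nat_lit 532522) (nat_lit 7) (.e (nat_lit 319532) (nat_lit 16) (.e (nat_lit 286733) (nat_lit 2) (.e (nat_lit 90170) (nat_lit 13) (.e (nat_lit 172106) (nat_lit 10) .nil)))))) (.g (nat_lit 1) (.e (nat_lit 325965) (nat_lit 0) .nil) .nil))) 
(.lf (nat_lit 564884) (.g (nat_lit 2781) (.e (nat_lit 434232) (nat_lit 23) (.e (nat_lit 532569) (nat_lit 16) (.e (nat_lit 401434) (nat_lit 9) (.e (nat_lit 426140) (nat_lit 3) (.e (nat_lit 204885) (nat_lit 33) .nil))))) (.g (nat_lit 0) (.e (nat_lit 327970) (nat_lit 0) .nil) .nil)))) (.nd (nat_lit 9) 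
(.lf (nat_lit 564628) (.g (nat_lit 4051) (.e (nat_lit 434231) (nat_lit 23) (.e (nat_lit 532550) (nat_lit 12) (.e (nat_lit 360475) (nat_lit 8) (.e (nat_lit 557089) (nat_lit 12) (.e (nat_lit 164020) (nat_lit 45) (.e (nat_lit 696327) (nat_lit 5) (.e (nat_lit 2980) (nat_lit 185) .nil))))))) (.g (nat_lit 1) (.e (nat_lit 327452) (nat_lit 0) .nil) .nil))) 
(.lf (nat_lit 565140) (.g (nat_lit 2793) (.e (nat_lit 434242) (nat_lit 28) (.e (nat_lit 573471) (nat_lit 11) (.e (nat_lit 16388) (nat_lit 0) (.e (nat_lit 7581) (nat_lit 405) (.e (nat_lit 57464) (nat_lit 23) (.e (nat_lit 516151) (nat_lit 9) (.e (nat_lit 426286) (nat_lit 10) .nil))))))) (.g (nat_lit 1) (.e (nat_lit 328856) (nat_lit 0) .nil) .nil)))))) 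
(.nd (nat_lit 7) (.nd (nat_lit 8) (.nd (nat_lit 9) 
(.lf (nat_lit 564308) (.g (nat_lit 2723) (.e (nat_lit 434231) (nat_lit 23) (.e (nat_lit 532499) (nat_lit 1) (.e (nat_lit 57688) (nat_lit 156) (.e (nat_lit 163902) (nat_lit 12) (.e (nat_lit 426479) (nat_lit 27) (.e (nat_lit 336395) (nat_lit 27) (.e (nat_lit 426289) (nat_lit 10) .nil))))))) (.g (nat_lit 1) (.e (nat_lit 325848) (nat_lit 0) .nil) .nil))) 
(.lf (nat_lit 564820) (.g (nat_lit 1192) (.e (nat_lit 434232) (nat_lit 23) (.e (nat_lit 532503) (nat_lit 1) (.e (nat_lit 57693) (nat_lit 157) (.e (nat_lit 229399) (nat_lit 12) .nil)))) (.g (nat_lit 0) (.e (nat_lit 327864) (nat_lit 0) .nil) .nil)))) (.nd (nat_lit 9) 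
(.lf (nat_lit 564564) (.g (nat_lit 3045) (.e (nat_lit 434231) (nat_lit 23) (.e (nat_lit 532550) (nat_lit 12) (.e (nat_lit 360474) (nat_lit 8) (.e (nat_lit 557091) (nat_lit 12) (.e (nat_lit 164020) (nat_lit 45) .nil))))) (.g (nat_lit 0) (.e (nat_lit 327313) (nat_lit 0) .nil) .nil))) 
(.lf (nat_lit 565076) (.g (nat_lit 1304) (.e (nat_lit 442112) (nat_lit 21) (.e (nat_lit 516130) (nat_lit 3) (.e (nat_lit 221212) (nat_lit 22) (.e (nat_lit 196668) (nat_lit 14) (.e (nat_lit 73750) (nat_lit 6) .nil))))) (.g (nat_lit 0) (.e (nat_lit 328434) (nat_lit 0) .nil) .nil))))) (.nd (nat_lit 8) (.nd (nat_lit 9) 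
(.lf (nat_lit 564436) (.g (nat_lit 1589) (.e (nat_lit 434231) (nat_lit 23) (.e (nat_lit 532526) (nat_lit 8) (.e (nat_lit 327717) (nat_lit 17) (.e (nat_lit 294928) (nat_lit 2) (.e (nat_lit 90170) (nat_lit 13) .nil))))) (.g (nat_lit 0) (.e (nat_lit 326042) (nat_lit 0) .nil) .nil))) 
(.lf (nat_lit 564948) (.g (nat_lit 2991) (.e (nat_lit 434233) (nat_lit 23) (.e (nat_lit 532523) (nat_lit 7) (.e (nat_lit 319534) (nat_lit 16) (.e (nat_lit 286733) (nat_lit 2) (.e (nat_lit 90149) (nat_lit 9) .nil))))) (.g (nat_lit 0) (.e (nat_lit 328143) (nat_lit 0) .nil) .nil)))) (.nd (nat_lit 9) 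
(.lf (nat_lit 564692) (.g (nat_lit 4357) (.e (nat_lit 434231) (nat_lit 23) (.e (nat_lit 532550) (nat_lit 12) (.e (nat_lit 360475) (nat_lit 8) (.e (nat_lit 557091) (nat_lit 12) (.e (nat_lit 164020) (nat_lit 45) (.e (nat_lit 696327) (nat_lit 5) (.e (nat_lit 2964) (nat_lit 185) .nil))))))) (.g (nat_lit 1) (.e (nat_lit 327568) (nat_lit 0) .nil) .nil))) 
(.lf (nat_lit 565204) (.g (nat_lit 1951) (.e (nat_lit 434243) (nat_lit 28) (.e (nat_lit 573471) (nat_lit 11) (.e (nat_lit 16439) (nat_lit 9) (.e (nat_lit 426132) (nat_lit 3) (.e (nat_lit 204885) (nat_lit 33) .nil))))) (.g (nat_lit 0) (.e (nat_lit 328948) (nat_lit 0) .nil) .nil))))))) (.nd (nat_lit 6) (.nd (nat_lit 7) (.nd (nat_lit 8) (.nd (nat_lit 9) 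
(.lf (nat_lit 564276) (.g (nat_lit 4010) (.e (nat_lit 434230) (nat_lit 23) (.e (nat_lit 532550) (nat_lit 12) (.e (nat_lit 360474) (nat_lit 8) (.e (nat_lit 557093) (nat_lit 12) (.e (nat_lit 164023) (nat_lit 46) .nil))))) (.g (nat_lit 0) (.e (nat_lit 325783) (nat_lit 0) .nil) .nil))) 
(.lf (nat_lit 564788) (.g (nat_lit 2139) (.e (nat_lit 434232) (nat_lit 23) (.e (nat_lit 532499) (nat_lit 1) (.e (nat_lit 57691) (nat_lit 156) (.e (nat_lit 163874) (nat_lit 3) (.e (nat_lit 204838) (nat_lit 20) .nil))))) (.g (nat_lit 0) (.e (nat_lit 327831) (nat_lit 0) .nil) .nil)))) (.nd (nat_lit 9) 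
(.lf (nat_lit 564532) (.g (nat_lit 4214) (.e (nat_lit 434231) (nat_lit 23) (.e (nat_lit 532549) (nat_lit 12) (.e (nat_lit 360475) (nat_lit 8) (.e (nat_lit 557091) (nat_lit 12) (.e (nat_lit 164020) (nat_lit 45) (.e (nat_lit 696329) (nat_lit 5) (.e (nat_lit 2980) (nat_lit 185) .nil))))))) (.g (nat_lit 1) (.e (nat_lit 327259) (nat_lit 0) .nil) .nil))) 
(.lf (nat_lit 565044) (.g (nat_lit 4123) (.e (nat_lit 434234) (nat_lit 23) (.e (nat_lit 532550) (nat_lit 12) (.e (nat_lit 360475) (nat_lit 8) (.e (nat_lit 557091) (nat_lit 12) .nil)))) (.g (nat_lit 0) (.e (nat_lit 328358) (nat_lit 0) .nil) .nil))))) (.nd (nat_lit 8) (.nd (nat_lit 9) 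
(.lf (nat_lit 564404) (.g (nat_lit 3815) (.e (nat_lit 434231) (nat_lit 23) (.e (nat_lit 532523) (nat_lit 7) (.e (nat_lit 319531) (nat_lit 16) (.e (nat_lit 286733) (nat_lit 2) (.e (nat_lit 90134) (nat_lit 9) (.e (nat_lit 2842) (nat_lit 184) (.e (nat_lit 426289) (nat_lit 10) .nil))))))) (.g (nat_lit 1) (.e (nat_lit 326004) (nat_lit 0) .nil) .nil))) 
(.lf (nat_lit 564916) (.g (nat_lit 2051) (.e (nat_lit 434233) (nat_lit 23) (.e (nat_lit 532503) (nat_lit 1) (.e (nat_lit 57691) (nat_lit 156) (.e (nat_lit 163905) (nat_lit 12) (.e (nat_lit 426568) (nat_lit 34) .nil))))) (.g (nat_lit 0) (.e (nat_lit 328019) (nat_lit 0) .nil) .nil)))) (.nd (nat_lit 9) 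
(.lf (nat_lit 564660) (.g (nat_lit 3686) (.e (nat_lit 434231) (nat_lit 23) (.e (nat_lit 532550) (nat_lit 12) (.e (nat_lit 360475) (nat_lit 8) (.e (nat_lit 557091) (nat_lit 12) (.e (nat_lit 163844) (nat_lit 0) (.e (nat_lit 6418) (nat_lit 341) (.e (nat_lit 163916) (nat_lit 13) .nil))))))) (.g (nat_lit 1) (.e (nat_lit 327507) (nat_lit 0) .nil) .nil))) 
(.lf (nat_lit 565172) (.g (nat_lit 2518) (.e (nat_lit 434242) (nat_lit 28) (.e (nat_lit 573474) (nat_lit 12) (.e (nat_lit 57354) (nat_lit 0) (.e (nat_lit 7272) (nat_lit 385) (.e (nat_lit 122906) (nat_lit 12) (.e (nat_lit 336001) (nat_lit 2) (.e (nat_lit 90170) (nat_lit 13) (.e (nat_lit 172113) (nat_lit 10) .nil)))))))) (.g (nat_lit 1) (.e (nat_lit 328892) (nat_lit 0) .nil) .nil)))))) 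
(.nd (nat_lit 7) (.nd (nat_lit 8) (.nd (nat_lit 9) 
(.lf (nat_lit 564340) (.g (nat_lit 2451) (.e (nat_lit 434231) (nat_lit 23) (.e (nat_lit 532513) (nat_lit 3) (.e (nat_lit 114718) (nat_lit 23) (.e (nat_lit 98333) (nat_lit 18) (.e (nat_lit 164396) (nat_lit 256) .nil))))) (.g (nat_lit 0) (.e (nat_lit 325908) (nat_lit 0) .nil) .nil))) 
(.lf (nat_lit 564852) (.g (nat_lit 468) (.e (nat_lit 434232) (nat_lit 23) (.e (nat_lit 532526) (nat_lit 8) (.e (nat_lit 327716) (nat_lit 16) .nil))) (.g (nat_lit 0) (.e (nat_lit 327899) (nat_lit 0) .nil) .nil)))) (.nd (nat_lit 9) 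
(.lf (nat_lit 564596) (.g (nat_lit 4169) (.e (nat_lit 434231) (nat_lit 23) (.e (nat_lit 532550) (nat_lit 12) (.e (nat_lit 360474) (nat_lit 8) (.e (nat_lit 557094) (nat_lit 12) (.e (nat_lit 164022) (nat_lit 46) (.e (nat_lit 704628) (nat_lit 9) (.e (nat_lit 450) (nat_lit 33) .nil))))))) (.g (nat_lit 1) (.e (nat_lit 327371) (nat_lit 0) .nil) .nil))) 
(.lf (nat_lit 565108) (.g (nat_lit 1979) (.e (nat_lit 434238) (nat_lit 25) (.e (nat_lit 548913) (nat_lit 18) (.e (nat_lit 172126) (nat_lit 14) (.e (nat_lit 491524) (nat_lit 0) .nil)))) (.g (nat_lit 0) (.e (nat_lit 328796) (nat_lit 0) .nil) .nil))))) (.nd (nat_lit 8) (.nd (nat_lit 9) 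
(.lf (nat_lit 564468) (.g (nat_lit 3587) (.e (nat_lit 434231) (nat_lit 23) (.e (nat_lit 532549) (nat_lit 12) (.e (nat_lit 360473) (nat_lit 8) (.e (nat_lit 557091) (nat_lit 12) (.e (nat_lit 164018) (nat_lit 45) (.e (nat_lit 696327) (nat_lit 5) (.e (nat_lit 2964) (nat_lit 185) .nil))))))) (.g (nat_lit 1) (.e (nat_lit 327024) (nat_lit 0) .nil) .nil))) 
(.lf (nat_lit 564980) (.g (nat_lit 5165) (.e (nat_lit 434233) (nat_lit 23) (.e (nat_lit 532550) (nat_lit 12) (.e (nat_lit 360475) (nat_lit 8) (.e (nat_lit 557093) (nat_lit 12) .nil)))) (.g (nat_lit 0) (.e (nat_lit 328209) (nat_lit 0) .nil) .nil)))) (.nd (nat_lit 9) 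
(.lf (nat_lit 564724) (.g (nat_lit 3349) (.e (nat_lit 434231) (nat_lit 23) (.e (nat_lit 532569) (nat_lit 16) (.e (nat_lit 401434) (nat_lit 9) (.e (nat_lit 426125) (nat_lit 2) (.e (nat_lit 196643) (nat_lit 9) .nil))))) (.g (nat_lit 0) (.e (nat_lit 327664) (nat_lit 0) .nil) .nil))) 
(.lf (nat_lit 565236) (.g (nat_lit 4363) (.e (nat_lit 434244) (nat_lit 28) (.e (nat_lit 573451) (nat_lit 9) (.e (nat_lit 430) (nat_lit 32) (.e (nat_lit 426344) (nat_lit 14) (.e (nat_lit 491535) (nat_lit 2) (.e (nat_lit 90170) (nat_lit 13) (.e (nat_lit 172106) (nat_lit 10) .nil))))))) (.g (nat_lit 1) (.e (nat_lit 328996) (nat_lit 0) .nil) .nil))))))))) 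
(.nd (nat_lit 4) (.nd (nat_lit 5) (.nd (nat_lit 6) (.nd (nat_lit 7) (.nd (nat_lit 8) 
(.nd (nat_lit 9) 
(.lf (nat_lit 564236) (.g (nat_lit 3148) (.e (nat_lit 434227) (nat_lit 20) (.e (nat_lit 507929) (nat_lit 10) (.e (nat_lit 5627) (nat_lit 312) (.e (nat_lit 3071) (nat_lit 190) (.e (nat_lit 475185) (nat_lit 29) (.e (nat_lit 557100) (nat_lit 13) (.e (nat_lit 172106) (nat_lit 10) .nil))))))) (.g (nat_lit 1) (.e (nat_lit 325615) (nat_lit 0) .nil) .nil))) 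
(.lf (nat_lit 564748) (.g (nat_lit 2166) (.e (nat_lit 434231) (nat_lit 23) (.e (nat_lit 532569) (nat_lit 16) (.e (nat_lit 401450) (nat_lit 12) (.e (nat_lit 475183) (nat_lit 29) .nil)))) (.g (nat_lit 0) (.e (nat_lit 327718) (nat_lit 0) .nil) .nil)))) (.nd (nat_lit 9) 
(.lf (nat_lit 564492) (.g (nat_lit 2110) (.e (nat_lit 434231) (nat_lit 23) (.e (nat_lit 532549) (nat_lit 12) (.e (nat_lit 360475) (nat_lit 8) (.e (nat_lit 557089) (nat_lit 12) .nil)))) (.g (nat_lit 0) (.e (nat_lit 327108) (nat_lit 0) .nil) .nil))) 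
(.lf (nat_lit 565004) (.g (nat_lit 2330) (.e (nat_lit 434234) (nat_lit 23) (.e (nat_lit 532501) (nat_lit 1) (.e (nat_lit 57692) (nat_lit 156) (.e (nat_lit 163871) (nat_lit 2) (.e (nat_lit 196624) (nat_lit 9) .nil))))) (.g (nat_lit 0) (.e (nat_lit 328304) (nat_lit 0) .nil) .nil))))) (.nd (nat_lit 8) (.nd (nat_lit 9) 
(.lf (nat_lit 564364) (.g (nat_lit 3200) (.e (nat_lit 434231) (nat_lit 23) (.e (nat_lit 532522) (nat_lit 7) (.e (nat_lit 319531) (nat_lit 16) (.e (nat_lit 286733) (nat_lit 2) (.e (nat_lit 90134) (nat_lit 9) (.e (nat_lit 2842) (nat_lit 184) (.e (nat_lit 426289) (nat_lit 10) .nil))))))) (.g (nat_lit 1) (.e (nat_lit 325957) (nat_lit 0) .nil) .nil))) 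
(.lf (nat_lit 564876) (.g (nat_lit 3717) (.e (nat_lit 434232) (nat_lit 23) (.e (nat_lit 532550) (nat_lit 12) (.e (nat_lit 360475) (nat_lit 8) (.e (nat_lit 557091) (nat_lit 12) .nil)))) (.g (nat_lit 0) (.e (nat_lit 327946) (nat_lit 0) .nil) .nil)))) (.nd (nat_lit 9) 
(.lf (nat_lit 564620) (.g (nat_lit 2910) (.e (nat_lit 434231) (nat_lit 23) (.e (nat_lit 532550) (nat_lit 12) (.e (nat_lit 360475) (nat_lit 8) (.e (nat_lit 557089) (nat_lit 12) (.e (nat_lit 163850) (nat_lit 0) (.e (nat_lit 6427) (nat_lit 342) (.e (nat_lit 229407) (nat_lit 13) .nil))))))) (.g (nat_lit 1) (.e (nat_lit 327436) (nat_lit 0) .nil) .nil))) 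
(.lf (nat_lit 565132) (.g (nat_lit 5036) (.e (nat_lit 434242) (nat_lit 28) (.e (nat_lit 573469) (nat_lit 11) (.e (nat_lit 16470) (nat_lit 14) (.e (nat_lit 491537) (nat_lit 2) (.e (nat_lit 90170) (nat_lit 13) (.e (nat_lit 172113) (nat_lit 10) .nil)))))) (.g (nat_lit 1) (.e (nat_lit 328848) (nat_lit 0) .nil) .nil)))))) (.nd (nat_lit 7) (.nd (nat_lit 8) (.nd (nat_lit 9) 
(.lf (nat_lit 564300) (.g (nat_lit 3447) (.e (nat_lit 434231) (nat_lit 23) (.e (nat_lit 532499) (nat_lit 1) (.e (nat_lit 57686) (nat_lit 156) (.e (nat_lit 163875) (nat_lit 3) (.e (nat_lit 204837) (nat_lit 20) (.e (nat_lit 114718) (nat_lit 23) (.e (nat_lit 98366) (nat_lit 27) .nil))))))) (.g (nat_lit 1) (.e (nat_lit 325836) (nat_lit 0) .nil) .nil))) 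
(.lf (nat_lit 564812) (.g (nat_lit 2146) (.e (nat_lit 434232) (nat_lit 23) (.e (nat_lit 532503) (nat_lit 1) (.e (nat_lit 57688) (nat_lit 156) (.e (nat_lit 163874) (nat_lit 3) (.e (nat_lit 204837) (nat_lit 20) .nil))))) (.g (nat_lit 0) (.e (nat_lit 327856) (nat_lit 0) .nil) .nil)))) (.nd (nat_lit 9) 
(.lf (nat_lit 564556) (.g (nat_lit 3406) (.e (nat_lit 434231) (nat_lit 23) (.e (nat_lit 532550) (nat_lit 12) (.e (nat_lit 360474) (nat_lit 8) (.e (nat_lit 557088) (nat_lit 12) (.e (nat_lit 164020) (nat_lit 45) (.e (nat_lit 696330) (nat_lit 5) (.e (nat_lit 2964) (nat_lit 185) .nil))))))) (.g (nat_lit 1) (.e (nat_lit 327304) (nat_lit 0) .nil) .nil))) 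
(.lf (nat_lit 565068) (.g (nat_lit 2823) (.e (nat_lit 434235) (nat_lit 24) (.e (nat_lit 540706) (nat_lit 12) (.e (nat_lit 360475) (nat_lit 8) (.e (nat_lit 557091) (nat_lit 12) (.e (nat_lit 164022) (nat_lit 46) .nil))))) (.g (nat_lit 0) (.e (nat_lit 328425) (nat_lit 0) .nil) .nil))))) (.nd (nat_lit 8) (.nd (nat_lit 9) 
(.lf (nat_lit 564428) (.g (nat_lit 4439) (.e (nat_lit 434231) (nat_lit 23) (.e (nat_lit 532523) (nat_lit 7) (.e (nat_lit 319535) (nat_lit 17) (.e (nat_lit 294928) (nat_lit 2) (.e (nat_lit 90170) (nat_lit 13) (.e (nat_lit 172113) (nat_lit 10) .nil)))))) (.g (nat_lit 1) (.e (nat_lit 326030) (nat_lit 0) .nil) .nil))) 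
(.lf (nat_lit 564940) (.g (nat_lit 1160) (.e (nat_lit 434233) (nat_lit 23) (.e (nat_lit 532523) (nat_lit 7) (.e (nat_lit 319533) (nat_lit 16) (.e (nat_lit 286734) (nat_lit 3) .nil)))) (.g (nat_lit 0) (.e (nat_lit 328117) (nat_lit 0) .nil) .nil)))) (.nd (nat_lit 9) 
(.lf (nat_lit 564684) (.g (nat_lit 3931) (.e (nat_lit 434231) (nat_lit 23) (.e (nat_lit 532550) (nat_lit 12) (.e (nat_lit 360475) (nat_lit 8) (.e (nat_lit 557091) (nat_lit 12) (.e (nat_lit 164018) (nat_lit 45) (.e (nat_lit 696327) (nat_lit 5) (.e (nat_lit 2964) (nat_lit 185) .nil))))))) (.g (nat_lit 1) (.e (nat_lit 327560) (nat_lit 0) .nil) .nil))) 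
(.lf (nat_lit 565196) (.g (nat_lit 1578) (.e (nat_lit 434242) (nat_lit 28) (.e (nat_lit 573503) (nat_lit 18) (.e (nat_lit 1359) (nat_lit 102) (.e (nat_lit 286756) (nat_lit 10) (.e (nat_lit 344183) (nat_lit 49) .nil))))) (.g (nat_lit 0) (.e (nat_lit 328938) (nat_lit 0) .nil) .nil))))))) (.nd (nat_lit 6) (.nd (nat_lit 7) (.nd (nat_lit 8) (.nd (nat_lit 9) 
(.lf (nat_lit 564268) (.g (nat_lit 4844) (.e (nat_lit 434230) (nat_lit 23) (.e (nat_lit 532550) (nat_lit 12) (.e (nat_lit 360474) (nat_lit 8) (.e (nat_lit 557088) (nat_lit 12) .nil)))) (.g (nat_lit 0) (.e (nat_lit 325775) (nat_lit 0) .nil) .nil))) 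
(.lf (nat_lit 564780) (.g (nat_lit 2064) (.e (nat_lit 434232) (nat_lit 23) (.e (nat_lit 532499) (nat_lit 1) (.e (nat_lit 57688) (nat_lit 156) (.e (nat_lit 163874) (nat_lit 3) .nil)))) (.g (nat_lit 0) (.e (nat_lit 327821) (nat_lit 0) .nil) .nil)))) (.nd (nat_lit 9) 
(.lf (nat_lit 564524) (.g (nat_lit 3399) (.e (nat_lit 434231) (nat_lit 23) (.e (nat_lit 532549) (nat_lit 12) (.e (nat_lit 360475) (nat_lit 8) (.e (nat_lit 557091) (nat_lit 12) (.e (nat_lit 164018) (nat_lit 45) (.e (nat_lit 696329) (nat_lit 5) (.e (nat_lit 2980) (nat_lit 185) .nil))))))) (.g (nat_lit 1) (.e (nat_lit 327250) (nat_lit 0) .nil) .nil))) 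
(.lf (nat_lit 565036) (.g (nat_lit 4489) (.e (nat_lit 434234) (nat_lit 23) (.e (nat_lit 532535) (nat_lit 9) (.e (nat_lit 336176) (nat_lit 10) (.e (nat_lit 344132) (nat_lit 26) (.e (nat_lit 557093) (nat_lit 12) .nil))))) (.g (nat_lit 0) (.e (nat_lit 328349) (nat_lit 0) .nil) .nil))))) (.nd (nat_lit 8) (.nd (nat_lit 9) 
(.lf (nat_lit 564396) (.g (nat_lit 2529) (.e (nat_lit 434231) (nat_lit 23) (.e (nat_lit 532523) (nat_lit 7) (.e (nat_lit 319530) (nat_lit 16) (.e (nat_lit 286733) (nat_lit 2) (.e (nat_lit 90134) (nat_lit 9) (.e (nat_lit 2882) (nat_lit 184) (.e (nat_lit 426275) (nat_lit 10) .nil))))))) (.g (nat_lit 1) (.e (nat_lit 325996) (nat_lit 0) .nil) .nil))) 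
(.lf (nat_lit 564908) (.g (nat_lit 920) (.e (nat_lit 434233) (nat_lit 23) (.e (nat_lit 532501) (nat_lit 1) (.e (nat_lit 57735) (nat_lit 183) .nil))) (.g (nat_lit 0) (.e (nat_lit 328011) (nat_lit 0) .nil) .nil)))) (.nd (nat_lit 9) 
(.lf (nat_lit 564652) (.g (nat_lit 2635) (.e (nat_lit 434231) (nat_lit 23) (.e (nat_lit 532550) (nat_lit 12) (.e (nat_lit 360475) (nat_lit 8) (.e (nat_lit 557091) (nat_lit 12) (.e (nat_lit 163840) (nat_lit 0) (.e (nat_lit 6427) (nat_lit 342) (.e (nat_lit 229409) (nat_lit 13) .nil))))))) (.g (nat_lit 1) (.e (nat_lit 327481) (nat_lit 0) .nil) .nil))) 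
(.lf (nat_lit 565164) (.g (nat_lit 2232) (.e (nat_lit 434242) (nat_lit 28) (.e (nat_lit 573471) (nat_lit 11) (.e (nat_lit 16473) (nat_lit 14) (.e (nat_lit 491538) (nat_lit 3) .nil)))) (.g (nat_lit 0) (.e (nat_lit 328883) (nat_lit 0) .nil) .nil)))))) (.nd (nat_lit 7) (.nd (nat_lit 8) (.nd (nat_lit 9) 
(.lf (nat_lit 564332) (.g (nat_lit 4091) (.e (nat_lit 434231) (nat_lit 23) (.e (nat_lit 532500) (nat_lit 1) (.e (nat_lit 57692) (nat_lit 156) (.e (nat_lit 163875) (nat_lit 3) (.e (nat_lit 204837) (nat_lit 20) (.e (nat_lit 114718) (nat_lit 23) (.e (nat_lit 98366) (nat_lit 27) .nil))))))) (.g (nat_lit 1) (.e (nat_lit 325888) (nat_lit 0) .nil) .nil))) 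
(.lf (nat_lit 564844) (.g (nat_lit 1240) (.e (nat_lit 434232) (nat_lit 23) (.e (nat_lit 532513) (nat_lit 3) (.e (nat_lit 114719) (nat_lit 23) (.e (nat_lit 98333) (nat_lit 18) .nil)))) (.g (nat_lit 0) (.e (nat_lit 327890) (nat_lit 0) .nil) .nil)))) (.nd (nat_lit 9) 
(.lf (nat_lit 564588) (.g (nat_lit 2864) (.e (nat_lit 434231) (nat_lit 23) (.e (nat_lit 532550) (nat_lit 12) (.e (nat_lit 360474) (nat_lit 8) (.e (nat_lit 557094) (nat_lit 12) (.e (nat_lit 163852) (nat_lit 0) (.e (nat_lit 6427) (nat_lit 342) (.e (nat_lit 229407) (nat_lit 13) .nil))))))) (.g (nat_lit 1) (.e (nat_lit 327361) (nat_lit 0) .nil) .nil))) 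
(.lf (nat_lit 565100) (.g (nat_lit 4713) (.e (nat_lit 434238) (nat_lit 25) (.e (nat_lit 548913) (nat_lit 18) (.e (nat_lit 172120) (nat_lit 12) (.e (nat_lit 475185) (nat_lit 29) (.e (nat_lit 557100) (nat_lit 13) (.e (nat_lit 172113) (nat_lit 10) .nil)))))) (.g (nat_lit 1) (.e (nat_lit 328788) (nat_lit 0) .nil) .nil))))) (.nd (nat_lit 8) (.nd (nat_lit 9) 
(.lf (nat_lit 564460) (.g (nat_lit 2846) (.e (nat_lit 434231) (nat_lit 23) (.e (nat_lit 532549) (nat_lit 12) (.e (nat_lit 360473) (nat_lit 8) (.e (nat_lit 557089) (nat_lit 12) (.e (nat_lit 163853) (nat_lit 0) (.e (nat_lit 6428) (nat_lit 342) (.e (nat_lit 229409) (nat_lit 13) .nil))))))) (.g (nat_lit 1) (.e (nat_lit 326919) (nat_lit 0) .nil) .nil))) 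
(.lf (nat_lit 564972) (.g (nat_lit 4834) (.e (nat_lit 434233) (nat_lit 23) (.e (nat_lit 532550) (nat_lit 12) (.e (nat_lit 360474) (nat_lit 8) (.e (nat_lit 557093) (nat_lit 12) (.e (nat_lit 164023) (nat_lit 46) (.e (nat_lit 704629) (nat_lit 9) (.e (nat_lit 442) (nat_lit 33) .nil))))))) (.g (nat_lit 1) (.e (nat_lit 328198) (nat_lit 0) .nil) .nil)))) (.nd (nat_lit 9) 
(.lf (nat_lit 564716) (.g (nat_lit 2363) (.e (nat_lit 434231) (nat_lit 23) (.e (nat_lit 532568) (nat_lit 16) (.e (nat_lit 401451) (nat_lit 12) (.e (nat_lit 475183) (nat_lit 29) .nil)))) (.g (nat_lit 0) (.e (nat_lit 327647) (nat_lit 0) .nil) .nil))) 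
(.lf (nat_lit 565228) (.g (nat_lit 4741) (.e (nat_lit 434244) (nat_lit 28) (.e (nat_lit 573450) (nat_lit 9) (.e (nat_lit 1309) (nat_lit 98) (.e (nat_lit 147496) (nat_lit 11) (.e (nat_lit 24604) (nat_lit 2) (.e (nat_lit 90170) (nat_lit 13) (.e (nat_lit 172106) (nat_lit 10) .nil))))))) (.g (nat_lit 1) (.e (nat_lit 328988) (nat_lit 0) .nil) .nil)))))))) 
(.nd (nat_lit 5) (.nd (nat_lit 6) (.nd (nat_lit 7) (.nd (nat_lit 8) (.nd (nat_lit 9) 
(.lf (nat_lit 564252) (.g (nat_lit 2195) (.e (nat_lit 434227) (nat_lit 20) (.e (nat_lit 507943) (nat_lit 17) (.e (nat_lit 294938) (nat_lit 9) (.e (nat_lit 336324) (nat_lit 18) (.e (nat_lit 204838) (nat_lit 20) (.e (nat_lit 122624) (nat_lit 12) .nil)))))) (.g (nat_lit 1) (.e (nat_lit 325745) (nat_lit 0) .nil) .nil))) 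
(.lf (nat_lit 564764) (.g (nat_lit 2229) (.e (nat_lit 434231) (nat_lit 23) (.e (nat_lit 532579) (nat_lit 26) (.e (nat_lit 426100) (nat_lit 1) (.e (nat_lit 164397) (nat_lit 256) (.e (nat_lit 57410) (nat_lit 12) .nil))))) (.g (nat_lit 0) (.e (nat_lit 327749) (nat_lit 0) .nil) .nil)))) (.nd (nat_lit 9) 
(.lf (nat_lit 564508) (.g (nat_lit 3154) (.e (nat_lit 434231) (nat_lit 23) (.e (nat_lit 532549) (nat_lit 12) (.e (nat_lit 360475) (nat_lit 8) (.e (nat_lit 557090) (nat_lit 12) (.e (nat_lit 164020) (nat_lit 45) (.e (nat_lit 696330) (nat_lit 5) (.e (nat_lit 2964) (nat_lit 185) .nil))))))) (.g (nat_lit 1) (.e (nat_lit 327177) (nat_lit 0) .nil) .nil))) 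
(.lf (nat_lit 565020) (.g (nat_lit 2742) (.e (nat_lit 434234) (nat_lit 23) (.e (nat_lit 532504) (nat_lit 1) (.e (nat_lit 57692) (nat_lit 156) (.e (nat_lit 163905) (nat_lit 12) (.e (nat_lit 426568) (nat_lit 34) (.e (nat_lit 393283) (nat_lit 24) .nil)))))) (.g (nat_lit 1) (.e (nat_lit 328320) (nat_lit 0) .nil) .nil))))) (.nd (nat_lit 8) (.nd (nat_lit 9) 
(.lf (nat_lit 564380) (.g (nat_lit 1067) (.e (nat_lit 434231) (nat_lit 23) (.e (nat_lit 532523) (nat_lit 7) (.e (nat_lit 319529) (nat_lit 16) (.e (nat_lit 286735) (nat_lit 3) .nil)))) (.g (nat_lit 0) (.e (nat_lit 325975) (nat_lit 0) .nil) .nil))) 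
(.lf (nat_lit 564892) (.g (nat_lit 1889) (.e (nat_lit 434233) (nat_lit 23) (.e (nat_lit 532499) (nat_lit 1) (.e (nat_lit 57688) (nat_lit 156) (.e (nat_lit 163867) (nat_lit 2) .nil)))) (.g (nat_lit 0) (.e (nat_lit 327995) (nat_lit 0) .nil) .nil)))) (.nd (nat_lit 9) 
(.lf (nat_lit 564636) (.g (nat_lit 2750) (.e (nat_lit 434231) (nat_lit 23) (.e (nat_lit 532550) (nat_lit 12) (.e (nat_lit 360475) (nat_lit 8) (.e (nat_lit 557090) (nat_lit 12) (.e (nat_lit 164020) (nat_lit 45) (.e (nat_lit 696327) (nat_lit 5) (.e (nat_lit 2964) (nat_lit 185) .nil))))))) (.g (nat_lit 1) (.e (nat_lit 327463) (nat_lit 0) .nil) .nil))) 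
(.lf (nat_lit 565148) (.g (nat_lit 1881) (.e (nat_lit 434242) (nat_lit 28) (.e (nat_lit 573471) (nat_lit 11) (.e (nat_lit 16436) (nat_lit 9) (.e (nat_lit 426131) (nat_lit 3) .nil)))) (.g (nat_lit 0) (.e (nat_lit 328866) (nat_lit 0) .nil) .nil)))))) (.nd (nat_lit 7) (.nd (nat_lit 8) (.nd (nat_lit 9) 
(.lf (nat_lit 564316) (.g (nat_lit 2441) (.e (nat_lit 434231) (nat_lit 23) (.e (nat_lit 532499) (nat_lit 1) (.e (nat_lit 57692) (nat_lit 156) (.e (nat_lit 163874) (nat_lit 3) (.e (nat_lit 204834) (nat_lit 19) (.e (nat_lit 106517) (nat_lit 9) (.e (nat_lit 1255) (nat_lit 92) (.e (nat_lit 98366) (nat_lit 27) .nil)))))))) (.g (nat_lit 1) (.e (nat_lit 325865) (nat_lit 0) .nil) .nil))) 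
(.lf (nat_lit 564828) (.g (nat_lit 2705) (.e (nat_lit 434232) (nat_lit 23) (.e (nat_lit 532504) (nat_lit 1) (.e (nat_lit 57691) (nat_lit 156) (.e (nat_lit 163874) (nat_lit 3) (.e (nat_lit 204836) (nat_lit 20) .nil))))) (.g (nat_lit 0) (.e (nat_lit 327872) (nat_lit 0) .nil) .nil)))) (.nd (nat_lit 9) 
(.lf (nat_lit 564572) (.g (nat_lit 2346) (.e (nat_lit 434231) (nat_lit 23) (.e (nat_lit 532550) (nat_lit 12) (.e (nat_lit 360474) (nat_lit 8) (.e (nat_lit 557093) (nat_lit 12) (.e (nat_lit 163847) (nat_lit 0) (.e (nat_lit 6420) (nat_lit 341) (.e (nat_lit 163917) (nat_lit 13) .nil))))))) (.g (nat_lit 1) (.e (nat_lit 327324) (nat_lit 0) .nil) .nil))) 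
(.lf (nat_lit 565084) (.g (nat_lit 3829) (.e (nat_lit 434238) (nat_lit 25) (.e (nat_lit 548896) (nat_lit 14) (.e (nat_lit 3004) (nat_lit 186) (.e (nat_lit 442374) (nat_lit 0) (.e (nat_lit 1856) (nat_lit 124) (.e (nat_lit 557101) (nat_lit 13) (.e (nat_lit 172115) (nat_lit 10) .nil))))))) (.g (nat_lit 1) (.e (nat_lit 328499) (nat_lit 0) .nil) .nil))))) (.nd (nat_lit 8) (.nd (nat_lit 9) 
(.lf (nat_lit 564444) (.g (nat_lit 5092) (.e (nat_lit 434231) (nat_lit 23) (.e (nat_lit 532535) (nat_lit 9) (.e (nat_lit 336295) (nat_lit 15) (.e (nat_lit 3629) (nat_lit 227) (.e (nat_lit 778318) (nat_lit 3) (.e (nat_lit 57476) (nat_lit 28) (.e (nat_lit 557100) (nat_lit 13) (.e (nat_lit 172106) (nat_lit 10) .nil)))))))) (.g (nat_lit 1) (.e (nat_lit 326776) (nat_lit 0) .nil) .nil))) 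
(.lf (nat_lit 564956) (.g (nat_lit 1337) (.e (nat_lit 434233) (nat_lit 23) (.e (nat_lit 532523) (nat_lit 7) (.e (nat_lit 319534) (nat_lit 16) (.e (nat_lit 294656) (nat_lit 3) .nil)))) (.g (nat_lit 0) (.e (nat_lit 328151) (nat_lit 0) .nil) .nil)))) (.nd (nat_lit 9) 
(.lf (nat_lit 564700) (.g (nat_lit 3295) (.e (nat_lit 434231) (nat_lit 23) (.e (nat_lit 532550) (nat_lit 12) (.e (nat_lit 360475) (nat_lit 8) (.e (nat_lit 557091) (nat_lit 12) (.e (nat_lit 164022) (nat_lit 46) (.e (nat_lit 704626) (nat_lit 9) (.e (nat_lit 450) (nat_lit 33) .nil))))))) (.g (nat_lit 1) (.e (nat_lit 327578) (nat_lit 0) .nil) .nil))) 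
(.lf (nat_lit 565212) (.g (nat_lit 2553) (.e (nat_lit 434243) (nat_lit 28) (.e (nat_lit 573489) (nat_lit 14) (.e (nat_lit 73755) (nat_lit 8) (.e (nat_lit 557089) (nat_lit 12) .nil)))) (.g (nat_lit 0) (.e (nat_lit 328958) (nat_lit 0) .nil) .nil))))))) (.nd (nat_lit 6) (.nd (nat_lit 7) (.nd (nat_lit 8) (.nd (nat_lit 9) 
(.lf (nat_lit 564284) (.g (nat_lit 6469) (.e (nat_lit 434230) (nat_lit 23) (.e (nat_lit 532550) (nat_lit 12) (.e (nat_lit 360475) (nat_lit 8) (.e (nat_lit 557090) (nat_lit 12) .nil)))) (.g (nat_lit 0) (.e (nat_lit 325794) (nat_lit 0) .nil) .nil))) 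
(.lf (nat_lit 564796) (.g (nat_lit 1146) (.e (nat_lit 434232) (nat_lit 23) (.e (nat_lit 532501) (nat_lit 1) (.e (nat_lit 57651) (nat_lit 152) (.e (nat_lit 2619) (nat_lit 164) .nil)))) (.g (nat_lit 0) (.e (nat_lit 327839) (nat_lit 0) .nil) .nil)))) (.nd (nat_lit 9) 
(.lf (nat_lit 564540) (.g (nat_lit 2410) (.e (nat_lit 434231) (nat_lit 23) (.e (nat_lit 532550) (nat_lit 12) (.e (nat_lit 360472) (nat_lit 8) (.e (nat_lit 557090) (nat_lit 12) (.e (nat_lit 164020) (nat_lit 45) (.e (nat_lit 696328) (nat_lit 5) (.e (nat_lit 2964) (nat_lit 185) .nil))))))) (.g (nat_lit 1) (.e (nat_lit 327287) (nat_lit 0) .nil) .nil))) 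
(.lf (nat_lit 565052) (.g (nat_lit 2504) (.e (nat_lit 434235) (nat_lit 24) (.e (nat_lit 540704) (nat_lit 12) (.e (nat_lit 360473) (nat_lit 8) (.e (nat_lit 557090) (nat_lit 12) (.e (nat_lit 164020) (nat_lit 45) .nil))))) (.g (nat_lit 0) (.e (nat_lit 328404) (nat_lit 0) .nil) .nil))))) (.nd (nat_lit 8) (.nd (nat_lit 9) 
(.lf (nat_lit 564412) (.g (nat_lit 3603) (.e (nat_lit 434231) (nat_lit 23) (.e (nat_lit 532523) (nat_lit 7) (.e (nat_lit 319531) (nat_lit 16) (.e (nat_lit 286733) (nat_lit 2) (.e (nat_lit 90167) (nat_lit 13) (.e (nat_lit 172114) (nat_lit 10) .nil)))))) (.g (nat_lit 1) (.e (nat_lit 326014) (nat_lit 0) .nil) .nil))) 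
(.lf (nat_lit 564924) (.g (nat_lit 1342) (.e (nat_lit 434233) (nat_lit 23) (.e (nat_lit 532523) (nat_lit 7) (.e (nat_lit 319529) (nat_lit 16) (.e (nat_lit 286733) (nat_lit 2) .nil)))) (.g (nat_lit 0) (.e (nat_lit 328073) (nat_lit 0) .nil) .nil)))) (.nd (nat_lit 9) 
(.lf (nat_lit 564668) (.g (nat_lit 3375) (.e (nat_lit 434231) (nat_lit 23) (.e (nat_lit 532550) (nat_lit 12) (.e (nat_lit 360475) (nat_lit 8) (.e (nat_lit 557091) (nat_lit 12) (.e (nat_lit 163849) (nat_lit 0) (.e (nat_lit 6420) (nat_lit 341) (.e (nat_lit 163917) (nat_lit 13) .nil))))))) (.g (nat_lit 1) (.e (nat_lit 327524) (nat_lit 0) .nil) .nil))) 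
(.lf (nat_lit 565180) (.g (nat_lit 2270) (.e (nat_lit 434242) (nat_lit 28) (.e (nat_lit 573488) (nat_lit 14) (.e (nat_lit 73755) (nat_lit 8) (.e (nat_lit 557089) (nat_lit 12) (.e (nat_lit 164006) (nat_lit 41) .nil))))) (.g (nat_lit 0) (.e (nat_lit 328915) (nat_lit 0) .nil) .nil)))))) (.nd (nat_lit 7) (.nd (nat_lit 8) (.nd (nat_lit 9) 
(.lf (nat_lit 564348) (.g (nat_lit 4549) (.e (nat_lit 434231) (nat_lit 23) (.e (nat_lit 532514) (nat_lit 3) (.e (nat_lit 114718) (nat_lit 23) (.e (nat_lit 98335) (nat_lit 18) (.e (nat_lit 164403) (nat_lit 256) (.e (nat_lit 57378) (nat_lit 3) (.e (nat_lit 98367) (nat_lit 27) .nil))))))) (.g (nat_lit 1) (.e (nat_lit 325930) (nat_lit 0) .nil) .nil))) 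
(.lf (nat_lit 564860) (.g (nat_lit 1705) (.e (nat_lit 434232) (nat_lit 23) (.e (nat_lit 532549) (nat_lit 12) (.e (nat_lit 360473) (nat_lit 8) (.e (nat_lit 557094) (nat_lit 12) .nil)))) (.g (nat_lit 0) (.e (nat_lit 327922) (nat_lit 0) .nil) .nil)))) (.nd (nat_lit 9) 
(.lf (nat_lit 564604) (.g (nat_lit 2574) (.e (nat_lit 434231) (nat_lit 23) (.e (nat_lit 532550) (nat_lit 12) (.e (nat_lit 360475) (nat_lit 8) (.e (nat_lit 557089) (nat_lit 12) (.e (nat_lit 163843) (nat_lit 0) (.e (nat_lit 6418) (nat_lit 341) (.e (nat_lit 163917) (nat_lit 13) .nil))))))) (.g (nat_lit 1) (.e (nat_lit 327409) (nat_lit 0) .nil) .nil))) 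
(.lf (nat_lit 565116) (.g (nat_lit 464) (.e (nat_lit 434238) (nat_lit 25) (.e (nat_lit 548915) (nat_lit 20) (.e (nat_lit 188448) (nat_lit 22) .nil))) (.g (nat_lit 0) (.e (nat_lit 328814) (nat_lit 0) .nil) .nil))))) (.nd (nat_lit 8) (.nd (nat_lit 9) 
(.lf (nat_lit 564476) (.g (nat_lit 2387) (.e (nat_lit 434231) (nat_lit 23) (.e (nat_lit 532549) (nat_lit 12) (.e (nat_lit 360473) (nat_lit 8) (.e (nat_lit 557091) (nat_lit 12) (.e (nat_lit 164020) (nat_lit 45) (.e (nat_lit 696328) (nat_lit 5) (.e (nat_lit 2964) (nat_lit 185) .nil))))))) (.g (nat_lit 1) (.e (nat_lit 327035) (nat_lit 0) .nil) .nil))) 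
(.lf (nat_lit 564988) (.g (nat_lit 913) (.e (nat_lit 434234) (nat_lit 23) (.e (nat_lit 532499) (nat_lit 1) (.e (nat_lit 57667) (nat_lit 152) .nil))) (.g (nat_lit 0) (.e (nat_lit 328286) (nat_lit 0) .nil) .nil)))) (.nd (nat_lit 9) 
(.lf (nat_lit 564732) (.g (nat_lit 5099) (.e (nat_lit 434231) (nat_lit 23) (.e (nat_lit 532569) (nat_lit 16) (.e (nat_lit 401446) (nat_lit 10) (.e (nat_lit 434231) (nat_lit 23) (.e (nat_lit 532569) (nat_lit 16) (.e (nat_lit 401448) (nat_lit 10) .nil)))))) (.g (nat_lit 1) (.e (nat_lit 327680) (nat_lit 0) .nil) .nil))) 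
(.lf (nat_lit 565244) (.g (nat_lit 3665) (.e (nat_lit 434244) (nat_lit 28) (.e (nat_lit 573451) (nat_lit 9) (.e (nat_lit 498) (nat_lit 40) (.e (nat_lit 491565) (nat_lit 12) (.e (nat_lit 385065) (nat_lit 26) (.e (nat_lit 532513) (nat_lit 3) (.e (nat_lit 122624) (nat_lit 12) .nil))))))) (.g (nat_lit 1) (.e (nat_lit 329008) (nat_lit 0) .nil) .nil))))))))))) 
(.nd (nat_lit 2) (.nd (nat_lit 3) (.nd (nat_lit 4) (.nd (nat_lit 5) (.nd (nat_lit 6) 
(.nd (nat_lit 7) (.nd (nat_lit 8) (.nd (nat_lit 9) 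
(.lf (nat_lit 564226) (.g (nat_lit 2331) (.e (nat_lit 434219) (nat_lit 19) (.e (nat_lit 500087) (nat_lit 22) (.e (nat_lit 131109) (nat_lit 9) (.e (nat_lit 336324) (nat_lit 18) (.e (nat_lit 204838) (nat_lit 20) (.e (nat_lit 122624) (nat_lit 12) .nil)))))) (.g (nat_lit 1) (.e (nat_lit 325568) (nat_lit 0) .nil) .nil))) 
(.lf (nat_lit 564738) (.g (nat_lit 2947) (.e (nat_lit 434231) (nat_lit 23) (.e (nat_lit 532569) (nat_lit 16) (.e (nat_lit 401448) (nat_lit 10) (.e (nat_lit 434231) (nat_lit 23) (.e (nat_lit 532482) (nat_lit 0) (.e (nat_lit 6624) (nat_lit 357) (.e (nat_lit 2963) (nat_lit 185) .nil))))))) (.g (nat_lit 1) (.e (nat_lit 327703) (nat_lit 0) .nil) .nil)))) (.nd (nat_lit 9) 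
(.lf (nat_lit 564482) (.g (nat_lit 2638) (.e (nat_lit 434231) (nat_lit 23) (.e (nat_lit 532549) (nat_lit 12) (.e (nat_lit 360474) (nat_lit 8) (.e (nat_lit 557089) (nat_lit 12) .nil)))) (.g (nat_lit 0) (.e (nat_lit 327092) (nat_lit 0) .nil) .nil))) 
(.lf (nat_lit 564994) (.g (nat_lit 2419) (.e (nat_lit 434234) (nat_lit 23) (.e (nat_lit 532499) (nat_lit 1) (.e (nat_lit 57691) (nat_lit 156) (.e (nat_lit 163875) (nat_lit 3) (.e (nat_lit 204836) (nat_lit 20) .nil))))) (.g (nat_lit 0) (.e (nat_lit 328294) (nat_lit 0) .nil) .nil))))) (.nd (nat_lit 8) (.nd (nat_lit 9) 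
(.lf (nat_lit 564354) (.g (nat_lit 2038) (.e (nat_lit 434231) (nat_lit 23) (.e (nat_lit 532522) (nat_lit 7) (.e (nat_lit 319530) (nat_lit 16) (.e (nat_lit 286733) (nat_lit 2) (.e (nat_lit 90134) (nat_lit 9) .nil))))) (.g (nat_lit 0) (.e (nat_lit 325947) (nat_lit 0) .nil) .nil))) 
(.lf (nat_lit 564866) (.g (nat_lit 5344) (.e (nat_lit 434232) (nat_lit 23) (.e (nat_lit 532550) (nat_lit 12) (.e (nat_lit 360474) (nat_lit 8) (.e (nat_lit 557089) (nat_lit 12) .nil)))) (.g (nat_lit 0) (.e (nat_lit 327933) (nat_lit 0) .nil) .nil)))) (.nd (nat_lit 9) 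
(.lf (nat_lit 564610) (.g (nat_lit 2871) (.e (nat_lit 434231) (nat_lit 23) (.e (nat_lit 532550) (nat_lit 12) (.e (nat_lit 360475) (nat_lit 8) (.e (nat_lit 557089) (nat_lit 12) (.e (nat_lit 163848) (nat_lit 0) (.e (nat_lit 6421) (nat_lit 341) (.e (nat_lit 163916) (nat_lit 13) .nil))))))) (.g (nat_lit 1) (.e (nat_lit 327420) (nat_lit 0) .nil) .nil))) 
(.lf (nat_lit 565122) (.g (nat_lit 1738) (.e (nat_lit 434242) (nat_lit 28) (.e (nat_lit 573450) (nat_lit 9) (.e (nat_lit 375) (nat_lit 32) (.e (nat_lit 426173) (nat_lit 7) .nil)))) (.g (nat_lit 0) (.e (nat_lit 328836) (nat_lit 0) .nil) .nil)))))) (.nd (nat_lit 7) (.nd (nat_lit 8) (.nd (nat_lit 9) 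
(.lf (nat_lit 564290) (.g (nat_lit 5486) (.e (nat_lit 434230) (nat_lit 23) (.e (nat_lit 532550) (nat_lit 12) (.e (nat_lit 360475) (nat_lit 8) (.e (nat_lit 557094) (nat_lit 12) .nil)))) (.g (nat_lit 0) (.e (nat_lit 325800) (nat_lit 0) .nil) .nil))) 
(.lf (nat_lit 564802) (.g (nat_lit 2426) (.e (nat_lit 434232) (nat_lit 23) (.e (nat_lit 532501) (nat_lit 1) (.e (nat_lit 57692) (nat_lit 156) (.e (nat_lit 163874) (nat_lit 3) (.e (nat_lit 204836) (nat_lit 20) .nil))))) (.g (nat_lit 0) (.e (nat_lit 327845) (nat_lit 0) .nil) .nil)))) (.nd (nat_lit 9) 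
(.lf (nat_lit 564546) (.g (nat_lit 2638) (.e (nat_lit 434231) (nat_lit 23) (.e (nat_lit 532550) (nat_lit 12) (.e (nat_lit 360473) (nat_lit 8) (.e (nat_lit 557090) (nat_lit 12) (.e (nat_lit 164020) (nat_lit 45) (.e (nat_lit 696327) (nat_lit 5) (.e (nat_lit 2980) (nat_lit 185) .nil))))))) (.g (nat_lit 1) (.e (nat_lit 327293) (nat_lit 0) .nil) .nil))) 
(.lf (nat_lit 565058) (.g (nat_lit 1699) (.e (nat_lit 434235) (nat_lit 24) (.e (nat_lit 540706) (nat_lit 12) (.e (nat_lit 360474) (nat_lit 8) (.e (nat_lit 557094) (nat_lit 12) (.e (nat_lit 164022) (nat_lit 46) .nil))))) (.g (nat_lit 0) (.e (nat_lit 328411) (nat_lit 0) .nil) .nil))))) (.nd (nat_lit 8) (.nd (nat_lit 9) 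
(.lf (nat_lit 564418) (.g (nat_lit 5358) (.e (nat_lit 434231) (nat_lit 23) (.e (nat_lit 532523) (nat_lit 7) (.e (nat_lit 319532) (nat_lit 16) (.e (nat_lit 286733) (nat_lit 2) (.e (nat_lit 90170) (nat_lit 13) (.e (nat_lit 172115) (nat_lit 10) .nil)))))) (.g (nat_lit 1) (.e (nat_lit 326020) (nat_lit 0) .nil) .nil))) 
(.lf (nat_lit 564930) (.g (nat_lit 2783) (.e (nat_lit 434233) (nat_lit 23) (.e (nat_lit 532523) (nat_lit 7) (.e (nat_lit 319531) (nat_lit 16) (.e (nat_lit 286733) (nat_lit 2) (.e (nat_lit 90149) (nat_lit 9) .nil))))) (.g (nat_lit 0) (.e (nat_lit 328091) (nat_lit 0) .nil) .nil)))) (.nd (nat_lit 9) 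
(.lf (nat_lit 564674) (.g (nat_lit 4012) (.e (nat_lit 434231) (nat_lit 23) (.e (nat_lit 532550) (nat_lit 12) (.e (nat_lit 360475) (nat_lit 8) (.e (nat_lit 557091) (nat_lit 12) (.e (nat_lit 163850) (nat_lit 0) (.e (nat_lit 6427) (nat_lit 342) (.e (nat_lit 229407) (nat_lit 13) .nil))))))) (.g (nat_lit 1) (.e (nat_lit 327530) (nat_lit 0) .nil) .nil))) 
(.lf (nat_lit 565186) (.g (nat_lit 2342) (.e (nat_lit 434242) (nat_lit 28) (.e (nat_lit 573488) (nat_lit 14) (.e (nat_lit 73755) (nat_lit 8) (.e (nat_lit 557090) (nat_lit 12) (.e (nat_lit 164006) (nat_lit 41) .nil))))) (.g (nat_lit 0) (.e (nat_lit 328925) (nat_lit 0) .nil) .nil))))))) (.nd (nat_lit 6) (.nd (nat_lit 7) (.nd (nat_lit 8) (.nd (nat_lit 9) 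
(.lf (nat_lit 564258) (.g (nat_lit 2384) (.e (nat_lit 434230) (nat_lit 23) (.e (nat_lit 532503) (nat_lit 1) (.e (nat_lit 57688) (nat_lit 156) (.e (nat_lit 163874) (nat_lit 3) (.e (nat_lit 204837) (nat_lit 20) .nil))))) (.g (nat_lit 0) (.e (nat_lit 325751) (nat_lit 0) .nil) .nil))) 
(.lf (nat_lit 564770) (.g (nat_lit 363) (.e (nat_lit 434231) (nat_lit 23) (.e (nat_lit 532579) (nat_lit 26) (.e (nat_lit 426108) (nat_lit 1) .nil))) (.g (nat_lit 0) (.e (nat_lit 327762) (nat_lit 0) .nil) .nil)))) (.nd (nat_lit 9) 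
(.lf (nat_lit 564514) (.g (nat_lit 4498) (.e (nat_lit 434231) (nat_lit 23) (.e (nat_lit 532549) (nat_lit 12) (.e (nat_lit 360475) (nat_lit 8) (.e (nat_lit 557091) (nat_lit 12) (.e (nat_lit 163850) (nat_lit 0) (.e (nat_lit 6427) (nat_lit 342) (.e (nat_lit 229409) (nat_lit 13) .nil))))))) (.g (nat_lit 1) (.e (nat_lit 327224) (nat_lit 0) .nil) .nil))) 
(.lf (nat_lit 565026) (.g (nat_lit 1656) (.e (nat_lit 434234) (nat_lit 23) (.e (nat_lit 532513) (nat_lit 3) (.e (nat_lit 114714) (nat_lit 22) (.e (nat_lit 90162) (nat_lit 12) (.e (nat_lit 164007) (nat_lit 41) .nil))))) (.g (nat_lit 0) (.e (nat_lit 328327) (nat_lit 0) .nil) .nil))))) (.nd (nat_lit 8) (.nd (nat_lit 9) 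
(.lf (nat_lit 564386) (.g (nat_lit 3956) (.e (nat_lit 434231) (nat_lit 23) (.e (nat_lit 532523) (nat_lit 7) (.e (nat_lit 319530) (nat_lit 16) (.e (nat_lit 286733) (nat_lit 2) (.e (nat_lit 90134) (nat_lit 9) (.e (nat_lit 2842) (nat_lit 184) (.e (nat_lit 426289) (nat_lit 10) .nil))))))) (.g (nat_lit 1) (.e (nat_lit 325984) (nat_lit 0) .nil) .nil))) 
(.lf (nat_lit 564898) (.g (nat_lit 2623) (.e (nat_lit 434233) (nat_lit 23) (.e (nat_lit 532499) (nat_lit 1) (.e (nat_lit 57688) (nat_lit 156) (.e (nat_lit 163907) (nat_lit 12) (.e (nat_lit 426566) (nat_lit 34) .nil))))) (.g (nat_lit 0) (.e (nat_lit 328001) (nat_lit 0) .nil) .nil)))) (.nd (nat_lit 9) 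
(.lf (nat_lit 564642) (.g (nat_lit 1217) (.e (nat_lit 434231) (nat_lit 23) (.e (nat_lit 532550) (nat_lit 12) (.e (nat_lit 360475) (nat_lit 8) (.e (nat_lit 557091) (nat_lit 12) .nil)))) (.g (nat_lit 0) (.e (nat_lit 327469) (nat_lit 0) .nil) .nil))) 
(.lf (nat_lit 565154) (.g (nat_lit 3293) (.e (nat_lit 434242) (nat_lit 28) (.e (nat_lit 573471) (nat_lit 11) (.e (nat_lit 16469) (nat_lit 14) (.e (nat_lit 491537) (nat_lit 2) (.e (nat_lit 90170) (nat_lit 13) .nil))))) (.g (nat_lit 0) (.e (nat_lit 328873) (nat_lit 0) .nil) .nil)))))) (.nd (nat_lit 7) (.nd (nat_lit 8) (.nd (nat_lit 9) 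
(.lf (nat_lit 564322) (.g (nat_lit 3878) (.e (nat_lit 434231) (nat_lit 23) (.e (nat_lit 532500) (nat_lit 1) (.e (nat_lit 57691) (nat_lit 156) (.e (nat_lit 163874) (nat_lit 3) (.e (nat_lit 204838) (nat_lit 20) (.e (nat_lit 114719) (nat_lit 23) (.e (nat_lit 98366) (nat_lit 27) .nil))))))) (.g (nat_lit 1) (.e (nat_lit 325877) (nat_lit 0) .nil) .nil))) 
(.lf (nat_lit 564834) (.g (nat_lit 4271) (.e (nat_lit 434232) (nat_lit 23) (.e (nat_lit 532504) (nat_lit 1) (.e (nat_lit 57692) (nat_lit 156) (.e (nat_lit 163874) (nat_lit 3) (.e (nat_lit 204838) (nat_lit 20) (.e (nat_lit 114719) (nat_lit 23) (.e (nat_lit 98367) (nat_lit 27) .nil))))))) (.g (nat_lit 1) (.e (nat_lit 327878) (nat_lit 0) .nil) .nil)))) (.nd (nat_lit 9) 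
(.lf (nat_lit 564578) (.g (nat_lit 4072) (.e (nat_lit 434231) (nat_lit 23) (.e (nat_lit 532550) (nat_lit 12) (.e (nat_lit 360474) (nat_lit 8) (.e (nat_lit 557093) (nat_lit 12) (.e (nat_lit 164022) (nat_lit 46) (.e (nat_lit 704628) (nat_lit 9) (.e (nat_lit 449) (nat_lit 33) .nil))))))) (.g (nat_lit 1) (.e (nat_lit 327339) (nat_lit 0) .nil) .nil))) 
(.lf (nat_lit 565090) (.g (nat_lit 4262) (.e (nat_lit 434238) (nat_lit 25) (.e (nat_lit 548913) (nat_lit 18) (.e (nat_lit 172094) (nat_lit 9) (.e (nat_lit 426125) (nat_lit 2) (.e (nat_lit 196637) (nat_lit 9) (.e (nat_lit 1673) (nat_lit 116) (.e (nat_lit 401446) (nat_lit 10) .nil))))))) (.g (nat_lit 1) (.e (nat_lit 328702) (nat_lit 0) .nil) .nil))))) (.nd (nat_lit 8) (.nd (nat_lit 9) 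
(.lf (nat_lit 564450) (.g (nat_lit 2457) (.e (nat_lit 434231) (nat_lit 23) (.e (nat_lit 532544) (nat_lit 10) (.e (nat_lit 344169) (nat_lit 40) (.e (nat_lit 671748) (nat_lit 0) (.e (nat_lit 1032) (nat_lit 81) .nil))))) (.g (nat_lit 0) (.e (nat_lit 326794) (nat_lit 0) .nil) .nil))) 
(.lf (nat_lit 564962) (.g (nat_lit 5821) (.e (nat_lit 434233) (nat_lit 23) (.e (nat_lit 532549) (nat_lit 12) (.e (nat_lit 360473) (nat_lit 8) (.e (nat_lit 557091) (nat_lit 12) (.e (nat_lit 164022) (nat_lit 46) (.e (nat_lit 704629) (nat_lit 9) (.e (nat_lit 442) (nat_lit 33) .nil))))))) (.g (nat_lit 1) (.e (nat_lit 328180) (nat_lit 0) .nil) .nil)))) (.nd (nat_lit 9) 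
(.lf (nat_lit 564706) (.g (nat_lit 3704) (.e (nat_lit 434231) (nat_lit 23) (.e (nat_lit 532550) (nat_lit 12) (.e (nat_lit 360475) (nat_lit 8) (.e (nat_lit 557093) (nat_lit 12) .nil)))) (.g (nat_lit 0) (.e (nat_lit 327587) (nat_lit 0) .nil) .nil))) 
(.lf (nat_lit 565218) (.g (nat_lit 552) (.e (nat_lit 434244) (nat_lit 28) (.e (nat_lit 573450) (nat_lit 9) (.e (nat_lit 5) (nat_lit 0) .nil))) (.g (nat_lit 0) (.e (nat_lit 328966) (nat_lit 0) .nil) .nil)))))))) (.nd (nat_lit 5) (.nd (nat_lit 6) (.nd (nat_lit 7) (.nd (nat_lit 8) (.nd (nat_lit 9) 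
(.lf (nat_lit 564242) (.g (nat_lit 3195) (.e (nat_lit 434227) (nat_lit 20) (.e (nat_lit 507944) (nat_lit 18) (.e (nat_lit 303143) (nat_lit 12) (.e (nat_lit 475185) (nat_lit 29) (.e (nat_lit 557100) (nat_lit 13) (.e (nat_lit 172113) (nat_lit 10) .nil)))))) (.g (nat_lit 1) (.e (nat_lit 325707) (nat_lit 0) .nil) .nil))) 
(.lf (nat_lit 564754) (.g (nat_lit 4791) (.e (nat_lit 434231) (nat_lit 23) (.e (nat_lit 532569) (nat_lit 16) (.e (nat_lit 401451) (nat_lit 12) (.e (nat_lit 475185) (nat_lit 29) (.e (nat_lit 557098) (nat_lit 13) (.e (nat_lit 172114) (nat_lit 10) .nil)))))) (.g (nat_lit 1) (.e (nat_lit 327738) (nat_lit 0) .nil) .nil)))) (.nd (nat_lit 9) 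
(.lf (nat_lit 564498) (.g (nat_lit 4101) (.e (nat_lit 434231) (nat_lit 23) (.e (nat_lit 532549) (nat_lit 12) (.e (nat_lit 360475) (nat_lit 8) (.e (nat_lit 557089) (nat_lit 12) (.e (nat_lit 164020) (nat_lit 45) (.e (nat_lit 696327) (nat_lit 5) (.e (nat_lit 2964) (nat_lit 185) .nil))))))) (.g (nat_lit 1) (.e (nat_lit 327163) (nat_lit 0) .nil) .nil))) 
(.lf (nat_lit 565010) (.g (nat_lit 1139) (.e (nat_lit 434234) (nat_lit 23) (.e (nat_lit 532503) (nat_lit 1) (.e (nat_lit 57667) (nat_lit 152) (.e (nat_lit 2619) (nat_lit 164) .nil)))) (.g (nat_lit 0) (.e (nat_lit 328310) (nat_lit 0) .nil) .nil))))) (.nd (nat_lit 8) (.nd (nat_lit 9) 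
(.lf (nat_lit 564370) (.g (nat_lit 3767) (.e (nat_lit 434231) (nat_lit 23) (.e (nat_lit 532522) (nat_lit 7) (.e (nat_lit 319531) (nat_lit 16) (.e (nat_lit 286733) (nat_lit 2) (.e (nat_lit 90134) (nat_lit 9) (.e (nat_lit 2882) (nat_lit 184) (.e (nat_lit 426289) (nat_lit 10) .nil))))))) (.g (nat_lit 1) (.e (nat_lit 325963) (nat_lit 0) .nil) .nil))) 
(.lf (nat_lit 564882) (.g (nat_lit 3059) (.e (nat_lit 434232) (nat_lit 23) (.e (nat_lit 532567) (nat_lit 16) (.e (nat_lit 401448) (nat_lit 10) (.e (nat_lit 434231) (nat_lit 23) (.e (nat_lit 532569) (nat_lit 16) (.e (nat_lit 401448) (nat_lit 10) .nil)))))) (.g (nat_lit 1) (.e (nat_lit 327968) (nat_lit 0) .nil) .nil)))) (.nd (nat_lit 9) 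
(.lf (nat_lit 564626) (.g (nat_lit 4111) (.e (nat_lit 434231) (nat_lit 23) (.e (nat_lit 532550) (nat_lit 12) (.e (nat_lit 360475) (nat_lit 8) (.e (nat_lit 557089) (nat_lit 12) (.e (nat_lit 164020) (nat_lit 45) (.e (nat_lit 696327) (nat_lit 5) (.e (nat_lit 2964) (nat_lit 185) .nil))))))) (.g (nat_lit 1) (.e (nat_lit 327450) (nat_lit 0) .nil) .nil))) 
(.lf (nat_lit 565138) (.g (nat_lit 2330) (.e (nat_lit 434242) (nat_lit 28) (.e (nat_lit 573471) (nat_lit 11) (.e (nat_lit 16388) (nat_lit 0) (.e (nat_lit 7486) (nat_lit 402) (.e (nat_lit 1239) (nat_lit 91) .nil))))) (.g (nat_lit 0) (.e (nat_lit 328854) (nat_lit 0) .nil) .nil)))))) (.nd (nat_lit 7) (.nd (nat_lit 8) (.nd (nat_lit 9) 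
(.lf (nat_lit 564306) (.g (nat_lit 2547) (.e (nat_lit 434231) (nat_lit 23) (.e (nat_lit 532499) (nat_lit 1) (.e (nat_lit 57688) (nat_lit 156) (.e (nat_lit 163875) (nat_lit 3) (.e (nat_lit 204836) (nat_lit 20) .nil))))) (.g (nat_lit 0) (.e (nat_lit 325845) (nat_lit 0) .nil) .nil))) 
(.lf (nat_lit 564818) (.g (nat_lit 2079) (.e (nat_lit 434232) (nat_lit 23) (.e (nat_lit 532503) (nat_lit 1) (.e (nat_lit 57691) (nat_lit 156) (.e (nat_lit 163905) (nat_lit 12) (.e (nat_lit 426568) (nat_lit 34) .nil))))) (.g (nat_lit 0) (.e (nat_lit 327862) (nat_lit 0) .nil) .nil)))) (.nd (nat_lit 9) 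
(.lf (nat_lit 564562) (.g (nat_lit 3441) (.e (nat_lit 434231) (nat_lit 23) (.e (nat_lit 532550) (nat_lit 12) (.e (nat_lit 360474) (nat_lit 8) (.e (nat_lit 557090) (nat_lit 12) .nil)))) (.g (nat_lit 0) (.e (nat_lit 327311) (nat_lit 0) .nil) .nil))) 
(.lf (nat_lit 565074) (.g (nat_lit 1756) (.e (nat_lit 442112) (nat_lit 21) (.e (nat_lit 516129) (nat_lit 3) (.e (nat_lit 221210) (nat_lit 22) (.e (nat_lit 196668) (nat_lit 14) (.e (nat_lit 81664) (nat_lit 5) .nil))))) (.g (nat_lit 0) (.e (nat_lit 328432) (nat_lit 0) .nil) .nil))))) (.nd (nat_lit 8) (.nd (nat_lit 9) 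
(.lf (nat_lit 564434) (.g (nat_lit 4439) (.e (nat_lit 434231) (nat_lit 23) (.e (nat_lit 532526) (nat_lit 8) (.e (nat_lit 327715) (nat_lit 16) (.e (nat_lit 286733) (nat_lit 2) (.e (nat_lit 90170) (nat_lit 13) (.e (nat_lit 172115) (nat_lit 10) .nil)))))) (.g (nat_lit 1) (.e (nat_lit 326038) (nat_lit 0) .nil) .nil))) 
(.lf (nat_lit 564946) (.g (nat_lit 3121) (.e (nat_lit 434233) (nat_lit 23) (.e (nat_lit 532523) (nat_lit 7) (.e (nat_lit 319534) (nat_lit 16) (.e (nat_lit 286728) (nat_lit 0) (.e (nat_lit 1802) (nat_lit 119) (.e (nat_lit 516148) (nat_lit 9) (.e (nat_lit 426272) (nat_lit 10) .nil))))))) (.g (nat_lit 1) (.e (nat_lit 328127) (nat_lit 0) .nil) .nil)))) (.nd (nat_lit 9) 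
(.lf (nat_lit 564690) (.g (nat_lit 3916) (.e (nat_lit 434231) (nat_lit 23) (.e (nat_lit 532550) (nat_lit 12) (.e (nat_lit 360475) (nat_lit 8) (.e (nat_lit 557091) (nat_lit 12) (.e (nat_lit 164018) (nat_lit 45) (.e (nat_lit 696330) (nat_lit 5) (.e (nat_lit 2964) (nat_lit 185) .nil))))))) (.g (nat_lit 1) (.e (nat_lit 327566) (nat_lit 0) .nil) .nil))) 
(.lf (nat_lit 565202) (.g (nat_lit 3903) (.e (nat_lit 434243) (nat_lit 28) (.e (nat_lit 573471) (nat_lit 11) (.e (nat_lit 16433) (nat_lit 9) (.e (nat_lit 426354) (nat_lit 15) .nil)))) (.g (nat_lit 0) (.e (nat_lit 328945) (nat_lit 0) .nil) .nil))))))) (.nd (nat_lit 6) (.nd (nat_lit 7) (.nd (nat_lit 8) (.nd (nat_lit 9) 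
(.lf (nat_lit 564274) (.g (nat_lit 3911) (.e (nat_lit 434230) (nat_lit 23) (.e (nat_lit 532550) (nat_lit 12) (.e (nat_lit 360474) (nat_lit 8) (.e (nat_lit 557093) (nat_lit 12) (.e (nat_lit 164022) (nat_lit 46) (.e (nat_lit 704628) (nat_lit 9) (.e (nat_lit 449) (nat_lit 33) .nil))))))) (.g (nat_lit 1) (.e (nat_lit 325781) (nat_lit 0) .nil) .nil))) 
(.lf (nat_lit 564786) (.g (nat_lit 1862) (.e (nat_lit 434232) (nat_lit 23) (.e (nat_lit 532499) (nat_lit 1) (.e (nat_lit 57688) (nat_lit 156) (.e (nat_lit 163907) (nat_lit 12) .nil)))) (.g (nat_lit 0) (.e (nat_lit 327827) (nat_lit 0) .nil) .nil)))) (.nd (nat_lit 9) 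
(.lf (nat_lit 564530) (.g (nat_lit 4091) (.e (nat_lit 434231) (nat_lit 23) (.e (nat_lit 532549) (nat_lit 12) (.e (nat_lit 360475) (nat_lit 8) (.e (nat_lit 557091) (nat_lit 12) (.e (nat_lit 164020) (nat_lit 45) (.e (nat_lit 696328) (nat_lit 5) (.e (nat_lit 2980) (nat_lit 185) .nil))))))) (.g (nat_lit 1) (.e (nat_lit 327257) (nat_lit 0) .nil) .nil))) 
(.lf (nat_lit 565042) (.g (nat_lit 8258) (.e (nat_lit 434234) (nat_lit 23) (.e (nat_lit 532550) (nat_lit 12) (.e (nat_lit 360474) (nat_lit 8) (.e (nat_lit 557094) (nat_lit 12) (.e (nat_lit 164022) (nat_lit 46) (.e (nat_lit 704629) (nat_lit 9) (.e (nat_lit 442) (nat_lit 33) .nil))))))) (.g (nat_lit 1) (.e (nat_lit 328355) (nat_lit 0) .nil) .nil))))) (.nd (nat_lit 8) (.nd (nat_lit 9) 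
(.lf (nat_lit 564402) (.g (nat_lit 2208) (.e (nat_lit 434231) (nat_lit 23) (.e (nat_lit 532523) (nat_lit 7) (.e (nat_lit 319531) (nat_lit 16) (.e (nat_lit 286727) (nat_lit 0) (.e (nat_lit 1715) (nat_lit 117) .nil))))) (.g (nat_lit 0) (.e (nat_lit 326002) (nat_lit 0) .nil) .nil))) 
(.lf (nat_lit 564914) (.g (nat_lit 1092) (.e (nat_lit 434233) (nat_lit 23) (.e (nat_lit 532503) (nat_lit 1) (.e (nat_lit 57654) (nat_lit 152) (.e (nat_lit 2633) (nat_lit 164) .nil)))) (.g (nat_lit 0) (.e (nat_lit 328017) (nat_lit 0) .nil) .nil)))) (.nd (nat_lit 9) 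
(.lf (nat_lit 564658) (.g (nat_lit 4098) (.e (nat_lit 434231) (nat_lit 23) (.e (nat_lit 532550) (nat_lit 12) (.e (nat_lit 360475) (nat_lit 8) (.e (nat_lit 557091) (nat_lit 12) (.e (nat_lit 163843) (nat_lit 0) (.e (nat_lit 6421) (nat_lit 341) (.e (nat_lit 163918) (nat_lit 13) .nil))))))) (.g (nat_lit 1) (.e (nat_lit 327497) (nat_lit 0) .nil) .nil))) 
(.lf (nat_lit 565170) (.g (nat_lit 3115) (.e (nat_lit 434242) (nat_lit 28) (.e (nat_lit 573474) (nat_lit 12) (.e (nat_lit 57354) (nat_lit 0) (.e (nat_lit 7270) (nat_lit 385) (.e (nat_lit 122906) (nat_lit 12) (.e (nat_lit 336008) (nat_lit 2) (.e (nat_lit 90170) (nat_lit 13) (.e (nat_lit 172113) (nat_lit 10) .nil)))))))) (.g (nat_lit 1) (.e (nat_lit 328890) (nat_lit 0) .nil) .nil)))))) 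
(.nd (nat_lit 7) (.nd (nat_lit 8) (.nd (nat_lit 9) 
(.lf (nat_lit 564338) (.g (nat_lit 638) (.e (nat_lit 434231) (nat_lit 23) (.e (nat_lit 532504) (nat_lit 1) (.e (nat_lit 57691) (nat_lit 156) .nil))) (.g (nat_lit 0) (.e (nat_lit 325895) (nat_lit 0) .nil) .nil))) 
(.lf (nat_lit 564850) (.g (nat_lit 1268) (.e (nat_lit 434232) (nat_lit 23) (.e (nat_lit 532523) (nat_lit 7) (.e (nat_lit 319504) (nat_lit 10) (.e (nat_lit 5351) (nat_lit 298) .nil)))) (.g (nat_lit 0) (.e (nat_lit 327897) (nat_lit 0) .nil) .nil)))) (.nd (nat_lit 9) 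
(.lf (nat_lit 564594) (.g (nat_lit 3011) (.e (nat_lit 434231) (nat_lit 23) (.e (nat_lit 532550) (nat_lit 12) (.e (nat_lit 360474) (nat_lit 8) (.e (nat_lit 557094) (nat_lit 12) (.e (nat_lit 164018) (nat_lit 45) (.e (nat_lit 696330) (nat_lit 5) (.e (nat_lit 2964) (nat_lit 185) .nil))))))) (.g (nat_lit 1) (.e (nat_lit 327368) (nat_lit 0) .nil) .nil))) 
(.lf (nat_lit 565106) (.g (nat_lit 5362) (.e (nat_lit 434238) (nat_lit 25) (.e (nat_lit 548913) (nat_lit 18) (.e (nat_lit 172125) (nat_lit 14) (.e (nat_lit 491537) (nat_lit 2) (.e (nat_lit 90170) (nat_lit 13) (.e (nat_lit 172106) (nat_lit 10) .nil)))))) (.g (nat_lit 1) (.e (nat_lit 328794) (nat_lit 0) .nil) .nil))))) (.nd (nat_lit 8) (.nd (nat_lit 9) 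
(.lf (nat_lit 564466) (.g (nat_lit 4916) (.e (nat_lit 434231) (nat_lit 23) (.e (nat_lit 532549) (nat_lit 12) (.e (nat_lit 360473) (nat_lit 8) (.e (nat_lit 557091) (nat_lit 12) (.e (nat_lit 163850) (nat_lit 0) (.e (nat_lit 6425) (nat_lit 342) (.e (nat_lit 229409) (nat_lit 13) .nil))))))) (.g (nat_lit 1) (.e (nat_lit 326997) (nat_lit 0) .nil) .nil))) 
(.lf (nat_lit 564978) (.g (nat_lit 2712) (.e (nat_lit 434233) (nat_lit 23) (.e (nat_lit 532550) (nat_lit 12) (.e (nat_lit 360475) (nat_lit 8) (.e (nat_lit 557091) (nat_lit 12) .nil)))) (.g (nat_lit 0) (.e (nat_lit 328206) (nat_lit 0) .nil) .nil)))) (.nd (nat_lit 9) 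
(.lf (nat_lit 564722) (.g (nat_lit 2971) (.e (nat_lit 434231) (nat_lit 23) (.e (nat_lit 532569) (nat_lit 16) (.e (nat_lit 401434) (nat_lit 9) (.e (nat_lit 426125) (nat_lit 2) (.e (nat_lit 196637) (nat_lit 9) .nil))))) (.g (nat_lit 0) (.e (nat_lit 327662) (nat_lit 0) .nil) .nil))) 
(.lf (nat_lit 565234) (.g (nat_lit 725) (.e (nat_lit 434244) (nat_lit 28) (.e (nat_lit 573451) (nat_lit 9) (.e (nat_lit 430) (nat_lit 32) .nil))) (.g (nat_lit 0) (.e (nat_lit 328994) (nat_lit 0) .nil) .nil))))))))) (.nd (nat_lit 4) (.nd (nat_lit 5) (.nd (nat_lit 6) (.nd (nat_lit 7) (.nd (nat_lit 8) (.nd (nat_lit 9) 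
(.lf (nat_lit 564234) (.g (nat_lit 3141) (.e (nat_lit 434227) (nat_lit 20) (.e (nat_lit 507928) (nat_lit 10) (.e (nat_lit 5627) (nat_lit 312) (.e (nat_lit 3071) (nat_lit 190) (.e (nat_lit 475185) (nat_lit 29) (.e (nat_lit 557100) (nat_lit 13) (.e (nat_lit 172106) (nat_lit 10) .nil))))))) (.g (nat_lit 1) (.e (nat_lit 325591) (nat_lit 0) .nil) .nil))) 
(.lf (nat_lit 564746) (.g (nat_lit 4311) (.e (nat_lit 434231) (nat_lit 23) (.e (nat_lit 532569) (nat_lit 16) (.e (nat_lit 401448) (nat_lit 10) (.e (nat_lit 434238) (nat_lit 25) (.e (nat_lit 548913) (nat_lit 18) (.e (nat_lit 172116) (nat_lit 10) .nil)))))) (.g (nat_lit 1) (.e (nat_lit 327713) (nat_lit 0) .nil) .nil)))) (.nd (nat_lit 9) 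
(.lf (nat_lit 564490) (.g (nat_lit 1373) (.e (nat_lit 434231) (nat_lit 23) (.e (nat_lit 532549) (nat_lit 12) (.e (nat_lit 360474) (nat_lit 8) (.e (nat_lit 557094) (nat_lit 12) .nil)))) (.g (nat_lit 0) (.e (nat_lit 327100) (nat_lit 0) .nil) .nil))) 
(.lf (nat_lit 565002) (.g (nat_lit 2192) (.e (nat_lit 434234) (nat_lit 23) (.e (nat_lit 532501) (nat_lit 1) (.e (nat_lit 57691) (nat_lit 156) (.e (nat_lit 163907) (nat_lit 12) (.e (nat_lit 426568) (nat_lit 34) .nil))))) (.g (nat_lit 0) (.e (nat_lit 328302) (nat_lit 0) .nil) .nil))))) (.nd (nat_lit 8) (.nd (nat_lit 9) 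
(.lf (nat_lit 564362) (.g (nat_lit 2398) (.e (nat_lit 434231) (nat_lit 23) (.e (nat_lit 532522) (nat_lit 7) (.e (nat_lit 319531) (nat_lit 16) (.e (nat_lit 286727) (nat_lit 0) (.e (nat_lit 1715) (nat_lit 117) .nil))))) (.g (nat_lit 0) (.e (nat_lit 325955) (nat_lit 0) .nil) .nil))) 
(.lf (nat_lit 564874) (.g (nat_lit 4881) (.e (nat_lit 434232) (nat_lit 23) (.e (nat_lit 532550) (nat_lit 12) (.e (nat_lit 360475) (nat_lit 8) (.e (nat_lit 557089) (nat_lit 12) (.e (nat_lit 171776) (nat_lit 49) .nil))))) (.g (nat_lit 0) (.e (nat_lit 327944) (nat_lit 0) .nil) .nil)))) (.nd (nat_lit 9) 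
(.lf (nat_lit 564618) (.g (nat_lit 5003) (.e (nat_lit 434231) (nat_lit 23) (.e (nat_lit 532550) (nat_lit 12) (.e (nat_lit 360475) (nat_lit 8) (.e (nat_lit 557089) (nat_lit 12) (.e (nat_lit 163850) (nat_lit 0) (.e (nat_lit 6425) (nat_lit 342) (.e (nat_lit 229407) (nat_lit 13) .nil))))))) (.g (nat_lit 1) (.e (nat_lit 327434) (nat_lit 0) .nil) .nil))) 
(.lf (nat_lit 565130) (.g (nat_lit 522) (.e (nat_lit 434242) (nat_lit 28) (.e (nat_lit 573458) (nat_lit 9) (.e (nat_lit 426) (nat_lit 32) .nil))) (.g (nat_lit 0) (.e (nat_lit 328846) (nat_lit 0) .nil) .nil)))))) (.nd (nat_lit 7) (.nd (nat_lit 8) (.nd (nat_lit 9) 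
(.lf (nat_lit 564298) (.g (nat_lit 3254) (.e (nat_lit 434231) (nat_lit 23) (.e (nat_lit 532486) (nat_lit 0) (.e (nat_lit 6113) (nat_lit 332) (.e (nat_lit 1374) (nat_lit 104) (.e (nat_lit 303118) (nat_lit 3) (.e (nat_lit 204885) (nat_lit 33) (.e (nat_lit 401446) (nat_lit 10) .nil))))))) (.g (nat_lit 1) (.e (nat_lit 325831) (nat_lit 0) .nil) .nil))) 
(.lf (nat_lit 564810) (.g (nat_lit 2676) (.e (nat_lit 434232) (nat_lit 23) (.e (nat_lit 532503) (nat_lit 1) (.e (nat_lit 57688) (nat_lit 156) (.e (nat_lit 163874) (nat_lit 3) (.e (nat_lit 204836) (nat_lit 20) .nil))))) (.g (nat_lit 0) (.e (nat_lit 327854) (nat_lit 0) .nil) .nil)))) (.nd (nat_lit 9) 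
(.lf (nat_lit 564554) (.g (nat_lit 3583) (.e (nat_lit 434231) (nat_lit 23) (.e (nat_lit 532550) (nat_lit 12) (.e (nat_lit 360474) (nat_lit 8) (.e (nat_lit 557088) (nat_lit 12) (.e (nat_lit 164020) (nat_lit 45) (.e (nat_lit 696328) (nat_lit 5) (.e (nat_lit 2980) (nat_lit 185) .nil))))))) (.g (nat_lit 1) (.e (nat_lit 327302) (nat_lit 0) .nil) .nil))) 
(.lf (nat_lit 565066) (.g (nat_lit 3188) (.e (nat_lit 434235) (nat_lit 24) (.e (nat_lit 540706) (nat_lit 12) (.e (nat_lit 360475) (nat_lit 8) (.e (nat_lit 557090) (nat_lit 12) (.e (nat_lit 164020) (nat_lit 45) (.e (nat_lit 696330) (nat_lit 5) (.e (nat_lit 2981) (nat_lit 185) .nil))))))) (.g (nat_lit 1) (.e (nat_lit 328422) (nat_lit 0) .nil) .nil))))) (.nd (nat_lit 8) (.nd (nat_lit 9) 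
(.lf (nat_lit 564426) (.g (nat_lit 5269) (.e (nat_lit 434231) (nat_lit 23) (.e (nat_lit 532523) (nat_lit 7) (.e (nat_lit 319535) (nat_lit 17) (.e (nat_lit 294927) (nat_lit 2) (.e (nat_lit 90170) (nat_lit 13) (.e (nat_lit 172113) (nat_lit 10) .nil)))))) (.g (nat_lit 1) (.e (nat_lit 326028) (nat_lit 0) .nil) .nil))) 
(.lf (nat_lit 564938) (.g (nat_lit 2768) (.e (nat_lit 434233) (nat_lit 23) (.e (nat_lit 532523) (nat_lit 7) (.e (nat_lit 319533) (nat_lit 16) (.e (nat_lit 286733) (nat_lit 2) (.e (nat_lit 90149) (nat_lit 9) .nil))))) (.g (nat_lit 0) (.e (nat_lit 328115) (nat_lit 0) .nil) .nil)))) (.nd (nat_lit 9) 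
(.lf (nat_lit 564682) (.g (nat_lit 2742) (.e (nat_lit 434231) (nat_lit 23) (.e (nat_lit 532550) (nat_lit 12) (.e (nat_lit 360475) (nat_lit 8) (.e (nat_lit 557091) (nat_lit 12) (.e (nat_lit 164016) (nat_lit 44) (.e (nat_lit 688141) (nat_lit 5) (.e (nat_lit 2961) (nat_lit 185) .nil))))))) (.g (nat_lit 1) (.e (nat_lit 327544) (nat_lit 0) .nil) .nil))) 
(.lf (nat_lit 565194) (.g (nat_lit 1164) (.e (nat_lit 434242) (nat_lit 28) (.e (nat_lit 573488) (nat_lit 14) (.e (nat_lit 73755) (nat_lit 8) (.e (nat_lit 557119) (nat_lit 18) .nil)))) (.g (nat_lit 0) (.e (nat_lit 328935) (nat_lit 0) .nil) .nil))))))) (.nd (nat_lit 6) (.nd (nat_lit 7) (.nd (nat_lit 8) (.nd (nat_lit 9) 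
(.lf (nat_lit 564266) (.g (nat_lit 4093) (.e (nat_lit 434230) (nat_lit 23) (.e (nat_lit 532535) (nat_lit 9) (.e (nat_lit 336176) (nat_lit 10) (.e (nat_lit 344132) (nat_lit 26) (.e (nat_lit 557093) (nat_lit 12) (.e (nat_lit 164022) (nat_lit 46) (.e (nat_lit 704629) (nat_lit 9) (.e (nat_lit 442) (nat_lit 33) .nil)))))))) (.g (nat_lit 1) (.e (nat_lit 325769) (nat_lit 0) .nil) .nil))) 
(.lf (nat_lit 564778) (.g (nat_lit 3092) (.e (nat_lit 434232) (nat_lit 23) (.e (nat_lit 532499) (nat_lit 1) (.e (nat_lit 57688) (nat_lit 156) (.e (nat_lit 163873) (nat_lit 3) (.e (nat_lit 204837) (nat_lit 20) .nil))))) (.g (nat_lit 0) (.e (nat_lit 327819) (nat_lit 0) .nil) .nil)))) (.nd (nat_lit 9) 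
(.lf (nat_lit 564522) (.g (nat_lit 3364) (.e (nat_lit 434231) (nat_lit 23) (.e (nat_lit 532549) (nat_lit 12) (.e (nat_lit 360475) (nat_lit 8) (.e (nat_lit 557091) (nat_lit 12) (.e (nat_lit 164018) (nat_lit 45) (.e (nat_lit 696328) (nat_lit 5) (.e (nat_lit 2980) (nat_lit 185) .nil))))))) (.g (nat_lit 1) (.e (nat_lit 327248) (nat_lit 0) .nil) .nil))) 
(.lf (nat_lit 565034) (.g (nat_lit 3671) (.e (nat_lit 434234) (nat_lit 23) (.e (nat_lit 532535) (nat_lit 9) (.e (nat_lit 336173) (nat_lit 10) (.e (nat_lit 344133) (nat_lit 26) (.e (nat_lit 557091) (nat_lit 12) (.e (nat_lit 164022) (nat_lit 46) (.e (nat_lit 704629) (nat_lit 9) (.e (nat_lit 442) (nat_lit 33) .nil)))))))) (.g (nat_lit 1) (.e (nat_lit 328347) (nat_lit 0) .nil) .nil))))) 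
(.nd (nat_lit 8) (.nd (nat_lit 9) 
(.lf (nat_lit 564394) (.g (nat_lit 3678) (.e (nat_lit 434231) (nat_lit 23) (.e (nat_lit 532523) (nat_lit 7) (.e (nat_lit 319530) (nat_lit 16) (.e (nat_lit 286733) (nat_lit 2) (.e (nat_lit 90134) (nat_lit 9) (.e (nat_lit 2886) (nat_lit 184) (.e (nat_lit 426276) (nat_lit 10) .nil))))))) (.g (nat_lit 1) (.e (nat_lit 325994) (nat_lit 0) .nil) .nil))) 
(.lf (nat_lit 564906) (.g (nat_lit 2240) (.e (nat_lit 434233) (nat_lit 23) (.e (nat_lit 532501) (nat_lit 1) (.e (nat_lit 57691) (nat_lit 156) (.e (nat_lit 163905) (nat_lit 12) (.e (nat_lit 426568) (nat_lit 34) (.e (nat_lit 393284) (nat_lit 24) .nil)))))) (.g (nat_lit 1) (.e (nat_lit 328009) (nat_lit 0) .nil) .nil)))) (.nd (nat_lit 9) 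
(.lf (nat_lit 564650) (.g (nat_lit 2787) (.e (nat_lit 434231) (nat_lit 23) (.e (nat_lit 532550) (nat_lit 12) (.e (nat_lit 360475) (nat_lit 8) (.e (nat_lit 557091) (nat_lit 12) (.e (nat_lit 163840) (nat_lit 0) (.e (nat_lit 6426) (nat_lit 342) (.e (nat_lit 229408) (nat_lit 13) .nil))))))) (.g (nat_lit 1) (.e (nat_lit 327479) (nat_lit 0) .nil) .nil))) 
(.lf (nat_lit 565162) (.g (nat_lit 2395) (.e (nat_lit 434242) (nat_lit 28) (.e (nat_lit 573471) (nat_lit 11) (.e (nat_lit 16472) (nat_lit 14) (.e (nat_lit 491535) (nat_lit 2) (.e (nat_lit 90170) (nat_lit 13) .nil))))) (.g (nat_lit 0) (.e (nat_lit 328881) (nat_lit 0) .nil) .nil)))))) (.nd (nat_lit 7) (.nd (nat_lit 8) (.nd (nat_lit 9) 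
(.lf (nat_lit 564330) (.g (nat_lit 3775) (.e (nat_lit 434231) (nat_lit 23) (.e (nat_lit 532500) (nat_lit 1) (.e (nat_lit 57691) (nat_lit 156) (.e (nat_lit 163875) (nat_lit 3) (.e (nat_lit 204838) (nat_lit 20) (.e (nat_lit 114718) (nat_lit 23) (.e (nat_lit 98366) (nat_lit 27) .nil))))))) (.g (nat_lit 1) (.e (nat_lit 325885) (nat_lit 0) .nil) .nil))) 
(.lf (nat_lit 564842) (.g (nat_lit 1445) (.e (nat_lit 434232) (nat_lit 23) (.e (nat_lit 532513) (nat_lit 3) (.e (nat_lit 114718) (nat_lit 23) (.e (nat_lit 98333) (nat_lit 18) .nil)))) (.g (nat_lit 0) (.e (nat_lit 327888) (nat_lit 0) .nil) .nil)))) (.nd (nat_lit 9) 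
(.lf (nat_lit 564586) (.g (nat_lit 2924) (.e (nat_lit 434231) (nat_lit 23) (.e (nat_lit 532550) (nat_lit 12) (.e (nat_lit 360474) (nat_lit 8) (.e (nat_lit 557094) (nat_lit 12) (.e (nat_lit 163847) (nat_lit 0) (.e (nat_lit 6416) (nat_lit 341) (.e (nat_lit 163917) (nat_lit 13) .nil))))))) (.g (nat_lit 1) (.e (nat_lit 327352) (nat_lit 0) .nil) .nil))) 
(.lf (nat_lit 565098) (.g (nat_lit 3217) (.e (nat_lit 434238) (nat_lit 25) (.e (nat_lit 548913) (nat_lit 18) (.e (nat_lit 172120) (nat_lit 12) (.e (nat_lit 475185) (nat_lit 29) (.e (nat_lit 557098) (nat_lit 13) (.e (nat_lit 172112) (nat_lit 10) .nil)))))) (.g (nat_lit 1) (.e (nat_lit 328786) (nat_lit 0) .nil) .nil))))) (.nd (nat_lit 8) (.nd (nat_lit 9) 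
(.lf (nat_lit 564458) (.g (nat_lit 1429) (.e (nat_lit 434231) (nat_lit 23) (.e (nat_lit 532549) (nat_lit 12) (.e (nat_lit 360473) (nat_lit 8) (.e (nat_lit 557088) (nat_lit 12) .nil)))) (.g (nat_lit 0) (.e (nat_lit 326890) (nat_lit 0) .nil) .nil))) 
(.lf (nat_lit 564970) (.g (nat_lit 6610) (.e (nat_lit 434233) (nat_lit 23) (.e (nat_lit 532550) (nat_lit 12) (.e (nat_lit 360474) (nat_lit 8) (.e (nat_lit 557091) (nat_lit 12) (.e (nat_lit 164022) (nat_lit 46) .nil))))) (.g (nat_lit 0) (.e (nat_lit 328195) (nat_lit 0) .nil) .nil)))) (.nd (nat_lit 9) 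
(.lf (nat_lit 564714) (.g (nat_lit 1959) (.e (nat_lit 434231) (nat_lit 23) (.e (nat_lit 532568) (nat_lit 16) (.e (nat_lit 401450) (nat_lit 12) (.e (nat_lit 475183) (nat_lit 29) .nil)))) (.g (nat_lit 0) (.e (nat_lit 327645) (nat_lit 0) .nil) .nil))) 
(.lf (nat_lit 565226) (.g (nat_lit 4736) (.e (nat_lit 434244) (nat_lit 28) (.e (nat_lit 573450) (nat_lit 9) (.e (nat_lit 442) (nat_lit 33) (.e (nat_lit 434181) (nat_lit 0) (.e (nat_lit 1235) (nat_lit 91) (.e (nat_lit 90170) (nat_lit 13) (.e (nat_lit 172106) (nat_lit 10) .nil))))))) (.g (nat_lit 1) (.e (nat_lit 328977) (nat_lit 0) .nil) .nil)))))))) 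
(.nd (nat_lit 5) (.nd (nat_lit 6) (.nd (nat_lit 7) (.nd (nat_lit 8) (.nd (nat_lit 9) 
(.lf (nat_lit 564250) (.g (nat_lit 4888) (.e (nat_lit 434227) (nat_lit 20) (.e (nat_lit 507946) (nat_lit 18) (.e (nat_lit 303146) (nat_lit 14) (.e (nat_lit 491537) (nat_lit 2) (.e (nat_lit 90170) (nat_lit 13) (.e (nat_lit 172106) (nat_lit 10) .nil)))))) (.g (nat_lit 1) (.e (nat_lit 325743) (nat_lit 0) .nil) .nil))) 
(.lf (nat_lit 564762) (.g (nat_lit 3186) (.e (nat_lit 434231) (nat_lit 23) (.e (nat_lit 532579) (nat_lit 26) (.e (nat_lit 426099) (nat_lit 1) (.e (nat_lit 164399) (nat_lit 256) (.e (nat_lit 57407) (nat_lit 12) (.e (nat_lit 336398) (nat_lit 27) (.e (nat_lit 426290) (nat_lit 10) .nil))))))) (.g (nat_lit 1) (.e (nat_lit 327747) (nat_lit 0) .nil) .nil)))) (.nd (nat_lit 9) 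
(.lf (nat_lit 564506) (.g (nat_lit 3012) (.e (nat_lit 434231) (nat_lit 23) (.e (nat_lit 532549) (nat_lit 12) (.e (nat_lit 360475) (nat_lit 8) (.e (nat_lit 557090) (nat_lit 12) (.e (nat_lit 164020) (nat_lit 45) (.e (nat_lit 696327) (nat_lit 5) (.e (nat_lit 2964) (nat_lit 185) .nil))))))) (.g (nat_lit 1) (.e (nat_lit 327175) (nat_lit 0) .nil) .nil))) 
(.lf (nat_lit 565018) (.g (nat_lit 2117) (.e (nat_lit 434234) (nat_lit 23) (.e (nat_lit 532504) (nat_lit 1) (.e (nat_lit 57691) (nat_lit 156) (.e (nat_lit 163907) (nat_lit 12) (.e (nat_lit 426568) (nat_lit 34) .nil))))) (.g (nat_lit 0) (.e (nat_lit 328318) (nat_lit 0) .nil) .nil))))) (.nd (nat_lit 8) (.nd (nat_lit 9) 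
(.lf (nat_lit 564378) (.g (nat_lit 882) (.e (nat_lit 434231) (nat_lit 23) (.e (nat_lit 532523) (nat_lit 7) (.e (nat_lit 319528) (nat_lit 16) (.e (nat_lit 286735) (nat_lit 3) .nil)))) (.g (nat_lit 0) (.e (nat_lit 325973) (nat_lit 0) .nil) .nil))) 
(.lf (nat_lit 564890) (.g (nat_lit 2563) (.e (nat_lit 434233) (nat_lit 23) (.e (nat_lit 532499) (nat_lit 1) (.e (nat_lit 57687) (nat_lit 156) (.e (nat_lit 163903) (nat_lit 12) (.e (nat_lit 426568) (nat_lit 34) (.e (nat_lit 393284) (nat_lit 24) .nil)))))) (.g (nat_lit 1) (.e (nat_lit 327993) (nat_lit 0) .nil) .nil)))) (.nd (nat_lit 9) 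
(.lf (nat_lit 564634) (.g (nat_lit 4180) (.e (nat_lit 434231) (nat_lit 23) (.e (nat_lit 532550) (nat_lit 12) (.e (nat_lit 360475) (nat_lit 8) (.e (nat_lit 557089) (nat_lit 12) (.e (nat_lit 164020) (nat_lit 45) (.e (nat_lit 696330) (nat_lit 5) (.e (nat_lit 2980) (nat_lit 185) .nil))))))) (.g (nat_lit 1) (.e (nat_lit 327458) (nat_lit 0) .nil) .nil))) 
(.lf (nat_lit 565146) (.g (nat_lit 4164) (.e (nat_lit 434242) (nat_lit 28) (.e (nat_lit 573471) (nat_lit 11) (.e (nat_lit 16433) (nat_lit 9) (.e (nat_lit 426363) (nat_lit 15) .nil)))) (.g (nat_lit 0) (.e (nat_lit 328863) (nat_lit 0) .nil) .nil)))))) (.nd (nat_lit 7) (.nd (nat_lit 8) (.nd (nat_lit 9) 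
(.lf (nat_lit 564314) (.g (nat_lit 3607) (.e (nat_lit 434231) (nat_lit 23) (.e (nat_lit 532499) (nat_lit 1) (.e (nat_lit 57691) (nat_lit 156) (.e (nat_lit 163874) (nat_lit 3) (.e (nat_lit 204837) (nat_lit 20) (.e (nat_lit 114719) (nat_lit 23) (.e (nat_lit 98366) (nat_lit 27) .nil))))))) (.g (nat_lit 1) (.e (nat_lit 325863) (nat_lit 0) .nil) .nil))) 
(.lf (nat_lit 564826) (.g (nat_lit 2084) (.e (nat_lit 434232) (nat_lit 23) (.e (nat_lit 532504) (nat_lit 1) (.e (nat_lit 57690) (nat_lit 156) (.e (nat_lit 163875) (nat_lit 3) (.e (nat_lit 204838) (nat_lit 20) .nil))))) (.g (nat_lit 0) (.e (nat_lit 327870) (nat_lit 0) .nil) .nil)))) (.nd (nat_lit 9) 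
(.lf (nat_lit 564570) (.g (nat_lit 951) (.e (nat_lit 434231) (nat_lit 23) (.e (nat_lit 532550) (nat_lit 12) (.e (nat_lit 360474) (nat_lit 8) (.e (nat_lit 557093) (nat_lit 12) .nil)))) (.g (nat_lit 0) (.e (nat_lit 327319) (nat_lit 0) .nil) .nil))) 
(.lf (nat_lit 565082) (.g (nat_lit 3093) (.e (nat_lit 434237) (nat_lit 25) (.e (nat_lit 548913) (nat_lit 18) (.e (nat_lit 172126) (nat_lit 14) (.e (nat_lit 491537) (nat_lit 2) (.e (nat_lit 90170) (nat_lit 13) .nil))))) (.g (nat_lit 0) (.e (nat_lit 328494) (nat_lit 0) .nil) .nil))))) (.nd (nat_lit 8) (.nd (nat_lit 9) 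
(.lf (nat_lit 564442) (.g (nat_lit 872) (.e (nat_lit 434231) (nat_lit 23) (.e (nat_lit 532531) (nat_lit 9) (.e (nat_lit 336336) (nat_lit 20) (.e (nat_lit 221211) (nat_lit 22) .nil)))) (.g (nat_lit 0) (.e (nat_lit 326076) (nat_lit 0) .nil) .nil))) 
(.lf (nat_lit 564954) (.g (nat_lit 3047) (.e (nat_lit 434233) (nat_lit 23) (.e (nat_lit 532523) (nat_lit 7) (.e (nat_lit 319534) (nat_lit 16) (.e (nat_lit 286735) (nat_lit 3) (.e (nat_lit 98354) (nat_lit 26) .nil))))) (.g (nat_lit 0) (.e (nat_lit 328149) (nat_lit 0) .nil) .nil)))) (.nd (nat_lit 9) 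
(.lf (nat_lit 564698) (.g (nat_lit 3666) (.e (nat_lit 434231) (nat_lit 23) (.e (nat_lit 532550) (nat_lit 12) (.e (nat_lit 360475) (nat_lit 8) (.e (nat_lit 557091) (nat_lit 12) (.e (nat_lit 164020) (nat_lit 45) (.e (nat_lit 696330) (nat_lit 5) (.e (nat_lit 2974) (nat_lit 185) .nil))))))) (.g (nat_lit 1) (.e (nat_lit 327574) (nat_lit 0) .nil) .nil))) 
(.lf (nat_lit 565210) (.g (nat_lit 1980) (.e (nat_lit 434243) (nat_lit 28) (.e (nat_lit 573475) (nat_lit 12) (.e (nat_lit 57572) (nat_lit 54) (.e (nat_lit 770072) (nat_lit 8) .nil)))) (.g (nat_lit 0) (.e (nat_lit 328956) (nat_lit 0) .nil) .nil))))))) (.nd (nat_lit 6) (.nd (nat_lit 7) (.nd (nat_lit 8) (.nd (nat_lit 9) 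
(.lf (nat_lit 564282) (.g (nat_lit 3816) (.e (nat_lit 434230) (nat_lit 23) (.e (nat_lit 532550) (nat_lit 12) (.e (nat_lit 360475) (nat_lit 8) (.e (nat_lit 557089) (nat_lit 12) (.e (nat_lit 164017) (nat_lit 44) .nil))))) (.g (nat_lit 0) (.e (nat_lit 325792) (nat_lit 0) .nil) .nil))) 
(.lf (nat_lit 564794) (.g (nat_lit 2365) (.e (nat_lit 434232) (nat_lit 23) (.e (nat_lit 532499) (nat_lit 1) (.e (nat_lit 57692) (nat_lit 156) (.e (nat_lit 163875) (nat_lit 3) (.e (nat_lit 204836) (nat_lit 20) .nil))))) (.g (nat_lit 0) (.e (nat_lit 327837) (nat_lit 0) .nil) .nil)))) (.nd (nat_lit 9) 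
(.lf (nat_lit 564538) (.g (nat_lit 3531) (.e (nat_lit 434231) (nat_lit 23) (.e (nat_lit 532550) (nat_lit 12) (.e (nat_lit 360472) (nat_lit 8) (.e (nat_lit 557090) (nat_lit 12) (.e (nat_lit 164020) (nat_lit 45) (.e (nat_lit 696327) (nat_lit 5) (.e (nat_lit 2964) (nat_lit 185) .nil))))))) (.g (nat_lit 1) (.e (nat_lit 327285) (nat_lit 0) .nil) .nil))) 
(.lf (nat_lit 565050) (.g (nat_lit 2224) (.e (nat_lit 434234) (nat_lit 23) (.e (nat_lit 532569) (nat_lit 16) (.e (nat_lit 401448) (nat_lit 10) (.e (nat_lit 434244) (nat_lit 28) .nil)))) (.g (nat_lit 0) (.e (nat_lit 328384) (nat_lit 0) .nil) .nil))))) (.nd (nat_lit 8) (.nd (nat_lit 9) 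
(.lf (nat_lit 564410) (.g (nat_lit 2800) (.e (nat_lit 434231) (nat_lit 23) (.e (nat_lit 532523) (nat_lit 7) (.e (nat_lit 319531) (nat_lit 16) (.e (nat_lit 286733) (nat_lit 2) (.e (nat_lit 90134) (nat_lit 9) (.e (nat_lit 2886) (nat_lit 184) (.e (nat_lit 426290) (nat_lit 10) .nil))))))) (.g (nat_lit 1) (.e (nat_lit 326012) (nat_lit 0) .nil) .nil))) 
(.lf (nat_lit 564922) (.g (nat_lit 1654) (.e (nat_lit 434233) (nat_lit 23) (.e (nat_lit 532504) (nat_lit 1) (.e (nat_lit 57692) (nat_lit 156) (.e (nat_lit 163906) (nat_lit 12) (.e (nat_lit 426568) (nat_lit 34) .nil))))) (.g (nat_lit 0) (.e (nat_lit 328025) (nat_lit 0) .nil) .nil)))) (.nd (nat_lit 9) 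
(.lf (nat_lit 564666) (.g (nat_lit 3279) (.e (nat_lit 434231) (nat_lit 23) (.e (nat_lit 532550) (nat_lit 12) (.e (nat_lit 360475) (nat_lit 8) (.e (nat_lit 557091) (nat_lit 12) (.e (nat_lit 163849) (nat_lit 0) (.e (nat_lit 6416) (nat_lit 341) (.e (nat_lit 163917) (nat_lit 13) .nil))))))) (.g (nat_lit 1) (.e (nat_lit 327522) (nat_lit 0) .nil) .nil))) 
(.lf (nat_lit 565178) (.g (nat_lit 1482) (.e (nat_lit 434242) (nat_lit 28) (.e (nat_lit 573488) (nat_lit 14) (.e (nat_lit 73755) (nat_lit 8) (.e (nat_lit 564992) (nat_lit 0) .nil)))) (.g (nat_lit 0) (.e (nat_lit 328905) (nat_lit 0) .nil) .nil)))))) (.nd (nat_lit 7) (.nd (nat_lit 8) (.nd (nat_lit 9) 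
(.lf (nat_lit 564346) (.g (nat_lit 4580) (.e (nat_lit 434231) (nat_lit 23) (.e (nat_lit 532514) (nat_lit 3) (.e (nat_lit 114718) (nat_lit 23) (.e (nat_lit 98334) (nat_lit 18) (.e (nat_lit 164398) (nat_lit 256) (.e (nat_lit 57378) (nat_lit 3) (.e (nat_lit 98366) (nat_lit 27) .nil))))))) (.g (nat_lit 1) (.e (nat_lit 325927) (nat_lit 0) .nil) .nil))) 
(.lf (nat_lit 564858) (.g (nat_lit 2808) (.e (nat_lit 434232) (nat_lit 23) (.e (nat_lit 532549) (nat_lit 12) (.e (nat_lit 360473) (nat_lit 8) (.e (nat_lit 557091) (nat_lit 12) (.e (nat_lit 163850) (nat_lit 0) .nil))))) (.g (nat_lit 0) (.e (nat_lit 327919) (nat_lit 0) .nil) .nil)))) (.nd (nat_lit 9) 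
(.lf (nat_lit 564602) (.g (nat_lit 1207) (.e (nat_lit 434231) (nat_lit 23) (.e (nat_lit 532550) (nat_lit 12) (.e (nat_lit 360475) (nat_lit 8) (.e (nat_lit 557089) (nat_lit 12) .nil)))) (.g (nat_lit 0) (.e (nat_lit 327399) (nat_lit 0) .nil) .nil))) 
(.lf (nat_lit 565114) (.g (nat_lit 4618) (.e (nat_lit 434238) (nat_lit 25) (.e (nat_lit 548913) (nat_lit 18) (.e (nat_lit 172126) (nat_lit 14) (.e (nat_lit 491537) (nat_lit 2) (.e (nat_lit 90170) (nat_lit 13) (.e (nat_lit 172115) (nat_lit 10) .nil)))))) (.g (nat_lit 1) (.e (nat_lit 328802) (nat_lit 0) .nil) .nil))))) (.nd (nat_lit 8) (.nd (nat_lit 9) 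
(.lf (nat_lit 564474) (.g (nat_lit 4024) (.e (nat_lit 434231) (nat_lit 23) (.e (nat_lit 532549) (nat_lit 12) (.e (nat_lit 360473) (nat_lit 8) (.e (nat_lit 557091) (nat_lit 12) (.e (nat_lit 164020) (nat_lit 45) (.e (nat_lit 696327) (nat_lit 5) (.e (nat_lit 2964) (nat_lit 185) .nil))))))) (.g (nat_lit 1) (.e (nat_lit 327032) (nat_lit 0) .nil) .nil))) 
(.lf (nat_lit 564986) (.g (nat_lit 2256) (.e (nat_lit 434233) (nat_lit 23) (.e (nat_lit 532569) (nat_lit 16) (.e (nat_lit 401448) (nat_lit 10) (.e (nat_lit 434232) (nat_lit 23) .nil)))) (.g (nat_lit 0) (.e (nat_lit 328243) (nat_lit 0) .nil) .nil)))) (.nd (nat_lit 9) 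
(.lf (nat_lit 564730) (.g (nat_lit 1299) (.e (nat_lit 434231) (nat_lit 23) (.e (nat_lit 532569) (nat_lit 16) (.e (nat_lit 401444) (nat_lit 9) (.e (nat_lit 426386) (nat_lit 15) .nil)))) (.g (nat_lit 0) (.e (nat_lit 327676) (nat_lit 0) .nil) .nil))) 
(.lf (nat_lit 565242) (.g (nat_lit 4254) (.e (nat_lit 434244) (nat_lit 28) (.e (nat_lit 573451) (nat_lit 9) (.e (nat_lit 498) (nat_lit 40) (.e (nat_lit 491563) (nat_lit 12) (.e (nat_lit 385068) (nat_lit 26) (.e (nat_lit 532513) (nat_lit 3) (.e (nat_lit 122624) (nat_lit 12) .nil))))))) (.g (nat_lit 1) (.e (nat_lit 329006) (nat_lit 0) .nil) .nil)))))))))) 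
(.nd (nat_lit 3) (.nd (nat_lit 4) (.nd (nat_lit 5) (.nd (nat_lit 6) (.nd (nat_lit 7) 
(.nd (nat_lit 8) (.nd (nat_lit 9) 
(.lf (nat_lit 564230) (.g (nat_lit 1236) (.e (nat_lit 434222) (nat_lit 19) (.e (nat_lit 500046) (nat_lit 16) (.e (nat_lit 16416) (nat_lit 3) (.e (nat_lit 204812) (nat_lit 9) .nil)))) (.g (nat_lit 0) (.e (nat_lit 325584) (nat_lit 0) .nil) .nil))) 
(.lf (nat_lit 564742) (.g (nat_lit 4226) (.e (nat_lit 434231) (nat_lit 23) (.e (nat_lit 532569) (nat_lit 16) (.e (nat_lit 401448) (nat_lit 10) (.e (nat_lit 434232) (nat_lit 23) (.e (nat_lit 532569) (nat_lit 16) (.e (nat_lit 401448) (nat_lit 10) .nil)))))) (.g (nat_lit 1) (.e (nat_lit 327707) (nat_lit 0) .nil) .nil)))) (.nd (nat_lit 9) 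
(.lf (nat_lit 564486) (.g (nat_lit 3526) (.e (nat_lit 434231) (nat_lit 23) (.e (nat_lit 532549) (nat_lit 12) (.e (nat_lit 360474) (nat_lit 8) (.e (nat_lit 557091) (nat_lit 12) (.e (nat_lit 164020) (nat_lit 45) (.e (nat_lit 696330) (nat_lit 5) (.e (nat_lit 2964) (nat_lit 185) .nil))))))) (.g (nat_lit 1) (.e (nat_lit 327096) (nat_lit 0) .nil) .nil))) 
(.lf (nat_lit 564998) (.g (nat_lit 2453) (.e (nat_lit 434234) (nat_lit 23) (.e (nat_lit 532499) (nat_lit 1) (.e (nat_lit 57692) (nat_lit 156) (.e (nat_lit 163905) (nat_lit 12) (.e (nat_lit 426568) (nat_lit 34) (.e (nat_lit 393283) (nat_lit 24) .nil)))))) (.g (nat_lit 1) (.e (nat_lit 328298) (nat_lit 0) .nil) .nil))))) (.nd (nat_lit 8) (.nd (nat_lit 9) 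
(.lf (nat_lit 564358) (.g (nat_lit 3795) (.e (nat_lit 434231) (nat_lit 23) (.e (nat_lit 532522) (nat_lit 7) (.e (nat_lit 319530) (nat_lit 16) (.e (nat_lit 286733) (nat_lit 2) (.e (nat_lit 90134) (nat_lit 9) (.e (nat_lit 2882) (nat_lit 184) (.e (nat_lit 426289) (nat_lit 10) .nil))))))) (.g (nat_lit 1) (.e (nat_lit 325951) (nat_lit 0) .nil) .nil))) 
(.lf (nat_lit 564870) (.g (nat_lit 5884) (.e (nat_lit 434232) (nat_lit 23) (.e (nat_lit 532550) (nat_lit 12) (.e (nat_lit 360474) (nat_lit 8) (.e (nat_lit 557093) (nat_lit 12) (.e (nat_lit 164023) (nat_lit 46) (.e (nat_lit 704629) (nat_lit 9) (.e (nat_lit 442) (nat_lit 33) .nil))))))) (.g (nat_lit 1) (.e (nat_lit 327937) (nat_lit 0) .nil) .nil)))) (.nd (nat_lit 9) 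
(.lf (nat_lit 564614) (.g (nat_lit 3518) (.e (nat_lit 434231) (nat_lit 23) (.e (nat_lit 532550) (nat_lit 12) (.e (nat_lit 360475) (nat_lit 8) (.e (nat_lit 557089) (nat_lit 12) (.e (nat_lit 163849) (nat_lit 0) (.e (nat_lit 6416) (nat_lit 341) (.e (nat_lit 163918) (nat_lit 13) .nil))))))) (.g (nat_lit 1) (.e (nat_lit 327430) (nat_lit 0) .nil) .nil))) 
(.lf (nat_lit 565126) (.g (nat_lit 1575) (.e (nat_lit 434242) (nat_lit 28) (.e (nat_lit 573450) (nat_lit 9) (.e (nat_lit 411) (nat_lit 32) (.e (nat_lit 426008) (nat_lit 0) .nil)))) (.g (nat_lit 0) (.e (nat_lit 328841) (nat_lit 0) .nil) .nil)))))) (.nd (nat_lit 7) (.nd (nat_lit 8) (.nd (nat_lit 9) 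
(.lf (nat_lit 564294) (.g (nat_lit 530) (.e (nat_lit 434230) (nat_lit 23) (.e (nat_lit 532569) (nat_lit 16) (.e (nat_lit 401448) (nat_lit 10) .nil))) (.g (nat_lit 0) (.e (nat_lit 325806) (nat_lit 0) .nil) .nil))) 
(.lf (nat_lit 564806) (.g (nat_lit 1720) (.e (nat_lit 434232) (nat_lit 23) (.e (nat_lit 532503) (nat_lit 1) (.e (nat_lit 57667) (nat_lit 152) (.e (nat_lit 2619) (nat_lit 164) (.e (nat_lit 179968) (nat_lit 34) .nil))))) (.g (nat_lit 0) (.e (nat_lit 327850) (nat_lit 0) .nil) .nil)))) (.nd (nat_lit 9) 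
(.lf (nat_lit 564550) (.g (nat_lit 3011) (.e (nat_lit 434231) (nat_lit 23) (.e (nat_lit 532550) (nat_lit 12) (.e (nat_lit 360473) (nat_lit 8) (.e (nat_lit 557090) (nat_lit 12) (.e (nat_lit 164020) (nat_lit 45) (.e (nat_lit 696330) (nat_lit 5) (.e (nat_lit 2964) (nat_lit 185) .nil))))))) (.g (nat_lit 1) (.e (nat_lit 327297) (nat_lit 0) .nil) .nil))) 
(.lf (nat_lit 565062) (.g (nat_lit 1705) (.e (nat_lit 434235) (nat_lit 24) (.e (nat_lit 540706) (nat_lit 12) (.e (nat_lit 360475) (nat_lit 8) (.e (nat_lit 557090) (nat_lit 12) (.e (nat_lit 164020) (nat_lit 45) (.e (nat_lit 696328) (nat_lit 5) (.e (nat_lit 2972) (nat_lit 185) .nil))))))) (.g (nat_lit 1) (.e (nat_lit 328418) (nat_lit 0) .nil) .nil))))) (.nd (nat_lit 8) (.nd (nat_lit 9) 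
(.lf (nat_lit 564422) (.g (nat_lit 1625) (.e (nat_lit 434231) (nat_lit 23) (.e (nat_lit 532523) (nat_lit 7) (.e (nat_lit 319534) (nat_lit 16) (.e (nat_lit 286728) (nat_lit 0) .nil)))) (.g (nat_lit 0) (.e (nat_lit 326024) (nat_lit 0) .nil) .nil))) 
(.lf (nat_lit 564934) (.g (nat_lit 2630) (.e (nat_lit 434233) (nat_lit 23) (.e (nat_lit 532523) (nat_lit 7) (.e (nat_lit 319531) (nat_lit 16) (.e (nat_lit 286735) (nat_lit 3) (.e (nat_lit 98325) (nat_lit 17) (.e (nat_lit 7936) (nat_lit 388) (.e (nat_lit 2955) (nat_lit 185) .nil))))))) (.g (nat_lit 1) (.e (nat_lit 328095) (nat_lit 0) .nil) .nil)))) (.nd (nat_lit 9) 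
(.lf (nat_lit 564678) (.g (nat_lit 3036) (.e (nat_lit 434231) (nat_lit 23) (.e (nat_lit 532550) (nat_lit 12) (.e (nat_lit 360475) (nat_lit 8) (.e (nat_lit 557091) (nat_lit 12) (.e (nat_lit 163852) (nat_lit 0) (.e (nat_lit 6425) (nat_lit 342) (.e (nat_lit 229408) (nat_lit 13) .nil))))))) (.g (nat_lit 1) (.e (nat_lit 327534) (nat_lit 0) .nil) .nil))) 
(.lf (nat_lit 565190) (.g (nat_lit 2692) (.e (nat_lit 434242) (nat_lit 28) (.e (nat_lit 573488) (nat_lit 14) (.e (nat_lit 73755) (nat_lit 8) (.e (nat_lit 557091) (nat_lit 12) (.e (nat_lit 164005) (nat_lit 41) .nil))))) (.g (nat_lit 0) (.e (nat_lit 328931) (nat_lit 0) .nil) .nil))))))) (.nd (nat_lit 6) (.nd (nat_lit 7) (.nd (nat_lit 8) (.nd (nat_lit 9) 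
(.lf (nat_lit 564262) (.g (nat_lit 1502) (.e (nat_lit 434230) (nat_lit 23) (.e (nat_lit 532523) (nat_lit 7) (.e (nat_lit 319504) (nat_lit 10) (.e (nat_lit 5351) (nat_lit 298) .nil)))) (.g (nat_lit 0) (.e (nat_lit 325756) (nat_lit 0) .nil) .nil))) 
(.lf (nat_lit 564774) (.g (nat_lit 1480) (.e (nat_lit 434232) (nat_lit 23) (.e (nat_lit 532481) (nat_lit 0) (.e (nat_lit 6720) (nat_lit 361) (.e (nat_lit 172065) (nat_lit 3) (.e (nat_lit 204885) (nat_lit 33) .nil))))) (.g (nat_lit 0) (.e (nat_lit 327815) (nat_lit 0) .nil) .nil)))) (.nd (nat_lit 9) 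
(.lf (nat_lit 564518) (.g (nat_lit 3731) (.e (nat_lit 434231) (nat_lit 23) (.e (nat_lit 532549) (nat_lit 12) (.e (nat_lit 360475) (nat_lit 8) (.e (nat_lit 557091) (nat_lit 12) (.e (nat_lit 163852) (nat_lit 0) (.e (nat_lit 6428) (nat_lit 342) (.e (nat_lit 229409) (nat_lit 13) .nil))))))) (.g (nat_lit 1) (.e (nat_lit 327234) (nat_lit 0) .nil) .nil))) 
(.lf (nat_lit 565030) (.g (nat_lit 1469) (.e (nat_lit 434234) (nat_lit 23) (.e (nat_lit 532523) (nat_lit 7) (.e (nat_lit 319505) (nat_lit 10) (.e (nat_lit 5351) (nat_lit 298) .nil)))) (.g (nat_lit 0) (.e (nat_lit 328336) (nat_lit 0) .nil) .nil))))) (.nd (nat_lit 8) (.nd (nat_lit 9) 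
(.lf (nat_lit 564390) (.g (nat_lit 2815) (.e (nat_lit 434231) (nat_lit 23) (.e (nat_lit 532523) (nat_lit 7) (.e (nat_lit 319530) (nat_lit 16) (.e (nat_lit 286733) (nat_lit 2) (.e (nat_lit 90134) (nat_lit 9) (.e (nat_lit 2872) (nat_lit 184) (.e (nat_lit 426290) (nat_lit 10) .nil))))))) (.g (nat_lit 1) (.e (nat_lit 325988) (nat_lit 0) .nil) .nil))) 
(.lf (nat_lit 564902) (.g (nat_lit 1811) (.e (nat_lit 434233) (nat_lit 23) (.e (nat_lit 532499) (nat_lit 1) (.e (nat_lit 57692) (nat_lit 156) (.e (nat_lit 163905) (nat_lit 12) (.e (nat_lit 426568) (nat_lit 34) .nil))))) (.g (nat_lit 0) (.e (nat_lit 328005) (nat_lit 0) .nil) .nil)))) (.nd (nat_lit 9) 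
(.lf (nat_lit 564646) (.g (nat_lit 2941) (.e (nat_lit 434231) (nat_lit 23) (.e (nat_lit 532550) (nat_lit 12) (.e (nat_lit 360475) (nat_lit 8) (.e (nat_lit 557091) (nat_lit 12) (.e (nat_lit 163840) (nat_lit 0) (.e (nat_lit 6421) (nat_lit 341) (.e (nat_lit 163916) (nat_lit 13) .nil))))))) (.g (nat_lit 1) (.e (nat_lit 327475) (nat_lit 0) .nil) .nil))) 
(.lf (nat_lit 565158) (.g (nat_lit 5110) (.e (nat_lit 434242) (nat_lit 28) (.e (nat_lit 573471) (nat_lit 11) (.e (nat_lit 16470) (nat_lit 14) (.e (nat_lit 491537) (nat_lit 2) (.e (nat_lit 90170) (nat_lit 13) (.e (nat_lit 172113) (nat_lit 10) .nil)))))) (.g (nat_lit 1) (.e (nat_lit 328877) (nat_lit 0) .nil) .nil)))))) (.nd (nat_lit 7) (.nd (nat_lit 8) (.nd (nat_lit 9) 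
(.lf (nat_lit 564326) (.g (nat_lit 4078) (.e (nat_lit 434231) (nat_lit 23) (.e (nat_lit 532500) (nat_lit 1) (.e (nat_lit 57691) (nat_lit 156) (.e (nat_lit 163875) (nat_lit 3) (.e (nat_lit 204836) (nat_lit 20) (.e (nat_lit 114719) (nat_lit 23) (.e (nat_lit 98367) (nat_lit 27) .nil))))))) (.g (nat_lit 1) (.e (nat_lit 325881) (nat_lit 0) .nil) .nil))) 
(.lf (nat_lit 564838) (.g (nat_lit 1368) (.e (nat_lit 434232) (nat_lit 23) (.e (nat_lit 532513) (nat_lit 3) (.e (nat_lit 114714) (nat_lit 22) (.e (nat_lit 90162) (nat_lit 12) .nil)))) (.g (nat_lit 0) (.e (nat_lit 327884) (nat_lit 0) .nil) .nil)))) (.nd (nat_lit 9) 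
(.lf (nat_lit 564582) (.g (nat_lit 2603) (.e (nat_lit 434231) (nat_lit 23) (.e (nat_lit 532550) (nat_lit 12) (.e (nat_lit 360474) (nat_lit 8) (.e (nat_lit 557093) (nat_lit 12) (.e (nat_lit 164023) (nat_lit 46) (.e (nat_lit 704627) (nat_lit 9) (.e (nat_lit 452) (nat_lit 33) .nil))))))) (.g (nat_lit 1) (.e (nat_lit 327343) (nat_lit 0) .nil) .nil))) 
(.lf (nat_lit 565094) (.g (nat_lit 396) (.e (nat_lit 434238) (nat_lit 25) (.e (nat_lit 548913) (nat_lit 18) (.e (nat_lit 172097) (nat_lit 9) .nil))) (.g (nat_lit 0) (.e (nat_lit 328708) (nat_lit 0) .nil) .nil))))) (.nd (nat_lit 8) (.nd (nat_lit 9) 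
(.lf (nat_lit 564454) (.g (nat_lit 4618) (.e (nat_lit 434231) (nat_lit 23) (.e (nat_lit 532549) (nat_lit 12) (.e (nat_lit 360472) (nat_lit 8) (.e (nat_lit 557090) (nat_lit 12) (.e (nat_lit 164020) (nat_lit 45) (.e (nat_lit 696328) (nat_lit 5) (.e (nat_lit 2980) (nat_lit 185) .nil))))))) (.g (nat_lit 1) (.e (nat_lit 326881) (nat_lit 0) .nil) .nil))) 
(.lf (nat_lit 564966) (.g (nat_lit 5219) (.e (nat_lit 434233) (nat_lit 23) (.e (nat_lit 532549) (nat_lit 12) (.e (nat_lit 360473) (nat_lit 8) (.e (nat_lit 557094) (nat_lit 12) (.e (nat_lit 164022) (nat_lit 46) (.e (nat_lit 704629) (nat_lit 9) (.e (nat_lit 442) (nat_lit 33) .nil))))))) (.g (nat_lit 1) (.e (nat_lit 328187) (nat_lit 0) .nil) .nil)))) (.nd (nat_lit 9) 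
(.lf (nat_lit 564710) (.g (nat_lit 1476) (.e (nat_lit 434231) (nat_lit 23) (.e (nat_lit 532567) (nat_lit 16) (.e (nat_lit 401437) (nat_lit 9) (.e (nat_lit 426361) (nat_lit 15) .nil)))) (.g (nat_lit 0) (.e (nat_lit 327620) (nat_lit 0) .nil) .nil))) 
(.lf (nat_lit 565222) (.g (nat_lit 2250) (.e (nat_lit 434244) (nat_lit 28) (.e (nat_lit 573450) (nat_lit 9) (.e (nat_lit 375) (nat_lit 32) (.e (nat_lit 426317) (nat_lit 12) (.e (nat_lit 475184) (nat_lit 29) (.e (nat_lit 557101) (nat_lit 13) (.e (nat_lit 172115) (nat_lit 10) .nil))))))) (.g (nat_lit 1) (.e (nat_lit 328973) (nat_lit 0) .nil) .nil)))))))) 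
(.nd (nat_lit 5) (.nd (nat_lit 6) (.nd (nat_lit 7) (.nd (nat_lit 8) (.nd (nat_lit 9) 
(.lf (nat_lit 564246) (.g (nat_lit 2932) (.e (nat_lit 434227) (nat_lit 20) (.e (nat_lit 507946) (nat_lit 18) (.e (nat_lit 303143) (nat_lit 12) (.e (nat_lit 475185) (nat_lit 29) (.e (nat_lit 557098) (nat_lit 13) .nil))))) (.g (nat_lit 0) (.e (nat_lit 325739) (nat_lit 0) .nil) .nil))) 
(.lf (nat_lit 564758) (.g (nat_lit 3972) (.e (nat_lit 434231) (nat_lit 23) (.e (nat_lit 532569) (nat_lit 16) (.e (nat_lit 401453) (nat_lit 12) (.e (nat_lit 475185) (nat_lit 29) (.e (nat_lit 557100) (nat_lit 13) (.e (nat_lit 172106) (nat_lit 10) .nil)))))) (.g (nat_lit 1) (.e (nat_lit 327743) (nat_lit 0) .nil) .nil)))) (.nd (nat_lit 9) 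
(.lf (nat_lit 564502) (.g (nat_lit 4006) (.e (nat_lit 434231) (nat_lit 23) (.e (nat_lit 532549) (nat_lit 12) (.e (nat_lit 360475) (nat_lit 8) (.e (nat_lit 557089) (nat_lit 12) (.e (nat_lit 164020) (nat_lit 45) (.e (nat_lit 696329) (nat_lit 5) (.e (nat_lit 2980) (nat_lit 185) .nil))))))) (.g (nat_lit 1) (.e (nat_lit 327168) (nat_lit 0) .nil) .nil))) 
(.lf (nat_lit 565014) (.g (nat_lit 2989) (.e (nat_lit 434234) (nat_lit 23) (.e (nat_lit 532503) (nat_lit 1) (.e (nat_lit 57688) (nat_lit 156) (.e (nat_lit 163874) (nat_lit 3) (.e (nat_lit 204836) (nat_lit 20) .nil))))) (.g (nat_lit 0) (.e (nat_lit 328314) (nat_lit 0) .nil) .nil))))) (.nd (nat_lit 8) (.nd (nat_lit 9) 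
(.lf (nat_lit 564374) (.g (nat_lit 4096) (.e (nat_lit 434231) (nat_lit 23) (.e (nat_lit 532522) (nat_lit 7) (.e (nat_lit 319536) (nat_lit 17) (.e (nat_lit 294928) (nat_lit 2) (.e (nat_lit 90170) (nat_lit 13) (.e (nat_lit 172106) (nat_lit 10) .nil)))))) (.g (nat_lit 1) (.e (nat_lit 325968) (nat_lit 0) .nil) .nil))) 
(.lf (nat_lit 564886) (.g (nat_lit 1985) (.e (nat_lit 434232) (nat_lit 23) (.e (nat_lit 532569) (nat_lit 16) (.e (nat_lit 401448) (nat_lit 10) (.e (nat_lit 434230) (nat_lit 23) .nil)))) (.g (nat_lit 0) (.e (nat_lit 327972) (nat_lit 0) .nil) .nil)))) (.nd (nat_lit 9) 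
(.lf (nat_lit 564630) (.g (nat_lit 2754) (.e (nat_lit 434231) (nat_lit 23) (.e (nat_lit 532550) (nat_lit 12) (.e (nat_lit 360475) (nat_lit 8) (.e (nat_lit 557089) (nat_lit 12) (.e (nat_lit 164020) (nat_lit 45) (.e (nat_lit 696328) (nat_lit 5) (.e (nat_lit 2978) (nat_lit 185) .nil))))))) (.g (nat_lit 1) (.e (nat_lit 327454) (nat_lit 0) .nil) .nil))) 
(.lf (nat_lit 565142) (.g (nat_lit 2354) (.e (nat_lit 434242) (nat_lit 28) (.e (nat_lit 573471) (nat_lit 11) (.e (nat_lit 16425) (nat_lit 7) (.e (nat_lit 409616) (nat_lit 10) .nil)))) (.g (nat_lit 0) (.e (nat_lit 328858) (nat_lit 0) .nil) .nil)))))) (.nd (nat_lit 7) (.nd (nat_lit 8) (.nd (nat_lit 9) 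
(.lf (nat_lit 564310) (.g (nat_lit 2815) (.e (nat_lit 434231) (nat_lit 23) (.e (nat_lit 532499) (nat_lit 1) (.e (nat_lit 57688) (nat_lit 156) (.e (nat_lit 163903) (nat_lit 12) (.e (nat_lit 426479) (nat_lit 27) (.e (nat_lit 336395) (nat_lit 27) (.e (nat_lit 426289) (nat_lit 10) .nil))))))) (.g (nat_lit 1) (.e (nat_lit 325852) (nat_lit 0) .nil) .nil))) 
(.lf (nat_lit 564822) (.g (nat_lit 2265) (.e (nat_lit 434232) (nat_lit 23) (.e (nat_lit 532504) (nat_lit 1) (.e (nat_lit 57685) (nat_lit 156) (.e (nat_lit 163867) (nat_lit 2) (.e (nat_lit 196624) (nat_lit 9) .nil))))) (.g (nat_lit 0) (.e (nat_lit 327866) (nat_lit 0) .nil) .nil)))) (.nd (nat_lit 9) 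
(.lf (nat_lit 564566) (.g (nat_lit 3705) (.e (nat_lit 434231) (nat_lit 23) (.e (nat_lit 532550) (nat_lit 12) (.e (nat_lit 360474) (nat_lit 8) (.e (nat_lit 557091) (nat_lit 12) (.e (nat_lit 164020) (nat_lit 45) (.e (nat_lit 696327) (nat_lit 5) (.e (nat_lit 2980) (nat_lit 185) .nil))))))) (.g (nat_lit 1) (.e (nat_lit 327315) (nat_lit 0) .nil) .nil))) 
(.lf (nat_lit 565078) (.g (nat_lit 2761) (.e (nat_lit 434229) (nat_lit 22) (.e (nat_lit 524340) (nat_lit 28) (.e (nat_lit 352322) (nat_lit 26) (.e (nat_lit 147512) (nat_lit 14) (.e (nat_lit 2807) (nat_lit 180) (.e (nat_lit 303137) (nat_lit 10) .nil)))))) (.g (nat_lit 1) (.e (nat_lit 328473) (nat_lit 0) .nil) .nil))))) (.nd (nat_lit 8) (.nd (nat_lit 9) 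
(.lf (nat_lit 564438) (.g (nat_lit 582) (.e (nat_lit 434231) (nat_lit 23) (.e (nat_lit 532529) (nat_lit 9) (.e (nat_lit 336328) (nat_lit 19) .nil))) (.g (nat_lit 0) (.e (nat_lit 326052) (nat_lit 0) .nil) .nil))) 
(.lf (nat_lit 564950) (.g (nat_lit 1408) (.e (nat_lit 434233) (nat_lit 23) (.e (nat_lit 532523) (nat_lit 7) (.e (nat_lit 319534) (nat_lit 16) (.e (nat_lit 286734) (nat_lit 3) .nil)))) (.g (nat_lit 0) (.e (nat_lit 328145) (nat_lit 0) .nil) .nil)))) (.nd (nat_lit 9) 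
(.lf (nat_lit 564694) (.g (nat_lit 4296) (.e (nat_lit 434231) (nat_lit 23) (.e (nat_lit 532550) (nat_lit 12) (.e (nat_lit 360475) (nat_lit 8) (.e (nat_lit 557091) (nat_lit 12) (.e (nat_lit 164020) (nat_lit 45) (.e (nat_lit 696327) (nat_lit 5) (.e (nat_lit 2980) (nat_lit 185) .nil))))))) (.g (nat_lit 1) (.e (nat_lit 327570) (nat_lit 0) .nil) .nil))) 
(.lf (nat_lit 565206) (.g (nat_lit 2230) (.e (nat_lit 434243) (nat_lit 28) (.e (nat_lit 573471) (nat_lit 11) (.e (nat_lit 16446) (nat_lit 9) (.e (nat_lit 426133) (nat_lit 3) (.e (nat_lit 204885) (nat_lit 33) .nil))))) (.g (nat_lit 0) (.e (nat_lit 328950) (nat_lit 0) .nil) .nil))))))) (.nd (nat_lit 6) (.nd (nat_lit 7) (.nd (nat_lit 8) (.nd (nat_lit 9) 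
(.lf (nat_lit 564278) (.g (nat_lit 2433) (.e (nat_lit 434230) (nat_lit 23) (.e (nat_lit 532550) (nat_lit 12) (.e (nat_lit 360474) (nat_lit 8) (.e (nat_lit 557094) (nat_lit 12) .nil)))) (.g (nat_lit 0) (.e (nat_lit 325785) (nat_lit 0) .nil) .nil))) 
(.lf (nat_lit 564790) (.g (nat_lit 2235) (.e (nat_lit 434232) (nat_lit 23) (.e (nat_lit 532499) (nat_lit 1) (.e (nat_lit 57691) (nat_lit 156) (.e (nat_lit 163875) (nat_lit 3) (.e (nat_lit 204838) (nat_lit 20) .nil))))) (.g (nat_lit 0) (.e (nat_lit 327833) (nat_lit 0) .nil) .nil)))) (.nd (nat_lit 9) 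
(.lf (nat_lit 564534) (.g (nat_lit 4343) (.e (nat_lit 434231) (nat_lit 23) (.e (nat_lit 532549) (nat_lit 12) (.e (nat_lit 360475) (nat_lit 8) (.e (nat_lit 557091) (nat_lit 12) (.e (nat_lit 164020) (nat_lit 45) (.e (nat_lit 696330) (nat_lit 5) (.e (nat_lit 2980) (nat_lit 185) .nil))))))) (.g (nat_lit 1) (.e (nat_lit 327261) (nat_lit 0) .nil) .nil))) 
(.lf (nat_lit 565046) (.g (nat_lit 2509) (.e (nat_lit 434234) (nat_lit 23) (.e (nat_lit 532563) (nat_lit 15) (.e (nat_lit 385093) (nat_lit 49) (.e (nat_lit 778318) (nat_lit 3) (.e (nat_lit 57476) (nat_lit 28) .nil))))) (.g (nat_lit 0) (.e (nat_lit 328379) (nat_lit 0) .nil) .nil))))) (.nd (nat_lit 8) (.nd (nat_lit 9) 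
(.lf (nat_lit 564406) (.g (nat_lit 3629) (.e (nat_lit 434231) (nat_lit 23) (.e (nat_lit 532523) (nat_lit 7) (.e (nat_lit 319531) (nat_lit 16) (.e (nat_lit 286733) (nat_lit 2) (.e (nat_lit 90134) (nat_lit 9) (.e (nat_lit 2872) (nat_lit 184) (.e (nat_lit 426289) (nat_lit 10) .nil))))))) (.g (nat_lit 1) (.e (nat_lit 326006) (nat_lit 0) .nil) .nil))) 
(.lf (nat_lit 564918) (.g (nat_lit 2414) (.e (nat_lit 434233) (nat_lit 23) (.e (nat_lit 532504) (nat_lit 1) (.e (nat_lit 57691) (nat_lit 156) (.e (nat_lit 163905) (nat_lit 12) (.e (nat_lit 426568) (nat_lit 34) (.e (nat_lit 393282) (nat_lit 24) .nil)))))) (.g (nat_lit 1) (.e (nat_lit 328021) (nat_lit 0) .nil) .nil)))) (.nd (nat_lit 9) 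
(.lf (nat_lit 564662) (.g (nat_lit 3774) (.e (nat_lit 434231) (nat_lit 23) (.e (nat_lit 532550) (nat_lit 12) (.e (nat_lit 360475) (nat_lit 8) (.e (nat_lit 557091) (nat_lit 12) (.e (nat_lit 163847) (nat_lit 0) (.e (nat_lit 6416) (nat_lit 341) (.e (nat_lit 163916) (nat_lit 13) .nil))))))) (.g (nat_lit 1) (.e (nat_lit 327511) (nat_lit 0) .nil) .nil))) 
(.lf (nat_lit 565174) (.g (nat_lit 2142) (.e (nat_lit 434242) (nat_lit 28) (.e (nat_lit 573477) (nat_lit 12) (.e (nat_lit 57575) (nat_lit 55) (.e (nat_lit 778465) (nat_lit 11) (.e (nat_lit 24601) (nat_lit 2) .nil))))) (.g (nat_lit 0) (.e (nat_lit 328894) (nat_lit 0) .nil) .nil)))))) (.nd (nat_lit 7) (.nd (nat_lit 8) (.nd (nat_lit 9) 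
(.lf (nat_lit 564342) (.g (nat_lit 2206) (.e (nat_lit 434231) (nat_lit 23) (.e (nat_lit 532513) (nat_lit 3) (.e (nat_lit 114719) (nat_lit 23) (.e (nat_lit 98333) (nat_lit 18) (.e (nat_lit 164396) (nat_lit 256) .nil))))) (.g (nat_lit 0) (.e (nat_lit 325910) (nat_lit 0) .nil) .nil))) 
(.lf (nat_lit 564854) (.g (nat_lit 3171) (.e (nat_lit 434232) (nat_lit 23) (.e (nat_lit 532530) (nat_lit 9) (.e (nat_lit 336336) (nat_lit 20) (.e (nat_lit 221186) (nat_lit 0) .nil)))) (.g (nat_lit 0) (.e (nat_lit 327908) (nat_lit 0) .nil) .nil)))) (.nd (nat_lit 9) 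
(.lf (nat_lit 564598) (.g (nat_lit 3871) (.e (nat_lit 434231) (nat_lit 23) (.e (nat_lit 532550) (nat_lit 12) (.e (nat_lit 360474) (nat_lit 8) (.e (nat_lit 557094) (nat_lit 12) (.e (nat_lit 164022) (nat_lit 46) (.e (nat_lit 704629) (nat_lit 9) (.e (nat_lit 449) (nat_lit 33) .nil))))))) (.g (nat_lit 1) (.e (nat_lit 327373) (nat_lit 0) .nil) .nil))) 
(.lf (nat_lit 565110) (.g (nat_lit 2759) (.e (nat_lit 434238) (nat_lit 25) (.e (nat_lit 548913) (nat_lit 18) (.e (nat_lit 172126) (nat_lit 14) (.e (nat_lit 491537) (nat_lit 2) (.e (nat_lit 90170) (nat_lit 13) .nil))))) (.g (nat_lit 0) (.e (nat_lit 328798) (nat_lit 0) .nil) .nil))))) (.nd (nat_lit 8) (.nd (nat_lit 9) 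
(.lf (nat_lit 564470) (.g (nat_lit 3473) (.e (nat_lit 434231) (nat_lit 23) (.e (nat_lit 532549) (nat_lit 12) (.e (nat_lit 360473) (nat_lit 8) (.e (nat_lit 557091) (nat_lit 12) (.e (nat_lit 164018) (nat_lit 45) (.e (nat_lit 696329) (nat_lit 5) (.e (nat_lit 2964) (nat_lit 185) .nil))))))) (.g (nat_lit 1) (.e (nat_lit 327027) (nat_lit 0) .nil) .nil))) 
(.lf (nat_lit 564982) (.g (nat_lit 1491) (.e (nat_lit 434233) (nat_lit 23) (.e (nat_lit 532568) (nat_lit 16) (.e (nat_lit 401454) (nat_lit 12) (.e (nat_lit 475185) (nat_lit 29) .nil)))) (.g (nat_lit 0) (.e (nat_lit 328231) (nat_lit 0) .nil) .nil)))) (.nd (nat_lit 9) 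
(.lf (nat_lit 564726) (.g (nat_lit 1882) (.e (nat_lit 434231) (nat_lit 23) (.e (nat_lit 532569) (nat_lit 16) (.e (nat_lit 401437) (nat_lit 9) (.e (nat_lit 426361) (nat_lit 15) .nil)))) (.g (nat_lit 0) (.e (nat_lit 327670) (nat_lit 0) .nil) .nil))) 
(.lf (nat_lit 565238) (.g (nat_lit 4378) (.e (nat_lit 434244) (nat_lit 28) (.e (nat_lit 573451) (nat_lit 9) (.e (nat_lit 498) (nat_lit 40) (.e (nat_lit 491549) (nat_lit 9) (.e (nat_lit 336324) (nat_lit 18) (.e (nat_lit 204837) (nat_lit 20) (.e (nat_lit 122624) (nat_lit 12) .nil))))))) (.g (nat_lit 1) (.e (nat_lit 329000) (nat_lit 0) .nil) .nil))))))))) 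
(.nd (nat_lit 4) (.nd (nat_lit 5) (.nd (nat_lit 6) (.nd (nat_lit 7) (.nd (nat_lit 8) 
(.nd (nat_lit 9) 
(.lf (nat_lit 564238) (.g (nat_lit 3538) (.e (nat_lit 434227) (nat_lit 20) (.e (nat_lit 507930) (nat_lit 10) (.e (nat_lit 5612) (nat_lit 312) (.e (nat_lit 3062) (nat_lit 190) (.e (nat_lit 475185) (nat_lit 29) (.e (nat_lit 557101) (nat_lit 13) (.e (nat_lit 172115) (nat_lit 10) .nil))))))) (.g (nat_lit 1) (.e (nat_lit 325662) (nat_lit 0) .nil) .nil))) 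
(.lf (nat_lit 564750) (.g (nat_lit 3239) (.e (nat_lit 434231) (nat_lit 23) (.e (nat_lit 532569) (nat_lit 16) (.e (nat_lit 401450) (nat_lit 12) (.e (nat_lit 475185) (nat_lit 29) (.e (nat_lit 557098) (nat_lit 13) (.e (nat_lit 172115) (nat_lit 10) .nil)))))) (.g (nat_lit 1) (.e (nat_lit 327720) (nat_lit 0) .nil) .nil)))) (.nd (nat_lit 9) 
(.lf (nat_lit 564494) (.g (nat_lit 4785) (.e (nat_lit 434231) (nat_lit 23) (.e (nat_lit 532549) (nat_lit 12) (.e (nat_lit 360475) (nat_lit 8) (.e (nat_lit 557089) (nat_lit 12) (.e (nat_lit 163850) (nat_lit 0) (.e (nat_lit 6428) (nat_lit 342) (.e (nat_lit 229409) (nat_lit 13) .nil))))))) (.g (nat_lit 1) (.e (nat_lit 327145) (nat_lit 0) .nil) .nil))) 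
(.lf (nat_lit 565006) (.g (nat_lit 2279) (.e (nat_lit 434234) (nat_lit 23) (.e (nat_lit 532502) (nat_lit 1) (.e (nat_lit 57688) (nat_lit 156) (.e (nat_lit 163907) (nat_lit 12) (.e (nat_lit 426568) (nat_lit 34) .nil))))) (.g (nat_lit 0) (.e (nat_lit 328306) (nat_lit 0) .nil) .nil))))) (.nd (nat_lit 8) (.nd (nat_lit 9) 
(.lf (nat_lit 564366) (.g (nat_lit 3014) (.e (nat_lit 434231) (nat_lit 23) (.e (nat_lit 532522) (nat_lit 7) (.e (nat_lit 319531) (nat_lit 16) (.e (nat_lit 286733) (nat_lit 2) (.e (nat_lit 90134) (nat_lit 9) (.e (nat_lit 2872) (nat_lit 184) (.e (nat_lit 426289) (nat_lit 10) .nil))))))) (.g (nat_lit 1) (.e (nat_lit 325959) (nat_lit 0) .nil) .nil))) 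
(.lf (nat_lit 564878) (.g (nat_lit 2230) (.e (nat_lit 434232) (nat_lit 23) (.e (nat_lit 532563) (nat_lit 15) (.e (nat_lit 385094) (nat_lit 49) (.e (nat_lit 778317) (nat_lit 3) (.e (nat_lit 57480) (nat_lit 28) .nil))))) (.g (nat_lit 0) (.e (nat_lit 327964) (nat_lit 0) .nil) .nil)))) (.nd (nat_lit 9) 
(.lf (nat_lit 564622) (.g (nat_lit 2450) (.e (nat_lit 434231) (nat_lit 23) (.e (nat_lit 532550) (nat_lit 12) (.e (nat_lit 360475) (nat_lit 8) (.e (nat_lit 557089) (nat_lit 12) (.e (nat_lit 163853) (nat_lit 0) (.e (nat_lit 6425) (nat_lit 342) (.e (nat_lit 229408) (nat_lit 13) .nil))))))) (.g (nat_lit 1) (.e (nat_lit 327438) (nat_lit 0) .nil) .nil))) 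
(.lf (nat_lit 565134) (.g (nat_lit 2036) (.e (nat_lit 434242) (nat_lit 28) (.e (nat_lit 573469) (nat_lit 11) (.e (nat_lit 16472) (nat_lit 14) (.e (nat_lit 491535) (nat_lit 2) (.e (nat_lit 90170) (nat_lit 13) .nil))))) (.g (nat_lit 0) (.e (nat_lit 328850) (nat_lit 0) .nil) .nil)))))) (.nd (nat_lit 7) (.nd (nat_lit 8) (.nd (nat_lit 9) 
(.lf (nat_lit 564302) (.g (nat_lit 3632) (.e (nat_lit 434231) (nat_lit 23) (.e (nat_lit 532499) (nat_lit 1) (.e (nat_lit 57686) (nat_lit 156) (.e (nat_lit 163903) (nat_lit 12) (.e (nat_lit 426568) (nat_lit 34) (.e (nat_lit 393283) (nat_lit 24) .nil)))))) (.g (nat_lit 1) (.e (nat_lit 325838) (nat_lit 0) .nil) .nil))) 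
(.lf (nat_lit 564814) (.g (nat_lit 3720) (.e (nat_lit 434232) (nat_lit 23) (.e (nat_lit 532503) (nat_lit 1) (.e (nat_lit 57688) (nat_lit 156) (.e (nat_lit 163902) (nat_lit 12) (.e (nat_lit 426568) (nat_lit 34) (.e (nat_lit 393283) (nat_lit 24) .nil)))))) (.g (nat_lit 1) (.e (nat_lit 327858) (nat_lit 0) .nil) .nil)))) (.nd (nat_lit 9) 
(.lf (nat_lit 564558) (.g (nat_lit 3020) (.e (nat_lit 434231) (nat_lit 23) (.e (nat_lit 532550) (nat_lit 12) (.e (nat_lit 360474) (nat_lit 8) (.e (nat_lit 557089) (nat_lit 12) .nil)))) (.g (nat_lit 0) (.e (nat_lit 327306) (nat_lit 0) .nil) .nil))) 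
(.lf (nat_lit 565070) (.g (nat_lit 4472) (.e (nat_lit 434235) (nat_lit 24) (.e (nat_lit 540706) (nat_lit 12) (.e (nat_lit 360475) (nat_lit 8) (.e (nat_lit 557091) (nat_lit 12) (.e (nat_lit 164022) (nat_lit 46) (.e (nat_lit 704629) (nat_lit 9) (.e (nat_lit 452) (nat_lit 33) .nil))))))) (.g (nat_lit 1) (.e (nat_lit 328427) (nat_lit 0) .nil) .nil))))) (.nd (nat_lit 8) (.nd (nat_lit 9) 
(.lf (nat_lit 564430) (.g (nat_lit 4504) (.e (nat_lit 434231) (nat_lit 23) (.e (nat_lit 532523) (nat_lit 7) (.e (nat_lit 319536) (nat_lit 17) (.e (nat_lit 294928) (nat_lit 2) (.e (nat_lit 90170) (nat_lit 13) (.e (nat_lit 172106) (nat_lit 10) .nil)))))) (.g (nat_lit 1) (.e (nat_lit 326032) (nat_lit 0) .nil) .nil))) 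
(.lf (nat_lit 564942) (.g (nat_lit 2641) (.e (nat_lit 434233) (nat_lit 23) (.e (nat_lit 532523) (nat_lit 7) (.e (nat_lit 319533) (nat_lit 16) (.e (nat_lit 286734) (nat_lit 3) (.e (nat_lit 98355) (nat_lit 26) .nil))))) (.g (nat_lit 0) (.e (nat_lit 328119) (nat_lit 0) .nil) .nil)))) (.nd (nat_lit 9) 
(.lf (nat_lit 564686) (.g (nat_lit 3861) (.e (nat_lit 434231) (nat_lit 23) (.e (nat_lit 532550) (nat_lit 12) (.e (nat_lit 360475) (nat_lit 8) (.e (nat_lit 557091) (nat_lit 12) (.e (nat_lit 164018) (nat_lit 45) (.e (nat_lit 696327) (nat_lit 5) (.e (nat_lit 2980) (nat_lit 185) .nil))))))) (.g (nat_lit 1) (.e (nat_lit 327562) (nat_lit 0) .nil) .nil))) 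
(.lf (nat_lit 565198) (.g (nat_lit 1760) (.e (nat_lit 434243) (nat_lit 28) (.e (nat_lit 573458) (nat_lit 9) (.e (nat_lit 426) (nat_lit 32) (.e (nat_lit 426298) (nat_lit 11) (.e (nat_lit 458789) (nat_lit 23) .nil))))) (.g (nat_lit 0) (.e (nat_lit 328941) (nat_lit 0) .nil) .nil))))))) (.nd (nat_lit 6) (.nd (nat_lit 7) (.nd (nat_lit 8) (.nd (nat_lit 9) 
(.lf (nat_lit 564270) (.g (nat_lit 5329) (.e (nat_lit 434230) (nat_lit 23) (.e (nat_lit 532550) (nat_lit 12) (.e (nat_lit 360474) (nat_lit 8) (.e (nat_lit 557091) (nat_lit 12) .nil)))) (.g (nat_lit 0) (.e (nat_lit 325777) (nat_lit 0) .nil) .nil))) 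
(.lf (nat_lit 564782) (.g (nat_lit 2841) (.e (nat_lit 434232) (nat_lit 23) (.e (nat_lit 532499) (nat_lit 1) (.e (nat_lit 57688) (nat_lit 156) (.e (nat_lit 163874) (nat_lit 3) (.e (nat_lit 204838) (nat_lit 20) .nil))))) (.g (nat_lit 0) (.e (nat_lit 327823) (nat_lit 0) .nil) .nil)))) (.nd (nat_lit 9) 
(.lf (nat_lit 564526) (.g (nat_lit 3499) (.e (nat_lit 434231) (nat_lit 23) (.e (nat_lit 532549) (nat_lit 12) (.e (nat_lit 360475) (nat_lit 8) (.e (nat_lit 557091) (nat_lit 12) (.e (nat_lit 164018) (nat_lit 45) (.e (nat_lit 696330) (nat_lit 5) (.e (nat_lit 2980) (nat_lit 185) .nil))))))) (.g (nat_lit 1) (.e (nat_lit 327252) (nat_lit 0) .nil) .nil))) 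
(.lf (nat_lit 565038) (.g (nat_lit 5716) (.e (nat_lit 434234) (nat_lit 23) (.e (nat_lit 532550) (nat_lit 12) (.e (nat_lit 360474) (nat_lit 8) (.e (nat_lit 557089) (nat_lit 12) .nil)))) (.g (nat_lit 0) (.e (nat_lit 328351) (nat_lit 0) .nil) .nil))))) (.nd (nat_lit 8) (.nd (nat_lit 9) 
(.lf (nat_lit 564398) (.g (nat_lit 4946) (.e (nat_lit 434231) (nat_lit 23) (.e (nat_lit 532523) (nat_lit 7) (.e (nat_lit 319530) (nat_lit 16) (.e (nat_lit 286733) (nat_lit 2) (.e (nat_lit 90170) (nat_lit 13) (.e (nat_lit 172115) (nat_lit 10) .nil)))))) (.g (nat_lit 1) (.e (nat_lit 325998) (nat_lit 0) .nil) .nil))) 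
(.lf (nat_lit 564910) (.g (nat_lit 2707) (.e (nat_lit 434233) (nat_lit 23) (.e (nat_lit 532502) (nat_lit 1) (.e (nat_lit 57688) (nat_lit 156) (.e (nat_lit 163903) (nat_lit 12) (.e (nat_lit 426568) (nat_lit 34) (.e (nat_lit 393284) (nat_lit 24) .nil)))))) (.g (nat_lit 1) (.e (nat_lit 328013) (nat_lit 0) .nil) .nil)))) (.nd (nat_lit 9) 
(.lf (nat_lit 564654) (.g (nat_lit 2665) (.e (nat_lit 434231) (nat_lit 23) (.e (nat_lit 532550) (nat_lit 12) (.e (nat_lit 360475) (nat_lit 8) (.e (nat_lit 557091) (nat_lit 12) (.e (nat_lit 163840) (nat_lit 0) (.e (nat_lit 6428) (nat_lit 342) (.e (nat_lit 229409) (nat_lit 13) .nil))))))) (.g (nat_lit 1) (.e (nat_lit 327483) (nat_lit 0) .nil) .nil))) 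
(.lf (nat_lit 565166) (.g (nat_lit 1410) (.e (nat_lit 434242) (nat_lit 28) (.e (nat_lit 573473) (nat_lit 12) (.e (nat_lit 57569) (nat_lit 53) (.e (nat_lit 761866) (nat_lit 5) .nil)))) (.g (nat_lit 0) (.e (nat_lit 328885) (nat_lit 0) .nil) .nil)))))) (.nd (nat_lit 7) (.nd (nat_lit 8) (.nd (nat_lit 9) 
(.lf (nat_lit 564334) (.g (nat_lit 683) (.e (nat_lit 434231) (nat_lit 23) (.e (nat_lit 532501) (nat_lit 1) (.e (nat_lit 57691) (nat_lit 156) .nil))) (.g (nat_lit 0) (.e (nat_lit 325891) (nat_lit 0) .nil) .nil))) 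
(.lf (nat_lit 564846) (.g (nat_lit 1424) (.e (nat_lit 434232) (nat_lit 23) (.e (nat_lit 532515) (nat_lit 3) (.e (nat_lit 114719) (nat_lit 23) (.e (nat_lit 98333) (nat_lit 18) .nil)))) (.g (nat_lit 0) (.e (nat_lit 327893) (nat_lit 0) .nil) .nil)))) (.nd (nat_lit 9) 
(.lf (nat_lit 564590) (.g (nat_lit 2899) (.e (nat_lit 434231) (nat_lit 23) (.e (nat_lit 532550) (nat_lit 12) (.e (nat_lit 360474) (nat_lit 8) (.e (nat_lit 557094) (nat_lit 12) (.e (nat_lit 164018) (nat_lit 45) (.e (nat_lit 696327) (nat_lit 5) (.e (nat_lit 2978) (nat_lit 185) .nil))))))) (.g (nat_lit 1) (.e (nat_lit 327364) (nat_lit 0) .nil) .nil))) 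
(.lf (nat_lit 565102) (.g (nat_lit 2217) (.e (nat_lit 434238) (nat_lit 25) (.e (nat_lit 548913) (nat_lit 18) (.e (nat_lit 172124) (nat_lit 14) (.e (nat_lit 491537) (nat_lit 2) (.e (nat_lit 90170) (nat_lit 13) .nil))))) (.g (nat_lit 0) (.e (nat_lit 328790) (nat_lit 0) .nil) .nil))))) (.nd (nat_lit 8) (.nd (nat_lit 9) 
(.lf (nat_lit 564462) (.g (nat_lit 3236) (.e (nat_lit 434231) (nat_lit 23) (.e (nat_lit 532549) (nat_lit 12) (.e (nat_lit 360473) (nat_lit 8) (.e (nat_lit 557089) (nat_lit 12) (.e (nat_lit 164020) (nat_lit 45) (.e (nat_lit 696330) (nat_lit 5) (.e (nat_lit 2965) (nat_lit 185) .nil))))))) (.g (nat_lit 1) (.e (nat_lit 326934) (nat_lit 0) .nil) .nil))) 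
(.lf (nat_lit 564974) (.g (nat_lit 1930) (.e (nat_lit 434233) (nat_lit 23) (.e (nat_lit 532550) (nat_lit 12) (.e (nat_lit 360474) (nat_lit 8) (.e (nat_lit 557094) (nat_lit 12) .nil)))) (.g (nat_lit 0) (.e (nat_lit 328200) (nat_lit 0) .nil) .nil)))) (.nd (nat_lit 9) 
(.lf (nat_lit 564718) (.g (nat_lit 2809) (.e (nat_lit 434231) (nat_lit 23) (.e (nat_lit 532568) (nat_lit 16) (.e (nat_lit 401451) (nat_lit 12) (.e (nat_lit 475185) (nat_lit 29) (.e (nat_lit 557101) (nat_lit 13) (.e (nat_lit 172115) (nat_lit 10) .nil)))))) (.g (nat_lit 1) (.e (nat_lit 327649) (nat_lit 0) .nil) .nil))) 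
(.lf (nat_lit 565230) (.g (nat_lit 4947) (.e (nat_lit 434244) (nat_lit 28) (.e (nat_lit 573451) (nat_lit 9) (.e (nat_lit 396) (nat_lit 32) (.e (nat_lit 426316) (nat_lit 12) (.e (nat_lit 475185) (nat_lit 29) (.e (nat_lit 557101) (nat_lit 13) (.e (nat_lit 172115) (nat_lit 10) .nil))))))) (.g (nat_lit 1) (.e (nat_lit 328990) (nat_lit 0) .nil) .nil)))))))) 
(.nd (nat_lit 5) (.nd (nat_lit 6) (.nd (nat_lit 7) (.nd (nat_lit 8) (.nd (nat_lit 9) 
(.lf (nat_lit 564254) (.g (nat_lit 2384) (.e (nat_lit 434230) (nat_lit 23) (.e (nat_lit 532486) (nat_lit 0) (.e (nat_lit 6113) (nat_lit 332) (.e (nat_lit 1374) (nat_lit 104) (.e (nat_lit 303119) (nat_lit 3) .nil))))) (.g (nat_lit 0) (.e (nat_lit 325747) (nat_lit 0) .nil) .nil))) 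
(.lf (nat_lit 564766) (.g (nat_lit 2744) (.e (nat_lit 434231) (nat_lit 23) (.e (nat_lit 532579) (nat_lit 26) (.e (nat_lit 426100) (nat_lit 1) (.e (nat_lit 164403) (nat_lit 256) (.e (nat_lit 57405) (nat_lit 12) .nil))))) (.g (nat_lit 0) (.e (nat_lit 327751) (nat_lit 0) .nil) .nil)))) (.nd (nat_lit 9) 
(.lf (nat_lit 564510) (.g (nat_lit 1992) (.e (nat_lit 434231) (nat_lit 23) (.e (nat_lit 532549) (nat_lit 12) (.e (nat_lit 360475) (nat_lit 8) (.e (nat_lit 557091) (nat_lit 12) .nil)))) (.g (nat_lit 0) (.e (nat_lit 327179) (nat_lit 0) .nil) .nil))) 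
(.lf (nat_lit 565022) (.g (nat_lit 562) (.e (nat_lit 434234) (nat_lit 23) (.e (nat_lit 532513) (nat_lit 3) (.e (nat_lit 122624) (nat_lit 3) .nil))) (.g (nat_lit 0) (.e (nat_lit 328322) (nat_lit 0) .nil) .nil))))) (.nd (nat_lit 8) (.nd (nat_lit 9) 
(.lf (nat_lit 564382) (.g (nat_lit 1411) (.e (nat_lit 434231) (nat_lit 23) (.e (nat_lit 532523) (nat_lit 7) (.e (nat_lit 319530) (nat_lit 16) (.e (nat_lit 286727) (nat_lit 0) .nil)))) (.g (nat_lit 0) (.e (nat_lit 325977) (nat_lit 0) .nil) .nil))) 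
(.lf (nat_lit 564894) (.g (nat_lit 2235) (.e (nat_lit 434233) (nat_lit 23) (.e (nat_lit 532499) (nat_lit 1) (.e (nat_lit 57688) (nat_lit 156) (.e (nat_lit 163903) (nat_lit 12) (.e (nat_lit 426568) (nat_lit 34) .nil))))) (.g (nat_lit 0) (.e (nat_lit 327997) (nat_lit 0) .nil) .nil)))) (.nd (nat_lit 9) 
(.lf (nat_lit 564638) (.g (nat_lit 2427) (.e (nat_lit 434231) (nat_lit 23) (.e (nat_lit 532550) (nat_lit 12) (.e (nat_lit 360475) (nat_lit 8) (.e (nat_lit 557090) (nat_lit 12) (.e (nat_lit 164020) (nat_lit 45) (.e (nat_lit 696328) (nat_lit 5) (.e (nat_lit 2964) (nat_lit 185) .nil))))))) (.g (nat_lit 1) (.e (nat_lit 327465) (nat_lit 0) .nil) .nil))) 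
(.lf (nat_lit 565150) (.g (nat_lit 2199) (.e (nat_lit 434242) (nat_lit 28) (.e (nat_lit 573471) (nat_lit 11) (.e (nat_lit 16439) (nat_lit 9) (.e (nat_lit 426412) (nat_lit 15) .nil)))) (.g (nat_lit 0) (.e (nat_lit 328869) (nat_lit 0) .nil) .nil)))))) (.nd (nat_lit 7) (.nd (nat_lit 8) (.nd (nat_lit 9) 
(.lf (nat_lit 564318) (.g (nat_lit 2559) (.e (nat_lit 434231) (nat_lit 23) (.e (nat_lit 532499) (nat_lit 1) (.e (nat_lit 57692) (nat_lit 156) (.e (nat_lit 163905) (nat_lit 12) (.e (nat_lit 426479) (nat_lit 27) (.e (nat_lit 336395) (nat_lit 27) (.e (nat_lit 426289) (nat_lit 10) .nil))))))) (.g (nat_lit 1) (.e (nat_lit 325868) (nat_lit 0) .nil) .nil))) 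
(.lf (nat_lit 564830) (.g (nat_lit 2743) (.e (nat_lit 434232) (nat_lit 23) (.e (nat_lit 532504) (nat_lit 1) (.e (nat_lit 57691) (nat_lit 156) (.e (nat_lit 163875) (nat_lit 3) (.e (nat_lit 204836) (nat_lit 20) .nil))))) (.g (nat_lit 0) (.e (nat_lit 327874) (nat_lit 0) .nil) .nil)))) (.nd (nat_lit 9) 
(.lf (nat_lit 564574) (.g (nat_lit 1381) (.e (nat_lit 434231) (nat_lit 23) (.e (nat_lit 532550) (nat_lit 12) (.e (nat_lit 360474) (nat_lit 8) (.e (nat_lit 557093) (nat_lit 12) (.e (nat_lit 163848) (nat_lit 0) .nil))))) (.g (nat_lit 0) (.e (nat_lit 327326) (nat_lit 0) .nil) .nil))) 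
(.lf (nat_lit 565086) (.g (nat_lit 4276) (.e (nat_lit 434238) (nat_lit 25) (.e (nat_lit 548913) (nat_lit 18) (.e (nat_lit 172094) (nat_lit 9) (.e (nat_lit 426125) (nat_lit 2) (.e (nat_lit 196617) (nat_lit 9) (.e (nat_lit 1673) (nat_lit 116) (.e (nat_lit 401447) (nat_lit 10) .nil))))))) (.g (nat_lit 1) (.e (nat_lit 328696) (nat_lit 0) .nil) .nil))))) (.nd (nat_lit 8) (.nd (nat_lit 9) 
(.lf (nat_lit 564446) (.g (nat_lit 4908) (.e (nat_lit 434231) (nat_lit 23) (.e (nat_lit 532535) (nat_lit 9) (.e (nat_lit 336295) (nat_lit 15) (.e (nat_lit 3631) (nat_lit 227) (.e (nat_lit 778317) (nat_lit 3) (.e (nat_lit 57480) (nat_lit 28) (.e (nat_lit 557098) (nat_lit 13) (.e (nat_lit 172114) (nat_lit 10) .nil)))))))) (.g (nat_lit 1) (.e (nat_lit 326778) (nat_lit 0) .nil) .nil))) 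
(.lf (nat_lit 564958) (.g (nat_lit 5064) (.e (nat_lit 434233) (nat_lit 23) (.e (nat_lit 532535) (nat_lit 9) (.e (nat_lit 336173) (nat_lit 10) (.e (nat_lit 344133) (nat_lit 26) (.e (nat_lit 557091) (nat_lit 12) (.e (nat_lit 164022) (nat_lit 46) (.e (nat_lit 704629) (nat_lit 9) (.e (nat_lit 442) (nat_lit 33) .nil)))))))) (.g (nat_lit 1) (.e (nat_lit 328170) (nat_lit 0) .nil) .nil)))) 
(.nd (nat_lit 9) 
(.lf (nat_lit 564702) (.g (nat_lit 4919) (.e (nat_lit 434231) (nat_lit 23) (.e (nat_lit 532550) (nat_lit 12) (.e (nat_lit 360475) (nat_lit 8) (.e (nat_lit 557091) (nat_lit 12) (.e (nat_lit 164022) (nat_lit 46) (.e (nat_lit 704628) (nat_lit 9) (.e (nat_lit 450) (nat_lit 33) .nil))))))) (.g (nat_lit 1) (.e (nat_lit 327580) (nat_lit 0) .nil) .nil))) 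
(.lf (nat_lit 565214) (.g (nat_lit 3983) (.e (nat_lit 434244) (nat_lit 28) (.e (nat_lit 573449) (nat_lit 9) (.e (nat_lit 392) (nat_lit 32) (.e (nat_lit 426316) (nat_lit 12) (.e (nat_lit 475185) (nat_lit 29) (.e (nat_lit 557101) (nat_lit 13) (.e (nat_lit 172115) (nat_lit 10) .nil))))))) (.g (nat_lit 1) (.e (nat_lit 328960) (nat_lit 0) .nil) .nil))))))) 
(.nd (nat_lit 6) (.nd (nat_lit 7) (.nd (nat_lit 8) (.nd (nat_lit 9) 
(.lf (nat_lit 564286) (.g (nat_lit 3429) (.e (nat_lit 434230) (nat_lit 23) (.e (nat_lit 532550) (nat_lit 12) (.e (nat_lit 360475) (nat_lit 8) (.e (nat_lit 557091) (nat_lit 12) (.e (nat_lit 164022) (nat_lit 46) .nil))))) (.g (nat_lit 0) (.e (nat_lit 325796) (nat_lit 0) .nil) .nil))) 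
(.lf (nat_lit 564798) (.g (nat_lit 2485) (.e (nat_lit 434232) (nat_lit 23) (.e (nat_lit 532501) (nat_lit 1) (.e (nat_lit 57691) (nat_lit 156) (.e (nat_lit 163874) (nat_lit 3) (.e (nat_lit 204837) (nat_lit 20) .nil))))) (.g (nat_lit 0) (.e (nat_lit 327841) (nat_lit 0) .nil) .nil)))) (.nd (nat_lit 9) 
(.lf (nat_lit 564542) (.g (nat_lit 3658) (.e (nat_lit 434231) (nat_lit 23) (.e (nat_lit 532550) (nat_lit 12) (.e (nat_lit 360472) (nat_lit 8) (.e (nat_lit 557090) (nat_lit 12) (.e (nat_lit 164020) (nat_lit 45) (.e (nat_lit 696330) (nat_lit 5) (.e (nat_lit 2964) (nat_lit 185) .nil))))))) (.g (nat_lit 1) (.e (nat_lit 327289) (nat_lit 0) .nil) .nil))) 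
(.lf (nat_lit 565054) (.g (nat_lit 2302) (.e (nat_lit 434235) (nat_lit 24) (.e (nat_lit 540706) (nat_lit 12) (.e (nat_lit 360474) (nat_lit 8) (.e (nat_lit 557091) (nat_lit 12) .nil)))) (.g (nat_lit 0) (.e (nat_lit 328406) (nat_lit 0) .nil) .nil))))) (.nd (nat_lit 8) (.nd (nat_lit 9) 
(.lf (nat_lit 564414) (.g (nat_lit 1231) (.e (nat_lit 434231) (nat_lit 23) (.e (nat_lit 532523) (nat_lit 7) (.e (nat_lit 319531) (nat_lit 16) (.e (nat_lit 286735) (nat_lit 3) .nil)))) (.g (nat_lit 0) (.e (nat_lit 326016) (nat_lit 0) .nil) .nil))) 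
(.lf (nat_lit 564926) (.g (nat_lit 1571) (.e (nat_lit 434233) (nat_lit 23) (.e (nat_lit 532523) (nat_lit 7) (.e (nat_lit 319530) (nat_lit 16) (.e (nat_lit 286733) (nat_lit 2) .nil)))) (.g (nat_lit 0) (.e (nat_lit 328076) (nat_lit 0) .nil) .nil)))) (.nd (nat_lit 9) 
(.lf (nat_lit 564670) (.g (nat_lit 5401) (.e (nat_lit 434231) (nat_lit 23) (.e (nat_lit 532550) (nat_lit 12) (.e (nat_lit 360475) (nat_lit 8) (.e (nat_lit 557091) (nat_lit 12) (.e (nat_lit 163850) (nat_lit 0) (.e (nat_lit 6425) (nat_lit 342) (.e (nat_lit 229408) (nat_lit 13) .nil))))))) (.g (nat_lit 1) (.e (nat_lit 327526) (nat_lit 0) .nil) .nil))) 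
(.lf (nat_lit 565182) (.g (nat_lit 1177) (.e (nat_lit 434242) (nat_lit 28) (.e (nat_lit 573488) (nat_lit 14) (.e (nat_lit 73755) (nat_lit 8) (.e (nat_lit 557090) (nat_lit 12) .nil)))) (.g (nat_lit 0) (.e (nat_lit 328917) (nat_lit 0) .nil) .nil)))))) (.nd (nat_lit 7) (.nd (nat_lit 8) (.nd (nat_lit 9) 
(.lf (nat_lit 564350) (.g (nat_lit 4331) (.e (nat_lit 434231) (nat_lit 23) (.e (nat_lit 532514) (nat_lit 3) (.e (nat_lit 114719) (nat_lit 23) (.e (nat_lit 98334) (nat_lit 18) (.e (nat_lit 164403) (nat_lit 256) (.e (nat_lit 57378) (nat_lit 3) (.e (nat_lit 98366) (nat_lit 27) .nil))))))) (.g (nat_lit 1) (.e (nat_lit 325934) (nat_lit 0) .nil) .nil))) 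
(.lf (nat_lit 564862) (.g (nat_lit 3903) (.e (nat_lit 434232) (nat_lit 23) (.e (nat_lit 532549) (nat_lit 12) (.e (nat_lit 360475) (nat_lit 8) (.e (nat_lit 557089) (nat_lit 12) (.e (nat_lit 163850) (nat_lit 0) .nil))))) (.g (nat_lit 0) (.e (nat_lit 327926) (nat_lit 0) .nil) .nil)))) (.nd (nat_lit 9) 
(.lf (nat_lit 564606) (.g (nat_lit 2404) (.e (nat_lit 434231) (nat_lit 23) (.e (nat_lit 532550) (nat_lit 12) (.e (nat_lit 360475) (nat_lit 8) (.e (nat_lit 557089) (nat_lit 12) (.e (nat_lit 163847) (nat_lit 0) .nil))))) (.g (nat_lit 0) (.e (nat_lit 327416) (nat_lit 0) .nil) .nil))) 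
(.lf (nat_lit 565118) (.g (nat_lit 3323) (.e (nat_lit 434238) (nat_lit 25) (.e (nat_lit 548915) (nat_lit 20) (.e (nat_lit 188450) (nat_lit 23) (.e (nat_lit 204885) (nat_lit 33) (.e (nat_lit 401448) (nat_lit 10) .nil))))) (.g (nat_lit 1) (.e (nat_lit 328821) (nat_lit 0) .nil) .nil))))) (.nd (nat_lit 8) (.nd (nat_lit 9) 
(.lf (nat_lit 564478) (.g (nat_lit 3466) (.e (nat_lit 434231) (nat_lit 23) (.e (nat_lit 532549) (nat_lit 12) (.e (nat_lit 360473) (nat_lit 8) (.e (nat_lit 557091) (nat_lit 12) (.e (nat_lit 164020) (nat_lit 45) (.e (nat_lit 696330) (nat_lit 5) (.e (nat_lit 2981) (nat_lit 185) .nil))))))) (.g (nat_lit 1) (.e (nat_lit 327038) (nat_lit 0) .nil) .nil))) 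
(.lf (nat_lit 564990) (.g (nat_lit 2477) (.e (nat_lit 434234) (nat_lit 23) (.e (nat_lit 532499) (nat_lit 1) (.e (nat_lit 57688) (nat_lit 156) (.e (nat_lit 163867) (nat_lit 2) (.e (nat_lit 196624) (nat_lit 9) .nil))))) (.g (nat_lit 0) (.e (nat_lit 328289) (nat_lit 0) .nil) .nil)))) (.nd (nat_lit 9) 
(.lf (nat_lit 564734) (.g (nat_lit 2088) (.e (nat_lit 434231) (nat_lit 23) (.e (nat_lit 532569) (nat_lit 16) (.e (nat_lit 401448) (nat_lit 10) (.e (nat_lit 434226) (nat_lit 20) (.e (nat_lit 507946) (nat_lit 18) (.e (nat_lit 303135) (nat_lit 10) .nil)))))) (.g (nat_lit 1) (.e (nat_lit 327699) (nat_lit 0) .nil) .nil))) 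
(.lf (nat_lit 565246) (.g (nat_lit 3708) (.e (nat_lit 434244) (nat_lit 28) (.e (nat_lit 573451) (nat_lit 9) (.e (nat_lit 498) (nat_lit 40) (.e (nat_lit 491565) (nat_lit 12) (.e (nat_lit 385067) (nat_lit 26) (.e (nat_lit 532515) (nat_lit 3) (.e (nat_lit 122624) (nat_lit 12) .nil))))))) (.g (nat_lit 1) (.e (nat_lit 329010) (nat_lit 0) .nil) .nil)))))))))))) 
(.nd (nat_lit 1) (.nd (nat_lit 2) (.nd (nat_lit 3) (.nd (nat_lit 4) (.nd (nat_lit 5) 
(.nd (nat_lit 6) (.nd (nat_lit 7) (.nd (nat_lit 8) (.nd (nat_lit 9) 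
(.lf (nat_lit 564225) (.g (nat_lit 1946) (.e (nat_lit 434219) (nat_lit 19) (.e (nat_lit 500087) (nat_lit 22) (.e (nat_lit 131109) (nat_lit 9) (.e (nat_lit 336324) (nat_lit 18) (.e (nat_lit 204837) (nat_lit 20) (.e (nat_lit 122624) (nat_lit 12) .nil)))))) (.g (nat_lit 1) (.e (nat_lit 325567) (nat_lit 0) .nil) .nil))) 
(.lf (nat_lit 564737) (.g (nat_lit 1983) (.e (nat_lit 434231) (nat_lit 23) (.e (nat_lit 532569) (nat_lit 16) (.e (nat_lit 401448) (nat_lit 10) (.e (nat_lit 434231) (nat_lit 23) (.e (nat_lit 532481) (nat_lit 0) .nil))))) (.g (nat_lit 0) (.e (nat_lit 327702) (nat_lit 0) .nil) .nil)))) (.nd (nat_lit 9) 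
(.lf (nat_lit 564481) (.g (nat_lit 2167) (.e (nat_lit 434231) (nat_lit 23) (.e (nat_lit 532549) (nat_lit 12) (.e (nat_lit 360474) (nat_lit 8) (.e (nat_lit 557088) (nat_lit 12) .nil)))) (.g (nat_lit 0) (.e (nat_lit 327091) (nat_lit 0) .nil) .nil))) 
(.lf (nat_lit 564993) (.g (nat_lit 3453) (.e (nat_lit 434234) (nat_lit 23) (.e (nat_lit 532499) (nat_lit 1) (.e (nat_lit 57688) (nat_lit 156) (.e (nat_lit 163905) (nat_lit 12) (.e (nat_lit 426568) (nat_lit 34) (.e (nat_lit 393283) (nat_lit 24) .nil)))))) (.g (nat_lit 1) (.e (nat_lit 328292) (nat_lit 0) .nil) .nil))))) (.nd (nat_lit 8) (.nd (nat_lit 9) 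
(.lf (nat_lit 564353) (.g (nat_lit 3018) (.e (nat_lit 434231) (nat_lit 23) (.e (nat_lit 532522) (nat_lit 7) (.e (nat_lit 319530) (nat_lit 16) (.e (nat_lit 286727) (nat_lit 0) (.e (nat_lit 1715) (nat_lit 117) .nil))))) (.g (nat_lit 0) (.e (nat_lit 325946) (nat_lit 0) .nil) .nil))) 
(.lf (nat_lit 564865) (.g (nat_lit 3549) (.e (nat_lit 434232) (nat_lit 23) (.e (nat_lit 532549) (nat_lit 12) (.e (nat_lit 360475) (nat_lit 8) (.e (nat_lit 557091) (nat_lit 12) (.e (nat_lit 164022) (nat_lit 46) .nil))))) (.g (nat_lit 0) (.e (nat_lit 327929) (nat_lit 0) .nil) .nil)))) (.nd (nat_lit 9) 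
(.lf (nat_lit 564609) (.g (nat_lit 3768) (.e (nat_lit 434231) (nat_lit 23) (.e (nat_lit 532550) (nat_lit 12) (.e (nat_lit 360475) (nat_lit 8) (.e (nat_lit 557089) (nat_lit 12) (.e (nat_lit 163848) (nat_lit 0) (.e (nat_lit 6416) (nat_lit 341) (.e (nat_lit 163917) (nat_lit 13) .nil))))))) (.g (nat_lit 1) (.e (nat_lit 327419) (nat_lit 0) .nil) .nil))) 
(.lf (nat_lit 565121) (.g (nat_lit 2225) (.e (nat_lit 434242) (nat_lit 28) (.e (nat_lit 573450) (nat_lit 9) (.e (nat_lit 375) (nat_lit 32) (.e (nat_lit 426025) (nat_lit 0) .nil)))) (.g (nat_lit 0) (.e (nat_lit 328835) (nat_lit 0) .nil) .nil)))))) (.nd (nat_lit 7) (.nd (nat_lit 8) (.nd (nat_lit 9) 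
(.lf (nat_lit 564289) (.g (nat_lit 6054) (.e (nat_lit 434230) (nat_lit 23) (.e (nat_lit 532550) (nat_lit 12) (.e (nat_lit 360475) (nat_lit 8) (.e (nat_lit 557093) (nat_lit 12) .nil)))) (.g (nat_lit 0) (.e (nat_lit 325799) (nat_lit 0) .nil) .nil))) 
(.lf (nat_lit 564801) (.g (nat_lit 2862) (.e (nat_lit 434232) (nat_lit 23) (.e (nat_lit 532501) (nat_lit 1) (.e (nat_lit 57691) (nat_lit 156) (.e (nat_lit 163875) (nat_lit 3) (.e (nat_lit 204838) (nat_lit 20) (.e (nat_lit 114719) (nat_lit 23) (.e (nat_lit 98367) (nat_lit 27) .nil))))))) (.g (nat_lit 1) (.e (nat_lit 327844) (nat_lit 0) .nil) .nil)))) (.nd (nat_lit 9) 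
(.lf (nat_lit 564545) (.g (nat_lit 3006) (.e (nat_lit 434231) (nat_lit 23) (.e (nat_lit 532550) (nat_lit 12) (.e (nat_lit 360473) (nat_lit 8) (.e (nat_lit 557090) (nat_lit 12) (.e (nat_lit 164020) (nat_lit 45) (.e (nat_lit 696327) (nat_lit 5) (.e (nat_lit 2964) (nat_lit 185) .nil))))))) (.g (nat_lit 1) (.e (nat_lit 327292) (nat_lit 0) .nil) .nil))) 
(.lf (nat_lit 565057) (.g (nat_lit 3718) (.e (nat_lit 434235) (nat_lit 24) (.e (nat_lit 540706) (nat_lit 12) (.e (nat_lit 360474) (nat_lit 8) (.e (nat_lit 557093) (nat_lit 12) (.e (nat_lit 164022) (nat_lit 46) (.e (nat_lit 704629) (nat_lit 9) (.e (nat_lit 452) (nat_lit 33) .nil))))))) (.g (nat_lit 1) (.e (nat_lit 328409) (nat_lit 0) .nil) .nil))))) (.nd (nat_lit 8) (.nd (nat_lit 9) 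
(.lf (nat_lit 564417) (.g (nat_lit 2373) (.e (nat_lit 434231) (nat_lit 23) (.e (nat_lit 532523) (nat_lit 7) (.e (nat_lit 319531) (nat_lit 16) (.e (nat_lit 286735) (nat_lit 3) (.e (nat_lit 106240) (nat_lit 26) .nil))))) (.g (nat_lit 0) (.e (nat_lit 326019) (nat_lit 0) .nil) .nil))) 
(.lf (nat_lit 564929) (.g (nat_lit 3251) (.e (nat_lit 434233) (nat_lit 23) (.e (nat_lit 532523) (nat_lit 7) (.e (nat_lit 319530) (nat_lit 16) (.e (nat_lit 286735) (nat_lit 3) (.e (nat_lit 98355) (nat_lit 26) .nil))))) (.g (nat_lit 0) (.e (nat_lit 328083) (nat_lit 0) .nil) .nil)))) (.nd (nat_lit 9) 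
(.lf (nat_lit 564673) (.g (nat_lit 2577) (.e (nat_lit 434231) (nat_lit 23) (.e (nat_lit 532550) (nat_lit 12) (.e (nat_lit 360475) (nat_lit 8) (.e (nat_lit 557091) (nat_lit 12) (.e (nat_lit 163850) (nat_lit 0) (.e (nat_lit 6426) (nat_lit 342) (.e (nat_lit 229408) (nat_lit 13) .nil))))))) (.g (nat_lit 1) (.e (nat_lit 327529) (nat_lit 0) .nil) .nil))) 
(.lf (nat_lit 565185) (.g (nat_lit 2389) (.e (nat_lit 434242) (nat_lit 28) (.e (nat_lit 573488) (nat_lit 14) (.e (nat_lit 73755) (nat_lit 8) (.e (nat_lit 557090) (nat_lit 12) (.e (nat_lit 164005) (nat_lit 41) .nil))))) (.g (nat_lit 0) (.e (nat_lit 328924) (nat_lit 0) .nil) .nil))))))) (.nd (nat_lit 6) (.nd (nat_lit 7) (.nd (nat_lit 8) (.nd (nat_lit 9) 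
(.lf (nat_lit 564257) (.g (nat_lit 2029) (.e (nat_lit 434230) (nat_lit 23) (.e (nat_lit 532503) (nat_lit 1) (.e (nat_lit 57688) (nat_lit 156) (.e (nat_lit 163867) (nat_lit 2) (.e (nat_lit 196624) (nat_lit 9) .nil))))) (.g (nat_lit 0) (.e (nat_lit 325750) (nat_lit 0) .nil) .nil))) 
(.lf (nat_lit 564769) (.g (nat_lit 2690) (.e (nat_lit 434231) (nat_lit 23) (.e (nat_lit 532579) (nat_lit 26) (.e (nat_lit 426107) (nat_lit 1) (.e (nat_lit 164403) (nat_lit 256) (.e (nat_lit 57409) (nat_lit 12) (.e (nat_lit 336398) (nat_lit 27) (.e (nat_lit 426290) (nat_lit 10) .nil))))))) (.g (nat_lit 1) (.e (nat_lit 327761) (nat_lit 0) .nil) .nil)))) (.nd (nat_lit 9) 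
(.lf (nat_lit 564513) (.g (nat_lit 3337) (.e (nat_lit 434231) (nat_lit 23) (.e (nat_lit 532549) (nat_lit 12) (.e (nat_lit 360475) (nat_lit 8) (.e (nat_lit 557091) (nat_lit 12) (.e (nat_lit 163850) (nat_lit 0) .nil))))) (.g (nat_lit 0) (.e (nat_lit 327220) (nat_lit 0) .nil) .nil))) 
(.lf (nat_lit 565025) (.g (nat_lit 1582) (.e (nat_lit 434234) (nat_lit 23) (.e (nat_lit 532513) (nat_lit 3) (.e (nat_lit 114714) (nat_lit 22) (.e (nat_lit 90120) (nat_lit 0) .nil)))) (.g (nat_lit 0) (.e (nat_lit 328326) (nat_lit 0) .nil) .nil))))) (.nd (nat_lit 8) (.nd (nat_lit 9) 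
(.lf (nat_lit 564385) (.g (nat_lit 3644) (.e (nat_lit 434231) (nat_lit 23) (.e (nat_lit 532523) (nat_lit 7) (.e (nat_lit 319530) (nat_lit 16) (.e (nat_lit 286733) (nat_lit 2) (.e (nat_lit 90134) (nat_lit 9) (.e (nat_lit 2842) (nat_lit 184) (.e (nat_lit 426276) (nat_lit 10) .nil))))))) (.g (nat_lit 1) (.e (nat_lit 325983) (nat_lit 0) .nil) .nil))) 
(.lf (nat_lit 564897) (.g (nat_lit 2684) (.e (nat_lit 434233) (nat_lit 23) (.e (nat_lit 532499) (nat_lit 1) (.e (nat_lit 57688) (nat_lit 156) (.e (nat_lit 163905) (nat_lit 12) (.e (nat_lit 426568) (nat_lit 34) .nil))))) (.g (nat_lit 0) (.e (nat_lit 328000) (nat_lit 0) .nil) .nil)))) (.nd (nat_lit 9) 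
(.lf (nat_lit 564641) (.g (nat_lit 2835) (.e (nat_lit 434231) (nat_lit 23) (.e (nat_lit 532550) (nat_lit 12) (.e (nat_lit 360475) (nat_lit 8) (.e (nat_lit 557090) (nat_lit 12) (.e (nat_lit 164020) (nat_lit 45) (.e (nat_lit 696330) (nat_lit 5) (.e (nat_lit 2980) (nat_lit 185) .nil))))))) (.g (nat_lit 1) (.e (nat_lit 327468) (nat_lit 0) .nil) .nil))) 
(.lf (nat_lit 565153) (.g (nat_lit 2923) (.e (nat_lit 434242) (nat_lit 28) (.e (nat_lit 573471) (nat_lit 11) (.e (nat_lit 16456) (nat_lit 12) (.e (nat_lit 475185) (nat_lit 29) (.e (nat_lit 557100) (nat_lit 13) .nil))))) (.g (nat_lit 0) (.e (nat_lit 328872) (nat_lit 0) .nil) .nil)))))) (.nd (nat_lit 7) (.nd (nat_lit 8) (.nd (nat_lit 9) 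
(.lf (nat_lit 564321) (.g (nat_lit 2520) (.e (nat_lit 434231) (nat_lit 23) (.e (nat_lit 532500) (nat_lit 1) (.e (nat_lit 57685) (nat_lit 156) (.e (nat_lit 163907) (nat_lit 12) (.e (nat_lit 426568) (nat_lit 34) (.e (nat_lit 393283) (nat_lit 24) .nil)))))) (.g (nat_lit 1) (.e (nat_lit 325876) (nat_lit 0) .nil) .nil))) 
(.lf (nat_lit 564833) (.g (nat_lit 4606) (.e (nat_lit 434232) (nat_lit 23) (.e (nat_lit 532504) (nat_lit 1) (.e (nat_lit 57692) (nat_lit 156) (.e (nat_lit 163874) (nat_lit 3) (.e (nat_lit 204837) (nat_lit 20) (.e (nat_lit 114719) (nat_lit 23) (.e (nat_lit 98367) (nat_lit 27) .nil))))))) (.g (nat_lit 1) (.e (nat_lit 327877) (nat_lit 0) .nil) .nil)))) (.nd (nat_lit 9) 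
(.lf (nat_lit 564577) (.g (nat_lit 3484) (.e (nat_lit 434231) (nat_lit 23) (.e (nat_lit 532550) (nat_lit 12) (.e (nat_lit 360474) (nat_lit 8) (.e (nat_lit 557093) (nat_lit 12) (.e (nat_lit 164022) (nat_lit 46) (.e (nat_lit 704627) (nat_lit 9) (.e (nat_lit 450) (nat_lit 33) .nil))))))) (.g (nat_lit 1) (.e (nat_lit 327338) (nat_lit 0) .nil) .nil))) 
(.lf (nat_lit 565089) (.g (nat_lit 4563) (.e (nat_lit 434238) (nat_lit 25) (.e (nat_lit 548913) (nat_lit 18) (.e (nat_lit 172094) (nat_lit 9) (.e (nat_lit 426125) (nat_lit 2) (.e (nat_lit 196632) (nat_lit 9) (.e (nat_lit 1673) (nat_lit 116) (.e (nat_lit 401447) (nat_lit 10) .nil))))))) (.g (nat_lit 1) (.e (nat_lit 328701) (nat_lit 0) .nil) .nil))))) (.nd (nat_lit 8) (.nd (nat_lit 9) 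
(.lf (nat_lit 564449) (.g (nat_lit 3748) (.e (nat_lit 434231) (nat_lit 23) (.e (nat_lit 532535) (nat_lit 9) (.e (nat_lit 336295) (nat_lit 15) (.e (nat_lit 3632) (nat_lit 227) (.e (nat_lit 778318) (nat_lit 3) (.e (nat_lit 57476) (nat_lit 28) (.e (nat_lit 557097) (nat_lit 13) (.e (nat_lit 172105) (nat_lit 10) .nil)))))))) (.g (nat_lit 1) (.e (nat_lit 326781) (nat_lit 0) .nil) .nil))) 
(.lf (nat_lit 564961) (.g (nat_lit 864) (.e (nat_lit 434233) (nat_lit 23) (.e (nat_lit 532541) (nat_lit 9) (.e (nat_lit 336194) (nat_lit 12) (.e (nat_lit 385066) (nat_lit 26) .nil)))) (.g (nat_lit 0) (.e (nat_lit 328175) (nat_lit 0) .nil) .nil)))) (.nd (nat_lit 9) 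
(.lf (nat_lit 564705) (.g (nat_lit 3741) (.e (nat_lit 434231) (nat_lit 23) (.e (nat_lit 532550) (nat_lit 12) (.e (nat_lit 360475) (nat_lit 8) (.e (nat_lit 557092) (nat_lit 12) .nil)))) (.g (nat_lit 0) (.e (nat_lit 327586) (nat_lit 0) .nil) .nil))) 
(.lf (nat_lit 565217) (.g (nat_lit 2782) (.e (nat_lit 434244) (nat_lit 28) (.e (nat_lit 573449) (nat_lit 9) (.e (nat_lit 1400) (nat_lit 106) (.e (nat_lit 319534) (nat_lit 16) (.e (nat_lit 286767) (nat_lit 27) .nil))))) (.g (nat_lit 0) (.e (nat_lit 328965) (nat_lit 0) .nil) .nil)))))))) (.nd (nat_lit 5) (.nd (nat_lit 6) (.nd (nat_lit 7) (.nd (nat_lit 8) (.nd (nat_lit 9) 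
(.lf (nat_lit 564241) (.g (nat_lit 2886) (.e (nat_lit 434227) (nat_lit 20) (.e (nat_lit 507930) (nat_lit 10) (.e (nat_lit 5777) (nat_lit 317) (.e (nat_lit 180244) (nat_lit 5) (.e (nat_lit 532569) (nat_lit 16) (.e (nat_lit 401448) (nat_lit 10) .nil)))))) (.g (nat_lit 1) (.e (nat_lit 325673) (nat_lit 0) .nil) .nil))) 
(.lf (nat_lit 564753) (.g (nat_lit 3875) (.e (nat_lit 434231) (nat_lit 23) (.e (nat_lit 532569) (nat_lit 16) (.e (nat_lit 401451) (nat_lit 12) (.e (nat_lit 475185) (nat_lit 29) (.e (nat_lit 557097) (nat_lit 13) (.e (nat_lit 172115) (nat_lit 10) .nil)))))) (.g (nat_lit 1) (.e (nat_lit 327737) (nat_lit 0) .nil) .nil)))) (.nd (nat_lit 9) 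
(.lf (nat_lit 564497) (.g (nat_lit 3589) (.e (nat_lit 434231) (nat_lit 23) (.e (nat_lit 532549) (nat_lit 12) (.e (nat_lit 360475) (nat_lit 8) (.e (nat_lit 557089) (nat_lit 12) (.e (nat_lit 164020) (nat_lit 45) .nil))))) (.g (nat_lit 0) (.e (nat_lit 327162) (nat_lit 0) .nil) .nil))) 
(.lf (nat_lit 565009) (.g (nat_lit 739) (.e (nat_lit 434234) (nat_lit 23) (.e (nat_lit 532503) (nat_lit 1) (.e (nat_lit 57654) (nat_lit 152) .nil))) (.g (nat_lit 0) (.e (nat_lit 328309) (nat_lit 0) .nil) .nil))))) (.nd (nat_lit 8) (.nd (nat_lit 9) 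
(.lf (nat_lit 564369) (.g (nat_lit 3799) (.e (nat_lit 434231) (nat_lit 23) (.e (nat_lit 532522) (nat_lit 7) (.e (nat_lit 319531) (nat_lit 16) (.e (nat_lit 286733) (nat_lit 2) (.e (nat_lit 90134) (nat_lit 9) (.e (nat_lit 2882) (nat_lit 184) (.e (nat_lit 426276) (nat_lit 10) .nil))))))) (.g (nat_lit 1) (.e (nat_lit 325962) (nat_lit 0) .nil) .nil))) 
(.lf (nat_lit 564881) (.g (nat_lit 1453) (.e (nat_lit 434232) (nat_lit 23) (.e (nat_lit 532567) (nat_lit 16) (.e (nat_lit 401444) (nat_lit 9) (.e (nat_lit 426129) (nat_lit 3) .nil)))) (.g (nat_lit 0) (.e (nat_lit 327967) (nat_lit 0) .nil) .nil)))) (.nd (nat_lit 9) 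
(.lf (nat_lit 564625) (.g (nat_lit 3183) (.e (nat_lit 434231) (nat_lit 23) (.e (nat_lit 532550) (nat_lit 12) (.e (nat_lit 360475) (nat_lit 8) (.e (nat_lit 557089) (nat_lit 12) (.e (nat_lit 164017) (nat_lit 44) (.e (nat_lit 688141) (nat_lit 5) (.e (nat_lit 2961) (nat_lit 185) .nil))))))) (.g (nat_lit 1) (.e (nat_lit 327446) (nat_lit 0) .nil) .nil))) 
(.lf (nat_lit 565137) (.g (nat_lit 2185) (.e (nat_lit 434242) (nat_lit 28) (.e (nat_lit 573469) (nat_lit 11) (.e (nat_lit 16473) (nat_lit 14) (.e (nat_lit 491526) (nat_lit 0) (.e (nat_lit 1788) (nat_lit 119) .nil))))) (.g (nat_lit 0) (.e (nat_lit 328853) (nat_lit 0) .nil) .nil)))))) (.nd (nat_lit 7) (.nd (nat_lit 8) (.nd (nat_lit 9) 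
(.lf (nat_lit 564305) (.g (nat_lit 3603) (.e (nat_lit 434231) (nat_lit 23) (.e (nat_lit 532499) (nat_lit 1) (.e (nat_lit 57688) (nat_lit 156) (.e (nat_lit 163874) (nat_lit 3) (.e (nat_lit 204836) (nat_lit 20) (.e (nat_lit 114718) (nat_lit 23) (.e (nat_lit 98366) (nat_lit 27) .nil))))))) (.g (nat_lit 1) (.e (nat_lit 325844) (nat_lit 0) .nil) .nil))) 
(.lf (nat_lit 564817) (.g (nat_lit 2715) (.e (nat_lit 434232) (nat_lit 23) (.e (nat_lit 532503) (nat_lit 1) (.e (nat_lit 57691) (nat_lit 156) (.e (nat_lit 163875) (nat_lit 3) (.e (nat_lit 204838) (nat_lit 20) (.e (nat_lit 114719) (nat_lit 23) (.e (nat_lit 98367) (nat_lit 27) .nil))))))) (.g (nat_lit 1) (.e (nat_lit 327861) (nat_lit 0) .nil) .nil)))) (.nd (nat_lit 9) 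
(.lf (nat_lit 564561) (.g (nat_lit 4698) (.e (nat_lit 434231) (nat_lit 23) (.e (nat_lit 532550) (nat_lit 12) (.e (nat_lit 360474) (nat_lit 8) (.e (nat_lit 557089) (nat_lit 12) (.e (nat_lit 164020) (nat_lit 45) .nil))))) (.g (nat_lit 0) (.e (nat_lit 327310) (nat_lit 0) .nil) .nil))) 
(.lf (nat_lit 565073) (.g (nat_lit 3474) (.e (nat_lit 434235) (nat_lit 24) (.e (nat_lit 540706) (nat_lit 12) (.e (nat_lit 360475) (nat_lit 8) (.e (nat_lit 557094) (nat_lit 12) (.e (nat_lit 164022) (nat_lit 46) .nil))))) (.g (nat_lit 0) (.e (nat_lit 328431) (nat_lit 0) .nil) .nil))))) (.nd (nat_lit 8) (.nd (nat_lit 9) 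
(.lf (nat_lit 564433) (.g (nat_lit 4755) (.e (nat_lit 434231) (nat_lit 23) (.e (nat_lit 532526) (nat_lit 8) (.e (nat_lit 327715) (nat_lit 16) (.e (nat_lit 286733) (nat_lit 2) (.e (nat_lit 90170) (nat_lit 13) (.e (nat_lit 172106) (nat_lit 10) .nil)))))) (.g (nat_lit 1) (.e (nat_lit 326037) (nat_lit 0) .nil) .nil))) 
(.lf (nat_lit 564945) (.g (nat_lit 1666) (.e (nat_lit 434233) (nat_lit 23) (.e (nat_lit 532523) (nat_lit 7) (.e (nat_lit 319534) (nat_lit 16) (.e (nat_lit 286728) (nat_lit 0) .nil)))) (.g (nat_lit 0) (.e (nat_lit 328125) (nat_lit 0) .nil) .nil)))) (.nd (nat_lit 9) 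
(.lf (nat_lit 564689) (.g (nat_lit 3736) (.e (nat_lit 434231) (nat_lit 23) (.e (nat_lit 532550) (nat_lit 12) (.e (nat_lit 360475) (nat_lit 8) (.e (nat_lit 557091) (nat_lit 12) (.e (nat_lit 164018) (nat_lit 45) (.e (nat_lit 696329) (nat_lit 5) (.e (nat_lit 2980) (nat_lit 185) .nil))))))) (.g (nat_lit 1) (.e (nat_lit 327565) (nat_lit 0) .nil) .nil))) 
(.lf (nat_lit 565201) (.g (nat_lit 3587) (.e (nat_lit 434243) (nat_lit 28) (.e (nat_lit 573471) (nat_lit 11) (.e (nat_lit 16433) (nat_lit 9) (.e (nat_lit 426131) (nat_lit 3) .nil)))) (.g (nat_lit 0) (.e (nat_lit 328944) (nat_lit 0) .nil) .nil))))))) (.nd (nat_lit 6) (.nd (nat_lit 7) (.nd (nat_lit 8) (.nd (nat_lit 9) 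
(.lf (nat_lit 564273) (.g (nat_lit 3772) (.e (nat_lit 434230) (nat_lit 23) (.e (nat_lit 532550) (nat_lit 12) (.e (nat_lit 360474) (nat_lit 8) (.e (nat_lit 557093) (nat_lit 12) (.e (nat_lit 164022) (nat_lit 46) (.e (nat_lit 704628) (nat_lit 9) (.e (nat_lit 443) (nat_lit 33) .nil))))))) (.g (nat_lit 1) (.e (nat_lit 325780) (nat_lit 0) .nil) .nil))) 
(.lf (nat_lit 564785) (.g (nat_lit 2734) (.e (nat_lit 434232) (nat_lit 23) (.e (nat_lit 532499) (nat_lit 1) (.e (nat_lit 57688) (nat_lit 156) (.e (nat_lit 163875) (nat_lit 3) (.e (nat_lit 204838) (nat_lit 20) .nil))))) (.g (nat_lit 0) (.e (nat_lit 327826) (nat_lit 0) .nil) .nil)))) (.nd (nat_lit 9) 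
(.lf (nat_lit 564529) (.g (nat_lit 4216) (.e (nat_lit 434231) (nat_lit 23) (.e (nat_lit 532549) (nat_lit 12) (.e (nat_lit 360475) (nat_lit 8) (.e (nat_lit 557091) (nat_lit 12) (.e (nat_lit 164020) (nat_lit 45) (.e (nat_lit 696327) (nat_lit 5) (.e (nat_lit 2980) (nat_lit 185) .nil))))))) (.g (nat_lit 1) (.e (nat_lit 327256) (nat_lit 0) .nil) .nil))) 
(.lf (nat_lit 565041) (.g (nat_lit 4181) (.e (nat_lit 434234) (nat_lit 23) (.e (nat_lit 532550) (nat_lit 12) (.e (nat_lit 360474) (nat_lit 8) (.e (nat_lit 557094) (nat_lit 12) .nil)))) (.g (nat_lit 0) (.e (nat_lit 328354) (nat_lit 0) .nil) .nil))))) (.nd (nat_lit 8) (.nd (nat_lit 9) 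
(.lf (nat_lit 564401) (.g (nat_lit 2377) (.e (nat_lit 434231) (nat_lit 23) (.e (nat_lit 532523) (nat_lit 7) (.e (nat_lit 319530) (nat_lit 16) (.e (nat_lit 286735) (nat_lit 3) (.e (nat_lit 106240) (nat_lit 26) (.e (nat_lit 426289) (nat_lit 10) .nil)))))) (.g (nat_lit 1) (.e (nat_lit 326001) (nat_lit 0) .nil) .nil))) 
(.lf (nat_lit 564913) (.g (nat_lit 1499) (.e (nat_lit 434233) (nat_lit 23) (.e (nat_lit 532503) (nat_lit 1) (.e (nat_lit 57651) (nat_lit 152) (.e (nat_lit 2619) (nat_lit 164) (.e (nat_lit 179968) (nat_lit 34) .nil))))) (.g (nat_lit 0) (.e (nat_lit 328016) (nat_lit 0) .nil) .nil)))) (.nd (nat_lit 9) 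
(.lf (nat_lit 564657) (.g (nat_lit 3934) (.e (nat_lit 434231) (nat_lit 23) (.e (nat_lit 532550) (nat_lit 12) (.e (nat_lit 360475) (nat_lit 8) (.e (nat_lit 557091) (nat_lit 12) (.e (nat_lit 163843) (nat_lit 0) (.e (nat_lit 6420) (nat_lit 341) (.e (nat_lit 163918) (nat_lit 13) .nil))))))) (.g (nat_lit 1) (.e (nat_lit 327496) (nat_lit 0) .nil) .nil))) 
(.lf (nat_lit 565169) (.g (nat_lit 4006) (.e (nat_lit 434242) (nat_lit 28) (.e (nat_lit 573474) (nat_lit 12) (.e (nat_lit 57354) (nat_lit 0) (.e (nat_lit 7270) (nat_lit 385) (.e (nat_lit 122906) (nat_lit 12) (.e (nat_lit 336001) (nat_lit 2) (.e (nat_lit 90170) (nat_lit 13) (.e (nat_lit 172113) (nat_lit 10) .nil)))))))) (.g (nat_lit 1) (.e (nat_lit 328889) (nat_lit 0) .nil) .nil)))))) 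
(.nd (nat_lit 7) (.nd (nat_lit 8) (.nd (nat_lit 9) 
(.lf (nat_lit 564337) (.g (nat_lit 2339) (.e (nat_lit 434231) (nat_lit 23) (.e (nat_lit 532502) (nat_lit 1) (.e (nat_lit 57692) (nat_lit 156) (.e (nat_lit 163907) (nat_lit 12) (.e (nat_lit 426568) (nat_lit 34) (.e (nat_lit 393283) (nat_lit 24) .nil)))))) (.g (nat_lit 1) (.e (nat_lit 325894) (nat_lit 0) .nil) .nil))) 
(.lf (nat_lit 564849) (.g (nat_lit 1386) (.e (nat_lit 434232) (nat_lit 23) (.e (nat_lit 532522) (nat_lit 7) (.e (nat_lit 319539) (nat_lit 19) (.e (nat_lit 311315) (nat_lit 3) .nil)))) (.g (nat_lit 0) (.e (nat_lit 327896) (nat_lit 0) .nil) .nil)))) (.nd (nat_lit 9) 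
(.lf (nat_lit 564593) (.g (nat_lit 2825) (.e (nat_lit 434231) (nat_lit 23) (.e (nat_lit 532550) (nat_lit 12) (.e (nat_lit 360474) (nat_lit 8) (.e (nat_lit 557094) (nat_lit 12) (.e (nat_lit 164018) (nat_lit 45) (.e (nat_lit 696329) (nat_lit 5) (.e (nat_lit 2980) (nat_lit 185) .nil))))))) (.g (nat_lit 1) (.e (nat_lit 327367) (nat_lit 0) .nil) .nil))) 
(.lf (nat_lit 565105) (.g (nat_lit 4485) (.e (nat_lit 434238) (nat_lit 25) (.e (nat_lit 548913) (nat_lit 18) (.e (nat_lit 172125) (nat_lit 14) (.e (nat_lit 491536) (nat_lit 2) (.e (nat_lit 90170) (nat_lit 13) (.e (nat_lit 172106) (nat_lit 10) .nil)))))) (.g (nat_lit 1) (.e (nat_lit 328793) (nat_lit 0) .nil) .nil))))) (.nd (nat_lit 8) (.nd (nat_lit 9) 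
(.lf (nat_lit 564465) (.g (nat_lit 2738) (.e (nat_lit 434231) (nat_lit 23) (.e (nat_lit 532549) (nat_lit 12) (.e (nat_lit 360473) (nat_lit 8) (.e (nat_lit 557091) (nat_lit 12) (.e (nat_lit 163840) (nat_lit 0) (.e (nat_lit 6426) (nat_lit 342) (.e (nat_lit 229409) (nat_lit 13) .nil))))))) (.g (nat_lit 1) (.e (nat_lit 326948) (nat_lit 0) .nil) .nil))) 
(.lf (nat_lit 564977) (.g (nat_lit 6303) (.e (nat_lit 434233) (nat_lit 23) (.e (nat_lit 532550) (nat_lit 12) (.e (nat_lit 360475) (nat_lit 8) (.e (nat_lit 557090) (nat_lit 12) .nil)))) (.g (nat_lit 0) (.e (nat_lit 328205) (nat_lit 0) .nil) .nil)))) (.nd (nat_lit 9) 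
(.lf (nat_lit 564721) (.g (nat_lit 3349) (.e (nat_lit 434231) (nat_lit 23) (.e (nat_lit 532569) (nat_lit 16) (.e (nat_lit 401434) (nat_lit 9) (.e (nat_lit 426125) (nat_lit 2) (.e (nat_lit 196631) (nat_lit 9) .nil))))) (.g (nat_lit 0) (.e (nat_lit 327661) (nat_lit 0) .nil) .nil))) 
(.lf (nat_lit 565233) (.g (nat_lit 4907) (.e (nat_lit 434244) (nat_lit 28) (.e (nat_lit 573451) (nat_lit 9) (.e (nat_lit 428) (nat_lit 32) (.e (nat_lit 426347) (nat_lit 14) (.e (nat_lit 491537) (nat_lit 2) (.e (nat_lit 90170) (nat_lit 13) (.e (nat_lit 172106) (nat_lit 10) .nil))))))) (.g (nat_lit 1) (.e (nat_lit 328993) (nat_lit 0) .nil) .nil))))))))) 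
(.nd (nat_lit 4) (.nd (nat_lit 5) (.nd (nat_lit 6) (.nd (nat_lit 7) (.nd (nat_lit 8) 
(.nd (nat_lit 9) 
(.lf (nat_lit 564233) (.g (nat_lit 2805) (.e (nat_lit 434226) (nat_lit 20) (.e (nat_lit 507946) (nat_lit 18) (.e (nat_lit 303140) (nat_lit 10) (.e (nat_lit 434231) (nat_lit 23) (.e (nat_lit 532569) (nat_lit 16) (.e (nat_lit 401448) (nat_lit 10) .nil)))))) (.g (nat_lit 1) (.e (nat_lit 325590) (nat_lit 0) .nil) .nil))) 
(.lf (nat_lit 564745) (.g (nat_lit 6744) (.e (nat_lit 434231) (nat_lit 23) (.e (nat_lit 532569) (nat_lit 16) (.e (nat_lit 401448) (nat_lit 10) (.e (nat_lit 434238) (nat_lit 25) (.e (nat_lit 548913) (nat_lit 18) (.e (nat_lit 172106) (nat_lit 10) .nil)))))) (.g (nat_lit 1) (.e (nat_lit 327712) (nat_lit 0) .nil) .nil)))) (.nd (nat_lit 9) 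
(.lf (nat_lit 564489) (.g (nat_lit 3885) (.e (nat_lit 434231) (nat_lit 23) (.e (nat_lit 532549) (nat_lit 12) (.e (nat_lit 360474) (nat_lit 8) (.e (nat_lit 557093) (nat_lit 12) (.e (nat_lit 164022) (nat_lit 46) (.e (nat_lit 704629) (nat_lit 9) (.e (nat_lit 452) (nat_lit 33) .nil))))))) (.g (nat_lit 1) (.e (nat_lit 327099) (nat_lit 0) .nil) .nil))) 
(.lf (nat_lit 565001) (.g (nat_lit 2122) (.e (nat_lit 434234) (nat_lit 23) (.e (nat_lit 532501) (nat_lit 1) (.e (nat_lit 57691) (nat_lit 156) (.e (nat_lit 163905) (nat_lit 12) (.e (nat_lit 426568) (nat_lit 34) .nil))))) (.g (nat_lit 0) (.e (nat_lit 328301) (nat_lit 0) .nil) .nil))))) (.nd (nat_lit 8) (.nd (nat_lit 9) 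
(.lf (nat_lit 564361) (.g (nat_lit 1714) (.e (nat_lit 434231) (nat_lit 23) (.e (nat_lit 532522) (nat_lit 7) (.e (nat_lit 319531) (nat_lit 16) (.e (nat_lit 286728) (nat_lit 0) .nil)))) (.g (nat_lit 0) (.e (nat_lit 325954) (nat_lit 0) .nil) .nil))) 
(.lf (nat_lit 564873) (.g (nat_lit 4063) (.e (nat_lit 434232) (nat_lit 23) (.e (nat_lit 532550) (nat_lit 12) (.e (nat_lit 360475) (nat_lit 8) (.e (nat_lit 557089) (nat_lit 12) .nil)))) (.g (nat_lit 0) (.e (nat_lit 327943) (nat_lit 0) .nil) .nil)))) (.nd (nat_lit 9) 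
(.lf (nat_lit 564617) (.g (nat_lit 2174) (.e (nat_lit 434231) (nat_lit 23) (.e (nat_lit 532550) (nat_lit 12) (.e (nat_lit 360475) (nat_lit 8) (.e (nat_lit 557089) (nat_lit 12) (.e (nat_lit 163850) (nat_lit 0) .nil))))) (.g (nat_lit 0) (.e (nat_lit 327433) (nat_lit 0) .nil) .nil))) 
(.lf (nat_lit 565129) (.g (nat_lit 2432) (.e (nat_lit 434242) (nat_lit 28) (.e (nat_lit 573454) (nat_lit 9) (.e (nat_lit 1315) (nat_lit 98) (.e (nat_lit 147495) (nat_lit 11) (.e (nat_lit 24601) (nat_lit 2) .nil))))) (.g (nat_lit 0) (.e (nat_lit 328845) (nat_lit 0) .nil) .nil)))))) (.nd (nat_lit 7) (.nd (nat_lit 8) (.nd (nat_lit 9) 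
(.lf (nat_lit 564297) (.g (nat_lit 3667) (.e (nat_lit 434231) (nat_lit 23) (.e (nat_lit 532482) (nat_lit 0) (.e (nat_lit 6724) (nat_lit 362) (.e (nat_lit 180243) (nat_lit 5) (.e (nat_lit 532569) (nat_lit 16) (.e (nat_lit 401446) (nat_lit 10) .nil)))))) (.g (nat_lit 1) (.e (nat_lit 325825) (nat_lit 0) .nil) .nil))) 
(.lf (nat_lit 564809) (.g (nat_lit 1948) (.e (nat_lit 434232) (nat_lit 23) (.e (nat_lit 532503) (nat_lit 1) (.e (nat_lit 57686) (nat_lit 156) (.e (nat_lit 163903) (nat_lit 12) (.e (nat_lit 426568) (nat_lit 34) (.e (nat_lit 393283) (nat_lit 24) .nil)))))) (.g (nat_lit 1) (.e (nat_lit 327853) (nat_lit 0) .nil) .nil)))) (.nd (nat_lit 9) 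
(.lf (nat_lit 564553) (.g (nat_lit 1927) (.e (nat_lit 434231) (nat_lit 23) (.e (nat_lit 532550) (nat_lit 12) (.e (nat_lit 360474) (nat_lit 8) (.e (nat_lit 557088) (nat_lit 12) .nil)))) (.g (nat_lit 0) (.e (nat_lit 327301) (nat_lit 0) .nil) .nil))) 
(.lf (nat_lit 565065) (.g (nat_lit 2806) (.e (nat_lit 434235) (nat_lit 24) (.e (nat_lit 540706) (nat_lit 12) (.e (nat_lit 360475) (nat_lit 8) (.e (nat_lit 557090) (nat_lit 12) (.e (nat_lit 164020) (nat_lit 45) (.e (nat_lit 696329) (nat_lit 5) (.e (nat_lit 2975) (nat_lit 185) .nil))))))) (.g (nat_lit 1) (.e (nat_lit 328421) (nat_lit 0) .nil) .nil))))) (.nd (nat_lit 8) (.nd (nat_lit 9) 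
(.lf (nat_lit 564425) (.g (nat_lit 4339) (.e (nat_lit 434231) (nat_lit 23) (.e (nat_lit 532523) (nat_lit 7) (.e (nat_lit 327424) (nat_lit 16) (.e (nat_lit 286733) (nat_lit 2) (.e (nat_lit 90170) (nat_lit 13) (.e (nat_lit 172115) (nat_lit 10) .nil)))))) (.g (nat_lit 1) (.e (nat_lit 326027) (nat_lit 0) .nil) .nil))) 
(.lf (nat_lit 564937) (.g (nat_lit 1501) (.e (nat_lit 434233) (nat_lit 23) (.e (nat_lit 532523) (nat_lit 7) (.e (nat_lit 319532) (nat_lit 16) (.e (nat_lit 286733) (nat_lit 2) .nil)))) (.g (nat_lit 0) (.e (nat_lit 328098) (nat_lit 0) .nil) .nil)))) (.nd (nat_lit 9) 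
(.lf (nat_lit 564681) (.g (nat_lit 3386) (.e (nat_lit 434231) (nat_lit 23) (.e (nat_lit 532550) (nat_lit 12) (.e (nat_lit 360475) (nat_lit 8) (.e (nat_lit 557091) (nat_lit 12) (.e (nat_lit 163852) (nat_lit 0) (.e (nat_lit 6428) (nat_lit 342) (.e (nat_lit 229407) (nat_lit 13) .nil))))))) (.g (nat_lit 1) (.e (nat_lit 327537) (nat_lit 0) .nil) .nil))) 
(.lf (nat_lit 565193) (.g (nat_lit 1584) (.e (nat_lit 434242) (nat_lit 28) (.e (nat_lit 573488) (nat_lit 14) (.e (nat_lit 73755) (nat_lit 8) (.e (nat_lit 557111) (nat_lit 16) .nil)))) (.g (nat_lit 0) (.e (nat_lit 328934) (nat_lit 0) .nil) .nil))))))) (.nd (nat_lit 6) (.nd (nat_lit 7) (.nd (nat_lit 8) (.nd (nat_lit 9) 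
(.lf (nat_lit 564265) (.g (nat_lit 3341) (.e (nat_lit 434230) (nat_lit 23) (.e (nat_lit 532535) (nat_lit 9) (.e (nat_lit 336176) (nat_lit 10) (.e (nat_lit 344132) (nat_lit 26) .nil)))) (.g (nat_lit 0) (.e (nat_lit 325768) (nat_lit 0) .nil) .nil))) 
(.lf (nat_lit 564777) (.g (nat_lit 2683) (.e (nat_lit 434232) (nat_lit 23) (.e (nat_lit 532499) (nat_lit 1) (.e (nat_lit 57688) (nat_lit 156) (.e (nat_lit 163868) (nat_lit 2) (.e (nat_lit 196624) (nat_lit 9) .nil))))) (.g (nat_lit 0) (.e (nat_lit 327818) (nat_lit 0) .nil) .nil)))) (.nd (nat_lit 9) 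
(.lf (nat_lit 564521) (.g (nat_lit 3516) (.e (nat_lit 434231) (nat_lit 23) (.e (nat_lit 532549) (nat_lit 12) (.e (nat_lit 360475) (nat_lit 8) (.e (nat_lit 557091) (nat_lit 12) (.e (nat_lit 164018) (nat_lit 45) (.e (nat_lit 696327) (nat_lit 5) (.e (nat_lit 2980) (nat_lit 185) .nil))))))) (.g (nat_lit 1) (.e (nat_lit 327247) (nat_lit 0) .nil) .nil))) 
(.lf (nat_lit 565033) (.g (nat_lit 1568) (.e (nat_lit 434234) (nat_lit 23) (.e (nat_lit 532523) (nat_lit 7) (.e (nat_lit 319534) (nat_lit 16) (.e (nat_lit 286735) (nat_lit 3) .nil)))) (.g (nat_lit 0) (.e (nat_lit 328339) (nat_lit 0) .nil) .nil))))) (.nd (nat_lit 8) (.nd (nat_lit 9) 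
(.lf (nat_lit 564393) (.g (nat_lit 2573) (.e (nat_lit 434231) (nat_lit 23) (.e (nat_lit 532523) (nat_lit 7) (.e (nat_lit 319530) (nat_lit 16) (.e (nat_lit 286733) (nat_lit 2) (.e (nat_lit 90134) (nat_lit 9) (.e (nat_lit 2879) (nat_lit 184) (.e (nat_lit 426289) (nat_lit 10) .nil))))))) (.g (nat_lit 1) (.e (nat_lit 325993) (nat_lit 0) .nil) .nil))) 
(.lf (nat_lit 564905) (.g (nat_lit 927) (.e (nat_lit 434233) (nat_lit 23) (.e (nat_lit 532501) (nat_lit 1) (.e (nat_lit 57685) (nat_lit 156) .nil))) (.g (nat_lit 0) (.e (nat_lit 328008) (nat_lit 0) .nil) .nil)))) (.nd (nat_lit 9) 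
(.lf (nat_lit 564649) (.g (nat_lit 2976) (.e (nat_lit 434231) (nat_lit 23) (.e (nat_lit 532550) (nat_lit 12) (.e (nat_lit 360475) (nat_lit 8) (.e (nat_lit 557091) (nat_lit 12) (.e (nat_lit 163840) (nat_lit 0) (.e (nat_lit 6426) (nat_lit 342) (.e (nat_lit 229407) (nat_lit 13) .nil))))))) (.g (nat_lit 1) (.e (nat_lit 327478) (nat_lit 0) .nil) .nil))) 
(.lf (nat_lit 565161) (.g (nat_lit 2419) (.e (nat_lit 434242) (nat_lit 28) (.e (nat_lit 573471) (nat_lit 11) (.e (nat_lit 16471) (nat_lit 14) (.e (nat_lit 491537) (nat_lit 2) .nil)))) (.g (nat_lit 0) (.e (nat_lit 328880) (nat_lit 0) .nil) .nil)))))) (.nd (nat_lit 7) (.nd (nat_lit 8) (.nd (nat_lit 9) 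
(.lf (nat_lit 564329) (.g (nat_lit 4925) (.e (nat_lit 434231) (nat_lit 23) (.e (nat_lit 532500) (nat_lit 1) (.e (nat_lit 57691) (nat_lit 156) (.e (nat_lit 163875) (nat_lit 3) (.e (nat_lit 204837) (nat_lit 20) (.e (nat_lit 114719) (nat_lit 23) (.e (nat_lit 98366) (nat_lit 27) .nil))))))) (.g (nat_lit 1) (.e (nat_lit 325884) (nat_lit 0) .nil) .nil))) 
(.lf (nat_lit 564841) (.g (nat_lit 1419) (.e (nat_lit 434232) (nat_lit 23) (.e (nat_lit 532513) (nat_lit 3) (.e (nat_lit 114714) (nat_lit 22) (.e (nat_lit 90203) (nat_lit 21) .nil)))) (.g (nat_lit 0) (.e (nat_lit 327887) (nat_lit 0) .nil) .nil)))) (.nd (nat_lit 9) 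
(.lf (nat_lit 564585) (.g (nat_lit 2909) (.e (nat_lit 434231) (nat_lit 23) (.e (nat_lit 532550) (nat_lit 12) (.e (nat_lit 360474) (nat_lit 8) (.e (nat_lit 557094) (nat_lit 12) (.e (nat_lit 163847) (nat_lit 0) (.e (nat_lit 6416) (nat_lit 341) (.e (nat_lit 163916) (nat_lit 13) .nil))))))) (.g (nat_lit 1) (.e (nat_lit 327351) (nat_lit 0) .nil) .nil))) 
(.lf (nat_lit 565097) (.g (nat_lit 1991) (.e (nat_lit 434238) (nat_lit 25) (.e (nat_lit 548913) (nat_lit 18) (.e (nat_lit 172120) (nat_lit 12) (.e (nat_lit 475185) (nat_lit 29) (.e (nat_lit 557098) (nat_lit 13) .nil))))) (.g (nat_lit 0) (.e (nat_lit 328785) (nat_lit 0) .nil) .nil))))) (.nd (nat_lit 8) (.nd (nat_lit 9) 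
(.lf (nat_lit 564457) (.g (nat_lit 332) (.e (nat_lit 434231) (nat_lit 23) (.e (nat_lit 532549) (nat_lit 12) (.e (nat_lit 360473) (nat_lit 8) .nil))) (.g (nat_lit 0) (.e (nat_lit 326884) (nat_lit 0) .nil) .nil))) 
(.lf (nat_lit 564969) (.g (nat_lit 3934) (.e (nat_lit 434233) (nat_lit 23) (.e (nat_lit 532550) (nat_lit 12) (.e (nat_lit 360474) (nat_lit 8) (.e (nat_lit 557091) (nat_lit 12) .nil)))) (.g (nat_lit 0) (.e (nat_lit 328194) (nat_lit 0) .nil) .nil)))) (.nd (nat_lit 9) 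
(.lf (nat_lit 564713) (.g (nat_lit 1617) (.e (nat_lit 434231) (nat_lit 23) (.e (nat_lit 532568) (nat_lit 16) (.e (nat_lit 401437) (nat_lit 9) (.e (nat_lit 426402) (nat_lit 15) (.e (nat_lit 1847) (nat_lit 124) .nil))))) (.g (nat_lit 0) (.e (nat_lit 327643) (nat_lit 0) .nil) .nil))) 
(.lf (nat_lit 565225) (.g (nat_lit 4551) (.e (nat_lit 434244) (nat_lit 28) (.e (nat_lit 573450) (nat_lit 9) (.e (nat_lit 442) (nat_lit 33) (.e (nat_lit 434180) (nat_lit 0) (.e (nat_lit 1235) (nat_lit 91) (.e (nat_lit 90170) (nat_lit 13) (.e (nat_lit 172106) (nat_lit 10) .nil))))))) (.g (nat_lit 1) (.e (nat_lit 328976) (nat_lit 0) .nil) .nil)))))))) 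
(.nd (nat_lit 5) (.nd (nat_lit 6) (.nd (nat_lit 7) (.nd (nat_lit 8) (.nd (nat_lit 9) 
(.lf (nat_lit 564249) (.g (nat_lit 3427) (.e (nat_lit 434227) (nat_lit 20) (.e (nat_lit 507946) (nat_lit 18) (.e (nat_lit 303143) (nat_lit 12) (.e (nat_lit 475185) (nat_lit 29) (.e (nat_lit 557101) (nat_lit 13) (.e (nat_lit 172115) (nat_lit 10) .nil)))))) (.g (nat_lit 1) (.e (nat_lit 325742) (nat_lit 0) .nil) .nil))) 
(.lf (nat_lit 564761) (.g (nat_lit 2083) (.e (nat_lit 434231) (nat_lit 23) (.e (nat_lit 532579) (nat_lit 26) (.e (nat_lit 426098) (nat_lit 1) (.e (nat_lit 164403) (nat_lit 256) (.e (nat_lit 57405) (nat_lit 12) .nil))))) (.g (nat_lit 0) (.e (nat_lit 327746) (nat_lit 0) .nil) .nil)))) (.nd (nat_lit 9) 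
(.lf (nat_lit 564505) (.g (nat_lit 2224) (.e (nat_lit 434231) (nat_lit 23) (.e (nat_lit 532549) (nat_lit 12) (.e (nat_lit 360475) (nat_lit 8) (.e (nat_lit 557090) (nat_lit 12) (.e (nat_lit 164020) (nat_lit 45) .nil))))) (.g (nat_lit 0) (.e (nat_lit 327174) (nat_lit 0) .nil) .nil))) 
(.lf (nat_lit 565017) (.g (nat_lit 2233) (.e (nat_lit 434234) (nat_lit 23) (.e (nat_lit 532504) (nat_lit 1) (.e (nat_lit 57691) (nat_lit 156) (.e (nat_lit 163905) (nat_lit 12) (.e (nat_lit 426568) (nat_lit 34) .nil))))) (.g (nat_lit 0) (.e (nat_lit 328317) (nat_lit 0) .nil) .nil))))) (.nd (nat_lit 8) (.nd (nat_lit 9) 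
(.lf (nat_lit 564377) (.g (nat_lit 5134) (.e (nat_lit 434231) (nat_lit 23) (.e (nat_lit 532523) (nat_lit 7) (.e (nat_lit 319528) (nat_lit 16) (.e (nat_lit 286733) (nat_lit 2) (.e (nat_lit 90170) (nat_lit 13) (.e (nat_lit 172115) (nat_lit 10) .nil)))))) (.g (nat_lit 1) (.e (nat_lit 325972) (nat_lit 0) .nil) .nil))) 
(.lf (nat_lit 564889) (.g (nat_lit 956) (.e (nat_lit 434233) (nat_lit 23) (.e (nat_lit 532499) (nat_lit 1) (.e (nat_lit 57687) (nat_lit 156) .nil))) (.g (nat_lit 0) (.e (nat_lit 327992) (nat_lit 0) .nil) .nil)))) (.nd (nat_lit 9) 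
(.lf (nat_lit 564633) (.g (nat_lit 3514) (.e (nat_lit 434231) (nat_lit 23) (.e (nat_lit 532550) (nat_lit 12) (.e (nat_lit 360475) (nat_lit 8) (.e (nat_lit 557089) (nat_lit 12) (.e (nat_lit 164020) (nat_lit 45) (.e (nat_lit 696330) (nat_lit 5) (.e (nat_lit 2965) (nat_lit 185) .nil))))))) (.g (nat_lit 1) (.e (nat_lit 327457) (nat_lit 0) .nil) .nil))) 
(.lf (nat_lit 565145) (.g (nat_lit 4092) (.e (nat_lit 434242) (nat_lit 28) (.e (nat_lit 573471) (nat_lit 11) (.e (nat_lit 16433) (nat_lit 9) (.e (nat_lit 426360) (nat_lit 15) .nil)))) (.g (nat_lit 0) (.e (nat_lit 328862) (nat_lit 0) .nil) .nil)))))) (.nd (nat_lit 7) (.nd (nat_lit 8) (.nd (nat_lit 9) 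
(.lf (nat_lit 564313) (.g (nat_lit 3247) (.e (nat_lit 434231) (nat_lit 23) (.e (nat_lit 532499) (nat_lit 1) (.e (nat_lit 57688) (nat_lit 156) (.e (nat_lit 163905) (nat_lit 12) (.e (nat_lit 426566) (nat_lit 34) (.e (nat_lit 393282) (nat_lit 24) .nil)))))) (.g (nat_lit 1) (.e (nat_lit 325856) (nat_lit 0) .nil) .nil))) 
(.lf (nat_lit 564825) (.g (nat_lit 2481) (.e (nat_lit 434232) (nat_lit 23) (.e (nat_lit 532504) (nat_lit 1) (.e (nat_lit 57690) (nat_lit 156) (.e (nat_lit 163875) (nat_lit 3) (.e (nat_lit 204836) (nat_lit 20) .nil))))) (.g (nat_lit 0) (.e (nat_lit 327869) (nat_lit 0) .nil) .nil)))) (.nd (nat_lit 9) 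
(.lf (nat_lit 564569) (.g (nat_lit 3834) (.e (nat_lit 434231) (nat_lit 23) (.e (nat_lit 532550) (nat_lit 12) (.e (nat_lit 360474) (nat_lit 8) (.e (nat_lit 557091) (nat_lit 12) (.e (nat_lit 164020) (nat_lit 45) (.e (nat_lit 696330) (nat_lit 5) (.e (nat_lit 2980) (nat_lit 185) .nil))))))) (.g (nat_lit 1) (.e (nat_lit 327318) (nat_lit 0) .nil) .nil))) 
(.lf (nat_lit 565081) (.g (nat_lit 2027) (.e (nat_lit 434237) (nat_lit 25) (.e (nat_lit 548913) (nat_lit 18) (.e (nat_lit 172124) (nat_lit 14) (.e (nat_lit 491537) (nat_lit 2) .nil)))) (.g (nat_lit 0) (.e (nat_lit 328493) (nat_lit 0) .nil) .nil))))) (.nd (nat_lit 8) (.nd (nat_lit 9) 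
(.lf (nat_lit 564441) (.g (nat_lit 2658) (.e (nat_lit 434231) (nat_lit 23) (.e (nat_lit 532529) (nat_lit 9) (.e (nat_lit 336336) (nat_lit 20) (.e (nat_lit 221209) (nat_lit 22) .nil)))) (.g (nat_lit 0) (.e (nat_lit 326061) (nat_lit 0) .nil) .nil))) 
(.lf (nat_lit 564953) (.g (nat_lit 1389) (.e (nat_lit 434233) (nat_lit 23) (.e (nat_lit 532523) (nat_lit 7) (.e (nat_lit 319534) (nat_lit 16) (.e (nat_lit 286735) (nat_lit 3) .nil)))) (.g (nat_lit 0) (.e (nat_lit 328148) (nat_lit 0) .nil) .nil)))) (.nd (nat_lit 9) 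
(.lf (nat_lit 564697) (.g (nat_lit 3763) (.e (nat_lit 434231) (nat_lit 23) (.e (nat_lit 532550) (nat_lit 12) (.e (nat_lit 360475) (nat_lit 8) (.e (nat_lit 557091) (nat_lit 12) (.e (nat_lit 164020) (nat_lit 45) (.e (nat_lit 696330) (nat_lit 5) (.e (nat_lit 2965) (nat_lit 185) .nil))))))) (.g (nat_lit 1) (.e (nat_lit 327573) (nat_lit 0) .nil) .nil))) 
(.lf (nat_lit 565209) (.g (nat_lit 2108) (.e (nat_lit 434243) (nat_lit 28) (.e (nat_lit 573474) (nat_lit 12) (.e (nat_lit 57572) (nat_lit 54) (.e (nat_lit 770071) (nat_lit 8) .nil)))) (.g (nat_lit 0) (.e (nat_lit 328955) (nat_lit 0) .nil) .nil))))))) (.nd (nat_lit 6) (.nd (nat_lit 7) (.nd (nat_lit 8) (.nd (nat_lit 9) 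
(.lf (nat_lit 564281) (.g (nat_lit 3108) (.e (nat_lit 434230) (nat_lit 23) (.e (nat_lit 532550) (nat_lit 12) (.e (nat_lit 360475) (nat_lit 8) (.e (nat_lit 557089) (nat_lit 12) .nil)))) (.g (nat_lit 0) (.e (nat_lit 325791) (nat_lit 0) .nil) .nil))) 
(.lf (nat_lit 564793) (.g (nat_lit 2183) (.e (nat_lit 434232) (nat_lit 23) (.e (nat_lit 532499) (nat_lit 1) (.e (nat_lit 57692) (nat_lit 156) (.e (nat_lit 163869) (nat_lit 2) (.e (nat_lit 196624) (nat_lit 9) .nil))))) (.g (nat_lit 0) (.e (nat_lit 327836) (nat_lit 0) .nil) .nil)))) (.nd (nat_lit 9) 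
(.lf (nat_lit 564537) (.g (nat_lit 5059) (.e (nat_lit 434231) (nat_lit 23) (.e (nat_lit 532549) (nat_lit 12) (.e (nat_lit 360475) (nat_lit 8) (.e (nat_lit 557091) (nat_lit 12) (.e (nat_lit 164022) (nat_lit 46) (.e (nat_lit 704629) (nat_lit 9) (.e (nat_lit 452) (nat_lit 33) .nil))))))) (.g (nat_lit 1) (.e (nat_lit 327272) (nat_lit 0) .nil) .nil))) 
(.lf (nat_lit 565049) (.g (nat_lit 2372) (.e (nat_lit 434234) (nat_lit 23) (.e (nat_lit 532569) (nat_lit 16) (.e (nat_lit 401448) (nat_lit 10) (.e (nat_lit 434232) (nat_lit 23) .nil)))) (.g (nat_lit 0) (.e (nat_lit 328383) (nat_lit 0) .nil) .nil))))) (.nd (nat_lit 8) (.nd (nat_lit 9) 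
(.lf (nat_lit 564409) (.g (nat_lit 2432) (.e (nat_lit 434231) (nat_lit 23) (.e (nat_lit 532523) (nat_lit 7) (.e (nat_lit 319531) (nat_lit 16) (.e (nat_lit 286733) (nat_lit 2) (.e (nat_lit 90134) (nat_lit 9) (.e (nat_lit 2879) (nat_lit 184) (.e (nat_lit 426289) (nat_lit 10) .nil))))))) (.g (nat_lit 1) (.e (nat_lit 326011) (nat_lit 0) .nil) .nil))) 
(.lf (nat_lit 564921) (.g (nat_lit 1864) (.e (nat_lit 434233) (nat_lit 23) (.e (nat_lit 532504) (nat_lit 1) (.e (nat_lit 57692) (nat_lit 156) (.e (nat_lit 163875) (nat_lit 3) (.e (nat_lit 204838) (nat_lit 20) .nil))))) (.g (nat_lit 0) (.e (nat_lit 328024) (nat_lit 0) .nil) .nil)))) (.nd (nat_lit 9) 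
(.lf (nat_lit 564665) (.g (nat_lit 3261) (.e (nat_lit 434231) (nat_lit 23) (.e (nat_lit 532550) (nat_lit 12) (.e (nat_lit 360475) (nat_lit 8) (.e (nat_lit 557091) (nat_lit 12) (.e (nat_lit 163849) (nat_lit 0) (.e (nat_lit 6416) (nat_lit 341) (.e (nat_lit 163916) (nat_lit 13) .nil))))))) (.g (nat_lit 1) (.e (nat_lit 327521) (nat_lit 0) .nil) .nil))) 
(.lf (nat_lit 565177) (.g (nat_lit 406) (.e (nat_lit 434242) (nat_lit 28) (.e (nat_lit 573488) (nat_lit 14) (.e (nat_lit 73755) (nat_lit 8) .nil))) (.g (nat_lit 0) (.e (nat_lit 328904) (nat_lit 0) .nil) .nil)))))) (.nd (nat_lit 7) (.nd (nat_lit 8) (.nd (nat_lit 9) 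
(.lf (nat_lit 564345) (.g (nat_lit 4863) (.e (nat_lit 434231) (nat_lit 23) (.e (nat_lit 532514) (nat_lit 3) (.e (nat_lit 114718) (nat_lit 23) (.e (nat_lit 98333) (nat_lit 18) (.e (nat_lit 164403) (nat_lit 256) (.e (nat_lit 57378) (nat_lit 3) (.e (nat_lit 98366) (nat_lit 27) .nil))))))) (.g (nat_lit 1) (.e (nat_lit 325924) (nat_lit 0) .nil) .nil))) 
(.lf (nat_lit 564857) (.g (nat_lit 1750) (.e (nat_lit 434232) (nat_lit 23) (.e (nat_lit 532549) (nat_lit 12) (.e (nat_lit 360473) (nat_lit 8) (.e (nat_lit 557091) (nat_lit 12) .nil)))) (.g (nat_lit 0) (.e (nat_lit 327918) (nat_lit 0) .nil) .nil)))) (.nd (nat_lit 9) 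
(.lf (nat_lit 564601) (.g (nat_lit 4048) (.e (nat_lit 434231) (nat_lit 23) (.e (nat_lit 532550) (nat_lit 12) (.e (nat_lit 360475) (nat_lit 8) (.e (nat_lit 557088) (nat_lit 12) (.e (nat_lit 164020) (nat_lit 45) .nil))))) (.g (nat_lit 0) (.e (nat_lit 327398) (nat_lit 0) .nil) .nil))) 
(.lf (nat_lit 565113) (.g (nat_lit 5599) (.e (nat_lit 434238) (nat_lit 25) (.e (nat_lit 548913) (nat_lit 18) (.e (nat_lit 172126) (nat_lit 14) (.e (nat_lit 491537) (nat_lit 2) (.e (nat_lit 90170) (nat_lit 13) (.e (nat_lit 172113) (nat_lit 10) .nil)))))) (.g (nat_lit 1) (.e (nat_lit 328801) (nat_lit 0) .nil) .nil))))) (.nd (nat_lit 8) (.nd (nat_lit 9) 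
(.lf (nat_lit 564473) (.g (nat_lit 2198) (.e (nat_lit 434231) (nat_lit 23) (.e (nat_lit 532549) (nat_lit 12) (.e (nat_lit 360473) (nat_lit 8) (.e (nat_lit 557091) (nat_lit 12) (.e (nat_lit 164019) (nat_lit 45) .nil))))) (.g (nat_lit 0) (.e (nat_lit 327030) (nat_lit 0) .nil) .nil))) 
(.lf (nat_lit 564985) (.g (nat_lit 2539) (.e (nat_lit 434233) (nat_lit 23) (.e (nat_lit 532569) (nat_lit 16) (.e (nat_lit 401448) (nat_lit 10) (.e (nat_lit 434230) (nat_lit 23) .nil)))) (.g (nat_lit 0) (.e (nat_lit 328242) (nat_lit 0) .nil) .nil)))) (.nd (nat_lit 9) 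
(.lf (nat_lit 564729) (.g (nat_lit 2539) (.e (nat_lit 434231) (nat_lit 23) (.e (nat_lit 532569) (nat_lit 16) (.e (nat_lit 401443) (nat_lit 9) (.e (nat_lit 426133) (nat_lit 3) (.e (nat_lit 204885) (nat_lit 33) .nil))))) (.g (nat_lit 0) (.e (nat_lit 327675) (nat_lit 0) .nil) .nil))) 
(.lf (nat_lit 565241) (.g (nat_lit 3939) (.e (nat_lit 434244) (nat_lit 28) (.e (nat_lit 573451) (nat_lit 9) (.e (nat_lit 498) (nat_lit 40) (.e (nat_lit 491563) (nat_lit 12) (.e (nat_lit 385067) (nat_lit 26) (.e (nat_lit 532515) (nat_lit 3) (.e (nat_lit 122624) (nat_lit 12) .nil))))))) (.g (nat_lit 1) (.e (nat_lit 329005) (nat_lit 0) .nil) .nil)))))))))) 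
(.nd (nat_lit 3) (.nd (nat_lit 4) (.nd (nat_lit 5) (.nd (nat_lit 6) (.nd (nat_lit 7) 
(.nd (nat_lit 8) (.nd (nat_lit 9) 
(.lf (nat_lit 564229) (.g (nat_lit 1157) (.e (nat_lit 434222) (nat_lit 19) (.e (nat_lit 500046) (nat_lit 16) (.e (nat_lit 16412) (nat_lit 2) (.e (nat_lit 196653) (nat_lit 11) .nil)))) (.g (nat_lit 0) (.e (nat_lit 325583) (nat_lit 0) .nil) .nil))) 
(.lf (nat_lit 564741) (.g (nat_lit 3833) (.e (nat_lit 434231) (nat_lit 23) (.e (nat_lit 532569) (nat_lit 16) (.e (nat_lit 401448) (nat_lit 10) (.e (nat_lit 434232) (nat_lit 23) (.e (nat_lit 532569) (nat_lit 16) (.e (nat_lit 401446) (nat_lit 10) .nil)))))) (.g (nat_lit 1) (.e (nat_lit 327706) (nat_lit 0) .nil) .nil)))) (.nd (nat_lit 9) 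
(.lf (nat_lit 564485) (.g (nat_lit 4049) (.e (nat_lit 434231) (nat_lit 23) (.e (nat_lit 532549) (nat_lit 12) (.e (nat_lit 360474) (nat_lit 8) (.e (nat_lit 557091) (nat_lit 12) (.e (nat_lit 164020) (nat_lit 45) (.e (nat_lit 696328) (nat_lit 5) (.e (nat_lit 2980) (nat_lit 185) .nil))))))) (.g (nat_lit 1) (.e (nat_lit 327095) (nat_lit 0) .nil) .nil))) 
(.lf (nat_lit 564997) (.g (nat_lit 2320) (.e (nat_lit 434234) (nat_lit 23) (.e (nat_lit 532499) (nat_lit 1) (.e (nat_lit 57692) (nat_lit 156) (.e (nat_lit 163875) (nat_lit 3) (.e (nat_lit 204836) (nat_lit 20) .nil))))) (.g (nat_lit 0) (.e (nat_lit 328297) (nat_lit 0) .nil) .nil))))) (.nd (nat_lit 8) (.nd (nat_lit 9) 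
(.lf (nat_lit 564357) (.g (nat_lit 2898) (.e (nat_lit 434231) (nat_lit 23) (.e (nat_lit 532522) (nat_lit 7) (.e (nat_lit 319530) (nat_lit 16) (.e (nat_lit 286733) (nat_lit 2) (.e (nat_lit 90134) (nat_lit 9) (.e (nat_lit 2886) (nat_lit 184) (.e (nat_lit 426290) (nat_lit 10) .nil))))))) (.g (nat_lit 1) (.e (nat_lit 325950) (nat_lit 0) .nil) .nil))) 
(.lf (nat_lit 564869) (.g (nat_lit 5790) (.e (nat_lit 434232) (nat_lit 23) (.e (nat_lit 532550) (nat_lit 12) (.e (nat_lit 360474) (nat_lit 8) (.e (nat_lit 557093) (nat_lit 12) (.e (nat_lit 164022) (nat_lit 46) (.e (nat_lit 704629) (nat_lit 9) (.e (nat_lit 452) (nat_lit 33) .nil))))))) (.g (nat_lit 1) (.e (nat_lit 327936) (nat_lit 0) .nil) .nil)))) (.nd (nat_lit 9) 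
(.lf (nat_lit 564613) (.g (nat_lit 3872) (.e (nat_lit 434231) (nat_lit 23) (.e (nat_lit 532550) (nat_lit 12) (.e (nat_lit 360475) (nat_lit 8) (.e (nat_lit 557089) (nat_lit 12) (.e (nat_lit 163849) (nat_lit 0) (.e (nat_lit 6416) (nat_lit 341) (.e (nat_lit 163917) (nat_lit 13) .nil))))))) (.g (nat_lit 1) (.e (nat_lit 327429) (nat_lit 0) .nil) .nil))) 
(.lf (nat_lit 565125) (.g (nat_lit 2925) (.e (nat_lit 434242) (nat_lit 28) (.e (nat_lit 573450) (nat_lit 9) (.e (nat_lit 375) (nat_lit 32) (.e (nat_lit 426340) (nat_lit 14) (.e (nat_lit 491537) (nat_lit 2) .nil))))) (.g (nat_lit 0) (.e (nat_lit 328840) (nat_lit 0) .nil) .nil)))))) (.nd (nat_lit 7) (.nd (nat_lit 8) (.nd (nat_lit 9) 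
(.lf (nat_lit 564293) (.g (nat_lit 2991) (.e (nat_lit 434230) (nat_lit 23) (.e (nat_lit 532569) (nat_lit 16) (.e (nat_lit 401446) (nat_lit 10) (.e (nat_lit 434231) (nat_lit 23) (.e (nat_lit 532569) (nat_lit 16) (.e (nat_lit 401448) (nat_lit 10) .nil)))))) (.g (nat_lit 1) (.e (nat_lit 325805) (nat_lit 0) .nil) .nil))) 
(.lf (nat_lit 564805) (.g (nat_lit 1560) (.e (nat_lit 434232) (nat_lit 23) (.e (nat_lit 532502) (nat_lit 1) (.e (nat_lit 57688) (nat_lit 156) (.e (nat_lit 163903) (nat_lit 12) (.e (nat_lit 426568) (nat_lit 34) .nil))))) (.g (nat_lit 0) (.e (nat_lit 327848) (nat_lit 0) .nil) .nil)))) (.nd (nat_lit 9) 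
(.lf (nat_lit 564549) (.g (nat_lit 3534) (.e (nat_lit 434231) (nat_lit 23) (.e (nat_lit 532550) (nat_lit 12) (.e (nat_lit 360473) (nat_lit 8) (.e (nat_lit 557090) (nat_lit 12) (.e (nat_lit 164020) (nat_lit 45) (.e (nat_lit 696329) (nat_lit 5) (.e (nat_lit 2980) (nat_lit 185) .nil))))))) (.g (nat_lit 1) (.e (nat_lit 327296) (nat_lit 0) .nil) .nil))) 
(.lf (nat_lit 565061) (.g (nat_lit 2290) (.e (nat_lit 434235) (nat_lit 24) (.e (nat_lit 540706) (nat_lit 12) (.e (nat_lit 360475) (nat_lit 8) (.e (nat_lit 557089) (nat_lit 12) .nil)))) (.g (nat_lit 0) (.e (nat_lit 328415) (nat_lit 0) .nil) .nil))))) (.nd (nat_lit 8) (.nd (nat_lit 9) 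
(.lf (nat_lit 564421) (.g (nat_lit 1793) (.e (nat_lit 434231) (nat_lit 23) (.e (nat_lit 532523) (nat_lit 7) (.e (nat_lit 319533) (nat_lit 16) (.e (nat_lit 286735) (nat_lit 3) .nil)))) (.g (nat_lit 0) (.e (nat_lit 326023) (nat_lit 0) .nil) .nil))) 
(.lf (nat_lit 564933) (.g (nat_lit 1293) (.e (nat_lit 434233) (nat_lit 23) (.e (nat_lit 532523) (nat_lit 7) (.e (nat_lit 319531) (nat_lit 16) (.e (nat_lit 286735) (nat_lit 3) .nil)))) (.g (nat_lit 0) (.e (nat_lit 328094) (nat_lit 0) .nil) .nil)))) (.nd (nat_lit 9) 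
(.lf (nat_lit 564677) (.g (nat_lit 2096) (.e (nat_lit 434231) (nat_lit 23) (.e (nat_lit 532550) (nat_lit 12) (.e (nat_lit 360475) (nat_lit 8) (.e (nat_lit 557091) (nat_lit 12) (.e (nat_lit 163852) (nat_lit 0) .nil))))) (.g (nat_lit 0) (.e (nat_lit 327533) (nat_lit 0) .nil) .nil))) 
(.lf (nat_lit 565189) (.g (nat_lit 1424) (.e (nat_lit 434242) (nat_lit 28) (.e (nat_lit 573488) (nat_lit 14) (.e (nat_lit 73755) (nat_lit 8) (.e (nat_lit 557091) (nat_lit 12) .nil)))) (.g (nat_lit 0) (.e (nat_lit 328928) (nat_lit 0) .nil) .nil))))))) (.nd (nat_lit 6) (.nd (nat_lit 7) (.nd (nat_lit 8) (.nd (nat_lit 9) 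
(.lf (nat_lit 564261) (.g (nat_lit 1541) (.e (nat_lit 434230) (nat_lit 23) (.e (nat_lit 532523) (nat_lit 7) (.e (nat_lit 319504) (nat_lit 10) (.e (nat_lit 5272) (nat_lit 298) .nil)))) (.g (nat_lit 0) (.e (nat_lit 325755) (nat_lit 0) .nil) .nil))) 
(.lf (nat_lit 564773) (.g (nat_lit 1819) (.e (nat_lit 434231) (nat_lit 23) (.e (nat_lit 532579) (nat_lit 26) (.e (nat_lit 426139) (nat_lit 3) (.e (nat_lit 204842) (nat_lit 22) .nil)))) (.g (nat_lit 0) (.e (nat_lit 327813) (nat_lit 0) .nil) .nil)))) (.nd (nat_lit 9) 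
(.lf (nat_lit 564517) (.g (nat_lit 4316) (.e (nat_lit 434231) (nat_lit 23) (.e (nat_lit 532549) (nat_lit 12) (.e (nat_lit 360475) (nat_lit 8) (.e (nat_lit 557091) (nat_lit 12) (.e (nat_lit 163852) (nat_lit 0) (.e (nat_lit 6427) (nat_lit 342) (.e (nat_lit 229409) (nat_lit 13) .nil))))))) (.g (nat_lit 1) (.e (nat_lit 327232) (nat_lit 0) .nil) .nil))) 
(.lf (nat_lit 565029) (.g (nat_lit 1883) (.e (nat_lit 434234) (nat_lit 23) (.e (nat_lit 532523) (nat_lit 7) (.e (nat_lit 319504) (nat_lit 10) (.e (nat_lit 5390) (nat_lit 301) .nil)))) (.g (nat_lit 0) (.e (nat_lit 328335) (nat_lit 0) .nil) .nil))))) (.nd (nat_lit 8) (.nd (nat_lit 9) 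
(.lf (nat_lit 564389) (.g (nat_lit 3770) (.e (nat_lit 434231) (nat_lit 23) (.e (nat_lit 532523) (nat_lit 7) (.e (nat_lit 319530) (nat_lit 16) (.e (nat_lit 286733) (nat_lit 2) (.e (nat_lit 90134) (nat_lit 9) (.e (nat_lit 2872) (nat_lit 184) (.e (nat_lit 426289) (nat_lit 10) .nil))))))) (.g (nat_lit 1) (.e (nat_lit 325987) (nat_lit 0) .nil) .nil))) 
(.lf (nat_lit 564901) (.g (nat_lit 2191) (.e (nat_lit 434233) (nat_lit 23) (.e (nat_lit 532499) (nat_lit 1) (.e (nat_lit 57691) (nat_lit 156) (.e (nat_lit 163907) (nat_lit 12) (.e (nat_lit 426568) (nat_lit 34) (.e (nat_lit 393282) (nat_lit 24) .nil)))))) (.g (nat_lit 1) (.e (nat_lit 328004) (nat_lit 0) .nil) .nil)))) (.nd (nat_lit 9) 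
(.lf (nat_lit 564645) (.g (nat_lit 2737) (.e (nat_lit 434231) (nat_lit 23) (.e (nat_lit 532550) (nat_lit 12) (.e (nat_lit 360475) (nat_lit 8) (.e (nat_lit 557091) (nat_lit 12) (.e (nat_lit 163840) (nat_lit 0) (.e (nat_lit 6418) (nat_lit 341) (.e (nat_lit 163917) (nat_lit 13) .nil))))))) (.g (nat_lit 1) (.e (nat_lit 327474) (nat_lit 0) .nil) .nil))) 
(.lf (nat_lit 565157) (.g (nat_lit 3897) (.e (nat_lit 434242) (nat_lit 28) (.e (nat_lit 573471) (nat_lit 11) (.e (nat_lit 16470) (nat_lit 14) (.e (nat_lit 491536) (nat_lit 2) .nil)))) (.g (nat_lit 0) (.e (nat_lit 328876) (nat_lit 0) .nil) .nil)))))) (.nd (nat_lit 7) (.nd (nat_lit 8) (.nd (nat_lit 9) 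
(.lf (nat_lit 564325) (.g (nat_lit 4169) (.e (nat_lit 434231) (nat_lit 23) (.e (nat_lit 532500) (nat_lit 1) (.e (nat_lit 57691) (nat_lit 156) (.e (nat_lit 163875) (nat_lit 3) (.e (nat_lit 204836) (nat_lit 20) (.e (nat_lit 114719) (nat_lit 23) (.e (nat_lit 98366) (nat_lit 27) .nil))))))) (.g (nat_lit 1) (.e (nat_lit 325880) (nat_lit 0) .nil) .nil))) 
(.lf (nat_lit 564837) (.g (nat_lit 1495) (.e (nat_lit 434232) (nat_lit 23) (.e (nat_lit 532513) (nat_lit 3) (.e (nat_lit 114714) (nat_lit 22) (.e (nat_lit 90115) (nat_lit 0) .nil)))) (.g (nat_lit 0) (.e (nat_lit 327883) (nat_lit 0) .nil) .nil)))) (.nd (nat_lit 9) 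
(.lf (nat_lit 564581) (.g (nat_lit 3711) (.e (nat_lit 434231) (nat_lit 23) (.e (nat_lit 532550) (nat_lit 12) (.e (nat_lit 360474) (nat_lit 8) (.e (nat_lit 557093) (nat_lit 12) (.e (nat_lit 164022) (nat_lit 46) (.e (nat_lit 704629) (nat_lit 9) (.e (nat_lit 450) (nat_lit 33) .nil))))))) (.g (nat_lit 1) (.e (nat_lit 327342) (nat_lit 0) .nil) .nil))) 
(.lf (nat_lit 565093) (.g (nat_lit 4441) (.e (nat_lit 434238) (nat_lit 25) (.e (nat_lit 548913) (nat_lit 18) (.e (nat_lit 172094) (nat_lit 9) (.e (nat_lit 426125) (nat_lit 2) (.e (nat_lit 196643) (nat_lit 9) (.e (nat_lit 1673) (nat_lit 116) (.e (nat_lit 401447) (nat_lit 10) .nil))))))) (.g (nat_lit 1) (.e (nat_lit 328705) (nat_lit 0) .nil) .nil))))) (.nd (nat_lit 8) (.nd (nat_lit 9) 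
(.lf (nat_lit 564453) (.g (nat_lit 3217) (.e (nat_lit 434231) (nat_lit 23) (.e (nat_lit 532549) (nat_lit 12) (.e (nat_lit 360472) (nat_lit 8) (.e (nat_lit 557090) (nat_lit 12) (.e (nat_lit 164020) (nat_lit 45) (.e (nat_lit 696328) (nat_lit 5) (.e (nat_lit 2964) (nat_lit 185) .nil))))))) (.g (nat_lit 1) (.e (nat_lit 326879) (nat_lit 0) .nil) .nil))) 
(.lf (nat_lit 564965) (.g (nat_lit 1924) (.e (nat_lit 434233) (nat_lit 23) (.e (nat_lit 532549) (nat_lit 12) (.e (nat_lit 360473) (nat_lit 8) (.e (nat_lit 557094) (nat_lit 12) (.e (nat_lit 164022) (nat_lit 46) .nil))))) (.g (nat_lit 0) (.e (nat_lit 328186) (nat_lit 0) .nil) .nil)))) (.nd (nat_lit 9) 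
(.lf (nat_lit 564709) (.g (nat_lit 2119) (.e (nat_lit 434231) (nat_lit 23) (.e (nat_lit 532563) (nat_lit 15) (.e (nat_lit 385109) (nat_lit 51) (.e (nat_lit 794642) (nat_lit 20) (.e (nat_lit 3130) (nat_lit 193) .nil))))) (.g (nat_lit 0) (.e (nat_lit 327617) (nat_lit 0) .nil) .nil))) 
(.lf (nat_lit 565221) (.g (nat_lit 1801) (.e (nat_lit 434244) (nat_lit 28) (.e (nat_lit 573450) (nat_lit 9) (.e (nat_lit 375) (nat_lit 32) (.e (nat_lit 426295) (nat_lit 11) .nil)))) (.g (nat_lit 0) (.e (nat_lit 328972) (nat_lit 0) .nil) .nil)))))))) (.nd (nat_lit 5) (.nd (nat_lit 6) (.nd (nat_lit 7) (.nd (nat_lit 8) (.nd (nat_lit 9) 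
(.lf (nat_lit 564245) (.g (nat_lit 2767) (.e (nat_lit 434227) (nat_lit 20) (.e (nat_lit 507946) (nat_lit 18) (.e (nat_lit 303142) (nat_lit 12) (.e (nat_lit 475185) (nat_lit 29) (.e (nat_lit 557101) (nat_lit 13) (.e (nat_lit 172115) (nat_lit 10) .nil)))))) (.g (nat_lit 1) (.e (nat_lit 325738) (nat_lit 0) .nil) .nil))) 
(.lf (nat_lit 564757) (.g (nat_lit 3327) (.e (nat_lit 434231) (nat_lit 23) (.e (nat_lit 532569) (nat_lit 16) (.e (nat_lit 401453) (nat_lit 12) (.e (nat_lit 475183) (nat_lit 29) (.e (nat_lit 557100) (nat_lit 13) (.e (nat_lit 172106) (nat_lit 10) .nil)))))) (.g (nat_lit 1) (.e (nat_lit 327742) (nat_lit 0) .nil) .nil)))) (.nd (nat_lit 9) 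
(.lf (nat_lit 564501) (.g (nat_lit 4058) (.e (nat_lit 434231) (nat_lit 23) (.e (nat_lit 532549) (nat_lit 12) (.e (nat_lit 360475) (nat_lit 8) (.e (nat_lit 557089) (nat_lit 12) (.e (nat_lit 164020) (nat_lit 45) (.e (nat_lit 696329) (nat_lit 5) (.e (nat_lit 2964) (nat_lit 185) .nil))))))) (.g (nat_lit 1) (.e (nat_lit 327167) (nat_lit 0) .nil) .nil))) 
(.lf (nat_lit 565013) (.g (nat_lit 2252) (.e (nat_lit 434234) (nat_lit 23) (.e (nat_lit 532503) (nat_lit 1) (.e (nat_lit 57688) (nat_lit 156) (.e (nat_lit 163871) (nat_lit 2) (.e (nat_lit 196624) (nat_lit 9) .nil))))) (.g (nat_lit 0) (.e (nat_lit 328313) (nat_lit 0) .nil) .nil))))) (.nd (nat_lit 8) (.nd (nat_lit 9) 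
(.lf (nat_lit 564373) (.g (nat_lit 4336) (.e (nat_lit 434231) (nat_lit 23) (.e (nat_lit 532522) (nat_lit 7) (.e (nat_lit 319535) (nat_lit 17) (.e (nat_lit 294928) (nat_lit 2) (.e (nat_lit 90170) (nat_lit 13) (.e (nat_lit 172106) (nat_lit 10) .nil)))))) (.g (nat_lit 1) (.e (nat_lit 325967) (nat_lit 0) .nil) .nil))) 
(.lf (nat_lit 564885) (.g (nat_lit 3007) (.e (nat_lit 434232) (nat_lit 23) (.e (nat_lit 532569) (nat_lit 16) (.e (nat_lit 401447) (nat_lit 10) (.e (nat_lit 434231) (nat_lit 23) (.e (nat_lit 532569) (nat_lit 16) .nil))))) (.g (nat_lit 0) (.e (nat_lit 327971) (nat_lit 0) .nil) .nil)))) (.nd (nat_lit 9) 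
(.lf (nat_lit 564629) (.g (nat_lit 2451) (.e (nat_lit 434231) (nat_lit 23) (.e (nat_lit 532550) (nat_lit 12) (.e (nat_lit 360475) (nat_lit 8) (.e (nat_lit 557089) (nat_lit 12) (.e (nat_lit 164020) (nat_lit 45) (.e (nat_lit 696328) (nat_lit 5) (.e (nat_lit 2964) (nat_lit 185) .nil))))))) (.g (nat_lit 1) (.e (nat_lit 327453) (nat_lit 0) .nil) .nil))) 
(.lf (nat_lit 565141) (.g (nat_lit 1972) (.e (nat_lit 434242) (nat_lit 28) (.e (nat_lit 573471) (nat_lit 11) (.e (nat_lit 16396) (nat_lit 0) (.e (nat_lit 7556) (nat_lit 402) .nil)))) (.g (nat_lit 0) (.e (nat_lit 328857) (nat_lit 0) .nil) .nil)))))) (.nd (nat_lit 7) (.nd (nat_lit 8) (.nd (nat_lit 9) 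
(.lf (nat_lit 564309) (.g (nat_lit 3936) (.e (nat_lit 434231) (nat_lit 23) (.e (nat_lit 532499) (nat_lit 1) (.e (nat_lit 57688) (nat_lit 156) (.e (nat_lit 163902) (nat_lit 12) (.e (nat_lit 426568) (nat_lit 34) (.e (nat_lit 393283) (nat_lit 24) .nil)))))) (.g (nat_lit 1) (.e (nat_lit 325850) (nat_lit 0) .nil) .nil))) 
(.lf (nat_lit 564821) (.g (nat_lit 916) (.e (nat_lit 434232) (nat_lit 23) (.e (nat_lit 532504) (nat_lit 1) (.e (nat_lit 57685) (nat_lit 156) .nil))) (.g (nat_lit 0) (.e (nat_lit 327865) (nat_lit 0) .nil) .nil)))) (.nd (nat_lit 9) 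
(.lf (nat_lit 564565) (.g (nat_lit 3771) (.e (nat_lit 434231) (nat_lit 23) (.e (nat_lit 532550) (nat_lit 12) (.e (nat_lit 360474) (nat_lit 8) (.e (nat_lit 557091) (nat_lit 12) (.e (nat_lit 164020) (nat_lit 45) (.e (nat_lit 696327) (nat_lit 5) (.e (nat_lit 2964) (nat_lit 185) .nil))))))) (.g (nat_lit 1) (.e (nat_lit 327314) (nat_lit 0) .nil) .nil))) 
(.lf (nat_lit 565077) (.g (nat_lit 1702) (.e (nat_lit 442112) (nat_lit 21) (.e (nat_lit 516130) (nat_lit 3) (.e (nat_lit 221215) (nat_lit 23) (.e (nat_lit 204862) (nat_lit 27) (.e (nat_lit 344123) (nat_lit 24) .nil))))) (.g (nat_lit 0) (.e (nat_lit 328435) (nat_lit 0) .nil) .nil))))) (.nd (nat_lit 8) (.nd (nat_lit 9) 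
(.lf (nat_lit 564437) (.g (nat_lit 4292) (.e (nat_lit 434231) (nat_lit 23) (.e (nat_lit 532526) (nat_lit 8) (.e (nat_lit 327717) (nat_lit 17) (.e (nat_lit 294928) (nat_lit 2) (.e (nat_lit 90170) (nat_lit 13) (.e (nat_lit 172106) (nat_lit 10) .nil)))))) (.g (nat_lit 1) (.e (nat_lit 326043) (nat_lit 0) .nil) .nil))) 
(.lf (nat_lit 564949) (.g (nat_lit 2548) (.e (nat_lit 434233) (nat_lit 23) (.e (nat_lit 532523) (nat_lit 7) (.e (nat_lit 319534) (nat_lit 16) (.e (nat_lit 286733) (nat_lit 2) (.e (nat_lit 90169) (nat_lit 13) (.e (nat_lit 172111) (nat_lit 10) .nil)))))) (.g (nat_lit 1) (.e (nat_lit 328144) (nat_lit 0) .nil) .nil)))) (.nd (nat_lit 9) 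
(.lf (nat_lit 564693) (.g (nat_lit 4161) (.e (nat_lit 434231) (nat_lit 23) (.e (nat_lit 532550) (nat_lit 12) (.e (nat_lit 360475) (nat_lit 8) (.e (nat_lit 557091) (nat_lit 12) (.e (nat_lit 164020) (nat_lit 45) (.e (nat_lit 696327) (nat_lit 5) (.e (nat_lit 2978) (nat_lit 185) .nil))))))) (.g (nat_lit 1) (.e (nat_lit 327569) (nat_lit 0) .nil) .nil))) 
(.lf (nat_lit 565205) (.g (nat_lit 1054) (.e (nat_lit 434243) (nat_lit 28) (.e (nat_lit 573471) (nat_lit 11) (.e (nat_lit 16442) (nat_lit 9) (.e (nat_lit 426135) (nat_lit 3) .nil)))) (.g (nat_lit 0) (.e (nat_lit 328949) (nat_lit 0) .nil) .nil))))))) (.nd (nat_lit 6) (.nd (nat_lit 7) (.nd (nat_lit 8) (.nd (nat_lit 9) 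
(.lf (nat_lit 564277) (.g (nat_lit 3727) (.e (nat_lit 434230) (nat_lit 23) (.e (nat_lit 532550) (nat_lit 12) (.e (nat_lit 360474) (nat_lit 8) (.e (nat_lit 557093) (nat_lit 12) (.e (nat_lit 171776) (nat_lit 49) .nil))))) (.g (nat_lit 0) (.e (nat_lit 325784) (nat_lit 0) .nil) .nil))) 
(.lf (nat_lit 564789) (.g (nat_lit 2435) (.e (nat_lit 434232) (nat_lit 23) (.e (nat_lit 532499) (nat_lit 1) (.e (nat_lit 57691) (nat_lit 156) (.e (nat_lit 163875) (nat_lit 3) (.e (nat_lit 204836) (nat_lit 20) .nil))))) (.g (nat_lit 0) (.e (nat_lit 327832) (nat_lit 0) .nil) .nil)))) (.nd (nat_lit 9) 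
(.lf (nat_lit 564533) (.g (nat_lit 4364) (.e (nat_lit 434231) (nat_lit 23) (.e (nat_lit 532549) (nat_lit 12) (.e (nat_lit 360475) (nat_lit 8) (.e (nat_lit 557091) (nat_lit 12) (.e (nat_lit 164020) (nat_lit 45) (.e (nat_lit 696330) (nat_lit 5) (.e (nat_lit 2964) (nat_lit 185) .nil))))))) (.g (nat_lit 1) (.e (nat_lit 327260) (nat_lit 0) .nil) .nil))) 
(.lf (nat_lit 565045) (.g (nat_lit 6147) (.e (nat_lit 434234) (nat_lit 23) (.e (nat_lit 532550) (nat_lit 12) (.e (nat_lit 360475) (nat_lit 8) (.e (nat_lit 557094) (nat_lit 12) .nil)))) (.g (nat_lit 0) (.e (nat_lit 328359) (nat_lit 0) .nil) .nil))))) (.nd (nat_lit 8) (.nd (nat_lit 9) 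
(.lf (nat_lit 564405) (.g (nat_lit 2764) (.e (nat_lit 434231) (nat_lit 23) (.e (nat_lit 532523) (nat_lit 7) (.e (nat_lit 319531) (nat_lit 16) (.e (nat_lit 286733) (nat_lit 2) (.e (nat_lit 90134) (nat_lit 9) (.e (nat_lit 2842) (nat_lit 184) (.e (nat_lit 426290) (nat_lit 10) .nil))))))) (.g (nat_lit 1) (.e (nat_lit 326005) (nat_lit 0) .nil) .nil))) 
(.lf (nat_lit 564917) (.g (nat_lit 660) (.e (nat_lit 434233) (nat_lit 23) (.e (nat_lit 532503) (nat_lit 1) (.e (nat_lit 57693) (nat_lit 157) .nil))) (.g (nat_lit 0) (.e (nat_lit 328020) (nat_lit 0) .nil) .nil)))) (.nd (nat_lit 9) 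
(.lf (nat_lit 564661) (.g (nat_lit 3686) (.e (nat_lit 434231) (nat_lit 23) (.e (nat_lit 532550) (nat_lit 12) (.e (nat_lit 360475) (nat_lit 8) (.e (nat_lit 557091) (nat_lit 12) (.e (nat_lit 163844) (nat_lit 0) (.e (nat_lit 6418) (nat_lit 341) (.e (nat_lit 163917) (nat_lit 13) .nil))))))) (.g (nat_lit 1) (.e (nat_lit 327508) (nat_lit 0) .nil) .nil))) 
(.lf (nat_lit 565173) (.g (nat_lit 1314) (.e (nat_lit 434242) (nat_lit 28) (.e (nat_lit 573477) (nat_lit 12) (.e (nat_lit 57575) (nat_lit 55) (.e (nat_lit 778460) (nat_lit 11) (.e (nat_lit 24605) (nat_lit 2) .nil))))) (.g (nat_lit 0) (.e (nat_lit 328893) (nat_lit 0) .nil) .nil)))))) (.nd (nat_lit 7) (.nd (nat_lit 8) (.nd (nat_lit 9) 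
(.lf (nat_lit 564341) (.g (nat_lit 3333) (.e (nat_lit 434231) (nat_lit 23) (.e (nat_lit 532513) (nat_lit 3) (.e (nat_lit 114718) (nat_lit 23) (.e (nat_lit 98333) (nat_lit 18) (.e (nat_lit 164398) (nat_lit 256) (.e (nat_lit 57378) (nat_lit 3) (.e (nat_lit 98366) (nat_lit 27) .nil))))))) (.g (nat_lit 1) (.e (nat_lit 325909) (nat_lit 0) .nil) .nil))) 
(.lf (nat_lit 564853) (.g (nat_lit 1417) (.e (nat_lit 434232) (nat_lit 23) (.e (nat_lit 532530) (nat_lit 9) (.e (nat_lit 336332) (nat_lit 19) (.e (nat_lit 213000) (nat_lit 9) .nil)))) (.g (nat_lit 0) (.e (nat_lit 327907) (nat_lit 0) .nil) .nil)))) (.nd (nat_lit 9) 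
(.lf (nat_lit 564597) (.g (nat_lit 4025) (.e (nat_lit 434231) (nat_lit 23) (.e (nat_lit 532550) (nat_lit 12) (.e (nat_lit 360474) (nat_lit 8) (.e (nat_lit 557094) (nat_lit 12) (.e (nat_lit 164022) (nat_lit 46) (.e (nat_lit 704628) (nat_lit 9) (.e (nat_lit 452) (nat_lit 33) .nil))))))) (.g (nat_lit 1) (.e (nat_lit 327372) (nat_lit 0) .nil) .nil))) 
(.lf (nat_lit 565109) (.g (nat_lit 3963) (.e (nat_lit 434238) (nat_lit 25) (.e (nat_lit 548913) (nat_lit 18) (.e (nat_lit 172126) (nat_lit 14) (.e (nat_lit 491536) (nat_lit 2) (.e (nat_lit 90170) (nat_lit 13) (.e (nat_lit 172106) (nat_lit 10) .nil)))))) (.g (nat_lit 1) (.e (nat_lit 328797) (nat_lit 0) .nil) .nil))))) (.nd (nat_lit 8) (.nd (nat_lit 9) 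
(.lf (nat_lit 564469) (.g (nat_lit 3522) (.e (nat_lit 434231) (nat_lit 23) (.e (nat_lit 532549) (nat_lit 12) (.e (nat_lit 360473) (nat_lit 8) (.e (nat_lit 557091) (nat_lit 12) (.e (nat_lit 164018) (nat_lit 45) (.e (nat_lit 696327) (nat_lit 5) (.e (nat_lit 2980) (nat_lit 185) .nil))))))) (.g (nat_lit 1) (.e (nat_lit 327026) (nat_lit 0) .nil) .nil))) 
(.lf (nat_lit 564981) (.g (nat_lit 5150) (.e (nat_lit 434233) (nat_lit 23) (.e (nat_lit 532550) (nat_lit 12) (.e (nat_lit 360475) (nat_lit 8) (.e (nat_lit 557094) (nat_lit 12) .nil)))) (.g (nat_lit 0) (.e (nat_lit 328210) (nat_lit 0) .nil) .nil)))) (.nd (nat_lit 9) 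
(.lf (nat_lit 564725) (.g (nat_lit 4876) (.e (nat_lit 434231) (nat_lit 23) (.e (nat_lit 532569) (nat_lit 16) (.e (nat_lit 401434) (nat_lit 9) (.e (nat_lit 426140) (nat_lit 3) (.e (nat_lit 204885) (nat_lit 33) (.e (nat_lit 401448) (nat_lit 10) .nil)))))) (.g (nat_lit 1) (.e (nat_lit 327669) (nat_lit 0) .nil) .nil))) 
(.lf (nat_lit 565237) (.g (nat_lit 4422) (.e (nat_lit 434244) (nat_lit 28) (.e (nat_lit 573451) (nat_lit 9) (.e (nat_lit 430) (nat_lit 32) (.e (nat_lit 426344) (nat_lit 14) (.e (nat_lit 491536) (nat_lit 2) (.e (nat_lit 90170) (nat_lit 13) (.e (nat_lit 172106) (nat_lit 10) .nil))))))) (.g (nat_lit 1) (.e (nat_lit 328997) (nat_lit 0) .nil) .nil))))))))) 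
(.nd (nat_lit 4) (.nd (nat_lit 5) (.nd (nat_lit 6) (.nd (nat_lit 7) (.nd (nat_lit 8) 
(.nd (nat_lit 9) 
(.lf (nat_lit 564237) (.g (nat_lit 2900) (.e (nat_lit 434227) (nat_lit 20) (.e (nat_lit 507929) (nat_lit 10) (.e (nat_lit 5777) (nat_lit 317) (.e (nat_lit 180244) (nat_lit 5) (.e (nat_lit 532569) (nat_lit 16) (.e (nat_lit 401448) (nat_lit 10) .nil)))))) (.g (nat_lit 1) (.e (nat_lit 325625) (nat_lit 0) .nil) .nil))) 
(.lf (nat_lit 564749) (.g (nat_lit 2166) (.e (nat_lit 434231) (nat_lit 23) (.e (nat_lit 532569) (nat_lit 16) (.e (nat_lit 401450) (nat_lit 12) (.e (nat_lit 475184) (nat_lit 29) .nil)))) (.g (nat_lit 0) (.e (nat_lit 327719) (nat_lit 0) .nil) .nil)))) (.nd (nat_lit 9) 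
(.lf (nat_lit 564493) (.g (nat_lit 3561) (.e (nat_lit 434231) (nat_lit 23) (.e (nat_lit 532549) (nat_lit 12) (.e (nat_lit 360475) (nat_lit 8) (.e (nat_lit 557089) (nat_lit 12) (.e (nat_lit 163850) (nat_lit 0) .nil))))) (.g (nat_lit 0) (.e (nat_lit 327142) (nat_lit 0) .nil) .nil))) 
(.lf (nat_lit 565005) (.g (nat_lit 1807) (.e (nat_lit 434234) (nat_lit 23) (.e (nat_lit 532502) (nat_lit 1) (.e (nat_lit 57688) (nat_lit 156) (.e (nat_lit 163905) (nat_lit 12) (.e (nat_lit 426568) (nat_lit 34) .nil))))) (.g (nat_lit 0) (.e (nat_lit 328305) (nat_lit 0) .nil) .nil))))) (.nd (nat_lit 8) (.nd (nat_lit 9) 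
(.lf (nat_lit 564365) (.g (nat_lit 2769) (.e (nat_lit 434231) (nat_lit 23) (.e (nat_lit 532522) (nat_lit 7) (.e (nat_lit 319531) (nat_lit 16) (.e (nat_lit 286733) (nat_lit 2) (.e (nat_lit 90134) (nat_lit 9) (.e (nat_lit 2842) (nat_lit 184) (.e (nat_lit 426290) (nat_lit 10) .nil))))))) (.g (nat_lit 1) (.e (nat_lit 325958) (nat_lit 0) .nil) .nil))) 
(.lf (nat_lit 564877) (.g (nat_lit 4426) (.e (nat_lit 434232) (nat_lit 23) (.e (nat_lit 532550) (nat_lit 12) (.e (nat_lit 360475) (nat_lit 8) (.e (nat_lit 557091) (nat_lit 12) (.e (nat_lit 171776) (nat_lit 49) (.e (nat_lit 729099) (nat_lit 12) .nil)))))) (.g (nat_lit 1) (.e (nat_lit 327947) (nat_lit 0) .nil) .nil)))) (.nd (nat_lit 9) 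
(.lf (nat_lit 564621) (.g (nat_lit 2301) (.e (nat_lit 434231) (nat_lit 23) (.e (nat_lit 532550) (nat_lit 12) (.e (nat_lit 360475) (nat_lit 8) (.e (nat_lit 557089) (nat_lit 12) (.e (nat_lit 163853) (nat_lit 0) .nil))))) (.g (nat_lit 0) (.e (nat_lit 327437) (nat_lit 0) .nil) .nil))) 
(.lf (nat_lit 565133) (.g (nat_lit 1273) (.e (nat_lit 434242) (nat_lit 28) (.e (nat_lit 573469) (nat_lit 11) (.e (nat_lit 16471) (nat_lit 14) (.e (nat_lit 491537) (nat_lit 2) .nil)))) (.g (nat_lit 0) (.e (nat_lit 328849) (nat_lit 0) .nil) .nil)))))) (.nd (nat_lit 7) (.nd (nat_lit 8) (.nd (nat_lit 9) 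
(.lf (nat_lit 564301) (.g (nat_lit 3486) (.e (nat_lit 434231) (nat_lit 23) (.e (nat_lit 532499) (nat_lit 1) (.e (nat_lit 57686) (nat_lit 156) (.e (nat_lit 163902) (nat_lit 12) (.e (nat_lit 426568) (nat_lit 34) (.e (nat_lit 393283) (nat_lit 24) .nil)))))) (.g (nat_lit 1) (.e (nat_lit 325837) (nat_lit 0) .nil) .nil))) 
(.lf (nat_lit 564813) (.g (nat_lit 2746) (.e (nat_lit 434232) (nat_lit 23) (.e (nat_lit 532503) (nat_lit 1) (.e (nat_lit 57688) (nat_lit 156) (.e (nat_lit 163874) (nat_lit 3) (.e (nat_lit 204838) (nat_lit 20) (.e (nat_lit 114719) (nat_lit 23) (.e (nat_lit 98366) (nat_lit 27) .nil))))))) (.g (nat_lit 1) (.e (nat_lit 327857) (nat_lit 0) .nil) .nil)))) (.nd (nat_lit 9) 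
(.lf (nat_lit 564557) (.g (nat_lit 3316) (.e (nat_lit 434231) (nat_lit 23) (.e (nat_lit 532550) (nat_lit 12) (.e (nat_lit 360474) (nat_lit 8) (.e (nat_lit 557088) (nat_lit 12) (.e (nat_lit 164020) (nat_lit 45) (.e (nat_lit 696330) (nat_lit 5) (.e (nat_lit 2980) (nat_lit 185) .nil))))))) (.g (nat_lit 1) (.e (nat_lit 327305) (nat_lit 0) .nil) .nil))) 
(.lf (nat_lit 565069) (.g (nat_lit 6308) (.e (nat_lit 434235) (nat_lit 24) (.e (nat_lit 540706) (nat_lit 12) (.e (nat_lit 360475) (nat_lit 8) (.e (nat_lit 557091) (nat_lit 12) (.e (nat_lit 164022) (nat_lit 46) (.e (nat_lit 704629) (nat_lit 9) (.e (nat_lit 442) (nat_lit 33) .nil))))))) (.g (nat_lit 1) (.e (nat_lit 328426) (nat_lit 0) .nil) .nil))))) (.nd (nat_lit 8) (.nd (nat_lit 9) 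
(.lf (nat_lit 564429) (.g (nat_lit 4290) (.e (nat_lit 434231) (nat_lit 23) (.e (nat_lit 532523) (nat_lit 7) (.e (nat_lit 319536) (nat_lit 17) (.e (nat_lit 294927) (nat_lit 2) (.e (nat_lit 90170) (nat_lit 13) (.e (nat_lit 172113) (nat_lit 10) .nil)))))) (.g (nat_lit 1) (.e (nat_lit 326031) (nat_lit 0) .nil) .nil))) 
(.lf (nat_lit 564941) (.g (nat_lit 2649) (.e (nat_lit 434233) (nat_lit 23) (.e (nat_lit 532523) (nat_lit 7) (.e (nat_lit 319533) (nat_lit 16) (.e (nat_lit 286734) (nat_lit 3) (.e (nat_lit 98354) (nat_lit 26) .nil))))) (.g (nat_lit 0) (.e (nat_lit 328118) (nat_lit 0) .nil) .nil)))) (.nd (nat_lit 9) 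
(.lf (nat_lit 564685) (.g (nat_lit 3776) (.e (nat_lit 434231) (nat_lit 23) (.e (nat_lit 532550) (nat_lit 12) (.e (nat_lit 360475) (nat_lit 8) (.e (nat_lit 557091) (nat_lit 12) (.e (nat_lit 164018) (nat_lit 45) (.e (nat_lit 696327) (nat_lit 5) (.e (nat_lit 2978) (nat_lit 185) .nil))))))) (.g (nat_lit 1) (.e (nat_lit 327561) (nat_lit 0) .nil) .nil))) 
(.lf (nat_lit 565197) (.g (nat_lit 1724) (.e (nat_lit 434243) (nat_lit 28) (.e (nat_lit 573450) (nat_lit 9) (.e (nat_lit 375) (nat_lit 32) (.e (nat_lit 426173) (nat_lit 7) .nil)))) (.g (nat_lit 0) (.e (nat_lit 328939) (nat_lit 0) .nil) .nil))))))) (.nd (nat_lit 6) (.nd (nat_lit 7) (.nd (nat_lit 8) (.nd (nat_lit 9) 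
(.lf (nat_lit 564269) (.g (nat_lit 5310) (.e (nat_lit 434230) (nat_lit 23) (.e (nat_lit 532550) (nat_lit 12) (.e (nat_lit 360474) (nat_lit 8) (.e (nat_lit 557089) (nat_lit 12) .nil)))) (.g (nat_lit 0) (.e (nat_lit 325776) (nat_lit 0) .nil) .nil))) 
(.lf (nat_lit 564781) (.g (nat_lit 3495) (.e (nat_lit 434232) (nat_lit 23) (.e (nat_lit 532499) (nat_lit 1) (.e (nat_lit 57688) (nat_lit 156) (.e (nat_lit 163874) (nat_lit 3) (.e (nat_lit 204836) (nat_lit 20) .nil))))) (.g (nat_lit 0) (.e (nat_lit 327822) (nat_lit 0) .nil) .nil)))) (.nd (nat_lit 9) 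
(.lf (nat_lit 564525) (.g (nat_lit 3520) (.e (nat_lit 434231) (nat_lit 23) (.e (nat_lit 532549) (nat_lit 12) (.e (nat_lit 360475) (nat_lit 8) (.e (nat_lit 557091) (nat_lit 12) (.e (nat_lit 164018) (nat_lit 45) (.e (nat_lit 696330) (nat_lit 5) (.e (nat_lit 2964) (nat_lit 185) .nil))))))) (.g (nat_lit 1) (.e (nat_lit 327251) (nat_lit 0) .nil) .nil))) 
(.lf (nat_lit 565037) (.g (nat_lit 2454) (.e (nat_lit 434234) (nat_lit 23) (.e (nat_lit 532549) (nat_lit 12) (.e (nat_lit 360475) (nat_lit 8) (.e (nat_lit 557091) (nat_lit 12) .nil)))) (.g (nat_lit 0) (.e (nat_lit 328350) (nat_lit 0) .nil) .nil))))) (.nd (nat_lit 8) (.nd (nat_lit 9) 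
(.lf (nat_lit 564397) (.g (nat_lit 2566) (.e (nat_lit 434231) (nat_lit 23) (.e (nat_lit 532523) (nat_lit 7) (.e (nat_lit 319530) (nat_lit 16) (.e (nat_lit 286733) (nat_lit 2) (.e (nat_lit 90134) (nat_lit 9) (.e (nat_lit 2885) (nat_lit 184) (.e (nat_lit 426289) (nat_lit 10) .nil))))))) (.g (nat_lit 1) (.e (nat_lit 325997) (nat_lit 0) .nil) .nil))) 
(.lf (nat_lit 564909) (.g (nat_lit 1555) (.e (nat_lit 434233) (nat_lit 23) (.e (nat_lit 532502) (nat_lit 1) (.e (nat_lit 57688) (nat_lit 156) (.e (nat_lit 163903) (nat_lit 12) (.e (nat_lit 426568) (nat_lit 34) .nil))))) (.g (nat_lit 0) (.e (nat_lit 328012) (nat_lit 0) .nil) .nil)))) (.nd (nat_lit 9) 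
(.lf (nat_lit 564653) (.g (nat_lit 2534) (.e (nat_lit 434231) (nat_lit 23) (.e (nat_lit 532550) (nat_lit 12) (.e (nat_lit 360475) (nat_lit 8) (.e (nat_lit 557091) (nat_lit 12) (.e (nat_lit 163840) (nat_lit 0) (.e (nat_lit 6428) (nat_lit 342) (.e (nat_lit 229407) (nat_lit 13) .nil))))))) (.g (nat_lit 1) (.e (nat_lit 327482) (nat_lit 0) .nil) .nil))) 
(.lf (nat_lit 565165) (.g (nat_lit 1759) (.e (nat_lit 434242) (nat_lit 28) (.e (nat_lit 573472) (nat_lit 12) (.e (nat_lit 57572) (nat_lit 54) (.e (nat_lit 770072) (nat_lit 8) (.e (nat_lit 65569) (nat_lit 3) .nil))))) (.g (nat_lit 0) (.e (nat_lit 328884) (nat_lit 0) .nil) .nil)))))) (.nd (nat_lit 7) (.nd (nat_lit 8) (.nd (nat_lit 9) 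
(.lf (nat_lit 564333) (.g (nat_lit 4970) (.e (nat_lit 434231) (nat_lit 23) (.e (nat_lit 532500) (nat_lit 1) (.e (nat_lit 57692) (nat_lit 156) (.e (nat_lit 163875) (nat_lit 3) (.e (nat_lit 204837) (nat_lit 20) (.e (nat_lit 114719) (nat_lit 23) (.e (nat_lit 98366) (nat_lit 27) .nil))))))) (.g (nat_lit 1) (.e (nat_lit 325889) (nat_lit 0) .nil) .nil))) 
(.lf (nat_lit 564845) (.g (nat_lit 2028) (.e (nat_lit 434232) (nat_lit 23) (.e (nat_lit 532515) (nat_lit 3) (.e (nat_lit 114719) (nat_lit 23) (.e (nat_lit 98323) (nat_lit 17) (.e (nat_lit 3397) (nat_lit 211) .nil))))) (.g (nat_lit 0) (.e (nat_lit 327892) (nat_lit 0) .nil) .nil)))) (.nd (nat_lit 9) 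
(.lf (nat_lit 564589) (.g (nat_lit 3018) (.e (nat_lit 434231) (nat_lit 23) (.e (nat_lit 532550) (nat_lit 12) (.e (nat_lit 360474) (nat_lit 8) (.e (nat_lit 557094) (nat_lit 12) (.e (nat_lit 164018) (nat_lit 45) (.e (nat_lit 696327) (nat_lit 5) (.e (nat_lit 2964) (nat_lit 185) .nil))))))) (.g (nat_lit 1) (.e (nat_lit 327363) (nat_lit 0) .nil) .nil))) 
(.lf (nat_lit 565101) (.g (nat_lit 4868) (.e (nat_lit 434238) (nat_lit 25) (.e (nat_lit 548913) (nat_lit 18) (.e (nat_lit 172120) (nat_lit 12) (.e (nat_lit 475185) (nat_lit 29) (.e (nat_lit 557101) (nat_lit 13) (.e (nat_lit 172115) (nat_lit 10) .nil)))))) (.g (nat_lit 1) (.e (nat_lit 328789) (nat_lit 0) .nil) .nil))))) (.nd (nat_lit 8) (.nd (nat_lit 9) 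
(.lf (nat_lit 564461) (.g (nat_lit 2096) (.e (nat_lit 434231) (nat_lit 23) (.e (nat_lit 532549) (nat_lit 12) (.e (nat_lit 360473) (nat_lit 8) (.e (nat_lit 557089) (nat_lit 12) (.e (nat_lit 164020) (nat_lit 45) (.e (nat_lit 696328) (nat_lit 5) (.e (nat_lit 2964) (nat_lit 185) .nil))))))) (.g (nat_lit 1) (.e (nat_lit 326933) (nat_lit 0) .nil) .nil))) 
(.lf (nat_lit 564973) (.g (nat_lit 2642) (.e (nat_lit 434233) (nat_lit 23) (.e (nat_lit 532550) (nat_lit 12) (.e (nat_lit 360474) (nat_lit 8) (.e (nat_lit 557093) (nat_lit 12) (.e (nat_lit 171776) (nat_lit 49) .nil))))) (.g (nat_lit 0) (.e (nat_lit 328199) (nat_lit 0) .nil) .nil)))) (.nd (nat_lit 9) 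
(.lf (nat_lit 564717) (.g (nat_lit 4369) (.e (nat_lit 434231) (nat_lit 23) (.e (nat_lit 532568) (nat_lit 16) (.e (nat_lit 401451) (nat_lit 12) (.e (nat_lit 475185) (nat_lit 29) (.e (nat_lit 557098) (nat_lit 13) .nil))))) (.g (nat_lit 0) (.e (nat_lit 327648) (nat_lit 0) .nil) .nil))) 
(.lf (nat_lit 565229) (.g (nat_lit 4776) (.e (nat_lit 434244) (nat_lit 28) (.e (nat_lit 573451) (nat_lit 9) (.e (nat_lit 365) (nat_lit 31) (.e (nat_lit 417796) (nat_lit 0) (.e (nat_lit 5271) (nat_lit 298) (.e (nat_lit 1239) (nat_lit 91) (.e (nat_lit 90170) (nat_lit 13) (.e (nat_lit 172106) (nat_lit 10) .nil)))))))) (.g (nat_lit 1) (.e (nat_lit 328989) (nat_lit 0) .nil) .nil)))))))) 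
(.nd (nat_lit 5) (.nd (nat_lit 6) (.nd (nat_lit 7) (.nd (nat_lit 8) (.nd (nat_lit 9) 
(.lf (nat_lit 564253) (.g (nat_lit 2293) (.e (nat_lit 434227) (nat_lit 20) (.e (nat_lit 507943) (nat_lit 17) (.e (nat_lit 294940) (nat_lit 9) (.e (nat_lit 336324) (nat_lit 18) (.e (nat_lit 204837) (nat_lit 20) (.e (nat_lit 122624) (nat_lit 12) .nil)))))) (.g (nat_lit 1) (.e (nat_lit 325746) (nat_lit 0) .nil) .nil))) 
(.lf (nat_lit 564765) (.g (nat_lit 3457) (.e (nat_lit 434231) (nat_lit 23) (.e (nat_lit 532579) (nat_lit 26) (.e (nat_lit 426100) (nat_lit 1) (.e (nat_lit 164398) (nat_lit 256) (.e (nat_lit 57407) (nat_lit 12) (.e (nat_lit 336398) (nat_lit 27) (.e (nat_lit 426290) (nat_lit 10) .nil))))))) (.g (nat_lit 1) (.e (nat_lit 327750) (nat_lit 0) .nil) .nil)))) (.nd (nat_lit 9) 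
(.lf (nat_lit 564509) (.g (nat_lit 3124) (.e (nat_lit 434231) (nat_lit 23) (.e (nat_lit 532549) (nat_lit 12) (.e (nat_lit 360475) (nat_lit 8) (.e (nat_lit 557090) (nat_lit 12) (.e (nat_lit 164020) (nat_lit 45) (.e (nat_lit 696330) (nat_lit 5) (.e (nat_lit 2980) (nat_lit 185) .nil))))))) (.g (nat_lit 1) (.e (nat_lit 327178) (nat_lit 0) .nil) .nil))) 
(.lf (nat_lit 565021) (.g (nat_lit 2802) (.e (nat_lit 434234) (nat_lit 23) (.e (nat_lit 532504) (nat_lit 1) (.e (nat_lit 57692) (nat_lit 156) (.e (nat_lit 163907) (nat_lit 12) (.e (nat_lit 426568) (nat_lit 34) (.e (nat_lit 393283) (nat_lit 24) .nil)))))) (.g (nat_lit 1) (.e (nat_lit 328321) (nat_lit 0) .nil) .nil))))) (.nd (nat_lit 8) (.nd (nat_lit 9) 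
(.lf (nat_lit 564381) (.g (nat_lit 380) (.e (nat_lit 434231) (nat_lit 23) (.e (nat_lit 532523) (nat_lit 7) (.e (nat_lit 319530) (nat_lit 16) .nil))) (.g (nat_lit 0) (.e (nat_lit 325976) (nat_lit 0) .nil) .nil))) 
(.lf (nat_lit 564893) (.g (nat_lit 2052) (.e (nat_lit 434233) (nat_lit 23) (.e (nat_lit 532499) (nat_lit 1) (.e (nat_lit 57688) (nat_lit 156) (.e (nat_lit 163875) (nat_lit 3) .nil)))) (.g (nat_lit 0) (.e (nat_lit 327996) (nat_lit 0) .nil) .nil)))) (.nd (nat_lit 9) 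
(.lf (nat_lit 564637) (.g (nat_lit 2683) (.e (nat_lit 434231) (nat_lit 23) (.e (nat_lit 532550) (nat_lit 12) (.e (nat_lit 360475) (nat_lit 8) (.e (nat_lit 557090) (nat_lit 12) (.e (nat_lit 164020) (nat_lit 45) (.e (nat_lit 696327) (nat_lit 5) (.e (nat_lit 2980) (nat_lit 185) .nil))))))) (.g (nat_lit 1) (.e (nat_lit 327464) (nat_lit 0) .nil) .nil))) 
(.lf (nat_lit 565149) (.g (nat_lit 983) (.e (nat_lit 434242) (nat_lit 28) (.e (nat_lit 573471) (nat_lit 11) (.e (nat_lit 16439) (nat_lit 9) .nil))) (.g (nat_lit 0) (.e (nat_lit 328867) (nat_lit 0) .nil) .nil)))))) (.nd (nat_lit 7) (.nd (nat_lit 8) (.nd (nat_lit 9) 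
(.lf (nat_lit 564317) (.g (nat_lit 4648) (.e (nat_lit 434231) (nat_lit 23) (.e (nat_lit 532499) (nat_lit 1) (.e (nat_lit 57692) (nat_lit 156) (.e (nat_lit 163874) (nat_lit 3) (.e (nat_lit 204837) (nat_lit 20) (.e (nat_lit 114719) (nat_lit 23) (.e (nat_lit 98366) (nat_lit 27) .nil))))))) (.g (nat_lit 1) (.e (nat_lit 325866) (nat_lit 0) .nil) .nil))) 
(.lf (nat_lit 564829) (.g (nat_lit 2323) (.e (nat_lit 434232) (nat_lit 23) (.e (nat_lit 532504) (nat_lit 1) (.e (nat_lit 57691) (nat_lit 156) (.e (nat_lit 163874) (nat_lit 3) (.e (nat_lit 204838) (nat_lit 20) .nil))))) (.g (nat_lit 0) (.e (nat_lit 327873) (nat_lit 0) .nil) .nil)))) (.nd (nat_lit 9) 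
(.lf (nat_lit 564573) (.g (nat_lit 2586) (.e (nat_lit 434231) (nat_lit 23) (.e (nat_lit 532550) (nat_lit 12) (.e (nat_lit 360474) (nat_lit 8) (.e (nat_lit 557093) (nat_lit 12) (.e (nat_lit 163847) (nat_lit 0) (.e (nat_lit 6421) (nat_lit 341) (.e (nat_lit 163916) (nat_lit 13) .nil))))))) (.g (nat_lit 1) (.e (nat_lit 327325) (nat_lit 0) .nil) .nil))) 
(.lf (nat_lit 565085) (.g (nat_lit 2118) (.e (nat_lit 434238) (nat_lit 25) (.e (nat_lit 548912) (nat_lit 18) (.e (nat_lit 172120) (nat_lit 12) (.e (nat_lit 475185) (nat_lit 29) (.e (nat_lit 557100) (nat_lit 13) (.e (nat_lit 172106) (nat_lit 10) .nil)))))) (.g (nat_lit 1) (.e (nat_lit 328683) (nat_lit 0) .nil) .nil))))) (.nd (nat_lit 8) (.nd (nat_lit 9) 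
(.lf (nat_lit 564445) (.g (nat_lit 4964) (.e (nat_lit 434231) (nat_lit 23) (.e (nat_lit 532535) (nat_lit 9) (.e (nat_lit 336295) (nat_lit 15) (.e (nat_lit 3631) (nat_lit 227) (.e (nat_lit 778317) (nat_lit 3) (.e (nat_lit 57479) (nat_lit 28) (.e (nat_lit 557101) (nat_lit 13) (.e (nat_lit 172116) (nat_lit 10) .nil)))))))) (.g (nat_lit 1) (.e (nat_lit 326777) (nat_lit 0) .nil) .nil))) 
(.lf (nat_lit 564957) (.g (nat_lit 632) (.e (nat_lit 434233) (nat_lit 23) (.e (nat_lit 532523) (nat_lit 7) (.e (nat_lit 327424) (nat_lit 16) .nil))) (.g (nat_lit 0) (.e (nat_lit 328152) (nat_lit 0) .nil) .nil)))) (.nd (nat_lit 9) 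
(.lf (nat_lit 564701) (.g (nat_lit 3970) (.e (nat_lit 434231) (nat_lit 23) (.e (nat_lit 532550) (nat_lit 12) (.e (nat_lit 360475) (nat_lit 8) (.e (nat_lit 557091) (nat_lit 12) (.e (nat_lit 164022) (nat_lit 46) (.e (nat_lit 704627) (nat_lit 9) (.e (nat_lit 450) (nat_lit 33) .nil))))))) (.g (nat_lit 1) (.e (nat_lit 327579) (nat_lit 0) .nil) .nil))) 
(.lf (nat_lit 565213) (.g (nat_lit 2809) (.e (nat_lit 434243) (nat_lit 28) (.e (nat_lit 573489) (nat_lit 14) (.e (nat_lit 73755) (nat_lit 8) (.e (nat_lit 557090) (nat_lit 12) .nil)))) (.g (nat_lit 0) (.e (nat_lit 328959) (nat_lit 0) .nil) .nil))))))) (.nd (nat_lit 6) (.nd (nat_lit 7) (.nd (nat_lit 8) (.nd (nat_lit 9) 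
(.lf (nat_lit 564285) (.g (nat_lit 2684) (.e (nat_lit 434230) (nat_lit 23) (.e (nat_lit 532550) (nat_lit 12) (.e (nat_lit 360475) (nat_lit 8) (.e (nat_lit 557091) (nat_lit 12) .nil)))) (.g (nat_lit 0) (.e (nat_lit 325795) (nat_lit 0) .nil) .nil))) 
(.lf (nat_lit 564797) (.g (nat_lit 2434) (.e (nat_lit 434232) (nat_lit 23) (.e (nat_lit 532501) (nat_lit 1) (.e (nat_lit 57691) (nat_lit 156) (.e (nat_lit 163871) (nat_lit 2) (.e (nat_lit 196624) (nat_lit 9) .nil))))) (.g (nat_lit 0) (.e (nat_lit 327840) (nat_lit 0) .nil) .nil)))) (.nd (nat_lit 9) 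
(.lf (nat_lit 564541) (.g (nat_lit 2732) (.e (nat_lit 434231) (nat_lit 23) (.e (nat_lit 532550) (nat_lit 12) (.e (nat_lit 360472) (nat_lit 8) (.e (nat_lit 557090) (nat_lit 12) (.e (nat_lit 164020) (nat_lit 45) (.e (nat_lit 696328) (nat_lit 5) (.e (nat_lit 2978) (nat_lit 185) .nil))))))) (.g (nat_lit 1) (.e (nat_lit 327288) (nat_lit 0) .nil) .nil))) 
(.lf (nat_lit 565053) (.g (nat_lit 2657) (.e (nat_lit 434235) (nat_lit 24) (.e (nat_lit 540704) (nat_lit 12) (.e (nat_lit 360473) (nat_lit 8) (.e (nat_lit 557090) (nat_lit 12) (.e (nat_lit 164020) (nat_lit 45) (.e (nat_lit 696330) (nat_lit 5) (.e (nat_lit 2974) (nat_lit 185) .nil))))))) (.g (nat_lit 1) (.e (nat_lit 328405) (nat_lit 0) .nil) .nil))))) (.nd (nat_lit 8) (.nd (nat_lit 9) 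
(.lf (nat_lit 564413) (.g (nat_lit 3863) (.e (nat_lit 434231) (nat_lit 23) (.e (nat_lit 532523) (nat_lit 7) (.e (nat_lit 319531) (nat_lit 16) (.e (nat_lit 286733) (nat_lit 2) (.e (nat_lit 90169) (nat_lit 13) (.e (nat_lit 172111) (nat_lit 10) .nil)))))) (.g (nat_lit 1) (.e (nat_lit 326015) (nat_lit 0) .nil) .nil))) 
(.lf (nat_lit 564925) (.g (nat_lit 1366) (.e (nat_lit 434233) (nat_lit 23) (.e (nat_lit 532523) (nat_lit 7) (.e (nat_lit 319529) (nat_lit 16) (.e (nat_lit 286735) (nat_lit 3) .nil)))) (.g (nat_lit 0) (.e (nat_lit 328074) (nat_lit 0) .nil) .nil)))) (.nd (nat_lit 9) 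
(.lf (nat_lit 564669) (.g (nat_lit 3729) (.e (nat_lit 434231) (nat_lit 23) (.e (nat_lit 532550) (nat_lit 12) (.e (nat_lit 360475) (nat_lit 8) (.e (nat_lit 557091) (nat_lit 12) (.e (nat_lit 163849) (nat_lit 0) (.e (nat_lit 6421) (nat_lit 341) (.e (nat_lit 163916) (nat_lit 13) .nil))))))) (.g (nat_lit 1) (.e (nat_lit 327525) (nat_lit 0) .nil) .nil))) 
(.lf (nat_lit 565181) (.g (nat_lit 2308) (.e (nat_lit 434242) (nat_lit 28) (.e (nat_lit 573488) (nat_lit 14) (.e (nat_lit 73755) (nat_lit 8) (.e (nat_lit 557089) (nat_lit 12) (.e (nat_lit 164007) (nat_lit 41) .nil))))) (.g (nat_lit 0) (.e (nat_lit 328916) (nat_lit 0) .nil) .nil)))))) (.nd (nat_lit 7) (.nd (nat_lit 8) (.nd (nat_lit 9) 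
(.lf (nat_lit 564349) (.g (nat_lit 4439) (.e (nat_lit 434231) (nat_lit 23) (.e (nat_lit 532514) (nat_lit 3) (.e (nat_lit 114719) (nat_lit 23) (.e (nat_lit 98334) (nat_lit 18) (.e (nat_lit 164398) (nat_lit 256) (.e (nat_lit 57378) (nat_lit 3) (.e (nat_lit 98366) (nat_lit 27) .nil))))))) (.g (nat_lit 1) (.e (nat_lit 325933) (nat_lit 0) .nil) .nil))) 
(.lf (nat_lit 564861) (.g (nat_lit 2452) (.e (nat_lit 434232) (nat_lit 23) (.e (nat_lit 532549) (nat_lit 12) (.e (nat_lit 360475) (nat_lit 8) (.e (nat_lit 557089) (nat_lit 12) .nil)))) (.g (nat_lit 0) (.e (nat_lit 327925) (nat_lit 0) .nil) .nil)))) (.nd (nat_lit 9) 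
(.lf (nat_lit 564605) (.g (nat_lit 3668) (.e (nat_lit 434231) (nat_lit 23) (.e (nat_lit 532550) (nat_lit 12) (.e (nat_lit 360475) (nat_lit 8) (.e (nat_lit 557089) (nat_lit 12) (.e (nat_lit 163844) (nat_lit 0) (.e (nat_lit 6416) (nat_lit 341) (.e (nat_lit 163918) (nat_lit 13) .nil))))))) (.g (nat_lit 1) (.e (nat_lit 327415) (nat_lit 0) .nil) .nil))) 
(.lf (nat_lit 565117) (.g (nat_lit 360) (.e (nat_lit 434238) (nat_lit 25) (.e (nat_lit 548915) (nat_lit 20) (.e (nat_lit 188449) (nat_lit 22) .nil))) (.g (nat_lit 0) (.e (nat_lit 328815) (nat_lit 0) .nil) .nil))))) (.nd (nat_lit 8) (.nd (nat_lit 9) 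
(.lf (nat_lit 564477) (.g (nat_lit 3469) (.e (nat_lit 434231) (nat_lit 23) (.e (nat_lit 532549) (nat_lit 12) (.e (nat_lit 360473) (nat_lit 8) (.e (nat_lit 557091) (nat_lit 12) (.e (nat_lit 164020) (nat_lit 45) (.e (nat_lit 696330) (nat_lit 5) (.e (nat_lit 2965) (nat_lit 185) .nil))))))) (.g (nat_lit 1) (.e (nat_lit 327037) (nat_lit 0) .nil) .nil))) 
(.lf (nat_lit 564989) (.g (nat_lit 3073) (.e (nat_lit 434234) (nat_lit 23) (.e (nat_lit 532499) (nat_lit 1) (.e (nat_lit 57686) (nat_lit 156) (.e (nat_lit 163903) (nat_lit 12) (.e (nat_lit 426568) (nat_lit 34) (.e (nat_lit 393283) (nat_lit 24) .nil)))))) (.g (nat_lit 1) (.e (nat_lit 328287) (nat_lit 0) .nil) .nil)))) (.nd (nat_lit 9) 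
(.lf (nat_lit 564733) (.g (nat_lit 1434) (.e (nat_lit 434231) (nat_lit 23) (.e (nat_lit 532569) (nat_lit 16) (.e (nat_lit 401448) (nat_lit 10) (.e (nat_lit 434202) (nat_lit 18) .nil)))) (.g (nat_lit 0) (.e (nat_lit 327690) (nat_lit 0) .nil) .nil))) 
(.lf (nat_lit 565245) (.g (nat_lit 3520) (.e (nat_lit 434244) (nat_lit 28) (.e (nat_lit 573451) (nat_lit 9) (.e (nat_lit 498) (nat_lit 40) (.e (nat_lit 491565) (nat_lit 12) (.e (nat_lit 385065) (nat_lit 26) (.e (nat_lit 532515) (nat_lit 3) (.e (nat_lit 122624) (nat_lit 12) .nil))))))) (.g (nat_lit 1) (.e (nat_lit 329009) (nat_lit 0) .nil) .nil))))))))))) 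
(.nd (nat_lit 2) (.nd (nat_lit 3) (.nd (nat_lit 4) (.nd (nat_lit 5) (.nd (nat_lit 6) 
(.nd (nat_lit 7) (.nd (nat_lit 8) (.nd (nat_lit 9) 
(.lf (nat_lit 564227) (.g (nat_lit 2025) (.e (nat_lit 434219) (nat_lit 19) (.e (nat_lit 500090) (nat_lit 22) (.e (nat_lit 131106) (nat_lit 9) (.e (nat_lit 336324) (nat_lit 18) (.e (nat_lit 204838) (nat_lit 20) (.e (nat_lit 122624) (nat_lit 12) .nil)))))) (.g (nat_lit 1) (.e (nat_lit 325574) (nat_lit 0) .nil) .nil))) 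
(.lf (nat_lit 564739) (.g (nat_lit 5378) (.e (nat_lit 434231) (nat_lit 23) (.e (nat_lit 532569) (nat_lit 16) (.e (nat_lit 401448) (nat_lit 10) (.e (nat_lit 434231) (nat_lit 23) (.e (nat_lit 532569) (nat_lit 16) (.e (nat_lit 401448) (nat_lit 10) .nil)))))) (.g (nat_lit 1) (.e (nat_lit 327704) (nat_lit 0) .nil) .nil)))) (.nd (nat_lit 9) 
(.lf (nat_lit 564483) (.g (nat_lit 4138) (.e (nat_lit 434231) (nat_lit 23) (.e (nat_lit 532549) (nat_lit 12) (.e (nat_lit 360474) (nat_lit 8) (.e (nat_lit 557089) (nat_lit 12) (.e (nat_lit 163850) (nat_lit 0) .nil))))) (.g (nat_lit 0) (.e (nat_lit 327093) (nat_lit 0) .nil) .nil))) 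
(.lf (nat_lit 564995) (.g (nat_lit 2220) (.e (nat_lit 434234) (nat_lit 23) (.e (nat_lit 532499) (nat_lit 1) (.e (nat_lit 57691) (nat_lit 156) (.e (nat_lit 163875) (nat_lit 3) (.e (nat_lit 204838) (nat_lit 20) .nil))))) (.g (nat_lit 0) (.e (nat_lit 328295) (nat_lit 0) .nil) .nil))))) (.nd (nat_lit 8) (.nd (nat_lit 9) 
(.lf (nat_lit 564355) (.g (nat_lit 2862) (.e (nat_lit 434231) (nat_lit 23) (.e (nat_lit 532522) (nat_lit 7) (.e (nat_lit 319530) (nat_lit 16) (.e (nat_lit 286733) (nat_lit 2) (.e (nat_lit 90134) (nat_lit 9) (.e (nat_lit 2842) (nat_lit 184) (.e (nat_lit 426290) (nat_lit 10) .nil))))))) (.g (nat_lit 1) (.e (nat_lit 325948) (nat_lit 0) .nil) .nil))) 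
(.lf (nat_lit 564867) (.g (nat_lit 5364) (.e (nat_lit 434232) (nat_lit 23) (.e (nat_lit 532550) (nat_lit 12) (.e (nat_lit 360474) (nat_lit 8) (.e (nat_lit 557091) (nat_lit 12) .nil)))) (.g (nat_lit 0) (.e (nat_lit 327934) (nat_lit 0) .nil) .nil)))) (.nd (nat_lit 9) 
(.lf (nat_lit 564611) (.g (nat_lit 2854) (.e (nat_lit 434231) (nat_lit 23) (.e (nat_lit 532550) (nat_lit 12) (.e (nat_lit 360475) (nat_lit 8) (.e (nat_lit 557089) (nat_lit 12) (.e (nat_lit 163848) (nat_lit 0) (.e (nat_lit 6421) (nat_lit 341) (.e (nat_lit 163917) (nat_lit 13) .nil))))))) (.g (nat_lit 1) (.e (nat_lit 327421) (nat_lit 0) .nil) .nil))) 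
(.lf (nat_lit 565123) (.g (nat_lit 2061) (.e (nat_lit 434242) (nat_lit 28) (.e (nat_lit 573450) (nat_lit 9) (.e (nat_lit 375) (nat_lit 32) (.e (nat_lit 426317) (nat_lit 12) .nil)))) (.g (nat_lit 0) (.e (nat_lit 328838) (nat_lit 0) .nil) .nil)))))) (.nd (nat_lit 7) (.nd (nat_lit 8) (.nd (nat_lit 9) 
(.lf (nat_lit 564291) (.g (nat_lit 2929) (.e (nat_lit 434230) (nat_lit 23) (.e (nat_lit 532569) (nat_lit 16) (.e (nat_lit 401434) (nat_lit 9) (.e (nat_lit 426140) (nat_lit 3) (.e (nat_lit 204885) (nat_lit 33) .nil))))) (.g (nat_lit 0) (.e (nat_lit 325802) (nat_lit 0) .nil) .nil))) 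
(.lf (nat_lit 564803) (.g (nat_lit 2494) (.e (nat_lit 434232) (nat_lit 23) (.e (nat_lit 532501) (nat_lit 1) (.e (nat_lit 57692) (nat_lit 156) (.e (nat_lit 163875) (nat_lit 3) (.e (nat_lit 204836) (nat_lit 20) .nil))))) (.g (nat_lit 0) (.e (nat_lit 327846) (nat_lit 0) .nil) .nil)))) (.nd (nat_lit 9) 
(.lf (nat_lit 564547) (.g (nat_lit 3333) (.e (nat_lit 434231) (nat_lit 23) (.e (nat_lit 532550) (nat_lit 12) (.e (nat_lit 360473) (nat_lit 8) (.e (nat_lit 557090) (nat_lit 12) (.e (nat_lit 164020) (nat_lit 45) (.e (nat_lit 696328) (nat_lit 5) (.e (nat_lit 2980) (nat_lit 185) .nil))))))) (.g (nat_lit 1) (.e (nat_lit 327294) (nat_lit 0) .nil) .nil))) 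
(.lf (nat_lit 565059) (.g (nat_lit 5217) (.e (nat_lit 434235) (nat_lit 24) (.e (nat_lit 540706) (nat_lit 12) (.e (nat_lit 360474) (nat_lit 8) (.e (nat_lit 557094) (nat_lit 12) (.e (nat_lit 164022) (nat_lit 46) (.e (nat_lit 704629) (nat_lit 9) (.e (nat_lit 442) (nat_lit 33) .nil))))))) (.g (nat_lit 1) (.e (nat_lit 328412) (nat_lit 0) .nil) .nil))))) (.nd (nat_lit 8) (.nd (nat_lit 9) 
(.lf (nat_lit 564419) (.g (nat_lit 1524) (.e (nat_lit 434231) (nat_lit 23) (.e (nat_lit 532523) (nat_lit 7) (.e (nat_lit 319533) (nat_lit 16) (.e (nat_lit 286724) (nat_lit 0) .nil)))) (.g (nat_lit 0) (.e (nat_lit 326021) (nat_lit 0) .nil) .nil))) 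
(.lf (nat_lit 564931) (.g (nat_lit 2614) (.e (nat_lit 434233) (nat_lit 23) (.e (nat_lit 532523) (nat_lit 7) (.e (nat_lit 319531) (nat_lit 16) (.e (nat_lit 286733) (nat_lit 2) (.e (nat_lit 90169) (nat_lit 13) (.e (nat_lit 172111) (nat_lit 10) .nil)))))) (.g (nat_lit 1) (.e (nat_lit 328092) (nat_lit 0) .nil) .nil)))) (.nd (nat_lit 9) 
(.lf (nat_lit 564675) (.g (nat_lit 2440) (.e (nat_lit 434231) (nat_lit 23) (.e (nat_lit 532550) (nat_lit 12) (.e (nat_lit 360475) (nat_lit 8) (.e (nat_lit 557091) (nat_lit 12) (.e (nat_lit 163850) (nat_lit 0) (.e (nat_lit 6427) (nat_lit 342) (.e (nat_lit 229408) (nat_lit 13) .nil))))))) (.g (nat_lit 1) (.e (nat_lit 327531) (nat_lit 0) .nil) .nil))) 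
(.lf (nat_lit 565187) (.g (nat_lit 2032) (.e (nat_lit 434242) (nat_lit 28) (.e (nat_lit 573488) (nat_lit 14) (.e (nat_lit 73755) (nat_lit 8) (.e (nat_lit 557090) (nat_lit 12) (.e (nat_lit 164007) (nat_lit 41) .nil))))) (.g (nat_lit 0) (.e (nat_lit 328926) (nat_lit 0) .nil) .nil))))))) (.nd (nat_lit 6) (.nd (nat_lit 7) (.nd (nat_lit 8) (.nd (nat_lit 9) 
(.lf (nat_lit 564259) (.g (nat_lit 1892) (.e (nat_lit 434230) (nat_lit 23) (.e (nat_lit 532503) (nat_lit 1) (.e (nat_lit 57688) (nat_lit 156) (.e (nat_lit 163902) (nat_lit 12) (.e (nat_lit 426568) (nat_lit 34) .nil))))) (.g (nat_lit 0) (.e (nat_lit 325752) (nat_lit 0) .nil) .nil))) 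
(.lf (nat_lit 564771) (.g (nat_lit 2597) (.e (nat_lit 434231) (nat_lit 23) (.e (nat_lit 532579) (nat_lit 26) (.e (nat_lit 426108) (nat_lit 1) (.e (nat_lit 164402) (nat_lit 256) (.e (nat_lit 57405) (nat_lit 12) .nil))))) (.g (nat_lit 0) (.e (nat_lit 327769) (nat_lit 0) .nil) .nil)))) (.nd (nat_lit 9) 
(.lf (nat_lit 564515) (.g (nat_lit 4211) (.e (nat_lit 434231) (nat_lit 23) (.e (nat_lit 532549) (nat_lit 12) (.e (nat_lit 360475) (nat_lit 8) (.e (nat_lit 557091) (nat_lit 12) (.e (nat_lit 163852) (nat_lit 0) (.e (nat_lit 6425) (nat_lit 342) (.e (nat_lit 229409) (nat_lit 13) .nil))))))) (.g (nat_lit 1) (.e (nat_lit 327227) (nat_lit 0) .nil) .nil))) 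
(.lf (nat_lit 565027) (.g (nat_lit 304) (.e (nat_lit 434234) (nat_lit 23) (.e (nat_lit 532515) (nat_lit 3) (.e (nat_lit 114716) (nat_lit 22) .nil))) (.g (nat_lit 0) (.e (nat_lit 328329) (nat_lit 0) .nil) .nil))))) (.nd (nat_lit 8) (.nd (nat_lit 9) 
(.lf (nat_lit 564387) (.g (nat_lit 2926) (.e (nat_lit 434231) (nat_lit 23) (.e (nat_lit 532523) (nat_lit 7) (.e (nat_lit 319530) (nat_lit 16) (.e (nat_lit 286733) (nat_lit 2) (.e (nat_lit 90134) (nat_lit 9) (.e (nat_lit 2842) (nat_lit 184) (.e (nat_lit 426290) (nat_lit 10) .nil))))))) (.g (nat_lit 1) (.e (nat_lit 325985) (nat_lit 0) .nil) .nil))) 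
(.lf (nat_lit 564899) (.g (nat_lit 2944) (.e (nat_lit 434233) (nat_lit 23) (.e (nat_lit 532499) (nat_lit 1) (.e (nat_lit 57688) (nat_lit 156) (.e (nat_lit 163907) (nat_lit 12) (.e (nat_lit 426568) (nat_lit 34) (.e (nat_lit 393282) (nat_lit 24) .nil)))))) (.g (nat_lit 1) (.e (nat_lit 328002) (nat_lit 0) .nil) .nil)))) (.nd (nat_lit 9) 
(.lf (nat_lit 564643) (.g (nat_lit 2389) (.e (nat_lit 434231) (nat_lit 23) (.e (nat_lit 532550) (nat_lit 12) (.e (nat_lit 360475) (nat_lit 8) (.e (nat_lit 557091) (nat_lit 12) (.e (nat_lit 163840) (nat_lit 0) .nil))))) (.g (nat_lit 0) (.e (nat_lit 327470) (nat_lit 0) .nil) .nil))) 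
(.lf (nat_lit 565155) (.g (nat_lit 4029) (.e (nat_lit 434242) (nat_lit 28) (.e (nat_lit 573471) (nat_lit 11) (.e (nat_lit 16470) (nat_lit 14) (.e (nat_lit 491526) (nat_lit 0) .nil)))) (.g (nat_lit 0) (.e (nat_lit 328874) (nat_lit 0) .nil) .nil)))))) (.nd (nat_lit 7) (.nd (nat_lit 8) (.nd (nat_lit 9) 
(.lf (nat_lit 564323) (.g (nat_lit 3092) (.e (nat_lit 434231) (nat_lit 23) (.e (nat_lit 532500) (nat_lit 1) (.e (nat_lit 57691) (nat_lit 156) (.e (nat_lit 163875) (nat_lit 3) (.e (nat_lit 204834) (nat_lit 19) .nil))))) (.g (nat_lit 0) (.e (nat_lit 325878) (nat_lit 0) .nil) .nil))) 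
(.lf (nat_lit 564835) (.g (nat_lit 1063) (.e (nat_lit 434232) (nat_lit 23) (.e (nat_lit 532504) (nat_lit 1) (.e (nat_lit 57692) (nat_lit 156) (.e (nat_lit 163905) (nat_lit 12) .nil)))) (.g (nat_lit 0) (.e (nat_lit 327879) (nat_lit 0) .nil) .nil)))) (.nd (nat_lit 9) 
(.lf (nat_lit 564579) (.g (nat_lit 4354) (.e (nat_lit 434231) (nat_lit 23) (.e (nat_lit 532550) (nat_lit 12) (.e (nat_lit 360474) (nat_lit 8) (.e (nat_lit 557093) (nat_lit 12) (.e (nat_lit 164022) (nat_lit 46) (.e (nat_lit 704628) (nat_lit 9) (.e (nat_lit 450) (nat_lit 33) .nil))))))) (.g (nat_lit 1) (.e (nat_lit 327340) (nat_lit 0) .nil) .nil))) 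
(.lf (nat_lit 565091) (.g (nat_lit 4555) (.e (nat_lit 434238) (nat_lit 25) (.e (nat_lit 548913) (nat_lit 18) (.e (nat_lit 172094) (nat_lit 9) (.e (nat_lit 426125) (nat_lit 2) (.e (nat_lit 196638) (nat_lit 9) (.e (nat_lit 1673) (nat_lit 116) (.e (nat_lit 401447) (nat_lit 10) .nil))))))) (.g (nat_lit 1) (.e (nat_lit 328703) (nat_lit 0) .nil) .nil))))) (.nd (nat_lit 8) (.nd (nat_lit 9) 
(.lf (nat_lit 564451) (.g (nat_lit 4342) (.e (nat_lit 434231) (nat_lit 23) (.e (nat_lit 532549) (nat_lit 12) (.e (nat_lit 360472) (nat_lit 8) (.e (nat_lit 557090) (nat_lit 12) (.e (nat_lit 164020) (nat_lit 45) (.e (nat_lit 696327) (nat_lit 5) (.e (nat_lit 2964) (nat_lit 185) .nil))))))) (.g (nat_lit 1) (.e (nat_lit 326876) (nat_lit 0) .nil) .nil))) 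
(.lf (nat_lit 564963) (.g (nat_lit 5501) (.e (nat_lit 434233) (nat_lit 23) (.e (nat_lit 532549) (nat_lit 12) (.e (nat_lit 360473) (nat_lit 8) (.e (nat_lit 557093) (nat_lit 12) (.e (nat_lit 164022) (nat_lit 46) (.e (nat_lit 704629) (nat_lit 9) (.e (nat_lit 442) (nat_lit 33) .nil))))))) (.g (nat_lit 1) (.e (nat_lit 328183) (nat_lit 0) .nil) .nil)))) (.nd (nat_lit 9) 
(.lf (nat_lit 564707) (.g (nat_lit 3313) (.e (nat_lit 434231) (nat_lit 23) (.e (nat_lit 532550) (nat_lit 12) (.e (nat_lit 360475) (nat_lit 8) (.e (nat_lit 557094) (nat_lit 12) .nil)))) (.g (nat_lit 0) (.e (nat_lit 327588) (nat_lit 0) .nil) .nil))) 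
(.lf (nat_lit 565219) (.g (nat_lit 1801) (.e (nat_lit 434244) (nat_lit 28) (.e (nat_lit 573450) (nat_lit 9) (.e (nat_lit 375) (nat_lit 32) (.e (nat_lit 426003) (nat_lit 0) .nil)))) (.g (nat_lit 0) (.e (nat_lit 328967) (nat_lit 0) .nil) .nil)))))))) (.nd (nat_lit 5) (.nd (nat_lit 6) (.nd (nat_lit 7) (.nd (nat_lit 8) (.nd (nat_lit 9) 
(.lf (nat_lit 564243) (.g (nat_lit 567) (.e (nat_lit 434227) (nat_lit 20) (.e (nat_lit 507946) (nat_lit 18) (.e (nat_lit 303131) (nat_lit 9) (.e (nat_lit 426125) (nat_lit 2) .nil)))) (.g (nat_lit 0) (.e (nat_lit 325709) (nat_lit 0) .nil) .nil))) 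
(.lf (nat_lit 564755) (.g (nat_lit 5156) (.e (nat_lit 434231) (nat_lit 23) (.e (nat_lit 532569) (nat_lit 16) (.e (nat_lit 401451) (nat_lit 12) (.e (nat_lit 475185) (nat_lit 29) (.e (nat_lit 557101) (nat_lit 13) (.e (nat_lit 172115) (nat_lit 10) .nil)))))) (.g (nat_lit 1) (.e (nat_lit 327739) (nat_lit 0) .nil) .nil)))) (.nd (nat_lit 9) 
(.lf (nat_lit 564499) (.g (nat_lit 4068) (.e (nat_lit 434231) (nat_lit 23) (.e (nat_lit 532549) (nat_lit 12) (.e (nat_lit 360475) (nat_lit 8) (.e (nat_lit 557089) (nat_lit 12) (.e (nat_lit 164020) (nat_lit 45) (.e (nat_lit 696327) (nat_lit 5) (.e (nat_lit 2980) (nat_lit 185) .nil))))))) (.g (nat_lit 1) (.e (nat_lit 327165) (nat_lit 0) .nil) .nil))) 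
(.lf (nat_lit 565011) (.g (nat_lit 1986) (.e (nat_lit 434234) (nat_lit 23) (.e (nat_lit 532503) (nat_lit 1) (.e (nat_lit 57685) (nat_lit 156) (.e (nat_lit 163902) (nat_lit 12) (.e (nat_lit 426568) (nat_lit 34) .nil))))) (.g (nat_lit 0) (.e (nat_lit 328311) (nat_lit 0) .nil) .nil))))) (.nd (nat_lit 8) (.nd (nat_lit 9) 
(.lf (nat_lit 564371) (.g (nat_lit 2098) (.e (nat_lit 434231) (nat_lit 23) (.e (nat_lit 532522) (nat_lit 7) (.e (nat_lit 319531) (nat_lit 16) (.e (nat_lit 286735) (nat_lit 3) (.e (nat_lit 106240) (nat_lit 26) .nil))))) (.g (nat_lit 0) (.e (nat_lit 325964) (nat_lit 0) .nil) .nil))) 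
(.lf (nat_lit 564883) (.g (nat_lit 4061) (.e (nat_lit 434232) (nat_lit 23) (.e (nat_lit 532568) (nat_lit 16) (.e (nat_lit 401449) (nat_lit 11) (.e (nat_lit 458789) (nat_lit 23) (.e (nat_lit 532569) (nat_lit 16) (.e (nat_lit 401448) (nat_lit 10) .nil)))))) (.g (nat_lit 1) (.e (nat_lit 327969) (nat_lit 0) .nil) .nil)))) (.nd (nat_lit 9) 
(.lf (nat_lit 564627) (.g (nat_lit 3914) (.e (nat_lit 434231) (nat_lit 23) (.e (nat_lit 532550) (nat_lit 12) (.e (nat_lit 360475) (nat_lit 8) (.e (nat_lit 557089) (nat_lit 12) (.e (nat_lit 164020) (nat_lit 45) (.e (nat_lit 696327) (nat_lit 5) (.e (nat_lit 2978) (nat_lit 185) .nil))))))) (.g (nat_lit 1) (.e (nat_lit 327451) (nat_lit 0) .nil) .nil))) 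
(.lf (nat_lit 565139) (.g (nat_lit 1766) (.e (nat_lit 434242) (nat_lit 28) (.e (nat_lit 573471) (nat_lit 11) (.e (nat_lit 16388) (nat_lit 0) (.e (nat_lit 7495) (nat_lit 402) .nil)))) (.g (nat_lit 0) (.e (nat_lit 328855) (nat_lit 0) .nil) .nil)))))) (.nd (nat_lit 7) (.nd (nat_lit 8) (.nd (nat_lit 9) 
(.lf (nat_lit 564307) (.g (nat_lit 3085) (.e (nat_lit 434231) (nat_lit 23) (.e (nat_lit 532499) (nat_lit 1) (.e (nat_lit 57688) (nat_lit 156) (.e (nat_lit 163875) (nat_lit 3) (.e (nat_lit 204836) (nat_lit 20) (.e (nat_lit 114719) (nat_lit 23) (.e (nat_lit 98366) (nat_lit 27) .nil))))))) (.g (nat_lit 1) (.e (nat_lit 325846) (nat_lit 0) .nil) .nil))) 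
(.lf (nat_lit 564819) (.g (nat_lit 2140) (.e (nat_lit 434232) (nat_lit 23) (.e (nat_lit 532503) (nat_lit 1) (.e (nat_lit 57691) (nat_lit 156) (.e (nat_lit 163907) (nat_lit 12) (.e (nat_lit 426568) (nat_lit 34) .nil))))) (.g (nat_lit 0) (.e (nat_lit 327863) (nat_lit 0) .nil) .nil)))) (.nd (nat_lit 9) 
(.lf (nat_lit 564563) (.g (nat_lit 2408) (.e (nat_lit 434231) (nat_lit 23) (.e (nat_lit 532550) (nat_lit 12) (.e (nat_lit 360474) (nat_lit 8) (.e (nat_lit 557091) (nat_lit 12) .nil)))) (.g (nat_lit 0) (.e (nat_lit 327312) (nat_lit 0) .nil) .nil))) 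
(.lf (nat_lit 565075) (.g (nat_lit 1894) (.e (nat_lit 442112) (nat_lit 21) (.e (nat_lit 516129) (nat_lit 3) (.e (nat_lit 221210) (nat_lit 22) (.e (nat_lit 196668) (nat_lit 14) (.e (nat_lit 73750) (nat_lit 6) .nil))))) (.g (nat_lit 0) (.e (nat_lit 328433) (nat_lit 0) .nil) .nil))))) (.nd (nat_lit 8) (.nd (nat_lit 9) 
(.lf (nat_lit 564435) (.g (nat_lit 4096) (.e (nat_lit 434231) (nat_lit 23) (.e (nat_lit 532526) (nat_lit 8) (.e (nat_lit 327716) (nat_lit 16) (.e (nat_lit 286732) (nat_lit 2) (.e (nat_lit 90170) (nat_lit 13) (.e (nat_lit 172106) (nat_lit 10) .nil)))))) (.g (nat_lit 1) (.e (nat_lit 326041) (nat_lit 0) .nil) .nil))) 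
(.lf (nat_lit 564947) (.g (nat_lit 1397) (.e (nat_lit 434233) (nat_lit 23) (.e (nat_lit 532523) (nat_lit 7) (.e (nat_lit 319534) (nat_lit 16) (.e (nat_lit 286733) (nat_lit 2) .nil)))) (.g (nat_lit 0) (.e (nat_lit 328136) (nat_lit 0) .nil) .nil)))) (.nd (nat_lit 9) 
(.lf (nat_lit 564691) (.g (nat_lit 3333) (.e (nat_lit 434231) (nat_lit 23) (.e (nat_lit 532550) (nat_lit 12) (.e (nat_lit 360475) (nat_lit 8) (.e (nat_lit 557091) (nat_lit 12) (.e (nat_lit 164019) (nat_lit 45) (.e (nat_lit 696326) (nat_lit 5) (.e (nat_lit 2978) (nat_lit 185) .nil))))))) (.g (nat_lit 1) (.e (nat_lit 327567) (nat_lit 0) .nil) .nil))) 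
(.lf (nat_lit 565203) (.g (nat_lit 4113) (.e (nat_lit 434243) (nat_lit 28) (.e (nat_lit 573471) (nat_lit 11) (.e (nat_lit 16433) (nat_lit 9) (.e (nat_lit 426361) (nat_lit 15) .nil)))) (.g (nat_lit 0) (.e (nat_lit 328946) (nat_lit 0) .nil) .nil))))))) (.nd (nat_lit 6) (.nd (nat_lit 7) (.nd (nat_lit 8) (.nd (nat_lit 9) 
(.lf (nat_lit 564275) (.g (nat_lit 7808) (.e (nat_lit 434230) (nat_lit 23) (.e (nat_lit 532550) (nat_lit 12) (.e (nat_lit 360474) (nat_lit 8) (.e (nat_lit 557093) (nat_lit 12) (.e (nat_lit 164022) (nat_lit 46) (.e (nat_lit 704629) (nat_lit 9) (.e (nat_lit 442) (nat_lit 33) .nil))))))) (.g (nat_lit 1) (.e (nat_lit 325782) (nat_lit 0) .nil) .nil))) 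
(.lf (nat_lit 564787) (.g (nat_lit 2161) (.e (nat_lit 434232) (nat_lit 23) (.e (nat_lit 532499) (nat_lit 1) (.e (nat_lit 57691) (nat_lit 156) (.e (nat_lit 163871) (nat_lit 2) (.e (nat_lit 196624) (nat_lit 9) .nil))))) (.g (nat_lit 0) (.e (nat_lit 327830) (nat_lit 0) .nil) .nil)))) (.nd (nat_lit 9) 
(.lf (nat_lit 564531) (.g (nat_lit 4274) (.e (nat_lit 434231) (nat_lit 23) (.e (nat_lit 532549) (nat_lit 12) (.e (nat_lit 360475) (nat_lit 8) (.e (nat_lit 557091) (nat_lit 12) (.e (nat_lit 164020) (nat_lit 45) (.e (nat_lit 696329) (nat_lit 5) (.e (nat_lit 2964) (nat_lit 185) .nil))))))) (.g (nat_lit 1) (.e (nat_lit 327258) (nat_lit 0) .nil) .nil))) 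
(.lf (nat_lit 565043) (.g (nat_lit 4496) (.e (nat_lit 434234) (nat_lit 23) (.e (nat_lit 532550) (nat_lit 12) (.e (nat_lit 360475) (nat_lit 8) (.e (nat_lit 557089) (nat_lit 12) .nil)))) (.g (nat_lit 0) (.e (nat_lit 328357) (nat_lit 0) .nil) .nil))))) (.nd (nat_lit 8) (.nd (nat_lit 9) 
(.lf (nat_lit 564403) (.g (nat_lit 2257) (.e (nat_lit 434231) (nat_lit 23) (.e (nat_lit 532523) (nat_lit 7) (.e (nat_lit 319531) (nat_lit 16) (.e (nat_lit 286733) (nat_lit 2) (.e (nat_lit 90134) (nat_lit 9) .nil))))) (.g (nat_lit 0) (.e (nat_lit 326003) (nat_lit 0) .nil) .nil))) 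
(.lf (nat_lit 564915) (.g (nat_lit 1520) (.e (nat_lit 434233) (nat_lit 23) (.e (nat_lit 532503) (nat_lit 1) (.e (nat_lit 57667) (nat_lit 152) (.e (nat_lit 2619) (nat_lit 164) (.e (nat_lit 179968) (nat_lit 34) .nil))))) (.g (nat_lit 0) (.e (nat_lit 328018) (nat_lit 0) .nil) .nil)))) (.nd (nat_lit 9) 
(.lf (nat_lit 564659) (.g (nat_lit 3634) (.e (nat_lit 434231) (nat_lit 23) (.e (nat_lit 532550) (nat_lit 12) (.e (nat_lit 360475) (nat_lit 8) (.e (nat_lit 557091) (nat_lit 12) (.e (nat_lit 163844) (nat_lit 0) (.e (nat_lit 6416) (nat_lit 341) (.e (nat_lit 163918) (nat_lit 13) .nil))))))) (.g (nat_lit 1) (.e (nat_lit 327506) (nat_lit 0) .nil) .nil))) 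
(.lf (nat_lit 565171) (.g (nat_lit 2209) (.e (nat_lit 434242) (nat_lit 28) (.e (nat_lit 573474) (nat_lit 12) (.e (nat_lit 57354) (nat_lit 0) (.e (nat_lit 7272) (nat_lit 385) (.e (nat_lit 122906) (nat_lit 12) .nil))))) (.g (nat_lit 0) (.e (nat_lit 328891) (nat_lit 0) .nil) .nil)))))) (.nd (nat_lit 7) (.nd (nat_lit 8) (.nd (nat_lit 9) 
(.lf (nat_lit 564339) (.g (nat_lit 2579) (.e (nat_lit 434231) (nat_lit 23) (.e (nat_lit 532504) (nat_lit 1) (.e (nat_lit 57692) (nat_lit 156) (.e (nat_lit 163869) (nat_lit 2) (.e (nat_lit 196624) (nat_lit 9) .nil))))) (.g (nat_lit 0) (.e (nat_lit 325896) (nat_lit 0) .nil) .nil))) 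
(.lf (nat_lit 564851) (.g (nat_lit 1512) (.e (nat_lit 434232) (nat_lit 23) (.e (nat_lit 532523) (nat_lit 7) (.e (nat_lit 319505) (nat_lit 10) (.e (nat_lit 7936) (nat_lit 298) .nil)))) (.g (nat_lit 0) (.e (nat_lit 327898) (nat_lit 0) .nil) .nil)))) (.nd (nat_lit 9) 
(.lf (nat_lit 564595) (.g (nat_lit 3223) (.e (nat_lit 434231) (nat_lit 23) (.e (nat_lit 532550) (nat_lit 12) (.e (nat_lit 360474) (nat_lit 8) (.e (nat_lit 557094) (nat_lit 12) (.e (nat_lit 164022) (nat_lit 46) (.e (nat_lit 704627) (nat_lit 9) (.e (nat_lit 450) (nat_lit 33) .nil))))))) (.g (nat_lit 1) (.e (nat_lit 327370) (nat_lit 0) .nil) .nil))) 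
(.lf (nat_lit 565107) (.g (nat_lit 595) (.e (nat_lit 434238) (nat_lit 25) (.e (nat_lit 548913) (nat_lit 18) (.e (nat_lit 172126) (nat_lit 14) .nil))) (.g (nat_lit 0) (.e (nat_lit 328795) (nat_lit 0) .nil) .nil))))) (.nd (nat_lit 8) (.nd (nat_lit 9) 
(.lf (nat_lit 564467) (.g (nat_lit 3633) (.e (nat_lit 434231) (nat_lit 23) (.e (nat_lit 532549) (nat_lit 12) (.e (nat_lit 360473) (nat_lit 8) (.e (nat_lit 557091) (nat_lit 12) (.e (nat_lit 163850) (nat_lit 0) (.e (nat_lit 6427) (nat_lit 342) (.e (nat_lit 229409) (nat_lit 13) .nil))))))) (.g (nat_lit 1) (.e (nat_lit 326999) (nat_lit 0) .nil) .nil))) 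
(.lf (nat_lit 564979) (.g (nat_lit 3825) (.e (nat_lit 434233) (nat_lit 23) (.e (nat_lit 532550) (nat_lit 12) (.e (nat_lit 360475) (nat_lit 8) (.e (nat_lit 557091) (nat_lit 12) (.e (nat_lit 164022) (nat_lit 46) (.e (nat_lit 704628) (nat_lit 9) (.e (nat_lit 442) (nat_lit 33) .nil))))))) (.g (nat_lit 1) (.e (nat_lit 328208) (nat_lit 0) .nil) .nil)))) (.nd (nat_lit 9) 
(.lf (nat_lit 564723) (.g (nat_lit 3349) (.e (nat_lit 434231) (nat_lit 23) (.e (nat_lit 532569) (nat_lit 16) (.e (nat_lit 401434) (nat_lit 9) (.e (nat_lit 426125) (nat_lit 2) (.e (nat_lit 196638) (nat_lit 9) .nil))))) (.g (nat_lit 0) (.e (nat_lit 327663) (nat_lit 0) .nil) .nil))) 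
(.lf (nat_lit 565235) (.g (nat_lit 4607) (.e (nat_lit 434244) (nat_lit 28) (.e (nat_lit 573451) (nat_lit 9) (.e (nat_lit 430) (nat_lit 32) (.e (nat_lit 426343) (nat_lit 14) (.e (nat_lit 491535) (nat_lit 2) (.e (nat_lit 90170) (nat_lit 13) (.e (nat_lit 172106) (nat_lit 10) .nil))))))) (.g (nat_lit 1) (.e (nat_lit 328995) (nat_lit 0) .nil) .nil))))))))) 
(.nd (nat_lit 4) (.nd (nat_lit 5) (.nd (nat_lit 6) (.nd (nat_lit 7) (.nd (nat_lit 8) 
(.nd (nat_lit 9) 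
(.lf (nat_lit 564235) (.g (nat_lit 2926) (.e (nat_lit 434227) (nat_lit 20) (.e (nat_lit 507929) (nat_lit 10) (.e (nat_lit 5616) (nat_lit 312) (.e (nat_lit 3063) (nat_lit 190) (.e (nat_lit 475185) (nat_lit 29) (.e (nat_lit 557101) (nat_lit 13) (.e (nat_lit 172115) (nat_lit 10) .nil))))))) (.g (nat_lit 1) (.e (nat_lit 325614) (nat_lit 0) .nil) .nil))) 
(.lf (nat_lit 564747) (.g (nat_lit 3440) (.e (nat_lit 434231) (nat_lit 23) (.e (nat_lit 532569) (nat_lit 16) (.e (nat_lit 401448) (nat_lit 10) (.e (nat_lit 434244) (nat_lit 28) (.e (nat_lit 573471) (nat_lit 11) (.e (nat_lit 16449) (nat_lit 10) .nil)))))) (.g (nat_lit 1) (.e (nat_lit 327715) (nat_lit 0) .nil) .nil)))) (.nd (nat_lit 9) 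
(.lf (nat_lit 564491) (.g (nat_lit 255) (.e (nat_lit 434231) (nat_lit 23) (.e (nat_lit 532549) (nat_lit 12) (.e (nat_lit 360475) (nat_lit 8) .nil))) (.g (nat_lit 0) (.e (nat_lit 327101) (nat_lit 0) .nil) .nil))) 
(.lf (nat_lit 565003) (.g (nat_lit 2440) (.e (nat_lit 434234) (nat_lit 23) (.e (nat_lit 532501) (nat_lit 1) (.e (nat_lit 57692) (nat_lit 156) (.e (nat_lit 163869) (nat_lit 2) (.e (nat_lit 196624) (nat_lit 9) .nil))))) (.g (nat_lit 0) (.e (nat_lit 328303) (nat_lit 0) .nil) .nil))))) (.nd (nat_lit 8) (.nd (nat_lit 9) 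
(.lf (nat_lit 564363) (.g (nat_lit 2152) (.e (nat_lit 434231) (nat_lit 23) (.e (nat_lit 532522) (nat_lit 7) (.e (nat_lit 319531) (nat_lit 16) (.e (nat_lit 286733) (nat_lit 2) (.e (nat_lit 90134) (nat_lit 9) .nil))))) (.g (nat_lit 0) (.e (nat_lit 325956) (nat_lit 0) .nil) .nil))) 
(.lf (nat_lit 564875) (.g (nat_lit 6951) (.e (nat_lit 434232) (nat_lit 23) (.e (nat_lit 532550) (nat_lit 12) (.e (nat_lit 360475) (nat_lit 8) (.e (nat_lit 557090) (nat_lit 12) .nil)))) (.g (nat_lit 0) (.e (nat_lit 327945) (nat_lit 0) .nil) .nil)))) (.nd (nat_lit 9) 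
(.lf (nat_lit 564619) (.g (nat_lit 4966) (.e (nat_lit 434231) (nat_lit 23) (.e (nat_lit 532550) (nat_lit 12) (.e (nat_lit 360475) (nat_lit 8) (.e (nat_lit 557089) (nat_lit 12) (.e (nat_lit 163850) (nat_lit 0) (.e (nat_lit 6425) (nat_lit 342) (.e (nat_lit 229408) (nat_lit 13) .nil))))))) (.g (nat_lit 1) (.e (nat_lit 327435) (nat_lit 0) .nil) .nil))) 
(.lf (nat_lit 565131) (.g (nat_lit 1296) (.e (nat_lit 434242) (nat_lit 28) (.e (nat_lit 573458) (nat_lit 9) (.e (nat_lit 426) (nat_lit 32) (.e (nat_lit 426298) (nat_lit 11) .nil)))) (.g (nat_lit 0) (.e (nat_lit 328847) (nat_lit 0) .nil) .nil)))))) (.nd (nat_lit 7) (.nd (nat_lit 8) (.nd (nat_lit 9) 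
(.lf (nat_lit 564299) (.g (nat_lit 1185) (.e (nat_lit 434231) (nat_lit 23) (.e (nat_lit 532490) (nat_lit 0) (.e (nat_lit 6114) (nat_lit 332) (.e (nat_lit 973) (nat_lit 81) .nil)))) (.g (nat_lit 0) (.e (nat_lit 325833) (nat_lit 0) .nil) .nil))) 
(.lf (nat_lit 564811) (.g (nat_lit 3198) (.e (nat_lit 434232) (nat_lit 23) (.e (nat_lit 532503) (nat_lit 1) (.e (nat_lit 57688) (nat_lit 156) (.e (nat_lit 163874) (nat_lit 3) (.e (nat_lit 204836) (nat_lit 20) (.e (nat_lit 114718) (nat_lit 23) (.e (nat_lit 98367) (nat_lit 27) .nil))))))) (.g (nat_lit 1) (.e (nat_lit 327855) (nat_lit 0) .nil) .nil)))) (.nd (nat_lit 9) 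
(.lf (nat_lit 564555) (.g (nat_lit 3867) (.e (nat_lit 434231) (nat_lit 23) (.e (nat_lit 532550) (nat_lit 12) (.e (nat_lit 360474) (nat_lit 8) (.e (nat_lit 557088) (nat_lit 12) (.e (nat_lit 164020) (nat_lit 45) (.e (nat_lit 696329) (nat_lit 5) (.e (nat_lit 2980) (nat_lit 185) .nil))))))) (.g (nat_lit 1) (.e (nat_lit 327303) (nat_lit 0) .nil) .nil))) 
(.lf (nat_lit 565067) (.g (nat_lit 1969) (.e (nat_lit 434235) (nat_lit 24) (.e (nat_lit 540706) (nat_lit 12) (.e (nat_lit 360475) (nat_lit 8) (.e (nat_lit 557091) (nat_lit 12) .nil)))) (.g (nat_lit 0) (.e (nat_lit 328423) (nat_lit 0) .nil) .nil))))) (.nd (nat_lit 8) (.nd (nat_lit 9) 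
(.lf (nat_lit 564427) (.g (nat_lit 4755) (.e (nat_lit 434231) (nat_lit 23) (.e (nat_lit 532523) (nat_lit 7) (.e (nat_lit 319535) (nat_lit 17) (.e (nat_lit 294928) (nat_lit 2) (.e (nat_lit 90170) (nat_lit 13) (.e (nat_lit 172106) (nat_lit 10) .nil)))))) (.g (nat_lit 1) (.e (nat_lit 326029) (nat_lit 0) .nil) .nil))) 
(.lf (nat_lit 564939) (.g (nat_lit 2992) (.e (nat_lit 434233) (nat_lit 23) (.e (nat_lit 532523) (nat_lit 7) (.e (nat_lit 319533) (nat_lit 16) (.e (nat_lit 286733) (nat_lit 2) (.e (nat_lit 90169) (nat_lit 13) (.e (nat_lit 172111) (nat_lit 10) .nil)))))) (.g (nat_lit 1) (.e (nat_lit 328116) (nat_lit 0) .nil) .nil)))) (.nd (nat_lit 9) 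
(.lf (nat_lit 564683) (.g (nat_lit 3216) (.e (nat_lit 434231) (nat_lit 23) (.e (nat_lit 532550) (nat_lit 12) (.e (nat_lit 360475) (nat_lit 8) (.e (nat_lit 557091) (nat_lit 12) (.e (nat_lit 164018) (nat_lit 45) (.e (nat_lit 696326) (nat_lit 5) (.e (nat_lit 2978) (nat_lit 185) .nil))))))) (.g (nat_lit 1) (.e (nat_lit 327559) (nat_lit 0) .nil) .nil))) 
(.lf (nat_lit 565195) (.g (nat_lit 1350) (.e (nat_lit 434242) (nat_lit 28) (.e (nat_lit 573503) (nat_lit 18) (.e (nat_lit 1358) (nat_lit 102) (.e (nat_lit 286753) (nat_lit 10) (.e (nat_lit 344183) (nat_lit 49) .nil))))) (.g (nat_lit 0) (.e (nat_lit 328937) (nat_lit 0) .nil) .nil))))))) (.nd (nat_lit 6) (.nd (nat_lit 7) (.nd (nat_lit 8) (.nd (nat_lit 9) 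
(.lf (nat_lit 564267) (.g (nat_lit 3859) (.e (nat_lit 434230) (nat_lit 23) (.e (nat_lit 532535) (nat_lit 9) (.e (nat_lit 336176) (nat_lit 10) (.e (nat_lit 344132) (nat_lit 26) (.e (nat_lit 557094) (nat_lit 12) .nil))))) (.g (nat_lit 0) (.e (nat_lit 325770) (nat_lit 0) .nil) .nil))) 
(.lf (nat_lit 564779) (.g (nat_lit 2798) (.e (nat_lit 434232) (nat_lit 23) (.e (nat_lit 532499) (nat_lit 1) (.e (nat_lit 57688) (nat_lit 156) (.e (nat_lit 163873) (nat_lit 3) (.e (nat_lit 204838) (nat_lit 20) .nil))))) (.g (nat_lit 0) (.e (nat_lit 327820) (nat_lit 0) .nil) .nil)))) (.nd (nat_lit 9) 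
(.lf (nat_lit 564523) (.g (nat_lit 3444) (.e (nat_lit 434231) (nat_lit 23) (.e (nat_lit 532549) (nat_lit 12) (.e (nat_lit 360475) (nat_lit 8) (.e (nat_lit 557091) (nat_lit 12) (.e (nat_lit 164018) (nat_lit 45) (.e (nat_lit 696329) (nat_lit 5) (.e (nat_lit 2964) (nat_lit 185) .nil))))))) (.g (nat_lit 1) (.e (nat_lit 327249) (nat_lit 0) .nil) .nil))) 
(.lf (nat_lit 565035) (.g (nat_lit 2152) (.e (nat_lit 434234) (nat_lit 23) (.e (nat_lit 532535) (nat_lit 9) (.e (nat_lit 336176) (nat_lit 10) .nil))) (.g (nat_lit 0) (.e (nat_lit 328348) (nat_lit 0) .nil) .nil))))) (.nd (nat_lit 8) (.nd (nat_lit 9) 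
(.lf (nat_lit 564395) (.g (nat_lit 2962) (.e (nat_lit 434231) (nat_lit 23) (.e (nat_lit 532523) (nat_lit 7) (.e (nat_lit 319530) (nat_lit 16) (.e (nat_lit 286733) (nat_lit 2) (.e (nat_lit 90134) (nat_lit 9) (.e (nat_lit 2886) (nat_lit 184) (.e (nat_lit 426290) (nat_lit 10) .nil))))))) (.g (nat_lit 1) (.e (nat_lit 325995) (nat_lit 0) .nil) .nil))) 
(.lf (nat_lit 564907) (.g (nat_lit 1416) (.e (nat_lit 434233) (nat_lit 23) (.e (nat_lit 532501) (nat_lit 1) (.e (nat_lit 57692) (nat_lit 156) (.e (nat_lit 163907) (nat_lit 12) .nil)))) (.g (nat_lit 0) (.e (nat_lit 328010) (nat_lit 0) .nil) .nil)))) (.nd (nat_lit 9) 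
(.lf (nat_lit 564651) (.g (nat_lit 3159) (.e (nat_lit 434231) (nat_lit 23) (.e (nat_lit 532550) (nat_lit 12) (.e (nat_lit 360475) (nat_lit 8) (.e (nat_lit 557091) (nat_lit 12) (.e (nat_lit 163840) (nat_lit 0) (.e (nat_lit 6426) (nat_lit 342) (.e (nat_lit 229409) (nat_lit 13) .nil))))))) (.g (nat_lit 1) (.e (nat_lit 327480) (nat_lit 0) .nil) .nil))) 
(.lf (nat_lit 565163) (.g (nat_lit 1730) (.e (nat_lit 434242) (nat_lit 28) (.e (nat_lit 573471) (nat_lit 11) (.e (nat_lit 16472) (nat_lit 14) (.e (nat_lit 491536) (nat_lit 2) .nil)))) (.g (nat_lit 0) (.e (nat_lit 328882) (nat_lit 0) .nil) .nil)))))) (.nd (nat_lit 7) (.nd (nat_lit 8) (.nd (nat_lit 9) 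
(.lf (nat_lit 564331) (.g (nat_lit 4907) (.e (nat_lit 434231) (nat_lit 23) (.e (nat_lit 532500) (nat_lit 1) (.e (nat_lit 57692) (nat_lit 156) (.e (nat_lit 163874) (nat_lit 3) (.e (nat_lit 204837) (nat_lit 20) (.e (nat_lit 114719) (nat_lit 23) (.e (nat_lit 98366) (nat_lit 27) .nil))))))) (.g (nat_lit 1) (.e (nat_lit 325887) (nat_lit 0) .nil) .nil))) 
(.lf (nat_lit 564843) (.g (nat_lit 1463) (.e (nat_lit 434232) (nat_lit 23) (.e (nat_lit 532513) (nat_lit 3) (.e (nat_lit 114718) (nat_lit 23) (.e (nat_lit 98334) (nat_lit 18) .nil)))) (.g (nat_lit 0) (.e (nat_lit 327889) (nat_lit 0) .nil) .nil)))) (.nd (nat_lit 9) 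
(.lf (nat_lit 564587) (.g (nat_lit 2669) (.e (nat_lit 434231) (nat_lit 23) (.e (nat_lit 532550) (nat_lit 12) (.e (nat_lit 360474) (nat_lit 8) (.e (nat_lit 557094) (nat_lit 12) (.e (nat_lit 163852) (nat_lit 0) (.e (nat_lit 6425) (nat_lit 342) (.e (nat_lit 229408) (nat_lit 13) .nil))))))) (.g (nat_lit 1) (.e (nat_lit 327360) (nat_lit 0) .nil) .nil))) 
(.lf (nat_lit 565099) (.g (nat_lit 2773) (.e (nat_lit 434238) (nat_lit 25) (.e (nat_lit 548913) (nat_lit 18) (.e (nat_lit 172120) (nat_lit 12) (.e (nat_lit 475185) (nat_lit 29) (.e (nat_lit 557100) (nat_lit 13) (.e (nat_lit 172112) (nat_lit 10) .nil)))))) (.g (nat_lit 1) (.e (nat_lit 328787) (nat_lit 0) .nil) .nil))))) (.nd (nat_lit 8) (.nd (nat_lit 9) 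
(.lf (nat_lit 564459) (.g (nat_lit 996) (.e (nat_lit 434231) (nat_lit 23) (.e (nat_lit 532549) (nat_lit 12) (.e (nat_lit 360473) (nat_lit 8) (.e (nat_lit 557089) (nat_lit 12) .nil)))) (.g (nat_lit 0) (.e (nat_lit 326891) (nat_lit 0) .nil) .nil))) 
(.lf (nat_lit 564971) (.g (nat_lit 2020) (.e (nat_lit 434233) (nat_lit 23) (.e (nat_lit 532550) (nat_lit 12) (.e (nat_lit 360474) (nat_lit 8) (.e (nat_lit 557093) (nat_lit 12) .nil)))) (.g (nat_lit 0) (.e (nat_lit 328196) (nat_lit 0) .nil) .nil)))) (.nd (nat_lit 9) 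
(.lf (nat_lit 564715) (.g (nat_lit 3048) (.e (nat_lit 434231) (nat_lit 23) (.e (nat_lit 532568) (nat_lit 16) (.e (nat_lit 401450) (nat_lit 12) (.e (nat_lit 475185) (nat_lit 29) (.e (nat_lit 557101) (nat_lit 13) (.e (nat_lit 172115) (nat_lit 10) .nil)))))) (.g (nat_lit 1) (.e (nat_lit 327646) (nat_lit 0) .nil) .nil))) 
(.lf (nat_lit 565227) (.g (nat_lit 4519) (.e (nat_lit 434244) (nat_lit 28) (.e (nat_lit 573450) (nat_lit 9) (.e (nat_lit 459) (nat_lit 34) (.e (nat_lit 442379) (nat_lit 0) (.e (nat_lit 1856) (nat_lit 124) (.e (nat_lit 557101) (nat_lit 13) (.e (nat_lit 172115) (nat_lit 10) .nil))))))) (.g (nat_lit 1) (.e (nat_lit 328979) (nat_lit 0) .nil) .nil)))))))) 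
(.nd (nat_lit 5) (.nd (nat_lit 6) (.nd (nat_lit 7) (.nd (nat_lit 8) (.nd (nat_lit 9) 
(.lf (nat_lit 564251) (.g (nat_lit 2072) (.e (nat_lit 434227) (nat_lit 20) (.e (nat_lit 507943) (nat_lit 17) (.e (nat_lit 294938) (nat_lit 9) (.e (nat_lit 336324) (nat_lit 18) (.e (nat_lit 204837) (nat_lit 20) (.e (nat_lit 122624) (nat_lit 12) .nil)))))) (.g (nat_lit 1) (.e (nat_lit 325744) (nat_lit 0) .nil) .nil))) 
(.lf (nat_lit 564763) (.g (nat_lit 2084) (.e (nat_lit 434231) (nat_lit 23) (.e (nat_lit 532579) (nat_lit 26) (.e (nat_lit 426099) (nat_lit 1) (.e (nat_lit 164399) (nat_lit 256) (.e (nat_lit 57410) (nat_lit 12) (.e (nat_lit 336398) (nat_lit 27) (.e (nat_lit 426290) (nat_lit 10) .nil))))))) (.g (nat_lit 1) (.e (nat_lit 327748) (nat_lit 0) .nil) .nil)))) (.nd (nat_lit 9) 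
(.lf (nat_lit 564507) (.g (nat_lit 2972) (.e (nat_lit 434231) (nat_lit 23) (.e (nat_lit 532549) (nat_lit 12) (.e (nat_lit 360475) (nat_lit 8) (.e (nat_lit 557090) (nat_lit 12) (.e (nat_lit 164020) (nat_lit 45) (.e (nat_lit 696327) (nat_lit 5) (.e (nat_lit 2980) (nat_lit 185) .nil))))))) (.g (nat_lit 1) (.e (nat_lit 327176) (nat_lit 0) .nil) .nil))) 
(.lf (nat_lit 565019) (.g (nat_lit 2532) (.e (nat_lit 434234) (nat_lit 23) (.e (nat_lit 532504) (nat_lit 1) (.e (nat_lit 57692) (nat_lit 156) (.e (nat_lit 163875) (nat_lit 3) (.e (nat_lit 204836) (nat_lit 20) .nil))))) (.g (nat_lit 0) (.e (nat_lit 328319) (nat_lit 0) .nil) .nil))))) (.nd (nat_lit 8) (.nd (nat_lit 9) 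
(.lf (nat_lit 564379) (.g (nat_lit 5301) (.e (nat_lit 434231) (nat_lit 23) (.e (nat_lit 532523) (nat_lit 7) (.e (nat_lit 319529) (nat_lit 16) (.e (nat_lit 286733) (nat_lit 2) (.e (nat_lit 90170) (nat_lit 13) (.e (nat_lit 172115) (nat_lit 10) .nil)))))) (.g (nat_lit 1) (.e (nat_lit 325974) (nat_lit 0) .nil) .nil))) 
(.lf (nat_lit 564891) (.g (nat_lit 574) (.e (nat_lit 434233) (nat_lit 23) (.e (nat_lit 532499) (nat_lit 1) (.e (nat_lit 57688) (nat_lit 156) .nil))) (.g (nat_lit 0) (.e (nat_lit 327994) (nat_lit 0) .nil) .nil)))) (.nd (nat_lit 9) 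
(.lf (nat_lit 564635) (.g (nat_lit 3511) (.e (nat_lit 434231) (nat_lit 23) (.e (nat_lit 532550) (nat_lit 12) (.e (nat_lit 360475) (nat_lit 8) (.e (nat_lit 557089) (nat_lit 12) (.e (nat_lit 164020) (nat_lit 45) (.e (nat_lit 696330) (nat_lit 5) (.e (nat_lit 2981) (nat_lit 185) .nil))))))) (.g (nat_lit 1) (.e (nat_lit 327459) (nat_lit 0) .nil) .nil))) 
(.lf (nat_lit 565147) (.g (nat_lit 4052) (.e (nat_lit 434242) (nat_lit 28) (.e (nat_lit 573471) (nat_lit 11) (.e (nat_lit 16433) (nat_lit 9) (.e (nat_lit 433920) (nat_lit 15) .nil)))) (.g (nat_lit 0) (.e (nat_lit 328864) (nat_lit 0) .nil) .nil)))))) (.nd (nat_lit 7) (.nd (nat_lit 8) (.nd (nat_lit 9) 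
(.lf (nat_lit 564315) (.g (nat_lit 2933) (.e (nat_lit 434231) (nat_lit 23) (.e (nat_lit 532499) (nat_lit 1) (.e (nat_lit 57691) (nat_lit 156) (.e (nat_lit 163907) (nat_lit 12) (.e (nat_lit 426566) (nat_lit 34) (.e (nat_lit 393282) (nat_lit 24) .nil)))))) (.g (nat_lit 1) (.e (nat_lit 325864) (nat_lit 0) .nil) .nil))) 
(.lf (nat_lit 564827) (.g (nat_lit 2345) (.e (nat_lit 434232) (nat_lit 23) (.e (nat_lit 532504) (nat_lit 1) (.e (nat_lit 57691) (nat_lit 156) (.e (nat_lit 163871) (nat_lit 2) (.e (nat_lit 196624) (nat_lit 9) .nil))))) (.g (nat_lit 0) (.e (nat_lit 327871) (nat_lit 0) .nil) .nil)))) (.nd (nat_lit 9) 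
(.lf (nat_lit 564571) (.g (nat_lit 2327) (.e (nat_lit 434231) (nat_lit 23) (.e (nat_lit 532550) (nat_lit 12) (.e (nat_lit 360474) (nat_lit 8) (.e (nat_lit 557093) (nat_lit 12) (.e (nat_lit 163847) (nat_lit 0) (.e (nat_lit 6420) (nat_lit 341) (.e (nat_lit 163916) (nat_lit 13) .nil))))))) (.g (nat_lit 1) (.e (nat_lit 327323) (nat_lit 0) .nil) .nil))) 
(.lf (nat_lit 565083) (.g (nat_lit 3682) (.e (nat_lit 434238) (nat_lit 25) (.e (nat_lit 548896) (nat_lit 14) (.e (nat_lit 2884) (nat_lit 184) (.e (nat_lit 426317) (nat_lit 12) (.e (nat_lit 475185) (nat_lit 29) (.e (nat_lit 557101) (nat_lit 13) (.e (nat_lit 172115) (nat_lit 10) .nil))))))) (.g (nat_lit 1) (.e (nat_lit 328498) (nat_lit 0) .nil) .nil))))) (.nd (nat_lit 8) (.nd (nat_lit 9) 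
(.lf (nat_lit 564443) (.g (nat_lit 5876) (.e (nat_lit 434231) (nat_lit 23) (.e (nat_lit 532535) (nat_lit 9) (.e (nat_lit 336295) (nat_lit 15) (.e (nat_lit 3629) (nat_lit 227) (.e (nat_lit 778318) (nat_lit 3) (.e (nat_lit 57475) (nat_lit 28) (.e (nat_lit 557100) (nat_lit 13) (.e (nat_lit 172106) (nat_lit 10) .nil)))))))) (.g (nat_lit 1) (.e (nat_lit 326775) (nat_lit 0) .nil) .nil))) 
(.lf (nat_lit 564955) (.g (nat_lit 3045) (.e (nat_lit 434233) (nat_lit 23) (.e (nat_lit 532523) (nat_lit 7) (.e (nat_lit 319534) (nat_lit 16) (.e (nat_lit 286735) (nat_lit 3) (.e (nat_lit 98362) (nat_lit 26) .nil))))) (.g (nat_lit 0) (.e (nat_lit 328150) (nat_lit 0) .nil) .nil)))) (.nd (nat_lit 9) 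
(.lf (nat_lit 564699) (.g (nat_lit 3763) (.e (nat_lit 434231) (nat_lit 23) (.e (nat_lit 532550) (nat_lit 12) (.e (nat_lit 360475) (nat_lit 8) (.e (nat_lit 557091) (nat_lit 12) (.e (nat_lit 164020) (nat_lit 45) (.e (nat_lit 696330) (nat_lit 5) (.e (nat_lit 2981) (nat_lit 185) .nil))))))) (.g (nat_lit 1) (.e (nat_lit 327575) (nat_lit 0) .nil) .nil))) 
(.lf (nat_lit 565211) (.g (nat_lit 642) (.e (nat_lit 434243) (nat_lit 28) (.e (nat_lit 573489) (nat_lit 14) (.e (nat_lit 73755) (nat_lit 8) .nil))) (.g (nat_lit 0) (.e (nat_lit 328957) (nat_lit 0) .nil) .nil))))))) (.nd (nat_lit 6) (.nd (nat_lit 7) (.nd (nat_lit 8) (.nd (nat_lit 9) 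
(.lf (nat_lit 564283) (.g (nat_lit 3926) (.e (nat_lit 434230) (nat_lit 23) (.e (nat_lit 532550) (nat_lit 12) (.e (nat_lit 360475) (nat_lit 8) (.e (nat_lit 557089) (nat_lit 12) (.e (nat_lit 171776) (nat_lit 49) .nil))))) (.g (nat_lit 0) (.e (nat_lit 325793) (nat_lit 0) .nil) .nil))) 
(.lf (nat_lit 564795) (.g (nat_lit 2104) (.e (nat_lit 434232) (nat_lit 23) (.e (nat_lit 532499) (nat_lit 1) (.e (nat_lit 57692) (nat_lit 156) (.e (nat_lit 163907) (nat_lit 12) (.e (nat_lit 426568) (nat_lit 34) (.e (nat_lit 393283) (nat_lit 24) .nil)))))) (.g (nat_lit 1) (.e (nat_lit 327838) (nat_lit 0) .nil) .nil)))) (.nd (nat_lit 9) 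
(.lf (nat_lit 564539) (.g (nat_lit 3399) (.e (nat_lit 434231) (nat_lit 23) (.e (nat_lit 532550) (nat_lit 12) (.e (nat_lit 360472) (nat_lit 8) (.e (nat_lit 557090) (nat_lit 12) (.e (nat_lit 164020) (nat_lit 45) (.e (nat_lit 696327) (nat_lit 5) (.e (nat_lit 2980) (nat_lit 185) .nil))))))) (.g (nat_lit 1) (.e (nat_lit 327286) (nat_lit 0) .nil) .nil))) 
(.lf (nat_lit 565051) (.g (nat_lit 2065) (.e (nat_lit 442112) (nat_lit 23) (.e (nat_lit 532569) (nat_lit 16) (.e (nat_lit 401448) (nat_lit 10) (.e (nat_lit 434231) (nat_lit 23) .nil)))) (.g (nat_lit 0) (.e (nat_lit 328401) (nat_lit 0) .nil) .nil))))) (.nd (nat_lit 8) (.nd (nat_lit 9) 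
(.lf (nat_lit 564411) (.g (nat_lit 2433) (.e (nat_lit 434231) (nat_lit 23) (.e (nat_lit 532523) (nat_lit 7) (.e (nat_lit 319531) (nat_lit 16) (.e (nat_lit 286733) (nat_lit 2) (.e (nat_lit 90134) (nat_lit 9) (.e (nat_lit 2882) (nat_lit 184) (.e (nat_lit 426275) (nat_lit 10) .nil))))))) (.g (nat_lit 1) (.e (nat_lit 326013) (nat_lit 0) .nil) .nil))) 
(.lf (nat_lit 564923) (.g (nat_lit 1670) (.e (nat_lit 434233) (nat_lit 23) (.e (nat_lit 532522) (nat_lit 7) (.e (nat_lit 319530) (nat_lit 16) (.e (nat_lit 286733) (nat_lit 2) .nil)))) (.g (nat_lit 0) (.e (nat_lit 328069) (nat_lit 0) .nil) .nil)))) (.nd (nat_lit 9) 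
(.lf (nat_lit 564667) (.g (nat_lit 3352) (.e (nat_lit 434231) (nat_lit 23) (.e (nat_lit 532550) (nat_lit 12) (.e (nat_lit 360475) (nat_lit 8) (.e (nat_lit 557091) (nat_lit 12) (.e (nat_lit 163849) (nat_lit 0) (.e (nat_lit 6420) (nat_lit 341) (.e (nat_lit 163916) (nat_lit 13) .nil))))))) (.g (nat_lit 1) (.e (nat_lit 327523) (nat_lit 0) .nil) .nil))) 
(.lf (nat_lit 565179) (.g (nat_lit 1538) (.e (nat_lit 434242) (nat_lit 28) (.e (nat_lit 573488) (nat_lit 14) (.e (nat_lit 73755) (nat_lit 8) (.e (nat_lit 557089) (nat_lit 12) .nil)))) (.g (nat_lit 0) (.e (nat_lit 328913) (nat_lit 0) .nil) .nil)))))) (.nd (nat_lit 7) (.nd (nat_lit 8) (.nd (nat_lit 9) 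
(.lf (nat_lit 564347) (.g (nat_lit 4498) (.e (nat_lit 434231) (nat_lit 23) (.e (nat_lit 532514) (nat_lit 3) (.e (nat_lit 114718) (nat_lit 23) (.e (nat_lit 98334) (nat_lit 18) (.e (nat_lit 164403) (nat_lit 256) (.e (nat_lit 57378) (nat_lit 3) (.e (nat_lit 98366) (nat_lit 27) .nil))))))) (.g (nat_lit 1) (.e (nat_lit 325929) (nat_lit 0) .nil) .nil))) 
(.lf (nat_lit 564859) (.g (nat_lit 1709) (.e (nat_lit 434232) (nat_lit 23) (.e (nat_lit 532549) (nat_lit 12) (.e (nat_lit 360473) (nat_lit 8) (.e (nat_lit 557093) (nat_lit 12) .nil)))) (.g (nat_lit 0) (.e (nat_lit 327921) (nat_lit 0) .nil) .nil)))) (.nd (nat_lit 9) 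
(.lf (nat_lit 564603) (.g (nat_lit 2574) (.e (nat_lit 434231) (nat_lit 23) (.e (nat_lit 532550) (nat_lit 12) (.e (nat_lit 360475) (nat_lit 8) (.e (nat_lit 557089) (nat_lit 12) (.e (nat_lit 163843) (nat_lit 0) (.e (nat_lit 6418) (nat_lit 341) (.e (nat_lit 163916) (nat_lit 13) .nil))))))) (.g (nat_lit 1) (.e (nat_lit 327408) (nat_lit 0) .nil) .nil))) 
(.lf (nat_lit 565115) (.g (nat_lit 480) (.e (nat_lit 434238) (nat_lit 25) (.e (nat_lit 548915) (nat_lit 20) (.e (nat_lit 188430) (nat_lit 20) .nil))) (.g (nat_lit 0) (.e (nat_lit 328803) (nat_lit 0) .nil) .nil))))) (.nd (nat_lit 8) (.nd (nat_lit 9) 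
(.lf (nat_lit 564475) (.g (nat_lit 3968) (.e (nat_lit 434231) (nat_lit 23) (.e (nat_lit 532549) (nat_lit 12) (.e (nat_lit 360473) (nat_lit 8) (.e (nat_lit 557091) (nat_lit 12) (.e (nat_lit 164020) (nat_lit 45) (.e (nat_lit 696327) (nat_lit 5) (.e (nat_lit 2980) (nat_lit 185) .nil))))))) (.g (nat_lit 1) (.e (nat_lit 327034) (nat_lit 0) .nil) .nil))) 
(.lf (nat_lit 564987) (.g (nat_lit 1336) (.e (nat_lit 434234) (nat_lit 23) (.e (nat_lit 532499) (nat_lit 1) (.e (nat_lit 57654) (nat_lit 152) (.e (nat_lit 2633) (nat_lit 164) .nil)))) (.g (nat_lit 0) (.e (nat_lit 328284) (nat_lit 0) .nil) .nil)))) (.nd (nat_lit 9) 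
(.lf (nat_lit 564731) (.g (nat_lit 1714) (.e (nat_lit 434231) (nat_lit 23) (.e (nat_lit 532569) (nat_lit 16) (.e (nat_lit 401446) (nat_lit 10) (.e (nat_lit 434230) (nat_lit 23) .nil)))) (.g (nat_lit 0) (.e (nat_lit 327679) (nat_lit 0) .nil) .nil))) 
(.lf (nat_lit 565243) (.g (nat_lit 4122) (.e (nat_lit 434244) (nat_lit 28) (.e (nat_lit 573451) (nat_lit 9) (.e (nat_lit 498) (nat_lit 40) (.e (nat_lit 491563) (nat_lit 12) (.e (nat_lit 385068) (nat_lit 26) (.e (nat_lit 532515) (nat_lit 3) (.e (nat_lit 122624) (nat_lit 12) .nil))))))) (.g (nat_lit 1) (.e (nat_lit 329007) (nat_lit 0) .nil) .nil)))))))))) 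
(.nd (nat_lit 3) (.nd (nat_lit 4) (.nd (nat_lit 5) (.nd (nat_lit 6) (.nd (nat_lit 7) 
(.nd (nat_lit 8) (.nd (nat_lit 9) 
(.lf (nat_lit 564231) (.g (nat_lit 2067) (.e (nat_lit 434222) (nat_lit 19) (.e (nat_lit 500046) (nat_lit 16) (.e (nat_lit 16416) (nat_lit 3) (.e (nat_lit 204813) (nat_lit 9) (.e (nat_lit 426138) (nat_lit 3) .nil))))) (.g (nat_lit 0) (.e (nat_lit 325585) (nat_lit 0) .nil) .nil))) 
(.lf (nat_lit 564743) (.g (nat_lit 2526) (.e (nat_lit 434231) (nat_lit 23) (.e (nat_lit 532569) (nat_lit 16) (.e (nat_lit 401448) (nat_lit 10) (.e (nat_lit 434238) (nat_lit 25) (.e (nat_lit 548911) (nat_lit 18) .nil))))) (.g (nat_lit 0) (.e (nat_lit 327709) (nat_lit 0) .nil) .nil)))) (.nd (nat_lit 9) 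
(.lf (nat_lit 564487) (.g (nat_lit 3469) (.e (nat_lit 434231) (nat_lit 23) (.e (nat_lit 532549) (nat_lit 12) (.e (nat_lit 360474) (nat_lit 8) (.e (nat_lit 557091) (nat_lit 12) (.e (nat_lit 164020) (nat_lit 45) (.e (nat_lit 696330) (nat_lit 5) (.e (nat_lit 2980) (nat_lit 185) .nil))))))) (.g (nat_lit 1) (.e (nat_lit 327097) (nat_lit 0) .nil) .nil))) 
(.lf (nat_lit 564999) (.g (nat_lit 1137) (.e (nat_lit 434234) (nat_lit 23) (.e (nat_lit 532501) (nat_lit 1) (.e (nat_lit 57651) (nat_lit 152) (.e (nat_lit 2619) (nat_lit 164) .nil)))) (.g (nat_lit 0) (.e (nat_lit 328299) (nat_lit 0) .nil) .nil))))) (.nd (nat_lit 8) (.nd (nat_lit 9) 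
(.lf (nat_lit 564359) (.g (nat_lit 368) (.e (nat_lit 434231) (nat_lit 23) (.e (nat_lit 532522) (nat_lit 7) (.e (nat_lit 319531) (nat_lit 16) .nil))) (.g (nat_lit 0) (.e (nat_lit 325952) (nat_lit 0) .nil) .nil))) 
(.lf (nat_lit 564871) (.g (nat_lit 3867) (.e (nat_lit 434232) (nat_lit 23) (.e (nat_lit 532550) (nat_lit 12) (.e (nat_lit 360474) (nat_lit 8) (.e (nat_lit 557094) (nat_lit 12) .nil)))) (.g (nat_lit 0) (.e (nat_lit 327938) (nat_lit 0) .nil) .nil)))) (.nd (nat_lit 9) 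
(.lf (nat_lit 564615) (.g (nat_lit 2815) (.e (nat_lit 434231) (nat_lit 23) (.e (nat_lit 532550) (nat_lit 12) (.e (nat_lit 360475) (nat_lit 8) (.e (nat_lit 557089) (nat_lit 12) (.e (nat_lit 163849) (nat_lit 0) (.e (nat_lit 6418) (nat_lit 341) (.e (nat_lit 163916) (nat_lit 13) .nil))))))) (.g (nat_lit 1) (.e (nat_lit 327431) (nat_lit 0) .nil) .nil))) 
(.lf (nat_lit 565127) (.g (nat_lit 1833) (.e (nat_lit 434242) (nat_lit 28) (.e (nat_lit 573450) (nat_lit 9) (.e (nat_lit 457) (nat_lit 34) (.e (nat_lit 442374) (nat_lit 0) (.e (nat_lit 1856) (nat_lit 124) .nil))))) (.g (nat_lit 0) (.e (nat_lit 328842) (nat_lit 0) .nil) .nil)))))) (.nd (nat_lit 7) (.nd (nat_lit 8) (.nd (nat_lit 9) 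
(.lf (nat_lit 564295) (.g (nat_lit 2026) (.e (nat_lit 434230) (nat_lit 23) (.e (nat_lit 532569) (nat_lit 16) (.e (nat_lit 401448) (nat_lit 10) (.e (nat_lit 434227) (nat_lit 20) .nil)))) (.g (nat_lit 0) (.e (nat_lit 325807) (nat_lit 0) .nil) .nil))) 
(.lf (nat_lit 564807) (.g (nat_lit 2001) (.e (nat_lit 434232) (nat_lit 23) (.e (nat_lit 532503) (nat_lit 1) (.e (nat_lit 57685) (nat_lit 156) (.e (nat_lit 163867) (nat_lit 2) (.e (nat_lit 196624) (nat_lit 9) .nil))))) (.g (nat_lit 0) (.e (nat_lit 327851) (nat_lit 0) .nil) .nil)))) (.nd (nat_lit 9) 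
(.lf (nat_lit 564551) (.g (nat_lit 2629) (.e (nat_lit 434231) (nat_lit 23) (.e (nat_lit 532550) (nat_lit 12) (.e (nat_lit 360473) (nat_lit 8) (.e (nat_lit 557090) (nat_lit 12) (.e (nat_lit 164020) (nat_lit 45) (.e (nat_lit 696330) (nat_lit 5) (.e (nat_lit 2980) (nat_lit 185) .nil))))))) (.g (nat_lit 1) (.e (nat_lit 327298) (nat_lit 0) .nil) .nil))) 
(.lf (nat_lit 565063) (.g (nat_lit 1811) (.e (nat_lit 434235) (nat_lit 24) (.e (nat_lit 540706) (nat_lit 12) (.e (nat_lit 360475) (nat_lit 8) (.e (nat_lit 557090) (nat_lit 12) (.e (nat_lit 164020) (nat_lit 45) (.e (nat_lit 696328) (nat_lit 5) (.e (nat_lit 2974) (nat_lit 185) .nil))))))) (.g (nat_lit 1) (.e (nat_lit 328419) (nat_lit 0) .nil) .nil))))) (.nd (nat_lit 8) (.nd (nat_lit 9) 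
(.lf (nat_lit 564423) (.g (nat_lit 1648) (.e (nat_lit 434231) (nat_lit 23) (.e (nat_lit 532523) (nat_lit 7) (.e (nat_lit 319534) (nat_lit 16) (.e (nat_lit 286735) (nat_lit 3) .nil)))) (.g (nat_lit 0) (.e (nat_lit 326025) (nat_lit 0) .nil) .nil))) 
(.lf (nat_lit 564935) (.g (nat_lit 2741) (.e (nat_lit 434233) (nat_lit 23) (.e (nat_lit 532523) (nat_lit 7) (.e (nat_lit 319531) (nat_lit 16) (.e (nat_lit 286735) (nat_lit 3) (.e (nat_lit 98355) (nat_lit 26) .nil))))) (.g (nat_lit 0) (.e (nat_lit 328096) (nat_lit 0) .nil) .nil)))) (.nd (nat_lit 9) 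
(.lf (nat_lit 564679) (.g (nat_lit 3705) (.e (nat_lit 434231) (nat_lit 23) (.e (nat_lit 532550) (nat_lit 12) (.e (nat_lit 360475) (nat_lit 8) (.e (nat_lit 557091) (nat_lit 12) (.e (nat_lit 163852) (nat_lit 0) (.e (nat_lit 6427) (nat_lit 342) (.e (nat_lit 229407) (nat_lit 13) .nil))))))) (.g (nat_lit 1) (.e (nat_lit 327535) (nat_lit 0) .nil) .nil))) 
(.lf (nat_lit 565191) (.g (nat_lit 2551) (.e (nat_lit 434242) (nat_lit 28) (.e (nat_lit 573488) (nat_lit 14) (.e (nat_lit 73755) (nat_lit 8) (.e (nat_lit 557091) (nat_lit 12) (.e (nat_lit 164006) (nat_lit 41) .nil))))) (.g (nat_lit 0) (.e (nat_lit 328932) (nat_lit 0) .nil) .nil))))))) (.nd (nat_lit 6) (.nd (nat_lit 7) (.nd (nat_lit 8) (.nd (nat_lit 9) 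
(.lf (nat_lit 564263) (.g (nat_lit 1565) (.e (nat_lit 434230) (nat_lit 23) (.e (nat_lit 532523) (nat_lit 7) (.e (nat_lit 319504) (nat_lit 10) (.e (nat_lit 5396) (nat_lit 301) .nil)))) (.g (nat_lit 0) (.e (nat_lit 325757) (nat_lit 0) .nil) .nil))) 
(.lf (nat_lit 564775) (.g (nat_lit 918) (.e (nat_lit 434232) (nat_lit 23) (.e (nat_lit 532499) (nat_lit 1) (.e (nat_lit 57687) (nat_lit 156) .nil))) (.g (nat_lit 0) (.e (nat_lit 327816) (nat_lit 0) .nil) .nil)))) (.nd (nat_lit 9) 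
(.lf (nat_lit 564519) (.g (nat_lit 3268) (.e (nat_lit 434231) (nat_lit 23) (.e (nat_lit 532549) (nat_lit 12) (.e (nat_lit 360475) (nat_lit 8) (.e (nat_lit 557091) (nat_lit 12) (.e (nat_lit 164018) (nat_lit 45) .nil))))) (.g (nat_lit 0) (.e (nat_lit 327245) (nat_lit 0) .nil) .nil))) 
(.lf (nat_lit 565031) (.g (nat_lit 771) (.e (nat_lit 434234) (nat_lit 23) (.e (nat_lit 532523) (nat_lit 7) (.e (nat_lit 319511) (nat_lit 10) (.e (nat_lit 5293) (nat_lit 298) .nil)))) (.g (nat_lit 0) (.e (nat_lit 328337) (nat_lit 0) .nil) .nil))))) (.nd (nat_lit 8) (.nd (nat_lit 9) 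
(.lf (nat_lit 564391) (.g (nat_lit 2646) (.e (nat_lit 434231) (nat_lit 23) (.e (nat_lit 532523) (nat_lit 7) (.e (nat_lit 319530) (nat_lit 16) (.e (nat_lit 286733) (nat_lit 2) (.e (nat_lit 90134) (nat_lit 9) (.e (nat_lit 2874) (nat_lit 184) (.e (nat_lit 426289) (nat_lit 10) .nil))))))) (.g (nat_lit 1) (.e (nat_lit 325990) (nat_lit 0) .nil) .nil))) 
(.lf (nat_lit 564903) (.g (nat_lit 853) (.e (nat_lit 434233) (nat_lit 23) (.e (nat_lit 532501) (nat_lit 1) (.e (nat_lit 57651) (nat_lit 152) .nil))) (.g (nat_lit 0) (.e (nat_lit 328006) (nat_lit 0) .nil) .nil)))) (.nd (nat_lit 9) 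
(.lf (nat_lit 564647) (.g (nat_lit 2937) (.e (nat_lit 434231) (nat_lit 23) (.e (nat_lit 532550) (nat_lit 12) (.e (nat_lit 360475) (nat_lit 8) (.e (nat_lit 557091) (nat_lit 12) (.e (nat_lit 163840) (nat_lit 0) (.e (nat_lit 6421) (nat_lit 341) (.e (nat_lit 163917) (nat_lit 13) .nil))))))) (.g (nat_lit 1) (.e (nat_lit 327476) (nat_lit 0) .nil) .nil))) 
(.lf (nat_lit 565159) (.g (nat_lit 3891) (.e (nat_lit 434242) (nat_lit 28) (.e (nat_lit 573471) (nat_lit 11) (.e (nat_lit 16470) (nat_lit 14) (.e (nat_lit 499456) (nat_lit 2) .nil)))) (.g (nat_lit 0) (.e (nat_lit 328878) (nat_lit 0) .nil) .nil)))))) (.nd (nat_lit 7) (.nd (nat_lit 8) (.nd (nat_lit 9) 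
(.lf (nat_lit 564327) (.g (nat_lit 4053) (.e (nat_lit 434231) (nat_lit 23) (.e (nat_lit 532500) (nat_lit 1) (.e (nat_lit 57691) (nat_lit 156) (.e (nat_lit 163875) (nat_lit 3) (.e (nat_lit 204837) (nat_lit 20) (.e (nat_lit 114718) (nat_lit 23) (.e (nat_lit 98366) (nat_lit 27) .nil))))))) (.g (nat_lit 1) (.e (nat_lit 325882) (nat_lit 0) .nil) .nil))) 
(.lf (nat_lit 564839) (.g (nat_lit 1431) (.e (nat_lit 434232) (nat_lit 23) (.e (nat_lit 532513) (nat_lit 3) (.e (nat_lit 114714) (nat_lit 22) (.e (nat_lit 90164) (nat_lit 12) .nil)))) (.g (nat_lit 0) (.e (nat_lit 327885) (nat_lit 0) .nil) .nil)))) (.nd (nat_lit 9) 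
(.lf (nat_lit 564583) (.g (nat_lit 3571) (.e (nat_lit 434231) (nat_lit 23) (.e (nat_lit 532550) (nat_lit 12) (.e (nat_lit 360474) (nat_lit 8) (.e (nat_lit 557093) (nat_lit 12) (.e (nat_lit 164023) (nat_lit 46) (.e (nat_lit 704628) (nat_lit 9) (.e (nat_lit 452) (nat_lit 33) .nil))))))) (.g (nat_lit 1) (.e (nat_lit 327344) (nat_lit 0) .nil) .nil))) 
(.lf (nat_lit 565095) (.g (nat_lit 4212) (.e (nat_lit 434238) (nat_lit 25) (.e (nat_lit 548913) (nat_lit 18) (.e (nat_lit 172118) (nat_lit 12) (.e (nat_lit 475185) (nat_lit 29) (.e (nat_lit 557100) (nat_lit 13) (.e (nat_lit 172113) (nat_lit 10) .nil)))))) (.g (nat_lit 1) (.e (nat_lit 328783) (nat_lit 0) .nil) .nil))))) (.nd (nat_lit 8) (.nd (nat_lit 9) 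
(.lf (nat_lit 564455) (.g (nat_lit 4445) (.e (nat_lit 434231) (nat_lit 23) (.e (nat_lit 532549) (nat_lit 12) (.e (nat_lit 360472) (nat_lit 8) (.e (nat_lit 557090) (nat_lit 12) (.e (nat_lit 164020) (nat_lit 45) (.e (nat_lit 696330) (nat_lit 5) (.e (nat_lit 2964) (nat_lit 185) .nil))))))) (.g (nat_lit 1) (.e (nat_lit 326882) (nat_lit 0) .nil) .nil))) 
(.lf (nat_lit 564967) (.g (nat_lit 2921) (.e (nat_lit 434233) (nat_lit 23) (.e (nat_lit 532549) (nat_lit 12) (.e (nat_lit 360474) (nat_lit 8) (.e (nat_lit 557093) (nat_lit 12) (.e (nat_lit 164023) (nat_lit 46) (.e (nat_lit 704629) (nat_lit 9) (.e (nat_lit 442) (nat_lit 33) .nil))))))) (.g (nat_lit 1) (.e (nat_lit 328188) (nat_lit 0) .nil) .nil)))) (.nd (nat_lit 9) 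
(.lf (nat_lit 564711) (.g (nat_lit 4490) (.e (nat_lit 434231) (nat_lit 23) (.e (nat_lit 532567) (nat_lit 16) (.e (nat_lit 401451) (nat_lit 12) (.e (nat_lit 475185) (nat_lit 29) (.e (nat_lit 557098) (nat_lit 13) .nil))))) (.g (nat_lit 0) (.e (nat_lit 327621) (nat_lit 0) .nil) .nil))) 
(.lf (nat_lit 565223) (.g (nat_lit 4993) (.e (nat_lit 434244) (nat_lit 28) (.e (nat_lit 573450) (nat_lit 9) (.e (nat_lit 411) (nat_lit 32) (.e (nat_lit 426340) (nat_lit 14) (.e (nat_lit 491537) (nat_lit 2) (.e (nat_lit 90170) (nat_lit 13) (.e (nat_lit 172106) (nat_lit 10) .nil))))))) (.g (nat_lit 1) (.e (nat_lit 328974) (nat_lit 0) .nil) .nil)))))))) 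
(.nd (nat_lit 5) (.nd (nat_lit 6) (.nd (nat_lit 7) (.nd (nat_lit 8) (.nd (nat_lit 9) 
(.lf (nat_lit 564247) (.g (nat_lit 3293) (.e (nat_lit 434227) (nat_lit 20) (.e (nat_lit 507946) (nat_lit 18) (.e (nat_lit 303143) (nat_lit 12) (.e (nat_lit 475185) (nat_lit 29) (.e (nat_lit 557100) (nat_lit 13) (.e (nat_lit 172106) (nat_lit 10) .nil)))))) (.g (nat_lit 1) (.e (nat_lit 325740) (nat_lit 0) .nil) .nil))) 
(.lf (nat_lit 564759) (.g (nat_lit 6199) (.e (nat_lit 434231) (nat_lit 23) (.e (nat_lit 532569) (nat_lit 16) (.e (nat_lit 401460) (nat_lit 14) (.e (nat_lit 491537) (nat_lit 2) (.e (nat_lit 90170) (nat_lit 13) (.e (nat_lit 172106) (nat_lit 10) .nil)))))) (.g (nat_lit 1) (.e (nat_lit 327744) (nat_lit 0) .nil) .nil)))) (.nd (nat_lit 9) 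
(.lf (nat_lit 564503) (.g (nat_lit 4220) (.e (nat_lit 434231) (nat_lit 23) (.e (nat_lit 532549) (nat_lit 12) (.e (nat_lit 360475) (nat_lit 8) (.e (nat_lit 557089) (nat_lit 12) (.e (nat_lit 164020) (nat_lit 45) (.e (nat_lit 696330) (nat_lit 5) (.e (nat_lit 2964) (nat_lit 185) .nil))))))) (.g (nat_lit 1) (.e (nat_lit 327169) (nat_lit 0) .nil) .nil))) 
(.lf (nat_lit 565015) (.g (nat_lit 2293) (.e (nat_lit 434234) (nat_lit 23) (.e (nat_lit 532503) (nat_lit 1) (.e (nat_lit 57688) (nat_lit 156) (.e (nat_lit 163875) (nat_lit 3) (.e (nat_lit 204838) (nat_lit 20) .nil))))) (.g (nat_lit 0) (.e (nat_lit 328315) (nat_lit 0) .nil) .nil))))) (.nd (nat_lit 8) (.nd (nat_lit 9) 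
(.lf (nat_lit 564375) (.g (nat_lit 1788) (.e (nat_lit 434231) (nat_lit 23) (.e (nat_lit 532523) (nat_lit 7) (.e (nat_lit 319504) (nat_lit 10) (.e (nat_lit 5714) (nat_lit 312) .nil)))) (.g (nat_lit 0) (.e (nat_lit 325969) (nat_lit 0) .nil) .nil))) 
(.lf (nat_lit 564887) (.g (nat_lit 3188) (.e (nat_lit 434233) (nat_lit 23) (.e (nat_lit 532486) (nat_lit 0) (.e (nat_lit 6113) (nat_lit 332) (.e (nat_lit 1374) (nat_lit 104) (.e (nat_lit 303118) (nat_lit 3) (.e (nat_lit 204885) (nat_lit 33) (.e (nat_lit 401446) (nat_lit 10) .nil))))))) (.g (nat_lit 1) (.e (nat_lit 327990) (nat_lit 0) .nil) .nil)))) (.nd (nat_lit 9) 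
(.lf (nat_lit 564631) (.g (nat_lit 3981) (.e (nat_lit 434231) (nat_lit 23) (.e (nat_lit 532550) (nat_lit 12) (.e (nat_lit 360475) (nat_lit 8) (.e (nat_lit 557089) (nat_lit 12) (.e (nat_lit 164020) (nat_lit 45) (.e (nat_lit 696329) (nat_lit 5) (.e (nat_lit 2980) (nat_lit 185) .nil))))))) (.g (nat_lit 1) (.e (nat_lit 327455) (nat_lit 0) .nil) .nil))) 
(.lf (nat_lit 565143) (.g (nat_lit 2789) (.e (nat_lit 434242) (nat_lit 28) (.e (nat_lit 573471) (nat_lit 11) (.e (nat_lit 16425) (nat_lit 7) (.e (nat_lit 409623) (nat_lit 10) .nil)))) (.g (nat_lit 0) (.e (nat_lit 328859) (nat_lit 0) .nil) .nil)))))) (.nd (nat_lit 7) (.nd (nat_lit 8) (.nd (nat_lit 9) 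
(.lf (nat_lit 564311) (.g (nat_lit 3741) (.e (nat_lit 434231) (nat_lit 23) (.e (nat_lit 532499) (nat_lit 1) (.e (nat_lit 57688) (nat_lit 156) (.e (nat_lit 163903) (nat_lit 12) (.e (nat_lit 426568) (nat_lit 34) (.e (nat_lit 393283) (nat_lit 24) .nil)))))) (.g (nat_lit 1) (.e (nat_lit 325854) (nat_lit 0) .nil) .nil))) 
(.lf (nat_lit 564823) (.g (nat_lit 2031) (.e (nat_lit 434232) (nat_lit 23) (.e (nat_lit 532504) (nat_lit 1) (.e (nat_lit 57685) (nat_lit 156) (.e (nat_lit 163875) (nat_lit 3) (.e (nat_lit 204838) (nat_lit 20) .nil))))) (.g (nat_lit 0) (.e (nat_lit 327867) (nat_lit 0) .nil) .nil)))) (.nd (nat_lit 9) 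
(.lf (nat_lit 564567) (.g (nat_lit 4418) (.e (nat_lit 434231) (nat_lit 23) (.e (nat_lit 532550) (nat_lit 12) (.e (nat_lit 360474) (nat_lit 8) (.e (nat_lit 557091) (nat_lit 12) (.e (nat_lit 164020) (nat_lit 45) (.e (nat_lit 696328) (nat_lit 5) (.e (nat_lit 2980) (nat_lit 185) .nil))))))) (.g (nat_lit 1) (.e (nat_lit 327316) (nat_lit 0) .nil) .nil))) 
(.lf (nat_lit 565079) (.g (nat_lit 2058) (.e (nat_lit 434236) (nat_lit 25) (.e (nat_lit 548913) (nat_lit 18) (.e (nat_lit 172124) (nat_lit 14) (.e (nat_lit 491537) (nat_lit 2) .nil)))) (.g (nat_lit 0) (.e (nat_lit 328482) (nat_lit 0) .nil) .nil))))) (.nd (nat_lit 8) (.nd (nat_lit 9) 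
(.lf (nat_lit 564439) (.g (nat_lit 2421) (.e (nat_lit 434231) (nat_lit 23) (.e (nat_lit 532529) (nat_lit 9) (.e (nat_lit 336336) (nat_lit 20) (.e (nat_lit 221196) (nat_lit 20) .nil)))) (.g (nat_lit 0) (.e (nat_lit 326056) (nat_lit 0) .nil) .nil))) 
(.lf (nat_lit 564951) (.g (nat_lit 2902) (.e (nat_lit 434233) (nat_lit 23) (.e (nat_lit 532523) (nat_lit 7) (.e (nat_lit 319534) (nat_lit 16) (.e (nat_lit 286734) (nat_lit 3) (.e (nat_lit 98354) (nat_lit 26) .nil))))) (.g (nat_lit 0) (.e (nat_lit 328146) (nat_lit 0) .nil) .nil)))) (.nd (nat_lit 9) 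
(.lf (nat_lit 564695) (.g (nat_lit 2723) (.e (nat_lit 434231) (nat_lit 23) (.e (nat_lit 532550) (nat_lit 12) (.e (nat_lit 360475) (nat_lit 8) (.e (nat_lit 557091) (nat_lit 12) (.e (nat_lit 164020) (nat_lit 45) (.e (nat_lit 696328) (nat_lit 5) (.e (nat_lit 2964) (nat_lit 185) .nil))))))) (.g (nat_lit 1) (.e (nat_lit 327571) (nat_lit 0) .nil) .nil))) 
(.lf (nat_lit 565207) (.g (nat_lit 1821) (.e (nat_lit 434243) (nat_lit 28) (.e (nat_lit 573471) (nat_lit 11) (.e (nat_lit 16449) (nat_lit 10) (.e (nat_lit 434233) (nat_lit 23) .nil)))) (.g (nat_lit 0) (.e (nat_lit 328953) (nat_lit 0) .nil) .nil))))))) (.nd (nat_lit 6) (.nd (nat_lit 7) (.nd (nat_lit 8) (.nd (nat_lit 9) 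
(.lf (nat_lit 564279) (.g (nat_lit 2903) (.e (nat_lit 434230) (nat_lit 23) (.e (nat_lit 532550) (nat_lit 12) (.e (nat_lit 360474) (nat_lit 8) (.e (nat_lit 557094) (nat_lit 12) (.e (nat_lit 164022) (nat_lit 46) .nil))))) (.g (nat_lit 0) (.e (nat_lit 325786) (nat_lit 0) .nil) .nil))) 
(.lf (nat_lit 564791) (.g (nat_lit 2574) (.e (nat_lit 434232) (nat_lit 23) (.e (nat_lit 532499) (nat_lit 1) (.e (nat_lit 57691) (nat_lit 156) (.e (nat_lit 163905) (nat_lit 12) (.e (nat_lit 426568) (nat_lit 34) (.e (nat_lit 393283) (nat_lit 24) .nil)))))) (.g (nat_lit 1) (.e (nat_lit 327834) (nat_lit 0) .nil) .nil)))) (.nd (nat_lit 9) 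
(.lf (nat_lit 564535) (.g (nat_lit 4294) (.e (nat_lit 434231) (nat_lit 23) (.e (nat_lit 532549) (nat_lit 12) (.e (nat_lit 360475) (nat_lit 8) (.e (nat_lit 557091) (nat_lit 12) (.e (nat_lit 164022) (nat_lit 46) (.e (nat_lit 704627) (nat_lit 9) (.e (nat_lit 452) (nat_lit 33) .nil))))))) (.g (nat_lit 1) (.e (nat_lit 327267) (nat_lit 0) .nil) .nil))) 
(.lf (nat_lit 565047) (.g (nat_lit 2421) (.e (nat_lit 434234) (nat_lit 23) (.e (nat_lit 532563) (nat_lit 15) (.e (nat_lit 385094) (nat_lit 49) (.e (nat_lit 778318) (nat_lit 3) (.e (nat_lit 57476) (nat_lit 28) .nil))))) (.g (nat_lit 0) (.e (nat_lit 328380) (nat_lit 0) .nil) .nil))))) (.nd (nat_lit 8) (.nd (nat_lit 9) 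
(.lf (nat_lit 564407) (.g (nat_lit 2653) (.e (nat_lit 434231) (nat_lit 23) (.e (nat_lit 532523) (nat_lit 7) (.e (nat_lit 319531) (nat_lit 16) (.e (nat_lit 286733) (nat_lit 2) (.e (nat_lit 90134) (nat_lit 9) (.e (nat_lit 2872) (nat_lit 184) (.e (nat_lit 426290) (nat_lit 10) .nil))))))) (.g (nat_lit 1) (.e (nat_lit 326007) (nat_lit 0) .nil) .nil))) 
(.lf (nat_lit 564919) (.g (nat_lit 2048) (.e (nat_lit 434233) (nat_lit 23) (.e (nat_lit 532504) (nat_lit 1) (.e (nat_lit 57691) (nat_lit 156) (.e (nat_lit 163907) (nat_lit 12) (.e (nat_lit 426566) (nat_lit 34) .nil))))) (.g (nat_lit 0) (.e (nat_lit 328022) (nat_lit 0) .nil) .nil)))) (.nd (nat_lit 9) 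
(.lf (nat_lit 564663) (.g (nat_lit 3790) (.e (nat_lit 434231) (nat_lit 23) (.e (nat_lit 532550) (nat_lit 12) (.e (nat_lit 360475) (nat_lit 8) (.e (nat_lit 557091) (nat_lit 12) (.e (nat_lit 163847) (nat_lit 0) (.e (nat_lit 6416) (nat_lit 341) (.e (nat_lit 163917) (nat_lit 13) .nil))))))) (.g (nat_lit 1) (.e (nat_lit 327512) (nat_lit 0) .nil) .nil))) 
(.lf (nat_lit 565175) (.g (nat_lit 2125) (.e (nat_lit 434242) (nat_lit 28) (.e (nat_lit 573477) (nat_lit 12) (.e (nat_lit 57575) (nat_lit 55) (.e (nat_lit 778465) (nat_lit 11) (.e (nat_lit 24605) (nat_lit 2) .nil))))) (.g (nat_lit 0) (.e (nat_lit 328895) (nat_lit 0) .nil) .nil)))))) (.nd (nat_lit 7) (.nd (nat_lit 8) (.nd (nat_lit 9) 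
(.lf (nat_lit 564343) (.g (nat_lit 2401) (.e (nat_lit 434231) (nat_lit 23) (.e (nat_lit 532513) (nat_lit 3) (.e (nat_lit 114719) (nat_lit 23) (.e (nat_lit 98335) (nat_lit 18) (.e (nat_lit 164396) (nat_lit 256) .nil))))) (.g (nat_lit 0) (.e (nat_lit 325911) (nat_lit 0) .nil) .nil))) 
(.lf (nat_lit 564855) (.g (nat_lit 4751) (.e (nat_lit 434232) (nat_lit 23) (.e (nat_lit 532535) (nat_lit 9) (.e (nat_lit 336176) (nat_lit 10) (.e (nat_lit 344130) (nat_lit 26) (.e (nat_lit 557090) (nat_lit 12) .nil))))) (.g (nat_lit 0) (.e (nat_lit 327912) (nat_lit 0) .nil) .nil)))) (.nd (nat_lit 9) 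
(.lf (nat_lit 564599) (.g (nat_lit 186) (.e (nat_lit 434231) (nat_lit 23) (.e (nat_lit 532550) (nat_lit 12) (.e (nat_lit 360475) (nat_lit 8) .nil))) (.g (nat_lit 0) (.e (nat_lit 327377) (nat_lit 0) .nil) .nil))) 
(.lf (nat_lit 565111) (.g (nat_lit 6744) (.e (nat_lit 434238) (nat_lit 25) (.e (nat_lit 548913) (nat_lit 18) (.e (nat_lit 172126) (nat_lit 14) (.e (nat_lit 491537) (nat_lit 2) (.e (nat_lit 90170) (nat_lit 13) (.e (nat_lit 172106) (nat_lit 10) .nil)))))) (.g (nat_lit 1) (.e (nat_lit 328799) (nat_lit 0) .nil) .nil))))) (.nd (nat_lit 8) (.nd (nat_lit 9) 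
(.lf (nat_lit 564471) (.g (nat_lit 3406) (.e (nat_lit 434231) (nat_lit 23) (.e (nat_lit 532549) (nat_lit 12) (.e (nat_lit 360473) (nat_lit 8) (.e (nat_lit 557091) (nat_lit 12) (.e (nat_lit 164018) (nat_lit 45) (.e (nat_lit 696329) (nat_lit 5) (.e (nat_lit 2980) (nat_lit 185) .nil))))))) (.g (nat_lit 1) (.e (nat_lit 327028) (nat_lit 0) .nil) .nil))) 
(.lf (nat_lit 564983) (.g (nat_lit 551) (.e (nat_lit 434233) (nat_lit 23) (.e (nat_lit 532569) (nat_lit 16) (.e (nat_lit 401448) (nat_lit 10) .nil))) (.g (nat_lit 0) (.e (nat_lit 328240) (nat_lit 0) .nil) .nil)))) (.nd (nat_lit 9) 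
(.lf (nat_lit 564727) (.g (nat_lit 1877) (.e (nat_lit 434231) (nat_lit 23) (.e (nat_lit 532569) (nat_lit 16) (.e (nat_lit 401437) (nat_lit 9) (.e (nat_lit 426392) (nat_lit 15) .nil)))) (.g (nat_lit 0) (.e (nat_lit 327671) (nat_lit 0) .nil) .nil))) 
(.lf (nat_lit 565239) (.g (nat_lit 4228) (.e (nat_lit 434244) (nat_lit 28) (.e (nat_lit 573451) (nat_lit 9) (.e (nat_lit 498) (nat_lit 40) (.e (nat_lit 491549) (nat_lit 9) (.e (nat_lit 336324) (nat_lit 18) (.e (nat_lit 204838) (nat_lit 20) (.e (nat_lit 122624) (nat_lit 12) .nil))))))) (.g (nat_lit 1) (.e (nat_lit 329001) (nat_lit 0) .nil) .nil))))))))) 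
(.nd (nat_lit 4) (.nd (nat_lit 5) (.nd (nat_lit 6) (.nd (nat_lit 7) (.nd (nat_lit 8) 
(.nd (nat_lit 9) 
(.lf (nat_lit 564239) (.g (nat_lit 2962) (.e (nat_lit 434227) (nat_lit 20) (.e (nat_lit 507930) (nat_lit 10) (.e (nat_lit 5614) (nat_lit 312) (.e (nat_lit 3063) (nat_lit 190) (.e (nat_lit 475185) (nat_lit 29) (.e (nat_lit 557101) (nat_lit 13) (.e (nat_lit 172115) (nat_lit 10) .nil))))))) (.g (nat_lit 1) (.e (nat_lit 325663) (nat_lit 0) .nil) .nil))) 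
(.lf (nat_lit 564751) (.g (nat_lit 4978) (.e (nat_lit 434231) (nat_lit 23) (.e (nat_lit 532569) (nat_lit 16) (.e (nat_lit 401450) (nat_lit 12) (.e (nat_lit 475185) (nat_lit 29) (.e (nat_lit 557100) (nat_lit 13) (.e (nat_lit 172106) (nat_lit 10) .nil)))))) (.g (nat_lit 1) (.e (nat_lit 327721) (nat_lit 0) .nil) .nil)))) (.nd (nat_lit 9) 
(.lf (nat_lit 564495) (.g (nat_lit 3625) (.e (nat_lit 434231) (nat_lit 23) (.e (nat_lit 532549) (nat_lit 12) (.e (nat_lit 360475) (nat_lit 8) (.e (nat_lit 557089) (nat_lit 12) (.e (nat_lit 163853) (nat_lit 0) .nil))))) (.g (nat_lit 0) (.e (nat_lit 327146) (nat_lit 0) .nil) .nil))) 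
(.lf (nat_lit 565007) (.g (nat_lit 1910) (.e (nat_lit 434234) (nat_lit 23) (.e (nat_lit 532502) (nat_lit 1) (.e (nat_lit 57692) (nat_lit 156) (.e (nat_lit 163874) (nat_lit 3) (.e (nat_lit 204836) (nat_lit 20) .nil))))) (.g (nat_lit 0) (.e (nat_lit 328307) (nat_lit 0) .nil) .nil))))) (.nd (nat_lit 8) (.nd (nat_lit 9) 
(.lf (nat_lit 564367) (.g (nat_lit 2658) (.e (nat_lit 434231) (nat_lit 23) (.e (nat_lit 532522) (nat_lit 7) (.e (nat_lit 319531) (nat_lit 16) (.e (nat_lit 286733) (nat_lit 2) (.e (nat_lit 90134) (nat_lit 9) (.e (nat_lit 2872) (nat_lit 184) (.e (nat_lit 426290) (nat_lit 10) .nil))))))) (.g (nat_lit 1) (.e (nat_lit 325960) (nat_lit 0) .nil) .nil))) 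
(.lf (nat_lit 564879) (.g (nat_lit 2608) (.e (nat_lit 434232) (nat_lit 23) (.e (nat_lit 532563) (nat_lit 15) (.e (nat_lit 385094) (nat_lit 49) (.e (nat_lit 778318) (nat_lit 3) (.e (nat_lit 57476) (nat_lit 28) .nil))))) (.g (nat_lit 0) (.e (nat_lit 327965) (nat_lit 0) .nil) .nil)))) (.nd (nat_lit 9) 
(.lf (nat_lit 564623) (.g (nat_lit 2895) (.e (nat_lit 434231) (nat_lit 23) (.e (nat_lit 532550) (nat_lit 12) (.e (nat_lit 360475) (nat_lit 8) (.e (nat_lit 557089) (nat_lit 12) (.e (nat_lit 163853) (nat_lit 0) (.e (nat_lit 6428) (nat_lit 342) (.e (nat_lit 229407) (nat_lit 13) .nil))))))) (.g (nat_lit 1) (.e (nat_lit 327439) (nat_lit 0) .nil) .nil))) 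
(.lf (nat_lit 565135) (.g (nat_lit 1970) (.e (nat_lit 434242) (nat_lit 28) (.e (nat_lit 573469) (nat_lit 11) (.e (nat_lit 16472) (nat_lit 14) (.e (nat_lit 491536) (nat_lit 2) (.e (nat_lit 90170) (nat_lit 13) .nil))))) (.g (nat_lit 0) (.e (nat_lit 328851) (nat_lit 0) .nil) .nil)))))) (.nd (nat_lit 7) (.nd (nat_lit 8) (.nd (nat_lit 9) 
(.lf (nat_lit 564303) (.g (nat_lit 3303) (.e (nat_lit 434231) (nat_lit 23) (.e (nat_lit 532499) (nat_lit 1) (.e (nat_lit 57687) (nat_lit 156) (.e (nat_lit 163903) (nat_lit 12) (.e (nat_lit 426568) (nat_lit 34) (.e (nat_lit 393282) (nat_lit 24) .nil)))))) (.g (nat_lit 1) (.e (nat_lit 325839) (nat_lit 0) .nil) .nil))) 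
(.lf (nat_lit 564815) (.g (nat_lit 3503) (.e (nat_lit 434232) (nat_lit 23) (.e (nat_lit 532503) (nat_lit 1) (.e (nat_lit 57688) (nat_lit 156) (.e (nat_lit 163903) (nat_lit 12) (.e (nat_lit 426568) (nat_lit 34) (.e (nat_lit 393283) (nat_lit 24) .nil)))))) (.g (nat_lit 1) (.e (nat_lit 327859) (nat_lit 0) .nil) .nil)))) (.nd (nat_lit 9) 
(.lf (nat_lit 564559) (.g (nat_lit 4788) (.e (nat_lit 434231) (nat_lit 23) (.e (nat_lit 532550) (nat_lit 12) (.e (nat_lit 360474) (nat_lit 8) (.e (nat_lit 557089) (nat_lit 12) (.e (nat_lit 163843) (nat_lit 0) .nil))))) (.g (nat_lit 0) (.e (nat_lit 327307) (nat_lit 0) .nil) .nil))) 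
(.lf (nat_lit 565071) (.g (nat_lit 3188) (.e (nat_lit 434235) (nat_lit 24) (.e (nat_lit 540706) (nat_lit 12) (.e (nat_lit 360475) (nat_lit 8) (.e (nat_lit 557093) (nat_lit 12) .nil)))) (.g (nat_lit 0) (.e (nat_lit 328429) (nat_lit 0) .nil) .nil))))) (.nd (nat_lit 8) (.nd (nat_lit 9) 
(.lf (nat_lit 564431) (.g (nat_lit 4290) (.e (nat_lit 434231) (nat_lit 23) (.e (nat_lit 532525) (nat_lit 8) (.e (nat_lit 327716) (nat_lit 16) (.e (nat_lit 286733) (nat_lit 2) (.e (nat_lit 90170) (nat_lit 13) (.e (nat_lit 172115) (nat_lit 10) .nil)))))) (.g (nat_lit 1) (.e (nat_lit 326034) (nat_lit 0) .nil) .nil))) 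
(.lf (nat_lit 564943) (.g (nat_lit 2368) (.e (nat_lit 434233) (nat_lit 23) (.e (nat_lit 532523) (nat_lit 7) (.e (nat_lit 319533) (nat_lit 16) (.e (nat_lit 286734) (nat_lit 3) (.e (nat_lit 106240) (nat_lit 26) .nil))))) (.g (nat_lit 0) (.e (nat_lit 328120) (nat_lit 0) .nil) .nil)))) (.nd (nat_lit 9) 
(.lf (nat_lit 564687) (.g (nat_lit 2329) (.e (nat_lit 434231) (nat_lit 23) (.e (nat_lit 532550) (nat_lit 12) (.e (nat_lit 360475) (nat_lit 8) (.e (nat_lit 557091) (nat_lit 12) (.e (nat_lit 164018) (nat_lit 45) (.e (nat_lit 696328) (nat_lit 5) (.e (nat_lit 2964) (nat_lit 185) .nil))))))) (.g (nat_lit 1) (.e (nat_lit 327563) (nat_lit 0) .nil) .nil))) 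
(.lf (nat_lit 565199) (.g (nat_lit 2577) (.e (nat_lit 434243) (nat_lit 28) (.e (nat_lit 573471) (nat_lit 11) (.e (nat_lit 16425) (nat_lit 7) (.e (nat_lit 409623) (nat_lit 10) .nil)))) (.g (nat_lit 0) (.e (nat_lit 328942) (nat_lit 0) .nil) .nil))))))) (.nd (nat_lit 6) (.nd (nat_lit 7) (.nd (nat_lit 8) (.nd (nat_lit 9) 
(.lf (nat_lit 564271) (.g (nat_lit 3139) (.e (nat_lit 434230) (nat_lit 23) (.e (nat_lit 532550) (nat_lit 12) (.e (nat_lit 360474) (nat_lit 8) (.e (nat_lit 557093) (nat_lit 12) .nil)))) (.g (nat_lit 0) (.e (nat_lit 325778) (nat_lit 0) .nil) .nil))) 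
(.lf (nat_lit 564783) (.g (nat_lit 2084) (.e (nat_lit 434232) (nat_lit 23) (.e (nat_lit 532499) (nat_lit 1) (.e (nat_lit 57688) (nat_lit 156) (.e (nat_lit 163875) (nat_lit 3) .nil)))) (.g (nat_lit 0) (.e (nat_lit 327824) (nat_lit 0) .nil) .nil)))) (.nd (nat_lit 9) 
(.lf (nat_lit 564527) (.g (nat_lit 3542) (.e (nat_lit 434231) (nat_lit 23) (.e (nat_lit 532549) (nat_lit 12) (.e (nat_lit 360475) (nat_lit 8) (.e (nat_lit 557091) (nat_lit 12) (.e (nat_lit 164020) (nat_lit 45) .nil))))) (.g (nat_lit 0) (.e (nat_lit 327253) (nat_lit 0) .nil) .nil))) 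
(.lf (nat_lit 565039) (.g (nat_lit 5735) (.e (nat_lit 434234) (nat_lit 23) (.e (nat_lit 532550) (nat_lit 12) (.e (nat_lit 360474) (nat_lit 8) (.e (nat_lit 557091) (nat_lit 12) .nil)))) (.g (nat_lit 0) (.e (nat_lit 328352) (nat_lit 0) .nil) .nil))))) (.nd (nat_lit 8) (.nd (nat_lit 9) 
(.lf (nat_lit 564399) (.g (nat_lit 719) (.e (nat_lit 434231) (nat_lit 23) (.e (nat_lit 532523) (nat_lit 7) (.e (nat_lit 319530) (nat_lit 16) (.e (nat_lit 286735) (nat_lit 3) .nil)))) (.g (nat_lit 0) (.e (nat_lit 325999) (nat_lit 0) .nil) .nil))) 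
(.lf (nat_lit 564911) (.g (nat_lit 1807) (.e (nat_lit 434233) (nat_lit 23) (.e (nat_lit 532502) (nat_lit 1) (.e (nat_lit 57688) (nat_lit 156) (.e (nat_lit 163905) (nat_lit 12) (.e (nat_lit 426568) (nat_lit 34) .nil))))) (.g (nat_lit 0) (.e (nat_lit 328014) (nat_lit 0) .nil) .nil)))) (.nd (nat_lit 9) 
(.lf (nat_lit 564655) (.g (nat_lit 2363) (.e (nat_lit 434231) (nat_lit 23) (.e (nat_lit 532550) (nat_lit 12) (.e (nat_lit 360475) (nat_lit 8) (.e (nat_lit 557091) (nat_lit 12) (.e (nat_lit 163841) (nat_lit 0) .nil))))) (.g (nat_lit 0) (.e (nat_lit 327484) (nat_lit 0) .nil) .nil))) 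
(.lf (nat_lit 565167) (.g (nat_lit 2912) (.e (nat_lit 434242) (nat_lit 28) (.e (nat_lit 573474) (nat_lit 12) (.e (nat_lit 57354) (nat_lit 0) (.e (nat_lit 7270) (nat_lit 385) (.e (nat_lit 122905) (nat_lit 12) .nil))))) (.g (nat_lit 0) (.e (nat_lit 328887) (nat_lit 0) .nil) .nil)))))) (.nd (nat_lit 7) (.nd (nat_lit 8) (.nd (nat_lit 9) 
(.lf (nat_lit 564335) (.g (nat_lit 2722) (.e (nat_lit 434231) (nat_lit 23) (.e (nat_lit 532502) (nat_lit 1) (.e (nat_lit 57688) (nat_lit 156) (.e (nat_lit 163907) (nat_lit 12) (.e (nat_lit 426568) (nat_lit 34) (.e (nat_lit 393283) (nat_lit 24) .nil)))))) (.g (nat_lit 1) (.e (nat_lit 325892) (nat_lit 0) .nil) .nil))) 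
(.lf (nat_lit 564847) (.g (nat_lit 1429) (.e (nat_lit 434232) (nat_lit 23) (.e (nat_lit 532515) (nat_lit 3) (.e (nat_lit 114719) (nat_lit 23) (.e (nat_lit 98334) (nat_lit 18) .nil)))) (.g (nat_lit 0) (.e (nat_lit 327894) (nat_lit 0) .nil) .nil)))) (.nd (nat_lit 9) 
(.lf (nat_lit 564591) (.g (nat_lit 2946) (.e (nat_lit 434231) (nat_lit 23) (.e (nat_lit 532550) (nat_lit 12) (.e (nat_lit 360474) (nat_lit 8) (.e (nat_lit 557094) (nat_lit 12) (.e (nat_lit 164018) (nat_lit 45) (.e (nat_lit 696327) (nat_lit 5) (.e (nat_lit 2980) (nat_lit 185) .nil))))))) (.g (nat_lit 1) (.e (nat_lit 327365) (nat_lit 0) .nil) .nil))) 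
(.lf (nat_lit 565103) (.g (nat_lit 5863) (.e (nat_lit 434238) (nat_lit 25) (.e (nat_lit 548913) (nat_lit 18) (.e (nat_lit 172124) (nat_lit 14) (.e (nat_lit 491537) (nat_lit 2) (.e (nat_lit 90170) (nat_lit 13) (.e (nat_lit 172106) (nat_lit 10) .nil)))))) (.g (nat_lit 1) (.e (nat_lit 328791) (nat_lit 0) .nil) .nil))))) (.nd (nat_lit 8) (.nd (nat_lit 9) 
(.lf (nat_lit 564463) (.g (nat_lit 3230) (.e (nat_lit 434231) (nat_lit 23) (.e (nat_lit 532549) (nat_lit 12) (.e (nat_lit 360473) (nat_lit 8) (.e (nat_lit 557089) (nat_lit 12) (.e (nat_lit 164020) (nat_lit 45) (.e (nat_lit 696330) (nat_lit 5) (.e (nat_lit 2981) (nat_lit 185) .nil))))))) (.g (nat_lit 1) (.e (nat_lit 326935) (nat_lit 0) .nil) .nil))) 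
(.lf (nat_lit 564975) (.g (nat_lit 2887) (.e (nat_lit 434233) (nat_lit 23) (.e (nat_lit 532550) (nat_lit 12) (.e (nat_lit 360475) (nat_lit 8) (.e (nat_lit 557089) (nat_lit 12) .nil)))) (.g (nat_lit 0) (.e (nat_lit 328203) (nat_lit 0) .nil) .nil)))) (.nd (nat_lit 9) 
(.lf (nat_lit 564719) (.g (nat_lit 1522) (.e (nat_lit 434231) (nat_lit 23) (.e (nat_lit 532568) (nat_lit 16) (.e (nat_lit 401454) (nat_lit 12) (.e (nat_lit 483072) (nat_lit 29) .nil)))) (.g (nat_lit 0) (.e (nat_lit 327654) (nat_lit 0) .nil) .nil))) 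
(.lf (nat_lit 565231) (.g (nat_lit 4527) (.e (nat_lit 434244) (nat_lit 28) (.e (nat_lit 573451) (nat_lit 9) (.e (nat_lit 428) (nat_lit 32) (.e (nat_lit 425984) (nat_lit 0) (.e (nat_lit 7489) (nat_lit 402) (.e (nat_lit 1239) (nat_lit 91) (.e (nat_lit 90170) (nat_lit 13) (.e (nat_lit 172106) (nat_lit 10) .nil)))))))) (.g (nat_lit 1) (.e (nat_lit 328991) (nat_lit 0) .nil) .nil)))))))) 
(.nd (nat_lit 5) (.nd (nat_lit 6) (.nd (nat_lit 7) (.nd (nat_lit 8) (.nd (nat_lit 9) 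
(.lf (nat_lit 564255) (.g (nat_lit 831) (.e (nat_lit 434230) (nat_lit 23) (.e (nat_lit 532503) (nat_lit 1) (.e (nat_lit 57685) (nat_lit 156) .nil))) (.g (nat_lit 0) (.e (nat_lit 325748) (nat_lit 0) .nil) .nil))) 
(.lf (nat_lit 564767) (.g (nat_lit 2582) (.e (nat_lit 434231) (nat_lit 23) (.e (nat_lit 532579) (nat_lit 26) (.e (nat_lit 426100) (nat_lit 1) (.e (nat_lit 164403) (nat_lit 256) (.e (nat_lit 57446) (nat_lit 19) .nil))))) (.g (nat_lit 0) (.e (nat_lit 327752) (nat_lit 0) .nil) .nil)))) (.nd (nat_lit 9) 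
(.lf (nat_lit 564511) (.g (nat_lit 3442) (.e (nat_lit 434231) (nat_lit 23) (.e (nat_lit 532549) (nat_lit 12) (.e (nat_lit 360475) (nat_lit 8) (.e (nat_lit 557091) (nat_lit 12) (.e (nat_lit 163840) (nat_lit 0) .nil))))) (.g (nat_lit 0) (.e (nat_lit 327180) (nat_lit 0) .nil) .nil))) 
(.lf (nat_lit 565023) (.g (nat_lit 1570) (.e (nat_lit 434234) (nat_lit 23) (.e (nat_lit 532513) (nat_lit 3) (.e (nat_lit 114714) (nat_lit 22) (.e (nat_lit 90113) (nat_lit 0) .nil)))) (.g (nat_lit 0) (.e (nat_lit 328324) (nat_lit 0) .nil) .nil))))) (.nd (nat_lit 8) (.nd (nat_lit 9) 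
(.lf (nat_lit 564383) (.g (nat_lit 2718) (.e (nat_lit 434231) (nat_lit 23) (.e (nat_lit 532523) (nat_lit 7) (.e (nat_lit 319530) (nat_lit 16) (.e (nat_lit 286727) (nat_lit 0) (.e (nat_lit 1682) (nat_lit 117) .nil))))) (.g (nat_lit 0) (.e (nat_lit 325978) (nat_lit 0) .nil) .nil))) 
(.lf (nat_lit 564895) (.g (nat_lit 3411) (.e (nat_lit 434233) (nat_lit 23) (.e (nat_lit 532499) (nat_lit 1) (.e (nat_lit 57688) (nat_lit 156) (.e (nat_lit 163903) (nat_lit 12) (.e (nat_lit 426568) (nat_lit 34) (.e (nat_lit 393284) (nat_lit 24) .nil)))))) (.g (nat_lit 1) (.e (nat_lit 327998) (nat_lit 0) .nil) .nil)))) (.nd (nat_lit 9) 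
(.lf (nat_lit 564639) (.g (nat_lit 2737) (.e (nat_lit 434231) (nat_lit 23) (.e (nat_lit 532550) (nat_lit 12) (.e (nat_lit 360475) (nat_lit 8) (.e (nat_lit 557090) (nat_lit 12) (.e (nat_lit 164020) (nat_lit 45) (.e (nat_lit 696328) (nat_lit 5) (.e (nat_lit 2978) (nat_lit 185) .nil))))))) (.g (nat_lit 1) (.e (nat_lit 327466) (nat_lit 0) .nil) .nil))) 
(.lf (nat_lit 565151) (.g (nat_lit 903) (.e (nat_lit 434242) (nat_lit 28) (.e (nat_lit 573471) (nat_lit 11) (.e (nat_lit 16444) (nat_lit 9) .nil))) (.g (nat_lit 0) (.e (nat_lit 328870) (nat_lit 0) .nil) .nil)))))) (.nd (nat_lit 7) (.nd (nat_lit 8) (.nd (nat_lit 9) 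
(.lf (nat_lit 564319) (.g (nat_lit 2489) (.e (nat_lit 434231) (nat_lit 23) (.e (nat_lit 532499) (nat_lit 1) (.e (nat_lit 57692) (nat_lit 156) (.e (nat_lit 163907) (nat_lit 12) (.e (nat_lit 426479) (nat_lit 27) (.e (nat_lit 336395) (nat_lit 27) (.e (nat_lit 426289) (nat_lit 10) .nil))))))) (.g (nat_lit 1) (.e (nat_lit 325871) (nat_lit 0) .nil) .nil))) 
(.lf (nat_lit 564831) (.g (nat_lit 2218) (.e (nat_lit 434232) (nat_lit 23) (.e (nat_lit 532504) (nat_lit 1) (.e (nat_lit 57691) (nat_lit 156) (.e (nat_lit 163905) (nat_lit 12) (.e (nat_lit 426568) (nat_lit 34) .nil))))) (.g (nat_lit 0) (.e (nat_lit 327875) (nat_lit 0) .nil) .nil)))) (.nd (nat_lit 9) 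
(.lf (nat_lit 564575) (.g (nat_lit 3125) (.e (nat_lit 434231) (nat_lit 23) (.e (nat_lit 532550) (nat_lit 12) (.e (nat_lit 360474) (nat_lit 8) (.e (nat_lit 557093) (nat_lit 12) (.e (nat_lit 163853) (nat_lit 0) (.e (nat_lit 6425) (nat_lit 342) (.e (nat_lit 229408) (nat_lit 13) .nil))))))) (.g (nat_lit 1) (.e (nat_lit 327331) (nat_lit 0) .nil) .nil))) 
(.lf (nat_lit 565087) (.g (nat_lit 3515) (.e (nat_lit 434238) (nat_lit 25) (.e (nat_lit 548913) (nat_lit 18) (.e (nat_lit 172094) (nat_lit 9) (.e (nat_lit 426125) (nat_lit 2) (.e (nat_lit 196631) (nat_lit 9) .nil))))) (.g (nat_lit 0) (.e (nat_lit 328699) (nat_lit 0) .nil) .nil))))) (.nd (nat_lit 8) (.nd (nat_lit 9) 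
(.lf (nat_lit 564447) (.g (nat_lit 3769) (.e (nat_lit 434231) (nat_lit 23) (.e (nat_lit 532535) (nat_lit 9) (.e (nat_lit 336295) (nat_lit 15) (.e (nat_lit 3631) (nat_lit 227) (.e (nat_lit 778318) (nat_lit 3) (.e (nat_lit 57476) (nat_lit 28) (.e (nat_lit 557097) (nat_lit 13) (.e (nat_lit 172105) (nat_lit 10) .nil)))))))) (.g (nat_lit 1) (.e (nat_lit 326779) (nat_lit 0) .nil) .nil))) 
(.lf (nat_lit 564959) (.g (nat_lit 5556) (.e (nat_lit 434233) (nat_lit 23) (.e (nat_lit 532535) (nat_lit 9) (.e (nat_lit 336176) (nat_lit 10) (.e (nat_lit 344130) (nat_lit 26) (.e (nat_lit 557090) (nat_lit 12) (.e (nat_lit 164022) (nat_lit 46) (.e (nat_lit 704629) (nat_lit 9) (.e (nat_lit 442) (nat_lit 33) .nil)))))))) (.g (nat_lit 1) (.e (nat_lit 328172) (nat_lit 0) .nil) .nil)))) 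
(.nd (nat_lit 9) 
(.lf (nat_lit 564703) (.g (nat_lit 4906) (.e (nat_lit 434231) (nat_lit 23) (.e (nat_lit 532550) (nat_lit 12) (.e (nat_lit 360475) (nat_lit 8) (.e (nat_lit 557091) (nat_lit 12) (.e (nat_lit 164022) (nat_lit 46) (.e (nat_lit 704628) (nat_lit 9) (.e (nat_lit 452) (nat_lit 33) .nil))))))) (.g (nat_lit 1) (.e (nat_lit 327581) (nat_lit 0) .nil) .nil))) 
(.lf (nat_lit 565215) (.g (nat_lit 5056) (.e (nat_lit 434244) (nat_lit 28) (.e (nat_lit 573449) (nat_lit 9) (.e (nat_lit 437) (nat_lit 32) (.e (nat_lit 426316) (nat_lit 12) (.e (nat_lit 475185) (nat_lit 29) (.e (nat_lit 557101) (nat_lit 13) (.e (nat_lit 172115) (nat_lit 10) .nil))))))) (.g (nat_lit 1) (.e (nat_lit 328961) (nat_lit 0) .nil) .nil))))))) 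
(.nd (nat_lit 6) (.nd (nat_lit 7) (.nd (nat_lit 8) (.nd (nat_lit 9) 
(.lf (nat_lit 564287) (.g (nat_lit 3491) (.e (nat_lit 434230) (nat_lit 23) (.e (nat_lit 532550) (nat_lit 12) (.e (nat_lit 360475) (nat_lit 8) (.e (nat_lit 557091) (nat_lit 12) (.e (nat_lit 164022) (nat_lit 46) (.e (nat_lit 704629) (nat_lit 9) (.e (nat_lit 449) (nat_lit 33) .nil))))))) (.g (nat_lit 1) (.e (nat_lit 325797) (nat_lit 0) .nil) .nil))) 
(.lf (nat_lit 564799) (.g (nat_lit 2808) (.e (nat_lit 434232) (nat_lit 23) (.e (nat_lit 532501) (nat_lit 1) (.e (nat_lit 57691) (nat_lit 156) (.e (nat_lit 163875) (nat_lit 3) (.e (nat_lit 204836) (nat_lit 20) .nil))))) (.g (nat_lit 0) (.e (nat_lit 327842) (nat_lit 0) .nil) .nil)))) (.nd (nat_lit 9) 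
(.lf (nat_lit 564543) (.g (nat_lit 3512) (.e (nat_lit 434231) (nat_lit 23) (.e (nat_lit 532550) (nat_lit 12) (.e (nat_lit 360472) (nat_lit 8) (.e (nat_lit 557090) (nat_lit 12) (.e (nat_lit 164020) (nat_lit 45) (.e (nat_lit 696330) (nat_lit 5) (.e (nat_lit 2980) (nat_lit 185) .nil))))))) (.g (nat_lit 1) (.e (nat_lit 327290) (nat_lit 0) .nil) .nil))) 
(.lf (nat_lit 565055) (.g (nat_lit 4515) (.e (nat_lit 434235) (nat_lit 24) (.e (nat_lit 540706) (nat_lit 12) (.e (nat_lit 360474) (nat_lit 8) (.e (nat_lit 557091) (nat_lit 12) (.e (nat_lit 164022) (nat_lit 46) .nil))))) (.g (nat_lit 0) (.e (nat_lit 328407) (nat_lit 0) .nil) .nil))))) (.nd (nat_lit 8) (.nd (nat_lit 9) 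
(.lf (nat_lit 564415) (.g (nat_lit 2494) (.e (nat_lit 434231) (nat_lit 23) (.e (nat_lit 532523) (nat_lit 7) (.e (nat_lit 319531) (nat_lit 16) (.e (nat_lit 286735) (nat_lit 3) (.e (nat_lit 98354) (nat_lit 26) .nil))))) (.g (nat_lit 0) (.e (nat_lit 326017) (nat_lit 0) .nil) .nil))) 
(.lf (nat_lit 564927) (.g (nat_lit 2960) (.e (nat_lit 434233) (nat_lit 23) (.e (nat_lit 532523) (nat_lit 7) (.e (nat_lit 319530) (nat_lit 16) (.e (nat_lit 286733) (nat_lit 2) (.e (nat_lit 90169) (nat_lit 13) (.e (nat_lit 172111) (nat_lit 10) .nil)))))) (.g (nat_lit 1) (.e (nat_lit 328081) (nat_lit 0) .nil) .nil)))) (.nd (nat_lit 9) 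
(.lf (nat_lit 564671) (.g (nat_lit 2833) (.e (nat_lit 434231) (nat_lit 23) (.e (nat_lit 532550) (nat_lit 12) (.e (nat_lit 360475) (nat_lit 8) (.e (nat_lit 557091) (nat_lit 12) (.e (nat_lit 163850) (nat_lit 0) (.e (nat_lit 6425) (nat_lit 342) (.e (nat_lit 237312) (nat_lit 13) .nil))))))) (.g (nat_lit 1) (.e (nat_lit 327527) (nat_lit 0) .nil) .nil))) 
(.lf (nat_lit 565183) (.g (nat_lit 2412) (.e (nat_lit 434242) (nat_lit 28) (.e (nat_lit 573488) (nat_lit 14) (.e (nat_lit 73755) (nat_lit 8) (.e (nat_lit 557090) (nat_lit 12) (.e (nat_lit 163850) (nat_lit 0) (.e (nat_lit 5939) (nat_lit 322) (.e (nat_lit 57379) (nat_lit 3) (.e (nat_lit 98366) (nat_lit 27) .nil)))))))) (.g (nat_lit 1) (.e (nat_lit 328919) (nat_lit 0) .nil) .nil)))))) 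
(.nd (nat_lit 7) (.nd (nat_lit 8) (.nd (nat_lit 9) 
(.lf (nat_lit 564351) (.g (nat_lit 386) (.e (nat_lit 434231) (nat_lit 23) (.e (nat_lit 532522) (nat_lit 7) (.e (nat_lit 319528) (nat_lit 16) .nil))) (.g (nat_lit 0) (.e (nat_lit 325944) (nat_lit 0) .nil) .nil))) 
(.lf (nat_lit 564863) (.g (nat_lit 2443) (.e (nat_lit 434232) (nat_lit 23) (.e (nat_lit 532549) (nat_lit 12) (.e (nat_lit 360475) (nat_lit 8) (.e (nat_lit 557091) (nat_lit 12) .nil)))) (.g (nat_lit 0) (.e (nat_lit 327927) (nat_lit 0) .nil) .nil)))) (.nd (nat_lit 9) 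
(.lf (nat_lit 564607) (.g (nat_lit 2055) (.e (nat_lit 434231) (nat_lit 23) (.e (nat_lit 532550) (nat_lit 12) (.e (nat_lit 360475) (nat_lit 8) (.e (nat_lit 557089) (nat_lit 12) (.e (nat_lit 163848) (nat_lit 0) .nil))))) (.g (nat_lit 0) (.e (nat_lit 327417) (nat_lit 0) .nil) .nil))) 
(.lf (nat_lit 565119) (.g (nat_lit 4003) (.e (nat_lit 434238) (nat_lit 25) (.e (nat_lit 548915) (nat_lit 20) (.e (nat_lit 188452) (nat_lit 23) (.e (nat_lit 204885) (nat_lit 33) (.e (nat_lit 401448) (nat_lit 10) .nil))))) (.g (nat_lit 1) (.e (nat_lit 328828) (nat_lit 0) .nil) .nil))))) (.nd (nat_lit 8) (.nd (nat_lit 9) 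
(.lf (nat_lit 564479) (.g (nat_lit 1147) (.e (nat_lit 434231) (nat_lit 23) (.e (nat_lit 532549) (nat_lit 12) (.e (nat_lit 360473) (nat_lit 8) (.e (nat_lit 557093) (nat_lit 12) .nil)))) (.g (nat_lit 0) (.e (nat_lit 327050) (nat_lit 0) .nil) .nil))) 
(.lf (nat_lit 564991) (.g (nat_lit 2794) (.e (nat_lit 434234) (nat_lit 23) (.e (nat_lit 532499) (nat_lit 1) (.e (nat_lit 57688) (nat_lit 156) (.e (nat_lit 163869) (nat_lit 2) (.e (nat_lit 196624) (nat_lit 9) .nil))))) (.g (nat_lit 0) (.e (nat_lit 328290) (nat_lit 0) .nil) .nil)))) (.nd (nat_lit 9) 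
(.lf (nat_lit 564735) (.g (nat_lit 3323) (.e (nat_lit 434231) (nat_lit 23) (.e (nat_lit 532569) (nat_lit 16) (.e (nat_lit 401448) (nat_lit 10) (.e (nat_lit 434226) (nat_lit 20) (.e (nat_lit 507946) (nat_lit 18) (.e (nat_lit 303137) (nat_lit 10) .nil)))))) (.g (nat_lit 1) (.e (nat_lit 327700) (nat_lit 0) .nil) .nil))) 
(.lf (nat_lit 565247) (.g (nat_lit 3212) (.e (nat_lit 434244) (nat_lit 28) (.e (nat_lit 573451) (nat_lit 9) (.e (nat_lit 498) (nat_lit 40) (.e (nat_lit 491565) (nat_lit 12) (.e (nat_lit 385068) (nat_lit 26) (.e (nat_lit 532513) (nat_lit 3) (.e (nat_lit 122624) (nat_lit 12) .nil))))))) (.g (nat_lit 1) (.e (nat_lit 329011) (nat_lit 0) .nil) .nil)))))))))))))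

noncomputable def tv5612 : DT := (.nd (nat_lit 0) (.nd (nat_lit 1) (.nd (nat_lit 2) (.nd (nat_lit 3) (.nd (nat_lit 4) (.nd (nat_lit 5) (.nd (nat_lit 6) (.nd (nat_lit 7) (.nd (nat_lit 8) (.nd (nat_lit 9) 
(.lf (nat_lit 565248) (.g (nat_lit 3080) (.e (nat_lit 434244) (nat_lit 28) (.e (nat_lit 573451) (nat_lit 9) (.e (nat_lit 498) (nat_lit 40) (.e (nat_lit 491565) (nat_lit 12) (.e (nat_lit 385068) (nat_lit 26) (.e (nat_lit 532515) (nat_lit 3) (.e (nat_lit 122624) (nat_lit 12) .nil))))))) (.g (nat_lit 1) (.e (nat_lit 329012) (nat_lit 0) .nil) .nil))) 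
(.lf (nat_lit 565760) (.g (nat_lit 2164) (.e (nat_lit 434247) (nat_lit 28) (.e (nat_lit 573484) (nat_lit 13) (.e (nat_lit 65571) (nat_lit 3) (.e (nat_lit 98334) (nat_lit 18) (.e (nat_lit 171776) (nat_lit 160) .nil))))) (.g (nat_lit 0) (.e (nat_lit 330298) (nat_lit 0) .nil) .nil)))) (.nd (nat_lit 9) 
(.lf (nat_lit 565504) (.g (nat_lit 2661) (.e (nat_lit 434245) (nat_lit 28) (.e (nat_lit 573488) (nat_lit 14) (.e (nat_lit 73755) (nat_lit 8) (.e (nat_lit 557090) (nat_lit 12) (.e (nat_lit 163841) (nat_lit 0) (.e (nat_lit 5940) (nat_lit 322) (.e (nat_lit 57379) (nat_lit 3) (.e (nat_lit 98366) (nat_lit 27) .nil)))))))) (.g (nat_lit 1) (.e (nat_lit 329716) (nat_lit 0) .nil) .nil))) 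
(.lf (nat_lit 566016) (.g (nat_lit 2408) (.e (nat_lit 434248) (nat_lit 28) (.e (nat_lit 573487) (nat_lit 14) (.e (nat_lit 73753) (nat_lit 8) (.e (nat_lit 557091) (nat_lit 12) (.e (nat_lit 163844) (nat_lit 0) .nil))))) (.g (nat_lit 0) (.e (nat_lit 331059) (nat_lit 0) .nil) .nil))))) (.nd (nat_lit 8) (.nd (nat_lit 9) 
(.lf (nat_lit 565376) (.g (nat_lit 1972) (.e (nat_lit 434245) (nat_lit 28) (.e (nat_lit 573471) (nat_lit 11) (.e (nat_lit 16433) (nat_lit 9) (.e (nat_lit 426360) (nat_lit 15) .nil)))) (.g (nat_lit 0) (.e (nat_lit 329408) (nat_lit 0) .nil) .nil))) 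
(.lf (nat_lit 565888) (.g (nat_lit 2501) (.e (nat_lit 434248) (nat_lit 28) (.e (nat_lit 573452) (nat_lit 9) (.e (nat_lit 498) (nat_lit 40) (.e (nat_lit 491565) (nat_lit 12) (.e (nat_lit 385067) (nat_lit 26) (.e (nat_lit 532515) (nat_lit 3) (.e (nat_lit 122624) (nat_lit 12) .nil))))))) (.g (nat_lit 1) (.e (nat_lit 330607) (nat_lit 0) .nil) .nil)))) (.nd (nat_lit 9) 
(.lf (nat_lit 565632) (.g (nat_lit 2605) (.e (nat_lit 434246) (nat_lit 28) (.e (nat_lit 573489) (nat_lit 14) (.e (nat_lit 73755) (nat_lit 8) (.e (nat_lit 557090) (nat_lit 12) (.e (nat_lit 163843) (nat_lit 0) (.e (nat_lit 5943) (nat_lit 322) (.e (nat_lit 57379) (nat_lit 3) (.e (nat_lit 98366) (nat_lit 27) .nil)))))))) (.g (nat_lit 1) (.e (nat_lit 330057) (nat_lit 0) .nil) .nil))) 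
(.lf (nat_lit 566144) (.g (nat_lit 437) (.e (nat_lit 434268) (nat_lit 36) (.e (nat_lit 639020) (nat_lit 16) (.e (nat_lit 65583) (nat_lit 7) .nil))) (.g (nat_lit 0) (.e (nat_lit 331490) (nat_lit 0) .nil) .nil)))))) (.nd (nat_lit 7) (.nd (nat_lit 8) (.nd (nat_lit 9) 
(.lf (nat_lit 565312) (.g (nat_lit 2487) (.e (nat_lit 434244) (nat_lit 28) (.e (nat_lit 573487) (nat_lit 14) (.e (nat_lit 73747) (nat_lit 3) (.e (nat_lit 516119) (nat_lit 1) (.e (nat_lit 164196) (nat_lit 158) .nil))))) (.g (nat_lit 0) (.e (nat_lit 329227) (nat_lit 0) .nil) .nil))) 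
(.lf (nat_lit 565824) (.g (nat_lit 2657) (.e (nat_lit 434247) (nat_lit 28) (.e (nat_lit 573489) (nat_lit 14) (.e (nat_lit 73755) (nat_lit 8) (.e (nat_lit 557089) (nat_lit 12) (.e (nat_lit 163844) (nat_lit 0) (.e (nat_lit 5943) (nat_lit 322) (.e (nat_lit 57379) (nat_lit 3) (.e (nat_lit 98366) (nat_lit 27) .nil)))))))) (.g (nat_lit 1) (.e (nat_lit 330462) (nat_lit 0) .nil) .nil)))) (.nd (nat_lit 9) 
(.lf (nat_lit 565568) (.g (nat_lit 1055) (.e (nat_lit 434246) (nat_lit 28) (.e (nat_lit 573475) (nat_lit 12) (.e (nat_lit 57503) (nat_lit 38) .nil))) (.g (nat_lit 0) (.e (nat_lit 329848) (nat_lit 0) .nil) .nil))) 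
(.lf (nat_lit 566080) (.g (nat_lit 1726) (.e (nat_lit 442112) (nat_lit 28) (.e (nat_lit 573450) (nat_lit 9) (.e (nat_lit 375) (nat_lit 32) (.e (nat_lit 426173) (nat_lit 7) .nil)))) (.g (nat_lit 0) (.e (nat_lit 331400) (nat_lit 0) .nil) .nil))))) (.nd (nat_lit 8) (.nd (nat_lit 9) 
(.lf (nat_lit 565440) (.g (nat_lit 2701) (.e (nat_lit 434245) (nat_lit 28) (.e (nat_lit 573487) (nat_lit 14) (.e (nat_lit 73746) (nat_lit 3) (.e (nat_lit 516119) (nat_lit 1) (.e (nat_lit 164196) (nat_lit 158) .nil))))) (.g (nat_lit 0) (.e (nat_lit 329567) (nat_lit 0) .nil) .nil))) 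
(.lf (nat_lit 565952) (.g (nat_lit 3413) (.e (nat_lit 434248) (nat_lit 28) (.e (nat_lit 573471) (nat_lit 11) (.e (nat_lit 16472) (nat_lit 14) (.e (nat_lit 491537) (nat_lit 2) (.e (nat_lit 90170) (nat_lit 13) (.e (nat_lit 172113) (nat_lit 10) .nil)))))) (.g (nat_lit 1) (.e (nat_lit 330731) (nat_lit 0) .nil) .nil)))) (.nd (nat_lit 9) 
(.lf (nat_lit 565696) (.g (nat_lit 2581) (.e (nat_lit 434247) (nat_lit 28) (.e (nat_lit 573471) (nat_lit 11) (.e (nat_lit 16473) (nat_lit 14) (.e (nat_lit 491535) (nat_lit 2) (.e (nat_lit 90170) (nat_lit 13) .nil))))) (.g (nat_lit 0) (.e (nat_lit 330170) (nat_lit 0) .nil) .nil))) 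
(.lf (nat_lit 566208) (.g (nat_lit 345) (.e (nat_lit 434275) (nat_lit 39) (.e (nat_lit 663580) (nat_lit 9) (.e (nat_lit 284) (nat_lit 21) .nil))) (.g (nat_lit 0) (.e (nat_lit 331618) (nat_lit 0) .nil) .nil))))))) (.nd (nat_lit 6) (.nd (nat_lit 7) (.nd (nat_lit 8) (.nd (nat_lit 9) 
(.lf (nat_lit 565280) (.g (nat_lit 3389) (.e (nat_lit 434244) (nat_lit 28) (.e (nat_lit 573471) (nat_lit 11) (.e (nat_lit 16439) (nat_lit 9) (.e (nat_lit 426132) (nat_lit 3) (.e (nat_lit 204885) (nat_lit 33) (.e (nat_lit 401448) (nat_lit 10) .nil)))))) (.g (nat_lit 1) (.e (nat_lit 329107) (nat_lit 0) .nil) .nil))) 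
(.lf (nat_lit 565792) (.g (nat_lit 804) (.e (nat_lit 434247) (nat_lit 28) (.e (nat_lit 573489) (nat_lit 14) (.e (nat_lit 73747) (nat_lit 3) .nil))) (.g (nat_lit 0) (.e (nat_lit 330391) (nat_lit 0) .nil) .nil)))) (.nd (nat_lit 9) 
(.lf (nat_lit 565536) (.g (nat_lit 1032) (.e (nat_lit 434245) (nat_lit 28) (.e (nat_lit 573488) (nat_lit 14) (.e (nat_lit 73755) (nat_lit 8) (.e (nat_lit 557119) (nat_lit 18) .nil)))) (.g (nat_lit 0) (.e (nat_lit 329787) (nat_lit 0) .nil) .nil))) 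
(.lf (nat_lit 566048) (.g (nat_lit 2646) (.e (nat_lit 434248) (nat_lit 28) (.e (nat_lit 573489) (nat_lit 14) (.e (nat_lit 73755) (nat_lit 8) (.e (nat_lit 557075) (nat_lit 9) .nil)))) (.g (nat_lit 0) (.e (nat_lit 331205) (nat_lit 0) .nil) .nil))))) (.nd (nat_lit 8) (.nd (nat_lit 9) 
(.lf (nat_lit 565408) (.g (nat_lit 1094) (.e (nat_lit 434245) (nat_lit 28) (.e (nat_lit 573481) (nat_lit 13) (.e (nat_lit 65568) (nat_lit 2) (.e (nat_lit 98048) (nat_lit 0) .nil)))) (.g (nat_lit 0) (.e (nat_lit 329468) (nat_lit 0) .nil) .nil))) 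
(.lf (nat_lit 565920) (.g (nat_lit 2908) (.e (nat_lit 434248) (nat_lit 28) (.e (nat_lit 573471) (nat_lit 11) (.e (nat_lit 16433) (nat_lit 9) (.e (nat_lit 426397) (nat_lit 15) .nil)))) (.g (nat_lit 0) (.e (nat_lit 330661) (nat_lit 0) .nil) .nil)))) (.nd (nat_lit 9) 
(.lf (nat_lit 565664) (.g (nat_lit 3775) (.e (nat_lit 434247) (nat_lit 28) (.e (nat_lit 573457) (nat_lit 9) (.e (nat_lit 430) (nat_lit 32) (.e (nat_lit 426011) (nat_lit 0) (.e (nat_lit 7583) (nat_lit 405) (.e (nat_lit 57464) (nat_lit 23) (.e (nat_lit 516151) (nat_lit 9) (.e (nat_lit 426286) (nat_lit 10) .nil)))))))) (.g (nat_lit 1) (.e (nat_lit 330129) (nat_lit 0) .nil) .nil))) 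
(.lf (nat_lit 566176) (.g (nat_lit 2770) (.e (nat_lit 434268) (nat_lit 36) (.e (nat_lit 639020) (nat_lit 16) (.e (nat_lit 65619) (nat_lit 10) (.e (nat_lit 344156) (nat_lit 36) (.e (nat_lit 638998) (nat_lit 8) (.e (nat_lit 172112) (nat_lit 10) .nil)))))) (.g (nat_lit 1) (.e (nat_lit 331541) (nat_lit 0) .nil) .nil)))))) (.nd (nat_lit 7) (.nd (nat_lit 8) (.nd (nat_lit 9) 
(.lf (nat_lit 565344) (.g (nat_lit 3701) (.e (nat_lit 434244) (nat_lit 28) (.e (nat_lit 573489) (nat_lit 14) (.e (nat_lit 73755) (nat_lit 8) (.e (nat_lit 557090) (nat_lit 12) (.e (nat_lit 164004) (nat_lit 41) .nil))))) (.g (nat_lit 0) (.e (nat_lit 329346) (nat_lit 0) .nil) .nil))) 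
(.lf (nat_lit 565856) (.g (nat_lit 2187) (.e (nat_lit 434247) (nat_lit 28) (.e (nat_lit 573489) (nat_lit 14) (.e (nat_lit 73755) (nat_lit 8) (.e (nat_lit 557091) (nat_lit 12) (.e (nat_lit 164004) (nat_lit 41) .nil))))) (.g (nat_lit 0) (.e (nat_lit 330541) (nat_lit 0) .nil) .nil)))) (.nd (nat_lit 9) 
(.lf (nat_lit 565600) (.g (nat_lit 1631) (.e (nat_lit 434246) (nat_lit 28) (.e (nat_lit 573487) (nat_lit 14) (.e (nat_lit 73746) (nat_lit 3) (.e (nat_lit 516195) (nat_lit 26) .nil)))) (.g (nat_lit 0) (.e (nat_lit 329939) (nat_lit 0) .nil) .nil))) 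
(.lf (nat_lit 566112) (.g (nat_lit 870) (.e (nat_lit 434265) (nat_lit 35) (.e (nat_lit 630820) (nat_lit 16) (.e (nat_lit 65616) (nat_lit 10) (.e (nat_lit 344157) (nat_lit 36) (.e (nat_lit 638999) (nat_lit 8) (.e (nat_lit 172112) (nat_lit 10) .nil)))))) (.g (nat_lit 1) (.e (nat_lit 331458) (nat_lit 0) .nil) .nil))))) (.nd (nat_lit 8) (.nd (nat_lit 9) 
(.lf (nat_lit 565472) (.g (nat_lit 2781) (.e (nat_lit 434245) (nat_lit 28) (.e (nat_lit 573487) (nat_lit 14) (.e (nat_lit 73753) (nat_lit 8) (.e (nat_lit 557093) (nat_lit 12) (.e (nat_lit 163856) (nat_lit 0) (.e (nat_lit 5949) (nat_lit 322) (.e (nat_lit 57378) (nat_lit 3) (.e (nat_lit 98368) (nat_lit 27) .nil)))))))) (.g (nat_lit 1) (.e (nat_lit 329637) (nat_lit 0) .nil) .nil))) 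
(.lf (nat_lit 565984) (.g (nat_lit 1402) (.e (nat_lit 434248) (nat_lit 28) (.e (nat_lit 573482) (nat_lit 13) (.e (nat_lit 65569) (nat_lit 3) (.e (nat_lit 98325) (nat_lit 17) .nil)))) (.g (nat_lit 0) (.e (nat_lit 330837) (nat_lit 0) .nil) .nil)))) (.nd (nat_lit 9) 
(.lf (nat_lit 565728) (.g (nat_lit 2486) (.e (nat_lit 434247) (nat_lit 28) (.e (nat_lit 573477) (nat_lit 12) (.e (nat_lit 57750) (nat_lit 201) (.e (nat_lit 3090) (nat_lit 191) (.e (nat_lit 483363) (nat_lit 18) (.e (nat_lit 57688) (nat_lit 156) (.e (nat_lit 163918) (nat_lit 13) .nil))))))) (.g (nat_lit 1) (.e (nat_lit 330206) (nat_lit 0) .nil) .nil))) 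
(.lf (nat_lit 566240) (.g (nat_lit 1011) (.e (nat_lit 434280) (nat_lit 40) (.e (nat_lit 671762) (nat_lit 4) (.e (nat_lit 65651) (nat_lit 27) (.e (nat_lit 426213) (nat_lit 9) .nil)))) (.g (nat_lit 0) (.e (nat_lit 331825) (nat_lit 0) .nil) .nil)))))))) (.nd (nat_lit 5) (.nd (nat_lit 6) (.nd (nat_lit 7) (.nd (nat_lit 8) (.nd (nat_lit 9) 
(.lf (nat_lit 565264) (.g (nat_lit 1354) (.e (nat_lit 434244) (nat_lit 28) (.e (nat_lit 573471) (nat_lit 11) (.e (nat_lit 16425) (nat_lit 7) (.e (nat_lit 409616) (nat_lit 10) .nil)))) (.g (nat_lit 0) (.e (nat_lit 329058) (nat_lit 0) .nil) .nil))) 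
(.lf (nat_lit 565776) (.g (nat_lit 1931) (.e (nat_lit 434247) (nat_lit 28) (.e (nat_lit 573485) (nat_lit 13) (.e (nat_lit 65569) (nat_lit 3) (.e (nat_lit 98334) (nat_lit 18) (.e (nat_lit 171776) (nat_lit 160) .nil))))) (.g (nat_lit 0) (.e (nat_lit 330328) (nat_lit 0) .nil) .nil)))) (.nd (nat_lit 9) 
(.lf (nat_lit 565520) (.g (nat_lit 2278) (.e (nat_lit 434245) (nat_lit 28) (.e (nat_lit 573488) (nat_lit 14) (.e (nat_lit 73755) (nat_lit 8) (.e (nat_lit 557090) (nat_lit 12) (.e (nat_lit 164006) (nat_lit 41) .nil))))) (.g (nat_lit 0) (.e (nat_lit 329742) (nat_lit 0) .nil) .nil))) 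
(.lf (nat_lit 566032) (.g (nat_lit 3190) (.e (nat_lit 434248) (nat_lit 28) (.e (nat_lit 573489) (nat_lit 14) (.e (nat_lit 73754) (nat_lit 8) (.e (nat_lit 557091) (nat_lit 12) (.e (nat_lit 164005) (nat_lit 41) .nil))))) (.g (nat_lit 0) (.e (nat_lit 331144) (nat_lit 0) .nil) .nil))))) (.nd (nat_lit 8) (.nd (nat_lit 9) 
(.lf (nat_lit 565392) (.g (nat_lit 2095) (.e (nat_lit 434245) (nat_lit 28) (.e (nat_lit 573471) (nat_lit 11) (.e (nat_lit 16469) (nat_lit 14) (.e (nat_lit 491539) (nat_lit 3) (.e (nat_lit 98359) (nat_lit 26) .nil))))) (.g (nat_lit 0) (.e (nat_lit 329430) (nat_lit 0) .nil) .nil))) 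
(.lf (nat_lit 565904) (.g (nat_lit 3444) (.e (nat_lit 434248) (nat_lit 28) (.e (nat_lit 573471) (nat_lit 11) (.e (nat_lit 16425) (nat_lit 7) (.e (nat_lit 409624) (nat_lit 10) .nil)))) (.g (nat_lit 0) (.e (nat_lit 330640) (nat_lit 0) .nil) .nil)))) (.nd (nat_lit 9) 
(.lf (nat_lit 565648) (.g (nat_lit 2611) (.e (nat_lit 434246) (nat_lit 28) (.e (nat_lit 573489) (nat_lit 14) (.e (nat_lit 73755) (nat_lit 8) (.e (nat_lit 557091) (nat_lit 12) (.e (nat_lit 164006) (nat_lit 41) .nil))))) (.g (nat_lit 0) (.e (nat_lit 330101) (nat_lit 0) .nil) .nil))) 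
(.lf (nat_lit 566160) (.g (nat_lit 1435) (.e (nat_lit 434268) (nat_lit 36) (.e (nat_lit 639020) (nat_lit 16) (.e (nat_lit 65589) (nat_lit 9) (.e (nat_lit 335997) (nat_lit 1) (.e (nat_lit 57857) (nat_lit 254) .nil))))) (.g (nat_lit 0) (.e (nat_lit 331511) (nat_lit 0) .nil) .nil)))))) (.nd (nat_lit 7) (.nd (nat_lit 8) (.nd (nat_lit 9) 
(.lf (nat_lit 565328) (.g (nat_lit 4546) (.e (nat_lit 434244) (nat_lit 28) (.e (nat_lit 573488) (nat_lit 14) (.e (nat_lit 73755) (nat_lit 8) (.e (nat_lit 557090) (nat_lit 12) (.e (nat_lit 163843) (nat_lit 0) (.e (nat_lit 5943) (nat_lit 322) (.e (nat_lit 57379) (nat_lit 3) (.e (nat_lit 98366) (nat_lit 27) .nil)))))))) (.g (nat_lit 1) (.e (nat_lit 329300) (nat_lit 0) .nil) .nil))) 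
(.lf (nat_lit 565840) (.g (nat_lit 3193) (.e (nat_lit 434247) (nat_lit 28) (.e (nat_lit 573489) (nat_lit 14) (.e (nat_lit 73755) (nat_lit 8) (.e (nat_lit 557090) (nat_lit 12) (.e (nat_lit 163852) (nat_lit 0) .nil))))) (.g (nat_lit 0) (.e (nat_lit 330504) (nat_lit 0) .nil) .nil)))) (.nd (nat_lit 9) 
(.lf (nat_lit 565584) (.g (nat_lit 681) (.e (nat_lit 434246) (nat_lit 28) (.e (nat_lit 573482) (nat_lit 13) (.e (nat_lit 65571) (nat_lit 3) .nil))) (.g (nat_lit 0) (.e (nat_lit 329879) (nat_lit 0) .nil) .nil))) 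
(.lf (nat_lit 566096) (.g (nat_lit 1674) (.e (nat_lit 434241) (nat_lit 27) (.e (nat_lit 565267) (nat_lit 4) (.e (nat_lit 65619) (nat_lit 10) (.e (nat_lit 344183) (nat_lit 49) (.e (nat_lit 819219) (nat_lit 4) (.e (nat_lit 172107) (nat_lit 10) .nil)))))) (.g (nat_lit 1) (.e (nat_lit 331427) (nat_lit 0) .nil) .nil))))) (.nd (nat_lit 8) (.nd (nat_lit 9) 
(.lf (nat_lit 565456) (.g (nat_lit 2306) (.e (nat_lit 434245) (nat_lit 28) (.e (nat_lit 573487) (nat_lit 14) (.e (nat_lit 73753) (nat_lit 8) (.e (nat_lit 557089) (nat_lit 12) (.e (nat_lit 164010) (nat_lit 41) .nil))))) (.g (nat_lit 0) (.e (nat_lit 329600) (nat_lit 0) .nil) .nil))) 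
(.lf (nat_lit 565968) (.g (nat_lit 4508) (.e (nat_lit 434248) (nat_lit 28) (.e (nat_lit 573475) (nat_lit 12) (.e (nat_lit 57574) (nat_lit 55) (.e (nat_lit 778466) (nat_lit 11) (.e (nat_lit 24604) (nat_lit 2) (.e (nat_lit 90185) (nat_lit 17) (.e (nat_lit 237613) (nat_lit 10) .nil))))))) (.g (nat_lit 1) (.e (nat_lit 330751) (nat_lit 0) .nil) .nil)))) (.nd (nat_lit 9) 
(.lf (nat_lit 565712) (.g (nat_lit 2546) (.e (nat_lit 434247) (nat_lit 28) (.e (nat_lit 573477) (nat_lit 12) (.e (nat_lit 57575) (nat_lit 55) (.e (nat_lit 778465) (nat_lit 11) (.e (nat_lit 24603) (nat_lit 2) (.e (nat_lit 90169) (nat_lit 13) (.e (nat_lit 172111) (nat_lit 10) .nil))))))) (.g (nat_lit 1) (.e (nat_lit 330189) (nat_lit 0) .nil) .nil))) 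
(.lf (nat_lit 566224) (.g (nat_lit 1953) (.e (nat_lit 434276) (nat_lit 39) (.e (nat_lit 663585) (nat_lit 12) (.e (nat_lit 163977) (nat_lit 30) (.e (nat_lit 573470) (nat_lit 11) (.e (nat_lit 16465) (nat_lit 13) (.e (nat_lit 491264) (nat_lit 10) .nil)))))) (.g (nat_lit 1) (.e (nat_lit 331750) (nat_lit 0) .nil) .nil))))))) (.nd (nat_lit 6) (.nd (nat_lit 7) (.nd (nat_lit 8) (.nd (nat_lit 9) 
(.lf (nat_lit 565296) (.g (nat_lit 2508) (.e (nat_lit 434244) (nat_lit 28) (.e (nat_lit 573481) (nat_lit 13) (.e (nat_lit 65569) (nat_lit 3) (.e (nat_lit 98313) (nat_lit 9) (.e (nat_lit 336288) (nat_lit 15) (.e (nat_lit 7936) (nat_lit 195) (.e (nat_lit 516160) (nat_lit 10) .nil))))))) (.g (nat_lit 1) (.e (nat_lit 329180) (nat_lit 0) .nil) .nil))) 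
(.lf (nat_lit 565808) (.g (nat_lit 3551) (.e (nat_lit 434247) (nat_lit 28) (.e (nat_lit 573489) (nat_lit 14) (.e (nat_lit 73755) (nat_lit 8) (.e (nat_lit 557067) (nat_lit 9) (.e (nat_lit 2602) (nat_lit 163) (.e (nat_lit 164399) (nat_lit 256) (.e (nat_lit 57378) (nat_lit 3) (.e (nat_lit 98368) (nat_lit 27) .nil)))))))) (.g (nat_lit 1) (.e (nat_lit 330430) (nat_lit 0) .nil) .nil)))) 
(.nd (nat_lit 9) 
(.lf (nat_lit 565552) (.g (nat_lit 3306) (.e (nat_lit 434246) (nat_lit 28) (.e (nat_lit 573471) (nat_lit 11) (.e (nat_lit 16425) (nat_lit 7) (.e (nat_lit 409623) (nat_lit 10) .nil)))) (.g (nat_lit 0) (.e (nat_lit 329825) (nat_lit 0) .nil) .nil))) 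
(.lf (nat_lit 566064) (.g (nat_lit 3801) (.e (nat_lit 434248) (nat_lit 28) (.e (nat_lit 573489) (nat_lit 14) (.e (nat_lit 73755) (nat_lit 8) (.e (nat_lit 557090) (nat_lit 12) (.e (nat_lit 163851) (nat_lit 0) (.e (nat_lit 5939) (nat_lit 322) (.e (nat_lit 57379) (nat_lit 3) (.e (nat_lit 98367) (nat_lit 27) .nil)))))))) (.g (nat_lit 1) (.e (nat_lit 331256) (nat_lit 0) .nil) .nil))))) 
(.nd (nat_lit 8) (.nd (nat_lit 9) 
(.lf (nat_lit 565424) (.g (nat_lit 1945) (.e (nat_lit 434245) (nat_lit 28) (.e (nat_lit 573481) (nat_lit 13) (.e (nat_lit 65571) (nat_lit 3) (.e (nat_lit 98315) (nat_lit 9) .nil)))) (.g (nat_lit 0) (.e (nat_lit 329514) (nat_lit 0) .nil) .nil))) 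
(.lf (nat_lit 565936) (.g (nat_lit 1579) (.e (nat_lit 434248) (nat_lit 28) (.e (nat_lit 573471) (nat_lit 11) (.e (nat_lit 16457) (nat_lit 12) (.e (nat_lit 475183) (nat_lit 29) .nil)))) (.g (nat_lit 0) (.e (nat_lit 330715) (nat_lit 0) .nil) .nil)))) (.nd (nat_lit 9) 
(.lf (nat_lit 565680) (.g (nat_lit 1759) (.e (nat_lit 434247) (nat_lit 28) (.e (nat_lit 573470) (nat_lit 11) (.e (nat_lit 16388) (nat_lit 0) (.e (nat_lit 7581) (nat_lit 405) (.e (nat_lit 57464) (nat_lit 23) .nil))))) (.g (nat_lit 0) (.e (nat_lit 330147) (nat_lit 0) .nil) .nil))) 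
(.lf (nat_lit 566192) (.g (nat_lit 1409) (.e (nat_lit 434269) (nat_lit 36) (.e (nat_lit 639021) (nat_lit 16) (.e (nat_lit 65616) (nat_lit 10) (.e (nat_lit 344157) (nat_lit 36) (.e (nat_lit 638999) (nat_lit 8) (.e (nat_lit 172106) (nat_lit 10) .nil)))))) (.g (nat_lit 1) (.e (nat_lit 331584) (nat_lit 0) .nil) .nil)))))) (.nd (nat_lit 7) (.nd (nat_lit 8) (.nd (nat_lit 9) 
(.lf (nat_lit 565360) (.g (nat_lit 3393) (.e (nat_lit 434245) (nat_lit 28) (.e (nat_lit 573470) (nat_lit 11) (.e (nat_lit 16458) (nat_lit 12) (.e (nat_lit 475185) (nat_lit 29) (.e (nat_lit 557100) (nat_lit 13) (.e (nat_lit 172113) (nat_lit 10) .nil)))))) (.g (nat_lit 1) (.e (nat_lit 329382) (nat_lit 0) .nil) .nil))) 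
(.lf (nat_lit 565872) (.g (nat_lit 2680) (.e (nat_lit 434247) (nat_lit 28) (.e (nat_lit 573489) (nat_lit 14) (.e (nat_lit 73755) (nat_lit 8) (.e (nat_lit 557119) (nat_lit 18) (.e (nat_lit 2795) (nat_lit 180) (.e (nat_lit 311040) (nat_lit 18) (.e (nat_lit 98367) (nat_lit 27) .nil))))))) (.g (nat_lit 1) (.e (nat_lit 330569) (nat_lit 0) .nil) .nil)))) (.nd (nat_lit 9) 
(.lf (nat_lit 565616) (.g (nat_lit 787) (.e (nat_lit 434246) (nat_lit 28) (.e (nat_lit 573489) (nat_lit 14) (.e (nat_lit 73741) (nat_lit 1) .nil))) (.g (nat_lit 0) (.e (nat_lit 330004) (nat_lit 0) .nil) .nil))) 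
(.lf (nat_lit 566128) (.g (nat_lit 1144) (.e (nat_lit 434266) (nat_lit 35) (.e (nat_lit 630821) (nat_lit 16) (.e (nat_lit 65616) (nat_lit 10) (.e (nat_lit 344157) (nat_lit 36) (.e (nat_lit 638999) (nat_lit 8) (.e (nat_lit 172106) (nat_lit 10) .nil)))))) (.g (nat_lit 1) (.e (nat_lit 331474) (nat_lit 0) .nil) .nil))))) (.nd (nat_lit 8) (.nd (nat_lit 9) 
(.lf (nat_lit 565488) (.g (nat_lit 312) (.e (nat_lit 434245) (nat_lit 28) (.e (nat_lit 573488) (nat_lit 14) (.e (nat_lit 73755) (nat_lit 8) .nil))) (.g (nat_lit 0) (.e (nat_lit 329692) (nat_lit 0) .nil) .nil))) 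
(.lf (nat_lit 566000) (.g (nat_lit 1423) (.e (nat_lit 434248) (nat_lit 28) (.e (nat_lit 573487) (nat_lit 14) (.e (nat_lit 73746) (nat_lit 3) (.e (nat_lit 516117) (nat_lit 1) .nil)))) (.g (nat_lit 0) (.e (nat_lit 330955) (nat_lit 0) .nil) .nil)))) (.nd (nat_lit 9) 
(.lf (nat_lit 565744) (.g (nat_lit 691) (.e (nat_lit 434247) (nat_lit 28) (.e (nat_lit 573482) (nat_lit 13) (.e (nat_lit 65568) (nat_lit 2) .nil))) (.g (nat_lit 0) (.e (nat_lit 330250) (nat_lit 0) .nil) .nil))) 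
(.lf (nat_lit 566256) (.g (nat_lit 3893) (.e (nat_lit 434271) (nat_lit 38) (.e (nat_lit 655373) (nat_lit 3) (.e (nat_lit 163975) (nat_lit 30) (.e (nat_lit 573481) (nat_lit 13) (.e (nat_lit 65619) (nat_lit 10) (.e (nat_lit 344117) (nat_lit 21) (.e (nat_lit 516159) (nat_lit 10) .nil))))))) (.g (nat_lit 1) (.e (nat_lit 331849) (nat_lit 0) .nil) .nil))))))))) 
(.nd (nat_lit 4) (.nd (nat_lit 5) (.nd (nat_lit 6) (.nd (nat_lit 7) (.nd (nat_lit 8) 
(.nd (nat_lit 9) 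
(.lf (nat_lit 565256) (.g (nat_lit 2102) (.e (nat_lit 434244) (nat_lit 28) (.e (nat_lit 573458) (nat_lit 9) (.e (nat_lit 426) (nat_lit 32) (.e (nat_lit 426344) (nat_lit 14) (.e (nat_lit 491535) (nat_lit 2) .nil))))) (.g (nat_lit 0) (.e (nat_lit 329039) (nat_lit 0) .nil) .nil))) 
(.lf (nat_lit 565768) (.g (nat_lit 1034) (.e (nat_lit 434247) (nat_lit 28) (.e (nat_lit 573485) (nat_lit 13) (.e (nat_lit 65568) (nat_lit 2) (.e (nat_lit 98048) (nat_lit 0) .nil)))) (.g (nat_lit 0) (.e (nat_lit 330314) (nat_lit 0) .nil) .nil)))) (.nd (nat_lit 9) 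
(.lf (nat_lit 565512) (.g (nat_lit 2248) (.e (nat_lit 434245) (nat_lit 28) (.e (nat_lit 573488) (nat_lit 14) (.e (nat_lit 73755) (nat_lit 8) (.e (nat_lit 557090) (nat_lit 12) (.e (nat_lit 163850) (nat_lit 0) .nil))))) (.g (nat_lit 0) (.e (nat_lit 329724) (nat_lit 0) .nil) .nil))) 
(.lf (nat_lit 566024) (.g (nat_lit 1439) (.e (nat_lit 434248) (nat_lit 28) (.e (nat_lit 573489) (nat_lit 14) (.e (nat_lit 73747) (nat_lit 3) (.e (nat_lit 516119) (nat_lit 1) .nil)))) (.g (nat_lit 0) (.e (nat_lit 331116) (nat_lit 0) .nil) .nil))))) (.nd (nat_lit 8) (.nd (nat_lit 9) 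
(.lf (nat_lit 565384) (.g (nat_lit 1935) (.e (nat_lit 434245) (nat_lit 28) (.e (nat_lit 573471) (nat_lit 11) (.e (nat_lit 16436) (nat_lit 9) (.e (nat_lit 426375) (nat_lit 15) .nil)))) (.g (nat_lit 0) (.e (nat_lit 329417) (nat_lit 0) .nil) .nil))) 
(.lf (nat_lit 565896) (.g (nat_lit 1295) (.e (nat_lit 434248) (nat_lit 28) (.e (nat_lit 573471) (nat_lit 11) (.e (nat_lit 16403) (nat_lit 0) (.e (nat_lit 7936) (nat_lit 402) .nil)))) (.g (nat_lit 0) (.e (nat_lit 330629) (nat_lit 0) .nil) .nil)))) (.nd (nat_lit 9) 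
(.lf (nat_lit 565640) (.g (nat_lit 2643) (.e (nat_lit 434246) (nat_lit 28) (.e (nat_lit 573489) (nat_lit 14) (.e (nat_lit 73755) (nat_lit 8) (.e (nat_lit 557090) (nat_lit 12) (.e (nat_lit 164006) (nat_lit 41) .nil))))) (.g (nat_lit 0) (.e (nat_lit 330081) (nat_lit 0) .nil) .nil))) 
(.lf (nat_lit 566152) (.g (nat_lit 3285) (.e (nat_lit 434268) (nat_lit 36) (.e (nat_lit 639020) (nat_lit 16) (.e (nat_lit 65583) (nat_lit 7) (.e (nat_lit 319530) (nat_lit 16) (.e (nat_lit 286727) (nat_lit 0) (.e (nat_lit 6680) (nat_lit 357) (.e (nat_lit 2962) (nat_lit 185) .nil))))))) (.g (nat_lit 1) (.e (nat_lit 331502) (nat_lit 0) .nil) .nil)))))) 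
(.nd (nat_lit 7) (.nd (nat_lit 8) (.nd (nat_lit 9) 
(.lf (nat_lit 565320) (.g (nat_lit 870) (.e (nat_lit 434244) (nat_lit 28) (.e (nat_lit 573488) (nat_lit 14) (.e (nat_lit 73748) (nat_lit 3) (.e (nat_lit 524032) (nat_lit 32) .nil)))) (.g (nat_lit 0) (.e (nat_lit 329290) (nat_lit 0) .nil) .nil))) 
(.lf (nat_lit 565832) (.g (nat_lit 3151) (.e (nat_lit 434247) (nat_lit 28) (.e (nat_lit 573489) (nat_lit 14) (.e (nat_lit 73755) (nat_lit 8) (.e (nat_lit 557090) (nat_lit 12) (.e (nat_lit 163840) (nat_lit 0) .nil))))) (.g (nat_lit 0) (.e (nat_lit 330485) (nat_lit 0) .nil) .nil)))) (.nd (nat_lit 9) 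
(.lf (nat_lit 565576) (.g (nat_lit 3034) (.e (nat_lit 434246) (nat_lit 28) (.e (nat_lit 573482) (nat_lit 13) (.e (nat_lit 65568) (nat_lit 2) (.e (nat_lit 90160) (nat_lit 11) (.e (nat_lit 24669) (nat_lit 15) .nil))))) (.g (nat_lit 0) (.e (nat_lit 329863) (nat_lit 0) .nil) .nil))) 
(.lf (nat_lit 566088) (.g (nat_lit 1065) (.e (nat_lit 434241) (nat_lit 27) (.e (nat_lit 565267) (nat_lit 4) (.e (nat_lit 65586) (nat_lit 7) (.e (nat_lit 319500) (nat_lit 10) (.e (nat_lit 806) (nat_lit 67) .nil))))) (.g (nat_lit 0) (.e (nat_lit 331411) (nat_lit 0) .nil) .nil))))) (.nd (nat_lit 8) (.nd (nat_lit 9) 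
(.lf (nat_lit 565448) (.g (nat_lit 1234) (.e (nat_lit 434245) (nat_lit 28) (.e (nat_lit 573487) (nat_lit 14) (.e (nat_lit 73747) (nat_lit 3) (.e (nat_lit 516195) (nat_lit 26) .nil)))) (.g (nat_lit 0) (.e (nat_lit 329576) (nat_lit 0) .nil) .nil))) 
(.lf (nat_lit 565960) (.g (nat_lit 4352) (.e (nat_lit 434248) (nat_lit 28) (.e (nat_lit 573473) (nat_lit 12) (.e (nat_lit 57572) (nat_lit 54) (.e (nat_lit 770072) (nat_lit 8) (.e (nat_lit 65569) (nat_lit 3) (.e (nat_lit 98359) (nat_lit 26) (.e (nat_lit 426286) (nat_lit 10) .nil))))))) (.g (nat_lit 1) (.e (nat_lit 330739) (nat_lit 0) .nil) .nil)))) (.nd (nat_lit 9) 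
(.lf (nat_lit 565704) (.g (nat_lit 2375) (.e (nat_lit 434247) (nat_lit 28) (.e (nat_lit 573477) (nat_lit 12) (.e (nat_lit 57574) (nat_lit 55) (.e (nat_lit 778466) (nat_lit 11) (.e (nat_lit 24603) (nat_lit 2) (.e (nat_lit 90166) (nat_lit 13) (.e (nat_lit 172111) (nat_lit 10) .nil))))))) (.g (nat_lit 1) (.e (nat_lit 330181) (nat_lit 0) .nil) .nil))) 
(.lf (nat_lit 566216) (.g (nat_lit 1973) (.e (nat_lit 434275) (nat_lit 39) (.e (nat_lit 663589) (nat_lit 14) (.e (nat_lit 2797) (nat_lit 180) (.e (nat_lit 303146) (nat_lit 14) (.e (nat_lit 491570) (nat_lit 13) .nil))))) (.g (nat_lit 0) (.e (nat_lit 331699) (nat_lit 0) .nil) .nil))))))) (.nd (nat_lit 6) (.nd (nat_lit 7) (.nd (nat_lit 8) (.nd (nat_lit 9) 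
(.lf (nat_lit 565288) (.g (nat_lit 2240) (.e (nat_lit 434244) (nat_lit 28) (.e (nat_lit 573474) (nat_lit 12) (.e (nat_lit 57354) (nat_lit 0) (.e (nat_lit 7272) (nat_lit 385) (.e (nat_lit 122903) (nat_lit 12) .nil))))) (.g (nat_lit 0) (.e (nat_lit 329128) (nat_lit 0) .nil) .nil))) 
(.lf (nat_lit 565800) (.g (nat_lit 2749) (.e (nat_lit 434247) (nat_lit 28) (.e (nat_lit 573489) (nat_lit 14) (.e (nat_lit 73754) (nat_lit 8) (.e (nat_lit 557091) (nat_lit 12) (.e (nat_lit 164006) (nat_lit 41) .nil))))) (.g (nat_lit 0) (.e (nat_lit 330410) (nat_lit 0) .nil) .nil)))) (.nd (nat_lit 9) 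
(.lf (nat_lit 565544) (.g (nat_lit 1726) (.e (nat_lit 434246) (nat_lit 28) (.e (nat_lit 573450) (nat_lit 9) (.e (nat_lit 375) (nat_lit 32) (.e (nat_lit 426173) (nat_lit 7) .nil)))) (.g (nat_lit 0) (.e (nat_lit 329817) (nat_lit 0) .nil) .nil))) 
(.lf (nat_lit 566056) (.g (nat_lit 3789) (.e (nat_lit 434248) (nat_lit 28) (.e (nat_lit 573489) (nat_lit 14) (.e (nat_lit 73755) (nat_lit 8) (.e (nat_lit 557090) (nat_lit 12) (.e (nat_lit 163841) (nat_lit 0) (.e (nat_lit 5940) (nat_lit 322) (.e (nat_lit 57379) (nat_lit 3) (.e (nat_lit 98366) (nat_lit 27) .nil)))))))) (.g (nat_lit 1) (.e (nat_lit 331226) (nat_lit 0) .nil) .nil))))) 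
(.nd (nat_lit 8) (.nd (nat_lit 9) 
(.lf (nat_lit 565416) (.g (nat_lit 1302) (.e (nat_lit 434245) (nat_lit 28) (.e (nat_lit 573481) (nat_lit 13) (.e (nat_lit 65569) (nat_lit 3) (.e (nat_lit 98315) (nat_lit 9) (.e (nat_lit 336277) (nat_lit 15) .nil))))) (.g (nat_lit 0) (.e (nat_lit 329489) (nat_lit 0) .nil) .nil))) 
(.lf (nat_lit 565928) (.g (nat_lit 2331) (.e (nat_lit 434248) (nat_lit 28) (.e (nat_lit 573471) (nat_lit 11) (.e (nat_lit 16445) (nat_lit 9) (.e (nat_lit 426133) (nat_lit 3) (.e (nat_lit 204885) (nat_lit 33) .nil))))) (.g (nat_lit 0) (.e (nat_lit 330693) (nat_lit 0) .nil) .nil)))) (.nd (nat_lit 9) 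
(.lf (nat_lit 565672) (.g (nat_lit 3992) (.e (nat_lit 434247) (nat_lit 28) (.e (nat_lit 573469) (nat_lit 11) (.e (nat_lit 16388) (nat_lit 0) (.e (nat_lit 7583) (nat_lit 405) (.e (nat_lit 57464) (nat_lit 23) (.e (nat_lit 516151) (nat_lit 9) (.e (nat_lit 426286) (nat_lit 10) .nil))))))) (.g (nat_lit 1) (.e (nat_lit 330138) (nat_lit 0) .nil) .nil))) 
(.lf (nat_lit 566184) (.g (nat_lit 963) (.e (nat_lit 434269) (nat_lit 36) (.e (nat_lit 639020) (nat_lit 16) (.e (nat_lit 65583) (nat_lit 7) (.e (nat_lit 319526) (nat_lit 15) .nil)))) (.g (nat_lit 0) (.e (nat_lit 331565) (nat_lit 0) .nil) .nil)))))) (.nd (nat_lit 7) (.nd (nat_lit 8) (.nd (nat_lit 9) 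
(.lf (nat_lit 565352) (.g (nat_lit 4610) (.e (nat_lit 434245) (nat_lit 28) (.e (nat_lit 573469) (nat_lit 11) (.e (nat_lit 16459) (nat_lit 12) (.e (nat_lit 475185) (nat_lit 29) (.e (nat_lit 557100) (nat_lit 13) (.e (nat_lit 172113) (nat_lit 10) .nil)))))) (.g (nat_lit 1) (.e (nat_lit 329374) (nat_lit 0) .nil) .nil))) 
(.lf (nat_lit 565864) (.g (nat_lit 2109) (.e (nat_lit 434247) (nat_lit 28) (.e (nat_lit 573489) (nat_lit 14) (.e (nat_lit 73755) (nat_lit 8) (.e (nat_lit 557091) (nat_lit 12) (.e (nat_lit 164003) (nat_lit 40) (.e (nat_lit 655373) (nat_lit 3) (.e (nat_lit 171776) (nat_lit 23) (.e (nat_lit 516160) (nat_lit 10) .nil)))))))) (.g (nat_lit 1) (.e (nat_lit 330561) (nat_lit 0) .nil) .nil)))) 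
(.nd (nat_lit 9) 
(.lf (nat_lit 565608) (.g (nat_lit 2373) (.e (nat_lit 434246) (nat_lit 28) (.e (nat_lit 573487) (nat_lit 14) (.e (nat_lit 73753) (nat_lit 8) (.e (nat_lit 557089) (nat_lit 12) (.e (nat_lit 164010) (nat_lit 41) .nil))))) (.g (nat_lit 0) (.e (nat_lit 329973) (nat_lit 0) .nil) .nil))) 
(.lf (nat_lit 566120) (.g (nat_lit 898) (.e (nat_lit 434266) (nat_lit 35) (.e (nat_lit 630821) (nat_lit 16) (.e (nat_lit 65585) (nat_lit 7) (.e (nat_lit 319527) (nat_lit 15) (.e (nat_lit 278547) (nat_lit 8) (.e (nat_lit 303140) (nat_lit 10) .nil)))))) (.g (nat_lit 1) (.e (nat_lit 331466) (nat_lit 0) .nil) .nil))))) (.nd (nat_lit 8) (.nd (nat_lit 9) 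
(.lf (nat_lit 565480) (.g (nat_lit 1953) (.e (nat_lit 434245) (nat_lit 28) (.e (nat_lit 573488) (nat_lit 14) (.e (nat_lit 73747) (nat_lit 3) (.e (nat_lit 516119) (nat_lit 1) (.e (nat_lit 164195) (nat_lit 158) .nil))))) (.g (nat_lit 0) (.e (nat_lit 329677) (nat_lit 0) .nil) .nil))) 
(.lf (nat_lit 565992) (.g (nat_lit 2762) (.e (nat_lit 434248) (nat_lit 28) (.e (nat_lit 573482) (nat_lit 13) (.e (nat_lit 65571) (nat_lit 3) (.e (nat_lit 98333) (nat_lit 18) (.e (nat_lit 164196) (nat_lit 158) .nil))))) (.g (nat_lit 0) (.e (nat_lit 330899) (nat_lit 0) .nil) .nil)))) (.nd (nat_lit 9) 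
(.lf (nat_lit 565736) (.g (nat_lit 1589) (.e (nat_lit 434247) (nat_lit 28) (.e (nat_lit 573478) (nat_lit 12) (.e (nat_lit 57574) (nat_lit 55) (.e (nat_lit 778465) (nat_lit 11) (.e (nat_lit 24603) (nat_lit 2) (.e (nat_lit 90166) (nat_lit 13) (.e (nat_lit 172105) (nat_lit 10) .nil))))))) (.g (nat_lit 1) (.e (nat_lit 330229) (nat_lit 0) .nil) .nil))) 
(.lf (nat_lit 566248) (.g (nat_lit 694) (.e (nat_lit 434270) (nat_lit 38) (.e (nat_lit 655378) (nat_lit 4) (.e (nat_lit 172125) (nat_lit 14) .nil))) (.g (nat_lit 0) (.e (nat_lit 331835) (nat_lit 0) .nil) .nil)))))))) (.nd (nat_lit 5) (.nd (nat_lit 6) (.nd (nat_lit 7) (.nd (nat_lit 8) (.nd (nat_lit 9) 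
(.lf (nat_lit 565272) (.g (nat_lit 3189) (.e (nat_lit 434244) (nat_lit 28) (.e (nat_lit 573471) (nat_lit 11) (.e (nat_lit 16433) (nat_lit 9) (.e (nat_lit 426374) (nat_lit 15) .nil)))) (.g (nat_lit 0) (.e (nat_lit 329094) (nat_lit 0) .nil) .nil))) 
(.lf (nat_lit 565784) (.g (nat_lit 943) (.e (nat_lit 434247) (nat_lit 28) (.e (nat_lit 573487) (nat_lit 14) (.e (nat_lit 73757) (nat_lit 11) (.e (nat_lit 581649) (nat_lit 4) .nil)))) (.g (nat_lit 0) (.e (nat_lit 330365) (nat_lit 0) .nil) .nil)))) (.nd (nat_lit 9) 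
(.lf (nat_lit 565528) (.g (nat_lit 2715) (.e (nat_lit 434245) (nat_lit 28) (.e (nat_lit 573488) (nat_lit 14) (.e (nat_lit 73755) (nat_lit 8) (.e (nat_lit 557091) (nat_lit 12) (.e (nat_lit 163844) (nat_lit 0) .nil))))) (.g (nat_lit 0) (.e (nat_lit 329768) (nat_lit 0) .nil) .nil))) 
(.lf (nat_lit 566040) (.g (nat_lit 2981) (.e (nat_lit 434248) (nat_lit 28) (.e (nat_lit 573489) (nat_lit 14) (.e (nat_lit 73755) (nat_lit 8) (.e (nat_lit 557067) (nat_lit 9) (.e (nat_lit 2603) (nat_lit 163) .nil))))) (.g (nat_lit 0) (.e (nat_lit 331178) (nat_lit 0) .nil) .nil))))) (.nd (nat_lit 8) (.nd (nat_lit 9) 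
(.lf (nat_lit 565400) (.g (nat_lit 1743) (.e (nat_lit 434245) (nat_lit 28) (.e (nat_lit 573472) (nat_lit 12) (.e (nat_lit 57572) (nat_lit 54) (.e (nat_lit 770072) (nat_lit 8) (.e (nat_lit 65571) (nat_lit 3) .nil))))) (.g (nat_lit 0) (.e (nat_lit 329439) (nat_lit 0) .nil) .nil))) 
(.lf (nat_lit 565912) (.g (nat_lit 2167) (.e (nat_lit 434248) (nat_lit 28) (.e (nat_lit 573471) (nat_lit 11) (.e (nat_lit 16433) (nat_lit 9) (.e (nat_lit 433920) (nat_lit 3) .nil)))) (.g (nat_lit 0) (.e (nat_lit 330653) (nat_lit 0) .nil) .nil)))) (.nd (nat_lit 9) 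
(.lf (nat_lit 565656) (.g (nat_lit 2071) (.e (nat_lit 434246) (nat_lit 28) (.e (nat_lit 573489) (nat_lit 14) (.e (nat_lit 73755) (nat_lit 8) (.e (nat_lit 557119) (nat_lit 18) (.e (nat_lit 2807) (nat_lit 180) .nil))))) (.g (nat_lit 0) (.e (nat_lit 330111) (nat_lit 0) .nil) .nil))) 
(.lf (nat_lit 566168) (.g (nat_lit 451) (.e (nat_lit 434268) (nat_lit 36) (.e (nat_lit 639020) (nat_lit 16) (.e (nat_lit 65617) (nat_lit 10) .nil))) (.g (nat_lit 0) (.e (nat_lit 331526) (nat_lit 0) .nil) .nil)))))) (.nd (nat_lit 7) (.nd (nat_lit 8) (.nd (nat_lit 9) 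
(.lf (nat_lit 565336) (.g (nat_lit 2827) (.e (nat_lit 434244) (nat_lit 28) (.e (nat_lit 573488) (nat_lit 14) (.e (nat_lit 73755) (nat_lit 8) (.e (nat_lit 557090) (nat_lit 12) (.e (nat_lit 164003) (nat_lit 40) (.e (nat_lit 655375) (nat_lit 3) (.e (nat_lit 171776) (nat_lit 23) (.e (nat_lit 516160) (nat_lit 10) .nil)))))))) (.g (nat_lit 1) (.e (nat_lit 329322) (nat_lit 0) .nil) .nil))) 
(.lf (nat_lit 565848) (.g (nat_lit 3310) (.e (nat_lit 434247) (nat_lit 28) (.e (nat_lit 573489) (nat_lit 14) (.e (nat_lit 73755) (nat_lit 8) (.e (nat_lit 557090) (nat_lit 12) (.e (nat_lit 164010) (nat_lit 41) .nil))))) (.g (nat_lit 0) (.e (nat_lit 330524) (nat_lit 0) .nil) .nil)))) (.nd (nat_lit 9) 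
(.lf (nat_lit 565592) (.g (nat_lit 3339) (.e (nat_lit 434246) (nat_lit 28) (.e (nat_lit 573484) (nat_lit 13) (.e (nat_lit 65569) (nat_lit 3) (.e (nat_lit 98317) (nat_lit 9) (.e (nat_lit 336293) (nat_lit 15) (.e (nat_lit 7936) (nat_lit 195) (.e (nat_lit 516160) (nat_lit 10) .nil))))))) (.g (nat_lit 1) (.e (nat_lit 329907) (nat_lit 0) .nil) .nil))) 
(.lf (nat_lit 566104) (.g (nat_lit 1488) (.e (nat_lit 434241) (nat_lit 27) (.e (nat_lit 565269) (nat_lit 6) (.e (nat_lit 81935) (nat_lit 20) (.e (nat_lit 2384) (nat_lit 155) (.e (nat_lit 811028) (nat_lit 9) .nil))))) (.g (nat_lit 0) (.e (nat_lit 331436) (nat_lit 0) .nil) .nil))))) (.nd (nat_lit 8) (.nd (nat_lit 9) 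
(.lf (nat_lit 565464) (.g (nat_lit 2046) (.e (nat_lit 434245) (nat_lit 28) (.e (nat_lit 573487) (nat_lit 14) (.e (nat_lit 73753) (nat_lit 8) (.e (nat_lit 557090) (nat_lit 12) (.e (nat_lit 164003) (nat_lit 40) .nil))))) (.g (nat_lit 0) (.e (nat_lit 329620) (nat_lit 0) .nil) .nil))) 
(.lf (nat_lit 565976) (.g (nat_lit 2673) (.e (nat_lit 434248) (nat_lit 28) (.e (nat_lit 573482) (nat_lit 13) (.e (nat_lit 65567) (nat_lit 2) (.e (nat_lit 90160) (nat_lit 11) (.e (nat_lit 24673) (nat_lit 15) (.e (nat_lit 7936) (nat_lit 195) (.e (nat_lit 516160) (nat_lit 10) .nil))))))) (.g (nat_lit 1) (.e (nat_lit 330808) (nat_lit 0) .nil) .nil)))) (.nd (nat_lit 9) 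
(.lf (nat_lit 565720) (.g (nat_lit 2457) (.e (nat_lit 434247) (nat_lit 28) (.e (nat_lit 573477) (nat_lit 12) (.e (nat_lit 57575) (nat_lit 55) (.e (nat_lit 778466) (nat_lit 11) (.e (nat_lit 24608) (nat_lit 3) (.e (nat_lit 98365) (nat_lit 26) (.e (nat_lit 426275) (nat_lit 10) .nil))))))) (.g (nat_lit 1) (.e (nat_lit 330197) (nat_lit 0) .nil) .nil))) 
(.lf (nat_lit 566232) (.g (nat_lit 1615) (.e (nat_lit 434279) (nat_lit 39) (.e (nat_lit 663580) (nat_lit 9) (.e (nat_lit 284) (nat_lit 21) (.e (nat_lit 336186) (nat_lit 11) (.e (nat_lit 368691) (nat_lit 36) .nil))))) (.g (nat_lit 0) (.e (nat_lit 331789) (nat_lit 0) .nil) .nil))))))) (.nd (nat_lit 6) (.nd (nat_lit 7) (.nd (nat_lit 8) (.nd (nat_lit 9) 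
(.lf (nat_lit 565304) (.g (nat_lit 1706) (.e (nat_lit 434244) (nat_lit 28) (.e (nat_lit 573482) (nat_lit 13) (.e (nat_lit 65571) (nat_lit 3) (.e (nat_lit 98325) (nat_lit 17) .nil)))) (.g (nat_lit 0) (.e (nat_lit 329210) (nat_lit 0) .nil) .nil))) 
(.lf (nat_lit 565816) (.g (nat_lit 1858) (.e (nat_lit 434247) (nat_lit 28) (.e (nat_lit 573489) (nat_lit 14) (.e (nat_lit 73755) (nat_lit 8) (.e (nat_lit 557074) (nat_lit 9) .nil)))) (.g (nat_lit 0) (.e (nat_lit 330449) (nat_lit 0) .nil) .nil)))) (.nd (nat_lit 9) 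
(.lf (nat_lit 565560) (.g (nat_lit 2609) (.e (nat_lit 434246) (nat_lit 28) (.e (nat_lit 573471) (nat_lit 11) (.e (nat_lit 16449) (nat_lit 10) (.e (nat_lit 434231) (nat_lit 23) (.e (nat_lit 532569) (nat_lit 16) .nil))))) (.g (nat_lit 0) (.e (nat_lit 329837) (nat_lit 0) .nil) .nil))) 
(.lf (nat_lit 566072) (.g (nat_lit 1789) (.e (nat_lit 434248) (nat_lit 28) (.e (nat_lit 573489) (nat_lit 14) (.e (nat_lit 73755) (nat_lit 8) (.e (nat_lit 557091) (nat_lit 12) .nil)))) (.g (nat_lit 0) (.e (nat_lit 331312) (nat_lit 0) .nil) .nil))))) (.nd (nat_lit 8) (.nd (nat_lit 9) 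
(.lf (nat_lit 565432) (.g (nat_lit 1273) (.e (nat_lit 434245) (nat_lit 28) (.e (nat_lit 573487) (nat_lit 14) (.e (nat_lit 73729) (nat_lit 0) (.e (nat_lit 7936) (nat_lit 255) .nil)))) (.g (nat_lit 0) (.e (nat_lit 329546) (nat_lit 0) .nil) .nil))) 
(.lf (nat_lit 565944) (.g (nat_lit 4490) (.e (nat_lit 434248) (nat_lit 28) (.e (nat_lit 573471) (nat_lit 11) (.e (nat_lit 16470) (nat_lit 14) (.e (nat_lit 491535) (nat_lit 2) (.e (nat_lit 90170) (nat_lit 13) .nil))))) (.g (nat_lit 0) (.e (nat_lit 330723) (nat_lit 0) .nil) .nil)))) (.nd (nat_lit 9) 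
(.lf (nat_lit 565688) (.g (nat_lit 1066) (.e (nat_lit 434247) (nat_lit 28) (.e (nat_lit 573471) (nat_lit 11) (.e (nat_lit 16449) (nat_lit 10) .nil))) (.g (nat_lit 0) (.e (nat_lit 330162) (nat_lit 0) .nil) .nil))) 
(.lf (nat_lit 566200) (.g (nat_lit 1245) (.e (nat_lit 434269) (nat_lit 36) (.e (nat_lit 639021) (nat_lit 16) (.e (nat_lit 65620) (nat_lit 10) (.e (nat_lit 344157) (nat_lit 36) (.e (nat_lit 638999) (nat_lit 8) (.e (nat_lit 172107) (nat_lit 10) .nil)))))) (.g (nat_lit 1) (.e (nat_lit 331595) (nat_lit 0) .nil) .nil)))))) (.nd (nat_lit 7) (.nd (nat_lit 8) (.nd (nat_lit 9) 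
(.lf (nat_lit 565368) (.g (nat_lit 1091) (.e (nat_lit 434245) (nat_lit 28) (.e (nat_lit 573471) (nat_lit 11) (.e (nat_lit 16425) (nat_lit 7) (.e (nat_lit 409616) (nat_lit 10) .nil)))) (.g (nat_lit 0) (.e (nat_lit 329395) (nat_lit 0) .nil) .nil))) 
(.lf (nat_lit 565880) (.g (nat_lit 2254) (.e (nat_lit 434248) (nat_lit 28) (.e (nat_lit 573450) (nat_lit 9) (.e (nat_lit 375) (nat_lit 32) (.e (nat_lit 426310) (nat_lit 12) .nil)))) (.g (nat_lit 0) (.e (nat_lit 330596) (nat_lit 0) .nil) .nil)))) (.nd (nat_lit 9) 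
(.lf (nat_lit 565624) (.g (nat_lit 2692) (.e (nat_lit 434246) (nat_lit 28) (.e (nat_lit 573489) (nat_lit 14) (.e (nat_lit 73755) (nat_lit 8) (.e (nat_lit 557067) (nat_lit 9) (.e (nat_lit 2606) (nat_lit 163) .nil))))) (.g (nat_lit 0) (.e (nat_lit 330031) (nat_lit 0) .nil) .nil))) 
(.lf (nat_lit 566136) (.g (nat_lit 1221) (.e (nat_lit 434266) (nat_lit 35) (.e (nat_lit 630821) (nat_lit 16) (.e (nat_lit 65620) (nat_lit 10) (.e (nat_lit 344157) (nat_lit 36) (.e (nat_lit 638999) (nat_lit 8) (.e (nat_lit 172106) (nat_lit 10) .nil)))))) (.g (nat_lit 1) (.e (nat_lit 331482) (nat_lit 0) .nil) .nil))))) (.nd (nat_lit 8) (.nd (nat_lit 9) 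
(.lf (nat_lit 565496) (.g (nat_lit 2381) (.e (nat_lit 434245) (nat_lit 28) (.e (nat_lit 573488) (nat_lit 14) (.e (nat_lit 73755) (nat_lit 8) (.e (nat_lit 557089) (nat_lit 12) (.e (nat_lit 164005) (nat_lit 41) .nil))))) (.g (nat_lit 0) (.e (nat_lit 329703) (nat_lit 0) .nil) .nil))) 
(.lf (nat_lit 566008) (.g (nat_lit 2511) (.e (nat_lit 434248) (nat_lit 28) (.e (nat_lit 573487) (nat_lit 14) (.e (nat_lit 73747) (nat_lit 3) (.e (nat_lit 516119) (nat_lit 1) (.e (nat_lit 164196) (nat_lit 158) .nil))))) (.g (nat_lit 0) (.e (nat_lit 330986) (nat_lit 0) .nil) .nil)))) (.nd (nat_lit 9) 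
(.lf (nat_lit 565752) (.g (nat_lit 3048) (.e (nat_lit 434247) (nat_lit 28) (.e (nat_lit 573484) (nat_lit 13) (.e (nat_lit 65568) (nat_lit 2) (.e (nat_lit 90160) (nat_lit 11) (.e (nat_lit 24671) (nat_lit 15) (.e (nat_lit 7936) (nat_lit 195) (.e (nat_lit 516160) (nat_lit 10) .nil))))))) (.g (nat_lit 1) (.e (nat_lit 330269) (nat_lit 0) .nil) .nil))) 
(.lf (nat_lit 566264) (.g (nat_lit 4042) (.e (nat_lit 434271) (nat_lit 38) (.e (nat_lit 655375) (nat_lit 3) (.e (nat_lit 163978) (nat_lit 30) (.e (nat_lit 573479) (nat_lit 13) (.e (nat_lit 65610) (nat_lit 10) .nil))))) (.g (nat_lit 0) (.e (nat_lit 331858) (nat_lit 0) .nil) .nil)))))))))) 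
(.nd (nat_lit 3) (.nd (nat_lit 4) (.nd (nat_lit 5) (.nd (nat_lit 6) (.nd (nat_lit 7) 
(.nd (nat_lit 8) (.nd (nat_lit 9) 
(.lf (nat_lit 565252) (.g (nat_lit 2710) (.e (nat_lit 434244) (nat_lit 28) (.e (nat_lit 573458) (nat_lit 9) (.e (nat_lit 426) (nat_lit 32) (.e (nat_lit 426188) (nat_lit 9) (.e (nat_lit 426350) (nat_lit 15) (.e (nat_lit 1860) (nat_lit 124) (.e (nat_lit 557101) (nat_lit 13) (.e (nat_lit 172115) (nat_lit 10) .nil)))))))) (.g (nat_lit 1) (.e (nat_lit 329035) (nat_lit 0) .nil) .nil))) 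
(.lf (nat_lit 565764) (.g (nat_lit 2663) (.e (nat_lit 434247) (nat_lit 28) (.e (nat_lit 573485) (nat_lit 13) (.e (nat_lit 65566) (nat_lit 2) (.e (nat_lit 90160) (nat_lit 11) (.e (nat_lit 24671) (nat_lit 15) (.e (nat_lit 7936) (nat_lit 195) (.e (nat_lit 516160) (nat_lit 10) .nil))))))) (.g (nat_lit 1) (.e (nat_lit 330309) (nat_lit 0) .nil) .nil)))) (.nd (nat_lit 9) 
(.lf (nat_lit 565508) (.g (nat_lit 3538) (.e (nat_lit 434245) (nat_lit 28) (.e (nat_lit 573488) (nat_lit 14) (.e (nat_lit 73755) (nat_lit 8) (.e (nat_lit 557090) (nat_lit 12) (.e (nat_lit 163843) (nat_lit 0) (.e (nat_lit 5940) (nat_lit 322) (.e (nat_lit 57379) (nat_lit 3) (.e (nat_lit 98368) (nat_lit 27) .nil)))))))) (.g (nat_lit 1) (.e (nat_lit 329720) (nat_lit 0) .nil) .nil))) 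
(.lf (nat_lit 566020) (.g (nat_lit 2361) (.e (nat_lit 434248) (nat_lit 28) (.e (nat_lit 573487) (nat_lit 14) (.e (nat_lit 73753) (nat_lit 8) (.e (nat_lit 557091) (nat_lit 12) (.e (nat_lit 164007) (nat_lit 41) .nil))))) (.g (nat_lit 0) (.e (nat_lit 331077) (nat_lit 0) .nil) .nil))))) (.nd (nat_lit 8) (.nd (nat_lit 9) 
(.lf (nat_lit 565380) (.g (nat_lit 3126) (.e (nat_lit 434245) (nat_lit 28) (.e (nat_lit 573471) (nat_lit 11) (.e (nat_lit 16433) (nat_lit 9) (.e (nat_lit 426392) (nat_lit 15) .nil)))) (.g (nat_lit 0) (.e (nat_lit 329412) (nat_lit 0) .nil) .nil))) 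
(.lf (nat_lit 565892) (.g (nat_lit 1143) (.e (nat_lit 434248) (nat_lit 28) (.e (nat_lit 573469) (nat_lit 11) (.e (nat_lit 16472) (nat_lit 14) (.e (nat_lit 499456) (nat_lit 2) .nil)))) (.g (nat_lit 0) (.e (nat_lit 330624) (nat_lit 0) .nil) .nil)))) (.nd (nat_lit 9) 
(.lf (nat_lit 565636) (.g (nat_lit 3233) (.e (nat_lit 434246) (nat_lit 28) (.e (nat_lit 573489) (nat_lit 14) (.e (nat_lit 73755) (nat_lit 8) (.e (nat_lit 557090) (nat_lit 12) (.e (nat_lit 163851) (nat_lit 0) (.e (nat_lit 5939) (nat_lit 322) (.e (nat_lit 57379) (nat_lit 3) (.e (nat_lit 98367) (nat_lit 27) .nil)))))))) (.g (nat_lit 1) (.e (nat_lit 330071) (nat_lit 0) .nil) .nil))) 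
(.lf (nat_lit 566148) (.g (nat_lit 1896) (.e (nat_lit 434268) (nat_lit 36) (.e (nat_lit 639020) (nat_lit 16) (.e (nat_lit 65583) (nat_lit 7) (.e (nat_lit 319530) (nat_lit 16) (.e (nat_lit 286728) (nat_lit 0) (.e (nat_lit 6646) (nat_lit 357) (.e (nat_lit 2962) (nat_lit 185) .nil))))))) (.g (nat_lit 1) (.e (nat_lit 331498) (nat_lit 0) .nil) .nil)))))) 
(.nd (nat_lit 7) (.nd (nat_lit 8) (.nd (nat_lit 9) 
(.lf (nat_lit 565316) (.g (nat_lit 3429) (.e (nat_lit 434244) (nat_lit 28) (.e (nat_lit 573487) (nat_lit 14) (.e (nat_lit 73753) (nat_lit 8) (.e (nat_lit 557091) (nat_lit 12) (.e (nat_lit 163850) (nat_lit 0) (.e (nat_lit 5939) (nat_lit 322) (.e (nat_lit 57379) (nat_lit 3) (.e (nat_lit 98366) (nat_lit 27) .nil)))))))) (.g (nat_lit 1) (.e (nat_lit 329257) (nat_lit 0) .nil) .nil))) 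
(.lf (nat_lit 565828) (.g (nat_lit 2340) (.e (nat_lit 434247) (nat_lit 28) (.e (nat_lit 573489) (nat_lit 14) (.e (nat_lit 73755) (nat_lit 8) (.e (nat_lit 557089) (nat_lit 12) (.e (nat_lit 164008) (nat_lit 41) .nil))))) (.g (nat_lit 0) (.e (nat_lit 330480) (nat_lit 0) .nil) .nil)))) (.nd (nat_lit 9) 
(.lf (nat_lit 565572) (.g (nat_lit 2711) (.e (nat_lit 434246) (nat_lit 28) (.e (nat_lit 573482) (nat_lit 13) (.e (nat_lit 65567) (nat_lit 2) (.e (nat_lit 90160) (nat_lit 11) (.e (nat_lit 24671) (nat_lit 15) (.e (nat_lit 7936) (nat_lit 195) (.e (nat_lit 516160) (nat_lit 10) .nil))))))) (.g (nat_lit 1) (.e (nat_lit 329858) (nat_lit 0) .nil) .nil))) 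
(.lf (nat_lit 566084) (.g (nat_lit 2539) (.e (nat_lit 442112) (nat_lit 28) (.e (nat_lit 573471) (nat_lit 11) (.e (nat_lit 16425) (nat_lit 7) (.e (nat_lit 409617) (nat_lit 10) (.e (nat_lit 7936) (nat_lit 43) .nil))))) (.g (nat_lit 0) (.e (nat_lit 331404) (nat_lit 0) .nil) .nil))))) (.nd (nat_lit 8) (.nd (nat_lit 9) 
(.lf (nat_lit 565444) (.g (nat_lit 2985) (.e (nat_lit 434245) (nat_lit 28) (.e (nat_lit 573487) (nat_lit 14) (.e (nat_lit 73747) (nat_lit 3) (.e (nat_lit 516115) (nat_lit 1) (.e (nat_lit 164196) (nat_lit 158) .nil))))) (.g (nat_lit 0) (.e (nat_lit 329572) (nat_lit 0) .nil) .nil))) 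
(.lf (nat_lit 565956) (.g (nat_lit 4042) (.e (nat_lit 434248) (nat_lit 28) (.e (nat_lit 573471) (nat_lit 11) (.e (nat_lit 16473) (nat_lit 14) (.e (nat_lit 491535) (nat_lit 2) (.e (nat_lit 90170) (nat_lit 13) (.e (nat_lit 172113) (nat_lit 10) .nil)))))) (.g (nat_lit 1) (.e (nat_lit 330735) (nat_lit 0) .nil) .nil)))) (.nd (nat_lit 9) 
(.lf (nat_lit 565700) (.g (nat_lit 1322) (.e (nat_lit 434247) (nat_lit 28) (.e (nat_lit 573475) (nat_lit 12) (.e (nat_lit 57574) (nat_lit 55) (.e (nat_lit 778466) (nat_lit 11) .nil)))) (.g (nat_lit 0) (.e (nat_lit 330174) (nat_lit 0) .nil) .nil))) 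
(.lf (nat_lit 566212) (.g (nat_lit 4106) (.e (nat_lit 434275) (nat_lit 39) (.e (nat_lit 663584) (nat_lit 12) (.e (nat_lit 164017) (nat_lit 44) (.e (nat_lit 688138) (nat_lit 5) (.e (nat_lit 2887) (nat_lit 184) (.e (nat_lit 426173) (nat_lit 7) (.e (nat_lit 409648) (nat_lit 18) (.e (nat_lit 303137) (nat_lit 10) .nil)))))))) (.g (nat_lit 1) (.e (nat_lit 331675) (nat_lit 0) .nil) .nil))))))) 
(.nd (nat_lit 6) (.nd (nat_lit 7) (.nd (nat_lit 8) (.nd (nat_lit 9) 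
(.lf (nat_lit 565284) (.g (nat_lit 856) (.e (nat_lit 434244) (nat_lit 28) (.e (nat_lit 573471) (nat_lit 11) (.e (nat_lit 16453) (nat_lit 11) .nil))) (.g (nat_lit 0) (.e (nat_lit 329121) (nat_lit 0) .nil) .nil))) 
(.lf (nat_lit 565796) (.g (nat_lit 328) (.e (nat_lit 434247) (nat_lit 28) (.e (nat_lit 573489) (nat_lit 14) (.e (nat_lit 73754) (nat_lit 8) .nil))) (.g (nat_lit 0) (.e (nat_lit 330399) (nat_lit 0) .nil) .nil)))) (.nd (nat_lit 9) 
(.lf (nat_lit 565540) (.g (nat_lit 2553) (.e (nat_lit 434245) (nat_lit 28) (.e (nat_lit 573489) (nat_lit 14) (.e (nat_lit 73755) (nat_lit 8) (.e (nat_lit 557089) (nat_lit 12) .nil)))) (.g (nat_lit 0) (.e (nat_lit 329804) (nat_lit 0) .nil) .nil))) 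
(.lf (nat_lit 566052) (.g (nat_lit 2693) (.e (nat_lit 434248) (nat_lit 28) (.e (nat_lit 573489) (nat_lit 14) (.e (nat_lit 73755) (nat_lit 8) (.e (nat_lit 557089) (nat_lit 12) (.e (nat_lit 164006) (nat_lit 41) .nil))))) (.g (nat_lit 0) (.e (nat_lit 331218) (nat_lit 0) .nil) .nil))))) (.nd (nat_lit 8) (.nd (nat_lit 9) 
(.lf (nat_lit 565412) (.g (nat_lit 1145) (.e (nat_lit 434245) (nat_lit 28) (.e (nat_lit 573481) (nat_lit 13) (.e (nat_lit 65568) (nat_lit 2) (.e (nat_lit 90165) (nat_lit 12) .nil)))) (.g (nat_lit 0) (.e (nat_lit 329479) (nat_lit 0) .nil) .nil))) 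
(.lf (nat_lit 565924) (.g (nat_lit 2998) (.e (nat_lit 434248) (nat_lit 28) (.e (nat_lit 573471) (nat_lit 11) (.e (nat_lit 16436) (nat_lit 9) (.e (nat_lit 426354) (nat_lit 15) (.e (nat_lit 1860) (nat_lit 124) .nil))))) (.g (nat_lit 0) (.e (nat_lit 330687) (nat_lit 0) .nil) .nil)))) (.nd (nat_lit 9) 
(.lf (nat_lit 565668) (.g (nat_lit 3090) (.e (nat_lit 434247) (nat_lit 28) (.e (nat_lit 573457) (nat_lit 9) (.e (nat_lit 430) (nat_lit 32) (.e (nat_lit 426343) (nat_lit 14) (.e (nat_lit 491538) (nat_lit 3) (.e (nat_lit 98359) (nat_lit 26) (.e (nat_lit 426286) (nat_lit 10) .nil))))))) (.g (nat_lit 1) (.e (nat_lit 330133) (nat_lit 0) .nil) .nil))) 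
(.lf (nat_lit 566180) (.g (nat_lit 1612) (.e (nat_lit 434268) (nat_lit 36) (.e (nat_lit 639020) (nat_lit 16) (.e (nat_lit 65624) (nat_lit 12) (.e (nat_lit 385045) (nat_lit 21) .nil)))) (.g (nat_lit 0) (.e (nat_lit 331546) (nat_lit 0) .nil) .nil)))))) (.nd (nat_lit 7) (.nd (nat_lit 8) (.nd (nat_lit 9) 
(.lf (nat_lit 565348) (.g (nat_lit 1729) (.e (nat_lit 434245) (nat_lit 28) (.e (nat_lit 573450) (nat_lit 9) (.e (nat_lit 375) (nat_lit 32) (.e (nat_lit 426025) (nat_lit 0) .nil)))) (.g (nat_lit 0) (.e (nat_lit 329357) (nat_lit 0) .nil) .nil))) 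
(.lf (nat_lit 565860) (.g (nat_lit 1966) (.e (nat_lit 434247) (nat_lit 28) (.e (nat_lit 573489) (nat_lit 14) (.e (nat_lit 73755) (nat_lit 8) (.e (nat_lit 557091) (nat_lit 12) (.e (nat_lit 164008) (nat_lit 41) .nil))))) (.g (nat_lit 0) (.e (nat_lit 330556) (nat_lit 0) .nil) .nil)))) (.nd (nat_lit 9) 
(.lf (nat_lit 565604) (.g (nat_lit 1846) (.e (nat_lit 434246) (nat_lit 28) (.e (nat_lit 573487) (nat_lit 14) (.e (nat_lit 73747) (nat_lit 3) (.e (nat_lit 516195) (nat_lit 26) (.e (nat_lit 336273) (nat_lit 15) .nil))))) (.g (nat_lit 0) (.e (nat_lit 329959) (nat_lit 0) .nil) .nil))) 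
(.lf (nat_lit 566116) (.g (nat_lit 1107) (.e (nat_lit 434266) (nat_lit 35) (.e (nat_lit 630821) (nat_lit 16) (.e (nat_lit 65583) (nat_lit 7) (.e (nat_lit 319527) (nat_lit 15) (.e (nat_lit 278547) (nat_lit 8) (.e (nat_lit 303140) (nat_lit 10) .nil)))))) (.g (nat_lit 1) (.e (nat_lit 331462) (nat_lit 0) .nil) .nil))))) (.nd (nat_lit 8) (.nd (nat_lit 9) 
(.lf (nat_lit 565476) (.g (nat_lit 1368) (.e (nat_lit 434245) (nat_lit 28) (.e (nat_lit 573487) (nat_lit 14) (.e (nat_lit 73753) (nat_lit 8) (.e (nat_lit 557094) (nat_lit 12) .nil)))) (.g (nat_lit 0) (.e (nat_lit 329641) (nat_lit 0) .nil) .nil))) 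
(.lf (nat_lit 565988) (.g (nat_lit 2533) (.e (nat_lit 434248) (nat_lit 28) (.e (nat_lit 573482) (nat_lit 13) (.e (nat_lit 65570) (nat_lit 3) (.e (nat_lit 98333) (nat_lit 18) (.e (nat_lit 164196) (nat_lit 158) .nil))))) (.g (nat_lit 0) (.e (nat_lit 330853) (nat_lit 0) .nil) .nil)))) (.nd (nat_lit 9) 
(.lf (nat_lit 565732) (.g (nat_lit 3559) (.e (nat_lit 434247) (nat_lit 28) (.e (nat_lit 573478) (nat_lit 12) (.e (nat_lit 57351) (nat_lit 0) (.e (nat_lit 7261) (nat_lit 384) (.e (nat_lit 57412) (nat_lit 12) (.e (nat_lit 336001) (nat_lit 2) (.e (nat_lit 90170) (nat_lit 13) (.e (nat_lit 172113) (nat_lit 10) .nil)))))))) (.g (nat_lit 1) (.e (nat_lit 330225) (nat_lit 0) .nil) .nil))) 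
(.lf (nat_lit 566244) (.g (nat_lit 2453) (.e (nat_lit 434270) (nat_lit 38) (.e (nat_lit 655375) (nat_lit 3) (.e (nat_lit 163978) (nat_lit 30) (.e (nat_lit 573491) (nat_lit 15) (.e (nat_lit 81954) (nat_lit 23) .nil))))) (.g (nat_lit 0) (.e (nat_lit 331829) (nat_lit 0) .nil) .nil)))))))) (.nd (nat_lit 5) (.nd (nat_lit 6) (.nd (nat_lit 7) (.nd (nat_lit 8) (.nd (nat_lit 9) 
(.lf (nat_lit 565268) (.g (nat_lit 3326) (.e (nat_lit 434244) (nat_lit 28) (.e (nat_lit 573471) (nat_lit 11) (.e (nat_lit 16433) (nat_lit 9) (.e (nat_lit 426352) (nat_lit 15) .nil)))) (.g (nat_lit 0) (.e (nat_lit 329090) (nat_lit 0) .nil) .nil))) 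
(.lf (nat_lit 565780) (.g (nat_lit 1621) (.e (nat_lit 434247) (nat_lit 28) (.e (nat_lit 573487) (nat_lit 14) (.e (nat_lit 73746) (nat_lit 3) (.e (nat_lit 516117) (nat_lit 1) .nil)))) (.g (nat_lit 0) (.e (nat_lit 330353) (nat_lit 0) .nil) .nil)))) (.nd (nat_lit 9) 
(.lf (nat_lit 565524) (.g (nat_lit 2576) (.e (nat_lit 434245) (nat_lit 28) (.e (nat_lit 573488) (nat_lit 14) (.e (nat_lit 73755) (nat_lit 8) (.e (nat_lit 557090) (nat_lit 12) (.e (nat_lit 164012) (nat_lit 42) .nil))))) (.g (nat_lit 0) (.e (nat_lit 329760) (nat_lit 0) .nil) .nil))) 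
(.lf (nat_lit 566036) (.g (nat_lit 2628) (.e (nat_lit 434248) (nat_lit 28) (.e (nat_lit 573489) (nat_lit 14) (.e (nat_lit 73755) (nat_lit 8) (.e (nat_lit 557056) (nat_lit 0) .nil)))) (.g (nat_lit 0) (.e (nat_lit 331150) (nat_lit 0) .nil) .nil))))) (.nd (nat_lit 8) (.nd (nat_lit 9) 
(.lf (nat_lit 565396) (.g (nat_lit 1508) (.e (nat_lit 434245) (nat_lit 28) (.e (nat_lit 573471) (nat_lit 11) (.e (nat_lit 16472) (nat_lit 14) (.e (nat_lit 499456) (nat_lit 2) .nil)))) (.g (nat_lit 0) (.e (nat_lit 329434) (nat_lit 0) .nil) .nil))) 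
(.lf (nat_lit 565908) (.g (nat_lit 2145) (.e (nat_lit 434248) (nat_lit 28) (.e (nat_lit 573471) (nat_lit 11) (.e (nat_lit 16431) (nat_lit 9) (.e (nat_lit 426412) (nat_lit 15) .nil)))) (.g (nat_lit 0) (.e (nat_lit 330647) (nat_lit 0) .nil) .nil)))) (.nd (nat_lit 9) 
(.lf (nat_lit 565652) (.g (nat_lit 2319) (.e (nat_lit 434246) (nat_lit 28) (.e (nat_lit 573489) (nat_lit 14) (.e (nat_lit 73755) (nat_lit 8) (.e (nat_lit 557111) (nat_lit 16) .nil)))) (.g (nat_lit 0) (.e (nat_lit 330107) (nat_lit 0) .nil) .nil))) 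
(.lf (nat_lit 566164) (.g (nat_lit 825) (.e (nat_lit 434268) (nat_lit 36) (.e (nat_lit 639020) (nat_lit 16) (.e (nat_lit 65610) (nat_lit 10) (.e (nat_lit 344157) (nat_lit 36) .nil)))) (.g (nat_lit 0) (.e (nat_lit 331517) (nat_lit 0) .nil) .nil)))))) (.nd (nat_lit 7) (.nd (nat_lit 8) (.nd (nat_lit 9) 
(.lf (nat_lit 565332) (.g (nat_lit 2560) (.e (nat_lit 434244) (nat_lit 28) (.e (nat_lit 573488) (nat_lit 14) (.e (nat_lit 73755) (nat_lit 8) (.e (nat_lit 557090) (nat_lit 12) (.e (nat_lit 164005) (nat_lit 41) .nil))))) (.g (nat_lit 0) (.e (nat_lit 329310) (nat_lit 0) .nil) .nil))) 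
(.lf (nat_lit 565844) (.g (nat_lit 3131) (.e (nat_lit 434247) (nat_lit 28) (.e (nat_lit 573489) (nat_lit 14) (.e (nat_lit 73755) (nat_lit 8) (.e (nat_lit 557090) (nat_lit 12) (.e (nat_lit 164005) (nat_lit 41) .nil))))) (.g (nat_lit 0) (.e (nat_lit 330514) (nat_lit 0) .nil) .nil)))) (.nd (nat_lit 9) 
(.lf (nat_lit 565588) (.g (nat_lit 1751) (.e (nat_lit 434246) (nat_lit 28) (.e (nat_lit 573482) (nat_lit 13) (.e (nat_lit 65571) (nat_lit 3) (.e (nat_lit 98325) (nat_lit 17) .nil)))) (.g (nat_lit 0) (.e (nat_lit 329891) (nat_lit 0) .nil) .nil))) 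
(.lf (nat_lit 566100) (.g (nat_lit 1770) (.e (nat_lit 434241) (nat_lit 27) (.e (nat_lit 565267) (nat_lit 4) (.e (nat_lit 65620) (nat_lit 10) (.e (nat_lit 344183) (nat_lit 49) (.e (nat_lit 819219) (nat_lit 4) (.e (nat_lit 172115) (nat_lit 10) .nil)))))) (.g (nat_lit 1) (.e (nat_lit 331431) (nat_lit 0) .nil) .nil))))) (.nd (nat_lit 8) (.nd (nat_lit 9) 
(.lf (nat_lit 565460) (.g (nat_lit 2403) (.e (nat_lit 434245) (nat_lit 28) (.e (nat_lit 573487) (nat_lit 14) (.e (nat_lit 73753) (nat_lit 8) (.e (nat_lit 557090) (nat_lit 12) (.e (nat_lit 164005) (nat_lit 41) .nil))))) (.g (nat_lit 0) (.e (nat_lit 329608) (nat_lit 0) .nil) .nil))) 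
(.lf (nat_lit 565972) (.g (nat_lit 3117) (.e (nat_lit 434248) (nat_lit 28) (.e (nat_lit 573480) (nat_lit 13) (.e (nat_lit 65568) (nat_lit 2) (.e (nat_lit 90160) (nat_lit 11) (.e (nat_lit 24671) (nat_lit 15) (.e (nat_lit 7936) (nat_lit 195) (.e (nat_lit 516160) (nat_lit 10) .nil))))))) (.g (nat_lit 1) (.e (nat_lit 330773) (nat_lit 0) .nil) .nil)))) (.nd (nat_lit 9) 
(.lf (nat_lit 565716) (.g (nat_lit 4076) (.e (nat_lit 434247) (nat_lit 28) (.e (nat_lit 573477) (nat_lit 12) (.e (nat_lit 57575) (nat_lit 55) (.e (nat_lit 778465) (nat_lit 11) (.e (nat_lit 24608) (nat_lit 3) (.e (nat_lit 98359) (nat_lit 26) (.e (nat_lit 426286) (nat_lit 10) .nil))))))) (.g (nat_lit 1) (.e (nat_lit 330193) (nat_lit 0) .nil) .nil))) 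
(.lf (nat_lit 566228) (.g (nat_lit 1397) (.e (nat_lit 434278) (nat_lit 39) (.e (nat_lit 663583) (nat_lit 11) (.e (nat_lit 24640) (nat_lit 10) (.e (nat_lit 344156) (nat_lit 36) .nil)))) (.g (nat_lit 0) (.e (nat_lit 331772) (nat_lit 0) .nil) .nil))))))) (.nd (nat_lit 6) (.nd (nat_lit 7) (.nd (nat_lit 8) (.nd (nat_lit 9) 
(.lf (nat_lit 565300) (.g (nat_lit 3033) (.e (nat_lit 434244) (nat_lit 28) (.e (nat_lit 573481) (nat_lit 13) (.e (nat_lit 65571) (nat_lit 3) (.e (nat_lit 98317) (nat_lit 9) (.e (nat_lit 336288) (nat_lit 15) .nil))))) (.g (nat_lit 0) (.e (nat_lit 329199) (nat_lit 0) .nil) .nil))) 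
(.lf (nat_lit 565812) (.g (nat_lit 2876) (.e (nat_lit 434247) (nat_lit 28) (.e (nat_lit 573489) (nat_lit 14) (.e (nat_lit 73755) (nat_lit 8) (.e (nat_lit 557067) (nat_lit 9) (.e (nat_lit 2604) (nat_lit 163) .nil))))) (.g (nat_lit 0) (.e (nat_lit 330434) (nat_lit 0) .nil) .nil)))) (.nd (nat_lit 9) 
(.lf (nat_lit 565556) (.g (nat_lit 1860) (.e (nat_lit 434246) (nat_lit 28) (.e (nat_lit 573471) (nat_lit 11) (.e (nat_lit 16440) (nat_lit 9) (.e (nat_lit 426140) (nat_lit 3) .nil)))) (.g (nat_lit 0) (.e (nat_lit 329830) (nat_lit 0) .nil) .nil))) 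
(.lf (nat_lit 566068) (.g (nat_lit 3406) (.e (nat_lit 434248) (nat_lit 28) (.e (nat_lit 573489) (nat_lit 14) (.e (nat_lit 73755) (nat_lit 8) (.e (nat_lit 557090) (nat_lit 12) (.e (nat_lit 163856) (nat_lit 0) (.e (nat_lit 5949) (nat_lit 322) (.e (nat_lit 57378) (nat_lit 3) (.e (nat_lit 98368) (nat_lit 27) .nil)))))))) (.g (nat_lit 1) (.e (nat_lit 331267) (nat_lit 0) .nil) .nil))))) 
(.nd (nat_lit 8) (.nd (nat_lit 9) 
(.lf (nat_lit 565428) (.g (nat_lit 1634) (.e (nat_lit 434245) (nat_lit 28) (.e (nat_lit 573481) (nat_lit 13) (.e (nat_lit 65571) (nat_lit 3) (.e (nat_lit 98325) (nat_lit 17) .nil)))) (.g (nat_lit 0) (.e (nat_lit 329523) (nat_lit 0) .nil) .nil))) 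
(.lf (nat_lit 565940) (.g (nat_lit 2125) (.e (nat_lit 434248) (nat_lit 28) (.e (nat_lit 573471) (nat_lit 11) (.e (nat_lit 16469) (nat_lit 14) (.e (nat_lit 491536) (nat_lit 2) .nil)))) (.g (nat_lit 0) (.e (nat_lit 330719) (nat_lit 0) .nil) .nil)))) (.nd (nat_lit 9) 
(.lf (nat_lit 565684) (.g (nat_lit 3439) (.e (nat_lit 434247) (nat_lit 28) (.e (nat_lit 573471) (nat_lit 11) (.e (nat_lit 16425) (nat_lit 7) (.e (nat_lit 409617) (nat_lit 10) .nil)))) (.g (nat_lit 0) (.e (nat_lit 330151) (nat_lit 0) .nil) .nil))) 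
(.lf (nat_lit 566196) (.g (nat_lit 1805) (.e (nat_lit 434269) (nat_lit 36) (.e (nat_lit 639021) (nat_lit 16) (.e (nat_lit 65619) (nat_lit 10) (.e (nat_lit 344157) (nat_lit 36) (.e (nat_lit 638999) (nat_lit 8) (.e (nat_lit 172106) (nat_lit 10) .nil)))))) (.g (nat_lit 1) (.e (nat_lit 331590) (nat_lit 0) .nil) .nil)))))) (.nd (nat_lit 7) (.nd (nat_lit 8) (.nd (nat_lit 9) 
(.lf (nat_lit 565364) (.g (nat_lit 609) (.e (nat_lit 434245) (nat_lit 28) (.e (nat_lit 573471) (nat_lit 11) (.e (nat_lit 16392) (nat_lit 0) .nil))) (.g (nat_lit 0) (.e (nat_lit 329387) (nat_lit 0) .nil) .nil))) 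
(.lf (nat_lit 565876) (.g (nat_lit 1663) (.e (nat_lit 434247) (nat_lit 28) (.e (nat_lit 573489) (nat_lit 14) (.e (nat_lit 73755) (nat_lit 8) (.e (nat_lit 564992) (nat_lit 21) .nil)))) (.g (nat_lit 0) (.e (nat_lit 330574) (nat_lit 0) .nil) .nil)))) (.nd (nat_lit 9) 
(.lf (nat_lit 565620) (.g (nat_lit 1842) (.e (nat_lit 434246) (nat_lit 28) (.e (nat_lit 573489) (nat_lit 14) (.e (nat_lit 73754) (nat_lit 8) (.e (nat_lit 557062) (nat_lit 0) .nil)))) (.g (nat_lit 0) (.e (nat_lit 330009) (nat_lit 0) .nil) .nil))) 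
(.lf (nat_lit 566132) (.g (nat_lit 1501) (.e (nat_lit 434266) (nat_lit 35) (.e (nat_lit 630821) (nat_lit 16) (.e (nat_lit 65617) (nat_lit 10) (.e (nat_lit 344157) (nat_lit 36) (.e (nat_lit 638999) (nat_lit 8) (.e (nat_lit 172106) (nat_lit 10) .nil)))))) (.g (nat_lit 1) (.e (nat_lit 331478) (nat_lit 0) .nil) .nil))))) (.nd (nat_lit 8) (.nd (nat_lit 9) 
(.lf (nat_lit 565492) (.g (nat_lit 2162) (.e (nat_lit 434245) (nat_lit 28) (.e (nat_lit 573488) (nat_lit 14) (.e (nat_lit 73755) (nat_lit 8) (.e (nat_lit 557067) (nat_lit 9) (.e (nat_lit 2606) (nat_lit 163) .nil))))) (.g (nat_lit 0) (.e (nat_lit 329698) (nat_lit 0) .nil) .nil))) 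
(.lf (nat_lit 566004) (.g (nat_lit 1451) (.e (nat_lit 434248) (nat_lit 28) (.e (nat_lit 573487) (nat_lit 14) (.e (nat_lit 73747) (nat_lit 3) (.e (nat_lit 516107) (nat_lit 0) .nil)))) (.g (nat_lit 0) (.e (nat_lit 330973) (nat_lit 0) .nil) .nil)))) (.nd (nat_lit 9) 
(.lf (nat_lit 565748) (.g (nat_lit 3058) (.e (nat_lit 434247) (nat_lit 28) (.e (nat_lit 573484) (nat_lit 13) (.e (nat_lit 65566) (nat_lit 2) (.e (nat_lit 90158) (nat_lit 11) (.e (nat_lit 24671) (nat_lit 15) (.e (nat_lit 7936) (nat_lit 195) (.e (nat_lit 516160) (nat_lit 10) .nil))))))) (.g (nat_lit 1) (.e (nat_lit 330262) (nat_lit 0) .nil) .nil))) 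
(.lf (nat_lit 566260) (.g (nat_lit 4091) (.e (nat_lit 434271) (nat_lit 38) (.e (nat_lit 655375) (nat_lit 3) (.e (nat_lit 163977) (nat_lit 30) (.e (nat_lit 573482) (nat_lit 13) (.e (nat_lit 65604) (nat_lit 9) (.e (nat_lit 336028) (nat_lit 3) (.e (nat_lit 98366) (nat_lit 27) .nil))))))) (.g (nat_lit 1) (.e (nat_lit 331854) (nat_lit 0) .nil) .nil))))))))) 
(.nd (nat_lit 4) (.nd (nat_lit 5) (.nd (nat_lit 6) (.nd (nat_lit 7) (.nd (nat_lit 8) 
(.nd (nat_lit 9) 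
(.lf (nat_lit 565260) (.g (nat_lit 1742) (.e (nat_lit 434244) (nat_lit 28) (.e (nat_lit 573469) (nat_lit 11) (.e (nat_lit 16471) (nat_lit 14) (.e (nat_lit 491536) (nat_lit 2) (.e (nat_lit 90170) (nat_lit 13) .nil))))) (.g (nat_lit 0) (.e (nat_lit 329043) (nat_lit 0) .nil) .nil))) 
(.lf (nat_lit 565772) (.g (nat_lit 1138) (.e (nat_lit 434247) (nat_lit 28) (.e (nat_lit 573485) (nat_lit 13) (.e (nat_lit 65568) (nat_lit 2) (.e (nat_lit 90189) (nat_lit 18) .nil)))) (.g (nat_lit 0) (.e (nat_lit 330321) (nat_lit 0) .nil) .nil)))) (.nd (nat_lit 9) 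
(.lf (nat_lit 565516) (.g (nat_lit 2610) (.e (nat_lit 434245) (nat_lit 28) (.e (nat_lit 573488) (nat_lit 14) (.e (nat_lit 73755) (nat_lit 8) (.e (nat_lit 557090) (nat_lit 12) (.e (nat_lit 163854) (nat_lit 0) .nil))))) (.g (nat_lit 0) (.e (nat_lit 329732) (nat_lit 0) .nil) .nil))) 
(.lf (nat_lit 566028) (.g (nat_lit 1298) (.e (nat_lit 434248) (nat_lit 28) (.e (nat_lit 573489) (nat_lit 14) (.e (nat_lit 73753) (nat_lit 8) (.e (nat_lit 557091) (nat_lit 12) .nil)))) (.g (nat_lit 0) (.e (nat_lit 331133) (nat_lit 0) .nil) .nil))))) (.nd (nat_lit 8) (.nd (nat_lit 9) 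
(.lf (nat_lit 565388) (.g (nat_lit 2129) (.e (nat_lit 434245) (nat_lit 28) (.e (nat_lit 573471) (nat_lit 11) (.e (nat_lit 16448) (nat_lit 10) (.e (nat_lit 434232) (nat_lit 23) .nil)))) (.g (nat_lit 0) (.e (nat_lit 329421) (nat_lit 0) .nil) .nil))) 
(.lf (nat_lit 565900) (.g (nat_lit 1986) (.e (nat_lit 434248) (nat_lit 28) (.e (nat_lit 573471) (nat_lit 11) (.e (nat_lit 16425) (nat_lit 7) (.e (nat_lit 409616) (nat_lit 10) .nil)))) (.g (nat_lit 0) (.e (nat_lit 330634) (nat_lit 0) .nil) .nil)))) (.nd (nat_lit 9) 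
(.lf (nat_lit 565644) (.g (nat_lit 3012) (.e (nat_lit 434246) (nat_lit 28) (.e (nat_lit 573489) (nat_lit 14) (.e (nat_lit 73755) (nat_lit 8) (.e (nat_lit 557090) (nat_lit 12) (.e (nat_lit 164012) (nat_lit 42) .nil))))) (.g (nat_lit 0) (.e (nat_lit 330087) (nat_lit 0) .nil) .nil))) 
(.lf (nat_lit 566156) (.g (nat_lit 2411) (.e (nat_lit 434268) (nat_lit 36) (.e (nat_lit 639020) (nat_lit 16) (.e (nat_lit 65586) (nat_lit 7) (.e (nat_lit 319531) (nat_lit 16) (.e (nat_lit 286728) (nat_lit 0) (.e (nat_lit 6646) (nat_lit 357) (.e (nat_lit 2962) (nat_lit 185) .nil))))))) (.g (nat_lit 1) (.e (nat_lit 331507) (nat_lit 0) .nil) .nil)))))) 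
(.nd (nat_lit 7) (.nd (nat_lit 8) (.nd (nat_lit 9) 
(.lf (nat_lit 565324) (.g (nat_lit 3307) (.e (nat_lit 434244) (nat_lit 28) (.e (nat_lit 573488) (nat_lit 14) (.e (nat_lit 73755) (nat_lit 8) (.e (nat_lit 557090) (nat_lit 12) (.e (nat_lit 163840) (nat_lit 0) (.e (nat_lit 5939) (nat_lit 322) (.e (nat_lit 57379) (nat_lit 3) (.e (nat_lit 98367) (nat_lit 27) .nil)))))))) (.g (nat_lit 1) (.e (nat_lit 329296) (nat_lit 0) .nil) .nil))) 
(.lf (nat_lit 565836) (.g (nat_lit 3396) (.e (nat_lit 434247) (nat_lit 28) (.e (nat_lit 573489) (nat_lit 14) (.e (nat_lit 73755) (nat_lit 8) (.e (nat_lit 557090) (nat_lit 12) (.e (nat_lit 163845) (nat_lit 0) .nil))))) (.g (nat_lit 0) (.e (nat_lit 330489) (nat_lit 0) .nil) .nil)))) (.nd (nat_lit 9) 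
(.lf (nat_lit 565580) (.g (nat_lit 2002) (.e (nat_lit 434246) (nat_lit 28) (.e (nat_lit 573482) (nat_lit 13) (.e (nat_lit 65569) (nat_lit 3) (.e (nat_lit 98313) (nat_lit 9) (.e (nat_lit 336288) (nat_lit 15) .nil))))) (.g (nat_lit 0) (.e (nat_lit 329870) (nat_lit 0) .nil) .nil))) 
(.lf (nat_lit 566092) (.g (nat_lit 1468) (.e (nat_lit 434241) (nat_lit 27) (.e (nat_lit 565267) (nat_lit 4) (.e (nat_lit 65616) (nat_lit 10) (.e (nat_lit 344183) (nat_lit 49) (.e (nat_lit 819219) (nat_lit 4) (.e (nat_lit 172107) (nat_lit 10) .nil)))))) (.g (nat_lit 1) (.e (nat_lit 331420) (nat_lit 0) .nil) .nil))))) (.nd (nat_lit 8) (.nd (nat_lit 9) 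
(.lf (nat_lit 565452) (.g (nat_lit 2219) (.e (nat_lit 434245) (nat_lit 28) (.e (nat_lit 573487) (nat_lit 14) (.e (nat_lit 73753) (nat_lit 8) (.e (nat_lit 557089) (nat_lit 12) (.e (nat_lit 163844) (nat_lit 0) .nil))))) (.g (nat_lit 0) (.e (nat_lit 329592) (nat_lit 0) .nil) .nil))) 
(.lf (nat_lit 565964) (.g (nat_lit 1427) (.e (nat_lit 434248) (nat_lit 28) (.e (nat_lit 573475) (nat_lit 12) (.e (nat_lit 57504) (nat_lit 38) (.e (nat_lit 638986) (nat_lit 5) .nil)))) (.g (nat_lit 0) (.e (nat_lit 330747) (nat_lit 0) .nil) .nil)))) (.nd (nat_lit 9) 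
(.lf (nat_lit 565708) (.g (nat_lit 4769) (.e (nat_lit 434247) (nat_lit 28) (.e (nat_lit 573477) (nat_lit 12) (.e (nat_lit 57574) (nat_lit 55) (.e (nat_lit 778466) (nat_lit 11) (.e (nat_lit 24604) (nat_lit 2) (.e (nat_lit 90170) (nat_lit 13) (.e (nat_lit 172110) (nat_lit 10) .nil))))))) (.g (nat_lit 1) (.e (nat_lit 330185) (nat_lit 0) .nil) .nil))) 
(.lf (nat_lit 566220) (.g (nat_lit 451) (.e (nat_lit 434276) (nat_lit 39) (.e (nat_lit 663567) (nat_lit 4) (.e (nat_lit 65651) (nat_lit 27) .nil))) (.g (nat_lit 0) (.e (nat_lit 331727) (nat_lit 0) .nil) .nil))))))) (.nd (nat_lit 6) (.nd (nat_lit 7) (.nd (nat_lit 8) (.nd (nat_lit 9) 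
(.lf (nat_lit 565292) (.g (nat_lit 2623) (.e (nat_lit 434244) (nat_lit 28) (.e (nat_lit 573481) (nat_lit 13) (.e (nat_lit 65566) (nat_lit 2) (.e (nat_lit 90160) (nat_lit 11) (.e (nat_lit 24671) (nat_lit 15) (.e (nat_lit 7936) (nat_lit 195) (.e (nat_lit 516160) (nat_lit 10) .nil))))))) (.g (nat_lit 1) (.e (nat_lit 329154) (nat_lit 0) .nil) .nil))) 
(.lf (nat_lit 565804) (.g (nat_lit 2439) (.e (nat_lit 434247) (nat_lit 28) (.e (nat_lit 573489) (nat_lit 14) (.e (nat_lit 73755) (nat_lit 8) (.e (nat_lit 557066) (nat_lit 9) .nil)))) (.g (nat_lit 0) (.e (nat_lit 330425) (nat_lit 0) .nil) .nil)))) (.nd (nat_lit 9) 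
(.lf (nat_lit 565548) (.g (nat_lit 1585) (.e (nat_lit 434246) (nat_lit 28) (.e (nat_lit 573471) (nat_lit 11) (.e (nat_lit 16388) (nat_lit 0) (.e (nat_lit 7581) (nat_lit 405) .nil)))) (.g (nat_lit 0) (.e (nat_lit 329821) (nat_lit 0) .nil) .nil))) 
(.lf (nat_lit 566060) (.g (nat_lit 4170) (.e (nat_lit 434248) (nat_lit 28) (.e (nat_lit 573489) (nat_lit 14) (.e (nat_lit 73755) (nat_lit 8) (.e (nat_lit 557090) (nat_lit 12) (.e (nat_lit 163843) (nat_lit 0) (.e (nat_lit 5943) (nat_lit 322) (.e (nat_lit 57379) (nat_lit 3) (.e (nat_lit 98368) (nat_lit 27) .nil)))))))) (.g (nat_lit 1) (.e (nat_lit 331230) (nat_lit 0) .nil) .nil))))) 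
(.nd (nat_lit 8) (.nd (nat_lit 9) 
(.lf (nat_lit 565420) (.g (nat_lit 1457) (.e (nat_lit 434245) (nat_lit 28) (.e (nat_lit 573481) (nat_lit 13) (.e (nat_lit 65569) (nat_lit 3) (.e (nat_lit 98325) (nat_lit 17) (.e (nat_lit 3579) (nat_lit 223) .nil))))) (.g (nat_lit 0) (.e (nat_lit 329494) (nat_lit 0) .nil) .nil))) 
(.lf (nat_lit 565932) (.g (nat_lit 2571) (.e (nat_lit 434248) (nat_lit 28) (.e (nat_lit 573471) (nat_lit 11) (.e (nat_lit 16455) (nat_lit 12) (.e (nat_lit 475185) (nat_lit 29) (.e (nat_lit 557098) (nat_lit 13) .nil))))) (.g (nat_lit 0) (.e (nat_lit 330709) (nat_lit 0) .nil) .nil)))) (.nd (nat_lit 9) 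
(.lf (nat_lit 565676) (.g (nat_lit 2931) (.e (nat_lit 434247) (nat_lit 28) (.e (nat_lit 573469) (nat_lit 11) (.e (nat_lit 16469) (nat_lit 14) (.e (nat_lit 491536) (nat_lit 2) (.e (nat_lit 90170) (nat_lit 13) .nil))))) (.g (nat_lit 0) (.e (nat_lit 330143) (nat_lit 0) .nil) .nil))) 
(.lf (nat_lit 566188) (.g (nat_lit 1666) (.e (nat_lit 434269) (nat_lit 36) (.e (nat_lit 639020) (nat_lit 16) (.e (nat_lit 65610) (nat_lit 10) (.e (nat_lit 344156) (nat_lit 36) (.e (nat_lit 638998) (nat_lit 8) .nil))))) (.g (nat_lit 0) (.e (nat_lit 331569) (nat_lit 0) .nil) .nil)))))) (.nd (nat_lit 7) (.nd (nat_lit 8) (.nd (nat_lit 9) 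
(.lf (nat_lit 565356) (.g (nat_lit 4190) (.e (nat_lit 434245) (nat_lit 28) (.e (nat_lit 573470) (nat_lit 11) (.e (nat_lit 16435) (nat_lit 9) (.e (nat_lit 426354) (nat_lit 15) (.e (nat_lit 1860) (nat_lit 124) (.e (nat_lit 557100) (nat_lit 13) (.e (nat_lit 172113) (nat_lit 10) .nil))))))) (.g (nat_lit 1) (.e (nat_lit 329378) (nat_lit 0) .nil) .nil))) 
(.lf (nat_lit 565868) (.g (nat_lit 2434) (.e (nat_lit 434247) (nat_lit 28) (.e (nat_lit 573489) (nat_lit 14) (.e (nat_lit 73755) (nat_lit 8) (.e (nat_lit 557111) (nat_lit 16) .nil)))) (.g (nat_lit 0) (.e (nat_lit 330565) (nat_lit 0) .nil) .nil)))) (.nd (nat_lit 9) 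
(.lf (nat_lit 565612) (.g (nat_lit 2527) (.e (nat_lit 434246) (nat_lit 28) (.e (nat_lit 573487) (nat_lit 14) (.e (nat_lit 73753) (nat_lit 8) (.e (nat_lit 557091) (nat_lit 12) (.e (nat_lit 164005) (nat_lit 41) .nil))))) (.g (nat_lit 0) (.e (nat_lit 329988) (nat_lit 0) .nil) .nil))) 
(.lf (nat_lit 566124) (.g (nat_lit 1396) (.e (nat_lit 434266) (nat_lit 35) (.e (nat_lit 630821) (nat_lit 16) (.e (nat_lit 65610) (nat_lit 10) (.e (nat_lit 344157) (nat_lit 36) (.e (nat_lit 638999) (nat_lit 8) (.e (nat_lit 172106) (nat_lit 10) .nil)))))) (.g (nat_lit 1) (.e (nat_lit 331470) (nat_lit 0) .nil) .nil))))) (.nd (nat_lit 8) (.nd (nat_lit 9) 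
(.lf (nat_lit 565484) (.g (nat_lit 2144) (.e (nat_lit 434245) (nat_lit 28) (.e (nat_lit 573488) (nat_lit 14) (.e (nat_lit 73747) (nat_lit 3) (.e (nat_lit 516195) (nat_lit 26) (.e (nat_lit 336291) (nat_lit 15) .nil))))) (.g (nat_lit 0) (.e (nat_lit 329684) (nat_lit 0) .nil) .nil))) 
(.lf (nat_lit 565996) (.g (nat_lit 543) (.e (nat_lit 434248) (nat_lit 28) (.e (nat_lit 573487) (nat_lit 14) (.e (nat_lit 73744) (nat_lit 2) .nil))) (.g (nat_lit 0) (.e (nat_lit 330948) (nat_lit 0) .nil) .nil)))) (.nd (nat_lit 9) 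
(.lf (nat_lit 565740) (.g (nat_lit 1756) (.e (nat_lit 434247) (nat_lit 28) (.e (nat_lit 573478) (nat_lit 12) (.e (nat_lit 57574) (nat_lit 55) (.e (nat_lit 778466) (nat_lit 11) (.e (nat_lit 24603) (nat_lit 2) (.e (nat_lit 90167) (nat_lit 13) (.e (nat_lit 172111) (nat_lit 10) .nil))))))) (.g (nat_lit 1) (.e (nat_lit 330234) (nat_lit 0) .nil) .nil))) 
(.lf (nat_lit 566252) (.g (nat_lit 1028) (.e (nat_lit 434270) (nat_lit 38) (.e (nat_lit 655380) (nat_lit 6) (.e (nat_lit 188453) (nat_lit 24) (.e (nat_lit 229665) (nat_lit 240) .nil)))) (.g (nat_lit 0) (.e (nat_lit 331842) (nat_lit 0) .nil) .nil)))))))) (.nd (nat_lit 5) (.nd (nat_lit 6) (.nd (nat_lit 7) (.nd (nat_lit 8) (.nd (nat_lit 9) 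
(.lf (nat_lit 565276) (.g (nat_lit 3371) (.e (nat_lit 434244) (nat_lit 28) (.e (nat_lit 573471) (nat_lit 11) (.e (nat_lit 16433) (nat_lit 9) (.e (nat_lit 426400) (nat_lit 15) .nil)))) (.g (nat_lit 0) (.e (nat_lit 329098) (nat_lit 0) .nil) .nil))) 
(.lf (nat_lit 565788) (.g (nat_lit 1889) (.e (nat_lit 434247) (nat_lit 28) (.e (nat_lit 573487) (nat_lit 14) (.e (nat_lit 73753) (nat_lit 8) (.e (nat_lit 557089) (nat_lit 12) (.e (nat_lit 164007) (nat_lit 41) .nil))))) (.g (nat_lit 0) (.e (nat_lit 330371) (nat_lit 0) .nil) .nil)))) (.nd (nat_lit 9) 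
(.lf (nat_lit 565532) (.g (nat_lit 2357) (.e (nat_lit 434245) (nat_lit 28) (.e (nat_lit 573488) (nat_lit 14) (.e (nat_lit 73755) (nat_lit 8) (.e (nat_lit 557091) (nat_lit 12) (.e (nat_lit 164006) (nat_lit 41) .nil))))) (.g (nat_lit 0) (.e (nat_lit 329773) (nat_lit 0) .nil) .nil))) 
(.lf (nat_lit 566044) (.g (nat_lit 2608) (.e (nat_lit 434248) (nat_lit 28) (.e (nat_lit 573489) (nat_lit 14) (.e (nat_lit 73755) (nat_lit 8) (.e (nat_lit 557067) (nat_lit 9) (.e (nat_lit 2606) (nat_lit 163) .nil))))) (.g (nat_lit 0) (.e (nat_lit 331187) (nat_lit 0) .nil) .nil))))) (.nd (nat_lit 8) (.nd (nat_lit 9) 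
(.lf (nat_lit 565404) (.g (nat_lit 2393) (.e (nat_lit 434245) (nat_lit 28) (.e (nat_lit 573481) (nat_lit 13) (.e (nat_lit 65566) (nat_lit 2) (.e (nat_lit 90160) (nat_lit 11) (.e (nat_lit 24671) (nat_lit 15) (.e (nat_lit 7936) (nat_lit 195) (.e (nat_lit 516160) (nat_lit 10) .nil))))))) (.g (nat_lit 1) (.e (nat_lit 329459) (nat_lit 0) .nil) .nil))) 
(.lf (nat_lit 565916) (.g (nat_lit 1967) (.e (nat_lit 434248) (nat_lit 28) (.e (nat_lit 573471) (nat_lit 11) (.e (nat_lit 16433) (nat_lit 9) (.e (nat_lit 426363) (nat_lit 15) .nil)))) (.g (nat_lit 0) (.e (nat_lit 330657) (nat_lit 0) .nil) .nil)))) (.nd (nat_lit 9) 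
(.lf (nat_lit 565660) (.g (nat_lit 2555) (.e (nat_lit 434247) (nat_lit 28) (.e (nat_lit 573456) (nat_lit 9) (.e (nat_lit 1669) (nat_lit 116) (.e (nat_lit 401459) (nat_lit 13) (.e (nat_lit 483364) (nat_lit 18) (.e (nat_lit 57665) (nat_lit 152) (.e (nat_lit 2441) (nat_lit 157) (.e (nat_lit 2972) (nat_lit 185) .nil)))))))) (.g (nat_lit 1) (.e (nat_lit 330125) (nat_lit 0) .nil) .nil))) 
(.lf (nat_lit 566172) (.g (nat_lit 1119) (.e (nat_lit 434268) (nat_lit 36) (.e (nat_lit 639020) (nat_lit 16) (.e (nat_lit 65617) (nat_lit 10) (.e (nat_lit 344157) (nat_lit 36) .nil)))) (.g (nat_lit 0) (.e (nat_lit 331530) (nat_lit 0) .nil) .nil)))))) (.nd (nat_lit 7) (.nd (nat_lit 8) (.nd (nat_lit 9) 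
(.lf (nat_lit 565340) (.g (nat_lit 487) (.e (nat_lit 434244) (nat_lit 28) (.e (nat_lit 573489) (nat_lit 14) (.e (nat_lit 73755) (nat_lit 8) .nil))) (.g (nat_lit 0) (.e (nat_lit 329342) (nat_lit 0) .nil) .nil))) 
(.lf (nat_lit 565852) (.g (nat_lit 2857) (.e (nat_lit 434247) (nat_lit 28) (.e (nat_lit 573489) (nat_lit 14) (.e (nat_lit 73755) (nat_lit 8) (.e (nat_lit 557091) (nat_lit 12) (.e (nat_lit 163843) (nat_lit 0) (.e (nat_lit 5940) (nat_lit 322) (.e (nat_lit 57379) (nat_lit 3) (.e (nat_lit 98366) (nat_lit 27) .nil)))))))) (.g (nat_lit 1) (.e (nat_lit 330529) (nat_lit 0) .nil) .nil)))) (.nd (nat_lit 9) 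
(.lf (nat_lit 565596) (.g (nat_lit 462) (.e (nat_lit 434246) (nat_lit 28) (.e (nat_lit 573487) (nat_lit 14) (.e (nat_lit 81664) (nat_lit 5) .nil))) (.g (nat_lit 0) (.e (nat_lit 329922) (nat_lit 0) .nil) .nil))) 
(.lf (nat_lit 566108) (.g (nat_lit 425) (.e (nat_lit 434241) (nat_lit 27) (.e (nat_lit 565269) (nat_lit 6) (.e (nat_lit 81946) (nat_lit 20) .nil))) (.g (nat_lit 0) (.e (nat_lit 331441) (nat_lit 0) .nil) .nil))))) (.nd (nat_lit 8) (.nd (nat_lit 9) 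
(.lf (nat_lit 565468) (.g (nat_lit 2443) (.e (nat_lit 434245) (nat_lit 28) (.e (nat_lit 573487) (nat_lit 14) (.e (nat_lit 73753) (nat_lit 8) (.e (nat_lit 557091) (nat_lit 12) (.e (nat_lit 164004) (nat_lit 41) .nil))))) (.g (nat_lit 0) (.e (nat_lit 329628) (nat_lit 0) .nil) .nil))) 
(.lf (nat_lit 565980) (.g (nat_lit 1460) (.e (nat_lit 434248) (nat_lit 28) (.e (nat_lit 573482) (nat_lit 13) (.e (nat_lit 65568) (nat_lit 2) (.e (nat_lit 90165) (nat_lit 12) .nil)))) (.g (nat_lit 0) (.e (nat_lit 330822) (nat_lit 0) .nil) .nil)))) (.nd (nat_lit 9) 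
(.lf (nat_lit 565724) (.g (nat_lit 3285) (.e (nat_lit 434247) (nat_lit 28) (.e (nat_lit 573477) (nat_lit 12) (.e (nat_lit 57750) (nat_lit 201) (.e (nat_lit 3090) (nat_lit 191) (.e (nat_lit 483363) (nat_lit 18) (.e (nat_lit 57686) (nat_lit 156) (.e (nat_lit 163916) (nat_lit 13) .nil))))))) (.g (nat_lit 1) (.e (nat_lit 330202) (nat_lit 0) .nil) .nil))) 
(.lf (nat_lit 566236) (.g (nat_lit 2026) (.e (nat_lit 434279) (nat_lit 39) (.e (nat_lit 663584) (nat_lit 12) (.e (nat_lit 163979) (nat_lit 30) (.e (nat_lit 573470) (nat_lit 11) (.e (nat_lit 16465) (nat_lit 13) (.e (nat_lit 491264) (nat_lit 10) .nil)))))) (.g (nat_lit 1) (.e (nat_lit 331810) (nat_lit 0) .nil) .nil))))))) (.nd (nat_lit 6) (.nd (nat_lit 7) (.nd (nat_lit 8) (.nd (nat_lit 9) 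
(.lf (nat_lit 565308) (.g (nat_lit 2129) (.e (nat_lit 434244) (nat_lit 28) (.e (nat_lit 573487) (nat_lit 14) (.e (nat_lit 73746) (nat_lit 3) (.e (nat_lit 516120) (nat_lit 1) (.e (nat_lit 164195) (nat_lit 158) .nil))))) (.g (nat_lit 0) (.e (nat_lit 329221) (nat_lit 0) .nil) .nil))) 
(.lf (nat_lit 565820) (.g (nat_lit 2201) (.e (nat_lit 434247) (nat_lit 28) (.e (nat_lit 573489) (nat_lit 14) (.e (nat_lit 73755) (nat_lit 8) (.e (nat_lit 557083) (nat_lit 10) .nil)))) (.g (nat_lit 0) (.e (nat_lit 330457) (nat_lit 0) .nil) .nil)))) (.nd (nat_lit 9) 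
(.lf (nat_lit 565564) (.g (nat_lit 2512) (.e (nat_lit 434246) (nat_lit 28) (.e (nat_lit 573474) (nat_lit 12) (.e (nat_lit 57572) (nat_lit 54) (.e (nat_lit 770071) (nat_lit 8) (.e (nat_lit 65571) (nat_lit 3) .nil))))) (.g (nat_lit 0) (.e (nat_lit 329842) (nat_lit 0) .nil) .nil))) 
(.lf (nat_lit 566076) (.g (nat_lit 2683) (.e (nat_lit 434248) (nat_lit 28) (.e (nat_lit 573489) (nat_lit 14) (.e (nat_lit 73755) (nat_lit 8) (.e (nat_lit 557110) (nat_lit 16) .nil)))) (.g (nat_lit 0) (.e (nat_lit 331351) (nat_lit 0) .nil) .nil))))) (.nd (nat_lit 8) (.nd (nat_lit 9) 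
(.lf (nat_lit 565436) (.g (nat_lit 472) (.e (nat_lit 434245) (nat_lit 28) (.e (nat_lit 573487) (nat_lit 14) (.e (nat_lit 81664) (nat_lit 5) .nil))) (.g (nat_lit 0) (.e (nat_lit 329561) (nat_lit 0) .nil) .nil))) 
(.lf (nat_lit 565948) (.g (nat_lit 3636) (.e (nat_lit 434248) (nat_lit 28) (.e (nat_lit 573471) (nat_lit 11) (.e (nat_lit 16470) (nat_lit 14) (.e (nat_lit 499456) (nat_lit 2) .nil)))) (.g (nat_lit 0) (.e (nat_lit 330727) (nat_lit 0) .nil) .nil)))) (.nd (nat_lit 9) 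
(.lf (nat_lit 565692) (.g (nat_lit 3912) (.e (nat_lit 434247) (nat_lit 28) (.e (nat_lit 573471) (nat_lit 11) (.e (nat_lit 16470) (nat_lit 14) (.e (nat_lit 491535) (nat_lit 2) .nil)))) (.g (nat_lit 0) (.e (nat_lit 330166) (nat_lit 0) .nil) .nil))) 
(.lf (nat_lit 566204) (.g (nat_lit 477) (.e (nat_lit 434275) (nat_lit 39) (.e (nat_lit 663567) (nat_lit 4) (.e (nat_lit 65651) (nat_lit 27) .nil))) (.g (nat_lit 0) (.e (nat_lit 331603) (nat_lit 0) .nil) .nil)))))) (.nd (nat_lit 7) (.nd (nat_lit 8) (.nd (nat_lit 9) 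
(.lf (nat_lit 565372) (.g (nat_lit 3259) (.e (nat_lit 434245) (nat_lit 28) (.e (nat_lit 573471) (nat_lit 11) (.e (nat_lit 16433) (nat_lit 9) (.e (nat_lit 426130) (nat_lit 3) .nil)))) (.g (nat_lit 0) (.e (nat_lit 329403) (nat_lit 0) .nil) .nil))) 
(.lf (nat_lit 565884) (.g (nat_lit 3621) (.e (nat_lit 434248) (nat_lit 28) (.e (nat_lit 573452) (nat_lit 9) (.e (nat_lit 430) (nat_lit 32) (.e (nat_lit 426343) (nat_lit 14) (.e (nat_lit 491538) (nat_lit 3) (.e (nat_lit 98359) (nat_lit 26) (.e (nat_lit 426286) (nat_lit 10) .nil))))))) (.g (nat_lit 1) (.e (nat_lit 330602) (nat_lit 0) .nil) .nil)))) (.nd (nat_lit 9) 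
(.lf (nat_lit 565628) (.g (nat_lit 2303) (.e (nat_lit 434246) (nat_lit 28) (.e (nat_lit 573489) (nat_lit 14) (.e (nat_lit 73755) (nat_lit 8) (.e (nat_lit 557089) (nat_lit 12) (.e (nat_lit 164006) (nat_lit 41) .nil))))) (.g (nat_lit 0) (.e (nat_lit 330052) (nat_lit 0) .nil) .nil))) 
(.lf (nat_lit 566140) (.g (nat_lit 1458) (.e (nat_lit 434268) (nat_lit 36) (.e (nat_lit 639020) (nat_lit 16) (.e (nat_lit 65540) (nat_lit 0) (.e (nat_lit 6218) (nat_lit 333) (.e (nat_lit 57819) (nat_lit 248) (.e (nat_lit 164359) (nat_lit 246) (.e (nat_lit 2979) (nat_lit 185) .nil))))))) (.g (nat_lit 1) (.e (nat_lit 331486) (nat_lit 0) .nil) .nil))))) (.nd (nat_lit 8) (.nd (nat_lit 9) 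
(.lf (nat_lit 565500) (.g (nat_lit 1113) (.e (nat_lit 434245) (nat_lit 28) (.e (nat_lit 573488) (nat_lit 14) (.e (nat_lit 73755) (nat_lit 8) (.e (nat_lit 557090) (nat_lit 12) .nil)))) (.g (nat_lit 0) (.e (nat_lit 329711) (nat_lit 0) .nil) .nil))) 
(.lf (nat_lit 566012) (.g (nat_lit 2155) (.e (nat_lit 434248) (nat_lit 28) (.e (nat_lit 573487) (nat_lit 14) (.e (nat_lit 73753) (nat_lit 8) (.e (nat_lit 557089) (nat_lit 12) (.e (nat_lit 164010) (nat_lit 41) .nil))))) (.g (nat_lit 0) (.e (nat_lit 331032) (nat_lit 0) .nil) .nil)))) (.nd (nat_lit 9) 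
(.lf (nat_lit 565756) (.g (nat_lit 2395) (.e (nat_lit 434247) (nat_lit 28) (.e (nat_lit 573484) (nat_lit 13) (.e (nat_lit 65569) (nat_lit 3) (.e (nat_lit 98334) (nat_lit 18) (.e (nat_lit 164195) (nat_lit 158) .nil))))) (.g (nat_lit 0) (.e (nat_lit 330285) (nat_lit 0) .nil) .nil))) 
(.lf (nat_lit 566268) (.g (nat_lit 4032) (.e (nat_lit 434271) (nat_lit 38) (.e (nat_lit 655375) (nat_lit 3) (.e (nat_lit 163978) (nat_lit 30) (.e (nat_lit 573482) (nat_lit 13) (.e (nat_lit 65619) (nat_lit 10) (.e (nat_lit 344117) (nat_lit 21) (.e (nat_lit 516159) (nat_lit 10) .nil))))))) (.g (nat_lit 1) (.e (nat_lit 331862) (nat_lit 0) .nil) .nil))))))))))) 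
(.nd (nat_lit 2) (.nd (nat_lit 3) (.nd (nat_lit 4) (.nd (nat_lit 5) (.nd (nat_lit 6) 
(.nd (nat_lit 7) (.nd (nat_lit 8) (.nd (nat_lit 9) 
(.lf (nat_lit 565250) (.g (nat_lit 4161) (.e (nat_lit 434244) (nat_lit 28) (.e (nat_lit 573451) (nat_lit 9) (.e (nat_lit 1449) (nat_lit 108) (.e (nat_lit 336013) (nat_lit 2) (.e (nat_lit 90189) (nat_lit 18) (.e (nat_lit 2579) (nat_lit 161) (.e (nat_lit 40967) (nat_lit 0) (.e (nat_lit 1252) (nat_lit 92) (.e (nat_lit 98366) (nat_lit 27) .nil))))))))) (.g (nat_lit 1) (.e (nat_lit 329033) (nat_lit 0) .nil) .nil))) 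
(.lf (nat_lit 565762) (.g (nat_lit 490) (.e (nat_lit 434247) (nat_lit 28) (.e (nat_lit 573484) (nat_lit 13) (.e (nat_lit 65642) (nat_lit 15) .nil))) (.g (nat_lit 0) (.e (nat_lit 330301) (nat_lit 0) .nil) .nil)))) (.nd (nat_lit 9) 
(.lf (nat_lit 565506) (.g (nat_lit 2459) (.e (nat_lit 434245) (nat_lit 28) (.e (nat_lit 573488) (nat_lit 14) (.e (nat_lit 73755) (nat_lit 8) (.e (nat_lit 557090) (nat_lit 12) (.e (nat_lit 163841) (nat_lit 0) (.e (nat_lit 5943) (nat_lit 322) (.e (nat_lit 57379) (nat_lit 3) (.e (nat_lit 98368) (nat_lit 27) .nil)))))))) (.g (nat_lit 1) (.e (nat_lit 329718) (nat_lit 0) .nil) .nil))) 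
(.lf (nat_lit 566018) (.g (nat_lit 2368) (.e (nat_lit 434248) (nat_lit 28) (.e (nat_lit 573487) (nat_lit 14) (.e (nat_lit 73753) (nat_lit 8) (.e (nat_lit 557091) (nat_lit 12) (.e (nat_lit 164005) (nat_lit 41) .nil))))) (.g (nat_lit 0) (.e (nat_lit 331070) (nat_lit 0) .nil) .nil))))) (.nd (nat_lit 8) (.nd (nat_lit 9) 
(.lf (nat_lit 565378) (.g (nat_lit 3411) (.e (nat_lit 434245) (nat_lit 28) (.e (nat_lit 573471) (nat_lit 11) (.e (nat_lit 16433) (nat_lit 9) (.e (nat_lit 426374) (nat_lit 15) (.e (nat_lit 1855) (nat_lit 124) .nil))))) (.g (nat_lit 0) (.e (nat_lit 329410) (nat_lit 0) .nil) .nil))) 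
(.lf (nat_lit 565890) (.g (nat_lit 1303) (.e (nat_lit 434248) (nat_lit 28) (.e (nat_lit 573469) (nat_lit 11) (.e (nat_lit 16456) (nat_lit 12) (.e (nat_lit 475184) (nat_lit 29) .nil)))) (.g (nat_lit 0) (.e (nat_lit 330622) (nat_lit 0) .nil) .nil)))) (.nd (nat_lit 9) 
(.lf (nat_lit 565634) (.g (nat_lit 2606) (.e (nat_lit 434246) (nat_lit 28) (.e (nat_lit 573489) (nat_lit 14) (.e (nat_lit 73755) (nat_lit 8) (.e (nat_lit 557090) (nat_lit 12) (.e (nat_lit 163850) (nat_lit 0) .nil))))) (.g (nat_lit 0) (.e (nat_lit 330059) (nat_lit 0) .nil) .nil))) 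
(.lf (nat_lit 566146) (.g (nat_lit 1816) (.e (nat_lit 434268) (nat_lit 36) (.e (nat_lit 639020) (nat_lit 16) (.e (nat_lit 65583) (nat_lit 7) (.e (nat_lit 319527) (nat_lit 15) (.e (nat_lit 278546) (nat_lit 8) (.e (nat_lit 303139) (nat_lit 10) .nil)))))) (.g (nat_lit 1) (.e (nat_lit 331495) (nat_lit 0) .nil) .nil)))))) (.nd (nat_lit 7) (.nd (nat_lit 8) (.nd (nat_lit 9) 
(.lf (nat_lit 565314) (.g (nat_lit 3731) (.e (nat_lit 434244) (nat_lit 28) (.e (nat_lit 573487) (nat_lit 14) (.e (nat_lit 73753) (nat_lit 8) (.e (nat_lit 557090) (nat_lit 12) (.e (nat_lit 163840) (nat_lit 0) (.e (nat_lit 5939) (nat_lit 322) (.e (nat_lit 57379) (nat_lit 3) (.e (nat_lit 98366) (nat_lit 27) .nil)))))))) (.g (nat_lit 1) (.e (nat_lit 329243) (nat_lit 0) .nil) .nil))) 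
(.lf (nat_lit 565826) (.g (nat_lit 2250) (.e (nat_lit 434247) (nat_lit 28) (.e (nat_lit 573489) (nat_lit 14) (.e (nat_lit 73755) (nat_lit 8) (.e (nat_lit 557089) (nat_lit 12) (.e (nat_lit 164005) (nat_lit 41) .nil))))) (.g (nat_lit 0) (.e (nat_lit 330468) (nat_lit 0) .nil) .nil)))) (.nd (nat_lit 9) 
(.lf (nat_lit 565570) (.g (nat_lit 1971) (.e (nat_lit 434246) (nat_lit 28) (.e (nat_lit 573482) (nat_lit 13) (.e (nat_lit 65566) (nat_lit 2) (.e (nat_lit 90128) (nat_lit 9) (.e (nat_lit 344) (nat_lit 27) .nil))))) (.g (nat_lit 0) (.e (nat_lit 329856) (nat_lit 0) .nil) .nil))) 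
(.lf (nat_lit 566082) (.g (nat_lit 714) (.e (nat_lit 442112) (nat_lit 28) (.e (nat_lit 573471) (nat_lit 11) (.e (nat_lit 16425) (nat_lit 7) .nil))) (.g (nat_lit 0) (.e (nat_lit 331402) (nat_lit 0) .nil) .nil))))) (.nd (nat_lit 8) (.nd (nat_lit 9) 
(.lf (nat_lit 565442) (.g (nat_lit 1583) (.e (nat_lit 434245) (nat_lit 28) (.e (nat_lit 573487) (nat_lit 14) (.e (nat_lit 73746) (nat_lit 3) (.e (nat_lit 516195) (nat_lit 26) .nil)))) (.g (nat_lit 0) (.e (nat_lit 329569) (nat_lit 0) .nil) .nil))) 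
(.lf (nat_lit 565954) (.g (nat_lit 1659) (.e (nat_lit 434248) (nat_lit 28) (.e (nat_lit 573471) (nat_lit 11) (.e (nat_lit 16473) (nat_lit 14) (.e (nat_lit 491525) (nat_lit 0) .nil)))) (.g (nat_lit 0) (.e (nat_lit 330733) (nat_lit 0) .nil) .nil)))) (.nd (nat_lit 9) 
(.lf (nat_lit 565698) (.g (nat_lit 1733) (.e (nat_lit 434247) (nat_lit 28) (.e (nat_lit 573471) (nat_lit 11) (.e (nat_lit 16473) (nat_lit 14) (.e (nat_lit 499456) (nat_lit 3) .nil)))) (.g (nat_lit 0) (.e (nat_lit 330172) (nat_lit 0) .nil) .nil))) 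
(.lf (nat_lit 566210) (.g (nat_lit 1686) (.e (nat_lit 434275) (nat_lit 39) (.e (nat_lit 663584) (nat_lit 12) (.e (nat_lit 163976) (nat_lit 30) (.e (nat_lit 573470) (nat_lit 11) (.e (nat_lit 16465) (nat_lit 13) (.e (nat_lit 491264) (nat_lit 10) .nil)))))) (.g (nat_lit 1) (.e (nat_lit 331655) (nat_lit 0) .nil) .nil))))))) (.nd (nat_lit 6) (.nd (nat_lit 7) (.nd (nat_lit 8) (.nd (nat_lit 9) 
(.lf (nat_lit 565282) (.g (nat_lit 1831) (.e (nat_lit 434244) (nat_lit 28) (.e (nat_lit 573471) (nat_lit 11) (.e (nat_lit 16448) (nat_lit 10) (.e (nat_lit 434230) (nat_lit 23) .nil)))) (.g (nat_lit 0) (.e (nat_lit 329115) (nat_lit 0) .nil) .nil))) 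
(.lf (nat_lit 565794) (.g (nat_lit 1111) (.e (nat_lit 434247) (nat_lit 28) (.e (nat_lit 573489) (nat_lit 14) (.e (nat_lit 73748) (nat_lit 3) (.e (nat_lit 524032) (nat_lit 32) .nil)))) (.g (nat_lit 0) (.e (nat_lit 330396) (nat_lit 0) .nil) .nil)))) (.nd (nat_lit 9) 
(.lf (nat_lit 565538) (.g (nat_lit 1232) (.e (nat_lit 434245) (nat_lit 28) (.e (nat_lit 573488) (nat_lit 14) (.e (nat_lit 73755) (nat_lit 8) (.e (nat_lit 564992) (nat_lit 21) .nil)))) (.g (nat_lit 0) (.e (nat_lit 329789) (nat_lit 0) .nil) .nil))) 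
(.lf (nat_lit 566050) (.g (nat_lit 1866) (.e (nat_lit 434248) (nat_lit 28) (.e (nat_lit 573489) (nat_lit 14) (.e (nat_lit 73755) (nat_lit 8) (.e (nat_lit 557089) (nat_lit 12) .nil)))) (.g (nat_lit 0) (.e (nat_lit 331211) (nat_lit 0) .nil) .nil))))) (.nd (nat_lit 8) (.nd (nat_lit 9) 
(.lf (nat_lit 565410) (.g (nat_lit 2484) (.e (nat_lit 434245) (nat_lit 28) (.e (nat_lit 573481) (nat_lit 13) (.e (nat_lit 65568) (nat_lit 2) (.e (nat_lit 90160) (nat_lit 11) (.e (nat_lit 24669) (nat_lit 15) .nil))))) (.g (nat_lit 0) (.e (nat_lit 329477) (nat_lit 0) .nil) .nil))) 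
(.lf (nat_lit 565922) (.g (nat_lit 2748) (.e (nat_lit 434248) (nat_lit 28) (.e (nat_lit 573471) (nat_lit 11) (.e (nat_lit 16433) (nat_lit 9) (.e (nat_lit 426402) (nat_lit 15) .nil)))) (.g (nat_lit 0) (.e (nat_lit 330663) (nat_lit 0) .nil) .nil)))) (.nd (nat_lit 9) 
(.lf (nat_lit 565666) (.g (nat_lit 3364) (.e (nat_lit 434247) (nat_lit 28) (.e (nat_lit 573457) (nat_lit 9) (.e (nat_lit 430) (nat_lit 32) (.e (nat_lit 426012) (nat_lit 0) (.e (nat_lit 7583) (nat_lit 405) (.e (nat_lit 57464) (nat_lit 23) (.e (nat_lit 516151) (nat_lit 9) (.e (nat_lit 426286) (nat_lit 10) .nil)))))))) (.g (nat_lit 1) (.e (nat_lit 330131) (nat_lit 0) .nil) .nil))) 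
(.lf (nat_lit 566178) (.g (nat_lit 1487) (.e (nat_lit 434268) (nat_lit 36) (.e (nat_lit 639020) (nat_lit 16) (.e (nat_lit 65619) (nat_lit 10) (.e (nat_lit 344157) (nat_lit 36) (.e (nat_lit 638998) (nat_lit 8) .nil))))) (.g (nat_lit 0) (.e (nat_lit 331543) (nat_lit 0) .nil) .nil)))))) (.nd (nat_lit 7) (.nd (nat_lit 8) (.nd (nat_lit 9) 
(.lf (nat_lit 565346) (.g (nat_lit 3582) (.e (nat_lit 434244) (nat_lit 28) (.e (nat_lit 573489) (nat_lit 14) (.e (nat_lit 73755) (nat_lit 8) (.e (nat_lit 557090) (nat_lit 12) (.e (nat_lit 164010) (nat_lit 41) .nil))))) (.g (nat_lit 0) (.e (nat_lit 329348) (nat_lit 0) .nil) .nil))) 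
(.lf (nat_lit 565858) (.g (nat_lit 1983) (.e (nat_lit 434247) (nat_lit 28) (.e (nat_lit 573489) (nat_lit 14) (.e (nat_lit 73755) (nat_lit 8) (.e (nat_lit 557091) (nat_lit 12) (.e (nat_lit 164006) (nat_lit 41) .nil))))) (.g (nat_lit 0) (.e (nat_lit 330546) (nat_lit 0) .nil) .nil)))) (.nd (nat_lit 9) 
(.lf (nat_lit 565602) (.g (nat_lit 2462) (.e (nat_lit 434246) (nat_lit 28) (.e (nat_lit 573487) (nat_lit 14) (.e (nat_lit 73747) (nat_lit 3) (.e (nat_lit 516115) (nat_lit 1) (.e (nat_lit 171776) (nat_lit 160) .nil))))) (.g (nat_lit 0) (.e (nat_lit 329945) (nat_lit 0) .nil) .nil))) 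
(.lf (nat_lit 566114) (.g (nat_lit 940) (.e (nat_lit 434266) (nat_lit 35) (.e (nat_lit 630821) (nat_lit 16) (.e (nat_lit 65583) (nat_lit 7) (.e (nat_lit 319527) (nat_lit 15) (.e (nat_lit 278547) (nat_lit 8) (.e (nat_lit 303137) (nat_lit 10) .nil)))))) (.g (nat_lit 1) (.e (nat_lit 331460) (nat_lit 0) .nil) .nil))))) (.nd (nat_lit 8) (.nd (nat_lit 9) 
(.lf (nat_lit 565474) (.g (nat_lit 2059) (.e (nat_lit 434245) (nat_lit 28) (.e (nat_lit 573487) (nat_lit 14) (.e (nat_lit 73753) (nat_lit 8) (.e (nat_lit 557093) (nat_lit 12) (.e (nat_lit 164009) (nat_lit 41) .nil))))) (.g (nat_lit 0) (.e (nat_lit 329639) (nat_lit 0) .nil) .nil))) 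
(.lf (nat_lit 565986) (.g (nat_lit 515) (.e (nat_lit 434248) (nat_lit 28) (.e (nat_lit 573482) (nat_lit 13) (.e (nat_lit 65570) (nat_lit 3) .nil))) (.g (nat_lit 0) (.e (nat_lit 330840) (nat_lit 0) .nil) .nil)))) (.nd (nat_lit 9) 
(.lf (nat_lit 565730) (.g (nat_lit 3129) (.e (nat_lit 434247) (nat_lit 28) (.e (nat_lit 573477) (nat_lit 12) (.e (nat_lit 57750) (nat_lit 201) (.e (nat_lit 3090) (nat_lit 191) (.e (nat_lit 483364) (nat_lit 18) (.e (nat_lit 57690) (nat_lit 156) (.e (nat_lit 163916) (nat_lit 13) .nil))))))) (.g (nat_lit 1) (.e (nat_lit 330209) (nat_lit 0) .nil) .nil))) 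
(.lf (nat_lit 566242) (.g (nat_lit 1828) (.e (nat_lit 434270) (nat_lit 38) (.e (nat_lit 655375) (nat_lit 3) (.e (nat_lit 163978) (nat_lit 30) (.e (nat_lit 573482) (nat_lit 13) .nil)))) (.g (nat_lit 0) (.e (nat_lit 331827) (nat_lit 0) .nil) .nil)))))))) (.nd (nat_lit 5) (.nd (nat_lit 6) (.nd (nat_lit 7) (.nd (nat_lit 8) (.nd (nat_lit 9) 
(.lf (nat_lit 565266) (.g (nat_lit 1506) (.e (nat_lit 434244) (nat_lit 28) (.e (nat_lit 573471) (nat_lit 11) (.e (nat_lit 16425) (nat_lit 7) (.e (nat_lit 409624) (nat_lit 10) .nil)))) (.g (nat_lit 0) (.e (nat_lit 329082) (nat_lit 0) .nil) .nil))) 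
(.lf (nat_lit 565778) (.g (nat_lit 1309) (.e (nat_lit 434247) (nat_lit 28) (.e (nat_lit 573485) (nat_lit 13) (.e (nat_lit 65571) (nat_lit 3) (.e (nat_lit 98325) (nat_lit 17) .nil)))) (.g (nat_lit 0) (.e (nat_lit 330341) (nat_lit 0) .nil) .nil)))) (.nd (nat_lit 9) 
(.lf (nat_lit 565522) (.g (nat_lit 2644) (.e (nat_lit 434245) (nat_lit 28) (.e (nat_lit 573488) (nat_lit 14) (.e (nat_lit 73755) (nat_lit 8) (.e (nat_lit 557090) (nat_lit 12) (.e (nat_lit 164009) (nat_lit 41) .nil))))) (.g (nat_lit 0) (.e (nat_lit 329757) (nat_lit 0) .nil) .nil))) 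
(.lf (nat_lit 566034) (.g (nat_lit 1948) (.e (nat_lit 434248) (nat_lit 28) (.e (nat_lit 573489) (nat_lit 14) (.e (nat_lit 73754) (nat_lit 8) (.e (nat_lit 557092) (nat_lit 12) .nil)))) (.g (nat_lit 0) (.e (nat_lit 331146) (nat_lit 0) .nil) .nil))))) (.nd (nat_lit 8) (.nd (nat_lit 9) 
(.lf (nat_lit 565394) (.g (nat_lit 3886) (.e (nat_lit 434245) (nat_lit 28) (.e (nat_lit 573471) (nat_lit 11) (.e (nat_lit 16470) (nat_lit 14) (.e (nat_lit 491520) (nat_lit 0) (.e (nat_lit 1788) (nat_lit 119) .nil))))) (.g (nat_lit 0) (.e (nat_lit 329432) (nat_lit 0) .nil) .nil))) 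
(.lf (nat_lit 565906) (.g (nat_lit 2420) (.e (nat_lit 434248) (nat_lit 28) (.e (nat_lit 573471) (nat_lit 11) (.e (nat_lit 16425) (nat_lit 7) (.e (nat_lit 417536) (nat_lit 10) .nil)))) (.g (nat_lit 0) (.e (nat_lit 330642) (nat_lit 0) .nil) .nil)))) (.nd (nat_lit 9) 
(.lf (nat_lit 565650) (.g (nat_lit 2484) (.e (nat_lit 434246) (nat_lit 28) (.e (nat_lit 573489) (nat_lit 14) (.e (nat_lit 73755) (nat_lit 8) (.e (nat_lit 557091) (nat_lit 12) (.e (nat_lit 164008) (nat_lit 41) .nil))))) (.g (nat_lit 0) (.e (nat_lit 330105) (nat_lit 0) .nil) .nil))) 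
(.lf (nat_lit 566162) (.g (nat_lit 3448) (.e (nat_lit 434268) (nat_lit 36) (.e (nat_lit 639020) (nat_lit 16) (.e (nat_lit 65604) (nat_lit 9) (.e (nat_lit 335997) (nat_lit 1) (.e (nat_lit 57857) (nat_lit 254) (.e (nat_lit 163908) (nat_lit 12) (.e (nat_lit 426286) (nat_lit 10) .nil))))))) (.g (nat_lit 1) (.e (nat_lit 331513) (nat_lit 0) .nil) .nil)))))) 
(.nd (nat_lit 7) (.nd (nat_lit 8) (.nd (nat_lit 9) 
(.lf (nat_lit 565330) (.g (nat_lit 4109) (.e (nat_lit 434244) (nat_lit 28) (.e (nat_lit 573488) (nat_lit 14) (.e (nat_lit 73755) (nat_lit 8) (.e (nat_lit 557090) (nat_lit 12) (.e (nat_lit 163851) (nat_lit 0) (.e (nat_lit 5939) (nat_lit 322) (.e (nat_lit 57379) (nat_lit 3) (.e (nat_lit 98366) (nat_lit 27) .nil)))))))) (.g (nat_lit 1) (.e (nat_lit 329308) (nat_lit 0) .nil) .nil))) 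
(.lf (nat_lit 565842) (.g (nat_lit 3233) (.e (nat_lit 434247) (nat_lit 28) (.e (nat_lit 573489) (nat_lit 14) (.e (nat_lit 73755) (nat_lit 8) (.e (nat_lit 557090) (nat_lit 12) (.e (nat_lit 171776) (nat_lit 0) .nil))))) (.g (nat_lit 0) (.e (nat_lit 330511) (nat_lit 0) .nil) .nil)))) (.nd (nat_lit 9) 
(.lf (nat_lit 565586) (.g (nat_lit 2521) (.e (nat_lit 434246) (nat_lit 28) (.e (nat_lit 573482) (nat_lit 13) (.e (nat_lit 65571) (nat_lit 3) (.e (nat_lit 98313) (nat_lit 9) (.e (nat_lit 336271) (nat_lit 15) .nil))))) (.g (nat_lit 0) (.e (nat_lit 329885) (nat_lit 0) .nil) .nil))) 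
(.lf (nat_lit 566098) (.g (nat_lit 1941) (.e (nat_lit 434241) (nat_lit 27) (.e (nat_lit 565267) (nat_lit 4) (.e (nat_lit 65619) (nat_lit 10) (.e (nat_lit 344183) (nat_lit 49) (.e (nat_lit 819219) (nat_lit 4) (.e (nat_lit 172115) (nat_lit 10) .nil)))))) (.g (nat_lit 1) (.e (nat_lit 331429) (nat_lit 0) .nil) .nil))))) (.nd (nat_lit 8) (.nd (nat_lit 9) 
(.lf (nat_lit 565458) (.g (nat_lit 3155) (.e (nat_lit 434245) (nat_lit 28) (.e (nat_lit 573487) (nat_lit 14) (.e (nat_lit 73753) (nat_lit 8) (.e (nat_lit 557090) (nat_lit 12) (.e (nat_lit 163850) (nat_lit 0) (.e (nat_lit 5939) (nat_lit 322) (.e (nat_lit 57379) (nat_lit 3) (.e (nat_lit 98368) (nat_lit 27) .nil)))))))) (.g (nat_lit 1) (.e (nat_lit 329606) (nat_lit 0) .nil) .nil))) 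
(.lf (nat_lit 565970) (.g (nat_lit 1880) (.e (nat_lit 434248) (nat_lit 28) (.e (nat_lit 573480) (nat_lit 13) (.e (nat_lit 65567) (nat_lit 2) (.e (nat_lit 90160) (nat_lit 11) (.e (nat_lit 24671) (nat_lit 15) .nil))))) (.g (nat_lit 0) (.e (nat_lit 330771) (nat_lit 0) .nil) .nil)))) (.nd (nat_lit 9) 
(.lf (nat_lit 565714) (.g (nat_lit 3343) (.e (nat_lit 434247) (nat_lit 28) (.e (nat_lit 573477) (nat_lit 12) (.e (nat_lit 57575) (nat_lit 55) (.e (nat_lit 778465) (nat_lit 11) (.e (nat_lit 24604) (nat_lit 2) (.e (nat_lit 90169) (nat_lit 13) (.e (nat_lit 172111) (nat_lit 10) .nil))))))) (.g (nat_lit 1) (.e (nat_lit 330191) (nat_lit 0) .nil) .nil))) 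
(.lf (nat_lit 566226) (.g (nat_lit 409) (.e (nat_lit 434276) (nat_lit 39) (.e (nat_lit 663589) (nat_lit 14) (.e (nat_lit 2769) (nat_lit 177) .nil))) (.g (nat_lit 0) (.e (nat_lit 331760) (nat_lit 0) .nil) .nil))))))) (.nd (nat_lit 6) (.nd (nat_lit 7) (.nd (nat_lit 8) (.nd (nat_lit 9) 
(.lf (nat_lit 565298) (.g (nat_lit 2915) (.e (nat_lit 434244) (nat_lit 28) (.e (nat_lit 573481) (nat_lit 13) (.e (nat_lit 65569) (nat_lit 3) (.e (nat_lit 98317) (nat_lit 9) (.e (nat_lit 336293) (nat_lit 15) (.e (nat_lit 7936) (nat_lit 195) (.e (nat_lit 516160) (nat_lit 10) .nil))))))) (.g (nat_lit 1) (.e (nat_lit 329182) (nat_lit 0) .nil) .nil))) 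
(.lf (nat_lit 565810) (.g (nat_lit 3640) (.e (nat_lit 434247) (nat_lit 28) (.e (nat_lit 573489) (nat_lit 14) (.e (nat_lit 73755) (nat_lit 8) (.e (nat_lit 557067) (nat_lit 9) (.e (nat_lit 2603) (nat_lit 163) (.e (nat_lit 164399) (nat_lit 256) (.e (nat_lit 57378) (nat_lit 3) (.e (nat_lit 98368) (nat_lit 27) .nil)))))))) (.g (nat_lit 1) (.e (nat_lit 330432) (nat_lit 0) .nil) .nil)))) 
(.nd (nat_lit 9) 
(.lf (nat_lit 565554) (.g (nat_lit 2055) (.e (nat_lit 434246) (nat_lit 28) (.e (nat_lit 573471) (nat_lit 11) (.e (nat_lit 16435) (nat_lit 9) (.e (nat_lit 426131) (nat_lit 3) (.e (nat_lit 204885) (nat_lit 33) .nil))))) (.g (nat_lit 0) (.e (nat_lit 329828) (nat_lit 0) .nil) .nil))) 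
(.lf (nat_lit 566066) (.g (nat_lit 3006) (.e (nat_lit 434248) (nat_lit 28) (.e (nat_lit 573489) (nat_lit 14) (.e (nat_lit 73755) (nat_lit 8) (.e (nat_lit 557090) (nat_lit 12) (.e (nat_lit 163854) (nat_lit 0) .nil))))) (.g (nat_lit 0) (.e (nat_lit 331263) (nat_lit 0) .nil) .nil))))) (.nd (nat_lit 8) (.nd (nat_lit 9) 
(.lf (nat_lit 565426) (.g (nat_lit 3080) (.e (nat_lit 434245) (nat_lit 28) (.e (nat_lit 573481) (nat_lit 13) (.e (nat_lit 65571) (nat_lit 3) (.e (nat_lit 98317) (nat_lit 9) (.e (nat_lit 336293) (nat_lit 15) .nil))))) (.g (nat_lit 0) (.e (nat_lit 329518) (nat_lit 0) .nil) .nil))) 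
(.lf (nat_lit 565938) (.g (nat_lit 3461) (.e (nat_lit 434248) (nat_lit 28) (.e (nat_lit 573471) (nat_lit 11) (.e (nat_lit 16459) (nat_lit 12) (.e (nat_lit 475185) (nat_lit 29) (.e (nat_lit 557098) (nat_lit 13) .nil))))) (.g (nat_lit 0) (.e (nat_lit 330717) (nat_lit 0) .nil) .nil)))) (.nd (nat_lit 9) 
(.lf (nat_lit 565682) (.g (nat_lit 1072) (.e (nat_lit 434247) (nat_lit 28) (.e (nat_lit 573471) (nat_lit 11) (.e (nat_lit 16425) (nat_lit 7) .nil))) (.g (nat_lit 0) (.e (nat_lit 330149) (nat_lit 0) .nil) .nil))) 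
(.lf (nat_lit 566194) (.g (nat_lit 1805) (.e (nat_lit 434269) (nat_lit 36) (.e (nat_lit 639021) (nat_lit 16) (.e (nat_lit 65617) (nat_lit 10) (.e (nat_lit 344157) (nat_lit 36) (.e (nat_lit 638999) (nat_lit 8) (.e (nat_lit 172106) (nat_lit 10) .nil)))))) (.g (nat_lit 1) (.e (nat_lit 331586) (nat_lit 0) .nil) .nil)))))) (.nd (nat_lit 7) (.nd (nat_lit 8) (.nd (nat_lit 9) 
(.lf (nat_lit 565362) (.g (nat_lit 2348) (.e (nat_lit 434245) (nat_lit 28) (.e (nat_lit 573471) (nat_lit 11) (.e (nat_lit 16388) (nat_lit 0) (.e (nat_lit 7536) (nat_lit 402) (.e (nat_lit 1232) (nat_lit 91) .nil))))) (.g (nat_lit 0) (.e (nat_lit 329385) (nat_lit 0) .nil) .nil))) 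
(.lf (nat_lit 565874) (.g (nat_lit 2339) (.e (nat_lit 434247) (nat_lit 28) (.e (nat_lit 573489) (nat_lit 14) (.e (nat_lit 73755) (nat_lit 8) (.e (nat_lit 557119) (nat_lit 18) (.e (nat_lit 2817) (nat_lit 181) .nil))))) (.g (nat_lit 0) (.e (nat_lit 330572) (nat_lit 0) .nil) .nil)))) (.nd (nat_lit 9) 
(.lf (nat_lit 565618) (.g (nat_lit 505) (.e (nat_lit 434246) (nat_lit 28) (.e (nat_lit 573489) (nat_lit 14) (.e (nat_lit 73754) (nat_lit 8) .nil))) (.g (nat_lit 0) (.e (nat_lit 330006) (nat_lit 0) .nil) .nil))) 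
(.lf (nat_lit 566130) (.g (nat_lit 1258) (.e (nat_lit 434266) (nat_lit 35) (.e (nat_lit 630821) (nat_lit 16) (.e (nat_lit 65616) (nat_lit 10) (.e (nat_lit 344157) (nat_lit 36) (.e (nat_lit 638999) (nat_lit 8) (.e (nat_lit 172115) (nat_lit 10) .nil)))))) (.g (nat_lit 1) (.e (nat_lit 331476) (nat_lit 0) .nil) .nil))))) (.nd (nat_lit 8) (.nd (nat_lit 9) 
(.lf (nat_lit 565490) (.g (nat_lit 2450) (.e (nat_lit 434245) (nat_lit 28) (.e (nat_lit 573488) (nat_lit 14) (.e (nat_lit 73755) (nat_lit 8) (.e (nat_lit 557067) (nat_lit 9) (.e (nat_lit 2598) (nat_lit 163) .nil))))) (.g (nat_lit 0) (.e (nat_lit 329696) (nat_lit 0) .nil) .nil))) 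
(.lf (nat_lit 566002) (.g (nat_lit 2586) (.e (nat_lit 434248) (nat_lit 28) (.e (nat_lit 573487) (nat_lit 14) (.e (nat_lit 73746) (nat_lit 3) (.e (nat_lit 516119) (nat_lit 1) (.e (nat_lit 164196) (nat_lit 158) .nil))))) (.g (nat_lit 0) (.e (nat_lit 330965) (nat_lit 0) .nil) .nil)))) (.nd (nat_lit 9) 
(.lf (nat_lit 565746) (.g (nat_lit 789) (.e (nat_lit 434247) (nat_lit 28) (.e (nat_lit 573484) (nat_lit 13) (.e (nat_lit 65550) (nat_lit 0) .nil))) (.g (nat_lit 0) (.e (nat_lit 330256) (nat_lit 0) .nil) .nil))) 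
(.lf (nat_lit 566258) (.g (nat_lit 4164) (.e (nat_lit 434271) (nat_lit 38) (.e (nat_lit 655373) (nat_lit 3) (.e (nat_lit 163979) (nat_lit 30) (.e (nat_lit 573482) (nat_lit 13) (.e (nat_lit 65619) (nat_lit 10) (.e (nat_lit 344117) (nat_lit 21) (.e (nat_lit 516159) (nat_lit 10) .nil))))))) (.g (nat_lit 1) (.e (nat_lit 331851) (nat_lit 0) .nil) .nil))))))))) 
(.nd (nat_lit 4) (.nd (nat_lit 5) (.nd (nat_lit 6) (.nd (nat_lit 7) (.nd (nat_lit 8) 
(.nd (nat_lit 9) 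
(.lf (nat_lit 565258) (.g (nat_lit 1579) (.e (nat_lit 434244) (nat_lit 28) (.e (nat_lit 573469) (nat_lit 11) (.e (nat_lit 16436) (nat_lit 9) (.e (nat_lit 426361) (nat_lit 15) (.e (nat_lit 1860) (nat_lit 124) .nil))))) (.g (nat_lit 0) (.e (nat_lit 329041) (nat_lit 0) .nil) .nil))) 
(.lf (nat_lit 565770) (.g (nat_lit 3042) (.e (nat_lit 434247) (nat_lit 28) (.e (nat_lit 573485) (nat_lit 13) (.e (nat_lit 65568) (nat_lit 2) (.e (nat_lit 90160) (nat_lit 11) (.e (nat_lit 24671) (nat_lit 15) (.e (nat_lit 7936) (nat_lit 195) (.e (nat_lit 516160) (nat_lit 10) .nil))))))) (.g (nat_lit 1) (.e (nat_lit 330319) (nat_lit 0) .nil) .nil)))) (.nd (nat_lit 9) 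
(.lf (nat_lit 565514) (.g (nat_lit 3140) (.e (nat_lit 434245) (nat_lit 28) (.e (nat_lit 573488) (nat_lit 14) (.e (nat_lit 73755) (nat_lit 8) (.e (nat_lit 557090) (nat_lit 12) (.e (nat_lit 163851) (nat_lit 0) (.e (nat_lit 5939) (nat_lit 322) (.e (nat_lit 57379) (nat_lit 3) (.e (nat_lit 98366) (nat_lit 27) .nil)))))))) (.g (nat_lit 1) (.e (nat_lit 329730) (nat_lit 0) .nil) .nil))) 
(.lf (nat_lit 566026) (.g (nat_lit 604) (.e (nat_lit 434248) (nat_lit 28) (.e (nat_lit 573489) (nat_lit 14) (.e (nat_lit 73753) (nat_lit 8) .nil))) (.g (nat_lit 0) (.e (nat_lit 331131) (nat_lit 0) .nil) .nil))))) (.nd (nat_lit 8) (.nd (nat_lit 9) 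
(.lf (nat_lit 565386) (.g (nat_lit 2522) (.e (nat_lit 434245) (nat_lit 28) (.e (nat_lit 573471) (nat_lit 11) (.e (nat_lit 16446) (nat_lit 9) (.e (nat_lit 426139) (nat_lit 3) (.e (nat_lit 204885) (nat_lit 33) .nil))))) (.g (nat_lit 0) (.e (nat_lit 329419) (nat_lit 0) .nil) .nil))) 
(.lf (nat_lit 565898) (.g (nat_lit 3093) (.e (nat_lit 434248) (nat_lit 28) (.e (nat_lit 573471) (nat_lit 11) (.e (nat_lit 16425) (nat_lit 7) (.e (nat_lit 409609) (nat_lit 10) .nil)))) (.g (nat_lit 0) (.e (nat_lit 330632) (nat_lit 0) .nil) .nil)))) (.nd (nat_lit 9) 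
(.lf (nat_lit 565642) (.g (nat_lit 3107) (.e (nat_lit 434246) (nat_lit 28) (.e (nat_lit 573489) (nat_lit 14) (.e (nat_lit 73755) (nat_lit 8) (.e (nat_lit 557090) (nat_lit 12) (.e (nat_lit 164009) (nat_lit 41) .nil))))) (.g (nat_lit 0) (.e (nat_lit 330085) (nat_lit 0) .nil) .nil))) 
(.lf (nat_lit 566154) (.g (nat_lit 953) (.e (nat_lit 434268) (nat_lit 36) (.e (nat_lit 639020) (nat_lit 16) (.e (nat_lit 65586) (nat_lit 7) (.e (nat_lit 319531) (nat_lit 16) .nil)))) (.g (nat_lit 0) (.e (nat_lit 331504) (nat_lit 0) .nil) .nil)))))) (.nd (nat_lit 7) (.nd (nat_lit 8) (.nd (nat_lit 9) 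
(.lf (nat_lit 565322) (.g (nat_lit 1347) (.e (nat_lit 434244) (nat_lit 28) (.e (nat_lit 573488) (nat_lit 14) (.e (nat_lit 73755) (nat_lit 8) (.e (nat_lit 557090) (nat_lit 12) .nil)))) (.g (nat_lit 0) (.e (nat_lit 329294) (nat_lit 0) .nil) .nil))) 
(.lf (nat_lit 565834) (.g (nat_lit 3647) (.e (nat_lit 434247) (nat_lit 28) (.e (nat_lit 573489) (nat_lit 14) (.e (nat_lit 73755) (nat_lit 8) (.e (nat_lit 557090) (nat_lit 12) (.e (nat_lit 163840) (nat_lit 0) (.e (nat_lit 5939) (nat_lit 322) (.e (nat_lit 57379) (nat_lit 3) (.e (nat_lit 98366) (nat_lit 27) .nil)))))))) (.g (nat_lit 1) (.e (nat_lit 330487) (nat_lit 0) .nil) .nil)))) (.nd (nat_lit 9) 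
(.lf (nat_lit 565578) (.g (nat_lit 1712) (.e (nat_lit 434246) (nat_lit 28) (.e (nat_lit 573482) (nat_lit 13) (.e (nat_lit 65568) (nat_lit 2) (.e (nat_lit 90165) (nat_lit 12) .nil)))) (.g (nat_lit 0) (.e (nat_lit 329865) (nat_lit 0) .nil) .nil))) 
(.lf (nat_lit 566090) (.g (nat_lit 1472) (.e (nat_lit 434241) (nat_lit 27) (.e (nat_lit 565267) (nat_lit 4) (.e (nat_lit 65610) (nat_lit 10) (.e (nat_lit 344090) (nat_lit 18) (.e (nat_lit 7708) (nat_lit 414) .nil))))) (.g (nat_lit 0) (.e (nat_lit 331415) (nat_lit 0) .nil) .nil))))) (.nd (nat_lit 8) (.nd (nat_lit 9) 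
(.lf (nat_lit 565450) (.g (nat_lit 2493) (.e (nat_lit 434245) (nat_lit 28) (.e (nat_lit 573487) (nat_lit 14) (.e (nat_lit 73753) (nat_lit 8) (.e (nat_lit 557084) (nat_lit 10) (.e (nat_lit 8358) (nat_lit 88) .nil))))) (.g (nat_lit 0) (.e (nat_lit 329590) (nat_lit 0) .nil) .nil))) 
(.lf (nat_lit 565962) (.g (nat_lit 1874) (.e (nat_lit 434248) (nat_lit 28) (.e (nat_lit 573474) (nat_lit 12) (.e (nat_lit 57572) (nat_lit 54) (.e (nat_lit 770071) (nat_lit 8) .nil)))) (.g (nat_lit 0) (.e (nat_lit 330742) (nat_lit 0) .nil) .nil)))) (.nd (nat_lit 9) 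
(.lf (nat_lit 565706) (.g (nat_lit 4081) (.e (nat_lit 434247) (nat_lit 28) (.e (nat_lit 573477) (nat_lit 12) (.e (nat_lit 57574) (nat_lit 55) (.e (nat_lit 778466) (nat_lit 11) (.e (nat_lit 24604) (nat_lit 2) (.e (nat_lit 90167) (nat_lit 13) (.e (nat_lit 172111) (nat_lit 10) .nil))))))) (.g (nat_lit 1) (.e (nat_lit 330183) (nat_lit 0) .nil) .nil))) 
(.lf (nat_lit 566218) (.g (nat_lit 3306) (.e (nat_lit 434275) (nat_lit 39) (.e (nat_lit 663589) (nat_lit 14) (.e (nat_lit 2808) (nat_lit 180) (.e (nat_lit 303146) (nat_lit 14) (.e (nat_lit 491570) (nat_lit 13) (.e (nat_lit 393282) (nat_lit 24) .nil)))))) (.g (nat_lit 1) (.e (nat_lit 331725) (nat_lit 0) .nil) .nil))))))) (.nd (nat_lit 6) (.nd (nat_lit 7) (.nd (nat_lit 8) (.nd (nat_lit 9) 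
(.lf (nat_lit 565290) (.g (nat_lit 579) (.e (nat_lit 434244) (nat_lit 28) (.e (nat_lit 573474) (nat_lit 12) (.e (nat_lit 57570) (nat_lit 54) .nil))) (.g (nat_lit 0) (.e (nat_lit 329133) (nat_lit 0) .nil) .nil))) 
(.lf (nat_lit 565802) (.g (nat_lit 2604) (.e (nat_lit 434247) (nat_lit 28) (.e (nat_lit 573489) (nat_lit 14) (.e (nat_lit 73755) (nat_lit 8) (.e (nat_lit 557056) (nat_lit 0) .nil)))) (.g (nat_lit 0) (.e (nat_lit 330412) (nat_lit 0) .nil) .nil)))) (.nd (nat_lit 9) 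
(.lf (nat_lit 565546) (.g (nat_lit 2435) (.e (nat_lit 434246) (nat_lit 28) (.e (nat_lit 573469) (nat_lit 11) (.e (nat_lit 16435) (nat_lit 9) (.e (nat_lit 426131) (nat_lit 3) (.e (nat_lit 204885) (nat_lit 33) .nil))))) (.g (nat_lit 0) (.e (nat_lit 329819) (nat_lit 0) .nil) .nil))) 
(.lf (nat_lit 566058) (.g (nat_lit 3252) (.e (nat_lit 434248) (nat_lit 28) (.e (nat_lit 573489) (nat_lit 14) (.e (nat_lit 73755) (nat_lit 8) (.e (nat_lit 557090) (nat_lit 12) (.e (nat_lit 163841) (nat_lit 0) (.e (nat_lit 5943) (nat_lit 322) (.e (nat_lit 57379) (nat_lit 3) (.e (nat_lit 98368) (nat_lit 27) .nil)))))))) (.g (nat_lit 1) (.e (nat_lit 331228) (nat_lit 0) .nil) .nil))))) 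
(.nd (nat_lit 8) (.nd (nat_lit 9) 
(.lf (nat_lit 565418) (.g (nat_lit 2685) (.e (nat_lit 434245) (nat_lit 28) (.e (nat_lit 573481) (nat_lit 13) (.e (nat_lit 65569) (nat_lit 3) (.e (nat_lit 98317) (nat_lit 9) (.e (nat_lit 336293) (nat_lit 15) (.e (nat_lit 7936) (nat_lit 195) (.e (nat_lit 516160) (nat_lit 10) .nil))))))) (.g (nat_lit 1) (.e (nat_lit 329492) (nat_lit 0) .nil) .nil))) 
(.lf (nat_lit 565930) (.g (nat_lit 2323) (.e (nat_lit 434248) (nat_lit 28) (.e (nat_lit 573471) (nat_lit 11) (.e (nat_lit 16448) (nat_lit 10) (.e (nat_lit 434234) (nat_lit 23) .nil)))) (.g (nat_lit 0) (.e (nat_lit 330702) (nat_lit 0) .nil) .nil)))) (.nd (nat_lit 9) 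
(.lf (nat_lit 565674) (.g (nat_lit 2962) (.e (nat_lit 434247) (nat_lit 28) (.e (nat_lit 573469) (nat_lit 11) (.e (nat_lit 16448) (nat_lit 10) (.e (nat_lit 434231) (nat_lit 23) (.e (nat_lit 532569) (nat_lit 16) .nil))))) (.g (nat_lit 0) (.e (nat_lit 330141) (nat_lit 0) .nil) .nil))) 
(.lf (nat_lit 566186) (.g (nat_lit 1619) (.e (nat_lit 434269) (nat_lit 36) (.e (nat_lit 639020) (nat_lit 16) (.e (nat_lit 65598) (nat_lit 9) (.e (nat_lit 335997) (nat_lit 1) (.e (nat_lit 57857) (nat_lit 254) .nil))))) (.g (nat_lit 0) (.e (nat_lit 331567) (nat_lit 0) .nil) .nil)))))) (.nd (nat_lit 7) (.nd (nat_lit 8) (.nd (nat_lit 9) 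
(.lf (nat_lit 565354) (.g (nat_lit 1132) (.e (nat_lit 434245) (nat_lit 28) (.e (nat_lit 573469) (nat_lit 11) (.e (nat_lit 16471) (nat_lit 14) (.e (nat_lit 491535) (nat_lit 2) .nil)))) (.g (nat_lit 0) (.e (nat_lit 329376) (nat_lit 0) .nil) .nil))) 
(.lf (nat_lit 565866) (.g (nat_lit 2557) (.e (nat_lit 434247) (nat_lit 28) (.e (nat_lit 573489) (nat_lit 14) (.e (nat_lit 73755) (nat_lit 8) (.e (nat_lit 557094) (nat_lit 12) .nil)))) (.g (nat_lit 0) (.e (nat_lit 330563) (nat_lit 0) .nil) .nil)))) (.nd (nat_lit 9) 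
(.lf (nat_lit 565610) (.g (nat_lit 2335) (.e (nat_lit 434246) (nat_lit 28) (.e (nat_lit 573487) (nat_lit 14) (.e (nat_lit 73753) (nat_lit 8) (.e (nat_lit 557090) (nat_lit 12) (.e (nat_lit 164007) (nat_lit 41) .nil))))) (.g (nat_lit 0) (.e (nat_lit 329981) (nat_lit 0) .nil) .nil))) 
(.lf (nat_lit 566122) (.g (nat_lit 1107) (.e (nat_lit 434266) (nat_lit 35) (.e (nat_lit 630821) (nat_lit 16) (.e (nat_lit 65586) (nat_lit 7) (.e (nat_lit 319527) (nat_lit 15) (.e (nat_lit 278547) (nat_lit 8) (.e (nat_lit 303137) (nat_lit 10) .nil)))))) (.g (nat_lit 1) (.e (nat_lit 331468) (nat_lit 0) .nil) .nil))))) (.nd (nat_lit 8) (.nd (nat_lit 9) 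
(.lf (nat_lit 565482) (.g (nat_lit 1907) (.e (nat_lit 434245) (nat_lit 28) (.e (nat_lit 573488) (nat_lit 14) (.e (nat_lit 73747) (nat_lit 3) (.e (nat_lit 516119) (nat_lit 1) (.e (nat_lit 171776) (nat_lit 160) .nil))))) (.g (nat_lit 0) (.e (nat_lit 329679) (nat_lit 0) .nil) .nil))) 
(.lf (nat_lit 565994) (.g (nat_lit 414) (.e (nat_lit 434248) (nat_lit 28) (.e (nat_lit 573482) (nat_lit 13) (.e (nat_lit 65644) (nat_lit 22) .nil))) (.g (nat_lit 0) (.e (nat_lit 330936) (nat_lit 0) .nil) .nil)))) (.nd (nat_lit 9) 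
(.lf (nat_lit 565738) (.g (nat_lit 2022) (.e (nat_lit 434247) (nat_lit 28) (.e (nat_lit 573478) (nat_lit 12) (.e (nat_lit 57574) (nat_lit 55) (.e (nat_lit 778465) (nat_lit 11) (.e (nat_lit 24603) (nat_lit 2) (.e (nat_lit 90169) (nat_lit 13) (.e (nat_lit 172111) (nat_lit 10) .nil))))))) (.g (nat_lit 1) (.e (nat_lit 330231) (nat_lit 0) .nil) .nil))) 
(.lf (nat_lit 566250) (.g (nat_lit 1442) (.e (nat_lit 434270) (nat_lit 38) (.e (nat_lit 655378) (nat_lit 4) (.e (nat_lit 172126) (nat_lit 14) (.e (nat_lit 491570) (nat_lit 13) .nil)))) (.g (nat_lit 0) (.e (nat_lit 331839) (nat_lit 0) .nil) .nil)))))))) (.nd (nat_lit 5) (.nd (nat_lit 6) (.nd (nat_lit 7) (.nd (nat_lit 8) (.nd (nat_lit 9) 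
(.lf (nat_lit 565274) (.g (nat_lit 3175) (.e (nat_lit 434244) (nat_lit 28) (.e (nat_lit 573471) (nat_lit 11) (.e (nat_lit 16433) (nat_lit 9) (.e (nat_lit 426395) (nat_lit 15) .nil)))) (.g (nat_lit 0) (.e (nat_lit 329096) (nat_lit 0) .nil) .nil))) 
(.lf (nat_lit 565786) (.g (nat_lit 1425) (.e (nat_lit 434247) (nat_lit 28) (.e (nat_lit 573487) (nat_lit 14) (.e (nat_lit 73753) (nat_lit 8) (.e (nat_lit 557057) (nat_lit 0) .nil)))) (.g (nat_lit 0) (.e (nat_lit 330367) (nat_lit 0) .nil) .nil)))) (.nd (nat_lit 9) 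
(.lf (nat_lit 565530) (.g (nat_lit 2682) (.e (nat_lit 434245) (nat_lit 28) (.e (nat_lit 573488) (nat_lit 14) (.e (nat_lit 73755) (nat_lit 8) (.e (nat_lit 557091) (nat_lit 12) (.e (nat_lit 164004) (nat_lit 41) .nil))))) (.g (nat_lit 0) (.e (nat_lit 329770) (nat_lit 0) .nil) .nil))) 
(.lf (nat_lit 566042) (.g (nat_lit 2881) (.e (nat_lit 434248) (nat_lit 28) (.e (nat_lit 573489) (nat_lit 14) (.e (nat_lit 73755) (nat_lit 8) (.e (nat_lit 557067) (nat_lit 9) (.e (nat_lit 2604) (nat_lit 163) .nil))))) (.g (nat_lit 0) (.e (nat_lit 331180) (nat_lit 0) .nil) .nil))))) (.nd (nat_lit 8) (.nd (nat_lit 9) 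
(.lf (nat_lit 565402) (.g (nat_lit 2697) (.e (nat_lit 434245) (nat_lit 28) (.e (nat_lit 573474) (nat_lit 12) (.e (nat_lit 57574) (nat_lit 55) (.e (nat_lit 778466) (nat_lit 11) (.e (nat_lit 24604) (nat_lit 2) (.e (nat_lit 90167) (nat_lit 13) (.e (nat_lit 172107) (nat_lit 10) .nil))))))) (.g (nat_lit 1) (.e (nat_lit 329441) (nat_lit 0) .nil) .nil))) 
(.lf (nat_lit 565914) (.g (nat_lit 2500) (.e (nat_lit 434248) (nat_lit 28) (.e (nat_lit 573471) (nat_lit 11) (.e (nat_lit 16433) (nat_lit 9) (.e (nat_lit 426360) (nat_lit 15) (.e (nat_lit 1849) (nat_lit 124) .nil))))) (.g (nat_lit 0) (.e (nat_lit 330655) (nat_lit 0) .nil) .nil)))) (.nd (nat_lit 9) 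
(.lf (nat_lit 565658) (.g (nat_lit 1767) (.e (nat_lit 434247) (nat_lit 28) (.e (nat_lit 573450) (nat_lit 9) (.e (nat_lit 411) (nat_lit 32) (.e (nat_lit 426340) (nat_lit 14) (.e (nat_lit 491537) (nat_lit 2) .nil))))) (.g (nat_lit 0) (.e (nat_lit 330122) (nat_lit 0) .nil) .nil))) 
(.lf (nat_lit 566170) (.g (nat_lit 2770) (.e (nat_lit 434268) (nat_lit 36) (.e (nat_lit 639020) (nat_lit 16) (.e (nat_lit 65617) (nat_lit 10) (.e (nat_lit 344156) (nat_lit 36) (.e (nat_lit 638998) (nat_lit 8) (.e (nat_lit 172112) (nat_lit 10) .nil)))))) (.g (nat_lit 1) (.e (nat_lit 331528) (nat_lit 0) .nil) .nil)))))) (.nd (nat_lit 7) (.nd (nat_lit 8) (.nd (nat_lit 9) 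
(.lf (nat_lit 565338) (.g (nat_lit 2832) (.e (nat_lit 434244) (nat_lit 28) (.e (nat_lit 573488) (nat_lit 14) (.e (nat_lit 73755) (nat_lit 8) (.e (nat_lit 557091) (nat_lit 12) (.e (nat_lit 164007) (nat_lit 41) .nil))))) (.g (nat_lit 0) (.e (nat_lit 329328) (nat_lit 0) .nil) .nil))) 
(.lf (nat_lit 565850) (.g (nat_lit 902) (.e (nat_lit 434247) (nat_lit 28) (.e (nat_lit 573489) (nat_lit 14) (.e (nat_lit 73755) (nat_lit 8) (.e (nat_lit 557091) (nat_lit 12) .nil)))) (.g (nat_lit 0) (.e (nat_lit 330527) (nat_lit 0) .nil) .nil)))) (.nd (nat_lit 9) 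
(.lf (nat_lit 565594) (.g (nat_lit 2038) (.e (nat_lit 434246) (nat_lit 28) (.e (nat_lit 573484) (nat_lit 13) (.e (nat_lit 65571) (nat_lit 3) (.e (nat_lit 98325) (nat_lit 17) (.e (nat_lit 3579) (nat_lit 223) .nil))))) (.g (nat_lit 0) (.e (nat_lit 329913) (nat_lit 0) .nil) .nil))) 
(.lf (nat_lit 566106) (.g (nat_lit 325) (.e (nat_lit 434241) (nat_lit 27) (.e (nat_lit 565269) (nat_lit 6) (.e (nat_lit 81943) (nat_lit 20) .nil))) (.g (nat_lit 0) (.e (nat_lit 331438) (nat_lit 0) .nil) .nil))))) (.nd (nat_lit 8) (.nd (nat_lit 9) 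
(.lf (nat_lit 565466) (.g (nat_lit 2504) (.e (nat_lit 434245) (nat_lit 28) (.e (nat_lit 573487) (nat_lit 14) (.e (nat_lit 73753) (nat_lit 8) (.e (nat_lit 557091) (nat_lit 12) (.e (nat_lit 163844) (nat_lit 0) .nil))))) (.g (nat_lit 0) (.e (nat_lit 329623) (nat_lit 0) .nil) .nil))) 
(.lf (nat_lit 565978) (.g (nat_lit 3039) (.e (nat_lit 434248) (nat_lit 28) (.e (nat_lit 573482) (nat_lit 13) (.e (nat_lit 65568) (nat_lit 2) (.e (nat_lit 90160) (nat_lit 11) (.e (nat_lit 24668) (nat_lit 15) .nil))))) (.g (nat_lit 0) (.e (nat_lit 330820) (nat_lit 0) .nil) .nil)))) (.nd (nat_lit 9) 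
(.lf (nat_lit 565722) (.g (nat_lit 2301) (.e (nat_lit 434247) (nat_lit 28) (.e (nat_lit 573477) (nat_lit 12) (.e (nat_lit 57575) (nat_lit 55) (.e (nat_lit 778466) (nat_lit 11) (.e (nat_lit 32512) (nat_lit 3) .nil))))) (.g (nat_lit 0) (.e (nat_lit 330199) (nat_lit 0) .nil) .nil))) 
(.lf (nat_lit 566234) (.g (nat_lit 2613) (.e (nat_lit 434279) (nat_lit 39) (.e (nat_lit 663583) (nat_lit 11) (.e (nat_lit 24640) (nat_lit 10) (.e (nat_lit 344156) (nat_lit 36) (.e (nat_lit 638999) (nat_lit 8) (.e (nat_lit 172113) (nat_lit 10) .nil)))))) (.g (nat_lit 1) (.e (nat_lit 331795) (nat_lit 0) .nil) .nil))))))) (.nd (nat_lit 6) (.nd (nat_lit 7) (.nd (nat_lit 8) (.nd (nat_lit 9) 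
(.lf (nat_lit 565306) (.g (nat_lit 2456) (.e (nat_lit 434244) (nat_lit 28) (.e (nat_lit 573487) (nat_lit 14) (.e (nat_lit 73746) (nat_lit 3) (.e (nat_lit 516119) (nat_lit 1) (.e (nat_lit 164195) (nat_lit 158) .nil))))) (.g (nat_lit 0) (.e (nat_lit 329219) (nat_lit 0) .nil) .nil))) 
(.lf (nat_lit 565818) (.g (nat_lit 2681) (.e (nat_lit 434247) (nat_lit 28) (.e (nat_lit 573489) (nat_lit 14) (.e (nat_lit 73755) (nat_lit 8) (.e (nat_lit 557078) (nat_lit 9) .nil)))) (.g (nat_lit 0) (.e (nat_lit 330455) (nat_lit 0) .nil) .nil)))) (.nd (nat_lit 9) 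
(.lf (nat_lit 565562) (.g (nat_lit 1940) (.e (nat_lit 434246) (nat_lit 28) (.e (nat_lit 573471) (nat_lit 11) (.e (nat_lit 16470) (nat_lit 14) (.e (nat_lit 491537) (nat_lit 2) .nil)))) (.g (nat_lit 0) (.e (nat_lit 329839) (nat_lit 0) .nil) .nil))) 
(.lf (nat_lit 566074) (.g (nat_lit 2683) (.e (nat_lit 434248) (nat_lit 28) (.e (nat_lit 573489) (nat_lit 14) (.e (nat_lit 73755) (nat_lit 8) (.e (nat_lit 557092) (nat_lit 12) .nil)))) (.g (nat_lit 0) (.e (nat_lit 331349) (nat_lit 0) .nil) .nil))))) (.nd (nat_lit 8) (.nd (nat_lit 9) 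
(.lf (nat_lit 565434) (.g (nat_lit 472) (.e (nat_lit 434245) (nat_lit 28) (.e (nat_lit 573487) (nat_lit 14) (.e (nat_lit 81664) (nat_lit 1) .nil))) (.g (nat_lit 0) (.e (nat_lit 329559) (nat_lit 0) .nil) .nil))) 
(.lf (nat_lit 565946) (.g (nat_lit 4369) (.e (nat_lit 434248) (nat_lit 28) (.e (nat_lit 573471) (nat_lit 11) (.e (nat_lit 16470) (nat_lit 14) (.e (nat_lit 491536) (nat_lit 2) (.e (nat_lit 90170) (nat_lit 13) .nil))))) (.g (nat_lit 0) (.e (nat_lit 330725) (nat_lit 0) .nil) .nil)))) (.nd (nat_lit 9) 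
(.lf (nat_lit 565690) (.g (nat_lit 570) (.e (nat_lit 434247) (nat_lit 28) (.e (nat_lit 573471) (nat_lit 11) (.e (nat_lit 16470) (nat_lit 14) .nil))) (.g (nat_lit 0) (.e (nat_lit 330164) (nat_lit 0) .nil) .nil))) 
(.lf (nat_lit 566202) (.g (nat_lit 1094) (.e (nat_lit 434273) (nat_lit 39) (.e (nat_lit 663567) (nat_lit 4) (.e (nat_lit 65651) (nat_lit 27) (.e (nat_lit 426199) (nat_lit 9) (.e (nat_lit 426131) (nat_lit 3) .nil))))) (.g (nat_lit 0) (.e (nat_lit 331598) (nat_lit 0) .nil) .nil)))))) (.nd (nat_lit 7) (.nd (nat_lit 8) (.nd (nat_lit 9) 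
(.lf (nat_lit 565370) (.g (nat_lit 1559) (.e (nat_lit 434245) (nat_lit 28) (.e (nat_lit 573471) (nat_lit 11) (.e (nat_lit 16425) (nat_lit 7) (.e (nat_lit 409622) (nat_lit 10) .nil)))) (.g (nat_lit 0) (.e (nat_lit 329400) (nat_lit 0) .nil) .nil))) 
(.lf (nat_lit 565882) (.g (nat_lit 2043) (.e (nat_lit 434248) (nat_lit 28) (.e (nat_lit 573450) (nat_lit 9) (.e (nat_lit 457) (nat_lit 34) (.e (nat_lit 442379) (nat_lit 0) (.e (nat_lit 1856) (nat_lit 124) .nil))))) (.g (nat_lit 0) (.e (nat_lit 330598) (nat_lit 0) .nil) .nil)))) (.nd (nat_lit 9) 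
(.lf (nat_lit 565626) (.g (nat_lit 1475) (.e (nat_lit 434246) (nat_lit 28) (.e (nat_lit 573489) (nat_lit 14) (.e (nat_lit 73755) (nat_lit 8) (.e (nat_lit 557089) (nat_lit 12) .nil)))) (.g (nat_lit 0) (.e (nat_lit 330047) (nat_lit 0) .nil) .nil))) 
(.lf (nat_lit 566138) (.g (nat_lit 1327) (.e (nat_lit 434266) (nat_lit 35) (.e (nat_lit 630821) (nat_lit 16) (.e (nat_lit 65620) (nat_lit 10) (.e (nat_lit 344157) (nat_lit 36) (.e (nat_lit 638999) (nat_lit 8) (.e (nat_lit 172115) (nat_lit 10) .nil)))))) (.g (nat_lit 1) (.e (nat_lit 331484) (nat_lit 0) .nil) .nil))))) (.nd (nat_lit 8) (.nd (nat_lit 9) 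
(.lf (nat_lit 565498) (.g (nat_lit 2077) (.e (nat_lit 434245) (nat_lit 28) (.e (nat_lit 573488) (nat_lit 14) (.e (nat_lit 73755) (nat_lit 8) (.e (nat_lit 557089) (nat_lit 12) (.e (nat_lit 164007) (nat_lit 41) .nil))))) (.g (nat_lit 0) (.e (nat_lit 329706) (nat_lit 0) .nil) .nil))) 
(.lf (nat_lit 566010) (.g (nat_lit 436) (.e (nat_lit 434248) (nat_lit 28) (.e (nat_lit 573487) (nat_lit 14) (.e (nat_lit 73753) (nat_lit 8) .nil))) (.g (nat_lit 0) (.e (nat_lit 331018) (nat_lit 0) .nil) .nil)))) (.nd (nat_lit 9) 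
(.lf (nat_lit 565754) (.g (nat_lit 415) (.e (nat_lit 434247) (nat_lit 28) (.e (nat_lit 573484) (nat_lit 13) (.e (nat_lit 65569) (nat_lit 3) .nil))) (.g (nat_lit 0) (.e (nat_lit 330271) (nat_lit 0) .nil) .nil))) 
(.lf (nat_lit 566266) (.g (nat_lit 3865) (.e (nat_lit 434271) (nat_lit 38) (.e (nat_lit 655375) (nat_lit 3) (.e (nat_lit 163978) (nat_lit 30) (.e (nat_lit 573481) (nat_lit 13) (.e (nat_lit 65619) (nat_lit 10) (.e (nat_lit 344117) (nat_lit 21) (.e (nat_lit 516160) (nat_lit 10) .nil))))))) (.g (nat_lit 1) (.e (nat_lit 331860) (nat_lit 0) .nil) .nil)))))))))) 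
(.nd (nat_lit 3) (.nd (nat_lit 4) (.nd (nat_lit 5) (.nd (nat_lit 6) (.nd (nat_lit 7) 
(.nd (nat_lit 8) (.nd (nat_lit 9) 
(.lf (nat_lit 565254) (.g (nat_lit 4124) (.e (nat_lit 434244) (nat_lit 28) (.e (nat_lit 573458) (nat_lit 9) (.e (nat_lit 426) (nat_lit 32) (.e (nat_lit 426190) (nat_lit 9) (.e (nat_lit 426354) (nat_lit 15) (.e (nat_lit 1860) (nat_lit 124) (.e (nat_lit 557101) (nat_lit 13) (.e (nat_lit 172115) (nat_lit 10) .nil)))))))) (.g (nat_lit 1) (.e (nat_lit 329037) (nat_lit 0) .nil) .nil))) 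
(.lf (nat_lit 565766) (.g (nat_lit 2750) (.e (nat_lit 434247) (nat_lit 28) (.e (nat_lit 573485) (nat_lit 13) (.e (nat_lit 65567) (nat_lit 2) (.e (nat_lit 90160) (nat_lit 11) (.e (nat_lit 24669) (nat_lit 15) (.e (nat_lit 7936) (nat_lit 195) (.e (nat_lit 516160) (nat_lit 10) .nil))))))) (.g (nat_lit 1) (.e (nat_lit 330312) (nat_lit 0) .nil) .nil)))) (.nd (nat_lit 9) 
(.lf (nat_lit 565510) (.g (nat_lit 3289) (.e (nat_lit 434245) (nat_lit 28) (.e (nat_lit 573488) (nat_lit 14) (.e (nat_lit 73755) (nat_lit 8) (.e (nat_lit 557090) (nat_lit 12) (.e (nat_lit 163843) (nat_lit 0) (.e (nat_lit 5943) (nat_lit 322) (.e (nat_lit 57379) (nat_lit 3) (.e (nat_lit 98368) (nat_lit 27) .nil)))))))) (.g (nat_lit 1) (.e (nat_lit 329722) (nat_lit 0) .nil) .nil))) 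
(.lf (nat_lit 566022) (.g (nat_lit 798) (.e (nat_lit 434248) (nat_lit 28) (.e (nat_lit 573488) (nat_lit 14) (.e (nat_lit 73755) (nat_lit 8) .nil))) (.g (nat_lit 0) (.e (nat_lit 331092) (nat_lit 0) .nil) .nil))))) (.nd (nat_lit 8) (.nd (nat_lit 9) 
(.lf (nat_lit 565382) (.g (nat_lit 1392) (.e (nat_lit 434245) (nat_lit 28) (.e (nat_lit 573471) (nat_lit 11) (.e (nat_lit 16435) (nat_lit 9) (.e (nat_lit 426131) (nat_lit 3) .nil)))) (.g (nat_lit 0) (.e (nat_lit 329414) (nat_lit 0) .nil) .nil))) 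
(.lf (nat_lit 565894) (.g (nat_lit 130) (.e (nat_lit 434248) (nat_lit 28) (.e (nat_lit 573470) (nat_lit 11) (.e (nat_lit 16456) (nat_lit 12) .nil))) (.g (nat_lit 0) (.e (nat_lit 330626) (nat_lit 0) .nil) .nil)))) (.nd (nat_lit 9) 
(.lf (nat_lit 565638) (.g (nat_lit 2944) (.e (nat_lit 434246) (nat_lit 28) (.e (nat_lit 573489) (nat_lit 14) (.e (nat_lit 73755) (nat_lit 8) (.e (nat_lit 557090) (nat_lit 12) (.e (nat_lit 164004) (nat_lit 41) .nil))))) (.g (nat_lit 0) (.e (nat_lit 330078) (nat_lit 0) .nil) .nil))) 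
(.lf (nat_lit 566150) (.g (nat_lit 2404) (.e (nat_lit 434268) (nat_lit 36) (.e (nat_lit 639020) (nat_lit 16) (.e (nat_lit 65583) (nat_lit 7) (.e (nat_lit 319530) (nat_lit 16) (.e (nat_lit 286727) (nat_lit 0) (.e (nat_lit 6680) (nat_lit 357) (.e (nat_lit 2958) (nat_lit 185) .nil))))))) (.g (nat_lit 1) (.e (nat_lit 331500) (nat_lit 0) .nil) .nil)))))) 
(.nd (nat_lit 7) (.nd (nat_lit 8) (.nd (nat_lit 9) 
(.lf (nat_lit 565318) (.g (nat_lit 569) (.e (nat_lit 434244) (nat_lit 28) (.e (nat_lit 573488) (nat_lit 14) (.e (nat_lit 73729) (nat_lit 0) .nil))) (.g (nat_lit 0) (.e (nat_lit 329267) (nat_lit 0) .nil) .nil))) 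
(.lf (nat_lit 565830) (.g (nat_lit 2174) (.e (nat_lit 434247) (nat_lit 28) (.e (nat_lit 573489) (nat_lit 14) (.e (nat_lit 73755) (nat_lit 8) (.e (nat_lit 557089) (nat_lit 12) (.e (nat_lit 164010) (nat_lit 41) .nil))))) (.g (nat_lit 0) (.e (nat_lit 330482) (nat_lit 0) .nil) .nil)))) (.nd (nat_lit 9) 
(.lf (nat_lit 565574) (.g (nat_lit 2930) (.e (nat_lit 434246) (nat_lit 28) (.e (nat_lit 573482) (nat_lit 13) (.e (nat_lit 65568) (nat_lit 2) (.e (nat_lit 90128) (nat_lit 9) (.e (nat_lit 344) (nat_lit 27) .nil))))) (.g (nat_lit 0) (.e (nat_lit 329861) (nat_lit 0) .nil) .nil))) 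
(.lf (nat_lit 566086) (.g (nat_lit 2523) (.e (nat_lit 442112) (nat_lit 28) (.e (nat_lit 573471) (nat_lit 11) (.e (nat_lit 16425) (nat_lit 7) (.e (nat_lit 409623) (nat_lit 10) .nil)))) (.g (nat_lit 0) (.e (nat_lit 331406) (nat_lit 0) .nil) .nil))))) (.nd (nat_lit 8) (.nd (nat_lit 9) 
(.lf (nat_lit 565446) (.g (nat_lit 2467) (.e (nat_lit 434245) (nat_lit 28) (.e (nat_lit 573487) (nat_lit 14) (.e (nat_lit 73747) (nat_lit 3) (.e (nat_lit 516119) (nat_lit 1) (.e (nat_lit 164196) (nat_lit 158) .nil))))) (.g (nat_lit 0) (.e (nat_lit 329574) (nat_lit 0) .nil) .nil))) 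
(.lf (nat_lit 565958) (.g (nat_lit 2623) (.e (nat_lit 434248) (nat_lit 28) (.e (nat_lit 573471) (nat_lit 11) (.e (nat_lit 16473) (nat_lit 14) (.e (nat_lit 491539) (nat_lit 3) (.e (nat_lit 98359) (nat_lit 26) .nil))))) (.g (nat_lit 0) (.e (nat_lit 330737) (nat_lit 0) .nil) .nil)))) (.nd (nat_lit 9) 
(.lf (nat_lit 565702) (.g (nat_lit 1548) (.e (nat_lit 434247) (nat_lit 28) (.e (nat_lit 573477) (nat_lit 12) (.e (nat_lit 57574) (nat_lit 55) (.e (nat_lit 778464) (nat_lit 11) (.e (nat_lit 24603) (nat_lit 2) (.e (nat_lit 90169) (nat_lit 13) (.e (nat_lit 172111) (nat_lit 10) .nil))))))) (.g (nat_lit 1) (.e (nat_lit 330177) (nat_lit 0) .nil) .nil))) 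
(.lf (nat_lit 566214) (.g (nat_lit 2290) (.e (nat_lit 434275) (nat_lit 39) (.e (nat_lit 663585) (nat_lit 12) (.e (nat_lit 163977) (nat_lit 30) (.e (nat_lit 573470) (nat_lit 11) (.e (nat_lit 16465) (nat_lit 13) (.e (nat_lit 491264) (nat_lit 10) .nil)))))) (.g (nat_lit 1) (.e (nat_lit 331680) (nat_lit 0) .nil) .nil))))))) (.nd (nat_lit 6) (.nd (nat_lit 7) (.nd (nat_lit 8) (.nd (nat_lit 9) 
(.lf (nat_lit 565286) (.g (nat_lit 3136) (.e (nat_lit 434244) (nat_lit 28) (.e (nat_lit 573471) (nat_lit 11) (.e (nat_lit 16473) (nat_lit 14) (.e (nat_lit 491526) (nat_lit 0) (.e (nat_lit 1698) (nat_lit 117) .nil))))) (.g (nat_lit 0) (.e (nat_lit 329125) (nat_lit 0) .nil) .nil))) 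
(.lf (nat_lit 565798) (.g (nat_lit 1706) (.e (nat_lit 434247) (nat_lit 28) (.e (nat_lit 573489) (nat_lit 14) (.e (nat_lit 73754) (nat_lit 8) (.e (nat_lit 557063) (nat_lit 0) .nil)))) (.g (nat_lit 0) (.e (nat_lit 330401) (nat_lit 0) .nil) .nil)))) (.nd (nat_lit 9) 
(.lf (nat_lit 565542) (.g (nat_lit 2619) (.e (nat_lit 434245) (nat_lit 28) (.e (nat_lit 573489) (nat_lit 14) (.e (nat_lit 73755) (nat_lit 8) (.e (nat_lit 557091) (nat_lit 12) .nil)))) (.g (nat_lit 0) (.e (nat_lit 329806) (nat_lit 0) .nil) .nil))) 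
(.lf (nat_lit 566054) (.g (nat_lit 1601) (.e (nat_lit 434248) (nat_lit 28) (.e (nat_lit 573489) (nat_lit 14) (.e (nat_lit 73755) (nat_lit 8) (.e (nat_lit 557090) (nat_lit 12) .nil)))) (.g (nat_lit 0) (.e (nat_lit 331223) (nat_lit 0) .nil) .nil))))) (.nd (nat_lit 8) (.nd (nat_lit 9) 
(.lf (nat_lit 565414) (.g (nat_lit 1248) (.e (nat_lit 434245) (nat_lit 28) (.e (nat_lit 573481) (nat_lit 13) (.e (nat_lit 65568) (nat_lit 2) (.e (nat_lit 90202) (nat_lit 21) .nil)))) (.g (nat_lit 0) (.e (nat_lit 329482) (nat_lit 0) .nil) .nil))) 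
(.lf (nat_lit 565926) (.g (nat_lit 572) (.e (nat_lit 434248) (nat_lit 28) (.e (nat_lit 573471) (nat_lit 11) (.e (nat_lit 16439) (nat_lit 9) .nil))) (.g (nat_lit 0) (.e (nat_lit 330689) (nat_lit 0) .nil) .nil)))) (.nd (nat_lit 9) 
(.lf (nat_lit 565670) (.g (nat_lit 2960) (.e (nat_lit 434247) (nat_lit 28) (.e (nat_lit 573457) (nat_lit 9) (.e (nat_lit 430) (nat_lit 32) (.e (nat_lit 426344) (nat_lit 14) (.e (nat_lit 491538) (nat_lit 3) (.e (nat_lit 98359) (nat_lit 26) (.e (nat_lit 426286) (nat_lit 10) .nil))))))) (.g (nat_lit 1) (.e (nat_lit 330135) (nat_lit 0) .nil) .nil))) 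
(.lf (nat_lit 566182) (.g (nat_lit 795) (.e (nat_lit 434269) (nat_lit 36) (.e (nat_lit 639018) (nat_lit 15) (.e (nat_lit 57469) (nat_lit 26) (.e (nat_lit 540703) (nat_lit 11) .nil)))) (.g (nat_lit 0) (.e (nat_lit 331563) (nat_lit 0) .nil) .nil)))))) (.nd (nat_lit 7) (.nd (nat_lit 8) (.nd (nat_lit 9) 
(.lf (nat_lit 565350) (.g (nat_lit 1635) (.e (nat_lit 434245) (nat_lit 28) (.e (nat_lit 573451) (nat_lit 9) (.e (nat_lit 498) (nat_lit 40) (.e (nat_lit 491549) (nat_lit 9) (.e (nat_lit 336324) (nat_lit 18) .nil))))) (.g (nat_lit 0) (.e (nat_lit 329370) (nat_lit 0) .nil) .nil))) 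
(.lf (nat_lit 565862) (.g (nat_lit 2175) (.e (nat_lit 434247) (nat_lit 28) (.e (nat_lit 573489) (nat_lit 14) (.e (nat_lit 73755) (nat_lit 8) (.e (nat_lit 557091) (nat_lit 12) (.e (nat_lit 164012) (nat_lit 42) .nil))))) (.g (nat_lit 0) (.e (nat_lit 330558) (nat_lit 0) .nil) .nil)))) (.nd (nat_lit 9) 
(.lf (nat_lit 565606) (.g (nat_lit 2123) (.e (nat_lit 434246) (nat_lit 28) (.e (nat_lit 573487) (nat_lit 14) (.e (nat_lit 73753) (nat_lit 8) (.e (nat_lit 557089) (nat_lit 12) (.e (nat_lit 164006) (nat_lit 41) .nil))))) (.g (nat_lit 0) (.e (nat_lit 329971) (nat_lit 0) .nil) .nil))) 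
(.lf (nat_lit 566118) (.g (nat_lit 1065) (.e (nat_lit 434266) (nat_lit 35) (.e (nat_lit 630821) (nat_lit 16) (.e (nat_lit 65584) (nat_lit 7) (.e (nat_lit 319527) (nat_lit 15) (.e (nat_lit 278547) (nat_lit 8) (.e (nat_lit 303140) (nat_lit 10) .nil)))))) (.g (nat_lit 1) (.e (nat_lit 331464) (nat_lit 0) .nil) .nil))))) (.nd (nat_lit 8) (.nd (nat_lit 9) 
(.lf (nat_lit 565478) (.g (nat_lit 429) (.e (nat_lit 434245) (nat_lit 28) (.e (nat_lit 573488) (nat_lit 14) (.e (nat_lit 81664) (nat_lit 5) .nil))) (.g (nat_lit 0) (.e (nat_lit 329674) (nat_lit 0) .nil) .nil))) 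
(.lf (nat_lit 565990) (.g (nat_lit 1378) (.e (nat_lit 434248) (nat_lit 28) (.e (nat_lit 573482) (nat_lit 13) (.e (nat_lit 65571) (nat_lit 3) (.e (nat_lit 98325) (nat_lit 17) .nil)))) (.g (nat_lit 0) (.e (nat_lit 330891) (nat_lit 0) .nil) .nil)))) (.nd (nat_lit 9) 
(.lf (nat_lit 565734) (.g (nat_lit 2912) (.e (nat_lit 434247) (nat_lit 28) (.e (nat_lit 573478) (nat_lit 12) (.e (nat_lit 57573) (nat_lit 55) (.e (nat_lit 778469) (nat_lit 11) (.e (nat_lit 24605) (nat_lit 2) (.e (nat_lit 90170) (nat_lit 13) (.e (nat_lit 172113) (nat_lit 10) .nil))))))) (.g (nat_lit 1) (.e (nat_lit 330227) (nat_lit 0) .nil) .nil))) 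
(.lf (nat_lit 566246) (.g (nat_lit 665) (.e (nat_lit 434270) (nat_lit 38) (.e (nat_lit 655376) (nat_lit 4) (.e (nat_lit 172126) (nat_lit 14) (.e (nat_lit 491570) (nat_lit 13) .nil)))) (.g (nat_lit 0) (.e (nat_lit 331831) (nat_lit 0) .nil) .nil)))))))) (.nd (nat_lit 5) (.nd (nat_lit 6) (.nd (nat_lit 7) (.nd (nat_lit 8) (.nd (nat_lit 9) 
(.lf (nat_lit 565270) (.g (nat_lit 3305) (.e (nat_lit 434244) (nat_lit 28) (.e (nat_lit 573471) (nat_lit 11) (.e (nat_lit 16433) (nat_lit 9) (.e (nat_lit 426366) (nat_lit 15) .nil)))) (.g (nat_lit 0) (.e (nat_lit 329092) (nat_lit 0) .nil) .nil))) 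
(.lf (nat_lit 565782) (.g (nat_lit 2340) (.e (nat_lit 434247) (nat_lit 28) (.e (nat_lit 573487) (nat_lit 14) (.e (nat_lit 73746) (nat_lit 3) (.e (nat_lit 516120) (nat_lit 1) (.e (nat_lit 164195) (nat_lit 158) .nil))))) (.g (nat_lit 0) (.e (nat_lit 330360) (nat_lit 0) .nil) .nil)))) (.nd (nat_lit 9) 
(.lf (nat_lit 565526) (.g (nat_lit 2609) (.e (nat_lit 434245) (nat_lit 28) (.e (nat_lit 573488) (nat_lit 14) (.e (nat_lit 73755) (nat_lit 8) (.e (nat_lit 557091) (nat_lit 12) (.e (nat_lit 163840) (nat_lit 0) (.e (nat_lit 5939) (nat_lit 322) (.e (nat_lit 57379) (nat_lit 3) (.e (nat_lit 98366) (nat_lit 27) .nil)))))))) (.g (nat_lit 1) (.e (nat_lit 329766) (nat_lit 0) .nil) .nil))) 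
(.lf (nat_lit 566038) (.g (nat_lit 3447) (.e (nat_lit 434248) (nat_lit 28) (.e (nat_lit 573489) (nat_lit 14) (.e (nat_lit 73755) (nat_lit 8) (.e (nat_lit 557067) (nat_lit 9) (.e (nat_lit 2602) (nat_lit 163) (.e (nat_lit 164399) (nat_lit 256) (.e (nat_lit 57378) (nat_lit 3) (.e (nat_lit 98368) (nat_lit 27) .nil)))))))) (.g (nat_lit 1) (.e (nat_lit 331176) (nat_lit 0) .nil) .nil))))) 
(.nd (nat_lit 8) (.nd (nat_lit 9) 
(.lf (nat_lit 565398) (.g (nat_lit 2831) (.e (nat_lit 434245) (nat_lit 28) (.e (nat_lit 573471) (nat_lit 11) (.e (nat_lit 16473) (nat_lit 14) (.e (nat_lit 491539) (nat_lit 3) (.e (nat_lit 98359) (nat_lit 26) .nil))))) (.g (nat_lit 0) (.e (nat_lit 329436) (nat_lit 0) .nil) .nil))) 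
(.lf (nat_lit 565910) (.g (nat_lit 2936) (.e (nat_lit 434248) (nat_lit 28) (.e (nat_lit 573471) (nat_lit 11) (.e (nat_lit 16433) (nat_lit 9) (.e (nat_lit 425985) (nat_lit 0) .nil)))) (.g (nat_lit 0) (.e (nat_lit 330649) (nat_lit 0) .nil) .nil)))) (.nd (nat_lit 9) 
(.lf (nat_lit 565654) (.g (nat_lit 2674) (.e (nat_lit 434246) (nat_lit 28) (.e (nat_lit 573489) (nat_lit 14) (.e (nat_lit 73755) (nat_lit 8) (.e (nat_lit 557119) (nat_lit 18) (.e (nat_lit 2795) (nat_lit 180) .nil))))) (.g (nat_lit 0) (.e (nat_lit 330109) (nat_lit 0) .nil) .nil))) 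
(.lf (nat_lit 566166) (.g (nat_lit 1621) (.e (nat_lit 434268) (nat_lit 36) (.e (nat_lit 639020) (nat_lit 16) (.e (nat_lit 65616) (nat_lit 10) (.e (nat_lit 344156) (nat_lit 36) (.e (nat_lit 638998) (nat_lit 8) (.e (nat_lit 172105) (nat_lit 10) .nil)))))) (.g (nat_lit 1) (.e (nat_lit 331523) (nat_lit 0) .nil) .nil)))))) (.nd (nat_lit 7) (.nd (nat_lit 8) (.nd (nat_lit 9) 
(.lf (nat_lit 565334) (.g (nat_lit 2684) (.e (nat_lit 434244) (nat_lit 28) (.e (nat_lit 573488) (nat_lit 14) (.e (nat_lit 73755) (nat_lit 8) (.e (nat_lit 557090) (nat_lit 12) (.e (nat_lit 164010) (nat_lit 41) .nil))))) (.g (nat_lit 0) (.e (nat_lit 329316) (nat_lit 0) .nil) .nil))) 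
(.lf (nat_lit 565846) (.g (nat_lit 3375) (.e (nat_lit 434247) (nat_lit 28) (.e (nat_lit 573489) (nat_lit 14) (.e (nat_lit 73755) (nat_lit 8) (.e (nat_lit 557090) (nat_lit 12) (.e (nat_lit 164008) (nat_lit 41) .nil))))) (.g (nat_lit 0) (.e (nat_lit 330521) (nat_lit 0) .nil) .nil)))) (.nd (nat_lit 9) 
(.lf (nat_lit 565590) (.g (nat_lit 3160) (.e (nat_lit 434246) (nat_lit 28) (.e (nat_lit 573484) (nat_lit 13) (.e (nat_lit 65566) (nat_lit 2) (.e (nat_lit 90160) (nat_lit 11) (.e (nat_lit 24671) (nat_lit 15) (.e (nat_lit 7936) (nat_lit 195) (.e (nat_lit 516160) (nat_lit 10) .nil))))))) (.g (nat_lit 1) (.e (nat_lit 329901) (nat_lit 0) .nil) .nil))) 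
(.lf (nat_lit 566102) (.g (nat_lit 323) (.e (nat_lit 434241) (nat_lit 27) (.e (nat_lit 565269) (nat_lit 6) (.e (nat_lit 81935) (nat_lit 20) .nil))) (.g (nat_lit 0) (.e (nat_lit 331434) (nat_lit 0) .nil) .nil))))) (.nd (nat_lit 8) (.nd (nat_lit 9) 
(.lf (nat_lit 565462) (.g (nat_lit 2367) (.e (nat_lit 434245) (nat_lit 28) (.e (nat_lit 573487) (nat_lit 14) (.e (nat_lit 73753) (nat_lit 8) (.e (nat_lit 557090) (nat_lit 12) (.e (nat_lit 164007) (nat_lit 41) .nil))))) (.g (nat_lit 0) (.e (nat_lit 329618) (nat_lit 0) .nil) .nil))) 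
(.lf (nat_lit 565974) (.g (nat_lit 627) (.e (nat_lit 434248) (nat_lit 28) (.e (nat_lit 573482) (nat_lit 13) (.e (nat_lit 65552) (nat_lit 0) .nil))) (.g (nat_lit 0) (.e (nat_lit 330785) (nat_lit 0) .nil) .nil)))) (.nd (nat_lit 9) 
(.lf (nat_lit 565718) (.g (nat_lit 1908) (.e (nat_lit 434247) (nat_lit 28) (.e (nat_lit 573477) (nat_lit 12) (.e (nat_lit 57575) (nat_lit 55) (.e (nat_lit 778466) (nat_lit 11) (.e (nat_lit 24604) (nat_lit 2) .nil))))) (.g (nat_lit 0) (.e (nat_lit 330195) (nat_lit 0) .nil) .nil))) 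
(.lf (nat_lit 566230) (.g (nat_lit 1703) (.e (nat_lit 434278) (nat_lit 39) (.e (nat_lit 663584) (nat_lit 12) (.e (nat_lit 163979) (nat_lit 30) (.e (nat_lit 573470) (nat_lit 11) (.e (nat_lit 16465) (nat_lit 13) .nil))))) (.g (nat_lit 0) (.e (nat_lit 331782) (nat_lit 0) .nil) .nil))))))) (.nd (nat_lit 6) (.nd (nat_lit 7) (.nd (nat_lit 8) (.nd (nat_lit 9) 
(.lf (nat_lit 565302) (.g (nat_lit 2902) (.e (nat_lit 434244) (nat_lit 28) (.e (nat_lit 573481) (nat_lit 13) (.e (nat_lit 65571) (nat_lit 3) (.e (nat_lit 98333) (nat_lit 18) (.e (nat_lit 164196) (nat_lit 158) .nil))))) (.g (nat_lit 0) (.e (nat_lit 329201) (nat_lit 0) .nil) .nil))) 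
(.lf (nat_lit 565814) (.g (nat_lit 1884) (.e (nat_lit 434247) (nat_lit 28) (.e (nat_lit 573489) (nat_lit 14) (.e (nat_lit 73755) (nat_lit 8) (.e (nat_lit 557068) (nat_lit 9) .nil)))) (.g (nat_lit 0) (.e (nat_lit 330442) (nat_lit 0) .nil) .nil)))) (.nd (nat_lit 9) 
(.lf (nat_lit 565558) (.g (nat_lit 3721) (.e (nat_lit 434246) (nat_lit 28) (.e (nat_lit 573471) (nat_lit 11) (.e (nat_lit 16448) (nat_lit 10) (.e (nat_lit 434231) (nat_lit 23) (.e (nat_lit 532569) (nat_lit 16) (.e (nat_lit 401448) (nat_lit 10) .nil)))))) (.g (nat_lit 1) (.e (nat_lit 329834) (nat_lit 0) .nil) .nil))) 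
(.lf (nat_lit 566070) (.g (nat_lit 3036) (.e (nat_lit 434248) (nat_lit 28) (.e (nat_lit 573489) (nat_lit 14) (.e (nat_lit 73755) (nat_lit 8) (.e (nat_lit 557090) (nat_lit 12) (.e (nat_lit 164011) (nat_lit 42) .nil))))) (.g (nat_lit 0) (.e (nat_lit 331298) (nat_lit 0) .nil) .nil))))) (.nd (nat_lit 8) (.nd (nat_lit 9) 
(.lf (nat_lit 565430) (.g (nat_lit 510) (.e (nat_lit 434245) (nat_lit 28) (.e (nat_lit 573481) (nat_lit 13) (.e (nat_lit 65577) (nat_lit 5) .nil))) (.g (nat_lit 0) (.e (nat_lit 329526) (nat_lit 0) .nil) .nil))) 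
(.lf (nat_lit 565942) (.g (nat_lit 3794) (.e (nat_lit 434248) (nat_lit 28) (.e (nat_lit 573471) (nat_lit 11) (.e (nat_lit 16470) (nat_lit 14) (.e (nat_lit 491526) (nat_lit 0) .nil)))) (.g (nat_lit 0) (.e (nat_lit 330721) (nat_lit 0) .nil) .nil)))) (.nd (nat_lit 9) 
(.lf (nat_lit 565686) (.g (nat_lit 3858) (.e (nat_lit 434247) (nat_lit 28) (.e (nat_lit 573471) (nat_lit 11) (.e (nat_lit 16433) (nat_lit 9) (.e (nat_lit 433920) (nat_lit 15) .nil)))) (.g (nat_lit 0) (.e (nat_lit 330154) (nat_lit 0) .nil) .nil))) 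
(.lf (nat_lit 566198) (.g (nat_lit 1846) (.e (nat_lit 434269) (nat_lit 36) (.e (nat_lit 639021) (nat_lit 16) (.e (nat_lit 65619) (nat_lit 10) (.e (nat_lit 344157) (nat_lit 36) (.e (nat_lit 638999) (nat_lit 8) (.e (nat_lit 172113) (nat_lit 10) .nil)))))) (.g (nat_lit 1) (.e (nat_lit 331592) (nat_lit 0) .nil) .nil)))))) (.nd (nat_lit 7) (.nd (nat_lit 8) (.nd (nat_lit 9) 
(.lf (nat_lit 565366) (.g (nat_lit 1904) (.e (nat_lit 434245) (nat_lit 28) (.e (nat_lit 573471) (nat_lit 11) (.e (nat_lit 16425) (nat_lit 7) (.e (nat_lit 409602) (nat_lit 0) .nil)))) (.g (nat_lit 0) (.e (nat_lit 329391) (nat_lit 0) .nil) .nil))) 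
(.lf (nat_lit 565878) (.g (nat_lit 1429) (.e (nat_lit 434248) (nat_lit 28) (.e (nat_lit 573450) (nat_lit 9) (.e (nat_lit 375) (nat_lit 32) (.e (nat_lit 426173) (nat_lit 7) .nil)))) (.g (nat_lit 0) (.e (nat_lit 330594) (nat_lit 0) .nil) .nil)))) (.nd (nat_lit 9) 
(.lf (nat_lit 565622) (.g (nat_lit 1097) (.e (nat_lit 434246) (nat_lit 28) (.e (nat_lit 573489) (nat_lit 14) (.e (nat_lit 73754) (nat_lit 8) (.e (nat_lit 557094) (nat_lit 12) .nil)))) (.g (nat_lit 0) (.e (nat_lit 330011) (nat_lit 0) .nil) .nil))) 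
(.lf (nat_lit 566134) (.g (nat_lit 1615) (.e (nat_lit 434266) (nat_lit 35) (.e (nat_lit 630821) (nat_lit 16) (.e (nat_lit 65617) (nat_lit 10) (.e (nat_lit 344157) (nat_lit 36) (.e (nat_lit 638999) (nat_lit 8) (.e (nat_lit 172115) (nat_lit 10) .nil)))))) (.g (nat_lit 1) (.e (nat_lit 331480) (nat_lit 0) .nil) .nil))))) (.nd (nat_lit 8) (.nd (nat_lit 9) 
(.lf (nat_lit 565494) (.g (nat_lit 2090) (.e (nat_lit 434245) (nat_lit 28) (.e (nat_lit 573488) (nat_lit 14) (.e (nat_lit 73755) (nat_lit 8) (.e (nat_lit 557068) (nat_lit 9) (.e (nat_lit 2598) (nat_lit 163) .nil))))) (.g (nat_lit 0) (.e (nat_lit 329700) (nat_lit 0) .nil) .nil))) 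
(.lf (nat_lit 566006) (.g (nat_lit 2763) (.e (nat_lit 434248) (nat_lit 28) (.e (nat_lit 573487) (nat_lit 14) (.e (nat_lit 73747) (nat_lit 3) (.e (nat_lit 516117) (nat_lit 1) (.e (nat_lit 171776) (nat_lit 160) .nil))))) (.g (nat_lit 0) (.e (nat_lit 330978) (nat_lit 0) .nil) .nil)))) (.nd (nat_lit 9) 
(.lf (nat_lit 565750) (.g (nat_lit 3932) (.e (nat_lit 434247) (nat_lit 28) (.e (nat_lit 573484) (nat_lit 13) (.e (nat_lit 65566) (nat_lit 2) (.e (nat_lit 90160) (nat_lit 11) (.e (nat_lit 24671) (nat_lit 15) (.e (nat_lit 7936) (nat_lit 195) (.e (nat_lit 516160) (nat_lit 10) .nil))))))) (.g (nat_lit 1) (.e (nat_lit 330264) (nat_lit 0) .nil) .nil))) 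
(.lf (nat_lit 566262) (.g (nat_lit 3996) (.e (nat_lit 434271) (nat_lit 38) (.e (nat_lit 655375) (nat_lit 3) (.e (nat_lit 163977) (nat_lit 30) (.e (nat_lit 573485) (nat_lit 13) (.e (nat_lit 65604) (nat_lit 9) (.e (nat_lit 336028) (nat_lit 3) (.e (nat_lit 98366) (nat_lit 27) .nil))))))) (.g (nat_lit 1) (.e (nat_lit 331856) (nat_lit 0) .nil) .nil))))))))) 
(.nd (nat_lit 4) (.nd (nat_lit 5) (.nd (nat_lit 6) (.nd (nat_lit 7) (.nd (nat_lit 8) 
(.nd (nat_lit 9) 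
(.lf (nat_lit 565262) (.g (nat_lit 2716) (.e (nat_lit 434244) (nat_lit 28) (.e (nat_lit 573471) (nat_lit 11) (.e (nat_lit 16388) (nat_lit 0) (.e (nat_lit 7581) (nat_lit 405) (.e (nat_lit 57464) (nat_lit 23) .nil))))) (.g (nat_lit 0) (.e (nat_lit 329046) (nat_lit 0) .nil) .nil))) 
(.lf (nat_lit 565774) (.g (nat_lit 2911) (.e (nat_lit 434247) (nat_lit 28) (.e (nat_lit 573485) (nat_lit 13) (.e (nat_lit 65569) (nat_lit 3) (.e (nat_lit 98317) (nat_lit 9) (.e (nat_lit 336288) (nat_lit 15) (.e (nat_lit 7936) (nat_lit 195) (.e (nat_lit 516160) (nat_lit 10) .nil))))))) (.g (nat_lit 1) (.e (nat_lit 330324) (nat_lit 0) .nil) .nil)))) (.nd (nat_lit 9) 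
(.lf (nat_lit 565518) (.g (nat_lit 2344) (.e (nat_lit 434245) (nat_lit 28) (.e (nat_lit 573488) (nat_lit 14) (.e (nat_lit 73755) (nat_lit 8) (.e (nat_lit 557090) (nat_lit 12) (.e (nat_lit 171776) (nat_lit 0) .nil))))) (.g (nat_lit 0) (.e (nat_lit 329734) (nat_lit 0) .nil) .nil))) 
(.lf (nat_lit 566030) (.g (nat_lit 1897) (.e (nat_lit 434248) (nat_lit 28) (.e (nat_lit 573489) (nat_lit 14) (.e (nat_lit 73754) (nat_lit 8) (.e (nat_lit 557089) (nat_lit 12) .nil)))) (.g (nat_lit 0) (.e (nat_lit 331139) (nat_lit 0) .nil) .nil))))) (.nd (nat_lit 8) (.nd (nat_lit 9) 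
(.lf (nat_lit 565390) (.g (nat_lit 897) (.e (nat_lit 434245) (nat_lit 28) (.e (nat_lit 573471) (nat_lit 11) (.e (nat_lit 16454) (nat_lit 11) .nil))) (.g (nat_lit 0) (.e (nat_lit 329428) (nat_lit 0) .nil) .nil))) 
(.lf (nat_lit 565902) (.g (nat_lit 3312) (.e (nat_lit 434248) (nat_lit 28) (.e (nat_lit 573471) (nat_lit 11) (.e (nat_lit 16425) (nat_lit 7) (.e (nat_lit 409622) (nat_lit 10) .nil)))) (.g (nat_lit 0) (.e (nat_lit 330638) (nat_lit 0) .nil) .nil)))) (.nd (nat_lit 9) 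
(.lf (nat_lit 565646) (.g (nat_lit 2981) (.e (nat_lit 434246) (nat_lit 28) (.e (nat_lit 573489) (nat_lit 14) (.e (nat_lit 73755) (nat_lit 8) (.e (nat_lit 557091) (nat_lit 12) (.e (nat_lit 164004) (nat_lit 41) .nil))))) (.g (nat_lit 0) (.e (nat_lit 330099) (nat_lit 0) .nil) .nil))) 
(.lf (nat_lit 566158) (.g (nat_lit 3420) (.e (nat_lit 434268) (nat_lit 36) (.e (nat_lit 639020) (nat_lit 16) (.e (nat_lit 65586) (nat_lit 7) (.e (nat_lit 319531) (nat_lit 16) (.e (nat_lit 286727) (nat_lit 0) (.e (nat_lit 6680) (nat_lit 357) (.e (nat_lit 2962) (nat_lit 185) .nil))))))) (.g (nat_lit 1) (.e (nat_lit 331509) (nat_lit 0) .nil) .nil)))))) 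
(.nd (nat_lit 7) (.nd (nat_lit 8) (.nd (nat_lit 9) 
(.lf (nat_lit 565326) (.g (nat_lit 3716) (.e (nat_lit 434244) (nat_lit 28) (.e (nat_lit 573488) (nat_lit 14) (.e (nat_lit 73755) (nat_lit 8) (.e (nat_lit 557090) (nat_lit 12) (.e (nat_lit 163841) (nat_lit 0) (.e (nat_lit 5943) (nat_lit 322) (.e (nat_lit 57379) (nat_lit 3) (.e (nat_lit 98366) (nat_lit 27) .nil)))))))) (.g (nat_lit 1) (.e (nat_lit 329298) (nat_lit 0) .nil) .nil))) 
(.lf (nat_lit 565838) (.g (nat_lit 3802) (.e (nat_lit 434247) (nat_lit 28) (.e (nat_lit 573489) (nat_lit 14) (.e (nat_lit 73755) (nat_lit 8) (.e (nat_lit 557090) (nat_lit 12) (.e (nat_lit 163851) (nat_lit 0) (.e (nat_lit 5939) (nat_lit 322) (.e (nat_lit 57379) (nat_lit 3) (.e (nat_lit 98366) (nat_lit 27) .nil)))))))) (.g (nat_lit 1) (.e (nat_lit 330502) (nat_lit 0) .nil) .nil)))) (.nd (nat_lit 9) 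
(.lf (nat_lit 565582) (.g (nat_lit 2480) (.e (nat_lit 434246) (nat_lit 28) (.e (nat_lit 573482) (nat_lit 13) (.e (nat_lit 65570) (nat_lit 3) (.e (nat_lit 98317) (nat_lit 9) (.e (nat_lit 336288) (nat_lit 15) .nil))))) (.g (nat_lit 0) (.e (nat_lit 329875) (nat_lit 0) .nil) .nil))) 
(.lf (nat_lit 566094) (.g (nat_lit 3190) (.e (nat_lit 434241) (nat_lit 27) (.e (nat_lit 565267) (nat_lit 4) (.e (nat_lit 65619) (nat_lit 10) (.e (nat_lit 344090) (nat_lit 18) (.e (nat_lit 7607) (nat_lit 410) (.e (nat_lit 2630) (nat_lit 164) (.e (nat_lit 172113) (nat_lit 10) .nil))))))) (.g (nat_lit 1) (.e (nat_lit 331424) (nat_lit 0) .nil) .nil))))) (.nd (nat_lit 8) (.nd (nat_lit 9) 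
(.lf (nat_lit 565454) (.g (nat_lit 2145) (.e (nat_lit 434245) (nat_lit 28) (.e (nat_lit 573487) (nat_lit 14) (.e (nat_lit 73753) (nat_lit 8) (.e (nat_lit 557089) (nat_lit 12) (.e (nat_lit 164006) (nat_lit 41) .nil))))) (.g (nat_lit 0) (.e (nat_lit 329594) (nat_lit 0) .nil) .nil))) 
(.lf (nat_lit 565966) (.g (nat_lit 2363) (.e (nat_lit 434248) (nat_lit 28) (.e (nat_lit 573475) (nat_lit 12) (.e (nat_lit 57574) (nat_lit 55) (.e (nat_lit 778466) (nat_lit 11) (.e (nat_lit 24603) (nat_lit 2) (.e (nat_lit 90166) (nat_lit 13) (.e (nat_lit 172105) (nat_lit 10) .nil))))))) (.g (nat_lit 1) (.e (nat_lit 330749) (nat_lit 0) .nil) .nil)))) (.nd (nat_lit 9) 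
(.lf (nat_lit 565710) (.g (nat_lit 1447) (.e (nat_lit 434247) (nat_lit 28) (.e (nat_lit 573477) (nat_lit 12) (.e (nat_lit 57575) (nat_lit 55) (.e (nat_lit 778463) (nat_lit 11) (.e (nat_lit 24593) (nat_lit 0) .nil))))) (.g (nat_lit 0) (.e (nat_lit 330187) (nat_lit 0) .nil) .nil))) 
(.lf (nat_lit 566222) (.g (nat_lit 1702) (.e (nat_lit 434276) (nat_lit 39) (.e (nat_lit 663584) (nat_lit 12) (.e (nat_lit 163979) (nat_lit 30) (.e (nat_lit 573470) (nat_lit 11) (.e (nat_lit 16465) (nat_lit 13) .nil))))) (.g (nat_lit 0) (.e (nat_lit 331744) (nat_lit 0) .nil) .nil))))))) (.nd (nat_lit 6) (.nd (nat_lit 7) (.nd (nat_lit 8) (.nd (nat_lit 9) 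
(.lf (nat_lit 565294) (.g (nat_lit 2422) (.e (nat_lit 434244) (nat_lit 28) (.e (nat_lit 573481) (nat_lit 13) (.e (nat_lit 65568) (nat_lit 2) (.e (nat_lit 90160) (nat_lit 11) (.e (nat_lit 24669) (nat_lit 15) .nil))))) (.g (nat_lit 0) (.e (nat_lit 329172) (nat_lit 0) .nil) .nil))) 
(.lf (nat_lit 565806) (.g (nat_lit 2889) (.e (nat_lit 434247) (nat_lit 28) (.e (nat_lit 573489) (nat_lit 14) (.e (nat_lit 73755) (nat_lit 8) (.e (nat_lit 557067) (nat_lit 9) (.e (nat_lit 2598) (nat_lit 163) .nil))))) (.g (nat_lit 0) (.e (nat_lit 330428) (nat_lit 0) .nil) .nil)))) (.nd (nat_lit 9) 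
(.lf (nat_lit 565550) (.g (nat_lit 3076) (.e (nat_lit 434246) (nat_lit 28) (.e (nat_lit 573471) (nat_lit 11) (.e (nat_lit 16425) (nat_lit 7) (.e (nat_lit 409616) (nat_lit 10) .nil)))) (.g (nat_lit 0) (.e (nat_lit 329823) (nat_lit 0) .nil) .nil))) 
(.lf (nat_lit 566062) (.g (nat_lit 3038) (.e (nat_lit 434248) (nat_lit 28) (.e (nat_lit 573489) (nat_lit 14) (.e (nat_lit 73755) (nat_lit 8) (.e (nat_lit 557090) (nat_lit 12) (.e (nat_lit 163851) (nat_lit 0) .nil))))) (.g (nat_lit 0) (.e (nat_lit 331254) (nat_lit 0) .nil) .nil))))) (.nd (nat_lit 8) (.nd (nat_lit 9) 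
(.lf (nat_lit 565422) (.g (nat_lit 521) (.e (nat_lit 434245) (nat_lit 28) (.e (nat_lit 573481) (nat_lit 13) (.e (nat_lit 65571) (nat_lit 3) .nil))) (.g (nat_lit 0) (.e (nat_lit 329504) (nat_lit 0) .nil) .nil))) 
(.lf (nat_lit 565934) (.g (nat_lit 2199) (.e (nat_lit 434248) (nat_lit 28) (.e (nat_lit 573471) (nat_lit 11) (.e (nat_lit 16456) (nat_lit 12) (.e (nat_lit 475184) (nat_lit 29) .nil)))) (.g (nat_lit 0) (.e (nat_lit 330713) (nat_lit 0) .nil) .nil)))) (.nd (nat_lit 9) 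
(.lf (nat_lit 565678) (.g (nat_lit 5031) (.e (nat_lit 434247) (nat_lit 28) (.e (nat_lit 573469) (nat_lit 11) (.e (nat_lit 16473) (nat_lit 14) (.e (nat_lit 491526) (nat_lit 0) (.e (nat_lit 1788) (nat_lit 119) (.e (nat_lit 516151) (nat_lit 9) (.e (nat_lit 426286) (nat_lit 10) .nil))))))) (.g (nat_lit 1) (.e (nat_lit 330145) (nat_lit 0) .nil) .nil))) 
(.lf (nat_lit 566190) (.g (nat_lit 720) (.e (nat_lit 434269) (nat_lit 36) (.e (nat_lit 639021) (nat_lit 16) (.e (nat_lit 65584) (nat_lit 7) (.e (nat_lit 319526) (nat_lit 15) (.e (nat_lit 278547) (nat_lit 8) .nil))))) (.g (nat_lit 0) (.e (nat_lit 331580) (nat_lit 0) .nil) .nil)))))) (.nd (nat_lit 7) (.nd (nat_lit 8) (.nd (nat_lit 9) 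
(.lf (nat_lit 565358) (.g (nat_lit 3807) (.e (nat_lit 434245) (nat_lit 28) (.e (nat_lit 573470) (nat_lit 11) (.e (nat_lit 16456) (nat_lit 12) (.e (nat_lit 475185) (nat_lit 29) (.e (nat_lit 557100) (nat_lit 13) (.e (nat_lit 172113) (nat_lit 10) .nil)))))) (.g (nat_lit 1) (.e (nat_lit 329380) (nat_lit 0) .nil) .nil))) 
(.lf (nat_lit 565870) (.g (nat_lit 2303) (.e (nat_lit 434247) (nat_lit 28) (.e (nat_lit 573489) (nat_lit 14) (.e (nat_lit 73755) (nat_lit 8) (.e (nat_lit 557119) (nat_lit 18) (.e (nat_lit 2448) (nat_lit 157) .nil))))) (.g (nat_lit 0) (.e (nat_lit 330567) (nat_lit 0) .nil) .nil)))) (.nd (nat_lit 9) 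
(.lf (nat_lit 565614) (.g (nat_lit 2520) (.e (nat_lit 434246) (nat_lit 28) (.e (nat_lit 573487) (nat_lit 14) (.e (nat_lit 73753) (nat_lit 8) (.e (nat_lit 557091) (nat_lit 12) (.e (nat_lit 164007) (nat_lit 41) .nil))))) (.g (nat_lit 0) (.e (nat_lit 329990) (nat_lit 0) .nil) .nil))) 
(.lf (nat_lit 566126) (.g (nat_lit 1501) (.e (nat_lit 434266) (nat_lit 35) (.e (nat_lit 630821) (nat_lit 16) (.e (nat_lit 65610) (nat_lit 10) (.e (nat_lit 344157) (nat_lit 36) (.e (nat_lit 638999) (nat_lit 8) (.e (nat_lit 172115) (nat_lit 10) .nil)))))) (.g (nat_lit 1) (.e (nat_lit 331472) (nat_lit 0) .nil) .nil))))) (.nd (nat_lit 8) (.nd (nat_lit 9) 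
(.lf (nat_lit 565486) (.g (nat_lit 1044) (.e (nat_lit 434245) (nat_lit 28) (.e (nat_lit 573488) (nat_lit 14) (.e (nat_lit 73754) (nat_lit 8) (.e (nat_lit 557093) (nat_lit 12) .nil)))) (.g (nat_lit 0) (.e (nat_lit 329690) (nat_lit 0) .nil) .nil))) 
(.lf (nat_lit 565998) (.g (nat_lit 628) (.e (nat_lit 434248) (nat_lit 28) (.e (nat_lit 573487) (nat_lit 14) (.e (nat_lit 73750) (nat_lit 6) .nil))) (.g (nat_lit 0) (.e (nat_lit 330951) (nat_lit 0) .nil) .nil)))) (.nd (nat_lit 9) 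
(.lf (nat_lit 565742) (.g (nat_lit 3647) (.e (nat_lit 434247) (nat_lit 28) (.e (nat_lit 573478) (nat_lit 12) (.e (nat_lit 57574) (nat_lit 55) (.e (nat_lit 778466) (nat_lit 11) (.e (nat_lit 24604) (nat_lit 2) (.e (nat_lit 90167) (nat_lit 13) (.e (nat_lit 172111) (nat_lit 10) .nil))))))) (.g (nat_lit 1) (.e (nat_lit 330236) (nat_lit 0) .nil) .nil))) 
(.lf (nat_lit 566254) (.g (nat_lit 760) (.e (nat_lit 434271) (nat_lit 38) (.e (nat_lit 655363) (nat_lit 0) (.e (nat_lit 3022) (nat_lit 187) (.e (nat_lit 458496) (nat_lit 15) .nil)))) (.g (nat_lit 0) (.e (nat_lit 331844) (nat_lit 0) .nil) .nil)))))))) (.nd (nat_lit 5) (.nd (nat_lit 6) (.nd (nat_lit 7) (.nd (nat_lit 8) (.nd (nat_lit 9) 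
(.lf (nat_lit 565278) (.g (nat_lit 3381) (.e (nat_lit 434244) (nat_lit 28) (.e (nat_lit 573471) (nat_lit 11) (.e (nat_lit 16433) (nat_lit 9) (.e (nat_lit 426404) (nat_lit 15) .nil)))) (.g (nat_lit 0) (.e (nat_lit 329100) (nat_lit 0) .nil) .nil))) 
(.lf (nat_lit 565790) (.g (nat_lit 1202) (.e (nat_lit 434247) (nat_lit 28) (.e (nat_lit 573487) (nat_lit 14) (.e (nat_lit 73753) (nat_lit 8) (.e (nat_lit 557093) (nat_lit 12) .nil)))) (.g (nat_lit 0) (.e (nat_lit 330380) (nat_lit 0) .nil) .nil)))) (.nd (nat_lit 9) 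
(.lf (nat_lit 565534) (.g (nat_lit 2455) (.e (nat_lit 434245) (nat_lit 28) (.e (nat_lit 573488) (nat_lit 14) (.e (nat_lit 73755) (nat_lit 8) (.e (nat_lit 557091) (nat_lit 12) (.e (nat_lit 164003) (nat_lit 40) .nil))))) (.g (nat_lit 0) (.e (nat_lit 329785) (nat_lit 0) .nil) .nil))) 
(.lf (nat_lit 566046) (.g (nat_lit 2161) (.e (nat_lit 434248) (nat_lit 28) (.e (nat_lit 573489) (nat_lit 14) (.e (nat_lit 73755) (nat_lit 8) (.e (nat_lit 557068) (nat_lit 9) .nil)))) (.g (nat_lit 0) (.e (nat_lit 331197) (nat_lit 0) .nil) .nil))))) (.nd (nat_lit 8) (.nd (nat_lit 9) 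
(.lf (nat_lit 565406) (.g (nat_lit 2187) (.e (nat_lit 434245) (nat_lit 28) (.e (nat_lit 573481) (nat_lit 13) (.e (nat_lit 65567) (nat_lit 2) (.e (nat_lit 90160) (nat_lit 11) (.e (nat_lit 24669) (nat_lit 15) (.e (nat_lit 7936) (nat_lit 195) (.e (nat_lit 516160) (nat_lit 10) .nil))))))) (.g (nat_lit 1) (.e (nat_lit 329466) (nat_lit 0) .nil) .nil))) 
(.lf (nat_lit 565918) (.g (nat_lit 2958) (.e (nat_lit 434248) (nat_lit 28) (.e (nat_lit 573471) (nat_lit 11) (.e (nat_lit 16433) (nat_lit 9) (.e (nat_lit 426381) (nat_lit 15) .nil)))) (.g (nat_lit 0) (.e (nat_lit 330659) (nat_lit 0) .nil) .nil)))) (.nd (nat_lit 9) 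
(.lf (nat_lit 565662) (.g (nat_lit 3059) (.e (nat_lit 434247) (nat_lit 28) (.e (nat_lit 573457) (nat_lit 9) (.e (nat_lit 430) (nat_lit 32) (.e (nat_lit 426009) (nat_lit 0) (.e (nat_lit 7583) (nat_lit 405) (.e (nat_lit 57464) (nat_lit 23) (.e (nat_lit 516151) (nat_lit 9) (.e (nat_lit 426286) (nat_lit 10) .nil)))))))) (.g (nat_lit 1) (.e (nat_lit 330127) (nat_lit 0) .nil) .nil))) 
(.lf (nat_lit 566174) (.g (nat_lit 423) (.e (nat_lit 434268) (nat_lit 36) (.e (nat_lit 639020) (nat_lit 16) (.e (nat_lit 65619) (nat_lit 10) .nil))) (.g (nat_lit 0) (.e (nat_lit 331539) (nat_lit 0) .nil) .nil)))))) (.nd (nat_lit 7) (.nd (nat_lit 8) (.nd (nat_lit 9) 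
(.lf (nat_lit 565342) (.g (nat_lit 2390) (.e (nat_lit 434244) (nat_lit 28) (.e (nat_lit 573489) (nat_lit 14) (.e (nat_lit 73755) (nat_lit 8) (.e (nat_lit 557090) (nat_lit 12) .nil)))) (.g (nat_lit 0) (.e (nat_lit 329344) (nat_lit 0) .nil) .nil))) 
(.lf (nat_lit 565854) (.g (nat_lit 2352) (.e (nat_lit 434247) (nat_lit 28) (.e (nat_lit 573489) (nat_lit 14) (.e (nat_lit 73755) (nat_lit 8) (.e (nat_lit 557091) (nat_lit 12) (.e (nat_lit 163850) (nat_lit 0) .nil))))) (.g (nat_lit 0) (.e (nat_lit 330531) (nat_lit 0) .nil) .nil)))) (.nd (nat_lit 9) 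
(.lf (nat_lit 565598) (.g (nat_lit 2759) (.e (nat_lit 434246) (nat_lit 28) (.e (nat_lit 573487) (nat_lit 14) (.e (nat_lit 73746) (nat_lit 3) (.e (nat_lit 516119) (nat_lit 1) (.e (nat_lit 164196) (nat_lit 158) .nil))))) (.g (nat_lit 0) (.e (nat_lit 329935) (nat_lit 0) .nil) .nil))) 
(.lf (nat_lit 566110) (.g (nat_lit 1473) (.e (nat_lit 434265) (nat_lit 35) (.e (nat_lit 630820) (nat_lit 16) (.e (nat_lit 65542) (nat_lit 0) (.e (nat_lit 6218) (nat_lit 333) (.e (nat_lit 57819) (nat_lit 248) (.e (nat_lit 164359) (nat_lit 246) (.e (nat_lit 2973) (nat_lit 185) .nil))))))) (.g (nat_lit 1) (.e (nat_lit 331456) (nat_lit 0) .nil) .nil))))) (.nd (nat_lit 8) (.nd (nat_lit 9) 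
(.lf (nat_lit 565470) (.g (nat_lit 2478) (.e (nat_lit 434245) (nat_lit 28) (.e (nat_lit 573487) (nat_lit 14) (.e (nat_lit 73753) (nat_lit 8) (.e (nat_lit 557091) (nat_lit 12) (.e (nat_lit 164006) (nat_lit 41) .nil))))) (.g (nat_lit 0) (.e (nat_lit 329631) (nat_lit 0) .nil) .nil))) 
(.lf (nat_lit 565982) (.g (nat_lit 2215) (.e (nat_lit 434248) (nat_lit 28) (.e (nat_lit 573482) (nat_lit 13) (.e (nat_lit 73472) (nat_lit 2) (.e (nat_lit 90160) (nat_lit 11) (.e (nat_lit 24671) (nat_lit 15) (.e (nat_lit 7936) (nat_lit 195) (.e (nat_lit 516160) (nat_lit 10) .nil))))))) (.g (nat_lit 1) (.e (nat_lit 330830) (nat_lit 0) .nil) .nil)))) (.nd (nat_lit 9) 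
(.lf (nat_lit 565726) (.g (nat_lit 3791) (.e (nat_lit 434247) (nat_lit 28) (.e (nat_lit 573477) (nat_lit 12) (.e (nat_lit 57750) (nat_lit 201) (.e (nat_lit 3090) (nat_lit 191) (.e (nat_lit 483363) (nat_lit 18) (.e (nat_lit 57688) (nat_lit 156) (.e (nat_lit 163916) (nat_lit 13) .nil))))))) (.g (nat_lit 1) (.e (nat_lit 330204) (nat_lit 0) .nil) .nil))) 
(.lf (nat_lit 566238) (.g (nat_lit 656) (.e (nat_lit 434280) (nat_lit 40) (.e (nat_lit 671762) (nat_lit 4) (.e (nat_lit 65651) (nat_lit 27) .nil))) (.g (nat_lit 0) (.e (nat_lit 331823) (nat_lit 0) .nil) .nil))))))) (.nd (nat_lit 6) (.nd (nat_lit 7) (.nd (nat_lit 8) (.nd (nat_lit 9) 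
(.lf (nat_lit 565310) (.g (nat_lit 2750) (.e (nat_lit 434244) (nat_lit 28) (.e (nat_lit 573487) (nat_lit 14) (.e (nat_lit 73747) (nat_lit 3) (.e (nat_lit 516117) (nat_lit 1) (.e (nat_lit 171776) (nat_lit 160) .nil))))) (.g (nat_lit 0) (.e (nat_lit 329225) (nat_lit 0) .nil) .nil))) 
(.lf (nat_lit 565822) (.g (nat_lit 3418) (.e (nat_lit 434247) (nat_lit 28) (.e (nat_lit 573489) (nat_lit 14) (.e (nat_lit 73755) (nat_lit 8) (.e (nat_lit 557084) (nat_lit 10) (.e (nat_lit 8358) (nat_lit 88) .nil))))) (.g (nat_lit 0) (.e (nat_lit 330459) (nat_lit 0) .nil) .nil)))) (.nd (nat_lit 9) 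
(.lf (nat_lit 565566) (.g (nat_lit 2924) (.e (nat_lit 434246) (nat_lit 28) (.e (nat_lit 573474) (nat_lit 12) (.e (nat_lit 57572) (nat_lit 54) (.e (nat_lit 770072) (nat_lit 8) (.e (nat_lit 65569) (nat_lit 3) (.e (nat_lit 98359) (nat_lit 26) (.e (nat_lit 426286) (nat_lit 10) .nil))))))) (.g (nat_lit 1) (.e (nat_lit 329844) (nat_lit 0) .nil) .nil))) 
(.lf (nat_lit 566078) (.g (nat_lit 4992) (.e (nat_lit 434248) (nat_lit 28) (.e (nat_lit 573489) (nat_lit 14) (.e (nat_lit 73755) (nat_lit 8) (.e (nat_lit 557119) (nat_lit 18) (.e (nat_lit 2798) (nat_lit 180) (.e (nat_lit 303147) (nat_lit 15) (.e (nat_lit 1788) (nat_lit 119) (.e (nat_lit 516159) (nat_lit 10) .nil)))))))) (.g (nat_lit 1) (.e (nat_lit 331357) (nat_lit 0) .nil) .nil))))) 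
(.nd (nat_lit 8) (.nd (nat_lit 9) 
(.lf (nat_lit 565438) (.g (nat_lit 2960) (.e (nat_lit 434245) (nat_lit 28) (.e (nat_lit 573487) (nat_lit 14) (.e (nat_lit 73746) (nat_lit 3) (.e (nat_lit 516115) (nat_lit 1) (.e (nat_lit 164196) (nat_lit 158) .nil))))) (.g (nat_lit 0) (.e (nat_lit 329564) (nat_lit 0) .nil) .nil))) 
(.lf (nat_lit 565950) (.g (nat_lit 3714) (.e (nat_lit 434248) (nat_lit 28) (.e (nat_lit 573471) (nat_lit 11) (.e (nat_lit 16470) (nat_lit 14) (.e (nat_lit 491539) (nat_lit 3) .nil)))) (.g (nat_lit 0) (.e (nat_lit 330729) (nat_lit 0) .nil) .nil)))) (.nd (nat_lit 9) 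
(.lf (nat_lit 565694) (.g (nat_lit 3958) (.e (nat_lit 434247) (nat_lit 28) (.e (nat_lit 573471) (nat_lit 11) (.e (nat_lit 16470) (nat_lit 14) (.e (nat_lit 491538) (nat_lit 3) .nil)))) (.g (nat_lit 0) (.e (nat_lit 330168) (nat_lit 0) .nil) .nil))) 
(.lf (nat_lit 566206) (.g (nat_lit 505) (.e (nat_lit 434275) (nat_lit 39) (.e (nat_lit 663574) (nat_lit 9) (.e (nat_lit 248) (nat_lit 21) .nil))) (.g (nat_lit 0) (.e (nat_lit 331607) (nat_lit 0) .nil) .nil)))))) (.nd (nat_lit 7) (.nd (nat_lit 8) (.nd (nat_lit 9) 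
(.lf (nat_lit 565374) (.g (nat_lit 3279) (.e (nat_lit 434245) (nat_lit 28) (.e (nat_lit 573471) (nat_lit 11) (.e (nat_lit 16433) (nat_lit 9) (.e (nat_lit 426352) (nat_lit 15) .nil)))) (.g (nat_lit 0) (.e (nat_lit 329406) (nat_lit 0) .nil) .nil))) 
(.lf (nat_lit 565886) (.g (nat_lit 2454) (.e (nat_lit 434248) (nat_lit 28) (.e (nat_lit 573452) (nat_lit 9) (.e (nat_lit 498) (nat_lit 40) (.e (nat_lit 491565) (nat_lit 12) (.e (nat_lit 385065) (nat_lit 26) (.e (nat_lit 532513) (nat_lit 3) (.e (nat_lit 122624) (nat_lit 12) .nil))))))) (.g (nat_lit 1) (.e (nat_lit 330605) (nat_lit 0) .nil) .nil)))) (.nd (nat_lit 9) 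
(.lf (nat_lit 565630) (.g (nat_lit 2437) (.e (nat_lit 434246) (nat_lit 28) (.e (nat_lit 573489) (nat_lit 14) (.e (nat_lit 73755) (nat_lit 8) (.e (nat_lit 557089) (nat_lit 12) (.e (nat_lit 164010) (nat_lit 41) .nil))))) (.g (nat_lit 0) (.e (nat_lit 330055) (nat_lit 0) .nil) .nil))) 
(.lf (nat_lit 566142) (.g (nat_lit 1638) (.e (nat_lit 434268) (nat_lit 36) (.e (nat_lit 639020) (nat_lit 16) (.e (nat_lit 65543) (nat_lit 0) (.e (nat_lit 6218) (nat_lit 333) (.e (nat_lit 57819) (nat_lit 248) (.e (nat_lit 164359) (nat_lit 246) (.e (nat_lit 2979) (nat_lit 185) .nil))))))) (.g (nat_lit 1) (.e (nat_lit 331488) (nat_lit 0) .nil) .nil))))) (.nd (nat_lit 8) (.nd (nat_lit 9) 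
(.lf (nat_lit 565502) (.g (nat_lit 2656) (.e (nat_lit 434245) (nat_lit 28) (.e (nat_lit 573488) (nat_lit 14) (.e (nat_lit 73755) (nat_lit 8) (.e (nat_lit 557090) (nat_lit 12) (.e (nat_lit 163840) (nat_lit 0) (.e (nat_lit 5939) (nat_lit 322) (.e (nat_lit 57379) (nat_lit 3) (.e (nat_lit 98368) (nat_lit 27) .nil)))))))) (.g (nat_lit 1) (.e (nat_lit 329714) (nat_lit 0) .nil) .nil))) 
(.lf (nat_lit 566014) (.g (nat_lit 2180) (.e (nat_lit 434248) (nat_lit 28) (.e (nat_lit 573487) (nat_lit 14) (.e (nat_lit 73753) (nat_lit 8) (.e (nat_lit 557090) (nat_lit 12) (.e (nat_lit 164005) (nat_lit 41) .nil))))) (.g (nat_lit 0) (.e (nat_lit 331049) (nat_lit 0) .nil) .nil)))) (.nd (nat_lit 9) 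
(.lf (nat_lit 565758) (.g (nat_lit 3701) (.e (nat_lit 434247) (nat_lit 28) (.e (nat_lit 573484) (nat_lit 13) (.e (nat_lit 65571) (nat_lit 3) (.e (nat_lit 98313) (nat_lit 9) (.e (nat_lit 336288) (nat_lit 15) (.e (nat_lit 7936) (nat_lit 195) (.e (nat_lit 516160) (nat_lit 10) .nil))))))) (.g (nat_lit 1) (.e (nat_lit 330293) (nat_lit 0) .nil) .nil))) 
(.lf (nat_lit 566270) (.g (nat_lit 2487) (.e (nat_lit 434271) (nat_lit 38) (.e (nat_lit 655375) (nat_lit 3) (.e (nat_lit 163978) (nat_lit 30) (.e (nat_lit 573483) (nat_lit 13) (.e (nat_lit 65619) (nat_lit 10) .nil))))) (.g (nat_lit 0) (.e (nat_lit 331864) (nat_lit 0) .nil) .nil)))))))))))) 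
(.nd (nat_lit 1) (.nd (nat_lit 2) (.nd (nat_lit 3) (.nd (nat_lit 4) (.nd (nat_lit 5) 
(.nd (nat_lit 6) (.nd (nat_lit 7) (.nd (nat_lit 8) (.nd (nat_lit 9) 
(.lf (nat_lit 565249) (.g (nat_lit 2270) (.e (nat_lit 434244) (nat_lit 28) (.e (nat_lit 573451) (nat_lit 9) (.e (nat_lit 982) (nat_lit 81) (.e (nat_lit 2270) (nat_lit 149) (.e (nat_lit 761867) (nat_lit 5) (.e (nat_lit 1454) (nat_lit 108) (.e (nat_lit 336013) (nat_lit 2) (.e (nat_lit 90170) (nat_lit 13) (.e (nat_lit 172106) (nat_lit 10) .nil))))))))) (.g (nat_lit 1) (.e (nat_lit 329021) (nat_lit 0) .nil) .nil))) 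
(.lf (nat_lit 565761) (.g (nat_lit 758) (.e (nat_lit 434247) (nat_lit 28) (.e (nat_lit 573484) (nat_lit 13) (.e (nat_lit 65639) (nat_lit 15) .nil))) (.g (nat_lit 0) (.e (nat_lit 330300) (nat_lit 0) .nil) .nil)))) (.nd (nat_lit 9) 
(.lf (nat_lit 565505) (.g (nat_lit 2737) (.e (nat_lit 434245) (nat_lit 28) (.e (nat_lit 573488) (nat_lit 14) (.e (nat_lit 73755) (nat_lit 8) (.e (nat_lit 557090) (nat_lit 12) (.e (nat_lit 163841) (nat_lit 0) (.e (nat_lit 5943) (nat_lit 322) (.e (nat_lit 57379) (nat_lit 3) (.e (nat_lit 98366) (nat_lit 27) .nil)))))))) (.g (nat_lit 1) (.e (nat_lit 329717) (nat_lit 0) .nil) .nil))) 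
(.lf (nat_lit 566017) (.g (nat_lit 2348) (.e (nat_lit 434248) (nat_lit 28) (.e (nat_lit 573487) (nat_lit 14) (.e (nat_lit 73753) (nat_lit 8) (.e (nat_lit 557091) (nat_lit 12) (.e (nat_lit 164004) (nat_lit 41) .nil))))) (.g (nat_lit 0) (.e (nat_lit 331069) (nat_lit 0) .nil) .nil))))) (.nd (nat_lit 8) (.nd (nat_lit 9) 
(.lf (nat_lit 565377) (.g (nat_lit 4815) (.e (nat_lit 434245) (nat_lit 28) (.e (nat_lit 573471) (nat_lit 11) (.e (nat_lit 16433) (nat_lit 9) (.e (nat_lit 426361) (nat_lit 15) (.e (nat_lit 1860) (nat_lit 124) (.e (nat_lit 557100) (nat_lit 13) (.e (nat_lit 172113) (nat_lit 10) .nil))))))) (.g (nat_lit 1) (.e (nat_lit 329409) (nat_lit 0) .nil) .nil))) 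
(.lf (nat_lit 565889) (.g (nat_lit 2097) (.e (nat_lit 434248) (nat_lit 28) (.e (nat_lit 573452) (nat_lit 9) (.e (nat_lit 1400) (nat_lit 106) (.e (nat_lit 319533) (nat_lit 16) (.e (nat_lit 286767) (nat_lit 27) .nil))))) (.g (nat_lit 0) (.e (nat_lit 330618) (nat_lit 0) .nil) .nil)))) (.nd (nat_lit 9) 
(.lf (nat_lit 565633) (.g (nat_lit 2910) (.e (nat_lit 434246) (nat_lit 28) (.e (nat_lit 573489) (nat_lit 14) (.e (nat_lit 73755) (nat_lit 8) (.e (nat_lit 557090) (nat_lit 12) (.e (nat_lit 163845) (nat_lit 0) .nil))))) (.g (nat_lit 0) (.e (nat_lit 330058) (nat_lit 0) .nil) .nil))) 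
(.lf (nat_lit 566145) (.g (nat_lit 2998) (.e (nat_lit 434268) (nat_lit 36) (.e (nat_lit 639020) (nat_lit 16) (.e (nat_lit 65583) (nat_lit 7) (.e (nat_lit 319506) (nat_lit 10) (.e (nat_lit 5019) (nat_lit 290) (.e (nat_lit 164359) (nat_lit 246) (.e (nat_lit 2973) (nat_lit 185) .nil))))))) (.g (nat_lit 1) (.e (nat_lit 331493) (nat_lit 0) .nil) .nil)))))) 
(.nd (nat_lit 7) (.nd (nat_lit 8) (.nd (nat_lit 9) 
(.lf (nat_lit 565313) (.g (nat_lit 507) (.e (nat_lit 434244) (nat_lit 28) (.e (nat_lit 573487) (nat_lit 14) (.e (nat_lit 73753) (nat_lit 8) .nil))) (.g (nat_lit 0) (.e (nat_lit 329241) (nat_lit 0) .nil) .nil))) 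
(.lf (nat_lit 565825) (.g (nat_lit 2238) (.e (nat_lit 434247) (nat_lit 28) (.e (nat_lit 573489) (nat_lit 14) (.e (nat_lit 73755) (nat_lit 8) (.e (nat_lit 557089) (nat_lit 12) (.e (nat_lit 163850) (nat_lit 0) .nil))))) (.g (nat_lit 0) (.e (nat_lit 330463) (nat_lit 0) .nil) .nil)))) (.nd (nat_lit 9) 
(.lf (nat_lit 565569) (.g (nat_lit 2035) (.e (nat_lit 434246) (nat_lit 28) (.e (nat_lit 573475) (nat_lit 12) (.e (nat_lit 57503) (nat_lit 38) (.e (nat_lit 638985) (nat_lit 5) .nil)))) (.g (nat_lit 0) (.e (nat_lit 329849) (nat_lit 0) .nil) .nil))) 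
(.lf (nat_lit 566081) (.g (nat_lit 1967) (.e (nat_lit 442112) (nat_lit 28) (.e (nat_lit 573450) (nat_lit 9) (.e (nat_lit 375) (nat_lit 32) (.e (nat_lit 426173) (nat_lit 7) (.e (nat_lit 409616) (nat_lit 10) .nil))))) (.g (nat_lit 0) (.e (nat_lit 331401) (nat_lit 0) .nil) .nil))))) (.nd (nat_lit 8) (.nd (nat_lit 9) 
(.lf (nat_lit 565441) (.g (nat_lit 2251) (.e (nat_lit 434245) (nat_lit 28) (.e (nat_lit 573487) (nat_lit 14) (.e (nat_lit 73746) (nat_lit 3) (.e (nat_lit 516120) (nat_lit 1) (.e (nat_lit 164195) (nat_lit 158) .nil))))) (.g (nat_lit 0) (.e (nat_lit 329568) (nat_lit 0) .nil) .nil))) 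
(.lf (nat_lit 565953) (.g (nat_lit 419) (.e (nat_lit 434248) (nat_lit 28) (.e (nat_lit 573471) (nat_lit 11) (.e (nat_lit 16473) (nat_lit 14) .nil))) (.g (nat_lit 0) (.e (nat_lit 330732) (nat_lit 0) .nil) .nil)))) (.nd (nat_lit 9) 
(.lf (nat_lit 565697) (.g (nat_lit 1733) (.e (nat_lit 434247) (nat_lit 28) (.e (nat_lit 573471) (nat_lit 11) (.e (nat_lit 16473) (nat_lit 14) (.e (nat_lit 499456) (nat_lit 2) .nil)))) (.g (nat_lit 0) (.e (nat_lit 330171) (nat_lit 0) .nil) .nil))) 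
(.lf (nat_lit 566209) (.g (nat_lit 2137) (.e (nat_lit 434275) (nat_lit 39) (.e (nat_lit 663583) (nat_lit 11) (.e (nat_lit 24640) (nat_lit 10) (.e (nat_lit 344156) (nat_lit 36) (.e (nat_lit 638999) (nat_lit 8) .nil))))) (.g (nat_lit 0) (.e (nat_lit 331633) (nat_lit 0) .nil) .nil))))))) (.nd (nat_lit 6) (.nd (nat_lit 7) (.nd (nat_lit 8) (.nd (nat_lit 9) 
(.lf (nat_lit 565281) (.g (nat_lit 1613) (.e (nat_lit 434244) (nat_lit 28) (.e (nat_lit 573471) (nat_lit 11) (.e (nat_lit 16448) (nat_lit 10) (.e (nat_lit 434219) (nat_lit 19) .nil)))) (.g (nat_lit 0) (.e (nat_lit 329113) (nat_lit 0) .nil) .nil))) 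
(.lf (nat_lit 565793) (.g (nat_lit 1888) (.e (nat_lit 434247) (nat_lit 28) (.e (nat_lit 573489) (nat_lit 14) (.e (nat_lit 73747) (nat_lit 3) (.e (nat_lit 516195) (nat_lit 26) .nil)))) (.g (nat_lit 0) (.e (nat_lit 330392) (nat_lit 0) .nil) .nil)))) (.nd (nat_lit 9) 
(.lf (nat_lit 565537) (.g (nat_lit 1514) (.e (nat_lit 434245) (nat_lit 28) (.e (nat_lit 573488) (nat_lit 14) (.e (nat_lit 73755) (nat_lit 8) (.e (nat_lit 557121) (nat_lit 18) .nil)))) (.g (nat_lit 0) (.e (nat_lit 329788) (nat_lit 0) .nil) .nil))) 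
(.lf (nat_lit 566049) (.g (nat_lit 2293) (.e (nat_lit 434248) (nat_lit 28) (.e (nat_lit 573489) (nat_lit 14) (.e (nat_lit 73755) (nat_lit 8) (.e (nat_lit 557083) (nat_lit 10) .nil)))) (.g (nat_lit 0) (.e (nat_lit 331208) (nat_lit 0) .nil) .nil))))) (.nd (nat_lit 8) (.nd (nat_lit 9) 
(.lf (nat_lit 565409) (.g (nat_lit 2383) (.e (nat_lit 434245) (nat_lit 28) (.e (nat_lit 573481) (nat_lit 13) (.e (nat_lit 65568) (nat_lit 2) (.e (nat_lit 90128) (nat_lit 9) (.e (nat_lit 344) (nat_lit 27) .nil))))) (.g (nat_lit 0) (.e (nat_lit 329472) (nat_lit 0) .nil) .nil))) 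
(.lf (nat_lit 565921) (.g (nat_lit 2912) (.e (nat_lit 434248) (nat_lit 28) (.e (nat_lit 573471) (nat_lit 11) (.e (nat_lit 16433) (nat_lit 9) (.e (nat_lit 426393) (nat_lit 15) .nil)))) (.g (nat_lit 0) (.e (nat_lit 330662) (nat_lit 0) .nil) .nil)))) (.nd (nat_lit 9) 
(.lf (nat_lit 565665) (.g (nat_lit 3716) (.e (nat_lit 434247) (nat_lit 28) (.e (nat_lit 573457) (nat_lit 9) (.e (nat_lit 430) (nat_lit 32) (.e (nat_lit 426012) (nat_lit 0) (.e (nat_lit 7581) (nat_lit 405) (.e (nat_lit 57464) (nat_lit 23) (.e (nat_lit 516151) (nat_lit 9) (.e (nat_lit 426286) (nat_lit 10) .nil)))))))) (.g (nat_lit 1) (.e (nat_lit 330130) (nat_lit 0) .nil) .nil))) 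
(.lf (nat_lit 566177) (.g (nat_lit 2840) (.e (nat_lit 434268) (nat_lit 36) (.e (nat_lit 639020) (nat_lit 16) (.e (nat_lit 65619) (nat_lit 10) (.e (nat_lit 344156) (nat_lit 36) (.e (nat_lit 638998) (nat_lit 8) (.e (nat_lit 172116) (nat_lit 10) .nil)))))) (.g (nat_lit 1) (.e (nat_lit 331542) (nat_lit 0) .nil) .nil)))))) (.nd (nat_lit 7) (.nd (nat_lit 8) (.nd (nat_lit 9) 
(.lf (nat_lit 565345) (.g (nat_lit 3647) (.e (nat_lit 434244) (nat_lit 28) (.e (nat_lit 573489) (nat_lit 14) (.e (nat_lit 73755) (nat_lit 8) (.e (nat_lit 557090) (nat_lit 12) (.e (nat_lit 164008) (nat_lit 41) .nil))))) (.g (nat_lit 0) (.e (nat_lit 329347) (nat_lit 0) .nil) .nil))) 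
(.lf (nat_lit 565857) (.g (nat_lit 2005) (.e (nat_lit 434247) (nat_lit 28) (.e (nat_lit 573489) (nat_lit 14) (.e (nat_lit 73755) (nat_lit 8) (.e (nat_lit 557091) (nat_lit 12) (.e (nat_lit 164005) (nat_lit 41) .nil))))) (.g (nat_lit 0) (.e (nat_lit 330543) (nat_lit 0) .nil) .nil)))) (.nd (nat_lit 9) 
(.lf (nat_lit 565601) (.g (nat_lit 3005) (.e (nat_lit 434246) (nat_lit 28) (.e (nat_lit 573487) (nat_lit 14) (.e (nat_lit 73747) (nat_lit 3) (.e (nat_lit 516115) (nat_lit 1) (.e (nat_lit 164196) (nat_lit 158) .nil))))) (.g (nat_lit 0) (.e (nat_lit 329944) (nat_lit 0) .nil) .nil))) 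
(.lf (nat_lit 566113) (.g (nat_lit 678) (.e (nat_lit 434266) (nat_lit 35) (.e (nat_lit 630821) (nat_lit 16) (.e (nat_lit 65583) (nat_lit 7) (.e (nat_lit 319526) (nat_lit 15) (.e (nat_lit 278547) (nat_lit 8) (.e (nat_lit 303139) (nat_lit 10) .nil)))))) (.g (nat_lit 1) (.e (nat_lit 331459) (nat_lit 0) .nil) .nil))))) (.nd (nat_lit 8) (.nd (nat_lit 9) 
(.lf (nat_lit 565473) (.g (nat_lit 2855) (.e (nat_lit 434245) (nat_lit 28) (.e (nat_lit 573487) (nat_lit 14) (.e (nat_lit 73753) (nat_lit 8) (.e (nat_lit 557093) (nat_lit 12) (.e (nat_lit 163857) (nat_lit 0) (.e (nat_lit 5949) (nat_lit 322) (.e (nat_lit 57378) (nat_lit 3) (.e (nat_lit 98368) (nat_lit 27) .nil)))))))) (.g (nat_lit 1) (.e (nat_lit 329638) (nat_lit 0) .nil) .nil))) 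
(.lf (nat_lit 565985) (.g (nat_lit 2734) (.e (nat_lit 434248) (nat_lit 28) (.e (nat_lit 573482) (nat_lit 13) (.e (nat_lit 65569) (nat_lit 3) (.e (nat_lit 98334) (nat_lit 18) (.e (nat_lit 164195) (nat_lit 158) .nil))))) (.g (nat_lit 0) (.e (nat_lit 330839) (nat_lit 0) .nil) .nil)))) (.nd (nat_lit 9) 
(.lf (nat_lit 565729) (.g (nat_lit 2456) (.e (nat_lit 434247) (nat_lit 28) (.e (nat_lit 573477) (nat_lit 12) (.e (nat_lit 57750) (nat_lit 201) (.e (nat_lit 3090) (nat_lit 191) (.e (nat_lit 483364) (nat_lit 18) (.e (nat_lit 57685) (nat_lit 156) (.e (nat_lit 163917) (nat_lit 13) .nil))))))) (.g (nat_lit 1) (.e (nat_lit 330208) (nat_lit 0) .nil) .nil))) 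
(.lf (nat_lit 566241) (.g (nat_lit 3401) (.e (nat_lit 434270) (nat_lit 38) (.e (nat_lit 655375) (nat_lit 3) (.e (nat_lit 163978) (nat_lit 30) (.e (nat_lit 573479) (nat_lit 13) (.e (nat_lit 65619) (nat_lit 10) .nil))))) (.g (nat_lit 0) (.e (nat_lit 331826) (nat_lit 0) .nil) .nil)))))))) (.nd (nat_lit 5) (.nd (nat_lit 6) (.nd (nat_lit 7) (.nd (nat_lit 8) (.nd (nat_lit 9) 
(.lf (nat_lit 565265) (.g (nat_lit 1130) (.e (nat_lit 434244) (nat_lit 28) (.e (nat_lit 573471) (nat_lit 11) (.e (nat_lit 16425) (nat_lit 7) (.e (nat_lit 409617) (nat_lit 10) .nil)))) (.g (nat_lit 0) (.e (nat_lit 329070) (nat_lit 0) .nil) .nil))) 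
(.lf (nat_lit 565777) (.g (nat_lit 2870) (.e (nat_lit 434247) (nat_lit 28) (.e (nat_lit 573485) (nat_lit 13) (.e (nat_lit 65570) (nat_lit 3) (.e (nat_lit 98317) (nat_lit 9) (.e (nat_lit 336293) (nat_lit 15) (.e (nat_lit 7936) (nat_lit 195) (.e (nat_lit 516160) (nat_lit 10) .nil))))))) (.g (nat_lit 1) (.e (nat_lit 330329) (nat_lit 0) .nil) .nil)))) (.nd (nat_lit 9) 
(.lf (nat_lit 565521) (.g (nat_lit 1969) (.e (nat_lit 434245) (nat_lit 28) (.e (nat_lit 573488) (nat_lit 14) (.e (nat_lit 73755) (nat_lit 8) (.e (nat_lit 557090) (nat_lit 12) (.e (nat_lit 164007) (nat_lit 41) .nil))))) (.g (nat_lit 0) (.e (nat_lit 329750) (nat_lit 0) .nil) .nil))) 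
(.lf (nat_lit 566033) (.g (nat_lit 2995) (.e (nat_lit 434248) (nat_lit 28) (.e (nat_lit 573489) (nat_lit 14) (.e (nat_lit 73754) (nat_lit 8) (.e (nat_lit 557091) (nat_lit 12) (.e (nat_lit 164006) (nat_lit 41) .nil))))) (.g (nat_lit 0) (.e (nat_lit 331145) (nat_lit 0) .nil) .nil))))) (.nd (nat_lit 8) (.nd (nat_lit 9) 
(.lf (nat_lit 565393) (.g (nat_lit 1658) (.e (nat_lit 434245) (nat_lit 28) (.e (nat_lit 573471) (nat_lit 11) (.e (nat_lit 16469) (nat_lit 14) (.e (nat_lit 491540) (nat_lit 3) .nil)))) (.g (nat_lit 0) (.e (nat_lit 329431) (nat_lit 0) .nil) .nil))) 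
(.lf (nat_lit 565905) (.g (nat_lit 3159) (.e (nat_lit 434248) (nat_lit 28) (.e (nat_lit 573471) (nat_lit 11) (.e (nat_lit 16425) (nat_lit 7) (.e (nat_lit 409625) (nat_lit 10) .nil)))) (.g (nat_lit 0) (.e (nat_lit 330641) (nat_lit 0) .nil) .nil)))) (.nd (nat_lit 9) 
(.lf (nat_lit 565649) (.g (nat_lit 2865) (.e (nat_lit 434246) (nat_lit 28) (.e (nat_lit 573489) (nat_lit 14) (.e (nat_lit 73755) (nat_lit 8) (.e (nat_lit 557091) (nat_lit 12) (.e (nat_lit 164007) (nat_lit 41) .nil))))) (.g (nat_lit 0) (.e (nat_lit 330103) (nat_lit 0) .nil) .nil))) 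
(.lf (nat_lit 566161) (.g (nat_lit 412) (.e (nat_lit 434268) (nat_lit 36) (.e (nat_lit 639020) (nat_lit 16) (.e (nat_lit 65592) (nat_lit 9) .nil))) (.g (nat_lit 0) (.e (nat_lit 331512) (nat_lit 0) .nil) .nil)))))) (.nd (nat_lit 7) (.nd (nat_lit 8) (.nd (nat_lit 9) 
(.lf (nat_lit 565329) (.g (nat_lit 3541) (.e (nat_lit 434244) (nat_lit 28) (.e (nat_lit 573488) (nat_lit 14) (.e (nat_lit 73755) (nat_lit 8) (.e (nat_lit 557090) (nat_lit 12) (.e (nat_lit 163845) (nat_lit 0) (.e (nat_lit 5940) (nat_lit 322) (.e (nat_lit 57379) (nat_lit 3) (.e (nat_lit 98366) (nat_lit 27) .nil)))))))) (.g (nat_lit 1) (.e (nat_lit 329301) (nat_lit 0) .nil) .nil))) 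
(.lf (nat_lit 565841) (.g (nat_lit 3407) (.e (nat_lit 434247) (nat_lit 28) (.e (nat_lit 573489) (nat_lit 14) (.e (nat_lit 73755) (nat_lit 8) (.e (nat_lit 557090) (nat_lit 12) (.e (nat_lit 163856) (nat_lit 0) .nil))))) (.g (nat_lit 0) (.e (nat_lit 330510) (nat_lit 0) .nil) .nil)))) (.nd (nat_lit 9) 
(.lf (nat_lit 565585) (.g (nat_lit 1819) (.e (nat_lit 434246) (nat_lit 28) (.e (nat_lit 573482) (nat_lit 13) (.e (nat_lit 65571) (nat_lit 3) (.e (nat_lit 98313) (nat_lit 9) .nil)))) (.g (nat_lit 0) (.e (nat_lit 329881) (nat_lit 0) .nil) .nil))) 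
(.lf (nat_lit 566097) (.g (nat_lit 1637) (.e (nat_lit 434241) (nat_lit 27) (.e (nat_lit 565267) (nat_lit 4) (.e (nat_lit 65619) (nat_lit 10) (.e (nat_lit 344183) (nat_lit 49) (.e (nat_lit 819219) (nat_lit 4) (.e (nat_lit 172112) (nat_lit 10) .nil)))))) (.g (nat_lit 1) (.e (nat_lit 331428) (nat_lit 0) .nil) .nil))))) (.nd (nat_lit 8) (.nd (nat_lit 9) 
(.lf (nat_lit 565457) (.g (nat_lit 2437) (.e (nat_lit 434245) (nat_lit 28) (.e (nat_lit 573487) (nat_lit 14) (.e (nat_lit 73753) (nat_lit 8) (.e (nat_lit 557090) (nat_lit 12) (.e (nat_lit 163840) (nat_lit 0) .nil))))) (.g (nat_lit 0) (.e (nat_lit 329601) (nat_lit 0) .nil) .nil))) 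
(.lf (nat_lit 565969) (.g (nat_lit 4739) (.e (nat_lit 434248) (nat_lit 28) (.e (nat_lit 573475) (nat_lit 12) (.e (nat_lit 57574) (nat_lit 55) (.e (nat_lit 778466) (nat_lit 11) (.e (nat_lit 24608) (nat_lit 3) (.e (nat_lit 98356) (nat_lit 26) (.e (nat_lit 433920) (nat_lit 10) .nil))))))) (.g (nat_lit 1) (.e (nat_lit 330752) (nat_lit 0) .nil) .nil)))) (.nd (nat_lit 9) 
(.lf (nat_lit 565713) (.g (nat_lit 2009) (.e (nat_lit 434247) (nat_lit 28) (.e (nat_lit 573477) (nat_lit 12) (.e (nat_lit 57575) (nat_lit 55) (.e (nat_lit 778465) (nat_lit 11) (.e (nat_lit 24604) (nat_lit 2) .nil))))) (.g (nat_lit 0) (.e (nat_lit 330190) (nat_lit 0) .nil) .nil))) 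
(.lf (nat_lit 566225) (.g (nat_lit 1206) (.e (nat_lit 434276) (nat_lit 39) (.e (nat_lit 663585) (nat_lit 12) (.e (nat_lit 163998) (nat_lit 38) (.e (nat_lit 639020) (nat_lit 16) (.e (nat_lit 65627) (nat_lit 13) .nil))))) (.g (nat_lit 0) (.e (nat_lit 331758) (nat_lit 0) .nil) .nil))))))) (.nd (nat_lit 6) (.nd (nat_lit 7) (.nd (nat_lit 8) (.nd (nat_lit 9) 
(.lf (nat_lit 565297) (.g (nat_lit 2993) (.e (nat_lit 434244) (nat_lit 28) (.e (nat_lit 573481) (nat_lit 13) (.e (nat_lit 65569) (nat_lit 3) (.e (nat_lit 98317) (nat_lit 9) (.e (nat_lit 336288) (nat_lit 15) (.e (nat_lit 7936) (nat_lit 195) (.e (nat_lit 516160) (nat_lit 10) .nil))))))) (.g (nat_lit 1) (.e (nat_lit 329181) (nat_lit 0) .nil) .nil))) 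
(.lf (nat_lit 565809) (.g (nat_lit 2976) (.e (nat_lit 434247) (nat_lit 28) (.e (nat_lit 573489) (nat_lit 14) (.e (nat_lit 73755) (nat_lit 8) (.e (nat_lit 557067) (nat_lit 9) (.e (nat_lit 2603) (nat_lit 163) .nil))))) (.g (nat_lit 0) (.e (nat_lit 330431) (nat_lit 0) .nil) .nil)))) (.nd (nat_lit 9) 
(.lf (nat_lit 565553) (.g (nat_lit 2042) (.e (nat_lit 434246) (nat_lit 28) (.e (nat_lit 573471) (nat_lit 11) (.e (nat_lit 16431) (nat_lit 9) (.e (nat_lit 426140) (nat_lit 3) .nil)))) (.g (nat_lit 0) (.e (nat_lit 329826) (nat_lit 0) .nil) .nil))) 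
(.lf (nat_lit 566065) (.g (nat_lit 3543) (.e (nat_lit 434248) (nat_lit 28) (.e (nat_lit 573489) (nat_lit 14) (.e (nat_lit 73755) (nat_lit 8) (.e (nat_lit 557090) (nat_lit 12) (.e (nat_lit 163851) (nat_lit 0) (.e (nat_lit 5939) (nat_lit 322) (.e (nat_lit 57379) (nat_lit 3) (.e (nat_lit 98368) (nat_lit 27) .nil)))))))) (.g (nat_lit 1) (.e (nat_lit 331257) (nat_lit 0) .nil) .nil))))) 
(.nd (nat_lit 8) (.nd (nat_lit 9) 
(.lf (nat_lit 565425) (.g (nat_lit 3080) (.e (nat_lit 434245) (nat_lit 28) (.e (nat_lit 573481) (nat_lit 13) (.e (nat_lit 65571) (nat_lit 3) (.e (nat_lit 98317) (nat_lit 9) (.e (nat_lit 336288) (nat_lit 15) .nil))))) (.g (nat_lit 0) (.e (nat_lit 329517) (nat_lit 0) .nil) .nil))) 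
(.lf (nat_lit 565937) (.g (nat_lit 2109) (.e (nat_lit 434248) (nat_lit 28) (.e (nat_lit 573471) (nat_lit 11) (.e (nat_lit 16457) (nat_lit 12) (.e (nat_lit 475185) (nat_lit 29) (.e (nat_lit 557100) (nat_lit 13) .nil))))) (.g (nat_lit 0) (.e (nat_lit 330716) (nat_lit 0) .nil) .nil)))) (.nd (nat_lit 9) 
(.lf (nat_lit 565681) (.g (nat_lit 1084) (.e (nat_lit 434247) (nat_lit 28) (.e (nat_lit 573471) (nat_lit 11) (.e (nat_lit 16392) (nat_lit 0) .nil))) (.g (nat_lit 0) (.e (nat_lit 330148) (nat_lit 0) .nil) .nil))) 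
(.lf (nat_lit 566193) (.g (nat_lit 1152) (.e (nat_lit 434269) (nat_lit 36) (.e (nat_lit 639021) (nat_lit 16) (.e (nat_lit 65616) (nat_lit 10) (.e (nat_lit 344157) (nat_lit 36) (.e (nat_lit 638999) (nat_lit 8) (.e (nat_lit 172107) (nat_lit 10) .nil)))))) (.g (nat_lit 1) (.e (nat_lit 331585) (nat_lit 0) .nil) .nil)))))) (.nd (nat_lit 7) (.nd (nat_lit 8) (.nd (nat_lit 9) 
(.lf (nat_lit 565361) (.g (nat_lit 2126) (.e (nat_lit 434245) (nat_lit 28) (.e (nat_lit 573470) (nat_lit 11) (.e (nat_lit 16470) (nat_lit 14) (.e (nat_lit 491535) (nat_lit 2) (.e (nat_lit 90170) (nat_lit 13) .nil))))) (.g (nat_lit 0) (.e (nat_lit 329383) (nat_lit 0) .nil) .nil))) 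
(.lf (nat_lit 565873) (.g (nat_lit 2300) (.e (nat_lit 434247) (nat_lit 28) (.e (nat_lit 573489) (nat_lit 14) (.e (nat_lit 73755) (nat_lit 8) (.e (nat_lit 557119) (nat_lit 18) (.e (nat_lit 2796) (nat_lit 180) .nil))))) (.g (nat_lit 0) (.e (nat_lit 330570) (nat_lit 0) .nil) .nil)))) (.nd (nat_lit 9) 
(.lf (nat_lit 565617) (.g (nat_lit 1293) (.e (nat_lit 434246) (nat_lit 28) (.e (nat_lit 573489) (nat_lit 14) (.e (nat_lit 73757) (nat_lit 11) (.e (nat_lit 581649) (nat_lit 4) .nil)))) (.g (nat_lit 0) (.e (nat_lit 330005) (nat_lit 0) .nil) .nil))) 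
(.lf (nat_lit 566129) (.g (nat_lit 978) (.e (nat_lit 434266) (nat_lit 35) (.e (nat_lit 630821) (nat_lit 16) (.e (nat_lit 65616) (nat_lit 10) (.e (nat_lit 344157) (nat_lit 36) (.e (nat_lit 638999) (nat_lit 8) (.e (nat_lit 172107) (nat_lit 10) .nil)))))) (.g (nat_lit 1) (.e (nat_lit 331475) (nat_lit 0) .nil) .nil))))) (.nd (nat_lit 8) (.nd (nat_lit 9) 
(.lf (nat_lit 565489) (.g (nat_lit 1977) (.e (nat_lit 434245) (nat_lit 28) (.e (nat_lit 573488) (nat_lit 14) (.e (nat_lit 73755) (nat_lit 8) (.e (nat_lit 557065) (nat_lit 9) (.e (nat_lit 2604) (nat_lit 163) .nil))))) (.g (nat_lit 0) (.e (nat_lit 329695) (nat_lit 0) .nil) .nil))) 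
(.lf (nat_lit 566001) (.g (nat_lit 2367) (.e (nat_lit 434248) (nat_lit 28) (.e (nat_lit 573487) (nat_lit 14) (.e (nat_lit 73746) (nat_lit 3) (.e (nat_lit 516117) (nat_lit 1) (.e (nat_lit 164195) (nat_lit 158) .nil))))) (.g (nat_lit 0) (.e (nat_lit 330958) (nat_lit 0) .nil) .nil)))) (.nd (nat_lit 9) 
(.lf (nat_lit 565745) (.g (nat_lit 789) (.e (nat_lit 434247) (nat_lit 28) (.e (nat_lit 573484) (nat_lit 13) (.e (nat_lit 65545) (nat_lit 0) .nil))) (.g (nat_lit 0) (.e (nat_lit 330252) (nat_lit 0) .nil) .nil))) 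
(.lf (nat_lit 566257) (.g (nat_lit 4122) (.e (nat_lit 434271) (nat_lit 38) (.e (nat_lit 655373) (nat_lit 3) (.e (nat_lit 163979) (nat_lit 30) (.e (nat_lit 573482) (nat_lit 13) (.e (nat_lit 65604) (nat_lit 9) (.e (nat_lit 336028) (nat_lit 3) (.e (nat_lit 98366) (nat_lit 27) .nil))))))) (.g (nat_lit 1) (.e (nat_lit 331850) (nat_lit 0) .nil) .nil))))))))) 
(.nd (nat_lit 4) (.nd (nat_lit 5) (.nd (nat_lit 6) (.nd (nat_lit 7) (.nd (nat_lit 8) 
(.nd (nat_lit 9) 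
(.lf (nat_lit 565257) (.g (nat_lit 2384) (.e (nat_lit 434244) (nat_lit 28) (.e (nat_lit 573458) (nat_lit 9) (.e (nat_lit 426) (nat_lit 32) (.e (nat_lit 426344) (nat_lit 14) (.e (nat_lit 491536) (nat_lit 2) (.e (nat_lit 90170) (nat_lit 13) (.e (nat_lit 172106) (nat_lit 10) .nil))))))) (.g (nat_lit 1) (.e (nat_lit 329040) (nat_lit 0) .nil) .nil))) 
(.lf (nat_lit 565769) (.g (nat_lit 2455) (.e (nat_lit 434247) (nat_lit 28) (.e (nat_lit 573485) (nat_lit 13) (.e (nat_lit 65568) (nat_lit 2) (.e (nat_lit 90160) (nat_lit 11) (.e (nat_lit 24669) (nat_lit 15) .nil))))) (.g (nat_lit 0) (.e (nat_lit 330318) (nat_lit 0) .nil) .nil)))) (.nd (nat_lit 9) 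
(.lf (nat_lit 565513) (.g (nat_lit 2636) (.e (nat_lit 434245) (nat_lit 28) (.e (nat_lit 573488) (nat_lit 14) (.e (nat_lit 73755) (nat_lit 8) (.e (nat_lit 557090) (nat_lit 12) (.e (nat_lit 163851) (nat_lit 0) .nil))))) (.g (nat_lit 0) (.e (nat_lit 329729) (nat_lit 0) .nil) .nil))) 
(.lf (nat_lit 566025) (.g (nat_lit 2093) (.e (nat_lit 434248) (nat_lit 28) (.e (nat_lit 573489) (nat_lit 14) (.e (nat_lit 73748) (nat_lit 3) (.e (nat_lit 516119) (nat_lit 1) (.e (nat_lit 164196) (nat_lit 158) .nil))))) (.g (nat_lit 0) (.e (nat_lit 331127) (nat_lit 0) .nil) .nil))))) (.nd (nat_lit 8) (.nd (nat_lit 9) 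
(.lf (nat_lit 565385) (.g (nat_lit 1228) (.e (nat_lit 434245) (nat_lit 28) (.e (nat_lit 573471) (nat_lit 11) (.e (nat_lit 16440) (nat_lit 9) (.e (nat_lit 426135) (nat_lit 3) (.e (nat_lit 204885) (nat_lit 33) .nil))))) (.g (nat_lit 0) (.e (nat_lit 329418) (nat_lit 0) .nil) .nil))) 
(.lf (nat_lit 565897) (.g (nat_lit 3115) (.e (nat_lit 434248) (nat_lit 28) (.e (nat_lit 573471) (nat_lit 11) (.e (nat_lit 16425) (nat_lit 7) (.e (nat_lit 409608) (nat_lit 10) .nil)))) (.g (nat_lit 0) (.e (nat_lit 330631) (nat_lit 0) .nil) .nil)))) (.nd (nat_lit 9) 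
(.lf (nat_lit 565641) (.g (nat_lit 2889) (.e (nat_lit 434246) (nat_lit 28) (.e (nat_lit 573489) (nat_lit 14) (.e (nat_lit 73755) (nat_lit 8) (.e (nat_lit 557090) (nat_lit 12) (.e (nat_lit 164008) (nat_lit 41) .nil))))) (.g (nat_lit 0) (.e (nat_lit 330084) (nat_lit 0) .nil) .nil))) 
(.lf (nat_lit 566153) (.g (nat_lit 3846) (.e (nat_lit 434268) (nat_lit 36) (.e (nat_lit 639020) (nat_lit 16) (.e (nat_lit 65583) (nat_lit 7) (.e (nat_lit 319530) (nat_lit 16) (.e (nat_lit 286762) (nat_lit 14) (.e (nat_lit 401448) (nat_lit 10) .nil)))))) (.g (nat_lit 1) (.e (nat_lit 331503) (nat_lit 0) .nil) .nil)))))) (.nd (nat_lit 7) (.nd (nat_lit 8) (.nd (nat_lit 9) 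
(.lf (nat_lit 565321) (.g (nat_lit 478) (.e (nat_lit 434244) (nat_lit 28) (.e (nat_lit 573488) (nat_lit 14) (.e (nat_lit 73755) (nat_lit 8) .nil))) (.g (nat_lit 0) (.e (nat_lit 329291) (nat_lit 0) .nil) .nil))) 
(.lf (nat_lit 565833) (.g (nat_lit 3898) (.e (nat_lit 434247) (nat_lit 28) (.e (nat_lit 573489) (nat_lit 14) (.e (nat_lit 73755) (nat_lit 8) (.e (nat_lit 557090) (nat_lit 12) (.e (nat_lit 163840) (nat_lit 0) (.e (nat_lit 5937) (nat_lit 322) (.e (nat_lit 57378) (nat_lit 3) (.e (nat_lit 98368) (nat_lit 27) .nil)))))))) (.g (nat_lit 1) (.e (nat_lit 330486) (nat_lit 0) .nil) .nil)))) (.nd (nat_lit 9) 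
(.lf (nat_lit 565577) (.g (nat_lit 3357) (.e (nat_lit 434246) (nat_lit 28) (.e (nat_lit 573482) (nat_lit 13) (.e (nat_lit 65568) (nat_lit 2) (.e (nat_lit 90160) (nat_lit 11) (.e (nat_lit 24671) (nat_lit 15) .nil))))) (.g (nat_lit 0) (.e (nat_lit 329864) (nat_lit 0) .nil) .nil))) 
(.lf (nat_lit 566089) (.g (nat_lit 186) (.e (nat_lit 434241) (nat_lit 27) (.e (nat_lit 565267) (nat_lit 4) (.e (nat_lit 65610) (nat_lit 10) .nil))) (.g (nat_lit 0) (.e (nat_lit 331414) (nat_lit 0) .nil) .nil))))) (.nd (nat_lit 8) (.nd (nat_lit 9) 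
(.lf (nat_lit 565449) (.g (nat_lit 533) (.e (nat_lit 434245) (nat_lit 28) (.e (nat_lit 573487) (nat_lit 14) (.e (nat_lit 73753) (nat_lit 8) .nil))) (.g (nat_lit 0) (.e (nat_lit 329587) (nat_lit 0) .nil) .nil))) 
(.lf (nat_lit 565961) (.g (nat_lit 4454) (.e (nat_lit 434248) (nat_lit 28) (.e (nat_lit 573473) (nat_lit 12) (.e (nat_lit 57572) (nat_lit 54) (.e (nat_lit 770072) (nat_lit 8) (.e (nat_lit 65571) (nat_lit 3) (.e (nat_lit 98359) (nat_lit 26) (.e (nat_lit 426286) (nat_lit 10) .nil))))))) (.g (nat_lit 1) (.e (nat_lit 330740) (nat_lit 0) .nil) .nil)))) (.nd (nat_lit 9) 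
(.lf (nat_lit 565705) (.g (nat_lit 1678) (.e (nat_lit 434247) (nat_lit 28) (.e (nat_lit 573477) (nat_lit 12) (.e (nat_lit 57574) (nat_lit 55) (.e (nat_lit 778466) (nat_lit 11) (.e (nat_lit 24603) (nat_lit 2) (.e (nat_lit 90166) (nat_lit 13) (.e (nat_lit 172112) (nat_lit 10) .nil))))))) (.g (nat_lit 1) (.e (nat_lit 330182) (nat_lit 0) .nil) .nil))) 
(.lf (nat_lit 566217) (.g (nat_lit 1896) (.e (nat_lit 434275) (nat_lit 39) (.e (nat_lit 663589) (nat_lit 14) (.e (nat_lit 2798) (nat_lit 180) (.e (nat_lit 303132) (nat_lit 9) (.e (nat_lit 426025) (nat_lit 0) .nil))))) (.g (nat_lit 0) (.e (nat_lit 331704) (nat_lit 0) .nil) .nil))))))) (.nd (nat_lit 6) (.nd (nat_lit 7) (.nd (nat_lit 8) (.nd (nat_lit 9) 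
(.lf (nat_lit 565289) (.g (nat_lit 423) (.e (nat_lit 434244) (nat_lit 28) (.e (nat_lit 573474) (nat_lit 12) (.e (nat_lit 57507) (nat_lit 39) .nil))) (.g (nat_lit 0) (.e (nat_lit 329132) (nat_lit 0) .nil) .nil))) 
(.lf (nat_lit 565801) (.g (nat_lit 362) (.e (nat_lit 434247) (nat_lit 28) (.e (nat_lit 573489) (nat_lit 14) (.e (nat_lit 73755) (nat_lit 8) .nil))) (.g (nat_lit 0) (.e (nat_lit 330411) (nat_lit 0) .nil) .nil)))) (.nd (nat_lit 9) 
(.lf (nat_lit 565545) (.g (nat_lit 2243) (.e (nat_lit 434246) (nat_lit 28) (.e (nat_lit 573450) (nat_lit 9) (.e (nat_lit 375) (nat_lit 32) (.e (nat_lit 426289) (nat_lit 10) .nil)))) (.g (nat_lit 0) (.e (nat_lit 329818) (nat_lit 0) .nil) .nil))) 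
(.lf (nat_lit 566057) (.g (nat_lit 3865) (.e (nat_lit 434248) (nat_lit 28) (.e (nat_lit 573489) (nat_lit 14) (.e (nat_lit 73755) (nat_lit 8) (.e (nat_lit 557090) (nat_lit 12) (.e (nat_lit 163841) (nat_lit 0) (.e (nat_lit 5943) (nat_lit 322) (.e (nat_lit 57379) (nat_lit 3) (.e (nat_lit 98366) (nat_lit 27) .nil)))))))) (.g (nat_lit 1) (.e (nat_lit 331227) (nat_lit 0) .nil) .nil))))) 
(.nd (nat_lit 8) (.nd (nat_lit 9) 
(.lf (nat_lit 565417) (.g (nat_lit 2763) (.e (nat_lit 434245) (nat_lit 28) (.e (nat_lit 573481) (nat_lit 13) (.e (nat_lit 65569) (nat_lit 3) (.e (nat_lit 98317) (nat_lit 9) (.e (nat_lit 336288) (nat_lit 15) (.e (nat_lit 7936) (nat_lit 195) (.e (nat_lit 516160) (nat_lit 10) .nil))))))) (.g (nat_lit 1) (.e (nat_lit 329491) (nat_lit 0) .nil) .nil))) 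
(.lf (nat_lit 565929) (.g (nat_lit 2823) (.e (nat_lit 434248) (nat_lit 28) (.e (nat_lit 573471) (nat_lit 11) (.e (nat_lit 16446) (nat_lit 9) (.e (nat_lit 426139) (nat_lit 3) (.e (nat_lit 204885) (nat_lit 33) .nil))))) (.g (nat_lit 0) (.e (nat_lit 330695) (nat_lit 0) .nil) .nil)))) (.nd (nat_lit 9) 
(.lf (nat_lit 565673) (.g (nat_lit 5205) (.e (nat_lit 434247) (nat_lit 28) (.e (nat_lit 573469) (nat_lit 11) (.e (nat_lit 16433) (nat_lit 9) (.e (nat_lit 426354) (nat_lit 15) (.e (nat_lit 1860) (nat_lit 124) (.e (nat_lit 557100) (nat_lit 13) (.e (nat_lit 172113) (nat_lit 10) .nil))))))) (.g (nat_lit 1) (.e (nat_lit 330139) (nat_lit 0) .nil) .nil))) 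
(.lf (nat_lit 566185) (.g (nat_lit 438) (.e (nat_lit 434269) (nat_lit 36) (.e (nat_lit 639020) (nat_lit 16) (.e (nat_lit 65585) (nat_lit 7) .nil))) (.g (nat_lit 0) (.e (nat_lit 331566) (nat_lit 0) .nil) .nil)))))) (.nd (nat_lit 7) (.nd (nat_lit 8) (.nd (nat_lit 9) 
(.lf (nat_lit 565353) (.g (nat_lit 4020) (.e (nat_lit 434245) (nat_lit 28) (.e (nat_lit 573469) (nat_lit 11) (.e (nat_lit 16461) (nat_lit 12) (.e (nat_lit 475185) (nat_lit 29) (.e (nat_lit 557100) (nat_lit 13) (.e (nat_lit 172113) (nat_lit 10) .nil)))))) (.g (nat_lit 1) (.e (nat_lit 329375) (nat_lit 0) .nil) .nil))) 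
(.lf (nat_lit 565865) (.g (nat_lit 2681) (.e (nat_lit 434247) (nat_lit 28) (.e (nat_lit 573489) (nat_lit 14) (.e (nat_lit 73755) (nat_lit 8) (.e (nat_lit 557092) (nat_lit 12) .nil)))) (.g (nat_lit 0) (.e (nat_lit 330562) (nat_lit 0) .nil) .nil)))) (.nd (nat_lit 9) 
(.lf (nat_lit 565609) (.g (nat_lit 2372) (.e (nat_lit 434246) (nat_lit 28) (.e (nat_lit 573487) (nat_lit 14) (.e (nat_lit 73753) (nat_lit 8) (.e (nat_lit 557090) (nat_lit 12) (.e (nat_lit 164005) (nat_lit 41) .nil))))) (.g (nat_lit 0) (.e (nat_lit 329979) (nat_lit 0) .nil) .nil))) 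
(.lf (nat_lit 566121) (.g (nat_lit 849) (.e (nat_lit 434266) (nat_lit 35) (.e (nat_lit 630821) (nat_lit 16) (.e (nat_lit 65586) (nat_lit 7) (.e (nat_lit 319526) (nat_lit 15) (.e (nat_lit 278547) (nat_lit 8) .nil))))) (.g (nat_lit 0) (.e (nat_lit 331467) (nat_lit 0) .nil) .nil))))) (.nd (nat_lit 8) (.nd (nat_lit 9) 
(.lf (nat_lit 565481) (.g (nat_lit 2170) (.e (nat_lit 434245) (nat_lit 28) (.e (nat_lit 573488) (nat_lit 14) (.e (nat_lit 73747) (nat_lit 3) (.e (nat_lit 516119) (nat_lit 1) (.e (nat_lit 164196) (nat_lit 158) .nil))))) (.g (nat_lit 0) (.e (nat_lit 329678) (nat_lit 0) .nil) .nil))) 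
(.lf (nat_lit 565993) (.g (nat_lit 394) (.e (nat_lit 434248) (nat_lit 28) (.e (nat_lit 573482) (nat_lit 13) (.e (nat_lit 73472) (nat_lit 5) .nil))) (.g (nat_lit 0) (.e (nat_lit 330908) (nat_lit 0) .nil) .nil)))) (.nd (nat_lit 9) 
(.lf (nat_lit 565737) (.g (nat_lit 1423) (.e (nat_lit 434247) (nat_lit 28) (.e (nat_lit 573478) (nat_lit 12) (.e (nat_lit 57574) (nat_lit 55) (.e (nat_lit 778465) (nat_lit 11) (.e (nat_lit 24603) (nat_lit 2) (.e (nat_lit 90166) (nat_lit 13) (.e (nat_lit 172111) (nat_lit 10) .nil))))))) (.g (nat_lit 1) (.e (nat_lit 330230) (nat_lit 0) .nil) .nil))) 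
(.lf (nat_lit 566249) (.g (nat_lit 438) (.e (nat_lit 434270) (nat_lit 38) (.e (nat_lit 655378) (nat_lit 4) (.e (nat_lit 172126) (nat_lit 14) .nil))) (.g (nat_lit 0) (.e (nat_lit 331837) (nat_lit 0) .nil) .nil)))))))) (.nd (nat_lit 5) (.nd (nat_lit 6) (.nd (nat_lit 7) (.nd (nat_lit 8) (.nd (nat_lit 9) 
(.lf (nat_lit 565273) (.g (nat_lit 3223) (.e (nat_lit 434244) (nat_lit 28) (.e (nat_lit 573471) (nat_lit 11) (.e (nat_lit 16433) (nat_lit 9) (.e (nat_lit 426375) (nat_lit 15) .nil)))) (.g (nat_lit 0) (.e (nat_lit 329095) (nat_lit 0) .nil) .nil))) 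
(.lf (nat_lit 565785) (.g (nat_lit 1417) (.e (nat_lit 434247) (nat_lit 28) (.e (nat_lit 573487) (nat_lit 14) (.e (nat_lit 73753) (nat_lit 8) (.e (nat_lit 557056) (nat_lit 0) .nil)))) (.g (nat_lit 0) (.e (nat_lit 330366) (nat_lit 0) .nil) .nil)))) (.nd (nat_lit 9) 
(.lf (nat_lit 565529) (.g (nat_lit 2715) (.e (nat_lit 434245) (nat_lit 28) (.e (nat_lit 573488) (nat_lit 14) (.e (nat_lit 73755) (nat_lit 8) (.e (nat_lit 557091) (nat_lit 12) (.e (nat_lit 163856) (nat_lit 0) (.e (nat_lit 5949) (nat_lit 322) (.e (nat_lit 57378) (nat_lit 3) (.e (nat_lit 98368) (nat_lit 27) .nil)))))))) (.g (nat_lit 1) (.e (nat_lit 329769) (nat_lit 0) .nil) .nil))) 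
(.lf (nat_lit 566041) (.g (nat_lit 3536) (.e (nat_lit 434248) (nat_lit 28) (.e (nat_lit 573489) (nat_lit 14) (.e (nat_lit 73755) (nat_lit 8) (.e (nat_lit 557067) (nat_lit 9) (.e (nat_lit 2603) (nat_lit 163) (.e (nat_lit 164399) (nat_lit 256) (.e (nat_lit 57378) (nat_lit 3) (.e (nat_lit 98368) (nat_lit 27) .nil)))))))) (.g (nat_lit 1) (.e (nat_lit 331179) (nat_lit 0) .nil) .nil))))) 
(.nd (nat_lit 8) (.nd (nat_lit 9) 
(.lf (nat_lit 565401) (.g (nat_lit 886) (.e (nat_lit 434245) (nat_lit 28) (.e (nat_lit 573474) (nat_lit 12) (.e (nat_lit 57574) (nat_lit 55) (.e (nat_lit 778466) (nat_lit 11) .nil)))) (.g (nat_lit 0) (.e (nat_lit 329440) (nat_lit 0) .nil) .nil))) 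
(.lf (nat_lit 565913) (.g (nat_lit 2857) (.e (nat_lit 434248) (nat_lit 28) (.e (nat_lit 573471) (nat_lit 11) (.e (nat_lit 16433) (nat_lit 9) (.e (nat_lit 426357) (nat_lit 15) .nil)))) (.g (nat_lit 0) (.e (nat_lit 330654) (nat_lit 0) .nil) .nil)))) (.nd (nat_lit 9) 
(.lf (nat_lit 565657) (.g (nat_lit 2897) (.e (nat_lit 434246) (nat_lit 28) (.e (nat_lit 573489) (nat_lit 14) (.e (nat_lit 73755) (nat_lit 8) (.e (nat_lit 557119) (nat_lit 18) (.e (nat_lit 2817) (nat_lit 181) (.e (nat_lit 319232) (nat_lit 18) (.e (nat_lit 98367) (nat_lit 27) .nil))))))) (.g (nat_lit 1) (.e (nat_lit 330112) (nat_lit 0) .nil) .nil))) 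
(.lf (nat_lit 566169) (.g (nat_lit 1310) (.e (nat_lit 434268) (nat_lit 36) (.e (nat_lit 639020) (nat_lit 16) (.e (nat_lit 65617) (nat_lit 10) (.e (nat_lit 344154) (nat_lit 35) .nil)))) (.g (nat_lit 0) (.e (nat_lit 331527) (nat_lit 0) .nil) .nil)))))) (.nd (nat_lit 7) (.nd (nat_lit 8) (.nd (nat_lit 9) 
(.lf (nat_lit 565337) (.g (nat_lit 1488) (.e (nat_lit 434244) (nat_lit 28) (.e (nat_lit 573488) (nat_lit 14) (.e (nat_lit 73755) (nat_lit 8) (.e (nat_lit 557091) (nat_lit 12) .nil)))) (.g (nat_lit 0) (.e (nat_lit 329323) (nat_lit 0) .nil) .nil))) 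
(.lf (nat_lit 565849) (.g (nat_lit 3498) (.e (nat_lit 434247) (nat_lit 28) (.e (nat_lit 573489) (nat_lit 14) (.e (nat_lit 73755) (nat_lit 8) (.e (nat_lit 557090) (nat_lit 12) (.e (nat_lit 164012) (nat_lit 42) .nil))))) (.g (nat_lit 0) (.e (nat_lit 330525) (nat_lit 0) .nil) .nil)))) (.nd (nat_lit 9) 
(.lf (nat_lit 565593) (.g (nat_lit 1510) (.e (nat_lit 434246) (nat_lit 28) (.e (nat_lit 573484) (nat_lit 13) (.e (nat_lit 65571) (nat_lit 3) (.e (nat_lit 106240) (nat_lit 15) .nil)))) (.g (nat_lit 0) (.e (nat_lit 329912) (nat_lit 0) .nil) .nil))) 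
(.lf (nat_lit 566105) (.g (nat_lit 541) (.e (nat_lit 434241) (nat_lit 27) (.e (nat_lit 565269) (nat_lit 6) (.e (nat_lit 81942) (nat_lit 20) (.e (nat_lit 2389) (nat_lit 156) .nil)))) (.g (nat_lit 0) (.e (nat_lit 331437) (nat_lit 0) .nil) .nil))))) (.nd (nat_lit 8) (.nd (nat_lit 9) 
(.lf (nat_lit 565465) (.g (nat_lit 2458) (.e (nat_lit 434245) (nat_lit 28) (.e (nat_lit 573487) (nat_lit 14) (.e (nat_lit 73753) (nat_lit 8) (.e (nat_lit 557091) (nat_lit 12) (.e (nat_lit 163841) (nat_lit 0) .nil))))) (.g (nat_lit 0) (.e (nat_lit 329622) (nat_lit 0) .nil) .nil))) 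
(.lf (nat_lit 565977) (.g (nat_lit 417) (.e (nat_lit 434248) (nat_lit 28) (.e (nat_lit 573482) (nat_lit 13) (.e (nat_lit 65568) (nat_lit 2) .nil))) (.g (nat_lit 0) (.e (nat_lit 330809) (nat_lit 0) .nil) .nil)))) (.nd (nat_lit 9) 
(.lf (nat_lit 565721) (.g (nat_lit 2317) (.e (nat_lit 434247) (nat_lit 28) (.e (nat_lit 573477) (nat_lit 12) (.e (nat_lit 57575) (nat_lit 55) (.e (nat_lit 778466) (nat_lit 11) (.e (nat_lit 24608) (nat_lit 3) (.e (nat_lit 98365) (nat_lit 26) (.e (nat_lit 426287) (nat_lit 10) .nil))))))) (.g (nat_lit 1) (.e (nat_lit 330198) (nat_lit 0) .nil) .nil))) 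
(.lf (nat_lit 566233) (.g (nat_lit 890) (.e (nat_lit 434279) (nat_lit 39) (.e (nat_lit 663583) (nat_lit 11) (.e (nat_lit 24639) (nat_lit 10) (.e (nat_lit 344154) (nat_lit 35) .nil)))) (.g (nat_lit 0) (.e (nat_lit 331794) (nat_lit 0) .nil) .nil))))))) (.nd (nat_lit 6) (.nd (nat_lit 7) (.nd (nat_lit 8) (.nd (nat_lit 9) 
(.lf (nat_lit 565305) (.g (nat_lit 2305) (.e (nat_lit 434244) (nat_lit 28) (.e (nat_lit 573487) (nat_lit 14) (.e (nat_lit 73746) (nat_lit 3) (.e (nat_lit 516117) (nat_lit 1) (.e (nat_lit 164195) (nat_lit 158) .nil))))) (.g (nat_lit 0) (.e (nat_lit 329217) (nat_lit 0) .nil) .nil))) 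
(.lf (nat_lit 565817) (.g (nat_lit 2516) (.e (nat_lit 434247) (nat_lit 28) (.e (nat_lit 573489) (nat_lit 14) (.e (nat_lit 73755) (nat_lit 8) (.e (nat_lit 557074) (nat_lit 9) (.e (nat_lit 2609) (nat_lit 163) .nil))))) (.g (nat_lit 0) (.e (nat_lit 330453) (nat_lit 0) .nil) .nil)))) (.nd (nat_lit 9) 
(.lf (nat_lit 565561) (.g (nat_lit 1254) (.e (nat_lit 434246) (nat_lit 28) (.e (nat_lit 573471) (nat_lit 11) (.e (nat_lit 16453) (nat_lit 11) (.e (nat_lit 458787) (nat_lit 23) .nil)))) (.g (nat_lit 0) (.e (nat_lit 329838) (nat_lit 0) .nil) .nil))) 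
(.lf (nat_lit 566073) (.g (nat_lit 3105) (.e (nat_lit 434248) (nat_lit 28) (.e (nat_lit 573489) (nat_lit 14) (.e (nat_lit 73755) (nat_lit 8) (.e (nat_lit 557091) (nat_lit 12) (.e (nat_lit 163844) (nat_lit 0) .nil))))) (.g (nat_lit 0) (.e (nat_lit 331313) (nat_lit 0) .nil) .nil))))) (.nd (nat_lit 8) (.nd (nat_lit 9) 
(.lf (nat_lit 565433) (.g (nat_lit 631) (.e (nat_lit 434245) (nat_lit 28) (.e (nat_lit 573487) (nat_lit 14) (.e (nat_lit 73738) (nat_lit 1) .nil))) (.g (nat_lit 0) (.e (nat_lit 329557) (nat_lit 0) .nil) .nil))) 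
(.lf (nat_lit 565945) (.g (nat_lit 3505) (.e (nat_lit 434248) (nat_lit 28) (.e (nat_lit 573471) (nat_lit 11) (.e (nat_lit 16470) (nat_lit 14) (.e (nat_lit 491536) (nat_lit 2) .nil)))) (.g (nat_lit 0) (.e (nat_lit 330724) (nat_lit 0) .nil) .nil)))) (.nd (nat_lit 9) 
(.lf (nat_lit 565689) (.g (nat_lit 2911) (.e (nat_lit 434247) (nat_lit 28) (.e (nat_lit 573471) (nat_lit 11) (.e (nat_lit 16456) (nat_lit 12) (.e (nat_lit 475185) (nat_lit 29) (.e (nat_lit 557100) (nat_lit 13) .nil))))) (.g (nat_lit 0) (.e (nat_lit 330163) (nat_lit 0) .nil) .nil))) 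
(.lf (nat_lit 566201) (.g (nat_lit 1544) (.e (nat_lit 434269) (nat_lit 36) (.e (nat_lit 639021) (nat_lit 16) (.e (nat_lit 65620) (nat_lit 10) (.e (nat_lit 344157) (nat_lit 36) (.e (nat_lit 638999) (nat_lit 8) (.e (nat_lit 172115) (nat_lit 10) .nil)))))) (.g (nat_lit 1) (.e (nat_lit 331596) (nat_lit 0) .nil) .nil)))))) (.nd (nat_lit 7) (.nd (nat_lit 8) (.nd (nat_lit 9) 
(.lf (nat_lit 565369) (.g (nat_lit 1175) (.e (nat_lit 434245) (nat_lit 28) (.e (nat_lit 573471) (nat_lit 11) (.e (nat_lit 16425) (nat_lit 7) (.e (nat_lit 409617) (nat_lit 10) .nil)))) (.g (nat_lit 0) (.e (nat_lit 329396) (nat_lit 0) .nil) .nil))) 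
(.lf (nat_lit 565881) (.g (nat_lit 2736) (.e (nat_lit 434248) (nat_lit 28) (.e (nat_lit 573450) (nat_lit 9) (.e (nat_lit 375) (nat_lit 32) (.e (nat_lit 426340) (nat_lit 14) (.e (nat_lit 491537) (nat_lit 2) .nil))))) (.g (nat_lit 0) (.e (nat_lit 330597) (nat_lit 0) .nil) .nil)))) (.nd (nat_lit 9) 
(.lf (nat_lit 565625) (.g (nat_lit 2585) (.e (nat_lit 434246) (nat_lit 28) (.e (nat_lit 573489) (nat_lit 14) (.e (nat_lit 73755) (nat_lit 8) (.e (nat_lit 557084) (nat_lit 10) .nil)))) (.g (nat_lit 0) (.e (nat_lit 330046) (nat_lit 0) .nil) .nil))) 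
(.lf (nat_lit 566137) (.g (nat_lit 1043) (.e (nat_lit 434266) (nat_lit 35) (.e (nat_lit 630821) (nat_lit 16) (.e (nat_lit 65620) (nat_lit 10) (.e (nat_lit 344157) (nat_lit 36) (.e (nat_lit 638999) (nat_lit 8) (.e (nat_lit 172107) (nat_lit 10) .nil)))))) (.g (nat_lit 1) (.e (nat_lit 331483) (nat_lit 0) .nil) .nil))))) (.nd (nat_lit 8) (.nd (nat_lit 9) 
(.lf (nat_lit 565497) (.g (nat_lit 2039) (.e (nat_lit 434245) (nat_lit 28) (.e (nat_lit 573488) (nat_lit 14) (.e (nat_lit 73755) (nat_lit 8) (.e (nat_lit 557089) (nat_lit 12) (.e (nat_lit 164006) (nat_lit 41) .nil))))) (.g (nat_lit 0) (.e (nat_lit 329704) (nat_lit 0) .nil) .nil))) 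
(.lf (nat_lit 566009) (.g (nat_lit 2960) (.e (nat_lit 434248) (nat_lit 28) (.e (nat_lit 573487) (nat_lit 14) (.e (nat_lit 73747) (nat_lit 3) (.e (nat_lit 516120) (nat_lit 1) (.e (nat_lit 171776) (nat_lit 160) .nil))))) (.g (nat_lit 0) (.e (nat_lit 330987) (nat_lit 0) .nil) .nil)))) (.nd (nat_lit 9) 
(.lf (nat_lit 565753) (.g (nat_lit 1179) (.e (nat_lit 434247) (nat_lit 28) (.e (nat_lit 573484) (nat_lit 13) (.e (nat_lit 65568) (nat_lit 2) (.e (nat_lit 90189) (nat_lit 18) .nil)))) (.g (nat_lit 0) (.e (nat_lit 330270) (nat_lit 0) .nil) .nil))) 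
(.lf (nat_lit 566265) (.g (nat_lit 3087) (.e (nat_lit 434271) (nat_lit 38) (.e (nat_lit 655375) (nat_lit 3) (.e (nat_lit 163978) (nat_lit 30) (.e (nat_lit 573479) (nat_lit 13) (.e (nat_lit 65619) (nat_lit 10) .nil))))) (.g (nat_lit 0) (.e (nat_lit 331859) (nat_lit 0) .nil) .nil)))))))))) 
(.nd (nat_lit 3) (.nd (nat_lit 4) (.nd (nat_lit 5) (.nd (nat_lit 6) (.nd (nat_lit 7) 
(.nd (nat_lit 8) (.nd (nat_lit 9) 
(.lf (nat_lit 565253) (.g (nat_lit 3006) (.e (nat_lit 434244) (nat_lit 28) (.e (nat_lit 573458) (nat_lit 9) (.e (nat_lit 426) (nat_lit 32) (.e (nat_lit 426188) (nat_lit 9) (.e (nat_lit 426402) (nat_lit 15) (.e (nat_lit 1849) (nat_lit 124) (.e (nat_lit 557097) (nat_lit 13) (.e (nat_lit 172115) (nat_lit 10) .nil)))))))) (.g (nat_lit 1) (.e (nat_lit 329036) (nat_lit 0) .nil) .nil))) 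
(.lf (nat_lit 565765) (.g (nat_lit 2399) (.e (nat_lit 434247) (nat_lit 28) (.e (nat_lit 573485) (nat_lit 13) (.e (nat_lit 65567) (nat_lit 2) (.e (nat_lit 90160) (nat_lit 11) (.e (nat_lit 24668) (nat_lit 15) (.e (nat_lit 7936) (nat_lit 195) (.e (nat_lit 516160) (nat_lit 10) .nil))))))) (.g (nat_lit 1) (.e (nat_lit 330311) (nat_lit 0) .nil) .nil)))) (.nd (nat_lit 9) 
(.lf (nat_lit 565509) (.g (nat_lit 3567) (.e (nat_lit 434245) (nat_lit 28) (.e (nat_lit 573488) (nat_lit 14) (.e (nat_lit 73755) (nat_lit 8) (.e (nat_lit 557090) (nat_lit 12) (.e (nat_lit 163843) (nat_lit 0) (.e (nat_lit 5943) (nat_lit 322) (.e (nat_lit 57379) (nat_lit 3) (.e (nat_lit 98366) (nat_lit 27) .nil)))))))) (.g (nat_lit 1) (.e (nat_lit 329721) (nat_lit 0) .nil) .nil))) 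
(.lf (nat_lit 566021) (.g (nat_lit 2924) (.e (nat_lit 434248) (nat_lit 28) (.e (nat_lit 573487) (nat_lit 14) (.e (nat_lit 73753) (nat_lit 8) (.e (nat_lit 557093) (nat_lit 12) (.e (nat_lit 163857) (nat_lit 0) (.e (nat_lit 5949) (nat_lit 322) (.e (nat_lit 57378) (nat_lit 3) (.e (nat_lit 98368) (nat_lit 27) .nil)))))))) (.g (nat_lit 1) (.e (nat_lit 331078) (nat_lit 0) .nil) .nil))))) 
(.nd (nat_lit 8) (.nd (nat_lit 9) 
(.lf (nat_lit 565381) (.g (nat_lit 3018) (.e (nat_lit 434245) (nat_lit 28) (.e (nat_lit 573471) (nat_lit 11) (.e (nat_lit 16433) (nat_lit 9) (.e (nat_lit 426416) (nat_lit 15) .nil)))) (.g (nat_lit 0) (.e (nat_lit 329413) (nat_lit 0) .nil) .nil))) 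
(.lf (nat_lit 565893) (.g (nat_lit 3655) (.e (nat_lit 434248) (nat_lit 28) (.e (nat_lit 573469) (nat_lit 11) (.e (nat_lit 16473) (nat_lit 14) (.e (nat_lit 491536) (nat_lit 2) (.e (nat_lit 90170) (nat_lit 13) (.e (nat_lit 172113) (nat_lit 10) .nil)))))) (.g (nat_lit 1) (.e (nat_lit 330625) (nat_lit 0) .nil) .nil)))) (.nd (nat_lit 9) 
(.lf (nat_lit 565637) (.g (nat_lit 2747) (.e (nat_lit 434246) (nat_lit 28) (.e (nat_lit 573489) (nat_lit 14) (.e (nat_lit 73755) (nat_lit 8) (.e (nat_lit 557090) (nat_lit 12) (.e (nat_lit 171776) (nat_lit 0) .nil))))) (.g (nat_lit 0) (.e (nat_lit 330077) (nat_lit 0) .nil) .nil))) 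
(.lf (nat_lit 566149) (.g (nat_lit 3223) (.e (nat_lit 434268) (nat_lit 36) (.e (nat_lit 639020) (nat_lit 16) (.e (nat_lit 65583) (nat_lit 7) (.e (nat_lit 319530) (nat_lit 16) (.e (nat_lit 286727) (nat_lit 0) (.e (nat_lit 6646) (nat_lit 357) (.e (nat_lit 2962) (nat_lit 185) .nil))))))) (.g (nat_lit 1) (.e (nat_lit 331499) (nat_lit 0) .nil) .nil)))))) 
(.nd (nat_lit 7) (.nd (nat_lit 8) (.nd (nat_lit 9) 
(.lf (nat_lit 565317) (.g (nat_lit 2417) (.e (nat_lit 434244) (nat_lit 28) (.e (nat_lit 573487) (nat_lit 14) (.e (nat_lit 73755) (nat_lit 8) (.e (nat_lit 557090) (nat_lit 12) (.e (nat_lit 163844) (nat_lit 0) .nil))))) (.g (nat_lit 0) (.e (nat_lit 329260) (nat_lit 0) .nil) .nil))) 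
(.lf (nat_lit 565829) (.g (nat_lit 2338) (.e (nat_lit 434247) (nat_lit 28) (.e (nat_lit 573489) (nat_lit 14) (.e (nat_lit 73755) (nat_lit 8) (.e (nat_lit 557089) (nat_lit 12) (.e (nat_lit 164009) (nat_lit 41) .nil))))) (.g (nat_lit 0) (.e (nat_lit 330481) (nat_lit 0) .nil) .nil)))) (.nd (nat_lit 9) 
(.lf (nat_lit 565573) (.g (nat_lit 597) (.e (nat_lit 434246) (nat_lit 28) (.e (nat_lit 573482) (nat_lit 13) (.e (nat_lit 65568) (nat_lit 2) .nil))) (.g (nat_lit 0) (.e (nat_lit 329859) (nat_lit 0) .nil) .nil))) 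
(.lf (nat_lit 566085) (.g (nat_lit 3174) (.e (nat_lit 442112) (nat_lit 28) (.e (nat_lit 573471) (nat_lit 11) (.e (nat_lit 16425) (nat_lit 7) (.e (nat_lit 409622) (nat_lit 10) .nil)))) (.g (nat_lit 0) (.e (nat_lit 331405) (nat_lit 0) .nil) .nil))))) (.nd (nat_lit 8) (.nd (nat_lit 9) 
(.lf (nat_lit 565445) (.g (nat_lit 2726) (.e (nat_lit 434245) (nat_lit 28) (.e (nat_lit 573487) (nat_lit 14) (.e (nat_lit 73747) (nat_lit 3) (.e (nat_lit 516117) (nat_lit 1) (.e (nat_lit 171776) (nat_lit 160) .nil))))) (.g (nat_lit 0) (.e (nat_lit 329573) (nat_lit 0) .nil) .nil))) 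
(.lf (nat_lit 565957) (.g (nat_lit 1678) (.e (nat_lit 434248) (nat_lit 28) (.e (nat_lit 573471) (nat_lit 11) (.e (nat_lit 16473) (nat_lit 14) (.e (nat_lit 491538) (nat_lit 3) .nil)))) (.g (nat_lit 0) (.e (nat_lit 330736) (nat_lit 0) .nil) .nil)))) (.nd (nat_lit 9) 
(.lf (nat_lit 565701) (.g (nat_lit 1194) (.e (nat_lit 434247) (nat_lit 28) (.e (nat_lit 573477) (nat_lit 12) (.e (nat_lit 57574) (nat_lit 55) (.e (nat_lit 778464) (nat_lit 11) (.e (nat_lit 24603) (nat_lit 2) .nil))))) (.g (nat_lit 0) (.e (nat_lit 330176) (nat_lit 0) .nil) .nil))) 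
(.lf (nat_lit 566213) (.g (nat_lit 2712) (.e (nat_lit 434275) (nat_lit 39) (.e (nat_lit 663584) (nat_lit 12) (.e (nat_lit 164020) (nat_lit 45) (.e (nat_lit 696344) (nat_lit 8) (.e (nat_lit 172082) (nat_lit 7) (.e (nat_lit 409646) (nat_lit 18) (.e (nat_lit 303135) (nat_lit 10) .nil))))))) (.g (nat_lit 1) (.e (nat_lit 331676) (nat_lit 0) .nil) .nil))))))) 
(.nd (nat_lit 6) (.nd (nat_lit 7) (.nd (nat_lit 8) (.nd (nat_lit 9) 
(.lf (nat_lit 565285) (.g (nat_lit 704) (.e (nat_lit 434244) (nat_lit 28) (.e (nat_lit 573471) (nat_lit 11) (.e (nat_lit 16454) (nat_lit 11) .nil))) (.g (nat_lit 0) (.e (nat_lit 329122) (nat_lit 0) .nil) .nil))) 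
(.lf (nat_lit 565797) (.g (nat_lit 1727) (.e (nat_lit 434247) (nat_lit 28) (.e (nat_lit 573489) (nat_lit 14) (.e (nat_lit 73754) (nat_lit 8) (.e (nat_lit 557057) (nat_lit 0) .nil)))) (.g (nat_lit 0) (.e (nat_lit 330400) (nat_lit 0) .nil) .nil)))) (.nd (nat_lit 9) 
(.lf (nat_lit 565541) (.g (nat_lit 2641) (.e (nat_lit 434245) (nat_lit 28) (.e (nat_lit 573489) (nat_lit 14) (.e (nat_lit 73755) (nat_lit 8) (.e (nat_lit 557090) (nat_lit 12) .nil)))) (.g (nat_lit 0) (.e (nat_lit 329805) (nat_lit 0) .nil) .nil))) 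
(.lf (nat_lit 566053) (.g (nat_lit 2582) (.e (nat_lit 434248) (nat_lit 28) (.e (nat_lit 573489) (nat_lit 14) (.e (nat_lit 73755) (nat_lit 8) (.e (nat_lit 557089) (nat_lit 12) (.e (nat_lit 164007) (nat_lit 41) .nil))))) (.g (nat_lit 0) (.e (nat_lit 331221) (nat_lit 0) .nil) .nil))))) (.nd (nat_lit 8) (.nd (nat_lit 9) 
(.lf (nat_lit 565413) (.g (nat_lit 1246) (.e (nat_lit 434245) (nat_lit 28) (.e (nat_lit 573481) (nat_lit 13) (.e (nat_lit 65568) (nat_lit 2) (.e (nat_lit 90189) (nat_lit 18) .nil)))) (.g (nat_lit 0) (.e (nat_lit 329481) (nat_lit 0) .nil) .nil))) 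
(.lf (nat_lit 565925) (.g (nat_lit 1714) (.e (nat_lit 434248) (nat_lit 28) (.e (nat_lit 573471) (nat_lit 11) (.e (nat_lit 16438) (nat_lit 9) (.e (nat_lit 426402) (nat_lit 15) .nil)))) (.g (nat_lit 0) (.e (nat_lit 330688) (nat_lit 0) .nil) .nil)))) (.nd (nat_lit 9) 
(.lf (nat_lit 565669) (.g (nat_lit 3422) (.e (nat_lit 434247) (nat_lit 28) (.e (nat_lit 573457) (nat_lit 9) (.e (nat_lit 430) (nat_lit 32) (.e (nat_lit 426344) (nat_lit 14) (.e (nat_lit 491535) (nat_lit 2) (.e (nat_lit 90170) (nat_lit 13) (.e (nat_lit 172113) (nat_lit 10) .nil))))))) (.g (nat_lit 1) (.e (nat_lit 330134) (nat_lit 0) .nil) .nil))) 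
(.lf (nat_lit 566181) (.g (nat_lit 1719) (.e (nat_lit 434269) (nat_lit 36) (.e (nat_lit 639017) (nat_lit 15) (.e (nat_lit 57480) (nat_lit 28) (.e (nat_lit 557067) (nat_lit 9) (.e (nat_lit 3022) (nat_lit 187) .nil))))) (.g (nat_lit 0) (.e (nat_lit 331562) (nat_lit 0) .nil) .nil)))))) (.nd (nat_lit 7) (.nd (nat_lit 8) (.nd (nat_lit 9) 
(.lf (nat_lit 565349) (.g (nat_lit 1815) (.e (nat_lit 434245) (nat_lit 28) (.e (nat_lit 573450) (nat_lit 9) (.e (nat_lit 375) (nat_lit 32) (.e (nat_lit 426346) (nat_lit 14) .nil)))) (.g (nat_lit 0) (.e (nat_lit 329365) (nat_lit 0) .nil) .nil))) 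
(.lf (nat_lit 565861) (.g (nat_lit 2187) (.e (nat_lit 434247) (nat_lit 28) (.e (nat_lit 573489) (nat_lit 14) (.e (nat_lit 73755) (nat_lit 8) (.e (nat_lit 557091) (nat_lit 12) (.e (nat_lit 164010) (nat_lit 41) .nil))))) (.g (nat_lit 0) (.e (nat_lit 330557) (nat_lit 0) .nil) .nil)))) (.nd (nat_lit 9) 
(.lf (nat_lit 565605) (.g (nat_lit 1579) (.e (nat_lit 434246) (nat_lit 28) (.e (nat_lit 573487) (nat_lit 14) (.e (nat_lit 73753) (nat_lit 8) (.e (nat_lit 557084) (nat_lit 10) .nil)))) (.g (nat_lit 0) (.e (nat_lit 329967) (nat_lit 0) .nil) .nil))) 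
(.lf (nat_lit 566117) (.g (nat_lit 897) (.e (nat_lit 434266) (nat_lit 35) (.e (nat_lit 630821) (nat_lit 16) (.e (nat_lit 65584) (nat_lit 7) (.e (nat_lit 319527) (nat_lit 15) (.e (nat_lit 278547) (nat_lit 8) (.e (nat_lit 303137) (nat_lit 10) .nil)))))) (.g (nat_lit 1) (.e (nat_lit 331463) (nat_lit 0) .nil) .nil))))) (.nd (nat_lit 8) (.nd (nat_lit 9) 
(.lf (nat_lit 565477) (.g (nat_lit 429) (.e (nat_lit 434245) (nat_lit 28) (.e (nat_lit 573488) (nat_lit 14) (.e (nat_lit 81664) (nat_lit 1) .nil))) (.g (nat_lit 0) (.e (nat_lit 329673) (nat_lit 0) .nil) .nil))) 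
(.lf (nat_lit 565989) (.g (nat_lit 2011) (.e (nat_lit 434248) (nat_lit 28) (.e (nat_lit 573482) (nat_lit 13) (.e (nat_lit 65571) (nat_lit 3) (.e (nat_lit 98319) (nat_lit 17) (.e (nat_lit 2399) (nat_lit 157) .nil))))) (.g (nat_lit 0) (.e (nat_lit 330890) (nat_lit 0) .nil) .nil)))) (.nd (nat_lit 9) 
(.lf (nat_lit 565733) (.g (nat_lit 3716) (.e (nat_lit 434247) (nat_lit 28) (.e (nat_lit 573478) (nat_lit 12) (.e (nat_lit 57351) (nat_lit 0) (.e (nat_lit 7265) (nat_lit 384) (.e (nat_lit 57412) (nat_lit 12) (.e (nat_lit 336001) (nat_lit 2) (.e (nat_lit 90170) (nat_lit 13) (.e (nat_lit 172113) (nat_lit 10) .nil)))))))) (.g (nat_lit 1) (.e (nat_lit 330226) (nat_lit 0) .nil) .nil))) 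
(.lf (nat_lit 566245) (.g (nat_lit 2203) (.e (nat_lit 434270) (nat_lit 38) (.e (nat_lit 655375) (nat_lit 3) (.e (nat_lit 163979) (nat_lit 30) (.e (nat_lit 573482) (nat_lit 13) (.e (nat_lit 65604) (nat_lit 9) .nil))))) (.g (nat_lit 0) (.e (nat_lit 331830) (nat_lit 0) .nil) .nil)))))))) (.nd (nat_lit 5) (.nd (nat_lit 6) (.nd (nat_lit 7) (.nd (nat_lit 8) (.nd (nat_lit 9) 
(.lf (nat_lit 565269) (.g (nat_lit 3074) (.e (nat_lit 434244) (nat_lit 28) (.e (nat_lit 573471) (nat_lit 11) (.e (nat_lit 16433) (nat_lit 9) (.e (nat_lit 426357) (nat_lit 15) .nil)))) (.g (nat_lit 0) (.e (nat_lit 329091) (nat_lit 0) .nil) .nil))) 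
(.lf (nat_lit 565781) (.g (nat_lit 1596) (.e (nat_lit 434247) (nat_lit 28) (.e (nat_lit 573487) (nat_lit 14) (.e (nat_lit 73746) (nat_lit 3) (.e (nat_lit 516119) (nat_lit 1) .nil)))) (.g (nat_lit 0) (.e (nat_lit 330355) (nat_lit 0) .nil) .nil)))) (.nd (nat_lit 9) 
(.lf (nat_lit 565525) (.g (nat_lit 1229) (.e (nat_lit 434245) (nat_lit 28) (.e (nat_lit 573488) (nat_lit 14) (.e (nat_lit 73755) (nat_lit 8) (.e (nat_lit 557091) (nat_lit 12) .nil)))) (.g (nat_lit 0) (.e (nat_lit 329764) (nat_lit 0) .nil) .nil))) 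
(.lf (nat_lit 566037) (.g (nat_lit 1573) (.e (nat_lit 434248) (nat_lit 28) (.e (nat_lit 573489) (nat_lit 14) (.e (nat_lit 73755) (nat_lit 8) (.e (nat_lit 557067) (nat_lit 9) .nil)))) (.g (nat_lit 0) (.e (nat_lit 331169) (nat_lit 0) .nil) .nil))))) (.nd (nat_lit 8) (.nd (nat_lit 9) 
(.lf (nat_lit 565397) (.g (nat_lit 2494) (.e (nat_lit 434245) (nat_lit 28) (.e (nat_lit 573471) (nat_lit 11) (.e (nat_lit 16473) (nat_lit 14) (.e (nat_lit 491529) (nat_lit 0) .nil)))) (.g (nat_lit 0) (.e (nat_lit 329435) (nat_lit 0) .nil) .nil))) 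
(.lf (nat_lit 565909) (.g (nat_lit 390) (.e (nat_lit 434248) (nat_lit 28) (.e (nat_lit 573471) (nat_lit 11) (.e (nat_lit 16433) (nat_lit 9) .nil))) (.g (nat_lit 0) (.e (nat_lit 330648) (nat_lit 0) .nil) .nil)))) (.nd (nat_lit 9) 
(.lf (nat_lit 565653) (.g (nat_lit 2629) (.e (nat_lit 434246) (nat_lit 28) (.e (nat_lit 573489) (nat_lit 14) (.e (nat_lit 73755) (nat_lit 8) (.e (nat_lit 557119) (nat_lit 18) (.e (nat_lit 2505) (nat_lit 157) .nil))))) (.g (nat_lit 0) (.e (nat_lit 330108) (nat_lit 0) .nil) .nil))) 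
(.lf (nat_lit 566165) (.g (nat_lit 1690) (.e (nat_lit 434268) (nat_lit 36) (.e (nat_lit 639020) (nat_lit 16) (.e (nat_lit 65611) (nat_lit 10) (.e (nat_lit 344156) (nat_lit 36) (.e (nat_lit 638998) (nat_lit 8) (.e (nat_lit 172105) (nat_lit 10) .nil)))))) (.g (nat_lit 1) (.e (nat_lit 331521) (nat_lit 0) .nil) .nil)))))) (.nd (nat_lit 7) (.nd (nat_lit 8) (.nd (nat_lit 9) 
(.lf (nat_lit 565333) (.g (nat_lit 2878) (.e (nat_lit 434244) (nat_lit 28) (.e (nat_lit 573488) (nat_lit 14) (.e (nat_lit 73755) (nat_lit 8) (.e (nat_lit 557090) (nat_lit 12) (.e (nat_lit 164009) (nat_lit 41) .nil))))) (.g (nat_lit 0) (.e (nat_lit 329315) (nat_lit 0) .nil) .nil))) 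
(.lf (nat_lit 565845) (.g (nat_lit 3129) (.e (nat_lit 434247) (nat_lit 28) (.e (nat_lit 573489) (nat_lit 14) (.e (nat_lit 73755) (nat_lit 8) (.e (nat_lit 557090) (nat_lit 12) (.e (nat_lit 164006) (nat_lit 41) .nil))))) (.g (nat_lit 0) (.e (nat_lit 330516) (nat_lit 0) .nil) .nil)))) (.nd (nat_lit 9) 
(.lf (nat_lit 565589) (.g (nat_lit 2080) (.e (nat_lit 434246) (nat_lit 28) (.e (nat_lit 573482) (nat_lit 13) (.e (nat_lit 65571) (nat_lit 3) (.e (nat_lit 98333) (nat_lit 18) .nil)))) (.g (nat_lit 0) (.e (nat_lit 329892) (nat_lit 0) .nil) .nil))) 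
(.lf (nat_lit 566101) (.g (nat_lit 1503) (.e (nat_lit 434241) (nat_lit 27) (.e (nat_lit 565267) (nat_lit 4) (.e (nat_lit 65620) (nat_lit 10) (.e (nat_lit 344183) (nat_lit 49) (.e (nat_lit 819219) (nat_lit 4) (.e (nat_lit 172116) (nat_lit 10) .nil)))))) (.g (nat_lit 1) (.e (nat_lit 331432) (nat_lit 0) .nil) .nil))))) (.nd (nat_lit 8) (.nd (nat_lit 9) 
(.lf (nat_lit 565461) (.g (nat_lit 2187) (.e (nat_lit 434245) (nat_lit 28) (.e (nat_lit 573487) (nat_lit 14) (.e (nat_lit 73753) (nat_lit 8) (.e (nat_lit 557090) (nat_lit 12) (.e (nat_lit 164006) (nat_lit 41) .nil))))) (.g (nat_lit 0) (.e (nat_lit 329609) (nat_lit 0) .nil) .nil))) 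
(.lf (nat_lit 565973) (.g (nat_lit 497) (.e (nat_lit 434248) (nat_lit 28) (.e (nat_lit 573482) (nat_lit 13) (.e (nat_lit 65536) (nat_lit 0) .nil))) (.g (nat_lit 0) (.e (nat_lit 330781) (nat_lit 0) .nil) .nil)))) (.nd (nat_lit 9) 
(.lf (nat_lit 565717) (.g (nat_lit 1774) (.e (nat_lit 434247) (nat_lit 28) (.e (nat_lit 573477) (nat_lit 12) (.e (nat_lit 57575) (nat_lit 55) (.e (nat_lit 778466) (nat_lit 11) (.e (nat_lit 24603) (nat_lit 2) .nil))))) (.g (nat_lit 0) (.e (nat_lit 330194) (nat_lit 0) .nil) .nil))) 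
(.lf (nat_lit 566229) (.g (nat_lit 853) (.e (nat_lit 434278) (nat_lit 39) (.e (nat_lit 663584) (nat_lit 12) (.e (nat_lit 163976) (nat_lit 30) (.e (nat_lit 573470) (nat_lit 11) .nil)))) (.g (nat_lit 0) (.e (nat_lit 331777) (nat_lit 0) .nil) .nil))))))) (.nd (nat_lit 6) (.nd (nat_lit 7) (.nd (nat_lit 8) (.nd (nat_lit 9) 
(.lf (nat_lit 565301) (.g (nat_lit 2111) (.e (nat_lit 434244) (nat_lit 28) (.e (nat_lit 573481) (nat_lit 13) (.e (nat_lit 65571) (nat_lit 3) (.e (nat_lit 98319) (nat_lit 17) (.e (nat_lit 2399) (nat_lit 157) .nil))))) (.g (nat_lit 0) (.e (nat_lit 329200) (nat_lit 0) .nil) .nil))) 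
(.lf (nat_lit 565813) (.g (nat_lit 3550) (.e (nat_lit 434247) (nat_lit 28) (.e (nat_lit 573489) (nat_lit 14) (.e (nat_lit 73755) (nat_lit 8) (.e (nat_lit 557067) (nat_lit 9) (.e (nat_lit 2604) (nat_lit 163) (.e (nat_lit 164401) (nat_lit 256) (.e (nat_lit 57378) (nat_lit 3) (.e (nat_lit 98368) (nat_lit 27) .nil)))))))) (.g (nat_lit 1) (.e (nat_lit 330437) (nat_lit 0) .nil) .nil)))) 
(.nd (nat_lit 9) 
(.lf (nat_lit 565557) (.g (nat_lit 1610) (.e (nat_lit 434246) (nat_lit 28) (.e (nat_lit 573471) (nat_lit 11) (.e (nat_lit 16446) (nat_lit 9) (.e (nat_lit 426139) (nat_lit 3) .nil)))) (.g (nat_lit 0) (.e (nat_lit 329833) (nat_lit 0) .nil) .nil))) 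
(.lf (nat_lit 566069) (.g (nat_lit 3076) (.e (nat_lit 434248) (nat_lit 28) (.e (nat_lit 573489) (nat_lit 14) (.e (nat_lit 73755) (nat_lit 8) (.e (nat_lit 557090) (nat_lit 12) (.e (nat_lit 164009) (nat_lit 41) .nil))))) (.g (nat_lit 0) (.e (nat_lit 331296) (nat_lit 0) .nil) .nil))))) (.nd (nat_lit 8) (.nd (nat_lit 9) 
(.lf (nat_lit 565429) (.g (nat_lit 1945) (.e (nat_lit 434245) (nat_lit 28) (.e (nat_lit 573481) (nat_lit 13) (.e (nat_lit 65571) (nat_lit 3) (.e (nat_lit 98325) (nat_lit 17) (.e (nat_lit 3579) (nat_lit 223) .nil))))) (.g (nat_lit 0) (.e (nat_lit 329524) (nat_lit 0) .nil) .nil))) 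
(.lf (nat_lit 565941) (.g (nat_lit 3943) (.e (nat_lit 434248) (nat_lit 28) (.e (nat_lit 573471) (nat_lit 11) (.e (nat_lit 16470) (nat_lit 14) (.e (nat_lit 491520) (nat_lit 0) .nil)))) (.g (nat_lit 0) (.e (nat_lit 330720) (nat_lit 0) .nil) .nil)))) (.nd (nat_lit 9) 
(.lf (nat_lit 565685) (.g (nat_lit 3937) (.e (nat_lit 434247) (nat_lit 28) (.e (nat_lit 573471) (nat_lit 11) (.e (nat_lit 16433) (nat_lit 9) (.e (nat_lit 426360) (nat_lit 15) .nil)))) (.g (nat_lit 0) (.e (nat_lit 330153) (nat_lit 0) .nil) .nil))) 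
(.lf (nat_lit 566197) (.g (nat_lit 1549) (.e (nat_lit 434269) (nat_lit 36) (.e (nat_lit 639021) (nat_lit 16) (.e (nat_lit 65619) (nat_lit 10) (.e (nat_lit 344157) (nat_lit 36) (.e (nat_lit 638999) (nat_lit 8) (.e (nat_lit 172107) (nat_lit 10) .nil)))))) (.g (nat_lit 1) (.e (nat_lit 331591) (nat_lit 0) .nil) .nil)))))) (.nd (nat_lit 7) (.nd (nat_lit 8) (.nd (nat_lit 9) 
(.lf (nat_lit 565365) (.g (nat_lit 458) (.e (nat_lit 434245) (nat_lit 28) (.e (nat_lit 573471) (nat_lit 11) (.e (nat_lit 16425) (nat_lit 7) .nil))) (.g (nat_lit 0) (.e (nat_lit 329390) (nat_lit 0) .nil) .nil))) 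
(.lf (nat_lit 565877) (.g (nat_lit 2059) (.e (nat_lit 434248) (nat_lit 28) (.e (nat_lit 573450) (nat_lit 9) (.e (nat_lit 375) (nat_lit 32) (.e (nat_lit 426025) (nat_lit 0) .nil)))) (.g (nat_lit 0) (.e (nat_lit 330593) (nat_lit 0) .nil) .nil)))) (.nd (nat_lit 9) 
(.lf (nat_lit 565621) (.g (nat_lit 1417) (.e (nat_lit 434246) (nat_lit 28) (.e (nat_lit 573489) (nat_lit 14) (.e (nat_lit 73754) (nat_lit 8) (.e (nat_lit 564992) (nat_lit 0) .nil)))) (.g (nat_lit 0) (.e (nat_lit 330010) (nat_lit 0) .nil) .nil))) 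
(.lf (nat_lit 566133) (.g (nat_lit 1327) (.e (nat_lit 434266) (nat_lit 35) (.e (nat_lit 630821) (nat_lit 16) (.e (nat_lit 65617) (nat_lit 10) (.e (nat_lit 344157) (nat_lit 36) (.e (nat_lit 638999) (nat_lit 8) (.e (nat_lit 172107) (nat_lit 10) .nil)))))) (.g (nat_lit 1) (.e (nat_lit 331479) (nat_lit 0) .nil) .nil))))) (.nd (nat_lit 8) (.nd (nat_lit 9) 
(.lf (nat_lit 565493) (.g (nat_lit 1429) (.e (nat_lit 434245) (nat_lit 28) (.e (nat_lit 573488) (nat_lit 14) (.e (nat_lit 73755) (nat_lit 8) (.e (nat_lit 557068) (nat_lit 9) .nil)))) (.g (nat_lit 0) (.e (nat_lit 329699) (nat_lit 0) .nil) .nil))) 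
(.lf (nat_lit 566005) (.g (nat_lit 2994) (.e (nat_lit 434248) (nat_lit 28) (.e (nat_lit 573487) (nat_lit 14) (.e (nat_lit 73747) (nat_lit 3) (.e (nat_lit 516115) (nat_lit 1) (.e (nat_lit 164196) (nat_lit 158) .nil))))) (.g (nat_lit 0) (.e (nat_lit 330977) (nat_lit 0) .nil) .nil)))) (.nd (nat_lit 9) 
(.lf (nat_lit 565749) (.g (nat_lit 2638) (.e (nat_lit 434247) (nat_lit 28) (.e (nat_lit 573484) (nat_lit 13) (.e (nat_lit 65566) (nat_lit 2) (.e (nat_lit 90160) (nat_lit 11) (.e (nat_lit 24668) (nat_lit 15) .nil))))) (.g (nat_lit 0) (.e (nat_lit 330263) (nat_lit 0) .nil) .nil))) 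
(.lf (nat_lit 566261) (.g (nat_lit 4102) (.e (nat_lit 434271) (nat_lit 38) (.e (nat_lit 655375) (nat_lit 3) (.e (nat_lit 163977) (nat_lit 30) (.e (nat_lit 573482) (nat_lit 13) (.e (nat_lit 65619) (nat_lit 10) (.e (nat_lit 344117) (nat_lit 21) (.e (nat_lit 516159) (nat_lit 10) .nil))))))) (.g (nat_lit 1) (.e (nat_lit 331855) (nat_lit 0) .nil) .nil))))))))) 
(.nd (nat_lit 4) (.nd (nat_lit 5) (.nd (nat_lit 6) (.nd (nat_lit 7) (.nd (nat_lit 8) 
(.nd (nat_lit 9) 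
(.lf (nat_lit 565261) (.g (nat_lit 2302) (.e (nat_lit 434244) (nat_lit 28) (.e (nat_lit 573470) (nat_lit 11) (.e (nat_lit 16470) (nat_lit 14) (.e (nat_lit 491535) (nat_lit 2) (.e (nat_lit 90170) (nat_lit 13) .nil))))) (.g (nat_lit 0) (.e (nat_lit 329045) (nat_lit 0) .nil) .nil))) 
(.lf (nat_lit 565773) (.g (nat_lit 1455) (.e (nat_lit 434247) (nat_lit 28) (.e (nat_lit 573485) (nat_lit 13) (.e (nat_lit 65569) (nat_lit 3) (.e (nat_lit 98315) (nat_lit 9) (.e (nat_lit 336277) (nat_lit 15) .nil))))) (.g (nat_lit 0) (.e (nat_lit 330323) (nat_lit 0) .nil) .nil)))) (.nd (nat_lit 9) 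
(.lf (nat_lit 565517) (.g (nat_lit 2645) (.e (nat_lit 434245) (nat_lit 28) (.e (nat_lit 573488) (nat_lit 14) (.e (nat_lit 73755) (nat_lit 8) (.e (nat_lit 557090) (nat_lit 12) (.e (nat_lit 163856) (nat_lit 0) (.e (nat_lit 5949) (nat_lit 322) (.e (nat_lit 57378) (nat_lit 3) (.e (nat_lit 98368) (nat_lit 27) .nil)))))))) (.g (nat_lit 1) (.e (nat_lit 329733) (nat_lit 0) .nil) .nil))) 
(.lf (nat_lit 566029) (.g (nat_lit 453) (.e (nat_lit 434248) (nat_lit 28) (.e (nat_lit 573489) (nat_lit 14) (.e (nat_lit 73754) (nat_lit 8) .nil))) (.g (nat_lit 0) (.e (nat_lit 331135) (nat_lit 0) .nil) .nil))))) (.nd (nat_lit 8) (.nd (nat_lit 9) 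
(.lf (nat_lit 565389) (.g (nat_lit 1894) (.e (nat_lit 434245) (nat_lit 28) (.e (nat_lit 573471) (nat_lit 11) (.e (nat_lit 16448) (nat_lit 10) (.e (nat_lit 434234) (nat_lit 23) .nil)))) (.g (nat_lit 0) (.e (nat_lit 329422) (nat_lit 0) .nil) .nil))) 
(.lf (nat_lit 565901) (.g (nat_lit 2427) (.e (nat_lit 434248) (nat_lit 28) (.e (nat_lit 573471) (nat_lit 11) (.e (nat_lit 16425) (nat_lit 7) (.e (nat_lit 409617) (nat_lit 10) (.e (nat_lit 7936) (nat_lit 43) .nil))))) (.g (nat_lit 0) (.e (nat_lit 330637) (nat_lit 0) .nil) .nil)))) (.nd (nat_lit 9) 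
(.lf (nat_lit 565645) (.g (nat_lit 1690) (.e (nat_lit 434246) (nat_lit 28) (.e (nat_lit 573489) (nat_lit 14) (.e (nat_lit 73755) (nat_lit 8) (.e (nat_lit 557091) (nat_lit 12) .nil)))) (.g (nat_lit 0) (.e (nat_lit 330089) (nat_lit 0) .nil) .nil))) 
(.lf (nat_lit 566157) (.g (nat_lit 2732) (.e (nat_lit 434268) (nat_lit 36) (.e (nat_lit 639020) (nat_lit 16) (.e (nat_lit 65586) (nat_lit 7) (.e (nat_lit 319531) (nat_lit 16) (.e (nat_lit 286727) (nat_lit 0) (.e (nat_lit 6680) (nat_lit 357) (.e (nat_lit 2959) (nat_lit 185) .nil))))))) (.g (nat_lit 1) (.e (nat_lit 331508) (nat_lit 0) .nil) .nil)))))) 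
(.nd (nat_lit 7) (.nd (nat_lit 8) (.nd (nat_lit 9) 
(.lf (nat_lit 565325) (.g (nat_lit 3641) (.e (nat_lit 434244) (nat_lit 28) (.e (nat_lit 573488) (nat_lit 14) (.e (nat_lit 73755) (nat_lit 8) (.e (nat_lit 557090) (nat_lit 12) (.e (nat_lit 163841) (nat_lit 0) (.e (nat_lit 5940) (nat_lit 322) (.e (nat_lit 57379) (nat_lit 3) (.e (nat_lit 98366) (nat_lit 27) .nil)))))))) (.g (nat_lit 1) (.e (nat_lit 329297) (nat_lit 0) .nil) .nil))) 
(.lf (nat_lit 565837) (.g (nat_lit 3555) (.e (nat_lit 434247) (nat_lit 28) (.e (nat_lit 573489) (nat_lit 14) (.e (nat_lit 73755) (nat_lit 8) (.e (nat_lit 557090) (nat_lit 12) (.e (nat_lit 163851) (nat_lit 0) .nil))))) (.g (nat_lit 0) (.e (nat_lit 330501) (nat_lit 0) .nil) .nil)))) (.nd (nat_lit 9) 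
(.lf (nat_lit 565581) (.g (nat_lit 2385) (.e (nat_lit 434246) (nat_lit 28) (.e (nat_lit 573482) (nat_lit 13) (.e (nat_lit 65569) (nat_lit 3) (.e (nat_lit 98317) (nat_lit 9) (.e (nat_lit 336293) (nat_lit 15) .nil))))) (.g (nat_lit 0) (.e (nat_lit 329872) (nat_lit 0) .nil) .nil))) 
(.lf (nat_lit 566093) (.g (nat_lit 1770) (.e (nat_lit 434241) (nat_lit 27) (.e (nat_lit 565267) (nat_lit 4) (.e (nat_lit 65617) (nat_lit 10) (.e (nat_lit 344183) (nat_lit 49) (.e (nat_lit 819219) (nat_lit 4) (.e (nat_lit 172107) (nat_lit 10) .nil)))))) (.g (nat_lit 1) (.e (nat_lit 331423) (nat_lit 0) .nil) .nil))))) (.nd (nat_lit 8) (.nd (nat_lit 9) 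
(.lf (nat_lit 565453) (.g (nat_lit 2307) (.e (nat_lit 434245) (nat_lit 28) (.e (nat_lit 573487) (nat_lit 14) (.e (nat_lit 73753) (nat_lit 8) (.e (nat_lit 557089) (nat_lit 12) (.e (nat_lit 164005) (nat_lit 41) .nil))))) (.g (nat_lit 0) (.e (nat_lit 329593) (nat_lit 0) .nil) .nil))) 
(.lf (nat_lit 565965) (.g (nat_lit 4898) (.e (nat_lit 434248) (nat_lit 28) (.e (nat_lit 573475) (nat_lit 12) (.e (nat_lit 57572) (nat_lit 54) (.e (nat_lit 770072) (nat_lit 8) (.e (nat_lit 65569) (nat_lit 3) (.e (nat_lit 98359) (nat_lit 26) (.e (nat_lit 426286) (nat_lit 10) .nil))))))) (.g (nat_lit 1) (.e (nat_lit 330748) (nat_lit 0) .nil) .nil)))) (.nd (nat_lit 9) 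
(.lf (nat_lit 565709) (.g (nat_lit 2889) (.e (nat_lit 434247) (nat_lit 28) (.e (nat_lit 573477) (nat_lit 12) (.e (nat_lit 57574) (nat_lit 55) (.e (nat_lit 778466) (nat_lit 11) (.e (nat_lit 24608) (nat_lit 3) (.e (nat_lit 98365) (nat_lit 26) (.e (nat_lit 426278) (nat_lit 10) .nil))))))) (.g (nat_lit 1) (.e (nat_lit 330186) (nat_lit 0) .nil) .nil))) 
(.lf (nat_lit 566221) (.g (nat_lit 711) (.e (nat_lit 434276) (nat_lit 39) (.e (nat_lit 663567) (nat_lit 4) (.e (nat_lit 65651) (nat_lit 27) (.e (nat_lit 426287) (nat_lit 10) .nil)))) (.g (nat_lit 0) (.e (nat_lit 331728) (nat_lit 0) .nil) .nil))))))) (.nd (nat_lit 6) (.nd (nat_lit 7) (.nd (nat_lit 8) (.nd (nat_lit 9) 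
(.lf (nat_lit 565293) (.g (nat_lit 2417) (.e (nat_lit 434244) (nat_lit 28) (.e (nat_lit 573481) (nat_lit 13) (.e (nat_lit 65567) (nat_lit 2) (.e (nat_lit 90160) (nat_lit 11) (.e (nat_lit 24669) (nat_lit 15) (.e (nat_lit 7936) (nat_lit 195) (.e (nat_lit 516160) (nat_lit 10) .nil))))))) (.g (nat_lit 1) (.e (nat_lit 329160) (nat_lit 0) .nil) .nil))) 
(.lf (nat_lit 565805) (.g (nat_lit 1568) (.e (nat_lit 434247) (nat_lit 28) (.e (nat_lit 573489) (nat_lit 14) (.e (nat_lit 73755) (nat_lit 8) (.e (nat_lit 557067) (nat_lit 9) .nil)))) (.g (nat_lit 0) (.e (nat_lit 330427) (nat_lit 0) .nil) .nil)))) (.nd (nat_lit 9) 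
(.lf (nat_lit 565549) (.g (nat_lit 1180) (.e (nat_lit 434246) (nat_lit 28) (.e (nat_lit 573471) (nat_lit 11) (.e (nat_lit 16425) (nat_lit 7) .nil))) (.g (nat_lit 0) (.e (nat_lit 329822) (nat_lit 0) .nil) .nil))) 
(.lf (nat_lit 566061) (.g (nat_lit 2879) (.e (nat_lit 434248) (nat_lit 28) (.e (nat_lit 573489) (nat_lit 14) (.e (nat_lit 73755) (nat_lit 8) (.e (nat_lit 557090) (nat_lit 12) (.e (nat_lit 163845) (nat_lit 0) .nil))))) (.g (nat_lit 0) (.e (nat_lit 331231) (nat_lit 0) .nil) .nil))))) (.nd (nat_lit 8) (.nd (nat_lit 9) 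
(.lf (nat_lit 565421) (.g (nat_lit 1858) (.e (nat_lit 434245) (nat_lit 28) (.e (nat_lit 573481) (nat_lit 13) (.e (nat_lit 65569) (nat_lit 3) (.e (nat_lit 98334) (nat_lit 18) (.e (nat_lit 171776) (nat_lit 160) .nil))))) (.g (nat_lit 0) (.e (nat_lit 329495) (nat_lit 0) .nil) .nil))) 
(.lf (nat_lit 565933) (.g (nat_lit 2127) (.e (nat_lit 434248) (nat_lit 28) (.e (nat_lit 573471) (nat_lit 11) (.e (nat_lit 16456) (nat_lit 12) (.e (nat_lit 475183) (nat_lit 29) .nil)))) (.g (nat_lit 0) (.e (nat_lit 330712) (nat_lit 0) .nil) .nil)))) (.nd (nat_lit 9) 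
(.lf (nat_lit 565677) (.g (nat_lit 2240) (.e (nat_lit 434247) (nat_lit 28) (.e (nat_lit 573469) (nat_lit 11) (.e (nat_lit 16470) (nat_lit 14) (.e (nat_lit 491535) (nat_lit 2) .nil)))) (.g (nat_lit 0) (.e (nat_lit 330144) (nat_lit 0) .nil) .nil))) 
(.lf (nat_lit 566189) (.g (nat_lit 1299) (.e (nat_lit 434269) (nat_lit 36) (.e (nat_lit 639020) (nat_lit 16) (.e (nat_lit 65617) (nat_lit 10) (.e (nat_lit 344156) (nat_lit 36) .nil)))) (.g (nat_lit 0) (.e (nat_lit 331570) (nat_lit 0) .nil) .nil)))))) (.nd (nat_lit 7) (.nd (nat_lit 8) (.nd (nat_lit 9) 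
(.lf (nat_lit 565357) (.g (nat_lit 1463) (.e (nat_lit 434245) (nat_lit 28) (.e (nat_lit 573470) (nat_lit 11) (.e (nat_lit 16446) (nat_lit 9) (.e (nat_lit 426133) (nat_lit 3) (.e (nat_lit 204885) (nat_lit 33) .nil))))) (.g (nat_lit 0) (.e (nat_lit 329379) (nat_lit 0) .nil) .nil))) 
(.lf (nat_lit 565869) (.g (nat_lit 1173) (.e (nat_lit 434247) (nat_lit 28) (.e (nat_lit 573489) (nat_lit 14) (.e (nat_lit 73755) (nat_lit 8) (.e (nat_lit 557119) (nat_lit 18) .nil)))) (.g (nat_lit 0) (.e (nat_lit 330566) (nat_lit 0) .nil) .nil)))) (.nd (nat_lit 9) 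
(.lf (nat_lit 565613) (.g (nat_lit 2542) (.e (nat_lit 434246) (nat_lit 28) (.e (nat_lit 573487) (nat_lit 14) (.e (nat_lit 73753) (nat_lit 8) (.e (nat_lit 557091) (nat_lit 12) (.e (nat_lit 164006) (nat_lit 41) .nil))))) (.g (nat_lit 0) (.e (nat_lit 329989) (nat_lit 0) .nil) .nil))) 
(.lf (nat_lit 566125) (.g (nat_lit 1221) (.e (nat_lit 434266) (nat_lit 35) (.e (nat_lit 630821) (nat_lit 16) (.e (nat_lit 65610) (nat_lit 10) (.e (nat_lit 344157) (nat_lit 36) (.e (nat_lit 638999) (nat_lit 8) (.e (nat_lit 172107) (nat_lit 10) .nil)))))) (.g (nat_lit 1) (.e (nat_lit 331471) (nat_lit 0) .nil) .nil))))) (.nd (nat_lit 8) (.nd (nat_lit 9) 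
(.lf (nat_lit 565485) (.g (nat_lit 1536) (.e (nat_lit 434245) (nat_lit 28) (.e (nat_lit 573488) (nat_lit 14) (.e (nat_lit 73753) (nat_lit 8) (.e (nat_lit 557089) (nat_lit 12) .nil)))) (.g (nat_lit 0) (.e (nat_lit 329689) (nat_lit 0) .nil) .nil))) 
(.lf (nat_lit 565997) (.g (nat_lit 403) (.e (nat_lit 434248) (nat_lit 28) (.e (nat_lit 573487) (nat_lit 14) (.e (nat_lit 81664) (nat_lit 5) .nil))) (.g (nat_lit 0) (.e (nat_lit 330949) (nat_lit 0) .nil) .nil)))) (.nd (nat_lit 9) 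
(.lf (nat_lit 565741) (.g (nat_lit 3680) (.e (nat_lit 434247) (nat_lit 28) (.e (nat_lit 573478) (nat_lit 12) (.e (nat_lit 57574) (nat_lit 55) (.e (nat_lit 778466) (nat_lit 11) (.e (nat_lit 24604) (nat_lit 2) (.e (nat_lit 90167) (nat_lit 13) (.e (nat_lit 172105) (nat_lit 10) .nil))))))) (.g (nat_lit 1) (.e (nat_lit 330235) (nat_lit 0) .nil) .nil))) 
(.lf (nat_lit 566253) (.g (nat_lit 782) (.e (nat_lit 434271) (nat_lit 38) (.e (nat_lit 655363) (nat_lit 0) (.e (nat_lit 3015) (nat_lit 187) (.e (nat_lit 458496) (nat_lit 15) .nil)))) (.g (nat_lit 0) (.e (nat_lit 331843) (nat_lit 0) .nil) .nil)))))))) (.nd (nat_lit 5) (.nd (nat_lit 6) (.nd (nat_lit 7) (.nd (nat_lit 8) (.nd (nat_lit 9) 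
(.lf (nat_lit 565277) (.g (nat_lit 3096) (.e (nat_lit 434244) (nat_lit 28) (.e (nat_lit 573471) (nat_lit 11) (.e (nat_lit 16433) (nat_lit 9) (.e (nat_lit 426402) (nat_lit 15) .nil)))) (.g (nat_lit 0) (.e (nat_lit 329099) (nat_lit 0) .nil) .nil))) 
(.lf (nat_lit 565789) (.g (nat_lit 2195) (.e (nat_lit 434247) (nat_lit 28) (.e (nat_lit 573487) (nat_lit 14) (.e (nat_lit 73753) (nat_lit 8) (.e (nat_lit 557091) (nat_lit 12) (.e (nat_lit 164006) (nat_lit 41) .nil))))) (.g (nat_lit 0) (.e (nat_lit 330379) (nat_lit 0) .nil) .nil)))) (.nd (nat_lit 9) 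
(.lf (nat_lit 565533) (.g (nat_lit 2574) (.e (nat_lit 434245) (nat_lit 28) (.e (nat_lit 573488) (nat_lit 14) (.e (nat_lit 73755) (nat_lit 8) (.e (nat_lit 557091) (nat_lit 12) (.e (nat_lit 164007) (nat_lit 41) .nil))))) (.g (nat_lit 0) (.e (nat_lit 329779) (nat_lit 0) .nil) .nil))) 
(.lf (nat_lit 566045) (.g (nat_lit 3599) (.e (nat_lit 434248) (nat_lit 28) (.e (nat_lit 573489) (nat_lit 14) (.e (nat_lit 73755) (nat_lit 8) (.e (nat_lit 557067) (nat_lit 9) (.e (nat_lit 2606) (nat_lit 163) (.e (nat_lit 164401) (nat_lit 256) (.e (nat_lit 57378) (nat_lit 3) (.e (nat_lit 98368) (nat_lit 27) .nil)))))))) (.g (nat_lit 1) (.e (nat_lit 331196) (nat_lit 0) .nil) .nil))))) 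
(.nd (nat_lit 8) (.nd (nat_lit 9) 
(.lf (nat_lit 565405) (.g (nat_lit 2060) (.e (nat_lit 434245) (nat_lit 28) (.e (nat_lit 573481) (nat_lit 13) (.e (nat_lit 65567) (nat_lit 2) (.e (nat_lit 90160) (nat_lit 11) (.e (nat_lit 24668) (nat_lit 15) .nil))))) (.g (nat_lit 0) (.e (nat_lit 329465) (nat_lit 0) .nil) .nil))) 
(.lf (nat_lit 565917) (.g (nat_lit 2856) (.e (nat_lit 434248) (nat_lit 28) (.e (nat_lit 573471) (nat_lit 11) (.e (nat_lit 16433) (nat_lit 9) (.e (nat_lit 426375) (nat_lit 15) .nil)))) (.g (nat_lit 0) (.e (nat_lit 330658) (nat_lit 0) .nil) .nil)))) (.nd (nat_lit 9) 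
(.lf (nat_lit 565661) (.g (nat_lit 3345) (.e (nat_lit 434247) (nat_lit 28) (.e (nat_lit 573457) (nat_lit 9) (.e (nat_lit 430) (nat_lit 32) (.e (nat_lit 426009) (nat_lit 0) (.e (nat_lit 7581) (nat_lit 405) (.e (nat_lit 57464) (nat_lit 23) (.e (nat_lit 516151) (nat_lit 9) (.e (nat_lit 426286) (nat_lit 10) .nil)))))))) (.g (nat_lit 1) (.e (nat_lit 330126) (nat_lit 0) .nil) .nil))) 
(.lf (nat_lit 566173) (.g (nat_lit 1097) (.e (nat_lit 434268) (nat_lit 36) (.e (nat_lit 639020) (nat_lit 16) (.e (nat_lit 65617) (nat_lit 10) (.e (nat_lit 344164) (nat_lit 37) .nil)))) (.g (nat_lit 0) (.e (nat_lit 331536) (nat_lit 0) .nil) .nil)))))) (.nd (nat_lit 7) (.nd (nat_lit 8) (.nd (nat_lit 9) 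
(.lf (nat_lit 565341) (.g (nat_lit 2553) (.e (nat_lit 434244) (nat_lit 28) (.e (nat_lit 573489) (nat_lit 14) (.e (nat_lit 73755) (nat_lit 8) (.e (nat_lit 557089) (nat_lit 12) .nil)))) (.g (nat_lit 0) (.e (nat_lit 329343) (nat_lit 0) .nil) .nil))) 
(.lf (nat_lit 565853) (.g (nat_lit 2700) (.e (nat_lit 434247) (nat_lit 28) (.e (nat_lit 573489) (nat_lit 14) (.e (nat_lit 73755) (nat_lit 8) (.e (nat_lit 557091) (nat_lit 12) (.e (nat_lit 163844) (nat_lit 0) (.e (nat_lit 5943) (nat_lit 322) (.e (nat_lit 57379) (nat_lit 3) (.e (nat_lit 98368) (nat_lit 27) .nil)))))))) (.g (nat_lit 1) (.e (nat_lit 330530) (nat_lit 0) .nil) .nil)))) (.nd (nat_lit 9) 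
(.lf (nat_lit 565597) (.g (nat_lit 2420) (.e (nat_lit 434246) (nat_lit 28) (.e (nat_lit 573487) (nat_lit 14) (.e (nat_lit 73746) (nat_lit 3) (.e (nat_lit 516117) (nat_lit 1) (.e (nat_lit 164195) (nat_lit 158) .nil))))) (.g (nat_lit 0) (.e (nat_lit 329928) (nat_lit 0) .nil) .nil))) 
(.lf (nat_lit 566109) (.g (nat_lit 2063) (.e (nat_lit 434241) (nat_lit 27) (.e (nat_lit 565269) (nat_lit 6) (.e (nat_lit 81964) (nat_lit 26) (.e (nat_lit 147512) (nat_lit 14) (.e (nat_lit 2807) (nat_lit 180) (.e (nat_lit 303137) (nat_lit 10) .nil)))))) (.g (nat_lit 1) (.e (nat_lit 331453) (nat_lit 0) .nil) .nil))))) (.nd (nat_lit 8) (.nd (nat_lit 9) 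
(.lf (nat_lit 565469) (.g (nat_lit 2463) (.e (nat_lit 434245) (nat_lit 28) (.e (nat_lit 573487) (nat_lit 14) (.e (nat_lit 73753) (nat_lit 8) (.e (nat_lit 557091) (nat_lit 12) (.e (nat_lit 164005) (nat_lit 41) .nil))))) (.g (nat_lit 0) (.e (nat_lit 329629) (nat_lit 0) .nil) .nil))) 
(.lf (nat_lit 565981) (.g (nat_lit 1485) (.e (nat_lit 434248) (nat_lit 28) (.e (nat_lit 573482) (nat_lit 13) (.e (nat_lit 65568) (nat_lit 2) (.e (nat_lit 90189) (nat_lit 18) .nil)))) (.g (nat_lit 0) (.e (nat_lit 330828) (nat_lit 0) .nil) .nil)))) (.nd (nat_lit 9) 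
(.lf (nat_lit 565725) (.g (nat_lit 3555) (.e (nat_lit 434247) (nat_lit 28) (.e (nat_lit 573477) (nat_lit 12) (.e (nat_lit 57750) (nat_lit 201) (.e (nat_lit 3090) (nat_lit 191) (.e (nat_lit 483363) (nat_lit 18) (.e (nat_lit 57686) (nat_lit 156) (.e (nat_lit 163917) (nat_lit 13) .nil))))))) (.g (nat_lit 1) (.e (nat_lit 330203) (nat_lit 0) .nil) .nil))) 
(.lf (nat_lit 566237) (.g (nat_lit 2065) (.e (nat_lit 434279) (nat_lit 39) (.e (nat_lit 663585) (nat_lit 12) (.e (nat_lit 163977) (nat_lit 30) (.e (nat_lit 573470) (nat_lit 11) (.e (nat_lit 16465) (nat_lit 13) (.e (nat_lit 491264) (nat_lit 10) .nil)))))) (.g (nat_lit 1) (.e (nat_lit 331816) (nat_lit 0) .nil) .nil))))))) (.nd (nat_lit 6) (.nd (nat_lit 7) (.nd (nat_lit 8) (.nd (nat_lit 9) 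
(.lf (nat_lit 565309) (.g (nat_lit 1533) (.e (nat_lit 434244) (nat_lit 28) (.e (nat_lit 573487) (nat_lit 14) (.e (nat_lit 73746) (nat_lit 3) (.e (nat_lit 516195) (nat_lit 26) .nil)))) (.g (nat_lit 0) (.e (nat_lit 329222) (nat_lit 0) .nil) .nil))) 
(.lf (nat_lit 565821) (.g (nat_lit 2514) (.e (nat_lit 434247) (nat_lit 28) (.e (nat_lit 573489) (nat_lit 14) (.e (nat_lit 73755) (nat_lit 8) (.e (nat_lit 557084) (nat_lit 10) .nil)))) (.g (nat_lit 0) (.e (nat_lit 330458) (nat_lit 0) .nil) .nil)))) (.nd (nat_lit 9) 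
(.lf (nat_lit 565565) (.g (nat_lit 1676) (.e (nat_lit 434246) (nat_lit 28) (.e (nat_lit 573474) (nat_lit 12) (.e (nat_lit 57572) (nat_lit 54) (.e (nat_lit 770072) (nat_lit 8) .nil)))) (.g (nat_lit 0) (.e (nat_lit 329843) (nat_lit 0) .nil) .nil))) 
(.lf (nat_lit 566077) (.g (nat_lit 1691) (.e (nat_lit 434248) (nat_lit 28) (.e (nat_lit 573489) (nat_lit 14) (.e (nat_lit 73755) (nat_lit 8) (.e (nat_lit 557119) (nat_lit 18) .nil)))) (.g (nat_lit 0) (.e (nat_lit 331353) (nat_lit 0) .nil) .nil))))) (.nd (nat_lit 8) (.nd (nat_lit 9) 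
(.lf (nat_lit 565437) (.g (nat_lit 1432) (.e (nat_lit 434245) (nat_lit 28) (.e (nat_lit 573487) (nat_lit 14) (.e (nat_lit 73746) (nat_lit 3) (.e (nat_lit 516115) (nat_lit 1) .nil)))) (.g (nat_lit 0) (.e (nat_lit 329563) (nat_lit 0) .nil) .nil))) 
(.lf (nat_lit 565949) (.g (nat_lit 2996) (.e (nat_lit 434248) (nat_lit 28) (.e (nat_lit 573471) (nat_lit 11) (.e (nat_lit 16470) (nat_lit 14) (.e (nat_lit 491538) (nat_lit 3) .nil)))) (.g (nat_lit 0) (.e (nat_lit 330728) (nat_lit 0) .nil) .nil)))) (.nd (nat_lit 9) 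
(.lf (nat_lit 565693) (.g (nat_lit 3908) (.e (nat_lit 434247) (nat_lit 28) (.e (nat_lit 573471) (nat_lit 11) (.e (nat_lit 16470) (nat_lit 14) (.e (nat_lit 491536) (nat_lit 2) .nil)))) (.g (nat_lit 0) (.e (nat_lit 330167) (nat_lit 0) .nil) .nil))) 
(.lf (nat_lit 566205) (.g (nat_lit 1999) (.e (nat_lit 434275) (nat_lit 39) (.e (nat_lit 663567) (nat_lit 4) (.e (nat_lit 65651) (nat_lit 27) (.e (nat_lit 426287) (nat_lit 10) (.e (nat_lit 434248) (nat_lit 28) (.e (nat_lit 581376) (nat_lit 0) (.e (nat_lit 2980) (nat_lit 185) .nil))))))) (.g (nat_lit 1) (.e (nat_lit 331604) (nat_lit 0) .nil) .nil)))))) 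
(.nd (nat_lit 7) (.nd (nat_lit 8) (.nd (nat_lit 9) 
(.lf (nat_lit 565373) (.g (nat_lit 3408) (.e (nat_lit 434245) (nat_lit 28) (.e (nat_lit 573471) (nat_lit 11) (.e (nat_lit 16433) (nat_lit 9) (.e (nat_lit 426131) (nat_lit 3) (.e (nat_lit 204885) (nat_lit 33) .nil))))) (.g (nat_lit 0) (.e (nat_lit 329405) (nat_lit 0) .nil) .nil))) 
(.lf (nat_lit 565885) (.g (nat_lit 4009) (.e (nat_lit 434248) (nat_lit 28) (.e (nat_lit 573452) (nat_lit 9) (.e (nat_lit 498) (nat_lit 40) (.e (nat_lit 491549) (nat_lit 9) (.e (nat_lit 336324) (nat_lit 18) (.e (nat_lit 204837) (nat_lit 20) (.e (nat_lit 122624) (nat_lit 12) .nil))))))) (.g (nat_lit 1) (.e (nat_lit 330604) (nat_lit 0) .nil) .nil)))) (.nd (nat_lit 9) 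
(.lf (nat_lit 565629) (.g (nat_lit 2191) (.e (nat_lit 434246) (nat_lit 28) (.e (nat_lit 573489) (nat_lit 14) (.e (nat_lit 73755) (nat_lit 8) (.e (nat_lit 557089) (nat_lit 12) (.e (nat_lit 164007) (nat_lit 41) .nil))))) (.g (nat_lit 0) (.e (nat_lit 330054) (nat_lit 0) .nil) .nil))) 
(.lf (nat_lit 566141) (.g (nat_lit 2158) (.e (nat_lit 434268) (nat_lit 36) (.e (nat_lit 639020) (nat_lit 16) (.e (nat_lit 65543) (nat_lit 0) (.e (nat_lit 6218) (nat_lit 333) (.e (nat_lit 57819) (nat_lit 248) (.e (nat_lit 164359) (nat_lit 246) (.e (nat_lit 2973) (nat_lit 185) .nil))))))) (.g (nat_lit 1) (.e (nat_lit 331487) (nat_lit 0) .nil) .nil))))) (.nd (nat_lit 8) (.nd (nat_lit 9) 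
(.lf (nat_lit 565501) (.g (nat_lit 2347) (.e (nat_lit 434245) (nat_lit 28) (.e (nat_lit 573488) (nat_lit 14) (.e (nat_lit 73755) (nat_lit 8) (.e (nat_lit 557090) (nat_lit 12) (.e (nat_lit 163840) (nat_lit 0) .nil))))) (.g (nat_lit 0) (.e (nat_lit 329712) (nat_lit 0) .nil) .nil))) 
(.lf (nat_lit 566013) (.g (nat_lit 2105) (.e (nat_lit 434248) (nat_lit 28) (.e (nat_lit 573487) (nat_lit 14) (.e (nat_lit 73753) (nat_lit 8) (.e (nat_lit 557090) (nat_lit 12) (.e (nat_lit 163841) (nat_lit 0) .nil))))) (.g (nat_lit 0) (.e (nat_lit 331033) (nat_lit 0) .nil) .nil)))) (.nd (nat_lit 9) 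
(.lf (nat_lit 565757) (.g (nat_lit 468) (.e (nat_lit 434247) (nat_lit 28) (.e (nat_lit 573484) (nat_lit 13) (.e (nat_lit 65571) (nat_lit 3) .nil))) (.g (nat_lit 0) (.e (nat_lit 330287) (nat_lit 0) .nil) .nil))) 
(.lf (nat_lit 566269) (.g (nat_lit 3391) (.e (nat_lit 434271) (nat_lit 38) (.e (nat_lit 655375) (nat_lit 3) (.e (nat_lit 163978) (nat_lit 30) (.e (nat_lit 573483) (nat_lit 13) (.e (nat_lit 65610) (nat_lit 10) (.e (nat_lit 344117) (nat_lit 21) (.e (nat_lit 516159) (nat_lit 10) .nil))))))) (.g (nat_lit 1) (.e (nat_lit 331863) (nat_lit 0) .nil) .nil))))))))))) 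
(.nd (nat_lit 2) (.nd (nat_lit 3) (.nd (nat_lit 4) (.nd (nat_lit 5) (.nd (nat_lit 6) 
(.nd (nat_lit 7) (.nd (nat_lit 8) (.nd (nat_lit 9) 
(.lf (nat_lit 565251) (.g (nat_lit 5241) (.e (nat_lit 434244) (nat_lit 28) (.e (nat_lit 573454) (nat_lit 9) (.e (nat_lit 397) (nat_lit 32) (.e (nat_lit 426316) (nat_lit 12) (.e (nat_lit 475185) (nat_lit 29) (.e (nat_lit 557101) (nat_lit 13) (.e (nat_lit 172115) (nat_lit 10) .nil))))))) (.g (nat_lit 1) (.e (nat_lit 329034) (nat_lit 0) .nil) .nil))) 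
(.lf (nat_lit 565763) (.g (nat_lit 1839) (.e (nat_lit 434247) (nat_lit 28) (.e (nat_lit 573484) (nat_lit 13) (.e (nat_lit 65642) (nat_lit 15) (.e (nat_lit 3253) (nat_lit 197) (.e (nat_lit 532503) (nat_lit 1) .nil))))) (.g (nat_lit 0) (.e (nat_lit 330302) (nat_lit 0) .nil) .nil)))) (.nd (nat_lit 9) 
(.lf (nat_lit 565507) (.g (nat_lit 1987) (.e (nat_lit 434245) (nat_lit 28) (.e (nat_lit 573488) (nat_lit 14) (.e (nat_lit 73755) (nat_lit 8) (.e (nat_lit 557090) (nat_lit 12) (.e (nat_lit 163843) (nat_lit 0) .nil))))) (.g (nat_lit 0) (.e (nat_lit 329719) (nat_lit 0) .nil) .nil))) 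
(.lf (nat_lit 566019) (.g (nat_lit 2383) (.e (nat_lit 434248) (nat_lit 28) (.e (nat_lit 573487) (nat_lit 14) (.e (nat_lit 73753) (nat_lit 8) (.e (nat_lit 557091) (nat_lit 12) (.e (nat_lit 164006) (nat_lit 41) .nil))))) (.g (nat_lit 0) (.e (nat_lit 331072) (nat_lit 0) .nil) .nil))))) (.nd (nat_lit 8) (.nd (nat_lit 9) 
(.lf (nat_lit 565379) (.g (nat_lit 3232) (.e (nat_lit 434245) (nat_lit 28) (.e (nat_lit 573471) (nat_lit 11) (.e (nat_lit 16433) (nat_lit 9) (.e (nat_lit 426376) (nat_lit 15) (.e (nat_lit 1856) (nat_lit 124) .nil))))) (.g (nat_lit 0) (.e (nat_lit 329411) (nat_lit 0) .nil) .nil))) 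
(.lf (nat_lit 565891) (.g (nat_lit 2980) (.e (nat_lit 434248) (nat_lit 28) (.e (nat_lit 573469) (nat_lit 11) (.e (nat_lit 16471) (nat_lit 14) (.e (nat_lit 491526) (nat_lit 0) (.e (nat_lit 1788) (nat_lit 119) (.e (nat_lit 516151) (nat_lit 9) (.e (nat_lit 426286) (nat_lit 10) .nil))))))) (.g (nat_lit 1) (.e (nat_lit 330623) (nat_lit 0) .nil) .nil)))) (.nd (nat_lit 9) 
(.lf (nat_lit 565635) (.g (nat_lit 2938) (.e (nat_lit 434246) (nat_lit 28) (.e (nat_lit 573489) (nat_lit 14) (.e (nat_lit 73755) (nat_lit 8) (.e (nat_lit 557090) (nat_lit 12) (.e (nat_lit 163850) (nat_lit 0) (.e (nat_lit 5939) (nat_lit 322) (.e (nat_lit 57379) (nat_lit 3) (.e (nat_lit 98366) (nat_lit 27) .nil)))))))) (.g (nat_lit 1) (.e (nat_lit 330070) (nat_lit 0) .nil) .nil))) 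
(.lf (nat_lit 566147) (.g (nat_lit 1897) (.e (nat_lit 434268) (nat_lit 36) (.e (nat_lit 639020) (nat_lit 16) (.e (nat_lit 65583) (nat_lit 7) (.e (nat_lit 319530) (nat_lit 16) (.e (nat_lit 286722) (nat_lit 0) (.e (nat_lit 6646) (nat_lit 357) (.e (nat_lit 2962) (nat_lit 185) .nil))))))) (.g (nat_lit 1) (.e (nat_lit 331496) (nat_lit 0) .nil) .nil)))))) 
(.nd (nat_lit 7) (.nd (nat_lit 8) (.nd (nat_lit 9) 
(.lf (nat_lit 565315) (.g (nat_lit 3586) (.e (nat_lit 434244) (nat_lit 28) (.e (nat_lit 573487) (nat_lit 14) (.e (nat_lit 73753) (nat_lit 8) (.e (nat_lit 557091) (nat_lit 12) (.e (nat_lit 163841) (nat_lit 0) (.e (nat_lit 5943) (nat_lit 322) (.e (nat_lit 57379) (nat_lit 3) (.e (nat_lit 98366) (nat_lit 27) .nil)))))))) (.g (nat_lit 1) (.e (nat_lit 329256) (nat_lit 0) .nil) .nil))) 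
(.lf (nat_lit 565827) (.g (nat_lit 2040) (.e (nat_lit 434247) (nat_lit 28) (.e (nat_lit 573489) (nat_lit 14) (.e (nat_lit 73755) (nat_lit 8) (.e (nat_lit 557089) (nat_lit 12) (.e (nat_lit 164006) (nat_lit 41) .nil))))) (.g (nat_lit 0) (.e (nat_lit 330471) (nat_lit 0) .nil) .nil)))) (.nd (nat_lit 9) 
(.lf (nat_lit 565571) (.g (nat_lit 2537) (.e (nat_lit 434246) (nat_lit 28) (.e (nat_lit 573482) (nat_lit 13) (.e (nat_lit 65566) (nat_lit 2) (.e (nat_lit 90160) (nat_lit 11) (.e (nat_lit 24671) (nat_lit 15) .nil))))) (.g (nat_lit 0) (.e (nat_lit 329857) (nat_lit 0) .nil) .nil))) 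
(.lf (nat_lit 566083) (.g (nat_lit 2665) (.e (nat_lit 442112) (nat_lit 28) (.e (nat_lit 573471) (nat_lit 11) (.e (nat_lit 16425) (nat_lit 7) (.e (nat_lit 409616) (nat_lit 10) (.e (nat_lit 7936) (nat_lit 43) .nil))))) (.g (nat_lit 0) (.e (nat_lit 331403) (nat_lit 0) .nil) .nil))))) (.nd (nat_lit 8) (.nd (nat_lit 9) 
(.lf (nat_lit 565443) (.g (nat_lit 436) (.e (nat_lit 434245) (nat_lit 28) (.e (nat_lit 573487) (nat_lit 14) (.e (nat_lit 73747) (nat_lit 3) .nil))) (.g (nat_lit 0) (.e (nat_lit 329571) (nat_lit 0) .nil) .nil))) 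
(.lf (nat_lit 565955) (.g (nat_lit 2553) (.e (nat_lit 434248) (nat_lit 28) (.e (nat_lit 573471) (nat_lit 11) (.e (nat_lit 16473) (nat_lit 14) (.e (nat_lit 491526) (nat_lit 0) (.e (nat_lit 1698) (nat_lit 117) .nil))))) (.g (nat_lit 0) (.e (nat_lit 330734) (nat_lit 0) .nil) .nil)))) (.nd (nat_lit 9) 
(.lf (nat_lit 565699) (.g (nat_lit 1678) (.e (nat_lit 434247) (nat_lit 28) (.e (nat_lit 573475) (nat_lit 12) (.e (nat_lit 57354) (nat_lit 0) (.e (nat_lit 7270) (nat_lit 385) .nil)))) (.g (nat_lit 0) (.e (nat_lit 330173) (nat_lit 0) .nil) .nil))) 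
(.lf (nat_lit 566211) (.g (nat_lit 2548) (.e (nat_lit 434275) (nat_lit 39) (.e (nat_lit 663584) (nat_lit 12) (.e (nat_lit 163979) (nat_lit 30) (.e (nat_lit 573470) (nat_lit 11) (.e (nat_lit 16465) (nat_lit 13) (.e (nat_lit 491264) (nat_lit 10) .nil)))))) (.g (nat_lit 1) (.e (nat_lit 331667) (nat_lit 0) .nil) .nil))))))) (.nd (nat_lit 6) (.nd (nat_lit 7) (.nd (nat_lit 8) (.nd (nat_lit 9) 
(.lf (nat_lit 565283) (.g (nat_lit 1830) (.e (nat_lit 434244) (nat_lit 28) (.e (nat_lit 573471) (nat_lit 11) (.e (nat_lit 16448) (nat_lit 10) (.e (nat_lit 434232) (nat_lit 23) .nil)))) (.g (nat_lit 0) (.e (nat_lit 329117) (nat_lit 0) .nil) .nil))) 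
(.lf (nat_lit 565795) (.g (nat_lit 1255) (.e (nat_lit 434247) (nat_lit 28) (.e (nat_lit 573489) (nat_lit 14) (.e (nat_lit 73757) (nat_lit 11) (.e (nat_lit 581649) (nat_lit 4) .nil)))) (.g (nat_lit 0) (.e (nat_lit 330398) (nat_lit 0) .nil) .nil)))) (.nd (nat_lit 9) 
(.lf (nat_lit 565539) (.g (nat_lit 583) (.e (nat_lit 434245) (nat_lit 28) (.e (nat_lit 573489) (nat_lit 14) (.e (nat_lit 73755) (nat_lit 8) .nil))) (.g (nat_lit 0) (.e (nat_lit 329803) (nat_lit 0) .nil) .nil))) 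
(.lf (nat_lit 566051) (.g (nat_lit 2903) (.e (nat_lit 434248) (nat_lit 28) (.e (nat_lit 573489) (nat_lit 14) (.e (nat_lit 73755) (nat_lit 8) (.e (nat_lit 557089) (nat_lit 12) (.e (nat_lit 164005) (nat_lit 41) .nil))))) (.g (nat_lit 0) (.e (nat_lit 331217) (nat_lit 0) .nil) .nil))))) (.nd (nat_lit 8) (.nd (nat_lit 9) 
(.lf (nat_lit 565411) (.g (nat_lit 3315) (.e (nat_lit 434245) (nat_lit 28) (.e (nat_lit 573481) (nat_lit 13) (.e (nat_lit 65568) (nat_lit 2) (.e (nat_lit 90160) (nat_lit 11) (.e (nat_lit 24671) (nat_lit 15) (.e (nat_lit 7936) (nat_lit 195) (.e (nat_lit 516160) (nat_lit 10) .nil))))))) (.g (nat_lit 1) (.e (nat_lit 329478) (nat_lit 0) .nil) .nil))) 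
(.lf (nat_lit 565923) (.g (nat_lit 1311) (.e (nat_lit 434248) (nat_lit 28) (.e (nat_lit 573471) (nat_lit 11) (.e (nat_lit 16435) (nat_lit 9) (.e (nat_lit 426402) (nat_lit 15) .nil)))) (.g (nat_lit 0) (.e (nat_lit 330685) (nat_lit 0) .nil) .nil)))) (.nd (nat_lit 9) 
(.lf (nat_lit 565667) (.g (nat_lit 3630) (.e (nat_lit 434247) (nat_lit 28) (.e (nat_lit 573457) (nat_lit 9) (.e (nat_lit 430) (nat_lit 32) (.e (nat_lit 426343) (nat_lit 14) (.e (nat_lit 491535) (nat_lit 2) (.e (nat_lit 90170) (nat_lit 13) (.e (nat_lit 172113) (nat_lit 10) .nil))))))) (.g (nat_lit 1) (.e (nat_lit 330132) (nat_lit 0) .nil) .nil))) 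
(.lf (nat_lit 566179) (.g (nat_lit 750) (.e (nat_lit 434268) (nat_lit 36) (.e (nat_lit 639020) (nat_lit 16) (.e (nat_lit 65620) (nat_lit 10) (.e (nat_lit 344157) (nat_lit 36) .nil)))) (.g (nat_lit 0) (.e (nat_lit 331545) (nat_lit 0) .nil) .nil)))))) (.nd (nat_lit 7) (.nd (nat_lit 8) (.nd (nat_lit 9) 
(.lf (nat_lit 565347) (.g (nat_lit 2619) (.e (nat_lit 434244) (nat_lit 28) (.e (nat_lit 573489) (nat_lit 14) (.e (nat_lit 73755) (nat_lit 8) (.e (nat_lit 557091) (nat_lit 12) .nil)))) (.g (nat_lit 0) (.e (nat_lit 329349) (nat_lit 0) .nil) .nil))) 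
(.lf (nat_lit 565859) (.g (nat_lit 2072) (.e (nat_lit 434247) (nat_lit 28) (.e (nat_lit 573489) (nat_lit 14) (.e (nat_lit 73755) (nat_lit 8) (.e (nat_lit 557091) (nat_lit 12) (.e (nat_lit 164007) (nat_lit 41) .nil))))) (.g (nat_lit 0) (.e (nat_lit 330551) (nat_lit 0) .nil) .nil)))) (.nd (nat_lit 9) 
(.lf (nat_lit 565603) (.g (nat_lit 1204) (.e (nat_lit 434246) (nat_lit 28) (.e (nat_lit 573487) (nat_lit 14) (.e (nat_lit 73747) (nat_lit 3) (.e (nat_lit 516195) (nat_lit 26) .nil)))) (.g (nat_lit 0) (.e (nat_lit 329951) (nat_lit 0) .nil) .nil))) 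
(.lf (nat_lit 566115) (.g (nat_lit 897) (.e (nat_lit 434266) (nat_lit 35) (.e (nat_lit 630821) (nat_lit 16) (.e (nat_lit 65583) (nat_lit 7) (.e (nat_lit 319527) (nat_lit 15) (.e (nat_lit 278547) (nat_lit 8) (.e (nat_lit 303138) (nat_lit 10) .nil)))))) (.g (nat_lit 1) (.e (nat_lit 331461) (nat_lit 0) .nil) .nil))))) (.nd (nat_lit 8) (.nd (nat_lit 9) 
(.lf (nat_lit 565475) (.g (nat_lit 2101) (.e (nat_lit 434245) (nat_lit 28) (.e (nat_lit 573487) (nat_lit 14) (.e (nat_lit 73753) (nat_lit 8) (.e (nat_lit 557093) (nat_lit 12) (.e (nat_lit 164010) (nat_lit 41) .nil))))) (.g (nat_lit 0) (.e (nat_lit 329640) (nat_lit 0) .nil) .nil))) 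
(.lf (nat_lit 565987) (.g (nat_lit 3372) (.e (nat_lit 434248) (nat_lit 28) (.e (nat_lit 573482) (nat_lit 13) (.e (nat_lit 65570) (nat_lit 3) (.e (nat_lit 98317) (nat_lit 9) (.e (nat_lit 336293) (nat_lit 15) (.e (nat_lit 7936) (nat_lit 195) (.e (nat_lit 516160) (nat_lit 10) .nil))))))) (.g (nat_lit 1) (.e (nat_lit 330846) (nat_lit 0) .nil) .nil)))) (.nd (nat_lit 9) 
(.lf (nat_lit 565731) (.g (nat_lit 2186) (.e (nat_lit 434247) (nat_lit 28) (.e (nat_lit 573477) (nat_lit 12) (.e (nat_lit 57750) (nat_lit 201) (.e (nat_lit 3090) (nat_lit 191) (.e (nat_lit 483364) (nat_lit 18) (.e (nat_lit 57692) (nat_lit 156) (.e (nat_lit 171776) (nat_lit 13) .nil))))))) (.g (nat_lit 1) (.e (nat_lit 330210) (nat_lit 0) .nil) .nil))) 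
(.lf (nat_lit 566243) (.g (nat_lit 2342) (.e (nat_lit 434270) (nat_lit 38) (.e (nat_lit 655375) (nat_lit 3) (.e (nat_lit 163978) (nat_lit 30) (.e (nat_lit 573484) (nat_lit 13) (.e (nat_lit 65610) (nat_lit 10) .nil))))) (.g (nat_lit 0) (.e (nat_lit 331828) (nat_lit 0) .nil) .nil)))))))) (.nd (nat_lit 5) (.nd (nat_lit 6) (.nd (nat_lit 7) (.nd (nat_lit 8) (.nd (nat_lit 9) 
(.lf (nat_lit 565267) (.g (nat_lit 476) (.e (nat_lit 434244) (nat_lit 28) (.e (nat_lit 573471) (nat_lit 11) (.e (nat_lit 16433) (nat_lit 9) .nil))) (.g (nat_lit 0) (.e (nat_lit 329087) (nat_lit 0) .nil) .nil))) 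
(.lf (nat_lit 565779) (.g (nat_lit 2080) (.e (nat_lit 434247) (nat_lit 28) (.e (nat_lit 573487) (nat_lit 14) (.e (nat_lit 73746) (nat_lit 3) (.e (nat_lit 516115) (nat_lit 1) (.e (nat_lit 171776) (nat_lit 160) .nil))))) (.g (nat_lit 0) (.e (nat_lit 330352) (nat_lit 0) .nil) .nil)))) (.nd (nat_lit 9) 
(.lf (nat_lit 565523) (.g (nat_lit 2450) (.e (nat_lit 434245) (nat_lit 28) (.e (nat_lit 573488) (nat_lit 14) (.e (nat_lit 73755) (nat_lit 8) (.e (nat_lit 557090) (nat_lit 12) (.e (nat_lit 164010) (nat_lit 41) .nil))))) (.g (nat_lit 0) (.e (nat_lit 329758) (nat_lit 0) .nil) .nil))) 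
(.lf (nat_lit 566035) (.g (nat_lit 306) (.e (nat_lit 434248) (nat_lit 28) (.e (nat_lit 573489) (nat_lit 14) (.e (nat_lit 73755) (nat_lit 8) .nil))) (.g (nat_lit 0) (.e (nat_lit 331149) (nat_lit 0) .nil) .nil))))) (.nd (nat_lit 8) (.nd (nat_lit 9) 
(.lf (nat_lit 565395) (.g (nat_lit 4118) (.e (nat_lit 434245) (nat_lit 28) (.e (nat_lit 573471) (nat_lit 11) (.e (nat_lit 16470) (nat_lit 14) (.e (nat_lit 491540) (nat_lit 3) (.e (nat_lit 98359) (nat_lit 26) .nil))))) (.g (nat_lit 0) (.e (nat_lit 329433) (nat_lit 0) .nil) .nil))) 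
(.lf (nat_lit 565907) (.g (nat_lit 3065) (.e (nat_lit 434248) (nat_lit 28) (.e (nat_lit 573471) (nat_lit 11) (.e (nat_lit 16431) (nat_lit 9) (.e (nat_lit 426140) (nat_lit 3) (.e (nat_lit 204885) (nat_lit 33) .nil))))) (.g (nat_lit 0) (.e (nat_lit 330646) (nat_lit 0) .nil) .nil)))) (.nd (nat_lit 9) 
(.lf (nat_lit 565651) (.g (nat_lit 2654) (.e (nat_lit 434246) (nat_lit 28) (.e (nat_lit 573489) (nat_lit 14) (.e (nat_lit 73755) (nat_lit 8) (.e (nat_lit 557091) (nat_lit 12) (.e (nat_lit 164003) (nat_lit 40) .nil))))) (.g (nat_lit 0) (.e (nat_lit 330106) (nat_lit 0) .nil) .nil))) 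
(.lf (nat_lit 566163) (.g (nat_lit 2008) (.e (nat_lit 434268) (nat_lit 36) (.e (nat_lit 639020) (nat_lit 16) (.e (nat_lit 65610) (nat_lit 10) (.e (nat_lit 344156) (nat_lit 36) (.e (nat_lit 638998) (nat_lit 8) (.e (nat_lit 172105) (nat_lit 10) .nil)))))) (.g (nat_lit 1) (.e (nat_lit 331515) (nat_lit 0) .nil) .nil)))))) (.nd (nat_lit 7) (.nd (nat_lit 8) (.nd (nat_lit 9) 
(.lf (nat_lit 565331) (.g (nat_lit 3443) (.e (nat_lit 434244) (nat_lit 28) (.e (nat_lit 573488) (nat_lit 14) (.e (nat_lit 73755) (nat_lit 8) (.e (nat_lit 557090) (nat_lit 12) (.e (nat_lit 163851) (nat_lit 0) (.e (nat_lit 5939) (nat_lit 322) (.e (nat_lit 57379) (nat_lit 3) (.e (nat_lit 98367) (nat_lit 27) .nil)))))))) (.g (nat_lit 1) (.e (nat_lit 329309) (nat_lit 0) .nil) .nil))) 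
(.lf (nat_lit 565843) (.g (nat_lit 3430) (.e (nat_lit 434247) (nat_lit 28) (.e (nat_lit 573489) (nat_lit 14) (.e (nat_lit 73755) (nat_lit 8) (.e (nat_lit 557090) (nat_lit 12) (.e (nat_lit 164004) (nat_lit 41) .nil))))) (.g (nat_lit 0) (.e (nat_lit 330512) (nat_lit 0) .nil) .nil)))) (.nd (nat_lit 9) 
(.lf (nat_lit 565587) (.g (nat_lit 2083) (.e (nat_lit 434246) (nat_lit 28) (.e (nat_lit 573482) (nat_lit 13) (.e (nat_lit 65571) (nat_lit 3) (.e (nat_lit 98319) (nat_lit 17) .nil)))) (.g (nat_lit 0) (.e (nat_lit 329889) (nat_lit 0) .nil) .nil))) 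
(.lf (nat_lit 566099) (.g (nat_lit 1505) (.e (nat_lit 434241) (nat_lit 27) (.e (nat_lit 565267) (nat_lit 4) (.e (nat_lit 65620) (nat_lit 10) (.e (nat_lit 344183) (nat_lit 49) (.e (nat_lit 819219) (nat_lit 4) (.e (nat_lit 172107) (nat_lit 10) .nil)))))) (.g (nat_lit 1) (.e (nat_lit 331430) (nat_lit 0) .nil) .nil))))) (.nd (nat_lit 8) (.nd (nat_lit 9) 
(.lf (nat_lit 565459) (.g (nat_lit 2370) (.e (nat_lit 434245) (nat_lit 28) (.e (nat_lit 573487) (nat_lit 14) (.e (nat_lit 73753) (nat_lit 8) (.e (nat_lit 557090) (nat_lit 12) (.e (nat_lit 164004) (nat_lit 41) .nil))))) (.g (nat_lit 0) (.e (nat_lit 329607) (nat_lit 0) .nil) .nil))) 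
(.lf (nat_lit 565971) (.g (nat_lit 2247) (.e (nat_lit 434248) (nat_lit 28) (.e (nat_lit 573480) (nat_lit 13) (.e (nat_lit 65568) (nat_lit 2) (.e (nat_lit 90160) (nat_lit 11) (.e (nat_lit 24669) (nat_lit 15) .nil))))) (.g (nat_lit 0) (.e (nat_lit 330772) (nat_lit 0) .nil) .nil)))) (.nd (nat_lit 9) 
(.lf (nat_lit 565715) (.g (nat_lit 1952) (.e (nat_lit 434247) (nat_lit 28) (.e (nat_lit 573477) (nat_lit 12) (.e (nat_lit 57575) (nat_lit 55) (.e (nat_lit 778465) (nat_lit 11) (.e (nat_lit 24607) (nat_lit 3) .nil))))) (.g (nat_lit 0) (.e (nat_lit 330192) (nat_lit 0) .nil) .nil))) 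
(.lf (nat_lit 566227) (.g (nat_lit 1086) (.e (nat_lit 434276) (nat_lit 39) (.e (nat_lit 663589) (nat_lit 14) (.e (nat_lit 2808) (nat_lit 180) (.e (nat_lit 303146) (nat_lit 14) .nil)))) (.g (nat_lit 0) (.e (nat_lit 331764) (nat_lit 0) .nil) .nil))))))) (.nd (nat_lit 6) (.nd (nat_lit 7) (.nd (nat_lit 8) (.nd (nat_lit 9) 
(.lf (nat_lit 565299) (.g (nat_lit 345) (.e (nat_lit 434244) (nat_lit 28) (.e (nat_lit 573481) (nat_lit 13) (.e (nat_lit 65570) (nat_lit 3) .nil))) (.g (nat_lit 0) (.e (nat_lit 329184) (nat_lit 0) .nil) .nil))) 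
(.lf (nat_lit 565811) (.g (nat_lit 3292) (.e (nat_lit 434247) (nat_lit 28) (.e (nat_lit 573489) (nat_lit 14) (.e (nat_lit 73755) (nat_lit 8) (.e (nat_lit 557067) (nat_lit 9) (.e (nat_lit 2603) (nat_lit 163) (.e (nat_lit 164401) (nat_lit 256) (.e (nat_lit 57378) (nat_lit 3) (.e (nat_lit 98368) (nat_lit 27) .nil)))))))) (.g (nat_lit 1) (.e (nat_lit 330433) (nat_lit 0) .nil) .nil)))) 
(.nd (nat_lit 9) 
(.lf (nat_lit 565555) (.g (nat_lit 2784) (.e (nat_lit 434246) (nat_lit 28) (.e (nat_lit 573471) (nat_lit 11) (.e (nat_lit 16439) (nat_lit 9) (.e (nat_lit 426132) (nat_lit 3) (.e (nat_lit 204885) (nat_lit 33) (.e (nat_lit 401448) (nat_lit 10) .nil)))))) (.g (nat_lit 1) (.e (nat_lit 329829) (nat_lit 0) .nil) .nil))) 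
(.lf (nat_lit 566067) (.g (nat_lit 3423) (.e (nat_lit 434248) (nat_lit 28) (.e (nat_lit 573489) (nat_lit 14) (.e (nat_lit 73755) (nat_lit 8) (.e (nat_lit 557090) (nat_lit 12) (.e (nat_lit 163855) (nat_lit 0) (.e (nat_lit 5944) (nat_lit 322) (.e (nat_lit 57378) (nat_lit 3) (.e (nat_lit 98368) (nat_lit 27) .nil)))))))) (.g (nat_lit 1) (.e (nat_lit 331266) (nat_lit 0) .nil) .nil))))) 
(.nd (nat_lit 8) (.nd (nat_lit 9) 
(.lf (nat_lit 565427) (.g (nat_lit 2156) (.e (nat_lit 434245) (nat_lit 28) (.e (nat_lit 573481) (nat_lit 13) (.e (nat_lit 65571) (nat_lit 3) (.e (nat_lit 98319) (nat_lit 17) (.e (nat_lit 2399) (nat_lit 157) .nil))))) (.g (nat_lit 0) (.e (nat_lit 329522) (nat_lit 0) .nil) .nil))) 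
(.lf (nat_lit 565939) (.g (nat_lit 1363) (.e (nat_lit 434248) (nat_lit 28) (.e (nat_lit 573471) (nat_lit 11) (.e (nat_lit 16461) (nat_lit 12) (.e (nat_lit 475185) (nat_lit 29) .nil)))) (.g (nat_lit 0) (.e (nat_lit 330718) (nat_lit 0) .nil) .nil)))) (.nd (nat_lit 9) 
(.lf (nat_lit 565683) (.g (nat_lit 3553) (.e (nat_lit 434247) (nat_lit 28) (.e (nat_lit 573471) (nat_lit 11) (.e (nat_lit 16425) (nat_lit 7) (.e (nat_lit 409616) (nat_lit 10) .nil)))) (.g (nat_lit 0) (.e (nat_lit 330150) (nat_lit 0) .nil) .nil))) 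
(.lf (nat_lit 566195) (.g (nat_lit 1544) (.e (nat_lit 434269) (nat_lit 36) (.e (nat_lit 639021) (nat_lit 16) (.e (nat_lit 65617) (nat_lit 10) (.e (nat_lit 344157) (nat_lit 36) (.e (nat_lit 638999) (nat_lit 8) (.e (nat_lit 172107) (nat_lit 10) .nil)))))) (.g (nat_lit 1) (.e (nat_lit 331587) (nat_lit 0) .nil) .nil)))))) (.nd (nat_lit 7) (.nd (nat_lit 8) (.nd (nat_lit 9) 
(.lf (nat_lit 565363) (.g (nat_lit 1773) (.e (nat_lit 434245) (nat_lit 28) (.e (nat_lit 573471) (nat_lit 11) (.e (nat_lit 16388) (nat_lit 0) (.e (nat_lit 7545) (nat_lit 402) .nil)))) (.g (nat_lit 0) (.e (nat_lit 329386) (nat_lit 0) .nil) .nil))) 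
(.lf (nat_lit 565875) (.g (nat_lit 2681) (.e (nat_lit 434247) (nat_lit 28) (.e (nat_lit 573489) (nat_lit 14) (.e (nat_lit 73755) (nat_lit 8) (.e (nat_lit 557121) (nat_lit 18) .nil)))) (.g (nat_lit 0) (.e (nat_lit 330573) (nat_lit 0) .nil) .nil)))) (.nd (nat_lit 9) 
(.lf (nat_lit 565619) (.g (nat_lit 1838) (.e (nat_lit 434246) (nat_lit 28) (.e (nat_lit 573489) (nat_lit 14) (.e (nat_lit 73754) (nat_lit 8) (.e (nat_lit 557060) (nat_lit 0) .nil)))) (.g (nat_lit 0) (.e (nat_lit 330008) (nat_lit 0) .nil) .nil))) 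
(.lf (nat_lit 566131) (.g (nat_lit 846) (.e (nat_lit 434266) (nat_lit 35) (.e (nat_lit 630821) (nat_lit 16) (.e (nat_lit 65617) (nat_lit 10) (.e (nat_lit 344154) (nat_lit 35) .nil)))) (.g (nat_lit 0) (.e (nat_lit 331477) (nat_lit 0) .nil) .nil))))) (.nd (nat_lit 8) (.nd (nat_lit 9) 
(.lf (nat_lit 565491) (.g (nat_lit 2539) (.e (nat_lit 434245) (nat_lit 28) (.e (nat_lit 573488) (nat_lit 14) (.e (nat_lit 73755) (nat_lit 8) (.e (nat_lit 557067) (nat_lit 9) (.e (nat_lit 2603) (nat_lit 163) .nil))))) (.g (nat_lit 0) (.e (nat_lit 329697) (nat_lit 0) .nil) .nil))) 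
(.lf (nat_lit 566003) (.g (nat_lit 2120) (.e (nat_lit 434248) (nat_lit 28) (.e (nat_lit 573487) (nat_lit 14) (.e (nat_lit 73746) (nat_lit 3) (.e (nat_lit 516120) (nat_lit 1) (.e (nat_lit 164195) (nat_lit 158) .nil))))) (.g (nat_lit 0) (.e (nat_lit 330968) (nat_lit 0) .nil) .nil)))) (.nd (nat_lit 9) 
(.lf (nat_lit 565747) (.g (nat_lit 460) (.e (nat_lit 434247) (nat_lit 28) (.e (nat_lit 573484) (nat_lit 13) (.e (nat_lit 65566) (nat_lit 2) .nil))) (.g (nat_lit 0) (.e (nat_lit 330261) (nat_lit 0) .nil) .nil))) 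
(.lf (nat_lit 566259) (.g (nat_lit 3198) (.e (nat_lit 434271) (nat_lit 38) (.e (nat_lit 655373) (nat_lit 3) (.e (nat_lit 163979) (nat_lit 30) (.e (nat_lit 573491) (nat_lit 15) (.e (nat_lit 81954) (nat_lit 23) (.e (nat_lit 98366) (nat_lit 27) .nil)))))) (.g (nat_lit 1) (.e (nat_lit 331852) (nat_lit 0) .nil) .nil))))))))) 
(.nd (nat_lit 4) (.nd (nat_lit 5) (.nd (nat_lit 6) (.nd (nat_lit 7) (.nd (nat_lit 8) 
(.nd (nat_lit 9) 
(.lf (nat_lit 565259) (.g (nat_lit 1514) (.e (nat_lit 434244) (nat_lit 28) (.e (nat_lit 573469) (nat_lit 11) (.e (nat_lit 16471) (nat_lit 14) (.e (nat_lit 491535) (nat_lit 2) (.e (nat_lit 90170) (nat_lit 13) .nil))))) (.g (nat_lit 0) (.e (nat_lit 329042) (nat_lit 0) .nil) .nil))) 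
(.lf (nat_lit 565771) (.g (nat_lit 1568) (.e (nat_lit 434247) (nat_lit 28) (.e (nat_lit 573485) (nat_lit 13) (.e (nat_lit 65568) (nat_lit 2) (.e (nat_lit 90165) (nat_lit 12) (.e (nat_lit 164024) (nat_lit 51) .nil))))) (.g (nat_lit 0) (.e (nat_lit 330320) (nat_lit 0) .nil) .nil)))) (.nd (nat_lit 9) 
(.lf (nat_lit 565515) (.g (nat_lit 2792) (.e (nat_lit 434245) (nat_lit 28) (.e (nat_lit 573488) (nat_lit 14) (.e (nat_lit 73755) (nat_lit 8) (.e (nat_lit 557090) (nat_lit 12) (.e (nat_lit 163851) (nat_lit 0) (.e (nat_lit 5939) (nat_lit 322) (.e (nat_lit 57379) (nat_lit 3) (.e (nat_lit 98368) (nat_lit 27) .nil)))))))) (.g (nat_lit 1) (.e (nat_lit 329731) (nat_lit 0) .nil) .nil))) 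
(.lf (nat_lit 566027) (.g (nat_lit 1479) (.e (nat_lit 434248) (nat_lit 28) (.e (nat_lit 573489) (nat_lit 14) (.e (nat_lit 73753) (nat_lit 8) (.e (nat_lit 557089) (nat_lit 12) .nil)))) (.g (nat_lit 0) (.e (nat_lit 331132) (nat_lit 0) .nil) .nil))))) (.nd (nat_lit 8) (.nd (nat_lit 9) 
(.lf (nat_lit 565387) (.g (nat_lit 2132) (.e (nat_lit 434245) (nat_lit 28) (.e (nat_lit 573471) (nat_lit 11) (.e (nat_lit 16448) (nat_lit 10) (.e (nat_lit 434230) (nat_lit 23) .nil)))) (.g (nat_lit 0) (.e (nat_lit 329420) (nat_lit 0) .nil) .nil))) 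
(.lf (nat_lit 565899) (.g (nat_lit 3269) (.e (nat_lit 434248) (nat_lit 28) (.e (nat_lit 573471) (nat_lit 11) (.e (nat_lit 16425) (nat_lit 7) (.e (nat_lit 409614) (nat_lit 10) .nil)))) (.g (nat_lit 0) (.e (nat_lit 330633) (nat_lit 0) .nil) .nil)))) (.nd (nat_lit 9) 
(.lf (nat_lit 565643) (.g (nat_lit 2824) (.e (nat_lit 434246) (nat_lit 28) (.e (nat_lit 573489) (nat_lit 14) (.e (nat_lit 73755) (nat_lit 8) (.e (nat_lit 557090) (nat_lit 12) (.e (nat_lit 164010) (nat_lit 41) .nil))))) (.g (nat_lit 0) (.e (nat_lit 330086) (nat_lit 0) .nil) .nil))) 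
(.lf (nat_lit 566155) (.g (nat_lit 2150) (.e (nat_lit 434268) (nat_lit 36) (.e (nat_lit 639020) (nat_lit 16) (.e (nat_lit 65586) (nat_lit 7) (.e (nat_lit 319531) (nat_lit 16) (.e (nat_lit 286722) (nat_lit 0) (.e (nat_lit 6646) (nat_lit 357) (.e (nat_lit 2962) (nat_lit 185) .nil))))))) (.g (nat_lit 1) (.e (nat_lit 331505) (nat_lit 0) .nil) .nil)))))) 
(.nd (nat_lit 7) (.nd (nat_lit 8) (.nd (nat_lit 9) 
(.lf (nat_lit 565323) (.g (nat_lit 2581) (.e (nat_lit 434244) (nat_lit 28) (.e (nat_lit 573488) (nat_lit 14) (.e (nat_lit 73755) (nat_lit 8) (.e (nat_lit 557090) (nat_lit 12) (.e (nat_lit 163840) (nat_lit 0) .nil))))) (.g (nat_lit 0) (.e (nat_lit 329295) (nat_lit 0) .nil) .nil))) 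
(.lf (nat_lit 565835) (.g (nat_lit 3106) (.e (nat_lit 434247) (nat_lit 28) (.e (nat_lit 573489) (nat_lit 14) (.e (nat_lit 73755) (nat_lit 8) (.e (nat_lit 557090) (nat_lit 12) (.e (nat_lit 163841) (nat_lit 0) .nil))))) (.g (nat_lit 0) (.e (nat_lit 330488) (nat_lit 0) .nil) .nil)))) (.nd (nat_lit 9) 
(.lf (nat_lit 565579) (.g (nat_lit 1770) (.e (nat_lit 434246) (nat_lit 28) (.e (nat_lit 573482) (nat_lit 13) (.e (nat_lit 65568) (nat_lit 2) (.e (nat_lit 90189) (nat_lit 18) .nil)))) (.g (nat_lit 0) (.e (nat_lit 329867) (nat_lit 0) .nil) .nil))) 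
(.lf (nat_lit 566091) (.g (nat_lit 1503) (.e (nat_lit 434241) (nat_lit 27) (.e (nat_lit 565267) (nat_lit 4) (.e (nat_lit 65611) (nat_lit 10) (.e (nat_lit 344183) (nat_lit 49) (.e (nat_lit 819219) (nat_lit 4) (.e (nat_lit 172107) (nat_lit 10) .nil)))))) (.g (nat_lit 1) (.e (nat_lit 331419) (nat_lit 0) .nil) .nil))))) (.nd (nat_lit 8) (.nd (nat_lit 9) 
(.lf (nat_lit 565451) (.g (nat_lit 1332) (.e (nat_lit 434245) (nat_lit 28) (.e (nat_lit 573487) (nat_lit 14) (.e (nat_lit 73753) (nat_lit 8) (.e (nat_lit 557089) (nat_lit 12) .nil)))) (.g (nat_lit 0) (.e (nat_lit 329591) (nat_lit 0) .nil) .nil))) 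
(.lf (nat_lit 565963) (.g (nat_lit 4988) (.e (nat_lit 434248) (nat_lit 28) (.e (nat_lit 573475) (nat_lit 12) (.e (nat_lit 57347) (nat_lit 0) (.e (nat_lit 7265) (nat_lit 384) (.e (nat_lit 57412) (nat_lit 12) (.e (nat_lit 336001) (nat_lit 2) (.e (nat_lit 90170) (nat_lit 13) (.e (nat_lit 172113) (nat_lit 10) .nil)))))))) (.g (nat_lit 1) (.e (nat_lit 330743) (nat_lit 0) .nil) .nil)))) 
(.nd (nat_lit 9) 
(.lf (nat_lit 565707) (.g (nat_lit 3197) (.e (nat_lit 434247) (nat_lit 28) (.e (nat_lit 573477) (nat_lit 12) (.e (nat_lit 57574) (nat_lit 55) (.e (nat_lit 778466) (nat_lit 11) (.e (nat_lit 24604) (nat_lit 2) (.e (nat_lit 90168) (nat_lit 13) (.e (nat_lit 172111) (nat_lit 10) .nil))))))) (.g (nat_lit 1) (.e (nat_lit 330184) (nat_lit 0) .nil) .nil))) 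
(.lf (nat_lit 566219) (.g (nat_lit 3499) (.e (nat_lit 434275) (nat_lit 39) (.e (nat_lit 663589) (nat_lit 14) (.e (nat_lit 2808) (nat_lit 180) (.e (nat_lit 303146) (nat_lit 14) (.e (nat_lit 491570) (nat_lit 13) (.e (nat_lit 393283) (nat_lit 24) .nil)))))) (.g (nat_lit 1) (.e (nat_lit 331726) (nat_lit 0) .nil) .nil))))))) (.nd (nat_lit 6) (.nd (nat_lit 7) (.nd (nat_lit 8) (.nd (nat_lit 9) 
(.lf (nat_lit 565291) (.g (nat_lit 503) (.e (nat_lit 434244) (nat_lit 28) (.e (nat_lit 573481) (nat_lit 13) (.e (nat_lit 65549) (nat_lit 0) .nil))) (.g (nat_lit 0) (.e (nat_lit 329141) (nat_lit 0) .nil) .nil))) 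
(.lf (nat_lit 565803) (.g (nat_lit 2681) (.e (nat_lit 434247) (nat_lit 28) (.e (nat_lit 573489) (nat_lit 14) (.e (nat_lit 73755) (nat_lit 8) (.e (nat_lit 557064) (nat_lit 9) .nil)))) (.g (nat_lit 0) (.e (nat_lit 330414) (nat_lit 0) .nil) .nil)))) (.nd (nat_lit 9) 
(.lf (nat_lit 565547) (.g (nat_lit 3023) (.e (nat_lit 434246) (nat_lit 28) (.e (nat_lit 573469) (nat_lit 11) (.e (nat_lit 16448) (nat_lit 10) (.e (nat_lit 434231) (nat_lit 23) (.e (nat_lit 532569) (nat_lit 16) .nil))))) (.g (nat_lit 0) (.e (nat_lit 329820) (nat_lit 0) .nil) .nil))) 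
(.lf (nat_lit 566059) (.g (nat_lit 4419) (.e (nat_lit 434248) (nat_lit 28) (.e (nat_lit 573489) (nat_lit 14) (.e (nat_lit 73755) (nat_lit 8) (.e (nat_lit 557090) (nat_lit 12) (.e (nat_lit 163843) (nat_lit 0) (.e (nat_lit 5940) (nat_lit 322) (.e (nat_lit 57379) (nat_lit 3) (.e (nat_lit 98368) (nat_lit 27) .nil)))))))) (.g (nat_lit 1) (.e (nat_lit 331229) (nat_lit 0) .nil) .nil))))) 
(.nd (nat_lit 8) (.nd (nat_lit 9) 
(.lf (nat_lit 565419) (.g (nat_lit 1048) (.e (nat_lit 434245) (nat_lit 28) (.e (nat_lit 573481) (nat_lit 13) (.e (nat_lit 65569) (nat_lit 3) (.e (nat_lit 98325) (nat_lit 17) .nil)))) (.g (nat_lit 0) (.e (nat_lit 329493) (nat_lit 0) .nil) .nil))) 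
(.lf (nat_lit 565931) (.g (nat_lit 2429) (.e (nat_lit 434248) (nat_lit 28) (.e (nat_lit 573471) (nat_lit 11) (.e (nat_lit 16449) (nat_lit 10) (.e (nat_lit 434231) (nat_lit 23) (.e (nat_lit 532569) (nat_lit 16) .nil))))) (.g (nat_lit 0) (.e (nat_lit 330707) (nat_lit 0) .nil) .nil)))) (.nd (nat_lit 9) 
(.lf (nat_lit 565675) (.g (nat_lit 4399) (.e (nat_lit 434247) (nat_lit 28) (.e (nat_lit 573469) (nat_lit 11) (.e (nat_lit 16461) (nat_lit 12) (.e (nat_lit 475185) (nat_lit 29) (.e (nat_lit 557100) (nat_lit 13) (.e (nat_lit 172113) (nat_lit 10) .nil)))))) (.g (nat_lit 1) (.e (nat_lit 330142) (nat_lit 0) .nil) .nil))) 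
(.lf (nat_lit 566187) (.g (nat_lit 1595) (.e (nat_lit 434269) (nat_lit 36) (.e (nat_lit 639020) (nat_lit 16) (.e (nat_lit 65604) (nat_lit 9) (.e (nat_lit 335997) (nat_lit 1) (.e (nat_lit 57857) (nat_lit 254) .nil))))) (.g (nat_lit 0) (.e (nat_lit 331568) (nat_lit 0) .nil) .nil)))))) (.nd (nat_lit 7) (.nd (nat_lit 8) (.nd (nat_lit 9) 
(.lf (nat_lit 565355) (.g (nat_lit 1136) (.e (nat_lit 434245) (nat_lit 28) (.e (nat_lit 573469) (nat_lit 11) (.e (nat_lit 16472) (nat_lit 14) (.e (nat_lit 499456) (nat_lit 2) .nil)))) (.g (nat_lit 0) (.e (nat_lit 329377) (nat_lit 0) .nil) .nil))) 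
(.lf (nat_lit 565867) (.g (nat_lit 2681) (.e (nat_lit 434247) (nat_lit 28) (.e (nat_lit 573489) (nat_lit 14) (.e (nat_lit 73755) (nat_lit 8) (.e (nat_lit 557110) (nat_lit 16) .nil)))) (.g (nat_lit 0) (.e (nat_lit 330564) (nat_lit 0) .nil) .nil)))) (.nd (nat_lit 9) 
(.lf (nat_lit 565611) (.g (nat_lit 2015) (.e (nat_lit 434246) (nat_lit 28) (.e (nat_lit 573487) (nat_lit 14) (.e (nat_lit 73753) (nat_lit 8) (.e (nat_lit 557090) (nat_lit 12) (.e (nat_lit 164003) (nat_lit 40) .nil))))) (.g (nat_lit 0) (.e (nat_lit 329982) (nat_lit 0) .nil) .nil))) 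
(.lf (nat_lit 566123) (.g (nat_lit 1277) (.e (nat_lit 434266) (nat_lit 35) (.e (nat_lit 630821) (nat_lit 16) (.e (nat_lit 65586) (nat_lit 7) (.e (nat_lit 319527) (nat_lit 15) (.e (nat_lit 278547) (nat_lit 8) (.e (nat_lit 303140) (nat_lit 10) .nil)))))) (.g (nat_lit 1) (.e (nat_lit 331469) (nat_lit 0) .nil) .nil))))) (.nd (nat_lit 8) (.nd (nat_lit 9) 
(.lf (nat_lit 565483) (.g (nat_lit 1456) (.e (nat_lit 434245) (nat_lit 28) (.e (nat_lit 573488) (nat_lit 14) (.e (nat_lit 73747) (nat_lit 3) (.e (nat_lit 516195) (nat_lit 26) .nil)))) (.g (nat_lit 0) (.e (nat_lit 329680) (nat_lit 0) .nil) .nil))) 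
(.lf (nat_lit 565995) (.g (nat_lit 446) (.e (nat_lit 434248) (nat_lit 28) (.e (nat_lit 573487) (nat_lit 14) (.e (nat_lit 73729) (nat_lit 0) .nil))) (.g (nat_lit 0) (.e (nat_lit 330938) (nat_lit 0) .nil) .nil)))) (.nd (nat_lit 9) 
(.lf (nat_lit 565739) (.g (nat_lit 1789) (.e (nat_lit 434247) (nat_lit 28) (.e (nat_lit 573478) (nat_lit 12) (.e (nat_lit 57574) (nat_lit 55) (.e (nat_lit 778466) (nat_lit 11) (.e (nat_lit 24603) (nat_lit 2) (.e (nat_lit 90167) (nat_lit 13) (.e (nat_lit 172105) (nat_lit 10) .nil))))))) (.g (nat_lit 1) (.e (nat_lit 330233) (nat_lit 0) .nil) .nil))) 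
(.lf (nat_lit 566251) (.g (nat_lit 616) (.e (nat_lit 434270) (nat_lit 38) (.e (nat_lit 655380) (nat_lit 6) (.e (nat_lit 188427) (nat_lit 20) (.e (nat_lit 3402) (nat_lit 211) .nil)))) (.g (nat_lit 0) (.e (nat_lit 331841) (nat_lit 0) .nil) .nil)))))))) (.nd (nat_lit 5) (.nd (nat_lit 6) (.nd (nat_lit 7) (.nd (nat_lit 8) (.nd (nat_lit 9) 
(.lf (nat_lit 565275) (.g (nat_lit 3200) (.e (nat_lit 434244) (nat_lit 28) (.e (nat_lit 573471) (nat_lit 11) (.e (nat_lit 16433) (nat_lit 9) (.e (nat_lit 426416) (nat_lit 15) .nil)))) (.g (nat_lit 0) (.e (nat_lit 329097) (nat_lit 0) .nil) .nil))) 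
(.lf (nat_lit 565787) (.g (nat_lit 1753) (.e (nat_lit 434247) (nat_lit 28) (.e (nat_lit 573487) (nat_lit 14) (.e (nat_lit 73753) (nat_lit 8) (.e (nat_lit 557057) (nat_lit 0) (.e (nat_lit 1637) (nat_lit 114) .nil))))) (.g (nat_lit 0) (.e (nat_lit 330368) (nat_lit 0) .nil) .nil)))) (.nd (nat_lit 9) 
(.lf (nat_lit 565531) (.g (nat_lit 2497) (.e (nat_lit 434245) (nat_lit 28) (.e (nat_lit 573488) (nat_lit 14) (.e (nat_lit 73755) (nat_lit 8) (.e (nat_lit 557091) (nat_lit 12) (.e (nat_lit 164005) (nat_lit 41) .nil))))) (.g (nat_lit 0) (.e (nat_lit 329771) (nat_lit 0) .nil) .nil))) 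
(.lf (nat_lit 566043) (.g (nat_lit 3451) (.e (nat_lit 434248) (nat_lit 28) (.e (nat_lit 573489) (nat_lit 14) (.e (nat_lit 73755) (nat_lit 8) (.e (nat_lit 557067) (nat_lit 9) (.e (nat_lit 2604) (nat_lit 163) (.e (nat_lit 164401) (nat_lit 256) (.e (nat_lit 57378) (nat_lit 3) (.e (nat_lit 98368) (nat_lit 27) .nil)))))))) (.g (nat_lit 1) (.e (nat_lit 331186) (nat_lit 0) .nil) .nil))))) 
(.nd (nat_lit 8) (.nd (nat_lit 9) 
(.lf (nat_lit 565403) (.g (nat_lit 2960) (.e (nat_lit 434245) (nat_lit 28) (.e (nat_lit 573475) (nat_lit 12) (.e (nat_lit 57572) (nat_lit 54) (.e (nat_lit 770072) (nat_lit 8) (.e (nat_lit 65567) (nat_lit 2) .nil))))) (.g (nat_lit 0) (.e (nat_lit 329450) (nat_lit 0) .nil) .nil))) 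
(.lf (nat_lit 565915) (.g (nat_lit 2849) (.e (nat_lit 434248) (nat_lit 28) (.e (nat_lit 573471) (nat_lit 11) (.e (nat_lit 16433) (nat_lit 9) (.e (nat_lit 426362) (nat_lit 15) .nil)))) (.g (nat_lit 0) (.e (nat_lit 330656) (nat_lit 0) .nil) .nil)))) (.nd (nat_lit 9) 
(.lf (nat_lit 565659) (.g (nat_lit 1950) (.e (nat_lit 434247) (nat_lit 28) (.e (nat_lit 573450) (nat_lit 9) (.e (nat_lit 459) (nat_lit 34) (.e (nat_lit 442379) (nat_lit 0) (.e (nat_lit 1856) (nat_lit 124) .nil))))) (.g (nat_lit 0) (.e (nat_lit 330123) (nat_lit 0) .nil) .nil))) 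
(.lf (nat_lit 566171) (.g (nat_lit 2840) (.e (nat_lit 434268) (nat_lit 36) (.e (nat_lit 639020) (nat_lit 16) (.e (nat_lit 65617) (nat_lit 10) (.e (nat_lit 344156) (nat_lit 36) (.e (nat_lit 638998) (nat_lit 8) (.e (nat_lit 172116) (nat_lit 10) .nil)))))) (.g (nat_lit 1) (.e (nat_lit 331529) (nat_lit 0) .nil) .nil)))))) (.nd (nat_lit 7) (.nd (nat_lit 8) (.nd (nat_lit 9) 
(.lf (nat_lit 565339) (.g (nat_lit 4467) (.e (nat_lit 434244) (nat_lit 28) (.e (nat_lit 573488) (nat_lit 14) (.e (nat_lit 73755) (nat_lit 8) (.e (nat_lit 557119) (nat_lit 18) (.e (nat_lit 2798) (nat_lit 180) (.e (nat_lit 303147) (nat_lit 15) (.e (nat_lit 1788) (nat_lit 119) (.e (nat_lit 516159) (nat_lit 10) .nil)))))))) (.g (nat_lit 1) (.e (nat_lit 329330) (nat_lit 0) .nil) .nil))) 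
(.lf (nat_lit 565851) (.g (nat_lit 1908) (.e (nat_lit 434247) (nat_lit 28) (.e (nat_lit 573489) (nat_lit 14) (.e (nat_lit 73755) (nat_lit 8) (.e (nat_lit 557091) (nat_lit 12) (.e (nat_lit 163840) (nat_lit 0) .nil))))) (.g (nat_lit 0) (.e (nat_lit 330528) (nat_lit 0) .nil) .nil)))) (.nd (nat_lit 9) 
(.lf (nat_lit 565595) (.g (nat_lit 539) (.e (nat_lit 434246) (nat_lit 28) (.e (nat_lit 573487) (nat_lit 14) (.e (nat_lit 73729) (nat_lit 0) .nil))) (.g (nat_lit 0) (.e (nat_lit 329915) (nat_lit 0) .nil) .nil))) 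
(.lf (nat_lit 566107) (.g (nat_lit 963) (.e (nat_lit 434241) (nat_lit 27) (.e (nat_lit 565269) (nat_lit 6) (.e (nat_lit 81943) (nat_lit 20) (.e (nat_lit 2389) (nat_lit 156) .nil)))) (.g (nat_lit 0) (.e (nat_lit 331440) (nat_lit 0) .nil) .nil))))) (.nd (nat_lit 8) (.nd (nat_lit 9) 
(.lf (nat_lit 565467) (.g (nat_lit 2445) (.e (nat_lit 434245) (nat_lit 28) (.e (nat_lit 573487) (nat_lit 14) (.e (nat_lit 73753) (nat_lit 8) (.e (nat_lit 557091) (nat_lit 12) (.e (nat_lit 163850) (nat_lit 0) .nil))))) (.g (nat_lit 0) (.e (nat_lit 329624) (nat_lit 0) .nil) .nil))) 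
(.lf (nat_lit 565979) (.g (nat_lit 3039) (.e (nat_lit 434248) (nat_lit 28) (.e (nat_lit 573482) (nat_lit 13) (.e (nat_lit 65568) (nat_lit 2) (.e (nat_lit 90160) (nat_lit 11) (.e (nat_lit 24673) (nat_lit 15) .nil))))) (.g (nat_lit 0) (.e (nat_lit 330821) (nat_lit 0) .nil) .nil)))) (.nd (nat_lit 9) 
(.lf (nat_lit 565723) (.g (nat_lit 1769) (.e (nat_lit 434247) (nat_lit 28) (.e (nat_lit 573477) (nat_lit 12) (.e (nat_lit 57750) (nat_lit 201) (.e (nat_lit 3090) (nat_lit 191) (.e (nat_lit 483363) (nat_lit 18) .nil))))) (.g (nat_lit 0) (.e (nat_lit 330200) (nat_lit 0) .nil) .nil))) 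
(.lf (nat_lit 566235) (.g (nat_lit 1333) (.e (nat_lit 434279) (nat_lit 39) (.e (nat_lit 663584) (nat_lit 12) (.e (nat_lit 163976) (nat_lit 30) (.e (nat_lit 573470) (nat_lit 11) (.e (nat_lit 16465) (nat_lit 13) (.e (nat_lit 491264) (nat_lit 10) .nil)))))) (.g (nat_lit 1) (.e (nat_lit 331802) (nat_lit 0) .nil) .nil))))))) (.nd (nat_lit 6) (.nd (nat_lit 7) (.nd (nat_lit 8) (.nd (nat_lit 9) 
(.lf (nat_lit 565307) (.g (nat_lit 2662) (.e (nat_lit 434244) (nat_lit 28) (.e (nat_lit 573487) (nat_lit 14) (.e (nat_lit 73746) (nat_lit 3) (.e (nat_lit 516119) (nat_lit 1) (.e (nat_lit 164196) (nat_lit 158) .nil))))) (.g (nat_lit 0) (.e (nat_lit 329220) (nat_lit 0) .nil) .nil))) 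
(.lf (nat_lit 565819) (.g (nat_lit 2652) (.e (nat_lit 434247) (nat_lit 28) (.e (nat_lit 573489) (nat_lit 14) (.e (nat_lit 73755) (nat_lit 8) (.e (nat_lit 557079) (nat_lit 9) .nil)))) (.g (nat_lit 0) (.e (nat_lit 330456) (nat_lit 0) .nil) .nil)))) (.nd (nat_lit 9) 
(.lf (nat_lit 565563) (.g (nat_lit 2105) (.e (nat_lit 434246) (nat_lit 28) (.e (nat_lit 573474) (nat_lit 12) (.e (nat_lit 57572) (nat_lit 54) (.e (nat_lit 770071) (nat_lit 8) .nil)))) (.g (nat_lit 0) (.e (nat_lit 329841) (nat_lit 0) .nil) .nil))) 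
(.lf (nat_lit 566075) (.g (nat_lit 2625) (.e (nat_lit 434248) (nat_lit 28) (.e (nat_lit 573489) (nat_lit 14) (.e (nat_lit 73755) (nat_lit 8) (.e (nat_lit 557094) (nat_lit 12) .nil)))) (.g (nat_lit 0) (.e (nat_lit 331350) (nat_lit 0) .nil) .nil))))) (.nd (nat_lit 8) (.nd (nat_lit 9) 
(.lf (nat_lit 565435) (.g (nat_lit 943) (.e (nat_lit 434245) (nat_lit 28) (.e (nat_lit 573487) (nat_lit 14) (.e (nat_lit 73744) (nat_lit 2) (.e (nat_lit 507939) (nat_lit 12) .nil)))) (.g (nat_lit 0) (.e (nat_lit 329560) (nat_lit 0) .nil) .nil))) 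
(.lf (nat_lit 565947) (.g (nat_lit 4791) (.e (nat_lit 434248) (nat_lit 28) (.e (nat_lit 573471) (nat_lit 11) (.e (nat_lit 16470) (nat_lit 14) (.e (nat_lit 491537) (nat_lit 2) (.e (nat_lit 90170) (nat_lit 13) (.e (nat_lit 172110) (nat_lit 10) .nil)))))) (.g (nat_lit 1) (.e (nat_lit 330726) (nat_lit 0) .nil) .nil)))) (.nd (nat_lit 9) 
(.lf (nat_lit 565691) (.g (nat_lit 4039) (.e (nat_lit 434247) (nat_lit 28) (.e (nat_lit 573471) (nat_lit 11) (.e (nat_lit 16470) (nat_lit 14) (.e (nat_lit 491526) (nat_lit 0) .nil)))) (.g (nat_lit 0) (.e (nat_lit 330165) (nat_lit 0) .nil) .nil))) 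
(.lf (nat_lit 566203) (.g (nat_lit 1395) (.e (nat_lit 434273) (nat_lit 39) (.e (nat_lit 663567) (nat_lit 4) (.e (nat_lit 65651) (nat_lit 27) (.e (nat_lit 426200) (nat_lit 9) (.e (nat_lit 426131) (nat_lit 3) .nil))))) (.g (nat_lit 0) (.e (nat_lit 331599) (nat_lit 0) .nil) .nil)))))) (.nd (nat_lit 7) (.nd (nat_lit 8) (.nd (nat_lit 9) 
(.lf (nat_lit 565371) (.g (nat_lit 1419) (.e (nat_lit 434245) (nat_lit 28) (.e (nat_lit 573471) (nat_lit 11) (.e (nat_lit 16425) (nat_lit 7) (.e (nat_lit 417536) (nat_lit 10) .nil)))) (.g (nat_lit 0) (.e (nat_lit 329401) (nat_lit 0) .nil) .nil))) 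
(.lf (nat_lit 565883) (.g (nat_lit 842) (.e (nat_lit 434248) (nat_lit 28) (.e (nat_lit 573451) (nat_lit 9) (.e (nat_lit 498) (nat_lit 40) .nil))) (.g (nat_lit 0) (.e (nat_lit 330601) (nat_lit 0) .nil) .nil)))) (.nd (nat_lit 9) 
(.lf (nat_lit 565627) (.g (nat_lit 2512) (.e (nat_lit 434246) (nat_lit 28) (.e (nat_lit 573489) (nat_lit 14) (.e (nat_lit 73755) (nat_lit 8) (.e (nat_lit 557089) (nat_lit 12) (.e (nat_lit 164005) (nat_lit 41) .nil))))) (.g (nat_lit 0) (.e (nat_lit 330051) (nat_lit 0) .nil) .nil))) 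
(.lf (nat_lit 566139) (.g (nat_lit 1781) (.e (nat_lit 434268) (nat_lit 36) (.e (nat_lit 639020) (nat_lit 16) (.e (nat_lit 65537) (nat_lit 0) (.e (nat_lit 6218) (nat_lit 333) (.e (nat_lit 57819) (nat_lit 248) (.e (nat_lit 164359) (nat_lit 246) (.e (nat_lit 2973) (nat_lit 185) .nil))))))) (.g (nat_lit 1) (.e (nat_lit 331485) (nat_lit 0) .nil) .nil))))) (.nd (nat_lit 8) (.nd (nat_lit 9) 
(.lf (nat_lit 565499) (.g (nat_lit 2325) (.e (nat_lit 434245) (nat_lit 28) (.e (nat_lit 573488) (nat_lit 14) (.e (nat_lit 73755) (nat_lit 8) (.e (nat_lit 557089) (nat_lit 12) (.e (nat_lit 164010) (nat_lit 41) .nil))))) (.g (nat_lit 0) (.e (nat_lit 329709) (nat_lit 0) .nil) .nil))) 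
(.lf (nat_lit 566011) (.g (nat_lit 2014) (.e (nat_lit 434248) (nat_lit 28) (.e (nat_lit 573487) (nat_lit 14) (.e (nat_lit 73753) (nat_lit 8) (.e (nat_lit 557089) (nat_lit 12) (.e (nat_lit 164007) (nat_lit 41) .nil))))) (.g (nat_lit 0) (.e (nat_lit 331027) (nat_lit 0) .nil) .nil)))) (.nd (nat_lit 9) 
(.lf (nat_lit 565755) (.g (nat_lit 1404) (.e (nat_lit 434247) (nat_lit 28) (.e (nat_lit 573484) (nat_lit 13) (.e (nat_lit 65569) (nat_lit 3) (.e (nat_lit 98325) (nat_lit 17) .nil)))) (.g (nat_lit 0) (.e (nat_lit 330278) (nat_lit 0) .nil) .nil))) 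
(.lf (nat_lit 566267) (.g (nat_lit 1874) (.e (nat_lit 434271) (nat_lit 38) (.e (nat_lit 655375) (nat_lit 3) (.e (nat_lit 163978) (nat_lit 30) (.e (nat_lit 573482) (nat_lit 13) .nil)))) (.g (nat_lit 0) (.e (nat_lit 331861) (nat_lit 0) .nil) .nil)))))))))) (.nd (nat_lit 3) (.nd (nat_lit 4) (.nd (nat_lit 5) (.nd (nat_lit 6) (.nd (nat_lit 7) (.nd (nat_lit 8) (.nd (nat_lit 9) 
(.lf (nat_lit 565255) (.g (nat_lit 4803) (.e (nat_lit 434244) (nat_lit 28) (.e (nat_lit 573458) (nat_lit 9) (.e (nat_lit 426) (nat_lit 32) (.e (nat_lit 426341) (nat_lit 14) (.e (nat_lit 491537) (nat_lit 2) (.e (nat_lit 90170) (nat_lit 13) (.e (nat_lit 172106) (nat_lit 10) .nil))))))) (.g (nat_lit 1) (.e (nat_lit 329038) (nat_lit 0) .nil) .nil))) 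
(.lf (nat_lit 565767) (.g (nat_lit 2116) (.e (nat_lit 434247) (nat_lit 28) (.e (nat_lit 573485) (nat_lit 13) (.e (nat_lit 65567) (nat_lit 2) (.e (nat_lit 90160) (nat_lit 11) (.e (nat_lit 24673) (nat_lit 15) (.e (nat_lit 7936) (nat_lit 195) (.e (nat_lit 516160) (nat_lit 10) .nil))))))) (.g (nat_lit 1) (.e (nat_lit 330313) (nat_lit 0) .nil) .nil)))) (.nd (nat_lit 9) 
(.lf (nat_lit 565511) (.g (nat_lit 2561) (.e (nat_lit 434245) (nat_lit 28) (.e (nat_lit 573488) (nat_lit 14) (.e (nat_lit 73755) (nat_lit 8) (.e (nat_lit 557090) (nat_lit 12) (.e (nat_lit 163845) (nat_lit 0) (.e (nat_lit 5940) (nat_lit 322) (.e (nat_lit 57379) (nat_lit 3) (.e (nat_lit 98366) (nat_lit 27) .nil)))))))) (.g (nat_lit 1) (.e (nat_lit 329723) (nat_lit 0) .nil) .nil))) 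
(.lf (nat_lit 566023) (.g (nat_lit 611) (.e (nat_lit 434248) (nat_lit 28) (.e (nat_lit 573489) (nat_lit 14) (.e (nat_lit 73730) (nat_lit 0) .nil))) (.g (nat_lit 0) (.e (nat_lit 331098) (nat_lit 0) .nil) .nil))))) (.nd (nat_lit 8) (.nd (nat_lit 9) 
(.lf (nat_lit 565383) (.g (nat_lit 2369) (.e (nat_lit 434245) (nat_lit 28) (.e (nat_lit 573471) (nat_lit 11) (.e (nat_lit 16436) (nat_lit 9) (.e (nat_lit 426374) (nat_lit 15) (.e (nat_lit 1856) (nat_lit 124) .nil))))) (.g (nat_lit 0) (.e (nat_lit 329416) (nat_lit 0) .nil) .nil))) 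
(.lf (nat_lit 565895) (.g (nat_lit 1980) (.e (nat_lit 434248) (nat_lit 28) (.e (nat_lit 573470) (nat_lit 11) (.e (nat_lit 16470) (nat_lit 14) (.e (nat_lit 491538) (nat_lit 3) (.e (nat_lit 98359) (nat_lit 26) .nil))))) (.g (nat_lit 0) (.e (nat_lit 330627) (nat_lit 0) .nil) .nil)))) (.nd (nat_lit 9) 
(.lf (nat_lit 565639) (.g (nat_lit 2645) (.e (nat_lit 434246) (nat_lit 28) (.e (nat_lit 573489) (nat_lit 14) (.e (nat_lit 73755) (nat_lit 8) (.e (nat_lit 557090) (nat_lit 12) (.e (nat_lit 164005) (nat_lit 41) .nil))))) (.g (nat_lit 0) (.e (nat_lit 330079) (nat_lit 0) .nil) .nil))) 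
(.lf (nat_lit 566151) (.g (nat_lit 2597) (.e (nat_lit 434268) (nat_lit 36) (.e (nat_lit 639020) (nat_lit 16) (.e (nat_lit 65583) (nat_lit 7) (.e (nat_lit 319530) (nat_lit 16) (.e (nat_lit 286727) (nat_lit 0) (.e (nat_lit 6680) (nat_lit 357) (.e (nat_lit 2959) (nat_lit 185) .nil))))))) (.g (nat_lit 1) (.e (nat_lit 331501) (nat_lit 0) .nil) .nil)))))) 
(.nd (nat_lit 7) (.nd (nat_lit 8) (.nd (nat_lit 9) 
(.lf (nat_lit 565319) (.g (nat_lit 377) (.e (nat_lit 434244) (nat_lit 28) (.e (nat_lit 573488) (nat_lit 14) (.e (nat_lit 81664) (nat_lit 5) .nil))) (.g (nat_lit 0) (.e (nat_lit 329284) (nat_lit 0) .nil) .nil))) 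
(.lf (nat_lit 565831) (.g (nat_lit 2118) (.e (nat_lit 434247) (nat_lit 28) (.e (nat_lit 573489) (nat_lit 14) (.e (nat_lit 73755) (nat_lit 8) (.e (nat_lit 557090) (nat_lit 12) .nil)))) (.g (nat_lit 0) (.e (nat_lit 330484) (nat_lit 0) .nil) .nil)))) (.nd (nat_lit 9) 
(.lf (nat_lit 565575) (.g (nat_lit 2165) (.e (nat_lit 434246) (nat_lit 28) (.e (nat_lit 573482) (nat_lit 13) (.e (nat_lit 65568) (nat_lit 2) (.e (nat_lit 90133) (nat_lit 9) (.e (nat_lit 341) (nat_lit 27) .nil))))) (.g (nat_lit 0) (.e (nat_lit 329862) (nat_lit 0) .nil) .nil))) 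
(.lf (nat_lit 566087) (.g (nat_lit 4725) (.e (nat_lit 442112) (nat_lit 28) (.e (nat_lit 573471) (nat_lit 11) (.e (nat_lit 16470) (nat_lit 14) (.e (nat_lit 491537) (nat_lit 2) .nil)))) (.g (nat_lit 0) (.e (nat_lit 331409) (nat_lit 0) .nil) .nil))))) (.nd (nat_lit 8) (.nd (nat_lit 9) 
(.lf (nat_lit 565447) (.g (nat_lit 2255) (.e (nat_lit 434245) (nat_lit 28) (.e (nat_lit 573487) (nat_lit 14) (.e (nat_lit 73747) (nat_lit 3) (.e (nat_lit 516119) (nat_lit 1) (.e (nat_lit 171776) (nat_lit 160) .nil))))) (.g (nat_lit 0) (.e (nat_lit 329575) (nat_lit 0) .nil) .nil))) 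
(.lf (nat_lit 565959) (.g (nat_lit 4422) (.e (nat_lit 434248) (nat_lit 28) (.e (nat_lit 573473) (nat_lit 12) (.e (nat_lit 57572) (nat_lit 54) (.e (nat_lit 770071) (nat_lit 8) (.e (nat_lit 65571) (nat_lit 3) (.e (nat_lit 98359) (nat_lit 26) (.e (nat_lit 426286) (nat_lit 10) .nil))))))) (.g (nat_lit 1) (.e (nat_lit 330738) (nat_lit 0) .nil) .nil)))) (.nd (nat_lit 9) 
(.lf (nat_lit 565703) (.g (nat_lit 2150) (.e (nat_lit 434247) (nat_lit 28) (.e (nat_lit 573477) (nat_lit 12) (.e (nat_lit 57574) (nat_lit 55) (.e (nat_lit 778465) (nat_lit 11) (.e (nat_lit 24603) (nat_lit 2) (.e (nat_lit 90166) (nat_lit 13) (.e (nat_lit 172111) (nat_lit 10) .nil))))))) (.g (nat_lit 1) (.e (nat_lit 330179) (nat_lit 0) .nil) .nil))) 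
(.lf (nat_lit 566215) (.g (nat_lit 460) (.e (nat_lit 434275) (nat_lit 39) (.e (nat_lit 663589) (nat_lit 14) (.e (nat_lit 2515) (nat_lit 157) .nil))) (.g (nat_lit 0) (.e (nat_lit 331698) (nat_lit 0) .nil) .nil))))))) (.nd (nat_lit 6) (.nd (nat_lit 7) (.nd (nat_lit 8) (.nd (nat_lit 9) 
(.lf (nat_lit 565287) (.g (nat_lit 2095) (.e (nat_lit 434244) (nat_lit 28) (.e (nat_lit 573474) (nat_lit 12) (.e (nat_lit 57354) (nat_lit 0) (.e (nat_lit 7271) (nat_lit 385) (.e (nat_lit 122906) (nat_lit 12) .nil))))) (.g (nat_lit 0) (.e (nat_lit 329127) (nat_lit 0) .nil) .nil))) 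
(.lf (nat_lit 565799) (.g (nat_lit 1676) (.e (nat_lit 434247) (nat_lit 28) (.e (nat_lit 573489) (nat_lit 14) (.e (nat_lit 73754) (nat_lit 8) (.e (nat_lit 557089) (nat_lit 12) .nil)))) (.g (nat_lit 0) (.e (nat_lit 330404) (nat_lit 0) .nil) .nil)))) (.nd (nat_lit 9) 
(.lf (nat_lit 565543) (.g (nat_lit 921) (.e (nat_lit 434245) (nat_lit 28) (.e (nat_lit 573503) (nat_lit 18) (.e (nat_lit 1349) (nat_lit 102) (.e (nat_lit 286748) (nat_lit 9) .nil)))) (.g (nat_lit 0) (.e (nat_lit 329808) (nat_lit 0) .nil) .nil))) 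
(.lf (nat_lit 566055) (.g (nat_lit 3400) (.e (nat_lit 434248) (nat_lit 28) (.e (nat_lit 573489) (nat_lit 14) (.e (nat_lit 73755) (nat_lit 8) (.e (nat_lit 557090) (nat_lit 12) (.e (nat_lit 163840) (nat_lit 0) (.e (nat_lit 5939) (nat_lit 322) (.e (nat_lit 57379) (nat_lit 3) (.e (nat_lit 98368) (nat_lit 27) .nil)))))))) (.g (nat_lit 1) (.e (nat_lit 331225) (nat_lit 0) .nil) .nil))))) 
(.nd (nat_lit 8) (.nd (nat_lit 9) 
(.lf (nat_lit 565415) (.g (nat_lit 2278) (.e (nat_lit 434245) (nat_lit 28) (.e (nat_lit 573481) (nat_lit 13) (.e (nat_lit 65569) (nat_lit 3) (.e (nat_lit 98313) (nat_lit 9) (.e (nat_lit 336288) (nat_lit 15) (.e (nat_lit 7936) (nat_lit 195) (.e (nat_lit 516160) (nat_lit 10) .nil))))))) (.g (nat_lit 1) (.e (nat_lit 329488) (nat_lit 0) .nil) .nil))) 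
(.lf (nat_lit 565927) (.g (nat_lit 2600) (.e (nat_lit 434248) (nat_lit 28) (.e (nat_lit 573471) (nat_lit 11) (.e (nat_lit 16440) (nat_lit 9) (.e (nat_lit 426140) (nat_lit 3) (.e (nat_lit 204885) (nat_lit 33) .nil))))) (.g (nat_lit 0) (.e (nat_lit 330692) (nat_lit 0) .nil) .nil)))) (.nd (nat_lit 9) 
(.lf (nat_lit 565671) (.g (nat_lit 4439) (.e (nat_lit 434247) (nat_lit 28) (.e (nat_lit 573469) (nat_lit 11) (.e (nat_lit 16388) (nat_lit 0) (.e (nat_lit 7581) (nat_lit 405) (.e (nat_lit 57464) (nat_lit 23) (.e (nat_lit 516151) (nat_lit 9) (.e (nat_lit 426286) (nat_lit 10) .nil))))))) (.g (nat_lit 1) (.e (nat_lit 330137) (nat_lit 0) .nil) .nil))) 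
(.lf (nat_lit 566183) (.g (nat_lit 451) (.e (nat_lit 434269) (nat_lit 36) (.e (nat_lit 639020) (nat_lit 16) (.e (nat_lit 65583) (nat_lit 7) .nil))) (.g (nat_lit 0) (.e (nat_lit 331564) (nat_lit 0) .nil) .nil)))))) (.nd (nat_lit 7) (.nd (nat_lit 8) (.nd (nat_lit 9) 
(.lf (nat_lit 565351) (.g (nat_lit 2781) (.e (nat_lit 434245) (nat_lit 28) (.e (nat_lit 573451) (nat_lit 9) (.e (nat_lit 1400) (nat_lit 106) (.e (nat_lit 319534) (nat_lit 16) (.e (nat_lit 286767) (nat_lit 27) .nil))))) (.g (nat_lit 0) (.e (nat_lit 329373) (nat_lit 0) .nil) .nil))) 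
(.lf (nat_lit 565863) (.g (nat_lit 2028) (.e (nat_lit 434247) (nat_lit 28) (.e (nat_lit 573489) (nat_lit 14) (.e (nat_lit 73755) (nat_lit 8) (.e (nat_lit 557091) (nat_lit 12) (.e (nat_lit 164002) (nat_lit 40) .nil))))) (.g (nat_lit 0) (.e (nat_lit 330559) (nat_lit 0) .nil) .nil)))) (.nd (nat_lit 9) 
(.lf (nat_lit 565607) (.g (nat_lit 2232) (.e (nat_lit 434246) (nat_lit 28) (.e (nat_lit 573487) (nat_lit 14) (.e (nat_lit 73753) (nat_lit 8) (.e (nat_lit 557089) (nat_lit 12) (.e (nat_lit 164007) (nat_lit 41) .nil))))) (.g (nat_lit 0) (.e (nat_lit 329972) (nat_lit 0) .nil) .nil))) 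
(.lf (nat_lit 566119) (.g (nat_lit 720) (.e (nat_lit 434266) (nat_lit 35) (.e (nat_lit 630821) (nat_lit 16) (.e (nat_lit 65585) (nat_lit 7) (.e (nat_lit 319527) (nat_lit 15) (.e (nat_lit 278547) (nat_lit 8) (.e (nat_lit 303137) (nat_lit 10) .nil)))))) (.g (nat_lit 1) (.e (nat_lit 331465) (nat_lit 0) .nil) .nil))))) (.nd (nat_lit 8) (.nd (nat_lit 9) 
(.lf (nat_lit 565479) (.g (nat_lit 2558) (.e (nat_lit 434245) (nat_lit 28) (.e (nat_lit 573488) (nat_lit 14) (.e (nat_lit 73747) (nat_lit 3) (.e (nat_lit 516115) (nat_lit 1) (.e (nat_lit 171776) (nat_lit 160) .nil))))) (.g (nat_lit 0) (.e (nat_lit 329676) (nat_lit 0) .nil) .nil))) 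
(.lf (nat_lit 565991) (.g (nat_lit 1731) (.e (nat_lit 434248) (nat_lit 28) (.e (nat_lit 573482) (nat_lit 13) (.e (nat_lit 65571) (nat_lit 3) (.e (nat_lit 98333) (nat_lit 18) .nil)))) (.g (nat_lit 0) (.e (nat_lit 330895) (nat_lit 0) .nil) .nil)))) (.nd (nat_lit 9) 
(.lf (nat_lit 565735) (.g (nat_lit 1289) (.e (nat_lit 434247) (nat_lit 28) (.e (nat_lit 573478) (nat_lit 12) (.e (nat_lit 57574) (nat_lit 55) (.e (nat_lit 778465) (nat_lit 11) (.e (nat_lit 24603) (nat_lit 2) .nil))))) (.g (nat_lit 0) (.e (nat_lit 330228) (nat_lit 0) .nil) .nil))) 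
(.lf (nat_lit 566247) (.g (nat_lit 1128) (.e (nat_lit 434270) (nat_lit 38) (.e (nat_lit 655378) (nat_lit 4) (.e (nat_lit 172124) (nat_lit 14) (.e (nat_lit 491570) (nat_lit 13) .nil)))) (.g (nat_lit 0) (.e (nat_lit 331834) (nat_lit 0) .nil) .nil)))))))) (.nd (nat_lit 5) (.nd (nat_lit 6) (.nd (nat_lit 7) (.nd (nat_lit 8) (.nd (nat_lit 9) 
(.lf (nat_lit 565271) (.g (nat_lit 2608) (.e (nat_lit 434244) (nat_lit 28) (.e (nat_lit 573471) (nat_lit 11) (.e (nat_lit 16433) (nat_lit 9) (.e (nat_lit 426364) (nat_lit 15) (.e (nat_lit 1855) (nat_lit 124) .nil))))) (.g (nat_lit 0) (.e (nat_lit 329093) (nat_lit 0) .nil) .nil))) 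
(.lf (nat_lit 565783) (.g (nat_lit 1769) (.e (nat_lit 434247) (nat_lit 28) (.e (nat_lit 573487) (nat_lit 14) (.e (nat_lit 73747) (nat_lit 3) (.e (nat_lit 516119) (nat_lit 1) .nil)))) (.g (nat_lit 0) (.e (nat_lit 330362) (nat_lit 0) .nil) .nil)))) (.nd (nat_lit 9) 
(.lf (nat_lit 565527) (.g (nat_lit 2202) (.e (nat_lit 434245) (nat_lit 28) (.e (nat_lit 573488) (nat_lit 14) (.e (nat_lit 73755) (nat_lit 8) (.e (nat_lit 557091) (nat_lit 12) (.e (nat_lit 163841) (nat_lit 0) .nil))))) (.g (nat_lit 0) (.e (nat_lit 329767) (nat_lit 0) .nil) .nil))) 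
(.lf (nat_lit 566039) (.g (nat_lit 4013) (.e (nat_lit 434248) (nat_lit 28) (.e (nat_lit 573489) (nat_lit 14) (.e (nat_lit 73755) (nat_lit 8) (.e (nat_lit 557067) (nat_lit 9) (.e (nat_lit 2602) (nat_lit 163) (.e (nat_lit 164403) (nat_lit 256) (.e (nat_lit 57378) (nat_lit 3) (.e (nat_lit 98368) (nat_lit 27) .nil)))))))) (.g (nat_lit 1) (.e (nat_lit 331177) (nat_lit 0) .nil) .nil))))) 
(.nd (nat_lit 8) (.nd (nat_lit 9) 
(.lf (nat_lit 565399) (.g (nat_lit 1638) (.e (nat_lit 434245) (nat_lit 28) (.e (nat_lit 573472) (nat_lit 12) (.e (nat_lit 57572) (nat_lit 54) (.e (nat_lit 770072) (nat_lit 8) (.e (nat_lit 65566) (nat_lit 2) .nil))))) (.g (nat_lit 0) (.e (nat_lit 329438) (nat_lit 0) .nil) .nil))) 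
(.lf (nat_lit 565911) (.g (nat_lit 2860) (.e (nat_lit 434248) (nat_lit 28) (.e (nat_lit 573471) (nat_lit 11) (.e (nat_lit 16433) (nat_lit 9) (.e (nat_lit 426130) (nat_lit 3) .nil)))) (.g (nat_lit 0) (.e (nat_lit 330651) (nat_lit 0) .nil) .nil)))) (.nd (nat_lit 9) 
(.lf (nat_lit 565655) (.g (nat_lit 2849) (.e (nat_lit 434246) (nat_lit 28) (.e (nat_lit 573489) (nat_lit 14) (.e (nat_lit 73755) (nat_lit 8) (.e (nat_lit 557119) (nat_lit 18) (.e (nat_lit 2796) (nat_lit 180) (.e (nat_lit 311040) (nat_lit 18) (.e (nat_lit 98367) (nat_lit 27) .nil))))))) (.g (nat_lit 1) (.e (nat_lit 330110) (nat_lit 0) .nil) .nil))) 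
(.lf (nat_lit 566167) (.g (nat_lit 2759) (.e (nat_lit 434268) (nat_lit 36) (.e (nat_lit 639020) (nat_lit 16) (.e (nat_lit 65616) (nat_lit 10) (.e (nat_lit 344156) (nat_lit 36) (.e (nat_lit 638998) (nat_lit 8) (.e (nat_lit 172107) (nat_lit 10) .nil)))))) (.g (nat_lit 1) (.e (nat_lit 331524) (nat_lit 0) .nil) .nil)))))) (.nd (nat_lit 7) (.nd (nat_lit 8) (.nd (nat_lit 9) 
(.lf (nat_lit 565335) (.g (nat_lit 2810) (.e (nat_lit 434244) (nat_lit 28) (.e (nat_lit 573488) (nat_lit 14) (.e (nat_lit 73755) (nat_lit 8) (.e (nat_lit 557090) (nat_lit 12) (.e (nat_lit 164012) (nat_lit 42) .nil))))) (.g (nat_lit 0) (.e (nat_lit 329318) (nat_lit 0) .nil) .nil))) 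
(.lf (nat_lit 565847) (.g (nat_lit 3593) (.e (nat_lit 434247) (nat_lit 28) (.e (nat_lit 573489) (nat_lit 14) (.e (nat_lit 73755) (nat_lit 8) (.e (nat_lit 557090) (nat_lit 12) (.e (nat_lit 164009) (nat_lit 41) .nil))))) (.g (nat_lit 0) (.e (nat_lit 330523) (nat_lit 0) .nil) .nil)))) (.nd (nat_lit 9) 
(.lf (nat_lit 565591) (.g (nat_lit 3388) (.e (nat_lit 434246) (nat_lit 28) (.e (nat_lit 573484) (nat_lit 13) (.e (nat_lit 65569) (nat_lit 3) (.e (nat_lit 98317) (nat_lit 9) (.e (nat_lit 336288) (nat_lit 15) (.e (nat_lit 7936) (nat_lit 195) (.e (nat_lit 516160) (nat_lit 10) .nil))))))) (.g (nat_lit 1) (.e (nat_lit 329906) (nat_lit 0) .nil) .nil))) 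
(.lf (nat_lit 566103) (.g (nat_lit 1012) (.e (nat_lit 434241) (nat_lit 27) (.e (nat_lit 565269) (nat_lit 6) (.e (nat_lit 81935) (nat_lit 20) (.e (nat_lit 2381) (nat_lit 155) .nil)))) (.g (nat_lit 0) (.e (nat_lit 331435) (nat_lit 0) .nil) .nil))))) (.nd (nat_lit 8) (.nd (nat_lit 9) 
(.lf (nat_lit 565463) (.g (nat_lit 2391) (.e (nat_lit 434245) (nat_lit 28) (.e (nat_lit 573487) (nat_lit 14) (.e (nat_lit 73753) (nat_lit 8) (.e (nat_lit 557090) (nat_lit 12) (.e (nat_lit 164010) (nat_lit 41) .nil))))) (.g (nat_lit 0) (.e (nat_lit 329619) (nat_lit 0) .nil) .nil))) 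
(.lf (nat_lit 565975) (.g (nat_lit 2956) (.e (nat_lit 434248) (nat_lit 28) (.e (nat_lit 573482) (nat_lit 13) (.e (nat_lit 65567) (nat_lit 2) (.e (nat_lit 90160) (nat_lit 11) (.e (nat_lit 24668) (nat_lit 15) (.e (nat_lit 7936) (nat_lit 195) (.e (nat_lit 516160) (nat_lit 10) .nil))))))) (.g (nat_lit 1) (.e (nat_lit 330807) (nat_lit 0) .nil) .nil)))) (.nd (nat_lit 9) 
(.lf (nat_lit 565719) (.g (nat_lit 3681) (.e (nat_lit 434247) (nat_lit 28) (.e (nat_lit 573477) (nat_lit 12) (.e (nat_lit 57575) (nat_lit 55) (.e (nat_lit 778466) (nat_lit 11) (.e (nat_lit 24608) (nat_lit 3) (.e (nat_lit 98359) (nat_lit 26) (.e (nat_lit 426286) (nat_lit 10) .nil))))))) (.g (nat_lit 1) (.e (nat_lit 330196) (nat_lit 0) .nil) .nil))) 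
(.lf (nat_lit 566231) (.g (nat_lit 355) (.e (nat_lit 434279) (nat_lit 39) (.e (nat_lit 663574) (nat_lit 9) (.e (nat_lit 7936) (nat_lit 24) .nil))) (.g (nat_lit 0) (.e (nat_lit 331787) (nat_lit 0) .nil) .nil))))))) (.nd (nat_lit 6) (.nd (nat_lit 7) (.nd (nat_lit 8) (.nd (nat_lit 9) 
(.lf (nat_lit 565303) (.g (nat_lit 594) (.e (nat_lit 434244) (nat_lit 28) (.e (nat_lit 573482) (nat_lit 13) (.e (nat_lit 65568) (nat_lit 2) .nil))) (.g (nat_lit 0) (.e (nat_lit 329209) (nat_lit 0) .nil) .nil))) 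
(.lf (nat_lit 565815) (.g (nat_lit 2717) (.e (nat_lit 434247) (nat_lit 28) (.e (nat_lit 573489) (nat_lit 14) (.e (nat_lit 73755) (nat_lit 8) (.e (nat_lit 557070) (nat_lit 9) .nil)))) (.g (nat_lit 0) (.e (nat_lit 330448) (nat_lit 0) .nil) .nil)))) (.nd (nat_lit 9) 
(.lf (nat_lit 565559) (.g (nat_lit 2008) (.e (nat_lit 434246) (nat_lit 28) (.e (nat_lit 573471) (nat_lit 11) (.e (nat_lit 16448) (nat_lit 10) (.e (nat_lit 434234) (nat_lit 23) .nil)))) (.g (nat_lit 0) (.e (nat_lit 329835) (nat_lit 0) .nil) .nil))) 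
(.lf (nat_lit 566071) (.g (nat_lit 2981) (.e (nat_lit 434248) (nat_lit 28) (.e (nat_lit 573489) (nat_lit 14) (.e (nat_lit 73755) (nat_lit 8) (.e (nat_lit 557090) (nat_lit 12) (.e (nat_lit 164012) (nat_lit 42) .nil))))) (.g (nat_lit 0) (.e (nat_lit 331299) (nat_lit 0) .nil) .nil))))) (.nd (nat_lit 8) (.nd (nat_lit 9) 
(.lf (nat_lit 565431) (.g (nat_lit 638) (.e (nat_lit 434245) (nat_lit 28) (.e (nat_lit 573487) (nat_lit 14) (.e (nat_lit 73729) (nat_lit 0) .nil))) (.g (nat_lit 0) (.e (nat_lit 329545) (nat_lit 0) .nil) .nil))) 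
(.lf (nat_lit 565943) (.g (nat_lit 5937) (.e (nat_lit 434248) (nat_lit 28) (.e (nat_lit 573471) (nat_lit 11) (.e (nat_lit 16470) (nat_lit 14) (.e (nat_lit 491526) (nat_lit 0) (.e (nat_lit 1788) (nat_lit 119) (.e (nat_lit 516151) (nat_lit 9) (.e (nat_lit 426286) (nat_lit 10) .nil))))))) (.g (nat_lit 1) (.e (nat_lit 330722) (nat_lit 0) .nil) .nil)))) (.nd (nat_lit 9) 
(.lf (nat_lit 565687) (.g (nat_lit 2560) (.e (nat_lit 434247) (nat_lit 28) (.e (nat_lit 573471) (nat_lit 11) (.e (nat_lit 16436) (nat_lit 9) (.e (nat_lit 426131) (nat_lit 3) (.e (nat_lit 204885) (nat_lit 33) .nil))))) (.g (nat_lit 0) (.e (nat_lit 330156) (nat_lit 0) .nil) .nil))) 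
(.lf (nat_lit 566199) (.g (nat_lit 1512) (.e (nat_lit 434269) (nat_lit 36) (.e (nat_lit 639021) (nat_lit 16) (.e (nat_lit 65620) (nat_lit 10) (.e (nat_lit 344157) (nat_lit 36) (.e (nat_lit 638999) (nat_lit 8) (.e (nat_lit 172106) (nat_lit 10) .nil)))))) (.g (nat_lit 1) (.e (nat_lit 331594) (nat_lit 0) .nil) .nil)))))) (.nd (nat_lit 7) (.nd (nat_lit 8) (.nd (nat_lit 9) 
(.lf (nat_lit 565367) (.g (nat_lit 2103) (.e (nat_lit 434245) (nat_lit 28) (.e (nat_lit 573471) (nat_lit 11) (.e (nat_lit 16425) (nat_lit 7) (.e (nat_lit 409606) (nat_lit 0) .nil)))) (.g (nat_lit 0) (.e (nat_lit 329392) (nat_lit 0) .nil) .nil))) 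
(.lf (nat_lit 565879) (.g (nat_lit 2250) (.e (nat_lit 434248) (nat_lit 28) (.e (nat_lit 573450) (nat_lit 9) (.e (nat_lit 375) (nat_lit 32) (.e (nat_lit 426305) (nat_lit 12) .nil)))) (.g (nat_lit 0) (.e (nat_lit 330595) (nat_lit 0) .nil) .nil)))) (.nd (nat_lit 9) 
(.lf (nat_lit 565623) (.g (nat_lit 399) (.e (nat_lit 434246) (nat_lit 28) (.e (nat_lit 573489) (nat_lit 14) (.e (nat_lit 73755) (nat_lit 8) .nil))) (.g (nat_lit 0) (.e (nat_lit 330013) (nat_lit 0) .nil) .nil))) 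
(.lf (nat_lit 566135) (.g (nat_lit 642) (.e (nat_lit 434266) (nat_lit 35) (.e (nat_lit 630821) (nat_lit 16) (.e (nat_lit 65617) (nat_lit 10) (.e (nat_lit 344161) (nat_lit 37) .nil)))) (.g (nat_lit 0) (.e (nat_lit 331481) (nat_lit 0) .nil) .nil))))) (.nd (nat_lit 8) (.nd (nat_lit 9) 
(.lf (nat_lit 565495) (.g (nat_lit 1307) (.e (nat_lit 434245) (nat_lit 28) (.e (nat_lit 573488) (nat_lit 14) (.e (nat_lit 73755) (nat_lit 8) (.e (nat_lit 557089) (nat_lit 12) .nil)))) (.g (nat_lit 0) (.e (nat_lit 329702) (nat_lit 0) .nil) .nil))) 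
(.lf (nat_lit 566007) (.g (nat_lit 2334) (.e (nat_lit 434248) (nat_lit 28) (.e (nat_lit 573487) (nat_lit 14) (.e (nat_lit 73747) (nat_lit 3) (.e (nat_lit 516119) (nat_lit 1) (.e (nat_lit 164195) (nat_lit 158) .nil))))) (.g (nat_lit 0) (.e (nat_lit 330985) (nat_lit 0) .nil) .nil)))) (.nd (nat_lit 9) 
(.lf (nat_lit 565751) (.g (nat_lit 2522) (.e (nat_lit 434247) (nat_lit 28) (.e (nat_lit 573484) (nat_lit 13) (.e (nat_lit 65567) (nat_lit 2) (.e (nat_lit 90160) (nat_lit 11) (.e (nat_lit 24671) (nat_lit 15) .nil))))) (.g (nat_lit 0) (.e (nat_lit 330265) (nat_lit 0) .nil) .nil))) 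
(.lf (nat_lit 566263) (.g (nat_lit 356) (.e (nat_lit 434271) (nat_lit 38) (.e (nat_lit 655375) (nat_lit 3) (.e (nat_lit 163978) (nat_lit 30) .nil))) (.g (nat_lit 0) (.e (nat_lit 331857) (nat_lit 0) .nil) .nil))))))))) (.nd (nat_lit 4) (.nd (nat_lit 5) (.nd (nat_lit 6) (.nd (nat_lit 7) (.nd (nat_lit 8) (.nd (nat_lit 9) 
(.lf (nat_lit 565263) (.g (nat_lit 1988) (.e (nat_lit 434244) (nat_lit 28) (.e (nat_lit 573471) (nat_lit 11) (.e (nat_lit 16425) (nat_lit 7) (.e (nat_lit 409614) (nat_lit 10) .nil)))) (.g (nat_lit 0) (.e (nat_lit 329056) (nat_lit 0) .nil) .nil))) 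
(.lf (nat_lit 565775) (.g (nat_lit 2839) (.e (nat_lit 434247) (nat_lit 28) (.e (nat_lit 573485) (nat_lit 13) (.e (nat_lit 65569) (nat_lit 3) (.e (nat_lit 98317) (nat_lit 9) (.e (nat_lit 336293) (nat_lit 15) (.e (nat_lit 7936) (nat_lit 195) (.e (nat_lit 516160) (nat_lit 10) .nil))))))) (.g (nat_lit 1) (.e (nat_lit 330325) (nat_lit 0) .nil) .nil)))) (.nd (nat_lit 9) 
(.lf (nat_lit 565519) (.g (nat_lit 2326) (.e (nat_lit 434245) (nat_lit 28) (.e (nat_lit 573488) (nat_lit 14) (.e (nat_lit 73755) (nat_lit 8) (.e (nat_lit 557090) (nat_lit 12) (.e (nat_lit 164005) (nat_lit 41) .nil))))) (.g (nat_lit 0) (.e (nat_lit 329737) (nat_lit 0) .nil) .nil))) 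
(.lf (nat_lit 566031) (.g (nat_lit 1566) (.e (nat_lit 434248) (nat_lit 28) (.e (nat_lit 573489) (nat_lit 14) (.e (nat_lit 73754) (nat_lit 8) (.e (nat_lit 557091) (nat_lit 12) .nil)))) (.g (nat_lit 0) (.e (nat_lit 331140) (nat_lit 0) .nil) .nil))))) (.nd (nat_lit 8) (.nd (nat_lit 9) 
(.lf (nat_lit 565391) (.g (nat_lit 4669) (.e (nat_lit 434245) (nat_lit 28) (.e (nat_lit 573471) (nat_lit 11) (.e (nat_lit 16456) (nat_lit 12) (.e (nat_lit 475185) (nat_lit 29) (.e (nat_lit 557100) (nat_lit 13) (.e (nat_lit 172113) (nat_lit 10) .nil)))))) (.g (nat_lit 1) (.e (nat_lit 329429) (nat_lit 0) .nil) .nil))) 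
(.lf (nat_lit 565903) (.g (nat_lit 2646) (.e (nat_lit 434248) (nat_lit 28) (.e (nat_lit 573471) (nat_lit 11) (.e (nat_lit 16425) (nat_lit 7) (.e (nat_lit 409623) (nat_lit 10) .nil)))) (.g (nat_lit 0) (.e (nat_lit 330639) (nat_lit 0) .nil) .nil)))) (.nd (nat_lit 9) 
(.lf (nat_lit 565647) (.g (nat_lit 2798) (.e (nat_lit 434246) (nat_lit 28) (.e (nat_lit 573489) (nat_lit 14) (.e (nat_lit 73755) (nat_lit 8) (.e (nat_lit 557091) (nat_lit 12) (.e (nat_lit 164005) (nat_lit 41) .nil))))) (.g (nat_lit 0) (.e (nat_lit 330100) (nat_lit 0) .nil) .nil))) 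
(.lf (nat_lit 566159) (.g (nat_lit 2044) (.e (nat_lit 434268) (nat_lit 36) (.e (nat_lit 639020) (nat_lit 16) (.e (nat_lit 65586) (nat_lit 7) (.e (nat_lit 319533) (nat_lit 16) (.e (nat_lit 286762) (nat_lit 14) .nil))))) (.g (nat_lit 0) (.e (nat_lit 331510) (nat_lit 0) .nil) .nil)))))) (.nd (nat_lit 7) (.nd (nat_lit 8) (.nd (nat_lit 9) 
(.lf (nat_lit 565327) (.g (nat_lit 4197) (.e (nat_lit 434244) (nat_lit 28) (.e (nat_lit 573488) (nat_lit 14) (.e (nat_lit 73755) (nat_lit 8) (.e (nat_lit 557090) (nat_lit 12) (.e (nat_lit 163843) (nat_lit 0) (.e (nat_lit 5940) (nat_lit 322) (.e (nat_lit 57379) (nat_lit 3) (.e (nat_lit 98367) (nat_lit 27) .nil)))))))) (.g (nat_lit 1) (.e (nat_lit 329299) (nat_lit 0) .nil) .nil))) 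
(.lf (nat_lit 565839) (.g (nat_lit 3663) (.e (nat_lit 434247) (nat_lit 28) (.e (nat_lit 573489) (nat_lit 14) (.e (nat_lit 73755) (nat_lit 8) (.e (nat_lit 557090) (nat_lit 12) (.e (nat_lit 163851) (nat_lit 0) (.e (nat_lit 5939) (nat_lit 322) (.e (nat_lit 57379) (nat_lit 3) (.e (nat_lit 98367) (nat_lit 27) .nil)))))))) (.g (nat_lit 1) (.e (nat_lit 330503) (nat_lit 0) .nil) .nil)))) (.nd (nat_lit 9) 
(.lf (nat_lit 565583) (.g (nat_lit 2479) (.e (nat_lit 434246) (nat_lit 28) (.e (nat_lit 573482) (nat_lit 13) (.e (nat_lit 65570) (nat_lit 3) (.e (nat_lit 98317) (nat_lit 9) (.e (nat_lit 336293) (nat_lit 15) .nil))))) (.g (nat_lit 0) (.e (nat_lit 329876) (nat_lit 0) .nil) .nil))) 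
(.lf (nat_lit 566095) (.g (nat_lit 3448) (.e (nat_lit 434241) (nat_lit 27) (.e (nat_lit 565267) (nat_lit 4) (.e (nat_lit 65619) (nat_lit 10) (.e (nat_lit 344090) (nat_lit 18) (.e (nat_lit 7710) (nat_lit 414) (.e (nat_lit 163908) (nat_lit 12) (.e (nat_lit 426286) (nat_lit 10) .nil))))))) (.g (nat_lit 1) (.e (nat_lit 331425) (nat_lit 0) .nil) .nil))))) (.nd (nat_lit 8) (.nd (nat_lit 9) 
(.lf (nat_lit 565455) (.g (nat_lit 2165) (.e (nat_lit 434245) (nat_lit 28) (.e (nat_lit 573487) (nat_lit 14) (.e (nat_lit 73753) (nat_lit 8) (.e (nat_lit 557089) (nat_lit 12) (.e (nat_lit 164007) (nat_lit 41) .nil))))) (.g (nat_lit 0) (.e (nat_lit 329595) (nat_lit 0) .nil) .nil))) 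
(.lf (nat_lit 565967) (.g (nat_lit 2428) (.e (nat_lit 434248) (nat_lit 28) (.e (nat_lit 573475) (nat_lit 12) (.e (nat_lit 57574) (nat_lit 55) (.e (nat_lit 778466) (nat_lit 11) (.e (nat_lit 24604) (nat_lit 2) (.e (nat_lit 90168) (nat_lit 13) (.e (nat_lit 172111) (nat_lit 10) .nil))))))) (.g (nat_lit 1) (.e (nat_lit 330750) (nat_lit 0) .nil) .nil)))) (.nd (nat_lit 9) 
(.lf (nat_lit 565711) (.g (nat_lit 1990) (.e (nat_lit 434247) (nat_lit 28) (.e (nat_lit 573477) (nat_lit 12) (.e (nat_lit 57575) (nat_lit 55) (.e (nat_lit 778465) (nat_lit 11) (.e (nat_lit 24603) (nat_lit 2) .nil))))) (.g (nat_lit 0) (.e (nat_lit 330188) (nat_lit 0) .nil) .nil))) 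
(.lf (nat_lit 566223) (.g (nat_lit 1863) (.e (nat_lit 434276) (nat_lit 39) (.e (nat_lit 663584) (nat_lit 12) (.e (nat_lit 164020) (nat_lit 45) (.e (nat_lit 696344) (nat_lit 8) (.e (nat_lit 172079) (nat_lit 7) .nil))))) (.g (nat_lit 0) (.e (nat_lit 331748) (nat_lit 0) .nil) .nil))))))) (.nd (nat_lit 6) (.nd (nat_lit 7) (.nd (nat_lit 8) (.nd (nat_lit 9) 
(.lf (nat_lit 565295) (.g (nat_lit 3376) (.e (nat_lit 434244) (nat_lit 28) (.e (nat_lit 573481) (nat_lit 13) (.e (nat_lit 65568) (nat_lit 2) (.e (nat_lit 90160) (nat_lit 11) (.e (nat_lit 24671) (nat_lit 15) (.e (nat_lit 7936) (nat_lit 195) (.e (nat_lit 516160) (nat_lit 10) .nil))))))) (.g (nat_lit 1) (.e (nat_lit 329173) (nat_lit 0) .nil) .nil))) 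
(.lf (nat_lit 565807) (.g (nat_lit 3280) (.e (nat_lit 434247) (nat_lit 28) (.e (nat_lit 573489) (nat_lit 14) (.e (nat_lit 73755) (nat_lit 8) (.e (nat_lit 557067) (nat_lit 9) (.e (nat_lit 2598) (nat_lit 163) (.e (nat_lit 164401) (nat_lit 256) (.e (nat_lit 57378) (nat_lit 3) (.e (nat_lit 98368) (nat_lit 27) .nil)))))))) (.g (nat_lit 1) (.e (nat_lit 330429) (nat_lit 0) .nil) .nil)))) 
(.nd (nat_lit 9) 
(.lf (nat_lit 565551) (.g (nat_lit 3560) (.e (nat_lit 434246) (nat_lit 28) (.e (nat_lit 573471) (nat_lit 11) (.e (nat_lit 16425) (nat_lit 7) (.e (nat_lit 409617) (nat_lit 10) .nil)))) (.g (nat_lit 0) (.e (nat_lit 329824) (nat_lit 0) .nil) .nil))) 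
(.lf (nat_lit 566063) (.g (nat_lit 4226) (.e (nat_lit 434248) (nat_lit 28) (.e (nat_lit 573489) (nat_lit 14) (.e (nat_lit 73755) (nat_lit 8) (.e (nat_lit 557090) (nat_lit 12) (.e (nat_lit 163851) (nat_lit 0) (.e (nat_lit 5939) (nat_lit 322) (.e (nat_lit 57379) (nat_lit 3) (.e (nat_lit 98366) (nat_lit 27) .nil)))))))) (.g (nat_lit 1) (.e (nat_lit 331255) (nat_lit 0) .nil) .nil))))) 
(.nd (nat_lit 8) (.nd (nat_lit 9) 
(.lf (nat_lit 565423) (.g (nat_lit 1643) (.e (nat_lit 434245) (nat_lit 28) (.e (nat_lit 573481) (nat_lit 13) (.e (nat_lit 65571) (nat_lit 3) (.e (nat_lit 98312) (nat_lit 9) .nil)))) (.g (nat_lit 0) (.e (nat_lit 329506) (nat_lit 0) .nil) .nil))) 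
(.lf (nat_lit 565935) (.g (nat_lit 3461) (.e (nat_lit 434248) (nat_lit 28) (.e (nat_lit 573471) (nat_lit 11) (.e (nat_lit 16456) (nat_lit 12) (.e (nat_lit 475185) (nat_lit 29) (.e (nat_lit 557098) (nat_lit 13) .nil))))) (.g (nat_lit 0) (.e (nat_lit 330714) (nat_lit 0) .nil) .nil)))) (.nd (nat_lit 9) 
(.lf (nat_lit 565679) (.g (nat_lit 3715) (.e (nat_lit 434247) (nat_lit 28) (.e (nat_lit 573469) (nat_lit 11) (.e (nat_lit 16473) (nat_lit 14) (.e (nat_lit 491538) (nat_lit 3) (.e (nat_lit 98359) (nat_lit 26) (.e (nat_lit 426286) (nat_lit 10) .nil)))))) (.g (nat_lit 1) (.e (nat_lit 330146) (nat_lit 0) .nil) .nil))) 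
(.lf (nat_lit 566191) (.g (nat_lit 964) (.e (nat_lit 434269) (nat_lit 36) (.e (nat_lit 639021) (nat_lit 16) (.e (nat_lit 65586) (nat_lit 7) (.e (nat_lit 319526) (nat_lit 15) (.e (nat_lit 278547) (nat_lit 8) .nil))))) (.g (nat_lit 0) (.e (nat_lit 331581) (nat_lit 0) .nil) .nil)))))) (.nd (nat_lit 7) (.nd (nat_lit 8) (.nd (nat_lit 9) 
(.lf (nat_lit 565359) (.g (nat_lit 3482) (.e (nat_lit 434245) (nat_lit 28) (.e (nat_lit 573470) (nat_lit 11) (.e (nat_lit 16458) (nat_lit 12) (.e (nat_lit 475183) (nat_lit 29) (.e (nat_lit 557100) (nat_lit 13) (.e (nat_lit 172113) (nat_lit 10) .nil)))))) (.g (nat_lit 1) (.e (nat_lit 329381) (nat_lit 0) .nil) .nil))) 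
(.lf (nat_lit 565871) (.g (nat_lit 2121) (.e (nat_lit 434247) (nat_lit 28) (.e (nat_lit 573489) (nat_lit 14) (.e (nat_lit 73755) (nat_lit 8) (.e (nat_lit 557119) (nat_lit 18) (.e (nat_lit 7936) (nat_lit 157) .nil))))) (.g (nat_lit 0) (.e (nat_lit 330568) (nat_lit 0) .nil) .nil)))) (.nd (nat_lit 9) 
(.lf (nat_lit 565615) (.g (nat_lit 2199) (.e (nat_lit 434246) (nat_lit 28) (.e (nat_lit 573487) (nat_lit 14) (.e (nat_lit 73753) (nat_lit 8) (.e (nat_lit 557091) (nat_lit 12) (.e (nat_lit 164008) (nat_lit 41) .nil))))) (.g (nat_lit 0) (.e (nat_lit 329991) (nat_lit 0) .nil) .nil))) 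
(.lf (nat_lit 566127) (.g (nat_lit 1698) (.e (nat_lit 434266) (nat_lit 35) (.e (nat_lit 630821) (nat_lit 16) (.e (nat_lit 65616) (nat_lit 10) (.e (nat_lit 344156) (nat_lit 36) (.e (nat_lit 638998) (nat_lit 8) (.e (nat_lit 172107) (nat_lit 10) .nil)))))) (.g (nat_lit 1) (.e (nat_lit 331473) (nat_lit 0) .nil) .nil))))) (.nd (nat_lit 8) (.nd (nat_lit 9) 
(.lf (nat_lit 565487) (.g (nat_lit 826) (.e (nat_lit 434245) (nat_lit 28) (.e (nat_lit 573488) (nat_lit 14) (.e (nat_lit 73754) (nat_lit 8) (.e (nat_lit 557094) (nat_lit 12) .nil)))) (.g (nat_lit 0) (.e (nat_lit 329691) (nat_lit 0) .nil) .nil))) 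
(.lf (nat_lit 565999) (.g (nat_lit 2824) (.e (nat_lit 434248) (nat_lit 28) (.e (nat_lit 573487) (nat_lit 14) (.e (nat_lit 73746) (nat_lit 3) (.e (nat_lit 516115) (nat_lit 1) (.e (nat_lit 164196) (nat_lit 158) .nil))))) (.g (nat_lit 0) (.e (nat_lit 330954) (nat_lit 0) .nil) .nil)))) (.nd (nat_lit 9) 
(.lf (nat_lit 565743) (.g (nat_lit 3028) (.e (nat_lit 434247) (nat_lit 28) (.e (nat_lit 573478) (nat_lit 12) (.e (nat_lit 57574) (nat_lit 55) (.e (nat_lit 778466) (nat_lit 11) (.e (nat_lit 24604) (nat_lit 2) (.e (nat_lit 90169) (nat_lit 13) (.e (nat_lit 172111) (nat_lit 10) .nil))))))) (.g (nat_lit 1) (.e (nat_lit 330237) (nat_lit 0) .nil) .nil))) 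
(.lf (nat_lit 566255) (.g (nat_lit 2488) (.e (nat_lit 434271) (nat_lit 38) (.e (nat_lit 655373) (nat_lit 3) (.e (nat_lit 163973) (nat_lit 30) (.e (nat_lit 573484) (nat_lit 13) (.e (nat_lit 65610) (nat_lit 10) (.e (nat_lit 344117) (nat_lit 21) (.e (nat_lit 516159) (nat_lit 10) .nil))))))) (.g (nat_lit 1) (.e (nat_lit 331848) (nat_lit 0) .nil) .nil)))))))) 
(.nd (nat_lit 5) (.nd (nat_lit 6) (.nd (nat_lit 7) (.nd (nat_lit 8) (.nd (nat_lit 9) 
(.lf (nat_lit 565279) (.g (nat_lit 2061) (.e (nat_lit 434244) (nat_lit 28) (.e (nat_lit 573471) (nat_lit 11) (.e (nat_lit 16435) (nat_lit 9) (.e (nat_lit 426131) (nat_lit 3) (.e (nat_lit 204885) (nat_lit 33) .nil))))) (.g (nat_lit 0) (.e (nat_lit 329105) (nat_lit 0) .nil) .nil))) 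
(.lf (nat_lit 565791) (.g (nat_lit 664) (.e (nat_lit 434247) (nat_lit 28) (.e (nat_lit 573489) (nat_lit 14) (.e (nat_lit 81664) (nat_lit 5) .nil))) (.g (nat_lit 0) (.e (nat_lit 330390) (nat_lit 0) .nil) .nil)))) (.nd (nat_lit 9) 
(.lf (nat_lit 565535) (.g (nat_lit 1514) (.e (nat_lit 434245) (nat_lit 28) (.e (nat_lit 573488) (nat_lit 14) (.e (nat_lit 73755) (nat_lit 8) (.e (nat_lit 557092) (nat_lit 12) .nil)))) (.g (nat_lit 0) (.e (nat_lit 329786) (nat_lit 0) .nil) .nil))) 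
(.lf (nat_lit 566047) (.g (nat_lit 2671) (.e (nat_lit 434248) (nat_lit 28) (.e (nat_lit 573489) (nat_lit 14) (.e (nat_lit 73755) (nat_lit 8) (.e (nat_lit 557069) (nat_lit 9) .nil)))) (.g (nat_lit 0) (.e (nat_lit 331198) (nat_lit 0) .nil) .nil))))) (.nd (nat_lit 8) (.nd (nat_lit 9) 
(.lf (nat_lit 565407) (.g (nat_lit 472) (.e (nat_lit 434245) (nat_lit 28) (.e (nat_lit 573481) (nat_lit 13) (.e (nat_lit 65568) (nat_lit 2) .nil))) (.g (nat_lit 0) (.e (nat_lit 329467) (nat_lit 0) .nil) .nil))) 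
(.lf (nat_lit 565919) (.g (nat_lit 2960) (.e (nat_lit 434248) (nat_lit 28) (.e (nat_lit 573471) (nat_lit 11) (.e (nat_lit 16433) (nat_lit 9) (.e (nat_lit 426379) (nat_lit 15) .nil)))) (.g (nat_lit 0) (.e (nat_lit 330660) (nat_lit 0) .nil) .nil)))) (.nd (nat_lit 9) 
(.lf (nat_lit 565663) (.g (nat_lit 4491) (.e (nat_lit 434247) (nat_lit 28) (.e (nat_lit 573457) (nat_lit 9) (.e (nat_lit 430) (nat_lit 32) (.e (nat_lit 426011) (nat_lit 0) (.e (nat_lit 7581) (nat_lit 405) (.e (nat_lit 57464) (nat_lit 23) (.e (nat_lit 516151) (nat_lit 9) (.e (nat_lit 426286) (nat_lit 10) .nil)))))))) (.g (nat_lit 1) (.e (nat_lit 330128) (nat_lit 0) .nil) .nil))) 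
(.lf (nat_lit 566175) (.g (nat_lit 1169) (.e (nat_lit 434268) (nat_lit 36) (.e (nat_lit 639020) (nat_lit 16) (.e (nat_lit 65619) (nat_lit 10) (.e (nat_lit 344153) (nat_lit 35) .nil)))) (.g (nat_lit 0) (.e (nat_lit 331540) (nat_lit 0) .nil) .nil)))))) (.nd (nat_lit 7) (.nd (nat_lit 8) (.nd (nat_lit 9) 
(.lf (nat_lit 565343) (.g (nat_lit 4334) (.e (nat_lit 434244) (nat_lit 28) (.e (nat_lit 573489) (nat_lit 14) (.e (nat_lit 73755) (nat_lit 8) (.e (nat_lit 557090) (nat_lit 12) (.e (nat_lit 163850) (nat_lit 0) (.e (nat_lit 5939) (nat_lit 322) (.e (nat_lit 57379) (nat_lit 3) (.e (nat_lit 98366) (nat_lit 27) .nil)))))))) (.g (nat_lit 1) (.e (nat_lit 329345) (nat_lit 0) .nil) .nil))) 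
(.lf (nat_lit 565855) (.g (nat_lit 2191) (.e (nat_lit 434247) (nat_lit 28) (.e (nat_lit 573489) (nat_lit 14) (.e (nat_lit 73755) (nat_lit 8) (.e (nat_lit 557091) (nat_lit 12) (.e (nat_lit 163851) (nat_lit 0) .nil))))) (.g (nat_lit 0) (.e (nat_lit 330535) (nat_lit 0) .nil) .nil)))) (.nd (nat_lit 9) 
(.lf (nat_lit 565599) (.g (nat_lit 2276) (.e (nat_lit 434246) (nat_lit 28) (.e (nat_lit 573487) (nat_lit 14) (.e (nat_lit 73746) (nat_lit 3) (.e (nat_lit 516120) (nat_lit 1) (.e (nat_lit 164195) (nat_lit 158) .nil))))) (.g (nat_lit 0) (.e (nat_lit 329938) (nat_lit 0) .nil) .nil))) 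
(.lf (nat_lit 566111) (.g (nat_lit 1294) (.e (nat_lit 434265) (nat_lit 35) (.e (nat_lit 630820) (nat_lit 16) (.e (nat_lit 65586) (nat_lit 7) (.e (nat_lit 319531) (nat_lit 16) (.e (nat_lit 286727) (nat_lit 0) .nil))))) (.g (nat_lit 0) (.e (nat_lit 331457) (nat_lit 0) .nil) .nil))))) (.nd (nat_lit 8) (.nd (nat_lit 9) 
(.lf (nat_lit 565471) (.g (nat_lit 2456) (.e (nat_lit 434245) (nat_lit 28) (.e (nat_lit 573487) (nat_lit 14) (.e (nat_lit 73753) (nat_lit 8) (.e (nat_lit 557091) (nat_lit 12) (.e (nat_lit 164007) (nat_lit 41) .nil))))) (.g (nat_lit 0) (.e (nat_lit 329636) (nat_lit 0) .nil) .nil))) 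
(.lf (nat_lit 565983) (.g (nat_lit 455) (.e (nat_lit 434248) (nat_lit 28) (.e (nat_lit 573482) (nat_lit 13) (.e (nat_lit 65569) (nat_lit 3) .nil))) (.g (nat_lit 0) (.e (nat_lit 330831) (nat_lit 0) .nil) .nil)))) (.nd (nat_lit 9) 
(.lf (nat_lit 565727) (.g (nat_lit 4099) (.e (nat_lit 434247) (nat_lit 28) (.e (nat_lit 573477) (nat_lit 12) (.e (nat_lit 57750) (nat_lit 201) (.e (nat_lit 3090) (nat_lit 191) (.e (nat_lit 483363) (nat_lit 18) (.e (nat_lit 57688) (nat_lit 156) (.e (nat_lit 163917) (nat_lit 13) .nil))))))) (.g (nat_lit 1) (.e (nat_lit 330205) (nat_lit 0) .nil) .nil))) 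
(.lf (nat_lit 566239) (.g (nat_lit 1001) (.e (nat_lit 434280) (nat_lit 40) (.e (nat_lit 671762) (nat_lit 4) (.e (nat_lit 65651) (nat_lit 27) (.e (nat_lit 426200) (nat_lit 9) .nil)))) (.g (nat_lit 0) (.e (nat_lit 331824) (nat_lit 0) .nil) .nil))))))) (.nd (nat_lit 6) (.nd (nat_lit 7) (.nd (nat_lit 8) (.nd (nat_lit 9) 
(.lf (nat_lit 565311) (.g (nat_lit 2310) (.e (nat_lit 434244) (nat_lit 28) (.e (nat_lit 573487) (nat_lit 14) (.e (nat_lit 73747) (nat_lit 3) (.e (nat_lit 516119) (nat_lit 1) (.e (nat_lit 164195) (nat_lit 158) .nil))))) (.g (nat_lit 0) (.e (nat_lit 329226) (nat_lit 0) .nil) .nil))) 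
(.lf (nat_lit 565823) (.g (nat_lit 1213) (.e (nat_lit 434247) (nat_lit 28) (.e (nat_lit 573489) (nat_lit 14) (.e (nat_lit 73755) (nat_lit 8) (.e (nat_lit 557089) (nat_lit 12) .nil)))) (.g (nat_lit 0) (.e (nat_lit 330461) (nat_lit 0) .nil) .nil)))) (.nd (nat_lit 9) 
(.lf (nat_lit 565567) (.g (nat_lit 868) (.e (nat_lit 434246) (nat_lit 28) (.e (nat_lit 573475) (nat_lit 12) (.e (nat_lit 57491) (nat_lit 33) .nil))) (.g (nat_lit 0) (.e (nat_lit 329847) (nat_lit 0) .nil) .nil))) 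
(.lf (nat_lit 566079) (.g (nat_lit 2683) (.e (nat_lit 434248) (nat_lit 28) (.e (nat_lit 573489) (nat_lit 14) (.e (nat_lit 73755) (nat_lit 8) (.e (nat_lit 557121) (nat_lit 18) .nil)))) (.g (nat_lit 0) (.e (nat_lit 331363) (nat_lit 0) .nil) .nil))))) (.nd (nat_lit 8) (.nd (nat_lit 9) 
(.lf (nat_lit 565439) (.g (nat_lit 2338) (.e (nat_lit 434245) (nat_lit 28) (.e (nat_lit 573487) (nat_lit 14) (.e (nat_lit 73746) (nat_lit 3) (.e (nat_lit 516117) (nat_lit 1) (.e (nat_lit 164195) (nat_lit 158) .nil))))) (.g (nat_lit 0) (.e (nat_lit 329565) (nat_lit 0) .nil) .nil))) 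
(.lf (nat_lit 565951) (.g (nat_lit 3200) (.e (nat_lit 434248) (nat_lit 28) (.e (nat_lit 573471) (nat_lit 11) (.e (nat_lit 16470) (nat_lit 14) (.e (nat_lit 491540) (nat_lit 3) .nil)))) (.g (nat_lit 0) (.e (nat_lit 330730) (nat_lit 0) .nil) .nil)))) (.nd (nat_lit 9) 
(.lf (nat_lit 565695) (.g (nat_lit 736) (.e (nat_lit 434247) (nat_lit 28) (.e (nat_lit 573471) (nat_lit 11) (.e (nat_lit 16472) (nat_lit 14) .nil))) (.g (nat_lit 0) (.e (nat_lit 330169) (nat_lit 0) .nil) .nil))) 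
(.lf (nat_lit 566207) (.g (nat_lit 340) (.e (nat_lit 434275) (nat_lit 39) (.e (nat_lit 663574) (nat_lit 9) (.e (nat_lit 2741) (nat_lit 174) .nil))) (.g (nat_lit 0) (.e (nat_lit 331617) (nat_lit 0) .nil) .nil)))))) (.nd (nat_lit 7) (.nd (nat_lit 8) (.nd (nat_lit 9) 
(.lf (nat_lit 565375) (.g (nat_lit 3207) (.e (nat_lit 434245) (nat_lit 28) (.e (nat_lit 573471) (nat_lit 11) (.e (nat_lit 16433) (nat_lit 9) (.e (nat_lit 426359) (nat_lit 15) .nil)))) (.g (nat_lit 0) (.e (nat_lit 329407) (nat_lit 0) .nil) .nil))) 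
(.lf (nat_lit 565887) (.g (nat_lit 2313) (.e (nat_lit 434248) (nat_lit 28) (.e (nat_lit 573452) (nat_lit 9) (.e (nat_lit 498) (nat_lit 40) (.e (nat_lit 491565) (nat_lit 12) (.e (nat_lit 385065) (nat_lit 26) (.e (nat_lit 532515) (nat_lit 3) (.e (nat_lit 122624) (nat_lit 12) .nil))))))) (.g (nat_lit 1) (.e (nat_lit 330606) (nat_lit 0) .nil) .nil)))) (.nd (nat_lit 9) 
(.lf (nat_lit 565631) (.g (nat_lit 2665) (.e (nat_lit 434246) (nat_lit 28) (.e (nat_lit 573489) (nat_lit 14) (.e (nat_lit 73755) (nat_lit 8) (.e (nat_lit 557090) (nat_lit 12) (.e (nat_lit 163840) (nat_lit 0) .nil))))) (.g (nat_lit 0) (.e (nat_lit 330056) (nat_lit 0) .nil) .nil))) 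
(.lf (nat_lit 566143) (.g (nat_lit 712) (.e (nat_lit 434268) (nat_lit 36) (.e (nat_lit 639020) (nat_lit 16) (.e (nat_lit 65581) (nat_lit 7) (.e (nat_lit 319526) (nat_lit 15) (.e (nat_lit 278546) (nat_lit 8) .nil))))) (.g (nat_lit 0) (.e (nat_lit 331489) (nat_lit 0) .nil) .nil))))) (.nd (nat_lit 8) (.nd (nat_lit 9) 
(.lf (nat_lit 565503) (.g (nat_lit 2243) (.e (nat_lit 434245) (nat_lit 28) (.e (nat_lit 573488) (nat_lit 14) (.e (nat_lit 73755) (nat_lit 8) (.e (nat_lit 557090) (nat_lit 12) (.e (nat_lit 163841) (nat_lit 0) .nil))))) (.g (nat_lit 0) (.e (nat_lit 329715) (nat_lit 0) .nil) .nil))) 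
(.lf (nat_lit 566015) (.g (nat_lit 2144) (.e (nat_lit 434248) (nat_lit 28) (.e (nat_lit 573487) (nat_lit 14) (.e (nat_lit 73753) (nat_lit 8) (.e (nat_lit 557090) (nat_lit 12) (.e (nat_lit 164007) (nat_lit 41) .nil))))) (.g (nat_lit 0) (.e (nat_lit 331057) (nat_lit 0) .nil) .nil)))) (.nd (nat_lit 9) 
(.lf (nat_lit 565759) (.g (nat_lit 1557) (.e (nat_lit 434247) (nat_lit 28) (.e (nat_lit 573484) (nat_lit 13) (.e (nat_lit 65571) (nat_lit 3) (.e (nat_lit 98333) (nat_lit 18) .nil)))) (.g (nat_lit 0) (.e (nat_lit 330294) (nat_lit 0) .nil) .nil))) 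
(.lf (nat_lit 566271) (.g (nat_lit 4649) (.e (nat_lit 434271) (nat_lit 38) (.e (nat_lit 655375) (nat_lit 3) (.e (nat_lit 163978) (nat_lit 30) (.e (nat_lit 573485) (nat_lit 13) (.e (nat_lit 65604) (nat_lit 9) (.e (nat_lit 336028) (nat_lit 3) (.e (nat_lit 98366) (nat_lit 27) .nil))))))) (.g (nat_lit 1) (.e (nat_lit 331865) (nat_lit 0) .nil) .nil)))))))))))))

noncomputable def tv5613 : DT := (.nd (nat_lit 0) (.nd (nat_lit 1) (.nd (nat_lit 2) (.nd (nat_lit 3) (.nd (nat_lit 4) (.nd (nat_lit 5) (.nd (nat_lit 6) (.nd (nat_lit 7) (.nd (nat_lit 8) (.nd (nat_lit 9) 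
(.lf (nat_lit 566272) (.g (nat_lit 4641) (.e (nat_lit 434271) (nat_lit 38) (.e (nat_lit 655375) (nat_lit 3) (.e (nat_lit 163978) (nat_lit 30) (.e (nat_lit 573485) (nat_lit 13) (.e (nat_lit 65619) (nat_lit 10) (.e (nat_lit 344117) (nat_lit 21) (.e (nat_lit 516159) (nat_lit 10) .nil))))))) (.g (nat_lit 1) (.e (nat_lit 331866) (nat_lit 0) .nil) .nil))) 
(.lf (nat_lit 566784) (.g (nat_lit 1695) (.e (nat_lit 442378) (nat_lit 0) (.e (nat_lit 2059) (nat_lit 142) (.e (nat_lit 704595) (nat_lit 5) (.e (nat_lit 180278) (nat_lit 32) (.e (nat_lit 1428) (nat_lit 108) .nil))))) (.g (nat_lit 0) (.e (nat_lit 333159) (nat_lit 0) .nil) .nil)))) (.nd (nat_lit 9) 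
(.lf (nat_lit 566528) (.g (nat_lit 2095) (.e (nat_lit 434291) (nat_lit 44) (.e (nat_lit 704737) (nat_lit 11) (.e (nat_lit 16439) (nat_lit 9) (.e (nat_lit 426499) (nat_lit 27) (.e (nat_lit 336230) (nat_lit 14) .nil))))) (.g (nat_lit 0) (.e (nat_lit 332766) (nat_lit 0) .nil) .nil))) 
(.lf (nat_lit 567040) (.g (nat_lit 1259) (.e (nat_lit 450304) (nat_lit 16) (.e (nat_lit 376857) (nat_lit 21) (.e (nat_lit 57847) (nat_lit 252) (.e (nat_lit 57390) (nat_lit 5) (.e (nat_lit 122624) (nat_lit 13) .nil))))) (.g (nat_lit 0) (.e (nat_lit 334753) (nat_lit 0) .nil) .nil))))) (.nd (nat_lit 8) (.nd (nat_lit 9) 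
(.lf (nat_lit 566400) (.g (nat_lit 2802) (.e (nat_lit 434272) (nat_lit 38) (.e (nat_lit 655380) (nat_lit 6) (.e (nat_lit 188455) (nat_lit 24) (.e (nat_lit 229663) (nat_lit 240) (.e (nat_lit 2622) (nat_lit 164) .nil))))) (.g (nat_lit 0) (.e (nat_lit 332381) (nat_lit 0) .nil) .nil))) 
(.lf (nat_lit 566912) (.g (nat_lit 1463) (.e (nat_lit 450304) (nat_lit 3) (.e (nat_lit 98335) (nat_lit 18) (.e (nat_lit 164330) (nat_lit 230) (.e (nat_lit 163942) (nat_lit 19) (.e (nat_lit 491264) (nat_lit 11) .nil))))) (.g (nat_lit 0) (.e (nat_lit 333371) (nat_lit 0) .nil) .nil)))) (.nd (nat_lit 9) 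
(.lf (nat_lit 566656) (.g (nat_lit 3929) (.e (nat_lit 442374) (nat_lit 0) (.e (nat_lit 1846) (nat_lit 124) (.e (nat_lit 557101) (nat_lit 13) (.e (nat_lit 172115) (nat_lit 10) (.e (nat_lit 434244) (nat_lit 28) (.e (nat_lit 573450) (nat_lit 9) (.e (nat_lit 457) (nat_lit 34) .nil))))))) (.g (nat_lit 1) (.e (nat_lit 332962) (nat_lit 0) .nil) .nil))) 
(.lf (nat_lit 567168) (.g (nat_lit 257) (.e (nat_lit 442402) (nat_lit 20) (.e (nat_lit 3224) (nat_lit 196) (.e (nat_lit 524340) (nat_lit 28) (.e (nat_lit 360192) (nat_lit 19) .nil)))) (.g (nat_lit 0) (.e (nat_lit 335204) (nat_lit 0) .nil) .nil)))))) (.nd (nat_lit 7) (.nd (nat_lit 8) (.nd (nat_lit 9) 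
(.lf (nat_lit 566336) (.g (nat_lit 4285) (.e (nat_lit 434272) (nat_lit 38) (.e (nat_lit 655375) (nat_lit 3) (.e (nat_lit 163978) (nat_lit 30) (.e (nat_lit 573481) (nat_lit 13) (.e (nat_lit 65619) (nat_lit 10) (.e (nat_lit 344117) (nat_lit 21) (.e (nat_lit 516159) (nat_lit 10) .nil))))))) (.g (nat_lit 1) (.e (nat_lit 332117) (nat_lit 0) .nil) .nil))) 
(.lf (nat_lit 566848) (.g (nat_lit 2745) (.e (nat_lit 450304) (nat_lit 0) (.e (nat_lit 1788) (nat_lit 119) (.e (nat_lit 516120) (nat_lit 1) (.e (nat_lit 164329) (nat_lit 230) (.e (nat_lit 163902) (nat_lit 12) .nil))))) (.g (nat_lit 0) (.e (nat_lit 333274) (nat_lit 0) .nil) .nil)))) (.nd (nat_lit 9) 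
(.lf (nat_lit 566592) (.g (nat_lit 1223) (.e (nat_lit 442373) (nat_lit 0) (.e (nat_lit 1796) (nat_lit 119) (.e (nat_lit 516119) (nat_lit 1) (.e (nat_lit 164325) (nat_lit 230) .nil)))) (.g (nat_lit 0) (.e (nat_lit 332890) (nat_lit 0) .nil) .nil))) 
(.lf (nat_lit 567104) (.g (nat_lit 2344) (.e (nat_lit 450304) (nat_lit 18) (.e (nat_lit 393253) (nat_lit 18) (.e (nat_lit 164327) (nat_lit 230) (.e (nat_lit 163871) (nat_lit 2) (.e (nat_lit 196619) (nat_lit 9) .nil))))) (.g (nat_lit 0) (.e (nat_lit 334867) (nat_lit 0) .nil) .nil))))) (.nd (nat_lit 8) (.nd (nat_lit 9) 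
(.lf (nat_lit 566464) (.g (nat_lit 2680) (.e (nat_lit 434289) (nat_lit 43) (.e (nat_lit 696344) (nat_lit 8) (.e (nat_lit 172106) (nat_lit 10) (.e (nat_lit 434209) (nat_lit 18) (.e (nat_lit 6425) (nat_lit 342) (.e (nat_lit 229402) (nat_lit 12) (.e (nat_lit 426277) (nat_lit 10) .nil))))))) (.g (nat_lit 1) (.e (nat_lit 332655) (nat_lit 0) .nil) .nil))) 
(.lf (nat_lit 566976) (.g (nat_lit 2730) (.e (nat_lit 442390) (nat_lit 11) (.e (nat_lit 336229) (nat_lit 14) (.e (nat_lit 401448) (nat_lit 10) (.e (nat_lit 434289) (nat_lit 43) (.e (nat_lit 696327) (nat_lit 5) (.e (nat_lit 2988) (nat_lit 186) .nil)))))) (.g (nat_lit 1) (.e (nat_lit 334429) (nat_lit 0) .nil) .nil)))) (.nd (nat_lit 9) 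
(.lf (nat_lit 566720) (.g (nat_lit 2512) (.e (nat_lit 442374) (nat_lit 0) (.e (nat_lit 2175) (nat_lit 143) (.e (nat_lit 712755) (nat_lit 30) (.e (nat_lit 450593) (nat_lit 16) (.e (nat_lit 655363) (nat_lit 0) (.e (nat_lit 2988) (nat_lit 186) .nil)))))) (.g (nat_lit 1) (.e (nat_lit 333047) (nat_lit 0) .nil) .nil))) 
(.lf (nat_lit 567232) (.g (nat_lit 2021) (.e (nat_lit 442406) (nat_lit 20) (.e (nat_lit 3238) (nat_lit 197) (.e (nat_lit 532523) (nat_lit 7) (.e (nat_lit 319533) (nat_lit 16) (.e (nat_lit 286724) (nat_lit 0) .nil))))) (.g (nat_lit 0) (.e (nat_lit 335438) (nat_lit 0) .nil) .nil))))))) (.nd (nat_lit 6) (.nd (nat_lit 7) (.nd (nat_lit 8) (.nd (nat_lit 9) 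
(.lf (nat_lit 566304) (.g (nat_lit 2357) (.e (nat_lit 434271) (nat_lit 38) (.e (nat_lit 655380) (nat_lit 6) (.e (nat_lit 188439) (nat_lit 20) (.e (nat_lit 3409) (nat_lit 212) (.e (nat_lit 655378) (nat_lit 4) (.e (nat_lit 172106) (nat_lit 10) .nil)))))) (.g (nat_lit 1) (.e (nat_lit 332013) (nat_lit 0) .nil) .nil))) 
(.lf (nat_lit 566816) (.g (nat_lit 3743) (.e (nat_lit 442379) (nat_lit 0) (.e (nat_lit 1856) (nat_lit 124) (.e (nat_lit 557100) (nat_lit 13) (.e (nat_lit 172113) (nat_lit 10) (.e (nat_lit 434245) (nat_lit 28) (.e (nat_lit 573464) (nat_lit 9) (.e (nat_lit 461) (nat_lit 34) .nil))))))) (.g (nat_lit 1) (.e (nat_lit 333206) (nat_lit 0) .nil) .nil)))) (.nd (nat_lit 9) 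
(.lf (nat_lit 566560) (.g (nat_lit 2104) (.e (nat_lit 434295) (nat_lit 49) (.e (nat_lit 745491) (nat_lit 4) (.e (nat_lit 65617) (nat_lit 10) (.e (nat_lit 344133) (nat_lit 26) (.e (nat_lit 557118) (nat_lit 18) .nil))))) (.g (nat_lit 0) (.e (nat_lit 332822) (nat_lit 0) .nil) .nil))) 
(.lf (nat_lit 567072) (.g (nat_lit 1552) (.e (nat_lit 450304) (nat_lit 16) (.e (nat_lit 376860) (nat_lit 21) (.e (nat_lit 57854) (nat_lit 252) (.e (nat_lit 57388) (nat_lit 5) (.e (nat_lit 122624) (nat_lit 13) .nil))))) (.g (nat_lit 0) (.e (nat_lit 334795) (nat_lit 0) .nil) .nil))))) (.nd (nat_lit 8) (.nd (nat_lit 9) 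
(.lf (nat_lit 566432) (.g (nat_lit 1715) (.e (nat_lit 434288) (nat_lit 43) (.e (nat_lit 696344) (nat_lit 8) (.e (nat_lit 172113) (nat_lit 10) (.e (nat_lit 434203) (nat_lit 18) (.e (nat_lit 6416) (nat_lit 341) .nil))))) (.g (nat_lit 0) (.e (nat_lit 332511) (nat_lit 0) .nil) .nil))) 
(.lf (nat_lit 566944) (.g (nat_lit 1434) (.e (nat_lit 442383) (nat_lit 9) (.e (nat_lit 319490) (nat_lit 0) (.e (nat_lit 5293) (nat_lit 298) (.e (nat_lit 1176) (nat_lit 87) .nil)))) (.g (nat_lit 0) (.e (nat_lit 333539) (nat_lit 0) .nil) .nil)))) (.nd (nat_lit 9) 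
(.lf (nat_lit 566688) (.g (nat_lit 1088) (.e (nat_lit 442374) (nat_lit 0) (.e (nat_lit 2059) (nat_lit 142) (.e (nat_lit 704595) (nat_lit 5) (.e (nat_lit 180283) (nat_lit 45) .nil)))) (.g (nat_lit 0) (.e (nat_lit 333005) (nat_lit 0) .nil) .nil))) 
(.lf (nat_lit 567200) (.g (nat_lit 2848) (.e (nat_lit 442404) (nat_lit 20) (.e (nat_lit 3238) (nat_lit 197) (.e (nat_lit 532523) (nat_lit 7) (.e (nat_lit 319528) (nat_lit 16) (.e (nat_lit 286733) (nat_lit 2) (.e (nat_lit 90134) (nat_lit 9) (.e (nat_lit 3002) (nat_lit 186) .nil))))))) (.g (nat_lit 1) (.e (nat_lit 335377) (nat_lit 0) .nil) .nil)))))) 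
(.nd (nat_lit 7) (.nd (nat_lit 8) (.nd (nat_lit 9) 
(.lf (nat_lit 566368) (.g (nat_lit 1406) (.e (nat_lit 434272) (nat_lit 38) (.e (nat_lit 655378) (nat_lit 4) (.e (nat_lit 172126) (nat_lit 14) (.e (nat_lit 491549) (nat_lit 9) .nil)))) (.g (nat_lit 0) (.e (nat_lit 332324) (nat_lit 0) .nil) .nil))) 
(.lf (nat_lit 566880) (.g (nat_lit 3083) (.e (nat_lit 450304) (nat_lit 3) (.e (nat_lit 98334) (nat_lit 18) (.e (nat_lit 164330) (nat_lit 230) (.e (nat_lit 163902) (nat_lit 12) (.e (nat_lit 426484) (nat_lit 27) .nil))))) (.g (nat_lit 0) (.e (nat_lit 333327) (nat_lit 0) .nil) .nil)))) (.nd (nat_lit 9) 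
(.lf (nat_lit 566624) (.g (nat_lit 2202) (.e (nat_lit 442374) (nat_lit 0) (.e (nat_lit 1800) (nat_lit 119) (.e (nat_lit 516117) (nat_lit 1) (.e (nat_lit 164329) (nat_lit 230) (.e (nat_lit 163941) (nat_lit 19) (.e (nat_lit 491264) (nat_lit 11) .nil)))))) (.g (nat_lit 1) (.e (nat_lit 332929) (nat_lit 0) .nil) .nil))) 
(.lf (nat_lit 567136) (.g (nat_lit 1408) (.e (nat_lit 450304) (nat_lit 18) (.e (nat_lit 393254) (nat_lit 18) (.e (nat_lit 164403) (nat_lit 256) (.e (nat_lit 57376) (nat_lit 3) .nil)))) (.g (nat_lit 0) (.e (nat_lit 334915) (nat_lit 0) .nil) .nil))))) (.nd (nat_lit 8) (.nd (nat_lit 9) 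
(.lf (nat_lit 566496) (.g (nat_lit 3242) (.e (nat_lit 434289) (nat_lit 43) (.e (nat_lit 696344) (nat_lit 8) (.e (nat_lit 172116) (nat_lit 10) (.e (nat_lit 434289) (nat_lit 43) (.e (nat_lit 696344) (nat_lit 8) (.e (nat_lit 172112) (nat_lit 10) .nil)))))) (.g (nat_lit 1) (.e (nat_lit 332690) (nat_lit 0) .nil) .nil))) 
(.lf (nat_lit 567008) (.g (nat_lit 3044) (.e (nat_lit 442390) (nat_lit 11) (.e (nat_lit 336232) (nat_lit 14) (.e (nat_lit 401448) (nat_lit 10) (.e (nat_lit 434289) (nat_lit 43) (.e (nat_lit 696327) (nat_lit 5) (.e (nat_lit 2988) (nat_lit 186) .nil)))))) (.g (nat_lit 1) (.e (nat_lit 334604) (nat_lit 0) .nil) .nil)))) (.nd (nat_lit 9) 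
(.lf (nat_lit 566752) (.g (nat_lit 1185) (.e (nat_lit 442377) (nat_lit 0) (.e (nat_lit 2059) (nat_lit 142) (.e (nat_lit 704595) (nat_lit 5) (.e (nat_lit 188160) (nat_lit 39) .nil)))) (.g (nat_lit 0) (.e (nat_lit 333121) (nat_lit 0) .nil) .nil))) 
(.lf (nat_lit 567264) (.g (nat_lit 2094) (.e (nat_lit 442409) (nat_lit 20) (.e (nat_lit 3390) (nat_lit 210) (.e (nat_lit 639021) (nat_lit 16) (.e (nat_lit 65619) (nat_lit 10) (.e (nat_lit 344160) (nat_lit 37) (.e (nat_lit 647190) (nat_lit 9) (.e (nat_lit 7936) (nat_lit 34) .nil))))))) (.g (nat_lit 1) (.e (nat_lit 335700) (nat_lit 0) .nil) .nil)))))))) 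
(.nd (nat_lit 5) (.nd (nat_lit 6) (.nd (nat_lit 7) (.nd (nat_lit 8) (.nd (nat_lit 9) 
(.lf (nat_lit 566288) (.g (nat_lit 2952) (.e (nat_lit 434271) (nat_lit 38) (.e (nat_lit 655378) (nat_lit 4) (.e (nat_lit 172124) (nat_lit 14) (.e (nat_lit 491570) (nat_lit 13) (.e (nat_lit 393282) (nat_lit 24) .nil))))) (.g (nat_lit 1) (.e (nat_lit 331972) (nat_lit 0) .nil) .nil))) 
(.lf (nat_lit 566800) (.g (nat_lit 2128) (.e (nat_lit 442379) (nat_lit 0) (.e (nat_lit 1798) (nat_lit 119) (.e (nat_lit 516117) (nat_lit 1) (.e (nat_lit 164329) (nat_lit 230) (.e (nat_lit 163941) (nat_lit 19) (.e (nat_lit 491264) (nat_lit 11) .nil)))))) (.g (nat_lit 1) (.e (nat_lit 333185) (nat_lit 0) .nil) .nil)))) (.nd (nat_lit 9) 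
(.lf (nat_lit 566544) (.g (nat_lit 920) (.e (nat_lit 434292) (nat_lit 44) (.e (nat_lit 704737) (nat_lit 11) (.e (nat_lit 16448) (nat_lit 10) .nil))) (.g (nat_lit 0) (.e (nat_lit 332796) (nat_lit 0) .nil) .nil))) 
(.lf (nat_lit 567056) (.g (nat_lit 1593) (.e (nat_lit 450304) (nat_lit 16) (.e (nat_lit 376859) (nat_lit 21) (.e (nat_lit 57844) (nat_lit 252) (.e (nat_lit 57389) (nat_lit 5) (.e (nat_lit 122624) (nat_lit 13) .nil))))) (.g (nat_lit 0) (.e (nat_lit 334772) (nat_lit 0) .nil) .nil))))) (.nd (nat_lit 8) (.nd (nat_lit 9) 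
(.lf (nat_lit 566416) (.g (nat_lit 2603) (.e (nat_lit 434287) (nat_lit 43) (.e (nat_lit 696344) (nat_lit 8) (.e (nat_lit 172113) (nat_lit 10) (.e (nat_lit 434289) (nat_lit 43) (.e (nat_lit 696344) (nat_lit 8) (.e (nat_lit 172113) (nat_lit 10) .nil)))))) (.g (nat_lit 1) (.e (nat_lit 332477) (nat_lit 0) .nil) .nil))) 
(.lf (nat_lit 566928) (.g (nat_lit 410) (.e (nat_lit 450304) (nat_lit 3) (.e (nat_lit 98341) (nat_lit 20) (.e (nat_lit 229120) (nat_lit 12) .nil))) (.g (nat_lit 0) (.e (nat_lit 333393) (nat_lit 0) .nil) .nil)))) (.nd (nat_lit 9) 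
(.lf (nat_lit 566672) (.g (nat_lit 2670) (.e (nat_lit 442374) (nat_lit 0) (.e (nat_lit 1856) (nat_lit 124) (.e (nat_lit 557101) (nat_lit 13) (.e (nat_lit 172115) (nat_lit 10) (.e (nat_lit 434244) (nat_lit 28) (.e (nat_lit 573458) (nat_lit 9) (.e (nat_lit 7936) (nat_lit 34) .nil))))))) (.g (nat_lit 1) (.e (nat_lit 332982) (nat_lit 0) .nil) .nil))) 
(.lf (nat_lit 567184) (.g (nat_lit 2570) (.e (nat_lit 442402) (nat_lit 20) (.e (nat_lit 3406) (nat_lit 212) (.e (nat_lit 655376) (nat_lit 4) (.e (nat_lit 172126) (nat_lit 14) (.e (nat_lit 491550) (nat_lit 9) (.e (nat_lit 336430) (nat_lit 29) .nil)))))) (.g (nat_lit 1) (.e (nat_lit 335275) (nat_lit 0) .nil) .nil)))))) (.nd (nat_lit 7) (.nd (nat_lit 8) (.nd (nat_lit 9) 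
(.lf (nat_lit 566352) (.g (nat_lit 4038) (.e (nat_lit 434272) (nat_lit 38) (.e (nat_lit 655375) (nat_lit 3) (.e (nat_lit 163979) (nat_lit 30) (.e (nat_lit 573492) (nat_lit 15) (.e (nat_lit 81956) (nat_lit 23) (.e (nat_lit 106240) (nat_lit 27) .nil)))))) (.g (nat_lit 1) (.e (nat_lit 332192) (nat_lit 0) .nil) .nil))) 
(.lf (nat_lit 566864) (.g (nat_lit 1638) (.e (nat_lit 450304) (nat_lit 3) (.e (nat_lit 98333) (nat_lit 18) (.e (nat_lit 164325) (nat_lit 230) (.e (nat_lit 163942) (nat_lit 19) (.e (nat_lit 491264) (nat_lit 11) .nil))))) (.g (nat_lit 0) (.e (nat_lit 333305) (nat_lit 0) .nil) .nil)))) (.nd (nat_lit 9) 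
(.lf (nat_lit 566608) (.g (nat_lit 2095) (.e (nat_lit 442373) (nat_lit 0) (.e (nat_lit 1853) (nat_lit 124) (.e (nat_lit 557101) (nat_lit 13) (.e (nat_lit 172115) (nat_lit 10) (.e (nat_lit 434238) (nat_lit 25) (.e (nat_lit 548897) (nat_lit 14) (.e (nat_lit 3004) (nat_lit 186) .nil))))))) (.g (nat_lit 1) (.e (nat_lit 332908) (nat_lit 0) .nil) .nil))) 
(.lf (nat_lit 567120) (.g (nat_lit 1233) (.e (nat_lit 450304) (nat_lit 18) (.e (nat_lit 393254) (nat_lit 18) (.e (nat_lit 164324) (nat_lit 230) (.e (nat_lit 163872) (nat_lit 3) (.e (nat_lit 212736) (nat_lit 11) .nil))))) (.g (nat_lit 0) (.e (nat_lit 334892) (nat_lit 0) .nil) .nil))))) (.nd (nat_lit 8) (.nd (nat_lit 9) 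
(.lf (nat_lit 566480) (.g (nat_lit 2244) (.e (nat_lit 434289) (nat_lit 43) (.e (nat_lit 696344) (nat_lit 8) (.e (nat_lit 172113) (nat_lit 10) (.e (nat_lit 434287) (nat_lit 43) (.e (nat_lit 696344) (nat_lit 8) (.e (nat_lit 172112) (nat_lit 10) .nil)))))) (.g (nat_lit 1) (.e (nat_lit 332673) (nat_lit 0) .nil) .nil))) 
(.lf (nat_lit 566992) (.g (nat_lit 3191) (.e (nat_lit 442390) (nat_lit 11) (.e (nat_lit 336231) (nat_lit 14) (.e (nat_lit 401448) (nat_lit 10) (.e (nat_lit 434289) (nat_lit 43) (.e (nat_lit 696327) (nat_lit 5) (.e (nat_lit 2988) (nat_lit 186) .nil)))))) (.g (nat_lit 1) (.e (nat_lit 334528) (nat_lit 0) .nil) .nil)))) (.nd (nat_lit 9) 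
(.lf (nat_lit 566736) (.g (nat_lit 2175) (.e (nat_lit 442377) (nat_lit 0) (.e (nat_lit 1800) (nat_lit 119) (.e (nat_lit 516117) (nat_lit 1) (.e (nat_lit 164329) (nat_lit 230) (.e (nat_lit 163902) (nat_lit 12) .nil))))) (.g (nat_lit 0) (.e (nat_lit 333097) (nat_lit 0) .nil) .nil))) 
(.lf (nat_lit 567248) (.g (nat_lit 2261) (.e (nat_lit 442407) (nat_lit 20) (.e (nat_lit 3238) (nat_lit 197) (.e (nat_lit 532523) (nat_lit 7) (.e (nat_lit 319534) (nat_lit 16) (.e (nat_lit 286728) (nat_lit 0) .nil))))) (.g (nat_lit 0) (.e (nat_lit 335469) (nat_lit 0) .nil) .nil))))))) (.nd (nat_lit 6) (.nd (nat_lit 7) (.nd (nat_lit 8) (.nd (nat_lit 9) 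
(.lf (nat_lit 566320) (.g (nat_lit 423) (.e (nat_lit 434272) (nat_lit 38) (.e (nat_lit 655364) (nat_lit 0) (.e (nat_lit 3021) (nat_lit 187) .nil))) (.g (nat_lit 0) (.e (nat_lit 332074) (nat_lit 0) .nil) .nil))) 
(.lf (nat_lit 566832) (.g (nat_lit 779) (.e (nat_lit 442379) (nat_lit 0) (.e (nat_lit 2058) (nat_lit 142) (.e (nat_lit 704595) (nat_lit 5) (.e (nat_lit 188160) (nat_lit 32) .nil)))) (.g (nat_lit 0) (.e (nat_lit 333235) (nat_lit 0) .nil) .nil)))) (.nd (nat_lit 9) 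
(.lf (nat_lit 566576) (.g (nat_lit 1931) (.e (nat_lit 442372) (nat_lit 0) (.e (nat_lit 1800) (nat_lit 119) (.e (nat_lit 516119) (nat_lit 1) (.e (nat_lit 164326) (nat_lit 230) (.e (nat_lit 163903) (nat_lit 12) .nil))))) (.g (nat_lit 0) (.e (nat_lit 332871) (nat_lit 0) .nil) .nil))) 
(.lf (nat_lit 567088) (.g (nat_lit 2056) (.e (nat_lit 450304) (nat_lit 18) (.e (nat_lit 393251) (nat_lit 18) (.e (nat_lit 164403) (nat_lit 256) (.e (nat_lit 57377) (nat_lit 3) (.e (nat_lit 98369) (nat_lit 28) .nil))))) (.g (nat_lit 0) (.e (nat_lit 334840) (nat_lit 0) .nil) .nil))))) (.nd (nat_lit 8) (.nd (nat_lit 9) 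
(.lf (nat_lit 566448) (.g (nat_lit 1753) (.e (nat_lit 434289) (nat_lit 43) (.e (nat_lit 696343) (nat_lit 8) (.e (nat_lit 172113) (nat_lit 10) (.e (nat_lit 434288) (nat_lit 43) (.e (nat_lit 696344) (nat_lit 8) .nil))))) (.g (nat_lit 0) (.e (nat_lit 332625) (nat_lit 0) .nil) .nil))) 
(.lf (nat_lit 566960) (.g (nat_lit 1722) (.e (nat_lit 442389) (nat_lit 11) (.e (nat_lit 336390) (nat_lit 27) (.e (nat_lit 426098) (nat_lit 1) (.e (nat_lit 164397) (nat_lit 256) (.e (nat_lit 57379) (nat_lit 3) .nil))))) (.g (nat_lit 0) (.e (nat_lit 334229) (nat_lit 0) .nil) .nil)))) (.nd (nat_lit 9) 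
(.lf (nat_lit 566704) (.g (nat_lit 831) (.e (nat_lit 442374) (nat_lit 0) (.e (nat_lit 2059) (nat_lit 142) (.e (nat_lit 704599) (nat_lit 6) (.e (nat_lit 188454) (nat_lit 24) .nil)))) (.g (nat_lit 0) (.e (nat_lit 333025) (nat_lit 0) .nil) .nil))) 
(.lf (nat_lit 567216) (.g (nat_lit 1647) (.e (nat_lit 442406) (nat_lit 20) (.e (nat_lit 3238) (nat_lit 197) (.e (nat_lit 532502) (nat_lit 1) (.e (nat_lit 57688) (nat_lit 156) (.e (nat_lit 163902) (nat_lit 12) .nil))))) (.g (nat_lit 0) (.e (nat_lit 335417) (nat_lit 0) .nil) .nil)))))) (.nd (nat_lit 7) (.nd (nat_lit 8) (.nd (nat_lit 9) 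
(.lf (nat_lit 566384) (.g (nat_lit 2423) (.e (nat_lit 434272) (nat_lit 38) (.e (nat_lit 655380) (nat_lit 6) (.e (nat_lit 188438) (nat_lit 20) (.e (nat_lit 3409) (nat_lit 212) (.e (nat_lit 655378) (nat_lit 4) (.e (nat_lit 172106) (nat_lit 10) .nil)))))) (.g (nat_lit 1) (.e (nat_lit 332358) (nat_lit 0) .nil) .nil))) 
(.lf (nat_lit 566896) (.g (nat_lit 989) (.e (nat_lit 450304) (nat_lit 3) (.e (nat_lit 98335) (nat_lit 18) (.e (nat_lit 164325) (nat_lit 230) (.e (nat_lit 163944) (nat_lit 19) (.e (nat_lit 491264) (nat_lit 11) .nil))))) (.g (nat_lit 0) (.e (nat_lit 333350) (nat_lit 0) .nil) .nil)))) (.nd (nat_lit 9) 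
(.lf (nat_lit 566640) (.g (nat_lit 3087) (.e (nat_lit 442374) (nat_lit 0) (.e (nat_lit 1800) (nat_lit 119) (.e (nat_lit 516120) (nat_lit 1) (.e (nat_lit 164330) (nat_lit 230) (.e (nat_lit 163941) (nat_lit 19) (.e (nat_lit 491264) (nat_lit 11) .nil)))))) (.g (nat_lit 1) (.e (nat_lit 332945) (nat_lit 0) .nil) .nil))) 
(.lf (nat_lit 567152) (.g (nat_lit 176) (.e (nat_lit 442399) (nat_lit 20) (.e (nat_lit 3397) (nat_lit 211) (.e (nat_lit 647183) (nat_lit 4) .nil))) (.g (nat_lit 0) (.e (nat_lit 335100) (nat_lit 0) .nil) .nil))))) (.nd (nat_lit 8) (.nd (nat_lit 9) 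
(.lf (nat_lit 566512) (.g (nat_lit 2928) (.e (nat_lit 434289) (nat_lit 43) (.e (nat_lit 696346) (nat_lit 10) (.e (nat_lit 188435) (nat_lit 20) (.e (nat_lit 3469) (nat_lit 217) (.e (nat_lit 696344) (nat_lit 8) (.e (nat_lit 172107) (nat_lit 10) .nil)))))) (.g (nat_lit 1) (.e (nat_lit 332730) (nat_lit 0) .nil) .nil))) 
(.lf (nat_lit 567024) (.g (nat_lit 1385) (.e (nat_lit 450304) (nat_lit 13) (.e (nat_lit 352307) (nat_lit 21) (.e (nat_lit 57849) (nat_lit 252) (.e (nat_lit 57388) (nat_lit 5) (.e (nat_lit 122624) (nat_lit 13) .nil))))) (.g (nat_lit 0) (.e (nat_lit 334722) (nat_lit 0) .nil) .nil)))) (.nd (nat_lit 9) 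
(.lf (nat_lit 566768) (.g (nat_lit 1675) (.e (nat_lit 442378) (nat_lit 0) (.e (nat_lit 1800) (nat_lit 119) (.e (nat_lit 516117) (nat_lit 1) (.e (nat_lit 164329) (nat_lit 230) .nil)))) (.g (nat_lit 0) (.e (nat_lit 333142) (nat_lit 0) .nil) .nil))) 
(.lf (nat_lit 567280) (.g (nat_lit 2088) (.e (nat_lit 442409) (nat_lit 20) (.e (nat_lit 3409) (nat_lit 212) (.e (nat_lit 655378) (nat_lit 4) (.e (nat_lit 172079) (nat_lit 7) (.e (nat_lit 409618) (nat_lit 10) (.e (nat_lit 5364) (nat_lit 298) (.e (nat_lit 463) (nat_lit 34) .nil))))))) (.g (nat_lit 1) (.e (nat_lit 335767) (nat_lit 0) .nil) .nil))))))))) 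
(.nd (nat_lit 4) (.nd (nat_lit 5) (.nd (nat_lit 6) (.nd (nat_lit 7) (.nd (nat_lit 8) 
(.nd (nat_lit 9) 
(.lf (nat_lit 566280) (.g (nat_lit 3716) (.e (nat_lit 434271) (nat_lit 38) (.e (nat_lit 655375) (nat_lit 3) (.e (nat_lit 163979) (nat_lit 30) (.e (nat_lit 573491) (nat_lit 15) (.e (nat_lit 81954) (nat_lit 23) (.e (nat_lit 98366) (nat_lit 27) .nil)))))) (.g (nat_lit 1) (.e (nat_lit 331898) (nat_lit 0) .nil) .nil))) 
(.lf (nat_lit 566792) (.g (nat_lit 832) (.e (nat_lit 442378) (nat_lit 0) (.e (nat_lit 2175) (nat_lit 143) (.e (nat_lit 712745) (nat_lit 27) (.e (nat_lit 425984) (nat_lit 0) .nil)))) (.g (nat_lit 0) (.e (nat_lit 333168) (nat_lit 0) .nil) .nil)))) (.nd (nat_lit 9) 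
(.lf (nat_lit 566536) (.g (nat_lit 2231) (.e (nat_lit 434291) (nat_lit 44) (.e (nat_lit 704738) (nat_lit 11) (.e (nat_lit 16425) (nat_lit 7) (.e (nat_lit 409617) (nat_lit 10) (.e (nat_lit 848) (nat_lit 73) (.e (nat_lit 761902) (nat_lit 16) (.e (nat_lit 172109) (nat_lit 10) .nil))))))) (.g (nat_lit 1) (.e (nat_lit 332775) (nat_lit 0) .nil) .nil))) 
(.lf (nat_lit 567048) (.g (nat_lit 1137) (.e (nat_lit 450304) (nat_lit 16) (.e (nat_lit 376857) (nat_lit 21) (.e (nat_lit 57852) (nat_lit 252) (.e (nat_lit 57389) (nat_lit 5) (.e (nat_lit 122624) (nat_lit 13) .nil))))) (.g (nat_lit 0) (.e (nat_lit 334761) (nat_lit 0) .nil) .nil))))) (.nd (nat_lit 8) (.nd (nat_lit 9) 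
(.lf (nat_lit 566408) (.g (nat_lit 1579) (.e (nat_lit 434287) (nat_lit 43) (.e (nat_lit 696344) (nat_lit 8) (.e (nat_lit 172106) (nat_lit 10) (.e (nat_lit 434202) (nat_lit 18) (.e (nat_lit 6418) (nat_lit 341) .nil))))) (.g (nat_lit 0) (.e (nat_lit 332468) (nat_lit 0) .nil) .nil))) 
(.lf (nat_lit 566920) (.g (nat_lit 1601) (.e (nat_lit 450304) (nat_lit 3) (.e (nat_lit 98335) (nat_lit 18) (.e (nat_lit 164332) (nat_lit 230) (.e (nat_lit 163943) (nat_lit 19) (.e (nat_lit 491264) (nat_lit 11) .nil))))) (.g (nat_lit 0) (.e (nat_lit 333381) (nat_lit 0) .nil) .nil)))) (.nd (nat_lit 9) 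
(.lf (nat_lit 566664) (.g (nat_lit 1946) (.e (nat_lit 442374) (nat_lit 0) (.e (nat_lit 1856) (nat_lit 124) (.e (nat_lit 557098) (nat_lit 13) (.e (nat_lit 172115) (nat_lit 10) (.e (nat_lit 434244) (nat_lit 28) (.e (nat_lit 573458) (nat_lit 9) (.e (nat_lit 7936) (nat_lit 34) .nil))))))) (.g (nat_lit 1) (.e (nat_lit 332974) (nat_lit 0) .nil) .nil))) 
(.lf (nat_lit 567176) (.g (nat_lit 1768) (.e (nat_lit 442402) (nat_lit 20) (.e (nat_lit 3390) (nat_lit 210) (.e (nat_lit 639021) (nat_lit 16) (.e (nat_lit 65617) (nat_lit 10) (.e (nat_lit 344164) (nat_lit 37) (.e (nat_lit 647190) (nat_lit 9) (.e (nat_lit 7936) (nat_lit 34) .nil))))))) (.g (nat_lit 1) (.e (nat_lit 335267) (nat_lit 0) .nil) .nil)))))) 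
(.nd (nat_lit 7) (.nd (nat_lit 8) (.nd (nat_lit 9) 
(.lf (nat_lit 566344) (.g (nat_lit 2753) (.e (nat_lit 434272) (nat_lit 38) (.e (nat_lit 655375) (nat_lit 3) (.e (nat_lit 163979) (nat_lit 30) (.e (nat_lit 573479) (nat_lit 13) (.e (nat_lit 65619) (nat_lit 10) .nil))))) (.g (nat_lit 0) (.e (nat_lit 332184) (nat_lit 0) .nil) .nil))) 
(.lf (nat_lit 566856) (.g (nat_lit 1484) (.e (nat_lit 450304) (nat_lit 0) (.e (nat_lit 2031) (nat_lit 140) (.e (nat_lit 688177) (nat_lit 16) (.e (nat_lit 65617) (nat_lit 10) (.e (nat_lit 344095) (nat_lit 18) .nil))))) (.g (nat_lit 0) (.e (nat_lit 333283) (nat_lit 0) .nil) .nil)))) (.nd (nat_lit 9) 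
(.lf (nat_lit 566600) (.g (nat_lit 2065) (.e (nat_lit 442373) (nat_lit 0) (.e (nat_lit 1853) (nat_lit 124) (.e (nat_lit 557097) (nat_lit 13) (.e (nat_lit 172115) (nat_lit 10) (.e (nat_lit 434238) (nat_lit 25) (.e (nat_lit 548897) (nat_lit 14) (.e (nat_lit 2988) (nat_lit 186) .nil))))))) (.g (nat_lit 1) (.e (nat_lit 332900) (nat_lit 0) .nil) .nil))) 
(.lf (nat_lit 567112) (.g (nat_lit 1518) (.e (nat_lit 450304) (nat_lit 18) (.e (nat_lit 393253) (nat_lit 18) (.e (nat_lit 164331) (nat_lit 230) (.e (nat_lit 163873) (nat_lit 3) (.e (nat_lit 212736) (nat_lit 11) .nil))))) (.g (nat_lit 0) (.e (nat_lit 334875) (nat_lit 0) .nil) .nil))))) (.nd (nat_lit 8) (.nd (nat_lit 9) 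
(.lf (nat_lit 566472) (.g (nat_lit 3679) (.e (nat_lit 434289) (nat_lit 43) (.e (nat_lit 696344) (nat_lit 8) (.e (nat_lit 172106) (nat_lit 10) (.e (nat_lit 434289) (nat_lit 43) (.e (nat_lit 696344) (nat_lit 8) (.e (nat_lit 172107) (nat_lit 10) .nil)))))) (.g (nat_lit 1) (.e (nat_lit 332664) (nat_lit 0) .nil) .nil))) 
(.lf (nat_lit 566984) (.g (nat_lit 4166) (.e (nat_lit 442390) (nat_lit 11) (.e (nat_lit 336230) (nat_lit 14) (.e (nat_lit 401448) (nat_lit 10) (.e (nat_lit 434209) (nat_lit 18) (.e (nat_lit 6425) (nat_lit 342) (.e (nat_lit 229412) (nat_lit 14) .nil)))))) (.g (nat_lit 1) (.e (nat_lit 334456) (nat_lit 0) .nil) .nil)))) (.nd (nat_lit 9) 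
(.lf (nat_lit 566728) (.g (nat_lit 1378) (.e (nat_lit 442377) (nat_lit 0) (.e (nat_lit 1781) (nat_lit 119) (.e (nat_lit 516120) (nat_lit 1) (.e (nat_lit 164329) (nat_lit 230) (.e (nat_lit 163941) (nat_lit 19) .nil))))) (.g (nat_lit 0) (.e (nat_lit 333086) (nat_lit 0) .nil) .nil))) 
(.lf (nat_lit 567240) (.g (nat_lit 3650) (.e (nat_lit 442406) (nat_lit 20) (.e (nat_lit 3238) (nat_lit 197) (.e (nat_lit 532523) (nat_lit 7) (.e (nat_lit 319534) (nat_lit 16) (.e (nat_lit 286732) (nat_lit 2) (.e (nat_lit 90134) (nat_lit 9) (.e (nat_lit 3002) (nat_lit 186) .nil))))))) (.g (nat_lit 1) (.e (nat_lit 335446) (nat_lit 0) .nil) .nil))))))) 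
(.nd (nat_lit 6) (.nd (nat_lit 7) (.nd (nat_lit 8) (.nd (nat_lit 9) 
(.lf (nat_lit 566312) (.g (nat_lit 2814) (.e (nat_lit 434271) (nat_lit 38) (.e (nat_lit 655380) (nat_lit 6) (.e (nat_lit 188455) (nat_lit 24) (.e (nat_lit 229663) (nat_lit 240) (.e (nat_lit 2622) (nat_lit 164) .nil))))) (.g (nat_lit 0) (.e (nat_lit 332038) (nat_lit 0) .nil) .nil))) 
(.lf (nat_lit 566824) (.g (nat_lit 2226) (.e (nat_lit 442379) (nat_lit 0) (.e (nat_lit 1856) (nat_lit 124) (.e (nat_lit 557101) (nat_lit 13) (.e (nat_lit 172115) (nat_lit 10) (.e (nat_lit 434244) (nat_lit 28) (.e (nat_lit 573449) (nat_lit 9) (.e (nat_lit 454) (nat_lit 34) .nil))))))) (.g (nat_lit 1) (.e (nat_lit 333214) (nat_lit 0) .nil) .nil)))) (.nd (nat_lit 9) 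
(.lf (nat_lit 566568) (.g (nat_lit 3743) (.e (nat_lit 442368) (nat_lit 0) (.e (nat_lit 1862) (nat_lit 124) (.e (nat_lit 557101) (nat_lit 13) (.e (nat_lit 172115) (nat_lit 10) (.e (nat_lit 434244) (nat_lit 28) (.e (nat_lit 573450) (nat_lit 9) (.e (nat_lit 457) (nat_lit 34) .nil))))))) (.g (nat_lit 1) (.e (nat_lit 332833) (nat_lit 0) .nil) .nil))) 
(.lf (nat_lit 567080) (.g (nat_lit 1393) (.e (nat_lit 450304) (nat_lit 18) (.e (nat_lit 393251) (nat_lit 18) (.e (nat_lit 164332) (nat_lit 230) (.e (nat_lit 163873) (nat_lit 3) (.e (nat_lit 212736) (nat_lit 11) .nil))))) (.g (nat_lit 0) (.e (nat_lit 334817) (nat_lit 0) .nil) .nil))))) (.nd (nat_lit 8) (.nd (nat_lit 9) 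
(.lf (nat_lit 566440) (.g (nat_lit 3227) (.e (nat_lit 434289) (nat_lit 43) (.e (nat_lit 696330) (nat_lit 5) (.e (nat_lit 2988) (nat_lit 186) (.e (nat_lit 442390) (nat_lit 11) (.e (nat_lit 336232) (nat_lit 14) (.e (nat_lit 401448) (nat_lit 10) .nil)))))) (.g (nat_lit 1) (.e (nat_lit 332548) (nat_lit 0) .nil) .nil))) 
(.lf (nat_lit 566952) (.g (nat_lit 1080) (.e (nat_lit 442385) (nat_lit 11) (.e (nat_lit 335996) (nat_lit 1) (.e (nat_lit 57692) (nat_lit 156) (.e (nat_lit 163907) (nat_lit 12) .nil)))) (.g (nat_lit 0) (.e (nat_lit 333835) (nat_lit 0) .nil) .nil)))) (.nd (nat_lit 9) 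
(.lf (nat_lit 566696) (.g (nat_lit 2670) (.e (nat_lit 442374) (nat_lit 0) (.e (nat_lit 2059) (nat_lit 142) (.e (nat_lit 704598) (nat_lit 6) (.e (nat_lit 188435) (nat_lit 20) (.e (nat_lit 3408) (nat_lit 212) (.e (nat_lit 655364) (nat_lit 0) (.e (nat_lit 3004) (nat_lit 186) .nil))))))) (.g (nat_lit 1) (.e (nat_lit 333017) (nat_lit 0) .nil) .nil))) 
(.lf (nat_lit 567208) (.g (nat_lit 1557) (.e (nat_lit 442404) (nat_lit 20) (.e (nat_lit 3238) (nat_lit 197) (.e (nat_lit 532523) (nat_lit 7) (.e (nat_lit 327424) (nat_lit 16) .nil)))) (.g (nat_lit 0) (.e (nat_lit 335386) (nat_lit 0) .nil) .nil)))))) (.nd (nat_lit 7) (.nd (nat_lit 8) (.nd (nat_lit 9) 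
(.lf (nat_lit 566376) (.g (nat_lit 2594) (.e (nat_lit 434272) (nat_lit 38) (.e (nat_lit 655378) (nat_lit 4) (.e (nat_lit 172126) (nat_lit 14) (.e (nat_lit 491569) (nat_lit 13) (.e (nat_lit 393284) (nat_lit 24) .nil))))) (.g (nat_lit 0) (.e (nat_lit 332350) (nat_lit 0) .nil) .nil))) 
(.lf (nat_lit 566888) (.g (nat_lit 1421) (.e (nat_lit 450304) (nat_lit 3) (.e (nat_lit 98334) (nat_lit 18) (.e (nat_lit 164332) (nat_lit 230) (.e (nat_lit 163943) (nat_lit 19) (.e (nat_lit 491264) (nat_lit 11) .nil))))) (.g (nat_lit 0) (.e (nat_lit 333338) (nat_lit 0) .nil) .nil)))) (.nd (nat_lit 9) 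
(.lf (nat_lit 566632) (.g (nat_lit 2241) (.e (nat_lit 442374) (nat_lit 0) (.e (nat_lit 1800) (nat_lit 119) (.e (nat_lit 516119) (nat_lit 1) (.e (nat_lit 164325) (nat_lit 230) (.e (nat_lit 163942) (nat_lit 19) (.e (nat_lit 491264) (nat_lit 11) .nil)))))) (.g (nat_lit 1) (.e (nat_lit 332937) (nat_lit 0) .nil) .nil))) 
(.lf (nat_lit 567144) (.g (nat_lit 2514) (.e (nat_lit 442392) (nat_lit 20) (.e (nat_lit 3297) (nat_lit 202) (.e (nat_lit 573450) (nat_lit 9) (.e (nat_lit 375) (nat_lit 32) (.e (nat_lit 426173) (nat_lit 7) .nil))))) (.g (nat_lit 0) (.e (nat_lit 334967) (nat_lit 0) .nil) .nil))))) (.nd (nat_lit 8) (.nd (nat_lit 9) 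
(.lf (nat_lit 566504) (.g (nat_lit 3326) (.e (nat_lit 434289) (nat_lit 43) (.e (nat_lit 696346) (nat_lit 10) (.e (nat_lit 188423) (nat_lit 11) (.e (nat_lit 336232) (nat_lit 14) (.e (nat_lit 401448) (nat_lit 10) .nil))))) (.g (nat_lit 1) (.e (nat_lit 332721) (nat_lit 0) .nil) .nil))) 
(.lf (nat_lit 567016) (.g (nat_lit 409) (.e (nat_lit 450304) (nat_lit 11) (.e (nat_lit 336459) (nat_lit 35) (.e (nat_lit 491563) (nat_lit 12) .nil))) (.g (nat_lit 0) (.e (nat_lit 334710) (nat_lit 0) .nil) .nil)))) (.nd (nat_lit 9) 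
(.lf (nat_lit 566760) (.g (nat_lit 1644) (.e (nat_lit 442377) (nat_lit 0) (.e (nat_lit 2174) (nat_lit 143) (.e (nat_lit 712745) (nat_lit 27) (.e (nat_lit 425984) (nat_lit 0) (.e (nat_lit 7586) (nat_lit 406) .nil))))) (.g (nat_lit 0) (.e (nat_lit 333131) (nat_lit 0) .nil) .nil))) 
(.lf (nat_lit 567272) (.g (nat_lit 2703) (.e (nat_lit 442409) (nat_lit 20) (.e (nat_lit 3407) (nat_lit 212) (.e (nat_lit 655378) (nat_lit 4) (.e (nat_lit 172125) (nat_lit 14) (.e (nat_lit 491550) (nat_lit 9) (.e (nat_lit 336430) (nat_lit 29) .nil)))))) (.g (nat_lit 1) (.e (nat_lit 335731) (nat_lit 0) .nil) .nil)))))))) 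
(.nd (nat_lit 5) (.nd (nat_lit 6) (.nd (nat_lit 7) (.nd (nat_lit 8) (.nd (nat_lit 9) 
(.lf (nat_lit 566296) (.g (nat_lit 3212) (.e (nat_lit 434271) (nat_lit 38) (.e (nat_lit 655378) (nat_lit 4) (.e (nat_lit 172126) (nat_lit 14) (.e (nat_lit 491570) (nat_lit 13) (.e (nat_lit 393282) (nat_lit 24) .nil))))) (.g (nat_lit 1) (.e (nat_lit 332002) (nat_lit 0) .nil) .nil))) 
(.lf (nat_lit 566808) (.g (nat_lit 3732) (.e (nat_lit 442379) (nat_lit 0) (.e (nat_lit 1855) (nat_lit 124) (.e (nat_lit 557098) (nat_lit 13) (.e (nat_lit 172115) (nat_lit 10) (.e (nat_lit 434244) (nat_lit 28) (.e (nat_lit 573450) (nat_lit 9) (.e (nat_lit 459) (nat_lit 34) .nil))))))) (.g (nat_lit 1) (.e (nat_lit 333198) (nat_lit 0) .nil) .nil)))) (.nd (nat_lit 9) 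
(.lf (nat_lit 566552) (.g (nat_lit 1988) (.e (nat_lit 434295) (nat_lit 49) (.e (nat_lit 745490) (nat_lit 4) (.e (nat_lit 65610) (nat_lit 10) (.e (nat_lit 344129) (nat_lit 26) (.e (nat_lit 557119) (nat_lit 18) .nil))))) (.g (nat_lit 0) (.e (nat_lit 332814) (nat_lit 0) .nil) .nil))) 
(.lf (nat_lit 567064) (.g (nat_lit 612) (.e (nat_lit 450304) (nat_lit 16) (.e (nat_lit 376860) (nat_lit 21) (.e (nat_lit 57844) (nat_lit 252) .nil))) (.g (nat_lit 0) (.e (nat_lit 334781) (nat_lit 0) .nil) .nil))))) (.nd (nat_lit 8) (.nd (nat_lit 9) 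
(.lf (nat_lit 566424) (.g (nat_lit 1154) (.e (nat_lit 434288) (nat_lit 43) (.e (nat_lit 696344) (nat_lit 8) (.e (nat_lit 172095) (nat_lit 9) (.e (nat_lit 426513) (nat_lit 27) .nil)))) (.g (nat_lit 0) (.e (nat_lit 332503) (nat_lit 0) .nil) .nil))) 
(.lf (nat_lit 566936) (.g (nat_lit 900) (.e (nat_lit 450304) (nat_lit 3) (.e (nat_lit 98342) (nat_lit 20) (.e (nat_lit 229120) (nat_lit 12) (.e (nat_lit 344107) (nat_lit 19) (.e (nat_lit 499840) (nat_lit 5) .nil))))) (.g (nat_lit 0) (.e (nat_lit 333403) (nat_lit 0) .nil) .nil)))) (.nd (nat_lit 9) 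
(.lf (nat_lit 566680) (.g (nat_lit 3251) (.e (nat_lit 442374) (nat_lit 0) (.e (nat_lit 1856) (nat_lit 124) (.e (nat_lit 557107) (nat_lit 15) (.e (nat_lit 188441) (nat_lit 20) (.e (nat_lit 3272) (nat_lit 199) (.e (nat_lit 548898) (nat_lit 14) (.e (nat_lit 3004) (nat_lit 186) .nil))))))) (.g (nat_lit 1) (.e (nat_lit 332990) (nat_lit 0) .nil) .nil))) 
(.lf (nat_lit 567192) (.g (nat_lit 2228) (.e (nat_lit 442403) (nat_lit 20) (.e (nat_lit 3391) (nat_lit 210) (.e (nat_lit 639021) (nat_lit 16) (.e (nat_lit 65610) (nat_lit 10) (.e (nat_lit 344160) (nat_lit 37) (.e (nat_lit 647190) (nat_lit 9) (.e (nat_lit 7936) (nat_lit 34) .nil))))))) (.g (nat_lit 1) (.e (nat_lit 335351) (nat_lit 0) .nil) .nil)))))) 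
(.nd (nat_lit 7) (.nd (nat_lit 8) (.nd (nat_lit 9) 
(.lf (nat_lit 566360) (.g (nat_lit 2385) (.e (nat_lit 434272) (nat_lit 38) (.e (nat_lit 655378) (nat_lit 4) (.e (nat_lit 172097) (nat_lit 9) (.e (nat_lit 426025) (nat_lit 0) (.e (nat_lit 3397) (nat_lit 211) (.e (nat_lit 647183) (nat_lit 4) (.e (nat_lit 172107) (nat_lit 10) .nil))))))) (.g (nat_lit 1) (.e (nat_lit 332236) (nat_lit 0) .nil) .nil))) 
(.lf (nat_lit 566872) (.g (nat_lit 1262) (.e (nat_lit 450304) (nat_lit 3) (.e (nat_lit 98333) (nat_lit 18) (.e (nat_lit 164332) (nat_lit 230) (.e (nat_lit 163942) (nat_lit 19) (.e (nat_lit 491264) (nat_lit 11) .nil))))) (.g (nat_lit 0) (.e (nat_lit 333316) (nat_lit 0) .nil) .nil)))) (.nd (nat_lit 9) 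
(.lf (nat_lit 566616) (.g (nat_lit 1934) (.e (nat_lit 442373) (nat_lit 0) (.e (nat_lit 1853) (nat_lit 124) (.e (nat_lit 557107) (nat_lit 15) (.e (nat_lit 188439) (nat_lit 20) (.e (nat_lit 3272) (nat_lit 199) (.e (nat_lit 548898) (nat_lit 14) (.e (nat_lit 2989) (nat_lit 186) .nil))))))) (.g (nat_lit 1) (.e (nat_lit 332916) (nat_lit 0) .nil) .nil))) 
(.lf (nat_lit 567128) (.g (nat_lit 1080) (.e (nat_lit 450304) (nat_lit 18) (.e (nat_lit 393254) (nat_lit 18) (.e (nat_lit 164326) (nat_lit 230) (.e (nat_lit 163875) (nat_lit 3) (.e (nat_lit 212736) (nat_lit 11) .nil))))) (.g (nat_lit 0) (.e (nat_lit 334903) (nat_lit 0) .nil) .nil))))) (.nd (nat_lit 8) (.nd (nat_lit 9) 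
(.lf (nat_lit 566488) (.g (nat_lit 3882) (.e (nat_lit 434289) (nat_lit 43) (.e (nat_lit 696344) (nat_lit 8) (.e (nat_lit 172113) (nat_lit 10) (.e (nat_lit 434289) (nat_lit 43) (.e (nat_lit 696344) (nat_lit 8) (.e (nat_lit 172115) (nat_lit 10) .nil)))))) (.g (nat_lit 1) (.e (nat_lit 332681) (nat_lit 0) .nil) .nil))) 
(.lf (nat_lit 567000) (.g (nat_lit 273) (.e (nat_lit 442390) (nat_lit 11) (.e (nat_lit 336232) (nat_lit 14) (.e (nat_lit 401448) (nat_lit 10) .nil))) (.g (nat_lit 0) (.e (nat_lit 334575) (nat_lit 0) .nil) .nil)))) (.nd (nat_lit 9) 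
(.lf (nat_lit 566744) (.g (nat_lit 1915) (.e (nat_lit 442377) (nat_lit 0) (.e (nat_lit 1800) (nat_lit 119) (.e (nat_lit 516120) (nat_lit 1) (.e (nat_lit 164332) (nat_lit 230) (.e (nat_lit 163942) (nat_lit 19) .nil))))) (.g (nat_lit 0) (.e (nat_lit 333105) (nat_lit 0) .nil) .nil))) 
(.lf (nat_lit 567256) (.g (nat_lit 2248) (.e (nat_lit 442408) (nat_lit 20) (.e (nat_lit 3391) (nat_lit 210) (.e (nat_lit 639021) (nat_lit 16) (.e (nat_lit 65617) (nat_lit 10) (.e (nat_lit 344161) (nat_lit 37) (.e (nat_lit 647190) (nat_lit 9) (.e (nat_lit 7936) (nat_lit 34) .nil))))))) (.g (nat_lit 1) (.e (nat_lit 335546) (nat_lit 0) .nil) .nil))))))) 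
(.nd (nat_lit 6) (.nd (nat_lit 7) (.nd (nat_lit 8) (.nd (nat_lit 9) 
(.lf (nat_lit 566328) (.g (nat_lit 2834) (.e (nat_lit 434272) (nat_lit 38) (.e (nat_lit 655375) (nat_lit 3) (.e (nat_lit 163977) (nat_lit 30) (.e (nat_lit 573481) (nat_lit 13) (.e (nat_lit 65604) (nat_lit 9) (.e (nat_lit 336028) (nat_lit 3) (.e (nat_lit 98366) (nat_lit 27) .nil))))))) (.g (nat_lit 1) (.e (nat_lit 332109) (nat_lit 0) .nil) .nil))) 
(.lf (nat_lit 566840) (.g (nat_lit 2044) (.e (nat_lit 442379) (nat_lit 0) (.e (nat_lit 2059) (nat_lit 142) (.e (nat_lit 704595) (nat_lit 5) (.e (nat_lit 180292) (nat_lit 49) (.e (nat_lit 229646) (nat_lit 232) (.e (nat_lit 464) (nat_lit 34) .nil)))))) (.g (nat_lit 1) (.e (nat_lit 333253) (nat_lit 0) .nil) .nil)))) (.nd (nat_lit 9) 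
(.lf (nat_lit 566584) (.g (nat_lit 2811) (.e (nat_lit 442372) (nat_lit 0) (.e (nat_lit 1855) (nat_lit 124) (.e (nat_lit 557101) (nat_lit 13) (.e (nat_lit 172115) (nat_lit 10) (.e (nat_lit 434244) (nat_lit 28) (.e (nat_lit 573458) (nat_lit 9) (.e (nat_lit 7936) (nat_lit 34) .nil))))))) (.g (nat_lit 1) (.e (nat_lit 332879) (nat_lit 0) .nil) .nil))) 
(.lf (nat_lit 567096) (.g (nat_lit 1618) (.e (nat_lit 450304) (nat_lit 18) (.e (nat_lit 393253) (nat_lit 18) (.e (nat_lit 164324) (nat_lit 230) (.e (nat_lit 163873) (nat_lit 3) (.e (nat_lit 212736) (nat_lit 11) .nil))))) (.g (nat_lit 0) (.e (nat_lit 334855) (nat_lit 0) .nil) .nil))))) (.nd (nat_lit 8) (.nd (nat_lit 9) 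
(.lf (nat_lit 566456) (.g (nat_lit 618) (.e (nat_lit 434289) (nat_lit 43) (.e (nat_lit 696344) (nat_lit 8) (.e (nat_lit 172089) (nat_lit 9) .nil))) (.g (nat_lit 0) (.e (nat_lit 332645) (nat_lit 0) .nil) .nil))) 
(.lf (nat_lit 566968) (.g (nat_lit 3136) (.e (nat_lit 442390) (nat_lit 11) (.e (nat_lit 335986) (nat_lit 1) (.e (nat_lit 57688) (nat_lit 156) (.e (nat_lit 163907) (nat_lit 12) (.e (nat_lit 426436) (nat_lit 18) (.e (nat_lit 98369) (nat_lit 28) .nil)))))) (.g (nat_lit 1) (.e (nat_lit 334380) (nat_lit 0) .nil) .nil)))) (.nd (nat_lit 9) 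
(.lf (nat_lit 566712) (.g (nat_lit 1215) (.e (nat_lit 442374) (nat_lit 0) (.e (nat_lit 2175) (nat_lit 143) (.e (nat_lit 712750) (nat_lit 29) (.e (nat_lit 442429) (nat_lit 24) .nil)))) (.g (nat_lit 0) (.e (nat_lit 333036) (nat_lit 0) .nil) .nil))) 
(.lf (nat_lit 567224) (.g (nat_lit 1725) (.e (nat_lit 442406) (nat_lit 20) (.e (nat_lit 3238) (nat_lit 197) (.e (nat_lit 532523) (nat_lit 7) (.e (nat_lit 319505) (nat_lit 10) (.e (nat_lit 5395) (nat_lit 301) (.e (nat_lit 57464) (nat_lit 23) (.e (nat_lit 516162) (nat_lit 11) .nil))))))) (.g (nat_lit 1) (.e (nat_lit 335430) (nat_lit 0) .nil) .nil)))))) 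
(.nd (nat_lit 7) (.nd (nat_lit 8) (.nd (nat_lit 9) 
(.lf (nat_lit 566392) (.g (nat_lit 2539) (.e (nat_lit 434272) (nat_lit 38) (.e (nat_lit 655380) (nat_lit 6) (.e (nat_lit 188441) (nat_lit 20) (.e (nat_lit 3408) (nat_lit 212) (.e (nat_lit 655378) (nat_lit 4) (.e (nat_lit 172107) (nat_lit 10) .nil)))))) (.g (nat_lit 1) (.e (nat_lit 332366) (nat_lit 0) .nil) .nil))) 
(.lf (nat_lit 566904) (.g (nat_lit 2619) (.e (nat_lit 450304) (nat_lit 3) (.e (nat_lit 98335) (nat_lit 18) (.e (nat_lit 164330) (nat_lit 230) (.e (nat_lit 163902) (nat_lit 12) (.e (nat_lit 426478) (nat_lit 27) .nil))))) (.g (nat_lit 0) (.e (nat_lit 333361) (nat_lit 0) .nil) .nil)))) (.nd (nat_lit 9) 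
(.lf (nat_lit 566648) (.g (nat_lit 1619) (.e (nat_lit 442374) (nat_lit 0) (.e (nat_lit 1800) (nat_lit 119) (.e (nat_lit 516124) (nat_lit 2) (.e (nat_lit 213032) (nat_lit 11) (.e (nat_lit 24609) (nat_lit 3) .nil))))) (.g (nat_lit 0) (.e (nat_lit 332953) (nat_lit 0) .nil) .nil))) 
(.lf (nat_lit 567160) (.g (nat_lit 693) (.e (nat_lit 442399) (nat_lit 20) (.e (nat_lit 3402) (nat_lit 211) (.e (nat_lit 647183) (nat_lit 4) (.e (nat_lit 172038) (nat_lit 0) .nil)))) (.g (nat_lit 0) (.e (nat_lit 335148) (nat_lit 0) .nil) .nil))))) (.nd (nat_lit 8) (.nd (nat_lit 9) 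
(.lf (nat_lit 566520) (.g (nat_lit 3307) (.e (nat_lit 434289) (nat_lit 43) (.e (nat_lit 696346) (nat_lit 10) (.e (nat_lit 188440) (nat_lit 20) (.e (nat_lit 3469) (nat_lit 217) (.e (nat_lit 696344) (nat_lit 8) (.e (nat_lit 172107) (nat_lit 10) .nil)))))) (.g (nat_lit 1) (.e (nat_lit 332739) (nat_lit 0) .nil) .nil))) 
(.lf (nat_lit 567032) (.g (nat_lit 1567) (.e (nat_lit 450304) (nat_lit 13) (.e (nat_lit 352309) (nat_lit 21) (.e (nat_lit 57848) (nat_lit 252) (.e (nat_lit 57390) (nat_lit 5) (.e (nat_lit 122624) (nat_lit 13) .nil))))) (.g (nat_lit 0) (.e (nat_lit 334730) (nat_lit 0) .nil) .nil)))) (.nd (nat_lit 9) 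
(.lf (nat_lit 566776) (.g (nat_lit 2076) (.e (nat_lit 442378) (nat_lit 0) (.e (nat_lit 1856) (nat_lit 124) (.e (nat_lit 557101) (nat_lit 13) (.e (nat_lit 172115) (nat_lit 10) (.e (nat_lit 434238) (nat_lit 25) .nil))))) (.g (nat_lit 0) (.e (nat_lit 333150) (nat_lit 0) .nil) .nil))) 
(.lf (nat_lit 567288) (.g (nat_lit 1230) (.e (nat_lit 442410) (nat_lit 20) (.e (nat_lit 3272) (nat_lit 199) (.e (nat_lit 548913) (nat_lit 18) (.e (nat_lit 172124) (nat_lit 14) .nil)))) (.g (nat_lit 0) (.e (nat_lit 335844) (nat_lit 0) .nil) .nil)))))))))) (.nd (nat_lit 3) (.nd (nat_lit 4) (.nd (nat_lit 5) (.nd (nat_lit 6) (.nd (nat_lit 7) (.nd (nat_lit 8) (.nd (nat_lit 9) 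
(.lf (nat_lit 566276) (.g (nat_lit 4078) (.e (nat_lit 434271) (nat_lit 38) (.e (nat_lit 655375) (nat_lit 3) (.e (nat_lit 163979) (nat_lit 30) (.e (nat_lit 573481) (nat_lit 13) (.e (nat_lit 65604) (nat_lit 9) (.e (nat_lit 336028) (nat_lit 3) (.e (nat_lit 98367) (nat_lit 27) .nil))))))) (.g (nat_lit 1) (.e (nat_lit 331894) (nat_lit 0) .nil) .nil))) 
(.lf (nat_lit 566788) (.g (nat_lit 1110) (.e (nat_lit 442378) (nat_lit 0) (.e (nat_lit 2059) (nat_lit 142) (.e (nat_lit 704596) (nat_lit 5) (.e (nat_lit 188160) (nat_lit 32) .nil)))) (.g (nat_lit 0) (.e (nat_lit 333163) (nat_lit 0) .nil) .nil)))) (.nd (nat_lit 9) 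
(.lf (nat_lit 566532) (.g (nat_lit 2583) (.e (nat_lit 434291) (nat_lit 44) (.e (nat_lit 704738) (nat_lit 11) (.e (nat_lit 16425) (nat_lit 7) (.e (nat_lit 409617) (nat_lit 10) (.e (nat_lit 848) (nat_lit 73) (.e (nat_lit 761900) (nat_lit 16) (.e (nat_lit 172111) (nat_lit 10) .nil))))))) (.g (nat_lit 1) (.e (nat_lit 332771) (nat_lit 0) .nil) .nil))) 
(.lf (nat_lit 567044) (.g (nat_lit 1301) (.e (nat_lit 450304) (nat_lit 16) (.e (nat_lit 376857) (nat_lit 21) (.e (nat_lit 57849) (nat_lit 252) (.e (nat_lit 57390) (nat_lit 5) (.e (nat_lit 122624) (nat_lit 13) .nil))))) (.g (nat_lit 0) (.e (nat_lit 334757) (nat_lit 0) .nil) .nil))))) (.nd (nat_lit 8) (.nd (nat_lit 9) 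
(.lf (nat_lit 566404) (.g (nat_lit 4243) (.e (nat_lit 434272) (nat_lit 38) (.e (nat_lit 655380) (nat_lit 6) (.e (nat_lit 188455) (nat_lit 24) (.e (nat_lit 229678) (nat_lit 244) (.e (nat_lit 163908) (nat_lit 12) (.e (nat_lit 426286) (nat_lit 10) .nil)))))) (.g (nat_lit 1) (.e (nat_lit 332385) (nat_lit 0) .nil) .nil))) 
(.lf (nat_lit 566916) (.g (nat_lit 1144) (.e (nat_lit 450304) (nat_lit 3) (.e (nat_lit 98335) (nat_lit 18) (.e (nat_lit 164332) (nat_lit 230) (.e (nat_lit 163905) (nat_lit 12) (.e (nat_lit 426479) (nat_lit 27) .nil))))) (.g (nat_lit 0) (.e (nat_lit 333377) (nat_lit 0) .nil) .nil)))) (.nd (nat_lit 9) 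
(.lf (nat_lit 566660) (.g (nat_lit 1931) (.e (nat_lit 442374) (nat_lit 0) (.e (nat_lit 1856) (nat_lit 124) (.e (nat_lit 557098) (nat_lit 13) (.e (nat_lit 172115) (nat_lit 10) (.e (nat_lit 434238) (nat_lit 25) .nil))))) (.g (nat_lit 0) (.e (nat_lit 332970) (nat_lit 0) .nil) .nil))) 
(.lf (nat_lit 567172) (.g (nat_lit 2467) (.e (nat_lit 442402) (nat_lit 20) (.e (nat_lit 3297) (nat_lit 202) (.e (nat_lit 573450) (nat_lit 9) (.e (nat_lit 375) (nat_lit 32) (.e (nat_lit 426173) (nat_lit 7) .nil))))) (.g (nat_lit 0) (.e (nat_lit 335263) (nat_lit 0) .nil) .nil)))))) (.nd (nat_lit 7) (.nd (nat_lit 8) (.nd (nat_lit 9) 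
(.lf (nat_lit 566340) (.g (nat_lit 4995) (.e (nat_lit 434272) (nat_lit 38) (.e (nat_lit 655375) (nat_lit 3) (.e (nat_lit 163978) (nat_lit 30) (.e (nat_lit 573485) (nat_lit 13) (.e (nat_lit 65619) (nat_lit 10) (.e (nat_lit 344117) (nat_lit 21) (.e (nat_lit 516159) (nat_lit 10) .nil))))))) (.g (nat_lit 1) (.e (nat_lit 332121) (nat_lit 0) .nil) .nil))) 
(.lf (nat_lit 566852) (.g (nat_lit 2458) (.e (nat_lit 450304) (nat_lit 0) (.e (nat_lit 1803) (nat_lit 119) (.e (nat_lit 516117) (nat_lit 1) (.e (nat_lit 164329) (nat_lit 230) (.e (nat_lit 163902) (nat_lit 12) .nil))))) (.g (nat_lit 0) (.e (nat_lit 333278) (nat_lit 0) .nil) .nil)))) (.nd (nat_lit 9) 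
(.lf (nat_lit 566596) (.g (nat_lit 583) (.e (nat_lit 442373) (nat_lit 0) (.e (nat_lit 1796) (nat_lit 119) (.e (nat_lit 516123) (nat_lit 2) (.e (nat_lit 213030) (nat_lit 11) .nil)))) (.g (nat_lit 0) (.e (nat_lit 332894) (nat_lit 0) .nil) .nil))) 
(.lf (nat_lit 567108) (.g (nat_lit 1146) (.e (nat_lit 450304) (nat_lit 18) (.e (nat_lit 393253) (nat_lit 18) (.e (nat_lit 164329) (nat_lit 230) (.e (nat_lit 163873) (nat_lit 3) (.e (nat_lit 212736) (nat_lit 11) .nil))))) (.g (nat_lit 0) (.e (nat_lit 334871) (nat_lit 0) .nil) .nil))))) (.nd (nat_lit 8) (.nd (nat_lit 9) 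
(.lf (nat_lit 566468) (.g (nat_lit 2917) (.e (nat_lit 434289) (nat_lit 43) (.e (nat_lit 696344) (nat_lit 8) (.e (nat_lit 172106) (nat_lit 10) (.e (nat_lit 434209) (nat_lit 18) (.e (nat_lit 6427) (nat_lit 342) (.e (nat_lit 229402) (nat_lit 12) (.e (nat_lit 426277) (nat_lit 10) .nil))))))) (.g (nat_lit 1) (.e (nat_lit 332659) (nat_lit 0) .nil) .nil))) 
(.lf (nat_lit 566980) (.g (nat_lit 2846) (.e (nat_lit 442390) (nat_lit 11) (.e (nat_lit 336229) (nat_lit 14) (.e (nat_lit 401448) (nat_lit 10) (.e (nat_lit 434289) (nat_lit 43) (.e (nat_lit 696329) (nat_lit 5) (.e (nat_lit 3004) (nat_lit 186) .nil)))))) (.g (nat_lit 1) (.e (nat_lit 334433) (nat_lit 0) .nil) .nil)))) (.nd (nat_lit 9) 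
(.lf (nat_lit 566724) (.g (nat_lit 264) (.e (nat_lit 442376) (nat_lit 0) (.e (nat_lit 2143) (nat_lit 142) (.e (nat_lit 704594) (nat_lit 5) .nil))) (.g (nat_lit 0) (.e (nat_lit 333053) (nat_lit 0) .nil) .nil))) 
(.lf (nat_lit 567236) (.g (nat_lit 4400) (.e (nat_lit 442406) (nat_lit 20) (.e (nat_lit 3238) (nat_lit 197) (.e (nat_lit 532523) (nat_lit 7) (.e (nat_lit 319533) (nat_lit 16) (.e (nat_lit 286734) (nat_lit 3) (.e (nat_lit 98369) (nat_lit 28) .nil)))))) (.g (nat_lit 1) (.e (nat_lit 335442) (nat_lit 0) .nil) .nil))))))) (.nd (nat_lit 6) (.nd (nat_lit 7) (.nd (nat_lit 8) (.nd (nat_lit 9) 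
(.lf (nat_lit 566308) (.g (nat_lit 4445) (.e (nat_lit 434271) (nat_lit 38) (.e (nat_lit 655380) (nat_lit 6) (.e (nat_lit 188453) (nat_lit 24) (.e (nat_lit 229663) (nat_lit 240) (.e (nat_lit 2630) (nat_lit 164) (.e (nat_lit 172106) (nat_lit 10) .nil)))))) (.g (nat_lit 1) (.e (nat_lit 332034) (nat_lit 0) .nil) .nil))) 
(.lf (nat_lit 566820) (.g (nat_lit 4133) (.e (nat_lit 442379) (nat_lit 0) (.e (nat_lit 1856) (nat_lit 124) (.e (nat_lit 557100) (nat_lit 13) (.e (nat_lit 172113) (nat_lit 10) (.e (nat_lit 434248) (nat_lit 28) (.e (nat_lit 573450) (nat_lit 9) (.e (nat_lit 459) (nat_lit 34) .nil))))))) (.g (nat_lit 1) (.e (nat_lit 333210) (nat_lit 0) .nil) .nil)))) (.nd (nat_lit 9) 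
(.lf (nat_lit 566564) (.g (nat_lit 1502) (.e (nat_lit 434295) (nat_lit 49) (.e (nat_lit 745491) (nat_lit 4) (.e (nat_lit 65620) (nat_lit 10) (.e (nat_lit 344138) (nat_lit 29) (.e (nat_lit 581651) (nat_lit 4) (.e (nat_lit 172107) (nat_lit 10) .nil)))))) (.g (nat_lit 1) (.e (nat_lit 332826) (nat_lit 0) .nil) .nil))) 
(.lf (nat_lit 567076) (.g (nat_lit 1684) (.e (nat_lit 450304) (nat_lit 18) (.e (nat_lit 393251) (nat_lit 18) (.e (nat_lit 164325) (nat_lit 230) (.e (nat_lit 163874) (nat_lit 3) (.e (nat_lit 212736) (nat_lit 11) .nil))))) (.g (nat_lit 0) (.e (nat_lit 334813) (nat_lit 0) .nil) .nil))))) (.nd (nat_lit 8) (.nd (nat_lit 9) 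
(.lf (nat_lit 566436) (.g (nat_lit 2358) (.e (nat_lit 434288) (nat_lit 43) (.e (nat_lit 696344) (nat_lit 8) (.e (nat_lit 172116) (nat_lit 10) (.e (nat_lit 434289) (nat_lit 43) (.e (nat_lit 696343) (nat_lit 8) (.e (nat_lit 172106) (nat_lit 10) .nil)))))) (.g (nat_lit 1) (.e (nat_lit 332515) (nat_lit 0) .nil) .nil))) 
(.lf (nat_lit 566948) (.g (nat_lit 2273) (.e (nat_lit 442385) (nat_lit 11) (.e (nat_lit 335995) (nat_lit 1) (.e (nat_lit 57688) (nat_lit 156) (.e (nat_lit 163902) (nat_lit 12) (.e (nat_lit 426437) (nat_lit 18) .nil))))) (.g (nat_lit 0) (.e (nat_lit 333831) (nat_lit 0) .nil) .nil)))) (.nd (nat_lit 9) 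
(.lf (nat_lit 566692) (.g (nat_lit 2514) (.e (nat_lit 442374) (nat_lit 0) (.e (nat_lit 2059) (nat_lit 142) (.e (nat_lit 704595) (nat_lit 5) (.e (nat_lit 180285) (nat_lit 45) (.e (nat_lit 2788) (nat_lit 179) (.e (nat_lit 302848) (nat_lit 29) .nil)))))) (.g (nat_lit 1) (.e (nat_lit 333009) (nat_lit 0) .nil) .nil))) 
(.lf (nat_lit 567204) (.g (nat_lit 2703) (.e (nat_lit 442404) (nat_lit 20) (.e (nat_lit 3238) (nat_lit 197) (.e (nat_lit 532523) (nat_lit 7) (.e (nat_lit 319533) (nat_lit 16) (.e (nat_lit 286732) (nat_lit 2) (.e (nat_lit 90134) (nat_lit 9) (.e (nat_lit 3002) (nat_lit 186) .nil))))))) (.g (nat_lit 1) (.e (nat_lit 335381) (nat_lit 0) .nil) .nil)))))) 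
(.nd (nat_lit 7) (.nd (nat_lit 8) (.nd (nat_lit 9) 
(.lf (nat_lit 566372) (.g (nat_lit 4132) (.e (nat_lit 434272) (nat_lit 38) (.e (nat_lit 655378) (nat_lit 4) (.e (nat_lit 172126) (nat_lit 14) (.e (nat_lit 491549) (nat_lit 9) (.e (nat_lit 336395) (nat_lit 27) (.e (nat_lit 426289) (nat_lit 10) .nil)))))) (.g (nat_lit 1) (.e (nat_lit 332330) (nat_lit 0) .nil) .nil))) 
(.lf (nat_lit 566884) (.g (nat_lit 1433) (.e (nat_lit 450304) (nat_lit 3) (.e (nat_lit 98334) (nat_lit 18) (.e (nat_lit 164330) (nat_lit 230) (.e (nat_lit 163943) (nat_lit 19) .nil)))) (.g (nat_lit 0) (.e (nat_lit 333332) (nat_lit 0) .nil) .nil)))) (.nd (nat_lit 9) 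
(.lf (nat_lit 566628) (.g (nat_lit 2432) (.e (nat_lit 442374) (nat_lit 0) (.e (nat_lit 1800) (nat_lit 119) (.e (nat_lit 516117) (nat_lit 1) (.e (nat_lit 164332) (nat_lit 230) (.e (nat_lit 163943) (nat_lit 19) (.e (nat_lit 491264) (nat_lit 11) .nil)))))) (.g (nat_lit 1) (.e (nat_lit 332933) (nat_lit 0) .nil) .nil))) 
(.lf (nat_lit 567140) (.g (nat_lit 273) (.e (nat_lit 442391) (nat_lit 19) (.e (nat_lit 409344) (nat_lit 30) (.e (nat_lit 360462) (nat_lit 1) (.e (nat_lit 499991) (nat_lit 14) (.e (nat_lit 7936) (nat_lit 34) .nil))))) (.g (nat_lit 1) (.e (nat_lit 334953) (nat_lit 0) .nil) .nil))))) (.nd (nat_lit 8) (.nd (nat_lit 9) 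
(.lf (nat_lit 566500) (.g (nat_lit 3003) (.e (nat_lit 434289) (nat_lit 43) (.e (nat_lit 696346) (nat_lit 10) (.e (nat_lit 188421) (nat_lit 11) (.e (nat_lit 336232) (nat_lit 14) (.e (nat_lit 401446) (nat_lit 10) .nil))))) (.g (nat_lit 1) (.e (nat_lit 332717) (nat_lit 0) .nil) .nil))) 
(.lf (nat_lit 567012) (.g (nat_lit 1988) (.e (nat_lit 442390) (nat_lit 11) (.e (nat_lit 336387) (nat_lit 27) (.e (nat_lit 426100) (nat_lit 1) (.e (nat_lit 164398) (nat_lit 256) (.e (nat_lit 57376) (nat_lit 3) .nil))))) (.g (nat_lit 0) (.e (nat_lit 334636) (nat_lit 0) .nil) .nil)))) (.nd (nat_lit 9) 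
(.lf (nat_lit 566756) (.g (nat_lit 1261) (.e (nat_lit 442377) (nat_lit 0) (.e (nat_lit 2059) (nat_lit 142) (.e (nat_lit 704595) (nat_lit 5) (.e (nat_lit 180291) (nat_lit 48) .nil)))) (.g (nat_lit 0) (.e (nat_lit 333125) (nat_lit 0) .nil) .nil))) 
(.lf (nat_lit 567268) (.g (nat_lit 1812) (.e (nat_lit 442409) (nat_lit 20) (.e (nat_lit 3391) (nat_lit 210) (.e (nat_lit 639021) (nat_lit 16) (.e (nat_lit 65617) (nat_lit 10) (.e (nat_lit 344164) (nat_lit 37) (.e (nat_lit 647190) (nat_lit 9) (.e (nat_lit 7936) (nat_lit 34) .nil))))))) (.g (nat_lit 1) (.e (nat_lit 335704) (nat_lit 0) .nil) .nil)))))))) 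
(.nd (nat_lit 5) (.nd (nat_lit 6) (.nd (nat_lit 7) (.nd (nat_lit 8) (.nd (nat_lit 9) 
(.lf (nat_lit 566292) (.g (nat_lit 3777) (.e (nat_lit 434271) (nat_lit 38) (.e (nat_lit 655378) (nat_lit 4) (.e (nat_lit 172126) (nat_lit 14) (.e (nat_lit 491549) (nat_lit 9) (.e (nat_lit 336395) (nat_lit 27) (.e (nat_lit 426289) (nat_lit 10) .nil)))))) (.g (nat_lit 1) (.e (nat_lit 331990) (nat_lit 0) .nil) .nil))) 
(.lf (nat_lit 566804) (.g (nat_lit 2134) (.e (nat_lit 442379) (nat_lit 0) (.e (nat_lit 1800) (nat_lit 119) (.e (nat_lit 516120) (nat_lit 1) (.e (nat_lit 164329) (nat_lit 230) (.e (nat_lit 163941) (nat_lit 19) (.e (nat_lit 491264) (nat_lit 11) .nil)))))) (.g (nat_lit 1) (.e (nat_lit 333194) (nat_lit 0) .nil) .nil)))) (.nd (nat_lit 9) 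
(.lf (nat_lit 566548) (.g (nat_lit 4027) (.e (nat_lit 434292) (nat_lit 44) (.e (nat_lit 704738) (nat_lit 11) (.e (nat_lit 16425) (nat_lit 7) (.e (nat_lit 409617) (nat_lit 10) (.e (nat_lit 848) (nat_lit 73) (.e (nat_lit 761905) (nat_lit 16) (.e (nat_lit 179968) (nat_lit 10) .nil))))))) (.g (nat_lit 1) (.e (nat_lit 332802) (nat_lit 0) .nil) .nil))) 
(.lf (nat_lit 567060) (.g (nat_lit 1293) (.e (nat_lit 450304) (nat_lit 16) (.e (nat_lit 376859) (nat_lit 21) (.e (nat_lit 57847) (nat_lit 252) (.e (nat_lit 57390) (nat_lit 5) (.e (nat_lit 122624) (nat_lit 13) .nil))))) (.g (nat_lit 0) (.e (nat_lit 334777) (nat_lit 0) .nil) .nil))))) (.nd (nat_lit 8) (.nd (nat_lit 9) 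
(.lf (nat_lit 566420) (.g (nat_lit 1013) (.e (nat_lit 434287) (nat_lit 43) (.e (nat_lit 696346) (nat_lit 10) (.e (nat_lit 188434) (nat_lit 20) (.e (nat_lit 3467) (nat_lit 217) .nil)))) (.g (nat_lit 0) (.e (nat_lit 332490) (nat_lit 0) .nil) .nil))) 
(.lf (nat_lit 566932) (.g (nat_lit 1610) (.e (nat_lit 450304) (nat_lit 3) (.e (nat_lit 98342) (nat_lit 20) (.e (nat_lit 221194) (nat_lit 11) (.e (nat_lit 336020) (nat_lit 3) (.e (nat_lit 98369) (nat_lit 28) .nil))))) (.g (nat_lit 0) (.e (nat_lit 333399) (nat_lit 0) .nil) .nil)))) (.nd (nat_lit 9) 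
(.lf (nat_lit 566676) (.g (nat_lit 2188) (.e (nat_lit 442374) (nat_lit 0) (.e (nat_lit 1856) (nat_lit 124) (.e (nat_lit 557107) (nat_lit 15) (.e (nat_lit 188440) (nat_lit 20) (.e (nat_lit 3272) (nat_lit 199) (.e (nat_lit 548898) (nat_lit 14) (.e (nat_lit 2989) (nat_lit 186) .nil))))))) (.g (nat_lit 1) (.e (nat_lit 332986) (nat_lit 0) .nil) .nil))) 
(.lf (nat_lit 567188) (.g (nat_lit 1342) (.e (nat_lit 442402) (nat_lit 20) (.e (nat_lit 3469) (nat_lit 217) (.e (nat_lit 696344) (nat_lit 8) (.e (nat_lit 172113) (nat_lit 10) .nil)))) (.g (nat_lit 0) (.e (nat_lit 335321) (nat_lit 0) .nil) .nil)))))) (.nd (nat_lit 7) (.nd (nat_lit 8) (.nd (nat_lit 9) 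
(.lf (nat_lit 566356) (.g (nat_lit 2582) (.e (nat_lit 434272) (nat_lit 38) (.e (nat_lit 655378) (nat_lit 4) (.e (nat_lit 172094) (nat_lit 9) (.e (nat_lit 426025) (nat_lit 0) (.e (nat_lit 3397) (nat_lit 211) (.e (nat_lit 647183) (nat_lit 4) (.e (nat_lit 172112) (nat_lit 10) .nil))))))) (.g (nat_lit 1) (.e (nat_lit 332230) (nat_lit 0) .nil) .nil))) 
(.lf (nat_lit 566868) (.g (nat_lit 2569) (.e (nat_lit 450304) (nat_lit 3) (.e (nat_lit 98333) (nat_lit 18) (.e (nat_lit 164327) (nat_lit 230) (.e (nat_lit 163903) (nat_lit 12) (.e (nat_lit 426486) (nat_lit 27) .nil))))) (.g (nat_lit 0) (.e (nat_lit 333309) (nat_lit 0) .nil) .nil)))) (.nd (nat_lit 9) 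
(.lf (nat_lit 566612) (.g (nat_lit 2335) (.e (nat_lit 442373) (nat_lit 0) (.e (nat_lit 1853) (nat_lit 124) (.e (nat_lit 557107) (nat_lit 15) (.e (nat_lit 188439) (nat_lit 20) (.e (nat_lit 3270) (nat_lit 199) (.e (nat_lit 548898) (nat_lit 14) (.e (nat_lit 3004) (nat_lit 186) .nil))))))) (.g (nat_lit 1) (.e (nat_lit 332912) (nat_lit 0) .nil) .nil))) 
(.lf (nat_lit 567124) (.g (nat_lit 1262) (.e (nat_lit 450304) (nat_lit 18) (.e (nat_lit 393254) (nat_lit 18) (.e (nat_lit 164325) (nat_lit 230) (.e (nat_lit 163874) (nat_lit 3) (.e (nat_lit 212736) (nat_lit 11) .nil))))) (.g (nat_lit 0) (.e (nat_lit 334899) (nat_lit 0) .nil) .nil))))) (.nd (nat_lit 8) (.nd (nat_lit 9) 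
(.lf (nat_lit 566484) (.g (nat_lit 3930) (.e (nat_lit 434289) (nat_lit 43) (.e (nat_lit 696344) (nat_lit 8) (.e (nat_lit 172113) (nat_lit 10) (.e (nat_lit 434289) (nat_lit 43) (.e (nat_lit 696344) (nat_lit 8) (.e (nat_lit 172106) (nat_lit 10) .nil)))))) (.g (nat_lit 1) (.e (nat_lit 332677) (nat_lit 0) .nil) .nil))) 
(.lf (nat_lit 566996) (.g (nat_lit 4052) (.e (nat_lit 442390) (nat_lit 11) (.e (nat_lit 336232) (nat_lit 14) (.e (nat_lit 401446) (nat_lit 10) (.e (nat_lit 434212) (nat_lit 18) (.e (nat_lit 6425) (nat_lit 342) (.e (nat_lit 229412) (nat_lit 14) .nil)))))) (.g (nat_lit 1) (.e (nat_lit 334559) (nat_lit 0) .nil) .nil)))) (.nd (nat_lit 9) 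
(.lf (nat_lit 566740) (.g (nat_lit 1715) (.e (nat_lit 442377) (nat_lit 0) (.e (nat_lit 1800) (nat_lit 119) (.e (nat_lit 516119) (nat_lit 1) (.e (nat_lit 164325) (nat_lit 230) (.e (nat_lit 163903) (nat_lit 12) .nil))))) (.g (nat_lit 0) (.e (nat_lit 333101) (nat_lit 0) .nil) .nil))) 
(.lf (nat_lit 567252) (.g (nat_lit 2186) (.e (nat_lit 442408) (nat_lit 20) (.e (nat_lit 3390) (nat_lit 210) (.e (nat_lit 639021) (nat_lit 16) (.e (nat_lit 65610) (nat_lit 10) (.e (nat_lit 344160) (nat_lit 37) (.e (nat_lit 647190) (nat_lit 9) (.e (nat_lit 7936) (nat_lit 34) .nil))))))) (.g (nat_lit 1) (.e (nat_lit 335542) (nat_lit 0) .nil) .nil))))))) 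
(.nd (nat_lit 6) (.nd (nat_lit 7) (.nd (nat_lit 8) (.nd (nat_lit 9) 
(.lf (nat_lit 566324) (.g (nat_lit 2002) (.e (nat_lit 434272) (nat_lit 38) (.e (nat_lit 655374) (nat_lit 3) (.e (nat_lit 163979) (nat_lit 30) (.e (nat_lit 573481) (nat_lit 13) (.e (nat_lit 65619) (nat_lit 10) .nil))))) (.g (nat_lit 0) (.e (nat_lit 332105) (nat_lit 0) .nil) .nil))) 
(.lf (nat_lit 566836) (.g (nat_lit 2115) (.e (nat_lit 442379) (nat_lit 0) (.e (nat_lit 2059) (nat_lit 142) (.e (nat_lit 704595) (nat_lit 5) (.e (nat_lit 180282) (nat_lit 45) (.e (nat_lit 2777) (nat_lit 178) (.e (nat_lit 286771) (nat_lit 29) .nil)))))) (.g (nat_lit 1) (.e (nat_lit 333249) (nat_lit 0) .nil) .nil)))) (.nd (nat_lit 9) 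
(.lf (nat_lit 566580) (.g (nat_lit 3459) (.e (nat_lit 442372) (nat_lit 0) (.e (nat_lit 1846) (nat_lit 124) (.e (nat_lit 557101) (nat_lit 13) (.e (nat_lit 172115) (nat_lit 10) (.e (nat_lit 434244) (nat_lit 28) (.e (nat_lit 573450) (nat_lit 9) (.e (nat_lit 455) (nat_lit 34) .nil))))))) (.g (nat_lit 1) (.e (nat_lit 332875) (nat_lit 0) .nil) .nil))) 
(.lf (nat_lit 567092) (.g (nat_lit 989) (.e (nat_lit 450304) (nat_lit 18) (.e (nat_lit 393252) (nat_lit 18) (.e (nat_lit 164332) (nat_lit 230) (.e (nat_lit 163873) (nat_lit 3) (.e (nat_lit 212736) (nat_lit 11) .nil))))) (.g (nat_lit 0) (.e (nat_lit 334845) (nat_lit 0) .nil) .nil))))) (.nd (nat_lit 8) (.nd (nat_lit 9) 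
(.lf (nat_lit 566452) (.g (nat_lit 3099) (.e (nat_lit 434289) (nat_lit 43) (.e (nat_lit 696343) (nat_lit 8) (.e (nat_lit 172115) (nat_lit 10) (.e (nat_lit 434289) (nat_lit 43) (.e (nat_lit 696344) (nat_lit 8) (.e (nat_lit 172116) (nat_lit 10) .nil)))))) (.g (nat_lit 1) (.e (nat_lit 332634) (nat_lit 0) .nil) .nil))) 
(.lf (nat_lit 566964) (.g (nat_lit 2027) (.e (nat_lit 442390) (nat_lit 11) (.e (nat_lit 335986) (nat_lit 1) (.e (nat_lit 57686) (nat_lit 156) (.e (nat_lit 163903) (nat_lit 12) (.e (nat_lit 426436) (nat_lit 18) .nil))))) (.g (nat_lit 0) (.e (nat_lit 334376) (nat_lit 0) .nil) .nil)))) (.nd (nat_lit 9) 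
(.lf (nat_lit 566708) (.g (nat_lit 1297) (.e (nat_lit 442374) (nat_lit 0) (.e (nat_lit 2174) (nat_lit 143) (.e (nat_lit 712755) (nat_lit 30) (.e (nat_lit 450569) (nat_lit 0) .nil)))) (.g (nat_lit 0) (.e (nat_lit 333030) (nat_lit 0) .nil) .nil))) 
(.lf (nat_lit 567220) (.g (nat_lit 2087) (.e (nat_lit 442406) (nat_lit 20) (.e (nat_lit 3238) (nat_lit 197) (.e (nat_lit 532523) (nat_lit 7) (.e (nat_lit 319504) (nat_lit 10) (.e (nat_lit 5395) (nat_lit 301) .nil))))) (.g (nat_lit 0) (.e (nat_lit 335426) (nat_lit 0) .nil) .nil)))))) (.nd (nat_lit 7) (.nd (nat_lit 8) (.nd (nat_lit 9) 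
(.lf (nat_lit 566388) (.g (nat_lit 2049) (.e (nat_lit 434272) (nat_lit 38) (.e (nat_lit 655380) (nat_lit 6) (.e (nat_lit 188439) (nat_lit 20) (.e (nat_lit 3409) (nat_lit 212) (.e (nat_lit 655378) (nat_lit 4) (.e (nat_lit 172116) (nat_lit 10) .nil)))))) (.g (nat_lit 1) (.e (nat_lit 332362) (nat_lit 0) .nil) .nil))) 
(.lf (nat_lit 566900) (.g (nat_lit 1363) (.e (nat_lit 450304) (nat_lit 3) (.e (nat_lit 98335) (nat_lit 18) (.e (nat_lit 164327) (nat_lit 230) (.e (nat_lit 163941) (nat_lit 19) (.e (nat_lit 491264) (nat_lit 11) .nil))))) (.g (nat_lit 0) (.e (nat_lit 333354) (nat_lit 0) .nil) .nil)))) (.nd (nat_lit 9) 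
(.lf (nat_lit 566644) (.g (nat_lit 2533) (.e (nat_lit 442374) (nat_lit 0) (.e (nat_lit 1800) (nat_lit 119) (.e (nat_lit 516120) (nat_lit 1) (.e (nat_lit 164332) (nat_lit 230) (.e (nat_lit 163941) (nat_lit 19) (.e (nat_lit 491264) (nat_lit 11) .nil)))))) (.g (nat_lit 1) (.e (nat_lit 332949) (nat_lit 0) .nil) .nil))) 
(.lf (nat_lit 567156) (.g (nat_lit 765) (.e (nat_lit 442399) (nat_lit 20) (.e (nat_lit 3397) (nat_lit 211) (.e (nat_lit 647183) (nat_lit 4) (.e (nat_lit 172082) (nat_lit 7) .nil)))) (.g (nat_lit 0) (.e (nat_lit 335104) (nat_lit 0) .nil) .nil))))) (.nd (nat_lit 8) (.nd (nat_lit 9) 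
(.lf (nat_lit 566516) (.g (nat_lit 3091) (.e (nat_lit 434289) (nat_lit 43) (.e (nat_lit 696346) (nat_lit 10) (.e (nat_lit 188439) (nat_lit 20) (.e (nat_lit 3469) (nat_lit 217) (.e (nat_lit 696344) (nat_lit 8) (.e (nat_lit 172112) (nat_lit 10) .nil)))))) (.g (nat_lit 1) (.e (nat_lit 332735) (nat_lit 0) .nil) .nil))) 
(.lf (nat_lit 567028) (.g (nat_lit 1488) (.e (nat_lit 450304) (nat_lit 13) (.e (nat_lit 352309) (nat_lit 21) (.e (nat_lit 57844) (nat_lit 252) (.e (nat_lit 57389) (nat_lit 5) (.e (nat_lit 122624) (nat_lit 13) .nil))))) (.g (nat_lit 0) (.e (nat_lit 334726) (nat_lit 0) .nil) .nil)))) (.nd (nat_lit 9) 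
(.lf (nat_lit 566772) (.g (nat_lit 1638) (.e (nat_lit 442378) (nat_lit 0) (.e (nat_lit 1800) (nat_lit 119) (.e (nat_lit 516120) (nat_lit 1) (.e (nat_lit 164329) (nat_lit 230) .nil)))) (.g (nat_lit 0) (.e (nat_lit 333146) (nat_lit 0) .nil) .nil))) 
(.lf (nat_lit 567284) (.g (nat_lit 4211) (.e (nat_lit 442414) (nat_lit 20) (.e (nat_lit 3304) (nat_lit 202) (.e (nat_lit 573471) (nat_lit 11) (.e (nat_lit 16425) (nat_lit 7) (.e (nat_lit 409616) (nat_lit 10) .nil))))) (.g (nat_lit 0) (.e (nat_lit 335839) (nat_lit 0) .nil) .nil))))))))) (.nd (nat_lit 4) (.nd (nat_lit 5) (.nd (nat_lit 6) (.nd (nat_lit 7) (.nd (nat_lit 8) (.nd (nat_lit 9) 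
(.lf (nat_lit 566284) (.g (nat_lit 2306) (.e (nat_lit 434271) (nat_lit 38) (.e (nat_lit 655378) (nat_lit 4) (.e (nat_lit 172094) (nat_lit 9) (.e (nat_lit 426025) (nat_lit 0) (.e (nat_lit 3399) (nat_lit 211) (.e (nat_lit 647183) (nat_lit 4) (.e (nat_lit 172116) (nat_lit 10) .nil))))))) (.g (nat_lit 1) (.e (nat_lit 331919) (nat_lit 0) .nil) .nil))) 
(.lf (nat_lit 566796) (.g (nat_lit 1748) (.e (nat_lit 442379) (nat_lit 0) (.e (nat_lit 1782) (nat_lit 119) (.e (nat_lit 516120) (nat_lit 1) (.e (nat_lit 164329) (nat_lit 230) (.e (nat_lit 163941) (nat_lit 19) (.e (nat_lit 491264) (nat_lit 11) .nil)))))) (.g (nat_lit 1) (.e (nat_lit 333176) (nat_lit 0) .nil) .nil)))) (.nd (nat_lit 9) 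
(.lf (nat_lit 566540) (.g (nat_lit 1761) (.e (nat_lit 434291) (nat_lit 44) (.e (nat_lit 704738) (nat_lit 11) (.e (nat_lit 16466) (nat_lit 13) (.e (nat_lit 483409) (nat_lit 27) (.e (nat_lit 401448) (nat_lit 10) .nil))))) (.g (nat_lit 0) (.e (nat_lit 332779) (nat_lit 0) .nil) .nil))) 
(.lf (nat_lit 567052) (.g (nat_lit 1545) (.e (nat_lit 450304) (nat_lit 16) (.e (nat_lit 376857) (nat_lit 21) (.e (nat_lit 57854) (nat_lit 252) (.e (nat_lit 57389) (nat_lit 5) (.e (nat_lit 122624) (nat_lit 13) .nil))))) (.g (nat_lit 0) (.e (nat_lit 334768) (nat_lit 0) .nil) .nil))))) (.nd (nat_lit 8) (.nd (nat_lit 9) 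
(.lf (nat_lit 566412) (.g (nat_lit 1654) (.e (nat_lit 434287) (nat_lit 43) (.e (nat_lit 696344) (nat_lit 8) (.e (nat_lit 172113) (nat_lit 10) (.e (nat_lit 434203) (nat_lit 18) (.e (nat_lit 6416) (nat_lit 341) .nil))))) (.g (nat_lit 0) (.e (nat_lit 332472) (nat_lit 0) .nil) .nil))) 
(.lf (nat_lit 566924) (.g (nat_lit 449) (.e (nat_lit 450304) (nat_lit 3) (.e (nat_lit 98341) (nat_lit 20) (.e (nat_lit 221193) (nat_lit 11) .nil))) (.g (nat_lit 0) (.e (nat_lit 333387) (nat_lit 0) .nil) .nil)))) (.nd (nat_lit 9) 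
(.lf (nat_lit 566668) (.g (nat_lit 2222) (.e (nat_lit 442374) (nat_lit 0) (.e (nat_lit 1856) (nat_lit 124) (.e (nat_lit 557101) (nat_lit 13) (.e (nat_lit 172115) (nat_lit 10) (.e (nat_lit 434238) (nat_lit 25) (.e (nat_lit 548896) (nat_lit 14) (.e (nat_lit 2988) (nat_lit 186) .nil))))))) (.g (nat_lit 1) (.e (nat_lit 332978) (nat_lit 0) .nil) .nil))) 
(.lf (nat_lit 567180) (.g (nat_lit 2328) (.e (nat_lit 442402) (nat_lit 20) (.e (nat_lit 3391) (nat_lit 210) (.e (nat_lit 639021) (nat_lit 16) (.e (nat_lit 65617) (nat_lit 10) (.e (nat_lit 344161) (nat_lit 37) (.e (nat_lit 647190) (nat_lit 9) (.e (nat_lit 7936) (nat_lit 34) .nil))))))) (.g (nat_lit 1) (.e (nat_lit 335271) (nat_lit 0) .nil) .nil)))))) 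
(.nd (nat_lit 7) (.nd (nat_lit 8) (.nd (nat_lit 9) 
(.lf (nat_lit 566348) (.g (nat_lit 4099) (.e (nat_lit 434272) (nat_lit 38) (.e (nat_lit 655375) (nat_lit 3) (.e (nat_lit 163979) (nat_lit 30) (.e (nat_lit 573485) (nat_lit 13) (.e (nat_lit 65619) (nat_lit 10) (.e (nat_lit 344117) (nat_lit 21) (.e (nat_lit 516159) (nat_lit 10) .nil))))))) (.g (nat_lit 1) (.e (nat_lit 332188) (nat_lit 0) .nil) .nil))) 
(.lf (nat_lit 566860) (.g (nat_lit 1698) (.e (nat_lit 450304) (nat_lit 3) (.e (nat_lit 98333) (nat_lit 18) (.e (nat_lit 164325) (nat_lit 230) (.e (nat_lit 163901) (nat_lit 12) .nil)))) (.g (nat_lit 0) (.e (nat_lit 333301) (nat_lit 0) .nil) .nil)))) (.nd (nat_lit 9) 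
(.lf (nat_lit 566604) (.g (nat_lit 2295) (.e (nat_lit 442373) (nat_lit 0) (.e (nat_lit 1853) (nat_lit 124) (.e (nat_lit 557097) (nat_lit 13) (.e (nat_lit 172115) (nat_lit 10) (.e (nat_lit 434244) (nat_lit 28) (.e (nat_lit 573449) (nat_lit 9) (.e (nat_lit 7936) (nat_lit 34) .nil))))))) (.g (nat_lit 1) (.e (nat_lit 332904) (nat_lit 0) .nil) .nil))) 
(.lf (nat_lit 567116) (.g (nat_lit 1351) (.e (nat_lit 450304) (nat_lit 18) (.e (nat_lit 393253) (nat_lit 18) (.e (nat_lit 164345) (nat_lit 240) (.e (nat_lit 2601) (nat_lit 163) (.e (nat_lit 163959) (nat_lit 24) .nil))))) (.g (nat_lit 0) (.e (nat_lit 334879) (nat_lit 0) .nil) .nil))))) (.nd (nat_lit 8) (.nd (nat_lit 9) 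
(.lf (nat_lit 566476) (.g (nat_lit 3210) (.e (nat_lit 434289) (nat_lit 43) (.e (nat_lit 696344) (nat_lit 8) (.e (nat_lit 172112) (nat_lit 10) (.e (nat_lit 434289) (nat_lit 43) (.e (nat_lit 696344) (nat_lit 8) (.e (nat_lit 172107) (nat_lit 10) .nil)))))) (.g (nat_lit 1) (.e (nat_lit 332668) (nat_lit 0) .nil) .nil))) 
(.lf (nat_lit 566988) (.g (nat_lit 1987) (.e (nat_lit 442390) (nat_lit 11) (.e (nat_lit 336231) (nat_lit 14) (.e (nat_lit 401448) (nat_lit 10) (.e (nat_lit 434199) (nat_lit 18) (.e (nat_lit 6425) (nat_lit 342) .nil))))) (.g (nat_lit 0) (.e (nat_lit 334503) (nat_lit 0) .nil) .nil)))) (.nd (nat_lit 9) 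
(.lf (nat_lit 566732) (.g (nat_lit 1286) (.e (nat_lit 442377) (nat_lit 0) (.e (nat_lit 1798) (nat_lit 119) (.e (nat_lit 516120) (nat_lit 1) (.e (nat_lit 164329) (nat_lit 230) (.e (nat_lit 163902) (nat_lit 12) .nil))))) (.g (nat_lit 0) (.e (nat_lit 333092) (nat_lit 0) .nil) .nil))) 
(.lf (nat_lit 567244) (.g (nat_lit 1868) (.e (nat_lit 442406) (nat_lit 20) (.e (nat_lit 3238) (nat_lit 197) (.e (nat_lit 532579) (nat_lit 26) (.e (nat_lit 426098) (nat_lit 1) (.e (nat_lit 164399) (nat_lit 256) .nil))))) (.g (nat_lit 0) (.e (nat_lit 335460) (nat_lit 0) .nil) .nil))))))) (.nd (nat_lit 6) (.nd (nat_lit 7) (.nd (nat_lit 8) (.nd (nat_lit 9) 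
(.lf (nat_lit 566316) (.g (nat_lit 3740) (.e (nat_lit 434271) (nat_lit 38) (.e (nat_lit 655380) (nat_lit 6) (.e (nat_lit 188455) (nat_lit 24) (.e (nat_lit 229678) (nat_lit 244) (.e (nat_lit 163908) (nat_lit 12) (.e (nat_lit 426285) (nat_lit 10) .nil)))))) (.g (nat_lit 1) (.e (nat_lit 332042) (nat_lit 0) .nil) .nil))) 
(.lf (nat_lit 566828) (.g (nat_lit 2575) (.e (nat_lit 442379) (nat_lit 0) (.e (nat_lit 1856) (nat_lit 124) (.e (nat_lit 557107) (nat_lit 15) (.e (nat_lit 188440) (nat_lit 20) (.e (nat_lit 3307) (nat_lit 202) (.e (nat_lit 573465) (nat_lit 9) (.e (nat_lit 461) (nat_lit 34) .nil))))))) (.g (nat_lit 1) (.e (nat_lit 333218) (nat_lit 0) .nil) .nil)))) (.nd (nat_lit 9) 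
(.lf (nat_lit 566572) (.g (nat_lit 2157) (.e (nat_lit 442372) (nat_lit 0) (.e (nat_lit 1800) (nat_lit 119) (.e (nat_lit 516115) (nat_lit 1) (.e (nat_lit 164325) (nat_lit 230) (.e (nat_lit 163907) (nat_lit 12) .nil))))) (.g (nat_lit 0) (.e (nat_lit 332867) (nat_lit 0) .nil) .nil))) 
(.lf (nat_lit 567084) (.g (nat_lit 2437) (.e (nat_lit 450304) (nat_lit 18) (.e (nat_lit 393251) (nat_lit 18) (.e (nat_lit 164398) (nat_lit 256) (.e (nat_lit 57377) (nat_lit 3) (.e (nat_lit 98369) (nat_lit 28) .nil))))) (.g (nat_lit 0) (.e (nat_lit 334821) (nat_lit 0) .nil) .nil))))) (.nd (nat_lit 8) (.nd (nat_lit 9) 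
(.lf (nat_lit 566444) (.g (nat_lit 1030) (.e (nat_lit 434289) (nat_lit 43) (.e (nat_lit 696343) (nat_lit 8) (.e (nat_lit 172106) (nat_lit 10) (.e (nat_lit 434287) (nat_lit 43) .nil)))) (.g (nat_lit 0) (.e (nat_lit 332613) (nat_lit 0) .nil) .nil))) 
(.lf (nat_lit 566956) (.g (nat_lit 521) (.e (nat_lit 442387) (nat_lit 11) (.e (nat_lit 335986) (nat_lit 1) (.e (nat_lit 57686) (nat_lit 156) .nil))) (.g (nat_lit 0) (.e (nat_lit 334022) (nat_lit 0) .nil) .nil)))) (.nd (nat_lit 9) 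
(.lf (nat_lit 566700) (.g (nat_lit 1921) (.e (nat_lit 442374) (nat_lit 0) (.e (nat_lit 2059) (nat_lit 142) (.e (nat_lit 704599) (nat_lit 6) (.e (nat_lit 188441) (nat_lit 20) (.e (nat_lit 3408) (nat_lit 212) (.e (nat_lit 655364) (nat_lit 0) (.e (nat_lit 2988) (nat_lit 186) .nil))))))) (.g (nat_lit 1) (.e (nat_lit 333021) (nat_lit 0) .nil) .nil))) 
(.lf (nat_lit 567212) (.g (nat_lit 3516) (.e (nat_lit 442404) (nat_lit 20) (.e (nat_lit 3297) (nat_lit 202) (.e (nat_lit 573471) (nat_lit 11) (.e (nat_lit 16425) (nat_lit 7) (.e (nat_lit 409616) (nat_lit 10) (.e (nat_lit 7936) (nat_lit 43) (.e (nat_lit 516164) (nat_lit 11) .nil))))))) (.g (nat_lit 1) (.e (nat_lit 335390) (nat_lit 0) .nil) .nil)))))) 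
(.nd (nat_lit 7) (.nd (nat_lit 8) (.nd (nat_lit 9) 
(.lf (nat_lit 566380) (.g (nat_lit 1978) (.e (nat_lit 434272) (nat_lit 38) (.e (nat_lit 655380) (nat_lit 6) (.e (nat_lit 188435) (nat_lit 20) (.e (nat_lit 3409) (nat_lit 212) (.e (nat_lit 655378) (nat_lit 4) (.e (nat_lit 172107) (nat_lit 10) .nil)))))) (.g (nat_lit 1) (.e (nat_lit 332354) (nat_lit 0) .nil) .nil))) 
(.lf (nat_lit 566892) (.g (nat_lit 709) (.e (nat_lit 450304) (nat_lit 3) (.e (nat_lit 98335) (nat_lit 18) (.e (nat_lit 164325) (nat_lit 230) (.e (nat_lit 163907) (nat_lit 12) .nil)))) (.g (nat_lit 0) (.e (nat_lit 333346) (nat_lit 0) .nil) .nil)))) (.nd (nat_lit 9) 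
(.lf (nat_lit 566636) (.g (nat_lit 2204) (.e (nat_lit 442374) (nat_lit 0) (.e (nat_lit 1800) (nat_lit 119) (.e (nat_lit 516119) (nat_lit 1) (.e (nat_lit 164331) (nat_lit 230) (.e (nat_lit 163941) (nat_lit 19) .nil))))) (.g (nat_lit 0) (.e (nat_lit 332941) (nat_lit 0) .nil) .nil))) 
(.lf (nat_lit 567148) (.g (nat_lit 597) (.e (nat_lit 442395) (nat_lit 20) (.e (nat_lit 3399) (nat_lit 211) (.e (nat_lit 647183) (nat_lit 4) (.e (nat_lit 172082) (nat_lit 7) .nil)))) (.g (nat_lit 0) (.e (nat_lit 334992) (nat_lit 0) .nil) .nil))))) (.nd (nat_lit 8) (.nd (nat_lit 9) 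
(.lf (nat_lit 566508) (.g (nat_lit 3325) (.e (nat_lit 434289) (nat_lit 43) (.e (nat_lit 696346) (nat_lit 10) (.e (nat_lit 188434) (nat_lit 20) (.e (nat_lit 3469) (nat_lit 217) (.e (nat_lit 696344) (nat_lit 8) (.e (nat_lit 172112) (nat_lit 10) .nil)))))) (.g (nat_lit 1) (.e (nat_lit 332726) (nat_lit 0) .nil) .nil))) 
(.lf (nat_lit 567020) (.g (nat_lit 670) (.e (nat_lit 450304) (nat_lit 13) (.e (nat_lit 352307) (nat_lit 21) (.e (nat_lit 57844) (nat_lit 252) .nil))) (.g (nat_lit 0) (.e (nat_lit 334718) (nat_lit 0) .nil) .nil)))) (.nd (nat_lit 9) 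
(.lf (nat_lit 566764) (.g (nat_lit 1345) (.e (nat_lit 442378) (nat_lit 0) (.e (nat_lit 1781) (nat_lit 119) (.e (nat_lit 516120) (nat_lit 1) (.e (nat_lit 164329) (nat_lit 230) (.e (nat_lit 163942) (nat_lit 19) .nil))))) (.g (nat_lit 0) (.e (nat_lit 333136) (nat_lit 0) .nil) .nil))) 
(.lf (nat_lit 567276) (.g (nat_lit 813) (.e (nat_lit 442409) (nat_lit 20) (.e (nat_lit 3409) (nat_lit 212) (.e (nat_lit 655378) (nat_lit 4) (.e (nat_lit 172078) (nat_lit 7) .nil)))) (.g (nat_lit 0) (.e (nat_lit 335763) (nat_lit 0) .nil) .nil)))))))) (.nd (nat_lit 5) (.nd (nat_lit 6) (.nd (nat_lit 7) (.nd (nat_lit 8) (.nd (nat_lit 9) 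
(.lf (nat_lit 566300) (.g (nat_lit 2655) (.e (nat_lit 434271) (nat_lit 38) (.e (nat_lit 655380) (nat_lit 6) (.e (nat_lit 188434) (nat_lit 20) (.e (nat_lit 3406) (nat_lit 212) (.e (nat_lit 655378) (nat_lit 4) (.e (nat_lit 172115) (nat_lit 10) .nil)))))) (.g (nat_lit 1) (.e (nat_lit 332009) (nat_lit 0) .nil) .nil))) 
(.lf (nat_lit 566812) (.g (nat_lit 1851) (.e (nat_lit 442379) (nat_lit 0) (.e (nat_lit 1855) (nat_lit 124) (.e (nat_lit 557101) (nat_lit 13) (.e (nat_lit 172115) (nat_lit 10) (.e (nat_lit 434244) (nat_lit 28) (.e (nat_lit 573458) (nat_lit 9) (.e (nat_lit 7936) (nat_lit 34) .nil))))))) (.g (nat_lit 1) (.e (nat_lit 333202) (nat_lit 0) .nil) .nil)))) (.nd (nat_lit 9) 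
(.lf (nat_lit 566556) (.g (nat_lit 1673) (.e (nat_lit 434295) (nat_lit 49) (.e (nat_lit 745491) (nat_lit 4) (.e (nat_lit 65617) (nat_lit 10) (.e (nat_lit 344138) (nat_lit 29) (.e (nat_lit 581651) (nat_lit 4) (.e (nat_lit 172107) (nat_lit 10) .nil)))))) (.g (nat_lit 1) (.e (nat_lit 332818) (nat_lit 0) .nil) .nil))) 
(.lf (nat_lit 567068) (.g (nat_lit 1620) (.e (nat_lit 450304) (nat_lit 16) (.e (nat_lit 376860) (nat_lit 21) (.e (nat_lit 57852) (nat_lit 252) (.e (nat_lit 57389) (nat_lit 5) (.e (nat_lit 122624) (nat_lit 13) .nil))))) (.g (nat_lit 0) (.e (nat_lit 334786) (nat_lit 0) .nil) .nil))))) (.nd (nat_lit 8) (.nd (nat_lit 9) 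
(.lf (nat_lit 566428) (.g (nat_lit 2313) (.e (nat_lit 434288) (nat_lit 43) (.e (nat_lit 696344) (nat_lit 8) (.e (nat_lit 172107) (nat_lit 10) (.e (nat_lit 434289) (nat_lit 43) (.e (nat_lit 696343) (nat_lit 8) (.e (nat_lit 172106) (nat_lit 10) .nil)))))) (.g (nat_lit 1) (.e (nat_lit 332507) (nat_lit 0) .nil) .nil))) 
(.lf (nat_lit 566940) (.g (nat_lit 2565) (.e (nat_lit 450304) (nat_lit 5) (.e (nat_lit 114711) (nat_lit 21) (.e (nat_lit 57847) (nat_lit 252) (.e (nat_lit 57407) (nat_lit 12) (.e (nat_lit 336120) (nat_lit 9) .nil))))) (.g (nat_lit 0) (.e (nat_lit 333407) (nat_lit 0) .nil) .nil)))) (.nd (nat_lit 9) 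
(.lf (nat_lit 566684) (.g (nat_lit 2068) (.e (nat_lit 442374) (nat_lit 0) (.e (nat_lit 2059) (nat_lit 142) (.e (nat_lit 704595) (nat_lit 5) (.e (nat_lit 180275) (nat_lit 32) (.e (nat_lit 1512) (nat_lit 108) (.e (nat_lit 343808) (nat_lit 29) .nil)))))) (.g (nat_lit 1) (.e (nat_lit 333001) (nat_lit 0) .nil) .nil))) 
(.lf (nat_lit 567196) (.g (nat_lit 1932) (.e (nat_lit 442403) (nat_lit 20) (.e (nat_lit 3391) (nat_lit 210) (.e (nat_lit 639021) (nat_lit 16) (.e (nat_lit 65619) (nat_lit 10) (.e (nat_lit 344160) (nat_lit 37) (.e (nat_lit 647195) (nat_lit 9) (.e (nat_lit 7936) (nat_lit 34) .nil))))))) (.g (nat_lit 1) (.e (nat_lit 335355) (nat_lit 0) .nil) .nil)))))) 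
(.nd (nat_lit 7) (.nd (nat_lit 8) (.nd (nat_lit 9) 
(.lf (nat_lit 566364) (.g (nat_lit 1045) (.e (nat_lit 434272) (nat_lit 38) (.e (nat_lit 655378) (nat_lit 4) (.e (nat_lit 172113) (nat_lit 10) (.e (nat_lit 434279) (nat_lit 39) .nil)))) (.g (nat_lit 0) (.e (nat_lit 332268) (nat_lit 0) .nil) .nil))) 
(.lf (nat_lit 566876) (.g (nat_lit 1367) (.e (nat_lit 450304) (nat_lit 3) (.e (nat_lit 98334) (nat_lit 18) (.e (nat_lit 164330) (nat_lit 230) (.e (nat_lit 163900) (nat_lit 12) .nil)))) (.g (nat_lit 0) (.e (nat_lit 333323) (nat_lit 0) .nil) .nil)))) (.nd (nat_lit 9) 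
(.lf (nat_lit 566620) (.g (nat_lit 2045) (.e (nat_lit 442373) (nat_lit 0) (.e (nat_lit 1853) (nat_lit 124) (.e (nat_lit 557107) (nat_lit 15) (.e (nat_lit 188441) (nat_lit 20) (.e (nat_lit 3272) (nat_lit 199) (.e (nat_lit 548897) (nat_lit 14) (.e (nat_lit 3004) (nat_lit 186) .nil))))))) (.g (nat_lit 1) (.e (nat_lit 332920) (nat_lit 0) .nil) .nil))) 
(.lf (nat_lit 567132) (.g (nat_lit 2014) (.e (nat_lit 450304) (nat_lit 18) (.e (nat_lit 393254) (nat_lit 18) (.e (nat_lit 164332) (nat_lit 230) (.e (nat_lit 163869) (nat_lit 2) (.e (nat_lit 196619) (nat_lit 9) .nil))))) (.g (nat_lit 0) (.e (nat_lit 334908) (nat_lit 0) .nil) .nil))))) (.nd (nat_lit 8) (.nd (nat_lit 9) 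
(.lf (nat_lit 566492) (.g (nat_lit 3617) (.e (nat_lit 434289) (nat_lit 43) (.e (nat_lit 696344) (nat_lit 8) (.e (nat_lit 172115) (nat_lit 10) (.e (nat_lit 434289) (nat_lit 43) (.e (nat_lit 696344) (nat_lit 8) (.e (nat_lit 172107) (nat_lit 10) .nil)))))) (.g (nat_lit 1) (.e (nat_lit 332686) (nat_lit 0) .nil) .nil))) 
(.lf (nat_lit 567004) (.g (nat_lit 2513) (.e (nat_lit 442390) (nat_lit 11) (.e (nat_lit 336232) (nat_lit 14) (.e (nat_lit 401448) (nat_lit 10) (.e (nat_lit 434287) (nat_lit 43) (.e (nat_lit 696329) (nat_lit 5) (.e (nat_lit 2988) (nat_lit 186) .nil)))))) (.g (nat_lit 1) (.e (nat_lit 334600) (nat_lit 0) .nil) .nil)))) (.nd (nat_lit 9) 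
(.lf (nat_lit 566748) (.g (nat_lit 2952) (.e (nat_lit 442377) (nat_lit 0) (.e (nat_lit 1856) (nat_lit 124) (.e (nat_lit 557101) (nat_lit 13) (.e (nat_lit 172115) (nat_lit 10) (.e (nat_lit 434244) (nat_lit 28) (.e (nat_lit 573449) (nat_lit 9) (.e (nat_lit 460) (nat_lit 34) .nil))))))) (.g (nat_lit 1) (.e (nat_lit 333109) (nat_lit 0) .nil) .nil))) 
(.lf (nat_lit 567260) (.g (nat_lit 2455) (.e (nat_lit 442409) (nat_lit 20) (.e (nat_lit 3297) (nat_lit 202) (.e (nat_lit 573471) (nat_lit 11) (.e (nat_lit 16425) (nat_lit 7) (.e (nat_lit 409617) (nat_lit 10) .nil))))) (.g (nat_lit 0) (.e (nat_lit 335696) (nat_lit 0) .nil) .nil))))))) (.nd (nat_lit 6) (.nd (nat_lit 7) (.nd (nat_lit 8) (.nd (nat_lit 9) 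
(.lf (nat_lit 566332) (.g (nat_lit 5271) (.e (nat_lit 434272) (nat_lit 38) (.e (nat_lit 655375) (nat_lit 3) (.e (nat_lit 163978) (nat_lit 30) (.e (nat_lit 573479) (nat_lit 13) (.e (nat_lit 65604) (nat_lit 9) (.e (nat_lit 336028) (nat_lit 3) (.e (nat_lit 98366) (nat_lit 27) .nil))))))) (.g (nat_lit 1) (.e (nat_lit 332113) (nat_lit 0) .nil) .nil))) 
(.lf (nat_lit 566844) (.g (nat_lit 1052) (.e (nat_lit 442379) (nat_lit 0) (.e (nat_lit 2175) (nat_lit 143) (.e (nat_lit 712745) (nat_lit 27) (.e (nat_lit 425984) (nat_lit 0) (.e (nat_lit 7586) (nat_lit 406) .nil))))) (.g (nat_lit 0) (.e (nat_lit 333263) (nat_lit 0) .nil) .nil)))) (.nd (nat_lit 9) 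
(.lf (nat_lit 566588) (.g (nat_lit 2119) (.e (nat_lit 442372) (nat_lit 0) (.e (nat_lit 1856) (nat_lit 124) (.e (nat_lit 557101) (nat_lit 13) (.e (nat_lit 172115) (nat_lit 10) (.e (nat_lit 434244) (nat_lit 28) (.e (nat_lit 573450) (nat_lit 9) (.e (nat_lit 455) (nat_lit 34) .nil))))))) (.g (nat_lit 1) (.e (nat_lit 332883) (nat_lit 0) .nil) .nil))) 
(.lf (nat_lit 567100) (.g (nat_lit 1333) (.e (nat_lit 450304) (nat_lit 18) (.e (nat_lit 393253) (nat_lit 18) (.e (nat_lit 164325) (nat_lit 230) (.e (nat_lit 163875) (nat_lit 3) (.e (nat_lit 212736) (nat_lit 11) .nil))))) (.g (nat_lit 0) (.e (nat_lit 334863) (nat_lit 0) .nil) .nil))))) (.nd (nat_lit 8) (.nd (nat_lit 9) 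
(.lf (nat_lit 566460) (.g (nat_lit 451) (.e (nat_lit 434289) (nat_lit 43) (.e (nat_lit 696344) (nat_lit 8) (.e (nat_lit 172097) (nat_lit 9) .nil))) (.g (nat_lit 0) (.e (nat_lit 332650) (nat_lit 0) .nil) .nil))) 
(.lf (nat_lit 566972) (.g (nat_lit 3332) (.e (nat_lit 442390) (nat_lit 11) (.e (nat_lit 335986) (nat_lit 1) (.e (nat_lit 57691) (nat_lit 156) (.e (nat_lit 163907) (nat_lit 12) (.e (nat_lit 426436) (nat_lit 18) (.e (nat_lit 98370) (nat_lit 28) .nil)))))) (.g (nat_lit 1) (.e (nat_lit 334384) (nat_lit 0) .nil) .nil)))) (.nd (nat_lit 9) 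
(.lf (nat_lit 566716) (.g (nat_lit 1725) (.e (nat_lit 442374) (nat_lit 0) (.e (nat_lit 2175) (nat_lit 143) (.e (nat_lit 712752) (nat_lit 29) (.e (nat_lit 442428) (nat_lit 24) (.e (nat_lit 229681) (nat_lit 244) .nil))))) (.g (nat_lit 0) (.e (nat_lit 333041) (nat_lit 0) .nil) .nil))) 
(.lf (nat_lit 567228) (.g (nat_lit 3646) (.e (nat_lit 442406) (nat_lit 20) (.e (nat_lit 3238) (nat_lit 197) (.e (nat_lit 532523) (nat_lit 7) (.e (nat_lit 319529) (nat_lit 16) (.e (nat_lit 286733) (nat_lit 2) (.e (nat_lit 90134) (nat_lit 9) (.e (nat_lit 3002) (nat_lit 186) .nil))))))) (.g (nat_lit 1) (.e (nat_lit 335434) (nat_lit 0) .nil) .nil)))))) 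
(.nd (nat_lit 7) (.nd (nat_lit 8) (.nd (nat_lit 9) 
(.lf (nat_lit 566396) (.g (nat_lit 3048) (.e (nat_lit 434272) (nat_lit 38) (.e (nat_lit 655380) (nat_lit 6) (.e (nat_lit 188441) (nat_lit 20) (.e (nat_lit 3409) (nat_lit 212) (.e (nat_lit 655378) (nat_lit 4) (.e (nat_lit 172113) (nat_lit 10) .nil)))))) (.g (nat_lit 1) (.e (nat_lit 332370) (nat_lit 0) .nil) .nil))) 
(.lf (nat_lit 566908) (.g (nat_lit 1881) (.e (nat_lit 450304) (nat_lit 3) (.e (nat_lit 98335) (nat_lit 18) (.e (nat_lit 164330) (nat_lit 230) (.e (nat_lit 163905) (nat_lit 12) (.e (nat_lit 426479) (nat_lit 27) .nil))))) (.g (nat_lit 0) (.e (nat_lit 333365) (nat_lit 0) .nil) .nil)))) (.nd (nat_lit 9) 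
(.lf (nat_lit 566652) (.g (nat_lit 2349) (.e (nat_lit 442374) (nat_lit 0) (.e (nat_lit 1846) (nat_lit 124) (.e (nat_lit 557101) (nat_lit 13) (.e (nat_lit 172115) (nat_lit 10) (.e (nat_lit 434238) (nat_lit 25) (.e (nat_lit 548897) (nat_lit 14) (.e (nat_lit 2988) (nat_lit 186) .nil))))))) (.g (nat_lit 1) (.e (nat_lit 332958) (nat_lit 0) .nil) .nil))) 
(.lf (nat_lit 567164) (.g (nat_lit 1312) (.e (nat_lit 442399) (nat_lit 20) (.e (nat_lit 3571) (nat_lit 222) (.e (nat_lit 737300) (nat_lit 7) (.e (nat_lit 286747) (nat_lit 9) (.e (nat_lit 336013) (nat_lit 2) (.e (nat_lit 98048) (nat_lit 0) (.e (nat_lit 463) (nat_lit 34) .nil))))))) (.g (nat_lit 1) (.e (nat_lit 335174) (nat_lit 0) .nil) .nil))))) (.nd (nat_lit 8) (.nd (nat_lit 9) 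
(.lf (nat_lit 566524) (.g (nat_lit 3982) (.e (nat_lit 434289) (nat_lit 43) (.e (nat_lit 696346) (nat_lit 10) (.e (nat_lit 188441) (nat_lit 20) (.e (nat_lit 3469) (nat_lit 217) (.e (nat_lit 696344) (nat_lit 8) (.e (nat_lit 172106) (nat_lit 10) .nil)))))) (.g (nat_lit 1) (.e (nat_lit 332743) (nat_lit 0) .nil) .nil))) 
(.lf (nat_lit 567036) (.g (nat_lit 2263) (.e (nat_lit 450304) (nat_lit 13) (.e (nat_lit 352309) (nat_lit 21) (.e (nat_lit 57854) (nat_lit 252) (.e (nat_lit 57389) (nat_lit 5) (.e (nat_lit 122624) (nat_lit 13) .nil))))) (.g (nat_lit 0) (.e (nat_lit 334734) (nat_lit 0) .nil) .nil)))) (.nd (nat_lit 9) 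
(.lf (nat_lit 566780) (.g (nat_lit 1416) (.e (nat_lit 442378) (nat_lit 0) (.e (nat_lit 1856) (nat_lit 124) (.e (nat_lit 557107) (nat_lit 15) (.e (nat_lit 188439) (nat_lit 20) .nil)))) (.g (nat_lit 0) (.e (nat_lit 333154) (nat_lit 0) .nil) .nil))) 
(.lf (nat_lit 567292) (.g (nat_lit 1527) (.e (nat_lit 442411) (nat_lit 20) (.e (nat_lit 3271) (nat_lit 199) (.e (nat_lit 548913) (nat_lit 18) (.e (nat_lit 172125) (nat_lit 14) (.e (nat_lit 491524) (nat_lit 0) (.e (nat_lit 1812) (nat_lit 120) (.e (nat_lit 524319) (nat_lit 11) .nil))))))) (.g (nat_lit 1) (.e (nat_lit 335866) (nat_lit 0) .nil) .nil))))))))))) 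
(.nd (nat_lit 2) (.nd (nat_lit 3) (.nd (nat_lit 4) (.nd (nat_lit 5) (.nd (nat_lit 6) 
(.nd (nat_lit 7) (.nd (nat_lit 8) (.nd (nat_lit 9) 
(.lf (nat_lit 566274) (.g (nat_lit 353) (.e (nat_lit 434271) (nat_lit 38) (.e (nat_lit 655375) (nat_lit 3) (.e (nat_lit 163979) (nat_lit 30) .nil))) (.g (nat_lit 0) (.e (nat_lit 331892) (nat_lit 0) .nil) .nil))) 
(.lf (nat_lit 566786) (.g (nat_lit 1233) (.e (nat_lit 442378) (nat_lit 0) (.e (nat_lit 2059) (nat_lit 142) (.e (nat_lit 704595) (nat_lit 5) (.e (nat_lit 180285) (nat_lit 45) .nil)))) (.g (nat_lit 0) (.e (nat_lit 333161) (nat_lit 0) .nil) .nil)))) (.nd (nat_lit 9) 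
(.lf (nat_lit 566530) (.g (nat_lit 1822) (.e (nat_lit 434291) (nat_lit 44) (.e (nat_lit 704737) (nat_lit 11) (.e (nat_lit 16470) (nat_lit 14) (.e (nat_lit 499456) (nat_lit 25) .nil)))) (.g (nat_lit 0) (.e (nat_lit 332769) (nat_lit 0) .nil) .nil))) 
(.lf (nat_lit 567042) (.g (nat_lit 645) (.e (nat_lit 450304) (nat_lit 16) (.e (nat_lit 376857) (nat_lit 21) (.e (nat_lit 57848) (nat_lit 252) (.e (nat_lit 57390) (nat_lit 5) (.e (nat_lit 122624) (nat_lit 13) .nil))))) (.g (nat_lit 0) (.e (nat_lit 334755) (nat_lit 0) .nil) .nil))))) (.nd (nat_lit 8) (.nd (nat_lit 9) 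
(.lf (nat_lit 566402) (.g (nat_lit 4456) (.e (nat_lit 434272) (nat_lit 38) (.e (nat_lit 655380) (nat_lit 6) (.e (nat_lit 188455) (nat_lit 24) (.e (nat_lit 229663) (nat_lit 240) (.e (nat_lit 2630) (nat_lit 164) (.e (nat_lit 172113) (nat_lit 10) .nil)))))) (.g (nat_lit 1) (.e (nat_lit 332383) (nat_lit 0) .nil) .nil))) 
(.lf (nat_lit 566914) (.g (nat_lit 1248) (.e (nat_lit 450304) (nat_lit 3) (.e (nat_lit 98335) (nat_lit 18) (.e (nat_lit 164332) (nat_lit 230) (.e (nat_lit 163901) (nat_lit 12) .nil)))) (.g (nat_lit 0) (.e (nat_lit 333375) (nat_lit 0) .nil) .nil)))) (.nd (nat_lit 9) 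
(.lf (nat_lit 566658) (.g (nat_lit 1794) (.e (nat_lit 442374) (nat_lit 0) (.e (nat_lit 1856) (nat_lit 124) (.e (nat_lit 557095) (nat_lit 13) (.e (nat_lit 172126) (nat_lit 14) (.e (nat_lit 491540) (nat_lit 3) .nil))))) (.g (nat_lit 0) (.e (nat_lit 332968) (nat_lit 0) .nil) .nil))) 
(.lf (nat_lit 567170) (.g (nat_lit 1623) (.e (nat_lit 442402) (nat_lit 20) (.e (nat_lit 3271) (nat_lit 199) (.e (nat_lit 548913) (nat_lit 18) (.e (nat_lit 172126) (nat_lit 14) (.e (nat_lit 491540) (nat_lit 3) .nil))))) (.g (nat_lit 0) (.e (nat_lit 335225) (nat_lit 0) .nil) .nil)))))) (.nd (nat_lit 7) (.nd (nat_lit 8) (.nd (nat_lit 9) 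
(.lf (nat_lit 566338) (.g (nat_lit 2871) (.e (nat_lit 434272) (nat_lit 38) (.e (nat_lit 655375) (nat_lit 3) (.e (nat_lit 163978) (nat_lit 30) (.e (nat_lit 573482) (nat_lit 13) (.e (nat_lit 65610) (nat_lit 10) .nil))))) (.g (nat_lit 0) (.e (nat_lit 332119) (nat_lit 0) .nil) .nil))) 
(.lf (nat_lit 566850) (.g (nat_lit 1549) (.e (nat_lit 450304) (nat_lit 0) (.e (nat_lit 1796) (nat_lit 119) (.e (nat_lit 516119) (nat_lit 1) (.e (nat_lit 164326) (nat_lit 230) (.e (nat_lit 163903) (nat_lit 12) .nil))))) (.g (nat_lit 0) (.e (nat_lit 333276) (nat_lit 0) .nil) .nil)))) (.nd (nat_lit 9) 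
(.lf (nat_lit 566594) (.g (nat_lit 1766) (.e (nat_lit 442373) (nat_lit 0) (.e (nat_lit 1796) (nat_lit 119) (.e (nat_lit 516120) (nat_lit 1) (.e (nat_lit 164329) (nat_lit 230) (.e (nat_lit 163941) (nat_lit 19) (.e (nat_lit 491264) (nat_lit 11) .nil)))))) (.g (nat_lit 1) (.e (nat_lit 332892) (nat_lit 0) .nil) .nil))) 
(.lf (nat_lit 567106) (.g (nat_lit 2083) (.e (nat_lit 450304) (nat_lit 18) (.e (nat_lit 393253) (nat_lit 18) (.e (nat_lit 164327) (nat_lit 230) (.e (nat_lit 163873) (nat_lit 3) (.e (nat_lit 212736) (nat_lit 11) .nil))))) (.g (nat_lit 0) (.e (nat_lit 334869) (nat_lit 0) .nil) .nil))))) (.nd (nat_lit 8) (.nd (nat_lit 9) 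
(.lf (nat_lit 566466) (.g (nat_lit 2563) (.e (nat_lit 434289) (nat_lit 43) (.e (nat_lit 696344) (nat_lit 8) (.e (nat_lit 172106) (nat_lit 10) (.e (nat_lit 434209) (nat_lit 18) (.e (nat_lit 6426) (nat_lit 342) (.e (nat_lit 229402) (nat_lit 12) (.e (nat_lit 426285) (nat_lit 10) .nil))))))) (.g (nat_lit 1) (.e (nat_lit 332657) (nat_lit 0) .nil) .nil))) 
(.lf (nat_lit 566978) (.g (nat_lit 2827) (.e (nat_lit 442390) (nat_lit 11) (.e (nat_lit 336229) (nat_lit 14) (.e (nat_lit 401448) (nat_lit 10) (.e (nat_lit 434289) (nat_lit 43) (.e (nat_lit 696328) (nat_lit 5) (.e (nat_lit 3004) (nat_lit 186) .nil)))))) (.g (nat_lit 1) (.e (nat_lit 334431) (nat_lit 0) .nil) .nil)))) (.nd (nat_lit 9) 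
(.lf (nat_lit 566722) (.g (nat_lit 220) (.e (nat_lit 442375) (nat_lit 0) (.e (nat_lit 2147) (nat_lit 142) (.e (nat_lit 704597) (nat_lit 6) .nil))) (.g (nat_lit 0) (.e (nat_lit 333049) (nat_lit 0) .nil) .nil))) 
(.lf (nat_lit 567234) (.g (nat_lit 2552) (.e (nat_lit 442406) (nat_lit 20) (.e (nat_lit 3238) (nat_lit 197) (.e (nat_lit 532523) (nat_lit 7) (.e (nat_lit 319533) (nat_lit 16) (.e (nat_lit 286732) (nat_lit 2) (.e (nat_lit 90134) (nat_lit 9) (.e (nat_lit 2992) (nat_lit 186) .nil))))))) (.g (nat_lit 1) (.e (nat_lit 335440) (nat_lit 0) .nil) .nil))))))) 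
(.nd (nat_lit 6) (.nd (nat_lit 7) (.nd (nat_lit 8) (.nd (nat_lit 9) 
(.lf (nat_lit 566306) (.g (nat_lit 2355) (.e (nat_lit 434271) (nat_lit 38) (.e (nat_lit 655380) (nat_lit 6) (.e (nat_lit 188439) (nat_lit 20) (.e (nat_lit 3409) (nat_lit 212) (.e (nat_lit 655378) (nat_lit 4) (.e (nat_lit 172115) (nat_lit 10) .nil)))))) (.g (nat_lit 1) (.e (nat_lit 332015) (nat_lit 0) .nil) .nil))) 
(.lf (nat_lit 566818) (.g (nat_lit 4037) (.e (nat_lit 442379) (nat_lit 0) (.e (nat_lit 1856) (nat_lit 124) (.e (nat_lit 557100) (nat_lit 13) (.e (nat_lit 172113) (nat_lit 10) (.e (nat_lit 434247) (nat_lit 28) (.e (nat_lit 573465) (nat_lit 9) (.e (nat_lit 461) (nat_lit 34) .nil))))))) (.g (nat_lit 1) (.e (nat_lit 333208) (nat_lit 0) .nil) .nil)))) (.nd (nat_lit 9) 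
(.lf (nat_lit 566562) (.g (nat_lit 1770) (.e (nat_lit 434295) (nat_lit 49) (.e (nat_lit 745491) (nat_lit 4) (.e (nat_lit 65619) (nat_lit 10) (.e (nat_lit 344138) (nat_lit 29) (.e (nat_lit 581651) (nat_lit 4) (.e (nat_lit 172107) (nat_lit 10) .nil)))))) (.g (nat_lit 1) (.e (nat_lit 332824) (nat_lit 0) .nil) .nil))) 
(.lf (nat_lit 567074) (.g (nat_lit 739) (.e (nat_lit 450304) (nat_lit 18) (.e (nat_lit 393238) (nat_lit 17) (.e (nat_lit 3401) (nat_lit 211) (.e (nat_lit 647170) (nat_lit 0) .nil)))) (.g (nat_lit 0) (.e (nat_lit 334807) (nat_lit 0) .nil) .nil))))) (.nd (nat_lit 8) (.nd (nat_lit 9) 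
(.lf (nat_lit 566434) (.g (nat_lit 3597) (.e (nat_lit 434288) (nat_lit 43) (.e (nat_lit 696344) (nat_lit 8) (.e (nat_lit 172113) (nat_lit 10) (.e (nat_lit 434289) (nat_lit 43) (.e (nat_lit 696344) (nat_lit 8) (.e (nat_lit 172106) (nat_lit 10) .nil)))))) (.g (nat_lit 1) (.e (nat_lit 332513) (nat_lit 0) .nil) .nil))) 
(.lf (nat_lit 566946) (.g (nat_lit 1320) (.e (nat_lit 442385) (nat_lit 11) (.e (nat_lit 335986) (nat_lit 1) (.e (nat_lit 57691) (nat_lit 156) (.e (nat_lit 163905) (nat_lit 12) .nil)))) (.g (nat_lit 0) (.e (nat_lit 333829) (nat_lit 0) .nil) .nil)))) (.nd (nat_lit 9) 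
(.lf (nat_lit 566690) (.g (nat_lit 2371) (.e (nat_lit 442374) (nat_lit 0) (.e (nat_lit 2059) (nat_lit 142) (.e (nat_lit 704595) (nat_lit 5) (.e (nat_lit 180284) (nat_lit 45) (.e (nat_lit 2789) (nat_lit 179) (.e (nat_lit 302848) (nat_lit 29) .nil)))))) (.g (nat_lit 1) (.e (nat_lit 333007) (nat_lit 0) .nil) .nil))) 
(.lf (nat_lit 567202) (.g (nat_lit 4273) (.e (nat_lit 442404) (nat_lit 20) (.e (nat_lit 3238) (nat_lit 197) (.e (nat_lit 532523) (nat_lit 7) (.e (nat_lit 319531) (nat_lit 16) (.e (nat_lit 286733) (nat_lit 2) (.e (nat_lit 90134) (nat_lit 9) (.e (nat_lit 3002) (nat_lit 186) .nil))))))) (.g (nat_lit 1) (.e (nat_lit 335379) (nat_lit 0) .nil) .nil)))))) 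
(.nd (nat_lit 7) (.nd (nat_lit 8) (.nd (nat_lit 9) 
(.lf (nat_lit 566370) (.g (nat_lit 4210) (.e (nat_lit 434272) (nat_lit 38) (.e (nat_lit 655378) (nat_lit 4) (.e (nat_lit 172126) (nat_lit 14) (.e (nat_lit 491549) (nat_lit 9) (.e (nat_lit 336369) (nat_lit 27) (.e (nat_lit 426276) (nat_lit 10) .nil)))))) (.g (nat_lit 1) (.e (nat_lit 332328) (nat_lit 0) .nil) .nil))) 
(.lf (nat_lit 566882) (.g (nat_lit 2244) (.e (nat_lit 450304) (nat_lit 3) (.e (nat_lit 98334) (nat_lit 18) (.e (nat_lit 164330) (nat_lit 230) (.e (nat_lit 163913) (nat_lit 12) (.e (nat_lit 426485) (nat_lit 27) .nil))))) (.g (nat_lit 0) (.e (nat_lit 333330) (nat_lit 0) .nil) .nil)))) (.nd (nat_lit 9) 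
(.lf (nat_lit 566626) (.g (nat_lit 2366) (.e (nat_lit 442374) (nat_lit 0) (.e (nat_lit 1800) (nat_lit 119) (.e (nat_lit 516117) (nat_lit 1) (.e (nat_lit 164332) (nat_lit 230) (.e (nat_lit 163941) (nat_lit 19) (.e (nat_lit 491264) (nat_lit 11) .nil)))))) (.g (nat_lit 1) (.e (nat_lit 332931) (nat_lit 0) .nil) .nil))) 
(.lf (nat_lit 567138) (.g (nat_lit 2690) (.e (nat_lit 442391) (nat_lit 19) (.e (nat_lit 401414) (nat_lit 0) (.e (nat_lit 3459) (nat_lit 216) (.e (nat_lit 688139) (nat_lit 5) (.e (nat_lit 2852) (nat_lit 184) (.e (nat_lit 426438) (nat_lit 18) (.e (nat_lit 98370) (nat_lit 28) .nil))))))) (.g (nat_lit 1) (.e (nat_lit 334918) (nat_lit 0) .nil) .nil))))) (.nd (nat_lit 8) (.nd (nat_lit 9) 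
(.lf (nat_lit 566498) (.g (nat_lit 3340) (.e (nat_lit 434289) (nat_lit 43) (.e (nat_lit 696346) (nat_lit 10) (.e (nat_lit 188421) (nat_lit 11) (.e (nat_lit 336231) (nat_lit 14) (.e (nat_lit 401446) (nat_lit 10) .nil))))) (.g (nat_lit 1) (.e (nat_lit 332715) (nat_lit 0) .nil) .nil))) 
(.lf (nat_lit 567010) (.g (nat_lit 2059) (.e (nat_lit 442390) (nat_lit 11) (.e (nat_lit 336232) (nat_lit 14) (.e (nat_lit 401448) (nat_lit 10) (.e (nat_lit 434289) (nat_lit 43) (.e (nat_lit 696330) (nat_lit 5) .nil))))) (.g (nat_lit 0) (.e (nat_lit 334606) (nat_lit 0) .nil) .nil)))) (.nd (nat_lit 9) 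
(.lf (nat_lit 566754) (.g (nat_lit 1591) (.e (nat_lit 442377) (nat_lit 0) (.e (nat_lit 2059) (nat_lit 142) (.e (nat_lit 704595) (nat_lit 5) (.e (nat_lit 180288) (nat_lit 45) (.e (nat_lit 2788) (nat_lit 179) .nil))))) (.g (nat_lit 0) (.e (nat_lit 333123) (nat_lit 0) .nil) .nil))) 
(.lf (nat_lit 567266) (.g (nat_lit 2310) (.e (nat_lit 442409) (nat_lit 20) (.e (nat_lit 3391) (nat_lit 210) (.e (nat_lit 639021) (nat_lit 16) (.e (nat_lit 65610) (nat_lit 10) (.e (nat_lit 344160) (nat_lit 37) (.e (nat_lit 647190) (nat_lit 9) (.e (nat_lit 7936) (nat_lit 34) .nil))))))) (.g (nat_lit 1) (.e (nat_lit 335702) (nat_lit 0) .nil) .nil)))))))) 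
(.nd (nat_lit 5) (.nd (nat_lit 6) (.nd (nat_lit 7) (.nd (nat_lit 8) (.nd (nat_lit 9) 
(.lf (nat_lit 566290) (.g (nat_lit 2861) (.e (nat_lit 434271) (nat_lit 38) (.e (nat_lit 655378) (nat_lit 4) (.e (nat_lit 172125) (nat_lit 14) (.e (nat_lit 491570) (nat_lit 13) (.e (nat_lit 393282) (nat_lit 24) .nil))))) (.g (nat_lit 1) (.e (nat_lit 331978) (nat_lit 0) .nil) .nil))) 
(.lf (nat_lit 566802) (.g (nat_lit 2107) (.e (nat_lit 442379) (nat_lit 0) (.e (nat_lit 1800) (nat_lit 119) (.e (nat_lit 516117) (nat_lit 1) (.e (nat_lit 164329) (nat_lit 230) (.e (nat_lit 163941) (nat_lit 19) (.e (nat_lit 491264) (nat_lit 11) .nil)))))) (.g (nat_lit 1) (.e (nat_lit 333192) (nat_lit 0) .nil) .nil)))) (.nd (nat_lit 9) 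
(.lf (nat_lit 566546) (.g (nat_lit 2677) (.e (nat_lit 434292) (nat_lit 44) (.e (nat_lit 704737) (nat_lit 11) (.e (nat_lit 16473) (nat_lit 14) (.e (nat_lit 491526) (nat_lit 0) (.e (nat_lit 2270) (nat_lit 149) .nil))))) (.g (nat_lit 0) (.e (nat_lit 332799) (nat_lit 0) .nil) .nil))) 
(.lf (nat_lit 567058) (.g (nat_lit 1290) (.e (nat_lit 450304) (nat_lit 16) (.e (nat_lit 376859) (nat_lit 21) (.e (nat_lit 57846) (nat_lit 252) (.e (nat_lit 57390) (nat_lit 5) (.e (nat_lit 122624) (nat_lit 13) .nil))))) (.g (nat_lit 0) (.e (nat_lit 334774) (nat_lit 0) .nil) .nil))))) (.nd (nat_lit 8) (.nd (nat_lit 9) 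
(.lf (nat_lit 566418) (.g (nat_lit 2134) (.e (nat_lit 434287) (nat_lit 43) (.e (nat_lit 696344) (nat_lit 8) (.e (nat_lit 172116) (nat_lit 10) (.e (nat_lit 434289) (nat_lit 43) (.e (nat_lit 696343) (nat_lit 8) (.e (nat_lit 172113) (nat_lit 10) .nil)))))) (.g (nat_lit 1) (.e (nat_lit 332479) (nat_lit 0) .nil) .nil))) 
(.lf (nat_lit 566930) (.g (nat_lit 410) (.e (nat_lit 450304) (nat_lit 3) (.e (nat_lit 98341) (nat_lit 20) (.e (nat_lit 229120) (nat_lit 15) .nil))) (.g (nat_lit 0) (.e (nat_lit 333395) (nat_lit 0) .nil) .nil)))) (.nd (nat_lit 9) 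
(.lf (nat_lit 566674) (.g (nat_lit 1411) (.e (nat_lit 442374) (nat_lit 0) (.e (nat_lit 1856) (nat_lit 124) (.e (nat_lit 557107) (nat_lit 15) (.e (nat_lit 188438) (nat_lit 20) .nil)))) (.g (nat_lit 0) (.e (nat_lit 332984) (nat_lit 0) .nil) .nil))) 
(.lf (nat_lit 567186) (.g (nat_lit 3069) (.e (nat_lit 442402) (nat_lit 20) (.e (nat_lit 3409) (nat_lit 212) (.e (nat_lit 655378) (nat_lit 4) (.e (nat_lit 172124) (nat_lit 14) (.e (nat_lit 491549) (nat_lit 9) (.e (nat_lit 336430) (nat_lit 29) .nil)))))) (.g (nat_lit 1) (.e (nat_lit 335286) (nat_lit 0) .nil) .nil)))))) (.nd (nat_lit 7) (.nd (nat_lit 8) (.nd (nat_lit 9) 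
(.lf (nat_lit 566354) (.g (nat_lit 4762) (.e (nat_lit 434272) (nat_lit 38) (.e (nat_lit 655375) (nat_lit 3) (.e (nat_lit 163979) (nat_lit 30) (.e (nat_lit 573493) (nat_lit 15) (.e (nat_lit 81956) (nat_lit 23) (.e (nat_lit 98367) (nat_lit 27) .nil)))))) (.g (nat_lit 1) (.e (nat_lit 332195) (nat_lit 0) .nil) .nil))) 
(.lf (nat_lit 566866) (.g (nat_lit 1369) (.e (nat_lit 450304) (nat_lit 3) (.e (nat_lit 98333) (nat_lit 18) (.e (nat_lit 164325) (nat_lit 230) (.e (nat_lit 163944) (nat_lit 19) (.e (nat_lit 491264) (nat_lit 11) .nil))))) (.g (nat_lit 0) (.e (nat_lit 333307) (nat_lit 0) .nil) .nil)))) (.nd (nat_lit 9) 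
(.lf (nat_lit 566610) (.g (nat_lit 1233) (.e (nat_lit 442373) (nat_lit 0) (.e (nat_lit 1853) (nat_lit 124) (.e (nat_lit 557103) (nat_lit 14) (.e (nat_lit 180278) (nat_lit 32) .nil)))) (.g (nat_lit 0) (.e (nat_lit 332910) (nat_lit 0) .nil) .nil))) 
(.lf (nat_lit 567122) (.g (nat_lit 1712) (.e (nat_lit 450304) (nat_lit 18) (.e (nat_lit 393254) (nat_lit 18) (.e (nat_lit 164324) (nat_lit 230) (.e (nat_lit 163874) (nat_lit 3) (.e (nat_lit 212736) (nat_lit 11) .nil))))) (.g (nat_lit 0) (.e (nat_lit 334894) (nat_lit 0) .nil) .nil))))) (.nd (nat_lit 8) (.nd (nat_lit 9) 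
(.lf (nat_lit 566482) (.g (nat_lit 1732) (.e (nat_lit 434289) (nat_lit 43) (.e (nat_lit 696344) (nat_lit 8) (.e (nat_lit 172113) (nat_lit 10) (.e (nat_lit 434288) (nat_lit 43) (.e (nat_lit 696344) (nat_lit 8) .nil))))) (.g (nat_lit 0) (.e (nat_lit 332675) (nat_lit 0) .nil) .nil))) 
(.lf (nat_lit 566994) (.g (nat_lit 341) (.e (nat_lit 442390) (nat_lit 11) (.e (nat_lit 336232) (nat_lit 14) (.e (nat_lit 401446) (nat_lit 10) .nil))) (.g (nat_lit 0) (.e (nat_lit 334545) (nat_lit 0) .nil) .nil)))) (.nd (nat_lit 9) 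
(.lf (nat_lit 566738) (.g (nat_lit 2160) (.e (nat_lit 442377) (nat_lit 0) (.e (nat_lit 1800) (nat_lit 119) (.e (nat_lit 516119) (nat_lit 1) (.e (nat_lit 164322) (nat_lit 230) (.e (nat_lit 163942) (nat_lit 19) .nil))))) (.g (nat_lit 0) (.e (nat_lit 333099) (nat_lit 0) .nil) .nil))) 
(.lf (nat_lit 567250) (.g (nat_lit 2447) (.e (nat_lit 442407) (nat_lit 20) (.e (nat_lit 3297) (nat_lit 202) (.e (nat_lit 573450) (nat_lit 9) (.e (nat_lit 375) (nat_lit 32) (.e (nat_lit 426173) (nat_lit 7) .nil))))) (.g (nat_lit 0) (.e (nat_lit 335473) (nat_lit 0) .nil) .nil))))))) (.nd (nat_lit 6) (.nd (nat_lit 7) (.nd (nat_lit 8) (.nd (nat_lit 9) 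
(.lf (nat_lit 566322) (.g (nat_lit 2752) (.e (nat_lit 434272) (nat_lit 38) (.e (nat_lit 655373) (nat_lit 3) (.e (nat_lit 163973) (nat_lit 30) (.e (nat_lit 573484) (nat_lit 13) (.e (nat_lit 65610) (nat_lit 10) (.e (nat_lit 344117) (nat_lit 21) (.e (nat_lit 516159) (nat_lit 10) .nil))))))) (.g (nat_lit 1) (.e (nat_lit 332101) (nat_lit 0) .nil) .nil))) 
(.lf (nat_lit 566834) (.g (nat_lit 1736) (.e (nat_lit 442379) (nat_lit 0) (.e (nat_lit 2059) (nat_lit 142) (.e (nat_lit 704592) (nat_lit 4) (.e (nat_lit 172126) (nat_lit 14) (.e (nat_lit 491547) (nat_lit 9) .nil))))) (.g (nat_lit 0) (.e (nat_lit 333247) (nat_lit 0) .nil) .nil)))) (.nd (nat_lit 9) 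
(.lf (nat_lit 566578) (.g (nat_lit 1670) (.e (nat_lit 442372) (nat_lit 0) (.e (nat_lit 1846) (nat_lit 124) (.e (nat_lit 557097) (nat_lit 13) (.e (nat_lit 172126) (nat_lit 14) (.e (nat_lit 491540) (nat_lit 3) .nil))))) (.g (nat_lit 0) (.e (nat_lit 332873) (nat_lit 0) .nil) .nil))) 
(.lf (nat_lit 567090) (.g (nat_lit 1121) (.e (nat_lit 450304) (nat_lit 18) (.e (nat_lit 393252) (nat_lit 18) (.e (nat_lit 164330) (nat_lit 230) (.e (nat_lit 163873) (nat_lit 3) .nil)))) (.g (nat_lit 0) (.e (nat_lit 334843) (nat_lit 0) .nil) .nil))))) (.nd (nat_lit 8) (.nd (nat_lit 9) 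
(.lf (nat_lit 566450) (.g (nat_lit 3087) (.e (nat_lit 434289) (nat_lit 43) (.e (nat_lit 696343) (nat_lit 8) (.e (nat_lit 172115) (nat_lit 10) (.e (nat_lit 434289) (nat_lit 43) (.e (nat_lit 696344) (nat_lit 8) (.e (nat_lit 172107) (nat_lit 10) .nil)))))) (.g (nat_lit 1) (.e (nat_lit 332632) (nat_lit 0) .nil) .nil))) 
(.lf (nat_lit 566962) (.g (nat_lit 2095) (.e (nat_lit 442389) (nat_lit 11) (.e (nat_lit 336390) (nat_lit 27) (.e (nat_lit 426100) (nat_lit 1) (.e (nat_lit 164398) (nat_lit 256) (.e (nat_lit 57379) (nat_lit 3) .nil))))) (.g (nat_lit 0) (.e (nat_lit 334231) (nat_lit 0) .nil) .nil)))) (.nd (nat_lit 9) 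
(.lf (nat_lit 566706) (.g (nat_lit 1413) (.e (nat_lit 442374) (nat_lit 0) (.e (nat_lit 2174) (nat_lit 143) (.e (nat_lit 712745) (nat_lit 27) (.e (nat_lit 426318) (nat_lit 12) .nil)))) (.g (nat_lit 0) (.e (nat_lit 333028) (nat_lit 0) .nil) .nil))) 
(.lf (nat_lit 567218) (.g (nat_lit 3650) (.e (nat_lit 442406) (nat_lit 20) (.e (nat_lit 3238) (nat_lit 197) (.e (nat_lit 532522) (nat_lit 7) (.e (nat_lit 319531) (nat_lit 16) (.e (nat_lit 286733) (nat_lit 2) (.e (nat_lit 90134) (nat_lit 9) (.e (nat_lit 3002) (nat_lit 186) .nil))))))) (.g (nat_lit 1) (.e (nat_lit 335424) (nat_lit 0) .nil) .nil)))))) 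
(.nd (nat_lit 7) (.nd (nat_lit 8) (.nd (nat_lit 9) 
(.lf (nat_lit 566386) (.g (nat_lit 2249) (.e (nat_lit 434272) (nat_lit 38) (.e (nat_lit 655380) (nat_lit 6) (.e (nat_lit 188438) (nat_lit 20) (.e (nat_lit 3409) (nat_lit 212) (.e (nat_lit 655378) (nat_lit 4) (.e (nat_lit 172113) (nat_lit 10) .nil)))))) (.g (nat_lit 1) (.e (nat_lit 332360) (nat_lit 0) .nil) .nil))) 
(.lf (nat_lit 566898) (.g (nat_lit 990) (.e (nat_lit 450304) (nat_lit 3) (.e (nat_lit 98335) (nat_lit 18) (.e (nat_lit 164326) (nat_lit 230) (.e (nat_lit 163942) (nat_lit 19) (.e (nat_lit 491264) (nat_lit 11) .nil))))) (.g (nat_lit 0) (.e (nat_lit 333352) (nat_lit 0) .nil) .nil)))) (.nd (nat_lit 9) 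
(.lf (nat_lit 566642) (.g (nat_lit 2551) (.e (nat_lit 442374) (nat_lit 0) (.e (nat_lit 1800) (nat_lit 119) (.e (nat_lit 516120) (nat_lit 1) (.e (nat_lit 164331) (nat_lit 230) (.e (nat_lit 163941) (nat_lit 19) (.e (nat_lit 491264) (nat_lit 11) .nil)))))) (.g (nat_lit 1) (.e (nat_lit 332947) (nat_lit 0) .nil) .nil))) 
(.lf (nat_lit 567154) (.g (nat_lit 2399) (.e (nat_lit 442399) (nat_lit 20) (.e (nat_lit 3397) (nat_lit 211) (.e (nat_lit 647183) (nat_lit 4) (.e (nat_lit 172079) (nat_lit 7) (.e (nat_lit 409618) (nat_lit 10) (.e (nat_lit 5362) (nat_lit 298) (.e (nat_lit 463) (nat_lit 34) .nil))))))) (.g (nat_lit 1) (.e (nat_lit 335102) (nat_lit 0) .nil) .nil))))) (.nd (nat_lit 8) (.nd (nat_lit 9) 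
(.lf (nat_lit 566514) (.g (nat_lit 3653) (.e (nat_lit 434289) (nat_lit 43) (.e (nat_lit 696346) (nat_lit 10) (.e (nat_lit 188439) (nat_lit 20) (.e (nat_lit 3469) (nat_lit 217) (.e (nat_lit 696344) (nat_lit 8) (.e (nat_lit 172106) (nat_lit 10) .nil)))))) (.g (nat_lit 1) (.e (nat_lit 332733) (nat_lit 0) .nil) .nil))) 
(.lf (nat_lit 567026) (.g (nat_lit 1268) (.e (nat_lit 450304) (nat_lit 13) (.e (nat_lit 352307) (nat_lit 21) (.e (nat_lit 57854) (nat_lit 252) (.e (nat_lit 57388) (nat_lit 5) .nil)))) (.g (nat_lit 0) (.e (nat_lit 334724) (nat_lit 0) .nil) .nil)))) (.nd (nat_lit 9) 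
(.lf (nat_lit 566770) (.g (nat_lit 2811) (.e (nat_lit 442378) (nat_lit 0) (.e (nat_lit 1800) (nat_lit 119) (.e (nat_lit 516117) (nat_lit 1) (.e (nat_lit 164330) (nat_lit 230) (.e (nat_lit 163941) (nat_lit 19) .nil))))) (.g (nat_lit 0) (.e (nat_lit 333144) (nat_lit 0) .nil) .nil))) 
(.lf (nat_lit 567282) (.g (nat_lit 816) (.e (nat_lit 442409) (nat_lit 20) (.e (nat_lit 3409) (nat_lit 212) (.e (nat_lit 655378) (nat_lit 4) (.e (nat_lit 172081) (nat_lit 7) (.e (nat_lit 417536) (nat_lit 16) .nil))))) (.g (nat_lit 0) (.e (nat_lit 335769) (nat_lit 0) .nil) .nil))))))))) (.nd (nat_lit 4) (.nd (nat_lit 5) (.nd (nat_lit 6) (.nd (nat_lit 7) (.nd (nat_lit 8) (.nd (nat_lit 9) 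
(.lf (nat_lit 566282) (.g (nat_lit 1316) (.e (nat_lit 434271) (nat_lit 38) (.e (nat_lit 655378) (nat_lit 4) (.e (nat_lit 172089) (nat_lit 9) (.e (nat_lit 426025) (nat_lit 0) (.e (nat_lit 3399) (nat_lit 211) .nil))))) (.g (nat_lit 0) (.e (nat_lit 331917) (nat_lit 0) .nil) .nil))) 
(.lf (nat_lit 566794) (.g (nat_lit 1975) (.e (nat_lit 442379) (nat_lit 0) (.e (nat_lit 1781) (nat_lit 119) (.e (nat_lit 516117) (nat_lit 1) (.e (nat_lit 164329) (nat_lit 230) (.e (nat_lit 163942) (nat_lit 19) .nil))))) (.g (nat_lit 0) (.e (nat_lit 333172) (nat_lit 0) .nil) .nil)))) (.nd (nat_lit 9) 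
(.lf (nat_lit 566538) (.g (nat_lit 4442) (.e (nat_lit 434291) (nat_lit 44) (.e (nat_lit 704738) (nat_lit 11) (.e (nat_lit 16425) (nat_lit 7) (.e (nat_lit 409617) (nat_lit 10) (.e (nat_lit 848) (nat_lit 73) (.e (nat_lit 761905) (nat_lit 16) (.e (nat_lit 179968) (nat_lit 10) .nil))))))) (.g (nat_lit 1) (.e (nat_lit 332777) (nat_lit 0) .nil) .nil))) 
(.lf (nat_lit 567050) (.g (nat_lit 1528) (.e (nat_lit 450304) (nat_lit 16) (.e (nat_lit 376857) (nat_lit 21) (.e (nat_lit 57853) (nat_lit 252) (.e (nat_lit 57389) (nat_lit 5) (.e (nat_lit 122624) (nat_lit 13) .nil))))) (.g (nat_lit 0) (.e (nat_lit 334763) (nat_lit 0) .nil) .nil))))) (.nd (nat_lit 8) (.nd (nat_lit 9) 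
(.lf (nat_lit 566410) (.g (nat_lit 1729) (.e (nat_lit 434287) (nat_lit 43) (.e (nat_lit 696344) (nat_lit 8) (.e (nat_lit 172106) (nat_lit 10) (.e (nat_lit 434288) (nat_lit 43) (.e (nat_lit 696343) (nat_lit 8) .nil))))) (.g (nat_lit 0) (.e (nat_lit 332470) (nat_lit 0) .nil) .nil))) 
(.lf (nat_lit 566922) (.g (nat_lit 1827) (.e (nat_lit 450304) (nat_lit 3) (.e (nat_lit 98335) (nat_lit 18) (.e (nat_lit 164403) (nat_lit 256) (.e (nat_lit 57389) (nat_lit 5) (.e (nat_lit 114712) (nat_lit 21) .nil))))) (.g (nat_lit 0) (.e (nat_lit 333385) (nat_lit 0) .nil) .nil)))) (.nd (nat_lit 9) 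
(.lf (nat_lit 566666) (.g (nat_lit 2992) (.e (nat_lit 442374) (nat_lit 0) (.e (nat_lit 1856) (nat_lit 124) (.e (nat_lit 557100) (nat_lit 13) (.e (nat_lit 172113) (nat_lit 10) (.e (nat_lit 434248) (nat_lit 28) (.e (nat_lit 573450) (nat_lit 9) (.e (nat_lit 457) (nat_lit 34) .nil))))))) (.g (nat_lit 1) (.e (nat_lit 332976) (nat_lit 0) .nil) .nil))) 
(.lf (nat_lit 567178) (.g (nat_lit 1966) (.e (nat_lit 442402) (nat_lit 20) (.e (nat_lit 3390) (nat_lit 210) (.e (nat_lit 639021) (nat_lit 16) (.e (nat_lit 65619) (nat_lit 10) (.e (nat_lit 344160) (nat_lit 37) (.e (nat_lit 647195) (nat_lit 9) (.e (nat_lit 7936) (nat_lit 34) .nil))))))) (.g (nat_lit 1) (.e (nat_lit 335269) (nat_lit 0) .nil) .nil)))))) 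
(.nd (nat_lit 7) (.nd (nat_lit 8) (.nd (nat_lit 9) 
(.lf (nat_lit 566346) (.g (nat_lit 3965) (.e (nat_lit 434272) (nat_lit 38) (.e (nat_lit 655375) (nat_lit 3) (.e (nat_lit 163979) (nat_lit 30) (.e (nat_lit 573485) (nat_lit 13) (.e (nat_lit 65604) (nat_lit 9) (.e (nat_lit 336028) (nat_lit 3) (.e (nat_lit 98366) (nat_lit 27) .nil))))))) (.g (nat_lit 1) (.e (nat_lit 332186) (nat_lit 0) .nil) .nil))) 
(.lf (nat_lit 566858) (.g (nat_lit 719) (.e (nat_lit 450304) (nat_lit 1) (.e (nat_lit 57623) (nat_lit 128) (.e (nat_lit 2638) (nat_lit 165) (.e (nat_lit 188160) (nat_lit 32) .nil)))) (.g (nat_lit 0) (.e (nat_lit 333287) (nat_lit 0) .nil) .nil)))) (.nd (nat_lit 9) 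
(.lf (nat_lit 566602) (.g (nat_lit 2259) (.e (nat_lit 442373) (nat_lit 0) (.e (nat_lit 1853) (nat_lit 124) (.e (nat_lit 557097) (nat_lit 13) (.e (nat_lit 172115) (nat_lit 10) (.e (nat_lit 434244) (nat_lit 28) .nil))))) (.g (nat_lit 0) (.e (nat_lit 332902) (nat_lit 0) .nil) .nil))) 
(.lf (nat_lit 567114) (.g (nat_lit 1933) (.e (nat_lit 450304) (nat_lit 18) (.e (nat_lit 393253) (nat_lit 18) (.e (nat_lit 164332) (nat_lit 230) (.e (nat_lit 163874) (nat_lit 3) (.e (nat_lit 212736) (nat_lit 11) .nil))))) (.g (nat_lit 0) (.e (nat_lit 334877) (nat_lit 0) .nil) .nil))))) (.nd (nat_lit 8) (.nd (nat_lit 9) 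
(.lf (nat_lit 566474) (.g (nat_lit 3248) (.e (nat_lit 434289) (nat_lit 43) (.e (nat_lit 696344) (nat_lit 8) (.e (nat_lit 172107) (nat_lit 10) (.e (nat_lit 434289) (nat_lit 43) (.e (nat_lit 696344) (nat_lit 8) (.e (nat_lit 172107) (nat_lit 10) .nil)))))) (.g (nat_lit 1) (.e (nat_lit 332666) (nat_lit 0) .nil) .nil))) 
(.lf (nat_lit 566986) (.g (nat_lit 1617) (.e (nat_lit 442390) (nat_lit 11) (.e (nat_lit 336231) (nat_lit 14) (.e (nat_lit 401446) (nat_lit 10) (.e (nat_lit 434289) (nat_lit 43) (.e (nat_lit 696329) (nat_lit 5) .nil))))) (.g (nat_lit 0) (.e (nat_lit 334495) (nat_lit 0) .nil) .nil)))) (.nd (nat_lit 9) 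
(.lf (nat_lit 566730) (.g (nat_lit 1341) (.e (nat_lit 442377) (nat_lit 0) (.e (nat_lit 1798) (nat_lit 119) (.e (nat_lit 516117) (nat_lit 1) (.e (nat_lit 164329) (nat_lit 230) (.e (nat_lit 163902) (nat_lit 12) .nil))))) (.g (nat_lit 0) (.e (nat_lit 333090) (nat_lit 0) .nil) .nil))) 
(.lf (nat_lit 567242) (.g (nat_lit 1463) (.e (nat_lit 442406) (nat_lit 20) (.e (nat_lit 3238) (nat_lit 197) (.e (nat_lit 532523) (nat_lit 7) (.e (nat_lit 327424) (nat_lit 16) .nil)))) (.g (nat_lit 0) (.e (nat_lit 335448) (nat_lit 0) .nil) .nil))))))) (.nd (nat_lit 6) (.nd (nat_lit 7) (.nd (nat_lit 8) (.nd (nat_lit 9) 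
(.lf (nat_lit 566314) (.g (nat_lit 3205) (.e (nat_lit 434271) (nat_lit 38) (.e (nat_lit 655380) (nat_lit 6) (.e (nat_lit 188455) (nat_lit 24) (.e (nat_lit 229666) (nat_lit 240) (.e (nat_lit 2630) (nat_lit 164) (.e (nat_lit 172106) (nat_lit 10) .nil)))))) (.g (nat_lit 1) (.e (nat_lit 332040) (nat_lit 0) .nil) .nil))) 
(.lf (nat_lit 566826) (.g (nat_lit 2596) (.e (nat_lit 442379) (nat_lit 0) (.e (nat_lit 1856) (nat_lit 124) (.e (nat_lit 557101) (nat_lit 13) (.e (nat_lit 172115) (nat_lit 10) (.e (nat_lit 434244) (nat_lit 28) (.e (nat_lit 573450) (nat_lit 9) (.e (nat_lit 454) (nat_lit 34) .nil))))))) (.g (nat_lit 1) (.e (nat_lit 333216) (nat_lit 0) .nil) .nil)))) (.nd (nat_lit 9) 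
(.lf (nat_lit 566570) (.g (nat_lit 499) (.e (nat_lit 442371) (nat_lit 0) (.e (nat_lit 6209) (nat_lit 333) (.e (nat_lit 57610) (nat_lit 109) .nil))) (.g (nat_lit 0) (.e (nat_lit 332865) (nat_lit 0) .nil) .nil))) 
(.lf (nat_lit 567082) (.g (nat_lit 1656) (.e (nat_lit 450304) (nat_lit 18) (.e (nat_lit 393251) (nat_lit 18) (.e (nat_lit 164398) (nat_lit 256) (.e (nat_lit 57352) (nat_lit 0) .nil)))) (.g (nat_lit 0) (.e (nat_lit 334819) (nat_lit 0) .nil) .nil))))) (.nd (nat_lit 8) (.nd (nat_lit 9) 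
(.lf (nat_lit 566442) (.g (nat_lit 3201) (.e (nat_lit 434289) (nat_lit 43) (.e (nat_lit 696330) (nat_lit 5) (.e (nat_lit 3004) (nat_lit 186) (.e (nat_lit 442390) (nat_lit 11) (.e (nat_lit 336232) (nat_lit 14) (.e (nat_lit 401448) (nat_lit 10) .nil)))))) (.g (nat_lit 1) (.e (nat_lit 332562) (nat_lit 0) .nil) .nil))) 
(.lf (nat_lit 566954) (.g (nat_lit 1817) (.e (nat_lit 442386) (nat_lit 11) (.e (nat_lit 335996) (nat_lit 1) (.e (nat_lit 57692) (nat_lit 156) (.e (nat_lit 163907) (nat_lit 12) .nil)))) (.g (nat_lit 0) (.e (nat_lit 333939) (nat_lit 0) .nil) .nil)))) (.nd (nat_lit 9) 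
(.lf (nat_lit 566698) (.g (nat_lit 2240) (.e (nat_lit 442374) (nat_lit 0) (.e (nat_lit 2059) (nat_lit 142) (.e (nat_lit 704598) (nat_lit 6) (.e (nat_lit 188439) (nat_lit 20) (.e (nat_lit 3408) (nat_lit 212) (.e (nat_lit 655363) (nat_lit 0) (.e (nat_lit 2988) (nat_lit 186) .nil))))))) (.g (nat_lit 1) (.e (nat_lit 333019) (nat_lit 0) .nil) .nil))) 
(.lf (nat_lit 567210) (.g (nat_lit 2480) (.e (nat_lit 442404) (nat_lit 20) (.e (nat_lit 3297) (nat_lit 202) (.e (nat_lit 573450) (nat_lit 9) (.e (nat_lit 375) (nat_lit 32) (.e (nat_lit 426173) (nat_lit 7) (.e (nat_lit 409616) (nat_lit 10) (.e (nat_lit 7936) (nat_lit 43) (.e (nat_lit 516164) (nat_lit 11) .nil)))))))) (.g (nat_lit 1) (.e (nat_lit 335388) (nat_lit 0) .nil) .nil)))))) 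
(.nd (nat_lit 7) (.nd (nat_lit 8) (.nd (nat_lit 9) 
(.lf (nat_lit 566378) (.g (nat_lit 2072) (.e (nat_lit 434272) (nat_lit 38) (.e (nat_lit 655380) (nat_lit 6) (.e (nat_lit 188434) (nat_lit 20) (.e (nat_lit 3406) (nat_lit 212) (.e (nat_lit 655378) (nat_lit 4) (.e (nat_lit 172116) (nat_lit 10) .nil)))))) (.g (nat_lit 1) (.e (nat_lit 332352) (nat_lit 0) .nil) .nil))) 
(.lf (nat_lit 566890) (.g (nat_lit 1969) (.e (nat_lit 450304) (nat_lit 3) (.e (nat_lit 98335) (nat_lit 18) (.e (nat_lit 164322) (nat_lit 230) (.e (nat_lit 163902) (nat_lit 12) (.e (nat_lit 426479) (nat_lit 27) .nil))))) (.g (nat_lit 0) (.e (nat_lit 333341) (nat_lit 0) .nil) .nil)))) (.nd (nat_lit 9) 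
(.lf (nat_lit 566634) (.g (nat_lit 2381) (.e (nat_lit 442374) (nat_lit 0) (.e (nat_lit 1800) (nat_lit 119) (.e (nat_lit 516119) (nat_lit 1) (.e (nat_lit 164326) (nat_lit 230) (.e (nat_lit 163941) (nat_lit 19) (.e (nat_lit 491264) (nat_lit 11) .nil)))))) (.g (nat_lit 1) (.e (nat_lit 332939) (nat_lit 0) .nil) .nil))) 
(.lf (nat_lit 567146) (.g (nat_lit 2002) (.e (nat_lit 442392) (nat_lit 20) (.e (nat_lit 3391) (nat_lit 210) (.e (nat_lit 639021) (nat_lit 16) (.e (nat_lit 65619) (nat_lit 10) (.e (nat_lit 344160) (nat_lit 37) (.e (nat_lit 647195) (nat_lit 9) (.e (nat_lit 7936) (nat_lit 34) .nil))))))) (.g (nat_lit 1) (.e (nat_lit 334969) (nat_lit 0) .nil) .nil))))) (.nd (nat_lit 8) (.nd (nat_lit 9) 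
(.lf (nat_lit 566506) (.g (nat_lit 3926) (.e (nat_lit 434289) (nat_lit 43) (.e (nat_lit 696346) (nat_lit 10) (.e (nat_lit 188434) (nat_lit 20) (.e (nat_lit 3469) (nat_lit 217) (.e (nat_lit 696344) (nat_lit 8) (.e (nat_lit 172106) (nat_lit 10) .nil)))))) (.g (nat_lit 1) (.e (nat_lit 332724) (nat_lit 0) .nil) .nil))) 
(.lf (nat_lit 567018) (.g (nat_lit 1491) (.e (nat_lit 450304) (nat_lit 11) (.e (nat_lit 336459) (nat_lit 35) (.e (nat_lit 491565) (nat_lit 12) (.e (nat_lit 385063) (nat_lit 25) .nil)))) (.g (nat_lit 0) (.e (nat_lit 334712) (nat_lit 0) .nil) .nil)))) (.nd (nat_lit 9) 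
(.lf (nat_lit 566762) (.g (nat_lit 850) (.e (nat_lit 442377) (nat_lit 0) (.e (nat_lit 2175) (nat_lit 143) (.e (nat_lit 712745) (nat_lit 27) (.e (nat_lit 425984) (nat_lit 0) .nil)))) (.g (nat_lit 0) (.e (nat_lit 333134) (nat_lit 0) .nil) .nil))) 
(.lf (nat_lit 567274) (.g (nat_lit 130) (.e (nat_lit 442409) (nat_lit 20) (.e (nat_lit 3409) (nat_lit 212) (.e (nat_lit 655378) (nat_lit 4) .nil))) (.g (nat_lit 0) (.e (nat_lit 335761) (nat_lit 0) .nil) .nil)))))))) (.nd (nat_lit 5) (.nd (nat_lit 6) (.nd (nat_lit 7) (.nd (nat_lit 8) (.nd (nat_lit 9) 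
(.lf (nat_lit 566298) (.g (nat_lit 2465) (.e (nat_lit 434271) (nat_lit 38) (.e (nat_lit 655380) (nat_lit 6) (.e (nat_lit 188427) (nat_lit 20) (.e (nat_lit 3397) (nat_lit 211) (.e (nat_lit 647183) (nat_lit 4) (.e (nat_lit 172115) (nat_lit 10) .nil)))))) (.g (nat_lit 1) (.e (nat_lit 332005) (nat_lit 0) .nil) .nil))) 
(.lf (nat_lit 566810) (.g (nat_lit 2391) (.e (nat_lit 442379) (nat_lit 0) (.e (nat_lit 1855) (nat_lit 124) (.e (nat_lit 557101) (nat_lit 13) (.e (nat_lit 172115) (nat_lit 10) (.e (nat_lit 434244) (nat_lit 28) (.e (nat_lit 573449) (nat_lit 9) (.e (nat_lit 460) (nat_lit 34) .nil))))))) (.g (nat_lit 1) (.e (nat_lit 333200) (nat_lit 0) .nil) .nil)))) (.nd (nat_lit 9) 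
(.lf (nat_lit 566554) (.g (nat_lit 3978) (.e (nat_lit 434295) (nat_lit 49) (.e (nat_lit 745491) (nat_lit 4) (.e (nat_lit 65610) (nat_lit 10) (.e (nat_lit 344129) (nat_lit 26) (.e (nat_lit 557119) (nat_lit 18) (.e (nat_lit 2808) (nat_lit 180) (.e (nat_lit 303140) (nat_lit 10) .nil))))))) (.g (nat_lit 1) (.e (nat_lit 332816) (nat_lit 0) .nil) .nil))) 
(.lf (nat_lit 567066) (.g (nat_lit 1251) (.e (nat_lit 450304) (nat_lit 16) (.e (nat_lit 376860) (nat_lit 21) (.e (nat_lit 57851) (nat_lit 252) (.e (nat_lit 57389) (nat_lit 5) (.e (nat_lit 122624) (nat_lit 13) .nil))))) (.g (nat_lit 0) (.e (nat_lit 334783) (nat_lit 0) .nil) .nil))))) (.nd (nat_lit 8) (.nd (nat_lit 9) 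
(.lf (nat_lit 566426) (.g (nat_lit 2648) (.e (nat_lit 434288) (nat_lit 43) (.e (nat_lit 696344) (nat_lit 8) (.e (nat_lit 172106) (nat_lit 10) (.e (nat_lit 434289) (nat_lit 43) (.e (nat_lit 696343) (nat_lit 8) (.e (nat_lit 172106) (nat_lit 10) .nil)))))) (.g (nat_lit 1) (.e (nat_lit 332505) (nat_lit 0) .nil) .nil))) 
(.lf (nat_lit 566938) (.g (nat_lit 360) (.e (nat_lit 450304) (nat_lit 5) (.e (nat_lit 114710) (nat_lit 21) (.e (nat_lit 57848) (nat_lit 252) .nil))) (.g (nat_lit 0) (.e (nat_lit 333405) (nat_lit 0) .nil) .nil)))) (.nd (nat_lit 9) 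
(.lf (nat_lit 566682) (.g (nat_lit 515) (.e (nat_lit 442374) (nat_lit 0) (.e (nat_lit 2058) (nat_lit 142) (.e (nat_lit 704599) (nat_lit 6) .nil))) (.g (nat_lit 0) (.e (nat_lit 332997) (nat_lit 0) .nil) .nil))) 
(.lf (nat_lit 567194) (.g (nat_lit 1724) (.e (nat_lit 442403) (nat_lit 20) (.e (nat_lit 3391) (nat_lit 210) (.e (nat_lit 639021) (nat_lit 16) (.e (nat_lit 65617) (nat_lit 10) (.e (nat_lit 344164) (nat_lit 37) (.e (nat_lit 647190) (nat_lit 9) (.e (nat_lit 7936) (nat_lit 34) .nil))))))) (.g (nat_lit 1) (.e (nat_lit 335353) (nat_lit 0) .nil) .nil)))))) 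
(.nd (nat_lit 7) (.nd (nat_lit 8) (.nd (nat_lit 9) 
(.lf (nat_lit 566362) (.g (nat_lit 393) (.e (nat_lit 434272) (nat_lit 38) (.e (nat_lit 655378) (nat_lit 4) (.e (nat_lit 172113) (nat_lit 10) .nil))) (.g (nat_lit 0) (.e (nat_lit 332259) (nat_lit 0) .nil) .nil))) 
(.lf (nat_lit 566874) (.g (nat_lit 1046) (.e (nat_lit 450304) (nat_lit 3) (.e (nat_lit 98333) (nat_lit 18) (.e (nat_lit 164399) (nat_lit 256) (.e (nat_lit 57390) (nat_lit 5) .nil)))) (.g (nat_lit 0) (.e (nat_lit 333318) (nat_lit 0) .nil) .nil)))) (.nd (nat_lit 9) 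
(.lf (nat_lit 566618) (.g (nat_lit 2552) (.e (nat_lit 442373) (nat_lit 0) (.e (nat_lit 1853) (nat_lit 124) (.e (nat_lit 557107) (nat_lit 15) (.e (nat_lit 188440) (nat_lit 20) (.e (nat_lit 3272) (nat_lit 199) (.e (nat_lit 548898) (nat_lit 14) (.e (nat_lit 3004) (nat_lit 186) .nil))))))) (.g (nat_lit 1) (.e (nat_lit 332918) (nat_lit 0) .nil) .nil))) 
(.lf (nat_lit 567130) (.g (nat_lit 990) (.e (nat_lit 450304) (nat_lit 18) (.e (nat_lit 393254) (nat_lit 18) (.e (nat_lit 164329) (nat_lit 230) (.e (nat_lit 163873) (nat_lit 3) (.e (nat_lit 212736) (nat_lit 11) .nil))))) (.g (nat_lit 0) (.e (nat_lit 334905) (nat_lit 0) .nil) .nil))))) (.nd (nat_lit 8) (.nd (nat_lit 9) 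
(.lf (nat_lit 566490) (.g (nat_lit 3704) (.e (nat_lit 434289) (nat_lit 43) (.e (nat_lit 696344) (nat_lit 8) (.e (nat_lit 172115) (nat_lit 10) (.e (nat_lit 434209) (nat_lit 18) (.e (nat_lit 6425) (nat_lit 342) (.e (nat_lit 229402) (nat_lit 12) (.e (nat_lit 426285) (nat_lit 10) .nil))))))) (.g (nat_lit 1) (.e (nat_lit 332683) (nat_lit 0) .nil) .nil))) 
(.lf (nat_lit 567002) (.g (nat_lit 1287) (.e (nat_lit 442390) (nat_lit 11) (.e (nat_lit 336232) (nat_lit 14) (.e (nat_lit 401448) (nat_lit 10) (.e (nat_lit 434287) (nat_lit 43) .nil)))) (.g (nat_lit 0) (.e (nat_lit 334598) (nat_lit 0) .nil) .nil)))) (.nd (nat_lit 9) 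
(.lf (nat_lit 566746) (.g (nat_lit 2990) (.e (nat_lit 442377) (nat_lit 0) (.e (nat_lit 1855) (nat_lit 124) (.e (nat_lit 557101) (nat_lit 13) (.e (nat_lit 172115) (nat_lit 10) (.e (nat_lit 434244) (nat_lit 28) (.e (nat_lit 573458) (nat_lit 9) (.e (nat_lit 7936) (nat_lit 34) .nil))))))) (.g (nat_lit 1) (.e (nat_lit 333107) (nat_lit 0) .nil) .nil))) 
(.lf (nat_lit 567258) (.g (nat_lit 1998) (.e (nat_lit 442408) (nat_lit 20) (.e (nat_lit 3391) (nat_lit 210) (.e (nat_lit 639021) (nat_lit 16) (.e (nat_lit 65619) (nat_lit 10) (.e (nat_lit 344160) (nat_lit 37) (.e (nat_lit 647190) (nat_lit 9) (.e (nat_lit 7936) (nat_lit 34) .nil))))))) (.g (nat_lit 1) (.e (nat_lit 335548) (nat_lit 0) .nil) .nil))))))) 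
(.nd (nat_lit 6) (.nd (nat_lit 7) (.nd (nat_lit 8) (.nd (nat_lit 9) 
(.lf (nat_lit 566330) (.g (nat_lit 4542) (.e (nat_lit 434272) (nat_lit 38) (.e (nat_lit 655375) (nat_lit 3) (.e (nat_lit 163977) (nat_lit 30) (.e (nat_lit 573493) (nat_lit 15) (.e (nat_lit 81956) (nat_lit 23) (.e (nat_lit 98367) (nat_lit 27) .nil)))))) (.g (nat_lit 1) (.e (nat_lit 332111) (nat_lit 0) .nil) .nil))) 
(.lf (nat_lit 566842) (.g (nat_lit 1294) (.e (nat_lit 442379) (nat_lit 0) (.e (nat_lit 2174) (nat_lit 143) (.e (nat_lit 712745) (nat_lit 27) (.e (nat_lit 425984) (nat_lit 0) (.e (nat_lit 7586) (nat_lit 406) .nil))))) (.g (nat_lit 0) (.e (nat_lit 333259) (nat_lit 0) .nil) .nil)))) (.nd (nat_lit 9) 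
(.lf (nat_lit 566586) (.g (nat_lit 2380) (.e (nat_lit 442372) (nat_lit 0) (.e (nat_lit 1856) (nat_lit 124) (.e (nat_lit 557100) (nat_lit 13) (.e (nat_lit 172113) (nat_lit 10) (.e (nat_lit 434248) (nat_lit 28) .nil))))) (.g (nat_lit 0) (.e (nat_lit 332881) (nat_lit 0) .nil) .nil))) 
(.lf (nat_lit 567098) (.g (nat_lit 1501) (.e (nat_lit 450304) (nat_lit 18) (.e (nat_lit 393253) (nat_lit 18) (.e (nat_lit 164325) (nat_lit 230) (.e (nat_lit 163873) (nat_lit 3) (.e (nat_lit 212736) (nat_lit 11) .nil))))) (.g (nat_lit 0) (.e (nat_lit 334861) (nat_lit 0) .nil) .nil))))) (.nd (nat_lit 8) (.nd (nat_lit 9) 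
(.lf (nat_lit 566458) (.g (nat_lit 619) (.e (nat_lit 434289) (nat_lit 43) (.e (nat_lit 696344) (nat_lit 8) (.e (nat_lit 172100) (nat_lit 9) .nil))) (.g (nat_lit 0) (.e (nat_lit 332648) (nat_lit 0) .nil) .nil))) 
(.lf (nat_lit 566970) (.g (nat_lit 2821) (.e (nat_lit 442390) (nat_lit 11) (.e (nat_lit 335986) (nat_lit 1) (.e (nat_lit 57688) (nat_lit 156) (.e (nat_lit 163907) (nat_lit 12) (.e (nat_lit 426437) (nat_lit 18) (.e (nat_lit 98369) (nat_lit 28) .nil)))))) (.g (nat_lit 1) (.e (nat_lit 334382) (nat_lit 0) .nil) .nil)))) (.nd (nat_lit 9) 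
(.lf (nat_lit 566714) (.g (nat_lit 2186) (.e (nat_lit 442374) (nat_lit 0) (.e (nat_lit 2175) (nat_lit 143) (.e (nat_lit 712752) (nat_lit 29) (.e (nat_lit 442411) (nat_lit 20) (.e (nat_lit 3409) (nat_lit 212) (.e (nat_lit 655364) (nat_lit 0) (.e (nat_lit 2988) (nat_lit 186) .nil))))))) (.g (nat_lit 1) (.e (nat_lit 333039) (nat_lit 0) .nil) .nil))) 
(.lf (nat_lit 567226) (.g (nat_lit 1649) (.e (nat_lit 442406) (nat_lit 20) (.e (nat_lit 3238) (nat_lit 197) (.e (nat_lit 532523) (nat_lit 7) (.e (nat_lit 319505) (nat_lit 10) (.e (nat_lit 7936) (nat_lit 301) (.e (nat_lit 57464) (nat_lit 23) (.e (nat_lit 516164) (nat_lit 11) .nil))))))) (.g (nat_lit 1) (.e (nat_lit 335432) (nat_lit 0) .nil) .nil)))))) 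
(.nd (nat_lit 7) (.nd (nat_lit 8) (.nd (nat_lit 9) 
(.lf (nat_lit 566394) (.g (nat_lit 1306) (.e (nat_lit 434272) (nat_lit 38) (.e (nat_lit 655380) (nat_lit 6) (.e (nat_lit 188441) (nat_lit 20) (.e (nat_lit 3409) (nat_lit 212) (.e (nat_lit 655376) (nat_lit 4) .nil))))) (.g (nat_lit 0) (.e (nat_lit 332368) (nat_lit 0) .nil) .nil))) 
(.lf (nat_lit 566906) (.g (nat_lit 2628) (.e (nat_lit 450304) (nat_lit 3) (.e (nat_lit 98335) (nat_lit 18) (.e (nat_lit 164330) (nat_lit 230) (.e (nat_lit 163902) (nat_lit 12) (.e (nat_lit 426484) (nat_lit 27) .nil))))) (.g (nat_lit 0) (.e (nat_lit 333363) (nat_lit 0) .nil) .nil)))) (.nd (nat_lit 9) 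
(.lf (nat_lit 566650) (.g (nat_lit 2077) (.e (nat_lit 442374) (nat_lit 0) (.e (nat_lit 1846) (nat_lit 124) (.e (nat_lit 557098) (nat_lit 13) (.e (nat_lit 172115) (nat_lit 10) (.e (nat_lit 434238) (nat_lit 25) (.e (nat_lit 548898) (nat_lit 14) (.e (nat_lit 3004) (nat_lit 186) .nil))))))) (.g (nat_lit 1) (.e (nat_lit 332956) (nat_lit 0) .nil) .nil))) 
(.lf (nat_lit 567162) (.g (nat_lit 2473) (.e (nat_lit 442399) (nat_lit 20) (.e (nat_lit 3402) (nat_lit 211) (.e (nat_lit 647183) (nat_lit 4) (.e (nat_lit 172079) (nat_lit 7) (.e (nat_lit 409618) (nat_lit 10) (.e (nat_lit 5362) (nat_lit 298) (.e (nat_lit 463) (nat_lit 34) .nil))))))) (.g (nat_lit 1) (.e (nat_lit 335150) (nat_lit 0) .nil) .nil))))) (.nd (nat_lit 8) (.nd (nat_lit 9) 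
(.lf (nat_lit 566522) (.g (nat_lit 3695) (.e (nat_lit 434289) (nat_lit 43) (.e (nat_lit 696346) (nat_lit 10) (.e (nat_lit 188440) (nat_lit 20) (.e (nat_lit 3469) (nat_lit 217) (.e (nat_lit 696344) (nat_lit 8) (.e (nat_lit 172115) (nat_lit 10) .nil)))))) (.g (nat_lit 1) (.e (nat_lit 332741) (nat_lit 0) .nil) .nil))) 
(.lf (nat_lit 567034) (.g (nat_lit 1510) (.e (nat_lit 450304) (nat_lit 13) (.e (nat_lit 352309) (nat_lit 21) (.e (nat_lit 57849) (nat_lit 252) (.e (nat_lit 57390) (nat_lit 5) (.e (nat_lit 122624) (nat_lit 13) .nil))))) (.g (nat_lit 0) (.e (nat_lit 334732) (nat_lit 0) .nil) .nil)))) (.nd (nat_lit 9) 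
(.lf (nat_lit 566778) (.g (nat_lit 3965) (.e (nat_lit 442378) (nat_lit 0) (.e (nat_lit 1856) (nat_lit 124) (.e (nat_lit 557101) (nat_lit 13) (.e (nat_lit 172115) (nat_lit 10) (.e (nat_lit 434244) (nat_lit 28) (.e (nat_lit 573449) (nat_lit 9) (.e (nat_lit 460) (nat_lit 34) .nil))))))) (.g (nat_lit 1) (.e (nat_lit 333152) (nat_lit 0) .nil) .nil))) 
(.lf (nat_lit 567290) (.g (nat_lit 2745) (.e (nat_lit 442410) (nat_lit 20) (.e (nat_lit 3297) (nat_lit 202) (.e (nat_lit 573471) (nat_lit 11) (.e (nat_lit 16425) (nat_lit 7) (.e (nat_lit 409616) (nat_lit 10) (.e (nat_lit 7936) (nat_lit 43) (.e (nat_lit 516164) (nat_lit 11) .nil))))))) (.g (nat_lit 1) (.e (nat_lit 335846) (nat_lit 0) .nil) .nil)))))))))) 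
(.nd (nat_lit 3) (.nd (nat_lit 4) (.nd (nat_lit 5) (.nd (nat_lit 6) (.nd (nat_lit 7) 
(.nd (nat_lit 8) (.nd (nat_lit 9) 
(.lf (nat_lit 566278) (.g (nat_lit 4632) (.e (nat_lit 434271) (nat_lit 38) (.e (nat_lit 655375) (nat_lit 3) (.e (nat_lit 163979) (nat_lit 30) (.e (nat_lit 573482) (nat_lit 13) (.e (nat_lit 65604) (nat_lit 9) (.e (nat_lit 336028) (nat_lit 3) (.e (nat_lit 98366) (nat_lit 27) .nil))))))) (.g (nat_lit 1) (.e (nat_lit 331896) (nat_lit 0) .nil) .nil))) 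
(.lf (nat_lit 566790) (.g (nat_lit 1919) (.e (nat_lit 442378) (nat_lit 0) (.e (nat_lit 2174) (nat_lit 143) (.e (nat_lit 712745) (nat_lit 27) (.e (nat_lit 425984) (nat_lit 0) (.e (nat_lit 7588) (nat_lit 406) (.e (nat_lit 73472) (nat_lit 29) .nil)))))) (.g (nat_lit 1) (.e (nat_lit 333166) (nat_lit 0) .nil) .nil)))) (.nd (nat_lit 9) 
(.lf (nat_lit 566534) (.g (nat_lit 2665) (.e (nat_lit 434291) (nat_lit 44) (.e (nat_lit 704738) (nat_lit 11) (.e (nat_lit 16425) (nat_lit 7) (.e (nat_lit 409617) (nat_lit 10) (.e (nat_lit 848) (nat_lit 73) (.e (nat_lit 761901) (nat_lit 16) (.e (nat_lit 172111) (nat_lit 10) .nil))))))) (.g (nat_lit 1) (.e (nat_lit 332773) (nat_lit 0) .nil) .nil))) 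
(.lf (nat_lit 567046) (.g (nat_lit 946) (.e (nat_lit 450304) (nat_lit 16) (.e (nat_lit 376857) (nat_lit 21) (.e (nat_lit 57851) (nat_lit 252) (.e (nat_lit 57389) (nat_lit 5) (.e (nat_lit 122624) (nat_lit 13) .nil))))) (.g (nat_lit 0) (.e (nat_lit 334759) (nat_lit 0) .nil) .nil))))) (.nd (nat_lit 8) (.nd (nat_lit 9) 
(.lf (nat_lit 566406) (.g (nat_lit 1688) (.e (nat_lit 434287) (nat_lit 43) (.e (nat_lit 696343) (nat_lit 8) (.e (nat_lit 172115) (nat_lit 10) (.e (nat_lit 434289) (nat_lit 43) (.e (nat_lit 696344) (nat_lit 8) .nil))))) (.g (nat_lit 0) (.e (nat_lit 332459) (nat_lit 0) .nil) .nil))) 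
(.lf (nat_lit 566918) (.g (nat_lit 1501) (.e (nat_lit 450304) (nat_lit 3) (.e (nat_lit 98335) (nat_lit 18) (.e (nat_lit 164332) (nat_lit 230) (.e (nat_lit 163941) (nat_lit 19) (.e (nat_lit 491264) (nat_lit 11) .nil))))) (.g (nat_lit 0) (.e (nat_lit 333379) (nat_lit 0) .nil) .nil)))) (.nd (nat_lit 9) 
(.lf (nat_lit 566662) (.g (nat_lit 3809) (.e (nat_lit 442374) (nat_lit 0) (.e (nat_lit 1856) (nat_lit 124) (.e (nat_lit 557098) (nat_lit 13) (.e (nat_lit 172115) (nat_lit 10) (.e (nat_lit 434238) (nat_lit 25) (.e (nat_lit 548898) (nat_lit 14) (.e (nat_lit 2988) (nat_lit 186) .nil))))))) (.g (nat_lit 1) (.e (nat_lit 332972) (nat_lit 0) .nil) .nil))) 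
(.lf (nat_lit 567174) (.g (nat_lit 2332) (.e (nat_lit 442402) (nat_lit 20) (.e (nat_lit 3390) (nat_lit 210) (.e (nat_lit 639021) (nat_lit 16) (.e (nat_lit 65610) (nat_lit 10) (.e (nat_lit 344160) (nat_lit 37) (.e (nat_lit 647190) (nat_lit 9) (.e (nat_lit 7936) (nat_lit 34) .nil))))))) (.g (nat_lit 1) (.e (nat_lit 335265) (nat_lit 0) .nil) .nil)))))) 
(.nd (nat_lit 7) (.nd (nat_lit 8) (.nd (nat_lit 9) 
(.lf (nat_lit 566342) (.g (nat_lit 815) (.e (nat_lit 434272) (nat_lit 38) (.e (nat_lit 655375) (nat_lit 3) (.e (nat_lit 163978) (nat_lit 30) (.e (nat_lit 573491) (nat_lit 15) .nil)))) (.g (nat_lit 0) (.e (nat_lit 332125) (nat_lit 0) .nil) .nil))) 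
(.lf (nat_lit 566854) (.g (nat_lit 1803) (.e (nat_lit 450304) (nat_lit 0) (.e (nat_lit 1859) (nat_lit 124) (.e (nat_lit 557098) (nat_lit 13) (.e (nat_lit 172115) (nat_lit 10) (.e (nat_lit 434238) (nat_lit 25) .nil))))) (.g (nat_lit 0) (.e (nat_lit 333281) (nat_lit 0) .nil) .nil)))) (.nd (nat_lit 9) 
(.lf (nat_lit 566598) (.g (nat_lit 1464) (.e (nat_lit 442373) (nat_lit 0) (.e (nat_lit 1846) (nat_lit 124) (.e (nat_lit 557101) (nat_lit 13) (.e (nat_lit 172115) (nat_lit 10) (.e (nat_lit 434238) (nat_lit 25) .nil))))) (.g (nat_lit 0) (.e (nat_lit 332896) (nat_lit 0) .nil) .nil))) 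
(.lf (nat_lit 567110) (.g (nat_lit 1478) (.e (nat_lit 450304) (nat_lit 18) (.e (nat_lit 393253) (nat_lit 18) (.e (nat_lit 164330) (nat_lit 230) (.e (nat_lit 163874) (nat_lit 3) (.e (nat_lit 212736) (nat_lit 11) .nil))))) (.g (nat_lit 0) (.e (nat_lit 334873) (nat_lit 0) .nil) .nil))))) (.nd (nat_lit 8) (.nd (nat_lit 9) 
(.lf (nat_lit 566470) (.g (nat_lit 2457) (.e (nat_lit 434289) (nat_lit 43) (.e (nat_lit 696344) (nat_lit 8) (.e (nat_lit 172106) (nat_lit 10) (.e (nat_lit 434209) (nat_lit 18) (.e (nat_lit 6428) (nat_lit 342) (.e (nat_lit 229402) (nat_lit 12) (.e (nat_lit 426285) (nat_lit 10) .nil))))))) (.g (nat_lit 1) (.e (nat_lit 332661) (nat_lit 0) .nil) .nil))) 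
(.lf (nat_lit 566982) (.g (nat_lit 1065) (.e (nat_lit 442390) (nat_lit 11) (.e (nat_lit 336230) (nat_lit 14) (.e (nat_lit 401446) (nat_lit 10) (.e (nat_lit 434287) (nat_lit 43) .nil)))) (.g (nat_lit 0) (.e (nat_lit 334447) (nat_lit 0) .nil) .nil)))) (.nd (nat_lit 9) 
(.lf (nat_lit 566726) (.g (nat_lit 218) (.e (nat_lit 442376) (nat_lit 0) (.e (nat_lit 2147) (nat_lit 142) (.e (nat_lit 704594) (nat_lit 5) .nil))) (.g (nat_lit 0) (.e (nat_lit 333065) (nat_lit 0) .nil) .nil))) 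
(.lf (nat_lit 567238) (.g (nat_lit 2232) (.e (nat_lit 442406) (nat_lit 20) (.e (nat_lit 3238) (nat_lit 197) (.e (nat_lit 532523) (nat_lit 7) (.e (nat_lit 319534) (nat_lit 16) (.e (nat_lit 286728) (nat_lit 0) .nil))))) (.g (nat_lit 0) (.e (nat_lit 335444) (nat_lit 0) .nil) .nil))))))) (.nd (nat_lit 6) (.nd (nat_lit 7) (.nd (nat_lit 8) (.nd (nat_lit 9) 
(.lf (nat_lit 566310) (.g (nat_lit 2711) (.e (nat_lit 434271) (nat_lit 38) (.e (nat_lit 655380) (nat_lit 6) (.e (nat_lit 188453) (nat_lit 24) (.e (nat_lit 229666) (nat_lit 240) (.e (nat_lit 2630) (nat_lit 164) (.e (nat_lit 172113) (nat_lit 10) .nil)))))) (.g (nat_lit 1) (.e (nat_lit 332036) (nat_lit 0) .nil) .nil))) 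
(.lf (nat_lit 566822) (.g (nat_lit 3647) (.e (nat_lit 442379) (nat_lit 0) (.e (nat_lit 1856) (nat_lit 124) (.e (nat_lit 557100) (nat_lit 13) (.e (nat_lit 172113) (nat_lit 10) (.e (nat_lit 434248) (nat_lit 28) (.e (nat_lit 573464) (nat_lit 9) (.e (nat_lit 461) (nat_lit 34) .nil))))))) (.g (nat_lit 1) (.e (nat_lit 333212) (nat_lit 0) .nil) .nil)))) (.nd (nat_lit 9) 
(.lf (nat_lit 566566) (.g (nat_lit 3533) (.e (nat_lit 442368) (nat_lit 0) (.e (nat_lit 1861) (nat_lit 124) (.e (nat_lit 557098) (nat_lit 13) (.e (nat_lit 172115) (nat_lit 10) (.e (nat_lit 434244) (nat_lit 28) (.e (nat_lit 573450) (nat_lit 9) (.e (nat_lit 457) (nat_lit 34) .nil))))))) (.g (nat_lit 1) (.e (nat_lit 332830) (nat_lit 0) .nil) .nil))) 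
(.lf (nat_lit 567078) (.g (nat_lit 1940) (.e (nat_lit 450304) (nat_lit 18) (.e (nat_lit 393251) (nat_lit 18) (.e (nat_lit 164327) (nat_lit 230) (.e (nat_lit 163873) (nat_lit 3) (.e (nat_lit 212736) (nat_lit 11) .nil))))) (.g (nat_lit 0) (.e (nat_lit 334815) (nat_lit 0) .nil) .nil))))) (.nd (nat_lit 8) (.nd (nat_lit 9) 
(.lf (nat_lit 566438) (.g (nat_lit 2713) (.e (nat_lit 434289) (nat_lit 43) (.e (nat_lit 696328) (nat_lit 5) (.e (nat_lit 3004) (nat_lit 186) (.e (nat_lit 442390) (nat_lit 11) (.e (nat_lit 336232) (nat_lit 14) (.e (nat_lit 401446) (nat_lit 10) .nil)))))) (.g (nat_lit 1) (.e (nat_lit 332525) (nat_lit 0) .nil) .nil))) 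
(.lf (nat_lit 566950) (.g (nat_lit 845) (.e (nat_lit 442385) (nat_lit 11) (.e (nat_lit 335996) (nat_lit 1) (.e (nat_lit 57691) (nat_lit 156) .nil))) (.g (nat_lit 0) (.e (nat_lit 333833) (nat_lit 0) .nil) .nil)))) (.nd (nat_lit 9) 
(.lf (nat_lit 566694) (.g (nat_lit 2146) (.e (nat_lit 442374) (nat_lit 0) (.e (nat_lit 2059) (nat_lit 142) (.e (nat_lit 704595) (nat_lit 5) (.e (nat_lit 180288) (nat_lit 45) (.e (nat_lit 2789) (nat_lit 179) (.e (nat_lit 302848) (nat_lit 29) .nil)))))) (.g (nat_lit 1) (.e (nat_lit 333011) (nat_lit 0) .nil) .nil))) 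
(.lf (nat_lit 567206) (.g (nat_lit 2943) (.e (nat_lit 442404) (nat_lit 20) (.e (nat_lit 3238) (nat_lit 197) (.e (nat_lit 532523) (nat_lit 7) (.e (nat_lit 319534) (nat_lit 16) (.e (nat_lit 286732) (nat_lit 2) (.e (nat_lit 90134) (nat_lit 9) (.e (nat_lit 3002) (nat_lit 186) .nil))))))) (.g (nat_lit 1) (.e (nat_lit 335383) (nat_lit 0) .nil) .nil)))))) 
(.nd (nat_lit 7) (.nd (nat_lit 8) (.nd (nat_lit 9) 
(.lf (nat_lit 566374) (.g (nat_lit 3089) (.e (nat_lit 434272) (nat_lit 38) (.e (nat_lit 655378) (nat_lit 4) (.e (nat_lit 172126) (nat_lit 14) (.e (nat_lit 491567) (nat_lit 13) (.e (nat_lit 393283) (nat_lit 24) .nil))))) (.g (nat_lit 1) (.e (nat_lit 332348) (nat_lit 0) .nil) .nil))) 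
(.lf (nat_lit 566886) (.g (nat_lit 1333) (.e (nat_lit 450304) (nat_lit 3) (.e (nat_lit 98334) (nat_lit 18) (.e (nat_lit 164332) (nat_lit 230) (.e (nat_lit 163941) (nat_lit 19) (.e (nat_lit 491264) (nat_lit 11) .nil))))) (.g (nat_lit 0) (.e (nat_lit 333336) (nat_lit 0) .nil) .nil)))) (.nd (nat_lit 9) 
(.lf (nat_lit 566630) (.g (nat_lit 1259) (.e (nat_lit 442374) (nat_lit 0) (.e (nat_lit 1800) (nat_lit 119) (.e (nat_lit 516119) (nat_lit 1) (.e (nat_lit 164324) (nat_lit 230) .nil)))) (.g (nat_lit 0) (.e (nat_lit 332935) (nat_lit 0) .nil) .nil))) 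
(.lf (nat_lit 567142) (.g (nat_lit 67) (.e (nat_lit 442391) (nat_lit 19) (.e (nat_lit 409344) (nat_lit 30) (.e (nat_lit 360470) (nat_lit 6) (.e (nat_lit 548608) (nat_lit 28) .nil)))) (.g (nat_lit 1) (.e (nat_lit 334955) (nat_lit 0) .nil) .nil))))) (.nd (nat_lit 8) (.nd (nat_lit 9) 
(.lf (nat_lit 566502) (.g (nat_lit 3352) (.e (nat_lit 434289) (nat_lit 43) (.e (nat_lit 696346) (nat_lit 10) (.e (nat_lit 188423) (nat_lit 11) (.e (nat_lit 336231) (nat_lit 14) (.e (nat_lit 401446) (nat_lit 10) .nil))))) (.g (nat_lit 1) (.e (nat_lit 332719) (nat_lit 0) .nil) .nil))) 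
(.lf (nat_lit 567014) (.g (nat_lit 2277) (.e (nat_lit 450304) (nat_lit 11) (.e (nat_lit 336457) (nat_lit 35) (.e (nat_lit 491563) (nat_lit 12) (.e (nat_lit 385063) (nat_lit 25) .nil)))) (.g (nat_lit 0) (.e (nat_lit 334708) (nat_lit 0) .nil) .nil)))) (.nd (nat_lit 9) 
(.lf (nat_lit 566758) (.g (nat_lit 397) (.e (nat_lit 442377) (nat_lit 0) (.e (nat_lit 2059) (nat_lit 142) (.e (nat_lit 704598) (nat_lit 6) .nil))) (.g (nat_lit 0) (.e (nat_lit 333129) (nat_lit 0) .nil) .nil))) 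
(.lf (nat_lit 567270) (.g (nat_lit 1984) (.e (nat_lit 442409) (nat_lit 20) (.e (nat_lit 3391) (nat_lit 210) (.e (nat_lit 639021) (nat_lit 16) (.e (nat_lit 65619) (nat_lit 10) (.e (nat_lit 344160) (nat_lit 37) (.e (nat_lit 647195) (nat_lit 9) (.e (nat_lit 7936) (nat_lit 34) .nil))))))) (.g (nat_lit 1) (.e (nat_lit 335706) (nat_lit 0) .nil) .nil)))))))) 
(.nd (nat_lit 5) (.nd (nat_lit 6) (.nd (nat_lit 7) (.nd (nat_lit 8) (.nd (nat_lit 9) 
(.lf (nat_lit 566294) (.g (nat_lit 2560) (.e (nat_lit 434271) (nat_lit 38) (.e (nat_lit 655378) (nat_lit 4) (.e (nat_lit 172126) (nat_lit 14) (.e (nat_lit 491567) (nat_lit 13) (.e (nat_lit 393284) (nat_lit 24) .nil))))) (.g (nat_lit 0) (.e (nat_lit 332000) (nat_lit 0) .nil) .nil))) 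
(.lf (nat_lit 566806) (.g (nat_lit 2462) (.e (nat_lit 442379) (nat_lit 0) (.e (nat_lit 1800) (nat_lit 119) (.e (nat_lit 516120) (nat_lit 1) (.e (nat_lit 164331) (nat_lit 230) (.e (nat_lit 163941) (nat_lit 19) (.e (nat_lit 491264) (nat_lit 11) .nil)))))) (.g (nat_lit 1) (.e (nat_lit 333196) (nat_lit 0) .nil) .nil)))) (.nd (nat_lit 9) 
(.lf (nat_lit 566550) (.g (nat_lit 1853) (.e (nat_lit 442112) (nat_lit 45) (.e (nat_lit 712753) (nat_lit 30) (.e (nat_lit 450579) (nat_lit 5) (.e (nat_lit 532503) (nat_lit 1) (.e (nat_lit 57694) (nat_lit 157) .nil))))) (.g (nat_lit 0) (.e (nat_lit 332809) (nat_lit 0) .nil) .nil))) 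
(.lf (nat_lit 567062) (.g (nat_lit 1447) (.e (nat_lit 450304) (nat_lit 16) (.e (nat_lit 376859) (nat_lit 21) (.e (nat_lit 57849) (nat_lit 252) (.e (nat_lit 57388) (nat_lit 5) (.e (nat_lit 122624) (nat_lit 13) .nil))))) (.g (nat_lit 0) (.e (nat_lit 334779) (nat_lit 0) .nil) .nil))))) (.nd (nat_lit 8) (.nd (nat_lit 9) 
(.lf (nat_lit 566422) (.g (nat_lit 2901) (.e (nat_lit 434288) (nat_lit 43) (.e (nat_lit 696343) (nat_lit 8) (.e (nat_lit 172115) (nat_lit 10) (.e (nat_lit 434289) (nat_lit 43) (.e (nat_lit 696344) (nat_lit 8) (.e (nat_lit 172106) (nat_lit 10) .nil)))))) (.g (nat_lit 1) (.e (nat_lit 332500) (nat_lit 0) .nil) .nil))) 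
(.lf (nat_lit 566934) (.g (nat_lit 1580) (.e (nat_lit 450304) (nat_lit 3) (.e (nat_lit 98342) (nat_lit 20) (.e (nat_lit 221194) (nat_lit 11) (.e (nat_lit 336025) (nat_lit 3) (.e (nat_lit 98370) (nat_lit 28) .nil))))) (.g (nat_lit 0) (.e (nat_lit 333401) (nat_lit 0) .nil) .nil)))) (.nd (nat_lit 9) 
(.lf (nat_lit 566678) (.g (nat_lit 1867) (.e (nat_lit 442374) (nat_lit 0) (.e (nat_lit 1856) (nat_lit 124) (.e (nat_lit 557107) (nat_lit 15) (.e (nat_lit 188441) (nat_lit 20) (.e (nat_lit 3271) (nat_lit 199) (.e (nat_lit 548898) (nat_lit 14) (.e (nat_lit 3004) (nat_lit 186) .nil))))))) (.g (nat_lit 1) (.e (nat_lit 332988) (nat_lit 0) .nil) .nil))) 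
(.lf (nat_lit 567190) (.g (nat_lit 571) (.e (nat_lit 442402) (nat_lit 20) (.e (nat_lit 3578) (nat_lit 223) (.e (nat_lit 745475) (nat_lit 0) (.e (nat_lit 1598) (nat_lit 111) (.e (nat_lit 368384) (nat_lit 5) .nil))))) (.g (nat_lit 0) (.e (nat_lit 335328) (nat_lit 0) .nil) .nil)))))) (.nd (nat_lit 7) (.nd (nat_lit 8) (.nd (nat_lit 9) 
(.lf (nat_lit 566358) (.g (nat_lit 1839) (.e (nat_lit 434272) (nat_lit 38) (.e (nat_lit 655378) (nat_lit 4) (.e (nat_lit 172095) (nat_lit 9) (.e (nat_lit 426025) (nat_lit 0) (.e (nat_lit 3397) (nat_lit 211) .nil))))) (.g (nat_lit 0) (.e (nat_lit 332234) (nat_lit 0) .nil) .nil))) 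
(.lf (nat_lit 566870) (.g (nat_lit 1797) (.e (nat_lit 450304) (nat_lit 3) (.e (nat_lit 98333) (nat_lit 18) (.e (nat_lit 164329) (nat_lit 230) (.e (nat_lit 163902) (nat_lit 12) (.e (nat_lit 426479) (nat_lit 27) .nil))))) (.g (nat_lit 0) (.e (nat_lit 333312) (nat_lit 0) .nil) .nil)))) (.nd (nat_lit 9) 
(.lf (nat_lit 566614) (.g (nat_lit 2392) (.e (nat_lit 442373) (nat_lit 0) (.e (nat_lit 1853) (nat_lit 124) (.e (nat_lit 557107) (nat_lit 15) (.e (nat_lit 188439) (nat_lit 20) (.e (nat_lit 3271) (nat_lit 199) (.e (nat_lit 548898) (nat_lit 14) (.e (nat_lit 3004) (nat_lit 186) .nil))))))) (.g (nat_lit 1) (.e (nat_lit 332914) (nat_lit 0) .nil) .nil))) 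
(.lf (nat_lit 567126) (.g (nat_lit 1491) (.e (nat_lit 450304) (nat_lit 18) (.e (nat_lit 393254) (nat_lit 18) (.e (nat_lit 164326) (nat_lit 230) (.e (nat_lit 163871) (nat_lit 2) (.e (nat_lit 196619) (nat_lit 9) .nil))))) (.g (nat_lit 0) (.e (nat_lit 334901) (nat_lit 0) .nil) .nil))))) (.nd (nat_lit 8) (.nd (nat_lit 9) 
(.lf (nat_lit 566486) (.g (nat_lit 3459) (.e (nat_lit 434289) (nat_lit 43) (.e (nat_lit 696344) (nat_lit 8) (.e (nat_lit 172113) (nat_lit 10) (.e (nat_lit 434289) (nat_lit 43) (.e (nat_lit 696344) (nat_lit 8) (.e (nat_lit 172112) (nat_lit 10) .nil)))))) (.g (nat_lit 1) (.e (nat_lit 332679) (nat_lit 0) .nil) .nil))) 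
(.lf (nat_lit 566998) (.g (nat_lit 1685) (.e (nat_lit 442390) (nat_lit 11) (.e (nat_lit 336232) (nat_lit 14) (.e (nat_lit 401446) (nat_lit 10) (.e (nat_lit 434289) (nat_lit 43) (.e (nat_lit 696330) (nat_lit 5) .nil))))) (.g (nat_lit 0) (.e (nat_lit 334566) (nat_lit 0) .nil) .nil)))) (.nd (nat_lit 9) 
(.lf (nat_lit 566742) (.g (nat_lit 1888) (.e (nat_lit 442377) (nat_lit 0) (.e (nat_lit 1800) (nat_lit 119) (.e (nat_lit 516120) (nat_lit 1) (.e (nat_lit 164332) (nat_lit 230) (.e (nat_lit 163902) (nat_lit 12) .nil))))) (.g (nat_lit 0) (.e (nat_lit 333103) (nat_lit 0) .nil) .nil))) 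
(.lf (nat_lit 567254) (.g (nat_lit 1863) (.e (nat_lit 442408) (nat_lit 20) (.e (nat_lit 3390) (nat_lit 210) (.e (nat_lit 639021) (nat_lit 16) (.e (nat_lit 65619) (nat_lit 10) (.e (nat_lit 344160) (nat_lit 37) (.e (nat_lit 647195) (nat_lit 9) (.e (nat_lit 7936) (nat_lit 34) .nil))))))) (.g (nat_lit 1) (.e (nat_lit 335544) (nat_lit 0) .nil) .nil))))))) 
(.nd (nat_lit 6) (.nd (nat_lit 7) (.nd (nat_lit 8) (.nd (nat_lit 9) 
(.lf (nat_lit 566326) (.g (nat_lit 3777) (.e (nat_lit 434272) (nat_lit 38) (.e (nat_lit 655375) (nat_lit 3) (.e (nat_lit 163973) (nat_lit 30) (.e (nat_lit 573484) (nat_lit 13) (.e (nat_lit 65610) (nat_lit 10) (.e (nat_lit 344117) (nat_lit 21) (.e (nat_lit 516160) (nat_lit 10) .nil))))))) (.g (nat_lit 1) (.e (nat_lit 332107) (nat_lit 0) .nil) .nil))) 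
(.lf (nat_lit 566838) (.g (nat_lit 2750) (.e (nat_lit 442379) (nat_lit 0) (.e (nat_lit 2059) (nat_lit 142) (.e (nat_lit 704595) (nat_lit 5) (.e (nat_lit 180285) (nat_lit 45) (.e (nat_lit 2789) (nat_lit 179) (.e (nat_lit 294974) (nat_lit 29) .nil)))))) (.g (nat_lit 1) (.e (nat_lit 333251) (nat_lit 0) .nil) .nil)))) (.nd (nat_lit 9) 
(.lf (nat_lit 566582) (.g (nat_lit 2571) (.e (nat_lit 442372) (nat_lit 0) (.e (nat_lit 1855) (nat_lit 124) (.e (nat_lit 557098) (nat_lit 13) (.e (nat_lit 172115) (nat_lit 10) (.e (nat_lit 434244) (nat_lit 28) (.e (nat_lit 573450) (nat_lit 9) (.e (nat_lit 454) (nat_lit 34) .nil))))))) (.g (nat_lit 1) (.e (nat_lit 332877) (nat_lit 0) .nil) .nil))) 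
(.lf (nat_lit 567094) (.g (nat_lit 404) (.e (nat_lit 450304) (nat_lit 18) (.e (nat_lit 393252) (nat_lit 18) (.e (nat_lit 164401) (nat_lit 256) .nil))) (.g (nat_lit 0) (.e (nat_lit 334850) (nat_lit 0) .nil) .nil))))) (.nd (nat_lit 8) (.nd (nat_lit 9) 
(.lf (nat_lit 566454) (.g (nat_lit 1648) (.e (nat_lit 434289) (nat_lit 43) (.e (nat_lit 696344) (nat_lit 8) (.e (nat_lit 172067) (nat_lit 3) (.e (nat_lit 204837) (nat_lit 20) .nil)))) (.g (nat_lit 0) (.e (nat_lit 332642) (nat_lit 0) .nil) .nil))) 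
(.lf (nat_lit 566966) (.g (nat_lit 2430) (.e (nat_lit 442390) (nat_lit 11) (.e (nat_lit 335986) (nat_lit 1) (.e (nat_lit 57688) (nat_lit 156) (.e (nat_lit 163902) (nat_lit 12) (.e (nat_lit 426437) (nat_lit 18) (.e (nat_lit 98370) (nat_lit 28) .nil)))))) (.g (nat_lit 1) (.e (nat_lit 334378) (nat_lit 0) .nil) .nil)))) (.nd (nat_lit 9) 
(.lf (nat_lit 566710) (.g (nat_lit 1705) (.e (nat_lit 442374) (nat_lit 0) (.e (nat_lit 2175) (nat_lit 143) (.e (nat_lit 712745) (nat_lit 27) (.e (nat_lit 425984) (nat_lit 0) (.e (nat_lit 7588) (nat_lit 406) (.e (nat_lit 73472) (nat_lit 29) .nil)))))) (.g (nat_lit 1) (.e (nat_lit 333033) (nat_lit 0) .nil) .nil))) 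
(.lf (nat_lit 567222) (.g (nat_lit 2101) (.e (nat_lit 442406) (nat_lit 20) (.e (nat_lit 3238) (nat_lit 197) (.e (nat_lit 532523) (nat_lit 7) (.e (nat_lit 319504) (nat_lit 10) (.e (nat_lit 5396) (nat_lit 301) .nil))))) (.g (nat_lit 0) (.e (nat_lit 335428) (nat_lit 0) .nil) .nil)))))) (.nd (nat_lit 7) (.nd (nat_lit 8) (.nd (nat_lit 9) 
(.lf (nat_lit 566390) (.g (nat_lit 2356) (.e (nat_lit 434272) (nat_lit 38) (.e (nat_lit 655380) (nat_lit 6) (.e (nat_lit 188440) (nat_lit 20) (.e (nat_lit 3409) (nat_lit 212) (.e (nat_lit 655378) (nat_lit 4) (.e (nat_lit 172107) (nat_lit 10) .nil)))))) (.g (nat_lit 1) (.e (nat_lit 332364) (nat_lit 0) .nil) .nil))) 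
(.lf (nat_lit 566902) (.g (nat_lit 1378) (.e (nat_lit 450304) (nat_lit 3) (.e (nat_lit 98335) (nat_lit 18) (.e (nat_lit 164330) (nat_lit 230) (.e (nat_lit 163900) (nat_lit 12) .nil)))) (.g (nat_lit 0) (.e (nat_lit 333359) (nat_lit 0) .nil) .nil)))) (.nd (nat_lit 9) 
(.lf (nat_lit 566646) (.g (nat_lit 2658) (.e (nat_lit 442374) (nat_lit 0) (.e (nat_lit 1800) (nat_lit 119) (.e (nat_lit 516120) (nat_lit 1) (.e (nat_lit 164332) (nat_lit 230) (.e (nat_lit 163943) (nat_lit 19) (.e (nat_lit 491264) (nat_lit 11) .nil)))))) (.g (nat_lit 1) (.e (nat_lit 332951) (nat_lit 0) .nil) .nil))) 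
(.lf (nat_lit 567158) (.g (nat_lit 2119) (.e (nat_lit 442399) (nat_lit 20) (.e (nat_lit 3399) (nat_lit 211) (.e (nat_lit 647183) (nat_lit 4) (.e (nat_lit 172079) (nat_lit 7) (.e (nat_lit 409618) (nat_lit 10) (.e (nat_lit 5364) (nat_lit 298) (.e (nat_lit 463) (nat_lit 34) .nil))))))) (.g (nat_lit 1) (.e (nat_lit 335115) (nat_lit 0) .nil) .nil))))) (.nd (nat_lit 8) (.nd (nat_lit 9) 
(.lf (nat_lit 566518) (.g (nat_lit 1658) (.e (nat_lit 434289) (nat_lit 43) (.e (nat_lit 696346) (nat_lit 10) (.e (nat_lit 188440) (nat_lit 20) (.e (nat_lit 3459) (nat_lit 216) (.e (nat_lit 688139) (nat_lit 5) .nil))))) (.g (nat_lit 0) (.e (nat_lit 332737) (nat_lit 0) .nil) .nil))) 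
(.lf (nat_lit 567030) (.g (nat_lit 1547) (.e (nat_lit 450304) (nat_lit 13) (.e (nat_lit 352309) (nat_lit 21) (.e (nat_lit 57846) (nat_lit 252) (.e (nat_lit 57390) (nat_lit 5) (.e (nat_lit 122624) (nat_lit 13) .nil))))) (.g (nat_lit 0) (.e (nat_lit 334728) (nat_lit 0) .nil) .nil)))) (.nd (nat_lit 9) 
(.lf (nat_lit 566774) (.g (nat_lit 2540) (.e (nat_lit 442378) (nat_lit 0) (.e (nat_lit 1800) (nat_lit 119) (.e (nat_lit 516120) (nat_lit 1) (.e (nat_lit 164331) (nat_lit 230) (.e (nat_lit 163941) (nat_lit 19) (.e (nat_lit 491264) (nat_lit 11) .nil)))))) (.g (nat_lit 1) (.e (nat_lit 333148) (nat_lit 0) .nil) .nil))) 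
(.lf (nat_lit 567286) (.g (nat_lit 3408) (.e (nat_lit 442414) (nat_lit 20) (.e (nat_lit 3308) (nat_lit 202) (.e (nat_lit 573471) (nat_lit 11) (.e (nat_lit 16425) (nat_lit 7) (.e (nat_lit 409617) (nat_lit 10) .nil))))) (.g (nat_lit 0) (.e (nat_lit 335841) (nat_lit 0) .nil) .nil))))))))) (.nd (nat_lit 4) (.nd (nat_lit 5) (.nd (nat_lit 6) (.nd (nat_lit 7) (.nd (nat_lit 8) (.nd (nat_lit 9) 
(.lf (nat_lit 566286) (.g (nat_lit 417) (.e (nat_lit 434271) (nat_lit 38) (.e (nat_lit 655378) (nat_lit 4) (.e (nat_lit 172113) (nat_lit 10) .nil))) (.g (nat_lit 0) (.e (nat_lit 331945) (nat_lit 0) .nil) .nil))) 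
(.lf (nat_lit 566798) (.g (nat_lit 2457) (.e (nat_lit 442379) (nat_lit 0) (.e (nat_lit 1784) (nat_lit 119) (.e (nat_lit 516117) (nat_lit 1) (.e (nat_lit 164329) (nat_lit 230) (.e (nat_lit 163941) (nat_lit 19) (.e (nat_lit 491264) (nat_lit 11) .nil)))))) (.g (nat_lit 1) (.e (nat_lit 333180) (nat_lit 0) .nil) .nil)))) (.nd (nat_lit 9) 
(.lf (nat_lit 566542) (.g (nat_lit 1567) (.e (nat_lit 434291) (nat_lit 44) (.e (nat_lit 704738) (nat_lit 11) (.e (nat_lit 16470) (nat_lit 14) (.e (nat_lit 499456) (nat_lit 25) .nil)))) (.g (nat_lit 0) (.e (nat_lit 332781) (nat_lit 0) .nil) .nil))) 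
(.lf (nat_lit 567054) (.g (nat_lit 1433) (.e (nat_lit 450304) (nat_lit 16) (.e (nat_lit 376858) (nat_lit 21) (.e (nat_lit 57854) (nat_lit 252) (.e (nat_lit 57389) (nat_lit 5) (.e (nat_lit 122624) (nat_lit 13) .nil))))) (.g (nat_lit 0) (.e (nat_lit 334770) (nat_lit 0) .nil) .nil))))) (.nd (nat_lit 8) (.nd (nat_lit 9) 
(.lf (nat_lit 566414) (.g (nat_lit 1883) (.e (nat_lit 434287) (nat_lit 43) (.e (nat_lit 696344) (nat_lit 8) (.e (nat_lit 172113) (nat_lit 10) (.e (nat_lit 434208) (nat_lit 18) (.e (nat_lit 6420) (nat_lit 341) (.e (nat_lit 163908) (nat_lit 12) (.e (nat_lit 426286) (nat_lit 10) .nil))))))) (.g (nat_lit 1) (.e (nat_lit 332475) (nat_lit 0) .nil) .nil))) 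
(.lf (nat_lit 566926) (.g (nat_lit 1563) (.e (nat_lit 450304) (nat_lit 3) (.e (nat_lit 98341) (nat_lit 20) (.e (nat_lit 221194) (nat_lit 11) (.e (nat_lit 336025) (nat_lit 3) .nil)))) (.g (nat_lit 0) (.e (nat_lit 333391) (nat_lit 0) .nil) .nil)))) (.nd (nat_lit 9) 
(.lf (nat_lit 566670) (.g (nat_lit 2549) (.e (nat_lit 442374) (nat_lit 0) (.e (nat_lit 1856) (nat_lit 124) (.e (nat_lit 557101) (nat_lit 13) (.e (nat_lit 172115) (nat_lit 10) (.e (nat_lit 434244) (nat_lit 28) (.e (nat_lit 573450) (nat_lit 9) (.e (nat_lit 454) (nat_lit 34) .nil))))))) (.g (nat_lit 1) (.e (nat_lit 332980) (nat_lit 0) .nil) .nil))) 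
(.lf (nat_lit 567182) (.g (nat_lit 2080) (.e (nat_lit 442402) (nat_lit 20) (.e (nat_lit 3391) (nat_lit 210) (.e (nat_lit 639021) (nat_lit 16) (.e (nat_lit 65619) (nat_lit 10) (.e (nat_lit 344160) (nat_lit 37) (.e (nat_lit 647190) (nat_lit 9) (.e (nat_lit 7936) (nat_lit 34) .nil))))))) (.g (nat_lit 1) (.e (nat_lit 335273) (nat_lit 0) .nil) .nil)))))) 
(.nd (nat_lit 7) (.nd (nat_lit 8) (.nd (nat_lit 9) 
(.lf (nat_lit 566350) (.g (nat_lit 2108) (.e (nat_lit 434272) (nat_lit 38) (.e (nat_lit 655375) (nat_lit 3) (.e (nat_lit 163979) (nat_lit 30) (.e (nat_lit 573491) (nat_lit 15) (.e (nat_lit 81955) (nat_lit 23) .nil))))) (.g (nat_lit 0) (.e (nat_lit 332190) (nat_lit 0) .nil) .nil))) 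
(.lf (nat_lit 566862) (.g (nat_lit 1207) (.e (nat_lit 450304) (nat_lit 3) (.e (nat_lit 98333) (nat_lit 18) (.e (nat_lit 164325) (nat_lit 230) (.e (nat_lit 163907) (nat_lit 12) .nil)))) (.g (nat_lit 0) (.e (nat_lit 333303) (nat_lit 0) .nil) .nil)))) (.nd (nat_lit 9) 
(.lf (nat_lit 566606) (.g (nat_lit 2591) (.e (nat_lit 442373) (nat_lit 0) (.e (nat_lit 1853) (nat_lit 124) (.e (nat_lit 557098) (nat_lit 13) (.e (nat_lit 172115) (nat_lit 10) (.e (nat_lit 434238) (nat_lit 25) .nil))))) (.g (nat_lit 0) (.e (nat_lit 332906) (nat_lit 0) .nil) .nil))) 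
(.lf (nat_lit 567118) (.g (nat_lit 1387) (.e (nat_lit 450304) (nat_lit 18) (.e (nat_lit 393253) (nat_lit 18) (.e (nat_lit 164345) (nat_lit 240) (.e (nat_lit 2611) (nat_lit 163) (.e (nat_lit 163959) (nat_lit 24) .nil))))) (.g (nat_lit 0) (.e (nat_lit 334881) (nat_lit 0) .nil) .nil))))) (.nd (nat_lit 8) (.nd (nat_lit 9) 
(.lf (nat_lit 566478) (.g (nat_lit 936) (.e (nat_lit 434289) (nat_lit 43) (.e (nat_lit 696344) (nat_lit 8) (.e (nat_lit 172113) (nat_lit 10) (.e (nat_lit 434203) (nat_lit 18) .nil)))) (.g (nat_lit 0) (.e (nat_lit 332670) (nat_lit 0) .nil) .nil))) 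
(.lf (nat_lit 566990) (.g (nat_lit 1242) (.e (nat_lit 442390) (nat_lit 11) (.e (nat_lit 336231) (nat_lit 14) (.e (nat_lit 401448) (nat_lit 10) (.e (nat_lit 434287) (nat_lit 43) .nil)))) (.g (nat_lit 0) (.e (nat_lit 334526) (nat_lit 0) .nil) .nil)))) (.nd (nat_lit 9) 
(.lf (nat_lit 566734) (.g (nat_lit 2287) (.e (nat_lit 442377) (nat_lit 0) (.e (nat_lit 1800) (nat_lit 119) (.e (nat_lit 516115) (nat_lit 1) (.e (nat_lit 164325) (nat_lit 230) (.e (nat_lit 163903) (nat_lit 12) .nil))))) (.g (nat_lit 0) (.e (nat_lit 333094) (nat_lit 0) .nil) .nil))) 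
(.lf (nat_lit 567246) (.g (nat_lit 2454) (.e (nat_lit 442406) (nat_lit 20) (.e (nat_lit 3297) (nat_lit 202) (.e (nat_lit 573450) (nat_lit 9) (.e (nat_lit 375) (nat_lit 32) (.e (nat_lit 426173) (nat_lit 7) .nil))))) (.g (nat_lit 0) (.e (nat_lit 335462) (nat_lit 0) .nil) .nil))))))) (.nd (nat_lit 6) (.nd (nat_lit 7) (.nd (nat_lit 8) (.nd (nat_lit 9) 
(.lf (nat_lit 566318) (.g (nat_lit 347) (.e (nat_lit 434272) (nat_lit 38) (.e (nat_lit 655364) (nat_lit 0) (.e (nat_lit 3015) (nat_lit 187) .nil))) (.g (nat_lit 0) (.e (nat_lit 332060) (nat_lit 0) .nil) .nil))) 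
(.lf (nat_lit 566830) (.g (nat_lit 2429) (.e (nat_lit 442379) (nat_lit 0) (.e (nat_lit 2057) (nat_lit 142) (.e (nat_lit 704595) (nat_lit 5) (.e (nat_lit 180277) (nat_lit 32) (.e (nat_lit 1428) (nat_lit 108) (.e (nat_lit 336430) (nat_lit 29) .nil)))))) (.g (nat_lit 1) (.e (nat_lit 333228) (nat_lit 0) .nil) .nil)))) (.nd (nat_lit 9) 
(.lf (nat_lit 566574) (.g (nat_lit 1234) (.e (nat_lit 442372) (nat_lit 0) (.e (nat_lit 1800) (nat_lit 119) (.e (nat_lit 516117) (nat_lit 1) (.e (nat_lit 164332) (nat_lit 230) .nil)))) (.g (nat_lit 0) (.e (nat_lit 332869) (nat_lit 0) .nil) .nil))) 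
(.lf (nat_lit 567086) (.g (nat_lit 2740) (.e (nat_lit 450304) (nat_lit 18) (.e (nat_lit 393251) (nat_lit 18) (.e (nat_lit 164399) (nat_lit 256) (.e (nat_lit 57378) (nat_lit 3) (.e (nat_lit 98371) (nat_lit 28) .nil))))) (.g (nat_lit 0) (.e (nat_lit 334830) (nat_lit 0) .nil) .nil))))) (.nd (nat_lit 8) (.nd (nat_lit 9) 
(.lf (nat_lit 566446) (.g (nat_lit 2768) (.e (nat_lit 434289) (nat_lit 43) (.e (nat_lit 696343) (nat_lit 8) (.e (nat_lit 172107) (nat_lit 10) (.e (nat_lit 434289) (nat_lit 43) (.e (nat_lit 696344) (nat_lit 8) (.e (nat_lit 172112) (nat_lit 10) .nil)))))) (.g (nat_lit 1) (.e (nat_lit 332617) (nat_lit 0) .nil) .nil))) 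
(.lf (nat_lit 566958) (.g (nat_lit 2390) (.e (nat_lit 442387) (nat_lit 11) (.e (nat_lit 336231) (nat_lit 14) (.e (nat_lit 401448) (nat_lit 10) (.e (nat_lit 434289) (nat_lit 43) .nil)))) (.g (nat_lit 0) (.e (nat_lit 334076) (nat_lit 0) .nil) .nil)))) (.nd (nat_lit 9) 
(.lf (nat_lit 566702) (.g (nat_lit 2018) (.e (nat_lit 442374) (nat_lit 0) (.e (nat_lit 2059) (nat_lit 142) (.e (nat_lit 704599) (nat_lit 6) (.e (nat_lit 188441) (nat_lit 20) (.e (nat_lit 3409) (nat_lit 212) (.e (nat_lit 655364) (nat_lit 0) (.e (nat_lit 3004) (nat_lit 186) .nil))))))) (.g (nat_lit 1) (.e (nat_lit 333023) (nat_lit 0) .nil) .nil))) 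
(.lf (nat_lit 567214) (.g (nat_lit 2477) (.e (nat_lit 442405) (nat_lit 20) (.e (nat_lit 3297) (nat_lit 202) (.e (nat_lit 573450) (nat_lit 9) (.e (nat_lit 375) (nat_lit 32) (.e (nat_lit 426173) (nat_lit 7) .nil))))) (.g (nat_lit 0) (.e (nat_lit 335393) (nat_lit 0) .nil) .nil)))))) (.nd (nat_lit 7) (.nd (nat_lit 8) (.nd (nat_lit 9) 
(.lf (nat_lit 566382) (.g (nat_lit 1911) (.e (nat_lit 434272) (nat_lit 38) (.e (nat_lit 655380) (nat_lit 6) (.e (nat_lit 188435) (nat_lit 20) (.e (nat_lit 3409) (nat_lit 212) (.e (nat_lit 655378) (nat_lit 4) (.e (nat_lit 172116) (nat_lit 10) .nil)))))) (.g (nat_lit 1) (.e (nat_lit 332356) (nat_lit 0) .nil) .nil))) 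
(.lf (nat_lit 566894) (.g (nat_lit 1222) (.e (nat_lit 450304) (nat_lit 3) (.e (nat_lit 98335) (nat_lit 18) (.e (nat_lit 164325) (nat_lit 230) (.e (nat_lit 163942) (nat_lit 19) (.e (nat_lit 491264) (nat_lit 11) .nil))))) (.g (nat_lit 0) (.e (nat_lit 333348) (nat_lit 0) .nil) .nil)))) (.nd (nat_lit 9) 
(.lf (nat_lit 566638) (.g (nat_lit 2225) (.e (nat_lit 442374) (nat_lit 0) (.e (nat_lit 1800) (nat_lit 119) (.e (nat_lit 516120) (nat_lit 1) (.e (nat_lit 164329) (nat_lit 230) (.e (nat_lit 163941) (nat_lit 19) (.e (nat_lit 491264) (nat_lit 11) .nil)))))) (.g (nat_lit 1) (.e (nat_lit 332943) (nat_lit 0) .nil) .nil))) 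
(.lf (nat_lit 567150) (.g (nat_lit 2025) (.e (nat_lit 442396) (nat_lit 20) (.e (nat_lit 3402) (nat_lit 211) (.e (nat_lit 647183) (nat_lit 4) (.e (nat_lit 172079) (nat_lit 7) (.e (nat_lit 409618) (nat_lit 10) (.e (nat_lit 5363) (nat_lit 298) (.e (nat_lit 463) (nat_lit 34) .nil))))))) (.g (nat_lit 1) (.e (nat_lit 335050) (nat_lit 0) .nil) .nil))))) (.nd (nat_lit 8) (.nd (nat_lit 9) 
(.lf (nat_lit 566510) (.g (nat_lit 3729) (.e (nat_lit 434289) (nat_lit 43) (.e (nat_lit 696346) (nat_lit 10) (.e (nat_lit 188434) (nat_lit 20) (.e (nat_lit 3469) (nat_lit 217) (.e (nat_lit 696344) (nat_lit 8) (.e (nat_lit 172115) (nat_lit 10) .nil)))))) (.g (nat_lit 1) (.e (nat_lit 332728) (nat_lit 0) .nil) .nil))) 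
(.lf (nat_lit 567022) (.g (nat_lit 972) (.e (nat_lit 450304) (nat_lit 13) (.e (nat_lit 352307) (nat_lit 21) (.e (nat_lit 57848) (nat_lit 252) (.e (nat_lit 57388) (nat_lit 5) (.e (nat_lit 122624) (nat_lit 13) .nil))))) (.g (nat_lit 0) (.e (nat_lit 334720) (nat_lit 0) .nil) .nil)))) (.nd (nat_lit 9) 
(.lf (nat_lit 566766) (.g (nat_lit 1914) (.e (nat_lit 442378) (nat_lit 0) (.e (nat_lit 1798) (nat_lit 119) (.e (nat_lit 516117) (nat_lit 1) (.e (nat_lit 164329) (nat_lit 230) (.e (nat_lit 163941) (nat_lit 19) (.e (nat_lit 491264) (nat_lit 11) .nil)))))) (.g (nat_lit 1) (.e (nat_lit 333139) (nat_lit 0) .nil) .nil))) 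
(.lf (nat_lit 567278) (.g (nat_lit 2182) (.e (nat_lit 442409) (nat_lit 20) (.e (nat_lit 3409) (nat_lit 212) (.e (nat_lit 655378) (nat_lit 4) (.e (nat_lit 172079) (nat_lit 7) (.e (nat_lit 409618) (nat_lit 10) (.e (nat_lit 5362) (nat_lit 298) (.e (nat_lit 463) (nat_lit 34) .nil))))))) (.g (nat_lit 1) (.e (nat_lit 335765) (nat_lit 0) .nil) .nil)))))))) 
(.nd (nat_lit 5) (.nd (nat_lit 6) (.nd (nat_lit 7) (.nd (nat_lit 8) (.nd (nat_lit 9) 
(.lf (nat_lit 566302) (.g (nat_lit 2658) (.e (nat_lit 434271) (nat_lit 38) (.e (nat_lit 655380) (nat_lit 6) (.e (nat_lit 188434) (nat_lit 20) (.e (nat_lit 3409) (nat_lit 212) (.e (nat_lit 655378) (nat_lit 4) (.e (nat_lit 172115) (nat_lit 10) .nil)))))) (.g (nat_lit 1) (.e (nat_lit 332011) (nat_lit 0) .nil) .nil))) 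
(.lf (nat_lit 566814) (.g (nat_lit 3183) (.e (nat_lit 442379) (nat_lit 0) (.e (nat_lit 1856) (nat_lit 124) (.e (nat_lit 557100) (nat_lit 13) (.e (nat_lit 172113) (nat_lit 10) (.e (nat_lit 434242) (nat_lit 28) (.e (nat_lit 573464) (nat_lit 9) (.e (nat_lit 461) (nat_lit 34) .nil))))))) (.g (nat_lit 1) (.e (nat_lit 333204) (nat_lit 0) .nil) .nil)))) (.nd (nat_lit 9) 
(.lf (nat_lit 566558) (.g (nat_lit 2708) (.e (nat_lit 434295) (nat_lit 49) (.e (nat_lit 745491) (nat_lit 4) (.e (nat_lit 65617) (nat_lit 10) (.e (nat_lit 344132) (nat_lit 26) (.e (nat_lit 557118) (nat_lit 18) (.e (nat_lit 2807) (nat_lit 180) (.e (nat_lit 303137) (nat_lit 10) .nil))))))) (.g (nat_lit 1) (.e (nat_lit 332820) (nat_lit 0) .nil) .nil))) 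
(.lf (nat_lit 567070) (.g (nat_lit 1759) (.e (nat_lit 450304) (nat_lit 16) (.e (nat_lit 376860) (nat_lit 21) (.e (nat_lit 57853) (nat_lit 252) (.e (nat_lit 57389) (nat_lit 5) (.e (nat_lit 122624) (nat_lit 13) .nil))))) (.g (nat_lit 0) (.e (nat_lit 334788) (nat_lit 0) .nil) .nil))))) (.nd (nat_lit 8) (.nd (nat_lit 9) 
(.lf (nat_lit 566430) (.g (nat_lit 579) (.e (nat_lit 434288) (nat_lit 43) (.e (nat_lit 696344) (nat_lit 8) (.e (nat_lit 172112) (nat_lit 10) .nil))) (.g (nat_lit 0) (.e (nat_lit 332509) (nat_lit 0) .nil) .nil))) 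
(.lf (nat_lit 566942) (.g (nat_lit 67) (.e (nat_lit 450304) (nat_lit 7) (.e (nat_lit 139281) (nat_lit 5) (.e (nat_lit 81664) (nat_lit 34) .nil))) (.g (nat_lit 0) (.e (nat_lit 333475) (nat_lit 0) .nil) .nil)))) (.nd (nat_lit 9) 
(.lf (nat_lit 566686) (.g (nat_lit 1944) (.e (nat_lit 442374) (nat_lit 0) (.e (nat_lit 2059) (nat_lit 142) (.e (nat_lit 704595) (nat_lit 5) (.e (nat_lit 180276) (nat_lit 32) (.e (nat_lit 1512) (nat_lit 108) (.e (nat_lit 343808) (nat_lit 29) .nil)))))) (.g (nat_lit 1) (.e (nat_lit 333003) (nat_lit 0) .nil) .nil))) 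
(.lf (nat_lit 567198) (.g (nat_lit 1422) (.e (nat_lit 442403) (nat_lit 20) (.e (nat_lit 3409) (nat_lit 212) (.e (nat_lit 655378) (nat_lit 4) (.e (nat_lit 172082) (nat_lit 7) (.e (nat_lit 409642) (nat_lit 17) .nil))))) (.g (nat_lit 0) (.e (nat_lit 335358) (nat_lit 0) .nil) .nil)))))) (.nd (nat_lit 7) (.nd (nat_lit 8) (.nd (nat_lit 9) 
(.lf (nat_lit 566366) (.g (nat_lit 2848) (.e (nat_lit 434272) (nat_lit 38) (.e (nat_lit 655378) (nat_lit 4) (.e (nat_lit 172124) (nat_lit 14) (.e (nat_lit 491568) (nat_lit 13) (.e (nat_lit 393283) (nat_lit 24) .nil))))) (.g (nat_lit 1) (.e (nat_lit 332303) (nat_lit 0) .nil) .nil))) 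
(.lf (nat_lit 566878) (.g (nat_lit 3073) (.e (nat_lit 450304) (nat_lit 3) (.e (nat_lit 98334) (nat_lit 18) (.e (nat_lit 164330) (nat_lit 230) (.e (nat_lit 163902) (nat_lit 12) (.e (nat_lit 426478) (nat_lit 27) .nil))))) (.g (nat_lit 0) (.e (nat_lit 333325) (nat_lit 0) .nil) .nil)))) (.nd (nat_lit 9) 
(.lf (nat_lit 566622) (.g (nat_lit 2507) (.e (nat_lit 442373) (nat_lit 0) (.e (nat_lit 1853) (nat_lit 124) (.e (nat_lit 557107) (nat_lit 15) (.e (nat_lit 188441) (nat_lit 20) (.e (nat_lit 3272) (nat_lit 199) (.e (nat_lit 548898) (nat_lit 14) (.e (nat_lit 3004) (nat_lit 186) .nil))))))) (.g (nat_lit 1) (.e (nat_lit 332922) (nat_lit 0) .nil) .nil))) 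
(.lf (nat_lit 567134) (.g (nat_lit 1638) (.e (nat_lit 450304) (nat_lit 18) (.e (nat_lit 393254) (nat_lit 18) (.e (nat_lit 164332) (nat_lit 230) (.e (nat_lit 163874) (nat_lit 3) (.e (nat_lit 212736) (nat_lit 11) .nil))))) (.g (nat_lit 0) (.e (nat_lit 334910) (nat_lit 0) .nil) .nil))))) (.nd (nat_lit 8) (.nd (nat_lit 9) 
(.lf (nat_lit 566494) (.g (nat_lit 3964) (.e (nat_lit 434289) (nat_lit 43) (.e (nat_lit 696344) (nat_lit 8) (.e (nat_lit 172115) (nat_lit 10) (.e (nat_lit 434289) (nat_lit 43) (.e (nat_lit 696344) (nat_lit 8) (.e (nat_lit 172115) (nat_lit 10) .nil)))))) (.g (nat_lit 1) (.e (nat_lit 332688) (nat_lit 0) .nil) .nil))) 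
(.lf (nat_lit 567006) (.g (nat_lit 2596) (.e (nat_lit 442390) (nat_lit 11) (.e (nat_lit 336232) (nat_lit 14) (.e (nat_lit 401448) (nat_lit 10) (.e (nat_lit 434287) (nat_lit 43) (.e (nat_lit 696330) (nat_lit 5) (.e (nat_lit 2988) (nat_lit 186) .nil)))))) (.g (nat_lit 1) (.e (nat_lit 334602) (nat_lit 0) .nil) .nil)))) (.nd (nat_lit 9) 
(.lf (nat_lit 566750) (.g (nat_lit 1422) (.e (nat_lit 442377) (nat_lit 0) (.e (nat_lit 1856) (nat_lit 124) (.e (nat_lit 557107) (nat_lit 15) (.e (nat_lit 188439) (nat_lit 20) .nil)))) (.g (nat_lit 0) (.e (nat_lit 333111) (nat_lit 0) .nil) .nil))) 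
(.lf (nat_lit 567262) (.g (nat_lit 2274) (.e (nat_lit 442409) (nat_lit 20) (.e (nat_lit 3390) (nat_lit 210) (.e (nat_lit 639021) (nat_lit 16) (.e (nat_lit 65617) (nat_lit 10) (.e (nat_lit 344161) (nat_lit 37) (.e (nat_lit 647190) (nat_lit 9) (.e (nat_lit 7936) (nat_lit 34) .nil))))))) (.g (nat_lit 1) (.e (nat_lit 335698) (nat_lit 0) .nil) .nil))))))) 
(.nd (nat_lit 6) (.nd (nat_lit 7) (.nd (nat_lit 8) (.nd (nat_lit 9) 
(.lf (nat_lit 566334) (.g (nat_lit 2301) (.e (nat_lit 434272) (nat_lit 38) (.e (nat_lit 655375) (nat_lit 3) (.e (nat_lit 163978) (nat_lit 30) (.e (nat_lit 573480) (nat_lit 13) (.e (nat_lit 65618) (nat_lit 10) .nil))))) (.g (nat_lit 0) (.e (nat_lit 332115) (nat_lit 0) .nil) .nil))) 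
(.lf (nat_lit 566846) (.g (nat_lit 242) (.e (nat_lit 450304) (nat_lit 0) (.e (nat_lit 1691) (nat_lit 117) (.e (nat_lit 500074) (nat_lit 20) (.e (nat_lit 89856) (nat_lit 19) .nil)))) (.g (nat_lit 0) (.e (nat_lit 333266) (nat_lit 0) .nil) .nil)))) (.nd (nat_lit 9) 
(.lf (nat_lit 566590) (.g (nat_lit 559) (.e (nat_lit 442372) (nat_lit 0) (.e (nat_lit 2058) (nat_lit 142) (.e (nat_lit 704595) (nat_lit 5) .nil))) (.g (nat_lit 0) (.e (nat_lit 332885) (nat_lit 0) .nil) .nil))) 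
(.lf (nat_lit 567102) (.g (nat_lit 1140) (.e (nat_lit 450304) (nat_lit 18) (.e (nat_lit 393253) (nat_lit 18) (.e (nat_lit 164326) (nat_lit 230) (.e (nat_lit 163873) (nat_lit 3) (.e (nat_lit 212736) (nat_lit 11) .nil))))) (.g (nat_lit 0) (.e (nat_lit 334865) (nat_lit 0) .nil) .nil))))) (.nd (nat_lit 8) (.nd (nat_lit 9) 
(.lf (nat_lit 566462) (.g (nat_lit 1554) (.e (nat_lit 434289) (nat_lit 43) (.e (nat_lit 696344) (nat_lit 8) (.e (nat_lit 172105) (nat_lit 10) (.e (nat_lit 434289) (nat_lit 43) (.e (nat_lit 696344) (nat_lit 8) .nil))))) (.g (nat_lit 0) (.e (nat_lit 332653) (nat_lit 0) .nil) .nil))) 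
(.lf (nat_lit 566974) (.g (nat_lit 1770) (.e (nat_lit 442390) (nat_lit 11) (.e (nat_lit 335986) (nat_lit 1) (.e (nat_lit 57692) (nat_lit 156) (.e (nat_lit 163905) (nat_lit 12) (.e (nat_lit 426437) (nat_lit 18) (.e (nat_lit 98369) (nat_lit 28) .nil)))))) (.g (nat_lit 1) (.e (nat_lit 334386) (nat_lit 0) .nil) .nil)))) (.nd (nat_lit 9) 
(.lf (nat_lit 566718) (.g (nat_lit 1895) (.e (nat_lit 442374) (nat_lit 0) (.e (nat_lit 2175) (nat_lit 143) (.e (nat_lit 712753) (nat_lit 30) (.e (nat_lit 450593) (nat_lit 16) (.e (nat_lit 655363) (nat_lit 0) (.e (nat_lit 3004) (nat_lit 186) .nil)))))) (.g (nat_lit 1) (.e (nat_lit 333044) (nat_lit 0) .nil) .nil))) 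
(.lf (nat_lit 567230) (.g (nat_lit 5032) (.e (nat_lit 442406) (nat_lit 20) (.e (nat_lit 3238) (nat_lit 197) (.e (nat_lit 532523) (nat_lit 7) (.e (nat_lit 319531) (nat_lit 16) (.e (nat_lit 286733) (nat_lit 2) (.e (nat_lit 90134) (nat_lit 9) (.e (nat_lit 3002) (nat_lit 186) .nil))))))) (.g (nat_lit 1) (.e (nat_lit 335436) (nat_lit 0) .nil) .nil)))))) 
(.nd (nat_lit 7) (.nd (nat_lit 8) (.nd (nat_lit 9) 
(.lf (nat_lit 566398) (.g (nat_lit 4057) (.e (nat_lit 434272) (nat_lit 38) (.e (nat_lit 655380) (nat_lit 6) (.e (nat_lit 188453) (nat_lit 24) (.e (nat_lit 229678) (nat_lit 244) (.e (nat_lit 163908) (nat_lit 12) (.e (nat_lit 426285) (nat_lit 10) .nil)))))) (.g (nat_lit 1) (.e (nat_lit 332379) (nat_lit 0) .nil) .nil))) 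
(.lf (nat_lit 566910) (.g (nat_lit 2315) (.e (nat_lit 450304) (nat_lit 3) (.e (nat_lit 98335) (nat_lit 18) (.e (nat_lit 164330) (nat_lit 230) (.e (nat_lit 163913) (nat_lit 12) (.e (nat_lit 426485) (nat_lit 27) .nil))))) (.g (nat_lit 0) (.e (nat_lit 333369) (nat_lit 0) .nil) .nil)))) (.nd (nat_lit 9) 
(.lf (nat_lit 566654) (.g (nat_lit 3189) (.e (nat_lit 442374) (nat_lit 0) (.e (nat_lit 1846) (nat_lit 124) (.e (nat_lit 557101) (nat_lit 13) (.e (nat_lit 172115) (nat_lit 10) (.e (nat_lit 434238) (nat_lit 25) (.e (nat_lit 548898) (nat_lit 14) (.e (nat_lit 3004) (nat_lit 186) .nil))))))) (.g (nat_lit 1) (.e (nat_lit 332960) (nat_lit 0) .nil) .nil))) 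
(.lf (nat_lit 567166) (.g (nat_lit 482) (.e (nat_lit 442402) (nat_lit 20) (.e (nat_lit 3238) (nat_lit 197) (.e (nat_lit 532523) (nat_lit 7) .nil))) (.g (nat_lit 0) (.e (nat_lit 335197) (nat_lit 0) .nil) .nil))))) (.nd (nat_lit 8) (.nd (nat_lit 9) 
(.lf (nat_lit 566526) (.g (nat_lit 3384) (.e (nat_lit 434289) (nat_lit 43) (.e (nat_lit 696346) (nat_lit 10) (.e (nat_lit 188441) (nat_lit 20) (.e (nat_lit 3469) (nat_lit 217) (.e (nat_lit 696344) (nat_lit 8) (.e (nat_lit 172112) (nat_lit 10) .nil)))))) (.g (nat_lit 1) (.e (nat_lit 332745) (nat_lit 0) .nil) .nil))) 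
(.lf (nat_lit 567038) (.g (nat_lit 1265) (.e (nat_lit 450304) (nat_lit 16) (.e (nat_lit 376857) (nat_lit 21) (.e (nat_lit 57846) (nat_lit 252) (.e (nat_lit 57390) (nat_lit 5) (.e (nat_lit 122624) (nat_lit 13) .nil))))) (.g (nat_lit 0) (.e (nat_lit 334751) (nat_lit 0) .nil) .nil)))) (.nd (nat_lit 9) 
(.lf (nat_lit 566782) (.g (nat_lit 514) (.e (nat_lit 442378) (nat_lit 0) (.e (nat_lit 2058) (nat_lit 142) (.e (nat_lit 704595) (nat_lit 5) .nil))) (.g (nat_lit 0) (.e (nat_lit 333156) (nat_lit 0) .nil) .nil))) 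
(.lf (nat_lit 567294) (.g (nat_lit 437) (.e (nat_lit 442411) (nat_lit 20) (.e (nat_lit 3272) (nat_lit 199) (.e (nat_lit 548913) (nat_lit 18) .nil))) (.g (nat_lit 0) (.e (nat_lit 335888) (nat_lit 0) .nil) .nil)))))))))))) (.nd (nat_lit 1) (.nd (nat_lit 2) (.nd (nat_lit 3) (.nd (nat_lit 4) (.nd (nat_lit 5) (.nd (nat_lit 6) (.nd (nat_lit 7) (.nd (nat_lit 8) (.nd (nat_lit 9) 
(.lf (nat_lit 566273) (.g (nat_lit 2251) (.e (nat_lit 434271) (nat_lit 38) (.e (nat_lit 655375) (nat_lit 3) (.e (nat_lit 163978) (nat_lit 30) (.e (nat_lit 573490) (nat_lit 15) .nil)))) (.g (nat_lit 0) (.e (nat_lit 331869) (nat_lit 0) .nil) .nil))) 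
(.lf (nat_lit 566785) (.g (nat_lit 1201) (.e (nat_lit 442378) (nat_lit 0) (.e (nat_lit 2059) (nat_lit 142) (.e (nat_lit 704595) (nat_lit 5) (.e (nat_lit 188160) (nat_lit 36) .nil)))) (.g (nat_lit 0) (.e (nat_lit 333160) (nat_lit 0) .nil) .nil)))) (.nd (nat_lit 9) 
(.lf (nat_lit 566529) (.g (nat_lit 905) (.e (nat_lit 434291) (nat_lit 44) (.e (nat_lit 704737) (nat_lit 11) (.e (nat_lit 16441) (nat_lit 9) .nil))) (.g (nat_lit 0) (.e (nat_lit 332767) (nat_lit 0) .nil) .nil))) 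
(.lf (nat_lit 567041) (.g (nat_lit 963) (.e (nat_lit 450304) (nat_lit 16) (.e (nat_lit 376857) (nat_lit 21) (.e (nat_lit 57848) (nat_lit 252) (.e (nat_lit 57388) (nat_lit 5) (.e (nat_lit 122624) (nat_lit 13) .nil))))) (.g (nat_lit 0) (.e (nat_lit 334754) (nat_lit 0) .nil) .nil))))) (.nd (nat_lit 8) (.nd (nat_lit 9) 
(.lf (nat_lit 566401) (.g (nat_lit 3048) (.e (nat_lit 434272) (nat_lit 38) (.e (nat_lit 655380) (nat_lit 6) (.e (nat_lit 188455) (nat_lit 24) (.e (nat_lit 229663) (nat_lit 240) (.e (nat_lit 2622) (nat_lit 164) (.e (nat_lit 172112) (nat_lit 10) .nil)))))) (.g (nat_lit 1) (.e (nat_lit 332382) (nat_lit 0) .nil) .nil))) 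
(.lf (nat_lit 566913) (.g (nat_lit 1940) (.e (nat_lit 450304) (nat_lit 3) (.e (nat_lit 98335) (nat_lit 18) (.e (nat_lit 164330) (nat_lit 230) (.e (nat_lit 163943) (nat_lit 19) (.e (nat_lit 491264) (nat_lit 11) .nil))))) (.g (nat_lit 0) (.e (nat_lit 333372) (nat_lit 0) .nil) .nil)))) (.nd (nat_lit 9) 
(.lf (nat_lit 566657) (.g (nat_lit 1445) (.e (nat_lit 442374) (nat_lit 0) (.e (nat_lit 1846) (nat_lit 124) (.e (nat_lit 557101) (nat_lit 13) (.e (nat_lit 172126) (nat_lit 14) (.e (nat_lit 491540) (nat_lit 3) .nil))))) (.g (nat_lit 0) (.e (nat_lit 332963) (nat_lit 0) .nil) .nil))) 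
(.lf (nat_lit 567169) (.g (nat_lit 1187) (.e (nat_lit 442402) (nat_lit 20) (.e (nat_lit 3271) (nat_lit 199) (.e (nat_lit 548913) (nat_lit 18) (.e (nat_lit 172124) (nat_lit 14) (.e (nat_lit 491540) (nat_lit 3) .nil))))) (.g (nat_lit 0) (.e (nat_lit 335224) (nat_lit 0) .nil) .nil)))))) (.nd (nat_lit 7) (.nd (nat_lit 8) (.nd (nat_lit 9) 
(.lf (nat_lit 566337) (.g (nat_lit 2896) (.e (nat_lit 434272) (nat_lit 38) (.e (nat_lit 655375) (nat_lit 3) (.e (nat_lit 163978) (nat_lit 30) (.e (nat_lit 573482) (nat_lit 13) (.e (nat_lit 65609) (nat_lit 10) .nil))))) (.g (nat_lit 0) (.e (nat_lit 332118) (nat_lit 0) .nil) .nil))) 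
(.lf (nat_lit 566849) (.g (nat_lit 2146) (.e (nat_lit 450304) (nat_lit 0) (.e (nat_lit 1806) (nat_lit 119) (.e (nat_lit 516120) (nat_lit 1) (.e (nat_lit 164329) (nat_lit 230) (.e (nat_lit 163902) (nat_lit 12) .nil))))) (.g (nat_lit 0) (.e (nat_lit 333275) (nat_lit 0) .nil) .nil)))) (.nd (nat_lit 9) 
(.lf (nat_lit 566593) (.g (nat_lit 1590) (.e (nat_lit 442373) (nat_lit 0) (.e (nat_lit 1796) (nat_lit 119) (.e (nat_lit 516119) (nat_lit 1) (.e (nat_lit 164326) (nat_lit 230) (.e (nat_lit 163941) (nat_lit 19) .nil))))) (.g (nat_lit 0) (.e (nat_lit 332891) (nat_lit 0) .nil) .nil))) 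
(.lf (nat_lit 567105) (.g (nat_lit 2496) (.e (nat_lit 450304) (nat_lit 18) (.e (nat_lit 393253) (nat_lit 18) (.e (nat_lit 164327) (nat_lit 230) (.e (nat_lit 163871) (nat_lit 2) (.e (nat_lit 196624) (nat_lit 9) .nil))))) (.g (nat_lit 0) (.e (nat_lit 334868) (nat_lit 0) .nil) .nil))))) (.nd (nat_lit 8) (.nd (nat_lit 9) 
(.lf (nat_lit 566465) (.g (nat_lit 3783) (.e (nat_lit 434289) (nat_lit 43) (.e (nat_lit 696344) (nat_lit 8) (.e (nat_lit 172106) (nat_lit 10) (.e (nat_lit 434209) (nat_lit 18) (.e (nat_lit 6425) (nat_lit 342) (.e (nat_lit 229402) (nat_lit 12) (.e (nat_lit 426285) (nat_lit 10) .nil))))))) (.g (nat_lit 1) (.e (nat_lit 332656) (nat_lit 0) .nil) .nil))) 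
(.lf (nat_lit 566977) (.g (nat_lit 2753) (.e (nat_lit 442390) (nat_lit 11) (.e (nat_lit 336229) (nat_lit 14) (.e (nat_lit 401448) (nat_lit 10) (.e (nat_lit 434289) (nat_lit 43) (.e (nat_lit 696327) (nat_lit 5) (.e (nat_lit 3004) (nat_lit 186) .nil)))))) (.g (nat_lit 1) (.e (nat_lit 334430) (nat_lit 0) .nil) .nil)))) (.nd (nat_lit 9) 
(.lf (nat_lit 566721) (.g (nat_lit 2491) (.e (nat_lit 442374) (nat_lit 0) (.e (nat_lit 2175) (nat_lit 143) (.e (nat_lit 712755) (nat_lit 30) (.e (nat_lit 450593) (nat_lit 16) (.e (nat_lit 655363) (nat_lit 0) (.e (nat_lit 3004) (nat_lit 186) .nil)))))) (.g (nat_lit 1) (.e (nat_lit 333048) (nat_lit 0) .nil) .nil))) 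
(.lf (nat_lit 567233) (.g (nat_lit 2526) (.e (nat_lit 442406) (nat_lit 20) (.e (nat_lit 3238) (nat_lit 197) (.e (nat_lit 532523) (nat_lit 7) (.e (nat_lit 319533) (nat_lit 16) (.e (nat_lit 286725) (nat_lit 0) .nil))))) (.g (nat_lit 0) (.e (nat_lit 335439) (nat_lit 0) .nil) .nil))))))) (.nd (nat_lit 6) (.nd (nat_lit 7) (.nd (nat_lit 8) (.nd (nat_lit 9) 
(.lf (nat_lit 566305) (.g (nat_lit 2026) (.e (nat_lit 434271) (nat_lit 38) (.e (nat_lit 655380) (nat_lit 6) (.e (nat_lit 188439) (nat_lit 20) (.e (nat_lit 3409) (nat_lit 212) (.e (nat_lit 655378) (nat_lit 4) (.e (nat_lit 172107) (nat_lit 10) .nil)))))) (.g (nat_lit 1) (.e (nat_lit 332014) (nat_lit 0) .nil) .nil))) 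
(.lf (nat_lit 566817) (.g (nat_lit 2312) (.e (nat_lit 442379) (nat_lit 0) (.e (nat_lit 1856) (nat_lit 124) (.e (nat_lit 557100) (nat_lit 13) (.e (nat_lit 172113) (nat_lit 10) (.e (nat_lit 434247) (nat_lit 28) (.e (nat_lit 573464) (nat_lit 9) (.e (nat_lit 461) (nat_lit 34) .nil))))))) (.g (nat_lit 1) (.e (nat_lit 333207) (nat_lit 0) .nil) .nil)))) (.nd (nat_lit 9) 
(.lf (nat_lit 566561) (.g (nat_lit 4020) (.e (nat_lit 434295) (nat_lit 49) (.e (nat_lit 745491) (nat_lit 4) (.e (nat_lit 65617) (nat_lit 10) (.e (nat_lit 344133) (nat_lit 26) (.e (nat_lit 557119) (nat_lit 18) (.e (nat_lit 2808) (nat_lit 180) (.e (nat_lit 303140) (nat_lit 10) .nil))))))) (.g (nat_lit 1) (.e (nat_lit 332823) (nat_lit 0) .nil) .nil))) 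
(.lf (nat_lit 567073) (.g (nat_lit 1808) (.e (nat_lit 450304) (nat_lit 16) (.e (nat_lit 376860) (nat_lit 21) (.e (nat_lit 57854) (nat_lit 252) (.e (nat_lit 57389) (nat_lit 5) (.e (nat_lit 122624) (nat_lit 13) .nil))))) (.g (nat_lit 0) (.e (nat_lit 334796) (nat_lit 0) .nil) .nil))))) (.nd (nat_lit 8) (.nd (nat_lit 9) 
(.lf (nat_lit 566433) (.g (nat_lit 1919) (.e (nat_lit 434288) (nat_lit 43) (.e (nat_lit 696344) (nat_lit 8) (.e (nat_lit 172113) (nat_lit 10) (.e (nat_lit 434203) (nat_lit 18) (.e (nat_lit 6418) (nat_lit 341) .nil))))) (.g (nat_lit 0) (.e (nat_lit 332512) (nat_lit 0) .nil) .nil))) 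
(.lf (nat_lit 566945) (.g (nat_lit 1331) (.e (nat_lit 442385) (nat_lit 11) (.e (nat_lit 335986) (nat_lit 1) (.e (nat_lit 57688) (nat_lit 156) (.e (nat_lit 163902) (nat_lit 12) .nil)))) (.g (nat_lit 0) (.e (nat_lit 333828) (nat_lit 0) .nil) .nil)))) (.nd (nat_lit 9) 
(.lf (nat_lit 566689) (.g (nat_lit 2164) (.e (nat_lit 442374) (nat_lit 0) (.e (nat_lit 2059) (nat_lit 142) (.e (nat_lit 704595) (nat_lit 5) (.e (nat_lit 180284) (nat_lit 45) (.e (nat_lit 2788) (nat_lit 179) (.e (nat_lit 302848) (nat_lit 29) .nil)))))) (.g (nat_lit 1) (.e (nat_lit 333006) (nat_lit 0) .nil) .nil))) 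
(.lf (nat_lit 567201) (.g (nat_lit 2937) (.e (nat_lit 442404) (nat_lit 20) (.e (nat_lit 3238) (nat_lit 197) (.e (nat_lit 532523) (nat_lit 7) (.e (nat_lit 319529) (nat_lit 16) (.e (nat_lit 286733) (nat_lit 2) (.e (nat_lit 90134) (nat_lit 9) (.e (nat_lit 3002) (nat_lit 186) .nil))))))) (.g (nat_lit 1) (.e (nat_lit 335378) (nat_lit 0) .nil) .nil)))))) 
(.nd (nat_lit 7) (.nd (nat_lit 8) (.nd (nat_lit 9) 
(.lf (nat_lit 566369) (.g (nat_lit 3382) (.e (nat_lit 434272) (nat_lit 38) (.e (nat_lit 655378) (nat_lit 4) (.e (nat_lit 172126) (nat_lit 14) (.e (nat_lit 491549) (nat_lit 9) (.e (nat_lit 336369) (nat_lit 27) .nil))))) (.g (nat_lit 0) (.e (nat_lit 332327) (nat_lit 0) .nil) .nil))) 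
(.lf (nat_lit 566881) (.g (nat_lit 2464) (.e (nat_lit 450304) (nat_lit 3) (.e (nat_lit 98334) (nat_lit 18) (.e (nat_lit 164330) (nat_lit 230) (.e (nat_lit 163913) (nat_lit 12) (.e (nat_lit 426483) (nat_lit 27) .nil))))) (.g (nat_lit 0) (.e (nat_lit 333329) (nat_lit 0) .nil) .nil)))) (.nd (nat_lit 9) 
(.lf (nat_lit 566625) (.g (nat_lit 2042) (.e (nat_lit 442374) (nat_lit 0) (.e (nat_lit 1800) (nat_lit 119) (.e (nat_lit 516117) (nat_lit 1) (.e (nat_lit 164329) (nat_lit 230) (.e (nat_lit 163942) (nat_lit 19) (.e (nat_lit 491264) (nat_lit 11) .nil)))))) (.g (nat_lit 1) (.e (nat_lit 332930) (nat_lit 0) .nil) .nil))) 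
(.lf (nat_lit 567137) (.g (nat_lit 1328) (.e (nat_lit 442391) (nat_lit 19) (.e (nat_lit 401414) (nat_lit 0) (.e (nat_lit 3459) (nat_lit 216) (.e (nat_lit 688138) (nat_lit 5) (.e (nat_lit 2852) (nat_lit 184) .nil))))) (.g (nat_lit 0) (.e (nat_lit 334917) (nat_lit 0) .nil) .nil))))) (.nd (nat_lit 8) (.nd (nat_lit 9) 
(.lf (nat_lit 566497) (.g (nat_lit 3634) (.e (nat_lit 434289) (nat_lit 43) (.e (nat_lit 696344) (nat_lit 8) (.e (nat_lit 172116) (nat_lit 10) (.e (nat_lit 434289) (nat_lit 43) (.e (nat_lit 696344) (nat_lit 8) (.e (nat_lit 172115) (nat_lit 10) .nil)))))) (.g (nat_lit 1) (.e (nat_lit 332691) (nat_lit 0) .nil) .nil))) 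
(.lf (nat_lit 567009) (.g (nat_lit 1976) (.e (nat_lit 442390) (nat_lit 11) (.e (nat_lit 336232) (nat_lit 14) (.e (nat_lit 401448) (nat_lit 10) (.e (nat_lit 434289) (nat_lit 43) (.e (nat_lit 696329) (nat_lit 5) .nil))))) (.g (nat_lit 0) (.e (nat_lit 334605) (nat_lit 0) .nil) .nil)))) (.nd (nat_lit 9) 
(.lf (nat_lit 566753) (.g (nat_lit 1228) (.e (nat_lit 442377) (nat_lit 0) (.e (nat_lit 2059) (nat_lit 142) (.e (nat_lit 704595) (nat_lit 5) (.e (nat_lit 180283) (nat_lit 45) .nil)))) (.g (nat_lit 0) (.e (nat_lit 333122) (nat_lit 0) .nil) .nil))) 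
(.lf (nat_lit 567265) (.g (nat_lit 1995) (.e (nat_lit 442409) (nat_lit 20) (.e (nat_lit 3390) (nat_lit 210) (.e (nat_lit 639021) (nat_lit 16) (.e (nat_lit 65619) (nat_lit 10) (.e (nat_lit 344160) (nat_lit 37) (.e (nat_lit 647195) (nat_lit 9) (.e (nat_lit 7936) (nat_lit 34) .nil))))))) (.g (nat_lit 1) (.e (nat_lit 335701) (nat_lit 0) .nil) .nil)))))))) 
(.nd (nat_lit 5) (.nd (nat_lit 6) (.nd (nat_lit 7) (.nd (nat_lit 8) (.nd (nat_lit 9) 
(.lf (nat_lit 566289) (.g (nat_lit 2591) (.e (nat_lit 434271) (nat_lit 38) (.e (nat_lit 655378) (nat_lit 4) (.e (nat_lit 172125) (nat_lit 14) (.e (nat_lit 491568) (nat_lit 13) (.e (nat_lit 393282) (nat_lit 24) .nil))))) (.g (nat_lit 0) (.e (nat_lit 331977) (nat_lit 0) .nil) .nil))) 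
(.lf (nat_lit 566801) (.g (nat_lit 1918) (.e (nat_lit 442379) (nat_lit 0) (.e (nat_lit 1798) (nat_lit 119) (.e (nat_lit 516120) (nat_lit 1) (.e (nat_lit 164329) (nat_lit 230) (.e (nat_lit 163941) (nat_lit 19) (.e (nat_lit 491264) (nat_lit 11) .nil)))))) (.g (nat_lit 1) (.e (nat_lit 333186) (nat_lit 0) .nil) .nil)))) (.nd (nat_lit 9) 
(.lf (nat_lit 566545) (.g (nat_lit 1918) (.e (nat_lit 434292) (nat_lit 44) (.e (nat_lit 704737) (nat_lit 11) (.e (nat_lit 16448) (nat_lit 10) (.e (nat_lit 434288) (nat_lit 43) .nil)))) (.g (nat_lit 0) (.e (nat_lit 332797) (nat_lit 0) .nil) .nil))) 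
(.lf (nat_lit 567057) (.g (nat_lit 1323) (.e (nat_lit 450304) (nat_lit 16) (.e (nat_lit 376859) (nat_lit 21) (.e (nat_lit 57846) (nat_lit 252) (.e (nat_lit 57388) (nat_lit 5) (.e (nat_lit 122624) (nat_lit 13) .nil))))) (.g (nat_lit 0) (.e (nat_lit 334773) (nat_lit 0) .nil) .nil))))) (.nd (nat_lit 8) (.nd (nat_lit 9) 
(.lf (nat_lit 566417) (.g (nat_lit 2515) (.e (nat_lit 434287) (nat_lit 43) (.e (nat_lit 696344) (nat_lit 8) (.e (nat_lit 172115) (nat_lit 10) (.e (nat_lit 434289) (nat_lit 43) (.e (nat_lit 696344) (nat_lit 8) (.e (nat_lit 172113) (nat_lit 10) .nil)))))) (.g (nat_lit 1) (.e (nat_lit 332478) (nat_lit 0) .nil) .nil))) 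
(.lf (nat_lit 566929) (.g (nat_lit 900) (.e (nat_lit 450304) (nat_lit 3) (.e (nat_lit 98341) (nat_lit 20) (.e (nat_lit 229120) (nat_lit 12) (.e (nat_lit 344107) (nat_lit 19) (.e (nat_lit 499840) (nat_lit 5) .nil))))) (.g (nat_lit 0) (.e (nat_lit 333394) (nat_lit 0) .nil) .nil)))) (.nd (nat_lit 9) 
(.lf (nat_lit 566673) (.g (nat_lit 1569) (.e (nat_lit 442374) (nat_lit 0) (.e (nat_lit 1856) (nat_lit 124) (.e (nat_lit 557103) (nat_lit 14) (.e (nat_lit 180278) (nat_lit 32) (.e (nat_lit 1235) (nat_lit 91) .nil))))) (.g (nat_lit 0) (.e (nat_lit 332983) (nat_lit 0) .nil) .nil))) 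
(.lf (nat_lit 567185) (.g (nat_lit 2664) (.e (nat_lit 442402) (nat_lit 20) (.e (nat_lit 3406) (nat_lit 212) (.e (nat_lit 655378) (nat_lit 4) (.e (nat_lit 172124) (nat_lit 14) (.e (nat_lit 491550) (nat_lit 9) (.e (nat_lit 336430) (nat_lit 29) .nil)))))) (.g (nat_lit 1) (.e (nat_lit 335277) (nat_lit 0) .nil) .nil)))))) (.nd (nat_lit 7) (.nd (nat_lit 8) (.nd (nat_lit 9) 
(.lf (nat_lit 566353) (.g (nat_lit 4669) (.e (nat_lit 434272) (nat_lit 38) (.e (nat_lit 655375) (nat_lit 3) (.e (nat_lit 163979) (nat_lit 30) (.e (nat_lit 573493) (nat_lit 15) (.e (nat_lit 81956) (nat_lit 23) (.e (nat_lit 98366) (nat_lit 27) .nil)))))) (.g (nat_lit 1) (.e (nat_lit 332194) (nat_lit 0) .nil) .nil))) 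
(.lf (nat_lit 566865) (.g (nat_lit 1685) (.e (nat_lit 450304) (nat_lit 3) (.e (nat_lit 98333) (nat_lit 18) (.e (nat_lit 164325) (nat_lit 230) (.e (nat_lit 163943) (nat_lit 19) (.e (nat_lit 491264) (nat_lit 11) .nil))))) (.g (nat_lit 0) (.e (nat_lit 333306) (nat_lit 0) .nil) .nil)))) (.nd (nat_lit 9) 
(.lf (nat_lit 566609) (.g (nat_lit 3806) (.e (nat_lit 442373) (nat_lit 0) (.e (nat_lit 1853) (nat_lit 124) (.e (nat_lit 557101) (nat_lit 13) (.e (nat_lit 172115) (nat_lit 10) (.e (nat_lit 434244) (nat_lit 28) (.e (nat_lit 573450) (nat_lit 9) (.e (nat_lit 457) (nat_lit 34) .nil))))))) (.g (nat_lit 1) (.e (nat_lit 332909) (nat_lit 0) .nil) .nil))) 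
(.lf (nat_lit 567121) (.g (nat_lit 1342) (.e (nat_lit 450304) (nat_lit 18) (.e (nat_lit 393254) (nat_lit 18) (.e (nat_lit 164324) (nat_lit 230) (.e (nat_lit 163873) (nat_lit 3) (.e (nat_lit 212736) (nat_lit 11) .nil))))) (.g (nat_lit 0) (.e (nat_lit 334893) (nat_lit 0) .nil) .nil))))) (.nd (nat_lit 8) (.nd (nat_lit 9) 
(.lf (nat_lit 566481) (.g (nat_lit 1256) (.e (nat_lit 434289) (nat_lit 43) (.e (nat_lit 696344) (nat_lit 8) (.e (nat_lit 172113) (nat_lit 10) (.e (nat_lit 434288) (nat_lit 43) .nil)))) (.g (nat_lit 0) (.e (nat_lit 332674) (nat_lit 0) .nil) .nil))) 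
(.lf (nat_lit 566993) (.g (nat_lit 2064) (.e (nat_lit 442390) (nat_lit 11) (.e (nat_lit 336231) (nat_lit 14) (.e (nat_lit 401448) (nat_lit 10) (.e (nat_lit 434289) (nat_lit 43) (.e (nat_lit 696329) (nat_lit 5) .nil))))) (.g (nat_lit 0) (.e (nat_lit 334529) (nat_lit 0) .nil) .nil)))) (.nd (nat_lit 9) 
(.lf (nat_lit 566737) (.g (nat_lit 1711) (.e (nat_lit 442377) (nat_lit 0) (.e (nat_lit 1800) (nat_lit 119) (.e (nat_lit 516117) (nat_lit 1) (.e (nat_lit 164332) (nat_lit 230) (.e (nat_lit 163942) (nat_lit 19) .nil))))) (.g (nat_lit 0) (.e (nat_lit 333098) (nat_lit 0) .nil) .nil))) 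
(.lf (nat_lit 567249) (.g (nat_lit 1536) (.e (nat_lit 442407) (nat_lit 20) (.e (nat_lit 3238) (nat_lit 197) (.e (nat_lit 532523) (nat_lit 7) (.e (nat_lit 327424) (nat_lit 16) .nil)))) (.g (nat_lit 0) (.e (nat_lit 335470) (nat_lit 0) .nil) .nil))))))) (.nd (nat_lit 6) (.nd (nat_lit 7) (.nd (nat_lit 8) (.nd (nat_lit 9) 
(.lf (nat_lit 566321) (.g (nat_lit 339) (.e (nat_lit 434272) (nat_lit 38) (.e (nat_lit 655367) (nat_lit 0) (.e (nat_lit 2946) (nat_lit 184) .nil))) (.g (nat_lit 0) (.e (nat_lit 332098) (nat_lit 0) .nil) .nil))) 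
(.lf (nat_lit 566833) (.g (nat_lit 528) (.e (nat_lit 442379) (nat_lit 0) (.e (nat_lit 2058) (nat_lit 142) (.e (nat_lit 704596) (nat_lit 5) .nil))) (.g (nat_lit 0) (.e (nat_lit 333245) (nat_lit 0) .nil) .nil)))) (.nd (nat_lit 9) 
(.lf (nat_lit 566577) (.g (nat_lit 1326) (.e (nat_lit 442372) (nat_lit 0) (.e (nat_lit 1800) (nat_lit 119) (.e (nat_lit 516120) (nat_lit 1) (.e (nat_lit 164332) (nat_lit 230) .nil)))) (.g (nat_lit 0) (.e (nat_lit 332872) (nat_lit 0) .nil) .nil))) 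
(.lf (nat_lit 567089) (.g (nat_lit 3176) (.e (nat_lit 450304) (nat_lit 18) (.e (nat_lit 393251) (nat_lit 18) (.e (nat_lit 164403) (nat_lit 256) (.e (nat_lit 57378) (nat_lit 3) (.e (nat_lit 98371) (nat_lit 28) .nil))))) (.g (nat_lit 0) (.e (nat_lit 334841) (nat_lit 0) .nil) .nil))))) (.nd (nat_lit 8) (.nd (nat_lit 9) 
(.lf (nat_lit 566449) (.g (nat_lit 3410) (.e (nat_lit 434289) (nat_lit 43) (.e (nat_lit 696343) (nat_lit 8) (.e (nat_lit 172113) (nat_lit 10) (.e (nat_lit 434289) (nat_lit 43) (.e (nat_lit 696344) (nat_lit 8) (.e (nat_lit 172116) (nat_lit 10) .nil)))))) (.g (nat_lit 1) (.e (nat_lit 332627) (nat_lit 0) .nil) .nil))) 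
(.lf (nat_lit 566961) (.g (nat_lit 1617) (.e (nat_lit 442389) (nat_lit 11) (.e (nat_lit 336390) (nat_lit 27) (.e (nat_lit 426098) (nat_lit 1) (.e (nat_lit 164399) (nat_lit 256) (.e (nat_lit 57379) (nat_lit 3) .nil))))) (.g (nat_lit 0) (.e (nat_lit 334230) (nat_lit 0) .nil) .nil)))) (.nd (nat_lit 9) 
(.lf (nat_lit 566705) (.g (nat_lit 501) (.e (nat_lit 442374) (nat_lit 0) (.e (nat_lit 2174) (nat_lit 143) (.e (nat_lit 712745) (nat_lit 27) .nil))) (.g (nat_lit 0) (.e (nat_lit 333026) (nat_lit 0) .nil) .nil))) 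
(.lf (nat_lit 567217) (.g (nat_lit 1628) (.e (nat_lit 442406) (nat_lit 20) (.e (nat_lit 3238) (nat_lit 197) (.e (nat_lit 532502) (nat_lit 1) (.e (nat_lit 57688) (nat_lit 156) (.e (nat_lit 163903) (nat_lit 12) .nil))))) (.g (nat_lit 0) (.e (nat_lit 335418) (nat_lit 0) .nil) .nil)))))) (.nd (nat_lit 7) (.nd (nat_lit 8) (.nd (nat_lit 9) 
(.lf (nat_lit 566385) (.g (nat_lit 1931) (.e (nat_lit 434272) (nat_lit 38) (.e (nat_lit 655380) (nat_lit 6) (.e (nat_lit 188438) (nat_lit 20) (.e (nat_lit 3409) (nat_lit 212) (.e (nat_lit 655378) (nat_lit 4) (.e (nat_lit 172107) (nat_lit 10) .nil)))))) (.g (nat_lit 1) (.e (nat_lit 332359) (nat_lit 0) .nil) .nil))) 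
(.lf (nat_lit 566897) (.g (nat_lit 1146) (.e (nat_lit 450304) (nat_lit 3) (.e (nat_lit 98335) (nat_lit 18) (.e (nat_lit 164326) (nat_lit 230) (.e (nat_lit 163941) (nat_lit 19) (.e (nat_lit 491264) (nat_lit 11) .nil))))) (.g (nat_lit 0) (.e (nat_lit 333351) (nat_lit 0) .nil) .nil)))) (.nd (nat_lit 9) 
(.lf (nat_lit 566641) (.g (nat_lit 2488) (.e (nat_lit 442374) (nat_lit 0) (.e (nat_lit 1800) (nat_lit 119) (.e (nat_lit 516120) (nat_lit 1) (.e (nat_lit 164330) (nat_lit 230) (.e (nat_lit 163942) (nat_lit 19) (.e (nat_lit 491264) (nat_lit 11) .nil)))))) (.g (nat_lit 1) (.e (nat_lit 332946) (nat_lit 0) .nil) .nil))) 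
(.lf (nat_lit 567153) (.g (nat_lit 819) (.e (nat_lit 442399) (nat_lit 20) (.e (nat_lit 3397) (nat_lit 211) (.e (nat_lit 647183) (nat_lit 4) (.e (nat_lit 172038) (nat_lit 0) .nil)))) (.g (nat_lit 0) (.e (nat_lit 335101) (nat_lit 0) .nil) .nil))))) (.nd (nat_lit 8) (.nd (nat_lit 9) 
(.lf (nat_lit 566513) (.g (nat_lit 2916) (.e (nat_lit 434289) (nat_lit 43) (.e (nat_lit 696346) (nat_lit 10) (.e (nat_lit 188435) (nat_lit 20) (.e (nat_lit 3469) (nat_lit 217) (.e (nat_lit 696344) (nat_lit 8) (.e (nat_lit 172112) (nat_lit 10) .nil)))))) (.g (nat_lit 1) (.e (nat_lit 332731) (nat_lit 0) .nil) .nil))) 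
(.lf (nat_lit 567025) (.g (nat_lit 1327) (.e (nat_lit 450304) (nat_lit 13) (.e (nat_lit 352307) (nat_lit 21) (.e (nat_lit 57849) (nat_lit 252) (.e (nat_lit 57390) (nat_lit 5) (.e (nat_lit 122624) (nat_lit 13) .nil))))) (.g (nat_lit 0) (.e (nat_lit 334723) (nat_lit 0) .nil) .nil)))) (.nd (nat_lit 9) 
(.lf (nat_lit 566769) (.g (nat_lit 2587) (.e (nat_lit 442378) (nat_lit 0) (.e (nat_lit 1800) (nat_lit 119) (.e (nat_lit 516117) (nat_lit 1) (.e (nat_lit 164329) (nat_lit 230) (.e (nat_lit 163941) (nat_lit 19) (.e (nat_lit 491264) (nat_lit 11) .nil)))))) (.g (nat_lit 1) (.e (nat_lit 333143) (nat_lit 0) .nil) .nil))) 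
(.lf (nat_lit 567281) (.g (nat_lit 1193) (.e (nat_lit 442409) (nat_lit 20) (.e (nat_lit 3409) (nat_lit 212) (.e (nat_lit 655378) (nat_lit 4) (.e (nat_lit 172079) (nat_lit 7) (.e (nat_lit 417536) (nat_lit 16) .nil))))) (.g (nat_lit 0) (.e (nat_lit 335768) (nat_lit 0) .nil) .nil))))))))) (.nd (nat_lit 4) (.nd (nat_lit 5) (.nd (nat_lit 6) (.nd (nat_lit 7) (.nd (nat_lit 8) (.nd (nat_lit 9) 
(.lf (nat_lit 566281) (.g (nat_lit 2524) (.e (nat_lit 434271) (nat_lit 38) (.e (nat_lit 655375) (nat_lit 3) (.e (nat_lit 163979) (nat_lit 30) (.e (nat_lit 573491) (nat_lit 15) (.e (nat_lit 81956) (nat_lit 23) .nil))))) (.g (nat_lit 0) (.e (nat_lit 331899) (nat_lit 0) .nil) .nil))) 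
(.lf (nat_lit 566793) (.g (nat_lit 2006) (.e (nat_lit 442379) (nat_lit 0) (.e (nat_lit 1781) (nat_lit 119) (.e (nat_lit 516117) (nat_lit 1) (.e (nat_lit 164329) (nat_lit 230) (.e (nat_lit 163941) (nat_lit 19) .nil))))) (.g (nat_lit 0) (.e (nat_lit 333171) (nat_lit 0) .nil) .nil)))) (.nd (nat_lit 9) 
(.lf (nat_lit 566537) (.g (nat_lit 2748) (.e (nat_lit 434291) (nat_lit 44) (.e (nat_lit 704738) (nat_lit 11) (.e (nat_lit 16425) (nat_lit 7) (.e (nat_lit 409617) (nat_lit 10) (.e (nat_lit 848) (nat_lit 73) (.e (nat_lit 761902) (nat_lit 16) (.e (nat_lit 172111) (nat_lit 10) .nil))))))) (.g (nat_lit 1) (.e (nat_lit 332776) (nat_lit 0) .nil) .nil))) 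
(.lf (nat_lit 567049) (.g (nat_lit 1428) (.e (nat_lit 450304) (nat_lit 16) (.e (nat_lit 376857) (nat_lit 21) (.e (nat_lit 57853) (nat_lit 252) (.e (nat_lit 57388) (nat_lit 5) (.e (nat_lit 122624) (nat_lit 13) .nil))))) (.g (nat_lit 0) (.e (nat_lit 334762) (nat_lit 0) .nil) .nil))))) (.nd (nat_lit 8) (.nd (nat_lit 9) 
(.lf (nat_lit 566409) (.g (nat_lit 1547) (.e (nat_lit 434287) (nat_lit 43) (.e (nat_lit 696344) (nat_lit 8) (.e (nat_lit 172106) (nat_lit 10) (.e (nat_lit 434202) (nat_lit 18) (.e (nat_lit 6420) (nat_lit 341) .nil))))) (.g (nat_lit 0) (.e (nat_lit 332469) (nat_lit 0) .nil) .nil))) 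
(.lf (nat_lit 566921) (.g (nat_lit 1229) (.e (nat_lit 450304) (nat_lit 3) (.e (nat_lit 98335) (nat_lit 18) (.e (nat_lit 164403) (nat_lit 256) (.e (nat_lit 57388) (nat_lit 5) .nil)))) (.g (nat_lit 0) (.e (nat_lit 333383) (nat_lit 0) .nil) .nil)))) (.nd (nat_lit 9) 
(.lf (nat_lit 566665) (.g (nat_lit 2364) (.e (nat_lit 442374) (nat_lit 0) (.e (nat_lit 1856) (nat_lit 124) (.e (nat_lit 557100) (nat_lit 13) (.e (nat_lit 172106) (nat_lit 10) (.e (nat_lit 434244) (nat_lit 28) (.e (nat_lit 573450) (nat_lit 9) (.e (nat_lit 455) (nat_lit 34) .nil))))))) (.g (nat_lit 1) (.e (nat_lit 332975) (nat_lit 0) .nil) .nil))) 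
(.lf (nat_lit 567177) (.g (nat_lit 2098) (.e (nat_lit 442402) (nat_lit 20) (.e (nat_lit 3390) (nat_lit 210) (.e (nat_lit 639021) (nat_lit 16) (.e (nat_lit 65619) (nat_lit 10) (.e (nat_lit 344160) (nat_lit 37) (.e (nat_lit 647190) (nat_lit 9) (.e (nat_lit 7936) (nat_lit 34) .nil))))))) (.g (nat_lit 1) (.e (nat_lit 335268) (nat_lit 0) .nil) .nil)))))) 
(.nd (nat_lit 7) (.nd (nat_lit 8) (.nd (nat_lit 9) 
(.lf (nat_lit 566345) (.g (nat_lit 1980) (.e (nat_lit 434272) (nat_lit 38) (.e (nat_lit 655375) (nat_lit 3) (.e (nat_lit 163979) (nat_lit 30) (.e (nat_lit 573480) (nat_lit 13) .nil)))) (.g (nat_lit 0) (.e (nat_lit 332185) (nat_lit 0) .nil) .nil))) 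
(.lf (nat_lit 566857) (.g (nat_lit 1235) (.e (nat_lit 450304) (nat_lit 0) (.e (nat_lit 2163) (nat_lit 143) (.e (nat_lit 712752) (nat_lit 29) (.e (nat_lit 442382) (nat_lit 8) (.e (nat_lit 155652) (nat_lit 0) .nil))))) (.g (nat_lit 0) (.e (nat_lit 333284) (nat_lit 0) .nil) .nil)))) (.nd (nat_lit 9) 
(.lf (nat_lit 566601) (.g (nat_lit 2560) (.e (nat_lit 442373) (nat_lit 0) (.e (nat_lit 1853) (nat_lit 124) (.e (nat_lit 557097) (nat_lit 13) (.e (nat_lit 172115) (nat_lit 10) (.e (nat_lit 434238) (nat_lit 25) (.e (nat_lit 548897) (nat_lit 14) (.e (nat_lit 3004) (nat_lit 186) .nil))))))) (.g (nat_lit 1) (.e (nat_lit 332901) (nat_lit 0) .nil) .nil))) 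
(.lf (nat_lit 567113) (.g (nat_lit 1489) (.e (nat_lit 450304) (nat_lit 18) (.e (nat_lit 393253) (nat_lit 18) (.e (nat_lit 164332) (nat_lit 230) (.e (nat_lit 163873) (nat_lit 3) (.e (nat_lit 212736) (nat_lit 11) .nil))))) (.g (nat_lit 0) (.e (nat_lit 334876) (nat_lit 0) .nil) .nil))))) (.nd (nat_lit 8) (.nd (nat_lit 9) 
(.lf (nat_lit 566473) (.g (nat_lit 4074) (.e (nat_lit 434289) (nat_lit 43) (.e (nat_lit 696344) (nat_lit 8) (.e (nat_lit 172106) (nat_lit 10) (.e (nat_lit 434289) (nat_lit 43) (.e (nat_lit 696344) (nat_lit 8) (.e (nat_lit 172115) (nat_lit 10) .nil)))))) (.g (nat_lit 1) (.e (nat_lit 332665) (nat_lit 0) .nil) .nil))) 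
(.lf (nat_lit 566985) (.g (nat_lit 4206) (.e (nat_lit 442390) (nat_lit 11) (.e (nat_lit 336231) (nat_lit 14) (.e (nat_lit 401446) (nat_lit 10) (.e (nat_lit 434209) (nat_lit 18) (.e (nat_lit 6425) (nat_lit 342) (.e (nat_lit 229412) (nat_lit 14) .nil)))))) (.g (nat_lit 1) (.e (nat_lit 334483) (nat_lit 0) .nil) .nil)))) (.nd (nat_lit 9) 
(.lf (nat_lit 566729) (.g (nat_lit 1354) (.e (nat_lit 442377) (nat_lit 0) (.e (nat_lit 1781) (nat_lit 119) (.e (nat_lit 516120) (nat_lit 1) (.e (nat_lit 164329) (nat_lit 230) (.e (nat_lit 163942) (nat_lit 19) .nil))))) (.g (nat_lit 0) (.e (nat_lit 333087) (nat_lit 0) .nil) .nil))) 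
(.lf (nat_lit 567241) (.g (nat_lit 5032) (.e (nat_lit 442406) (nat_lit 20) (.e (nat_lit 3238) (nat_lit 197) (.e (nat_lit 532523) (nat_lit 7) (.e (nat_lit 319534) (nat_lit 16) (.e (nat_lit 286733) (nat_lit 2) (.e (nat_lit 90134) (nat_lit 9) (.e (nat_lit 3002) (nat_lit 186) .nil))))))) (.g (nat_lit 1) (.e (nat_lit 335447) (nat_lit 0) .nil) .nil))))))) 
(.nd (nat_lit 6) (.nd (nat_lit 7) (.nd (nat_lit 8) (.nd (nat_lit 9) 
(.lf (nat_lit 566313) (.g (nat_lit 4264) (.e (nat_lit 434271) (nat_lit 38) (.e (nat_lit 655380) (nat_lit 6) (.e (nat_lit 188455) (nat_lit 24) (.e (nat_lit 229663) (nat_lit 240) (.e (nat_lit 2630) (nat_lit 164) (.e (nat_lit 172106) (nat_lit 10) .nil)))))) (.g (nat_lit 1) (.e (nat_lit 332039) (nat_lit 0) .nil) .nil))) 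
(.lf (nat_lit 566825) (.g (nat_lit 3855) (.e (nat_lit 442379) (nat_lit 0) (.e (nat_lit 1856) (nat_lit 124) (.e (nat_lit 557101) (nat_lit 13) (.e (nat_lit 172115) (nat_lit 10) (.e (nat_lit 434244) (nat_lit 28) (.e (nat_lit 573449) (nat_lit 9) (.e (nat_lit 460) (nat_lit 34) .nil))))))) (.g (nat_lit 1) (.e (nat_lit 333215) (nat_lit 0) .nil) .nil)))) (.nd (nat_lit 9) 
(.lf (nat_lit 566569) (.g (nat_lit 1169) (.e (nat_lit 442368) (nat_lit 0) (.e (nat_lit 1863) (nat_lit 124) (.e (nat_lit 557097) (nat_lit 13) (.e (nat_lit 172124) (nat_lit 14) .nil)))) (.g (nat_lit 0) (.e (nat_lit 332836) (nat_lit 0) .nil) .nil))) 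
(.lf (nat_lit 567081) (.g (nat_lit 1685) (.e (nat_lit 450304) (nat_lit 18) (.e (nat_lit 393251) (nat_lit 18) (.e (nat_lit 164332) (nat_lit 230) (.e (nat_lit 163874) (nat_lit 3) (.e (nat_lit 212736) (nat_lit 11) .nil))))) (.g (nat_lit 0) (.e (nat_lit 334818) (nat_lit 0) .nil) .nil))))) (.nd (nat_lit 8) (.nd (nat_lit 9) 
(.lf (nat_lit 566441) (.g (nat_lit 3325) (.e (nat_lit 434289) (nat_lit 43) (.e (nat_lit 696330) (nat_lit 5) (.e (nat_lit 3004) (nat_lit 186) (.e (nat_lit 442390) (nat_lit 11) (.e (nat_lit 336231) (nat_lit 14) (.e (nat_lit 401448) (nat_lit 10) .nil)))))) (.g (nat_lit 1) (.e (nat_lit 332561) (nat_lit 0) .nil) .nil))) 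
(.lf (nat_lit 566953) (.g (nat_lit 3841) (.e (nat_lit 442385) (nat_lit 11) (.e (nat_lit 336231) (nat_lit 14) (.e (nat_lit 401446) (nat_lit 10) (.e (nat_lit 434212) (nat_lit 18) (.e (nat_lit 6425) (nat_lit 342) (.e (nat_lit 229412) (nat_lit 14) .nil)))))) (.g (nat_lit 1) (.e (nat_lit 333880) (nat_lit 0) .nil) .nil)))) (.nd (nat_lit 9) 
(.lf (nat_lit 566697) (.g (nat_lit 2468) (.e (nat_lit 442374) (nat_lit 0) (.e (nat_lit 2059) (nat_lit 142) (.e (nat_lit 704598) (nat_lit 6) (.e (nat_lit 188439) (nat_lit 20) (.e (nat_lit 3407) (nat_lit 212) (.e (nat_lit 655364) (nat_lit 0) (.e (nat_lit 3004) (nat_lit 186) .nil))))))) (.g (nat_lit 1) (.e (nat_lit 333018) (nat_lit 0) .nil) .nil))) 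
(.lf (nat_lit 567209) (.g (nat_lit 2468) (.e (nat_lit 442404) (nat_lit 20) (.e (nat_lit 3297) (nat_lit 202) (.e (nat_lit 573450) (nat_lit 9) (.e (nat_lit 375) (nat_lit 32) (.e (nat_lit 426173) (nat_lit 7) .nil))))) (.g (nat_lit 0) (.e (nat_lit 335387) (nat_lit 0) .nil) .nil)))))) (.nd (nat_lit 7) (.nd (nat_lit 8) (.nd (nat_lit 9) 
(.lf (nat_lit 566377) (.g (nat_lit 3391) (.e (nat_lit 434272) (nat_lit 38) (.e (nat_lit 655378) (nat_lit 4) (.e (nat_lit 172126) (nat_lit 14) (.e (nat_lit 491570) (nat_lit 13) (.e (nat_lit 393282) (nat_lit 24) .nil))))) (.g (nat_lit 1) (.e (nat_lit 332351) (nat_lit 0) .nil) .nil))) 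
(.lf (nat_lit 566889) (.g (nat_lit 1178) (.e (nat_lit 450304) (nat_lit 3) (.e (nat_lit 98335) (nat_lit 18) (.e (nat_lit 164305) (nat_lit 226) (.e (nat_lit 2641) (nat_lit 165) .nil)))) (.g (nat_lit 0) (.e (nat_lit 333340) (nat_lit 0) .nil) .nil)))) (.nd (nat_lit 9) 
(.lf (nat_lit 566633) (.g (nat_lit 2085) (.e (nat_lit 442374) (nat_lit 0) (.e (nat_lit 1800) (nat_lit 119) (.e (nat_lit 516119) (nat_lit 1) (.e (nat_lit 164325) (nat_lit 230) (.e (nat_lit 163943) (nat_lit 19) (.e (nat_lit 491264) (nat_lit 11) .nil)))))) (.g (nat_lit 1) (.e (nat_lit 332938) (nat_lit 0) .nil) .nil))) 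
(.lf (nat_lit 567145) (.g (nat_lit 2484) (.e (nat_lit 442392) (nat_lit 20) (.e (nat_lit 3298) (nat_lit 202) (.e (nat_lit 573471) (nat_lit 11) (.e (nat_lit 16425) (nat_lit 7) (.e (nat_lit 409617) (nat_lit 10) .nil))))) (.g (nat_lit 0) (.e (nat_lit 334968) (nat_lit 0) .nil) .nil))))) (.nd (nat_lit 8) (.nd (nat_lit 9) 
(.lf (nat_lit 566505) (.g (nat_lit 1681) (.e (nat_lit 434289) (nat_lit 43) (.e (nat_lit 696346) (nat_lit 10) (.e (nat_lit 188434) (nat_lit 20) (.e (nat_lit 3459) (nat_lit 216) (.e (nat_lit 688139) (nat_lit 5) .nil))))) (.g (nat_lit 0) (.e (nat_lit 332722) (nat_lit 0) .nil) .nil))) 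
(.lf (nat_lit 567017) (.g (nat_lit 1167) (.e (nat_lit 450304) (nat_lit 11) (.e (nat_lit 336459) (nat_lit 35) (.e (nat_lit 491564) (nat_lit 12) (.e (nat_lit 385063) (nat_lit 25) .nil)))) (.g (nat_lit 0) (.e (nat_lit 334711) (nat_lit 0) .nil) .nil)))) (.nd (nat_lit 9) 
(.lf (nat_lit 566761) (.g (nat_lit 1627) (.e (nat_lit 442377) (nat_lit 0) (.e (nat_lit 2174) (nat_lit 143) (.e (nat_lit 712745) (nat_lit 27) (.e (nat_lit 425984) (nat_lit 0) (.e (nat_lit 7588) (nat_lit 406) (.e (nat_lit 73472) (nat_lit 29) .nil)))))) (.g (nat_lit 1) (.e (nat_lit 333132) (nat_lit 0) .nil) .nil))) 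
(.lf (nat_lit 567273) (.g (nat_lit 201) (.e (nat_lit 442409) (nat_lit 20) (.e (nat_lit 3407) (nat_lit 212) (.e (nat_lit 655379) (nat_lit 5) (.e (nat_lit 188160) (nat_lit 32) .nil)))) (.g (nat_lit 0) (.e (nat_lit 335733) (nat_lit 0) .nil) .nil)))))))) (.nd (nat_lit 5) (.nd (nat_lit 6) (.nd (nat_lit 7) (.nd (nat_lit 8) (.nd (nat_lit 9) 
(.lf (nat_lit 566297) (.g (nat_lit 3569) (.e (nat_lit 434271) (nat_lit 38) (.e (nat_lit 655378) (nat_lit 4) (.e (nat_lit 172126) (nat_lit 14) (.e (nat_lit 491570) (nat_lit 13) (.e (nat_lit 393283) (nat_lit 24) .nil))))) (.g (nat_lit 1) (.e (nat_lit 332003) (nat_lit 0) .nil) .nil))) 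
(.lf (nat_lit 566809) (.g (nat_lit 1952) (.e (nat_lit 442379) (nat_lit 0) (.e (nat_lit 1855) (nat_lit 124) (.e (nat_lit 557098) (nat_lit 13) (.e (nat_lit 172115) (nat_lit 10) (.e (nat_lit 434244) (nat_lit 28) (.e (nat_lit 573458) (nat_lit 9) (.e (nat_lit 7936) (nat_lit 34) .nil))))))) (.g (nat_lit 1) (.e (nat_lit 333199) (nat_lit 0) .nil) .nil)))) (.nd (nat_lit 9) 
(.lf (nat_lit 566553) (.g (nat_lit 1547) (.e (nat_lit 434295) (nat_lit 49) (.e (nat_lit 745490) (nat_lit 4) (.e (nat_lit 65617) (nat_lit 10) (.e (nat_lit 344130) (nat_lit 26) (.e (nat_lit 557119) (nat_lit 18) .nil))))) (.g (nat_lit 0) (.e (nat_lit 332815) (nat_lit 0) .nil) .nil))) 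
(.lf (nat_lit 567065) (.g (nat_lit 1249) (.e (nat_lit 450304) (nat_lit 16) (.e (nat_lit 376860) (nat_lit 21) (.e (nat_lit 57851) (nat_lit 252) (.e (nat_lit 57388) (nat_lit 5) (.e (nat_lit 122624) (nat_lit 13) .nil))))) (.g (nat_lit 0) (.e (nat_lit 334782) (nat_lit 0) .nil) .nil))))) (.nd (nat_lit 8) (.nd (nat_lit 9) 
(.lf (nat_lit 566425) (.g (nat_lit 1526) (.e (nat_lit 434288) (nat_lit 43) (.e (nat_lit 696344) (nat_lit 8) (.e (nat_lit 172106) (nat_lit 10) (.e (nat_lit 434202) (nat_lit 18) (.e (nat_lit 6418) (nat_lit 341) .nil))))) (.g (nat_lit 0) (.e (nat_lit 332504) (nat_lit 0) .nil) .nil))) 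
(.lf (nat_lit 566937) (.g (nat_lit 410) (.e (nat_lit 450304) (nat_lit 3) (.e (nat_lit 98342) (nat_lit 20) (.e (nat_lit 229120) (nat_lit 15) .nil))) (.g (nat_lit 0) (.e (nat_lit 333404) (nat_lit 0) .nil) .nil)))) (.nd (nat_lit 9) 
(.lf (nat_lit 566681) (.g (nat_lit 1523) (.e (nat_lit 442374) (nat_lit 0) (.e (nat_lit 2057) (nat_lit 142) (.e (nat_lit 704592) (nat_lit 4) (.e (nat_lit 172126) (nat_lit 14) (.e (nat_lit 491547) (nat_lit 9) .nil))))) (.g (nat_lit 0) (.e (nat_lit 332991) (nat_lit 0) .nil) .nil))) 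
(.lf (nat_lit 567193) (.g (nat_lit 2245) (.e (nat_lit 442403) (nat_lit 20) (.e (nat_lit 3391) (nat_lit 210) (.e (nat_lit 639021) (nat_lit 16) (.e (nat_lit 65617) (nat_lit 10) (.e (nat_lit 344161) (nat_lit 37) (.e (nat_lit 647190) (nat_lit 9) (.e (nat_lit 7936) (nat_lit 34) .nil))))))) (.g (nat_lit 1) (.e (nat_lit 335352) (nat_lit 0) .nil) .nil)))))) 
(.nd (nat_lit 7) (.nd (nat_lit 8) (.nd (nat_lit 9) 
(.lf (nat_lit 566361) (.g (nat_lit 2256) (.e (nat_lit 434272) (nat_lit 38) (.e (nat_lit 655378) (nat_lit 4) (.e (nat_lit 172097) (nat_lit 9) (.e (nat_lit 426025) (nat_lit 0) (.e (nat_lit 3397) (nat_lit 211) (.e (nat_lit 647183) (nat_lit 4) (.e (nat_lit 172116) (nat_lit 10) .nil))))))) (.g (nat_lit 1) (.e (nat_lit 332237) (nat_lit 0) .nil) .nil))) 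
(.lf (nat_lit 566873) (.g (nat_lit 1684) (.e (nat_lit 450304) (nat_lit 3) (.e (nat_lit 98333) (nat_lit 18) (.e (nat_lit 164332) (nat_lit 230) (.e (nat_lit 163943) (nat_lit 19) (.e (nat_lit 491264) (nat_lit 11) .nil))))) (.g (nat_lit 0) (.e (nat_lit 333317) (nat_lit 0) .nil) .nil)))) (.nd (nat_lit 9) 
(.lf (nat_lit 566617) (.g (nat_lit 2751) (.e (nat_lit 442373) (nat_lit 0) (.e (nat_lit 1853) (nat_lit 124) (.e (nat_lit 557107) (nat_lit 15) (.e (nat_lit 188439) (nat_lit 20) (.e (nat_lit 3272) (nat_lit 199) (.e (nat_lit 548898) (nat_lit 14) (.e (nat_lit 3004) (nat_lit 186) .nil))))))) (.g (nat_lit 1) (.e (nat_lit 332917) (nat_lit 0) .nil) .nil))) 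
(.lf (nat_lit 567129) (.g (nat_lit 1463) (.e (nat_lit 450304) (nat_lit 18) (.e (nat_lit 393254) (nat_lit 18) (.e (nat_lit 164327) (nat_lit 230) (.e (nat_lit 163873) (nat_lit 3) (.e (nat_lit 212736) (nat_lit 11) .nil))))) (.g (nat_lit 0) (.e (nat_lit 334904) (nat_lit 0) .nil) .nil))))) (.nd (nat_lit 8) (.nd (nat_lit 9) 
(.lf (nat_lit 566489) (.g (nat_lit 804) (.e (nat_lit 434289) (nat_lit 43) (.e (nat_lit 696344) (nat_lit 8) (.e (nat_lit 172115) (nat_lit 10) (.e (nat_lit 434209) (nat_lit 18) .nil)))) (.g (nat_lit 0) (.e (nat_lit 332682) (nat_lit 0) .nil) .nil))) 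
(.lf (nat_lit 567001) (.g (nat_lit 4382) (.e (nat_lit 442390) (nat_lit 11) (.e (nat_lit 336232) (nat_lit 14) (.e (nat_lit 401448) (nat_lit 10) (.e (nat_lit 434209) (nat_lit 18) (.e (nat_lit 6425) (nat_lit 342) (.e (nat_lit 229412) (nat_lit 14) .nil)))))) (.g (nat_lit 1) (.e (nat_lit 334586) (nat_lit 0) .nil) .nil)))) (.nd (nat_lit 9) 
(.lf (nat_lit 566745) (.g (nat_lit 2827) (.e (nat_lit 442377) (nat_lit 0) (.e (nat_lit 1855) (nat_lit 124) (.e (nat_lit 557098) (nat_lit 13) (.e (nat_lit 172115) (nat_lit 10) (.e (nat_lit 434244) (nat_lit 28) (.e (nat_lit 573458) (nat_lit 9) (.e (nat_lit 7936) (nat_lit 34) .nil))))))) (.g (nat_lit 1) (.e (nat_lit 333106) (nat_lit 0) .nil) .nil))) 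
(.lf (nat_lit 567257) (.g (nat_lit 1727) (.e (nat_lit 442408) (nat_lit 20) (.e (nat_lit 3391) (nat_lit 210) (.e (nat_lit 639021) (nat_lit 16) (.e (nat_lit 65617) (nat_lit 10) (.e (nat_lit 344164) (nat_lit 37) (.e (nat_lit 647190) (nat_lit 9) (.e (nat_lit 7936) (nat_lit 34) .nil))))))) (.g (nat_lit 1) (.e (nat_lit 335547) (nat_lit 0) .nil) .nil))))))) 
(.nd (nat_lit 6) (.nd (nat_lit 7) (.nd (nat_lit 8) (.nd (nat_lit 9) 
(.lf (nat_lit 566329) (.g (nat_lit 4443) (.e (nat_lit 434272) (nat_lit 38) (.e (nat_lit 655375) (nat_lit 3) (.e (nat_lit 163977) (nat_lit 30) (.e (nat_lit 573493) (nat_lit 15) (.e (nat_lit 81956) (nat_lit 23) (.e (nat_lit 98366) (nat_lit 27) .nil)))))) (.g (nat_lit 1) (.e (nat_lit 332110) (nat_lit 0) .nil) .nil))) 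
(.lf (nat_lit 566841) (.g (nat_lit 971) (.e (nat_lit 442379) (nat_lit 0) (.e (nat_lit 2059) (nat_lit 142) (.e (nat_lit 704595) (nat_lit 5) (.e (nat_lit 188160) (nat_lit 49) .nil)))) (.g (nat_lit 0) (.e (nat_lit 333254) (nat_lit 0) .nil) .nil)))) (.nd (nat_lit 9) 
(.lf (nat_lit 566585) (.g (nat_lit 2384) (.e (nat_lit 442372) (nat_lit 0) (.e (nat_lit 1856) (nat_lit 124) (.e (nat_lit 557100) (nat_lit 13) (.e (nat_lit 172106) (nat_lit 10) (.e (nat_lit 434244) (nat_lit 28) .nil))))) (.g (nat_lit 0) (.e (nat_lit 332880) (nat_lit 0) .nil) .nil))) 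
(.lf (nat_lit 567097) (.g (nat_lit 2007) (.e (nat_lit 450304) (nat_lit 18) (.e (nat_lit 393253) (nat_lit 18) (.e (nat_lit 164324) (nat_lit 230) (.e (nat_lit 163874) (nat_lit 3) (.e (nat_lit 212736) (nat_lit 11) .nil))))) (.g (nat_lit 0) (.e (nat_lit 334856) (nat_lit 0) .nil) .nil))))) (.nd (nat_lit 8) (.nd (nat_lit 9) 
(.lf (nat_lit 566457) (.g (nat_lit 1162) (.e (nat_lit 434289) (nat_lit 43) (.e (nat_lit 696344) (nat_lit 8) (.e (nat_lit 172094) (nat_lit 9) (.e (nat_lit 433920) (nat_lit 26) .nil)))) (.g (nat_lit 0) (.e (nat_lit 332647) (nat_lit 0) .nil) .nil))) 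
(.lf (nat_lit 566969) (.g (nat_lit 3701) (.e (nat_lit 442390) (nat_lit 11) (.e (nat_lit 335986) (nat_lit 1) (.e (nat_lit 57688) (nat_lit 156) (.e (nat_lit 163907) (nat_lit 12) (.e (nat_lit 426436) (nat_lit 18) (.e (nat_lit 98370) (nat_lit 28) .nil)))))) (.g (nat_lit 1) (.e (nat_lit 334381) (nat_lit 0) .nil) .nil)))) (.nd (nat_lit 9) 
(.lf (nat_lit 566713) (.g (nat_lit 1267) (.e (nat_lit 442374) (nat_lit 0) (.e (nat_lit 2175) (nat_lit 143) (.e (nat_lit 712752) (nat_lit 29) (.e (nat_lit 442411) (nat_lit 20) .nil)))) (.g (nat_lit 0) (.e (nat_lit 333038) (nat_lit 0) .nil) .nil))) 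
(.lf (nat_lit 567225) (.g (nat_lit 1589) (.e (nat_lit 442406) (nat_lit 20) (.e (nat_lit 3238) (nat_lit 197) (.e (nat_lit 532523) (nat_lit 7) (.e (nat_lit 319505) (nat_lit 10) (.e (nat_lit 7936) (nat_lit 301) .nil))))) (.g (nat_lit 0) (.e (nat_lit 335431) (nat_lit 0) .nil) .nil)))))) (.nd (nat_lit 7) (.nd (nat_lit 8) (.nd (nat_lit 9) 
(.lf (nat_lit 566393) (.g (nat_lit 2548) (.e (nat_lit 434272) (nat_lit 38) (.e (nat_lit 655380) (nat_lit 6) (.e (nat_lit 188441) (nat_lit 20) (.e (nat_lit 3408) (nat_lit 212) (.e (nat_lit 655378) (nat_lit 4) (.e (nat_lit 172112) (nat_lit 10) .nil)))))) (.g (nat_lit 1) (.e (nat_lit 332367) (nat_lit 0) .nil) .nil))) 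
(.lf (nat_lit 566905) (.g (nat_lit 2042) (.e (nat_lit 450304) (nat_lit 3) (.e (nat_lit 98335) (nat_lit 18) (.e (nat_lit 164330) (nat_lit 230) (.e (nat_lit 163902) (nat_lit 12) (.e (nat_lit 426479) (nat_lit 27) .nil))))) (.g (nat_lit 0) (.e (nat_lit 333362) (nat_lit 0) .nil) .nil)))) (.nd (nat_lit 9) 
(.lf (nat_lit 566649) (.g (nat_lit 1796) (.e (nat_lit 442374) (nat_lit 0) (.e (nat_lit 1846) (nat_lit 124) (.e (nat_lit 557098) (nat_lit 13) (.e (nat_lit 172115) (nat_lit 10) (.e (nat_lit 434238) (nat_lit 25) (.e (nat_lit 548898) (nat_lit 14) (.e (nat_lit 2988) (nat_lit 186) .nil))))))) (.g (nat_lit 1) (.e (nat_lit 332955) (nat_lit 0) .nil) .nil))) 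
(.lf (nat_lit 567161) (.g (nat_lit 1198) (.e (nat_lit 442399) (nat_lit 20) (.e (nat_lit 3402) (nat_lit 211) (.e (nat_lit 647183) (nat_lit 4) (.e (nat_lit 172038) (nat_lit 0) (.e (nat_lit 6989) (nat_lit 377) (.e (nat_lit 2779) (nat_lit 178) (.e (nat_lit 286771) (nat_lit 29) .nil))))))) (.g (nat_lit 1) (.e (nat_lit 335149) (nat_lit 0) .nil) .nil))))) (.nd (nat_lit 8) (.nd (nat_lit 9) 
(.lf (nat_lit 566521) (.g (nat_lit 3291) (.e (nat_lit 434289) (nat_lit 43) (.e (nat_lit 696346) (nat_lit 10) (.e (nat_lit 188440) (nat_lit 20) (.e (nat_lit 3469) (nat_lit 217) (.e (nat_lit 696344) (nat_lit 8) (.e (nat_lit 172112) (nat_lit 10) .nil)))))) (.g (nat_lit 1) (.e (nat_lit 332740) (nat_lit 0) .nil) .nil))) 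
(.lf (nat_lit 567033) (.g (nat_lit 1568) (.e (nat_lit 450304) (nat_lit 13) (.e (nat_lit 352309) (nat_lit 21) (.e (nat_lit 57849) (nat_lit 252) (.e (nat_lit 57388) (nat_lit 5) (.e (nat_lit 122624) (nat_lit 13) .nil))))) (.g (nat_lit 0) (.e (nat_lit 334731) (nat_lit 0) .nil) .nil)))) (.nd (nat_lit 9) 
(.lf (nat_lit 566777) (.g (nat_lit 2153) (.e (nat_lit 442378) (nat_lit 0) (.e (nat_lit 1856) (nat_lit 124) (.e (nat_lit 557101) (nat_lit 13) (.e (nat_lit 172115) (nat_lit 10) (.e (nat_lit 434238) (nat_lit 25) (.e (nat_lit 548898) (nat_lit 14) (.e (nat_lit 2989) (nat_lit 186) .nil))))))) (.g (nat_lit 1) (.e (nat_lit 333151) (nat_lit 0) .nil) .nil))) 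
(.lf (nat_lit 567289) (.g (nat_lit 2467) (.e (nat_lit 442410) (nat_lit 20) (.e (nat_lit 3297) (nat_lit 202) (.e (nat_lit 573450) (nat_lit 9) (.e (nat_lit 375) (nat_lit 32) (.e (nat_lit 426173) (nat_lit 7) .nil))))) (.g (nat_lit 0) (.e (nat_lit 335845) (nat_lit 0) .nil) .nil)))))))))) 
(.nd (nat_lit 3) (.nd (nat_lit 4) (.nd (nat_lit 5) (.nd (nat_lit 6) (.nd (nat_lit 7) 
(.nd (nat_lit 8) (.nd (nat_lit 9) 
(.lf (nat_lit 566277) (.g (nat_lit 4372) (.e (nat_lit 434271) (nat_lit 38) (.e (nat_lit 655375) (nat_lit 3) (.e (nat_lit 163979) (nat_lit 30) (.e (nat_lit 573481) (nat_lit 13) (.e (nat_lit 65619) (nat_lit 10) (.e (nat_lit 344117) (nat_lit 21) (.e (nat_lit 516160) (nat_lit 10) .nil))))))) (.g (nat_lit 1) (.e (nat_lit 331895) (nat_lit 0) .nil) .nil))) 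
(.lf (nat_lit 566789) (.g (nat_lit 673) (.e (nat_lit 442378) (nat_lit 0) (.e (nat_lit 2174) (nat_lit 143) (.e (nat_lit 712745) (nat_lit 27) .nil))) (.g (nat_lit 0) (.e (nat_lit 333165) (nat_lit 0) .nil) .nil)))) (.nd (nat_lit 9) 
(.lf (nat_lit 566533) (.g (nat_lit 2420) (.e (nat_lit 434291) (nat_lit 44) (.e (nat_lit 704738) (nat_lit 11) (.e (nat_lit 16425) (nat_lit 7) (.e (nat_lit 409617) (nat_lit 10) (.e (nat_lit 848) (nat_lit 73) (.e (nat_lit 761901) (nat_lit 16) (.e (nat_lit 172108) (nat_lit 10) .nil))))))) (.g (nat_lit 1) (.e (nat_lit 332772) (nat_lit 0) .nil) .nil))) 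
(.lf (nat_lit 567045) (.g (nat_lit 943) (.e (nat_lit 450304) (nat_lit 16) (.e (nat_lit 376857) (nat_lit 21) (.e (nat_lit 57851) (nat_lit 252) (.e (nat_lit 57388) (nat_lit 5) (.e (nat_lit 122624) (nat_lit 13) .nil))))) (.g (nat_lit 0) (.e (nat_lit 334758) (nat_lit 0) .nil) .nil))))) (.nd (nat_lit 8) (.nd (nat_lit 9) 
(.lf (nat_lit 566405) (.g (nat_lit 1632) (.e (nat_lit 434284) (nat_lit 41) (.e (nat_lit 679942) (nat_lit 5) (.e (nat_lit 1676) (nat_lit 116) (.e (nat_lit 401456) (nat_lit 13) (.e (nat_lit 483413) (nat_lit 27) .nil))))) (.g (nat_lit 0) (.e (nat_lit 332389) (nat_lit 0) .nil) .nil))) 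
(.lf (nat_lit 566917) (.g (nat_lit 2639) (.e (nat_lit 450304) (nat_lit 3) (.e (nat_lit 98335) (nat_lit 18) (.e (nat_lit 164332) (nat_lit 230) (.e (nat_lit 163905) (nat_lit 12) (.e (nat_lit 426486) (nat_lit 27) .nil))))) (.g (nat_lit 0) (.e (nat_lit 333378) (nat_lit 0) .nil) .nil)))) (.nd (nat_lit 9) 
(.lf (nat_lit 566661) (.g (nat_lit 3308) (.e (nat_lit 442374) (nat_lit 0) (.e (nat_lit 1856) (nat_lit 124) (.e (nat_lit 557098) (nat_lit 13) (.e (nat_lit 172115) (nat_lit 10) (.e (nat_lit 434238) (nat_lit 25) (.e (nat_lit 548897) (nat_lit 14) (.e (nat_lit 3004) (nat_lit 186) .nil))))))) (.g (nat_lit 1) (.e (nat_lit 332971) (nat_lit 0) .nil) .nil))) 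
(.lf (nat_lit 567173) (.g (nat_lit 2440) (.e (nat_lit 442402) (nat_lit 20) (.e (nat_lit 3297) (nat_lit 202) (.e (nat_lit 573471) (nat_lit 11) (.e (nat_lit 16425) (nat_lit 7) (.e (nat_lit 409617) (nat_lit 10) .nil))))) (.g (nat_lit 0) (.e (nat_lit 335264) (nat_lit 0) .nil) .nil)))))) (.nd (nat_lit 7) (.nd (nat_lit 8) (.nd (nat_lit 9) 
(.lf (nat_lit 566341) (.g (nat_lit 4020) (.e (nat_lit 434272) (nat_lit 38) (.e (nat_lit 655375) (nat_lit 3) (.e (nat_lit 163978) (nat_lit 30) (.e (nat_lit 573490) (nat_lit 15) (.e (nat_lit 81954) (nat_lit 23) (.e (nat_lit 98366) (nat_lit 27) .nil)))))) (.g (nat_lit 1) (.e (nat_lit 332124) (nat_lit 0) .nil) .nil))) 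
(.lf (nat_lit 566853) (.g (nat_lit 2459) (.e (nat_lit 450304) (nat_lit 0) (.e (nat_lit 1803) (nat_lit 119) (.e (nat_lit 516120) (nat_lit 1) (.e (nat_lit 164329) (nat_lit 230) (.e (nat_lit 163902) (nat_lit 12) .nil))))) (.g (nat_lit 0) (.e (nat_lit 333279) (nat_lit 0) .nil) .nil)))) (.nd (nat_lit 9) 
(.lf (nat_lit 566597) (.g (nat_lit 1138) (.e (nat_lit 442373) (nat_lit 0) (.e (nat_lit 1796) (nat_lit 119) (.e (nat_lit 516126) (nat_lit 2) (.e (nat_lit 213032) (nat_lit 11) (.e (nat_lit 24609) (nat_lit 3) .nil))))) (.g (nat_lit 0) (.e (nat_lit 332895) (nat_lit 0) .nil) .nil))) 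
(.lf (nat_lit 567109) (.g (nat_lit 1363) (.e (nat_lit 450304) (nat_lit 18) (.e (nat_lit 393253) (nat_lit 18) (.e (nat_lit 164330) (nat_lit 230) (.e (nat_lit 163873) (nat_lit 3) (.e (nat_lit 212736) (nat_lit 11) .nil))))) (.g (nat_lit 0) (.e (nat_lit 334872) (nat_lit 0) .nil) .nil))))) (.nd (nat_lit 8) (.nd (nat_lit 9) 
(.lf (nat_lit 566469) (.g (nat_lit 2497) (.e (nat_lit 434289) (nat_lit 43) (.e (nat_lit 696344) (nat_lit 8) (.e (nat_lit 172106) (nat_lit 10) (.e (nat_lit 434209) (nat_lit 18) (.e (nat_lit 6427) (nat_lit 342) (.e (nat_lit 229402) (nat_lit 12) (.e (nat_lit 426284) (nat_lit 10) .nil))))))) (.g (nat_lit 1) (.e (nat_lit 332660) (nat_lit 0) .nil) .nil))) 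
(.lf (nat_lit 566981) (.g (nat_lit 2835) (.e (nat_lit 442390) (nat_lit 11) (.e (nat_lit 336229) (nat_lit 14) (.e (nat_lit 401448) (nat_lit 10) (.e (nat_lit 434289) (nat_lit 43) (.e (nat_lit 696330) (nat_lit 5) .nil))))) (.g (nat_lit 0) (.e (nat_lit 334434) (nat_lit 0) .nil) .nil)))) (.nd (nat_lit 9) 
(.lf (nat_lit 566725) (.g (nat_lit 168) (.e (nat_lit 442376) (nat_lit 0) (.e (nat_lit 2146) (nat_lit 142) (.e (nat_lit 704594) (nat_lit 5) .nil))) (.g (nat_lit 0) (.e (nat_lit 333061) (nat_lit 0) .nil) .nil))) 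
(.lf (nat_lit 567237) (.g (nat_lit 2365) (.e (nat_lit 442406) (nat_lit 20) (.e (nat_lit 3238) (nat_lit 197) (.e (nat_lit 532523) (nat_lit 7) (.e (nat_lit 319534) (nat_lit 16) (.e (nat_lit 286720) (nat_lit 0) .nil))))) (.g (nat_lit 0) (.e (nat_lit 335443) (nat_lit 0) .nil) .nil))))))) (.nd (nat_lit 6) (.nd (nat_lit 7) (.nd (nat_lit 8) (.nd (nat_lit 9) 
(.lf (nat_lit 566309) (.g (nat_lit 3163) (.e (nat_lit 434271) (nat_lit 38) (.e (nat_lit 655380) (nat_lit 6) (.e (nat_lit 188453) (nat_lit 24) (.e (nat_lit 229666) (nat_lit 240) (.e (nat_lit 2630) (nat_lit 164) (.e (nat_lit 172106) (nat_lit 10) .nil)))))) (.g (nat_lit 1) (.e (nat_lit 332035) (nat_lit 0) .nil) .nil))) 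
(.lf (nat_lit 566821) (.g (nat_lit 3533) (.e (nat_lit 442379) (nat_lit 0) (.e (nat_lit 1856) (nat_lit 124) (.e (nat_lit 557100) (nat_lit 13) (.e (nat_lit 172113) (nat_lit 10) (.e (nat_lit 434248) (nat_lit 28) (.e (nat_lit 573463) (nat_lit 9) (.e (nat_lit 461) (nat_lit 34) .nil))))))) (.g (nat_lit 1) (.e (nat_lit 333211) (nat_lit 0) .nil) .nil)))) (.nd (nat_lit 9) 
(.lf (nat_lit 566565) (.g (nat_lit 1425) (.e (nat_lit 442368) (nat_lit 0) (.e (nat_lit 1861) (nat_lit 124) (.e (nat_lit 557098) (nat_lit 13) (.e (nat_lit 172115) (nat_lit 10) (.e (nat_lit 434238) (nat_lit 25) .nil))))) (.g (nat_lit 0) (.e (nat_lit 332829) (nat_lit 0) .nil) .nil))) 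
(.lf (nat_lit 567077) (.g (nat_lit 1421) (.e (nat_lit 450304) (nat_lit 18) (.e (nat_lit 393251) (nat_lit 18) (.e (nat_lit 164325) (nat_lit 230) (.e (nat_lit 163875) (nat_lit 3) (.e (nat_lit 212736) (nat_lit 11) .nil))))) (.g (nat_lit 0) (.e (nat_lit 334814) (nat_lit 0) .nil) .nil))))) (.nd (nat_lit 8) (.nd (nat_lit 9) 
(.lf (nat_lit 566437) (.g (nat_lit 1132) (.e (nat_lit 434288) (nat_lit 43) (.e (nat_lit 696346) (nat_lit 10) (.e (nat_lit 188434) (nat_lit 20) (.e (nat_lit 3467) (nat_lit 217) (.e (nat_lit 696343) (nat_lit 8) .nil))))) (.g (nat_lit 0) (.e (nat_lit 332517) (nat_lit 0) .nil) .nil))) 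
(.lf (nat_lit 566949) (.g (nat_lit 2148) (.e (nat_lit 442385) (nat_lit 11) (.e (nat_lit 335995) (nat_lit 1) (.e (nat_lit 57691) (nat_lit 156) (.e (nat_lit 163905) (nat_lit 12) (.e (nat_lit 426438) (nat_lit 18) .nil))))) (.g (nat_lit 0) (.e (nat_lit 333832) (nat_lit 0) .nil) .nil)))) (.nd (nat_lit 9) 
(.lf (nat_lit 566693) (.g (nat_lit 2511) (.e (nat_lit 442374) (nat_lit 0) (.e (nat_lit 2059) (nat_lit 142) (.e (nat_lit 704595) (nat_lit 5) (.e (nat_lit 180285) (nat_lit 45) (.e (nat_lit 2789) (nat_lit 179) (.e (nat_lit 302848) (nat_lit 29) .nil)))))) (.g (nat_lit 1) (.e (nat_lit 333010) (nat_lit 0) .nil) .nil))) 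
(.lf (nat_lit 567205) (.g (nat_lit 2274) (.e (nat_lit 442404) (nat_lit 20) (.e (nat_lit 3238) (nat_lit 197) (.e (nat_lit 532523) (nat_lit 7) (.e (nat_lit 319534) (nat_lit 16) (.e (nat_lit 286728) (nat_lit 0) .nil))))) (.g (nat_lit 0) (.e (nat_lit 335382) (nat_lit 0) .nil) .nil)))))) (.nd (nat_lit 7) (.nd (nat_lit 8) (.nd (nat_lit 9) 
(.lf (nat_lit 566373) (.g (nat_lit 2799) (.e (nat_lit 434272) (nat_lit 38) (.e (nat_lit 655378) (nat_lit 4) (.e (nat_lit 172126) (nat_lit 14) (.e (nat_lit 491567) (nat_lit 13) (.e (nat_lit 393282) (nat_lit 24) .nil))))) (.g (nat_lit 0) (.e (nat_lit 332347) (nat_lit 0) .nil) .nil))) 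
(.lf (nat_lit 566885) (.g (nat_lit 1791) (.e (nat_lit 450304) (nat_lit 3) (.e (nat_lit 98334) (nat_lit 18) (.e (nat_lit 164332) (nat_lit 230) (.e (nat_lit 163905) (nat_lit 12) (.e (nat_lit 426478) (nat_lit 27) .nil))))) (.g (nat_lit 0) (.e (nat_lit 333335) (nat_lit 0) .nil) .nil)))) (.nd (nat_lit 9) 
(.lf (nat_lit 566629) (.g (nat_lit 2423) (.e (nat_lit 442374) (nat_lit 0) (.e (nat_lit 1800) (nat_lit 119) (.e (nat_lit 516119) (nat_lit 1) (.e (nat_lit 164322) (nat_lit 230) (.e (nat_lit 163942) (nat_lit 19) (.e (nat_lit 491264) (nat_lit 11) .nil)))))) (.g (nat_lit 1) (.e (nat_lit 332934) (nat_lit 0) .nil) .nil))) 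
(.lf (nat_lit 567141) (.g (nat_lit 225) (.e (nat_lit 442391) (nat_lit 19) (.e (nat_lit 409344) (nat_lit 30) (.e (nat_lit 360463) (nat_lit 1) (.e (nat_lit 499991) (nat_lit 14) (.e (nat_lit 7936) (nat_lit 34) .nil))))) (.g (nat_lit 1) (.e (nat_lit 334954) (nat_lit 0) .nil) .nil))))) (.nd (nat_lit 8) (.nd (nat_lit 9) 
(.lf (nat_lit 566501) (.g (nat_lit 3472) (.e (nat_lit 434289) (nat_lit 43) (.e (nat_lit 696346) (nat_lit 10) (.e (nat_lit 188421) (nat_lit 11) (.e (nat_lit 336232) (nat_lit 14) (.e (nat_lit 401448) (nat_lit 10) .nil))))) (.g (nat_lit 1) (.e (nat_lit 332718) (nat_lit 0) .nil) .nil))) 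
(.lf (nat_lit 567013) (.g (nat_lit 1859) (.e (nat_lit 442390) (nat_lit 11) (.e (nat_lit 336387) (nat_lit 27) (.e (nat_lit 426107) (nat_lit 1) (.e (nat_lit 164347) (nat_lit 240) (.e (nat_lit 2610) (nat_lit 163) (.e (nat_lit 163959) (nat_lit 24) (.e (nat_lit 524318) (nat_lit 11) .nil))))))) (.g (nat_lit 1) (.e (nat_lit 334665) (nat_lit 0) .nil) .nil)))) (.nd (nat_lit 9) 
(.lf (nat_lit 566757) (.g (nat_lit 1610) (.e (nat_lit 442377) (nat_lit 0) (.e (nat_lit 2059) (nat_lit 142) (.e (nat_lit 704596) (nat_lit 5) (.e (nat_lit 180277) (nat_lit 32) (.e (nat_lit 1425) (nat_lit 108) .nil))))) (.g (nat_lit 0) (.e (nat_lit 333126) (nat_lit 0) .nil) .nil))) 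
(.lf (nat_lit 567269) (.g (nat_lit 2083) (.e (nat_lit 442409) (nat_lit 20) (.e (nat_lit 3391) (nat_lit 210) (.e (nat_lit 639021) (nat_lit 16) (.e (nat_lit 65619) (nat_lit 10) (.e (nat_lit 344160) (nat_lit 37) (.e (nat_lit 647190) (nat_lit 9) (.e (nat_lit 7936) (nat_lit 34) .nil))))))) (.g (nat_lit 1) (.e (nat_lit 335705) (nat_lit 0) .nil) .nil)))))))) 
(.nd (nat_lit 5) (.nd (nat_lit 6) (.nd (nat_lit 7) (.nd (nat_lit 8) (.nd (nat_lit 9) 
(.lf (nat_lit 566293) (.g (nat_lit 2895) (.e (nat_lit 434271) (nat_lit 38) (.e (nat_lit 655378) (nat_lit 4) (.e (nat_lit 172126) (nat_lit 14) (.e (nat_lit 491567) (nat_lit 13) (.e (nat_lit 393283) (nat_lit 24) .nil))))) (.g (nat_lit 1) (.e (nat_lit 331999) (nat_lit 0) .nil) .nil))) 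
(.lf (nat_lit 566805) (.g (nat_lit 2999) (.e (nat_lit 442379) (nat_lit 0) (.e (nat_lit 1800) (nat_lit 119) (.e (nat_lit 516120) (nat_lit 1) (.e (nat_lit 164330) (nat_lit 230) (.e (nat_lit 163941) (nat_lit 19) (.e (nat_lit 491264) (nat_lit 11) .nil)))))) (.g (nat_lit 1) (.e (nat_lit 333195) (nat_lit 0) .nil) .nil)))) (.nd (nat_lit 9) 
(.lf (nat_lit 566549) (.g (nat_lit 1315) (.e (nat_lit 434292) (nat_lit 44) (.e (nat_lit 704738) (nat_lit 11) (.e (nat_lit 16446) (nat_lit 9) (.e (nat_lit 426500) (nat_lit 27) .nil)))) (.g (nat_lit 0) (.e (nat_lit 332803) (nat_lit 0) .nil) .nil))) 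
(.lf (nat_lit 567061) (.g (nat_lit 1166) (.e (nat_lit 450304) (nat_lit 16) (.e (nat_lit 376859) (nat_lit 21) (.e (nat_lit 57848) (nat_lit 252) (.e (nat_lit 57388) (nat_lit 5) (.e (nat_lit 122624) (nat_lit 13) .nil))))) (.g (nat_lit 0) (.e (nat_lit 334778) (nat_lit 0) .nil) .nil))))) (.nd (nat_lit 8) (.nd (nat_lit 9) 
(.lf (nat_lit 566421) (.g (nat_lit 2560) (.e (nat_lit 434288) (nat_lit 43) (.e (nat_lit 696343) (nat_lit 8) (.e (nat_lit 172107) (nat_lit 10) (.e (nat_lit 434289) (nat_lit 43) (.e (nat_lit 696344) (nat_lit 8) (.e (nat_lit 172106) (nat_lit 10) .nil)))))) (.g (nat_lit 1) (.e (nat_lit 332493) (nat_lit 0) .nil) .nil))) 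
(.lf (nat_lit 566933) (.g (nat_lit 1326) (.e (nat_lit 450304) (nat_lit 3) (.e (nat_lit 98342) (nat_lit 20) (.e (nat_lit 221194) (nat_lit 11) (.e (nat_lit 336025) (nat_lit 3) .nil)))) (.g (nat_lit 0) (.e (nat_lit 333400) (nat_lit 0) .nil) .nil)))) (.nd (nat_lit 9) 
(.lf (nat_lit 566677) (.g (nat_lit 1921) (.e (nat_lit 442374) (nat_lit 0) (.e (nat_lit 1856) (nat_lit 124) (.e (nat_lit 557107) (nat_lit 15) (.e (nat_lit 188441) (nat_lit 20) (.e (nat_lit 3271) (nat_lit 199) (.e (nat_lit 548898) (nat_lit 14) (.e (nat_lit 2988) (nat_lit 186) .nil))))))) (.g (nat_lit 1) (.e (nat_lit 332987) (nat_lit 0) .nil) .nil))) 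
(.lf (nat_lit 567189) (.g (nat_lit 781) (.e (nat_lit 442402) (nat_lit 20) (.e (nat_lit 3578) (nat_lit 223) (.e (nat_lit 745475) (nat_lit 0) (.e (nat_lit 1595) (nat_lit 111) (.e (nat_lit 368384) (nat_lit 5) .nil))))) (.g (nat_lit 0) (.e (nat_lit 335327) (nat_lit 0) .nil) .nil)))))) (.nd (nat_lit 7) (.nd (nat_lit 8) (.nd (nat_lit 9) 
(.lf (nat_lit 566357) (.g (nat_lit 2522) (.e (nat_lit 434272) (nat_lit 38) (.e (nat_lit 655378) (nat_lit 4) (.e (nat_lit 172094) (nat_lit 9) (.e (nat_lit 426025) (nat_lit 0) (.e (nat_lit 3399) (nat_lit 211) (.e (nat_lit 647183) (nat_lit 4) (.e (nat_lit 172112) (nat_lit 10) .nil))))))) (.g (nat_lit 1) (.e (nat_lit 332231) (nat_lit 0) .nil) .nil))) 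
(.lf (nat_lit 566869) (.g (nat_lit 1478) (.e (nat_lit 450304) (nat_lit 3) (.e (nat_lit 98333) (nat_lit 18) (.e (nat_lit 164327) (nat_lit 230) (.e (nat_lit 163941) (nat_lit 19) (.e (nat_lit 491264) (nat_lit 11) .nil))))) (.g (nat_lit 0) (.e (nat_lit 333310) (nat_lit 0) .nil) .nil)))) (.nd (nat_lit 9) 
(.lf (nat_lit 566613) (.g (nat_lit 1456) (.e (nat_lit 442373) (nat_lit 0) (.e (nat_lit 1853) (nat_lit 124) (.e (nat_lit 557107) (nat_lit 15) (.e (nat_lit 188439) (nat_lit 20) (.e (nat_lit 3271) (nat_lit 199) .nil))))) (.g (nat_lit 0) (.e (nat_lit 332913) (nat_lit 0) .nil) .nil))) 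
(.lf (nat_lit 567125) (.g (nat_lit 1019) (.e (nat_lit 450304) (nat_lit 18) (.e (nat_lit 393254) (nat_lit 18) (.e (nat_lit 164325) (nat_lit 230) (.e (nat_lit 163875) (nat_lit 3) (.e (nat_lit 212736) (nat_lit 11) .nil))))) (.g (nat_lit 0) (.e (nat_lit 334900) (nat_lit 0) .nil) .nil))))) (.nd (nat_lit 8) (.nd (nat_lit 9) 
(.lf (nat_lit 566485) (.g (nat_lit 3508) (.e (nat_lit 434289) (nat_lit 43) (.e (nat_lit 696344) (nat_lit 8) (.e (nat_lit 172113) (nat_lit 10) (.e (nat_lit 434289) (nat_lit 43) (.e (nat_lit 696344) (nat_lit 8) (.e (nat_lit 172107) (nat_lit 10) .nil)))))) (.g (nat_lit 1) (.e (nat_lit 332678) (nat_lit 0) .nil) .nil))) 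
(.lf (nat_lit 566997) (.g (nat_lit 2664) (.e (nat_lit 442390) (nat_lit 11) (.e (nat_lit 336232) (nat_lit 14) (.e (nat_lit 401446) (nat_lit 10) (.e (nat_lit 434289) (nat_lit 43) (.e (nat_lit 696327) (nat_lit 5) (.e (nat_lit 2988) (nat_lit 186) .nil)))))) (.g (nat_lit 1) (.e (nat_lit 334565) (nat_lit 0) .nil) .nil)))) (.nd (nat_lit 9) 
(.lf (nat_lit 566741) (.g (nat_lit 2510) (.e (nat_lit 442377) (nat_lit 0) (.e (nat_lit 1800) (nat_lit 119) (.e (nat_lit 516120) (nat_lit 1) (.e (nat_lit 164329) (nat_lit 230) (.e (nat_lit 163941) (nat_lit 19) (.e (nat_lit 491264) (nat_lit 11) .nil)))))) (.g (nat_lit 1) (.e (nat_lit 333102) (nat_lit 0) .nil) .nil))) 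
(.lf (nat_lit 567253) (.g (nat_lit 1952) (.e (nat_lit 442408) (nat_lit 20) (.e (nat_lit 3390) (nat_lit 210) (.e (nat_lit 639021) (nat_lit 16) (.e (nat_lit 65619) (nat_lit 10) (.e (nat_lit 344160) (nat_lit 37) (.e (nat_lit 647190) (nat_lit 9) (.e (nat_lit 7936) (nat_lit 34) .nil))))))) (.g (nat_lit 1) (.e (nat_lit 335543) (nat_lit 0) .nil) .nil))))))) 
(.nd (nat_lit 6) (.nd (nat_lit 7) (.nd (nat_lit 8) (.nd (nat_lit 9) 
(.lf (nat_lit 566325) (.g (nat_lit 3125) (.e (nat_lit 434272) (nat_lit 38) (.e (nat_lit 655375) (nat_lit 3) (.e (nat_lit 163973) (nat_lit 30) (.e (nat_lit 573484) (nat_lit 13) (.e (nat_lit 65610) (nat_lit 10) (.e (nat_lit 344117) (nat_lit 21) (.e (nat_lit 516159) (nat_lit 10) .nil))))))) (.g (nat_lit 1) (.e (nat_lit 332106) (nat_lit 0) .nil) .nil))) 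
(.lf (nat_lit 566837) (.g (nat_lit 1330) (.e (nat_lit 442379) (nat_lit 0) (.e (nat_lit 2059) (nat_lit 142) (.e (nat_lit 704595) (nat_lit 5) (.e (nat_lit 180285) (nat_lit 45) (.e (nat_lit 7936) (nat_lit 178) .nil))))) (.g (nat_lit 0) (.e (nat_lit 333250) (nat_lit 0) .nil) .nil)))) (.nd (nat_lit 9) 
(.lf (nat_lit 566581) (.g (nat_lit 2442) (.e (nat_lit 442372) (nat_lit 0) (.e (nat_lit 1846) (nat_lit 124) (.e (nat_lit 557101) (nat_lit 13) (.e (nat_lit 172115) (nat_lit 10) (.e (nat_lit 434244) (nat_lit 28) (.e (nat_lit 573458) (nat_lit 9) (.e (nat_lit 7936) (nat_lit 34) .nil))))))) (.g (nat_lit 1) (.e (nat_lit 332876) (nat_lit 0) .nil) .nil))) 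
(.lf (nat_lit 567093) (.g (nat_lit 1369) (.e (nat_lit 450304) (nat_lit 18) (.e (nat_lit 393252) (nat_lit 18) (.e (nat_lit 164332) (nat_lit 230) (.e (nat_lit 163874) (nat_lit 3) (.e (nat_lit 212736) (nat_lit 11) .nil))))) (.g (nat_lit 0) (.e (nat_lit 334846) (nat_lit 0) .nil) .nil))))) (.nd (nat_lit 8) (.nd (nat_lit 9) 
(.lf (nat_lit 566453) (.g (nat_lit 3086) (.e (nat_lit 434289) (nat_lit 43) (.e (nat_lit 696343) (nat_lit 8) (.e (nat_lit 172116) (nat_lit 10) (.e (nat_lit 434289) (nat_lit 43) (.e (nat_lit 696344) (nat_lit 8) (.e (nat_lit 172116) (nat_lit 10) .nil)))))) (.g (nat_lit 1) (.e (nat_lit 332636) (nat_lit 0) .nil) .nil))) 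
(.lf (nat_lit 566965) (.g (nat_lit 2158) (.e (nat_lit 442390) (nat_lit 11) (.e (nat_lit 335986) (nat_lit 1) (.e (nat_lit 57688) (nat_lit 156) (.e (nat_lit 163902) (nat_lit 12) (.e (nat_lit 426434) (nat_lit 18) .nil))))) (.g (nat_lit 0) (.e (nat_lit 334377) (nat_lit 0) .nil) .nil)))) (.nd (nat_lit 9) 
(.lf (nat_lit 566709) (.g (nat_lit 2053) (.e (nat_lit 442374) (nat_lit 0) (.e (nat_lit 2175) (nat_lit 143) (.e (nat_lit 712745) (nat_lit 27) (.e (nat_lit 425984) (nat_lit 0) (.e (nat_lit 7586) (nat_lit 406) (.e (nat_lit 73472) (nat_lit 29) .nil)))))) (.g (nat_lit 1) (.e (nat_lit 333032) (nat_lit 0) .nil) .nil))) 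
(.lf (nat_lit 567221) (.g (nat_lit 2240) (.e (nat_lit 442406) (nat_lit 20) (.e (nat_lit 3238) (nat_lit 197) (.e (nat_lit 532523) (nat_lit 7) (.e (nat_lit 319504) (nat_lit 10) (.e (nat_lit 5395) (nat_lit 301) (.e (nat_lit 57464) (nat_lit 23) (.e (nat_lit 516164) (nat_lit 11) .nil))))))) (.g (nat_lit 1) (.e (nat_lit 335427) (nat_lit 0) .nil) .nil)))))) 
(.nd (nat_lit 7) (.nd (nat_lit 8) (.nd (nat_lit 9) 
(.lf (nat_lit 566389) (.g (nat_lit 2284) (.e (nat_lit 434272) (nat_lit 38) (.e (nat_lit 655380) (nat_lit 6) (.e (nat_lit 188440) (nat_lit 20) (.e (nat_lit 3408) (nat_lit 212) (.e (nat_lit 655378) (nat_lit 4) (.e (nat_lit 172112) (nat_lit 10) .nil)))))) (.g (nat_lit 1) (.e (nat_lit 332363) (nat_lit 0) .nil) .nil))) 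
(.lf (nat_lit 566901) (.g (nat_lit 481) (.e (nat_lit 450304) (nat_lit 3) (.e (nat_lit 98335) (nat_lit 18) (.e (nat_lit 164330) (nat_lit 230) .nil))) (.g (nat_lit 0) (.e (nat_lit 333358) (nat_lit 0) .nil) .nil)))) (.nd (nat_lit 9) 
(.lf (nat_lit 566645) (.g (nat_lit 2207) (.e (nat_lit 442374) (nat_lit 0) (.e (nat_lit 1800) (nat_lit 119) (.e (nat_lit 516120) (nat_lit 1) (.e (nat_lit 164332) (nat_lit 230) (.e (nat_lit 163942) (nat_lit 19) (.e (nat_lit 491264) (nat_lit 11) .nil)))))) (.g (nat_lit 1) (.e (nat_lit 332950) (nat_lit 0) .nil) .nil))) 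
(.lf (nat_lit 567157) (.g (nat_lit 2199) (.e (nat_lit 442399) (nat_lit 20) (.e (nat_lit 3399) (nat_lit 211) (.e (nat_lit 647183) (nat_lit 4) (.e (nat_lit 172079) (nat_lit 7) (.e (nat_lit 409618) (nat_lit 10) (.e (nat_lit 5362) (nat_lit 298) (.e (nat_lit 463) (nat_lit 34) .nil))))))) (.g (nat_lit 1) (.e (nat_lit 335114) (nat_lit 0) .nil) .nil))))) (.nd (nat_lit 8) (.nd (nat_lit 9) 
(.lf (nat_lit 566517) (.g (nat_lit 3430) (.e (nat_lit 434289) (nat_lit 43) (.e (nat_lit 696346) (nat_lit 10) (.e (nat_lit 188439) (nat_lit 20) (.e (nat_lit 3469) (nat_lit 217) (.e (nat_lit 696344) (nat_lit 8) (.e (nat_lit 172113) (nat_lit 10) .nil)))))) (.g (nat_lit 1) (.e (nat_lit 332736) (nat_lit 0) .nil) .nil))) 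
(.lf (nat_lit 567029) (.g (nat_lit 1586) (.e (nat_lit 450304) (nat_lit 13) (.e (nat_lit 352309) (nat_lit 21) (.e (nat_lit 57846) (nat_lit 252) (.e (nat_lit 57388) (nat_lit 5) (.e (nat_lit 122624) (nat_lit 13) .nil))))) (.g (nat_lit 0) (.e (nat_lit 334727) (nat_lit 0) .nil) .nil)))) (.nd (nat_lit 9) 
(.lf (nat_lit 566773) (.g (nat_lit 2618) (.e (nat_lit 442378) (nat_lit 0) (.e (nat_lit 1800) (nat_lit 119) (.e (nat_lit 516120) (nat_lit 1) (.e (nat_lit 164329) (nat_lit 230) (.e (nat_lit 163941) (nat_lit 19) (.e (nat_lit 491264) (nat_lit 11) .nil)))))) (.g (nat_lit 1) (.e (nat_lit 333147) (nat_lit 0) .nil) .nil))) 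
(.lf (nat_lit 567285) (.g (nat_lit 4043) (.e (nat_lit 442414) (nat_lit 20) (.e (nat_lit 3304) (nat_lit 202) (.e (nat_lit 573471) (nat_lit 11) (.e (nat_lit 16425) (nat_lit 7) (.e (nat_lit 409617) (nat_lit 10) .nil))))) (.g (nat_lit 0) (.e (nat_lit 335840) (nat_lit 0) .nil) .nil))))))))) (.nd (nat_lit 4) (.nd (nat_lit 5) (.nd (nat_lit 6) (.nd (nat_lit 7) (.nd (nat_lit 8) (.nd (nat_lit 9) 
(.lf (nat_lit 566285) (.g (nat_lit 2144) (.e (nat_lit 434271) (nat_lit 38) (.e (nat_lit 655378) (nat_lit 4) (.e (nat_lit 172097) (nat_lit 9) (.e (nat_lit 426025) (nat_lit 0) (.e (nat_lit 3397) (nat_lit 211) (.e (nat_lit 647183) (nat_lit 4) (.e (nat_lit 172107) (nat_lit 10) .nil))))))) (.g (nat_lit 1) (.e (nat_lit 331921) (nat_lit 0) .nil) .nil))) 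
(.lf (nat_lit 566797) (.g (nat_lit 2318) (.e (nat_lit 442379) (nat_lit 0) (.e (nat_lit 1784) (nat_lit 119) (.e (nat_lit 516115) (nat_lit 1) (.e (nat_lit 164325) (nat_lit 230) (.e (nat_lit 163907) (nat_lit 12) .nil))))) (.g (nat_lit 0) (.e (nat_lit 333178) (nat_lit 0) .nil) .nil)))) (.nd (nat_lit 9) 
(.lf (nat_lit 566541) (.g (nat_lit 1641) (.e (nat_lit 434291) (nat_lit 44) (.e (nat_lit 704738) (nat_lit 11) (.e (nat_lit 16469) (nat_lit 14) (.e (nat_lit 499456) (nat_lit 25) .nil)))) (.g (nat_lit 0) (.e (nat_lit 332780) (nat_lit 0) .nil) .nil))) 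
(.lf (nat_lit 567053) (.g (nat_lit 76) (.e (nat_lit 450304) (nat_lit 16) (.e (nat_lit 376858) (nat_lit 21) (.e (nat_lit 57848) (nat_lit 252) .nil))) (.g (nat_lit 0) (.e (nat_lit 334769) (nat_lit 0) .nil) .nil))))) (.nd (nat_lit 8) (.nd (nat_lit 9) 
(.lf (nat_lit 566413) (.g (nat_lit 1843) (.e (nat_lit 434287) (nat_lit 43) (.e (nat_lit 696344) (nat_lit 8) (.e (nat_lit 172113) (nat_lit 10) (.e (nat_lit 434203) (nat_lit 18) (.e (nat_lit 6418) (nat_lit 341) .nil))))) (.g (nat_lit 0) (.e (nat_lit 332473) (nat_lit 0) .nil) .nil))) 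
(.lf (nat_lit 566925) (.g (nat_lit 1506) (.e (nat_lit 450304) (nat_lit 3) (.e (nat_lit 98341) (nat_lit 20) (.e (nat_lit 221194) (nat_lit 11) (.e (nat_lit 336020) (nat_lit 3) .nil)))) (.g (nat_lit 0) (.e (nat_lit 333390) (nat_lit 0) .nil) .nil)))) (.nd (nat_lit 9) 
(.lf (nat_lit 566669) (.g (nat_lit 2499) (.e (nat_lit 442374) (nat_lit 0) (.e (nat_lit 1856) (nat_lit 124) (.e (nat_lit 557101) (nat_lit 13) (.e (nat_lit 172115) (nat_lit 10) (.e (nat_lit 434238) (nat_lit 25) (.e (nat_lit 548898) (nat_lit 14) (.e (nat_lit 3005) (nat_lit 186) .nil))))))) (.g (nat_lit 1) (.e (nat_lit 332979) (nat_lit 0) .nil) .nil))) 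
(.lf (nat_lit 567181) (.g (nat_lit 1807) (.e (nat_lit 442402) (nat_lit 20) (.e (nat_lit 3391) (nat_lit 210) (.e (nat_lit 639021) (nat_lit 16) (.e (nat_lit 65617) (nat_lit 10) (.e (nat_lit 344164) (nat_lit 37) (.e (nat_lit 647190) (nat_lit 9) (.e (nat_lit 7936) (nat_lit 34) .nil))))))) (.g (nat_lit 1) (.e (nat_lit 335272) (nat_lit 0) .nil) .nil)))))) 
(.nd (nat_lit 7) (.nd (nat_lit 8) (.nd (nat_lit 9) 
(.lf (nat_lit 566349) (.g (nat_lit 4266) (.e (nat_lit 434272) (nat_lit 38) (.e (nat_lit 655375) (nat_lit 3) (.e (nat_lit 163979) (nat_lit 30) (.e (nat_lit 573491) (nat_lit 15) (.e (nat_lit 81954) (nat_lit 23) (.e (nat_lit 98367) (nat_lit 27) .nil)))))) (.g (nat_lit 1) (.e (nat_lit 332189) (nat_lit 0) .nil) .nil))) 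
(.lf (nat_lit 566861) (.g (nat_lit 2559) (.e (nat_lit 450304) (nat_lit 3) (.e (nat_lit 98333) (nat_lit 18) (.e (nat_lit 164325) (nat_lit 230) (.e (nat_lit 163903) (nat_lit 12) (.e (nat_lit 426478) (nat_lit 27) .nil))))) (.g (nat_lit 0) (.e (nat_lit 333302) (nat_lit 0) .nil) .nil)))) (.nd (nat_lit 9) 
(.lf (nat_lit 566605) (.g (nat_lit 4426) (.e (nat_lit 442373) (nat_lit 0) (.e (nat_lit 1853) (nat_lit 124) (.e (nat_lit 557097) (nat_lit 13) (.e (nat_lit 172115) (nat_lit 10) (.e (nat_lit 434244) (nat_lit 28) (.e (nat_lit 573450) (nat_lit 9) (.e (nat_lit 457) (nat_lit 34) .nil))))))) (.g (nat_lit 1) (.e (nat_lit 332905) (nat_lit 0) .nil) .nil))) 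
(.lf (nat_lit 567117) (.g (nat_lit 1072) (.e (nat_lit 450304) (nat_lit 18) (.e (nat_lit 393253) (nat_lit 18) (.e (nat_lit 164345) (nat_lit 240) (.e (nat_lit 2610) (nat_lit 163) .nil)))) (.g (nat_lit 0) (.e (nat_lit 334880) (nat_lit 0) .nil) .nil))))) (.nd (nat_lit 8) (.nd (nat_lit 9) 
(.lf (nat_lit 566477) (.g (nat_lit 3156) (.e (nat_lit 434289) (nat_lit 43) (.e (nat_lit 696344) (nat_lit 8) (.e (nat_lit 172112) (nat_lit 10) (.e (nat_lit 434289) (nat_lit 43) (.e (nat_lit 696344) (nat_lit 8) (.e (nat_lit 172112) (nat_lit 10) .nil)))))) (.g (nat_lit 1) (.e (nat_lit 332669) (nat_lit 0) .nil) .nil))) 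
(.lf (nat_lit 566989) (.g (nat_lit 4659) (.e (nat_lit 442390) (nat_lit 11) (.e (nat_lit 336231) (nat_lit 14) (.e (nat_lit 401448) (nat_lit 10) (.e (nat_lit 434209) (nat_lit 18) (.e (nat_lit 6425) (nat_lit 342) (.e (nat_lit 229412) (nat_lit 14) .nil)))))) (.g (nat_lit 1) (.e (nat_lit 334512) (nat_lit 0) .nil) .nil)))) (.nd (nat_lit 9) 
(.lf (nat_lit 566733) (.g (nat_lit 1693) (.e (nat_lit 442377) (nat_lit 0) (.e (nat_lit 1798) (nat_lit 119) (.e (nat_lit 516120) (nat_lit 1) (.e (nat_lit 164329) (nat_lit 230) (.e (nat_lit 163941) (nat_lit 19) (.e (nat_lit 491264) (nat_lit 11) .nil)))))) (.g (nat_lit 1) (.e (nat_lit 333093) (nat_lit 0) .nil) .nil))) 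
(.lf (nat_lit 567245) (.g (nat_lit 1937) (.e (nat_lit 442406) (nat_lit 20) (.e (nat_lit 3238) (nat_lit 197) (.e (nat_lit 532579) (nat_lit 26) (.e (nat_lit 426100) (nat_lit 1) (.e (nat_lit 164399) (nat_lit 256) .nil))))) (.g (nat_lit 0) (.e (nat_lit 335461) (nat_lit 0) .nil) .nil))))))) (.nd (nat_lit 6) (.nd (nat_lit 7) (.nd (nat_lit 8) (.nd (nat_lit 9) 
(.lf (nat_lit 566317) (.g (nat_lit 3392) (.e (nat_lit 434271) (nat_lit 38) (.e (nat_lit 655380) (nat_lit 6) (.e (nat_lit 188455) (nat_lit 24) (.e (nat_lit 229678) (nat_lit 244) (.e (nat_lit 163908) (nat_lit 12) (.e (nat_lit 426286) (nat_lit 10) .nil)))))) (.g (nat_lit 1) (.e (nat_lit 332043) (nat_lit 0) .nil) .nil))) 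
(.lf (nat_lit 566829) (.g (nat_lit 2609) (.e (nat_lit 442379) (nat_lit 0) (.e (nat_lit 2057) (nat_lit 142) (.e (nat_lit 704595) (nat_lit 5) (.e (nat_lit 180277) (nat_lit 32) (.e (nat_lit 1427) (nat_lit 108) (.e (nat_lit 336430) (nat_lit 29) .nil)))))) (.g (nat_lit 1) (.e (nat_lit 333227) (nat_lit 0) .nil) .nil)))) (.nd (nat_lit 9) 
(.lf (nat_lit 566573) (.g (nat_lit 1674) (.e (nat_lit 442372) (nat_lit 0) (.e (nat_lit 1800) (nat_lit 119) (.e (nat_lit 516117) (nat_lit 1) (.e (nat_lit 164329) (nat_lit 230) .nil)))) (.g (nat_lit 0) (.e (nat_lit 332868) (nat_lit 0) .nil) .nil))) 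
(.lf (nat_lit 567085) (.g (nat_lit 1266) (.e (nat_lit 450304) (nat_lit 18) (.e (nat_lit 393251) (nat_lit 18) (.e (nat_lit 164399) (nat_lit 256) (.e (nat_lit 57352) (nat_lit 0) .nil)))) (.g (nat_lit 0) (.e (nat_lit 334823) (nat_lit 0) .nil) .nil))))) (.nd (nat_lit 8) (.nd (nat_lit 9) 
(.lf (nat_lit 566445) (.g (nat_lit 2780) (.e (nat_lit 434289) (nat_lit 43) (.e (nat_lit 696343) (nat_lit 8) (.e (nat_lit 172107) (nat_lit 10) (.e (nat_lit 434289) (nat_lit 43) (.e (nat_lit 696344) (nat_lit 8) (.e (nat_lit 172107) (nat_lit 10) .nil)))))) (.g (nat_lit 1) (.e (nat_lit 332616) (nat_lit 0) .nil) .nil))) 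
(.lf (nat_lit 566957) (.g (nat_lit 2216) (.e (nat_lit 442387) (nat_lit 11) (.e (nat_lit 336231) (nat_lit 14) (.e (nat_lit 401446) (nat_lit 10) (.e (nat_lit 434289) (nat_lit 43) (.e (nat_lit 696327) (nat_lit 5) .nil))))) (.g (nat_lit 0) (.e (nat_lit 334066) (nat_lit 0) .nil) .nil)))) (.nd (nat_lit 9) 
(.lf (nat_lit 566701) (.g (nat_lit 2106) (.e (nat_lit 442374) (nat_lit 0) (.e (nat_lit 2059) (nat_lit 142) (.e (nat_lit 704599) (nat_lit 6) (.e (nat_lit 188441) (nat_lit 20) (.e (nat_lit 3408) (nat_lit 212) (.e (nat_lit 655364) (nat_lit 0) (.e (nat_lit 3004) (nat_lit 186) .nil))))))) (.g (nat_lit 1) (.e (nat_lit 333022) (nat_lit 0) .nil) .nil))) 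
(.lf (nat_lit 567213) (.g (nat_lit 3369) (.e (nat_lit 442404) (nat_lit 20) (.e (nat_lit 3297) (nat_lit 202) (.e (nat_lit 573471) (nat_lit 11) (.e (nat_lit 16425) (nat_lit 7) (.e (nat_lit 409617) (nat_lit 10) (.e (nat_lit 7936) (nat_lit 43) (.e (nat_lit 516164) (nat_lit 11) .nil))))))) (.g (nat_lit 1) (.e (nat_lit 335391) (nat_lit 0) .nil) .nil)))))) 
(.nd (nat_lit 7) (.nd (nat_lit 8) (.nd (nat_lit 9) 
(.lf (nat_lit 566381) (.g (nat_lit 2325) (.e (nat_lit 434272) (nat_lit 38) (.e (nat_lit 655380) (nat_lit 6) (.e (nat_lit 188435) (nat_lit 20) (.e (nat_lit 3409) (nat_lit 212) (.e (nat_lit 655378) (nat_lit 4) (.e (nat_lit 172113) (nat_lit 10) .nil)))))) (.g (nat_lit 1) (.e (nat_lit 332355) (nat_lit 0) .nil) .nil))) 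
(.lf (nat_lit 566893) (.g (nat_lit 1489) (.e (nat_lit 450304) (nat_lit 3) (.e (nat_lit 98335) (nat_lit 18) (.e (nat_lit 164325) (nat_lit 230) (.e (nat_lit 163941) (nat_lit 19) (.e (nat_lit 491264) (nat_lit 11) .nil))))) (.g (nat_lit 0) (.e (nat_lit 333347) (nat_lit 0) .nil) .nil)))) (.nd (nat_lit 9) 
(.lf (nat_lit 566637) (.g (nat_lit 1487) (.e (nat_lit 442374) (nat_lit 0) (.e (nat_lit 1800) (nat_lit 119) (.e (nat_lit 516119) (nat_lit 1) (.e (nat_lit 164332) (nat_lit 230) .nil)))) (.g (nat_lit 0) (.e (nat_lit 332942) (nat_lit 0) .nil) .nil))) 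
(.lf (nat_lit 567149) (.g (nat_lit 1160) (.e (nat_lit 442395) (nat_lit 20) (.e (nat_lit 3399) (nat_lit 211) (.e (nat_lit 647183) (nat_lit 4) (.e (nat_lit 172126) (nat_lit 14) (.e (nat_lit 491550) (nat_lit 9) .nil))))) (.g (nat_lit 0) (.e (nat_lit 334993) (nat_lit 0) .nil) .nil))))) (.nd (nat_lit 8) (.nd (nat_lit 9) 
(.lf (nat_lit 566509) (.g (nat_lit 3673) (.e (nat_lit 434289) (nat_lit 43) (.e (nat_lit 696346) (nat_lit 10) (.e (nat_lit 188434) (nat_lit 20) (.e (nat_lit 3469) (nat_lit 217) (.e (nat_lit 696344) (nat_lit 8) (.e (nat_lit 172113) (nat_lit 10) .nil)))))) (.g (nat_lit 1) (.e (nat_lit 332727) (nat_lit 0) .nil) .nil))) 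
(.lf (nat_lit 567021) (.g (nat_lit 1069) (.e (nat_lit 450304) (nat_lit 13) (.e (nat_lit 352307) (nat_lit 21) (.e (nat_lit 57844) (nat_lit 252) (.e (nat_lit 57389) (nat_lit 5) .nil)))) (.g (nat_lit 0) (.e (nat_lit 334719) (nat_lit 0) .nil) .nil)))) (.nd (nat_lit 9) 
(.lf (nat_lit 566765) (.g (nat_lit 2269) (.e (nat_lit 442378) (nat_lit 0) (.e (nat_lit 1784) (nat_lit 119) (.e (nat_lit 516117) (nat_lit 1) (.e (nat_lit 164329) (nat_lit 230) (.e (nat_lit 163941) (nat_lit 19) (.e (nat_lit 491264) (nat_lit 11) .nil)))))) (.g (nat_lit 1) (.e (nat_lit 333137) (nat_lit 0) .nil) .nil))) 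
(.lf (nat_lit 567277) (.g (nat_lit 1085) (.e (nat_lit 442409) (nat_lit 20) (.e (nat_lit 3409) (nat_lit 212) (.e (nat_lit 655378) (nat_lit 4) (.e (nat_lit 172078) (nat_lit 7) (.e (nat_lit 409618) (nat_lit 10) .nil))))) (.g (nat_lit 0) (.e (nat_lit 335764) (nat_lit 0) .nil) .nil)))))))) (.nd (nat_lit 5) (.nd (nat_lit 6) (.nd (nat_lit 7) (.nd (nat_lit 8) (.nd (nat_lit 9) 
(.lf (nat_lit 566301) (.g (nat_lit 2359) (.e (nat_lit 434271) (nat_lit 38) (.e (nat_lit 655380) (nat_lit 6) (.e (nat_lit 188434) (nat_lit 20) (.e (nat_lit 3409) (nat_lit 212) (.e (nat_lit 655378) (nat_lit 4) (.e (nat_lit 172107) (nat_lit 10) .nil)))))) (.g (nat_lit 1) (.e (nat_lit 332010) (nat_lit 0) .nil) .nil))) 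
(.lf (nat_lit 566813) (.g (nat_lit 1918) (.e (nat_lit 442379) (nat_lit 0) (.e (nat_lit 1856) (nat_lit 124) (.e (nat_lit 557098) (nat_lit 13) (.e (nat_lit 172115) (nat_lit 10) (.e (nat_lit 434244) (nat_lit 28) .nil))))) (.g (nat_lit 0) (.e (nat_lit 333203) (nat_lit 0) .nil) .nil)))) (.nd (nat_lit 9) 
(.lf (nat_lit 566557) (.g (nat_lit 3718) (.e (nat_lit 434295) (nat_lit 49) (.e (nat_lit 745491) (nat_lit 4) (.e (nat_lit 65617) (nat_lit 10) (.e (nat_lit 344130) (nat_lit 26) (.e (nat_lit 557119) (nat_lit 18) (.e (nat_lit 2808) (nat_lit 180) (.e (nat_lit 303140) (nat_lit 10) .nil))))))) (.g (nat_lit 1) (.e (nat_lit 332819) (nat_lit 0) .nil) .nil))) 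
(.lf (nat_lit 567069) (.g (nat_lit 1638) (.e (nat_lit 450304) (nat_lit 16) (.e (nat_lit 376860) (nat_lit 21) (.e (nat_lit 57853) (nat_lit 252) (.e (nat_lit 57388) (nat_lit 5) (.e (nat_lit 122624) (nat_lit 13) .nil))))) (.g (nat_lit 0) (.e (nat_lit 334787) (nat_lit 0) .nil) .nil))))) (.nd (nat_lit 8) (.nd (nat_lit 9) 
(.lf (nat_lit 566429) (.g (nat_lit 3195) (.e (nat_lit 434288) (nat_lit 43) (.e (nat_lit 696344) (nat_lit 8) (.e (nat_lit 172107) (nat_lit 10) (.e (nat_lit 434289) (nat_lit 43) (.e (nat_lit 696344) (nat_lit 8) (.e (nat_lit 172106) (nat_lit 10) .nil)))))) (.g (nat_lit 1) (.e (nat_lit 332508) (nat_lit 0) .nil) .nil))) 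
(.lf (nat_lit 566941) (.g (nat_lit 389) (.e (nat_lit 450304) (nat_lit 5) (.e (nat_lit 114711) (nat_lit 21) (.e (nat_lit 57848) (nat_lit 252) .nil))) (.g (nat_lit 0) (.e (nat_lit 333408) (nat_lit 0) .nil) .nil)))) (.nd (nat_lit 9) 
(.lf (nat_lit 566685) (.g (nat_lit 1992) (.e (nat_lit 442374) (nat_lit 0) (.e (nat_lit 2059) (nat_lit 142) (.e (nat_lit 704595) (nat_lit 5) (.e (nat_lit 180275) (nat_lit 32) (.e (nat_lit 1515) (nat_lit 108) (.e (nat_lit 343808) (nat_lit 29) .nil)))))) (.g (nat_lit 1) (.e (nat_lit 333002) (nat_lit 0) .nil) .nil))) 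
(.lf (nat_lit 567197) (.g (nat_lit 1176) (.e (nat_lit 442403) (nat_lit 20) (.e (nat_lit 3409) (nat_lit 212) (.e (nat_lit 655378) (nat_lit 4) (.e (nat_lit 172079) (nat_lit 7) (.e (nat_lit 409642) (nat_lit 17) .nil))))) (.g (nat_lit 0) (.e (nat_lit 335357) (nat_lit 0) .nil) .nil)))))) (.nd (nat_lit 7) (.nd (nat_lit 8) (.nd (nat_lit 9) 
(.lf (nat_lit 566365) (.g (nat_lit 1039) (.e (nat_lit 434272) (nat_lit 38) (.e (nat_lit 655378) (nat_lit 4) (.e (nat_lit 172124) (nat_lit 14) (.e (nat_lit 491549) (nat_lit 9) .nil)))) (.g (nat_lit 0) (.e (nat_lit 332300) (nat_lit 0) .nil) .nil))) 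
(.lf (nat_lit 566877) (.g (nat_lit 1481) (.e (nat_lit 450304) (nat_lit 3) (.e (nat_lit 98334) (nat_lit 18) (.e (nat_lit 164330) (nat_lit 230) (.e (nat_lit 163902) (nat_lit 12) .nil)))) (.g (nat_lit 0) (.e (nat_lit 333324) (nat_lit 0) .nil) .nil)))) (.nd (nat_lit 9) 
(.lf (nat_lit 566621) (.g (nat_lit 2037) (.e (nat_lit 442373) (nat_lit 0) (.e (nat_lit 1853) (nat_lit 124) (.e (nat_lit 557107) (nat_lit 15) (.e (nat_lit 188441) (nat_lit 20) (.e (nat_lit 3272) (nat_lit 199) (.e (nat_lit 548898) (nat_lit 14) (.e (nat_lit 2988) (nat_lit 186) .nil))))))) (.g (nat_lit 1) (.e (nat_lit 332921) (nat_lit 0) .nil) .nil))) 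
(.lf (nat_lit 567133) (.g (nat_lit 1222) (.e (nat_lit 450304) (nat_lit 18) (.e (nat_lit 393254) (nat_lit 18) (.e (nat_lit 164332) (nat_lit 230) (.e (nat_lit 163873) (nat_lit 3) (.e (nat_lit 212736) (nat_lit 11) .nil))))) (.g (nat_lit 0) (.e (nat_lit 334909) (nat_lit 0) .nil) .nil))))) (.nd (nat_lit 8) (.nd (nat_lit 9) 
(.lf (nat_lit 566493) (.g (nat_lit 3565) (.e (nat_lit 434289) (nat_lit 43) (.e (nat_lit 696344) (nat_lit 8) (.e (nat_lit 172115) (nat_lit 10) (.e (nat_lit 434289) (nat_lit 43) (.e (nat_lit 696344) (nat_lit 8) (.e (nat_lit 172112) (nat_lit 10) .nil)))))) (.g (nat_lit 1) (.e (nat_lit 332687) (nat_lit 0) .nil) .nil))) 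
(.lf (nat_lit 567005) (.g (nat_lit 2490) (.e (nat_lit 442390) (nat_lit 11) (.e (nat_lit 336232) (nat_lit 14) (.e (nat_lit 401448) (nat_lit 10) (.e (nat_lit 434287) (nat_lit 43) (.e (nat_lit 696329) (nat_lit 5) (.e (nat_lit 3004) (nat_lit 186) .nil)))))) (.g (nat_lit 1) (.e (nat_lit 334601) (nat_lit 0) .nil) .nil)))) (.nd (nat_lit 9) 
(.lf (nat_lit 566749) (.g (nat_lit 2989) (.e (nat_lit 442377) (nat_lit 0) (.e (nat_lit 1856) (nat_lit 124) (.e (nat_lit 557101) (nat_lit 13) (.e (nat_lit 172115) (nat_lit 10) (.e (nat_lit 434244) (nat_lit 28) (.e (nat_lit 573458) (nat_lit 9) (.e (nat_lit 7936) (nat_lit 34) .nil))))))) (.g (nat_lit 1) (.e (nat_lit 333110) (nat_lit 0) .nil) .nil))) 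
(.lf (nat_lit 567261) (.g (nat_lit 2327) (.e (nat_lit 442409) (nat_lit 20) (.e (nat_lit 3390) (nat_lit 210) (.e (nat_lit 639021) (nat_lit 16) (.e (nat_lit 65610) (nat_lit 10) (.e (nat_lit 344160) (nat_lit 37) (.e (nat_lit 647190) (nat_lit 9) (.e (nat_lit 7936) (nat_lit 34) .nil))))))) (.g (nat_lit 1) (.e (nat_lit 335697) (nat_lit 0) .nil) .nil))))))) 
(.nd (nat_lit 6) (.nd (nat_lit 7) (.nd (nat_lit 8) (.nd (nat_lit 9) 
(.lf (nat_lit 566333) (.g (nat_lit 2924) (.e (nat_lit 434272) (nat_lit 38) (.e (nat_lit 655375) (nat_lit 3) (.e (nat_lit 163978) (nat_lit 30) (.e (nat_lit 573480) (nat_lit 13) (.e (nat_lit 65604) (nat_lit 9) (.e (nat_lit 336028) (nat_lit 3) (.e (nat_lit 98366) (nat_lit 27) .nil))))))) (.g (nat_lit 1) (.e (nat_lit 332114) (nat_lit 0) .nil) .nil))) 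
(.lf (nat_lit 566845) (.g (nat_lit 1345) (.e (nat_lit 442379) (nat_lit 0) (.e (nat_lit 2175) (nat_lit 143) (.e (nat_lit 712745) (nat_lit 27) (.e (nat_lit 425984) (nat_lit 0) (.e (nat_lit 7588) (nat_lit 406) (.e (nat_lit 73472) (nat_lit 29) .nil)))))) (.g (nat_lit 1) (.e (nat_lit 333264) (nat_lit 0) .nil) .nil)))) (.nd (nat_lit 9) 
(.lf (nat_lit 566589) (.g (nat_lit 1214) (.e (nat_lit 442372) (nat_lit 0) (.e (nat_lit 2058) (nat_lit 142) (.e (nat_lit 704592) (nat_lit 4) (.e (nat_lit 172126) (nat_lit 14) .nil)))) (.g (nat_lit 0) (.e (nat_lit 332884) (nat_lit 0) .nil) .nil))) 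
(.lf (nat_lit 567101) (.g (nat_lit 1620) (.e (nat_lit 450304) (nat_lit 18) (.e (nat_lit 393253) (nat_lit 18) (.e (nat_lit 164326) (nat_lit 230) (.e (nat_lit 163868) (nat_lit 2) (.e (nat_lit 196618) (nat_lit 9) .nil))))) (.g (nat_lit 0) (.e (nat_lit 334864) (nat_lit 0) .nil) .nil))))) (.nd (nat_lit 8) (.nd (nat_lit 9) 
(.lf (nat_lit 566461) (.g (nat_lit 623) (.e (nat_lit 434289) (nat_lit 43) (.e (nat_lit 696344) (nat_lit 8) (.e (nat_lit 172105) (nat_lit 10) .nil))) (.g (nat_lit 0) (.e (nat_lit 332652) (nat_lit 0) .nil) .nil))) 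
(.lf (nat_lit 566973) (.g (nat_lit 2576) (.e (nat_lit 442390) (nat_lit 11) (.e (nat_lit 335986) (nat_lit 1) (.e (nat_lit 57691) (nat_lit 156) (.e (nat_lit 163907) (nat_lit 12) (.e (nat_lit 426437) (nat_lit 18) (.e (nat_lit 98369) (nat_lit 28) .nil)))))) (.g (nat_lit 1) (.e (nat_lit 334385) (nat_lit 0) .nil) .nil)))) (.nd (nat_lit 9) 
(.lf (nat_lit 566717) (.g (nat_lit 1916) (.e (nat_lit 442374) (nat_lit 0) (.e (nat_lit 2175) (nat_lit 143) (.e (nat_lit 712753) (nat_lit 30) (.e (nat_lit 450593) (nat_lit 16) (.e (nat_lit 655363) (nat_lit 0) (.e (nat_lit 2988) (nat_lit 186) .nil)))))) (.g (nat_lit 1) (.e (nat_lit 333043) (nat_lit 0) .nil) .nil))) 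
(.lf (nat_lit 567229) (.g (nat_lit 3861) (.e (nat_lit 442406) (nat_lit 20) (.e (nat_lit 3238) (nat_lit 197) (.e (nat_lit 532523) (nat_lit 7) (.e (nat_lit 319531) (nat_lit 16) (.e (nat_lit 286727) (nat_lit 0) (.e (nat_lit 1799) (nat_lit 119) (.e (nat_lit 516164) (nat_lit 11) .nil))))))) (.g (nat_lit 1) (.e (nat_lit 335435) (nat_lit 0) .nil) .nil)))))) 
(.nd (nat_lit 7) (.nd (nat_lit 8) (.nd (nat_lit 9) 
(.lf (nat_lit 566397) (.g (nat_lit 2676) (.e (nat_lit 434272) (nat_lit 38) (.e (nat_lit 655380) (nat_lit 6) (.e (nat_lit 188441) (nat_lit 20) (.e (nat_lit 3409) (nat_lit 212) (.e (nat_lit 655378) (nat_lit 4) (.e (nat_lit 172116) (nat_lit 10) .nil)))))) (.g (nat_lit 1) (.e (nat_lit 332371) (nat_lit 0) .nil) .nil))) 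
(.lf (nat_lit 566909) (.g (nat_lit 2498) (.e (nat_lit 450304) (nat_lit 3) (.e (nat_lit 98335) (nat_lit 18) (.e (nat_lit 164330) (nat_lit 230) (.e (nat_lit 163913) (nat_lit 12) (.e (nat_lit 426483) (nat_lit 27) .nil))))) (.g (nat_lit 0) (.e (nat_lit 333368) (nat_lit 0) .nil) .nil)))) (.nd (nat_lit 9) 
(.lf (nat_lit 566653) (.g (nat_lit 2908) (.e (nat_lit 442374) (nat_lit 0) (.e (nat_lit 1846) (nat_lit 124) (.e (nat_lit 557101) (nat_lit 13) (.e (nat_lit 172115) (nat_lit 10) (.e (nat_lit 434238) (nat_lit 25) (.e (nat_lit 548898) (nat_lit 14) (.e (nat_lit 2988) (nat_lit 186) .nil))))))) (.g (nat_lit 1) (.e (nat_lit 332959) (nat_lit 0) .nil) .nil))) 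
(.lf (nat_lit 567165) (.g (nat_lit 1309) (.e (nat_lit 442399) (nat_lit 20) (.e (nat_lit 3572) (nat_lit 222) (.e (nat_lit 737299) (nat_lit 7) (.e (nat_lit 286747) (nat_lit 9) (.e (nat_lit 336013) (nat_lit 2) (.e (nat_lit 98048) (nat_lit 0) (.e (nat_lit 461) (nat_lit 34) .nil))))))) (.g (nat_lit 1) (.e (nat_lit 335184) (nat_lit 0) .nil) .nil))))) (.nd (nat_lit 8) (.nd (nat_lit 9) 
(.lf (nat_lit 566525) (.g (nat_lit 3398) (.e (nat_lit 434289) (nat_lit 43) (.e (nat_lit 696346) (nat_lit 10) (.e (nat_lit 188441) (nat_lit 20) (.e (nat_lit 3469) (nat_lit 217) (.e (nat_lit 696344) (nat_lit 8) (.e (nat_lit 172107) (nat_lit 10) .nil)))))) (.g (nat_lit 1) (.e (nat_lit 332744) (nat_lit 0) .nil) .nil))) 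
(.lf (nat_lit 567037) (.g (nat_lit 1302) (.e (nat_lit 450304) (nat_lit 16) (.e (nat_lit 376857) (nat_lit 21) (.e (nat_lit 57846) (nat_lit 252) (.e (nat_lit 57388) (nat_lit 5) (.e (nat_lit 122624) (nat_lit 13) .nil))))) (.g (nat_lit 0) (.e (nat_lit 334750) (nat_lit 0) .nil) .nil)))) (.nd (nat_lit 9) 
(.lf (nat_lit 566781) (.g (nat_lit 1290) (.e (nat_lit 442378) (nat_lit 0) (.e (nat_lit 1856) (nat_lit 124) (.e (nat_lit 557107) (nat_lit 15) (.e (nat_lit 188440) (nat_lit 20) .nil)))) (.g (nat_lit 0) (.e (nat_lit 333155) (nat_lit 0) .nil) .nil))) 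
(.lf (nat_lit 567293) (.g (nat_lit 3523) (.e (nat_lit 442411) (nat_lit 20) (.e (nat_lit 3271) (nat_lit 199) (.e (nat_lit 548913) (nat_lit 18) (.e (nat_lit 172126) (nat_lit 14) (.e (nat_lit 491524) (nat_lit 0) (.e (nat_lit 1812) (nat_lit 120) (.e (nat_lit 524319) (nat_lit 11) .nil))))))) (.g (nat_lit 1) (.e (nat_lit 335867) (nat_lit 0) .nil) .nil))))))))))) 
(.nd (nat_lit 2) (.nd (nat_lit 3) (.nd (nat_lit 4) (.nd (nat_lit 5) (.nd (nat_lit 6) 
(.nd (nat_lit 7) (.nd (nat_lit 8) (.nd (nat_lit 9) 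
(.lf (nat_lit 566275) (.g (nat_lit 3742) (.e (nat_lit 434271) (nat_lit 38) (.e (nat_lit 655375) (nat_lit 3) (.e (nat_lit 163979) (nat_lit 30) (.e (nat_lit 573481) (nat_lit 13) (.e (nat_lit 65604) (nat_lit 9) (.e (nat_lit 336028) (nat_lit 3) (.e (nat_lit 98366) (nat_lit 27) .nil))))))) (.g (nat_lit 1) (.e (nat_lit 331893) (nat_lit 0) .nil) .nil))) 
(.lf (nat_lit 566787) (.g (nat_lit 1126) (.e (nat_lit 442378) (nat_lit 0) (.e (nat_lit 2059) (nat_lit 142) (.e (nat_lit 704596) (nat_lit 5) (.e (nat_lit 180277) (nat_lit 32) .nil)))) (.g (nat_lit 0) (.e (nat_lit 333162) (nat_lit 0) .nil) .nil)))) (.nd (nat_lit 9) 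
(.lf (nat_lit 566531) (.g (nat_lit 2261) (.e (nat_lit 434291) (nat_lit 44) (.e (nat_lit 704738) (nat_lit 11) (.e (nat_lit 16425) (nat_lit 7) (.e (nat_lit 409617) (nat_lit 10) (.e (nat_lit 848) (nat_lit 73) (.e (nat_lit 761900) (nat_lit 16) (.e (nat_lit 172108) (nat_lit 10) .nil))))))) (.g (nat_lit 1) (.e (nat_lit 332770) (nat_lit 0) .nil) .nil))) 
(.lf (nat_lit 567043) (.g (nat_lit 1359) (.e (nat_lit 450304) (nat_lit 16) (.e (nat_lit 376857) (nat_lit 21) (.e (nat_lit 57849) (nat_lit 252) (.e (nat_lit 57388) (nat_lit 5) (.e (nat_lit 122624) (nat_lit 13) .nil))))) (.g (nat_lit 0) (.e (nat_lit 334756) (nat_lit 0) .nil) .nil))))) (.nd (nat_lit 8) (.nd (nat_lit 9) 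
(.lf (nat_lit 566403) (.g (nat_lit 4510) (.e (nat_lit 434272) (nat_lit 38) (.e (nat_lit 655380) (nat_lit 6) (.e (nat_lit 188455) (nat_lit 24) (.e (nat_lit 229678) (nat_lit 244) (.e (nat_lit 163908) (nat_lit 12) (.e (nat_lit 426285) (nat_lit 10) .nil)))))) (.g (nat_lit 1) (.e (nat_lit 332384) (nat_lit 0) .nil) .nil))) 
(.lf (nat_lit 566915) (.g (nat_lit 2593) (.e (nat_lit 450304) (nat_lit 3) (.e (nat_lit 98335) (nat_lit 18) (.e (nat_lit 164332) (nat_lit 230) (.e (nat_lit 163905) (nat_lit 12) (.e (nat_lit 426478) (nat_lit 27) .nil))))) (.g (nat_lit 0) (.e (nat_lit 333376) (nat_lit 0) .nil) .nil)))) (.nd (nat_lit 9) 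
(.lf (nat_lit 566659) (.g (nat_lit 1726) (.e (nat_lit 442374) (nat_lit 0) (.e (nat_lit 1856) (nat_lit 124) (.e (nat_lit 557098) (nat_lit 13) (.e (nat_lit 172112) (nat_lit 10) .nil)))) (.g (nat_lit 0) (.e (nat_lit 332969) (nat_lit 0) .nil) .nil))) 
(.lf (nat_lit 567171) (.g (nat_lit 2262) (.e (nat_lit 442402) (nat_lit 20) (.e (nat_lit 3272) (nat_lit 199) (.e (nat_lit 548913) (nat_lit 18) (.e (nat_lit 172126) (nat_lit 14) (.e (nat_lit 491524) (nat_lit 0) (.e (nat_lit 1812) (nat_lit 120) (.e (nat_lit 524319) (nat_lit 11) .nil))))))) (.g (nat_lit 1) (.e (nat_lit 335262) (nat_lit 0) .nil) .nil)))))) 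
(.nd (nat_lit 7) (.nd (nat_lit 8) (.nd (nat_lit 9) 
(.lf (nat_lit 566339) (.g (nat_lit 2876) (.e (nat_lit 434272) (nat_lit 38) (.e (nat_lit 655375) (nat_lit 3) (.e (nat_lit 163978) (nat_lit 30) (.e (nat_lit 573482) (nat_lit 13) (.e (nat_lit 65618) (nat_lit 10) .nil))))) (.g (nat_lit 0) (.e (nat_lit 332120) (nat_lit 0) .nil) .nil))) 
(.lf (nat_lit 566851) (.g (nat_lit 1340) (.e (nat_lit 450304) (nat_lit 0) (.e (nat_lit 1796) (nat_lit 119) (.e (nat_lit 516120) (nat_lit 1) (.e (nat_lit 164329) (nat_lit 230) (.e (nat_lit 163941) (nat_lit 19) .nil))))) (.g (nat_lit 0) (.e (nat_lit 333277) (nat_lit 0) .nil) .nil)))) (.nd (nat_lit 9) 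
(.lf (nat_lit 566595) (.g (nat_lit 1309) (.e (nat_lit 442373) (nat_lit 0) (.e (nat_lit 1796) (nat_lit 119) (.e (nat_lit 516120) (nat_lit 1) (.e (nat_lit 164329) (nat_lit 230) (.e (nat_lit 163942) (nat_lit 19) .nil))))) (.g (nat_lit 0) (.e (nat_lit 332893) (nat_lit 0) .nil) .nil))) 
(.lf (nat_lit 567107) (.g (nat_lit 1655) (.e (nat_lit 450304) (nat_lit 18) (.e (nat_lit 393253) (nat_lit 18) (.e (nat_lit 164327) (nat_lit 230) (.e (nat_lit 163875) (nat_lit 3) (.e (nat_lit 212736) (nat_lit 11) .nil))))) (.g (nat_lit 0) (.e (nat_lit 334870) (nat_lit 0) .nil) .nil))))) (.nd (nat_lit 8) (.nd (nat_lit 9) 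
(.lf (nat_lit 566467) (.g (nat_lit 2296) (.e (nat_lit 434289) (nat_lit 43) (.e (nat_lit 696344) (nat_lit 8) (.e (nat_lit 172106) (nat_lit 10) (.e (nat_lit 434209) (nat_lit 18) (.e (nat_lit 6427) (nat_lit 342) (.e (nat_lit 229402) (nat_lit 12) (.e (nat_lit 426279) (nat_lit 10) .nil))))))) (.g (nat_lit 1) (.e (nat_lit 332658) (nat_lit 0) .nil) .nil))) 
(.lf (nat_lit 566979) (.g (nat_lit 2844) (.e (nat_lit 442390) (nat_lit 11) (.e (nat_lit 336229) (nat_lit 14) (.e (nat_lit 401448) (nat_lit 10) (.e (nat_lit 434289) (nat_lit 43) (.e (nat_lit 696329) (nat_lit 5) (.e (nat_lit 2988) (nat_lit 186) .nil)))))) (.g (nat_lit 1) (.e (nat_lit 334432) (nat_lit 0) .nil) .nil)))) (.nd (nat_lit 9) 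
(.lf (nat_lit 566723) (.g (nat_lit 2373) (.e (nat_lit 442376) (nat_lit 0) (.e (nat_lit 2143) (nat_lit 142) (.e (nat_lit 704591) (nat_lit 4) (.e (nat_lit 172126) (nat_lit 14) (.e (nat_lit 491550) (nat_lit 9) (.e (nat_lit 336430) (nat_lit 29) .nil)))))) (.g (nat_lit 1) (.e (nat_lit 333052) (nat_lit 0) .nil) .nil))) 
(.lf (nat_lit 567235) (.g (nat_lit 3547) (.e (nat_lit 442406) (nat_lit 20) (.e (nat_lit 3238) (nat_lit 197) (.e (nat_lit 532523) (nat_lit 7) (.e (nat_lit 319533) (nat_lit 16) (.e (nat_lit 286732) (nat_lit 2) (.e (nat_lit 90134) (nat_lit 9) (.e (nat_lit 3002) (nat_lit 186) .nil))))))) (.g (nat_lit 1) (.e (nat_lit 335441) (nat_lit 0) .nil) .nil))))))) 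
(.nd (nat_lit 6) (.nd (nat_lit 7) (.nd (nat_lit 8) (.nd (nat_lit 9) 
(.lf (nat_lit 566307) (.g (nat_lit 2122) (.e (nat_lit 434271) (nat_lit 38) (.e (nat_lit 655380) (nat_lit 6) (.e (nat_lit 188440) (nat_lit 20) (.e (nat_lit 3409) (nat_lit 212) (.e (nat_lit 655378) (nat_lit 4) (.e (nat_lit 172112) (nat_lit 10) .nil)))))) (.g (nat_lit 1) (.e (nat_lit 332016) (nat_lit 0) .nil) .nil))) 
(.lf (nat_lit 566819) (.g (nat_lit 2914) (.e (nat_lit 442379) (nat_lit 0) (.e (nat_lit 1856) (nat_lit 124) (.e (nat_lit 557100) (nat_lit 13) (.e (nat_lit 172113) (nat_lit 10) (.e (nat_lit 434248) (nat_lit 28) (.e (nat_lit 573448) (nat_lit 9) (.e (nat_lit 459) (nat_lit 34) .nil))))))) (.g (nat_lit 1) (.e (nat_lit 333209) (nat_lit 0) .nil) .nil)))) (.nd (nat_lit 9) 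
(.lf (nat_lit 566563) (.g (nat_lit 3548) (.e (nat_lit 434295) (nat_lit 49) (.e (nat_lit 745491) (nat_lit 4) (.e (nat_lit 65619) (nat_lit 10) (.e (nat_lit 344129) (nat_lit 26) (.e (nat_lit 557119) (nat_lit 18) (.e (nat_lit 2808) (nat_lit 180) (.e (nat_lit 303140) (nat_lit 10) .nil))))))) (.g (nat_lit 1) (.e (nat_lit 332825) (nat_lit 0) .nil) .nil))) 
(.lf (nat_lit 567075) (.g (nat_lit 1601) (.e (nat_lit 450304) (nat_lit 18) (.e (nat_lit 393251) (nat_lit 18) (.e (nat_lit 164325) (nat_lit 230) (.e (nat_lit 163873) (nat_lit 3) (.e (nat_lit 212736) (nat_lit 11) .nil))))) (.g (nat_lit 0) (.e (nat_lit 334812) (nat_lit 0) .nil) .nil))))) (.nd (nat_lit 8) (.nd (nat_lit 9) 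
(.lf (nat_lit 566435) (.g (nat_lit 1567) (.e (nat_lit 434288) (nat_lit 43) (.e (nat_lit 696344) (nat_lit 8) (.e (nat_lit 172115) (nat_lit 10) (.e (nat_lit 434202) (nat_lit 18) (.e (nat_lit 6416) (nat_lit 341) .nil))))) (.g (nat_lit 0) (.e (nat_lit 332514) (nat_lit 0) .nil) .nil))) 
(.lf (nat_lit 566947) (.g (nat_lit 2654) (.e (nat_lit 442385) (nat_lit 11) (.e (nat_lit 335995) (nat_lit 1) (.e (nat_lit 57688) (nat_lit 156) (.e (nat_lit 163902) (nat_lit 12) (.e (nat_lit 426434) (nat_lit 18) (.e (nat_lit 98370) (nat_lit 28) .nil)))))) (.g (nat_lit 1) (.e (nat_lit 333830) (nat_lit 0) .nil) .nil)))) (.nd (nat_lit 9) 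
(.lf (nat_lit 566691) (.g (nat_lit 2131) (.e (nat_lit 442374) (nat_lit 0) (.e (nat_lit 2059) (nat_lit 142) (.e (nat_lit 704595) (nat_lit 5) (.e (nat_lit 180285) (nat_lit 45) (.e (nat_lit 2787) (nat_lit 179) (.e (nat_lit 302848) (nat_lit 29) .nil)))))) (.g (nat_lit 1) (.e (nat_lit 333008) (nat_lit 0) .nil) .nil))) 
(.lf (nat_lit 567203) (.g (nat_lit 2937) (.e (nat_lit 442404) (nat_lit 20) (.e (nat_lit 3238) (nat_lit 197) (.e (nat_lit 532523) (nat_lit 7) (.e (nat_lit 319532) (nat_lit 16) (.e (nat_lit 286733) (nat_lit 2) (.e (nat_lit 90134) (nat_lit 9) (.e (nat_lit 3002) (nat_lit 186) .nil))))))) (.g (nat_lit 1) (.e (nat_lit 335380) (nat_lit 0) .nil) .nil)))))) 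
(.nd (nat_lit 7) (.nd (nat_lit 8) (.nd (nat_lit 9) 
(.lf (nat_lit 566371) (.g (nat_lit 3578) (.e (nat_lit 434272) (nat_lit 38) (.e (nat_lit 655378) (nat_lit 4) (.e (nat_lit 172126) (nat_lit 14) (.e (nat_lit 491549) (nat_lit 9) (.e (nat_lit 336395) (nat_lit 27) (.e (nat_lit 426276) (nat_lit 10) .nil)))))) (.g (nat_lit 1) (.e (nat_lit 332329) (nat_lit 0) .nil) .nil))) 
(.lf (nat_lit 566883) (.g (nat_lit 1655) (.e (nat_lit 450304) (nat_lit 3) (.e (nat_lit 98334) (nat_lit 18) (.e (nat_lit 164330) (nat_lit 230) (.e (nat_lit 163941) (nat_lit 19) (.e (nat_lit 491264) (nat_lit 11) .nil))))) (.g (nat_lit 0) (.e (nat_lit 333331) (nat_lit 0) .nil) .nil)))) (.nd (nat_lit 9) 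
(.lf (nat_lit 566627) (.g (nat_lit 2008) (.e (nat_lit 442374) (nat_lit 0) (.e (nat_lit 1800) (nat_lit 119) (.e (nat_lit 516117) (nat_lit 1) (.e (nat_lit 164332) (nat_lit 230) (.e (nat_lit 163942) (nat_lit 19) (.e (nat_lit 491264) (nat_lit 11) .nil)))))) (.g (nat_lit 1) (.e (nat_lit 332932) (nat_lit 0) .nil) .nil))) 
(.lf (nat_lit 567139) (.g (nat_lit 3210) (.e (nat_lit 442391) (nat_lit 19) (.e (nat_lit 401414) (nat_lit 0) (.e (nat_lit 3459) (nat_lit 216) (.e (nat_lit 688139) (nat_lit 5) (.e (nat_lit 3062) (nat_lit 190) (.e (nat_lit 475179) (nat_lit 24) (.e (nat_lit 516164) (nat_lit 11) .nil))))))) (.g (nat_lit 1) (.e (nat_lit 334919) (nat_lit 0) .nil) .nil))))) (.nd (nat_lit 8) (.nd (nat_lit 9) 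
(.lf (nat_lit 566499) (.g (nat_lit 3603) (.e (nat_lit 434289) (nat_lit 43) (.e (nat_lit 696346) (nat_lit 10) (.e (nat_lit 188421) (nat_lit 11) (.e (nat_lit 336231) (nat_lit 14) (.e (nat_lit 401448) (nat_lit 10) .nil))))) (.g (nat_lit 1) (.e (nat_lit 332716) (nat_lit 0) .nil) .nil))) 
(.lf (nat_lit 567011) (.g (nat_lit 1345) (.e (nat_lit 442390) (nat_lit 11) (.e (nat_lit 336387) (nat_lit 27) (.e (nat_lit 426098) (nat_lit 1) (.e (nat_lit 164402) (nat_lit 256) .nil)))) (.g (nat_lit 0) (.e (nat_lit 334632) (nat_lit 0) .nil) .nil)))) (.nd (nat_lit 9) 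
(.lf (nat_lit 566755) (.g (nat_lit 1185) (.e (nat_lit 442377) (nat_lit 0) (.e (nat_lit 2059) (nat_lit 142) (.e (nat_lit 704595) (nat_lit 5) (.e (nat_lit 188160) (nat_lit 45) .nil)))) (.g (nat_lit 0) (.e (nat_lit 333124) (nat_lit 0) .nil) .nil))) 
(.lf (nat_lit 567267) (.g (nat_lit 2333) (.e (nat_lit 442409) (nat_lit 20) (.e (nat_lit 3391) (nat_lit 210) (.e (nat_lit 639021) (nat_lit 16) (.e (nat_lit 65617) (nat_lit 10) (.e (nat_lit 344161) (nat_lit 37) (.e (nat_lit 647190) (nat_lit 9) (.e (nat_lit 7936) (nat_lit 34) .nil))))))) (.g (nat_lit 1) (.e (nat_lit 335703) (nat_lit 0) .nil) .nil)))))))) 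
(.nd (nat_lit 5) (.nd (nat_lit 6) (.nd (nat_lit 7) (.nd (nat_lit 8) (.nd (nat_lit 9) 
(.lf (nat_lit 566291) (.g (nat_lit 3242) (.e (nat_lit 434271) (nat_lit 38) (.e (nat_lit 655378) (nat_lit 4) (.e (nat_lit 172126) (nat_lit 14) (.e (nat_lit 491549) (nat_lit 9) (.e (nat_lit 336395) (nat_lit 27) (.e (nat_lit 426285) (nat_lit 10) .nil)))))) (.g (nat_lit 1) (.e (nat_lit 331989) (nat_lit 0) .nil) .nil))) 
(.lf (nat_lit 566803) (.g (nat_lit 2144) (.e (nat_lit 442379) (nat_lit 0) (.e (nat_lit 1800) (nat_lit 119) (.e (nat_lit 516119) (nat_lit 1) (.e (nat_lit 164324) (nat_lit 230) (.e (nat_lit 163903) (nat_lit 12) .nil))))) (.g (nat_lit 0) (.e (nat_lit 333193) (nat_lit 0) .nil) .nil)))) (.nd (nat_lit 9) 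
(.lf (nat_lit 566547) (.g (nat_lit 1672) (.e (nat_lit 434292) (nat_lit 44) (.e (nat_lit 704738) (nat_lit 11) (.e (nat_lit 16425) (nat_lit 7) (.e (nat_lit 417536) (nat_lit 3) .nil)))) (.g (nat_lit 0) (.e (nat_lit 332801) (nat_lit 0) .nil) .nil))) 
(.lf (nat_lit 567059) (.g (nat_lit 1212) (.e (nat_lit 450304) (nat_lit 16) (.e (nat_lit 376859) (nat_lit 21) (.e (nat_lit 57847) (nat_lit 252) (.e (nat_lit 57388) (nat_lit 5) (.e (nat_lit 122624) (nat_lit 13) .nil))))) (.g (nat_lit 0) (.e (nat_lit 334776) (nat_lit 0) .nil) .nil))))) (.nd (nat_lit 8) (.nd (nat_lit 9) 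
(.lf (nat_lit 566419) (.g (nat_lit 2296) (.e (nat_lit 434287) (nat_lit 43) (.e (nat_lit 696344) (nat_lit 8) (.e (nat_lit 172116) (nat_lit 10) (.e (nat_lit 434289) (nat_lit 43) (.e (nat_lit 696344) (nat_lit 8) (.e (nat_lit 172113) (nat_lit 10) .nil)))))) (.g (nat_lit 1) (.e (nat_lit 332480) (nat_lit 0) .nil) .nil))) 
(.lf (nat_lit 566931) (.g (nat_lit 400) (.e (nat_lit 450304) (nat_lit 3) (.e (nat_lit 98342) (nat_lit 20) (.e (nat_lit 221193) (nat_lit 11) .nil))) (.g (nat_lit 0) (.e (nat_lit 333396) (nat_lit 0) .nil) .nil)))) (.nd (nat_lit 9) 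
(.lf (nat_lit 566675) (.g (nat_lit 2946) (.e (nat_lit 442374) (nat_lit 0) (.e (nat_lit 1856) (nat_lit 124) (.e (nat_lit 557107) (nat_lit 15) (.e (nat_lit 188440) (nat_lit 20) (.e (nat_lit 3272) (nat_lit 199) (.e (nat_lit 548897) (nat_lit 14) (.e (nat_lit 2988) (nat_lit 186) .nil))))))) (.g (nat_lit 1) (.e (nat_lit 332985) (nat_lit 0) .nil) .nil))) 
(.lf (nat_lit 567187) (.g (nat_lit 2877) (.e (nat_lit 442402) (nat_lit 20) (.e (nat_lit 3409) (nat_lit 212) (.e (nat_lit 655378) (nat_lit 4) (.e (nat_lit 172124) (nat_lit 14) (.e (nat_lit 491550) (nat_lit 9) (.e (nat_lit 336430) (nat_lit 29) .nil)))))) (.g (nat_lit 1) (.e (nat_lit 335287) (nat_lit 0) .nil) .nil)))))) (.nd (nat_lit 7) (.nd (nat_lit 8) (.nd (nat_lit 9) 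
(.lf (nat_lit 566355) (.g (nat_lit 801) (.e (nat_lit 434272) (nat_lit 38) (.e (nat_lit 655376) (nat_lit 4) (.e (nat_lit 172126) (nat_lit 14) (.e (nat_lit 491568) (nat_lit 13) .nil)))) (.g (nat_lit 0) (.e (nat_lit 332212) (nat_lit 0) .nil) .nil))) 
(.lf (nat_lit 566867) (.g (nat_lit 2241) (.e (nat_lit 450304) (nat_lit 3) (.e (nat_lit 98333) (nat_lit 18) (.e (nat_lit 164327) (nat_lit 230) (.e (nat_lit 163903) (nat_lit 12) (.e (nat_lit 426479) (nat_lit 27) .nil))))) (.g (nat_lit 0) (.e (nat_lit 333308) (nat_lit 0) .nil) .nil)))) (.nd (nat_lit 9) 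
(.lf (nat_lit 566611) (.g (nat_lit 2044) (.e (nat_lit 442373) (nat_lit 0) (.e (nat_lit 1853) (nat_lit 124) (.e (nat_lit 557104) (nat_lit 14) (.e (nat_lit 180278) (nat_lit 32) (.e (nat_lit 1235) (nat_lit 91) .nil))))) (.g (nat_lit 0) (.e (nat_lit 332911) (nat_lit 0) .nil) .nil))) 
(.lf (nat_lit 567123) (.g (nat_lit 1143) (.e (nat_lit 450304) (nat_lit 18) (.e (nat_lit 393254) (nat_lit 18) (.e (nat_lit 164325) (nat_lit 230) (.e (nat_lit 163873) (nat_lit 3) (.e (nat_lit 212736) (nat_lit 11) .nil))))) (.g (nat_lit 0) (.e (nat_lit 334898) (nat_lit 0) .nil) .nil))))) (.nd (nat_lit 8) (.nd (nat_lit 9) 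
(.lf (nat_lit 566483) (.g (nat_lit 3355) (.e (nat_lit 434289) (nat_lit 43) (.e (nat_lit 696344) (nat_lit 8) (.e (nat_lit 172113) (nat_lit 10) (.e (nat_lit 434289) (nat_lit 43) (.e (nat_lit 696343) (nat_lit 8) (.e (nat_lit 172116) (nat_lit 10) .nil)))))) (.g (nat_lit 1) (.e (nat_lit 332676) (nat_lit 0) .nil) .nil))) 
(.lf (nat_lit 566995) (.g (nat_lit 3966) (.e (nat_lit 442390) (nat_lit 11) (.e (nat_lit 336232) (nat_lit 14) (.e (nat_lit 401446) (nat_lit 10) (.e (nat_lit 434209) (nat_lit 18) (.e (nat_lit 6425) (nat_lit 342) (.e (nat_lit 229412) (nat_lit 14) .nil)))))) (.g (nat_lit 1) (.e (nat_lit 334553) (nat_lit 0) .nil) .nil)))) (.nd (nat_lit 9) 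
(.lf (nat_lit 566739) (.g (nat_lit 1229) (.e (nat_lit 442377) (nat_lit 0) (.e (nat_lit 1800) (nat_lit 119) (.e (nat_lit 516119) (nat_lit 1) (.e (nat_lit 164325) (nat_lit 230) .nil)))) (.g (nat_lit 0) (.e (nat_lit 333100) (nat_lit 0) .nil) .nil))) 
(.lf (nat_lit 567251) (.g (nat_lit 2102) (.e (nat_lit 442408) (nat_lit 20) (.e (nat_lit 3298) (nat_lit 202) (.e (nat_lit 573450) (nat_lit 9) (.e (nat_lit 375) (nat_lit 32) (.e (nat_lit 426173) (nat_lit 7) .nil))))) (.g (nat_lit 0) (.e (nat_lit 335527) (nat_lit 0) .nil) .nil))))))) (.nd (nat_lit 6) (.nd (nat_lit 7) (.nd (nat_lit 8) (.nd (nat_lit 9) 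
(.lf (nat_lit 566323) (.g (nat_lit 2155) (.e (nat_lit 434272) (nat_lit 38) (.e (nat_lit 655374) (nat_lit 3) (.e (nat_lit 163979) (nat_lit 30) (.e (nat_lit 573481) (nat_lit 13) (.e (nat_lit 65604) (nat_lit 9) .nil))))) (.g (nat_lit 0) (.e (nat_lit 332104) (nat_lit 0) .nil) .nil))) 
(.lf (nat_lit 566835) (.g (nat_lit 3734) (.e (nat_lit 442379) (nat_lit 0) (.e (nat_lit 2059) (nat_lit 142) (.e (nat_lit 704592) (nat_lit 4) (.e (nat_lit 172126) (nat_lit 14) (.e (nat_lit 491550) (nat_lit 9) (.e (nat_lit 336430) (nat_lit 29) .nil)))))) (.g (nat_lit 1) (.e (nat_lit 333248) (nat_lit 0) .nil) .nil)))) (.nd (nat_lit 9) 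
(.lf (nat_lit 566579) (.g (nat_lit 1586) (.e (nat_lit 442372) (nat_lit 0) (.e (nat_lit 1846) (nat_lit 124) (.e (nat_lit 557098) (nat_lit 13) (.e (nat_lit 172124) (nat_lit 14) (.e (nat_lit 491540) (nat_lit 3) .nil))))) (.g (nat_lit 0) (.e (nat_lit 332874) (nat_lit 0) .nil) .nil))) 
(.lf (nat_lit 567091) (.g (nat_lit 1121) (.e (nat_lit 450304) (nat_lit 18) (.e (nat_lit 393252) (nat_lit 18) (.e (nat_lit 164330) (nat_lit 230) (.e (nat_lit 163874) (nat_lit 3) .nil)))) (.g (nat_lit 0) (.e (nat_lit 334844) (nat_lit 0) .nil) .nil))))) (.nd (nat_lit 8) (.nd (nat_lit 9) 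
(.lf (nat_lit 566451) (.g (nat_lit 3061) (.e (nat_lit 434289) (nat_lit 43) (.e (nat_lit 696343) (nat_lit 8) (.e (nat_lit 172115) (nat_lit 10) (.e (nat_lit 434289) (nat_lit 43) (.e (nat_lit 696344) (nat_lit 8) (.e (nat_lit 172112) (nat_lit 10) .nil)))))) (.g (nat_lit 1) (.e (nat_lit 332633) (nat_lit 0) .nil) .nil))) 
(.lf (nat_lit 566963) (.g (nat_lit 1383) (.e (nat_lit 442389) (nat_lit 11) (.e (nat_lit 336390) (nat_lit 27) (.e (nat_lit 426100) (nat_lit 1) (.e (nat_lit 164399) (nat_lit 256) .nil)))) (.g (nat_lit 0) (.e (nat_lit 334232) (nat_lit 0) .nil) .nil)))) (.nd (nat_lit 9) 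
(.lf (nat_lit 566707) (.g (nat_lit 1450) (.e (nat_lit 442374) (nat_lit 0) (.e (nat_lit 2174) (nat_lit 143) (.e (nat_lit 712750) (nat_lit 29) (.e (nat_lit 442374) (nat_lit 0) (.e (nat_lit 2175) (nat_lit 143) .nil))))) (.g (nat_lit 0) (.e (nat_lit 333029) (nat_lit 0) .nil) .nil))) 
(.lf (nat_lit 567219) (.g (nat_lit 493) (.e (nat_lit 442406) (nat_lit 20) (.e (nat_lit 3238) (nat_lit 197) (.e (nat_lit 532523) (nat_lit 7) .nil))) (.g (nat_lit 0) (.e (nat_lit 335425) (nat_lit 0) .nil) .nil)))))) (.nd (nat_lit 7) (.nd (nat_lit 8) (.nd (nat_lit 9) 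
(.lf (nat_lit 566387) (.g (nat_lit 1863) (.e (nat_lit 434272) (nat_lit 38) (.e (nat_lit 655380) (nat_lit 6) (.e (nat_lit 188438) (nat_lit 20) (.e (nat_lit 3409) (nat_lit 212) (.e (nat_lit 655378) (nat_lit 4) (.e (nat_lit 172116) (nat_lit 10) .nil)))))) (.g (nat_lit 1) (.e (nat_lit 332361) (nat_lit 0) .nil) .nil))) 
(.lf (nat_lit 566899) (.g (nat_lit 1919) (.e (nat_lit 450304) (nat_lit 3) (.e (nat_lit 98335) (nat_lit 18) (.e (nat_lit 164327) (nat_lit 230) (.e (nat_lit 163903) (nat_lit 12) (.e (nat_lit 426486) (nat_lit 27) .nil))))) (.g (nat_lit 0) (.e (nat_lit 333353) (nat_lit 0) .nil) .nil)))) (.nd (nat_lit 9) 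
(.lf (nat_lit 566643) (.g (nat_lit 2276) (.e (nat_lit 442374) (nat_lit 0) (.e (nat_lit 1800) (nat_lit 119) (.e (nat_lit 516120) (nat_lit 1) (.e (nat_lit 164331) (nat_lit 230) (.e (nat_lit 163942) (nat_lit 19) (.e (nat_lit 491264) (nat_lit 11) .nil)))))) (.g (nat_lit 1) (.e (nat_lit 332948) (nat_lit 0) .nil) .nil))) 
(.lf (nat_lit 567155) (.g (nat_lit 2319) (.e (nat_lit 442399) (nat_lit 20) (.e (nat_lit 3397) (nat_lit 211) (.e (nat_lit 647183) (nat_lit 4) (.e (nat_lit 172079) (nat_lit 7) (.e (nat_lit 409618) (nat_lit 10) (.e (nat_lit 5364) (nat_lit 298) (.e (nat_lit 463) (nat_lit 34) .nil))))))) (.g (nat_lit 1) (.e (nat_lit 335103) (nat_lit 0) .nil) .nil))))) (.nd (nat_lit 8) (.nd (nat_lit 9) 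
(.lf (nat_lit 566515) (.g (nat_lit 3113) (.e (nat_lit 434289) (nat_lit 43) (.e (nat_lit 696346) (nat_lit 10) (.e (nat_lit 188439) (nat_lit 20) (.e (nat_lit 3469) (nat_lit 217) (.e (nat_lit 696344) (nat_lit 8) (.e (nat_lit 172107) (nat_lit 10) .nil)))))) (.g (nat_lit 1) (.e (nat_lit 332734) (nat_lit 0) .nil) .nil))) 
(.lf (nat_lit 567027) (.g (nat_lit 1309) (.e (nat_lit 450304) (nat_lit 13) (.e (nat_lit 352309) (nat_lit 21) (.e (nat_lit 57844) (nat_lit 252) (.e (nat_lit 57388) (nat_lit 5) (.e (nat_lit 122624) (nat_lit 13) .nil))))) (.g (nat_lit 0) (.e (nat_lit 334725) (nat_lit 0) .nil) .nil)))) (.nd (nat_lit 9) 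
(.lf (nat_lit 566771) (.g (nat_lit 1711) (.e (nat_lit 442378) (nat_lit 0) (.e (nat_lit 1800) (nat_lit 119) (.e (nat_lit 516117) (nat_lit 1) (.e (nat_lit 164332) (nat_lit 230) (.e (nat_lit 163942) (nat_lit 19) .nil))))) (.g (nat_lit 0) (.e (nat_lit 333145) (nat_lit 0) .nil) .nil))) 
(.lf (nat_lit 567283) (.g (nat_lit 1175) (.e (nat_lit 442409) (nat_lit 20) (.e (nat_lit 3579) (nat_lit 223) (.e (nat_lit 745489) (nat_lit 4) (.e (nat_lit 65598) (nat_lit 9) (.e (nat_lit 336013) (nat_lit 2) (.e (nat_lit 98048) (nat_lit 0) (.e (nat_lit 461) (nat_lit 34) .nil))))))) (.g (nat_lit 1) (.e (nat_lit 335834) (nat_lit 0) .nil) .nil))))))))) 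
(.nd (nat_lit 4) (.nd (nat_lit 5) (.nd (nat_lit 6) (.nd (nat_lit 7) (.nd (nat_lit 8) 
(.nd (nat_lit 9) 
(.lf (nat_lit 566283) (.g (nat_lit 2331) (.e (nat_lit 434271) (nat_lit 38) (.e (nat_lit 655378) (nat_lit 4) (.e (nat_lit 172094) (nat_lit 9) (.e (nat_lit 426025) (nat_lit 0) (.e (nat_lit 3399) (nat_lit 211) (.e (nat_lit 647183) (nat_lit 4) (.e (nat_lit 172112) (nat_lit 10) .nil))))))) (.g (nat_lit 1) (.e (nat_lit 331918) (nat_lit 0) .nil) .nil))) 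
(.lf (nat_lit 566795) (.g (nat_lit 2161) (.e (nat_lit 442379) (nat_lit 0) (.e (nat_lit 1781) (nat_lit 119) (.e (nat_lit 516120) (nat_lit 1) (.e (nat_lit 164329) (nat_lit 230) (.e (nat_lit 163941) (nat_lit 19) (.e (nat_lit 491264) (nat_lit 11) .nil)))))) (.g (nat_lit 1) (.e (nat_lit 333173) (nat_lit 0) .nil) .nil)))) (.nd (nat_lit 9) 
(.lf (nat_lit 566539) (.g (nat_lit 1437) (.e (nat_lit 434291) (nat_lit 44) (.e (nat_lit 704738) (nat_lit 11) (.e (nat_lit 16446) (nat_lit 9) (.e (nat_lit 426500) (nat_lit 27) (.e (nat_lit 336230) (nat_lit 14) .nil))))) (.g (nat_lit 0) (.e (nat_lit 332778) (nat_lit 0) .nil) .nil))) 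
(.lf (nat_lit 567051) (.g (nat_lit 1291) (.e (nat_lit 450304) (nat_lit 16) (.e (nat_lit 376857) (nat_lit 21) (.e (nat_lit 57854) (nat_lit 252) (.e (nat_lit 57388) (nat_lit 5) (.e (nat_lit 122624) (nat_lit 13) .nil))))) (.g (nat_lit 0) (.e (nat_lit 334767) (nat_lit 0) .nil) .nil))))) (.nd (nat_lit 8) (.nd (nat_lit 9) 
(.lf (nat_lit 566411) (.g (nat_lit 487) (.e (nat_lit 434287) (nat_lit 43) (.e (nat_lit 696344) (nat_lit 8) (.e (nat_lit 172113) (nat_lit 10) .nil))) (.g (nat_lit 0) (.e (nat_lit 332471) (nat_lit 0) .nil) .nil))) 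
(.lf (nat_lit 566923) (.g (nat_lit 945) (.e (nat_lit 450304) (nat_lit 3) (.e (nat_lit 98341) (nat_lit 20) (.e (nat_lit 221191) (nat_lit 11) (.e (nat_lit 336017) (nat_lit 3) (.e (nat_lit 98371) (nat_lit 28) .nil))))) (.g (nat_lit 0) (.e (nat_lit 333386) (nat_lit 0) .nil) .nil)))) (.nd (nat_lit 9) 
(.lf (nat_lit 566667) (.g (nat_lit 1998) (.e (nat_lit 442374) (nat_lit 0) (.e (nat_lit 1856) (nat_lit 124) (.e (nat_lit 557101) (nat_lit 13) (.e (nat_lit 172115) (nat_lit 10) (.e (nat_lit 434238) (nat_lit 25) .nil))))) (.g (nat_lit 0) (.e (nat_lit 332977) (nat_lit 0) .nil) .nil))) 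
(.lf (nat_lit 567179) (.g (nat_lit 2305) (.e (nat_lit 442402) (nat_lit 20) (.e (nat_lit 3391) (nat_lit 210) (.e (nat_lit 639021) (nat_lit 16) (.e (nat_lit 65610) (nat_lit 10) (.e (nat_lit 344160) (nat_lit 37) (.e (nat_lit 647190) (nat_lit 9) (.e (nat_lit 7936) (nat_lit 34) .nil))))))) (.g (nat_lit 1) (.e (nat_lit 335270) (nat_lit 0) .nil) .nil)))))) 
(.nd (nat_lit 7) (.nd (nat_lit 8) (.nd (nat_lit 9) 
(.lf (nat_lit 566347) (.g (nat_lit 4066) (.e (nat_lit 434272) (nat_lit 38) (.e (nat_lit 655375) (nat_lit 3) (.e (nat_lit 163979) (nat_lit 30) (.e (nat_lit 573485) (nat_lit 13) (.e (nat_lit 65604) (nat_lit 9) (.e (nat_lit 336028) (nat_lit 3) (.e (nat_lit 98367) (nat_lit 27) .nil))))))) (.g (nat_lit 1) (.e (nat_lit 332187) (nat_lit 0) .nil) .nil))) 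
(.lf (nat_lit 566859) (.g (nat_lit 216) (.e (nat_lit 450304) (nat_lit 3) (.e (nat_lit 98325) (nat_lit 17) (.e (nat_lit 3711) (nat_lit 227) .nil))) (.g (nat_lit 0) (.e (nat_lit 333298) (nat_lit 0) .nil) .nil)))) (.nd (nat_lit 9) 
(.lf (nat_lit 566603) (.g (nat_lit 3092) (.e (nat_lit 442373) (nat_lit 0) (.e (nat_lit 1853) (nat_lit 124) (.e (nat_lit 557097) (nat_lit 13) (.e (nat_lit 172115) (nat_lit 10) (.e (nat_lit 434244) (nat_lit 28) (.e (nat_lit 573449) (nat_lit 9) (.e (nat_lit 457) (nat_lit 34) .nil))))))) (.g (nat_lit 1) (.e (nat_lit 332903) (nat_lit 0) .nil) .nil))) 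
(.lf (nat_lit 567115) (.g (nat_lit 1282) (.e (nat_lit 450304) (nat_lit 18) (.e (nat_lit 393253) (nat_lit 18) (.e (nat_lit 164345) (nat_lit 240) (.e (nat_lit 2600) (nat_lit 163) (.e (nat_lit 163959) (nat_lit 24) .nil))))) (.g (nat_lit 0) (.e (nat_lit 334878) (nat_lit 0) .nil) .nil))))) (.nd (nat_lit 8) (.nd (nat_lit 9) 
(.lf (nat_lit 566475) (.g (nat_lit 3628) (.e (nat_lit 434289) (nat_lit 43) (.e (nat_lit 696344) (nat_lit 8) (.e (nat_lit 172112) (nat_lit 10) (.e (nat_lit 434289) (nat_lit 43) (.e (nat_lit 696344) (nat_lit 8) (.e (nat_lit 172106) (nat_lit 10) .nil)))))) (.g (nat_lit 1) (.e (nat_lit 332667) (nat_lit 0) .nil) .nil))) 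
(.lf (nat_lit 566987) (.g (nat_lit 3069) (.e (nat_lit 442390) (nat_lit 11) (.e (nat_lit 336231) (nat_lit 14) (.e (nat_lit 401446) (nat_lit 10) (.e (nat_lit 434289) (nat_lit 43) (.e (nat_lit 696330) (nat_lit 5) (.e (nat_lit 2988) (nat_lit 186) .nil)))))) (.g (nat_lit 1) (.e (nat_lit 334496) (nat_lit 0) .nil) .nil)))) (.nd (nat_lit 9) 
(.lf (nat_lit 566731) (.g (nat_lit 1808) (.e (nat_lit 442377) (nat_lit 0) (.e (nat_lit 1798) (nat_lit 119) (.e (nat_lit 516117) (nat_lit 1) (.e (nat_lit 164329) (nat_lit 230) (.e (nat_lit 163941) (nat_lit 19) (.e (nat_lit 491264) (nat_lit 11) .nil)))))) (.g (nat_lit 1) (.e (nat_lit 333091) (nat_lit 0) .nil) .nil))) 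
(.lf (nat_lit 567243) (.g (nat_lit 1357) (.e (nat_lit 442406) (nat_lit 20) (.e (nat_lit 3238) (nat_lit 197) (.e (nat_lit 532569) (nat_lit 16) (.e (nat_lit 401448) (nat_lit 10) .nil)))) (.g (nat_lit 0) (.e (nat_lit 335458) (nat_lit 0) .nil) .nil))))))) (.nd (nat_lit 6) (.nd (nat_lit 7) (.nd (nat_lit 8) (.nd (nat_lit 9) 
(.lf (nat_lit 566315) (.g (nat_lit 2689) (.e (nat_lit 434271) (nat_lit 38) (.e (nat_lit 655380) (nat_lit 6) (.e (nat_lit 188455) (nat_lit 24) (.e (nat_lit 229666) (nat_lit 240) (.e (nat_lit 2630) (nat_lit 164) (.e (nat_lit 172113) (nat_lit 10) .nil)))))) (.g (nat_lit 1) (.e (nat_lit 332041) (nat_lit 0) .nil) .nil))) 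
(.lf (nat_lit 566827) (.g (nat_lit 3055) (.e (nat_lit 442379) (nat_lit 0) (.e (nat_lit 1856) (nat_lit 124) (.e (nat_lit 557101) (nat_lit 13) (.e (nat_lit 172115) (nat_lit 10) (.e (nat_lit 434244) (nat_lit 28) (.e (nat_lit 573458) (nat_lit 9) (.e (nat_lit 7936) (nat_lit 34) .nil))))))) (.g (nat_lit 1) (.e (nat_lit 333217) (nat_lit 0) .nil) .nil)))) (.nd (nat_lit 9) 
(.lf (nat_lit 566571) (.g (nat_lit 2280) (.e (nat_lit 442372) (nat_lit 0) (.e (nat_lit 1800) (nat_lit 119) (.e (nat_lit 516115) (nat_lit 1) (.e (nat_lit 164325) (nat_lit 230) (.e (nat_lit 163903) (nat_lit 12) .nil))))) (.g (nat_lit 0) (.e (nat_lit 332866) (nat_lit 0) .nil) .nil))) 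
(.lf (nat_lit 567083) (.g (nat_lit 1658) (.e (nat_lit 450304) (nat_lit 18) (.e (nat_lit 393251) (nat_lit 18) (.e (nat_lit 164398) (nat_lit 256) (.e (nat_lit 57376) (nat_lit 3) .nil)))) (.g (nat_lit 0) (.e (nat_lit 334820) (nat_lit 0) .nil) .nil))))) (.nd (nat_lit 8) (.nd (nat_lit 9) 
(.lf (nat_lit 566443) (.g (nat_lit 361) (.e (nat_lit 434289) (nat_lit 43) (.e (nat_lit 696343) (nat_lit 8) (.e (nat_lit 172094) (nat_lit 9) .nil))) (.g (nat_lit 0) (.e (nat_lit 332607) (nat_lit 0) .nil) .nil))) 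
(.lf (nat_lit 566955) (.g (nat_lit 662) (.e (nat_lit 442386) (nat_lit 11) (.e (nat_lit 336231) (nat_lit 14) (.e (nat_lit 401446) (nat_lit 10) .nil))) (.g (nat_lit 0) (.e (nat_lit 333959) (nat_lit 0) .nil) .nil)))) (.nd (nat_lit 9) 
(.lf (nat_lit 566699) (.g (nat_lit 2676) (.e (nat_lit 442374) (nat_lit 0) (.e (nat_lit 2059) (nat_lit 142) (.e (nat_lit 704599) (nat_lit 6) (.e (nat_lit 188440) (nat_lit 20) (.e (nat_lit 3408) (nat_lit 212) (.e (nat_lit 655363) (nat_lit 0) (.e (nat_lit 3004) (nat_lit 186) .nil))))))) (.g (nat_lit 1) (.e (nat_lit 333020) (nat_lit 0) .nil) .nil))) 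
(.lf (nat_lit 567211) (.g (nat_lit 2752) (.e (nat_lit 442404) (nat_lit 20) (.e (nat_lit 3297) (nat_lit 202) (.e (nat_lit 573450) (nat_lit 9) (.e (nat_lit 375) (nat_lit 32) (.e (nat_lit 426173) (nat_lit 7) (.e (nat_lit 409617) (nat_lit 10) (.e (nat_lit 7936) (nat_lit 43) (.e (nat_lit 516163) (nat_lit 11) .nil)))))))) (.g (nat_lit 1) (.e (nat_lit 335389) (nat_lit 0) .nil) .nil)))))) 
(.nd (nat_lit 7) (.nd (nat_lit 8) (.nd (nat_lit 9) 
(.lf (nat_lit 566379) (.g (nat_lit 2294) (.e (nat_lit 434272) (nat_lit 38) (.e (nat_lit 655380) (nat_lit 6) (.e (nat_lit 188434) (nat_lit 20) (.e (nat_lit 3409) (nat_lit 212) (.e (nat_lit 655378) (nat_lit 4) (.e (nat_lit 172116) (nat_lit 10) .nil)))))) (.g (nat_lit 1) (.e (nat_lit 332353) (nat_lit 0) .nil) .nil))) 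
(.lf (nat_lit 566891) (.g (nat_lit 1390) (.e (nat_lit 450304) (nat_lit 3) (.e (nat_lit 98335) (nat_lit 18) (.e (nat_lit 164325) (nat_lit 230) (.e (nat_lit 163903) (nat_lit 12) (.e (nat_lit 426479) (nat_lit 27) .nil))))) (.g (nat_lit 0) (.e (nat_lit 333345) (nat_lit 0) .nil) .nil)))) (.nd (nat_lit 9) 
(.lf (nat_lit 566635) (.g (nat_lit 2229) (.e (nat_lit 442374) (nat_lit 0) (.e (nat_lit 1800) (nat_lit 119) (.e (nat_lit 516119) (nat_lit 1) (.e (nat_lit 164326) (nat_lit 230) (.e (nat_lit 163942) (nat_lit 19) (.e (nat_lit 491264) (nat_lit 11) .nil)))))) (.g (nat_lit 1) (.e (nat_lit 332940) (nat_lit 0) .nil) .nil))) 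
(.lf (nat_lit 567147) (.g (nat_lit 1362) (.e (nat_lit 442393) (nat_lit 20) (.e (nat_lit 3402) (nat_lit 211) (.e (nat_lit 647183) (nat_lit 4) (.e (nat_lit 172126) (nat_lit 14) (.e (nat_lit 491548) (nat_lit 9) .nil))))) (.g (nat_lit 0) (.e (nat_lit 334975) (nat_lit 0) .nil) .nil))))) (.nd (nat_lit 8) (.nd (nat_lit 9) 
(.lf (nat_lit 566507) (.g (nat_lit 3348) (.e (nat_lit 434289) (nat_lit 43) (.e (nat_lit 696346) (nat_lit 10) (.e (nat_lit 188434) (nat_lit 20) (.e (nat_lit 3469) (nat_lit 217) (.e (nat_lit 696344) (nat_lit 8) (.e (nat_lit 172107) (nat_lit 10) .nil)))))) (.g (nat_lit 1) (.e (nat_lit 332725) (nat_lit 0) .nil) .nil))) 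
(.lf (nat_lit 567019) (.g (nat_lit 1700) (.e (nat_lit 450304) (nat_lit 11) (.e (nat_lit 336459) (nat_lit 35) (.e (nat_lit 491566) (nat_lit 12) (.e (nat_lit 385063) (nat_lit 25) .nil)))) (.g (nat_lit 0) (.e (nat_lit 334713) (nat_lit 0) .nil) .nil)))) (.nd (nat_lit 9) 
(.lf (nat_lit 566763) (.g (nat_lit 831) (.e (nat_lit 442377) (nat_lit 0) (.e (nat_lit 2175) (nat_lit 143) (.e (nat_lit 712750) (nat_lit 29) (.e (nat_lit 442382) (nat_lit 8) .nil)))) (.g (nat_lit 0) (.e (nat_lit 333135) (nat_lit 0) .nil) .nil))) 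
(.lf (nat_lit 567275) (.g (nat_lit 929) (.e (nat_lit 442409) (nat_lit 20) (.e (nat_lit 3409) (nat_lit 212) (.e (nat_lit 655378) (nat_lit 4) (.e (nat_lit 172036) (nat_lit 0) .nil)))) (.g (nat_lit 0) (.e (nat_lit 335762) (nat_lit 0) .nil) .nil)))))))) (.nd (nat_lit 5) (.nd (nat_lit 6) (.nd (nat_lit 7) (.nd (nat_lit 8) (.nd (nat_lit 9) 
(.lf (nat_lit 566299) (.g (nat_lit 2622) (.e (nat_lit 434271) (nat_lit 38) (.e (nat_lit 655380) (nat_lit 6) (.e (nat_lit 188431) (nat_lit 20) (.e (nat_lit 3397) (nat_lit 211) (.e (nat_lit 647183) (nat_lit 4) (.e (nat_lit 172115) (nat_lit 10) .nil)))))) (.g (nat_lit 1) (.e (nat_lit 332006) (nat_lit 0) .nil) .nil))) 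
(.lf (nat_lit 566811) (.g (nat_lit 3621) (.e (nat_lit 442379) (nat_lit 0) (.e (nat_lit 1855) (nat_lit 124) (.e (nat_lit 557101) (nat_lit 13) (.e (nat_lit 172115) (nat_lit 10) (.e (nat_lit 434244) (nat_lit 28) (.e (nat_lit 573450) (nat_lit 9) (.e (nat_lit 459) (nat_lit 34) .nil))))))) (.g (nat_lit 1) (.e (nat_lit 333201) (nat_lit 0) .nil) .nil)))) (.nd (nat_lit 9) 
(.lf (nat_lit 566555) (.g (nat_lit 1467) (.e (nat_lit 434295) (nat_lit 49) (.e (nat_lit 745491) (nat_lit 4) (.e (nat_lit 65616) (nat_lit 10) (.e (nat_lit 344138) (nat_lit 29) (.e (nat_lit 581651) (nat_lit 4) (.e (nat_lit 172107) (nat_lit 10) .nil)))))) (.g (nat_lit 1) (.e (nat_lit 332817) (nat_lit 0) .nil) .nil))) 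
(.lf (nat_lit 567067) (.g (nat_lit 1484) (.e (nat_lit 450304) (nat_lit 16) (.e (nat_lit 376860) (nat_lit 21) (.e (nat_lit 57852) (nat_lit 252) (.e (nat_lit 57388) (nat_lit 5) (.e (nat_lit 122624) (nat_lit 13) .nil))))) (.g (nat_lit 0) (.e (nat_lit 334785) (nat_lit 0) .nil) .nil))))) (.nd (nat_lit 8) (.nd (nat_lit 9) 
(.lf (nat_lit 566427) (.g (nat_lit 3642) (.e (nat_lit 434288) (nat_lit 43) (.e (nat_lit 696344) (nat_lit 8) (.e (nat_lit 172106) (nat_lit 10) (.e (nat_lit 434289) (nat_lit 43) (.e (nat_lit 696344) (nat_lit 8) (.e (nat_lit 172106) (nat_lit 10) .nil)))))) (.g (nat_lit 1) (.e (nat_lit 332506) (nat_lit 0) .nil) .nil))) 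
(.lf (nat_lit 566939) (.g (nat_lit 1265) (.e (nat_lit 450304) (nat_lit 5) (.e (nat_lit 114711) (nat_lit 21) (.e (nat_lit 57847) (nat_lit 252) (.e (nat_lit 57405) (nat_lit 12) .nil)))) (.g (nat_lit 0) (.e (nat_lit 333406) (nat_lit 0) .nil) .nil)))) (.nd (nat_lit 9) 
(.lf (nat_lit 566683) (.g (nat_lit 723) (.e (nat_lit 442374) (nat_lit 0) (.e (nat_lit 2058) (nat_lit 142) (.e (nat_lit 704599) (nat_lit 6) (.e (nat_lit 188440) (nat_lit 20) .nil)))) (.g (nat_lit 0) (.e (nat_lit 332998) (nat_lit 0) .nil) .nil))) 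
(.lf (nat_lit 567195) (.g (nat_lit 2003) (.e (nat_lit 442403) (nat_lit 20) (.e (nat_lit 3391) (nat_lit 210) (.e (nat_lit 639021) (nat_lit 16) (.e (nat_lit 65619) (nat_lit 10) (.e (nat_lit 344160) (nat_lit 37) (.e (nat_lit 647190) (nat_lit 9) (.e (nat_lit 7936) (nat_lit 34) .nil))))))) (.g (nat_lit 1) (.e (nat_lit 335354) (nat_lit 0) .nil) .nil)))))) 
(.nd (nat_lit 7) (.nd (nat_lit 8) (.nd (nat_lit 9) 
(.lf (nat_lit 566363) (.g (nat_lit 1189) (.e (nat_lit 434272) (nat_lit 38) (.e (nat_lit 655378) (nat_lit 4) (.e (nat_lit 172113) (nat_lit 10) (.e (nat_lit 434203) (nat_lit 18) .nil)))) (.g (nat_lit 0) (.e (nat_lit 332260) (nat_lit 0) .nil) .nil))) 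
(.lf (nat_lit 566875) (.g (nat_lit 526) (.e (nat_lit 450304) (nat_lit 3) (.e (nat_lit 98334) (nat_lit 18) (.e (nat_lit 164330) (nat_lit 230) .nil))) (.g (nat_lit 0) (.e (nat_lit 333322) (nat_lit 0) .nil) .nil)))) (.nd (nat_lit 9) 
(.lf (nat_lit 566619) (.g (nat_lit 1875) (.e (nat_lit 442373) (nat_lit 0) (.e (nat_lit 1853) (nat_lit 124) (.e (nat_lit 557107) (nat_lit 15) (.e (nat_lit 188441) (nat_lit 20) (.e (nat_lit 3272) (nat_lit 199) .nil))))) (.g (nat_lit 0) (.e (nat_lit 332919) (nat_lit 0) .nil) .nil))) 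
(.lf (nat_lit 567131) (.g (nat_lit 1298) (.e (nat_lit 450304) (nat_lit 18) (.e (nat_lit 393254) (nat_lit 18) (.e (nat_lit 164331) (nat_lit 230) (.e (nat_lit 163873) (nat_lit 3) (.e (nat_lit 212736) (nat_lit 11) .nil))))) (.g (nat_lit 0) (.e (nat_lit 334906) (nat_lit 0) .nil) .nil))))) (.nd (nat_lit 8) (.nd (nat_lit 9) 
(.lf (nat_lit 566491) (.g (nat_lit 3179) (.e (nat_lit 434289) (nat_lit 43) (.e (nat_lit 696344) (nat_lit 8) (.e (nat_lit 172115) (nat_lit 10) (.e (nat_lit 434209) (nat_lit 18) (.e (nat_lit 6425) (nat_lit 342) (.e (nat_lit 229402) (nat_lit 12) (.e (nat_lit 426290) (nat_lit 10) .nil))))))) (.g (nat_lit 1) (.e (nat_lit 332684) (nat_lit 0) .nil) .nil))) 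
(.lf (nat_lit 567003) (.g (nat_lit 2570) (.e (nat_lit 442390) (nat_lit 11) (.e (nat_lit 336232) (nat_lit 14) (.e (nat_lit 401448) (nat_lit 10) (.e (nat_lit 434287) (nat_lit 43) (.e (nat_lit 696327) (nat_lit 5) (.e (nat_lit 2988) (nat_lit 186) .nil)))))) (.g (nat_lit 1) (.e (nat_lit 334599) (nat_lit 0) .nil) .nil)))) (.nd (nat_lit 9) 
(.lf (nat_lit 566747) (.g (nat_lit 1190) (.e (nat_lit 442377) (nat_lit 0) (.e (nat_lit 1856) (nat_lit 124) (.e (nat_lit 557100) (nat_lit 13) (.e (nat_lit 172113) (nat_lit 10) .nil)))) (.g (nat_lit 0) (.e (nat_lit 333108) (nat_lit 0) .nil) .nil))) 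
(.lf (nat_lit 567259) (.g (nat_lit 1909) (.e (nat_lit 442408) (nat_lit 20) (.e (nat_lit 3391) (nat_lit 210) (.e (nat_lit 639021) (nat_lit 16) (.e (nat_lit 65619) (nat_lit 10) (.e (nat_lit 344160) (nat_lit 37) (.e (nat_lit 647195) (nat_lit 9) (.e (nat_lit 7936) (nat_lit 34) .nil))))))) (.g (nat_lit 1) (.e (nat_lit 335549) (nat_lit 0) .nil) .nil))))))) 
(.nd (nat_lit 6) (.nd (nat_lit 7) (.nd (nat_lit 8) (.nd (nat_lit 9) 
(.lf (nat_lit 566331) (.g (nat_lit 333) (.e (nat_lit 434272) (nat_lit 38) (.e (nat_lit 655375) (nat_lit 3) (.e (nat_lit 163978) (nat_lit 30) .nil))) (.g (nat_lit 0) (.e (nat_lit 332112) (nat_lit 0) .nil) .nil))) 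
(.lf (nat_lit 566843) (.g (nat_lit 1677) (.e (nat_lit 442379) (nat_lit 0) (.e (nat_lit 2174) (nat_lit 143) (.e (nat_lit 712745) (nat_lit 27) (.e (nat_lit 425984) (nat_lit 0) (.e (nat_lit 7588) (nat_lit 406) (.e (nat_lit 73472) (nat_lit 29) .nil)))))) (.g (nat_lit 1) (.e (nat_lit 333260) (nat_lit 0) .nil) .nil)))) (.nd (nat_lit 9) 
(.lf (nat_lit 566587) (.g (nat_lit 2065) (.e (nat_lit 442372) (nat_lit 0) (.e (nat_lit 1856) (nat_lit 124) (.e (nat_lit 557101) (nat_lit 13) (.e (nat_lit 172115) (nat_lit 10) (.e (nat_lit 434244) (nat_lit 28) .nil))))) (.g (nat_lit 0) (.e (nat_lit 332882) (nat_lit 0) .nil) .nil))) 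
(.lf (nat_lit 567099) (.g (nat_lit 1510) (.e (nat_lit 450304) (nat_lit 18) (.e (nat_lit 393253) (nat_lit 18) (.e (nat_lit 164325) (nat_lit 230) (.e (nat_lit 163874) (nat_lit 3) (.e (nat_lit 212736) (nat_lit 11) .nil))))) (.g (nat_lit 0) (.e (nat_lit 334862) (nat_lit 0) .nil) .nil))))) (.nd (nat_lit 8) (.nd (nat_lit 9) 
(.lf (nat_lit 566459) (.g (nat_lit 619) (.e (nat_lit 434289) (nat_lit 43) (.e (nat_lit 696344) (nat_lit 8) (.e (nat_lit 172101) (nat_lit 9) .nil))) (.g (nat_lit 0) (.e (nat_lit 332649) (nat_lit 0) .nil) .nil))) 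
(.lf (nat_lit 566971) (.g (nat_lit 1125) (.e (nat_lit 442390) (nat_lit 11) (.e (nat_lit 335986) (nat_lit 1) (.e (nat_lit 57688) (nat_lit 156) (.e (nat_lit 171776) (nat_lit 12) .nil)))) (.g (nat_lit 0) (.e (nat_lit 334383) (nat_lit 0) .nil) .nil)))) (.nd (nat_lit 9) 
(.lf (nat_lit 566715) (.g (nat_lit 1469) (.e (nat_lit 442374) (nat_lit 0) (.e (nat_lit 2175) (nat_lit 143) (.e (nat_lit 712752) (nat_lit 29) (.e (nat_lit 442412) (nat_lit 20) .nil)))) (.g (nat_lit 0) (.e (nat_lit 333040) (nat_lit 0) .nil) .nil))) 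
(.lf (nat_lit 567227) (.g (nat_lit 1963) (.e (nat_lit 442406) (nat_lit 20) (.e (nat_lit 3238) (nat_lit 197) (.e (nat_lit 532523) (nat_lit 7) (.e (nat_lit 319511) (nat_lit 10) (.e (nat_lit 5293) (nat_lit 298) .nil))))) (.g (nat_lit 0) (.e (nat_lit 335433) (nat_lit 0) .nil) .nil)))))) (.nd (nat_lit 7) (.nd (nat_lit 8) (.nd (nat_lit 9) 
(.lf (nat_lit 566395) (.g (nat_lit 2726) (.e (nat_lit 434272) (nat_lit 38) (.e (nat_lit 655380) (nat_lit 6) (.e (nat_lit 188441) (nat_lit 20) (.e (nat_lit 3409) (nat_lit 212) (.e (nat_lit 655378) (nat_lit 4) (.e (nat_lit 172107) (nat_lit 10) .nil)))))) (.g (nat_lit 1) (.e (nat_lit 332369) (nat_lit 0) .nil) .nil))) 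
(.lf (nat_lit 566907) (.g (nat_lit 1348) (.e (nat_lit 450304) (nat_lit 3) (.e (nat_lit 98335) (nat_lit 18) (.e (nat_lit 164330) (nat_lit 230) (.e (nat_lit 163905) (nat_lit 12) .nil)))) (.g (nat_lit 0) (.e (nat_lit 333364) (nat_lit 0) .nil) .nil)))) (.nd (nat_lit 9) 
(.lf (nat_lit 566651) (.g (nat_lit 2747) (.e (nat_lit 442374) (nat_lit 0) (.e (nat_lit 1846) (nat_lit 124) (.e (nat_lit 557101) (nat_lit 13) (.e (nat_lit 172115) (nat_lit 10) (.e (nat_lit 434238) (nat_lit 25) (.e (nat_lit 548896) (nat_lit 14) (.e (nat_lit 3004) (nat_lit 186) .nil))))))) (.g (nat_lit 1) (.e (nat_lit 332957) (nat_lit 0) .nil) .nil))) 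
(.lf (nat_lit 567163) (.g (nat_lit 2387) (.e (nat_lit 442399) (nat_lit 20) (.e (nat_lit 3402) (nat_lit 211) (.e (nat_lit 647183) (nat_lit 4) (.e (nat_lit 172079) (nat_lit 7) (.e (nat_lit 409618) (nat_lit 10) (.e (nat_lit 5363) (nat_lit 298) (.e (nat_lit 463) (nat_lit 34) .nil))))))) (.g (nat_lit 1) (.e (nat_lit 335151) (nat_lit 0) .nil) .nil))))) (.nd (nat_lit 8) (.nd (nat_lit 9) 
(.lf (nat_lit 566523) (.g (nat_lit 1990) (.e (nat_lit 434289) (nat_lit 43) (.e (nat_lit 696346) (nat_lit 10) (.e (nat_lit 188441) (nat_lit 20) (.e (nat_lit 3459) (nat_lit 216) (.e (nat_lit 688139) (nat_lit 5) .nil))))) (.g (nat_lit 0) (.e (nat_lit 332742) (nat_lit 0) .nil) .nil))) 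
(.lf (nat_lit 567035) (.g (nat_lit 1963) (.e (nat_lit 450304) (nat_lit 13) (.e (nat_lit 352309) (nat_lit 21) (.e (nat_lit 57854) (nat_lit 252) (.e (nat_lit 57388) (nat_lit 5) (.e (nat_lit 122624) (nat_lit 13) .nil))))) (.g (nat_lit 0) (.e (nat_lit 334733) (nat_lit 0) .nil) .nil)))) (.nd (nat_lit 9) 
(.lf (nat_lit 566779) (.g (nat_lit 3149) (.e (nat_lit 442378) (nat_lit 0) (.e (nat_lit 1856) (nat_lit 124) (.e (nat_lit 557101) (nat_lit 13) (.e (nat_lit 172115) (nat_lit 10) (.e (nat_lit 434244) (nat_lit 28) (.e (nat_lit 573458) (nat_lit 9) (.e (nat_lit 7936) (nat_lit 34) .nil))))))) (.g (nat_lit 1) (.e (nat_lit 333153) (nat_lit 0) .nil) .nil))) 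
(.lf (nat_lit 567291) (.g (nat_lit 2058) (.e (nat_lit 442411) (nat_lit 20) (.e (nat_lit 3270) (nat_lit 199) (.e (nat_lit 548913) (nat_lit 18) (.e (nat_lit 172126) (nat_lit 14) (.e (nat_lit 491540) (nat_lit 3) .nil))))) (.g (nat_lit 0) (.e (nat_lit 335852) (nat_lit 0) .nil) .nil)))))))))) 
(.nd (nat_lit 3) (.nd (nat_lit 4) (.nd (nat_lit 5) (.nd (nat_lit 6) (.nd (nat_lit 7) 
(.nd (nat_lit 8) (.nd (nat_lit 9) 
(.lf (nat_lit 566279) (.g (nat_lit 4676) (.e (nat_lit 434271) (nat_lit 38) (.e (nat_lit 655375) (nat_lit 3) (.e (nat_lit 163979) (nat_lit 30) (.e (nat_lit 573482) (nat_lit 13) (.e (nat_lit 65619) (nat_lit 10) (.e (nat_lit 344117) (nat_lit 21) (.e (nat_lit 516159) (nat_lit 10) .nil))))))) (.g (nat_lit 1) (.e (nat_lit 331897) (nat_lit 0) .nil) .nil))) 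
(.lf (nat_lit 566791) (.g (nat_lit 1778) (.e (nat_lit 442378) (nat_lit 0) (.e (nat_lit 2174) (nat_lit 143) (.e (nat_lit 712745) (nat_lit 27) (.e (nat_lit 426347) (nat_lit 14) (.e (nat_lit 491550) (nat_lit 9) .nil))))) (.g (nat_lit 0) (.e (nat_lit 333167) (nat_lit 0) .nil) .nil)))) (.nd (nat_lit 9) 
(.lf (nat_lit 566535) (.g (nat_lit 2477) (.e (nat_lit 434291) (nat_lit 44) (.e (nat_lit 704738) (nat_lit 11) (.e (nat_lit 16425) (nat_lit 7) (.e (nat_lit 409617) (nat_lit 10) (.e (nat_lit 848) (nat_lit 73) (.e (nat_lit 761902) (nat_lit 16) (.e (nat_lit 172108) (nat_lit 10) .nil))))))) (.g (nat_lit 1) (.e (nat_lit 332774) (nat_lit 0) .nil) .nil))) 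
(.lf (nat_lit 567047) (.g (nat_lit 1079) (.e (nat_lit 450304) (nat_lit 16) (.e (nat_lit 376857) (nat_lit 21) (.e (nat_lit 57852) (nat_lit 252) (.e (nat_lit 57388) (nat_lit 5) (.e (nat_lit 122624) (nat_lit 13) .nil))))) (.g (nat_lit 0) (.e (nat_lit 334760) (nat_lit 0) .nil) .nil))))) (.nd (nat_lit 8) (.nd (nat_lit 9) 
(.lf (nat_lit 566407) (.g (nat_lit 1586) (.e (nat_lit 434287) (nat_lit 43) (.e (nat_lit 696344) (nat_lit 8) (.e (nat_lit 172106) (nat_lit 10) (.e (nat_lit 434202) (nat_lit 18) (.e (nat_lit 6416) (nat_lit 341) .nil))))) (.g (nat_lit 0) (.e (nat_lit 332467) (nat_lit 0) .nil) .nil))) 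
(.lf (nat_lit 566919) (.g (nat_lit 1143) (.e (nat_lit 450304) (nat_lit 3) (.e (nat_lit 98335) (nat_lit 18) (.e (nat_lit 164332) (nat_lit 230) (.e (nat_lit 163942) (nat_lit 19) (.e (nat_lit 491264) (nat_lit 11) .nil))))) (.g (nat_lit 0) (.e (nat_lit 333380) (nat_lit 0) .nil) .nil)))) (.nd (nat_lit 9) 
(.lf (nat_lit 566663) (.g (nat_lit 3853) (.e (nat_lit 442374) (nat_lit 0) (.e (nat_lit 1856) (nat_lit 124) (.e (nat_lit 557098) (nat_lit 13) (.e (nat_lit 172115) (nat_lit 10) (.e (nat_lit 434238) (nat_lit 25) (.e (nat_lit 548898) (nat_lit 14) (.e (nat_lit 3004) (nat_lit 186) .nil))))))) (.g (nat_lit 1) (.e (nat_lit 332973) (nat_lit 0) .nil) .nil))) 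
(.lf (nat_lit 567175) (.g (nat_lit 2279) (.e (nat_lit 442402) (nat_lit 20) (.e (nat_lit 3390) (nat_lit 210) (.e (nat_lit 639021) (nat_lit 16) (.e (nat_lit 65617) (nat_lit 10) (.e (nat_lit 344161) (nat_lit 37) (.e (nat_lit 647190) (nat_lit 9) (.e (nat_lit 7936) (nat_lit 34) .nil))))))) (.g (nat_lit 1) (.e (nat_lit 335266) (nat_lit 0) .nil) .nil)))))) 
(.nd (nat_lit 7) (.nd (nat_lit 8) (.nd (nat_lit 9) 
(.lf (nat_lit 566343) (.g (nat_lit 301) (.e (nat_lit 434272) (nat_lit 38) (.e (nat_lit 655375) (nat_lit 3) (.e (nat_lit 163979) (nat_lit 30) .nil))) (.g (nat_lit 0) (.e (nat_lit 332183) (nat_lit 0) .nil) .nil))) 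
(.lf (nat_lit 566855) (.g (nat_lit 1832) (.e (nat_lit 450304) (nat_lit 0) (.e (nat_lit 1860) (nat_lit 124) (.e (nat_lit 557101) (nat_lit 13) (.e (nat_lit 172115) (nat_lit 10) (.e (nat_lit 434238) (nat_lit 25) .nil))))) (.g (nat_lit 0) (.e (nat_lit 333282) (nat_lit 0) .nil) .nil)))) (.nd (nat_lit 9) 
(.lf (nat_lit 566599) (.g (nat_lit 2668) (.e (nat_lit 442373) (nat_lit 0) (.e (nat_lit 1853) (nat_lit 124) (.e (nat_lit 557097) (nat_lit 13) (.e (nat_lit 172115) (nat_lit 10) (.e (nat_lit 434238) (nat_lit 25) (.e (nat_lit 548896) (nat_lit 14) (.e (nat_lit 3004) (nat_lit 186) .nil))))))) (.g (nat_lit 1) (.e (nat_lit 332899) (nat_lit 0) .nil) .nil))) 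
(.lf (nat_lit 567111) (.g (nat_lit 2298) (.e (nat_lit 450304) (nat_lit 18) (.e (nat_lit 393253) (nat_lit 18) (.e (nat_lit 164331) (nat_lit 230) (.e (nat_lit 163867) (nat_lit 2) (.e (nat_lit 196624) (nat_lit 9) .nil))))) (.g (nat_lit 0) (.e (nat_lit 334874) (nat_lit 0) .nil) .nil))))) (.nd (nat_lit 8) (.nd (nat_lit 9) 
(.lf (nat_lit 566471) (.g (nat_lit 2872) (.e (nat_lit 434289) (nat_lit 43) (.e (nat_lit 696344) (nat_lit 8) (.e (nat_lit 172106) (nat_lit 10) (.e (nat_lit 434288) (nat_lit 43) (.e (nat_lit 696343) (nat_lit 8) (.e (nat_lit 172112) (nat_lit 10) .nil)))))) (.g (nat_lit 1) (.e (nat_lit 332663) (nat_lit 0) .nil) .nil))) 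
(.lf (nat_lit 566983) (.g (nat_lit 1318) (.e (nat_lit 442390) (nat_lit 11) (.e (nat_lit 336230) (nat_lit 14) (.e (nat_lit 401448) (nat_lit 10) (.e (nat_lit 434199) (nat_lit 18) .nil)))) (.g (nat_lit 0) (.e (nat_lit 334448) (nat_lit 0) .nil) .nil)))) (.nd (nat_lit 9) 
(.lf (nat_lit 566727) (.g (nat_lit 227) (.e (nat_lit 442376) (nat_lit 0) (.e (nat_lit 2147) (nat_lit 142) (.e (nat_lit 712448) (nat_lit 5) .nil))) (.g (nat_lit 0) (.e (nat_lit 333068) (nat_lit 0) .nil) .nil))) 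
(.lf (nat_lit 567239) (.g (nat_lit 3614) (.e (nat_lit 442406) (nat_lit 20) (.e (nat_lit 3238) (nat_lit 197) (.e (nat_lit 532523) (nat_lit 7) (.e (nat_lit 319534) (nat_lit 16) (.e (nat_lit 286728) (nat_lit 0) (.e (nat_lit 1802) (nat_lit 119) (.e (nat_lit 516164) (nat_lit 11) .nil))))))) (.g (nat_lit 1) (.e (nat_lit 335445) (nat_lit 0) .nil) .nil))))))) 
(.nd (nat_lit 6) (.nd (nat_lit 7) (.nd (nat_lit 8) (.nd (nat_lit 9) 
(.lf (nat_lit 566311) (.g (nat_lit 3099) (.e (nat_lit 434271) (nat_lit 38) (.e (nat_lit 655380) (nat_lit 6) (.e (nat_lit 188453) (nat_lit 24) (.e (nat_lit 229678) (nat_lit 244) (.e (nat_lit 163908) (nat_lit 12) (.e (nat_lit 426285) (nat_lit 10) .nil)))))) (.g (nat_lit 1) (.e (nat_lit 332037) (nat_lit 0) .nil) .nil))) 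
(.lf (nat_lit 566823) (.g (nat_lit 2703) (.e (nat_lit 442379) (nat_lit 0) (.e (nat_lit 1856) (nat_lit 124) (.e (nat_lit 557101) (nat_lit 13) (.e (nat_lit 172115) (nat_lit 10) (.e (nat_lit 434238) (nat_lit 25) (.e (nat_lit 548896) (nat_lit 14) (.e (nat_lit 2993) (nat_lit 186) .nil))))))) (.g (nat_lit 1) (.e (nat_lit 333213) (nat_lit 0) .nil) .nil)))) (.nd (nat_lit 9) 
(.lf (nat_lit 566567) (.g (nat_lit 1623) (.e (nat_lit 442368) (nat_lit 0) (.e (nat_lit 1862) (nat_lit 124) (.e (nat_lit 557101) (nat_lit 13) (.e (nat_lit 172115) (nat_lit 10) (.e (nat_lit 434238) (nat_lit 25) .nil))))) (.g (nat_lit 0) (.e (nat_lit 332832) (nat_lit 0) .nil) .nil))) 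
(.lf (nat_lit 567079) (.g (nat_lit 1325) (.e (nat_lit 450304) (nat_lit 18) (.e (nat_lit 393251) (nat_lit 18) (.e (nat_lit 164331) (nat_lit 230) (.e (nat_lit 163873) (nat_lit 3) .nil)))) (.g (nat_lit 0) (.e (nat_lit 334816) (nat_lit 0) .nil) .nil))))) (.nd (nat_lit 8) (.nd (nat_lit 9) 
(.lf (nat_lit 566439) (.g (nat_lit 3361) (.e (nat_lit 434289) (nat_lit 43) (.e (nat_lit 696330) (nat_lit 5) (.e (nat_lit 2988) (nat_lit 186) (.e (nat_lit 442390) (nat_lit 11) (.e (nat_lit 336231) (nat_lit 14) (.e (nat_lit 401448) (nat_lit 10) .nil)))))) (.g (nat_lit 1) (.e (nat_lit 332547) (nat_lit 0) .nil) .nil))) 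
(.lf (nat_lit 566951) (.g (nat_lit 605) (.e (nat_lit 442385) (nat_lit 11) (.e (nat_lit 335996) (nat_lit 1) (.e (nat_lit 57692) (nat_lit 156) .nil))) (.g (nat_lit 0) (.e (nat_lit 333834) (nat_lit 0) .nil) .nil)))) (.nd (nat_lit 9) 
(.lf (nat_lit 566695) (.g (nat_lit 2507) (.e (nat_lit 442374) (nat_lit 0) (.e (nat_lit 2059) (nat_lit 142) (.e (nat_lit 704598) (nat_lit 6) (.e (nat_lit 188434) (nat_lit 20) (.e (nat_lit 3408) (nat_lit 212) (.e (nat_lit 655363) (nat_lit 0) (.e (nat_lit 2988) (nat_lit 186) .nil))))))) (.g (nat_lit 1) (.e (nat_lit 333016) (nat_lit 0) .nil) .nil))) 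
(.lf (nat_lit 567207) (.g (nat_lit 4169) (.e (nat_lit 442404) (nat_lit 20) (.e (nat_lit 3238) (nat_lit 197) (.e (nat_lit 532523) (nat_lit 7) (.e (nat_lit 319534) (nat_lit 16) (.e (nat_lit 286735) (nat_lit 3) (.e (nat_lit 98371) (nat_lit 28) .nil)))))) (.g (nat_lit 1) (.e (nat_lit 335384) (nat_lit 0) .nil) .nil)))))) (.nd (nat_lit 7) (.nd (nat_lit 8) (.nd (nat_lit 9) 
(.lf (nat_lit 566375) (.g (nat_lit 2758) (.e (nat_lit 434272) (nat_lit 38) (.e (nat_lit 655378) (nat_lit 4) (.e (nat_lit 172126) (nat_lit 14) (.e (nat_lit 491567) (nat_lit 13) (.e (nat_lit 393284) (nat_lit 24) .nil))))) (.g (nat_lit 0) (.e (nat_lit 332349) (nat_lit 0) .nil) .nil))) 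
(.lf (nat_lit 566887) (.g (nat_lit 1019) (.e (nat_lit 450304) (nat_lit 3) (.e (nat_lit 98334) (nat_lit 18) (.e (nat_lit 164332) (nat_lit 230) (.e (nat_lit 163942) (nat_lit 19) (.e (nat_lit 491264) (nat_lit 11) .nil))))) (.g (nat_lit 0) (.e (nat_lit 333337) (nat_lit 0) .nil) .nil)))) (.nd (nat_lit 9) 
(.lf (nat_lit 566631) (.g (nat_lit 2491) (.e (nat_lit 442374) (nat_lit 0) (.e (nat_lit 1800) (nat_lit 119) (.e (nat_lit 516119) (nat_lit 1) (.e (nat_lit 164325) (nat_lit 230) (.e (nat_lit 163941) (nat_lit 19) (.e (nat_lit 491264) (nat_lit 11) .nil)))))) (.g (nat_lit 1) (.e (nat_lit 332936) (nat_lit 0) .nil) .nil))) 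
(.lf (nat_lit 567143) (.g (nat_lit 4731) (.e (nat_lit 442392) (nat_lit 20) (.e (nat_lit 3238) (nat_lit 197) (.e (nat_lit 532523) (nat_lit 7) (.e (nat_lit 319534) (nat_lit 16) (.e (nat_lit 286735) (nat_lit 3) (.e (nat_lit 98370) (nat_lit 28) .nil)))))) (.g (nat_lit 1) (.e (nat_lit 334957) (nat_lit 0) .nil) .nil))))) (.nd (nat_lit 8) (.nd (nat_lit 9) 
(.lf (nat_lit 566503) (.g (nat_lit 3666) (.e (nat_lit 434289) (nat_lit 43) (.e (nat_lit 696346) (nat_lit 10) (.e (nat_lit 188423) (nat_lit 11) (.e (nat_lit 336231) (nat_lit 14) (.e (nat_lit 401448) (nat_lit 10) .nil))))) (.g (nat_lit 1) (.e (nat_lit 332720) (nat_lit 0) .nil) .nil))) 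
(.lf (nat_lit 567015) (.g (nat_lit 1391) (.e (nat_lit 450304) (nat_lit 11) (.e (nat_lit 336458) (nat_lit 35) (.e (nat_lit 491566) (nat_lit 12) (.e (nat_lit 385063) (nat_lit 25) .nil)))) (.g (nat_lit 0) (.e (nat_lit 334709) (nat_lit 0) .nil) .nil)))) (.nd (nat_lit 9) 
(.lf (nat_lit 566759) (.g (nat_lit 407) (.e (nat_lit 442377) (nat_lit 0) (.e (nat_lit 2059) (nat_lit 142) (.e (nat_lit 704599) (nat_lit 6) .nil))) (.g (nat_lit 0) (.e (nat_lit 333130) (nat_lit 0) .nil) .nil))) 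
(.lf (nat_lit 567271) (.g (nat_lit 316) (.e (nat_lit 442409) (nat_lit 20) (.e (nat_lit 3406) (nat_lit 212) (.e (nat_lit 655379) (nat_lit 5) (.e (nat_lit 188160) (nat_lit 32) .nil)))) (.g (nat_lit 0) (.e (nat_lit 335715) (nat_lit 0) .nil) .nil)))))))) (.nd (nat_lit 5) (.nd (nat_lit 6) (.nd (nat_lit 7) (.nd (nat_lit 8) (.nd (nat_lit 9) 
(.lf (nat_lit 566295) (.g (nat_lit 3536) (.e (nat_lit 434271) (nat_lit 38) (.e (nat_lit 655378) (nat_lit 4) (.e (nat_lit 172126) (nat_lit 14) (.e (nat_lit 491569) (nat_lit 13) (.e (nat_lit 393282) (nat_lit 24) .nil))))) (.g (nat_lit 1) (.e (nat_lit 332001) (nat_lit 0) .nil) .nil))) 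
(.lf (nat_lit 566807) (.g (nat_lit 2513) (.e (nat_lit 442379) (nat_lit 0) (.e (nat_lit 1855) (nat_lit 124) (.e (nat_lit 557098) (nat_lit 13) (.e (nat_lit 172115) (nat_lit 10) (.e (nat_lit 434244) (nat_lit 28) (.e (nat_lit 573449) (nat_lit 9) (.e (nat_lit 460) (nat_lit 34) .nil))))))) (.g (nat_lit 1) (.e (nat_lit 333197) (nat_lit 0) .nil) .nil)))) (.nd (nat_lit 9) 
(.lf (nat_lit 566551) (.g (nat_lit 945) (.e (nat_lit 442112) (nat_lit 46) (.e (nat_lit 720909) (nat_lit 11) (.e (nat_lit 426200) (nat_lit 9) (.e (nat_lit 425986) (nat_lit 0) .nil)))) (.g (nat_lit 0) (.e (nat_lit 332811) (nat_lit 0) .nil) .nil))) 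
(.lf (nat_lit 567063) (.g (nat_lit 1387) (.e (nat_lit 450304) (nat_lit 16) (.e (nat_lit 376859) (nat_lit 21) (.e (nat_lit 57849) (nat_lit 252) (.e (nat_lit 57390) (nat_lit 5) (.e (nat_lit 122624) (nat_lit 13) .nil))))) (.g (nat_lit 0) (.e (nat_lit 334780) (nat_lit 0) .nil) .nil))))) (.nd (nat_lit 8) (.nd (nat_lit 9) 
(.lf (nat_lit 566423) (.g (nat_lit 650) (.e (nat_lit 434288) (nat_lit 43) (.e (nat_lit 696344) (nat_lit 8) (.e (nat_lit 172088) (nat_lit 9) .nil))) (.g (nat_lit 0) (.e (nat_lit 332502) (nat_lit 0) .nil) .nil))) 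
(.lf (nat_lit 566935) (.g (nat_lit 410) (.e (nat_lit 450304) (nat_lit 3) (.e (nat_lit 98342) (nat_lit 20) (.e (nat_lit 229120) (nat_lit 12) .nil))) (.g (nat_lit 0) (.e (nat_lit 333402) (nat_lit 0) .nil) .nil)))) (.nd (nat_lit 9) 
(.lf (nat_lit 566679) (.g (nat_lit 2444) (.e (nat_lit 442374) (nat_lit 0) (.e (nat_lit 1856) (nat_lit 124) (.e (nat_lit 557107) (nat_lit 15) (.e (nat_lit 188441) (nat_lit 20) (.e (nat_lit 3272) (nat_lit 199) (.e (nat_lit 548896) (nat_lit 14) (.e (nat_lit 3004) (nat_lit 186) .nil))))))) (.g (nat_lit 1) (.e (nat_lit 332989) (nat_lit 0) .nil) .nil))) 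
(.lf (nat_lit 567191) (.g (nat_lit 1696) (.e (nat_lit 442402) (nat_lit 20) (.e (nat_lit 3579) (nat_lit 223) (.e (nat_lit 745491) (nat_lit 4) (.e (nat_lit 65598) (nat_lit 9) (.e (nat_lit 336013) (nat_lit 2) (.e (nat_lit 98048) (nat_lit 0) (.e (nat_lit 461) (nat_lit 34) .nil))))))) (.g (nat_lit 1) (.e (nat_lit 335329) (nat_lit 0) .nil) .nil)))))) (.nd (nat_lit 7) (.nd (nat_lit 8) (.nd (nat_lit 9) 
(.lf (nat_lit 566359) (.g (nat_lit 1848) (.e (nat_lit 434272) (nat_lit 38) (.e (nat_lit 655378) (nat_lit 4) (.e (nat_lit 172095) (nat_lit 9) (.e (nat_lit 426025) (nat_lit 0) (.e (nat_lit 3399) (nat_lit 211) .nil))))) (.g (nat_lit 0) (.e (nat_lit 332235) (nat_lit 0) .nil) .nil))) 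
(.lf (nat_lit 566871) (.g (nat_lit 1510) (.e (nat_lit 450304) (nat_lit 3) (.e (nat_lit 98333) (nat_lit 18) (.e (nat_lit 164332) (nat_lit 230) (.e (nat_lit 163941) (nat_lit 19) (.e (nat_lit 491264) (nat_lit 11) .nil))))) (.g (nat_lit 0) (.e (nat_lit 333315) (nat_lit 0) .nil) .nil)))) (.nd (nat_lit 9) 
(.lf (nat_lit 566615) (.g (nat_lit 1924) (.e (nat_lit 442373) (nat_lit 0) (.e (nat_lit 1853) (nat_lit 124) (.e (nat_lit 557107) (nat_lit 15) (.e (nat_lit 188439) (nat_lit 20) (.e (nat_lit 3272) (nat_lit 199) (.e (nat_lit 548897) (nat_lit 14) (.e (nat_lit 2988) (nat_lit 186) .nil))))))) (.g (nat_lit 1) (.e (nat_lit 332915) (nat_lit 0) .nil) .nil))) 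
(.lf (nat_lit 567127) (.g (nat_lit 1013) (.e (nat_lit 450304) (nat_lit 18) (.e (nat_lit 393254) (nat_lit 18) (.e (nat_lit 164326) (nat_lit 230) (.e (nat_lit 163873) (nat_lit 3) (.e (nat_lit 212736) (nat_lit 11) .nil))))) (.g (nat_lit 0) (.e (nat_lit 334902) (nat_lit 0) .nil) .nil))))) (.nd (nat_lit 8) (.nd (nat_lit 9) 
(.lf (nat_lit 566487) (.g (nat_lit 3780) (.e (nat_lit 434289) (nat_lit 43) (.e (nat_lit 696344) (nat_lit 8) (.e (nat_lit 172113) (nat_lit 10) (.e (nat_lit 434289) (nat_lit 43) (.e (nat_lit 696344) (nat_lit 8) (.e (nat_lit 172113) (nat_lit 10) .nil)))))) (.g (nat_lit 1) (.e (nat_lit 332680) (nat_lit 0) .nil) .nil))) 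
(.lf (nat_lit 566999) (.g (nat_lit 2877) (.e (nat_lit 442390) (nat_lit 11) (.e (nat_lit 336232) (nat_lit 14) (.e (nat_lit 401446) (nat_lit 10) (.e (nat_lit 434289) (nat_lit 43) (.e (nat_lit 696330) (nat_lit 5) (.e (nat_lit 2988) (nat_lit 186) .nil)))))) (.g (nat_lit 1) (.e (nat_lit 334567) (nat_lit 0) .nil) .nil)))) (.nd (nat_lit 9) 
(.lf (nat_lit 566743) (.g (nat_lit 1918) (.e (nat_lit 442377) (nat_lit 0) (.e (nat_lit 1800) (nat_lit 119) (.e (nat_lit 516120) (nat_lit 1) (.e (nat_lit 164332) (nat_lit 230) (.e (nat_lit 163905) (nat_lit 12) .nil))))) (.g (nat_lit 0) (.e (nat_lit 333104) (nat_lit 0) .nil) .nil))) 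
(.lf (nat_lit 567255) (.g (nat_lit 2223) (.e (nat_lit 442408) (nat_lit 20) (.e (nat_lit 3391) (nat_lit 210) (.e (nat_lit 639021) (nat_lit 16) (.e (nat_lit 65610) (nat_lit 10) (.e (nat_lit 344160) (nat_lit 37) (.e (nat_lit 647190) (nat_lit 9) (.e (nat_lit 7936) (nat_lit 34) .nil))))))) (.g (nat_lit 1) (.e (nat_lit 335545) (nat_lit 0) .nil) .nil))))))) 
(.nd (nat_lit 6) (.nd (nat_lit 7) (.nd (nat_lit 8) (.nd (nat_lit 9) 
(.lf (nat_lit 566327) (.g (nat_lit 1540) (.e (nat_lit 434272) (nat_lit 38) (.e (nat_lit 655375) (nat_lit 3) (.e (nat_lit 163973) (nat_lit 30) (.e (nat_lit 573485) (nat_lit 13) (.e (nat_lit 65619) (nat_lit 10) .nil))))) (.g (nat_lit 0) (.e (nat_lit 332108) (nat_lit 0) .nil) .nil))) 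
(.lf (nat_lit 566839) (.g (nat_lit 971) (.e (nat_lit 442379) (nat_lit 0) (.e (nat_lit 2059) (nat_lit 142) (.e (nat_lit 704595) (nat_lit 5) (.e (nat_lit 188160) (nat_lit 48) .nil)))) (.g (nat_lit 0) (.e (nat_lit 333252) (nat_lit 0) .nil) .nil)))) (.nd (nat_lit 9) 
(.lf (nat_lit 566583) (.g (nat_lit 3826) (.e (nat_lit 442372) (nat_lit 0) (.e (nat_lit 1855) (nat_lit 124) (.e (nat_lit 557101) (nat_lit 13) (.e (nat_lit 172115) (nat_lit 10) (.e (nat_lit 434244) (nat_lit 28) (.e (nat_lit 573450) (nat_lit 9) (.e (nat_lit 455) (nat_lit 34) .nil))))))) (.g (nat_lit 1) (.e (nat_lit 332878) (nat_lit 0) .nil) .nil))) 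
(.lf (nat_lit 567095) (.g (nat_lit 1568) (.e (nat_lit 450304) (nat_lit 18) (.e (nat_lit 393253) (nat_lit 18) (.e (nat_lit 164324) (nat_lit 230) (.e (nat_lit 163872) (nat_lit 3) (.e (nat_lit 212736) (nat_lit 11) .nil))))) (.g (nat_lit 0) (.e (nat_lit 334854) (nat_lit 0) .nil) .nil))))) (.nd (nat_lit 8) (.nd (nat_lit 9) 
(.lf (nat_lit 566455) (.g (nat_lit 2440) (.e (nat_lit 434289) (nat_lit 43) (.e (nat_lit 696344) (nat_lit 8) (.e (nat_lit 172067) (nat_lit 3) (.e (nat_lit 204837) (nat_lit 20) (.e (nat_lit 114707) (nat_lit 20) .nil))))) (.g (nat_lit 0) (.e (nat_lit 332643) (nat_lit 0) .nil) .nil))) 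
(.lf (nat_lit 566967) (.g (nat_lit 1525) (.e (nat_lit 442390) (nat_lit 11) (.e (nat_lit 335986) (nat_lit 1) (.e (nat_lit 57688) (nat_lit 156) (.e (nat_lit 163904) (nat_lit 12) (.e (nat_lit 426436) (nat_lit 18) .nil))))) (.g (nat_lit 0) (.e (nat_lit 334379) (nat_lit 0) .nil) .nil)))) (.nd (nat_lit 9) 
(.lf (nat_lit 566711) (.g (nat_lit 1215) (.e (nat_lit 442374) (nat_lit 0) (.e (nat_lit 2175) (nat_lit 143) (.e (nat_lit 712750) (nat_lit 29) (.e (nat_lit 442428) (nat_lit 24) .nil)))) (.g (nat_lit 0) (.e (nat_lit 333035) (nat_lit 0) .nil) .nil))) 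
(.lf (nat_lit 567223) (.g (nat_lit 1699) (.e (nat_lit 442406) (nat_lit 20) (.e (nat_lit 3238) (nat_lit 197) (.e (nat_lit 532523) (nat_lit 7) (.e (nat_lit 319505) (nat_lit 10) (.e (nat_lit 5389) (nat_lit 301) .nil))))) (.g (nat_lit 0) (.e (nat_lit 335429) (nat_lit 0) .nil) .nil)))))) (.nd (nat_lit 7) (.nd (nat_lit 8) (.nd (nat_lit 9) 
(.lf (nat_lit 566391) (.g (nat_lit 2297) (.e (nat_lit 434272) (nat_lit 38) (.e (nat_lit 655380) (nat_lit 6) (.e (nat_lit 188440) (nat_lit 20) (.e (nat_lit 3409) (nat_lit 212) (.e (nat_lit 655378) (nat_lit 4) (.e (nat_lit 172116) (nat_lit 10) .nil)))))) (.g (nat_lit 1) (.e (nat_lit 332365) (nat_lit 0) .nil) .nil))) 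
(.lf (nat_lit 566903) (.g (nat_lit 1635) (.e (nat_lit 450304) (nat_lit 3) (.e (nat_lit 98335) (nat_lit 18) (.e (nat_lit 164330) (nat_lit 230) (.e (nat_lit 163901) (nat_lit 12) .nil)))) (.g (nat_lit 0) (.e (nat_lit 333360) (nat_lit 0) .nil) .nil)))) (.nd (nat_lit 9) 
(.lf (nat_lit 566647) (.g (nat_lit 2226) (.e (nat_lit 442374) (nat_lit 0) (.e (nat_lit 1800) (nat_lit 119) (.e (nat_lit 516124) (nat_lit 2) (.e (nat_lit 213030) (nat_lit 11) (.e (nat_lit 24608) (nat_lit 3) (.e (nat_lit 98369) (nat_lit 28) .nil)))))) (.g (nat_lit 1) (.e (nat_lit 332952) (nat_lit 0) .nil) .nil))) 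
(.lf (nat_lit 567159) (.g (nat_lit 210) (.e (nat_lit 442399) (nat_lit 20) (.e (nat_lit 3402) (nat_lit 211) (.e (nat_lit 647183) (nat_lit 4) .nil))) (.g (nat_lit 0) (.e (nat_lit 335147) (nat_lit 0) .nil) .nil))))) (.nd (nat_lit 8) (.nd (nat_lit 9) 
(.lf (nat_lit 566519) (.g (nat_lit 3872) (.e (nat_lit 434289) (nat_lit 43) (.e (nat_lit 696346) (nat_lit 10) (.e (nat_lit 188440) (nat_lit 20) (.e (nat_lit 3469) (nat_lit 217) (.e (nat_lit 696344) (nat_lit 8) (.e (nat_lit 172106) (nat_lit 10) .nil)))))) (.g (nat_lit 1) (.e (nat_lit 332738) (nat_lit 0) .nil) .nil))) 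
(.lf (nat_lit 567031) (.g (nat_lit 1736) (.e (nat_lit 450304) (nat_lit 13) (.e (nat_lit 352309) (nat_lit 21) (.e (nat_lit 57848) (nat_lit 252) (.e (nat_lit 57388) (nat_lit 5) (.e (nat_lit 122624) (nat_lit 13) .nil))))) (.g (nat_lit 0) (.e (nat_lit 334729) (nat_lit 0) .nil) .nil)))) (.nd (nat_lit 9) 
(.lf (nat_lit 566775) (.g (nat_lit 2364) (.e (nat_lit 442378) (nat_lit 0) (.e (nat_lit 1856) (nat_lit 124) (.e (nat_lit 557100) (nat_lit 13) (.e (nat_lit 172106) (nat_lit 10) (.e (nat_lit 434244) (nat_lit 28) (.e (nat_lit 573450) (nat_lit 9) (.e (nat_lit 459) (nat_lit 34) .nil))))))) (.g (nat_lit 1) (.e (nat_lit 333149) (nat_lit 0) .nil) .nil))) 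
(.lf (nat_lit 567287) (.g (nat_lit 2766) (.e (nat_lit 442414) (nat_lit 20) (.e (nat_lit 3308) (nat_lit 202) (.e (nat_lit 573475) (nat_lit 12) (.e (nat_lit 57572) (nat_lit 54) (.e (nat_lit 770072) (nat_lit 8) .nil))))) (.g (nat_lit 0) (.e (nat_lit 335842) (nat_lit 0) .nil) .nil))))))))) (.nd (nat_lit 4) (.nd (nat_lit 5) (.nd (nat_lit 6) (.nd (nat_lit 7) (.nd (nat_lit 8) (.nd (nat_lit 9) 
(.lf (nat_lit 566287) (.g (nat_lit 1017) (.e (nat_lit 434271) (nat_lit 38) (.e (nat_lit 655378) (nat_lit 4) (.e (nat_lit 172113) (nat_lit 10) (.e (nat_lit 434279) (nat_lit 39) .nil)))) (.g (nat_lit 0) (.e (nat_lit 331950) (nat_lit 0) .nil) .nil))) 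
(.lf (nat_lit 566799) (.g (nat_lit 1527) (.e (nat_lit 442379) (nat_lit 0) (.e (nat_lit 1784) (nat_lit 119) (.e (nat_lit 516117) (nat_lit 1) (.e (nat_lit 164332) (nat_lit 230) (.e (nat_lit 163905) (nat_lit 12) .nil))))) (.g (nat_lit 0) (.e (nat_lit 333183) (nat_lit 0) .nil) .nil)))) (.nd (nat_lit 9) 
(.lf (nat_lit 566543) (.g (nat_lit 2410) (.e (nat_lit 434292) (nat_lit 44) (.e (nat_lit 704629) (nat_lit 9) (.e (nat_lit 442) (nat_lit 33) (.e (nat_lit 434248) (nat_lit 28) (.e (nat_lit 573452) (nat_lit 9) .nil))))) (.g (nat_lit 0) (.e (nat_lit 332789) (nat_lit 0) .nil) .nil))) 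
(.lf (nat_lit 567055) (.g (nat_lit 1436) (.e (nat_lit 450304) (nat_lit 16) (.e (nat_lit 376859) (nat_lit 21) (.e (nat_lit 57844) (nat_lit 252) (.e (nat_lit 57388) (nat_lit 5) (.e (nat_lit 122624) (nat_lit 13) .nil))))) (.g (nat_lit 0) (.e (nat_lit 334771) (nat_lit 0) .nil) .nil))))) (.nd (nat_lit 8) (.nd (nat_lit 9) 
(.lf (nat_lit 566415) (.g (nat_lit 1176) (.e (nat_lit 434287) (nat_lit 43) (.e (nat_lit 696344) (nat_lit 8) (.e (nat_lit 172113) (nat_lit 10) (.e (nat_lit 434287) (nat_lit 43) .nil)))) (.g (nat_lit 0) (.e (nat_lit 332476) (nat_lit 0) .nil) .nil))) 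
(.lf (nat_lit 566927) (.g (nat_lit 1262) (.e (nat_lit 450304) (nat_lit 3) (.e (nat_lit 98341) (nat_lit 20) (.e (nat_lit 221194) (nat_lit 11) (.e (nat_lit 336026) (nat_lit 3) .nil)))) (.g (nat_lit 0) (.e (nat_lit 333392) (nat_lit 0) .nil) .nil)))) (.nd (nat_lit 9) 
(.lf (nat_lit 566671) (.g (nat_lit 2546) (.e (nat_lit 442374) (nat_lit 0) (.e (nat_lit 1856) (nat_lit 124) (.e (nat_lit 557101) (nat_lit 13) (.e (nat_lit 172115) (nat_lit 10) (.e (nat_lit 434244) (nat_lit 28) (.e (nat_lit 573450) (nat_lit 9) (.e (nat_lit 455) (nat_lit 34) .nil))))))) (.g (nat_lit 1) (.e (nat_lit 332981) (nat_lit 0) .nil) .nil))) 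
(.lf (nat_lit 567183) (.g (nat_lit 1948) (.e (nat_lit 442402) (nat_lit 20) (.e (nat_lit 3391) (nat_lit 210) (.e (nat_lit 639021) (nat_lit 16) (.e (nat_lit 65619) (nat_lit 10) (.e (nat_lit 344160) (nat_lit 37) (.e (nat_lit 647195) (nat_lit 9) (.e (nat_lit 7936) (nat_lit 34) .nil))))))) (.g (nat_lit 1) (.e (nat_lit 335274) (nat_lit 0) .nil) .nil)))))) 
(.nd (nat_lit 7) (.nd (nat_lit 8) (.nd (nat_lit 9) 
(.lf (nat_lit 566351) (.g (nat_lit 2517) (.e (nat_lit 434272) (nat_lit 38) (.e (nat_lit 655375) (nat_lit 3) (.e (nat_lit 163979) (nat_lit 30) (.e (nat_lit 573491) (nat_lit 15) (.e (nat_lit 81956) (nat_lit 23) .nil))))) (.g (nat_lit 0) (.e (nat_lit 332191) (nat_lit 0) .nil) .nil))) 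
(.lf (nat_lit 566863) (.g (nat_lit 1933) (.e (nat_lit 450304) (nat_lit 3) (.e (nat_lit 98333) (nat_lit 18) (.e (nat_lit 164325) (nat_lit 230) (.e (nat_lit 163941) (nat_lit 19) (.e (nat_lit 491264) (nat_lit 11) .nil))))) (.g (nat_lit 0) (.e (nat_lit 333304) (nat_lit 0) .nil) .nil)))) (.nd (nat_lit 9) 
(.lf (nat_lit 566607) (.g (nat_lit 3651) (.e (nat_lit 442373) (nat_lit 0) (.e (nat_lit 1853) (nat_lit 124) (.e (nat_lit 557100) (nat_lit 13) (.e (nat_lit 172113) (nat_lit 10) (.e (nat_lit 434245) (nat_lit 28) (.e (nat_lit 573450) (nat_lit 9) (.e (nat_lit 457) (nat_lit 34) .nil))))))) (.g (nat_lit 1) (.e (nat_lit 332907) (nat_lit 0) .nil) .nil))) 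
(.lf (nat_lit 567119) (.g (nat_lit 828) (.e (nat_lit 450304) (nat_lit 18) (.e (nat_lit 393253) (nat_lit 18) (.e (nat_lit 164401) (nat_lit 256) (.e (nat_lit 57376) (nat_lit 3) .nil)))) (.g (nat_lit 0) (.e (nat_lit 334883) (nat_lit 0) .nil) .nil))))) (.nd (nat_lit 8) (.nd (nat_lit 9) 
(.lf (nat_lit 566479) (.g (nat_lit 931) (.e (nat_lit 434289) (nat_lit 43) (.e (nat_lit 696344) (nat_lit 8) (.e (nat_lit 172113) (nat_lit 10) (.e (nat_lit 434208) (nat_lit 18) .nil)))) (.g (nat_lit 0) (.e (nat_lit 332671) (nat_lit 0) .nil) .nil))) 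
(.lf (nat_lit 566991) (.g (nat_lit 2454) (.e (nat_lit 442390) (nat_lit 11) (.e (nat_lit 336231) (nat_lit 14) (.e (nat_lit 401448) (nat_lit 10) (.e (nat_lit 434287) (nat_lit 43) (.e (nat_lit 696327) (nat_lit 5) (.e (nat_lit 2988) (nat_lit 186) .nil)))))) (.g (nat_lit 1) (.e (nat_lit 334527) (nat_lit 0) .nil) .nil)))) (.nd (nat_lit 9) 
(.lf (nat_lit 566735) (.g (nat_lit 2164) (.e (nat_lit 442377) (nat_lit 0) (.e (nat_lit 1800) (nat_lit 119) (.e (nat_lit 516115) (nat_lit 1) (.e (nat_lit 164325) (nat_lit 230) (.e (nat_lit 163907) (nat_lit 12) .nil))))) (.g (nat_lit 0) (.e (nat_lit 333095) (nat_lit 0) .nil) .nil))) 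
(.lf (nat_lit 567247) (.g (nat_lit 3203) (.e (nat_lit 442406) (nat_lit 20) (.e (nat_lit 3297) (nat_lit 202) (.e (nat_lit 573471) (nat_lit 11) (.e (nat_lit 16425) (nat_lit 7) (.e (nat_lit 409617) (nat_lit 10) (.e (nat_lit 7936) (nat_lit 43) (.e (nat_lit 516164) (nat_lit 11) .nil))))))) (.g (nat_lit 1) (.e (nat_lit 335463) (nat_lit 0) .nil) .nil))))))) 
(.nd (nat_lit 6) (.nd (nat_lit 7) (.nd (nat_lit 8) (.nd (nat_lit 9) 
(.lf (nat_lit 566319) (.g (nat_lit 1157) (.e (nat_lit 434272) (nat_lit 38) (.e (nat_lit 655364) (nat_lit 0) (.e (nat_lit 3016) (nat_lit 187) (.e (nat_lit 450597) (nat_lit 17) .nil)))) (.g (nat_lit 0) (.e (nat_lit 332069) (nat_lit 0) .nil) .nil))) 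
(.lf (nat_lit 566831) (.g (nat_lit 3069) (.e (nat_lit 442379) (nat_lit 0) (.e (nat_lit 2058) (nat_lit 142) (.e (nat_lit 704595) (nat_lit 5) (.e (nat_lit 180277) (nat_lit 32) (.e (nat_lit 1427) (nat_lit 108) (.e (nat_lit 336430) (nat_lit 29) .nil)))))) (.g (nat_lit 1) (.e (nat_lit 333234) (nat_lit 0) .nil) .nil)))) (.nd (nat_lit 9) 
(.lf (nat_lit 566575) (.g (nat_lit 1229) (.e (nat_lit 442372) (nat_lit 0) (.e (nat_lit 1800) (nat_lit 119) (.e (nat_lit 516119) (nat_lit 1) (.e (nat_lit 164325) (nat_lit 230) .nil)))) (.g (nat_lit 0) (.e (nat_lit 332870) (nat_lit 0) .nil) .nil))) 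
(.lf (nat_lit 567087) (.g (nat_lit 817) (.e (nat_lit 450304) (nat_lit 18) (.e (nat_lit 393251) (nat_lit 18) (.e (nat_lit 164401) (nat_lit 256) .nil))) (.g (nat_lit 0) (.e (nat_lit 334831) (nat_lit 0) .nil) .nil))))) (.nd (nat_lit 8) (.nd (nat_lit 9) 
(.lf (nat_lit 566447) (.g (nat_lit 2839) (.e (nat_lit 434289) (nat_lit 43) (.e (nat_lit 696343) (nat_lit 8) (.e (nat_lit 172107) (nat_lit 10) (.e (nat_lit 434289) (nat_lit 43) (.e (nat_lit 696344) (nat_lit 8) (.e (nat_lit 172116) (nat_lit 10) .nil)))))) (.g (nat_lit 1) (.e (nat_lit 332618) (nat_lit 0) .nil) .nil))) 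
(.lf (nat_lit 566959) (.g (nat_lit 3377) (.e (nat_lit 442387) (nat_lit 11) (.e (nat_lit 336231) (nat_lit 14) (.e (nat_lit 401448) (nat_lit 10) (.e (nat_lit 434289) (nat_lit 43) (.e (nat_lit 696330) (nat_lit 5) .nil))))) (.g (nat_lit 0) (.e (nat_lit 334077) (nat_lit 0) .nil) .nil)))) (.nd (nat_lit 9) 
(.lf (nat_lit 566703) (.g (nat_lit 3202) (.e (nat_lit 442374) (nat_lit 0) (.e (nat_lit 2059) (nat_lit 142) (.e (nat_lit 704599) (nat_lit 6) (.e (nat_lit 188453) (nat_lit 24) (.e (nat_lit 229680) (nat_lit 244) (.e (nat_lit 163920) (nat_lit 14) .nil)))))) (.g (nat_lit 1) (.e (nat_lit 333024) (nat_lit 0) .nil) .nil))) 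
(.lf (nat_lit 567215) (.g (nat_lit 3578) (.e (nat_lit 442405) (nat_lit 20) (.e (nat_lit 3308) (nat_lit 202) (.e (nat_lit 573471) (nat_lit 11) (.e (nat_lit 16425) (nat_lit 7) (.e (nat_lit 409616) (nat_lit 10) .nil))))) (.g (nat_lit 0) (.e (nat_lit 335394) (nat_lit 0) .nil) .nil)))))) (.nd (nat_lit 7) (.nd (nat_lit 8) (.nd (nat_lit 9) 
(.lf (nat_lit 566383) (.g (nat_lit 1847) (.e (nat_lit 434272) (nat_lit 38) (.e (nat_lit 655380) (nat_lit 6) (.e (nat_lit 188438) (nat_lit 20) (.e (nat_lit 3407) (nat_lit 212) (.e (nat_lit 655378) (nat_lit 4) (.e (nat_lit 172107) (nat_lit 10) .nil)))))) (.g (nat_lit 1) (.e (nat_lit 332357) (nat_lit 0) .nil) .nil))) 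
(.lf (nat_lit 566895) (.g (nat_lit 1393) (.e (nat_lit 450304) (nat_lit 3) (.e (nat_lit 98335) (nat_lit 18) (.e (nat_lit 164325) (nat_lit 230) (.e (nat_lit 163943) (nat_lit 19) (.e (nat_lit 491264) (nat_lit 11) .nil))))) (.g (nat_lit 0) (.e (nat_lit 333349) (nat_lit 0) .nil) .nil)))) (.nd (nat_lit 9) 
(.lf (nat_lit 566639) (.g (nat_lit 2102) (.e (nat_lit 442374) (nat_lit 0) (.e (nat_lit 1800) (nat_lit 119) (.e (nat_lit 516120) (nat_lit 1) (.e (nat_lit 164329) (nat_lit 230) (.e (nat_lit 163942) (nat_lit 19) (.e (nat_lit 491264) (nat_lit 11) .nil)))))) (.g (nat_lit 1) (.e (nat_lit 332944) (nat_lit 0) .nil) .nil))) 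
(.lf (nat_lit 567151) (.g (nat_lit 1220) (.e (nat_lit 442396) (nat_lit 20) (.e (nat_lit 3571) (nat_lit 222) (.e (nat_lit 737300) (nat_lit 7) (.e (nat_lit 286747) (nat_lit 9) (.e (nat_lit 336013) (nat_lit 2) (.e (nat_lit 98048) (nat_lit 0) (.e (nat_lit 463) (nat_lit 34) .nil))))))) (.g (nat_lit 1) (.e (nat_lit 335074) (nat_lit 0) .nil) .nil))))) (.nd (nat_lit 8) (.nd (nat_lit 9) 
(.lf (nat_lit 566511) (.g (nat_lit 3506) (.e (nat_lit 434289) (nat_lit 43) (.e (nat_lit 696346) (nat_lit 10) (.e (nat_lit 188435) (nat_lit 20) (.e (nat_lit 3469) (nat_lit 217) (.e (nat_lit 696344) (nat_lit 8) (.e (nat_lit 172106) (nat_lit 10) .nil)))))) (.g (nat_lit 1) (.e (nat_lit 332729) (nat_lit 0) .nil) .nil))) 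
(.lf (nat_lit 567023) (.g (nat_lit 677) (.e (nat_lit 450304) (nat_lit 13) (.e (nat_lit 352307) (nat_lit 21) (.e (nat_lit 57848) (nat_lit 252) (.e (nat_lit 57390) (nat_lit 5) (.e (nat_lit 122624) (nat_lit 13) .nil))))) (.g (nat_lit 0) (.e (nat_lit 334721) (nat_lit 0) .nil) .nil)))) (.nd (nat_lit 9) 
(.lf (nat_lit 566767) (.g (nat_lit 1799) (.e (nat_lit 442378) (nat_lit 0) (.e (nat_lit 1798) (nat_lit 119) (.e (nat_lit 516120) (nat_lit 1) (.e (nat_lit 164329) (nat_lit 230) (.e (nat_lit 163941) (nat_lit 19) (.e (nat_lit 491264) (nat_lit 11) .nil)))))) (.g (nat_lit 1) (.e (nat_lit 333140) (nat_lit 0) .nil) .nil))) 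
(.lf (nat_lit 567279) (.g (nat_lit 2094) (.e (nat_lit 442409) (nat_lit 20) (.e (nat_lit 3409) (nat_lit 212) (.e (nat_lit 655378) (nat_lit 4) (.e (nat_lit 172079) (nat_lit 7) (.e (nat_lit 409618) (nat_lit 10) (.e (nat_lit 5363) (nat_lit 298) (.e (nat_lit 463) (nat_lit 34) .nil))))))) (.g (nat_lit 1) (.e (nat_lit 335766) (nat_lit 0) .nil) .nil)))))))) 
(.nd (nat_lit 5) (.nd (nat_lit 6) (.nd (nat_lit 7) (.nd (nat_lit 8) (.nd (nat_lit 9) 
(.lf (nat_lit 566303) (.g (nat_lit 2257) (.e (nat_lit 434271) (nat_lit 38) (.e (nat_lit 655380) (nat_lit 6) (.e (nat_lit 188439) (nat_lit 20) (.e (nat_lit 3406) (nat_lit 212) (.e (nat_lit 655378) (nat_lit 4) (.e (nat_lit 172115) (nat_lit 10) .nil)))))) (.g (nat_lit 1) (.e (nat_lit 332012) (nat_lit 0) .nil) .nil))) 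
(.lf (nat_lit 566815) (.g (nat_lit 4151) (.e (nat_lit 442379) (nat_lit 0) (.e (nat_lit 1856) (nat_lit 124) (.e (nat_lit 557100) (nat_lit 13) (.e (nat_lit 172113) (nat_lit 10) (.e (nat_lit 434242) (nat_lit 28) (.e (nat_lit 573465) (nat_lit 9) (.e (nat_lit 461) (nat_lit 34) .nil))))))) (.g (nat_lit 1) (.e (nat_lit 333205) (nat_lit 0) .nil) .nil)))) (.nd (nat_lit 9) 
(.lf (nat_lit 566559) (.g (nat_lit 2887) (.e (nat_lit 434295) (nat_lit 49) (.e (nat_lit 745491) (nat_lit 4) (.e (nat_lit 65617) (nat_lit 10) (.e (nat_lit 344132) (nat_lit 26) (.e (nat_lit 557118) (nat_lit 18) (.e (nat_lit 2808) (nat_lit 180) (.e (nat_lit 303140) (nat_lit 10) .nil))))))) (.g (nat_lit 1) (.e (nat_lit 332821) (nat_lit 0) .nil) .nil))) 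
(.lf (nat_lit 567071) (.g (nat_lit 396) (.e (nat_lit 450304) (nat_lit 16) (.e (nat_lit 376860) (nat_lit 21) (.e (nat_lit 57854) (nat_lit 252) .nil))) (.g (nat_lit 0) (.e (nat_lit 334789) (nat_lit 0) .nil) .nil))))) (.nd (nat_lit 8) (.nd (nat_lit 9) 
(.lf (nat_lit 566431) (.g (nat_lit 2326) (.e (nat_lit 434288) (nat_lit 43) (.e (nat_lit 696344) (nat_lit 8) (.e (nat_lit 172112) (nat_lit 10) (.e (nat_lit 434289) (nat_lit 43) (.e (nat_lit 696343) (nat_lit 8) (.e (nat_lit 172106) (nat_lit 10) .nil)))))) (.g (nat_lit 1) (.e (nat_lit 332510) (nat_lit 0) .nil) .nil))) 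
(.lf (nat_lit 566943) (.g (nat_lit 1237) (.e (nat_lit 442383) (nat_lit 9) (.e (nat_lit 319490) (nat_lit 0) (.e (nat_lit 5664) (nat_lit 312) (.e (nat_lit 2973) (nat_lit 185) .nil)))) (.g (nat_lit 0) (.e (nat_lit 333517) (nat_lit 0) .nil) .nil)))) (.nd (nat_lit 9) 
(.lf (nat_lit 566687) (.g (nat_lit 1885) (.e (nat_lit 442374) (nat_lit 0) (.e (nat_lit 2059) (nat_lit 142) (.e (nat_lit 704595) (nat_lit 5) (.e (nat_lit 180276) (nat_lit 32) (.e (nat_lit 1515) (nat_lit 108) (.e (nat_lit 343808) (nat_lit 29) .nil)))))) (.g (nat_lit 1) (.e (nat_lit 333004) (nat_lit 0) .nil) .nil))) 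
(.lf (nat_lit 567199) (.g (nat_lit 2552) (.e (nat_lit 442404) (nat_lit 20) (.e (nat_lit 3238) (nat_lit 197) (.e (nat_lit 532522) (nat_lit 7) (.e (nat_lit 319530) (nat_lit 16) (.e (nat_lit 286733) (nat_lit 2) (.e (nat_lit 90134) (nat_lit 9) (.e (nat_lit 3002) (nat_lit 186) .nil))))))) (.g (nat_lit 1) (.e (nat_lit 335376) (nat_lit 0) .nil) .nil)))))) 
(.nd (nat_lit 7) (.nd (nat_lit 8) (.nd (nat_lit 9) 
(.lf (nat_lit 566367) (.g (nat_lit 2647) (.e (nat_lit 434272) (nat_lit 38) (.e (nat_lit 655378) (nat_lit 4) (.e (nat_lit 172125) (nat_lit 14) (.e (nat_lit 491569) (nat_lit 13) (.e (nat_lit 393282) (nat_lit 24) .nil))))) (.g (nat_lit 1) (.e (nat_lit 332315) (nat_lit 0) .nil) .nil))) 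
(.lf (nat_lit 566879) (.g (nat_lit 2630) (.e (nat_lit 450304) (nat_lit 3) (.e (nat_lit 98334) (nat_lit 18) (.e (nat_lit 164330) (nat_lit 230) (.e (nat_lit 163902) (nat_lit 12) (.e (nat_lit 426479) (nat_lit 27) .nil))))) (.g (nat_lit 0) (.e (nat_lit 333326) (nat_lit 0) .nil) .nil)))) (.nd (nat_lit 9) 
(.lf (nat_lit 566623) (.g (nat_lit 1797) (.e (nat_lit 442374) (nat_lit 0) (.e (nat_lit 1800) (nat_lit 119) (.e (nat_lit 516117) (nat_lit 1) (.e (nat_lit 164322) (nat_lit 230) (.e (nat_lit 163902) (nat_lit 12) .nil))))) (.g (nat_lit 0) (.e (nat_lit 332928) (nat_lit 0) .nil) .nil))) 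
(.lf (nat_lit 567135) (.g (nat_lit 216) (.e (nat_lit 450304) (nat_lit 18) (.e (nat_lit 393254) (nat_lit 18) (.e (nat_lit 164401) (nat_lit 256) .nil))) (.g (nat_lit 0) (.e (nat_lit 334911) (nat_lit 0) .nil) .nil))))) (.nd (nat_lit 8) (.nd (nat_lit 9) 
(.lf (nat_lit 566495) (.g (nat_lit 3291) (.e (nat_lit 434289) (nat_lit 43) (.e (nat_lit 696344) (nat_lit 8) (.e (nat_lit 172116) (nat_lit 10) (.e (nat_lit 434289) (nat_lit 43) (.e (nat_lit 696344) (nat_lit 8) (.e (nat_lit 172107) (nat_lit 10) .nil)))))) (.g (nat_lit 1) (.e (nat_lit 332689) (nat_lit 0) .nil) .nil))) 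
(.lf (nat_lit 567007) (.g (nat_lit 2108) (.e (nat_lit 442390) (nat_lit 11) (.e (nat_lit 336232) (nat_lit 14) (.e (nat_lit 401448) (nat_lit 10) (.e (nat_lit 434288) (nat_lit 43) (.e (nat_lit 696326) (nat_lit 5) .nil))))) (.g (nat_lit 0) (.e (nat_lit 334603) (nat_lit 0) .nil) .nil)))) (.nd (nat_lit 9) 
(.lf (nat_lit 566751) (.g (nat_lit 861) (.e (nat_lit 442377) (nat_lit 0) (.e (nat_lit 2058) (nat_lit 142) (.e (nat_lit 704595) (nat_lit 5) (.e (nat_lit 188160) (nat_lit 32) .nil)))) (.g (nat_lit 0) (.e (nat_lit 333113) (nat_lit 0) .nil) .nil))) 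
(.lf (nat_lit 567263) (.g (nat_lit 1763) (.e (nat_lit 442409) (nat_lit 20) (.e (nat_lit 3390) (nat_lit 210) (.e (nat_lit 639021) (nat_lit 16) (.e (nat_lit 65617) (nat_lit 10) (.e (nat_lit 344164) (nat_lit 37) (.e (nat_lit 647190) (nat_lit 9) (.e (nat_lit 7936) (nat_lit 34) .nil))))))) (.g (nat_lit 1) (.e (nat_lit 335699) (nat_lit 0) .nil) .nil))))))) 
(.nd (nat_lit 6) (.nd (nat_lit 7) (.nd (nat_lit 8) (.nd (nat_lit 9) 
(.lf (nat_lit 566335) (.g (nat_lit 4259) (.e (nat_lit 434272) (nat_lit 38) (.e (nat_lit 655375) (nat_lit 3) (.e (nat_lit 163978) (nat_lit 30) (.e (nat_lit 573481) (nat_lit 13) (.e (nat_lit 65604) (nat_lit 9) (.e (nat_lit 336028) (nat_lit 3) (.e (nat_lit 98366) (nat_lit 27) .nil))))))) (.g (nat_lit 1) (.e (nat_lit 332116) (nat_lit 0) .nil) .nil))) 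
(.lf (nat_lit 566847) (.g (nat_lit 3110) (.e (nat_lit 450304) (nat_lit 0) (.e (nat_lit 1788) (nat_lit 119) (.e (nat_lit 516117) (nat_lit 1) (.e (nat_lit 164329) (nat_lit 230) (.e (nat_lit 163902) (nat_lit 12) .nil))))) (.g (nat_lit 0) (.e (nat_lit 333272) (nat_lit 0) .nil) .nil)))) (.nd (nat_lit 9) 
(.lf (nat_lit 566591) (.g (nat_lit 2168) (.e (nat_lit 442373) (nat_lit 0) (.e (nat_lit 1796) (nat_lit 119) (.e (nat_lit 516117) (nat_lit 1) (.e (nat_lit 164329) (nat_lit 230) (.e (nat_lit 163902) (nat_lit 12) .nil))))) (.g (nat_lit 0) (.e (nat_lit 332889) (nat_lit 0) .nil) .nil))) 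
(.lf (nat_lit 567103) (.g (nat_lit 1192) (.e (nat_lit 450304) (nat_lit 18) (.e (nat_lit 393253) (nat_lit 18) (.e (nat_lit 164326) (nat_lit 230) (.e (nat_lit 163875) (nat_lit 3) (.e (nat_lit 212736) (nat_lit 11) .nil))))) (.g (nat_lit 0) (.e (nat_lit 334866) (nat_lit 0) .nil) .nil))))) (.nd (nat_lit 8) (.nd (nat_lit 9) 
(.lf (nat_lit 566463) (.g (nat_lit 913) (.e (nat_lit 434289) (nat_lit 43) (.e (nat_lit 696344) (nat_lit 8) (.e (nat_lit 172106) (nat_lit 10) (.e (nat_lit 434202) (nat_lit 18) .nil)))) (.g (nat_lit 0) (.e (nat_lit 332654) (nat_lit 0) .nil) .nil))) 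
(.lf (nat_lit 566975) (.g (nat_lit 434) (.e (nat_lit 442390) (nat_lit 11) (.e (nat_lit 336229) (nat_lit 14) (.e (nat_lit 401448) (nat_lit 10) .nil))) (.g (nat_lit 0) (.e (nat_lit 334426) (nat_lit 0) .nil) .nil)))) (.nd (nat_lit 9) 
(.lf (nat_lit 566719) (.g (nat_lit 744) (.e (nat_lit 442374) (nat_lit 0) (.e (nat_lit 2175) (nat_lit 143) (.e (nat_lit 712754) (nat_lit 30) (.e (nat_lit 450569) (nat_lit 0) .nil)))) (.g (nat_lit 0) (.e (nat_lit 333045) (nat_lit 0) .nil) .nil))) 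
(.lf (nat_lit 567231) (.g (nat_lit 3646) (.e (nat_lit 442406) (nat_lit 20) (.e (nat_lit 3238) (nat_lit 197) (.e (nat_lit 532523) (nat_lit 7) (.e (nat_lit 319532) (nat_lit 16) (.e (nat_lit 286733) (nat_lit 2) (.e (nat_lit 90134) (nat_lit 9) (.e (nat_lit 3002) (nat_lit 186) .nil))))))) (.g (nat_lit 1) (.e (nat_lit 335437) (nat_lit 0) .nil) .nil)))))) 
(.nd (nat_lit 7) (.nd (nat_lit 8) (.nd (nat_lit 9) 
(.lf (nat_lit 566399) (.g (nat_lit 4170) (.e (nat_lit 434272) (nat_lit 38) (.e (nat_lit 655380) (nat_lit 6) (.e (nat_lit 188453) (nat_lit 24) (.e (nat_lit 229678) (nat_lit 244) (.e (nat_lit 163908) (nat_lit 12) (.e (nat_lit 426286) (nat_lit 10) .nil)))))) (.g (nat_lit 1) (.e (nat_lit 332380) (nat_lit 0) .nil) .nil))) 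
(.lf (nat_lit 566911) (.g (nat_lit 2083) (.e (nat_lit 450304) (nat_lit 3) (.e (nat_lit 98335) (nat_lit 18) (.e (nat_lit 164330) (nat_lit 230) (.e (nat_lit 163941) (nat_lit 19) (.e (nat_lit 491264) (nat_lit 11) .nil))))) (.g (nat_lit 0) (.e (nat_lit 333370) (nat_lit 0) .nil) .nil)))) (.nd (nat_lit 9) 
(.lf (nat_lit 566655) (.g (nat_lit 2654) (.e (nat_lit 442374) (nat_lit 0) (.e (nat_lit 1846) (nat_lit 124) (.e (nat_lit 557101) (nat_lit 13) (.e (nat_lit 172115) (nat_lit 10) (.e (nat_lit 434244) (nat_lit 28) (.e (nat_lit 573449) (nat_lit 9) (.e (nat_lit 457) (nat_lit 34) .nil))))))) (.g (nat_lit 1) (.e (nat_lit 332961) (nat_lit 0) .nil) .nil))) 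
(.lf (nat_lit 567167) (.g (nat_lit 2612) (.e (nat_lit 442402) (nat_lit 20) (.e (nat_lit 3238) (nat_lit 197) (.e (nat_lit 532523) (nat_lit 7) (.e (nat_lit 319531) (nat_lit 16) (.e (nat_lit 286735) (nat_lit 3) .nil))))) (.g (nat_lit 0) (.e (nat_lit 335198) (nat_lit 0) .nil) .nil))))) (.nd (nat_lit 8) (.nd (nat_lit 9) 
(.lf (nat_lit 566527) (.g (nat_lit 3741) (.e (nat_lit 434289) (nat_lit 43) (.e (nat_lit 696346) (nat_lit 10) (.e (nat_lit 188441) (nat_lit 20) (.e (nat_lit 3469) (nat_lit 217) (.e (nat_lit 696344) (nat_lit 8) (.e (nat_lit 172115) (nat_lit 10) .nil)))))) (.g (nat_lit 1) (.e (nat_lit 332746) (nat_lit 0) .nil) .nil))) 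
(.lf (nat_lit 567039) (.g (nat_lit 1189) (.e (nat_lit 450304) (nat_lit 16) (.e (nat_lit 376857) (nat_lit 21) (.e (nat_lit 57847) (nat_lit 252) (.e (nat_lit 57388) (nat_lit 5) (.e (nat_lit 122624) (nat_lit 13) .nil))))) (.g (nat_lit 0) (.e (nat_lit 334752) (nat_lit 0) .nil) .nil)))) (.nd (nat_lit 9) 
(.lf (nat_lit 566783) (.g (nat_lit 595) (.e (nat_lit 442378) (nat_lit 0) (.e (nat_lit 2058) (nat_lit 142) (.e (nat_lit 704596) (nat_lit 5) .nil))) (.g (nat_lit 0) (.e (nat_lit 333158) (nat_lit 0) .nil) .nil))) 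
(.lf (nat_lit 567295) (.g (nat_lit 1343) (.e (nat_lit 442411) (nat_lit 20) (.e (nat_lit 3272) (nat_lit 199) (.e (nat_lit 548913) (nat_lit 18) (.e (nat_lit 172082) (nat_lit 7) .nil)))) (.g (nat_lit 0) (.e (nat_lit 335890) (nat_lit 0) .nil) .nil)))))))))))))

noncomputable def tv5614 : DT := (.nd (nat_lit 0) (.nd (nat_lit 1) (.nd (nat_lit 2) (.nd (nat_lit 3) (.nd (nat_lit 4) (.nd (nat_lit 5) (.nd (nat_lit 6) (.nd (nat_lit 7) (.nd (nat_lit 8) (.nd (nat_lit 9) 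
(.lf (nat_lit 567296) (.g (nat_lit 1337) (.e (nat_lit 442411) (nat_lit 20) (.e (nat_lit 3272) (nat_lit 199) (.e (nat_lit 548913) (nat_lit 18) (.e (nat_lit 172124) (nat_lit 14) .nil)))) (.g (nat_lit 0) (.e (nat_lit 335899) (nat_lit 0) .nil) .nil))) 
(.lf (nat_lit 567808) (.g (nat_lit 2481) (.e (nat_lit 450578) (nat_lit 5) (.e (nat_lit 532569) (nat_lit 16) (.e (nat_lit 401448) (nat_lit 10) (.e (nat_lit 434238) (nat_lit 25) .nil)))) (.g (nat_lit 0) (.e (nat_lit 340068) (nat_lit 0) .nil) .nil)))) (.nd (nat_lit 9) 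
(.lf (nat_lit 567552) (.g (nat_lit 3889) (.e (nat_lit 442427) (nat_lit 23) (.e (nat_lit 204845) (nat_lit 24) (.e (nat_lit 319531) (nat_lit 16) (.e (nat_lit 286735) (nat_lit 3) (.e (nat_lit 98369) (nat_lit 28) .nil))))) (.g (nat_lit 1) (.e (nat_lit 337124) (nat_lit 0) .nil) .nil))) 
(.lf (nat_lit 568064) (.g (nat_lit 1248) (.e (nat_lit 458496) (nat_lit 5) (.e (nat_lit 532523) (nat_lit 7) (.e (nat_lit 319533) (nat_lit 16) (.e (nat_lit 286724) (nat_lit 0) .nil)))) (.g (nat_lit 0) (.e (nat_lit 341682) (nat_lit 0) .nil) .nil))))) (.nd (nat_lit 8) (.nd (nat_lit 9) 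
(.lf (nat_lit 567424) (.g (nat_lit 2152) (.e (nat_lit 442421) (nat_lit 21) (.e (nat_lit 164319) (nat_lit 228) (.e (nat_lit 57427) (nat_lit 15) (.e (nat_lit 360484) (nat_lit 15) (.e (nat_lit 647190) (nat_lit 9) (.e (nat_lit 7936) (nat_lit 34) .nil)))))) (.g (nat_lit 1) (.e (nat_lit 336259) (nat_lit 0) .nil) .nil))) 
(.lf (nat_lit 567936) (.g (nat_lit 2003) (.e (nat_lit 450579) (nat_lit 5) (.e (nat_lit 532579) (nat_lit 26) (.e (nat_lit 426100) (nat_lit 1) (.e (nat_lit 164399) (nat_lit 256) (.e (nat_lit 57405) (nat_lit 12) .nil))))) (.g (nat_lit 0) (.e (nat_lit 340945) (nat_lit 0) .nil) .nil)))) (.nd (nat_lit 9) 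
(.lf (nat_lit 567680) (.g (nat_lit 2303) (.e (nat_lit 450563) (nat_lit 0) (.e (nat_lit 6416) (nat_lit 341) (.e (nat_lit 163903) (nat_lit 12) (.e (nat_lit 426272) (nat_lit 10) (.e (nat_lit 434212) (nat_lit 18) .nil))))) (.g (nat_lit 0) (.e (nat_lit 338753) (nat_lit 0) .nil) .nil))) 
(.lf (nat_lit 568192) (.g (nat_lit 2588) (.e (nat_lit 450586) (nat_lit 10) (.e (nat_lit 573475) (nat_lit 12) (.e (nat_lit 57347) (nat_lit 0) (.e (nat_lit 7266) (nat_lit 384) (.e (nat_lit 57406) (nat_lit 12) .nil))))) (.g (nat_lit 0) (.e (nat_lit 342449) (nat_lit 0) .nil) .nil)))))) (.nd (nat_lit 7) (.nd (nat_lit 8) (.nd (nat_lit 9) 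
(.lf (nat_lit 567360) (.g (nat_lit 1378) (.e (nat_lit 442419) (nat_lit 21) (.e (nat_lit 164332) (nat_lit 230) (.e (nat_lit 163885) (nat_lit 5) (.e (nat_lit 229120) (nat_lit 13) .nil)))) (.g (nat_lit 0) (.e (nat_lit 336087) (nat_lit 0) .nil) .nil))) 
(.lf (nat_lit 567872) (.g (nat_lit 942) (.e (nat_lit 450579) (nat_lit 5) (.e (nat_lit 532504) (nat_lit 1) (.e (nat_lit 57664) (nat_lit 152) .nil))) (.g (nat_lit 0) (.e (nat_lit 340363) (nat_lit 0) .nil) .nil)))) (.nd (nat_lit 9) 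
(.lf (nat_lit 567616) (.g (nat_lit 563) (.e (nat_lit 442428) (nat_lit 24) (.e (nat_lit 229678) (nat_lit 244) (.e (nat_lit 163913) (nat_lit 12) .nil))) (.g (nat_lit 0) (.e (nat_lit 337517) (nat_lit 0) .nil) .nil))) 
(.lf (nat_lit 568128) (.g (nat_lit 1444) (.e (nat_lit 450586) (nat_lit 10) (.e (nat_lit 573471) (nat_lit 11) (.e (nat_lit 16387) (nat_lit 0) (.e (nat_lit 7936) (nat_lit 402) .nil)))) (.g (nat_lit 0) (.e (nat_lit 342195) (nat_lit 0) .nil) .nil))))) (.nd (nat_lit 8) (.nd (nat_lit 9) 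
(.lf (nat_lit 567488) (.g (nat_lit 2897) (.e (nat_lit 442426) (nat_lit 23) (.e (nat_lit 204813) (nat_lit 9) (.e (nat_lit 426100) (nat_lit 1) (.e (nat_lit 164403) (nat_lit 256) (.e (nat_lit 57406) (nat_lit 12) .nil))))) (.g (nat_lit 0) (.e (nat_lit 336809) (nat_lit 0) .nil) .nil))) 
(.lf (nat_lit 568000) (.g (nat_lit 1267) (.e (nat_lit 450580) (nat_lit 5) (.e (nat_lit 532523) (nat_lit 7) (.e (nat_lit 319533) (nat_lit 16) (.e (nat_lit 286724) (nat_lit 0) .nil)))) (.g (nat_lit 0) (.e (nat_lit 341166) (nat_lit 0) .nil) .nil)))) (.nd (nat_lit 9) 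
(.lf (nat_lit 567744) (.g (nat_lit 1050) (.e (nat_lit 458496) (nat_lit 0) (.e (nat_lit 5195) (nat_lit 294) (.e (nat_lit 57426) (nat_lit 15) (.e (nat_lit 360480) (nat_lit 14) .nil)))) (.g (nat_lit 0) (.e (nat_lit 339586) (nat_lit 0) .nil) .nil))) 
(.lf (nat_lit 568256) (.g (nat_lit 1903) (.e (nat_lit 450587) (nat_lit 10) (.e (nat_lit 573478) (nat_lit 12) (.e (nat_lit 57574) (nat_lit 55) (.e (nat_lit 778465) (nat_lit 11) (.e (nat_lit 24582) (nat_lit 0) .nil))))) (.g (nat_lit 0) (.e (nat_lit 342792) (nat_lit 0) .nil) .nil))))))) (.nd (nat_lit 6) (.nd (nat_lit 7) (.nd (nat_lit 8) (.nd (nat_lit 9) 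
(.lf (nat_lit 567328) (.g (nat_lit 2517) (.e (nat_lit 442412) (nat_lit 20) (.e (nat_lit 3297) (nat_lit 202) (.e (nat_lit 573450) (nat_lit 9) (.e (nat_lit 375) (nat_lit 32) (.e (nat_lit 426173) (nat_lit 7) .nil))))) (.g (nat_lit 0) (.e (nat_lit 335973) (nat_lit 0) .nil) .nil))) 
(.lf (nat_lit 567840) (.g (nat_lit 644) (.e (nat_lit 450579) (nat_lit 5) (.e (nat_lit 532501) (nat_lit 1) (.e (nat_lit 57670) (nat_lit 152) (.e (nat_lit 2628) (nat_lit 164) .nil)))) (.g (nat_lit 0) (.e (nat_lit 340247) (nat_lit 0) .nil) .nil)))) (.nd (nat_lit 9) 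
(.lf (nat_lit 567584) (.g (nat_lit 1668) (.e (nat_lit 450304) (nat_lit 23) (.e (nat_lit 204846) (nat_lit 24) (.e (nat_lit 319530) (nat_lit 16) (.e (nat_lit 286735) (nat_lit 3) .nil)))) (.g (nat_lit 0) (.e (nat_lit 337422) (nat_lit 0) .nil) .nil))) 
(.lf (nat_lit 568096) (.g (nat_lit 573) (.e (nat_lit 450585) (nat_lit 10) (.e (nat_lit 573454) (nat_lit 9) (.e (nat_lit 385) (nat_lit 32) .nil))) (.g (nat_lit 0) (.e (nat_lit 342049) (nat_lit 0) .nil) .nil))))) (.nd (nat_lit 8) (.nd (nat_lit 9) 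
(.lf (nat_lit 567456) (.g (nat_lit 2577) (.e (nat_lit 442425) (nat_lit 23) (.e (nat_lit 204830) (nat_lit 18) (.e (nat_lit 57685) (nat_lit 156) (.e (nat_lit 163905) (nat_lit 12) (.e (nat_lit 426479) (nat_lit 27) (.e (nat_lit 336430) (nat_lit 29) .nil)))))) (.g (nat_lit 1) (.e (nat_lit 336544) (nat_lit 0) .nil) .nil))) 
(.lf (nat_lit 567968) (.g (nat_lit 1333) (.e (nat_lit 450580) (nat_lit 5) (.e (nat_lit 532522) (nat_lit 7) (.e (nat_lit 319530) (nat_lit 16) (.e (nat_lit 286733) (nat_lit 2) .nil)))) (.g (nat_lit 0) (.e (nat_lit 341117) (nat_lit 0) .nil) .nil)))) (.nd (nat_lit 9) 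
(.lf (nat_lit 567712) (.g (nat_lit 1966) (.e (nat_lit 450565) (nat_lit 0) (.e (nat_lit 5224) (nat_lit 296) (.e (nat_lit 163884) (nat_lit 5) (.e (nat_lit 221194) (nat_lit 11) (.e (nat_lit 336084) (nat_lit 9) .nil))))) (.g (nat_lit 0) (.e (nat_lit 339152) (nat_lit 0) .nil) .nil))) 
(.lf (nat_lit 568224) (.g (nat_lit 1561) (.e (nat_lit 450587) (nat_lit 10) (.e (nat_lit 573450) (nat_lit 9) (.e (nat_lit 375) (nat_lit 32) (.e (nat_lit 426173) (nat_lit 7) .nil)))) (.g (nat_lit 0) (.e (nat_lit 342623) (nat_lit 0) .nil) .nil)))))) (.nd (nat_lit 7) (.nd (nat_lit 8) (.nd (nat_lit 9) 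
(.lf (nat_lit 567392) (.g (nat_lit 2331) (.e (nat_lit 442421) (nat_lit 21) (.e (nat_lit 164322) (nat_lit 230) (.e (nat_lit 163884) (nat_lit 5) (.e (nat_lit 221194) (nat_lit 11) (.e (nat_lit 336087) (nat_lit 9) (.e (nat_lit 336426) (nat_lit 29) .nil)))))) (.g (nat_lit 1) (.e (nat_lit 336217) (nat_lit 0) .nil) .nil))) 
(.lf (nat_lit 567904) (.g (nat_lit 2725) (.e (nat_lit 450579) (nat_lit 5) (.e (nat_lit 532523) (nat_lit 7) (.e (nat_lit 319534) (nat_lit 16) (.e (nat_lit 286726) (nat_lit 0) .nil)))) (.g (nat_lit 0) (.e (nat_lit 340441) (nat_lit 0) .nil) .nil)))) (.nd (nat_lit 9) 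
(.lf (nat_lit 567648) (.g (nat_lit 1716) (.e (nat_lit 442430) (nat_lit 24) (.e (nat_lit 229665) (nat_lit 240) (.e (nat_lit 2641) (nat_lit 165) (.e (nat_lit 180278) (nat_lit 32) (.e (nat_lit 1425) (nat_lit 108) (.e (nat_lit 336426) (nat_lit 29) .nil)))))) (.g (nat_lit 1) (.e (nat_lit 337707) (nat_lit 0) .nil) .nil))) 
(.lf (nat_lit 568160) (.g (nat_lit 2828) (.e (nat_lit 450586) (nat_lit 10) (.e (nat_lit 573471) (nat_lit 11) (.e (nat_lit 16470) (nat_lit 14) (.e (nat_lit 499456) (nat_lit 3) .nil)))) (.g (nat_lit 0) (.e (nat_lit 342341) (nat_lit 0) .nil) .nil))))) (.nd (nat_lit 8) (.nd (nat_lit 9) 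
(.lf (nat_lit 567520) (.g (nat_lit 201) (.e (nat_lit 442427) (nat_lit 23) (.e (nat_lit 204821) (nat_lit 17) (.e (nat_lit 2346) (nat_lit 151) .nil))) (.g (nat_lit 0) (.e (nat_lit 336998) (nat_lit 0) .nil) .nil))) 
(.lf (nat_lit 568032) (.g (nat_lit 837) (.e (nat_lit 450581) (nat_lit 5) (.e (nat_lit 532523) (nat_lit 7) (.e (nat_lit 319497) (nat_lit 10) .nil))) (.g (nat_lit 0) (.e (nat_lit 341620) (nat_lit 0) .nil) .nil)))) (.nd (nat_lit 9) 
(.lf (nat_lit 567776) (.g (nat_lit 1425) (.e (nat_lit 458496) (nat_lit 0) (.e (nat_lit 5547) (nat_lit 306) (.e (nat_lit 2650) (nat_lit 166) (.e (nat_lit 188419) (nat_lit 0) (.e (nat_lit 2174) (nat_lit 143) .nil))))) (.g (nat_lit 0) (.e (nat_lit 339708) (nat_lit 0) .nil) .nil))) 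
(.lf (nat_lit 568288) (.g (nat_lit 3800) (.e (nat_lit 450588) (nat_lit 10) (.e (nat_lit 573471) (nat_lit 11) (.e (nat_lit 16470) (nat_lit 14) (.e (nat_lit 491528) (nat_lit 0) .nil)))) (.g (nat_lit 0) (.e (nat_lit 343000) (nat_lit 0) .nil) .nil)))))))) (.nd (nat_lit 5) (.nd (nat_lit 6) (.nd (nat_lit 7) (.nd (nat_lit 8) (.nd (nat_lit 9) 
(.lf (nat_lit 567312) (.g (nat_lit 2038) (.e (nat_lit 442411) (nat_lit 20) (.e (nat_lit 3469) (nat_lit 217) (.e (nat_lit 696344) (nat_lit 8) (.e (nat_lit 172097) (nat_lit 9) (.e (nat_lit 426109) (nat_lit 1) .nil))))) (.g (nat_lit 0) (.e (nat_lit 335927) (nat_lit 0) .nil) .nil))) 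
(.lf (nat_lit 567824) (.g (nat_lit 3290) (.e (nat_lit 450579) (nat_lit 5) (.e (nat_lit 532499) (nat_lit 1) (.e (nat_lit 57688) (nat_lit 156) (.e (nat_lit 163907) (nat_lit 12) (.e (nat_lit 426479) (nat_lit 27) (.e (nat_lit 336432) (nat_lit 30) .nil)))))) (.g (nat_lit 1) (.e (nat_lit 340170) (nat_lit 0) .nil) .nil)))) (.nd (nat_lit 9) 
(.lf (nat_lit 567568) (.g (nat_lit 488) (.e (nat_lit 442427) (nat_lit 23) (.e (nat_lit 204862) (nat_lit 27) (.e (nat_lit 344160) (nat_lit 37) .nil))) (.g (nat_lit 0) (.e (nat_lit 337265) (nat_lit 0) .nil) .nil))) 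
(.lf (nat_lit 568080) (.g (nat_lit 1859) (.e (nat_lit 458496) (nat_lit 3) (.e (nat_lit 516120) (nat_lit 1) (.e (nat_lit 164329) (nat_lit 230) (.e (nat_lit 163860) (nat_lit 1) .nil)))) (.g (nat_lit 0) (.e (nat_lit 341717) (nat_lit 0) .nil) .nil))))) (.nd (nat_lit 8) (.nd (nat_lit 9) 
(.lf (nat_lit 567440) (.g (nat_lit 4014) (.e (nat_lit 442421) (nat_lit 21) (.e (nat_lit 164348) (nat_lit 240) (.e (nat_lit 2638) (nat_lit 165) (.e (nat_lit 180277) (nat_lit 32) (.e (nat_lit 1427) (nat_lit 108) (.e (nat_lit 336430) (nat_lit 29) .nil)))))) (.g (nat_lit 1) (.e (nat_lit 336327) (nat_lit 0) .nil) .nil))) 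
(.lf (nat_lit 567952) (.g (nat_lit 2555) (.e (nat_lit 450580) (nat_lit 5) (.e (nat_lit 532501) (nat_lit 1) (.e (nat_lit 57663) (nat_lit 152) (.e (nat_lit 2630) (nat_lit 164) (.e (nat_lit 172049) (nat_lit 0) (.e (nat_lit 7936) (nat_lit 219) (.e (nat_lit 712753) (nat_lit 30) .nil))))))) (.g (nat_lit 1) (.e (nat_lit 341055) (nat_lit 0) .nil) .nil)))) (.nd (nat_lit 9) 
(.lf (nat_lit 567696) (.g (nat_lit 2116) (.e (nat_lit 450564) (nat_lit 0) (.e (nat_lit 5546) (nat_lit 306) (.e (nat_lit 2628) (nat_lit 164) (.e (nat_lit 172124) (nat_lit 14) (.e (nat_lit 491550) (nat_lit 9) (.e (nat_lit 336434) (nat_lit 30) .nil)))))) (.g (nat_lit 1) (.e (nat_lit 338940) (nat_lit 0) .nil) .nil))) 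
(.lf (nat_lit 568208) (.g (nat_lit 3475) (.e (nat_lit 450586) (nat_lit 10) (.e (nat_lit 573475) (nat_lit 12) (.e (nat_lit 57574) (nat_lit 55) (.e (nat_lit 778466) (nat_lit 11) (.e (nat_lit 24607) (nat_lit 3) (.e (nat_lit 98374) (nat_lit 29) .nil)))))) (.g (nat_lit 1) (.e (nat_lit 342505) (nat_lit 0) .nil) .nil)))))) (.nd (nat_lit 7) (.nd (nat_lit 8) (.nd (nat_lit 9) 
(.lf (nat_lit 567376) (.g (nat_lit 376) (.e (nat_lit 442419) (nat_lit 21) (.e (nat_lit 164348) (nat_lit 240) (.e (nat_lit 2638) (nat_lit 165) .nil))) (.g (nat_lit 0) (.e (nat_lit 336121) (nat_lit 0) .nil) .nil))) 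
(.lf (nat_lit 567888) (.g (nat_lit 4399) (.e (nat_lit 450579) (nat_lit 5) (.e (nat_lit 532522) (nat_lit 7) (.e (nat_lit 319531) (nat_lit 16) (.e (nat_lit 286733) (nat_lit 2) (.e (nat_lit 90134) (nat_lit 9) (.e (nat_lit 3009) (nat_lit 187) .nil)))))) (.g (nat_lit 1) (.e (nat_lit 340414) (nat_lit 0) .nil) .nil)))) (.nd (nat_lit 9) 
(.lf (nat_lit 567632) (.g (nat_lit 2986) (.e (nat_lit 442430) (nat_lit 24) (.e (nat_lit 229663) (nat_lit 240) (.e (nat_lit 2630) (nat_lit 164) (.e (nat_lit 172120) (nat_lit 12) (.e (nat_lit 475209) (nat_lit 41) .nil))))) (.g (nat_lit 0) (.e (nat_lit 337607) (nat_lit 0) .nil) .nil))) 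
(.lf (nat_lit 568144) (.g (nat_lit 2397) (.e (nat_lit 450586) (nat_lit 10) (.e (nat_lit 573471) (nat_lit 11) (.e (nat_lit 16425) (nat_lit 7) (.e (nat_lit 409608) (nat_lit 10) (.e (nat_lit 588) (nat_lit 44) .nil))))) (.g (nat_lit 0) (.e (nat_lit 342212) (nat_lit 0) .nil) .nil))))) (.nd (nat_lit 8) (.nd (nat_lit 9) 
(.lf (nat_lit 567504) (.g (nat_lit 1309) (.e (nat_lit 442426) (nat_lit 23) (.e (nat_lit 204846) (nat_lit 24) (.e (nat_lit 319511) (nat_lit 10) (.e (nat_lit 5389) (nat_lit 301) .nil)))) (.g (nat_lit 0) (.e (nat_lit 336869) (nat_lit 0) .nil) .nil))) 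
(.lf (nat_lit 568016) (.g (nat_lit 1869) (.e (nat_lit 450580) (nat_lit 5) (.e (nat_lit 532579) (nat_lit 26) (.e (nat_lit 426098) (nat_lit 1) (.e (nat_lit 164401) (nat_lit 256) (.e (nat_lit 57409) (nat_lit 12) .nil))))) (.g (nat_lit 0) (.e (nat_lit 341570) (nat_lit 0) .nil) .nil)))) (.nd (nat_lit 9) 
(.lf (nat_lit 567760) (.g (nat_lit 1620) (.e (nat_lit 458496) (nat_lit 0) (.e (nat_lit 5546) (nat_lit 306) (.e (nat_lit 2638) (nat_lit 165) (.e (nat_lit 180277) (nat_lit 32) (.e (nat_lit 1426) (nat_lit 108) .nil))))) (.g (nat_lit 0) (.e (nat_lit 339643) (nat_lit 0) .nil) .nil))) 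
(.lf (nat_lit 568272) (.g (nat_lit 1513) (.e (nat_lit 450588) (nat_lit 10) (.e (nat_lit 573470) (nat_lit 11) (.e (nat_lit 16473) (nat_lit 14) (.e (nat_lit 491529) (nat_lit 0) .nil)))) (.g (nat_lit 0) (.e (nat_lit 342910) (nat_lit 0) .nil) .nil))))))) (.nd (nat_lit 6) (.nd (nat_lit 7) (.nd (nat_lit 8) (.nd (nat_lit 9) 
(.lf (nat_lit 567344) (.g (nat_lit 169) (.e (nat_lit 442412) (nat_lit 20) (.e (nat_lit 3409) (nat_lit 212) (.e (nat_lit 655379) (nat_lit 5) .nil))) (.g (nat_lit 0) (.e (nat_lit 335996) (nat_lit 0) .nil) .nil))) 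
(.lf (nat_lit 567856) (.g (nat_lit 2109) (.e (nat_lit 450579) (nat_lit 5) (.e (nat_lit 532503) (nat_lit 1) (.e (nat_lit 57689) (nat_lit 156) (.e (nat_lit 163907) (nat_lit 12) (.e (nat_lit 426479) (nat_lit 27) (.e (nat_lit 336434) (nat_lit 30) .nil)))))) (.g (nat_lit 1) (.e (nat_lit 340319) (nat_lit 0) .nil) .nil)))) (.nd (nat_lit 9) 
(.lf (nat_lit 567600) (.g (nat_lit 4057) (.e (nat_lit 442428) (nat_lit 24) (.e (nat_lit 229663) (nat_lit 240) (.e (nat_lit 2630) (nat_lit 164) (.e (nat_lit 172124) (nat_lit 14) (.e (nat_lit 491549) (nat_lit 9) (.e (nat_lit 336430) (nat_lit 29) .nil)))))) (.g (nat_lit 1) (.e (nat_lit 337448) (nat_lit 0) .nil) .nil))) 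
(.lf (nat_lit 568112) (.g (nat_lit 177) (.e (nat_lit 450586) (nat_lit 10) (.e (nat_lit 573452) (nat_lit 9) (.e (nat_lit 430) (nat_lit 32) .nil))) (.g (nat_lit 0) (.e (nat_lit 342141) (nat_lit 0) .nil) .nil))))) (.nd (nat_lit 8) (.nd (nat_lit 9) 
(.lf (nat_lit 567472) (.g (nat_lit 1716) (.e (nat_lit 442425) (nat_lit 23) (.e (nat_lit 204846) (nat_lit 24) (.e (nat_lit 319505) (nat_lit 10) (.e (nat_lit 5390) (nat_lit 301) .nil)))) (.g (nat_lit 0) (.e (nat_lit 336608) (nat_lit 0) .nil) .nil))) 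
(.lf (nat_lit 567984) (.g (nat_lit 1310) (.e (nat_lit 450580) (nat_lit 5) (.e (nat_lit 532523) (nat_lit 7) (.e (nat_lit 319504) (nat_lit 10) (.e (nat_lit 5351) (nat_lit 298) .nil)))) (.g (nat_lit 0) (.e (nat_lit 341135) (nat_lit 0) .nil) .nil)))) (.nd (nat_lit 9) 
(.lf (nat_lit 567728) (.g (nat_lit 1168) (.e (nat_lit 450565) (nat_lit 0) (.e (nat_lit 5548) (nat_lit 306) (.e (nat_lit 2650) (nat_lit 166) (.e (nat_lit 188419) (nat_lit 0) .nil)))) (.g (nat_lit 0) (.e (nat_lit 339228) (nat_lit 0) .nil) .nil))) 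
(.lf (nat_lit 568240) (.g (nat_lit 3402) (.e (nat_lit 450587) (nat_lit 10) (.e (nat_lit 573477) (nat_lit 12) (.e (nat_lit 57360) (nat_lit 0) (.e (nat_lit 5949) (nat_lit 322) (.e (nat_lit 57388) (nat_lit 5) (.e (nat_lit 114712) (nat_lit 21) (.e (nat_lit 57929) (nat_lit 282) (.e (nat_lit 163923) (nat_lit 15) .nil)))))))) (.g (nat_lit 1) (.e (nat_lit 342716) (nat_lit 0) .nil) .nil)))))) 
(.nd (nat_lit 7) (.nd (nat_lit 8) (.nd (nat_lit 9) 
(.lf (nat_lit 567408) (.g (nat_lit 1298) (.e (nat_lit 442421) (nat_lit 21) (.e (nat_lit 164331) (nat_lit 230) (.e (nat_lit 163884) (nat_lit 5) (.e (nat_lit 229120) (nat_lit 13) .nil)))) (.g (nat_lit 0) (.e (nat_lit 336238) (nat_lit 0) .nil) .nil))) 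
(.lf (nat_lit 567920) (.g (nat_lit 2054) (.e (nat_lit 450579) (nat_lit 5) (.e (nat_lit 532563) (nat_lit 15) (.e (nat_lit 385093) (nat_lit 49) (.e (nat_lit 778317) (nat_lit 3) (.e (nat_lit 57477) (nat_lit 28) (.e (nat_lit 557067) (nat_lit 9) (.e (nat_lit 3021) (nat_lit 187) .nil))))))) (.g (nat_lit 1) (.e (nat_lit 340676) (nat_lit 0) .nil) .nil)))) (.nd (nat_lit 9) 
(.lf (nat_lit 567664) (.g (nat_lit 2758) (.e (nat_lit 442433) (nat_lit 25) (.e (nat_lit 245773) (nat_lit 3) (.e (nat_lit 163843) (nat_lit 0) (.e (nat_lit 6421) (nat_lit 341) (.e (nat_lit 163941) (nat_lit 19) (.e (nat_lit 491264) (nat_lit 11) .nil)))))) (.g (nat_lit 1) (.e (nat_lit 337853) (nat_lit 0) .nil) .nil))) 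
(.lf (nat_lit 568176) (.g (nat_lit 1116) (.e (nat_lit 450586) (nat_lit 10) (.e (nat_lit 573473) (nat_lit 12) (.e (nat_lit 57508) (nat_lit 39) (.e (nat_lit 647195) (nat_lit 9) (.e (nat_lit 426) (nat_lit 32) .nil))))) (.g (nat_lit 0) (.e (nat_lit 342371) (nat_lit 0) .nil) .nil))))) (.nd (nat_lit 8) (.nd (nat_lit 9) 
(.lf (nat_lit 567536) (.g (nat_lit 2651) (.e (nat_lit 442427) (nat_lit 23) (.e (nat_lit 204831) (nat_lit 18) (.e (nat_lit 57686) (nat_lit 156) (.e (nat_lit 163903) (nat_lit 12) (.e (nat_lit 426479) (nat_lit 27) (.e (nat_lit 336430) (nat_lit 29) .nil)))))) (.g (nat_lit 1) (.e (nat_lit 337066) (nat_lit 0) .nil) .nil))) 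
(.lf (nat_lit 568048) (.g (nat_lit 3261) (.e (nat_lit 450581) (nat_lit 5) (.e (nat_lit 532523) (nat_lit 7) (.e (nat_lit 319533) (nat_lit 16) (.e (nat_lit 286733) (nat_lit 2) (.e (nat_lit 90134) (nat_lit 9) (.e (nat_lit 3009) (nat_lit 187) .nil)))))) (.g (nat_lit 1) (.e (nat_lit 341644) (nat_lit 0) .nil) .nil)))) (.nd (nat_lit 9) 
(.lf (nat_lit 567792) (.g (nat_lit 1595) (.e (nat_lit 458496) (nat_lit 0) (.e (nat_lit 6807) (nat_lit 365) (.e (nat_lit 1220) (nat_lit 90) (.e (nat_lit 81938) (nat_lit 20) (.e (nat_lit 1886) (nat_lit 127) .nil))))) (.g (nat_lit 0) (.e (nat_lit 339891) (nat_lit 0) .nil) .nil))) 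
(.lf (nat_lit 568304) (.g (nat_lit 2254) (.e (nat_lit 450588) (nat_lit 10) (.e (nat_lit 573473) (nat_lit 12) (.e (nat_lit 57508) (nat_lit 39) (.e (nat_lit 647195) (nat_lit 9) (.e (nat_lit 426) (nat_lit 32) (.e (nat_lit 426012) (nat_lit 0) (.e (nat_lit 3548) (nat_lit 219) (.e (nat_lit 712754) (nat_lit 30) .nil)))))))) (.g (nat_lit 1) (.e (nat_lit 343043) (nat_lit 0) .nil) .nil))))))))) 
(.nd (nat_lit 4) (.nd (nat_lit 5) (.nd (nat_lit 6) (.nd (nat_lit 7) (.nd (nat_lit 8) 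
(.nd (nat_lit 9) 
(.lf (nat_lit 567304) (.g (nat_lit 2592) (.e (nat_lit 442411) (nat_lit 20) (.e (nat_lit 3307) (nat_lit 202) (.e (nat_lit 573450) (nat_lit 9) (.e (nat_lit 375) (nat_lit 32) (.e (nat_lit 426173) (nat_lit 7) .nil))))) (.g (nat_lit 0) (.e (nat_lit 335907) (nat_lit 0) .nil) .nil))) 
(.lf (nat_lit 567816) (.g (nat_lit 925) (.e (nat_lit 450579) (nat_lit 5) (.e (nat_lit 532499) (nat_lit 1) (.e (nat_lit 57685) (nat_lit 156) .nil))) (.g (nat_lit 0) (.e (nat_lit 340151) (nat_lit 0) .nil) .nil)))) (.nd (nat_lit 9) 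
(.lf (nat_lit 567560) (.g (nat_lit 2124) (.e (nat_lit 442427) (nat_lit 23) (.e (nat_lit 204846) (nat_lit 24) (.e (nat_lit 319531) (nat_lit 16) (.e (nat_lit 286727) (nat_lit 0) (.e (nat_lit 1809) (nat_lit 120) .nil))))) (.g (nat_lit 0) (.e (nat_lit 337147) (nat_lit 0) .nil) .nil))) 
(.lf (nat_lit 568072) (.g (nat_lit 2737) (.e (nat_lit 458496) (nat_lit 3) (.e (nat_lit 516115) (nat_lit 1) (.e (nat_lit 164325) (nat_lit 230) (.e (nat_lit 163861) (nat_lit 1) .nil)))) (.g (nat_lit 0) (.e (nat_lit 341705) (nat_lit 0) .nil) .nil))))) (.nd (nat_lit 8) (.nd (nat_lit 9) 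
(.lf (nat_lit 567432) (.g (nat_lit 2910) (.e (nat_lit 442421) (nat_lit 21) (.e (nat_lit 164347) (nat_lit 240) (.e (nat_lit 2619) (nat_lit 164) (.e (nat_lit 172126) (nat_lit 14) (.e (nat_lit 491550) (nat_lit 9) (.e (nat_lit 336430) (nat_lit 29) .nil)))))) (.g (nat_lit 1) (.e (nat_lit 336281) (nat_lit 0) .nil) .nil))) 
(.lf (nat_lit 567944) (.g (nat_lit 1274) (.e (nat_lit 450579) (nat_lit 5) (.e (nat_lit 532583) (nat_lit 26) (.e (nat_lit 426108) (nat_lit 1) (.e (nat_lit 164403) (nat_lit 256) .nil)))) (.g (nat_lit 0) (.e (nat_lit 340953) (nat_lit 0) .nil) .nil)))) (.nd (nat_lit 9) 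
(.lf (nat_lit 567688) (.g (nat_lit 2842) (.e (nat_lit 450564) (nat_lit 0) (.e (nat_lit 5224) (nat_lit 296) (.e (nat_lit 163884) (nat_lit 5) (.e (nat_lit 221194) (nat_lit 11) (.e (nat_lit 336087) (nat_lit 9) (.e (nat_lit 336434) (nat_lit 30) .nil)))))) (.g (nat_lit 1) (.e (nat_lit 338926) (nat_lit 0) .nil) .nil))) 
(.lf (nat_lit 568200) (.g (nat_lit 644) (.e (nat_lit 450586) (nat_lit 10) (.e (nat_lit 573475) (nat_lit 12) (.e (nat_lit 57504) (nat_lit 38) .nil))) (.g (nat_lit 0) (.e (nat_lit 342466) (nat_lit 0) .nil) .nil)))))) (.nd (nat_lit 7) (.nd (nat_lit 8) (.nd (nat_lit 9) 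
(.lf (nat_lit 567368) (.g (nat_lit 988) (.e (nat_lit 442419) (nat_lit 21) (.e (nat_lit 164347) (nat_lit 240) (.e (nat_lit 2648) (nat_lit 166) (.e (nat_lit 188420) (nat_lit 0) .nil)))) (.g (nat_lit 0) (.e (nat_lit 336108) (nat_lit 0) .nil) .nil))) 
(.lf (nat_lit 567880) (.g (nat_lit 1258) (.e (nat_lit 450579) (nat_lit 5) (.e (nat_lit 532522) (nat_lit 7) (.e (nat_lit 319529) (nat_lit 16) (.e (nat_lit 286733) (nat_lit 2) .nil)))) (.g (nat_lit 0) (.e (nat_lit 340406) (nat_lit 0) .nil) .nil)))) (.nd (nat_lit 9) 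
(.lf (nat_lit 567624) (.g (nat_lit 466) (.e (nat_lit 442429) (nat_lit 24) (.e (nat_lit 229663) (nat_lit 240) (.e (nat_lit 2641) (nat_lit 165) .nil))) (.g (nat_lit 0) (.e (nat_lit 337547) (nat_lit 0) .nil) .nil))) 
(.lf (nat_lit 568136) (.g (nat_lit 1744) (.e (nat_lit 450586) (nat_lit 10) (.e (nat_lit 573471) (nat_lit 11) (.e (nat_lit 16392) (nat_lit 0) (.e (nat_lit 7107) (nat_lit 380) .nil)))) (.g (nat_lit 0) (.e (nat_lit 342203) (nat_lit 0) .nil) .nil))))) (.nd (nat_lit 8) (.nd (nat_lit 9) 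
(.lf (nat_lit 567496) (.g (nat_lit 983) (.e (nat_lit 442426) (nat_lit 23) (.e (nat_lit 204846) (nat_lit 24) (.e (nat_lit 319500) (nat_lit 10) .nil))) (.g (nat_lit 0) (.e (nat_lit 336861) (nat_lit 0) .nil) .nil))) 
(.lf (nat_lit 568008) (.g (nat_lit 4989) (.e (nat_lit 450580) (nat_lit 5) (.e (nat_lit 532523) (nat_lit 7) (.e (nat_lit 319534) (nat_lit 16) (.e (nat_lit 286733) (nat_lit 2) (.e (nat_lit 90134) (nat_lit 9) (.e (nat_lit 3009) (nat_lit 187) .nil)))))) (.g (nat_lit 1) (.e (nat_lit 341246) (nat_lit 0) .nil) .nil)))) (.nd (nat_lit 9) 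
(.lf (nat_lit 567752) (.g (nat_lit 1270) (.e (nat_lit 458496) (nat_lit 0) (.e (nat_lit 5443) (nat_lit 306) (.e (nat_lit 2630) (nat_lit 164) (.e (nat_lit 172118) (nat_lit 12) (.e (nat_lit 475211) (nat_lit 41) .nil))))) (.g (nat_lit 0) (.e (nat_lit 339607) (nat_lit 0) .nil) .nil))) 
(.lf (nat_lit 568264) (.g (nat_lit 515) (.e (nat_lit 450588) (nat_lit 10) (.e (nat_lit 573450) (nat_lit 9) (.e (nat_lit 452) (nat_lit 33) .nil))) (.g (nat_lit 0) (.e (nat_lit 342852) (nat_lit 0) .nil) .nil))))))) (.nd (nat_lit 6) (.nd (nat_lit 7) (.nd (nat_lit 8) (.nd (nat_lit 9) 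
(.lf (nat_lit 567336) (.g (nat_lit 2068) (.e (nat_lit 442412) (nat_lit 20) (.e (nat_lit 3390) (nat_lit 210) (.e (nat_lit 639021) (nat_lit 16) (.e (nat_lit 65619) (nat_lit 10) (.e (nat_lit 344160) (nat_lit 37) (.e (nat_lit 647190) (nat_lit 9) (.e (nat_lit 7936) (nat_lit 34) .nil))))))) (.g (nat_lit 1) (.e (nat_lit 335981) (nat_lit 0) .nil) .nil))) 
(.lf (nat_lit 567848) (.g (nat_lit 2011) (.e (nat_lit 450579) (nat_lit 5) (.e (nat_lit 532503) (nat_lit 1) (.e (nat_lit 57686) (nat_lit 156) (.e (nat_lit 163903) (nat_lit 12) (.e (nat_lit 426479) (nat_lit 27) (.e (nat_lit 336432) (nat_lit 30) .nil)))))) (.g (nat_lit 1) (.e (nat_lit 340302) (nat_lit 0) .nil) .nil)))) (.nd (nat_lit 9) 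
(.lf (nat_lit 567592) (.g (nat_lit 2442) (.e (nat_lit 450304) (nat_lit 23) (.e (nat_lit 204846) (nat_lit 24) (.e (nat_lit 319533) (nat_lit 16) (.e (nat_lit 286734) (nat_lit 3) (.e (nat_lit 98371) (nat_lit 28) .nil))))) (.g (nat_lit 0) (.e (nat_lit 337431) (nat_lit 0) .nil) .nil))) 
(.lf (nat_lit 568104) (.g (nat_lit 2539) (.e (nat_lit 450585) (nat_lit 10) (.e (nat_lit 573474) (nat_lit 12) (.e (nat_lit 57572) (nat_lit 54) (.e (nat_lit 770072) (nat_lit 8) (.e (nat_lit 65550) (nat_lit 0) .nil))))) (.g (nat_lit 0) (.e (nat_lit 342058) (nat_lit 0) .nil) .nil))))) (.nd (nat_lit 8) (.nd (nat_lit 9) 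
(.lf (nat_lit 567464) (.g (nat_lit 641) (.e (nat_lit 442425) (nat_lit 23) (.e (nat_lit 204845) (nat_lit 24) (.e (nat_lit 319505) (nat_lit 10) .nil))) (.g (nat_lit 0) (.e (nat_lit 336584) (nat_lit 0) .nil) .nil))) 
(.lf (nat_lit 567976) (.g (nat_lit 3869) (.e (nat_lit 450580) (nat_lit 5) (.e (nat_lit 532522) (nat_lit 7) (.e (nat_lit 319531) (nat_lit 16) (.e (nat_lit 286733) (nat_lit 2) (.e (nat_lit 90134) (nat_lit 9) (.e (nat_lit 3016) (nat_lit 187) .nil)))))) (.g (nat_lit 1) (.e (nat_lit 341126) (nat_lit 0) .nil) .nil)))) (.nd (nat_lit 9) 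
(.lf (nat_lit 567720) (.g (nat_lit 1396) (.e (nat_lit 450565) (nat_lit 0) (.e (nat_lit 5546) (nat_lit 306) (.e (nat_lit 2648) (nat_lit 166) (.e (nat_lit 188420) (nat_lit 0) (.e (nat_lit 2174) (nat_lit 143) .nil))))) (.g (nat_lit 0) (.e (nat_lit 339166) (nat_lit 0) .nil) .nil))) 
(.lf (nat_lit 568232) (.g (nat_lit 2009) (.e (nat_lit 450587) (nat_lit 10) (.e (nat_lit 573471) (nat_lit 11) (.e (nat_lit 16392) (nat_lit 0) (.e (nat_lit 7535) (nat_lit 402) .nil)))) (.g (nat_lit 0) (.e (nat_lit 342651) (nat_lit 0) .nil) .nil)))))) (.nd (nat_lit 7) (.nd (nat_lit 8) (.nd (nat_lit 9) 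
(.lf (nat_lit 567400) (.g (nat_lit 1835) (.e (nat_lit 442421) (nat_lit 21) (.e (nat_lit 164326) (nat_lit 230) (.e (nat_lit 163879) (nat_lit 4) (.e (nat_lit 213032) (nat_lit 11) (.e (nat_lit 24629) (nat_lit 9) (.e (nat_lit 336427) (nat_lit 29) .nil)))))) (.g (nat_lit 1) (.e (nat_lit 336226) (nat_lit 0) .nil) .nil))) 
(.lf (nat_lit 567912) (.g (nat_lit 438) (.e (nat_lit 450579) (nat_lit 5) (.e (nat_lit 532526) (nat_lit 8) (.e (nat_lit 335616) (nat_lit 17) .nil))) (.g (nat_lit 0) (.e (nat_lit 340458) (nat_lit 0) .nil) .nil)))) (.nd (nat_lit 9) 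
(.lf (nat_lit 567656) (.g (nat_lit 1320) (.e (nat_lit 442430) (nat_lit 24) (.e (nat_lit 229677) (nat_lit 244) (.e (nat_lit 163903) (nat_lit 12) (.e (nat_lit 426320) (nat_lit 12) .nil)))) (.g (nat_lit 0) (.e (nat_lit 337777) (nat_lit 0) .nil) .nil))) 
(.lf (nat_lit 568168) (.g (nat_lit 3165) (.e (nat_lit 450586) (nat_lit 10) (.e (nat_lit 573471) (nat_lit 11) (.e (nat_lit 16473) (nat_lit 14) (.e (nat_lit 491574) (nat_lit 15) .nil)))) (.g (nat_lit 0) (.e (nat_lit 342352) (nat_lit 0) .nil) .nil))))) (.nd (nat_lit 8) (.nd (nat_lit 9) 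
(.lf (nat_lit 567528) (.g (nat_lit 445) (.e (nat_lit 442427) (nat_lit 23) (.e (nat_lit 204830) (nat_lit 18) (.e (nat_lit 57663) (nat_lit 152) .nil))) (.g (nat_lit 0) (.e (nat_lit 337041) (nat_lit 0) .nil) .nil))) 
(.lf (nat_lit 568040) (.g (nat_lit 4127) (.e (nat_lit 450581) (nat_lit 5) (.e (nat_lit 532523) (nat_lit 7) (.e (nat_lit 319530) (nat_lit 16) (.e (nat_lit 286733) (nat_lit 2) (.e (nat_lit 90134) (nat_lit 9) (.e (nat_lit 3025) (nat_lit 187) .nil)))))) (.g (nat_lit 1) (.e (nat_lit 341630) (nat_lit 0) .nil) .nil)))) (.nd (nat_lit 9) 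
(.lf (nat_lit 567784) (.g (nat_lit 433) (.e (nat_lit 458496) (nat_lit 0) (.e (nat_lit 5548) (nat_lit 306) (.e (nat_lit 2650) (nat_lit 166) .nil))) (.g (nat_lit 0) (.e (nat_lit 339739) (nat_lit 0) .nil) .nil))) 
(.lf (nat_lit 568296) (.g (nat_lit 2748) (.e (nat_lit 450588) (nat_lit 10) (.e (nat_lit 573471) (nat_lit 11) (.e (nat_lit 16473) (nat_lit 14) (.e (nat_lit 491529) (nat_lit 0) .nil)))) (.g (nat_lit 0) (.e (nat_lit 343021) (nat_lit 0) .nil) .nil)))))))) (.nd (nat_lit 5) (.nd (nat_lit 6) (.nd (nat_lit 7) (.nd (nat_lit 8) (.nd (nat_lit 9) 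
(.lf (nat_lit 567320) (.g (nat_lit 1680) (.e (nat_lit 442411) (nat_lit 20) (.e (nat_lit 3579) (nat_lit 223) (.e (nat_lit 745491) (nat_lit 4) (.e (nat_lit 65598) (nat_lit 9) (.e (nat_lit 336013) (nat_lit 2) .nil))))) (.g (nat_lit 0) (.e (nat_lit 335936) (nat_lit 0) .nil) .nil))) 
(.lf (nat_lit 567832) (.g (nat_lit 340) (.e (nat_lit 450579) (nat_lit 5) (.e (nat_lit 532501) (nat_lit 1) (.e (nat_lit 57651) (nat_lit 152) .nil))) (.g (nat_lit 0) (.e (nat_lit 340213) (nat_lit 0) .nil) .nil)))) (.nd (nat_lit 9) 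
(.lf (nat_lit 567576) (.g (nat_lit 2395) (.e (nat_lit 450304) (nat_lit 23) (.e (nat_lit 204845) (nat_lit 24) (.e (nat_lit 319530) (nat_lit 16) (.e (nat_lit 286735) (nat_lit 3) (.e (nat_lit 98369) (nat_lit 28) .nil))))) (.g (nat_lit 0) (.e (nat_lit 337414) (nat_lit 0) .nil) .nil))) 
(.lf (nat_lit 568088) (.g (nat_lit 3244) (.e (nat_lit 450583) (nat_lit 7) (.e (nat_lit 548913) (nat_lit 18) (.e (nat_lit 172125) (nat_lit 14) (.e (nat_lit 491540) (nat_lit 3) (.e (nat_lit 98374) (nat_lit 29) .nil))))) (.g (nat_lit 1) (.e (nat_lit 341981) (nat_lit 0) .nil) .nil))))) (.nd (nat_lit 8) (.nd (nat_lit 9) 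
(.lf (nat_lit 567448) (.g (nat_lit 350) (.e (nat_lit 442424) (nat_lit 22) (.e (nat_lit 196653) (nat_lit 11) (.e (nat_lit 24320) (nat_lit 20) .nil))) (.g (nat_lit 0) (.e (nat_lit 336432) (nat_lit 0) .nil) .nil))) 
(.lf (nat_lit 567960) (.g (nat_lit 2442) (.e (nat_lit 450580) (nat_lit 5) (.e (nat_lit 532503) (nat_lit 1) (.e (nat_lit 57686) (nat_lit 156) (.e (nat_lit 163903) (nat_lit 12) (.e (nat_lit 426479) (nat_lit 27) (.e (nat_lit 336432) (nat_lit 30) .nil)))))) (.g (nat_lit 1) (.e (nat_lit 341089) (nat_lit 0) .nil) .nil)))) (.nd (nat_lit 9) 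
(.lf (nat_lit 567704) (.g (nat_lit 3872) (.e (nat_lit 450564) (nat_lit 0) (.e (nat_lit 5548) (nat_lit 306) (.e (nat_lit 2619) (nat_lit 164) (.e (nat_lit 172120) (nat_lit 12) (.e (nat_lit 475211) (nat_lit 41) (.e (nat_lit 712753) (nat_lit 30) .nil)))))) (.g (nat_lit 1) (.e (nat_lit 338991) (nat_lit 0) .nil) .nil))) 
(.lf (nat_lit 568216) (.g (nat_lit 341) (.e (nat_lit 450586) (nat_lit 10) (.e (nat_lit 573477) (nat_lit 12) (.e (nat_lit 57575) (nat_lit 55) .nil))) (.g (nat_lit 0) (.e (nat_lit 342534) (nat_lit 0) .nil) .nil)))))) (.nd (nat_lit 7) (.nd (nat_lit 8) (.nd (nat_lit 9) 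
(.lf (nat_lit 567384) (.g (nat_lit 3949) (.e (nat_lit 442419) (nat_lit 21) (.e (nat_lit 164348) (nat_lit 240) (.e (nat_lit 2640) (nat_lit 165) (.e (nat_lit 180278) (nat_lit 32) (.e (nat_lit 1427) (nat_lit 108) (.e (nat_lit 336430) (nat_lit 29) .nil)))))) (.g (nat_lit 1) (.e (nat_lit 336136) (nat_lit 0) .nil) .nil))) 
(.lf (nat_lit 567896) (.g (nat_lit 2579) (.e (nat_lit 450579) (nat_lit 5) (.e (nat_lit 532523) (nat_lit 7) (.e (nat_lit 319532) (nat_lit 16) (.e (nat_lit 286733) (nat_lit 2) (.e (nat_lit 90134) (nat_lit 9) .nil))))) (.g (nat_lit 0) (.e (nat_lit 340431) (nat_lit 0) .nil) .nil)))) (.nd (nat_lit 9) 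
(.lf (nat_lit 567640) (.g (nat_lit 1203) (.e (nat_lit 442430) (nat_lit 24) (.e (nat_lit 229663) (nat_lit 240) (.e (nat_lit 2651) (nat_lit 166) (.e (nat_lit 188420) (nat_lit 0) .nil)))) (.g (nat_lit 0) (.e (nat_lit 337641) (nat_lit 0) .nil) .nil))) 
(.lf (nat_lit 568152) (.g (nat_lit 1711) (.e (nat_lit 450586) (nat_lit 10) (.e (nat_lit 573471) (nat_lit 11) (.e (nat_lit 16425) (nat_lit 7) (.e (nat_lit 417536) (nat_lit 10) .nil)))) (.g (nat_lit 0) (.e (nat_lit 342221) (nat_lit 0) .nil) .nil))))) (.nd (nat_lit 8) (.nd (nat_lit 9) 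
(.lf (nat_lit 567512) (.g (nat_lit 1544) (.e (nat_lit 442426) (nat_lit 23) (.e (nat_lit 204846) (nat_lit 24) (.e (nat_lit 319533) (nat_lit 16) (.e (nat_lit 286724) (nat_lit 0) .nil)))) (.g (nat_lit 0) (.e (nat_lit 336894) (nat_lit 0) .nil) .nil))) 
(.lf (nat_lit 568024) (.g (nat_lit 2746) (.e (nat_lit 450580) (nat_lit 5) (.e (nat_lit 532583) (nat_lit 26) (.e (nat_lit 426100) (nat_lit 1) (.e (nat_lit 164403) (nat_lit 256) (.e (nat_lit 57406) (nat_lit 12) .nil))))) (.g (nat_lit 0) (.e (nat_lit 341580) (nat_lit 0) .nil) .nil)))) (.nd (nat_lit 9) 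
(.lf (nat_lit 567768) (.g (nat_lit 1493) (.e (nat_lit 458496) (nat_lit 0) (.e (nat_lit 5546) (nat_lit 306) (.e (nat_lit 2640) (nat_lit 165) (.e (nat_lit 180278) (nat_lit 32) (.e (nat_lit 1425) (nat_lit 108) .nil))))) (.g (nat_lit 0) (.e (nat_lit 339655) (nat_lit 0) .nil) .nil))) 
(.lf (nat_lit 568280) (.g (nat_lit 2483) (.e (nat_lit 450588) (nat_lit 10) (.e (nat_lit 573471) (nat_lit 11) (.e (nat_lit 16425) (nat_lit 7) (.e (nat_lit 409625) (nat_lit 10) .nil)))) (.g (nat_lit 0) (.e (nat_lit 342923) (nat_lit 0) .nil) .nil))))))) (.nd (nat_lit 6) (.nd (nat_lit 7) (.nd (nat_lit 8) (.nd (nat_lit 9) 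
(.lf (nat_lit 567352) (.g (nat_lit 636) (.e (nat_lit 442419) (nat_lit 21) (.e (nat_lit 164324) (nat_lit 230) (.e (nat_lit 163886) (nat_lit 5) .nil))) (.g (nat_lit 0) (.e (nat_lit 336073) (nat_lit 0) .nil) .nil))) 
(.lf (nat_lit 567864) (.g (nat_lit 397) (.e (nat_lit 450579) (nat_lit 5) (.e (nat_lit 532504) (nat_lit 1) (.e (nat_lit 57651) (nat_lit 152) .nil))) (.g (nat_lit 0) (.e (nat_lit 340341) (nat_lit 0) .nil) .nil)))) (.nd (nat_lit 9) 
(.lf (nat_lit 567608) (.g (nat_lit 1160) (.e (nat_lit 442428) (nat_lit 24) (.e (nat_lit 229665) (nat_lit 240) (.e (nat_lit 2630) (nat_lit 164) (.e (nat_lit 172118) (nat_lit 12) .nil)))) (.g (nat_lit 0) (.e (nat_lit 337479) (nat_lit 0) .nil) .nil))) 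
(.lf (nat_lit 568120) (.g (nat_lit 533) (.e (nat_lit 450586) (nat_lit 10) (.e (nat_lit 573469) (nat_lit 11) (.e (nat_lit 16471) (nat_lit 14) .nil))) (.g (nat_lit 0) (.e (nat_lit 342184) (nat_lit 0) .nil) .nil))))) (.nd (nat_lit 8) (.nd (nat_lit 9) 
(.lf (nat_lit 567480) (.g (nat_lit 1145) (.e (nat_lit 442425) (nat_lit 23) (.e (nat_lit 204846) (nat_lit 24) (.e (nat_lit 319533) (nat_lit 16) (.e (nat_lit 294656) (nat_lit 3) .nil)))) (.g (nat_lit 0) (.e (nat_lit 336642) (nat_lit 0) .nil) .nil))) 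
(.lf (nat_lit 567992) (.g (nat_lit 405) (.e (nat_lit 450580) (nat_lit 5) (.e (nat_lit 532523) (nat_lit 7) (.e (nat_lit 319528) (nat_lit 16) .nil))) (.g (nat_lit 0) (.e (nat_lit 341145) (nat_lit 0) .nil) .nil)))) (.nd (nat_lit 9) 
(.lf (nat_lit 567736) (.g (nat_lit 1059) (.e (nat_lit 450568) (nat_lit 0) (.e (nat_lit 5598) (nat_lit 310) (.e (nat_lit 163913) (nat_lit 12) (.e (nat_lit 426318) (nat_lit 12) (.e (nat_lit 475207) (nat_lit 41) .nil))))) (.g (nat_lit 0) (.e (nat_lit 339464) (nat_lit 0) .nil) .nil))) 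
(.lf (nat_lit 568248) (.g (nat_lit 2429) (.e (nat_lit 450587) (nat_lit 10) (.e (nat_lit 573477) (nat_lit 12) (.e (nat_lit 57574) (nat_lit 55) (.e (nat_lit 778465) (nat_lit 11) (.e (nat_lit 24594) (nat_lit 0) .nil))))) (.g (nat_lit 0) (.e (nat_lit 342727) (nat_lit 0) .nil) .nil)))))) (.nd (nat_lit 7) (.nd (nat_lit 8) (.nd (nat_lit 9) 
(.lf (nat_lit 567416) (.g (nat_lit 3030) (.e (nat_lit 442421) (nat_lit 21) (.e (nat_lit 164319) (nat_lit 228) (.e (nat_lit 57412) (nat_lit 12) (.e (nat_lit 336176) (nat_lit 10) (.e (nat_lit 344161) (nat_lit 37) (.e (nat_lit 647195) (nat_lit 9) (.e (nat_lit 7936) (nat_lit 34) .nil))))))) (.g (nat_lit 1) (.e (nat_lit 336250) (nat_lit 0) .nil) .nil))) 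
(.lf (nat_lit 567928) (.g (nat_lit 3202) (.e (nat_lit 450579) (nat_lit 5) (.e (nat_lit 532569) (nat_lit 16) (.e (nat_lit 401448) (nat_lit 10) (.e (nat_lit 434238) (nat_lit 25) (.e (nat_lit 548898) (nat_lit 14) (.e (nat_lit 3015) (nat_lit 187) .nil)))))) (.g (nat_lit 1) (.e (nat_lit 340910) (nat_lit 0) .nil) .nil)))) (.nd (nat_lit 9) 
(.lf (nat_lit 567672) (.g (nat_lit 1754) (.e (nat_lit 450561) (nat_lit 0) (.e (nat_lit 5537) (nat_lit 306) (.e (nat_lit 2629) (nat_lit 164) (.e (nat_lit 172124) (nat_lit 14) (.e (nat_lit 491550) (nat_lit 9) .nil))))) (.g (nat_lit 0) (.e (nat_lit 338133) (nat_lit 0) .nil) .nil))) 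
(.lf (nat_lit 568184) (.g (nat_lit 909) (.e (nat_lit 450586) (nat_lit 10) (.e (nat_lit 573474) (nat_lit 12) (.e (nat_lit 57512) (nat_lit 40) .nil))) (.g (nat_lit 0) (.e (nat_lit 342423) (nat_lit 0) .nil) .nil))))) (.nd (nat_lit 8) (.nd (nat_lit 9) 
(.lf (nat_lit 567544) (.g (nat_lit 1848) (.e (nat_lit 442427) (nat_lit 23) (.e (nat_lit 204845) (nat_lit 24) (.e (nat_lit 319529) (nat_lit 16) (.e (nat_lit 286734) (nat_lit 3) (.e (nat_lit 98369) (nat_lit 28) .nil))))) (.g (nat_lit 0) (.e (nat_lit 337093) (nat_lit 0) .nil) .nil))) 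
(.lf (nat_lit 568056) (.g (nat_lit 2462) (.e (nat_lit 458496) (nat_lit 5) (.e (nat_lit 532522) (nat_lit 7) (.e (nat_lit 319530) (nat_lit 16) (.e (nat_lit 286733) (nat_lit 2) (.e (nat_lit 90134) (nat_lit 9) .nil))))) (.g (nat_lit 0) (.e (nat_lit 341674) (nat_lit 0) .nil) .nil)))) (.nd (nat_lit 9) 
(.lf (nat_lit 567800) (.g (nat_lit 658) (.e (nat_lit 450578) (nat_lit 5) (.e (nat_lit 532522) (nat_lit 7) (.e (nat_lit 319531) (nat_lit 16) .nil))) (.g (nat_lit 0) (.e (nat_lit 340051) (nat_lit 0) .nil) .nil))) 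
(.lf (nat_lit 568312) (.g (nat_lit 689) (.e (nat_lit 450588) (nat_lit 10) (.e (nat_lit 573474) (nat_lit 12) (.e (nat_lit 57504) (nat_lit 38) .nil))) (.g (nat_lit 0) (.e (nat_lit 343106) (nat_lit 0) .nil) .nil)))))))))) (.nd (nat_lit 3) (.nd (nat_lit 4) (.nd (nat_lit 5) (.nd (nat_lit 6) (.nd (nat_lit 7) (.nd (nat_lit 8) (.nd (nat_lit 9) 
(.lf (nat_lit 567300) (.g (nat_lit 2374) (.e (nat_lit 442411) (nat_lit 20) (.e (nat_lit 3272) (nat_lit 199) (.e (nat_lit 548913) (nat_lit 18) (.e (nat_lit 172125) (nat_lit 14) (.e (nat_lit 491540) (nat_lit 3) .nil))))) (.g (nat_lit 0) (.e (nat_lit 335903) (nat_lit 0) .nil) .nil))) 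
(.lf (nat_lit 567812) (.g (nat_lit 800) (.e (nat_lit 450579) (nat_lit 5) (.e (nat_lit 532499) (nat_lit 1) (.e (nat_lit 57652) (nat_lit 152) .nil))) (.g (nat_lit 0) (.e (nat_lit 340140) (nat_lit 0) .nil) .nil)))) (.nd (nat_lit 9) 
(.lf (nat_lit 567556) (.g (nat_lit 1051) (.e (nat_lit 442427) (nat_lit 23) (.e (nat_lit 204845) (nat_lit 24) (.e (nat_lit 319535) (nat_lit 17) (.e (nat_lit 294930) (nat_lit 3) .nil)))) (.g (nat_lit 0) (.e (nat_lit 337131) (nat_lit 0) .nil) .nil))) 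
(.lf (nat_lit 568068) (.g (nat_lit 1295) (.e (nat_lit 458496) (nat_lit 3) (.e (nat_lit 516106) (nat_lit 0) (.e (nat_lit 3459) (nat_lit 216) (.e (nat_lit 688139) (nat_lit 5) .nil)))) (.g (nat_lit 0) (.e (nat_lit 341700) (nat_lit 0) .nil) .nil))))) (.nd (nat_lit 8) (.nd (nat_lit 9) 
(.lf (nat_lit 567428) (.g (nat_lit 1530) (.e (nat_lit 442421) (nat_lit 21) (.e (nat_lit 164345) (nat_lit 240) (.e (nat_lit 2640) (nat_lit 165) (.e (nat_lit 180278) (nat_lit 32) (.e (nat_lit 1425) (nat_lit 108) (.e (nat_lit 336430) (nat_lit 29) .nil)))))) (.g (nat_lit 1) (.e (nat_lit 336266) (nat_lit 0) .nil) .nil))) 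
(.lf (nat_lit 567940) (.g (nat_lit 2166) (.e (nat_lit 450579) (nat_lit 5) (.e (nat_lit 532579) (nat_lit 26) (.e (nat_lit 426108) (nat_lit 1) (.e (nat_lit 164403) (nat_lit 256) (.e (nat_lit 57405) (nat_lit 12) .nil))))) (.g (nat_lit 0) (.e (nat_lit 340949) (nat_lit 0) .nil) .nil)))) (.nd (nat_lit 9) 
(.lf (nat_lit 567684) (.g (nat_lit 692) (.e (nat_lit 450563) (nat_lit 0) (.e (nat_lit 6830) (nat_lit 367) (.e (nat_lit 57426) (nat_lit 15) (.e (nat_lit 368384) (nat_lit 6) .nil)))) (.g (nat_lit 0) (.e (nat_lit 338920) (nat_lit 0) .nil) .nil))) 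
(.lf (nat_lit 568196) (.g (nat_lit 1767) (.e (nat_lit 450586) (nat_lit 10) (.e (nat_lit 573475) (nat_lit 12) (.e (nat_lit 57503) (nat_lit 38) (.e (nat_lit 638983) (nat_lit 5) .nil)))) (.g (nat_lit 0) (.e (nat_lit 342458) (nat_lit 0) .nil) .nil)))))) (.nd (nat_lit 7) (.nd (nat_lit 8) (.nd (nat_lit 9) 
(.lf (nat_lit 567364) (.g (nat_lit 115) (.e (nat_lit 442419) (nat_lit 21) (.e (nat_lit 164346) (nat_lit 240) (.e (nat_lit 2639) (nat_lit 165) .nil))) (.g (nat_lit 0) (.e (nat_lit 336098) (nat_lit 0) .nil) .nil))) 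
(.lf (nat_lit 567876) (.g (nat_lit 1637) (.e (nat_lit 450579) (nat_lit 5) (.e (nat_lit 532504) (nat_lit 1) (.e (nat_lit 57689) (nat_lit 156) (.e (nat_lit 163907) (nat_lit 12) (.e (nat_lit 426479) (nat_lit 27) (.e (nat_lit 336434) (nat_lit 30) .nil)))))) (.g (nat_lit 1) (.e (nat_lit 340378) (nat_lit 0) .nil) .nil)))) (.nd (nat_lit 9) 
(.lf (nat_lit 567620) (.g (nat_lit 2529) (.e (nat_lit 442429) (nat_lit 24) (.e (nat_lit 229663) (nat_lit 240) (.e (nat_lit 2630) (nat_lit 164) (.e (nat_lit 172120) (nat_lit 12) (.e (nat_lit 475211) (nat_lit 41) .nil))))) (.g (nat_lit 0) (.e (nat_lit 337542) (nat_lit 0) .nil) .nil))) 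
(.lf (nat_lit 568132) (.g (nat_lit 2333) (.e (nat_lit 450586) (nat_lit 10) (.e (nat_lit 573471) (nat_lit 11) (.e (nat_lit 16388) (nat_lit 0) (.e (nat_lit 7545) (nat_lit 402) .nil)))) (.g (nat_lit 0) (.e (nat_lit 342199) (nat_lit 0) .nil) .nil))))) (.nd (nat_lit 8) (.nd (nat_lit 9) 
(.lf (nat_lit 567492) (.g (nat_lit 1135) (.e (nat_lit 442426) (nat_lit 23) (.e (nat_lit 204829) (nat_lit 18) (.e (nat_lit 57691) (nat_lit 156) .nil))) (.g (nat_lit 0) (.e (nat_lit 336830) (nat_lit 0) .nil) .nil))) 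
(.lf (nat_lit 568004) (.g (nat_lit 2319) (.e (nat_lit 450580) (nat_lit 5) (.e (nat_lit 532523) (nat_lit 7) (.e (nat_lit 319534) (nat_lit 16) (.e (nat_lit 286726) (nat_lit 0) .nil)))) (.g (nat_lit 0) (.e (nat_lit 341203) (nat_lit 0) .nil) .nil)))) (.nd (nat_lit 9) 
(.lf (nat_lit 567748) (.g (nat_lit 1141) (.e (nat_lit 458496) (nat_lit 0) (.e (nat_lit 5195) (nat_lit 294) (.e (nat_lit 57428) (nat_lit 15) (.e (nat_lit 360480) (nat_lit 14) (.e (nat_lit 638986) (nat_lit 5) .nil))))) (.g (nat_lit 0) (.e (nat_lit 339593) (nat_lit 0) .nil) .nil))) 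
(.lf (nat_lit 568260) (.g (nat_lit 1442) (.e (nat_lit 450587) (nat_lit 10) (.e (nat_lit 573478) (nat_lit 12) (.e (nat_lit 57574) (nat_lit 55) (.e (nat_lit 778466) (nat_lit 11) (.e (nat_lit 24576) (nat_lit 0) .nil))))) (.g (nat_lit 0) (.e (nat_lit 342798) (nat_lit 0) .nil) .nil))))))) (.nd (nat_lit 6) (.nd (nat_lit 7) (.nd (nat_lit 8) (.nd (nat_lit 9) 
(.lf (nat_lit 567332) (.g (nat_lit 3427) (.e (nat_lit 442412) (nat_lit 20) (.e (nat_lit 3308) (nat_lit 202) (.e (nat_lit 573471) (nat_lit 11) (.e (nat_lit 16425) (nat_lit 7) (.e (nat_lit 409617) (nat_lit 10) .nil))))) (.g (nat_lit 0) (.e (nat_lit 335977) (nat_lit 0) .nil) .nil))) 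
(.lf (nat_lit 567844) (.g (nat_lit 2075) (.e (nat_lit 450579) (nat_lit 5) (.e (nat_lit 532503) (nat_lit 1) (.e (nat_lit 57685) (nat_lit 156) (.e (nat_lit 163902) (nat_lit 12) (.e (nat_lit 426479) (nat_lit 27) (.e (nat_lit 336432) (nat_lit 30) .nil)))))) (.g (nat_lit 1) (.e (nat_lit 340293) (nat_lit 0) .nil) .nil)))) (.nd (nat_lit 9) 
(.lf (nat_lit 567588) (.g (nat_lit 2305) (.e (nat_lit 450304) (nat_lit 23) (.e (nat_lit 204846) (nat_lit 24) (.e (nat_lit 319531) (nat_lit 16) (.e (nat_lit 286735) (nat_lit 3) (.e (nat_lit 98370) (nat_lit 28) .nil))))) (.g (nat_lit 0) (.e (nat_lit 337426) (nat_lit 0) .nil) .nil))) 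
(.lf (nat_lit 568100) (.g (nat_lit 2587) (.e (nat_lit 450585) (nat_lit 10) (.e (nat_lit 573471) (nat_lit 11) (.e (nat_lit 16425) (nat_lit 7) (.e (nat_lit 409615) (nat_lit 10) .nil)))) (.g (nat_lit 0) (.e (nat_lit 342053) (nat_lit 0) .nil) .nil))))) (.nd (nat_lit 8) (.nd (nat_lit 9) 
(.lf (nat_lit 567460) (.g (nat_lit 2758) (.e (nat_lit 442425) (nat_lit 23) (.e (nat_lit 204831) (nat_lit 18) (.e (nat_lit 57688) (nat_lit 156) (.e (nat_lit 163907) (nat_lit 12) (.e (nat_lit 426479) (nat_lit 27) .nil))))) (.g (nat_lit 0) (.e (nat_lit 336572) (nat_lit 0) .nil) .nil))) 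
(.lf (nat_lit 567972) (.g (nat_lit 2922) (.e (nat_lit 450580) (nat_lit 5) (.e (nat_lit 532522) (nat_lit 7) (.e (nat_lit 319530) (nat_lit 16) (.e (nat_lit 286733) (nat_lit 2) (.e (nat_lit 90134) (nat_lit 9) (.e (nat_lit 3019) (nat_lit 187) .nil)))))) (.g (nat_lit 1) (.e (nat_lit 341121) (nat_lit 0) .nil) .nil)))) (.nd (nat_lit 9) 
(.lf (nat_lit 567716) (.g (nat_lit 1080) (.e (nat_lit 450565) (nat_lit 0) (.e (nat_lit 5546) (nat_lit 306) (.e (nat_lit 2629) (nat_lit 164) (.e (nat_lit 172120) (nat_lit 12) .nil)))) (.g (nat_lit 0) (.e (nat_lit 339158) (nat_lit 0) .nil) .nil))) 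
(.lf (nat_lit 568228) (.g (nat_lit 240) (.e (nat_lit 450587) (nat_lit 10) (.e (nat_lit 573470) (nat_lit 11) (.e (nat_lit 16472) (nat_lit 14) .nil))) (.g (nat_lit 0) (.e (nat_lit 342647) (nat_lit 0) .nil) .nil)))))) (.nd (nat_lit 7) (.nd (nat_lit 8) (.nd (nat_lit 9) 
(.lf (nat_lit 567396) (.g (nat_lit 2541) (.e (nat_lit 442421) (nat_lit 21) (.e (nat_lit 164324) (nat_lit 230) (.e (nat_lit 163884) (nat_lit 5) (.e (nat_lit 221194) (nat_lit 11) (.e (nat_lit 336087) (nat_lit 9) (.e (nat_lit 336426) (nat_lit 29) .nil)))))) (.g (nat_lit 1) (.e (nat_lit 336221) (nat_lit 0) .nil) .nil))) 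
(.lf (nat_lit 567908) (.g (nat_lit 3809) (.e (nat_lit 450579) (nat_lit 5) (.e (nat_lit 532523) (nat_lit 7) (.e (nat_lit 319534) (nat_lit 16) (.e (nat_lit 286733) (nat_lit 2) (.e (nat_lit 90134) (nat_lit 9) (.e (nat_lit 3009) (nat_lit 187) .nil)))))) (.g (nat_lit 1) (.e (nat_lit 340447) (nat_lit 0) .nil) .nil)))) (.nd (nat_lit 9) 
(.lf (nat_lit 567652) (.g (nat_lit 1494) (.e (nat_lit 442430) (nat_lit 24) (.e (nat_lit 229665) (nat_lit 240) (.e (nat_lit 2651) (nat_lit 166) (.e (nat_lit 188418) (nat_lit 0) .nil)))) (.g (nat_lit 0) (.e (nat_lit 337726) (nat_lit 0) .nil) .nil))) 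
(.lf (nat_lit 568164) (.g (nat_lit 1690) (.e (nat_lit 450586) (nat_lit 10) (.e (nat_lit 573471) (nat_lit 11) (.e (nat_lit 16473) (nat_lit 14) (.e (nat_lit 491525) (nat_lit 0) .nil)))) (.g (nat_lit 0) (.e (nat_lit 342345) (nat_lit 0) .nil) .nil))))) (.nd (nat_lit 8) (.nd (nat_lit 9) 
(.lf (nat_lit 567524) (.g (nat_lit 3614) (.e (nat_lit 442427) (nat_lit 23) (.e (nat_lit 204829) (nat_lit 18) (.e (nat_lit 57688) (nat_lit 156) (.e (nat_lit 163907) (nat_lit 12) (.e (nat_lit 426479) (nat_lit 27) (.e (nat_lit 336430) (nat_lit 29) .nil)))))) (.g (nat_lit 1) (.e (nat_lit 337026) (nat_lit 0) .nil) .nil))) 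
(.lf (nat_lit 568036) (.g (nat_lit 1054) (.e (nat_lit 450581) (nat_lit 5) (.e (nat_lit 532523) (nat_lit 7) (.e (nat_lit 319511) (nat_lit 10) (.e (nat_lit 5389) (nat_lit 301) .nil)))) (.g (nat_lit 0) (.e (nat_lit 341624) (nat_lit 0) .nil) .nil)))) (.nd (nat_lit 9) 
(.lf (nat_lit 567780) (.g (nat_lit 1034) (.e (nat_lit 458496) (nat_lit 0) (.e (nat_lit 5548) (nat_lit 306) (.e (nat_lit 2648) (nat_lit 166) (.e (nat_lit 188418) (nat_lit 0) .nil)))) (.g (nat_lit 0) (.e (nat_lit 339728) (nat_lit 0) .nil) .nil))) 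
(.lf (nat_lit 568292) (.g (nat_lit 2427) (.e (nat_lit 450588) (nat_lit 10) (.e (nat_lit 573471) (nat_lit 11) (.e (nat_lit 16470) (nat_lit 14) (.e (nat_lit 499456) (nat_lit 0) .nil)))) (.g (nat_lit 0) (.e (nat_lit 343004) (nat_lit 0) .nil) .nil)))))))) (.nd (nat_lit 5) (.nd (nat_lit 6) (.nd (nat_lit 7) (.nd (nat_lit 8) (.nd (nat_lit 9) 
(.lf (nat_lit 567316) (.g (nat_lit 1806) (.e (nat_lit 442411) (nat_lit 20) (.e (nat_lit 3469) (nat_lit 217) (.e (nat_lit 696344) (nat_lit 8) (.e (nat_lit 172113) (nat_lit 10) (.e (nat_lit 434208) (nat_lit 18) .nil))))) (.g (nat_lit 0) (.e (nat_lit 335931) (nat_lit 0) .nil) .nil))) 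
(.lf (nat_lit 567828) (.g (nat_lit 1132) (.e (nat_lit 450579) (nat_lit 5) (.e (nat_lit 532499) (nat_lit 1) (.e (nat_lit 57691) (nat_lit 156) (.e (nat_lit 163906) (nat_lit 12) .nil)))) (.g (nat_lit 0) (.e (nat_lit 340186) (nat_lit 0) .nil) .nil)))) (.nd (nat_lit 9) 
(.lf (nat_lit 567572) (.g (nat_lit 1133) (.e (nat_lit 442427) (nat_lit 23) (.e (nat_lit 204863) (nat_lit 27) (.e (nat_lit 344160) (nat_lit 37) (.e (nat_lit 647195) (nat_lit 9) .nil)))) (.g (nat_lit 0) (.e (nat_lit 337292) (nat_lit 0) .nil) .nil))) 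
(.lf (nat_lit 568084) (.g (nat_lit 3498) (.e (nat_lit 450577) (nat_lit 4) (.e (nat_lit 524291) (nat_lit 0) (.e (nat_lit 3390) (nat_lit 210) (.e (nat_lit 639020) (nat_lit 16) (.e (nat_lit 65571) (nat_lit 3) (.e (nat_lit 98372) (nat_lit 29) .nil)))))) (.g (nat_lit 1) (.e (nat_lit 341759) (nat_lit 0) .nil) .nil))))) (.nd (nat_lit 8) (.nd (nat_lit 9) 
(.lf (nat_lit 567444) (.g (nat_lit 908) (.e (nat_lit 442423) (nat_lit 22) (.e (nat_lit 196656) (nat_lit 11) (.e (nat_lit 24320) (nat_lit 20) .nil))) (.g (nat_lit 0) (.e (nat_lit 336372) (nat_lit 0) .nil) .nil))) 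
(.lf (nat_lit 567956) (.g (nat_lit 1571) (.e (nat_lit 450580) (nat_lit 5) (.e (nat_lit 532501) (nat_lit 1) (.e (nat_lit 57691) (nat_lit 156) (.e (nat_lit 163906) (nat_lit 12) (.e (nat_lit 426479) (nat_lit 27) .nil))))) (.g (nat_lit 0) (.e (nat_lit 341064) (nat_lit 0) .nil) .nil)))) (.nd (nat_lit 9) 
(.lf (nat_lit 567700) (.g (nat_lit 2385) (.e (nat_lit 450564) (nat_lit 0) (.e (nat_lit 5547) (nat_lit 306) (.e (nat_lit 2619) (nat_lit 164) (.e (nat_lit 172124) (nat_lit 14) (.e (nat_lit 491550) (nat_lit 9) (.e (nat_lit 336434) (nat_lit 30) .nil)))))) (.g (nat_lit 1) (.e (nat_lit 338968) (nat_lit 0) .nil) .nil))) 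
(.lf (nat_lit 568212) (.g (nat_lit 978) (.e (nat_lit 450586) (nat_lit 10) (.e (nat_lit 573477) (nat_lit 12) (.e (nat_lit 57574) (nat_lit 55) (.e (nat_lit 778465) (nat_lit 11) .nil)))) (.g (nat_lit 0) (.e (nat_lit 342513) (nat_lit 0) .nil) .nil)))))) (.nd (nat_lit 7) (.nd (nat_lit 8) (.nd (nat_lit 9) 
(.lf (nat_lit 567380) (.g (nat_lit 3436) (.e (nat_lit 442419) (nat_lit 21) (.e (nat_lit 164348) (nat_lit 240) (.e (nat_lit 2638) (nat_lit 165) (.e (nat_lit 180278) (nat_lit 32) (.e (nat_lit 1426) (nat_lit 108) (.e (nat_lit 336430) (nat_lit 29) .nil)))))) (.g (nat_lit 1) (.e (nat_lit 336125) (nat_lit 0) .nil) .nil))) 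
(.lf (nat_lit 567892) (.g (nat_lit 4204) (.e (nat_lit 450579) (nat_lit 5) (.e (nat_lit 532523) (nat_lit 7) (.e (nat_lit 319530) (nat_lit 16) (.e (nat_lit 286733) (nat_lit 2) (.e (nat_lit 90134) (nat_lit 9) (.e (nat_lit 3009) (nat_lit 187) .nil)))))) (.g (nat_lit 1) (.e (nat_lit 340420) (nat_lit 0) .nil) .nil)))) (.nd (nat_lit 9) 
(.lf (nat_lit 567636) (.g (nat_lit 1450) (.e (nat_lit 442430) (nat_lit 24) (.e (nat_lit 229663) (nat_lit 240) (.e (nat_lit 2641) (nat_lit 165) (.e (nat_lit 180278) (nat_lit 32) (.e (nat_lit 1426) (nat_lit 108) .nil))))) (.g (nat_lit 0) (.e (nat_lit 337620) (nat_lit 0) .nil) .nil))) 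
(.lf (nat_lit 568148) (.g (nat_lit 2278) (.e (nat_lit 450586) (nat_lit 10) (.e (nat_lit 573471) (nat_lit 11) (.e (nat_lit 16425) (nat_lit 7) (.e (nat_lit 409614) (nat_lit 10) .nil)))) (.g (nat_lit 0) (.e (nat_lit 342216) (nat_lit 0) .nil) .nil))))) (.nd (nat_lit 8) (.nd (nat_lit 9) 
(.lf (nat_lit 567508) (.g (nat_lit 2490) (.e (nat_lit 442426) (nat_lit 23) (.e (nat_lit 204846) (nat_lit 24) (.e (nat_lit 319530) (nat_lit 16) (.e (nat_lit 286727) (nat_lit 0) (.e (nat_lit 1809) (nat_lit 120) .nil))))) (.g (nat_lit 0) (.e (nat_lit 336878) (nat_lit 0) .nil) .nil))) 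
(.lf (nat_lit 568020) (.g (nat_lit 2358) (.e (nat_lit 450580) (nat_lit 5) (.e (nat_lit 532579) (nat_lit 26) (.e (nat_lit 426100) (nat_lit 1) (.e (nat_lit 164402) (nat_lit 256) (.e (nat_lit 57406) (nat_lit 12) .nil))))) (.g (nat_lit 0) (.e (nat_lit 341575) (nat_lit 0) .nil) .nil)))) (.nd (nat_lit 9) 
(.lf (nat_lit 567764) (.g (nat_lit 1091) (.e (nat_lit 458496) (nat_lit 0) (.e (nat_lit 5546) (nat_lit 306) (.e (nat_lit 2639) (nat_lit 165) (.e (nat_lit 180278) (nat_lit 32) (.e (nat_lit 1426) (nat_lit 108) .nil))))) (.g (nat_lit 0) (.e (nat_lit 339651) (nat_lit 0) .nil) .nil))) 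
(.lf (nat_lit 568276) (.g (nat_lit 2303) (.e (nat_lit 450588) (nat_lit 10) (.e (nat_lit 573471) (nat_lit 11) (.e (nat_lit 16392) (nat_lit 0) (.e (nat_lit 7595) (nat_lit 408) .nil)))) (.g (nat_lit 0) (.e (nat_lit 342915) (nat_lit 0) .nil) .nil))))))) (.nd (nat_lit 6) (.nd (nat_lit 7) (.nd (nat_lit 8) (.nd (nat_lit 9) 
(.lf (nat_lit 567348) (.g (nat_lit 980) (.e (nat_lit 442417) (nat_lit 20) (.e (nat_lit 3253) (nat_lit 197) (.e (nat_lit 532504) (nat_lit 1) (.e (nat_lit 57692) (nat_lit 156) .nil)))) (.g (nat_lit 0) (.e (nat_lit 336029) (nat_lit 0) .nil) .nil))) 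
(.lf (nat_lit 567860) (.g (nat_lit 1086) (.e (nat_lit 450579) (nat_lit 5) (.e (nat_lit 532503) (nat_lit 1) (.e (nat_lit 57692) (nat_lit 156) (.e (nat_lit 163906) (nat_lit 12) .nil)))) (.g (nat_lit 0) (.e (nat_lit 340331) (nat_lit 0) .nil) .nil)))) (.nd (nat_lit 9) 
(.lf (nat_lit 567604) (.g (nat_lit 3166) (.e (nat_lit 442428) (nat_lit 24) (.e (nat_lit 229663) (nat_lit 240) (.e (nat_lit 2641) (nat_lit 165) (.e (nat_lit 180278) (nat_lit 32) (.e (nat_lit 1428) (nat_lit 108) (.e (nat_lit 336430) (nat_lit 29) .nil)))))) (.g (nat_lit 1) (.e (nat_lit 337456) (nat_lit 0) .nil) .nil))) 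
(.lf (nat_lit 568116) (.g (nat_lit 2970) (.e (nat_lit 450586) (nat_lit 10) (.e (nat_lit 573457) (nat_lit 9) (.e (nat_lit 430) (nat_lit 32) (.e (nat_lit 426011) (nat_lit 0) (.e (nat_lit 7583) (nat_lit 405) (.e (nat_lit 57464) (nat_lit 23) (.e (nat_lit 516165) (nat_lit 12) .nil))))))) (.g (nat_lit 1) (.e (nat_lit 342167) (nat_lit 0) .nil) .nil))))) (.nd (nat_lit 8) (.nd (nat_lit 9) 
(.lf (nat_lit 567476) (.g (nat_lit 1951) (.e (nat_lit 442425) (nat_lit 23) (.e (nat_lit 204846) (nat_lit 24) (.e (nat_lit 319531) (nat_lit 16) (.e (nat_lit 286727) (nat_lit 0) (.e (nat_lit 1799) (nat_lit 119) .nil))))) (.g (nat_lit 0) (.e (nat_lit 336622) (nat_lit 0) .nil) .nil))) 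
(.lf (nat_lit 567988) (.g (nat_lit 1675) (.e (nat_lit 450580) (nat_lit 5) (.e (nat_lit 532523) (nat_lit 7) (.e (nat_lit 319506) (nat_lit 10) (.e (nat_lit 5296) (nat_lit 298) .nil)))) (.g (nat_lit 0) (.e (nat_lit 341139) (nat_lit 0) .nil) .nil)))) (.nd (nat_lit 9) 
(.lf (nat_lit 567732) (.g (nat_lit 408) (.e (nat_lit 450566) (nat_lit 0) (.e (nat_lit 5548) (nat_lit 306) (.e (nat_lit 2638) (nat_lit 165) .nil))) (.g (nat_lit 0) (.e (nat_lit 339372) (nat_lit 0) .nil) .nil))) 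
(.lf (nat_lit 568244) (.g (nat_lit 1261) (.e (nat_lit 450587) (nat_lit 10) (.e (nat_lit 573477) (nat_lit 12) (.e (nat_lit 57574) (nat_lit 55) (.e (nat_lit 778463) (nat_lit 11) (.e (nat_lit 24579) (nat_lit 0) .nil))))) (.g (nat_lit 0) (.e (nat_lit 342722) (nat_lit 0) .nil) .nil)))))) (.nd (nat_lit 7) (.nd (nat_lit 8) (.nd (nat_lit 9) 
(.lf (nat_lit 567412) (.g (nat_lit 1328) (.e (nat_lit 442421) (nat_lit 21) (.e (nat_lit 164331) (nat_lit 230) (.e (nat_lit 163885) (nat_lit 5) (.e (nat_lit 229120) (nat_lit 16) .nil)))) (.g (nat_lit 0) (.e (nat_lit 336242) (nat_lit 0) .nil) .nil))) 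
(.lf (nat_lit 567924) (.g (nat_lit 5158) (.e (nat_lit 450579) (nat_lit 5) (.e (nat_lit 532566) (nat_lit 15) (.e (nat_lit 385094) (nat_lit 49) (.e (nat_lit 778317) (nat_lit 3) (.e (nat_lit 57476) (nat_lit 28) (.e (nat_lit 557067) (nat_lit 9) (.e (nat_lit 3022) (nat_lit 187) .nil))))))) (.g (nat_lit 1) (.e (nat_lit 340852) (nat_lit 0) .nil) .nil)))) (.nd (nat_lit 9) 
(.lf (nat_lit 567668) (.g (nat_lit 1829) (.e (nat_lit 442436) (nat_lit 26) (.e (nat_lit 254008) (nat_lit 14) (.e (nat_lit 1358) (nat_lit 102) (.e (nat_lit 286747) (nat_lit 9) (.e (nat_lit 336013) (nat_lit 2) (.e (nat_lit 98048) (nat_lit 0) (.e (nat_lit 463) (nat_lit 34) .nil))))))) (.g (nat_lit 1) (.e (nat_lit 338099) (nat_lit 0) .nil) .nil))) 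
(.lf (nat_lit 568180) (.g (nat_lit 909) (.e (nat_lit 450586) (nat_lit 10) (.e (nat_lit 573474) (nat_lit 12) (.e (nat_lit 57505) (nat_lit 39) .nil))) (.g (nat_lit 0) (.e (nat_lit 342407) (nat_lit 0) .nil) .nil))))) (.nd (nat_lit 8) (.nd (nat_lit 9) 
(.lf (nat_lit 567540) (.g (nat_lit 2526) (.e (nat_lit 442427) (nat_lit 23) (.e (nat_lit 204831) (nat_lit 18) (.e (nat_lit 57691) (nat_lit 156) (.e (nat_lit 163907) (nat_lit 12) (.e (nat_lit 426479) (nat_lit 27) .nil))))) (.g (nat_lit 0) (.e (nat_lit 337077) (nat_lit 0) .nil) .nil))) 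
(.lf (nat_lit 568052) (.g (nat_lit 3159) (.e (nat_lit 450581) (nat_lit 5) (.e (nat_lit 532523) (nat_lit 7) (.e (nat_lit 319534) (nat_lit 16) (.e (nat_lit 286732) (nat_lit 2) (.e (nat_lit 90134) (nat_lit 9) (.e (nat_lit 3025) (nat_lit 187) .nil)))))) (.g (nat_lit 1) (.e (nat_lit 341649) (nat_lit 0) .nil) .nil)))) (.nd (nat_lit 9) 
(.lf (nat_lit 567796) (.g (nat_lit 520) (.e (nat_lit 450578) (nat_lit 5) (.e (nat_lit 532503) (nat_lit 1) (.e (nat_lit 57687) (nat_lit 156) .nil))) (.g (nat_lit 0) (.e (nat_lit 340044) (nat_lit 0) .nil) .nil))) 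
(.lf (nat_lit 568308) (.g (nat_lit 1454) (.e (nat_lit 450588) (nat_lit 10) (.e (nat_lit 573473) (nat_lit 12) (.e (nat_lit 57569) (nat_lit 53) (.e (nat_lit 761869) (nat_lit 5) (.e (nat_lit 1534) (nat_lit 109) .nil))))) (.g (nat_lit 0) (.e (nat_lit 343051) (nat_lit 0) .nil) .nil))))))))) (.nd (nat_lit 4) (.nd (nat_lit 5) (.nd (nat_lit 6) (.nd (nat_lit 7) (.nd (nat_lit 8) (.nd (nat_lit 9) 
(.lf (nat_lit 567308) (.g (nat_lit 2136) (.e (nat_lit 442411) (nat_lit 20) (.e (nat_lit 3390) (nat_lit 210) (.e (nat_lit 639021) (nat_lit 16) (.e (nat_lit 65619) (nat_lit 10) (.e (nat_lit 344160) (nat_lit 37) (.e (nat_lit 647195) (nat_lit 9) (.e (nat_lit 7936) (nat_lit 34) .nil))))))) (.g (nat_lit 1) (.e (nat_lit 335911) (nat_lit 0) .nil) .nil))) 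
(.lf (nat_lit 567820) (.g (nat_lit 1619) (.e (nat_lit 450579) (nat_lit 5) (.e (nat_lit 532499) (nat_lit 1) (.e (nat_lit 57688) (nat_lit 156) (.e (nat_lit 163901) (nat_lit 12) .nil)))) (.g (nat_lit 0) (.e (nat_lit 340163) (nat_lit 0) .nil) .nil)))) (.nd (nat_lit 9) 
(.lf (nat_lit 567564) (.g (nat_lit 2107) (.e (nat_lit 442427) (nat_lit 23) (.e (nat_lit 204846) (nat_lit 24) (.e (nat_lit 319534) (nat_lit 16) (.e (nat_lit 286721) (nat_lit 0) .nil)))) (.g (nat_lit 0) (.e (nat_lit 337176) (nat_lit 0) .nil) .nil))) 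
(.lf (nat_lit 568076) (.g (nat_lit 2718) (.e (nat_lit 458496) (nat_lit 3) (.e (nat_lit 516115) (nat_lit 1) (.e (nat_lit 164325) (nat_lit 230) (.e (nat_lit 163864) (nat_lit 1) .nil)))) (.g (nat_lit 0) (.e (nat_lit 341710) (nat_lit 0) .nil) .nil))))) (.nd (nat_lit 8) (.nd (nat_lit 9) 
(.lf (nat_lit 567436) (.g (nat_lit 2740) (.e (nat_lit 442421) (nat_lit 21) (.e (nat_lit 164347) (nat_lit 240) (.e (nat_lit 2638) (nat_lit 165) (.e (nat_lit 180277) (nat_lit 32) (.e (nat_lit 1427) (nat_lit 108) (.e (nat_lit 336426) (nat_lit 29) .nil)))))) (.g (nat_lit 1) (.e (nat_lit 336291) (nat_lit 0) .nil) .nil))) 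
(.lf (nat_lit 567948) (.g (nat_lit 881) (.e (nat_lit 450580) (nat_lit 5) (.e (nat_lit 532499) (nat_lit 1) (.e (nat_lit 57679) (nat_lit 153) .nil))) (.g (nat_lit 0) (.e (nat_lit 341008) (nat_lit 0) .nil) .nil)))) (.nd (nat_lit 9) 
(.lf (nat_lit 567692) (.g (nat_lit 1903) (.e (nat_lit 450564) (nat_lit 0) (.e (nat_lit 5546) (nat_lit 306) (.e (nat_lit 2619) (nat_lit 164) (.e (nat_lit 172119) (nat_lit 12) (.e (nat_lit 475210) (nat_lit 41) .nil))))) (.g (nat_lit 0) (.e (nat_lit 338933) (nat_lit 0) .nil) .nil))) 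
(.lf (nat_lit 568204) (.g (nat_lit 1055) (.e (nat_lit 450586) (nat_lit 10) (.e (nat_lit 573475) (nat_lit 12) (.e (nat_lit 57574) (nat_lit 55) (.e (nat_lit 778362) (nat_lit 9) .nil)))) (.g (nat_lit 0) (.e (nat_lit 342478) (nat_lit 0) .nil) .nil)))))) (.nd (nat_lit 7) (.nd (nat_lit 8) (.nd (nat_lit 9) 
(.lf (nat_lit 567372) (.g (nat_lit 3996) (.e (nat_lit 442419) (nat_lit 21) (.e (nat_lit 164348) (nat_lit 240) (.e (nat_lit 2628) (nat_lit 164) (.e (nat_lit 172126) (nat_lit 14) (.e (nat_lit 491549) (nat_lit 9) (.e (nat_lit 336430) (nat_lit 29) .nil)))))) (.g (nat_lit 1) (.e (nat_lit 336116) (nat_lit 0) .nil) .nil))) 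
(.lf (nat_lit 567884) (.g (nat_lit 4181) (.e (nat_lit 450579) (nat_lit 5) (.e (nat_lit 532522) (nat_lit 7) (.e (nat_lit 319530) (nat_lit 16) (.e (nat_lit 286733) (nat_lit 2) (.e (nat_lit 90134) (nat_lit 9) (.e (nat_lit 3009) (nat_lit 187) .nil)))))) (.g (nat_lit 1) (.e (nat_lit 340410) (nat_lit 0) .nil) .nil)))) (.nd (nat_lit 9) 
(.lf (nat_lit 567628) (.g (nat_lit 1669) (.e (nat_lit 442430) (nat_lit 24) (.e (nat_lit 229663) (nat_lit 240) (.e (nat_lit 2622) (nat_lit 164) (.e (nat_lit 172119) (nat_lit 12) (.e (nat_lit 475210) (nat_lit 41) .nil))))) (.g (nat_lit 0) (.e (nat_lit 337578) (nat_lit 0) .nil) .nil))) 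
(.lf (nat_lit 568140) (.g (nat_lit 451) (.e (nat_lit 450586) (nat_lit 10) (.e (nat_lit 573471) (nat_lit 11) (.e (nat_lit 16396) (nat_lit 0) .nil))) (.g (nat_lit 0) (.e (nat_lit 342207) (nat_lit 0) .nil) .nil))))) (.nd (nat_lit 8) (.nd (nat_lit 9) 
(.lf (nat_lit 567500) (.g (nat_lit 1346) (.e (nat_lit 442426) (nat_lit 23) (.e (nat_lit 204846) (nat_lit 24) (.e (nat_lit 319504) (nat_lit 10) (.e (nat_lit 7936) (nat_lit 301) .nil)))) (.g (nat_lit 0) (.e (nat_lit 336865) (nat_lit 0) .nil) .nil))) 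
(.lf (nat_lit 568012) (.g (nat_lit 513) (.e (nat_lit 450580) (nat_lit 5) (.e (nat_lit 532530) (nat_lit 9) (.e (nat_lit 336257) (nat_lit 15) .nil))) (.g (nat_lit 0) (.e (nat_lit 341264) (nat_lit 0) .nil) .nil)))) (.nd (nat_lit 9) 
(.lf (nat_lit 567756) (.g (nat_lit 1421) (.e (nat_lit 458496) (nat_lit 0) (.e (nat_lit 5546) (nat_lit 306) (.e (nat_lit 2625) (nat_lit 164) (.e (nat_lit 172120) (nat_lit 12) (.e (nat_lit 475211) (nat_lit 41) .nil))))) (.g (nat_lit 0) (.e (nat_lit 339634) (nat_lit 0) .nil) .nil))) 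
(.lf (nat_lit 568268) (.g (nat_lit 1046) (.e (nat_lit 450588) (nat_lit 10) (.e (nat_lit 573469) (nat_lit 11) (.e (nat_lit 16425) (nat_lit 7) (.e (nat_lit 417536) (nat_lit 10) .nil)))) (.g (nat_lit 0) (.e (nat_lit 342886) (nat_lit 0) .nil) .nil))))))) (.nd (nat_lit 6) (.nd (nat_lit 7) (.nd (nat_lit 8) (.nd (nat_lit 9) 
(.lf (nat_lit 567340) (.g (nat_lit 1810) (.e (nat_lit 442412) (nat_lit 20) (.e (nat_lit 3391) (nat_lit 210) (.e (nat_lit 639021) (nat_lit 16) (.e (nat_lit 65617) (nat_lit 10) (.e (nat_lit 344164) (nat_lit 37) (.e (nat_lit 647190) (nat_lit 9) (.e (nat_lit 7936) (nat_lit 34) .nil))))))) (.g (nat_lit 1) (.e (nat_lit 335985) (nat_lit 0) .nil) .nil))) 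
(.lf (nat_lit 567852) (.g (nat_lit 2380) (.e (nat_lit 450579) (nat_lit 5) (.e (nat_lit 532503) (nat_lit 1) (.e (nat_lit 57687) (nat_lit 156) (.e (nat_lit 163907) (nat_lit 12) (.e (nat_lit 426479) (nat_lit 27) .nil))))) (.g (nat_lit 0) (.e (nat_lit 340307) (nat_lit 0) .nil) .nil)))) (.nd (nat_lit 9) 
(.lf (nat_lit 567596) (.g (nat_lit 3862) (.e (nat_lit 442428) (nat_lit 24) (.e (nat_lit 229663) (nat_lit 240) (.e (nat_lit 2622) (nat_lit 164) (.e (nat_lit 172124) (nat_lit 14) (.e (nat_lit 491550) (nat_lit 9) (.e (nat_lit 336430) (nat_lit 29) .nil)))))) (.g (nat_lit 1) (.e (nat_lit 337441) (nat_lit 0) .nil) .nil))) 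
(.lf (nat_lit 568108) (.g (nat_lit 1620) (.e (nat_lit 450586) (nat_lit 10) (.e (nat_lit 573450) (nat_lit 9) (.e (nat_lit 411) (nat_lit 32) (.e (nat_lit 426338) (nat_lit 14) (.e (nat_lit 491540) (nat_lit 3) .nil))))) (.g (nat_lit 0) (.e (nat_lit 342098) (nat_lit 0) .nil) .nil))))) (.nd (nat_lit 8) (.nd (nat_lit 9) 
(.lf (nat_lit 567468) (.g (nat_lit 709) (.e (nat_lit 442425) (nat_lit 23) (.e (nat_lit 204846) (nat_lit 24) (.e (nat_lit 319496) (nat_lit 10) .nil))) (.g (nat_lit 0) (.e (nat_lit 336604) (nat_lit 0) .nil) .nil))) 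
(.lf (nat_lit 567980) (.g (nat_lit 1265) (.e (nat_lit 450580) (nat_lit 5) (.e (nat_lit 532523) (nat_lit 7) (.e (nat_lit 319500) (nat_lit 10) (.e (nat_lit 5395) (nat_lit 301) .nil)))) (.g (nat_lit 0) (.e (nat_lit 341131) (nat_lit 0) .nil) .nil)))) (.nd (nat_lit 9) 
(.lf (nat_lit 567724) (.g (nat_lit 3713) (.e (nat_lit 450565) (nat_lit 0) (.e (nat_lit 5548) (nat_lit 306) (.e (nat_lit 2619) (nat_lit 164) (.e (nat_lit 172120) (nat_lit 12) (.e (nat_lit 475211) (nat_lit 41) (.e (nat_lit 712753) (nat_lit 30) .nil)))))) (.g (nat_lit 1) (.e (nat_lit 339189) (nat_lit 0) .nil) .nil))) 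
(.lf (nat_lit 568236) (.g (nat_lit 354) (.e (nat_lit 450587) (nat_lit 10) (.e (nat_lit 573475) (nat_lit 12) (.e (nat_lit 57503) (nat_lit 38) .nil))) (.g (nat_lit 0) (.e (nat_lit 342667) (nat_lit 0) .nil) .nil)))))) (.nd (nat_lit 7) (.nd (nat_lit 8) (.nd (nat_lit 9) 
(.lf (nat_lit 567404) (.g (nat_lit 2231) (.e (nat_lit 442421) (nat_lit 21) (.e (nat_lit 164326) (nat_lit 230) (.e (nat_lit 163882) (nat_lit 4) (.e (nat_lit 213032) (nat_lit 11) (.e (nat_lit 24629) (nat_lit 9) (.e (nat_lit 336427) (nat_lit 29) .nil)))))) (.g (nat_lit 1) (.e (nat_lit 336232) (nat_lit 0) .nil) .nil))) 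
(.lf (nat_lit 567916) (.g (nat_lit 2261) (.e (nat_lit 450579) (nat_lit 5) (.e (nat_lit 532534) (nat_lit 9) (.e (nat_lit 336240) (nat_lit 15) (.e (nat_lit 3605) (nat_lit 225) (.e (nat_lit 761899) (nat_lit 15) (.e (nat_lit 163959) (nat_lit 24) (.e (nat_lit 524320) (nat_lit 12) .nil))))))) (.g (nat_lit 1) (.e (nat_lit 340620) (nat_lit 0) .nil) .nil)))) (.nd (nat_lit 9) 
(.lf (nat_lit 567660) (.g (nat_lit 903) (.e (nat_lit 442430) (nat_lit 24) (.e (nat_lit 229680) (nat_lit 244) (.e (nat_lit 163913) (nat_lit 12) (.e (nat_lit 426318) (nat_lit 12) .nil)))) (.g (nat_lit 0) (.e (nat_lit 337808) (nat_lit 0) .nil) .nil))) 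
(.lf (nat_lit 568172) (.g (nat_lit 377) (.e (nat_lit 450586) (nat_lit 10) (.e (nat_lit 573473) (nat_lit 12) (.e (nat_lit 57347) (nat_lit 0) .nil))) (.g (nat_lit 0) (.e (nat_lit 342356) (nat_lit 0) .nil) .nil))))) (.nd (nat_lit 8) (.nd (nat_lit 9) 
(.lf (nat_lit 567532) (.g (nat_lit 1788) (.e (nat_lit 442427) (nat_lit 23) (.e (nat_lit 204830) (nat_lit 18) (.e (nat_lit 57691) (nat_lit 156) (.e (nat_lit 163906) (nat_lit 12) (.e (nat_lit 426479) (nat_lit 27) .nil))))) (.g (nat_lit 0) (.e (nat_lit 337056) (nat_lit 0) .nil) .nil))) 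
(.lf (nat_lit 568044) (.g (nat_lit 3822) (.e (nat_lit 450581) (nat_lit 5) (.e (nat_lit 532523) (nat_lit 7) (.e (nat_lit 319532) (nat_lit 16) (.e (nat_lit 286733) (nat_lit 2) (.e (nat_lit 90134) (nat_lit 9) (.e (nat_lit 3025) (nat_lit 187) .nil)))))) (.g (nat_lit 1) (.e (nat_lit 341637) (nat_lit 0) .nil) .nil)))) (.nd (nat_lit 9) 
(.lf (nat_lit 567788) (.g (nat_lit 2186) (.e (nat_lit 458496) (nat_lit 0) (.e (nat_lit 5587) (nat_lit 310) (.e (nat_lit 163903) (nat_lit 12) (.e (nat_lit 426320) (nat_lit 12) (.e (nat_lit 475209) (nat_lit 41) .nil))))) (.g (nat_lit 0) (.e (nat_lit 339756) (nat_lit 0) .nil) .nil))) 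
(.lf (nat_lit 568300) (.g (nat_lit 2486) (.e (nat_lit 450588) (nat_lit 10) (.e (nat_lit 573473) (nat_lit 12) (.e (nat_lit 57508) (nat_lit 39) (.e (nat_lit 647195) (nat_lit 9) (.e (nat_lit 426) (nat_lit 32) (.e (nat_lit 426009) (nat_lit 0) (.e (nat_lit 3548) (nat_lit 219) (.e (nat_lit 712754) (nat_lit 30) .nil)))))))) (.g (nat_lit 1) (.e (nat_lit 343039) (nat_lit 0) .nil) .nil)))))))) 
(.nd (nat_lit 5) (.nd (nat_lit 6) (.nd (nat_lit 7) (.nd (nat_lit 8) (.nd (nat_lit 9) 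
(.lf (nat_lit 567324) (.g (nat_lit 394) (.e (nat_lit 442412) (nat_lit 20) (.e (nat_lit 3272) (nat_lit 199) (.e (nat_lit 548913) (nat_lit 18) .nil))) (.g (nat_lit 0) (.e (nat_lit 335957) (nat_lit 0) .nil) .nil))) 
(.lf (nat_lit 567836) (.g (nat_lit 1826) (.e (nat_lit 450579) (nat_lit 5) (.e (nat_lit 532501) (nat_lit 1) (.e (nat_lit 57663) (nat_lit 152) (.e (nat_lit 2630) (nat_lit 164) (.e (nat_lit 172042) (nat_lit 0) .nil))))) (.g (nat_lit 0) (.e (nat_lit 340224) (nat_lit 0) .nil) .nil)))) (.nd (nat_lit 9) 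
(.lf (nat_lit 567580) (.g (nat_lit 2237) (.e (nat_lit 450304) (nat_lit 23) (.e (nat_lit 204845) (nat_lit 24) (.e (nat_lit 319533) (nat_lit 16) (.e (nat_lit 286735) (nat_lit 3) (.e (nat_lit 98369) (nat_lit 28) .nil))))) (.g (nat_lit 0) (.e (nat_lit 337418) (nat_lit 0) .nil) .nil))) 
(.lf (nat_lit 568092) (.g (nat_lit 2087) (.e (nat_lit 458496) (nat_lit 7) (.e (nat_lit 548913) (nat_lit 18) (.e (nat_lit 172126) (nat_lit 14) (.e (nat_lit 491540) (nat_lit 3) (.e (nat_lit 98372) (nat_lit 29) .nil))))) (.g (nat_lit 0) (.e (nat_lit 342043) (nat_lit 0) .nil) .nil))))) (.nd (nat_lit 8) (.nd (nat_lit 9) 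
(.lf (nat_lit 567452) (.g (nat_lit 3427) (.e (nat_lit 442425) (nat_lit 23) (.e (nat_lit 204829) (nat_lit 18) (.e (nat_lit 57688) (nat_lit 156) (.e (nat_lit 163907) (nat_lit 12) (.e (nat_lit 426479) (nat_lit 27) (.e (nat_lit 336430) (nat_lit 29) .nil)))))) (.g (nat_lit 1) (.e (nat_lit 336516) (nat_lit 0) .nil) .nil))) 
(.lf (nat_lit 567964) (.g (nat_lit 2882) (.e (nat_lit 450580) (nat_lit 5) (.e (nat_lit 532504) (nat_lit 1) (.e (nat_lit 57691) (nat_lit 156) (.e (nat_lit 163905) (nat_lit 12) (.e (nat_lit 426479) (nat_lit 27) (.e (nat_lit 336432) (nat_lit 30) .nil)))))) (.g (nat_lit 1) (.e (nat_lit 341103) (nat_lit 0) .nil) .nil)))) (.nd (nat_lit 9) 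
(.lf (nat_lit 567708) (.g (nat_lit 3038) (.e (nat_lit 450564) (nat_lit 0) (.e (nat_lit 5548) (nat_lit 306) (.e (nat_lit 2629) (nat_lit 164) (.e (nat_lit 172126) (nat_lit 14) (.e (nat_lit 491550) (nat_lit 9) (.e (nat_lit 336434) (nat_lit 30) .nil)))))) (.g (nat_lit 1) (.e (nat_lit 338997) (nat_lit 0) .nil) .nil))) 
(.lf (nat_lit 568220) (.g (nat_lit 4213) (.e (nat_lit 450586) (nat_lit 10) (.e (nat_lit 573477) (nat_lit 12) (.e (nat_lit 57575) (nat_lit 55) (.e (nat_lit 778466) (nat_lit 11) (.e (nat_lit 24608) (nat_lit 3) (.e (nat_lit 98372) (nat_lit 29) .nil)))))) (.g (nat_lit 1) (.e (nat_lit 342550) (nat_lit 0) .nil) .nil)))))) (.nd (nat_lit 7) (.nd (nat_lit 8) (.nd (nat_lit 9) 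
(.lf (nat_lit 567388) (.g (nat_lit 741) (.e (nat_lit 442420) (nat_lit 21) (.e (nat_lit 164324) (nat_lit 230) (.e (nat_lit 163886) (nat_lit 5) (.e (nat_lit 229120) (nat_lit 16) .nil)))) (.g (nat_lit 0) (.e (nat_lit 336160) (nat_lit 0) .nil) .nil))) 
(.lf (nat_lit 567900) (.g (nat_lit 2986) (.e (nat_lit 450579) (nat_lit 5) (.e (nat_lit 532523) (nat_lit 7) (.e (nat_lit 319533) (nat_lit 16) (.e (nat_lit 286733) (nat_lit 2) (.e (nat_lit 90134) (nat_lit 9) .nil))))) (.g (nat_lit 0) (.e (nat_lit 340436) (nat_lit 0) .nil) .nil)))) (.nd (nat_lit 9) 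
(.lf (nat_lit 567644) (.g (nat_lit 2106) (.e (nat_lit 442430) (nat_lit 24) (.e (nat_lit 229665) (nat_lit 240) (.e (nat_lit 2630) (nat_lit 164) (.e (nat_lit 172120) (nat_lit 12) (.e (nat_lit 475209) (nat_lit 41) .nil))))) (.g (nat_lit 0) (.e (nat_lit 337698) (nat_lit 0) .nil) .nil))) 
(.lf (nat_lit 568156) (.g (nat_lit 4149) (.e (nat_lit 450586) (nat_lit 10) (.e (nat_lit 573471) (nat_lit 11) (.e (nat_lit 16470) (nat_lit 14) (.e (nat_lit 491528) (nat_lit 0) .nil)))) (.g (nat_lit 0) (.e (nat_lit 342327) (nat_lit 0) .nil) .nil))))) (.nd (nat_lit 8) (.nd (nat_lit 9) 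
(.lf (nat_lit 567516) (.g (nat_lit 2504) (.e (nat_lit 442427) (nat_lit 23) (.e (nat_lit 204813) (nat_lit 9) (.e (nat_lit 426098) (nat_lit 1) (.e (nat_lit 164398) (nat_lit 256) (.e (nat_lit 57409) (nat_lit 12) .nil))))) (.g (nat_lit 0) (.e (nat_lit 336950) (nat_lit 0) .nil) .nil))) 
(.lf (nat_lit 568028) (.g (nat_lit 764) (.e (nat_lit 450581) (nat_lit 5) (.e (nat_lit 532501) (nat_lit 1) (.e (nat_lit 57692) (nat_lit 156) .nil))) (.g (nat_lit 0) (.e (nat_lit 341603) (nat_lit 0) .nil) .nil)))) (.nd (nat_lit 9) 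
(.lf (nat_lit 567772) (.g (nat_lit 1664) (.e (nat_lit 458496) (nat_lit 0) (.e (nat_lit 5547) (nat_lit 306) (.e (nat_lit 2638) (nat_lit 165) (.e (nat_lit 180277) (nat_lit 32) (.e (nat_lit 1425) (nat_lit 108) .nil))))) (.g (nat_lit 0) (.e (nat_lit 339691) (nat_lit 0) .nil) .nil))) 
(.lf (nat_lit 568284) (.g (nat_lit 3306) (.e (nat_lit 450588) (nat_lit 10) (.e (nat_lit 573471) (nat_lit 11) (.e (nat_lit 16470) (nat_lit 14) (.e (nat_lit 491521) (nat_lit 0) .nil)))) (.g (nat_lit 0) (.e (nat_lit 342996) (nat_lit 0) .nil) .nil))))))) (.nd (nat_lit 6) (.nd (nat_lit 7) (.nd (nat_lit 8) (.nd (nat_lit 9) 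
(.lf (nat_lit 567356) (.g (nat_lit 1289) (.e (nat_lit 442419) (nat_lit 21) (.e (nat_lit 164331) (nat_lit 230) (.e (nat_lit 163884) (nat_lit 5) (.e (nat_lit 229120) (nat_lit 16) .nil)))) (.g (nat_lit 0) (.e (nat_lit 336081) (nat_lit 0) .nil) .nil))) 
(.lf (nat_lit 567868) (.g (nat_lit 1739) (.e (nat_lit 450579) (nat_lit 5) (.e (nat_lit 532504) (nat_lit 1) (.e (nat_lit 57663) (nat_lit 152) (.e (nat_lit 2630) (nat_lit 164) (.e (nat_lit 172035) (nat_lit 0) .nil))))) (.g (nat_lit 0) (.e (nat_lit 340353) (nat_lit 0) .nil) .nil)))) (.nd (nat_lit 9) 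
(.lf (nat_lit 567612) (.g (nat_lit 1174) (.e (nat_lit 442428) (nat_lit 24) (.e (nat_lit 229678) (nat_lit 244) (.e (nat_lit 163846) (nat_lit 0) (.e (nat_lit 6989) (nat_lit 377) (.e (nat_lit 1361) (nat_lit 102) .nil))))) (.g (nat_lit 0) (.e (nat_lit 337511) (nat_lit 0) .nil) .nil))) 
(.lf (nat_lit 568124) (.g (nat_lit 2546) (.e (nat_lit 450586) (nat_lit 10) (.e (nat_lit 573471) (nat_lit 11) (.e (nat_lit 16385) (nat_lit 0) (.e (nat_lit 7583) (nat_lit 405) (.e (nat_lit 57464) (nat_lit 23) (.e (nat_lit 516165) (nat_lit 12) .nil)))))) (.g (nat_lit 1) (.e (nat_lit 342191) (nat_lit 0) .nil) .nil))))) (.nd (nat_lit 8) (.nd (nat_lit 9) 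
(.lf (nat_lit 567484) (.g (nat_lit 2269) (.e (nat_lit 442425) (nat_lit 23) (.e (nat_lit 204885) (nat_lit 33) (.e (nat_lit 401448) (nat_lit 10) (.e (nat_lit 434238) (nat_lit 25) (.e (nat_lit 548898) (nat_lit 14) .nil))))) (.g (nat_lit 0) (.e (nat_lit 336794) (nat_lit 0) .nil) .nil))) 
(.lf (nat_lit 567996) (.g (nat_lit 3670) (.e (nat_lit 450580) (nat_lit 5) (.e (nat_lit 532523) (nat_lit 7) (.e (nat_lit 319530) (nat_lit 16) (.e (nat_lit 286733) (nat_lit 2) (.e (nat_lit 90134) (nat_lit 9) (.e (nat_lit 3019) (nat_lit 187) .nil)))))) (.g (nat_lit 1) (.e (nat_lit 341154) (nat_lit 0) .nil) .nil)))) (.nd (nat_lit 9) 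
(.lf (nat_lit 567740) (.g (nat_lit 792) (.e (nat_lit 458496) (nat_lit 0) (.e (nat_lit 4120) (nat_lit 245) (.e (nat_lit 1220) (nat_lit 90) (.e (nat_lit 89856) (nat_lit 19) .nil)))) (.g (nat_lit 0) (.e (nat_lit 339575) (nat_lit 0) .nil) .nil))) 
(.lf (nat_lit 568252) (.g (nat_lit 2423) (.e (nat_lit 450587) (nat_lit 10) (.e (nat_lit 573477) (nat_lit 12) (.e (nat_lit 57575) (nat_lit 55) (.e (nat_lit 778465) (nat_lit 11) (.e (nat_lit 24588) (nat_lit 0) .nil))))) (.g (nat_lit 0) (.e (nat_lit 342781) (nat_lit 0) .nil) .nil)))))) (.nd (nat_lit 7) (.nd (nat_lit 8) (.nd (nat_lit 9) 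
(.lf (nat_lit 567420) (.g (nat_lit 1813) (.e (nat_lit 442421) (nat_lit 21) (.e (nat_lit 164319) (nat_lit 228) (.e (nat_lit 57427) (nat_lit 15) (.e (nat_lit 360483) (nat_lit 15) (.e (nat_lit 647189) (nat_lit 9) (.e (nat_lit 7936) (nat_lit 34) .nil)))))) (.g (nat_lit 1) (.e (nat_lit 336255) (nat_lit 0) .nil) .nil))) 
(.lf (nat_lit 567932) (.g (nat_lit 1849) (.e (nat_lit 450579) (nat_lit 5) (.e (nat_lit 532579) (nat_lit 26) (.e (nat_lit 426098) (nat_lit 1) (.e (nat_lit 164399) (nat_lit 256) (.e (nat_lit 57405) (nat_lit 12) .nil))))) (.g (nat_lit 0) (.e (nat_lit 340941) (nat_lit 0) .nil) .nil)))) (.nd (nat_lit 9) 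
(.lf (nat_lit 567676) (.g (nat_lit 409) (.e (nat_lit 450561) (nat_lit 0) (.e (nat_lit 6830) (nat_lit 367) (.e (nat_lit 57427) (nat_lit 15) .nil))) (.g (nat_lit 0) (.e (nat_lit 338546) (nat_lit 0) .nil) .nil))) 
(.lf (nat_lit 568188) (.g (nat_lit 815) (.e (nat_lit 450586) (nat_lit 10) (.e (nat_lit 573474) (nat_lit 12) (.e (nat_lit 57572) (nat_lit 54) (.e (nat_lit 770072) (nat_lit 8) .nil)))) (.g (nat_lit 0) (.e (nat_lit 342427) (nat_lit 0) .nil) .nil))))) (.nd (nat_lit 8) (.nd (nat_lit 9) 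
(.lf (nat_lit 567548) (.g (nat_lit 2793) (.e (nat_lit 442427) (nat_lit 23) (.e (nat_lit 204845) (nat_lit 24) (.e (nat_lit 319530) (nat_lit 16) (.e (nat_lit 286727) (nat_lit 0) (.e (nat_lit 1809) (nat_lit 120) .nil))))) (.g (nat_lit 0) (.e (nat_lit 337098) (nat_lit 0) .nil) .nil))) 
(.lf (nat_lit 568060) (.g (nat_lit 1176) (.e (nat_lit 458496) (nat_lit 5) (.e (nat_lit 532523) (nat_lit 7) (.e (nat_lit 319505) (nat_lit 10) (.e (nat_lit 5395) (nat_lit 301) .nil)))) (.g (nat_lit 0) (.e (nat_lit 341678) (nat_lit 0) .nil) .nil)))) (.nd (nat_lit 9) 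
(.lf (nat_lit 567804) (.g (nat_lit 1612) (.e (nat_lit 450578) (nat_lit 5) (.e (nat_lit 532523) (nat_lit 7) (.e (nat_lit 319533) (nat_lit 16) (.e (nat_lit 286732) (nat_lit 2) .nil)))) (.g (nat_lit 0) (.e (nat_lit 340055) (nat_lit 0) .nil) .nil))) 
(.lf (nat_lit 568316) (.g (nat_lit 242) (.e (nat_lit 450588) (nat_lit 10) (.e (nat_lit 573474) (nat_lit 12) (.e (nat_lit 57572) (nat_lit 54) .nil))) (.g (nat_lit 0) (.e (nat_lit 343132) (nat_lit 0) .nil) .nil))))))))))) (.nd (nat_lit 2) (.nd (nat_lit 3) (.nd (nat_lit 4) (.nd (nat_lit 5) (.nd (nat_lit 6) (.nd (nat_lit 7) (.nd (nat_lit 8) (.nd (nat_lit 9) 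
(.lf (nat_lit 567298) (.g (nat_lit 1636) (.e (nat_lit 442411) (nat_lit 20) (.e (nat_lit 3272) (nat_lit 199) (.e (nat_lit 548913) (nat_lit 18) (.e (nat_lit 172125) (nat_lit 14) .nil)))) (.g (nat_lit 0) (.e (nat_lit 335901) (nat_lit 0) .nil) .nil))) 
(.lf (nat_lit 567810) (.g (nat_lit 138) (.e (nat_lit 450579) (nat_lit 5) (.e (nat_lit 532484) (nat_lit 0) (.e (nat_lit 7936) (nat_lit 153) .nil))) (.g (nat_lit 0) (.e (nat_lit 340124) (nat_lit 0) .nil) .nil)))) (.nd (nat_lit 9) 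
(.lf (nat_lit 567554) (.g (nat_lit 895) (.e (nat_lit 442427) (nat_lit 23) (.e (nat_lit 204845) (nat_lit 24) (.e (nat_lit 319534) (nat_lit 16) (.e (nat_lit 286728) (nat_lit 0) .nil)))) (.g (nat_lit 0) (.e (nat_lit 337127) (nat_lit 0) .nil) .nil))) 
(.lf (nat_lit 568066) (.g (nat_lit 2262) (.e (nat_lit 458496) (nat_lit 5) (.e (nat_lit 532569) (nat_lit 16) (.e (nat_lit 401448) (nat_lit 10) (.e (nat_lit 434238) (nat_lit 25) .nil)))) (.g (nat_lit 0) (.e (nat_lit 341686) (nat_lit 0) .nil) .nil))))) (.nd (nat_lit 8) (.nd (nat_lit 9) 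
(.lf (nat_lit 567426) (.g (nat_lit 1765) (.e (nat_lit 442421) (nat_lit 21) (.e (nat_lit 164319) (nat_lit 228) (.e (nat_lit 57427) (nat_lit 15) (.e (nat_lit 360484) (nat_lit 15) (.e (nat_lit 647195) (nat_lit 9) (.e (nat_lit 7936) (nat_lit 34) .nil)))))) (.g (nat_lit 1) (.e (nat_lit 336261) (nat_lit 0) .nil) .nil))) 
(.lf (nat_lit 567938) (.g (nat_lit 1000) (.e (nat_lit 450579) (nat_lit 5) (.e (nat_lit 532579) (nat_lit 26) (.e (nat_lit 426107) (nat_lit 1) (.e (nat_lit 164401) (nat_lit 256) .nil)))) (.g (nat_lit 0) (.e (nat_lit 340947) (nat_lit 0) .nil) .nil)))) (.nd (nat_lit 9) 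
(.lf (nat_lit 567682) (.g (nat_lit 430) (.e (nat_lit 450563) (nat_lit 0) (.e (nat_lit 6830) (nat_lit 367) (.e (nat_lit 57424) (nat_lit 14) .nil))) (.g (nat_lit 0) (.e (nat_lit 338916) (nat_lit 0) .nil) .nil))) 
(.lf (nat_lit 568194) (.g (nat_lit 2679) (.e (nat_lit 450586) (nat_lit 10) (.e (nat_lit 573475) (nat_lit 12) (.e (nat_lit 57354) (nat_lit 0) (.e (nat_lit 7270) (nat_lit 385) (.e (nat_lit 122906) (nat_lit 12) .nil))))) (.g (nat_lit 0) (.e (nat_lit 342452) (nat_lit 0) .nil) .nil)))))) (.nd (nat_lit 7) (.nd (nat_lit 8) (.nd (nat_lit 9) 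
(.lf (nat_lit 567362) (.g (nat_lit 2695) (.e (nat_lit 442419) (nat_lit 21) (.e (nat_lit 164345) (nat_lit 240) (.e (nat_lit 2638) (nat_lit 165) (.e (nat_lit 180278) (nat_lit 32) (.e (nat_lit 1426) (nat_lit 108) (.e (nat_lit 336430) (nat_lit 29) .nil)))))) (.g (nat_lit 1) (.e (nat_lit 336091) (nat_lit 0) .nil) .nil))) 
(.lf (nat_lit 567874) (.g (nat_lit 592) (.e (nat_lit 450579) (nat_lit 5) (.e (nat_lit 532504) (nat_lit 1) (.e (nat_lit 57671) (nat_lit 152) .nil))) (.g (nat_lit 0) (.e (nat_lit 340372) (nat_lit 0) .nil) .nil)))) (.nd (nat_lit 9) 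
(.lf (nat_lit 567618) (.g (nat_lit 1976) (.e (nat_lit 442429) (nat_lit 24) (.e (nat_lit 229663) (nat_lit 240) (.e (nat_lit 2630) (nat_lit 164) (.e (nat_lit 172118) (nat_lit 12) .nil)))) (.g (nat_lit 0) (.e (nat_lit 337539) (nat_lit 0) .nil) .nil))) 
(.lf (nat_lit 568130) (.g (nat_lit 2442) (.e (nat_lit 450586) (nat_lit 10) (.e (nat_lit 573471) (nat_lit 11) (.e (nat_lit 16387) (nat_lit 0) (.e (nat_lit 7583) (nat_lit 405) (.e (nat_lit 57464) (nat_lit 23) (.e (nat_lit 516165) (nat_lit 12) .nil)))))) (.g (nat_lit 1) (.e (nat_lit 342197) (nat_lit 0) .nil) .nil))))) (.nd (nat_lit 8) (.nd (nat_lit 9) 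
(.lf (nat_lit 567490) (.g (nat_lit 2145) (.e (nat_lit 442426) (nat_lit 23) (.e (nat_lit 204813) (nat_lit 9) (.e (nat_lit 426108) (nat_lit 1) (.e (nat_lit 164403) (nat_lit 256) (.e (nat_lit 57406) (nat_lit 12) .nil))))) (.g (nat_lit 0) (.e (nat_lit 336811) (nat_lit 0) .nil) .nil))) 
(.lf (nat_lit 568002) (.g (nat_lit 2241) (.e (nat_lit 450580) (nat_lit 5) (.e (nat_lit 532523) (nat_lit 7) (.e (nat_lit 319533) (nat_lit 16) (.e (nat_lit 286728) (nat_lit 0) .nil)))) (.g (nat_lit 0) (.e (nat_lit 341168) (nat_lit 0) .nil) .nil)))) (.nd (nat_lit 9) 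
(.lf (nat_lit 567746) (.g (nat_lit 1486) (.e (nat_lit 458496) (nat_lit 0) (.e (nat_lit 5195) (nat_lit 294) (.e (nat_lit 57427) (nat_lit 15) (.e (nat_lit 360483) (nat_lit 15) (.e (nat_lit 647189) (nat_lit 9) .nil))))) (.g (nat_lit 0) (.e (nat_lit 339590) (nat_lit 0) .nil) .nil))) 
(.lf (nat_lit 568258) (.g (nat_lit 1969) (.e (nat_lit 450587) (nat_lit 10) (.e (nat_lit 573478) (nat_lit 12) (.e (nat_lit 57574) (nat_lit 55) (.e (nat_lit 778465) (nat_lit 11) (.e (nat_lit 24592) (nat_lit 0) .nil))))) (.g (nat_lit 0) (.e (nat_lit 342794) (nat_lit 0) .nil) .nil))))))) (.nd (nat_lit 6) (.nd (nat_lit 7) (.nd (nat_lit 8) (.nd (nat_lit 9) 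
(.lf (nat_lit 567330) (.g (nat_lit 4211) (.e (nat_lit 442412) (nat_lit 20) (.e (nat_lit 3304) (nat_lit 202) (.e (nat_lit 573471) (nat_lit 11) (.e (nat_lit 16425) (nat_lit 7) (.e (nat_lit 409616) (nat_lit 10) .nil))))) (.g (nat_lit 0) (.e (nat_lit 335975) (nat_lit 0) .nil) .nil))) 
(.lf (nat_lit 567842) (.g (nat_lit 964) (.e (nat_lit 450579) (nat_lit 5) (.e (nat_lit 532503) (nat_lit 1) (.e (nat_lit 57652) (nat_lit 152) (.e (nat_lit 2635) (nat_lit 165) .nil)))) (.g (nat_lit 0) (.e (nat_lit 340286) (nat_lit 0) .nil) .nil)))) (.nd (nat_lit 9) 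
(.lf (nat_lit 567586) (.g (nat_lit 1552) (.e (nat_lit 450304) (nat_lit 23) (.e (nat_lit 204846) (nat_lit 24) (.e (nat_lit 319531) (nat_lit 16) (.e (nat_lit 286735) (nat_lit 3) .nil)))) (.g (nat_lit 0) (.e (nat_lit 337424) (nat_lit 0) .nil) .nil))) 
(.lf (nat_lit 568098) (.g (nat_lit 994) (.e (nat_lit 450585) (nat_lit 10) (.e (nat_lit 573471) (nat_lit 11) (.e (nat_lit 16392) (nat_lit 0) .nil))) (.g (nat_lit 0) (.e (nat_lit 342051) (nat_lit 0) .nil) .nil))))) (.nd (nat_lit 8) (.nd (nat_lit 9) 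
(.lf (nat_lit 567458) (.g (nat_lit 2218) (.e (nat_lit 442425) (nat_lit 23) (.e (nat_lit 204831) (nat_lit 18) (.e (nat_lit 57687) (nat_lit 156) (.e (nat_lit 163905) (nat_lit 12) (.e (nat_lit 426479) (nat_lit 27) .nil))))) (.g (nat_lit 0) (.e (nat_lit 336567) (nat_lit 0) .nil) .nil))) 
(.lf (nat_lit 567970) (.g (nat_lit 2519) (.e (nat_lit 450580) (nat_lit 5) (.e (nat_lit 532522) (nat_lit 7) (.e (nat_lit 319530) (nat_lit 16) (.e (nat_lit 286733) (nat_lit 2) (.e (nat_lit 90131) (nat_lit 9) .nil))))) (.g (nat_lit 0) (.e (nat_lit 341119) (nat_lit 0) .nil) .nil)))) (.nd (nat_lit 9) 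
(.lf (nat_lit 567714) (.g (nat_lit 1071) (.e (nat_lit 450565) (nat_lit 0) (.e (nat_lit 5546) (nat_lit 306) (.e (nat_lit 2628) (nat_lit 164) (.e (nat_lit 172118) (nat_lit 12) .nil)))) (.g (nat_lit 0) (.e (nat_lit 339156) (nat_lit 0) .nil) .nil))) 
(.lf (nat_lit 568226) (.g (nat_lit 1051) (.e (nat_lit 450587) (nat_lit 10) (.e (nat_lit 573469) (nat_lit 11) (.e (nat_lit 16471) (nat_lit 14) (.e (nat_lit 491526) (nat_lit 0) .nil)))) (.g (nat_lit 0) (.e (nat_lit 342644) (nat_lit 0) .nil) .nil)))))) (.nd (nat_lit 7) (.nd (nat_lit 8) (.nd (nat_lit 9) 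
(.lf (nat_lit 567394) (.g (nat_lit 2087) (.e (nat_lit 442421) (nat_lit 21) (.e (nat_lit 164324) (nat_lit 230) (.e (nat_lit 163884) (nat_lit 5) (.e (nat_lit 221194) (nat_lit 11) (.e (nat_lit 336074) (nat_lit 9) .nil))))) (.g (nat_lit 0) (.e (nat_lit 336219) (nat_lit 0) .nil) .nil))) 
(.lf (nat_lit 567906) (.g (nat_lit 3028) (.e (nat_lit 450579) (nat_lit 5) (.e (nat_lit 532523) (nat_lit 7) (.e (nat_lit 319534) (nat_lit 16) (.e (nat_lit 286732) (nat_lit 2) (.e (nat_lit 90134) (nat_lit 9) .nil))))) (.g (nat_lit 0) (.e (nat_lit 340444) (nat_lit 0) .nil) .nil)))) (.nd (nat_lit 9) 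
(.lf (nat_lit 567650) (.g (nat_lit 932) (.e (nat_lit 442430) (nat_lit 24) (.e (nat_lit 229665) (nat_lit 240) (.e (nat_lit 2643) (nat_lit 165) (.e (nat_lit 180277) (nat_lit 32) .nil)))) (.g (nat_lit 0) (.e (nat_lit 337722) (nat_lit 0) .nil) .nil))) 
(.lf (nat_lit 568162) (.g (nat_lit 1984) (.e (nat_lit 450586) (nat_lit 10) (.e (nat_lit 573471) (nat_lit 11) (.e (nat_lit 16472) (nat_lit 14) (.e (nat_lit 491520) (nat_lit 0) .nil)))) (.g (nat_lit 0) (.e (nat_lit 342343) (nat_lit 0) .nil) .nil))))) (.nd (nat_lit 8) (.nd (nat_lit 9) 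
(.lf (nat_lit 567522) (.g (nat_lit 2129) (.e (nat_lit 442427) (nat_lit 23) (.e (nat_lit 204828) (nat_lit 18) (.e (nat_lit 57691) (nat_lit 156) (.e (nat_lit 163905) (nat_lit 12) (.e (nat_lit 426479) (nat_lit 27) (.e (nat_lit 336430) (nat_lit 29) .nil)))))) (.g (nat_lit 1) (.e (nat_lit 337016) (nat_lit 0) .nil) .nil))) 
(.lf (nat_lit 568034) (.g (nat_lit 651) (.e (nat_lit 450581) (nat_lit 5) (.e (nat_lit 532523) (nat_lit 7) (.e (nat_lit 319503) (nat_lit 10) .nil))) (.g (nat_lit 0) (.e (nat_lit 341622) (nat_lit 0) .nil) .nil)))) (.nd (nat_lit 9) 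
(.lf (nat_lit 567778) (.g (nat_lit 1011) (.e (nat_lit 458496) (nat_lit 0) (.e (nat_lit 5548) (nat_lit 306) (.e (nat_lit 2619) (nat_lit 164) (.e (nat_lit 172126) (nat_lit 14) .nil)))) (.g (nat_lit 0) (.e (nat_lit 339722) (nat_lit 0) .nil) .nil))) 
(.lf (nat_lit 568290) (.g (nat_lit 3618) (.e (nat_lit 450588) (nat_lit 10) (.e (nat_lit 573471) (nat_lit 11) (.e (nat_lit 16470) (nat_lit 14) (.e (nat_lit 491530) (nat_lit 0) (.e (nat_lit 1796) (nat_lit 119) .nil))))) (.g (nat_lit 0) (.e (nat_lit 343002) (nat_lit 0) .nil) .nil)))))))) (.nd (nat_lit 5) (.nd (nat_lit 6) (.nd (nat_lit 7) (.nd (nat_lit 8) (.nd (nat_lit 9) 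
(.lf (nat_lit 567314) (.g (nat_lit 4749) (.e (nat_lit 442411) (nat_lit 20) (.e (nat_lit 3469) (nat_lit 217) (.e (nat_lit 696344) (nat_lit 8) (.e (nat_lit 172106) (nat_lit 10) (.e (nat_lit 434209) (nat_lit 18) (.e (nat_lit 6425) (nat_lit 342) (.e (nat_lit 229412) (nat_lit 14) .nil))))))) (.g (nat_lit 1) (.e (nat_lit 335929) (nat_lit 0) .nil) .nil))) 
(.lf (nat_lit 567826) (.g (nat_lit 905) (.e (nat_lit 450579) (nat_lit 5) (.e (nat_lit 532499) (nat_lit 1) (.e (nat_lit 57689) (nat_lit 156) .nil))) (.g (nat_lit 0) (.e (nat_lit 340181) (nat_lit 0) .nil) .nil)))) (.nd (nat_lit 9) 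
(.lf (nat_lit 567570) (.g (nat_lit 1549) (.e (nat_lit 442427) (nat_lit 23) (.e (nat_lit 204862) (nat_lit 27) (.e (nat_lit 344160) (nat_lit 37) (.e (nat_lit 647198) (nat_lit 10) (.e (nat_lit 8223) (nat_lit 14) .nil))))) (.g (nat_lit 0) (.e (nat_lit 337268) (nat_lit 0) .nil) .nil))) 
(.lf (nat_lit 568082) (.g (nat_lit 2408) (.e (nat_lit 458496) (nat_lit 3) (.e (nat_lit 516195) (nat_lit 26) (.e (nat_lit 336059) (nat_lit 7) (.e (nat_lit 319504) (nat_lit 10) (.e (nat_lit 804) (nat_lit 67) .nil))))) (.g (nat_lit 0) (.e (nat_lit 341724) (nat_lit 0) .nil) .nil))))) (.nd (nat_lit 8) (.nd (nat_lit 9) 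
(.lf (nat_lit 567442) (.g (nat_lit 854) (.e (nat_lit 442422) (nat_lit 22) (.e (nat_lit 196654) (nat_lit 11) (.e (nat_lit 16406) (nat_lit 1) (.e (nat_lit 164403) (nat_lit 256) .nil)))) (.g (nat_lit 0) (.e (nat_lit 336339) (nat_lit 0) .nil) .nil))) 
(.lf (nat_lit 567954) (.g (nat_lit 2227) (.e (nat_lit 450580) (nat_lit 5) (.e (nat_lit 532501) (nat_lit 1) (.e (nat_lit 57663) (nat_lit 152) (.e (nat_lit 2725) (nat_lit 172) (.e (nat_lit 237578) (nat_lit 0) .nil))))) (.g (nat_lit 0) (.e (nat_lit 341059) (nat_lit 0) .nil) .nil)))) (.nd (nat_lit 9) 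
(.lf (nat_lit 567698) (.g (nat_lit 2178) (.e (nat_lit 450564) (nat_lit 0) (.e (nat_lit 5546) (nat_lit 306) (.e (nat_lit 2640) (nat_lit 165) (.e (nat_lit 180278) (nat_lit 32) (.e (nat_lit 1426) (nat_lit 108) (.e (nat_lit 336434) (nat_lit 30) .nil)))))) (.g (nat_lit 1) (.e (nat_lit 338954) (nat_lit 0) .nil) .nil))) 
(.lf (nat_lit 568210) (.g (nat_lit 2251) (.e (nat_lit 450586) (nat_lit 10) (.e (nat_lit 573477) (nat_lit 12) (.e (nat_lit 57511) (nat_lit 39) (.e (nat_lit 647199) (nat_lit 11) (.e (nat_lit 16388) (nat_lit 0) (.e (nat_lit 3544) (nat_lit 219) (.e (nat_lit 712753) (nat_lit 30) .nil))))))) (.g (nat_lit 1) (.e (nat_lit 342509) (nat_lit 0) .nil) .nil)))))) 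
(.nd (nat_lit 7) (.nd (nat_lit 8) (.nd (nat_lit 9) 
(.lf (nat_lit 567378) (.g (nat_lit 3711) (.e (nat_lit 442419) (nat_lit 21) (.e (nat_lit 164348) (nat_lit 240) (.e (nat_lit 2638) (nat_lit 165) (.e (nat_lit 180277) (nat_lit 32) (.e (nat_lit 1428) (nat_lit 108) (.e (nat_lit 336430) (nat_lit 29) .nil)))))) (.g (nat_lit 1) (.e (nat_lit 336123) (nat_lit 0) .nil) .nil))) 
(.lf (nat_lit 567890) (.g (nat_lit 1732) (.e (nat_lit 450579) (nat_lit 5) (.e (nat_lit 532523) (nat_lit 7) (.e (nat_lit 319504) (nat_lit 10) (.e (nat_lit 5393) (nat_lit 301) (.e (nat_lit 57464) (nat_lit 23) .nil))))) (.g (nat_lit 0) (.e (nat_lit 340416) (nat_lit 0) .nil) .nil)))) (.nd (nat_lit 9) 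
(.lf (nat_lit 567634) (.g (nat_lit 3066) (.e (nat_lit 442430) (nat_lit 24) (.e (nat_lit 229663) (nat_lit 240) (.e (nat_lit 2630) (nat_lit 164) (.e (nat_lit 172126) (nat_lit 14) (.e (nat_lit 491547) (nat_lit 9) .nil))))) (.g (nat_lit 0) (.e (nat_lit 337612) (nat_lit 0) .nil) .nil))) 
(.lf (nat_lit 568146) (.g (nat_lit 3172) (.e (nat_lit 450586) (nat_lit 10) (.e (nat_lit 573471) (nat_lit 11) (.e (nat_lit 16425) (nat_lit 7) (.e (nat_lit 409610) (nat_lit 10) .nil)))) (.g (nat_lit 0) (.e (nat_lit 342214) (nat_lit 0) .nil) .nil))))) (.nd (nat_lit 8) (.nd (nat_lit 9) 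
(.lf (nat_lit 567506) (.g (nat_lit 2129) (.e (nat_lit 442426) (nat_lit 23) (.e (nat_lit 204846) (nat_lit 24) (.e (nat_lit 319528) (nat_lit 16) (.e (nat_lit 286735) (nat_lit 3) (.e (nat_lit 98369) (nat_lit 28) .nil))))) (.g (nat_lit 0) (.e (nat_lit 336874) (nat_lit 0) .nil) .nil))) 
(.lf (nat_lit 568018) (.g (nat_lit 1773) (.e (nat_lit 450580) (nat_lit 5) (.e (nat_lit 532579) (nat_lit 26) (.e (nat_lit 426100) (nat_lit 1) (.e (nat_lit 164397) (nat_lit 256) .nil)))) (.g (nat_lit 0) (.e (nat_lit 341572) (nat_lit 0) .nil) .nil)))) (.nd (nat_lit 9) 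
(.lf (nat_lit 567762) (.g (nat_lit 1614) (.e (nat_lit 458496) (nat_lit 0) (.e (nat_lit 5546) (nat_lit 306) (.e (nat_lit 2638) (nat_lit 165) (.e (nat_lit 180278) (nat_lit 32) (.e (nat_lit 1426) (nat_lit 108) .nil))))) (.g (nat_lit 0) (.e (nat_lit 339645) (nat_lit 0) .nil) .nil))) 
(.lf (nat_lit 568274) (.g (nat_lit 1172) (.e (nat_lit 450588) (nat_lit 10) (.e (nat_lit 573471) (nat_lit 11) (.e (nat_lit 16388) (nat_lit 0) (.e (nat_lit 7536) (nat_lit 402) .nil)))) (.g (nat_lit 0) (.e (nat_lit 342913) (nat_lit 0) .nil) .nil))))))) (.nd (nat_lit 6) (.nd (nat_lit 7) (.nd (nat_lit 8) (.nd (nat_lit 9) 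
(.lf (nat_lit 567346) (.g (nat_lit 1697) (.e (nat_lit 442412) (nat_lit 20) (.e (nat_lit 3469) (nat_lit 217) (.e (nat_lit 696344) (nat_lit 8) (.e (nat_lit 172115) (nat_lit 10) (.e (nat_lit 434202) (nat_lit 18) .nil))))) (.g (nat_lit 0) (.e (nat_lit 336022) (nat_lit 0) .nil) .nil))) 
(.lf (nat_lit 567858) (.g (nat_lit 1068) (.e (nat_lit 450579) (nat_lit 5) (.e (nat_lit 532503) (nat_lit 1) (.e (nat_lit 57691) (nat_lit 156) (.e (nat_lit 163906) (nat_lit 12) .nil)))) (.g (nat_lit 0) (.e (nat_lit 340322) (nat_lit 0) .nil) .nil)))) (.nd (nat_lit 9) 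
(.lf (nat_lit 567602) (.g (nat_lit 1506) (.e (nat_lit 442428) (nat_lit 24) (.e (nat_lit 229663) (nat_lit 240) (.e (nat_lit 2641) (nat_lit 165) (.e (nat_lit 180277) (nat_lit 32) (.e (nat_lit 1425) (nat_lit 108) .nil))))) (.g (nat_lit 0) (.e (nat_lit 337454) (nat_lit 0) .nil) .nil))) 
(.lf (nat_lit 568114) (.g (nat_lit 2546) (.e (nat_lit 450586) (nat_lit 10) (.e (nat_lit 573457) (nat_lit 9) (.e (nat_lit 430) (nat_lit 32) (.e (nat_lit 426009) (nat_lit 0) (.e (nat_lit 7581) (nat_lit 405) (.e (nat_lit 57464) (nat_lit 23) (.e (nat_lit 516165) (nat_lit 12) .nil))))))) (.g (nat_lit 1) (.e (nat_lit 342165) (nat_lit 0) .nil) .nil))))) (.nd (nat_lit 8) (.nd (nat_lit 9) 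
(.lf (nat_lit 567474) (.g (nat_lit 1237) (.e (nat_lit 442425) (nat_lit 23) (.e (nat_lit 204846) (nat_lit 24) (.e (nat_lit 319528) (nat_lit 16) (.e (nat_lit 286734) (nat_lit 3) .nil)))) (.g (nat_lit 0) (.e (nat_lit 336612) (nat_lit 0) .nil) .nil))) 
(.lf (nat_lit 567986) (.g (nat_lit 1769) (.e (nat_lit 450580) (nat_lit 5) (.e (nat_lit 532523) (nat_lit 7) (.e (nat_lit 319504) (nat_lit 10) (.e (nat_lit 5393) (nat_lit 301) .nil)))) (.g (nat_lit 0) (.e (nat_lit 341137) (nat_lit 0) .nil) .nil)))) (.nd (nat_lit 9) 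
(.lf (nat_lit 567730) (.g (nat_lit 1385) (.e (nat_lit 450566) (nat_lit 0) (.e (nat_lit 5546) (nat_lit 306) (.e (nat_lit 2619) (nat_lit 164) (.e (nat_lit 172118) (nat_lit 12) .nil)))) (.g (nat_lit 0) (.e (nat_lit 339365) (nat_lit 0) .nil) .nil))) 
(.lf (nat_lit 568242) (.g (nat_lit 2150) (.e (nat_lit 450587) (nat_lit 10) (.e (nat_lit 573477) (nat_lit 12) (.e (nat_lit 57574) (nat_lit 55) (.e (nat_lit 778362) (nat_lit 9) (.e (nat_lit 236) (nat_lit 21) .nil))))) (.g (nat_lit 0) (.e (nat_lit 342718) (nat_lit 0) .nil) .nil)))))) (.nd (nat_lit 7) (.nd (nat_lit 8) (.nd (nat_lit 9) 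
(.lf (nat_lit 567410) (.g (nat_lit 1923) (.e (nat_lit 442421) (nat_lit 21) (.e (nat_lit 164331) (nat_lit 230) (.e (nat_lit 163885) (nat_lit 5) (.e (nat_lit 221194) (nat_lit 11) (.e (nat_lit 336087) (nat_lit 9) .nil))))) (.g (nat_lit 0) (.e (nat_lit 336240) (nat_lit 0) .nil) .nil))) 
(.lf (nat_lit 567922) (.g (nat_lit 4367) (.e (nat_lit 450579) (nat_lit 5) (.e (nat_lit 532563) (nat_lit 15) (.e (nat_lit 385094) (nat_lit 49) (.e (nat_lit 778317) (nat_lit 3) (.e (nat_lit 57477) (nat_lit 28) (.e (nat_lit 557067) (nat_lit 9) (.e (nat_lit 3022) (nat_lit 187) .nil))))))) (.g (nat_lit 1) (.e (nat_lit 340704) (nat_lit 0) .nil) .nil)))) (.nd (nat_lit 9) 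
(.lf (nat_lit 567666) (.g (nat_lit 1365) (.e (nat_lit 442435) (nat_lit 26) (.e (nat_lit 254008) (nat_lit 14) (.e (nat_lit 1359) (nat_lit 102) (.e (nat_lit 286756) (nat_lit 10) (.e (nat_lit 344123) (nat_lit 24) .nil))))) (.g (nat_lit 0) (.e (nat_lit 337978) (nat_lit 0) .nil) .nil))) 
(.lf (nat_lit 568178) (.g (nat_lit 776) (.e (nat_lit 450586) (nat_lit 10) (.e (nat_lit 573474) (nat_lit 12) (.e (nat_lit 57348) (nat_lit 0) .nil))) (.g (nat_lit 0) (.e (nat_lit 342384) (nat_lit 0) .nil) .nil))))) (.nd (nat_lit 8) (.nd (nat_lit 9) 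
(.lf (nat_lit 567538) (.g (nat_lit 3245) (.e (nat_lit 442427) (nat_lit 23) (.e (nat_lit 204831) (nat_lit 18) (.e (nat_lit 57688) (nat_lit 156) (.e (nat_lit 163907) (nat_lit 12) (.e (nat_lit 426479) (nat_lit 27) .nil))))) (.g (nat_lit 0) (.e (nat_lit 337071) (nat_lit 0) .nil) .nil))) 
(.lf (nat_lit 568050) (.g (nat_lit 1491) (.e (nat_lit 450581) (nat_lit 5) (.e (nat_lit 532523) (nat_lit 7) (.e (nat_lit 319534) (nat_lit 16) (.e (nat_lit 286728) (nat_lit 0) .nil)))) (.g (nat_lit 0) (.e (nat_lit 341646) (nat_lit 0) .nil) .nil)))) (.nd (nat_lit 9) 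
(.lf (nat_lit 567794) (.g (nat_lit 416) (.e (nat_lit 458496) (nat_lit 0) (.e (nat_lit 6830) (nat_lit 367) (.e (nat_lit 57426) (nat_lit 15) .nil))) (.g (nat_lit 0) (.e (nat_lit 339895) (nat_lit 0) .nil) .nil))) 
(.lf (nat_lit 568306) (.g (nat_lit 3040) (.e (nat_lit 450588) (nat_lit 10) (.e (nat_lit 573473) (nat_lit 12) (.e (nat_lit 57508) (nat_lit 39) (.e (nat_lit 647199) (nat_lit 11) (.e (nat_lit 16388) (nat_lit 0) (.e (nat_lit 3548) (nat_lit 219) (.e (nat_lit 712754) (nat_lit 30) .nil))))))) (.g (nat_lit 1) (.e (nat_lit 343046) (nat_lit 0) .nil) .nil))))))))) 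
(.nd (nat_lit 4) (.nd (nat_lit 5) (.nd (nat_lit 6) (.nd (nat_lit 7) (.nd (nat_lit 8) 
(.nd (nat_lit 9) 
(.lf (nat_lit 567306) (.g (nat_lit 3372) (.e (nat_lit 442411) (nat_lit 20) (.e (nat_lit 3307) (nat_lit 202) (.e (nat_lit 573474) (nat_lit 12) (.e (nat_lit 57572) (nat_lit 54) (.e (nat_lit 770071) (nat_lit 8) .nil))))) (.g (nat_lit 0) (.e (nat_lit 335909) (nat_lit 0) .nil) .nil))) 
(.lf (nat_lit 567818) (.g (nat_lit 2254) (.e (nat_lit 450579) (nat_lit 5) (.e (nat_lit 532499) (nat_lit 1) (.e (nat_lit 57687) (nat_lit 156) (.e (nat_lit 163903) (nat_lit 12) (.e (nat_lit 426479) (nat_lit 27) (.e (nat_lit 336432) (nat_lit 30) .nil)))))) (.g (nat_lit 1) (.e (nat_lit 340157) (nat_lit 0) .nil) .nil)))) (.nd (nat_lit 9) 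
(.lf (nat_lit 567562) (.g (nat_lit 2529) (.e (nat_lit 442427) (nat_lit 23) (.e (nat_lit 204846) (nat_lit 24) (.e (nat_lit 319533) (nat_lit 16) (.e (nat_lit 286721) (nat_lit 0) (.e (nat_lit 7936) (nat_lit 119) .nil))))) (.g (nat_lit 0) (.e (nat_lit 337163) (nat_lit 0) .nil) .nil))) 
(.lf (nat_lit 568074) (.g (nat_lit 2878) (.e (nat_lit 458496) (nat_lit 3) (.e (nat_lit 516115) (nat_lit 1) (.e (nat_lit 164325) (nat_lit 230) (.e (nat_lit 163862) (nat_lit 1) .nil)))) (.g (nat_lit 0) (.e (nat_lit 341707) (nat_lit 0) .nil) .nil))))) (.nd (nat_lit 8) (.nd (nat_lit 9) 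
(.lf (nat_lit 567434) (.g (nat_lit 2908) (.e (nat_lit 442421) (nat_lit 21) (.e (nat_lit 164347) (nat_lit 240) (.e (nat_lit 2629) (nat_lit 164) (.e (nat_lit 172120) (nat_lit 12) (.e (nat_lit 475209) (nat_lit 41) (.e (nat_lit 712752) (nat_lit 29) .nil)))))) (.g (nat_lit 1) (.e (nat_lit 336289) (nat_lit 0) .nil) .nil))) 
(.lf (nat_lit 567946) (.g (nat_lit 881) (.e (nat_lit 450580) (nat_lit 5) (.e (nat_lit 532499) (nat_lit 1) (.e (nat_lit 57664) (nat_lit 152) .nil))) (.g (nat_lit 0) (.e (nat_lit 341003) (nat_lit 0) .nil) .nil)))) (.nd (nat_lit 9) 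
(.lf (nat_lit 567690) (.g (nat_lit 3180) (.e (nat_lit 450564) (nat_lit 0) (.e (nat_lit 5546) (nat_lit 306) (.e (nat_lit 2619) (nat_lit 164) (.e (nat_lit 172118) (nat_lit 12) (.e (nat_lit 475210) (nat_lit 41) (.e (nat_lit 712753) (nat_lit 30) .nil)))))) (.g (nat_lit 1) (.e (nat_lit 338931) (nat_lit 0) .nil) .nil))) 
(.lf (nat_lit 568202) (.g (nat_lit 628) (.e (nat_lit 450586) (nat_lit 10) (.e (nat_lit 573475) (nat_lit 12) (.e (nat_lit 57508) (nat_lit 39) .nil))) (.g (nat_lit 0) (.e (nat_lit 342472) (nat_lit 0) .nil) .nil)))))) (.nd (nat_lit 7) (.nd (nat_lit 8) (.nd (nat_lit 9) 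
(.lf (nat_lit 567370) (.g (nat_lit 3911) (.e (nat_lit 442419) (nat_lit 21) (.e (nat_lit 164348) (nat_lit 240) (.e (nat_lit 2619) (nat_lit 164) (.e (nat_lit 172124) (nat_lit 14) (.e (nat_lit 491550) (nat_lit 9) (.e (nat_lit 336430) (nat_lit 29) .nil)))))) (.g (nat_lit 1) (.e (nat_lit 336112) (nat_lit 0) .nil) .nil))) 
(.lf (nat_lit 567882) (.g (nat_lit 3032) (.e (nat_lit 450579) (nat_lit 5) (.e (nat_lit 532522) (nat_lit 7) (.e (nat_lit 319530) (nat_lit 16) (.e (nat_lit 286733) (nat_lit 2) (.e (nat_lit 90128) (nat_lit 9) (.e (nat_lit 7936) (nat_lit 187) .nil)))))) (.g (nat_lit 1) (.e (nat_lit 340408) (nat_lit 0) .nil) .nil)))) (.nd (nat_lit 9) 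
(.lf (nat_lit 567626) (.g (nat_lit 1081) (.e (nat_lit 442429) (nat_lit 24) (.e (nat_lit 229678) (nat_lit 244) (.e (nat_lit 163896) (nat_lit 10) (.e (nat_lit 409602) (nat_lit 0) .nil)))) (.g (nat_lit 0) (.e (nat_lit 337567) (nat_lit 0) .nil) .nil))) 
(.lf (nat_lit 568138) (.g (nat_lit 2464) (.e (nat_lit 450586) (nat_lit 10) (.e (nat_lit 573471) (nat_lit 11) (.e (nat_lit 16392) (nat_lit 0) (.e (nat_lit 7559) (nat_lit 402) .nil)))) (.g (nat_lit 0) (.e (nat_lit 342205) (nat_lit 0) .nil) .nil))))) (.nd (nat_lit 8) (.nd (nat_lit 9) 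
(.lf (nat_lit 567498) (.g (nat_lit 1957) (.e (nat_lit 442426) (nat_lit 23) (.e (nat_lit 204846) (nat_lit 24) (.e (nat_lit 319504) (nat_lit 10) (.e (nat_lit 5391) (nat_lit 301) .nil)))) (.g (nat_lit 0) (.e (nat_lit 336863) (nat_lit 0) .nil) .nil))) 
(.lf (nat_lit 568010) (.g (nat_lit 404) (.e (nat_lit 450580) (nat_lit 5) (.e (nat_lit 532523) (nat_lit 7) (.e (nat_lit 327424) (nat_lit 16) .nil))) (.g (nat_lit 0) (.e (nat_lit 341252) (nat_lit 0) .nil) .nil)))) (.nd (nat_lit 9) 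
(.lf (nat_lit 567754) (.g (nat_lit 2043) (.e (nat_lit 458496) (nat_lit 0) (.e (nat_lit 5546) (nat_lit 306) (.e (nat_lit 2619) (nat_lit 164) (.e (nat_lit 172119) (nat_lit 12) (.e (nat_lit 475210) (nat_lit 41) .nil))))) (.g (nat_lit 0) (.e (nat_lit 339631) (nat_lit 0) .nil) .nil))) 
(.lf (nat_lit 568266) (.g (nat_lit 1654) (.e (nat_lit 450588) (nat_lit 10) (.e (nat_lit 573469) (nat_lit 11) (.e (nat_lit 16392) (nat_lit 0) (.e (nat_lit 7535) (nat_lit 402) .nil)))) (.g (nat_lit 0) (.e (nat_lit 342884) (nat_lit 0) .nil) .nil))))))) (.nd (nat_lit 6) (.nd (nat_lit 7) (.nd (nat_lit 8) (.nd (nat_lit 9) 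
(.lf (nat_lit 567338) (.g (nat_lit 2305) (.e (nat_lit 442412) (nat_lit 20) (.e (nat_lit 3391) (nat_lit 210) (.e (nat_lit 639021) (nat_lit 16) (.e (nat_lit 65610) (nat_lit 10) (.e (nat_lit 344160) (nat_lit 37) (.e (nat_lit 647190) (nat_lit 9) (.e (nat_lit 7936) (nat_lit 34) .nil))))))) (.g (nat_lit 1) (.e (nat_lit 335983) (nat_lit 0) .nil) .nil))) 
(.lf (nat_lit 567850) (.g (nat_lit 2873) (.e (nat_lit 450579) (nat_lit 5) (.e (nat_lit 532503) (nat_lit 1) (.e (nat_lit 57687) (nat_lit 156) (.e (nat_lit 163903) (nat_lit 12) (.e (nat_lit 426479) (nat_lit 27) (.e (nat_lit 336432) (nat_lit 30) .nil)))))) (.g (nat_lit 1) (.e (nat_lit 340305) (nat_lit 0) .nil) .nil)))) (.nd (nat_lit 9) 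
(.lf (nat_lit 567594) (.g (nat_lit 2439) (.e (nat_lit 450304) (nat_lit 23) (.e (nat_lit 204846) (nat_lit 24) (.e (nat_lit 319534) (nat_lit 16) (.e (nat_lit 286734) (nat_lit 3) (.e (nat_lit 98369) (nat_lit 28) .nil))))) (.g (nat_lit 0) (.e (nat_lit 337433) (nat_lit 0) .nil) .nil))) 
(.lf (nat_lit 568106) (.g (nat_lit 2595) (.e (nat_lit 450586) (nat_lit 10) (.e (nat_lit 573450) (nat_lit 9) (.e (nat_lit 375) (nat_lit 32) (.e (nat_lit 426340) (nat_lit 14) (.e (nat_lit 491540) (nat_lit 3) .nil))))) (.g (nat_lit 0) (.e (nat_lit 342096) (nat_lit 0) .nil) .nil))))) (.nd (nat_lit 8) (.nd (nat_lit 9) 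
(.lf (nat_lit 567466) (.g (nat_lit 1881) (.e (nat_lit 442425) (nat_lit 23) (.e (nat_lit 204845) (nat_lit 24) (.e (nat_lit 319533) (nat_lit 16) (.e (nat_lit 286735) (nat_lit 3) .nil)))) (.g (nat_lit 0) (.e (nat_lit 336602) (nat_lit 0) .nil) .nil))) 
(.lf (nat_lit 567978) (.g (nat_lit 864) (.e (nat_lit 450580) (nat_lit 5) (.e (nat_lit 532523) (nat_lit 7) (.e (nat_lit 319496) (nat_lit 10) .nil))) (.g (nat_lit 0) (.e (nat_lit 341129) (nat_lit 0) .nil) .nil)))) (.nd (nat_lit 9) 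
(.lf (nat_lit 567722) (.g (nat_lit 3315) (.e (nat_lit 450565) (nat_lit 0) (.e (nat_lit 5548) (nat_lit 306) (.e (nat_lit 2619) (nat_lit 164) (.e (nat_lit 172118) (nat_lit 12) (.e (nat_lit 475211) (nat_lit 41) (.e (nat_lit 712753) (nat_lit 30) .nil)))))) (.g (nat_lit 1) (.e (nat_lit 339187) (nat_lit 0) .nil) .nil))) 
(.lf (nat_lit 568234) (.g (nat_lit 2983) (.e (nat_lit 450587) (nat_lit 10) (.e (nat_lit 573471) (nat_lit 11) (.e (nat_lit 16425) (nat_lit 7) (.e (nat_lit 409615) (nat_lit 10) .nil)))) (.g (nat_lit 0) (.e (nat_lit 342653) (nat_lit 0) .nil) .nil)))))) (.nd (nat_lit 7) (.nd (nat_lit 8) (.nd (nat_lit 9) 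
(.lf (nat_lit 567402) (.g (nat_lit 1882) (.e (nat_lit 442421) (nat_lit 21) (.e (nat_lit 164326) (nat_lit 230) (.e (nat_lit 163881) (nat_lit 4) (.e (nat_lit 213030) (nat_lit 11) (.e (nat_lit 24629) (nat_lit 9) (.e (nat_lit 336427) (nat_lit 29) .nil)))))) (.g (nat_lit 1) (.e (nat_lit 336228) (nat_lit 0) .nil) .nil))) 
(.lf (nat_lit 567914) (.g (nat_lit 2119) (.e (nat_lit 450579) (nat_lit 5) (.e (nat_lit 532530) (nat_lit 9) (.e (nat_lit 336257) (nat_lit 15) (.e (nat_lit 3605) (nat_lit 225) (.e (nat_lit 761898) (nat_lit 15) (.e (nat_lit 163959) (nat_lit 24) (.e (nat_lit 524320) (nat_lit 12) .nil))))))) (.g (nat_lit 1) (.e (nat_lit 340479) (nat_lit 0) .nil) .nil)))) (.nd (nat_lit 9) 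
(.lf (nat_lit 567658) (.g (nat_lit 2462) (.e (nat_lit 442430) (nat_lit 24) (.e (nat_lit 229678) (nat_lit 244) (.e (nat_lit 163896) (nat_lit 10) (.e (nat_lit 409602) (nat_lit 0) (.e (nat_lit 5425) (nat_lit 305) (.e (nat_lit 139008) (nat_lit 29) .nil)))))) (.g (nat_lit 1) (.e (nat_lit 337786) (nat_lit 0) .nil) .nil))) 
(.lf (nat_lit 568170) (.g (nat_lit 3100) (.e (nat_lit 450586) (nat_lit 10) (.e (nat_lit 573471) (nat_lit 11) (.e (nat_lit 16473) (nat_lit 14) (.e (nat_lit 491575) (nat_lit 15) .nil)))) (.g (nat_lit 0) (.e (nat_lit 342354) (nat_lit 0) .nil) .nil))))) (.nd (nat_lit 8) (.nd (nat_lit 9) 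
(.lf (nat_lit 567530) (.g (nat_lit 594) (.e (nat_lit 442427) (nat_lit 23) (.e (nat_lit 204830) (nat_lit 18) (.e (nat_lit 57685) (nat_lit 156) .nil))) (.g (nat_lit 0) (.e (nat_lit 337052) (nat_lit 0) .nil) .nil))) 
(.lf (nat_lit 568042) (.g (nat_lit 4670) (.e (nat_lit 450581) (nat_lit 5) (.e (nat_lit 532523) (nat_lit 7) (.e (nat_lit 319531) (nat_lit 16) (.e (nat_lit 286733) (nat_lit 2) (.e (nat_lit 90134) (nat_lit 9) (.e (nat_lit 3025) (nat_lit 187) .nil)))))) (.g (nat_lit 1) (.e (nat_lit 341634) (nat_lit 0) .nil) .nil)))) (.nd (nat_lit 9) 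
(.lf (nat_lit 567786) (.g (nat_lit 1328) (.e (nat_lit 458496) (nat_lit 0) (.e (nat_lit 5586) (nat_lit 310) (.e (nat_lit 163905) (nat_lit 12) (.e (nat_lit 426320) (nat_lit 12) (.e (nat_lit 475209) (nat_lit 41) .nil))))) (.g (nat_lit 0) (.e (nat_lit 339753) (nat_lit 0) .nil) .nil))) 
(.lf (nat_lit 568298) (.g (nat_lit 3182) (.e (nat_lit 450588) (nat_lit 10) (.e (nat_lit 573473) (nat_lit 12) (.e (nat_lit 57508) (nat_lit 39) (.e (nat_lit 647195) (nat_lit 9) (.e (nat_lit 420) (nat_lit 32) (.e (nat_lit 426483) (nat_lit 27) (.e (nat_lit 336432) (nat_lit 30) .nil))))))) (.g (nat_lit 1) (.e (nat_lit 343036) (nat_lit 0) .nil) .nil)))))))) 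
(.nd (nat_lit 5) (.nd (nat_lit 6) (.nd (nat_lit 7) (.nd (nat_lit 8) (.nd (nat_lit 9) 
(.lf (nat_lit 567322) (.g (nat_lit 2920) (.e (nat_lit 442412) (nat_lit 20) (.e (nat_lit 3271) (nat_lit 199) (.e (nat_lit 548913) (nat_lit 18) (.e (nat_lit 172126) (nat_lit 14) (.e (nat_lit 491524) (nat_lit 0) (.e (nat_lit 1812) (nat_lit 120) (.e (nat_lit 524319) (nat_lit 11) .nil))))))) (.g (nat_lit 1) (.e (nat_lit 335943) (nat_lit 0) .nil) .nil))) 
(.lf (nat_lit 567834) (.g (nat_lit 466) (.e (nat_lit 450579) (nat_lit 5) (.e (nat_lit 532501) (nat_lit 1) (.e (nat_lit 57663) (nat_lit 152) .nil))) (.g (nat_lit 0) (.e (nat_lit 340221) (nat_lit 0) .nil) .nil)))) (.nd (nat_lit 9) 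
(.lf (nat_lit 567578) (.g (nat_lit 2421) (.e (nat_lit 450304) (nat_lit 23) (.e (nat_lit 204845) (nat_lit 24) (.e (nat_lit 319531) (nat_lit 16) (.e (nat_lit 286735) (nat_lit 3) (.e (nat_lit 98369) (nat_lit 28) .nil))))) (.g (nat_lit 0) (.e (nat_lit 337416) (nat_lit 0) .nil) .nil))) 
(.lf (nat_lit 568090) (.g (nat_lit 780) (.e (nat_lit 458496) (nat_lit 7) (.e (nat_lit 548911) (nat_lit 18) (.e (nat_lit 172126) (nat_lit 14) (.e (nat_lit 491540) (nat_lit 3) .nil)))) (.g (nat_lit 0) (.e (nat_lit 342024) (nat_lit 0) .nil) .nil))))) (.nd (nat_lit 8) (.nd (nat_lit 9) 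
(.lf (nat_lit 567450) (.g (nat_lit 952) (.e (nat_lit 442424) (nat_lit 22) (.e (nat_lit 196666) (nat_lit 13) (.e (nat_lit 65572) (nat_lit 4) .nil))) (.g (nat_lit 0) (.e (nat_lit 336451) (nat_lit 0) .nil) .nil))) 
(.lf (nat_lit 567962) (.g (nat_lit 2655) (.e (nat_lit 450580) (nat_lit 5) (.e (nat_lit 532503) (nat_lit 1) (.e (nat_lit 57688) (nat_lit 156) (.e (nat_lit 163905) (nat_lit 12) (.e (nat_lit 426479) (nat_lit 27) (.e (nat_lit 336432) (nat_lit 30) .nil)))))) (.g (nat_lit 1) (.e (nat_lit 341095) (nat_lit 0) .nil) .nil)))) (.nd (nat_lit 9) 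
(.lf (nat_lit 567706) (.g (nat_lit 2089) (.e (nat_lit 450564) (nat_lit 0) (.e (nat_lit 5548) (nat_lit 306) (.e (nat_lit 2619) (nat_lit 164) (.e (nat_lit 172126) (nat_lit 14) (.e (nat_lit 491547) (nat_lit 9) (.e (nat_lit 336434) (nat_lit 30) .nil)))))) (.g (nat_lit 1) (.e (nat_lit 338993) (nat_lit 0) .nil) .nil))) 
(.lf (nat_lit 568218) (.g (nat_lit 2278) (.e (nat_lit 450586) (nat_lit 10) (.e (nat_lit 573477) (nat_lit 12) (.e (nat_lit 57575) (nat_lit 55) (.e (nat_lit 778465) (nat_lit 11) (.e (nat_lit 24576) (nat_lit 0) .nil))))) (.g (nat_lit 0) (.e (nat_lit 342537) (nat_lit 0) .nil) .nil)))))) (.nd (nat_lit 7) (.nd (nat_lit 8) (.nd (nat_lit 9) 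
(.lf (nat_lit 567386) (.g (nat_lit 1144) (.e (nat_lit 442419) (nat_lit 21) (.e (nat_lit 164348) (nat_lit 240) (.e (nat_lit 2648) (nat_lit 166) (.e (nat_lit 188420) (nat_lit 0) .nil)))) (.g (nat_lit 0) (.e (nat_lit 336141) (nat_lit 0) .nil) .nil))) 
(.lf (nat_lit 567898) (.g (nat_lit 1197) (.e (nat_lit 450579) (nat_lit 5) (.e (nat_lit 532523) (nat_lit 7) (.e (nat_lit 319533) (nat_lit 16) (.e (nat_lit 286732) (nat_lit 2) .nil)))) (.g (nat_lit 0) (.e (nat_lit 340433) (nat_lit 0) .nil) .nil)))) (.nd (nat_lit 9) 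
(.lf (nat_lit 567642) (.g (nat_lit 262) (.e (nat_lit 442430) (nat_lit 24) (.e (nat_lit 229664) (nat_lit 240) (.e (nat_lit 2641) (nat_lit 165) .nil))) (.g (nat_lit 0) (.e (nat_lit 337669) (nat_lit 0) .nil) .nil))) 
(.lf (nat_lit 568154) (.g (nat_lit 4077) (.e (nat_lit 450586) (nat_lit 10) (.e (nat_lit 573471) (nat_lit 11) (.e (nat_lit 16470) (nat_lit 14) (.e (nat_lit 491520) (nat_lit 0) .nil)))) (.g (nat_lit 0) (.e (nat_lit 342325) (nat_lit 0) .nil) .nil))))) (.nd (nat_lit 8) (.nd (nat_lit 9) 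
(.lf (nat_lit 567514) (.g (nat_lit 1266) (.e (nat_lit 442426) (nat_lit 23) (.e (nat_lit 204846) (nat_lit 24) (.e (nat_lit 319534) (nat_lit 16) (.e (nat_lit 286728) (nat_lit 0) .nil)))) (.g (nat_lit 0) (.e (nat_lit 336900) (nat_lit 0) .nil) .nil))) 
(.lf (nat_lit 568026) (.g (nat_lit 1430) (.e (nat_lit 450580) (nat_lit 5) (.e (nat_lit 532583) (nat_lit 26) (.e (nat_lit 426107) (nat_lit 1) (.e (nat_lit 164401) (nat_lit 256) .nil)))) (.g (nat_lit 0) (.e (nat_lit 341582) (nat_lit 0) .nil) .nil)))) (.nd (nat_lit 9) 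
(.lf (nat_lit 567770) (.g (nat_lit 479) (.e (nat_lit 458496) (nat_lit 0) (.e (nat_lit 5546) (nat_lit 306) (.e (nat_lit 2648) (nat_lit 166) .nil))) (.g (nat_lit 0) (.e (nat_lit 339658) (nat_lit 0) .nil) .nil))) 
(.lf (nat_lit 568282) (.g (nat_lit 4010) (.e (nat_lit 450588) (nat_lit 10) (.e (nat_lit 573471) (nat_lit 11) (.e (nat_lit 16470) (nat_lit 14) (.e (nat_lit 491520) (nat_lit 0) .nil)))) (.g (nat_lit 0) (.e (nat_lit 342994) (nat_lit 0) .nil) .nil))))))) (.nd (nat_lit 6) (.nd (nat_lit 7) (.nd (nat_lit 8) (.nd (nat_lit 9) 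
(.lf (nat_lit 567354) (.g (nat_lit 1288) (.e (nat_lit 442419) (nat_lit 21) (.e (nat_lit 164325) (nat_lit 230) (.e (nat_lit 163884) (nat_lit 5) (.e (nat_lit 229120) (nat_lit 16) .nil)))) (.g (nat_lit 0) (.e (nat_lit 336076) (nat_lit 0) .nil) .nil))) 
(.lf (nat_lit 567866) (.g (nat_lit 381) (.e (nat_lit 450579) (nat_lit 5) (.e (nat_lit 532504) (nat_lit 1) (.e (nat_lit 57662) (nat_lit 152) .nil))) (.g (nat_lit 0) (.e (nat_lit 340345) (nat_lit 0) .nil) .nil)))) (.nd (nat_lit 9) 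
(.lf (nat_lit 567610) (.g (nat_lit 1423) (.e (nat_lit 442428) (nat_lit 24) (.e (nat_lit 229665) (nat_lit 240) (.e (nat_lit 2641) (nat_lit 165) (.e (nat_lit 180277) (nat_lit 32) (.e (nat_lit 1426) (nat_lit 108) .nil))))) (.g (nat_lit 0) (.e (nat_lit 337482) (nat_lit 0) .nil) .nil))) 
(.lf (nat_lit 568122) (.g (nat_lit 407) (.e (nat_lit 450586) (nat_lit 10) (.e (nat_lit 573469) (nat_lit 11) (.e (nat_lit 16473) (nat_lit 14) .nil))) (.g (nat_lit 0) (.e (nat_lit 342186) (nat_lit 0) .nil) .nil))))) (.nd (nat_lit 8) (.nd (nat_lit 9) 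
(.lf (nat_lit 567482) (.g (nat_lit 2901) (.e (nat_lit 442425) (nat_lit 23) (.e (nat_lit 204880) (nat_lit 32) (.e (nat_lit 385094) (nat_lit 49) (.e (nat_lit 778317) (nat_lit 3) .nil)))) (.g (nat_lit 0) (.e (nat_lit 336743) (nat_lit 0) .nil) .nil))) 
(.lf (nat_lit 567994) (.g (nat_lit 2755) (.e (nat_lit 450580) (nat_lit 5) (.e (nat_lit 532523) (nat_lit 7) (.e (nat_lit 319528) (nat_lit 16) (.e (nat_lit 286733) (nat_lit 2) (.e (nat_lit 90134) (nat_lit 9) (.e (nat_lit 3019) (nat_lit 187) .nil)))))) (.g (nat_lit 1) (.e (nat_lit 341147) (nat_lit 0) .nil) .nil)))) (.nd (nat_lit 9) 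
(.lf (nat_lit 567738) (.g (nat_lit 1631) (.e (nat_lit 450568) (nat_lit 0) (.e (nat_lit 5599) (nat_lit 310) (.e (nat_lit 163920) (nat_lit 14) (.e (nat_lit 442377) (nat_lit 0) .nil)))) (.g (nat_lit 0) (.e (nat_lit 339479) (nat_lit 0) .nil) .nil))) 
(.lf (nat_lit 568250) (.g (nat_lit 2888) (.e (nat_lit 450587) (nat_lit 10) (.e (nat_lit 573477) (nat_lit 12) (.e (nat_lit 57574) (nat_lit 55) (.e (nat_lit 778466) (nat_lit 11) (.e (nat_lit 24590) (nat_lit 0) .nil))))) (.g (nat_lit 0) (.e (nat_lit 342748) (nat_lit 0) .nil) .nil)))))) (.nd (nat_lit 7) (.nd (nat_lit 8) (.nd (nat_lit 9) 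
(.lf (nat_lit 567418) (.g (nat_lit 2326) (.e (nat_lit 442421) (nat_lit 21) (.e (nat_lit 164319) (nat_lit 228) (.e (nat_lit 57412) (nat_lit 12) (.e (nat_lit 336176) (nat_lit 10) (.e (nat_lit 344164) (nat_lit 37) (.e (nat_lit 647195) (nat_lit 9) (.e (nat_lit 7936) (nat_lit 34) .nil))))))) (.g (nat_lit 1) (.e (nat_lit 336252) (nat_lit 0) .nil) .nil))) 
(.lf (nat_lit 567930) (.g (nat_lit 1821) (.e (nat_lit 450579) (nat_lit 5) (.e (nat_lit 532575) (nat_lit 17) (.e (nat_lit 7096) (nat_lit 380) (.e (nat_lit 164356) (nat_lit 246) (.e (nat_lit 226) (nat_lit 21) .nil))))) (.g (nat_lit 0) (.e (nat_lit 340933) (nat_lit 0) .nil) .nil)))) (.nd (nat_lit 9) 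
(.lf (nat_lit 567674) (.g (nat_lit 1515) (.e (nat_lit 450561) (nat_lit 0) (.e (nat_lit 6740) (nat_lit 365) (.e (nat_lit 1201) (nat_lit 88) (.e (nat_lit 65610) (nat_lit 10) (.e (nat_lit 344138) (nat_lit 29) .nil))))) (.g (nat_lit 0) (.e (nat_lit 338543) (nat_lit 0) .nil) .nil))) 
(.lf (nat_lit 568186) (.g (nat_lit 1404) (.e (nat_lit 450586) (nat_lit 10) (.e (nat_lit 573474) (nat_lit 12) (.e (nat_lit 57572) (nat_lit 54) (.e (nat_lit 770061) (nat_lit 5) .nil)))) (.g (nat_lit 0) (.e (nat_lit 342425) (nat_lit 0) .nil) .nil))))) (.nd (nat_lit 8) (.nd (nat_lit 9) 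
(.lf (nat_lit 567546) (.g (nat_lit 1983) (.e (nat_lit 442427) (nat_lit 23) (.e (nat_lit 204845) (nat_lit 24) (.e (nat_lit 319530) (nat_lit 16) (.e (nat_lit 286728) (nat_lit 0) .nil)))) (.g (nat_lit 0) (.e (nat_lit 337096) (nat_lit 0) .nil) .nil))) 
(.lf (nat_lit 568058) (.g (nat_lit 1379) (.e (nat_lit 458496) (nat_lit 5) (.e (nat_lit 532523) (nat_lit 7) (.e (nat_lit 319504) (nat_lit 10) (.e (nat_lit 5395) (nat_lit 301) .nil)))) (.g (nat_lit 0) (.e (nat_lit 341676) (nat_lit 0) .nil) .nil)))) (.nd (nat_lit 9) 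
(.lf (nat_lit 567802) (.g (nat_lit 1913) (.e (nat_lit 450578) (nat_lit 5) (.e (nat_lit 532523) (nat_lit 7) (.e (nat_lit 319530) (nat_lit 16) (.e (nat_lit 286735) (nat_lit 3) .nil)))) (.g (nat_lit 0) (.e (nat_lit 340053) (nat_lit 0) .nil) .nil))) 
(.lf (nat_lit 568314) (.g (nat_lit 1193) (.e (nat_lit 450588) (nat_lit 10) (.e (nat_lit 573474) (nat_lit 12) (.e (nat_lit 57509) (nat_lit 39) (.e (nat_lit 647199) (nat_lit 11) .nil)))) (.g (nat_lit 0) (.e (nat_lit 343123) (nat_lit 0) .nil) .nil)))))))))) (.nd (nat_lit 3) (.nd (nat_lit 4) (.nd (nat_lit 5) (.nd (nat_lit 6) (.nd (nat_lit 7) (.nd (nat_lit 8) (.nd (nat_lit 9) 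
(.lf (nat_lit 567302) (.g (nat_lit 2740) (.e (nat_lit 442411) (nat_lit 20) (.e (nat_lit 3297) (nat_lit 202) (.e (nat_lit 573450) (nat_lit 9) (.e (nat_lit 375) (nat_lit 32) (.e (nat_lit 426173) (nat_lit 7) (.e (nat_lit 409617) (nat_lit 10) (.e (nat_lit 7936) (nat_lit 43) (.e (nat_lit 516163) (nat_lit 11) .nil)))))))) (.g (nat_lit 1) (.e (nat_lit 335905) (nat_lit 0) .nil) .nil))) 
(.lf (nat_lit 567814) (.g (nat_lit 933) (.e (nat_lit 450579) (nat_lit 5) (.e (nat_lit 532499) (nat_lit 1) (.e (nat_lit 57659) (nat_lit 152) .nil))) (.g (nat_lit 0) (.e (nat_lit 340145) (nat_lit 0) .nil) .nil)))) (.nd (nat_lit 9) 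
(.lf (nat_lit 567558) (.g (nat_lit 2416) (.e (nat_lit 442427) (nat_lit 23) (.e (nat_lit 204846) (nat_lit 24) (.e (nat_lit 319530) (nat_lit 16) (.e (nat_lit 286727) (nat_lit 0) (.e (nat_lit 1781) (nat_lit 119) .nil))))) (.g (nat_lit 0) (.e (nat_lit 337137) (nat_lit 0) .nil) .nil))) 
(.lf (nat_lit 568070) (.g (nat_lit 743) (.e (nat_lit 458496) (nat_lit 3) (.e (nat_lit 516115) (nat_lit 1) (.e (nat_lit 164190) (nat_lit 157) .nil))) (.g (nat_lit 0) (.e (nat_lit 341703) (nat_lit 0) .nil) .nil))))) (.nd (nat_lit 8) (.nd (nat_lit 9) 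
(.lf (nat_lit 567430) (.g (nat_lit 1937) (.e (nat_lit 442421) (nat_lit 21) (.e (nat_lit 164347) (nat_lit 240) (.e (nat_lit 2619) (nat_lit 164) (.e (nat_lit 172118) (nat_lit 12) (.e (nat_lit 475209) (nat_lit 41) (.e (nat_lit 712752) (nat_lit 29) .nil)))))) (.g (nat_lit 1) (.e (nat_lit 336275) (nat_lit 0) .nil) .nil))) 
(.lf (nat_lit 567942) (.g (nat_lit 1428) (.e (nat_lit 450579) (nat_lit 5) (.e (nat_lit 532583) (nat_lit 26) (.e (nat_lit 426100) (nat_lit 1) (.e (nat_lit 164399) (nat_lit 256) .nil)))) (.g (nat_lit 0) (.e (nat_lit 340951) (nat_lit 0) .nil) .nil)))) (.nd (nat_lit 9) 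
(.lf (nat_lit 567686) (.g (nat_lit 1756) (.e (nat_lit 450563) (nat_lit 0) (.e (nat_lit 6830) (nat_lit 367) (.e (nat_lit 57427) (nat_lit 15) (.e (nat_lit 360448) (nat_lit 0) (.e (nat_lit 7936) (nat_lit 256) .nil))))) (.g (nat_lit 0) (.e (nat_lit 338922) (nat_lit 0) .nil) .nil))) 
(.lf (nat_lit 568198) (.g (nat_lit 1651) (.e (nat_lit 450586) (nat_lit 10) (.e (nat_lit 573475) (nat_lit 12) (.e (nat_lit 57503) (nat_lit 38) (.e (nat_lit 638989) (nat_lit 5) .nil)))) (.g (nat_lit 0) (.e (nat_lit 342461) (nat_lit 0) .nil) .nil)))))) (.nd (nat_lit 7) (.nd (nat_lit 8) (.nd (nat_lit 9) 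
(.lf (nat_lit 567366) (.g (nat_lit 1108) (.e (nat_lit 442419) (nat_lit 21) (.e (nat_lit 164347) (nat_lit 240) (.e (nat_lit 2638) (nat_lit 165) (.e (nat_lit 180275) (nat_lit 32) .nil)))) (.g (nat_lit 0) (.e (nat_lit 336102) (nat_lit 0) .nil) .nil))) 
(.lf (nat_lit 567878) (.g (nat_lit 2684) (.e (nat_lit 450579) (nat_lit 5) (.e (nat_lit 532504) (nat_lit 1) (.e (nat_lit 57691) (nat_lit 156) (.e (nat_lit 163907) (nat_lit 12) (.e (nat_lit 426479) (nat_lit 27) (.e (nat_lit 336432) (nat_lit 30) .nil)))))) (.g (nat_lit 1) (.e (nat_lit 340388) (nat_lit 0) .nil) .nil)))) (.nd (nat_lit 9) 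
(.lf (nat_lit 567622) (.g (nat_lit 1764) (.e (nat_lit 442429) (nat_lit 24) (.e (nat_lit 229663) (nat_lit 240) (.e (nat_lit 2630) (nat_lit 164) (.e (nat_lit 172126) (nat_lit 14) .nil)))) (.g (nat_lit 0) (.e (nat_lit 337545) (nat_lit 0) .nil) .nil))) 
(.lf (nat_lit 568134) (.g (nat_lit 3637) (.e (nat_lit 450586) (nat_lit 10) (.e (nat_lit 573471) (nat_lit 11) (.e (nat_lit 16388) (nat_lit 0) (.e (nat_lit 7581) (nat_lit 405) (.e (nat_lit 57464) (nat_lit 23) (.e (nat_lit 516165) (nat_lit 12) .nil)))))) (.g (nat_lit 1) (.e (nat_lit 342201) (nat_lit 0) .nil) .nil))))) (.nd (nat_lit 8) (.nd (nat_lit 9) 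
(.lf (nat_lit 567494) (.g (nat_lit 1886) (.e (nat_lit 442426) (nat_lit 23) (.e (nat_lit 204845) (nat_lit 24) (.e (nat_lit 319533) (nat_lit 16) (.e (nat_lit 286735) (nat_lit 3) .nil)))) (.g (nat_lit 0) (.e (nat_lit 336859) (nat_lit 0) .nil) .nil))) 
(.lf (nat_lit 568006) (.g (nat_lit 3187) (.e (nat_lit 450580) (nat_lit 5) (.e (nat_lit 532523) (nat_lit 7) (.e (nat_lit 319534) (nat_lit 16) (.e (nat_lit 286732) (nat_lit 2) (.e (nat_lit 90134) (nat_lit 9) (.e (nat_lit 3009) (nat_lit 187) .nil)))))) (.g (nat_lit 1) (.e (nat_lit 341231) (nat_lit 0) .nil) .nil)))) (.nd (nat_lit 9) 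
(.lf (nat_lit 567750) (.g (nat_lit 808) (.e (nat_lit 458496) (nat_lit 0) (.e (nat_lit 5200) (nat_lit 294) (.e (nat_lit 57426) (nat_lit 15) (.e (nat_lit 360480) (nat_lit 14) (.e (nat_lit 638986) (nat_lit 5) .nil))))) (.g (nat_lit 0) (.e (nat_lit 339605) (nat_lit 0) .nil) .nil))) 
(.lf (nat_lit 568262) (.g (nat_lit 2714) (.e (nat_lit 450587) (nat_lit 10) (.e (nat_lit 573478) (nat_lit 12) (.e (nat_lit 57574) (nat_lit 55) (.e (nat_lit 778466) (nat_lit 11) (.e (nat_lit 24590) (nat_lit 0) .nil))))) (.g (nat_lit 0) (.e (nat_lit 342812) (nat_lit 0) .nil) .nil))))))) (.nd (nat_lit 6) (.nd (nat_lit 7) (.nd (nat_lit 8) (.nd (nat_lit 9) 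
(.lf (nat_lit 567334) (.g (nat_lit 2249) (.e (nat_lit 442412) (nat_lit 20) (.e (nat_lit 3390) (nat_lit 210) (.e (nat_lit 639021) (nat_lit 16) (.e (nat_lit 65617) (nat_lit 10) (.e (nat_lit 344161) (nat_lit 37) (.e (nat_lit 647190) (nat_lit 9) (.e (nat_lit 7936) (nat_lit 34) .nil))))))) (.g (nat_lit 1) (.e (nat_lit 335979) (nat_lit 0) .nil) .nil))) 
(.lf (nat_lit 567846) (.g (nat_lit 2231) (.e (nat_lit 450579) (nat_lit 5) (.e (nat_lit 532503) (nat_lit 1) (.e (nat_lit 57685) (nat_lit 156) (.e (nat_lit 163905) (nat_lit 12) (.e (nat_lit 426479) (nat_lit 27) (.e (nat_lit 336432) (nat_lit 30) .nil)))))) (.g (nat_lit 1) (.e (nat_lit 340295) (nat_lit 0) .nil) .nil)))) (.nd (nat_lit 9) 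
(.lf (nat_lit 567590) (.g (nat_lit 1544) (.e (nat_lit 450304) (nat_lit 23) (.e (nat_lit 204846) (nat_lit 24) (.e (nat_lit 319532) (nat_lit 16) (.e (nat_lit 286735) (nat_lit 3) .nil)))) (.g (nat_lit 0) (.e (nat_lit 337429) (nat_lit 0) .nil) .nil))) 
(.lf (nat_lit 568102) (.g (nat_lit 4420) (.e (nat_lit 450585) (nat_lit 10) (.e (nat_lit 573471) (nat_lit 11) (.e (nat_lit 16470) (nat_lit 14) (.e (nat_lit 491539) (nat_lit 3) (.e (nat_lit 98373) (nat_lit 29) .nil))))) (.g (nat_lit 0) (.e (nat_lit 342056) (nat_lit 0) .nil) .nil))))) (.nd (nat_lit 8) (.nd (nat_lit 9) 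
(.lf (nat_lit 567462) (.g (nat_lit 589) (.e (nat_lit 442425) (nat_lit 23) (.e (nat_lit 204845) (nat_lit 24) (.e (nat_lit 319500) (nat_lit 10) .nil))) (.g (nat_lit 0) (.e (nat_lit 336582) (nat_lit 0) .nil) .nil))) 
(.lf (nat_lit 567974) (.g (nat_lit 2717) (.e (nat_lit 450580) (nat_lit 5) (.e (nat_lit 532522) (nat_lit 7) (.e (nat_lit 319531) (nat_lit 16) (.e (nat_lit 286733) (nat_lit 2) (.e (nat_lit 90128) (nat_lit 9) .nil))))) (.g (nat_lit 0) (.e (nat_lit 341123) (nat_lit 0) .nil) .nil)))) (.nd (nat_lit 9) 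
(.lf (nat_lit 567718) (.g (nat_lit 1317) (.e (nat_lit 450565) (nat_lit 0) (.e (nat_lit 5546) (nat_lit 306) (.e (nat_lit 2648) (nat_lit 166) (.e (nat_lit 188418) (nat_lit 0) .nil)))) (.g (nat_lit 0) (.e (nat_lit 339164) (nat_lit 0) .nil) .nil))) 
(.lf (nat_lit 568230) (.g (nat_lit 556) (.e (nat_lit 450587) (nat_lit 10) (.e (nat_lit 573471) (nat_lit 11) (.e (nat_lit 16388) (nat_lit 0) .nil))) (.g (nat_lit 0) (.e (nat_lit 342649) (nat_lit 0) .nil) .nil)))))) (.nd (nat_lit 7) (.nd (nat_lit 8) (.nd (nat_lit 9) 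
(.lf (nat_lit 567398) (.g (nat_lit 1219) (.e (nat_lit 442421) (nat_lit 21) (.e (nat_lit 164324) (nat_lit 230) (.e (nat_lit 163885) (nat_lit 5) (.e (nat_lit 229120) (nat_lit 16) .nil)))) (.g (nat_lit 0) (.e (nat_lit 336223) (nat_lit 0) .nil) .nil))) 
(.lf (nat_lit 567910) (.g (nat_lit 2348) (.e (nat_lit 450579) (nat_lit 5) (.e (nat_lit 532523) (nat_lit 7) (.e (nat_lit 319534) (nat_lit 16) (.e (nat_lit 286734) (nat_lit 3) (.e (nat_lit 106240) (nat_lit 29) .nil))))) (.g (nat_lit 0) (.e (nat_lit 340450) (nat_lit 0) .nil) .nil)))) (.nd (nat_lit 9) 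
(.lf (nat_lit 567654) (.g (nat_lit 3552) (.e (nat_lit 442430) (nat_lit 24) (.e (nat_lit 229666) (nat_lit 240) (.e (nat_lit 2622) (nat_lit 164) (.e (nat_lit 172124) (nat_lit 14) (.e (nat_lit 491549) (nat_lit 9) (.e (nat_lit 336430) (nat_lit 29) .nil)))))) (.g (nat_lit 1) (.e (nat_lit 337756) (nat_lit 0) .nil) .nil))) 
(.lf (nat_lit 568166) (.g (nat_lit 3132) (.e (nat_lit 450586) (nat_lit 10) (.e (nat_lit 573471) (nat_lit 11) (.e (nat_lit 16473) (nat_lit 14) (.e (nat_lit 491529) (nat_lit 0) .nil)))) (.g (nat_lit 0) (.e (nat_lit 342348) (nat_lit 0) .nil) .nil))))) (.nd (nat_lit 8) (.nd (nat_lit 9) 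
(.lf (nat_lit 567526) (.g (nat_lit 1655) (.e (nat_lit 442427) (nat_lit 23) (.e (nat_lit 204829) (nat_lit 18) (.e (nat_lit 57692) (nat_lit 156) (.e (nat_lit 163906) (nat_lit 12) (.e (nat_lit 426479) (nat_lit 27) .nil))))) (.g (nat_lit 0) (.e (nat_lit 337036) (nat_lit 0) .nil) .nil))) 
(.lf (nat_lit 568038) (.g (nat_lit 2797) (.e (nat_lit 450581) (nat_lit 5) (.e (nat_lit 532523) (nat_lit 7) (.e (nat_lit 319529) (nat_lit 16) (.e (nat_lit 286733) (nat_lit 2) (.e (nat_lit 90134) (nat_lit 9) (.e (nat_lit 3025) (nat_lit 187) .nil)))))) (.g (nat_lit 1) (.e (nat_lit 341627) (nat_lit 0) .nil) .nil)))) (.nd (nat_lit 9) 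
(.lf (nat_lit 567782) (.g (nat_lit 1076) (.e (nat_lit 458496) (nat_lit 0) (.e (nat_lit 5548) (nat_lit 306) (.e (nat_lit 2648) (nat_lit 166) (.e (nat_lit 188420) (nat_lit 0) .nil)))) (.g (nat_lit 0) (.e (nat_lit 339730) (nat_lit 0) .nil) .nil))) 
(.lf (nat_lit 568294) (.g (nat_lit 1294) (.e (nat_lit 450588) (nat_lit 10) (.e (nat_lit 573471) (nat_lit 11) (.e (nat_lit 16473) (nat_lit 14) (.e (nat_lit 491520) (nat_lit 0) .nil)))) (.g (nat_lit 0) (.e (nat_lit 343019) (nat_lit 0) .nil) .nil)))))))) (.nd (nat_lit 5) (.nd (nat_lit 6) (.nd (nat_lit 7) (.nd (nat_lit 8) (.nd (nat_lit 9) 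
(.lf (nat_lit 567318) (.g (nat_lit 799) (.e (nat_lit 442411) (nat_lit 20) (.e (nat_lit 3578) (nat_lit 223) (.e (nat_lit 745475) (nat_lit 0) (.e (nat_lit 1595) (nat_lit 111) (.e (nat_lit 368384) (nat_lit 5) .nil))))) (.g (nat_lit 0) (.e (nat_lit 335934) (nat_lit 0) .nil) .nil))) 
(.lf (nat_lit 567830) (.g (nat_lit 1411) (.e (nat_lit 450579) (nat_lit 5) (.e (nat_lit 532499) (nat_lit 1) (.e (nat_lit 57692) (nat_lit 156) (.e (nat_lit 163906) (nat_lit 12) .nil)))) (.g (nat_lit 0) (.e (nat_lit 340198) (nat_lit 0) .nil) .nil)))) (.nd (nat_lit 9) 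
(.lf (nat_lit 567574) (.g (nat_lit 639) (.e (nat_lit 442427) (nat_lit 23) (.e (nat_lit 204863) (nat_lit 27) (.e (nat_lit 344163) (nat_lit 37) .nil))) (.g (nat_lit 0) (.e (nat_lit 337295) (nat_lit 0) .nil) .nil))) 
(.lf (nat_lit 568086) (.g (nat_lit 2450) (.e (nat_lit 450583) (nat_lit 7) (.e (nat_lit 548913) (nat_lit 18) (.e (nat_lit 172124) (nat_lit 14) (.e (nat_lit 491539) (nat_lit 3) (.e (nat_lit 98373) (nat_lit 29) .nil))))) (.g (nat_lit 0) (.e (nat_lit 341979) (nat_lit 0) .nil) .nil))))) (.nd (nat_lit 8) (.nd (nat_lit 9) 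
(.lf (nat_lit 567446) (.g (nat_lit 1667) (.e (nat_lit 442424) (nat_lit 22) (.e (nat_lit 204544) (nat_lit 3) (.e (nat_lit 164017) (nat_lit 44) (.e (nat_lit 688138) (nat_lit 5) (.e (nat_lit 3085) (nat_lit 191) (.e (nat_lit 491264) (nat_lit 11) .nil)))))) (.g (nat_lit 1) (.e (nat_lit 336395) (nat_lit 0) .nil) .nil))) 
(.lf (nat_lit 567958) (.g (nat_lit 1172) (.e (nat_lit 450580) (nat_lit 5) (.e (nat_lit 532503) (nat_lit 1) (.e (nat_lit 57654) (nat_lit 152) (.e (nat_lit 2636) (nat_lit 165) .nil)))) (.g (nat_lit 0) (.e (nat_lit 341084) (nat_lit 0) .nil) .nil)))) (.nd (nat_lit 9) 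
(.lf (nat_lit 567702) (.g (nat_lit 2324) (.e (nat_lit 450564) (nat_lit 0) (.e (nat_lit 5547) (nat_lit 306) (.e (nat_lit 2628) (nat_lit 164) (.e (nat_lit 172120) (nat_lit 12) (.e (nat_lit 475211) (nat_lit 41) (.e (nat_lit 712753) (nat_lit 30) .nil)))))) (.g (nat_lit 1) (.e (nat_lit 338972) (nat_lit 0) .nil) .nil))) 
(.lf (nat_lit 568214) (.g (nat_lit 1708) (.e (nat_lit 450586) (nat_lit 10) (.e (nat_lit 573477) (nat_lit 12) (.e (nat_lit 57574) (nat_lit 55) (.e (nat_lit 778466) (nat_lit 11) (.e (nat_lit 24589) (nat_lit 0) .nil))))) (.g (nat_lit 0) (.e (nat_lit 342522) (nat_lit 0) .nil) .nil)))))) (.nd (nat_lit 7) (.nd (nat_lit 8) (.nd (nat_lit 9) 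
(.lf (nat_lit 567382) (.g (nat_lit 3868) (.e (nat_lit 442419) (nat_lit 21) (.e (nat_lit 164348) (nat_lit 240) (.e (nat_lit 2638) (nat_lit 165) (.e (nat_lit 180278) (nat_lit 32) (.e (nat_lit 1428) (nat_lit 108) (.e (nat_lit 336430) (nat_lit 29) .nil)))))) (.g (nat_lit 1) (.e (nat_lit 336127) (nat_lit 0) .nil) .nil))) 
(.lf (nat_lit 567894) (.g (nat_lit 2800) (.e (nat_lit 450579) (nat_lit 5) (.e (nat_lit 532523) (nat_lit 7) (.e (nat_lit 319531) (nat_lit 16) (.e (nat_lit 286733) (nat_lit 2) (.e (nat_lit 90134) (nat_lit 9) (.e (nat_lit 3019) (nat_lit 187) .nil)))))) (.g (nat_lit 1) (.e (nat_lit 340427) (nat_lit 0) .nil) .nil)))) (.nd (nat_lit 9) 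
(.lf (nat_lit 567638) (.g (nat_lit 471) (.e (nat_lit 442430) (nat_lit 24) (.e (nat_lit 229663) (nat_lit 240) (.e (nat_lit 2643) (nat_lit 165) .nil))) (.g (nat_lit 0) (.e (nat_lit 337633) (nat_lit 0) .nil) .nil))) 
(.lf (nat_lit 568150) (.g (nat_lit 3021) (.e (nat_lit 450586) (nat_lit 10) (.e (nat_lit 573471) (nat_lit 11) (.e (nat_lit 16425) (nat_lit 7) (.e (nat_lit 409624) (nat_lit 10) .nil)))) (.g (nat_lit 0) (.e (nat_lit 342219) (nat_lit 0) .nil) .nil))))) (.nd (nat_lit 8) (.nd (nat_lit 9) 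
(.lf (nat_lit 567510) (.g (nat_lit 2083) (.e (nat_lit 442426) (nat_lit 23) (.e (nat_lit 204846) (nat_lit 24) (.e (nat_lit 319531) (nat_lit 16) (.e (nat_lit 286727) (nat_lit 0) (.e (nat_lit 1799) (nat_lit 119) .nil))))) (.g (nat_lit 0) (.e (nat_lit 336885) (nat_lit 0) .nil) .nil))) 
(.lf (nat_lit 568022) (.g (nat_lit 2574) (.e (nat_lit 450580) (nat_lit 5) (.e (nat_lit 532579) (nat_lit 26) (.e (nat_lit 426108) (nat_lit 1) (.e (nat_lit 164402) (nat_lit 256) (.e (nat_lit 57405) (nat_lit 12) .nil))))) (.g (nat_lit 0) (.e (nat_lit 341577) (nat_lit 0) .nil) .nil)))) (.nd (nat_lit 9) 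
(.lf (nat_lit 567766) (.g (nat_lit 1286) (.e (nat_lit 458496) (nat_lit 0) (.e (nat_lit 5546) (nat_lit 306) (.e (nat_lit 2640) (nat_lit 165) (.e (nat_lit 180277) (nat_lit 32) (.e (nat_lit 1425) (nat_lit 108) .nil))))) (.g (nat_lit 0) (.e (nat_lit 339653) (nat_lit 0) .nil) .nil))) 
(.lf (nat_lit 568278) (.g (nat_lit 1710) (.e (nat_lit 450588) (nat_lit 10) (.e (nat_lit 573471) (nat_lit 11) (.e (nat_lit 16425) (nat_lit 7) (.e (nat_lit 409608) (nat_lit 10) .nil)))) (.g (nat_lit 0) (.e (nat_lit 342917) (nat_lit 0) .nil) .nil))))))) (.nd (nat_lit 6) (.nd (nat_lit 7) (.nd (nat_lit 8) (.nd (nat_lit 9) 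
(.lf (nat_lit 567350) (.g (nat_lit 1754) (.e (nat_lit 450304) (nat_lit 20) (.e (nat_lit 3249) (nat_lit 197) (.e (nat_lit 532523) (nat_lit 7) (.e (nat_lit 319533) (nat_lit 16) (.e (nat_lit 286735) (nat_lit 3) .nil))))) (.g (nat_lit 0) (.e (nat_lit 336033) (nat_lit 0) .nil) .nil))) 
(.lf (nat_lit 567862) (.g (nat_lit 508) (.e (nat_lit 450579) (nat_lit 5) (.e (nat_lit 532503) (nat_lit 1) (.e (nat_lit 57693) (nat_lit 157) .nil))) (.g (nat_lit 0) (.e (nat_lit 340335) (nat_lit 0) .nil) .nil)))) (.nd (nat_lit 9) 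
(.lf (nat_lit 567606) (.g (nat_lit 1411) (.e (nat_lit 442428) (nat_lit 24) (.e (nat_lit 229664) (nat_lit 240) (.e (nat_lit 2641) (nat_lit 165) (.e (nat_lit 180277) (nat_lit 32) (.e (nat_lit 1425) (nat_lit 108) .nil))))) (.g (nat_lit 0) (.e (nat_lit 337471) (nat_lit 0) .nil) .nil))) 
(.lf (nat_lit 568118) (.g (nat_lit 2560) (.e (nat_lit 450586) (nat_lit 10) (.e (nat_lit 573457) (nat_lit 9) (.e (nat_lit 430) (nat_lit 32) (.e (nat_lit 426012) (nat_lit 0) (.e (nat_lit 7583) (nat_lit 405) (.e (nat_lit 57464) (nat_lit 23) (.e (nat_lit 516165) (nat_lit 12) .nil))))))) (.g (nat_lit 1) (.e (nat_lit 342169) (nat_lit 0) .nil) .nil))))) (.nd (nat_lit 8) (.nd (nat_lit 9) 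
(.lf (nat_lit 567478) (.g (nat_lit 2581) (.e (nat_lit 442425) (nat_lit 23) (.e (nat_lit 204846) (nat_lit 24) (.e (nat_lit 319531) (nat_lit 16) (.e (nat_lit 286735) (nat_lit 3) (.e (nat_lit 98371) (nat_lit 28) .nil))))) (.g (nat_lit 1) (.e (nat_lit 336631) (nat_lit 0) .nil) .nil))) 
(.lf (nat_lit 567990) (.g (nat_lit 1125) (.e (nat_lit 450580) (nat_lit 5) (.e (nat_lit 532523) (nat_lit 7) (.e (nat_lit 319511) (nat_lit 10) (.e (nat_lit 5389) (nat_lit 301) .nil)))) (.g (nat_lit 0) (.e (nat_lit 341141) (nat_lit 0) .nil) .nil)))) (.nd (nat_lit 9) 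
(.lf (nat_lit 567734) (.g (nat_lit 1402) (.e (nat_lit 450567) (nat_lit 0) (.e (nat_lit 5443) (nat_lit 306) (.e (nat_lit 2630) (nat_lit 164) (.e (nat_lit 172124) (nat_lit 14) (.e (nat_lit 491550) (nat_lit 9) .nil))))) (.g (nat_lit 0) (.e (nat_lit 339410) (nat_lit 0) .nil) .nil))) 
(.lf (nat_lit 568246) (.g (nat_lit 2429) (.e (nat_lit 450587) (nat_lit 10) (.e (nat_lit 573477) (nat_lit 12) (.e (nat_lit 57574) (nat_lit 55) (.e (nat_lit 778465) (nat_lit 11) (.e (nat_lit 24589) (nat_lit 0) .nil))))) (.g (nat_lit 0) (.e (nat_lit 342725) (nat_lit 0) .nil) .nil)))))) (.nd (nat_lit 7) (.nd (nat_lit 8) (.nd (nat_lit 9) 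
(.lf (nat_lit 567414) (.g (nat_lit 2427) (.e (nat_lit 442421) (nat_lit 21) (.e (nat_lit 164332) (nat_lit 230) (.e (nat_lit 163885) (nat_lit 5) (.e (nat_lit 221194) (nat_lit 11) (.e (nat_lit 336087) (nat_lit 9) .nil))))) (.g (nat_lit 0) (.e (nat_lit 336246) (nat_lit 0) .nil) .nil))) 
(.lf (nat_lit 567926) (.g (nat_lit 2065) (.e (nat_lit 450579) (nat_lit 5) (.e (nat_lit 532569) (nat_lit 16) (.e (nat_lit 401448) (nat_lit 10) (.e (nat_lit 434238) (nat_lit 25) (.e (nat_lit 548897) (nat_lit 14) .nil))))) (.g (nat_lit 0) (.e (nat_lit 340908) (nat_lit 0) .nil) .nil)))) (.nd (nat_lit 9) 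
(.lf (nat_lit 567670) (.g (nat_lit 1078) (.e (nat_lit 450561) (nat_lit 0) (.e (nat_lit 5537) (nat_lit 306) (.e (nat_lit 2628) (nat_lit 164) (.e (nat_lit 172118) (nat_lit 12) .nil)))) (.g (nat_lit 0) (.e (nat_lit 338130) (nat_lit 0) .nil) .nil))) 
(.lf (nat_lit 568182) (.g (nat_lit 638) (.e (nat_lit 450586) (nat_lit 10) (.e (nat_lit 573474) (nat_lit 12) (.e (nat_lit 57507) (nat_lit 39) .nil))) (.g (nat_lit 0) (.e (nat_lit 342409) (nat_lit 0) .nil) .nil))))) (.nd (nat_lit 8) (.nd (nat_lit 9) 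
(.lf (nat_lit 567542) (.g (nat_lit 1665) (.e (nat_lit 442427) (nat_lit 23) (.e (nat_lit 204831) (nat_lit 18) (.e (nat_lit 57692) (nat_lit 156) (.e (nat_lit 163906) (nat_lit 12) .nil)))) (.g (nat_lit 0) (.e (nat_lit 337080) (nat_lit 0) .nil) .nil))) 
(.lf (nat_lit 568054) (.g (nat_lit 2026) (.e (nat_lit 450581) (nat_lit 5) (.e (nat_lit 532569) (nat_lit 16) (.e (nat_lit 401448) (nat_lit 10) (.e (nat_lit 434238) (nat_lit 25) .nil)))) (.g (nat_lit 0) (.e (nat_lit 341671) (nat_lit 0) .nil) .nil)))) (.nd (nat_lit 9) 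
(.lf (nat_lit 567798) (.g (nat_lit 2229) (.e (nat_lit 450578) (nat_lit 5) (.e (nat_lit 532503) (nat_lit 1) (.e (nat_lit 57688) (nat_lit 156) (.e (nat_lit 163903) (nat_lit 12) (.e (nat_lit 426479) (nat_lit 27) (.e (nat_lit 336432) (nat_lit 30) .nil)))))) (.g (nat_lit 1) (.e (nat_lit 340046) (nat_lit 0) .nil) .nil))) 
(.lf (nat_lit 568310) (.g (nat_lit 867) (.e (nat_lit 450588) (nat_lit 10) (.e (nat_lit 573474) (nat_lit 12) (.e (nat_lit 57346) (nat_lit 0) .nil))) (.g (nat_lit 0) (.e (nat_lit 343054) (nat_lit 0) .nil) .nil))))))))) (.nd (nat_lit 4) (.nd (nat_lit 5) (.nd (nat_lit 6) (.nd (nat_lit 7) (.nd (nat_lit 8) (.nd (nat_lit 9) 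
(.lf (nat_lit 567310) (.g (nat_lit 1891) (.e (nat_lit 442411) (nat_lit 20) (.e (nat_lit 3409) (nat_lit 212) (.e (nat_lit 655378) (nat_lit 4) (.e (nat_lit 172082) (nat_lit 7) (.e (nat_lit 409642) (nat_lit 17) (.e (nat_lit 294974) (nat_lit 29) .nil)))))) (.g (nat_lit 1) (.e (nat_lit 335913) (nat_lit 0) .nil) .nil))) 
(.lf (nat_lit 567822) (.g (nat_lit 2666) (.e (nat_lit 450579) (nat_lit 5) (.e (nat_lit 532499) (nat_lit 1) (.e (nat_lit 57688) (nat_lit 156) (.e (nat_lit 163903) (nat_lit 12) (.e (nat_lit 426479) (nat_lit 27) (.e (nat_lit 336432) (nat_lit 30) .nil)))))) (.g (nat_lit 1) (.e (nat_lit 340167) (nat_lit 0) .nil) .nil)))) (.nd (nat_lit 9) 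
(.lf (nat_lit 567566) (.g (nat_lit 901) (.e (nat_lit 442427) (nat_lit 23) (.e (nat_lit 204846) (nat_lit 24) (.e (nat_lit 319534) (nat_lit 16) (.e (nat_lit 286728) (nat_lit 0) .nil)))) (.g (nat_lit 0) (.e (nat_lit 337178) (nat_lit 0) .nil) .nil))) 
(.lf (nat_lit 568078) (.g (nat_lit 642) (.e (nat_lit 458496) (nat_lit 3) (.e (nat_lit 516116) (nat_lit 1) (.e (nat_lit 164329) (nat_lit 230) .nil))) (.g (nat_lit 0) (.e (nat_lit 341715) (nat_lit 0) .nil) .nil))))) (.nd (nat_lit 8) (.nd (nat_lit 9) 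
(.lf (nat_lit 567438) (.g (nat_lit 3186) (.e (nat_lit 442421) (nat_lit 21) (.e (nat_lit 164348) (nat_lit 240) (.e (nat_lit 2619) (nat_lit 164) (.e (nat_lit 172120) (nat_lit 12) (.e (nat_lit 475211) (nat_lit 41) (.e (nat_lit 712750) (nat_lit 29) .nil)))))) (.g (nat_lit 1) (.e (nat_lit 336321) (nat_lit 0) .nil) .nil))) 
(.lf (nat_lit 567950) (.g (nat_lit 2329) (.e (nat_lit 450580) (nat_lit 5) (.e (nat_lit 532500) (nat_lit 1) (.e (nat_lit 57691) (nat_lit 156) (.e (nat_lit 163905) (nat_lit 12) (.e (nat_lit 426479) (nat_lit 27) .nil))))) (.g (nat_lit 0) (.e (nat_lit 341051) (nat_lit 0) .nil) .nil)))) (.nd (nat_lit 9) 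
(.lf (nat_lit 567694) (.g (nat_lit 3104) (.e (nat_lit 450564) (nat_lit 0) (.e (nat_lit 5546) (nat_lit 306) (.e (nat_lit 2619) (nat_lit 164) (.e (nat_lit 172126) (nat_lit 14) (.e (nat_lit 491550) (nat_lit 9) (.e (nat_lit 336434) (nat_lit 30) .nil)))))) (.g (nat_lit 1) (.e (nat_lit 338936) (nat_lit 0) .nil) .nil))) 
(.lf (nat_lit 568206) (.g (nat_lit 3282) (.e (nat_lit 450586) (nat_lit 10) (.e (nat_lit 573475) (nat_lit 12) (.e (nat_lit 57574) (nat_lit 55) (.e (nat_lit 778465) (nat_lit 11) (.e (nat_lit 24607) (nat_lit 3) (.e (nat_lit 98374) (nat_lit 29) .nil)))))) (.g (nat_lit 1) (.e (nat_lit 342486) (nat_lit 0) .nil) .nil)))))) (.nd (nat_lit 7) (.nd (nat_lit 8) (.nd (nat_lit 9) 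
(.lf (nat_lit 567374) (.g (nat_lit 3989) (.e (nat_lit 442419) (nat_lit 21) (.e (nat_lit 164348) (nat_lit 240) (.e (nat_lit 2629) (nat_lit 164) (.e (nat_lit 172124) (nat_lit 14) (.e (nat_lit 491549) (nat_lit 9) (.e (nat_lit 336430) (nat_lit 29) .nil)))))) (.g (nat_lit 1) (.e (nat_lit 336119) (nat_lit 0) .nil) .nil))) 
(.lf (nat_lit 567886) (.g (nat_lit 3061) (.e (nat_lit 450579) (nat_lit 5) (.e (nat_lit 532522) (nat_lit 7) (.e (nat_lit 319531) (nat_lit 16) (.e (nat_lit 286733) (nat_lit 2) (.e (nat_lit 90128) (nat_lit 9) (.e (nat_lit 7936) (nat_lit 187) .nil)))))) (.g (nat_lit 1) (.e (nat_lit 340412) (nat_lit 0) .nil) .nil)))) (.nd (nat_lit 9) 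
(.lf (nat_lit 567630) (.g (nat_lit 4430) (.e (nat_lit 442430) (nat_lit 24) (.e (nat_lit 229663) (nat_lit 240) (.e (nat_lit 2630) (nat_lit 164) (.e (nat_lit 172118) (nat_lit 12) (.e (nat_lit 475210) (nat_lit 41) (.e (nat_lit 712752) (nat_lit 29) .nil)))))) (.g (nat_lit 1) (.e (nat_lit 337605) (nat_lit 0) .nil) .nil))) 
(.lf (nat_lit 568142) (.g (nat_lit 1720) (.e (nat_lit 450586) (nat_lit 10) (.e (nat_lit 573471) (nat_lit 11) (.e (nat_lit 16400) (nat_lit 0) (.e (nat_lit 7936) (nat_lit 402) .nil)))) (.g (nat_lit 0) (.e (nat_lit 342209) (nat_lit 0) .nil) .nil))))) (.nd (nat_lit 8) (.nd (nat_lit 9) 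
(.lf (nat_lit 567502) (.g (nat_lit 1660) (.e (nat_lit 442426) (nat_lit 23) (.e (nat_lit 204846) (nat_lit 24) (.e (nat_lit 319505) (nat_lit 10) (.e (nat_lit 5390) (nat_lit 301) .nil)))) (.g (nat_lit 0) (.e (nat_lit 336867) (nat_lit 0) .nil) .nil))) 
(.lf (nat_lit 568014) (.g (nat_lit 832) (.e (nat_lit 450580) (nat_lit 5) (.e (nat_lit 532563) (nat_lit 15) (.e (nat_lit 385114) (nat_lit 53) (.e (nat_lit 811014) (nat_lit 0) .nil)))) (.g (nat_lit 0) (.e (nat_lit 341466) (nat_lit 0) .nil) .nil)))) (.nd (nat_lit 9) 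
(.lf (nat_lit 567758) (.g (nat_lit 1623) (.e (nat_lit 458496) (nat_lit 0) (.e (nat_lit 5546) (nat_lit 306) (.e (nat_lit 2628) (nat_lit 164) (.e (nat_lit 172124) (nat_lit 14) (.e (nat_lit 491550) (nat_lit 9) .nil))))) (.g (nat_lit 0) (.e (nat_lit 339638) (nat_lit 0) .nil) .nil))) 
(.lf (nat_lit 568270) (.g (nat_lit 1622) (.e (nat_lit 450588) (nat_lit 10) (.e (nat_lit 573470) (nat_lit 11) (.e (nat_lit 16392) (nat_lit 0) (.e (nat_lit 7107) (nat_lit 380) (.e (nat_lit 171776) (nat_lit 84) .nil))))) (.g (nat_lit 0) (.e (nat_lit 342892) (nat_lit 0) .nil) .nil))))))) (.nd (nat_lit 6) (.nd (nat_lit 7) (.nd (nat_lit 8) (.nd (nat_lit 9) 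
(.lf (nat_lit 567342) (.g (nat_lit 1988) (.e (nat_lit 442412) (nat_lit 20) (.e (nat_lit 3391) (nat_lit 210) (.e (nat_lit 639021) (nat_lit 16) (.e (nat_lit 65619) (nat_lit 10) (.e (nat_lit 344160) (nat_lit 37) (.e (nat_lit 647195) (nat_lit 9) (.e (nat_lit 7936) (nat_lit 34) .nil))))))) (.g (nat_lit 1) (.e (nat_lit 335987) (nat_lit 0) .nil) .nil))) 
(.lf (nat_lit 567854) (.g (nat_lit 2735) (.e (nat_lit 450579) (nat_lit 5) (.e (nat_lit 532503) (nat_lit 1) (.e (nat_lit 57688) (nat_lit 156) (.e (nat_lit 163907) (nat_lit 12) (.e (nat_lit 426479) (nat_lit 27) .nil))))) (.g (nat_lit 0) (.e (nat_lit 340314) (nat_lit 0) .nil) .nil)))) (.nd (nat_lit 9) 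
(.lf (nat_lit 567598) (.g (nat_lit 1826) (.e (nat_lit 442428) (nat_lit 24) (.e (nat_lit 229663) (nat_lit 240) (.e (nat_lit 2630) (nat_lit 164) (.e (nat_lit 172118) (nat_lit 12) .nil)))) (.g (nat_lit 0) (.e (nat_lit 337446) (nat_lit 0) .nil) .nil))) 
(.lf (nat_lit 568110) (.g (nat_lit 539) (.e (nat_lit 450586) (nat_lit 10) (.e (nat_lit 573450) (nat_lit 9) (.e (nat_lit 449) (nat_lit 33) .nil))) (.g (nat_lit 0) (.e (nat_lit 342100) (nat_lit 0) .nil) .nil))))) (.nd (nat_lit 8) (.nd (nat_lit 9) 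
(.lf (nat_lit 567470) (.g (nat_lit 772) (.e (nat_lit 442425) (nat_lit 23) (.e (nat_lit 204846) (nat_lit 24) (.e (nat_lit 319502) (nat_lit 10) .nil))) (.g (nat_lit 0) (.e (nat_lit 336606) (nat_lit 0) .nil) .nil))) 
(.lf (nat_lit 567982) (.g (nat_lit 1769) (.e (nat_lit 450580) (nat_lit 5) (.e (nat_lit 532523) (nat_lit 7) (.e (nat_lit 319504) (nat_lit 10) (.e (nat_lit 5255) (nat_lit 298) .nil)))) (.g (nat_lit 0) (.e (nat_lit 341133) (nat_lit 0) .nil) .nil)))) (.nd (nat_lit 9) 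
(.lf (nat_lit 567726) (.g (nat_lit 1698) (.e (nat_lit 450565) (nat_lit 0) (.e (nat_lit 5548) (nat_lit 306) (.e (nat_lit 2638) (nat_lit 165) (.e (nat_lit 180278) (nat_lit 32) (.e (nat_lit 1413) (nat_lit 108) .nil))))) (.g (nat_lit 0) (.e (nat_lit 339196) (nat_lit 0) .nil) .nil))) 
(.lf (nat_lit 568238) (.g (nat_lit 1114) (.e (nat_lit 450587) (nat_lit 10) (.e (nat_lit 573475) (nat_lit 12) (.e (nat_lit 57508) (nat_lit 39) .nil))) (.g (nat_lit 0) (.e (nat_lit 342703) (nat_lit 0) .nil) .nil)))))) (.nd (nat_lit 7) (.nd (nat_lit 8) (.nd (nat_lit 9) 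
(.lf (nat_lit 567406) (.g (nat_lit 2114) (.e (nat_lit 442421) (nat_lit 21) (.e (nat_lit 164326) (nat_lit 230) (.e (nat_lit 163884) (nat_lit 5) (.e (nat_lit 221194) (nat_lit 11) (.e (nat_lit 336084) (nat_lit 9) (.e (nat_lit 336426) (nat_lit 29) .nil)))))) (.g (nat_lit 1) (.e (nat_lit 336236) (nat_lit 0) .nil) .nil))) 
(.lf (nat_lit 567918) (.g (nat_lit 1987) (.e (nat_lit 450579) (nat_lit 5) (.e (nat_lit 532542) (nat_lit 9) (.e (nat_lit 335986) (nat_lit 1) (.e (nat_lit 57931) (nat_lit 282) (.e (nat_lit 171776) (nat_lit 64) .nil))))) (.g (nat_lit 0) (.e (nat_lit 340662) (nat_lit 0) .nil) .nil)))) (.nd (nat_lit 9) 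
(.lf (nat_lit 567662) (.g (nat_lit 897) (.e (nat_lit 442431) (nat_lit 25) (.e (nat_lit 245773) (nat_lit 3) (.e (nat_lit 163843) (nat_lit 0) (.e (nat_lit 6420) (nat_lit 341) .nil)))) (.g (nat_lit 0) (.e (nat_lit 337832) (nat_lit 0) .nil) .nil))) 
(.lf (nat_lit 568174) (.g (nat_lit 1635) (.e (nat_lit 450586) (nat_lit 10) (.e (nat_lit 573473) (nat_lit 12) (.e (nat_lit 57508) (nat_lit 39) (.e (nat_lit 647195) (nat_lit 9) (.e (nat_lit 422) (nat_lit 32) (.e (nat_lit 426012) (nat_lit 0) (.e (nat_lit 3546) (nat_lit 219) (.e (nat_lit 712753) (nat_lit 30) .nil)))))))) (.g (nat_lit 1) (.e (nat_lit 342369) (nat_lit 0) .nil) .nil))))) 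
(.nd (nat_lit 8) (.nd (nat_lit 9) 
(.lf (nat_lit 567534) (.g (nat_lit 2993) (.e (nat_lit 442427) (nat_lit 23) (.e (nat_lit 204830) (nat_lit 18) (.e (nat_lit 57692) (nat_lit 156) (.e (nat_lit 163905) (nat_lit 12) (.e (nat_lit 426479) (nat_lit 27) (.e (nat_lit 336430) (nat_lit 29) .nil)))))) (.g (nat_lit 1) (.e (nat_lit 337060) (nat_lit 0) .nil) .nil))) 
(.lf (nat_lit 568046) (.g (nat_lit 2032) (.e (nat_lit 450581) (nat_lit 5) (.e (nat_lit 532523) (nat_lit 7) (.e (nat_lit 319533) (nat_lit 16) (.e (nat_lit 286725) (nat_lit 0) (.e (nat_lit 1788) (nat_lit 119) .nil))))) (.g (nat_lit 0) (.e (nat_lit 341640) (nat_lit 0) .nil) .nil)))) (.nd (nat_lit 9) 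
(.lf (nat_lit 567790) (.g (nat_lit 1512) (.e (nat_lit 458496) (nat_lit 0) (.e (nat_lit 5589) (nat_lit 310) (.e (nat_lit 163931) (nat_lit 17) (.e (nat_lit 466947) (nat_lit 0) (.e (nat_lit 2173) (nat_lit 143) .nil))))) (.g (nat_lit 0) (.e (nat_lit 339765) (nat_lit 0) .nil) .nil))) 
(.lf (nat_lit 568302) (.g (nat_lit 3714) (.e (nat_lit 450588) (nat_lit 10) (.e (nat_lit 573473) (nat_lit 12) (.e (nat_lit 57508) (nat_lit 39) (.e (nat_lit 647195) (nat_lit 9) (.e (nat_lit 426) (nat_lit 32) (.e (nat_lit 426011) (nat_lit 0) (.e (nat_lit 3546) (nat_lit 219) (.e (nat_lit 712754) (nat_lit 30) .nil)))))))) (.g (nat_lit 1) (.e (nat_lit 343041) (nat_lit 0) .nil) .nil)))))))) 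
(.nd (nat_lit 5) (.nd (nat_lit 6) (.nd (nat_lit 7) (.nd (nat_lit 8) (.nd (nat_lit 9) 
(.lf (nat_lit 567326) (.g (nat_lit 1265) (.e (nat_lit 442412) (nat_lit 20) (.e (nat_lit 3272) (nat_lit 199) (.e (nat_lit 548913) (nat_lit 18) (.e (nat_lit 172082) (nat_lit 7) .nil)))) (.g (nat_lit 0) (.e (nat_lit 335961) (nat_lit 0) .nil) .nil))) 
(.lf (nat_lit 567838) (.g (nat_lit 2425) (.e (nat_lit 450579) (nat_lit 5) (.e (nat_lit 532501) (nat_lit 1) (.e (nat_lit 57663) (nat_lit 152) (.e (nat_lit 2725) (nat_lit 172) (.e (nat_lit 237574) (nat_lit 0) (.e (nat_lit 7936) (nat_lit 219) (.e (nat_lit 712753) (nat_lit 30) .nil))))))) (.g (nat_lit 1) (.e (nat_lit 340234) (nat_lit 0) .nil) .nil)))) (.nd (nat_lit 9) 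
(.lf (nat_lit 567582) (.g (nat_lit 2114) (.e (nat_lit 450304) (nat_lit 23) (.e (nat_lit 204846) (nat_lit 24) (.e (nat_lit 319528) (nat_lit 16) (.e (nat_lit 286735) (nat_lit 3) (.e (nat_lit 98369) (nat_lit 28) .nil))))) (.g (nat_lit 0) (.e (nat_lit 337420) (nat_lit 0) .nil) .nil))) 
(.lf (nat_lit 568094) (.g (nat_lit 3075) (.e (nat_lit 450585) (nat_lit 10) (.e (nat_lit 573450) (nat_lit 9) (.e (nat_lit 375) (nat_lit 32) (.e (nat_lit 426338) (nat_lit 14) (.e (nat_lit 491540) (nat_lit 3) .nil))))) (.g (nat_lit 0) (.e (nat_lit 342047) (nat_lit 0) .nil) .nil))))) (.nd (nat_lit 8) (.nd (nat_lit 9) 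
(.lf (nat_lit 567454) (.g (nat_lit 1131) (.e (nat_lit 442425) (nat_lit 23) (.e (nat_lit 204829) (nat_lit 18) (.e (nat_lit 57692) (nat_lit 156) (.e (nat_lit 171776) (nat_lit 12) .nil)))) (.g (nat_lit 0) (.e (nat_lit 336526) (nat_lit 0) .nil) .nil))) 
(.lf (nat_lit 567966) (.g (nat_lit 2310) (.e (nat_lit 450580) (nat_lit 5) (.e (nat_lit 532522) (nat_lit 7) (.e (nat_lit 319529) (nat_lit 16) (.e (nat_lit 286733) (nat_lit 2) (.e (nat_lit 90134) (nat_lit 9) .nil))))) (.g (nat_lit 0) (.e (nat_lit 341115) (nat_lit 0) .nil) .nil)))) (.nd (nat_lit 9) 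
(.lf (nat_lit 567710) (.g (nat_lit 337) (.e (nat_lit 450564) (nat_lit 0) (.e (nat_lit 5548) (nat_lit 306) (.e (nat_lit 2640) (nat_lit 165) .nil))) (.g (nat_lit 0) (.e (nat_lit 339012) (nat_lit 0) .nil) .nil))) 
(.lf (nat_lit 568222) (.g (nat_lit 2823) (.e (nat_lit 450586) (nat_lit 10) (.e (nat_lit 573478) (nat_lit 12) (.e (nat_lit 57574) (nat_lit 55) (.e (nat_lit 778466) (nat_lit 11) (.e (nat_lit 24608) (nat_lit 3) (.e (nat_lit 98374) (nat_lit 29) .nil)))))) (.g (nat_lit 1) (.e (nat_lit 342569) (nat_lit 0) .nil) .nil)))))) (.nd (nat_lit 7) (.nd (nat_lit 8) (.nd (nat_lit 9) 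
(.lf (nat_lit 567390) (.g (nat_lit 633) (.e (nat_lit 442420) (nat_lit 21) (.e (nat_lit 164325) (nat_lit 230) (.e (nat_lit 163886) (nat_lit 5) .nil))) (.g (nat_lit 0) (.e (nat_lit 336162) (nat_lit 0) .nil) .nil))) 
(.lf (nat_lit 567902) (.g (nat_lit 3652) (.e (nat_lit 450579) (nat_lit 5) (.e (nat_lit 532523) (nat_lit 7) (.e (nat_lit 319533) (nat_lit 16) (.e (nat_lit 286733) (nat_lit 2) (.e (nat_lit 90134) (nat_lit 9) (.e (nat_lit 3025) (nat_lit 187) .nil)))))) (.g (nat_lit 1) (.e (nat_lit 340438) (nat_lit 0) .nil) .nil)))) (.nd (nat_lit 9) 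
(.lf (nat_lit 567646) (.g (nat_lit 2996) (.e (nat_lit 442430) (nat_lit 24) (.e (nat_lit 229665) (nat_lit 240) (.e (nat_lit 2630) (nat_lit 164) (.e (nat_lit 172124) (nat_lit 14) (.e (nat_lit 491549) (nat_lit 9) (.e (nat_lit 336426) (nat_lit 29) .nil)))))) (.g (nat_lit 1) (.e (nat_lit 337701) (nat_lit 0) .nil) .nil))) 
(.lf (nat_lit 568158) (.g (nat_lit 3178) (.e (nat_lit 450586) (nat_lit 10) (.e (nat_lit 573471) (nat_lit 11) (.e (nat_lit 16470) (nat_lit 14) (.e (nat_lit 491530) (nat_lit 0) .nil)))) (.g (nat_lit 0) (.e (nat_lit 342329) (nat_lit 0) .nil) .nil))))) (.nd (nat_lit 8) (.nd (nat_lit 9) 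
(.lf (nat_lit 567518) (.g (nat_lit 2552) (.e (nat_lit 442427) (nat_lit 23) (.e (nat_lit 204813) (nat_lit 9) (.e (nat_lit 426098) (nat_lit 1) (.e (nat_lit 164403) (nat_lit 256) (.e (nat_lit 57409) (nat_lit 12) .nil))))) (.g (nat_lit 0) (.e (nat_lit 336952) (nat_lit 0) .nil) .nil))) 
(.lf (nat_lit 568030) (.g (nat_lit 2752) (.e (nat_lit 450581) (nat_lit 5) (.e (nat_lit 532522) (nat_lit 7) (.e (nat_lit 319531) (nat_lit 16) (.e (nat_lit 286733) (nat_lit 2) (.e (nat_lit 90134) (nat_lit 9) .nil))))) (.g (nat_lit 0) (.e (nat_lit 341618) (nat_lit 0) .nil) .nil)))) (.nd (nat_lit 9) 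
(.lf (nat_lit 567774) (.g (nat_lit 762) (.e (nat_lit 458496) (nat_lit 0) (.e (nat_lit 5547) (nat_lit 306) (.e (nat_lit 2640) (nat_lit 165) (.e (nat_lit 180277) (nat_lit 32) (.e (nat_lit 1425) (nat_lit 108) .nil))))) (.g (nat_lit 0) (.e (nat_lit 339696) (nat_lit 0) .nil) .nil))) 
(.lf (nat_lit 568286) (.g (nat_lit 4096) (.e (nat_lit 450588) (nat_lit 10) (.e (nat_lit 573471) (nat_lit 11) (.e (nat_lit 16470) (nat_lit 14) (.e (nat_lit 491525) (nat_lit 0) .nil)))) (.g (nat_lit 0) (.e (nat_lit 342998) (nat_lit 0) .nil) .nil))))))) (.nd (nat_lit 6) (.nd (nat_lit 7) (.nd (nat_lit 8) (.nd (nat_lit 9) 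
(.lf (nat_lit 567358) (.g (nat_lit 1332) (.e (nat_lit 442419) (nat_lit 21) (.e (nat_lit 164331) (nat_lit 230) (.e (nat_lit 163885) (nat_lit 5) (.e (nat_lit 229120) (nat_lit 16) .nil)))) (.g (nat_lit 0) (.e (nat_lit 336083) (nat_lit 0) .nil) .nil))) 
(.lf (nat_lit 567870) (.g (nat_lit 2426) (.e (nat_lit 450579) (nat_lit 5) (.e (nat_lit 532504) (nat_lit 1) (.e (nat_lit 57663) (nat_lit 152) (.e (nat_lit 2725) (nat_lit 172) (.e (nat_lit 237573) (nat_lit 0) (.e (nat_lit 7936) (nat_lit 219) (.e (nat_lit 712753) (nat_lit 30) .nil))))))) (.g (nat_lit 1) (.e (nat_lit 340358) (nat_lit 0) .nil) .nil)))) (.nd (nat_lit 9) 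
(.lf (nat_lit 567614) (.g (nat_lit 2349) (.e (nat_lit 442428) (nat_lit 24) (.e (nat_lit 229678) (nat_lit 244) (.e (nat_lit 163896) (nat_lit 10) (.e (nat_lit 409602) (nat_lit 0) (.e (nat_lit 5425) (nat_lit 305) (.e (nat_lit 139008) (nat_lit 29) .nil)))))) (.g (nat_lit 1) (.e (nat_lit 337515) (nat_lit 0) .nil) .nil))) 
(.lf (nat_lit 568126) (.g (nat_lit 2628) (.e (nat_lit 450586) (nat_lit 10) (.e (nat_lit 573471) (nat_lit 11) (.e (nat_lit 16386) (nat_lit 0) (.e (nat_lit 7583) (nat_lit 405) (.e (nat_lit 57464) (nat_lit 23) (.e (nat_lit 516165) (nat_lit 12) .nil)))))) (.g (nat_lit 1) (.e (nat_lit 342193) (nat_lit 0) .nil) .nil))))) (.nd (nat_lit 8) (.nd (nat_lit 9) 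
(.lf (nat_lit 567486) (.g (nat_lit 1545) (.e (nat_lit 442426) (nat_lit 23) (.e (nat_lit 204813) (nat_lit 9) (.e (nat_lit 426100) (nat_lit 1) (.e (nat_lit 164398) (nat_lit 256) .nil)))) (.g (nat_lit 0) (.e (nat_lit 336807) (nat_lit 0) .nil) .nil))) 
(.lf (nat_lit 567998) (.g (nat_lit 3495) (.e (nat_lit 450580) (nat_lit 5) (.e (nat_lit 532523) (nat_lit 7) (.e (nat_lit 319532) (nat_lit 16) (.e (nat_lit 286733) (nat_lit 2) (.e (nat_lit 90134) (nat_lit 9) (.e (nat_lit 3019) (nat_lit 187) .nil)))))) (.g (nat_lit 1) (.e (nat_lit 341163) (nat_lit 0) .nil) .nil)))) (.nd (nat_lit 9) 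
(.lf (nat_lit 567742) (.g (nat_lit 1533) (.e (nat_lit 458496) (nat_lit 0) (.e (nat_lit 5112) (nat_lit 292) (.e (nat_lit 1220) (nat_lit 90) (.e (nat_lit 81938) (nat_lit 20) (.e (nat_lit 1963) (nat_lit 134) .nil))))) (.g (nat_lit 0) (.e (nat_lit 339577) (nat_lit 0) .nil) .nil))) 
(.lf (nat_lit 568254) (.g (nat_lit 2960) (.e (nat_lit 450587) (nat_lit 10) (.e (nat_lit 573477) (nat_lit 12) (.e (nat_lit 57575) (nat_lit 55) (.e (nat_lit 778465) (nat_lit 11) (.e (nat_lit 24607) (nat_lit 3) (.e (nat_lit 98372) (nat_lit 29) .nil)))))) (.g (nat_lit 1) (.e (nat_lit 342785) (nat_lit 0) .nil) .nil)))))) (.nd (nat_lit 7) (.nd (nat_lit 8) (.nd (nat_lit 9) 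
(.lf (nat_lit 567422) (.g (nat_lit 1884) (.e (nat_lit 442421) (nat_lit 21) (.e (nat_lit 164319) (nat_lit 228) (.e (nat_lit 57427) (nat_lit 15) (.e (nat_lit 360483) (nat_lit 15) (.e (nat_lit 647193) (nat_lit 9) (.e (nat_lit 7936) (nat_lit 34) .nil)))))) (.g (nat_lit 1) (.e (nat_lit 336257) (nat_lit 0) .nil) .nil))) 
(.lf (nat_lit 567934) (.g (nat_lit 2006) (.e (nat_lit 450579) (nat_lit 5) (.e (nat_lit 532579) (nat_lit 26) (.e (nat_lit 426100) (nat_lit 1) (.e (nat_lit 164398) (nat_lit 256) (.e (nat_lit 57405) (nat_lit 12) .nil))))) (.g (nat_lit 0) (.e (nat_lit 340943) (nat_lit 0) .nil) .nil)))) (.nd (nat_lit 9) 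
(.lf (nat_lit 567678) (.g (nat_lit 1472) (.e (nat_lit 450561) (nat_lit 0) (.e (nat_lit 6830) (nat_lit 367) (.e (nat_lit 57427) (nat_lit 15) (.e (nat_lit 360477) (nat_lit 11) (.e (nat_lit 581636) (nat_lit 0) .nil))))) (.g (nat_lit 0) (.e (nat_lit 338548) (nat_lit 0) .nil) .nil))) 
(.lf (nat_lit 568190) (.g (nat_lit 936) (.e (nat_lit 450586) (nat_lit 10) (.e (nat_lit 573474) (nat_lit 12) (.e (nat_lit 57574) (nat_lit 55) .nil))) (.g (nat_lit 0) (.e (nat_lit 342435) (nat_lit 0) .nil) .nil))))) (.nd (nat_lit 8) (.nd (nat_lit 9) 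
(.lf (nat_lit 567550) (.g (nat_lit 2282) (.e (nat_lit 442427) (nat_lit 23) (.e (nat_lit 204845) (nat_lit 24) (.e (nat_lit 319531) (nat_lit 16) (.e (nat_lit 286727) (nat_lit 0) (.e (nat_lit 1799) (nat_lit 119) .nil))))) (.g (nat_lit 0) (.e (nat_lit 337109) (nat_lit 0) .nil) .nil))) 
(.lf (nat_lit 568062) (.g (nat_lit 1510) (.e (nat_lit 458496) (nat_lit 5) (.e (nat_lit 532523) (nat_lit 7) (.e (nat_lit 319530) (nat_lit 16) (.e (nat_lit 286735) (nat_lit 3) .nil)))) (.g (nat_lit 0) (.e (nat_lit 341680) (nat_lit 0) .nil) .nil)))) (.nd (nat_lit 9) 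
(.lf (nat_lit 567806) (.g (nat_lit 2872) (.e (nat_lit 450578) (nat_lit 5) (.e (nat_lit 532523) (nat_lit 7) (.e (nat_lit 319534) (nat_lit 16) (.e (nat_lit 286733) (nat_lit 2) (.e (nat_lit 90134) (nat_lit 9) .nil))))) (.g (nat_lit 0) (.e (nat_lit 340057) (nat_lit 0) .nil) .nil))) 
(.lf (nat_lit 568318) (.g (nat_lit 1202) (.e (nat_lit 450588) (nat_lit 10) (.e (nat_lit 573474) (nat_lit 12) (.e (nat_lit 57572) (nat_lit 54) (.e (nat_lit 770071) (nat_lit 8) .nil)))) (.g (nat_lit 0) (.e (nat_lit 343137) (nat_lit 0) .nil) .nil)))))))))))) 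
(.nd (nat_lit 1) (.nd (nat_lit 2) (.nd (nat_lit 3) (.nd (nat_lit 4) (.nd (nat_lit 5) 
(.nd (nat_lit 6) (.nd (nat_lit 7) (.nd (nat_lit 8) (.nd (nat_lit 9) 
(.lf (nat_lit 567297) (.g (nat_lit 2795) (.e (nat_lit 442411) (nat_lit 20) (.e (nat_lit 3272) (nat_lit 199) (.e (nat_lit 548913) (nat_lit 18) (.e (nat_lit 172124) (nat_lit 14) (.e (nat_lit 491524) (nat_lit 0) .nil))))) (.g (nat_lit 0) (.e (nat_lit 335900) (nat_lit 0) .nil) .nil))) 
(.lf (nat_lit 567809) (.g (nat_lit 3450) (.e (nat_lit 450578) (nat_lit 5) (.e (nat_lit 532569) (nat_lit 16) (.e (nat_lit 401448) (nat_lit 10) (.e (nat_lit 434238) (nat_lit 25) (.e (nat_lit 548898) (nat_lit 14) .nil))))) (.g (nat_lit 0) (.e (nat_lit 340069) (nat_lit 0) .nil) .nil)))) (.nd (nat_lit 9) 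
(.lf (nat_lit 567553) (.g (nat_lit 831) (.e (nat_lit 442427) (nat_lit 23) (.e (nat_lit 204845) (nat_lit 24) (.e (nat_lit 319532) (nat_lit 16) (.e (nat_lit 286735) (nat_lit 3) .nil)))) (.g (nat_lit 0) (.e (nat_lit 337126) (nat_lit 0) .nil) .nil))) 
(.lf (nat_lit 568065) (.g (nat_lit 1408) (.e (nat_lit 458496) (nat_lit 5) (.e (nat_lit 532523) (nat_lit 7) (.e (nat_lit 319534) (nat_lit 16) (.e (nat_lit 286720) (nat_lit 0) .nil)))) (.g (nat_lit 0) (.e (nat_lit 341683) (nat_lit 0) .nil) .nil))))) (.nd (nat_lit 8) (.nd (nat_lit 9) 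
(.lf (nat_lit 567425) (.g (nat_lit 2196) (.e (nat_lit 442421) (nat_lit 21) (.e (nat_lit 164319) (nat_lit 228) (.e (nat_lit 57427) (nat_lit 15) (.e (nat_lit 360484) (nat_lit 15) (.e (nat_lit 647196) (nat_lit 9) (.e (nat_lit 7936) (nat_lit 34) .nil)))))) (.g (nat_lit 1) (.e (nat_lit 336260) (nat_lit 0) .nil) .nil))) 
(.lf (nat_lit 567937) (.g (nat_lit 1974) (.e (nat_lit 450579) (nat_lit 5) (.e (nat_lit 532579) (nat_lit 26) (.e (nat_lit 426100) (nat_lit 1) (.e (nat_lit 164401) (nat_lit 256) .nil)))) (.g (nat_lit 0) (.e (nat_lit 340946) (nat_lit 0) .nil) .nil)))) (.nd (nat_lit 9) 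
(.lf (nat_lit 567681) (.g (nat_lit 1867) (.e (nat_lit 450563) (nat_lit 0) (.e (nat_lit 6416) (nat_lit 341) (.e (nat_lit 163903) (nat_lit 12) (.e (nat_lit 426273) (nat_lit 10) .nil)))) (.g (nat_lit 0) (.e (nat_lit 338754) (nat_lit 0) .nil) .nil))) 
(.lf (nat_lit 568193) (.g (nat_lit 1527) (.e (nat_lit 450586) (nat_lit 10) (.e (nat_lit 573475) (nat_lit 12) (.e (nat_lit 57354) (nat_lit 0) (.e (nat_lit 5219) (nat_lit 296) .nil)))) (.g (nat_lit 0) (.e (nat_lit 342451) (nat_lit 0) .nil) .nil)))))) (.nd (nat_lit 7) (.nd (nat_lit 8) (.nd (nat_lit 9) 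
(.lf (nat_lit 567361) (.g (nat_lit 1378) (.e (nat_lit 442419) (nat_lit 21) (.e (nat_lit 164332) (nat_lit 230) (.e (nat_lit 163885) (nat_lit 5) (.e (nat_lit 229120) (nat_lit 16) .nil)))) (.g (nat_lit 0) (.e (nat_lit 336088) (nat_lit 0) .nil) .nil))) 
(.lf (nat_lit 567873) (.g (nat_lit 958) (.e (nat_lit 450579) (nat_lit 5) (.e (nat_lit 532504) (nat_lit 1) (.e (nat_lit 57665) (nat_lit 152) .nil))) (.g (nat_lit 0) (.e (nat_lit 340364) (nat_lit 0) .nil) .nil)))) (.nd (nat_lit 9) 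
(.lf (nat_lit 567617) (.g (nat_lit 4152) (.e (nat_lit 442428) (nat_lit 24) (.e (nat_lit 229681) (nat_lit 244) (.e (nat_lit 163908) (nat_lit 12) (.e (nat_lit 426338) (nat_lit 14) (.e (nat_lit 491549) (nat_lit 9) (.e (nat_lit 336430) (nat_lit 29) .nil)))))) (.g (nat_lit 1) (.e (nat_lit 337527) (nat_lit 0) .nil) .nil))) 
(.lf (nat_lit 568129) (.g (nat_lit 2772) (.e (nat_lit 450586) (nat_lit 10) (.e (nat_lit 573471) (nat_lit 11) (.e (nat_lit 16387) (nat_lit 0) (.e (nat_lit 7581) (nat_lit 405) (.e (nat_lit 57464) (nat_lit 23) (.e (nat_lit 516165) (nat_lit 12) .nil)))))) (.g (nat_lit 1) (.e (nat_lit 342196) (nat_lit 0) .nil) .nil))))) (.nd (nat_lit 8) (.nd (nat_lit 9) 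
(.lf (nat_lit 567489) (.g (nat_lit 2100) (.e (nat_lit 442426) (nat_lit 23) (.e (nat_lit 204813) (nat_lit 9) (.e (nat_lit 426107) (nat_lit 1) (.e (nat_lit 164403) (nat_lit 256) (.e (nat_lit 57406) (nat_lit 12) .nil))))) (.g (nat_lit 0) (.e (nat_lit 336810) (nat_lit 0) .nil) .nil))) 
(.lf (nat_lit 568001) (.g (nat_lit 2120) (.e (nat_lit 450580) (nat_lit 5) (.e (nat_lit 532523) (nat_lit 7) (.e (nat_lit 319533) (nat_lit 16) (.e (nat_lit 286726) (nat_lit 0) .nil)))) (.g (nat_lit 0) (.e (nat_lit 341167) (nat_lit 0) .nil) .nil)))) (.nd (nat_lit 9) 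
(.lf (nat_lit 567745) (.g (nat_lit 1343) (.e (nat_lit 458496) (nat_lit 0) (.e (nat_lit 5195) (nat_lit 294) (.e (nat_lit 57427) (nat_lit 15) (.e (nat_lit 360480) (nat_lit 14) (.e (nat_lit 638986) (nat_lit 5) .nil))))) (.g (nat_lit 0) (.e (nat_lit 339589) (nat_lit 0) .nil) .nil))) 
(.lf (nat_lit 568257) (.g (nat_lit 2178) (.e (nat_lit 450587) (nat_lit 10) (.e (nat_lit 573478) (nat_lit 12) (.e (nat_lit 57574) (nat_lit 55) (.e (nat_lit 778465) (nat_lit 11) (.e (nat_lit 24589) (nat_lit 0) .nil))))) (.g (nat_lit 0) (.e (nat_lit 342793) (nat_lit 0) .nil) .nil))))))) (.nd (nat_lit 6) (.nd (nat_lit 7) (.nd (nat_lit 8) (.nd (nat_lit 9) 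
(.lf (nat_lit 567329) (.g (nat_lit 2484) (.e (nat_lit 442412) (nat_lit 20) (.e (nat_lit 3298) (nat_lit 202) (.e (nat_lit 573471) (nat_lit 11) (.e (nat_lit 16425) (nat_lit 7) (.e (nat_lit 409617) (nat_lit 10) .nil))))) (.g (nat_lit 0) (.e (nat_lit 335974) (nat_lit 0) .nil) .nil))) 
(.lf (nat_lit 567841) (.g (nat_lit 699) (.e (nat_lit 450579) (nat_lit 5) (.e (nat_lit 532503) (nat_lit 1) (.e (nat_lit 57652) (nat_lit 152) .nil))) (.g (nat_lit 0) (.e (nat_lit 340285) (nat_lit 0) .nil) .nil)))) (.nd (nat_lit 9) 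
(.lf (nat_lit 567585) (.g (nat_lit 2792) (.e (nat_lit 450304) (nat_lit 23) (.e (nat_lit 204846) (nat_lit 24) (.e (nat_lit 319530) (nat_lit 16) (.e (nat_lit 286735) (nat_lit 3) (.e (nat_lit 98369) (nat_lit 28) .nil))))) (.g (nat_lit 0) (.e (nat_lit 337423) (nat_lit 0) .nil) .nil))) 
(.lf (nat_lit 568097) (.g (nat_lit 660) (.e (nat_lit 450585) (nat_lit 10) (.e (nat_lit 573471) (nat_lit 11) (.e (nat_lit 16388) (nat_lit 0) .nil))) (.g (nat_lit 0) (.e (nat_lit 342050) (nat_lit 0) .nil) .nil))))) (.nd (nat_lit 8) (.nd (nat_lit 9) 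
(.lf (nat_lit 567457) (.g (nat_lit 1794) (.e (nat_lit 442425) (nat_lit 23) (.e (nat_lit 204830) (nat_lit 18) (.e (nat_lit 57691) (nat_lit 156) (.e (nat_lit 163906) (nat_lit 12) (.e (nat_lit 426479) (nat_lit 27) .nil))))) (.g (nat_lit 0) (.e (nat_lit 336554) (nat_lit 0) .nil) .nil))) 
(.lf (nat_lit 567969) (.g (nat_lit 2556) (.e (nat_lit 450580) (nat_lit 5) (.e (nat_lit 532522) (nat_lit 7) (.e (nat_lit 319530) (nat_lit 16) (.e (nat_lit 286733) (nat_lit 2) (.e (nat_lit 90128) (nat_lit 9) .nil))))) (.g (nat_lit 0) (.e (nat_lit 341118) (nat_lit 0) .nil) .nil)))) (.nd (nat_lit 9) 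
(.lf (nat_lit 567713) (.g (nat_lit 1997) (.e (nat_lit 450565) (nat_lit 0) (.e (nat_lit 5546) (nat_lit 306) (.e (nat_lit 2619) (nat_lit 164) (.e (nat_lit 172126) (nat_lit 14) (.e (nat_lit 491549) (nat_lit 9) .nil))))) (.g (nat_lit 0) (.e (nat_lit 339155) (nat_lit 0) .nil) .nil))) 
(.lf (nat_lit 568225) (.g (nat_lit 2230) (.e (nat_lit 450587) (nat_lit 10) (.e (nat_lit 573457) (nat_lit 9) (.e (nat_lit 392) (nat_lit 32) (.e (nat_lit 426172) (nat_lit 7) (.e (nat_lit 409616) (nat_lit 10) (.e (nat_lit 7936) (nat_lit 43) (.e (nat_lit 516166) (nat_lit 12) .nil))))))) (.g (nat_lit 1) (.e (nat_lit 342638) (nat_lit 0) .nil) .nil)))))) 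
(.nd (nat_lit 7) (.nd (nat_lit 8) (.nd (nat_lit 9) 
(.lf (nat_lit 567393) (.g (nat_lit 2612) (.e (nat_lit 442421) (nat_lit 21) (.e (nat_lit 164322) (nat_lit 230) (.e (nat_lit 163885) (nat_lit 5) (.e (nat_lit 221194) (nat_lit 11) (.e (nat_lit 336087) (nat_lit 9) (.e (nat_lit 336426) (nat_lit 29) .nil)))))) (.g (nat_lit 1) (.e (nat_lit 336218) (nat_lit 0) .nil) .nil))) 
(.lf (nat_lit 567905) (.g (nat_lit 1705) (.e (nat_lit 450579) (nat_lit 5) (.e (nat_lit 532523) (nat_lit 7) (.e (nat_lit 319534) (nat_lit 16) (.e (nat_lit 286728) (nat_lit 0) .nil)))) (.g (nat_lit 0) (.e (nat_lit 340442) (nat_lit 0) .nil) .nil)))) (.nd (nat_lit 9) 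
(.lf (nat_lit 567649) (.g (nat_lit 2457) (.e (nat_lit 442430) (nat_lit 24) (.e (nat_lit 229665) (nat_lit 240) (.e (nat_lit 2641) (nat_lit 165) (.e (nat_lit 180278) (nat_lit 32) (.e (nat_lit 1428) (nat_lit 108) (.e (nat_lit 336426) (nat_lit 29) .nil)))))) (.g (nat_lit 1) (.e (nat_lit 337708) (nat_lit 0) .nil) .nil))) 
(.lf (nat_lit 568161) (.g (nat_lit 1551) (.e (nat_lit 450586) (nat_lit 10) (.e (nat_lit 573471) (nat_lit 11) (.e (nat_lit 16471) (nat_lit 14) (.e (nat_lit 499456) (nat_lit 3) .nil)))) (.g (nat_lit 0) (.e (nat_lit 342342) (nat_lit 0) .nil) .nil))))) (.nd (nat_lit 8) (.nd (nat_lit 9) 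
(.lf (nat_lit 567521) (.g (nat_lit 2454) (.e (nat_lit 442427) (nat_lit 23) (.e (nat_lit 204821) (nat_lit 17) (.e (nat_lit 7936) (nat_lit 153) (.e (nat_lit 794655) (nat_lit 20) (.e (nat_lit 3747) (nat_lit 228) (.e (nat_lit 786473) (nat_lit 27) (.e (nat_lit 336429) (nat_lit 29) .nil))))))) (.g (nat_lit 1) (.e (nat_lit 336999) (nat_lit 0) .nil) .nil))) 
(.lf (nat_lit 568033) (.g (nat_lit 816) (.e (nat_lit 450581) (nat_lit 5) (.e (nat_lit 532523) (nat_lit 7) (.e (nat_lit 319500) (nat_lit 10) .nil))) (.g (nat_lit 0) (.e (nat_lit 341621) (nat_lit 0) .nil) .nil)))) (.nd (nat_lit 9) 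
(.lf (nat_lit 567777) (.g (nat_lit 1571) (.e (nat_lit 458496) (nat_lit 0) (.e (nat_lit 5548) (nat_lit 306) (.e (nat_lit 2619) (nat_lit 164) (.e (nat_lit 172119) (nat_lit 12) (.e (nat_lit 475211) (nat_lit 41) .nil))))) (.g (nat_lit 0) (.e (nat_lit 339721) (nat_lit 0) .nil) .nil))) 
(.lf (nat_lit 568289) (.g (nat_lit 3698) (.e (nat_lit 450588) (nat_lit 10) (.e (nat_lit 573471) (nat_lit 11) (.e (nat_lit 16470) (nat_lit 14) (.e (nat_lit 491529) (nat_lit 0) .nil)))) (.g (nat_lit 0) (.e (nat_lit 343001) (nat_lit 0) .nil) .nil)))))))) (.nd (nat_lit 5) (.nd (nat_lit 6) (.nd (nat_lit 7) (.nd (nat_lit 8) (.nd (nat_lit 9) 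
(.lf (nat_lit 567313) (.g (nat_lit 1860) (.e (nat_lit 442411) (nat_lit 20) (.e (nat_lit 3469) (nat_lit 217) (.e (nat_lit 696344) (nat_lit 8) (.e (nat_lit 172106) (nat_lit 10) (.e (nat_lit 434202) (nat_lit 18) .nil))))) (.g (nat_lit 0) (.e (nat_lit 335928) (nat_lit 0) .nil) .nil))) 
(.lf (nat_lit 567825) (.g (nat_lit 1601) (.e (nat_lit 450579) (nat_lit 5) (.e (nat_lit 532499) (nat_lit 1) (.e (nat_lit 57688) (nat_lit 156) (.e (nat_lit 163928) (nat_lit 16) .nil)))) (.g (nat_lit 0) (.e (nat_lit 340175) (nat_lit 0) .nil) .nil)))) (.nd (nat_lit 9) 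
(.lf (nat_lit 567569) (.g (nat_lit 1103) (.e (nat_lit 442427) (nat_lit 23) (.e (nat_lit 204862) (nat_lit 27) (.e (nat_lit 344160) (nat_lit 37) (.e (nat_lit 647195) (nat_lit 9) .nil)))) (.g (nat_lit 0) (.e (nat_lit 337266) (nat_lit 0) .nil) .nil))) 
(.lf (nat_lit 568081) (.g (nat_lit 440) (.e (nat_lit 458496) (nat_lit 3) (.e (nat_lit 516195) (nat_lit 26) (.e (nat_lit 336059) (nat_lit 7) .nil))) (.g (nat_lit 0) (.e (nat_lit 341722) (nat_lit 0) .nil) .nil))))) (.nd (nat_lit 8) (.nd (nat_lit 9) 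
(.lf (nat_lit 567441) (.g (nat_lit 495) (.e (nat_lit 442421) (nat_lit 21) (.e (nat_lit 164348) (nat_lit 240) (.e (nat_lit 2639) (nat_lit 165) .nil))) (.g (nat_lit 0) (.e (nat_lit 336329) (nat_lit 0) .nil) .nil))) 
(.lf (nat_lit 567953) (.g (nat_lit 2575) (.e (nat_lit 450580) (nat_lit 5) (.e (nat_lit 532501) (nat_lit 1) (.e (nat_lit 57663) (nat_lit 152) (.e (nat_lit 2725) (nat_lit 172) (.e (nat_lit 237573) (nat_lit 0) (.e (nat_lit 7936) (nat_lit 219) (.e (nat_lit 712753) (nat_lit 30) .nil))))))) (.g (nat_lit 1) (.e (nat_lit 341058) (nat_lit 0) .nil) .nil)))) (.nd (nat_lit 9) 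
(.lf (nat_lit 567697) (.g (nat_lit 2687) (.e (nat_lit 450564) (nat_lit 0) (.e (nat_lit 5546) (nat_lit 306) (.e (nat_lit 2628) (nat_lit 164) (.e (nat_lit 172126) (nat_lit 14) (.e (nat_lit 491550) (nat_lit 9) (.e (nat_lit 336434) (nat_lit 30) .nil)))))) (.g (nat_lit 1) (.e (nat_lit 338941) (nat_lit 0) .nil) .nil))) 
(.lf (nat_lit 568209) (.g (nat_lit 2074) (.e (nat_lit 450586) (nat_lit 10) (.e (nat_lit 573477) (nat_lit 12) (.e (nat_lit 57510) (nat_lit 39) (.e (nat_lit 647199) (nat_lit 11) (.e (nat_lit 16388) (nat_lit 0) (.e (nat_lit 3548) (nat_lit 219) (.e (nat_lit 712753) (nat_lit 30) .nil))))))) (.g (nat_lit 1) (.e (nat_lit 342507) (nat_lit 0) .nil) .nil)))))) 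
(.nd (nat_lit 7) (.nd (nat_lit 8) (.nd (nat_lit 9) 
(.lf (nat_lit 567377) (.g (nat_lit 4262) (.e (nat_lit 442419) (nat_lit 21) (.e (nat_lit 164348) (nat_lit 240) (.e (nat_lit 2638) (nat_lit 165) (.e (nat_lit 180277) (nat_lit 32) (.e (nat_lit 1427) (nat_lit 108) (.e (nat_lit 336430) (nat_lit 29) .nil)))))) (.g (nat_lit 1) (.e (nat_lit 336122) (nat_lit 0) .nil) .nil))) 
(.lf (nat_lit 567889) (.g (nat_lit 4291) (.e (nat_lit 450579) (nat_lit 5) (.e (nat_lit 532522) (nat_lit 7) (.e (nat_lit 319531) (nat_lit 16) (.e (nat_lit 286733) (nat_lit 2) (.e (nat_lit 90134) (nat_lit 9) (.e (nat_lit 3027) (nat_lit 187) .nil)))))) (.g (nat_lit 1) (.e (nat_lit 340415) (nat_lit 0) .nil) .nil)))) (.nd (nat_lit 9) 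
(.lf (nat_lit 567633) (.g (nat_lit 4555) (.e (nat_lit 442430) (nat_lit 24) (.e (nat_lit 229663) (nat_lit 240) (.e (nat_lit 2630) (nat_lit 164) (.e (nat_lit 172120) (nat_lit 12) (.e (nat_lit 475211) (nat_lit 41) (.e (nat_lit 712750) (nat_lit 29) .nil)))))) (.g (nat_lit 1) (.e (nat_lit 337608) (nat_lit 0) .nil) .nil))) 
(.lf (nat_lit 568145) (.g (nat_lit 1935) (.e (nat_lit 450586) (nat_lit 10) (.e (nat_lit 573471) (nat_lit 11) (.e (nat_lit 16425) (nat_lit 7) (.e (nat_lit 409609) (nat_lit 10) .nil)))) (.g (nat_lit 0) (.e (nat_lit 342213) (nat_lit 0) .nil) .nil))))) (.nd (nat_lit 8) (.nd (nat_lit 9) 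
(.lf (nat_lit 567505) (.g (nat_lit 2018) (.e (nat_lit 442426) (nat_lit 23) (.e (nat_lit 204846) (nat_lit 24) (.e (nat_lit 319528) (nat_lit 16) (.e (nat_lit 286734) (nat_lit 3) (.e (nat_lit 98370) (nat_lit 28) .nil))))) (.g (nat_lit 0) (.e (nat_lit 336873) (nat_lit 0) .nil) .nil))) 
(.lf (nat_lit 568017) (.g (nat_lit 503) (.e (nat_lit 450580) (nat_lit 5) (.e (nat_lit 532579) (nat_lit 26) (.e (nat_lit 426099) (nat_lit 1) .nil))) (.g (nat_lit 0) (.e (nat_lit 341571) (nat_lit 0) .nil) .nil)))) (.nd (nat_lit 9) 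
(.lf (nat_lit 567761) (.g (nat_lit 1600) (.e (nat_lit 458496) (nat_lit 0) (.e (nat_lit 5546) (nat_lit 306) (.e (nat_lit 2638) (nat_lit 165) (.e (nat_lit 180278) (nat_lit 32) (.e (nat_lit 1425) (nat_lit 108) .nil))))) (.g (nat_lit 0) (.e (nat_lit 339644) (nat_lit 0) .nil) .nil))) 
(.lf (nat_lit 568273) (.g (nat_lit 1661) (.e (nat_lit 450588) (nat_lit 10) (.e (nat_lit 573471) (nat_lit 11) (.e (nat_lit 16386) (nat_lit 0) (.e (nat_lit 7491) (nat_lit 402) (.e (nat_lit 1250) (nat_lit 92) .nil))))) (.g (nat_lit 0) (.e (nat_lit 342912) (nat_lit 0) .nil) .nil))))))) (.nd (nat_lit 6) (.nd (nat_lit 7) (.nd (nat_lit 8) (.nd (nat_lit 9) 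
(.lf (nat_lit 567345) (.g (nat_lit 1735) (.e (nat_lit 442412) (nat_lit 20) (.e (nat_lit 3469) (nat_lit 217) (.e (nat_lit 696344) (nat_lit 8) (.e (nat_lit 172113) (nat_lit 10) (.e (nat_lit 434207) (nat_lit 18) .nil))))) (.g (nat_lit 0) (.e (nat_lit 336021) (nat_lit 0) .nil) .nil))) 
(.lf (nat_lit 567857) (.g (nat_lit 2354) (.e (nat_lit 450579) (nat_lit 5) (.e (nat_lit 532503) (nat_lit 1) (.e (nat_lit 57691) (nat_lit 156) (.e (nat_lit 163905) (nat_lit 12) (.e (nat_lit 426479) (nat_lit 27) (.e (nat_lit 336432) (nat_lit 30) .nil)))))) (.g (nat_lit 1) (.e (nat_lit 340320) (nat_lit 0) .nil) .nil)))) (.nd (nat_lit 9) 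
(.lf (nat_lit 567601) (.g (nat_lit 3856) (.e (nat_lit 442428) (nat_lit 24) (.e (nat_lit 229663) (nat_lit 240) (.e (nat_lit 2630) (nat_lit 164) (.e (nat_lit 172124) (nat_lit 14) (.e (nat_lit 491550) (nat_lit 9) (.e (nat_lit 336430) (nat_lit 29) .nil)))))) (.g (nat_lit 1) (.e (nat_lit 337449) (nat_lit 0) .nil) .nil))) 
(.lf (nat_lit 568113) (.g (nat_lit 518) (.e (nat_lit 450586) (nat_lit 10) (.e (nat_lit 573454) (nat_lit 9) (.e (nat_lit 410) (nat_lit 32) .nil))) (.g (nat_lit 0) (.e (nat_lit 342150) (nat_lit 0) .nil) .nil))))) (.nd (nat_lit 8) (.nd (nat_lit 9) 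
(.lf (nat_lit 567473) (.g (nat_lit 1329) (.e (nat_lit 442425) (nat_lit 23) (.e (nat_lit 204846) (nat_lit 24) (.e (nat_lit 319511) (nat_lit 10) (.e (nat_lit 5389) (nat_lit 301) .nil)))) (.g (nat_lit 0) (.e (nat_lit 336609) (nat_lit 0) .nil) .nil))) 
(.lf (nat_lit 567985) (.g (nat_lit 1856) (.e (nat_lit 450580) (nat_lit 5) (.e (nat_lit 532523) (nat_lit 7) (.e (nat_lit 319504) (nat_lit 10) (.e (nat_lit 5391) (nat_lit 301) (.e (nat_lit 57464) (nat_lit 23) .nil))))) (.g (nat_lit 0) (.e (nat_lit 341136) (nat_lit 0) .nil) .nil)))) (.nd (nat_lit 9) 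
(.lf (nat_lit 567729) (.g (nat_lit 1421) (.e (nat_lit 450566) (nat_lit 0) (.e (nat_lit 5946) (nat_lit 322) (.e (nat_lit 57449) (nat_lit 20) (.e (nat_lit 401454) (nat_lit 12) (.e (nat_lit 475210) (nat_lit 41) .nil))))) (.g (nat_lit 0) (.e (nat_lit 339360) (nat_lit 0) .nil) .nil))) 
(.lf (nat_lit 568241) (.g (nat_lit 3020) (.e (nat_lit 450587) (nat_lit 10) (.e (nat_lit 573477) (nat_lit 12) (.e (nat_lit 57574) (nat_lit 55) (.e (nat_lit 778361) (nat_lit 9) (.e (nat_lit 232) (nat_lit 21) (.e (nat_lit 336013) (nat_lit 2) (.e (nat_lit 90134) (nat_lit 9) (.e (nat_lit 3025) (nat_lit 187) .nil)))))))) (.g (nat_lit 1) (.e (nat_lit 342717) (nat_lit 0) .nil) .nil)))))) 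
(.nd (nat_lit 7) (.nd (nat_lit 8) (.nd (nat_lit 9) 
(.lf (nat_lit 567409) (.g (nat_lit 1298) (.e (nat_lit 442421) (nat_lit 21) (.e (nat_lit 164331) (nat_lit 230) (.e (nat_lit 163884) (nat_lit 5) (.e (nat_lit 229120) (nat_lit 16) .nil)))) (.g (nat_lit 0) (.e (nat_lit 336239) (nat_lit 0) .nil) .nil))) 
(.lf (nat_lit 567921) (.g (nat_lit 2619) (.e (nat_lit 450579) (nat_lit 5) (.e (nat_lit 532563) (nat_lit 15) (.e (nat_lit 385094) (nat_lit 49) (.e (nat_lit 778317) (nat_lit 3) (.e (nat_lit 57477) (nat_lit 28) (.e (nat_lit 557067) (nat_lit 9) (.e (nat_lit 3021) (nat_lit 187) .nil))))))) (.g (nat_lit 1) (.e (nat_lit 340703) (nat_lit 0) .nil) .nil)))) (.nd (nat_lit 9) 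
(.lf (nat_lit 567665) (.g (nat_lit 3711) (.e (nat_lit 442433) (nat_lit 25) (.e (nat_lit 245784) (nat_lit 9) (.e (nat_lit 1673) (nat_lit 116) (.e (nat_lit 401448) (nat_lit 10) (.e (nat_lit 434238) (nat_lit 25) (.e (nat_lit 548898) (nat_lit 14) (.e (nat_lit 2989) (nat_lit 186) .nil))))))) (.g (nat_lit 1) (.e (nat_lit 337862) (nat_lit 0) .nil) .nil))) 
(.lf (nat_lit 568177) (.g (nat_lit 2203) (.e (nat_lit 450586) (nat_lit 10) (.e (nat_lit 573473) (nat_lit 12) (.e (nat_lit 57508) (nat_lit 39) (.e (nat_lit 647195) (nat_lit 9) (.e (nat_lit 426) (nat_lit 32) (.e (nat_lit 426010) (nat_lit 0) (.e (nat_lit 3548) (nat_lit 219) (.e (nat_lit 712753) (nat_lit 30) .nil)))))))) (.g (nat_lit 1) (.e (nat_lit 342372) (nat_lit 0) .nil) .nil))))) 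
(.nd (nat_lit 8) (.nd (nat_lit 9) 
(.lf (nat_lit 567537) (.g (nat_lit 2791) (.e (nat_lit 442427) (nat_lit 23) (.e (nat_lit 204831) (nat_lit 18) (.e (nat_lit 57688) (nat_lit 156) (.e (nat_lit 163905) (nat_lit 12) (.e (nat_lit 426479) (nat_lit 27) .nil))))) (.g (nat_lit 0) (.e (nat_lit 337070) (nat_lit 0) .nil) .nil))) 
(.lf (nat_lit 568049) (.g (nat_lit 2446) (.e (nat_lit 450581) (nat_lit 5) (.e (nat_lit 532523) (nat_lit 7) (.e (nat_lit 319534) (nat_lit 16) (.e (nat_lit 286723) (nat_lit 0) (.e (nat_lit 1788) (nat_lit 119) .nil))))) (.g (nat_lit 0) (.e (nat_lit 341645) (nat_lit 0) .nil) .nil)))) (.nd (nat_lit 9) 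
(.lf (nat_lit 567793) (.g (nat_lit 1746) (.e (nat_lit 458496) (nat_lit 0) (.e (nat_lit 6807) (nat_lit 365) (.e (nat_lit 1221) (nat_lit 90) (.e (nat_lit 81938) (nat_lit 20) (.e (nat_lit 1885) (nat_lit 127) .nil))))) (.g (nat_lit 0) (.e (nat_lit 339893) (nat_lit 0) .nil) .nil))) 
(.lf (nat_lit 568305) (.g (nat_lit 2959) (.e (nat_lit 450588) (nat_lit 10) (.e (nat_lit 573473) (nat_lit 12) (.e (nat_lit 57508) (nat_lit 39) (.e (nat_lit 647199) (nat_lit 11) (.e (nat_lit 16388) (nat_lit 0) (.e (nat_lit 3544) (nat_lit 219) (.e (nat_lit 712754) (nat_lit 30) .nil))))))) (.g (nat_lit 1) (.e (nat_lit 343045) (nat_lit 0) .nil) .nil))))))))) 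
(.nd (nat_lit 4) (.nd (nat_lit 5) (.nd (nat_lit 6) (.nd (nat_lit 7) (.nd (nat_lit 8) 
(.nd (nat_lit 9) 
(.lf (nat_lit 567305) (.g (nat_lit 5124) (.e (nat_lit 442411) (nat_lit 20) (.e (nat_lit 3307) (nat_lit 202) (.e (nat_lit 573471) (nat_lit 11) (.e (nat_lit 16425) (nat_lit 7) (.e (nat_lit 409616) (nat_lit 10) .nil))))) (.g (nat_lit 0) (.e (nat_lit 335908) (nat_lit 0) .nil) .nil))) 
(.lf (nat_lit 567817) (.g (nat_lit 2352) (.e (nat_lit 450579) (nat_lit 5) (.e (nat_lit 532499) (nat_lit 1) (.e (nat_lit 57686) (nat_lit 156) (.e (nat_lit 163903) (nat_lit 12) (.e (nat_lit 426479) (nat_lit 27) (.e (nat_lit 336432) (nat_lit 30) .nil)))))) (.g (nat_lit 1) (.e (nat_lit 340152) (nat_lit 0) .nil) .nil)))) (.nd (nat_lit 9) 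
(.lf (nat_lit 567561) (.g (nat_lit 2568) (.e (nat_lit 442427) (nat_lit 23) (.e (nat_lit 204846) (nat_lit 24) (.e (nat_lit 319531) (nat_lit 16) (.e (nat_lit 286734) (nat_lit 3) (.e (nat_lit 98371) (nat_lit 28) .nil))))) (.g (nat_lit 0) (.e (nat_lit 337159) (nat_lit 0) .nil) .nil))) 
(.lf (nat_lit 568073) (.g (nat_lit 3347) (.e (nat_lit 458496) (nat_lit 3) (.e (nat_lit 516115) (nat_lit 1) (.e (nat_lit 164325) (nat_lit 230) (.e (nat_lit 163861) (nat_lit 1) (.e (nat_lit 164332) (nat_lit 230) .nil))))) (.g (nat_lit 0) (.e (nat_lit 341706) (nat_lit 0) .nil) .nil))))) (.nd (nat_lit 8) (.nd (nat_lit 9) 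
(.lf (nat_lit 567433) (.g (nat_lit 1994) (.e (nat_lit 442421) (nat_lit 21) (.e (nat_lit 164347) (nat_lit 240) (.e (nat_lit 2628) (nat_lit 164) (.e (nat_lit 172118) (nat_lit 12) (.e (nat_lit 475209) (nat_lit 41) (.e (nat_lit 712752) (nat_lit 29) .nil)))))) (.g (nat_lit 1) (.e (nat_lit 336283) (nat_lit 0) .nil) .nil))) 
(.lf (nat_lit 567945) (.g (nat_lit 398) (.e (nat_lit 450580) (nat_lit 5) (.e (nat_lit 532499) (nat_lit 1) (.e (nat_lit 57655) (nat_lit 152) .nil))) (.g (nat_lit 0) (.e (nat_lit 340995) (nat_lit 0) .nil) .nil)))) (.nd (nat_lit 9) 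
(.lf (nat_lit 567689) (.g (nat_lit 1242) (.e (nat_lit 450564) (nat_lit 0) (.e (nat_lit 5190) (nat_lit 294) (.e (nat_lit 57412) (nat_lit 12) (.e (nat_lit 336176) (nat_lit 10) (.e (nat_lit 344156) (nat_lit 36) .nil))))) (.g (nat_lit 0) (.e (nat_lit 338927) (nat_lit 0) .nil) .nil))) 
(.lf (nat_lit 568201) (.g (nat_lit 2458) (.e (nat_lit 450586) (nat_lit 10) (.e (nat_lit 573475) (nat_lit 12) (.e (nat_lit 57507) (nat_lit 39) (.e (nat_lit 647195) (nat_lit 9) (.e (nat_lit 426) (nat_lit 32) (.e (nat_lit 426011) (nat_lit 0) (.e (nat_lit 3546) (nat_lit 219) (.e (nat_lit 712753) (nat_lit 30) .nil)))))))) (.g (nat_lit 1) (.e (nat_lit 342470) (nat_lit 0) .nil) .nil)))))) 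
(.nd (nat_lit 7) (.nd (nat_lit 8) (.nd (nat_lit 9) 
(.lf (nat_lit 567369) (.g (nat_lit 3607) (.e (nat_lit 442419) (nat_lit 21) (.e (nat_lit 164348) (nat_lit 240) (.e (nat_lit 2617) (nat_lit 164) (.e (nat_lit 172126) (nat_lit 14) (.e (nat_lit 491550) (nat_lit 9) (.e (nat_lit 336430) (nat_lit 29) .nil)))))) (.g (nat_lit 1) (.e (nat_lit 336110) (nat_lit 0) .nil) .nil))) 
(.lf (nat_lit 567881) (.g (nat_lit 1771) (.e (nat_lit 450579) (nat_lit 5) (.e (nat_lit 532522) (nat_lit 7) (.e (nat_lit 319530) (nat_lit 16) (.e (nat_lit 286720) (nat_lit 0) .nil)))) (.g (nat_lit 0) (.e (nat_lit 340407) (nat_lit 0) .nil) .nil)))) (.nd (nat_lit 9) 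
(.lf (nat_lit 567625) (.g (nat_lit 376) (.e (nat_lit 442429) (nat_lit 24) (.e (nat_lit 229665) (nat_lit 240) (.e (nat_lit 2653) (nat_lit 166) .nil))) (.g (nat_lit 0) (.e (nat_lit 337564) (nat_lit 0) .nil) .nil))) 
(.lf (nat_lit 568137) (.g (nat_lit 2309) (.e (nat_lit 450586) (nat_lit 10) (.e (nat_lit 573471) (nat_lit 11) (.e (nat_lit 16392) (nat_lit 0) (.e (nat_lit 7554) (nat_lit 402) .nil)))) (.g (nat_lit 0) (.e (nat_lit 342204) (nat_lit 0) .nil) .nil))))) (.nd (nat_lit 8) (.nd (nat_lit 9) 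
(.lf (nat_lit 567497) (.g (nat_lit 1985) (.e (nat_lit 442426) (nat_lit 23) (.e (nat_lit 204846) (nat_lit 24) (.e (nat_lit 319504) (nat_lit 10) (.e (nat_lit 5390) (nat_lit 301) .nil)))) (.g (nat_lit 0) (.e (nat_lit 336862) (nat_lit 0) .nil) .nil))) 
(.lf (nat_lit 568009) (.g (nat_lit 4849) (.e (nat_lit 450580) (nat_lit 5) (.e (nat_lit 532523) (nat_lit 7) (.e (nat_lit 319534) (nat_lit 16) (.e (nat_lit 286733) (nat_lit 2) (.e (nat_lit 90134) (nat_lit 9) (.e (nat_lit 3019) (nat_lit 187) .nil)))))) (.g (nat_lit 1) (.e (nat_lit 341247) (nat_lit 0) .nil) .nil)))) (.nd (nat_lit 9) 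
(.lf (nat_lit 567753) (.g (nat_lit 1316) (.e (nat_lit 458496) (nat_lit 0) (.e (nat_lit 5543) (nat_lit 306) (.e (nat_lit 2638) (nat_lit 165) (.e (nat_lit 180277) (nat_lit 32) (.e (nat_lit 1426) (nat_lit 108) .nil))))) (.g (nat_lit 0) (.e (nat_lit 339613) (nat_lit 0) .nil) .nil))) 
(.lf (nat_lit 568265) (.g (nat_lit 1880) (.e (nat_lit 450588) (nat_lit 10) (.e (nat_lit 573469) (nat_lit 11) (.e (nat_lit 16392) (nat_lit 0) (.e (nat_lit 7107) (nat_lit 380) (.e (nat_lit 171776) (nat_lit 84) .nil))))) (.g (nat_lit 0) (.e (nat_lit 342883) (nat_lit 0) .nil) .nil))))))) (.nd (nat_lit 6) (.nd (nat_lit 7) (.nd (nat_lit 8) (.nd (nat_lit 9) 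
(.lf (nat_lit 567337) (.g (nat_lit 1975) (.e (nat_lit 442412) (nat_lit 20) (.e (nat_lit 3390) (nat_lit 210) (.e (nat_lit 639021) (nat_lit 16) (.e (nat_lit 65619) (nat_lit 10) (.e (nat_lit 344160) (nat_lit 37) (.e (nat_lit 647195) (nat_lit 9) (.e (nat_lit 7936) (nat_lit 34) .nil))))))) (.g (nat_lit 1) (.e (nat_lit 335982) (nat_lit 0) .nil) .nil))) 
(.lf (nat_lit 567849) (.g (nat_lit 2489) (.e (nat_lit 450579) (nat_lit 5) (.e (nat_lit 532503) (nat_lit 1) (.e (nat_lit 57687) (nat_lit 156) (.e (nat_lit 163902) (nat_lit 12) (.e (nat_lit 426479) (nat_lit 27) (.e (nat_lit 336432) (nat_lit 30) .nil)))))) (.g (nat_lit 1) (.e (nat_lit 340304) (nat_lit 0) .nil) .nil)))) (.nd (nat_lit 9) 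
(.lf (nat_lit 567593) (.g (nat_lit 2320) (.e (nat_lit 450304) (nat_lit 23) (.e (nat_lit 204846) (nat_lit 24) (.e (nat_lit 319533) (nat_lit 16) (.e (nat_lit 286735) (nat_lit 3) (.e (nat_lit 98371) (nat_lit 28) .nil))))) (.g (nat_lit 0) (.e (nat_lit 337432) (nat_lit 0) .nil) .nil))) 
(.lf (nat_lit 568105) (.g (nat_lit 1288) (.e (nat_lit 450586) (nat_lit 10) (.e (nat_lit 573450) (nat_lit 9) (.e (nat_lit 375) (nat_lit 32) (.e (nat_lit 426173) (nat_lit 7) .nil)))) (.g (nat_lit 0) (.e (nat_lit 342090) (nat_lit 0) .nil) .nil))))) (.nd (nat_lit 8) (.nd (nat_lit 9) 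
(.lf (nat_lit 567465) (.g (nat_lit 2345) (.e (nat_lit 442425) (nat_lit 23) (.e (nat_lit 204845) (nat_lit 24) (.e (nat_lit 319531) (nat_lit 16) (.e (nat_lit 286735) (nat_lit 3) (.e (nat_lit 98371) (nat_lit 28) .nil))))) (.g (nat_lit 1) (.e (nat_lit 336600) (nat_lit 0) .nil) .nil))) 
(.lf (nat_lit 567977) (.g (nat_lit 3279) (.e (nat_lit 450580) (nat_lit 5) (.e (nat_lit 532522) (nat_lit 7) (.e (nat_lit 319531) (nat_lit 16) (.e (nat_lit 286733) (nat_lit 2) (.e (nat_lit 90134) (nat_lit 9) (.e (nat_lit 3019) (nat_lit 187) .nil)))))) (.g (nat_lit 1) (.e (nat_lit 341127) (nat_lit 0) .nil) .nil)))) (.nd (nat_lit 9) 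
(.lf (nat_lit 567721) (.g (nat_lit 761) (.e (nat_lit 450565) (nat_lit 0) (.e (nat_lit 5547) (nat_lit 306) (.e (nat_lit 2628) (nat_lit 164) (.e (nat_lit 172120) (nat_lit 12) .nil)))) (.g (nat_lit 0) (.e (nat_lit 339176) (nat_lit 0) .nil) .nil))) 
(.lf (nat_lit 568233) (.g (nat_lit 2740) (.e (nat_lit 450587) (nat_lit 10) (.e (nat_lit 573471) (nat_lit 11) (.e (nat_lit 16425) (nat_lit 7) (.e (nat_lit 409614) (nat_lit 10) .nil)))) (.g (nat_lit 0) (.e (nat_lit 342652) (nat_lit 0) .nil) .nil)))))) (.nd (nat_lit 7) (.nd (nat_lit 8) (.nd (nat_lit 9) 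
(.lf (nat_lit 567401) (.g (nat_lit 2444) (.e (nat_lit 442421) (nat_lit 21) (.e (nat_lit 164326) (nat_lit 230) (.e (nat_lit 163879) (nat_lit 4) (.e (nat_lit 213032) (nat_lit 11) (.e (nat_lit 24629) (nat_lit 9) (.e (nat_lit 336431) (nat_lit 29) .nil)))))) (.g (nat_lit 1) (.e (nat_lit 336227) (nat_lit 0) .nil) .nil))) 
(.lf (nat_lit 567913) (.g (nat_lit 2189) (.e (nat_lit 450579) (nat_lit 5) (.e (nat_lit 532530) (nat_lit 9) (.e (nat_lit 336240) (nat_lit 15) (.e (nat_lit 3605) (nat_lit 225) (.e (nat_lit 761899) (nat_lit 15) (.e (nat_lit 163959) (nat_lit 24) (.e (nat_lit 524320) (nat_lit 12) .nil))))))) (.g (nat_lit 1) (.e (nat_lit 340478) (nat_lit 0) .nil) .nil)))) (.nd (nat_lit 9) 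
(.lf (nat_lit 567657) (.g (nat_lit 3572) (.e (nat_lit 442430) (nat_lit 24) (.e (nat_lit 229678) (nat_lit 244) (.e (nat_lit 163896) (nat_lit 10) (.e (nat_lit 409602) (nat_lit 0) (.e (nat_lit 5293) (nat_lit 298) (.e (nat_lit 1423) (nat_lit 108) (.e (nat_lit 336431) (nat_lit 29) .nil))))))) (.g (nat_lit 1) (.e (nat_lit 337783) (nat_lit 0) .nil) .nil))) 
(.lf (nat_lit 568169) (.g (nat_lit 3194) (.e (nat_lit 450586) (nat_lit 10) (.e (nat_lit 573471) (nat_lit 11) (.e (nat_lit 16473) (nat_lit 14) (.e (nat_lit 491578) (nat_lit 15) .nil)))) (.g (nat_lit 0) (.e (nat_lit 342353) (nat_lit 0) .nil) .nil))))) (.nd (nat_lit 8) (.nd (nat_lit 9) 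
(.lf (nat_lit 567529) (.g (nat_lit 785) (.e (nat_lit 442427) (nat_lit 23) (.e (nat_lit 204830) (nat_lit 18) (.e (nat_lit 57665) (nat_lit 152) (.e (nat_lit 2466) (nat_lit 157) .nil)))) (.g (nat_lit 0) (.e (nat_lit 337048) (nat_lit 0) .nil) .nil))) 
(.lf (nat_lit 568041) (.g (nat_lit 3276) (.e (nat_lit 450581) (nat_lit 5) (.e (nat_lit 532523) (nat_lit 7) (.e (nat_lit 319531) (nat_lit 16) (.e (nat_lit 286733) (nat_lit 2) (.e (nat_lit 90134) (nat_lit 9) (.e (nat_lit 3009) (nat_lit 187) .nil)))))) (.g (nat_lit 1) (.e (nat_lit 341633) (nat_lit 0) .nil) .nil)))) (.nd (nat_lit 9) 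
(.lf (nat_lit 567785) (.g (nat_lit 1361) (.e (nat_lit 458496) (nat_lit 0) (.e (nat_lit 5586) (nat_lit 310) (.e (nat_lit 163903) (nat_lit 12) (.e (nat_lit 426320) (nat_lit 12) .nil)))) (.g (nat_lit 0) (.e (nat_lit 339752) (nat_lit 0) .nil) .nil))) 
(.lf (nat_lit 568297) (.g (nat_lit 4212) (.e (nat_lit 450588) (nat_lit 10) (.e (nat_lit 573473) (nat_lit 12) (.e (nat_lit 57507) (nat_lit 39) (.e (nat_lit 647201) (nat_lit 12) (.e (nat_lit 57574) (nat_lit 55) (.e (nat_lit 778455) (nat_lit 10) (.e (nat_lit 8356) (nat_lit 88) (.e (nat_lit 712755) (nat_lit 30) .nil)))))))) (.g (nat_lit 1) (.e (nat_lit 343033) (nat_lit 0) .nil) .nil)))))))) 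
(.nd (nat_lit 5) (.nd (nat_lit 6) (.nd (nat_lit 7) (.nd (nat_lit 8) (.nd (nat_lit 9) 
(.lf (nat_lit 567321) (.g (nat_lit 1293) (.e (nat_lit 442412) (nat_lit 20) (.e (nat_lit 3271) (nat_lit 199) (.e (nat_lit 548913) (nat_lit 18) (.e (nat_lit 172125) (nat_lit 14) (.e (nat_lit 491524) (nat_lit 0) .nil))))) (.g (nat_lit 0) (.e (nat_lit 335942) (nat_lit 0) .nil) .nil))) 
(.lf (nat_lit 567833) (.g (nat_lit 1783) (.e (nat_lit 450579) (nat_lit 5) (.e (nat_lit 532501) (nat_lit 1) (.e (nat_lit 57662) (nat_lit 152) (.e (nat_lit 2630) (nat_lit 164) (.e (nat_lit 172049) (nat_lit 0) (.e (nat_lit 7936) (nat_lit 219) (.e (nat_lit 712753) (nat_lit 30) .nil))))))) (.g (nat_lit 1) (.e (nat_lit 340218) (nat_lit 0) .nil) .nil)))) (.nd (nat_lit 9) 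
(.lf (nat_lit 567577) (.g (nat_lit 2165) (.e (nat_lit 450304) (nat_lit 23) (.e (nat_lit 204845) (nat_lit 24) (.e (nat_lit 319530) (nat_lit 16) (.e (nat_lit 286735) (nat_lit 3) (.e (nat_lit 98371) (nat_lit 28) .nil))))) (.g (nat_lit 0) (.e (nat_lit 337415) (nat_lit 0) .nil) .nil))) 
(.lf (nat_lit 568089) (.g (nat_lit 3488) (.e (nat_lit 450583) (nat_lit 7) (.e (nat_lit 548913) (nat_lit 18) (.e (nat_lit 172126) (nat_lit 14) (.e (nat_lit 491539) (nat_lit 3) (.e (nat_lit 98373) (nat_lit 29) .nil))))) (.g (nat_lit 1) (.e (nat_lit 341982) (nat_lit 0) .nil) .nil))))) (.nd (nat_lit 8) (.nd (nat_lit 9) 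
(.lf (nat_lit 567449) (.g (nat_lit 886) (.e (nat_lit 442424) (nat_lit 22) (.e (nat_lit 196656) (nat_lit 11) (.e (nat_lit 24320) (nat_lit 20) .nil))) (.g (nat_lit 0) (.e (nat_lit 336437) (nat_lit 0) .nil) .nil))) 
(.lf (nat_lit 567961) (.g (nat_lit 2220) (.e (nat_lit 450580) (nat_lit 5) (.e (nat_lit 532503) (nat_lit 1) (.e (nat_lit 57687) (nat_lit 156) (.e (nat_lit 163905) (nat_lit 12) (.e (nat_lit 426479) (nat_lit 27) .nil))))) (.g (nat_lit 0) (.e (nat_lit 341091) (nat_lit 0) .nil) .nil)))) (.nd (nat_lit 9) 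
(.lf (nat_lit 567705) (.g (nat_lit 3945) (.e (nat_lit 450564) (nat_lit 0) (.e (nat_lit 5548) (nat_lit 306) (.e (nat_lit 2619) (nat_lit 164) (.e (nat_lit 172124) (nat_lit 14) (.e (nat_lit 491549) (nat_lit 9) (.e (nat_lit 336434) (nat_lit 30) .nil)))))) (.g (nat_lit 1) (.e (nat_lit 338992) (nat_lit 0) .nil) .nil))) 
(.lf (nat_lit 568217) (.g (nat_lit 1174) (.e (nat_lit 450586) (nat_lit 10) (.e (nat_lit 573477) (nat_lit 12) (.e (nat_lit 57575) (nat_lit 55) (.e (nat_lit 778464) (nat_lit 11) .nil)))) (.g (nat_lit 0) (.e (nat_lit 342536) (nat_lit 0) .nil) .nil)))))) (.nd (nat_lit 7) (.nd (nat_lit 8) (.nd (nat_lit 9) 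
(.lf (nat_lit 567385) (.g (nat_lit 1141) (.e (nat_lit 442419) (nat_lit 21) (.e (nat_lit 164348) (nat_lit 240) (.e (nat_lit 2648) (nat_lit 166) (.e (nat_lit 188418) (nat_lit 0) .nil)))) (.g (nat_lit 0) (.e (nat_lit 336140) (nat_lit 0) .nil) .nil))) 
(.lf (nat_lit 567897) (.g (nat_lit 2767) (.e (nat_lit 450579) (nat_lit 5) (.e (nat_lit 532523) (nat_lit 7) (.e (nat_lit 319533) (nat_lit 16) (.e (nat_lit 286727) (nat_lit 0) (.e (nat_lit 1809) (nat_lit 120) .nil))))) (.g (nat_lit 0) (.e (nat_lit 340432) (nat_lit 0) .nil) .nil)))) (.nd (nat_lit 9) 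
(.lf (nat_lit 567641) (.g (nat_lit 3304) (.e (nat_lit 442430) (nat_lit 24) (.e (nat_lit 229664) (nat_lit 240) (.e (nat_lit 2630) (nat_lit 164) (.e (nat_lit 172126) (nat_lit 14) (.e (nat_lit 491549) (nat_lit 9) (.e (nat_lit 336426) (nat_lit 29) .nil)))))) (.g (nat_lit 1) (.e (nat_lit 337668) (nat_lit 0) .nil) .nil))) 
(.lf (nat_lit 568153) (.g (nat_lit 2405) (.e (nat_lit 450586) (nat_lit 10) (.e (nat_lit 573471) (nat_lit 11) (.e (nat_lit 16469) (nat_lit 14) (.e (nat_lit 491530) (nat_lit 0) .nil)))) (.g (nat_lit 0) (.e (nat_lit 342324) (nat_lit 0) .nil) .nil))))) (.nd (nat_lit 8) (.nd (nat_lit 9) 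
(.lf (nat_lit 567513) (.g (nat_lit 1205) (.e (nat_lit 442426) (nat_lit 23) (.e (nat_lit 204846) (nat_lit 24) (.e (nat_lit 319533) (nat_lit 16) (.e (nat_lit 294656) (nat_lit 3) .nil)))) (.g (nat_lit 0) (.e (nat_lit 336899) (nat_lit 0) .nil) .nil))) 
(.lf (nat_lit 568025) (.g (nat_lit 2669) (.e (nat_lit 450580) (nat_lit 5) (.e (nat_lit 532583) (nat_lit 26) (.e (nat_lit 426100) (nat_lit 1) (.e (nat_lit 164403) (nat_lit 256) (.e (nat_lit 57409) (nat_lit 12) .nil))))) (.g (nat_lit 0) (.e (nat_lit 341581) (nat_lit 0) .nil) .nil)))) (.nd (nat_lit 9) 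
(.lf (nat_lit 567769) (.g (nat_lit 1465) (.e (nat_lit 458496) (nat_lit 0) (.e (nat_lit 5546) (nat_lit 306) (.e (nat_lit 2640) (nat_lit 165) (.e (nat_lit 180278) (nat_lit 32) (.e (nat_lit 1426) (nat_lit 108) .nil))))) (.g (nat_lit 0) (.e (nat_lit 339656) (nat_lit 0) .nil) .nil))) 
(.lf (nat_lit 568281) (.g (nat_lit 2426) (.e (nat_lit 450588) (nat_lit 10) (.e (nat_lit 573471) (nat_lit 11) (.e (nat_lit 16469) (nat_lit 14) (.e (nat_lit 491530) (nat_lit 0) .nil)))) (.g (nat_lit 0) (.e (nat_lit 342993) (nat_lit 0) .nil) .nil))))))) (.nd (nat_lit 6) (.nd (nat_lit 7) (.nd (nat_lit 8) (.nd (nat_lit 9) 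
(.lf (nat_lit 567353) (.g (nat_lit 1288) (.e (nat_lit 442419) (nat_lit 21) (.e (nat_lit 164325) (nat_lit 230) (.e (nat_lit 163884) (nat_lit 5) (.e (nat_lit 229120) (nat_lit 13) .nil)))) (.g (nat_lit 0) (.e (nat_lit 336075) (nat_lit 0) .nil) .nil))) 
(.lf (nat_lit 567865) (.g (nat_lit 566) (.e (nat_lit 450579) (nat_lit 5) (.e (nat_lit 532504) (nat_lit 1) (.e (nat_lit 57651) (nat_lit 152) (.e (nat_lit 129) (nat_lit 6) .nil)))) (.g (nat_lit 0) (.e (nat_lit 340342) (nat_lit 0) .nil) .nil)))) (.nd (nat_lit 9) 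
(.lf (nat_lit 567609) (.g (nat_lit 1426) (.e (nat_lit 442428) (nat_lit 24) (.e (nat_lit 229665) (nat_lit 240) (.e (nat_lit 2641) (nat_lit 165) (.e (nat_lit 180277) (nat_lit 32) (.e (nat_lit 1425) (nat_lit 108) .nil))))) (.g (nat_lit 0) (.e (nat_lit 337481) (nat_lit 0) .nil) .nil))) 
(.lf (nat_lit 568121) (.g (nat_lit 491) (.e (nat_lit 450586) (nat_lit 10) (.e (nat_lit 573469) (nat_lit 11) (.e (nat_lit 16472) (nat_lit 14) .nil))) (.g (nat_lit 0) (.e (nat_lit 342185) (nat_lit 0) .nil) .nil))))) (.nd (nat_lit 8) (.nd (nat_lit 9) 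
(.lf (nat_lit 567481) (.g (nat_lit 2770) (.e (nat_lit 442425) (nat_lit 23) (.e (nat_lit 204846) (nat_lit 24) (.e (nat_lit 319534) (nat_lit 16) (.e (nat_lit 286734) (nat_lit 3) (.e (nat_lit 98371) (nat_lit 28) .nil))))) (.g (nat_lit 0) (.e (nat_lit 336652) (nat_lit 0) .nil) .nil))) 
(.lf (nat_lit 567993) (.g (nat_lit 2933) (.e (nat_lit 450580) (nat_lit 5) (.e (nat_lit 532523) (nat_lit 7) (.e (nat_lit 319528) (nat_lit 16) (.e (nat_lit 286733) (nat_lit 2) (.e (nat_lit 90134) (nat_lit 9) (.e (nat_lit 3009) (nat_lit 187) .nil)))))) (.g (nat_lit 1) (.e (nat_lit 341146) (nat_lit 0) .nil) .nil)))) (.nd (nat_lit 9) 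
(.lf (nat_lit 567737) (.g (nat_lit 1103) (.e (nat_lit 450568) (nat_lit 0) (.e (nat_lit 5598) (nat_lit 310) (.e (nat_lit 163915) (nat_lit 12) (.e (nat_lit 426315) (nat_lit 12) (.e (nat_lit 475207) (nat_lit 41) .nil))))) (.g (nat_lit 0) (.e (nat_lit 339465) (nat_lit 0) .nil) .nil))) 
(.lf (nat_lit 568249) (.g (nat_lit 924) (.e (nat_lit 450587) (nat_lit 10) (.e (nat_lit 573477) (nat_lit 12) (.e (nat_lit 57574) (nat_lit 55) (.e (nat_lit 778466) (nat_lit 11) .nil)))) (.g (nat_lit 0) (.e (nat_lit 342732) (nat_lit 0) .nil) .nil)))))) (.nd (nat_lit 7) (.nd (nat_lit 8) (.nd (nat_lit 9) 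
(.lf (nat_lit 567417) (.g (nat_lit 2011) (.e (nat_lit 442421) (nat_lit 21) (.e (nat_lit 164319) (nat_lit 228) (.e (nat_lit 57412) (nat_lit 12) (.e (nat_lit 336176) (nat_lit 10) (.e (nat_lit 344164) (nat_lit 37) (.e (nat_lit 647190) (nat_lit 9) (.e (nat_lit 7936) (nat_lit 34) .nil))))))) (.g (nat_lit 1) (.e (nat_lit 336251) (nat_lit 0) .nil) .nil))) 
(.lf (nat_lit 567929) (.g (nat_lit 4613) (.e (nat_lit 450579) (nat_lit 5) (.e (nat_lit 532569) (nat_lit 16) (.e (nat_lit 401448) (nat_lit 10) (.e (nat_lit 434238) (nat_lit 25) (.e (nat_lit 548898) (nat_lit 14) (.e (nat_lit 3027) (nat_lit 187) .nil)))))) (.g (nat_lit 1) (.e (nat_lit 340911) (nat_lit 0) .nil) .nil)))) (.nd (nat_lit 9) 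
(.lf (nat_lit 567673) (.g (nat_lit 927) (.e (nat_lit 450561) (nat_lit 0) (.e (nat_lit 5537) (nat_lit 306) (.e (nat_lit 2629) (nat_lit 164) (.e (nat_lit 172126) (nat_lit 14) .nil)))) (.g (nat_lit 0) (.e (nat_lit 338134) (nat_lit 0) .nil) .nil))) 
(.lf (nat_lit 568185) (.g (nat_lit 909) (.e (nat_lit 450586) (nat_lit 10) (.e (nat_lit 573474) (nat_lit 12) (.e (nat_lit 57513) (nat_lit 40) .nil))) (.g (nat_lit 0) (.e (nat_lit 342424) (nat_lit 0) .nil) .nil))))) (.nd (nat_lit 8) (.nd (nat_lit 9) 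
(.lf (nat_lit 567545) (.g (nat_lit 1419) (.e (nat_lit 442427) (nat_lit 23) (.e (nat_lit 204845) (nat_lit 24) (.e (nat_lit 319530) (nat_lit 16) (.e (nat_lit 286722) (nat_lit 0) .nil)))) (.g (nat_lit 0) (.e (nat_lit 337095) (nat_lit 0) .nil) .nil))) 
(.lf (nat_lit 568057) (.g (nat_lit 2723) (.e (nat_lit 458496) (nat_lit 5) (.e (nat_lit 532522) (nat_lit 7) (.e (nat_lit 319531) (nat_lit 16) (.e (nat_lit 286733) (nat_lit 2) (.e (nat_lit 90134) (nat_lit 9) .nil))))) (.g (nat_lit 0) (.e (nat_lit 341675) (nat_lit 0) .nil) .nil)))) (.nd (nat_lit 9) 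
(.lf (nat_lit 567801) (.g (nat_lit 3381) (.e (nat_lit 450578) (nat_lit 5) (.e (nat_lit 532523) (nat_lit 7) (.e (nat_lit 319530) (nat_lit 16) (.e (nat_lit 286733) (nat_lit 2) (.e (nat_lit 90134) (nat_lit 9) (.e (nat_lit 3025) (nat_lit 187) .nil)))))) (.g (nat_lit 1) (.e (nat_lit 340052) (nat_lit 0) .nil) .nil))) 
(.lf (nat_lit 568313) (.g (nat_lit 960) (.e (nat_lit 450588) (nat_lit 10) (.e (nat_lit 573474) (nat_lit 12) (.e (nat_lit 57506) (nat_lit 39) .nil))) (.g (nat_lit 0) (.e (nat_lit 343109) (nat_lit 0) .nil) .nil)))))))))) (.nd (nat_lit 3) (.nd (nat_lit 4) (.nd (nat_lit 5) (.nd (nat_lit 6) (.nd (nat_lit 7) (.nd (nat_lit 8) (.nd (nat_lit 9) 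
(.lf (nat_lit 567301) (.g (nat_lit 2840) (.e (nat_lit 442411) (nat_lit 20) (.e (nat_lit 3272) (nat_lit 199) (.e (nat_lit 548913) (nat_lit 18) (.e (nat_lit 172126) (nat_lit 14) (.e (nat_lit 491538) (nat_lit 3) .nil))))) (.g (nat_lit 0) (.e (nat_lit 335904) (nat_lit 0) .nil) .nil))) 
(.lf (nat_lit 567813) (.g (nat_lit 457) (.e (nat_lit 450579) (nat_lit 5) (.e (nat_lit 532499) (nat_lit 1) (.e (nat_lit 57657) (nat_lit 152) .nil))) (.g (nat_lit 0) (.e (nat_lit 340143) (nat_lit 0) .nil) .nil)))) (.nd (nat_lit 9) 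
(.lf (nat_lit 567557) (.g (nat_lit 933) (.e (nat_lit 442427) (nat_lit 23) (.e (nat_lit 204846) (nat_lit 24) (.e (nat_lit 319504) (nat_lit 10) (.e (nat_lit 7936) (nat_lit 298) .nil)))) (.g (nat_lit 0) (.e (nat_lit 337133) (nat_lit 0) .nil) .nil))) 
(.lf (nat_lit 568069) (.g (nat_lit 753) (.e (nat_lit 458496) (nat_lit 3) (.e (nat_lit 516106) (nat_lit 0) (.e (nat_lit 3535) (nat_lit 218) .nil))) (.g (nat_lit 0) (.e (nat_lit 341702) (nat_lit 0) .nil) .nil))))) (.nd (nat_lit 8) (.nd (nat_lit 9) 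
(.lf (nat_lit 567429) (.g (nat_lit 658) (.e (nat_lit 442421) (nat_lit 21) (.e (nat_lit 164346) (nat_lit 240) (.e (nat_lit 2640) (nat_lit 165) (.e (nat_lit 180275) (nat_lit 32) .nil)))) (.g (nat_lit 0) (.e (nat_lit 336271) (nat_lit 0) .nil) .nil))) 
(.lf (nat_lit 567941) (.g (nat_lit 1505) (.e (nat_lit 450579) (nat_lit 5) (.e (nat_lit 532583) (nat_lit 26) (.e (nat_lit 426100) (nat_lit 1) (.e (nat_lit 164398) (nat_lit 256) .nil)))) (.g (nat_lit 0) (.e (nat_lit 340950) (nat_lit 0) .nil) .nil)))) (.nd (nat_lit 9) 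
(.lf (nat_lit 567685) (.g (nat_lit 422) (.e (nat_lit 450563) (nat_lit 0) (.e (nat_lit 6830) (nat_lit 367) (.e (nat_lit 57427) (nat_lit 15) .nil))) (.g (nat_lit 0) (.e (nat_lit 338921) (nat_lit 0) .nil) .nil))) 
(.lf (nat_lit 568197) (.g (nat_lit 1316) (.e (nat_lit 450586) (nat_lit 10) (.e (nat_lit 573475) (nat_lit 12) (.e (nat_lit 57503) (nat_lit 38) (.e (nat_lit 638985) (nat_lit 5) .nil)))) (.g (nat_lit 0) (.e (nat_lit 342459) (nat_lit 0) .nil) .nil)))))) (.nd (nat_lit 7) (.nd (nat_lit 8) (.nd (nat_lit 9) 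
(.lf (nat_lit 567365) (.g (nat_lit 2875) (.e (nat_lit 442419) (nat_lit 21) (.e (nat_lit 164347) (nat_lit 240) (.e (nat_lit 2619) (nat_lit 164) (.e (nat_lit 172126) (nat_lit 14) (.e (nat_lit 491550) (nat_lit 9) (.e (nat_lit 336430) (nat_lit 29) .nil)))))) (.g (nat_lit 1) (.e (nat_lit 336100) (nat_lit 0) .nil) .nil))) 
(.lf (nat_lit 567877) (.g (nat_lit 2808) (.e (nat_lit 450579) (nat_lit 5) (.e (nat_lit 532504) (nat_lit 1) (.e (nat_lit 57691) (nat_lit 156) (.e (nat_lit 163905) (nat_lit 12) (.e (nat_lit 426479) (nat_lit 27) (.e (nat_lit 336432) (nat_lit 30) .nil)))))) (.g (nat_lit 1) (.e (nat_lit 340384) (nat_lit 0) .nil) .nil)))) (.nd (nat_lit 9) 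
(.lf (nat_lit 567621) (.g (nat_lit 2017) (.e (nat_lit 442429) (nat_lit 24) (.e (nat_lit 229663) (nat_lit 240) (.e (nat_lit 2630) (nat_lit 164) (.e (nat_lit 172124) (nat_lit 14) .nil)))) (.g (nat_lit 0) (.e (nat_lit 337543) (nat_lit 0) .nil) .nil))) 
(.lf (nat_lit 568133) (.g (nat_lit 1380) (.e (nat_lit 450586) (nat_lit 10) (.e (nat_lit 573471) (nat_lit 11) (.e (nat_lit 16388) (nat_lit 0) (.e (nat_lit 7936) (nat_lit 402) .nil)))) (.g (nat_lit 0) (.e (nat_lit 342200) (nat_lit 0) .nil) .nil))))) (.nd (nat_lit 8) (.nd (nat_lit 9) 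
(.lf (nat_lit 567493) (.g (nat_lit 2770) (.e (nat_lit 442426) (nat_lit 23) (.e (nat_lit 204845) (nat_lit 24) (.e (nat_lit 319531) (nat_lit 16) (.e (nat_lit 286735) (nat_lit 3) (.e (nat_lit 98369) (nat_lit 28) .nil))))) (.g (nat_lit 0) (.e (nat_lit 336858) (nat_lit 0) .nil) .nil))) 
(.lf (nat_lit 568005) (.g (nat_lit 1032) (.e (nat_lit 450580) (nat_lit 5) (.e (nat_lit 532523) (nat_lit 7) (.e (nat_lit 319534) (nat_lit 16) (.e (nat_lit 286728) (nat_lit 0) .nil)))) (.g (nat_lit 0) (.e (nat_lit 341204) (nat_lit 0) .nil) .nil)))) (.nd (nat_lit 9) 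
(.lf (nat_lit 567749) (.g (nat_lit 1262) (.e (nat_lit 458496) (nat_lit 0) (.e (nat_lit 5195) (nat_lit 294) (.e (nat_lit 57437) (nat_lit 17) (.e (nat_lit 376855) (nat_lit 20) .nil)))) (.g (nat_lit 0) (.e (nat_lit 339595) (nat_lit 0) .nil) .nil))) 
(.lf (nat_lit 568261) (.g (nat_lit 1909) (.e (nat_lit 450587) (nat_lit 10) (.e (nat_lit 573478) (nat_lit 12) (.e (nat_lit 57574) (nat_lit 55) (.e (nat_lit 778466) (nat_lit 11) (.e (nat_lit 24577) (nat_lit 0) .nil))))) (.g (nat_lit 0) (.e (nat_lit 342799) (nat_lit 0) .nil) .nil))))))) (.nd (nat_lit 6) (.nd (nat_lit 7) (.nd (nat_lit 8) (.nd (nat_lit 9) 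
(.lf (nat_lit 567333) (.g (nat_lit 2302) (.e (nat_lit 442412) (nat_lit 20) (.e (nat_lit 3390) (nat_lit 210) (.e (nat_lit 639021) (nat_lit 16) (.e (nat_lit 65610) (nat_lit 10) (.e (nat_lit 344160) (nat_lit 37) (.e (nat_lit 647190) (nat_lit 9) (.e (nat_lit 7936) (nat_lit 34) .nil))))))) (.g (nat_lit 1) (.e (nat_lit 335978) (nat_lit 0) .nil) .nil))) 
(.lf (nat_lit 567845) (.g (nat_lit 2228) (.e (nat_lit 450579) (nat_lit 5) (.e (nat_lit 532503) (nat_lit 1) (.e (nat_lit 57685) (nat_lit 156) (.e (nat_lit 163903) (nat_lit 12) (.e (nat_lit 426479) (nat_lit 27) (.e (nat_lit 336432) (nat_lit 30) .nil)))))) (.g (nat_lit 1) (.e (nat_lit 340294) (nat_lit 0) .nil) .nil)))) (.nd (nat_lit 9) 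
(.lf (nat_lit 567589) (.g (nat_lit 1988) (.e (nat_lit 450304) (nat_lit 23) (.e (nat_lit 204846) (nat_lit 24) (.e (nat_lit 319532) (nat_lit 16) (.e (nat_lit 286734) (nat_lit 3) (.e (nat_lit 98369) (nat_lit 28) .nil))))) (.g (nat_lit 0) (.e (nat_lit 337428) (nat_lit 0) .nil) .nil))) 
(.lf (nat_lit 568101) (.g (nat_lit 2296) (.e (nat_lit 450585) (nat_lit 10) (.e (nat_lit 573471) (nat_lit 11) (.e (nat_lit 16425) (nat_lit 7) (.e (nat_lit 409623) (nat_lit 10) .nil)))) (.g (nat_lit 0) (.e (nat_lit 342054) (nat_lit 0) .nil) .nil))))) (.nd (nat_lit 8) (.nd (nat_lit 9) 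
(.lf (nat_lit 567461) (.g (nat_lit 2786) (.e (nat_lit 442425) (nat_lit 23) (.e (nat_lit 204831) (nat_lit 18) (.e (nat_lit 57691) (nat_lit 156) (.e (nat_lit 163905) (nat_lit 12) (.e (nat_lit 426479) (nat_lit 27) (.e (nat_lit 336430) (nat_lit 29) .nil)))))) (.g (nat_lit 1) (.e (nat_lit 336577) (nat_lit 0) .nil) .nil))) 
(.lf (nat_lit 567973) (.g (nat_lit 1294) (.e (nat_lit 450580) (nat_lit 5) (.e (nat_lit 532522) (nat_lit 7) (.e (nat_lit 319531) (nat_lit 16) (.e (nat_lit 286733) (nat_lit 2) .nil)))) (.g (nat_lit 0) (.e (nat_lit 341122) (nat_lit 0) .nil) .nil)))) (.nd (nat_lit 9) 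
(.lf (nat_lit 567717) (.g (nat_lit 1868) (.e (nat_lit 450565) (nat_lit 0) (.e (nat_lit 5546) (nat_lit 306) (.e (nat_lit 2629) (nat_lit 164) (.e (nat_lit 172124) (nat_lit 14) (.e (nat_lit 491550) (nat_lit 9) .nil))))) (.g (nat_lit 0) (.e (nat_lit 339160) (nat_lit 0) .nil) .nil))) 
(.lf (nat_lit 568229) (.g (nat_lit 1112) (.e (nat_lit 450587) (nat_lit 10) (.e (nat_lit 573470) (nat_lit 11) (.e (nat_lit 16473) (nat_lit 14) (.e (nat_lit 491538) (nat_lit 3) .nil)))) (.g (nat_lit 0) (.e (nat_lit 342648) (nat_lit 0) .nil) .nil)))))) (.nd (nat_lit 7) (.nd (nat_lit 8) (.nd (nat_lit 9) 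
(.lf (nat_lit 567397) (.g (nat_lit 1219) (.e (nat_lit 442421) (nat_lit 21) (.e (nat_lit 164324) (nat_lit 230) (.e (nat_lit 163885) (nat_lit 5) (.e (nat_lit 229120) (nat_lit 13) .nil)))) (.g (nat_lit 0) (.e (nat_lit 336222) (nat_lit 0) .nil) .nil))) 
(.lf (nat_lit 567909) (.g (nat_lit 3644) (.e (nat_lit 450579) (nat_lit 5) (.e (nat_lit 532523) (nat_lit 7) (.e (nat_lit 319534) (nat_lit 16) (.e (nat_lit 286733) (nat_lit 2) (.e (nat_lit 90134) (nat_lit 9) (.e (nat_lit 3025) (nat_lit 187) .nil)))))) (.g (nat_lit 1) (.e (nat_lit 340448) (nat_lit 0) .nil) .nil)))) (.nd (nat_lit 9) 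
(.lf (nat_lit 567653) (.g (nat_lit 853) (.e (nat_lit 442430) (nat_lit 24) (.e (nat_lit 229665) (nat_lit 240) (.e (nat_lit 2725) (nat_lit 172) (.e (nat_lit 237617) (nat_lit 12) .nil)))) (.g (nat_lit 0) (.e (nat_lit 337755) (nat_lit 0) .nil) .nil))) 
(.lf (nat_lit 568165) (.g (nat_lit 3169) (.e (nat_lit 450586) (nat_lit 10) (.e (nat_lit 573471) (nat_lit 11) (.e (nat_lit 16473) (nat_lit 14) (.e (nat_lit 491527) (nat_lit 0) .nil)))) (.g (nat_lit 0) (.e (nat_lit 342347) (nat_lit 0) .nil) .nil))))) (.nd (nat_lit 8) (.nd (nat_lit 9) 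
(.lf (nat_lit 567525) (.g (nat_lit 1572) (.e (nat_lit 442427) (nat_lit 23) (.e (nat_lit 204829) (nat_lit 18) (.e (nat_lit 57691) (nat_lit 156) (.e (nat_lit 163906) (nat_lit 12) (.e (nat_lit 426479) (nat_lit 27) .nil))))) (.g (nat_lit 0) (.e (nat_lit 337032) (nat_lit 0) .nil) .nil))) 
(.lf (nat_lit 568037) (.g (nat_lit 3052) (.e (nat_lit 450581) (nat_lit 5) (.e (nat_lit 532523) (nat_lit 7) (.e (nat_lit 319528) (nat_lit 16) (.e (nat_lit 286733) (nat_lit 2) (.e (nat_lit 90134) (nat_lit 9) (.e (nat_lit 3025) (nat_lit 187) .nil)))))) (.g (nat_lit 1) (.e (nat_lit 341625) (nat_lit 0) .nil) .nil)))) (.nd (nat_lit 9) 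
(.lf (nat_lit 567781) (.g (nat_lit 1212) (.e (nat_lit 458496) (nat_lit 0) (.e (nat_lit 5548) (nat_lit 306) (.e (nat_lit 2648) (nat_lit 166) (.e (nat_lit 188418) (nat_lit 0) (.e (nat_lit 2174) (nat_lit 143) .nil))))) (.g (nat_lit 0) (.e (nat_lit 339729) (nat_lit 0) .nil) .nil))) 
(.lf (nat_lit 568293) (.g (nat_lit 1508) (.e (nat_lit 450588) (nat_lit 10) (.e (nat_lit 573471) (nat_lit 11) (.e (nat_lit 16471) (nat_lit 14) (.e (nat_lit 499456) (nat_lit 3) .nil)))) (.g (nat_lit 0) (.e (nat_lit 343017) (nat_lit 0) .nil) .nil)))))))) (.nd (nat_lit 5) (.nd (nat_lit 6) (.nd (nat_lit 7) (.nd (nat_lit 8) (.nd (nat_lit 9) 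
(.lf (nat_lit 567317) (.g (nat_lit 1315) (.e (nat_lit 442411) (nat_lit 20) (.e (nat_lit 3469) (nat_lit 217) (.e (nat_lit 696344) (nat_lit 8) (.e (nat_lit 172115) (nat_lit 10) .nil)))) (.g (nat_lit 0) (.e (nat_lit 335932) (nat_lit 0) .nil) .nil))) 
(.lf (nat_lit 567829) (.g (nat_lit 2312) (.e (nat_lit 450579) (nat_lit 5) (.e (nat_lit 532499) (nat_lit 1) (.e (nat_lit 57691) (nat_lit 156) (.e (nat_lit 163907) (nat_lit 12) (.e (nat_lit 426479) (nat_lit 27) (.e (nat_lit 336432) (nat_lit 30) .nil)))))) (.g (nat_lit 1) (.e (nat_lit 340188) (nat_lit 0) .nil) .nil)))) (.nd (nat_lit 9) 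
(.lf (nat_lit 567573) (.g (nat_lit 630) (.e (nat_lit 442427) (nat_lit 23) (.e (nat_lit 204863) (nat_lit 27) (.e (nat_lit 344161) (nat_lit 37) .nil))) (.g (nat_lit 0) (.e (nat_lit 337294) (nat_lit 0) .nil) .nil))) 
(.lf (nat_lit 568085) (.g (nat_lit 889) (.e (nat_lit 450583) (nat_lit 7) (.e (nat_lit 548913) (nat_lit 18) (.e (nat_lit 172082) (nat_lit 7) (.e (nat_lit 409612) (nat_lit 10) .nil)))) (.g (nat_lit 0) (.e (nat_lit 341935) (nat_lit 0) .nil) .nil))))) (.nd (nat_lit 8) (.nd (nat_lit 9) 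
(.lf (nat_lit 567445) (.g (nat_lit 2523) (.e (nat_lit 442424) (nat_lit 22) (.e (nat_lit 204544) (nat_lit 3) (.e (nat_lit 163843) (nat_lit 0) (.e (nat_lit 6421) (nat_lit 341) (.e (nat_lit 163941) (nat_lit 19) (.e (nat_lit 491264) (nat_lit 11) .nil)))))) (.g (nat_lit 1) (.e (nat_lit 336394) (nat_lit 0) .nil) .nil))) 
(.lf (nat_lit 567957) (.g (nat_lit 1854) (.e (nat_lit 450580) (nat_lit 5) (.e (nat_lit 532502) (nat_lit 1) (.e (nat_lit 57688) (nat_lit 156) (.e (nat_lit 163902) (nat_lit 12) (.e (nat_lit 426479) (nat_lit 27) .nil))))) (.g (nat_lit 0) (.e (nat_lit 341080) (nat_lit 0) .nil) .nil)))) (.nd (nat_lit 9) 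
(.lf (nat_lit 567701) (.g (nat_lit 2325) (.e (nat_lit 450564) (nat_lit 0) (.e (nat_lit 5547) (nat_lit 306) (.e (nat_lit 2628) (nat_lit 164) (.e (nat_lit 172120) (nat_lit 12) (.e (nat_lit 475210) (nat_lit 41) (.e (nat_lit 712753) (nat_lit 30) .nil)))))) (.g (nat_lit 1) (.e (nat_lit 338971) (nat_lit 0) .nil) .nil))) 
(.lf (nat_lit 568213) (.g (nat_lit 732) (.e (nat_lit 450586) (nat_lit 10) (.e (nat_lit 573477) (nat_lit 12) (.e (nat_lit 57574) (nat_lit 55) (.e (nat_lit 778466) (nat_lit 11) .nil)))) (.g (nat_lit 0) (.e (nat_lit 342521) (nat_lit 0) .nil) .nil)))))) (.nd (nat_lit 7) (.nd (nat_lit 8) (.nd (nat_lit 9) 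
(.lf (nat_lit 567381) (.g (nat_lit 4315) (.e (nat_lit 442419) (nat_lit 21) (.e (nat_lit 164348) (nat_lit 240) (.e (nat_lit 2638) (nat_lit 165) (.e (nat_lit 180278) (nat_lit 32) (.e (nat_lit 1427) (nat_lit 108) (.e (nat_lit 336430) (nat_lit 29) .nil)))))) (.g (nat_lit 1) (.e (nat_lit 336126) (nat_lit 0) .nil) .nil))) 
(.lf (nat_lit 567893) (.g (nat_lit 4221) (.e (nat_lit 450579) (nat_lit 5) (.e (nat_lit 532523) (nat_lit 7) (.e (nat_lit 319530) (nat_lit 16) (.e (nat_lit 286733) (nat_lit 2) (.e (nat_lit 90134) (nat_lit 9) (.e (nat_lit 3025) (nat_lit 187) .nil)))))) (.g (nat_lit 1) (.e (nat_lit 340421) (nat_lit 0) .nil) .nil)))) (.nd (nat_lit 9) 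
(.lf (nat_lit 567637) (.g (nat_lit 1616) (.e (nat_lit 442430) (nat_lit 24) (.e (nat_lit 229663) (nat_lit 240) (.e (nat_lit 2641) (nat_lit 165) (.e (nat_lit 180278) (nat_lit 32) (.e (nat_lit 1426) (nat_lit 108) (.e (nat_lit 336426) (nat_lit 29) .nil)))))) (.g (nat_lit 1) (.e (nat_lit 337621) (nat_lit 0) .nil) .nil))) 
(.lf (nat_lit 568149) (.g (nat_lit 2683) (.e (nat_lit 450586) (nat_lit 10) (.e (nat_lit 573471) (nat_lit 11) (.e (nat_lit 16425) (nat_lit 7) (.e (nat_lit 409615) (nat_lit 10) .nil)))) (.g (nat_lit 0) (.e (nat_lit 342217) (nat_lit 0) .nil) .nil))))) (.nd (nat_lit 8) (.nd (nat_lit 9) 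
(.lf (nat_lit 567509) (.g (nat_lit 1435) (.e (nat_lit 442426) (nat_lit 23) (.e (nat_lit 204846) (nat_lit 24) (.e (nat_lit 319531) (nat_lit 16) (.e (nat_lit 286727) (nat_lit 0) .nil)))) (.g (nat_lit 0) (.e (nat_lit 336884) (nat_lit 0) .nil) .nil))) 
(.lf (nat_lit 568021) (.g (nat_lit 1685) (.e (nat_lit 450580) (nat_lit 5) (.e (nat_lit 532579) (nat_lit 26) (.e (nat_lit 426108) (nat_lit 1) (.e (nat_lit 164402) (nat_lit 256) .nil)))) (.g (nat_lit 0) (.e (nat_lit 341576) (nat_lit 0) .nil) .nil)))) (.nd (nat_lit 9) 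
(.lf (nat_lit 567765) (.g (nat_lit 453) (.e (nat_lit 458496) (nat_lit 0) (.e (nat_lit 5546) (nat_lit 306) (.e (nat_lit 2640) (nat_lit 165) .nil))) (.g (nat_lit 0) (.e (nat_lit 339652) (nat_lit 0) .nil) .nil))) 
(.lf (nat_lit 568277) (.g (nat_lit 462) (.e (nat_lit 450588) (nat_lit 10) (.e (nat_lit 573471) (nat_lit 11) (.e (nat_lit 16424) (nat_lit 7) .nil))) (.g (nat_lit 0) (.e (nat_lit 342916) (nat_lit 0) .nil) .nil))))))) (.nd (nat_lit 6) (.nd (nat_lit 7) (.nd (nat_lit 8) (.nd (nat_lit 9) 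
(.lf (nat_lit 567349) (.g (nat_lit 2100) (.e (nat_lit 450304) (nat_lit 20) (.e (nat_lit 3249) (nat_lit 197) (.e (nat_lit 532523) (nat_lit 7) (.e (nat_lit 319530) (nat_lit 16) (.e (nat_lit 286735) (nat_lit 3) .nil))))) (.g (nat_lit 0) (.e (nat_lit 336032) (nat_lit 0) .nil) .nil))) 
(.lf (nat_lit 567861) (.g (nat_lit 891) (.e (nat_lit 450579) (nat_lit 5) (.e (nat_lit 532503) (nat_lit 1) (.e (nat_lit 57692) (nat_lit 156) (.e (nat_lit 171776) (nat_lit 12) .nil)))) (.g (nat_lit 0) (.e (nat_lit 340333) (nat_lit 0) .nil) .nil)))) (.nd (nat_lit 9) 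
(.lf (nat_lit 567605) (.g (nat_lit 3165) (.e (nat_lit 442428) (nat_lit 24) (.e (nat_lit 229663) (nat_lit 240) (.e (nat_lit 2643) (nat_lit 165) (.e (nat_lit 180277) (nat_lit 32) (.e (nat_lit 1428) (nat_lit 108) (.e (nat_lit 336430) (nat_lit 29) .nil)))))) (.g (nat_lit 1) (.e (nat_lit 337467) (nat_lit 0) .nil) .nil))) 
(.lf (nat_lit 568117) (.g (nat_lit 2918) (.e (nat_lit 450586) (nat_lit 10) (.e (nat_lit 573457) (nat_lit 9) (.e (nat_lit 430) (nat_lit 32) (.e (nat_lit 426012) (nat_lit 0) (.e (nat_lit 7581) (nat_lit 405) (.e (nat_lit 57464) (nat_lit 23) (.e (nat_lit 516165) (nat_lit 12) .nil))))))) (.g (nat_lit 1) (.e (nat_lit 342168) (nat_lit 0) .nil) .nil))))) (.nd (nat_lit 8) (.nd (nat_lit 9) 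
(.lf (nat_lit 567477) (.g (nat_lit 1271) (.e (nat_lit 442425) (nat_lit 23) (.e (nat_lit 204846) (nat_lit 24) (.e (nat_lit 319531) (nat_lit 16) (.e (nat_lit 286734) (nat_lit 3) .nil)))) (.g (nat_lit 0) (.e (nat_lit 336630) (nat_lit 0) .nil) .nil))) 
(.lf (nat_lit 567989) (.g (nat_lit 2058) (.e (nat_lit 450580) (nat_lit 5) (.e (nat_lit 532523) (nat_lit 7) (.e (nat_lit 319506) (nat_lit 10) (.e (nat_lit 5389) (nat_lit 301) .nil)))) (.g (nat_lit 0) (.e (nat_lit 341140) (nat_lit 0) .nil) .nil)))) (.nd (nat_lit 9) 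
(.lf (nat_lit 567733) (.g (nat_lit 2986) (.e (nat_lit 450567) (nat_lit 0) (.e (nat_lit 5443) (nat_lit 306) (.e (nat_lit 2630) (nat_lit 164) (.e (nat_lit 172120) (nat_lit 12) (.e (nat_lit 475211) (nat_lit 41) (.e (nat_lit 712753) (nat_lit 30) .nil)))))) (.g (nat_lit 1) (.e (nat_lit 339409) (nat_lit 0) .nil) .nil))) 
(.lf (nat_lit 568245) (.g (nat_lit 1183) (.e (nat_lit 450587) (nat_lit 10) (.e (nat_lit 573477) (nat_lit 12) (.e (nat_lit 57574) (nat_lit 55) (.e (nat_lit 778465) (nat_lit 11) .nil)))) (.g (nat_lit 0) (.e (nat_lit 342724) (nat_lit 0) .nil) .nil)))))) (.nd (nat_lit 7) (.nd (nat_lit 8) (.nd (nat_lit 9) 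
(.lf (nat_lit 567413) (.g (nat_lit 1540) (.e (nat_lit 442421) (nat_lit 21) (.e (nat_lit 164332) (nat_lit 230) (.e (nat_lit 163885) (nat_lit 5) (.e (nat_lit 221194) (nat_lit 11) .nil)))) (.g (nat_lit 0) (.e (nat_lit 336245) (nat_lit 0) .nil) .nil))) 
(.lf (nat_lit 567925) (.g (nat_lit 1674) (.e (nat_lit 450579) (nat_lit 5) (.e (nat_lit 532566) (nat_lit 15) (.e (nat_lit 385094) (nat_lit 49) (.e (nat_lit 778317) (nat_lit 3) (.e (nat_lit 57477) (nat_lit 28) (.e (nat_lit 557067) (nat_lit 9) (.e (nat_lit 3021) (nat_lit 187) .nil))))))) (.g (nat_lit 1) (.e (nat_lit 340854) (nat_lit 0) .nil) .nil)))) (.nd (nat_lit 9) 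
(.lf (nat_lit 567669) (.g (nat_lit 681) (.e (nat_lit 450560) (nat_lit 0) (.e (nat_lit 3991) (nat_lit 239) (.e (nat_lit 2638) (nat_lit 165) (.e (nat_lit 188160) (nat_lit 32) .nil)))) (.g (nat_lit 0) (.e (nat_lit 338100) (nat_lit 0) .nil) .nil))) 
(.lf (nat_lit 568181) (.g (nat_lit 926) (.e (nat_lit 450586) (nat_lit 10) (.e (nat_lit 573474) (nat_lit 12) (.e (nat_lit 57506) (nat_lit 39) .nil))) (.g (nat_lit 0) (.e (nat_lit 342408) (nat_lit 0) .nil) .nil))))) (.nd (nat_lit 8) (.nd (nat_lit 9) 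
(.lf (nat_lit 567541) (.g (nat_lit 702) (.e (nat_lit 442427) (nat_lit 23) (.e (nat_lit 204831) (nat_lit 18) (.e (nat_lit 57692) (nat_lit 156) .nil))) (.g (nat_lit 0) (.e (nat_lit 337078) (nat_lit 0) .nil) .nil))) 
(.lf (nat_lit 568053) (.g (nat_lit 3688) (.e (nat_lit 450581) (nat_lit 5) (.e (nat_lit 532523) (nat_lit 7) (.e (nat_lit 319534) (nat_lit 16) (.e (nat_lit 286733) (nat_lit 2) (.e (nat_lit 90134) (nat_lit 9) (.e (nat_lit 3009) (nat_lit 187) .nil)))))) (.g (nat_lit 1) (.e (nat_lit 341653) (nat_lit 0) .nil) .nil)))) (.nd (nat_lit 9) 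
(.lf (nat_lit 567797) (.g (nat_lit 2302) (.e (nat_lit 450578) (nat_lit 5) (.e (nat_lit 532503) (nat_lit 1) (.e (nat_lit 57688) (nat_lit 156) (.e (nat_lit 163902) (nat_lit 12) (.e (nat_lit 426479) (nat_lit 27) (.e (nat_lit 336432) (nat_lit 30) .nil)))))) (.g (nat_lit 1) (.e (nat_lit 340045) (nat_lit 0) .nil) .nil))) 
(.lf (nat_lit 568309) (.g (nat_lit 565) (.e (nat_lit 450588) (nat_lit 10) (.e (nat_lit 573473) (nat_lit 12) (.e (nat_lit 57570) (nat_lit 54) .nil))) (.g (nat_lit 0) (.e (nat_lit 343052) (nat_lit 0) .nil) .nil))))))))) (.nd (nat_lit 4) (.nd (nat_lit 5) (.nd (nat_lit 6) (.nd (nat_lit 7) (.nd (nat_lit 8) (.nd (nat_lit 9) 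
(.lf (nat_lit 567309) (.g (nat_lit 2231) (.e (nat_lit 442411) (nat_lit 20) (.e (nat_lit 3391) (nat_lit 210) (.e (nat_lit 639021) (nat_lit 16) (.e (nat_lit 65619) (nat_lit 10) (.e (nat_lit 344160) (nat_lit 37) (.e (nat_lit 647195) (nat_lit 9) (.e (nat_lit 7936) (nat_lit 34) .nil))))))) (.g (nat_lit 1) (.e (nat_lit 335912) (nat_lit 0) .nil) .nil))) 
(.lf (nat_lit 567821) (.g (nat_lit 2710) (.e (nat_lit 450579) (nat_lit 5) (.e (nat_lit 532499) (nat_lit 1) (.e (nat_lit 57688) (nat_lit 156) (.e (nat_lit 163902) (nat_lit 12) (.e (nat_lit 426479) (nat_lit 27) (.e (nat_lit 336432) (nat_lit 30) .nil)))))) (.g (nat_lit 1) (.e (nat_lit 340164) (nat_lit 0) .nil) .nil)))) (.nd (nat_lit 9) 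
(.lf (nat_lit 567565) (.g (nat_lit 2071) (.e (nat_lit 442427) (nat_lit 23) (.e (nat_lit 204846) (nat_lit 24) (.e (nat_lit 319534) (nat_lit 16) (.e (nat_lit 286726) (nat_lit 0) .nil)))) (.g (nat_lit 0) (.e (nat_lit 337177) (nat_lit 0) .nil) .nil))) 
(.lf (nat_lit 568077) (.g (nat_lit 3061) (.e (nat_lit 458496) (nat_lit 3) (.e (nat_lit 516115) (nat_lit 1) (.e (nat_lit 164325) (nat_lit 230) (.e (nat_lit 163864) (nat_lit 1) (.e (nat_lit 164332) (nat_lit 230) .nil))))) (.g (nat_lit 0) (.e (nat_lit 341711) (nat_lit 0) .nil) .nil))))) (.nd (nat_lit 8) (.nd (nat_lit 9) 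
(.lf (nat_lit 567437) (.g (nat_lit 3997) (.e (nat_lit 442421) (nat_lit 21) (.e (nat_lit 164347) (nat_lit 240) (.e (nat_lit 2638) (nat_lit 165) (.e (nat_lit 180278) (nat_lit 32) (.e (nat_lit 1427) (nat_lit 108) (.e (nat_lit 336430) (nat_lit 29) .nil)))))) (.g (nat_lit 1) (.e (nat_lit 336292) (nat_lit 0) .nil) .nil))) 
(.lf (nat_lit 567949) (.g (nat_lit 562) (.e (nat_lit 450580) (nat_lit 5) (.e (nat_lit 532499) (nat_lit 1) (.e (nat_lit 57694) (nat_lit 157) .nil))) (.g (nat_lit 0) (.e (nat_lit 341050) (nat_lit 0) .nil) .nil)))) (.nd (nat_lit 9) 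
(.lf (nat_lit 567693) (.g (nat_lit 2592) (.e (nat_lit 450564) (nat_lit 0) (.e (nat_lit 5546) (nat_lit 306) (.e (nat_lit 2619) (nat_lit 164) (.e (nat_lit 172119) (nat_lit 12) (.e (nat_lit 475211) (nat_lit 41) (.e (nat_lit 712753) (nat_lit 30) .nil)))))) (.g (nat_lit 1) (.e (nat_lit 338934) (nat_lit 0) .nil) .nil))) 
(.lf (nat_lit 568205) (.g (nat_lit 1469) (.e (nat_lit 450586) (nat_lit 10) (.e (nat_lit 573475) (nat_lit 12) (.e (nat_lit 57574) (nat_lit 55) (.e (nat_lit 778464) (nat_lit 11) (.e (nat_lit 32512) (nat_lit 3) .nil))))) (.g (nat_lit 0) (.e (nat_lit 342481) (nat_lit 0) .nil) .nil)))))) (.nd (nat_lit 7) (.nd (nat_lit 8) (.nd (nat_lit 9) 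
(.lf (nat_lit 567373) (.g (nat_lit 3812) (.e (nat_lit 442419) (nat_lit 21) (.e (nat_lit 164348) (nat_lit 240) (.e (nat_lit 2628) (nat_lit 164) (.e (nat_lit 172126) (nat_lit 14) (.e (nat_lit 491550) (nat_lit 9) (.e (nat_lit 336430) (nat_lit 29) .nil)))))) (.g (nat_lit 1) (.e (nat_lit 336117) (nat_lit 0) .nil) .nil))) 
(.lf (nat_lit 567885) (.g (nat_lit 4046) (.e (nat_lit 450579) (nat_lit 5) (.e (nat_lit 532522) (nat_lit 7) (.e (nat_lit 319530) (nat_lit 16) (.e (nat_lit 286733) (nat_lit 2) (.e (nat_lit 90134) (nat_lit 9) (.e (nat_lit 3027) (nat_lit 187) .nil)))))) (.g (nat_lit 1) (.e (nat_lit 340411) (nat_lit 0) .nil) .nil)))) (.nd (nat_lit 9) 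
(.lf (nat_lit 567629) (.g (nat_lit 338) (.e (nat_lit 442430) (nat_lit 24) (.e (nat_lit 229663) (nat_lit 240) (.e (nat_lit 2630) (nat_lit 164) .nil))) (.g (nat_lit 0) (.e (nat_lit 337581) (nat_lit 0) .nil) .nil))) 
(.lf (nat_lit 568141) (.g (nat_lit 1875) (.e (nat_lit 450586) (nat_lit 10) (.e (nat_lit 573471) (nat_lit 11) (.e (nat_lit 16397) (nat_lit 0) (.e (nat_lit 7554) (nat_lit 402) .nil)))) (.g (nat_lit 0) (.e (nat_lit 342208) (nat_lit 0) .nil) .nil))))) (.nd (nat_lit 8) (.nd (nat_lit 9) 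
(.lf (nat_lit 567501) (.g (nat_lit 1583) (.e (nat_lit 442426) (nat_lit 23) (.e (nat_lit 204846) (nat_lit 24) (.e (nat_lit 319505) (nat_lit 10) (.e (nat_lit 5389) (nat_lit 301) .nil)))) (.g (nat_lit 0) (.e (nat_lit 336866) (nat_lit 0) .nil) .nil))) 
(.lf (nat_lit 568013) (.g (nat_lit 484) (.e (nat_lit 450580) (nat_lit 5) (.e (nat_lit 532530) (nat_lit 9) (.e (nat_lit 336258) (nat_lit 15) .nil))) (.g (nat_lit 0) (.e (nat_lit 341267) (nat_lit 0) .nil) .nil)))) (.nd (nat_lit 9) 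
(.lf (nat_lit 567757) (.g (nat_lit 1594) (.e (nat_lit 458496) (nat_lit 0) (.e (nat_lit 5546) (nat_lit 306) (.e (nat_lit 2628) (nat_lit 164) (.e (nat_lit 172124) (nat_lit 14) (.e (nat_lit 491549) (nat_lit 9) .nil))))) (.g (nat_lit 0) (.e (nat_lit 339637) (nat_lit 0) .nil) .nil))) 
(.lf (nat_lit 568269) (.g (nat_lit 1741) (.e (nat_lit 450588) (nat_lit 10) (.e (nat_lit 573469) (nat_lit 11) (.e (nat_lit 16473) (nat_lit 14) (.e (nat_lit 491520) (nat_lit 0) .nil)))) (.g (nat_lit 0) (.e (nat_lit 342889) (nat_lit 0) .nil) .nil))))))) (.nd (nat_lit 6) (.nd (nat_lit 7) (.nd (nat_lit 8) (.nd (nat_lit 9) 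
(.lf (nat_lit 567341) (.g (nat_lit 2081) (.e (nat_lit 442412) (nat_lit 20) (.e (nat_lit 3391) (nat_lit 210) (.e (nat_lit 639021) (nat_lit 16) (.e (nat_lit 65619) (nat_lit 10) (.e (nat_lit 344160) (nat_lit 37) (.e (nat_lit 647190) (nat_lit 9) (.e (nat_lit 7936) (nat_lit 34) .nil))))))) (.g (nat_lit 1) (.e (nat_lit 335986) (nat_lit 0) .nil) .nil))) 
(.lf (nat_lit 567853) (.g (nat_lit 2540) (.e (nat_lit 450579) (nat_lit 5) (.e (nat_lit 532503) (nat_lit 1) (.e (nat_lit 57688) (nat_lit 156) (.e (nat_lit 163905) (nat_lit 12) (.e (nat_lit 426479) (nat_lit 27) (.e (nat_lit 336434) (nat_lit 30) .nil)))))) (.g (nat_lit 1) (.e (nat_lit 340312) (nat_lit 0) .nil) .nil)))) (.nd (nat_lit 9) 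
(.lf (nat_lit 567597) (.g (nat_lit 385) (.e (nat_lit 442428) (nat_lit 24) (.e (nat_lit 229663) (nat_lit 240) (.e (nat_lit 2630) (nat_lit 164) .nil))) (.g (nat_lit 0) (.e (nat_lit 337442) (nat_lit 0) .nil) .nil))) 
(.lf (nat_lit 568109) (.g (nat_lit 2868) (.e (nat_lit 450586) (nat_lit 10) (.e (nat_lit 573450) (nat_lit 9) (.e (nat_lit 411) (nat_lit 32) (.e (nat_lit 426340) (nat_lit 14) (.e (nat_lit 491540) (nat_lit 3) (.e (nat_lit 98372) (nat_lit 29) .nil)))))) (.g (nat_lit 1) (.e (nat_lit 342099) (nat_lit 0) .nil) .nil))))) (.nd (nat_lit 8) (.nd (nat_lit 9) 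
(.lf (nat_lit 567469) (.g (nat_lit 999) (.e (nat_lit 442425) (nat_lit 23) (.e (nat_lit 204846) (nat_lit 24) (.e (nat_lit 319497) (nat_lit 10) .nil))) (.g (nat_lit 0) (.e (nat_lit 336605) (nat_lit 0) .nil) .nil))) 
(.lf (nat_lit 567981) (.g (nat_lit 304) (.e (nat_lit 450580) (nat_lit 5) (.e (nat_lit 532523) (nat_lit 7) (.e (nat_lit 319504) (nat_lit 10) .nil))) (.g (nat_lit 0) (.e (nat_lit 341132) (nat_lit 0) .nil) .nil)))) (.nd (nat_lit 9) 
(.lf (nat_lit 567725) (.g (nat_lit 234) (.e (nat_lit 450565) (nat_lit 0) (.e (nat_lit 5548) (nat_lit 306) (.e (nat_lit 2638) (nat_lit 165) .nil))) (.g (nat_lit 0) (.e (nat_lit 339195) (nat_lit 0) .nil) .nil))) 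
(.lf (nat_lit 568237) (.g (nat_lit 446) (.e (nat_lit 450587) (nat_lit 10) (.e (nat_lit 573475) (nat_lit 12) (.e (nat_lit 57515) (nat_lit 42) .nil))) (.g (nat_lit 0) (.e (nat_lit 342695) (nat_lit 0) .nil) .nil)))))) (.nd (nat_lit 7) (.nd (nat_lit 8) (.nd (nat_lit 9) 
(.lf (nat_lit 567405) (.g (nat_lit 2140) (.e (nat_lit 442421) (nat_lit 21) (.e (nat_lit 164326) (nat_lit 230) (.e (nat_lit 163884) (nat_lit 5) (.e (nat_lit 221194) (nat_lit 11) (.e (nat_lit 336074) (nat_lit 9) (.e (nat_lit 336426) (nat_lit 29) .nil)))))) (.g (nat_lit 1) (.e (nat_lit 336235) (nat_lit 0) .nil) .nil))) 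
(.lf (nat_lit 567917) (.g (nat_lit 1748) (.e (nat_lit 450579) (nat_lit 5) (.e (nat_lit 532534) (nat_lit 9) (.e (nat_lit 336257) (nat_lit 15) (.e (nat_lit 3604) (nat_lit 225) (.e (nat_lit 761898) (nat_lit 15) (.e (nat_lit 163959) (nat_lit 24) (.e (nat_lit 524320) (nat_lit 12) .nil))))))) (.g (nat_lit 1) (.e (nat_lit 340621) (nat_lit 0) .nil) .nil)))) (.nd (nat_lit 9) 
(.lf (nat_lit 567661) (.g (nat_lit 1922) (.e (nat_lit 442430) (nat_lit 24) (.e (nat_lit 229680) (nat_lit 244) (.e (nat_lit 163920) (nat_lit 14) (.e (nat_lit 442377) (nat_lit 0) .nil)))) (.g (nat_lit 0) (.e (nat_lit 337810) (nat_lit 0) .nil) .nil))) 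
(.lf (nat_lit 568173) (.g (nat_lit 1492) (.e (nat_lit 450586) (nat_lit 10) (.e (nat_lit 573473) (nat_lit 12) (.e (nat_lit 57508) (nat_lit 39) (.e (nat_lit 647195) (nat_lit 9) (.e (nat_lit 417) (nat_lit 32) .nil))))) (.g (nat_lit 0) (.e (nat_lit 342367) (nat_lit 0) .nil) .nil))))) (.nd (nat_lit 8) (.nd (nat_lit 9) 
(.lf (nat_lit 567533) (.g (nat_lit 3492) (.e (nat_lit 442427) (nat_lit 23) (.e (nat_lit 204830) (nat_lit 18) (.e (nat_lit 57691) (nat_lit 156) (.e (nat_lit 163907) (nat_lit 12) (.e (nat_lit 426479) (nat_lit 27) (.e (nat_lit 336430) (nat_lit 29) .nil)))))) (.g (nat_lit 1) (.e (nat_lit 337057) (nat_lit 0) .nil) .nil))) 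
(.lf (nat_lit 568045) (.g (nat_lit 1428) (.e (nat_lit 450581) (nat_lit 5) (.e (nat_lit 532523) (nat_lit 7) (.e (nat_lit 319533) (nat_lit 16) (.e (nat_lit 286724) (nat_lit 0) .nil)))) (.g (nat_lit 0) (.e (nat_lit 341639) (nat_lit 0) .nil) .nil)))) (.nd (nat_lit 9) 
(.lf (nat_lit 567789) (.g (nat_lit 1009) (.e (nat_lit 458496) (nat_lit 0) (.e (nat_lit 5587) (nat_lit 310) (.e (nat_lit 163907) (nat_lit 12) (.e (nat_lit 426320) (nat_lit 12) .nil)))) (.g (nat_lit 0) (.e (nat_lit 339758) (nat_lit 0) .nil) .nil))) 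
(.lf (nat_lit 568301) (.g (nat_lit 2465) (.e (nat_lit 450588) (nat_lit 10) (.e (nat_lit 573473) (nat_lit 12) (.e (nat_lit 57508) (nat_lit 39) (.e (nat_lit 647195) (nat_lit 9) (.e (nat_lit 426) (nat_lit 32) (.e (nat_lit 426010) (nat_lit 0) (.e (nat_lit 3548) (nat_lit 219) (.e (nat_lit 712754) (nat_lit 30) .nil)))))))) (.g (nat_lit 1) (.e (nat_lit 343040) (nat_lit 0) .nil) .nil)))))))) 
(.nd (nat_lit 5) (.nd (nat_lit 6) (.nd (nat_lit 7) (.nd (nat_lit 8) (.nd (nat_lit 9) 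
(.lf (nat_lit 567325) (.g (nat_lit 1351) (.e (nat_lit 442412) (nat_lit 20) (.e (nat_lit 3272) (nat_lit 199) (.e (nat_lit 548913) (nat_lit 18) (.e (nat_lit 172079) (nat_lit 7) .nil)))) (.g (nat_lit 0) (.e (nat_lit 335958) (nat_lit 0) .nil) .nil))) 
(.lf (nat_lit 567837) (.g (nat_lit 2443) (.e (nat_lit 450579) (nat_lit 5) (.e (nat_lit 532501) (nat_lit 1) (.e (nat_lit 57663) (nat_lit 152) (.e (nat_lit 2725) (nat_lit 172) (.e (nat_lit 237569) (nat_lit 0) (.e (nat_lit 7936) (nat_lit 219) (.e (nat_lit 712753) (nat_lit 30) .nil))))))) (.g (nat_lit 1) (.e (nat_lit 340232) (nat_lit 0) .nil) .nil)))) (.nd (nat_lit 9) 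
(.lf (nat_lit 567581) (.g (nat_lit 2099) (.e (nat_lit 450304) (nat_lit 23) (.e (nat_lit 204845) (nat_lit 24) (.e (nat_lit 319534) (nat_lit 16) (.e (nat_lit 286735) (nat_lit 3) (.e (nat_lit 98370) (nat_lit 28) .nil))))) (.g (nat_lit 0) (.e (nat_lit 337419) (nat_lit 0) .nil) .nil))) 
(.lf (nat_lit 568093) (.g (nat_lit 518) (.e (nat_lit 450585) (nat_lit 10) (.e (nat_lit 573449) (nat_lit 9) (.e (nat_lit 433) (nat_lit 32) .nil))) (.g (nat_lit 0) (.e (nat_lit 342046) (nat_lit 0) .nil) .nil))))) (.nd (nat_lit 8) (.nd (nat_lit 9) 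
(.lf (nat_lit 567453) (.g (nat_lit 1645) (.e (nat_lit 442425) (nat_lit 23) (.e (nat_lit 204829) (nat_lit 18) (.e (nat_lit 57692) (nat_lit 156) (.e (nat_lit 163906) (nat_lit 12) (.e (nat_lit 426479) (nat_lit 27) .nil))))) (.g (nat_lit 0) (.e (nat_lit 336525) (nat_lit 0) .nil) .nil))) 
(.lf (nat_lit 567965) (.g (nat_lit 880) (.e (nat_lit 450580) (nat_lit 5) (.e (nat_lit 532522) (nat_lit 7) (.e (nat_lit 319500) (nat_lit 10) .nil))) (.g (nat_lit 0) (.e (nat_lit 341114) (nat_lit 0) .nil) .nil)))) (.nd (nat_lit 9) 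
(.lf (nat_lit 567709) (.g (nat_lit 1676) (.e (nat_lit 450564) (nat_lit 0) (.e (nat_lit 5548) (nat_lit 306) (.e (nat_lit 2639) (nat_lit 165) (.e (nat_lit 180278) (nat_lit 32) (.e (nat_lit 1426) (nat_lit 108) (.e (nat_lit 336434) (nat_lit 30) .nil)))))) (.g (nat_lit 1) (.e (nat_lit 339011) (nat_lit 0) .nil) .nil))) 
(.lf (nat_lit 568221) (.g (nat_lit 3384) (.e (nat_lit 450586) (nat_lit 10) (.e (nat_lit 573478) (nat_lit 12) (.e (nat_lit 57574) (nat_lit 55) (.e (nat_lit 778465) (nat_lit 11) (.e (nat_lit 24607) (nat_lit 3) (.e (nat_lit 98372) (nat_lit 29) .nil)))))) (.g (nat_lit 1) (.e (nat_lit 342558) (nat_lit 0) .nil) .nil)))))) (.nd (nat_lit 7) (.nd (nat_lit 8) (.nd (nat_lit 9) 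
(.lf (nat_lit 567389) (.g (nat_lit 697) (.e (nat_lit 442420) (nat_lit 21) (.e (nat_lit 164325) (nat_lit 230) (.e (nat_lit 163884) (nat_lit 5) .nil))) (.g (nat_lit 0) (.e (nat_lit 336161) (nat_lit 0) .nil) .nil))) 
(.lf (nat_lit 567901) (.g (nat_lit 3589) (.e (nat_lit 450579) (nat_lit 5) (.e (nat_lit 532523) (nat_lit 7) (.e (nat_lit 319533) (nat_lit 16) (.e (nat_lit 286733) (nat_lit 2) (.e (nat_lit 90134) (nat_lit 9) (.e (nat_lit 3009) (nat_lit 187) .nil)))))) (.g (nat_lit 1) (.e (nat_lit 340437) (nat_lit 0) .nil) .nil)))) (.nd (nat_lit 9) 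
(.lf (nat_lit 567645) (.g (nat_lit 3784) (.e (nat_lit 442430) (nat_lit 24) (.e (nat_lit 229665) (nat_lit 240) (.e (nat_lit 2630) (nat_lit 164) (.e (nat_lit 172120) (nat_lit 12) (.e (nat_lit 475211) (nat_lit 41) (.e (nat_lit 712750) (nat_lit 29) .nil)))))) (.g (nat_lit 1) (.e (nat_lit 337699) (nat_lit 0) .nil) .nil))) 
(.lf (nat_lit 568157) (.g (nat_lit 3904) (.e (nat_lit 450586) (nat_lit 10) (.e (nat_lit 573471) (nat_lit 11) (.e (nat_lit 16470) (nat_lit 14) (.e (nat_lit 491529) (nat_lit 0) .nil)))) (.g (nat_lit 0) (.e (nat_lit 342328) (nat_lit 0) .nil) .nil))))) (.nd (nat_lit 8) (.nd (nat_lit 9) 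
(.lf (nat_lit 567517) (.g (nat_lit 1859) (.e (nat_lit 442427) (nat_lit 23) (.e (nat_lit 204813) (nat_lit 9) (.e (nat_lit 426098) (nat_lit 1) (.e (nat_lit 164403) (nat_lit 256) .nil)))) (.g (nat_lit 0) (.e (nat_lit 336951) (nat_lit 0) .nil) .nil))) 
(.lf (nat_lit 568029) (.g (nat_lit 2530) (.e (nat_lit 450581) (nat_lit 5) (.e (nat_lit 532522) (nat_lit 7) (.e (nat_lit 319530) (nat_lit 16) (.e (nat_lit 286733) (nat_lit 2) (.e (nat_lit 90134) (nat_lit 9) (.e (nat_lit 3015) (nat_lit 187) .nil)))))) (.g (nat_lit 1) (.e (nat_lit 341617) (nat_lit 0) .nil) .nil)))) (.nd (nat_lit 9) 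
(.lf (nat_lit 567773) (.g (nat_lit 1625) (.e (nat_lit 458496) (nat_lit 0) (.e (nat_lit 5547) (nat_lit 306) (.e (nat_lit 2638) (nat_lit 165) (.e (nat_lit 180277) (nat_lit 32) (.e (nat_lit 1426) (nat_lit 108) .nil))))) (.g (nat_lit 0) (.e (nat_lit 339692) (nat_lit 0) .nil) .nil))) 
(.lf (nat_lit 568285) (.g (nat_lit 4139) (.e (nat_lit 450588) (nat_lit 10) (.e (nat_lit 573471) (nat_lit 11) (.e (nat_lit 16470) (nat_lit 14) (.e (nat_lit 491523) (nat_lit 0) .nil)))) (.g (nat_lit 0) (.e (nat_lit 342997) (nat_lit 0) .nil) .nil))))))) (.nd (nat_lit 6) (.nd (nat_lit 7) (.nd (nat_lit 8) (.nd (nat_lit 9) 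
(.lf (nat_lit 567357) (.g (nat_lit 1332) (.e (nat_lit 442419) (nat_lit 21) (.e (nat_lit 164331) (nat_lit 230) (.e (nat_lit 163885) (nat_lit 5) (.e (nat_lit 229120) (nat_lit 13) .nil)))) (.g (nat_lit 0) (.e (nat_lit 336082) (nat_lit 0) .nil) .nil))) 
(.lf (nat_lit 567869) (.g (nat_lit 1734) (.e (nat_lit 450579) (nat_lit 5) (.e (nat_lit 532504) (nat_lit 1) (.e (nat_lit 57663) (nat_lit 152) (.e (nat_lit 2630) (nat_lit 164) (.e (nat_lit 172039) (nat_lit 0) .nil))))) (.g (nat_lit 0) (.e (nat_lit 340354) (nat_lit 0) .nil) .nil)))) (.nd (nat_lit 9) 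
(.lf (nat_lit 567613) (.g (nat_lit 2718) (.e (nat_lit 442428) (nat_lit 24) (.e (nat_lit 229678) (nat_lit 244) (.e (nat_lit 163896) (nat_lit 10) (.e (nat_lit 409602) (nat_lit 0) (.e (nat_lit 5293) (nat_lit 298) (.e (nat_lit 1423) (nat_lit 108) (.e (nat_lit 336431) (nat_lit 29) .nil))))))) (.g (nat_lit 1) (.e (nat_lit 337512) (nat_lit 0) .nil) .nil))) 
(.lf (nat_lit 568125) (.g (nat_lit 2913) (.e (nat_lit 450586) (nat_lit 10) (.e (nat_lit 573471) (nat_lit 11) (.e (nat_lit 16386) (nat_lit 0) (.e (nat_lit 7581) (nat_lit 405) (.e (nat_lit 57464) (nat_lit 23) (.e (nat_lit 516165) (nat_lit 12) .nil)))))) (.g (nat_lit 1) (.e (nat_lit 342192) (nat_lit 0) .nil) .nil))))) (.nd (nat_lit 8) (.nd (nat_lit 9) 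
(.lf (nat_lit 567485) (.g (nat_lit 1329) (.e (nat_lit 442426) (nat_lit 23) (.e (nat_lit 204813) (nat_lit 9) (.e (nat_lit 426098) (nat_lit 1) (.e (nat_lit 164399) (nat_lit 256) .nil)))) (.g (nat_lit 0) (.e (nat_lit 336806) (nat_lit 0) .nil) .nil))) 
(.lf (nat_lit 567997) (.g (nat_lit 3995) (.e (nat_lit 450580) (nat_lit 5) (.e (nat_lit 532523) (nat_lit 7) (.e (nat_lit 319531) (nat_lit 16) (.e (nat_lit 286733) (nat_lit 2) (.e (nat_lit 90134) (nat_lit 9) (.e (nat_lit 3019) (nat_lit 187) .nil)))))) (.g (nat_lit 1) (.e (nat_lit 341158) (nat_lit 0) .nil) .nil)))) (.nd (nat_lit 9) 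
(.lf (nat_lit 567741) (.g (nat_lit 825) (.e (nat_lit 458496) (nat_lit 0) (.e (nat_lit 4120) (nat_lit 245) (.e (nat_lit 1220) (nat_lit 90) (.e (nat_lit 81938) (nat_lit 20) .nil)))) (.g (nat_lit 0) (.e (nat_lit 339576) (nat_lit 0) .nil) .nil))) 
(.lf (nat_lit 568253) (.g (nat_lit 2410) (.e (nat_lit 450587) (nat_lit 10) (.e (nat_lit 573477) (nat_lit 12) (.e (nat_lit 57575) (nat_lit 55) (.e (nat_lit 778465) (nat_lit 11) (.e (nat_lit 24593) (nat_lit 0) .nil))))) (.g (nat_lit 0) (.e (nat_lit 342782) (nat_lit 0) .nil) .nil)))))) (.nd (nat_lit 7) (.nd (nat_lit 8) (.nd (nat_lit 9) 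
(.lf (nat_lit 567421) (.g (nat_lit 1643) (.e (nat_lit 442421) (nat_lit 21) (.e (nat_lit 164319) (nat_lit 228) (.e (nat_lit 57427) (nat_lit 15) (.e (nat_lit 360483) (nat_lit 15) (.e (nat_lit 647191) (nat_lit 9) (.e (nat_lit 7936) (nat_lit 34) .nil)))))) (.g (nat_lit 1) (.e (nat_lit 336256) (nat_lit 0) .nil) .nil))) 
(.lf (nat_lit 567933) (.g (nat_lit 1593) (.e (nat_lit 450579) (nat_lit 5) (.e (nat_lit 532579) (nat_lit 26) (.e (nat_lit 426098) (nat_lit 1) (.e (nat_lit 164401) (nat_lit 256) .nil)))) (.g (nat_lit 0) (.e (nat_lit 340942) (nat_lit 0) .nil) .nil)))) (.nd (nat_lit 9) 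
(.lf (nat_lit 567677) (.g (nat_lit 1177) (.e (nat_lit 450561) (nat_lit 0) (.e (nat_lit 6830) (nat_lit 367) (.e (nat_lit 57427) (nat_lit 15) (.e (nat_lit 360470) (nat_lit 6) .nil)))) (.g (nat_lit 0) (.e (nat_lit 338547) (nat_lit 0) .nil) .nil))) 
(.lf (nat_lit 568189) (.g (nat_lit 1135) (.e (nat_lit 450586) (nat_lit 10) (.e (nat_lit 573474) (nat_lit 12) (.e (nat_lit 57572) (nat_lit 54) (.e (nat_lit 770073) (nat_lit 9) .nil)))) (.g (nat_lit 0) (.e (nat_lit 342434) (nat_lit 0) .nil) .nil))))) (.nd (nat_lit 8) (.nd (nat_lit 9) 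
(.lf (nat_lit 567549) (.g (nat_lit 1306) (.e (nat_lit 442427) (nat_lit 23) (.e (nat_lit 204845) (nat_lit 24) (.e (nat_lit 319531) (nat_lit 16) (.e (nat_lit 286722) (nat_lit 0) .nil)))) (.g (nat_lit 0) (.e (nat_lit 337108) (nat_lit 0) .nil) .nil))) 
(.lf (nat_lit 568061) (.g (nat_lit 1162) (.e (nat_lit 458496) (nat_lit 5) (.e (nat_lit 532523) (nat_lit 7) (.e (nat_lit 319505) (nat_lit 10) (.e (nat_lit 7936) (nat_lit 301) .nil)))) (.g (nat_lit 0) (.e (nat_lit 341679) (nat_lit 0) .nil) .nil)))) (.nd (nat_lit 9) 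
(.lf (nat_lit 567805) (.g (nat_lit 1516) (.e (nat_lit 450578) (nat_lit 5) (.e (nat_lit 532523) (nat_lit 7) (.e (nat_lit 319534) (nat_lit 16) (.e (nat_lit 286732) (nat_lit 2) .nil)))) (.g (nat_lit 0) (.e (nat_lit 340056) (nat_lit 0) .nil) .nil))) 
(.lf (nat_lit 568317) (.g (nat_lit 1186) (.e (nat_lit 450588) (nat_lit 10) (.e (nat_lit 573474) (nat_lit 12) (.e (nat_lit 57572) (nat_lit 54) (.e (nat_lit 770058) (nat_lit 5) .nil)))) (.g (nat_lit 0) (.e (nat_lit 343136) (nat_lit 0) .nil) .nil))))))))))) (.nd (nat_lit 2) (.nd (nat_lit 3) (.nd (nat_lit 4) (.nd (nat_lit 5) (.nd (nat_lit 6) (.nd (nat_lit 7) (.nd (nat_lit 8) (.nd (nat_lit 9) 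
(.lf (nat_lit 567299) (.g (nat_lit 2381) (.e (nat_lit 442411) (nat_lit 20) (.e (nat_lit 3272) (nat_lit 199) (.e (nat_lit 548913) (nat_lit 18) (.e (nat_lit 172125) (nat_lit 14) (.e (nat_lit 491524) (nat_lit 0) (.e (nat_lit 1812) (nat_lit 120) (.e (nat_lit 524319) (nat_lit 11) .nil))))))) (.g (nat_lit 1) (.e (nat_lit 335902) (nat_lit 0) .nil) .nil))) 
(.lf (nat_lit 567811) (.g (nat_lit 1751) (.e (nat_lit 450579) (nat_lit 5) (.e (nat_lit 532498) (nat_lit 1) (.e (nat_lit 57688) (nat_lit 156) (.e (nat_lit 163902) (nat_lit 12) (.e (nat_lit 426479) (nat_lit 27) (.e (nat_lit 336434) (nat_lit 30) .nil)))))) (.g (nat_lit 1) (.e (nat_lit 340139) (nat_lit 0) .nil) .nil)))) (.nd (nat_lit 9) 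
(.lf (nat_lit 567555) (.g (nat_lit 2662) (.e (nat_lit 442427) (nat_lit 23) (.e (nat_lit 204845) (nat_lit 24) (.e (nat_lit 319534) (nat_lit 16) (.e (nat_lit 286735) (nat_lit 3) (.e (nat_lit 98369) (nat_lit 28) .nil))))) (.g (nat_lit 1) (.e (nat_lit 337129) (nat_lit 0) .nil) .nil))) 
(.lf (nat_lit 568067) (.g (nat_lit 3316) (.e (nat_lit 458496) (nat_lit 5) (.e (nat_lit 532569) (nat_lit 16) (.e (nat_lit 401448) (nat_lit 10) (.e (nat_lit 434238) (nat_lit 25) (.e (nat_lit 548898) (nat_lit 14) .nil))))) (.g (nat_lit 0) (.e (nat_lit 341687) (nat_lit 0) .nil) .nil))))) (.nd (nat_lit 8) (.nd (nat_lit 9) 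
(.lf (nat_lit 567427) (.g (nat_lit 1076) (.e (nat_lit 442421) (nat_lit 21) (.e (nat_lit 164345) (nat_lit 240) (.e (nat_lit 2638) (nat_lit 165) (.e (nat_lit 188160) (nat_lit 32) .nil)))) (.g (nat_lit 0) (.e (nat_lit 336264) (nat_lit 0) .nil) .nil))) 
(.lf (nat_lit 567939) (.g (nat_lit 1901) (.e (nat_lit 450579) (nat_lit 5) (.e (nat_lit 532579) (nat_lit 26) (.e (nat_lit 426107) (nat_lit 1) (.e (nat_lit 164403) (nat_lit 256) (.e (nat_lit 57405) (nat_lit 12) .nil))))) (.g (nat_lit 0) (.e (nat_lit 340948) (nat_lit 0) .nil) .nil)))) (.nd (nat_lit 9) 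
(.lf (nat_lit 567683) (.g (nat_lit 415) (.e (nat_lit 450563) (nat_lit 0) (.e (nat_lit 6830) (nat_lit 367) (.e (nat_lit 57426) (nat_lit 15) .nil))) (.g (nat_lit 0) (.e (nat_lit 338919) (nat_lit 0) .nil) .nil))) 
(.lf (nat_lit 568195) (.g (nat_lit 478) (.e (nat_lit 450586) (nat_lit 10) (.e (nat_lit 573475) (nat_lit 12) (.e (nat_lit 57503) (nat_lit 38) .nil))) (.g (nat_lit 0) (.e (nat_lit 342457) (nat_lit 0) .nil) .nil)))))) (.nd (nat_lit 7) (.nd (nat_lit 8) (.nd (nat_lit 9) 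
(.lf (nat_lit 567363) (.g (nat_lit 2997) (.e (nat_lit 442419) (nat_lit 21) (.e (nat_lit 164346) (nat_lit 240) (.e (nat_lit 2619) (nat_lit 164) (.e (nat_lit 172126) (nat_lit 14) (.e (nat_lit 491550) (nat_lit 9) (.e (nat_lit 336430) (nat_lit 29) .nil)))))) (.g (nat_lit 1) (.e (nat_lit 336095) (nat_lit 0) .nil) .nil))) 
(.lf (nat_lit 567875) (.g (nat_lit 1628) (.e (nat_lit 450579) (nat_lit 5) (.e (nat_lit 532504) (nat_lit 1) (.e (nat_lit 57689) (nat_lit 156) (.e (nat_lit 163905) (nat_lit 12) (.e (nat_lit 426479) (nat_lit 27) (.e (nat_lit 336434) (nat_lit 30) .nil)))))) (.g (nat_lit 1) (.e (nat_lit 340377) (nat_lit 0) .nil) .nil)))) (.nd (nat_lit 9) 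
(.lf (nat_lit 567619) (.g (nat_lit 1776) (.e (nat_lit 442429) (nat_lit 24) (.e (nat_lit 229663) (nat_lit 240) (.e (nat_lit 2630) (nat_lit 164) (.e (nat_lit 172120) (nat_lit 12) .nil)))) (.g (nat_lit 0) (.e (nat_lit 337540) (nat_lit 0) .nil) .nil))) 
(.lf (nat_lit 568131) (.g (nat_lit 2458) (.e (nat_lit 450586) (nat_lit 10) (.e (nat_lit 573471) (nat_lit 11) (.e (nat_lit 16388) (nat_lit 0) (.e (nat_lit 7376) (nat_lit 389) .nil)))) (.g (nat_lit 0) (.e (nat_lit 342198) (nat_lit 0) .nil) .nil))))) (.nd (nat_lit 8) (.nd (nat_lit 9) 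
(.lf (nat_lit 567491) (.g (nat_lit 1203) (.e (nat_lit 442426) (nat_lit 23) (.e (nat_lit 204829) (nat_lit 18) (.e (nat_lit 57686) (nat_lit 156) .nil))) (.g (nat_lit 0) (.e (nat_lit 336821) (nat_lit 0) .nil) .nil))) 
(.lf (nat_lit 568003) (.g (nat_lit 3494) (.e (nat_lit 450580) (nat_lit 5) (.e (nat_lit 532523) (nat_lit 7) (.e (nat_lit 319533) (nat_lit 16) (.e (nat_lit 286732) (nat_lit 2) (.e (nat_lit 90134) (nat_lit 9) (.e (nat_lit 3019) (nat_lit 187) .nil)))))) (.g (nat_lit 1) (.e (nat_lit 341178) (nat_lit 0) .nil) .nil)))) (.nd (nat_lit 9) 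
(.lf (nat_lit 567747) (.g (nat_lit 1481) (.e (nat_lit 458496) (nat_lit 0) (.e (nat_lit 5195) (nat_lit 294) (.e (nat_lit 57427) (nat_lit 15) (.e (nat_lit 360483) (nat_lit 15) (.e (nat_lit 647191) (nat_lit 9) .nil))))) (.g (nat_lit 0) (.e (nat_lit 339591) (nat_lit 0) .nil) .nil))) 
(.lf (nat_lit 568259) (.g (nat_lit 2178) (.e (nat_lit 450587) (nat_lit 10) (.e (nat_lit 573478) (nat_lit 12) (.e (nat_lit 57574) (nat_lit 55) (.e (nat_lit 778465) (nat_lit 11) (.e (nat_lit 24594) (nat_lit 0) .nil))))) (.g (nat_lit 0) (.e (nat_lit 342795) (nat_lit 0) .nil) .nil))))))) (.nd (nat_lit 6) (.nd (nat_lit 7) (.nd (nat_lit 8) (.nd (nat_lit 9) 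
(.lf (nat_lit 567331) (.g (nat_lit 2347) (.e (nat_lit 442412) (nat_lit 20) (.e (nat_lit 3308) (nat_lit 202) (.e (nat_lit 573450) (nat_lit 9) (.e (nat_lit 375) (nat_lit 32) (.e (nat_lit 426173) (nat_lit 7) .nil))))) (.g (nat_lit 0) (.e (nat_lit 335976) (nat_lit 0) .nil) .nil))) 
(.lf (nat_lit 567843) (.g (nat_lit 699) (.e (nat_lit 450579) (nat_lit 5) (.e (nat_lit 532503) (nat_lit 1) (.e (nat_lit 57659) (nat_lit 152) .nil))) (.g (nat_lit 0) (.e (nat_lit 340290) (nat_lit 0) .nil) .nil)))) (.nd (nat_lit 9) 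
(.lf (nat_lit 567587) (.g (nat_lit 2584) (.e (nat_lit 450304) (nat_lit 23) (.e (nat_lit 204846) (nat_lit 24) (.e (nat_lit 319531) (nat_lit 16) (.e (nat_lit 286735) (nat_lit 3) (.e (nat_lit 98369) (nat_lit 28) .nil))))) (.g (nat_lit 0) (.e (nat_lit 337425) (nat_lit 0) .nil) .nil))) 
(.lf (nat_lit 568099) (.g (nat_lit 452) (.e (nat_lit 450585) (nat_lit 10) (.e (nat_lit 573471) (nat_lit 11) (.e (nat_lit 16425) (nat_lit 7) .nil))) (.g (nat_lit 0) (.e (nat_lit 342052) (nat_lit 0) .nil) .nil))))) (.nd (nat_lit 8) (.nd (nat_lit 9) 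
(.lf (nat_lit 567459) (.g (nat_lit 2305) (.e (nat_lit 442425) (nat_lit 23) (.e (nat_lit 204831) (nat_lit 18) (.e (nat_lit 57688) (nat_lit 156) (.e (nat_lit 163905) (nat_lit 12) (.e (nat_lit 426479) (nat_lit 27) .nil))))) (.g (nat_lit 0) (.e (nat_lit 336571) (nat_lit 0) .nil) .nil))) 
(.lf (nat_lit 567971) (.g (nat_lit 3334) (.e (nat_lit 450580) (nat_lit 5) (.e (nat_lit 532522) (nat_lit 7) (.e (nat_lit 319530) (nat_lit 16) (.e (nat_lit 286733) (nat_lit 2) (.e (nat_lit 90134) (nat_lit 9) (.e (nat_lit 3009) (nat_lit 187) .nil)))))) (.g (nat_lit 1) (.e (nat_lit 341120) (nat_lit 0) .nil) .nil)))) (.nd (nat_lit 9) 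
(.lf (nat_lit 567715) (.g (nat_lit 1498) (.e (nat_lit 450565) (nat_lit 0) (.e (nat_lit 5546) (nat_lit 306) (.e (nat_lit 2628) (nat_lit 164) (.e (nat_lit 172126) (nat_lit 14) (.e (nat_lit 491549) (nat_lit 9) .nil))))) (.g (nat_lit 0) (.e (nat_lit 339157) (nat_lit 0) .nil) .nil))) 
(.lf (nat_lit 568227) (.g (nat_lit 2100) (.e (nat_lit 450587) (nat_lit 10) (.e (nat_lit 573469) (nat_lit 11) (.e (nat_lit 16473) (nat_lit 14) (.e (nat_lit 491525) (nat_lit 0) (.e (nat_lit 1809) (nat_lit 120) .nil))))) (.g (nat_lit 0) (.e (nat_lit 342645) (nat_lit 0) .nil) .nil)))))) (.nd (nat_lit 7) (.nd (nat_lit 8) (.nd (nat_lit 9) 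
(.lf (nat_lit 567395) (.g (nat_lit 2050) (.e (nat_lit 442421) (nat_lit 21) (.e (nat_lit 164324) (nat_lit 230) (.e (nat_lit 163884) (nat_lit 5) (.e (nat_lit 221194) (nat_lit 11) (.e (nat_lit 336084) (nat_lit 9) .nil))))) (.g (nat_lit 0) (.e (nat_lit 336220) (nat_lit 0) .nil) .nil))) 
(.lf (nat_lit 567907) (.g (nat_lit 2967) (.e (nat_lit 450579) (nat_lit 5) (.e (nat_lit 532523) (nat_lit 7) (.e (nat_lit 319534) (nat_lit 16) (.e (nat_lit 286733) (nat_lit 2) (.e (nat_lit 90134) (nat_lit 9) .nil))))) (.g (nat_lit 0) (.e (nat_lit 340446) (nat_lit 0) .nil) .nil)))) (.nd (nat_lit 9) 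
(.lf (nat_lit 567651) (.g (nat_lit 1423) (.e (nat_lit 442430) (nat_lit 24) (.e (nat_lit 229665) (nat_lit 240) (.e (nat_lit 2643) (nat_lit 165) (.e (nat_lit 180277) (nat_lit 32) (.e (nat_lit 1425) (nat_lit 108) .nil))))) (.g (nat_lit 0) (.e (nat_lit 337723) (nat_lit 0) .nil) .nil))) 
(.lf (nat_lit 568163) (.g (nat_lit 1879) (.e (nat_lit 450586) (nat_lit 10) (.e (nat_lit 573471) (nat_lit 11) (.e (nat_lit 16472) (nat_lit 14) (.e (nat_lit 499456) (nat_lit 3) .nil)))) (.g (nat_lit 0) (.e (nat_lit 342344) (nat_lit 0) .nil) .nil))))) (.nd (nat_lit 8) (.nd (nat_lit 9) 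
(.lf (nat_lit 567523) (.g (nat_lit 2210) (.e (nat_lit 442427) (nat_lit 23) (.e (nat_lit 204828) (nat_lit 18) (.e (nat_lit 57691) (nat_lit 156) (.e (nat_lit 163907) (nat_lit 12) (.e (nat_lit 426479) (nat_lit 27) (.e (nat_lit 336430) (nat_lit 29) .nil)))))) (.g (nat_lit 1) (.e (nat_lit 337017) (nat_lit 0) .nil) .nil))) 
(.lf (nat_lit 568035) (.g (nat_lit 1746) (.e (nat_lit 450581) (nat_lit 5) (.e (nat_lit 532523) (nat_lit 7) (.e (nat_lit 319504) (nat_lit 10) (.e (nat_lit 5390) (nat_lit 301) .nil)))) (.g (nat_lit 0) (.e (nat_lit 341623) (nat_lit 0) .nil) .nil)))) (.nd (nat_lit 9) 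
(.lf (nat_lit 567779) (.g (nat_lit 1429) (.e (nat_lit 458496) (nat_lit 0) (.e (nat_lit 5548) (nat_lit 306) (.e (nat_lit 2629) (nat_lit 164) (.e (nat_lit 172124) (nat_lit 14) (.e (nat_lit 491549) (nat_lit 9) .nil))))) (.g (nat_lit 0) (.e (nat_lit 339724) (nat_lit 0) .nil) .nil))) 
(.lf (nat_lit 568291) (.g (nat_lit 4114) (.e (nat_lit 450588) (nat_lit 10) (.e (nat_lit 573471) (nat_lit 11) (.e (nat_lit 16470) (nat_lit 14) (.e (nat_lit 491531) (nat_lit 0) .nil)))) (.g (nat_lit 0) (.e (nat_lit 343003) (nat_lit 0) .nil) .nil)))))))) (.nd (nat_lit 5) (.nd (nat_lit 6) (.nd (nat_lit 7) (.nd (nat_lit 8) (.nd (nat_lit 9) 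
(.lf (nat_lit 567315) (.g (nat_lit 4319) (.e (nat_lit 442411) (nat_lit 20) (.e (nat_lit 3469) (nat_lit 217) (.e (nat_lit 696344) (nat_lit 8) (.e (nat_lit 172106) (nat_lit 10) (.e (nat_lit 434209) (nat_lit 18) (.e (nat_lit 6427) (nat_lit 342) (.e (nat_lit 229412) (nat_lit 14) .nil))))))) (.g (nat_lit 1) (.e (nat_lit 335930) (nat_lit 0) .nil) .nil))) 
(.lf (nat_lit 567827) (.g (nat_lit 2386) (.e (nat_lit 450579) (nat_lit 5) (.e (nat_lit 532499) (nat_lit 1) (.e (nat_lit 57691) (nat_lit 156) (.e (nat_lit 163905) (nat_lit 12) (.e (nat_lit 426479) (nat_lit 27) (.e (nat_lit 336432) (nat_lit 30) .nil)))))) (.g (nat_lit 1) (.e (nat_lit 340182) (nat_lit 0) .nil) .nil)))) (.nd (nat_lit 9) 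
(.lf (nat_lit 567571) (.g (nat_lit 1772) (.e (nat_lit 442427) (nat_lit 23) (.e (nat_lit 204863) (nat_lit 27) (.e (nat_lit 344156) (nat_lit 36) (.e (nat_lit 638994) (nat_lit 7) .nil)))) (.g (nat_lit 0) (.e (nat_lit 337278) (nat_lit 0) .nil) .nil))) 
(.lf (nat_lit 568083) (.g (nat_lit 2572) (.e (nat_lit 458496) (nat_lit 3) (.e (nat_lit 516195) (nat_lit 26) (.e (nat_lit 336059) (nat_lit 7) (.e (nat_lit 319504) (nat_lit 10) (.e (nat_lit 806) (nat_lit 67) .nil))))) (.g (nat_lit 0) (.e (nat_lit 341725) (nat_lit 0) .nil) .nil))))) (.nd (nat_lit 8) (.nd (nat_lit 9) 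
(.lf (nat_lit 567443) (.g (nat_lit 913) (.e (nat_lit 442422) (nat_lit 22) (.e (nat_lit 196654) (nat_lit 11) (.e (nat_lit 16407) (nat_lit 1) (.e (nat_lit 164401) (nat_lit 256) .nil)))) (.g (nat_lit 0) (.e (nat_lit 336340) (nat_lit 0) .nil) .nil))) 
(.lf (nat_lit 567955) (.g (nat_lit 637) (.e (nat_lit 450580) (nat_lit 5) (.e (nat_lit 532501) (nat_lit 1) (.e (nat_lit 57665) (nat_lit 152) .nil))) (.g (nat_lit 0) (.e (nat_lit 341061) (nat_lit 0) .nil) .nil)))) (.nd (nat_lit 9) 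
(.lf (nat_lit 567699) (.g (nat_lit 1408) (.e (nat_lit 450564) (nat_lit 0) (.e (nat_lit 5546) (nat_lit 306) (.e (nat_lit 2649) (nat_lit 166) (.e (nat_lit 188420) (nat_lit 0) .nil)))) (.g (nat_lit 0) (.e (nat_lit 338957) (nat_lit 0) .nil) .nil))) 
(.lf (nat_lit 568211) (.g (nat_lit 861) (.e (nat_lit 450586) (nat_lit 10) (.e (nat_lit 573477) (nat_lit 12) (.e (nat_lit 57574) (nat_lit 55) (.e (nat_lit 778464) (nat_lit 11) .nil)))) (.g (nat_lit 0) (.e (nat_lit 342510) (nat_lit 0) .nil) .nil)))))) (.nd (nat_lit 7) (.nd (nat_lit 8) (.nd (nat_lit 9) 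
(.lf (nat_lit 567379) (.g (nat_lit 3280) (.e (nat_lit 442419) (nat_lit 21) (.e (nat_lit 164348) (nat_lit 240) (.e (nat_lit 2638) (nat_lit 165) (.e (nat_lit 180278) (nat_lit 32) (.e (nat_lit 1425) (nat_lit 108) (.e (nat_lit 336430) (nat_lit 29) .nil)))))) (.g (nat_lit 1) (.e (nat_lit 336124) (nat_lit 0) .nil) .nil))) 
(.lf (nat_lit 567891) (.g (nat_lit 2706) (.e (nat_lit 450579) (nat_lit 5) (.e (nat_lit 532523) (nat_lit 7) (.e (nat_lit 319529) (nat_lit 16) (.e (nat_lit 286733) (nat_lit 2) (.e (nat_lit 90134) (nat_lit 9) (.e (nat_lit 3025) (nat_lit 187) .nil)))))) (.g (nat_lit 1) (.e (nat_lit 340417) (nat_lit 0) .nil) .nil)))) (.nd (nat_lit 9) 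
(.lf (nat_lit 567635) (.g (nat_lit 393) (.e (nat_lit 442430) (nat_lit 24) (.e (nat_lit 229663) (nat_lit 240) (.e (nat_lit 2641) (nat_lit 165) .nil))) (.g (nat_lit 0) (.e (nat_lit 337616) (nat_lit 0) .nil) .nil))) 
(.lf (nat_lit 568147) (.g (nat_lit 2970) (.e (nat_lit 450586) (nat_lit 10) (.e (nat_lit 573471) (nat_lit 11) (.e (nat_lit 16425) (nat_lit 7) (.e (nat_lit 409611) (nat_lit 10) .nil)))) (.g (nat_lit 0) (.e (nat_lit 342215) (nat_lit 0) .nil) .nil))))) (.nd (nat_lit 8) (.nd (nat_lit 9) 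
(.lf (nat_lit 567507) (.g (nat_lit 2212) (.e (nat_lit 442426) (nat_lit 23) (.e (nat_lit 204846) (nat_lit 24) (.e (nat_lit 319529) (nat_lit 16) (.e (nat_lit 286735) (nat_lit 3) (.e (nat_lit 98369) (nat_lit 28) .nil))))) (.g (nat_lit 0) (.e (nat_lit 336877) (nat_lit 0) .nil) .nil))) 
(.lf (nat_lit 568019) (.g (nat_lit 1856) (.e (nat_lit 450580) (nat_lit 5) (.e (nat_lit 532579) (nat_lit 26) (.e (nat_lit 426100) (nat_lit 1) (.e (nat_lit 164400) (nat_lit 256) .nil)))) (.g (nat_lit 0) (.e (nat_lit 341574) (nat_lit 0) .nil) .nil)))) (.nd (nat_lit 9) 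
(.lf (nat_lit 567763) (.g (nat_lit 1178) (.e (nat_lit 458496) (nat_lit 0) (.e (nat_lit 5546) (nat_lit 306) (.e (nat_lit 2638) (nat_lit 165) (.e (nat_lit 188160) (nat_lit 32) .nil)))) (.g (nat_lit 0) (.e (nat_lit 339646) (nat_lit 0) .nil) .nil))) 
(.lf (nat_lit 568275) (.g (nat_lit 2243) (.e (nat_lit 450588) (nat_lit 10) (.e (nat_lit 573471) (nat_lit 11) (.e (nat_lit 16392) (nat_lit 0) (.e (nat_lit 7101) (nat_lit 380) .nil)))) (.g (nat_lit 0) (.e (nat_lit 342914) (nat_lit 0) .nil) .nil))))))) (.nd (nat_lit 6) (.nd (nat_lit 7) (.nd (nat_lit 8) (.nd (nat_lit 9) 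
(.lf (nat_lit 567347) (.g (nat_lit 4526) (.e (nat_lit 442412) (nat_lit 20) (.e (nat_lit 3469) (nat_lit 217) (.e (nat_lit 696344) (nat_lit 8) (.e (nat_lit 172115) (nat_lit 10) (.e (nat_lit 434209) (nat_lit 18) (.e (nat_lit 6425) (nat_lit 342) (.e (nat_lit 229412) (nat_lit 14) .nil))))))) (.g (nat_lit 1) (.e (nat_lit 336023) (nat_lit 0) .nil) .nil))) 
(.lf (nat_lit 567859) (.g (nat_lit 2219) (.e (nat_lit 450579) (nat_lit 5) (.e (nat_lit 532503) (nat_lit 1) (.e (nat_lit 57691) (nat_lit 156) (.e (nat_lit 163907) (nat_lit 12) (.e (nat_lit 426479) (nat_lit 27) (.e (nat_lit 336432) (nat_lit 30) .nil)))))) (.g (nat_lit 1) (.e (nat_lit 340323) (nat_lit 0) .nil) .nil)))) (.nd (nat_lit 9) 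
(.lf (nat_lit 567603) (.g (nat_lit 2568) (.e (nat_lit 442428) (nat_lit 24) (.e (nat_lit 229663) (nat_lit 240) (.e (nat_lit 2641) (nat_lit 165) (.e (nat_lit 180278) (nat_lit 32) (.e (nat_lit 1425) (nat_lit 108) (.e (nat_lit 336430) (nat_lit 29) .nil)))))) (.g (nat_lit 1) (.e (nat_lit 337455) (nat_lit 0) .nil) .nil))) 
(.lf (nat_lit 568115) (.g (nat_lit 2253) (.e (nat_lit 450586) (nat_lit 10) (.e (nat_lit 573457) (nat_lit 9) (.e (nat_lit 430) (nat_lit 32) (.e (nat_lit 426009) (nat_lit 0) (.e (nat_lit 7583) (nat_lit 405) (.e (nat_lit 57464) (nat_lit 23) (.e (nat_lit 516165) (nat_lit 12) .nil))))))) (.g (nat_lit 1) (.e (nat_lit 342166) (nat_lit 0) .nil) .nil))))) (.nd (nat_lit 8) (.nd (nat_lit 9) 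
(.lf (nat_lit 567475) (.g (nat_lit 2129) (.e (nat_lit 442425) (nat_lit 23) (.e (nat_lit 204846) (nat_lit 24) (.e (nat_lit 319528) (nat_lit 16) (.e (nat_lit 286735) (nat_lit 3) (.e (nat_lit 98371) (nat_lit 28) .nil))))) (.g (nat_lit 0) (.e (nat_lit 336613) (nat_lit 0) .nil) .nil))) 
(.lf (nat_lit 567987) (.g (nat_lit 1174) (.e (nat_lit 450580) (nat_lit 5) (.e (nat_lit 532523) (nat_lit 7) (.e (nat_lit 319505) (nat_lit 10) (.e (nat_lit 5351) (nat_lit 298) .nil)))) (.g (nat_lit 0) (.e (nat_lit 341138) (nat_lit 0) .nil) .nil)))) (.nd (nat_lit 9) 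
(.lf (nat_lit 567731) (.g (nat_lit 1363) (.e (nat_lit 450566) (nat_lit 0) (.e (nat_lit 5546) (nat_lit 306) (.e (nat_lit 2648) (nat_lit 166) (.e (nat_lit 188418) (nat_lit 0) .nil)))) (.g (nat_lit 0) (.e (nat_lit 339367) (nat_lit 0) .nil) .nil))) 
(.lf (nat_lit 568243) (.g (nat_lit 2034) (.e (nat_lit 450587) (nat_lit 10) (.e (nat_lit 573477) (nat_lit 12) (.e (nat_lit 57574) (nat_lit 55) (.e (nat_lit 778362) (nat_lit 9) (.e (nat_lit 307) (nat_lit 22) .nil))))) (.g (nat_lit 0) (.e (nat_lit 342721) (nat_lit 0) .nil) .nil)))))) (.nd (nat_lit 7) (.nd (nat_lit 8) (.nd (nat_lit 9) 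
(.lf (nat_lit 567411) (.g (nat_lit 1328) (.e (nat_lit 442421) (nat_lit 21) (.e (nat_lit 164331) (nat_lit 230) (.e (nat_lit 163885) (nat_lit 5) (.e (nat_lit 229120) (nat_lit 13) .nil)))) (.g (nat_lit 0) (.e (nat_lit 336241) (nat_lit 0) .nil) .nil))) 
(.lf (nat_lit 567923) (.g (nat_lit 5036) (.e (nat_lit 450579) (nat_lit 5) (.e (nat_lit 532566) (nat_lit 15) (.e (nat_lit 385093) (nat_lit 49) (.e (nat_lit 778317) (nat_lit 3) (.e (nat_lit 57476) (nat_lit 28) (.e (nat_lit 557067) (nat_lit 9) (.e (nat_lit 3022) (nat_lit 187) .nil))))))) (.g (nat_lit 1) (.e (nat_lit 340846) (nat_lit 0) .nil) .nil)))) (.nd (nat_lit 9) 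
(.lf (nat_lit 567667) (.g (nat_lit 2264) (.e (nat_lit 442436) (nat_lit 26) (.e (nat_lit 253995) (nat_lit 12) (.e (nat_lit 57572) (nat_lit 54) (.e (nat_lit 770072) (nat_lit 8) (.e (nat_lit 65565) (nat_lit 1) .nil))))) (.g (nat_lit 0) (.e (nat_lit 338097) (nat_lit 0) .nil) .nil))) 
(.lf (nat_lit 568179) (.g (nat_lit 883) (.e (nat_lit 450586) (nat_lit 10) (.e (nat_lit 573474) (nat_lit 12) (.e (nat_lit 57500) (nat_lit 37) .nil))) (.g (nat_lit 0) (.e (nat_lit 342400) (nat_lit 0) .nil) .nil))))) (.nd (nat_lit 8) (.nd (nat_lit 9) 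
(.lf (nat_lit 567539) (.g (nat_lit 2627) (.e (nat_lit 442427) (nat_lit 23) (.e (nat_lit 204831) (nat_lit 18) (.e (nat_lit 57691) (nat_lit 156) (.e (nat_lit 163905) (nat_lit 12) (.e (nat_lit 426479) (nat_lit 27) .nil))))) (.g (nat_lit 0) (.e (nat_lit 337076) (nat_lit 0) .nil) .nil))) 
(.lf (nat_lit 568051) (.g (nat_lit 2657) (.e (nat_lit 450581) (nat_lit 5) (.e (nat_lit 532523) (nat_lit 7) (.e (nat_lit 319534) (nat_lit 16) (.e (nat_lit 286732) (nat_lit 2) (.e (nat_lit 90134) (nat_lit 9) .nil))))) (.g (nat_lit 0) (.e (nat_lit 341647) (nat_lit 0) .nil) .nil)))) (.nd (nat_lit 9) 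
(.lf (nat_lit 567795) (.g (nat_lit 237) (.e (nat_lit 458496) (nat_lit 1) (.e (nat_lit 499910) (nat_lit 8) (.e (nat_lit 164009) (nat_lit 41) .nil))) (.g (nat_lit 0) (.e (nat_lit 339912) (nat_lit 0) .nil) .nil))) 
(.lf (nat_lit 568307) (.g (nat_lit 2734) (.e (nat_lit 450588) (nat_lit 10) (.e (nat_lit 573473) (nat_lit 12) (.e (nat_lit 57511) (nat_lit 39) (.e (nat_lit 647199) (nat_lit 11) (.e (nat_lit 16388) (nat_lit 0) (.e (nat_lit 3544) (nat_lit 219) (.e (nat_lit 712754) (nat_lit 30) .nil))))))) (.g (nat_lit 1) (.e (nat_lit 343049) (nat_lit 0) .nil) .nil))))))))) 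
(.nd (nat_lit 4) (.nd (nat_lit 5) (.nd (nat_lit 6) (.nd (nat_lit 7) (.nd (nat_lit 8) 
(.nd (nat_lit 9) 
(.lf (nat_lit 567307) (.g (nat_lit 3574) (.e (nat_lit 442411) (nat_lit 20) (.e (nat_lit 3308) (nat_lit 202) (.e (nat_lit 573471) (nat_lit 11) (.e (nat_lit 16425) (nat_lit 7) (.e (nat_lit 409616) (nat_lit 10) .nil))))) (.g (nat_lit 0) (.e (nat_lit 335910) (nat_lit 0) .nil) .nil))) 
(.lf (nat_lit 567819) (.g (nat_lit 309) (.e (nat_lit 450579) (nat_lit 5) (.e (nat_lit 532499) (nat_lit 1) (.e (nat_lit 57688) (nat_lit 156) .nil))) (.g (nat_lit 0) (.e (nat_lit 340161) (nat_lit 0) .nil) .nil)))) (.nd (nat_lit 9) 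
(.lf (nat_lit 567563) (.g (nat_lit 1755) (.e (nat_lit 442427) (nat_lit 23) (.e (nat_lit 204846) (nat_lit 24) (.e (nat_lit 319533) (nat_lit 16) (.e (nat_lit 286727) (nat_lit 0) .nil)))) (.g (nat_lit 0) (.e (nat_lit 337164) (nat_lit 0) .nil) .nil))) 
(.lf (nat_lit 568075) (.g (nat_lit 2870) (.e (nat_lit 458496) (nat_lit 3) (.e (nat_lit 516115) (nat_lit 1) (.e (nat_lit 164325) (nat_lit 230) (.e (nat_lit 163863) (nat_lit 1) .nil)))) (.g (nat_lit 0) (.e (nat_lit 341708) (nat_lit 0) .nil) .nil))))) (.nd (nat_lit 8) (.nd (nat_lit 9) 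
(.lf (nat_lit 567435) (.g (nat_lit 1129) (.e (nat_lit 442421) (nat_lit 21) (.e (nat_lit 164347) (nat_lit 240) (.e (nat_lit 2638) (nat_lit 165) (.e (nat_lit 180275) (nat_lit 32) .nil)))) (.g (nat_lit 0) (.e (nat_lit 336290) (nat_lit 0) .nil) .nil))) 
(.lf (nat_lit 567947) (.g (nat_lit 1186) (.e (nat_lit 450580) (nat_lit 5) (.e (nat_lit 532499) (nat_lit 1) (.e (nat_lit 57665) (nat_lit 152) (.e (nat_lit 2466) (nat_lit 157) .nil)))) (.g (nat_lit 0) (.e (nat_lit 341004) (nat_lit 0) .nil) .nil)))) (.nd (nat_lit 9) 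
(.lf (nat_lit 567691) (.g (nat_lit 3136) (.e (nat_lit 450564) (nat_lit 0) (.e (nat_lit 5546) (nat_lit 306) (.e (nat_lit 2619) (nat_lit 164) (.e (nat_lit 172118) (nat_lit 12) (.e (nat_lit 475211) (nat_lit 41) (.e (nat_lit 712753) (nat_lit 30) .nil)))))) (.g (nat_lit 1) (.e (nat_lit 338932) (nat_lit 0) .nil) .nil))) 
(.lf (nat_lit 568203) (.g (nat_lit 634) (.e (nat_lit 450586) (nat_lit 10) (.e (nat_lit 573475) (nat_lit 12) (.e (nat_lit 57510) (nat_lit 39) .nil))) (.g (nat_lit 0) (.e (nat_lit 342477) (nat_lit 0) .nil) .nil)))))) (.nd (nat_lit 7) (.nd (nat_lit 8) (.nd (nat_lit 9) 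
(.lf (nat_lit 567371) (.g (nat_lit 3501) (.e (nat_lit 442419) (nat_lit 21) (.e (nat_lit 164348) (nat_lit 240) (.e (nat_lit 2628) (nat_lit 164) (.e (nat_lit 172124) (nat_lit 14) (.e (nat_lit 491550) (nat_lit 9) (.e (nat_lit 336430) (nat_lit 29) .nil)))))) (.g (nat_lit 1) (.e (nat_lit 336115) (nat_lit 0) .nil) .nil))) 
(.lf (nat_lit 567883) (.g (nat_lit 2256) (.e (nat_lit 450579) (nat_lit 5) (.e (nat_lit 532522) (nat_lit 7) (.e (nat_lit 319530) (nat_lit 16) (.e (nat_lit 286733) (nat_lit 2) (.e (nat_lit 90133) (nat_lit 9) .nil))))) (.g (nat_lit 0) (.e (nat_lit 340409) (nat_lit 0) .nil) .nil)))) (.nd (nat_lit 9) 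
(.lf (nat_lit 567627) (.g (nat_lit 728) (.e (nat_lit 442429) (nat_lit 24) (.e (nat_lit 229678) (nat_lit 244) (.e (nat_lit 163899) (nat_lit 11) (.e (nat_lit 417809) (nat_lit 6) .nil)))) (.g (nat_lit 0) (.e (nat_lit 337568) (nat_lit 0) .nil) .nil))) 
(.lf (nat_lit 568139) (.g (nat_lit 1596) (.e (nat_lit 450586) (nat_lit 10) (.e (nat_lit 573471) (nat_lit 11) (.e (nat_lit 16394) (nat_lit 0) (.e (nat_lit 7936) (nat_lit 402) .nil)))) (.g (nat_lit 0) (.e (nat_lit 342206) (nat_lit 0) .nil) .nil))))) (.nd (nat_lit 8) (.nd (nat_lit 9) 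
(.lf (nat_lit 567499) (.g (nat_lit 1985) (.e (nat_lit 442426) (nat_lit 23) (.e (nat_lit 204846) (nat_lit 24) (.e (nat_lit 319504) (nat_lit 10) (.e (nat_lit 5393) (nat_lit 301) .nil)))) (.g (nat_lit 0) (.e (nat_lit 336864) (nat_lit 0) .nil) .nil))) 
(.lf (nat_lit 568011) (.g (nat_lit 966) (.e (nat_lit 450580) (nat_lit 5) (.e (nat_lit 532530) (nat_lit 9) (.e (nat_lit 336240) (nat_lit 15) (.e (nat_lit 3605) (nat_lit 225) .nil)))) (.g (nat_lit 0) (.e (nat_lit 341263) (nat_lit 0) .nil) .nil)))) (.nd (nat_lit 9) 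
(.lf (nat_lit 567755) (.g (nat_lit 1232) (.e (nat_lit 458496) (nat_lit 0) (.e (nat_lit 5546) (nat_lit 306) (.e (nat_lit 2619) (nat_lit 164) (.e (nat_lit 172124) (nat_lit 14) .nil)))) (.g (nat_lit 0) (.e (nat_lit 339632) (nat_lit 0) .nil) .nil))) 
(.lf (nat_lit 568267) (.g (nat_lit 854) (.e (nat_lit 450588) (nat_lit 10) (.e (nat_lit 573469) (nat_lit 11) (.e (nat_lit 16424) (nat_lit 7) (.e (nat_lit 409616) (nat_lit 10) .nil)))) (.g (nat_lit 0) (.e (nat_lit 342885) (nat_lit 0) .nil) .nil))))))) (.nd (nat_lit 6) (.nd (nat_lit 7) (.nd (nat_lit 8) (.nd (nat_lit 9) 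
(.lf (nat_lit 567339) (.g (nat_lit 2331) (.e (nat_lit 442412) (nat_lit 20) (.e (nat_lit 3391) (nat_lit 210) (.e (nat_lit 639021) (nat_lit 16) (.e (nat_lit 65617) (nat_lit 10) (.e (nat_lit 344161) (nat_lit 37) (.e (nat_lit 647190) (nat_lit 9) (.e (nat_lit 7936) (nat_lit 34) .nil))))))) (.g (nat_lit 1) (.e (nat_lit 335984) (nat_lit 0) .nil) .nil))) 
(.lf (nat_lit 567851) (.g (nat_lit 2473) (.e (nat_lit 450579) (nat_lit 5) (.e (nat_lit 532503) (nat_lit 1) (.e (nat_lit 57687) (nat_lit 156) (.e (nat_lit 163905) (nat_lit 12) (.e (nat_lit 426479) (nat_lit 27) (.e (nat_lit 336434) (nat_lit 30) .nil)))))) (.g (nat_lit 1) (.e (nat_lit 340306) (nat_lit 0) .nil) .nil)))) (.nd (nat_lit 9) 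
(.lf (nat_lit 567595) (.g (nat_lit 2291) (.e (nat_lit 450304) (nat_lit 23) (.e (nat_lit 204846) (nat_lit 24) (.e (nat_lit 319534) (nat_lit 16) (.e (nat_lit 286735) (nat_lit 3) (.e (nat_lit 98371) (nat_lit 28) .nil))))) (.g (nat_lit 0) (.e (nat_lit 337434) (nat_lit 0) .nil) .nil))) 
(.lf (nat_lit 568107) (.g (nat_lit 2111) (.e (nat_lit 450586) (nat_lit 10) (.e (nat_lit 573450) (nat_lit 9) (.e (nat_lit 375) (nat_lit 32) (.e (nat_lit 426346) (nat_lit 14) .nil)))) (.g (nat_lit 0) (.e (nat_lit 342097) (nat_lit 0) .nil) .nil))))) (.nd (nat_lit 8) (.nd (nat_lit 9) 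
(.lf (nat_lit 567467) (.g (nat_lit 2757) (.e (nat_lit 442425) (nat_lit 23) (.e (nat_lit 204845) (nat_lit 24) (.e (nat_lit 319533) (nat_lit 16) (.e (nat_lit 286735) (nat_lit 3) (.e (nat_lit 98369) (nat_lit 28) .nil))))) (.g (nat_lit 0) (.e (nat_lit 336603) (nat_lit 0) .nil) .nil))) 
(.lf (nat_lit 567979) (.g (nat_lit 1282) (.e (nat_lit 450580) (nat_lit 5) (.e (nat_lit 532523) (nat_lit 7) (.e (nat_lit 319500) (nat_lit 10) (.e (nat_lit 5389) (nat_lit 301) .nil)))) (.g (nat_lit 0) (.e (nat_lit 341130) (nat_lit 0) .nil) .nil)))) (.nd (nat_lit 9) 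
(.lf (nat_lit 567723) (.g (nat_lit 3695) (.e (nat_lit 450565) (nat_lit 0) (.e (nat_lit 5548) (nat_lit 306) (.e (nat_lit 2619) (nat_lit 164) (.e (nat_lit 172120) (nat_lit 12) (.e (nat_lit 475210) (nat_lit 41) (.e (nat_lit 712753) (nat_lit 30) .nil)))))) (.g (nat_lit 1) (.e (nat_lit 339188) (nat_lit 0) .nil) .nil))) 
(.lf (nat_lit 568235) (.g (nat_lit 4288) (.e (nat_lit 450587) (nat_lit 10) (.e (nat_lit 573471) (nat_lit 11) (.e (nat_lit 16470) (nat_lit 14) (.e (nat_lit 491539) (nat_lit 3) (.e (nat_lit 98373) (nat_lit 29) .nil))))) (.g (nat_lit 0) (.e (nat_lit 342656) (nat_lit 0) .nil) .nil)))))) (.nd (nat_lit 7) (.nd (nat_lit 8) (.nd (nat_lit 9) 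
(.lf (nat_lit 567403) (.g (nat_lit 2063) (.e (nat_lit 442421) (nat_lit 21) (.e (nat_lit 164326) (nat_lit 230) (.e (nat_lit 163881) (nat_lit 4) (.e (nat_lit 213032) (nat_lit 11) (.e (nat_lit 24629) (nat_lit 9) (.e (nat_lit 336427) (nat_lit 29) .nil)))))) (.g (nat_lit 1) (.e (nat_lit 336230) (nat_lit 0) .nil) .nil))) 
(.lf (nat_lit 567915) (.g (nat_lit 514) (.e (nat_lit 450579) (nat_lit 5) (.e (nat_lit 532534) (nat_lit 9) (.e (nat_lit 336000) (nat_lit 1) .nil))) (.g (nat_lit 0) (.e (nat_lit 340619) (nat_lit 0) .nil) .nil)))) (.nd (nat_lit 9) 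
(.lf (nat_lit 567659) (.g (nat_lit 1339) (.e (nat_lit 442430) (nat_lit 24) (.e (nat_lit 229680) (nat_lit 244) (.e (nat_lit 163902) (nat_lit 12) (.e (nat_lit 426320) (nat_lit 12) .nil)))) (.g (nat_lit 0) (.e (nat_lit 337803) (nat_lit 0) .nil) .nil))) 
(.lf (nat_lit 568171) (.g (nat_lit 3200) (.e (nat_lit 450586) (nat_lit 10) (.e (nat_lit 573471) (nat_lit 11) (.e (nat_lit 16473) (nat_lit 14) (.e (nat_lit 491576) (nat_lit 15) .nil)))) (.g (nat_lit 0) (.e (nat_lit 342355) (nat_lit 0) .nil) .nil))))) (.nd (nat_lit 8) (.nd (nat_lit 9) 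
(.lf (nat_lit 567531) (.g (nat_lit 3540) (.e (nat_lit 442427) (nat_lit 23) (.e (nat_lit 204830) (nat_lit 18) (.e (nat_lit 57691) (nat_lit 156) (.e (nat_lit 163905) (nat_lit 12) (.e (nat_lit 426479) (nat_lit 27) (.e (nat_lit 336430) (nat_lit 29) .nil)))))) (.g (nat_lit 1) (.e (nat_lit 337054) (nat_lit 0) .nil) .nil))) 
(.lf (nat_lit 568043) (.g (nat_lit 2455) (.e (nat_lit 450581) (nat_lit 5) (.e (nat_lit 532523) (nat_lit 7) (.e (nat_lit 319532) (nat_lit 16) (.e (nat_lit 286733) (nat_lit 2) (.e (nat_lit 90134) (nat_lit 9) (.e (nat_lit 3009) (nat_lit 187) .nil)))))) (.g (nat_lit 1) (.e (nat_lit 341636) (nat_lit 0) .nil) .nil)))) (.nd (nat_lit 9) 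
(.lf (nat_lit 567787) (.g (nat_lit 1424) (.e (nat_lit 458496) (nat_lit 0) (.e (nat_lit 5587) (nat_lit 310) (.e (nat_lit 163903) (nat_lit 12) (.e (nat_lit 426320) (nat_lit 12) .nil)))) (.g (nat_lit 0) (.e (nat_lit 339755) (nat_lit 0) .nil) .nil))) 
(.lf (nat_lit 568299) (.g (nat_lit 2719) (.e (nat_lit 450588) (nat_lit 10) (.e (nat_lit 573473) (nat_lit 12) (.e (nat_lit 57508) (nat_lit 39) (.e (nat_lit 647195) (nat_lit 9) (.e (nat_lit 426) (nat_lit 32) (.e (nat_lit 426009) (nat_lit 0) (.e (nat_lit 3546) (nat_lit 219) (.e (nat_lit 712754) (nat_lit 30) .nil)))))))) (.g (nat_lit 1) (.e (nat_lit 343038) (nat_lit 0) .nil) .nil)))))))) 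
(.nd (nat_lit 5) (.nd (nat_lit 6) (.nd (nat_lit 7) (.nd (nat_lit 8) (.nd (nat_lit 9) 
(.lf (nat_lit 567323) (.g (nat_lit 1398) (.e (nat_lit 442412) (nat_lit 20) (.e (nat_lit 3272) (nat_lit 199) (.e (nat_lit 548911) (nat_lit 18) (.e (nat_lit 172126) (nat_lit 14) (.e (nat_lit 491540) (nat_lit 3) .nil))))) (.g (nat_lit 0) (.e (nat_lit 335956) (nat_lit 0) .nil) .nil))) 
(.lf (nat_lit 567835) (.g (nat_lit 2378) (.e (nat_lit 450579) (nat_lit 5) (.e (nat_lit 532501) (nat_lit 1) (.e (nat_lit 57663) (nat_lit 152) (.e (nat_lit 2630) (nat_lit 164) (.e (nat_lit 172039) (nat_lit 0) (.e (nat_lit 3547) (nat_lit 219) (.e (nat_lit 712753) (nat_lit 30) .nil))))))) (.g (nat_lit 1) (.e (nat_lit 340223) (nat_lit 0) .nil) .nil)))) (.nd (nat_lit 9) 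
(.lf (nat_lit 567579) (.g (nat_lit 2086) (.e (nat_lit 450304) (nat_lit 23) (.e (nat_lit 204845) (nat_lit 24) (.e (nat_lit 319531) (nat_lit 16) (.e (nat_lit 286735) (nat_lit 3) (.e (nat_lit 98371) (nat_lit 28) .nil))))) (.g (nat_lit 0) (.e (nat_lit 337417) (nat_lit 0) .nil) .nil))) 
(.lf (nat_lit 568091) (.g (nat_lit 1241) (.e (nat_lit 458496) (nat_lit 7) (.e (nat_lit 548913) (nat_lit 18) (.e (nat_lit 172125) (nat_lit 14) (.e (nat_lit 491540) (nat_lit 3) .nil)))) (.g (nat_lit 0) (.e (nat_lit 342042) (nat_lit 0) .nil) .nil))))) (.nd (nat_lit 8) (.nd (nat_lit 9) 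
(.lf (nat_lit 567451) (.g (nat_lit 506) (.e (nat_lit 442425) (nat_lit 23) (.e (nat_lit 204821) (nat_lit 17) (.e (nat_lit 2346) (nat_lit 151) (.e (nat_lit 778482) (nat_lit 12) (.e (nat_lit 164042) (nat_lit 55) .nil))))) (.g (nat_lit 0) (.e (nat_lit 336505) (nat_lit 0) .nil) .nil))) 
(.lf (nat_lit 567963) (.g (nat_lit 2796) (.e (nat_lit 450580) (nat_lit 5) (.e (nat_lit 532503) (nat_lit 1) (.e (nat_lit 57688) (nat_lit 156) (.e (nat_lit 163907) (nat_lit 12) (.e (nat_lit 426479) (nat_lit 27) (.e (nat_lit 336432) (nat_lit 30) .nil)))))) (.g (nat_lit 1) (.e (nat_lit 341097) (nat_lit 0) .nil) .nil)))) (.nd (nat_lit 9) 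
(.lf (nat_lit 567707) (.g (nat_lit 3821) (.e (nat_lit 450564) (nat_lit 0) (.e (nat_lit 5548) (nat_lit 306) (.e (nat_lit 2619) (nat_lit 164) (.e (nat_lit 172126) (nat_lit 14) (.e (nat_lit 491549) (nat_lit 9) (.e (nat_lit 336434) (nat_lit 30) .nil)))))) (.g (nat_lit 1) (.e (nat_lit 338994) (nat_lit 0) .nil) .nil))) 
(.lf (nat_lit 568219) (.g (nat_lit 2765) (.e (nat_lit 450586) (nat_lit 10) (.e (nat_lit 573477) (nat_lit 12) (.e (nat_lit 57575) (nat_lit 55) (.e (nat_lit 778466) (nat_lit 11) (.e (nat_lit 24607) (nat_lit 3) (.e (nat_lit 98372) (nat_lit 29) .nil)))))) (.g (nat_lit 1) (.e (nat_lit 342549) (nat_lit 0) .nil) .nil)))))) (.nd (nat_lit 7) (.nd (nat_lit 8) (.nd (nat_lit 9) 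
(.lf (nat_lit 567387) (.g (nat_lit 766) (.e (nat_lit 442420) (nat_lit 21) (.e (nat_lit 164324) (nat_lit 230) (.e (nat_lit 163884) (nat_lit 5) (.e (nat_lit 229120) (nat_lit 16) .nil)))) (.g (nat_lit 0) (.e (nat_lit 336159) (nat_lit 0) .nil) .nil))) 
(.lf (nat_lit 567899) (.g (nat_lit 2686) (.e (nat_lit 450579) (nat_lit 5) (.e (nat_lit 532523) (nat_lit 7) (.e (nat_lit 319533) (nat_lit 16) (.e (nat_lit 286732) (nat_lit 2) (.e (nat_lit 90134) (nat_lit 9) (.e (nat_lit 3025) (nat_lit 187) .nil)))))) (.g (nat_lit 1) (.e (nat_lit 340434) (nat_lit 0) .nil) .nil)))) (.nd (nat_lit 9) 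
(.lf (nat_lit 567643) (.g (nat_lit 252) (.e (nat_lit 442430) (nat_lit 24) (.e (nat_lit 229664) (nat_lit 240) (.e (nat_lit 2651) (nat_lit 166) .nil))) (.g (nat_lit 0) (.e (nat_lit 337680) (nat_lit 0) .nil) .nil))) 
(.lf (nat_lit 568155) (.g (nat_lit 4167) (.e (nat_lit 450586) (nat_lit 10) (.e (nat_lit 573471) (nat_lit 11) (.e (nat_lit 16470) (nat_lit 14) (.e (nat_lit 491525) (nat_lit 0) .nil)))) (.g (nat_lit 0) (.e (nat_lit 342326) (nat_lit 0) .nil) .nil))))) (.nd (nat_lit 8) (.nd (nat_lit 9) 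
(.lf (nat_lit 567515) (.g (nat_lit 1940) (.e (nat_lit 442426) (nat_lit 23) (.e (nat_lit 204846) (nat_lit 24) (.e (nat_lit 319534) (nat_lit 16) (.e (nat_lit 286728) (nat_lit 0) (.e (nat_lit 1802) (nat_lit 119) .nil))))) (.g (nat_lit 0) (.e (nat_lit 336901) (nat_lit 0) .nil) .nil))) 
(.lf (nat_lit 568027) (.g (nat_lit 518) (.e (nat_lit 450581) (nat_lit 5) (.e (nat_lit 532499) (nat_lit 1) (.e (nat_lit 57688) (nat_lit 156) .nil))) (.g (nat_lit 0) (.e (nat_lit 341590) (nat_lit 0) .nil) .nil)))) (.nd (nat_lit 9) 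
(.lf (nat_lit 567771) (.g (nat_lit 404) (.e (nat_lit 458496) (nat_lit 0) (.e (nat_lit 5546) (nat_lit 306) (.e (nat_lit 2649) (nat_lit 166) .nil))) (.g (nat_lit 0) (.e (nat_lit 339668) (nat_lit 0) .nil) .nil))) 
(.lf (nat_lit 568283) (.g (nat_lit 4726) (.e (nat_lit 450588) (nat_lit 10) (.e (nat_lit 573471) (nat_lit 11) (.e (nat_lit 16470) (nat_lit 14) (.e (nat_lit 491520) (nat_lit 0) (.e (nat_lit 1788) (nat_lit 119) .nil))))) (.g (nat_lit 0) (.e (nat_lit 342995) (nat_lit 0) .nil) .nil))))))) (.nd (nat_lit 6) (.nd (nat_lit 7) (.nd (nat_lit 8) (.nd (nat_lit 9) 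
(.lf (nat_lit 567355) (.g (nat_lit 1289) (.e (nat_lit 442419) (nat_lit 21) (.e (nat_lit 164331) (nat_lit 230) (.e (nat_lit 163884) (nat_lit 5) (.e (nat_lit 229120) (nat_lit 13) .nil)))) (.g (nat_lit 0) (.e (nat_lit 336080) (nat_lit 0) .nil) .nil))) 
(.lf (nat_lit 567867) (.g (nat_lit 1749) (.e (nat_lit 450579) (nat_lit 5) (.e (nat_lit 532504) (nat_lit 1) (.e (nat_lit 57662) (nat_lit 152) (.e (nat_lit 2630) (nat_lit 164) (.e (nat_lit 172049) (nat_lit 0) (.e (nat_lit 7936) (nat_lit 219) (.e (nat_lit 712753) (nat_lit 30) .nil))))))) (.g (nat_lit 1) (.e (nat_lit 340348) (nat_lit 0) .nil) .nil)))) (.nd (nat_lit 9) 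
(.lf (nat_lit 567611) (.g (nat_lit 3190) (.e (nat_lit 442428) (nat_lit 24) (.e (nat_lit 229666) (nat_lit 240) (.e (nat_lit 2622) (nat_lit 164) (.e (nat_lit 172124) (nat_lit 14) (.e (nat_lit 491550) (nat_lit 9) (.e (nat_lit 336430) (nat_lit 29) .nil)))))) (.g (nat_lit 1) (.e (nat_lit 337496) (nat_lit 0) .nil) .nil))) 
(.lf (nat_lit 568123) (.g (nat_lit 2839) (.e (nat_lit 450586) (nat_lit 10) (.e (nat_lit 573471) (nat_lit 11) (.e (nat_lit 16385) (nat_lit 0) (.e (nat_lit 7581) (nat_lit 405) (.e (nat_lit 57464) (nat_lit 23) (.e (nat_lit 516165) (nat_lit 12) .nil)))))) (.g (nat_lit 1) (.e (nat_lit 342190) (nat_lit 0) .nil) .nil))))) (.nd (nat_lit 8) (.nd (nat_lit 9) 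
(.lf (nat_lit 567483) (.g (nat_lit 2605) (.e (nat_lit 442425) (nat_lit 23) (.e (nat_lit 204885) (nat_lit 33) (.e (nat_lit 401448) (nat_lit 10) (.e (nat_lit 434238) (nat_lit 25) (.e (nat_lit 548896) (nat_lit 14) .nil))))) (.g (nat_lit 0) (.e (nat_lit 336793) (nat_lit 0) .nil) .nil))) 
(.lf (nat_lit 567995) (.g (nat_lit 3848) (.e (nat_lit 450580) (nat_lit 5) (.e (nat_lit 532523) (nat_lit 7) (.e (nat_lit 319530) (nat_lit 16) (.e (nat_lit 286733) (nat_lit 2) (.e (nat_lit 90134) (nat_lit 9) (.e (nat_lit 3009) (nat_lit 187) .nil)))))) (.g (nat_lit 1) (.e (nat_lit 341152) (nat_lit 0) .nil) .nil)))) (.nd (nat_lit 9) 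
(.lf (nat_lit 567739) (.g (nat_lit 1609) (.e (nat_lit 450569) (nat_lit 0) (.e (nat_lit 5190) (nat_lit 294) (.e (nat_lit 57412) (nat_lit 12) (.e (nat_lit 336176) (nat_lit 10) (.e (nat_lit 344157) (nat_lit 36) (.e (nat_lit 638985) (nat_lit 5) (.e (nat_lit 3022) (nat_lit 187) .nil))))))) (.g (nat_lit 1) (.e (nat_lit 339502) (nat_lit 0) .nil) .nil))) 
(.lf (nat_lit 568251) (.g (nat_lit 2395) (.e (nat_lit 450587) (nat_lit 10) (.e (nat_lit 573477) (nat_lit 12) (.e (nat_lit 57574) (nat_lit 55) (.e (nat_lit 778466) (nat_lit 11) (.e (nat_lit 24595) (nat_lit 0) .nil))))) (.g (nat_lit 0) (.e (nat_lit 342749) (nat_lit 0) .nil) .nil)))))) (.nd (nat_lit 7) (.nd (nat_lit 8) (.nd (nat_lit 9) 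
(.lf (nat_lit 567419) (.g (nat_lit 985) (.e (nat_lit 442421) (nat_lit 21) (.e (nat_lit 164319) (nat_lit 228) (.e (nat_lit 57427) (nat_lit 15) (.e (nat_lit 360483) (nat_lit 15) (.e (nat_lit 647188) (nat_lit 9) .nil))))) (.g (nat_lit 0) (.e (nat_lit 336254) (nat_lit 0) .nil) .nil))) 
(.lf (nat_lit 567931) (.g (nat_lit 1924) (.e (nat_lit 450579) (nat_lit 5) (.e (nat_lit 532579) (nat_lit 26) (.e (nat_lit 426098) (nat_lit 1) (.e (nat_lit 164398) (nat_lit 256) (.e (nat_lit 57405) (nat_lit 12) .nil))))) (.g (nat_lit 0) (.e (nat_lit 340940) (nat_lit 0) .nil) .nil)))) (.nd (nat_lit 9) 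
(.lf (nat_lit 567675) (.g (nat_lit 419) (.e (nat_lit 450561) (nat_lit 0) (.e (nat_lit 6830) (nat_lit 367) (.e (nat_lit 57426) (nat_lit 15) .nil))) (.g (nat_lit 0) (.e (nat_lit 338545) (nat_lit 0) .nil) .nil))) 
(.lf (nat_lit 568187) (.g (nat_lit 1308) (.e (nat_lit 450586) (nat_lit 10) (.e (nat_lit 573474) (nat_lit 12) (.e (nat_lit 57572) (nat_lit 54) (.e (nat_lit 770071) (nat_lit 8) .nil)))) (.g (nat_lit 0) (.e (nat_lit 342426) (nat_lit 0) .nil) .nil))))) (.nd (nat_lit 8) (.nd (nat_lit 9) 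
(.lf (nat_lit 567547) (.g (nat_lit 2742) (.e (nat_lit 442427) (nat_lit 23) (.e (nat_lit 204845) (nat_lit 24) (.e (nat_lit 319530) (nat_lit 16) (.e (nat_lit 286727) (nat_lit 0) (.e (nat_lit 1799) (nat_lit 119) .nil))))) (.g (nat_lit 0) (.e (nat_lit 337097) (nat_lit 0) .nil) .nil))) 
(.lf (nat_lit 568059) (.g (nat_lit 1393) (.e (nat_lit 458496) (nat_lit 5) (.e (nat_lit 532523) (nat_lit 7) (.e (nat_lit 319504) (nat_lit 10) (.e (nat_lit 5396) (nat_lit 301) .nil)))) (.g (nat_lit 0) (.e (nat_lit 341677) (nat_lit 0) .nil) .nil)))) (.nd (nat_lit 9) 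
(.lf (nat_lit 567803) (.g (nat_lit 3943) (.e (nat_lit 450578) (nat_lit 5) (.e (nat_lit 532523) (nat_lit 7) (.e (nat_lit 319531) (nat_lit 16) (.e (nat_lit 286733) (nat_lit 2) (.e (nat_lit 90134) (nat_lit 9) (.e (nat_lit 3025) (nat_lit 187) .nil)))))) (.g (nat_lit 1) (.e (nat_lit 340054) (nat_lit 0) .nil) .nil))) 
(.lf (nat_lit 568315) (.g (nat_lit 936) (.e (nat_lit 450588) (nat_lit 10) (.e (nat_lit 573474) (nat_lit 12) (.e (nat_lit 57510) (nat_lit 39) .nil))) (.g (nat_lit 0) (.e (nat_lit 343126) (nat_lit 0) .nil) .nil)))))))))) (.nd (nat_lit 3) (.nd (nat_lit 4) (.nd (nat_lit 5) (.nd (nat_lit 6) (.nd (nat_lit 7) (.nd (nat_lit 8) (.nd (nat_lit 9) 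
(.lf (nat_lit 567303) (.g (nat_lit 2772) (.e (nat_lit 442411) (nat_lit 20) (.e (nat_lit 3298) (nat_lit 202) (.e (nat_lit 573471) (nat_lit 11) (.e (nat_lit 16425) (nat_lit 7) (.e (nat_lit 409616) (nat_lit 10) .nil))))) (.g (nat_lit 0) (.e (nat_lit 335906) (nat_lit 0) .nil) .nil))) 
(.lf (nat_lit 567815) (.g (nat_lit 936) (.e (nat_lit 450579) (nat_lit 5) (.e (nat_lit 532499) (nat_lit 1) (.e (nat_lit 57665) (nat_lit 152) .nil))) (.g (nat_lit 0) (.e (nat_lit 340146) (nat_lit 0) .nil) .nil)))) (.nd (nat_lit 9) 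
(.lf (nat_lit 567559) (.g (nat_lit 2801) (.e (nat_lit 442427) (nat_lit 23) (.e (nat_lit 204846) (nat_lit 24) (.e (nat_lit 319530) (nat_lit 16) (.e (nat_lit 286734) (nat_lit 3) (.e (nat_lit 98371) (nat_lit 28) .nil))))) (.g (nat_lit 0) (.e (nat_lit 337145) (nat_lit 0) .nil) .nil))) 
(.lf (nat_lit 568071) (.g (nat_lit 2895) (.e (nat_lit 458496) (nat_lit 3) (.e (nat_lit 516115) (nat_lit 1) (.e (nat_lit 164325) (nat_lit 230) (.e (nat_lit 163859) (nat_lit 1) .nil)))) (.g (nat_lit 0) (.e (nat_lit 341704) (nat_lit 0) .nil) .nil))))) (.nd (nat_lit 8) (.nd (nat_lit 9) 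
(.lf (nat_lit 567431) (.g (nat_lit 3128) (.e (nat_lit 442421) (nat_lit 21) (.e (nat_lit 164347) (nat_lit 240) (.e (nat_lit 2619) (nat_lit 164) (.e (nat_lit 172120) (nat_lit 12) (.e (nat_lit 475209) (nat_lit 41) (.e (nat_lit 712752) (nat_lit 29) .nil)))))) (.g (nat_lit 1) (.e (nat_lit 336279) (nat_lit 0) .nil) .nil))) 
(.lf (nat_lit 567943) (.g (nat_lit 1429) (.e (nat_lit 450579) (nat_lit 5) (.e (nat_lit 532583) (nat_lit 26) (.e (nat_lit 426107) (nat_lit 1) (.e (nat_lit 164401) (nat_lit 256) .nil)))) (.g (nat_lit 0) (.e (nat_lit 340952) (nat_lit 0) .nil) .nil)))) (.nd (nat_lit 9) 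
(.lf (nat_lit 567687) (.g (nat_lit 1238) (.e (nat_lit 450563) (nat_lit 0) (.e (nat_lit 6830) (nat_lit 367) (.e (nat_lit 57427) (nat_lit 15) (.e (nat_lit 360470) (nat_lit 6) .nil)))) (.g (nat_lit 0) (.e (nat_lit 338924) (nat_lit 0) .nil) .nil))) 
(.lf (nat_lit 568199) (.g (nat_lit 1489) (.e (nat_lit 450586) (nat_lit 10) (.e (nat_lit 573475) (nat_lit 12) (.e (nat_lit 57503) (nat_lit 38) (.e (nat_lit 638999) (nat_lit 8) .nil)))) (.g (nat_lit 0) (.e (nat_lit 342465) (nat_lit 0) .nil) .nil)))))) (.nd (nat_lit 7) (.nd (nat_lit 8) (.nd (nat_lit 9) 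
(.lf (nat_lit 567367) (.g (nat_lit 3105) (.e (nat_lit 442419) (nat_lit 21) (.e (nat_lit 164347) (nat_lit 240) (.e (nat_lit 2638) (nat_lit 165) (.e (nat_lit 180278) (nat_lit 32) (.e (nat_lit 1426) (nat_lit 108) (.e (nat_lit 336430) (nat_lit 29) .nil)))))) (.g (nat_lit 1) (.e (nat_lit 336106) (nat_lit 0) .nil) .nil))) 
(.lf (nat_lit 567879) (.g (nat_lit 2715) (.e (nat_lit 450579) (nat_lit 5) (.e (nat_lit 532504) (nat_lit 1) (.e (nat_lit 57692) (nat_lit 156) (.e (nat_lit 163905) (nat_lit 12) (.e (nat_lit 426479) (nat_lit 27) (.e (nat_lit 336432) (nat_lit 30) .nil)))))) (.g (nat_lit 1) (.e (nat_lit 340394) (nat_lit 0) .nil) .nil)))) (.nd (nat_lit 9) 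
(.lf (nat_lit 567623) (.g (nat_lit 3458) (.e (nat_lit 442429) (nat_lit 24) (.e (nat_lit 229663) (nat_lit 240) (.e (nat_lit 2630) (nat_lit 164) (.e (nat_lit 172126) (nat_lit 14) (.e (nat_lit 491550) (nat_lit 9) (.e (nat_lit 336430) (nat_lit 29) .nil)))))) (.g (nat_lit 1) (.e (nat_lit 337546) (nat_lit 0) .nil) .nil))) 
(.lf (nat_lit 568135) (.g (nat_lit 3177) (.e (nat_lit 450586) (nat_lit 10) (.e (nat_lit 573471) (nat_lit 11) (.e (nat_lit 16388) (nat_lit 0) (.e (nat_lit 7583) (nat_lit 405) (.e (nat_lit 57464) (nat_lit 23) (.e (nat_lit 516165) (nat_lit 12) .nil)))))) (.g (nat_lit 1) (.e (nat_lit 342202) (nat_lit 0) .nil) .nil))))) (.nd (nat_lit 8) (.nd (nat_lit 9) 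
(.lf (nat_lit 567495) (.g (nat_lit 934) (.e (nat_lit 442426) (nat_lit 23) (.e (nat_lit 204846) (nat_lit 24) (.e (nat_lit 319497) (nat_lit 10) .nil))) (.g (nat_lit 0) (.e (nat_lit 336860) (nat_lit 0) .nil) .nil))) 
(.lf (nat_lit 568007) (.g (nat_lit 2930) (.e (nat_lit 450580) (nat_lit 5) (.e (nat_lit 532523) (nat_lit 7) (.e (nat_lit 319534) (nat_lit 16) (.e (nat_lit 286732) (nat_lit 2) (.e (nat_lit 90134) (nat_lit 9) (.e (nat_lit 3019) (nat_lit 187) .nil)))))) (.g (nat_lit 1) (.e (nat_lit 341233) (nat_lit 0) .nil) .nil)))) (.nd (nat_lit 9) 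
(.lf (nat_lit 567751) (.g (nat_lit 802) (.e (nat_lit 458496) (nat_lit 0) (.e (nat_lit 5202) (nat_lit 294) (.e (nat_lit 57426) (nat_lit 15) (.e (nat_lit 360480) (nat_lit 14) (.e (nat_lit 638986) (nat_lit 5) .nil))))) (.g (nat_lit 0) (.e (nat_lit 339606) (nat_lit 0) .nil) .nil))) 
(.lf (nat_lit 568263) (.g (nat_lit 1374) (.e (nat_lit 450588) (nat_lit 10) (.e (nat_lit 573450) (nat_lit 9) (.e (nat_lit 375) (nat_lit 32) (.e (nat_lit 426173) (nat_lit 7) .nil)))) (.g (nat_lit 0) (.e (nat_lit 342850) (nat_lit 0) .nil) .nil))))))) (.nd (nat_lit 6) (.nd (nat_lit 7) (.nd (nat_lit 8) (.nd (nat_lit 9) 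
(.lf (nat_lit 567335) (.g (nat_lit 1738) (.e (nat_lit 442412) (nat_lit 20) (.e (nat_lit 3390) (nat_lit 210) (.e (nat_lit 639021) (nat_lit 16) (.e (nat_lit 65617) (nat_lit 10) (.e (nat_lit 344164) (nat_lit 37) (.e (nat_lit 647190) (nat_lit 9) (.e (nat_lit 7936) (nat_lit 34) .nil))))))) (.g (nat_lit 1) (.e (nat_lit 335980) (nat_lit 0) .nil) .nil))) 
(.lf (nat_lit 567847) (.g (nat_lit 2453) (.e (nat_lit 450579) (nat_lit 5) (.e (nat_lit 532503) (nat_lit 1) (.e (nat_lit 57685) (nat_lit 156) (.e (nat_lit 163907) (nat_lit 12) (.e (nat_lit 426479) (nat_lit 27) (.e (nat_lit 336434) (nat_lit 30) .nil)))))) (.g (nat_lit 1) (.e (nat_lit 340296) (nat_lit 0) .nil) .nil)))) (.nd (nat_lit 9) 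
(.lf (nat_lit 567591) (.g (nat_lit 2232) (.e (nat_lit 450304) (nat_lit 23) (.e (nat_lit 204846) (nat_lit 24) (.e (nat_lit 319533) (nat_lit 16) (.e (nat_lit 286734) (nat_lit 3) (.e (nat_lit 98369) (nat_lit 28) .nil))))) (.g (nat_lit 0) (.e (nat_lit 337430) (nat_lit 0) .nil) .nil))) 
(.lf (nat_lit 568103) (.g (nat_lit 2251) (.e (nat_lit 450585) (nat_lit 10) (.e (nat_lit 573474) (nat_lit 12) (.e (nat_lit 57572) (nat_lit 54) (.e (nat_lit 770071) (nat_lit 8) .nil)))) (.g (nat_lit 0) (.e (nat_lit 342057) (nat_lit 0) .nil) .nil))))) (.nd (nat_lit 8) (.nd (nat_lit 9) 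
(.lf (nat_lit 567463) (.g (nat_lit 1152) (.e (nat_lit 442425) (nat_lit 23) (.e (nat_lit 204845) (nat_lit 24) (.e (nat_lit 319500) (nat_lit 10) (.e (nat_lit 5389) (nat_lit 301) .nil)))) (.g (nat_lit 0) (.e (nat_lit 336583) (nat_lit 0) .nil) .nil))) 
(.lf (nat_lit 567975) (.g (nat_lit 3664) (.e (nat_lit 450580) (nat_lit 5) (.e (nat_lit 532522) (nat_lit 7) (.e (nat_lit 319531) (nat_lit 16) (.e (nat_lit 286733) (nat_lit 2) (.e (nat_lit 90134) (nat_lit 9) (.e (nat_lit 3009) (nat_lit 187) .nil)))))) (.g (nat_lit 1) (.e (nat_lit 341125) (nat_lit 0) .nil) .nil)))) (.nd (nat_lit 9) 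
(.lf (nat_lit 567719) (.g (nat_lit 1158) (.e (nat_lit 450565) (nat_lit 0) (.e (nat_lit 5546) (nat_lit 306) (.e (nat_lit 2648) (nat_lit 166) (.e (nat_lit 188420) (nat_lit 0) .nil)))) (.g (nat_lit 0) (.e (nat_lit 339165) (nat_lit 0) .nil) .nil))) 
(.lf (nat_lit 568231) (.g (nat_lit 1660) (.e (nat_lit 450587) (nat_lit 10) (.e (nat_lit 573471) (nat_lit 11) (.e (nat_lit 16388) (nat_lit 0) (.e (nat_lit 7536) (nat_lit 402) .nil)))) (.g (nat_lit 0) (.e (nat_lit 342650) (nat_lit 0) .nil) .nil)))))) (.nd (nat_lit 7) (.nd (nat_lit 8) (.nd (nat_lit 9) 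
(.lf (nat_lit 567399) (.g (nat_lit 2394) (.e (nat_lit 442421) (nat_lit 21) (.e (nat_lit 164326) (nat_lit 230) (.e (nat_lit 163879) (nat_lit 4) (.e (nat_lit 213032) (nat_lit 11) (.e (nat_lit 24629) (nat_lit 9) (.e (nat_lit 336426) (nat_lit 29) .nil)))))) (.g (nat_lit 1) (.e (nat_lit 336225) (nat_lit 0) .nil) .nil))) 
(.lf (nat_lit 567911) (.g (nat_lit 1374) (.e (nat_lit 450579) (nat_lit 5) (.e (nat_lit 532523) (nat_lit 7) (.e (nat_lit 319534) (nat_lit 16) (.e (nat_lit 294656) (nat_lit 3) .nil)))) (.g (nat_lit 0) (.e (nat_lit 340451) (nat_lit 0) .nil) .nil)))) (.nd (nat_lit 9) 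
(.lf (nat_lit 567655) (.g (nat_lit 812) (.e (nat_lit 442430) (nat_lit 24) (.e (nat_lit 229666) (nat_lit 240) (.e (nat_lit 2641) (nat_lit 165) (.e (nat_lit 180277) (nat_lit 32) .nil)))) (.g (nat_lit 0) (.e (nat_lit 337767) (nat_lit 0) .nil) .nil))) 
(.lf (nat_lit 568167) (.g (nat_lit 3134) (.e (nat_lit 450586) (nat_lit 10) (.e (nat_lit 573471) (nat_lit 11) (.e (nat_lit 16473) (nat_lit 14) (.e (nat_lit 491573) (nat_lit 15) .nil)))) (.g (nat_lit 0) (.e (nat_lit 342351) (nat_lit 0) .nil) .nil))))) (.nd (nat_lit 8) (.nd (nat_lit 9) 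
(.lf (nat_lit 567527) (.g (nat_lit 1135) (.e (nat_lit 442427) (nat_lit 23) (.e (nat_lit 204829) (nat_lit 18) (.e (nat_lit 57692) (nat_lit 156) (.e (nat_lit 171776) (nat_lit 12) .nil)))) (.g (nat_lit 0) (.e (nat_lit 337037) (nat_lit 0) .nil) .nil))) 
(.lf (nat_lit 568039) (.g (nat_lit 2790) (.e (nat_lit 450581) (nat_lit 5) (.e (nat_lit 532523) (nat_lit 7) (.e (nat_lit 319530) (nat_lit 16) (.e (nat_lit 286733) (nat_lit 2) (.e (nat_lit 90134) (nat_lit 9) (.e (nat_lit 3009) (nat_lit 187) .nil)))))) (.g (nat_lit 1) (.e (nat_lit 341629) (nat_lit 0) .nil) .nil)))) (.nd (nat_lit 9) 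
(.lf (nat_lit 567783) (.g (nat_lit 1276) (.e (nat_lit 458496) (nat_lit 0) (.e (nat_lit 5548) (nat_lit 306) (.e (nat_lit 2648) (nat_lit 166) (.e (nat_lit 188420) (nat_lit 0) (.e (nat_lit 2174) (nat_lit 143) .nil))))) (.g (nat_lit 0) (.e (nat_lit 339731) (nat_lit 0) .nil) .nil))) 
(.lf (nat_lit 568295) (.g (nat_lit 2785) (.e (nat_lit 450588) (nat_lit 10) (.e (nat_lit 573471) (nat_lit 11) (.e (nat_lit 16473) (nat_lit 14) (.e (nat_lit 491527) (nat_lit 0) .nil)))) (.g (nat_lit 0) (.e (nat_lit 343020) (nat_lit 0) .nil) .nil)))))))) (.nd (nat_lit 5) (.nd (nat_lit 6) (.nd (nat_lit 7) (.nd (nat_lit 8) (.nd (nat_lit 9) 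
(.lf (nat_lit 567319) (.g (nat_lit 588) (.e (nat_lit 442411) (nat_lit 20) (.e (nat_lit 3578) (nat_lit 223) (.e (nat_lit 745475) (nat_lit 0) (.e (nat_lit 1598) (nat_lit 111) (.e (nat_lit 368384) (nat_lit 5) .nil))))) (.g (nat_lit 0) (.e (nat_lit 335935) (nat_lit 0) .nil) .nil))) 
(.lf (nat_lit 567831) (.g (nat_lit 933) (.e (nat_lit 450579) (nat_lit 5) (.e (nat_lit 532499) (nat_lit 1) (.e (nat_lit 57778) (nat_lit 233) .nil))) (.g (nat_lit 0) (.e (nat_lit 340207) (nat_lit 0) .nil) .nil)))) (.nd (nat_lit 9) 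
(.lf (nat_lit 567575) (.g (nat_lit 2883) (.e (nat_lit 442427) (nat_lit 23) (.e (nat_lit 204880) (nat_lit 32) (.e (nat_lit 385094) (nat_lit 49) (.e (nat_lit 778317) (nat_lit 3) .nil)))) (.g (nat_lit 0) (.e (nat_lit 337299) (nat_lit 0) .nil) .nil))) 
(.lf (nat_lit 568087) (.g (nat_lit 3209) (.e (nat_lit 450583) (nat_lit 7) (.e (nat_lit 548913) (nat_lit 18) (.e (nat_lit 172124) (nat_lit 14) (.e (nat_lit 491540) (nat_lit 3) (.e (nat_lit 98374) (nat_lit 29) .nil))))) (.g (nat_lit 1) (.e (nat_lit 341980) (nat_lit 0) .nil) .nil))))) (.nd (nat_lit 8) (.nd (nat_lit 9) 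
(.lf (nat_lit 567447) (.g (nat_lit 1297) (.e (nat_lit 442424) (nat_lit 22) (.e (nat_lit 204544) (nat_lit 3) (.e (nat_lit 164017) (nat_lit 44) (.e (nat_lit 688139) (nat_lit 5) (.e (nat_lit 3085) (nat_lit 191) (.e (nat_lit 491264) (nat_lit 11) .nil)))))) (.g (nat_lit 1) (.e (nat_lit 336397) (nat_lit 0) .nil) .nil))) 
(.lf (nat_lit 567959) (.g (nat_lit 831) (.e (nat_lit 450580) (nat_lit 5) (.e (nat_lit 532503) (nat_lit 1) (.e (nat_lit 57655) (nat_lit 152) .nil))) (.g (nat_lit 0) (.e (nat_lit 341085) (nat_lit 0) .nil) .nil)))) (.nd (nat_lit 9) 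
(.lf (nat_lit 567703) (.g (nat_lit 3532) (.e (nat_lit 450564) (nat_lit 0) (.e (nat_lit 5548) (nat_lit 306) (.e (nat_lit 2619) (nat_lit 164) (.e (nat_lit 172118) (nat_lit 12) (.e (nat_lit 475210) (nat_lit 41) (.e (nat_lit 712753) (nat_lit 30) .nil)))))) (.g (nat_lit 1) (.e (nat_lit 338990) (nat_lit 0) .nil) .nil))) 
(.lf (nat_lit 568215) (.g (nat_lit 2849) (.e (nat_lit 450586) (nat_lit 10) (.e (nat_lit 573477) (nat_lit 12) (.e (nat_lit 57574) (nat_lit 55) (.e (nat_lit 778466) (nat_lit 11) (.e (nat_lit 24608) (nat_lit 3) (.e (nat_lit 98374) (nat_lit 29) .nil)))))) (.g (nat_lit 1) (.e (nat_lit 342533) (nat_lit 0) .nil) .nil)))))) (.nd (nat_lit 7) (.nd (nat_lit 8) (.nd (nat_lit 9) 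
(.lf (nat_lit 567383) (.g (nat_lit 406) (.e (nat_lit 442419) (nat_lit 21) (.e (nat_lit 164348) (nat_lit 240) (.e (nat_lit 2640) (nat_lit 165) .nil))) (.g (nat_lit 0) (.e (nat_lit 336135) (nat_lit 0) .nil) .nil))) 
(.lf (nat_lit 567895) (.g (nat_lit 4005) (.e (nat_lit 450579) (nat_lit 5) (.e (nat_lit 532523) (nat_lit 7) (.e (nat_lit 319531) (nat_lit 16) (.e (nat_lit 286733) (nat_lit 2) (.e (nat_lit 90134) (nat_lit 9) (.e (nat_lit 3021) (nat_lit 187) .nil)))))) (.g (nat_lit 1) (.e (nat_lit 340428) (nat_lit 0) .nil) .nil)))) (.nd (nat_lit 9) 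
(.lf (nat_lit 567639) (.g (nat_lit 1568) (.e (nat_lit 442430) (nat_lit 24) (.e (nat_lit 229663) (nat_lit 240) (.e (nat_lit 2651) (nat_lit 166) (.e (nat_lit 188418) (nat_lit 0) .nil)))) (.g (nat_lit 0) (.e (nat_lit 337640) (nat_lit 0) .nil) .nil))) 
(.lf (nat_lit 568151) (.g (nat_lit 2794) (.e (nat_lit 450586) (nat_lit 10) (.e (nat_lit 573471) (nat_lit 11) (.e (nat_lit 16425) (nat_lit 7) (.e (nat_lit 409625) (nat_lit 10) .nil)))) (.g (nat_lit 0) (.e (nat_lit 342220) (nat_lit 0) .nil) .nil))))) (.nd (nat_lit 8) (.nd (nat_lit 9) 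
(.lf (nat_lit 567511) (.g (nat_lit 1495) (.e (nat_lit 442426) (nat_lit 23) (.e (nat_lit 204846) (nat_lit 24) (.e (nat_lit 319531) (nat_lit 16) (.e (nat_lit 286734) (nat_lit 3) .nil)))) (.g (nat_lit 0) (.e (nat_lit 336889) (nat_lit 0) .nil) .nil))) 
(.lf (nat_lit 568023) (.g (nat_lit 2491) (.e (nat_lit 450580) (nat_lit 5) (.e (nat_lit 532579) (nat_lit 26) (.e (nat_lit 426108) (nat_lit 1) (.e (nat_lit 164402) (nat_lit 256) (.e (nat_lit 57409) (nat_lit 12) .nil))))) (.g (nat_lit 0) (.e (nat_lit 341578) (nat_lit 0) .nil) .nil)))) (.nd (nat_lit 9) 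
(.lf (nat_lit 567767) (.g (nat_lit 1299) (.e (nat_lit 458496) (nat_lit 0) (.e (nat_lit 5546) (nat_lit 306) (.e (nat_lit 2640) (nat_lit 165) (.e (nat_lit 180277) (nat_lit 32) (.e (nat_lit 1426) (nat_lit 108) .nil))))) (.g (nat_lit 0) (.e (nat_lit 339654) (nat_lit 0) .nil) .nil))) 
(.lf (nat_lit 568279) (.g (nat_lit 2448) (.e (nat_lit 450588) (nat_lit 10) (.e (nat_lit 573471) (nat_lit 11) (.e (nat_lit 16425) (nat_lit 7) (.e (nat_lit 409615) (nat_lit 10) .nil)))) (.g (nat_lit 0) (.e (nat_lit 342920) (nat_lit 0) .nil) .nil))))))) (.nd (nat_lit 6) (.nd (nat_lit 7) (.nd (nat_lit 8) (.nd (nat_lit 9) 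
(.lf (nat_lit 567351) (.g (nat_lit 1866) (.e (nat_lit 450304) (nat_lit 20) (.e (nat_lit 3249) (nat_lit 197) (.e (nat_lit 532523) (nat_lit 7) (.e (nat_lit 319534) (nat_lit 16) (.e (nat_lit 286734) (nat_lit 3) .nil))))) (.g (nat_lit 0) (.e (nat_lit 336034) (nat_lit 0) .nil) .nil))) 
(.lf (nat_lit 567863) (.g (nat_lit 437) (.e (nat_lit 450579) (nat_lit 5) (.e (nat_lit 532503) (nat_lit 1) (.e (nat_lit 65280) (nat_lit 233) .nil))) (.g (nat_lit 0) (.e (nat_lit 340339) (nat_lit 0) .nil) .nil)))) (.nd (nat_lit 9) 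
(.lf (nat_lit 567607) (.g (nat_lit 1280) (.e (nat_lit 442428) (nat_lit 24) (.e (nat_lit 229664) (nat_lit 240) (.e (nat_lit 2643) (nat_lit 165) (.e (nat_lit 180277) (nat_lit 32) (.e (nat_lit 1425) (nat_lit 108) .nil))))) (.g (nat_lit 0) (.e (nat_lit 337476) (nat_lit 0) .nil) .nil))) 
(.lf (nat_lit 568119) (.g (nat_lit 2228) (.e (nat_lit 450586) (nat_lit 10) (.e (nat_lit 573457) (nat_lit 9) (.e (nat_lit 430) (nat_lit 32) (.e (nat_lit 426344) (nat_lit 14) (.e (nat_lit 491538) (nat_lit 3) (.e (nat_lit 98372) (nat_lit 29) .nil)))))) (.g (nat_lit 1) (.e (nat_lit 342170) (nat_lit 0) .nil) .nil))))) (.nd (nat_lit 8) (.nd (nat_lit 9) 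
(.lf (nat_lit 567479) (.g (nat_lit 1595) (.e (nat_lit 442425) (nat_lit 23) (.e (nat_lit 204846) (nat_lit 24) (.e (nat_lit 319533) (nat_lit 16) (.e (nat_lit 286724) (nat_lit 0) .nil)))) (.g (nat_lit 0) (.e (nat_lit 336635) (nat_lit 0) .nil) .nil))) 
(.lf (nat_lit 567991) (.g (nat_lit 810) (.e (nat_lit 450580) (nat_lit 5) (.e (nat_lit 532523) (nat_lit 7) (.e (nat_lit 319524) (nat_lit 14) .nil))) (.g (nat_lit 0) (.e (nat_lit 341142) (nat_lit 0) .nil) .nil)))) (.nd (nat_lit 9) 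
(.lf (nat_lit 567735) (.g (nat_lit 3398) (.e (nat_lit 450567) (nat_lit 0) (.e (nat_lit 5443) (nat_lit 306) (.e (nat_lit 2630) (nat_lit 164) (.e (nat_lit 172126) (nat_lit 14) (.e (nat_lit 491549) (nat_lit 9) (.e (nat_lit 336434) (nat_lit 30) .nil)))))) (.g (nat_lit 1) (.e (nat_lit 339411) (nat_lit 0) .nil) .nil))) 
(.lf (nat_lit 568247) (.g (nat_lit 2220) (.e (nat_lit 450587) (nat_lit 10) (.e (nat_lit 573477) (nat_lit 12) (.e (nat_lit 57574) (nat_lit 55) (.e (nat_lit 778465) (nat_lit 11) (.e (nat_lit 24592) (nat_lit 0) .nil))))) (.g (nat_lit 0) (.e (nat_lit 342726) (nat_lit 0) .nil) .nil)))))) (.nd (nat_lit 7) (.nd (nat_lit 8) (.nd (nat_lit 9) 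
(.lf (nat_lit 567415) (.g (nat_lit 2687) (.e (nat_lit 442421) (nat_lit 21) (.e (nat_lit 164319) (nat_lit 228) (.e (nat_lit 57412) (nat_lit 12) (.e (nat_lit 336176) (nat_lit 10) (.e (nat_lit 344161) (nat_lit 37) (.e (nat_lit 647190) (nat_lit 9) (.e (nat_lit 7936) (nat_lit 34) .nil))))))) (.g (nat_lit 1) (.e (nat_lit 336249) (nat_lit 0) .nil) .nil))) 
(.lf (nat_lit 567927) (.g (nat_lit 2062) (.e (nat_lit 450579) (nat_lit 5) (.e (nat_lit 532569) (nat_lit 16) (.e (nat_lit 401448) (nat_lit 10) (.e (nat_lit 434238) (nat_lit 25) (.e (nat_lit 548898) (nat_lit 14) .nil))))) (.g (nat_lit 0) (.e (nat_lit 340909) (nat_lit 0) .nil) .nil)))) (.nd (nat_lit 9) 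
(.lf (nat_lit 567671) (.g (nat_lit 1704) (.e (nat_lit 450561) (nat_lit 0) (.e (nat_lit 5537) (nat_lit 306) (.e (nat_lit 2628) (nat_lit 164) (.e (nat_lit 172126) (nat_lit 14) (.e (nat_lit 491550) (nat_lit 9) .nil))))) (.g (nat_lit 0) (.e (nat_lit 338132) (nat_lit 0) .nil) .nil))) 
(.lf (nat_lit 568183) (.g (nat_lit 1231) (.e (nat_lit 450586) (nat_lit 10) (.e (nat_lit 573474) (nat_lit 12) (.e (nat_lit 57508) (nat_lit 39) (.e (nat_lit 647195) (nat_lit 9) .nil)))) (.g (nat_lit 0) (.e (nat_lit 342414) (nat_lit 0) .nil) .nil))))) (.nd (nat_lit 8) (.nd (nat_lit 9) 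
(.lf (nat_lit 567543) (.g (nat_lit 1537) (.e (nat_lit 442427) (nat_lit 23) (.e (nat_lit 204845) (nat_lit 24) (.e (nat_lit 319528) (nat_lit 16) (.e (nat_lit 286727) (nat_lit 0) (.e (nat_lit 1799) (nat_lit 119) .nil))))) (.g (nat_lit 0) (.e (nat_lit 337083) (nat_lit 0) .nil) .nil))) 
(.lf (nat_lit 568055) (.g (nat_lit 1347) (.e (nat_lit 450581) (nat_lit 5) (.e (nat_lit 532583) (nat_lit 26) (.e (nat_lit 426108) (nat_lit 1) (.e (nat_lit 164403) (nat_lit 256) .nil)))) (.g (nat_lit 0) (.e (nat_lit 341673) (nat_lit 0) .nil) .nil)))) (.nd (nat_lit 9) 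
(.lf (nat_lit 567799) (.g (nat_lit 1564) (.e (nat_lit 450578) (nat_lit 5) (.e (nat_lit 532503) (nat_lit 1) (.e (nat_lit 57688) (nat_lit 156) (.e (nat_lit 163905) (nat_lit 12) .nil)))) (.g (nat_lit 0) (.e (nat_lit 340047) (nat_lit 0) .nil) .nil))) 
(.lf (nat_lit 568311) (.g (nat_lit 1842) (.e (nat_lit 450588) (nat_lit 10) (.e (nat_lit 573474) (nat_lit 12) (.e (nat_lit 57354) (nat_lit 0) (.e (nat_lit 5219) (nat_lit 296) .nil)))) (.g (nat_lit 0) (.e (nat_lit 343092) (nat_lit 0) .nil) .nil))))))))) (.nd (nat_lit 4) (.nd (nat_lit 5) (.nd (nat_lit 6) (.nd (nat_lit 7) (.nd (nat_lit 8) (.nd (nat_lit 9) 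
(.lf (nat_lit 567311) (.g (nat_lit 217) (.e (nat_lit 442411) (nat_lit 20) (.e (nat_lit 3409) (nat_lit 212) (.e (nat_lit 655379) (nat_lit 5) .nil))) (.g (nat_lit 0) (.e (nat_lit 335914) (nat_lit 0) .nil) .nil))) 
(.lf (nat_lit 567823) (.g (nat_lit 2959) (.e (nat_lit 450579) (nat_lit 5) (.e (nat_lit 532499) (nat_lit 1) (.e (nat_lit 57688) (nat_lit 156) (.e (nat_lit 163905) (nat_lit 12) (.e (nat_lit 426479) (nat_lit 27) (.e (nat_lit 336432) (nat_lit 30) .nil)))))) (.g (nat_lit 1) (.e (nat_lit 340168) (nat_lit 0) .nil) .nil)))) (.nd (nat_lit 9) 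
(.lf (nat_lit 567567) (.g (nat_lit 1695) (.e (nat_lit 442427) (nat_lit 23) (.e (nat_lit 204846) (nat_lit 24) (.e (nat_lit 319534) (nat_lit 16) (.e (nat_lit 286727) (nat_lit 0) .nil)))) (.g (nat_lit 0) (.e (nat_lit 337181) (nat_lit 0) .nil) .nil))) 
(.lf (nat_lit 568079) (.g (nat_lit 850) (.e (nat_lit 458496) (nat_lit 3) (.e (nat_lit 516117) (nat_lit 1) (.e (nat_lit 164329) (nat_lit 230) .nil))) (.g (nat_lit 0) (.e (nat_lit 341716) (nat_lit 0) .nil) .nil))))) (.nd (nat_lit 8) (.nd (nat_lit 9) 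
(.lf (nat_lit 567439) (.g (nat_lit 3771) (.e (nat_lit 442421) (nat_lit 21) (.e (nat_lit 164348) (nat_lit 240) (.e (nat_lit 2619) (nat_lit 164) (.e (nat_lit 172126) (nat_lit 14) (.e (nat_lit 491549) (nat_lit 9) (.e (nat_lit 336430) (nat_lit 29) .nil)))))) (.g (nat_lit 1) (.e (nat_lit 336323) (nat_lit 0) .nil) .nil))) 
(.lf (nat_lit 567951) (.g (nat_lit 630) (.e (nat_lit 450580) (nat_lit 5) (.e (nat_lit 532501) (nat_lit 1) (.e (nat_lit 57663) (nat_lit 152) .nil))) (.g (nat_lit 0) (.e (nat_lit 341053) (nat_lit 0) .nil) .nil)))) (.nd (nat_lit 9) 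
(.lf (nat_lit 567695) (.g (nat_lit 2224) (.e (nat_lit 450564) (nat_lit 0) (.e (nat_lit 5546) (nat_lit 306) (.e (nat_lit 2628) (nat_lit 164) (.e (nat_lit 172118) (nat_lit 12) (.e (nat_lit 475211) (nat_lit 41) (.e (nat_lit 712753) (nat_lit 30) .nil)))))) (.g (nat_lit 1) (.e (nat_lit 338938) (nat_lit 0) .nil) .nil))) 
(.lf (nat_lit 568207) (.g (nat_lit 832) (.e (nat_lit 450586) (nat_lit 10) (.e (nat_lit 573475) (nat_lit 12) (.e (nat_lit 57574) (nat_lit 55) (.e (nat_lit 778466) (nat_lit 11) .nil)))) (.g (nat_lit 0) (.e (nat_lit 342488) (nat_lit 0) .nil) .nil)))))) (.nd (nat_lit 7) (.nd (nat_lit 8) (.nd (nat_lit 9) 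
(.lf (nat_lit 567375) (.g (nat_lit 3777) (.e (nat_lit 442419) (nat_lit 21) (.e (nat_lit 164348) (nat_lit 240) (.e (nat_lit 2629) (nat_lit 164) (.e (nat_lit 172124) (nat_lit 14) (.e (nat_lit 491550) (nat_lit 9) (.e (nat_lit 336430) (nat_lit 29) .nil)))))) (.g (nat_lit 1) (.e (nat_lit 336120) (nat_lit 0) .nil) .nil))) 
(.lf (nat_lit 567887) (.g (nat_lit 2602) (.e (nat_lit 450579) (nat_lit 5) (.e (nat_lit 532522) (nat_lit 7) (.e (nat_lit 319531) (nat_lit 16) (.e (nat_lit 286733) (nat_lit 2) (.e (nat_lit 90133) (nat_lit 9) .nil))))) (.g (nat_lit 0) (.e (nat_lit 340413) (nat_lit 0) .nil) .nil)))) (.nd (nat_lit 9) 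
(.lf (nat_lit 567631) (.g (nat_lit 1594) (.e (nat_lit 442430) (nat_lit 24) (.e (nat_lit 229663) (nat_lit 240) (.e (nat_lit 2630) (nat_lit 164) (.e (nat_lit 172120) (nat_lit 12) .nil)))) (.g (nat_lit 0) (.e (nat_lit 337606) (nat_lit 0) .nil) .nil))) 
(.lf (nat_lit 568143) (.g (nat_lit 2298) (.e (nat_lit 450586) (nat_lit 10) (.e (nat_lit 573471) (nat_lit 11) (.e (nat_lit 16425) (nat_lit 7) (.e (nat_lit 409608) (nat_lit 10) .nil)))) (.g (nat_lit 0) (.e (nat_lit 342211) (nat_lit 0) .nil) .nil))))) (.nd (nat_lit 8) (.nd (nat_lit 9) 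
(.lf (nat_lit 567503) (.g (nat_lit 1652) (.e (nat_lit 442426) (nat_lit 23) (.e (nat_lit 204846) (nat_lit 24) (.e (nat_lit 319505) (nat_lit 10) (.e (nat_lit 5391) (nat_lit 301) .nil)))) (.g (nat_lit 0) (.e (nat_lit 336868) (nat_lit 0) .nil) .nil))) 
(.lf (nat_lit 568015) (.g (nat_lit 3098) (.e (nat_lit 450580) (nat_lit 5) (.e (nat_lit 532569) (nat_lit 16) (.e (nat_lit 401448) (nat_lit 10) (.e (nat_lit 434238) (nat_lit 25) (.e (nat_lit 548897) (nat_lit 14) (.e (nat_lit 3016) (nat_lit 187) .nil)))))) (.g (nat_lit 1) (.e (nat_lit 341544) (nat_lit 0) .nil) .nil)))) (.nd (nat_lit 9) 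
(.lf (nat_lit 567759) (.g (nat_lit 1192) (.e (nat_lit 458496) (nat_lit 0) (.e (nat_lit 5546) (nat_lit 306) (.e (nat_lit 2638) (nat_lit 165) (.e (nat_lit 180277) (nat_lit 32) .nil)))) (.g (nat_lit 0) (.e (nat_lit 339642) (nat_lit 0) .nil) .nil))) 
(.lf (nat_lit 568271) (.g (nat_lit 1352) (.e (nat_lit 450588) (nat_lit 10) (.e (nat_lit 573470) (nat_lit 11) (.e (nat_lit 16425) (nat_lit 7) (.e (nat_lit 409615) (nat_lit 10) .nil)))) (.g (nat_lit 0) (.e (nat_lit 342893) (nat_lit 0) .nil) .nil))))))) (.nd (nat_lit 6) (.nd (nat_lit 7) (.nd (nat_lit 8) (.nd (nat_lit 9) 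
(.lf (nat_lit 567343) (.g (nat_lit 295) (.e (nat_lit 442412) (nat_lit 20) (.e (nat_lit 3408) (nat_lit 212) (.e (nat_lit 655379) (nat_lit 5) (.e (nat_lit 188160) (nat_lit 32) .nil)))) (.g (nat_lit 0) (.e (nat_lit 335994) (nat_lit 0) .nil) .nil))) 
(.lf (nat_lit 567855) (.g (nat_lit 2065) (.e (nat_lit 450579) (nat_lit 5) (.e (nat_lit 532503) (nat_lit 1) (.e (nat_lit 57689) (nat_lit 156) (.e (nat_lit 163905) (nat_lit 12) (.e (nat_lit 426479) (nat_lit 27) (.e (nat_lit 336434) (nat_lit 30) .nil)))))) (.g (nat_lit 1) (.e (nat_lit 340318) (nat_lit 0) .nil) .nil)))) (.nd (nat_lit 9) 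
(.lf (nat_lit 567599) (.g (nat_lit 2379) (.e (nat_lit 442428) (nat_lit 24) (.e (nat_lit 229663) (nat_lit 240) (.e (nat_lit 2630) (nat_lit 164) (.e (nat_lit 172120) (nat_lit 12) (.e (nat_lit 475211) (nat_lit 41) .nil))))) (.g (nat_lit 0) (.e (nat_lit 337447) (nat_lit 0) .nil) .nil))) 
(.lf (nat_lit 568111) (.g (nat_lit 1047) (.e (nat_lit 450586) (nat_lit 10) (.e (nat_lit 573450) (nat_lit 9) (.e (nat_lit 452) (nat_lit 33) (.e (nat_lit 442112) (nat_lit 3) .nil)))) (.g (nat_lit 0) (.e (nat_lit 342101) (nat_lit 0) .nil) .nil))))) (.nd (nat_lit 8) (.nd (nat_lit 9) 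
(.lf (nat_lit 567471) (.g (nat_lit 1146) (.e (nat_lit 442425) (nat_lit 23) (.e (nat_lit 204846) (nat_lit 24) (.e (nat_lit 319503) (nat_lit 10) (.e (nat_lit 5395) (nat_lit 301) .nil)))) (.g (nat_lit 0) (.e (nat_lit 336607) (nat_lit 0) .nil) .nil))) 
(.lf (nat_lit 567983) (.g (nat_lit 1769) (.e (nat_lit 450580) (nat_lit 5) (.e (nat_lit 532523) (nat_lit 7) (.e (nat_lit 319504) (nat_lit 10) (.e (nat_lit 5257) (nat_lit 298) .nil)))) (.g (nat_lit 0) (.e (nat_lit 341134) (nat_lit 0) .nil) .nil)))) (.nd (nat_lit 9) 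
(.lf (nat_lit 567727) (.g (nat_lit 298) (.e (nat_lit 450565) (nat_lit 0) (.e (nat_lit 5548) (nat_lit 306) (.e (nat_lit 2640) (nat_lit 165) .nil))) (.g (nat_lit 0) (.e (nat_lit 339209) (nat_lit 0) .nil) .nil))) 
(.lf (nat_lit 568239) (.g (nat_lit 1105) (.e (nat_lit 450587) (nat_lit 10) (.e (nat_lit 573475) (nat_lit 12) (.e (nat_lit 57509) (nat_lit 39) .nil))) (.g (nat_lit 0) (.e (nat_lit 342710) (nat_lit 0) .nil) .nil)))))) (.nd (nat_lit 7) (.nd (nat_lit 8) (.nd (nat_lit 9) 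
(.lf (nat_lit 567407) (.g (nat_lit 2158) (.e (nat_lit 442421) (nat_lit 21) (.e (nat_lit 164326) (nat_lit 230) (.e (nat_lit 163884) (nat_lit 5) (.e (nat_lit 221194) (nat_lit 11) (.e (nat_lit 336087) (nat_lit 9) (.e (nat_lit 336427) (nat_lit 29) .nil)))))) (.g (nat_lit 1) (.e (nat_lit 336237) (nat_lit 0) .nil) .nil))) 
(.lf (nat_lit 567919) (.g (nat_lit 5606) (.e (nat_lit 450579) (nat_lit 5) (.e (nat_lit 532563) (nat_lit 15) (.e (nat_lit 385093) (nat_lit 49) (.e (nat_lit 778317) (nat_lit 3) (.e (nat_lit 57476) (nat_lit 28) (.e (nat_lit 557067) (nat_lit 9) (.e (nat_lit 3022) (nat_lit 187) .nil))))))) (.g (nat_lit 1) (.e (nat_lit 340673) (nat_lit 0) .nil) .nil)))) (.nd (nat_lit 9) 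
(.lf (nat_lit 567663) (.g (nat_lit 2377) (.e (nat_lit 442433) (nat_lit 25) (.e (nat_lit 245773) (nat_lit 3) (.e (nat_lit 163843) (nat_lit 0) (.e (nat_lit 6420) (nat_lit 341) (.e (nat_lit 163941) (nat_lit 19) (.e (nat_lit 491264) (nat_lit 11) .nil)))))) (.g (nat_lit 1) (.e (nat_lit 337851) (nat_lit 0) .nil) .nil))) 
(.lf (nat_lit 568175) (.g (nat_lit 1558) (.e (nat_lit 450586) (nat_lit 10) (.e (nat_lit 573473) (nat_lit 12) (.e (nat_lit 57508) (nat_lit 39) (.e (nat_lit 647195) (nat_lit 9) (.e (nat_lit 422) (nat_lit 32) (.e (nat_lit 426012) (nat_lit 0) (.e (nat_lit 3548) (nat_lit 219) (.e (nat_lit 712753) (nat_lit 30) .nil)))))))) (.g (nat_lit 1) (.e (nat_lit 342370) (nat_lit 0) .nil) .nil))))) 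
(.nd (nat_lit 8) (.nd (nat_lit 9) 
(.lf (nat_lit 567535) (.g (nat_lit 2940) (.e (nat_lit 442427) (nat_lit 23) (.e (nat_lit 204830) (nat_lit 18) (.e (nat_lit 57692) (nat_lit 156) (.e (nat_lit 163907) (nat_lit 12) (.e (nat_lit 426479) (nat_lit 27) (.e (nat_lit 336430) (nat_lit 29) .nil)))))) (.g (nat_lit 1) (.e (nat_lit 337061) (nat_lit 0) .nil) .nil))) 
(.lf (nat_lit 568047) (.g (nat_lit 2771) (.e (nat_lit 450581) (nat_lit 5) (.e (nat_lit 532523) (nat_lit 7) (.e (nat_lit 319533) (nat_lit 16) (.e (nat_lit 286732) (nat_lit 2) (.e (nat_lit 90134) (nat_lit 9) .nil))))) (.g (nat_lit 0) (.e (nat_lit 341641) (nat_lit 0) .nil) .nil)))) (.nd (nat_lit 9) 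
(.lf (nat_lit 567791) (.g (nat_lit 1615) (.e (nat_lit 458496) (nat_lit 0) (.e (nat_lit 5589) (nat_lit 310) (.e (nat_lit 163933) (nat_lit 17) (.e (nat_lit 466947) (nat_lit 0) (.e (nat_lit 2175) (nat_lit 143) .nil))))) (.g (nat_lit 0) (.e (nat_lit 339766) (nat_lit 0) .nil) .nil))) 
(.lf (nat_lit 568303) (.g (nat_lit 2590) (.e (nat_lit 450588) (nat_lit 10) (.e (nat_lit 573473) (nat_lit 12) (.e (nat_lit 57508) (nat_lit 39) (.e (nat_lit 647195) (nat_lit 9) (.e (nat_lit 426) (nat_lit 32) (.e (nat_lit 426012) (nat_lit 0) (.e (nat_lit 3544) (nat_lit 219) (.e (nat_lit 712754) (nat_lit 30) .nil)))))))) (.g (nat_lit 1) (.e (nat_lit 343042) (nat_lit 0) .nil) .nil)))))))) 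
(.nd (nat_lit 5) (.nd (nat_lit 6) (.nd (nat_lit 7) (.nd (nat_lit 8) (.nd (nat_lit 9) 
(.lf (nat_lit 567327) (.g (nat_lit 2079) (.e (nat_lit 442412) (nat_lit 20) (.e (nat_lit 3272) (nat_lit 199) (.e (nat_lit 548913) (nat_lit 18) (.e (nat_lit 172125) (nat_lit 14) (.e (nat_lit 491524) (nat_lit 0) .nil))))) (.g (nat_lit 0) (.e (nat_lit 335972) (nat_lit 0) .nil) .nil))) 
(.lf (nat_lit 567839) (.g (nat_lit 1903) (.e (nat_lit 450579) (nat_lit 5) (.e (nat_lit 532501) (nat_lit 1) (.e (nat_lit 57663) (nat_lit 152) (.e (nat_lit 2725) (nat_lit 172) (.e (nat_lit 237579) (nat_lit 0) .nil))))) (.g (nat_lit 0) (.e (nat_lit 340235) (nat_lit 0) .nil) .nil)))) (.nd (nat_lit 9) 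
(.lf (nat_lit 567583) (.g (nat_lit 1305) (.e (nat_lit 450304) (nat_lit 23) (.e (nat_lit 204846) (nat_lit 24) (.e (nat_lit 319529) (nat_lit 16) (.e (nat_lit 286735) (nat_lit 3) .nil)))) (.g (nat_lit 0) (.e (nat_lit 337421) (nat_lit 0) .nil) .nil))) 
(.lf (nat_lit 568095) (.g (nat_lit 613) (.e (nat_lit 450585) (nat_lit 10) (.e (nat_lit 573450) (nat_lit 9) (.e (nat_lit 442) (nat_lit 33) .nil))) (.g (nat_lit 0) (.e (nat_lit 342048) (nat_lit 0) .nil) .nil))))) (.nd (nat_lit 8) (.nd (nat_lit 9) 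
(.lf (nat_lit 567455) (.g (nat_lit 2612) (.e (nat_lit 442425) (nat_lit 23) (.e (nat_lit 204830) (nat_lit 18) (.e (nat_lit 57685) (nat_lit 156) (.e (nat_lit 163903) (nat_lit 12) (.e (nat_lit 426479) (nat_lit 27) (.e (nat_lit 336430) (nat_lit 29) .nil)))))) (.g (nat_lit 1) (.e (nat_lit 336543) (nat_lit 0) .nil) .nil))) 
(.lf (nat_lit 567967) (.g (nat_lit 2995) (.e (nat_lit 450580) (nat_lit 5) (.e (nat_lit 532522) (nat_lit 7) (.e (nat_lit 319530) (nat_lit 16) (.e (nat_lit 286727) (nat_lit 0) (.e (nat_lit 1809) (nat_lit 120) .nil))))) (.g (nat_lit 0) (.e (nat_lit 341116) (nat_lit 0) .nil) .nil)))) (.nd (nat_lit 9) 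
(.lf (nat_lit 567711) (.g (nat_lit 1268) (.e (nat_lit 450565) (nat_lit 0) (.e (nat_lit 5224) (nat_lit 296) (.e (nat_lit 163884) (nat_lit 5) (.e (nat_lit 221193) (nat_lit 11) (.e (nat_lit 336084) (nat_lit 9) .nil))))) (.g (nat_lit 0) (.e (nat_lit 339151) (nat_lit 0) .nil) .nil))) 
(.lf (nat_lit 568223) (.g (nat_lit 408) (.e (nat_lit 450586) (nat_lit 10) (.e (nat_lit 573503) (nat_lit 18) (.e (nat_lit 1349) (nat_lit 102) .nil))) (.g (nat_lit 0) (.e (nat_lit 342580) (nat_lit 0) .nil) .nil)))))) (.nd (nat_lit 7) (.nd (nat_lit 8) (.nd (nat_lit 9) 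
(.lf (nat_lit 567391) (.g (nat_lit 1159) (.e (nat_lit 442420) (nat_lit 21) (.e (nat_lit 164347) (nat_lit 240) (.e (nat_lit 2648) (nat_lit 166) (.e (nat_lit 188420) (nat_lit 0) .nil)))) (.g (nat_lit 0) (.e (nat_lit 336172) (nat_lit 0) .nil) .nil))) 
(.lf (nat_lit 567903) (.g (nat_lit 444) (.e (nat_lit 450579) (nat_lit 5) (.e (nat_lit 532523) (nat_lit 7) (.e (nat_lit 319534) (nat_lit 16) .nil))) (.g (nat_lit 0) (.e (nat_lit 340440) (nat_lit 0) .nil) .nil)))) (.nd (nat_lit 9) 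
(.lf (nat_lit 567647) (.g (nat_lit 1894) (.e (nat_lit 442430) (nat_lit 24) (.e (nat_lit 229665) (nat_lit 240) (.e (nat_lit 2641) (nat_lit 165) (.e (nat_lit 180278) (nat_lit 32) (.e (nat_lit 1413) (nat_lit 108) (.e (nat_lit 336426) (nat_lit 29) .nil)))))) (.g (nat_lit 1) (.e (nat_lit 337706) (nat_lit 0) .nil) .nil))) 
(.lf (nat_lit 568159) (.g (nat_lit 2775) (.e (nat_lit 450586) (nat_lit 10) (.e (nat_lit 573471) (nat_lit 11) (.e (nat_lit 16470) (nat_lit 14) (.e (nat_lit 491539) (nat_lit 3) (.e (nat_lit 98372) (nat_lit 29) .nil))))) (.g (nat_lit 0) (.e (nat_lit 342340) (nat_lit 0) .nil) .nil))))) (.nd (nat_lit 8) (.nd (nat_lit 9) 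
(.lf (nat_lit 567519) (.g (nat_lit 2761) (.e (nat_lit 442427) (nat_lit 23) (.e (nat_lit 204813) (nat_lit 9) (.e (nat_lit 426100) (nat_lit 1) (.e (nat_lit 164403) (nat_lit 256) (.e (nat_lit 57406) (nat_lit 12) .nil))))) (.g (nat_lit 0) (.e (nat_lit 336953) (nat_lit 0) .nil) .nil))) 
(.lf (nat_lit 568031) (.g (nat_lit 2977) (.e (nat_lit 450581) (nat_lit 5) (.e (nat_lit 532522) (nat_lit 7) (.e (nat_lit 319531) (nat_lit 16) (.e (nat_lit 286733) (nat_lit 2) (.e (nat_lit 90134) (nat_lit 9) (.e (nat_lit 3025) (nat_lit 187) .nil)))))) (.g (nat_lit 1) (.e (nat_lit 341619) (nat_lit 0) .nil) .nil)))) (.nd (nat_lit 9) 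
(.lf (nat_lit 567775) (.g (nat_lit 326) (.e (nat_lit 458496) (nat_lit 0) (.e (nat_lit 5547) (nat_lit 306) (.e (nat_lit 2650) (nat_lit 166) .nil))) (.g (nat_lit 0) (.e (nat_lit 339707) (nat_lit 0) .nil) .nil))) 
(.lf (nat_lit 568287) (.g (nat_lit 4205) (.e (nat_lit 450588) (nat_lit 10) (.e (nat_lit 573471) (nat_lit 11) (.e (nat_lit 16470) (nat_lit 14) (.e (nat_lit 491527) (nat_lit 0) .nil)))) (.g (nat_lit 0) (.e (nat_lit 342999) (nat_lit 0) .nil) .nil))))))) (.nd (nat_lit 6) (.nd (nat_lit 7) (.nd (nat_lit 8) (.nd (nat_lit 9) 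
(.lf (nat_lit 567359) (.g (nat_lit 521) (.e (nat_lit 442419) (nat_lit 21) (.e (nat_lit 164332) (nat_lit 230) (.e (nat_lit 163885) (nat_lit 5) .nil))) (.g (nat_lit 0) (.e (nat_lit 336086) (nat_lit 0) .nil) .nil))) 
(.lf (nat_lit 567871) (.g (nat_lit 1986) (.e (nat_lit 450579) (nat_lit 5) (.e (nat_lit 532504) (nat_lit 1) (.e (nat_lit 57663) (nat_lit 152) (.e (nat_lit 2725) (nat_lit 172) (.e (nat_lit 237578) (nat_lit 0) (.e (nat_lit 7936) (nat_lit 219) (.e (nat_lit 712753) (nat_lit 30) .nil))))))) (.g (nat_lit 1) (.e (nat_lit 340359) (nat_lit 0) .nil) .nil)))) (.nd (nat_lit 9) 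
(.lf (nat_lit 567615) (.g (nat_lit 4766) (.e (nat_lit 442428) (nat_lit 24) (.e (nat_lit 229678) (nat_lit 244) (.e (nat_lit 163908) (nat_lit 12) (.e (nat_lit 426338) (nat_lit 14) (.e (nat_lit 491549) (nat_lit 9) (.e (nat_lit 336430) (nat_lit 29) .nil)))))) (.g (nat_lit 1) (.e (nat_lit 337516) (nat_lit 0) .nil) .nil))) 
(.lf (nat_lit 568127) (.g (nat_lit 1585) (.e (nat_lit 450586) (nat_lit 10) (.e (nat_lit 573471) (nat_lit 11) (.e (nat_lit 16387) (nat_lit 0) (.e (nat_lit 7545) (nat_lit 402) (.e (nat_lit 1255) (nat_lit 92) .nil))))) (.g (nat_lit 0) (.e (nat_lit 342194) (nat_lit 0) .nil) .nil))))) (.nd (nat_lit 8) (.nd (nat_lit 9) 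
(.lf (nat_lit 567487) (.g (nat_lit 1400) (.e (nat_lit 442426) (nat_lit 23) (.e (nat_lit 204813) (nat_lit 9) (.e (nat_lit 426100) (nat_lit 1) (.e (nat_lit 164399) (nat_lit 256) .nil)))) (.g (nat_lit 0) (.e (nat_lit 336808) (nat_lit 0) .nil) .nil))) 
(.lf (nat_lit 567999) (.g (nat_lit 2241) (.e (nat_lit 450580) (nat_lit 5) (.e (nat_lit 532523) (nat_lit 7) (.e (nat_lit 319533) (nat_lit 16) (.e (nat_lit 286721) (nat_lit 0) .nil)))) (.g (nat_lit 0) (.e (nat_lit 341164) (nat_lit 0) .nil) .nil)))) (.nd (nat_lit 9) 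
(.lf (nat_lit 567743) (.g (nat_lit 872) (.e (nat_lit 458496) (nat_lit 0) (.e (nat_lit 5193) (nat_lit 294) (.e (nat_lit 57437) (nat_lit 17) (.e (nat_lit 376855) (nat_lit 20) .nil)))) (.g (nat_lit 0) (.e (nat_lit 339581) (nat_lit 0) .nil) .nil))) 
(.lf (nat_lit 568255) (.g (nat_lit 3080) (.e (nat_lit 450587) (nat_lit 10) (.e (nat_lit 573478) (nat_lit 12) (.e (nat_lit 57360) (nat_lit 0) (.e (nat_lit 5949) (nat_lit 322) (.e (nat_lit 57388) (nat_lit 5) (.e (nat_lit 114712) (nat_lit 21) (.e (nat_lit 57929) (nat_lit 282) (.e (nat_lit 163923) (nat_lit 15) .nil)))))))) (.g (nat_lit 1) (.e (nat_lit 342788) (nat_lit 0) .nil) .nil)))))) 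
(.nd (nat_lit 7) (.nd (nat_lit 8) (.nd (nat_lit 9) 
(.lf (nat_lit 567423) (.g (nat_lit 1190) (.e (nat_lit 442421) (nat_lit 21) (.e (nat_lit 164319) (nat_lit 228) (.e (nat_lit 57427) (nat_lit 15) (.e (nat_lit 360484) (nat_lit 15) (.e (nat_lit 647189) (nat_lit 9) .nil))))) (.g (nat_lit 0) (.e (nat_lit 336258) (nat_lit 0) .nil) .nil))) 
(.lf (nat_lit 567935) (.g (nat_lit 1024) (.e (nat_lit 450579) (nat_lit 5) (.e (nat_lit 532579) (nat_lit 26) (.e (nat_lit 426100) (nat_lit 1) (.e (nat_lit 164399) (nat_lit 256) .nil)))) (.g (nat_lit 0) (.e (nat_lit 340944) (nat_lit 0) .nil) .nil)))) (.nd (nat_lit 9) 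
(.lf (nat_lit 567679) (.g (nat_lit 1250) (.e (nat_lit 450562) (nat_lit 0) (.e (nat_lit 6830) (nat_lit 367) (.e (nat_lit 57427) (nat_lit 15) (.e (nat_lit 360470) (nat_lit 6) .nil)))) (.g (nat_lit 0) (.e (nat_lit 338622) (nat_lit 0) .nil) .nil))) 
(.lf (nat_lit 568191) (.g (nat_lit 505) (.e (nat_lit 450586) (nat_lit 10) (.e (nat_lit 573475) (nat_lit 12) (.e (nat_lit 57344) (nat_lit 0) .nil))) (.g (nat_lit 0) (.e (nat_lit 342448) (nat_lit 0) .nil) .nil))))) (.nd (nat_lit 8) (.nd (nat_lit 9) 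
(.lf (nat_lit 567551) (.g (nat_lit 2410) (.e (nat_lit 442427) (nat_lit 23) (.e (nat_lit 204845) (nat_lit 24) (.e (nat_lit 319531) (nat_lit 16) (.e (nat_lit 286727) (nat_lit 0) (.e (nat_lit 1809) (nat_lit 120) .nil))))) (.g (nat_lit 0) (.e (nat_lit 337110) (nat_lit 0) .nil) .nil))) 
(.lf (nat_lit 568063) (.g (nat_lit 1713) (.e (nat_lit 458496) (nat_lit 5) (.e (nat_lit 532523) (nat_lit 7) (.e (nat_lit 319531) (nat_lit 16) (.e (nat_lit 286733) (nat_lit 2) .nil)))) (.g (nat_lit 0) (.e (nat_lit 341681) (nat_lit 0) .nil) .nil)))) (.nd (nat_lit 9) 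
(.lf (nat_lit 567807) (.g (nat_lit 2930) (.e (nat_lit 450578) (nat_lit 5) (.e (nat_lit 532563) (nat_lit 15) (.e (nat_lit 385094) (nat_lit 49) (.e (nat_lit 778317) (nat_lit 3) (.e (nat_lit 57476) (nat_lit 28) (.e (nat_lit 557067) (nat_lit 9) (.e (nat_lit 3022) (nat_lit 187) .nil))))))) (.g (nat_lit 1) (.e (nat_lit 340060) (nat_lit 0) .nil) .nil))) 
(.lf (nat_lit 568319) (.g (nat_lit 904) (.e (nat_lit 450588) (nat_lit 10) (.e (nat_lit 573474) (nat_lit 12) (.e (nat_lit 57572) (nat_lit 54) (.e (nat_lit 770072) (nat_lit 8) .nil)))) (.g (nat_lit 0) (.e (nat_lit 343139) (nat_lit 0) .nil) .nil)))))))))))))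


end

end Pool.Agent.Lib.MP_5854e1_co.Cz
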