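import Pool.Agent.Lib.MP_5854e1_co.Cz.Tv00
import Pool.Agent.Lib.MP_5854e1_co.Cz.Tv01
import Pool.Agent.Lib.MP_5854e1_co.Cz.Tv02
import Pool.Agent.Lib.MP_5854e1_co.Cz.Tv03
import Pool.Agent.Lib.MP_5854e1_co.Cz.Tv04
import Pool.Agent.Lib.MP_5854e1_co.Cz.Tv05
import Pool.Agent.Lib.MP_5854e1_co.Cz.Tv06
import Pool.Agent.Lib.MP_5854e1_co.Cz.Tv07
import Pool.Agent.Lib.MP_5854e1_co.Cz.Tv08
import Pool.Agent.Lib.MP_5854e1_co.Cz.Tv09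
import Pool.Agent.Lib.MP_5854e1_co.Cz.Tv10
import Pool.Agent.Lib.MP_5854e1_co.Cz.Tv11
import Pool.Agent.Lib.MP_5854e1_co.Cz.Tv12
import Pool.Agent.Lib.MP_5854e1_co.Cz.Tv13
import Pool.Agent.Lib.MP_5854e1_co.Cz.Tv14
import Pool.Agent.Lib.MP_5854e1_co.Cz.Tv15
import Pool.Agent.Lib.MP_5854e1_co.Cz.Tv16
import Pool.Agent.Lib.MP_5854e1_co.Cz.Tv17
import Pool.Agent.Lib.MP_5854e1_co.Cz.Tv18
import Pool.Agent.Lib.MP_5854e1_co.Cz.Tv19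
import Pool.Agent.Lib.MP_5854e1_co.Cz.Tv20
import Pool.Agent.Lib.MP_5854e1_co.Cz.Tv21
import Pool.Agent.Lib.MP_5854e1_co.Cz.Tv22
import Pool.Agent.Lib.MP_5854e1_co.Cz.Tv23
import Pool.Agent.Lib.MP_5854e1_co.Cz.Tv24
import Pool.Agent.Lib.MP_5854e1_co.Cz.Tv25
import Pool.Agent.Lib.MP_5854e1_co.Cz.Tv26
import Pool.Agent.Lib.MP_5854e1_co.Cz.Tv27
import Pool.Agent.Lib.MP_5854e1_co.Cz.Tv28
import Pool.Agent.Lib.MP_5854e1_co.Cz.Tv29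
import Pool.Agent.Lib.MP_5854e1_co.Cz.Tv30
import Pool.Agent.Lib.MP_5854e1_co.Cz.Tv31
import Pool.Agent.Lib.MP_5854e1_co.Cz.Tv32
import Pool.Agent.Lib.MP_5854e1_co.Cz.Tv33
import Pool.Agent.Lib.MP_5854e1_co.Cz.Tv34
import Pool.Agent.Lib.MP_5854e1_co.Cz.Tv35
import Pool.Agent.Lib.MP_5854e1_co.Cz.Tv36
import Pool.Agent.Lib.MP_5854e1_co.Cz.Tv37
import Pool.Agent.Lib.MP_5854e1_co.Cz.Tv38
import Pool.Agent.Lib.MP_5854e1_co.Cz.Tv39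
import Pool.Agent.Lib.MP_5854e1_co.Cz.Tv40
import Pool.Agent.Lib.MP_5854e1_co.Cz.Tv41
import Pool.Agent.Lib.MP_5854e1_co.Cz.Tv42
import Pool.Agent.Lib.MP_5854e1_co.Cz.Tv43
import Pool.Agent.Lib.MP_5854e1_co.Cz.Tv44
import Pool.Agent.Lib.MP_5854e1_co.Cz.Tv45
import Pool.Agent.Lib.MP_5854e1_co.Cz.Tv46
import Pool.Agent.Lib.MP_5854e1_co.Cz.Tv47
import Pool.Agent.Lib.MP_5854e1_co.Cz.Tv48
import Pool.Agent.Lib.MP_5854e1_co.Cz.Tv49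
import Pool.Agent.Lib.MP_5854e1_co.Cz.Tv50
import Pool.Agent.Lib.MP_5854e1_co.Cz.Tv51
import Pool.Agent.Lib.MP_5854e1_co.Cz.Tv52
import Pool.Agent.Lib.MP_5854e1_co.Cz.Tv53
import Pool.Agent.Lib.MP_5854e1_co.Cz.Tv54
import Pool.Agent.Lib.MP_5854e1_co.Cz.Tv55
import Pool.Agent.Lib.MP_5854e1_co.Cz.Tv56
import Pool.Agent.Lib.MP_5854e1_co.Cz.Tv57
import Pool.Agent.Lib.MP_5854e1_co.Cz.Tv58
import Pool.Agent.Lib.MP_5854e1_co.Cz.Tv59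
import Pool.Agent.Lib.MP_5854e1_co.Cz.Tv60
import Pool.Agent.Lib.MP_5854e1_co.Cz.Tv61
import Pool.Agent.Lib.MP_5854e1_co.Cz.Tv62
import Pool.Agent.Lib.MP_5854e1_co.Cz.Tv63
import Pool.Agent.Lib.MP_5854e1_co.Cz.Tv64
import Pool.Agent.Lib.MP_5854e1_co.Cz.Tv65
import Pool.Agent.Lib.MP_5854e1_co.Cz.Tv66
import Pool.Agent.Lib.MP_5854e1_co.Cz.Tv67
import Pool.Agent.Lib.MP_5854e1_co.Cz.Tv68
import Pool.Agent.Lib.MP_5854e1_co.Cz.Tv69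
import Pool.Agent.Lib.MP_5854e1_co.Cz.Tv70
import Pool.Agent.Lib.MP_5854e1_co.Cz.Tv71
import Pool.Agent.Lib.MP_5854e1_co.Cz.Tv72
import Pool.Agent.Lib.MP_5854e1_co.Cz.Tv73
import Pool.Agent.Lib.MP_5854e1_co.Cz.Tv74
import Pool.Agent.Lib.MP_5854e1_co.Cz.Tv75
import Pool.Agent.Lib.MP_5854e1_co.Cz.Tv76
import Pool.Agent.Lib.MP_5854e1_co.Cz.Tv77
import Pool.Agent.Lib.MP_5854e1_co.Cz.Tv78
import Pool.Agent.Lib.MP_5854e1_co.Cz.Tv79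
import Pool.Agent.Lib.MP_5854e1_co.Cz.Tv80
import Pool.Agent.Lib.MP_5854e1_co.Cz.Tv81
import Pool.Agent.Lib.MP_5854e1_co.Cz.Tv82
import Pool.Agent.Lib.MP_5854e1_co.Cz.Tv83
import Pool.Agent.Lib.MP_5854e1_co.Cz.Tv84
import Pool.Agent.Lib.MP_5854e1_co.Cz.Tv85
import Pool.Agent.Lib.MP_5854e1_co.Cz.Tv86
import Pool.Agent.Lib.MP_5854e1_co.Cz.Tv87
import Pool.Agent.Lib.MP_5854e1_co.Cz.Tv88
import Pool.Agent.Lib.MP_5854e1_co.Cz.Tv89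
import Pool.Agent.Lib.MP_5854e1_co.Cz.Tv90
import Pool.Agent.Lib.MP_5854e1_co.Cz.Tv91
import Pool.Agent.Lib.MP_5854e1_co.Cz.Tv92
import Pool.Agent.Lib.MP_5854e1_co.Cz.Tv93
import Pool.Agent.Lib.MP_5854e1_co.Cz.Tv94
import Pool.Agent.Lib.MP_5854e1_co.Cz.Tv95
import Pool.Agent.Lib.MP_5854e1_co.Cz.Tv96
import Pool.Agent.Lib.MP_5854e1_co.Cz.Tv97
import Pool.Agent.Lib.MP_5854e1_co.Cz.Tv98
import Pool.Agent.Lib.MP_5854e1_co.Cz.Tv99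
import Pool.Agent.Lib.MP_5854e1_co.Cz.Tv100
import Pool.Agent.Lib.MP_5854e1_co.Cz.Tv101
import Pool.Agent.Lib.MP_5854e1_co.Cz.Tv102
import Pool.Agent.Lib.MP_5854e1_co.Cz.Tv103
import Pool.Agent.Lib.MP_5854e1_co.Cz.Tv104
import Pool.Agent.Lib.MP_5854e1_co.Cz.Tv105
import Pool.Agent.Lib.MP_5854e1_co.Cz.Tv106

/-!
# Windows and cells of the rings
-/

set_option autoImplicit false
set_option maxRecDepth 100000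
set_option deprecated.oldSectionVars true

namespace Pool.Agent.Lib.MP_5854e1_co.Cz

open Pool.Agent.Lib.MP_5854e1_co

noncomputable section

noncomputable def tv : DT := (.nd (nat_lit 19) (.nd (nat_lit 18) (.nd (nat_lit 17) 
(.nd (nat_lit 16) (.nd (nat_lit 15) (.nd (nat_lit 14) (.nd (nat_lit 13) (.nd (nat_lit 12) 
(.nd (nat_lit 11) (.nd (nat_lit 10) (.nd (nat_lit 9) (.nd (nat_lit 8) (.nd (nat_lit 7) 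
(.nd (nat_lit 6) tv000 tv001) (.nd (nat_lit 6) tv002 tv003)) (.nd (nat_lit 7) 
(.nd (nat_lit 6) tv004 tv005) (.nd (nat_lit 6) tv006 tv007))) (.nd (nat_lit 8) (.nd (nat_lit 7) 
(.nd (nat_lit 6) tv008 tv009) (.nd (nat_lit 6) tv010 tv011)) (.nd (nat_lit 7) 
(.nd (nat_lit 6) tv012 tv013) tv014))) (.nd (nat_lit 9) (.nd (nat_lit 8) 
(.nd (nat_lit 7) tv015 tv016) (.nd (nat_lit 7) (.nd (nat_lit 6) tv017 tv018) 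
(.nd (nat_lit 6) tv019 tv020))) (.nd (nat_lit 8) (.nd (nat_lit 7) 
(.nd (nat_lit 6) tv021 tv022) tv023) (.nd (nat_lit 7) (.nd (nat_lit 6) tv024 tv025) tv026)))) 
(.nd (nat_lit 10) (.nd (nat_lit 9) (.nd (nat_lit 8) (.nd (nat_lit 7) (.nd (nat_lit 6) tv027 tv028) 
(.nd (nat_lit 6) tv029 tv030)) (.nd (nat_lit 7) (.nd (nat_lit 6) tv031 tv032) 
(.nd (nat_lit 6) tv033 tv034))) (.nd (nat_lit 8) (.nd (nat_lit 7) (.nd (nat_lit 6) tv035 tv036) 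
(.nd (nat_lit 6) tv037 tv038)) (.nd (nat_lit 7) (.nd (nat_lit 6) tv039 tv040) tv041))) 
(.nd (nat_lit 9) (.nd (nat_lit 8) (.nd (nat_lit 7) tv042 (.nd (nat_lit 6) tv043 tv044)) 
(.nd (nat_lit 7) tv045 (.nd (nat_lit 6) tv046 tv047))) (.nd (nat_lit 8) (.nd (nat_lit 7) 
(.nd (nat_lit 6) tv048 tv049) (.nd (nat_lit 6) tv050 tv051)) (.nd (nat_lit 7) 
(.nd (nat_lit 6) tv052 tv053) tv054))))) (.nd (nat_lit 11) (.nd (nat_lit 10) (.nd (nat_lit 9) 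
(.nd (nat_lit 8) (.nd (nat_lit 7) (.nd (nat_lit 6) tv055 tv056) tv057) (.nd (nat_lit 7) 
(.nd (nat_lit 6) tv058 tv059) tv060)) (.nd (nat_lit 8) (.nd (nat_lit 7) 
(.nd (nat_lit 6) tv061 tv062) tv063) (.nd (nat_lit 7) (.nd (nat_lit 6) tv064 tv065) 
(.nd (nat_lit 6) tv066 tv067)))) (.nd (nat_lit 9) (.nd (nat_lit 8) (.nd (nat_lit 7) tv068 
(.nd (nat_lit 6) tv069 tv070)) (.nd (nat_lit 7) tv071 (.nd (nat_lit 6) 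
(.nd (nat_lit 5) tv072 tv073) tv074))) (.nd (nat_lit 8) (.nd (nat_lit 7) 
(.nd (nat_lit 6) tv075 tv076) (.nd (nat_lit 6) tv077 tv078)) (.nd (nat_lit 7) 
(.nd (nat_lit 6) tv079 tv080) (.nd (nat_lit 6) tv081 tv082))))) (.nd (nat_lit 10) (.nd (nat_lit 9) 
(.nd (nat_lit 8) (.nd (nat_lit 7) (.nd (nat_lit 6) tv083 tv084) (.nd (nat_lit 6) tv085 tv086)) 
(.nd (nat_lit 7) (.nd (nat_lit 6) tv087 tv088) (.nd (nat_lit 6) tv089 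
(.nd (nat_lit 5) tv090 tv091)))) (.nd (nat_lit 8) (.nd (nat_lit 7) (.nd (nat_lit 6) 
(.nd (nat_lit 5) tv092 tv093) tv094) tv095) (.nd (nat_lit 7) (.nd (nat_lit 6) tv096 tv097) tv098))) 
(.nd (nat_lit 9) (.nd (nat_lit 8) (.nd (nat_lit 7) tv099 (.nd (nat_lit 6) tv100 
(.nd (nat_lit 5) tv101 tv102))) (.nd (nat_lit 7) (.nd (nat_lit 6) tv103 tv104) 
(.nd (nat_lit 6) tv105 tv106))) (.nd (nat_lit 8) (.nd (nat_lit 7) tv107 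
(.nd (nat_lit 6) tv108 tv109)) (.nd (nat_lit 7) (.nd (nat_lit 6) tv110 tv111) tv112)))))) 
(.nd (nat_lit 12) (.nd (nat_lit 11) (.nd (nat_lit 10) (.nd (nat_lit 9) (.nd (nat_lit 8) 
(.nd (nat_lit 7) (.nd (nat_lit 6) tv113 tv114) (.nd (nat_lit 6) tv115 tv116)) (.nd (nat_lit 7) 
(.nd (nat_lit 6) tv117 tv118) (.nd (nat_lit 6) tv119 tv120))) (.nd (nat_lit 8) (.nd (nat_lit 7) 
(.nd (nat_lit 6) tv121 (.nd (nat_lit 5) tv122 tv123)) (.nd (nat_lit 6) tv124 tv125)) 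
(.nd (nat_lit 7) tv126 tv127))) (.nd (nat_lit 9) (.nd (nat_lit 8) (.nd (nat_lit 7) 
(.nd (nat_lit 6) tv128 tv129) (.nd (nat_lit 6) tv130 tv131)) (.nd (nat_lit 7) tv132 tv133)) 
(.nd (nat_lit 8) (.nd (nat_lit 7) tv134 tv135) (.nd (nat_lit 7) tv136 tv137)))) (.nd (nat_lit 10) 
(.nd (nat_lit 9) (.nd (nat_lit 8) (.nd (nat_lit 7) (.nd (nat_lit 6) tv138 tv139) 
(.nd (nat_lit 6) tv140 tv141)) (.nd (nat_lit 7) (.nd (nat_lit 6) tv142 tv143) 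
(.nd (nat_lit 6) tv144 (.nd (nat_lit 5) tv145 tv146)))) (.nd (nat_lit 8) (.nd (nat_lit 7) 
(.nd (nat_lit 6) (.nd (nat_lit 5) tv147 tv148) tv149) (.nd (nat_lit 6) tv150 tv151)) 
(.nd (nat_lit 7) (.nd (nat_lit 6) tv152 tv153) tv154))) (.nd (nat_lit 9) (.nd (nat_lit 8) 
(.nd (nat_lit 7) tv155 tv156) (.nd (nat_lit 7) (.nd (nat_lit 6) tv157 tv158) tv159)) 
(.nd (nat_lit 8) (.nd (nat_lit 7) (.nd (nat_lit 6) tv160 tv161) (.nd (nat_lit 6) tv162 tv163)) 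
(.nd (nat_lit 7) tv164 tv165))))) (.nd (nat_lit 11) (.nd (nat_lit 10) (.nd (nat_lit 9) 
(.nd (nat_lit 8) (.nd (nat_lit 7) (.nd (nat_lit 6) tv166 tv167) (.nd (nat_lit 6) tv168 tv169)) 
(.nd (nat_lit 7) (.nd (nat_lit 6) tv170 tv171) (.nd (nat_lit 6) tv172 tv173))) (.nd (nat_lit 8) 
(.nd (nat_lit 7) (.nd (nat_lit 6) tv174 tv175) (.nd (nat_lit 6) 
(.nd (nat_lit 5) tv176 tv177) tv178)) (.nd (nat_lit 7) (.nd (nat_lit 6) tv179 tv180) 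
(.nd (nat_lit 6) tv181 tv182)))) (.nd (nat_lit 9) (.nd (nat_lit 8) (.nd (nat_lit 7) 
(.nd (nat_lit 6) tv183 tv184) (.nd (nat_lit 6) tv185 tv186)) (.nd (nat_lit 7) 
(.nd (nat_lit 6) tv187 tv188) (.nd (nat_lit 6) tv189 tv190))) (.nd (nat_lit 8) (.nd (nat_lit 7) 
(.nd (nat_lit 6) tv191 tv192) (.nd (nat_lit 6) tv193 tv194)) (.nd (nat_lit 7) 
(.nd (nat_lit 6) tv195 tv196) (.nd (nat_lit 6) tv197 tv198))))) (.nd (nat_lit 10) (.nd (nat_lit 9) 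
(.nd (nat_lit 8) (.nd (nat_lit 7) (.nd (nat_lit 6) tv199 tv200) tv201) (.nd (nat_lit 7) 
(.nd (nat_lit 6) tv202 tv203) (.nd (nat_lit 6) tv204 tv205))) (.nd (nat_lit 8) (.nd (nat_lit 7) 
(.nd (nat_lit 6) tv206 tv207) (.nd (nat_lit 6) tv208 tv209)) (.nd (nat_lit 7) tv210 tv211))) 
(.nd (nat_lit 9) (.nd (nat_lit 8) (.nd (nat_lit 7) (.nd (nat_lit 6) tv212 tv213) tv214) 
(.nd (nat_lit 7) tv215 tv216)) (.nd (nat_lit 8) (.nd (nat_lit 7) tv217 tv218) 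
(.nd (nat_lit 7) tv219 tv220))))))) (.nd (nat_lit 13) (.nd (nat_lit 12) (.nd (nat_lit 11) 
(.nd (nat_lit 10) (.nd (nat_lit 9) (.nd (nat_lit 8) (.nd (nat_lit 7) (.nd (nat_lit 6) tv221 tv222) 
(.nd (nat_lit 6) tv223 tv224)) (.nd (nat_lit 7) (.nd (nat_lit 6) tv225 tv226) 
(.nd (nat_lit 6) tv227 tv228))) (.nd (nat_lit 8) (.nd (nat_lit 7) (.nd (nat_lit 6) tv229 tv230) 
(.nd (nat_lit 6) tv231 tv232)) (.nd (nat_lit 7) (.nd (nat_lit 6) tv233 tv234) 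
(.nd (nat_lit 6) tv235 tv236)))) (.nd (nat_lit 9) (.nd (nat_lit 8) (.nd (nat_lit 7) 
(.nd (nat_lit 6) tv237 tv238) (.nd (nat_lit 6) tv239 tv240)) (.nd (nat_lit 7) (.nd (nat_lit 6) 
(.nd (nat_lit 5) tv241 tv242) tv243) (.nd (nat_lit 6) tv244 tv245))) (.nd (nat_lit 8) 
(.nd (nat_lit 7) (.nd (nat_lit 6) tv246 tv247) (.nd (nat_lit 6) tv248 tv249)) (.nd (nat_lit 7) 
(.nd (nat_lit 6) tv250 tv251) (.nd (nat_lit 6) tv252 tv253))))) (.nd (nat_lit 10) (.nd (nat_lit 9) 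
(.nd (nat_lit 8) (.nd (nat_lit 7) (.nd (nat_lit 6) tv254 tv255) (.nd (nat_lit 6) tv256 tv257)) 
(.nd (nat_lit 7) (.nd (nat_lit 6) tv258 tv259) (.nd (nat_lit 6) tv260 tv261))) (.nd (nat_lit 8) 
(.nd (nat_lit 7) tv262 (.nd (nat_lit 6) tv263 tv264)) (.nd (nat_lit 7) 
(.nd (nat_lit 6) tv265 tv266) (.nd (nat_lit 6) tv267 tv268)))) (.nd (nat_lit 9) (.nd (nat_lit 8) 
(.nd (nat_lit 7) (.nd (nat_lit 6) tv269 tv270) (.nd (nat_lit 6) tv271 tv272)) (.nd (nat_lit 7) 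
(.nd (nat_lit 6) tv273 tv274) (.nd (nat_lit 6) tv275 tv276))) (.nd (nat_lit 8) (.nd (nat_lit 7) 
(.nd (nat_lit 6) tv277 tv278) (.nd (nat_lit 6) tv279 tv280)) (.nd (nat_lit 7) 
(.nd (nat_lit 6) tv281 tv282) (.nd (nat_lit 6) tv283 tv284)))))) (.nd (nat_lit 11) 
(.nd (nat_lit 10) (.nd (nat_lit 9) (.nd (nat_lit 8) (.nd (nat_lit 7) (.nd (nat_lit 6) tv285 tv286) 
(.nd (nat_lit 6) tv287 tv288)) (.nd (nat_lit 7) (.nd (nat_lit 6) tv289 tv290) 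
(.nd (nat_lit 6) tv291 tv292))) (.nd (nat_lit 8) (.nd (nat_lit 7) (.nd (nat_lit 6) 
(.nd (nat_lit 5) tv293 tv294) tv295) (.nd (nat_lit 6) tv296 tv297)) (.nd (nat_lit 7) 
(.nd (nat_lit 6) tv298 tv299) (.nd (nat_lit 6) tv300 tv301)))) (.nd (nat_lit 9) (.nd (nat_lit 8) 
(.nd (nat_lit 7) (.nd (nat_lit 6) tv302 (.nd (nat_lit 5) tv303 tv304)) 
(.nd (nat_lit 6) tv305 tv306)) (.nd (nat_lit 7) (.nd (nat_lit 6) tv307 tv308) 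
(.nd (nat_lit 6) tv309 tv310))) (.nd (nat_lit 8) (.nd (nat_lit 7) (.nd (nat_lit 6) tv311 tv312) 
(.nd (nat_lit 6) tv313 tv314)) (.nd (nat_lit 7) (.nd (nat_lit 6) tv315 tv316) 
(.nd (nat_lit 6) tv317 tv318))))) (.nd (nat_lit 10) (.nd (nat_lit 9) (.nd (nat_lit 8) 
(.nd (nat_lit 7) (.nd (nat_lit 6) tv319 tv320) (.nd (nat_lit 6) tv321 tv322)) (.nd (nat_lit 7) 
(.nd (nat_lit 6) tv323 tv324) (.nd (nat_lit 6) tv325 tv326))) (.nd (nat_lit 8) (.nd (nat_lit 7) 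
(.nd (nat_lit 6) tv327 tv328) (.nd (nat_lit 6) tv329 tv330)) (.nd (nat_lit 7) 
(.nd (nat_lit 6) tv331 tv332) tv333))) (.nd (nat_lit 9) (.nd (nat_lit 8) 
(.nd (nat_lit 7) tv334 tv335) (.nd (nat_lit 7) tv336 (.nd (nat_lit 6) tv337 tv338))) 
(.nd (nat_lit 8) (.nd (nat_lit 7) (.nd (nat_lit 6) tv339 tv340) (.nd (nat_lit 6) tv341 tv342)) 
(.nd (nat_lit 7) (.nd (nat_lit 6) tv343 tv344) (.nd (nat_lit 6) tv345 tv346))))))) 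
(.nd (nat_lit 12) (.nd (nat_lit 11) (.nd (nat_lit 10) (.nd (nat_lit 9) (.nd (nat_lit 8) 
(.nd (nat_lit 7) tv347 (.nd (nat_lit 6) tv348 tv349)) (.nd (nat_lit 7) 
(.nd (nat_lit 6) tv350 tv351) (.nd (nat_lit 6) tv352 tv353))) (.nd (nat_lit 8) (.nd (nat_lit 7) 
(.nd (nat_lit 6) tv354 tv355) (.nd (nat_lit 6) tv356 tv357)) (.nd (nat_lit 7) 
(.nd (nat_lit 6) tv358 tv359) (.nd (nat_lit 6) tv360 tv361)))) (.nd (nat_lit 9) (.nd (nat_lit 8) 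
(.nd (nat_lit 7) tv362 (.nd (nat_lit 6) tv363 tv364)) (.nd (nat_lit 7) tv365 tv366)) 
(.nd (nat_lit 8) (.nd (nat_lit 7) tv367 tv368) (.nd (nat_lit 7) tv369 tv370)))) (.nd (nat_lit 10) 
(.nd (nat_lit 9) (.nd (nat_lit 8) (.nd (nat_lit 7) tv371 (.nd (nat_lit 6) tv372 tv373)) 
(.nd (nat_lit 7) tv374 tv375)) (.nd (nat_lit 8) (.nd (nat_lit 7) tv376 tv377) 
(.nd (nat_lit 7) tv378 (.nd (nat_lit 6) tv379 tv380)))) (.nd (nat_lit 9) (.nd (nat_lit 8) 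
(.nd (nat_lit 7) (.nd (nat_lit 6) tv381 tv382) (.nd (nat_lit 6) tv383 tv384)) (.nd (nat_lit 7) 
(.nd (nat_lit 6) tv385 tv386) (.nd (nat_lit 6) tv387 tv388))) (.nd (nat_lit 8) (.nd (nat_lit 7) 
(.nd (nat_lit 6) tv389 tv390) (.nd (nat_lit 6) tv391 tv392)) (.nd (nat_lit 7) 
(.nd (nat_lit 6) tv393 tv394) tv395))))) (.nd (nat_lit 11) (.nd (nat_lit 10) (.nd (nat_lit 9) 
(.nd (nat_lit 8) (.nd (nat_lit 7) (.nd (nat_lit 6) tv396 tv397) (.nd (nat_lit 6) tv398 tv399)) 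
(.nd (nat_lit 7) (.nd (nat_lit 6) tv400 tv401) (.nd (nat_lit 6) tv402 tv403))) (.nd (nat_lit 8) 
(.nd (nat_lit 7) (.nd (nat_lit 6) tv404 tv405) (.nd (nat_lit 6) tv406 tv407)) (.nd (nat_lit 7) 
(.nd (nat_lit 6) tv408 tv409) (.nd (nat_lit 6) tv410 tv411)))) (.nd (nat_lit 9) (.nd (nat_lit 8) 
(.nd (nat_lit 7) (.nd (nat_lit 6) tv412 tv413) (.nd (nat_lit 6) tv414 tv415)) (.nd (nat_lit 7) 
(.nd (nat_lit 6) tv416 tv417) (.nd (nat_lit 6) tv418 tv419))) (.nd (nat_lit 8) (.nd (nat_lit 7) 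
(.nd (nat_lit 6) tv420 tv421) (.nd (nat_lit 6) tv422 tv423)) (.nd (nat_lit 7) 
(.nd (nat_lit 6) tv424 tv425) (.nd (nat_lit 6) tv426 tv427))))) (.nd (nat_lit 10) (.nd (nat_lit 9) 
(.nd (nat_lit 8) (.nd (nat_lit 7) (.nd (nat_lit 6) tv428 tv429) (.nd (nat_lit 6) tv430 tv431)) 
(.nd (nat_lit 7) (.nd (nat_lit 6) tv432 tv433) (.nd (nat_lit 6) tv434 tv435))) (.nd (nat_lit 8) 
(.nd (nat_lit 7) (.nd (nat_lit 6) tv436 tv437) (.nd (nat_lit 6) tv438 tv439)) (.nd (nat_lit 7) 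
(.nd (nat_lit 6) tv440 tv441) (.nd (nat_lit 6) tv442 tv443)))) (.nd (nat_lit 9) (.nd (nat_lit 8) 
(.nd (nat_lit 7) (.nd (nat_lit 6) tv444 tv445) (.nd (nat_lit 6) tv446 
(.nd (nat_lit 5) tv447 tv448))) (.nd (nat_lit 7) (.nd (nat_lit 6) 
(.nd (nat_lit 5) tv449 tv450) tv451) (.nd (nat_lit 6) tv452 tv453))) (.nd (nat_lit 8) 
(.nd (nat_lit 7) (.nd (nat_lit 6) tv454 tv455) (.nd (nat_lit 6) tv456 tv457)) (.nd (nat_lit 7) 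
(.nd (nat_lit 6) tv458 tv459) tv460)))))))) (.nd (nat_lit 14) (.nd (nat_lit 13) (.nd (nat_lit 12) 
(.nd (nat_lit 11) (.nd (nat_lit 10) (.nd (nat_lit 9) (.nd (nat_lit 8) (.nd (nat_lit 7) tv461 tv462) 
(.nd (nat_lit 7) (.nd (nat_lit 6) tv463 tv464) tv465)) (.nd (nat_lit 8) (.nd (nat_lit 7) 
(.nd (nat_lit 6) tv466 tv467) tv468) (.nd (nat_lit 7) tv469 tv470))) (.nd (nat_lit 9) 
(.nd (nat_lit 8) (.nd (nat_lit 7) (.nd (nat_lit 6) tv471 tv472) (.nd (nat_lit 6) tv473 tv474)) 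
(.nd (nat_lit 7) (.nd (nat_lit 6) tv475 tv476) tv477)) (.nd (nat_lit 8) (.nd (nat_lit 7) 
(.nd (nat_lit 6) tv478 tv479) (.nd (nat_lit 6) tv480 tv481)) (.nd (nat_lit 7) 
(.nd (nat_lit 6) tv482 tv483) (.nd (nat_lit 6) tv484 tv485))))) (.nd (nat_lit 10) (.nd (nat_lit 9) 
(.nd (nat_lit 8) (.nd (nat_lit 7) (.nd (nat_lit 6) tv486 tv487) (.nd (nat_lit 6) tv488 tv489)) 
(.nd (nat_lit 7) (.nd (nat_lit 6) tv490 tv491) (.nd (nat_lit 6) tv492 tv493))) (.nd (nat_lit 8) 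
(.nd (nat_lit 7) tv494 tv495) (.nd (nat_lit 7) (.nd (nat_lit 6) tv496 tv497) 
(.nd (nat_lit 6) tv498 tv499)))) (.nd (nat_lit 9) (.nd (nat_lit 8) (.nd (nat_lit 7) 
(.nd (nat_lit 6) tv500 tv501) (.nd (nat_lit 6) tv502 tv503)) (.nd (nat_lit 7) tv504 tv505)) 
(.nd (nat_lit 8) (.nd (nat_lit 7) (.nd (nat_lit 6) tv506 tv507) (.nd (nat_lit 6) tv508 tv509)) 
(.nd (nat_lit 7) (.nd (nat_lit 6) tv510 tv511) (.nd (nat_lit 6) tv512 tv513)))))) (.nd (nat_lit 11) 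
(.nd (nat_lit 10) (.nd (nat_lit 9) (.nd (nat_lit 8) (.nd (nat_lit 7) (.nd (nat_lit 6) tv514 tv515) 
(.nd (nat_lit 6) tv516 tv517)) (.nd (nat_lit 7) (.nd (nat_lit 6) tv518 tv519) tv520)) 
(.nd (nat_lit 8) (.nd (nat_lit 7) tv521 (.nd (nat_lit 6) tv522 tv523)) (.nd (nat_lit 7) 
(.nd (nat_lit 6) tv524 tv525) tv526))) (.nd (nat_lit 9) (.nd (nat_lit 8) 
(.nd (nat_lit 7) tv527 tv528) (.nd (nat_lit 7) (.nd (nat_lit 6) tv529 tv530) 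
(.nd (nat_lit 6) tv531 tv532))) (.nd (nat_lit 8) (.nd (nat_lit 7) (.nd (nat_lit 6) tv533 tv534) 
(.nd (nat_lit 6) tv535 tv536)) (.nd (nat_lit 7) (.nd (nat_lit 6) tv537 tv538) 
(.nd (nat_lit 6) tv539 tv540))))) (.nd (nat_lit 10) (.nd (nat_lit 9) (.nd (nat_lit 8) 
(.nd (nat_lit 7) (.nd (nat_lit 6) tv541 tv542) tv543) (.nd (nat_lit 7) 
(.nd (nat_lit 6) tv544 tv545) (.nd (nat_lit 6) tv546 tv547))) (.nd (nat_lit 8) 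
(.nd (nat_lit 7) tv548 tv549) (.nd (nat_lit 7) tv550 (.nd (nat_lit 6) tv551 tv552)))) 
(.nd (nat_lit 9) (.nd (nat_lit 8) (.nd (nat_lit 7) (.nd (nat_lit 6) tv553 tv554) 
(.nd (nat_lit 6) tv555 tv556)) (.nd (nat_lit 7) (.nd (nat_lit 6) tv557 tv558) 
(.nd (nat_lit 6) tv559 tv560))) (.nd (nat_lit 8) (.nd (nat_lit 7) (.nd (nat_lit 6) tv561 tv562) 
(.nd (nat_lit 6) tv563 tv564)) (.nd (nat_lit 7) (.nd (nat_lit 6) tv565 tv566) 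
(.nd (nat_lit 6) tv567 tv568))))))) (.nd (nat_lit 12) (.nd (nat_lit 11) (.nd (nat_lit 10) 
(.nd (nat_lit 9) (.nd (nat_lit 8) (.nd (nat_lit 7) (.nd (nat_lit 6) tv569 tv570) 
(.nd (nat_lit 6) tv571 tv572)) (.nd (nat_lit 7) (.nd (nat_lit 6) tv573 tv574) 
(.nd (nat_lit 6) tv575 tv576))) (.nd (nat_lit 8) (.nd (nat_lit 7) tv577 
(.nd (nat_lit 6) tv578 tv579)) (.nd (nat_lit 7) tv580 (.nd (nat_lit 6) tv581 tv582)))) 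
(.nd (nat_lit 9) (.nd (nat_lit 8) (.nd (nat_lit 7) (.nd (nat_lit 6) tv583 tv584) 
(.nd (nat_lit 6) tv585 tv586)) (.nd (nat_lit 7) (.nd (nat_lit 6) tv587 tv588) 
(.nd (nat_lit 6) tv589 tv590))) (.nd (nat_lit 8) (.nd (nat_lit 7) (.nd (nat_lit 6) tv591 tv592) 
(.nd (nat_lit 6) tv593 tv594)) (.nd (nat_lit 7) (.nd (nat_lit 6) tv595 tv596) 
(.nd (nat_lit 6) tv597 tv598))))) (.nd (nat_lit 10) (.nd (nat_lit 9) (.nd (nat_lit 8) 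
(.nd (nat_lit 7) (.nd (nat_lit 6) tv599 tv600) (.nd (nat_lit 6) tv601 tv602)) 
(.nd (nat_lit 7) tv603 tv604)) (.nd (nat_lit 8) (.nd (nat_lit 7) 
(.nd (nat_lit 6) tv605 tv606) tv607) (.nd (nat_lit 7) tv608 (.nd (nat_lit 6) tv609 tv610)))) 
(.nd (nat_lit 9) (.nd (nat_lit 8) (.nd (nat_lit 7) (.nd (nat_lit 6) tv611 tv612) 
(.nd (nat_lit 6) tv613 tv614)) (.nd (nat_lit 7) tv615 (.nd (nat_lit 6) tv616 tv617))) 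
(.nd (nat_lit 8) (.nd (nat_lit 7) (.nd (nat_lit 6) tv618 tv619) tv620) (.nd (nat_lit 7) tv621 
(.nd (nat_lit 6) tv622 tv623)))))) (.nd (nat_lit 11) (.nd (nat_lit 10) (.nd (nat_lit 9) 
(.nd (nat_lit 8) (.nd (nat_lit 7) (.nd (nat_lit 6) tv624 tv625) (.nd (nat_lit 6) tv626 tv627)) 
(.nd (nat_lit 7) (.nd (nat_lit 6) tv628 tv629) (.nd (nat_lit 6) tv630 tv631))) (.nd (nat_lit 8) 
(.nd (nat_lit 7) (.nd (nat_lit 6) tv632 tv633) (.nd (nat_lit 6) tv634 tv635)) (.nd (nat_lit 7) 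
(.nd (nat_lit 6) tv636 tv637) (.nd (nat_lit 6) tv638 tv639)))) (.nd (nat_lit 9) (.nd (nat_lit 8) 
(.nd (nat_lit 7) (.nd (nat_lit 6) tv640 tv641) (.nd (nat_lit 6) tv642 tv643)) (.nd (nat_lit 7) 
(.nd (nat_lit 6) tv644 tv645) tv646)) (.nd (nat_lit 8) (.nd (nat_lit 7) 
(.nd (nat_lit 6) tv647 tv648) (.nd (nat_lit 6) tv649 tv650)) (.nd (nat_lit 7) 
(.nd (nat_lit 6) tv651 tv652) (.nd (nat_lit 6) tv653 tv654))))) (.nd (nat_lit 10) (.nd (nat_lit 9) 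
(.nd (nat_lit 8) (.nd (nat_lit 7) tv655 (.nd (nat_lit 6) tv656 (.nd (nat_lit 5) tv657 tv658))) 
(.nd (nat_lit 7) tv659 (.nd (nat_lit 6) tv660 tv661))) (.nd (nat_lit 8) 
(.nd (nat_lit 7) tv662 tv663) (.nd (nat_lit 7) tv664 (.nd (nat_lit 6) tv665 tv666)))) 
(.nd (nat_lit 9) (.nd (nat_lit 8) (.nd (nat_lit 7) (.nd (nat_lit 6) tv667 tv668) 
(.nd (nat_lit 6) tv669 tv670)) (.nd (nat_lit 7) (.nd (nat_lit 6) tv671 tv672) 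
(.nd (nat_lit 6) tv673 tv674))) (.nd (nat_lit 8) (.nd (nat_lit 7) (.nd (nat_lit 6) tv675 tv676) 
(.nd (nat_lit 6) tv677 tv678)) (.nd (nat_lit 7) (.nd (nat_lit 6) tv679 tv680) 
(.nd (nat_lit 6) tv681 tv682)))))))) (.nd (nat_lit 13) (.nd (nat_lit 12) (.nd (nat_lit 11) 
(.nd (nat_lit 10) (.nd (nat_lit 9) (.nd (nat_lit 8) (.nd (nat_lit 7) 
(.nd (nat_lit 6) tv683 tv684) tv685) (.nd (nat_lit 7) (.nd (nat_lit 6) tv686 tv687) 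
(.nd (nat_lit 6) tv688 tv689))) (.nd (nat_lit 8) (.nd (nat_lit 7) (.nd (nat_lit 6) tv690 tv691) 
(.nd (nat_lit 6) tv692 tv693)) (.nd (nat_lit 7) (.nd (nat_lit 6) tv694 tv695) 
(.nd (nat_lit 6) tv696 tv697)))) (.nd (nat_lit 9) (.nd (nat_lit 8) (.nd (nat_lit 7) 
(.nd (nat_lit 6) tv698 tv699) (.nd (nat_lit 6) tv700 tv701)) (.nd (nat_lit 7) tv702 tv703)) 
(.nd (nat_lit 8) (.nd (nat_lit 7) (.nd (nat_lit 6) tv704 tv705) (.nd (nat_lit 6) tv706 tv707)) 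
(.nd (nat_lit 7) (.nd (nat_lit 6) tv708 tv709) (.nd (nat_lit 6) tv710 tv711))))) (.nd (nat_lit 10) 
(.nd (nat_lit 9) (.nd (nat_lit 8) (.nd (nat_lit 7) (.nd (nat_lit 6) tv712 tv713) 
(.nd (nat_lit 6) tv714 tv715)) (.nd (nat_lit 7) (.nd (nat_lit 6) tv716 tv717) 
(.nd (nat_lit 6) tv718 tv719))) (.nd (nat_lit 8) (.nd (nat_lit 7) tv720 tv721) 
(.nd (nat_lit 7) tv722 tv723))) (.nd (nat_lit 9) (.nd (nat_lit 8) (.nd (nat_lit 7) 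
(.nd (nat_lit 6) tv724 tv725) (.nd (nat_lit 6) tv726 tv727)) (.nd (nat_lit 7) tv728 
(.nd (nat_lit 6) tv729 tv730))) (.nd (nat_lit 8) (.nd (nat_lit 7) tv731 tv732) 
(.nd (nat_lit 7) tv733 tv734))))) (.nd (nat_lit 11) (.nd (nat_lit 10) (.nd (nat_lit 9) 
(.nd (nat_lit 8) (.nd (nat_lit 7) (.nd (nat_lit 6) tv735 tv736) (.nd (nat_lit 6) tv737 tv738)) 
(.nd (nat_lit 7) (.nd (nat_lit 6) tv739 tv740) (.nd (nat_lit 6) tv741 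
(.nd (nat_lit 5) tv742 tv743)))) (.nd (nat_lit 8) (.nd (nat_lit 7) (.nd (nat_lit 6) tv744 tv745) 
(.nd (nat_lit 6) (.nd (nat_lit 5) tv746 tv747) tv748)) (.nd (nat_lit 7) 
(.nd (nat_lit 6) tv749 tv750) (.nd (nat_lit 6) tv751 tv752)))) (.nd (nat_lit 9) (.nd (nat_lit 8) 
(.nd (nat_lit 7) tv753 tv754) (.nd (nat_lit 7) tv755 tv756)) (.nd (nat_lit 8) 
(.nd (nat_lit 7) tv757 tv758) (.nd (nat_lit 7) (.nd (nat_lit 6) tv759 tv760) 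
(.nd (nat_lit 6) tv761 tv762))))) (.nd (nat_lit 10) (.nd (nat_lit 9) (.nd (nat_lit 8) 
(.nd (nat_lit 7) (.nd (nat_lit 6) tv763 tv764) (.nd (nat_lit 6) tv765 tv766)) (.nd (nat_lit 7) 
(.nd (nat_lit 6) tv767 tv768) (.nd (nat_lit 6) tv769 tv770))) (.nd (nat_lit 8) (.nd (nat_lit 7) 
(.nd (nat_lit 6) tv771 tv772) tv773) (.nd (nat_lit 7) tv774 tv775))) (.nd (nat_lit 9) 
(.nd (nat_lit 8) (.nd (nat_lit 7) tv776 tv777) (.nd (nat_lit 7) (.nd (nat_lit 6) tv778 tv779) 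
(.nd (nat_lit 6) tv780 tv781))) (.nd (nat_lit 8) (.nd (nat_lit 7) 
(.nd (nat_lit 6) tv782 tv783) tv784) (.nd (nat_lit 7) tv785 (.nd (nat_lit 6) tv786 tv787))))))) 
(.nd (nat_lit 12) (.nd (nat_lit 11) (.nd (nat_lit 10) (.nd (nat_lit 9) (.nd (nat_lit 8) 
(.nd (nat_lit 7) (.nd (nat_lit 6) tv788 tv789) (.nd (nat_lit 6) tv790 tv791)) (.nd (nat_lit 7) 
(.nd (nat_lit 6) tv792 tv793) (.nd (nat_lit 6) tv794 tv795))) (.nd (nat_lit 8) (.nd (nat_lit 7) 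
(.nd (nat_lit 6) tv796 tv797) (.nd (nat_lit 6) tv798 tv799)) (.nd (nat_lit 7) 
(.nd (nat_lit 6) tv800 tv801) (.nd (nat_lit 6) tv802 tv803)))) (.nd (nat_lit 9) (.nd (nat_lit 8) 
(.nd (nat_lit 7) (.nd (nat_lit 6) tv804 tv805) (.nd (nat_lit 6) tv806 tv807)) (.nd (nat_lit 7) 
(.nd (nat_lit 6) tv808 (.nd (nat_lit 5) tv809 tv810)) tv811)) (.nd (nat_lit 8) 
(.nd (nat_lit 7) tv812 tv813) (.nd (nat_lit 7) (.nd (nat_lit 6) tv814 tv815) tv816)))) 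
(.nd (nat_lit 10) (.nd (nat_lit 9) (.nd (nat_lit 8) (.nd (nat_lit 7) tv817 tv818) (.nd (nat_lit 7) 
(.nd (nat_lit 6) tv819 tv820) (.nd (nat_lit 6) tv821 tv822))) (.nd (nat_lit 8) 
(.nd (nat_lit 7) tv823 (.nd (nat_lit 6) tv824 tv825)) (.nd (nat_lit 7) 
(.nd (nat_lit 6) tv826 tv827) tv828))) (.nd (nat_lit 9) (.nd (nat_lit 8) 
(.nd (nat_lit 7) tv829 tv830) (.nd (nat_lit 7) (.nd (nat_lit 6) tv831 tv832) 
(.nd (nat_lit 6) tv833 tv834))) (.nd (nat_lit 8) (.nd (nat_lit 7) tv835 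
(.nd (nat_lit 6) tv836 tv837)) (.nd (nat_lit 7) (.nd (nat_lit 6) tv838 tv839) 
(.nd (nat_lit 6) tv840 tv841)))))) (.nd (nat_lit 11) (.nd (nat_lit 10) (.nd (nat_lit 9) 
(.nd (nat_lit 8) (.nd (nat_lit 7) tv842 (.nd (nat_lit 6) tv843 (.nd (nat_lit 5) tv844 tv845))) 
(.nd (nat_lit 7) tv846 (.nd (nat_lit 6) tv847 tv848))) (.nd (nat_lit 8) (.nd (nat_lit 7) 
(.nd (nat_lit 6) tv849 tv850) (.nd (nat_lit 6) tv851 tv852)) (.nd (nat_lit 7) tv853 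
(.nd (nat_lit 6) tv854 tv855)))) (.nd (nat_lit 9) (.nd (nat_lit 8) (.nd (nat_lit 7) 
(.nd (nat_lit 6) tv856 tv857) tv858) (.nd (nat_lit 7) (.nd (nat_lit 6) tv859 tv860) 
(.nd (nat_lit 6) tv861 tv862))) (.nd (nat_lit 8) (.nd (nat_lit 7) (.nd (nat_lit 6) tv863 tv864) 
(.nd (nat_lit 6) tv865 tv866)) (.nd (nat_lit 7) (.nd (nat_lit 6) tv867 tv868) 
(.nd (nat_lit 6) tv869 tv870))))) (.nd (nat_lit 10) (.nd (nat_lit 9) (.nd (nat_lit 8) 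
(.nd (nat_lit 7) (.nd (nat_lit 6) tv871 tv872) (.nd (nat_lit 6) tv873 tv874)) (.nd (nat_lit 7) 
(.nd (nat_lit 6) tv875 tv876) tv877)) (.nd (nat_lit 8) (.nd (nat_lit 7) tv878 
(.nd (nat_lit 6) tv879 tv880)) (.nd (nat_lit 7) (.nd (nat_lit 6) tv881 tv882) 
(.nd (nat_lit 6) tv883 tv884)))) (.nd (nat_lit 9) (.nd (nat_lit 8) (.nd (nat_lit 7) 
(.nd (nat_lit 6) (.nd (nat_lit 5) tv885 tv886) tv887) (.nd (nat_lit 6) tv888 tv889)) 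
(.nd (nat_lit 7) (.nd (nat_lit 6) tv890 tv891) (.nd (nat_lit 6) tv892 tv893))) (.nd (nat_lit 8) 
(.nd (nat_lit 7) (.nd (nat_lit 6) tv894 tv895) (.nd (nat_lit 6) tv896 tv897)) (.nd (nat_lit 7) 
(.nd (nat_lit 6) tv898 tv899) (.nd (nat_lit 6) tv900 tv901)))))))))) (.nd (nat_lit 15) 
(.nd (nat_lit 14) (.nd (nat_lit 13) (.nd (nat_lit 12) (.nd (nat_lit 11) (.nd (nat_lit 10) 
(.nd (nat_lit 9) (.nd (nat_lit 8) (.nd (nat_lit 7) (.nd (nat_lit 6) tv902 tv903) 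
(.nd (nat_lit 6) tv904 tv905)) (.nd (nat_lit 7) (.nd (nat_lit 6) tv906 
(.nd (nat_lit 5) tv907 tv908)) (.nd (nat_lit 6) tv909 tv910))) (.nd (nat_lit 8) (.nd (nat_lit 7) 
(.nd (nat_lit 6) tv911 tv912) (.nd (nat_lit 6) tv913 tv914)) (.nd (nat_lit 7) (.nd (nat_lit 6) 
(.nd (nat_lit 5) tv915 tv916) (.nd (nat_lit 5) tv917 tv918)) tv919))) (.nd (nat_lit 9) 
(.nd (nat_lit 8) (.nd (nat_lit 7) (.nd (nat_lit 6) tv920 tv921) tv922) 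
(.nd (nat_lit 7) tv923 tv924)) (.nd (nat_lit 8) (.nd (nat_lit 7) tv925 
(.nd (nat_lit 6) tv926 tv927)) (.nd (nat_lit 7) (.nd (nat_lit 6) tv928 tv929) 
(.nd (nat_lit 6) tv930 tv931))))) (.nd (nat_lit 10) (.nd (nat_lit 9) (.nd (nat_lit 8) 
(.nd (nat_lit 7) (.nd (nat_lit 6) tv932 tv933) tv934) (.nd (nat_lit 7) 
(.nd (nat_lit 6) tv935 tv936) tv937)) (.nd (nat_lit 8) (.nd (nat_lit 7) 
(.nd (nat_lit 6) tv938 tv939) tv940) (.nd (nat_lit 7) (.nd (nat_lit 6) tv941 tv942) tv943))) 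
(.nd (nat_lit 9) (.nd (nat_lit 8) (.nd (nat_lit 7) tv944 tv945) (.nd (nat_lit 7) tv946 
(.nd (nat_lit 6) tv947 tv948))) (.nd (nat_lit 8) (.nd (nat_lit 7) tv949 tv950) (.nd (nat_lit 7) 
(.nd (nat_lit 6) tv951 tv952) tv953))))) (.nd (nat_lit 11) (.nd (nat_lit 10) (.nd (nat_lit 9) 
(.nd (nat_lit 8) (.nd (nat_lit 7) tv954 tv955) (.nd (nat_lit 7) tv956 tv957)) (.nd (nat_lit 8) 
(.nd (nat_lit 7) (.nd (nat_lit 6) tv958 tv959) (.nd (nat_lit 6) tv960 tv961)) (.nd (nat_lit 7) 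
(.nd (nat_lit 6) tv962 tv963) (.nd (nat_lit 6) tv964 tv965)))) (.nd (nat_lit 9) (.nd (nat_lit 8) 
(.nd (nat_lit 7) (.nd (nat_lit 6) tv966 tv967) tv968) (.nd (nat_lit 7) tv969 
(.nd (nat_lit 6) tv970 tv971))) (.nd (nat_lit 8) (.nd (nat_lit 7) (.nd (nat_lit 6) tv972 tv973) 
(.nd (nat_lit 6) tv974 tv975)) (.nd (nat_lit 7) (.nd (nat_lit 6) tv976 tv977) tv978)))) 
(.nd (nat_lit 10) (.nd (nat_lit 9) (.nd (nat_lit 8) (.nd (nat_lit 7) tv979 tv980) 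
(.nd (nat_lit 7) tv981 tv982)) (.nd (nat_lit 8) (.nd (nat_lit 7) tv983 tv984) 
(.nd (nat_lit 7) tv985 (.nd (nat_lit 6) tv986 tv987)))) (.nd (nat_lit 9) (.nd (nat_lit 8) 
(.nd (nat_lit 7) (.nd (nat_lit 6) tv988 tv989) (.nd (nat_lit 6) tv990 tv991)) (.nd (nat_lit 7) 
(.nd (nat_lit 6) tv992 tv993) tv994)) (.nd (nat_lit 8) (.nd (nat_lit 7) tv995 tv996) 
(.nd (nat_lit 7) tv997 (.nd (nat_lit 6) tv998 tv999))))))) (.nd (nat_lit 12) (.nd (nat_lit 11) 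
(.nd (nat_lit 10) (.nd (nat_lit 9) (.nd (nat_lit 8) (.nd (nat_lit 7) tv1000 tv1001) 
(.nd (nat_lit 7) tv1002 tv1003)) (.nd (nat_lit 8) (.nd (nat_lit 7) tv1004 
(.nd (nat_lit 6) tv1005 tv1006)) (.nd (nat_lit 7) (.nd (nat_lit 6) tv1007 tv1008) 
(.nd (nat_lit 6) tv1009 tv1010)))) (.nd (nat_lit 9) (.nd (nat_lit 8) (.nd (nat_lit 7) 
(.nd (nat_lit 6) tv1011 tv1012) (.nd (nat_lit 6) tv1013 tv1014)) (.nd (nat_lit 7) 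
(.nd (nat_lit 6) tv1015 tv1016) (.nd (nat_lit 6) tv1017 tv1018))) (.nd (nat_lit 8) (.nd (nat_lit 7) 
(.nd (nat_lit 6) tv1019 tv1020) tv1021) (.nd (nat_lit 7) tv1022 (.nd (nat_lit 6) tv1023 tv1024))))) 
(.nd (nat_lit 10) (.nd (nat_lit 9) (.nd (nat_lit 8) (.nd (nat_lit 7) 
(.nd (nat_lit 6) tv1025 tv1026) (.nd (nat_lit 6) tv1027 tv1028)) (.nd (nat_lit 7) 
(.nd (nat_lit 6) tv1029 tv1030) tv1031)) (.nd (nat_lit 8) (.nd (nat_lit 7) tv1032 tv1033) 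
(.nd (nat_lit 7) (.nd (nat_lit 6) tv1034 tv1035) (.nd (nat_lit 6) tv1036 tv1037)))) 
(.nd (nat_lit 9) (.nd (nat_lit 8) (.nd (nat_lit 7) (.nd (nat_lit 6) tv1038 tv1039) tv1040) 
(.nd (nat_lit 7) (.nd (nat_lit 6) tv1041 tv1042) (.nd (nat_lit 6) tv1043 tv1044))) (.nd (nat_lit 8) 
(.nd (nat_lit 7) (.nd (nat_lit 6) tv1045 tv1046) (.nd (nat_lit 6) tv1047 tv1048)) (.nd (nat_lit 7) 
(.nd (nat_lit 6) tv1049 tv1050) (.nd (nat_lit 6) tv1051 tv1052)))))) (.nd (nat_lit 11) 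
(.nd (nat_lit 10) (.nd (nat_lit 9) (.nd (nat_lit 8) (.nd (nat_lit 7) 
(.nd (nat_lit 6) tv1053 tv1054) (.nd (nat_lit 6) tv1055 tv1056)) (.nd (nat_lit 7) 
(.nd (nat_lit 6) tv1057 tv1058) (.nd (nat_lit 6) tv1059 tv1060))) (.nd (nat_lit 8) 
(.nd (nat_lit 7) tv1061 tv1062) (.nd (nat_lit 7) (.nd (nat_lit 6) tv1063 tv1064) tv1065))) 
(.nd (nat_lit 9) (.nd (nat_lit 8) (.nd (nat_lit 7) (.nd (nat_lit 6) tv1066 tv1067) 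
(.nd (nat_lit 6) tv1068 tv1069)) (.nd (nat_lit 7) tv1070 (.nd (nat_lit 6) tv1071 tv1072))) 
(.nd (nat_lit 8) (.nd (nat_lit 7) (.nd (nat_lit 6) tv1073 tv1074) (.nd (nat_lit 6) tv1075 tv1076)) 
(.nd (nat_lit 7) (.nd (nat_lit 6) tv1077 tv1078) (.nd (nat_lit 6) tv1079 tv1080))))) 
(.nd (nat_lit 10) (.nd (nat_lit 9) (.nd (nat_lit 8) (.nd (nat_lit 7) 
(.nd (nat_lit 6) tv1081 tv1082) (.nd (nat_lit 6) tv1083 tv1084)) (.nd (nat_lit 7) tv1085 tv1086)) 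
(.nd (nat_lit 8) (.nd (nat_lit 7) (.nd (nat_lit 6) tv1087 tv1088) (.nd (nat_lit 6) tv1089 tv1090)) 
(.nd (nat_lit 7) (.nd (nat_lit 6) tv1091 tv1092) (.nd (nat_lit 6) tv1093 tv1094)))) 
(.nd (nat_lit 9) (.nd (nat_lit 8) (.nd (nat_lit 7) (.nd (nat_lit 6) tv1095 tv1096) 
(.nd (nat_lit 6) tv1097 tv1098)) (.nd (nat_lit 7) (.nd (nat_lit 6) tv1099 tv1100) 
(.nd (nat_lit 6) tv1101 tv1102))) (.nd (nat_lit 8) (.nd (nat_lit 7) 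
(.nd (nat_lit 6) tv1103 tv1104) tv1105) (.nd (nat_lit 7) (.nd (nat_lit 6) tv1106 tv1107) 
(.nd (nat_lit 6) tv1108 tv1109)))))))) (.nd (nat_lit 13) (.nd (nat_lit 12) (.nd (nat_lit 11) 
(.nd (nat_lit 10) (.nd (nat_lit 9) (.nd (nat_lit 8) (.nd (nat_lit 7) tv1110 tv1111) 
(.nd (nat_lit 7) (.nd (nat_lit 6) tv1112 tv1113) (.nd (nat_lit 6) tv1114 tv1115))) (.nd (nat_lit 8) 
(.nd (nat_lit 7) (.nd (nat_lit 6) tv1116 tv1117) tv1118) (.nd (nat_lit 7) tv1119 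
(.nd (nat_lit 6) tv1120 tv1121)))) (.nd (nat_lit 9) (.nd (nat_lit 8) (.nd (nat_lit 7) 
(.nd (nat_lit 6) tv1122 tv1123) tv1124) (.nd (nat_lit 7) tv1125 (.nd (nat_lit 6) tv1126 tv1127))) 
(.nd (nat_lit 8) (.nd (nat_lit 7) (.nd (nat_lit 6) tv1128 tv1129) (.nd (nat_lit 6) tv1130 tv1131)) 
(.nd (nat_lit 7) (.nd (nat_lit 6) tv1132 tv1133) (.nd (nat_lit 6) tv1134 tv1135))))) 
(.nd (nat_lit 10) (.nd (nat_lit 9) (.nd (nat_lit 8) (.nd (nat_lit 7) 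
(.nd (nat_lit 6) tv1136 tv1137) (.nd (nat_lit 6) tv1138 tv1139)) (.nd (nat_lit 7) 
(.nd (nat_lit 6) tv1140 tv1141) (.nd (nat_lit 6) tv1142 tv1143))) (.nd (nat_lit 8) (.nd (nat_lit 7) 
(.nd (nat_lit 6) tv1144 tv1145) (.nd (nat_lit 6) tv1146 tv1147)) (.nd (nat_lit 7) 
(.nd (nat_lit 6) tv1148 tv1149) (.nd (nat_lit 6) tv1150 tv1151)))) (.nd (nat_lit 9) 
(.nd (nat_lit 8) (.nd (nat_lit 7) (.nd (nat_lit 6) tv1152 tv1153) (.nd (nat_lit 6) tv1154 tv1155)) 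
(.nd (nat_lit 7) (.nd (nat_lit 6) tv1156 tv1157) (.nd (nat_lit 6) tv1158 tv1159))) (.nd (nat_lit 8) 
(.nd (nat_lit 7) tv1160 tv1161) (.nd (nat_lit 7) tv1162 (.nd (nat_lit 6) tv1163 tv1164)))))) 
(.nd (nat_lit 11) (.nd (nat_lit 10) (.nd (nat_lit 9) (.nd (nat_lit 8) (.nd (nat_lit 7) 
(.nd (nat_lit 6) tv1165 tv1166) (.nd (nat_lit 6) tv1167 tv1168)) (.nd (nat_lit 7) 
(.nd (nat_lit 6) tv1169 (.nd (nat_lit 5) tv1170 tv1171)) (.nd (nat_lit 6) tv1172 tv1173))) 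
(.nd (nat_lit 8) (.nd (nat_lit 7) (.nd (nat_lit 6) tv1174 tv1175) (.nd (nat_lit 6) 
(.nd (nat_lit 5) tv1176 tv1177) tv1178)) (.nd (nat_lit 7) (.nd (nat_lit 6) tv1179 tv1180) 
(.nd (nat_lit 6) tv1181 tv1182)))) (.nd (nat_lit 9) (.nd (nat_lit 8) (.nd (nat_lit 7) 
(.nd (nat_lit 6) tv1183 tv1184) (.nd (nat_lit 6) tv1185 tv1186)) (.nd (nat_lit 7) 
(.nd (nat_lit 6) tv1187 tv1188) (.nd (nat_lit 6) tv1189 tv1190))) (.nd (nat_lit 8) (.nd (nat_lit 7) 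
(.nd (nat_lit 6) tv1191 tv1192) (.nd (nat_lit 6) tv1193 tv1194)) (.nd (nat_lit 7) 
(.nd (nat_lit 6) tv1195 tv1196) (.nd (nat_lit 6) (.nd (nat_lit 5) tv1197 tv1198) tv1199))))) 
(.nd (nat_lit 10) (.nd (nat_lit 9) (.nd (nat_lit 8) (.nd (nat_lit 7) 
(.nd (nat_lit 6) tv1200 tv1201) (.nd (nat_lit 6) tv1202 tv1203)) (.nd (nat_lit 7) 
(.nd (nat_lit 6) tv1204 tv1205) (.nd (nat_lit 6) tv1206 tv1207))) (.nd (nat_lit 8) (.nd (nat_lit 7) 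
(.nd (nat_lit 6) tv1208 tv1209) (.nd (nat_lit 6) tv1210 tv1211)) (.nd (nat_lit 7) 
(.nd (nat_lit 6) tv1212 tv1213) (.nd (nat_lit 6) tv1214 tv1215)))) (.nd (nat_lit 9) 
(.nd (nat_lit 8) (.nd (nat_lit 7) (.nd (nat_lit 6) tv1216 tv1217) (.nd (nat_lit 6) tv1218 tv1219)) 
(.nd (nat_lit 7) (.nd (nat_lit 6) tv1220 tv1221) (.nd (nat_lit 6) tv1222 tv1223))) (.nd (nat_lit 8) 
(.nd (nat_lit 7) (.nd (nat_lit 6) tv1224 tv1225) (.nd (nat_lit 6) tv1226 tv1227)) (.nd (nat_lit 7) 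
(.nd (nat_lit 6) tv1228 tv1229) (.nd (nat_lit 6) tv1230 tv1231))))))) (.nd (nat_lit 12) 
(.nd (nat_lit 11) (.nd (nat_lit 10) (.nd (nat_lit 9) (.nd (nat_lit 8) (.nd (nat_lit 7) 
(.nd (nat_lit 6) tv1232 tv1233) (.nd (nat_lit 6) tv1234 tv1235)) (.nd (nat_lit 7) 
(.nd (nat_lit 6) tv1236 tv1237) (.nd (nat_lit 6) tv1238 tv1239))) (.nd (nat_lit 8) (.nd (nat_lit 7) 
(.nd (nat_lit 6) tv1240 tv1241) tv1242) (.nd (nat_lit 7) tv1243 (.nd (nat_lit 6) tv1244 tv1245)))) 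
(.nd (nat_lit 9) (.nd (nat_lit 8) (.nd (nat_lit 7) (.nd (nat_lit 6) tv1246 tv1247) 
(.nd (nat_lit 6) tv1248 tv1249)) (.nd (nat_lit 7) (.nd (nat_lit 6) tv1250 tv1251) tv1252)) 
(.nd (nat_lit 8) (.nd (nat_lit 7) (.nd (nat_lit 6) tv1253 tv1254) (.nd (nat_lit 6) tv1255 tv1256)) 
(.nd (nat_lit 7) (.nd (nat_lit 6) (.nd (nat_lit 5) tv1257 tv1258) tv1259) 
(.nd (nat_lit 6) tv1260 tv1261))))) (.nd (nat_lit 10) (.nd (nat_lit 9) (.nd (nat_lit 8) 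
(.nd (nat_lit 7) (.nd (nat_lit 6) tv1262 tv1263) (.nd (nat_lit 6) 
(.nd (nat_lit 5) tv1264 tv1265) tv1266)) (.nd (nat_lit 7) (.nd (nat_lit 6) tv1267 tv1268) 
(.nd (nat_lit 6) tv1269 tv1270))) (.nd (nat_lit 8) (.nd (nat_lit 7) tv1271 
(.nd (nat_lit 6) tv1272 tv1273)) (.nd (nat_lit 7) (.nd (nat_lit 6) tv1274 tv1275) 
(.nd (nat_lit 6) tv1276 tv1277)))) (.nd (nat_lit 9) (.nd (nat_lit 8) (.nd (nat_lit 7) 
(.nd (nat_lit 6) tv1278 tv1279) (.nd (nat_lit 6) tv1280 tv1281)) (.nd (nat_lit 7) 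
(.nd (nat_lit 6) tv1282 tv1283) (.nd (nat_lit 6) tv1284 tv1285))) (.nd (nat_lit 8) (.nd (nat_lit 7) 
(.nd (nat_lit 6) tv1286 tv1287) (.nd (nat_lit 6) tv1288 tv1289)) (.nd (nat_lit 7) 
(.nd (nat_lit 6) tv1290 tv1291) (.nd (nat_lit 6) tv1292 tv1293)))))) (.nd (nat_lit 11) 
(.nd (nat_lit 10) (.nd (nat_lit 9) (.nd (nat_lit 8) (.nd (nat_lit 7) 
(.nd (nat_lit 6) tv1294 tv1295) (.nd (nat_lit 6) tv1296 tv1297)) (.nd (nat_lit 7) 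
(.nd (nat_lit 6) tv1298 tv1299) (.nd (nat_lit 6) tv1300 tv1301))) (.nd (nat_lit 8) 
(.nd (nat_lit 7) tv1302 (.nd (nat_lit 6) tv1303 tv1304)) (.nd (nat_lit 7) 
(.nd (nat_lit 6) tv1305 tv1306) tv1307))) (.nd (nat_lit 9) (.nd (nat_lit 8) (.nd (nat_lit 7) tv1308 
(.nd (nat_lit 6) tv1309 tv1310)) (.nd (nat_lit 7) (.nd (nat_lit 6) tv1311 tv1312) tv1313)) 
(.nd (nat_lit 8) (.nd (nat_lit 7) (.nd (nat_lit 6) tv1314 tv1315) (.nd (nat_lit 6) tv1316 tv1317)) 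
(.nd (nat_lit 7) tv1318 (.nd (nat_lit 6) tv1319 tv1320))))) (.nd (nat_lit 10) (.nd (nat_lit 9) 
(.nd (nat_lit 8) (.nd (nat_lit 7) tv1321 tv1322) (.nd (nat_lit 7) tv1323 tv1324)) (.nd (nat_lit 8) 
(.nd (nat_lit 7) (.nd (nat_lit 6) tv1325 tv1326) (.nd (nat_lit 6) tv1327 tv1328)) (.nd (nat_lit 7) 
(.nd (nat_lit 6) tv1329 tv1330) (.nd (nat_lit 6) tv1331 tv1332)))) (.nd (nat_lit 9) 
(.nd (nat_lit 8) (.nd (nat_lit 7) (.nd (nat_lit 6) tv1333 tv1334) (.nd (nat_lit 6) tv1335 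
(.nd (nat_lit 5) tv1336 tv1337))) (.nd (nat_lit 7) (.nd (nat_lit 6) tv1338 tv1339) 
(.nd (nat_lit 6) tv1340 tv1341))) (.nd (nat_lit 8) (.nd (nat_lit 7) (.nd (nat_lit 6) tv1342 tv1343) 
(.nd (nat_lit 6) tv1344 tv1345)) (.nd (nat_lit 7) (.nd (nat_lit 6) tv1346 tv1347) tv1348)))))))) 
(.nd (nat_lit 14) (.nd (nat_lit 13) (.nd (nat_lit 12) (.nd (nat_lit 11) (.nd (nat_lit 10) 
(.nd (nat_lit 9) (.nd (nat_lit 8) (.nd (nat_lit 7) (.nd (nat_lit 6) tv1349 tv1350) tv1351) 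
(.nd (nat_lit 7) (.nd (nat_lit 6) tv1352 tv1353) (.nd (nat_lit 6) tv1354 tv1355))) (.nd (nat_lit 8) 
(.nd (nat_lit 7) tv1356 tv1357) (.nd (nat_lit 7) tv1358 tv1359))) (.nd (nat_lit 9) (.nd (nat_lit 8) 
(.nd (nat_lit 7) tv1360 tv1361) (.nd (nat_lit 7) tv1362 (.nd (nat_lit 6) tv1363 tv1364))) 
(.nd (nat_lit 8) (.nd (nat_lit 7) (.nd (nat_lit 6) tv1365 tv1366) tv1367) 
(.nd (nat_lit 7) tv1368 tv1369)))) (.nd (nat_lit 10) (.nd (nat_lit 9) (.nd (nat_lit 8) 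
(.nd (nat_lit 7) tv1370 tv1371) (.nd (nat_lit 7) tv1372 (.nd (nat_lit 6) tv1373 tv1374))) 
(.nd (nat_lit 8) (.nd (nat_lit 7) tv1375 (.nd (nat_lit 6) tv1376 tv1377)) 
(.nd (nat_lit 7) tv1378 tv1379))) (.nd (nat_lit 9) (.nd (nat_lit 8) (.nd (nat_lit 7) tv1380 
(.nd (nat_lit 6) tv1381 tv1382)) (.nd (nat_lit 7) (.nd (nat_lit 6) tv1383 tv1384) 
(.nd (nat_lit 6) tv1385 tv1386))) (.nd (nat_lit 8) (.nd (nat_lit 7) (.nd (nat_lit 6) tv1387 tv1388) 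
(.nd (nat_lit 6) tv1389 tv1390)) (.nd (nat_lit 7) (.nd (nat_lit 6) tv1391 tv1392) (.nd (nat_lit 6) 
(.nd (nat_lit 5) tv1393 tv1394) tv1395)))))) (.nd (nat_lit 11) (.nd (nat_lit 10) (.nd (nat_lit 9) 
(.nd (nat_lit 8) (.nd (nat_lit 7) (.nd (nat_lit 6) tv1396 tv1397) (.nd (nat_lit 6) tv1398 tv1399)) 
(.nd (nat_lit 7) (.nd (nat_lit 6) tv1400 tv1401) (.nd (nat_lit 6) tv1402 tv1403))) (.nd (nat_lit 8) 
(.nd (nat_lit 7) (.nd (nat_lit 6) tv1404 tv1405) (.nd (nat_lit 6) tv1406 tv1407)) 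
(.nd (nat_lit 7) tv1408 (.nd (nat_lit 6) tv1409 tv1410)))) (.nd (nat_lit 9) (.nd (nat_lit 8) 
(.nd (nat_lit 7) tv1411 (.nd (nat_lit 6) tv1412 tv1413)) (.nd (nat_lit 7) 
(.nd (nat_lit 6) tv1414 tv1415) (.nd (nat_lit 6) tv1416 tv1417))) (.nd (nat_lit 8) (.nd (nat_lit 7) 
(.nd (nat_lit 6) tv1418 (.nd (nat_lit 5) tv1419 tv1420)) (.nd (nat_lit 6) tv1421 tv1422)) 
(.nd (nat_lit 7) (.nd (nat_lit 6) tv1423 tv1424) (.nd (nat_lit 6) tv1425 tv1426))))) 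
(.nd (nat_lit 10) (.nd (nat_lit 9) (.nd (nat_lit 8) (.nd (nat_lit 7) 
(.nd (nat_lit 6) tv1427 tv1428) (.nd (nat_lit 6) tv1429 tv1430)) (.nd (nat_lit 7) 
(.nd (nat_lit 6) tv1431 tv1432) (.nd (nat_lit 6) tv1433 tv1434))) (.nd (nat_lit 8) (.nd (nat_lit 7) 
(.nd (nat_lit 6) tv1435 tv1436) (.nd (nat_lit 6) tv1437 tv1438)) (.nd (nat_lit 7) tv1439 tv1440))) 
(.nd (nat_lit 9) (.nd (nat_lit 8) (.nd (nat_lit 7) tv1441 tv1442) (.nd (nat_lit 7) tv1443 tv1444)) 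
(.nd (nat_lit 8) (.nd (nat_lit 7) tv1445 tv1446) (.nd (nat_lit 7) tv1447 tv1448)))))) 
(.nd (nat_lit 12) (.nd (nat_lit 11) (.nd (nat_lit 10) (.nd (nat_lit 9) (.nd (nat_lit 8) 
(.nd (nat_lit 7) tv1449 tv1450) (.nd (nat_lit 7) tv1451 tv1452)) (.nd (nat_lit 8) 
(.nd (nat_lit 7) tv1453 (.nd (nat_lit 6) tv1454 tv1455)) (.nd (nat_lit 7) 
(.nd (nat_lit 6) tv1456 tv1457) tv1458))) (.nd (nat_lit 9) (.nd (nat_lit 8) 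
(.nd (nat_lit 7) tv1459 tv1460) (.nd (nat_lit 7) tv1461 tv1462)) (.nd (nat_lit 8) 
(.nd (nat_lit 7) tv1463 (.nd (nat_lit 6) tv1464 tv1465)) (.nd (nat_lit 7) tv1466 
(.nd (nat_lit 6) tv1467 tv1468))))) (.nd (nat_lit 10) (.nd (nat_lit 9) (.nd (nat_lit 8) 
(.nd (nat_lit 7) (.nd (nat_lit 6) tv1469 tv1470) tv1471) (.nd (nat_lit 7) tv1472 tv1473)) 
(.nd (nat_lit 8) (.nd (nat_lit 7) tv1474 tv1475) (.nd (nat_lit 7) 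
(.nd (nat_lit 6) tv1476 tv1477) tv1478))) (.nd (nat_lit 9) (.nd (nat_lit 8) 
(.nd (nat_lit 7) tv1479 tv1480) (.nd (nat_lit 7) tv1481 (.nd (nat_lit 6) tv1482 tv1483))) 
(.nd (nat_lit 8) (.nd (nat_lit 7) tv1484 (.nd (nat_lit 6) tv1485 (.nd (nat_lit 5) tv1486 tv1487))) 
(.nd (nat_lit 7) (.nd (nat_lit 6) tv1488 tv1489) (.nd (nat_lit 6) tv1490 tv1491)))))) 
(.nd (nat_lit 11) (.nd (nat_lit 10) (.nd (nat_lit 9) (.nd (nat_lit 8) (.nd (nat_lit 7) 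
(.nd (nat_lit 6) tv1492 tv1493) (.nd (nat_lit 6) tv1494 tv1495)) (.nd (nat_lit 7) 
(.nd (nat_lit 6) tv1496 tv1497) (.nd (nat_lit 6) tv1498 tv1499))) (.nd (nat_lit 8) 
(.nd (nat_lit 7) tv1500 tv1501) (.nd (nat_lit 7) tv1502 (.nd (nat_lit 6) tv1503 tv1504)))) 
(.nd (nat_lit 9) (.nd (nat_lit 8) (.nd (nat_lit 7) (.nd (nat_lit 6) tv1505 tv1506) 
(.nd (nat_lit 6) tv1507 tv1508)) (.nd (nat_lit 7) (.nd (nat_lit 6) tv1509 tv1510) 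
(.nd (nat_lit 6) tv1511 tv1512))) (.nd (nat_lit 8) (.nd (nat_lit 7) (.nd (nat_lit 6) tv1513 tv1514) 
(.nd (nat_lit 6) tv1515 tv1516)) (.nd (nat_lit 7) (.nd (nat_lit 6) tv1517 tv1518) 
(.nd (nat_lit 6) tv1519 tv1520))))) (.nd (nat_lit 10) (.nd (nat_lit 9) (.nd (nat_lit 8) 
(.nd (nat_lit 7) tv1521 tv1522) (.nd (nat_lit 7) (.nd (nat_lit 6) tv1523 tv1524) 
(.nd (nat_lit 6) tv1525 tv1526))) (.nd (nat_lit 8) (.nd (nat_lit 7) tv1527 tv1528) 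
(.nd (nat_lit 7) tv1529 (.nd (nat_lit 6) tv1530 tv1531)))) (.nd (nat_lit 9) (.nd (nat_lit 8) 
(.nd (nat_lit 7) (.nd (nat_lit 6) tv1532 tv1533) (.nd (nat_lit 6) tv1534 tv1535)) (.nd (nat_lit 7) 
(.nd (nat_lit 6) tv1536 tv1537) (.nd (nat_lit 6) tv1538 tv1539))) (.nd (nat_lit 8) (.nd (nat_lit 7) 
(.nd (nat_lit 6) tv1540 tv1541) (.nd (nat_lit 6) tv1542 tv1543)) (.nd (nat_lit 7) 
(.nd (nat_lit 6) tv1544 tv1545) (.nd (nat_lit 6) tv1546 tv1547)))))))) (.nd (nat_lit 13) 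
(.nd (nat_lit 12) (.nd (nat_lit 11) (.nd (nat_lit 10) (.nd (nat_lit 9) (.nd (nat_lit 8) 
(.nd (nat_lit 7) tv1548 tv1549) (.nd (nat_lit 7) tv1550 tv1551)) (.nd (nat_lit 8) 
(.nd (nat_lit 7) tv1552 (.nd (nat_lit 6) tv1553 tv1554)) (.nd (nat_lit 7) tv1555 tv1556))) 
(.nd (nat_lit 9) (.nd (nat_lit 8) (.nd (nat_lit 7) tv1557 tv1558) (.nd (nat_lit 7) tv1559 tv1560)) 
(.nd (nat_lit 8) (.nd (nat_lit 7) tv1561 (.nd (nat_lit 6) tv1562 tv1563)) (.nd (nat_lit 7) tv1564 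
(.nd (nat_lit 6) tv1565 tv1566))))) (.nd (nat_lit 10) (.nd (nat_lit 9) (.nd (nat_lit 8) 
(.nd (nat_lit 7) (.nd (nat_lit 6) tv1567 tv1568) (.nd (nat_lit 6) tv1569 tv1570)) (.nd (nat_lit 7) 
(.nd (nat_lit 6) tv1571 tv1572) tv1573)) (.nd (nat_lit 8) (.nd (nat_lit 7) tv1574 tv1575) 
(.nd (nat_lit 7) tv1576 tv1577))) (.nd (nat_lit 9) (.nd (nat_lit 8) (.nd (nat_lit 7) tv1578 tv1579) 
(.nd (nat_lit 7) tv1580 tv1581)) (.nd (nat_lit 8) (.nd (nat_lit 7) 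
(.nd (nat_lit 6) tv1582 tv1583) tv1584) (.nd (nat_lit 7) tv1585 tv1586))))) (.nd (nat_lit 11) 
(.nd (nat_lit 10) (.nd (nat_lit 9) (.nd (nat_lit 8) (.nd (nat_lit 7) 
(.nd (nat_lit 6) tv1587 tv1588) (.nd (nat_lit 6) tv1589 tv1590)) (.nd (nat_lit 7) tv1591 tv1592)) 
(.nd (nat_lit 8) (.nd (nat_lit 7) tv1593 tv1594) (.nd (nat_lit 7) tv1595 tv1596))) (.nd (nat_lit 9) 
(.nd (nat_lit 8) (.nd (nat_lit 7) tv1597 (.nd (nat_lit 6) tv1598 tv1599)) (.nd (nat_lit 7) tv1600 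
(.nd (nat_lit 6) tv1601 tv1602))) (.nd (nat_lit 8) (.nd (nat_lit 7) tv1603 tv1604) 
(.nd (nat_lit 7) tv1605 (.nd (nat_lit 6) tv1606 tv1607))))) (.nd (nat_lit 10) (.nd (nat_lit 9) 
(.nd (nat_lit 8) (.nd (nat_lit 7) tv1608 tv1609) (.nd (nat_lit 7) tv1610 tv1611)) (.nd (nat_lit 8) 
(.nd (nat_lit 7) tv1612 (.nd (nat_lit 6) tv1613 tv1614)) (.nd (nat_lit 7) (.nd (nat_lit 6) tv1615 
(.nd (nat_lit 5) tv1616 tv1617)) (.nd (nat_lit 6) tv1618 (.nd (nat_lit 5) tv1619 tv1620))))) 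
(.nd (nat_lit 9) (.nd (nat_lit 8) (.nd (nat_lit 7) (.nd (nat_lit 6) (.nd (nat_lit 5) tv1621 tv1622) 
(.nd (nat_lit 5) tv1623 tv1624)) (.nd (nat_lit 6) tv1625 tv1626)) (.nd (nat_lit 7) 
(.nd (nat_lit 6) tv1627 tv1628) (.nd (nat_lit 6) tv1629 tv1630))) (.nd (nat_lit 8) (.nd (nat_lit 7) 
(.nd (nat_lit 6) tv1631 tv1632) (.nd (nat_lit 6) tv1633 tv1634)) (.nd (nat_lit 7) 
(.nd (nat_lit 6) tv1635 tv1636) tv1637)))))) (.nd (nat_lit 12) (.nd (nat_lit 11) (.nd (nat_lit 10) 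
(.nd (nat_lit 9) (.nd (nat_lit 8) (.nd (nat_lit 7) (.nd (nat_lit 6) tv1638 tv1639) 
(.nd (nat_lit 6) tv1640 tv1641)) (.nd (nat_lit 7) (.nd (nat_lit 6) tv1642 tv1643) (.nd (nat_lit 6) 
(.nd (nat_lit 5) tv1644 tv1645) tv1646))) (.nd (nat_lit 8) (.nd (nat_lit 7) (.nd (nat_lit 6) 
(.nd (nat_lit 5) tv1647 tv1648) (.nd (nat_lit 5) tv1649 tv1650)) (.nd (nat_lit 6) tv1651 tv1652)) 
(.nd (nat_lit 7) (.nd (nat_lit 6) tv1653 tv1654) (.nd (nat_lit 6) tv1655 tv1656)))) 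
(.nd (nat_lit 9) (.nd (nat_lit 8) (.nd (nat_lit 7) (.nd (nat_lit 6) tv1657 tv1658) 
(.nd (nat_lit 6) tv1659 (.nd (nat_lit 5) tv1660 tv1661))) (.nd (nat_lit 7) 
(.nd (nat_lit 6) tv1662 tv1663) (.nd (nat_lit 6) tv1664 tv1665))) (.nd (nat_lit 8) (.nd (nat_lit 7) 
(.nd (nat_lit 6) tv1666 tv1667) (.nd (nat_lit 6) tv1668 (.nd (nat_lit 5) tv1669 tv1670))) 
(.nd (nat_lit 7) (.nd (nat_lit 6) tv1671 tv1672) (.nd (nat_lit 6) tv1673 tv1674))))) 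
(.nd (nat_lit 10) (.nd (nat_lit 9) (.nd (nat_lit 8) (.nd (nat_lit 7) 
(.nd (nat_lit 6) tv1675 tv1676) (.nd (nat_lit 6) tv1677 tv1678)) (.nd (nat_lit 7) 
(.nd (nat_lit 6) tv1679 tv1680) (.nd (nat_lit 6) tv1681 tv1682))) (.nd (nat_lit 8) (.nd (nat_lit 7) 
(.nd (nat_lit 6) tv1683 tv1684) (.nd (nat_lit 6) tv1685 tv1686)) (.nd (nat_lit 7) 
(.nd (nat_lit 6) tv1687 tv1688) (.nd (nat_lit 6) tv1689 tv1690)))) (.nd (nat_lit 9) 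
(.nd (nat_lit 8) (.nd (nat_lit 7) (.nd (nat_lit 6) tv1691 tv1692) (.nd (nat_lit 6) tv1693 tv1694)) 
(.nd (nat_lit 7) (.nd (nat_lit 6) tv1695 tv1696) (.nd (nat_lit 6) tv1697 tv1698))) (.nd (nat_lit 8) 
(.nd (nat_lit 7) tv1699 tv1700) (.nd (nat_lit 7) tv1701 tv1702))))) (.nd (nat_lit 11) 
(.nd (nat_lit 10) (.nd (nat_lit 9) (.nd (nat_lit 8) (.nd (nat_lit 7) tv1703 tv1704) 
(.nd (nat_lit 7) tv1705 tv1706)) (.nd (nat_lit 8) (.nd (nat_lit 7) 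
(.nd (nat_lit 6) tv1707 tv1708) tv1709) (.nd (nat_lit 7) (.nd (nat_lit 6) tv1710 tv1711) 
(.nd (nat_lit 6) tv1712 (.nd (nat_lit 5) tv1713 tv1714))))) (.nd (nat_lit 9) (.nd (nat_lit 8) 
(.nd (nat_lit 7) tv1715 tv1716) (.nd (nat_lit 7) tv1717 (.nd (nat_lit 6) tv1718 tv1719))) 
(.nd (nat_lit 8) (.nd (nat_lit 7) tv1720 tv1721) (.nd (nat_lit 7) tv1722 
(.nd (nat_lit 6) tv1723 tv1724))))) (.nd (nat_lit 10) (.nd (nat_lit 9) (.nd (nat_lit 8) 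
(.nd (nat_lit 7) tv1725 tv1726) (.nd (nat_lit 7) tv1727 tv1728)) (.nd (nat_lit 8) (.nd (nat_lit 7) 
(.nd (nat_lit 6) tv1729 tv1730) tv1731) (.nd (nat_lit 7) (.nd (nat_lit 6) tv1732 tv1733) tv1734))) 
(.nd (nat_lit 9) (.nd (nat_lit 8) (.nd (nat_lit 7) tv1735 tv1736) (.nd (nat_lit 7) 
(.nd (nat_lit 6) tv1737 tv1738) (.nd (nat_lit 6) tv1739 tv1740))) (.nd (nat_lit 8) (.nd (nat_lit 7) 
(.nd (nat_lit 6) tv1741 tv1742) (.nd (nat_lit 6) tv1743 tv1744)) (.nd (nat_lit 7) 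
(.nd (nat_lit 6) tv1745 tv1746) tv1747)))))))))) (.nd (nat_lit 16) (.nd (nat_lit 15) 
(.nd (nat_lit 14) (.nd (nat_lit 13) (.nd (nat_lit 12) (.nd (nat_lit 11) (.nd (nat_lit 10) 
(.nd (nat_lit 9) (.nd (nat_lit 8) (.nd (nat_lit 7) (.nd (nat_lit 6) tv1748 tv1749) tv1750) 
(.nd (nat_lit 7) tv1751 tv1752)) (.nd (nat_lit 8) (.nd (nat_lit 7) (.nd (nat_lit 6) tv1753 tv1754) 
(.nd (nat_lit 6) tv1755 tv1756)) (.nd (nat_lit 7) (.nd (nat_lit 6) tv1757 tv1758) 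
(.nd (nat_lit 6) tv1759 tv1760)))) (.nd (nat_lit 9) (.nd (nat_lit 8) (.nd (nat_lit 7) 
(.nd (nat_lit 6) tv1761 tv1762) (.nd (nat_lit 6) tv1763 tv1764)) (.nd (nat_lit 7) 
(.nd (nat_lit 6) tv1765 tv1766) (.nd (nat_lit 6) tv1767 tv1768))) (.nd (nat_lit 8) (.nd (nat_lit 7) 
(.nd (nat_lit 6) tv1769 tv1770) tv1771) (.nd (nat_lit 7) (.nd (nat_lit 6) tv1772 tv1773) tv1774)))) 
(.nd (nat_lit 10) (.nd (nat_lit 9) (.nd (nat_lit 8) (.nd (nat_lit 7) tv1775 tv1776) 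
(.nd (nat_lit 7) (.nd (nat_lit 6) tv1777 tv1778) (.nd (nat_lit 6) tv1779 tv1780))) (.nd (nat_lit 8) 
(.nd (nat_lit 7) (.nd (nat_lit 6) tv1781 tv1782) (.nd (nat_lit 6) tv1783 tv1784)) (.nd (nat_lit 7) 
(.nd (nat_lit 6) tv1785 tv1786) (.nd (nat_lit 6) tv1787 tv1788)))) (.nd (nat_lit 9) 
(.nd (nat_lit 8) (.nd (nat_lit 7) (.nd (nat_lit 6) tv1789 tv1790) (.nd (nat_lit 6) tv1791 tv1792)) 
(.nd (nat_lit 7) (.nd (nat_lit 6) tv1793 tv1794) (.nd (nat_lit 6) tv1795 tv1796))) (.nd (nat_lit 8) 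
(.nd (nat_lit 7) tv1797 tv1798) (.nd (nat_lit 7) tv1799 tv1800))))) (.nd (nat_lit 11) 
(.nd (nat_lit 10) (.nd (nat_lit 9) (.nd (nat_lit 8) (.nd (nat_lit 7) tv1801 tv1802) 
(.nd (nat_lit 7) tv1803 tv1804)) (.nd (nat_lit 8) (.nd (nat_lit 7) (.nd (nat_lit 6) tv1805 tv1806) 
(.nd (nat_lit 6) tv1807 tv1808)) (.nd (nat_lit 7) (.nd (nat_lit 6) tv1809 tv1810) tv1811))) 
(.nd (nat_lit 9) (.nd (nat_lit 8) (.nd (nat_lit 7) tv1812 tv1813) (.nd (nat_lit 7) tv1814 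
(.nd (nat_lit 6) tv1815 tv1816))) (.nd (nat_lit 8) (.nd (nat_lit 7) tv1817 
(.nd (nat_lit 6) tv1818 tv1819)) (.nd (nat_lit 7) tv1820 tv1821)))) (.nd (nat_lit 10) 
(.nd (nat_lit 9) (.nd (nat_lit 8) (.nd (nat_lit 7) (.nd (nat_lit 6) tv1822 tv1823) 
(.nd (nat_lit 6) tv1824 tv1825)) (.nd (nat_lit 7) tv1826 (.nd (nat_lit 6) tv1827 tv1828))) 
(.nd (nat_lit 8) (.nd (nat_lit 7) (.nd (nat_lit 6) tv1829 tv1830) tv1831) (.nd (nat_lit 7) 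
(.nd (nat_lit 6) tv1832 tv1833) (.nd (nat_lit 6) tv1834 tv1835)))) (.nd (nat_lit 9) 
(.nd (nat_lit 8) (.nd (nat_lit 7) (.nd (nat_lit 6) tv1836 tv1837) (.nd (nat_lit 6) tv1838 tv1839)) 
(.nd (nat_lit 7) (.nd (nat_lit 6) tv1840 tv1841) (.nd (nat_lit 6) tv1842 tv1843))) (.nd (nat_lit 8) 
(.nd (nat_lit 7) tv1844 (.nd (nat_lit 6) tv1845 tv1846)) (.nd (nat_lit 7) 
(.nd (nat_lit 6) tv1847 tv1848) tv1849)))))) (.nd (nat_lit 12) (.nd (nat_lit 11) (.nd (nat_lit 10) 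
(.nd (nat_lit 9) (.nd (nat_lit 8) (.nd (nat_lit 7) tv1850 (.nd (nat_lit 6) tv1851 tv1852)) 
(.nd (nat_lit 7) tv1853 (.nd (nat_lit 6) tv1854 tv1855))) (.nd (nat_lit 8) (.nd (nat_lit 7) 
(.nd (nat_lit 6) tv1856 tv1857) tv1858) (.nd (nat_lit 7) tv1859 (.nd (nat_lit 6) tv1860 tv1861)))) 
(.nd (nat_lit 9) (.nd (nat_lit 8) (.nd (nat_lit 7) (.nd (nat_lit 6) tv1862 tv1863) 
(.nd (nat_lit 6) tv1864 tv1865)) (.nd (nat_lit 7) (.nd (nat_lit 6) tv1866 tv1867) 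
(.nd (nat_lit 6) tv1868 tv1869))) (.nd (nat_lit 8) (.nd (nat_lit 7) 
(.nd (nat_lit 6) tv1870 tv1871) tv1872) (.nd (nat_lit 7) (.nd (nat_lit 6) tv1873 tv1874) tv1875)))) 
(.nd (nat_lit 10) (.nd (nat_lit 9) (.nd (nat_lit 8) (.nd (nat_lit 7) tv1876 
(.nd (nat_lit 6) tv1877 tv1878)) (.nd (nat_lit 7) (.nd (nat_lit 6) tv1879 tv1880) tv1881)) 
(.nd (nat_lit 8) (.nd (nat_lit 7) (.nd (nat_lit 6) tv1882 tv1883) (.nd (nat_lit 6) tv1884 tv1885)) 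
(.nd (nat_lit 7) tv1886 (.nd (nat_lit 6) (.nd (nat_lit 5) tv1887 tv1888) tv1889)))) 
(.nd (nat_lit 9) (.nd (nat_lit 8) (.nd (nat_lit 7) tv1890 tv1891) (.nd (nat_lit 7) tv1892 
(.nd (nat_lit 6) tv1893 tv1894))) (.nd (nat_lit 8) (.nd (nat_lit 7) tv1895 tv1896) (.nd (nat_lit 7) 
(.nd (nat_lit 6) tv1897 tv1898) (.nd (nat_lit 6) tv1899 tv1900)))))) (.nd (nat_lit 11) 
(.nd (nat_lit 10) (.nd (nat_lit 9) (.nd (nat_lit 8) (.nd (nat_lit 7) 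
(.nd (nat_lit 6) tv1901 tv1902) (.nd (nat_lit 6) tv1903 tv1904)) (.nd (nat_lit 7) tv1905 
(.nd (nat_lit 6) tv1906 tv1907))) (.nd (nat_lit 8) (.nd (nat_lit 7) (.nd (nat_lit 6) tv1908 tv1909) 
(.nd (nat_lit 6) tv1910 tv1911)) (.nd (nat_lit 7) (.nd (nat_lit 6) tv1912 tv1913) tv1914))) 
(.nd (nat_lit 9) (.nd (nat_lit 8) (.nd (nat_lit 7) (.nd (nat_lit 6) tv1915 tv1916) 
(.nd (nat_lit 6) tv1917 tv1918)) (.nd (nat_lit 7) (.nd (nat_lit 6) tv1919 tv1920) 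
(.nd (nat_lit 6) tv1921 tv1922))) (.nd (nat_lit 8) (.nd (nat_lit 7) (.nd (nat_lit 6) tv1923 tv1924) 
(.nd (nat_lit 6) tv1925 tv1926)) (.nd (nat_lit 7) (.nd (nat_lit 6) tv1927 tv1928) tv1929)))) 
(.nd (nat_lit 10) (.nd (nat_lit 9) (.nd (nat_lit 8) (.nd (nat_lit 7) 
(.nd (nat_lit 6) tv1930 tv1931) (.nd (nat_lit 6) tv1932 tv1933)) (.nd (nat_lit 7) 
(.nd (nat_lit 6) tv1934 tv1935) (.nd (nat_lit 6) tv1936 tv1937))) (.nd (nat_lit 8) (.nd (nat_lit 7) 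
(.nd (nat_lit 6) tv1938 tv1939) (.nd (nat_lit 6) tv1940 tv1941)) (.nd (nat_lit 7) 
(.nd (nat_lit 6) tv1942 tv1943) (.nd (nat_lit 6) tv1944 tv1945)))) (.nd (nat_lit 9) 
(.nd (nat_lit 8) (.nd (nat_lit 7) (.nd (nat_lit 6) tv1946 tv1947) (.nd (nat_lit 6) tv1948 tv1949)) 
(.nd (nat_lit 7) (.nd (nat_lit 6) tv1950 tv1951) (.nd (nat_lit 6) tv1952 tv1953))) (.nd (nat_lit 8) 
(.nd (nat_lit 7) (.nd (nat_lit 6) tv1954 tv1955) (.nd (nat_lit 6) tv1956 tv1957)) 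
(.nd (nat_lit 7) tv1958 tv1959))))))) (.nd (nat_lit 13) (.nd (nat_lit 12) (.nd (nat_lit 11) 
(.nd (nat_lit 10) (.nd (nat_lit 9) (.nd (nat_lit 8) (.nd (nat_lit 7) 
(.nd (nat_lit 6) tv1960 tv1961) (.nd (nat_lit 6) tv1962 tv1963)) (.nd (nat_lit 7) 
(.nd (nat_lit 6) tv1964 tv1965) (.nd (nat_lit 6) tv1966 tv1967))) (.nd (nat_lit 8) (.nd (nat_lit 7) 
(.nd (nat_lit 6) tv1968 tv1969) (.nd (nat_lit 6) tv1970 tv1971)) (.nd (nat_lit 7) 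
(.nd (nat_lit 6) tv1972 tv1973) (.nd (nat_lit 6) tv1974 tv1975)))) (.nd (nat_lit 9) 
(.nd (nat_lit 8) (.nd (nat_lit 7) (.nd (nat_lit 6) tv1976 tv1977) (.nd (nat_lit 6) tv1978 tv1979)) 
(.nd (nat_lit 7) (.nd (nat_lit 6) tv1980 tv1981) (.nd (nat_lit 6) tv1982 tv1983))) (.nd (nat_lit 8) 
(.nd (nat_lit 7) (.nd (nat_lit 6) tv1984 tv1985) (.nd (nat_lit 6) tv1986 tv1987)) (.nd (nat_lit 7) 
(.nd (nat_lit 6) tv1988 tv1989) (.nd (nat_lit 6) tv1990 tv1991))))) (.nd (nat_lit 10) 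
(.nd (nat_lit 9) (.nd (nat_lit 8) (.nd (nat_lit 7) (.nd (nat_lit 6) tv1992 tv1993) 
(.nd (nat_lit 6) tv1994 tv1995)) (.nd (nat_lit 7) (.nd (nat_lit 6) tv1996 tv1997) tv1998)) 
(.nd (nat_lit 8) (.nd (nat_lit 7) tv1999 (.nd (nat_lit 6) tv2000 tv2001)) (.nd (nat_lit 7) 
(.nd (nat_lit 6) tv2002 tv2003) (.nd (nat_lit 6) tv2004 tv2005)))) (.nd (nat_lit 9) 
(.nd (nat_lit 8) (.nd (nat_lit 7) (.nd (nat_lit 6) tv2006 tv2007) (.nd (nat_lit 6) tv2008 tv2009)) 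
(.nd (nat_lit 7) (.nd (nat_lit 6) tv2010 tv2011) (.nd (nat_lit 6) tv2012 tv2013))) (.nd (nat_lit 8) 
(.nd (nat_lit 7) (.nd (nat_lit 6) tv2014 tv2015) (.nd (nat_lit 6) tv2016 tv2017)) (.nd (nat_lit 7) 
(.nd (nat_lit 6) tv2018 tv2019) tv2020))))) (.nd (nat_lit 11) (.nd (nat_lit 10) (.nd (nat_lit 9) 
(.nd (nat_lit 8) (.nd (nat_lit 7) tv2021 (.nd (nat_lit 6) tv2022 tv2023)) (.nd (nat_lit 7) 
(.nd (nat_lit 6) tv2024 tv2025) (.nd (nat_lit 6) tv2026 tv2027))) (.nd (nat_lit 8) (.nd (nat_lit 7) 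
(.nd (nat_lit 6) tv2028 tv2029) tv2030) (.nd (nat_lit 7) tv2031 tv2032))) (.nd (nat_lit 9) 
(.nd (nat_lit 8) (.nd (nat_lit 7) tv2033 (.nd (nat_lit 6) tv2034 tv2035)) (.nd (nat_lit 7) 
(.nd (nat_lit 6) tv2036 tv2037) tv2038)) (.nd (nat_lit 8) (.nd (nat_lit 7) 
(.nd (nat_lit 6) tv2039 tv2040) (.nd (nat_lit 6) tv2041 tv2042)) (.nd (nat_lit 7) 
(.nd (nat_lit 6) tv2043 tv2044) (.nd (nat_lit 6) tv2045 tv2046))))) (.nd (nat_lit 10) 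
(.nd (nat_lit 9) (.nd (nat_lit 8) (.nd (nat_lit 7) (.nd (nat_lit 6) tv2047 tv2048) 
(.nd (nat_lit 6) tv2049 tv2050)) (.nd (nat_lit 7) (.nd (nat_lit 6) tv2051 tv2052) 
(.nd (nat_lit 6) tv2053 tv2054))) (.nd (nat_lit 8) (.nd (nat_lit 7) (.nd (nat_lit 6) tv2055 tv2056) 
(.nd (nat_lit 6) tv2057 tv2058)) (.nd (nat_lit 7) (.nd (nat_lit 6) tv2059 tv2060) 
(.nd (nat_lit 6) tv2061 tv2062)))) (.nd (nat_lit 9) (.nd (nat_lit 8) (.nd (nat_lit 7) 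
(.nd (nat_lit 6) tv2063 tv2064) (.nd (nat_lit 6) tv2065 tv2066)) (.nd (nat_lit 7) 
(.nd (nat_lit 6) tv2067 tv2068) (.nd (nat_lit 6) tv2069 tv2070))) (.nd (nat_lit 8) (.nd (nat_lit 7) 
(.nd (nat_lit 6) tv2071 tv2072) (.nd (nat_lit 6) tv2073 tv2074)) (.nd (nat_lit 7) 
(.nd (nat_lit 6) tv2075 tv2076) (.nd (nat_lit 6) tv2077 tv2078))))))) (.nd (nat_lit 12) 
(.nd (nat_lit 11) (.nd (nat_lit 10) (.nd (nat_lit 9) (.nd (nat_lit 8) (.nd (nat_lit 7) 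
(.nd (nat_lit 6) tv2079 tv2080) (.nd (nat_lit 6) tv2081 tv2082)) (.nd (nat_lit 7) 
(.nd (nat_lit 6) tv2083 tv2084) (.nd (nat_lit 6) tv2085 tv2086))) (.nd (nat_lit 8) (.nd (nat_lit 7) 
(.nd (nat_lit 6) tv2087 tv2088) (.nd (nat_lit 6) tv2089 (.nd (nat_lit 5) tv2090 tv2091))) 
(.nd (nat_lit 7) (.nd (nat_lit 6) tv2092 tv2093) (.nd (nat_lit 6) tv2094 tv2095)))) 
(.nd (nat_lit 9) (.nd (nat_lit 8) (.nd (nat_lit 7) (.nd (nat_lit 6) tv2096 tv2097) 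
(.nd (nat_lit 6) tv2098 tv2099)) (.nd (nat_lit 7) (.nd (nat_lit 6) tv2100 tv2101) tv2102)) 
(.nd (nat_lit 8) (.nd (nat_lit 7) (.nd (nat_lit 6) tv2103 tv2104) tv2105) (.nd (nat_lit 7) 
(.nd (nat_lit 6) tv2106 tv2107) (.nd (nat_lit 6) tv2108 tv2109))))) (.nd (nat_lit 10) 
(.nd (nat_lit 9) (.nd (nat_lit 8) (.nd (nat_lit 7) (.nd (nat_lit 6) tv2110 tv2111) (.nd (nat_lit 6) 
(.nd (nat_lit 5) tv2112 tv2113) tv2114)) (.nd (nat_lit 7) (.nd (nat_lit 6) tv2115 tv2116) tv2117)) 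
(.nd (nat_lit 8) (.nd (nat_lit 7) (.nd (nat_lit 6) tv2118 tv2119) (.nd (nat_lit 6) tv2120 tv2121)) 
(.nd (nat_lit 7) (.nd (nat_lit 6) tv2122 tv2123) (.nd (nat_lit 6) tv2124 tv2125)))) 
(.nd (nat_lit 9) (.nd (nat_lit 8) (.nd (nat_lit 7) tv2126 tv2127) (.nd (nat_lit 7) tv2128 tv2129)) 
(.nd (nat_lit 8) (.nd (nat_lit 7) (.nd (nat_lit 6) tv2130 tv2131) (.nd (nat_lit 6) tv2132 tv2133)) 
(.nd (nat_lit 7) (.nd (nat_lit 6) tv2134 tv2135) (.nd (nat_lit 6) tv2136 tv2137)))))) 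
(.nd (nat_lit 11) (.nd (nat_lit 10) (.nd (nat_lit 9) (.nd (nat_lit 8) (.nd (nat_lit 7) 
(.nd (nat_lit 6) tv2138 tv2139) (.nd (nat_lit 6) tv2140 tv2141)) (.nd (nat_lit 7) 
(.nd (nat_lit 6) tv2142 tv2143) (.nd (nat_lit 6) tv2144 tv2145))) (.nd (nat_lit 8) 
(.nd (nat_lit 7) tv2146 (.nd (nat_lit 6) tv2147 tv2148)) (.nd (nat_lit 7) 
(.nd (nat_lit 6) tv2149 tv2150) tv2151))) (.nd (nat_lit 9) (.nd (nat_lit 8) (.nd (nat_lit 7) 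
(.nd (nat_lit 6) tv2152 tv2153) (.nd (nat_lit 6) tv2154 tv2155)) (.nd (nat_lit 7) 
(.nd (nat_lit 6) tv2156 tv2157) (.nd (nat_lit 6) tv2158 tv2159))) (.nd (nat_lit 8) (.nd (nat_lit 7) 
(.nd (nat_lit 6) tv2160 tv2161) (.nd (nat_lit 6) tv2162 tv2163)) (.nd (nat_lit 7) 
(.nd (nat_lit 6) tv2164 tv2165) (.nd (nat_lit 6) tv2166 tv2167))))) (.nd (nat_lit 10) 
(.nd (nat_lit 9) (.nd (nat_lit 8) (.nd (nat_lit 7) (.nd (nat_lit 6) tv2168 tv2169) 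
(.nd (nat_lit 6) tv2170 tv2171)) (.nd (nat_lit 7) (.nd (nat_lit 6) tv2172 tv2173) 
(.nd (nat_lit 6) tv2174 tv2175))) (.nd (nat_lit 8) (.nd (nat_lit 7) (.nd (nat_lit 6) tv2176 tv2177) 
(.nd (nat_lit 6) tv2178 tv2179)) (.nd (nat_lit 7) (.nd (nat_lit 6) tv2180 tv2181) 
(.nd (nat_lit 6) tv2182 tv2183)))) (.nd (nat_lit 9) (.nd (nat_lit 8) (.nd (nat_lit 7) 
(.nd (nat_lit 6) tv2184 tv2185) (.nd (nat_lit 6) tv2186 tv2187)) (.nd (nat_lit 7) 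
(.nd (nat_lit 6) tv2188 tv2189) tv2190)) (.nd (nat_lit 8) (.nd (nat_lit 7) tv2191 tv2192) 
(.nd (nat_lit 7) (.nd (nat_lit 6) tv2193 tv2194) (.nd (nat_lit 6) tv2195 tv2196))))))))) 
(.nd (nat_lit 14) (.nd (nat_lit 13) (.nd (nat_lit 12) (.nd (nat_lit 11) (.nd (nat_lit 10) 
(.nd (nat_lit 9) (.nd (nat_lit 8) (.nd (nat_lit 7) (.nd (nat_lit 6) tv2197 tv2198) 
(.nd (nat_lit 6) tv2199 tv2200)) (.nd (nat_lit 7) (.nd (nat_lit 6) tv2201 tv2202) 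
(.nd (nat_lit 6) tv2203 tv2204))) (.nd (nat_lit 8) (.nd (nat_lit 7) (.nd (nat_lit 6) tv2205 tv2206) 
(.nd (nat_lit 6) tv2207 tv2208)) (.nd (nat_lit 7) tv2209 (.nd (nat_lit 6) tv2210 tv2211)))) 
(.nd (nat_lit 9) (.nd (nat_lit 8) (.nd (nat_lit 7) (.nd (nat_lit 6) tv2212 tv2213) 
(.nd (nat_lit 6) tv2214 tv2215)) (.nd (nat_lit 7) (.nd (nat_lit 6) tv2216 tv2217) tv2218)) 
(.nd (nat_lit 8) (.nd (nat_lit 7) (.nd (nat_lit 6) tv2219 tv2220) tv2221) 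
(.nd (nat_lit 7) tv2222 tv2223)))) (.nd (nat_lit 10) (.nd (nat_lit 9) (.nd (nat_lit 8) 
(.nd (nat_lit 7) (.nd (nat_lit 6) tv2224 tv2225) (.nd (nat_lit 6) tv2226 tv2227)) (.nd (nat_lit 7) 
(.nd (nat_lit 6) tv2228 tv2229) tv2230)) (.nd (nat_lit 8) (.nd (nat_lit 7) tv2231 tv2232) 
(.nd (nat_lit 7) tv2233 tv2234))) (.nd (nat_lit 9) (.nd (nat_lit 8) (.nd (nat_lit 7) 
(.nd (nat_lit 6) tv2235 tv2236) (.nd (nat_lit 6) tv2237 tv2238)) (.nd (nat_lit 7) tv2239 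
(.nd (nat_lit 6) tv2240 tv2241))) (.nd (nat_lit 8) (.nd (nat_lit 7) (.nd (nat_lit 6) tv2242 tv2243) 
(.nd (nat_lit 6) tv2244 tv2245)) (.nd (nat_lit 7) (.nd (nat_lit 6) tv2246 tv2247) 
(.nd (nat_lit 6) tv2248 tv2249)))))) (.nd (nat_lit 11) (.nd (nat_lit 10) (.nd (nat_lit 9) 
(.nd (nat_lit 8) (.nd (nat_lit 7) tv2250 (.nd (nat_lit 6) tv2251 tv2252)) (.nd (nat_lit 7) 
(.nd (nat_lit 6) tv2253 tv2254) (.nd (nat_lit 6) tv2255 tv2256))) (.nd (nat_lit 8) (.nd (nat_lit 7) 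
(.nd (nat_lit 6) tv2257 tv2258) (.nd (nat_lit 6) tv2259 tv2260)) (.nd (nat_lit 7) 
(.nd (nat_lit 6) tv2261 tv2262) (.nd (nat_lit 6) tv2263 tv2264)))) (.nd (nat_lit 9) 
(.nd (nat_lit 8) (.nd (nat_lit 7) (.nd (nat_lit 6) tv2265 tv2266) (.nd (nat_lit 6) tv2267 tv2268)) 
(.nd (nat_lit 7) (.nd (nat_lit 6) tv2269 tv2270) (.nd (nat_lit 6) tv2271 tv2272))) (.nd (nat_lit 8) 
(.nd (nat_lit 7) tv2273 tv2274) (.nd (nat_lit 7) (.nd (nat_lit 6) tv2275 tv2276) 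
(.nd (nat_lit 6) tv2277 tv2278))))) (.nd (nat_lit 10) (.nd (nat_lit 9) (.nd (nat_lit 8) 
(.nd (nat_lit 7) (.nd (nat_lit 6) tv2279 tv2280) (.nd (nat_lit 6) tv2281 tv2282)) (.nd (nat_lit 7) 
(.nd (nat_lit 6) tv2283 tv2284) (.nd (nat_lit 6) tv2285 tv2286))) (.nd (nat_lit 8) (.nd (nat_lit 7) 
(.nd (nat_lit 6) tv2287 tv2288) (.nd (nat_lit 6) tv2289 tv2290)) (.nd (nat_lit 7) 
(.nd (nat_lit 6) tv2291 tv2292) (.nd (nat_lit 6) tv2293 tv2294)))) (.nd (nat_lit 9) 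
(.nd (nat_lit 8) (.nd (nat_lit 7) (.nd (nat_lit 6) tv2295 tv2296) (.nd (nat_lit 6) tv2297 tv2298)) 
(.nd (nat_lit 7) (.nd (nat_lit 6) tv2299 tv2300) (.nd (nat_lit 6) tv2301 tv2302))) (.nd (nat_lit 8) 
(.nd (nat_lit 7) (.nd (nat_lit 6) tv2303 tv2304) (.nd (nat_lit 6) tv2305 tv2306)) (.nd (nat_lit 7) 
(.nd (nat_lit 6) tv2307 tv2308) (.nd (nat_lit 6) tv2309 tv2310))))))) (.nd (nat_lit 12) 
(.nd (nat_lit 11) (.nd (nat_lit 10) (.nd (nat_lit 9) (.nd (nat_lit 8) (.nd (nat_lit 7) 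
(.nd (nat_lit 6) tv2311 tv2312) (.nd (nat_lit 6) tv2313 tv2314)) (.nd (nat_lit 7) 
(.nd (nat_lit 6) tv2315 tv2316) (.nd (nat_lit 6) tv2317 tv2318))) (.nd (nat_lit 8) (.nd (nat_lit 7) 
(.nd (nat_lit 6) tv2319 tv2320) (.nd (nat_lit 6) tv2321 tv2322)) (.nd (nat_lit 7) tv2323 
(.nd (nat_lit 6) tv2324 tv2325)))) (.nd (nat_lit 9) (.nd (nat_lit 8) (.nd (nat_lit 7) 
(.nd (nat_lit 6) tv2326 tv2327) (.nd (nat_lit 6) tv2328 tv2329)) (.nd (nat_lit 7) 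
(.nd (nat_lit 6) tv2330 tv2331) (.nd (nat_lit 6) tv2332 tv2333))) (.nd (nat_lit 8) (.nd (nat_lit 7) 
(.nd (nat_lit 6) tv2334 tv2335) (.nd (nat_lit 6) tv2336 tv2337)) (.nd (nat_lit 7) 
(.nd (nat_lit 6) tv2338 tv2339) (.nd (nat_lit 6) tv2340 tv2341))))) (.nd (nat_lit 10) 
(.nd (nat_lit 9) (.nd (nat_lit 8) (.nd (nat_lit 7) (.nd (nat_lit 6) tv2342 tv2343) 
(.nd (nat_lit 6) tv2344 tv2345)) (.nd (nat_lit 7) (.nd (nat_lit 6) tv2346 tv2347) 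
(.nd (nat_lit 6) tv2348 tv2349))) (.nd (nat_lit 8) (.nd (nat_lit 7) (.nd (nat_lit 6) tv2350 tv2351) 
(.nd (nat_lit 6) tv2352 tv2353)) (.nd (nat_lit 7) (.nd (nat_lit 6) tv2354 tv2355) tv2356))) 
(.nd (nat_lit 9) (.nd (nat_lit 8) (.nd (nat_lit 7) (.nd (nat_lit 6) tv2357 tv2358) 
(.nd (nat_lit 6) tv2359 tv2360)) (.nd (nat_lit 7) tv2361 tv2362)) (.nd (nat_lit 8) (.nd (nat_lit 7) 
(.nd (nat_lit 6) tv2363 tv2364) tv2365) (.nd (nat_lit 7) tv2366 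
(.nd (nat_lit 6) tv2367 tv2368)))))) (.nd (nat_lit 11) (.nd (nat_lit 10) (.nd (nat_lit 9) 
(.nd (nat_lit 8) (.nd (nat_lit 7) (.nd (nat_lit 6) tv2369 tv2370) (.nd (nat_lit 6) tv2371 tv2372)) 
(.nd (nat_lit 7) (.nd (nat_lit 6) tv2373 tv2374) (.nd (nat_lit 6) tv2375 tv2376))) (.nd (nat_lit 8) 
(.nd (nat_lit 7) (.nd (nat_lit 6) tv2377 tv2378) (.nd (nat_lit 6) tv2379 tv2380)) 
(.nd (nat_lit 7) tv2381 (.nd (nat_lit 6) tv2382 (.nd (nat_lit 5) tv2383 tv2384))))) 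
(.nd (nat_lit 9) (.nd (nat_lit 8) (.nd (nat_lit 7) (.nd (nat_lit 6) 
(.nd (nat_lit 5) tv2385 tv2386) tv2387) (.nd (nat_lit 6) tv2388 tv2389)) (.nd (nat_lit 7) tv2390 
(.nd (nat_lit 6) tv2391 tv2392))) (.nd (nat_lit 8) (.nd (nat_lit 7) 
(.nd (nat_lit 6) tv2393 tv2394) tv2395) (.nd (nat_lit 7) tv2396 tv2397)))) (.nd (nat_lit 10) 
(.nd (nat_lit 9) (.nd (nat_lit 8) (.nd (nat_lit 7) tv2398 tv2399) (.nd (nat_lit 7) tv2400 tv2401)) 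
(.nd (nat_lit 8) (.nd (nat_lit 7) tv2402 tv2403) (.nd (nat_lit 7) tv2404 tv2405))) (.nd (nat_lit 9) 
(.nd (nat_lit 8) (.nd (nat_lit 7) tv2406 tv2407) (.nd (nat_lit 7) tv2408 tv2409)) (.nd (nat_lit 8) 
(.nd (nat_lit 7) tv2410 tv2411) (.nd (nat_lit 7) tv2412 (.nd (nat_lit 6) tv2413 tv2414)))))))) 
(.nd (nat_lit 13) (.nd (nat_lit 12) (.nd (nat_lit 11) (.nd (nat_lit 10) (.nd (nat_lit 9) 
(.nd (nat_lit 8) (.nd (nat_lit 7) (.nd (nat_lit 6) tv2415 tv2416) (.nd (nat_lit 6) tv2417 tv2418)) 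
(.nd (nat_lit 7) (.nd (nat_lit 6) tv2419 tv2420) tv2421)) (.nd (nat_lit 8) 
(.nd (nat_lit 7) tv2422 tv2423) (.nd (nat_lit 7) tv2424 (.nd (nat_lit 6) tv2425 tv2426)))) 
(.nd (nat_lit 9) (.nd (nat_lit 8) (.nd (nat_lit 7) tv2427 tv2428) (.nd (nat_lit 7) tv2429 tv2430)) 
(.nd (nat_lit 8) (.nd (nat_lit 7) tv2431 tv2432) (.nd (nat_lit 7) tv2433 tv2434)))) 
(.nd (nat_lit 10) (.nd (nat_lit 9) (.nd (nat_lit 8) (.nd (nat_lit 7) tv2435 tv2436) 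
(.nd (nat_lit 7) tv2437 tv2438)) (.nd (nat_lit 8) (.nd (nat_lit 7) (.nd (nat_lit 6) tv2439 tv2440) 
(.nd (nat_lit 6) tv2441 tv2442)) (.nd (nat_lit 7) (.nd (nat_lit 6) tv2443 tv2444) tv2445))) 
(.nd (nat_lit 9) (.nd (nat_lit 8) (.nd (nat_lit 7) tv2446 (.nd (nat_lit 6) tv2447 tv2448)) 
(.nd (nat_lit 7) tv2449 tv2450)) (.nd (nat_lit 8) (.nd (nat_lit 7) tv2451 tv2452) 
(.nd (nat_lit 7) tv2453 tv2454))))) (.nd (nat_lit 11) (.nd (nat_lit 10) (.nd (nat_lit 9) 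
(.nd (nat_lit 8) (.nd (nat_lit 7) tv2455 tv2456) (.nd (nat_lit 7) tv2457 
(.nd (nat_lit 6) tv2458 tv2459))) (.nd (nat_lit 8) (.nd (nat_lit 7) 
(.nd (nat_lit 6) tv2460 tv2461) tv2462) (.nd (nat_lit 7) tv2463 tv2464))) (.nd (nat_lit 9) 
(.nd (nat_lit 8) (.nd (nat_lit 7) (.nd (nat_lit 6) tv2465 tv2466) (.nd (nat_lit 6) tv2467 tv2468)) 
(.nd (nat_lit 7) tv2469 tv2470)) (.nd (nat_lit 8) (.nd (nat_lit 7) 
(.nd (nat_lit 6) tv2471 tv2472) tv2473) (.nd (nat_lit 7) (.nd (nat_lit 6) tv2474 tv2475) tv2476)))) 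
(.nd (nat_lit 10) (.nd (nat_lit 9) (.nd (nat_lit 8) (.nd (nat_lit 7) 
(.nd (nat_lit 6) tv2477 tv2478) tv2479) (.nd (nat_lit 7) tv2480 tv2481)) (.nd (nat_lit 8) 
(.nd (nat_lit 7) tv2482 (.nd (nat_lit 6) tv2483 tv2484)) (.nd (nat_lit 7) 
(.nd (nat_lit 6) tv2485 tv2486) (.nd (nat_lit 6) tv2487 tv2488)))) (.nd (nat_lit 9) 
(.nd (nat_lit 8) (.nd (nat_lit 7) tv2489 tv2490) (.nd (nat_lit 7) tv2491 tv2492)) (.nd (nat_lit 8) 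
(.nd (nat_lit 7) tv2493 tv2494) (.nd (nat_lit 7) tv2495 tv2496)))))) (.nd (nat_lit 12) 
(.nd (nat_lit 11) (.nd (nat_lit 10) (.nd (nat_lit 9) (.nd (nat_lit 8) (.nd (nat_lit 7) tv2497 
(.nd (nat_lit 6) tv2498 tv2499)) (.nd (nat_lit 7) (.nd (nat_lit 6) tv2500 tv2501) 
(.nd (nat_lit 6) tv2502 tv2503))) (.nd (nat_lit 8) (.nd (nat_lit 7) 
(.nd (nat_lit 6) tv2504 tv2505) tv2506) (.nd (nat_lit 7) tv2507 tv2508))) (.nd (nat_lit 9) 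
(.nd (nat_lit 8) (.nd (nat_lit 7) (.nd (nat_lit 6) tv2509 tv2510) tv2511) (.nd (nat_lit 7) tv2512 
(.nd (nat_lit 6) tv2513 tv2514))) (.nd (nat_lit 8) (.nd (nat_lit 7) tv2515 tv2516) (.nd (nat_lit 7) 
(.nd (nat_lit 6) tv2517 tv2518) (.nd (nat_lit 6) tv2519 tv2520))))) (.nd (nat_lit 10) 
(.nd (nat_lit 9) (.nd (nat_lit 8) (.nd (nat_lit 7) (.nd (nat_lit 6) tv2521 tv2522) tv2523) 
(.nd (nat_lit 7) tv2524 (.nd (nat_lit 6) tv2525 tv2526))) (.nd (nat_lit 8) (.nd (nat_lit 7) 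
(.nd (nat_lit 6) tv2527 tv2528) (.nd (nat_lit 6) tv2529 tv2530)) (.nd (nat_lit 7) 
(.nd (nat_lit 6) tv2531 tv2532) (.nd (nat_lit 6) tv2533 tv2534)))) (.nd (nat_lit 9) 
(.nd (nat_lit 8) (.nd (nat_lit 7) (.nd (nat_lit 6) tv2535 tv2536) (.nd (nat_lit 6) tv2537 tv2538)) 
(.nd (nat_lit 7) (.nd (nat_lit 6) tv2539 tv2540) tv2541)) (.nd (nat_lit 8) (.nd (nat_lit 7) tv2542 
(.nd (nat_lit 6) (.nd (nat_lit 5) tv2543 tv2544) tv2545)) (.nd (nat_lit 7) tv2546 (.nd (nat_lit 6) 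
(.nd (nat_lit 5) tv2547 tv2548) tv2549)))))) (.nd (nat_lit 11) (.nd (nat_lit 10) (.nd (nat_lit 9) 
(.nd (nat_lit 8) (.nd (nat_lit 7) (.nd (nat_lit 6) tv2550 tv2551) (.nd (nat_lit 6) tv2552 tv2553)) 
(.nd (nat_lit 7) (.nd (nat_lit 6) tv2554 tv2555) (.nd (nat_lit 6) tv2556 tv2557))) (.nd (nat_lit 8) 
(.nd (nat_lit 7) (.nd (nat_lit 6) tv2558 tv2559) (.nd (nat_lit 6) tv2560 
(.nd (nat_lit 5) tv2561 tv2562))) (.nd (nat_lit 7) tv2563 (.nd (nat_lit 6) tv2564 tv2565)))) 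
(.nd (nat_lit 9) (.nd (nat_lit 8) (.nd (nat_lit 7) (.nd (nat_lit 6) tv2566 tv2567) 
(.nd (nat_lit 6) tv2568 tv2569)) (.nd (nat_lit 7) (.nd (nat_lit 6) tv2570 tv2571) tv2572)) 
(.nd (nat_lit 8) (.nd (nat_lit 7) (.nd (nat_lit 6) tv2573 tv2574) tv2575) 
(.nd (nat_lit 7) tv2576 tv2577)))) (.nd (nat_lit 10) (.nd (nat_lit 9) (.nd (nat_lit 8) 
(.nd (nat_lit 7) (.nd (nat_lit 6) tv2578 tv2579) (.nd (nat_lit 6) tv2580 tv2581)) (.nd (nat_lit 7) 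
(.nd (nat_lit 6) tv2582 tv2583) tv2584)) (.nd (nat_lit 8) (.nd (nat_lit 7) 
(.nd (nat_lit 6) tv2585 tv2586) (.nd (nat_lit 6) tv2587 tv2588)) (.nd (nat_lit 7) tv2589 tv2590))) 
(.nd (nat_lit 9) (.nd (nat_lit 8) (.nd (nat_lit 7) tv2591 tv2592) (.nd (nat_lit 7) tv2593 tv2594)) 
(.nd (nat_lit 8) (.nd (nat_lit 7) (.nd (nat_lit 6) tv2595 tv2596) tv2597) (.nd (nat_lit 7) tv2598 
(.nd (nat_lit 6) tv2599 tv2600)))))))))) (.nd (nat_lit 15) (.nd (nat_lit 14) (.nd (nat_lit 13) 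
(.nd (nat_lit 12) (.nd (nat_lit 11) (.nd (nat_lit 10) (.nd (nat_lit 9) (.nd (nat_lit 8) 
(.nd (nat_lit 7) tv2601 tv2602) (.nd (nat_lit 7) (.nd (nat_lit 6) 
(.nd (nat_lit 5) tv2603 tv2604) tv2605) (.nd (nat_lit 6) tv2606 tv2607))) (.nd (nat_lit 8) 
(.nd (nat_lit 7) (.nd (nat_lit 6) tv2608 tv2609) tv2610) (.nd (nat_lit 7) tv2611 tv2612))) 
(.nd (nat_lit 9) (.nd (nat_lit 8) (.nd (nat_lit 7) (.nd (nat_lit 6) tv2613 tv2614) 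
(.nd (nat_lit 6) tv2615 tv2616)) (.nd (nat_lit 7) (.nd (nat_lit 6) tv2617 tv2618) tv2619)) 
(.nd (nat_lit 8) (.nd (nat_lit 7) (.nd (nat_lit 6) tv2620 tv2621) (.nd (nat_lit 6) 
(.nd (nat_lit 5) tv2622 tv2623) tv2624)) (.nd (nat_lit 7) tv2625 
(.nd (nat_lit 6) tv2626 tv2627))))) (.nd (nat_lit 10) (.nd (nat_lit 9) (.nd (nat_lit 8) 
(.nd (nat_lit 7) tv2628 tv2629) (.nd (nat_lit 7) (.nd (nat_lit 6) tv2630 tv2631) tv2632)) 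
(.nd (nat_lit 8) (.nd (nat_lit 7) tv2633 (.nd (nat_lit 6) tv2634 tv2635)) (.nd (nat_lit 7) 
(.nd (nat_lit 6) tv2636 tv2637) tv2638))) (.nd (nat_lit 9) (.nd (nat_lit 8) (.nd (nat_lit 7) 
(.nd (nat_lit 6) tv2639 tv2640) tv2641) (.nd (nat_lit 7) tv2642 (.nd (nat_lit 6) tv2643 tv2644))) 
(.nd (nat_lit 8) (.nd (nat_lit 7) (.nd (nat_lit 6) tv2645 tv2646) tv2647) 
(.nd (nat_lit 7) tv2648 tv2649))))) (.nd (nat_lit 11) (.nd (nat_lit 10) (.nd (nat_lit 9) 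
(.nd (nat_lit 8) (.nd (nat_lit 7) tv2650 tv2651) (.nd (nat_lit 7) tv2652 
(.nd (nat_lit 6) tv2653 tv2654))) (.nd (nat_lit 8) (.nd (nat_lit 7) (.nd (nat_lit 6) tv2655 tv2656) 
(.nd (nat_lit 6) tv2657 tv2658)) (.nd (nat_lit 7) (.nd (nat_lit 6) tv2659 tv2660) 
(.nd (nat_lit 6) tv2661 tv2662)))) (.nd (nat_lit 9) (.nd (nat_lit 8) (.nd (nat_lit 7) tv2663 
(.nd (nat_lit 6) tv2664 tv2665)) (.nd (nat_lit 7) tv2666 (.nd (nat_lit 6) tv2667 tv2668))) 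
(.nd (nat_lit 8) (.nd (nat_lit 7) (.nd (nat_lit 6) tv2669 tv2670) tv2671) (.nd (nat_lit 7) 
(.nd (nat_lit 6) tv2672 tv2673) (.nd (nat_lit 6) tv2674 tv2675))))) (.nd (nat_lit 10) 
(.nd (nat_lit 9) (.nd (nat_lit 8) (.nd (nat_lit 7) (.nd (nat_lit 6) tv2676 tv2677) 
(.nd (nat_lit 6) tv2678 tv2679)) (.nd (nat_lit 7) (.nd (nat_lit 6) tv2680 tv2681) tv2682)) 
(.nd (nat_lit 8) (.nd (nat_lit 7) (.nd (nat_lit 6) tv2683 tv2684) (.nd (nat_lit 6) tv2685 tv2686)) 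
(.nd (nat_lit 7) (.nd (nat_lit 6) tv2687 tv2688) tv2689))) (.nd (nat_lit 9) (.nd (nat_lit 8) 
(.nd (nat_lit 7) tv2690 tv2691) (.nd (nat_lit 7) tv2692 tv2693)) (.nd (nat_lit 8) (.nd (nat_lit 7) 
(.nd (nat_lit 6) tv2694 tv2695) (.nd (nat_lit 6) tv2696 tv2697)) (.nd (nat_lit 7) 
(.nd (nat_lit 6) tv2698 tv2699) (.nd (nat_lit 6) tv2700 tv2701))))))) (.nd (nat_lit 12) 
(.nd (nat_lit 11) (.nd (nat_lit 10) (.nd (nat_lit 9) (.nd (nat_lit 8) (.nd (nat_lit 7) 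
(.nd (nat_lit 6) tv2702 tv2703) (.nd (nat_lit 6) tv2704 tv2705)) (.nd (nat_lit 7) 
(.nd (nat_lit 6) tv2706 tv2707) tv2708)) (.nd (nat_lit 8) (.nd (nat_lit 7) tv2709 tv2710) 
(.nd (nat_lit 7) tv2711 (.nd (nat_lit 6) tv2712 tv2713)))) (.nd (nat_lit 9) (.nd (nat_lit 8) 
(.nd (nat_lit 7) (.nd (nat_lit 6) tv2714 tv2715) (.nd (nat_lit 6) tv2716 tv2717)) (.nd (nat_lit 7) 
(.nd (nat_lit 6) tv2718 (.nd (nat_lit 5) tv2719 tv2720)) (.nd (nat_lit 6) tv2721 tv2722))) 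
(.nd (nat_lit 8) (.nd (nat_lit 7) (.nd (nat_lit 6) tv2723 tv2724) tv2725) 
(.nd (nat_lit 7) tv2726 tv2727)))) (.nd (nat_lit 10) (.nd (nat_lit 9) (.nd (nat_lit 8) 
(.nd (nat_lit 7) tv2728 tv2729) (.nd (nat_lit 7) tv2730 tv2731)) (.nd (nat_lit 8) (.nd (nat_lit 7) 
(.nd (nat_lit 6) tv2732 tv2733) (.nd (nat_lit 6) tv2734 tv2735)) (.nd (nat_lit 7) 
(.nd (nat_lit 6) tv2736 tv2737) (.nd (nat_lit 6) (.nd (nat_lit 5) tv2738 tv2739) tv2740)))) 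
(.nd (nat_lit 9) (.nd (nat_lit 8) (.nd (nat_lit 7) (.nd (nat_lit 6) tv2741 tv2742) 
(.nd (nat_lit 6) tv2743 tv2744)) (.nd (nat_lit 7) (.nd (nat_lit 6) tv2745 tv2746) 
(.nd (nat_lit 6) tv2747 tv2748))) (.nd (nat_lit 8) (.nd (nat_lit 7) tv2749 
(.nd (nat_lit 6) tv2750 tv2751)) (.nd (nat_lit 7) (.nd (nat_lit 6) tv2752 tv2753) (.nd (nat_lit 6) 
(.nd (nat_lit 5) tv2754 tv2755) tv2756)))))) (.nd (nat_lit 11) (.nd (nat_lit 10) (.nd (nat_lit 9) 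
(.nd (nat_lit 8) (.nd (nat_lit 7) (.nd (nat_lit 6) tv2757 tv2758) (.nd (nat_lit 6) tv2759 tv2760)) 
(.nd (nat_lit 7) (.nd (nat_lit 6) tv2761 tv2762) (.nd (nat_lit 6) tv2763 tv2764))) (.nd (nat_lit 8) 
(.nd (nat_lit 7) (.nd (nat_lit 6) tv2765 tv2766) (.nd (nat_lit 6) tv2767 tv2768)) (.nd (nat_lit 7) 
(.nd (nat_lit 6) tv2769 tv2770) (.nd (nat_lit 6) (.nd (nat_lit 5) tv2771 tv2772) tv2773)))) 
(.nd (nat_lit 9) (.nd (nat_lit 8) (.nd (nat_lit 7) (.nd (nat_lit 6) tv2774 tv2775) 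
(.nd (nat_lit 6) tv2776 tv2777)) (.nd (nat_lit 7) (.nd (nat_lit 6) tv2778 tv2779) tv2780)) 
(.nd (nat_lit 8) (.nd (nat_lit 7) tv2781 tv2782) (.nd (nat_lit 7) tv2783 tv2784)))) 
(.nd (nat_lit 10) (.nd (nat_lit 9) (.nd (nat_lit 8) (.nd (nat_lit 7) 
(.nd (nat_lit 6) tv2785 tv2786) (.nd (nat_lit 6) tv2787 tv2788)) (.nd (nat_lit 7) 
(.nd (nat_lit 6) tv2789 tv2790) tv2791)) (.nd (nat_lit 8) (.nd (nat_lit 7) 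
(.nd (nat_lit 6) tv2792 tv2793) (.nd (nat_lit 6) tv2794 tv2795)) (.nd (nat_lit 7) 
(.nd (nat_lit 6) tv2796 tv2797) (.nd (nat_lit 6) tv2798 tv2799)))) (.nd (nat_lit 9) 
(.nd (nat_lit 8) (.nd (nat_lit 7) (.nd (nat_lit 6) tv2800 tv2801) (.nd (nat_lit 6) tv2802 tv2803)) 
(.nd (nat_lit 7) tv2804 (.nd (nat_lit 6) tv2805 tv2806))) (.nd (nat_lit 8) 
(.nd (nat_lit 7) tv2807 tv2808) (.nd (nat_lit 7) tv2809 tv2810))))))) (.nd (nat_lit 13) 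
(.nd (nat_lit 12) (.nd (nat_lit 11) (.nd (nat_lit 10) (.nd (nat_lit 9) (.nd (nat_lit 8) 
(.nd (nat_lit 7) tv2811 tv2812) (.nd (nat_lit 7) tv2813 tv2814)) (.nd (nat_lit 8) 
(.nd (nat_lit 7) tv2815 tv2816) (.nd (nat_lit 7) tv2817 tv2818))) (.nd (nat_lit 9) (.nd (nat_lit 8) 
(.nd (nat_lit 7) tv2819 tv2820) (.nd (nat_lit 7) tv2821 tv2822)) (.nd (nat_lit 8) 
(.nd (nat_lit 7) tv2823 tv2824) (.nd (nat_lit 7) tv2825 tv2826)))) (.nd (nat_lit 10) 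
(.nd (nat_lit 9) (.nd (nat_lit 8) (.nd (nat_lit 7) tv2827 tv2828) (.nd (nat_lit 7) tv2829 
(.nd (nat_lit 6) tv2830 tv2831))) (.nd (nat_lit 8) (.nd (nat_lit 7) (.nd (nat_lit 6) tv2832 tv2833) 
(.nd (nat_lit 6) tv2834 tv2835)) (.nd (nat_lit 7) (.nd (nat_lit 6) tv2836 tv2837) 
(.nd (nat_lit 6) tv2838 tv2839)))) (.nd (nat_lit 9) (.nd (nat_lit 8) (.nd (nat_lit 7) 
(.nd (nat_lit 6) tv2840 tv2841) (.nd (nat_lit 6) tv2842 tv2843)) (.nd (nat_lit 7) 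
(.nd (nat_lit 6) tv2844 tv2845) tv2846)) (.nd (nat_lit 8) (.nd (nat_lit 7) 
(.nd (nat_lit 6) tv2847 tv2848) tv2849) (.nd (nat_lit 7) tv2850 
(.nd (nat_lit 6) tv2851 tv2852)))))) (.nd (nat_lit 11) (.nd (nat_lit 10) (.nd (nat_lit 9) 
(.nd (nat_lit 8) (.nd (nat_lit 7) (.nd (nat_lit 6) tv2853 tv2854) tv2855) (.nd (nat_lit 7) tv2856 
(.nd (nat_lit 6) tv2857 tv2858))) (.nd (nat_lit 8) (.nd (nat_lit 7) (.nd (nat_lit 6) tv2859 tv2860) 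
(.nd (nat_lit 6) tv2861 tv2862)) (.nd (nat_lit 7) (.nd (nat_lit 6) tv2863 tv2864) 
(.nd (nat_lit 6) tv2865 tv2866)))) (.nd (nat_lit 9) (.nd (nat_lit 8) (.nd (nat_lit 7) 
(.nd (nat_lit 6) tv2867 tv2868) tv2869) (.nd (nat_lit 7) (.nd (nat_lit 6) tv2870 tv2871) tv2872)) 
(.nd (nat_lit 8) (.nd (nat_lit 7) (.nd (nat_lit 6) tv2873 tv2874) (.nd (nat_lit 6) tv2875 tv2876)) 
(.nd (nat_lit 7) (.nd (nat_lit 6) tv2877 tv2878) tv2879)))) (.nd (nat_lit 10) (.nd (nat_lit 9) 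
(.nd (nat_lit 8) (.nd (nat_lit 7) tv2880 (.nd (nat_lit 6) tv2881 tv2882)) 
(.nd (nat_lit 7) tv2883 tv2884)) (.nd (nat_lit 8) (.nd (nat_lit 7) tv2885 
(.nd (nat_lit 6) tv2886 tv2887)) (.nd (nat_lit 7) tv2888 (.nd (nat_lit 6) tv2889 tv2890)))) 
(.nd (nat_lit 9) (.nd (nat_lit 8) (.nd (nat_lit 7) (.nd (nat_lit 6) tv2891 tv2892) 
(.nd (nat_lit 6) tv2893 tv2894)) (.nd (nat_lit 7) (.nd (nat_lit 6) tv2895 tv2896) tv2897)) 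
(.nd (nat_lit 8) (.nd (nat_lit 7) (.nd (nat_lit 6) tv2898 tv2899) tv2900) (.nd (nat_lit 7) tv2901 
(.nd (nat_lit 6) tv2902 tv2903))))))) (.nd (nat_lit 12) (.nd (nat_lit 11) (.nd (nat_lit 10) 
(.nd (nat_lit 9) (.nd (nat_lit 8) (.nd (nat_lit 7) (.nd (nat_lit 6) tv2904 tv2905) 
(.nd (nat_lit 6) tv2906 tv2907)) (.nd (nat_lit 7) (.nd (nat_lit 6) tv2908 tv2909) 
(.nd (nat_lit 6) tv2910 tv2911))) (.nd (nat_lit 8) (.nd (nat_lit 7) tv2912 tv2913) (.nd (nat_lit 7) 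
(.nd (nat_lit 6) tv2914 tv2915) (.nd (nat_lit 6) tv2916 tv2917)))) (.nd (nat_lit 9) 
(.nd (nat_lit 8) (.nd (nat_lit 7) (.nd (nat_lit 6) tv2918 tv2919) tv2920) 
(.nd (nat_lit 7) tv2921 tv2922)) (.nd (nat_lit 8) (.nd (nat_lit 7) tv2923 tv2924) 
(.nd (nat_lit 7) tv2925 (.nd (nat_lit 6) tv2926 tv2927))))) (.nd (nat_lit 10) (.nd (nat_lit 9) 
(.nd (nat_lit 8) (.nd (nat_lit 7) tv2928 (.nd (nat_lit 6) tv2929 tv2930)) (.nd (nat_lit 7) tv2931 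
(.nd (nat_lit 6) tv2932 tv2933))) (.nd (nat_lit 8) (.nd (nat_lit 7) 
(.nd (nat_lit 6) tv2934 tv2935) tv2936) (.nd (nat_lit 7) (.nd (nat_lit 6) tv2937 tv2938) tv2939))) 
(.nd (nat_lit 9) (.nd (nat_lit 8) (.nd (nat_lit 7) tv2940 tv2941) (.nd (nat_lit 7) tv2942 
(.nd (nat_lit 6) tv2943 tv2944))) (.nd (nat_lit 8) (.nd (nat_lit 7) (.nd (nat_lit 6) tv2945 tv2946) 
(.nd (nat_lit 6) tv2947 tv2948)) (.nd (nat_lit 7) (.nd (nat_lit 6) tv2949 tv2950) 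
(.nd (nat_lit 6) tv2951 tv2952)))))) (.nd (nat_lit 11) (.nd (nat_lit 10) (.nd (nat_lit 9) 
(.nd (nat_lit 8) (.nd (nat_lit 7) (.nd (nat_lit 6) tv2953 tv2954) (.nd (nat_lit 6) tv2955 tv2956)) 
(.nd (nat_lit 7) (.nd (nat_lit 6) tv2957 tv2958) (.nd (nat_lit 6) tv2959 tv2960))) (.nd (nat_lit 8) 
(.nd (nat_lit 7) tv2961 tv2962) (.nd (nat_lit 7) tv2963 tv2964))) (.nd (nat_lit 9) (.nd (nat_lit 8) 
(.nd (nat_lit 7) tv2965 tv2966) (.nd (nat_lit 7) tv2967 tv2968)) (.nd (nat_lit 8) 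
(.nd (nat_lit 7) tv2969 (.nd (nat_lit 6) tv2970 tv2971)) (.nd (nat_lit 7) 
(.nd (nat_lit 6) tv2972 tv2973) (.nd (nat_lit 6) tv2974 tv2975))))) (.nd (nat_lit 10) 
(.nd (nat_lit 9) (.nd (nat_lit 8) (.nd (nat_lit 7) tv2976 (.nd (nat_lit 6) tv2977 tv2978)) 
(.nd (nat_lit 7) (.nd (nat_lit 6) tv2979 tv2980) (.nd (nat_lit 6) tv2981 tv2982))) (.nd (nat_lit 8) 
(.nd (nat_lit 7) tv2983 (.nd (nat_lit 6) tv2984 tv2985)) (.nd (nat_lit 7) 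
(.nd (nat_lit 6) tv2986 tv2987) (.nd (nat_lit 6) tv2988 tv2989)))) (.nd (nat_lit 9) 
(.nd (nat_lit 8) (.nd (nat_lit 7) (.nd (nat_lit 6) tv2990 tv2991) tv2992) (.nd (nat_lit 7) tv2993 
(.nd (nat_lit 6) tv2994 tv2995))) (.nd (nat_lit 8) (.nd (nat_lit 7) 
(.nd (nat_lit 6) tv2996 tv2997) tv2998) (.nd (nat_lit 7) tv2999 
(.nd (nat_lit 6) tv3000 tv3001))))))))) (.nd (nat_lit 14) (.nd (nat_lit 13) (.nd (nat_lit 12) 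
(.nd (nat_lit 11) (.nd (nat_lit 10) (.nd (nat_lit 9) (.nd (nat_lit 8) (.nd (nat_lit 7) 
(.nd (nat_lit 6) tv3002 tv3003) (.nd (nat_lit 6) tv3004 tv3005)) (.nd (nat_lit 7) 
(.nd (nat_lit 6) tv3006 tv3007) (.nd (nat_lit 6) tv3008 tv3009))) (.nd (nat_lit 8) (.nd (nat_lit 7) 
(.nd (nat_lit 6) tv3010 tv3011) tv3012) (.nd (nat_lit 7) (.nd (nat_lit 6) tv3013 tv3014) 
(.nd (nat_lit 6) tv3015 tv3016)))) (.nd (nat_lit 9) (.nd (nat_lit 8) (.nd (nat_lit 7) tv3017 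
(.nd (nat_lit 6) tv3018 tv3019)) (.nd (nat_lit 7) tv3020 (.nd (nat_lit 6) tv3021 tv3022))) 
(.nd (nat_lit 8) (.nd (nat_lit 7) tv3023 tv3024) (.nd (nat_lit 7) tv3025 
(.nd (nat_lit 6) tv3026 tv3027))))) (.nd (nat_lit 10) (.nd (nat_lit 9) (.nd (nat_lit 8) 
(.nd (nat_lit 7) (.nd (nat_lit 6) tv3028 tv3029) (.nd (nat_lit 6) tv3030 tv3031)) 
(.nd (nat_lit 7) tv3032 tv3033)) (.nd (nat_lit 8) (.nd (nat_lit 7) 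
(.nd (nat_lit 6) tv3034 tv3035) tv3036) (.nd (nat_lit 7) (.nd (nat_lit 6) tv3037 tv3038) tv3039))) 
(.nd (nat_lit 9) (.nd (nat_lit 8) (.nd (nat_lit 7) (.nd (nat_lit 6) tv3040 tv3041) 
(.nd (nat_lit 6) tv3042 tv3043)) (.nd (nat_lit 7) (.nd (nat_lit 6) tv3044 tv3045) tv3046)) 
(.nd (nat_lit 8) (.nd (nat_lit 7) tv3047 (.nd (nat_lit 6) tv3048 tv3049)) 
(.nd (nat_lit 7) tv3050 tv3051))))) (.nd (nat_lit 11) (.nd (nat_lit 10) (.nd (nat_lit 9) 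
(.nd (nat_lit 8) (.nd (nat_lit 7) tv3052 tv3053) (.nd (nat_lit 7) (.nd (nat_lit 6) tv3054 tv3055) 
(.nd (nat_lit 6) tv3056 tv3057))) (.nd (nat_lit 8) (.nd (nat_lit 7) (.nd (nat_lit 6) tv3058 tv3059) 
(.nd (nat_lit 6) tv3060 tv3061)) (.nd (nat_lit 7) tv3062 tv3063))) (.nd (nat_lit 9) 
(.nd (nat_lit 8) (.nd (nat_lit 7) tv3064 tv3065) (.nd (nat_lit 7) tv3066 tv3067)) (.nd (nat_lit 8) 
(.nd (nat_lit 7) tv3068 (.nd (nat_lit 6) tv3069 tv3070)) (.nd (nat_lit 7) tv3071 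
(.nd (nat_lit 6) tv3072 tv3073))))) (.nd (nat_lit 10) (.nd (nat_lit 9) (.nd (nat_lit 8) 
(.nd (nat_lit 7) tv3074 tv3075) (.nd (nat_lit 7) (.nd (nat_lit 6) tv3076 tv3077) tv3078)) 
(.nd (nat_lit 8) (.nd (nat_lit 7) tv3079 tv3080) (.nd (nat_lit 7) (.nd (nat_lit 6) tv3081 tv3082) 
(.nd (nat_lit 6) tv3083 tv3084)))) (.nd (nat_lit 9) (.nd (nat_lit 8) (.nd (nat_lit 7) tv3085 
(.nd (nat_lit 6) tv3086 tv3087)) (.nd (nat_lit 7) tv3088 tv3089)) (.nd (nat_lit 8) (.nd (nat_lit 7) 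
(.nd (nat_lit 6) tv3090 tv3091) (.nd (nat_lit 6) tv3092 tv3093)) (.nd (nat_lit 7) 
(.nd (nat_lit 6) tv3094 tv3095) (.nd (nat_lit 6) tv3096 tv3097))))))) (.nd (nat_lit 12) 
(.nd (nat_lit 11) (.nd (nat_lit 10) (.nd (nat_lit 9) (.nd (nat_lit 8) (.nd (nat_lit 7) 
(.nd (nat_lit 6) tv3098 tv3099) (.nd (nat_lit 6) tv3100 tv3101)) (.nd (nat_lit 7) 
(.nd (nat_lit 6) tv3102 tv3103) (.nd (nat_lit 6) tv3104 tv3105))) (.nd (nat_lit 8) (.nd (nat_lit 7) 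
(.nd (nat_lit 6) tv3106 tv3107) (.nd (nat_lit 6) tv3108 tv3109)) (.nd (nat_lit 7) 
(.nd (nat_lit 6) tv3110 tv3111) (.nd (nat_lit 6) tv3112 tv3113)))) (.nd (nat_lit 9) 
(.nd (nat_lit 8) (.nd (nat_lit 7) (.nd (nat_lit 6) tv3114 tv3115) (.nd (nat_lit 6) tv3116 tv3117)) 
(.nd (nat_lit 7) (.nd (nat_lit 6) tv3118 tv3119) tv3120)) (.nd (nat_lit 8) (.nd (nat_lit 7) 
(.nd (nat_lit 6) tv3121 tv3122) (.nd (nat_lit 6) tv3123 tv3124)) (.nd (nat_lit 7) 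
(.nd (nat_lit 6) tv3125 tv3126) (.nd (nat_lit 6) tv3127 tv3128))))) (.nd (nat_lit 10) 
(.nd (nat_lit 9) (.nd (nat_lit 8) (.nd (nat_lit 7) (.nd (nat_lit 6) tv3129 tv3130) 
(.nd (nat_lit 6) tv3131 tv3132)) (.nd (nat_lit 7) tv3133 (.nd (nat_lit 6) tv3134 tv3135))) 
(.nd (nat_lit 8) (.nd (nat_lit 7) (.nd (nat_lit 6) tv3136 tv3137) tv3138) 
(.nd (nat_lit 7) tv3139 tv3140))) (.nd (nat_lit 9) (.nd (nat_lit 8) (.nd (nat_lit 7) tv3141 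
(.nd (nat_lit 6) tv3142 tv3143)) (.nd (nat_lit 7) tv3144 tv3145)) (.nd (nat_lit 8) 
(.nd (nat_lit 7) tv3146 (.nd (nat_lit 6) tv3147 tv3148)) (.nd (nat_lit 7) 
(.nd (nat_lit 6) tv3149 tv3150) tv3151))))) (.nd (nat_lit 11) (.nd (nat_lit 10) (.nd (nat_lit 9) 
(.nd (nat_lit 8) (.nd (nat_lit 7) (.nd (nat_lit 6) tv3152 tv3153) (.nd (nat_lit 6) tv3154 tv3155)) 
(.nd (nat_lit 7) (.nd (nat_lit 6) tv3156 tv3157) tv3158)) (.nd (nat_lit 8) (.nd (nat_lit 7) 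
(.nd (nat_lit 6) tv3159 tv3160) tv3161) (.nd (nat_lit 7) tv3162 tv3163))) (.nd (nat_lit 9) 
(.nd (nat_lit 8) (.nd (nat_lit 7) (.nd (nat_lit 6) tv3164 tv3165) (.nd (nat_lit 6) tv3166 tv3167)) 
(.nd (nat_lit 7) (.nd (nat_lit 6) tv3168 tv3169) tv3170)) (.nd (nat_lit 8) 
(.nd (nat_lit 7) tv3171 tv3172) (.nd (nat_lit 7) tv3173 tv3174)))) (.nd (nat_lit 10) 
(.nd (nat_lit 9) (.nd (nat_lit 8) (.nd (nat_lit 7) tv3175 tv3176) (.nd (nat_lit 7) 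
(.nd (nat_lit 6) tv3177 tv3178) tv3179)) (.nd (nat_lit 8) (.nd (nat_lit 7) tv3180 tv3181) 
(.nd (nat_lit 7) tv3182 tv3183))) (.nd (nat_lit 9) (.nd (nat_lit 8) (.nd (nat_lit 7) tv3184 
(.nd (nat_lit 6) tv3185 tv3186)) (.nd (nat_lit 7) tv3187 (.nd (nat_lit 6) tv3188 tv3189))) 
(.nd (nat_lit 8) (.nd (nat_lit 7) tv3190 tv3191) (.nd (nat_lit 7) tv3192 tv3193))))))) 
(.nd (nat_lit 13) (.nd (nat_lit 12) (.nd (nat_lit 11) (.nd (nat_lit 10) (.nd (nat_lit 9) 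
(.nd (nat_lit 8) (.nd (nat_lit 7) tv3194 (.nd (nat_lit 6) tv3195 tv3196)) 
(.nd (nat_lit 7) tv3197 tv3198)) (.nd (nat_lit 8) (.nd (nat_lit 7) tv3199 tv3200) 
(.nd (nat_lit 7) tv3201 tv3202))) (.nd (nat_lit 9) (.nd (nat_lit 8) (.nd (nat_lit 7) tv3203 tv3204) 
(.nd (nat_lit 7) tv3205 tv3206)) (.nd (nat_lit 8) (.nd (nat_lit 7) tv3207 tv3208) 
(.nd (nat_lit 7) tv3209 tv3210)))) (.nd (nat_lit 10) (.nd (nat_lit 9) (.nd (nat_lit 8) 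
(.nd (nat_lit 7) (.nd (nat_lit 6) tv3211 (.nd (nat_lit 5) tv3212 tv3213)) tv3214) 
(.nd (nat_lit 7) tv3215 tv3216)) (.nd (nat_lit 8) (.nd (nat_lit 7) tv3217 tv3218) 
(.nd (nat_lit 7) tv3219 tv3220))) (.nd (nat_lit 9) (.nd (nat_lit 8) (.nd (nat_lit 7) tv3221 tv3222) 
(.nd (nat_lit 7) (.nd (nat_lit 6) tv3223 tv3224) (.nd (nat_lit 6) tv3225 tv3226))) (.nd (nat_lit 8) 
(.nd (nat_lit 7) (.nd (nat_lit 6) tv3227 tv3228) (.nd (nat_lit 6) tv3229 tv3230)) (.nd (nat_lit 7) 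
(.nd (nat_lit 6) tv3231 tv3232) (.nd (nat_lit 6) tv3233 tv3234)))))) (.nd (nat_lit 11) 
(.nd (nat_lit 10) (.nd (nat_lit 9) (.nd (nat_lit 8) (.nd (nat_lit 7) 
(.nd (nat_lit 6) tv3235 tv3236) (.nd (nat_lit 6) tv3237 tv3238)) (.nd (nat_lit 7) 
(.nd (nat_lit 6) tv3239 tv3240) (.nd (nat_lit 6) tv3241 tv3242))) (.nd (nat_lit 8) (.nd (nat_lit 7) 
(.nd (nat_lit 6) tv3243 tv3244) (.nd (nat_lit 6) tv3245 tv3246)) (.nd (nat_lit 7) 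
(.nd (nat_lit 6) tv3247 tv3248) (.nd (nat_lit 6) tv3249 tv3250)))) (.nd (nat_lit 9) 
(.nd (nat_lit 8) (.nd (nat_lit 7) (.nd (nat_lit 6) tv3251 tv3252) (.nd (nat_lit 6) tv3253 tv3254)) 
(.nd (nat_lit 7) (.nd (nat_lit 6) tv3255 tv3256) (.nd (nat_lit 6) tv3257 tv3258))) (.nd (nat_lit 8) 
(.nd (nat_lit 7) (.nd (nat_lit 6) tv3259 tv3260) (.nd (nat_lit 6) tv3261 tv3262)) 
(.nd (nat_lit 7) tv3263 (.nd (nat_lit 6) tv3264 tv3265))))) (.nd (nat_lit 10) (.nd (nat_lit 9) 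
(.nd (nat_lit 8) (.nd (nat_lit 7) (.nd (nat_lit 6) tv3266 tv3267) (.nd (nat_lit 6) tv3268 tv3269)) 
(.nd (nat_lit 7) (.nd (nat_lit 6) tv3270 tv3271) (.nd (nat_lit 6) tv3272 tv3273))) (.nd (nat_lit 8) 
(.nd (nat_lit 7) (.nd (nat_lit 6) tv3274 tv3275) (.nd (nat_lit 6) tv3276 tv3277)) 
(.nd (nat_lit 7) tv3278 tv3279))) (.nd (nat_lit 9) (.nd (nat_lit 8) (.nd (nat_lit 7) tv3280 tv3281) 
(.nd (nat_lit 7) (.nd (nat_lit 6) tv3282 tv3283) (.nd (nat_lit 6) tv3284 tv3285))) (.nd (nat_lit 8) 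
(.nd (nat_lit 7) (.nd (nat_lit 6) tv3286 tv3287) tv3288) (.nd (nat_lit 7) 
(.nd (nat_lit 6) tv3289 tv3290) (.nd (nat_lit 6) tv3291 tv3292))))))) (.nd (nat_lit 12) 
(.nd (nat_lit 11) (.nd (nat_lit 10) (.nd (nat_lit 9) (.nd (nat_lit 8) (.nd (nat_lit 7) 
(.nd (nat_lit 6) tv3293 tv3294) tv3295) (.nd (nat_lit 7) (.nd (nat_lit 6) tv3296 tv3297) 
(.nd (nat_lit 6) tv3298 tv3299))) (.nd (nat_lit 8) (.nd (nat_lit 7) (.nd (nat_lit 6) tv3300 tv3301) 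
(.nd (nat_lit 6) tv3302 tv3303)) (.nd (nat_lit 7) (.nd (nat_lit 6) tv3304 tv3305) 
(.nd (nat_lit 6) tv3306 tv3307)))) (.nd (nat_lit 9) (.nd (nat_lit 8) (.nd (nat_lit 7) 
(.nd (nat_lit 6) tv3308 tv3309) (.nd (nat_lit 6) tv3310 tv3311)) (.nd (nat_lit 7) tv3312 
(.nd (nat_lit 6) tv3313 tv3314))) (.nd (nat_lit 8) (.nd (nat_lit 7) tv3315 tv3316) 
(.nd (nat_lit 7) tv3317 (.nd (nat_lit 6) tv3318 tv3319))))) (.nd (nat_lit 10) (.nd (nat_lit 9) 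
(.nd (nat_lit 8) (.nd (nat_lit 7) tv3320 tv3321) (.nd (nat_lit 7) tv3322 tv3323)) (.nd (nat_lit 8) 
(.nd (nat_lit 7) tv3324 tv3325) (.nd (nat_lit 7) tv3326 tv3327))) (.nd (nat_lit 9) (.nd (nat_lit 8) 
(.nd (nat_lit 7) tv3328 tv3329) (.nd (nat_lit 7) tv3330 (.nd (nat_lit 6) tv3331 tv3332))) 
(.nd (nat_lit 8) (.nd (nat_lit 7) tv3333 tv3334) (.nd (nat_lit 7) tv3335 tv3336))))) 
(.nd (nat_lit 11) (.nd (nat_lit 10) (.nd (nat_lit 9) (.nd (nat_lit 8) 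
(.nd (nat_lit 7) tv3337 tv3338) (.nd (nat_lit 7) tv3339 tv3340)) (.nd (nat_lit 8) 
(.nd (nat_lit 7) tv3341 tv3342) (.nd (nat_lit 7) (.nd (nat_lit 6) tv3343 tv3344) tv3345))) 
(.nd (nat_lit 9) (.nd (nat_lit 8) (.nd (nat_lit 7) (.nd (nat_lit 6) (.nd (nat_lit 5) tv3346 
(.nd (nat_lit 4) tv3347 tv3348)) tv3349) (.nd (nat_lit 6) (.nd (nat_lit 5) 
(.nd (nat_lit 4) tv3350 tv3351) tv3352) tv3353)) (.nd (nat_lit 7) tv3354 tv3355)) (.nd (nat_lit 8) 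
(.nd (nat_lit 7) tv3356 tv3357) (.nd (nat_lit 7) tv3358 (.nd (nat_lit 6) tv3359 tv3360))))) 
(.nd (nat_lit 10) (.nd (nat_lit 9) (.nd (nat_lit 8) (.nd (nat_lit 7) tv3361 
(.nd (nat_lit 6) tv3362 tv3363)) (.nd (nat_lit 7) tv3364 tv3365)) (.nd (nat_lit 8) (.nd (nat_lit 7) 
(.nd (nat_lit 6) tv3366 tv3367) (.nd (nat_lit 6) tv3368 tv3369)) (.nd (nat_lit 7) tv3370 tv3371))) 
(.nd (nat_lit 9) (.nd (nat_lit 8) (.nd (nat_lit 7) tv3372 tv3373) (.nd (nat_lit 7) tv3374 tv3375)) 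
(.nd (nat_lit 8) (.nd (nat_lit 7) tv3376 (.nd (nat_lit 6) tv3377 tv3378)) 
(.nd (nat_lit 7) tv3379 tv3380))))))))))) (.nd (nat_lit 17) (.nd (nat_lit 16) (.nd (nat_lit 15) 
(.nd (nat_lit 14) (.nd (nat_lit 13) (.nd (nat_lit 12) (.nd (nat_lit 11) (.nd (nat_lit 10) 
(.nd (nat_lit 9) (.nd (nat_lit 8) (.nd (nat_lit 7) (.nd (nat_lit 6) tv3381 
(.nd (nat_lit 5) tv3382 tv3383)) tv3384) (.nd (nat_lit 7) (.nd (nat_lit 6) tv3385 tv3386) 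
(.nd (nat_lit 6) tv3387 tv3388))) (.nd (nat_lit 8) (.nd (nat_lit 7) tv3389 
(.nd (nat_lit 6) tv3390 tv3391)) (.nd (nat_lit 7) tv3392 tv3393))) (.nd (nat_lit 9) 
(.nd (nat_lit 8) (.nd (nat_lit 7) tv3394 tv3395) (.nd (nat_lit 7) 
(.nd (nat_lit 6) tv3396 tv3397) tv3398)) (.nd (nat_lit 8) (.nd (nat_lit 7) tv3399 tv3400) 
(.nd (nat_lit 7) tv3401 tv3402)))) (.nd (nat_lit 10) (.nd (nat_lit 9) (.nd (nat_lit 8) 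
(.nd (nat_lit 7) tv3403 tv3404) (.nd (nat_lit 7) tv3405 tv3406)) (.nd (nat_lit 8) 
(.nd (nat_lit 7) tv3407 tv3408) (.nd (nat_lit 7) tv3409 tv3410))) (.nd (nat_lit 9) (.nd (nat_lit 8) 
(.nd (nat_lit 7) tv3411 tv3412) (.nd (nat_lit 7) (.nd (nat_lit 6) tv3413 tv3414) 
(.nd (nat_lit 6) tv3415 tv3416))) (.nd (nat_lit 8) (.nd (nat_lit 7) 
(.nd (nat_lit 6) tv3417 tv3418) tv3419) (.nd (nat_lit 7) tv3420 tv3421))))) (.nd (nat_lit 11) 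
(.nd (nat_lit 10) (.nd (nat_lit 9) (.nd (nat_lit 8) (.nd (nat_lit 7) tv3422 tv3423) 
(.nd (nat_lit 7) tv3424 tv3425)) (.nd (nat_lit 8) (.nd (nat_lit 7) tv3426 tv3427) 
(.nd (nat_lit 7) tv3428 (.nd (nat_lit 6) tv3429 tv3430)))) (.nd (nat_lit 9) (.nd (nat_lit 8) 
(.nd (nat_lit 7) (.nd (nat_lit 6) (.nd (nat_lit 5) tv3431 tv3432) tv3433) 
(.nd (nat_lit 6) tv3434 tv3435)) (.nd (nat_lit 7) tv3436 tv3437)) (.nd (nat_lit 8) 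
(.nd (nat_lit 7) tv3438 (.nd (nat_lit 6) tv3439 tv3440)) (.nd (nat_lit 7) 
(.nd (nat_lit 6) tv3441 tv3442) (.nd (nat_lit 6) tv3443 tv3444))))) (.nd (nat_lit 10) 
(.nd (nat_lit 9) (.nd (nat_lit 8) (.nd (nat_lit 7) tv3445 (.nd (nat_lit 6) tv3446 tv3447)) 
(.nd (nat_lit 7) (.nd (nat_lit 6) tv3448 tv3449) tv3450)) (.nd (nat_lit 8) (.nd (nat_lit 7) tv3451 
(.nd (nat_lit 6) tv3452 tv3453)) (.nd (nat_lit 7) (.nd (nat_lit 6) tv3454 tv3455) tv3456))) 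
(.nd (nat_lit 9) (.nd (nat_lit 8) (.nd (nat_lit 7) (.nd (nat_lit 6) tv3457 tv3458) 
(.nd (nat_lit 6) tv3459 tv3460)) (.nd (nat_lit 7) (.nd (nat_lit 6) tv3461 tv3462) tv3463)) 
(.nd (nat_lit 8) (.nd (nat_lit 7) (.nd (nat_lit 6) tv3464 tv3465) tv3466) 
(.nd (nat_lit 7) tv3467 tv3468)))))) (.nd (nat_lit 12) (.nd (nat_lit 11) (.nd (nat_lit 10) 
(.nd (nat_lit 9) (.nd (nat_lit 8) (.nd (nat_lit 7) tv3469 tv3470) (.nd (nat_lit 7) tv3471 tv3472)) 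
(.nd (nat_lit 8) (.nd (nat_lit 7) (.nd (nat_lit 6) tv3473 tv3474) (.nd (nat_lit 6) tv3475 tv3476)) 
(.nd (nat_lit 7) (.nd (nat_lit 6) tv3477 tv3478) (.nd (nat_lit 6) tv3479 tv3480)))) 
(.nd (nat_lit 9) (.nd (nat_lit 8) (.nd (nat_lit 7) tv3481 tv3482) (.nd (nat_lit 7) 
(.nd (nat_lit 6) tv3483 tv3484) (.nd (nat_lit 6) tv3485 tv3486))) (.nd (nat_lit 8) (.nd (nat_lit 7) 
(.nd (nat_lit 6) tv3487 tv3488) (.nd (nat_lit 6) tv3489 tv3490)) (.nd (nat_lit 7) tv3491 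
(.nd (nat_lit 6) tv3492 tv3493))))) (.nd (nat_lit 10) (.nd (nat_lit 9) (.nd (nat_lit 8) 
(.nd (nat_lit 7) tv3494 tv3495) (.nd (nat_lit 7) tv3496 tv3497)) (.nd (nat_lit 8) (.nd (nat_lit 7) 
(.nd (nat_lit 6) tv3498 tv3499) tv3500) (.nd (nat_lit 7) (.nd (nat_lit 6) tv3501 tv3502) 
(.nd (nat_lit 6) tv3503 tv3504)))) (.nd (nat_lit 9) (.nd (nat_lit 8) (.nd (nat_lit 7) 
(.nd (nat_lit 6) tv3505 tv3506) tv3507) (.nd (nat_lit 7) (.nd (nat_lit 6) tv3508 tv3509) tv3510)) 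
(.nd (nat_lit 8) (.nd (nat_lit 7) tv3511 (.nd (nat_lit 6) tv3512 tv3513)) (.nd (nat_lit 7) 
(.nd (nat_lit 6) tv3514 tv3515) (.nd (nat_lit 6) tv3516 tv3517)))))) (.nd (nat_lit 11) 
(.nd (nat_lit 10) (.nd (nat_lit 9) (.nd (nat_lit 8) (.nd (nat_lit 7) tv3518 
(.nd (nat_lit 6) tv3519 tv3520)) (.nd (nat_lit 7) (.nd (nat_lit 6) tv3521 tv3522) 
(.nd (nat_lit 6) tv3523 tv3524))) (.nd (nat_lit 8) (.nd (nat_lit 7) 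
(.nd (nat_lit 6) tv3525 tv3526) tv3527) (.nd (nat_lit 7) tv3528 tv3529))) (.nd (nat_lit 9) 
(.nd (nat_lit 8) (.nd (nat_lit 7) tv3530 tv3531) (.nd (nat_lit 7) tv3532 
(.nd (nat_lit 6) tv3533 tv3534))) (.nd (nat_lit 8) (.nd (nat_lit 7) (.nd (nat_lit 6) tv3535 tv3536) 
(.nd (nat_lit 6) tv3537 tv3538)) (.nd (nat_lit 7) (.nd (nat_lit 6) tv3539 tv3540) 
(.nd (nat_lit 6) tv3541 tv3542))))) (.nd (nat_lit 10) (.nd (nat_lit 9) (.nd (nat_lit 8) 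
(.nd (nat_lit 7) tv3543 tv3544) (.nd (nat_lit 7) tv3545 tv3546)) (.nd (nat_lit 8) 
(.nd (nat_lit 7) tv3547 tv3548) (.nd (nat_lit 7) tv3549 tv3550))) (.nd (nat_lit 9) (.nd (nat_lit 8) 
(.nd (nat_lit 7) tv3551 (.nd (nat_lit 6) tv3552 tv3553)) (.nd (nat_lit 7) 
(.nd (nat_lit 6) tv3554 tv3555) (.nd (nat_lit 6) tv3556 tv3557))) (.nd (nat_lit 8) (.nd (nat_lit 7) 
(.nd (nat_lit 6) tv3558 tv3559) tv3560) (.nd (nat_lit 7) (.nd (nat_lit 6) tv3561 tv3562) 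
(.nd (nat_lit 6) tv3563 tv3564)))))))) (.nd (nat_lit 13) (.nd (nat_lit 12) (.nd (nat_lit 11) 
(.nd (nat_lit 10) (.nd (nat_lit 9) (.nd (nat_lit 8) tv3565 (.nd (nat_lit 7) tv3566 tv3567)) 
(.nd (nat_lit 8) (.nd (nat_lit 7) tv3568 tv3569) (.nd (nat_lit 7) (.nd (nat_lit 6) tv3570 tv3571) 
(.nd (nat_lit 6) tv3572 tv3573)))) (.nd (nat_lit 9) (.nd (nat_lit 8) (.nd (nat_lit 7) 
(.nd (nat_lit 6) tv3574 tv3575) tv3576) (.nd (nat_lit 7) tv3577 tv3578)) (.nd (nat_lit 8) 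
(.nd (nat_lit 7) (.nd (nat_lit 6) tv3579 tv3580) (.nd (nat_lit 6) tv3581 tv3582)) 
(.nd (nat_lit 7) tv3583 (.nd (nat_lit 6) tv3584 tv3585))))) (.nd (nat_lit 10) (.nd (nat_lit 9) 
(.nd (nat_lit 8) (.nd (nat_lit 7) tv3586 tv3587) (.nd (nat_lit 7) tv3588 tv3589)) (.nd (nat_lit 8) 
(.nd (nat_lit 7) tv3590 tv3591) (.nd (nat_lit 7) tv3592 tv3593))) (.nd (nat_lit 9) (.nd (nat_lit 8) 
(.nd (nat_lit 7) tv3594 tv3595) (.nd (nat_lit 7) tv3596 tv3597)) (.nd (nat_lit 8) 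
(.nd (nat_lit 7) tv3598 tv3599) (.nd (nat_lit 7) tv3600 tv3601))))) (.nd (nat_lit 11) 
(.nd (nat_lit 10) (.nd (nat_lit 9) (.nd (nat_lit 8) (.nd (nat_lit 7) tv3602 tv3603) 
(.nd (nat_lit 7) tv3604 tv3605)) (.nd (nat_lit 8) (.nd (nat_lit 7) tv3606 tv3607) 
(.nd (nat_lit 7) tv3608 tv3609))) (.nd (nat_lit 9) (.nd (nat_lit 8) (.nd (nat_lit 7) tv3610 tv3611) 
(.nd (nat_lit 7) tv3612 tv3613)) (.nd (nat_lit 8) (.nd (nat_lit 7) tv3614 tv3615) 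
(.nd (nat_lit 7) tv3616 tv3617)))) (.nd (nat_lit 10) (.nd (nat_lit 9) (.nd (nat_lit 8) 
(.nd (nat_lit 7) tv3618 tv3619) (.nd (nat_lit 7) tv3620 tv3621)) (.nd (nat_lit 8) 
(.nd (nat_lit 7) tv3622 tv3623) (.nd (nat_lit 7) tv3624 tv3625))) (.nd (nat_lit 9) (.nd (nat_lit 8) 
(.nd (nat_lit 7) tv3626 tv3627) (.nd (nat_lit 7) tv3628 tv3629)) (.nd (nat_lit 8) 
(.nd (nat_lit 7) tv3630 tv3631) (.nd (nat_lit 7) tv3632 tv3633)))))) (.nd (nat_lit 12) 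
(.nd (nat_lit 11) (.nd (nat_lit 10) (.nd (nat_lit 9) (.nd (nat_lit 8) (.nd (nat_lit 7) tv3634 
(.nd (nat_lit 6) tv3635 tv3636)) (.nd (nat_lit 7) tv3637 tv3638)) (.nd (nat_lit 8) 
(.nd (nat_lit 7) tv3639 tv3640) (.nd (nat_lit 7) tv3641 tv3642))) (.nd (nat_lit 9) (.nd (nat_lit 8) 
(.nd (nat_lit 7) tv3643 tv3644) (.nd (nat_lit 7) tv3645 tv3646)) (.nd (nat_lit 8) 
(.nd (nat_lit 7) tv3647 tv3648) (.nd (nat_lit 7) tv3649 tv3650)))) (.nd (nat_lit 10) 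
(.nd (nat_lit 9) (.nd (nat_lit 8) (.nd (nat_lit 7) tv3651 (.nd (nat_lit 6) tv3652 tv3653)) 
(.nd (nat_lit 7) tv3654 (.nd (nat_lit 6) tv3655 tv3656))) (.nd (nat_lit 8) (.nd (nat_lit 7) tv3657 
(.nd (nat_lit 6) tv3658 tv3659)) (.nd (nat_lit 7) (.nd (nat_lit 6) tv3660 tv3661) 
(.nd (nat_lit 6) tv3662 tv3663)))) (.nd (nat_lit 9) (.nd (nat_lit 8) (.nd (nat_lit 7) 
(.nd (nat_lit 6) tv3664 tv3665) (.nd (nat_lit 6) tv3666 tv3667)) (.nd (nat_lit 7) tv3668 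
(.nd (nat_lit 6) tv3669 tv3670))) (.nd (nat_lit 8) (.nd (nat_lit 7) tv3671 tv3672) (.nd (nat_lit 7) 
(.nd (nat_lit 6) tv3673 tv3674) (.nd (nat_lit 6) tv3675 tv3676)))))) (.nd (nat_lit 11) 
(.nd (nat_lit 10) (.nd (nat_lit 9) (.nd (nat_lit 8) (.nd (nat_lit 7) (.nd (nat_lit 6) 
(.nd (nat_lit 5) tv3677 tv3678) tv3679) tv3680) (.nd (nat_lit 7) tv3681 tv3682)) (.nd (nat_lit 8) 
(.nd (nat_lit 7) tv3683 tv3684) (.nd (nat_lit 7) (.nd (nat_lit 6) tv3685 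
(.nd (nat_lit 5) tv3686 tv3687)) tv3688))) (.nd (nat_lit 9) (.nd (nat_lit 8) 
(.nd (nat_lit 7) tv3689 tv3690) (.nd (nat_lit 7) (.nd (nat_lit 6) tv3691 tv3692) tv3693)) 
(.nd (nat_lit 8) (.nd (nat_lit 7) tv3694 tv3695) (.nd (nat_lit 7) tv3696 tv3697)))) 
(.nd (nat_lit 10) (.nd (nat_lit 9) (.nd (nat_lit 8) (.nd (nat_lit 7) tv3698 
(.nd (nat_lit 6) tv3699 tv3700)) (.nd (nat_lit 7) tv3701 tv3702)) (.nd (nat_lit 8) 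
(.nd (nat_lit 7) tv3703 tv3704) (.nd (nat_lit 7) tv3705 (.nd (nat_lit 6) tv3706 tv3707)))) 
(.nd (nat_lit 9) (.nd (nat_lit 8) (.nd (nat_lit 7) tv3708 tv3709) (.nd (nat_lit 7) 
(.nd (nat_lit 6) tv3710 tv3711) (.nd (nat_lit 6) tv3712 tv3713))) (.nd (nat_lit 8) 
(.nd (nat_lit 7) tv3714 tv3715) (.nd (nat_lit 7) (.nd (nat_lit 6) tv3716 tv3717) tv3718)))))))) 
(.nd (nat_lit 14) (.nd (nat_lit 13) (.nd (nat_lit 12) (.nd (nat_lit 11) (.nd (nat_lit 10) 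
(.nd (nat_lit 9) (.nd (nat_lit 8) (.nd (nat_lit 7) tv3719 (.nd (nat_lit 6) tv3720 tv3721)) 
(.nd (nat_lit 7) (.nd (nat_lit 6) tv3722 tv3723) (.nd (nat_lit 6) tv3724 tv3725))) (.nd (nat_lit 8) 
(.nd (nat_lit 7) tv3726 (.nd (nat_lit 6) tv3727 tv3728)) (.nd (nat_lit 7) tv3729 tv3730))) 
(.nd (nat_lit 9) (.nd (nat_lit 8) (.nd (nat_lit 7) tv3731 tv3732) (.nd (nat_lit 7) tv3733 tv3734)) 
(.nd (nat_lit 8) (.nd (nat_lit 7) tv3735 tv3736) (.nd (nat_lit 7) tv3737 tv3738)))) 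
(.nd (nat_lit 10) (.nd (nat_lit 9) (.nd (nat_lit 8) (.nd (nat_lit 7) tv3739 
(.nd (nat_lit 6) tv3740 tv3741)) (.nd (nat_lit 7) (.nd (nat_lit 6) tv3742 tv3743) tv3744)) 
(.nd (nat_lit 8) (.nd (nat_lit 7) tv3745 (.nd (nat_lit 6) tv3746 tv3747)) (.nd (nat_lit 7) 
(.nd (nat_lit 6) tv3748 tv3749) (.nd (nat_lit 6) tv3750 tv3751)))) (.nd (nat_lit 9) 
(.nd (nat_lit 8) (.nd (nat_lit 7) (.nd (nat_lit 6) tv3752 tv3753) tv3754) 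
(.nd (nat_lit 7) tv3755 tv3756)) (.nd (nat_lit 8) (.nd (nat_lit 7) (.nd (nat_lit 6) tv3757 tv3758) 
(.nd (nat_lit 6) tv3759 tv3760)) (.nd (nat_lit 7) (.nd (nat_lit 6) tv3761 tv3762) 
(.nd (nat_lit 6) tv3763 tv3764)))))) (.nd (nat_lit 11) (.nd (nat_lit 10) (.nd (nat_lit 9) 
(.nd (nat_lit 8) (.nd (nat_lit 7) (.nd (nat_lit 6) tv3765 tv3766) (.nd (nat_lit 6) tv3767 tv3768)) 
(.nd (nat_lit 7) tv3769 (.nd (nat_lit 6) tv3770 tv3771))) (.nd (nat_lit 8) (.nd (nat_lit 7) 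
(.nd (nat_lit 6) tv3772 tv3773) (.nd (nat_lit 6) tv3774 tv3775)) (.nd (nat_lit 7) 
(.nd (nat_lit 6) tv3776 tv3777) (.nd (nat_lit 6) tv3778 tv3779)))) (.nd (nat_lit 9) 
(.nd (nat_lit 8) (.nd (nat_lit 7) (.nd (nat_lit 6) tv3780 tv3781) (.nd (nat_lit 6) tv3782 tv3783)) 
(.nd (nat_lit 7) (.nd (nat_lit 6) tv3784 tv3785) (.nd (nat_lit 6) tv3786 tv3787))) (.nd (nat_lit 8) 
(.nd (nat_lit 7) (.nd (nat_lit 6) tv3788 tv3789) (.nd (nat_lit 6) tv3790 tv3791)) (.nd (nat_lit 7) 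
(.nd (nat_lit 6) tv3792 tv3793) (.nd (nat_lit 6) tv3794 tv3795))))) (.nd (nat_lit 10) 
(.nd (nat_lit 9) (.nd (nat_lit 8) (.nd (nat_lit 7) (.nd (nat_lit 6) tv3796 tv3797) 
(.nd (nat_lit 6) tv3798 tv3799)) (.nd (nat_lit 7) (.nd (nat_lit 6) tv3800 tv3801) 
(.nd (nat_lit 6) tv3802 tv3803))) (.nd (nat_lit 8) (.nd (nat_lit 7) tv3804 tv3805) 
(.nd (nat_lit 7) tv3806 tv3807))) (.nd (nat_lit 9) (.nd (nat_lit 8) (.nd (nat_lit 7) 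
(.nd (nat_lit 6) tv3808 tv3809) tv3810) (.nd (nat_lit 7) (.nd (nat_lit 6) tv3811 tv3812) tv3813)) 
(.nd (nat_lit 8) (.nd (nat_lit 7) tv3814 (.nd (nat_lit 6) tv3815 tv3816)) (.nd (nat_lit 7) 
(.nd (nat_lit 6) tv3817 tv3818) tv3819)))))) (.nd (nat_lit 12) (.nd (nat_lit 11) (.nd (nat_lit 10) 
(.nd (nat_lit 9) (.nd (nat_lit 8) (.nd (nat_lit 7) tv3820 tv3821) (.nd (nat_lit 7) 
(.nd (nat_lit 6) tv3822 tv3823) (.nd (nat_lit 6) tv3824 tv3825))) (.nd (nat_lit 8) (.nd (nat_lit 7) 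
(.nd (nat_lit 6) tv3826 tv3827) tv3828) (.nd (nat_lit 7) (.nd (nat_lit 6) tv3829 tv3830) 
(.nd (nat_lit 6) tv3831 tv3832)))) (.nd (nat_lit 9) (.nd (nat_lit 8) (.nd (nat_lit 7) 
(.nd (nat_lit 6) tv3833 tv3834) tv3835) (.nd (nat_lit 7) (.nd (nat_lit 6) tv3836 tv3837) 
(.nd (nat_lit 6) tv3838 tv3839))) (.nd (nat_lit 8) (.nd (nat_lit 7) (.nd (nat_lit 6) tv3840 tv3841) 
(.nd (nat_lit 6) tv3842 tv3843)) (.nd (nat_lit 7) tv3844 (.nd (nat_lit 6) tv3845 tv3846))))) 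
(.nd (nat_lit 10) (.nd (nat_lit 9) (.nd (nat_lit 8) (.nd (nat_lit 7) 
(.nd (nat_lit 6) tv3847 tv3848) (.nd (nat_lit 6) tv3849 tv3850)) (.nd (nat_lit 7) 
(.nd (nat_lit 6) tv3851 tv3852) (.nd (nat_lit 6) tv3853 tv3854))) (.nd (nat_lit 8) (.nd (nat_lit 7) 
(.nd (nat_lit 6) tv3855 tv3856) (.nd (nat_lit 6) tv3857 tv3858)) (.nd (nat_lit 7) tv3859 
(.nd (nat_lit 6) tv3860 tv3861)))) (.nd (nat_lit 9) (.nd (nat_lit 8) 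
(.nd (nat_lit 7) tv3862 tv3863) (.nd (nat_lit 7) tv3864 tv3865)) (.nd (nat_lit 8) (.nd (nat_lit 7) 
(.nd (nat_lit 6) tv3866 tv3867) (.nd (nat_lit 6) tv3868 tv3869)) (.nd (nat_lit 7) 
(.nd (nat_lit 6) tv3870 tv3871) (.nd (nat_lit 6) tv3872 tv3873)))))) (.nd (nat_lit 11) 
(.nd (nat_lit 10) (.nd (nat_lit 9) (.nd (nat_lit 8) (.nd (nat_lit 7) tv3874 tv3875) 
(.nd (nat_lit 7) tv3876 (.nd (nat_lit 6) tv3877 tv3878))) (.nd (nat_lit 8) (.nd (nat_lit 7) 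
(.nd (nat_lit 6) tv3879 tv3880) tv3881) (.nd (nat_lit 7) tv3882 tv3883))) (.nd (nat_lit 9) 
(.nd (nat_lit 8) (.nd (nat_lit 7) tv3884 (.nd (nat_lit 6) tv3885 tv3886)) 
(.nd (nat_lit 7) tv3887 tv3888)) (.nd (nat_lit 8) (.nd (nat_lit 7) tv3889 
(.nd (nat_lit 6) tv3890 tv3891)) (.nd (nat_lit 7) tv3892 tv3893)))) (.nd (nat_lit 10) 
(.nd (nat_lit 9) (.nd (nat_lit 8) (.nd (nat_lit 7) tv3894 tv3895) (.nd (nat_lit 7) 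
(.nd (nat_lit 6) tv3896 tv3897) tv3898)) (.nd (nat_lit 8) (.nd (nat_lit 7) 
(.nd (nat_lit 6) tv3899 tv3900) (.nd (nat_lit 6) tv3901 tv3902)) (.nd (nat_lit 7) tv3903 tv3904))) 
(.nd (nat_lit 9) (.nd (nat_lit 8) (.nd (nat_lit 7) tv3905 tv3906) (.nd (nat_lit 7) tv3907 
(.nd (nat_lit 6) tv3908 tv3909))) (.nd (nat_lit 8) (.nd (nat_lit 7) tv3910 tv3911) 
(.nd (nat_lit 7) tv3912 tv3913))))))) (.nd (nat_lit 13) (.nd (nat_lit 12) (.nd (nat_lit 11) 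
(.nd (nat_lit 10) (.nd (nat_lit 9) (.nd (nat_lit 8) (.nd (nat_lit 7) tv3914 
(.nd (nat_lit 6) tv3915 tv3916)) (.nd (nat_lit 7) tv3917 tv3918)) (.nd (nat_lit 8) (.nd (nat_lit 7) 
(.nd (nat_lit 6) tv3919 tv3920) tv3921) (.nd (nat_lit 7) tv3922 tv3923))) (.nd (nat_lit 9) 
(.nd (nat_lit 8) (.nd (nat_lit 7) (.nd (nat_lit 6) tv3924 tv3925) tv3926) 
(.nd (nat_lit 7) tv3927 tv3928)) (.nd (nat_lit 8) (.nd (nat_lit 7) tv3929 tv3930) 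
(.nd (nat_lit 7) tv3931 (.nd (nat_lit 6) tv3932 tv3933))))) (.nd (nat_lit 10) (.nd (nat_lit 9) 
(.nd (nat_lit 8) (.nd (nat_lit 7) (.nd (nat_lit 6) tv3934 tv3935) (.nd (nat_lit 6) tv3936 tv3937)) 
(.nd (nat_lit 7) tv3938 tv3939)) (.nd (nat_lit 8) (.nd (nat_lit 7) tv3940 
(.nd (nat_lit 6) tv3941 tv3942)) (.nd (nat_lit 7) tv3943 (.nd (nat_lit 6) tv3944 tv3945)))) 
(.nd (nat_lit 9) (.nd (nat_lit 8) (.nd (nat_lit 7) tv3946 tv3947) (.nd (nat_lit 7) tv3948 tv3949)) 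
(.nd (nat_lit 8) (.nd (nat_lit 7) tv3950 tv3951) (.nd (nat_lit 7) tv3952 
(.nd (nat_lit 6) tv3953 tv3954)))))) (.nd (nat_lit 11) (.nd (nat_lit 10) (.nd (nat_lit 9) 
(.nd (nat_lit 8) (.nd (nat_lit 7) (.nd (nat_lit 6) tv3955 tv3956) tv3957) 
(.nd (nat_lit 7) tv3958 tv3959)) (.nd (nat_lit 8) (.nd (nat_lit 7) tv3960 tv3961) 
(.nd (nat_lit 7) tv3962 tv3963))) (.nd (nat_lit 9) (.nd (nat_lit 8) (.nd (nat_lit 7) tv3964 tv3965) 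
(.nd (nat_lit 7) tv3966 tv3967)) (.nd (nat_lit 8) (.nd (nat_lit 7) (.nd (nat_lit 6) tv3968 tv3969) 
(.nd (nat_lit 6) tv3970 tv3971)) (.nd (nat_lit 7) tv3972 tv3973)))) (.nd (nat_lit 10) 
(.nd (nat_lit 9) (.nd (nat_lit 8) (.nd (nat_lit 7) tv3974 tv3975) (.nd (nat_lit 7) tv3976 
(.nd (nat_lit 6) tv3977 tv3978))) (.nd (nat_lit 8) (.nd (nat_lit 7) (.nd (nat_lit 6) tv3979 tv3980) 
(.nd (nat_lit 6) tv3981 tv3982)) (.nd (nat_lit 7) tv3983 tv3984))) (.nd (nat_lit 9) 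
(.nd (nat_lit 8) (.nd (nat_lit 7) tv3985 (.nd (nat_lit 6) tv3986 tv3987)) (.nd (nat_lit 7) 
(.nd (nat_lit 6) tv3988 tv3989) tv3990)) (.nd (nat_lit 8) (.nd (nat_lit 7) tv3991 
(.nd (nat_lit 6) tv3992 tv3993)) (.nd (nat_lit 7) (.nd (nat_lit 6) tv3994 tv3995) tv3996)))))) 
(.nd (nat_lit 12) (.nd (nat_lit 11) (.nd (nat_lit 10) (.nd (nat_lit 9) (.nd (nat_lit 8) 
(.nd (nat_lit 7) (.nd (nat_lit 6) tv3997 tv3998) tv3999) (.nd (nat_lit 7) 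
(.nd (nat_lit 6) tv4000 tv4001) tv4002)) (.nd (nat_lit 8) (.nd (nat_lit 7) tv4003 tv4004) 
(.nd (nat_lit 7) (.nd (nat_lit 6) tv4005 tv4006) tv4007))) (.nd (nat_lit 9) (.nd (nat_lit 8) 
(.nd (nat_lit 7) tv4008 tv4009) (.nd (nat_lit 7) tv4010 tv4011)) (.nd (nat_lit 8) 
(.nd (nat_lit 7) tv4012 (.nd (nat_lit 6) tv4013 tv4014)) (.nd (nat_lit 7) tv4015 tv4016)))) 
(.nd (nat_lit 10) (.nd (nat_lit 9) (.nd (nat_lit 8) (.nd (nat_lit 7) tv4017 tv4018) 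
(.nd (nat_lit 7) tv4019 tv4020)) (.nd (nat_lit 8) (.nd (nat_lit 7) tv4021 
(.nd (nat_lit 6) tv4022 tv4023)) (.nd (nat_lit 7) tv4024 tv4025))) (.nd (nat_lit 9) 
(.nd (nat_lit 8) (.nd (nat_lit 7) tv4026 tv4027) (.nd (nat_lit 7) (.nd (nat_lit 6) tv4028 tv4029) 
(.nd (nat_lit 6) tv4030 tv4031))) (.nd (nat_lit 8) (.nd (nat_lit 7) (.nd (nat_lit 6) tv4032 tv4033) 
(.nd (nat_lit 6) tv4034 tv4035)) (.nd (nat_lit 7) tv4036 (.nd (nat_lit 6) tv4037 tv4038)))))) 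
(.nd (nat_lit 11) (.nd (nat_lit 10) (.nd (nat_lit 9) (.nd (nat_lit 8) 
(.nd (nat_lit 7) tv4039 tv4040) (.nd (nat_lit 7) (.nd (nat_lit 6) 
(.nd (nat_lit 5) tv4041 tv4042) tv4043) (.nd (nat_lit 6) tv4044 tv4045))) (.nd (nat_lit 8) 
(.nd (nat_lit 7) tv4046 tv4047) (.nd (nat_lit 7) (.nd (nat_lit 6) tv4048 
(.nd (nat_lit 5) tv4049 tv4050)) (.nd (nat_lit 6) (.nd (nat_lit 5) tv4051 tv4052) tv4053)))) 
(.nd (nat_lit 9) (.nd (nat_lit 8) (.nd (nat_lit 7) (.nd (nat_lit 6) tv4054 tv4055) 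
(.nd (nat_lit 6) tv4056 tv4057)) (.nd (nat_lit 7) (.nd (nat_lit 6) tv4058 tv4059) 
(.nd (nat_lit 6) tv4060 tv4061))) (.nd (nat_lit 8) (.nd (nat_lit 7) (.nd (nat_lit 6) tv4062 
(.nd (nat_lit 5) tv4063 tv4064)) (.nd (nat_lit 6) (.nd (nat_lit 5) tv4065 tv4066) tv4067)) 
(.nd (nat_lit 7) tv4068 (.nd (nat_lit 6) tv4069 tv4070))))) (.nd (nat_lit 10) (.nd (nat_lit 9) 
(.nd (nat_lit 8) (.nd (nat_lit 7) (.nd (nat_lit 6) tv4071 tv4072) (.nd (nat_lit 6) tv4073 tv4074)) 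
(.nd (nat_lit 7) (.nd (nat_lit 6) tv4075 tv4076) (.nd (nat_lit 6) tv4077 tv4078))) (.nd (nat_lit 8) 
(.nd (nat_lit 7) (.nd (nat_lit 6) tv4079 tv4080) (.nd (nat_lit 6) tv4081 tv4082)) (.nd (nat_lit 7) 
(.nd (nat_lit 6) tv4083 tv4084) (.nd (nat_lit 6) tv4085 tv4086)))) (.nd (nat_lit 9) 
(.nd (nat_lit 8) (.nd (nat_lit 7) (.nd (nat_lit 6) tv4087 tv4088) (.nd (nat_lit 6) tv4089 tv4090)) 
(.nd (nat_lit 7) (.nd (nat_lit 6) tv4091 tv4092) (.nd (nat_lit 6) tv4093 tv4094))) (.nd (nat_lit 8) 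
(.nd (nat_lit 7) (.nd (nat_lit 6) tv4095 tv4096) (.nd (nat_lit 6) tv4097 tv4098)) (.nd (nat_lit 7) 
(.nd (nat_lit 6) tv4099 tv4100) (.nd (nat_lit 6) tv4101 tv4102)))))))))) (.nd (nat_lit 15) 
(.nd (nat_lit 14) (.nd (nat_lit 13) (.nd (nat_lit 12) (.nd (nat_lit 11) (.nd (nat_lit 10) 
(.nd (nat_lit 9) (.nd (nat_lit 8) (.nd (nat_lit 7) (.nd (nat_lit 6) tv4103 tv4104) tv4105) 
(.nd (nat_lit 7) tv4106 tv4107)) (.nd (nat_lit 8) (.nd (nat_lit 7) tv4108 tv4109) (.nd (nat_lit 7) 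
(.nd (nat_lit 6) tv4110 tv4111) (.nd (nat_lit 6) tv4112 (.nd (nat_lit 5) tv4113 tv4114))))) 
(.nd (nat_lit 9) (.nd (nat_lit 8) (.nd (nat_lit 7) (.nd (nat_lit 6) tv4115 
(.nd (nat_lit 5) tv4116 tv4117)) tv4118) (.nd (nat_lit 7) (.nd (nat_lit 6) tv4119 tv4120) tv4121)) 
(.nd (nat_lit 8) (.nd (nat_lit 7) (.nd (nat_lit 6) tv4122 tv4123) tv4124) 
(.nd (nat_lit 7) tv4125 tv4126)))) (.nd (nat_lit 10) (.nd (nat_lit 9) (.nd (nat_lit 8) 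
(.nd (nat_lit 7) tv4127 tv4128) (.nd (nat_lit 7) tv4129 (.nd (nat_lit 6) tv4130 tv4131))) 
(.nd (nat_lit 8) (.nd (nat_lit 7) tv4132 tv4133) (.nd (nat_lit 7) 
(.nd (nat_lit 6) tv4134 tv4135) tv4136))) (.nd (nat_lit 9) (.nd (nat_lit 8) (.nd (nat_lit 7) tv4137 
(.nd (nat_lit 6) tv4138 tv4139)) (.nd (nat_lit 7) tv4140 (.nd (nat_lit 6) tv4141 tv4142))) 
(.nd (nat_lit 8) (.nd (nat_lit 7) (.nd (nat_lit 6) tv4143 tv4144) (.nd (nat_lit 6) tv4145 tv4146)) 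
(.nd (nat_lit 7) (.nd (nat_lit 6) tv4147 tv4148) (.nd (nat_lit 6) tv4149 tv4150)))))) 
(.nd (nat_lit 11) (.nd (nat_lit 10) (.nd (nat_lit 9) (.nd (nat_lit 8) (.nd (nat_lit 7) 
(.nd (nat_lit 6) tv4151 tv4152) (.nd (nat_lit 6) tv4153 tv4154)) (.nd (nat_lit 7) (.nd (nat_lit 6) 
(.nd (nat_lit 5) tv4155 tv4156) tv4157) (.nd (nat_lit 6) tv4158 tv4159))) (.nd (nat_lit 8) 
(.nd (nat_lit 7) (.nd (nat_lit 6) tv4160 (.nd (nat_lit 5) tv4161 tv4162)) 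
(.nd (nat_lit 6) tv4163 tv4164)) (.nd (nat_lit 7) (.nd (nat_lit 6) 
(.nd (nat_lit 5) tv4165 tv4166) tv4167) (.nd (nat_lit 6) (.nd (nat_lit 5) tv4168 tv4169) tv4170)))) 
(.nd (nat_lit 9) (.nd (nat_lit 8) (.nd (nat_lit 7) (.nd (nat_lit 6) tv4171 tv4172) 
(.nd (nat_lit 6) tv4173 tv4174)) (.nd (nat_lit 7) (.nd (nat_lit 6) tv4175 tv4176) (.nd (nat_lit 6) 
(.nd (nat_lit 5) tv4177 tv4178) tv4179))) (.nd (nat_lit 8) (.nd (nat_lit 7) tv4180 (.nd (nat_lit 6) 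
(.nd (nat_lit 5) tv4181 tv4182) tv4183)) (.nd (nat_lit 7) (.nd (nat_lit 6) 
(.nd (nat_lit 5) tv4184 tv4185) tv4186) tv4187)))) (.nd (nat_lit 10) (.nd (nat_lit 9) 
(.nd (nat_lit 8) (.nd (nat_lit 7) tv4188 tv4189) (.nd (nat_lit 7) (.nd (nat_lit 6) tv4190 tv4191) 
(.nd (nat_lit 6) tv4192 tv4193))) (.nd (nat_lit 8) (.nd (nat_lit 7) (.nd (nat_lit 6) tv4194 tv4195) 
(.nd (nat_lit 6) tv4196 tv4197)) (.nd (nat_lit 7) (.nd (nat_lit 6) tv4198 tv4199) tv4200))) 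
(.nd (nat_lit 9) (.nd (nat_lit 8) (.nd (nat_lit 7) (.nd (nat_lit 6) tv4201 tv4202) 
(.nd (nat_lit 6) tv4203 tv4204)) (.nd (nat_lit 7) (.nd (nat_lit 6) 
(.nd (nat_lit 5) tv4205 tv4206) tv4207) (.nd (nat_lit 6) tv4208 tv4209))) (.nd (nat_lit 8) 
(.nd (nat_lit 7) tv4210 (.nd (nat_lit 6) tv4211 tv4212)) (.nd (nat_lit 7) 
(.nd (nat_lit 6) tv4213 tv4214) (.nd (nat_lit 6) tv4215 tv4216))))))) (.nd (nat_lit 12) 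
(.nd (nat_lit 11) (.nd (nat_lit 10) (.nd (nat_lit 9) (.nd (nat_lit 8) (.nd (nat_lit 7) 
(.nd (nat_lit 6) tv4217 tv4218) (.nd (nat_lit 6) tv4219 tv4220)) (.nd (nat_lit 7) tv4221 
(.nd (nat_lit 6) tv4222 tv4223))) (.nd (nat_lit 8) (.nd (nat_lit 7) 
(.nd (nat_lit 6) tv4224 tv4225) tv4226) (.nd (nat_lit 7) tv4227 tv4228))) (.nd (nat_lit 9) 
(.nd (nat_lit 8) (.nd (nat_lit 7) tv4229 tv4230) (.nd (nat_lit 7) tv4231 tv4232)) (.nd (nat_lit 8) 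
(.nd (nat_lit 7) (.nd (nat_lit 6) tv4233 tv4234) tv4235) (.nd (nat_lit 7) 
(.nd (nat_lit 6) tv4236 tv4237) tv4238)))) (.nd (nat_lit 10) (.nd (nat_lit 9) (.nd (nat_lit 8) 
(.nd (nat_lit 7) tv4239 tv4240) (.nd (nat_lit 7) (.nd (nat_lit 6) tv4241 tv4242) 
(.nd (nat_lit 6) tv4243 tv4244))) (.nd (nat_lit 8) (.nd (nat_lit 7) (.nd (nat_lit 6) tv4245 tv4246) 
(.nd (nat_lit 6) tv4247 tv4248)) (.nd (nat_lit 7) (.nd (nat_lit 6) tv4249 tv4250) 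
(.nd (nat_lit 6) tv4251 (.nd (nat_lit 5) tv4252 tv4253))))) (.nd (nat_lit 9) (.nd (nat_lit 8) 
(.nd (nat_lit 7) (.nd (nat_lit 6) tv4254 tv4255) (.nd (nat_lit 6) tv4256 tv4257)) 
(.nd (nat_lit 7) tv4258 (.nd (nat_lit 6) tv4259 tv4260))) (.nd (nat_lit 8) (.nd (nat_lit 7) 
(.nd (nat_lit 6) tv4261 tv4262) tv4263) (.nd (nat_lit 7) tv4264 
(.nd (nat_lit 6) tv4265 tv4266)))))) (.nd (nat_lit 11) (.nd (nat_lit 10) (.nd (nat_lit 9) 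
(.nd (nat_lit 8) (.nd (nat_lit 7) (.nd (nat_lit 6) tv4267 tv4268) tv4269) 
(.nd (nat_lit 7) tv4270 tv4271)) (.nd (nat_lit 8) (.nd (nat_lit 7) (.nd (nat_lit 6) tv4272 tv4273) 
(.nd (nat_lit 6) tv4274 tv4275)) (.nd (nat_lit 7) (.nd (nat_lit 6) tv4276 tv4277) tv4278))) 
(.nd (nat_lit 9) (.nd (nat_lit 8) (.nd (nat_lit 7) tv4279 tv4280) (.nd (nat_lit 7) 
(.nd (nat_lit 6) tv4281 tv4282) (.nd (nat_lit 6) tv4283 tv4284))) (.nd (nat_lit 8) 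
(.nd (nat_lit 7) tv4285 tv4286) (.nd (nat_lit 7) (.nd (nat_lit 6) 
(.nd (nat_lit 5) tv4287 tv4288) tv4289) (.nd (nat_lit 6) tv4290 tv4291))))) (.nd (nat_lit 10) 
(.nd (nat_lit 9) (.nd (nat_lit 8) (.nd (nat_lit 7) (.nd (nat_lit 6) tv4292 tv4293) 
(.nd (nat_lit 6) tv4294 tv4295)) (.nd (nat_lit 7) tv4296 tv4297)) (.nd (nat_lit 8) (.nd (nat_lit 7) 
(.nd (nat_lit 6) tv4298 tv4299) tv4300) (.nd (nat_lit 7) (.nd (nat_lit 6) tv4301 tv4302) tv4303))) 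
(.nd (nat_lit 9) (.nd (nat_lit 8) (.nd (nat_lit 7) (.nd (nat_lit 6) tv4304 tv4305) 
(.nd (nat_lit 6) tv4306 tv4307)) (.nd (nat_lit 7) (.nd (nat_lit 6) tv4308 tv4309) 
(.nd (nat_lit 6) tv4310 tv4311))) (.nd (nat_lit 8) (.nd (nat_lit 7) 
(.nd (nat_lit 6) tv4312 tv4313) tv4314) (.nd (nat_lit 7) (.nd (nat_lit 6) tv4315 tv4316) 
(.nd (nat_lit 6) (.nd (nat_lit 5) tv4317 tv4318) tv4319)))))))) (.nd (nat_lit 13) (.nd (nat_lit 12) 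
(.nd (nat_lit 11) (.nd (nat_lit 10) (.nd (nat_lit 9) (.nd (nat_lit 8) (.nd (nat_lit 7) 
(.nd (nat_lit 6) (.nd (nat_lit 5) tv4320 tv4321) (.nd (nat_lit 5) tv4322 tv4323)) (.nd (nat_lit 6) 
(.nd (nat_lit 5) tv4324 tv4325) tv4326)) (.nd (nat_lit 7) (.nd (nat_lit 6) tv4327 tv4328) 
(.nd (nat_lit 6) tv4329 tv4330))) (.nd (nat_lit 8) (.nd (nat_lit 7) (.nd (nat_lit 6) tv4331 tv4332) 
(.nd (nat_lit 6) tv4333 tv4334)) (.nd (nat_lit 7) (.nd (nat_lit 6) tv4335 tv4336) 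
(.nd (nat_lit 6) tv4337 tv4338)))) (.nd (nat_lit 9) (.nd (nat_lit 8) 
(.nd (nat_lit 7) tv4339 tv4340) (.nd (nat_lit 7) (.nd (nat_lit 6) tv4341 tv4342) (.nd (nat_lit 6) 
(.nd (nat_lit 5) tv4343 tv4344) tv4345))) (.nd (nat_lit 8) (.nd (nat_lit 7) tv4346 
(.nd (nat_lit 6) tv4347 tv4348)) (.nd (nat_lit 7) tv4349 tv4350)))) (.nd (nat_lit 10) 
(.nd (nat_lit 9) (.nd (nat_lit 8) (.nd (nat_lit 7) tv4351 (.nd (nat_lit 6) tv4352 tv4353)) 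
(.nd (nat_lit 7) (.nd (nat_lit 6) tv4354 tv4355) tv4356)) (.nd (nat_lit 8) (.nd (nat_lit 7) tv4357 
(.nd (nat_lit 6) tv4358 tv4359)) (.nd (nat_lit 7) tv4360 tv4361))) (.nd (nat_lit 9) 
(.nd (nat_lit 8) (.nd (nat_lit 7) tv4362 (.nd (nat_lit 6) tv4363 tv4364)) (.nd (nat_lit 7) 
(.nd (nat_lit 6) tv4365 tv4366) tv4367)) (.nd (nat_lit 8) (.nd (nat_lit 7) 
(.nd (nat_lit 6) tv4368 tv4369) tv4370) (.nd (nat_lit 7) tv4371 tv4372))))) (.nd (nat_lit 11) 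
(.nd (nat_lit 10) (.nd (nat_lit 9) (.nd (nat_lit 8) (.nd (nat_lit 7) tv4373 tv4374) 
(.nd (nat_lit 7) tv4375 (.nd (nat_lit 6) tv4376 tv4377))) (.nd (nat_lit 8) (.nd (nat_lit 7) 
(.nd (nat_lit 6) tv4378 tv4379) tv4380) (.nd (nat_lit 7) tv4381 tv4382))) (.nd (nat_lit 9) 
(.nd (nat_lit 8) (.nd (nat_lit 7) tv4383 tv4384) (.nd (nat_lit 7) tv4385 tv4386)) (.nd (nat_lit 8) 
(.nd (nat_lit 7) tv4387 tv4388) (.nd (nat_lit 7) tv4389 tv4390)))) (.nd (nat_lit 10) 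
(.nd (nat_lit 9) (.nd (nat_lit 8) (.nd (nat_lit 7) tv4391 tv4392) (.nd (nat_lit 7) tv4393 tv4394)) 
(.nd (nat_lit 8) (.nd (nat_lit 7) (.nd (nat_lit 6) tv4395 tv4396) tv4397) (.nd (nat_lit 7) 
(.nd (nat_lit 6) tv4398 tv4399) tv4400))) (.nd (nat_lit 9) (.nd (nat_lit 8) 
(.nd (nat_lit 7) tv4401 tv4402) (.nd (nat_lit 7) (.nd (nat_lit 6) tv4403 tv4404) tv4405)) 
(.nd (nat_lit 8) (.nd (nat_lit 7) tv4406 tv4407) (.nd (nat_lit 7) tv4408 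
(.nd (nat_lit 6) tv4409 tv4410))))))) (.nd (nat_lit 12) (.nd (nat_lit 11) (.nd (nat_lit 10) 
(.nd (nat_lit 9) (.nd (nat_lit 8) (.nd (nat_lit 7) (.nd (nat_lit 6) tv4411 tv4412) tv4413) 
(.nd (nat_lit 7) (.nd (nat_lit 6) tv4414 tv4415) (.nd (nat_lit 6) tv4416 tv4417))) (.nd (nat_lit 8) 
(.nd (nat_lit 7) (.nd (nat_lit 6) tv4418 tv4419) (.nd (nat_lit 6) tv4420 tv4421)) (.nd (nat_lit 7) 
(.nd (nat_lit 6) tv4422 tv4423) (.nd (nat_lit 6) tv4424 tv4425)))) (.nd (nat_lit 9) 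
(.nd (nat_lit 8) (.nd (nat_lit 7) (.nd (nat_lit 6) tv4426 tv4427) (.nd (nat_lit 6) tv4428 tv4429)) 
(.nd (nat_lit 7) tv4430 (.nd (nat_lit 6) tv4431 tv4432))) (.nd (nat_lit 8) (.nd (nat_lit 7) 
(.nd (nat_lit 6) tv4433 tv4434) tv4435) (.nd (nat_lit 7) tv4436 (.nd (nat_lit 6) tv4437 tv4438))))) 
(.nd (nat_lit 10) (.nd (nat_lit 9) (.nd (nat_lit 8) (.nd (nat_lit 7) 
(.nd (nat_lit 6) tv4439 tv4440) (.nd (nat_lit 6) tv4441 tv4442)) (.nd (nat_lit 7) 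
(.nd (nat_lit 6) tv4443 tv4444) (.nd (nat_lit 6) tv4445 tv4446))) (.nd (nat_lit 8) 
(.nd (nat_lit 7) tv4447 (.nd (nat_lit 6) tv4448 tv4449)) (.nd (nat_lit 7) 
(.nd (nat_lit 6) tv4450 tv4451) (.nd (nat_lit 6) tv4452 tv4453)))) (.nd (nat_lit 9) 
(.nd (nat_lit 8) (.nd (nat_lit 7) tv4454 (.nd (nat_lit 6) tv4455 tv4456)) (.nd (nat_lit 7) 
(.nd (nat_lit 6) tv4457 tv4458) tv4459)) (.nd (nat_lit 8) tv4460 
(.nd (nat_lit 7) tv4461 tv4462))))) (.nd (nat_lit 11) (.nd (nat_lit 10) (.nd (nat_lit 9) 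
(.nd (nat_lit 8) (.nd (nat_lit 7) (.nd (nat_lit 6) tv4463 tv4464) (.nd (nat_lit 6) tv4465 tv4466)) 
(.nd (nat_lit 7) (.nd (nat_lit 6) tv4467 tv4468) (.nd (nat_lit 6) tv4469 tv4470))) (.nd (nat_lit 8) 
(.nd (nat_lit 7) (.nd (nat_lit 6) tv4471 tv4472) (.nd (nat_lit 6) tv4473 tv4474)) 
(.nd (nat_lit 7) tv4475 (.nd (nat_lit 6) tv4476 tv4477)))) (.nd (nat_lit 9) (.nd (nat_lit 8) 
(.nd (nat_lit 7) tv4478 tv4479) (.nd (nat_lit 7) tv4480 tv4481)) (.nd (nat_lit 8) 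
(.nd (nat_lit 7) tv4482 tv4483) (.nd (nat_lit 7) tv4484 tv4485)))) (.nd (nat_lit 10) 
(.nd (nat_lit 9) (.nd (nat_lit 8) (.nd (nat_lit 7) tv4486 (.nd (nat_lit 6) tv4487 tv4488)) 
(.nd (nat_lit 7) (.nd (nat_lit 6) tv4489 tv4490) tv4491)) (.nd (nat_lit 8) (.nd (nat_lit 7) 
(.nd (nat_lit 6) tv4492 tv4493) tv4494) (.nd (nat_lit 7) tv4495 (.nd (nat_lit 6) tv4496 tv4497)))) 
(.nd (nat_lit 9) (.nd (nat_lit 8) (.nd (nat_lit 7) tv4498 tv4499) (.nd (nat_lit 7) tv4500 tv4501)) 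
(.nd (nat_lit 8) (.nd (nat_lit 7) tv4502 tv4503) (.nd (nat_lit 7) tv4504 tv4505)))))))) 
(.nd (nat_lit 14) (.nd (nat_lit 13) (.nd (nat_lit 12) (.nd (nat_lit 11) (.nd (nat_lit 10) 
(.nd (nat_lit 9) (.nd (nat_lit 8) (.nd (nat_lit 7) tv4506 tv4507) (.nd (nat_lit 7) tv4508 tv4509)) 
(.nd (nat_lit 8) (.nd (nat_lit 7) (.nd (nat_lit 6) tv4510 tv4511) tv4512) (.nd (nat_lit 7) 
(.nd (nat_lit 6) tv4513 tv4514) tv4515))) (.nd (nat_lit 9) (.nd (nat_lit 8) 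
(.nd (nat_lit 7) tv4516 tv4517) (.nd (nat_lit 7) (.nd (nat_lit 6) tv4518 tv4519) tv4520)) 
(.nd (nat_lit 8) (.nd (nat_lit 7) (.nd (nat_lit 6) tv4521 tv4522) (.nd (nat_lit 6) tv4523 tv4524)) 
(.nd (nat_lit 7) (.nd (nat_lit 6) tv4525 tv4526) tv4527)))) (.nd (nat_lit 10) (.nd (nat_lit 9) 
(.nd (nat_lit 8) (.nd (nat_lit 7) (.nd (nat_lit 6) tv4528 tv4529) tv4530) 
(.nd (nat_lit 7) tv4531 tv4532)) (.nd (nat_lit 8) (.nd (nat_lit 7) tv4533 (.nd (nat_lit 6) tv4534 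
(.nd (nat_lit 5) tv4535 tv4536))) (.nd (nat_lit 7) (.nd (nat_lit 6) tv4537 tv4538) tv4539))) 
(.nd (nat_lit 9) (.nd (nat_lit 8) (.nd (nat_lit 7) (.nd (nat_lit 6) tv4540 tv4541) tv4542) 
(.nd (nat_lit 7) tv4543 (.nd (nat_lit 6) tv4544 tv4545))) (.nd (nat_lit 8) (.nd (nat_lit 7) 
(.nd (nat_lit 6) tv4546 tv4547) tv4548) (.nd (nat_lit 7) tv4549 tv4550))))) (.nd (nat_lit 11) 
(.nd (nat_lit 10) (.nd (nat_lit 9) (.nd (nat_lit 8) (.nd (nat_lit 7) 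
(.nd (nat_lit 6) tv4551 tv4552) (.nd (nat_lit 6) tv4553 tv4554)) (.nd (nat_lit 7) tv4555 tv4556)) 
(.nd (nat_lit 8) (.nd (nat_lit 7) tv4557 (.nd (nat_lit 6) tv4558 tv4559)) 
(.nd (nat_lit 7) tv4560 tv4561))) (.nd (nat_lit 9) (.nd (nat_lit 8) (.nd (nat_lit 7) 
(.nd (nat_lit 6) tv4562 tv4563) (.nd (nat_lit 6) tv4564 tv4565)) (.nd (nat_lit 7) 
(.nd (nat_lit 6) tv4566 tv4567) tv4568)) (.nd (nat_lit 8) (.nd (nat_lit 7) tv4569 tv4570) 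
(.nd (nat_lit 7) (.nd (nat_lit 6) tv4571 tv4572) (.nd (nat_lit 6) tv4573 tv4574))))) 
(.nd (nat_lit 10) (.nd (nat_lit 9) (.nd (nat_lit 8) (.nd (nat_lit 7) 
(.nd (nat_lit 6) tv4575 tv4576) (.nd (nat_lit 6) tv4577 tv4578)) (.nd (nat_lit 7) (.nd (nat_lit 6) 
(.nd (nat_lit 5) tv4579 tv4580) tv4581) tv4582)) (.nd (nat_lit 8) (.nd (nat_lit 7) 
(.nd (nat_lit 6) tv4583 tv4584) (.nd (nat_lit 6) tv4585 tv4586)) (.nd (nat_lit 7) tv4587 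
(.nd (nat_lit 6) tv4588 tv4589)))) (.nd (nat_lit 9) (.nd (nat_lit 8) (.nd (nat_lit 7) tv4590 
(.nd (nat_lit 6) tv4591 tv4592)) (.nd (nat_lit 7) (.nd (nat_lit 6) tv4593 tv4594) tv4595)) 
(.nd (nat_lit 8) (.nd (nat_lit 7) (.nd (nat_lit 6) tv4596 tv4597) tv4598) (.nd (nat_lit 7) 
(.nd (nat_lit 6) tv4599 tv4600) tv4601)))))) (.nd (nat_lit 12) (.nd (nat_lit 11) (.nd (nat_lit 10) 
(.nd (nat_lit 9) (.nd (nat_lit 8) (.nd (nat_lit 7) tv4602 tv4603) (.nd (nat_lit 7) tv4604 tv4605)) 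
(.nd (nat_lit 8) (.nd (nat_lit 7) tv4606 tv4607) (.nd (nat_lit 7) tv4608 tv4609))) (.nd (nat_lit 9) 
(.nd (nat_lit 8) (.nd (nat_lit 7) (.nd (nat_lit 6) tv4610 tv4611) (.nd (nat_lit 6) tv4612 tv4613)) 
(.nd (nat_lit 7) (.nd (nat_lit 6) tv4614 tv4615) tv4616)) (.nd (nat_lit 8) 
(.nd (nat_lit 7) tv4617 tv4618) (.nd (nat_lit 7) tv4619 (.nd (nat_lit 6) tv4620 tv4621))))) 
(.nd (nat_lit 10) (.nd (nat_lit 9) (.nd (nat_lit 8) (.nd (nat_lit 7) tv4622 tv4623) 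
(.nd (nat_lit 7) tv4624 tv4625)) (.nd (nat_lit 8) (.nd (nat_lit 7) tv4626 
(.nd (nat_lit 6) tv4627 tv4628)) (.nd (nat_lit 7) tv4629 tv4630))) (.nd (nat_lit 9) 
(.nd (nat_lit 8) (.nd (nat_lit 7) (.nd (nat_lit 6) tv4631 tv4632) tv4633) 
(.nd (nat_lit 7) tv4634 tv4635)) (.nd (nat_lit 8) (.nd (nat_lit 7) 
(.nd (nat_lit 6) tv4636 tv4637) tv4638) (.nd (nat_lit 7) tv4639 
(.nd (nat_lit 6) tv4640 tv4641)))))) (.nd (nat_lit 11) (.nd (nat_lit 10) (.nd (nat_lit 9) 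
(.nd (nat_lit 8) (.nd (nat_lit 7) tv4642 (.nd (nat_lit 6) tv4643 tv4644)) 
(.nd (nat_lit 7) tv4645 tv4646)) (.nd (nat_lit 8) (.nd (nat_lit 7) tv4647 tv4648) (.nd (nat_lit 7) 
(.nd (nat_lit 6) tv4649 tv4650) tv4651))) (.nd (nat_lit 9) (.nd (nat_lit 8) (.nd (nat_lit 7) tv4652 
(.nd (nat_lit 6) tv4653 tv4654)) (.nd (nat_lit 7) tv4655 tv4656)) (.nd (nat_lit 8) 
(.nd (nat_lit 7) tv4657 tv4658) (.nd (nat_lit 7) tv4659 tv4660)))) (.nd (nat_lit 10) 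
(.nd (nat_lit 9) (.nd (nat_lit 8) (.nd (nat_lit 7) tv4661 tv4662) (.nd (nat_lit 7) tv4663 tv4664)) 
(.nd (nat_lit 8) (.nd (nat_lit 7) (.nd (nat_lit 6) tv4665 tv4666) tv4667) (.nd (nat_lit 7) 
(.nd (nat_lit 6) tv4668 tv4669) (.nd (nat_lit 6) tv4670 tv4671)))) (.nd (nat_lit 9) 
(.nd (nat_lit 8) (.nd (nat_lit 7) (.nd (nat_lit 6) tv4672 tv4673) (.nd (nat_lit 6) tv4674 tv4675)) 
(.nd (nat_lit 7) tv4676 tv4677)) (.nd (nat_lit 8) (.nd (nat_lit 7) tv4678 tv4679) 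
(.nd (nat_lit 7) tv4680 tv4681))))))) (.nd (nat_lit 13) (.nd (nat_lit 12) (.nd (nat_lit 11) 
(.nd (nat_lit 10) (.nd (nat_lit 9) (.nd (nat_lit 8) (.nd (nat_lit 7) tv4682 tv4683) 
(.nd (nat_lit 7) tv4684 tv4685)) (.nd (nat_lit 8) (.nd (nat_lit 7) tv4686 tv4687) (.nd (nat_lit 7) 
(.nd (nat_lit 6) tv4688 tv4689) (.nd (nat_lit 6) tv4690 tv4691)))) (.nd (nat_lit 9) 
(.nd (nat_lit 8) (.nd (nat_lit 7) (.nd (nat_lit 6) tv4692 tv4693) tv4694) 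
(.nd (nat_lit 7) tv4695 tv4696)) (.nd (nat_lit 8) (.nd (nat_lit 7) tv4697 
(.nd (nat_lit 6) tv4698 tv4699)) (.nd (nat_lit 7) (.nd (nat_lit 6) tv4700 tv4701) 
(.nd (nat_lit 6) tv4702 tv4703))))) (.nd (nat_lit 10) (.nd (nat_lit 9) (.nd (nat_lit 8) 
(.nd (nat_lit 7) tv4704 (.nd (nat_lit 6) tv4705 tv4706)) (.nd (nat_lit 7) tv4707 tv4708)) 
(.nd (nat_lit 8) (.nd (nat_lit 7) tv4709 tv4710) (.nd (nat_lit 7) tv4711 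
(.nd (nat_lit 6) tv4712 tv4713)))) (.nd (nat_lit 9) (.nd (nat_lit 8) 
(.nd (nat_lit 7) tv4714 tv4715) (.nd (nat_lit 7) tv4716 tv4717)) (.nd (nat_lit 8) (.nd (nat_lit 7) 
(.nd (nat_lit 6) tv4718 tv4719) (.nd (nat_lit 6) tv4720 tv4721)) (.nd (nat_lit 7) 
(.nd (nat_lit 6) tv4722 tv4723) (.nd (nat_lit 6) tv4724 tv4725)))))) (.nd (nat_lit 11) 
(.nd (nat_lit 10) (.nd (nat_lit 9) (.nd (nat_lit 8) (.nd (nat_lit 7) tv4726 tv4727) 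
(.nd (nat_lit 7) (.nd (nat_lit 6) tv4728 tv4729) (.nd (nat_lit 6) tv4730 tv4731))) (.nd (nat_lit 8) 
(.nd (nat_lit 7) (.nd (nat_lit 6) tv4732 tv4733) (.nd (nat_lit 6) tv4734 tv4735)) (.nd (nat_lit 7) 
(.nd (nat_lit 6) (.nd (nat_lit 5) tv4736 tv4737) tv4738) (.nd (nat_lit 6) tv4739 tv4740)))) 
(.nd (nat_lit 9) (.nd (nat_lit 8) (.nd (nat_lit 7) (.nd (nat_lit 6) tv4741 tv4742) 
(.nd (nat_lit 6) tv4743 tv4744)) (.nd (nat_lit 7) tv4745 tv4746)) (.nd (nat_lit 8) (.nd (nat_lit 7) 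
(.nd (nat_lit 6) tv4747 tv4748) tv4749) (.nd (nat_lit 7) (.nd (nat_lit 6) tv4750 tv4751) tv4752)))) 
(.nd (nat_lit 10) (.nd (nat_lit 9) (.nd (nat_lit 8) (.nd (nat_lit 7) tv4753 tv4754) 
(.nd (nat_lit 7) tv4755 (.nd (nat_lit 6) tv4756 tv4757))) (.nd (nat_lit 8) 
(.nd (nat_lit 7) tv4758 tv4759) (.nd (nat_lit 7) tv4760 tv4761))) (.nd (nat_lit 9) (.nd (nat_lit 8) 
(.nd (nat_lit 7) tv4762 tv4763) (.nd (nat_lit 7) tv4764 (.nd (nat_lit 6) tv4765 tv4766))) 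
(.nd (nat_lit 8) (.nd (nat_lit 7) (.nd (nat_lit 6) (.nd (nat_lit 5) tv4767 tv4768) tv4769) 
(.nd (nat_lit 6) tv4770 tv4771)) (.nd (nat_lit 7) (.nd (nat_lit 6) tv4772 tv4773) 
(.nd (nat_lit 6) tv4774 tv4775))))))) (.nd (nat_lit 12) (.nd (nat_lit 11) (.nd (nat_lit 10) 
(.nd (nat_lit 9) (.nd (nat_lit 8) (.nd (nat_lit 7) tv4776 (.nd (nat_lit 6) tv4777 tv4778)) 
(.nd (nat_lit 7) tv4779 (.nd (nat_lit 6) tv4780 tv4781))) (.nd (nat_lit 8) 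
(.nd (nat_lit 7) tv4782 tv4783) (.nd (nat_lit 7) tv4784 tv4785))) (.nd (nat_lit 9) (.nd (nat_lit 8) 
(.nd (nat_lit 7) tv4786 tv4787) (.nd (nat_lit 7) tv4788 tv4789)) (.nd (nat_lit 8) 
(.nd (nat_lit 7) tv4790 tv4791) (.nd (nat_lit 7) (.nd (nat_lit 6) tv4792 tv4793) tv4794)))) 
(.nd (nat_lit 10) (.nd (nat_lit 9) (.nd (nat_lit 8) (.nd (nat_lit 7) 
(.nd (nat_lit 6) tv4795 tv4796) tv4797) (.nd (nat_lit 7) tv4798 tv4799)) (.nd (nat_lit 8) 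
(.nd (nat_lit 7) (.nd (nat_lit 6) tv4800 tv4801) tv4802) (.nd (nat_lit 7) 
(.nd (nat_lit 6) tv4803 tv4804) tv4805))) (.nd (nat_lit 9) (.nd (nat_lit 8) (.nd (nat_lit 7) 
(.nd (nat_lit 6) tv4806 tv4807) tv4808) (.nd (nat_lit 7) (.nd (nat_lit 6) tv4809 tv4810) tv4811)) 
(.nd (nat_lit 8) (.nd (nat_lit 7) (.nd (nat_lit 6) tv4812 tv4813) (.nd (nat_lit 6) tv4814 tv4815)) 
(.nd (nat_lit 7) tv4816 tv4817))))) (.nd (nat_lit 11) (.nd (nat_lit 10) (.nd (nat_lit 9) 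
(.nd (nat_lit 8) (.nd (nat_lit 7) (.nd (nat_lit 6) tv4818 tv4819) (.nd (nat_lit 6) tv4820 tv4821)) 
(.nd (nat_lit 7) tv4822 tv4823)) (.nd (nat_lit 8) (.nd (nat_lit 7) (.nd (nat_lit 6) tv4824 tv4825) 
(.nd (nat_lit 6) tv4826 (.nd (nat_lit 5) tv4827 tv4828))) (.nd (nat_lit 7) 
(.nd (nat_lit 6) tv4829 tv4830) (.nd (nat_lit 6) tv4831 tv4832)))) (.nd (nat_lit 9) 
(.nd (nat_lit 8) (.nd (nat_lit 7) (.nd (nat_lit 6) tv4833 tv4834) (.nd (nat_lit 6) tv4835 tv4836)) 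
(.nd (nat_lit 7) (.nd (nat_lit 6) tv4837 tv4838) (.nd (nat_lit 6) tv4839 tv4840))) (.nd (nat_lit 8) 
(.nd (nat_lit 7) (.nd (nat_lit 6) tv4841 tv4842) tv4843) (.nd (nat_lit 7) tv4844 
(.nd (nat_lit 6) tv4845 tv4846))))) (.nd (nat_lit 10) (.nd (nat_lit 9) (.nd (nat_lit 8) 
(.nd (nat_lit 7) tv4847 tv4848) (.nd (nat_lit 7) (.nd (nat_lit 6) tv4849 tv4850) tv4851)) 
(.nd (nat_lit 8) (.nd (nat_lit 7) tv4852 tv4853) (.nd (nat_lit 7) 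
(.nd (nat_lit 6) tv4854 tv4855) tv4856))) (.nd (nat_lit 9) (.nd (nat_lit 8) (.nd (nat_lit 7) 
(.nd (nat_lit 6) tv4857 tv4858) tv4859) (.nd (nat_lit 7) tv4860 tv4861)) (.nd (nat_lit 8) 
(.nd (nat_lit 7) tv4862 tv4863) (.nd (nat_lit 7) tv4864 tv4865)))))))))) (.nd (nat_lit 16) 
(.nd (nat_lit 15) (.nd (nat_lit 14) (.nd (nat_lit 13) (.nd (nat_lit 12) (.nd (nat_lit 11) 
(.nd (nat_lit 10) (.nd (nat_lit 9) (.nd (nat_lit 8) (.nd (nat_lit 7) tv4866 tv4867) 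
(.nd (nat_lit 7) tv4868 tv4869)) (.nd (nat_lit 8) (.nd (nat_lit 7) 
(.nd (nat_lit 6) tv4870 tv4871) tv4872) (.nd (nat_lit 7) tv4873 tv4874))) (.nd (nat_lit 9) 
(.nd (nat_lit 8) (.nd (nat_lit 7) tv4875 tv4876) (.nd (nat_lit 7) 
(.nd (nat_lit 6) tv4877 tv4878) tv4879)) (.nd (nat_lit 8) (.nd (nat_lit 7) 
(.nd (nat_lit 6) tv4880 tv4881) (.nd (nat_lit 6) tv4882 tv4883)) (.nd (nat_lit 7) 
(.nd (nat_lit 6) tv4884 tv4885) tv4886)))) (.nd (nat_lit 10) (.nd (nat_lit 9) (.nd (nat_lit 8) 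
(.nd (nat_lit 7) tv4887 (.nd (nat_lit 6) tv4888 tv4889)) (.nd (nat_lit 7) 
(.nd (nat_lit 6) tv4890 tv4891) (.nd (nat_lit 6) tv4892 tv4893))) (.nd (nat_lit 8) 
(.nd (nat_lit 7) tv4894 (.nd (nat_lit 6) tv4895 tv4896)) (.nd (nat_lit 7) 
(.nd (nat_lit 6) tv4897 tv4898) (.nd (nat_lit 6) tv4899 tv4900)))) (.nd (nat_lit 9) 
(.nd (nat_lit 8) (.nd (nat_lit 7) tv4901 tv4902) (.nd (nat_lit 7) (.nd (nat_lit 6) tv4903 tv4904) 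
(.nd (nat_lit 6) tv4905 tv4906))) (.nd (nat_lit 8) (.nd (nat_lit 7) (.nd (nat_lit 6) tv4907 tv4908) 
(.nd (nat_lit 6) tv4909 tv4910)) (.nd (nat_lit 7) tv4911 tv4912))))) (.nd (nat_lit 11) 
(.nd (nat_lit 10) (.nd (nat_lit 9) (.nd (nat_lit 8) (.nd (nat_lit 7) tv4913 
(.nd (nat_lit 6) tv4914 tv4915)) (.nd (nat_lit 7) (.nd (nat_lit 6) tv4916 tv4917) tv4918)) 
(.nd (nat_lit 8) (.nd (nat_lit 7) tv4919 tv4920) (.nd (nat_lit 7) (.nd (nat_lit 6) tv4921 tv4922) 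
(.nd (nat_lit 6) tv4923 tv4924)))) (.nd (nat_lit 9) (.nd (nat_lit 8) (.nd (nat_lit 7) 
(.nd (nat_lit 6) tv4925 tv4926) (.nd (nat_lit 6) tv4927 tv4928)) (.nd (nat_lit 7) tv4929 tv4930)) 
(.nd (nat_lit 8) (.nd (nat_lit 7) tv4931 tv4932) (.nd (nat_lit 7) tv4933 
(.nd (nat_lit 6) tv4934 tv4935))))) (.nd (nat_lit 10) (.nd (nat_lit 9) (.nd (nat_lit 8) 
(.nd (nat_lit 7) tv4936 (.nd (nat_lit 6) tv4937 tv4938)) (.nd (nat_lit 7) tv4939 tv4940)) 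
(.nd (nat_lit 8) (.nd (nat_lit 7) (.nd (nat_lit 6) tv4941 tv4942) (.nd (nat_lit 6) tv4943 tv4944)) 
(.nd (nat_lit 7) (.nd (nat_lit 6) tv4945 tv4946) (.nd (nat_lit 6) tv4947 tv4948)))) 
(.nd (nat_lit 9) (.nd (nat_lit 8) (.nd (nat_lit 7) (.nd (nat_lit 6) tv4949 tv4950) 
(.nd (nat_lit 6) tv4951 tv4952)) (.nd (nat_lit 7) (.nd (nat_lit 6) (.nd (nat_lit 5) tv4953 tv4954) 
(.nd (nat_lit 5) tv4955 tv4956)) tv4957)) (.nd (nat_lit 8) (.nd (nat_lit 7) 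
(.nd (nat_lit 6) tv4958 tv4959) tv4960) (.nd (nat_lit 7) 
(.nd (nat_lit 6) tv4961 tv4962) tv4963)))))) (.nd (nat_lit 12) (.nd (nat_lit 11) (.nd (nat_lit 10) 
(.nd (nat_lit 9) (.nd (nat_lit 8) (.nd (nat_lit 7) tv4964 tv4965) (.nd (nat_lit 7) tv4966 tv4967)) 
(.nd (nat_lit 8) (.nd (nat_lit 7) tv4968 (.nd (nat_lit 6) tv4969 tv4970)) (.nd (nat_lit 7) 
(.nd (nat_lit 6) tv4971 tv4972) (.nd (nat_lit 6) tv4973 tv4974)))) (.nd (nat_lit 9) 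
(.nd (nat_lit 8) (.nd (nat_lit 7) (.nd (nat_lit 6) tv4975 tv4976) tv4977) 
(.nd (nat_lit 7) tv4978 tv4979)) (.nd (nat_lit 8) (.nd (nat_lit 7) tv4980 tv4981) (.nd (nat_lit 7) 
(.nd (nat_lit 6) tv4982 tv4983) tv4984)))) (.nd (nat_lit 10) (.nd (nat_lit 9) (.nd (nat_lit 8) 
(.nd (nat_lit 7) tv4985 (.nd (nat_lit 6) tv4986 tv4987)) (.nd (nat_lit 7) tv4988 tv4989)) 
(.nd (nat_lit 8) (.nd (nat_lit 7) tv4990 tv4991) (.nd (nat_lit 7) tv4992 tv4993))) (.nd (nat_lit 9) 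
(.nd (nat_lit 8) (.nd (nat_lit 7) tv4994 tv4995) (.nd (nat_lit 7) tv4996 
(.nd (nat_lit 6) tv4997 tv4998))) (.nd (nat_lit 8) (.nd (nat_lit 7) tv4999 tv5000) (.nd (nat_lit 7) 
(.nd (nat_lit 6) tv5001 tv5002) (.nd (nat_lit 6) tv5003 tv5004)))))) (.nd (nat_lit 11) 
(.nd (nat_lit 10) (.nd (nat_lit 9) (.nd (nat_lit 8) (.nd (nat_lit 7) 
(.nd (nat_lit 6) tv5005 tv5006) tv5007) (.nd (nat_lit 7) (.nd (nat_lit 6) tv5008 tv5009) tv5010)) 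
(.nd (nat_lit 8) (.nd (nat_lit 7) tv5011 tv5012) (.nd (nat_lit 7) (.nd (nat_lit 6) tv5013 tv5014) 
(.nd (nat_lit 6) tv5015 tv5016)))) (.nd (nat_lit 9) (.nd (nat_lit 8) (.nd (nat_lit 7) tv5017 
(.nd (nat_lit 6) tv5018 tv5019)) (.nd (nat_lit 7) (.nd (nat_lit 6) tv5020 tv5021) 
(.nd (nat_lit 6) tv5022 tv5023))) (.nd (nat_lit 8) (.nd (nat_lit 7) tv5024 tv5025) 
(.nd (nat_lit 7) tv5026 tv5027)))) (.nd (nat_lit 10) (.nd (nat_lit 9) (.nd (nat_lit 8) 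
(.nd (nat_lit 7) (.nd (nat_lit 6) tv5028 (.nd (nat_lit 5) tv5029 tv5030)) (.nd (nat_lit 6) 
(.nd (nat_lit 5) tv5031 tv5032) tv5033)) (.nd (nat_lit 7) tv5034 (.nd (nat_lit 6) tv5035 tv5036))) 
(.nd (nat_lit 8) (.nd (nat_lit 7) (.nd (nat_lit 6) tv5037 tv5038) tv5039) (.nd (nat_lit 7) 
(.nd (nat_lit 6) tv5040 tv5041) tv5042))) (.nd (nat_lit 9) (.nd (nat_lit 8) (.nd (nat_lit 7) 
(.nd (nat_lit 6) tv5043 tv5044) (.nd (nat_lit 6) tv5045 tv5046)) (.nd (nat_lit 7) 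
(.nd (nat_lit 6) tv5047 tv5048) tv5049)) (.nd (nat_lit 8) (.nd (nat_lit 7) tv5050 tv5051) 
(.nd (nat_lit 7) tv5052 (.nd (nat_lit 6) tv5053 tv5054)))))))) (.nd (nat_lit 13) (.nd (nat_lit 12) 
(.nd (nat_lit 11) (.nd (nat_lit 10) (.nd (nat_lit 9) (.nd (nat_lit 8) (.nd (nat_lit 7) 
(.nd (nat_lit 6) tv5055 tv5056) (.nd (nat_lit 6) tv5057 tv5058)) (.nd (nat_lit 7) tv5059 tv5060)) 
(.nd (nat_lit 8) (.nd (nat_lit 7) (.nd (nat_lit 6) tv5061 tv5062) (.nd (nat_lit 6) tv5063 tv5064)) 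
(.nd (nat_lit 7) (.nd (nat_lit 6) (.nd (nat_lit 5) tv5065 tv5066) tv5067) 
(.nd (nat_lit 6) tv5068 tv5069)))) (.nd (nat_lit 9) (.nd (nat_lit 8) 
(.nd (nat_lit 7) tv5070 tv5071) (.nd (nat_lit 7) (.nd (nat_lit 6) tv5072 tv5073) 
(.nd (nat_lit 6) tv5074 tv5075))) (.nd (nat_lit 8) (.nd (nat_lit 7) tv5076 
(.nd (nat_lit 6) tv5077 tv5078)) (.nd (nat_lit 7) tv5079 (.nd (nat_lit 6) tv5080 tv5081))))) 
(.nd (nat_lit 10) (.nd (nat_lit 9) (.nd (nat_lit 8) (.nd (nat_lit 7) tv5082 tv5083) 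
(.nd (nat_lit 7) tv5084 tv5085)) (.nd (nat_lit 8) (.nd (nat_lit 7) tv5086 
(.nd (nat_lit 6) tv5087 tv5088)) (.nd (nat_lit 7) (.nd (nat_lit 6) tv5089 tv5090) 
(.nd (nat_lit 6) tv5091 tv5092)))) (.nd (nat_lit 9) (.nd (nat_lit 8) (.nd (nat_lit 7) 
(.nd (nat_lit 6) tv5093 tv5094) (.nd (nat_lit 6) tv5095 tv5096)) (.nd (nat_lit 7) tv5097 
(.nd (nat_lit 6) tv5098 tv5099))) (.nd (nat_lit 8) (.nd (nat_lit 7) (.nd (nat_lit 6) tv5100 tv5101) 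
(.nd (nat_lit 6) tv5102 tv5103)) (.nd (nat_lit 7) (.nd (nat_lit 6) tv5104 tv5105) tv5106))))) 
(.nd (nat_lit 11) (.nd (nat_lit 10) (.nd (nat_lit 9) (.nd (nat_lit 8) (.nd (nat_lit 7) 
(.nd (nat_lit 6) tv5107 tv5108) (.nd (nat_lit 6) tv5109 tv5110)) (.nd (nat_lit 7) 
(.nd (nat_lit 6) tv5111 tv5112) (.nd (nat_lit 6) tv5113 tv5114))) (.nd (nat_lit 8) 
(.nd (nat_lit 7) tv5115 (.nd (nat_lit 6) tv5116 tv5117)) (.nd (nat_lit 7) 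
(.nd (nat_lit 6) tv5118 tv5119) (.nd (nat_lit 6) tv5120 tv5121)))) (.nd (nat_lit 9) 
(.nd (nat_lit 8) (.nd (nat_lit 7) tv5122 tv5123) (.nd (nat_lit 7) tv5124 tv5125)) (.nd (nat_lit 8) 
(.nd (nat_lit 7) tv5126 (.nd (nat_lit 6) tv5127 tv5128)) (.nd (nat_lit 7) tv5129 tv5130)))) 
(.nd (nat_lit 10) (.nd (nat_lit 9) (.nd (nat_lit 8) (.nd (nat_lit 7) tv5131 
(.nd (nat_lit 6) tv5132 tv5133)) (.nd (nat_lit 7) (.nd (nat_lit 6) tv5134 tv5135) 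
(.nd (nat_lit 6) tv5136 tv5137))) (.nd (nat_lit 8) (.nd (nat_lit 7) (.nd (nat_lit 6) tv5138 tv5139) 
(.nd (nat_lit 6) tv5140 tv5141)) (.nd (nat_lit 7) (.nd (nat_lit 6) tv5142 tv5143) tv5144))) 
(.nd (nat_lit 9) (.nd (nat_lit 8) (.nd (nat_lit 7) (.nd (nat_lit 6) tv5145 tv5146) (.nd (nat_lit 6) 
(.nd (nat_lit 5) tv5147 tv5148) tv5149)) (.nd (nat_lit 7) (.nd (nat_lit 6) tv5150 tv5151) 
(.nd (nat_lit 6) tv5152 tv5153))) (.nd (nat_lit 8) (.nd (nat_lit 7) tv5154 tv5155) 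
(.nd (nat_lit 7) tv5156 tv5157)))))) (.nd (nat_lit 12) (.nd (nat_lit 11) (.nd (nat_lit 10) 
(.nd (nat_lit 9) (.nd (nat_lit 8) (.nd (nat_lit 7) tv5158 tv5159) (.nd (nat_lit 7) tv5160 tv5161)) 
(.nd (nat_lit 8) (.nd (nat_lit 7) (.nd (nat_lit 6) tv5162 tv5163) (.nd (nat_lit 6) tv5164 tv5165)) 
(.nd (nat_lit 7) (.nd (nat_lit 6) tv5166 tv5167) (.nd (nat_lit 6) (.nd (nat_lit 5) tv5168 tv5169) 
(.nd (nat_lit 5) tv5170 tv5171))))) (.nd (nat_lit 9) (.nd (nat_lit 8) (.nd (nat_lit 7) 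
(.nd (nat_lit 6) (.nd (nat_lit 5) tv5172 tv5173) (.nd (nat_lit 5) tv5174 tv5175)) (.nd (nat_lit 6) 
(.nd (nat_lit 5) tv5176 tv5177) tv5178)) (.nd (nat_lit 7) (.nd (nat_lit 6) 
(.nd (nat_lit 5) tv5179 tv5180) tv5181) (.nd (nat_lit 6) tv5182 tv5183))) (.nd (nat_lit 8) 
(.nd (nat_lit 7) (.nd (nat_lit 6) tv5184 tv5185) (.nd (nat_lit 6) tv5186 tv5187)) (.nd (nat_lit 7) 
(.nd (nat_lit 6) tv5188 tv5189) (.nd (nat_lit 6) tv5190 tv5191))))) (.nd (nat_lit 10) 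
(.nd (nat_lit 9) (.nd (nat_lit 8) (.nd (nat_lit 7) tv5192 (.nd (nat_lit 6) tv5193 tv5194)) 
(.nd (nat_lit 7) (.nd (nat_lit 6) tv5195 tv5196) (.nd (nat_lit 6) tv5197 tv5198))) (.nd (nat_lit 8) 
(.nd (nat_lit 7) tv5199 (.nd (nat_lit 6) tv5200 tv5201)) (.nd (nat_lit 7) tv5202 tv5203))) 
(.nd (nat_lit 9) (.nd (nat_lit 8) (.nd (nat_lit 7) tv5204 tv5205) (.nd (nat_lit 7) tv5206 tv5207)) 
(.nd (nat_lit 8) (.nd (nat_lit 7) tv5208 tv5209) (.nd (nat_lit 7) tv5210 tv5211))))) 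
(.nd (nat_lit 11) (.nd (nat_lit 10) (.nd (nat_lit 9) (.nd (nat_lit 8) (.nd (nat_lit 7) 
(.nd (nat_lit 6) tv5212 tv5213) tv5214) (.nd (nat_lit 7) tv5215 tv5216)) (.nd (nat_lit 8) 
(.nd (nat_lit 7) tv5217 tv5218) (.nd (nat_lit 7) tv5219 tv5220))) (.nd (nat_lit 9) (.nd (nat_lit 8) 
(.nd (nat_lit 7) tv5221 tv5222) (.nd (nat_lit 7) tv5223 tv5224)) (.nd (nat_lit 8) 
(.nd (nat_lit 7) tv5225 tv5226) (.nd (nat_lit 7) tv5227 (.nd (nat_lit 6) tv5228 tv5229))))) 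
(.nd (nat_lit 10) (.nd (nat_lit 9) (.nd (nat_lit 8) (.nd (nat_lit 7) 
(.nd (nat_lit 6) tv5230 tv5231) tv5232) (.nd (nat_lit 7) (.nd (nat_lit 6) tv5233 tv5234) 
(.nd (nat_lit 6) tv5235 tv5236))) (.nd (nat_lit 8) (.nd (nat_lit 7) 
(.nd (nat_lit 6) tv5237 tv5238) tv5239) (.nd (nat_lit 7) tv5240 (.nd (nat_lit 6) tv5241 tv5242)))) 
(.nd (nat_lit 9) (.nd (nat_lit 8) (.nd (nat_lit 7) (.nd (nat_lit 6) tv5243 tv5244) tv5245) 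
(.nd (nat_lit 7) tv5246 tv5247)) (.nd (nat_lit 8) (.nd (nat_lit 7) (.nd (nat_lit 6) tv5248 tv5249) 
(.nd (nat_lit 6) tv5250 tv5251)) (.nd (nat_lit 7) tv5252 tv5253)))))))) (.nd (nat_lit 14) 
(.nd (nat_lit 13) (.nd (nat_lit 12) (.nd (nat_lit 11) (.nd (nat_lit 10) (.nd (nat_lit 9) 
(.nd (nat_lit 8) (.nd (nat_lit 7) (.nd (nat_lit 6) tv5254 tv5255) (.nd (nat_lit 6) tv5256 tv5257)) 
(.nd (nat_lit 7) (.nd (nat_lit 6) tv5258 tv5259) (.nd (nat_lit 6) tv5260 tv5261))) (.nd (nat_lit 8) 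
(.nd (nat_lit 7) tv5262 (.nd (nat_lit 6) tv5263 tv5264)) (.nd (nat_lit 7) 
(.nd (nat_lit 6) tv5265 tv5266) tv5267))) (.nd (nat_lit 9) (.nd (nat_lit 8) 
(.nd (nat_lit 7) tv5268 tv5269) (.nd (nat_lit 7) (.nd (nat_lit 6) 
(.nd (nat_lit 5) tv5270 tv5271) tv5272) tv5273)) (.nd (nat_lit 8) (.nd (nat_lit 7) 
(.nd (nat_lit 6) tv5274 tv5275) (.nd (nat_lit 6) tv5276 (.nd (nat_lit 5) tv5277 tv5278))) 
(.nd (nat_lit 7) (.nd (nat_lit 6) (.nd (nat_lit 5) tv5279 tv5280) tv5281) tv5282)))) 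
(.nd (nat_lit 10) (.nd (nat_lit 9) (.nd (nat_lit 8) (.nd (nat_lit 7) tv5283 tv5284) 
(.nd (nat_lit 7) tv5285 (.nd (nat_lit 6) tv5286 tv5287))) (.nd (nat_lit 8) (.nd (nat_lit 7) 
(.nd (nat_lit 6) tv5288 tv5289) (.nd (nat_lit 6) tv5290 tv5291)) (.nd (nat_lit 7) 
(.nd (nat_lit 6) tv5292 tv5293) (.nd (nat_lit 6) tv5294 tv5295)))) (.nd (nat_lit 9) 
(.nd (nat_lit 8) (.nd (nat_lit 7) tv5296 tv5297) (.nd (nat_lit 7) tv5298 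
(.nd (nat_lit 6) tv5299 tv5300))) (.nd (nat_lit 8) (.nd (nat_lit 7) (.nd (nat_lit 6) tv5301 tv5302) 
(.nd (nat_lit 6) tv5303 tv5304)) (.nd (nat_lit 7) (.nd (nat_lit 6) tv5305 tv5306) tv5307))))) 
(.nd (nat_lit 11) (.nd (nat_lit 10) (.nd (nat_lit 9) (.nd (nat_lit 8) 
(.nd (nat_lit 7) tv5308 tv5309) (.nd (nat_lit 7) tv5310 tv5311)) (.nd (nat_lit 8) 
(.nd (nat_lit 7) tv5312 (.nd (nat_lit 6) tv5313 tv5314)) (.nd (nat_lit 7) tv5315 tv5316))) 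
(.nd (nat_lit 9) (.nd (nat_lit 8) (.nd (nat_lit 7) tv5317 (.nd (nat_lit 6) tv5318 tv5319)) 
(.nd (nat_lit 7) (.nd (nat_lit 6) tv5320 tv5321) tv5322)) (.nd (nat_lit 8) 
(.nd (nat_lit 7) tv5323 tv5324) (.nd (nat_lit 7) tv5325 tv5326)))) (.nd (nat_lit 10) 
(.nd (nat_lit 9) (.nd (nat_lit 8) (.nd (nat_lit 7) tv5327 (.nd (nat_lit 6) tv5328 tv5329)) 
(.nd (nat_lit 7) tv5330 tv5331)) (.nd (nat_lit 8) (.nd (nat_lit 7) tv5332 tv5333) 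
(.nd (nat_lit 7) tv5334 (.nd (nat_lit 6) tv5335 tv5336)))) (.nd (nat_lit 9) (.nd (nat_lit 8) 
(.nd (nat_lit 7) tv5337 tv5338) (.nd (nat_lit 7) tv5339 tv5340)) (.nd (nat_lit 8) 
(.nd (nat_lit 7) tv5341 (.nd (nat_lit 6) tv5342 tv5343)) (.nd (nat_lit 7) tv5344 tv5345)))))) 
(.nd (nat_lit 12) (.nd (nat_lit 11) (.nd (nat_lit 10) (.nd (nat_lit 9) (.nd (nat_lit 8) 
(.nd (nat_lit 7) tv5346 tv5347) (.nd (nat_lit 7) (.nd (nat_lit 6) tv5348 tv5349) 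
(.nd (nat_lit 6) tv5350 tv5351))) (.nd (nat_lit 8) (.nd (nat_lit 7) tv5352 
(.nd (nat_lit 6) tv5353 tv5354)) (.nd (nat_lit 7) tv5355 tv5356))) (.nd (nat_lit 9) 
(.nd (nat_lit 8) (.nd (nat_lit 7) (.nd (nat_lit 6) tv5357 tv5358) (.nd (nat_lit 6) tv5359 tv5360)) 
(.nd (nat_lit 7) (.nd (nat_lit 6) tv5361 tv5362) tv5363)) (.nd (nat_lit 8) (.nd (nat_lit 7) 
(.nd (nat_lit 6) tv5364 tv5365) (.nd (nat_lit 6) tv5366 tv5367)) (.nd (nat_lit 7) 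
(.nd (nat_lit 6) tv5368 tv5369) (.nd (nat_lit 6) tv5370 tv5371))))) (.nd (nat_lit 10) 
(.nd (nat_lit 9) (.nd (nat_lit 8) (.nd (nat_lit 7) (.nd (nat_lit 6) tv5372 tv5373) tv5374) 
(.nd (nat_lit 7) tv5375 tv5376)) (.nd (nat_lit 8) (.nd (nat_lit 7) (.nd (nat_lit 6) tv5377 tv5378) 
(.nd (nat_lit 6) tv5379 tv5380)) (.nd (nat_lit 7) tv5381 tv5382))) (.nd (nat_lit 9) 
(.nd (nat_lit 8) (.nd (nat_lit 7) (.nd (nat_lit 6) tv5383 tv5384) (.nd (nat_lit 6) tv5385 tv5386)) 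
(.nd (nat_lit 7) tv5387 tv5388)) (.nd (nat_lit 8) (.nd (nat_lit 7) tv5389 tv5390) 
(.nd (nat_lit 7) tv5391 (.nd (nat_lit 6) tv5392 tv5393)))))) (.nd (nat_lit 11) (.nd (nat_lit 10) 
(.nd (nat_lit 9) (.nd (nat_lit 8) (.nd (nat_lit 7) (.nd (nat_lit 6) tv5394 tv5395) 
(.nd (nat_lit 6) tv5396 tv5397)) (.nd (nat_lit 7) (.nd (nat_lit 6) tv5398 tv5399) (.nd (nat_lit 6) 
(.nd (nat_lit 5) tv5400 tv5401) tv5402))) (.nd (nat_lit 8) (.nd (nat_lit 7) tv5403 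
(.nd (nat_lit 6) tv5404 tv5405)) (.nd (nat_lit 7) (.nd (nat_lit 6) tv5406 tv5407) 
(.nd (nat_lit 6) tv5408 tv5409)))) (.nd (nat_lit 9) (.nd (nat_lit 8) (.nd (nat_lit 7) 
(.nd (nat_lit 6) tv5410 tv5411) (.nd (nat_lit 6) tv5412 tv5413)) (.nd (nat_lit 7) 
(.nd (nat_lit 6) tv5414 tv5415) (.nd (nat_lit 6) tv5416 tv5417))) (.nd (nat_lit 8) (.nd (nat_lit 7) 
(.nd (nat_lit 6) tv5418 tv5419) tv5420) (.nd (nat_lit 7) (.nd (nat_lit 6) tv5421 tv5422) tv5423)))) 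
(.nd (nat_lit 10) (.nd (nat_lit 9) (.nd (nat_lit 8) (.nd (nat_lit 7) 
(.nd (nat_lit 6) tv5424 tv5425) (.nd (nat_lit 6) tv5426 tv5427)) (.nd (nat_lit 7) 
(.nd (nat_lit 6) tv5428 tv5429) (.nd (nat_lit 6) tv5430 tv5431))) (.nd (nat_lit 8) (.nd (nat_lit 7) 
(.nd (nat_lit 6) tv5432 tv5433) (.nd (nat_lit 6) tv5434 tv5435)) (.nd (nat_lit 7) tv5436 tv5437))) 
(.nd (nat_lit 9) (.nd (nat_lit 8) (.nd (nat_lit 7) (.nd (nat_lit 6) tv5438 tv5439) 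
(.nd (nat_lit 6) tv5440 tv5441)) (.nd (nat_lit 7) tv5442 tv5443)) (.nd (nat_lit 8) 
(.nd (nat_lit 7) tv5444 tv5445) (.nd (nat_lit 7) tv5446 tv5447))))))) (.nd (nat_lit 13) 
(.nd (nat_lit 12) (.nd (nat_lit 11) (.nd (nat_lit 10) (.nd (nat_lit 9) (.nd (nat_lit 8) 
(.nd (nat_lit 7) (.nd (nat_lit 6) tv5448 tv5449) tv5450) (.nd (nat_lit 7) tv5451 
(.nd (nat_lit 6) tv5452 tv5453))) (.nd (nat_lit 8) (.nd (nat_lit 7) (.nd (nat_lit 6) tv5454 tv5455) 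
(.nd (nat_lit 6) tv5456 tv5457)) (.nd (nat_lit 7) (.nd (nat_lit 6) tv5458 tv5459) tv5460))) 
(.nd (nat_lit 9) (.nd (nat_lit 8) (.nd (nat_lit 7) tv5461 tv5462) (.nd (nat_lit 7) tv5463 tv5464)) 
(.nd (nat_lit 8) (.nd (nat_lit 7) tv5465 tv5466) (.nd (nat_lit 7) tv5467 tv5468)))) 
(.nd (nat_lit 10) (.nd (nat_lit 9) (.nd (nat_lit 8) (.nd (nat_lit 7) tv5469 tv5470) 
(.nd (nat_lit 7) (.nd (nat_lit 6) tv5471 tv5472) (.nd (nat_lit 6) tv5473 tv5474))) (.nd (nat_lit 8) 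
(.nd (nat_lit 7) tv5475 tv5476) (.nd (nat_lit 7) (.nd (nat_lit 6) tv5477 tv5478) 
(.nd (nat_lit 6) tv5479 tv5480)))) (.nd (nat_lit 9) (.nd (nat_lit 8) (.nd (nat_lit 7) 
(.nd (nat_lit 6) tv5481 tv5482) tv5483) (.nd (nat_lit 7) tv5484 tv5485)) (.nd (nat_lit 8) 
(.nd (nat_lit 7) tv5486 tv5487) (.nd (nat_lit 7) tv5488 tv5489))))) (.nd (nat_lit 11) 
(.nd (nat_lit 10) (.nd (nat_lit 9) (.nd (nat_lit 8) (.nd (nat_lit 7) tv5490 tv5491) 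
(.nd (nat_lit 7) (.nd (nat_lit 6) tv5492 tv5493) (.nd (nat_lit 6) tv5494 tv5495))) tv5496) tv5497) 
(.nd (nat_lit 10) tv5498 tv5499))) (.nd (nat_lit 12) (.nd (nat_lit 11) 
(.nd (nat_lit 10) tv5500 tv5501) (.nd (nat_lit 10) tv5502 tv5503)) (.nd (nat_lit 11) 
(.nd (nat_lit 10) tv5504 tv5505) (.nd (nat_lit 10) tv5506 tv5507)))))) (.nd (nat_lit 15) 
(.nd (nat_lit 14) (.nd (nat_lit 13) (.nd (nat_lit 12) (.nd (nat_lit 11) 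
(.nd (nat_lit 10) tv5508 tv5509) (.nd (nat_lit 10) tv5510 tv5511)) (.nd (nat_lit 11) 
(.nd (nat_lit 10) tv5512 tv5513) (.nd (nat_lit 10) tv5514 tv5515))) (.nd (nat_lit 12) 
(.nd (nat_lit 11) (.nd (nat_lit 10) tv5516 tv5517) (.nd (nat_lit 10) tv5518 tv5519)) 
(.nd (nat_lit 11) (.nd (nat_lit 10) tv5520 tv5521) (.nd (nat_lit 10) tv5522 tv5523)))) 
(.nd (nat_lit 13) (.nd (nat_lit 12) (.nd (nat_lit 11) (.nd (nat_lit 10) tv5524 tv5525) 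
(.nd (nat_lit 10) tv5526 tv5527)) (.nd (nat_lit 11) (.nd (nat_lit 10) tv5528 tv5529) 
(.nd (nat_lit 10) tv5530 tv5531))) (.nd (nat_lit 12) (.nd (nat_lit 11) 
(.nd (nat_lit 10) tv5532 tv5533) (.nd (nat_lit 10) tv5534 tv5535)) (.nd (nat_lit 11) 
(.nd (nat_lit 10) tv5536 tv5537) (.nd (nat_lit 10) tv5538 tv5539))))) (.nd (nat_lit 14) 
(.nd (nat_lit 13) (.nd (nat_lit 12) (.nd (nat_lit 11) (.nd (nat_lit 10) tv5540 tv5541) 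
(.nd (nat_lit 10) tv5542 tv5543)) (.nd (nat_lit 11) (.nd (nat_lit 10) tv5544 tv5545) 
(.nd (nat_lit 10) tv5546 tv5547))) (.nd (nat_lit 12) (.nd (nat_lit 11) 
(.nd (nat_lit 10) tv5548 tv5549) (.nd (nat_lit 10) tv5550 tv5551)) (.nd (nat_lit 11) 
(.nd (nat_lit 10) tv5552 tv5553) (.nd (nat_lit 10) tv5554 tv5555)))) (.nd (nat_lit 13) 
(.nd (nat_lit 12) (.nd (nat_lit 11) (.nd (nat_lit 10) tv5556 tv5557) 
(.nd (nat_lit 10) tv5558 tv5559)) (.nd (nat_lit 11) (.nd (nat_lit 10) tv5560 tv5561) 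
(.nd (nat_lit 10) tv5562 tv5563))) (.nd (nat_lit 12) (.nd (nat_lit 11) 
(.nd (nat_lit 10) tv5564 tv5565) (.nd (nat_lit 10) tv5566 tv5567)) (.nd (nat_lit 11) 
(.nd (nat_lit 10) tv5568 tv5569) (.nd (nat_lit 10) tv5570 tv5571))))))))) (.nd (nat_lit 16) 
(.nd (nat_lit 15) (.nd (nat_lit 14) (.nd (nat_lit 13) (.nd (nat_lit 12) (.nd (nat_lit 11) 
(.nd (nat_lit 10) tv5572 tv5573) (.nd (nat_lit 10) tv5574 tv5575)) (.nd (nat_lit 11) 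
(.nd (nat_lit 10) tv5576 tv5577) (.nd (nat_lit 10) tv5578 tv5579))) (.nd (nat_lit 12) 
(.nd (nat_lit 11) (.nd (nat_lit 10) tv5580 tv5581) (.nd (nat_lit 10) tv5582 tv5583)) 
(.nd (nat_lit 11) (.nd (nat_lit 10) tv5584 tv5585) (.nd (nat_lit 10) tv5586 tv5587)))) 
(.nd (nat_lit 13) (.nd (nat_lit 12) (.nd (nat_lit 11) (.nd (nat_lit 10) tv5588 tv5589) 
(.nd (nat_lit 10) tv5590 tv5591)) (.nd (nat_lit 11) (.nd (nat_lit 10) tv5592 tv5593) 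
(.nd (nat_lit 10) tv5594 tv5595))) (.nd (nat_lit 12) (.nd (nat_lit 11) 
(.nd (nat_lit 10) tv5596 tv5597) (.nd (nat_lit 10) tv5598 tv5599)) (.nd (nat_lit 11) 
(.nd (nat_lit 10) tv5600 tv5601) (.nd (nat_lit 10) tv5602 tv5603))))) (.nd (nat_lit 14) 
(.nd (nat_lit 13) (.nd (nat_lit 12) (.nd (nat_lit 11) (.nd (nat_lit 10) tv5604 tv5605) 
(.nd (nat_lit 10) tv5606 tv5607)) (.nd (nat_lit 11) (.nd (nat_lit 10) tv5608 tv5609) 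
(.nd (nat_lit 10) tv5610 tv5611))) (.nd (nat_lit 12) (.nd (nat_lit 11) 
(.nd (nat_lit 10) tv5612 tv5613) (.nd (nat_lit 10) tv5614 tv5615)) (.nd (nat_lit 11) 
(.nd (nat_lit 10) tv5616 tv5617) (.nd (nat_lit 10) tv5618 tv5619)))) (.nd (nat_lit 13) 
(.nd (nat_lit 12) (.nd (nat_lit 11) (.nd (nat_lit 10) tv5620 tv5621) 
(.nd (nat_lit 10) tv5622 tv5623)) (.nd (nat_lit 11) (.nd (nat_lit 10) tv5624 tv5625) 
(.nd (nat_lit 10) tv5626 tv5627))) (.nd (nat_lit 12) (.nd (nat_lit 11) 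
(.nd (nat_lit 10) tv5628 tv5629) (.nd (nat_lit 10) tv5630 tv5631)) (.nd (nat_lit 11) 
(.nd (nat_lit 10) tv5632 tv5633) (.nd (nat_lit 10) tv5634 tv5635)))))) (.nd (nat_lit 14) 
(.nd (nat_lit 13) (.nd (nat_lit 12) (.nd (nat_lit 11) (.nd (nat_lit 10) tv5636 tv5637) 
(.nd (nat_lit 10) tv5638 tv5639)) (.nd (nat_lit 11) (.nd (nat_lit 10) tv5640 tv5641) 
(.nd (nat_lit 10) tv5642 tv5643))) (.nd (nat_lit 12) (.nd (nat_lit 11) 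
(.nd (nat_lit 10) tv5644 tv5645) (.nd (nat_lit 10) tv5646 tv5647)) (.nd (nat_lit 11) 
(.nd (nat_lit 10) tv5648 tv5649) (.nd (nat_lit 10) tv5650 tv5651)))) (.nd (nat_lit 11) 
(.nd (nat_lit 10) tv5652 tv5653) (.nd (nat_lit 10) tv5654 tv5655)))))

end

end Pool.Agent.Lib.MP_5854e1_co.Cz
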